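import Pool.Agent.MP_e23604_nt.R.CAll

set_option linter.all false

section

/-!
Statements of the steps of the local-global principle and of the reciprocity law for
two-cocycles of three-power order.
-/

set_option autoImplicit false

open NumberField IsDedekindDomain Module Filter Topology
open scoped Classical

namespace Pool.Agent.MP_e23604_nt.S

open B R Pool.Agent.MP_f3cd89_nt

/-- the elements that fix the cube roots of unity -/
def GK : Subgroup GQ where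
  carrier := {g | ∀ z : Qb, z ^ 3 = 1 → g z = z}
  one_mem' _ _ := rfl
  mul_mem' {a b} ha hb z hz := by rw [AlgEquiv.mul_apply, hb z hz, ha z hz]
  inv_mem' {a} ha z hz := by
    have := congrArg (a⁻¹ : GQ) (ha z hz)
    rw [← AlgEquiv.mul_apply, inv_mul_cancel, AlgEquiv.one_apply] at this
    exact this.symm

/-- `N` is open and normal, and `U` is a `p`-group modulo `N` -/
def Lp (p : ℕ) (N U : Subgroup GQ) : Prop := ON N ∧ ∀ g ∈ U, ∃ k : ℕ, g ^ p ^ k ∈ N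

/-- `r` is the local invariant of `c`, computed with a character modulo `n` -/
def Iv (l : ℕ) [Fact l.Prime] (γ : GQ) (c : GQ → GQ → Qb) (n : ℕ) (r : ℚ) : Prop :=
  ∃ (s : GQ → ZMod n) (a : ℚ) (φ : GQ), a ≠ 0 ∧ Frob l γ φ ∧
    Adt (Dec (nv l γ)) s ∧ Lc (Dec (nv l γ)) s ∧ (∀ τ ∈ Ine l γ, s τ = 0) ∧
    r = padicValRat l a * (s φ).val / n ∧
    Cob (Dec (nv l γ)) fun g h => c g h * (a : Qb) ^ car (s g) (s h)

/-- a chosen primitive cube root of unity -/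
noncomputable def w3 : Qb := Classical.epsilon fun z => z ^ 2 + z + 1 = 0

/-- a chosen cube root -/
noncomputable def cbr (r : ℚ) : Qb := Classical.epsilon fun s => s ^ 3 = (r : Qb)

/-- the logarithm of a cube root of unity -/
noncomputable def lg (z : Qb) : ZMod 3 := if z = 1 then 0 else if z = w3 then 1 else 2

/-- the cubic Kummer cocycle of a rational number -/
noncomputable def kum (r : ℚ) (g : GQ) : ZMod 3 := lg (g (cbr r) / cbr r)

/-- the quadratic character of the third cyclotomic field -/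
noncomputable def ep (g : GQ) : ZMod 3 := if g ∈ GK then 1 else -1

/-- `f` is a cocycle on `H` for the action on the cube roots of unity -/
def Tdt (H : Subgroup GQ) (f : GQ → ZMod 3) : Prop :=
  ∀ g ∈ H, ∀ h ∈ H, f (g * h) = f g + ep g * f h

/-- the trivial character or the cyclotomic character modulo three -/
noncomputable def sg (b : Bool) (g : GQ) : ZMod 3 := if b then ep g else 1

/-- `c` is the boundary of a locally constant cochain on `H` -/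
def Bd3 (b : Bool) (H : Subgroup GQ) (c : GQ → GQ → ZMod 3) : Prop :=
  ∃ β : GQ → ZMod 3, Lc H β ∧ ∀ g ∈ H, ∀ h ∈ H, β g + sg b g * β h = c g h + β (g * h)

/-- `a` is a cube modulo `l` -/
def Cub (l a : ℕ) : Prop := ∃ x : ZMod l, x ^ 3 = a

/-- `ψ` is a cubic character ramified exactly at `l` -/
structure Cu (l : ℕ) [Fact l.Prime] (ψ : GQ → ZMod 3) : Prop where
  add : Adt ⊤ ψ
  lc : Lc ⊤ ψ
  ram : ∃ τ ∈ Ine l 1, ψ τ ≠ 0
  unr : ∀ (q : ℕ) [Fact q.Prime] (γ : GQ), q ≠ l → ∀ τ ∈ Ine q γ, ψ τ = 0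

/-! ### Elementary lemmas -/

theorem mem_GK {g : GQ} : g ∈ GK ↔ ∀ z : Qb, z ^ 3 = 1 → g z = z := Iff.rfl

theorem w3_spec : w3 ^ 2 + w3 + 1 = 0 := by
  refine Classical.epsilon_spec (p := fun z : Qb => z ^ 2 + z + 1 = 0) ?_
  obtain ⟨s, hs⟩ := IsAlgClosed.exists_pow_nat_eq (-3 : Qb) two_pos
  exact ⟨(s - 1) / 2, by linear_combination hs / 4⟩

theorem w3_cube : w3 ^ 3 = 1 := by linear_combination (w3 - 1) * w3_spec

theorem w3_ne_one : w3 ≠ 1 := fun h => by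
  have := w3_spec
  rw [h] at this
  norm_num at this

theorem w3_ne_zero : w3 ≠ 0 := fun h => by
  have := w3_spec
  rw [h] at this
  norm_num at this

theorem w3_prim : IsPrimitiveRoot w3 3 :=
  (IsPrimitiveRoot.iff_orderOf).2 (orderOf_eq_prime w3_cube w3_ne_one)

theorem cube_one {z : Qb} (h : z ^ 3 = 1) : z = 1 ∨ z = w3 ∨ z = w3 ^ 2 := by
  have : (z - 1) * ((z - w3) * (z - w3 ^ 2)) = 0 := by
    linear_combination h + (z - z ^ 2) * w3_spec + (z - 1) * w3_cube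
  simpa only [mul_eq_zero, sub_eq_zero] using this

theorem mem_GK' {g : GQ} : g ∈ GK ↔ g w3 = w3 := by
  refine ⟨fun h => h _ w3_cube, fun h z hz => ?_⟩
  rcases cube_one hz with rfl | rfl | rfl <;> simp [h]

theorem not_mem_GK {g : GQ} (h : g ∉ GK) : g w3 = w3 ^ 2 := by
  have h1 : g w3 ^ 3 = 1 := by rw [← map_pow, w3_cube, map_one]
  rcases cube_one h1 with e | e | e
  · exact absurd (g.injective (e.trans (map_one g).symm)) w3_ne_one
  · exact absurd (mem_GK'.2 e) h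
  · exact e

theorem GK_mul {g h : GQ} (hg : g ∉ GK) (hh : h ∉ GK) : g * h ∈ GK := by
  rw [mem_GK', AlgEquiv.mul_apply, not_mem_GK hh, map_pow, not_mem_GK hg]
  linear_combination w3 * w3_cube

theorem GK_on : ON GK := by
  refine ⟨⟨fun n hn g => ?_⟩, ?_⟩
  · by_cases hg : g ∈ GK
    · exact GK.mul_mem (GK.mul_mem hg hn) (GK.inv_mem hg)
    · exact GK_mul (by rwa [GK.mul_mem_cancel_right hn]) (by rwa [GK.inv_mem_iff])
  · have : (GK : Set GQ) = MulAction.stabilizer GQ w3 := Set.ext fun _ => mem_GK'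
    rw [this]
    exact stabilizer_isOpen_of_isIntegral (K := ℚ) _

theorem GK_nr : NoReal GK := by
  refine ⟨w3, fun g hg => mem_GK'.1 hg, fun ι h0 => ?_⟩
  have e := congrArg (fun z => (ι z).re) w3_spec
  simp only [map_add, map_one, pow_two, map_mul, Complex.mul_re, h0, Complex.add_re,
    Complex.one_re, map_zero, Complex.zero_re] at e
  nlinarith [mul_self_nonneg (2 * (ι w3).re + 1)]

theorem ep_pos {g : GQ} (h : g ∈ GK) : ep g = 1 := if_pos h

theorem ep_neg {g : GQ} (h : g ∉ GK) : ep g = -1 := if_neg h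

theorem ep_mul (g h : GQ) : ep (g * h) = ep g * ep h := by
  by_cases hg : g ∈ GK <;> by_cases hh : h ∈ GK
  · rw [ep_pos hg, ep_pos hh, ep_pos (GK.mul_mem hg hh), mul_one]
  · rw [ep_pos hg, ep_neg hh, ep_neg (by rwa [GK.mul_mem_cancel_left hg]), one_mul]
  · rw [ep_neg hg, ep_pos hh, ep_neg (by rwa [GK.mul_mem_cancel_right hh]), mul_one]
  · rw [ep_neg hg, ep_neg hh, ep_pos (GK_mul hg hh), neg_mul_neg, mul_one]

theorem sg_true (g : GQ) : sg true g = ep g := rfl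

theorem sg_false (g : GQ) : sg false g = 1 := rfl

theorem sg_pos (b : Bool) {g : GQ} (h : g ∈ GK) : sg b g = 1 := by
  cases b
  exacts [rfl, ep_pos h]

theorem sg_mul (b : Bool) (g h : GQ) : sg b (g * h) = sg b g * sg b h := by
  cases b
  exacts [(mul_one _).symm, ep_mul g h]

theorem ep_lc : Lc ⊤ ep := ⟨GK, GK_on, fun g _ h _ e => by
  have := ep_mul g (g⁻¹ * h)
  rw [mul_inv_cancel_left, ep_pos e, mul_one] at this
  exact this.symm⟩

theorem z3 (a : ZMod 3) : a = 0 ∨ a = 1 ∨ a = 2 := by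
  revert a
  decide

theorem w3_sq_ne : w3 ^ 2 ≠ 1 ∧ w3 ^ 2 ≠ w3 :=
  ⟨w3_prim.pow_ne_one_of_pos_of_lt two_ne_zero (by norm_num), fun h => w3_ne_one
    (mul_left_cancel₀ w3_ne_zero (by rw [← sq, h, mul_one]))⟩

theorem lg_pow (a : ZMod 3) : lg (w3 ^ a.val) = a := by
  rcases z3 a with rfl | rfl | rfl
  · simp [lg]
  · simp [lg, ZMod.val_one, w3_ne_one]
  · rw [show (2 : ZMod 3).val = 2 from rfl, lg, if_neg w3_sq_ne.1, if_neg w3_sq_ne.2]

theorem pow_lg {z : Qb} (h : z ^ 3 = 1) : w3 ^ (lg z).val = z := by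
  rcases cube_one h with rfl | rfl | rfl
  · simp [lg]
  · simp [lg, ZMod.val_one, w3_ne_one]
  · rw [lg, if_neg w3_sq_ne.1, if_neg w3_sq_ne.2]
    rfl

theorem w3_add (a b : ZMod 3) : w3 ^ (a + b).val = w3 ^ a.val * w3 ^ b.val :=
  pow_val_add_INVQ w3_cube a b

theorem w3_inj {a b : ZMod 3} (h : w3 ^ a.val = w3 ^ b.val) : a = b := by
  rw [← lg_pow a, h, lg_pow]

theorem act_w3 (g : GQ) (a : ZMod 3) : g (w3 ^ a.val) = w3 ^ (ep g * a).val := by
  by_cases hg : g ∈ GK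
  · rw [ep_pos hg, one_mul, map_pow, mem_GK'.1 hg]
  · rw [ep_neg hg, map_pow, not_mem_GK hg, show (-1 : ZMod 3) = 2 from rfl,
      ← pow_val_mul_INVQ w3_cube]
    rfl

theorem cbr_cube (r : ℚ) : cbr r ^ 3 = r :=
  Classical.epsilon_spec (IsAlgClosed.exists_pow_nat_eq (r : Qb) three_pos)

theorem Lp.inf {p : ℕ} {N N' U : Subgroup GQ} (h : Lp p N U) (h' : Lp p N' U) :
    Lp p (N ⊓ N') U := by
  refine ⟨h.1.inf h'.1, fun g hg => ?_⟩
  obtain ⟨k, hk⟩ := h.2 g hg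
  obtain ⟨j, hj⟩ := h'.2 g hg
  refine ⟨k + j, ?_, ?_⟩
  · rw [pow_add, pow_mul]
    exact N.pow_mem hk _
  · rw [add_comm, pow_add, pow_mul]
    exact N'.pow_mem hj _

theorem Lp.mono {p : ℕ} {N U U' : Subgroup GQ} (h : Lp p N U) (h' : U' ≤ U) : Lp p N U' :=
  ⟨h.1, fun g hg => h.2 g (h' hg)⟩

theorem Lp.self (p : ℕ) {U : Subgroup GQ} (h : ON U) : Lp p U U :=
  ⟨h, fun g hg => ⟨0, by simpa using hg⟩⟩

theorem Iv.cob_mul {l : ℕ} [Fact l.Prime] {γ : GQ} {c c' : GQ → GQ → Qb} {n : ℕ} {r : ℚ}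
    (h : Cob (Dec (nv l γ)) c) (h' : Iv l γ c' n r) : Iv l γ (fun g j => c g j * c' g j) n r := by
  obtain ⟨s, a, φ, h2, h3, h4, h5, h6, h7, h8⟩ := h'
  exact ⟨s, a, φ, h2, h3, h4, h5, h6, h7, (h.mul h8).congr fun _ _ _ _ => (mul_assoc _ _ _).symm⟩

theorem Iv.congr {l : ℕ} [Fact l.Prime] {γ : GQ} {c c' : GQ → GQ → Qb} {n : ℕ} {r : ℚ}
    (h : Iv l γ c n r) (e : ∀ g ∈ Dec (nv l γ), ∀ j ∈ Dec (nv l γ), c g j = c' g j) :
    Iv l γ c' n r := by
  obtain ⟨s, a, φ, h2, h3, h4, h5, h6, h7, h8⟩ := h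
  exact ⟨s, a, φ, h2, h3, h4, h5, h6, h7, h8.congr fun g hg j hj => by rw [e g hg j hj]⟩

/-! ### The norm theorem -/

/-- the count of ambiguous classes, in abstract form -/
def AMB_st : Prop := ∀ (A I : Type) [AddCommGroup A] [AddCommGroup I] (n : ℕ) (D N : A →+ A)
  (D' N' : I →+ I) (j : A →+ I), 0 < n → (∀ a, j (D a) = D' (j a)) → (∀ a, j (N a) = N' (j a)) →
  (∀ x, D (N x) = 0) → (∀ x, N (D x) = 0) → (∀ x, D' (N' x) = 0) → (∀ x, N' (D' x) = 0) →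
  j.range.index ≠ 0 → (∀ a, N a = 0 → ∃ b, a = D b) →
  (∃ f : I → Fin n, ∀ x y, D' x = 0 → D' y = 0 → f x = f y →
    ∃ a e, D a = 0 ∧ x - y = j a + N' e) →
  (j.ker.map N).relIndex (j.ker ⊓ D.ker) ≠ 0 →
  (j.ker.map D).relIndex (j.ker ⊓ N.ker) = n * (j.ker.map N).relIndex (j.ker ⊓ D.ker) →
  ∀ a e, D a = 0 → j a = N' e → ∃ b, a = N b

/-- statements about all extensions of prime degree -/
def AllX (P : ∀ (F M : Type) [Field F] [NumberField F] [Field M] [NumberField M] [Algebra F M],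
    ℕ → (M ≃ₐ[F] M) → Finset (Pr F) → Prop) : Prop :=
  ∀ (F M : Type) [Field F] [NumberField F] [IsTotallyComplex F] [Field M] [NumberField M]
    [Algebra F M] [IsGalois F M] (p : ℕ) (s : M ≃ₐ[F] M) (S : Finset (Pr F)), p.Prime →
    finrank F M = p → s ≠ 1 → P F M p s S

/-- the second inequality for invariant divisors -/
def SIP_st : Prop := AllX fun F M _ _ _ _ _ p s S => ∀ N : ℕ, 0 < N → Unr M (M ≃ₐ[F] M) S →
  ∃ f : (Pr M →₀ ℤ) → Fin p, ∀ D D' : Pr M →₀ ℤ, D ∈ off (above M S) → D' ∈ off (above M S) →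
  (∀ w, D (gact s w) = D w) → (∀ w, D' (gact s w) = D' w) → f D = f D' →
  ∃ (a : M) (E : Pr M →₀ ℤ), a ≠ 0 ∧ s a = a ∧ Cong (above M S) N a ∧ E ∈ off (above M S) ∧
    ∀ w, D w - D' w = ord w a + ∑ i ∈ Finset.range p, E (gact (s ^ i) w)

/-- local norms, simultaneously -/
def LOCN_st : Prop := AllX fun _ M _ _ _ _ _ p s S => ∀ a : M, a ≠ 0 → s a = a →
  (∀ w : Pr M, w ∉ above M S → gact s w = w → (p : ℤ) ∣ ord w a) →
  (∀ w ∈ above M S, gact s w = w → ∀ N : ℕ, ∃ y : M, y ≠ 0 ∧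
    Cong {w} N (a / ∏ i ∈ Finset.range p, (s ^ i) y)) →
  (∃ E ∈ off (above M S), ∀ w, w ∉ above M S →
    ord w a = ∑ i ∈ Finset.range p, E (gact (s ^ i) w)) ∧
    ∀ N : ℕ, ∃ y : M, y ≠ 0 ∧ Cong (above M S) N (a / ∏ i ∈ Finset.range p, (s ^ i) y)

/-- the norm theorem of Hasse for an extension of prime degree of a totally complex field -/
def HNT_st : Prop := AllX fun F M _ _ _ _ _ p s S => ∀ a : M, a ≠ 0 → s a = a →
  Unr M (M ≃ₐ[F] M) S → (∀ w : Pr M, w ∉ above M S → gact s w = w → (p : ℤ) ∣ ord w a) →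
  (∀ w ∈ above M S, gact s w = w → ∀ N : ℕ, ∃ y : M, y ≠ 0 ∧
    Cong {w} N (a / ∏ i ∈ Finset.range p, (s ^ i) y)) →
  ∃ μ : M, ∏ i ∈ Finset.range p, (s ^ i) μ = a

/-- the norm theorem for a subgroup of automorphisms of prime order -/
def HNK_st : Prop := ∀ (M : Type) [Field M] [NumberField M] (p : ℕ) (s : M ≃ₐ[ℚ] M) (a : M),
  p.Prime → s ≠ 1 → s ^ p = 1 → (∃ x : M, s x = x ∧ ∀ ι : M →+* ℂ, (ι x).im ≠ 0) → a ≠ 0 →
  s a = a → (∀ w : Pr M, (∀ x, ord w (s x) = ord w x) →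
    (∀ N : ℕ, ∃ y : M, y ≠ 0 ∧ Cong {w} N (a / ∏ i ∈ Finset.range p, (s ^ i) y)) ∨
    ((p : ℤ) ∣ ord w a ∧ ¬ ∀ x : 𝓞 M, w.valuation M (s x - x) < 1)) →
  ∃ μ : M, ∏ i ∈ Finset.range p, (s ^ i) μ = a

/-- the norm theorem for a pair of open subgroups -/
def HNS_st : Prop := ∀ (p : ℕ) (N H H' : Subgroup GQ) (χ : GQ → ZMod p) (s : GQ) (a : Qb),
  p.Prime → ON N → N ≤ H → Adt H' χ → (∀ g, g ∈ H ↔ g ∈ H' ∧ χ g = 0) → s ∈ H' → χ s = 1 →
  NoReal H' → a ≠ 0 → Fix H' a →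
  (∀ (l : ℕ) [Fact l.Prime] (γ : GQ), ∀ t ∈ Dec (nv l γ) ⊓ H', χ t = 1 →
    (∃ y, Fix (Dec (nv l γ) ⊓ H) y ∧ ∏ i ∈ Finset.range p, (t ^ i) y = a) ∨
    ((∀ τ ∈ H', τ ∈ Ine l γ → τ ∈ N) ∧ ∃ z, Fix N z ∧ nv l γ a = nv l γ z ^ p)) →
  ∃ μ, Fix H μ ∧ ∏ i ∈ Finset.range p, (s ^ i) μ = a

/-- induction along subgroups of prime index -/
def IND_st : Prop := ∀ (p : ℕ) (N U : Subgroup GQ) (P : Subgroup GQ → Prop), p.Prime → Lp p N U →
  N ≤ U → P N → (∀ (H H' : Subgroup GQ) (χ : GQ → ZMod p) (s : GQ), N ≤ H → H' ≤ U → P H →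
    Adt H' χ → (∀ g, g ∈ H ↔ g ∈ H' ∧ χ g = 0) → s ∈ H' → χ s = 1 → P H') → P U

/-- the local-global principle over a totally complex field -/
def ABHN_st : Prop := ∀ (p : ℕ) (N U : Subgroup GQ) (c : GQ → GQ → Qb), p.Prime → Lp p N U →
  N ≤ U → NoReal U → Coc U c → Inf2 N U c →
  (∀ (l : ℕ) [Fact l.Prime] (γ : GQ), Cob (Dec (nv l γ) ⊓ U) c ∨ Unr2 N U l γ c) →
  ∃ β, Inf1 N U β ∧ Bd U c β

/-! ### The reciprocity law -/

/-- the local invariant is well defined -/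
def VAL_st : Prop :=
  (∀ (l : ℕ) [Fact l.Prime] (γ : GQ) (c : GQ → GQ → Qb) (n n' : ℕ) (r r' : ℚ), n ≠ 0 → n' ≠ 0 →
    Iv l γ c n r → Iv l γ c n' r' → ∃ k : ℤ, r - r' = k) ∧
  ∀ (l : ℕ) [Fact l.Prime] (γ : GQ) (c : GQ → GQ → Qb) (n : ℕ), Cob (Dec (nv l γ)) c →
    Iv l γ c n 0

/-- the logarithm of the cyclotomic character modulo a power of three -/
structure Chi (m : ℕ) (U : Subgroup GQ) (χ : GQ → ZMod (2 * 3 ^ m))
    (f : ℕ → ZMod (2 * 3 ^ m)) : Prop where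
  on : ON U
  le : U ≤ GK
  add : Adt ⊤ χ
  ker : ∀ g, g ∈ U ↔ χ g = 0
  thr : ∃ s ∈ Dec (nv 3 1), χ s = 1
  unr : ∀ (l : ℕ) [Fact l.Prime] (γ : GQ), l ≠ 3 → Ine l γ ≤ U
  fr : ∀ (l : ℕ) [Fact l.Prime] (γ φ : GQ), l ≠ 3 → Frob l γ φ → χ φ = f l
  sum : ∀ (a : ℚ) (T : Finset ℕ), a ≠ 0 → nv 3 1 ((a : Qb) - 1) ≤ nv 3 1 3 ^ (m + 1) →
    (∀ l ∈ T, l.Prime ∧ l ≠ 3) → (∀ l : ℕ, l.Prime → l ≠ 3 → padicValRat l a ≠ 0 → l ∈ T) →
    2 * ∑ l ∈ T, (padicValRat l a : ZMod (2 * 3 ^ m)) * f l = 0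

/-- existence of such characters with large local degrees -/
def CHI_st : Prop := ∀ k B : ℕ, ∃ (m : ℕ) (U : Subgroup GQ) (χ : GQ → ZMod (2 * 3 ^ m))
  (f : ℕ → ZMod (2 * 3 ^ m)), Chi m U χ f ∧
    ∀ l : ℕ, l.Prime → l ≠ 3 → l ≤ B → ∀ i : ℕ, (i : ZMod (2 * 3 ^ m)) * f l = 0 → 3 ^ k ∣ i

/-- the reciprocity law -/
def REC_st : Prop := ∀ (N : Subgroup GQ) (c : GQ → GQ → Qb) (n k : ℕ) (Q : Finset ℕ)
  (γ : ℕ → GQ) (r : ℕ → ℚ), Lp 3 N GK → Coc ⊤ c → Inf2 N ⊤ c → n ≠ 0 → (∀ g h, c g h ^ n = 1) →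
  (∀ l ∈ Q, l.Prime ∧ l ≠ 3) → (∀ (l : ℕ) [Fact l.Prime], l ∈ Q → Iv l (γ l) c (3 ^ k) (r l)) →
  (∀ (l : ℕ) [Fact l.Prime], l ∉ Q → Cob (Dec (nv l 1)) c ∨ (l ≠ 3 ∧ ∀ γ', Ine l γ' ≤ N)) →
  ∃ z : ℤ, ∑ l ∈ Q, r l = z

/-- the local-global principle for cocycles with values in the cube roots of unity -/
def AQ_st : Prop :=
  (∀ (N : Subgroup GQ) (c : GQ → GQ → Qb), Lp 3 N GK → N ≤ GK → Coc GK c → Inf2 N GK c →
    (∀ g ∈ GK, ∀ h ∈ GK, c g h ^ 3 = 1) →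
    (∀ (l : ℕ) [Fact l.Prime] (γ : GQ), Cob (Dec (nv l γ) ⊓ GK) c ∨ Ine l γ ⊓ GK ≤ N) →
    ∃ β, Lc GK β ∧ (∀ g ∈ GK, β g ^ 3 = 1) ∧ Bd GK c β) ∧
  ∀ (N : Subgroup GQ) (c : GQ → GQ → Qb), Lp 3 N GK → Coc ⊤ c → Inf2 N ⊤ c →
    (∀ g h, c g h ^ 3 = 1) →
    (∀ (l : ℕ) [Fact l.Prime], Cob (Dec (nv l 1) ⊓ GK) c ∨ ∀ γ, Ine l γ ⊓ GK ≤ N) →
    ∃ β, Lc ⊤ β ∧ (∀ g, β g ^ 3 = 1) ∧ Bd ⊤ c β

/-- the local-global principle for cocycles with values in a group of order three -/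
def AQW_st : Prop := ∀ (b : Bool) (N : Subgroup GQ) (c : GQ → GQ → ZMod 3), Lp 3 N GK →
  (∀ g h j, c g h + c (g * h) j = sg b g * c h j + c g (h * j)) → (∀ g, Cst N ⊤ (c g)) →
  (∀ h, Cst N ⊤ fun g => c g h) →
  (∀ (l : ℕ) [Fact l.Prime], Bd3 b (Dec (nv l 1)) c ∨ ∀ γ, Ine l γ ⊓ GK ≤ N) → Bd3 b ⊤ c

/-! ### Local tools -/

/-- tame inertia -/
def TAM_st : Prop := ∀ (l : ℕ) [Fact l.Prime] (γ : GQ), l ≠ 3 → Ine l γ ≤ GK ∧
  (∃ τ ∈ Ine l γ, kum l τ = 1) ∧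
  ∀ τ ∈ Ine l γ, kum l τ ≠ 0 → ∀ (M : Type) [AddCommGroup M] (a : GQ → M) (e : ℕ),
    Adt (Ine l γ) a → Lc (Ine l γ) a → (∀ u ∈ Ine l γ, 3 ^ e • a u = 0) → a τ = 0 →
    ∀ u ∈ Ine l γ, a u = 0

/-- cubic Kummer cocycles -/
def KAP_st : Prop :=
  (∀ r : ℚ, r ≠ 0 → Tdt ⊤ (kum r) ∧ Lc ⊤ (kum r) ∧
    ∀ g, g (cbr r) = w3 ^ (kum r g).val * cbr r) ∧
  (∀ (r : ℚ) (s : Qb), r ≠ 0 → s ^ 3 = r → ∃ t : ZMod 3, ∀ g : GQ,
    g s = w3 ^ (kum r g + (ep g - 1) * t).val * s) ∧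
  (∀ r r' : ℚ, r ≠ 0 → r' ≠ 0 → ∃ t : ZMod 3, ∀ g,
    kum (r * r') g = kum r g + kum r' g + (ep g - 1) * t) ∧
  (∀ r : ℚ, r ≠ 0 → ∀ g ∈ GK, kum (r ^ 3) g = 0 ∧ kum (-r) g = kum r g) ∧
  (∀ (l : ℕ) [Fact l.Prime] (γ : GQ) (r : ℚ), l ≠ 3 → r ≠ 0 → ∀ τ ∈ Ine l γ,
    kum r τ = (padicValRat l r : ZMod 3) * kum l τ) ∧
  ∀ (l : ℕ) [Fact l.Prime] (γ φ : GQ) (m : ℕ), l % 3 = 1 → Frob l γ φ → ¬ l ∣ m →
    (kum m φ = 0 ↔ Cub l m)

/-- cyclic cubic characters of prime conductor and of conductor nine -/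
def PSI_st : Prop :=
  (∀ (l : ℕ) [Fact l.Prime], l % 3 = 1 → ∃ (ψ : GQ → ZMod 3) (f : ZMod l → ZMod 3), Cu l ψ ∧
    (∀ x y, x ≠ 0 → y ≠ 0 → f (x * y) = f x + f y) ∧
    (∀ x, x ≠ 0 → (f x = 0 ↔ ∃ y, y ^ 3 = x)) ∧
    ∀ (q : ℕ) [Fact q.Prime] (γ φ : GQ), q ≠ l → Frob q γ φ → ψ φ = f q) ∧
  ∃ ψ, Cu 3 ψ ∧ (∀ g, (∀ z : Qb, z ^ 9 = 1 → g z = z) → ψ g = 0) ∧
    ∀ (q : ℕ) [Fact q.Prime] (γ φ : GQ), q ≠ 3 → Frob q γ φ → (ψ φ = 0 ↔ q % 9 = 1 ∨ q % 9 = 8)

/-- tame generators -/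
def TQ_st : Prop := ∀ (k : ℕ) (ζ : Qb) (q : ℕ) [Fact q.Prime] (γ : GQ),
  IsPrimitiveRoot ζ (3 ^ (k + 1)) → 3 ^ (k + 1) ∣ q - 1 → ∃ φ τ, TQ (3 ^ (k + 1)) ζ q γ φ τ

/-- homomorphisms from the tame group with prescribed values -/
def HOMQ_st : Prop := ∀ (k : ℕ) (ζ : Qb) (q : ℕ) [Fact q.Prime] (γ φ τ : GQ) (A : Type)
  [AddCommGroup A], IsPrimitiveRoot ζ (3 ^ (k + 1)) → TQ (3 ^ (k + 1)) ζ q γ φ τ →
  q % 3 = 1 ∧ Dec (nv q γ) ≤ GK ∧ kum q τ ≠ 0 ∧
  (∀ x y : A, 3 ^ (k + 1) • x = 0 → 3 ^ (k + 1) • y = 0 → ∃ a : GQ → A, Adt (Dec (nv q γ)) a ∧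
    Lc (Dec (nv q γ)) a ∧ a φ = x ∧ a τ = y ∧ ∀ g, ∃ i j : ℕ, a g = i • x + j • y) ∧
  ∀ (a : GQ → A) (e : ℕ), Adt (Dec (nv q γ)) a → Lc (Dec (nv q γ)) a →
    (∀ g ∈ Dec (nv q γ), 3 ^ e • a g = 0) → a φ = 0 → a τ = 0 → ∀ g ∈ Dec (nv q γ), a g = 0

/-- the invariant of a cup product at a tame prime -/
def INVQ_st : Prop := ∀ (k : ℕ) (ζ : Qb) (q : ℕ) [Fact q.Prime] (γ φ τ : GQ) (A : Type)
  [AddCommGroup A] (M : AddSubgroup A) (e : A → A → Qb) (a b : GQ → A),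
  IsPrimitiveRoot ζ (3 ^ (k + 1)) → TQ (3 ^ (k + 1)) ζ q γ φ τ → Bil M (3 ^ (k + 1)) e →
  (∀ x ∈ M, 3 ^ (k + 1) • x = 0) → Adt (Dec (nv q γ)) a → Adt (Dec (nv q γ)) b →
  Lc (Dec (nv q γ)) a → Lc (Dec (nv q γ)) b → (∀ g ∈ Dec (nv q γ), a g ∈ M ∧ b g ∈ M) →
  ∃ m : ℤ, ζ ^ m * e (a φ) (b τ) = e (a τ) (b φ) ∧
    Iv q γ (fun g h => e (a g) (b h)) (3 ^ (k + 1)) (m / 3 ^ (k + 1))

/-- local cube roots and local Kummer theory -/
def KUM_st : Prop :=
  (∀ (l : ℕ) [Fact l.Prime] (γ : GQ) (H : Subgroup GQ) (x : Qb), H ≤ Dec (nv l γ) → Fix H x →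
    nv l γ (x - 1) ^ 2 < nv l γ 27 → ∃ s, s ^ 3 = x ∧ Fix H s) ∧
  (∀ (l : ℕ) [Fact l.Prime] (γ : GQ) (a : GQ → ZMod 3), Tdt (Dec (nv l γ)) a →
    Lc (Dec (nv l γ)) a → ∃ (r : ℚ) (ρ : Qb), r ≠ 0 ∧ ρ ^ 3 = r ∧
      ∀ g ∈ Dec (nv l γ), g ρ = w3 ^ (a g).val * ρ) ∧
  (∀ (γ : GQ) (r : ℚ), r ≠ 0 → ∃ i j : ℕ, ∀ m : ℤ, (m % 9 = 2 ^ j % 9 ∨ (-m) % 9 = 2 ^ j % 9) →
    ∀ g ∈ Dec (nv 3 γ) ⊓ GK, kum r g = kum (3 ^ i * m) g)

/-- global Kummer theory -/
def KUG_st : Prop := ∀ (a : GQ → ZMod 3) (T : Finset ℕ), Tdt ⊤ a → Lc ⊤ a → (∀ l ∈ T, l.Prime) →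
  (∀ (l : ℕ) [Fact l.Prime], l ≠ 3 → l ∉ T → ∀ τ ∈ Ine l 1, a τ = 0) →
  ∃ u : ℕ → ZMod 3, ∀ g ∈ GK, a g = ∑ l ∈ insert 3 T, u l * kum l g

/-- cubic characters of the inertia groups -/
def LOC_st : Prop :=
  (∀ (l : ℕ) [Fact l.Prime] (γ φ : GQ) (a : GQ → ZMod 3), l ≠ 3 → φ ∈ Dec (nv l γ) → φ ∉ GK →
    Adt (Ine l γ) a → Lc (Ine l γ) a → (∀ τ ∈ Ine l γ, a (φ * τ * φ⁻¹) = a τ) →
    ∀ τ ∈ Ine l γ, a τ = 0) ∧
  (∀ (l : ℕ) [Fact l.Prime] (γ φ : GQ), l % 3 = 2 → Frob l γ φ → φ ∉ GK) ∧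
  (∀ (l : ℕ) [Fact l.Prime] (γ : GQ), l % 3 = 1 → Dec (nv l γ) ≤ GK) ∧
  ∀ γ : GQ, ∃ c ∈ Ine 3 γ, c ∉ GK

/-- cubic characters at the prime three -/
def LO3_st : Prop := ∀ (γ : GQ) (a ψ : GQ → ZMod 3), Adt (Dec (nv 3 γ)) a → Lc (Dec (nv 3 γ)) a →
  Adt (Dec (nv 3 γ)) ψ → Lc (Dec (nv 3 γ)) ψ → (∃ τ ∈ Ine 3 γ, ψ τ ≠ 0) →
  ∃ t : ZMod 3, ∀ τ ∈ Ine 3 γ, a τ = t * ψ τ

/-- elements that are not cubes at the prime three -/
def NCU_st : Prop :=
  (∀ (γ : GQ) (t π ρ : Qb), π ^ 2 = -3 → Fix (Dec (nv 3 γ)) t → nv 3 γ t ≤ 1 →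
    ρ ^ 3 * (1 + t * π) = 1 - t * π → Fix (Dec (nv 3 γ) ⊓ GK) ρ → nv 3 γ t ≤ nv 3 γ 9) ∧
  ∀ (γ : GQ) (i : ℕ) (m : ℤ) (ρ : Qb), ¬ 3 ∣ m → ρ ^ 3 = 3 ^ i * m → Fix (Dec (nv 3 γ) ⊓ GK) ρ →
    3 ∣ i ∧ (m % 9 = 1 ∨ m % 9 = 8)

/-- the local cohomology at three has dimension at most two -/
def DIM_st : Prop :=
  (∀ a : Fin 3 → GQ → ZMod 3, (∀ i, Adt (Dec (nv 3 1)) (a i) ∧ Lc (Dec (nv 3 1)) (a i)) →
    ∃ c : Fin 3 → ZMod 3, c ≠ 0 ∧ ∀ g ∈ Dec (nv 3 1) ⊓ GK, ∑ i, c i * a i g = 0) ∧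
  ∀ a : Fin 3 → GQ → ZMod 3, (∀ i, Tdt (Dec (nv 3 1)) (a i) ∧ Lc (Dec (nv 3 1)) (a i)) →
    ∃ c : Fin 3 → ZMod 3, c ≠ 0 ∧ ∀ g ∈ Dec (nv 3 1) ⊓ GK, ∑ i, c i * a i g = 0

/-- global cubic characters -/
def KW_st : Prop := ∀ (a : GQ → ZMod 3) (T : Finset ℕ) (ψ : ℕ → GQ → ZMod 3), Adt ⊤ a → Lc ⊤ a →
  (∀ l ∈ T, l.Prime ∧ l % 3 = 1) → (∀ (l : ℕ) [Fact l.Prime], l ∈ insert 3 T → Cu l (ψ l)) →
  (∀ (l : ℕ) [Fact l.Prime], l % 3 = 1 → l ∉ T → ∀ τ ∈ Ine l 1, a τ = 0) →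
  ∃ u : ℕ → ZMod 3, ∀ g, a g = ∑ l ∈ insert 3 T, u l * ψ l g

/-- the Frobenius element at `q` is `g` or its inverse modulo `N` -/
def Fq (N : Subgroup GQ) (g : GQ) (q : ℕ) : Prop :=
  ∃ (_ : Fact q.Prime) (φ : GQ), Frob q 1 φ ∧ (g⁻¹ * φ ∈ N ∨ g * φ ∈ N) ∧ Ine q 1 ≤ N

/-- primes whose Frobenius element generates a given normal subgroup of order three -/
def CHEB_st : Prop := ∀ (N : Subgroup GQ) (g : GQ), ON N → g ∉ N → g ^ 3 ∈ N →
  (∀ h : GQ, h * g * h⁻¹ * g⁻¹ ∈ N ∨ h * g * h⁻¹ * g ∈ N) →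
  (¬ Summable fun q : ℕ => if Fq N g q then (1 / q : ℝ) else 0) ∧ ∀ B, ∃ q, B < q ∧ Fq N g q

/-- the product of the unramified character and a ramified Kummer cocycle -/
def INV3_st : Prop := ∀ (l : ℕ) [Fact l.Prime] (γ φ : GQ) (u κ : GQ → ZMod 3), l ≠ 3 →
  Frob l γ φ → Adt (Dec (nv l γ)) u → Lc (Dec (nv l γ)) u → (∀ τ ∈ Ine l γ, u τ = 0) → u φ ≠ 0 →
  Tdt (Dec (nv l γ)) κ → Lc (Dec (nv l γ)) κ → (∃ τ ∈ Ine l γ, κ τ ≠ 0) →
  ∃ v : ℤ, ¬ 3 ∣ v ∧ Iv l γ (fun g h => w3 ^ (u g * (ep g * κ h)).val) 3 (v / 3)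

/-! ### The reciprocity law for Kummer classes -/

/-- unramified cocycles are boundaries -/
def UNB_st : Prop := ∀ (l : ℕ) [Fact l.Prime] (γ : GQ) (N : Subgroup GQ) (c : GQ → GQ → ZMod 3),
  l % 3 = 1 → Lp 3 N GK → Ine l γ ≤ N →
  (∀ g h j, c g h + c (g * h) j = ep g * c h j + c g (h * j)) → (∀ g, Cst N ⊤ (c g)) →
  (∀ h, Cst N ⊤ fun g => c g h) → Bd3 true (Dec (nv l γ)) c

/-- the invariant of the product of a Kummer class and an unramified character -/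
def CK_st : Prop := ∀ (l : ℕ) [Fact l.Prime] (γ φ : GQ) (a : ℚ) (y : Qb) (k s : GQ → ZMod 3)
  (c : GQ → GQ → ZMod 3), Frob l γ φ → a ≠ 0 → y ^ 3 = a →
  (∀ g ∈ Dec (nv l γ), g y = w3 ^ (k g).val * y) → Adt (Dec (nv l γ)) s → Lc (Dec (nv l γ)) s →
  (∀ τ ∈ Ine l γ, s τ = 0) → Bd3 true (Dec (nv l γ)) (fun g h => c g h - s h * k g) →
  Iv l γ (fun g h => w3 ^ (c g h).val) 3 (padicValRat l a * (s φ).val / 3)

/-- auxiliary primes for the reciprocity law -/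
def AX3_st : Prop := ∀ (m B : ℕ) (t : ZMod 3), m ≠ 0 →
  ∃ (l p : ℕ) (_ : Fact l.Prime) (_ : Fact p.Prime) (ψ : GQ → ZMod 3) (f : ℕ → ZMod 3) (x y : Qb),
    B < l ∧ B < p ∧ l ≠ p ∧ l % 3 = 1 ∧ p % 9 = 1 ∧ Adt ⊤ ψ ∧ Lc ⊤ ψ ∧
    (∀ (q : ℕ) [Fact q.Prime] (γ : GQ), q ≠ l → (∀ τ ∈ Ine q γ, ψ τ = 0) ∧
      ∀ φ, Frob q γ φ → ψ φ = f q) ∧ f 3 = t ∧
    f p = ∑ q ∈ m.primeFactors, (m.factorization q : ZMod 3) * f q ∧
    x ^ 3 = p ∧ Fix (Dec (nv 3 1)) x ∧ y ^ 3 * m = p ∧ Fix (Dec (nv l 1)) y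

/-- the reciprocity law with a term at three -/
def RC3_st : Prop := ∀ (R : Finset ℕ) (m : ℕ) (N : Subgroup GQ) (c : GQ → GQ → ZMod 3) (y : Qb)
  (k : GQ → ZMod 3) (γ φ : ℕ → GQ) (s : ℕ → GQ → ZMod 3), (∀ l ∈ R, l.Prime) → 3 ∈ R → m ≠ 0 →
  m.primeFactors ⊆ R → y ^ 3 = m → (∀ g : GQ, g y = w3 ^ (k g).val * y) → Lp 3 N GK →
  (∀ g h j, c g h + c (g * h) j = ep g * c h j + c g (h * j)) → (∀ g, Cst N ⊤ (c g)) →
  (∀ h, Cst N ⊤ fun g => c g h) → (∀ (l : ℕ) [Fact l.Prime], l ∉ R → ∀ γ', Ine l γ' ≤ N) →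
  (∀ (l : ℕ) [Fact l.Prime], l ∈ R → Frob l (γ l) (φ l) ∧ Adt (Dec (nv l (γ l))) (s l) ∧
    Lc (Dec (nv l (γ l))) (s l) ∧ (∀ τ ∈ Ine l (γ l), s l τ = 0) ∧
    Bd3 true (Dec (nv l (γ l))) fun g h => c g h - s l h * k g) →
  ∑ l ∈ R, (m.factorization l : ZMod 3) * s l (φ l) = 0

end Pool.Agent.MP_e23604_nt.S

end

section

set_option autoImplicit false

open NumberField IsDedekindDomain Module Filter Topology
open scoped Classical

namespace Pool.Agent.MP_e23604_nt.S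

open B R Pool.Agent.MP_f3cd89_nt

theorem sum_SSIP {G : Type} [Group G] [Fintype G] {p : ℕ} (hp : p.Prime) (hc : Nat.card G = p)
    {s : G} (hs : s ≠ 1) (f : G → ℤ) : ∑ i ∈ Finset.range p, f (s ^ i) = ∑ g, f g := by
  have := Fact.mk hp
  have ho : orderOf s = p := orderOf_eq_prime (by rw [← hc, pow_card_eq_one']) hs
  refine Finset.sum_bij (fun i _ => s ^ i) (fun _ _ => Finset.mem_univ _)
    (fun i hi j hj e => pow_injOn_Iio_orderOf (by simpa [ho] using hi) (by simpa [ho] using hj) e)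
    (fun g _ => ?_) fun _ _ => rfl
  obtain ⟨i, rfl⟩ := mem_powers_of_prime_card hc hs (g' := g)
  exact ⟨i % p, Finset.mem_range.2 (Nat.mod_lt _ hp.pos), by rw [← ho, pow_mod_orderOf]⟩

section
variable {F M : Type} [Field F] [NumberField F] [Field M] [NumberField M] [Algebra F M]

/-- divisors of the base whose pull back is principal up to a norm -/
def H_SSIP (p : ℕ) (s : M ≃ₐ[F] M) (T : Finset (Pr M)) (N : ℕ) (hN : 0 < N) :
    AddSubgroup (Pr F →₀ ℤ) where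
  carrier := {D | ∃ (a : M) (E : Pr M →₀ ℤ), a ≠ 0 ∧ s a = a ∧ Cong T N a ∧ E ∈ off T ∧
    ∀ w : Pr M, D (w.under (𝓞 F)) = ord w a + ∑ i ∈ Finset.range p, E (gact (s ^ i) w)}
  zero_mem' := ⟨1, 0, one_ne_zero, map_one _, fun v _ => by simp, zero_mem _,
    fun w => by simp [ord_one]⟩
  add_mem' := by
    rintro D D' ⟨a, E, ha, hs, c, o, h⟩ ⟨a', E', ha', hs', c', o', h'⟩
    refine ⟨a * a', E + E', mul_ne_zero ha ha', by rw [map_mul, hs, hs'], NtbX.cong_mul c c',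
      add_mem o o', fun w => ?_⟩
    rw [Finsupp.add_apply, h, h', ord_mul w ha ha']
    simp only [Finsupp.add_apply, Finset.sum_add_distrib]
    ring
  neg_mem' := by
    rintro D ⟨a, E, ha, hs, c, o, h⟩
    refine ⟨a⁻¹, -E, inv_ne_zero ha, by rw [map_inv₀, hs], fun v hv => ?_, neg_mem o,
      fun w => ?_⟩
    · rw [← one_div, div_sub_one ha, map_div₀, NtbX.val_one hN c hv, div_one,
        Valuation.map_sub_swap]
      exact c v hv
    · rw [Finsupp.neg_apply, h, ord_inv]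
      simp only [Finsupp.neg_apply, Finset.sum_neg_distrib]
      ring

end

theorem SIP_pf : SIP_st := by
  intro F M _ _ _ _ _ _ _ p s S hp h2 hs N hN hU
  have := Fact.mk hp
  have hc : Nat.card (M ≃ₐ[F] M) = p := (IsGalois.card_aut_eq_finrank F M).trans h2
  obtain ⟨f1, f2, -, f4, -, f6, -, f8⟩ := fb F M (M ≃ₐ[F] M)
  obtain ⟨φ, hφ⟩ := f4 S
  obtain ⟨i0, i2⟩ := R.SIC_ok F M (M ≃ₐ[F] M) S φ ⊥ N (H_SSIP p s (above M S) N hN) inferInstance
    hU hφ hN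
    (fun x hx => ⟨algebraMap F M x, 0, by simpa using hx.1, s.commutes x, cong_CSI2 hx.2.2,
      zero_mem _, fun w => by
      rw [ord_over (over_under w)]
      by_cases hw : w.under (𝓞 F) ∈ S
      · simp [(val_eq_one_iff _ hx.1).1 (NtbX.val_one hN hx.2.2 hw)]
      · rw [(f6 w).1 (hU w hw)]
        simp⟩)
    (fun v hv h1 => by
      obtain ⟨w, rfl, hw⟩ := hφ v hv
      rw [Subgroup.mem_bot] at h1
      rw [h1] at hw
      have hne : ∀ g : M ≃ₐ[F] M, gact g w = w → g = 1 := fun g h => by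
        simpa using ((f8 w 1 (hU w hv) hw).2.1 g).1 h
      refine ⟨1, Finsupp.single w 1, one_ne_zero, map_one _, fun v _ => by simp,
        fun u hu => Finsupp.single_eq_of_ne fun e => hv (mem_above.1 (e ▸ hu)), fun w' => ?_⟩
      rw [ord_one, zero_add, sum_SSIP hp hc hs fun g => Finsupp.single w (1 : ℤ) (gact g w')]
      by_cases h : w.under (𝓞 F) = w'.under (𝓞 F)
      · obtain ⟨g, rfl⟩ := f2 w w' h
        rw [← h, Finsupp.single_eq_same, Finset.sum_eq_single g⁻¹, ← gact_mul, inv_mul_cancel,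
          gact_one, Finsupp.single_eq_same]
        · intro k _ hk
          rw [← gact_mul]
          exact Finsupp.single_eq_of_ne fun e => hk (eq_inv_of_mul_eq_one_left (hne _ e))
        · exact fun h => absurd (Finset.mem_univ _) h
      · rw [Finsupp.single_eq_of_ne (Ne.symm h)]
        exact (Finset.sum_eq_zero fun g _ =>
          Finsupp.single_eq_of_ne fun e => h (by rw [← e, f1])).symm)
  rw [Subgroup.index_bot, hc] at i2
  have key : ∀ D : Pr M →₀ ℤ, ∃ D₀ : off S, D ∈ off (above M S) → (∀ w, D (gact s w) = D w) →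
      ∀ w : Pr M, D₀.1 (w.under (𝓞 F)) = D w := fun D => by
    by_cases H : D ∈ off (above M S) ∧ ∀ w, D (gact s w) = D w
    · obtain ⟨oD, hD⟩ := H
      obtain ⟨D₀, h₀⟩ := pull_CSI2 (F := F) D fun w w' h => by
        obtain ⟨g, rfl⟩ := f2 w w' h
        obtain ⟨i, rfl⟩ := mem_powers_of_prime_card hc hs (g' := g)
        clear h
        induction i with
        | zero => simp only [pow_zero, gact_one]
        | succ i ih => simp only [pow_succ', gact_mul, hD] at ih ⊢; exact ih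
      refine ⟨⟨D₀, fun v hv => ?_⟩, fun _ _ => h₀⟩
      obtain ⟨w, rfl⟩ := under_surj (E' := M) v
      rw [h₀, oD w (mem_above.2 hv)]
    · exact ⟨0, fun a b => absurd ⟨a, b⟩ H⟩
  choose c hcD using key
  unfold AddSubgroup.relIndex AddSubgroup.index at i0 i2
  have := Nat.finite_of_card_ne_zero i0
  refine ⟨fun D => Fin.castLE i2 (Finite.equivFin _ (c D)), fun D D' oD oD' hD hD' e => ?_⟩
  obtain ⟨a, E, ha, hsa, cg, o, h⟩ := QuotientAddGroup.eq_iff_sub_mem.1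
    ((Finite.equivFin _).injective (Fin.castLE_injective i2 e))
  refine ⟨a, E, ha, hsa, cg, o, fun w => ?_⟩
  rw [← h w, ← hcD D oD hD, ← hcD D' oD' hD']
  rfl

end Pool.Agent.MP_e23604_nt.S

end

section

set_option autoImplicit false

open NumberField IsDedekindDomain Module Filter Topology
open scoped Classical

namespace Pool.Agent.MP_e23604_nt.S

open B R Pool.Agent.MP_f3cd89_nt

theorem prod_SLOCN {G A : Type} [Group G] [Fintype G] [CommMonoid A] {p : ℕ} (hp : p.Prime)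
    (hc : Nat.card G = p) {s : G} (hs : s ≠ 1) (f : G → A) :
    ∏ i ∈ Finset.range p, f (s ^ i) = ∏ g, f g := by
  have : Fact p.Prime := ⟨hp⟩
  have ho : orderOf s = p := orderOf_eq_prime (by rw [← hc]; exact pow_card_eq_one') hs
  refine Finset.prod_nbij (fun i => s ^ i) (fun _ _ => Finset.mem_univ _) ?_ ?_ fun _ _ => rfl
  · rw [Finset.coe_range, ← ho]
    exact pow_injOn_Iio_orderOf
  · intro g _
    obtain ⟨k, hk⟩ := mem_powers_of_prime_card hc hs (g' := g)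
    refine ⟨k % p, by simpa using Nat.mod_lt k hp.pos, ?_⟩
    rw [← ho]
    exact (pow_mod_orderOf s k).trans hk

theorem sum_SLOCN {G : Type} [Group G] [Fintype G] {p : ℕ} (hp : p.Prime)
    (hc : Nat.card G = p) {s : G} (hs : s ≠ 1) (f : G → ℤ) :
    ∑ i ∈ Finset.range p, f (s ^ i) = ∑ g, f g :=
  prod_SLOCN (A := Multiplicative ℤ) hp hc hs f

theorem mul_SLOCN {M ι : Type} [Field M] [NumberField M] (w : Pr M) (N : ℕ) (T : Finset ι)
    (u : ι → M) (hu : ∀ i ∈ T, w.valuation M (u i - 1) ≤ WithZero.exp (-(N : ℤ) - 1)) :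
    w.valuation M (∏ i ∈ T, u i - 1) ≤ WithZero.exp (-(N : ℤ) - 1) := by
  induction T using Finset.induction_on with
  | empty => simp
  | insert i T hi ih =>
    have h0 := hu i (Finset.mem_insert_self i T)
    have h1 : w.valuation M (u i) = 1 := val_one_of _ (h0.trans_lt (by
      rw [← WithZero.exp_zero, WithZero.exp_lt_exp]; omega))
    rw [Finset.prod_insert hi, show u i * ∏ j ∈ T, u j - 1 =
      u i * (∏ j ∈ T, u j - 1) + (u i - 1) by ring]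
    refine Valuation.map_add_le _ ?_ h0
    rw [map_mul, h1, one_mul]
    exact ih fun j hj => hu j (Finset.mem_insert_of_mem hj)

theorem rep_SLOCN {F M : Type} [Field F] [Field M] [NumberField M] [Algebra F M] :
    ∃ r : Pr M → Pr M, (∀ w, ∃ g : M ≃ₐ[F] M, gact g w = r w) ∧
      ∀ (g : M ≃ₐ[F] M) w, r (gact g w) = r w := by
  let T : Setoid (Pr M) := ⟨fun v w => ∃ g : M ≃ₐ[F] M, gact g v = w, fun v => ⟨1, gact_one v⟩,
    fun ⟨g, e⟩ => ⟨g⁻¹, by rw [← e, ← gact_mul, inv_mul_cancel, gact_one]⟩,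
    fun ⟨g, e⟩ ⟨g', e'⟩ => ⟨g' * g, by rw [gact_mul, e, e']⟩⟩
  refine ⟨fun w => (Quotient.mk T w).out, fun w => T.symm (Quotient.mk_out w), fun g w => ?_⟩
  exact congrArg Quotient.out (Quotient.sound (s := T) ⟨g, rfl⟩).symm

theorem LOCN_pf : LOCN_st := by
  intro F M _ _ _ _ _ _ _ p s S hp h2 hs a a0 hsa hev hloc
  have : Fact p.Prime := ⟨hp⟩
  have hc : Nat.card (M ≃ₐ[F] M) = p := by rw [IsGalois.card_aut_eq_finrank, h2]
  have hfix : ∀ (g : M ≃ₐ[F] M) (w : Pr M), g ≠ 1 → gact g w = w →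
      ∀ g' : M ≃ₐ[F] M, gact g' w = w := by
    intro g w hg hw g'
    obtain ⟨k, rfl⟩ := mem_powers_of_prime_card hc hg (g' := g')
    induction k with
    | zero => exact gact_one w
    | succ k ih =>
      change gact (g ^ (k + 1)) w = w
      rw [pow_succ, gact_mul, hw]
      exact ih
  have hga : ∀ g : M ≃ₐ[F] M, g a = a := by
    intro g
    obtain ⟨k, rfl⟩ := mem_powers_of_prime_card hc hs (g' := g)
    induction k with
    | zero => rfl
    | succ k ih =>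
      change (s ^ (k + 1)) a = a
      rw [pow_succ, AlgEquiv.mul_apply, hsa]
      exact ih
  have hinv : ∀ (g : M ≃ₐ[F] M) (w : Pr M), gact g (gact g⁻¹ w) = w := fun g w => by
    rw [← gact_mul, mul_inv_cancel, gact_one]
  have hord : ∀ (g : M ≃ₐ[F] M) (w : Pr M), ord (gact g w) a = ord w a := fun g w => by
    have := ord_gact g w a
    rwa [AlgEquiv.smul_def, hga] at this
  have hne : ∀ w : Pr M, gact s w ≠ w → ∀ g : M ≃ₐ[F] M, gact s (gact g w) ≠ gact g w := by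
    intro w hw g e
    have e1 := hfix s _ hs e g⁻¹
    rw [← gact_mul, inv_mul_cancel, gact_one] at e1
    rw [← e1] at e
    exact hw e
  obtain ⟨r, hr1, hr2⟩ := rep_SLOCN (F := F) (M := M)
  have hch : ∀ w : Pr M, gact s w ≠ w → ∃ g₀ : M ≃ₐ[F] M, ∀ g : M ≃ₐ[F] M,
      r (gact g w) = gact g w ↔ g = g₀ := by
    intro w hw
    obtain ⟨g₀, e⟩ := hr1 w
    refine ⟨g₀, fun g => ⟨fun h => ?_, fun h => by rw [hr2, h, e]⟩⟩
    rw [hr2, ← e] at h
    by_contra hg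
    refine hw (hfix (g⁻¹ * g₀) w (fun e' => hg (inv_mul_eq_one.1 e')) ?_ s)
    rw [gact_mul, h, ← gact_mul, inv_mul_cancel, gact_one]
  constructor
  · let e : Pr M → ℤ := fun w => if w ∈ above M S then 0 else
      if gact s w = w then ord w a / p else if r w = w then ord w a else 0
    have he : (Function.support e).Finite := (ord_finite a).subset fun w hw h => hw (by
      simp only [e, h]; simp)
    refine ⟨Finsupp.ofSupportFinite e he, fun w hw => if_pos hw, fun w hw => ?_⟩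
    change ord w a = ∑ i ∈ Finset.range p, e (gact (s ^ i) w)
    by_cases h : gact s w = w
    · obtain ⟨k, hk⟩ := hev w hw h
      have hp0 : (p : ℤ) ≠ 0 := by exact_mod_cast hp.ne_zero
      simp only [hfix s w hs h, e, if_neg hw, if_true, Finset.sum_const, Finset.card_range]
      rw [hk, Int.mul_ediv_cancel_left _ hp0, nsmul_eq_mul]
    · obtain ⟨g₀, hg₀⟩ := hch w h
      rw [sum_SLOCN hp hc hs fun g => e (gact g w)]
      simp only [e, above_HNT, if_neg hw, if_neg (hne w h _), hg₀, hord]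
      rw [Finset.sum_ite_eq', if_pos (Finset.mem_univ _)]
  · intro N
    choose! y₀ hy₀ using fun w hw h => hloc w hw h N
    let t : Pr M → M := fun w => if gact s w = w then y₀ w else if r w = w then a else 1
    have ht : ∀ w ∈ above M S, t w ≠ 0 := fun w hw => by
      simp only [t]
      split_ifs with h1 h2
      · exact (hy₀ w hw h1).1
      · exact a0
      · exact one_ne_zero
    have ht' : ∀ w ∈ above M S, w.valuation M
        (a / ∏ g : M ≃ₐ[F] M, g (t (gact g⁻¹ w)) - 1) ≤ WithZero.exp (-(N : ℤ)) := by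
      intro w hw
      by_cases h : gact s w = w
      · simp only [hfix s w hs h, t, if_true]
        rw [← prod_SLOCN hp hc hs fun g => g (y₀ w)]
        exact (hy₀ w hw h).2 w (Finset.mem_singleton_self w)
      · obtain ⟨g₀, hg₀⟩ := hch w h
        have e : ∏ g : M ≃ₐ[F] M, g (t (gact g⁻¹ w)) = a := by
          simp only [t, if_neg (hne w h _), hg₀]
          rw [Finset.prod_eq_single g₀⁻¹, inv_inv, if_pos rfl, hga]
          · intro g _ hg
            rw [if_neg fun e' => hg (inv_eq_iff_eq_inv.1 e'), map_one]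
          · intro h'
            exact absurd (Finset.mem_univ _) h'
        rw [e, div_self a0, sub_self, map_zero]
        exact zero_le
    obtain ⟨y, y0, hy⟩ := wa_LOCN (above M S) t ht (-(N : ℤ) - 1)
    refine ⟨y, y0, fun w hw => ?_⟩
    have h1 : ∀ g : M ≃ₐ[F] M, w.valuation M (g y / g (t (gact g⁻¹ w)) - 1) ≤
        WithZero.exp (-(N : ℤ) - 1) := fun g => by
      have h1 := hy _ ((above_HNT S g⁻¹ w).2 hw)
      rwa [← val_gact g, hinv, AlgEquiv.smul_def, map_sub, map_div₀, map_one] at h1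
    have h3 := div_LOCN w N (ht' w hw) (mul_SLOCN w N Finset.univ _ fun g _ => h1 g)
    have t1 : ∏ g : M ≃ₐ[F] M, g (t (gact g⁻¹ w)) ≠ 0 := Finset.prod_ne_zero_iff.2 fun g _ => by
      simpa using ht _ ((above_HNT S g⁻¹ w).2 hw)
    rw [Finset.prod_div_distrib, div_div_div_cancel_right₀ t1] at h3
    rw [prod_SLOCN hp hc hs fun g => g y]
    exact h3

end Pool.Agent.MP_e23604_nt.S

end

section

set_option autoImplicit false

open NumberField IsDedekindDomain Module Filter Topology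
open scoped Classical

namespace Pool.Agent.MP_e23604_nt.S

open B R Pool.Agent.MP_f3cd89_nt

theorem prod_SHNK {M : Type} [Field M] [NumberField M] (w : Pr M) (y : ℕ → M) (c : ℤ)
    (h0 : ∀ i, y i ≠ 0) (h : ∀ i, ord w (y i) = c) (n : ℕ) :
    ord w (∏ i ∈ Finset.range n, y i) = n * c := by
  induction n with
  | zero => simp [ord_one]
  | succ n ih =>
    rw [Finset.prod_range_succ, ord_mul w (Finset.prod_ne_zero_iff.2 fun i _ => h0 i) (h0 n), ih, h]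
    push_cast
    ring

theorem dvd_SHNK {M : Type} [Field M] [NumberField M] (w : Pr M) (s : M ≃ₐ[ℚ] M) (p : ℕ) {a y : M}
    (ha : a ≠ 0) (hy : y ≠ 0) (e : ∀ x, ord w (s x) = ord w x)
    (h : Cong {w} 1 (a / ∏ i ∈ Finset.range p, (s ^ i) y)) : (p : ℤ) ∣ ord w a := by
  have h0 : ∀ i : ℕ, (s ^ i) y ≠ 0 := fun i => (map_ne_zero _).2 hy
  have hz : ∏ i ∈ Finset.range p, (s ^ i) y ≠ 0 := Finset.prod_ne_zero_iff.2 fun i _ => h0 i
  have h1 : w.valuation M (a / (∏ i ∈ Finset.range p, (s ^ i) y) - 1) < 1 :=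
    (h w (Finset.mem_singleton_self w)).trans_lt (by
      rw [← WithZero.exp_zero, WithZero.exp_lt_exp]
      norm_num)
  have h2 := (val_eq_one_iff w (div_ne_zero ha hz)).1 (val_one_of _ h1)
  have h3 : ∀ i : ℕ, ord w ((s ^ i) y) = ord w y := fun i => by
    induction i with
    | zero => rfl
    | succ i ih => rw [pow_succ', AlgEquiv.mul_apply, e, ih]
  rw [ord_div w ha hz, prod_SHNK w _ _ h0 h3] at h2
  exact ⟨ord w y, sub_eq_zero.1 h2⟩

theorem HNK_pf (hHNT : HNT_st) : HNK_st := by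
  intro M _ _ p s a hp h1 h2 hc ha hs hl
  have := Fact.mk hp
  let F := IntermediateField.fixedField (Subgroup.zpowers s)
  have : IsGalois F M := IsGalois.of_fixed_field M (Subgroup.zpowers s)
  have hr : finrank F M = p := by
    rw [IntermediateField.finrank_fixedField_eq_card, Nat.card_zpowers]
    exact orderOf_eq_prime h2 h1
  let s' : M ≃ₐ[F] M := AlgEquiv.ofRingEquiv (f := s.toRingEquiv) fun x =>
    (IntermediateField.mem_fixedField_iff _ _).1 x.2 s (Subgroup.mem_zpowers s)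
  have h3 : s' ≠ 1 := fun h => h1 (AlgEquiv.ext fun x => DFunLike.congr_fun h x)
  have hcard : Nat.card (M ≃ₐ[F] M) = p := by rw [IsGalois.card_aut_eq_finrank, hr]
  have hpow : ∀ (i : ℕ) (y : M), (s' ^ i) y = (s ^ i) y := fun i y => by
    induction i with
    | zero => rfl
    | succ i ih =>
      rw [pow_succ', pow_succ', AlgEquiv.mul_apply, AlgEquiv.mul_apply, ih]
      rfl
  have : IsTotallyComplex F := ⟨fun v => by
    obtain ⟨x, hx, hι⟩ := hc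
    have hxF : x ∈ F := (IntermediateField.mem_fixedField_iff _ _).2 fun g hg =>
      (Subgroup.zpowers_le (H := MulAction.stabilizer (M ≃ₐ[ℚ] M) x)).2 hx hg
    rw [InfinitePlace.isComplex_iff]
    intro hv
    refine hι (ComplexEmbedding.lift M v.embedding) ?_
    have e := ComplexEmbedding.lift_algebraMap_apply M v.embedding ⟨x, hxF⟩
    rw [show algebraMap F M ⟨x, hxF⟩ = x from rfl] at e
    rw [e, ← Complex.conj_eq_iff_im]
    exact RingHom.congr_fun (ComplexEmbedding.isReal_iff.1 hv) _⟩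
  have hfin : {w : Pr M | s' ∈ w.asIdeal.inertia (M ≃ₐ[F] M)}.Finite := by
    obtain ⟨x, hx⟩ : ∃ x : 𝓞 M, s' • x - x ≠ 0 := by
      by_contra hc
      refine h3 (AlgEquiv.ext fun y => ?_)
      have h4 : ∀ x : 𝓞 M, s' (x : M) = x := fun x =>
        congrArg (fun z : 𝓞 M => (z : M)) (sub_eq_zero.1 (not_not.1 (not_exists.1 hc x)))
      obtain ⟨b, c, -, rfl⟩ := IsFractionRing.div_surjective (A := 𝓞 M) y
      rw [map_div₀]
      exact congrArg₂ (· / ·) (h4 b) (h4 c)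
    exact (ord_finite ((s' • x - x : 𝓞 M) : M)).subset fun w hw h =>
      (ord_eq_zero_iff w hx).1 h (hw x)
  have hg : ∀ w : Pr M, gact s' w = w → ∀ x, ord w (s x) = ord w x := fun w hw x => by
    have := ord_gact s' w x
    rwa [hw] at this
  have key := hHNT F M p s' (hfin.toFinset.image fun w => w.under (𝓞 F)) hp hr h3 a ha hs
    (fun w hw => ?_) (fun w _ hw => ?_) fun w hw hw' => ?_
  · simpa only [hpow] using key
  · rw [eq_bot_iff]
    intro g hg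
    by_contra h
    exact hw (Finset.mem_image.2 ⟨w, hfin.mem_toFinset.2
      (Subgroup.zpowers_le.2 hg (mem_zpowers_of_prime_card hcard h)), rfl⟩)
  · rcases hl w (hg w hw) with h | h
    · obtain ⟨y, hy, h⟩ := h 1
      exact dvd_SHNK w s p ha hy (hg w hw) h
    · exact h.1
  · simp only [hpow]
    refine (hl w (hg w hw')).resolve_right fun h => h.2 fun x => ?_
    obtain ⟨w', h4, h5⟩ := Finset.mem_image.1 (mem_above.1 hw)
    obtain ⟨g, hg⟩ := (fb F M (M ≃ₐ[F] M)).2.1 w w' h5.symm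
    have e : w = w' := by
      obtain ⟨k, rfl⟩ := mem_powers_of_prime_card (g' := g) hcard h3
      rw [← hg]
      clear hg
      induction k with
      | zero => exact (gact_one w).symm
      | succ k ih =>
        simp only at ih ⊢
        rw [pow_succ, gact_mul, hw', ← ih]
    have h6 := hfin.mem_toFinset.1 h4 x
    rw [← e] at h6
    exact (w.valuation_lt_one_iff_mem (K := M) (s' • x - x)).2 h6

end Pool.Agent.MP_e23604_nt.S

end

section

set_option autoImplicit false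

open NumberField IsDedekindDomain Module Filter Topology
open scoped Classical

namespace Pool.Agent.MP_e23604_nt.S

open B R Pool.Agent.MP_f3cd89_nt

theorem HNS_pf (hHNK : HNK_st) : HNS_st := by
  intro p N H H' χ s a hp hN hNH hχ hker hs hs1 hnr ha hHa hloc
  have : Fact p.Prime := ⟨hp⟩
  have hHH : H ≤ H' := fun g hg => ((hker g).1 hg).1
  have hopen : IsOpen (H : Set GQ) := Subgroup.isOpen_mono hNH hN.2
  let M := IntermediateField.fixedField H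
  have mem : ∀ x : Qb, x ∈ M ↔ Fix H x := fun x => IntermediateField.mem_fixedField_iff H x
  have hfix : M.fixingSubgroup = H :=
    InfiniteGalois.fixingSubgroup_fixedField ⟨H, H.isClosed_of_isOpen hopen⟩
  have : FiniteDimensional ℚ M := (InfiniteGalois.isOpen_iff_finite M).1 (by
    rw [hfix]
    exact hopen)
  have : NumberField M := NumberField.of_module_finite ℚ M
  have hH : ∀ g : GQ, (∀ x ∈ M, g x = x) → g ∈ H := fun g hg => by
    rw [← hfix]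
    exact (IntermediateField.mem_fixingSubgroup_iff _ _).2 hg
  have hM : ∀ g ∈ H', ∀ x ∈ M, g x ∈ M := fun g hg x hx => (mem _).2 fun h hh => by
    rw [← AlgEquiv.mul_apply]
    refine eq_NRM hχ hker ((mem x).1 hx) (mul_mem (hHH hh) hg) hg ?_
    rw [hχ _ (hHH hh) _ hg, ((hker h).1 hh).2, zero_add]
  have hlift : ∀ t : GQ, (∀ x ∈ M, t x = s x) → t ∈ H' ∧ χ t = 1 := fun t ht => by
    have h1 : s⁻¹ * t ∈ H := hH _ fun x hx => by
      rw [AlgEquiv.mul_apply, ht x hx, ← AlgEquiv.mul_apply, inv_mul_cancel, AlgEquiv.one_apply]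
    have h2 : t ∈ H' := (H'.mul_mem_cancel_left (inv_mem hs)).1 (hHH h1)
    have h3 := ((hker _).1 h1).2
    rw [hχ _ (inv_mem hs) _ h2, inv_NRM hχ hs, hs1] at h3
    exact ⟨h2, by linear_combination h3⟩
  let f : ∀ g ∈ H', M →ₐ[ℚ] M := fun g hg =>
    ((g : Qb →ₐ[ℚ] Qb).comp M.val).codRestrict M.toSubalgebra fun x => hM g hg x x.2
  let s' : M ≃ₐ[ℚ] M := AlgEquiv.ofAlgHom (f s hs) (f s⁻¹ (inv_mem hs))
    (AlgHom.ext fun x => Subtype.ext (show s (s⁻¹ (x : Qb)) = x by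
      rw [← AlgEquiv.mul_apply, mul_inv_cancel, AlgEquiv.one_apply]))
    (AlgHom.ext fun x => Subtype.ext (show s⁻¹ (s (x : Qb)) = x by
      rw [← AlgEquiv.mul_apply, inv_mul_cancel, AlgEquiv.one_apply]))
  have e1 : ∀ x : M, ((s' x : M) : Qb) = s x := fun x => rfl
  have e2 : ∀ (i : ℕ) (x : M), (((s' ^ i) x : M) : Qb) = (s ^ i) x := fun i => by
    induction i with
    | zero => exact fun x => rfl
    | succ i ih =>
      intro x
      rw [pow_succ, pow_succ, AlgEquiv.mul_apply, AlgEquiv.mul_apply, ih, e1]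
  have e3 : ∀ x : M, ((∏ i ∈ Finset.range p, (s' ^ i) x : M) : Qb)
      = ∏ i ∈ Finset.range p, (s ^ i) (x : Qb) := fun x => by
    rw [SubmonoidClass.coe_finsetProd]
    exact Finset.prod_congr rfl fun i _ => e2 i x
  have h1 : s' ≠ 1 := fun h => by
    have h2 := ((hker s).1 (hH _ fun x hx => (e1 ⟨x, hx⟩).symm.trans (by rw [h]; rfl))).2
    rw [hs1] at h2
    exact one_ne_zero h2
  have h2 : s' ^ p = 1 := AlgEquiv.ext fun x => Subtype.ext ((e2 p x).trans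
    ((mem x).1 x.2 _ ((hker _).2 ⟨pow_mem hs p, by
      rw [pow_NRM hχ hs hs1, ZMod.natCast_self]⟩)))
  have haM : a ∈ M := (mem a).2 fun g hg => hHa g (hHH hg)
  have ha' : (⟨a, haM⟩ : M) ≠ 0 := fun h => ha (congrArg Subtype.val h)
  obtain ⟨μ, hμ⟩ := hHNK M p s' ⟨a, haM⟩ hp h1 h2 (by
    obtain ⟨x, hx, hι⟩ := hnr
    have hxM : x ∈ M := (mem x).2 fun g hg => hx g (hHH hg)
    refine ⟨⟨x, hxM⟩, Subtype.ext (hx s hs), fun ι => ?_⟩
    rw [← ComplexEmbedding.lift_algebraMap_apply Qb ι]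
    exact hι _) ha' (Subtype.ext (hHa s hs)) fun w hw => by
      obtain ⟨l, hl, γ, r, hr, hv⟩ := R.DIC_ok.1 M w
      have hr0 : 0 < r := one_pos.trans hr
      obtain ⟨t, ht, hts⟩ := R.DIC_ok.2.1 l γ M s fun x hx => by
        rcases eq_or_ne (⟨x, hx⟩ : M) 0 with h | h
        · rw [show x = 0 from congrArg Subtype.val h, map_zero]
        · exact (hv _ ((map_ne_zero s').2 h)).trans (by rw [hw]; exact (hv _ h).symm)
      obtain ⟨ht1, ht2⟩ := hlift t hts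
      rcases hloc l γ t ⟨ht, ht1⟩ ht2 with ⟨y, hy, hya⟩ | ⟨hI, z, hz, hza⟩
      · refine Or.inl fun n => ?_
        have hy0 : y ≠ 0 := by
          rintro rfl
          refine ha ?_
          rw [← hya]
          exact Finset.prod_eq_zero (Finset.mem_range.2 hp.pos) (map_zero _)
        have hy1 := (nv l γ).pos hy0
        have hn0 : 0 < r ^ (-(n : ℤ)) := zpow_pos hr0 _
        have hn1 : r ^ (-(n : ℤ)) ≤ 1 := zpow_le_one_of_nonpos₀ hr.le (by omega)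
        obtain ⟨u, hu, hyu⟩ := R.DEN_ok l γ H y _ hopen hy (mul_pos hy1 hn0)
        have huM := (mem u).2 hu
        have h3 : nv l γ (y - u) < nv l γ y := hyu.trans_le (mul_le_of_le_one_right hy1.le hn1)
        have h4 : nv l γ u = nv l γ y := by
          refine le_antisymm ?_ (not_lt.1 fun h => ?_)
          · have := nv_na l γ y (-(y - u))
            rw [AbsoluteValue.map_neg, show y + -(y - u) = u by ring] at this
            exact this.trans (max_le le_rfl h3.le)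
          · have := nv_na l γ (y - u) u
            rw [sub_add_cancel] at this
            exact absurd this (not_le.2 (max_lt h3 h))
        have hu0 : u ≠ 0 := by
          rintro rfl
          rw [map_zero] at h4
          exact hy1.ne h4
        have hu1 : (⟨u, huM⟩ : M) ≠ 0 := fun h => hu0 (congrArg Subtype.val h)
        refine ⟨⟨u, huM⟩, hu1, fun v hv' => ?_⟩
        rw [Finset.mem_singleton.1 hv']
        set d : M := (⟨a, haM⟩ : M) / (∏ i ∈ Finset.range p, (s' ^ i) ⟨u, huM⟩) - 1 with hd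
        rcases eq_or_ne d 0 with h | h
        · rw [h, map_zero]
          exact zero_le
        have h5 : (d : Qb) = ∏ i ∈ Finset.range p, (t ^ i) (y / u) - 1 := by
          have h6 : (d : Qb) = a / ((∏ i ∈ Finset.range p, (s' ^ i) ⟨u, huM⟩ : M) : Qb) - 1 := rfl
          rw [h6, e3, ← hya, ← Finset.prod_div_distrib]
          congr 1
          refine Finset.prod_congr rfl fun i _ => ?_
          rw [map_div₀]
          congr 1
          refine eq_NRM hχ hker hu (pow_mem hs i) (pow_mem ht1 i) ?_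
          rw [pow_NRM hχ hs hs1, pow_NRM hχ ht1 ht2]
        have h6 := prod_CREC (nv_na l γ) hn0.le hn1 (fun i => (t ^ i) (y / u)) (fun i => by
          have h7 : (t ^ i) (y / u) - 1 = (t ^ i) ((y - u) / u) := by
            rw [sub_div, div_self hu0, map_sub, map_one]
          rw [h7, pow_mem ht i, map_div₀, h4, div_le_iff₀ hy1, mul_comm]
          exact hyu.le) p
        rw [← h5, hv d h] at h6
        have h8 := (zpow_le_zpow_iff_right₀ hr).1 h6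
        rw [val_eq_exp w h, WithZero.exp_le_exp]
        exact h8
      · refine Or.inr ⟨?_, fun h => ?_⟩
        · obtain ⟨x, hx, e⟩ := ram_a M (nv_na l γ) hl.out (nv_lt l γ) (y := z) fun τ h3 h4 =>
            hz τ (hI τ (hHH (hH τ h3)) h4)
          have hx0 : (⟨x, hx⟩ : M) ≠ 0 := fun h => by
            rw [← e, show x = 0 from congrArg Subtype.val h, map_zero, zero_pow hp.ne_zero] at hza
            exact ((nv l γ).pos ha).ne' hza
          have h3 := hv _ ha'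
          have h4 := hv _ hx0
          simp only at h3 h4
          rw [hza, ← e, h4, ← zpow_natCast, ← zpow_mul] at h3
          have h5 := zpow_right_injective₀ hr0 hr.ne' h3
          exact ⟨ord w (⟨x, hx⟩ : M), by linear_combination h5⟩
        · obtain ⟨τ, h3, h4⟩ := lift_inr M (nv_na l γ) hl.out (nv_lt l γ) s' fun x => by
            rcases eq_or_ne (s' x - x) 0 with e | e
            · rw [sub_eq_zero.1 e, sub_self, map_zero]
              exact one_pos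
            · have h5 := (val_lt_one_iff w e).1 (h x)
              exact (hv _ e).trans_lt (zpow_lt_one_of_neg₀ hr (by omega))
          obtain ⟨h5, h6⟩ := hlift τ fun x hx => h4 ⟨x, hx⟩
          rw [((hker τ).1 (hNH (hI τ h5 h3))).2] at h6
          exact zero_ne_one h6
  exact ⟨μ, (mem _).1 μ.2, (e3 μ).symm.trans (congrArg Subtype.val hμ)⟩

end Pool.Agent.MP_e23604_nt.S

end

section

set_option autoImplicit false

open NumberField IsDedekindDomain Module Filter Topology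
open scoped Classical

namespace Pool.Agent.MP_e23604_nt.S

open B R Pool.Agent.MP_f3cd89_nt

theorem up_SIND {G : Type} [Group G] [Finite G] {p : ℕ} [hp : Fact p.Prime] (hG : IsPGroup p G)
    (H : Subgroup G) (hH : H ≠ ⊤) :
    ∃ (H' : Subgroup G) (χ : G → ZMod p) (s : G), (∀ g ∈ H', ∀ h ∈ H', χ (g * h) = χ g + χ h) ∧
      (∀ g, g ∈ H ↔ g ∈ H' ∧ χ g = 0) ∧ s ∈ H' ∧ χ s = 1 := by
  obtain ⟨n, hn⟩ := (hG.to_subgroup H).exists_card_eq
  obtain ⟨m, hm⟩ := hG.index H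
  have h1 : m ≠ 0 := by
    rintro rfl
    exact hH (Subgroup.index_eq_one.1 (by simpa using hm))
  have h2 : p ^ (n + 1) ∣ Nat.card G := by
    rw [← H.card_mul_index, hn, hm, ← pow_add]
    exact pow_dvd_pow p (by omega)
  obtain ⟨H', h3, h4⟩ := Sylow.exists_subgroup_card_pow_succ h2 hn
  have h5 := (H.subgroupOf H').card_mul_index
  rw [h3, Nat.card_congr (Subgroup.subgroupOfEquivOfLe h4).toEquiv, hn, pow_succ] at h5
  have h6 : (H.subgroupOf H').index = p :=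
    Nat.eq_of_mul_eq_mul_left (pow_pos hp.out.pos n) h5
  have h7 : (H.subgroupOf H').Normal := Subgroup.normal_of_index_eq_minFac_card
    (by rw [h6, h3, hp.out.pow_minFac (Nat.succ_ne_zero n)])
  let e : H' ⧸ H.subgroupOf H' ≃* Multiplicative (ZMod p) :=
    mulEquivOfPrimeCardEq (p := p) h6 (by simp)
  let f : H' →* Multiplicative (ZMod p) := e.toMonoidHom.comp (QuotientGroup.mk' _)
  have hf : Function.Surjective f := e.surjective.comp (QuotientGroup.mk'_surjective _)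
  have hk : ∀ x : H', f x = 1 ↔ (x : G) ∈ H := fun x => by
    rw [← Subgroup.mem_subgroupOf, ← QuotientGroup.eq_one_iff]
    exact e.map_eq_one_iff
  obtain ⟨s, hs⟩ := hf (Multiplicative.ofAdd 1)
  refine ⟨H', fun g => if hg : g ∈ H' then (f ⟨g, hg⟩).toAdd else 0, s, fun g hg h hh => ?_,
    fun g => ⟨fun hg => ⟨h4 hg, ?_⟩, fun ⟨hg, h0⟩ => ?_⟩, s.2, ?_⟩
  · simp only [dif_pos hg, dif_pos hh, dif_pos (H'.mul_mem hg hh)]
    rw [← toAdd_mul, ← map_mul]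
    rfl
  · simp only [dif_pos (h4 hg)]
    rw [(hk ⟨g, h4 hg⟩).2 hg, toAdd_one]
  · simp only [dif_pos hg] at h0
    exact (hk ⟨g, hg⟩).1 (toAdd_eq_zero.1 h0)
  · simp only [dif_pos s.2]
    rw [Subtype.coe_eta, hs, toAdd_ofAdd]

theorem fin_SIND {G : Type} [Group G] [Finite G] {p : ℕ} [hp : Fact p.Prime] (hG : IsPGroup p G)
    (P : Subgroup G → Prop) (h0 : P ⊥) (hs : ∀ (H H' : Subgroup G) (χ : G → ZMod p) (s : G),
      P H → (∀ g ∈ H', ∀ h ∈ H', χ (g * h) = χ g + χ h) → (∀ g, g ∈ H ↔ g ∈ H' ∧ χ g = 0) →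
      s ∈ H' → χ s = 1 → P H') : P ⊤ := by
  have key : ∀ H : Subgroup G, P H → P ⊤ := by
    intro H
    induction H using WellFoundedGT.induction with
    | ind H ih =>
      intro h2
      by_cases hH : H = ⊤
      · exact hH ▸ h2
      obtain ⟨H', χ, s, h3, h4, h5, h6⟩ := up_SIND hG H hH
      refine ih H' (lt_of_le_of_ne (fun g hg => ((h4 g).1 hg).1) fun e => ?_)
        (hs H H' χ s h2 h3 h4 h5 h6)
      have h7 := ((h4 s).1 (e ▸ h5)).2
      rw [h6] at h7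
      exact one_ne_zero h7
  exact key ⊥ h0

theorem IND_pf : IND_st := by
  intro p N U P hp hN hU h0 hs
  have : Fact p.Prime := ⟨hp⟩
  have := hN.1.1
  have := hN.1.finite
  let φ : U →* U.map (QuotientGroup.mk' N) := (QuotientGroup.mk' N).subgroupMap U
  have hφ : Function.Surjective φ := (QuotientGroup.mk' N).subgroupMap_surjective U
  have hk : ∀ x : U, φ x = 1 ↔ (x : GQ) ∈ N := fun x => by
    rw [← QuotientGroup.eq_one_iff, Subtype.ext_iff]
    rfl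
  have hG : IsPGroup p (U.map (QuotientGroup.mk' N)) := fun x => by
    obtain ⟨g, rfl⟩ := hφ x
    obtain ⟨k, h⟩ := hN.2 g g.2
    exact ⟨k, by rw [← map_pow, hk]; exact h⟩
  let pre : Subgroup (U.map (QuotientGroup.mk' N)) → Subgroup GQ :=
    fun K => (K.comap φ).map U.subtype
  have mem : ∀ K (x : U), (x : GQ) ∈ pre K ↔ φ x ∈ K := fun K x =>
    ⟨fun ⟨y, hy, e⟩ => Subtype.ext e ▸ hy, fun h => ⟨x, h, rfl⟩⟩
  have le : ∀ K, pre K ≤ U := fun K _ ⟨y, _, e⟩ => e ▸ y.2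
  have e0 : pre ⊥ = N := by
    ext g
    refine ⟨fun h => ?_, fun h => (mem ⊥ ⟨g, hU h⟩).2 ((hk _).2 h)⟩
    exact (hk ⟨g, le _ h⟩).1 ((mem ⊥ ⟨g, le _ h⟩).1 h)
  have e1 : pre ⊤ = U := le_antisymm (le _) fun g h => (mem ⊤ ⟨g, h⟩).2 trivial
  rw [← e1]
  have h0' : P (pre ⊥) := by rw [e0]; exact h0
  refine fin_SIND hG (fun K => P (pre K)) h0' ?_
  intro K K' χ t hK h1 h2 h3 h4
  obtain ⟨s, rfl⟩ := hφ t
  refine hs (pre K) (pre K') (fun g => if hg : g ∈ U then χ (φ ⟨g, hg⟩) else 0) s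
    (fun g hg => (mem K ⟨g, hU hg⟩).2 ?_) (le _) hK (fun g hg h hh => ?_) (fun g => ?_)
    ((mem K' s).2 h3) ?_
  · rw [(hk ⟨g, hU hg⟩).2 hg]
    exact K.one_mem
  · simp only [dif_pos (le _ hg), dif_pos (le _ hh), dif_pos (U.mul_mem (le _ hg) (le _ hh))]
    rw [← h1 _ ((mem K' ⟨g, le _ hg⟩).1 hg) _ ((mem K' ⟨h, le _ hh⟩).1 hh), ← map_mul]
    rfl
  · by_cases hg : g ∈ U
    · simp only [dif_pos hg]
      exact (mem K ⟨g, hg⟩).trans ((h2 _).trans (and_congr (mem K' ⟨g, hg⟩).symm Iff.rfl))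
    · exact ⟨fun h => absurd (le _ h) hg, fun h => absurd (le _ h.1) hg⟩
  · simp only [dif_pos s.2]
    rw [Subtype.coe_eta, h4]

end Pool.Agent.MP_e23604_nt.S

end

section

set_option autoImplicit false

open NumberField IsDedekindDomain Module Filter Topology
open scoped Classical

namespace Pool.Agent.MP_e23604_nt.S

open B R Pool.Agent.MP_f3cd89_nt

theorem pow_SABHN {p : ℕ} {D : Subgroup GQ} {χ : GQ → ZMod p} (hχ : Adt D χ) {t : GQ}
    (ht : t ∈ D) (h1 : χ t = 1) (i : ℕ) : χ (t ^ i) = i := by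
  induction i with
  | zero =>
    have := hχ 1 D.one_mem 1 D.one_mem
    rw [mul_one] at this
    simpa using this
  | succ i ih => rw [pow_succ, hχ _ (D.pow_mem ht i) _ ht, ih, h1, Nat.cast_succ]

/-- a multiplicative positive function of finite level is trivial -/
theorem one_SABHN {D : Subgroup GQ} {f : GQ → ℝ} (h0 : ∀ g ∈ D, 0 < f g) (hc : Lc D f)
    (hm : ∀ g ∈ D, ∀ h ∈ D, f g * f h = f (g * h)) : ∀ g ∈ D, f g = 1 := fun g hg =>
  Real.eq_one_of_pos_of_log_eq_zero (h0 g hg) (zero_CVAL (f := fun g => Real.log (f g))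
    (fun g hg h hh => by
      simp only
      rw [← hm g hg h hh, Real.log_mul (h0 g hg).ne' (h0 h hh).ne']) (hc.map _) g hg)

theorem car_SABHN {p : ℕ} (hp : 2 ≤ p) {D : Subgroup GQ} {χ : GQ → ZMod p} (hχ : Adt D χ)
    {f : GQ → ℝ} {A : ℝ} (hm : ∀ g ∈ D, ∀ h ∈ D, f g * f h = A ^ car (χ g) (χ h) * f (g * h))
    {t : GQ} (ht : t ∈ D) (h1 : χ t = 1) (h2 : f (t ^ p) = 1) : A = f t ^ p := by
  have hc : ∀ i, i < p → car (χ (t ^ i)) (χ t) = (i + 1) / p := fun i hi => by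
    have e := pow_SABHN hχ ht h1 1
    rw [pow_one] at e
    rw [pow_SABHN hχ ht h1, e, car, ZMod.val_cast_of_lt hi, ZMod.val_cast_of_lt (by omega)]
  have key : ∀ i, i + 1 < p → f (t ^ (i + 1)) = f t ^ (i + 1) := fun i => by
    induction i with
    | zero => intro _; simp
    | succ i ih =>
      intro hi
      have e := hm _ (D.pow_mem ht (i + 1)) _ ht
      rw [hc _ (by omega), Nat.div_eq_of_lt hi, pow_zero, one_mul, ih (by omega), ← pow_succ,
        ← pow_succ] at e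
      exact e.symm
  obtain ⟨j, rfl⟩ : ∃ j, p = j + 2 := ⟨p - 2, by omega⟩
  have e := hm _ (D.pow_mem ht (j + 1)) _ ht
  rw [hc _ (by omega), Nat.div_self (by omega), pow_one, key j (by omega), ← pow_succ,
    ← pow_succ, h2, mul_one] at e
  exact e.symm

theorem ABHN_pf (hIND : IND_st) (hHNS : HNS_st) : ABHN_st := by
  intro p N U c hp hN hU hR hc hi hl
  refine hIND p N U (fun H => ∃ β, Inf1 N H β ∧ Bd H c β) hp hN hU ?_ ?_
  · have h1 := hi.2.2 1 U.one_mem 1 U.one_mem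
    refine ⟨fun _ => c 1 1, ⟨fun _ _ _ _ _ => rfl, fun _ _ => h1⟩, fun g hg h hh => ?_⟩
    have e1 : c 1 1 = c g 1 := hi.2.1 1 U.one_mem 1 U.one_mem g (hU hg) (by simpa using hg)
    have e2 : c g 1 = c g h := hi.1 g (hU hg) 1 U.one_mem h (hU hh) (by simpa using hh)
    simp only [h1.2 g hg, ← e2, ← e1]
  rintro H H' χ s hNH hH' ⟨β, hβ, hb⟩ hχ hker hs hs1
  have hHH : H ≤ H' := fun g hg => ((hker g).1 hg).1
  have h00 : car (0 : ZMod p) 0 = 0 := by simp [car]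
  obtain ⟨a, β', a0, ha, hβ', hb'⟩ := CYC_ok p N H H' χ s c β hp.two_le hN.1 hNH hχ hker hs
    hs1 (hc.mono hH') (hi.mono le_rfl hH') hβ hb
  obtain ⟨x, hx1, hx2⟩ := hR
  obtain ⟨μ, hμ, hμa⟩ := hHNS p N H H' χ s a hp hN.1 hNH hχ hker hs hs1
    ⟨x, fun g hg => hx1 g (hH' hg), hx2⟩ a0 ha (by
      intro l _ γ t ht ht1
      rcases hl l γ with hcob | hun
      · left
        have c1 : Cob (Dec (nv l γ) ⊓ H') fun g h => c g h * a ^ car (χ g) (χ h) :=
          Cob.mono ⟨N, β', hN.1, hβ', hb'⟩ inf_le_right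
        have c2 := (c1.mul (hcob.mono (inf_le_inf_left _ hH')).inv).congr
          (c' := fun g h => a ^ car (χ g) (χ h)) fun g hg h hh => by
            have := (hi.2.2 g (hH' hg.2) h (hH' hh.2)).1
            field_simp
        obtain ⟨y, -, hy1, hy2⟩ := (NRM_ok p (Dec (nv l γ) ⊓ H) (Dec (nv l γ) ⊓ H') χ t
          hp.two_le (hχ.mono inf_le_right) (fun g => by
            simp only [Subgroup.mem_inf, hker g, and_assoc]) ht ht1).2 a c2
        exact ⟨y, hy1, hy2⟩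
      · right
        refine ⟨fun τ h h' => hun.1 τ (hH' h) h', β' t, (hβ'.2 t ht.2).2, ?_⟩
        have key : ∀ g ∈ Dec (nv l γ) ⊓ H', ∀ h ∈ Dec (nv l γ) ⊓ H',
            nv l γ (β' g) * nv l γ (β' h) =
              nv l γ a ^ car (χ g) (χ h) * nv l γ (β' (g * h)) := by
          intro g hg h hh
          have := congrArg (nv l γ) (hb' g hg.2 h hh.2)
          rwa [map_mul, map_mul, map_mul, map_pow, hg.1, hun.2 g (hH' hg.2) h (hH' hh.2),
            one_mul] at this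
        have k1 := one_SABHN (D := Dec (nv l γ) ⊓ H) (f := fun g => nv l γ (β' g))
          (fun g hg => (nv l γ).pos (hβ'.2 g (hHH hg.2)).1)
          ⟨N, hN.1, fun g hg h hh e => congrArg (nv l γ) (hβ'.1 g (hHH hg.2) h (hHH hh.2) e)⟩
          (fun g hg h hh => by
            have := key g ⟨hg.1, hHH hg.2⟩ h ⟨hh.1, hHH hh.2⟩
            rwa [((hker g).1 hg.2).2, ((hker h).1 hh.2).2, h00, pow_zero, one_mul] at this)
        have htt : t ^ p ∈ H := (hker _).2 ⟨H'.pow_mem ht.2 p, by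
          rw [pow_SABHN hχ ht.2 ht1, ZMod.natCast_self]⟩
        exact car_SABHN hp.two_le (hχ.mono inf_le_right) (f := fun g => nv l γ (β' g)) key ht ht1
          (k1 _ ⟨(Dec _).pow_mem ht.1 p, htt⟩))
  have μ0 : μ ≠ 0 := by
    rintro rfl
    refine a0 ?_
    rw [← hμa]
    exact Finset.prod_eq_zero (Finset.mem_range.2 hp.pos) (map_zero _)
  obtain ⟨-, hd, hf⟩ := (NRM_ok p H H' χ s hp.two_le hχ hker hs hs1).1 μ hμ
  rw [hμa] at hd
  have d0 : ∀ g, ∏ i ∈ Finset.range (χ g).val, (s ^ i) μ ≠ 0 := fun g =>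
    Finset.prod_ne_zero_iff.2 fun i _ => (map_ne_zero _).2 μ0
  refine ⟨fun g => β' g / ∏ i ∈ Finset.range (χ g).val, (s ^ i) μ,
    ⟨fun g hg h hh e => ?_, fun g hg => ⟨div_ne_zero (hβ'.2 g hg).1 (d0 g), fun n hn => ?_⟩⟩,
    fun g hg h hh => ?_⟩
  · have e1 := hχ g hg (g⁻¹ * h) (hHH (hNH e))
    rw [mul_inv_cancel_left, ((hker _).1 (hNH e)).2, add_zero] at e1
    simp only [hβ'.1 g hg h hh e, e1]
  · rw [map_div₀, (hβ'.2 g hg).2 n hn, hf g n (hNH hn)]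
  · have e1 := hb' g hg h hh
    have e2 := hd g hg h hh
    simp only at e1 e2 ⊢
    rw [map_div₀, div_mul_div_comm, e1, e2, mul_assoc, mul_div_assoc,
      mul_div_mul_left _ _ (pow_ne_zero _ a0)]

end Pool.Agent.MP_e23604_nt.S

end

section

set_option autoImplicit false

open NumberField IsDedekindDomain Module Filter Topology
open scoped Classical

namespace Pool.Agent.MP_e23604_nt.S

open B R Pool.Agent.MP_f3cd89_nt

theorem VAL_pf : VAL_st := by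
  have hH90 := R.H90_ok
  have hFRO := R.FRO_ok
  have hDIC := R.DIC_ok
  refine ⟨?_, ?_⟩
  · rintro l _ γ c n n' r r' n0 n0' ⟨s, a, φ, ha, hφ, h1, h2, h3, rfl, hc⟩
      ⟨s', a', φ', ha', hφ', h1', h2', h3', rfl, hc'⟩
    have a0 : (a : Qb) ≠ 0 := by exact_mod_cast ha
    have a0' : (a' : Qb) ≠ 0 := by exact_mod_cast ha'
    have c0 : ∀ g ∈ Dec (nv l γ), ∀ h ∈ Dec (nv l γ), c g h ≠ 0 := by
      obtain ⟨N, β, -, b1, b2⟩ := hc
      intro g hg h hh e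
      have := b2 g hg h hh
      simp only [e, zero_mul] at this
      exact mul_ne_zero (b1.2 g hg).1 ((map_ne_zero g).2 (b1.2 h hh).1) this
    obtain ⟨N, β, hN, b1, b2⟩ := (hc.mul hc'.inv).congr
      (c' := fun g h => (a : Qb) ^ car (s g) (s h) / (a' : Qb) ^ car (s' g) (s' h))
      fun g hg h hh => by
        have := c0 g hg h hh
        field_simp
    have hI := Ine_le l γ
    obtain ⟨y, y0, -, hy⟩ := hH90.1 N (Ine l γ) β hN (b1.mono le_rfl hI) fun g hg h hh => by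
      have := b2 g (hI hg) h (hI hh)
      simp only [h3 g hg, h3' g hg, (car0_CVAL n0 _).2, (car0_CVAL n0' _).2, pow_zero, div_one,
        one_mul] at this
      exact this.symm
    have gy : ∀ g : GQ, g y ≠ 0 := fun g => (map_ne_zero g).2 y0
    set δ : GQ → Qb := fun g => β g * y / g y with hδ
    have d0 : ∀ g ∈ Dec (nv l γ), δ g ≠ 0 := fun g hg =>
      div_ne_zero (mul_ne_zero (b1.2 g hg).1 y0) (gy g)
    have d1 : ∀ τ ∈ Ine l γ, δ τ = 1 := fun τ hτ => by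
      simp only [hδ]
      rw [← hy τ hτ, div_self (gy τ)]
    have d2 : ∀ g ∈ Dec (nv l γ), ∀ h ∈ Dec (nv l γ), δ g * g (δ h) =
        (a : Qb) ^ car (s g) (s h) / (a' : Qb) ^ car (s' g) (s' h) * δ (g * h) := by
      intro g hg h hh
      have := b2 g hg h hh
      simp only [hδ, map_div₀, map_mul, AlgEquiv.mul_apply]
      have g1 := gy g
      have g2 : g (h y) ≠ 0 := gy (g * h)
      calc β g * y / g y * (g (β h) * g y / g (h y)) = β g * g (β h) * y / g (h y) := by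
            field_simp
        _ = _ := by rw [this]; ring
    have d3 : ∀ g ∈ Dec (nv l γ), Fix (Ine l γ) (δ g) := by
      intro g hg τ hτ
      have hτ' := Ine_conj (inv_mem hg) hτ
      rw [inv_inv] at hτ'
      have e1 := d2 τ (hI hτ) g hg
      have e2 := d2 g hg _ (hI hτ')
      simp only [h3 _ hτ, h3' _ hτ, (car0_CVAL n0 _).2, (car0_CVAL n0' _).2, pow_zero, div_one,
        one_mul, d1 τ hτ] at e1
      simp only [h3 _ hτ', h3' _ hτ', (car0_CVAL n0 _).1, (car0_CVAL n0' _).1, pow_zero, div_one,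
        one_mul, d1 _ hτ', map_one, mul_one] at e2
      rw [e1, e2]
      congr 1
      group
    have d4 : Lc (Dec (nv l γ)) δ :=
      Lc.map₂ (f := β) (f' := fun g => g y) ⟨N, hN, b1.1⟩ (Lc.apply _ y) fun b z => b * y / z
    clear_value δ
    obtain ⟨j, hj⟩ := core_CVAL hDIC l γ n n' s s' a a' δ n0 n0' ha ha' h1 h2 h1' h2' d4
      (fun g hg => ⟨d0 g hg, d3 g hg⟩) (fun g hg h hh => by
        have e := congrArg (nv l γ) (d2 g hg h hh)
        rw [map_mul, hg (δ h), map_mul, map_div₀, map_pow, map_pow] at e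
        have p5 : nv l γ (a' : Qb) ≠ 0 := ((nv l γ).pos a0').ne'
        rw [e]
        field_simp) φ hφ.1
    have hi := ((hFRO l γ).2 φ hφ).1 φ' hφ'
    have e : s' φ' = s' φ := by
      have := h1' φ hφ.1 _ (hI hi)
      rwa [mul_inv_cancel_left, h3' _ hi, add_zero] at this
    exact ⟨j, by rw [e]; exact hj⟩
  · intro l _ γ c n hc
    obtain ⟨φ, hφ⟩ := (hFRO l γ).1
    exact ⟨fun _ => 0, 1, φ, one_ne_zero, hφ, fun _ _ _ _ => by simp, Lc.const _ _,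
      fun _ _ => rfl, by simp, hc.congr fun g _ h _ => by simp⟩

end Pool.Agent.MP_e23604_nt.S

end

section

set_option autoImplicit false

open NumberField IsDedekindDomain Module Filter Topology
open scoped Classical

namespace Pool.Agent.MP_e23604_nt.S

open B R Pool.Agent.MP_f3cd89_nt

theorem log_SCHI (m : ℕ) :
    Nonempty ((ZMod (3 ^ (m + 1)))ˣ ≃* Multiplicative (ZMod (2 * 3 ^ m))) := by
  have := ZMod.isCyclic_units_of_prime_pow 3 Nat.prime_three (by decide) (m + 1)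
  refine ⟨mulEquivOfCyclicCardEq ?_⟩
  rw [Nat.card_eq_fintype_card, ZMod.card_units_eq_totient,
    Nat.totient_prime_pow_succ Nat.prime_three]
  simp [mul_comm]

theorem sum_SCHI {n : ℕ} {M : Type} [CommRing M] (F : ZMod n → M)
    (hF : ∀ a b : ℕ, ¬ 3 ∣ a → ¬ 3 ∣ b → F (a * b : ℕ) = F a + F b) (T : Finset ℕ)
    (hT : ∀ l ∈ T, l.Prime) (N : ℕ) (hN : ¬ 3 ∣ N) (h : N.primeFactors ⊆ T) :
    F N = ∑ l ∈ T, (padicValNat l N : M) * F l := by
  induction N using induction_on_primes with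
  | zero => simp at hN
  | one =>
    have := hF 1 1 hN hN
    simp only [mul_one, left_eq_add] at this
    rw [this]
    simp
  | prime_mul p a hp ih =>
    have h1 : ¬ 3 ∣ p := fun e => hN (e.mul_right _)
    have h2 : ¬ 3 ∣ a := fun e => hN (e.mul_left _)
    have ha : a ≠ 0 := fun e => h2 (e ▸ dvd_zero 3)
    rw [Nat.primeFactors_mul hp.ne_zero ha, Finset.union_subset_iff, hp.primeFactors,
      Finset.singleton_subset_iff] at h
    rw [hF p a h1 h2, ih h2 h.2]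
    have : ∀ l ∈ T, (padicValNat l (p * a) : M) * F l =
        (if l = p then F l else 0) + (padicValNat l a : M) * F l := fun l hl => by
      have := Fact.mk (hT l hl)
      have := Fact.mk hp
      rw [padicValNat.mul hp.ne_zero ha, Nat.cast_add, add_mul]
      split_ifs with e
      · rw [e, padicValNat_self, Nat.cast_one, one_mul]
      · rw [padicValNat_primes e, Nat.cast_zero, zero_mul]
    rw [Finset.sum_congr rfl this, Finset.sum_add_distrib, Finset.sum_ite_eq', if_pos h.1]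

theorem rat_SCHI {M : Type} [CommRing M] (k : ℕ) (F : ZMod (3 ^ (k + 1)) → M)
    (hF : ∀ a b : ℕ, ¬ 3 ∣ a → ¬ 3 ∣ b → F (a * b : ℕ) = F a + F b)
    (hF' : ∀ a : ℕ, ¬ 3 ∣ a → 2 * F (-a) = 2 * F a) (a : ℚ) (T : Finset ℕ)
    (h1 : a - 1 ≠ 0 → ((k + 1 : ℕ) : ℤ) ≤ padicValRat 3 (a - 1))
    (hT : ∀ l ∈ T, l.Prime ∧ l ≠ 3)
    (h2 : ∀ l : ℕ, l.Prime → l ≠ 3 → padicValRat l a ≠ 0 → l ∈ T) :
    2 * ∑ l ∈ T, (padicValRat l a : M) * F l = 0 := by
  have hd : (3 : ℤ) ^ (k + 1) ∣ a.num - a.den := by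
    rcases eq_or_ne (a - 1) 0 with h | h
    · rw [sub_eq_zero.1 h]
      simp
    have e : (a - 1) * (a.den : ℚ) = ((a.num - a.den : ℤ) : ℚ) := by
      push_cast
      rw [sub_mul, Rat.mul_den_eq_num, one_mul]
    have e2 := congrArg (padicValRat 3) e
    rw [padicValRat.mul h (by exact_mod_cast a.den_nz), padicValRat.of_int, padicValRat.of_nat] at e2
    have := h1 h
    have h3 := (padicValInt_dvd_iff (p := 3) (k + 1) (a.num - a.den)).2 (Or.inr (by omega))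
    exact_mod_cast h3
  obtain ⟨N, hN⟩ : ∃ N, N = a.num.natAbs := ⟨_, rfl⟩
  have hc : N.Coprime a.den := hN ▸ a.reduced
  have h3 : (3 : ℤ) ∣ a.num - a.den := (dvd_pow_self 3 (by omega)).trans hd
  have h4 : ¬ 3 ∣ N ∧ ¬ 3 ∣ a.den := by
    have : ¬ (3 ∣ N ∧ 3 ∣ a.den) := fun h =>
      absurd (Nat.eq_one_of_dvd_coprimes hc h.1 h.2) (by decide)
    omega
  have h5 : 2 * F N = 2 * F (a.den : ℕ) := by
    have e := (ZMod.intCast_zmod_eq_zero_iff_dvd (a.num - a.den) (3 ^ (k + 1))).2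
      (by exact_mod_cast hd)
    rw [Int.cast_sub, sub_eq_zero, Int.cast_natCast] at e
    rw [← e]
    rcases Int.natAbs_eq a.num with h | h
    · rw [h, ← hN, Int.cast_natCast]
    · rw [h, ← hN, Int.cast_neg, Int.cast_natCast, hF' N h4.1]
  have h6 : ∀ l ∈ T ∪ (N.primeFactors ∪ a.den.primeFactors), l.Prime ∧ l ≠ 3 := by
    intro l hl
    simp only [Finset.mem_union, Nat.mem_primeFactors] at hl
    rcases hl with h | h | h
    · exact hT l h
    · exact ⟨h.1, fun e => h4.1 (e ▸ h.2.1)⟩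
    · exact ⟨h.1, fun e => h4.2 (e ▸ h.2.1)⟩
  rw [Finset.sum_subset (Finset.subset_union_left (s₂ := N.primeFactors ∪ a.den.primeFactors))
    fun l hl hl' => by
      rw [not_not.1 fun h => hl' (h2 l (h6 l hl).1 (h6 l hl).2 h), Int.cast_zero, zero_mul]]
  have h7 := sum_SCHI F hF _ (fun l hl => (h6 l hl).1) N h4.1
    (Finset.subset_union_left.trans Finset.subset_union_right)
  have h8 := sum_SCHI F hF _ (fun l hl => (h6 l hl).1) a.den h4.2
    (Finset.subset_union_right.trans Finset.subset_union_right)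
  rw [h7, h8, ← sub_eq_zero, ← mul_sub, ← Finset.sum_sub_distrib] at h5
  rw [← h5]
  refine congrArg _ (Finset.sum_congr rfl fun l _ => ?_)
  rw [padicValRat, padicValInt, ← hN, Int.cast_sub, Int.cast_natCast, Int.cast_natCast]
  ring

theorem val_SCHI {l i k B : ℕ} (hl : l.Prime) (h2 : l ≠ 3) (hB : l ≤ B)
    (h : 3 ^ (k + B ^ 2 + 1) ∣ (l ^ 2) ^ i - 1) : 3 ^ k ∣ i := by
  rcases eq_or_ne i 0 with rfl | hi
  · simp
  have h3 : ¬ 3 ∣ l := fun e => h2 ((Nat.prime_dvd_prime_iff_eq Nat.prime_three hl).1 e).symm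
  have h7 : l ^ 2 % 3 = 1 := by
    rcases (by omega : l % 3 = 1 ∨ l % 3 = 2) with e | e <;> simp [pow_two, Nat.mul_mod, e]
  have h8 : 1 < l ^ 2 := Nat.one_lt_pow two_ne_zero hl.one_lt
  have h4 := padicValNat.pow_sub_pow (p := 3) (x := l ^ 2) (y := 1) (by decide) h8
    (by omega) (by omega) hi
  have h5 : padicValNat 3 (l ^ 2 - 1) ≤ l ^ 2 - 1 :=
    (padicValNat_le_nat_log _).trans (Nat.log_le_self _ _)
  have h6 : (l ^ 2) ^ i - 1 ≠ 0 := Nat.sub_ne_zero_of_lt (Nat.one_lt_pow hi h8)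
  have h9 : l ^ 2 ≤ B ^ 2 := Nat.pow_le_pow_left hB 2
  rw [padicValNat_dvd_iff_le h6] at h
  rw [one_pow] at h4
  rw [padicValNat_dvd_iff_le hi]
  omega

theorem not_mem_SCHI {l : ℕ} (hl : l.Prime) (h2 : l ≠ 3) {P : Ideal (𝓞 Qb)} [P.IsMaximal]
    (h : (l : 𝓞 Qb) ∈ P) (k : ℕ) : ((3 ^ k : ℕ) : 𝓞 Qb) ∉ P :=
  MP_f68ac8_nt.not_mem_of_coprime h
    (((Nat.coprime_primes hl Nat.prime_three).2 h2).pow_right k)

theorem surj_SCHI (k : ℕ) (u : (ZMod (3 ^ k))ˣ) :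
    ∃ τ ∈ Ine 3 1, MP_f68ac8_nt.cyc (3 ^ k) τ = u := by
  have h1 : (((cen 3 1).inertia GQ).map (MP_f68ac8_nt.cyc (3 ^ k))).comap
      (MP_f68ac8_nt.cyc (Ω := Qb) (3 ^ k)) = ⊤ := by
    refine MP_f68ac8_nt.eq_top_of_open _
      (Filter.mem_of_superset (MP_f68ac8_nt.cyc_nhds (3 ^ k)) fun g hg => ?_) fun P' _ g hg => ?_
    · rw [SetLike.mem_coe, Subgroup.mem_comap, hg]
      exact one_mem _
    · rw [Subgroup.mem_comap]
      obtain ⟨l, hl, h'⟩ := MP_f68ac8_nt.exists_prime_mem P'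
      rcases eq_or_ne l 3 with rfl | h2
      · obtain ⟨a, ha⟩ := MP_f68ac8_nt.exists_conj hl (cen_mem 3 1) h'
        refine ⟨_, ha g hg, ?_⟩
        rw [map_mul, map_mul, map_inv, mul_right_comm, inv_mul_cancel, one_mul]
      · rw [MP_f68ac8_nt.cyc_inertia (not_mem_SCHI hl h2 h' k) hg]
        exact one_mem _
  obtain ⟨g, rfl⟩ := MP_f68ac8_nt.cyc_surj (Ω := Qb) (3 ^ k) u
  have : g ∈ (((cen 3 1).inertia GQ).map (MP_f68ac8_nt.cyc (3 ^ k))).comap
      (MP_f68ac8_nt.cyc (Ω := Qb) (3 ^ k)) := h1 ▸ Subgroup.mem_top g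
  obtain ⟨τ, h2, h3⟩ := this
  exact ⟨τ, ine_iff.2 h2, h3⟩

theorem CHI_pf : CHI_st := by
  intro k B
  obtain ⟨m, hm⟩ : ∃ m, m = k + B ^ 2 := ⟨_, rfl⟩
  obtain ⟨L⟩ := log_SCHI m
  let X : GQ →* Multiplicative (ZMod (2 * 3 ^ m)) :=
    L.toMonoidHom.comp (MP_f68ac8_nt.cyc (Ω := Qb) (3 ^ (m + 1)))
  let F : ZMod (3 ^ (m + 1)) → ZMod (2 * 3 ^ m) := fun x =>
    if h : IsUnit x then (L h.unit).toAdd else 0
  have hF : ∀ u : (ZMod (3 ^ (m + 1)))ˣ, F u = (L u).toAdd := fun u => by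
    simp only [F, dif_pos u.isUnit, IsUnit.unit_of_val_units]
  have hu : ∀ a : ℕ, ¬ 3 ∣ a → ∃ u : (ZMod (3 ^ (m + 1)))ˣ, (u : ZMod (3 ^ (m + 1))) = a :=
    fun a ha => (ZMod.isUnit_iff_coprime a _).2
      (((Nat.Prime.coprime_iff_not_dvd Nat.prime_three).2 ha).symm.pow_right _)
  refine ⟨m, X.ker, fun g => (X g).toAdd, fun l => F l, ⟨⟨inferInstance, ?_⟩, fun g hg z hz => ?_,
    fun g _ h _ => by rw [map_mul, toAdd_mul], fun g => Iff.rfl, ?_, fun l hl γ h2 g hg => ?_,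
    fun l hl γ φ h2 h => ?_, fun a T h0 h1 h2 h3 => ?_⟩, fun l hl h2 hB i hi => ?_⟩
  · refine Subgroup.isOpen_of_mem_nhds _ (Filter.mem_of_superset
      (MP_f68ac8_nt.cyc_nhds (3 ^ (m + 1))) fun g hg => ?_)
    change L _ = 1
    rw [hg, map_one]
  · have h1 : MP_f68ac8_nt.cyc (3 ^ (m + 1)) g = 1 := L.map_eq_one_iff.1 hg
    have : Fact (1 < 3 ^ (m + 1)) := ⟨Nat.one_lt_pow (by omega) (by omega)⟩
    rw [MP_f68ac8_nt.cyc_spec (3 ^ (m + 1)) g (by rw [pow_succ', pow_mul, hz, one_pow]), h1,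
      Units.val_one, ZMod.val_one, pow_one]
  · obtain ⟨u, h1⟩ := L.surjective (Multiplicative.ofAdd 1)
    obtain ⟨τ, h2, rfl⟩ := surj_SCHI (m + 1) u
    exact ⟨τ, Ine_le 3 1 h2, congrArg Multiplicative.toAdd h1⟩
  · change L _ = 1
    rw [MP_f68ac8_nt.cyc_inertia (not_mem_SCHI hl.out h2 (cen_mem l γ) _) (ine_iff.1 hg), map_one]
  · rw [← MP_f68ac8_nt.cyc_frob (not_mem_SCHI hl.out h2 (cen_mem l γ) (m + 1)) (frob_iff.1 h), hF]
    rfl
  · refine rat_SCHI m F (fun a b ha hb => ?_) (fun a ha => ?_) a T (fun h => ?_) h2 h3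
    · obtain ⟨u, e1⟩ := hu a ha
      obtain ⟨v, e2⟩ := hu b hb
      rw [Nat.cast_mul, ← e1, ← e2, ← Units.val_mul, hF, hF, hF, map_mul, toAdd_mul]
    · obtain ⟨u, e1⟩ := hu a ha
      rw [← e1, ← Units.val_neg, hF, hF, two_mul (Multiplicative.toAdd _),
        two_mul (Multiplicative.toAdd _), ← toAdd_mul, ← toAdd_mul, ← map_mul,
        ← map_mul, neg_mul_neg]
    · have e1 := R.DIC_ok.2.2.1 3 1 (a - 1) h
      have e2 := R.DIC_ok.2.2.1 3 1 3 three_ne_zero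
      have e3 : padicValRat 3 3 = 1 := padicValRat.self (p := 3) (by omega)
      rw [e3] at e2
      push_cast at e1 e2
      rw [e1, e2, ← zpow_natCast, ← zpow_mul, zpow_le_zpow_iff_right₀ (by norm_num)] at h1
      omega
  · obtain ⟨u, e1⟩ := hu l fun e => h2 ((Nat.prime_dvd_prime_iff_eq Nat.prime_three hl).1 e).symm
    have h3 : L (u ^ i) = 1 := by
      apply Multiplicative.toAdd.injective
      rw [map_pow, toAdd_pow, nsmul_eq_mul, ← hF, e1]
      exact hi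
    have h4 := congrArg Units.val (L.map_eq_one_iff.1 h3)
    rw [Units.val_pow_eq_pow_val, e1, Units.val_one] at h4
    refine val_SCHI hl h2 hB ?_
    rw [← hm, ← ZMod.natCast_eq_zero_iff,
      Nat.cast_sub (Nat.one_le_pow _ _ (pow_pos hl.pos 2)), Nat.cast_pow, Nat.cast_pow,
      pow_right_comm, h4, one_pow, Nat.cast_one, sub_self]

end Pool.Agent.MP_e23604_nt.S

end

section

set_option autoImplicit false

open NumberField IsDedekindDomain Module Filter Topology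
open scoped Classical

namespace Pool.Agent.MP_e23604_nt.S

open B R Pool.Agent.MP_f3cd89_nt

theorem cst_SREC {m : ℕ} {U : Subgroup GQ} {χ : GQ → ZMod (2 * 3 ^ m)}
    {f : ℕ → ZMod (2 * 3 ^ m)} (h : Chi m U χ f) (g j : GQ) (e : g⁻¹ * j ∈ U) : χ g = χ j := by
  have := h.add g trivial (g⁻¹ * j) trivial
  rw [mul_inv_cancel_left, (h.ker _).1 e, add_zero] at this
  exact this.symm

/-- a local class dies in a large unramified extension -/
theorem loc_SREC {l : ℕ} [Fact l.Prime] {γ : GQ} {c : GQ → GQ → Qb} {k : ℕ} {r : ℚ}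
    (h : Iv l γ c (3 ^ k) r) (h2 : l ≠ 3) {m : ℕ} {U : Subgroup GQ}
    {χ : GQ → ZMod (2 * 3 ^ m)} {f : ℕ → ZMod (2 * 3 ^ m)} (hχ : Chi m U χ f)
    (hf : ∀ i : ℕ, (i : ZMod (2 * 3 ^ m)) * f l = 0 → 3 ^ k ∣ i) :
    Cob (Dec (nv l γ) ⊓ U) c := by
  obtain ⟨s, a, φ, -, hφ, hs, ⟨N, hN, hc⟩, hi, -, hb⟩ := h
  have h0 : ∀ g ∈ Dec (nv l γ) ⊓ U, s g = 0 := fun g hg => by
    obtain ⟨i, τ, hτ, e⟩ := ((R.FRO_ok l γ).2 φ hφ).2.2.2.1 (N ⊓ U) (hN.inf hχ.on) g hg.1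
    have hp := (Dec (nv l γ)).pow_mem hφ.1 i
    have e1 := cst_SREC hχ _ _ e.2
    rw [(hχ.ker g).1 hg.2, hχ.add _ trivial _ trivial, (hχ.ker τ).1 (hχ.unr l γ h2 hτ), add_zero,
      pow_CREC hχ.add trivial, hχ.fr l γ φ h2 hφ, nsmul_eq_mul] at e1
    rw [← hc _ (mul_mem hp (Ine_le l γ hτ)) g hg.1 e.1, hs _ hp _ (Ine_le l γ hτ), hi τ hτ,
      add_zero, pow_CREC hs hφ.1, nsmul_eq_mul, (ZMod.natCast_eq_zero_iff _ _).2 (hf i e1),
      zero_mul]
  refine (hb.mono inf_le_left).congr fun g hg j hj => ?_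
  rw [h0 g hg, h0 j hj, car_zero_CREC, pow_zero, mul_one]

/-- the class is cyclic, with a rational number close to one at the prime three -/
theorem glob_SREC {m : ℕ} {N U : Subgroup GQ} {χ : GQ → ZMod (2 * 3 ^ m)}
    {f : ℕ → ZMod (2 * 3 ^ m)} (hχ : Chi m U χ f) {c : GQ → GQ → Qb}
    {β : GQ → Qb} (hN : ON N) (hU : N ≤ U) (hc : Coc ⊤ c) (hi : Inf2 N ⊤ c) (h1 : Inf1 N U β)
    (hb : Bd U c β) (h2 : Cob (Dec (nv 3 1)) c) :
    ∃ (a : ℚ) (β' : GQ → Qb), a ≠ 0 ∧ nv 3 1 ((a : Qb) - 1) ≤ nv 3 1 3 ^ (m + 1) ∧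
      Inf1 N ⊤ β' ∧ Bd ⊤ (fun g h => c g h * (a : Qb) ^ car (χ g) (χ h)) β' := by
  obtain ⟨s, hs, hs1⟩ := hχ.thr
  have hm : 2 ≤ 2 * 3 ^ m := Nat.le_mul_of_pos_right _ (by positivity)
  have hk : ∀ g, g ∈ U ↔ g ∈ (⊤ : Subgroup GQ) ∧ χ g = 0 := fun g => by simp [hχ.ker g]
  obtain ⟨a, β', -, ha, h3, h4⟩ :=
    R.CYC_ok _ N U ⊤ χ s c β hm hN hU hχ.add hk trivial hs1 hc hi h1 hb
  have h5 : Cob (Dec (nv 3 1)) fun g h => a ^ car (χ g) (χ h) :=
    div_CREC h2 (Cob.mono ⟨N, β', hN, h3, h4⟩ le_top) fun g j => (hi.2.2 g trivial j trivial).1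
  obtain ⟨y, hy0, hy, hya⟩ := (R.NRM_ok _ (Dec (nv 3 1) ⊓ U) (Dec (nv 3 1)) χ s hm
    (hχ.add.mono le_top) (fun g => by rw [Subgroup.mem_inf, hχ.ker g]) hs hs1).2 a h5
  set v := nv 3 1 with hv
  have hna : IsNonarchimedean v := nv_na 3 1
  have hδ0 : 0 < v 3 ^ (m + 1) := pow_pos (v.pos three_ne_zero) _
  have hδ1 : v 3 ^ (m + 1) ≤ 1 := pow_le_one₀ (v.nonneg _) (by exact_mod_cast (nv_lt 3 1).le)
  have hvy := v.pos hy0
  obtain ⟨y0, h6, h7⟩ := R.DEN_ok 3 1 U y (v y * v 3 ^ (m + 1)) hχ.on.2 hy (mul_pos hvy hδ0)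
  have h8 : v y ≤ v y0 := by
    have e : y = (y - y0) + y0 := by ring
    have h9 := hna (y - y0) y0
    rw [← e] at h9
    rcases le_max_iff.1 h9 with h | h
    · exact absurd (h7.trans_le (mul_le_of_le_one_right hvy.le hδ1)) (not_lt.2 h)
    · exact h
  have hvy0 := hvy.trans_le h8
  have hy00 : y0 ≠ 0 := v.pos_iff.1 hvy0
  have h9 : v (y / y0 - 1) ≤ v 3 ^ (m + 1) := by
    rw [div_sub_one hy00, map_div₀, div_le_iff₀ hvy0, mul_comm]
    exact h7.le.trans (mul_le_mul_of_nonneg_right h8 hδ0.le)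
  obtain ⟨h10, h11, h12⟩ := (R.NRM_ok _ U ⊤ χ s hm hχ.add hk trivial hs1).1 y0 h6
  have hne : ∀ (z : Qb) (j : ℕ), z ≠ 0 → ∏ i ∈ Finset.range j, (s ^ i) z ≠ 0 := fun z j hz =>
    Finset.prod_ne_zero_iff.2 fun i _ => (map_ne_zero _).2 hz
  obtain ⟨q, hq⟩ := (InfiniteGalois.mem_range_algebraMap_iff_fixed (k := ℚ)
    (a / ∏ i ∈ Finset.range (2 * 3 ^ m), (s ^ i) y0)).2 fun g => by
      rw [map_div₀, ha g trivial, h10 g trivial]
  rw [eq_ratCast] at hq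
  have hq' : (q : Qb) = ∏ i ∈ Finset.range (2 * 3 ^ m), (s ^ i) (y / y0) := by
    rw [hq, ← hya, ← Finset.prod_div_distrib]
    simp only [map_div₀]
  refine ⟨q, fun g => β' g / ∏ i ∈ Finset.range (χ g).val, (s ^ i) y0, fun h0 => ?_, ?_,
    ⟨fun g _ j _ e => ?_, fun g _ => ⟨div_ne_zero (h3.2 g trivial).1 (hne _ _ hy00),
      fun x hx => ?_⟩⟩, fun g _ j _ => ?_⟩
  · rw [h0, Rat.cast_zero] at hq'
    exact hne _ _ (div_ne_zero hy0 hy00) hq'.symm
  · rw [hq']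
    refine prod_CREC hna hδ0.le hδ1 _ (fun i => ?_) _
    rw [← map_one (s ^ i), ← map_sub, (Dec v).pow_mem hs i]
    exact h9
  · simp only [h3.1 g trivial j trivial e, cst_SREC hχ g j (hU e)]
  · rw [map_div₀, (h3.2 g trivial).2 x hx, h12 g x (hU hx)]
  · have e1 := h4 g trivial j trivial
    have e2 := h11 g trivial j trivial
    have n1 := hne y0 (χ (g * j)).val hy00
    have n2 := hne y0 (2 * 3 ^ m) hy00
    simp only at e1 e2 ⊢
    rw [map_div₀, div_mul_div_comm, e1, e2, hq, div_pow]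
    field_simp

theorem int_SREC {n : ℕ} (hn : n ≠ 0) (z : ℤ) (h : (z : ZMod n) = 0) :
    (z : ℚ) / (n : ℚ) ∈ (Int.castRingHom ℚ).range := by
  obtain ⟨k, rfl⟩ := (ZMod.intCast_zmod_eq_zero_iff_dvd _ _).1 h
  refine ⟨k, ?_⟩
  rw [eq_intCast, Int.cast_mul, Int.cast_natCast, mul_div_cancel_left₀]
  exact Nat.cast_ne_zero.2 hn

theorem REC_pf (hABHN : ABHN_st) (hVAL : VAL_st) (hCHI : CHI_st) : REC_st := by
  intro N c n k Q γ r hN hc hi hn hcn hQ hinv hout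
  have hc1 : ∀ (v : AbsoluteValue Qb ℝ) g j, v (c g j) = 1 := fun v g j => by
    have := congrArg v (hcn g j)
    rw [map_pow, map_one] at this
    exact (pow_eq_one_iff_of_nonneg (v.nonneg _) hn).1 this
  obtain ⟨m, U, χ, f, hχ, hf⟩ := hCHI k (Q.sup id)
  have hn0 : 2 * 3 ^ m ≠ 0 := by positivity
  have : NeZero (2 * 3 ^ m) := ⟨hn0⟩
  have hNU : Lp 3 (N ⊓ U) U := (hN.mono hχ.le).inf (Lp.self 3 hχ.on)
  have hnr : NoReal U := by
    obtain ⟨x, h1, h2⟩ := GK_nr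
    exact ⟨x, fun g hg => h1 g (hχ.le hg), h2⟩
  obtain ⟨β, h1, h2⟩ := hABHN 3 (N ⊓ U) U c Nat.prime_three hNU inf_le_right hnr (hc.mono le_top)
    (hi.mono inf_le_left le_top) fun l _ γ' => by
      by_cases hl : l ∈ Q
      · exact Or.inl (R.CONJ_ok.2 N U c l (γ l) γ' hN.1 hχ.on.1 hc hi
          (loc_SREC (hinv l hl) (hQ l hl).2 hχ
            (hf l (hQ l hl).1 (hQ l hl).2 (Finset.le_sup (f := id) hl))))
      · rcases hout l hl with h | h
        · exact Or.inl (R.CONJ_ok.2 N U c l 1 γ' hN.1 hχ.on.1 hc hi (h.mono inf_le_left))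
        · exact Or.inr ⟨fun τ h3 h4 => ⟨h.2 γ' h4, h3⟩, fun g _ j _ => hc1 _ g j⟩
  have h3 : Cob (Dec (nv 3 1)) c :=
    (hout 3 fun h => (hQ 3 h).2 rfl).resolve_right fun h => h.1 rfl
  obtain ⟨a, β', ha0, ha1, h4, h5⟩ := glob_SREC hχ hNU.1 inf_le_right hc
    (hi.mono inf_le_left le_rfl) h1 h2 h3
  have h6 : Cob ⊤ fun g h => c g h * (a : Qb) ^ car (χ g) (χ h) := ⟨_, β', hNU.1, h4, h5⟩
  have hlc : ∀ H, Lc H χ := fun H => ⟨U, hχ.on, fun g _ j _ e => cst_SREC hχ g j e⟩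
  set t : ℕ → ℚ := fun l => ((padicValRat l a * (f l).val : ℤ) : ℚ) / ((2 * 3 ^ m : ℕ) : ℚ)
    with ht
  have h7 : ∀ (l : ℕ) [Fact l.Prime] (γ' : GQ), l ≠ 3 → Iv l γ' c (2 * 3 ^ m) (t l) :=
    fun l _ γ' hl => by
      obtain ⟨φ, hφ⟩ := (R.FRO_ok l γ').1
      refine ⟨χ, a, φ, ha0, hφ, hχ.add.mono le_top, hlc _,
        fun τ hτ => (hχ.ker τ).1 (hχ.unr l γ' hl hτ), ?_, h6.mono le_top⟩
      rw [hχ.fr l γ' φ hl hφ, ht]
      simp only [Int.cast_mul, Int.cast_natCast]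
  have hcast : ∀ l, ((padicValRat l a * (f l).val : ℤ) : ZMod (2 * 3 ^ m)) =
      (padicValRat l a : ZMod (2 * 3 ^ m)) * f l := fun l => by
    rw [Int.cast_mul, Int.cast_natCast, ZMod.natCast_zmod_val]
  have h8 : ∀ l : ℕ, l.Prime → l ≠ 3 → l ∉ Q → t l ∈ (Int.castRingHom ℚ).range := by
    intro l hp hl hlQ
    have := Fact.mk hp
    rcases hout l hlQ with h | h
    · obtain ⟨k, hk⟩ := hVAL.1 l 1 c _ _ _ _ hn0 hn0 (h7 l 1 hl) (hVAL.2 l 1 c _ h)
      exact ⟨k, by rw [eq_intCast, ← hk, sub_zero]⟩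
    · obtain ⟨φ, hφ⟩ := (R.FRO_ok l 1).1
      have h9 := R.VAL_ok.1 l 1 (2 * 3 ^ m) χ a β' hn0 ha0 (hχ.add.mono le_top) (hlc _)
        ⟨_, hNU.1, h4.1.mono le_rfl le_top⟩
        (fun g _ => ⟨(h4.2 g trivial).1, fun τ hτ =>
          (h4.2 g trivial).2 τ ⟨h.2 1 hτ, hχ.unr l 1 hl hτ⟩⟩)
        (fun g hg j _ => by
          have := congrArg (nv l 1) (h5 g trivial j trivial)
          simpa only [map_mul, map_pow, hc1, one_mul, hg (β' j)] using this) φ hφ.1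
      rw [hχ.fr l 1 φ hl hφ] at h9
      exact int_SREC hn0 _ ((hcast l).trans h9)
  set T := Q ∪ (a.num.natAbs * a.den).primeFactors.erase 3 with hT
  have hTp : ∀ l ∈ T, l.Prime ∧ l ≠ 3 := fun l hl => by
    rcases Finset.mem_union.1 hl with h | h
    · exact hQ l h
    · exact ⟨Nat.prime_of_mem_primeFactors (Finset.mem_erase.1 h).2, (Finset.mem_erase.1 h).1⟩
  have h9 := hχ.sum a T ha0 ha1 hTp fun l hp hl hv => by
    refine Finset.mem_union_right _ (Finset.mem_erase.2 ⟨hl, Nat.mem_primeFactors.2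
      ⟨hp, ?_, mul_ne_zero (Int.natAbs_ne_zero.2 (Rat.num_ne_zero.2 ha0)) a.den_nz⟩⟩)
    by_contra h
    rw [hp.dvd_mul, not_or] at h
    rw [padicValRat, padicValInt, padicValNat.eq_zero_of_not_dvd h.1,
      padicValNat.eq_zero_of_not_dvd h.2] at hv
    exact hv rfl
  have h10 : 2 * ∑ l ∈ T, t l ∈ (Int.castRingHom ℚ).range := by
    have e : 2 * ∑ l ∈ T, t l =
        ((2 * ∑ l ∈ T, padicValRat l a * (f l).val : ℤ) : ℚ) / ((2 * 3 ^ m : ℕ) : ℚ) := by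
      rw [ht, ← Finset.sum_div, ← Int.cast_sum, Int.cast_mul, Int.cast_ofNat, mul_div_assoc]
    rw [e]
    refine int_SREC hn0 _ ?_
    rw [Int.cast_mul, Int.cast_ofNat, Int.cast_sum, ← h9]
    exact congrArg _ (Finset.sum_congr rfl fun l _ => hcast l)
  have h11 : ∑ l ∈ T \ Q, t l ∈ (Int.castRingHom ℚ).range := sum_mem fun l hl =>
    h8 l (hTp l (Finset.mem_sdiff.1 hl).1).1 (hTp l (Finset.mem_sdiff.1 hl).1).2
      (Finset.mem_sdiff.1 hl).2
  have h12 : ∑ l ∈ Q, (r l - t l) ∈ (Int.castRingHom ℚ).range := sum_mem fun l hl => by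
    have := Fact.mk (hQ l hl).1
    obtain ⟨k, hk⟩ := hVAL.1 l (γ l) c _ _ _ _ (by positivity) hn0 (hinv l hl)
      (h7 l (γ l) (hQ l hl).2)
    exact ⟨k, hk.symm⟩
  have h13 : (3 : ℚ) ^ k * ∑ l ∈ Q, r l ∈ (Int.castRingHom ℚ).range := by
    rw [Finset.mul_sum]
    refine sum_mem fun l hl => ?_
    have := Fact.mk (hQ l hl).1
    obtain ⟨s, b, φ, -, -, -, -, -, e, -⟩ := hinv l hl
    refine ⟨padicValRat l b * (s φ).val, ?_⟩
    rw [e, eq_intCast]
    push_cast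
    field_simp
  obtain ⟨z1, e1⟩ := h10
  obtain ⟨z2, e2⟩ := h11
  obtain ⟨z3, e3⟩ := h12
  obtain ⟨z4, e4⟩ := h13
  obtain ⟨j, hj⟩ : Odd (3 ^ k) := Odd.pow (by decide)
  have hj' : (3 : ℚ) ^ k = 2 * j + 1 := by exact_mod_cast hj
  rw [eq_intCast] at e1 e2 e3 e4
  rw [← Finset.sum_sdiff (Finset.subset_union_left : Q ⊆ T)] at e1
  rw [Finset.sum_sub_distrib] at e3
  refine ⟨z4 - j * (2 * z3 + z1 - 2 * z2), ?_⟩
  push_cast
  rw [e1, e2, e3, e4, hj']
  ring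

end Pool.Agent.MP_e23604_nt.S

end

section

set_option autoImplicit false

open NumberField IsDedekindDomain Module Filter Topology
open scoped Classical

namespace Pool.Agent.MP_e23604_nt.S

open B R Pool.Agent.MP_f3cd89_nt

theorem core_SAQ (hABHN : ABHN_st) {N : Subgroup GQ} {c : GQ → GQ → Qb} (hN : Lp 3 N GK)
    (hle : N ≤ GK) (hc : Coc GK c) (hi : Inf2 N GK c) (h3 : ∀ g ∈ GK, ∀ h ∈ GK, c g h ^ 3 = 1)
    (hl : ∀ (l : ℕ) [Fact l.Prime] (γ : GQ), Cob (Dec (nv l γ) ⊓ GK) c ∨ Ine l γ ⊓ GK ≤ N) :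
    ∃ β, Inf1 N GK β ∧ Bd GK c β := by
  refine hABHN 3 N GK c Nat.prime_three hN hle GK_nr hc hi fun l _ γ => (hl l γ).imp_right ?_
  refine fun h => ⟨fun τ h1 h2 => h ⟨h2, h1⟩, fun g hg j hj => ?_⟩
  have := congrArg (nv l γ) (h3 g hg j hj)
  rw [map_pow, map_one] at this
  exact (pow_eq_one_iff_of_nonneg ((nv l γ).nonneg _) three_ne_zero).1 this

theorem ex_SAQ : ∃ s : GQ, s ∉ GK := by
  obtain ⟨c, ι, hc⟩ := R.DIC_ok.2.2.2.1
  obtain ⟨x, h1, h2⟩ := GK_nr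
  refine ⟨c, fun h => h2 ι ?_⟩
  have := hc x
  rw [h1 c h] at this
  exact Complex.conj_eq_iff_im.1 this.symm

/-- the quadratic character with kernel `GK` -/
noncomputable def chi_SAQ (g : GQ) : ZMod 2 := if g ∈ GK then 0 else 1

theorem ker_SAQ (g : GQ) : g ∈ GK ↔ g ∈ (⊤ : Subgroup GQ) ∧ chi_SAQ g = 0 := by
  unfold chi_SAQ
  by_cases h : g ∈ GK <;> simp [h]

theorem adt_SAQ : Adt ⊤ chi_SAQ := by
  intro g _ h _
  unfold chi_SAQ
  by_cases hg : g ∈ GK <;> by_cases hh : h ∈ GK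
  · rw [if_pos hg, if_pos hh, if_pos (GK.mul_mem hg hh), add_zero]
  · rw [if_pos hg, if_neg hh, if_neg (by rwa [GK.mul_mem_cancel_left hg]), zero_add]
  · rw [if_neg hg, if_pos hh, if_neg (by rwa [GK.mul_mem_cancel_right hh]), add_zero]
  · rw [if_neg hg, if_neg hh, if_pos (GK_mul hg hh)]
    rfl

theorem lc_SAQ : Lc ⊤ chi_SAQ := ⟨GK, GK_on, fun g _ h _ e => by
  have := adt_SAQ g trivial (g⁻¹ * h) trivial
  rw [mul_inv_cancel_left, ((ker_SAQ _).1 e).2, add_zero] at this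
  exact this.symm⟩

theorem AQ_pf (hABHN : ABHN_st) : AQ_st := by
  refine ⟨fun N c hN hle hc hi h3 hl => ?_, fun N c hN hc hi h3 hl => ?_⟩
  · obtain ⟨β, h1, h2⟩ := core_SAQ hABHN hN hle hc hi h3 hl
    exact R.H90_ok.2 GK c 3 three_ne_zero ⟨N, β, hN.1, h1, h2⟩ h3
  · have hN' : Lp 3 (N ⊓ GK) GK := hN.inf (Lp.self 3 GK_on)
    obtain ⟨β, h1, h2⟩ := core_SAQ hABHN hN' inf_le_right (hc.mono le_top)
      (hi.mono inf_le_left le_top) (fun g _ h _ => h3 g h) fun l _ γ =>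
        (hl l).imp (R.CONJ_ok.2 N GK c l 1 γ hN.1 GK_on.1 hc hi) fun h =>
          le_inf (h γ) inf_le_right
    obtain ⟨s, hs⟩ := ex_SAQ
    have hs1 : chi_SAQ s = 1 := if_neg hs
    obtain ⟨a, β', a0, a1, b1, b2⟩ := R.CYC_ok 2 (N ⊓ GK) GK ⊤ chi_SAQ s c β le_rfl hN'.1
      inf_le_right adt_SAQ ker_SAQ trivial hs1 hc (hi.mono inf_le_left le_rfl) h1 h2
    have hb : Cob ⊤ fun g h => c g h * a ^ car (chi_SAQ g) (chi_SAQ h) := ⟨_, β', hN'.1, b1, b2⟩
    obtain ⟨n1, n2⟩ := R.NRM_ok 2 GK ⊤ chi_SAQ s le_rfl adt_SAQ ker_SAQ trivial hs1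
    obtain ⟨y, y0, y1, y2⟩ := n2 (a ^ 3) (((hb.mul hb).mul hb).congr fun g _ h _ => by
      rw [← pow_mul, mul_comm 3, pow_mul]
      linear_combination (a ^ car (chi_SAQ g) (chi_SAQ h)) ^ 3 * h3 g h)
    have z1 : Fix GK (y / a) := fun g hg => by rw [map_div₀, y1 g hg, a1 g trivial]
    have z2 : ∏ i ∈ Finset.range 2, (s ^ i) (y / a) = a := by
      simp only [Finset.prod_range_succ, Finset.range_zero, Finset.prod_empty, map_div₀,
        a1 _ trivial] at y2 ⊢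
      field_simp
      linear_combination y2
    obtain ⟨-, m2, -⟩ := n1 (y / a) z1
    rw [z2] at m2
    have hz : Cob ⊤ fun g h => a ^ car (chi_SAQ g) (chi_SAQ h) :=
      cob_of_lc (lc_SAQ.map fun t => ∏ i ∈ Finset.range t.val, (s ^ i) (y / a))
        (fun g _ => Finset.prod_ne_zero_iff.2 fun i _ =>
          (map_ne_zero _).2 (div_ne_zero y0 a0)) m2
    have hcob : Cob ⊤ c := (hb.mul hz.inv).congr fun g _ h _ =>
      mul_inv_cancel_right₀ (pow_ne_zero _ a0) _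
    obtain ⟨β'', e1, e2, e3⟩ := R.H90_ok.2 ⊤ c 3 three_ne_zero hcob fun g _ h _ => h3 g h
    exact ⟨β'', e1, fun g => e2 g trivial, e3⟩

end Pool.Agent.MP_e23604_nt.S

end

section

set_option autoImplicit false

open NumberField IsDedekindDomain Module Filter Topology
open scoped Classical

namespace Pool.Agent.MP_e23604_nt.S

open B R Pool.Agent.MP_f3cd89_nt

theorem INVQ_pf (hHOMQ : HOMQ_st) : INVQ_st := by
  have hFRO := R.FRO_ok
  intro k ζ q _ γ φ τ A _ M e a b hζ hT hB hM ha hb hla hlb hab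
  have hq : q.Prime := Fact.out
  have hn1 : 1 < 3 ^ (k + 1) := Nat.one_lt_pow (Nat.succ_ne_zero k) (by norm_num)
  have : NeZero (3 ^ (k + 1)) := ⟨by omega⟩
  have : Fact (1 < 3 ^ (k + 1)) := ⟨hn1⟩
  have hz : ζ ^ 3 ^ (k + 1) = 1 := hζ.pow_eq_one
  have hz0 : ζ ≠ 0 := hζ.ne_zero (by omega)
  have hφ : φ ∈ Dec (nv q γ) := hT.fr.1
  have hτ : τ ∈ Dec (nv q γ) := Ine_le q γ hT.ine
  have hqn : ¬ q ∣ 3 ^ (k + 1) := fun h => by
    have h2 := hq.two_le
    have := Nat.le_of_dvd (by omega) (h.trans hT.dvd)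
    omega
  have hzq : ζ ^ q = ζ := by
    obtain ⟨c, hc⟩ := hT.dvd
    have : q = 3 ^ (k + 1) * c + 1 := by have := hq.pos; omega
    rw [this, pow_succ, pow_mul, hz, one_pow, one_mul]
  have hfr : ∀ φ', Frob q γ φ' → φ' ζ = ζ := fun φ' h =>
    (((hFRO q γ).2 φ' h).2.2.1 _ ζ hqn hz).trans hzq
  have hfix : ∀ g ∈ Dec (nv q γ), g ζ = ζ := fun g hg => by
    obtain ⟨N, hN, hNf⟩ := exists_ON_fix {ζ}
    obtain ⟨i, u, hu, hg'⟩ := ((hFRO q γ).2 φ hT.fr).2.2.2.1 N hN g hg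
    have h1 := hNf ζ (Finset.mem_singleton_self ζ) _ hg'
    have h2 : u ζ = ζ := by
      have := hfr _ (((hFRO q γ).2 φ hT.fr).2.1 u hu)
      rw [AlgEquiv.mul_apply] at this
      exact φ.injective (this.trans (hfr φ hT.fr).symm)
    have h3 : ∀ i : ℕ, (φ ^ i) ζ = ζ := fun i => by
      induction i with
      | zero => rfl
      | succ i ih => rw [pow_succ, AlgEquiv.mul_apply, hfr φ hT.fr, ih]
    have h4 := congrArg (φ ^ i * u) h1
    rwa [← AlgEquiv.mul_apply, mul_inv_cancel_left, AlgEquiv.mul_apply, h2, h3] at h4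
  obtain ⟨s, hs, hls, hsi, hsφ⟩ := unr_CTQ hFRO q γ φ (m := 3 ^ (k + 1)) (by omega) hT.fr
  obtain ⟨ϖ, hϖ, hτϖ, hφϖ⟩ := hT.ex
  have hϖ0 : ϖ ≠ 0 := fun h => by
    rw [h, zero_pow (by omega)] at hϖ
    exact hq.ne_zero (by exact_mod_cast hϖ.symm)
  have hlog : ∀ w : Qb, w ^ 3 ^ (k + 1) = 1 → ∃ x : ZMod (3 ^ (k + 1)), ζ ^ x.val = w :=
    fun w hw => by
      obtain ⟨i, -, hi⟩ := hζ.eq_pow_of_pow_eq_one hw
      exact ⟨i, (pow_val_cast_INVQ hz i).trans hi⟩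
  have hinj : ∀ x y : ZMod (3 ^ (k + 1)), ζ ^ x.val = ζ ^ y.val → x = y := fun x y h =>
    ZMod.val_injective _ (hζ.pow_inj (ZMod.val_lt x) (ZMod.val_lt y) h)
  let L : Qb → ZMod (3 ^ (k + 1)) := fun w => Classical.epsilon fun x => ζ ^ x.val * ϖ = w
  let t : GQ → ZMod (3 ^ (k + 1)) := fun g => L (g ϖ)
  have ht : ∀ g : GQ, ζ ^ (t g).val * ϖ = g ϖ := fun g => by
    refine Classical.epsilon_spec (p := fun x : ZMod (3 ^ (k + 1)) => ζ ^ x.val * ϖ = g ϖ) ?_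
    obtain ⟨x, hx⟩ := hlog (g ϖ / ϖ) (by
      rw [div_pow, ← map_pow, hϖ, map_natCast, div_self (by exact_mod_cast hq.ne_zero)])
    exact ⟨x, by rw [hx, div_mul_cancel₀ _ hϖ0]⟩
  have hlt : Lc (Dec (nv q γ)) t := (Lc.apply _ ϖ).map L
  have hta : Adt (Dec (nv q γ)) t := fun g hg h _ => hinj _ _ (mul_right_cancel₀ hϖ0 (by
    rw [ht, AlgEquiv.mul_apply, ← ht h, map_mul, map_pow, hfix g hg, ← ht g,
      pow_val_add_INVQ hz]
    ring))
  have htφ : t φ = 0 := hinj _ _ (mul_right_cancel₀ hϖ0 (by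
    rw [ht, hφϖ, ZMod.val_zero, pow_zero, one_mul]))
  have htτ : t τ = 1 := hinj _ _ (mul_right_cancel₀ hϖ0 (by
    rw [ht, hτϖ, ZMod.val_one, pow_one]))
  have hdec : ∀ a : GQ → A, Adt (Dec (nv q γ)) a → Lc (Dec (nv q γ)) a →
      (∀ g ∈ Dec (nv q γ), a g ∈ M) → ∀ g ∈ Dec (nv q γ),
      a g = (s g).val • a φ + (t g).val • a τ := fun a ha hla hm g hg => by
    refine sub_eq_zero.1 ((hHOMQ k ζ q γ φ τ A hζ hT).2.2.2.2
      (fun g => a g - ((s g).val • a φ + (t g).val • a τ)) (k + 1) (fun g hg h hh => ?_)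
      (hla.map₂ (hls.map₂ hlt fun x y => x.val • a φ + y.val • a τ) fun x y => x - y)
      (fun g hg => hM _ (M.sub_mem (hm g hg)
        (M.add_mem (M.nsmul_mem (hm φ hφ) _) (M.nsmul_mem (hm τ hτ) _)))) ?_ ?_ g hg)
    · simp only [ha g hg h hh, hs g hg h hh, hta g hg h hh, smul_val_INVQ (hM _ (hm φ hφ)),
        smul_val_INVQ (hM _ (hm τ hτ))]
      abel
    · simp only [hsφ, htφ, ZMod.val_one, ZMod.val_zero, one_nsmul, zero_nsmul, add_zero, sub_self]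
    · simp only [hsi τ hT.ine, htτ, ZMod.val_one, ZMod.val_zero, one_nsmul, zero_nsmul, zero_add,
        sub_self]
  obtain ⟨u2, hu2⟩ : ∃ u : ZMod (3 ^ (k + 1)), 2 * u = 1 := by
    obtain ⟨j, hj⟩ : Odd (3 ^ (k + 1)) := Odd.pow (by decide)
    refine ⟨((j + 1 : ℕ) : ZMod (3 ^ (k + 1))), ?_⟩
    have h0 := ZMod.natCast_self (3 ^ (k + 1))
    have h1 := congrArg (Nat.cast : ℕ → ZMod (3 ^ (k + 1))) hj
    rw [h0] at h1
    push_cast at h1 ⊢
    linear_combination -h1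
  have hev : ∀ x ∈ M, ∀ y ∈ M, ∃ m : ZMod (3 ^ (k + 1)), e x y = ζ ^ (2 * m).val :=
    fun x hx y hy => by
      obtain ⟨i, hi⟩ := hlog _ (hB.pow x hx y hy)
      exact ⟨u2 * i, by rw [← mul_assoc, hu2, one_mul, hi]⟩
  obtain ⟨m1, h1⟩ := hev _ (hab φ hφ).1 _ (hab φ hφ).2
  obtain ⟨p, h2⟩ := hev _ (hab φ hφ).1 _ (hab τ hτ).2
  obtain ⟨p', h3⟩ := hev _ (hab τ hτ).1 _ (hab φ hφ).2
  obtain ⟨m2, h4⟩ := hev _ (hab τ hτ).1 _ (hab τ hτ).2
  have hk0 : 3 ^ (k + 1) ≠ 0 := by omega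
  have hc : ∀ g ∈ Dec (nv q γ), ∀ h ∈ Dec (nv q γ), e (a g) (b h) =
      ζ ^ (2 * m1 * s g * s h + 2 * p * s g * t h + (2 * p' * t g * s h + 2 * m2 * t g * t h)).val :=
    fun g hg h hh => by
      have a1 := (hab φ hφ).1
      have a2 := (hab τ hτ).1
      have b1 := (hab φ hφ).2
      have b2 := (hab τ hτ).2
      rw [hdec a ha hla (fun g hg => (hab g hg).1) g hg,
        hdec b hb hlb (fun g hg => (hab g hg).2) h hh,
        hB.addl _ (M.nsmul_mem a1 _) _ (M.nsmul_mem a2 _) _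
          (M.add_mem (M.nsmul_mem b1 _) (M.nsmul_mem b2 _)),
        hB.addr _ (M.nsmul_mem a1 _) _ (M.nsmul_mem b1 _) _ (M.nsmul_mem b2 _),
        hB.addr _ (M.nsmul_mem a2 _) _ (M.nsmul_mem b1 _) _ (M.nsmul_mem b2 _),
        hB.nsmul_INVQ hk0 a1 b1, hB.nsmul_INVQ hk0 a1 b2, hB.nsmul_INVQ hk0 a2 b1,
        hB.nsmul_INVQ hk0 a2 b2, h1, h2, h3, h4]
      simp only [pow_val_mul_INVQ hz, pow_val_add_INVQ hz]
  obtain ⟨m, hm⟩ : ∃ m : ZMod (3 ^ (k + 1)), m = 2 * p' - 2 * p := ⟨_, rfl⟩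
  refine ⟨m.val, ?_, s, (q : ℚ) ^ m.val, φ,
    pow_ne_zero _ (by exact_mod_cast hq.ne_zero), hT.fr, hs, hls, hsi, ?_, ?_⟩
  · rw [zpow_natCast, h2, h3, ← pow_val_add_INVQ hz, hm, sub_add_cancel]
  · rw [padicValRat.pow, padicValRat.self hq.one_lt, hsφ,
      ZMod.val_one]
    push_cast
    ring
  · refine cob_of_lc (β := fun g => (ϖ ^ (s g).val) ^ m.val *
        ζ ^ (-(m1 * s g ^ 2 + m2 * t g ^ 2 + 2 * p * s g * t g)).val)
      (hls.map₂ hlt fun x y => (ϖ ^ x.val) ^ m.val *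
        ζ ^ (-(m1 * x ^ 2 + m2 * y ^ 2 + 2 * p * x * y)).val)
      (fun g _ => mul_ne_zero (pow_ne_zero _ (pow_ne_zero _ hϖ0)) (pow_ne_zero _ hz0))
      fun g hg h hh => ?_
    have e1 : ϖ ^ (s g).val * ϖ ^ (s h).val =
        (q : Qb) ^ car (s g) (s h) * ϖ ^ (s g + s h).val := by
      rw [← pow_add, ← hϖ, ← pow_mul, ← pow_add, car, ZMod.val_add, Nat.div_add_mod]
    have e2 : ζ ^ (t g * s h * m).val *
        (ζ ^ (-(m1 * s g ^ 2 + m2 * t g ^ 2 + 2 * p * s g * t g)).val *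
        ζ ^ (-(m1 * s h ^ 2 + m2 * t h ^ 2 + 2 * p * s h * t h)).val) = e (a g) (b h) *
        ζ ^ (-(m1 * (s g + s h) ^ 2 + m2 * (t g + t h) ^ 2 +
          2 * p * (s g + s h) * (t g + t h))).val := by
      rw [hc g hg h hh, ← pow_val_add_INVQ hz, ← pow_val_add_INVQ hz, ← pow_val_add_INVQ hz, hm]
      congr 2
      ring
    simp only [map_mul, map_pow, hfix g hg, ← ht g, hs g hg h hh, hta g hg h hh, mul_pow,
      pow_val_mul_INVQ hz]
    push_cast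
    rw [← pow_mul (q : Qb), mul_comm m.val, pow_mul]
    have e3 := congrArg (· ^ m.val) e1
    simp only [mul_pow] at e3
    linear_combination (ζ ^ (t g * s h * m).val *
        (ζ ^ (-(m1 * s g ^ 2 + m2 * t g ^ 2 + 2 * p * s g * t g)).val *
        ζ ^ (-(m1 * s h ^ 2 + m2 * t h ^ 2 + 2 * p * s h * t h)).val)) * e3 +
      (((q : Qb) ^ car (s g) (s h)) ^ m.val * (ϖ ^ (s g + s h).val) ^ m.val) * e2

end Pool.Agent.MP_e23604_nt.S

end

section

set_option autoImplicit false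

open NumberField IsDedekindDomain Module Filter Topology
open scoped Classical

namespace Pool.Agent.MP_e23604_nt.S

open B R Pool.Agent.MP_f3cd89_nt

/-- the primes whose Frobenius element generates a normal subgroup of order three -/
theorem fin_SCHEB (F L G : Type) [Field F] [NumberField F] [Field L] [NumberField L]
    [Algebra F L] [Group G] [Finite G] [MulSemiringAction G L] [IsGaloisGroup G F L]
    (S : Finset (Pr F)) (φ : Pr F → G) (a : G) (h1 : a ≠ 1) (h3 : a ^ 3 = 1)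
    (hc : ∀ h, h * a * h⁻¹ = a ∨ h * a * h⁻¹ = a⁻¹) (hU : Unr L G S) (hφ : IsFrob L S φ) :
    ¬ Summable fun v : Pr F =>
      if v ∉ S ∧ (φ v = a ∨ φ v = a⁻¹) then (1 / (nrm v : ℝ)) else 0 := by
  intro hs
  have hb := (dens fb (tow fb) ntc F L G S φ ⊥ inferInstance hU hφ).1
  have : Fact (Nat.Prime 3) := ⟨Nat.prime_three⟩
  have ho : orderOf a = 3 := orderOf_eq_prime h3 h1
  have h2 : a ^ 2 = a⁻¹ := eq_inv_of_mul_eq_one_left (by rw [← pow_succ, h3])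
  have hm : ∀ x, x ∈ Subgroup.zpowers a ↔ x = 1 ∨ x = a ∨ x = a⁻¹ := by
    intro x
    refine ⟨fun hx => ?_, ?_⟩
    · rw [mem_zpowers_iff_mem_range_orderOf, ho, Finset.mem_image] at hx
      obtain ⟨i, hi, rfl⟩ := hx
      have := Finset.mem_range.1 hi
      interval_cases i <;> simp [h2]
    · rintro (rfl | rfl | rfl)
      · exact one_mem _
      · exact Subgroup.mem_zpowers _
      · exact inv_mem (Subgroup.mem_zpowers _)
  have hk : ∀ g, g * a * g⁻¹ ∈ Subgroup.zpowers a := fun g =>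
    (hm _).2 (Or.inr (hc g))
  have hN : (Subgroup.zpowers a).Normal := ⟨fun x hx g => by
    rcases (hm x).1 hx with rfl | rfl | rfl
    · simp
    · exact hk g
    · have := inv_mem (hk g)
      rwa [show (g * a * g⁻¹)⁻¹ = g * a⁻¹ * g⁻¹ by group] at this⟩
  have hz := ((dens fb (tow fb) ntc F L G S φ _ hN hU hφ).1).const_mul_left 3
  have hi : ((⊥ : Subgroup G).index : ℝ) = 3 * (Subgroup.zpowers a).index := by
    rw [Subgroup.index_bot, ← (Subgroup.zpowers a).card_mul_index, Nat.card_zpowers, ho]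
    push_cast
    ring
  have hsm : ∀ s : ℝ, 1 < s → ∀ (p : Pr F → Prop) [DecidablePred p],
      Summable fun v : Pr F => if p v then (nrm v : ℝ) ^ (-s) else 0 := fun s hs p _ =>
    ((ntc F).2.2.2.1 s hs).of_nonneg_of_le (fun v => by split_ifs <;> positivity)
      fun v => by
        split_ifs
        · exact le_rfl
        · positivity
  have hC : (fun s : ℝ => ∑' v : Pr F,
      if v ∉ S ∧ (φ v = a ∨ φ v = a⁻¹) then (nrm v : ℝ) ^ (-s) else 0) =O[𝓝[>] 1]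
      fun _ => (1 : ℝ) := by
    refine Asymptotics.IsBigO.of_bound (∑' v : Pr F,
      if v ∉ S ∧ (φ v = a ∨ φ v = a⁻¹) then (1 / (nrm v : ℝ)) else 0) ?_
    filter_upwards [self_mem_nhdsWithin] with s hs1
    rw [norm_one, mul_one, Real.norm_of_nonneg
      (tsum_nonneg fun v => by split_ifs <;> positivity)]
    refine (hsm s hs1 _).tsum_le_tsum (fun v => ?_) hs
    split_ifs
    · rw [one_div, ← Real.rpow_neg_one]
      refine Real.rpow_le_rpow_of_exponent_le ?_ (neg_le_neg (le_of_lt hs1))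
      exact_mod_cast one_le_two.trans (two_le_nrm v)
    · exact le_rfl
  have h4 := ((hz.sub hb).sub
    (hC.const_mul_left (3 * ((Subgroup.zpowers a).index : ℝ)))).const_mul_left (1 / 2)
  refine log_CHEB (h4.congr' ?_ EventuallyEq.rfl)
  filter_upwards [self_mem_nhdsWithin] with s hs1
  have e : (∑' v : Pr F, if v ∉ S ∧ φ v ∈ Subgroup.zpowers a then (nrm v : ℝ) ^ (-s) else 0) =
      (∑' v : Pr F, if v ∉ S ∧ φ v ∈ (⊥ : Subgroup G) then (nrm v : ℝ) ^ (-s) else 0) +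
      ∑' v : Pr F, if v ∉ S ∧ (φ v = a ∨ φ v = a⁻¹) then (nrm v : ℝ) ^ (-s) else 0 := by
    rw [← (hsm s hs1 _).tsum_add (hsm s hs1 _)]
    refine tsum_congr fun v => ?_
    by_cases hv : v ∈ S
    · simp [hv]
    by_cases e1 : φ v = 1
    · have : ¬ (φ v = a ∨ φ v = a⁻¹) := by
        rw [e1]
        rintro (h | h)
        · exact h1 h.symm
        · exact h1 (inv_eq_one.1 h.symm)
      rw [if_pos ⟨hv, (hm _).2 (Or.inl e1)⟩, if_pos ⟨hv, Subgroup.mem_bot.2 e1⟩,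
        if_neg fun h => this h.2, add_zero]
    · rw [if_neg (c := v ∉ S ∧ φ v ∈ (⊥ : Subgroup G)) fun h => e1 (Subgroup.mem_bot.1 h.2),
        zero_add]
      refine if_congr (and_congr_right fun _ => ?_) rfl rfl
      rw [hm]
      exact ⟨fun h => h.resolve_left e1, Or.inr⟩
  rw [e, hi]
  ring

theorem sum_SCHEB (N : Subgroup GQ) (g : GQ) (hN : ON N) (h0 : g ∉ N) (h2 : g ^ 3 ∈ N)
    (hc : ∀ h : GQ, h * g * h⁻¹ * g⁻¹ ∈ N ∨ h * g * h⁻¹ * g ∈ N) :
    ¬ Summable fun q : ℕ => if Fq N g q then (1 / q : ℝ) else 0 := by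
  intro hs
  have hn := hN.1
  have hfix := InfiniteGalois.fixingSubgroup_fixedField ⟨N, N.isClosed_of_isOpen hN.2⟩
  set L := IntermediateField.fixedField N with hL
  change L.fixingSubgroup = N at hfix
  obtain ⟨h1, h3⟩ := (InfiniteGalois.isOpen_and_normal_iff_finite_and_isGalois L).mp
    (by rw [hfix]; exact ⟨hN.2, hn⟩)
  have : FiniteDimensional ℚ L := h1
  have : IsGalois ℚ L := h3
  have : NumberField L := {}
  have hres : ∀ x : GQ, MP_f68ac8_nt.res L x = 1 ↔ x ∈ N := fun x => by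
    rw [MP_f68ac8_nt.res_eq_one, ← hfix, IntermediateField.mem_fixingSubgroup_iff]
  have hp : ∀ v : Pr ℚ, Fact (nrm v).Prime := fun v => ⟨(nrm_CHEB v).1⟩
  choose φ hφ using fun v : Pr ℚ =>
    MP_f68ac8_nt.exists_frob (cen (nrm v) 1) (hp v).out (cen_mem (nrm v) 1)
  have hin : ∀ (v : Pr ℚ) (n : ℤ), (n : 𝓞 ℚ) ∈ v.asIdeal ↔ (nrm v : ℤ) ∣ n := fun v n => by
    have := v.isPrime
    exact BValB_int _ (hp v).out (nrm_CHEB v).2 n
  have hinj : Function.Injective fun v : Pr ℚ => nrm v := fun v v' e =>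
    HeightOneSpectrum.ext (Ideal.ext fun x => by
      obtain ⟨n, rfl⟩ := Rat.ringOfIntegersEquiv.symm.surjective x
      have e' : nrm v = nrm v' := e
      have k : Rat.ringOfIntegersEquiv.symm n = (n : 𝓞 ℚ) := eq_intCast _ n
      rw [k, hin, hin, e'])
  have hw : ∀ v : Pr ℚ, ∃ w : Pr L, w.asIdeal = (cen (nrm v) 1).under (𝓞 L) ∧
      w.under (𝓞 ℚ) = v := fun v => by
    have hm : ((nrm v : ℕ) : 𝓞 L) ∈ (cen (nrm v) 1).under (𝓞 L) := by
      rw [Ideal.mem_comap, map_natCast]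
      exact cen_mem _ _
    refine ⟨⟨(cen (nrm v) 1).under (𝓞 L), inferInstance, fun e => ?_⟩, rfl,
      HeightOneSpectrum.ext (Ideal.ext fun x => ?_)⟩
    · rw [e, Ideal.mem_bot, Nat.cast_eq_zero] at hm
      exact (hp v).out.ne_zero hm
    · obtain ⟨n, rfl⟩ := Rat.ringOfIntegersEquiv.symm.surjective x
      have k : Rat.ringOfIntegersEquiv.symm n = (n : 𝓞 ℚ) := eq_intCast _ n
      rw [k, hin v]
      change _ ∈ Ideal.comap _ _ ↔ _
      rw [Ideal.mem_comap, map_intCast]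
      exact BValB_int _ (hp v).out hm n
  choose w hw1 hw2 using hw
  have f2 := (unr_CHEB L).image fun w => w.under (𝓞 ℚ)
  have hU : Unr L (L ≃ₐ[ℚ] L) f2.toFinset := fun u hu => by
    by_contra h
    exact hu (f2.mem_toFinset.2 ⟨u, h, rfl⟩)
  refine fin_SCHEB ℚ L (L ≃ₐ[ℚ] L) f2.toFinset
    (fun v => MP_f68ac8_nt.res L (φ v)) (MP_f68ac8_nt.res L g)
    (fun e => h0 ((hres g).1 e)) (by rw [← map_pow, hres]; exact h2)
    (fun h => by
      obtain ⟨h, rfl⟩ := AlgEquiv.restrictNormalHom_surjective Qb h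
      refine (hc h).imp (fun e => ?_) fun e => ?_
      · rw [← mul_inv_eq_one, ← map_inv, ← map_inv, ← map_mul, ← map_mul, ← map_mul]
        exact (hres _).2 e
      · rw [← mul_eq_one_iff_eq_inv, ← map_inv, ← map_mul, ← map_mul, ← map_mul]
        exact (hres _).2 e)
    hU (fun v _ => ⟨w v, hw2 v, FbX.frob_iff.2 fun x => by
      rw [hw2, hw1, Ideal.mem_comap, map_sub, map_pow, MP_f68ac8_nt.res_smul]
      exact hφ v _⟩) ?_
  refine (hs.comp_injective hinj).of_nonneg_of_le (fun v => by split_ifs <;> positivity)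
    fun v => ?_
  rw [Function.comp_apply]
  split_ifs with a1 a2
  · exact le_rfl
  · refine absurd ⟨hp v, φ v, frob_iff.2 (hφ v), a1.2.imp (fun e => ?_) fun e => ?_,
      fun τ hτ => ?_⟩ a2
    · rw [← hres, map_mul, map_inv, e, inv_mul_cancel]
    · rw [← hres, map_mul, e, mul_inv_cancel]
    · have := MP_f68ac8_nt.res_inertia L (ine_iff.1 hτ)
      rw [← hw1, hU (w v) (by rw [hw2]; exact a1.1), Subgroup.mem_bot] at this
      exact (hres τ).1 this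
  · positivity
  · exact le_rfl

theorem CHEB_pf : CHEB_st := by
  intro N g hN h0 h2 hc
  have h := sum_SCHEB N g hN h0 h2 hc
  refine ⟨h, fun B => ?_⟩
  by_contra hn
  push Not at hn
  refine h (summable_of_ne_finset_zero (s := Finset.range (B + 1)) fun q hq => if_neg (hn q ?_))
  rw [Finset.mem_range] at hq
  omega

end Pool.Agent.MP_e23604_nt.S

end

section

set_option autoImplicit false

open NumberField IsDedekindDomain Module Filter Topology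
open scoped Classical

namespace Pool.Agent.MP_e23604_nt.S

open B R Pool.Agent.MP_f3cd89_nt

theorem car_SCK {a : ℚ} {y : Qb} (hy : y ^ 3 = a) (u v : ZMod 3) :
    y ^ u.val * y ^ v.val = (a : Qb) ^ car u v * y ^ (u + v).val := by
  rw [← pow_add, ZMod.val_add, car, ← hy, ← pow_mul, ← pow_add, Nat.div_add_mod]

theorem CK_pf : CK_st := by
  intro l _ γ φ a y k s c hφ ha hy hk hs hl hi hb
  obtain ⟨b, hb1, hb2⟩ := hb
  have hy0 : y ≠ 0 := by
    rintro rfl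
    rw [zero_pow three_ne_zero] at hy
    exact ha (by exact_mod_cast hy.symm)
  refine ⟨s, a, φ, ha, hφ, hs, hl, hi, by norm_num, ?_⟩
  refine cob_of_lc (β := fun g => w3 ^ (b g).val * y ^ (s g).val)
    (hb1.map₂ hl fun u v => w3 ^ u.val * y ^ v.val)
    (fun g _ => mul_ne_zero (pow_ne_zero _ w3_ne_zero) (pow_ne_zero _ hy0)) ?_
  intro g hg h hh
  have e := hb2 g hg h hh
  rw [sg_true] at e
  have e2 : b g + ep g * b h + k g * s h = c g h + b (g * h) := by linear_combination e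
  have e3 := congrArg (fun u : ZMod 3 => w3 ^ u.val) e2
  simp only [w3_add] at e3
  have e4 := car_SCK hy (s g) (s h)
  simp only
  rw [map_mul, act_w3, map_pow, hk g hg, mul_pow, pow_val_mul_INVQ w3_cube, hs g hg h hh]
  linear_combination (y ^ (s g).val * y ^ (s h).val) * e3 +
    (w3 ^ (c g h).val * w3 ^ (b (g * h)).val) * e4

end Pool.Agent.MP_e23604_nt.S

end
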