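import Mathlib

set_option linter.all false

section

/-! Counting solutions of word equations modulo powers of `p` for random words. -/

namespace Pool.Agent.MP_f68ac8_nt.Zv

open Matrix Finset
open scoped BigOperators

section
variable (p M : ℕ)

/-- the coefficient ring -/
abbrev Rg : Type := ZMod (p ^ (M + 1))

/-- reduction modulo `p` -/
def rd : Rg p M →+* ZMod p := ZMod.castHom (dvd_pow_self p M.succ_ne_zero) (ZMod p)

variable {p M} {ι : Type} [Fintype ι] [DecidableEq ι]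

/-- `γ = 1 + p ^ j A` modulo `p ^ (j + 1)` -/
def Ld (j : ℕ) (γ : GL ι (Rg p M)) (A : Matrix ι ι (ZMod p)) : Prop :=
  ∃ X : Matrix ι ι (Rg p M), γ.val = 1 + (p : Rg p M) ^ j • X ∧ X.map (rd p M) = A

/-- the reduction of an invertible matrix -/
def rs (γ : GL ι (Rg p M)) : GL ι (ZMod p) := GeneralLinearGroup.map (rd p M) γ

/-- the characteristic polynomial -/
def Pf (Y : GL ι (Rg p M)) (c : Rg p M) : Rg p M := (Y.val - c • 1).det

/-- a group with its Lie algebra -/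
structure LieD (Γ : Subgroup (GL ι (Rg p M))) (L : Submodule (ZMod p) (Matrix ι ι (ZMod p))) :
    Prop where
  ex : ∀ j, 1 ≤ j → ∀ A ∈ L, ∃ γ ∈ Γ, Ld j γ A
  mem : ∀ j, 1 ≤ j → j ≤ M → ∀ γ ∈ Γ, ∀ A, Ld j γ A → A ∈ L
  perf : ∀ φ : Matrix ι ι (ZMod p) →ₗ[ZMod p] ZMod p, (∃ A ∈ L, φ A ≠ 0) →
    ∃ A ∈ L, ∃ A' ∈ L, φ (A * A' - A' * A) ≠ 0

/-- irreducibility -/
def Irr (L : Submodule (ZMod p) (Matrix ι ι (ZMod p))) (S : Set (GL ι (ZMod p))) : Prop :=
  ∀ A ∈ L, A ≠ 0 → ∀ φ : Matrix ι ι (ZMod p) →ₗ[ZMod p] ZMod p, (∃ A' ∈ L, φ A' ≠ 0) →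
    ∃ g ∈ Subgroup.closure S, φ (g.val * A * g⁻¹.val) ≠ 0

/-- the derivative of the characteristic polynomial is not zero -/
def ND (L : Submodule (ZMod p) (Matrix ι ι (ZMod p))) (x : GL ι (ZMod p)) (c : ZMod p) : Prop :=
  ∃ A ∈ L, ((x.val - c • 1).adjugate * A * x.val).trace ≠ 0

end

section
variable {d : ℕ} {U : Fin d → Type}

/-- sums of functions that do not depend on one of the coordinates in `T` -/
def LC {R : Type} [AddCommGroup R] (T : Finset (Fin d)) (f : (∀ j, U j) → R) : Prop :=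
  ∃ g : Fin d → (∀ j, U j) → R, (∀ i ∈ T, ∀ q u, g i (Function.update q i u) = g i q) ∧
    ∀ q, f q = ∑ i ∈ T, g i q

variable [∀ j, Fintype (U j)]

/-- the expectation for the product of the weights -/
noncomputable def Ex {V : Type} [AddCommGroup V] [Module ℝ V] (w : ∀ j, U j → ℝ)
    (f : (∀ j, U j) → V) : V := ∑ q : ∀ j, U j, (∏ j, w j (q j)) • f q

/-- probability weights -/
def Prob (w : ∀ j, U j → ℝ) : Prop := (∀ j u, 0 ≤ w j u) ∧ ∀ j, ∑ u, w j u = 1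

/-- the box norm -/
noncomputable def Bx {R : Type} [CommRing R] (ψ : AddChar R ℂ) (w : ∀ j, U j → ℝ)
    (T : Finset (Fin d)) (t : Fin d) (G : (∀ j, U j) → R) : ℝ :=
  Ex w fun q₀ => Ex w fun q₁ => ‖∑ u, w t u • ψ (∑ ω ∈ T.powerset,
    (-1) ^ ω.card * G (Function.update (ω.piecewise q₁ q₀) t u))‖ ^ 2

end

/-- the letters -/
abbrev Lt (B : Type) {d : ℕ} (U : Fin d → Type) : Type := B ⊕ Σ j, U j

section
variable {p M : ℕ} {ι : Type} [Fintype ι] [DecidableEq ι] {Γ : Subgroup (GL ι (Rg p M))}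
  {B : Type} {d : ℕ} {U : Fin d → Type}

open Classical in
/-- the values of the letters -/
noncomputable def place (q : ∀ j, U j) (W : B ⊕ Fin d → Γ) : Lt B U → Γ :=
  Sum.elim (fun b => W (.inl b)) fun x => if x.2 = q x.1 then W (.inr x.1) else 1

/-- the value of a word -/
def ev {Λ : Type} (V : Λ → Γ) (w : FreeGroup Λ) : GL ι (Rg p M) := (FreeGroup.lift V w : Γ)

/-- an equation for an entry of a word -/
def E0 {Λ : Type} (V : Λ → Γ) (x : FreeGroup Λ × ι × ι × Rg p M) : Rg p M :=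
  (ev V x.1).val x.2.1 x.2.2.1 - x.2.2.2

/-- replace the entries outside `T` by one -/
def mask (T : Finset (Fin d)) (W : B ⊕ Fin d → Γ) : B ⊕ Fin d → Γ :=
  Sum.elim (fun b => W (.inl b)) fun i => if i ∈ T then W (.inr i) else 1

/-- tuples with the given reduction -/
def InT (bb : B → GL ι (ZMod p)) (W : B ⊕ Fin d → Γ) : Prop :=
  (∀ b, rs (W (.inl b)).1 = bb b) ∧ ∀ i, rs (W (.inr i)).1 = 1

variable (p M ι B U) in
/-- a system of equations -/
structure Sy (E : Type) where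
  x : E → FreeGroup (Lt B U) × ι × ι × Rg p M
  y : (Σ j, U j) → FreeGroup (Lt B U) × Rg p M

variable {E : Type} (S : Sy p M ι B U E) (q : ∀ j, U j)

/-- the values of the equations -/
noncomputable def Sy.eqv (W : B ⊕ Fin d → Γ) : E ⊕ Fin d → Rg p M :=
  Sum.elim (fun e => E0 (place q W) (S.x e))
    fun i => Pf (ev (place q W) (S.y ⟨i, q i⟩).1) (S.y ⟨i, q i⟩).2

variable (Γ) (bb : B → GL ι (ZMod p))

/-- solutions modulo `p ^ j` of the equations outside `D` -/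
def Sy.Sol (j : ℕ) (D : Finset (Fin d)) : Set (B ⊕ Fin d → Γ) :=
  {W | InT bb W ∧ ∀ e, (∀ i ∈ D, e ≠ .inr i) → (p : Rg p M) ^ j ∣ S.eqv q W e}

variable {Γ}

/-- the kernel of the linearised equations -/
def Sy.Kd (D : Finset (Fin d)) (W : B ⊕ Fin d → Γ) : Set (B ⊕ Fin d → Matrix ι ι (ZMod p)) :=
  {δ | ∃ W' ∈ S.Sol Γ q bb 2 D, ∀ l, Ld 1 ((W' l).1 * (W l).1⁻¹) (δ l)}

open Classical in
/-- the positions in `A` where the entry is one modulo `p ^ 2` -/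
noncomputable def dp (A : Finset (Fin d)) (W : B ⊕ Fin d → Γ) : Finset (Fin d) :=
  A.filter fun i => Ld 1 (W (.inr i)).1 0

variable (Γ) (A₀ A₁ : Finset (Fin d)) (g : ℕ)

/-- all solutions modulo `p ^ 2` are generic -/
def Sy.Good : Prop :=
  ∀ W ∈ S.Sol Γ q bb 2 ∅, M ≤ (A₀ \ dp A₀ W).card ∧
    p * (S.Kd q bb (dp A₁ W) W).ncard ≤ g * p ^ (dp A₁ W).card

variable {Γ} [Fact p.Prime]

open Classical in
/-- a term of the error -/
noncomputable def Sy.Tm (j : ℕ) (W W' : B ⊕ Fin d → Γ) (μ : Fin d → ZMod p) : ℂ :=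
  if S.Good Γ q bb A₀ A₁ g ∧ W ∈ S.Sol Γ q bb j ∅ ∧ W' ∈ S.Sol Γ q bb j ∅ ∧
      W' ∈ S.Sol Γ q bb (j + 1) (dp A₁ W) then
    ZMod.stdAddChar ((p : Rg p M) ^ (M - j) * ∑ i, (μ i).val * S.eqv q W' (.inr i)) else 0

end

section
variable {p M : ℕ} [Fact p.Prime] {ι : Type} [Fintype ι] [DecidableEq ι]
  {Γ : Subgroup (GL ι (Rg p M))} (L : Submodule (ZMod p) (Matrix ι ι (ZMod p)))
  {B : Type} (B₀ : Set B) {d : ℕ} {U : Fin d → Type}

variable (U) in
/-- the subgroup generated by the conjugates of the letters in `U` -/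
def Nc : Subgroup (FreeGroup (Lt B U)) :=
  Subgroup.closure {w | ∃ g ∈ Subgroup.closure ((fun b => FreeGroup.of (Sum.inl b)) '' B₀),
    ∃ x, w = g * FreeGroup.of (Sum.inr x) * g⁻¹}

/-- the function that is averaged -/
noncomputable def Ps (κ : Finset (Fin d) → Rg p M) (h : Finset (Fin d) → Γ) (c : Rg p M) :
    Rg p M := ∑ ω, κ ω * Pf (h ω).1 c

/-- evaluation at a family of values -/
def piV {Λ Ω G : Type} [Group G] (V : Ω → Λ → G) : FreeGroup Λ →* (Ω → G) :=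
  FreeGroup.lift fun l ω => V ω l

/-- a translation changes the function by a constant -/
def Shift (V : Finset (Fin d) → Lt B U → Γ) (κ : Finset (Fin d) → Rg p M) : Prop :=
  ∀ x c, ND L x c → ∃ z ∈ Nc B₀ U, ∃ k : Rg p M, ZMod.stdAddChar k ≠ 1 ∧
    ∀ h : Finset (Fin d) → Γ, (∀ ω, rs (h ω).1 = x) → ∀ c', rd p M c' = c →
      Ps κ (piV V z * h) c' = Ps κ h c' + k

variable (Γ) (bb : B → GL ι (ZMod p)) [∀ j, Fintype (U j)] (w : ∀ j, U j → ℝ)
  {Y : Type} [Fintype Y] (y : (Σ j, U j) → Y → FreeGroup (Lt B U) × Rg p M)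

/-- equidistribution of the random words -/
def EQ (η : ℝ) : Prop :=
  ∀ (t : Fin d) (V : Finset (Fin d) → Lt B U → Γ) (κ : Finset (Fin d) → Rg p M),
    (∀ ω b, rs (V ω (.inl b)).1 = bb b) → (∀ ω x, rs (V ω (.inr x)).1 = 1) →
    (∀ ω x, t ≤ x.1 → V ω (.inr x) = 1) → Shift L B₀ V κ →
    ‖∑ u, w t u • 𝔼 a, ZMod.stdAddChar (Ps κ (piV V (y ⟨t, u⟩ a).1) (y ⟨t, u⟩ a).2)‖ ≤ η

open Classical in
/-- random equations detect failure -/
def Cov {Λ 𝓡 E : Type} [Fintype 𝓡] (x : 𝓡 → E → FreeGroup Λ × ι × ι × Rg p M) : Prop :=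
  ∀ V : Λ → Γ, (∃ ρ e, ¬ (p : Rg p M) ^ 2 ∣ E0 V (x ρ e)) →
    2 * (univ.filter fun ρ => ∀ e, (p : Rg p M) ^ 2 ∣ E0 V (x ρ e)).card ≤ Fintype.card 𝓡

end

open Classical in
/-- averages over the fibres of a correspondence -/
noncomputable def FC {G H R : Type} [Group G] [Group H] [Fintype H] (C : Subgroup (G × H))
    (χ : G → R) (Ψ : H → R → ℂ) (g : G) : ℂ :=
  𝔼 h ∈ univ.filter (fun h => (g, h) ∈ C), Ψ h (χ g)

section
variable (p : ℕ) [Fact p.Prime]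

/-- statements for all groups -/
def AllG (Q : ∀ (M : ℕ) (ι : Type) [Fintype ι] [DecidableEq ι] (_ : Subgroup (GL ι (Rg p M)))
    (_ : Submodule (ZMod p) (Matrix ι ι (ZMod p))), Prop) : Prop :=
  ∀ (M : ℕ) (ι : Type) [Fintype ι] [DecidableEq ι] (Γ : Subgroup (GL ι (Rg p M))) L,
    LieD Γ L → Q M ι Γ L

/-- rules for leading terms -/
def LdStmt : Prop :=
  ∀ (M : ℕ) (ι : Type) [Fintype ι] [DecidableEq ι],
    (∀ (j : ℕ) (x : Rg p M), j ≤ M + 1 →
      ((p : Rg p M) ^ j ∣ x ↔ (p : Rg p M) ^ (M + 1 - j) * x = 0)) ∧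
    (∀ (j : ℕ) (x : Rg p M), j ≤ M →
      ((p : Rg p M) ^ (j + 1) ∣ (p : Rg p M) ^ j * x ↔ rd p M x = 0)) ∧
    (∀ x : Rg p M, ZMod.stdAddChar ((p : Rg p M) ^ M * x) = ZMod.stdAddChar (rd p M x)) ∧
    (∀ γ : GL ι (Rg p M), rs γ = 1 ↔ ∃ A, Ld 1 γ A) ∧
    (∀ j (γ : GL ι (Rg p M)), Ld j γ 0 ↔ ∃ A, Ld (j + 1) γ A) ∧
    (∀ j (γ : GL ι (Rg p M)) A A', j ≤ M → Ld j γ A → Ld j γ A' → A = A') ∧
    (∀ (γ : GL ι (Rg p M)) A, Ld (M + 1) γ A → γ = 1) ∧
    (∀ j (γ γ' : GL ι (Rg p M)) A A', 1 ≤ j → Ld j γ A → Ld j γ' A' →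
      Ld j (γ * γ') (A + A') ∧ Ld j γ⁻¹ (-A)) ∧
    (∀ j (γ h : GL ι (Rg p M)) A, Ld j γ A →
      Ld j (h * γ * h⁻¹) ((rs h).val * A * (rs h)⁻¹.val)) ∧
    (∀ i j (γ γ' : GL ι (Rg p M)) A A', 1 ≤ i → 1 ≤ j → Ld i γ A → Ld j γ' A' →
      Ld (i + j) (γ * γ' * γ⁻¹ * γ'⁻¹) (A * A' - A' * A)) ∧
    (∀ j (γ : GL ι (Rg p M)) A, 1 ≤ j → Ld j γ A → γ ^ p ^ M = 1) ∧
    ∀ j (γ Y : GL ι (Rg p M)) A c, 1 ≤ j → Ld j γ A → ∃ b,
      rd p M b = (((rs Y).val - rd p M c • 1).adjugate * A * (rs Y).val).trace ∧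
      Pf (γ * Y) c = Pf Y c + (p : Rg p M) ^ j * b

/-- the derivative of the equations -/
def DerStmt : Prop :=
  ∀ (M : ℕ) (ι : Type) [Fintype ι] [DecidableEq ι] (Γ : Subgroup (GL ι (Rg p M))) (B : Type)
    (d : ℕ) (U : Fin d → Type) (E : Type) (S : Sy p M ι B U E) (q : ∀ j, U j)
    (W : B ⊕ Fin d → Γ), ∃ D : (B ⊕ Fin d → Matrix ι ι (ZMod p)) →+ (E ⊕ Fin d → ZMod p),
    ∀ j, 1 ≤ j → ∀ (W' : B ⊕ Fin d → Γ) δ, (∀ l, Ld j ((W' l).1 * (W l).1⁻¹) (δ l)) →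
      ∀ e, ∃ b, rd p M b = D δ e ∧ S.eqv q W' e = S.eqv q W e + (p : Rg p M) ^ j * b

/-- alternating sums of values of words -/
def MobStmt : Prop :=
  ∀ (M : ℕ) (ι : Type) [Fintype ι] [DecidableEq ι] (Γ : Subgroup (GL ι (Rg p M))) (Λ I : Type)
    [Fintype I] [DecidableEq I] (v : I → ℕ) (V : Finset I → Λ → Γ),
    (∀ l, (∀ J J', V J l = V J' l) ∨ ∃ (i : I) (γ : Γ) (A : Matrix ι ι (ZMod p)),
      Ld (v i) γ.1 A ∧ ∀ J, V J l = if i ∈ J then γ else 1) →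
    (∀ x, (p : Rg p M) ^ (∑ i, v i) ∣ ∑ J : Finset I, (-1) ^ J.card * E0 (V J) x) ∧
    ∀ w c, (p : Rg p M) ^ (∑ i, v i) ∣ ∑ J : Finset I, (-1) ^ J.card * Pf (ev (V J) w) c

open Classical in
/-- low complexity of the equations -/
def LcStmt : Prop :=
  ∀ (M : ℕ) (ι : Type) [Fintype ι] [DecidableEq ι] (Γ : Subgroup (GL ι (Rg p M))) (B : Type)
    (d : ℕ) (U : Fin d → Type) (E : Type) (S : Sy p M ι B U E) (W : B ⊕ Fin d → Γ),
    (∀ (T : Finset (Fin d)) (v : Fin d → ℕ) (e : E ⊕ Fin d) (j : ℕ),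
      (∀ i ∈ T, ∃ A, Ld (v i) (W (.inr i)).1 A) → j ≤ M + 1 →
      j ≤ ∑ i ∈ T with e ≠ .inr i, v i →
      LC T fun q => (p : Rg p M) ^ (M + 1 - j) * S.eqv q W e) ∧
    ∀ (T : Finset (Fin d)) (t : Fin d), (∀ i, rs (W (.inr i)).1 = 1) → t ∉ T → T.card ≤ M →
      LC T fun q => (p : Rg p M) ^ (M - T.card) *
        (S.eqv q W (.inr t) - S.eqv q (mask T W) (.inr t))

/-- the Gowers-Cauchy-Schwarz inequality -/
def GcsStmt : Prop :=
  ∀ (R : Type) [CommRing R] (ψ : AddChar R ℂ) (d : ℕ) (U : Fin d → Type) [∀ j, Fintype (U j)]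
    (w : ∀ j, U j → ℝ), (∀ x, ‖ψ x‖ = 1) → Prob w → ∀ (T : Finset (Fin d)) (t : Fin d), t ∉ T →
    ∀ f G : (∀ j, U j) → R, LC (insert t T) f →
    ‖Ex w fun q => ψ (f q + G q)‖ ^ 2 ^ (T.card + 1) ≤ Bx ψ w T t G

open Classical in
/-- the inequality with a condition of low complexity -/
def BoxStmt : Prop :=
  ∀ (N : ℕ) [NeZero N] (d : ℕ) (U : Fin d → Type) [∀ j, Fintype (U j)] (w : ∀ j, U j → ℝ),
    Prob w → ∀ (T : Finset (Fin d)) (t : Fin d), t ∉ T → ∀ (I : Type) [Fintype I]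
    (f : I → (∀ j, U j) → ZMod N) (f₀ G : (∀ j, U j) → ZMod N) (P : (∀ j, U j) → Prop),
    (∀ i, LC (insert t T) (f i)) → LC (insert t T) f₀ →
    (∀ q q', (∀ i, f i q = f i q') → P q → P q') →
    ‖Ex w fun q => if P q then ZMod.stdAddChar (f₀ q + G q) else 0‖ ^ 2 ^ (T.card + 1) ≤
      ((N : ℝ) ^ Fintype.card I) ^ 2 ^ (T.card + 1) * Bx ZMod.stdAddChar w T t G

open Classical in
/-- second moments and collisions -/
def MomStmt : Prop :=
  (∀ (U I Y : Type) [Fintype U] [Fintype I] [Fintype Y] [Nonempty Y] (e : U → I) (w : U → ℝ)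
    (η : ℝ) (g : U → Y → ℂ), Function.Injective e → (∀ u, 0 ≤ w u) → ∑ u, w u = 1 →
    (∀ u, w u ≤ η) → (∀ u a, ‖g u a‖ ≤ 1) →
    𝔼 a : I → Y, ‖∑ u, w u • g u (a (e u))‖ ^ 2 ≤ ‖∑ u, w u • 𝔼 a, g u a‖ ^ 2 + η) ∧
  ∀ (d : ℕ) (U : Fin d → Type) [∀ j, Fintype (U j)] (w : ∀ j, U j → ℝ) (η a : ℝ), Prob w →
    (∀ j u, w j u ≤ η) → 0 ≤ a → ∀ (T : Finset (Fin d)) (f : (∀ j, U j) → (∀ j, U j) → ℝ),
    (∀ q₀ q₁, f q₀ q₁ ≤ 1 + a) → (∀ q₀ q₁, (∀ i ∈ T, q₀ i ≠ q₁ i) → f q₀ q₁ ≤ a) →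
    (Ex w fun q₀ => Ex w fun q₁ => f q₀ q₁) ≤ a + T.card * η

/-- iterated commutators -/
def ShiftStmt : Prop :=
  AllG p fun M ι _ _ Γ L => ∀ (B : Type) (B₀ : Set B) (bb : B → GL ι (ZMod p)),
    Irr L (bb '' B₀) → ∀ (d : ℕ) (U : Fin d → Type) (W : B ⊕ Fin d → Γ), InT bb W →
    ∀ T : Finset (Fin d), T.Nonempty → T.card ≤ M → (∀ i ∈ T, ¬ Ld 1 (W (.inr i)).1 0) →
    ∀ q₀ q₁ : ∀ j, U j, (∀ i ∈ T, q₀ i ≠ q₁ i) → ∀ m : ZMod p, m ≠ 0 →
    Shift L B₀ (fun ω => place (ω.piecewise q₁ q₀) (mask T W)) fun ω =>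
      if ω ⊆ T then (-1) ^ ω.card * ((p : Rg p M) ^ (M - T.card) * m.val) else 0

/-- the order of the congruence subgroup -/
def CardStmt : Prop :=
  AllG p fun M ι _ _ Γ L => {γ : Γ | rs γ.1 = 1}.ncard = Nat.card L ^ M ∧
    (∀ (B : Type) [Fintype B] (bb : B → GL ι (ZMod p)) (d : ℕ),
      {W : B ⊕ Fin d → Γ | InT bb W}.ncard ≤ Nat.card L ^ (M * (Fintype.card B + d))) ∧
    ∀ (Λ : Type) [Finite Λ] (s : Set (Λ → Γ)) (W : Λ → Γ), W ∈ s →
      (∀ γ : Γ, rs γ.1 = 1 → (fun l => γ * W l * γ⁻¹) ∈ s) →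
      (∀ A ∈ L, (∀ l, (rs (W l).1).val * A = A * (rs (W l).1).val) → A = 0) →
      Nat.card L ^ M ≤ s.ncard

open Classical in
/-- the recursion -/
def RecStmt : Prop :=
  AllG p fun M ι _ _ Γ L => ∀ (B : Type) [Fintype B] (bb : B → GL ι (ZMod p)) (d : ℕ)
    (U : Fin d → Type) (E : Type) (S : Sy p M ι B U E) (q : ∀ j, U j) (A₀ A₁ : Finset (Fin d))
    (g : ℕ), S.Good Γ q bb A₀ A₁ g →
    (1 ≤ M → p * (Nat.card L ^ (Fintype.card B + d) * (S.Sol Γ q bb 2 ∅).ncard) ≤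
      {W : B ⊕ Fin d → Γ | InT bb W}.ncard * (g * p ^ A₁.card)) ∧
    ∀ j, 2 ≤ j → j ≤ M → ∀ γ : L → Γ, (∀ A, Ld j (γ A).1 A.1) →
      (Nat.card L ^ (Fintype.card B + d) * (S.Sol Γ q bb (j + 1) ∅).ncard : ℝ) ≤
        g / p * (S.Sol Γ q bb j ∅).ncard +
        ∑ W : B ⊕ Fin d → Γ, ∑ δ : B ⊕ Fin d → L, ∑ μ : Fin d → ZMod p,
          if μ ≠ 0 ∧ ∀ i ∉ dp A₁ W, μ i = 0 then ((p : ℝ) ^ (dp A₁ W).card)⁻¹ *
            (S.Tm q bb A₀ A₁ g j W (fun l => γ (δ l) * W l) μ).re else 0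

open Classical in
/-- the error terms are small -/
def ErrStmt : Prop :=
  AllG p fun M ι _ _ Γ L => ∀ (B : Type) [Fintype B] (B₀ : Set B) (bb : B → GL ι (ZMod p)),
    Irr L (bb '' B₀) → ∀ (d : ℕ) (A₀ A₁ : Finset (Fin d)), (∀ i ∈ A₀, ∀ j ∈ A₁, i < j) →
    ∀ (g : ℕ) (E : Type) [Fintype E] (ε : ℝ), 0 < ε → ∃ η, 0 < η ∧
    ∀ (U : Fin d → Type) [∀ j, Fintype (U j)] (w : ∀ j, U j → ℝ) (Y : Type) [Fintype Y]
      [Nonempty Y] (y : (Σ j, U j) → Y → FreeGroup (Lt B U) × Rg p M), Prob w →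
      (∀ j u, w j u ≤ η) → EQ Γ L B₀ bb w y η →
      ∀ (x : E → FreeGroup (Lt B U) × ι × ι × Rg p M) (j : ℕ) (W W' : B ⊕ Fin d → Γ)
        (μ : Fin d → ZMod p), 2 ≤ j → j ≤ M → (∀ l, ∃ A, Ld j ((W' l).1 * (W l).1⁻¹) A) →
        μ ≠ 0 → (∀ i ∉ dp A₁ W, μ i = 0) →
        ‖𝔼 a : (Σ j, U j) → Y, Ex w fun q =>
          Sy.Tm ⟨x, fun u => y u (a u)⟩ q bb A₀ A₁ g j W W' μ‖ ≤ ε

open Classical in
/-- many random equations -/
def CoverStmt : Prop :=
  ∀ (𝓡 T : Type) [Fintype 𝓡] [Nonempty 𝓡] [Fintype T] (P : T → 𝓡 → Prop) (m : ℕ),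
    (∀ t, (∃ ρ, ¬ P t ρ) → 2 * (univ.filter (P t)).card ≤ Fintype.card 𝓡) →
    𝔼 r : Fin m → 𝓡, (if ∀ t, (∀ i, P t (r i)) → ∀ ρ, P t ρ then 0 else 1 : ℝ) ≤
      Fintype.card T / 2 ^ m

open Classical in
/-- the main estimate -/
def MultiStmt : Prop :=
  AllG p fun M ι _ _ Γ L => 1 ≤ M → ∀ (B : Type) [Fintype B] (B₀ : Set B)
    (bb : B → GL ι (ZMod p)), Irr L (bb '' B₀) → ∀ (d : ℕ) (A₀ A₁ : Finset (Fin d)),
    (∀ i ∈ A₀, ∀ j ∈ A₁, i < j) → ∀ g : ℕ, 0 < g → ∀ (E : Type) [Fintype E] (ε : ℝ), 0 < ε →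
    ∃ η, 0 < η ∧ ∀ (U : Fin d → Type) [∀ j, Fintype (U j)] (w : ∀ j, U j → ℝ) (Y 𝓡 : Type)
      [Fintype Y] [Nonempty Y] [Fintype 𝓡] [Nonempty 𝓡]
      (y : (Σ j, U j) → Y → FreeGroup (Lt B U) × Rg p M)
      (x : 𝓡 → E → FreeGroup (Lt B U) × ι × ι × Rg p M), Prob w → (∀ j u, w j u ≤ η) →
      EQ Γ L B₀ bb w y η → Cov Γ x → ∀ X : (∀ j, U j) → Prop,
      (∀ q, X q → ∀ a : (Σ j, U j) → Y,
        g ^ M ≤ (Sy.Sol Γ ⟨fun z : 𝓡 × E => x z.1 z.2, fun u => y u (a u)⟩ q bb (M + 1) ∅).ncard ∧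
        Sy.Good Γ ⟨fun z : 𝓡 × E => x z.1 z.2, fun u => y u (a u)⟩ q bb A₀ A₁ g) →
      (Ex w fun q => if X q then (1 : ℝ) else 0) ≤ p ^ A₁.card / p ^ M + ε

end

open Classical in
/-- uniformly distributed words -/
def UnifStmt : Prop :=
  ∀ (Λ G : Type) [Finite Λ] [Group G] [Finite G] (H : Subgroup (FreeGroup Λ)),
    ∃ (𝓡 : Type) (_ : Fintype 𝓡) (_ : Nonempty 𝓡) (s : 𝓡 → FreeGroup Λ), (∀ ρ, s ρ ∈ H) ∧
      ∀ (Ω : Type) [Fintype Ω] [Fintype (Ω → G)] (V : Ω → Λ → G) (φ : (Ω → G) → ℂ),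
        𝔼 ρ, φ (piV V (s ρ)) = 𝔼 h ∈ univ.filter (· ∈ H.map (piV V)), φ h

/-- properties of the averages -/
def FcStmt : Prop :=
  ∀ (G H R : Type) [Group G] [Group H] [Fintype H] [CommMonoid R] (C : Subgroup (G × H))
    (χ : G →* R) (Ψ : H → R → ℂ), (∀ g, ∃ h, (g, h) ∈ C) → (∀ h c, ‖Ψ h c‖ ≤ 1) →
    (∀ k h c, Ψ (k * h * k⁻¹) c = Ψ h c) →
    (C.comap (MonoidHom.inl G H)).Normal ∧ (∀ g : G, (g ^ Nat.card H, 1) ∈ C) ∧
    (∀ g, ‖FC C χ Ψ g‖ ≤ 1) ∧ (∀ s g, FC C χ Ψ (s * g * s⁻¹) = FC C χ Ψ g) ∧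
    ∀ g₀ z g (ε : ℂ), (g₀, z) ∈ C → χ g₀ = 1 →
      (∀ h, (g, h) ∈ C → Ψ (z * h) (χ g) = ε * Ψ h (χ g)) → FC C χ Ψ (g₀ * g) = ε * FC C χ Ψ g

/-- finitely many correspondences -/
def FincStmt : Prop :=
  ∀ (G H : Type) [Group G] [Group H] [Finite H] (𝒩 : Set (Subgroup G)) (s : Set G), s.Finite →
    (∀ N ∈ 𝒩, ∀ N' ∈ 𝒩, N ⊓ N' ∈ 𝒩) → (∀ N ∈ 𝒩, Subgroup.closure s ⊔ N = ⊤) →
    {C : Subgroup (G × H) | (∃ N ∈ 𝒩, ∀ g ∈ N, (g, 1) ∈ C) ∧ ∀ g ∈ s, ∃ h, (g, h) ∈ C}.Finite ∧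
    {θ : G →* H | θ.ker ∈ 𝒩}.Finite

end Pool.Agent.MP_f68ac8_nt.Zv

end

section

namespace Pool.Agent.MP_f68ac8_nt.Zv

open Matrix Finset
open scoped BigOperators

open Classical in
theorem cover_stmt : CoverStmt := by
  intro 𝓡 T _ _ _ P m hP
  have hc : (0 : ℝ) < Fintype.card 𝓡 := by exact_mod_cast Fintype.card_pos
  have key : ∀ t, 𝔼 r : Fin m → 𝓡,
      (if (∃ ρ, ¬ P t ρ) ∧ ∀ i, P t (r i) then 1 else 0 : ℝ) ≤ 1 / 2 ^ m := by
    intro t
    by_cases h : ∃ ρ, ¬ P t ρ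
    · have h1 : (2 : ℝ) * (univ.filter (P t)).card ≤ Fintype.card 𝓡 := by exact_mod_cast hP t h
      have h2 : (univ.filter fun r : Fin m → 𝓡 => (∃ ρ, ¬ P t ρ) ∧ ∀ i, P t (r i)) =
          Fintype.piFinset fun _ => univ.filter (P t) := by
        ext r
        simp only [mem_filter, mem_univ, true_and, Fintype.mem_piFinset, h]
      rw [Finset.expect_eq_sum_div_card, Finset.sum_boole, h2, Fintype.card_piFinset, prod_const,
        card_univ, card_univ, Fintype.card_fun, Fintype.card_fin, Nat.cast_pow, Nat.cast_pow,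
        ← div_pow, ← _root_.one_div_pow]
      refine pow_le_pow_left₀ (by positivity) ?_ m
      rw [div_le_div_iff₀ hc two_pos]
      linarith
    · simp only [h, false_and, if_false, expect_const_zero]
      positivity
  calc _ ≤ 𝔼 r : Fin m → 𝓡, ∑ t,
        (if (∃ ρ, ¬ P t ρ) ∧ ∀ i, P t (r i) then 1 else 0 : ℝ) := by
        refine expect_le_expect fun r _ => ?_
        have h0 : ∀ t, 0 ≤ (if (∃ ρ, ¬ P t ρ) ∧ ∀ i, P t (r i) then 1 else 0 : ℝ) := fun t => by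
          split_ifs <;> norm_num
        by_cases h : ∀ t, (∀ i, P t (r i)) → ∀ ρ, P t ρ
        · rw [if_pos h]
          exact sum_nonneg fun t _ => h0 t
        · rw [if_neg h]
          obtain ⟨t, ht⟩ := not_forall.1 h
          obtain ⟨h1, h2⟩ := Classical.not_imp.1 ht
          refine le_trans ?_ (single_le_sum (fun t _ => h0 t) (mem_univ t))
          rw [if_pos ⟨not_forall.1 h2, h1⟩]
    _ = ∑ t, 𝔼 r : Fin m → 𝓡, (if (∃ ρ, ¬ P t ρ) ∧ ∀ i, P t (r i) then 1 else 0 : ℝ) :=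
        expect_sum_comm _ _ _
    _ ≤ ∑ _t : T, (1 / 2 ^ m : ℝ) := sum_le_sum fun t _ => key t
    _ = _ := by rw [sum_const, card_univ, nsmul_eq_mul, mul_one_div]

theorem avg_ZaCover {A K : Type} [Group A] [Fintype A] [Group K] (f : A →* K) (S : Finset K)
    (hS : ∀ h, h ∈ S ↔ ∃ a, f a = h) (φ : K → ℂ) : 𝔼 a, φ (f a) = 𝔼 h ∈ S, φ h := by
  have hne : S.Nonempty := ⟨f 1, (hS _).2 ⟨1, rfl⟩⟩
  have h1 : 𝔼 h ∈ S, 𝔼 a, φ (f a * h) = 𝔼 a, φ (f a) := by
    rw [← expect_const hne (𝔼 a, φ (f a))]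
    refine expect_congr rfl fun h hh => ?_
    obtain ⟨b, rfl⟩ := (hS h).1 hh
    exact Fintype.expect_equiv (Equiv.mulRight b) _ _ fun a => by simp
  rw [← h1, expect_comm, ← Fintype.expect_const (ι := A) (𝔼 h ∈ S, φ h)]
  refine expect_congr rfl fun a _ => ?_
  refine Finset.expect_equiv (Equiv.mulLeft (f a)) (fun h => ?_) fun h _ => rfl
  rw [hS, hS]
  constructor
  · rintro ⟨b, rfl⟩
    exact ⟨a * b, by simp⟩
  · rintro ⟨b, hb⟩
    exact ⟨a⁻¹ * b, by simp [hb]⟩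

open Classical in
theorem unif_stmt : UnifStmt := by
  intro Λ G _ _ _ H
  let e : FreeGroup Λ →* ((Λ → G) → G) := piV fun V : Λ → G => V
  have hs : ∀ ρ : H.map e, ∃ w ∈ H, e w = ρ := fun ρ => ρ.2
  choose s hs1 hs2 using hs
  let this : Fintype (H.map e) := Fintype.ofFinite _
  refine ⟨H.map e, this, ⟨1⟩, s, hs1, fun Ω _ _ V φ => ?_⟩
  let π : ((Λ → G) → G) →* (Ω → G) :=
    { toFun := fun h ω => h (V ω), map_one' := rfl, map_mul' := fun _ _ => rfl }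
  have hπ : piV V = π.comp e := FreeGroup.ext_hom _ _ fun l => by
    funext ω
    simp [piV, π, e]
  rw [← avg_ZaCover (π.comp (H.map e).subtype) _ (fun h => ?_) φ]
  · refine expect_congr rfl fun ρ _ => ?_
    rw [hπ, MonoidHom.comp_apply, hs2]
    rfl
  · rw [mem_filter, hπ, ← Subgroup.map_map]
    constructor
    · rintro ⟨-, a, ha, rfl⟩
      exact ⟨⟨a, ha⟩, rfl⟩
    · rintro ⟨a, rfl⟩
      exact ⟨mem_univ _, a.1, a.2, rfl⟩

open Classical in
theorem fc_stmt : FcStmt := by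
  intro G H R _ _ _ _ C χ Ψ hC hΨ hk
  refine ⟨⟨fun x hx g => ?_⟩, fun g => ?_, fun g => ?_, fun s g => ?_,
    fun g₀ z g ε h0 h1 h2 => ?_⟩
  · obtain ⟨h, hh⟩ := hC g
    have := C.mul_mem (C.mul_mem hh hx) (C.inv_mem hh)
    simpa using this
  · obtain ⟨h, hh⟩ := hC g
    have := C.pow_mem hh (Nat.card H)
    rwa [Prod.pow_mk, pow_card_eq_one'] at this
  · obtain ⟨h, hh⟩ := hC g
    refine (RCLike.norm_expect_le (K := ℂ)).trans (expect_le ⟨h, ?_⟩ fun x _ => hΨ _ _)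
    exact mem_filter.2 ⟨mem_univ _, hh⟩
  · obtain ⟨k, hh⟩ := hC s
    have e : χ (s * g * s⁻¹) = χ g := by
      rw [map_mul, map_mul, mul_right_comm, ← map_mul, mul_inv_cancel, map_one, one_mul]
    symm
    refine Finset.expect_equiv (MulAut.conj k).toEquiv (fun h => ?_) fun h _ => ?_
    · simp only [mem_filter, mem_univ, true_and]
      constructor
      · intro h1
        exact C.mul_mem (C.mul_mem hh h1) (C.inv_mem hh)
      · intro h1
        have := C.mul_mem (C.mul_mem (C.inv_mem hh) h1) hh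
        simpa [mul_assoc] using this
    · rw [e]
      exact (hk k h _).symm
  · have e : χ (g₀ * g) = χ g := by rw [map_mul, h1, one_mul]
    rw [FC, FC, mul_expect]
    symm
    refine Finset.expect_equiv (Equiv.mulLeft z) (fun h => ?_) fun h hh => ?_
    · simp only [mem_filter, mem_univ, true_and]
      exact (C.mul_mem_cancel_left h0).symm
    · rw [e]
      exact (h2 h (mem_filter.1 hh).2).symm

theorem le_ZaCover {G H : Type} [Group G] [Group H] {s : Set G} {N : Subgroup G}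
    {C D : Subgroup (G × H)} (hN : Subgroup.closure s ⊔ N = ⊤)
    (h1 : ∀ g ∈ N, (g, 1) ∈ C ⊓ D) (h2 : ∀ g ∈ s, ∃ h, (g, h) ∈ C ⊓ D)
    (h3 : ∀ h, (1, h) ∈ C → (1, h) ∈ D) : C ≤ D := by
  have hK : ⊤ ≤ (C ⊓ D).map (MonoidHom.fst G H) := by
    rw [← hN, sup_le_iff, Subgroup.closure_le]
    refine ⟨fun g hg => ?_, fun g hg => ⟨_, h1 g hg, rfl⟩⟩
    obtain ⟨h, hh⟩ := h2 g hg
    exact ⟨_, hh, rfl⟩
  rintro ⟨g, h⟩ hg
  obtain ⟨⟨g', h'⟩, hh, rfl⟩ := hK (Subgroup.mem_top g)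
  have h4 := C.mul_mem (C.inv_mem hh.1) hg
  have h5 := D.mul_mem hh.2 (h3 (h'⁻¹ * h) (by simpa using h4))
  simpa using h5

theorem finc_stmt : FincStmt := by
  intro G H _ _ _ 𝒩 s hs hi ht
  constructor
  · refine Set.Finite.of_injOn
      (f := fun C : Subgroup (G × H) => ({x | x ∈ C ∧ x.1 ∈ s}, {h | (1, h) ∈ C}))
      (t := {a : Set (G × H) | a ⊆ s ×ˢ Set.univ} ×ˢ Set.univ)
      (fun C _ => ⟨fun x hx => ⟨hx.2, trivial⟩, trivial⟩) ?_
      ((hs.prod Set.finite_univ).finite_subsets.prod Set.finite_univ)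
    rintro C ⟨⟨N, hN, hC⟩, hC'⟩ D ⟨⟨N', hN', hD⟩, -⟩ hCD
    obtain ⟨e1, e2⟩ := Prod.ext_iff.1 hCD
    have e3 : ∀ x : G × H, x ∈ C ∧ x.1 ∈ s ↔ x ∈ D ∧ x.1 ∈ s := Set.ext_iff.1 e1
    have e4 : ∀ h : H, (1, h) ∈ C ↔ (1, h) ∈ D := Set.ext_iff.1 e2
    have e5 : ∀ g ∈ s, ∃ h, (g, h) ∈ C ∧ (g, h) ∈ D := fun g hg => by
      obtain ⟨h, hh⟩ := hC' g hg
      exact ⟨h, hh, ((e3 _).1 ⟨hh, hg⟩).1⟩
    exact le_antisymm
      (le_ZaCover (ht _ (hi N hN N' hN')) (fun g hg => ⟨hC g hg.1, hD g hg.2⟩) e5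
        fun h => (e4 h).1)
      (le_ZaCover (ht _ (hi N hN N' hN')) (fun g hg => ⟨hD g hg.2, hC g hg.1⟩)
        (fun g hg => (e5 g hg).imp fun h hh => hh.symm) fun h => (e4 h).2)
  · have := hs.to_subtype
    refine Set.Finite.of_injOn (f := fun (θ : G →* H) (x : s) => θ x) (t := Set.univ)
      (Set.mapsTo_univ _ _) (fun θ hθ θ' hθ' h => ?_) Set.finite_univ
    have hK : ⊤ ≤ θ.eqLocus θ' := by
      rw [← ht _ (hi _ hθ _ hθ'), sup_le_iff, Subgroup.closure_le]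
      exact ⟨fun g hg => congrFun h ⟨g, hg⟩, fun g hg => (show θ g = 1 from hg.1).trans
        (show θ' g = 1 from hg.2).symm⟩
    exact MonoidHom.ext fun g => hK (Subgroup.mem_top g)

end Pool.Agent.MP_f68ac8_nt.Zv

end

section

namespace Pool.Agent.MP_f68ac8_nt.Zv

open Finset
open scoped BigOperators

section
variable {U I Y : Type} [Fintype U] [Fintype I] [DecidableEq I] [Fintype Y] [Nonempty Y]

omit [Nonempty Y] in
theorem prod_ZaMom (φ : I → Y → ℝ) : 𝔼 a : I → Y, ∏ k, φ k (a k) = ∏ k, 𝔼 y, φ k y := by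
  simp only [Fintype.expect_eq_sum_div_card]
  rw [prod_div_distrib, Fintype.prod_sum, prod_const, Fintype.card_fun, Nat.cast_pow, card_univ]

theorem one_ZaMom (i : I) (F : Y → ℝ) : 𝔼 a : I → Y, F (a i) = 𝔼 y, F y := by
  have h := prod_ZaMom fun k y => if k = i then F y else 1
  have h1 : ∀ k, 𝔼 y, (if k = i then F y else 1) = if k = i then 𝔼 y, F y else 1 := fun k => by
    split_ifs
    · rfl
    · exact Fintype.expect_const _
  simpa only [h1, prod_ite_eq', mem_univ, if_true] using h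

theorem two_ZaMom {i j : I} (hij : i ≠ j) (F G : Y → ℝ) :
    𝔼 a : I → Y, F (a i) * G (a j) = (𝔼 y, F y) * 𝔼 y, G y := by
  have h := prod_ZaMom fun k y => (if k = i then F y else 1) * if k = j then G y else 1
  have h1 : ∀ k, 𝔼 y, ((if k = i then F y else 1) * if k = j then G y else 1) =
      (if k = i then 𝔼 y, F y else 1) * if k = j then 𝔼 y, G y else 1 := fun k => by
    split_ifs with a b b
    · exact absurd (a.symm.trans b) hij
    · simp only [mul_one]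
    · simp only [one_mul]
    · exact Fintype.expect_const _
  simpa only [h1, prod_mul_distrib, prod_ite_eq', mem_univ, if_true] using h

theorem real_ZaMom {e : U → I} (he : Function.Injective e) (G : U → Y → ℝ) :
    𝔼 a : I → Y, (∑ u, G u (a (e u))) ^ 2 ≤ (∑ u, 𝔼 y, G u y) ^ 2 + ∑ u, 𝔼 y, G u y ^ 2 := by
  classical
  simp only [sq (∑ _, _), sum_mul_sum, expect_sum_comm]
  rw [← sum_add_distrib]
  refine sum_le_sum fun u _ => ?_
  have h : 𝔼 y, G u y ^ 2 = ∑ v, if u = v then 𝔼 y, G u y ^ 2 else 0 := by simp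
  rw [h, ← sum_add_distrib]
  refine sum_le_sum fun v _ => ?_
  split_ifs with huv
  · subst huv
    rw [one_ZaMom (e u) fun y => G u y * G u y]
    simp only [← sq]
    exact le_add_of_nonneg_left (sq_nonneg _)
  · rw [two_ZaMom (he.ne huv), add_zero]

theorem first_ZaMom (e : U → I) (w : U → ℝ) (η : ℝ) (g : U → Y → ℂ) (he : Function.Injective e)
    (h0 : ∀ u, 0 ≤ w u) (h1 : ∑ u, w u = 1) (hη : ∀ u, w u ≤ η) (hg : ∀ u a, ‖g u a‖ ≤ 1) :
    𝔼 a : I → Y, ‖∑ u, w u • g u (a (e u))‖ ^ 2 ≤ ‖∑ u, w u • 𝔼 a, g u a‖ ^ 2 + η := by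
  have a1 := real_ZaMom he fun u y => w u * (g u y).re
  have a2 := real_ZaMom he fun u y => w u * (g u y).im
  have a3 : ∑ u, 𝔼 y, (w u * (g u y).re) ^ 2 + ∑ u, 𝔼 y, (w u * (g u y).im) ^ 2 ≤ η := by
    rw [← sum_add_distrib, ← one_mul η, ← h1, sum_mul]
    refine sum_le_sum fun u _ => ?_
    rw [← expect_add_distrib]
    refine expect_le univ_nonempty fun y _ => ?_
    have b1 : (g u y).re ^ 2 + (g u y).im ^ 2 ≤ 1 := by
      rw [sq, sq, ← Complex.normSq_apply, Complex.normSq_eq_norm_sq]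
      exact pow_le_one₀ (norm_nonneg _) (hg u y)
    have b2 := mul_le_mul_of_nonneg_left b1 (sq_nonneg (w u))
    have b3 := mul_le_mul_of_nonneg_left (hη u) (h0 u)
    nlinarith
  simp only [← Complex.normSq_eq_norm_sq, Complex.normSq_apply, ← sq, Complex.re_sum,
    Complex.im_sum, Complex.smul_re, Complex.smul_im, smul_eq_mul, Complex.re_expect,
    Complex.im_expect, mul_expect, expect_add_distrib]
  linarith

end

section
variable {d : ℕ} {U : Fin d → Type} [∀ j, Fintype (U j)] {w : ∀ j, U j → ℝ}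

theorem le_ZaMom (hw : Prob w) {f g : (∀ j, U j) → ℝ} (h : ∀ q, f q ≤ g q) : Ex w f ≤ Ex w g :=
  sum_le_sum fun q _ => mul_le_mul_of_nonneg_left (h q) (prod_nonneg fun j _ => hw.1 j _)

theorem const_ZaMom (hw : Prob w) (c : ℝ) : Ex w (fun _ => c) = c := by
  rw [Ex, ← sum_smul, ← Fintype.prod_sum w]
  simp [hw.2]

open Classical in
theorem ind_ZaMom (hw : Prob w) (i : Fin d) (x : U i) :
    Ex w (fun q => if x = q i then (1 : ℝ) else 0) = w i x := by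
  obtain ⟨φ, hφ⟩ : ∃ φ : ∀ j, U j → ℝ,
      φ = Function.update (fun _ _ => 1) i fun u => if x = u then 1 else 0 := ⟨_, rfl⟩
  have h1 : ∀ j, j ≠ i → ∀ u, φ j u = 1 := fun j hj u => by rw [hφ, Function.update_of_ne hj]
  have h2 : ∀ u, φ i u = if x = u then 1 else 0 := fun u => by rw [hφ, Function.update_self]
  have h3 := Fintype.prod_sum fun j u => w j u * φ j u
  rw [prod_eq_single i (fun j _ hj => by simp [h1 j hj, hw.2]) (by simp)] at h3
  simp only [h2, mul_ite, mul_one, mul_zero, sum_ite_eq, mem_univ, if_true] at h3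
  rw [h3]
  refine sum_congr rfl fun q _ => ?_
  rw [prod_mul_distrib, prod_eq_single (f := fun j => φ j (q j)) i (fun j _ hj => h1 j hj _)
    (by simp), h2]
  rfl

end

theorem mom_stmt : MomStmt := by
  classical
  refine ⟨fun U I Y _ _ _ _ e w η g => first_ZaMom e w η g, ?_⟩
  intro d U _ w η a hw hη _ T f h1 h2
  refine (le_ZaMom hw fun q₀ => ?_).trans (const_ZaMom hw _).le
  have h3 : ∀ q₁, f q₀ q₁ ≤ a + ∑ i ∈ T, if q₀ i = q₁ i then (1 : ℝ) else 0 := fun q₁ => by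
    by_cases h : ∀ i ∈ T, q₀ i ≠ q₁ i
    · exact (h2 q₀ q₁ h).trans (le_add_of_nonneg_right (sum_nonneg fun i _ => by positivity))
    · push Not at h
      obtain ⟨i, hi, e⟩ := h
      have := single_le_sum (f := fun i => if q₀ i = q₁ i then (1 : ℝ) else 0)
        (fun i _ => by positivity) hi
      rw [if_pos e] at this
      linarith [h1 q₀ q₁]
  refine (le_ZaMom hw h3).trans ?_
  have h4 : (Ex w fun q₁ => a + ∑ i ∈ T, if q₀ i = q₁ i then (1 : ℝ) else 0) =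
      Ex w (fun _ => a) + ∑ i ∈ T, Ex w fun q₁ => if q₀ i = q₁ i then (1 : ℝ) else 0 := by
    simp only [Ex, smul_add, sum_add_distrib, smul_sum]
    rw [sum_comm]
  rw [h4, const_ZaMom hw, ← nsmul_eq_mul]
  exact add_le_add_right (sum_le_card_nsmul _ _ _ fun i _ => (ind_ZaMom hw i _).trans_le (hη _ _)) _

end Pool.Agent.MP_f68ac8_nt.Zv

end

section

/-! The Gowers-Cauchy-Schwarz inequality for product weights. -/

namespace Pool.Agent.MP_f68ac8_nt.Zv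

open Finset Function

section
variable {d : ℕ} {U : Fin d → Type} [∀ j, Fintype (U j)] {w : ∀ j, U j → ℝ}
  {V : Type} [AddCommGroup V] [Module ℝ V]

omit [∀ j, Fintype (U j)] in
theorem wt_update_ZaGcs (w : ∀ j, U j → ℝ) (q : ∀ j, U j) (i : Fin d) (u : U i) :
    (∏ j, w j (update q i u j)) * w i (q i) = (∏ j, w j (q j)) * w i u := by
  rw [← mul_prod_erase univ (fun j => w j (update q i u j)) (mem_univ i),
    ← mul_prod_erase univ (fun j => w j (q j)) (mem_univ i), update_self,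
    prod_congr rfl fun j hj => by rw [update_of_ne (ne_of_mem_erase hj)]]
  ring

theorem wt_sum_ZaGcs (hw : Prob w) : ∑ q : ∀ j, U j, ∏ j, w j (q j) = 1 := by
  rw [← Fintype.prod_sum]
  exact prod_eq_one fun j _ => hw.2 j

theorem wt_nonneg_ZaGcs (hw : Prob w) (q : ∀ j, U j) : 0 ≤ ∏ j, w j (q j) :=
  prod_nonneg fun j _ => hw.1 j _

theorem ex_const_ZaGcs (hw : Prob w) (c : V) : Ex w (fun _ => c) = c := by
  unfold Ex
  rw [← sum_smul, wt_sum_ZaGcs hw, one_smul]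

theorem resample_ZaGcs (hw : Prob w) (i : Fin d) (f : (∀ j, U j) → V) :
    Ex w f = Ex w fun q => ∑ u, w i u • f (update q i u) := by
  have hinv : Involutive fun x : (∀ j, U j) × U i => (update x.1 i x.2, x.1 i) := by
    intro x
    simp
  calc Ex w f = ∑ x : (∀ j, U j) × U i, ((∏ j, w j (x.1 j)) * w i x.2) • f x.1 := by
        unfold Ex
        rw [Fintype.sum_prod_type]
        refine sum_congr rfl fun q _ => ?_
        dsimp only
        rw [← sum_smul, ← mul_sum, hw.2 i, mul_one]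
    _ = ∑ x : (∀ j, U j) × U i, ((∏ j, w j (x.1 j)) * w i x.2) • f (update x.1 i x.2) := by
        rw [← Equiv.sum_comp hinv.toPerm]
        refine sum_congr rfl fun x _ => ?_
        rw [← wt_update_ZaGcs w x.1 i x.2]
        rfl
    _ = _ := by
        unfold Ex
        rw [Fintype.sum_prod_type]
        refine sum_congr rfl fun q _ => ?_
        rw [smul_sum]
        exact sum_congr rfl fun u _ => mul_smul _ _ _

theorem ex_sum_ZaGcs {A : Type} [Fintype A] (c : A → ℝ) (F : A → (∀ j, U j) → V) :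
    (Ex w fun q => ∑ a, c a • F a q) = ∑ a, c a • Ex w (F a) := by
  unfold Ex
  simp only [smul_sum]
  rw [sum_comm]
  exact sum_congr rfl fun a _ => sum_congr rfl fun q _ => smul_comm _ _ _

theorem cs_ZaGcs (hw : Prob w) (i : Fin d) (c H : (∀ j, U j) → ℂ) (h1 : ∀ q, ‖c q‖ = 1)
    (h2 : ∀ q u, c (update q i u) = c q) :
    ‖Ex w fun q => c q * H q‖ ^ 2 ≤ Ex w fun q => ‖∑ u, w i u • H (update q i u)‖ ^ 2 := by
  have e : ‖Ex w fun q => c q * H q‖
      ≤ ∑ q : ∀ j, U j, (∏ j, w j (q j)) * ‖∑ u, w i u • H (update q i u)‖ := by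
    rw [resample_ZaGcs hw i]
    refine (norm_sum_le _ _).trans (le_of_eq (sum_congr rfl fun q _ => ?_))
    have k : ∑ u, w i u • (c (update q i u) * H (update q i u))
        = c q * ∑ u, w i u • H (update q i u) := by
      rw [mul_sum]
      exact sum_congr rfl fun u _ => by rw [h2, mul_smul_comm]
    dsimp only
    rw [norm_smul, Real.norm_of_nonneg (wt_nonneg_ZaGcs hw q), k, norm_mul, h1, one_mul]
  exact (pow_le_pow_left₀ (norm_nonneg _) e 2).trans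
    (Real.pow_arith_mean_le_arith_mean_pow univ _ _ (fun q _ => wt_nonneg_ZaGcs hw q)
      (wt_sum_ZaGcs hw) (fun q _ => norm_nonneg _) 2)

theorem expand_ZaGcs (hw : Prob w) (i : Fin d) (H : (∀ j, U j) → ℂ) :
    (Ex w fun q => ‖∑ u, w i u • H (update q i u)‖ ^ 2)
      ≤ ∑ a, w i a * ‖Ex w fun q => H q * starRingEnd ℂ (H (update q i a))‖ := by
  have e : (((Ex w fun q => ‖∑ u, w i u • H (update q i u)‖ ^ 2 : ℝ)) : ℂ)
      = ∑ a, w i a • Ex w fun q => H q * starRingEnd ℂ (H (update q i a)) := by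
    rw [← ex_sum_ZaGcs, resample_ZaGcs hw i
      (fun q => ∑ a, w i a • (H q * starRingEnd ℂ (H (update q i a))))]
    unfold Ex
    rw [Complex.ofReal_sum]
    refine sum_congr rfl fun q _ => ?_
    rw [smul_eq_mul, Complex.ofReal_mul, Complex.real_smul, Complex.ofReal_pow,
      ← Complex.mul_conj', map_sum, sum_mul_sum]
    congr 1
    refine sum_congr rfl fun u _ => ?_
    rw [smul_sum]
    refine sum_congr rfl fun a _ => ?_
    simp only [update_idem, Complex.real_smul, map_mul, Complex.conj_ofReal]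
    ring
  refine (le_abs_self _).trans ?_
  rw [← Real.norm_eq_abs, ← Complex.norm_real, e]
  refine (norm_sum_le _ _).trans (le_of_eq (sum_congr rfl fun a _ => ?_))
  rw [norm_smul, Real.norm_of_nonneg (hw.1 i a)]

theorem bx_insert_ZaGcs {R : Type} [CommRing R] (ψ : AddChar R ℂ) (hw : Prob w)
    {T : Finset (Fin d)} {i t : Fin d} (hi : i ∉ T) (hit : i ≠ t) (G : (∀ j, U j) → R) :
    Bx ψ w (insert i T) t G = ∑ a, w i a * Bx ψ w T t fun q => G q - G (update q i a) := by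
  unfold Bx
  simp only [← smul_eq_mul]
  rw [← ex_sum_ZaGcs]
  congr 1
  funext q₀
  rw [← ex_sum_ZaGcs, resample_ZaGcs hw i]
  congr 1
  funext q₁
  refine sum_congr rfl fun a _ => ?_
  congr 3
  refine sum_congr rfl fun u _ => ?_
  congr 2
  rw [sum_powerset_insert hi, ← sum_add_distrib]
  refine sum_congr rfl fun ω hω => ?_
  have hω' : i ∉ ω := fun h => hi (mem_powerset.1 hω h)
  have k : ω.piecewise (update q₁ i a) q₀ = ω.piecewise q₁ q₀ := by
    refine piecewise_congr ω (fun j hj => ?_) fun _ _ => rfl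
    have hji : j ≠ i := fun h => hω' (h ▸ hj)
    exact update_of_ne hji _ _
  rw [piecewise_insert, update_self, k, card_insert_of_notMem hω', update_comm hit]
  simp only [smul_eq_mul]
  ring

end

theorem gcs_stmt : GcsStmt := by
  intro R _ ψ d U _ w hψ hw T t
  induction T using Finset.induction_on with
  | empty =>
    rintro - f G ⟨g, h1, h2⟩
    have k := cs_ZaGcs hw t (fun q => ψ (f q)) (fun q => ψ (G q)) (fun q => hψ _)
      (fun q u => by simp [h2, h1 t (mem_insert_self _ _)])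
    simp only [AddChar.map_add_eq_mul]
    refine le_trans (le_of_eq (by simp)) (k.trans (le_of_eq ?_))
    unfold Bx
    congr 1
    funext q₀
    simp [ex_const_ZaGcs hw]
  | insert i T hi ih =>
    rintro ht f G ⟨g, h1, h2⟩
    have hit : i ≠ t := fun h => ht (h ▸ mem_insert_self _ _)
    have htT : t ∉ T := fun h => ht (mem_insert_of_mem h)
    have hi' : i ∉ insert t T := by simp [hit, hi]
    have hsub : ∀ j ∈ insert t T, j ∈ insert t (insert i T) := fun j hj =>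
      insert_subset_insert t (subset_insert i T) hj
    have e1 : ∀ q, ψ (f q + G q) = ψ (g i q) * ψ (∑ j ∈ insert t T, g j q + G q) := by
      intro q
      rw [h2, insert_comm, sum_insert hi', add_assoc, AddChar.map_add_eq_mul]
    have k1 := cs_ZaGcs hw i (fun q => ψ (g i q)) (fun q => ψ (∑ j ∈ insert t T, g j q + G q))
      (fun q => hψ _) (fun q u => by rw [h1 i (by simp)])
    have k2 := k1.trans (expand_ZaGcs hw i fun q => ψ (∑ j ∈ insert t T, g j q + G q))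
    have k3 : ∀ a, ‖Ex w fun q => ψ (∑ j ∈ insert t T, g j q + G q) * starRingEnd ℂ
        (ψ (∑ j ∈ insert t T, g j (update q i a) + G (update q i a)))‖ ^ 2 ^ (T.card + 1)
        ≤ Bx ψ w T t fun q => G q - G (update q i a) := by
      intro a
      refine le_trans (le_of_eq ?_) (ih htT
        (fun q => ∑ j ∈ insert t T, (g j q - g j (update q i a))) _
        ⟨fun j q => g j q - g j (update q i a), fun j hj q u => ?_, fun q => rfl⟩)
      · congr 3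
        funext q
        rw [← Complex.inv_eq_conj (hψ _), ← AddChar.map_neg_eq_inv, ← AddChar.map_add_eq_mul,
          sum_sub_distrib]
        congr 1
        ring
      · have hji : j ≠ i := fun h => hi' (h ▸ hj)
        dsimp only
        rw [update_comm hji, h1 j (hsub j hj), h1 j (hsub j hj)]
    simp only [e1]
    rw [card_insert_of_notMem hi, pow_succ' 2 (T.card + 1), pow_mul, bx_insert_ZaGcs ψ hw hi hit]
    refine (pow_le_pow_left₀ (sq_nonneg _) k2 _).trans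
      ((Real.pow_arith_mean_le_arith_mean_pow univ _ _ (fun a _ => hw.1 i a) (hw.2 i)
        (fun a _ => norm_nonneg _) _).trans (sum_le_sum fun a _ => ?_))
    exact mul_le_mul_of_nonneg_left (k3 a) (hw.1 i a)

end Pool.Agent.MP_f68ac8_nt.Zv

end

section

/-! The box inequality with a condition of low complexity. -/

namespace Pool.Agent.MP_f68ac8_nt.Zv

open Finset

theorem char_sum_ZaBox {R I : Type} [AddCommMonoid R] (ψ : AddChar R ℂ) (s : Finset I)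
    (x : I → R) : ψ (∑ i ∈ s, x i) = ∏ i ∈ s, ψ (x i) := by
  classical
  induction s using Finset.induction_on with
  | empty => simp
  | insert a s ha ih => rw [sum_insert ha, prod_insert ha, AddChar.map_add_eq_mul, ih]

theorem orth_ZaBox {N : ℕ} [NeZero N] {I : Type} [Fintype I] [DecidableEq I] (x : I → ZMod N) :
    ∑ χ : I → ZMod N, (ZMod.stdAddChar (∑ i, χ i * x i) : ℂ) =
      if x = 0 then (N : ℂ) ^ Fintype.card I else 0 := by
  simp only [char_sum_ZaBox]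
  rw [← Fintype.prod_sum fun i (c : ZMod N) => (ZMod.stdAddChar (c * x i) : ℂ)]
  simp only [AddChar.sum_mulShift _ (ZMod.isPrimitive_stdAddChar N)]
  split_ifs with h
  · simp [h]
  · obtain ⟨i, hi⟩ := Function.ne_iff.1 h
    exact prod_eq_zero (mem_univ i) (by rw [if_neg (show ¬ x i = 0 from hi), Nat.cast_zero])

theorem lc_ZaBox {d : ℕ} {U : Fin d → Type} {R I : Type} [CommRing R] [Fintype I]
    {T : Finset (Fin d)} {t : Fin d} (ht : t ∈ T) {f : I → (∀ j, U j) → R}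
    {f₀ : (∀ j, U j) → R} (h : ∀ i, LC T (f i)) (h₀ : LC T f₀) (χ v : I → R) :
    LC T fun q => f₀ q + ∑ i, χ i * (f i q - v i) := by
  choose g hg hf using h
  obtain ⟨g₀, hg₀, hf₀⟩ := h₀
  refine ⟨fun k q => g₀ k q + ∑ i, χ i * (g i k q - if k = t then v i else 0),
    fun k hk q u => ?_, fun q => ?_⟩
  · simp only [hg₀ k hk, fun i => hg i k hk]
  · rw [sum_add_distrib, sum_comm]
    simp only [← mul_sum, sum_sub_distrib, sum_ite_eq', if_pos ht, hf, hf₀]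

theorem box_stmt (hG : GcsStmt) : BoxStmt := by
  intro N _ d U _ w hw T t ht I _ f f₀ G P hf hf₀ hP
  classical
  have hN : (0 : ℝ) < (N : ℝ) ^ Fintype.card I := pow_pos (Nat.cast_pos.2 (NeZero.pos N)) _
  let s : Finset (I → ZMod N) := univ.filter fun v => ∃ q, P q ∧ (fun i => f i q) = v
  let a : (I → ZMod N) × (I → ZMod N) → ℂ := fun z =>
    Ex w fun q => ZMod.stdAddChar ((f₀ q + ∑ i, z.2 i * (f i q - z.1 i)) + G q)
  obtain ⟨z, -, hz⟩ := exists_max_image univ (fun z => ‖a z‖) univ_nonempty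
  have h1 := hG (ZMod N) ZMod.stdAddChar d U w (fun x => by simp) hw T t ht _ G
    (lc_ZaBox (mem_insert_self t T) hf hf₀ z.2 z.1)
  have h2 : ∀ q, ∑ v ∈ s, ∑ χ : I → ZMod N,
      (ZMod.stdAddChar ((f₀ q + ∑ i, χ i * (f i q - v i)) + G q) : ℂ) =
      (N : ℂ) ^ Fintype.card I * if P q then ZMod.stdAddChar (f₀ q + G q) else 0 := by
    intro q
    have e : ∀ v : I → ZMod N, ∑ χ : I → ZMod N,
        (ZMod.stdAddChar ((f₀ q + ∑ i, χ i * (f i q - v i)) + G q) : ℂ) =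
        if (fun i => f i q) = v then (N : ℂ) ^ Fintype.card I * ZMod.stdAddChar (f₀ q + G q)
        else 0 := fun v => by
      simp only [add_right_comm (f₀ q) _ (G q), AddChar.map_add_eq_mul _ (f₀ q + G q)]
      rw [← mul_sum, orth_ZaBox fun i => f i q - v i]
      have : (fun i => f i q - v i) = 0 ↔ (fun i => f i q) = v := by
        simp [funext_iff, sub_eq_zero]
      simp only [this, mul_ite, zero_mul, mul_comm]
    have e2 : (fun i => f i q) ∈ s ↔ P q := by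
      simp only [s, mem_filter, mem_univ, true_and]
      exact ⟨fun ⟨q', h1, h2⟩ => hP q' q (congrFun h2) h1, fun h => ⟨q, h, rfl⟩⟩
    simp only [e, sum_ite_eq, e2, mul_ite, mul_zero]
  have h3 : ∑ v ∈ s, ∑ χ : I → ZMod N, a (v, χ) = (N : ℂ) ^ Fintype.card I *
      Ex w fun q => if P q then ZMod.stdAddChar (f₀ q + G q) else 0 := by
    simp only [a, Ex]
    rw [mul_sum, sum_congr rfl fun v _ => sum_comm, sum_comm]
    refine sum_congr rfl fun q _ => ?_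
    rw [mul_smul_comm, ← h2, smul_sum]
    simp only [smul_sum]
  have h4 : ‖∑ v ∈ s, ∑ χ : I → ZMod N, a (v, χ)‖ ≤
      (N : ℝ) ^ Fintype.card I * ((N : ℝ) ^ Fintype.card I * ‖a z‖) := by
    calc _ ≤ ∑ v ∈ s, ∑ χ : I → ZMod N, ‖a z‖ :=
          norm_sum_le_of_le _ fun v _ => norm_sum_le_of_le _ fun χ _ => hz _ (mem_univ _)
      _ ≤ ∑ v : I → ZMod N, ∑ χ : I → ZMod N, ‖a z‖ :=
          sum_le_sum_of_subset_of_nonneg (subset_univ _) fun _ _ _ => by positivity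
      _ = _ := by simp
  rw [h3, norm_mul, norm_pow, Complex.norm_natCast] at h4
  have h5 := pow_le_pow_left₀ (norm_nonneg _) (le_of_mul_le_mul_left h4 hN) (2 ^ (T.card + 1))
  rw [mul_pow] at h5
  convert h5.trans (mul_le_mul_of_nonneg_left h1 (by positivity))

end Pool.Agent.MP_f68ac8_nt.Zv

end
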