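import Mathlib
import Pool.Agent.Mg.Fe23604m.G9a9246

set_option linter.all false

section

/-! Filtered groups, cubes, and counting solutions of commutator equations for random words. -/

namespace Pool.Agent.MP_f68ac8_nt.Zk

open Matrix Finset Zv
open scoped BigOperators commutatorElement

section
variable {G : Type} [Group G]

/-- filtrations that are compatible with commutators -/
structure NS (H : ℕ → Subgroup G) : Prop where
  anti : ∀ i j, 1 ≤ i → i ≤ j → H j ≤ H i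
  comm : ∀ a b, 1 ≤ a → 1 ≤ b → ∀ g ∈ H a, ∀ h ∈ H b, ⁅g, h⁆ ∈ H (a + b)

/-- the `p`-th power raises the level by `p - 1` -/
def Pw (p : ℕ) (H : ℕ → Subgroup G) (i : ℕ) : Prop := ∀ g ∈ H i, g ^ p ∈ H (i + p - 1)

/-- the lower central series, starting at one -/
def gam (U : Subgroup G) (i : ℕ) : Subgroup G := U.lowerCentralSeries (i - 1)

/-- cubes -/
def Cube {ι : Type} [DecidableEq ι] (H : ℕ → Subgroup G) (T : Finset ι) :
    Subgroup (Finset ι → G) :=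
  Subgroup.closure {f | ∃ S ⊆ T, ∃ c ∈ H (max 1 S.card), f = fun ω => if S ⊆ ω then c else 1}

/-- iterated commutators -/
def brL : List G → G
  | [] => 1
  | [x] => x
  | x :: y :: l => ⁅x, brL (y :: l)⁆

end

/-- vectors -/
abbrev V (p d : ℕ) : Type := Fin d → ZMod p

/-- the cyclic group of order `p` -/
abbrev Cp (p : ℕ) : Type := Multiplicative (ZMod p)

/-- a filtration and a character -/
structure Fil (p : ℕ) (P : Type) [Group P] where
  F : ℕ → Subgroup P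
  pi : P →* Cp p

/-- coordinates on the graded pieces -/
structure Gd (p : ℕ) (P : Type) where
  k : ℕ → ℕ
  e : ∀ i, P → V p (k i)
  b : ∀ i, V p (k 1) →ₗ[ZMod p] V p (k i) →ₗ[ZMod p] V p (k (i + 1))
  pb : V p (k 1) →ₗ[ZMod p] ZMod p

/-- the linear algebra of one level -/
structure Ln (p a b c e : ℕ) where
  pb : V p a →ₗ[ZMod p] ZMod p
  b1 : V p a →ₗ[ZMod p] V p a →ₗ[ZMod p] V p b
  b2 : V p a →ₗ[ZMod p] V p c →ₗ[ZMod p] V p e
  ty : Set (V p a)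
  A : V p a → Submodule (ZMod p) (V p c)
  La : V p a → Submodule (ZMod p) (V p e)

section
variable {p a b c e d : ℕ} (N : Ln p a b c e)

/-- the properties that do not involve the dual vectors -/
structure Ln.Ok0 : Prop where
  alt : ∀ τ, N.b1 τ τ = 0
  one : ∀ τ ∈ N.ty, N.pb τ = 1
  sep : ∀ τ ∈ N.ty, ∀ τ' ∈ N.ty, ∀ w, N.pb w = 1 → N.b1 τ w = 0 → N.b1 τ' w = 0 → τ = τ'
  inj : ∀ τ ∈ N.ty, ∀ v ∈ N.A τ, N.b2 τ v = 0 → v = 0

/-- all properties -/
structure Ln.Ok : Prop extends N.Ok0 where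
  dual : ∀ τ ∈ N.ty, ∀ y ∈ N.La τ, (∀ v ∈ N.A τ, y ⬝ᵥ N.b2 τ v = 0) → y = 0
  card : ∀ τ ∈ N.ty, Nat.card (N.La τ) = Nat.card (N.A τ)

variable (r : Fin d → Fin d → ZMod p) (τ : Fin d → V p a)

/-- the equations of level one -/
def Ln.Eq1 : Prop := (∀ i, τ i ∈ N.ty) ∧ ∀ i, N.b1 (τ i) (∑ j, r i j • τ j) = 0

/-- the linearised equations -/
def Ln.Mv (v : Fin d → V p c) (i : Fin d) : V p e :=
  N.b2 (τ i) (∑ j, r i j • v j) - N.b2 (∑ j, r i j • τ j) (v i)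

/-- the kernel of the linearised equations -/
def Ln.Ker : Set ((Fin d → V p a) × (Fin d → V p c)) :=
  {x | N.Eq1 r x.1 ∧ (∀ i, x.2 i ∈ N.A (x.1 i)) ∧ ∀ i, N.Mv r x.1 x.2 i = 0}

/-- the cokernel of the linearised equations -/
def Ln.Du (y : Fin d → V p e) : Prop :=
  (∀ i, y i ∈ N.La (τ i)) ∧ ∀ v : Fin d → V p c, (∀ i, v i ∈ N.A (τ i)) →
    ∑ i, y i ⬝ᵥ N.Mv r τ v i = 0

/-- every type occurs many times with zero dual vector before a nonzero dual vector -/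
def Rich (m : ℕ) (y : Fin d → V p e) : Prop :=
  ∃ t, y t ≠ 0 ∧ ∀ i, m ≤ (univ.filter fun j => j < t ∧ τ j = τ i ∧ y j = 0).card

/-- all nonzero dual vectors are rich -/
def Ln.GoodD (m : ℕ) : Prop := ∀ τ y, N.Eq1 r τ → N.Du r τ y → y ≠ 0 → Rich τ m y

/-- the weight of a type -/
noncomputable def Ln.wt (y : Fin d → V p e) (σ : V p a) : ℝ :=
  1 / (Nat.card ((Submodule.span (ZMod p) (Set.range τ)).map (N.b1 σ)) *
    Nat.card (Submodule.span (ZMod p) (y '' {i | τ i = σ})))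

end

section
variable {p : ℕ} {P : Type} [Group P] (T : Fil p P)

/-- valued systems -/
structure VS (l : ℕ) : Prop where
  ns : NS T.F
  one : T.F 1 = ⊤
  ker : T.F 2 ≤ T.pi.ker
  v1 : ∀ i, 1 ≤ i → Pw p T.F i
  v2 : ∀ i, 1 ≤ i → ∀ g ∈ T.pi.ker, ∀ h ∈ T.pi.ker, g ^ p * (h ^ p)⁻¹ ∈ T.F (i + p) →
    g * h⁻¹ ∈ T.F (i + 1)
  v3 : ∀ i, l ≤ i → T.F i ≤ gam ⊤ i ⊔ T.F (i + 1)
  v4 : ∀ j, ∃ i, j ≤ i ∧ ¬ T.F i ≤ T.F (i + 1)
  fin : ∀ i, (T.F i).FiniteIndex

/-- truncated valued systems -/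
structure TS (L l n : ℕ) : Prop where
  ns : NS T.F
  one : T.F 1 = ⊤
  ker : T.F 2 ≤ T.pi.ker
  v1 : ∀ i, 1 ≤ i → Pw p T.F i
  v2 : ∀ i, 1 ≤ i → i + p ≤ L → ∀ g ∈ T.pi.ker, ∀ h ∈ T.pi.ker,
    g ^ p * (h ^ p)⁻¹ ∈ T.F (i + p) → g * h⁻¹ ∈ T.F (i + 1)
  v3 : ∀ i, l ≤ i → T.F i ≤ gam ⊤ i ⊔ T.F (i + 1)
  v4 : ∀ i, l ≤ i → i < L → ¬ T.F i ≤ T.F (i + 1)
  bot : ∀ i, L ≤ i → T.F i = ⊥
  pos : 1 ≤ l
  idx : (T.F (l + 2)).index ≤ n

/-- elements of order `p` with character one -/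
def XX : Set P := {x | x ^ p = 1 ∧ T.pi x = Multiplicative.ofAdd 1}

variable (D : Gd p P)

/-- the properties of the coordinates -/
structure Gd.Ok : Prop where
  add : ∀ i, 1 ≤ i → ∀ g ∈ T.F i, ∀ h ∈ T.F i, D.e i (g * h) = D.e i g + D.e i h
  zero : ∀ i, 1 ≤ i → ∀ g ∈ T.F i, (D.e i g = 0 ↔ g ∈ T.F (i + 1))
  surj : ∀ i, 1 ≤ i → ∀ v, ∃ g ∈ T.F i, D.e i g = v
  br : ∀ i, 1 ≤ i → ∀ g, ∀ h ∈ T.F i, D.e (i + 1) ⁅g, h⁆ = D.b i (D.e 1 g) (D.e i h)
  pi : ∀ g, D.pb (D.e 1 g) = (T.pi g).toAdd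

/-- choices of dual vectors -/
abbrev LaT : Type := ∀ i, V p (D.k 1) → Submodule (ZMod p) (V p (D.k (i + 1 + 1)))

/-- the linear algebra of level `l` -/
def lnOf (La : LaT D) (l : ℕ) : Ln p (D.k 1) (D.k (1 + 1)) (D.k (l + 1)) (D.k (l + 1 + 1)) where
  pb := D.pb
  b1 := D.b 1
  b2 := D.b (l + 1)
  ty := D.e 1 '' XX T
  A := fun τ => Submodule.span (ZMod p)
    {w | ∃ x ∈ XX T, ∃ v ∈ T.F (l + 1), x * v ∈ XX T ∧ D.e 1 x = τ ∧ D.e (l + 1) v = w}
  La := La l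

variable (La : LaT D)

/-- all data -/
structure Pk (L l n : ℕ) : Prop where
  ts : TS T L l n
  gd : D.Ok T
  ln : ∀ i, 1 ≤ i → i + p + 1 ≤ L → (lnOf T D La i).Ok
  big : l + p + 1 ≤ L

/-- generic matrices -/
def Good (L l B : ℕ) {d : ℕ} (r : Fin d → Fin d → ZMod p) : Prop :=
  (∀ i, 1 ≤ i → i ≤ l → ((lnOf T D La i).Ker r).ncard ≤ B) ∧
    ∀ i, l ≤ i → i + p + 1 ≤ L → (lnOf T D La i).GoodD r (i + 1)

end

section
variable {P : Type} [Group P] {d : ℕ} {U : Fin d → Type}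

open Classical in
/-- the values of the letters -/
noncomputable def plc (q : ∀ j, U j) (x : Fin d → P) : (Σ j, U j) → P :=
  fun l => if l.2 = q l.1 then x l.1 else 1

/-- replace the entries outside `J` by one -/
def msk (J : Finset (Fin d)) (x : Fin d → P) : Fin d → P := fun i => if i ∈ J then x i else 1

variable (y : (Σ j, U j) → FreeGroup (Σ j, U j)) (q : ∀ j, U j)

/-- the values of the words -/
noncomputable def Yw (x : Fin d → P) (i : Fin d) : P := FreeGroup.lift (plc q x) (y ⟨i, q i⟩)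

open Classical in
/-- the exponent sums -/
noncomputable def rr (p : ℕ) (i j : Fin d) : ZMod p :=
  (FreeGroup.lift (fun l => if l = ⟨j, q j⟩ then Multiplicative.ofAdd (1 : ZMod p) else 1)
    (y ⟨i, q i⟩)).toAdd

variable {p : ℕ} (T : Fil p P) (D : Gd p P)

/-- the types of a tuple -/
def tyOf (x : Fin d → P) (i : Fin d) : V p (D.k 1) := D.e 1 (x i)

/-- candidates -/
def Cand (l : ℕ) (x : Fin d → P) : Prop :=
  (∀ i, ∃ x₀ ∈ XX T, x₀⁻¹ * x i ∈ T.F (l + 1)) ∧ Subgroup.closure (Set.range x) ⊔ T.F 2 = ⊤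

/-- the equations -/
def Eqs (l : ℕ) (x : Fin d → P) : Prop := ∀ i, ⁅x i, Yw y q x i⁆ ∈ T.F (l + 1 + 1)

/-- the solutions -/
def Sol (l : ℕ) : Set (Fin d → P) := {x | Cand T l x ∧ Eqs y q T l x}

/-- the number of classes of solutions -/
noncomputable def Nn (l : ℕ) : ℝ := (Sol y q T l).ncard / Nat.card (T.F (l + 1)) ^ d

/-- the obstruction -/
noncomputable def Ob (l : ℕ) (x : Fin d → P) (z : Fin d → V p (D.k (l + 1 + 1))) : ZMod p :=
  ∑ i, z i ⬝ᵥ D.e (l + 1 + 1) ⁅x i, Yw y q x i⁆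

open Classical in
/-- a term of the error -/
noncomputable def Tm [NeZero p] (C : (Fin d → Fin d → ZMod p) → Prop) (l : ℕ) (x : Fin d → P)
    (z : Fin d → V p (D.k (l + 1 + 1))) : ℂ :=
  if C (rr y q p) ∧ Eqs y q T l x then ZMod.stdAddChar (Ob y q D l x z) else 0

/-- the data of low complexity agree -/
def DatEq (p : ℕ) (S : Finset (Fin d)) (x : Fin d → P) (y g : (Σ j, U j) → FreeGroup (Σ j, U j))
    (q q' : ∀ j, U j) : Prop :=
  (∀ i J, (∃ s ∈ S, s ∉ J ∧ s ≠ i) → Yw y q (msk J x) i = Yw y q' (msk J x) i ∧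
    Yw g q (msk J x) i = Yw g q' (msk J x) i) ∧ rr y q p = rr y q' p

end

section
variable {p : ℕ} [NeZero p] {H : Type} [Group H] [Fintype H]

open Classical in
/-- the average of a function over conjugates -/
noncomputable def Av (H' : Subgroup H) (κ : H → ZMod p) (h : H) : ℂ :=
  𝔼 k ∈ univ.filter (· ∈ H'), ZMod.stdAddChar (κ (k * h * k⁻¹))

omit [NeZero p] [Fintype H] in
/-- a translation changes the function by a constant -/
def Shf (H' : Subgroup H) (κ : H → ZMod p) : Prop :=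
  ∃ z ∈ H', ∃ c : ZMod p, c ≠ 0 ∧ ∀ k ∈ H', ∀ h ∈ H', κ (k * z * k⁻¹ * h) = κ h + c

end

section
variable (p : ℕ) [NeZero p] (P : Type) [Group P] [Fintype P] {d : ℕ} {U : Fin d → Type}
  [∀ j, Fintype (U j)] (w : ∀ j, U j → ℝ) {Y : Type} [Fintype Y]
  (y : (Σ j, U j) → Y → FreeGroup (Σ j, U j))

/-- equidistribution of the random words -/
def EQ (η : ℝ) : Prop :=
  ∀ (t : Fin d) (W : Finset (Fin d) → (Σ j, U j) → P) (κ : (Finset (Fin d) → P) → ZMod p),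
    (∀ ω l, t ≤ l.1 → W ω l = 1) → Shf (piV W).range κ →
    ‖∑ u, w t u • 𝔼 a, Av (piV W).range κ (piV W (y ⟨t, u⟩ a))‖ ≤ η

end

/-- basic filtrations -/
def LcsStmt : Prop :=
  ∀ (G : Type) [Group G], (∀ U : Subgroup G, NS (gam U)) ∧ ∀ H : ℕ → Subgroup G, NS H →
    (∀ N : Subgroup G, N.Normal → NS fun i => H i ⊔ N) ∧
    (∀ U ≤ H 1, ∀ i, 1 ≤ i → gam U i ≤ H i) ∧
    (∀ s, ∃ D : ℕ → Subgroup (G × G), NS D ∧
      ∀ i, 1 ≤ i → ∀ g g', (g, g') ∈ D i ↔ g ∈ H i ∧ g⁻¹ * g' ∈ H (i + s)) ∧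
    ∀ (c : ℕ) (S : Set G), 2 ≤ c → (∀ g ∈ S, g ∈ H 1) → (∀ g ∈ S, ∀ h ∈ S, ⁅g, h⁆ ∈ H c) →
      NS fun i => if i ≤ 1 then Subgroup.closure S ⊔ H c else H (c + i - 2)

/-- the last corner of a cube -/
def CornStmt : Prop :=
  ∀ (G : Type) [Group G] (H : ℕ → Subgroup G), NS H → ∀ (ι : Type) [DecidableEq ι]
    (T : Finset ι), ∀ f ∈ Cube H T, (∀ ω ⊆ T, ω ≠ T → f ω = 1) → f T ∈ H (max 1 T.card)

section
variable (p : ℕ) [Fact p.Prime]

/-- the formula of Hall and Petrescu -/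
def HpStmt : Prop :=
  ∀ (G : Type) [Group G] (H : ℕ → Subgroup G), NS H → ∀ W : Subgroup G,
    (∀ c ∈ H 2, c ^ p ∈ W) → H p ≤ W → ∀ g ∈ H 1, ∀ h ∈ H 1,
    ((g * h) ^ p)⁻¹ * (g ^ p * h ^ p) ∈ W

/-- powers in filtered groups -/
def PwStmt : Prop :=
  ∀ (G : Type) [Group G], (∀ H : ℕ → Subgroup G, NS H →
    (∀ c, 2 ≤ c → Pw p H c → ∀ g ∈ H 1, ∀ h ∈ H 1, ⁅g, h⁆ ∈ H c →
      ((g * h) ^ p)⁻¹ * (g ^ p * h ^ p) ∈ H (c + p - 2)) ∧
    (∀ L, (∀ i, L ≤ i → Pw p H i) → (∀ i, 1 ≤ i → (∀ j, i < j → Pw p H j) →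
      H i ≤ Subgroup.closure {g | g ∈ H i ∧ g ^ p ∈ H (i + p - 1)} ⊔ H (i + 1)) →
      ∀ i, 1 ≤ i → Pw p H i) ∧
    ((∀ i, 1 ≤ i → Pw p H i) → ∀ α β, 1 ≤ α → 1 ≤ β → ∀ g ∈ H 1, ∀ a ∈ H α, ∀ b ∈ H β,
      ((g ^ p)⁻¹ * (g * b) ^ p)⁻¹ * (((g * a) ^ p)⁻¹ * (g * a * b) ^ p) ∈ H (α + β + p - 2))) ∧
    ∀ (U N : Subgroup G) (L : ℕ), N.Normal →
      U ≤ Subgroup.closure {x | x ∈ U ∧ x ^ p = 1} ⊔ N → gam U L ≤ N →
      ∀ i, 1 ≤ i → Pw p (fun i => gam U i ⊔ N) i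

/-- iterated commutators span the graded pieces -/
def SpanStmt : Prop :=
  ∀ (P : Type) [Group P] (F : ℕ → Subgroup P), NS F → F 1 = ⊤ →
    (∀ l l' : List P, l ≠ [] → List.Forall₂ (fun g g' => g⁻¹ * g' ∈ F 2) l l' →
      brL l ∈ F l.length ∧ (brL l)⁻¹ * brL l' ∈ F (l.length + 1)) ∧
    ∀ m, 1 ≤ m → F m ≤ gam ⊤ m ⊔ F (m + 1) → ∀ S : Set P, Subgroup.closure S ⊔ F 2 = ⊤ →
      ∀ φ : P → ZMod p, (∀ g ∈ F m, ∀ h ∈ F m, φ (g * h) = φ g + φ h) →
      (∀ g ∈ F (m + 1), φ g = 0) → (∃ g ∈ F m, φ g ≠ 0) →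
      ∃ l : List P, l.length = m ∧ (∀ g ∈ l, g ∈ S) ∧ φ (brL l) ≠ 0

/-- truncation -/
def TruncStmt : Prop :=
  ∀ (P : Type) [Group P] (T : Fil p P) (l : ℕ), VS T l → ∃ l' n, ∀ L, 2 ≤ L →
    ∃ (P' : Type) (_ : Group P') (_ : Fintype P') (T' : Fil p P') (f : P →* P'),
      TS T' L l' n ∧ Function.Surjective f ∧ (∀ g, T'.pi (f g) = T.pi g) ∧
      (∀ g ∈ T.F L, f g = 1) ∧ ∀ g ∈ T.F 2, f g ∈ T'.F 2

/-- statements about all truncated systems -/
def AllT (Q : ∀ (P : Type) [Group P] [Fintype P], Fil p P → ℕ → ℕ → ℕ → Prop) : Prop :=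
  ∀ (P : Type) [Group P] [Fintype P] (T : Fil p P) (L l n : ℕ), TS T L l n → Q P T L l n

/-- existence of coordinates -/
def GdStmt : Prop :=
  AllT p fun P _ _ T _ _ _ => (∀ g : P, ∃ k, g ^ p ^ k = 1) ∧ (∃ D : Gd p P, D.Ok T) ∧
    ∀ D : Gd p P, D.Ok T → ∀ i, 1 ≤ i →
      Nat.card (T.F i) = p ^ D.k i * Nat.card (T.F (i + 1)) ∧ p ^ D.k i ≤ (T.F (i + 1)).index

/-- the linear algebra of a level -/
def LnStmt : Prop :=
  AllT p fun P _ _ T L _ _ => ∀ D : Gd p P, D.Ok T → ∀ La i, 1 ≤ i → i + p + 1 ≤ L →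
    (lnOf T D La i).Ok0

/-- existence of dual vectors -/
def DualStmt : Prop :=
  ∀ (a b c e : ℕ) (N : Ln p a b c e), N.Ok0 → ∃ La, Ln.Ok { N with La := La }

/-- the first moment of the kernel -/
def K1Stmt : Prop :=
  ∀ (a b c e d : ℕ) (N : Ln p a b c e), N.Ok0 →
    𝔼 r : Fin d → Fin d → ZMod p, ((N.Ker r).ncard : ℝ) ≤ 2 ^ (p ^ a * p ^ c)

/-- the centralisers of different types are disjoint -/
def MassStmt : Prop :=
  ∀ (a b c e : ℕ) (N : Ln p a b c e), N.Ok0 → ∀ S : Finset (V p a), (∀ σ ∈ S, σ ∈ N.ty) →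
    ∑ σ ∈ S, (1 : ℝ) /
      Nat.card ((Submodule.span (ZMod p) (S : Set (V p a))).map (N.b1 σ)) ≤ 1

/-- the derivative of the equations -/
def DerStmt : Prop :=
  AllT p fun P _ _ T _ _ _ => ∀ D : Gd p P, D.Ok T → ∀ (d : ℕ) (U : Fin d → Type) y
    (q : ∀ j, U j) (x : Fin d → P),
    (∀ i, D.e 1 (Yw y q x i) = ∑ j, rr y q p i j • tyOf D x j) ∧
    ∀ La l, 1 ≤ l → ∀ v : Fin d → P, (∀ i, v i ∈ T.F (l + 1)) → Eqs y q T l x →
      Eqs y q T l (x * v) ∧ ∀ i, D.e (l + 1 + 1) ⁅(x * v) i, Yw y q (x * v) i⁆ =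
        D.e (l + 1 + 1) ⁅x i, Yw y q x i⁆ +
          (lnOf T D La l).Mv (rr y q p) (tyOf D x) (fun j => D.e (l + 1) (v j)) i

/-- statements about all data -/
def AllP (Q : ∀ (P : Type) [Group P] [Fintype P] (_ : Fil p P) (D : Gd p P), LaT D → ℕ → ℕ →
    Prop) : Prop :=
  ∀ (P : Type) [Group P] [Fintype P] (T : Fil p P) (D : Gd p P) (La : LaT D) (L l n : ℕ),
    Pk T D La L l n → Q P T D La L l

/-- the low levels -/
def LowStmt : Prop :=
  AllP p fun P _ _ T D La L _ => ∀ (d : ℕ) (U : Fin d → Type) y (q : ∀ j, U j) i, 1 ≤ i →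
    i + p + 1 ≤ L → (∀ x ∈ Sol y q T i, (lnOf T D La i).Eq1 (rr y q p) (tyOf D x)) ∧
    Nn (P := P) y q T 1 ≤ ((lnOf T D La i).Ker (rr y q p)).ncard ∧
    Nn (P := P) y q T (i + 1) ≤ Nn (P := P) y q T i * ((lnOf T D La i).Ker (rr y q p)).ncard

open Classical in
/-- the recursion -/
def RecStmt : Prop :=
  AllP p fun P _ _ T D La L _ => ∀ (d i : ℕ), 1 ≤ i → i + p + 1 ≤ L →
    ∃ Bs : Finset (Fin d → P), (∀ x ∈ Bs, Cand T i x) ∧
    ∀ (U : Fin d → Type) y (q : ∀ j, U j), Nn (P := P) y q T (i + 1) ≤ Nn (P := P) y q T i +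
      ∑ x ∈ Bs, ∑ z : Fin d → V p (D.k (i + 1 + 1)) with z ≠ 0,
        (Tm y q T D (fun r => (lnOf T D La i).Du r (tyOf D x) z) i x z).re

/-- a true solution has many conjugates -/
def OrbStmt : Prop :=
  AllP p fun P _ _ T _ _ L l => ∀ (d : ℕ) (U : Fin d → Type) y (q : ∀ j, U j) (x : Fin d → P),
    (∀ i, x i ∈ XX T) → Subgroup.closure (Set.range x) ⊔ T.F 2 = ⊤ →
    (∀ i, ⁅x i, Yw y q x i⁆ = 1) → (2 : ℝ) ^ (L - p - l) ≤ Nn (P := P) y q T (L - p)

/-- low complexity of the equations -/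
def LcStmt : Prop :=
  AllT p fun P _ _ T _ _ _ => ∀ D : Gd p P, D.Ok T → ∀ (d : ℕ) (U : Fin d → Type) (l : ℕ)
    (S : Finset (Fin d)) (t : Fin d) (x : Fin d → P) (z : Fin d → V p (D.k (l + 1 + 1)))
    (φ : P → ZMod p), 1 ≤ l → S.card = l + 1 → t ∉ S → (∀ i ∈ S, z i = 0) →
    (∀ c ∈ T.F (l + 1), ∀ h, φ (c * h) = z t ⬝ᵥ D.b (l + 1) (tyOf D x t) (D.e (l + 1) c) + φ h) →
    ∀ y g (q q' : ∀ j, U j), DatEq p (insert t S) x y g q q' → Eqs y q T l x →
      Eqs y q' T l x ∧ Ob y q D l x z - φ (Yw (g * y * g⁻¹) q (msk S x) t) =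
        Ob y q' D l x z - φ (Yw (g * y * g⁻¹) q' (msk S x) t)

open Classical in
/-- iterated commutators of letters -/
def ShiftStmt : Prop :=
  AllT p fun P _ _ T _ _ _ => ∀ (d : ℕ) (U : Fin d → Type) (x : Fin d → P) (s : List (Fin d))
    (ψ φ : P → ZMod p), s.Nodup → s ≠ [] →
    (∀ g ∈ T.F s.length, ∀ h ∈ T.F s.length, ψ (g * h) = ψ g + ψ h) →
    (∀ g ∈ T.F (s.length + 1), ψ g = 0) → (∀ c ∈ T.F s.length, ∀ h, φ (c * h) = ψ c + φ h) →
    ψ (brL (s.map x)) ≠ 0 → ∀ q₀ q₁ : ∀ j, U j, (∀ i ∈ s, q₀ i ≠ q₁ i) →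
    Shf (piV fun ω : Finset (Fin d) => plc (ω.piecewise q₁ q₀) (msk s.toFinset x)).range
      fun h => ∑ ω ∈ s.toFinset.powerset, (-1) ^ ω.card * φ (h ω)

open Classical in
/-- the error terms are small -/
def ErrStmt : Prop :=
  AllP p fun P _ _ T D La L l => ∀ (d : ℕ) (ε : ℝ), 0 < ε → ∃ η, 0 < η ∧
    ∀ (U : Fin d → Type) [∀ j, Fintype (U j)] (w : ∀ j, U j → ℝ) (Y : Type) [Fintype Y]
      [Nonempty Y] (y : (Σ j, U j) → Y → FreeGroup (Σ j, U j)), Prob w → (∀ j u, w j u ≤ η) →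
      EQ p P w y η → ∀ i (x : Fin d → P) z C, l ≤ i → i + p + 1 ≤ L → Cand T i x →
      (∀ j, z j ∈ La i (tyOf D x j)) → Rich (tyOf D x) (i + 1) z →
      ‖𝔼 a : (Σ j, U j) → Y, Ex w fun q => Tm (fun u => y u (a u)) q T D C i x z‖ ≤ ε

open Classical in
/-- the main estimate -/
def MultiStmt : Prop :=
  AllP p fun P _ _ T D La L l => ∀ (B d : ℕ) (ε : ℝ), 0 < ε → ∃ η, 0 < η ∧
    ∀ (U : Fin d → Type) [∀ j, Fintype (U j)] (w : ∀ j, U j → ℝ) (Y : Type) [Fintype Y]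
      [Nonempty Y] (y : (Σ j, U j) → Y → FreeGroup (Σ j, U j)), Prob w → (∀ j u, w j u ≤ η) →
      EQ p P w y η → ∀ X : (∀ j, U j) → Prop, (∀ q, X q → ∀ a : (Σ j, U j) → Y,
        Good T D La L l B (rr (fun u => y u (a u)) q p) ∧ ∃ x : Fin d → P, (∀ i, x i ∈ XX T) ∧
          Subgroup.closure (Set.range x) ⊔ T.F 2 = ⊤ ∧
          ∀ i, ⁅x i, Yw (fun u => y u (a u)) q x i⁆ = 1) →
      (Ex w fun q => if X q then (1 : ℝ) else 0) ≤ B ^ l / 2 ^ (L - p - l) + ε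

end

end Pool.Agent.MP_f68ac8_nt.Zk

end

section

namespace Pool.Agent.MP_f68ac8_nt.Zk
open Zv
open scoped commutatorElement

section
variable {P : Type} [Group P] {F : ℕ → Subgroup P}

theorem comm_ZkLc (hF : NS F) (h1 : F 1 = ⊤) {i : ℕ} (hi : 1 ≤ i) (g : P) {h : P}
    (hh : h ∈ F i) : ⁅g, h⁆ ∈ F (i + 1) := by
  have := hF.comm 1 i le_rfl hi g (h1 ▸ Subgroup.mem_top g) h hh
  rwa [add_comm] at this

theorem normal_ZkLc (hF : NS F) (h1 : F 1 = ⊤) {i : ℕ} (hi : 1 ≤ i) : (F i).Normal := by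
  refine ⟨fun h hh g => ?_⟩
  have e : g * h * g⁻¹ = ⁅g, h⁆ * h := by rw [commutatorElement_def]; group
  rw [e]
  exact mul_mem (hF.anti i (i + 1) hi (Nat.le_succ i) (comm_ZkLc hF h1 hi g hh)) hh

theorem lemA_ZkLc (hC : CornStmt) (hF : NS F) {ι : Type} [DecidableEq ι] (R : Finset ι)
    {f f' : Finset ι → P} (hf : f ∈ Cube F R) (hf' : f' ∈ Cube F R)
    (h : ∀ ω ⊆ R, ω ≠ R → f ω = f' ω) : (f' R)⁻¹ * f R ∈ F (max 1 R.card) :=
  hC P F hF ι R (f'⁻¹ * f) (mul_mem (inv_mem hf') hf) fun ω h1 h2 => by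
    simp [h ω h1 h2]

theorem face_ZkLc {ι : Type} [DecidableEq ι] {R S : Finset ι} (hS : S ⊆ R) {c : P}
    (hc : c ∈ F (max 1 S.card)) : (fun ω => if S ⊆ ω then c else 1) ∈ Cube F R :=
  Subgroup.subset_closure ⟨S, hS, c, hc, rfl⟩

theorem lemB_ZkLc (h1 : F 1 = ⊤) {d : ℕ} {U : Fin d → Type} (q : ∀ j, U j) (x : Fin d → P)
    (R : Finset (Fin d)) (J : Finset (Fin d) → Finset (Fin d))
    (hJ : ∀ j, (∀ ω, j ∈ J ω) ∨ (∀ ω, j ∉ J ω) ∨ ∃ s ∈ R, ∀ ω, j ∈ J ω ↔ s ∈ ω)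
    (w : FreeGroup (Σ j, U j)) :
    (fun ω => FreeGroup.lift (plc q (msk (J ω) x)) w) ∈ Cube F R := by
  induction w using FreeGroup.induction_on with
  | C1 =>
    have e : (fun ω => FreeGroup.lift (plc q (msk (J ω) x)) 1) = 1 := by
      funext ω; simp
    rw [e]; exact one_mem _
  | of l =>
    by_cases hl : l.2 = q l.1
    · rcases hJ l.1 with h | h | ⟨s, hs, h⟩
      · have e : (fun ω => FreeGroup.lift (plc q (msk (J ω) x)) (FreeGroup.of l)) =
            fun ω : Finset (Fin d) => if (∅ : Finset (Fin d)) ⊆ ω then x l.1 else 1 := by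
          funext ω; simp [plc, msk, hl, h ω]
        rw [e]
        exact face_ZkLc (Finset.empty_subset _) (by simp [h1])
      · have e : (fun ω => FreeGroup.lift (plc q (msk (J ω) x)) (FreeGroup.of l)) = 1 := by
          funext ω; simp [plc, msk, h ω]
        rw [e]; exact one_mem _
      · have e : (fun ω => FreeGroup.lift (plc q (msk (J ω) x)) (FreeGroup.of l)) =
            fun ω : Finset (Fin d) => if ({s} : Finset (Fin d)) ⊆ ω then x l.1 else 1 := by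
          funext ω; simp [plc, msk, hl, h ω]
        rw [e]
        exact face_ZkLc (Finset.singleton_subset_iff.2 hs) (by simp [h1])
    · have e : (fun ω => FreeGroup.lift (plc q (msk (J ω) x)) (FreeGroup.of l)) = 1 := by
        funext ω; simp [plc, hl]
      rw [e]; exact one_mem _
  | inv_of l h =>
    have e : (fun ω => FreeGroup.lift (plc q (msk (J ω) x)) (FreeGroup.of l)⁻¹) =
        (fun ω => FreeGroup.lift (plc q (msk (J ω) x)) (FreeGroup.of l))⁻¹ := by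
      funext ω; simp only [map_inv, Pi.inv_apply]
    rw [e]; exact inv_mem h
  | mul a b ha hb =>
    have e : (fun ω => FreeGroup.lift (plc q (msk (J ω) x)) (a * b)) =
        (fun ω => FreeGroup.lift (plc q (msk (J ω) x)) a) *
          (fun ω => FreeGroup.lift (plc q (msk (J ω) x)) b) := by
      funext ω; simp only [map_mul, Pi.mul_apply]
    rw [e]; exact mul_mem ha hb

theorem msk_univ_ZkLc {d : ℕ} (x : Fin d → P) : msk Finset.univ x = x := by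
  funext i; simp [msk]

theorem full_ZkLc (hC : CornStmt) (hF : NS F) (h1 : F 1 = ⊤) {d : ℕ} {U : Fin d → Type}
    (y : (Σ j, U j) → FreeGroup (Σ j, U j)) (q q' : ∀ j, U j) (x : Fin d → P) (i : Fin d)
    (R : Finset (Fin d))
    (h : ∀ J : Finset (Fin d), (∃ s ∈ R, s ∉ J) → Yw y q (msk J x) i = Yw y q' (msk J x) i) :
    (Yw y q' x i)⁻¹ * Yw y q x i ∈ F (max 1 R.card) := by
  have hJ : ∀ j, (∀ ω, j ∈ Rᶜ ∪ ω) ∨ (∀ ω, j ∉ Rᶜ ∪ ω) ∨
      ∃ s ∈ R, ∀ ω, j ∈ Rᶜ ∪ ω ↔ s ∈ ω := fun j => by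
    by_cases hj : j ∈ R
    · exact Or.inr (Or.inr ⟨j, hj, fun ω => by simp [hj]⟩)
    · exact Or.inl fun ω => by simp [hj]
  have := lemA_ZkLc hC hF R (lemB_ZkLc h1 q x R (fun ω => Rᶜ ∪ ω) hJ (y ⟨i, q i⟩))
    (lemB_ZkLc h1 q' x R (fun ω => Rᶜ ∪ ω) hJ (y ⟨i, q' i⟩)) fun ω hω hne => by
      obtain ⟨s, hs, hs'⟩ := Finset.exists_of_ssubset (lt_of_le_of_ne hω hne)
      exact h _ ⟨s, hs, by simp [hs, hs']⟩
  have e : Rᶜ ∪ R = Finset.univ := by ext j; simp [em']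
  simpa only [Yw, e, msk_univ_ZkLc] using this

theorem low_ZkLc (hC : CornStmt) (hF : NS F) (h1 : F 1 = ⊤) {d : ℕ} {U : Fin d → Type}
    (y : (Σ j, U j) → FreeGroup (Σ j, U j)) (q q' : ∀ j, U j) (x : Fin d → P) (i : Fin d)
    (R : Finset (Fin d))
    (h : ∀ J : Finset (Fin d), (∃ s ∈ R, s ∉ J) → Yw y q (msk J x) i = Yw y q' (msk J x) i) :
    (Yw y q' (msk R x) i)⁻¹ * Yw y q (msk R x) i ∈ F (max 1 R.card) := by
  have hJ : ∀ j, (∀ ω, j ∈ ω ∩ R) ∨ (∀ ω, j ∉ ω ∩ R) ∨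
      ∃ s ∈ R, ∀ ω, j ∈ ω ∩ R ↔ s ∈ ω := fun j => by
    by_cases hj : j ∈ R
    · exact Or.inr (Or.inr ⟨j, hj, fun ω => by simp [hj]⟩)
    · exact Or.inr (Or.inl fun ω => by simp [hj])
  have := lemA_ZkLc hC hF R (lemB_ZkLc h1 q x R (fun ω => ω ∩ R) hJ (y ⟨i, q i⟩))
    (lemB_ZkLc h1 q' x R (fun ω => ω ∩ R) hJ (y ⟨i, q' i⟩)) fun ω hω hne => by
      obtain ⟨s, hs, hs'⟩ := Finset.exists_of_ssubset (lt_of_le_of_ne hω hne)
      exact h _ ⟨s, hs, by simp [hs']⟩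
  simpa only [Yw, Finset.inter_self] using this

theorem mix_ZkLc (hC : CornStmt) (hF : NS F) (h1 : F 1 = ⊤) {d : ℕ} {U : Fin d → Type}
    (y : (Σ j, U j) → FreeGroup (Σ j, U j)) (q q' : ∀ j, U j) (x : Fin d → P) (i t : Fin d)
    (S : Finset (Fin d)) (ht : t ∉ S)
    (h : ∀ J : Finset (Fin d), (∃ s ∈ S, s ∉ J) → Yw y q (msk J x) i = Yw y q' (msk J x) i) :
    ((Yw y q' (msk S x) i)⁻¹ * Yw y q (msk S x) i)⁻¹ * ((Yw y q' x i)⁻¹ * Yw y q x i) ∈
      F (S.card + 1) := by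
  set J : Finset (Fin d) → Finset (Fin d) := fun ω => ω ∩ S ∪ if t ∈ ω then Sᶜ else ∅ with hJd
  have hJ : ∀ j, (∀ ω, j ∈ J ω) ∨ (∀ ω, j ∉ J ω) ∨
      ∃ s ∈ insert t S, ∀ ω, j ∈ J ω ↔ s ∈ ω := fun j => by
    by_cases hj : j ∈ S
    · refine Or.inr (Or.inr ⟨j, Finset.mem_insert_of_mem hj, fun ω => ?_⟩)
      by_cases hω : t ∈ ω <;> simp [hJd, hj, hω]
    · refine Or.inr (Or.inr ⟨t, Finset.mem_insert_self _ _, fun ω => ?_⟩)
      by_cases hω : t ∈ ω <;> simp [hJd, hj, hω]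
  have ha := low_ZkLc hC hF h1 y q q' x i S h
  set a := (Yw y q' (msk S x) i)⁻¹ * Yw y q (msk S x) i with had
  have hf := lemB_ZkLc (F := F) h1 q x _ J hJ (y ⟨i, q i⟩)
  have hf' := lemB_ZkLc (F := F) h1 q' x _ J hJ (y ⟨i, q' i⟩)
  have hfa := face_ZkLc (F := F) (Finset.subset_insert t S) ha
  have eS : J S = S := by simp [hJd, ht]
  have eR : J (insert t S) = Finset.univ := by
    ext j; by_cases hj : j ∈ S <;> simp [hJd, hj]
  have key := lemA_ZkLc hC hF (insert t S) (mul_mem (inv_mem hf') hf) hfa fun ω hω hne => by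
    change (Yw y q' (msk (J ω) x) i)⁻¹ * Yw y q (msk (J ω) x) i = if S ⊆ ω then a else 1
    by_cases hS : S ⊆ ω
    · have e : ω = S := by
        refine Finset.Subset.antisymm (fun j hj => ?_) hS
        rcases Finset.mem_insert.1 (hω hj) with rfl | h'
        · exact absurd (Finset.Subset.antisymm hω (Finset.insert_subset hj hS)) hne
        · exact h'
      rw [if_pos hS, e, eS]
    · obtain ⟨s, hs, hs'⟩ := Finset.not_subset.1 hS
      rw [if_neg hS, h (J ω) ⟨s, hs, ?_⟩, inv_mul_cancel]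
      by_cases hω : t ∈ ω <;> simp [hJd, hs, hs', hω]
  rw [Finset.card_insert_of_notMem ht, max_eq_right (Nat.le_add_left 1 _)] at key
  change (if S ⊆ insert t S then a else 1)⁻¹ * ((Yw y q' (msk (J (insert t S)) x) i)⁻¹ *
    Yw y q (msk (J (insert t S)) x) i) ∈ _ at key
  rwa [if_pos (Finset.subset_insert t S), eR, msk_univ_ZkLc] at key

theorem cen_ZkLc {Q : Type} [Group Q] (g Z A B : Q) (hA : ∀ u, Commute u A)
    (hB : ∀ u, Commute u B) : g * B * (Z * A) * (g * B)⁻¹ * (g * Z * g⁻¹)⁻¹ = A := by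
  have e1 : B * (Z * A) * B⁻¹ = Z * A := by rw [← (hB _).eq, mul_inv_cancel_right]
  have e2 : Z * A * Z⁻¹ = A := by rw [(hA _).eq, mul_inv_cancel_right]
  have e3 : g * A * g⁻¹ = A := by rw [(hA _).eq, mul_inv_cancel_right]
  calc _ = g * (B * (Z * A) * B⁻¹ * Z⁻¹) * g⁻¹ := by group
    _ = A := by rw [e1, e2, e3]

theorem conj_ZkLc (hF : NS F) (h1 : F 1 = ⊤) {m : ℕ} (hm : 1 ≤ m) {γ γ' Z Z' : P}
    (hγ : γ'⁻¹ * γ ∈ F m) (hZ : Z'⁻¹ * Z ∈ F m) :
    (γ * Z * γ⁻¹ * (γ' * Z' * γ'⁻¹)⁻¹)⁻¹ * (Z'⁻¹ * Z) ∈ F (m + 1) := by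
  have := normal_ZkLc hF h1 (Nat.le_add_left 1 m)
  have hc : ∀ c ∈ F m, ∀ u : P ⧸ F (m + 1), Commute u (QuotientGroup.mk' (F (m + 1)) c) := by
    intro c hc u
    obtain ⟨v, rfl⟩ := QuotientGroup.mk'_surjective (F (m + 1)) u
    rw [← commutatorElement_eq_one_iff_commute, ← map_commutatorElement, QuotientGroup.mk'_apply,
      QuotientGroup.eq_one_iff]
    exact comm_ZkLc hF h1 hm v hc
  rw [← QuotientGroup.eq]
  change QuotientGroup.mk' (F (m + 1)) _ = QuotientGroup.mk' (F (m + 1)) _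
  rw [← cen_ZkLc (QuotientGroup.mk' (F (m + 1)) γ') (QuotientGroup.mk' (F (m + 1)) Z') _ _
    (hc _ hZ) (hc _ hγ)]
  simp only [map_mul, map_inv, mul_inv_cancel_left]

theorem split_ZkLc (a b c : P) : ⁅a, b * c⁆ = ⁅a, b⁆ * (⁅b, ⁅a, c⁆⁆ * ⁅a, c⁆) := by
  simp only [commutatorElement_def]; group

end

theorem lc_stmt (p : ℕ) [Fact p.Prime] (hC : CornStmt) : LcStmt p := by
  intro P _ _ T L l0 n hT D hD d U l S t x z φ hl hS ht hz hφ y g q q' hE hq
  have hF := hT.ns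
  have h1 := hT.one
  have hm : 1 ≤ l + 1 := Nat.le_add_left 1 l
  have hm' : 1 ≤ l + 1 + 1 := Nat.le_add_left 1 _
  have hcard : (insert t S).card = l + 1 + 1 := by rw [Finset.card_insert_of_notMem ht, hS]
  have econg : ∀ i, 1 ≤ i → ∀ a ∈ T.F i, ∀ b : P, a⁻¹ * b ∈ T.F (i + 1) →
      D.e i b = D.e i a := by
    intro i hi a ha b hb
    have hb' := hF.anti i (i + 1) hi (Nat.le_succ i) hb
    have := hD.add i hi a ha _ hb'
    rw [mul_inv_cancel_left, (hD.zero i hi _ hb').2 hb, add_zero] at this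
    exact this
  have hc : ∀ i, (Yw y q' x i)⁻¹ * Yw y q x i ∈ T.F (l + 1) := by
    intro i
    obtain ⟨R, hR, hRc⟩ := Finset.exists_subset_card_eq (s := (insert t S).erase i) (n := l + 1)
      (by have := Finset.pred_card_le_card_erase (s := insert t S) (a := i); omega)
    have := full_ZkLc hC hF h1 y q q' x i R fun J ⟨s, hs, hs'⟩ =>
      (hE.1 i J ⟨s, Finset.mem_of_mem_erase (hR hs), hs', Finset.ne_of_mem_erase (hR hs)⟩).1
    rwa [hRc, max_eq_right hm] at this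
  have hsp : ∀ i, ⁅x i, Yw y q x i⁆ = ⁅x i, Yw y q' x i⁆ *
      (⁅Yw y q' x i, ⁅x i, (Yw y q' x i)⁻¹ * Yw y q x i⁆⁆ *
        ⁅x i, (Yw y q' x i)⁻¹ * Yw y q x i⁆) := fun i => by
    rw [← split_ZkLc, mul_inv_cancel_left]
  have hw : ∀ i, ⁅x i, (Yw y q' x i)⁻¹ * Yw y q x i⁆ ∈ T.F (l + 1 + 1) := fun i =>
    comm_ZkLc hF h1 hm _ (hc i)
  have hw2 : ∀ i, ⁅Yw y q' x i, ⁅x i, (Yw y q' x i)⁻¹ * Yw y q x i⁆⁆ ∈ T.F (l + 1 + 1 + 1) :=
    fun i => comm_ZkLc hF h1 hm' _ (hw i)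
  have hw3 : ∀ i, ⁅Yw y q' x i, ⁅x i, (Yw y q' x i)⁻¹ * Yw y q x i⁆⁆ ∈ T.F (l + 1 + 1) :=
    fun i => hF.anti _ _ hm' (Nat.le_succ _) (hw2 i)
  have hq' : Eqs y q' T l x := fun i => by
    have := hq i
    rw [hsp i] at this
    exact (Subgroup.mul_mem_cancel_right _ (mul_mem (hw3 i) (hw i))).1 this
  refine ⟨hq', ?_⟩
  have he : ∀ i, D.e (l + 1 + 1) ⁅x i, Yw y q x i⁆ = D.e (l + 1 + 1) ⁅x i, Yw y q' x i⁆ +
      D.b (l + 1) (tyOf D x i) (D.e (l + 1) ((Yw y q' x i)⁻¹ * Yw y q x i)) := fun i => by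
    rw [hsp i, hD.add _ hm' _ (hq' i) _ (mul_mem (hw3 i) (hw i)), hD.add _ hm' _ (hw3 i) _ (hw i),
      (hD.zero _ hm' _ (hw3 i)).2 (hw2 i), zero_add, hD.br _ hm _ _ (hc i)]
    rfl
  have hOb : Ob y q D l x z = Ob y q' D l x z +
      z t ⬝ᵥ D.b (l + 1) (tyOf D x t) (D.e (l + 1) ((Yw y q' x t)⁻¹ * Yw y q x t)) := by
    simp only [Ob, he, dotProduct_add, Finset.sum_add_distrib]
    congr 1
    refine Finset.sum_eq_single t (fun i _ hit => ?_) (fun h => absurd (Finset.mem_univ t) h)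
    by_cases hi : i ∈ S
    · rw [hz i hi, zero_dotProduct]
    · have hi' : i ∉ insert t S := fun h => (Finset.mem_insert.1 h).elim hit hi
      have := full_ZkLc hC hF h1 y q q' x i (insert t S) fun J ⟨s, hs, hs'⟩ =>
        (hE.1 i J ⟨s, hs, hs', fun h => hi' (h ▸ hs)⟩).1
      rw [hcard, max_eq_right hm'] at this
      rw [(hD.zero _ hm _ (hc i)).2 this, map_zero, dotProduct_zero]
  have hy : ∀ J : Finset (Fin d), (∃ s ∈ S, s ∉ J) →
      Yw y q (msk J x) t = Yw y q' (msk J x) t ∧ Yw g q (msk J x) t = Yw g q' (msk J x) t :=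
    fun J ⟨s, hs, hs'⟩ => hE.1 t J ⟨s, Finset.mem_insert_of_mem hs, hs', fun h => ht (h ▸ hs)⟩
  have ha := low_ZkLc hC hF h1 y q q' x t S fun J hJ => (hy J hJ).1
  have hγ := low_ZkLc hC hF h1 g q q' x t S fun J hJ => (hy J hJ).2
  have hac := mix_ZkLc hC hF h1 y q q' x t t S ht fun J hJ => (hy J hJ).1
  rw [hS, max_eq_right hm] at ha hγ
  rw [hS] at hac
  have hu := conj_ZkLc hF h1 hm hγ ha
  have eZ : ∀ r : ∀ j, U j, Yw (g * y * g⁻¹) r (msk S x) t =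
      Yw g r (msk S x) t * Yw y r (msk S x) t * (Yw g r (msk S x) t)⁻¹ := fun r => by
    simp only [Yw, Pi.mul_apply, Pi.inv_apply, map_mul, map_inv]
  rw [← eZ, ← eZ] at hu
  set Z := Yw (g * y * g⁻¹) q (msk S x) t
  set Z' := Yw (g * y * g⁻¹) q' (msk S x) t
  have hum : Z * Z'⁻¹ ∈ T.F (l + 1) := by
    have := hF.anti _ _ hm (Nat.le_succ _) hu
    exact (Subgroup.inv_mem_iff _).1 ((Subgroup.mul_mem_cancel_right _ ha).1 this)
  have e1 := econg _ hm _ hum _ hu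
  have e2 := econg _ hm _ ha _ hac
  have e3 := hφ _ hum Z'
  rw [inv_mul_cancel_right, ← e1, ← e2] at e3
  rw [hOb, e3]
  ring

end Pool.Agent.MP_f68ac8_nt.Zk

end

section

namespace Pool.Agent.MP_f68ac8_nt.Zk

open Zv
open scoped commutatorElement

lemma conj_ZkCorn {G : Type} [Group G] {H : ℕ → Subgroup G} (ha : Antitone H)
    (hc : ∀ a b, ∀ g ∈ H a, ∀ h ∈ H b, ⁅g, h⁆ ∈ H (a + b)) {j k : ℕ} {x y : G} (hx : x ∈ H j)
    (hy : y ∈ H k) : x * y * x⁻¹ ∈ H k := by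
  have e : x * y * x⁻¹ = ⁅x, y⁆ * y := by
    rw [commutatorElement_def]
    group
  rw [e]
  exact mul_mem (ha (Nat.le_add_left k j) (hc j k x hx y hy)) hy

/-- the derived filtration on pairs -/
def DH_ZkCorn {G : Type} [Group G] {H : ℕ → Subgroup G} (ha : Antitone H)
    (hc : ∀ a b, ∀ g ∈ H a, ∀ h ∈ H b, ⁅g, h⁆ ∈ H (a + b)) (k : ℕ) : Subgroup (G × G) where
  carrier := {x | x.1 ∈ H k ∧ x.1⁻¹ * x.2 ∈ H (k + 1)}
  one_mem' := ⟨one_mem _, by simp⟩
  mul_mem' := by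
    rintro ⟨a, a'⟩ ⟨b, b'⟩ ⟨h1, h2⟩ ⟨h3, h4⟩
    refine ⟨mul_mem h1 h3, ?_⟩
    have := mul_mem (conj_ZkCorn ha hc (inv_mem h3) h2) h4
    have e : (a * b)⁻¹ * (a' * b') = b⁻¹ * (a⁻¹ * a') * b⁻¹⁻¹ * (b⁻¹ * b') := by group
    change (a * b)⁻¹ * (a' * b') ∈ _
    rw [e]
    exact this
  inv_mem' := by
    rintro ⟨a, a'⟩ ⟨h1, h2⟩
    refine ⟨inv_mem h1, ?_⟩
    have := conj_ZkCorn ha hc h1 (inv_mem h2)
    have e : a⁻¹⁻¹ * a'⁻¹ = a * (a⁻¹ * a')⁻¹ * a⁻¹ := by group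
    change a⁻¹⁻¹ * a'⁻¹ ∈ _
    rw [e]
    exact this

lemma gen_ZkCorn {ι : Type} [DecidableEq ι] (T : Finset ι) : ∀ (G : Type) [Group G]
    (H : ℕ → Subgroup G), Antitone H → (∀ a b, ∀ g ∈ H a, ∀ h ∈ H b, ⁅g, h⁆ ∈ H (a + b)) →
    ∀ f ∈ Subgroup.closure {f : Finset ι → G | ∃ S ⊆ T, ∃ c ∈ H S.card,
      f = fun ω => if S ⊆ ω then c else 1}, (∀ ω ⊆ T, ω ≠ T → f ω = 1) → f T ∈ H T.card := by
  induction T using Finset.induction_on with
  | empty =>
    intro G _ H ha _ f hf _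
    refine (Subgroup.closure_le ((H _).comap (Pi.evalMonoidHom (fun _ => G) ∅))).2 ?_ hf
    rintro _ ⟨S, -, c, hc, rfl⟩
    change (if S ⊆ ∅ then c else 1) ∈ H 0
    split_ifs
    · exact ha (Nat.zero_le _) hc
    · exact one_mem _
  | insert i T hi ih =>
    intro G _ H ha hc f hf h1
    let φ : (Finset ι → G) →* (Finset ι → G × G) :=
      MonoidHom.mk' (fun f ω => (f (ω.erase i), f (insert i ω))) fun _ _ => rfl
    have key := ih (G × G) (DH_ZkCorn ha hc)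
      (fun a b hab x hx => ⟨ha hab hx.1, ha (Nat.succ_le_succ hab) hx.2⟩)
      (by
        rintro a b ⟨g, g'⟩ ⟨h1, h2⟩ ⟨h, h'⟩ ⟨h3, h4⟩
        refine ⟨hc a b g h1 h h3, ?_⟩
        have h5 : h' ∈ H b := by
          have := mul_mem h3 (ha (Nat.le_succ b) h4)
          rwa [mul_inv_cancel_left] at this
        have h6 : ⁅g⁻¹ * g', h'⁆ ∈ H (a + b + 1) := by
          have := hc _ _ _ h2 _ h5
          rwa [Nat.add_right_comm] at this
        have h7 : ⁅g, h⁆⁻¹ * g ∈ H 0 :=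
          mul_mem (inv_mem (ha (Nat.zero_le _) (hc a b g h1 h h3))) (ha (Nat.zero_le _) h1)
        have := mul_mem (conj_ZkCorn ha hc h7 h6) (conj_ZkCorn ha hc h3 (hc _ _ _ h1 _ h4))
        have e : ⁅g, h⁆⁻¹ * ⁅g', h'⁆ = ⁅g, h⁆⁻¹ * g * ⁅g⁻¹ * g', h'⁆ * (⁅g, h⁆⁻¹ * g)⁻¹ *
            (h * ⁅g, h⁻¹ * h'⁆ * h⁻¹) := by
          simp only [commutatorElement_def]
          group
        change ⁅g, h⁆⁻¹ * ⁅g', h'⁆ ∈ _
        rw [e]
        exact this) (φ f)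
      (by
        refine Subgroup.mem_comap.1 ((Subgroup.closure_le _).2 ?_ hf)
        rintro _ ⟨S, hS, c, hcS, rfl⟩
        refine Subgroup.mem_comap.2 (Subgroup.subset_closure ?_)
        by_cases hiS : i ∈ S
        · refine ⟨S.erase i, Finset.subset_insert_iff.1 hS, (1, c), ⟨one_mem _, ?_⟩, ?_⟩
          · rw [Finset.card_erase_add_one hiS]
            simpa using hcS
          · funext ω
            change (if S ⊆ ω.erase i then c else 1, if S ⊆ insert i ω then c else 1) = _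
            rw [if_neg fun h => Finset.notMem_erase i ω (h hiS)]
            simp only [Finset.subset_insert_iff]
            split_ifs <;> rfl
        · refine ⟨S, (Finset.subset_insert_iff_of_notMem hiS).1 hS, (c, c), ⟨hcS, by simp⟩, ?_⟩
          funext ω
          change (if S ⊆ ω.erase i then c else 1, if S ⊆ insert i ω then c else 1) = _
          simp only [Finset.subset_erase, Finset.subset_insert_iff_of_notMem hiS, hiS,
            not_false_eq_true, and_true]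
          split_ifs <;> rfl)
      (fun ω hω hne => by
        refine Prod.ext (h1 _ ?_ ?_) (h1 _ (Finset.insert_subset_insert i hω) fun h => hne ?_)
        · exact ((Finset.erase_subset i ω).trans hω).trans (Finset.subset_insert i T)
        · exact fun h => Finset.notMem_erase i ω (h ▸ Finset.mem_insert_self i T)
        · rw [← Finset.erase_insert hi, ← h, Finset.erase_insert fun h' => hi (hω h')])
    have h2 : (f (T.erase i))⁻¹ * f (insert i T) ∈ H (T.card + 1) := key.2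
    rw [h1 _ ((Finset.erase_subset i T).trans (Finset.subset_insert i T))
      (fun h => Finset.notMem_erase i T (h ▸ Finset.mem_insert_self i T)), inv_one, one_mul] at h2
    rwa [Finset.card_insert_of_notMem hi]

theorem corn_stmt : CornStmt := by
  intro G _ H hH ι _ T f hf h1
  refine gen_ZkCorn T G (fun i => H (max 1 i))
    (fun a b hab => hH.anti _ _ (le_max_left _ _) (max_le_max le_rfl hab))
    (fun a b g hg h hh => ?_) f hf h1
  exact hH.anti _ _ (le_max_left _ _) (by omega)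
    (hH.comm _ _ (le_max_left _ _) (le_max_left _ _) g hg h hh)

lemma pow_ZkCorn {G : Type} [Group G] {H : ℕ → Subgroup G} {m j : ℕ} {c : G}
    (hc : c ∈ H (max 1 j)) :
    (fun ω : Finset (Fin m) => c ^ ω.card.choose j) ∈ Cube H Finset.univ := by
  have h : ∀ 𝒮 : Finset (Finset (Fin m)), (∀ S ∈ 𝒮, S.card = j) →
      (fun ω : Finset (Fin m) => c ^ (𝒮.filter (· ⊆ ω)).card) ∈ Cube H Finset.univ := by
    intro 𝒮
    induction 𝒮 using Finset.induction_on with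
    | empty =>
      intro _
      simp only [Finset.filter_empty, Finset.card_empty, pow_zero]
      exact (Cube H Finset.univ).one_mem
    | insert S 𝒮 hS ih =>
      intro h
      have h1 : (fun ω : Finset (Fin m) => if S ⊆ ω then c else 1) ∈ Cube H Finset.univ :=
        Subgroup.subset_closure ⟨S, Finset.subset_univ _, c,
          by rwa [h S (Finset.mem_insert_self _ _)], rfl⟩
      have h2 := mul_mem (ih fun S' hS' => h S' (Finset.mem_insert_of_mem hS')) h1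
      have e : (fun ω : Finset (Fin m) => c ^ ((insert S 𝒮).filter (· ⊆ ω)).card) =
          (fun ω : Finset (Fin m) => c ^ (𝒮.filter (· ⊆ ω)).card) *
            fun ω : Finset (Fin m) => if S ⊆ ω then c else 1 := by
        funext ω
        rw [Pi.mul_apply, Finset.filter_insert]
        split_ifs
        · rw [Finset.card_insert_of_notMem fun h => hS (Finset.mem_filter.1 h).1, pow_succ]
        · rw [mul_one]
      rw [e]
      exact h2
  have e : (fun ω : Finset (Fin m) => c ^ ω.card.choose j) = fun ω : Finset (Fin m) =>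
      c ^ ((Finset.powersetCard j Finset.univ).filter (· ⊆ ω)).card := by
    funext ω
    rw [← Finset.card_powersetCard]
    congr 2
    ext S
    simp [Finset.mem_powersetCard, and_comm]
  rw [e]
  exact h _ fun S hS => (Finset.mem_powersetCard.1 hS).2

/-- interpolation of a sequence by binomial powers -/
def Q_ZkCorn {G : Type} [Group G] (f : ℕ → G) : ℕ → ℕ → G
  | 0, _ => 1
  | k + 1, n => Q_ZkCorn f k n * ((Q_ZkCorn f k k)⁻¹ * f k) ^ n.choose k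

lemma Q_eq_ZkCorn {G : Type} [Group G] (f : ℕ → G) (k : ℕ) : ∀ n < k, Q_ZkCorn f k n = f n := by
  induction k with
  | zero => exact fun n hn => absurd hn (Nat.not_lt_zero n)
  | succ k ih =>
    intro n hn
    rw [Q_ZkCorn]
    rcases Nat.lt_succ_iff_lt_or_eq.1 hn with h | rfl
    · rw [Nat.choose_eq_zero_of_lt h, pow_zero, mul_one, ih n h]
    · rw [Nat.choose_self, pow_one, mul_inv_cancel_left]

lemma Q_mem_ZkCorn (hC : CornStmt) {G : Type} [Group G] {H : ℕ → Subgroup G} (hH : NS H)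
    {f : ℕ → G} (hf : ∀ m, (fun ω : Finset (Fin m) => f ω.card) ∈ Cube H Finset.univ) (k : ℕ) :
    (Q_ZkCorn f k k)⁻¹ * f k ∈ H (max 1 k) := by
  have step : ∀ k, (fun ω : Finset (Fin k) => Q_ZkCorn f k ω.card) ∈ Cube H Finset.univ →
      (Q_ZkCorn f k k)⁻¹ * f k ∈ H (max 1 k) := by
    intro k hk
    have := hC G H hH (Fin k) Finset.univ _ (mul_mem (inv_mem hk) (hf k)) fun ω _ hω => by
      have : ω.card < k := by simpa using Finset.card_lt_card (Finset.ssubset_univ_iff.2 hω)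
      change (Q_ZkCorn f k ω.card)⁻¹ * f ω.card = 1
      rw [Q_eq_ZkCorn f k _ this, inv_mul_cancel]
    simpa using this
  have all : ∀ k m, (fun ω : Finset (Fin m) => Q_ZkCorn f k ω.card) ∈ Cube H Finset.univ := by
    intro k
    induction k with
    | zero => exact fun m => (Cube H Finset.univ).one_mem
    | succ k ih => exact fun m => mul_mem (ih m) (pow_ZkCorn (step k (ih k)))
  exact step k (all k k)

theorem hp_stmt (p : ℕ) [Fact p.Prime] (hC : CornStmt) : HpStmt p := by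
  intro G _ H hH W hW1 hW2 g hg h hh
  have hp : p.Prime := Fact.out
  have h1 : ∀ {m : ℕ} {x : G}, x ∈ H 1 →
      (fun ω : Finset (Fin m) => x ^ ω.card) ∈ Cube H Finset.univ := fun hx => by
    simpa only [Nat.choose_one_right] using pow_ZkCorn (j := 1) hx
  have hc := Q_mem_ZkCorn hC hH (f := fun n => ((g * h) ^ n)⁻¹ * (g ^ n * h ^ n)) fun m =>
    mul_mem (inv_mem (h1 (mul_mem hg hh))) (mul_mem (h1 hg) (h1 hh))
  have h2 : ∀ k ≤ p, Q_ZkCorn (fun n => ((g * h) ^ n)⁻¹ * (g ^ n * h ^ n)) k p ∈ W := by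
    intro k
    induction k with
    | zero => exact fun _ => W.one_mem
    | succ k ih =>
      intro hk
      refine mul_mem (ih (by omega)) ?_
      rcases Nat.lt_or_ge k 2 with h2 | h2
      · interval_cases k <;> simp [Q_ZkCorn]
      · obtain ⟨t, ht⟩ := hp.dvd_choose_self (by omega) hk
        rw [ht, pow_mul]
        exact pow_mem (hW1 _ (hH.anti _ _ (by norm_num) (le_max_of_le_right h2) (hc k))) t
  have h3 := hc p
  rw [max_eq_right hp.one_le] at h3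
  have := mul_mem (h2 p le_rfl) (hW2 h3)
  rwa [mul_inv_cancel_left] at this

end Pool.Agent.MP_f68ac8_nt.Zk

end

section

namespace Pool.Agent.MP_f68ac8_nt.Zk

open Zv
open scoped commutatorElement

section
variable {G Q : Type} [Group G] [Group Q]

theorem normal_ZkOrb {H : ℕ → Subgroup G} (hH : NS H) (h1 : H 1 = ⊤) {i : ℕ} (hi : 1 ≤ i) :
    (H i).Normal := ⟨fun h hh g => by
  rw [show g * h * g⁻¹ = ⁅g, h⁆ * h by rw [commutatorElement_def]; group]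
  exact mul_mem (hH.anti _ _ hi (by omega) (hH.comm 1 i le_rfl hi g (h1 ▸ trivial) h hh)) hh⟩

theorem cm_ZkOrb (N : Subgroup G) [N.Normal] (a b : G) :
    ⁅a, b⁆ ∈ N ↔ Commute (QuotientGroup.mk' N a) (QuotientGroup.mk' N b) := by
  rw [← commutatorElement_eq_one_iff_commute, ← map_commutatorElement, ← MonoidHom.mem_ker,
    QuotientGroup.ker_mk']

theorem yw_ZkOrb {d : ℕ} {U : Fin d → Type} (y : (Σ j, U j) → FreeGroup (Σ j, U j))
    (q : ∀ j, U j) (f : G →* Q) (x : Fin d → G) (i : Fin d) :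
    f (Yw y q x i) = Yw y q (fun j => f (x j)) i := by
  have h : f.comp (FreeGroup.lift (plc q x)) = FreeGroup.lift (plc q fun j => f (x j)) :=
    FreeGroup.ext_hom _ _ fun l => by
      rw [MonoidHom.comp_apply, FreeGroup.lift_apply_of, FreeGroup.lift_apply_of, plc, plc,
        apply_ite f, map_one]
  exact DFunLike.congr_fun h _

theorem map_ZkOrb (f : G →* Q) : ∀ l : List G, f (brL l) = brL (l.map f)
  | [] => map_one f
  | [_] => rfl
  | a :: b :: l => by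
    rw [brL, map_commutatorElement, map_ZkOrb f (b :: l)]
    rfl

theorem one_ZkOrb : ∀ l : List G, 1 ∈ l → brL l = 1
  | [], _ => rfl
  | [_], h => (List.mem_singleton.1 h).symm
  | a :: b :: l, h => by
    rw [brL]
    rcases List.mem_cons.1 h with k | k
    · rw [← k, commutatorElement_one_left]
    · rw [one_ZkOrb (b :: l) k, commutatorElement_one_right]

/-- the centraliser modulo a normal subgroup -/
def cen_ZkOrb {ι : Type} (N : Subgroup G) (hN : N.Normal) (x : ι → G) : Subgroup G where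
  carrier := {g | ∀ i, ⁅g, x i⁆ ∈ N}
  one_mem' := fun i => by rw [commutatorElement_one_left]; exact one_mem _
  mul_mem' := fun {g h} hg hh i => by
    rw [show ⁅g * h, x i⁆ = g * ⁅h, x i⁆ * g⁻¹ * ⁅g, x i⁆ by
      simp only [commutatorElement_def]; group]
    exact mul_mem (hN.conj_mem _ (hh i) g) (hg i)
  inv_mem' := fun {g} hg i => by
    rw [show ⁅g⁻¹, x i⁆ = g⁻¹ * ⁅g, x i⁆⁻¹ * g⁻¹⁻¹ by simp only [commutatorElement_def]; group]
    exact hN.conj_mem _ (inv_mem (hg i)) g⁻¹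

theorem index_ZkOrb [Finite G] (C : ℕ → Subgroup G) (l : ℕ) : ∀ k : ℕ,
    (∀ j, l ≤ j → j < l + k → C (j + 1) < C j) → 2 ^ k ≤ (C (l + k)).index
  | 0, _ => Nat.pos_of_ne_zero Subgroup.index_ne_zero_of_finite
  | k + 1, h => by
    have h1 := h (l + k) (by omega) (by omega)
    have h2 : (C (l + k + 1)).relIndex (C (l + k)) ≠ 1 := fun e =>
      h1.not_ge (Subgroup.relIndex_eq_one.1 e)
    have h3 : (C (l + k + 1)).relIndex (C (l + k)) ≠ 0 := Subgroup.index_ne_zero_of_finite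
    rw [← add_assoc, ← Subgroup.relIndex_mul_index h1.le, pow_succ']
    exact Nat.mul_le_mul (by omega) (index_ZkOrb C l k fun j a b => h j a (by omega))

theorem mem_ZkOrb {p : ℕ} [Fact p.Prime] (hS : SpanStmt p) {H : ℕ → Subgroup G} (hH : NS H)
    (h1 : H 1 = ⊤) {l : List G} (hl : l ≠ []) : brL l ∈ H l.length :=
  ((hS G H hH h1).1 l l hl (List.forall₂_same.2 fun g _ => by
    rw [inv_mul_cancel]; exact one_mem _)).1

theorem sol_ZkOrb {p d : ℕ} {T : Fil p G} (hH : NS T.F) (h1 : T.F 1 = ⊤) {U : Fin d → Type}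
    (y : (Σ j, U j) → FreeGroup (Σ j, U j)) (q : ∀ j, U j) {x : Fin d → G}
    (hx : ∀ i, x i ∈ XX T) (hc : Subgroup.closure (Set.range x) ⊔ T.F 2 = ⊤)
    (he : ∀ i, ⁅x i, Yw y q x i⁆ = 1) {m : ℕ} (hm : 1 ≤ m) (g : G) {v : Fin d → G}
    (hv : ∀ i, v i ∈ T.F (m + 1)) : (fun i => g * x i * g⁻¹ * v i) ∈ Sol y q T m := by
  have ht : ∀ a : G, a ∈ T.F 1 := fun a => h1 ▸ trivial
  refine ⟨⟨fun i => ⟨g * x i * g⁻¹, ⟨?_, ?_⟩, ?_⟩, ?_⟩, fun i => ?_⟩
  · rw [conj_pow, (hx i).1, mul_one, mul_inv_cancel]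
  · rw [map_mul, map_mul, map_inv, mul_inv_cancel_comm, (hx i).2]
  · rw [inv_mul_cancel_left]
    exact hv i
  · rw [eq_top_iff, ← hc]
    refine sup_le ((Subgroup.closure_le _).2 ?_) le_sup_right
    rintro _ ⟨i, rfl⟩
    have e : x i = ⁅g, x i⁆⁻¹ * (g * x i * g⁻¹ * v i) * (v i)⁻¹ := by
      rw [commutatorElement_def]; group
    rw [e]
    exact mul_mem (mul_mem
      (Subgroup.mem_sup_right (inv_mem (hH.comm 1 1 le_rfl le_rfl _ (ht _) _ (ht _))))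
      (Subgroup.mem_sup_left (Subgroup.subset_closure ⟨i, rfl⟩)))
      (Subgroup.mem_sup_right (inv_mem (hH.anti 2 _ one_le_two (by omega) (hv i))))
  · have := normal_ZkOrb hH h1 (show 1 ≤ m + 1 by omega)
    have := normal_ZkOrb hH h1 (show 1 ≤ m + 1 + 1 by omega)
    have k1 : ⁅g * x i * g⁻¹, Yw y q (fun j => g * x j * g⁻¹) i⁆ = 1 := by
      have k := congrArg (MulAut.conj g).toMonoidHom (he i)
      rwa [map_one, map_commutatorElement, yw_ZkOrb] at k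
    have k2 : (Yw y q (fun j => g * x j * g⁻¹) i)⁻¹ * Yw y q (fun j => g * x j * g⁻¹ * v j) i ∈
        T.F (m + 1) := by
      rw [← QuotientGroup.eq, ← QuotientGroup.mk'_apply, ← QuotientGroup.mk'_apply, yw_ZkOrb,
        yw_ZkOrb]
      refine congrArg (fun a => Yw y q a i) (funext fun j => QuotientGroup.eq.2 ?_)
      rw [inv_mul_cancel_left]
      exact hv j
    have k3 : ∀ a, ∀ b ∈ T.F (m + 1), Commute (QuotientGroup.mk' (T.F (m + 1 + 1)) b)
        (QuotientGroup.mk' (T.F (m + 1 + 1)) a) := fun a b hb =>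
      (cm_ZkOrb _ _ _).1 (hH.comm _ 1 (by omega) le_rfl b hb a (ht a))
    have k4 := (cm_ZkOrb (T.F (m + 1 + 1)) _ _).1 (k1 ▸ one_mem _)
    rw [cm_ZkOrb, ← mul_inv_cancel_left (Yw y q (fun j => g * x j * g⁻¹) i)
      (Yw y q (fun j => g * x j * g⁻¹ * v j) i), map_mul _ _ (v i)]
    refine Commute.mul_left ?_ (k3 _ _ (hv i))
    rw [map_mul _ (Yw y q (fun j => g * x j * g⁻¹) i)]
    exact k4.mul_right (k3 _ _ k2).symm

end

theorem orb_stmt (p : ℕ) [Fact p.Prime] (hS : SpanStmt p) : OrbStmt p := by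
  intro P _ _ T D La L l n hP d U y q x hx hc he
  have hT := hP.ts
  have hb := hP.big
  have hl := hT.pos
  have hp : 2 ≤ p := (Fact.out : p.Prime).two_le
  have hN : ∀ j, (T.F (j + 1)).Normal := fun j => normal_ZkOrb hT.ns hT.one (by omega)
  have h1 := index_ZkOrb (fun j => cen_ZkOrb (T.F (j + 1)) (hN j) x) l (L - p - l) (by
    intro j a b
    obtain ⟨g, g1, g2⟩ := SetLike.not_le_iff_exists.1 (hT.v4 (j + 1) (by omega) (by omega))
    obtain ⟨c, g3⟩ := Function.ne_iff.1 (mt (hP.gd.zero _ (by omega) g g1).1 g2)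
    have z0 : ∀ g ∈ T.F (j + 1 + 1), D.e (j + 1) g c = 0 := fun g hg =>
      congrFun ((hP.gd.zero _ (by omega) g (hT.ns.anti _ _ (by omega) (by omega) hg)).2 hg) c
    obtain ⟨s, s1, s2, s3⟩ := (hS P T.F hT.ns hT.one).2 (j + 1) (by omega) (hT.v3 _ (by omega)) _
      hc (fun g => D.e (j + 1) g c)
      (fun g hg h hh => congrFun (hP.gd.add _ (by omega) g hg h hh) c) z0 ⟨g, g1, g3⟩
    match s, s1, s2, s3 with
    | [], s1, _, _ => simp at s1
    | [_], s1, _, _ => simp at s1; omega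
    | u :: w :: s, s1, s2, s3 =>
      obtain ⟨i, rfl⟩ := s2 u List.mem_cons_self
      have k := mem_ZkOrb hS hT.ns hT.one (List.cons_ne_nil w s)
      rw [show (w :: s).length = j by simpa using s1] at k
      refine SetLike.lt_iff_le_and_exists.2 ⟨fun g hg i =>
        hT.ns.anti _ _ (by omega) (by omega) (hg i), brL (w :: s), fun i =>
        hT.ns.comm j 1 (by omega) le_rfl _ k _ (hT.one ▸ trivial), fun h => s3 (z0 _ ?_)⟩
      rw [brL, ← commutatorElement_inv]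
      exact inv_mem (h i))
  rw [show l + (L - p - l) = L - p by omega] at h1
  have h2 := Nat.card_le_card_of_injective (β := Sol y q T (L - p))
    (fun a : (P ⧸ cen_ZkOrb (T.F (L - p + 1)) (hN _) x) × (Fin d → T.F (L - p + 1)) =>
      ⟨_, sol_ZkOrb hT.ns hT.one y q hx hc he (by omega) a.1.out fun i => (a.2 i).2⟩) (by
    rintro ⟨a, v⟩ ⟨b, w⟩ h
    have k : ∀ i, a.out * x i * a.out⁻¹ * v i = b.out * x i * b.out⁻¹ * w i := fun i =>
      congrFun (congrArg Subtype.val h) i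
    have e : a = b := by
      rw [← a.out_eq', ← b.out_eq', QuotientGroup.eq]
      intro i
      rw [show ⁅a.out⁻¹ * b.out, x i⁆ = a.out⁻¹ * (b.out * x i * b.out⁻¹ * w i) * (w i : P)⁻¹ *
        a.out * (x i)⁻¹ by rw [commutatorElement_def]; group, ← k,
        show a.out⁻¹ * (a.out * x i * a.out⁻¹ * v i) * (w i : P)⁻¹ * a.out * (x i)⁻¹ =
          x i * a.out⁻¹ * (v i * (w i : P)⁻¹) * (x i * a.out⁻¹)⁻¹ by group]
      exact (hN _).conj_mem _ (mul_mem (v i).2 (inv_mem (w i).2)) _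
    subst e
    exact Prod.ext rfl (funext fun i => Subtype.ext (mul_left_cancel (k i))))
  rw [Nat.card_prod, Nat.card_fun, Nat.card_coe_set_eq, Nat.card_eq_fintype_card (α := Fin d),
    Fintype.card_fin] at h2
  have h3 : (0 : ℝ) < Nat.card (T.F (L - p + 1)) := by exact_mod_cast Nat.card_pos
  rw [Nn, le_div_iff₀ (by positivity)]
  exact_mod_cast (Nat.mul_le_mul_right _ h1).trans h2

theorem shift_stmt (p : ℕ) [Fact p.Prime] (hS : SpanStmt p) : ShiftStmt p := by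
  intro P _ _ T L l n hT d U x s ψ φ _ h0 h1 h2 h3 h4 q₀ q₁ hq
  have hm : 1 ≤ s.length := List.length_pos_iff.2 h0
  have hc : brL (s.map x) ∈ T.F s.length := by
    simpa using mem_ZkOrb hS hT.ns hT.one (l := s.map x) (by simpa using h0)
  refine ⟨_, ⟨brL (s.map fun i => FreeGroup.of ⟨i, q₁ i⟩), rfl⟩,
    (-1) ^ s.toFinset.card * ψ (brL (s.map x)), mul_ne_zero (pow_ne_zero _ (by simp)) h4,
    fun k _ h _ => ?_⟩
  have hz : ∀ ω : Finset (Fin d),
      piV (fun ω : Finset (Fin d) => plc (ω.piecewise q₁ q₀) (msk s.toFinset x))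
        (brL (s.map fun i => FreeGroup.of ⟨i, q₁ i⟩)) ω =
      brL (s.map fun i => if i ∈ ω then x i else 1) := fun ω => by
    refine (map_ZkOrb ((Pi.evalMonoidHom _ ω).comp (piV _)) _).trans (congrArg brL ?_)
    rw [List.map_map]
    refine List.map_congr_left fun i hi => ?_
    by_cases e : i ∈ ω
    · simp [piV, plc, msk, e, hi]
    · simp [piV, plc, e, (hq i hi).symm]
  beta_reduce
  rw [← Finset.sum_erase_add _ _ (Finset.mem_powerset_self _),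
    ← Finset.sum_erase_add _ _ (Finset.mem_powerset_self _), add_assoc]
  refine congrArg₂ _ (Finset.sum_congr rfl fun ω hω => ?_) ?_
  · obtain ⟨w1, w2⟩ := Finset.mem_erase.1 hω
    obtain ⟨i, i1, i2⟩ := Finset.exists_of_ssubset
      (Finset.ssubset_iff_subset_ne.2 ⟨Finset.mem_powerset.1 w2, w1⟩)
    rw [Pi.mul_apply, Pi.mul_apply, Pi.mul_apply, hz,
      one_ZkOrb _ (List.mem_map.2 ⟨i, List.mem_toFinset.1 i1, if_neg i2⟩), mul_one, Pi.inv_apply,
      mul_inv_cancel, one_mul]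
  · have k1 : ⁅k s.toFinset, brL (s.map x)⁆ ∈ T.F (s.length + 1) := by
      rw [add_comm]
      exact hT.ns.comm 1 _ le_rfl hm _ (hT.one ▸ trivial) _ hc
    have k2 := hT.ns.anti _ _ hm (Nat.le_succ _) k1
    rw [Pi.mul_apply, Pi.mul_apply, Pi.mul_apply, hz, Pi.inv_apply,
      List.map_congr_left (g := x) fun i hi => if_pos (List.mem_toFinset.2 hi),
      show k s.toFinset * brL (s.map x) * (k s.toFinset)⁻¹ =
        ⁅k s.toFinset, brL (s.map x)⁆ * brL (s.map x) by rw [commutatorElement_def]; group,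
      h3 _ (mul_mem k2 hc), h1 _ k2 _ hc, h2 _ k1]
    ring

end Pool.Agent.MP_f68ac8_nt.Zk

end
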