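import Mathlib
import Pool.Agent.Mg.Fe23604m.G81ce00

set_option linter.all false

/-! Closed groups of `p`-adic matrices and their filtered quotients. -/

namespace Pool.Agent.MP_f68ac8_nt.Zk

open Matrix Finset
open scoped BigOperators commutatorElement

/-- finite filtered groups -/
structure Sy (p : ℕ) : Type 1 where
  P : Type
  grp : Group P
  fin : Fintype P
  T : @Fil p P grp

attribute [instance] Sy.grp Sy.fin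

section
variable (p : ℕ) [Fact p.Prime] (ι : Type) [Fintype ι] [DecidableEq ι]

/-- integral invertible matrices -/
abbrev GZ : Type := GL ι ℤ_[p]

/-- rational matrices -/
abbrev MQ : Type := Matrix ι ι ℚ_[p]

/-- congruence subgroups -/
noncomputable def Cg (k : ℕ) : Subgroup (GZ p ι) :=
  (GeneralLinearGroup.map (PadicInt.toZModPow k)).ker

variable {p ι}

/-- the entries are divisible by `p ^ k` -/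
def Dv (k : ℕ) (X : MQ p ι) : Prop := ∀ i j, ‖X i j‖ ≤ (p : ℝ)⁻¹ ^ k

/-- an integral matrix as a rational matrix -/
noncomputable def mq (g : GZ p ι) : MQ p ι := g.val.map fun x => (x : ℚ_[p])

/-- conjugation -/
noncomputable def cj (g : GZ p ι) (X : MQ p ι) : MQ p ι := mq g * X * mq g⁻¹

/-- the closure of a subgroup -/
noncomputable def cl (H : Subgroup (GZ p ι)) : Subgroup (GZ p ι) := ⨅ k, H ⊔ Cg p ι k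

/-- `X` is the logarithm of `g` -/
def IsLg (g : GZ p ι) (X : MQ p ι) : Prop :=
  ∀ k, Dv (2 * k + 2) (mq g ^ p ^ k - 1 - (p : ℚ_[p]) ^ k • X)

/-- the logarithm -/
noncomputable def lg (g : GZ p ι) : MQ p ι := Classical.epsilon (IsLg g)

/-- the logarithms of a group -/
def lgs (U : Subgroup (GZ p ι)) : Set (MQ p ι) := {X | ∃ g ∈ U, g ∈ Cg p ι 1 ∧ lg g = X}

/-- the Lie algebra of a group -/
noncomputable def Lie (U : Subgroup (GZ p ι)) : Submodule ℚ_[p] (MQ p ι) :=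
  Submodule.span ℚ_[p] (lgs U)

/-- the derived algebra -/
noncomputable def der (u : Submodule ℚ_[p] (MQ p ι)) : Submodule ℚ_[p] (MQ p ι) :=
  Submodule.span ℚ_[p] {Z | ∃ X ∈ u, ∃ Y ∈ u, Z = X * Y - Y * X}

/-- solvable algebras -/
def Solv (u : Submodule ℚ_[p] (MQ p ι)) : Prop := ∃ k, der^[k] u = ⊥

variable (U : Subgroup (GZ p ι)) (ϖ : GZ p ι → ZMod p)

/-- a character whose kernel is the first congruence subgroup -/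
structure Chr : Prop where
  add : ∀ g ∈ U, ∀ h ∈ U, ϖ (g * h) = ϖ g + ϖ h
  ker : ∀ g ∈ U, ϖ g = 0 ↔ g ∈ Cg p ι 1

/-- closed groups generated by elements of order `p` -/
structure Ord : Prop extends Chr U ϖ where
  cls : cl U ≤ U
  gen : U ≤ cl (Subgroup.closure {x | x ∈ U ∧ x ^ p = 1 ∧ x ∉ Cg p ι 1})

/-- infinite groups of this kind -/
structure Cls : Prop extends Ord U ϖ where
  ne : ∃ g ∈ U, g ∈ Cg p ι 1 ∧ g ≠ 1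

/-- groups of this kind with perfect Lie algebra -/
structure SatH : Prop extends Ord U ϖ where
  perf : Lie U ≤ der (Lie U)
  ne : Lie U ≠ ⊥

/-- there is no character of order `p ^ m` -/
def NoCyc (m : ℕ) : Prop :=
  ∀ φ : GZ p ι → ZMod (p ^ m), (∀ g ∈ U ⊓ Cg p ι 1, ∀ h ∈ U ⊓ Cg p ι 1, φ (g * h) = φ g + φ h) →
    (∃ k, ∀ g ∈ U ⊓ Cg p ι 1, g ∈ Cg p ι k → φ g = 0) →
    ∀ g ∈ U ⊓ Cg p ι 1, p ^ (m - 1) • φ g = 0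

/-- there is a homomorphism to the filtered group -/
def Hm (S : Sy p) : Prop :=
  ∃ θ : U →* S.P, (∃ k, ∀ g : U, g.1 ∈ Cg p ι k → θ g = 1) ∧
    (∀ g, (S.T.pi (θ g)).toAdd = ϖ g.1) ∧ θ.range ⊔ S.T.F 2 = ⊤

variable (c : ℕ → Submodule ℤ_[p] (MQ p ι))

/-- conjugation by `g` raises the level by `a` -/
def Rs (a : ℕ) (g : GZ p ι) : Prop := ∀ j, 1 ≤ j → ∀ X ∈ c j, cj g X - X ∈ c (j + a)

/-- the periodic chain of lattices -/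
structure Chn (l A : ℕ) : Prop where
  anti : ∀ i j, 1 ≤ i → i ≤ j → c j ≤ c i
  sub : ∀ X ∈ c 1, X ∈ Lie U ∧ Dv 1 X
  per : ∀ i, 1 ≤ i → ∀ X, (p : ℚ_[p]) • X ∈ c (i + p - 1) ↔ X ∈ c i
  low : ∀ X ∈ Lie U, Dv A X → X ∈ c p
  pos : 2 ≤ l
  eq : ∀ i, l ≤ i → ∀ g, g ∈ cl (gam U i) ↔ g ∈ Cg p ι 1 ∧ lg g ∈ c i
  inc : ∀ i, 1 ≤ i → ∀ g ∈ cl (gam U i), g ∈ Cg p ι 1 → lg g ∈ c i
  rs : ∀ a, 1 ≤ a → ∀ g ∈ cl (gam U a), Rs c a g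
  pw : ∀ u ∈ U, u ^ p ∈ cl (gam U p)
  two : cl (gam U 2) ≤ Cg p ι 1

/-- the groups attached to the chain -/
structure Grp (W : ℕ → Subgroup (GZ p ι)) : Prop where
  mem : ∀ i, 1 ≤ i → ∀ g, g ∈ W i ↔ g ∈ Cg p ι 1 ∧ lg g ∈ c i
  comm : ∀ a, 1 ≤ a → ∀ y, Rs c a y → ∀ i, 1 ≤ i → ∀ h ∈ W i, ⁅y, h⁆ ∈ W (i + a)
  cp : ∀ i, 2 ≤ i → ∀ h ∈ W 1, ∀ g ∈ Cg p ι 1, g * h⁻¹ ∈ W i ↔ lg g - lg h ∈ c i

end

section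
variable {p : ℕ} [Fact p.Prime] {D : ℕ} (c : Fin D → MQ p (Fin D))

/-- the adjoint action given by structure constants -/
noncomputable def adc (v : Fin D → ℚ_[p]) : MQ p (Fin D) := ∑ i, v i • c i

/-- structure constants of a Lie algebra -/
structure LS : Prop where
  alt : ∀ v, adc c v *ᵥ v = 0
  jac : ∀ v w, adc c (adc c v *ᵥ w) = adc c v * adc c w - adc c w * adc c v

/-- structure constants of a semisimple Lie algebra -/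
structure SS : Prop extends LS c where
  kil : ∀ v, (∀ w, (adc c v * adc c w).trace = 0) → v = 0

/-- isomorphisms of Lie algebras -/
def Iso (c' : Fin D → MQ p (Fin D)) (g : GZ p (Fin D)) : Prop :=
  ∀ v, adc c' (mq g *ᵥ v) = cj g (adc c v)

variable {ι : Type} [Fintype ι] [DecidableEq ι]

/-- a semisimple quotient with a lattice -/
structure Quo (u : Submodule ℚ_[p] (MQ p ι)) (pr : MQ p ι →ₗ[ℚ_[p]] (Fin D → ℚ_[p])) : Prop where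
  ss : SS c
  pos : 0 < D
  br : ∀ X ∈ u, ∀ Y ∈ u, pr (X * Y - Y * X) = adc c (pr X) *ᵥ pr Y
  lat : ∀ v, (∀ i, ‖v i‖ ≤ 1) ↔ ∃ X ∈ u, Dv 0 X ∧ pr X = v
  ch : ∀ g : GZ p ι, (∀ X, X ∈ u ↔ cj g X ∈ u) → ∀ X ∈ u, pr X = 0 → pr (cj g X) = 0

/-- the adjoint action on a semisimple quotient -/
structure Adj (Q : Subgroup (GZ p ι)) (φ : Q →* GZ p (Fin D)) : Prop where
  ss : SS c
  pos : 0 < D
  aut : ∀ g, Iso c c (φ g)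
  cong : ∀ k (g : Q), g.1 ∈ Cg p ι k → φ g ∈ Cg p (Fin D) k
  lie : ∃ pr : MQ p ι →ₗ[ℚ_[p]] (Fin D → ℚ_[p]), (∀ v, ∃ X ∈ Lie Q, pr X = v) ∧
    ∀ g : Q, g.1 ∈ Cg p ι 1 → lg (φ g) = adc c (pr (lg g.1))

/-- open subgroups of the group of automorphisms -/
def Opn (U : Subgroup (GZ p (Fin D))) : Prop :=
  (∀ g ∈ U, Iso c c g) ∧ ∃ k, ∀ g ∈ Cg p (Fin D) k, Iso c c g → g ∈ U

end

/-- the integers of the cyclotomic field -/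
structure CycR (p : ℕ) {O : Type} [CommRing O] (ζ : O) : Prop where
  dom : IsDomain O
  pow : ζ ^ p = 1
  sum : ∑ i ∈ range p, ζ ^ i = 0
  ass : Associated ((ζ - 1) ^ (p - 1)) (p : O)
  nu : ¬ IsUnit (ζ - 1)
  ne : ζ - 1 ≠ 0
  gen : ∀ a : O, ∃ c : ℕ → ℤ, a = ∑ i ∈ range p, c i * ζ ^ i
  ind : ∀ (m : ℕ) (c : ℕ → ℤ), (p : O) ^ m ∣ ∑ i ∈ range p, c i * ζ ^ i →
    ∀ i < p, ∀ j < p, (p : ℤ) ^ m ∣ c i - c j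

section
variable (p : ℕ) [Fact p.Prime]

/-- statements for all index sets -/
def AllI (Q : ∀ (ι : Type) [Fintype ι] [DecidableEq ι], Prop) : Prop :=
  2 < p → ∀ (ι : Type) [Fintype ι] [DecidableEq ι], Q ι

/-- rules for congruences -/
def DvStmt : Prop :=
  ∀ (ι : Type) [Fintype ι] [DecidableEq ι],
    (∀ k (X Y : MQ p ι), Dv k X → Dv k Y → Dv k (X + Y) ∧ Dv k (X - Y)) ∧
    (∀ a b (X Y : MQ p ι), Dv a X → Dv b Y → Dv (a + b) (X * Y)) ∧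
    (∀ a b (X : MQ p ι), a ≤ b → Dv b X → Dv a X) ∧
    (∀ a b (X : MQ p ι), Dv (a + b) ((p : ℚ_[p]) ^ a • X) ↔ Dv b X) ∧
    (∀ k (z : ℤ_[p]) (X : MQ p ι), Dv k X → Dv k (z • X)) ∧
    (∀ X : MQ p ι, (∃ k, Dv 0 ((p : ℚ_[p]) ^ k • X)) ∧ ((∀ k, Dv k X) → X = 0)) ∧
    (∀ g h : GZ p ι, mq (g * h) = mq g * mq h ∧ Dv 0 (mq g) ∧ (mq g = mq h → g = h) ∧
      mq (1 : GZ p ι) = 1) ∧
    (∀ k (g : GZ p ι), g ∈ Cg p ι k ↔ Dv k (mq g - 1)) ∧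
    (∀ X : MQ p ι, Dv 1 X → ∃ g : GZ p ι, mq g = 1 + X) ∧
    (∀ (u : Submodule ℚ_[p] (MQ p ι)) (X : MQ p ι), (∀ k, ∃ Y ∈ u, Dv k (X - Y)) → X ∈ u) ∧
    (∀ (s : Set (MQ p ι)), ∃ A, ∀ X ∈ Submodule.span ℚ_[p] s, Dv A X →
      X ∈ Submodule.span ℤ_[p] s) ∧
    ∀ X : ℕ → MQ p ι, (∀ k, Dv k (X (k + 1) - X k)) → ∃ Y : MQ p ι, ∀ k, Dv k (Y - X k)

/-- congruence subgroups and closures -/
def ClStmt : Prop :=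
  ∀ (ι : Type) [Fintype ι] [DecidableEq ι],
    (∀ k, (Cg p ι k).Normal ∧ (Cg p ι k).FiniteIndex ∧ ∀ k', k ≤ k' → Cg p ι k' ≤ Cg p ι k) ∧
    (∀ g : GZ p ι, (∀ k, g ∈ Cg p ι k) → g = 1) ∧
    (∀ a b (g h : GZ p ι), g ∈ Cg p ι a → h ∈ Cg p ι b → ⁅g, h⁆ ∈ Cg p ι (a + b)) ∧
    (∀ a (g : GZ p ι), 1 ≤ a → g ∈ Cg p ι a → g ^ p ∈ Cg p ι (a + 1)) ∧
    (∀ (𝒰 : Ultrafilter ℕ) (g : ℕ → GZ p ι), ∃ g₀, ∀ k, ∀ᶠ j in 𝒰, g₀ * (g j)⁻¹ ∈ Cg p ι k) ∧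
    (∀ g : ℕ → GZ p ι, (∀ k, g (k + 1) * (g k)⁻¹ ∈ Cg p ι k) →
      ∃ g₀, ∀ k, g₀ * (g k)⁻¹ ∈ Cg p ι k) ∧
    (∀ H : Subgroup (GZ p ι), (∀ g, g ∈ cl H ↔ ∀ k, ∃ h ∈ H, g * h⁻¹ ∈ Cg p ι k) ∧ H ≤ cl H ∧
      cl (cl H) ≤ cl H ∧ ∀ H', H ≤ H' → cl H ≤ cl H') ∧
    (∀ k, cl (Cg p ι k) ≤ Cg p ι k) ∧
    ∀ H : ℕ → Subgroup (GZ p ι), NS H → NS fun i => cl (H i)

/-- the logarithm -/
def LogStmt : Prop :=
  AllI p fun ι _ _ => (∀ g ∈ Cg p ι 1, IsLg g (lg g)) ∧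
    (∀ (g : GZ p ι) X X', IsLg g X → IsLg g X' → X = X') ∧
    (∀ g ∈ Cg p ι 1, ∀ h ∈ Cg p ι 1, ∀ k, g * h⁻¹ ∈ Cg p ι k ↔ Dv k (lg g - lg h)) ∧
    (∀ g ∈ Cg p ι 1, (∀ k, g ∈ Cg p ι k ↔ Dv k (lg g)) ∧ (∀ n : ℕ, lg (g ^ n) = n • lg g) ∧
      lg g⁻¹ = - lg g ∧ (∀ a, lg (a * g * a⁻¹) = cj a (lg g)) ∧ (g ^ p = 1 → g = 1)) ∧
    (∀ a b, 1 ≤ a → ∀ g ∈ Cg p ι a, ∀ h ∈ Cg p ι a, g * h⁻¹ ∈ Cg p ι b →
      Dv (a + b) (lg (g * h⁻¹) - (lg g - lg h))) ∧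
    ∀ a, 1 ≤ a → ∀ g ∈ Cg p ι a, ∀ h ∈ Cg p ι a,
      Dv (3 * a) (lg ⁅g, h⁆ - (lg g * lg h - lg h * lg g))

/-- the logarithm is onto -/
def ExpStmt : Prop :=
  AllI p fun ι _ _ => (∀ X : MQ p ι, Dv 1 X → ∃ g ∈ Cg p ι 1, lg g = X) ∧
    (∀ (R : Subalgebra ℚ_[p] (MQ p ι)), ∀ g ∈ Cg p ι 1, mq g ∈ R ↔ lg g ∈ R) ∧
    (∀ U : Subgroup (GZ p ι), cl U ≤ U → ∀ X ∈ lgs U, ∀ z : ℤ_[p], z • X ∈ lgs U) ∧
    ∀ (c : Submodule ℤ_[p] (MQ p ι)) (f : MQ p ι → MQ p ι), (∀ X ∈ c, Dv 0 X) →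
      (∀ X, (∀ k, ∃ Y ∈ c, Dv k (X - Y)) → X ∈ c) → (∀ X ∈ c, f X ∈ c) →
      (∀ X ∈ c, ∀ Y ∈ c, ∀ k, Dv k (f X - f Y) ↔ Dv k (X - Y)) → ∀ Z ∈ c, ∃ X ∈ c, f X = Z

/-- the Lie algebra of a closed group -/
def LieStmt : Prop :=
  AllI p fun ι _ _ => ∀ U : Subgroup (GZ p ι), cl U ≤ U →
    (∃ k, ∀ X ∈ Lie U, Dv k X → X ∈ lgs U) ∧ der (Lie U) ≤ Lie U ∧
    ∀ g ∈ U, ∀ X ∈ Lie U, cj g X ∈ Lie U

/-- the lower central series shrinks quickly -/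
def BpStmt : Prop :=
  AllI p fun ι _ _ => ∀ (U : Subgroup (GZ p ι)) ϖ, Ord U ϖ → ∀ k j, 1 + k * (p - 1) ≤ j →
    2 ≤ j → gam U j ≤ Cg p ι (k + 1)

/-- the terms of the lower central series are open -/
def OpenStmt : Prop :=
  AllI p fun ι _ _ => ∀ (U : Subgroup (GZ p ι)), cl U ≤ U → Lie U ≤ der (Lie U) → ∀ j,
    ∃ A, ∀ X ∈ Lie U, Dv A X → X ∈ lgs (cl (gam U j))

/-- existence of the chain -/
def ChnStmt : Prop :=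
  AllI p fun ι _ _ => ∀ (U : Subgroup (GZ p ι)) ϖ, SatH U ϖ → ∃ c l A, Chn U c l A

/-- roots raise the level -/
def ContrStmt : Prop :=
  AllI p fun ι _ _ => ∀ (U : Subgroup (GZ p ι)) c l A, Chn U c l A →
    (∀ j, 1 ≤ j → ∃ k, (∀ X ∈ c j, Dv (k + 1) X) ∧ ∀ X ∈ Lie U, Dv (A + k) X → X ∈ c j) ∧
    (∀ k, ∃ j₀, ∀ j, j₀ ≤ j → ∀ X ∈ c j, Dv k X) ∧
    (∀ j, 1 ≤ j → ∀ X, (∀ k, ∃ Y ∈ c j, Dv k (X - Y)) → X ∈ c j) ∧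
    ∀ a, 1 ≤ a → ∀ g ∈ Cg p ι 1, lg g ∈ c a → Rs c a g

/-- the groups attached to the chain -/
def GrpStmt : Prop :=
  AllI p fun ι _ _ => ∀ (U : Subgroup (GZ p ι)) c l A, cl U ≤ U → Chn U c l A → ∃ W, Grp c W

/-- the filtered quotients of a group with perfect Lie algebra -/
def SatStmt : Prop :=
  AllI p fun ι _ _ => ∀ (U : Subgroup (GZ p ι)) ϖ, SatH U ϖ → ∃ l n, ∀ L, 2 ≤ L →
    ∃ S : Sy p, TS S.T L l n ∧ Hm U ϖ S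

/-- the theorem of Lie -/
def NilStmt : Prop :=
  AllI p fun ι _ _ => ∀ u : Submodule ℚ_[p] (MQ p ι), der u ≤ u → Solv u →
    ∃ (I : ℕ → Submodule ℚ_[p] (MQ p ι)) (n : ℕ), I n = ⊥ ∧ (∀ r, I (r + 1) ≤ I r) ∧
      (∀ r, ∀ a ∈ Algebra.adjoin ℚ_[p] (u : Set (MQ p ι)), ∀ X ∈ I r,
        a * X ∈ I r ∧ X * a ∈ I r) ∧
      (∀ a ∈ Algebra.adjoin ℚ_[p] (u : Set (MQ p ι)),
        ∀ b ∈ Algebra.adjoin ℚ_[p] (u : Set (MQ p ι)), a * b - b * a ∈ I 1) ∧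
      ∀ r, 1 ≤ r → ∀ X ∈ I r, ∀ Y ∈ I r, X * Y ∈ I (r + 1)

/-- the Lie algebra is not solvable -/
def NsolStmt : Prop :=
  AllI p fun ι _ _ => ∀ (Q : Subgroup (GZ p ι)) ϖ m, Cls Q ϖ → 1 ≤ m → NoCyc Q m →
    ¬ Solv (Lie Q) ∧ ∃ g ∈ Q, g ∈ Cg p ι 1 ∧ g ∉ Cg p ι m

/-- existence of a semisimple quotient -/
def QuoStmt : Prop :=
  AllI p fun ι _ _ => ∀ u : Submodule ℚ_[p] (MQ p ι), der u ≤ u → ¬ Solv u →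
    ∃ D c, ∃ pr : MQ p ι →ₗ[ℚ_[p]] (Fin D → ℚ_[p]), Quo c u pr

/-- existence of the adjoint action -/
def AdjStmt : Prop :=
  AllI p fun ι _ _ => ∀ Q : Subgroup (GZ p ι), (cl Q ≤ Q → ¬ Solv (Lie Q) →
    ∃ D c, ∃ φ : Q →* GZ p (Fin D), Adj c Q φ) ∧
    ∀ D c c' (φ : Q →* GZ p (Fin D)) g, Adj c Q φ → SS c' → Iso c c' g →
      Adj c' Q ((MulAut.conj g).toMonoidHom.comp φ)

/-- semisimple Lie algebras -/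
def KilStmt : Prop :=
  2 < p → ∀ D (c : Fin D → MQ p (Fin D)), SS c →
    (∀ v, adc c v = 0 → v = 0) ∧
    (∀ v, v ∈ Submodule.span ℚ_[p] {z | ∃ x y, z = adc c x *ᵥ y}) ∧
    (∀ X : MQ p (Fin D), (∀ v, adc c (X *ᵥ v) = X * adc c v - adc c v * X) → ∃ v, X = adc c v) ∧
    ∀ g ∈ Cg p (Fin D) 1, Iso c c g → ∃ v, lg g = adc c v

/-- the image of the adjoint action -/
def ImgStmt : Prop :=
  AllI p fun ι _ _ => ∀ (Q : Subgroup (GZ p ι)) ϖ D c (φ : Q →* GZ p (Fin D)), Ord Q ϖ →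
    Adj c Q φ → Opn c φ.range ∧ ∃ ϖ', SatH φ.range ϖ' ∧ (∀ g ∉ φ.range, ϖ' g = 0) ∧
      ∀ S, Hm φ.range ϖ' S → Hm Q ϖ S

/-- the second lemma of Whitehead -/
def WhStmt : Prop :=
  ∀ D (c : Fin D → MQ p (Fin D)), SS c → ∃ a : ℕ, ∀ (u : Fin D → MQ p (Fin D)) (k k' : ℕ),
    (∀ v, adc u v *ᵥ v = 0) → (∀ i, Dv (k + a) (u i)) →
    (∀ i j, Dv (k' + a) (adc c (u i *ᵥ Pi.single j 1) + adc u (c i *ᵥ Pi.single j 1) -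
      (c i * u j + u i * c j - c j * u i - u j * c i))) →
    ∃ X : MQ p (Fin D), Dv k X ∧
      ∀ i, Dv k' (u i - (X * c i - c i * X - adc c (X *ᵥ Pi.single i 1)))

/-- rigidity -/
def RigStmt : Prop :=
  ∀ D (c₀ : Fin D → MQ p (Fin D)), SS c₀ → ∃ k, ∀ c, LS c → (∀ i, Dv k (c i - c₀ i)) →
    ∃ g, Iso c₀ c g

/-- countability -/
def CountStmt : Prop :=
  ∀ D, (∃ C : Set (Fin D → MQ p (Fin D)), C.Countable ∧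
      ∀ c, SS c → ∃ c₀ ∈ C, SS c₀ ∧ ∃ g, Iso c c₀ g) ∧
    ∀ c : Fin D → MQ p (Fin D), {x : Subgroup (GZ p (Fin D)) × (GZ p (Fin D) → ZMod p) |
      Opn c x.1 ∧ Chr x.1 x.2 ∧ ∀ g ∉ x.1, x.2 g = 0}.Countable

/-- a countable family of towers -/
def CntStmt : Prop :=
  2 < p → ∃ (J : Type) (_ : Countable J) (l n : J → ℕ) (S : J → ℕ → Sy p),
    (∀ j L, 2 ≤ L → TS (S j L).T L (l j) (n j)) ∧ ∀ (ι : Type) [Fintype ι] [DecidableEq ι]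
      (Q : Subgroup (GZ p ι)) ϖ, Ord Q ϖ → ¬ Solv (Lie Q) → ∃ j, ∀ L, 2 ≤ L → Hm Q ϖ (S j L)

/-- compactness -/
def LimStmt : Prop :=
  AllI p fun ι _ _ => ∀ (R : Subgroup (GZ p ι)) ϖ, Chr R ϖ → Cg p ι 1 ≤ R →
    (∀ m, 1 ≤ m → ∀ Q : ℕ → Subgroup (GZ p ι), (∀ j, Q j ≤ R ∧ Cls (Q j) ϖ ∧ NoCyc (Q j) m) →
      ∃ Q₀ ≤ R, Cls Q₀ ϖ ∧ NoCyc Q₀ m ∧
        ∀ k j₀, ∃ j, j₀ ≤ j ∧ Q j ⊔ Cg p ι k = Q₀ ⊔ Cg p ι k) ∧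
    ∀ Q ≤ R, ∀ S, Hm Q ϖ S → ∃ k, ∀ Q' ≤ R, Q' ⊔ Cg p ι k = Q ⊔ Cg p ι k → Hm Q' ϖ S

/-- existence of the cyclotomic ring -/
def CycStmt : Prop := ∃ (O : Type) (_ : CommRing O) (ζ : O), CycR p ζ

/-- the metabelian tower -/
def Ab1Stmt : Prop :=
  ∀ (O : Type) [CommRing O] (ζ : O), CycR p ζ → ∀ L, 2 ≤ L → ∃ S : Sy p, TS S.T L 1 (p ^ 3) ∧
    ∀ (Γ : Type) [Group Γ] (ϖ : Γ →* Cp p) (c : Γ → O),
      (∀ g h, (ζ - 1) ^ (L - 1) ∣ c (g * h) - (c g + ζ ^ (ϖ g).toAdd.val * c h)) →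
      ∃ θ : Γ →* S.P, (∀ g, S.T.pi (θ g) = ϖ g) ∧
        (∀ g, ϖ g = 1 → (ζ - 1) ^ (L - 1) ∣ c g → θ g = 1) ∧
        ((∃ x, ϖ x ≠ 1) → (∃ g, ϖ g = 1 ∧ ¬ (ζ - 1) ∣ c g) → θ.range ⊔ S.T.F 2 = ⊤)

/-- characters of large order -/
def AbStmt : Prop :=
  2 < p → ∀ L, 2 ≤ L → ∃ S : Sy p, TS S.T L 1 (p ^ 3) ∧ ∃ m, 1 ≤ m ∧
    ∀ (ι : Type) [Fintype ι] [DecidableEq ι] (Q : Subgroup (GZ p ι)) ϖ, Ord Q ϖ →
      ¬ NoCyc Q m → Hm Q ϖ S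

/-- a finite family of filtered groups -/
def FamStmt : Prop :=
  AllI p fun ι _ _ => ∀ (R : Subgroup (GZ p ι)) ϖ, Chr R ϖ → Cg p ι 1 ≤ R →
    ∀ (Lf : ℕ → ℕ → ℝ → ℕ), (∀ l n e, 2 ≤ Lf l n e) → ∀ ε : ℝ, 0 < ε →
    ∃ (J : Type) (_ : Fintype J) (S : J → Sy p) (l n : J → ℕ) (e : J → ℝ),
      (∀ j, 0 < e j ∧ TS (S j).T (Lf (l j) (n j) (e j)) (l j) (n j)) ∧ ∑ j, e j ≤ ε ∧
      ∀ Q ≤ R, Cls Q ϖ → ∃ j, Hm Q ϖ (S j)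

end

end Pool.Agent.MP_f68ac8_nt.Zk
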