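import Mathlib
import Pool.Agent.Mg.Fe23604m.G2f5e1d

set_option linter.all false

/-! Uniform groups, their Lie lattices, and metabelian towers. -/

namespace Pool.Agent.MP_f68ac8_nt.Zk

open Matrix Finset Module Zv
open scoped BigOperators commutatorElement

section
variable (p : ℕ) {G : Type} [Group G]

/-- the series of powers of a powerful group -/
structure Pws (Γ : Subgroup G) (H : ℕ → Subgroup G) : Prop where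
  mem : ∀ i g, g ∈ H i ↔ ∃ x ∈ Γ, x ^ p ^ i = g
  comm : ∀ i j, ∀ g ∈ H i, ∀ h ∈ H j, ⁅g, h⁆ ∈ H (i + j + 1)

variable (G) in
/-- groups that look like the second layer of a uniform group -/
structure Two : Prop where
  com : ∀ a b : G, ⁅a, b⁆ ^ p = 1
  cen : ∀ a b : G, a ^ p = 1 → Commute a b
  exp : ∀ a : G, (a ^ p) ^ p = 1

variable (G) in
/-- most powers are commutators with one element -/
def DlQ (b : ℕ) : Prop :=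
  ∃ (s : G) (A C : Finset G), A.card ≤ p ^ b ∧ C.card ≤ p ^ b ∧ (∀ c ∈ C, c ^ p = 1) ∧
    ∀ g : G, ∃ a ∈ A, ∃ h, ∃ c ∈ C, (a⁻¹ * g) ^ p = ⁅s, h⁆ * c

variable {p}

/-- iterated commutators with one element -/
def tw (x : G) (k : ℕ) (u : G) : G := (fun v => ⁅x, v⁆)^[k] u

/-- functions that are multiplicative on the kernel of a character -/
def MulK (χ : G →* Cp p) {V : Type} [Mul V] (f : G → V) : Prop :=
  ∀ g h, χ g = 1 → χ h = 1 → f (g * h) = f g * f h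

/-- the layer of level `m` is small -/
def Sm (χ : G →* Cp p) (x : G) (m r : ℕ) : Prop :=
  ∀ (V : Type) [CommGroup V], (∀ v : V, v ^ p = 1) → ∀ f : G → V, MulK χ f →
    (∀ u, χ u = 1 → f (tw x m u) = 1) →
    {v | ∃ u, χ u = 1 ∧ f (tw x (m - 1) u) = v}.ncard < p ^ r

/-- conjugates of a function -/
def cjf (x : G) {Δ : Type} (θ : G → Δ) (k : ℕ) (u : G) : Δ := θ (x ^ k * u * (x ^ k)⁻¹)

/-- the conjugates of a function are close to each other -/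
structure Dd (χ : G →* Cp p) (x : G) {Δ : Type} [Group Δ] (θ : G → Δ) (n : ℕ) : Prop where
  nrm : ∀ u, χ u = 1 → θ ((u * x) ^ p) ^ p = 1
  lin : ∃ s, ∀ u, χ u = 1 → ∃ (m : ℕ) (z : Δ), z ^ p = 1 ∧
    ((List.range p).map fun k => cjf x θ k u ^ k).prod = s ^ m * z
  gen : ∃ t : Fin n → Δ, ∀ u, χ u = 1 → ∃ w ∈ Subgroup.closure (Set.range t), ∃ z, z ^ p = 1 ∧
    θ ⁅x, u⁆ = w * z
  idx : ∃ A : Finset G, A.card ≤ p ^ n ∧ ∀ u, χ u = 1 → ∃ a ∈ A, χ a = 1 ∧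
    ∃ c ∈ ⁅χ.ker, χ.ker⁆, ∀ k, cjf x θ k ⁅x, a⁻¹ * u⁆ = cjf x θ k c

end

section
variable {p : ℕ} [Fact p.Prime] {ι : Type} [Fintype ι] [DecidableEq ι]
  (Γ : Subgroup (GZ p ι)) (H : ℕ → Subgroup (GZ p ι))

/-- closed uniform groups of matrices -/
structure Uni : Prop extends Pws p Γ H where
  cls : cl Γ ≤ Γ
  root : ∀ j, ∀ g ∈ Γ, g ^ p ∈ H (j + 1) → g ∈ H j
  inj : ∀ g ∈ Γ, ∀ h ∈ Γ, g ^ p = h ^ p → g = h
  small : ∀ k, ∃ i, H i ≤ Cg p ι k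
  opn : ∀ i, ∃ k, Γ ⊓ Cg p ι k ≤ H i

/-- the lattice of logarithms -/
structure Lam (L : GZ p ι → MQ p ι) (Λ : Submodule ℤ_[p] (MQ p ι)) : Prop where
  mem : ∀ X, X ∈ Λ ↔ ∃ g ∈ Γ, L g = X
  bdd : ∃ k : ℕ, ∀ X ∈ Λ, Dv 0 ((p : ℚ_[p]) ^ k • X)
  one : ∀ g ∈ Γ, g ∈ Cg p ι 1 → L g = lg g
  pow : ∀ g ∈ Γ, ∀ n : ℕ, L (g ^ n) = n • L g
  conj : ∀ a ∈ Γ, ∀ g ∈ Γ, L (a * g * a⁻¹) = cj a (L g)
  add : ∀ i j, ∀ g ∈ H i, ∀ h ∈ H j, ∃ Y ∈ Λ,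
    L (g * h) - L g - L h = (p : ℚ_[p]) ^ (i + j + 1) • Y
  com : ∀ g ∈ Γ, ∀ h ∈ Γ, ∃ Y ∈ Λ, L ⁅g, h⁆ - (L g * L h - L h * L g) = (p : ℚ_[p]) ^ 2 • Y
  ad : ∀ a ∈ Γ, ∀ X ∈ Λ, ∃ Y ∈ Λ, cj a X - X = (p : ℚ_[p]) • Y
  cm : ∀ g ∈ Γ, ∀ h ∈ Γ, Commute g h → L (g * h) = L g + L h
  inj : ∀ g ∈ Γ, ∀ h ∈ Γ, L g = L h → g = h

/-- the entries are divisible by `p ^ k` -/
def Iv (k : ℕ) {D : ℕ} (v : Fin D → ℚ_[p]) : Prop := ∀ i, ‖v i‖ ≤ (p : ℝ)⁻¹ ^ k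

/-- coordinates on the lattice of logarithms -/
structure LatD {D : ℕ} (c : Fin D → MQ p (Fin D)) (φ : Γ →* GZ p (Fin D))
    (e : GZ p ι → Fin D → ℚ_[p]) : Prop where
  ls : LS c
  one : ∀ g, φ g ∈ Cg p (Fin D) 1
  cont : ∀ k, ∃ k', ∀ g : Γ, g.1 ∈ Cg p ι k' → φ g ∈ Cg p (Fin D) k ∧ Iv k (e g)
  lat : ∀ v, Iv 0 v ↔ ∃ g ∈ Γ, e g = v
  log : ∀ g : Γ, lg (φ g) = adc c (e g)
  pow : ∀ g ∈ Γ, ∀ n : ℕ, e (g ^ n) = n • e g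
  add : ∀ i j, ∀ g ∈ H i, ∀ h ∈ H j, Iv (i + j + 1) (e (g * h) - e g - e h)
  com : ∀ g ∈ Γ, ∀ h ∈ Γ, Iv 2 (e ⁅g, h⁆ - adc c (e g) *ᵥ e h)
  inj : ∀ g ∈ Γ, e g = 0 → g = 1
  ab : (∀ g, φ g = 1) → ∀ g ∈ Γ, ∀ h ∈ Γ, e (g * h) = e g + e h

/-- there is a nontrivial representation of dimension `N` that is trivial modulo `p` -/
def Rp (N : ℕ) : Prop :=
  ∃ ψ : Γ →* GZ p (Fin N), (∀ g, ψ g ∈ Cg p (Fin N) 1) ∧
    (∀ k, ∃ k', ∀ g : Γ, g.1 ∈ Cg p ι k' → ψ g ∈ Cg p (Fin N) k) ∧ ∃ g, ψ g ≠ 1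

/-- most powers are commutators with one element -/
def DlC (b : ℕ) : Prop :=
  ∃ s ∈ Γ, ∃ A C : Finset (GZ p ι), A.card ≤ p ^ b ∧ C.card ≤ p ^ b ∧ (∀ a ∈ A, a ∈ Γ) ∧
    (∀ c ∈ C, c ∈ H 1) ∧ ∀ g ∈ Γ, ∃ a ∈ A, ∃ h ∈ Γ, ∃ c ∈ C,
      ((a⁻¹ * g) ^ p)⁻¹ * (⁅s, h⁆ * c) ∈ H 2

end

section
variable {p : ℕ} [Fact p.Prime]

/-- coordinates on a metabelian group -/
structure Cd {O : Type} [CommRing O] (ζ : O) (L r : ℕ) (S : Sy p)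
    (co : (Fin r → O) → ZMod p → S.P) : Prop where
  ts : ∃ n, TS S.T L 1 n
  mul : ∀ a j b k, co a j * co b k = co (a + ζ ^ j.val • b) (j + k)
  surj : ∀ g, ∃ a j, co a j = g
  pi : ∀ a j, S.T.pi (co a j) = Multiplicative.ofAdd j
  mem : ∀ i, 2 ≤ i → i ≤ L → ∀ a j, co a j ∈ S.T.F i ↔ j = 0 ∧ ∀ k, (ζ - 1) ^ (i - 1) ∣ a k

end

section
variable (p : ℕ) [Fact p.Prime]

/-- finite powerful groups -/
def PowStmt : Prop :=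
  2 < p → ∀ (G : Type) [Group G] [Finite G], (∀ g : G, ∃ k, g ^ p ^ k = 1) →
    (∀ g h : G, ⁅g, h⁆ ∈ Subgroup.closure (Set.range fun x : G => x ^ p)) → ∃ H, Pws p (⊤ : Subgroup G) H

/-- powers and commutators in powerful groups -/
def UpwStmt : Prop :=
  2 < p → ∀ (G : Type) [Group G] (Γ : Subgroup G) H, Pws p Γ H →
    H 0 = Γ ∧ (∀ i j, i ≤ j → H j ≤ H i) ∧ (∀ i, ∀ a ∈ Γ, ∀ g ∈ H i, a * g * a⁻¹ ∈ H i) ∧
    (∀ i k, ∀ g ∈ H i, g ^ p ^ k ∈ H (i + k)) ∧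
    (∀ i j k, ∀ g ∈ H i, ∀ h ∈ H j,
      ((g * h) ^ p ^ k)⁻¹ * (g ^ p ^ k * h ^ p ^ k) ∈ H (i + j + k + 1)) ∧
    ∀ i j, ∀ g ∈ Γ, ∀ h ∈ Γ, ⁅g ^ p ^ i, h ^ p ^ j⁆⁻¹ * ⁅g, h⁆ ^ p ^ (i + j) ∈ H (i + j + 2)

/-- closed uniform groups -/
def UniStmt : Prop :=
  AllI p fun ι _ _ => ∀ Γ : Subgroup (GZ p ι), cl Γ ≤ Γ → (∀ g ∈ Γ, IsOfFinOrder g → g = 1) →
    (∀ g ∈ Γ, ∀ h ∈ Γ, ⁅g, h⁆ ∈ cl (Subgroup.closure ((fun x => x ^ p) '' Γ))) → ∃ H, Uni Γ H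

/-- the lattice of logarithms -/
def LamStmt : Prop :=
  AllI p fun ι _ _ => ∀ (Γ : Subgroup (GZ p ι)) H, Uni Γ H → ∃ L Λ, Lam Γ H L Λ

/-- coordinates -/
def LatStmt : Prop :=
  AllI p fun ι _ _ => ∀ (Γ : Subgroup (GZ p ι)) H L Λ, Uni Γ H → Lam Γ H L Λ →
    ∃ (D : ℕ) (c : _) (φ : Γ →* GZ p (Fin D)) (e : _), LatD Γ H c φ e

/-- padding and unipotent representations -/
def PadStmt : Prop :=
  ∀ (ι : Type) [Fintype ι] [DecidableEq ι] (Γ : Subgroup (GZ p ι)),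
    (∀ D N, D ≤ N → Rp Γ D → Rp Γ N) ∧ ∀ f : GZ p ι → ℚ_[p],
      (∀ g ∈ Γ, ∀ h ∈ Γ, f (g * h) = f g + f h) →
      (∀ k, ∃ k', ∀ g ∈ Γ, g ∈ Cg p ι k' → ‖f g‖ ≤ (p : ℝ)⁻¹ ^ k) → (∃ g ∈ Γ, f g ≠ 0) → Rp Γ 2

/-- groups with solvable Lie algebra -/
def SolvStmt : Prop :=
  AllI p fun ι _ _ => ∀ U : Subgroup (GZ p ι), cl U ≤ U → U ≤ Cg p ι 1 → U ≠ ⊥ →
    Solv (Lie U) → Rp U 2

omit [Fact p.Prime] in
/-- statements about semisimple Lie algebras -/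
def AllL (Q : ∀ (K L : Type) [Field K] [LieRing L] [LieAlgebra K L], Prop) : Prop :=
  ∀ (K L : Type) [Field K] [CharZero K] [IsAlgClosed K] [LieRing L] [LieAlgebra K L]
    [FiniteDimensional K L] [LieAlgebra.IsKilling K L], Q K L

/-- the number of roots -/
def RkAStmt : Prop :=
  AllL fun K L _ _ _ => ∀ H : LieSubalgebra K L, H.IsCartanSubalgebra →
    finrank K L ≤ finrank K H + 9 ^ finrank K H

/-- centralisers are large -/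
def RkBStmt : Prop :=
  AllL fun K L _ _ _ => ∀ v : L, ∃ H : LieSubalgebra K L, H.IsCartanSubalgebra ∧
    finrank K H ≤ finrank K (LinearMap.ker (LieAlgebra.ad K L v))

/-- the dimension is bounded in terms of the rank -/
def RankStmt : Prop :=
  ∀ D (c : Fin D → MQ p (Fin D)), SS c → ∀ v k, D ≤ (adc c v).rank + k → D ≤ k + 9 ^ k

/-- an element with small centraliser -/
def RedStmt : Prop :=
  AllI p fun ι _ _ => ∀ U : Subgroup (GZ p ι), cl U ≤ U → U ≤ Cg p ι 1 → U ≠ ⊥ →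
    ∀ S ∈ Lie U, ∀ k, finrank ℚ_[p] (Lie U) ≤ finrank ℚ_[p]
      ((Lie U).map (LinearMap.mulLeft ℚ_[p] S - LinearMap.mulRight ℚ_[p] S)) + k →
    Rp U (2 + k + 9 ^ k)

/-- a representation of bounded dimension -/
def CorStmt : Prop :=
  AllI p fun ι _ _ => ∀ (Γ : Subgroup (GZ p ι)) H b, Uni Γ H → Γ ≠ ⊥ → DlC Γ H b →
    Rp Γ (2 + 2 * b + 9 ^ (2 * b))

/-- statements about groups generated by elements of order `p` -/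
def AllD (R : ∀ (Q : Type) [Group Q] (_ : Q →* Cp p) (_ : Q) (Δ : Type) [Group Δ], (Q → Δ) →
    Prop) : Prop :=
  2 < p → ∀ (Q : Type) [Group Q] [Finite Q] (χ : Q →* Cp p) (x : Q), x ^ p = 1 →
    χ x = Multiplicative.ofAdd 1 → Subgroup.closure {y | y ^ p = 1 ∧ χ y ≠ 1} = ⊤ →
    ∀ (Δ : Type) [Group Δ], Two p Δ → ∀ θ : Q → Δ, MulK χ θ → (∀ a, ∃ u, χ u = 1 ∧ θ u = a) →
    R Q χ x Δ θ

/-- the abelian part of the computation -/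
def Dl1Stmt : Prop :=
  AllD p fun _ _ χ x _ _ θ => ∀ r, Sm χ x 2 r → Sm χ x (p - 1) 2 → 1 ≤ r ∧ Dd χ x θ (2 * p * r)

/-- the bilinear part of the computation -/
def Dl2Stmt : Prop :=
  AllD p fun _ _ χ x Δ _ θ => ∀ n, 1 ≤ n → Dd χ x θ n → DlQ p Δ (n ^ 2)

/-- the computation in the second layer -/
def DlStmt : Prop :=
  AllD p fun _ _ χ x Δ _ _ => ∀ r, Sm χ x 2 r → Sm χ x (p - 1) 2 → DlQ p Δ ((2 * p * r) ^ 2)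

/-- statements about the cyclotomic ring -/
def AllO (Q : ∀ (O : Type) [CommRing O], O → Prop) : Prop :=
  2 < p → ∀ (O : Type) [CommRing O] (ζ : O), CycR p ζ → Q O ζ

/-- existence of the metabelian groups -/
def MbStmt : Prop :=
  AllO p fun _ _ ζ => ∀ L r, 2 ≤ L → 1 ≤ r → ∃ (S : Sy p) (co : _), Cd ζ L r S co

/-- large layers give homomorphisms -/
def MdStmt : Prop :=
  AllO p fun _ _ ζ => ∀ m r (S : Sy p) co, Cd ζ (m + 1) r S co → 1 ≤ m → m ≤ p - 1 →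
    ∀ (Q : Type) [Group Q] [Finite Q] (χ : Q →* Cp p) (x : Q), x ^ p = 1 →
    χ x = Multiplicative.ofAdd 1 → ¬ Sm χ x m r →
    ∃ Θ : Q →* S.P, (∀ g, S.T.pi (Θ g) = χ g) ∧ Θ.range ⊔ S.T.F 2 = ⊤

end

end Pool.Agent.MP_f68ac8_nt.Zk
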