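import Mathlib
import Pool.Agent.Mg.Fe23604m.Gb5685d
import Pool.Agent.Mg.Fe23604m.G9a9246
import Pool.Agent.Mg.Fe23604m.G81ce00

set_option linter.all false

section

/-! Matrices with reciprocity, and counting solutions with one equation removed. -/

namespace Pool.Agent.MP_f68ac8_nt.Zq

open Matrix Finset Zv Zk
open scoped BigOperators commutatorElement

section
variable {d : ℕ}

/-- matrices over the field with two elements -/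
abbrev Mx (d : ℕ) : Type := Fin d → Fin d → ZMod 2

/-- signs -/
def sg (x : ZMod 2) : ℝ := if x = 0 then 1 else -1

/-- the diagonal -/
def dg (r : Mx d) (i : Fin d) : ZMod 2 := r i i

/-- the matrix with reciprocity that has the given lower triangle -/
def red (r : Mx d) : Mx d := fun i j => if j ≤ i then r i j else r j i + r i i * r j j

/-- the quadratic form of a matrix -/
def Qf (Φ : Mx d) (ε : Fin d → ZMod 2) : ZMod 2 :=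
  ∑ i, ∑ j, if i < j then ε i * ε j * Φ i j else 0

/-- the kernel of the matrix with row sums zero -/
def Kp (r : Mx d) : Set (Fin d → ZMod 2) := {a | ∀ i, ∑ j, r i j * (a j - a i) = 0}

variable {a b c e : ℕ}

/-- the image of complex conjugation -/
def cc (ε : Fin d → ZMod 2) (τ : Fin d → V 2 a) : V 2 a := ∑ j, ε j • τ j

/-- the first index whose type is the image of complex conjugation -/
def fst (ε : Fin d → ZMod 2) (τ : Fin d → V 2 a) : Finset (Fin d) :=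
  univ.filter fun i => τ i = cc ε τ ∧ ∀ j < i, τ j ≠ cc ε τ

variable (N : Ln 2 a b c e) (r : Mx d)

/-- admissible types -/
def Ad (τ : Fin d → V 2 a) : Prop := N.Eq1 r τ ∧ (cc (dg r) τ = 0 ∨ cc (dg r) τ ∈ N.ty)

/-- the kernel with one equation removed -/
def KerW : Set ((Fin d → V 2 a) × (Fin d → V 2 c)) :=
  {x | N.Eq1 r x.1 ∧ (∀ i, x.2 i ∈ N.A (x.1 i)) ∧ ∀ i ∉ fst (dg r) x.1, N.Mv r x.1 x.2 i = 0}

/-- the kernel tested against the dual vectors -/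
def KerV : Set ((Fin d → V 2 a) × (Fin d → V 2 c)) :=
  {x | N.Eq1 r x.1 ∧ (∀ i, x.2 i ∈ N.A (x.1 i)) ∧
    ∀ i, ∀ y ∈ N.La (x.1 i), y ⬝ᵥ N.Mv r x.1 x.2 i = 0}

/-- all nonzero dual vectors of the remaining equations are rich -/
def GoodE (m : ℕ) : Prop :=
  ∀ τ y, Ad N r τ → N.Du r τ y → (∀ i ∈ fst (dg r) τ, y i = 0) → y ≠ 0 → Rich τ m y

end

/-- colours -/
structure Cl (a b c e : ℕ) where
  t : V 2 a
  v : V 2 c
  z : V 2 b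
  y : V 2 e
  deriving DecidableEq, Fintype

section
variable {a b c e : ℕ} (N : Ln 2 a b c e)

/-- the pairing of two colours -/
def Ph (s s' : Cl a b c e) : ZMod 2 :=
  s.z ⬝ᵥ N.b1 s.t s'.t + s.y ⬝ᵥ (N.b2 s.t s'.v - N.b2 s'.t s.v)

/-- valid colours -/
def Vl (s : Cl a b c e) : Prop := s.t ∈ N.ty ∧ s.v ∈ N.A s.t ∧ s.y ∈ N.La s.t

/-- the weight of a type -/
noncomputable def wq (τ : V 2 a) : ℝ := 1 / (2 ^ b * Nat.card (N.A τ))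

/-- sets of valid colours on which the pairing is symmetric -/
def Unl (U : Finset (Cl a b c e)) : Prop :=
  (∀ s ∈ U, Vl N s) ∧ ∀ s ∈ U, ∀ s' ∈ U, Ph N s s' = Ph N s' s

/-- types with a translation -/
def Exo (U : Finset (Cl a b c e)) (τ : V 2 a) : Prop :=
  ∃ s₁ ∈ U, ∃ s₂ ∈ U, s₁ ≠ s₂ ∧ s₁.t = τ ∧ s₂.t = τ ∧ ∃ f : V 2 a →ₗ[ZMod 2] ZMod 2, f τ = 1 ∧
    ∀ s ∈ U, Ph N s₁ s + Ph N s₂ s = f s.t ∧ (s.y = 0 → f s.t = 0)

end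

section
variable {P : Type} [Group P] {d : ℕ} {U : Fin d → Type}

/-- replace some words by the empty word -/
def dr (J : Finset (Fin d)) (y : (Σ j, U j) → FreeGroup (Σ j, U j)) :
    (Σ j, U j) → FreeGroup (Σ j, U j) := fun u => if u.1 ∈ J then 1 else y u

variable (T : Fil 2 P) (D : Gd 2 P) (La : LaT D)

/-- generic matrices -/
def GoodQ (L l B : ℕ) (r : Mx d) : Prop :=
  (∀ i, 1 ≤ i → i ≤ l → (KerW (lnOf T D La i) r).ncard ≤ B) ∧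
    ∀ i, l ≤ i → i + 2 + 1 ≤ L → GoodE (lnOf T D La i) r (i + 1)

variable (y : (Σ j, U j) → FreeGroup (Σ j, U j)) (q : ∀ j, U j)

/-- the solutions of the remaining equations -/
def SolQ (l : ℕ) : Set (Fin d → P) :=
  {x | Cand T l x ∧ Ad (lnOf T D La l) (rr y q 2) (tyOf D x) ∧
    Eqs (dr (fst (dg (rr y q 2)) (tyOf D x)) y) q T l x}

/-- the number of classes of solutions -/
noncomputable def Nq (l : ℕ) : ℝ := (SolQ T D La y q l).ncard / Nat.card (T.F (l + 1)) ^ d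

open Classical in
/-- a term of the error -/
noncomputable def Tq (C : Mx d → Prop) (J : Mx d → Finset (Fin d)) (l : ℕ) (x : Fin d → P)
    (z : Fin d → V 2 (D.k (l + 1 + 1))) : ℂ :=
  if C (rr y q 2) ∧ Eqs (dr (J (rr y q 2)) y) q T l x then ZMod.stdAddChar (Ob y q D l x z) else 0

/-- true solutions with an involution of the right type -/
structure Tru (x : Fin d → P) : Prop where
  xx : ∀ i, x i ∈ XX T
  gen : Subgroup.closure (Set.range x) ⊔ T.F 2 = ⊤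
  eq : ∀ i, ⁅x i, Yw y q x i⁆ = 1
  cj : ∃ c : P, c ^ 2 = 1 ∧ D.e 1 c = cc (dg (rr y q 2)) (tyOf D x)

end

section
variable {P : Type} [Group P] (T : Fil 2 P) (L l : ℕ)

/-- few lifts of involutions -/
def Ab (a : ℕ) : Prop :=
  ∀ i, l ≤ i → i + 2 + 1 ≤ L → ∀ x ∈ XX T, ∃ H : Subgroup P, T.F (i + 2) ≤ H ∧ H ≤ T.F (i + 1) ∧
    Nat.card H ≤ a * Nat.card (T.F (i + 2)) ∧
    ∀ x' ∈ XX T, x⁻¹ * x' ∈ T.F 2 → ∀ v ∈ T.F (i + 1), x' * v ∈ XX T → v ∈ H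

/-- a set of distinct automorphisms -/
structure Au (Φ : Finset (P →* P)) : Prop where
  pi : ∀ φ ∈ Φ, ∀ g, T.pi (φ g) = T.pi g
  fil : ∀ φ ∈ Φ, ∀ i, 1 ≤ i → ∀ g ∈ T.F i, φ g ∈ T.F i
  surj : ∀ φ ∈ Φ, Function.Surjective φ
  sep : ∀ φ ∈ Φ, ∀ φ' ∈ Φ, (∀ g ∈ T.F l, (φ g)⁻¹ * φ' g ∈ T.F (L - 2 + 1)) → φ = φ'

/-- truncated systems with many automorphisms -/
structure TE (n : ℕ) : Prop extends TS T L l n where
  ex : ∃ a : ℕ, 1 ≤ a ∧ Ab T L l a ∧ ∃ Φ, Au T L l Φ ∧ (2 * a) ^ (L - 2 - l) ≤ n * Φ.card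

/-- further properties of truncated systems -/
structure TX (k : ℕ) : Prop where
  two : 2 ≤ l
  x1 : ∀ i, l ≤ i → ∀ g ∈ T.F (i + 1), ∃ h ∈ T.F i, (h ^ 2)⁻¹ * g ∈ T.F (i + 2)
  x2 : ∀ i, l ≤ i → i + 3 ≤ L → ∀ x, ∃ v ∈ T.F (i + 1), x * v * x⁻¹ * v ∉ T.F (i + 3)
  x3 : ∀ i, l ≤ i → i + k ≤ L → ∀ g ∈ T.F l, (∀ h ∈ T.F l, ⁅g, h⁆ ∈ T.F (i + k)) → g ∈ T.F i

/-- further properties of valued systems -/
structure VX (k : ℕ) : Prop where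
  two : 2 ≤ l
  x1 : ∀ i, l ≤ i → ∀ g ∈ T.F (i + 1), ∃ h ∈ T.F i, (h ^ 2)⁻¹ * g ∈ T.F (i + 2)
  x2 : ∀ i, l ≤ i → ∀ x, ∃ v ∈ T.F (i + 1), x * v * x⁻¹ * v ∉ T.F (i + 3)
  x3 : ∀ i, l ≤ i → ∀ g ∈ T.F l, (∀ h ∈ T.F l, ⁅g, h⁆ ∈ T.F (i + k)) → g ∈ T.F i

end

open Classical in
/-- averages over matrices with reciprocity -/
def RdStmt : Prop :=
  ∀ (d : ℕ) (Φ : Mx d) (g : (Fin d → ZMod 2) → ℝ), (∀ i, Φ i i = 0) →
    (𝔼 r : Mx d, g (dg r) * sg (∑ i, ∑ j, red r i j * Φ i j) =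
      if ∀ i j, Φ i j = Φ j i then 𝔼 ε, g ε * sg (Qf Φ ε) else 0) ∧
    ((∀ i j, Φ i j = Φ j i) → ∀ i i', i ≠ i' → Φ i i' = 1 →
      (∀ ε, g (ε + Pi.single i 1 + Pi.single i' 1) = g ε) →
      (∀ ε, g ε ≠ 0 → ∑ k, ε k * (Φ i k + Φ i' k) = 0) → 𝔼 ε, g ε * sg (Qf Φ ε) = 0)

/-- statements about all linear data -/
def AllN (Q : ∀ (a b c e : ℕ), Ln 2 a b c e → Prop) : Prop :=
  ∀ (a b c e : ℕ) (N : Ln 2 a b c e), N.Ok → Q a b c e N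

open Classical in
/-- Fourier expansions -/
def FouStmt : Prop :=
  AllN fun a b c e N => ∀ (d : ℕ) (r : Mx d) (τ : Fin d → V 2 a), (∀ i, τ i ∈ N.ty) →
    (∀ y : Fin d → V 2 e, (∀ i, y i ∈ N.La (τ i)) →
      (if N.Eq1 r τ ∧ N.Du r τ y then 1 else 0 : ℝ) =
        ∑ s : Fin d → Cl a b c e with ∀ i, Vl N (s i) ∧ (s i).t = τ i ∧ (s i).y = y i,
          (∏ i, wq N (τ i)) * sg (∑ i, ∑ j, r i j * Ph N (s i) (s j))) ∧
    ∀ v : Fin d → V 2 c, (∀ i, v i ∈ N.A (τ i)) →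
      (if (τ, v) ∈ KerV N r then 1 else 0 : ℝ) =
        ∑ s : Fin d → Cl a b c e with ∀ i, Vl N (s i) ∧ (s i).t = τ i ∧ (s i).v = v i,
          (∏ i, wq N (τ i)) * sg (∑ i, ∑ j, r i j * Ph N (s i) (s j))

/-- totally singular sets -/
def LagStmt : Prop :=
  ∀ (A B : Type) [AddCommGroup A] [Module (ZMod 2) A] [Finite A] [AddCommGroup B]
    [Module (ZMod 2) B] [Finite B] (β : B →ₗ[ZMod 2] A →ₗ[ZMod 2] ZMod 2),
    (∀ y, (∀ v, β y v = 0) → y = 0) → Nat.card B = Nat.card A → ∀ X : Finset (A × B),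
    (∀ x ∈ X, ∀ x' ∈ X, β (x.2 + x'.2) (x.1 + x'.1) = 0) →
    X.card ≤ Nat.card A ∧ (Nat.card A ≤ X.card → X.Nonempty → (∃ x ∈ X, x.2 = 0) ∨
      ∃ x ∈ X, ∃ v, (x.1 + v, x.2) ∈ X ∧ β x.2 v = 1)

/-- the mass of symmetric sets of colours -/
def UnlStmt : Prop :=
  AllN fun a _ _ _ N => (∀ s, Ph N s s = 0) ∧ ∀ U, Unl N U → ∑ s ∈ U, wq N s.t ≤ 1 ∧
    (1 ≤ ∑ s ∈ U, wq N s.t →
      (∀ σ ∈ N.ty, σ ∈ Submodule.span (ZMod 2) {τ : V 2 a | ∃ s ∈ U, s.t = τ} → ∃ s ∈ U, s.t = σ) ∧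
      ∀ s ∈ U, (∃ s' ∈ U, s'.t = s.t ∧ s'.y = 0) ∨ Exo N U s.t)

/-- the first moment of the kernel -/
def K1Stmt : Prop :=
  AllN fun a b c _ N => ∀ d : ℕ,
    𝔼 r : Mx d, ((KerV N (red r)).ncard : ℝ) ≤ 2 ^ 2 ^ (a + b + 2 * c) ∧
    ∀ r : Mx d, (KerW N r).ncard ≤ 2 ^ c * (KerV N r).ncard

/-- the low levels -/
def LowStmt : Prop :=
  AllP 2 fun _ _ _ T D La L _ => ∀ (d : ℕ) (U : Fin d → Type) y (q : ∀ j, U j) i, 1 ≤ i →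
    i + 2 + 1 ≤ L → Nq T D La y q 1 ≤ (KerW (lnOf T D La i) (rr y q 2)).ncard ∧
    Nq T D La y q (i + 1) ≤ Nq T D La y q i * (KerW (lnOf T D La i) (rr y q 2)).ncard

open Classical in
/-- the recursion -/
def RecStmt : Prop :=
  AllP 2 fun P _ _ T D La L l => ∀ (d i a : ℕ), l ≤ i → i + 2 + 1 ≤ L → 1 ≤ a → Ab T L l a →
    ∃ Bs : Finset (Fin d → P), (∀ x ∈ Bs, Cand T i x) ∧
    ∀ (U : Fin d → Type) y (q : ∀ j, U j), Nq T D La y q (i + 1) ≤ a * (Nq T D La y q i +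
      ∑ x ∈ Bs, ∑ z : Fin d → V 2 (D.k (i + 1 + 1)) with z ≠ 0,
        (Tq T D y q (fun r => Ad (lnOf T D La i) r (tyOf D x) ∧
          (lnOf T D La i).Du r (tyOf D x) z ∧ ∀ j ∈ fst (dg r) (tyOf D x), z j = 0)
          (fun r => fst (dg r) (tyOf D x)) i x z).re)

/-- a true solution has many images -/
def OrbStmt : Prop :=
  AllP 2 fun P _ _ T D La L l => ∀ Φ, Au T L l Φ → ∀ (d : ℕ) (U : Fin d → Type) y (q : ∀ j, U j)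
    (x : Fin d → P), Tru T D y q x → (Φ.card : ℝ) ≤ Nq T D La y q (L - 2)

open Classical in
/-- the error terms are small -/
def ErrStmt : Prop :=
  AllP 2 fun P _ _ T D La L l => ∀ (d : ℕ) (ε : ℝ), 0 < ε → ∃ η, 0 < η ∧
    ∀ (U : Fin d → Type) [∀ j, Fintype (U j)] (w : ∀ j, U j → ℝ) (Y : Type) [Fintype Y]
      [Nonempty Y] (y : (Σ j, U j) → Y → FreeGroup (Σ j, U j)), Prob w → (∀ j u, w j u ≤ η) →
      EQ 2 P w y η → ∀ i (x : Fin d → P) z (C : Mx d → Prop) (J : Mx d → Finset (Fin d)), l ≤ i →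
      i + 2 + 1 ≤ L → Cand T i x → (∀ j, z j ∈ La i (tyOf D x j)) → Rich (tyOf D x) (i + 1) z →
      (∀ r, C r → ∀ j ∈ J r, z j = 0) →
      ‖𝔼 a : (Σ j, U j) → Y, Ex w fun q => Tq T D (fun u => y u (a u)) q C J i x z‖ ≤ ε

open Classical in
/-- the main estimate -/
def MultiStmt : Prop :=
  ∀ (P : Type) [Group P] [Fintype P] (T : Fil 2 P) (D : Gd 2 P) (La : LaT D) (L l n : ℕ),
    Pk T D La L l n → TE T L l n → ∀ (B d : ℕ) (ε : ℝ), 0 < ε → ∃ η, 0 < η ∧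
    ∀ (U : Fin d → Type) [∀ j, Fintype (U j)] (w : ∀ j, U j → ℝ) (Y : Type) [Fintype Y]
      [Nonempty Y] (y : (Σ j, U j) → Y → FreeGroup (Σ j, U j)), Prob w → (∀ j u, w j u ≤ η) →
      EQ 2 P w y η → ∀ X : (∀ j, U j) → Prop, (∀ q, X q → ∀ a : (Σ j, U j) → Y,
        GoodQ T D La L l B (rr (fun u => y u (a u)) q 2) ∧
          ∃ x : Fin d → P, Tru T D (fun u => y u (a u)) q x) →
      (Ex w fun q => if X q then (1 : ℝ) else 0) ≤ n * B ^ l / 2 ^ (L - 2 - l) + ε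

/-- inner automorphisms -/
def TxStmt : Prop :=
  ∀ (P : Type) [Group P] [Fintype P] (T : Fil 2 P) (L l n k : ℕ), TS T L l n → TX T L l k →
    TE T L l (n ^ (k + 1))

/-- truncation -/
def TruncStmt : Prop :=
  ∀ (P : Type) [Group P] (T : Fil 2 P) (l k : ℕ), VS T l → VX T l k → ∃ n, ∀ L, 2 ≤ L →
    ∃ (P' : Type) (_ : Group P') (_ : Fintype P') (T' : Fil 2 P') (f : P →* P'),
      TE T' L l n ∧ Function.Surjective f ∧ (∀ g, T'.pi (f g) = T.pi g) ∧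
      (∀ g ∈ T.F L, f g = 1) ∧ ∀ g ∈ T.F 2, f g ∈ T'.F 2

/-- generalised dihedral groups -/
def MbStmt : Prop :=
  ∀ L r : ℕ, 2 ≤ L → 1 ≤ r → ∃ (S : Sy 2) (co : _), Cd (-1 : ℤ) L r S co ∧ TS S.T L 1 (2 * 4 ^ r)

/-- automorphisms of dihedral groups -/
def DihStmt : Prop :=
  ∀ (L : ℕ) (S : Sy 2) co, 2 ≤ L → Cd (-1 : ℤ) L 1 S co → TS S.T L 1 8 → TE S.T L 1 8

/-- homomorphisms to generalised dihedral groups -/
def MdStmt : Prop :=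
  ∀ (m r : ℕ) (S : Sy 2) co, 1 ≤ m → Cd (-1 : ℤ) (m + 1) r S co →
    ∀ (Γ : Type) [Group Γ] (χ : Γ →* Cp 2) (N : Subgroup Γ) (f : Γ → Fin r → ZMod (2 ^ m)),
    N.Normal → (∃ g, χ g ≠ 1) → N ≤ χ.ker →
    Subgroup.closure {x | x ^ 2 = 1 ∧ χ x ≠ 1} ⊔ N = ⊤ →
    (∀ g h, χ g = 1 → χ h = 1 → f (g * h) = f g + f h) → (∀ g ∈ N, f g = 0) →
    (∀ v, ∃ g w, χ g = 1 ∧ f g = v + 2 • w) →
    ∃ Θ : Γ →* S.P, (∀ g, S.T.pi (Θ g) = χ g) ∧ (∀ g, χ g = 1 → f g = 0 → Θ g = 1) ∧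
      Θ.range ⊔ S.T.F 2 = ⊤

/-- solutions in generalised dihedral groups -/
def KlStmt : Prop :=
  ∀ (r : ℕ) (S : Sy 2) co, Cd (-1 : ℤ) 3 r S co → ∀ (d : ℕ) (U : Fin d → Type) y (q : ∀ j, U j)
    (x : Fin d → S.P), (∀ i, x i ∈ XX S.T) → Subgroup.closure (Set.range x) ⊔ S.T.F 2 = ⊤ →
    (∀ i, ⁅x i, Yw y q x i⁆ = 1) → 2 ^ r ≤ (Kp (rr y q 2)).ncard

end Pool.Agent.MP_f68ac8_nt.Zq

end

section

/-! Matrices with reciprocity that are random in the large rows, and explicit error terms. -/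

namespace Pool.Agent.MP_f68ac8_nt.Nd

open Zq Zv Zk Matrix Finset
open scoped BigOperators commutatorElement

section
variable {d : ℕ}

/-- reciprocity -/
def Rcp (r : Mx d) : Prop := ∀ i j, i ≠ j → r j i = r i j + r i i * r j j

/-- functions that do not depend on the row and the column `i` -/
def Off (i : Fin d) (h : Mx d → ℝ) : Prop :=
  ∀ r r' : Mx d, (∀ j k, j ≠ i → k ≠ i → r j k = r' j k) → h r = h r'

/-- measures on matrices with oscillation in the rows in `Lg` -/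
structure Osc (ν : Mx d → ℝ) (Lg : Finset (Fin d)) (η : ℝ) : Prop where
  pos : 0 ≤ η
  nn : ∀ r, 0 ≤ ν r
  rcp : ∀ r, ν r ≠ 0 → Rcp r
  osc : ∀ i ∈ Lg, ∀ a : Fin d → ZMod 2, a ≠ 0 → ∀ h : Mx d → ℝ, (∀ r, |h r| ≤ 1) → Off i h →
    |∑ r, ν r * (h r * sg (∑ j, a j * r i j))| ≤ η

/-- most indices are large, and many are small -/
structure Thin (δ : ℝ) (m : ℕ) (Sm Lg : Finset (Fin d)) : Prop where
  dis : Disjoint Sm Lg
  thin : (d : ℝ) ≤ (1 + δ) * Lg.card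
  lg : m ≤ Lg.card
  sm : m ≤ Sm.card

variable (Sm Lg : Finset (Fin d)) {a b c e : ℕ}

/-- every type occurs many times at small indices with zero dual vector -/
def RichS (τ : Fin d → V 2 a) (m : ℕ) (y : Fin d → V 2 e) : Prop :=
  ∃ t ∈ Lg, y t ≠ 0 ∧ ∀ i, m ≤ (Sm.filter fun j => τ j = τ i ∧ y j = 0).card

/-- all nonzero dual vectors of the remaining equations are rich -/
def GdE (N : Ln 2 a b c e) (r : Mx d) (m : ℕ) : Prop :=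
  ∀ τ y, Ad N r τ → N.Du r τ y → (∀ i ∈ fst (dg r) τ, y i = 0) → y ≠ 0 → RichS Sm Lg τ m y

variable {P : Type} [Group P]

/-- generic matrices -/
def GdQ (T : Fil 2 P) (D : Gd 2 P) (La : LaT D) (L l B : ℕ) (r : Mx d) : Prop :=
  (∀ i, 1 ≤ i → i ≤ l → (KerW (lnOf T D La i) r).ncard ≤ B) ∧
    ∀ i, l ≤ i → i + 2 + 1 ≤ L → GdE Sm Lg (lnOf T D La i) r (i + 1)

/-- few data of low complexity agree -/
def DatN {U : Fin d → Type} (S : Finset (Fin d)) (x : Fin d → P)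
    (y g : (Σ j, U j) → FreeGroup (Σ j, U j)) (q q' : ∀ j, U j) : Prop :=
  ∀ i J, J ⊆ S ∨ Sᶜ ⊆ J → (∃ s ∈ S, s ∉ J ∧ s ≠ i) →
    Yw y q (msk J x) i = Yw y q' (msk J x) i ∧ Yw g q (msk J x) i = Yw g q' (msk J x) i

/-- weights that are averages of products -/
def Tw {U : Fin d → Type} [∀ j, Fintype (U j)] (w : ∀ j, U j → ℝ) (κ : (∀ j, U j) → ℝ) : Prop :=
  (∀ q, 0 ≤ κ q) ∧ ∀ (F : (∀ j, U j) → ℂ) (b : ℝ),
    (∀ ζ : ∀ j, U j → ℂ, (∀ j u, ‖ζ j u‖ ≤ 1) → ‖Ex w fun q => (∏ j, ζ j (q j)) * F q‖ ≤ b) →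
    ‖Ex w fun q => (κ q : ℂ) * F q‖ ≤ b

variable {Λ : Type}

/-- the letters -/
abbrev Lr (d : ℕ) (Λ : Type) : Type := Σ _ : Fin d, Λ

/-- distinct entries -/
def OKp (S : Finset (Fin d)) (q₀ q₁ : Fin d → Λ) : Prop :=
  ∀ i ∈ S, ∀ j ∈ S, q₀ i ≠ q₁ j ∧ (i ≠ j → q₀ i ≠ q₀ j ∧ q₁ i ≠ q₁ j)

/-- the values of the letters on a cube -/
noncomputable def Wc (S : Finset (Fin d)) (x : Fin d → P) (q₀ q₁ : Fin d → Λ)
    (ω : Finset (Fin d)) : Lr d Λ → P :=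
  plc (U := fun _ => Λ) (ω.piecewise q₁ q₀) (msk S x)

variable (P) in
/-- equidistribution of the random words -/
def EQN [Fintype P] [Fintype Λ] (w : Fin d → Λ → ℝ) {Y : Type} [Fintype Y]
    (y : Lr d Λ → Y → FreeGroup (Lr d Λ)) (L : ℕ) (η : ℝ) : Prop :=
  ∀ t ∈ Lg, ∀ S ⊆ Sm, S.card ≤ L → ∀ (x : Fin d → P) (q₀ q₁ : Fin d → Λ)
    (κ : (Finset (Fin d) → P) → ZMod 2), (∀ j ∈ S, w j (q₀ j) ≠ 0 ∧ w j (q₁ j) ≠ 0) →
    OKp S q₀ q₁ → Shf (piV (Wc S x q₀ q₁)).range κ →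
    ‖∑ u, w t u • 𝔼 a, Av (piV (Wc S x q₀ q₁)).range κ (piV (Wc S x q₀ q₁) (y ⟨t, u⟩ a))‖ ≤ η

end

/-- averages over matrices with reciprocity -/
def RdN : Prop :=
  ∀ (d : ℕ) (ν : Mx d → ℝ) (Lg : Finset (Fin d)) (η : ℝ), Osc ν Lg η →
    ∀ (Φ : Mx d) (g : (Fin d → ZMod 2) → ℝ), (∀ i, Φ i i = 0) → (∀ ε, |g ε| ≤ 1) →
    ((∃ i ∈ Lg, ∃ j, Φ i j ≠ Φ j i) →
      |∑ r, ν r * (g (dg r) * sg (∑ i, ∑ j, r i j * Φ i j))| ≤ 2 * η) ∧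
    ((∀ i j, Φ i j = Φ j i) → ∀ i ∈ Lg, ∀ i' ∈ Lg, i ≠ i' → Φ i i' = 1 →
      (∀ ε, g (ε + Pi.single i 1 + Pi.single i' 1) = g ε) →
      (∀ ε, g ε ≠ 0 → ∑ k, ε k * (Φ i k + Φ i' k) = 0) →
      |∑ r, ν r * (g (dg r) * sg (∑ i, ∑ j, r i j * Φ i j))| ≤ 2 * η)

open Classical in
/-- sequences of colours -/
def ColN : Prop :=
  ∀ (Ω : Type) [Fintype Ω] [DecidableEq Ω] (ω : Ω → ℝ) (R : Ω → Ω → Prop), (∀ a, 0 ≤ ω a) →
    (∀ a, R a a) → (∀ a b, R a b → R b a) →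
    (∀ U : Finset Ω, (∀ a ∈ U, 0 < ω a) → (∀ a ∈ U, ∀ b ∈ U, R a b) → ∑ a ∈ U, ω a ≤ 1) →
    ∃ δ : ℝ, 0 < δ ∧
      (∀ (d : ℕ) (Lg : Finset (Fin d)), (d : ℝ) ≤ (1 + δ) * Lg.card →
        ∑ s : Fin d → Ω with (∀ i ∈ Lg, ∀ j, R (s i) (s j)), ∏ j, ω (s j) ≤
          2 ^ (univ.filter fun a => 0 < ω a).card) ∧
      ∀ (m : ℕ) (ε : ℝ), 0 < ε → ∃ m₀, ∀ (d : ℕ) (Sm Lg : Finset (Fin d)), Thin δ m₀ Sm Lg →
        ∑ s : Fin d → Ω with ((∀ i ∈ Lg, ∀ j, R (s i) (s j)) ∧ ¬ (1 ≤ ∑ a ∈ Lg.image s, ω a ∧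
          ∀ j, s j ∈ Lg.image s ∧ m ≤ (Sm.filter fun j' => s j' = s j).card)), ∏ j, ω (s j) ≤ ε

/-- the first moments of the kernels -/
def K1N : Prop :=
  (AllN fun a b c _ N => ∃ δ C : ℝ, 0 < δ ∧ 1 ≤ C ∧
    ∀ (d : ℕ) (ν : Mx d → ℝ) (Lg : Finset (Fin d)) (η : ℝ), Osc ν Lg η →
      (d : ℝ) ≤ (1 + δ) * Lg.card → ∑ r, ν r * (KerV N r).ncard ≤
        2 ^ 2 ^ (a + b + 2 * c) * ∑ r, ν r + C ^ (d + 1) * η) ∧
  ∃ δ C : ℝ, 0 < δ ∧ 1 ≤ C ∧ ∀ (d : ℕ) (ν : Mx d → ℝ) (Lg : Finset (Fin d)) (η : ℝ), Osc ν Lg η →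
    (d : ℝ) ≤ (1 + δ) * Lg.card → ∑ r, ν r * (Kp r).ncard ≤ 16 * ∑ r, ν r + C ^ (d + 1) * η

open Classical in
/-- dual vectors are rich -/
def K2N : Prop :=
  AllN fun _ _ _ _ N => ∃ δ C : ℝ, 0 < δ ∧ 1 ≤ C ∧ ∀ (m : ℕ) (ε : ℝ), 0 < ε → ∃ m₀,
    ∀ (d : ℕ) (ν : Mx d → ℝ) (Sm Lg : Finset (Fin d)) (η : ℝ), Osc ν Lg η → Thin δ m₀ Sm Lg →
      ∑ r, ν r * (if GdE Sm Lg N r m then 0 else 1) ≤ ε * ∑ r, ν r + C ^ (d + 1) * η

open Classical in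
/-- most matrices are generic -/
def GenN : Prop :=
  ∀ (l n : ℕ) (ε : ℝ), 0 < ε → ∃ B, ∀ (P : Type) [Group P] [Fintype P] (T : Fil 2 P) (L : ℕ),
    TS T L l n → l + 2 + 1 ≤ L → ∃ (D : Gd 2 P) (La : LaT D), Pk T D La L l n ∧
      ∃ (δ C : ℝ) (m₀ : ℕ), 0 < δ ∧ 1 ≤ C ∧
        ∀ (d : ℕ) (ν : Mx d → ℝ) (Sm Lg : Finset (Fin d)) (η : ℝ), Osc ν Lg η → Thin δ m₀ Sm Lg →
          ∑ r, ν r * (if GdQ Sm Lg T D La L l B r then 0 else 1) ≤ ε * ∑ r, ν r + C ^ (d + 1) * η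

/-- the Gowers-Cauchy-Schwarz inequality -/
def GcsN : Prop :=
  ∀ (R : Type) [CommRing R] (ψ : AddChar R ℂ) (d : ℕ) (U : Fin d → Type) [∀ j, Fintype (U j)]
    (w : ∀ j, U j → ℝ), (∀ x, ‖ψ x‖ = 1) → Prob w → ∀ (T : Finset (Fin d)) (t : Fin d), t ∉ T →
    ∀ (c : Fin d → (∀ j, U j) → ℂ) (G : (∀ j, U j) → R), (∀ i q, ‖c i q‖ ≤ 1) →
    (∀ i ∈ insert t T, ∀ q u, c i (Function.update q i u) = c i q) →
    ‖Ex w fun q => (∏ i ∈ insert t T, c i q) * ψ (G q)‖ ^ 2 ^ (T.card + 1) ≤ Bx ψ w T t G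

/-- the inequality with a factor of low complexity -/
def BoxN : Prop :=
  ∀ (d : ℕ) (U : Fin d → Type) [∀ j, Fintype (U j)] (w : ∀ j, U j → ℝ), Prob w →
    ∀ (T : Finset (Fin d)) (t : Fin d), t ∉ T → T.Nonempty →
    ∀ (I A : Type) [Fintype I] [Fintype A] (f : I → (∀ j, U j) → A) (Θ : (∀ j, U j) → ℂ)
      (G : (∀ j, U j) → ZMod 2) (ζ : ∀ j, U j → ℂ),
    (∀ i, ∃ s ∈ insert t T, ∀ q u, f i (Function.update q s u) = f i q) → (∀ q, ‖Θ q‖ ≤ 1) →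
    (∀ q q', (∀ j ∉ insert t T, q j = q' j) → (∀ i, f i q = f i q') → Θ q = Θ q') →
    (∀ j u, ‖ζ j u‖ ≤ 1) →
    ‖Ex w fun q => (∏ j, ζ j (q j)) * (Θ q * ZMod.stdAddChar (G q))‖ ^ 2 ^ (T.card + 1) ≤
      ((Fintype.card A : ℝ) ^ Fintype.card I) ^ 2 ^ (T.card + 1) * Bx ZMod.stdAddChar w T t G

/-- collisions -/
def MomN : Prop :=
  ∀ (d : ℕ) (Λ : Type) [Fintype Λ] (w : Fin d → Λ → ℝ) (η a : ℝ) (S : Finset (Fin d)),
    Prob (U := fun _ => Λ) w → (∀ j ∈ S, ∀ u, w j u ≤ η) → 0 ≤ a →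
    ∀ f : (Fin d → Λ) → (Fin d → Λ) → ℝ, (∀ q₀ q₁, f q₀ q₁ ≤ 1 + a) →
    (∀ q₀ q₁, (∀ j ∈ S, w j (q₀ j) ≠ 0 ∧ w j (q₁ j) ≠ 0) → OKp S q₀ q₁ → f q₀ q₁ ≤ a) →
    (Ex (U := fun _ => Λ) w fun q₀ => Ex (U := fun _ => Λ) w fun q₁ => f q₀ q₁) ≤
      a + 3 * S.card ^ 2 * η

/-- low complexity of the equations -/
def LcN : Prop :=
  AllT 2 fun P _ _ T _ _ _ => ∀ D : Gd 2 P, D.Ok T → ∀ (d : ℕ) (U : Fin d → Type) (l : ℕ)
    (S : Finset (Fin d)) (t : Fin d) (x : Fin d → P) (z : Fin d → V 2 (D.k (l + 1 + 1)))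
    (φ : P → ZMod 2), 1 ≤ l → S.card = l + 1 → t ∉ S → (∀ i ∈ S, z i = 0) →
    (∀ c ∈ T.F (l + 1), ∀ h, φ (c * h) = z t ⬝ᵥ D.b (l + 1) (tyOf D x t) (D.e (l + 1) c) + φ h) →
    ∀ y g (q q' : ∀ j, U j), DatN (insert t S) x y g q q' → Eqs y q T l x →
      Eqs y q' T l x ∧ Ob y q D l x z - φ (Yw (g * y * g⁻¹) q (msk S x) t) =
        Ob y q' D l x z - φ (Yw (g * y * g⁻¹) q' (msk S x) t)

/-- the error terms are small -/
def ErrN : Prop :=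
  AllP 2 fun P _ _ T D La L l => ∃ C : ℝ, 1 ≤ C ∧ ∀ (d : ℕ) (Λ : Type) [Fintype Λ]
    (w : Fin d → Λ → ℝ) (Y : Type) [Fintype Y] [Nonempty Y] [Fintype (Lr d Λ → Y)]
    (y : Lr d Λ → Y → FreeGroup (Lr d Λ)) (Sm Lg : Finset (Fin d)) (ξ : ℝ), 0 ≤ ξ → ξ ≤ 1 →
    Prob (U := fun _ => Λ) w → Disjoint Sm Lg → (∀ j ∈ Sm ∪ Lg, ∀ u, w j u ≤ ξ ^ 2 ^ L) →
    EQN Sm Lg P w y L (ξ ^ 2 ^ L) →
    ∀ i (x : Fin d → P) z (A : Mx d → Prop) (J : Mx d → Finset (Fin d)) (ζ : Fin d → Λ → ℂ),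
      l ≤ i → i + 2 + 1 ≤ L → Cand T i x → (∀ j, z j ∈ La i (tyOf D x j)) →
      RichS Sm Lg (tyOf D x) (i + 1) z → (∀ r, A r → ∀ j ∈ J r, z j = 0) → (∀ j u, ‖ζ j u‖ ≤ 1) →
      ‖𝔼 a : Lr d Λ → Y, Ex (U := fun _ => Λ) w fun q => (∏ j, ζ j (q j)) *
        Tq (U := fun _ => Λ) T D (fun u => y u (a u)) q A J i x z‖ ≤ C ^ (d + 1) * ξ

open Classical in
/-- the main estimate -/
def MultiN : Prop :=
  ∀ (P : Type) [Group P] [Fintype P] (T : Fil 2 P) (D : Gd 2 P) (La : LaT D) (L l n : ℕ),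
    Pk T D La L l n → TE T L l n → ∃ C : ℝ, 1 ≤ C ∧ ∀ (B d : ℕ) (Λ : Type) [Fintype Λ]
    (w : Fin d → Λ → ℝ) (Y : Type) [Fintype Y] [Nonempty Y]
    (y : Lr d Λ → Y → FreeGroup (Lr d Λ)) (Sm Lg : Finset (Fin d)) (ξ : ℝ), 0 ≤ ξ → ξ ≤ 1 →
    Prob (U := fun _ => Λ) w → Disjoint Sm Lg → (∀ j ∈ Sm ∪ Lg, ∀ u, w j u ≤ ξ ^ 2 ^ L) →
    EQN Sm Lg P w y L (ξ ^ 2 ^ L) → ∀ κ : (Fin d → Λ) → ℝ, Tw (U := fun _ => Λ) w κ →
    ∀ X : (Fin d → Λ) → Prop, (∀ q, X q → ∀ a : Lr d Λ → Y,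
      GdQ Sm Lg T D La L l B (rr (U := fun _ => Λ) (fun u => y u (a u)) q 2) ∧
        ∃ x : Fin d → P, Tru (U := fun _ => Λ) T D (fun u => y u (a u)) q x) →
    (Ex (U := fun _ => Λ) w fun q => if X q then κ q else 0) ≤
      n * B ^ l / 2 ^ (L - 2 - l) * Ex (U := fun _ => Λ) w κ + C ^ (d + 1) * ξ

end Pool.Agent.MP_f68ac8_nt.Nd

end

section

/-! Closed groups of `2`-adic matrices, their filtered quotients, and powerful groups. -/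

namespace Pool.Agent.MP_f68ac8_nt.Zq

open Matrix Finset Zv Zk
open scoped BigOperators commutatorElement

section
variable {ι : Type} [Fintype ι] [DecidableEq ι]

/-- the logarithms of a group -/
def lgs (U : Subgroup (GZ 2 ι)) : Set (MQ 2 ι) := {X | ∃ g ∈ U, g ∈ Cg 2 ι 2 ∧ lg g = X}

/-- the Lie algebra of a group -/
noncomputable def Lie (U : Subgroup (GZ 2 ι)) : Submodule ℚ_[2] (MQ 2 ι) :=
  Submodule.span ℚ_[2] (lgs U)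

variable (U : Subgroup (GZ 2 ι)) (ϖ : GZ 2 ι → ZMod 2)

/-- a character whose kernel is the congruence subgroup of level four -/
structure Chr : Prop where
  add : ∀ g ∈ U, ∀ h ∈ U, ϖ (g * h) = ϖ g + ϖ h
  ker : ∀ g ∈ U, ϖ g = 0 ↔ g ∈ Cg 2 ι 2

/-- closed groups generated by involutions -/
structure Ord : Prop extends Chr U ϖ where
  cls : cl U ≤ U
  gen : U ≤ cl (Subgroup.closure {x | x ∈ U ∧ x ^ 2 = 1 ∧ x ∉ Cg 2 ι 2})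

/-- infinite groups of this kind -/
structure Cls : Prop extends Ord U ϖ where
  ne : ∃ g ∈ U, g ∈ Cg 2 ι 2 ∧ g ≠ 1

/-- groups of this kind with perfect Lie algebra and trivial centre -/
structure SatH : Prop extends Ord U ϖ where
  perf : Lie U ≤ der (Lie U)
  ne : Lie U ≠ ⊥
  cen : ∃ k₀, ∀ m, ∀ g ∈ U, (∀ X ∈ Lie U, Dv 0 X → Dv (m + k₀) (cj g X - X)) → g ∈ Cg 2 ι m

/-- there is no character of order `2 ^ m` -/
def NoCyc (m : ℕ) : Prop :=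
  ∀ φ : GZ 2 ι → ZMod (2 ^ m), (∀ g ∈ U ⊓ Cg 2 ι 2, ∀ h ∈ U ⊓ Cg 2 ι 2, φ (g * h) = φ g + φ h) →
    (∃ k, ∀ g ∈ U ⊓ Cg 2 ι 2, g ∈ Cg 2 ι k → φ g = 0) →
    ∀ g ∈ U ⊓ Cg 2 ι 2, 2 ^ (m - 1) • φ g = 0

variable (c : ℕ → Submodule ℤ_[2] (MQ 2 ι))

/-- the periodic chain of lattices -/
structure Chn (l A : ℕ) : Prop where
  anti : ∀ i j, 1 ≤ i → i ≤ j → c j ≤ c i
  sub : ∀ X ∈ c 1, X ∈ Lie U ∧ Dv 2 X
  per : ∀ i, 1 ≤ i → ∀ X, ((2 : ℕ) : ℚ_[2]) • X ∈ c (i + 1) ↔ X ∈ c i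
  low : ∀ X ∈ Lie U, Dv A X → X ∈ c 2
  pos : 2 ≤ l
  eq : ∀ i, l ≤ i → ∀ g, g ∈ cl (gam U i) ↔ g ∈ Cg 2 ι 2 ∧ lg g ∈ c i
  inc : ∀ i, 1 ≤ i → ∀ g ∈ cl (gam U i), g ∈ Cg 2 ι 2 → lg g ∈ c i
  rs : ∀ a, 1 ≤ a → ∀ g ∈ cl (gam U a), Rs c a g
  pw : ∀ u ∈ U, u ^ 2 ∈ cl (gam U 2)
  two : cl (gam U 2) ≤ Cg 2 ι 2

/-- the groups attached to the chain -/
structure Grp (W : ℕ → Subgroup (GZ 2 ι)) : Prop where
  mem : ∀ i, 1 ≤ i → ∀ g, g ∈ W i ↔ g ∈ Cg 2 ι 2 ∧ lg g ∈ c i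
  comm : ∀ a, 1 ≤ a → ∀ y, Rs c a y → ∀ i, 1 ≤ i → ∀ h ∈ W i, ⁅y, h⁆ ∈ W (i + a)
  cp : ∀ i, 2 ≤ i → ∀ h ∈ W 1, ∀ g ∈ Cg 2 ι 2, g * h⁻¹ ∈ W i ↔ lg g - lg h ∈ c i

/-- the adjoint action on a semisimple quotient -/
structure Adj {D : ℕ} (c : Fin D → MQ 2 (Fin D)) (Q : Subgroup (GZ 2 ι))
    (φ : Q →* GZ 2 (Fin D)) : Prop where
  ss : SS c
  pos : 0 < D
  aut : ∀ g, Iso c c (φ g)
  cong : ∀ k (g : Q), g.1 ∈ Cg 2 ι k → φ g ∈ Cg 2 (Fin D) k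
  lie : ∃ pr : MQ 2 ι →ₗ[ℚ_[2]] (Fin D → ℚ_[2]), (∀ v, ∃ X ∈ Lie Q, pr X = v) ∧
    ∀ g : Q, g.1 ∈ Cg 2 ι 2 → lg (φ g) = adc c (pr (lg g.1))

end

/-- the series of powers of a powerful group -/
structure Pw2 {G : Type} [Group G] (Γ : Subgroup G) (H : ℕ → Subgroup G) : Prop where
  mem : ∀ i g, g ∈ H i ↔ ∃ x ∈ Γ, x ^ 2 ^ i = g
  comm : ∀ i, ∀ g ∈ Γ, ∀ h ∈ H i, ⁅g, h⁆ ∈ H (i + 2)

section
variable {ι : Type} [Fintype ι] [DecidableEq ι] (Γ : Subgroup (GZ 2 ι))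

/-- closed powerful groups of matrices -/
structure Pf (H : ℕ → Subgroup (GZ 2 ι)) : Prop extends Pw2 Γ H where
  small : ∃ i, 1 ≤ i ∧ H i ≤ Cg 2 ι 2
  opn : ∃ k, Γ ⊓ Cg 2 ι k ≤ H 2

/-- the lattice of logarithms -/
structure Lm (H : Subgroup (GZ 2 ι)) (H' : Subgroup (GZ 2 ι)) (Λ : Submodule ℤ_[2] (MQ 2 ι)) :
    Prop where
  eq : Λ = Submodule.span ℤ_[2] (lg '' (H : Set (GZ 2 ι)))
  ad : ∀ g ∈ Γ, ∀ X ∈ Λ, ∃ Y ∈ Λ, cj g X - X = ((2 : ℕ) : ℚ_[2]) ^ 2 • Y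
  add : ∀ g ∈ H, ∀ h ∈ H, ∃ Y ∈ Λ, lg (g * h) - lg g - lg h = ((2 : ℕ) : ℚ_[2]) • Y
  two : ∀ g ∈ H', ∃ Y ∈ Λ, lg g = ((2 : ℕ) : ℚ_[2]) • Y

/-- representations that are trivial modulo four -/
structure R4 {N : ℕ} (ψ : Γ →* GZ 2 (Fin N)) : Prop where
  one : ∀ g, ψ g ∈ Cg 2 (Fin N) 2
  cont : ∀ k, ∃ k', ∀ g : Γ, g.1 ∈ Cg 2 ι k' → ψ g ∈ Cg 2 (Fin N) k

/-- there is a nontrivial representation of dimension `N` that is trivial modulo four -/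
def Rp4 (N : ℕ) : Prop := ∃ ψ : Γ →* GZ 2 (Fin N), R4 Γ ψ ∧ ∃ g, ψ g ≠ 1

/-- there is a quotient that is a free module of rank `r` over the integers modulo four -/
def Four (r : ℕ) : Prop :=
  ∃ f : GZ 2 ι → Fin r → ZMod (2 ^ 2), (∀ g ∈ Γ, ∀ h ∈ Γ, f (g * h) = f g + f h) ∧
    (∃ k, ∀ g ∈ Γ, g ∈ Cg 2 ι k → f g = 0) ∧ ∀ v, ∃ g ∈ Γ, f g = v

end

/-- statements for all index sets -/
def AllI (Q : ∀ (ι : Type) [Fintype ι] [DecidableEq ι], Prop) : Prop :=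
  ∀ (ι : Type) [Fintype ι] [DecidableEq ι], Q ι

/-- the logarithm -/
def LogStmt : Prop :=
  AllI fun ι _ _ => (∀ g ∈ Cg 2 ι 2, IsLg g (lg g)) ∧
    (∀ (g : GZ 2 ι) X X', IsLg g X → IsLg g X' → X = X') ∧
    (∀ g ∈ Cg 2 ι 2, ∀ h ∈ Cg 2 ι 2, ∀ k, g * h⁻¹ ∈ Cg 2 ι k ↔ Dv k (lg g - lg h)) ∧
    (∀ g ∈ Cg 2 ι 2, (∀ k, g ∈ Cg 2 ι k ↔ Dv k (lg g)) ∧ (∀ n : ℕ, lg (g ^ n) = n • lg g) ∧
      lg g⁻¹ = - lg g ∧ (∀ a, lg (a * g * a⁻¹) = cj a (lg g)) ∧ (g ^ 2 = 1 → g = 1)) ∧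
    (∀ a b, 2 ≤ a → ∀ g ∈ Cg 2 ι a, ∀ h ∈ Cg 2 ι a, g * h⁻¹ ∈ Cg 2 ι b →
      Dv (a + b - 1) (lg (g * h⁻¹) - (lg g - lg h))) ∧
    (∀ a, 2 ≤ a → ∀ g ∈ Cg 2 ι a, ∀ h ∈ Cg 2 ι a,
      Dv (3 * a - 1) (lg ⁅g, h⁆ - (lg g * lg h - lg h * lg g))) ∧
    (∀ a, 2 ≤ a → ∀ g ∈ Cg 2 ι a, Dv (2 * a - 1) (lg g - (mq g - 1))) ∧
    ∀ g ∈ Cg 2 ι 2, ∀ h ∈ Cg 2 ι 2, Commute g h → lg (g * h) = lg g + lg h

/-- the logarithm is onto -/
def ExpStmt : Prop :=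
  AllI fun ι _ _ => (∀ X : MQ 2 ι, Dv 2 X → ∃ g ∈ Cg 2 ι 2, lg g = X) ∧
    (∀ (R : Subalgebra ℚ_[2] (MQ 2 ι)), ∀ g ∈ Cg 2 ι 2, mq g ∈ R ↔ lg g ∈ R) ∧
    (∀ U : Subgroup (GZ 2 ι), cl U ≤ U → ∀ X ∈ lgs U, ∀ z : ℤ_[2], z • X ∈ lgs U) ∧
    ∀ (c : Submodule ℤ_[2] (MQ 2 ι)) (f : MQ 2 ι → MQ 2 ι), (∀ X ∈ c, Dv 0 X) →
      (∀ X, (∀ k, ∃ Y ∈ c, Dv k (X - Y)) → X ∈ c) → (∀ X ∈ c, f X ∈ c) →
      (∀ X ∈ c, ∀ Y ∈ c, ∀ k, Dv k (f X - f Y) ↔ Dv k (X - Y)) → ∀ Z ∈ c, ∃ X ∈ c, f X = Z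

/-- the Lie algebra of a closed group -/
def LieStmt : Prop :=
  AllI fun ι _ _ => ∀ U : Subgroup (GZ 2 ι), cl U ≤ U →
    (∃ k, ∀ X ∈ Lie U, Dv k X → X ∈ lgs U) ∧ der (Lie U) ≤ Lie U ∧
    ∀ g ∈ U, ∀ X ∈ Lie U, cj g X ∈ Lie U

/-- the lower central series shrinks quickly -/
def BpStmt : Prop :=
  AllI fun ι _ _ => ∀ (U : Subgroup (GZ 2 ι)) ϖ, Ord U ϖ → ∀ j, 2 ≤ j → gam U j ≤ Cg 2 ι (j + 1)

/-- the terms of the lower central series are open -/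
def OpenStmt : Prop :=
  AllI fun ι _ _ => ∀ (U : Subgroup (GZ 2 ι)), cl U ≤ U → Lie U ≤ der (Lie U) → ∀ j,
    ∃ A, ∀ X ∈ Lie U, Dv A X → X ∈ lgs (cl (gam U j))

/-- existence of the chain -/
def ChnStmt : Prop :=
  AllI fun ι _ _ => ∀ (U : Subgroup (GZ 2 ι)) ϖ, SatH U ϖ → ∃ c l A, Chn U c l A

/-- roots raise the level -/
def ContrStmt : Prop :=
  AllI fun ι _ _ => ∀ (U : Subgroup (GZ 2 ι)) c l A, Chn U c l A →
    (∀ j, 1 ≤ j → (∀ X ∈ c j, Dv (j + 1) X) ∧ ∀ X ∈ Lie U, Dv (A + j) X → X ∈ c j) ∧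
    (∀ j, 1 ≤ j → ∀ X, (∀ k, ∃ Y ∈ c j, Dv k (X - Y)) → X ∈ c j) ∧
    ∀ a, 1 ≤ a → ∀ g ∈ Cg 2 ι 2, lg g ∈ c a → Rs c a g

/-- the groups attached to the chain -/
def GrpStmt : Prop :=
  AllI fun ι _ _ => ∀ (U : Subgroup (GZ 2 ι)) c l A, cl U ≤ U → Chn U c l A → ∃ W, Grp c W

/-- no automorphism is close to minus one, and the centre is small -/
def NegStmt : Prop :=
  AllI fun ι _ _ => ∀ (U : Subgroup (GZ 2 ι)) ϖ c l A, SatH U ϖ → Chn U c l A →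
    (∀ x, Rs c 1 x → ∀ i, 1 ≤ i → ∃ Y ∈ c i, cj x Y + Y ∉ c (i + 2)) ∧
    ∃ k, ∀ i, 1 ≤ i → ∀ g ∈ U, g ∈ Cg 2 ι 2 → (∀ Y ∈ c l, cj g Y - Y ∈ c (i + k)) → lg g ∈ c i

/-- the filtered quotients of a group with perfect Lie algebra -/
def SatStmt : Prop :=
  AllI fun ι _ _ => ∀ (U : Subgroup (GZ 2 ι)) ϖ, SatH U ϖ → ∃ l n, ∀ L, 2 ≤ L →
    ∃ S : Sy 2, TE S.T L l n ∧ Hm U ϖ S

/-- the theorem of Lie -/
def NilStmt : Prop :=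
  AllI fun ι _ _ => ∀ u : Submodule ℚ_[2] (MQ 2 ι), der u ≤ u → Solv u →
    ∃ (I : ℕ → Submodule ℚ_[2] (MQ 2 ι)) (n : ℕ), I n = ⊥ ∧ (∀ r, I (r + 1) ≤ I r) ∧
      (∀ r, ∀ a ∈ Algebra.adjoin ℚ_[2] (u : Set (MQ 2 ι)), ∀ X ∈ I r,
        a * X ∈ I r ∧ X * a ∈ I r) ∧
      (∀ a ∈ Algebra.adjoin ℚ_[2] (u : Set (MQ 2 ι)),
        ∀ b ∈ Algebra.adjoin ℚ_[2] (u : Set (MQ 2 ι)), a * b - b * a ∈ I 1) ∧
      ∀ r, 1 ≤ r → ∀ X ∈ I r, ∀ Y ∈ I r, X * Y ∈ I (r + 1)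

/-- the Lie algebra is not solvable -/
def NsolStmt : Prop :=
  AllI fun ι _ _ => ∀ (Q : Subgroup (GZ 2 ι)) ϖ m, Cls Q ϖ → 1 ≤ m → NoCyc Q m →
    ¬ Solv (Lie Q) ∧ ∃ g ∈ Q, g ∈ Cg 2 ι 2 ∧ g ∉ Cg 2 ι m

/-- existence of a semisimple quotient -/
def QuoStmt : Prop :=
  AllI fun ι _ _ => ∀ u : Submodule ℚ_[2] (MQ 2 ι), der u ≤ u → ¬ Solv u →
    ∃ D c, ∃ pr : MQ 2 ι →ₗ[ℚ_[2]] (Fin D → ℚ_[2]), Quo c u pr

/-- existence of the adjoint action -/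
def AdjStmt : Prop :=
  AllI fun ι _ _ => ∀ Q : Subgroup (GZ 2 ι), (cl Q ≤ Q → ¬ Solv (Lie Q) →
    ∃ D c, ∃ φ : Q →* GZ 2 (Fin D), Adj c Q φ) ∧
    ∀ D c c' (φ : Q →* GZ 2 (Fin D)) g, Adj c Q φ → SS c' → Iso c c' g →
      Adj c' Q ((MulAut.conj g).toMonoidHom.comp φ)

/-- semisimple Lie algebras -/
def KilStmt : Prop :=
  ∀ D (c : Fin D → MQ 2 (Fin D)), SS c →
    (∀ v, adc c v = 0 → v = 0) ∧
    (∀ v, v ∈ Submodule.span ℚ_[2] {z | ∃ x y, z = adc c x *ᵥ y}) ∧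
    (∀ X : MQ 2 (Fin D), (∀ v, adc c (X *ᵥ v) = X * adc c v - adc c v * X) → ∃ v, X = adc c v) ∧
    ∀ g ∈ Cg 2 (Fin D) 2, Iso c c g → ∃ v, lg g = adc c v

/-- the image of the adjoint action -/
def ImgStmt : Prop :=
  AllI fun ι _ _ => ∀ (Q : Subgroup (GZ 2 ι)) ϖ D c (φ : Q →* GZ 2 (Fin D)), Ord Q ϖ →
    Adj c Q φ → Opn c φ.range ∧ ∃ ϖ', SatH φ.range ϖ' ∧ (∀ g ∉ φ.range, ϖ' g = 0) ∧
      ∀ S, Hm φ.range ϖ' S → Hm Q ϖ S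

/-- countability -/
def CountStmt : Prop :=
  ∀ D (c : Fin D → MQ 2 (Fin D)), {x : Subgroup (GZ 2 (Fin D)) × (GZ 2 (Fin D) → ZMod 2) |
    Opn c x.1 ∧ Chr x.1 x.2 ∧ ∀ g ∉ x.1, x.2 g = 0}.Countable

/-- a countable family of towers -/
def CntStmt : Prop :=
  ∃ (J : Type) (_ : Countable J) (l n : J → ℕ) (S : J → ℕ → Sy 2),
    (∀ j L, 2 ≤ L → TE (S j L).T L (l j) (n j)) ∧ ∀ (ι : Type) [Fintype ι] [DecidableEq ι]
      (Q : Subgroup (GZ 2 ι)) ϖ, Ord Q ϖ → ¬ Solv (Lie Q) → ∃ j, ∀ L, 2 ≤ L → Hm Q ϖ (S j L)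

/-- compactness -/
def LimStmt : Prop :=
  AllI fun ι _ _ => ∀ (R : Subgroup (GZ 2 ι)) ϖ, Chr R ϖ → Cg 2 ι 2 ≤ R →
    (∀ m, 1 ≤ m → ∀ Q : ℕ → Subgroup (GZ 2 ι), (∀ j, Q j ≤ R ∧ Cls (Q j) ϖ ∧ NoCyc (Q j) m) →
      ∃ Q₀ ≤ R, Cls Q₀ ϖ ∧ NoCyc Q₀ m ∧
        ∀ k j₀, ∃ j, j₀ ≤ j ∧ Q j ⊔ Cg 2 ι k = Q₀ ⊔ Cg 2 ι k) ∧
    ∀ Q ≤ R, ∀ S, Hm Q ϖ S → ∃ k, ∀ Q' ≤ R, Q' ⊔ Cg 2 ι k = Q ⊔ Cg 2 ι k → Hm Q' ϖ S

/-- characters of large order -/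
def AbStmt : Prop :=
  ∀ L, 2 ≤ L → ∃ S : Sy 2, TE S.T L 1 8 ∧ ∃ m, 1 ≤ m ∧
    ∀ (ι : Type) [Fintype ι] [DecidableEq ι] (Q : Subgroup (GZ 2 ι)) ϖ, Ord Q ϖ →
      ¬ NoCyc Q m → Hm Q ϖ S

/-- a finite family of filtered groups -/
def FamStmt : Prop :=
  AllI fun ι _ _ => ∀ (R : Subgroup (GZ 2 ι)) ϖ, Chr R ϖ → Cg 2 ι 2 ≤ R →
    ∀ (Lf : ℕ → ℕ → ℝ → ℕ), (∀ l n e, 2 ≤ Lf l n e) → ∀ ε : ℝ, 0 < ε →
    ∃ (J : Type) (_ : Fintype J) (S : J → Sy 2) (l n : J → ℕ) (e : J → ℝ),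
      (∀ j, 0 < e j ∧ TE (S j).T (Lf (l j) (n j) (e j)) (l j) (n j)) ∧ ∑ j, e j ≤ ε ∧
      ∀ Q ≤ R, Cls Q ϖ → ∃ j, Hm Q ϖ (S j)

/-- finite powerful groups -/
def PowStmt : Prop :=
  ∀ (G : Type) [Group G] [Finite G], (∀ g : G, ∃ k, g ^ 2 ^ k = 1) →
    (∀ g h : G, ⁅g, h⁆ ∈ Subgroup.closure (Set.range fun x : G => x ^ 4)) →
    ∃ H, Pw2 (⊤ : Subgroup G) H

/-- powers in powerful groups -/
def UpwStmt : Prop :=
  ∀ (G : Type) [Group G] (Γ : Subgroup G) H, Pw2 Γ H →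
    H 0 = Γ ∧ (∀ i j, i ≤ j → H j ≤ H i) ∧ (∀ i, ∀ a ∈ Γ, ∀ g ∈ H i, a * g * a⁻¹ ∈ H i) ∧
    (∀ i k, ∀ g ∈ H i, g ^ 2 ^ k ∈ H (i + k)) ∧
    (∀ i k, ∀ g ∈ H (i + k), ∃ x ∈ H i, x ^ 2 ^ k = g) ∧
    (∀ i k, ∀ v ∈ H i, ∀ h ∈ Γ, (v * h) ^ 2 ^ k * (h ^ 2 ^ k)⁻¹ ∈ H (i + k)) ∧
    (∀ i k, ∀ g ∈ H i, ∀ h ∈ H i,
      (g * h) ^ 2 ^ k * (g ^ 2 ^ k * h ^ 2 ^ k)⁻¹ ∈ H (i + k + 1)) ∧
    ((H 2).relIndex Γ ≠ 0 → ∀ i, (H i).relIndex Γ ≠ 0 ∧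
      (1 ≤ i → (H (i + 1)).relIndex (H i) ≤ (H 2).relIndex (H 1))) ∧
    ∀ r, (H 2).relIndex Γ ≠ 0 → 2 ^ r ≤ (H 2).relIndex (H 1) →
      ∃ f : G → Fin r → ZMod (2 ^ 2), (∀ g ∈ Γ, ∀ h ∈ Γ, f (g * h) = f g + f h) ∧
        (∀ g ∈ H 2, f g = 0) ∧ ∀ v, ∃ g ∈ Γ, f g = v

/-- closed powerful groups -/
def PfStmt : Prop :=
  AllI fun ι _ _ => ∀ Γ : Subgroup (GZ 2 ι), cl Γ ≤ Γ → (∀ g ∈ Γ, ∃ k, g ^ 2 ^ k ∈ Cg 2 ι 1) →
    (∀ g ∈ Γ, ∀ h ∈ Γ, ⁅g, h⁆ ∈ cl (Subgroup.closure ((fun x => x ^ 4) '' Γ))) → ∃ H, Pf Γ H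

/-- the lattice of logarithms -/
def LamStmt : Prop :=
  AllI fun ι _ _ => ∀ (Γ : Subgroup (GZ 2 ι)) H i, Pw2 Γ H → H i ≤ Cg 2 ι 2 →
    ∃ Λ, Lm Γ (H i) (H (i + 1)) Λ

/-- coordinates -/
def LatStmt : Prop :=
  AllI fun ι _ _ => ∀ (Γ H H' : Subgroup (GZ 2 ι)) Λ, H ≤ Cg 2 ι 2 → H'.relIndex H ≠ 0 →
    Lm Γ H H' Λ → ∃ (D : ℕ) (φ : Γ →* GZ 2 (Fin D)), 2 ^ D ≤ H'.relIndex H ∧ R4 Γ φ ∧
      ∀ g, φ g = 1 → ∀ h ∈ H, Commute g.1 h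

/-- padding and unipotent representations -/
def PadStmt : Prop :=
  AllI fun ι _ _ => ∀ Γ : Subgroup (GZ 2 ι), (∀ D N, D ≤ N → Rp4 Γ D → Rp4 Γ N) ∧
    ∀ H ≤ Γ, H ≤ Cg 2 ι 2 → H.relIndex Γ ≠ 0 → H ≠ ⊥ → (∀ g ∈ Γ, ∀ h ∈ H, Commute g h) → Rp4 Γ 2

/-- a representation of bounded dimension -/
def CorStmt : Prop :=
  AllI fun ι _ _ => ∀ Γ : Subgroup (GZ 2 ι), cl Γ ≤ Γ → (∀ g ∈ Γ, ∃ k, g ^ 2 ^ k ∈ Cg 2 ι 1) →
    (∀ g ∈ Γ, ∀ h ∈ Γ, ⁅g, h⁆ ∈ cl (Subgroup.closure ((fun x => x ^ 4) '' Γ))) →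
    (Γ : Set (GZ 2 ι)).Infinite → ∀ r, Rp4 Γ (r + 2) ∨ Four Γ r

end Pool.Agent.MP_f68ac8_nt.Zq

end

section

namespace Pool.Agent.MP_f68ac8_nt.Nd
open Zq Zv Zk Matrix Finset
open scoped commutatorElement

section
variable {d : ℕ} {Λ : Type} [Fintype Λ] {w : Fin d → Λ → ℝ}

theorem lew_NcLc (hw : Prob (U := fun _ => Λ) w) {f g : (Fin d → Λ) → ℝ}
    (h : ∀ q, (∀ j, w j (q j) ≠ 0) → f q ≤ g q) :
    Ex (U := fun _ => Λ) w f ≤ Ex (U := fun _ => Λ) w g := by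
  refine sum_le_sum fun q _ => ?_
  by_cases h0 : ∀ j, w j (q j) ≠ 0
  · exact mul_le_mul_of_nonneg_left (h q h0) (prod_nonneg fun j _ => hw.1 j _)
  · push Not at h0
    obtain ⟨j, hj⟩ := h0
    rw [prod_eq_zero (mem_univ j) hj, zero_smul, zero_smul]

theorem add_NcLc (f g : (Fin d → Λ) → ℝ) :
    (Ex (U := fun _ => Λ) w fun q => f q + g q) =
      Ex (U := fun _ => Λ) w f + Ex (U := fun _ => Λ) w g := by
  simp only [Ex, smul_add, sum_add_distrib]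

theorem sum_NcLc {I : Type} (s : Finset I) (f : I → (Fin d → Λ) → ℝ) :
    (Ex (U := fun _ => Λ) w fun q => ∑ i ∈ s, f i q) = ∑ i ∈ s, Ex (U := fun _ => Λ) w (f i) := by
  simp only [Ex, smul_sum]
  rw [sum_comm]

open Classical in
theorem diag_NcLc (hw : Prob (U := fun _ => Λ) w) {η : ℝ} (hη0 : 0 ≤ η) (i j : Fin d)
    (hη : ∀ u, w j u ≤ η) :
    (Ex (U := fun _ => Λ) w fun q => if i ≠ j ∧ q i = q j then (1 : ℝ) else 0) ≤ η := by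
  by_cases hij : i = j
  · simp only [hij, ne_eq, not_true_eq_false, false_and, if_false]
    rw [const_ZaMom hw]
    exact hη0
  · rw [resample_ZaGcs hw j]
    refine (le_ZaMom hw fun q => ?_).trans (const_ZaMom hw η).le
    simp only [Function.update_self, Function.update_of_ne hij, ne_eq, hij, not_false_eq_true,
      true_and, smul_eq_mul, mul_ite, mul_one, mul_zero, sum_ite_eq, mem_univ, if_true]
    exact hη _

end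

theorem momN : MomN := by
  classical
  intro d Λ _ w η a S hw hη _ f h1 h2
  have hη0 : ∀ j ∈ S, 0 ≤ η := fun j hj => by
    by_contra hneg
    have h0 : ∑ u, w j u ≤ 0 := sum_nonpos fun u _ => (hη j hj u).trans (not_le.1 hneg).le
    rw [hw.2 j] at h0
    exact absurd h0 (by norm_num)
  obtain ⟨A, hA⟩ : ∃ A : Fin d → Fin d → (Fin d → Λ) → ℝ,
      A = fun i j q => if i ≠ j ∧ q i = q j then (1 : ℝ) else 0 := ⟨_, rfl⟩
  obtain ⟨B, hB⟩ : ∃ B : Fin d → Fin d → (Fin d → Λ) → (Fin d → Λ) → ℝ,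
      B = fun i j q q' => if q i = q' j then (1 : ℝ) else 0 := ⟨_, rfl⟩
  have hA0 : ∀ i j q, 0 ≤ A i j q := fun i j q => by rw [hA]; positivity
  have hB0 : ∀ i j q q', 0 ≤ B i j q q' := fun i j q q' => by rw [hB]; positivity
  have hAe : ∀ i, ∀ j ∈ S, Ex (U := fun _ => Λ) w (A i j) ≤ η := fun i j hj => by
    rw [hA]
    exact diag_NcLc hw (hη0 j hj) i j (hη j hj)
  have hBe : ∀ i, ∀ j ∈ S, ∀ q, Ex (U := fun _ => Λ) w (B i j q) ≤ η := fun i j hj q => by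
    rw [hB]
    exact (ind_ZaMom (U := fun _ => Λ) hw j (q i)).trans_le (hη j hj _)
  have h3 : ∀ q₀ q₁ : Fin d → Λ, (∀ j, w j (q₀ j) ≠ 0) → (∀ j, w j (q₁ j) ≠ 0) →
      f q₀ q₁ ≤ a + ∑ i ∈ S, ∑ j ∈ S, (A i j q₀ + (B i j q₀ q₁ + A i j q₁)) := by
    intro q₀ q₁ e₀ e₁
    have hn : ∀ i j, 0 ≤ A i j q₀ + (B i j q₀ q₁ + A i j q₁) := fun i j =>
      add_nonneg (hA0 _ _ _) (add_nonneg (hB0 _ _ _ _) (hA0 _ _ _))
    by_cases h : OKp S q₀ q₁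
    · exact (h2 q₀ q₁ (fun j _ => ⟨e₀ j, e₁ j⟩) h).trans
        (le_add_of_nonneg_right (sum_nonneg fun i _ => sum_nonneg fun j _ => hn i j))
    · obtain ⟨i, hi, j, hj, e⟩ : ∃ i ∈ S, ∃ j ∈ S, 1 ≤ A i j q₀ + (B i j q₀ q₁ + A i j q₁) := by
        by_contra hc
        push Not at hc
        refine h fun i hi j hj => ⟨fun e => ?_, fun hij => ⟨fun e => ?_, fun e => ?_⟩⟩
        · have b1 : B i j q₀ q₁ = 1 := by rw [hB]; exact if_pos e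
          linarith [hc i hi j hj, hA0 i j q₀, hA0 i j q₁]
        · have b1 : A i j q₀ = 1 := by rw [hA]; exact if_pos ⟨hij, e⟩
          linarith [hc i hi j hj, hB0 i j q₀ q₁, hA0 i j q₁]
        · have b1 : A i j q₁ = 1 := by rw [hA]; exact if_pos ⟨hij, e⟩
          linarith [hc i hi j hj, hB0 i j q₀ q₁, hA0 i j q₀]
      have s1 := single_le_sum (f := fun j => A i j q₀ + (B i j q₀ q₁ + A i j q₁))
        (fun j _ => hn i j) hj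
      have s2 := single_le_sum (f := fun i => ∑ j ∈ S, (A i j q₀ + (B i j q₀ q₁ + A i j q₁)))
        (fun i _ => sum_nonneg fun j _ => hn i j) hi
      linarith [h1 q₀ q₁]
  have h4 : ∀ q₀ : Fin d → Λ, (∀ j, w j (q₀ j) ≠ 0) →
      (Ex (U := fun _ => Λ) w fun q₁ => f q₀ q₁) ≤ a + ∑ i ∈ S, ∑ j ∈ S, (A i j q₀ + 2 * η) := by
    intro q₀ e₀
    refine (lew_NcLc hw fun q₁ e₁ => h3 q₀ q₁ e₀ e₁).trans ?_
    rw [add_NcLc, const_ZaMom hw, sum_NcLc]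
    refine add_le_add_right (sum_le_sum fun i _ => ?_) _
    rw [sum_NcLc]
    refine sum_le_sum fun j hj => ?_
    rw [add_NcLc, const_ZaMom hw, add_NcLc]
    linarith [hAe i j hj, hBe i j hj q₀]
  refine (lew_NcLc hw h4).trans ?_
  rw [add_NcLc, const_ZaMom hw, sum_NcLc]
  refine add_le_add_right ?_ _
  have h5 : ∀ i ∈ S, (Ex (U := fun _ => Λ) w fun q₀ => ∑ j ∈ S, (A i j q₀ + 2 * η)) ≤
      S.card * (3 * η) := fun i _ => by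
    rw [sum_NcLc, ← nsmul_eq_mul]
    refine sum_le_card_nsmul _ _ _ fun j hj => ?_
    rw [add_NcLc, const_ZaMom hw]
    linarith [hAe i j hj]
  refine (sum_le_card_nsmul _ _ _ h5).trans (le_of_eq ?_)
  rw [nsmul_eq_mul]
  ring

theorem sub_NcLc {d : ℕ} {R S J : Finset (Fin d)} (h : R ⊆ S) (hJ : J ⊆ R ∨ Rᶜ ⊆ J) :
    J ⊆ S ∨ Sᶜ ⊆ J :=
  hJ.imp (fun h' => h'.trans h) fun h' => (Finset.compl_subset_compl.2 h).trans h'

section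
variable {P : Type} [Group P] {F : ℕ → Subgroup P}

theorem full_NcLc (hC : CornStmt) (hF : NS F) (h1 : F 1 = ⊤) {d : ℕ} {U : Fin d → Type}
    (y : (Σ j, U j) → FreeGroup (Σ j, U j)) (q q' : ∀ j, U j) (x : Fin d → P) (i : Fin d)
    (R : Finset (Fin d))
    (h : ∀ J : Finset (Fin d), J ⊆ R ∨ Rᶜ ⊆ J → (∃ s ∈ R, s ∉ J) →
      Yw y q (msk J x) i = Yw y q' (msk J x) i) :
    (Yw y q' x i)⁻¹ * Yw y q x i ∈ F (max 1 R.card) := by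
  have hJ : ∀ j, (∀ ω, j ∈ Rᶜ ∪ ω) ∨ (∀ ω, j ∉ Rᶜ ∪ ω) ∨
      ∃ s ∈ R, ∀ ω, j ∈ Rᶜ ∪ ω ↔ s ∈ ω := fun j => by
    by_cases hj : j ∈ R
    · exact Or.inr (Or.inr ⟨j, hj, fun ω => by simp [hj]⟩)
    · exact Or.inl fun ω => by simp [hj]
  have := lemA_ZkLc hC hF R (lemB_ZkLc h1 q x R (fun ω => Rᶜ ∪ ω) hJ (y ⟨i, q i⟩))
    (lemB_ZkLc h1 q' x R (fun ω => Rᶜ ∪ ω) hJ (y ⟨i, q' i⟩)) fun ω hω hne => by
      obtain ⟨s, hs, hs'⟩ := Finset.exists_of_ssubset (lt_of_le_of_ne hω hne)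
      exact h _ (Or.inr Finset.subset_union_left) ⟨s, hs, by simp [hs, hs']⟩
  have e : Rᶜ ∪ R = Finset.univ := by ext j; simp [em']
  simpa only [Yw, e, msk_univ_ZkLc] using this

theorem low_NcLc (hC : CornStmt) (hF : NS F) (h1 : F 1 = ⊤) {d : ℕ} {U : Fin d → Type}
    (y : (Σ j, U j) → FreeGroup (Σ j, U j)) (q q' : ∀ j, U j) (x : Fin d → P) (i : Fin d)
    (R : Finset (Fin d))
    (h : ∀ J : Finset (Fin d), J ⊆ R ∨ Rᶜ ⊆ J → (∃ s ∈ R, s ∉ J) →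
      Yw y q (msk J x) i = Yw y q' (msk J x) i) :
    (Yw y q' (msk R x) i)⁻¹ * Yw y q (msk R x) i ∈ F (max 1 R.card) := by
  have hJ : ∀ j, (∀ ω, j ∈ ω ∩ R) ∨ (∀ ω, j ∉ ω ∩ R) ∨
      ∃ s ∈ R, ∀ ω, j ∈ ω ∩ R ↔ s ∈ ω := fun j => by
    by_cases hj : j ∈ R
    · exact Or.inr (Or.inr ⟨j, hj, fun ω => by simp [hj]⟩)
    · exact Or.inr (Or.inl fun ω => by simp [hj])
  have := lemA_ZkLc hC hF R (lemB_ZkLc h1 q x R (fun ω => ω ∩ R) hJ (y ⟨i, q i⟩))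
    (lemB_ZkLc h1 q' x R (fun ω => ω ∩ R) hJ (y ⟨i, q' i⟩)) fun ω hω hne => by
      obtain ⟨s, hs, hs'⟩ := Finset.exists_of_ssubset (lt_of_le_of_ne hω hne)
      exact h _ (Or.inl Finset.inter_subset_right) ⟨s, hs, by simp [hs']⟩
  simpa only [Yw, Finset.inter_self] using this

theorem mix_NcLc (hC : CornStmt) (hF : NS F) (h1 : F 1 = ⊤) {d : ℕ} {U : Fin d → Type}
    (y : (Σ j, U j) → FreeGroup (Σ j, U j)) (q q' : ∀ j, U j) (x : Fin d → P) (i t : Fin d)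
    (S : Finset (Fin d)) (ht : t ∉ S)
    (h : ∀ J : Finset (Fin d), J ⊆ S ∨ Sᶜ ⊆ J → (∃ s ∈ S, s ∉ J) →
      Yw y q (msk J x) i = Yw y q' (msk J x) i) :
    ((Yw y q' (msk S x) i)⁻¹ * Yw y q (msk S x) i)⁻¹ * ((Yw y q' x i)⁻¹ * Yw y q x i) ∈
      F (S.card + 1) := by
  set J : Finset (Fin d) → Finset (Fin d) := fun ω => ω ∩ S ∪ if t ∈ ω then Sᶜ else ∅ with hJd
  have hJ : ∀ j, (∀ ω, j ∈ J ω) ∨ (∀ ω, j ∉ J ω) ∨
      ∃ s ∈ insert t S, ∀ ω, j ∈ J ω ↔ s ∈ ω := fun j => by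
    by_cases hj : j ∈ S
    · refine Or.inr (Or.inr ⟨j, Finset.mem_insert_of_mem hj, fun ω => ?_⟩)
      by_cases hω : t ∈ ω <;> simp [hJd, hj, hω]
    · refine Or.inr (Or.inr ⟨t, Finset.mem_insert_self _ _, fun ω => ?_⟩)
      by_cases hω : t ∈ ω <;> simp [hJd, hj, hω]
  have ha := low_NcLc hC hF h1 y q q' x i S h
  set a := (Yw y q' (msk S x) i)⁻¹ * Yw y q (msk S x) i with had
  have hf := lemB_ZkLc (F := F) h1 q x _ J hJ (y ⟨i, q i⟩)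
  have hf' := lemB_ZkLc (F := F) h1 q' x _ J hJ (y ⟨i, q' i⟩)
  have hfa := face_ZkLc (F := F) (Finset.subset_insert t S) ha
  have eS : J S = S := by simp [hJd, ht]
  have eR : J (insert t S) = Finset.univ := by
    ext j; by_cases hj : j ∈ S <;> simp [hJd, hj]
  have key := lemA_ZkLc hC hF (insert t S) (mul_mem (inv_mem hf') hf) hfa fun ω hω hne => by
    change (Yw y q' (msk (J ω) x) i)⁻¹ * Yw y q (msk (J ω) x) i = if S ⊆ ω then a else 1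
    by_cases hS : S ⊆ ω
    · have e : ω = S := by
        refine Finset.Subset.antisymm (fun j hj => ?_) hS
        rcases Finset.mem_insert.1 (hω hj) with rfl | h'
        · exact absurd (Finset.Subset.antisymm hω (Finset.insert_subset hj hS)) hne
        · exact h'
      rw [if_pos hS, e, eS]
    · obtain ⟨s, hs, hs'⟩ := Finset.not_subset.1 hS
      have hJS : J ω ⊆ S ∨ Sᶜ ⊆ J ω := by
        by_cases hω : t ∈ ω
        · exact Or.inr (by simp [hJd, hω])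
        · exact Or.inl (by simp [hJd, hω])
      rw [if_neg hS, h (J ω) hJS ⟨s, hs, ?_⟩, inv_mul_cancel]
      by_cases hω : t ∈ ω <;> simp [hJd, hs, hs', hω]
  rw [Finset.card_insert_of_notMem ht, max_eq_right (Nat.le_add_left 1 _)] at key
  change (if S ⊆ insert t S then a else 1)⁻¹ * ((Yw y q' (msk (J (insert t S)) x) i)⁻¹ *
    Yw y q (msk (J (insert t S)) x) i) ∈ _ at key
  rwa [if_pos (Finset.subset_insert t S), eR, msk_univ_ZkLc] at key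

end

theorem lcN (hC : CornStmt) : LcN := by
  intro P _ _ T L l0 n hT D hD d U l S t x z φ hl hS ht hz hφ y g q q' hE hq
  have hF := hT.ns
  have h1 := hT.one
  have hm : 1 ≤ l + 1 := Nat.le_add_left 1 l
  have hm' : 1 ≤ l + 1 + 1 := Nat.le_add_left 1 _
  have hcard : (insert t S).card = l + 1 + 1 := by rw [Finset.card_insert_of_notMem ht, hS]
  have econg : ∀ i, 1 ≤ i → ∀ a ∈ T.F i, ∀ b : P, a⁻¹ * b ∈ T.F (i + 1) →
      D.e i b = D.e i a := by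
    intro i hi a ha b hb
    have hb' := hF.anti i (i + 1) hi (Nat.le_succ i) hb
    have := hD.add i hi a ha _ hb'
    rw [mul_inv_cancel_left, (hD.zero i hi _ hb').2 hb, add_zero] at this
    exact this
  have hc : ∀ i, (Yw y q' x i)⁻¹ * Yw y q x i ∈ T.F (l + 1) := by
    intro i
    obtain ⟨R, hR, hRc⟩ := Finset.exists_subset_card_eq (s := (insert t S).erase i) (n := l + 1)
      (by have := Finset.pred_card_le_card_erase (s := insert t S) (a := i); omega)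
    have := full_NcLc hC hF h1 y q q' x i R fun J hJ ⟨s, hs, hs'⟩ =>
      (hE i J (sub_NcLc (hR.trans (Finset.erase_subset _ _)) hJ)
        ⟨s, Finset.mem_of_mem_erase (hR hs), hs', Finset.ne_of_mem_erase (hR hs)⟩).1
    rwa [hRc, max_eq_right hm] at this
  have hsp : ∀ i, ⁅x i, Yw y q x i⁆ = ⁅x i, Yw y q' x i⁆ *
      (⁅Yw y q' x i, ⁅x i, (Yw y q' x i)⁻¹ * Yw y q x i⁆⁆ *
        ⁅x i, (Yw y q' x i)⁻¹ * Yw y q x i⁆) := fun i => by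
    rw [← split_ZkLc, mul_inv_cancel_left]
  have hw : ∀ i, ⁅x i, (Yw y q' x i)⁻¹ * Yw y q x i⁆ ∈ T.F (l + 1 + 1) := fun i =>
    comm_ZkLc hF h1 hm _ (hc i)
  have hw2 : ∀ i, ⁅Yw y q' x i, ⁅x i, (Yw y q' x i)⁻¹ * Yw y q x i⁆⁆ ∈ T.F (l + 1 + 1 + 1) :=
    fun i => comm_ZkLc hF h1 hm' _ (hw i)
  have hw3 : ∀ i, ⁅Yw y q' x i, ⁅x i, (Yw y q' x i)⁻¹ * Yw y q x i⁆⁆ ∈ T.F (l + 1 + 1) :=
    fun i => hF.anti _ _ hm' (Nat.le_succ _) (hw2 i)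
  have hq' : Eqs y q' T l x := fun i => by
    have := hq i
    rw [hsp i] at this
    exact (Subgroup.mul_mem_cancel_right _ (mul_mem (hw3 i) (hw i))).1 this
  refine ⟨hq', ?_⟩
  have he : ∀ i, D.e (l + 1 + 1) ⁅x i, Yw y q x i⁆ = D.e (l + 1 + 1) ⁅x i, Yw y q' x i⁆ +
      D.b (l + 1) (tyOf D x i) (D.e (l + 1) ((Yw y q' x i)⁻¹ * Yw y q x i)) := fun i => by
    rw [hsp i, hD.add _ hm' _ (hq' i) _ (mul_mem (hw3 i) (hw i)), hD.add _ hm' _ (hw3 i) _ (hw i),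
      (hD.zero _ hm' _ (hw3 i)).2 (hw2 i), zero_add, hD.br _ hm _ _ (hc i)]
    rfl
  have hOb : Ob y q D l x z = Ob y q' D l x z +
      z t ⬝ᵥ D.b (l + 1) (tyOf D x t) (D.e (l + 1) ((Yw y q' x t)⁻¹ * Yw y q x t)) := by
    simp only [Ob, he, dotProduct_add, Finset.sum_add_distrib]
    congr 1
    refine Finset.sum_eq_single t (fun i _ hit => ?_) (fun h => absurd (Finset.mem_univ t) h)
    by_cases hi : i ∈ S
    · rw [hz i hi, zero_dotProduct]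
    · have hi' : i ∉ insert t S := fun h => (Finset.mem_insert.1 h).elim hit hi
      have := full_NcLc hC hF h1 y q q' x i (insert t S) fun J hJ ⟨s, hs, hs'⟩ =>
        (hE i J hJ ⟨s, hs, hs', fun h => hi' (h ▸ hs)⟩).1
      rw [hcard, max_eq_right hm'] at this
      rw [(hD.zero _ hm _ (hc i)).2 this, map_zero, dotProduct_zero]
  have hy : ∀ J : Finset (Fin d), J ⊆ S ∨ Sᶜ ⊆ J → (∃ s ∈ S, s ∉ J) →
      Yw y q (msk J x) t = Yw y q' (msk J x) t ∧ Yw g q (msk J x) t = Yw g q' (msk J x) t :=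
    fun J hJ ⟨s, hs, hs'⟩ => hE t J (sub_NcLc (Finset.subset_insert t S) hJ)
      ⟨s, Finset.mem_insert_of_mem hs, hs', fun h => ht (h ▸ hs)⟩
  have ha := low_NcLc hC hF h1 y q q' x t S fun J hJ hJ' => (hy J hJ hJ').1
  have hγ := low_NcLc hC hF h1 g q q' x t S fun J hJ hJ' => (hy J hJ hJ').2
  have hac := mix_NcLc hC hF h1 y q q' x t t S ht fun J hJ hJ' => (hy J hJ hJ').1
  rw [hS, max_eq_right hm] at ha hγ
  rw [hS] at hac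
  have hu := conj_ZkLc hF h1 hm hγ ha
  have eZ : ∀ r : ∀ j, U j, Yw (g * y * g⁻¹) r (msk S x) t =
      Yw g r (msk S x) t * Yw y r (msk S x) t * (Yw g r (msk S x) t)⁻¹ := fun r => by
    simp only [Yw, Pi.mul_apply, Pi.inv_apply, map_mul, map_inv]
  rw [← eZ, ← eZ] at hu
  set Z := Yw (g * y * g⁻¹) q (msk S x) t
  set Z' := Yw (g * y * g⁻¹) q' (msk S x) t
  have hum : Z * Z'⁻¹ ∈ T.F (l + 1) := by
    have := hF.anti _ _ hm (Nat.le_succ _) hu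
    exact (Subgroup.inv_mem_iff _).1 ((Subgroup.mul_mem_cancel_right _ ha).1 this)
  have e1 := econg _ hm _ hum _ hu
  have e2 := econg _ hm _ ha _ hac
  have e3 := hφ _ hum Z'
  rw [inv_mul_cancel_right, ← e1, ← e2] at e3
  rw [hOb, e3]
  ring

end Pool.Agent.MP_f68ac8_nt.Nd

end

section

namespace Pool.Agent.MP_f68ac8_nt.Nd
open Zq Zv Zk Matrix Finset
open scoped commutatorElement

theorem cs_NcGcs {d : ℕ} {U : Fin d → Type} [∀ j, Fintype (U j)] {w : ∀ j, U j → ℝ}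
    (hw : Prob w) (i : Fin d) (c H : (∀ j, U j) → ℂ) (h1 : ∀ q, ‖c q‖ ≤ 1)
    (h2 : ∀ q u, c (Function.update q i u) = c q) :
    ‖Ex w fun q => c q * H q‖ ^ 2 ≤
      Ex w fun q => ‖∑ u, w i u • H (Function.update q i u)‖ ^ 2 := by
  have e : ‖Ex w fun q => c q * H q‖
      ≤ ∑ q : ∀ j, U j, (∏ j, w j (q j)) * ‖∑ u, w i u • H (Function.update q i u)‖ := by
    rw [resample_ZaGcs hw i]
    refine (norm_sum_le _ _).trans (sum_le_sum fun q _ => ?_)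
    have k : ∑ u, w i u • (c (Function.update q i u) * H (Function.update q i u))
        = c q * ∑ u, w i u • H (Function.update q i u) := by
      rw [mul_sum]
      exact sum_congr rfl fun u _ => by rw [h2, mul_smul_comm]
    dsimp only
    rw [norm_smul, Real.norm_of_nonneg (wt_nonneg_ZaGcs hw q), k, norm_mul]
    exact mul_le_mul_of_nonneg_left (mul_le_of_le_one_left (norm_nonneg _) (h1 q))
      (wt_nonneg_ZaGcs hw q)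
  exact (pow_le_pow_left₀ (norm_nonneg _) e 2).trans
    (Real.pow_arith_mean_le_arith_mean_pow univ _ _ (fun q _ => wt_nonneg_ZaGcs hw q)
      (wt_sum_ZaGcs hw) (fun q _ => norm_nonneg _) 2)

theorem gcsN : GcsN := by
  intro R _ ψ d U _ w hψ hw T t
  induction T using Finset.induction_on with
  | empty =>
    intro _ c G h1 h2
    have k := cs_NcGcs hw t (c t) (fun q => ψ (G q)) (h1 t) (h2 t (mem_insert_self _ _))
    refine le_trans (le_of_eq (by simp)) (k.trans (le_of_eq ?_))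
    unfold Bx
    congr 1
    funext q₀
    simp [ex_const_ZaGcs hw]
  | insert i T hi ih =>
    intro ht c G h1 h2
    have hit : i ≠ t := fun h => ht (h ▸ mem_insert_self _ _)
    have htT : t ∉ T := fun h => ht (mem_insert_of_mem h)
    have hi' : i ∉ insert t T := by simp [hit, hi]
    have hsub : ∀ j ∈ insert t T, j ∈ insert t (insert i T) := fun j hj =>
      insert_subset_insert t (subset_insert i T) hj
    have e1 : ∀ q, (∏ j ∈ insert t (insert i T), c j q) * ψ (G q) =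
        c i q * ((∏ j ∈ insert t T, c j q) * ψ (G q)) := by
      intro q
      rw [insert_comm, prod_insert hi', mul_assoc]
    have k1 := cs_NcGcs hw i (c i) (fun q => (∏ j ∈ insert t T, c j q) * ψ (G q)) (h1 i)
      (h2 i (by simp))
    have k2 := k1.trans (expand_ZaGcs hw i fun q => (∏ j ∈ insert t T, c j q) * ψ (G q))
    have k3 : ∀ a, ‖Ex w fun q => (∏ j ∈ insert t T, c j q) * ψ (G q) * starRingEnd ℂ
        ((∏ j ∈ insert t T, c j (Function.update q i a)) * ψ (G (Function.update q i a)))‖ ^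
          2 ^ (T.card + 1) ≤ Bx ψ w T t fun q => G q - G (Function.update q i a) := by
      intro a
      refine le_trans (le_of_eq ?_) (ih htT
        (fun j q => c j q * starRingEnd ℂ (c j (Function.update q i a))) _
        (fun j q => ?_) fun j hj q u => ?_)
      · congr 3
        funext q
        rw [map_mul, map_prod, ← Complex.inv_eq_conj (hψ _), ← AddChar.map_neg_eq_inv,
          prod_mul_distrib, sub_eq_add_neg, AddChar.map_add_eq_mul]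
        ring
      · rw [norm_mul, Complex.norm_conj]
        exact mul_le_one₀ (h1 _ _) (norm_nonneg _) (h1 _ _)
      · have hji : j ≠ i := fun h => hi' (h ▸ hj)
        rw [Function.update_comm hji, h2 j (hsub j hj), h2 j (hsub j hj)]
    simp only [e1]
    rw [card_insert_of_notMem hi, pow_succ' 2 (T.card + 1), pow_mul, bx_insert_ZaGcs ψ hw hi hit]
    refine (pow_le_pow_left₀ (sq_nonneg _) k2 _).trans
      ((Real.pow_arith_mean_le_arith_mean_pow univ _ _ (fun a _ => hw.1 i a) (hw.2 i)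
        (fun a _ => norm_nonneg _) _).trans (sum_le_sum fun a _ => ?_))
    exact mul_le_mul_of_nonneg_left (k3 a) (hw.1 i a)

open Classical in
/-- the value at a chosen point -/
noncomputable def pick_NcGcs {X : Type} (Θ : X → ℂ) (p : X → Prop) : ℂ :=
  if h : ∃ x, p x then Θ h.choose else 0

theorem pick_le_NcGcs {X : Type} (Θ : X → ℂ) (h : ∀ x, ‖Θ x‖ ≤ 1) (p : X → Prop) :
    ‖pick_NcGcs Θ p‖ ≤ 1 := by
  unfold pick_NcGcs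
  split_ifs
  · exact h _
  · simp

theorem pick_eq_NcGcs {X : Type} (Θ : X → ℂ) (p : X → Prop) (x : X) (hx : p x)
    (h : ∀ y, p y → Θ y = Θ x) : pick_NcGcs Θ p = Θ x := by
  unfold pick_NcGcs
  rw [dif_pos ⟨x, hx⟩]
  exact h _ (Exists.choose_spec (⟨x, hx⟩ : ∃ x, p x))

theorem norm_prod_le_NcGcs {κ : Type} (s : Finset κ) (g : κ → ℂ) (h : ∀ i, ‖g i‖ ≤ 1) :
    ‖∏ i ∈ s, g i‖ ≤ 1 := by
  rw [norm_prod]
  exact prod_le_one (fun i _ => norm_nonneg _) fun i _ => h i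

theorem boxN (hG : GcsN) : BoxN := by
  intro d U _ w hw T t ht hT I A _ _ f Θ G ζ hf hΘ hΘ' hζ
  classical
  obtain ⟨t', ht'⟩ := hT
  choose s hs hfs using hf
  let s' : Fin d → Fin d := fun j => if j = t then t' else t
  have hs' : ∀ j, s' j ∈ insert t T := fun j => by
    by_cases h : j = t <;> simp [s', h, ht']
  have hs'' : ∀ j, j ≠ s' j := fun j => by
    by_cases h : j = t
    · simp only [s', h, if_true]
      rintro rfl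
      exact ht ht'
    · simp [s', h]
  let Θ' : (I → A) → (∀ j, U j) → ℂ := fun δ q =>
    pick_NcGcs Θ fun q' => (∀ j ∉ insert t T, q' j = q j) ∧ ∀ i, f i q' = δ i
  let ind : (I → A) → I → (∀ j, U j) → ℂ := fun δ i q => if f i q = δ i then 1 else 0
  let c : (I → A) → Fin d → (∀ j, U j) → ℂ := fun δ k q =>
    (∏ i ∈ univ with s i = k, ind δ i q) * (∏ j ∈ univ with s' j = k, ζ j (q j)) *
      (if k = t then Θ' δ q else 1)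
  have h1 : ∀ δ, ‖Ex w fun q => (∏ k ∈ insert t T, c δ k q) * ZMod.stdAddChar (G q)‖ ^
      2 ^ (T.card + 1) ≤ Bx ZMod.stdAddChar w T t G := by
    intro δ
    refine hG (ZMod 2) ZMod.stdAddChar d U w (fun x => by simp) hw T t ht (c δ) G
      (fun k q => ?_) fun k hk q u => ?_
    · simp only [c, norm_mul]
      refine mul_le_one₀ (mul_le_one₀ (norm_prod_le_NcGcs _ _ fun i => ?_) (norm_nonneg _)
        (norm_prod_le_NcGcs _ _ fun j => hζ j _)) (norm_nonneg _) ?_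
      · simp only [ind]
        split_ifs <;> simp
      · split_ifs
        · exact pick_le_NcGcs Θ hΘ _
        · simp
    · have e1 : ∏ i ∈ univ with s i = k, ind δ i (Function.update q k u) =
          ∏ i ∈ univ with s i = k, ind δ i q := by
        refine prod_congr rfl fun i hi => ?_
        obtain rfl := (mem_filter.1 hi).2
        simp only [ind, hfs]
      have e2 : ∏ j ∈ univ with s' j = k, ζ j (Function.update q k u j) =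
          ∏ j ∈ univ with s' j = k, ζ j (q j) := by
        refine prod_congr rfl fun j hj => ?_
        obtain rfl := (mem_filter.1 hj).2
        rw [Function.update_of_ne (hs'' j)]
      have e3 : Θ' δ (Function.update q k u) = Θ' δ q := by
        refine congrArg (pick_NcGcs Θ) (funext fun q' => propext (and_congr_left' ?_))
        refine forall₂_congr fun j hj => ?_
        have : j ≠ k := fun h => hj (h ▸ hk)
        rw [Function.update_of_ne this]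
      simp only [c, e1, e2, e3]
  have h2 : ∀ q, (∏ j, ζ j (q j)) * (Θ q * ZMod.stdAddChar (G q)) =
      ∑ δ : I → A, (1 : ℝ) • ((∏ k ∈ insert t T, c δ k q) * ZMod.stdAddChar (G q)) := by
    intro q
    have e : ∀ δ, ∏ k ∈ insert t T, c δ k q =
        (if (fun i => f i q) = δ then 1 else 0) * (∏ j, ζ j (q j)) * Θ' δ q := by
      intro δ
      simp only [c, prod_mul_distrib]
      rw [prod_fiberwise_of_maps_to (fun i _ => hs i), prod_fiberwise_of_maps_to (fun j _ => hs' j),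
        prod_ite_eq', if_pos (mem_insert_self t T)]
      congr 2
      by_cases h : (fun i => f i q) = δ
      · rw [if_pos h]
        exact prod_eq_one fun i _ => if_pos (congrFun h i)
      · rw [if_neg h]
        obtain ⟨i, hi⟩ := Function.ne_iff.1 h
        exact prod_eq_zero (mem_univ i) (if_neg hi)
    have e' : Θ' (fun i => f i q) q = Θ q :=
      pick_eq_NcGcs Θ _ q ⟨fun _ _ => rfl, fun _ => rfl⟩ fun y hy => hΘ' y q hy.1 hy.2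
    simp only [e, one_smul, ite_mul, zero_mul, one_mul, sum_ite_eq, mem_univ, if_true, e']
    ring
  simp only [h2]
  rw [ex_sum_ZaGcs]
  simp only [one_smul]
  obtain ⟨n, hn⟩ : ∃ n, 2 ^ (T.card + 1) = n + 1 :=
    Nat.exists_eq_succ_of_ne_zero (pow_ne_zero _ two_ne_zero)
  rw [hn] at h1 ⊢
  refine (pow_le_pow_left₀ (norm_nonneg _) (norm_sum_le _ _) _).trans ?_
  refine (pow_sum_le_card_mul_sum_pow (fun δ _ => norm_nonneg _) n).trans ?_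
  refine (mul_le_mul_of_nonneg_left (sum_le_card_nsmul _ _ _ fun δ _ => h1 δ)
    (by positivity)).trans (le_of_eq ?_)
  rw [nsmul_eq_mul, card_univ, Fintype.card_fun]
  push_cast
  ring

end Pool.Agent.MP_f68ac8_nt.Nd

end
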