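import Mathlib
import Pool.Agent.Mg.Fe23604m.G9a9246

set_option linter.all false

section

/-! The error terms: reduction to the box norm. -/

namespace Pool.Agent.MP_f68ac8_nt.Zv

open Matrix Finset
open scoped BigOperators

section
variable {d : ℕ} {U : Fin d → Type} {R : Type} [CommRing R] {T : Finset (Fin d)}

theorem lc_zero_ZaErr (T : Finset (Fin d)) : LC T fun _ : ∀ j, U j => (0 : R) :=
  ⟨fun _ _ => 0, fun _ _ _ _ => rfl, fun _ => by simp⟩

theorem lc_add_ZaErr {f f' : (∀ j, U j) → R} (h : LC T f) (h' : LC T f') :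
    LC T fun q => f q + f' q := by
  obtain ⟨g, h1, h2⟩ := h
  obtain ⟨g', h1', h2'⟩ := h'
  refine ⟨fun i q => g i q + g' i q, fun i hi q u => ?_, fun q => ?_⟩
  · simp only [h1 i hi, h1' i hi]
  · simp only [h2, h2', sum_add_distrib]

theorem lc_mul_ZaErr {f : (∀ j, U j) → R} (c : R) (h : LC T f) : LC T fun q => c * f q := by
  obtain ⟨g, h1, h2⟩ := h
  refine ⟨fun i q => c * g i q, fun i hi q u => ?_, fun q => ?_⟩
  · simp only [h1 i hi]
  · simp only [h2, mul_sum]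

theorem lc_sum_ZaErr {α : Type} [DecidableEq α] (s : Finset α) {f : α → (∀ j, U j) → R}
    (h : ∀ a ∈ s, LC T (f a)) : LC T fun q => ∑ a ∈ s, f a q := by
  induction s using Finset.induction_on with
  | empty => simpa using lc_zero_ZaErr T
  | insert a s ha ih =>
    simp only [sum_insert ha]
    exact lc_add_ZaErr (h a (mem_insert_self _ _)) (ih fun b hb => h b (mem_insert_of_mem hb))

theorem lc_insert_ZaErr {f : (∀ j, U j) → R} {t : Fin d} (ht : t ∉ T) (h : LC T f) :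
    LC (insert t T) f := by
  obtain ⟨g, h1, h2⟩ := h
  refine ⟨fun i q => if i ∈ T then g i q else 0, fun i _ q u => ?_, fun q => ?_⟩
  · by_cases hi : i ∈ T
    · simp only [if_pos hi, h1 i hi]
    · simp only [if_neg hi]
  · simp only [sum_insert ht, if_neg ht, zero_add, h2]
    exact sum_congr rfl fun i hi => (if_pos hi).symm

theorem card_le_ZaErr {E : Type} (T : Finset (Fin d)) (e : E ⊕ Fin d)
    [DecidablePred fun i => e ≠ Sum.inr i] :
    T.card ≤ (∑ i ∈ T with e ≠ .inr i, 1) + 1 := by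
  have h1 := card_filter_add_card_filter_not (s := T) (fun i => e ≠ Sum.inr i)
  have h2 : (T.filter fun i => ¬ e ≠ Sum.inr i).card ≤ 1 := by
    refine card_le_one.2 fun a ha b hb => ?_
    have h3 := not_not.1 (mem_filter.1 ha).2
    have h4 := not_not.1 (mem_filter.1 hb).2
    exact Sum.inr_injective (h3.symm.trans h4)
  rw [← card_eq_sum_ones]
  omega

theorem card_le2_ZaErr {E : Type} {t : Fin d} (ht : t ∉ T) (e : E ⊕ Fin d)
    [DecidablePred fun i => e ≠ Sum.inr i] (he : e ≠ .inr t) :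
    T.card + 1 ≤ ∑ i ∈ insert t T with e ≠ .inr i, if i = t then 2 else 1 := by
  have h1 := card_le_ZaErr T e
  have h2 : (∑ i ∈ T with e ≠ .inr i, if i = t then 2 else 1) = ∑ i ∈ T with e ≠ .inr i, 1 :=
    sum_congr rfl fun i hi => if_neg fun h : i = t => ht (h ▸ (mem_filter.1 hi).1)
  rw [filter_insert, if_pos he, sum_insert fun h => ht (mem_filter.1 h).1, if_pos rfl, h2]
  omega

end

section
variable {p M : ℕ} [Fact p.Prime] {ι : Type} [Fintype ι] [DecidableEq ι]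
  {Γ : Subgroup (GL ι (Rg p M))} {B : Type} {d : ℕ} {U : Fin d → Type} {E : Type}

theorem ld_one_ZaErr (hL : LdStmt p) {γ : GL ι (Rg p M)} {j : ℕ} (hj : 2 ≤ j)
    (h : ∃ A, Ld j γ A) : Ld 1 γ 0 := by
  have h5 := (hL M ι).2.2.2.2.1
  induction j, hj using Nat.le_induction with
  | base => exact (h5 1 γ).2 h
  | succ j _ ih => exact ih ⟨0, (h5 j γ).2 h⟩

theorem ld_iff_ZaErr (hL : LdStmt p) {γ γ' : GL ι (Rg p M)} (h : Ld 1 (γ' * γ⁻¹) 0) :
    Ld 1 γ' 0 ↔ Ld 1 γ 0 := by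
  have h8 := (hL M ι).2.2.2.2.2.2.2.1
  constructor
  · intro h'
    have h1 := (h8 1 _ _ _ _ le_rfl (h8 1 _ _ _ _ le_rfl h h).2 h').1
    simpa using h1
  · intro h'
    have h1 := (h8 1 _ _ _ _ le_rfl h h').1
    simpa using h1

theorem lc_one_ZaErr (hL : LdStmt p) (hC : LcStmt p) (S : Sy p M ι B U E)
    {bb : B → GL ι (ZMod p)} {W : B ⊕ Fin d → Γ} (hW : InT bb W) {T : Finset (Fin d)} {t : Fin d}
    (ht : t ∉ T) (e : E ⊕ Fin d) {j : ℕ} (hj : j ≤ M + 1) (hT : j ≤ T.card) :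
    LC (insert t T) fun q => (p : Rg p M) ^ (M + 1 - j) * S.eqv q W e := by
  classical
  refine (hC M ι Γ B d U E S W).1 (insert t T) (fun _ => 1) e j
    (fun i _ => ((hL M ι).2.2.2.1 _).1 (hW.2 i)) hj ?_
  have h1 := card_le_ZaErr (insert t T) e
  rw [card_insert_of_notMem ht] at h1
  exact le_trans hT (Nat.le_of_succ_le_succ h1)

theorem lc_two_ZaErr (hL : LdStmt p) (hC : LcStmt p) (S : Sy p M ι B U E)
    {bb : B → GL ι (ZMod p)} {W : B ⊕ Fin d → Γ} (hW : InT bb W) {T : Finset (Fin d)} {t : Fin d}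
    (ht : t ∉ T) (h2 : Ld 1 (W (.inr t)).1 0) {e : E ⊕ Fin d} (he : e ≠ .inr t)
    (hT : T.card ≤ M) :
    LC (insert t T) fun q => (p : Rg p M) ^ (M + 1 - (T.card + 1)) * S.eqv q W e := by
  classical
  refine (hC M ι Γ B d U E S W).1 (insert t T) (fun i => if i = t then 2 else 1) e _
    (fun i _ => ?_) (Nat.succ_le_succ hT) (card_le2_ZaErr ht e he)
  by_cases hi : i = t
  · simp only [if_pos hi]
    rw [hi]
    exact ((hL M ι).2.2.2.2.1 1 _).1 h2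
  · simp only [if_neg hi]
    exact ((hL M ι).2.2.2.1 _).1 (hW.2 i)

theorem sol_of_ZaErr (hL : LdStmt p) (S : Sy p M ι B U E) {q q' : ∀ j, U j}
    {bb : B → GL ι (ZMod p)} {W : B ⊕ Fin d → Γ} {j : ℕ} (hj : j ≤ M + 1) {D : Finset (Fin d)}
    (h : InT bb W → ∀ e, (∀ i ∈ D, e ≠ .inr i) → (p : Rg p M) ^ (M + 1 - j) * S.eqv q W e =
      (p : Rg p M) ^ (M + 1 - j) * S.eqv q' W e) (hW : W ∈ S.Sol Γ q bb j D) :
    W ∈ S.Sol Γ q' bb j D := by
  refine ⟨hW.1, fun e he => ?_⟩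
  rw [(hL M ι).1 j _ hj, ← h hW.1 e he, ← (hL M ι).1 j _ hj]
  exact hW.2 e he

theorem good_of_ZaErr (S : Sy p M ι B U E) {q q' : ∀ j, U j} {bb : B → GL ι (ZMod p)}
    {A₀ A₁ : Finset (Fin d)} {g : ℕ} (h : ∀ D, S.Sol Γ q bb 2 D = S.Sol Γ q' bb 2 D)
    (hG : S.Good Γ q bb A₀ A₁ g) : S.Good Γ q' bb A₀ A₁ g := by
  intro W hW
  have h1 := hG W (h ∅ ▸ hW)
  have h2 : S.Kd q bb (dp A₁ W) W = S.Kd q' bb (dp A₁ W) W := by
    simp only [Sy.Kd, h]
  rwa [h2] at h1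

variable (Γ B d E) in
/-- the index set of the data -/
abbrev Ix_ZaErr : Type :=
  ((B ⊕ Fin d → Γ) × (E ⊕ Fin d)) ⊕ (E ⊕ Fin d) ⊕ (E ⊕ Fin d) ⊕ (E ⊕ Fin d)

theorem box_ZaErr (hL : LdStmt p) (hC : LcStmt p) (hB : BoxStmt) [Fintype (Ix_ZaErr Γ B d E)]
    [∀ j, Fintype (U j)] {w : ∀ j, U j → ℝ} (hw : Prob w) (S : Sy p M ι B U E)
    {bb : B → GL ι (ZMod p)} (A₀ A₁ : Finset (Fin d)) (g : ℕ) {W W' : B ⊕ Fin d → Γ}
    (hW : InT bb W) (hW' : InT bb W') (μ : Fin d → ZMod p) {T : Finset (Fin d)} {t : Fin d}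
    (ht : t ∉ T) (htA : t ∈ dp A₁ W) (h2 : Ld 1 (W' (.inr t)).1 0) (hT2 : 2 ≤ T.card)
    (hT : T.card ≤ M) :
    ‖Ex w fun q => S.Tm q bb A₀ A₁ g T.card W W' μ‖ ^ 2 ^ (T.card + 1) ≤
      (((p ^ (M + 1) : ℕ) : ℝ) ^ Fintype.card (Ix_ZaErr Γ B d E)) ^ 2 ^ (T.card + 1) *
        Bx ZMod.stdAddChar w T t fun q =>
          (p : Rg p M) ^ (M - T.card) * ((μ t).val : Rg p M) * S.eqv q (mask T W') (.inr t) := by
  classical
  have hM1 : M + 1 - (T.card + 1) = M - T.card := by omega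
  have key := hB (p ^ (M + 1)) d U w hw T t ht (Ix_ZaErr Γ B d E)
    (Sum.elim (fun z q => if InT bb z.1 then (p : Rg p M) ^ (M + 1 - 2) * S.eqv q z.1 z.2 else 0)
      (Sum.elim (fun e q => (p : Rg p M) ^ (M + 1 - T.card) * S.eqv q W e)
        (Sum.elim (fun e q => (p : Rg p M) ^ (M + 1 - T.card) * S.eqv q W' e)
          fun e q => if e = .inr t then 0 else
            (p : Rg p M) ^ (M + 1 - (T.card + 1)) * S.eqv q W' e)))
    (fun q => ∑ i ∈ univ.erase t, ((μ i).val : Rg p M) *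
        ((p : Rg p M) ^ (M + 1 - (T.card + 1)) * S.eqv q W' (.inr i)) +
      ((μ t).val : Rg p M) * ((p : Rg p M) ^ (M - T.card) *
        (S.eqv q W' (.inr t) - S.eqv q (mask T W') (.inr t))))
    (fun q => (p : Rg p M) ^ (M - T.card) * ((μ t).val : Rg p M) * S.eqv q (mask T W') (.inr t))
    (fun q => S.Good Γ q bb A₀ A₁ g ∧ W ∈ S.Sol Γ q bb T.card ∅ ∧ W' ∈ S.Sol Γ q bb T.card ∅ ∧
      W' ∈ S.Sol Γ q bb (T.card + 1) (dp A₁ W)) ?_ ?_ ?_
  · refine le_of_eq_of_le ?_ key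
    congr 3
    funext q
    unfold Sy.Tm
    split_ifs
    · congr 1
      rw [← add_sum_erase _ _ (mem_univ t), hM1, mul_add, mul_sum]
      have h3 : ∑ i ∈ univ.erase t, (p : Rg p M) ^ (M - T.card) *
          (((μ i).val : Rg p M) * S.eqv q W' (.inr i)) = ∑ i ∈ univ.erase t,
          ((μ i).val : Rg p M) * ((p : Rg p M) ^ (M - T.card) * S.eqv q W' (.inr i)) :=
        sum_congr rfl fun i _ => by ring
      rw [h3]
      ring
    · rfl
  · rintro (z | e | e | e)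
    · by_cases hz : InT bb z.1
      · simp only [Sum.elim_inl, if_pos hz]
        exact lc_one_ZaErr hL hC S hz ht _ (by omega) hT2
      · simp only [Sum.elim_inl, if_neg hz]
        exact lc_zero_ZaErr _
    · exact lc_one_ZaErr hL hC S hW ht _ (by omega) le_rfl
    · exact lc_one_ZaErr hL hC S hW' ht _ (by omega) le_rfl
    · by_cases he : e = .inr t
      · simp only [Sum.elim_inr, if_pos he]
        exact lc_zero_ZaErr _
      · simp only [Sum.elim_inr, if_neg he]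
        exact lc_two_ZaErr hL hC S hW' ht h2 he hT
  · refine lc_add_ZaErr (lc_sum_ZaErr _ fun i hi => lc_mul_ZaErr _ ?_) (lc_mul_ZaErr _ ?_)
    · exact lc_two_ZaErr hL hC S hW' ht h2
        (fun h => (mem_erase.1 hi).1 (Sum.inr_injective h)) hT
    · exact lc_insert_ZaErr ht ((hC M ι Γ B d U E S W').2 T t hW'.2 ht hT)
  · rintro q q' h ⟨h1, h3, h4, h5⟩
    refine ⟨good_of_ZaErr S (fun D => ?_) h1, ?_, ?_, ?_⟩
    · ext W₀
      constructor
      · refine sol_of_ZaErr hL S (by omega) fun h0 e _ => ?_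
        simpa only [Sum.elim_inl, if_pos h0] using h (.inl (W₀, e))
      · refine sol_of_ZaErr hL S (by omega) fun h0 e _ => ?_
        simpa only [Sum.elim_inl, if_pos h0] using (h (.inl (W₀, e))).symm
    · exact sol_of_ZaErr hL S (by omega) (fun _ e _ => h (.inr (.inl e))) h3
    · exact sol_of_ZaErr hL S (by omega) (fun _ e _ => h (.inr (.inr (.inl e)))) h4
    · refine sol_of_ZaErr hL S (by omega) (fun _ e he => ?_) h5
      simpa only [Sum.elim_inr, if_neg (he t htA)] using h (.inr (.inr (.inr e)))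

end

end Pool.Agent.MP_f68ac8_nt.Zv

end

section

/-! The error terms are small. -/

namespace Pool.Agent.MP_f68ac8_nt.Zv

open Matrix Finset
open scoped BigOperators

theorem jensen_ZaErr {A : Type} [Fintype A] [Nonempty A] (z : A → ℂ) (n : ℕ) :
    ‖𝔼 a, z a‖ ^ n ≤ 𝔼 a, ‖z a‖ ^ n := by
  have h1 : ‖𝔼 a, z a‖ ≤ 𝔼 a, ‖z a‖ := RCLike.norm_expect_le (K := ℝ)
  refine (pow_le_pow_left₀ (norm_nonneg _) h1 n).trans ?_
  have hc : (0 : ℝ) < Fintype.card A := by exact_mod_cast Fintype.card_pos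
  have h2 := Real.pow_arith_mean_le_arith_mean_pow univ (fun _ : A => (Fintype.card A : ℝ)⁻¹)
    (fun a => ‖z a‖) (fun _ _ => by positivity)
    (by rw [sum_const, card_univ, nsmul_eq_mul, mul_inv_cancel₀ hc.ne'])
    (fun _ _ => norm_nonneg _) n
  rw [← mul_sum, ← mul_sum] at h2
  rw [expect_eq_sum_div_card, expect_eq_sum_div_card, card_univ, div_eq_inv_mul, div_eq_inv_mul]
  exact h2

theorem expect_Ex_ZaErr {A : Type} [Fintype A] {d : ℕ} {U : Fin d → Type} [∀ j, Fintype (U j)]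
    (w : ∀ j, U j → ℝ) (f : A → (∀ j, U j) → ℝ) :
    𝔼 a, Ex w (f a) = Ex w fun q => 𝔼 a, f a q := by
  unfold Ex
  rw [expect_sum_comm]
  exact sum_congr rfl fun q _ => (smul_expect _ _ _).symm

theorem mom_ZaErr (hM : MomStmt) {U I Y : Type} [Fintype U] [Fintype I] [Fintype Y] [Nonempty Y]
    [inst : Fintype (I → Y)] (e : U → I) (w : U → ℝ) (η : ℝ) (g : U → Y → ℂ)
    (he : Function.Injective e) (h0 : ∀ u, 0 ≤ w u) (h1 : ∑ u, w u = 1) (h2 : ∀ u, w u ≤ η)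
    (h3 : ∀ u a, ‖g u a‖ ≤ 1) :
    𝔼 a : I → Y, ‖∑ u, w u • g u (a (e u))‖ ^ 2 ≤ ‖∑ u, w u • 𝔼 a, g u a‖ ^ 2 + η := by
  classical
  obtain rfl : inst = @Pi.instFintype I (fun _ => Y) (fun a b => Classical.propDecidable (a = b))
    _ _ := Subsingleton.elim _ _
  exact hM.1 U I Y e w η g he h0 h1 h2 h3

theorem piV_apply_ZaErr {Λ Ω G : Type} [Group G] (V : Ω → Λ → G) (w : FreeGroup Λ) (ω : Ω) :
    piV V w ω = FreeGroup.lift (V ω) w := by
  have h : (Pi.evalMonoidHom (fun _ : Ω => G) ω).comp (piV V) = FreeGroup.lift (V ω) := by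
    ext l
    simp [piV]
  exact DFunLike.congr_fun h w

section
variable {p M : ℕ} [Fact p.Prime] {ι : Type} [Fintype ι] [DecidableEq ι]
  {Γ : Subgroup (GL ι (Rg p M))} {B : Type} {d : ℕ} {U : Fin d → Type} {E : Type}

omit [Fact p.Prime] in
theorem place_update_ZaErr (q : ∀ j, U j) (W : B ⊕ Fin d → Γ) {T : Finset (Fin d)} {t : Fin d}
    (ht : t ∉ T) (u : U t) :
    place (Function.update q t u) (mask T W) = place q (mask T W) := by
  funext l
  rcases l with b | ⟨i, v⟩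
  · rfl
  · by_cases hi : i = t
    · subst hi
      simp [place, mask, ht]
    · simp only [place, Sum.elim_inr]
      rw [Function.update_of_ne hi]

omit [Fact p.Prime] in
theorem alt_ZaErr (S : Sy p M ι B U E) (W : B ⊕ Fin d → Γ) {T : Finset (Fin d)} {t : Fin d}
    (ht : t ∉ T) (c : Rg p M) (q₀ q₁ : ∀ j, U j) (u : U t) :
    ∑ ω ∈ T.powerset, (-1) ^ ω.card *
        (c * S.eqv (Function.update (ω.piecewise q₁ q₀) t u) (mask T W) (.inr t)) =
      Ps (fun ω => if ω ⊆ T then (-1) ^ ω.card * c else 0)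
        (piV (fun ω : Finset (Fin d) => place (ω.piecewise q₁ q₀) (mask T W)) (S.y ⟨t, u⟩).1)
        (S.y ⟨t, u⟩).2 := by
  unfold Ps
  simp only [ite_mul, zero_mul]
  rw [← sum_filter]
  refine sum_congr (by ext ω; simp) fun ω _ => ?_
  simp only [Sy.eqv, Sum.elim_inr, place_update_ZaErr _ W ht, Function.update_self,
    piV_apply_ZaErr, ev, mul_assoc]

theorem bx_ZaErr (hM : MomStmt) (hS : ShiftStmt p)
    {L : Submodule (ZMod p) (Matrix ι ι (ZMod p))} (hLie : LieD Γ L) {B₀ : Set B}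
    {bb : B → GL ι (ZMod p)} (hI : Irr L (bb '' B₀)) [∀ j, Fintype (U j)] {w : ∀ j, U j → ℝ}
    {Y : Type} [Fintype Y] [Nonempty Y] [Fintype ((Σ j, U j) → Y)]
    (y : (Σ j, U j) → Y → FreeGroup (Lt B U) × Rg p M) {η : ℝ} (hw : Prob w)
    (hη : ∀ j u, w j u ≤ η) (hη0 : 0 ≤ η) (hE : EQ Γ L B₀ bb w y η)
    (x : E → FreeGroup (Lt B U) × ι × ι × Rg p M) {W : B ⊕ Fin d → Γ} (hW : InT bb W)
    {T : Finset (Fin d)} {t : Fin d} (hlt : ∀ i ∈ T, i < t) (hT0 : T.Nonempty) (hT : T.card ≤ M)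
    (hld : ∀ i ∈ T, ¬ Ld 1 (W (.inr i)).1 0) {m : ZMod p} (hm : m ≠ 0) :
    𝔼 a : (Σ j, U j) → Y, Bx ZMod.stdAddChar w T t (fun q =>
        (p : Rg p M) ^ (M - T.card) * (m.val : Rg p M) *
          Sy.eqv ⟨x, fun u => y u (a u)⟩ q (mask T W) (.inr t))
      ≤ η ^ 2 + η + T.card * η := by
  have ht : t ∉ T := fun h => lt_irrefl _ (hlt t h)
  unfold Bx
  simp only [expect_Ex_ZaErr, alt_ZaErr _ W ht]
  have hn : ∀ z : Rg p M, ‖(ZMod.stdAddChar z : ℂ)‖ = 1 := fun z => AddChar.norm_apply _ z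
  refine hM.2 d U w η (η ^ 2 + η) hw hη (by positivity) T _ (fun q₀ q₁ => ?_) fun q₀ q₁ hq => ?_
  · refine le_trans (expect_le univ_nonempty fun a _ => ?_)
      (le_add_of_nonneg_right (by positivity))
    refine pow_le_one₀ (norm_nonneg _) ((norm_sum_le _ _).trans (le_of_eq ?_))
    rw [← hw.2 t]
    refine sum_congr rfl fun u _ => ?_
    rw [norm_smul, hn, mul_one, Real.norm_of_nonneg (hw.1 t u)]
  · have h1 := mom_ZaErr hM (fun u : U t => (⟨t, u⟩ : Σ j, U j)) (w t) η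
      (fun u b => ZMod.stdAddChar (Ps
        (fun ω => if ω ⊆ T then (-1) ^ ω.card * ((p : Rg p M) ^ (M - T.card) * (m.val : Rg p M))
          else 0)
        (piV (fun ω : Finset (Fin d) => place (ω.piecewise q₁ q₀) (mask T W)) (y ⟨t, u⟩ b).1)
        (y ⟨t, u⟩ b).2)) sigma_mk_injective (hw.1 t) (hw.2 t) (hη t) fun u b => (hn _).le
    have h2 := hE t (fun ω : Finset (Fin d) => place (ω.piecewise q₁ q₀) (mask T W)) _
      (fun ω b => hW.1 b) (fun ω z => ?_) (fun ω z hz => ?_)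
      (hS M ι Γ L hLie B B₀ bb hI d U W hW T hT0 hT hld q₀ q₁ hq m hm)
    · exact h1.trans (add_le_add_left (pow_le_pow_left₀ (norm_nonneg _) h2 2) η)
    · simp only [place, mask, Sum.elim_inr]
      split_ifs
      · exact hW.2 _
      · exact map_one _
      · exact map_one _
    · have h3 : z.1 ∉ T := fun h => absurd (hlt _ h) (not_lt.2 hz)
      simp only [place, mask, Sum.elim_inr, if_neg h3, ite_self]

theorem sol_mono_ZaErr (S : Sy p M ι B U E) (q : ∀ j, U j) {bb : B → GL ι (ZMod p)}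
    {W : B ⊕ Fin d → Γ} {j : ℕ} (hj : 2 ≤ j) (h : W ∈ S.Sol Γ q bb j ∅) :
    W ∈ S.Sol Γ q bb 2 ∅ :=
  ⟨h.1, fun e he => (pow_dvd_pow _ hj).trans (h.2 e he)⟩

end

theorem eta_ZaErr (M : ℕ) {C ε : ℝ} (hC : 1 ≤ C) (hε : 0 < ε) : ∃ η : ℝ, 0 < η ∧
    ∀ j ≤ M, C ^ 2 ^ (j + 1) * (η ^ 2 + η + j * η) ≤ ε ^ 2 ^ (j + 1) := by
  have h0 : 0 < min ε 1 := lt_min hε one_pos
  have h1 : 0 < min ε 1 / C := div_pos h0 (by linarith)
  have h2 : min ε 1 / C ≤ 1 := (div_le_one (by linarith)).2 ((min_le_right _ _).trans hC)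
  have hM : (0 : ℝ) < M + 2 := by positivity
  set η := (min ε 1 / C) ^ 2 ^ (M + 1) / (M + 2) with hη
  have h3 : 0 < η := div_pos (pow_pos h1 _) hM
  have h4 : (M + 2) * η = (min ε 1 / C) ^ 2 ^ (M + 1) := mul_div_cancel₀ _ hM.ne'
  have h5 : η ≤ 1 := by
    have h6 : (min ε 1 / C) ^ 2 ^ (M + 1) ≤ 1 := pow_le_one₀ h1.le h2
    have h7 : (0 : ℝ) ≤ M := Nat.cast_nonneg M
    nlinarith
  refine ⟨η, h3, fun j hj => ?_⟩
  have h6 : η ^ 2 + η + j * η ≤ (M + 2) * η := by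
    have h7 : (j : ℝ) ≤ M := by exact_mod_cast hj
    nlinarith
  have h7 : (min ε 1 / C) ^ 2 ^ (M + 1) ≤ (min ε 1 / C) ^ 2 ^ (j + 1) :=
    pow_le_pow_of_le_one h1.le h2 (Nat.pow_le_pow_right two_pos (Nat.succ_le_succ hj))
  calc C ^ 2 ^ (j + 1) * (η ^ 2 + η + j * η)
      ≤ C ^ 2 ^ (j + 1) * (min ε 1 / C) ^ 2 ^ (j + 1) :=
        mul_le_mul_of_nonneg_left (h6.trans (h4.le.trans h7)) (by positivity)
    _ = (min ε 1) ^ 2 ^ (j + 1) := by
        rw [← mul_pow, mul_div_cancel₀ _ (by linarith : C ≠ 0)]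
    _ ≤ ε ^ 2 ^ (j + 1) := pow_le_pow_left₀ h0.le (min_le_left _ _) _

theorem err_stmt (p : ℕ) [Fact p.Prime] (hL : LdStmt p) (hC : LcStmt p) (hB : BoxStmt)
    (hM : MomStmt) (hS : ShiftStmt p) : ErrStmt p := by
  classical
  intro M ι _ _ Γ L hLie B _ B₀ bb hI d A₀ A₁ hA g E _ ε hε
  have hp : 1 ≤ p := (Fact.out : p.Prime).one_le
  have hC1 : (1 : ℝ) ≤ ((p ^ (M + 1) : ℕ) : ℝ) ^ Fintype.card (Ix_ZaErr Γ B d E) :=
    one_le_pow₀ (by exact_mod_cast Nat.one_le_pow _ _ hp)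
  obtain ⟨η, hη0, hη⟩ := eta_ZaErr M hC1 hε
  refine ⟨η, hη0, ?_⟩
  intro U _ w Y _ _ y hw hwη hE x j W W' μ hj hjM hWW hμ hμA
  by_cases h0 : InT bb W ∧ InT bb W' ∧ M ≤ (A₀ \ dp A₀ W).card
  swap
  · have h1 : ∀ (S : Sy p M ι B U E) q, S.Tm q bb A₀ A₁ g j W W' μ = 0 := by
      intro S q
      unfold Sy.Tm
      refine if_neg fun h => h0 ⟨h.2.1.1, h.2.2.1.1, ?_⟩
      exact (h.1 W (sol_mono_ZaErr S q hj h.2.1)).1
    simp [h1, Ex, hε.le]
  obtain ⟨hW, hW', hcard⟩ := h0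
  obtain ⟨T, hTA, rfl⟩ := exists_subset_card_eq (hjM.trans hcard)
  obtain ⟨t, ht⟩ := Function.ne_iff.1 hμ
  have htA : t ∈ dp A₁ W := by_contra fun h => ht (hμA t h)
  have hlt : ∀ i ∈ T, i < t := fun i hi =>
    hA i (mem_sdiff.1 (hTA hi)).1 t (mem_filter.1 htA).1
  have htT : t ∉ T := fun h => lt_irrefl _ (hlt t h)
  have hiff : ∀ l, Ld 1 (W' l).1 0 ↔ Ld 1 (W l).1 0 := fun l =>
    ld_iff_ZaErr hL (ld_one_ZaErr hL hj (hWW l))
  have hld : ∀ i ∈ T, ¬ Ld 1 (W' (.inr i)).1 0 := fun i hi h =>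
    (mem_sdiff.1 (hTA hi)).2 (mem_filter.2 ⟨(mem_sdiff.1 (hTA hi)).1, (hiff _).1 h⟩)
  refine (pow_le_pow_iff_left₀ (norm_nonneg _) hε.le
    (pow_pos two_pos (T.card + 1)).ne').1 ((jensen_ZaErr _ _).trans ?_)
  refine (expect_le_expect fun a _ => box_ZaErr hL hC hB hw _ A₀ A₁ g hW hW' μ htT htA
    ((hiff _).2 (mem_filter.1 htA).2) hj hjM).trans ?_
  rw [← mul_expect]
  refine le_trans (mul_le_mul_of_nonneg_left ?_ (by positivity)) (hη T.card hjM)
  exact bx_ZaErr hM hS hLie hI y hw hwη hη0.le hE x hW' hlt (card_pos.1 (by omega)) hjM hld ht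

end Pool.Agent.MP_f68ac8_nt.Zv

end
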