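import Mathlib
import Pool.Agent.Mg.Fe23604m.G9a9246
import Pool.Agent.Mg.Fe23604m.Gf1ba88

set_option linter.all false

section

/-! Counting solutions of word equations over finite local rings. -/

namespace Pool.Agent.MP_f68ac8_nt.Ze

open Matrix Finset Zv Ideal
open scoped BigOperators Polynomial

/-- the maximal ideal -/
abbrev mx (A : Type) [CommRing A] : Ideal A := nilradical A

/-- local rings whose residue field is the prime field -/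
structure Rd (p : ℕ) [Fact p.Prime] (A : Type) [CommRing A] where
  rd : A →+* ZMod p
  io : ℤ_[p] →+* A
  ker : ∀ x, rd x = 0 ↔ x ∈ mx A

section
variable {p : ℕ} [Fact p.Prime] {A : Type} [CommRing A] (R : Rd p A) {ι : Type} [Fintype ι]
  [DecidableEq ι]

/-- linear forms on `J / m J` -/
structure Fn (J : Ideal A) (l : A → ZMod p) : Prop where
  add : ∀ x ∈ J, ∀ y ∈ J, l (x + y) = l x + l y
  mul : ∀ a, ∀ x ∈ J, l (a * x) = R.rd a * l x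

/-- congruent to one modulo `J` -/
def Cg (J : Ideal A) (γ : GL ι A) : Prop := ∀ i j, (γ.val - 1) i j ∈ J

/-- a component of the leading term -/
def ltm (l : A → ZMod p) (γ : GL ι A) : Matrix ι ι (ZMod p) := (γ.val - 1).map l

/-- `γ = 1 + a Z` modulo `m J` -/
def Pm (J : Ideal A) (a : A) (γ : GL ι A) (Z : Matrix ι ι (ZMod p)) : Prop :=
  a ∈ J ∧ ∀ i j, (γ.val - 1) i j - a * ((Z i j).val : A) ∈ mx A * J

/-- the reduction of an invertible matrix -/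
def rs (γ : GL ι A) : GL ι (ZMod p) := GeneralLinearGroup.map R.rd γ

/-- the characteristic polynomial -/
def Pf (Y : GL ι A) (c : A) : A := (Y.val - c • 1).det

/-- a group with its Lie algebra -/
structure LieA (Γ : Subgroup (GL ι A)) (L : Submodule (ZMod p) (Matrix ι ι (ZMod p))) :
    Prop where
  ex : ∀ a ∈ mx A, ∀ Z ∈ L, ∃ γ ∈ Γ, Pm (span {a}) a γ Z
  mem : ∀ J ≤ mx A, ∀ l, Fn R J l → ∀ γ ∈ Γ, Cg J γ → ltm l γ ∈ L
  perf : ∀ φ : Matrix ι ι (ZMod p) →ₗ[ZMod p] ZMod p, (∃ Z ∈ L, φ Z ≠ 0) →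
    ∃ Z ∈ L, ∃ Z' ∈ L, φ (Z * Z' - Z' * Z) ≠ 0

/-- additive maps that vanish on `J` -/
def Kl {N : Type} [AddCommGroup N] (J : Ideal A) (φ : A →+ N) : Prop := ∀ x ∈ J, φ x = 0

end

section
variable {G : Type} [One G] {B : Type} {d : ℕ} {U : Fin d → Type}

open Classical in
/-- the values of the letters -/
noncomputable def place (q : ∀ j, U j) (W : B ⊕ Fin d → G) : Lt B U → G :=
  Sum.elim (fun b => W (.inl b)) fun x => if x.2 = q x.1 then W (.inr x.1) else 1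

/-- replace the entries outside `T` by one -/
def mask (T : Finset (Fin d)) (W : B ⊕ Fin d → G) : B ⊕ Fin d → G :=
  Sum.elim (fun b => W (.inl b)) fun i => if i ∈ T then W (.inr i) else 1

end

section
variable {p : ℕ} [Fact p.Prime] {A : Type} [CommRing A] (R : Rd p A) {ι : Type} [Fintype ι]
  [DecidableEq ι] {Γ : Subgroup (GL ι A)} (L : Submodule (ZMod p) (Matrix ι ι (ZMod p)))
  {B : Type} {d : ℕ} {U : Fin d → Type}

/-- the value of a word -/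
def ev {Λ : Type} (V : Λ → Γ) (w : FreeGroup Λ) : GL ι A := (FreeGroup.lift V w : Γ)

/-- an equation for an entry of a word -/
def E0 {Λ : Type} (V : Λ → Γ) (x : FreeGroup Λ × ι × ι × A) : A :=
  (ev V x.1).val x.2.1 x.2.2.1 - x.2.2.2

/-- tuples with the given reduction -/
def InT (bb : B → GL ι (ZMod p)) (W : B ⊕ Fin d → Γ) : Prop :=
  (∀ b, rs R (W (.inl b)).1 = bb b) ∧ ∀ i, rs R (W (.inr i)).1 = 1

/-- the quotients of two tuples -/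
def qt (W' W : B ⊕ Fin d → Γ) (x : B ⊕ Fin d) : GL ι A := (W' x).1 * (W x).1⁻¹

variable (A ι B U) in
/-- a system of equations -/
structure Sy (E : Type) where
  x : E → FreeGroup (Lt B U) × ι × ι × A
  y : (Σ j, U j) → FreeGroup (Lt B U) × A

variable {E : Type} (S : Sy A ι B U E) (q : ∀ j, U j) (bb : B → GL ι (ZMod p))

/-- the values of the equations -/
noncomputable def Sy.eqv (W : B ⊕ Fin d → Γ) : E ⊕ Fin d → A :=
  Sum.elim (fun e => E0 (place q W) (S.x e))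
    fun i => Pf (ev (place q W) (S.y ⟨i, q i⟩).1) (S.y ⟨i, q i⟩).2

variable (Γ) in
/-- solutions modulo `J` of the equations outside `D` -/
def Sol (J : Ideal A) (D : Finset (Fin d)) : Set (B ⊕ Fin d → Γ) :=
  {W | InT R bb W ∧ ∀ e, (∀ i ∈ D, e ≠ .inr i) → S.eqv q W e ∈ J}

/-- the kernel of the linearised equations -/
def Kd (l : A → ZMod p) (D : Finset (Fin d)) (W : B ⊕ Fin d → Γ) :
    Set (B ⊕ Fin d → Matrix ι ι (ZMod p)) :=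
  {δ | ∃ W' ∈ Sol R Γ S q bb (mx A ^ 2) D, δ = fun x => ltm l (qt W' W x)}

open Classical in
/-- the positions in `T` where the entry is one modulo the square of the maximal ideal -/
noncomputable def dp (T : Finset (Fin d)) (W : B ⊕ Fin d → Γ) : Finset (Fin d) :=
  T.filter fun i => Cg (mx A ^ 2) (W (.inr i)).1

open Classical in
/-- the leading terms span the cotangent space many times -/
def Spn (k : ℕ) (T : Finset (Fin d)) (W : B ⊕ Fin d → Γ) : Prop :=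
  ∃ (a : Fin d → A) (Z : Fin d → Matrix ι ι (ZMod p)),
    (∀ i ∈ T, Z i ∈ L ∧ Z i ≠ 0 ∧ Pm (mx A) (a i) (W (.inr i)).1 (Z i)) ∧
    ∀ l, Fn R (mx A) l → (∃ x ∈ mx A, l x ≠ 0) → k ≤ (T.filter fun i => l (a i) ≠ 0).card

variable (M : ℕ) (A₀ A₁ : Finset (Fin d))

/-- generic tuples -/
def Gd (W : B ⊕ Fin d → Γ) : Prop :=
  Spn R L M A₀ W ∧ ∀ l, Fn R (mx A) l →
    p * (Kd R S q bb l (dp A₁ W) W).ncard ≤ p ^ (dp A₁ W).card

variable (Γ) in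
/-- generic solutions -/
def SolG (j : ℕ) : Set (B ⊕ Fin d → Γ) :=
  {W | W ∈ Sol R Γ S q bb (mx A ^ j) ∅ ∧ Gd R L S q bb M A₀ A₁ W}

open Classical in
/-- a term of the error -/
noncomputable def Tm (j : ℕ) (W W' : B ⊕ Fin d → Γ) (φ : Fin d → A →+ Rg p M) : ℂ :=
  if W ∈ SolG R Γ L S q bb M A₀ A₁ j ∧ W' ∈ Sol R Γ S q bb (mx A ^ j) ∅ ∧
      W' ∈ Sol R Γ S q bb (mx A ^ (j + 1)) (dp A₁ W) then
    ZMod.stdAddChar (∑ i, φ i (S.eqv q W' (.inr i))) else 0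

variable {M}

/-- the characters that occur in the error -/
def AdF (j : ℕ) (D : Finset (Fin d)) (φ : Fin d → A →+ Rg p M) : Prop :=
  (∀ i ∉ D, φ i = 0) ∧ (∀ i, Kl (mx A ^ (j + 1)) (φ i)) ∧ ∃ i, ¬ Kl (mx A ^ j) (φ i)

variable (Γ) in
/-- the order of a congruence subgroup -/
noncomputable def Gc (j : ℕ) : ℕ := {γ : Γ | Cg (mx A ^ j) γ.1}.ncard

/-- the function that is averaged -/
noncomputable def Ps (κ : Finset (Fin d) → A →+ Rg p M) (h : Finset (Fin d) → Γ) (c : A) :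
    Rg p M := ∑ ω, κ ω (Pf (h ω).1 c)

variable (B₀ : Set B)

/-- a translation changes the function by a constant -/
def Shift (V : Finset (Fin d) → Lt B U → Γ) (κ : Finset (Fin d) → A →+ Rg p M) : Prop :=
  ∀ x c, ND L x c → ∃ z ∈ Nc B₀ U, ∃ k : Rg p M, ZMod.stdAddChar k ≠ 1 ∧
    ∀ h : Finset (Fin d) → Γ, (∀ ω, rs R (h ω).1 = x) → ∀ c', R.rd c' = c →
      Ps κ (piV V z * h) c' = Ps κ h c' + k

variable (Γ M) [∀ j, Fintype (U j)] (w : ∀ j, U j → ℝ) {Y : Type} [Fintype Y]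
  (y : (Σ j, U j) → Y → FreeGroup (Lt B U) × A)

/-- equidistribution of the random words -/
def EQ (η : ℝ) : Prop :=
  ∀ (t : Fin d) (V : Finset (Fin d) → Lt B U → Γ) (κ : Finset (Fin d) → A →+ Rg p M),
    (∀ ω b, rs R (V ω (.inl b)).1 = bb b) → (∀ ω x, rs R (V ω (.inr x)).1 = 1) →
    (∀ ω x, t ≤ x.1 → V ω (.inr x) = 1) → Shift R L B₀ V κ →
    ‖∑ u, w t u • 𝔼 a, ZMod.stdAddChar (Ps κ (piV V (y ⟨t, u⟩ a).1) (y ⟨t, u⟩ a).2)‖ ≤ η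

open Classical in
/-- random equations detect failure -/
def Cov {Λ 𝓡 E : Type} [Fintype 𝓡] (x : 𝓡 → E → FreeGroup Λ × ι × ι × A) : Prop :=
  ∀ V : Λ → Γ, (∃ ρ e, E0 V (x ρ e) ∉ mx A ^ 2) →
    2 * (univ.filter fun ρ => ∀ e, E0 V (x ρ e) ∈ mx A ^ 2).card ≤ Fintype.card 𝓡

end

/-- chain rings with uniformizer `s` and length `k` -/
def Ch {B : Type} [CommRing B] (s : B) (k : ℕ) : Prop :=
  (∀ x, IsUnit x ∨ s ∣ x) ∧ s ^ k = 0 ∧ s ^ (k - 1) ≠ 0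

/-- saturated subrings -/
structure Sat {R : Type} [CommRing R] (N L : ℕ) (B : Subring R) (T : B) : Prop where
  nil : T ^ (L + 1) = 0
  ne : T ^ L ≠ 0
  ann : ∀ x : R, (T : R) ^ L * x = 0 → (T : R) ∣ x
  sat : ∀ x : B, (T : R) ∣ x → T ∣ x
  card : Nat.card (B ⧸ span {T}) ≤ N

section
variable (p : ℕ) [Fact p.Prime]

/-- statements for all finite rings -/
def AllR (Q : ∀ (A : Type) [CommRing A] [Finite A], Rd p A → Prop) : Prop :=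
  ∀ (A : Type) [CommRing A] [Finite A] (R : Rd p A), Q A R

/-- statements for all groups -/
def AllA (Q : ∀ (_ : ℕ) (A : Type) [CommRing A] [Finite A] (_ : Rd p A) (ι : Type) [Fintype ι]
    [DecidableEq ι] (_ : Subgroup (GL ι A)) (_ : Submodule (ZMod p) (Matrix ι ι (ZMod p))),
    Prop) : Prop :=
  ∀ (M : ℕ) (A : Type) [CommRing A] [Finite A] (R : Rd p A), mx A ^ (M + 1) = ⊥ →
    ∀ (ι : Type) [Fintype ι] [DecidableEq ι] (Γ : Subgroup (GL ι A)) L,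
    LieA R Γ L → Q M A R ι Γ L

/-- linear forms -/
def RgStmt : Prop :=
  AllR p fun A _ _ R => (∀ x, x - ((R.rd x).val : A) ∈ mx A) ∧ (∀ x, IsUnit x ↔ R.rd x ≠ 0) ∧
    (∃ N, mx A ^ (N + 1) = ⊥) ∧ (∀ z, R.rd (R.io z) = PadicInt.toZMod z) ∧
    (∀ z, ∃ k : ℕ, R.io z = k) ∧ Nat.card A = p * Nat.card (mx A) ∧
    (∀ J l, Fn R J l → l 0 = 0 ∧ (∀ x ∈ J, ∀ y ∈ J, l (x - y) = l x - l y) ∧
      (∀ x ∈ mx A * J, l x = 0) ∧ ∃ J' : Ideal A, ∀ x, x ∈ J' ↔ x ∈ J ∧ l x = 0) ∧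
    (∀ (J N : Ideal A) x, mx A * J ≤ N → x ∈ J → x ∉ N →
      ∃ l, Fn R J l ∧ (∀ y ∈ J, y ∈ N → l y = 0) ∧ l x = 1) ∧
    (∀ J : Ideal A, ∃ (h : ℕ) (l : Fin h → A → ZMod p), (∀ k, Fn R J (l k)) ∧
      (∀ x ∈ J, (∀ k, l k x = 0) → x ∈ mx A * J) ∧
      Nat.card J = p ^ h * Nat.card ↥(mx A * J)) ∧
    (∀ J N : Ideal A, J ≤ N ⊔ mx A * J → J ≤ N) ∧
    ∀ (A' : Type) [CommRing A'] (R' : Rd p A') (f : A →+* A'),
      (∀ x, R'.rd (f x) = R.rd x) ∧ ∀ z, f (R.io z) = R'.io z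

/-- existence of the structure -/
def RdExStmt : Prop :=
  (∀ (A : Type) [CommRing A] [Nontrivial A], IsNilpotent (p : A) →
    (∀ x : A, ∃ k : ℤ, IsNilpotent (x - k)) → Nonempty (Rd p A)) ∧
  ∀ (A : Type) [CommRing A], Rd p A →
    (∀ (A' : Type) [CommRing A'] (f : A' →+* A), Function.Injective f → Nonempty (Rd p A')) ∧
    ∀ (A' : Type) [CommRing A'] [Nontrivial A'] (f : A →+* A'), Function.Surjective f →
      Nonempty (Rd p A') ∧ (mx A).map f = mx A'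

open Classical in
/-- additive characters -/
def ChrStmt : Prop :=
  AllR p fun A _ _ _ => ∀ M, mx A ^ (M + 1) = ⊥ → ∀ J : Ideal A,
    (∀ x ∉ J, ∃ φ : A →+ Rg p M, Kl J φ ∧ φ x ≠ 0) ∧
    Nat.card {φ : A →+ Rg p M // Kl J φ} * Nat.card J = Nat.card A ∧
    ∀ [Fintype (A →+ Rg p M)] (x : A), ∑ φ : A →+ Rg p M with Kl J φ, ZMod.stdAddChar (φ x) =
      if x ∈ J then (Nat.card {φ : A →+ Rg p M // Kl J φ} : ℂ) else 0

/-- orders of quotients -/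
def LenStmt : Prop :=
  (∀ (A : Type) [CommRing A] [Finite A] (t : A) (s : ℕ),
    Nat.card (A ⧸ span {t ^ s}) ≤ Nat.card (A ⧸ span {t}) ^ s) ∧
  (AllR p fun A _ _ _ => (∀ l, p ^ l < Nat.card A → p ^ l < Nat.card (A ⧸ mx A ^ (l + 1))) ∧
    (∀ l, ∀ t ∈ mx A, Nat.card (A ⧸ span {t}) ≤ p ^ l →
      Nat.card (mx A) ≤ p ^ l * Nat.card ↥(mx A ^ 2)) ∧
    (∀ t ∈ mx A, ∀ s, t ^ s ≠ 0 → p ^ (s + 1) ≤ Nat.card (A ⧸ span {t ^ (s + 1)})) ∧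
    ∀ k, (p : A) ^ k ≠ 0 → p ^ k ≤ Nat.card A) ∧
  ∀ k N, ∃ C, AllR p fun A _ _ _ => mx A ^ N = ⊥ → ∀ s : Set A, s.ncard ≤ k →
    Subring.closure s = ⊤ → Nat.card A ≤ C

/-- rules for congruences -/
def MatStmt : Prop :=
  AllR p fun A _ _ R => ∀ (ι : Type) [Fintype ι] [DecidableEq ι],
    (∀ γ : GL ι A, (rs R γ = 1 ↔ Cg (mx A) γ) ∧ (Cg ⊥ γ ↔ γ = 1)) ∧
    (∀ J (γ γ' h : GL ι A), Cg J γ → Cg J γ' →
      Cg J (γ * γ') ∧ Cg J γ⁻¹ ∧ Cg J (h * γ * h⁻¹) ∧ Cg J (1 : GL ι A)) ∧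
    (∀ J ≤ mx A, ∀ l, Fn R J l → ∀ γ γ' h : GL ι A, Cg J γ → Cg J γ' →
      ltm l (γ * γ') = ltm l γ + ltm l γ' ∧ ltm l γ⁻¹ = - ltm l γ ∧
      ltm l (h * γ * h⁻¹) = (rs R h).val * ltm l γ * (rs R h)⁻¹.val ∧
      ltm l (1 : GL ι A) = 0) ∧
    (∀ J (γ : GL ι A), Cg J γ → (Cg (mx A * J) γ ↔ ∀ l, Fn R J l → ltm l γ = 0)) ∧
    (∀ J a (γ : GL ι A) (Z : Matrix ι ι (ZMod p)), Pm J a γ Z ↔
      a ∈ J ∧ Cg J γ ∧ ∀ l, Fn R J l → ltm l γ = l a • Z) ∧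
    (∀ J ≤ mx A, ∀ a (γ γ' h : GL ι A) (Z Z' : Matrix ι ι (ZMod p)), Pm J a γ Z →
      (Pm J a γ' Z' → Pm J a (γ * γ') (Z + Z')) ∧ Pm J a γ⁻¹ (-Z) ∧
      Pm J a (h * γ * h⁻¹) ((rs R h).val * Z * (rs R h)⁻¹.val) ∧
      (Cg (mx A * J) γ' → Pm J a (γ' * γ) Z) ∧ (∀ J', J ≤ J' → Pm J' a γ Z) ∧
      Pm J a (1 : GL ι A) (0 : Matrix ι ι (ZMod p))) ∧
    (∀ J ≤ mx A, ∀ J' ≤ mx A, ∀ a a' (γ γ' : GL ι A) (Z Z' : Matrix ι ι (ZMod p)), Pm J a γ Z →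
      Pm J' a' γ' Z' → Pm (J * J') (a * a') (γ * γ' * γ⁻¹ * γ'⁻¹) (Z * Z' - Z' * Z)) ∧
    (∀ J (γ Y : GL ι A) i j, Cg J γ → (γ * Y).val i j - Y.val i j ∈ J ∧ ∀ l, Fn R J l →
      l ((γ * Y).val i j - Y.val i j) = (ltm l γ * (rs R Y).val) i j) ∧
    ∀ M (γ : GL ι A), mx A ^ (M + 1) = ⊥ → Cg (mx A) γ → γ ^ p ^ M = 1

/-- rules for the characteristic polynomial -/
def PfStmt : Prop :=
  (∀ (A : Type) [CommRing A] (ι : Type) [Fintype ι] [DecidableEq ι] (γ : GL ι A) (c : A),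
    (∀ h : GL ι A, Pf (h * γ * h⁻¹) c = Pf γ c) ∧ (∀ k : ℕ, Pf γ c ∣ Pf (γ ^ k) (c ^ k)) ∧
    ∀ (A' : Type) [CommRing A'] (f : A →+* A'),
      f (Pf γ c) = Pf (GeneralLinearGroup.map f γ) (f c)) ∧
  AllR p fun A _ _ R => ∀ (ι : Type) [Fintype ι] [DecidableEq ι],
    (∀ J ≤ mx A, ∀ (γ Y : GL ι A) c, (Cg J γ → Pf (γ * Y) c - Pf Y c ∈ J ∧ ∀ l, Fn R J l →
        l (Pf (γ * Y) c - Pf Y c) =
          (((rs R Y).val - R.rd c • 1).adjugate * ltm l γ * (rs R Y).val).trace) ∧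
      ∀ a (Z : Matrix ι ι (ZMod p)), Pm J a γ Z → Pf (γ * Y) c - Pf Y c - a *
        ((((rs R Y).val - R.rd c • 1).adjugate * Z * (rs R Y).val).trace.val : A) ∈ mx A * J) ∧
    ∀ L (γ : GL ι A) c, ND L (rs R γ) (R.rd c) → Pf γ c ∈ mx A ^ 2 →
      ∃ v : ι → ZMod p, v ≠ 0 ∧ (rs R γ).val *ᵥ v = R.rd c • v ∧
        ∀ (m : ℕ) l, Fn R (mx A) l → Cg (mx A) (γ ^ m) → c ^ m - 1 ∈ mx A →
          ltm l (γ ^ m) *ᵥ v = l (c ^ m - 1) • v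

/-- the derivative of the equations -/
def DerStmt : Prop :=
  AllR p fun A _ _ R => ∀ (ι : Type) [Fintype ι] [DecidableEq ι] (Γ : Subgroup (GL ι A))
    (B : Type) (d : ℕ) (U : Fin d → Type) (E : Type) (S : Sy A ι B U E) (q : ∀ j, U j) bb,
    ∃ D : (B ⊕ Fin d → Matrix ι ι (ZMod p)) →ₗ[ZMod p] (E ⊕ Fin d → ZMod p),
    ∀ W W' : B ⊕ Fin d → Γ, InT R bb W → ∀ J ≤ mx A, (∀ x, Cg J (qt W' W x)) →
      ∀ e, S.eqv q W' e - S.eqv q W e ∈ J ∧ ∀ l, Fn R J l →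
        l (S.eqv q W' e - S.eqv q W e) = D (fun x => ltm l (qt W' W x)) e

/-- alternating sums of values of words -/
def MobStmt : Prop :=
  ∀ (A : Type) [CommRing A] (ι : Type) [Fintype ι] [DecidableEq ι] (Γ : Subgroup (GL ι A))
    (Λ I : Type) [Fintype I] [DecidableEq I] (a : I → Ideal A) (V : Finset I → Λ → Γ),
    (∀ l, (∀ J J', V J l = V J' l) ∨ ∃ (i : I) (γ : Γ),
      Cg (a i) γ.1 ∧ ∀ J, V J l = if i ∈ J then γ else 1) →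
    (∀ x, ∑ J : Finset I, (-1) ^ J.card * E0 (V J) x ∈ ∏ i, a i) ∧
    ∀ w c, ∑ J : Finset I, (-1) ^ J.card * Pf (ev (V J) w) c ∈ ∏ i, a i

open Classical in
/-- low complexity of the equations -/
def LcStmt : Prop :=
  ∀ (A : Type) [CommRing A] (ι : Type) [Fintype ι] [DecidableEq ι] (Γ : Subgroup (GL ι A))
    (B : Type) (d : ℕ) (U : Fin d → Type) (E : Type) (S : Sy A ι B U E) (W : B ⊕ Fin d → Γ)
    (N : Type) [AddCommGroup N] (φ : A →+ N),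
    (∀ (T : Finset (Fin d)) (a : Fin d → Ideal A) (e : E ⊕ Fin d),
      (∀ i ∈ T, Cg (a i) (W (.inr i)).1) → Kl (∏ i ∈ T with e ≠ .inr i, a i) φ →
      LC T fun q => φ (S.eqv q W e)) ∧
    ∀ (T : Finset (Fin d)) (t : Fin d), (∀ i, Cg (mx A) (W (.inr i)).1) → t ∉ T →
      Kl (mx A ^ (T.card + 1)) φ →
      LC T fun q => φ (S.eqv q W (.inr t) - S.eqv q (mask T W) (.inr t))

open Classical in
/-- products of spanning elements -/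
def SpanStmt : Prop :=
  AllR p fun A _ _ R => ∀ (I : Type) (T : Finset I) (a : I → A) (k j : ℕ), j ≤ k →
    (∀ i ∈ T, a i ∈ mx A) → (∀ l, Fn R (mx A) l → (∃ x ∈ mx A, l x ≠ 0) →
      k ≤ (T.filter fun i => l (a i) ≠ 0).card) → ∀ (N : Type) [AddCommGroup N] (φ : A →+ N),
    Kl (mx A ^ (j + 1)) φ → ¬ Kl (mx A ^ j) φ → 1 ≤ j →
    ∃ T' ⊆ T, T'.card = j ∧ φ (∏ i ∈ T', a i) ≠ 0

/-- iterated commutators -/
def ShiftStmt : Prop :=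
  AllA p fun M A _ _ R ι _ _ Γ L => ∀ (B : Type) (B₀ : Set B) (bb : B → GL ι (ZMod p)),
    Irr L (bb '' B₀) → ∀ (d : ℕ) (U : Fin d → Type) (W : B ⊕ Fin d → Γ), InT R bb W →
    ∀ (T : Finset (Fin d)) (a : Fin d → A) (Z : Fin d → Matrix ι ι (ZMod p)), T.Nonempty →
    (∀ i ∈ T, Z i ∈ L ∧ Z i ≠ 0 ∧ Pm (mx A) (a i) (W (.inr i)).1 (Z i)) →
    ∀ φ : A →+ Rg p M, Kl (mx A ^ (T.card + 1)) φ → φ (∏ i ∈ T, a i) ≠ 0 →
    ∀ q₀ q₁ : ∀ j, U j, (∀ i ∈ T, q₀ i ≠ q₁ i) →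
    Shift R L B₀ (fun ω => place (ω.piecewise q₁ q₀) (mask T W)) fun ω =>
      if ω ⊆ T then (-1 : ℤ) ^ ω.card • φ else 0

/-- fibres of the leading terms -/
def FibStmt : Prop :=
  AllA p fun M A _ _ R ι _ _ Γ L => ∀ (B : Type) [Fintype B] (bb : B → GL ι (ZMod p)) (d : ℕ)
    (U : Fin d → Type) (E : Type) (S : Sy A ι B U E) (q : ∀ j, U j) (A₀ A₁ : Finset (Fin d)),
    (∀ W W' : B ⊕ Fin d → Γ, InT R bb W → (∀ x, Cg (mx A ^ 2) (qt W' W x)) →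
      dp A₁ W' = dp A₁ W ∧ (Gd R L S q bb M A₀ A₁ W → Gd R L S q bb M A₀ A₁ W')) ∧
    ∀ j, 1 ≤ j → ∀ W : B ⊕ Fin d → Γ, W ∈ Sol R Γ S q bb (mx A ^ 2) ∅ →
      Gd R L S q bb M A₀ A₁ W → ∀ h, Nat.card ↥(mx A ^ j) = p ^ h * Nat.card ↥(mx A ^ (j + 1)) →
      p ^ h * {W' | W' ∈ Sol R Γ S q bb (mx A ^ (j + 1)) (dp A₁ W) ∧
        ∀ x, Cg (mx A ^ j) (qt W' W x)}.ncard ≤
        (p ^ (dp A₁ W).card) ^ h * Gc Γ (j + 1) ^ (Fintype.card B + d)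

open Classical in
/-- the recursion -/
def RecStmt : Prop :=
  AllA p fun M A _ _ R ι _ _ Γ L => ∀ [Fintype Γ] [Fintype (A →+ Rg p M)] (B : Type) [Fintype B]
    (bb : B → GL ι (ZMod p)) (d : ℕ) (A₀ A₁ : Finset (Fin d)),
    (∀ h, Nat.card (mx A) ≤ p ^ h * Nat.card ↥(mx A ^ 2) →
      ∀ (U : Fin d → Type) (E : Type) (S : Sy A ι B U E) (q : ∀ j, U j),
      Nat.card (mx A) * (SolG R Γ L S q bb M A₀ A₁ 2).ncard ≤
        Gc Γ 2 ^ (Fintype.card B + d) * p ^ (A₁.card * h) * Nat.card ↥(mx A ^ 2)) ∧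
    ∀ j, 2 ≤ j → ∃ κ : (B ⊕ Fin d → Γ) → ℝ, (∀ W, 0 ≤ κ W ∧ κ W ≤ 1) ∧
      ∀ (U : Fin d → Type) (E : Type) (S : Sy A ι B U E) (q : ∀ j, U j),
      (Gc Γ j ^ (Fintype.card B + d) * (SolG R Γ L S q bb M A₀ A₁ (j + 1)).ncard : ℝ) ≤
        Nat.card ↥(mx A ^ (j + 1)) / Nat.card ↥(mx A ^ j) *
          (Gc Γ (j + 1) ^ (Fintype.card B + d) * (SolG R Γ L S q bb M A₀ A₁ j).ncard) +
        ∑ W : B ⊕ Fin d → Γ, ∑ W' : B ⊕ Fin d → Γ, ∑ φ : Fin d → A →+ Rg p M,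
          if (∀ x, Cg (mx A ^ j) (qt W' W x)) ∧ AdF j (dp A₁ W) φ then
            κ W * (Tm R L S q bb M A₀ A₁ j W W' φ).re else 0

open Classical in
/-- the error terms are small -/
def ErrStmt : Prop :=
  AllA p fun M A _ _ R ι _ _ Γ L => ∀ (B : Type) [Fintype B] (B₀ : Set B)
    (bb : B → GL ι (ZMod p)), Irr L (bb '' B₀) → ∀ (d : ℕ) (A₀ A₁ : Finset (Fin d)),
    (∀ i ∈ A₀, ∀ j ∈ A₁, i < j) → ∀ (E : Type) [Fintype E] (ε : ℝ), 0 < ε → ∃ η, 0 < η ∧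
    ∀ (U : Fin d → Type) [∀ j, Fintype (U j)] (w : ∀ j, U j → ℝ) (Y : Type) [Fintype Y]
      [Nonempty Y] (y : (Σ j, U j) → Y → FreeGroup (Lt B U) × A), Prob w →
      (∀ j u, w j u ≤ η) → EQ R Γ L bb M B₀ w y η →
      ∀ (x : E → FreeGroup (Lt B U) × ι × ι × A) (j : ℕ) (W W' : B ⊕ Fin d → Γ)
        (φ : Fin d → A →+ Rg p M), 2 ≤ j → j ≤ M → (∀ l, Cg (mx A ^ j) (qt W' W l)) →
        AdF j (dp A₁ W) φ → ‖𝔼 a : (Σ j, U j) → Y, Ex w fun q =>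
          Tm R L ⟨x, fun u => y u (a u)⟩ q bb M A₀ A₁ j W W' φ‖ ≤ ε

open Classical in
/-- the main estimate -/
def MultiStmt : Prop :=
  AllA p fun M A _ _ R ι _ _ Γ L => 1 ≤ M → ∀ h, Nat.card (mx A) ≤ p ^ h * Nat.card ↥(mx A ^ 2) →
    ∀ (B : Type) [Fintype B] (B₀ : Set B) (bb : B → GL ι (ZMod p)), Irr L (bb '' B₀) →
    ∀ (d : ℕ) (A₀ A₁ : Finset (Fin d)), (∀ i ∈ A₀, ∀ j ∈ A₁, i < j) →
    ∀ (E : Type) [Fintype E] (ε : ℝ), 0 < ε →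
    ∃ η, 0 < η ∧ ∀ (U : Fin d → Type) [∀ j, Fintype (U j)] (w : ∀ j, U j → ℝ) (Y 𝓡 : Type)
      [Fintype Y] [Nonempty Y] [Fintype 𝓡] [Nonempty 𝓡]
      (y : (Σ j, U j) → Y → FreeGroup (Lt B U) × A)
      (x : 𝓡 → E → FreeGroup (Lt B U) × ι × ι × A), Prob w → (∀ j u, w j u ≤ η) →
      EQ R Γ L bb M B₀ w y η → Cov Γ x → ∀ ν : (∀ j, U j) → ℝ,
      (∀ q (a : (Σ j, U j) → Y), ν q ≤ (SolG R Γ L
        ⟨fun z : 𝓡 × E => x z.1 z.2, fun u => y u (a u)⟩ q bb M A₀ A₁ (M + 1)).ncard) →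
      Ex w ν ≤ p ^ (A₁.card * h) / Nat.card (mx A) + ε

open Classical in
/-- few elements are highly divisible -/
def CaStmt : Prop :=
  ∀ l e, ∃ l', l ≤ l' ∧ AllR p fun A _ _ _ => ∀ t ∈ mx A, Nat.card (A ⧸ span {t}) ≤ p ^ l →
    ∀ (I : Type) [Fintype I] (u : I → A), (∀ i j, i ≠ j → t ^ e ∈ span {u i - u j}) →
    (univ.filter fun i => p ^ l' < Nat.card (A ⧸ span {u i})).card ≤ l

end

/-- a saturated subring at some scale -/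
def Chain1Stmt : Prop :=
  ∀ (N : ℕ) (c L : ℕ → ℕ), (∀ i, 2 * c i + L i + 2 ≤ c (i + 1)) →
    ∀ (R : Type) [CommRing R] [Finite R] [PreValuationRing R] (A : Type) [CommRing A]
    (f : A →+* R), Function.Injective f → ∀ t : A, IsNilpotent t →
    Nat.card (A ⧸ span {t}) ≤ N → t ^ (c N + 1) ≠ 0 →
    ∃ i < N, ∃ (R' : Type) (_ : CommRing R') (_ : Finite R') (_ : PreValuationRing R')
      (B : Subring R') (g : A →+* B), Sat N (L i) B (g t) ∧ ∀ x : B, ∃ a, g a = g t ^ c i * x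

/-- saturated subrings have chain rings as quotients -/
def Chain2Stmt : Prop :=
  ∀ (N L : ℕ) (R : Type) [CommRing R] [Finite R] [PreValuationRing R] (B : Subring R) (T : B),
    2 ≤ L → Sat N L B T → ∃ (B' : Type) (_ : CommRing B') (_ : Finite B') (g : B →+* B')
      (s : B') (e : ℕ), Function.Surjective g ∧ 1 ≤ e ∧ e ≤ N ∧ Associated (s ^ e) (g T) ∧
      Ch s (e * L) ∧ Nat.card (B' ⧸ span {s}) ≤ N

section
variable (p : ℕ) [Fact p.Prime]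

/-- chain rings are generated by one element -/
def MonoStmt : Prop :=
  ∀ (B : Type) [CommRing B] [Finite B] (s : B) (k : ℕ), 2 ≤ k → Ch s k → IsNilpotent (p : B) →
    ∃ f, 1 ≤ f ∧ (∀ j ≤ k, Nat.card (B ⧸ span {s ^ j}) = p ^ (f * j)) ∧
      ∃ F : ℤ[X], F.Monic ∧ F.natDegree = f ∧ (∀ i, 0 ≤ F.coeff i ∧ F.coeff i < p) ∧
      ∃ θ₀ : B, ∀ θ, s ^ 2 ∣ θ - θ₀ →
        Function.Surjective (Polynomial.aeval θ : ℤ[X] →ₐ[ℤ] B) ∧
        Associated (Polynomial.aeval θ F) s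

/-- the number of ideals -/
def IdcStmt : Prop :=
  ∀ (F : ℤ[X]) (k : ℕ), F.Monic →
    (∀ I : Ideal ℤ[X], F ^ k ∈ I → (p : ℤ[X]) ∈ I ⊔ span {F} →
      Finite (ℤ[X] ⧸ I) ∧ Nat.card (ℤ[X] ⧸ I) ≤ p ^ (F.natDegree * k)) ∧
    {I : Ideal ℤ[X] | F ^ k ∈ I ∧ (p : ℤ[X]) ∈ I ⊔ span {F} ∧
      Nat.card (ℤ[X] ⧸ I) = p ^ (F.natDegree * k)}.Finite ∧
    {I : Ideal ℤ[X] | F ^ k ∈ I ∧ (p : ℤ[X]) ∈ I ⊔ span {F} ∧
      Nat.card (ℤ[X] ⧸ I) = p ^ (F.natDegree * k)}.ncard ≤ p ^ (F.natDegree * k)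

/-- orders of bounded conductor in chain rings -/
def Fam0Stmt : Prop :=
  ∀ f k c : ℕ, 2 ≤ k → c ≤ k → ∃ (Ξ : Type) (_ : Fintype Ξ) (A : Ξ → Type)
    (_ : ∀ ξ, CommRing (A ξ)), (∀ ξ, Finite (A ξ) ∧ p ^ (f * (k - c)) ≤ Nat.card (A ξ)) ∧
    Fintype.card Ξ ≤ p ^ f * p ^ (f * k) * 2 ^ p ^ (f * c) ∧
    ∀ (B : Type) [CommRing B] [Finite B] (s : B), Ch s k → IsNilpotent (p : B) →
      Nat.card (B ⧸ span {s}) = p ^ f → ∀ A' : Subring B, (∀ x, s ^ c * x ∈ A') →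
      p ^ (f * (k - 2)) ≤ p ^ (f * c) * ∑ ξ, Nat.card (A' ≃+* A ξ)

/-- the family of test rings -/
def FamStmt : Prop :=
  ∀ (l : ℕ) (C ε : ℝ), 0 ≤ C → 0 < ε → ∃ M' M : ℕ, 1 ≤ M ∧ ∃ (Ξ : Type) (_ : Fintype Ξ)
    (A : Ξ → Type) (_ : ∀ ξ, CommRing (A ξ)) (_ : ∀ ξ, Finite (A ξ)) (_ : ∀ ξ, Rd p (A ξ))
    (ω : Ξ → ℝ), (∀ ξ, 0 ≤ ω ξ ∧ mx (A ξ) ^ (M + 1) = ⊥ ∧
      Nat.card (mx (A ξ)) ≤ p ^ l * Nat.card ↥(mx (A ξ) ^ 2)) ∧
    ∑ ξ, ω ξ * (C / Nat.card (mx (A ξ))) ≤ ε ∧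
    ∀ (R : Type) [CommRing R] [Finite R] [PreValuationRing R] (A₀ : Type) [CommRing A₀]
      (_ : Rd p A₀) (f : A₀ →+* R), Function.Injective f → p ^ M' ≤ Nat.card A₀ →
      ∀ t ∈ mx A₀, Nat.card (A₀ ⧸ span {t}) ≤ p ^ l →
      1 ≤ ∑ ξ, ω ξ * Nat.card {φ : A₀ →+* A ξ // Function.Surjective φ}

end

end Pool.Agent.MP_f68ac8_nt.Ze

end

section

/-! The error terms are small, over finite local rings. -/

namespace Pool.Agent.MP_f68ac8_nt.Ze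

open Zv Matrix Finset
open scoped BigOperators

section
variable {p M : ℕ} [Fact p.Prime] {A : Type} [CommRing A] {R : Rd p A} {ι : Type} [Fintype ι]
  [DecidableEq ι] {Γ : Subgroup (GL ι A)} {B : Type} {d : ℕ} {U : Fin d → Type} {E : Type}

theorem kl_mono_ZeErr {N : Type} [AddCommGroup N] {φ : A →+ N} {j k : ℕ} (h : j ≤ k)
    (hφ : Kl (mx A ^ j) φ) : Kl (mx A ^ k) φ :=
  fun x hx => hφ x (Ideal.pow_le_pow_right h hx)

omit [Fact p.Prime] in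
theorem lc_one_ZeErr (hL : LcStmt) (S : Sy A ι B U E) {W : B ⊕ Fin d → Γ}
    (hW : ∀ i, Cg (mx A) (W (.inr i)).1) {T : Finset (Fin d)} {t : Fin d} (ht : t ∉ T)
    (e : E ⊕ Fin d) {j : ℕ} (hT : j ≤ T.card) {φ : A →+ Rg p M} (hφ : Kl (mx A ^ j) φ) :
    LC (insert t T) fun q => φ (S.eqv q W e) := by
  classical
  refine (hL A ι Γ B d U E S W _ φ).1 (insert t T) (fun _ => mx A ^ 1) e
    (fun i _ => by rw [pow_one]; exact hW i) ?_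
  rw [prod_pow_eq_pow_sum]
  refine kl_mono_ZeErr ?_ hφ
  have h1 := card_le_ZaErr (insert t T) e
  rw [card_insert_of_notMem ht] at h1
  exact le_trans hT (Nat.le_of_succ_le_succ h1)

omit [Fact p.Prime] in
theorem lc_two_ZeErr (hL : LcStmt) (S : Sy A ι B U E) {W : B ⊕ Fin d → Γ}
    (hW : ∀ i, Cg (mx A) (W (.inr i)).1) {T : Finset (Fin d)} {t : Fin d} (ht : t ∉ T)
    (h2 : Cg (mx A ^ 2) (W (.inr t)).1) {e : E ⊕ Fin d} (he : e ≠ .inr t) {φ : A →+ Rg p M}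
    (hφ : Kl (mx A ^ (T.card + 1)) φ) : LC (insert t T) fun q => φ (S.eqv q W e) := by
  classical
  refine (hL A ι Γ B d U E S W _ φ).1 (insert t T) (fun i => mx A ^ (if i = t then 2 else 1)) e
    (fun i _ => ?_) ?_
  · by_cases hi : i = t
    · simp only [if_pos hi]
      rw [hi]
      exact h2
    · simp only [if_neg hi, pow_one]
      exact hW i
  · rw [prod_pow_eq_pow_sum]
    exact kl_mono_ZeErr (card_le2_ZaErr ht e he) hφ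

theorem sol_of_ZeErr [Finite A] (hC : ChrStmt p) (hA : mx A ^ (M + 1) = ⊥) (S : Sy A ι B U E)
    {q q' : ∀ j, U j} {bb : B → GL ι (ZMod p)} {W : B ⊕ Fin d → Γ} {J : Ideal A}
    {D : Finset (Fin d)} (h : InT R bb W → ∀ e, (∀ i ∈ D, e ≠ .inr i) → ∀ φ : A →+ Rg p M,
      Kl J φ → φ (S.eqv q W e) = φ (S.eqv q' W e)) (hW : W ∈ Sol R Γ S q bb J D) :
    W ∈ Sol R Γ S q' bb J D := by
  refine ⟨hW.1, fun e he => by_contra fun h0 => ?_⟩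
  obtain ⟨φ, h1, h2⟩ := (hC A R M hA J).1 _ h0
  exact h2 ((h hW.1 e he φ h1).symm.trans (h1 _ (hW.2 e he)))

variable (p M A Γ B d E) in
/-- the index set of the data -/
abbrev Ix_ZeErr : Type := (B ⊕ Fin d → Γ) × (E ⊕ Fin d) × (A →+ Rg p M)

theorem box_ZeErr [Finite A] (hC : ChrStmt p) (hM : MatStmt p) (hL : LcStmt) (hB : BoxStmt)
    (hA : mx A ^ (M + 1) = ⊥) [Fintype (Ix_ZeErr p M A Γ B d E)]
    [∀ j, Fintype (U j)] {w : ∀ j, U j → ℝ} (hw : Prob w) (S : Sy A ι B U E)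
    (L : Submodule (ZMod p) (Matrix ι ι (ZMod p))) {bb : B → GL ι (ZMod p)}
    (A₀ A₁ : Finset (Fin d)) {W W' : B ⊕ Fin d → Γ} (hW' : InT R bb W')
    (φ : Fin d → A →+ Rg p M) {T : Finset (Fin d)} {t : Fin d} (ht : t ∉ T)
    (htA : t ∈ dp A₁ W) (h2 : Cg (mx A ^ 2) (W' (.inr t)).1) (hT2 : 2 ≤ T.card)
    (hφ : ∀ i, Kl (mx A ^ (T.card + 1)) (φ i)) :
    ‖Ex w fun q => Tm R L S q bb M A₀ A₁ T.card W W' φ‖ ^ 2 ^ (T.card + 1) ≤
      (((p ^ (M + 1) : ℕ) : ℝ) ^ Fintype.card (Ix_ZeErr p M A Γ B d E)) ^ 2 ^ (T.card + 1) *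
        Bx ZMod.stdAddChar w T t fun q => φ t (S.eqv q (mask T W') (.inr t)) := by
  classical
  have hc : ∀ {V : B ⊕ Fin d → Γ}, InT R bb V → ∀ i, Cg (mx A) (V (.inr i)).1 :=
    fun h i => ((hM A R ι).1 _).1.1 (h.2 i)
  have key := hB (p ^ (M + 1)) d U w hw T t ht (Ix_ZeErr p M A Γ B d E)
    (fun z q => if LC (insert t T) fun q => z.2.2 (S.eqv q z.1 z.2.1) then
      z.2.2 (S.eqv q z.1 z.2.1) else 0)
    (fun q => ∑ i ∈ univ.erase t, φ i (S.eqv q W' (.inr i)) +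
      φ t (S.eqv q W' (.inr t) - S.eqv q (mask T W') (.inr t)))
    (fun q => φ t (S.eqv q (mask T W') (.inr t)))
    (fun q => W ∈ SolG R Γ L S q bb M A₀ A₁ T.card ∧ W' ∈ Sol R Γ S q bb (mx A ^ T.card) ∅ ∧
      W' ∈ Sol R Γ S q bb (mx A ^ (T.card + 1)) (dp A₁ W)) ?_ ?_ ?_
  · refine le_of_eq_of_le ?_ key
    congr 3
    funext q
    unfold Tm
    split_ifs
    · rw [← add_sum_erase _ _ (mem_univ t), map_sub, add_assoc, sub_add_cancel, add_comm (φ t _)]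
    · rfl
  · intro z
    by_cases hz : LC (insert t T) fun q => z.2.2 (S.eqv q z.1 z.2.1)
    · simp only [if_pos hz]
      exact hz
    · simp only [if_neg hz]
      exact lc_zero_ZaErr _
  · refine lc_add_ZaErr (lc_sum_ZaErr _ fun i hi => ?_) ?_
    · exact lc_two_ZeErr hL S (hc hW') ht h2
        (fun h => (mem_erase.1 hi).1 (Sum.inr_injective h)) (hφ i)
    · exact lc_insert_ZaErr ht ((hL A ι Γ B d U E S W' _ (φ t)).2 T t (hc hW') ht (hφ t))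
  · rintro q q' h ⟨⟨h1, h3, h3'⟩, h4, h5⟩
    have h' : ∀ (V : B ⊕ Fin d → Γ) e (ψ : A →+ Rg p M),
        (LC (insert t T) fun q => ψ (S.eqv q V e)) → ψ (S.eqv q V e) = ψ (S.eqv q' V e) :=
      fun V e ψ hz => by simpa only [if_pos hz] using h (V, e, ψ)
    have hs : ∀ D, Sol R Γ S q' bb (mx A ^ 2) D = Sol R Γ S q bb (mx A ^ 2) D := fun D =>
      Set.ext fun V => ⟨sol_of_ZeErr hC hA S fun h0 e _ ψ hψ =>
        (h' V e ψ (lc_one_ZeErr hL S (hc h0) ht e hT2 hψ)).symm,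
        sol_of_ZeErr hC hA S fun h0 e _ ψ hψ => h' V e ψ (lc_one_ZeErr hL S (hc h0) ht e hT2 hψ)⟩
    refine ⟨⟨?_, h3, fun l hl => ?_⟩, ?_, ?_⟩
    · exact sol_of_ZeErr hC hA S (fun h0 e _ ψ hψ =>
        h' W e ψ (lc_one_ZeErr hL S (hc h0) ht e le_rfl hψ)) h1
    · simpa only [Kd, hs] using h3' l hl
    · exact sol_of_ZeErr hC hA S (fun h0 e _ ψ hψ =>
        h' W' e ψ (lc_one_ZeErr hL S (hc h0) ht e le_rfl hψ)) h4
    · exact sol_of_ZeErr hC hA S (fun h0 e he ψ hψ =>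
        h' W' e ψ (lc_two_ZeErr hL S (hc h0) ht h2 (he t htA) hψ)) h5

theorem place_update_ZeErr (q : ∀ j, U j) (W : B ⊕ Fin d → Γ) {T : Finset (Fin d)} {t : Fin d}
    (ht : t ∉ T) (u : U t) :
    place (Function.update q t u) (mask T W) = place q (mask T W) := by
  funext l
  rcases l with b | ⟨i, v⟩
  · rfl
  · by_cases hi : i = t
    · subst hi
      simp [place, mask, ht]
    · simp only [place, Sum.elim_inr]
      rw [Function.update_of_ne hi]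

omit [Fact p.Prime] in
theorem alt_ZeErr (S : Sy A ι B U E) (W : B ⊕ Fin d → Γ) {T : Finset (Fin d)} {t : Fin d}
    (ht : t ∉ T) (φ : A →+ Rg p M) (q₀ q₁ : ∀ j, U j) (u : U t) :
    ∑ ω ∈ T.powerset, (-1) ^ ω.card *
        φ (S.eqv (Function.update (ω.piecewise q₁ q₀) t u) (mask T W) (.inr t)) =
      Ps (fun ω => if ω ⊆ T then (-1 : ℤ) ^ ω.card • φ else 0)
        (piV (fun ω : Finset (Fin d) => place (ω.piecewise q₁ q₀) (mask T W)) (S.y ⟨t, u⟩).1)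
        (S.y ⟨t, u⟩).2 := by
  unfold Ps
  simp only [DFunLike.ite_apply, AddMonoidHom.zero_apply]
  rw [← sum_filter]
  refine sum_congr (by ext ω; simp) fun ω _ => ?_
  simp only [Sy.eqv, Sum.elim_inr, place_update_ZeErr _ W ht, Function.update_self,
    piV_apply_ZaErr, ev, AddMonoidHom.zsmul_apply, zsmul_eq_mul, Int.cast_pow, Int.cast_neg,
    Int.cast_one]

theorem bx_ZeErr [Finite A] (hO : MomStmt) (hS : ShiftStmt p) (hA : mx A ^ (M + 1) = ⊥)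
    {L : Submodule (ZMod p) (Matrix ι ι (ZMod p))} (hLie : LieA R Γ L) {B₀ : Set B}
    {bb : B → GL ι (ZMod p)} (hI : Irr L (bb '' B₀)) [∀ j, Fintype (U j)] {w : ∀ j, U j → ℝ}
    {Y : Type} [Fintype Y] [Nonempty Y] [Fintype ((Σ j, U j) → Y)]
    (y : (Σ j, U j) → Y → FreeGroup (Lt B U) × A) {η : ℝ} (hw : Prob w)
    (hη : ∀ j u, w j u ≤ η) (hη0 : 0 ≤ η) (hE : EQ R Γ L bb M B₀ w y η)
    (x : E → FreeGroup (Lt B U) × ι × ι × A) {W : B ⊕ Fin d → Γ} (hW : InT R bb W)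
    {T : Finset (Fin d)} {t : Fin d} (hlt : ∀ i ∈ T, i < t) (hT0 : T.Nonempty) {a : Fin d → A}
    {Z : Fin d → Matrix ι ι (ZMod p)}
    (hZ : ∀ i ∈ T, Z i ∈ L ∧ Z i ≠ 0 ∧ Pm (mx A) (a i) (W (.inr i)).1 (Z i)) {φ : A →+ Rg p M}
    (hφ : Kl (mx A ^ (T.card + 1)) φ) (hm : φ (∏ i ∈ T, a i) ≠ 0) :
    𝔼 a : (Σ j, U j) → Y, Bx ZMod.stdAddChar w T t (fun q =>
        φ (Sy.eqv ⟨x, fun u => y u (a u)⟩ q (mask T W) (.inr t)))
      ≤ η ^ 2 + η + T.card * η := by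
  have ht : t ∉ T := fun h => lt_irrefl _ (hlt t h)
  unfold Bx
  simp only [expect_Ex_ZaErr, alt_ZeErr _ W ht]
  have hn : ∀ z : Rg p M, ‖(ZMod.stdAddChar z : ℂ)‖ = 1 := fun z => AddChar.norm_apply _ z
  refine hO.2 d U w η (η ^ 2 + η) hw hη (by positivity) T _ (fun q₀ q₁ => ?_) fun q₀ q₁ hq => ?_
  · refine le_trans (expect_le univ_nonempty fun a _ => ?_)
      (le_add_of_nonneg_right (by positivity))
    refine pow_le_one₀ (norm_nonneg _) ((norm_sum_le _ _).trans (le_of_eq ?_))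
    rw [← hw.2 t]
    refine sum_congr rfl fun u _ => ?_
    rw [norm_smul, hn, mul_one, Real.norm_of_nonneg (hw.1 t u)]
  · have h1 := mom_ZaErr hO (fun u : U t => (⟨t, u⟩ : Σ j, U j)) (w t) η
      (fun u b => ZMod.stdAddChar (Ps
        (fun ω => if ω ⊆ T then (-1 : ℤ) ^ ω.card • φ else 0)
        (piV (fun ω : Finset (Fin d) => place (ω.piecewise q₁ q₀) (mask T W)) (y ⟨t, u⟩ b).1)
        (y ⟨t, u⟩ b).2)) sigma_mk_injective (hw.1 t) (hw.2 t) (hη t) fun u b => (hn _).le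
    have h2 := hE t (fun ω : Finset (Fin d) => place (ω.piecewise q₁ q₀) (mask T W)) _
      (fun ω b => hW.1 b) (fun ω z => ?_) (fun ω z hz => ?_)
      (hS M A R hA ι Γ L hLie B B₀ bb hI d U W hW T a Z hT0 hZ φ hφ hm q₀ q₁ hq)
    · exact h1.trans (add_le_add_left (pow_le_pow_left₀ (norm_nonneg _) h2 2) η)
    · simp only [place, mask, Sum.elim_inr]
      split_ifs
      · exact hW.2 _
      · exact map_one _
      · exact map_one _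
    · have h3 : z.1 ∉ T := fun h => absurd (hlt _ h) (not_lt.2 hz)
      simp only [place, mask, Sum.elim_inr, if_neg h3, ite_self]

end

theorem err_stmt (p : ℕ) [Fact p.Prime] (hR : RgStmt p) (hC : ChrStmt p) (hM : MatStmt p)
    (hL : LcStmt) (hB : BoxStmt) (hO : MomStmt) (hN : SpanStmt p) (hS : ShiftStmt p) :
    ErrStmt p := by
  classical
  intro M A _ _ R hA ι _ _ Γ L hLie B _ B₀ bb hI d A₀ A₁ hlt0 E _ ε hε
  have hp : 1 ≤ p := (Fact.out : p.Prime).one_le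
  have : Finite (A →+ Rg p M) := DFunLike.finite _
  have := Fintype.ofFinite (Ix_ZeErr p M A Γ B d E)
  have hC1 : (1 : ℝ) ≤ ((p ^ (M + 1) : ℕ) : ℝ) ^ Fintype.card (Ix_ZeErr p M A Γ B d E) :=
    one_le_pow₀ (by exact_mod_cast Nat.one_le_pow _ _ hp)
  obtain ⟨η, hη0, hη⟩ := eta_ZaErr M hC1 hε
  refine ⟨η, hη0, ?_⟩
  intro U _ w Y _ _ y hw hwη hE x j W W' φ hj hjM hWW ⟨hφ0, hφ1, t, ht⟩
  by_cases h0 : InT R bb W ∧ InT R bb W' ∧ Spn R L M A₀ W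
  swap
  · have h1 : ∀ (S : Sy A ι B U E) q, Tm R L S q bb M A₀ A₁ j W W' φ = 0 := by
      intro S q
      unfold Tm
      exact if_neg fun h => h0 ⟨h.1.1.1, h.2.1.1, h.1.2.1⟩
    simp [h1, Ex, hε.le]
  obtain ⟨-, hW', a, Z, hZ, hsp⟩ := h0
  obtain ⟨T, hTA, rfl, hm⟩ := hN A R (Fin d) A₀ a M j hjM (fun i hi => (hZ i hi).2.2.1) hsp _
    (φ t) (hφ1 t) ht (by omega)
  have htA : t ∈ dp A₁ W := by_contra fun h => ht fun z _ => by rw [hφ0 t h]; rfl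
  have hlt : ∀ i ∈ T, i < t := fun i hi => hlt0 i (hTA hi) t (mem_filter.1 htA).1
  have htT : t ∉ T := fun h => lt_irrefl _ (hlt t h)
  have hq : ∀ l, (W' l).1 = qt W' W l * (W l).1 := fun l => (inv_mul_cancel_right _ _).symm
  have h2 : ∀ l, Cg (mx A ^ 2) (qt W' W l) := fun l i k =>
    Ideal.pow_le_pow_right hj (hWW l i k)
  have h3 : Cg (mx A ^ 2) (W' (.inr t)).1 := by
    rw [hq]
    exact ((hM A R ι).2.1 _ _ _ 1 (h2 _) (mem_filter.1 htA).2).1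
  have hZ' : ∀ i ∈ T, Z i ∈ L ∧ Z i ≠ 0 ∧ Pm (mx A) (a i) (W' (.inr i)).1 (Z i) := fun i hi => by
    obtain ⟨k1, k2, k3⟩ := hZ i (hTA hi)
    refine ⟨k1, k2, ?_⟩
    rw [hq]
    exact ((hM A R ι).2.2.2.2.2.1 _ le_rfl _ _ _ 1 _ 0 k3).2.2.2.1 (by rw [← sq]; exact h2 _)
  refine (pow_le_pow_iff_left₀ (norm_nonneg _) hε.le
    (pow_pos two_pos (T.card + 1)).ne').1 ((jensen_ZaErr _ _).trans ?_)
  refine (expect_le_expect fun a _ => box_ZeErr hC hM hL hB hA hw _ L A₀ A₁ hW' φ htT htA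
    h3 hj hφ1).trans ?_
  rw [← mul_expect]
  refine le_trans (mul_le_mul_of_nonneg_left ?_ (by positivity)) (hη T.card hjM)
  exact bx_ZeErr hO hS hA hLie hI y hw hwη hη0.le hE x hW' hlt (card_pos.1 (by omega)) hZ'
    (hφ1 t) hm

end Pool.Agent.MP_f68ac8_nt.Ze

end
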