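import Mathlib
import Pool.Agent.MP_d64882_nt.Frob

set_option linter.all false

section

namespace Pool.Agent.MP_f68ac8_nt

open Filter Topology

end Pool.Agent.MP_f68ac8_nt

end

section

/-! Weighted Frobenius density theorem and lower means. -/

namespace Pool.Agent.MP_f68ac8_nt

open MulAction Subgroup Function NumberField Ideal Filter Topology Asymptotics
open Pool.Agent.MP_d64882_nt

lemma dens_sum {ι : Type*} (s : Finset ι) {a : ι → ℕ → ℝ} {d : ι → ℝ}
    (h : ∀ i ∈ s, Dens (a i) (d i)) : Dens (fun n => ∑ i ∈ s, a i n) (∑ i ∈ s, d i) := by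
  classical
  induction s using Finset.induction_on with
  | empty => simpa using dens_finite (a := fun _ => 0) ∅ fun _ _ => rfl
  | insert i s hi ih =>
    simp only [Finset.sum_insert hi]
    exact (h i (Finset.mem_insert_self _ _)).add (ih fun j hj => h j (Finset.mem_insert_of_mem hj))

open Classical in
theorem frob_dens {M : Type*} [Field M] [NumberField M] [IsGalois ℚ M]
    (Q : ∀ p : ℕ, p.Prime → Ideal (𝓞 M))
    (hQ : ∀ (p : ℕ) hp, Q p hp ∈ (span {(p : ℤ)}).primesOver (𝓞 M))
    (σ : ∀ p : ℕ, p.Prime → M ≃ₐ[ℚ] M) (hσ : ∀ p hp, IsArithFrobAt ℤ (σ p hp) (Q p hp))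
    (w : (M ≃ₐ[ℚ] M) → ℝ) (hw : ∀ x y, zpowers x = zpowers y → w x = w y) :
    Dens (fun p => if h : p.Prime then ∑ g, w (g⁻¹ * σ p h * g) else 0) (∑ x, w x) := by
  let c : (M ≃ₐ[ℚ] M) → ℕ → ℝ := fun x p =>
    if h : p.Prime then Nat.card {g // g⁻¹ * σ p h * g = x} else 0
  let R : Finset (M ≃ₐ[ℚ] M) → Prop := fun A => Dens (fun p => ∑ x ∈ A, c x p) A.card
  have Rsub : ∀ A B, B ⊆ A → R A → R B → R (A \ B) := by
    intro A B h hA hB
    have := hA.sub hB
    simp only [R]
    rw [Finset.card_sdiff_of_subset h, Nat.cast_sub (Finset.card_le_card h)]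
    simpa only [Finset.sum_sdiff_eq_sub h] using this
  have Radd : ∀ A B, B ⊆ A → R (A \ B) → R B → R A := by
    intro A B h hA hB
    have := hA.add hB
    simp only [R]
    rw [← Finset.card_sdiff_add_card_eq_card h, Nat.cast_add]
    simpa only [Finset.sum_sdiff h] using this
  have RH : ∀ H : Subgroup (M ≃ₐ[ℚ] M), R (Finset.univ.filter (· ∈ H)) := by
    intro H
    let E := IntermediateField.fixedField H
    let τ₀ : Emb E M := Emb.mk (algebraMap E M)
    have hst : stabilizer (M ≃ₐ[ℚ] M) τ₀ = H := by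
      rw [← IntermediateField.fixingSubgroup_fixedField H]
      ext g
      rw [mem_stabilizer_iff, IntermediateField.mem_fixingSubgroup_iff]
      exact ⟨fun h x hx => congrArg (fun τ : Emb E M => τ.hom ⟨x, hx⟩) h,
        fun h => Emb.ext fun x => h x.1 x.2⟩
    have h1 := ((dens_cnt E).mul (Nat.card H)).congr (discr E).natAbs.divisors
      (b := fun p => ∑ x ∈ Finset.univ.filter (· ∈ H), c x p) (by
        intro p hp
        by_cases hp' : p.Prime
        · simp only [c, hp', if_true, dif_pos]
          have h2 := orbData_frob p hp' (Q p hp') (hQ p hp') (σ p hp') (hσ p hp') τ₀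
            (unram_of_not_mem E p hp' hp)
          rw [← cnt_prime E p hp', ← h2.card_fixed, ← hst, ← Nat.cast_mul, mul_comm,
            ← card_smul_base τ₀ (Emb.exists_smul τ₀), ← Nat.cast_sum]
          congr 1
          simp only [natCard_eq_filter]
          rw [Finset.card_eq_sum_card_fiberwise (f := fun g => g⁻¹ * σ p hp' * g)
            (t := Finset.univ.filter (· ∈ stabilizer (M ≃ₐ[ℚ] M) τ₀))]
          · refine Finset.sum_congr rfl fun x hx => ?_
            congr 1
            ext g
            simp only [Finset.mem_filter, Finset.mem_univ, true_and, and_iff_right_iff_imp]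
            rintro rfl
            have := (Finset.mem_filter.1 hx).2
            rwa [mem_stabilizer_iff, mul_smul, mul_smul, inv_smul_eq_iff] at this
          · intro g hg
            have := (Finset.mem_filter.1 hg).2
            refine Finset.mem_filter.2 ⟨Finset.mem_univ _, ?_⟩
            rwa [mem_stabilizer_iff, mul_smul, mul_smul, inv_smul_eq_iff]
        · simp [c, hp'])
    rw [mul_one] at h1
    have h3 : (Finset.univ.filter (· ∈ H)).card = Nat.card H := (natCard_eq_filter _).symm
    simp only [R]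
    rw [h3]
    exact h1
  let Gen : (M ≃ₐ[ℚ] M) → Finset (M ≃ₐ[ℚ] M) := fun x =>
    Finset.univ.filter fun y => zpowers y = zpowers x
  have Rcl : ∀ A : Finset (M ≃ₐ[ℚ] M), (∀ x ∈ A, Gen x ⊆ A ∧ R (Gen x)) → R A := by
    intro A
    induction A using Finset.strongInduction with
    | H A ih =>
      intro hA
      rcases A.eq_empty_or_nonempty with rfl | ⟨x, hx⟩
      · simpa [R] using dens_finite (a := fun _ => 0) ∅ fun _ _ => rfl
      · refine Radd A (Gen x) (hA x hx).1 (ih _ ?_ fun y hy => ?_) (hA x hx).2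
        · exact Finset.sdiff_ssubset (hA x hx).1 ⟨x, by simp [Gen]⟩
        · obtain ⟨h1, h2⟩ := Finset.mem_sdiff.1 hy
          refine ⟨fun z hz => Finset.mem_sdiff.2 ⟨(hA y h1).1 hz, fun h3 => h2 ?_⟩, (hA y h1).2⟩
          simp only [Gen, Finset.mem_filter, Finset.mem_univ, true_and] at hz h3 ⊢
          rw [← hz, h3]
  have RGen : ∀ n, ∀ x : M ≃ₐ[ℚ] M, Nat.card (zpowers x) = n → R (Gen x) := by
    intro n
    induction n using Nat.strong_induction_on with
    | _ n ih =>
      rintro x rfl
      have h1 : Gen x ⊆ Finset.univ.filter (· ∈ zpowers x) := by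
        intro y hy
        simp only [Gen, Finset.mem_filter, Finset.mem_univ, true_and] at hy ⊢
        rw [← hy]; exact mem_zpowers y
      have h2 := Rsub _ _ Finset.sdiff_subset (RH (zpowers x))
        (Rcl (Finset.univ.filter (· ∈ zpowers x) \ Gen x) fun y hy => ?_)
      · rwa [Finset.sdiff_sdiff_eq_self h1] at h2
      · simp only [Gen, Finset.mem_sdiff, Finset.mem_filter, Finset.mem_univ, true_and] at hy
        refine ⟨fun z hz => ?_, ih _ ?_ y rfl⟩
        · simp only [Gen, Finset.mem_sdiff, Finset.mem_filter, Finset.mem_univ, true_and] at hz ⊢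
          refine ⟨zpowers_le_of_mem hy.1 (hz ▸ mem_zpowers z), by rw [hz]; exact hy.2⟩
        · have h3 : zpowers y ≤ zpowers x := zpowers_le_of_mem hy.1
          refine lt_of_le_of_ne (Subgroup.card_le_of_le h3) fun h4 => hy.2 ?_
          exact Subgroup.eq_of_le_of_card_ge h3 h4.ge
  have hG : ∀ x, ((Gen x).card : ℝ) ≠ 0 := fun x =>
    Nat.cast_ne_zero.mpr (Finset.card_pos.2 ⟨x, by simp [Gen]⟩).ne'
  have h1 := dens_sum Finset.univ fun x _ => (RGen _ x rfl).mul (w x / (Gen x).card)
  simp only [div_mul_cancel₀ _ (hG _)] at h1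
  convert h1 using 2 with p
  have h2 : ∑ x, w x / (Gen x).card * ∑ y ∈ Gen x, c y p = ∑ y, w y * c y p := by
    simp only [Finset.mul_sum]
    rw [Finset.sum_comm' (t' := Finset.univ) (s' := Gen) (by simp [Gen, eq_comm])]
    refine Finset.sum_congr rfl fun y _ => ?_
    rw [Finset.sum_congr rfl (g := fun _ => w y / (Gen y).card * c y p) fun x hx => ?_,
      Finset.sum_const, nsmul_eq_mul, ← mul_assoc, mul_div_cancel₀ _ (hG _)]
    have h3 : zpowers x = zpowers y := (Finset.mem_filter.1 hx).2
    simp only [Gen, hw x y h3, h3]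
  rw [h2]
  split_ifs with hp
  · simp only [c, hp, dif_pos, natCard_eq_filter]
    rw [← Finset.sum_fiberwise (g := fun g => g⁻¹ * σ p hp * g)]
    refine Finset.sum_congr rfl fun y _ => ?_
    rw [Finset.sum_congr rfl (g := fun _ => w y) fun g hg => by rw [(Finset.mem_filter.1 hg).2],
      Finset.sum_const, nsmul_eq_mul, mul_comm]
  · simp [c, hp]

lemma dens_tendsto {a : ℕ → ℝ} {α : ℝ} (h : Dens a α) :
    Tendsto (fun s : ℝ => (∑' n, a n * (n : ℝ) ^ (-s)) / -Real.log (s - 1)) (𝓝[>] 1) (𝓝 α) := by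
  have h2 : Tendsto (fun s : ℝ => Real.log (s - 1)) (𝓝[>] 1) atBot := by
    refine Real.tendsto_log_nhdsGT_zero.comp ?_
    refine tendsto_nhdsWithin_iff.2 ⟨?_, ?_⟩
    · have : Tendsto (fun s : ℝ => s - 1) (𝓝 1) (𝓝 (1 - 1)) := tendsto_id.sub_const 1
      simpa using this.mono_left nhdsWithin_le_nhds
    · filter_upwards [self_mem_nhdsWithin] with s hs
      exact sub_pos.2 (show 1 < s from hs)
  have h3 : (fun _ : ℝ => (1 : ℝ)) =o[𝓝[>] 1] fun s => -Real.log (s - 1) :=
    (isLittleO_const_left.mpr (Or.inr (tendsto_abs_atBot_atTop.comp h2))).neg_right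
  have h4 := (h.2.trans_isLittleO h3).tendsto_div_nhds_zero.add_const α
  rw [zero_add] at h4
  refine h4.congr' ?_
  filter_upwards [h2.eventually (eventually_lt_atBot 0)] with s hs
  have := hs.ne
  field_simp
  ring

variable {p : ℕ} {f : ℕ → ℝ}

end Pool.Agent.MP_f68ac8_nt

end
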