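import Mathlib
import Pool.Agent.MP_f68ac8_nt.ZkDefs
import Pool.Agent.MP_f68ac8_nt.NaAux
import Pool.Agent.MP_f68ac8_nt.Defs
import Pool.Agent.MP_f68ac8_nt.Gal
import Pool.Agent.Mg.Fe23604m.Gdbd831
import Pool.Agent.Mg.Fe23604m.G81ce00
import Pool.Agent.Mg.Fe23604m.Gf1ba88
import Pool.Agent.Mg.Fe23604m.G926323
import Pool.Agent.MP_d64882_nt.Frob

set_option linter.all false

section

namespace Pool.Agent.MP_f68ac8_nt

open NumberField
open scoped commutatorElement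

variable (p : ℕ) [Fact p.Prime]

/-- every unramified representation of `H` with torsion free and powerful image is trivial -/
def UnifFM (H : Subgroup GQ) : Prop :=
  ∀ (n : ℕ) (ρ : H →ₜ* GL (Fin n) ℤ_[p]), (∀ g, IsOfFinOrder (ρ g) → ρ g = 1) →
    (∀ g h, ⁅ρ g, ρ h⁆ ∈ (Subgroup.closure (Set.range fun x => ρ x ^ p)).topologicalClosure) →
    (∀ (l : ℕ) (g : H), l.Prime → InertiaAt l g → ρ g = 1) → ∀ g, ρ g = 1

end Pool.Agent.MP_f68ac8_nt

end

section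

namespace Pool.Agent.MP_f68ac8_nt

open scoped commutatorElement

/-- every unramified representation of `H` with powerful pro-`2` image has finite image -/
def PowFM (H : Subgroup GQ) : Prop :=
  ∀ (n : ℕ) (ρ : H →ₜ* GL (Fin n) ℤ_[2]),
    (∀ g, ∃ k : ℕ, (ρ g ^ 2 ^ k).val.map PadicInt.toZMod = 1) →
    (∀ g h, ⁅ρ g, ρ h⁆ ∈ (Subgroup.closure (Set.range fun x => ρ x ^ 4)).topologicalClosure) →
    (∀ (l : ℕ) (g : H), l.Prime → InertiaAt l g → ρ g = 1) → (Set.range ρ).Finite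

/-- every unramified representation of `H` that is trivial modulo four is trivial -/
def FourFM (n : ℕ) (H : Subgroup GQ) : Prop :=
  ∀ ρ : H →ₜ* GL (Fin n) ℤ_[2], (∀ g, (ρ g).val.map (PadicInt.toZModPow 2) = 1) →
    (∀ (l : ℕ) (g : H), l.Prime → InertiaAt l g → ρ g = 1) → ∀ g, ρ g = 1

end Pool.Agent.MP_f68ac8_nt

end

section

/-! Equidistribution of Frobenius elements, uniformly in the field, and exceptional zeros. -/

namespace Pool.Agent.MP_f68ac8_nt.Nd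

open NumberField Finset Filter
open MP_d64882_nt (cnt)
open scoped Topology BigOperators

/-- the algebraic numbers -/
abbrev Qa : Type := AlgebraicClosure ℚ

instance instClosureA : IsAlgClosure ℚ Qa := AlgebraicClosure.instIsAlgClosure ℚ

/-- exponents prime to `e` -/
abbrev Exm (e : ℕ) : Type := {a : Fin e // Nat.Coprime a e}

/-- the permutation character -/
noncomputable def perm {G : Type} [Group G] (H : Subgroup G) (g : G) : ℕ :=
  Nat.card {x : G ⧸ H // g • x = x}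

/-- Frobenius elements at `l` -/
def Fr (l : ℕ) (σ : GQ) : Prop :=
  ∃ P : Ideal (𝓞 Qa), P.IsMaximal ∧ (l : 𝓞 Qa) ∈ P ∧ IsFrob l P σ

/-- the size of a set of primes -/
noncomputable def sz (R : Finset ℕ) : ℝ := 1 + ∑ l ∈ R, Real.log l

/-- subgroups that cut out `2`-extensions of degree at most `n` unramified outside `R` -/
structure Ad2 (n : ℕ) (R : Finset ℕ) (N : Subgroup GQ) : Prop where
  pri : ∀ l ∈ R, l.Prime
  nrm : N.Normal
  nhds : (N : Set GQ) ∈ 𝓝 1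
  idx : N.index ≠ 0 ∧ N.index ≤ n
  pg : ∀ g : GQ, ∃ k, g ^ 2 ^ k ∈ N
  unr : ∀ P : Ideal (𝓞 Qa), P.IsMaximal → (∀ l ∈ R, (l : 𝓞 Qa) ∉ P) → ∀ g ∈ P.inertia GQ, g ∈ N

/-- no subfield has an exceptional zero -/
def GoodN (N : Subgroup GQ) (ρ : ℝ) : Prop :=
  ∀ (E : IntermediateField ℚ Qa) [NumberField E], N ≤ E.fixingSubgroup → Good E ρ

/-- test functions -/
structure Tf {G : Type} [Group G] (N : Subgroup G) (e : ℕ) (φ : G → ℂ) : Prop where
  pos : 0 < e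
  pow : ∀ g : G, g ^ e ∈ N
  le : ∀ g, ‖φ g‖ ≤ 1
  inv : ∀ n ∈ N, ∀ g, φ (n * g) = φ g
  cls : ∀ s g, φ (s * g * s⁻¹) = φ g
  sh : ∃ (z : G) (ε : ℂ), ε ≠ 1 ∧ ∀ g, φ (z * g) = ε * φ g

/-- degrees and discriminants -/
def DiscStmt : Prop :=
  ∀ n : ℕ, ∃ C : ℝ, 1 ≤ C ∧ ∀ R N, Ad2 n R N →
    ∀ (E : IntermediateField ℚ Qa) [NumberField E], N ≤ E.fixingSubgroup →
      dE E ≤ n ∧ Real.log (Bd E) ≤ C * sz R

/-- primes of degree one -/
def CountStmt : Prop :=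
  ∀ n R N, Ad2 n R N →
    (∀ H, N ≤ H → ∃ (E : IntermediateField ℚ Qa) (_ : NumberField E), E.fixingSubgroup = H) ∧
    ∀ (E : IntermediateField ℚ Qa) [NumberField E], N ≤ E.fixingSubgroup →
      ∀ l : ℕ, l.Prime → l ∉ R → ∀ σ, Fr l σ → cnt E l = perm E.fixingSubgroup σ

/-- the induction theorem of Artin -/
def ArtinStmt : Prop :=
  ∀ n : ℕ, ∃ C : ℝ, 0 < C ∧ ∀ (G : Type) [Group G] (N : Subgroup G), N.Normal → N.index ≠ 0 →
    N.index ≤ n → ∀ (e : ℕ) (φ : G → ℂ), Tf N e φ →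
    ∃ (T : Finset (Subgroup G)) (c : Subgroup G → ℂ), (∀ H ∈ T, N ≤ H) ∧ ∑ H ∈ T, ‖c H‖ ≤ C ∧
      ∑ H ∈ T, c H = 0 ∧ ∀ g, 𝔼 a : Exm e, φ (g ^ (a.1 : ℕ)) = ∑ H ∈ T, c H * perm H g

/-- equidistribution of Frobenius elements -/
def ChebStmt : Prop :=
  ∀ n : ℕ, ∃ c : ℝ, 0 < c ∧ ∀ k : ℕ, ∃ C : ℝ, 0 < C ∧ ∀ R N, Ad2 n R N →
    ∀ M ρ h s τ η : ℝ, sz R ≤ M → 0 < ρ → ρ ≤ c / M → GoodN N ρ → 0 < h → C * h ≤ ρ → 1 < s →
      s ≤ 1 + h → |τ| ≤ c → ∀ (A : Finset ℕ) (σ : ℕ → GQ),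
      (∀ l ∈ A, l.Prime ∧ l ∉ R ∧ Fr l (σ l)) → ∑' l, wl s h k l ≤ ∑ l ∈ A, wl s h k l + η →
      ∀ (e : ℕ) (φ : GQ → ℂ), Tf N e φ →
      ‖∑ l ∈ A, (wl s h k l : ℝ) * tw τ l * 𝔼 a : Exm e, φ (σ l ^ (a.1 : ℕ))‖ ≤
        C * (M * (h / ρ) ^ (k + 1) + η)

/-- two small normal subgroups generate a small subgroup -/
def GrpStmt : Prop :=
  ∀ (G : Type) [Group G] (N : Subgroup G), N.Normal → N.index ≠ 0 → (∀ g : G, ∃ k, g ^ 2 ^ k ∈ N) →
    ∀ (σ : ℕ → G) (w : ℕ → ℝ) (θ : ℝ), (∀ i, 0 ≤ w i) → Summable w → θ < 1 / 5 →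
    (∀ H, N ≤ H → ∑' i, w i * perm H (σ i) ≤ θ ∨ |∑' i, w i * perm H (σ i) - 1| ≤ θ) →
    ∀ N₁ N₂ K₁ K₂ : Subgroup G, N₁.Normal → N₂.Normal → N ≤ N₁ → N ≤ N₂ → N₁ ⊔ N₂ = ⊤ →
      N₁ ≤ K₁ → N₂ ≤ K₂ → ∑' i, w i * perm K₁ (σ i) ≤ θ → ∑' i, w i * perm K₂ (σ i) ≤ θ →
      ∑' i, w i * perm ⊤ (σ i) ≤ θ

/-- fields of bounded discriminant -/
def ExcStmt : Prop :=
  ∀ B : ℝ, ∃ ρ : ℝ, 0 < ρ ∧ ∀ (E : IntermediateField ℚ Qa) [NumberField E],
    Real.log (Bd E) ≤ B → Good E ρ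

/-- the theorem of Landau and Page -/
def RepStmt : Prop :=
  ∀ n : ℕ, ∃ c : ℝ, 0 < c ∧ ∀ R₁ R₂ N₁ N₂, Ad2 n R₁ N₁ → Ad2 n R₂ N₂ → N₁ ⊔ N₂ = ⊤ →
    ∀ M ρ : ℝ, sz R₁ ≤ M → sz R₂ ≤ M → ρ ≤ c / M ^ 2 → GoodN N₁ ρ ∨ GoodN N₂ ρ

/-- the exceptional primes -/
def SelStmt : Prop :=
  (∀ n : ℕ, ∃ c : ℝ, 0 < c ∧ ∀ (M ρ : ℝ) (r : ℕ), ρ ≤ c / M ^ 2 → ∃ E₀ : Finset ℕ, E₀.card ≤ r ∧
    ∀ R N, Ad2 n R N → R.card ≤ r → sz R ≤ M → Disjoint R E₀ → GoodN N ρ) ∧
  ∃ c : ℝ, 0 < c ∧ ∀ p : ℕ, ∃ ρ₀ : ℝ, 0 < ρ₀ ∧ ∀ M ρ : ℝ, ρ ≤ c / M ^ 2 → ρ ≤ ρ₀ →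
    ∃ p₀ : ℕ, p ≤ p₀ ∧ ∀ R N, Ad2 2 R N → sz R ≤ M → p₀ ∉ R → GoodN N ρ

end Pool.Agent.MP_f68ac8_nt.Nd

end

section

namespace Pool.Agent.MP_f68ac8_nt.Nd

open NumberField Finset Filter
open MP_d64882_nt (cnt)
open scoped Topology BigOperators Pointwise

section
variable {L : Type} [Field L] [NumberField L]

theorem mem_diff_NbDisc (x : 𝓞 L) : x ∈ differentIdeal ℤ (𝓞 L) ↔
    ∀ y ∈ Submodule.traceDual ℤ ℚ (1 : Submodule (𝓞 L) L), ∃ b : 𝓞 L, (b : L) = (x : L) * y := by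
  have h1 : x ∈ differentIdeal ℤ (𝓞 L) ↔
      (x : L) ∈ IsLocalization.coeSubmodule L (differentIdeal ℤ (𝓞 L)) := by
    rw [IsLocalization.mem_coeSubmodule]
    constructor
    · exact fun h => ⟨x, h, rfl⟩
    · rintro ⟨y, hy, e⟩
      rwa [← RingOfIntegers.ext e]
  rw [h1, coeSubmodule_differentIdeal ℤ ℚ, Submodule.mem_div_iff_forall_mul_mem]
  simp only [Submodule.mem_one]

theorem smul_dual_NbDisc (σ : L ≃ₐ[ℚ] L) {y : L}
    (hy : y ∈ Submodule.traceDual ℤ ℚ (1 : Submodule (𝓞 L) L)) :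
    σ y ∈ Submodule.traceDual ℤ ℚ (1 : Submodule (𝓞 L) L) := by
  rw [Submodule.mem_traceDual] at hy ⊢
  intro a ha
  obtain ⟨b, rfl⟩ := Submodule.mem_one.mp ha
  have h1 := hy (algebraMap (𝓞 L) L (σ⁻¹ • b)) (Submodule.mem_one.mpr ⟨_, rfl⟩)
  rw [Algebra.traceForm_apply] at h1 ⊢
  rw [← Algebra.trace_eq_of_algEquiv σ, map_mul] at h1
  have h2 : σ (algebraMap (𝓞 L) L (σ⁻¹ • b)) = algebraMap (𝓞 L) L b :=
    σ.apply_symm_apply (b : L)
  rwa [h2] at h1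

theorem smul_diff_NbDisc (σ : L ≃ₐ[ℚ] L) {x : 𝓞 L} (hx : x ∈ differentIdeal ℤ (𝓞 L)) :
    σ • x ∈ differentIdeal ℤ (𝓞 L) := by
  rw [mem_diff_NbDisc] at hx ⊢
  intro y hy
  obtain ⟨b, hb⟩ := hx _ (smul_dual_NbDisc σ⁻¹ hy)
  refine ⟨σ • b, ?_⟩
  rw [coe_smul_int, coe_smul_int, hb, map_mul]
  congr 1
  exact σ.apply_symm_apply y

theorem dvd_of_pow_NbDisc {I J : Ideal (𝓞 L)} (hI : I ≠ ⊥)
    (h : ∀ Q : Ideal (𝓞 L), Q.IsMaximal → ∀ k : ℕ, Q ^ (k + 1) ∣ I → Q ^ (k + 1) ∣ J) : I ∣ J := by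
  rw [UniqueFactorizationMonoid.dvd_iff_emultiplicity_le hI]
  intro Q hQ
  rw [emultiplicity_le_emultiplicity_iff]
  intro k hk
  rcases k with _ | k
  · simp
  · exact h Q ((Ideal.isPrime_of_prime hQ).isMaximal hQ.ne_zero) k hk

theorem not_dvd_NbDisc {l n : ℕ} (hl : l.Prime) (hn : Module.finrank ℚ L ≤ n) :
    ¬ Ideal.span {((l ^ n : ℕ) : 𝓞 L)} ∣ differentIdeal ℤ (𝓞 L) := by
  refine not_dvd_differentIdeal_of_intTrace_not_mem ℤ (p := Ideal.span {((l ^ n : ℕ) : ℤ)}) _ ⊤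
    ?_ 1 Submodule.mem_top ?_
  · rw [Ideal.mul_top, Ideal.map_span, Set.image_singleton, map_natCast]
  · rw [Algebra.intTrace_eq_trace, ← map_one (algebraMap ℤ (𝓞 L)), Algebra.trace_algebraMap,
      RingOfIntegers.rank, Ideal.mem_span_singleton, nsmul_eq_mul, mul_one, Int.natCast_dvd_natCast]
    intro h
    have h1 := Nat.le_of_dvd Module.finrank_pos h
    have h2 : n < l ^ n := Nat.lt_pow_self hl.one_lt
    omega

theorem pow_dvd_NbDisc [IsGalois ℚ L] {l n k : ℕ} (hl : l.Prime) (hn : Module.finrank ℚ L ≤ n)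
    {Q : Ideal (𝓞 L)} [Q.IsMaximal] (hQ : (l : 𝓞 L) ∈ Q) (hk : Q ^ k ∣ differentIdeal ℤ (𝓞 L)) :
    Q ^ k ∣ Ideal.span {((l ^ n : ℕ) : 𝓞 L)} := by
  by_contra hc
  refine not_dvd_NbDisc hl hn (dvd_of_pow_NbDisc ?_ fun Q' hQ' j hj => ?_)
  · rw [Ne, Ideal.span_singleton_eq_bot]
    exact_mod_cast pow_ne_zero n hl.ne_zero
  rw [Ideal.dvd_span_singleton] at hj
  have h1 : (l : 𝓞 L) ∈ Q' := by
    have := Ideal.pow_le_self (Nat.succ_ne_zero j) hj
    rw [Nat.cast_pow] at this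
    exact hQ'.isPrime.mem_of_pow_mem n this
  have : Q.LiesOver (Ideal.span {(l : ℤ)}) := ⟨(under_int_eq hl hQ).symm⟩
  have : Q'.LiesOver (Ideal.span {(l : ℤ)}) := ⟨(under_int_eq hl h1).symm⟩
  obtain ⟨σ, rfl⟩ := Ideal.exists_smul_eq_of_isGaloisGroup (Ideal.span {(l : ℤ)}) Q Q'
    (L ≃ₐ[ℚ] L)
  rw [← smul_pow'] at hj ⊢
  rw [Ideal.mem_pointwise_smul_iff_inv_smul_mem] at hj
  have h2 : σ⁻¹ • ((l ^ n : ℕ) : 𝓞 L) = ((l ^ n : ℕ) : 𝓞 L) :=
    map_natCast (MulSemiringAction.toRingHom (L ≃ₐ[ℚ] L) (𝓞 L) σ⁻¹) _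
  rw [h2, ← Ideal.dvd_span_singleton] at hj
  have h3 : j + 1 ≤ k := by
    by_contra h4
    exact hc ((pow_dvd_pow Q (by omega)).trans hj)
  have h4 := Ideal.dvd_iff_le.mp ((pow_dvd_pow Q h3).trans hk)
  rw [Ideal.dvd_iff_le]
  intro x hx
  rw [Ideal.mem_pointwise_smul_iff_inv_smul_mem]
  exact h4 (smul_diff_NbDisc σ⁻¹ hx)

theorem discr_le_NbDisc [IsGalois ℚ L] {n : ℕ} (hn : Module.finrank ℚ L ≤ n) (R : Finset ℕ)
    (hR : ∀ l ∈ R, l.Prime)
    (hu : ∀ (Q : Ideal (𝓞 L)) [Q.IsMaximal], (∀ l ∈ R, (l : 𝓞 L) ∉ Q) →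
      Algebra.IsUnramifiedAt ℤ Q) :
    (discr L).natAbs ≤ (∏ l ∈ R, l) ^ (n * n) := by
  have h0 : 0 < ∏ l ∈ R, l := Finset.prod_pos fun l hl => (hR l hl).pos
  have h1 : differentIdeal ℤ (𝓞 L) ∣ Ideal.span {(((∏ l ∈ R, l) ^ n : ℕ) : 𝓞 L)} := by
    refine dvd_of_pow_NbDisc differentIdeal_ne_bot fun Q hQ k hk => ?_
    have h2 : ∃ l ∈ R, (l : 𝓞 L) ∈ Q := by
      by_contra h3
      push Not at h3
      exact not_dvd_differentIdeal_iff.mpr (hu Q h3)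
        ((dvd_pow_self Q (Nat.succ_ne_zero k)).trans hk)
    obtain ⟨l, hl, hlQ⟩ := h2
    refine (pow_dvd_NbDisc (hR l hl) hn hlQ hk).trans ?_
    rw [Ideal.dvd_iff_le, Ideal.span_singleton_le_span_singleton]
    exact Nat.cast_dvd_cast (pow_dvd_pow_of_dvd (Finset.dvd_prod_of_mem _ hl) n)
  have h2 := Ideal.absNorm_dvd_absNorm_of_le (Ideal.dvd_iff_le.mp h1)
  rw [absNorm_differentIdeal L, Ideal.absNorm_span_natCast, RingOfIntegers.rank, ← pow_mul] at h2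
  exact (Nat.le_of_dvd (pow_pos h0 _) h2).trans
    (Nat.pow_le_pow_right h0 (Nat.mul_le_mul_left n hn))

end

theorem disc_stmt : DiscStmt := by
  intro n
  refine ⟨1 + n * n, le_add_of_nonneg_right (by positivity), fun R N hA E _ hE => ?_⟩
  have := hA.nrm
  have hop : IsOpen (N : Set GQ) := N.isOpen_of_mem_nhds hA.nhds
  have hfix := InfiniteGalois.fixingSubgroup_fixedField ⟨N, N.isClosed_of_isOpen hop⟩
  set L := IntermediateField.fixedField N with hL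
  change L.fixingSubgroup = N at hfix
  obtain ⟨h1, h2⟩ := (InfiniteGalois.isOpen_and_normal_iff_finite_and_isGalois L).mp
    (by rw [hfix]; exact ⟨hop, hA.nrm⟩)
  have : FiniteDimensional ℚ L := h1
  have : IsGalois ℚ L := h2
  have : NumberField L := {}
  have hD : Module.finrank ℚ L ≤ n := by
    rw [IntermediateField.finrank_eq_fixingSubgroup_index, hfix]
    exact hA.idx.2
  have hEL : E ≤ L := (IntermediateField.le_iff_le N E).mpr hE
  refine ⟨(IntermediateField.finrank_le_of_le_right hEL).trans hD, ?_⟩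
  have h3 : (discr L).natAbs ≤ (∏ l ∈ R, l) ^ (n * n) := by
    refine discr_le_NbDisc hD R hA.pri fun Q hQ hQR => ?_
    rw [← Ideal.ramificationIdx_eq_one_iff,
      ← Ideal.ramificationIdxIn_eq_ramificationIdx (Q.under ℤ) Q (L ≃ₐ[ℚ] L),
      ← Ideal.card_inertia_eq_ramificationIdxIn (G := L ≃ₐ[ℚ] L) (Q.under ℤ) Q,
      Subgroup.card_eq_one, eq_bot_iff]
    intro g₀ h₀
    obtain ⟨P, hP, hPQ⟩ := Ideal.exists_maximal_ideal_liesOver_of_isIntegral (S := 𝓞 Qa) Q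
    rw [hPQ.over] at h₀
    obtain ⟨g, hg, rfl⟩ := lift_inertia L P h₀
    have := hA.unr P hP (fun l hl hlP => hQR l hl (by
      rw [hPQ.over, Ideal.mem_comap, map_natCast]
      exact hlP)) g hg
    rw [← hfix] at this
    rw [Subgroup.mem_bot, res_eq_one]
    intro x hx
    exact this ⟨x, hx⟩
  have h4 : (discr E).natAbs ≤ (discr L).natAbs := by
    let _ : Algebra E L := (IntermediateField.inclusion hEL).toRingHom.toAlgebra
    exact Nat.le_of_dvd (Int.natAbs_pos.mpr (discr_ne_zero L))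
      (Int.natAbs_dvd_natAbs.mpr (discr_dvd_discr E L))
  have h5 : |(discr E : ℝ)| ≤ (∏ l ∈ R, (l : ℝ)) ^ (n * n) := by
    rw [← Int.cast_abs, ← Nat.cast_natAbs]
    rw [← Nat.cast_prod, ← Nat.cast_pow, Nat.cast_le]
    exact h4.trans h3
  have h6 : (0 : ℝ) < |(discr E : ℝ)| := abs_pos.mpr (by exact_mod_cast discr_ne_zero E)
  have h7 := Real.log_le_log h6 h5
  rw [Real.log_pow, Real.log_prod fun l hl => by exact_mod_cast (hA.pri l hl).ne_zero] at h7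
  have h8 : 0 ≤ ∑ l ∈ R, Real.log l := Finset.sum_nonneg fun l _ => Real.log_natCast_nonneg l
  have h9 : Real.log 2 ≤ 1 := by linarith [Real.log_le_sub_one_of_pos (zero_lt_two (α := ℝ))]
  unfold Bd sz
  rw [Real.log_mul two_ne_zero h6.ne']
  push_cast at h7
  have h10 : (0 : ℝ) ≤ n * n := by positivity
  nlinarith

end Pool.Agent.MP_f68ac8_nt.Nd

end

section

namespace Pool.Agent.MP_f68ac8_nt.Nd

open NumberField Finset Filter
open MP_d64882_nt (cnt)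
open scoped Topology BigOperators

lemma perm_eq_NbCount {G Γ Y : Type} [Group G] [Group Γ] [MulAction Γ Y] (f : G →* Γ)
    (hf : Function.Surjective f) (y₀ : Y) (ht : ∀ y, ∃ γ : Γ, γ • y₀ = y) (H : Subgroup G)
    (hH : ∀ g, g ∈ H ↔ f g • y₀ = y₀) (σ : G) :
    Nat.card {y : Y // f σ • y = y} = perm H σ := by
  have hrel : ∀ a b : G, (a : G ⧸ H) = b ↔ f a • y₀ = f b • y₀ := by
    intro a b
    rw [QuotientGroup.eq, hH, map_mul, map_inv, mul_smul, inv_smul_eq_iff, eq_comm]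
  let φ : G ⧸ H → Y := Quotient.lift (fun g => f g • y₀) fun a b h =>
    (hrel a b).mp (Quotient.sound h)
  have hφ : ∀ g : G, φ (g : G ⧸ H) = f g • y₀ := fun g => rfl
  have hinj : Function.Injective φ := by
    intro a b h
    obtain ⟨a, rfl⟩ := QuotientGroup.mk_surjective a
    obtain ⟨b, rfl⟩ := QuotientGroup.mk_surjective b
    exact (hrel a b).mpr h
  have hsur : Function.Surjective φ := by
    intro y
    obtain ⟨γ, rfl⟩ := ht y
    obtain ⟨g, rfl⟩ := hf γ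
    exact ⟨g, hφ g⟩
  have heq : ∀ x : G ⧸ H, φ (σ • x) = f σ • φ x := by
    intro x
    obtain ⟨a, rfl⟩ := QuotientGroup.mk_surjective x
    rw [MulAction.Quotient.smul_mk, smul_eq_mul, hφ, hφ, map_mul, mul_smul]
  unfold perm
  refine (Nat.card_congr ((Equiv.ofBijective φ ⟨hinj, hsur⟩).subtypeEquiv fun x => ?_)).symm
  rw [Equiv.ofBijective_apply, ← heq]
  exact hinj.eq_iff.symm

lemma not_dvd_NbCount {n : ℕ} {R : Finset ℕ} {N : Subgroup GQ} (h : Ad2 n R N)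
    (L : IntermediateField ℚ Qa) [NumberField L] [IsGalois ℚ L] (hfix : L.fixingSubgroup = N)
    {l : ℕ} (hl : l.Prime) (hR : l ∉ R) : ¬ (l : ℤ) ∣ discr L := by
  rw [not_dvd_discr_iff_forall_liesOver L (𝓞 L) (Nat.prime_iff_prime_int.1 hl)]
  intro Q hQ hQl
  rw [← Ideal.ramificationIdx_eq_one_iff,
    ← Ideal.ramificationIdxIn_eq_ramificationIdx (Q.under ℤ) Q (L ≃ₐ[ℚ] L),
    ← Ideal.card_inertia_eq_ramificationIdxIn (G := L ≃ₐ[ℚ] L) (Q.under ℤ) Q,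
    Subgroup.card_eq_one, eq_bot_iff]
  intro g₀ h₀
  obtain ⟨P, hP, hPQ⟩ := Ideal.exists_maximal_ideal_liesOver_of_isIntegral (S := 𝓞 Qa) Q
  have hlQ : (l : 𝓞 L) ∈ Q := by
    have : (l : ℤ) ∈ Q.under ℤ := by
      rw [← hQl.over]
      exact Ideal.mem_span_singleton_self _
    simpa using Ideal.mem_comap.mp this
  have hlP : (l : 𝓞 Qa) ∈ P := by
    rw [hPQ.over] at hlQ
    simpa using Ideal.mem_comap.mp hlQ
  rw [hPQ.over] at h₀
  obtain ⟨g, hg, rfl⟩ := lift_inertia L P h₀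
  have := h.unr P hP (fun l' hl' => not_mem_of_coprime hlP
    ((Nat.coprime_primes hl (h.pri l' hl')).mpr fun e => hR (e ▸ hl'))) g hg
  rw [← hfix] at this
  rw [Subgroup.mem_bot, res_eq_one]
  intro x hx
  exact this ⟨x, hx⟩

theorem count_stmt : CountStmt := by
  intro n R N h
  have key : ∀ H : Subgroup GQ, N ≤ H →
      (IntermediateField.fixedField H).fixingSubgroup = H ∧ IsOpen (H : Set GQ) := by
    intro H hH
    have hop : IsOpen (H : Set GQ) :=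
      H.isOpen_of_mem_nhds (Filter.mem_of_superset h.nhds hH)
    exact ⟨InfiniteGalois.fixingSubgroup_fixedField ⟨H, H.isClosed_of_isOpen hop⟩, hop⟩
  refine ⟨fun H hH => ?_, ?_⟩
  · obtain ⟨h1, h2⟩ := key H hH
    haveI : FiniteDimensional ℚ (IntermediateField.fixedField H) :=
      (InfiniteGalois.isOpen_iff_finite _).mp (by rw [h1]; exact h2)
    exact ⟨IntermediateField.fixedField H, {}, h1⟩
  intro E _ hNE l hl hR σ hσ
  obtain ⟨P, hP, hlP, hF⟩ := hσ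
  obtain ⟨hfix, hop⟩ := key N le_rfl
  set L := IntermediateField.fixedField N with hL
  obtain ⟨h1, h2⟩ := (InfiniteGalois.isOpen_and_normal_iff_finite_and_isGalois L).mp
    (by rw [hfix]; exact ⟨hop, h.nrm⟩)
  haveI : FiniteDimensional ℚ L := h1
  haveI : IsGalois ℚ L := h2
  haveI : NumberField L := {}
  have hEL : E ≤ L := (IntermediateField.le_iff_le N E).mpr hNE
  let ι : E →+* L := (IntermediateField.inclusion hEL).toRingHom
  let τ₀ : MP_d64882_nt.Emb E L := MP_d64882_nt.Emb.mk ι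
  have hE : Algebra.IsUnramifiedIn (𝓞 E) (Ideal.span {(l : ℤ)}) := by
    rw [← not_dvd_discr_iff_isUnramifiedIn E (𝓞 E) (Nat.prime_iff_prime_int.1 hl)]
    intro hd
    letI : Algebra E L := ι.toAlgebra
    exact not_dvd_NbCount h L hfix hl hR (hd.trans (discr_dvd_discr E L))
  have hu : (P.under (𝓞 L)).under ℤ = Ideal.span {(l : ℤ)} := by
    rw [Ideal.under_under, under_int_eq hl hlP]
  have hQ : P.under (𝓞 L) ∈ (Ideal.span {(l : ℤ)}).primesOver (𝓞 L) :=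
    ⟨inferInstance, ⟨hu.symm⟩⟩
  have hA : IsArithFrobAt ℤ (res L σ) (P.under (𝓞 L)) := by
    intro x
    have hc : Nat.card (ℤ ⧸ (P.under (𝓞 L)).under ℤ) = l := by
      rw [hu, Nat.card_congr (Int.quotientSpanNatEquivZMod l).toEquiv, Nat.card_zmod]
    rw [hc]
    change res L σ • x - x ^ l ∈ _
    rw [Ideal.mem_comap, map_sub, map_pow, res_smul]
    exact hF _
  have h3 := MP_d64882_nt.orbData_frob l hl _ hQ _ hA τ₀ hE
  rw [← MP_d64882_nt.cnt_prime E l hl, ← h3.card_fixed]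
  refine perm_eq_NbCount (res L) (AlgEquiv.restrictNormalHom_surjective Qa) τ₀
    (MP_d64882_nt.Emb.exists_smul τ₀) _ (fun g => ?_) σ
  rw [IntermediateField.mem_fixingSubgroup_iff]
  have h4 : ∀ x : E, (((res L g • τ₀).hom x : L) : Qa) = g x := fun x =>
    AlgEquiv.restrictNormal_commutes g L (ι x)
  refine ⟨fun hg => MP_d64882_nt.Emb.ext fun x => Subtype.ext ?_, fun hg x hx => ?_⟩
  · rw [h4]
    exact hg x x.2
  · have := h4 ⟨x, hx⟩
    rw [hg] at this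
    exact this.symm

end Pool.Agent.MP_f68ac8_nt.Nd

end

section

namespace Pool.Agent.MP_f68ac8_nt.Nd

open NumberField Finset Filter
open MP_d64882_nt (cnt)
open scoped Topology BigOperators

theorem inf_NbRep {n : ℕ} {R₁ R₂ : Finset ℕ} {N₁ N₂ : Subgroup GQ} (h₁ : Ad2 n R₁ N₁)
    (h₂ : Ad2 n R₂ N₂) : Ad2 (n * n) (R₁ ∪ R₂) (N₁ ⊓ N₂) where
  pri l hl := (mem_union.1 hl).elim (h₁.pri l) (h₂.pri l)
  nrm := by
    have := h₁.nrm
    have := h₂.nrm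
    infer_instance
  nhds := by
    rw [Subgroup.coe_inf]
    exact inter_mem h₁.nhds h₂.nhds
  idx := ⟨Subgroup.index_inf_ne_zero h₁.idx.1 h₂.idx.1,
    Subgroup.index_inf_le.trans (Nat.mul_le_mul h₁.idx.2 h₂.idx.2)⟩
  pg g := by
    obtain ⟨k₁, hk₁⟩ := h₁.pg g
    obtain ⟨k₂, hk₂⟩ := h₂.pg g
    refine ⟨k₁ + k₂, ?_, ?_⟩
    · rw [pow_add, pow_mul]
      exact N₁.pow_mem hk₁ _
    · rw [add_comm, pow_add, pow_mul]
      exact N₂.pow_mem hk₂ _
  unr P hP hR g hg :=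
    ⟨h₁.unr P hP (fun l hl => hR l (mem_union_left _ hl)) g hg,
      h₂.unr P hP (fun l hl => hR l (mem_union_right _ hl)) g hg⟩

theorem top_NbRep : Ad2 1 ∅ ⊤ where
  pri l hl := absurd hl (notMem_empty l)
  nrm := inferInstance
  nhds := by
    rw [Subgroup.coe_top]
    exact univ_mem
  idx := by simp
  pg g := ⟨0, Subgroup.mem_top _⟩
  unr _ _ _ _ _ := Subgroup.mem_top _

theorem one_le_sz_NbRep (R : Finset ℕ) : 1 ≤ sz R :=
  le_add_of_nonneg_right (sum_nonneg fun l _ => Real.log_natCast_nonneg l)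

theorem sz_union_NbRep (R₁ R₂ : Finset ℕ) : sz (R₁ ∪ R₂) ≤ sz R₁ + sz R₂ := by
  have h1 := sum_union_inter (s₁ := R₁) (s₂ := R₂) (f := fun l : ℕ => Real.log l)
  have h2 : 0 ≤ ∑ l ∈ R₁ ∩ R₂, Real.log l := sum_nonneg fun l _ => Real.log_natCast_nonneg l
  unfold sz
  linarith

theorem gap_NbRep {G : Type} [Group G] (N : Subgroup G) [N.Normal] {m : ℕ} (h0 : N.index ≠ 0)
    (hm : N.index ≤ m) (u : Subgroup G → ℝ) {a q : ℝ} (ha : 0 < a) (hq : 0 < q) (hq1 : q ≤ 1) :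
    ∃ j ≤ 2 ^ m, ∀ H, N ≤ H → u H ≤ a * q ^ (j + 1) ∨ a * q ^ j ≤ u H := by
  by_contra hcon
  push Not at hcon
  choose! H hH h1 h2 using hcon
  have : Finite (G ⧸ N) := Subgroup.index_ne_zero_iff_finite.1 h0
  have hlt : ∀ i j : Fin (2 ^ m + 1), i < j → H i ≠ H j := by
    intro i j hij he
    have h3 := h1 i (Nat.lt_succ_iff.1 i.2)
    have h4 := h2 j (Nat.lt_succ_iff.1 j.2)
    have h5 : q ^ (j : ℕ) ≤ q ^ ((i : ℕ) + 1) := pow_le_pow_of_le_one hq.le hq1 hij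
    rw [he] at h3
    have := mul_le_mul_of_nonneg_left h5 ha.le
    linarith
  have hinj : Function.Injective fun j : Fin (2 ^ m + 1) =>
      (((H j).map (QuotientGroup.mk' N) : Subgroup (G ⧸ N)) : Set (G ⧸ N)) := by
    intro i j hij
    have h3 : H i = H j := Subgroup.map_injective_of_ker_le (QuotientGroup.mk' N)
      (by rw [QuotientGroup.ker_mk']; exact hH i (Nat.lt_succ_iff.1 i.2))
      (by rw [QuotientGroup.ker_mk']; exact hH j (Nat.lt_succ_iff.1 j.2))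
      (SetLike.coe_injective hij)
    rcases lt_trichotomy i j with h | h | h
    · exact absurd h3 (hlt i j h)
    · exact h
    · exact absurd h3.symm (hlt j i h)
  have h3 := Nat.card_le_card_of_injective _ hinj
  have h4 : Nat.card (Set (G ⧸ N)) = 2 ^ N.index := by
    rw [Subgroup.index, ← Nat.card_fin 2, ← Nat.card_fun]
    exact Nat.card_congr (Equiv.arrowCongr (Equiv.refl _) (Equiv.propEquivBool.trans finTwoEquiv.symm))
  rw [Nat.card_fin, h4] at h3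
  have h5 : 2 ^ N.index ≤ 2 ^ m := Nat.pow_le_pow_right (by norm_num) hm
  omega

theorem est_NbRep {x P l θ : ℝ} {z : ℂ} (hl : 0 < l) (hθ : 0 ≤ θ) (hz : z.re ≤ 1)
    (h1 : ‖(l : ℂ) * P - 1 + l / (l + (1 - z))‖ ≤ θ) (h2 : |x - l * P| ≤ θ) :
    (‖1 - z‖ ≤ θ * l → x ≤ 3 * θ) ∧ (l ≤ θ * ‖1 - z‖ → |x - 1| ≤ 3 * θ) := by
  set u := 1 - z with hu
  have hre : 0 ≤ u.re := by rw [hu]; simpa using hz
  have h3 : l ≤ ‖(l : ℂ) + u‖ := by
    refine le_trans ?_ (Complex.re_le_norm _)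
    simpa using hre
  have h4 : ‖u‖ ≤ ‖(l : ℂ) + u‖ := by
    rw [← sq_le_sq₀ (norm_nonneg _) (norm_nonneg _), Complex.sq_norm, Complex.sq_norm,
      Complex.normSq_apply, Complex.normSq_apply]
    simp only [Complex.add_re, Complex.add_im, Complex.ofReal_re, Complex.ofReal_im, zero_add]
    nlinarith
  have h5 : 0 < ‖(l : ℂ) + u‖ := hl.trans_le h3
  have h6 : (l : ℂ) + u ≠ 0 := norm_pos_iff.1 h5
  have h7 := abs_le.1 ((Complex.abs_re_le_norm _).trans h1)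
  have h8 := abs_le.1 h2
  have h9 : ((l : ℂ) * P - 1 + l / (l + u)).re = l * P - 1 + ((l : ℂ) / (l + u)).re := by simp
  rw [h9] at h7
  constructor
  · intro h
    have h10 : ‖(l : ℂ) / (l + u) - 1‖ ≤ θ := by
      have : (l : ℂ) / (l + u) - 1 = -u / (l + u) := by field_simp; ring
      rw [this, norm_div, norm_neg, div_le_iff₀ h5]
      exact h.trans (mul_le_mul_of_nonneg_left h3 hθ)
    have h11 := abs_le.1 ((Complex.abs_re_le_norm _).trans h10)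
    rw [Complex.sub_re, Complex.one_re] at h11
    linarith
  · intro h
    have h10 : ‖(l : ℂ) / (l + u)‖ ≤ θ := by
      rw [norm_div, Complex.norm_real, Real.norm_eq_abs, abs_of_pos hl, div_le_iff₀ h5]
      exact h.trans (mul_le_mul_of_nonneg_left h4 hθ)
    have h11 := abs_le.1 ((Complex.abs_re_le_norm _).trans h10)
    rw [abs_le]
    constructor <;> linarith

theorem pw_real_NbRep (σ : ℝ) (l : ℕ) : pw σ l = (‖pw σ l‖ : ℝ) := by
  unfold pw
  split_ifs with h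
  · have : (l : ℂ) ^ (-(σ : ℂ)) = (((l : ℝ) ^ (-σ) : ℝ) : ℂ) := by
      rw [Complex.ofReal_cpow (Nat.cast_nonneg l)]
      simp
    rw [this, Complex.norm_real, Real.norm_of_nonneg (Real.rpow_nonneg (Nat.cast_nonneg l) _)]
  · simp

theorem pw_le_NbRep {σ : ℝ} (hσ : 0 ≤ σ) (l : ℕ) : ‖pw σ l‖ ≤ 1 := by
  unfold pw
  split_ifs with h
  · rw [Complex.norm_natCast_cpow_of_pos h.pos]
    refine Real.rpow_le_one_of_one_le_of_nonpos (by exact_mod_cast h.pos) ?_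
    simpa using hσ
  · simp

/-- the weights -/
noncomputable def w_NbRep (R : Finset ℕ) (lam σ : ℝ) (l : ℕ) : ℝ :=
  if l ∈ R then 0 else lam * (Real.log l * ‖pw σ l‖)

theorem w_nonneg_NbRep (R : Finset ℕ) {lam : ℝ} (σ : ℝ) (h : 0 ≤ lam) (l : ℕ) :
    0 ≤ w_NbRep R lam σ l := by
  unfold w_NbRep
  split_ifs
  · exact le_rfl
  · exact mul_nonneg h (mul_nonneg (Real.log_natCast_nonneg l) (norm_nonneg _))

theorem w_summable_NbRep (hP : PsumStmt) (R : Finset ℕ) {lam σ : ℝ} (h : 0 ≤ lam) (hσ : 1 < σ) :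
    Summable (w_NbRep R lam σ) := by
  refine Summable.of_nonneg_of_le (w_nonneg_NbRep R σ h) (fun l => ?_)
    ((hP.1 σ (by simpa using hσ)).2.mul_left lam)
  unfold w_NbRep
  split_ifs
  · exact mul_nonneg h (mul_nonneg (Real.log_natCast_nonneg l) (norm_nonneg _))
  · exact le_rfl

theorem cmp_NbRep (hP : PsumStmt) (E : Type) [Field E] [NumberField E] {m : ℕ} (hE : dE E ≤ m)
    (R : Finset ℕ) {lam σ : ℝ} (h : 0 ≤ lam) (hσ : 1 < σ) (p : ℕ → ℕ)
    (hp : ∀ l : ℕ, l.Prime → l ∉ R → cnt E l = p l) :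
    ∃ P : ℝ, P1 E σ = P ∧ |∑' l, w_NbRep R lam σ l * p l - lam * P| ≤ lam * m * sz R := by
  set b : ℕ → ℝ := fun l => cnt E l * (Real.log l * ‖pw σ l‖) with hb
  have hb0 : ∀ l, 0 ≤ b l := fun l =>
    mul_nonneg (Nat.cast_nonneg _) (mul_nonneg (Real.log_natCast_nonneg l) (norm_nonneg _))
  have hb1 : ∀ l, b l ≤ m * (Real.log l * ‖pw σ l‖) := by
    intro l
    by_cases hl : l.Prime
    · refine mul_le_mul_of_nonneg_right ?_ (mul_nonneg (Real.log_natCast_nonneg l) (norm_nonneg _))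
      exact_mod_cast ((hP.2.2 E).1 l hl).trans hE
    · simp [hb, pw, hl]
  have hs : Summable b :=
    Summable.of_nonneg_of_le hb0 hb1 ((hP.1 σ (by simpa using hσ)).2.mul_left _)
  refine ⟨∑' l, b l, ?_, ?_⟩
  · rw [P1, Complex.ofReal_tsum]
    refine tsum_congr fun l => ?_
    rw [hb]
    conv_lhs => rw [pw_real_NbRep]
    push_cast
    ring
  · have h1 : ∀ l, w_NbRep R lam σ l * p l = lam * (b l - if l ∈ R then b l else 0) := by
      intro l
      unfold w_NbRep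
      split_ifs with hl
      · simp
      · by_cases hl' : l.Prime
        · rw [← hp l hl' hl, hb]; ring
        · simp [hb, pw, hl']
    have h2 : HasSum (fun l => if l ∈ R then b l else 0) (∑ l ∈ R, b l) := by
      have := hasSum_sum_of_ne_finset_zero (f := fun l => if l ∈ R then b l else 0) (s := R)
        (L := SummationFilter.unconditional ℕ) fun l hl => if_neg hl
      rwa [sum_congr rfl fun l hl => if_pos hl] at this
    rw [tsum_congr h1, ((hs.hasSum.sub h2).mul_left lam).tsum_eq]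
    have h3 : 0 ≤ ∑ l ∈ R, b l := sum_nonneg fun l _ => hb0 l
    have h4 : ∑ l ∈ R, b l ≤ m * sz R := by
      rw [sz, mul_add, mul_sum]
      refine le_trans (sum_le_sum fun l _ => (hb1 l).trans ?_)
        (le_add_of_nonneg_left (by positivity))
      refine mul_le_mul_of_nonneg_left ?_ (Nat.cast_nonneg _)
      exact mul_le_of_le_one_right (Real.log_natCast_nonneg l) (pw_le_NbRep (by linarith) l)
    rw [show lam * (∑' l, b l - ∑ l ∈ R, b l) - lam * ∑' l, b l = -(lam * ∑ l ∈ R, b l) by ring,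
      abs_neg, abs_of_nonneg (mul_nonneg h h3), mul_assoc]
    exact mul_le_mul_of_nonneg_left h4 h

theorem fix_inj_NbRep {E E' : IntermediateField ℚ Qa} (h : E.fixingSubgroup = E'.fixingSubgroup) :
    E = E' := by
  rw [← InfiniteGalois.fixedField_fixingSubgroup E, h, InfiniteGalois.fixedField_fixingSubgroup]

theorem rep_stmt (hP : PsumStmt) (hO : OneStmt) (hD : DiscStmt) (hC : CountStmt) (hG : GrpStmt)
    (hE : ExcStmt) : RepStmt := by
  intro n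
  obtain ⟨Cd, hCd, hD'⟩ := hD (n * n)
  obtain ⟨C₁, -, hD₁⟩ := hD 1
  obtain ⟨c₀, C₀, hc₀, hC₀, hO'⟩ := hO (n * n)
  obtain ⟨ρ₀, hρ₀, hE'⟩ := hE (C₁ * sz ∅)
  obtain ⟨a, ha, ha1, ha2, ha3, ha4, ha5⟩ : ∃ a : ℝ, 0 < a ∧ a ≤ c₀ ∧ C₀ * a ≤ 1 ∧
      ((n * n : ℕ) : ℝ) * a ≤ 1 ∧ a ≤ 1 ∧ a ≤ ρ₀ := by
    have hn : (0 : ℝ) ≤ ((n * n : ℕ) : ℝ) := Nat.cast_nonneg _
    refine ⟨min (min c₀ C₀⁻¹) (min (((n * n : ℕ) : ℝ) + 1)⁻¹ ρ₀), by positivity,
      (min_le_left _ _).trans (min_le_left _ _), ?_, ?_, ?_,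
      (min_le_right _ _).trans (min_le_right _ _)⟩
    · rw [← le_div_iff₀' hC₀, one_div]
      exact (min_le_left _ _).trans (min_le_right _ _)
    · refine (mul_le_mul_of_nonneg_left ((min_le_right _ _).trans (min_le_left _ _)) hn).trans ?_
      rw [← div_eq_mul_inv, div_le_one (by linarith)]
      linarith
    · exact ((min_le_right _ _).trans (min_le_left _ _)).trans (inv_le_one_of_one_le₀ (by linarith))
  refine ⟨a * (1 / 400) ^ (2 ^ (n * n) + 1) / (2 * Cd) ^ 2, by positivity, ?_⟩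
  intro R₁ R₂ N₁ N₂ h₁ h₂ hsup M ρ hM₁ hM₂ hρ
  have hM : 1 ≤ M := (one_le_sz_NbRep R₁).trans hM₁
  have hA := inf_NbRep h₁ h₂
  set N := N₁ ⊓ N₂
  set R := R₁ ∪ R₂
  obtain ⟨M', hM'⟩ : ∃ M', M' = 2 * Cd * M := ⟨_, rfl⟩
  have hsz : sz R ≤ 2 * M := (sz_union_NbRep R₁ R₂).trans (by linarith)
  have hM1 : 2 * M ≤ M' := by rw [hM']; nlinarith
  have hM2 : 1 ≤ M' := by linarith
  have hM3 : M' ≤ M' ^ 2 := by nlinarith
  have hM4 : 0 < M' ^ 2 := by positivity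
  obtain ⟨l₀, hl₀⟩ : ∃ l₀, l₀ = a / M' ^ 2 := ⟨_, rfl⟩
  have hl1 : 0 < l₀ := by rw [hl₀]; positivity
  have hl2 : l₀ * M' ^ 2 = a := by rw [hl₀]; field_simp
  have hl3 : l₀ ≤ a := by nlinarith
  have hρ1 : ρ ≤ l₀ * (1 / 400) ^ (2 ^ (n * n) + 1) := by
    refine hρ.trans_eq ?_
    rw [hl₀, hM']
    field_simp
  have hρ2 : ρ ≤ c₀ / M' := by
    have h3 : (1 / 400 : ℝ) ^ (2 ^ (n * n) + 1) ≤ 1 := pow_le_one₀ (by norm_num) (by norm_num)
    rw [le_div_iff₀ (by linarith)]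
    have h4 : ρ ≤ l₀ := hρ1.trans (mul_le_of_le_one_right hl1.le h3)
    nlinarith
  have key : ∀ H, N ≤ H → ∃ z : ℂ, z.re ≤ 1 ∧
      ∀ (E : IntermediateField ℚ Qa) [NumberField E], E.fixingSubgroup = H →
        (z = 0 ∨ FE E z = 0) ∧ (∀ s : ℂ, ‖s - 1‖ ≤ c₀ / M' → FE E s = 0 → s = z) ∧
        ∀ σ : ℝ, 1 < σ → σ ≤ 1 + c₀ →
          ‖(σ - 1) * P1 E σ - 1 + (σ - 1) / (σ - z)‖ ≤ C₀ * (σ - 1) * M' ^ 2 := by
    intro H hH
    obtain ⟨E₀, i₀, hE₀⟩ := (hC _ R N hA).1 H hH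
    obtain ⟨h3, h4⟩ := hD' R N hA E₀ (hE₀ ▸ hH)
    obtain ⟨z, hz1, hz2⟩ := hO' E₀ h3 M' hM2 (h4.trans (by rw [hM']; nlinarith))
    refine ⟨z, hz1, fun E _ hE => ?_⟩
    obtain rfl : E = E₀ := fix_inj_NbRep (hE.trans hE₀.symm)
    exact hz2
  choose! z hz1 hz2 using key
  have hfr : ∀ l : ℕ, ∃ σ : GQ, l.Prime → Fr l σ := by
    intro l
    by_cases hl : l.Prime
    · obtain ⟨P, hP1, hP2⟩ := exists_maximal_mem (Ω := Qa) hl
      obtain ⟨σ, hσ⟩ := exists_frob P hl hP2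
      exact ⟨σ, fun _ => ⟨P, hP1, hP2, hσ⟩⟩
    · exact ⟨1, fun h => absurd h hl⟩
  choose σ hσ using hfr
  have := hA.nrm
  obtain ⟨j, hj, hgap⟩ := gap_NbRep N hA.idx.1 hA.idx.2 (fun H => ‖1 - z H‖) hl1
    (q := 1 / 400) (by norm_num) (by norm_num)
  obtain ⟨t, ht⟩ : ∃ t : ℝ, t = l₀ * (1 / 400) ^ j := ⟨_, rfl⟩
  have ht0 : 0 < t := by rw [ht]; positivity
  have ht1 : t ≤ l₀ := by
    rw [ht]
    exact mul_le_of_le_one_right hl1.le (pow_le_one₀ (by norm_num) (by norm_num))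
  have ht2 : l₀ * (1 / 400) ^ (j + 1) = 1 / 20 * (t / 20) := by rw [ht]; ring
  have ht3 : t * M' ^ 2 ≤ a := by nlinarith
  have hest : ∀ H, N ≤ H →
      (‖1 - z H‖ ≤ 1 / 20 * (t / 20) →
        ∑' l, w_NbRep R (t / 20) (1 + t / 20) l * perm H (σ l) ≤ 3 * (1 / 20)) ∧
      (t / 20 ≤ 1 / 20 * ‖1 - z H‖ →
        |∑' l, w_NbRep R (t / 20) (1 + t / 20) l * perm H (σ l) - 1| ≤ 3 * (1 / 20)) := by
    intro H hH
    obtain ⟨E, i, hE⟩ := (hC _ R N hA).1 H hH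
    obtain ⟨h3, -⟩ := hD' R N hA E (hE ▸ hH)
    obtain ⟨P, hP1, hP2⟩ := cmp_NbRep hP E h3 R (lam := t / 20) (σ := 1 + t / 20) (by positivity)
      (by linarith) (fun l => perm H (σ l))
      (fun l hl hR => hE ▸ (hC _ R N hA).2 E (hE ▸ hH) l hl hR _ (hσ l hl))
    have h4 := (hz2 H hH E hE).2.2 (1 + t / 20) (by linarith) (by linarith)
    rw [hP1] at h4
    refine est_NbRep (P := P) (by positivity) (by norm_num) (hz1 H hH) ?_ (hP2.trans ?_)
    · have e1 : ((1 + t / 20 : ℝ) : ℂ) - 1 = ((t / 20 : ℝ) : ℂ) := by push_cast; ring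
      have e2 : ((1 + t / 20 : ℝ) : ℂ) - z H = ((t / 20 : ℝ) : ℂ) + (1 - z H) := by
        push_cast; ring
      rw [e1, e2] at h4
      refine h4.trans ?_
      have h5 := mul_le_mul_of_nonneg_left ht3 hC₀.le
      nlinarith
    · have hn : (0 : ℝ) ≤ ((n * n : ℕ) : ℝ) := Nat.cast_nonneg _
      have h5 : t * sz R ≤ a :=
        (mul_le_mul_of_nonneg_left (by linarith) ht0.le).trans ht3
      have h6 := mul_le_mul_of_nonneg_left h5 hn
      nlinarith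
  by_contra hcon
  rw [not_or] at hcon
  have hbad : ∀ N' : Subgroup GQ, N ≤ N' → ¬GoodN N' ρ → ∃ K, N' ≤ K ∧
      ∑' l, w_NbRep R (t / 20) (1 + t / 20) l * perm K (σ l) ≤ 3 * (1 / 20) := by
    intro N' hN' hn
    unfold GoodN Good at hn
    push Not at hn
    obtain ⟨E, i, hE, s, hs1, hs2⟩ := hn
    refine ⟨E.fixingSubgroup, hE, (hest _ (hN'.trans hE)).1 ?_⟩
    rw [← (hz2 _ (hN'.trans hE) E rfl).2.1 s (hs1.trans hρ2) hs2, norm_sub_rev, ← ht2]
    refine hs1.trans (hρ1.trans (mul_le_mul_of_nonneg_left ?_ hl1.le))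
    exact pow_le_pow_of_le_one (by norm_num) (by norm_num) (by omega)
  obtain ⟨K₁, hK₁, hK₁'⟩ := hbad N₁ inf_le_left hcon.1
  obtain ⟨K₂, hK₂, hK₂'⟩ := hbad N₂ inf_le_right hcon.2
  have h3 := hG GQ N hA.nrm hA.idx.1 hA.pg σ (w_NbRep R (t / 20) (1 + t / 20)) (3 * (1 / 20))
    (w_nonneg_NbRep R _ (by positivity)) (w_summable_NbRep hP R (by positivity) (by linarith))
    (by norm_num)
    (fun H hH => (hgap H hH).imp (fun h => (hest H hH).1 (ht2 ▸ h))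
      fun h => (hest H hH).2 (by rw [← ht] at h; linarith))
    N₁ N₂ K₁ K₂ h₁.nrm h₂.nrm inf_le_left inf_le_right hsup hK₁ hK₂ hK₁' hK₂'
  obtain ⟨E, i, hE⟩ := (hC _ R N hA).1 ⊤ le_top
  have h4 : a ≤ ‖1 - z ⊤‖ := by
    rcases (hz2 ⊤ le_top E hE).1 with h | h
    · rw [h, sub_zero, norm_one]
      exact ha4
    · by_contra hlt
      refine hE' E (hD₁ ∅ ⊤ top_NbRep E hE.ge).2 (z ⊤) ?_ h
      rw [norm_sub_rev]
      linarith
  have h5 := abs_le.1 ((hest ⊤ le_top).2 (by linarith))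
  linarith [h5.1]

end Pool.Agent.MP_f68ac8_nt.Nd

end

section

/-! The error terms are small, for filtered groups. -/

namespace Pool.Agent.MP_f68ac8_nt.Zk

open Zv
open scoped commutatorElement
open Matrix Finset
open scoped BigOperators

theorem pick_ZkErr {α β : Type} [DecidableEq α] (Q : α → Prop) (R : β → α → Prop) (m : ℕ)
    (l : List β) : l.length ≤ m → (∀ g ∈ l, ∃ A : Finset α, m ≤ A.card ∧ ∀ j ∈ A, Q j ∧ R g j) →
      ∃ s : List α, s.Nodup ∧ (∀ j ∈ s, Q j) ∧ List.Forall₂ R l s := by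
  induction l with
  | nil => exact fun _ _ => ⟨[], List.nodup_nil, by simp, List.Forall₂.nil⟩
  | cons g l ih =>
    intro hl h
    rw [List.length_cons] at hl
    obtain ⟨s, h1, h2, h3⟩ := ih (by omega) fun g' hg => h g' (List.mem_cons_of_mem _ hg)
    obtain ⟨A, h4, h5⟩ := h g List.mem_cons_self
    have h6 : s.toFinset.card < A.card := by
      have := List.toFinset_card_le s
      have := h3.length_eq
      omega
    obtain ⟨j, h7, h8⟩ := exists_mem_notMem_of_card_lt_card h6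
    exact ⟨j :: s, List.nodup_cons.2 ⟨fun h9 => h8 (List.mem_toFinset.2 h9), h1⟩,
      List.forall_mem_cons.2 ⟨(h5 j h7).1, h2⟩, List.Forall₂.cons (h5 j h7).2 h3⟩

theorem ext_ZkErr {P R : Type} [Group P] [Add R] (H : Subgroup P) (ψ : P → R)
    (hψ : ∀ g ∈ H, ∀ h ∈ H, ψ (g * h) = ψ g + ψ h) :
    ∃ φ : P → R, ∀ c ∈ H, ∀ h, φ (c * h) = ψ c + φ h := by
  refine ⟨fun h => ψ (h * (Quotient.out (Quotient.mk (QuotientGroup.rightRel H) h))⁻¹),
    fun c hc h => ?_⟩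
  have h1 : Quotient.mk (QuotientGroup.rightRel H) (c * h) =
      Quotient.mk (QuotientGroup.rightRel H) h :=
    (Quotient.sound (QuotientGroup.rightRel_apply.2 (by simpa using hc))).symm
  have h2 : h * (Quotient.out (Quotient.mk (QuotientGroup.rightRel H) h))⁻¹ ∈ H :=
    QuotientGroup.rightRel_apply.1 (Quotient.mk_out (s := QuotientGroup.rightRel H) h)
  simp only [h1]
  rw [mul_assoc, hψ c hc _ h2]

theorem expect_fst_ZkErr {Λ Y R : Type} [Fintype (Λ → Y)] [Fintype (Λ → Y × R)] [Finite Λ]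
    [Finite R] [Nonempty R] (F : (Λ → Y) → ℂ) :
    𝔼 a, F a = 𝔼 a : Λ → Y × R, F fun u => (a u).1 := by
  have := Fintype.ofFinite (Λ → R)
  refine Eq.symm ((expect_equiv (Equiv.arrowProdEquivProdArrow Λ (fun _ => Y) fun _ => R)
    (t := univ ×ˢ univ) (g := fun b => F b.1) (by simp) fun _ _ => rfl).trans ?_)
  rw [expect_product]
  exact expect_congr rfl fun a _ => expect_const univ_nonempty (F a)

section
variable {d : ℕ} {U : Fin d → Type}

theorem lc_of_ZkErr {R : Type} [AddCommGroup R] {S : Finset (Fin d)} {s : Fin d} (hs : s ∈ S)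
    {f : (∀ j, U j) → R} (h : ∀ q u, f (Function.update q s u) = f q) : LC S f := by
  refine ⟨fun i q => if i = s then f q else 0, fun i _ q u => ?_, fun q => ?_⟩
  · by_cases hi : i = s
    · subst hi
      simp only [if_true, h]
    · simp only [if_neg hi]
  · rw [sum_ite_eq', if_pos hs]

theorem Ex_sum_ZkErr [∀ j, Fintype (U j)] (w : ∀ j, U j → ℝ) {α : Type} [Fintype α]
    (f : α → (∀ j, U j) → ℂ) : (Ex w fun q => ∑ c, f c q) = ∑ c, Ex w (f c) := by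
  unfold Ex
  rw [sum_comm]
  exact sum_congr rfl fun q _ => smul_sum

variable {P : Type} [Group P]

theorem plc_update_ZkErr (q : ∀ j, U j) (x : Fin d → P) {J : Finset (Fin d)} {s : Fin d}
    (hs : s ∉ J) (u : U s) : plc (Function.update q s u) (msk J x) = plc q (msk J x) := by
  funext ⟨i, v⟩
  by_cases hi : i = s
  · subst hi
    simp [plc, msk, hs]
  · simp only [plc]
    rw [Function.update_of_ne hi]

theorem Yw_update_ZkErr (y : (Σ j, U j) → FreeGroup (Σ j, U j)) (q : ∀ j, U j) (x : Fin d → P)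
    {J : Finset (Fin d)} {s j : Fin d} (hs : s ∉ J) (hj : s ≠ j) (u : U s) :
    Yw y (Function.update q s u) (msk J x) j = Yw y q (msk J x) j := by
  unfold Yw
  rw [plc_update_ZkErr q x hs, Function.update_of_ne hj.symm]

theorem rr_update_ZkErr (y : (Σ j, U j) → FreeGroup (Σ j, U j)) (q : ∀ j, U j) (p : ℕ)
    {s j j' : Fin d} (hj : s ≠ j) (hj' : s ≠ j') (u : U s) :
    rr y (Function.update q s u) p j j' = rr y q p j j' := by
  unfold rr
  rw [Function.update_of_ne hj.symm, Function.update_of_ne hj'.symm]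

theorem alt_ZkErr {p : ℕ} (y : (Σ j, U j) → FreeGroup (Σ j, U j)) (x : Fin d → P)
    {S : Finset (Fin d)} {t : Fin d} (ht : t ∉ S) (φ : P → ZMod p) (q₀ q₁ : ∀ j, U j) (u : U t) :
    ∑ ω ∈ S.powerset, (-1) ^ ω.card *
        φ (Yw y (Function.update (ω.piecewise q₁ q₀) t u) (msk S x) t) =
      ∑ ω ∈ S.powerset, (-1) ^ ω.card *
        φ (piV (fun ω : Finset (Fin d) => plc (ω.piecewise q₁ q₀) (msk S x)) (y ⟨t, u⟩) ω) := by
  refine sum_congr rfl fun ω _ => ?_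
  rw [piV_apply_ZaErr, Yw, plc_update_ZkErr _ x ht, Function.update_self]

variable {p : ℕ} [Fact p.Prime]

variable (p P d) in
/-- the index set of the data -/
abbrev Ix_ZkErr : Type := (Fin d × Finset (Fin d) × Bool × P) ⊕ (Fin d × Fin d × ZMod p)

theorem box_ZkErr [Fintype P] (hB : BoxStmt) [∀ j, Fintype (U j)] {w : ∀ j, U j → ℝ}
    (hw : Prob w) {S : Finset (Fin d)} {t : Fin d} (ht : t ∉ S) (h2 : 2 ≤ S.card) (x : Fin d → P)
    (y g : (Σ j, U j) → FreeGroup (Σ j, U j)) (G : (∀ j, U j) → ZMod p) (c : ZMod p)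
    (Q : (∀ j, U j) → Prop) [inst : DecidablePred Q]
    (hQ : ∀ q q', DatEq p (insert t S) x y g q q' → Q q → Q q') :
    ‖Ex w fun q => if Q q then ZMod.stdAddChar (c + G q) else 0‖ ^ 2 ^ (S.card + 1) ≤
      ((p : ℝ) ^ Fintype.card (Ix_ZkErr d P p)) ^ 2 ^ (S.card + 1) *
        Bx ZMod.stdAddChar w S t G := by
  classical
  obtain rfl : inst = fun q => Classical.propDecidable (Q q) := Subsingleton.elim _ _
  refine hB p d U w hw S t ht (Ix_ZkErr d P p)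
    (Sum.elim (fun z q => if (∃ s ∈ insert t S, s ∉ z.2.1 ∧ s ≠ z.1) ∧
        Yw (if z.2.2.1 then y else g) q (msk z.2.1 x) z.1 = z.2.2.2 then 1 else 0)
      fun z q => if rr y q p z.1 z.2.1 = z.2.2 then 1 else 0) (fun _ => c) G Q ?_
    (lc_of_ZkErr (mem_insert_self t S) fun _ _ => rfl) fun q q' h => hQ q q' ?_
  · rintro (⟨j, J, b, h⟩ | ⟨j, j', c'⟩)
    · by_cases hz : ∃ s ∈ insert t S, s ∉ J ∧ s ≠ j
      · obtain ⟨s, h1, h3, h4⟩ := hz
        refine lc_of_ZkErr h1 fun q u => ?_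
        simp only [Sum.elim_inl, Yw_update_ZkErr _ q x h3 h4]
      · simp only [Sum.elim_inl, hz, false_and, if_false]
        exact lc_zero_ZaErr _
    · have h3 : ({j, j'} : Finset (Fin d)).card < (insert t S).card := by
        have := card_le_two (a := j) (b := j')
        rw [card_insert_of_notMem ht]
        omega
      obtain ⟨s, h1, h4⟩ := exists_mem_notMem_of_card_lt_card h3
      rw [mem_insert, mem_singleton, not_or] at h4
      refine lc_of_ZkErr h1 fun q u => ?_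
      simp only [Sum.elim_inr, rr_update_ZkErr y q p h4.1 h4.2]
  · refine ⟨fun j J hz => ?_, funext fun j => funext fun j' => ?_⟩
    · have h1 : ∀ b : Bool, Yw (if b then y else g) q (msk J x) j =
          Yw (if b then y else g) q' (msk J x) j := fun b => by
        have h3 := h (.inl (j, J, b, Yw (if b then y else g) q (msk J x) j))
        simp only [Sum.elim_inl, hz, true_and, if_true] at h3
        by_contra h4
        rw [if_neg (Ne.symm h4)] at h3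
        exact one_ne_zero h3
      exact ⟨h1 true, h1 false⟩
    · have h3 := h (.inr (j, j', rr y q p j j'))
      simp only [Sum.elim_inr, if_true] at h3
      by_contra h4
      rw [if_neg (Ne.symm h4)] at h3
      exact one_ne_zero h3

theorem bx_ZkErr [Fintype P] (hM : MomStmt) (hU : UnifStmt) [∀ j, Fintype (U j)] :
    ∃ (𝓡 : Type) (_ : Fintype 𝓡) (_ : Nonempty 𝓡) (σ : 𝓡 → FreeGroup (Σ j, U j)),
    ∀ {w : ∀ j, U j → ℝ} {Y : Type} [Fintype Y] [Nonempty Y] [Fintype ((Σ j, U j) → Y × 𝓡)]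
    (y : (Σ j, U j) → Y → FreeGroup (Σ j, U j)) {η : ℝ}, Prob w → (∀ j u, w j u ≤ η) → 0 ≤ η →
    EQ p P w y η → ∀ (x : Fin d → P) {S : Finset (Fin d)} {t : Fin d} (φ : P → ZMod p),
    (∀ i ∈ S, i < t) → (∀ q₀ q₁ : ∀ j, U j, (∀ i ∈ S, q₀ i ≠ q₁ i) →
      Shf (piV fun ω : Finset (Fin d) => plc (ω.piecewise q₁ q₀) (msk S x)).range
        fun h => ∑ ω ∈ S.powerset, (-1) ^ ω.card * φ (h ω)) →
    𝔼 a : (Σ j, U j) → Y × 𝓡, Bx ZMod.stdAddChar w S t (fun q =>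
        φ (Yw ((fun u => σ (a u).2) * (fun u => y u (a u).1) * (fun u => σ (a u).2)⁻¹) q
          (msk S x) t)) ≤ η ^ 2 + η + S.card * η := by
  obtain ⟨𝓡, _, _, σ, -, hσ⟩ := hU (Σ j, U j) P ⊤
  refine ⟨𝓡, inferInstance, inferInstance, σ, ?_⟩
  intro w Y _ _ _ y η hw hη hη0 hE x S t φ hlt hS
  have ht : t ∉ S := fun h => lt_irrefl _ (hlt t h)
  unfold Bx
  simp only [expect_Ex_ZaErr, alt_ZkErr _ x ht]
  have hn : ∀ z : ZMod p, ‖(ZMod.stdAddChar z : ℂ)‖ = 1 := fun z => AddChar.norm_apply _ z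
  refine hM.2 d U w η (η ^ 2 + η) hw hη (by positivity) S _ (fun q₀ q₁ => ?_) fun q₀ q₁ hq => ?_
  · refine le_trans (expect_le univ_nonempty fun a _ => ?_)
      (le_add_of_nonneg_right (by positivity))
    refine pow_le_one₀ (norm_nonneg _) ((norm_sum_le _ _).trans (le_of_eq ?_))
    rw [← hw.2 t]
    refine sum_congr rfl fun u _ => ?_
    rw [norm_smul, hn, mul_one, Real.norm_of_nonneg (hw.1 t u)]
  · have h1 := mom_ZaErr hM (fun u : U t => (⟨t, u⟩ : Σ j, U j)) (w t) η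
      (fun u (b : Y × 𝓡) => ZMod.stdAddChar (∑ ω ∈ S.powerset, (-1) ^ ω.card *
        φ (piV (fun ω : Finset (Fin d) => plc (ω.piecewise q₁ q₀) (msk S x))
          (σ b.2 * y ⟨t, u⟩ b.1 * (σ b.2)⁻¹) ω)))
      sigma_mk_injective (hw.1 t) (hw.2 t) (hη t) fun u b => (hn _).le
    have h2 := hE t (fun ω : Finset (Fin d) => plc (ω.piecewise q₁ q₀) (msk S x)) _
      (fun ω z hz => ?_) (hS q₀ q₁ hq)
    · refine h1.trans (add_le_add_left (pow_le_pow_left₀ (norm_nonneg _)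
        (le_of_eq_of_le ?_ h2) 2) η)
      refine congrArg _ (sum_congr rfl fun u _ => congrArg _ ?_)
      rw [← univ_product_univ, expect_product]
      refine expect_congr rfl fun b _ => ?_
      unfold Av
      rw [MonoidHom.range_eq_map, ← hσ]
      simp only [map_mul, map_inv]
    · have h3 : z.1 ∉ S := fun h => absurd (hlt _ h) (not_lt.2 hz)
      simp only [plc, msk, if_neg h3, ite_self]

theorem sel_ZkErr [Fintype P] (hS : SpanStmt p) {T : Fil p P} {D : Gd p P} {La : LaT D}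
    {L l n i : ℕ} (h : Pk T D La L l n) (hl : l ≤ i) (hL : i + p + 1 ≤ L) {x : Fin d → P}
    {z : Fin d → V p (D.k (i + 1 + 1))} (hx : Cand T i x) (hz : ∀ j, z j ∈ La i (tyOf D x j))
    (hR : Rich (tyOf D x) (i + 1) z) : ∃ (t : Fin d) (s : List (Fin d)) (ψ : P → ZMod p),
      (∀ c, ψ c = z t ⬝ᵥ D.b (i + 1) (tyOf D x t) (D.e (i + 1) c)) ∧ s.Nodup ∧
      s.length = i + 1 ∧ (∀ j ∈ s, j < t ∧ z j = 0) ∧
      (∀ g ∈ T.F (i + 1), ∀ h ∈ T.F (i + 1), ψ (g * h) = ψ g + ψ h) ∧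
      (∀ g ∈ T.F (i + 1 + 1), ψ g = 0) ∧ ψ (brL (s.map x)) ≠ 0 := by
  classical
  obtain ⟨t, ht, hR⟩ := hR
  have hi : 1 ≤ i := h.ts.pos.trans hl
  have h1 : ∀ g : P, g ∈ T.F 1 := fun g => h.ts.one ▸ Subgroup.mem_top g
  have h2 : ∀ g g' : P, D.e 1 g' = D.e 1 g + D.e 1 (g⁻¹ * g') := fun g g' => by
    rw [← h.gd.add 1 le_rfl _ (h1 _) _ (h1 _), mul_inv_cancel_left]
  obtain ⟨ψ, hψ⟩ : ∃ ψ : P → ZMod p, ∀ c,
      ψ c = z t ⬝ᵥ D.b (i + 1) (tyOf D x t) (D.e (i + 1) c) := ⟨_, fun _ => rfl⟩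
  have a1 : ∀ g ∈ T.F (i + 1), ∀ h ∈ T.F (i + 1), ψ (g * h) = ψ g + ψ h := fun g hg g' hg' => by
    rw [hψ, hψ, hψ, h.gd.add _ (by omega) g hg g' hg', map_add, dotProduct_add]
  have a0 : T.F (i + 1 + 1) ≤ T.F (i + 1) := h.ts.ns.anti _ _ (by omega) (by omega)
  have a2 : ∀ g ∈ T.F (i + 1 + 1), ψ g = 0 := fun g hg => by
    rw [hψ, (h.gd.zero _ (by omega) g (a0 hg)).2 hg, map_zero, dotProduct_zero]
  have a3 : ∃ g ∈ T.F (i + 1), ψ g ≠ 0 := by
    by_contra h3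
    push Not at h3
    obtain ⟨x₀, h4, h5⟩ := hx.1 t
    have h6 : tyOf D x t ∈ (lnOf T D La i).ty := ⟨x₀, h4, by
      rw [tyOf, h2 x₀ (x t), (h.gd.zero 1 le_rfl _ (h1 _)).2
        (h.ts.ns.anti _ _ (by omega) (by omega) h5), add_zero]⟩
    refine ht ((h.ln i hi hL).dual _ h6 _ (hz t) fun v _ => ?_)
    obtain ⟨g, hg, rfl⟩ := h.gd.surj (i + 1) (by omega) v
    exact (hψ g).symm.trans (h3 g hg)
  obtain ⟨b1, b2⟩ := hS P T.F h.ts.ns h.ts.one
  obtain ⟨l₀, c1, c2, c3⟩ := b2 (i + 1) (by omega) (h.ts.v3 _ (by omega)) _ hx.2 ψ a1 a2 a3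
  obtain ⟨s, s1, s2, s3⟩ := pick_ZkErr (fun j => j < t ∧ z j = 0)
    (fun g j => g⁻¹ * x j ∈ T.F 2) (i + 1) l₀ c1.le fun g hg => by
      obtain ⟨j₀, rfl⟩ := c2 g hg
      refine ⟨_, hR j₀, fun j hj => ?_⟩
      obtain ⟨k1, k2, k3⟩ := (mem_filter.1 hj).2
      refine ⟨⟨k1, k3⟩, (h.gd.zero 1 le_rfl _ (h1 _)).1 ?_⟩
      exact left_eq_add.1 (k2.symm.trans (h2 (x j₀) (x j)))
  obtain ⟨d1, d2⟩ := b1 l₀ (s.map x) (List.ne_nil_of_length_eq_add_one c1)
    (List.forall₂_map_right_iff.2 s3)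
  rw [c1] at d1 d2
  refine ⟨t, s, ψ, hψ, s1, s3.length_eq.symm.trans c1, s2, a1, a2, ?_⟩
  rw [← mul_inv_cancel_left (brL l₀) (brL (s.map x)), a1 _ d1 _ (a0 d2), a2 _ d2, add_zero]
  exact c3

end

theorem err_stmt (p : ℕ) [Fact p.Prime] (hB : BoxStmt) (hM : MomStmt) (hU : UnifStmt)
    (hS : SpanStmt p) (hL : LcStmt p) (hT : ShiftStmt p) : ErrStmt p := by
  classical
  intro P _ _ T D La L l n h d ε hε
  have hp : (1 : ℝ) ≤ p := by exact_mod_cast (Fact.out : p.Prime).one_le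
  have hC1 : (1 : ℝ) ≤ (p : ℝ) ^ Fintype.card (Ix_ZkErr d P p) := one_le_pow₀ hp
  have hε' : 0 < ε / p := by positivity
  obtain ⟨η, hη0, hη⟩ := eta_ZaErr d hC1 hε'
  refine ⟨η, hη0, ?_⟩
  intro U _ w Y _ _ y hw hwη hE i x z C hli hiL hx hz hR
  have hi : 1 ≤ i := h.ts.pos.trans hli
  obtain ⟨t, s, ψ, hψ, s1, s2, s3, a1, a2, a3⟩ := sel_ZkErr hS h hli hiL hx hz hR
  obtain ⟨φ, hφ⟩ := ext_ZkErr _ ψ a1
  obtain ⟨𝓡, _, _, σ, hσ⟩ := bx_ZkErr (p := p) (U := U) (P := P) hM hU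
  have hc : s.toFinset.card = i + 1 := by rw [List.toFinset_card_of_nodup s1, s2]
  have hlt : ∀ j ∈ s.toFinset, j < t := fun j hj => (s3 j (List.mem_toFinset.1 hj)).1
  have ht : t ∉ s.toFinset := fun h => lt_irrefl _ (hlt t h)
  have hb := hσ y hw hwη hη0.le hE x φ hlt fun q₀ q₁ hq =>
    hT P T L l n h.ts d U x s ψ φ s1 (List.ne_nil_of_length_eq_add_one s2) (s2 ▸ a1) (s2 ▸ a2)
      (s2 ▸ hφ) a3 q₀ q₁ fun j hj => hq j (List.mem_toFinset.2 hj)
  have key : ∀ (y g : (Σ j, U j) → FreeGroup (Σ j, U j)) (q : ∀ j, U j), Tm y q T D C i x z =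
      ∑ c : ZMod p, if C (rr y q p) ∧ Eqs y q T i x ∧
        Ob y q D i x z - φ (Yw (g * y * g⁻¹) q (msk s.toFinset x) t) = c then
        ZMod.stdAddChar (c + φ (Yw (g * y * g⁻¹) q (msk s.toFinset x) t)) else 0 := by
    intro y g q
    unfold Tm
    split_ifs with h1
    · simp only [h1.1, h1.2, true_and, sum_ite_eq, mem_univ, if_true, sub_add_cancel]
    · exact (sum_eq_zero fun c _ => if_neg fun h2 => h1 ⟨h2.1, h2.2.1⟩).symm
  rw [expect_fst_ZkErr (R := 𝓡), expect_congr rfl fun (a : (Σ j, U j) → Y × 𝓡) _ =>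
    (congrArg (Ex w) (funext (key _ fun u => σ (a u).2))).trans (Ex_sum_ZkErr w _),
    expect_sum_comm]
  refine (norm_sum_le _ _).trans ((sum_le_card_nsmul _ _ (ε / p) fun c _ => ?_).trans_eq ?_)
  · refine (pow_le_pow_iff_left₀ (norm_nonneg _) hε'.le
      (pow_pos two_pos (s.toFinset.card + 1)).ne').1 ((jensen_ZaErr _ _).trans ?_)
    refine (expect_le_expect fun a _ => box_ZkErr hB hw ht (by omega) x (fun u => y u (a u).1)
      (fun u => σ (a u).2) _ c _ fun q q' hq hQ => ?_).trans ?_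
    · obtain ⟨k1, k2⟩ := hL P T L l n h.ts D h.gd d U i _ t x z φ hi hc ht
        (fun j hj => (s3 j (List.mem_toFinset.1 hj)).2) (fun c hc g => by rw [hφ c hc, hψ])
        _ _ q q' hq hQ.2.1
      exact ⟨hq.2 ▸ hQ.1, k1, k2 ▸ hQ.2.2⟩
    · rw [← mul_expect]
      exact le_trans (mul_le_mul_of_nonneg_left hb (by positivity))
        (hη _ ((card_le_univ _).trans_eq (Fintype.card_fin d)))
  · rw [card_univ, ZMod.card, nsmul_eq_mul, mul_div_cancel₀ _ (by positivity)]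

end Pool.Agent.MP_f68ac8_nt.Zk

end

section

/-! Two small normal subgroups of a finite `2`-group generate a small subgroup. -/

namespace Pool.Agent.MP_f68ac8_nt.Nd

open NumberField Finset Filter
open MP_d64882_nt (cnt)
open scoped Topology BigOperators

theorem perm_comap_NbGrp {G Q : Type} [Group G] [Group Q] (f : G →* Q)
    (hf : Function.Surjective f) (H : Subgroup Q) (g : G) :
    perm (H.comap f) g = perm H (f g) := by
  unfold perm
  let F : G ⧸ H.comap f → Q ⧸ H := Quotient.map' f (by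
    intro a b hab
    rw [QuotientGroup.leftRel_apply] at hab ⊢
    simpa using hab)
  have hF : ∀ a : G, F (a : G ⧸ H.comap f) = (f a : Q ⧸ H) := fun a => rfl
  have hinj : Function.Injective F := by
    intro x y
    induction x using QuotientGroup.induction_on with | H a =>
    induction y using QuotientGroup.induction_on with | H b =>
    intro h
    rw [hF, hF, QuotientGroup.eq] at h
    rw [QuotientGroup.eq]
    simpa using h
  have hsurj : Function.Surjective F := by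
    intro y
    induction y using QuotientGroup.induction_on with | H b =>
    obtain ⟨a, rfl⟩ := hf b
    exact ⟨a, hF a⟩
  refine Nat.card_congr ((Equiv.ofBijective F ⟨hinj, hsurj⟩).subtypeEquiv ?_)
  intro x
  induction x using QuotientGroup.induction_on with | H a =>
  simp only [Equiv.ofBijective_apply, hF, MulAction.Quotient.smul_mk, smul_eq_mul,
    QuotientGroup.eq]
  simp

theorem card_perm_NbGrp {Q : Type} [Group Q] (H : Subgroup Q) (g : Q) :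
    Nat.card H * perm H g = Set.ncard {x : Q | x⁻¹ * g * x ∈ H} := by
  have h := QuotientGroup.card_preimage_mk H {y : Q ⧸ H | g • y = y}
  have e : (QuotientGroup.mk ⁻¹' {y : Q ⧸ H | g • y = y} : Set Q) = {x : Q | x⁻¹ * g * x ∈ H} := by
    ext x
    simp only [Set.mem_preimage, Set.mem_ofPred_eq, MulAction.Quotient.smul_mk, smul_eq_mul]
    rw [eq_comm, QuotientGroup.eq, mul_assoc]
  rw [e] at h
  rw [← Nat.card_coe_set_eq, h]
  rfl

theorem perm_le_NbGrp {Q : Type} [Group Q] [Finite Q] (H : Subgroup Q) (g : Q) :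
    perm H g ≤ Nat.card Q := by
  have h1 := card_perm_NbGrp H g
  have h2 : Set.ncard {x : Q | x⁻¹ * g * x ∈ H} ≤ Nat.card Q := Set.ncard_le_card _
  have h3 : 0 < Nat.card H := Nat.card_pos
  nlinarith

theorem perm_two_NbGrp {Q : Type} [Group Q] [Finite Q] {M H : Subgroup Q} (hle : M ≤ H)
    (hc : Nat.card H = 2 * Nat.card M) (g : Q) : perm M g ≤ 2 * perm H g := by
  have h1 := card_perm_NbGrp H g
  have h2 := card_perm_NbGrp M g
  have h3 : Set.ncard {x : Q | x⁻¹ * g * x ∈ M} ≤ Set.ncard {x : Q | x⁻¹ * g * x ∈ H} :=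
    Set.ncard_le_ncard (fun x hx => hle hx)
  have h4 : 0 < Nat.card M := Nat.card_pos
  rw [← h1, ← h2, hc] at h3
  refine Nat.le_of_mul_le_mul_left ?_ h4
  calc Nat.card M * perm M g ≤ 2 * Nat.card M * perm H g := h3
    _ = Nat.card M * (2 * perm H g) := by ring

theorem card_lt_NbGrp {Q : Type} [Group Q] [Finite Q] {M K : Subgroup Q} (hlt : M < K) :
    2 * Nat.card M ≤ Nat.card K := by
  obtain ⟨c, hc⟩ := Subgroup.card_dvd_of_le hlt.le
  have hK : 0 < Nat.card K := Nat.card_pos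
  have h0 : c ≠ 0 := by
    rintro rfl
    omega
  have h1 : c ≠ 1 := by
    rintro rfl
    exact hlt.ne (Subgroup.eq_of_le_of_card_ge hlt.le (by omega))
  have h2 : 2 ≤ c := by omega
  rw [hc, mul_comm]
  exact Nat.mul_le_mul_left _ h2

theorem perm_three_NbGrp {Q : Type} [Group Q] [Finite Q] {M₁ M₂ M₃ K : Subgroup Q}
    (h₁ : M₁ < K) (h₂ : M₂ < K) (h₃ : M₃ < K) (hc : ∀ x ∈ K, x ∈ M₁ ∨ x ∈ M₂ ∨ x ∈ M₃) (g : Q) :
    2 * perm K g ≤ perm M₁ g + perm M₂ g + perm M₃ g := by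
  have e := card_perm_NbGrp K g
  have e₁ := card_perm_NbGrp M₁ g
  have e₂ := card_perm_NbGrp M₂ g
  have e₃ := card_perm_NbGrp M₃ g
  have c₁ := card_lt_NbGrp h₁
  have c₂ := card_lt_NbGrp h₂
  have c₃ := card_lt_NbGrp h₃
  have hsub : {x : Q | x⁻¹ * g * x ∈ K} ⊆
      ({x : Q | x⁻¹ * g * x ∈ M₁} ∪ {x : Q | x⁻¹ * g * x ∈ M₂}) ∪ {x : Q | x⁻¹ * g * x ∈ M₃} := by
    intro x hx
    rcases hc _ hx with h | h | h
    · exact Or.inl (Or.inl h)
    · exact Or.inl (Or.inr h)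
    · exact Or.inr h
  have u1 := Set.ncard_le_ncard hsub
  have u2 := Set.ncard_union_le ({x : Q | x⁻¹ * g * x ∈ M₁} ∪ {x : Q | x⁻¹ * g * x ∈ M₂})
    {x : Q | x⁻¹ * g * x ∈ M₃}
  have u3 := Set.ncard_union_le {x : Q | x⁻¹ * g * x ∈ M₁} {x : Q | x⁻¹ * g * x ∈ M₂}
  have hK : 0 < Nat.card K := Nat.card_pos
  refine Nat.le_of_mul_le_mul_left ?_ hK
  have d₁ := Nat.mul_le_mul_right (perm M₁ g) c₁
  have d₂ := Nat.mul_le_mul_right (perm M₂ g) c₂
  have d₃ := Nat.mul_le_mul_right (perm M₃ g) c₃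
  nlinarith

theorem ex_two_NbGrp {Q : Type} [Group Q] [Finite Q] (hQ : IsPGroup 2 Q) {A K : Subgroup Q}
    (hlt : A < K) : ∃ M : Subgroup Q, A ≤ M ∧ M < K ∧ Nat.card K = 2 * Nat.card M ∧
      ∀ a ∈ K, ∀ b ∈ K, (a * b ∈ M ↔ (a ∈ M ↔ b ∈ M)) := by
  have : Fact (Nat.Prime 2) := ⟨Nat.prime_two⟩
  obtain ⟨k, hk⟩ := IsPGroup.iff_card.mp (hQ.to_subgroup K)
  obtain ⟨j, hj⟩ := IsPGroup.iff_card.mp (hQ.to_subgroup A)
  have h2 := card_lt_NbGrp hlt
  rw [hk, hj, ← pow_succ'] at h2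
  have hjk : j + 1 ≤ k := (Nat.pow_le_pow_iff_right (by norm_num)).mp h2
  obtain ⟨k, rfl⟩ : ∃ k', k = k' + 1 := ⟨k - 1, by omega⟩
  have hA : Nat.card (A.subgroupOf K) = 2 ^ j := by
    rw [← hj]
    exact Nat.card_congr (Subgroup.subgroupOfEquivOfLe hlt.le).toEquiv
  obtain ⟨M, hM, hAM⟩ := Sylow.exists_subgroup_card_pow_prime_le (G := K) 2 (n := j) (m := k)
    (by rw [hk]; exact pow_dvd_pow 2 (Nat.le_succ k)) (A.subgroupOf K) hA (by omega)
  have hidx : M.index = 2 := by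
    have h := M.card_mul_index
    rw [hM, hk, pow_succ] at h
    exact Nat.eq_of_mul_eq_mul_left (by positivity) h
  have hmem : ∀ a (ha : a ∈ K), a ∈ M.map K.subtype ↔ (⟨a, ha⟩ : K) ∈ M := by
    intro a ha
    constructor
    · rintro ⟨y, hy, rfl⟩
      exact hy
    · intro h
      exact ⟨_, h, rfl⟩
  have hcard : Nat.card (M.map K.subtype) = 2 ^ k := by rw [Subgroup.card_subtype, hM]
  refine ⟨M.map K.subtype, ?_, ?_, ?_, ?_⟩
  · intro a ha
    exact (hmem a (hlt.le ha)).mpr (hAM ha)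
  · refine lt_of_le_of_ne (Subgroup.map_subtype_le M) ?_
    intro h
    rw [h, hk, pow_succ] at hcard
    have : 0 < 2 ^ k := by positivity
    omega
  · rw [hcard, hk, pow_succ']
  · intro a ha b hb
    rw [hmem a ha, hmem b hb, hmem (a * b) (K.mul_mem ha hb)]
    exact Subgroup.mul_mem_iff_of_index_two hidx (a := ⟨a, ha⟩) (b := ⟨b, hb⟩)

theorem third_NbGrp {Q : Type} [Group Q] {M₁ M₂ K : Subgroup Q} (h₁ : M₁ ≤ K) (h₂ : M₂ ≤ K)
    (hne : M₁ ≠ M₂) (m₁ : ∀ a ∈ K, ∀ b ∈ K, (a * b ∈ M₁ ↔ (a ∈ M₁ ↔ b ∈ M₁)))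
    (m₂ : ∀ a ∈ K, ∀ b ∈ K, (a * b ∈ M₂ ↔ (a ∈ M₂ ↔ b ∈ M₂))) :
    ∃ M₃ : Subgroup Q, M₃ < K ∧ ∀ x ∈ K, x ∈ M₁ ∨ x ∈ M₂ ∨ x ∈ M₃ := by
  let M₃ : Subgroup Q :=
    { carrier := {g | g ∈ K ∧ (g ∈ M₁ ↔ g ∈ M₂)}
      mul_mem' := by
        rintro a b ⟨ha, ha'⟩ ⟨hb, hb'⟩
        refine ⟨K.mul_mem ha hb, ?_⟩
        rw [m₁ a ha b hb, m₂ a ha b hb, ha', hb']
      one_mem' := ⟨K.one_mem, by simp⟩
      inv_mem' := by
        rintro a ⟨ha, ha'⟩
        exact ⟨K.inv_mem ha, by simpa using ha'⟩ }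
  have hm : ∀ g, g ∈ M₃ ↔ g ∈ K ∧ (g ∈ M₁ ↔ g ∈ M₂) := fun g => Iff.rfl
  refine ⟨M₃, lt_of_le_of_ne (fun g hg => ((hm g).mp hg).1) ?_, ?_⟩
  · intro h
    apply hne
    ext g
    by_cases hg : g ∈ K
    · exact ((hm g).mp (h ▸ hg)).2
    · exact ⟨fun h' => absurd (h₁ h') hg, fun h' => absurd (h₂ h') hg⟩
  · intro x hx
    by_cases a₁ : x ∈ M₁
    · exact Or.inl a₁
    by_cases a₂ : x ∈ M₂
    · exact Or.inr (Or.inl a₂)
    exact Or.inr (Or.inr ((hm x).mpr ⟨hx, by simp [a₁, a₂]⟩))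

theorem sub_small_NbGrp {Q : Type} [Group Q] [Finite Q] (hQ : IsPGroup 2 Q)
    (m : Subgroup Q → ℝ) (θ : ℝ) (hθ : θ < 1 / 5) (hd : ∀ H, m H ≤ θ ∨ |m H - 1| ≤ θ)
    (h2 : ∀ M H : Subgroup Q, M ≤ H → Nat.card H = 2 * Nat.card M → m M ≤ 2 * m H) :
    ∀ (n : ℕ) (H A : Subgroup Q), Nat.card H = n → A ≤ H → m H ≤ θ → m A ≤ θ := by
  intro n
  induction n using Nat.strong_induction_on with | _ n ih =>
  intro H A hn hle hH
  rcases hle.eq_or_lt with h | h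
  · rw [h]
    exact hH
  obtain ⟨M, hAM, hMH, hc, -⟩ := ex_two_NbGrp hQ h
  have hpos : 0 < Nat.card M := Nat.card_pos
  refine ih (Nat.card M) (by omega) M A rfl hAM ?_
  rcases hd M with h' | h'
  · exact h'
  · have := h2 M H hMH.le hc
    have := (abs_le.mp h').1
    linarith

theorem main_NbGrp {Q : Type} [Group Q] [Finite Q] (hQ : IsPGroup 2 Q)
    (m : Subgroup Q → ℝ) (θ : ℝ) (hθ : θ < 1 / 5) (hd : ∀ H, m H ≤ θ ∨ |m H - 1| ≤ θ)
    (h2 : ∀ M H : Subgroup Q, M ≤ H → Nat.card H = 2 * Nat.card M → m M ≤ 2 * m H)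
    (h3 : ∀ M₁ M₂ M₃ K : Subgroup Q, M₁ < K → M₂ < K → M₃ < K →
      (∀ x ∈ K, x ∈ M₁ ∨ x ∈ M₂ ∨ x ∈ M₃) → 2 * m K ≤ m M₁ + m M₂ + m M₃) :
    ∀ (n : ℕ) (K A B : Subgroup Q), Nat.card K = n → A ≤ K → B ≤ K →
      (∀ x ∈ K, ∃ a ∈ A, ∃ b ∈ B, a * b = x) → m A ≤ θ → m B ≤ θ → m K ≤ θ := by
  intro n
  induction n using Nat.strong_induction_on with | _ n ih =>
  intro K A B hn hA hB hAB sA sB
  rcases hA.eq_or_lt with h | hAK
  · rw [← h]
    exact sA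
  rcases hB.eq_or_lt with h | hBK
  · rw [← h]
    exact sB
  obtain ⟨M₁, hA₁, h₁, c₁, m₁⟩ := ex_two_NbGrp hQ hAK
  obtain ⟨M₂, hB₂, h₂, c₂, m₂⟩ := ex_two_NbGrp hQ hBK
  have p₁ : 0 < Nat.card M₁ := Nat.card_pos
  have p₂ : 0 < Nat.card M₂ := Nat.card_pos
  have s₁ : m M₁ ≤ θ := by
    refine ih (Nat.card M₁) (by omega) M₁ A (B ⊓ M₁) rfl hA₁ inf_le_right ?_ sA
      (sub_small_NbGrp hQ m θ hθ hd h2 _ B _ rfl inf_le_left sB)
    intro x hx
    obtain ⟨a, ha, b, hb, rfl⟩ := hAB x (h₁.le hx)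
    exact ⟨a, ha, b, ⟨hb, (M₁.mul_mem_cancel_left (hA₁ ha)).mp hx⟩, rfl⟩
  have s₂ : m M₂ ≤ θ := by
    refine ih (Nat.card M₂) (by omega) M₂ (A ⊓ M₂) B rfl inf_le_right hB₂ ?_
      (sub_small_NbGrp hQ m θ hθ hd h2 _ A _ rfl inf_le_left sA) sB
    intro x hx
    obtain ⟨a, ha, b, hb, rfl⟩ := hAB x (h₂.le hx)
    exact ⟨a, ⟨ha, (M₂.mul_mem_cancel_right (hB₂ hb)).mp hx⟩, b, hb, rfl⟩
  have hne : M₁ ≠ M₂ := by
    rintro rfl
    refine h₁.not_ge ?_
    intro x hx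
    obtain ⟨a, ha, b, hb, rfl⟩ := hAB x hx
    exact M₁.mul_mem (hA₁ ha) (hB₂ hb)
  obtain ⟨M₃, h₃, hc⟩ := third_NbGrp h₁.le h₂.le hne m₁ m₂
  have key := h3 M₁ M₂ M₃ K h₁ h₂ h₃ hc
  rcases hd K with h | h
  · exact h
  exfalso
  have k1 := (abs_le.mp h).1
  rcases hd M₃ with h' | h'
  · linarith
  · have := (abs_le.mp h').2
    linarith

theorem grp_stmt : GrpStmt := by
  intro G _ N hN hidx hpg σ w θ hw hsum hθ hd N₁ N₂ K₁ K₂ hN₁ hN₂ l₁ l₂ hsup k₁ k₂ s₁ s₂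
  have : N.FiniteIndex := ⟨hidx⟩
  have : Finite (G ⧸ N) := Subgroup.finite_quotient_of_finiteIndex
  let f : G →* G ⧸ N := QuotientGroup.mk' N
  have hf : Function.Surjective f := QuotientGroup.mk'_surjective N
  have hQ : IsPGroup 2 (G ⧸ N) := by
    intro y
    obtain ⟨g, rfl⟩ := hf y
    obtain ⟨k, hk⟩ := hpg g
    exact ⟨k, by rw [← map_pow]; exact (QuotientGroup.eq_one_iff _).mpr hk⟩
  let m : Subgroup (G ⧸ N) → ℝ := fun H => ∑' i, w i * perm H (f (σ i))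
  have hm : ∀ H : Subgroup (G ⧸ N), m H = ∑' i, w i * perm (H.comap f) (σ i) := by
    intro H
    simp only [m, perm_comap_NbGrp f hf]
  have hS : ∀ H : Subgroup (G ⧸ N), Summable fun i => w i * perm H (f (σ i)) := by
    intro H
    refine Summable.of_nonneg_of_le (fun i => mul_nonneg (hw i) (Nat.cast_nonneg _)) (fun i => ?_)
      (hsum.mul_right (Nat.card (G ⧸ N) : ℝ))
    exact mul_le_mul_of_nonneg_left (Nat.cast_le.mpr (perm_le_NbGrp H _)) (hw i)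
  have hcm : ∀ K : Subgroup G, N ≤ K → (K.map f).comap f = K := by
    intro K hK
    refine Subgroup.comap_map_eq_self ?_
    rw [QuotientGroup.ker_mk']
    exact hK
  have hd' : ∀ H, m H ≤ θ ∨ |m H - 1| ≤ θ := by
    intro H
    rw [hm]
    refine hd _ ?_
    intro g hg
    have : f g = 1 := (QuotientGroup.eq_one_iff _).mpr hg
    rw [Subgroup.mem_comap, this]
    exact H.one_mem
  have h2 : ∀ M H : Subgroup (G ⧸ N), M ≤ H → Nat.card H = 2 * Nat.card M → m M ≤ 2 * m H := by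
    intro M H hle hc
    simp only [m]
    rw [← tsum_mul_left]
    refine (hS M).tsum_le_tsum (fun i => ?_) ((hS H).mul_left 2)
    have : (perm M (f (σ i)) : ℝ) ≤ 2 * perm H (f (σ i)) := by
      exact_mod_cast perm_two_NbGrp hle hc (f (σ i))
    nlinarith [hw i]
  have h3 : ∀ M₁ M₂ M₃ K : Subgroup (G ⧸ N), M₁ < K → M₂ < K → M₃ < K →
      (∀ x ∈ K, x ∈ M₁ ∨ x ∈ M₂ ∨ x ∈ M₃) → 2 * m K ≤ m M₁ + m M₂ + m M₃ := by
    intro M₁ M₂ M₃ K h₁ h₂ h₃ hc
    simp only [m]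
    rw [← tsum_mul_left, ← (hS M₁).tsum_add (hS M₂), ← ((hS M₁).add (hS M₂)).tsum_add (hS M₃)]
    refine ((hS K).mul_left 2).tsum_le_tsum (fun i => ?_) (((hS M₁).add (hS M₂)).add (hS M₃))
    have : 2 * (perm K (f (σ i)) : ℝ) ≤
        perm M₁ (f (σ i)) + perm M₂ (f (σ i)) + perm M₃ (f (σ i)) := by
      exact_mod_cast perm_three_NbGrp h₁ h₂ h₃ hc (f (σ i))
    nlinarith [hw i]
  have fin := main_NbGrp hQ m θ hθ hd' h2 h3 _ ⊤ (K₁.map f) (K₂.map f) rfl le_top le_top ?_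
    (by rw [hm, hcm K₁ (l₁.trans k₁)]; exact s₁) (by rw [hm, hcm K₂ (l₂.trans k₂)]; exact s₂)
  · rw [hm, Subgroup.comap_top] at fin
    exact fin
  · intro y _
    obtain ⟨g, rfl⟩ := hf y
    have hg : g ∈ N₁ ⊔ N₂ := hsup ▸ Subgroup.mem_top g
    obtain ⟨a, ha, b, hb, rfl⟩ := Subgroup.mem_sup_of_normal_right.mp hg
    exact ⟨f a, ⟨a, k₁ ha, rfl⟩, f b, ⟨b, k₂ hb, rfl⟩, (map_mul f a b).symm⟩

end Pool.Agent.MP_f68ac8_nt.Nd

end

section

namespace Pool.Agent.MP_f68ac8_nt.Nd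
open NumberField Finset Filter
open MP_d64882_nt (cnt)
open scoped Topology BigOperators

theorem tail_NbCheb {w : ℕ → ℝ} {b : ℕ → ℂ} {n η : ℝ} (hn : 0 ≤ n) (hw : Summable w)
    (hb : ∀ l, ‖b l‖ ≤ n * w l) (A : Finset ℕ) (h : ∑' l, w l ≤ ∑ l ∈ A, w l + η) :
    ‖∑ l ∈ A, b l‖ ≤ ‖∑' l, b l‖ + n * η := by
  have h1 := (Summable.of_norm_bounded (hw.mul_left n) hb).sum_add_tsum_compl (s := A)
  have h2 := hw.sum_add_tsum_compl (s := A)
  have h3 := tsum_of_norm_bounded ((hw.subtype ((A : Set ℕ)ᶜ)).hasSum.mul_left n) fun l => hb l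
  rw [eq_sub_of_add_eq h1]
  refine (norm_sub_le _ _).trans (add_le_add_right (h3.trans
    (mul_le_mul_of_nonneg_left ?_ hn)) _)
  exact le_of_add_le_add_left (h2.trans_le h)

theorem tw_NbCheb (τ : ℝ) (l : ℕ) : ‖tw τ l‖ = 1 := by
  rw [tw, mul_assoc, ← Complex.ofReal_mul, Complex.norm_exp_I_mul_ofReal]

theorem sub_NbCheb {a b n : ℕ} (ha : a ≤ n) (hb : b ≤ n) : ‖(a : ℂ) - b‖ ≤ n := by
  have h1 : (a : ℝ) ≤ n := Nat.cast_le.2 ha
  have h2 : (b : ℝ) ≤ n := Nat.cast_le.2 hb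
  rw [← Complex.ofReal_natCast, ← Complex.ofReal_natCast b, ← Complex.ofReal_sub,
    Complex.norm_real, Real.norm_eq_abs, abs_sub_le_iff]
  constructor <;> linarith [Nat.cast_nonneg (α := ℝ) a, Nat.cast_nonneg (α := ℝ) b]

theorem cheb_stmt (hP : PsumStmt) (hW : WinStmt) (hD : DiscStmt) (hC : CountStmt)
    (hA : ArtinStmt) : ChebStmt := by
  intro n
  obtain ⟨Cd, hd1, hD⟩ := hD n
  obtain ⟨cw, hcw, hW⟩ := hW n
  obtain ⟨Ca, hCa, hA⟩ := hA n
  have hd0 : 0 < Cd := one_pos.trans_le hd1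
  refine ⟨cw / Cd, div_pos hcw hd0, fun k => ?_⟩
  obtain ⟨Cw, hCw, hW⟩ := hW k
  have hn : (0 : ℝ) ≤ n := n.cast_nonneg
  refine ⟨Ca * (Cw * Cd + n) + Cw, by positivity,
    fun R N hN M ρ h s τ η hM hρ hρ' hG hh hCh hs hs' hτ A σ hσ hη e φ hφ => ?_⟩
  obtain ⟨T, c, hT, hc, hc0, hφ⟩ := hA GQ N hN.nrm hN.idx.1 hN.idx.2 e φ hφ
  obtain ⟨h1, h2⟩ := hC n R N hN
  have hM1 : 1 ≤ M := le_trans
    (le_add_of_nonneg_right (sum_nonneg fun l _ => Real.log_natCast_nonneg l)) hM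
  have hw0 := fun l => (hP.2.1 s h k l hh.le).1
  have hw : Summable fun l => wl s h k l :=
    (hP.1 s hs).1.of_nonneg_of_le hw0 fun l => (hP.2.1 s h k l hh.le).2
  have hη0 : 0 ≤ η := by linarith [hw.sum_le_tsum A fun l _ => hw0 l]
  obtain ⟨E', _, hE'⟩ := h1 ⊤ le_top
  have hN' : N ≤ E'.fixingSubgroup := hE' ▸ le_top
  have hB : ∀ H ∈ T, ‖∑ l ∈ A, ((perm H (σ l) : ℂ) - cnt E' l) * (wl s h k l : ℝ) * tw τ l‖ ≤
      Cw * (Cd * M) * (h / ρ) ^ (k + 1) + n * η := fun H hH => by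
    obtain ⟨E, _, rfl⟩ := h1 H (hT H hH)
    have hE := hT _ hH
    rw [sum_congr rfl fun l hl => by rw [← h2 E hE l (hσ l hl).1 (hσ l hl).2.1 _ (hσ l hl).2.2]]
    refine (tail_NbCheb hn hw (fun l => ?_) A hη).trans (add_le_add_left (hW E E' (hD R N hN E hE).1
      (hD R N hN E' hN').1 _ ρ h s τ (one_le_mul_of_one_le_of_one_le hd1 hM1)
      ((hD R N hN E hE).2.trans (by gcongr)) ((hD R N hN E' hN').2.trans (by gcongr)) hρ
      (by rwa [← div_div]) (hG E hE) (hG E' hN') hh (le_trans (by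
        gcongr
        exact le_add_of_nonneg_left (by positivity)) hCh) hs hs'
      (hτ.trans (div_le_self hcw.le hd1))) _)
    rw [norm_mul, norm_mul, tw_NbCheb, mul_one, Complex.norm_real, Real.norm_of_nonneg (hw0 l)]
    by_cases hl : l.Prime
    · exact mul_le_mul_of_nonneg_right (sub_NbCheb (((hP.2.2 E).1 l hl).trans (hD R N hN E hE).1)
        (((hP.2.2 E').1 l hl).trans (hD R N hN E' hN').1)) (hw0 l)
    · rw [wl, if_neg hl, mul_zero, mul_zero]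
  have he : ∑ l ∈ A, (wl s h k l : ℝ) * tw τ l * 𝔼 a : Exm e, φ (σ l ^ (a.1 : ℕ)) =
      ∑ H ∈ T, c H * ∑ l ∈ A, ((perm H (σ l) : ℂ) - cnt E' l) * (wl s h k l : ℝ) * tw τ l := by
    simp only [mul_sum]
    rw [sum_comm]
    refine sum_congr rfl fun l _ => ?_
    rw [hφ, ← sub_zero (∑ H ∈ T, _), ← zero_mul (cnt E' l : ℂ), ← hc0, sum_mul,
      ← sum_sub_distrib, mul_sum]
    exact sum_congr rfl fun H _ => by ring
  have hq : 0 ≤ M * (h / ρ) ^ (k + 1) := by positivity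
  rw [he]
  refine (norm_sum_le_of_le _ fun H hH => norm_mul_le_of_le le_rfl (hB H hH)).trans ?_
  rw [← sum_mul]
  refine (mul_le_mul_of_nonneg_right hc (by positivity)).trans ?_
  rw [mul_assoc Cw, mul_assoc Cd]
  generalize M * (h / ρ) ^ (k + 1) = q at hq
  have : 0 ≤ Ca * (Cw * Cd * η + n * q) + Cw * (q + η) := by positivity
  linarith

end Pool.Agent.MP_f68ac8_nt.Nd

end

section

namespace Pool.Agent.MP_f68ac8_nt.Nd

open NumberField Finset Filter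
open MP_d64882_nt (cnt)
open scoped Topology BigOperators

open Classical in
theorem moeb_NbArtin {α : Type} [PartialOrder α] (f : α → ℂ) (hf : ∀ a, ‖f a‖ ≤ 1) (n : ℕ) :
    ∀ S : Finset α, S.card = n → ∃ c : α → ℂ, ∑ b ∈ S, ‖c b‖ + 1 ≤ 2 ^ n ∧
      ∀ a ∈ S, f a = ∑ b ∈ S, if a ≤ b then c b else 0 := by
  induction n with
  | zero =>
    intro S hS
    obtain rfl := card_eq_zero.1 hS
    exact ⟨0, by simp, fun a ha => absurd ha (notMem_empty a)⟩
  | succ n ih =>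
    intro S hS
    obtain ⟨m, hm⟩ := exists_minimal (card_pos.1 (hS ▸ n.succ_pos) : S.Nonempty)
    obtain ⟨c, h1, h2⟩ := ih (S.erase m) (by rw [card_erase_of_mem hm.1, hS]; rfl)
    obtain ⟨v, hv⟩ : ∃ v, v = f m - ∑ b ∈ S.erase m, if m ≤ b then c b else 0 := ⟨_, rfl⟩
    have e : ∀ b ∈ S.erase m, Function.update c m v b = c b := fun b hb =>
      Function.update_of_ne (ne_of_mem_erase hb) _ _
    refine ⟨Function.update c m v, ?_, fun a ha => ?_⟩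
    · rw [← add_sum_erase _ _ hm.1, Function.update_self, sum_congr rfl fun b hb => by rw [e b hb],
        pow_succ]
      have h3 : ‖v‖ ≤ 1 + ∑ b ∈ S.erase m, ‖c b‖ := by
        rw [hv]
        refine (norm_sub_le _ _).trans (add_le_add (hf m) (norm_sum_le_of_le _ fun b _ => ?_))
        split_ifs
        exacts [le_rfl, norm_zero.trans_le (norm_nonneg _)]
      linarith
    · rw [← add_sum_erase _ _ hm.1, Function.update_self, sum_congr rfl fun b hb => by rw [e b hb]]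
      by_cases h : a = m
      · rw [h, if_pos le_rfl, hv, sub_add_cancel]
      · rw [if_neg fun h' => h (le_antisymm h' (hm.2 ha h')), zero_add]
        exact h2 a (mem_erase.2 ⟨h, ha⟩)

theorem cop_NbArtin {m n b : ℕ} (hm : m ≠ 0) (hn : 0 < n) (h : b.Coprime m) :
    ∃ c, c.Coprime n ∧ c ≡ b [MOD m] := by
  obtain ⟨c, h1, h2, h3⟩ := Nat.forall_exists_prime_gt_and_modEq n hm h
  exact ⟨c, (Nat.Prime.coprime_iff_not_dvd h2).2 (Nat.not_dvd_of_pos_of_lt hn h1), h3⟩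

theorem norm_NbArtin {ι : Type} [Fintype ι] {g : ι → ℂ} (h : ∀ a, ‖g a‖ ≤ 1) :
    ‖𝔼 a, g a‖ ≤ 1 := by
  rcases (univ : Finset ι).eq_empty_or_nonempty with e | e
  · rw [e, expect_empty, norm_zero]
    exact zero_le_one
  · exact (RCLike.norm_expect_le (K := ℂ)).trans (expect_le e fun a _ => h a)

theorem comap_NbArtin {G Q : Type} [Group G] [Group Q] (π : G →* Q) (hπ : Function.Surjective π)
    (H : Subgroup Q) (g : G) : perm (H.comap π) g = perm H (π g) := by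
  let F : G ⧸ H.comap π → Q ⧸ H := Quotient.map' π fun x y h => by
    rw [QuotientGroup.leftRel_apply] at h ⊢
    rw [← map_inv, ← map_mul]
    exact h
  have hF : ∀ x : G, F (x : G ⧸ H.comap π) = (π x : Q ⧸ H) := fun _ => rfl
  have hi : Function.Injective F := by
    intro x y
    induction x using QuotientGroup.induction_on
    induction y using QuotientGroup.induction_on
    rw [hF, hF, QuotientGroup.eq, QuotientGroup.eq, ← map_inv, ← map_mul]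
    exact id
  have hs : Function.Surjective F := by
    intro y
    induction y using QuotientGroup.induction_on with
    | H y =>
      obtain ⟨x, rfl⟩ := hπ y
      exact ⟨x, rfl⟩
  refine Nat.card_congr ((Equiv.ofBijective F ⟨hi, hs⟩).subtypeEquiv fun x => ?_)
  induction x using QuotientGroup.induction_on
  rw [← hi.eq_iff, Equiv.ofBijective_apply, MulAction.Quotient.smul_coe, hF, hF,
    MulAction.Quotient.smul_coe, smul_eq_mul, smul_eq_mul, map_mul]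

section
variable {Γ : Type} [Group Γ] [Fintype Γ] {φ : Γ → ℂ} {e : ℕ}

theorem per_NbArtin (h : ∀ x : Γ, x ^ e = 1) (x : Γ) {a a' : ℕ} (ha : a ≡ a' [MOD e]) :
    x ^ a = x ^ a' :=
  pow_eq_pow_iff_modEq.2 (ha.of_dvd (orderOf_dvd_of_pow_eq_one (h x)))

theorem gen_NbArtin (he : 0 < e) (h : ∀ x : Γ, x ^ e = 1) {x y : Γ}
    (hxy : Subgroup.zpowers x = Subgroup.zpowers y) :
    𝔼 a : Exm e, φ (y ^ (a.1 : ℕ)) = 𝔼 a : Exm e, φ (x ^ (a.1 : ℕ)) := by
  obtain ⟨b, rfl⟩ := mem_powers_iff_mem_zpowers.2 (hxy ▸ Subgroup.mem_zpowers y)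
  have hb : b.Coprime (orderOf x) := mem_zpowers_pow_iff.1 (hxy ▸ Subgroup.mem_zpowers x)
  obtain ⟨c, hc, hcb⟩ := cop_NbArtin (orderOf_pos x).ne' he hb
  have e1 : x ^ b = x ^ c := pow_eq_pow_iff_modEq.2 hcb.symm
  let π : Exm e → Exm e := fun a => ⟨⟨c * a.1 % e, Nat.mod_lt _ he⟩, by
    have := Nat.Coprime.mul_left hc a.2
    rwa [Nat.Coprime, Nat.gcd_comm, Nat.gcd_rec] at this⟩
  have hπ : Function.Injective π := fun a a' h => by
    have h1 : c * a.1 ≡ c * a'.1 [MOD e] := congrArg (fun z : Exm e => (z.1 : ℕ)) h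
    exact Subtype.ext (Fin.ext (Nat.ModEq.eq_of_lt_of_lt
      (Nat.ModEq.cancel_left_of_coprime hc.symm h1) a.1.2 a'.1.2))
  refine Fintype.expect_bijective π (Finite.injective_iff_bijective.1 hπ) _ _ fun a => ?_
  simp only [e1, ← pow_mul]
  exact congrArg φ (per_NbArtin h x (Nat.mod_modEq _ _).symm)

theorem zero_NbArtin (he : 0 < e) (h : ∀ x : Γ, x ^ e = 1) (h0 : ∑ x, φ x = 0) :
    ∑ x, 𝔼 a : Exm e, φ (x ^ (a.1 : ℕ)) = 0 := by
  have h3 : ∀ a : Exm e, ∑ x, φ (x ^ (a.1 : ℕ)) = 0 := fun a => by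
    obtain ⟨c, hc, hca⟩ := cop_NbArtin he.ne' (Nat.card_pos (α := Γ)) a.2
    exact (Fintype.sum_equiv (powCoprime hc.symm) _ _ fun x =>
      congrArg φ (per_NbArtin h x hca.symm)).trans h0
  rw [← expect_sum_comm]
  simp only [h3, expect_const_zero]

open Classical in
theorem count_NbArtin (H : Subgroup Γ) (g : Γ) :
    (univ.filter fun x => x⁻¹ * g * x ∈ H).card = perm H g * Nat.card H := by
  have h := MP_d64882_nt.card_smul_base (G := Γ) ((1 : Γ) : Γ ⧸ H)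
    (MulAction.exists_smul_eq Γ _) fun y => g • y = y
  rw [MulAction.stabilizer_quotient] at h
  rw [perm, ← h, Nat.card_eq_fintype_card, Fintype.card_subtype]
  refine congrArg card (filter_congr fun x _ => ?_)
  rw [MulAction.Quotient.smul_coe, MulAction.Quotient.smul_coe, eq_comm, QuotientGroup.eq]
  simp only [smul_eq_mul, mul_one, mul_assoc]

open Classical in
theorem fin_NbArtin {ψ : Γ → ℂ} (h1 : ∀ g, ‖ψ g‖ ≤ 1) (h2 : ∀ x g, ψ (x⁻¹ * g * x) = ψ g)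
    (h3 : ∀ x y, Subgroup.zpowers x = Subgroup.zpowers y → ψ y = ψ x) (h4 : ∑ x, ψ x = 0) :
    ∃ c : Subgroup Γ → ℂ, ∑ H, ‖c H‖ ≤ 2 ^ 2 ^ Nat.card Γ ∧ ∑ H, c H = 0 ∧
      ∀ g, ψ g = ∑ H, c H * perm H g := by
  obtain ⟨c, c1, c2⟩ := moeb_NbArtin
    (fun K : Subgroup Γ => if h : ∃ g, Subgroup.zpowers g = K then ψ h.choose else 0)
    (fun K => by
      split_ifs
      exacts [h1 _, norm_zero.trans_le zero_le_one]) _ univ rfl
  have c3 : ∀ g, ψ g = ∑ H, if g ∈ H then c H else 0 := fun g => by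
    have h : ∃ g', Subgroup.zpowers g' = Subgroup.zpowers g := ⟨g, rfl⟩
    have h5 := c2 (Subgroup.zpowers g) (mem_univ _)
    rw [dif_pos h, ← h3 _ _ h.choose_spec] at h5
    simpa only [Subgroup.zpowers_le] using h5
  have hQ : (0 : ℝ) < Nat.card Γ := Nat.cast_pos.2 Nat.card_pos
  have hQ' : (Nat.card Γ : ℂ) ≠ 0 := Nat.cast_ne_zero.2 Nat.card_pos.ne'
  refine ⟨fun H => c H * Nat.card H / Nat.card Γ, ?_, ?_, fun g => ?_⟩
  · have k1 : (univ : Finset (Subgroup Γ)).card ≤ 2 ^ Nat.card Γ := by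
      rw [card_univ, Nat.card_eq_fintype_card, ← Fintype.card_set]
      exact Fintype.card_le_of_injective _ SetLike.coe_injective
    have k2 : ∑ H : Subgroup Γ, ‖c H * Nat.card H / Nat.card Γ‖ ≤ ∑ H, ‖c H‖ :=
      sum_le_sum fun H _ => by
        rw [norm_div, norm_mul, Complex.norm_natCast, Complex.norm_natCast, div_le_iff₀ hQ]
        exact mul_le_mul_of_nonneg_left (Nat.cast_le.2 (Subgroup.card_le_card_group H))
          (norm_nonneg _)
    linarith [pow_le_pow_right₀ (one_le_two (α := ℝ)) k1]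
  · rw [sum_congr rfl fun g _ => c3 g, sum_comm] at h4
    rw [← sum_div, div_eq_zero_iff]
    refine Or.inl (Eq.trans (sum_congr rfl fun H _ => ?_) h4)
    rw [← sum_filter, sum_const, nsmul_eq_mul, mul_comm, Nat.card_eq_fintype_card,
      Fintype.card_subtype]
  · have k1 : (Nat.card Γ : ℂ) * ψ g = ∑ x, ψ (x⁻¹ * g * x) := by
      simp only [h2, sum_const, card_univ, nsmul_eq_mul, Nat.card_eq_fintype_card]
    rw [sum_congr rfl fun x _ => c3 _, sum_comm] at k1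
    refine mul_left_cancel₀ hQ' (k1.trans ?_)
    rw [mul_sum]
    refine sum_congr rfl fun H _ => ?_
    rw [← sum_filter, sum_const, nsmul_eq_mul, count_NbArtin, Nat.cast_mul]
    field_simp

end

theorem artin_stmt : ArtinStmt := by
  classical
  refine fun n => ⟨2 ^ 2 ^ n, by positivity, fun G _ N hN h0 hn e φ hφ => ?_⟩
  have : Finite (G ⧸ N) := Nat.finite_of_card_ne_zero h0
  have := Fintype.ofFinite (G ⧸ N)
  have hπ := QuotientGroup.mk'_surjective N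
  let φ' : G ⧸ N → ℂ := fun q => φ q.out
  have e1 : ∀ g : G, φ' (QuotientGroup.mk' N g) = φ g := fun g => by
    obtain ⟨m, hm⟩ := QuotientGroup.mk_out_eq_mul N g
    change φ (g : G ⧸ N).out = φ g
    rw [hm, ← hφ.inv _ (hN.conj_mem _ m.2 g) g, inv_mul_cancel_right]
  have e2 : ∀ x : G ⧸ N, x ^ e = 1 := fun x => by
    obtain ⟨g, rfl⟩ := hπ x
    rw [← map_pow]
    exact (QuotientGroup.eq_one_iff _).2 (hφ.pow g)
  have e3 : ∑ x, φ' x = 0 := by
    obtain ⟨z, ε, hε, hz⟩ := hφ.sh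
    have k : ∑ x, φ' x = ε * ∑ x, φ' x := by
      rw [mul_sum, ← Equiv.sum_comp (Equiv.mulLeft (QuotientGroup.mk' N z))]
      refine sum_congr rfl fun x _ => ?_
      obtain ⟨g, rfl⟩ := hπ x
      change φ' (QuotientGroup.mk' N z * QuotientGroup.mk' N g) = _
      rw [← map_mul, e1, e1, hz]
    by_contra h
    exact hε ((mul_left_eq_self₀.1 k.symm).resolve_right h)
  obtain ⟨c, c1, c2, c3⟩ := fin_NbArtin (ψ := fun x => 𝔼 a : Exm e, φ' (x ^ (a.1 : ℕ)))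
    (fun _ => norm_NbArtin fun _ => hφ.le _)
    (fun x g => expect_congr rfl fun a _ => by
      obtain ⟨x, rfl⟩ := hπ x
      obtain ⟨g, rfl⟩ := hπ g
      rw [← map_inv, ← map_mul, ← map_mul, ← map_pow, ← map_pow, e1, e1,
        ← hφ.cls x⁻¹ (g ^ (a.1 : ℕ)), ← conj_pow, inv_inv])
    (fun _ _ h => gen_NbArtin hφ.pos e2 h) (zero_NbArtin hφ.pos e2 e3)
  refine ⟨univ.map ⟨Subgroup.comap (QuotientGroup.mk' N), Subgroup.comap_injective hπ⟩,
    fun H => c (H.map (QuotientGroup.mk' N)), fun H hH => ?_, ?_, ?_, fun g => ?_⟩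
  · obtain ⟨K, -, rfl⟩ := mem_map.1 hH
    exact QuotientGroup.le_comap_mk' N K
  · simp only [sum_map, Function.Embedding.coeFn_mk, Subgroup.map_comap_eq_self_of_surjective hπ]
    exact c1.trans (pow_le_pow_right₀ one_le_two (Nat.pow_le_pow_right two_pos hn))
  · simpa only [sum_map, Function.Embedding.coeFn_mk,
      Subgroup.map_comap_eq_self_of_surjective hπ] using c2
  · simp only [sum_map, Function.Embedding.coeFn_mk, Subgroup.map_comap_eq_self_of_surjective hπ,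
      comap_NbArtin _ hπ, ← c3, ← map_pow, e1]

end Pool.Agent.MP_f68ac8_nt.Nd

end

section

namespace Pool.Agent.MP_f68ac8_nt.Nd
open NumberField Finset Filter
open MP_d64882_nt (cnt)
open scoped Topology BigOperators

lemma good_mono_NbSel {E : Type} [Field E] [NumberField E] {ρ ρ' : ℝ} (h : Good E ρ)
    (hρ : ρ' ≤ ρ) : Good E ρ' := fun s hs => h s (hs.trans hρ)

lemma good_ev_NbSel (hC : ContStmt) (E : Type) [Field E] [NumberField E] :
    ∀ᶠ ρ in 𝓝[>] (0 : ℝ), Good E ρ := by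
  obtain ⟨C, hC⟩ := hC (dE E)
  obtain ⟨hd, -, -, h1⟩ := hC E le_rfl
  have hpos : (0 : ℝ) < dE E := by exact_mod_cast Module.finrank_pos
  have hopen : IsOpen {s : ℂ | 1 - 1 / (dE E : ℝ) < s.re} :=
    isOpen_lt continuous_const Complex.continuous_re
  have hmem : (1 : ℂ) ∈ {s : ℂ | 1 - 1 / (dE E : ℝ) < s.re} := by
    have : 0 < 1 / (dE E : ℝ) := by positivity
    show 1 - 1 / (dE E : ℝ) < (1 : ℂ).re
    rw [Complex.one_re]
    linarith
  have hc : ContinuousAt (FE E) 1 := (hd.differentiableAt (hopen.mem_nhds hmem)).continuousAt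
  obtain ⟨ε, hε, hb⟩ := Metric.eventually_nhds_iff.1 (hc.eventually_ne h1)
  filter_upwards [Ioo_mem_nhdsGT hε] with ρ hρ s hs
  refine hb ?_
  rw [dist_eq_norm]
  exact hs.trans_lt hρ.2

theorem exc_stmt (hC : ContStmt) : ExcStmt := by
  intro B
  have hfin := NumberField.finite_of_discr_bdd Qa ⌈Real.exp B⌉₊
  have hev : ∀ᶠ ρ in 𝓝[>] (0 : ℝ),
      ∀ K ∈ {K : {F : IntermediateField ℚ Qa // FiniteDimensional ℚ F} |
        haveI : NumberField K := @NumberField.mk _ _ inferInstance K.prop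
        |discr K| ≤ (⌈Real.exp B⌉₊ : ℕ)},
        @Good K _ (@NumberField.mk _ _ inferInstance K.prop) ρ :=
    (hfin.eventually_all).2 fun K _ =>
      @good_ev_NbSel hC K _ (@NumberField.mk _ _ inferInstance K.prop)
  obtain ⟨ρ, hρ, hpos⟩ := (hev.and self_mem_nhdsWithin).exists
  refine ⟨ρ, hpos, fun E hE hB => ?_⟩
  refine hρ ⟨E, hE.to_finiteDimensional⟩ ?_
  show |discr E| ≤ (⌈Real.exp B⌉₊ : ℕ)
  have h0 : (0 : ℝ) < |(discr E : ℝ)| := abs_pos.2 (by exact_mod_cast discr_ne_zero E)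
  have h1 : Bd E ≤ Real.exp B := by
    have : 0 < Bd E := by unfold Bd; positivity
    exact (Real.log_le_iff_le_exp this).1 hB
  have h2 : |(discr E : ℝ)| ≤ (⌈Real.exp B⌉₊ : ℕ) := by
    have := Nat.le_ceil (Real.exp B)
    unfold Bd at h1
    linarith
  exact_mod_cast h2

lemma sup_top_NbSel {n : ℕ} {R R₀ : Finset ℕ} {N N₀ : Subgroup GQ} (h : Ad2 n R N)
    (h₀ : Ad2 n R₀ N₀) (hd : Disjoint R R₀) : N ⊔ N₀ = ⊤ := by
  have := h.nrm
  have := h₀.nrm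
  refine eq_top_of_open (N ⊔ N₀) (mem_of_superset h.nhds (le_sup_left : N ≤ N ⊔ N₀)) ?_
  intro P hP g hg
  by_cases hR : ∀ l ∈ R, (l : 𝓞 Qa) ∉ P
  · exact (le_sup_left : N ≤ N ⊔ N₀) (h.unr P hP hR g hg)
  · simp only [not_forall, not_not] at hR
    obtain ⟨l, hl, hlP⟩ := hR
    refine (le_sup_right : N₀ ≤ N ⊔ N₀) (h₀.unr P hP (fun l' hl' => ?_) g hg)
    refine not_mem_of_coprime hlP ((Nat.coprime_primes (h.pri l hl) (h₀.pri l' hl')).2 ?_)
    rintro rfl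
    exact Finset.disjoint_left.1 hd hl hl'

lemma sup_two_NbSel {G : Type} [Group G] {N N₀ : Subgroup G} (h0 : N₀.index ≠ 0)
    (h2 : N₀.index ≤ 2) (hn : ¬ N ≤ N₀) : N ⊔ N₀ = ⊤ := by
  have h1 := Subgroup.relIndex_mul_index (le_sup_right : N₀ ≤ N ⊔ N₀)
  have h3 : N₀.relIndex (N ⊔ N₀) ≠ 1 := fun h =>
    hn (le_sup_left.trans (Subgroup.relIndex_eq_one.1 h))
  rw [← Subgroup.index_eq_one]
  have ha : N₀.relIndex (N ⊔ N₀) ≠ 0 := fun h => h0 (by rw [← h1, h, zero_mul])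
  have hb : (N ⊔ N₀).index ≠ 0 := fun h => h0 (by rw [← h1, h, mul_zero])
  by_contra hc
  have h4 : 2 ≤ N₀.relIndex (N ⊔ N₀) := by omega
  have h5 : 2 ≤ (N ⊔ N₀).index := by omega
  have := Nat.mul_le_mul h4 h5
  omega

lemma sz_le_NbSel (R : Finset ℕ) (p : ℕ) (hR : ∀ l ∈ R, l < p) : sz R ≤ sz (range p) := by
  unfold sz
  have : ∑ l ∈ R, Real.log l ≤ ∑ l ∈ range p, Real.log l :=
    Finset.sum_le_sum_of_subset_of_nonneg (fun l hl => mem_range.2 (hR l hl))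
      fun l _ _ => Real.log_natCast_nonneg l
  linarith

theorem sel_stmt (hD : DiscStmt) (hE : ExcStmt) (hR : RepStmt) : SelStmt := by
  refine ⟨fun n => ?_, ?_⟩
  · obtain ⟨c, hc, hR⟩ := hR n
    refine ⟨c, hc, fun M ρ r hρ => ?_⟩
    by_cases hbad : ∃ R₀ N₀, Ad2 n R₀ N₀ ∧ R₀.card ≤ r ∧ sz R₀ ≤ M ∧ ¬ GoodN N₀ ρ
    · obtain ⟨R₀, N₀, h₀, hr, hM, hb⟩ := hbad
      refine ⟨R₀, hr, fun R N h _ hs hd => ?_⟩
      exact (hR R R₀ N N₀ h h₀ (sup_top_NbSel h h₀ hd) M ρ hs hM hρ).resolve_right hb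
    · refine ⟨∅, by simp, fun R N h hr hs _ => ?_⟩
      by_contra hb
      exact hbad ⟨R, N, h, hr, hs, hb⟩
  · obtain ⟨c, hc, hR⟩ := hR 2
    obtain ⟨C, hC, hD⟩ := hD 2
    refine ⟨c, hc, fun p => ?_⟩
    obtain ⟨ρ₀, hρ₀, hE⟩ := hE (C * sz (range p))
    refine ⟨ρ₀, hρ₀, fun M ρ hρ hρ' => ?_⟩
    by_cases hbad : ∃ R₀ N₀, Ad2 2 R₀ N₀ ∧ sz R₀ ≤ M ∧ ¬ GoodN N₀ ρ
    · obtain ⟨R₀, N₀, h₀, hM, hb⟩ := hbad
      have hex : ∃ p₀ : ℕ, p ≤ p₀ ∧ p₀.Prime ∧ ∃ P : Ideal (𝓞 Qa), P.IsMaximal ∧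
          (p₀ : 𝓞 Qa) ∈ P ∧ ∃ g ∈ P.inertia GQ, g ∉ N₀ := by
        by_contra hne
        apply hb
        have hA : Ad2 2 (R₀.filter (· < p)) N₀ := by
          refine ⟨fun l hl => h₀.pri l (mem_filter.1 hl).1, h₀.nrm, h₀.nhds, h₀.idx, h₀.pg, ?_⟩
          intro P hP hl g hg
          by_contra hgN
          refine hgN (h₀.unr P hP (fun l hlR hlP => ?_) g hg)
          by_cases hlp : l < p
          · exact hl l (mem_filter.2 ⟨hlR, hlp⟩) hlP
          · exact hne ⟨l, not_lt.1 hlp, h₀.pri l hlR, P, hP, hlP, g, hg, hgN⟩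
        intro E _ hle
        refine good_mono_NbSel (hE E ((hD _ _ hA E hle).2.trans ?_)) hρ'
        exact mul_le_mul_of_nonneg_left (sz_le_NbSel _ p fun l hl => (mem_filter.1 hl).2)
          (by linarith)
      obtain ⟨p₀, hp, hpp, P, hP, hpP, g, hg, hgN⟩ := hex
      refine ⟨p₀, hp, fun R N h hs hp₀ => ?_⟩
      have hgN' : g ∈ N := by
        refine h.unr P hP (fun l hl => ?_) g hg
        refine not_mem_of_coprime hpP ((Nat.coprime_primes hpp (h.pri l hl)).2 ?_)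
        rintro rfl
        exact hp₀ hl
      have htop : N ⊔ N₀ = ⊤ := sup_two_NbSel h₀.idx.1 h₀.idx.2 fun hle => hgN (hle hgN')
      exact (hR R R₀ N N₀ h h₀ htop M ρ hs hM hρ).resolve_right hb
    · refine ⟨p, le_rfl, fun R N h hs _ => ?_⟩
      by_contra hb
      exact hbad ⟨R, N, h, hs, hb⟩

end Pool.Agent.MP_f68ac8_nt.Nd

end
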