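import Mathlib
import Pool.Agent.MP_f68ac8_nt.Mat

set_option linter.all false

section

/-! Ultrametric estimates and the reduction map. -/

namespace Pool.Agent.MP_f68ac8_nt

open Matrix
open scoped Topology NNReal

variable {K : Type} [NormedField K] [IsUltrametricDist K]

lemma le_add {x y : K} {c : ℝ} (hx : ‖x‖ ≤ c) (hy : ‖y‖ ≤ c) : ‖x + y‖ ≤ c :=
  (IsUltrametricDist.norm_add_le_max x y).trans (max_le hx hy)

lemma le_sub {x y : K} {c : ℝ} (hx : ‖x‖ ≤ c) (hy : ‖y‖ ≤ c) : ‖x - y‖ ≤ c := by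
  rw [sub_eq_add_neg]
  exact le_add hx (by rwa [norm_neg])

lemma lt_add {x y : K} {c : ℝ} (hx : ‖x‖ < c) (hy : ‖y‖ < c) : ‖x + y‖ < c :=
  (IsUltrametricDist.norm_add_le_max x y).trans_lt (max_lt hx hy)

lemma lt_sub {x y : K} {c : ℝ} (hx : ‖x‖ < c) (hy : ‖y‖ < c) : ‖x - y‖ < c := by
  rw [sub_eq_add_neg]
  exact lt_add hx (by rwa [norm_neg])

omit [IsUltrametricDist K] in
lemma le_mul {x y : K} (hx : ‖x‖ ≤ 1) (hy : ‖y‖ ≤ 1) : ‖x * y‖ ≤ 1 := by
  rw [norm_mul]
  exact mul_le_one₀ hx (norm_nonneg _) hy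

omit [IsUltrametricDist K] in
lemma lt_mul_le {x y : K} (hx : ‖x‖ < 1) (hy : ‖y‖ ≤ 1) : ‖x * y‖ < 1 := by
  rw [norm_mul]
  exact mul_lt_one_of_nonneg_of_lt_one_left (norm_nonneg _) hx hy

omit [IsUltrametricDist K] in
lemma le_mul_lt {x y : K} (hx : ‖x‖ ≤ 1) (hy : ‖y‖ < 1) : ‖x * y‖ < 1 := by
  rw [mul_comm]
  exact lt_mul_le hy hx

lemma le_nat (n : ℕ) : ‖(n : K)‖ ≤ 1 := IsUltrametricDist.norm_natCast_le_one K n

lemma norm_eq_one_of_sub {x y : K} (hy : ‖y‖ = 1) (h : ‖x - y‖ < 1) : ‖x‖ = 1 := by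
  have : x = (x - y) + y := by ring
  rw [this, IsUltrametricDist.norm_add_eq_max_of_norm_ne_norm (by rw [hy]; exact h.ne), hy]
  exact max_eq_right h.le

lemma le_of_sub {x y : K} (hy : ‖y‖ ≤ 1) (h : ‖x - y‖ < 1) : ‖x‖ ≤ 1 := by
  have : x = (x - y) + y := by ring
  rw [this]
  exact le_add h.le hy

lemma norm_nat_eq_one {p : ℕ} (hK : ‖(p : K)‖ < 1) {n : ℕ} (hn : p.Coprime n) : ‖(n : K)‖ = 1 := by
  refine le_antisymm (le_nat n) (not_lt.mp fun h => ?_)
  obtain ⟨a, b, hab⟩ := Nat.Coprime.isCoprime hn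
  have := congrArg (Int.cast : ℤ → K) hab
  push_cast at this
  have h2 := lt_add (le_mul_lt (IsUltrametricDist.norm_intCast_le_one K a) hK)
    (le_mul_lt (IsUltrametricDist.norm_intCast_le_one K b) h)
  rw [this, norm_one] at h2
  exact lt_irrefl _ h2

lemma norm_pow_sub_one {t : K} (ht : ‖t - 1‖ < 1) {n : ℕ} (hn : ‖(n : K)‖ = 1) :
    ‖t ^ n - 1‖ = ‖t - 1‖ := by
  have ht1 : ‖t‖ ≤ 1 := le_of_sub norm_one.le ht
  have : ∀ n : ℕ, ‖∑ i ∈ Finset.range n, t ^ i - n‖ < 1 ∧ ‖t ^ n - 1‖ < 1 := by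
    intro n
    induction n with
    | zero => simp
    | succ n ih =>
      constructor
      · rw [Finset.sum_range_succ]
        convert lt_add ih.1 ih.2 using 2
        push_cast
        ring
      · convert lt_add (lt_mul_le ih.2 ht1) ht using 2
        ring
  rw [← geom_sum_mul, norm_mul, norm_eq_one_of_sub hn (this n).1, one_mul]

/-- a reduction map to the residue field -/
structure Red (K F : Type) [NormedField K] [Field F] where
  r : K → F
  add : ∀ {x y}, ‖x‖ ≤ 1 → ‖y‖ ≤ 1 → r (x + y) = r x + r y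
  mul : ∀ {x y}, ‖x‖ ≤ 1 → ‖y‖ ≤ 1 → r (x * y) = r x * r y
  one : r 1 = 1
  zero_iff : ∀ {x}, ‖x‖ ≤ 1 → (r x = 0 ↔ ‖x‖ < 1)

variable (K) in
lemma exists_red : ∃ (F : Type) (_ : Field F), Nonempty (Red K F) := by
  classical
  let v : Valuation K ℝ≥0 := NormedField.valuation
  have hv : ∀ x, x ∈ v.valuationSubring ↔ ‖x‖ ≤ 1 := fun x => by
    rw [Valuation.mem_valuationSubring_iff]
    rfl
  let π := IsLocalRing.residue v.valuationSubring
  let r : K → IsLocalRing.ResidueField v.valuationSubring := fun x =>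
    if h : ‖x‖ ≤ 1 then π ⟨x, (hv x).mpr h⟩ else 0
  have hr : ∀ x (h : ‖x‖ ≤ 1), r x = π ⟨x, (hv x).mpr h⟩ := fun x h => dif_pos h
  refine ⟨_, inferInstance, ⟨⟨r, fun hx hy => ?_, fun hx hy => ?_, ?_, fun hx => ?_⟩⟩⟩
  · rw [hr _ hx, hr _ hy, hr _ (le_add hx hy), ← map_add]
    rfl
  · rw [hr _ hx, hr _ hy, hr _ (le_mul hx hy), ← map_mul]
    rfl
  · rw [hr _ norm_one.le]
    exact map_one π
  · rw [hr _ hx, IsLocalRing.residue_eq_zero_iff, Valuation.mem_maximalIdeal_iff]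
    rfl

namespace Red
variable {F : Type} [Field F] (R : Red K F)

omit [IsUltrametricDist K] in
lemma zero : R.r 0 = 0 := (R.zero_iff (by simp)).mpr (by simp)

lemma sub {x y : K} (hx : ‖x‖ ≤ 1) (hy : ‖y‖ ≤ 1) : R.r (x - y) = R.r x - R.r y := by
  rw [eq_sub_iff_add_eq, ← R.add (le_sub hx hy) hy, sub_add_cancel]

lemma eq_iff {x y : K} (hx : ‖x‖ ≤ 1) (hy : ‖y‖ ≤ 1) : R.r x = R.r y ↔ ‖x - y‖ < 1 := by
  rw [← R.zero_iff (le_sub hx hy), R.sub hx hy, sub_eq_zero]

lemma nat (n : ℕ) : R.r n = n := by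
  induction n with
  | zero => simpa using R.zero
  | succ n ih => rw [Nat.cast_succ, R.add (le_nat n) norm_one.le, ih, R.one, Nat.cast_succ]

include R in
lemma charP {p : ℕ} [hp : Fact p.Prime] (hK : ‖(p : K)‖ < 1) : CharP F p := by
  rw [CharP.charP_iff_prime_eq_zero hp.out, ← R.nat, R.zero_iff (le_nat p)]
  exact hK

/-- integral matrices -/
def IntM (M : M2 K) : Prop := ∀ i j, ‖M i j‖ ≤ 1

omit [IsUltrametricDist K] in
lemma IntM.smul {M : M2 K} {c : K} (hc : ‖c‖ ≤ 1) (hM : IntM M) : IntM (c • M) :=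
  fun i j => le_mul hc (hM i j)

lemma IntM.mul {M N : M2 K} (hM : IntM M) (hN : IntM N) : IntM (M * N) := fun i j => by
  rw [mul_apply, Fin.sum_univ_two]
  exact le_add (le_mul (hM _ _) (hN _ _)) (le_mul (hM _ _) (hN _ _))

lemma IntM.sub {M N : M2 K} (hM : IntM M) (hN : IntM N) : IntM (M - N) := fun i j =>
  le_sub (hM i j) (hN i j)

lemma map_mul {M N : M2 K} (hM : IntM M) (hN : IntM N) :
    (M * N).map R.r = M.map R.r * N.map R.r := by
  ext i j
  simp only [map_apply, mul_apply, Fin.sum_univ_two]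
  rw [R.add (le_mul (hM _ _) (hN _ _)) (le_mul (hM _ _) (hN _ _)), R.mul (hM _ _) (hN _ _),
    R.mul (hM _ _) (hN _ _)]

lemma map_sub {M N : M2 K} (hM : IntM M) (hN : IntM N) :
    (M - N).map R.r = M.map R.r - N.map R.r := by
  ext i j
  exact R.sub (hM i j) (hN i j)

omit [IsUltrametricDist K] in
lemma map_smul {M : M2 K} {c : K} (hc : ‖c‖ ≤ 1) (hM : IntM M) :
    (c • M).map R.r = R.r c • M.map R.r := by
  ext i j
  exact R.mul hc (hM i j)

omit [IsUltrametricDist K] in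
lemma map_zero : (0 : M2 K).map R.r = 0 := by
  ext i j
  exact R.zero

end Red

variable [CharZero K]

/-- residually trivial matrices -/
structure RT (M : M2 K) : Prop where
  t : ‖tt M - 1‖ < 1
  d : ‖BB M M / 2‖ < 1

lemma RT.pow {M : M2 K} (h : RT M) (n : ℕ) :
    ∃ a b : K, ‖a - 1‖ < 1 ∧ ‖b - n‖ < 1 ∧ M ^ n = a • (1 : M2 K) + b • XX M := by
  have ht1 : ‖tt M‖ ≤ 1 := le_of_sub norm_one.le h.t
  induction n with
  | zero => exact ⟨1, 0, by simp, by simp, by simp⟩
  | succ n ih =>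
    obtain ⟨a, b, ha, hb, e⟩ := ih
    have hb1 : ‖b‖ ≤ 1 := le_of_sub (le_nat n) hb
    refine ⟨_, _, ?_, ?_, by rw [pow_succ, e, lin_mul]⟩
    · convert lt_add (lt_add (lt_mul_le ha ht1) h.t) (le_mul_lt hb1 h.d) using 2
      ring
    · convert lt_add (lt_add ha (lt_mul_le hb ht1)) (le_mul_lt (le_nat n) h.t) using 2
      push_cast
      ring

lemma RT.norm_XX_pow {M : M2 K} (h : RT M) {n : ℕ} (hn : ‖(n : K)‖ = 1) (i j : Fin 2) :
    ‖XX (M ^ n) i j‖ = ‖XX M i j‖ := by
  obtain ⟨a, b, -, hb, e⟩ := h.pow n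
  rw [e, XX_lin, Matrix.smul_apply, smul_eq_mul, norm_mul, norm_eq_one_of_sub hn hb, one_mul]

omit [IsUltrametricDist K] in
lemma tt_pow_of_XX {M : M2 K} (h : XX M = 0) (n : ℕ) : tt (M ^ n) = tt M ^ n := by
  have : M = tt M • (1 : M2 K) := by
    have := tt_add_XX M
    rw [h, add_zero] at this
    exact this.symm
  conv_lhs => rw [this, smul_pow, one_pow]
  simp [tt]

lemma RT.eq_one_of_pow {M : M2 K} (h : RT M) {n : ℕ} (hn : ‖(n : K)‖ = 1) (e : M ^ n = 1) :
    M = 1 := by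
  have h1 : XX M = 0 := by
    ext i j
    have := h.norm_XX_pow hn i j
    rw [e, XX_one] at this
    simpa using this.symm
  have h2 := norm_pow_sub_one h.t hn
  rw [← tt_pow_of_XX h1, e, tt_one, sub_self, norm_zero, eq_comm, norm_eq_zero, sub_eq_zero] at h2
  rw [← tt_add_XX M, h1, h2]
  simp

end Pool.Agent.MP_f68ac8_nt

end

section

/-! The lemma of Ax on almost invariant elements. -/

namespace Pool.Agent.MP_f68ac8_nt

open Polynomial

variable {K : Type} [NormedField K] [IsUltrametricDist K]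

lemma coeff_prod_le {ι : Type} (s : Finset ι) (u : ι → K) {r : ℝ} (hr : 0 < r)
    (h : ∀ y ∈ s, ‖u y‖ ≤ r) (k : ℕ) :
    ‖(∏ y ∈ s, (X - C (u y))).coeff k‖ * r ^ k ≤ r ^ s.card := by
  classical
  induction s using Finset.induction_on generalizing k with
  | empty =>
    rcases k with _ | k
    · simp
    · simp [coeff_one]
  | insert a s ha ih =>
    have ih' := ih fun y hy => h y (Finset.mem_insert_of_mem hy)
    have h1 := h a (Finset.mem_insert_self _ _)
    have h2 : ∀ k, ‖u a * (∏ y ∈ s, (X - C (u y))).coeff k‖ ≤ r ^ (s.card + 1) / r ^ k := by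
      intro k
      rw [le_div_iff₀ (pow_pos hr _), norm_mul, mul_assoc, pow_succ']
      exact mul_le_mul h1 (ih' k) (by positivity) hr.le
    rw [Finset.prod_insert ha, Finset.card_insert_of_notMem ha, ← le_div_iff₀ (pow_pos hr _),
      sub_mul, coeff_sub, coeff_C_mul]
    refine le_sub ?_ (h2 k)
    rcases k with _ | k
    · simp only [mul_coeff_zero, coeff_X_zero, zero_mul, norm_zero]
      positivity
    · rw [coeff_X_mul, le_div_iff₀ (pow_pos hr _), pow_succ, ← mul_assoc, pow_succ]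
      exact mul_le_mul_of_nonneg_right (ih' k) hr.le

variable [IsAlgClosed K] [CharZero K]

lemma root_near (s : Finset K) (x : K) {r : ℝ} (hr : 0 < r) (h : ∀ y ∈ s, ‖y - x‖ ≤ r) {q : ℕ}
    (hq : q < s.card) : ∃ β ∈ (hasseDeriv q (∏ y ∈ s, (X - C y))).roots,
      ‖(s.card.choose q : K)‖ * ‖β - x‖ ^ (s.card - q) ≤ r ^ (s.card - q) := by
  classical
  set f := ∏ y ∈ s, (X - C y) with hf
  have hm : f.Monic := monic_prod_of_monic _ _ fun _ _ => monic_X_sub_C _
  have hd : f.natDegree = s.card := by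
    rw [hf, natDegree_prod_of_monic _ _ fun _ _ => monic_X_sub_C _]
    simp
  set g := hasseDeriv q f with hg
  have hgd : g.natDegree = s.card - q := by rw [hg, natDegree_hasseDeriv, hd]
  have hgl : g.leadingCoeff = s.card.choose q := by
    rw [leadingCoeff, hgd, hg, hasseDeriv_coeff, Nat.sub_add_cancel hq.le, ← hd, ← leadingCoeff,
      hm.leadingCoeff, mul_one]
  have hcard : g.roots.card = s.card - q := by
    rw [← hgd]
    exact IsAlgClosed.card_roots_eq_natDegree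
  have hne : g.roots.toFinset.Nonempty := by
    rw [Multiset.toFinset_nonempty, ← Multiset.card_pos, hcard]
    omega
  obtain ⟨β, hβ, hmin⟩ := g.roots.toFinset.exists_min_image (fun b => ‖b - x‖) hne
  refine ⟨β, Multiset.mem_toFinset.mp hβ, ?_⟩
  have e1 : g.eval x = (∏ y ∈ s, (X - C (y - x))).coeff q := by
    rw [hg, ← taylor_coeff, hf, taylor_apply, prod_comp]
    congr 1
    refine Finset.prod_congr rfl fun y _ => ?_
    simp only [sub_comp, X_comp, C_comp, map_sub]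
    ring
  have e2 := coeff_prod_le s (fun y => y - x) hr h q
  have e3 : g.eval x = g.leadingCoeff * (g.roots.map fun b => x - b).prod := by
    conv_lhs => rw [← C_leadingCoeff_mul_prod_multiset_X_sub_C (p := g) (by rw [hcard, hgd])]
    rw [eval_mul, eval_C, eval_multiset_prod, Multiset.map_map]
    simp
  have e4 : ‖β - x‖ ^ (s.card - q) ≤ ‖(g.roots.map fun b => x - b).prod‖ := by
    rw [← hcard]
    have : ∀ t : Multiset K, (∀ b ∈ t, ‖β - x‖ ≤ ‖b - x‖) →
        ‖β - x‖ ^ t.card ≤ ‖(t.map fun b => x - b).prod‖ := by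
      intro t
      induction t using Multiset.induction_on with
      | empty => simp
      | cons a t ih =>
        intro H
        rw [Multiset.map_cons, Multiset.prod_cons, Multiset.card_cons, pow_succ', norm_mul,
          norm_sub_rev x a]
        exact mul_le_mul (H a (Multiset.mem_cons_self _ _))
          (ih fun b hb => H b (Multiset.mem_cons_of_mem hb)) (by positivity) (norm_nonneg _)
    exact this _ fun b hb => hmin b (Multiset.mem_toFinset.mpr hb)
  rw [← e1, e3, hgl, norm_mul] at e2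
  have e5 : r ^ s.card = r ^ (s.card - q) * r ^ q := by rw [← pow_add, Nat.sub_add_cancel hq.le]
  rw [e5] at e2
  exact (mul_le_mul_of_nonneg_left e4 (norm_nonneg _)).trans
    (le_of_mul_le_mul_right e2 (pow_pos hr _))

variable {p : ℕ} [hp : Fact p.Prime] {G : Type} [Group G] [MulSemiringAction G K]

/-- the exponent in the lemma of Ax -/
noncomputable def axe (p k : ℕ) : ℝ := p / (p - 1) ^ 2 * (1 - 1 / p ^ k)

lemma axe_mono {k l : ℕ} (h : k ≤ l) : axe p k ≤ axe p l := by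
  have h1 : (1 : ℝ) < p := Nat.one_lt_cast.mpr hp.out.one_lt
  unfold axe
  gcongr
  exact h1.le

lemma ax_aux (hK : ‖(p : K)‖ = (p : ℝ)⁻¹) (hiso : ∀ (g : G) (x : K), ‖g • x‖ = ‖x‖) (n : ℕ) :
    ∀ (x : K) (r : ℝ), 0 < r → (MulAction.orbit G x).Finite → (MulAction.orbit G x).ncard = n →
      (∀ g : G, ‖g • x - x‖ ≤ r) →
      ∃ a : K, (∀ g : G, g • a = a) ∧ ‖x - a‖ ≤ r * (p : ℝ) ^ axe p (Nat.log p n) := by
  classical
  have h1 : (1 : ℝ) < p := Nat.one_lt_cast.mpr hp.out.one_lt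
  have hK' : ‖(p : K)‖ < 1 := hK ▸ inv_lt_one_of_one_lt₀ h1
  induction n using Nat.strong_induction_on with
  | _ n ih =>
  intro x r hr hfin hn hx
  by_cases hn1 : n ≤ 1
  · refine ⟨x, fun g => ?_, by simp only [sub_self, norm_zero]; positivity⟩
    exact (Set.ncard_le_one hfin).mp (hn ▸ hn1) _ (MulAction.mem_orbit x g) _
      (MulAction.mem_orbit_self x)
  push Not at hn1
  set s := hfin.toFinset with hs
  have hsc : s.card = n := by rw [← hn, Set.ncard_eq_toFinset_card _ hfin]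
  have key : ∀ q < n, ∀ t : ℝ, 1 ≤ t → 1 ≤ ‖(n.choose q : K)‖ * t ^ (n - q) → 0 < q →
      ∃ a : K, (∀ g : G, g • a = a) ∧ ‖x - a‖ ≤ r * t * (p : ℝ) ^ axe p (Nat.log p (n - q)) := by
    intro q hq t ht hc hq0
    obtain ⟨β, hβ, hb⟩ := root_near s x hr (fun y hy => by
      obtain ⟨g, rfl⟩ := hfin.mem_toFinset.mp hy
      exact hx g) (hsc ▸ hq)
    rw [hsc] at hb
    have hc0 : 0 < ‖(n.choose q : K)‖ := norm_pos_iff.mpr
      (Nat.cast_ne_zero.mpr (Nat.choose_pos hq.le).ne')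
    have hβx : ‖β - x‖ ≤ r * t := by
      refine (pow_le_pow_iff_left₀ (norm_nonneg _) (by positivity) (n := n - q) (by omega)).mp ?_
      refine le_of_mul_le_mul_left (hb.trans ?_) hc0
      rw [mul_pow, mul_left_comm]
      exact le_mul_of_one_le_right (by positivity) hc
    set f := hasseDeriv q (∏ y ∈ s, (X - C y)) with hf
    have hinv : ∀ g : G, f.map (MulSemiringAction.toRingHom G K g) = f := by
      intro g
      have : (∏ y ∈ s, (X - C y)).map (MulSemiringAction.toRingHom G K g) =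
          ∏ y ∈ s, (X - C y) := by
        rw [Polynomial.map_prod]
        refine Finset.prod_bijective (fun y => g • y) (MulAction.bijective g) (fun y => ?_)
          fun y _ => by simp
        simp only [hs, Set.Finite.mem_toFinset]
        rw [← MulAction.orbit_eq_iff, ← MulAction.orbit_eq_iff, MulAction.orbit_smul]
      ext k
      rw [coeff_map, hf, hasseDeriv_coeff, map_mul, map_natCast, ← coeff_map, this]
    have hsub : MulAction.orbit G β ⊆ f.roots.toFinset := by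
      rintro _ ⟨g, rfl⟩
      rw [Finset.mem_coe, Multiset.mem_toFinset, mem_roots (ne_zero_of_mem_roots hβ), ← hinv g]
      exact (isRoot_of_mem_roots hβ).map
    have hfin' := (Finset.finite_toSet _).subset hsub
    have hle : (MulAction.orbit G β).ncard ≤ n - q := by
      refine (Set.ncard_le_ncard hsub).trans ?_
      rw [Set.ncard_coe_finset]
      refine (Multiset.toFinset_card_le _).trans ((card_roots' f).trans ?_)
      rw [hf, natDegree_hasseDeriv, natDegree_prod_of_monic _ _ fun _ _ => monic_X_sub_C _]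
      simp [hsc]
    have hrt : r ≤ r * t := le_mul_of_one_le_right hr.le ht
    obtain ⟨a, ha, hab⟩ := ih _ (by omega) β (r * t) (by positivity) hfin' rfl fun g => by
      have : g • β - β = g • (β - x) + (g • x - x) - (β - x) := by rw [smul_sub]; ring
      rw [this]
      exact le_sub (le_add (by rwa [hiso]) ((hx g).trans hrt)) hβx
    have hone : ∀ k, 1 ≤ (p : ℝ) ^ axe p k := fun k => Real.one_le_rpow h1.le
      (le_trans (by simp [axe]) (axe_mono (Nat.zero_le k)))
    refine ⟨a, ha, ?_⟩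
    have : x - a = (β - a) - (β - x) := by ring
    rw [this]
    refine le_sub (hab.trans ?_) (hβx.trans (le_mul_of_one_le_right (by positivity) (hone _)))
    gcongr
    · exact h1.le
    · exact axe_mono (Nat.log_mono_right hle)
  obtain ⟨k, d, hd, rfl⟩ := Nat.exists_eq_pow_mul_and_not_dvd (by omega : n ≠ 0) p hp.out.ne_one
  have hpk : 0 < p ^ k := pow_pos hp.out.pos k
  by_cases hd1 : d = 1
  · subst hd1
    rw [mul_one] at *
    obtain ⟨j, rfl⟩ : ∃ j, k = j + 1 := ⟨k - 1, by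
      rcases k with _ | k
      · simp at hn1
      · rfl⟩
    have hlt : p ^ j < p ^ (j + 1) := Nat.pow_lt_pow_right hp.out.one_lt (by omega)
    have hN : (0 : ℝ) < ((p ^ (j + 1) - p ^ j : ℕ) : ℝ) := Nat.cast_pos.mpr (by omega)
    obtain ⟨a, ha, hb⟩ := key (p ^ j) hlt ((p : ℝ) ^ (((p ^ (j + 1) - p ^ j : ℕ) : ℝ)⁻¹))
      (Real.one_le_rpow h1.le (by positivity)) (by
        rw [Real.rpow_inv_natCast_pow (by positivity) (by omega)]
        have e1 := Nat.factorization_choose_prime_pow hp.out hlt.le (pow_pos hp.out.pos j).ne'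
        rw [hp.out.factorization_pow, Finsupp.single_eq_same, add_tsub_cancel_left] at e1
        have e0 : (p ^ (j + 1)).choose (p ^ j) ≠ 0 := (Nat.choose_pos hlt.le).ne'
        rw [← Nat.ordProj_mul_ordCompl_eq_self ((p ^ (j + 1)).choose (p ^ j)) p, Nat.cast_mul,
          norm_mul, norm_nat_eq_one hK' (Nat.coprime_ordCompl hp.out e0), e1, pow_one, hK,
          mul_one, inv_mul_cancel₀ (by positivity)]) (pow_pos hp.out.pos j)
    refine ⟨a, ha, hb.trans ?_⟩
    rw [mul_assoc, ← Real.rpow_add (by positivity), Nat.log_pow hp.out.one_lt]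
    gcongr
    · exact h1.le
    have e2 : Nat.log p (p ^ (j + 1) - p ^ j) ≤ j := Nat.le_of_lt_succ
      (Nat.log_lt_of_lt_pow (by omega) (Nat.sub_lt hpk (pow_pos hp.out.pos j)))
    refine (add_le_add_right (axe_mono e2) _).trans (le_of_eq ?_)
    rw [Nat.cast_sub hlt.le]
    have : (p : ℝ) - 1 ≠ 0 := by linarith
    have e3 : ((p ^ (j + 1) : ℕ) : ℝ) - ((p ^ j : ℕ) : ℝ) = p ^ j * (p - 1) := by
      push_cast; ring
    rw [e3]
    unfold axe
    field_simp
    ring
  · have hd0 : d ≠ 0 := by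
      rintro rfl
      simp at hd
    have hlt : p ^ k < p ^ k * d := lt_mul_of_one_lt_right hpk (by omega)
    obtain ⟨a, ha, hb⟩ := key (p ^ k) hlt 1 le_rfl (by
      have e1 := Choose.choose_pow_mul_pow_mul_modEq_choose_nat (p := p) (k := k) (a := d) (b := 1)
      rw [mul_one, Nat.choose_one_right] at e1
      rw [norm_nat_eq_one hK' ((Nat.Prime.coprime_iff_not_dvd hp.out).mpr fun h =>
        hd ((e1.dvd_iff dvd_rfl).mp h))]
      simp) hpk
    refine ⟨a, ha, hb.trans ?_⟩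
    rw [mul_one]
    gcongr
    · exact h1.le
    · exact axe_mono (Nat.log_mono_right (Nat.sub_le _ _))

/-- the real `p`-th root of `p` -/
noncomputable def rt (p : ℕ) : ℝ := (p : ℝ) ^ (p : ℝ)⁻¹

lemma rt_pow : rt p ^ p = p := Real.rpow_inv_natCast_pow (by positivity) hp.out.ne_zero

lemma one_lt_rt : 1 < rt p :=
  Real.one_lt_rpow (Nat.one_lt_cast.mpr hp.out.one_lt) (inv_pos.mpr (Nat.cast_pos.mpr hp.out.pos))

theorem ax (h5 : 5 ≤ p) (hK : ‖(p : K)‖ = (p : ℝ)⁻¹) (hiso : ∀ (g : G) (x : K), ‖g • x‖ = ‖x‖)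
    {x : K} {r : ℝ} (hr : 0 < r) (hfin : (MulAction.orbit G x).Finite)
    (hx : ∀ g : G, ‖g • x - x‖ ≤ r) : ∃ a : K, (∀ g : G, g • a = a) ∧ ‖x - a‖ < r * rt p ^ 2 := by
  obtain ⟨a, ha, hb⟩ := ax_aux hK hiso _ x r hr hfin rfl hx
  refine ⟨a, ha, hb.trans_lt ?_⟩
  have h1 : (5 : ℝ) ≤ p := by exact_mod_cast h5
  rw [rt, ← Real.rpow_natCast, ← Real.rpow_mul (by positivity)]
  refine mul_lt_mul_of_pos_left (Real.rpow_lt_rpow_of_exponent_lt (by linarith) ?_) hr
  have h2 : (0 : ℝ) < p - 1 := by linarith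
  refine lt_of_le_of_lt (b := (p : ℝ) / ((p : ℝ) - 1) ^ 2) (mul_le_of_le_one_right (by positivity)
    (sub_le_self _ (by positivity))) ?_
  rw [inv_mul_eq_div, div_lt_div_iff₀ (by positivity) (by positivity)]
  push_cast
  nlinarith

end Pool.Agent.MP_f68ac8_nt

end
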