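import Mathlib
import Pool.Agent.MP_f68ac8_nt.QvDefs
import Pool.Agent.Mg.Fe23604m.Gc0e7bf
import Pool.Agent.MP_f68ac8_nt.DefsSol

set_option linter.all false

section

namespace Pool.Agent.MP_f68ac8_nt

open Filter Topology NumberField Matrix IsLocalRing
open scoped Pointwise MatrixGroups

open Polynomial in
/-- the matrix of the symmetric power of dimension `n` -/
noncomputable def symP {R : Type} [CommRing R] (n : ℕ) (A : Matrix (Fin 2) (Fin 2) R) :
    Matrix (Fin n) (Fin n) R :=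
  Matrix.of fun i j => ((C (A 0 0) + C (A 1 0) * X) ^ (n - 1 - j) *
    (C (A 0 1) + C (A 1 1) * X) ^ (j : ℕ)).coeff i

variable {p : ℕ} [Fact p.Prime] {K : IntermediateField ℚ (AlgebraicClosure ℚ)}
  (F : IntermediateField ℚ (AlgebraicClosure ℚ)) (r : K.fixingSubgroup →* PGL(2, ZMod p))
  (η : K.fixingSubgroup →* ℤˣ) (γ : K.fixingSubgroup) (n : ℕ)

variable (p K) in
/-- inertia at `P` acts on `F` through a group of order divisible by `p` -/
def WildAt (P : Ideal (𝓞 (AlgebraicClosure ℚ))) : Prop :=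
  ∃ g : K.fixingSubgroup, g.1 ∈ P.inertia GQ ∧ ¬ Tame p F g

/-- a matrix representing `r g` in the basis `A` -/
noncomputable def repIn (A : GL (Fin 2) (ZMod p)) (g : K.fixingSubgroup) :
    Matrix (Fin 2) (Fin 2) (ZMod p) := (A⁻¹ * rep r g * A).val

/-- `c` is the complex conjugation of the embedding `φ` -/
def IsConj' (φ : AlgebraicClosure ℚ →+* ℂ) (c : GQ) : Prop :=
  ∀ x, φ (c x) = starRingEnd ℂ (φ x)

/-- the hypotheses on the residual representation -/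
structure PolRes : Prop where
  big : 2 ≤ n ∧ 2 * n < p
  cut : ∀ g : K.fixingSubgroup,
    g.1 ∈ F.fixingSubgroup ↔ η g = 1 ∧ r g = 1 ∧ ∀ x, x ^ p = 1 → g.1 x = x
  gam : r γ = 1 ∧ ∀ g, η g = 1 ∨ η g = η γ
  cyc : ∃ g, η g = 1 ∧ r g = 1 ∧ g.1 ∉ F.fixingSubgroup
  img : ∀ A : GL (Fin 2) (ZMod p), A.val.det = 1 → ∃ g, r g = ProjGenLinGroup.mk A
  wild : ∀ P : Ideal (𝓞 (AlgebraicClosure ℚ)), P.IsMaximal → ↑p ∈ P → WildAt p K F P
  loc : ∀ P : Ideal (𝓞 (AlgebraicClosure ℚ)), P.IsMaximal → WildAt p K F P → ∃ A,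
    (∀ g, g.1 • P = P → repIn r A g 1 0 = 0) ∧
    (∃ g, g.1 • P = P ∧ η g = 1 ∧
      ∀ j, 0 < j → j ≤ n → repIn r A g 0 0 ^ j ≠ repIn r A g 1 1 ^ j) ∧
    (↑p ∈ P → ∀ j, 0 < j → j < n → ∃ g, g.1 • P = P ∧ η g = 1 ∧ repIn r A g 0 0 ^ j ≠
      PadicInt.toZMod (cycChar p g : ℤ_[p]) * repIn r A g 1 1 ^ j)
  inf : ∀ φ (c : K.fixingSubgroup), IsConj' φ c → η c = -1 → r c ≠ 1

/-- level raising types -/
def PolTyp (t : K.fixingSubgroup) : Prop :=
  η t = 1 ∧ (∃ A, repIn r A t 0 1 = 0 ∧ repIn r A t 1 0 = 0 ∧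
    repIn r A t 0 0 = PadicInt.toZMod (cycChar p t : ℤ_[p]) * repIn r A t 1 1) ∧
  ∀ j, 0 < j → j ≤ n → PadicInt.toZMod (cycChar p t : ℤ_[p]) ^ j ≠ 1

/-- the conditions on a lift of the symmetric power -/
structure PolLoc (S : Set (Ideal (𝓞 K))) {O : Type} [CommRing O] [IsLocalRing O]
    (ρ : η.ker →* GL (Fin n) O) : Prop where
  res : ↑p ∈ maximalIdeal O
  cont : ∀ k, ∀ᶠ g in 𝓝 1, ∀ i j, ((ρ g).val - 1) i j ∈ maximalIdeal O ^ k
  lift : ∀ g, ∃ c : O, ∀ i j,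
    (ρ g).val i j - c * (symP n (rep r g).val i j).val ∈ maximalIdeal O
  fin : ∀ P (g : η.ker), Iner F P g → ¬ WildAt p K F P → P.under (𝓞 K) ∉ S →
    ∃ a, Expo p O a ∧ IsScal (ρ g ^ a)
  ord : ∀ P : Ideal (𝓞 (AlgebraicClosure ℚ)), P.IsMaximal → ↑p ∈ P →
    ∃ A B : GL (Fin n) O, ∀ g : η.ker, g.1.1 • P = P →
      (A⁻¹ * ρ g * A).val.BlockTriangular id ∧
      (B⁻¹ * ρ (MulAut.conjNormal γ g) * B).val.BlockTriangular id ∧
      (Iner F P g → ∃ a, Expo p O a ∧ ∃ c, ∀ s, ((A⁻¹ * ρ g * A).val s s *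
        (B⁻¹ * ρ (MulAut.conjNormal γ g) * B).val s.rev s.rev) ^ a = c)
  st : ∀ P : Ideal (𝓞 (AlgebraicClosure ℚ)), P.IsMaximal → P.under (𝓞 K) ∈ S →
    ∃ (u : η.ker) (c : O), u.1.1 ∈ P.inertia GQ ∧ ((ρ u).val - c • 1) ^ n = 0 ∧
      ((ρ u).val - c • 1) ^ (n - 1) ≠ 0

end Pool.Agent.MP_f68ac8_nt

end

section

/-! From a representation to a solution of the linking system. -/

namespace Pool.Agent.MP_f68ac8_nt

open Matrix
open Red (IntM)
open scoped Topology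

variable {K : Type} [NormedField K] [IsUltrametricDist K] [CharZero K]
  {p : ℕ} [hp : Fact p.Prime] {F : Type} [Field F] [Algebra (ZMod p) F]
  {G : Type} [Group G] [TopologicalSpace G] {ι : Type} [Fintype ι]

variable (F) in
/-- the group theoretic input -/
structure Hyp (ρ : G →* M2 K) (τ σ : ι → G) (q : ι → ℕ) (χ : ι → G → ZMod p) : Prop where
  cont : Continuous ρ
  tr : ∀ g, ‖tt (ρ g) - 1‖ < 1
  nil : ∀ i, BB (ρ (τ i)) (ρ (τ i)) = 0
  rel : ∀ i, ρ (σ i) * ρ (τ i) = ρ (τ i) ^ q i * ρ (σ i)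
  add : ∀ x : G → F, (∀ g h, x (g * h) = x g + x h) → {g | x g = 0} ∈ 𝓝 1 →
    (∀ g, ρ g = 1 → x g = 0) → ∀ g, x g = ∑ j, χ j g • x (τ j)

/-- conjugate representation -/
def conjRep (ρ : G →* M2 K) {A A' : M2 K} (h : A * A' = 1) (h' : A' * A = 1) : G →* M2 K where
  toFun g := A' * ρ g * A
  map_one' := by simp [h']
  map_mul' g g' := by
    simp only [map_mul, mul_assoc]
    rw [← mul_assoc A A', h, one_mul]

variable {ρ : G →* M2 K} {τ σ : ι → G} {q : ι → ℕ} {χ : ι → G → ZMod p}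

omit [IsUltrametricDist K] in
lemma Hyp.conj (H : Hyp F ρ τ σ q χ) {A A' : M2 K} (h : A * A' = 1) (h' : A' * A = 1) :
    Hyp F (conjRep ρ h h') τ σ q χ where
  cont := (continuous_const.mul H.cont).mul continuous_const
  tr g := by
    change ‖tt (A' * ρ g * A) - 1‖ < 1
    rw [tt_conj h]
    exact H.tr g
  nil i := (BB_conj h h' _ _).trans (H.nil i)
  rel i := by
    rw [← map_pow, ← map_mul, ← map_mul]
    change A' * ρ _ * A = A' * ρ _ * A
    rw [map_mul, map_mul, map_pow, H.rel]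
  add x h1 h2 h3 := H.add x h1 h2 fun g hg => h3 g (by
    change A' * ρ g * A = 1
    rw [hg, mul_one, h'])

end Pool.Agent.MP_f68ac8_nt

end

section

/-! The linking system with ramification at `p`. -/

namespace Pool.Agent.MP_f68ac8_nt

open Matrix
open Red (IntM)
open scoped Topology

variable {K : Type} [NormedField K] [IsUltrametricDist K] [CharZero K]
  {p : ℕ} [hp : Fact p.Prime] {F : Type} [Field F] [Algebra (ZMod p) F]
  {G : Type} [Group G] [TopologicalSpace G] {ι : Type} [Fintype ι]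

variable (F) in
/-- the group theoretic input -/
structure Hyp2 (ρ : G →* M2 K) (τ σ : ι → G) (t : G) (c : ι → ℕ) (m : Matrix ι ι (ZMod p))
    (χ : ι → G → ZMod p) (ψ : G → ZMod p) : Prop where
  cont : Continuous ρ
  tr : ∀ g, ‖tt (ρ g) - 1‖ < 1
  nil : ∀ i, BB (ρ (τ i)) (ρ (τ i)) = 0
  rel : ∀ i, ρ (σ i) * ρ (τ i) = ρ (τ i) ^ (p * c i + 1) * ρ (σ i)
  add : ∀ x : G → F, (∀ g h, x (g * h) = x g + x h) → {g | x g = 0} ∈ 𝓝 1 →
    (∀ g, ρ g = 1 → x g = 0) → ∀ g, x g = ψ g • x t + ∑ j, χ j g • x (τ j)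
  cop : ∀ i, p.Coprime (c i)
  link : ∀ i j, i ≠ j → χ j (σ i) = c i * m i j
  linkp : ∀ i, ψ (σ i) = c i

variable {ρ : G →* M2 K} {τ σ : ι → G} {t : G} {c : ι → ℕ} {m : Matrix ι ι (ZMod p)}
  {χ : ι → G → ZMod p} {ψ : G → ZMod p}

namespace Hyp2
variable (H : Hyp2 F ρ τ σ t c m χ ψ)
include H

omit [IsUltrametricDist K] in
lemma conj {A A' : M2 K} (h : A * A' = 1) (h' : A' * A = 1) :
    Hyp2 F (conjRep ρ h h') τ σ t c m χ ψ where
  cont := (continuous_const.mul H.cont).mul continuous_const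
  tr g := by
    change ‖tt (A' * ρ g * A) - 1‖ < 1
    rw [tt_conj h]
    exact H.tr g
  nil i := (BB_conj h h' _ _).trans (H.nil i)
  rel i := by
    rw [← map_pow, ← map_mul, ← map_mul]
    change A' * ρ _ * A = A' * ρ _ * A
    rw [map_mul, map_mul, map_pow, H.rel]
  add x h1 h2 h3 := H.add x h1 h2 fun g hg => h3 g (by
    change A' * ρ g * A = 1
    rw [hg, mul_one, h'])
  cop := H.cop
  link := H.link
  linkp := H.linkp

end Hyp2

end Pool.Agent.MP_f68ac8_nt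

end

section

/-! The case of a semisimple generator at `p`. -/

namespace Pool.Agent.MP_f68ac8_nt

open Matrix
open scoped Topology

variable {K : Type} [NormedField K] [IsUltrametricDist K] [CharZero K]
  {p : ℕ} [hp : Fact p.Prime] {F : Type} [Field F] [Algebra (ZMod p) F]
  {G : Type} [Group G] [TopologicalSpace G] {ι : Type} [Fintype ι]
  {ρ : G →* M2 K} {τ σ : ι → G} {t : G} {c : ι → ℕ} {m : Matrix ι ι (ZMod p)}
  {χ : ι → G → ZMod p} {ψ : G → ZMod p}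

namespace Hyp2
variable (H : Hyp2 F ρ τ σ t c m χ ψ)
include H

end Hyp2

end Pool.Agent.MP_f68ac8_nt

end
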