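import Mathlib
import Pool.Agent.MP_f68ac8_nt.FvDefs
import Pool.Agent.MP_f68ac8_nt.DefsPH

set_option linter.all false

section

/-! Auxiliary statements for the theorem on lifts of even representations: algebraic part. -/

namespace Pool.Agent.MP_f68ac8_nt.Ev

open Matrix MvPolynomial Finset

section game
variable {ρ : ℕ → Type} {β : Type}

/-- the elements known at time `i` -/
def past {R : Type} (x : ∀ i, ρ i → R) (y : ℕ → β → R) (i : ℕ) : Set R :=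
  {z | (∃ j < i, ∃ a, z = x j a) ∨ ∃ j ≤ i, ∃ b, z = y j b}

end game

/-- enough derivations -/
def HasDer {ρ : ℕ → Type} {β Ω : Type} [Field Ω] (d : ℕ) (x : ∀ i, ρ i → Ω) (y : ℕ → β → Ω) :
    Prop :=
  ∀ i < d, ∀ δ : ρ i → Ω, ∃ D : Derivation ℤ Ω Ω, (∀ j ≤ i, ∀ b, D (y j b) = 0) ∧
    (∀ a, D (x i a) = δ a) ∧ ∀ j < d, j ≠ i → ∀ a, D (x j a) = 0

/-- derivations from algebraic independence -/
def DerStmt : Prop :=
  ∀ (ρ : ℕ → Type) (β Ω : Type) [Field Ω] [CharZero Ω] (d : ℕ) (x : ∀ i, ρ i → Ω)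
    (y : ℕ → β → Ω), (∀ i < d, AlgebraicIndependent (Subring.closure (past x y i)) (x i)) →
    HasDer d x y

/-- matrix positions -/
abbrev Ix (n : ℕ) : Type := Fin n × Fin n

/-- square matrices -/
abbrev Mt (n : ℕ) (R : Type) : Type := Matrix (Fin n) (Fin n) R

/-- random variables at time `i` -/
abbrev Rn (m₁ m₂ i : ℕ) : Type := (Fin i × Fin m₁) ⊕ Fin m₂

/-- names of operators -/
abbrev Nm (n m₁ m₂ : ℕ) : Type := ℕ ⊕ Fin m₁ ⊕ (Fin m₂ × Ix n)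

/-- variables of the adversary -/
abbrev Bt (n m₁ m₂ : ℕ) : Type := Option (Nm n m₁ m₂ × Ix n × Ix n)

section sol
variable {n m₁ m₂ : ℕ} {R : Type} [CommRing R]

/-- an operator on matrices -/
def ap (T : Ix n → Ix n → R) (X : Mt n R) : Mt n R :=
  Matrix.of fun a b => ∑ c : Ix n, T (a, b) c * X c.1 c.2

/-- a named operator -/
def op (y : Bt n m₁ m₂ → R) (κ : Nm n m₁ m₂) (X : Mt n R) : Mt n R :=
  ap (fun a c => y (some (κ, a, c))) X

/-- the operator in row `j` and column `i` -/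
def col (x : ∀ i, Rn m₁ m₂ i → R) (y : ℕ → Bt n m₁ m₂ → R) (j i : ℕ) (X : Mt n R) : Mt n R :=
  if h : j < i then ∑ s, x i (.inl (⟨j, h⟩, s)) • op (y 0) (.inr (.inl s)) X
  else op (y (j + 1)) (.inl i) X

/-- a solution with certificates -/
structure SolW (d : ℕ) (x : ∀ i, Rn m₁ m₂ i → R) (y : ℕ → Bt n m₁ m₂ → R) (X : ℕ → Mt n R)
    (w : ℕ → Ix n → R) (c : ℕ → Ix n → ℕ → Fin m₁ → R) (G : Ix n → Ix n → Ix n → R)
    (γ : Ix n → ℕ → Fin m₂ → R) : Prop where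
  nil : ∀ j < d, X j ^ n = 0
  ne : ∑ j ∈ range d, ∑ a : Ix n, w j a * X j a.1 a.2 = 1
  adj : ∀ j < d, ∀ a b : Ix n, y 0 (some (.inl j, a, b)) = y 0 (some (.inl j, b.swap, a.swap))
  self : ∀ j < d, op (y 0) (.inl j) (X j) = X j
  mem : ∀ j i, j ≤ i → i < d → ∀ s,
    op (y 0) (.inl j) (op (y 0) (.inr (.inl s)) (X i)) = op (y 0) (.inr (.inl s)) (X i)
  span : ∀ j < d, ∀ e : Ix n, op (y 0) (.inl j) (single e.1 e.2 1) =
    ∑ i ∈ Ico j d, ∑ s, c j e i s • op (y 0) (.inr (.inl s)) (X i)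
  br : ∀ j < d, (∑ i ∈ range d, col x y j i (X i)) * X j - X j * ∑ i ∈ range d, col x y j i (X i) =
    y (j + 1) none • X j
  un : ∀ e : Ix n, ∑ i ∈ range d, ∑ s, x i (.inr s) • op (y 0) (.inr (.inr (s, e))) (X i) = 0
  rk : ∀ e : Ix n, op (y 0) (.inl 0) (single e.1 e.2 1) =
    ∑ e', ap (G e') (∑ i ∈ range d, ∑ s, γ e i s • op (y 0) (.inr (.inr (s, e'))) (X i))

end sol

/-- solvability -/
def SolE (n m₁ m₂ d : ℕ) (R : Type) [CommRing R] (x : ∀ i, Rn m₁ m₂ i → R)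
    (y : ℕ → Bt n m₁ m₂ → R) : Prop := ∃ X w c G γ, SolW d x y X w c G γ

/-- no solution in the generic case -/
def GenStmt : Prop :=
  ∀ (n m₁ m₂ d : ℕ) (Ω : Type) [Field Ω] [CharZero Ω] (x : ∀ i, Rn m₁ m₂ i → Ω)
    (y : ℕ → Bt n m₁ m₂ → Ω), HasDer d x y → ¬ SolE n m₁ m₂ d Ω x y

/-- stable subspaces -/
def Stab {k Δ V : Type} [Field k] [Group Δ] [AddCommGroup V] [Module k V]
    (Ad : Representation k Δ V) (W : Submodule k V) : Prop := ∀ δ, ∀ A ∈ W, Ad δ A ∈ W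

/-- the adjoint action -/
structure AdData {k Δ : Type} [Field k] [Group Δ] {n : ℕ} (Ad : Representation k Δ (Mt n k)) :
    Prop where
  mul : ∀ δ A B, Ad δ (A * B) = Ad δ A * Ad δ B
  one : ∀ δ, Ad δ 1 = 1
  tr : ∀ δ A, (Ad δ A).trace = A.trace
  iso : ∀ W, Stab Ad W → (∀ A ∈ W, ∀ B ∈ W, (A * B).trace = 0) → W = ⊥

/-- states of the game over the prime field -/
structure St (p : ℕ) (k Δ A : Type) where
  κ : ℕ → A → ZMod p
  ν : ℕ → ℕ → Δ → ZMod p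
  c : ℕ → k

section
variable {p : ℕ} {k Δ A : Type}

/-- agreement before time `i` -/
def St.Agree (s s' : St p k Δ A) (i : ℕ) : Prop :=
  ∀ j < i, s'.κ j = s.κ j ∧ s'.c j = s.c j ∧ ∀ j' < i, s'.ν j j' = s.ν j j'

/-- the random part at time `i` -/
def St.rnd (s : St p k Δ A) (i : ℕ) : A ⊕ (Fin i × Δ) → ZMod p :=
  Sum.elim (s.κ i) fun x => s.ν x.1 i x.2

/-- the relations have a nonzero solution -/
def St.Bad [Field k] [Algebra (ZMod p) k] [Group Δ] [Fintype Δ] [Fintype A] [DecidableEq A]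
    {n : ℕ} (Ad : Representation k Δ (Mt n k)) (μ : Δ →* Matrix A A ℤ) (d : ℕ)
    (s : St p k Δ A) : Prop :=
  ∃ (X Y : ℕ → Mt n k) (b : ℕ → Bool), (∀ j < d, X j ^ n = 0) ∧ (∃ j < d, X j ≠ 0) ∧
    (∀ j < d, Y j = ∑ i ∈ range d, ∑ δ, algebraMap (ZMod p) k (s.ν j i δ) • Ad δ (X i)) ∧
    (∀ j < d, Y j * X j - X j * Y j = (if b j then s.c j else 0) • X j) ∧
    ∀ a, ∑ i ∈ range d, ∑ δ, algebraMap (ZMod p) k (∑ a', μ δ⁻¹ a' a * s.κ i a') • Ad δ (X i) = 0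

end

/-- the outcome of the algebraic part -/
def AlgStmt : Prop :=
  ∀ n d : ℕ, ∃ C : ℕ, ∀ (p : ℕ) [Fact p.Prime], C < p → ∀ (k Δ A : Type) [Field k] [IsAlgClosed k]
    [Algebra (ZMod p) k] [Group Δ] [Fintype Δ] [Fintype A] [DecidableEq A]
    (Ad : Representation k Δ (Mt n k)) (μ : Δ →* Matrix A A ℤ), AdData Ad →
    ¬ p ∣ Fintype.card Δ → (μ 1).trace = Fintype.card Δ - 1 → (∀ δ, δ ≠ 1 → (μ δ).trace = -1) →
    ∃ Safe : ℕ → St p k Δ A → Prop, (∀ s, Safe 0 s) ∧ (∀ s, Safe d s → ¬ s.Bad Ad μ d) ∧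
      ∀ i < d, ∀ s, Safe i s → ∃ Z : Set (A ⊕ (Fin i × Δ) → ZMod p),
        Z.ncard * p ≤ C * p ^ Fintype.card (A ⊕ (Fin i × Δ)) ∧
        (∀ t : ZMod p, t ≠ 0 → ∀ v ∈ Z, t • v ∈ Z) ∧
        ∀ s', s.Agree s' i → s'.rnd i ∉ Z → Safe (i + 1) s'

end Pool.Agent.MP_f68ac8_nt.Ev

end

section

/-! Auxiliary statements for lifts over number fields: algebraic part. -/

namespace Pool.Agent.MP_f68ac8_nt.Ev

open Matrix MvPolynomial Finset

section sol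
variable {n m₁ m₂ : ℕ} {R : Type} [CommRing R]

/-- the operator in row `j` and column `i` -/
def colV (x : ∀ i, Rn m₁ m₂ i → R) (y : ℕ → Bt n m₁ m₂ → R) (j i : ℕ) (X : Mt n R) : Mt n R :=
  if h : j < i then
    op (y 0) (.inl (2 * j + 1)) (∑ s, x i (.inl (⟨j, h⟩, s)) • op (y 0) (.inr (.inl s)) X)
  else op (y (j + 1)) (.inl i) X

/-- the commutator -/
def brk (A B : Mt n R) : Mt n R := A * B - B * A

/-- a solution with certificates -/
structure SolV (d : ℕ) (x : ∀ i, Rn m₁ m₂ i → R) (y : ℕ → Bt n m₁ m₂ → R) (X : ℕ → Mt n R)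
    (w : ℕ → Ix n → R) (c : ℕ → Ix n → ℕ → Fin m₁ → R) (c' : ℕ → Fin m₁ → R)
    (Q : ℕ → Fin 4 → Ix n → Ix n → R) (G : Ix n → Ix n → Ix n → R)
    (γ : ℕ → Fin m₁ → ℕ → Fin m₂ → R) : Prop where
  nil : ∀ j < d, X j ^ n = 0
  ne : ∑ j ∈ range d, ∑ a : Ix n, w j a * X j a.1 a.2 = 1
  self : ∀ j < d, op (y 0) (.inl (2 * j)) (X j) = X j
  gen : ∀ j < d, X j = ∑ s, c' j s • op (y 0) (.inr (.inl s)) (X j)
  kill : ∀ j < d, brk (op (y 0) (.inl (2 * j + 1)) (X j)) (X j) = 0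
  ann : ∀ j < d, ∀ e : Ix n, ap (Q j 0) (brk (single e.1 e.2 1) (X j)) = 0
  cert : ∀ j < d, ∀ e : Ix n, (single e.1 e.2 1 : Mt n R) =
    ap (Q j 1) (brk (op (y 0) (.inl (2 * j + 1))
      (∑ i ∈ Ico j d, ∑ s, c j e i s • op (y 0) (.inr (.inl s)) (X i))) (X j)) +
    ap (Q j 2) (single e.1 e.2 1 - op (y 0) (.inl (2 * j)) (single e.1 e.2 1)) +
    ap (Q j 3) (ap (Q j 0) (single e.1 e.2 1))
  br : ∀ j < d, brk (∑ i ∈ range d, colV x y j i (X i)) (X j) = y (j + 1) none • X j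
  un : ∀ e : Ix n, ∑ i ∈ range d, ∑ s, x i (.inr s) • op (y 0) (.inr (.inr (s, e))) (X i) = 0
  rk : ∀ i < d, ∀ s, op (y 0) (.inr (.inl s)) (X i) = ∑ e', ap (G e')
    (∑ i' ∈ range d, ∑ s', γ i s i' s' • op (y 0) (.inr (.inr (s', e'))) (X i'))

end sol

section
variable {k Δ V A : Type} [Field k] [Group Δ] [Fintype Δ] [AddCommGroup V] [Module k V]

/-- averaging over a cyclic subgroup -/
noncomputable def av (Ad : Representation k Δ V) (δ : Δ) : V →ₗ[k] V :=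
  (Fintype.card Δ : k)⁻¹ • ∑ i ∈ range (Fintype.card Δ), Ad (δ ^ i)

end

section
variable {p : ℕ} {Δ A J : Type} [Group Δ] [Fintype A] [DecidableEq A]

/-- the twisted action on the random data -/
def Rt (μ : Δ →* Matrix A A ℤ) (δ : Δ) (a : ZMod p) :
    (A ⊕ (J × Δ) → ZMod p) →ₗ[ZMod p] (A ⊕ (J × Δ) → ZMod p) where
  toFun v := Sum.elim (fun b => a * ∑ b', μ δ⁻¹ b' b * v (.inl b'))
    fun x => a * v (.inr (x.1, x.2 * δ))
  map_add' v w := by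
    ext (b | x) <;> simp [mul_add, Finset.sum_add_distrib]
  map_smul' t v := by
    ext (b | x) <;> simp [Finset.mul_sum, mul_left_comm]

/-- left invariant data -/
def Linv (δs : J → Δ) (v : A ⊕ (J × Δ) → ZMod p) : Prop :=
  ∀ j γ, v (.inr (j, δs j * γ)) = v (.inr (j, γ))

/-- the possible values of the random data -/
def Fx (μ : Δ →* Matrix A A ℤ) (δs : J → Δ) (δ : Δ) (a : ZMod p) :
    Submodule (ZMod p) (A ⊕ (J × Δ) → ZMod p) where
  carrier := {v | Linv δs v ∧ Rt μ δ a v = v}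
  zero_mem' := ⟨fun _ _ => rfl, map_zero _⟩
  add_mem' := fun hv hw => ⟨fun j γ => by simp only [Pi.add_apply, hv.1 j γ, hw.1 j γ],
    by rw [map_add, hv.2, hw.2]⟩
  smul_mem' := fun t v hv => ⟨fun j γ => by simp only [Pi.smul_apply, hv.1 j γ],
    by rw [map_smul, hv.2]⟩

end

section
variable {p : ℕ} {k Δ A : Type} [Field k] [Algebra (ZMod p) k] [Group Δ] [Fintype Δ] [Fintype A]
  [DecidableEq A] {n : ℕ} (Ad : Representation k Δ (Mt n k)) (μ : Δ →* Matrix A A ℤ) (d : ℕ)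
  (δ : ℕ → Δ) (a : ℕ → ZMod p)

/-- the relations with a given solution -/
structure St.Rel (s : St p k Δ A) (b : ℕ → Bool) (X Y : ℕ → Mt n k) : Prop where
  nil : ∀ j < d, X j ^ n = 0
  ne : ∃ j < d, X j ≠ 0
  eig : ∀ j < d, Ad (δ j) (X j) = algebraMap (ZMod p) k (a j) • X j
  lin : ∀ j < d, Y j = ∑ i ∈ range d, ∑ γ, algebraMap (ZMod p) k (s.ν j i γ) • Ad γ (X i)
  br : ∀ j < d, Y j * X j - X j * Y j = (if b j then s.c j else 0) • X j
  un : ∀ e, ∑ i ∈ range d, ∑ γ,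
    algebraMap (ZMod p) k (∑ e', μ γ⁻¹ e' e * s.κ i e') • Ad γ (X i) = 0

end

end Pool.Agent.MP_f68ac8_nt.Ev

end

section

namespace Pool.Agent.MP_f68ac8_nt

open Filter Topology NumberField Matrix IsLocalRing
open scoped Pointwise

variable {p : ℕ} [Fact p.Prime] {K : IntermediateField ℚ (AlgebraicClosure ℚ)} {n : ℕ}

/-- `A⁻¹ ρ A` is block triangular on the decomposition group of `P`, and inertia acts on the
block `b i` through the scalar `η g (b i)` -/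
def Ord {O : Type} [CommRing O] (ρ : K.fixingSubgroup → GL (Fin n) O)
    (P : Ideal (𝓞 (AlgebraicClosure ℚ))) (b : Fin n → ℕ) (η : GQ → ℕ → O) (A : GL (Fin n) O) :
    Prop :=
  ∀ g : K.fixingSubgroup, g.1 • P = P → ∀ i j, b j ≤ b i → b j < b i ∨ g.1 ∈ P.inertia GQ →
    (A⁻¹ * ρ g * A).val i j = if i = j then η g (b i) else 0

variable (p K n) in
/-- a representation with a level and ordinary filtrations -/
structure Dat where
  ρ : K.fixingSubgroup →ₜ* GL (Fin n) ℤ_[p]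
  N : ℕ
  b : Ideal (𝓞 (AlgebraicClosure ℚ)) → Fin n → ℕ
  η : Ideal (𝓞 (AlgebraicClosure ℚ)) → GQ → ℕ → ℤ_[p]
  A : Ideal (𝓞 (AlgebraicClosure ℚ)) → GL (Fin n) ℤ_[p]

namespace Dat

variable (D : Dat p K n) (F : IntermediateField ℚ (AlgebraicClosure ℚ))

/-- the residual representation -/
noncomputable def r : K.fixingSubgroup →* GL (Fin n) (ZMod p) :=
  (GeneralLinearGroup.map PadicInt.toZMod).comp D.ρ.toMonoidHom

/-- the adjoint action -/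
noncomputable def ad (g : K.fixingSubgroup) (X : Matrix (Fin n) (Fin n) (ZMod p)) :
    Matrix (Fin n) (Fin n) (ZMod p) := (D.r g).val * X * (D.r g)⁻¹.val

/-- the parabolic subalgebra at `P` for `R = (<)`, its nilradical for `R = (≤)` -/
def In (R : ℕ → ℕ → Prop) (P : Ideal (𝓞 (AlgebraicClosure ℚ)))
    (X : Matrix (Fin n) (Fin n) (ZMod p)) : Prop :=
  ∀ i j, R (D.b P j) (D.b P i) →
    ((D.A P)⁻¹.val.map PadicInt.toZMod * X * (D.A P).val.map PadicInt.toZMod) i j = 0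

/-- vanishing of the ordinary adjoint Selmer group -/
def Rig : Prop :=
  ∀ f : K.fixingSubgroup → Matrix (Fin n) (Fin n) (ZMod p),
    (∀ g h, f (g * h) = f g + D.ad g (f h)) → (∀ᶠ g in 𝓝 1, f g = 0) → (∀ g, (f g).trace = 0) →
    (∀ P (g : K.fixingSubgroup), Iner F P g →
      (↑D.N ∉ P → f g = 0) ∧ (↑p ∈ P → D.In (· ≤ ·) P (f g))) →
    ∃ Z, ∀ g, f g = Z - D.ad g Z

/-- additive equivariant functions on the ideals of `F` prime to the level -/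
structure Eqv [Normal ℚ F] (φ : Ideal (𝓞 F) → Matrix (Fin n) (Fin n) (ZMod p)) : Prop where
  add : ∀ I J, I ≠ ⊥ → J ≠ ⊥ → φ (I * J) = φ I + φ J
  conj : ∀ (g : K.fixingSubgroup) I, φ (AlgEquiv.restrictNormalHom F g.1 • I) = D.ad g (φ I)
  tr : ∀ I, (φ I).trace = 0
  lev : ∀ I, I.IsPrime → ↑D.N ∈ I → φ I = 0

/-- `κ` is the Kummer map of `ξ`, with the dual local conditions -/
structure Good (ζ : AlgebraicClosure ℚ) (ξ : Matrix (Fin n) (Fin n) (𝓞 F))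
    (κ : GQ → Matrix (Fin n) (Fin n) (ZMod p)) : Prop where
  cop : ∀ i j, IsCoprime (ξ i j) D.N
  kum : ∀ g ∈ F.fixingSubgroup, ∀ i j y, y ^ p = ((ξ i j : F) : AlgebraicClosure ℚ) →
    g y = ζ ^ (κ g i j).val * y
  tr : ∀ g ∈ F.fixingSubgroup, (κ g).trace = 0
  loc : ∀ g ∈ F.fixingSubgroup, ∀ P : Ideal (𝓞 (AlgebraicClosure ℚ)), P.IsMaximal → g • P = P →
    (↑p ∈ P → D.In (· < ·) P (κ g)) ∧ (↑p ∉ P → ↑D.N ∈ P → κ g = 0)

variable {F} in
/-- the trace pairing -/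
noncomputable def pair (φ : Ideal (𝓞 F) → Matrix (Fin n) (Fin n) (ZMod p))
    (ξ : Matrix (Fin n) (Fin n) (𝓞 F)) : ZMod p := ∑ i, ∑ j, φ (Ideal.span {ξ i j}) j i

/-- corestriction -/
noncomputable def cores (κ : GQ → Matrix (Fin n) (Fin n) (ZMod p)) (g : GQ) :
    Matrix (Fin n) (Fin n) (ZMod p) :=
  ∑ᶠ c : K.fixingSubgroup ⧸ F.fixingSubgroup.subgroupOf K.fixingSubgroup,
    PadicInt.toZMod (cycChar p c.out⁻¹ : ℤ_[p]) • D.ad c.out⁻¹ (κ (c.out * g * c.out⁻¹))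

/-- the dual Selmer classes outnumber the Selmer classes over `F` by at least two -/
def Defect [Normal ℚ F] : Prop :=
  ∀ ζ, IsPrimitiveRoot ζ p → ∃ s : ℕ,
    (∀ φ : Fin (s + 1) → _, (∀ a, D.Eqv F (φ a) ∧ ∀ ξ κ, D.Good F ζ ξ κ → pair (φ a) ξ = 0) →
      ¬ LinearIndependent (ZMod p) φ) ∧
    ∃ κ : Fin (s + 2) → _, (∀ a, ∃ ξ, D.Good F ζ ξ (κ a) ∧ ∀ φ, D.Eqv F φ → pair φ ξ = 0) ∧
      LinearIndependent (ZMod p) fun a (g : F.fixingSubgroup) => D.cores F (κ a) g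

/-- the hypotheses on the base point -/
structure Base [Normal ℚ F] : Prop where
  odd : 2 < p ∧ ¬ p ∣ n ∧ p ∣ D.N ∧ D.N ≠ 0
  mu : (∀ x, x ^ p = 1 → x ∈ F) ∧ ∃ x, x ^ p ^ 2 = 1 ∧ x ∉ F
  scal : ScalOn F D.r
  irr : AdIrr D.r
  unr : ∀ (P : Ideal (𝓞 (AlgebraicClosure ℚ))) (g : K.fixingSubgroup), P.IsMaximal → ↑D.N ∉ P →
    g.1 ∈ P.inertia GQ → D.ρ g = 1
  ord : ∀ P, P.IsMaximal → ↑p ∈ P → Ord D.ρ P (D.b P) (D.η P) (D.A P) ∧
    ∀ i j, D.b P i ≠ D.b P j → ∃ g : K.fixingSubgroup, g.1 ∈ P.inertia GQ ∧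
      PadicInt.toZMod (D.η P g (D.b P i)) ≠ PadicInt.toZMod (D.η P g (D.b P j))
  rig : D.Rig F
  defect : D.Defect F

end Dat

end Pool.Agent.MP_f68ac8_nt

end

section

namespace Pool.Agent.MP_f68ac8_nt

open Filter Topology NumberField Matrix IsLocalRing
open scoped Pointwise

variable {p : ℕ} [Fact p.Prime] {K : IntermediateField ℚ (AlgebraicClosure ℚ)} {n : ℕ}
  (F : IntermediateField ℚ (AlgebraicClosure ℚ)) (r : K.fixingSubgroup →* GL (Fin n) (ZMod p))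

/-- there is no nonzero equivariant map from the class group of `F` to the trace zero matrices -/
def NoClass [Normal ℚ F] : Prop :=
  ∀ φ : Ideal (𝓞 F) → Matrix (Fin n) (Fin n) (ZMod p),
    (∀ I J, I ≠ ⊥ → J ≠ ⊥ → φ (I * J) = φ I + φ J) → (∀ a, φ (Ideal.span {a}) = 0) →
    (∀ I, (φ I).trace = 0) → (∀ (g : K.fixingSubgroup) I,
      φ (AlgEquiv.restrictNormalHom F g.1 • I) = (r g).val * φ I * (r g)⁻¹.val) → ∀ I, φ I = 0

/-- the hypotheses on the residual representation -/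
structure Resid [Normal ℚ F] : Prop where
  big : 3 < p
  mu : (∀ x, x ^ p = 1 → x ∈ F) ∧ ∃ x, x ^ p ^ 2 = 1 ∧ x ∉ F
  scal : ScalOn F r
  irr : AdIrr r
  tame : ∀ g : K.fixingSubgroup, (IsScal (r g) ∨ ∃ P : Ideal (𝓞 (AlgebraicClosure ℚ)),
    P.IsMaximal ∧ g.1 ∈ P.inertia GQ) → ∃ m, ¬ p ∣ m ∧ g.1 ^ m ∈ F.fixingSubgroup
  cyc : ∃ g : K.fixingSubgroup, IsScal (r g) ∧ ∃ x, x ^ p = 1 ∧ g.1 x ≠ x
  even : ∃ φ : AlgebraicClosure ℚ →+* ℂ, ∀ c : K.fixingSubgroup,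
    (∀ x, φ (c.1 x) = starRingEnd ℂ (φ x)) → IsScal (r c)
  cls : NoClass F r

end Pool.Agent.MP_f68ac8_nt

end
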