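import Mathlib
import Pool.Agent.Mg.Fe23604m.Gc0e7bf
import Pool.Agent.MP_f68ac8_nt.Cyc

set_option linter.all false

section

/-! Additive characters of a local Galois group. -/

namespace Pool.Agent.MP_f68ac8_nt

variable (p : ℕ) (K : Type) [NormedField K] (G : Type) [Group G] [MulSemiringAction G K] in
/-- axioms for the action of the local Galois group -/
structure Loc : Prop where
  five : 5 ≤ p
  np : ‖(p : K)‖ = (p : ℝ)⁻¹
  iso : ∀ (g : G) (x : K), ‖g • x‖ = ‖x‖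
  dense : ∀ (x : K) (ε : ℝ), 0 < ε → ∃ y, (MulAction.orbit G y).Finite ∧ ‖x - y‖ < ε
  val : ∀ a : K, (∀ g : G, g • a = a) → a ≠ 0 → ∃ k : ℤ, ‖a‖ = (p : ℝ) ^ k
  res : ∀ a : K, (∀ g : G, g • a = a) → ‖a‖ ≤ 1 → ∃ n : ℕ, ‖a - n‖ < 1

variable {K : Type} [NormedField K] [IsUltrametricDist K] [IsAlgClosed K] [CharZero K]
  {p : ℕ} [hp : Fact p.Prime] {G : Type} [Group G] [MulSemiringAction G K]

variable (K) in
/-- inertial elements -/
def Inert (γ : G) : Prop := ∀ x : K, ‖x‖ ≤ 1 → ‖γ • x - x‖ < 1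

/-- additive characters -/
def AddCh (θ : G → ZMod p) : Prop := ∀ g h, θ (g * h) = θ g + θ h

/-- elements fixed by the kernel -/
def FixK (θ : G → ZMod p) (y : K) : Prop := ∀ g, θ g = 0 → g • y = y

section
variable {θ : G → ZMod p}

lemma AddCh.one (h : AddCh θ) : θ 1 = 0 := by simpa using h 1 1

lemma AddCh.inv (h : AddCh θ) (g : G) : θ g⁻¹ = - θ g := by
  rw [eq_neg_iff_add_eq_zero, ← h, inv_mul_cancel, h.one]

lemma AddCh.pow (h : AddCh θ) (g : G) (n : ℕ) : θ (g ^ n) = n * θ g := by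
  induction n with
  | zero => simp [h.one]
  | succ n ih => rw [pow_succ, h, ih, Nat.cast_succ, add_mul, one_mul]

omit [IsUltrametricDist K] [IsAlgClosed K] [CharZero K] in
lemma FixK.smul (h : AddCh θ) {y : K} (hy : FixK θ y) (g : G) : FixK θ (g • y) := fun k hk => by
  have := hy (g⁻¹ * k * g) (by rw [h, h, h.inv, hk]; ring)
  rw [mul_assoc, mul_smul, inv_smul_eq_iff, mul_smul] at this
  exact this

omit [IsUltrametricDist K] [IsAlgClosed K] [CharZero K] in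
lemma FixK.sub {y z : K} (hy : FixK θ y) (hz : FixK θ z) : FixK θ (y - z) := fun k hk => by
  rw [smul_sub, hy k hk, hz k hk]

omit [IsUltrametricDist K] [IsAlgClosed K] [CharZero K] in
lemma FixK.mul {y z : K} (hy : FixK θ y) (hz : FixK θ z) : FixK θ (y * z) := fun k hk => by
  rw [smul_mul', hy k hk, hz k hk]

omit [IsUltrametricDist K] [IsAlgClosed K] [CharZero K] in
lemma FixK.inv {y : K} (hy : FixK θ y) : FixK θ y⁻¹ := fun k hk => by
  rw [smul_inv'', hy k hk]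

omit [IsUltrametricDist K] [IsAlgClosed K] [CharZero K] in
lemma smul_nat (g : G) (n : ℕ) : g • (n : K) = n := map_natCast (MulSemiringAction.toRingHom G K g) n

omit [IsUltrametricDist K] [IsAlgClosed K] [CharZero K] in
lemma FixK.nat (n : ℕ) : FixK θ (n : K) := fun k _ => smul_nat k n

omit [IsUltrametricDist K] [IsAlgClosed K] [CharZero K] in
lemma FixK.act (h : AddCh θ) {γ : G} (h1 : θ γ = 1) {y : K} (hy : FixK θ y) (g : G) :
    g • y = γ ^ (θ g).val • y := by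
  have := hy ((γ ^ (θ g).val)⁻¹ * g) (by rw [h, h.inv, h.pow, h1]; simp)
  rwa [mul_smul, inv_smul_eq_iff] at this

end

namespace Loc
variable (L : Loc p K G)
include L

omit [IsUltrametricDist K] [IsAlgClosed K] [CharZero K] in
lemma np1 : ‖(p : K)‖ < 1 := L.np ▸ inv_lt_one_of_one_lt₀ (Nat.one_lt_cast.mpr hp.out.one_lt)

lemma ax (H : Subgroup G) {x : K} {r : ℝ} (hr : 0 < r) (hx : ∀ g ∈ H, ‖g • x - x‖ ≤ r) :
    ∃ a : K, (∀ g ∈ H, g • a = a) ∧ ‖x - a‖ < r * rt p ^ 2 := by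
  obtain ⟨y, hy, hxy⟩ := L.dense x r hr
  obtain ⟨a, ha, hb⟩ := Pool.Agent.MP_f68ac8_nt.ax (G := H) L.five L.np (fun g x => L.iso g x) hr
    (hy.subset (by rintro _ ⟨g, rfl⟩; exact ⟨g, rfl⟩)) (x := y) fun g => by
      have : g • y - y = (g.1 • x - x) - g.1 • (x - y) + (x - y) := by
        rw [smul_sub, Subgroup.smul_def]; ring
      rw [this]
      exact le_add (le_sub (hx _ g.2) (by rw [L.iso]; exact hxy.le)) hxy.le
  refine ⟨a, fun g hg => ha ⟨g, hg⟩, ?_⟩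
  have : x - a = (x - y) + (y - a) := by ring
  rw [this]
  exact lt_add (hxy.trans (lt_mul_of_one_lt_right hr (one_lt_pow₀ one_lt_rt two_ne_zero))) hb

omit [IsAlgClosed K] [CharZero K] in
lemma inert_pow {γ : G} (h : Inert K γ) (n : ℕ) : Inert K (γ ^ n) := by
  intro x hx
  induction n with
  | zero => simp
  | succ n ih =>
    have : γ ^ (n + 1) • x - x = γ • (γ ^ n • x - x) + (γ • x - x) := by
      rw [smul_sub, pow_succ', mul_smul]; ring
    rw [this]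
    exact lt_add (by rwa [L.iso]) (h x hx)

variable {θ : G → ZMod p} (hθ : AddCh θ) {γ : G} (hγ : Inert K γ) (h1 : θ γ = 1)
include hθ h1

omit L [IsUltrametricDist K] [IsAlgClosed K] [CharZero K] in
lemma norm_fixed {y : K} (hy : FixK θ y) (g : G) :
    g • ∏ t : ZMod p, γ ^ t.val • y = ∏ t : ZMod p, γ ^ t.val • y := by
  rw [Finset.smul_prod']
  refine Fintype.prod_equiv (Equiv.addLeft (θ g)) _ _ fun t => ?_
  rw [← mul_smul, hy.act hθ h1, hθ, hθ.pow, h1]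
  simp

omit [IsUltrametricDist K] [IsAlgClosed K] [CharZero K] in
lemma disc {y : K} (hy : FixK θ y) (h0 : y ≠ 0) : ∃ k : ℤ, ‖y‖ = rt p ^ k := by
  have e : ‖∏ t : ZMod p, γ ^ t.val • y‖ = ‖y‖ ^ p := by simp [L.iso]
  obtain ⟨k, hk⟩ := L.val _ (norm_fixed hθ h1 hy) (by
    rw [← norm_pos_iff, e]
    exact pow_pos (norm_pos_iff.mpr h0) _)
  refine ⟨k, (pow_left_inj₀ (norm_nonneg _) (zpow_pos (zero_lt_one.trans one_lt_rt) _).le
    hp.out.ne_zero).mp ?_⟩
  rw [← e, hk, ← zpow_natCast, ← zpow_mul, mul_comm, zpow_mul, zpow_natCast, rt_pow]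

omit [IsUltrametricDist K] [IsAlgClosed K] [CharZero K] in
lemma disc_lt {y : K} (hy : FixK θ y) {c : ℝ} {k : ℤ} (hc : c = rt p ^ k) (h : ‖y‖ < c) :
    ‖y‖ ≤ c * (rt p)⁻¹ := by
  have h0 := zero_lt_one.trans (one_lt_rt (p := p))
  by_cases e : y = 0
  · rw [e, norm_zero, hc]
    positivity
  obtain ⟨j, hj⟩ := L.disc hθ h1 hy e
  rw [hj, hc, zpow_lt_zpow_iff_right₀ one_lt_rt] at h
  rw [hj, hc, ← zpow_sub_one₀ h0.ne', zpow_le_zpow_iff_right₀ one_lt_rt]
  omega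

include hγ

omit hθ h1 [IsAlgClosed K] [CharZero K] in
lemma red_norm {F : Type} [Field F] (R : Red K F) {y : K} (hy : ‖y‖ ≤ 1) :
    ‖∏ t : ZMod p, γ ^ t.val • y‖ ≤ 1 ∧ R.r (∏ t : ZMod p, γ ^ t.val • y) = R.r y ^ p := by
  have : ∀ s : Finset (ZMod p),
      ‖∏ t ∈ s, γ ^ t.val • y‖ ≤ 1 ∧ R.r (∏ t ∈ s, γ ^ t.val • y) = R.r y ^ s.card := by
    intro s
    induction s using Finset.induction_on with
    | empty => simp [R.one]
    | insert a s ha ih =>
      have e : ‖γ ^ a.val • y‖ ≤ 1 := by rwa [L.iso]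
      rw [Finset.prod_insert ha, Finset.card_insert_of_notMem ha, R.mul e ih.1, ih.2,
        (R.eq_iff e hy).mpr (L.inert_pow hγ _ y hy), pow_succ']
      exact ⟨le_mul e ih.1, rfl⟩
  simpa using this Finset.univ

omit [IsAlgClosed K] [CharZero K] in
lemma step {y : K} (hy : FixK θ y) : ‖γ • y - y‖ ≤ ‖y‖ * (rt p)⁻¹ := by
  by_cases h0 : y = 0
  · simp [h0]
  obtain ⟨F, _, ⟨R⟩⟩ := exists_red K
  haveI := R.charP L.np1
  have hn := norm_pos_iff.mpr h0
  have hu : ‖γ • y * y⁻¹‖ ≤ 1 := by simp [L.iso, hn.ne']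
  have e1 := (L.red_norm hγ R hu).2
  have e2 : ∏ t : ZMod p, γ ^ t.val • (γ • y * y⁻¹) = 1 := by
    simp only [smul_mul', smul_inv'', Finset.prod_mul_distrib, Finset.prod_inv_distrib]
    rw [← norm_fixed hθ h1 hy γ, Finset.smul_prod', mul_inv_eq_one₀]
    · simp only [← mul_smul, pow_mul_comm']
    · refine Finset.prod_ne_zero_iff.mpr fun t _ => ?_
      rw [← norm_pos_iff, L.iso, L.iso]
      exact hn
  rw [e2, R.one, ← map_one (frobenius F p)] at e1
  have e3 := frobenius_inj F p e1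
  rw [← R.one, R.eq_iff norm_one.le hu, norm_sub_rev] at e3
  have e4 := L.disc_lt hθ h1 (((hy.smul hθ γ).mul hy.inv).sub (by simpa using FixK.nat 1))
    (k := 0) (by simp) e3
  have e5 : γ • y - y = y * (γ • y * y⁻¹ - 1) := by field_simp
  rw [e5, norm_mul]
  exact mul_le_mul_of_nonneg_left (by simpa using e4) hn.le

theorem no_approx {t : K} {r : ℝ} (hr : 0 < r) (hr' : r * rt p ^ 2 ≤ (rt p)⁻¹)
    (ht : ∀ g, ‖g • t - t - (θ g).val‖ ≤ r) : False := by
  have h0 := zero_lt_one.trans (one_lt_rt (p := p))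
  haveI : Fact (1 < p) := ⟨hp.out.one_lt⟩
  obtain ⟨a, ha, hb⟩ := L.ax (MonoidHom.mk' (fun g => Multiplicative.ofAdd (θ g))
    fun g h => by rw [hθ, ofAdd_add]).ker hr (x := t) fun g hg => by
      have : θ g = 0 := hg
      simpa [this] using ht g
  have ha' : FixK θ a := fun g hg => ha g hg
  let D : K → K := fun y => γ • y - y
  have hD : ∀ k y, FixK θ y → FixK θ (D^[k] y) ∧ ‖D^[k] y‖ ≤ ‖y‖ * (rt p)⁻¹ ^ k := by
    intro k y hy
    induction k with
    | zero => simpa using hy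
    | succ k ih =>
      rw [Function.iterate_succ_apply', pow_succ, ← mul_assoc]
      exact ⟨(ih.1.smul hθ γ).sub ih.1, (L.step hθ hγ h1 ih.1).trans (by gcongr; exact ih.2)⟩
  have he : ‖D a - 1‖ < (rt p)⁻¹ := by
    have : D a - 1 = (γ • t - t - (θ γ).val) - γ • (t - a) + (t - a) := by
      simp only [D, h1, ZMod.val_one, smul_sub]
      push_cast
      ring
    rw [this]
    exact lt_add (lt_sub (((ht γ).trans_lt (lt_mul_of_one_lt_right hr
      (one_lt_pow₀ one_lt_rt two_ne_zero))).trans_le hr') (by rw [L.iso]; exact hb.trans_le hr'))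
      (hb.trans_le hr')
  have hi : (rt p)⁻¹ < 1 := inv_lt_one_of_one_lt₀ one_lt_rt
  have hfe : FixK θ (D a - 1) := ((ha'.smul hθ γ).sub ha').sub (by simpa using FixK.nat 1)
  have hDD : ∀ k, D^[k + 2] a = D^[k + 1] (D a - 1) := fun k => by
    rw [Function.iterate_succ_apply, Function.iterate_succ_apply, Function.iterate_succ_apply]
    congr 1
    simp [D, smul_sub]
  have hf : ∀ k y, (fwdDiff 1)^[k] (fun n : ℕ => γ ^ n • y) = fun n => γ ^ n • D^[k] y := by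
    intro k
    induction k with
    | zero => simp
    | succ k ih =>
      intro y
      rw [Function.iterate_succ_apply, Function.iterate_succ_apply, ← ih]
      congr 1
      ext n
      simp [fwdDiff, D, smul_sub, pow_succ, mul_smul]
  have e := shift_eq_sum_fwdDiff_iter (1 : ℕ) (fun n : ℕ => γ ^ n • a) p 0
  obtain ⟨m, hm⟩ : ∃ m, p = m + 2 := ⟨p - 2, by have := hp.out.two_le; omega⟩
  simp only [hf, zero_add, smul_eq_mul, mul_one, pow_zero, one_smul, nsmul_eq_mul] at e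
  rw [ha' _ (by rw [hθ.pow]; simp), show p + 1 = m + 1 + 1 + 1 by omega, Finset.sum_range_succ',
    Finset.sum_range_succ', Finset.sum_range_succ] at e
  simp only [Nat.choose_zero_right, Nat.cast_one, one_mul, Function.iterate_zero, id,
    left_eq_add, zero_add, Nat.choose_one_right, Function.iterate_one, add_assoc,
    one_add_one_eq_two, ← hm, Nat.choose_self] at e
  have e' : (p : K) = -(∑ k ∈ Finset.range m, (p.choose (k + 2) : K) * D^[k + 2] a +
      D^[p] a + p * (D a - 1)) := by linear_combination -e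
  have hp0 : (0 : ℝ) < (p : ℝ)⁻¹ := inv_pos.mpr (Nat.cast_pos.mpr hp.out.pos)
  have e'' := L.np
  rw [e', norm_neg] at e''
  refine (lt_add (lt_add ?_ ?_) ?_).ne e''
  · refine Finset.sum_induction _ (fun x : K => ‖x‖ < (p : ℝ)⁻¹) (fun _ _ => lt_add)
      (by rwa [norm_zero]) fun k hk => ?_
    obtain ⟨c, hc⟩ := hp.out.dvd_choose_self (k := k + 2) (by omega)
      (by have := Finset.mem_range.mp hk; omega)
    rw [hc, Nat.cast_mul, mul_assoc, norm_mul, L.np]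
    refine mul_lt_of_lt_one_right hp0 (le_mul_lt (le_nat c) ?_)
    rw [hDD]
    exact (hD _ _ hfe).2.trans_lt (mul_lt_one_of_nonneg_of_lt_one_left (norm_nonneg _)
      (he.trans hi) (pow_le_one₀ (by positivity) hi.le))
  · conv_lhs => rw [hm, hDD]
    refine (hD _ _ hfe).2.trans_lt ((mul_lt_mul_of_pos_right he (by positivity)).trans_eq ?_)
    rw [← pow_succ', add_assoc, one_add_one_eq_two, ← hm, inv_pow, rt_pow]
  · rw [norm_mul, L.np]
    exact mul_lt_of_lt_one_right hp0 (he.trans hi)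

end Loc

end Pool.Agent.MP_f68ac8_nt

end

section

/-! Ramified characters are proportional, and Hodge-Tate vectors modulo `p`. -/

namespace Pool.Agent.MP_f68ac8_nt

open Matrix

variable {K : Type} [NormedField K] [IsUltrametricDist K] [IsAlgClosed K] [CharZero K]
  {p : ℕ} [hp : Fact p.Prime] {G : Type} [Group G] [MulSemiringAction G K]

lemma rt_pos : 0 < rt p := zero_lt_one.trans one_lt_rt

lemma rt_pow_le {n : ℕ} (h : n ≤ p) : rt p ^ n ≤ p :=
  (pow_le_pow_right₀ one_lt_rt.le h).trans_eq rt_pow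

namespace Loc
variable (L : Loc p K G)
include L

omit [IsAlgClosed K] [CharZero K] in
lemma int_le {z : ℤ} (h : (z : ZMod p) = 0) : ‖(z : K)‖ ≤ (p : ℝ)⁻¹ := by
  obtain ⟨c, rfl⟩ := (ZMod.intCast_zmod_eq_zero_iff_dvd _ _).mp h
  rw [Int.cast_mul, Int.cast_natCast, norm_mul, L.np]
  exact mul_le_of_le_one_right (by positivity) (IsUltrametricDist.norm_intCast_le_one K c)

omit [IsAlgClosed K] [CharZero K] in
lemma int_eq {z : ℤ} (h : ‖(z : K)‖ < 1) : (z : ZMod p) = 0 := by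
  by_contra hne
  rw [ZMod.intCast_zmod_eq_zero_iff_dvd, Int.natCast_dvd] at hne
  have := norm_nat_eq_one L.np1 ((Nat.Prime.coprime_iff_not_dvd hp.out).mpr hne)
  rw [Nat.cast_natAbs] at this
  rcases abs_choice z with e | e <;> rw [e] at this
  · exact h.ne this
  · exact h.ne (by simpa using this)

omit [IsAlgClosed K] [CharZero K] in
lemma normalise {θ : G → ZMod p} (hθ : AddCh θ) {γ : G} (hγ : Inert K γ) (h : θ γ ≠ 0) :
    ∃ γ', Inert K γ' ∧ θ γ' = 1 :=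
  ⟨_, L.inert_pow hγ (θ γ)⁻¹.val, by simp [hθ.pow, h]⟩

omit [IsAlgClosed K] [CharZero K] in
lemma lin {γ : G} {t : K} {c : ℕ} {e : ℝ} (h : ‖γ • t - t - c‖ ≤ e) (n : ℕ) :
    ‖γ ^ n • t - t - n * c‖ ≤ e := by
  induction n with
  | zero => simpa using (norm_nonneg _).trans h
  | succ n ih =>
    have : γ ^ (n + 1) • t - t - (n + 1 : ℕ) * c =
        γ • (γ ^ n • t - t - n * c) + (γ • t - t - c) := by
      rw [smul_sub, smul_sub, pow_succ', mul_smul, smul_mul', smul_nat, smul_nat]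
      push_cast
      ring
    rw [this]
    exact le_add (by rwa [L.iso]) h

omit [IsAlgClosed K] [CharZero K] [IsUltrametricDist K] in
lemma fix_le {a : K} (ha : ∀ g : G, g • a = a) (h : ‖a‖ < 1) : ‖a‖ ≤ (p : ℝ)⁻¹ := by
  by_cases e : a = 0
  · simp [e]
  have h1 : (1 : ℝ) < p := Nat.one_lt_cast.mpr hp.out.one_lt
  obtain ⟨k, hk⟩ := L.val a ha e
  rw [hk, zpow_lt_one_iff_right₀ h1] at h
  rw [hk, ← _root_.zpow_neg_one, zpow_le_zpow_iff_right₀ h1]
  omega

omit L [IsAlgClosed K] [CharZero K] in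
lemma mulVec_le {n : Type} [Fintype n] {s : n → ℝ} (hs : ∀ i, 0 < s i) {M : Matrix n n K}
    {W N : ℝ} (hW : 0 ≤ W) (hN : 0 ≤ N) (hM : ∀ i j, ‖M i j‖ * s i ≤ W * s j) {v : n → K}
    (hv : ∀ i, ‖v i‖ * s i ≤ N) (i : n) : ‖(M *ᵥ v) i‖ * s i ≤ W * N := by
  rw [← le_div_iff₀ (hs i)]
  refine Finset.sum_induction _ (fun x : K => ‖x‖ ≤ W * N / s i) (fun _ _ => le_add)
    (by rw [norm_zero]; have := hs i; positivity) fun j _ => ?_
  rw [le_div_iff₀ (hs i), norm_mul, mul_right_comm]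
  refine (mul_le_mul_of_nonneg_right (hM i j) (norm_nonneg _)).trans ?_
  rw [mul_assoc, mul_comm (s j)]
  exact mul_le_mul_of_nonneg_left (hv j) hW

theorem ht2 {n : Type} [Fintype n] [DecidableEq n] {s : n → ℝ} (hs : ∀ i, 0 < s i)
    {A : G → Matrix n n K} (hA : ∀ g h, A (g * h) = A h * A g)
    (hA' : ∀ (g h : G) i j, h • A g i j = A g i j) {W : ℝ} (hW : 0 < W) (hW' : W * rt p ^ 5 ≤ 1)
    (hM : ∀ g i j, ‖(A g - 1) i j‖ * s i ≤ W * s j) {v : n → K} (hv : v ≠ 0)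
    (hg : ∀ (g : G) i, g • v i = (A g *ᵥ v) i) :
    ∃ (u : n → K) (N : ℝ), (∀ i (g : G), g • u i = u i) ∧ (∀ i, ‖v i - u i‖ < N / s i) ∧
      (∀ i, ‖u i‖ * s i ≤ N) ∧ (∃ i, ‖u i‖ * s i = N) ∧ 0 < N ∧
      ∀ γ, Inert K γ → ∀ i, ‖((A γ - 1) *ᵥ u) i‖ * s i < W * N := by
  have h0 := rt_pos (p := p)
  have h1 := one_lt_rt (p := p)
  obtain ⟨j, hj⟩ := Function.ne_iff.mp hv
  obtain ⟨i₀, -, hmax⟩ := Finset.univ.exists_max_image (fun i => ‖v i‖ * s i) ⟨j, Finset.mem_univ j⟩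
  set N := ‖v i₀‖ * s i₀ with hN
  replace hmax : ∀ i, ‖v i‖ * s i ≤ N := fun i => hmax i (Finset.mem_univ i)
  have hN0 : 0 < N := (mul_pos (norm_pos_iff.mpr hj) (hs j)).trans_le (hmax j)
  have hW2 : W * rt p ^ 2 < 1 := lt_of_lt_of_le (by gcongr; norm_num) hW'
  have hW1 : W < 1 := lt_of_le_of_lt (le_mul_of_one_le_right hW.le (one_le_pow₀ h1.le)) hW2
  have : ∀ i, ∃ a : K, (∀ g : G, g • a = a) ∧ ‖v i - a‖ * s i < W * rt p ^ 2 * N := fun i => by
    obtain ⟨a, ha, hb⟩ := L.ax ⊤ (div_pos (mul_pos hW hN0) (hs i)) (x := v i) fun g _ => by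
      rw [le_div_iff₀ (hs i), hg]
      simpa [sub_mulVec] using mulVec_le hs hW.le hN0.le (hM g) hmax i
    refine ⟨a, fun g => ha g trivial, ?_⟩
    rw [div_mul_eq_mul_div, lt_div_iff₀ (hs i)] at hb
    exact hb.trans_eq (by ring)
  choose u hu hu' using this
  have hlt : ∀ i, ‖v i - u i‖ < N / s i := fun i => by
    rw [lt_div_iff₀ (hs i)]
    exact (hu' i).trans (mul_lt_of_lt_one_left hN0 hW2)
  have hule : ∀ i, ‖u i‖ * s i ≤ N := fun i => by
    rw [← le_div_iff₀ (hs i)]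
    simpa using le_sub ((le_div_iff₀ (hs i)).mpr (hmax i)) (hlt i).le
  refine ⟨u, N, hu, hlt, hule, ⟨i₀, le_antisymm (hule i₀) (not_lt.mp fun h => ?_)⟩, hN0,
    fun γ hγ i => ?_⟩
  · have := lt_add (hlt i₀) ((lt_div_iff₀ (hs i₀)).mpr h)
    rw [sub_add_cancel, lt_div_iff₀ (hs i₀)] at this
    exact this.ne hN.symm
  have hf := fun g => mulVec_le hs hW.le hN0.le (hM g) hule
  by_contra hne
  replace hne := le_antisymm (hf γ i) (not_lt.mp hne)
  set μ := ((A γ - 1) *ᵥ u) i with hμ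
  have hfix : ∀ g h : G, h • ((A g - 1) *ᵥ u) i = ((A g - 1) *ᵥ u) i := fun g h => by
    simp only [mulVec, dotProduct, Finset.smul_sum, smul_mul', hu, Matrix.sub_apply, smul_sub, hA']
    refine Finset.sum_congr rfl fun j _ => ?_
    rw [one_apply]
    split_ifs <;> simp
  have hμ0 : 0 < ‖μ‖ := (mul_pos_iff_of_pos_right (hs i)).mp (hne ▸ mul_pos hW hN0)
  have hdiv : ∀ (x : K) (c : ℝ), ‖x‖ * s i ≤ c * (W * N) → ‖x * μ⁻¹‖ ≤ c := fun x c h => by
    rw [norm_mul, norm_inv, mul_inv_le_iff₀ hμ0]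
    rw [← hne, ← mul_assoc] at h
    exact le_of_mul_le_mul_right h (hs i)
  have hfix' : ∀ g h : G, h • (((A g - 1) *ᵥ u) i * μ⁻¹) = ((A g - 1) *ᵥ u) i * μ⁻¹ :=
    fun g h => by rw [smul_mul', smul_inv'', hfix, hμ, hfix]
  choose m hm using fun g => L.res _ (hfix' g) (hdiv _ 1 (by simpa using hf g i))
  have hθ : AddCh fun g => (m g : ZMod p) := fun g h => by
    have e : (A (g * h) - 1) *ᵥ u = (A h - 1) *ᵥ ((A g - 1) *ᵥ u) + (A g - 1) *ᵥ u +
        (A h - 1) *ᵥ u := by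
      rw [hA, mulVec_mulVec, ← add_mulVec, ← add_mulVec]
      congr 1
      noncomm_ring
    have e1 := lt_sub (lt_add (lt_add ((hdiv _ W (mulVec_le hs hW.le (mul_pos hW hN0).le (hM h)
      (hf g) i)).trans_lt hW1) (hm g)) (hm h)) (hm (g * h))
    have := L.int_eq (z := m (g * h) - (m g + m h)) (by
      convert e1 using 2
      rw [e]
      push_cast
      simp only [Pi.add_apply]
      ring)
    simpa [sub_eq_zero] using this
  obtain ⟨γ', e1, e2⟩ := L.normalise hθ hγ (by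
    have := L.int_eq (z := 1 - m γ) (by simpa [← hμ, norm_pos_iff.mp hμ0] using hm γ)
    push_cast at this
    rw [← sub_eq_zero.mp this]
    exact one_ne_zero)
  have hp0 : (0 : ℝ) < (p : ℝ)⁻¹ := inv_pos.mpr (Nat.cast_pos.mpr hp.out.pos)
  refine L.no_approx hθ e1 e2 (t := (v i - u i) * μ⁻¹) (r := max (W * rt p ^ 2) (p : ℝ)⁻¹)
    (lt_max_of_lt_right hp0) ?_ fun g => ?_
  · rw [max_mul_of_nonneg _ _ (by positivity), ← mul_one (rt p)⁻¹]
    refine max_le ?_ ?_ <;> rw [le_inv_mul_iff₀ h0]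
    · exact le_of_eq_of_le (by ring) hW'
    · rw [mul_left_comm, ← pow_succ', inv_mul_le_iff₀ (inv_pos.mp hp0), mul_one]
      exact rt_pow_le (by have := L.five; omega)
  have e3 := le_add (le_add (le_max_of_le_left (c := (p : ℝ)⁻¹) (hdiv _ (W * rt p ^ 2)
    ((mulVec_le hs hW.le (by positivity) (hM g) (v := v - u) (fun j => (hu' j).le) i).trans_eq
      (by ring)))) (le_max_of_le_right (L.fix_le (fun h => by rw [smul_sub, hfix', smul_nat])
        (hm g)))) (le_max_of_le_right (L.int_le (z := m g - ((m g : ZMod p).val : ℕ)) (by simp)))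
  convert e3 using 2
  rw [smul_mul', smul_inv'', hμ, hfix, smul_sub, hu, hg]
  simp only [sub_mulVec, mulVec_sub, one_mulVec, Pi.sub_apply]
  push_cast
  ring

theorem ht {n : Type} [Fintype n] [DecidableEq n] {s : n → ℝ} (hs : ∀ i, 0 < s i)
    {A : G → Matrix n n K} (hA : ∀ g h, A (g * h) = A h * A g)
    (hA' : ∀ (g h : G) i j, h • A g i j = A g i j) {W : ℝ} (hW : 0 < W) (hW' : W * rt p ^ 5 ≤ 1)
    (hM : ∀ g i j, ‖(A g - 1) i j‖ * s i ≤ W * s j) {v : n → K} (hv : v ≠ 0)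
    (hg : ∀ (g : G) i, g • v i = (A g *ᵥ v) i) :
    ∃ (u : n → K) (N : ℝ), (∀ i, ‖u i‖ * s i ≤ N) ∧ (∃ i, ‖u i‖ * s i = N) ∧ 0 < N ∧
      ∀ γ, Inert K γ → ∀ i, ‖((A γ - 1) *ᵥ u) i‖ * s i < W * N :=
  let ⟨u, N, _, _, h⟩ := L.ht2 hs hA hA' hW hW' hM hv hg
  ⟨u, N, h⟩

end Loc

end Pool.Agent.MP_f68ac8_nt

end

section

/-! The isometric automorphisms of the `p`-adic complex numbers. -/

namespace Pool.Agent.MP_f68ac8_nt

open NumberField Polynomial
open scoped NNReal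

lemma ext_iso {L C : Type} [Field L] [NormedField C] [CompleteSpace C] (j : L →+* C)
    (hj : DenseRange j) (σ : L ≃+* L) (hσ : ∀ x, ‖j (σ x)‖ = ‖j x‖) :
    ∃ g : C ≃+* C, (∀ x, ‖g x‖ = ‖x‖) ∧ ∀ x, g (j x) = j (σ x) := by
  letI : NormedField L := NormedField.induced L C j j.injective
  have hi : Isometry j := AddMonoidHomClass.isometry_of_norm _ fun _ => rfl
  have key : ∀ σ : L ≃+* L, (∀ x, ‖j (σ x)‖ = ‖j x‖) →
      ∃ g : C →+* C, Continuous g ∧ ∀ x, g (j x) = j (σ x) := fun σ hσ => by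
    have hf : UniformContinuous (j.comp σ.toRingHom) :=
      (AddMonoidHomClass.isometry_of_norm (j.comp σ.toRingHom) hσ).uniformContinuous
    exact ⟨IsDenseInducing.extendRingHom hi.isUniformInducing hj hf,
      (uniformContinuous_uniformly_extend hi.isUniformInducing hj hf).continuous,
      fun x => uniformly_extend_of_ind hi.isUniformInducing hj hf x⟩
  obtain ⟨g, g1, g2⟩ := key σ hσ
  obtain ⟨g', g1', g2'⟩ := key σ.symm fun x => by simpa using (hσ (σ.symm x)).symm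
  refine ⟨{ g with
    invFun := g'
    left_inv := fun x => congrFun (hj.equalizer (g1'.comp g1) continuous_id
      (funext fun y => by simp [g2, g2'])) x
    right_inv := fun x => congrFun (hj.equalizer (g1.comp g1') continuous_id
      (funext fun y => by simp [g2, g2'])) x }, fun x => ?_, g2⟩
  exact congrFun (hj.equalizer g1.norm continuous_norm (funext fun y => by simp [g2, hσ])) x

variable (p : ℕ) [hp : Fact p.Prime]

/-- the isometric automorphisms of the completed algebraic closure -/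
def GC : Subgroup (RingAut ℂ_[p]) where
  carrier := {g | ∀ x, ‖g x‖ = ‖x‖}
  mul_mem' := fun {a b} ha hb x => (ha (b x)).trans (hb x)
  one_mem' := fun _ => rfl
  inv_mem' := fun {a} ha x => by simpa using (ha (a.symm x)).symm

variable {p}

lemma GC.cont (g : GC p) : Continuous g.1 :=
  (AddMonoidHomClass.isometry_of_norm g.1 g.2).continuous

lemma norm_qp (a : ℚ_[p]) : ‖algebraMap ℚ_[p] ℂ_[p] a‖ = ‖a‖ := norm_algebraMap' _ a

lemma GC.fix (g : GC p) (a : ℚ_[p]) :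
    g • algebraMap ℚ_[p] ℂ_[p] a = algebraMap ℚ_[p] ℂ_[p] a :=
  congrFun ((Padic.denseRange_ratCast p).equalizer ((GC.cont g).comp (continuous_algebraMap _ _))
    (continuous_algebraMap _ _) (funext fun y => by simp)) a

lemma norm_p_alg : ‖(p : PadicAlgCl p)‖ = (p : ℝ)⁻¹ := by
  rw [← map_natCast (algebraMap ℚ_[p] (PadicAlgCl p)), norm_algebraMap', Padic.norm_p]

lemma norm_p_cp : ‖(p : ℂ_[p])‖ = (p : ℝ)⁻¹ := by
  rw [← map_natCast (algebraMap ℚ_[p] ℂ_[p]), norm_qp, Padic.norm_p]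

lemma dense_alg : DenseRange (algebraMap (PadicAlgCl p) ℂ_[p]) :=
  UniformSpace.Completion.denseRange_coe

/-- the theorem of Ax, Sen and Tate -/
theorem ast (h5 : 5 ≤ p) {a : ℂ_[p]} (ha : ∀ g : GC p, g • a = a) :
    ∃ b : ℚ_[p], algebraMap ℚ_[p] ℂ_[p] b = a := by
  have hc : IsClosed (Set.range (algebraMap ℚ_[p] ℂ_[p])) :=
    (AddMonoidHomClass.isometry_of_norm _ norm_qp).isClosedEmbedding.isClosed_range
  change a ∈ Set.range (algebraMap ℚ_[p] ℂ_[p])
  rw [← hc.closure_eq, Metric.mem_closure_iff]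
  intro ε hε
  have h1 := one_lt_pow₀ (one_lt_rt (p := p)) two_ne_zero
  have hr : 0 < ε / rt p ^ 2 := by positivity
  obtain ⟨y, hy⟩ := dense_alg.exists_dist_lt a hr
  rw [dist_eq_norm] at hy
  have hiso : ∀ (σ : PadicAlgCl p ≃ₐ[ℚ_[p]] PadicAlgCl p) (x : PadicAlgCl p), ‖σ • x‖ = ‖x‖ :=
    fun σ x => (spectralNorm_eq_of_equiv σ x).symm
  obtain ⟨b, b1, b2⟩ := ax h5 norm_p_alg hiso hr (x := y) (((minpoly ℚ_[p] y).rootSet_finite
    (PadicAlgCl p)).subset (by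
      rintro _ ⟨σ, rfl⟩
      rw [mem_rootSet]
      exact ⟨minpoly.ne_zero (Algebra.IsIntegral.isIntegral y), by
        simp [aeval_algHom_apply]⟩)) fun σ => by
    obtain ⟨g, g1, g2⟩ := ext_iso _ dense_alg σ.toRingEquiv fun x =>
      (PadicComplex.norm_extends p _).trans ((hiso σ x).trans (PadicComplex.norm_extends p _).symm)
    have e : g a = a := ha ⟨g, g1⟩
    rw [← PadicComplex.norm_extends, PadicComplex.coe_eq, map_sub]
    have : algebraMap _ ℂ_[p] (σ • y) - algebraMap _ ℂ_[p] y =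
        (a - algebraMap _ ℂ_[p] y) - g (a - algebraMap _ ℂ_[p] y) := by
      rw [map_sub, g2, e]
      simp
    rw [this]
    exact le_sub hy.le (by rw [g1]; exact hy.le)
  obtain ⟨c, rfl⟩ := (InfiniteGalois.mem_range_algebraMap_iff_fixed (k := ℚ_[p]) b).mpr b1
  refine ⟨_, ⟨c, rfl⟩, ?_⟩
  rw [div_mul_cancel₀ _ (by positivity), ← PadicComplex.norm_extends, PadicComplex.coe_eq,
    map_sub, ← IsScalarTower.algebraMap_apply] at b2
  rw [dist_eq_norm]
  simpa using lt_add (hy.trans (div_lt_self hε h1)) b2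

theorem locC (h5 : 5 ≤ p) : Loc p ℂ_[p] (GC p) where
  five := h5
  np := norm_p_cp
  iso g x := g.2 x
  dense x ε hε := by
    obtain ⟨y, hy⟩ := dense_alg.exists_dist_lt x hε
    refine ⟨_, ((minpoly ℚ_[p] y).rootSet_finite ℂ_[p]).subset ?_, by rwa [dist_eq_norm] at hy⟩
    rintro _ ⟨g, rfl⟩
    rw [mem_rootSet]
    refine ⟨minpoly.ne_zero (Algebra.IsIntegral.isIntegral y), ?_⟩
    have := aeval_algHom_apply (⟨g.1.toRingHom, GC.fix g⟩ : ℂ_[p] →ₐ[ℚ_[p]] ℂ_[p])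
      (algebraMap (PadicAlgCl p) ℂ_[p] y) (minpoly ℚ_[p] y)
    rw [aeval_algebraMap_apply, minpoly.aeval, map_zero, map_zero] at this
    exact this
  val a ha h0 := by
    obtain ⟨b, rfl⟩ := ast h5 ha
    exact ⟨_, (norm_qp b).trans (Padic.norm_eq_zpow_neg_valuation fun e => h0 (by simp [e]))⟩
  res a ha h0 := by
    obtain ⟨b, rfl⟩ := ast h5 ha
    rw [norm_qp] at h0
    obtain ⟨n, -, hn⟩ := PadicInt.exists_mem_range (⟨b, h0⟩ : ℤ_[p])
    refine ⟨n, ?_⟩
    rw [← map_natCast (algebraMap ℚ_[p] ℂ_[p]), ← map_sub, norm_qp]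
    exact PadicInt.mem_nonunits.mp hn

variable {Ω : Type} [Field Ω] [CharZero Ω] [IsAlgClosure ℚ Ω] (ι : Ω →+* ℂ_[p])

lemma dense_iota : DenseRange ι := by
  haveI : IsAlgClosed Ω := IsAlgClosure.isAlgClosed ℚ
  refine Dense.of_closure (Dense.mono ?_ dense_alg)
  rintro _ ⟨a, rfl⟩
  rw [Metric.mem_closure_iff]
  intro δ hδ
  have fmon := minpoly.monic (Algebra.IsIntegral.isIntegral (R := ℚ_[p]) a)
  have fn := (minpoly.natDegree_pos (Algebra.IsIntegral.isIntegral (R := ℚ_[p]) a)).ne'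
  set f := minpoly ℚ_[p] a
  set x := algebraMap (PadicAlgCl p) ℂ_[p] a
  have hε : (δ / (max ‖x‖ 1)) ^ f.natDegree / (f.natDegree + 1) > 0 := by positivity
  obtain ⟨g, gmon, gdeg, gcoeff⟩ :=
    exists_monic_and_natDegree_eq_and_norm_map_algebraMap_coeff_sub_lt
      (K := ℚ) (Padic.denseRange_ratCast p) fmon hε
  obtain ⟨b, hb, hab⟩ := exists_aroots_norm_sub_lt_of_norm_coeff_sub_lt (a := x) hε
    (by rw [aeval_algebraMap_apply, minpoly.aeval, map_zero]) fmon (gmon.map _)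
    (gdeg ▸ (g.natDegree_map _)) gcoeff (IsAlgClosed.splits _)
  rw [aroots_def, Polynomial.map_map, RingHom.ext_rat (RingHom.comp _ _) (ι.comp (algebraMap ℚ Ω)),
    ← Polynomial.map_map, Splits.roots_map (IsAlgClosed.splits _), Multiset.mem_map] at hb
  obtain ⟨c, -, rfl⟩ := hb
  refine ⟨_, ⟨c, rfl⟩, ?_⟩
  rw [← Real.rpow_natCast, ← mul_comm_div, div_self (by positivity), one_mul,
    ← Real.rpow_mul (div_pos hδ (by positivity)).le, mul_inv_cancel₀ (by simpa using fn)] at hab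
  rw [dist_eq_norm]
  simpa [mul_assoc, div_mul_cancel₀ _ (by positivity : (max ‖x‖ 1) > 0).ne'] using hab

lemma exists_res' {C : Type} [Field C] [CharZero C] (ι : Ω →+* C) (g : C ≃+* C) :
    ∃ h : Ω ≃ₐ[ℚ] Ω, ∀ x, ι (h x) = g (ι x) := by
  letI : Algebra Ω C := ι.toAlgebra
  haveI : IsScalarTower ℚ Ω C := IsScalarTower.of_algebraMap_eq' (RingHom.ext_rat _ _)
  exact ⟨g.toRatAlgEquiv.restrictNormal Ω, AlgEquiv.restrictNormal_commutes _ Ω⟩

lemma exists_res (g : GC p) : ∃ h : Ω ≃ₐ[ℚ] Ω, ∀ x, ι (h x) = g • ι x := exists_res' ι g.1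

/-- the restriction to the algebraic numbers -/
noncomputable def resC : GC p →* (Ω ≃ₐ[ℚ] Ω) := MonoidHom.mk' (fun g => (exists_res ι g).choose)
  fun g h => AlgEquiv.ext fun x => ι.injective (by
    rw [AlgEquiv.mul_apply, (exists_res ι _).choose_spec, (exists_res ι _).choose_spec,
      (exists_res ι _).choose_spec, mul_smul])

lemma resC_spec (g : GC p) (x : Ω) : ι (resC ι g x) = g • ι x := (exists_res ι g).choose_spec x

omit [CharZero Ω] [IsAlgClosure ℚ Ω] in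
lemma norm_int {C : Type} [NormedField C] [IsUltrametricDist C] (ι : Ω →+* C) (x : 𝓞 Ω) :
    ‖ι x‖ ≤ 1 := by
  let v : Valuation C ℝ≥0 := NormedField.valuation
  exact (Valuation.integer.integers v).isIntegral_iff_v_le_one.mp
    (x.isIntegral_coe.map ι.toIntAlgHom).tower_top

/-- the prime defined by the embedding -/
def primeC : Ideal (𝓞 Ω) where
  carrier := {x | ‖ι x‖ < 1}
  add_mem' := fun {a b} ha hb => by simpa using lt_add ha hb
  zero_mem' := by simp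
  smul_mem' := fun c x hx => by simpa using le_mul_lt (norm_int ι c) hx

omit [IsAlgClosure ℚ Ω] in
lemma mem_primeC {x : 𝓞 Ω} : x ∈ primeC ι ↔ ‖ι x‖ < 1 := Iff.rfl

omit [IsAlgClosure ℚ Ω] in
lemma p_mem_primeC : (p : 𝓞 Ω) ∈ primeC ι := by
  rw [mem_primeC, RingOfIntegers.coe_eq_algebraMap, map_natCast, map_natCast, norm_p_cp]
  exact inv_lt_one_of_one_lt₀ (Nat.one_lt_cast.mpr hp.out.one_lt)

omit [IsAlgClosure ℚ Ω] in
lemma primeC_prime : (primeC ι).IsPrime where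
  ne_top' := by simp [Ideal.ne_top_iff_one, mem_primeC]
  mem_or_mem' := fun {a b} h => by
    by_contra hn
    simp only [mem_primeC, not_or, not_lt, map_mul, norm_mul] at hn h
    exact h.not_ge (one_le_mul_of_one_le_of_one_le hn.1 hn.2)

omit [IsAlgClosure ℚ Ω] in
lemma primeC_maximal : (primeC ι).IsMaximal := by
  haveI := primeC_prime ι
  refine Ideal.isMaximal_of_isIntegral_of_isMaximal_comap (R := ℤ) _ ?_
  refine Ideal.IsPrime.isMaximal inferInstance fun e => ?_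
  have : (p : ℤ) ∈ (primeC ι).comap (algebraMap ℤ (𝓞 Ω)) := by simpa using p_mem_primeC ι
  rw [e] at this
  exact hp.out.ne_zero (by simpa using this)

lemma exists_frac {x : Ω} (hx : ‖ι x‖ ≤ 1) : ∃ a b : 𝓞 Ω, ‖ι b‖ = 1 ∧ x * b = a := by
  let L := IntermediateField.adjoin ℚ {x}
  haveI : FiniteDimensional ℚ L :=
    IntermediateField.adjoin.finiteDimensional (Algebra.IsIntegral.isIntegral x)
  haveI : NumberField L := {}
  haveI := primeC_prime ι
  let P := (primeC ι).comap (algebraMap (𝓞 L) (𝓞 Ω))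
  have hP : P ≠ ⊥ := fun e => by
    have : (p : 𝓞 L) ∈ P := by simpa [P] using p_mem_primeC ι
    rw [e] at this
    exact hp.out.ne_zero (by simpa using this)
  haveI := IsLocalization.AtPrime.isDiscreteValuationRing_of_dedekind_domain (𝓞 L) hP
    (Localization.AtPrime P)
  obtain ⟨a, b, hb, e⟩ := IsFractionRing.div_surjective (A := 𝓞 L)
    (⟨x, IntermediateField.mem_adjoin_simple_self ℚ x⟩ : L)
  let φ := algebraMap (𝓞 L) (𝓞 Ω)
  have hb0 : ((φ b : 𝓞 Ω) : Ω) ≠ 0 := by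
    change algebraMap L Ω b ≠ 0
    simpa using nonZeroDivisors.ne_zero hb
  have e1 : x * (φ b : 𝓞 Ω) = (φ a : 𝓞 Ω) := by
    have := congrArg (algebraMap L Ω) e
    rw [map_div₀] at this
    exact ((div_eq_iff hb0).mp this).symm
  have hs : ∀ s : P.primeCompl, ‖ι (φ s : 𝓞 Ω)‖ = 1 := fun s =>
    le_antisymm (norm_int ι _) (not_lt.mp s.2)
  have key : ∀ u v : 𝓞 L, (∃ c, algebraMap _ (Localization.AtPrime P) u * c = algebraMap _ _ v) →
      ∃ (w : 𝓞 L) (s : P.primeCompl), ((φ u : 𝓞 Ω) : Ω) * (φ w : 𝓞 Ω) =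
        (φ v : 𝓞 Ω) * (φ s : 𝓞 Ω) := by
    rintro u v ⟨c, hc⟩
    obtain ⟨⟨w, s⟩, h⟩ := IsLocalization.surj P.primeCompl c
    refine ⟨w, s, ?_⟩
    rw [← map_mul, ← map_mul, ← map_mul, ← map_mul]
    congr 2
    apply IsLocalization.injective (Localization.AtPrime P) P.primeCompl_le_nonZeroDivisors
    rw [map_mul, map_mul, ← h, ← hc, mul_assoc]
  obtain ⟨c, hc | hc⟩ := ValuationRing.cond (algebraMap _ (Localization.AtPrime P) a)
    (algebraMap _ (Localization.AtPrime P) b)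
  · obtain ⟨w, s, h⟩ := key _ _ ⟨c, hc⟩
    have e2 : x * (φ w : 𝓞 Ω) = (φ s : 𝓞 Ω) := by
      apply mul_left_cancel₀ hb0
      rw [← h, ← e1]
      ring
    refine ⟨_, _, le_antisymm (norm_int ι _) ?_, e2⟩
    rw [← hs s, ← e2, map_mul, norm_mul]
    exact mul_le_of_le_one_left (norm_nonneg _) hx
  · obtain ⟨w, s, h⟩ := key _ _ ⟨c, hc⟩
    refine ⟨φ w, _, hs s, mul_left_cancel₀ hb0 ?_⟩
    rw [h, ← e1]
    ring

lemma inertia_near {h : Ω ≃ₐ[ℚ] Ω} (hh : h ∈ (primeC ι).inertia (Ω ≃ₐ[ℚ] Ω)) {x : Ω}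
    (hx : ‖ι x‖ ≤ 1) : ‖ι (h x) - ι x‖ < 1 := by
  obtain ⟨a, b, hb, e⟩ := exists_frac ι hx
  have ha' : ‖ι (h a) - ι a‖ < 1 := by simpa [mem_primeC, coe_smul_int] using hh a
  have hb' : ‖ι (h b) - ι b‖ < 1 := by simpa [mem_primeC, coe_smul_int] using hh b
  have e1 : (ι (h x) - ι x) * ι (h b) = (ι (h a) - ι a) - ι x * (ι (h b) - ι b) := by
    rw [← e]
    simp only [map_mul]
    ring
  have := lt_sub ha' (le_mul_lt hx hb')
  rwa [← e1, norm_mul, norm_eq_one_of_sub hb hb', mul_one] at this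

theorem exists_inert {h : Ω ≃ₐ[ℚ] Ω} (hh : h ∈ (primeC ι).inertia (Ω ≃ₐ[ℚ] Ω)) :
    ∃ γ : GC p, Inert ℂ_[p] γ ∧ resC ι γ = h := by
  have h1 : ∀ h ∈ (primeC ι).inertia (Ω ≃ₐ[ℚ] Ω), ∀ x, ‖ι x‖ < 1 → ‖ι (h x)‖ < 1 :=
    fun h hh x hx => by simpa using lt_add (inertia_near ι hh hx.le) hx
  obtain ⟨c, -, hc⟩ := AbsoluteValue.isEquiv_iff_exists_rpow_eq.mp
    (AbsoluteValue.isEquiv_iff_lt_one_iff.mpr fun x => (⟨h1 h hh x, fun e => by
      simpa using h1 _ (inv_mem hh) _ e⟩ : place ι x < 1 ↔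
        place (ι.comp h.toRingEquiv.toRingHom) x < 1))
  replace hc : ∀ x, ‖ι x‖ ^ c = ‖ι (h x)‖ := congrFun hc
  have hp1 : (1 : ℝ) < p := Nat.one_lt_cast.mpr hp.out.one_lt
  obtain rfl : c = 1 := by
    have := hc p
    rw [map_natCast h, map_natCast, norm_p_cp] at this
    exact (Real.rpow_right_inj (by positivity) (inv_lt_one_of_one_lt₀ hp1).ne).mp
      (this.trans (Real.rpow_one _).symm)
  obtain ⟨g, g1, g2⟩ := ext_iso ι (dense_iota ι) h.toRingEquiv fun x => by simpa using (hc x).symm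
  refine ⟨⟨g, g1⟩, fun x hx => ?_, AlgEquiv.ext fun x => ι.injective
    ((resC_spec ι _ x).trans (g2 x))⟩
  obtain ⟨y, hy⟩ := (dense_iota ι).exists_dist_lt x one_pos
  rw [dist_eq_norm] at hy
  have : g x - x = g (x - ι y) + (ι (h y) - ι y) - (x - ι y) := by
    rw [map_sub, g2]
    simp
  change ‖g x - x‖ < 1
  rw [this]
  exact lt_sub (lt_add (by rwa [g1]) (inertia_near ι hh (by simpa using le_sub hx hy.le))) hy

end Pool.Agent.MP_f68ac8_nt

end

section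

/-! The cyclotomic character, and additive characters ramified at `p`. -/

namespace Pool.Agent.MP_f68ac8_nt

open NumberField PadicInt
open scoped Topology

variable {p : ℕ} [hp : Fact p.Prime]

lemma eq_toZMod (φ : ℤ_[p] →+* ZMod p) : φ = toZMod := by
  apply ZMod.ringHom_eq_of_ker_eq
  rw [ker_toZMod]
  refine ((IsLocalRing.maximalIdeal.isMaximal _).eq_of_le (RingHom.ker_ne_top φ) ?_).symm
  rw [maximalIdeal_eq_span_p, Ideal.span_singleton_le_iff_mem, RingHom.mem_ker]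
  simp

/-- the Teichmüller lift -/
noncomputable def tm : ZMod p →* ℤ_[p] :=
  (WittVector.equiv p).toMonoidHom.comp (WittVector.teichmuller p)

lemma toZMod_tm (a : ZMod p) : toZMod (tm a) = a := by
  rw [← eq_toZMod (WittVector.constantCoeff.comp (WittVector.equiv p).symm.toRingHom)]
  simp [tm]

/-- the finite order part of a unit -/
noncomputable def om : ℤ_[p]ˣ →* ℤ_[p]ˣ := Units.map (tm.comp toZMod.toMonoidHom)

/-- the principal part of a unit -/
noncomputable def eps : ℤ_[p]ˣ →* ℤ_[p]ˣ := MonoidHom.id _ / om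

lemma eps_mul_om (u : ℤ_[p]ˣ) : eps u * om u = u := by simp [eps]

lemma exists_ell (u : ℤ_[p]ˣ) : ∃ y : ℤ_[p], (eps u : ℤ_[p]) = 1 + p * y := by
  have h1 : toZMod (om u : ℤ_[p]) = toZMod (u : ℤ_[p]) := toZMod_tm _
  have h2 := congrArg (fun v : ℤ_[p]ˣ => toZMod (v : ℤ_[p])) (eps_mul_om u)
  simp only [Units.val_mul, map_mul, h1] at h2
  have h3 : (eps u : ℤ_[p]) - 1 ∈ RingHom.ker (toZMod : ℤ_[p] →+* ZMod p) := by
    rw [RingHom.mem_ker, map_sub, map_one, sub_eq_zero]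
    exact (mul_eq_right₀ (u.isUnit.map toZMod).ne_zero).mp h2
  rw [ker_toZMod, maximalIdeal_eq_span_p, Ideal.mem_span_singleton] at h3
  obtain ⟨y, hy⟩ := h3
  exact ⟨y, by rw [← hy]; ring⟩

/-- the logarithm modulo `p` -/
noncomputable def ell (u : ℤ_[p]ˣ) : ZMod p := toZMod (exists_ell u).choose

lemma ell_spec (u : ℤ_[p]ˣ) : ∃ y : ℤ_[p], (eps u : ℤ_[p]) = 1 + p * y ∧ toZMod y = ell u :=
  ⟨_, (exists_ell u).choose_spec, rfl⟩

lemma ell_eq {u : ℤ_[p]ˣ} {y : ℤ_[p]} (h : (eps u : ℤ_[p]) = 1 + p * y) : ell u = toZMod y := by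
  obtain ⟨y', h1, h2⟩ := ell_spec u
  rw [← h2, mul_left_cancel₀ (Nat.cast_ne_zero.mpr hp.out.ne_zero)
    (add_left_cancel (h1.symm.trans h))]

lemma ell_mul (u v : ℤ_[p]ˣ) : ell (u * v) = ell u + ell v := by
  obtain ⟨y, h1, h2⟩ := ell_spec u
  obtain ⟨z, h3, h4⟩ := ell_spec v
  rw [ell_eq (y := y + z + (p : ℤ_[p]) * y * z) (by rw [map_mul, Units.val_mul, h1, h3]; ring), ← h2, ← h4]
  simp

lemma ell_of_mod {u : ℤ_[p]ˣ} {c : ℕ} (h : toZModPow 2 (u : ℤ_[p]) = (p * c + 1 : ℕ)) :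
    ell u = c := by
  have h1 : (u : ℤ_[p]) - (p * c + 1 : ℕ) ∈ RingHom.ker (toZModPow (p := p) 2) := by
    rw [RingHom.mem_ker, map_sub, h, map_natCast, sub_self]
  rw [ker_toZModPow, Ideal.mem_span_singleton] at h1
  obtain ⟨w, hw⟩ := h1
  have h2 : (u : ℤ_[p]) = 1 + p * (c + p * w) := by
    push_cast at hw
    linear_combination hw
  have h3 : om u = 1 := Units.ext (by
    change tm (toZMod (u : ℤ_[p])) = 1
    simp [h2])
  rw [ell_eq (y := (c : ℤ_[p]) + (p : ℤ_[p]) * w) (by rw [← h2, ← mul_one (eps u), ← h3, eps_mul_om])]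
  simp

variable {Ω : Type} [Field Ω] [CharZero Ω] [IsAlgClosure ℚ Ω]

variable (p) in
/-- the cyclotomic character -/
noncomputable def chi : (Ω ≃ₐ[ℚ] Ω) →* ℤ_[p]ˣ :=
  MonoidHom.mk' (fun g => cyclotomicCharacter Ω p g.toRingEquiv)
    fun g h => map_mul (cyclotomicCharacter Ω p) g.toRingEquiv h.toRingEquiv

lemma chi_spec (g : Ω ≃ₐ[ℚ] Ω) {x : Ω} (hx : x ^ p ^ 2 = 1) :
    g x = x ^ (toZModPow 2 (chi p g : ℤ_[p])).val := by
  haveI : IsAlgClosed Ω := IsAlgClosure.isAlgClosed ℚ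
  exact cyclotomicCharacter.spec p g.toRingEquiv x hx

lemma chi_cyc2 (g : Ω ≃ₐ[ℚ] Ω) : toZModPow 2 (chi p g : ℤ_[p]) = cyc (p ^ 2) g := by
  rw [cyc_eq _ (chi_spec g (zeta_spec _).pow_eq_one)]
  simp

lemma chi_cyc (g : Ω ≃ₐ[ℚ] Ω) : toZMod (chi p g : ℤ_[p]) = cyc p g := by
  rw [cyc_eq _ (chi_spec g (by rw [pow_two, pow_mul, (zeta_spec _).pow_eq_one, one_pow])),
    ← eq_toZMod ((ZMod.castHom (dvd_pow_self p two_ne_zero) (ZMod p)).comp (toZModPow 2))]
  simp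

variable (p) in
/-- the additive character of conductor `p ^ 2` -/
noncomputable def psi (g : Ω ≃ₐ[ℚ] Ω) : ZMod p := ell (chi p g)

lemma psi_add : AddCh (psi (Ω := Ω) p) := fun g h => by rw [psi, map_mul, ell_mul]; rfl

lemma psi_eq {g : Ω ≃ₐ[ℚ] Ω} {c : ℕ} (h : (cyc (p ^ 2) g : ZMod (p ^ 2)) = (p * c + 1 : ℕ)) :
    psi p g = c := ell_of_mod ((chi_cyc2 g).trans h)

lemma psi_zero {g : Ω ≃ₐ[ℚ] Ω} (h : cyc (p ^ 2) g = 1) : psi p g = 0 := by
  simpa using psi_eq (c := 0) (by simp [h])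

lemma psi_nhds : {g : Ω ≃ₐ[ℚ] Ω | psi p g = 0} ∈ 𝓝 1 :=
  Filter.mem_of_superset (cyc_nhds (p ^ 2)) fun _ h => psi_zero h

lemma psi_unram {P : Ideal (𝓞 Ω)} [P.IsMaximal] {l : ℕ} (hl : l.Prime) (h : (l : 𝓞 Ω) ∈ P)
    (hlp : l ≠ p) {u : Ω ≃ₐ[ℚ] Ω} (hu : u ∈ P.inertia (Ω ≃ₐ[ℚ] Ω)) : psi p u = 0 :=
  psi_zero (cyc_inertia (not_mem_of_coprime h
    (((Nat.coprime_primes hl hp.out).mpr hlp).pow_right 2)) hu)

lemma exists_psi_one {P : Ideal (𝓞 Ω)} [P.IsMaximal] (h : (p : 𝓞 Ω) ∈ P) :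
    ∃ τ ∈ P.inertia (Ω ≃ₐ[ℚ] Ω), psi p τ = 1 := by
  have h1 : ((P.inertia (Ω ≃ₐ[ℚ] Ω)).map (cyc (p ^ 2))).comap (cyc (Ω := Ω) (p ^ 2)) = ⊤ := by
    refine eq_top_of_open _ (Filter.mem_of_superset (cyc_nhds (p ^ 2)) fun g hg => ?_)
      fun P' _ g hg => ?_
    · rw [SetLike.mem_coe, Subgroup.mem_comap, hg]
      exact one_mem _
    · rw [Subgroup.mem_comap]
      by_cases h' : (p : 𝓞 Ω) ∈ P'
      · obtain ⟨a, ha⟩ := exists_conj hp.out h h'
        refine ⟨_, ha g hg, ?_⟩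
        rw [map_mul, map_mul, map_inv, mul_right_comm, inv_mul_cancel, one_mul]
      · rw [cyc_inertia (fun e => h' (Ideal.IsPrime.mem_of_pow_mem inferInstance 2
          (by exact_mod_cast e))) hg]
        exact one_mem _
  obtain ⟨g, hg⟩ := cyc_surj (Ω := Ω) (p ^ 2)
    (ZMod.unitOfCoprime (p * 1 + 1) (Nat.Coprime.pow_right 2 (by simp)))
  obtain ⟨τ, t1, t2⟩ : g ∈ ((P.inertia (Ω ≃ₐ[ℚ] Ω)).map (cyc (p ^ 2))).comap
    (cyc (Ω := Ω) (p ^ 2)) := h1 ▸ Subgroup.mem_top g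
  exact ⟨τ, t1, by simpa using psi_eq (c := 1) (by rw [t2, hg]; rfl)⟩

variable (ι : Ω →+* ℂ_[p])

end Pool.Agent.MP_f68ac8_nt

end
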