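import Mathlib
import Pool.Agent.MP_f68ac8_nt.EvAux
import Pool.Agent.MP_f68ac8_nt.FvDefs
import Pool.Agent.Mg.Fe23604m.Ge12da9
import Pool.Agent.MP_d64882_nt.Frob
import Pool.Agent.MP_f68ac8_nt.GvDefs
import Pool.Agent.Mg.Fe23604m.Gece136
import Pool.Agent.MP_14ad9d_nt.Full.FI2

set_option linter.all false

section

/-! Auxiliary statements for lifts over number fields: arithmetic part. -/

namespace Pool.Agent.MP_f68ac8_nt.Ev

open NumberField Matrix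
open Pool.Agent.MP_14ad9d_nt.Full (Pr ord Tm tame Phi NearAt)
open Pool.Agent.MP_d64882_nt (Dens)
open scoped Pointwise Topology

/-- an exponent killing the Galois group of `F(μ_p)` -/
noncomputable def mm (p : ℕ) (F : IntermediateField ℚ Qb) : ℕ := Module.finrank ℚ F * (p - 1)

lemma Gmu_eq (p : ℕ) [Fact p.Prime] (F : IntermediateField ℚ Qb) : Gmu p F = HH p F := by
  ext g
  refine and_congr_right fun _ => ⟨fun h => ?_, fun h => ?_⟩
  · exact cyc_of_xi ((mem_fixingSubgroup_iff GQ).mp h _ xi_spec.pow_eq_one)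
  · refine (mem_fixingSubgroup_iff GQ).mpr fun x hx => ?_
    have h1 : cyc p g = 1 := h
    have h2 := cyc_spec p g hx
    rw [h1, Units.val_one, ZMod.val_one, pow_one] at h2
    exact h2

/-- the image of `G` in the Galois group of `F` -/
abbrev Dl (G : Subgroup GQ) (F : IntermediateField ℚ Qb) [Normal ℚ F] : Type := ↥(G.map (res F))

noncomputable instance instFintypeDl (G : Subgroup GQ) (F : IntermediateField ℚ Qb)
    [NumberField F] [Normal ℚ F] : Fintype (Dl G F) := Fintype.ofFinite _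

/-- restriction from `G` onto its image -/
noncomputable def rs (G : Subgroup GQ) (F : IntermediateField ℚ Qb) [Normal ℚ F] : G →* Dl G F :=
  (res F).subgroupMap G

/-- powers of Frobenius elements and decomposition groups -/
def WildStmt : Prop :=
  (∀ (l e : ℕ) (P : Ideal OQ) (σ u : GQ), l.Prime → P.IsMaximal → (l : OQ) ∈ P →
    IsFrob (l ^ e) P σ → u ∈ P.inertia GQ → ∀ s ∈ 𝓝 (1 : GQ),
      ∃ a : ℕ, (σ * u * σ⁻¹ * (u ^ l ^ e)⁻¹) ^ l ^ a ∈ s) ∧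
  (∀ (F : IntermediateField ℚ Qb) [NumberField F] (P : Ideal OQ), P.IsMaximal →
    ∃ (l e : ℕ) (s : GQ), l.Prime ∧ 0 < e ∧ (l : OQ) ∈ P ∧
      Ideal.absNorm (P.under (𝓞 F)) = l ^ e ∧ s ∈ F.fixingSubgroup ∧ IsFrob (l ^ e) P s) ∧
  (∀ (l m : ℕ) (P : Ideal OQ) (σ : GQ), 0 < l → IsFrob l P σ → IsFrob (l ^ m) P (σ ^ m)) ∧
  ∀ (L : IntermediateField ℚ Qb) [NumberField L] [IsGalois ℚ L] (l : ℕ) (P : Ideal OQ) (σ : GQ),
    l.Prime → P.IsMaximal → (l : OQ) ∈ P → IsFrob l P σ → P.inertia GQ ≤ L.fixingSubgroup →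
    σ • P = P ∧ MulAction.stabilizer GQ P ≤ Subgroup.zpowers σ ⊔ L.fixingSubgroup ∧
      Ideal.absNorm (P.under (𝓞 L)) = l ^ orderOf (res L σ)

section
variable (p : ℕ) [hp : Fact p.Prime]

/-- tame symbols at an unramified prime in terms of Kummer characters -/
def LocUStmt : Prop :=
  ∀ (M : IntermediateField ℚ Qb) [NumberField M] [IsGalois ℚ M] (hM : xi p ∈ M) (l : ℕ),
    2 < p → l.Prime → l ≠ p → ∀ (P : Ideal OQ) (w : Pr M), P.IsMaximal → (l : OQ) ∈ P →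
    w.asIdeal = P.under (𝓞 M) → P.inertia GQ ≤ M.fixingSubgroup →
    ord w (l : M) = 1 ∧ (∃ τ ∈ P.inertia GQ, KK p l τ = 1) ∧
    (∀ τ ∈ P.inertia GQ, ∀ y : M, y ≠ 0 → KK p y τ = ord w y * KK p l τ) ∧
    ∀ (k : ℕ), ∀ s ∈ M.fixingSubgroup, IsFrob (Ideal.absNorm w.asIdeal ^ k) P s →
      ∀ τ ∈ P.inertia GQ, ∀ x y : M, x ≠ 0 → y ≠ 0 →
        k * (KK p l τ * tame p (⟨xi p, hM⟩ : M) w x y) =
          KK p x s * KK p y τ - KK p x τ * KK p y s

/-- validity of the data at an unramified prime -/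
structure Cfg.Ok2 (G : Subgroup GQ) {F : IntermediateField ℚ Qb} [NumberField F] (c : Cfg F) :
    Prop where
  prime : c.l.Prime
  ne : c.l ≠ p
  unr : ¬ (c.l : ℤ) ∣ discr F
  max : c.P.IsMaximal
  mem : (c.l : OQ) ∈ c.P
  frob : IsFrob c.l c.P c.σ
  inG : c.σ ∈ G
  inert : c.τ ∈ c.P.inertia GQ
  gen : KK p c.l c.τ = 1
  span : Ideal.span {c.α} = c.P.under (𝓞 F) ^ (classNumber F * mm p F)
  fix : c.σ ((c.α : F) : Qb) = ((c.α : F) : Qb)

end

/-- the units of a Galois field as a Galois module -/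
structure UData2 (F : Type) [Field F] [NumberField F] {A : Type} [Fintype A] [DecidableEq A]
    (ε : A → (𝓞 F)ˣ) (μ : (F ≃ₐ[ℚ] F) →* Matrix A A ℤ) : Prop where
  act : ∀ δ a, ∃ (s : F) (N : ℕ), 0 < N ∧ s ^ N = 1 ∧
    δ ((ε a : 𝓞 F) : F) = s * ∏ b, ((ε b : 𝓞 F) : F) ^ μ δ b a
  tr : ∀ δ, (μ δ).trace = (Nat.card {w : InfinitePlace F // δ • w = w} : ℤ) - 1
  ind : ∀ (q : ℕ) (e : A → ℤ) (z : F), q ≠ 0 → ∏ a, ((ε a : 𝓞 F) : F) ^ e a = z ^ q →
    ∀ a, (q : ℤ) ∣ e a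

section
variable (p : ℕ) [hp : Fact p.Prime]

/-- the leading term of a deformation -/
structure Lead2 {n : ℕ} {G : Subgroup GQ} (F : IntermediateField ℚ Qb)
    (r : G →* GL (Fin n) (Fbar p)) (Sp Un : Ideal OQ → Prop)
    (f : GQ → Matrix (Fin n) (Fin n) (Fbar p)) : Prop where
  add : ∀ g ∈ F.fixingSubgroup, ∀ h ∈ F.fixingSubgroup, f (g * h) = f g + f h
  conj : ∀ g : G, ∀ h ∈ F.fixingSubgroup,
    f (g * h * (g : GQ)⁻¹) = (r g).val * f h * (r g)⁻¹.val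
  nhds : ∀ᶠ g in 𝓝 (1 : GQ), g ∈ F.fixingSubgroup → f g = 0
  ne : ∃ h ∈ F.fixingSubgroup, f h ≠ 0
  unr : ∀ P g, Iner F P g → Un P → f g = 0
  nil : ∀ P g, Iner F P g → Sp P → f g ^ n = 0
  rel : ∀ l e : ℕ, l.Prime → 0 < e → l ^ e ≡ 1 [MOD p] → ∃ b : Bool, ∀ P, Sp P → (l : OQ) ∈ P →
    ∀ σ ∈ F.fixingSubgroup, IsFrob (l ^ e) P σ → ∀ u, Iner F P u →
      f σ * f u - f u * f σ = (if b then (cu p (l ^ e) : Fbar p) else 0) • f u

/-- elements generating the same subgroup as `t` modulo the Galois group of `F(μ_p)` -/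
def Ty (F : IntermediateField ℚ Qb) (t σ : GQ) : Prop :=
  Subgroup.zpowers σ ⊔ HH p F = Subgroup.zpowers t ⊔ HH p F

open Classical in
/-- counting primes of degree one of a given type -/
def CountStmt : Prop :=
  ∀ (K F : IntermediateField ℚ Qb) [NumberField K] [NumberField F] [IsGalois ℚ F], K ≤ F →
    ∀ t ∈ K.fixingSubgroup, ∀ (L : IntermediateField ℚ Qb) [NumberField L] [IsGalois ℚ L],
    L.fixingSubgroup ≤ HH p F → ∀ sc : (L ≃ₐ[ℚ] L) → GQ, (∀ x, res L (sc x) = x) →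
    ∃ N : ℕ, 0 < N ∧ ∀ (l : ℕ) (P : Ideal OQ) (σ : GQ), l.Prime → l ≠ p → ¬ (l : ℤ) ∣ discr F →
      P.IsMaximal → (l : OQ) ∈ P → IsFrob l P σ → ∀ f : Ideal (𝓞 K) → ℝ,
      (∑ x, if Ty p F t ((sc x)⁻¹ * σ * sc x) then f (((sc x)⁻¹ • P).under (𝓞 K)) else 0) =
        N * ∑ᶠ q ∈ {q | Typ p K F t q ∧ Ideal.absNorm q = l}, f q

end

/-- lower means over prime ideals from densities over rational primes -/
def IdMeanStmt : Prop :=
  ∀ (K : Type) [Field K] [NumberField K],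
    (∀ (T : ℕ → Ideal (𝓞 K) → Prop) (d : ℕ) (A : Set (Ideal (𝓞 K)) → Prop),
      0 ≤ idDens T d A ∧ idDens T d A ≤ 1) ∧
    ∀ (T : Ideal (𝓞 K) → Prop) (f : Ideal (𝓞 K) → ℝ), (∀ q, T q → q.IsMaximal) →
      (∀ q, 0 ≤ f q) → (∀ q, f q ≤ 1) → ∀ (a b : ℕ → ℝ) (α β : ℝ) (E : Finset ℕ),
      Dens a α → Dens b β → β ≠ 0 → (∀ l, ¬ l.Prime → a l = 0 ∧ b l = 0) →
      (∀ l ∉ E, l.Prime → a l ≤ ∑ᶠ q ∈ {q | T q ∧ Ideal.absNorm q = l}, f q ∧
        b l = ∑ᶠ q ∈ {q | T q ∧ Ideal.absNorm q = l}, (1 : ℝ)) → α / β ≤ idMean T f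

end Pool.Agent.MP_f68ac8_nt.Ev

end

section

/-! Auxiliary statements for the rigidity of ordinary lifts. -/

namespace Pool.Agent.MP_f68ac8_nt.Ev

open NumberField Matrix Finset IsLocalRing
open Pool.Agent.MP_14ad9d_nt.Full (Pr ord Tm tame Phi NearAt Near Deg1)
open scoped Pointwise Topology

section recip
variable (p : ℕ) [hp : Fact p.Prime]

/-- a ray class character vanishing where the residue symbol of `β` vanishes -/
structure KeyData {K : Type} [Field K] [NumberField K] (ζ β : K) (m : Finset (Pr K))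
    (ϖ : Pr K → K) (χ : Pr K → ZMod p) : Prop where
  two : 2 < p
  prim : IsPrimitiveRoot ζ p
  ne : β ≠ 0
  ram : ∀ v, Tm p v → v ∉ m → (p : ℤ) ∣ ord v β
  uni : ∀ v, ϖ v ≠ 0 ∧ ord v (ϖ v) = 1
  zero : ∀ v, Tm p v → v ∉ m → tame p ζ v β (ϖ v) = 0 → χ v = 0
  ray : ∀ α : K, α ≠ 0 → (∀ v ∈ m, v.valuation K (α - 1) < 1) →
    ∑ᶠ v : Pr K, (ord v α : ZMod p) * χ v = 0

/-- proportionality at unramified primes of degree one -/
def Key1Stmt : Prop :=
  ∀ (K : Type) [Field K] [NumberField K] (ζ β : K) (m : Finset (Pr K)) (ϖ : Pr K → K)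
    (χ : Pr K → ZMod p), KeyData p ζ β m ϖ χ → ∀ v₁ v₂ : Pr K, Tm p v₁ → Tm p v₂ → v₁ ∉ m →
    v₂ ∉ m → Deg1 v₁ → Deg1 v₂ → ord v₁ ((Ideal.absNorm v₁.asIdeal : ℕ) : K) = 1 →
    ord v₂ ((Ideal.absNorm v₂.asIdeal : ℕ) : K) = 1 →
    Ideal.absNorm v₁.asIdeal ≠ Ideal.absNorm v₂.asIdeal → tame p ζ v₁ β (ϖ v₁) ≠ 0 →
    χ v₁ * tame p ζ v₂ β (ϖ v₂) = χ v₂ * tame p ζ v₁ β (ϖ v₁)

/-- the residue symbol of a root of unity is a ray class character -/
def MuStmt : Prop :=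
  ∀ (E : Type) [Field E] [NumberField E] (ζ μ : E) (i : ℕ), 2 < p → IsPrimitiveRoot ζ p →
    μ ^ p ^ i = ζ → (∀ q : Pr E, Tm p q → p ^ (i + 1) ∣ Ideal.absNorm q.asIdeal - 1) ∧
    ∀ a : 𝓞 E, a ≠ 0 → (p : 𝓞 E) ^ (i + 2) ∣ a - 1 →
      ∑ᶠ q : Pr E, ord q (a : E) • Pool.Agent.MP_14ad9d_nt.Full.chi p ζ q μ = 0

/-- moving to primes of degree one -/
def Key2Stmt : Prop :=
  ∀ (K : Type) [Field K] [NumberField K] (ζ β : K) (m : Finset (Pr K)) (ϖ : Pr K → K)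
    (χ : Pr K → ZMod p), KeyData p ζ β m ϖ χ → ∀ v : Pr K, Tm p v → v ∉ m →
    {u : Pr K | Deg1 u ∧ Tm p u ∧ u ∉ m ∧ χ u = χ v ∧
      tame p ζ u β (ϖ u) = tame p ζ v β (ϖ v)}.Infinite

/-- the reciprocity law for a primary element in any number field -/
def R1GStmt : Prop :=
  ∀ (K : Type) [Field K] [NumberField K] (ζ : K), 2 < p → IsPrimitiveRoot ζ p →
    ∀ α β : K, α ≠ 0 → β ≠ 0 → Near p ζ (p + 1) β → Phi p ζ α β = 0

/-- Hensel's lemma for `p`-th powers -/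
def HensStmt : Prop :=
  ∀ (K : Type) [Field K] [NumberField K] (ζ : K), 2 < p → IsPrimitiveRoot ζ p →
    ∀ v : Pr K, ¬ Tm p v → ∀ x : K, v.valuation K (x - 1) < v.valuation K (1 - ζ) ^ p →
    ∀ k, NearAt p ζ k v x

/-- split and unramified Kummer extensions at primes above `p` -/
def LocPStmt : Prop :=
  ∀ (M : IntermediateField ℚ Qb) [NumberField M] (hM : xi p ∈ M) (P : Ideal OQ) (w : Pr M),
    2 < p → P.IsMaximal → (p : OQ) ∈ P → w.asIdeal = P.under (𝓞 M) → ∀ (η : Qb) (β : M), β ≠ 0 →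
    η ^ p = β →
    ((∀ g ∈ M.fixingSubgroup, g • P = P → g η = η) → ∀ k, NearAt p (⟨xi p, hM⟩ : M) k w β) ∧
    ((∀ u ∈ P.inertia GQ, u ∈ M.fixingSubgroup → u η = η) → NearAt p (⟨xi p, hM⟩ : M) p w β)

/-- tame symbols through Frobenius elements -/
def LocGStmt : Prop :=
  ∀ (M : IntermediateField ℚ Qb) [NumberField M] (hM : xi p ∈ M) (P : Ideal OQ) (w : Pr M),
    2 < p → P.IsMaximal → (p : OQ) ∉ P → w.asIdeal = P.under (𝓞 M) →
    ∀ s ∈ M.fixingSubgroup, IsFrob (Ideal.absNorm w.asIdeal) P s → ∀ x y : M, x ≠ 0 → y ≠ 0 →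
      tame p (⟨xi p, hM⟩ : M) w x y = ord w y * KK p x s - ord w x * KK p y s

end recip

/-- additive functions on ideals -/
def ExtStmt : Prop :=
  ∀ (F : Type) [Field F] [NumberField F] (V : Type) [AddCommGroup V],
    (∀ h : Pr F → V, ∃ φ : Ideal (𝓞 F) → V, φ ⊥ = 0 ∧
      (∀ I J, I ≠ ⊥ → J ≠ ⊥ → φ (I * J) = φ I + φ J) ∧ ∀ w : Pr F, φ w.asIdeal = h w) ∧
    ∀ φ : Ideal (𝓞 F) → V, (∀ I J, I ≠ ⊥ → J ≠ ⊥ → φ (I * J) = φ I + φ J) →
      (∀ a : 𝓞 F, a ≠ 0 → φ (Ideal.span {a}) = ∑ᶠ w : Pr F, ord w (a : F) • φ w.asIdeal) ∧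
      ((∀ w : Pr F, φ w.asIdeal = 0) → ∀ I, I ≠ ⊥ → φ I = 0)

section
variable {p : ℕ} [hp : Fact p.Prime]

/-- the cyclotomic character modulo `p` -/
noncomputable abbrev cb (p : ℕ) [Fact p.Prime] (g : GQ) : ZMod p :=
  PadicInt.toZMod (cycChar p g : ℤ_[p])

lemma cb_eq (g : GQ) : cb p g = (cyc p g : ZMod p) := chi_cyc g

/-- the matrix of valuations -/
noncomputable def ordM (p : ℕ) {F : Type} [Field F] [NumberField F] {n : ℕ} (w : Pr F)
    (ξ : Matrix (Fin n) (Fin n) (𝓞 F)) : Mt n (ZMod p) :=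
  Matrix.of fun i j => ((ord w (ξ i j : F) : ℤ) : ZMod p)

/-- the data attached to an auxiliary prime -/
structure Co where
  l : ℕ
  P : Ideal OQ
  σ : GQ
  τ : GQ

/-- the residue degree -/
noncomputable def Co.m (c : Co) (F : IntermediateField ℚ Qb) [Normal ℚ F] : ℕ :=
  orderOf (res F c.σ)

variable {K : IntermediateField ℚ Qb} {n : ℕ}

/-- validity of the data -/
structure Co.Ok (c : Co) (D : Dat p K n) (F : IntermediateField ℚ Qb) [NumberField F]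
    [Normal ℚ F] : Prop where
  prime : c.l.Prime
  lev : ¬ c.l ∣ D.N
  unr : ¬ (c.l : ℤ) ∣ discr F
  max : c.P.IsMaximal
  mem : (c.l : OQ) ∈ c.P
  frob : IsFrob c.l c.P c.σ
  inG : c.σ ∈ K.fixingSubgroup
  inert : c.τ ∈ c.P.inertia GQ
  gen : KK p c.l c.τ = 1
  ord : ¬ p ∣ c.m F

/-- an equivariant additive map with the ordinary condition, unramified outside the level and the
auxiliary primes -/
structure Sel (D : Dat p K n) (F : IntermediateField ℚ Qb) {J : Type} (c : J → Co)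
    (f : GQ → Mt n (ZMod p)) : Prop where
  tang : Tang p F D.r f
  wild : ∀ P g, Iner F P g → (p : OQ) ∈ P → D.In (· ≤ ·) P (f g)
  unr : ∀ P g, Iner F P g → (D.N : OQ) ∉ P → (∀ j, ∀ s ∈ K.fixingSubgroup, P ≠ s • (c j).P) →
    f g = 0

/-- the function on ideals given by the values on Frobenius elements -/
structure Art (D : Dat p K n) (F : IntermediateField ℚ Qb) [NumberField F] [Normal ℚ F]
    {J : Type} (c : J → Co) (f : GQ → Mt n (ZMod p)) (φ : Ideal (𝓞 F) → Mt n (ZMod p)) :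
    Prop where
  eqv : D.Eqv F φ
  aux : ∀ j, ∀ g ∈ K.fixingSubgroup,
    φ ((g • (c j).P).under (𝓞 F)) = f (g * (c j).σ ^ (c j).m F * g⁻¹)
  oth : ∀ P : Ideal OQ, P.IsMaximal → (D.N : OQ) ∉ P →
    (∀ j, ∀ s ∈ K.fixingSubgroup, P ≠ s • (c j).P) → ∀ s ∈ F.fixingSubgroup,
    IsFrob (Ideal.absNorm (P.under (𝓞 F))) P s → φ (P.under (𝓞 F)) = f s

/-- the linear algebra attached to a type -/
structure RamData (D : Dat p K n) (F : IntermediateField ℚ Qb) (t : GQ)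
    (X H Y : Mt n (ZMod p)) : Prop where
  ne : X ≠ 0
  trX : X.trace = 0
  trH : H.trace = 0
  trY : Y.trace = 0
  pair : (Y * H).trace ≠ 0
  fix : ∀ g : K.fixingSubgroup, g.1 ∈ Subgroup.zpowers t ⊔ F.fixingSubgroup →
    D.ad g X = cb p g • X ∧ D.ad g H = H ∧ D.ad g Y = Y
  eig : ∀ s : K.fixingSubgroup, t ∈ Subgroup.zpowers s.1 ⊔ F.fixingSubgroup → ∀ Z,
    (D.ad s Z = cb p s • Z → ∃ c : ZMod p, Z = c • X) ∧
    (D.ad s Z = Z → brk Z X = (H * Z).trace • X)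

/-- a residue map -/
structure Resd (p : ℕ) [Fact p.Prime] {O k : Type} [CommRing O] [IsLocalRing O]
    [Algebra ℤ_[p] O] [Field k] [Algebra (ZMod p) k] (π : O →+* k) : Prop where
  surj : Function.Surjective π
  ker : ∀ x, π x = 0 ↔ x ∈ maximalIdeal O
  comp : ∀ x : ℤ_[p], π (algebraMap ℤ_[p] O x) = algebraMap (ZMod p) k (PadicInt.toZMod x)

/-- a lift congruent to the base point modulo the `k`-th power of a uniformizer -/
structure Lev (D : Dat p K n) {O : Type} [CommRing O] [IsLocalRing O] [Algebra ℤ_[p] O]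
    (ρ : K.fixingSubgroup →* GL (Fin n) O) (ϖ : O) (k : ℕ) (Z : K.fixingSubgroup → Mt n O) :
    Prop where
  irr : Irreducible ϖ
  pos : 0 < k
  eq : ∀ g, (ρ g).val = (1 + ϖ ^ k • Z g) * (D.ρ g).val.map (algebraMap ℤ_[p] O)
  cont : ∀ j, ∀ᶠ g in 𝓝 1, ∀ a b, ((ρ g).val - 1) a b ∈ maximalIdeal O ^ j

end

section
variable (p : ℕ) [hp : Fact p.Prime]

/-- equivariant functions on ideals from functions on primes, and the pairing -/
def EqvStmt : Prop :=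
  ∀ (K F : IntermediateField ℚ Qb) [NumberField F] [IsGalois ℚ F] (n : ℕ) (D : Dat p K n),
    (∀ h : Pr F → Mt n (ZMod p), (∀ w, (h w).trace = 0) →
      (∀ w : Pr F, (D.N : 𝓞 F) ∈ w.asIdeal → h w = 0) →
      (∀ (g : K.fixingSubgroup) (w w' : Pr F), w'.asIdeal = res F g.1 • w.asIdeal →
        h w' = D.ad g (h w)) → ∃ φ, D.Eqv F φ ∧ φ ⊥ = 0 ∧ ∀ w : Pr F, φ w.asIdeal = h w) ∧
    (∀ φ ξ, D.Eqv F φ → (∀ i j, ξ i j ≠ 0) →
      (Function.support fun w : Pr F => ordM p w ξ).Finite ∧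
      Dat.pair φ ξ = ∑ᶠ w : Pr F, (ordM p w ξ * φ w.asIdeal).trace) ∧
    ∀ (g : GQ) (P : Ideal OQ), (g • P).under (𝓞 F) = res F g • P.under (𝓞 F)

/-- Kummer maps and corestriction -/
def CoresStmt : Prop :=
  ∀ (K F : IntermediateField ℚ Qb) [NumberField K] [NumberField F] [IsGalois ℚ F], K ≤ F →
    ∀ (n : ℕ) (D : Dat p K n), D.Base F →
    (xi p ∈ F ∧ HH p F = F.fixingSubgroup ∧
      Finite (K.fixingSubgroup ⧸ F.fixingSubgroup.subgroupOf K.fixingSubgroup) ∧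
      (∀ g h : K.fixingSubgroup, ∀ X, D.ad (g * h) X = D.ad g (D.ad h X)) ∧
      (∀ g : K.fixingSubgroup, g.1 ∈ F.fixingSubgroup → cb p g = 1 ∧ ∀ X, D.ad g X = X)) ∧
    ∀ ξ κ, D.Good F (xi p) ξ κ → (∀ i j, ξ i j ≠ 0) ∧
      (∀ g ∈ F.fixingSubgroup, ∀ i j, κ g i j = KK p ((ξ i j : F) : Qb) g) ∧
      (∀ (c : K.fixingSubgroup) (x : K.fixingSubgroup ⧸ F.fixingSubgroup.subgroupOf _),
        x = QuotientGroup.mk c → ∀ g ∈ F.fixingSubgroup,
        cb p (x.out⁻¹ : K.fixingSubgroup) • D.ad x.out⁻¹ (κ (x.out * g * (x.out : GQ)⁻¹)) =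
          cb p (c⁻¹ : K.fixingSubgroup) • D.ad c⁻¹ (κ (c * g * (c : GQ)⁻¹))) ∧
      (∀ g ∈ F.fixingSubgroup, ∀ h ∈ F.fixingSubgroup,
        D.cores F κ (g * h) = D.cores F κ g + D.cores F κ h) ∧
      (∀ᶠ g in 𝓝 (1 : GQ), g ∈ F.fixingSubgroup → D.cores F κ g = 0) ∧
      (∀ g ∈ F.fixingSubgroup, (D.cores F κ g).trace = 0) ∧
      ∀ t : K.fixingSubgroup, ∀ g ∈ F.fixingSubgroup,
        D.cores F κ (t * g * (t : GQ)⁻¹) = cb p t • D.ad t (D.cores F κ g)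

/-- existence and basic properties of the data at an auxiliary prime -/
def CoStmt : Prop :=
  ∀ (K F : IntermediateField ℚ Qb) [NumberField K] [NumberField F] [IsGalois ℚ F], K ≤ F →
    ∀ (n : ℕ) (D : Dat p K n), D.Base F →
    (∀ (l : ℕ) (P : Ideal OQ), l.Prime → ¬ l ∣ D.N → ¬ (l : ℤ) ∣ discr F →
      P.IsMaximal → (l : OQ) ∈ P → ∃ τ ∈ P.inertia GQ, KK p l τ = 1) ∧
    ∀ c : Co, c.Ok D F → c.P.inertia GQ ≤ F.fixingSubgroup ∧ (D.N : OQ) ∉ c.P ∧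
      c.σ ^ c.m F ∈ F.fixingSubgroup ∧ c.σ • c.P = c.P ∧
      Ideal.absNorm (c.P.under (𝓞 F)) = c.l ^ c.m F ∧ c.l ^ c.m F ≡ 1 [MOD p] ∧
      IsFrob (c.l ^ c.m F) c.P (c.σ ^ c.m F) ∧ cb p c.σ = c.l ∧
      (∀ g : GQ, (g • c.P).under (𝓞 F) = c.P.under (𝓞 F) ↔
        g ∈ Subgroup.zpowers c.σ ⊔ F.fixingSubgroup) ∧
      (∀ (g : GQ) (w : Pr F), w.asIdeal = (g • c.P).under (𝓞 F) → ∀ y : F, y ≠ 0 →
        KK p y (g * c.τ * g⁻¹) = cb p g * ord w y) ∧
      ∀ (V : Type) [AddCommGroup V] [Module (ZMod p) V] (a : Pr F → V) (b : GQ → V),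
        (∀ g ∈ K.fixingSubgroup, ∀ w : Pr F, w.asIdeal = (g • c.P).under (𝓞 F) → b g = a w) →
        ∑ᶠ x : K.fixingSubgroup ⧸ F.fixingSubgroup.subgroupOf K.fixingSubgroup, b x.out =
          (c.m F : ZMod p) • ∑ᶠ w ∈ {w : Pr F | ∃ g ∈ K.fixingSubgroup,
            w.asIdeal = (g • c.P).under (𝓞 F)}, a w

/-- nonvanishing of the characters -/
def NzStmt : Prop :=
  ∀ (K F : IntermediateField ℚ Qb) [NumberField K] [NumberField F] [IsGalois ℚ F], K ≤ F →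
    ∀ (n : ℕ) (D : Dat p K n), D.Base F →
    (∀ Ψ : GQ → Mt n (ZMod p), (∀ g ∈ F.fixingSubgroup, (Ψ g).trace = 0) →
      (∀ t : K.fixingSubgroup, ∀ g ∈ F.fixingSubgroup,
        Ψ (t * g * (t : GQ)⁻¹) = cb p t • D.ad t (Ψ g)) → (∃ g ∈ F.fixingSubgroup, Ψ g ≠ 0) →
      ∀ X : Mt n (ZMod p), X ≠ 0 → X.trace = 0 → ∃ g ∈ F.fixingSubgroup, (Ψ g * X).trace ≠ 0) ∧
    ∀ g₀, Tang p F D.r g₀ → ∀ H : Mt n (ZMod p), H.trace = 0 →
      ∃ g ∈ F.fixingSubgroup, (H * g₀ g).trace - psi p g ≠ 0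

end

end Pool.Agent.MP_f68ac8_nt.Ev

end

section

/-! Statements on modular representations and on units of number fields. -/

namespace Pool.Agent.MP_f68ac8_nt.Pv

open NumberField Module Matrix Ev Finset
open Pool.Agent.MP_14ad9d_nt.Full (Pr ord Tm tame Deg1)
open Pool.Agent.MP_14ad9d_nt.Full.FIAux (ac un ac_one ac_mul ord_ac)
open scoped TensorProduct

section alg
variable {p : ℕ} [Fact p.Prime] {Γ : Type} [Group Γ]

/-- the rank of an element of the group algebra on a tensor product -/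
noncomputable def rk {X M : Type} [AddCommGroup X] [Module (ZMod p) X] [AddCommGroup M]
    [Module (ZMod p) M] (e : MonoidAlgebra (ZMod p) Γ) (ρ : Representation (ZMod p) Γ X)
    (σ : Representation (ZMod p) Γ M) : ℕ :=
  finrank (ZMod p) (LinearMap.range ((ρ.tprod σ).asAlgebraHom e))

variable (p) in
/-- reduction modulo `p` -/
noncomputable def red {A : Type} [AddCommGroup A] [Module ℤ A] (α : Representation ℤ Γ A) :
    Representation (ZMod p) Γ (ZMod p ⊗[ℤ] A) where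
  toFun g := (α g).baseChange (ZMod p)
  map_one' := by rw [map_one, LinearMap.baseChange_one]
  map_mul' g h := by rw [map_mul, LinearMap.baseChange_mul]

lemma red_tmul {A : Type} [AddCommGroup A] [Module ℤ A] (α : Representation ℤ Γ A) (g : Γ)
    (c : ZMod p) (a : A) : red p α g (c ⊗ₜ a) = c ⊗ₜ α g a := rfl

variable (Γ) in
/-- permutation representations -/
def perm (R Sg : Type) [CommRing R] [MulAction Γ Sg] : Representation R Γ (Sg → R) where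
  toFun g := LinearMap.funLeft R R fun x => g⁻¹ • x
  map_one' := LinearMap.ext fun y => funext fun x => by simp
  map_mul' g h := LinearMap.ext fun y => funext fun x => by simp [SemigroupAction.mul_smul]

lemma perm_apply {R Sg : Type} [CommRing R] [MulAction Γ Sg] (g : Γ) (y : Sg → R) (x : Sg) :
    perm Γ R Sg g y x = y (g⁻¹ • x) := rfl

variable (p) in
/-- a lattice commensurable with a permutation lattice modulo an invariant vector -/
structure JData {A : Type} [AddCommGroup A] [Module ℤ A] (α : Representation ℤ Γ A) (Sg : Type)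
    [MulAction Γ Sg] (j : (Sg → ℤ) →ₗ[ℤ] A) : Prop where
  fin : Module.Finite ℤ A
  tf : ∀ a : A, (p : ℤ) • a = 0 → a = 0
  eqv : ∀ g y, j (perm Γ ℤ Sg g y) = α g (j y)
  idx : ∃ N : ℤ, N ≠ 0 ∧ ∀ a, N • a ∈ LinearMap.range j
  ker : ∃ y₀, y₀ ≠ 0 ∧ (∀ g, perm Γ ℤ Sg g y₀ = y₀) ∧
    LinearMap.ker j = Submodule.span ℤ {y₀}

variable (p) in
/-- a Sylow subgroup of order `p` with its normaliser -/
structure Bor (s t : Γ) (a e : ℕ) : Prop where
  os : orderOf s = p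
  ot : t ^ e = 1
  rel : t * s = s ^ a * t
  oa : orderOf (a : ZMod p) = e
  pos : 0 < e
  ti : ∀ g : Γ, g * s * g⁻¹ ∈ Subgroup.closure {s, t} → g ∈ Subgroup.closure {s, t}

/-- conjugation of matrices -/
def cj {n : ℕ} (A : GL (Fin n) (ZMod p)) (Z : Mt n (ZMod p)) : Mt n (ZMod p) :=
  A.val * Z * A⁻¹.val

/-- a faithful projective representation with irreducible adjoint representation -/
structure AdData {n : ℕ} (R : Γ → GL (Fin n) (ZMod p)) : Prop where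
  one : ∀ Z, cj (R 1) Z = Z
  mul : ∀ g h Z, cj (R (g * h)) Z = cj (R g) (cj (R h) Z)
  inj : ∀ g, (∀ Z, cj (R g) Z = Z) → g = 1
  irr : ∀ W : Submodule (ZMod p) (Mt n (ZMod p)), (∀ g, ∀ Z ∈ W, cj (R g) Z ∈ W) →
    (∀ Z ∈ W, Z.trace = 0) → W = ⊥ ∨ ∀ Z, Z.trace = 0 → Z ∈ W

variable (p) in
/-- trace zero matrices -/
abbrev Sl (n : ℕ) : Submodule (ZMod p) (Mt n (ZMod p)) :=
  LinearMap.ker (Matrix.traceLinearMap (Fin n) (ZMod p) (ZMod p))

lemma trace_cj {n : ℕ} (A : GL (Fin n) (ZMod p)) (Z : Mt n (ZMod p)) :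
    (cj A Z).trace = Z.trace := by
  rw [cj, trace_mul_comm, ← mul_assoc, Units.inv_mul, one_mul]

/-- the adjoint representation -/
noncomputable def adRep {n : ℕ} {R : Γ → GL (Fin n) (ZMod p)} (h : AdData R) :
    Representation (ZMod p) Γ (Sl p n) where
  toFun g :=
    { toFun := fun Z => ⟨cj (R g) Z, (trace_cj _ _).trans Z.2⟩
      map_add' := fun Z W => Subtype.ext (by simp [cj, mul_add, add_mul])
      map_smul' := fun c Z => Subtype.ext (by simp [cj]) }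
  map_one' := LinearMap.ext fun Z => Subtype.ext (h.one Z)
  map_mul' g k := LinearMap.ext fun Z => Subtype.ext (h.mul g k Z)

lemma adRep_val {n : ℕ} {R : Γ → GL (Fin n) (ZMod p)} (h : AdData R) (g : Γ) (Z : Sl p n) :
    (adRep h g Z).1 = cj (R g) Z := rfl

end alg

section stmts
variable (p : ℕ) [Fact p.Prime]

/-- the reduction map -/
def BcStmt : Prop :=
  ∀ (A : Type) [AddCommGroup A] [Module ℤ A],
    (∀ x : ZMod p ⊗[ℤ] A, ∃ a : A, x = 1 ⊗ₜ a) ∧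
    (∀ a : A, ((1 : ZMod p) ⊗ₜ[ℤ] a = 0) ↔ ∃ b, a = (p : ℤ) • b) ∧
    (Module.Finite ℤ A → (∀ a : A, (p : ℤ) • a = 0 → a = 0) →
      finrank (ZMod p) (ZMod p ⊗[ℤ] A) = finrank ℤ A)

/-- ranks of idempotents are additive -/
def ExStmt : Prop :=
  ∀ (Γ : Type) [Group Γ] (e : MonoidAlgebra (ZMod p) Γ), IsIdempotentElem e →
    ∀ (M X Y : Type) [AddCommGroup M] [Module (ZMod p) M] [FiniteDimensional (ZMod p) M]
    [AddCommGroup X] [Module (ZMod p) X] [FiniteDimensional (ZMod p) X] [AddCommGroup Y]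
    [Module (ZMod p) Y] [FiniteDimensional (ZMod p) Y] (σ : Representation (ZMod p) Γ M)
    (ρ : Representation (ZMod p) Γ X) (τ : Representation (ZMod p) Γ Y) (u : X →ₗ[ZMod p] Y),
    (∀ g x, u (ρ g x) = τ g (u x)) →
    (∀ v : Y →ₗ[ZMod p] X, (∀ g y, v (τ g y) = ρ g (v y)) → Function.Exact u v →
      Function.Exact v u → rk e ρ σ = rk e τ σ) ∧
    ∀ (Z : Type) [AddCommGroup Z] [Module (ZMod p) Z] (υ : Representation (ZMod p) Γ Z)
      (v : Y →ₗ[ZMod p] Z), (∀ g y, v (τ g y) = υ g (v y)) → Function.Injective u →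
      Function.Exact u v → Function.Surjective v → rk e τ σ = rk e ρ σ + rk e υ σ

/-- commensurable lattices have the same ranks -/
def LatStmt : Prop :=
  ∀ (Γ : Type) [Group Γ] (e : MonoidAlgebra (ZMod p) Γ), IsIdempotentElem e →
    ∀ (M : Type) [AddCommGroup M] [Module (ZMod p) M] [FiniteDimensional (ZMod p) M]
    (σ : Representation (ZMod p) Γ M) (A B : Type) [AddCommGroup A] [Module ℤ A]
    [AddCommGroup B] [Module ℤ B] [Module.Finite ℤ B] (α : Representation ℤ Γ A)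
    (β : Representation ℤ Γ B) (i : A →ₗ[ℤ] B), (∀ g a, i (α g a) = β g (i a)) →
    Function.Injective i → (∀ b : B, (p : ℤ) • b = 0 → b = 0) →
    (∃ N : ℤ, N ≠ 0 ∧ ∀ b : B, N • b ∈ LinearMap.range i) → rk e (red p α) σ = rk e (red p β) σ

/-- the class of the reduction -/
def ClsStmt : Prop :=
  ∀ (Γ : Type) [Group Γ] (A : Type) [AddCommGroup A] [Module ℤ A] (α : Representation ℤ Γ A)
    (Sg : Type) [Fintype Sg] [MulAction Γ Sg] (j : (Sg → ℤ) →ₗ[ℤ] A), JData p α Sg j →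
    finrank (ZMod p) (ZMod p ⊗[ℤ] A) + 1 = Fintype.card Sg ∧
    ∀ e : MonoidAlgebra (ZMod p) Γ, IsIdempotentElem e →
    ∀ (M : Type) [AddCommGroup M] [Module (ZMod p) M] [FiniteDimensional (ZMod p) M]
      (σ : Representation (ZMod p) Γ M),
      rk e (red p α) σ + finrank (ZMod p) (LinearMap.range (σ.asAlgebraHom e)) =
        rk e (perm Γ (ZMod p) Sg) σ

/-- coinvariants of an element of order `p` -/
def CoinvStmt : Prop :=
  ∀ (Γ : Type) [Group Γ] (A : Type) [AddCommGroup A] [Module ℤ A] (α : Representation ℤ Γ A)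
    (Sg : Type) [Fintype Sg] [MulAction Γ Sg] (j : (Sg → ℤ) →ₗ[ℤ] A), JData p α Sg j →
    ∀ s : Γ, s ^ p = 1 → (∀ x : Sg, s • x ≠ x) →
    (∀ a b : A, ∑ i ∈ range p, α (s ^ i) a = 0 → ∑ i ∈ range p, α (s ^ i) b = 0 →
      ∃ (x y : ℤ) (c : A), ¬ ((p : ℤ) ∣ x ∧ (p : ℤ) ∣ y) ∧ x • a + y • b = α s c - c) →
    ∃ m, Fintype.card Sg = p * m ∧
      finrank (ZMod p) ((ZMod p ⊗[ℤ] A) ⧸ LinearMap.range (red p α s - 1)) ≤ m

/-- invariants of permutation modules -/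
def PermStmt : Prop :=
  ∀ (Γ : Type) [Group Γ] (M : Type) [AddCommGroup M] [Module (ZMod p) M]
    [FiniteDimensional (ZMod p) M] (σ : Representation (ZMod p) Γ M),
    (∀ (Sg : Type) [Fintype Sg] [MulAction Γ Sg] (s : Γ) (m : ℕ), s ^ p = 1 →
      (∀ x : Sg, s • x ≠ x) → Fintype.card Sg = p * m → finrank (ZMod p)
        (LinearMap.ker ((perm Γ (ZMod p) Sg).tprod σ s - 1)) =
          m * finrank (ZMod p) M) ∧
    ∀ (S₁ S₂ : Type) [Fintype S₁] [MulAction Γ S₁] [Fintype S₂] [MulAction Γ S₂] (x : S₁),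
      (∀ g : Γ, g • x = x → g = 1) → finrank (ZMod p) M + finrank (ZMod p)
        ((perm Γ (ZMod p) S₂).tprod σ).invariants ≤ finrank (ZMod p)
          ((perm Γ (ZMod p) (S₁ ⊕ S₂)).tprod σ).invariants

/-- the lower bound for the space of norms -/
def AlgStmt : Prop :=
  ∀ (Γ : Type) [Group Γ] [Fintype Γ] (X M : Type) [AddCommGroup X] [Module (ZMod p) X]
    [FiniteDimensional (ZMod p) X] [AddCommGroup M] [Module (ZMod p) M]
    [FiniteDimensional (ZMod p) M] (ρ : Representation (ZMod p) Γ X)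
    (σ : Representation (ZMod p) Γ M) (Sg : Type) [Fintype Sg] [MulAction Γ Sg],
    finrank (ZMod p) X + 1 = Fintype.card Sg →
    (∀ e : MonoidAlgebra (ZMod p) Γ, IsIdempotentElem e →
      rk e ρ σ + finrank (ZMod p) (LinearMap.range (σ.asAlgebraHom e)) =
        rk e (perm Γ (ZMod p) Sg) σ) →
    ((¬ p ∣ Fintype.card Γ ∧ finrank (ZMod p) σ.invariants ≤ 1) ∨
      ∃ (s t : Γ) (a e m : ℕ), Bor p s t a e ∧ (∀ x : Sg, s • x ≠ x) ∧
        Fintype.card Sg = p * m ∧ finrank (ZMod p) (X ⧸ LinearMap.range (ρ s - 1)) ≤ m ∧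
        finrank (ZMod p) (LinearMap.ker (σ t - 1)) ≤ 1) →
    finrank (ZMod p) ((perm Γ (ZMod p) Sg).tprod σ).invariants ≤
      finrank (ZMod p) (LinearMap.range (∑ g, ρ.tprod σ g)) + 1

/-- subgroups of the projective linear group with irreducible adjoint representation -/
def GrpStmt : Prop :=
  ∀ (Γ : Type) [Group Γ] [Fintype Γ] (R : Γ → GL (Fin 2) (ZMod p)) (h : AdData R), 3 < p →
    finrank (ZMod p) (Sl p 2) = 3 ∧ finrank (ZMod p) (adRep h).invariants ≤ 1 ∧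
    (p ∣ Fintype.card Γ → ∃ (s t : Γ) (a e : ℕ), Bor p s t a e ∧
      finrank (ZMod p) (LinearMap.ker (adRep h t - 1)) ≤ 1)

/-- from tensors to matrices -/
def Mat1Stmt : Prop :=
  ∀ (Γ : Type) [Group Γ] [Fintype Γ] (n : ℕ) (R : Γ → GL (Fin n) (ZMod p)) (h : AdData R)
    (A : Type) [AddCommGroup A] [Module ℤ A] [Module.Finite ℤ A] (α : Representation ℤ Γ A)
    (T : Type) [Fintype T] [MulAction Γ T] (o : T → A →+ ZMod p),
    (∀ g w x, o (g • w) (α g x) = o w x) →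
    finrank (ZMod p) ((perm Γ (ZMod p) T).tprod (adRep h)).invariants + 2 ≤
      finrank (ZMod p) (LinearMap.range (∑ g, (red p α).tprod (adRep h) g)) →
    ∃ η : Fin 2 → Matrix (Fin n) (Fin n) A, (∀ a, ∃ b, ∑ i, η a i i = (p : ℤ) • b) ∧
      (∀ a w, ∑ g, cj (R g) (Matrix.of fun i j => o w (α g (η a i j))) = 0) ∧
      ∀ (ι : Type) (lam : ι → A →+ ZMod p), (∀ x, (∀ i, lam i x = 0) → ∃ b, x = (p : ℤ) • b) →
        ∀ c : Fin 2 → ZMod p, (∀ i, ∑ a, c a • ∑ g,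
          cj (R g) (Matrix.of fun u v => lam i (α g (η a u v))) = 0) → c = 0

end stmts

section arith
variable {K E : Type} [Field K] [NumberField K] [Field E] [NumberField E] [Algebra K E]

/-- the action on primes -/
noncomputable instance prAct : MulAction (E ≃ₐ[K] E) (Pr E) where
  smul := ac
  one_smul := ac_one
  mul_smul := ac_mul

lemma smul_def (g : E ≃ₐ[K] E) (w : Pr E) : g • w = ac g w := rfl

/-- units away from a set of primes -/
def UT (T : Set (Pr E)) : Subgroup Eˣ where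
  carrier := {x | ∀ w, w ∉ T → ord w (x : E) = 0}
  one_mem' := fun w _ => by simp [ord]
  mul_mem' := fun {x y} hx hy w hw => by
    rw [Units.val_mul, Pool.Agent.MP_14ad9d_nt.Full.ord_mul w x.ne_zero y.ne_zero, hx w hw,
      hy w hw, add_zero]
  inv_mem' := fun {x} hx w hw => by
    rw [Units.val_inv_eq_inv_val, Pool.Agent.MP_14ad9d_nt.Full.ord_inv, hx w hw, neg_zero]

/-- the action on these units -/
noncomputable def uMap (T : SubMulAction (E ≃ₐ[K] E) (Pr E)) (g : E ≃ₐ[K] E) :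
    UT (T : Set (Pr E)) →* UT (T : Set (Pr E)) where
  toFun x := ⟨Units.map (g : E →* E) x.1, fun w hw => by
    have h := ord_ac g (g⁻¹ • w) (x.1 : E)
    rw [← smul_def, smul_inv_smul] at h
    exact h.trans (x.2 _ fun h1 => hw (by simpa using T.smul_mem g h1))⟩
  map_one' := Subtype.ext (map_one _)
  map_mul' x y := Subtype.ext (map_mul _ _ _)

/-- the units as a representation -/
noncomputable def uRep (T : SubMulAction (E ≃ₐ[K] E) (Pr E)) :
    Representation ℤ (E ≃ₐ[K] E) (Additive (UT (T : Set (Pr E)))) where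
  toFun g := (uMap T g).toAdditive.toIntLinearMap
  map_one' := rfl
  map_mul' _ _ := rfl

/-- the underlying field element -/
def uval {T : Set (Pr E)} (x : Additive (UT T)) : E := ((Additive.toMul x).1 : Eˣ)

lemma uval_uRep (T : SubMulAction (E ≃ₐ[K] E) (Pr E)) (g : E ≃ₐ[K] E)
    (x : Additive (UT (T : Set (Pr E)))) : uval (uRep T g x) = g (uval x) := rfl

/-- characters of the class group -/
def ClsCh {p : ℕ} (χ : Pr E → ZMod p) : Prop :=
  ∀ α : E, α ≠ 0 → ∑ᶠ v : Pr E, (ord v α : ZMod p) * χ v = 0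

/-- a finite set of split primes generating the class group modulo `p` -/
structure TData (p : ℕ) (T : SubMulAction (E ≃ₐ[K] E) (Pr E)) : Prop where
  fin : (T : Set (Pr E)).Finite
  free : ∀ (g : E ≃ₐ[K] E), ∀ w ∈ T, g • w = w → g = 1
  tm : ∀ w ∈ T, Tm p w
  gen : ∀ χ : Pr E → ZMod p, ClsCh χ → (∀ w ∈ T, χ w = 0) → ∀ w, χ w = 0

variable (K E) in
/-- no element of order `p` in an inertia group -/
def Unram (p : ℕ) : Prop :=
  ∀ (w : Pr E) (g : E ≃ₐ[K] E), g ∈ w.asIdeal.inertia (E ≃ₐ[K] E) → g ^ p = 1 → g = 1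

end arith

section astmts
variable (p : ℕ) [Fact p.Prime]

/-- Minkowski units -/
def MinkStmt : Prop :=
  ∀ (K E : Type) [Field K] [NumberField K] [Field E] [NumberField E] [Algebra K E],
    ∃ ε : InfinitePlace E → (𝓞 E)ˣ,
      (∀ (g : E ≃ₐ[K] E) w, ((ε (g • w) : 𝓞 E) : E) = g ((ε w : 𝓞 E) : E)) ∧
      (∃ N : ℕ, 0 < N ∧ ∀ u : (𝓞 E)ˣ, ∃ c : InfinitePlace E → ℤ, u ^ N = ∏ w, ε w ^ c w) ∧
      ∃ y₀ : InfinitePlace E → ℤ, y₀ ≠ 0 ∧ (∀ (g : E ≃ₐ[K] E) w, y₀ (g • w) = y₀ w) ∧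
        ∀ c : InfinitePlace E → ℤ, ∏ w, ε w ^ c w = 1 ↔ ∃ z : ℤ, c = z • y₀

/-- the equivariant unit theorem -/
def JStmt : Prop :=
  ∀ (K E : Type) [Field K] [NumberField K] [Field E] [NumberField E] [Algebra K E]
    (T : SubMulAction (E ≃ₐ[K] E) (Pr E)), TData p T → (∀ x : E, x ^ p = 1 → x = 1) →
    ∃ j, JData p (uRep T) (InfinitePlace E ⊕ T) j

/-- existence of the set of primes -/
def TStmt : Prop :=
  ∀ (K E : Type) [Field K] [NumberField K] [Field E] [NumberField E] [Algebra K E], 2 < p →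
    ∃ T : SubMulAction (E ≃ₐ[K] E) (Pr E), TData p T

/-- the second inequality over a field containing the roots of unity -/
def SI0Stmt : Prop :=
  ∀ (L : Type) [Field L] [NumberField L] (ζ β : L) (m : Finset (Pr L)) (ϖ : Pr L → L)
    (χ₁ χ₂ : Pr L → ZMod p), KeyData p ζ β m ϖ χ₁ → KeyData p ζ β m ϖ χ₂ → ClsCh χ₁ →
    ClsCh χ₂ → ∃ a b : ZMod p, (a ≠ 0 ∨ b ≠ 0) ∧ ∀ v, a * χ₁ v + b * χ₂ v = 0

/-- the second inequality -/
def SIStmt : Prop :=
  ∀ (K E : Type) [Field K] [NumberField K] [Field E] [NumberField E] [Algebra K E] [IsGalois K E],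
    2 < p → finrank K E = p → ∀ χ₁ χ₂ : Pr K → ZMod p, ClsCh χ₁ → ClsCh χ₂ →
    (∀ w : Pr E, w.asIdeal.inertiaDeg (𝓞 K) = 1 → χ₁ (un K w) = 0 ∧ χ₂ (un K w) = 0) →
    ∃ a b : ZMod p, (a ≠ 0 ∨ b ≠ 0) ∧ ∀ v, a * χ₁ v + b * χ₂ v = 0

/-- units of norm one -/
def HStmt : Prop :=
  ∀ (K E : Type) [Field K] [NumberField K] [Field E] [NumberField E] [Algebra K E]
    (T : SubMulAction (E ≃ₐ[K] E) (Pr E)), 2 < p → TData p T → Unram K E p →
    ∀ s : E ≃ₐ[K] E, orderOf s = p → ∀ a b : Additive (UT (T : Set (Pr E))),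
    ∑ i ∈ range p, uRep T (s ^ i) a = 0 → ∑ i ∈ range p, uRep T (s ^ i) b = 0 →
    ∃ (x y : ℤ) (c : Additive (UT (T : Set (Pr E)))), ¬ ((p : ℤ) ∣ x ∧ (p : ℤ) ∣ y) ∧
      x • a + y • b = uRep T s c - c

/-- two independent norms without ramification -/
def MatStmt : Prop :=
  ∀ (K E : Type) [Field K] [NumberField K] [Field E] [NumberField E] [Algebra K E]
    [Fintype (E ≃ₐ[K] E)] (R : (E ≃ₐ[K] E) → GL (Fin 2) (ZMod p)), AdData R → 3 < p →
    (∀ x : E, x ^ p = 1 → x = 1) → Unram K E p →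
    (∃ w : InfinitePlace E, ∀ g : E ≃ₐ[K] E, g • w = w → g = 1) →
    ∃ ξ : Fin 2 → Matrix (Fin 2) (Fin 2) (𝓞 E), (∀ a i j, IsCoprime (ξ a i j) (p : 𝓞 E)) ∧
      (∀ a, ∃ y : E, ∏ i, (ξ a i i : E) = y ^ p) ∧
      (∀ a (ψ : Pr E → Mt 2 (ZMod p)), (∀ (g : E ≃ₐ[K] E) w, ψ (g • w) = cj (R g) (ψ w)) →
        ∑ᶠ w, (ordM p w (ξ a) * ψ w).trace = 0) ∧
      ∀ (ι : Type) (lam : ι → E → ZMod p),
        (∀ i x y, x ≠ 0 → y ≠ 0 → lam i (x * y) = lam i x + lam i y) →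
        (∀ x, x ≠ 0 → (∀ i, lam i x = 0) → ∃ y, x = y ^ p) → ∀ c : Fin 2 → ZMod p,
        (∀ i, ∑ a, c a • ∑ g : E ≃ₐ[K] E,
          cj (R g) (Matrix.of fun u v => lam i (g (ξ a u v : E))) = 0) → c = 0

end astmts

end Pool.Agent.MP_f68ac8_nt.Pv

end
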