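import Mathlib
import Pool.Agent.Mg.Fe23604m.G2d7081

set_option linter.all false

/-! Statements on local symbols and on duality for units away from a finite set of primes. -/

namespace Pool.Agent.MP_f68ac8_nt.Pt

open NumberField Module Finset Ev Pv
open Pool.Agent.MP_14ad9d_nt.Full (Pr ord Tm tame Phi Deg1 act)
open Pool.Agent.MP_14ad9d_nt.Full.FIAux (un)

section
variable {L : Type} [Field L] [NumberField L]

/-- the local degree -/
noncomputable def ef (v : Pr L) : ℕ := v.asIdeal.ramificationIdx ℤ * v.asIdeal.inertiaDeg ℤ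

/-- nonzero elements that are units away from `S` -/
def SU (S : Set (Pr L)) (x : L) : Prop := x ≠ 0 ∧ ∀ v, v ∉ S → ord v x = 0

/-- the primes in `S` generate the class group modulo `p` -/
def Gen (p : ℕ) (S : Set (Pr L)) : Prop :=
  ∀ χ : Pr L → ZMod p, ClsCh χ → (∀ v ∈ S, χ v = 0) → ∀ v, χ v = 0

/-- a Kummer extension of degree `p` -/
structure Kum (p : ℕ) {F : Type} [Field F] [Algebra L F] (ζ β : L) (θ : F) (σ : F ≃ₐ[L] F) :
    Prop where
  two : 2 < p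
  prim : IsPrimitiveRoot ζ p
  deg : finrank L F = p
  ne : β ≠ 0
  pow : θ ^ p = algebraMap L F β
  act : σ θ = algebraMap L F ζ * θ

end

section
variable {K E : Type} [Field K] [NumberField K] [Field E] [NumberField E] [Algebra K E]

/-- the local norm residue maps of a cyclic extension of degree `p` -/
structure Lam (p : ℕ) (T : Set (Pr E)) (s : E ≃ₐ[K] E) (lam : E → Pr E → ZMod p) : Prop where
  add : ∀ x y, x ≠ 0 → y ≠ 0 → s x = x → s y = y → ∀ w, s • w = w →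
    lam (x * y) w = lam x w + lam y w
  eqv : ∀ (g : E ≃ₐ[K] E) (k : ℕ), g * s = s ^ k * g → ∀ x, x ≠ 0 → s x = x → ∀ w, s • w = w →
    lam (g x) (g • w) = k * lam x w
  nrm : ∀ y, y ≠ 0 → ∀ w, s • w = w → lam (∏ i ∈ range p, (s ^ i) y) w = 0
  sum : ∀ x, SU T x → s x = x → ∑ᶠ w ∈ {w ∈ T | s • w = w}, lam x w = 0

/-- the cohomology of the units -/
structure HW (p : ℕ) (T : Set (Pr E)) (s : E ≃ₐ[K] E) (lam : E → Pr E → ZMod p) : Prop
    extends Lam p T s lam where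
  h1 : ∀ a, SU T a → ∏ i ∈ range p, (s ^ i) a = 1 → ∃ c, SU T c ∧ a = s c / c
  rel : ∀ r : Pr E → ZMod p,
    (∀ x, SU T x → s x = x → ∑ᶠ w ∈ {w ∈ T | s • w = w}, r w * lam x w = 0) →
    ∀ w ∈ T, ∀ w' ∈ T, s • w = w → s • w' = w' → r w = r w'

variable {L F : Type} [Field L] [NumberField L] [Field F] [NumberField F] [Algebra E F]
  [Algebra L F]

/-- adjoining the roots of unity to a cyclic extension -/
structure Tow (p : ℕ) (ζ β : L) (θ : F) (σ : F ≃ₐ[L] F) (s : E ≃ₐ[K] E) : Prop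
    extends Kum p ζ β θ σ where
  res : ∀ x : E, σ (algebraMap E F x) = algebraMap E F (s x)
  ord : orderOf s = p
  cyc : ∀ g : F ≃ₐ[E] F, g (algebraMap L F ζ) = algebraMap L F ζ → g = 1

end

section
variable (p : ℕ) [hp : Fact p.Prime]

/-- the sum of the local degrees -/
def EfStmt : Prop :=
  ∀ (L : Type) [Field L] [NumberField L],
    (∀ v : Pr L, ¬ Tm p v → ord v (p : L) = v.asIdeal.ramificationIdx ℤ ∧
      Ideal.absNorm v.asIdeal = p ^ v.asIdeal.inertiaDeg ℤ ∧ 0 < ef v) ∧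
    ∀ S : Finset (Pr L), (∀ v, v ∈ S ↔ ¬ Tm p v) → ∑ v ∈ S, ef v = finrank ℚ L

/-- generators of the class group and virtual units -/
def VUStmt : Prop :=
  ∀ (L : Type) [Field L] [NumberField L],
    (∃ S : Finset (Pr L), Gen p (S : Set (Pr L))) ∧
    (∀ S : Set (Pr L), Gen p S → ∀ d : Pr L →₀ ℤ, ∃ (h : ℕ) (y : L), ¬ p ∣ h ∧ y ≠ 0 ∧
      ∀ v, v ∉ S → ord v y = h * d v) ∧
    ∀ S : Finset (Pr L), ∃ A : Finset L, ∀ x, x ≠ 0 → (∀ v, v ∉ S → (p : ℤ) ∣ ord v x) →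
      ∃ a ∈ A, ∃ y, x = a * y ^ p

/-- the cohomology of the units for a suitable set of primes -/
def HWStmt : Prop :=
  ∀ (K E : Type) [Field K] [NumberField K] [Field E] [NumberField E] [Algebra K E] [IsGalois K E]
    (s : E ≃ₐ[K] E), 2 < p → orderOf s = p → ∀ W : SubMulAction (E ≃ₐ[K] E) (Pr E),
    (W : Set (Pr E)).Finite → (∀ w, ¬ Tm p w → w ∈ W) →
    (∀ w, w ∉ W → s ∉ w.asIdeal.inertia (E ≃ₐ[K] E)) → (∃ w ∈ W, s • w = w) →
    ∃ (T : SubMulAction (E ≃ₐ[K] E) (Pr E)) (lam : E → Pr E → ZMod p),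
      (T : Set (Pr E)).Finite ∧ (∀ w ∈ W, w ∈ T) ∧
      (∀ w ∈ T, w ∉ W → ∀ g : E ≃ₐ[K] E, g • w = w → g = 1) ∧ HW p (T : Set (Pr E)) s lam

end

end Pool.Agent.MP_f68ac8_nt.Pt
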