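import Mathlib
import Pool.Agent.Mg.Fe23604m.G2d7081
import Pool.Agent.Mg.Fe23604m.Ge12da9

set_option linter.all false

/-! Auxiliary statements for lifts with projectively finite inertia. -/

namespace Pool.Agent.MP_f68ac8_nt

open Filter Topology NumberField Matrix IsLocalRing
open scoped Pointwise

variable {p : ℕ} [Fact p.Prime] {K : IntermediateField ℚ (AlgebraicClosure ℚ)} {n : ℕ}

variable (p K n) in
/-- a residual representation with a level -/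
structure Dt where
  r : K.fixingSubgroup →* GL (Fin n) (ZMod p)
  N : ℕ

namespace Dt

variable (D : Dt p K n) (F : IntermediateField ℚ (AlgebraicClosure ℚ))

/-- the adjoint action -/
noncomputable def ad (g : K.fixingSubgroup) (X : Matrix (Fin n) (Fin n) (ZMod p)) :
    Matrix (Fin n) (Fin n) (ZMod p) := (D.r g).val * X * (D.r g)⁻¹.val

/-- additive equivariant functions on the ideals of `F` prime to the level -/
structure Eqv [Normal ℚ F] (φ : Ideal (𝓞 F) → Matrix (Fin n) (Fin n) (ZMod p)) : Prop where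
  add : ∀ I J, I ≠ ⊥ → J ≠ ⊥ → φ (I * J) = φ I + φ J
  conj : ∀ (g : K.fixingSubgroup) I, φ (AlgEquiv.restrictNormalHom F g.1 • I) = D.ad g (φ I)
  tr : ∀ I, (φ I).trace = 0
  lev : ∀ I, I.IsPrime → ↑D.N ∈ I → φ I = 0

/-- `κ` is the Kummer map of `ξ` -/
structure Good (ζ : AlgebraicClosure ℚ) (ξ : Matrix (Fin n) (Fin n) (𝓞 F))
    (κ : GQ → Matrix (Fin n) (Fin n) (ZMod p)) : Prop where
  cop : ∀ i j, IsCoprime (ξ i j) D.N
  kum : ∀ g ∈ F.fixingSubgroup, ∀ i j y, y ^ p = ((ξ i j : F) : AlgebraicClosure ℚ) →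
    g y = ζ ^ (κ g i j).val * y
  tr : ∀ g ∈ F.fixingSubgroup, (κ g).trace = 0

variable {F} in
/-- the trace pairing -/
noncomputable def pair (φ : Ideal (𝓞 F) → Matrix (Fin n) (Fin n) (ZMod p))
    (ξ : Matrix (Fin n) (Fin n) (𝓞 F)) : ZMod p := ∑ i, ∑ j, φ (Ideal.span {ξ i j}) j i

/-- corestriction -/
noncomputable def cores (κ : GQ → Matrix (Fin n) (Fin n) (ZMod p)) (g : GQ) :
    Matrix (Fin n) (Fin n) (ZMod p) :=
  ∑ᶠ c : K.fixingSubgroup ⧸ F.fixingSubgroup.subgroupOf K.fixingSubgroup,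
    PadicInt.toZMod (cycChar p c.out⁻¹ : ℤ_[p]) • D.ad c.out⁻¹ (κ (c.out * g * c.out⁻¹))

/-- the hypotheses used in the reciprocity arguments -/
structure Base [Normal ℚ F] : Prop where
  odd : 2 < p ∧ ¬ p ∣ n ∧ p ∣ D.N ∧ D.N ≠ 0
  mu : (∀ x, x ^ p = 1 → x ∈ F) ∧ ∃ x, x ^ p ^ 2 = 1 ∧ x ∉ F
  scal : ScalOn F D.r
  irr : AdIrr D.r

/-- the Selmer group vanishes -/
def Cls [Normal ℚ F] : Prop :=
  ∀ φ, D.Eqv F φ → (∀ ξ κ, D.Good F (Ev.xi p) ξ κ → pair φ ξ = 0) → φ = 0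

/-- two independent dual Selmer classes -/
def Two [Normal ℚ F] : Prop :=
  ∃ κ : Fin 2 → _, (∀ a, ∃ ξ, D.Good F (Ev.xi p) ξ (κ a) ∧ ∀ φ, D.Eqv F φ → pair φ ξ = 0) ∧
    LinearIndependent (ZMod p) fun a (g : F.fixingSubgroup) => D.cores F (κ a) g

end Dt

end Pool.Agent.MP_f68ac8_nt

namespace Pool.Agent.MP_f68ac8_nt.Pv

open NumberField Matrix Finset IsLocalRing Ev
open Pool.Agent.MP_14ad9d_nt.Full (Pr ord Tm tame Phi NearAt Near Deg1)
open scoped Pointwise Topology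

section
variable {p : ℕ} [hp : Fact p.Prime]

/-- the data attached to an auxiliary prime -/
structure Co where
  l : ℕ
  P : Ideal OQ
  σ : GQ
  τ : GQ

/-- the residue degree -/
noncomputable def Co.m (c : Co) (F : IntermediateField ℚ Qb) [Normal ℚ F] : ℕ :=
  orderOf (res F c.σ)

variable {K : IntermediateField ℚ Qb} {n : ℕ}

/-- validity of the data -/
structure Co.Ok (c : Co) (D : Dt p K n) (F : IntermediateField ℚ Qb) [NumberField F]
    [Normal ℚ F] : Prop where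
  prime : c.l.Prime
  lev : ¬ c.l ∣ D.N
  unr : ¬ (c.l : ℤ) ∣ discr F
  max : c.P.IsMaximal
  mem : (c.l : OQ) ∈ c.P
  frob : IsFrob c.l c.P c.σ
  inG : c.σ ∈ K.fixingSubgroup
  inert : c.τ ∈ c.P.inertia GQ
  gen : KK p c.l c.τ = 1
  ord : ¬ p ∣ c.m F

/-- an equivariant additive map unramified outside the auxiliary primes -/
structure Sel (D : Dt p K n) (F : IntermediateField ℚ Qb) {J : Type} (c : J → Co)
    (f : GQ → Mt n (ZMod p)) : Prop where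
  tang : Tang p F D.r f
  lev : ∀ P g, Iner F P g → (D.N : OQ) ∈ P → f g = 0
  unr : ∀ P g, Iner F P g → (D.N : OQ) ∉ P → (∀ j, ∀ s ∈ K.fixingSubgroup, P ≠ s • (c j).P) →
    f g = 0

/-- the function on ideals given by the values on Frobenius elements -/
structure Art (D : Dt p K n) (F : IntermediateField ℚ Qb) [NumberField F] [Normal ℚ F]
    {J : Type} (c : J → Co) (f : GQ → Mt n (ZMod p)) (φ : Ideal (𝓞 F) → Mt n (ZMod p)) :
    Prop where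
  eqv : D.Eqv F φ
  aux : ∀ j, ∀ g ∈ K.fixingSubgroup,
    φ ((g • (c j).P).under (𝓞 F)) = f (g * (c j).σ ^ (c j).m F * g⁻¹)
  oth : ∀ P : Ideal OQ, P.IsMaximal → (D.N : OQ) ∉ P →
    (∀ j, ∀ s ∈ K.fixingSubgroup, P ≠ s • (c j).P) → ∀ s ∈ F.fixingSubgroup,
    IsFrob (Ideal.absNorm (P.under (𝓞 F))) P s → φ (P.under (𝓞 F)) = f s

/-- the linear algebra attached to a type -/
structure RamData (D : Dt p K n) (F : IntermediateField ℚ Qb) (t : GQ)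
    (X H Y : Mt n (ZMod p)) : Prop where
  ne : X ≠ 0
  trX : X.trace = 0
  trH : H.trace = 0
  trY : Y.trace = 0
  pair : (Y * H).trace ≠ 0
  fix : ∀ g : K.fixingSubgroup, g.1 ∈ Subgroup.zpowers t ⊔ F.fixingSubgroup →
    D.ad g X = cb p g • X ∧ D.ad g H = H ∧ D.ad g Y = Y
  eig : ∀ s : K.fixingSubgroup, t ∈ Subgroup.zpowers s.1 ⊔ F.fixingSubgroup → ∀ Z,
    (D.ad s Z = cb p s • Z → ∃ c : ZMod p, Z = c • X) ∧
    (D.ad s Z = Z → brk Z X = (H * Z).trace • X)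

/-- primes at which every equivariant additive map is unramified -/
def Auto (D : Dt p K n) (F : IntermediateField ℚ Qb) (P : Ideal OQ) : Prop :=
  ∀ f, Tang p F D.r f → ∀ s ∈ K.fixingSubgroup, ∀ g, Iner F (s • P) g → f g = 0

end

section
variable (p : ℕ) [hp : Fact p.Prime]

/-- equivariant functions on ideals from functions on primes, and the pairing -/
def EqvStmt : Prop :=
  ∀ (K F : IntermediateField ℚ Qb) [NumberField F] [IsGalois ℚ F] (n : ℕ) (D : Dt p K n),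
    (∀ h : Pr F → Mt n (ZMod p), (∀ w, (h w).trace = 0) →
      (∀ w : Pr F, (D.N : 𝓞 F) ∈ w.asIdeal → h w = 0) →
      (∀ (g : K.fixingSubgroup) (w w' : Pr F), w'.asIdeal = res F g.1 • w.asIdeal →
        h w' = D.ad g (h w)) → ∃ φ, D.Eqv F φ ∧ φ ⊥ = 0 ∧ ∀ w : Pr F, φ w.asIdeal = h w) ∧
    (∀ φ ξ, D.Eqv F φ → (∀ i j, ξ i j ≠ 0) →
      (Function.support fun w : Pr F => ordM p w ξ).Finite ∧
      Dt.pair φ ξ = ∑ᶠ w : Pr F, (ordM p w ξ * φ w.asIdeal).trace) ∧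
    ∀ (g : GQ) (P : Ideal OQ), (g • P).under (𝓞 F) = res F g • P.under (𝓞 F)

/-- Kummer maps and corestriction -/
def CoresStmt : Prop :=
  ∀ (K F : IntermediateField ℚ Qb) [NumberField K] [NumberField F] [IsGalois ℚ F], K ≤ F →
    ∀ (n : ℕ) (D : Dt p K n), D.Base F →
    (xi p ∈ F ∧ HH p F = F.fixingSubgroup ∧
      Finite (K.fixingSubgroup ⧸ F.fixingSubgroup.subgroupOf K.fixingSubgroup) ∧
      (∀ g h : K.fixingSubgroup, ∀ X, D.ad (g * h) X = D.ad g (D.ad h X)) ∧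
      (∀ g : K.fixingSubgroup, g.1 ∈ F.fixingSubgroup → cb p g = 1 ∧ ∀ X, D.ad g X = X)) ∧
    ∀ ξ κ, D.Good F (xi p) ξ κ → (∀ i j, ξ i j ≠ 0) ∧
      (∀ g ∈ F.fixingSubgroup, ∀ i j, κ g i j = KK p ((ξ i j : F) : Qb) g) ∧
      (∀ (c : K.fixingSubgroup) (x : K.fixingSubgroup ⧸ F.fixingSubgroup.subgroupOf _),
        x = QuotientGroup.mk c → ∀ g ∈ F.fixingSubgroup,
        cb p (x.out⁻¹ : K.fixingSubgroup) • D.ad x.out⁻¹ (κ (x.out * g * (x.out : GQ)⁻¹)) =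
          cb p (c⁻¹ : K.fixingSubgroup) • D.ad c⁻¹ (κ (c * g * (c : GQ)⁻¹))) ∧
      (∀ g ∈ F.fixingSubgroup, ∀ h ∈ F.fixingSubgroup,
        D.cores F κ (g * h) = D.cores F κ g + D.cores F κ h) ∧
      (∀ᶠ g in 𝓝 (1 : GQ), g ∈ F.fixingSubgroup → D.cores F κ g = 0) ∧
      (∀ g ∈ F.fixingSubgroup, (D.cores F κ g).trace = 0) ∧
      ∀ t : K.fixingSubgroup, ∀ g ∈ F.fixingSubgroup,
        D.cores F κ (t * g * (t : GQ)⁻¹) = cb p t • D.ad t (D.cores F κ g)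

/-- existence and basic properties of the data at an auxiliary prime -/
def CoStmt : Prop :=
  ∀ (K F : IntermediateField ℚ Qb) [NumberField K] [NumberField F] [IsGalois ℚ F], K ≤ F →
    ∀ (n : ℕ) (D : Dt p K n), D.Base F →
    (∀ (l : ℕ) (P : Ideal OQ), l.Prime → ¬ l ∣ D.N → ¬ (l : ℤ) ∣ discr F →
      P.IsMaximal → (l : OQ) ∈ P → ∃ τ ∈ P.inertia GQ, KK p l τ = 1) ∧
    ∀ c : Co, c.Ok D F → c.P.inertia GQ ≤ F.fixingSubgroup ∧ (D.N : OQ) ∉ c.P ∧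
      c.σ ^ c.m F ∈ F.fixingSubgroup ∧ c.σ • c.P = c.P ∧
      Ideal.absNorm (c.P.under (𝓞 F)) = c.l ^ c.m F ∧ c.l ^ c.m F ≡ 1 [MOD p] ∧
      IsFrob (c.l ^ c.m F) c.P (c.σ ^ c.m F) ∧ cb p c.σ = c.l ∧
      (∀ g : GQ, (g • c.P).under (𝓞 F) = c.P.under (𝓞 F) ↔
        g ∈ Subgroup.zpowers c.σ ⊔ F.fixingSubgroup) ∧
      (∀ (g : GQ) (w : Pr F), w.asIdeal = (g • c.P).under (𝓞 F) → ∀ y : F, y ≠ 0 →
        KK p y (g * c.τ * g⁻¹) = cb p g * ord w y) ∧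
      ∀ (V : Type) [AddCommGroup V] [Module (ZMod p) V] (a : Pr F → V) (b : GQ → V),
        (∀ g ∈ K.fixingSubgroup, ∀ w : Pr F, w.asIdeal = (g • c.P).under (𝓞 F) → b g = a w) →
        ∑ᶠ x : K.fixingSubgroup ⧸ F.fixingSubgroup.subgroupOf K.fixingSubgroup, b x.out =
          (c.m F : ZMod p) • ∑ᶠ w ∈ {w : Pr F | ∃ g ∈ K.fixingSubgroup,
            w.asIdeal = (g • c.P).under (𝓞 F)}, a w

/-- nonvanishing of the characters -/
def NzStmt : Prop :=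
  ∀ (K F : IntermediateField ℚ Qb) [NumberField K] [NumberField F] [IsGalois ℚ F], K ≤ F →
    ∀ (n : ℕ) (D : Dt p K n), D.Base F →
    (∀ Ψ : GQ → Mt n (ZMod p), (∀ g ∈ F.fixingSubgroup, (Ψ g).trace = 0) →
      (∀ t : K.fixingSubgroup, ∀ g ∈ F.fixingSubgroup,
        Ψ (t * g * (t : GQ)⁻¹) = cb p t • D.ad t (Ψ g)) → (∃ g ∈ F.fixingSubgroup, Ψ g ≠ 0) →
      ∀ X : Mt n (ZMod p), X ≠ 0 → X.trace = 0 → ∃ g ∈ F.fixingSubgroup, (Ψ g * X).trace ≠ 0) ∧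
    ∃ g ∈ F.fixingSubgroup, psi p g ≠ 0

/-- matrices with a scalar power -/
def SmallStmt' : Prop :=
  ∀ (n : ℕ) (O : Type) [CommRing O] [IsDomain O] [IsDiscreteValuationRing O] (A : GL (Fin n) O)
    (c : O) (m : ℕ), ¬ p ∣ n → (p : O) ∈ maximalIdeal O →
    (∀ i j, (A.val - c • 1) i j ∈ maximalIdeal O) → 0 < m → IsScal (A ^ m) →
    (p ∣ m → (p : O) ∉ maximalIdeal O ^ (p - 1)) → IsScal A

/-- the field cut out by the adjoint representation -/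
def SetStmt : Prop :=
  ∀ (K F : IntermediateField ℚ Qb) [NumberField K] [NumberField F] [IsGalois ℚ F], K ≤ F →
    ∀ (n : ℕ) (r : K.fixingSubgroup →* GL (Fin n) (ZMod p)), Resid F r →
    ∃ (E : IntermediateField K Qb) (_ : NumberField E) (π : K.fixingSubgroup →* (E ≃ₐ[K] E)),
      Function.Surjective π ∧ (∀ g (x : E), (π g x : Qb) = g.1 x) ∧
      (∀ g, π g = 1 ↔ IsScal (r g)) ∧ (∀ x : E, (x : Qb) ∈ F) ∧ (∀ x : E, x ^ p = 1 → x = 1) ∧
      Unram K E p ∧ (∃ w : InfinitePlace E, ∀ g : E ≃ₐ[K] E, g • w = w → g = 1) ∧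
      ¬ p ∣ (F.fixingSubgroup.subgroupOf K.fixingSubgroup).relIndex π.ker ∧
      ∀ x : E, x ≠ 0 → (∀ g ∈ F.fixingSubgroup, KK p (x : Qb) g = 0) → ∃ y : E, x = y ^ p

end

end Pool.Agent.MP_f68ac8_nt.Pv
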