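import Mathlib
import Pool.Agent.Mg.Fe23604m.Ga3df41
import Pool.Agent.MP_f68ac8_nt.QvDefs

set_option linter.all false

/-! Auxiliary statements for lifts with mixed local conditions. -/

namespace Pool.Agent.MP_f68ac8_nt.Qv

open NumberField Matrix Finset IsLocalRing Module Ev Pv
open Pool.Agent.MP_14ad9d_nt.Full (Pr ord Tm tame Phi NearAt Near Deg1)
open Pool.Agent.MP_14ad9d_nt.Full.FIAux (ac un)
open scoped Pointwise Topology MatrixGroups TensorProduct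

/-- two by two matrices -/
abbrev M2 (R : Type) : Type := Matrix (Fin 2) (Fin 2) R

section
variable {p : ℕ} [hp : Fact p.Prime] {K : IntermediateField ℚ Qb}

variable (p K) in
/-- a projective representation with ordinary primes -/
structure Dq where
  r : K.fixingSubgroup →* PGL(2, ZMod p)
  m : ℕ
  o : Fin m → OrdPl p

/-- the adjoint action -/
noncomputable def Dq.ad (D : Dq p K) (g : K.fixingSubgroup) (Z : M2 (ZMod p)) : M2 (ZMod p) :=
  cj (rep D.r g) Z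

/-- a matrix in the basis attached to an ordinary prime -/
noncomputable def Dq.bas (D : Dq p K) (i : Fin D.m) (Z : M2 (ZMod p)) : M2 (ZMod p) :=
  (D.o i).A⁻¹.val * Z * (D.o i).A.val

variable (K) in
/-- `F` is stable under the Galois group of `K` -/
def Stab (F : IntermediateField ℚ Qb) : Prop := ∀ g : K.fixingSubgroup, ∀ x ∈ F, g.1 x ∈ F

/-- restriction to `F` -/
noncomputable def rF {F : IntermediateField ℚ Qb} (h : Stab K F) :
    K.fixingSubgroup →* (F ≃ₐ[ℚ] F) where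
  toFun g :=
    { toFun := fun x => ⟨g.1 x, h g _ x.2⟩
      invFun := fun x => ⟨(g⁻¹).1 x, h g⁻¹ _ x.2⟩
      left_inv := fun x => Subtype.ext (g.1.symm_apply_apply x)
      right_inv := fun x => Subtype.ext (g.1.apply_symm_apply x)
      map_mul' := fun x y => Subtype.ext (map_mul g.1 (x : Qb) y)
      map_add' := fun x y => Subtype.ext (map_add g.1 (x : Qb) y)
      commutes' := fun q => Subtype.ext (g.1.commutes q) }
  map_one' := AlgEquiv.ext fun _ => rfl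
  map_mul' _ _ := AlgEquiv.ext fun _ => rfl

lemma rF_apply {F : IntermediateField ℚ Qb} (h : Stab K F) (g : K.fixingSubgroup) (x : F) :
    (rF h g x : Qb) = g.1 x := rfl

variable (K) in
/-- the Galois group of `F` over `K` -/
abbrev Qt (F : IntermediateField ℚ Qb) : Type :=
  K.fixingSubgroup ⧸ F.fixingSubgroup.subgroupOf K.fixingSubgroup

/-- the standing hypotheses -/
structure Dq.Bs (D : Dq p K) [NumberField K] (F : IntermediateField ℚ Qb) : Prop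
    extends MixRes F D.r D.o where
  le : K ≤ F
  stab : Stab K F
  xi : xi p ∈ F
  hh : HH p F = F.fixingSubgroup
  fin : Finite (Qt K F)
  nrm : ∀ g : K.fixingSubgroup, ∀ h ∈ F.fixingSubgroup, g.1 * h * g.1⁻¹ ∈ F.fixingSubgroup
  mul : ∀ g h Z, D.ad (g * h) Z = D.ad g (D.ad h Z)
  one : ∀ g, D.r g = 1 ↔ ∀ Z, D.ad g Z = Z
  ker : ∀ g : K.fixingSubgroup, g.1 ∈ F.fixingSubgroup ↔ D.r g = 1 ∧ cb p g = 1

variable (D : Dq p K) (F : IntermediateField ℚ Qb)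

/-- equivariant continuous additive maps to trace zero matrices -/
structure Tg (f : GQ → M2 (ZMod p)) : Prop where
  add : ∀ g ∈ F.fixingSubgroup, ∀ h ∈ F.fixingSubgroup, f (g * h) = f g + f h
  conj : ∀ g : K.fixingSubgroup, ∀ h ∈ F.fixingSubgroup, f (g * h * g.1⁻¹) = D.ad g (f h)
  nhds : ∀ᶠ g in 𝓝 (1 : GQ), g ∈ F.fixingSubgroup → f g = 0
  tr : ∀ g ∈ F.fixingSubgroup, (f g).trace = 0

/-- the conditions above `p` -/
structure Wild (u : ZMod p) (f : GQ → M2 (ZMod p)) : Prop where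
  ord : ∀ i g, Iner F (D.o i).P g →
    D.bas i (f g) 1 0 = 0 ∧ 2 * D.bas i (f g) 0 0 = u * (D.o i).w * psi p g
  oth : ∀ P g, Iner F P g → (p : OQ) ∈ P → Away (K := K) D.o P → f g = 0

/-- the data attached to an auxiliary prime -/
structure Co where
  l : ℕ
  P : Ideal OQ
  σ : GQ
  τ : GQ
  m : ℕ

variable (p K) in
/-- validity of the data -/
structure Co.Ok (c : Co) : Prop where
  prime : c.l.Prime
  ne : c.l ≠ p
  max : c.P.IsMaximal
  mem : (c.l : OQ) ∈ c.P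
  unr : c.P.inertia GQ ≤ F.fixingSubgroup
  frob : IsFrob c.l c.P c.σ
  inG : c.σ ∈ K.fixingSubgroup
  inert : c.τ ∈ c.P.inertia GQ
  gen : KK p c.l c.τ = 1
  per : ∀ k : ℕ, c.σ ^ k ∈ F.fixingSubgroup ↔ c.m ∣ k
  ord : ¬ p ∣ c.m

/-- first order terms ramified at the auxiliary primes -/
structure Sel {J : Type} (c : J → Co) (u : ZMod p) (f : GQ → M2 (ZMod p)) : Prop where
  tang : Tg D F f
  wild : Wild D F u f
  unr : ∀ P g, Iner F P g → (p : OQ) ∉ P → (∀ j, ∀ s ∈ K.fixingSubgroup, P ≠ s • (c j).P) →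
    f g = 0

/-- primes at which every equivariant additive map is unramified -/
def Auto (P : Ideal OQ) : Prop :=
  ∀ f, Tg D F f → ∀ s ∈ K.fixingSubgroup, ∀ g, Iner F (s • P) g → f g = 0

/-- the linear algebra attached to a type -/
structure RamData (t : GQ) (X H : M2 (ZMod p)) : Prop where
  ne : X ≠ 0
  trX : X.trace = 0
  trH : H.trace = 0
  hx : brk H X = (2 : ZMod p) • X
  hh : (H * H).trace = 2
  fix : ∀ g : K.fixingSubgroup, g.1 ∈ Subgroup.zpowers t ⊔ F.fixingSubgroup →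
    D.ad g X = cb p g • X ∧ D.ad g H = H
  eig : ∀ s : K.fixingSubgroup, t ∈ Subgroup.zpowers s.1 ⊔ F.fixingSubgroup → ∀ Z,
    (D.ad s Z = cb p s • Z → ∃ c : ZMod p, Z = c • X) ∧
    (D.ad s Z = Z → Z.trace = 0 → ∃ c : ZMod p, Z = c • H)

/-- the norm of the Kummer map -/
noncomputable def Th (ξ : M2 F) (g : GQ) : M2 (ZMod p) :=
  ∑ᶠ x : Qt K F, D.ad x.out (Matrix.of fun i j => KK p (x.out.1 (ξ i j : Qb)) g)

end

section
variable {E : Type} [Field E] [NumberField E]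

/-- matrices of units above `p` -/
def Un (p : ℕ) (ξ : M2 E) : Prop := ∀ i j, ξ i j ≠ 0 ∧ ∀ w : Pr E, ¬ Tm p w → ord w (ξ i j) = 0

/-- functions that are additive for the entrywise product -/
def AddM (p : ℕ) {V : Type} [Add V] (L : M2 E → V) : Prop :=
  ∀ ξ ξ' : M2 E, Un p ξ → Un p ξ' → L (Matrix.of fun i j => ξ i j * ξ' i j) = L ξ + L ξ'

/-- the matrix of valuations -/
noncomputable def ordF (p : ℕ) (w : Pr E) (ξ : M2 E) : M2 (ZMod p) :=
  Matrix.of fun i j => ((ord w (ξ i j) : ℤ) : ZMod p)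

/-- the pairing with functions on primes -/
noncomputable def pairP {p : ℕ} (ψ : Pr E → M2 (ZMod p)) (ξ : M2 E) : ZMod p :=
  ∑ᶠ w, (ordF p w ξ * ψ w).trace

/-- the sum of the tame symbols -/
noncomputable def PhiM (p : ℕ) (ζ : E) (ξ β : M2 E) : ZMod p := ∑ i, ∑ j, Phi p ζ (ξ i j) (β i j)

end

section
variable {p : ℕ} [hp : Fact p.Prime] {K : IntermediateField ℚ Qb} (D : Dq p K)
  {F : IntermediateField ℚ Qb} [NumberField F]

/-- equivariant functions on primes -/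
def EqP (h : Stab K F) (ψ : Pr F → M2 (ZMod p)) : Prop :=
  ∀ g w, ψ (rF h g • w) = D.ad g (ψ w)

variable (K) in
/-- the primes of `F` below the conjugates of `P` -/
def Orb (P : Ideal OQ) : Set (Pr F) :=
  {w | ∃ g ∈ K.fixingSubgroup, w.asIdeal = (g • P).under (𝓞 F)}

/-- the dual local condition at an ordinary prime -/
def Loc (ξ : M2 F) (i : Fin D.m) : Prop :=
  ∀ g ∈ F.fixingSubgroup, g • (D.o i).P = (D.o i).P → D.bas i (Th D F ξ g) 1 0 = 0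

/-- dual classes ramified only at the primes in `B` -/
structure Dual (h : Stab K F) (B : Set (Ideal OQ)) (ξ : M2 F) : Prop where
  un : Un p ξ
  tr : ∃ y : F, ∏ i, ξ i i = y ^ p
  loc : ∀ i, Loc D ξ i
  pair : ∀ ψ, EqP D h ψ → (∀ P ∈ B, ∀ w ∈ Orb K P, ψ w = 0) → pairP ψ ξ = 0

/-- the values on Frobenius elements -/
structure Art (h : Stab K F) {J : Type} (c : J → Co) (f : GQ → M2 (ZMod p))
    (ψ : Pr F → M2 (ZMod p)) : Prop where
  eqv : EqP D h ψ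
  wild : ∀ w, ¬ Tm p w → ψ w = 0
  aux : ∀ j, ∀ g ∈ K.fixingSubgroup, ∀ w : Pr F, w.asIdeal = (g • (c j).P).under (𝓞 F) →
    ψ w = f (g * (c j).σ ^ (c j).m * g⁻¹)
  oth : ∀ P : Ideal OQ, P.IsMaximal → (p : OQ) ∉ P →
    (∀ j, ∀ s ∈ K.fixingSubgroup, P ≠ s • (c j).P) → ∀ w : Pr F, w.asIdeal = P.under (𝓞 F) →
    ∀ s ∈ F.fixingSubgroup, IsFrob (Ideal.absNorm w.asIdeal) P s → ψ w = f s

/-- the twisted action on matrices of field elements -/
noncomputable def act (h : Stab K F) (g : K.fixingSubgroup) (y : M2 F) : M2 F :=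
  Matrix.of fun i j => ∏ k, ∏ l, rF h g (y k l) ^ ((rep D.r g).val i k * (rep D.r g)⁻¹.val l j).val

end

section
variable {K E : Type} [Field K] [NumberField K] [Field E] [NumberField E] [Algebra K E]

/-- a finite set of primes generating the class group modulo `p` -/
structure TD (p : ℕ) (T : SubMulAction (E ≃ₐ[K] E) (Pr E)) : Prop where
  fin : (T : Set (Pr E)).Finite
  tm : ∀ w ∈ T, Tm p w
  gen : ∀ χ : Pr E → ZMod p, ClsCh χ → (∀ w ∈ T, χ w = 0) → ∀ w, χ w = 0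

end

section
variable (p : ℕ) [hp : Fact p.Prime]

/-- the equivariant unit theorem -/
def JStmt : Prop :=
  ∀ (K E : Type) [Field K] [NumberField K] [Field E] [NumberField E] [Algebra K E]
    (T : SubMulAction (E ≃ₐ[K] E) (Pr E)), TD p T → (∀ x : E, x ^ p = 1 → x = 1) →
    ∃ j, JData p (uRep T) (InfinitePlace E ⊕ T) j

/-- units of norm one -/
def HStmt : Prop :=
  ∀ (K E : Type) [Field K] [NumberField K] [Field E] [NumberField E] [Algebra K E]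
    (T : SubMulAction (E ≃ₐ[K] E) (Pr E)), 2 < p → TD p T → Unram K E p →
    ∀ s : E ≃ₐ[K] E, orderOf s = p → ∀ a b : Additive (UT (T : Set (Pr E))),
    ∑ i ∈ range p, uRep T (s ^ i) a = 0 → ∑ i ∈ range p, uRep T (s ^ i) b = 0 →
    ∃ (x y : ℤ) (c : Additive (UT (T : Set (Pr E)))), ¬ ((p : ℤ) ∣ x ∧ (p : ℤ) ∣ y) ∧
      x • a + y • b = uRep T s c - c

/-- invariants of permutation modules -/
def Perm2Stmt : Prop :=
  ∀ (Γ : Type) [Group Γ] (M : Type) [AddCommGroup M] [Module (ZMod p) M]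
    [FiniteDimensional (ZMod p) M] (σ : Representation (ZMod p) Γ M) (Sg S₂ ι : Type)
    [Fintype Sg] [MulAction Γ Sg] [Fintype S₂] [MulAction Γ S₂] [Fintype ι] (e : S₂ → Sg)
    (x : ι → Sg) (W : ι → Submodule (ZMod p) M), Function.Injective e →
    (∀ (g : Γ) y, e (g • y) = g • e y) → (∀ i y, x i ≠ e y) →
    (∀ i j (g : Γ), g • x i = x j → i = j) →
    (∀ i (g : Γ), g • x i = x i → ∀ v ∈ W i, σ g v = v) →
    ∑ i, finrank (ZMod p) (W i) +
        finrank (ZMod p) ((perm Γ (ZMod p) S₂).tprod σ).invariants ≤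
      finrank (ZMod p) ((perm Γ (ZMod p) Sg).tprod σ).invariants

/-- from tensors to matrices -/
def Mat1Stmt : Prop :=
  ∀ (Γ : Type) [Group Γ] [Fintype Γ] (R : Γ → GL (Fin 2) (ZMod p)) (h : AdData R)
    (A : Type) [AddCommGroup A] [Module ℤ A] [Module.Finite ℤ A] (α : Representation ℤ Γ A)
    (T : Type) [Fintype T] [MulAction Γ T] (o : T → A →+ ZMod p) (ι : Type) [Fintype ι]
    (L : M2 A → ι → ZMod p), (∀ η η', L (η + η') = L η + L η') →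
    (∀ g w x, o (g • w) (α g x) = o w x) →
    finrank (ZMod p) ((perm Γ (ZMod p) T).tprod (adRep h)).invariants + Fintype.card ι <
      finrank (ZMod p) (LinearMap.range (∑ g, (red p α).tprod (adRep h) g)) →
    ∃ η : M2 A, (∃ b, ∑ i, η i i = (p : ℤ) • b) ∧
      (∀ w, ∑ g, cj (R g) (Matrix.of fun i j => o w (α g (η i j))) = 0) ∧ L η = 0 ∧
      ∀ (κ : Type) (lam : κ → A →+ ZMod p), (∀ x, (∀ i, lam i x = 0) → ∃ b, x = (p : ℤ) • b) →
        ∃ i, ∑ g, cj (R g) (Matrix.of fun u v => lam i (α g (η u v))) ≠ 0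

/-- a nonzero norm with prescribed linear conditions -/
def MatStmt : Prop :=
  ∀ (K E : Type) [Field K] [NumberField K] [Field E] [NumberField E] [Algebra K E]
    [Fintype (E ≃ₐ[K] E)] (R : (E ≃ₐ[K] E) → GL (Fin 2) (ZMod p)), AdData R → 3 < p →
    (∀ x : E, x ^ p = 1 → x = 1) → Unram K E p →
    ∀ (J : Type) [Fintype J] (x : J → Pr E), (∀ j, Tm p (x j)) →
    (∀ i j (g : E ≃ₐ[K] E), g • x i = x j → i = j) →
    (∀ j, ∃ t : E ≃ₐ[K] E, ¬ p ∣ orderOf t ∧ ∀ g, g • x j = x j → g ∈ Subgroup.zpowers t) →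
    ∀ (ι : Type) [Fintype ι] (L : M2 E → ι → ZMod p), AddM p L →
    Fintype.card ι + (if p ∣ Nat.card (E ≃ₐ[K] E) then 2 else 1) ≤
      Nat.card (InfinitePlace K) + 2 * {v : InfinitePlace K |
      ∃ w : InfinitePlace E, w.comap (algebraMap K E) = v ∧
        ∀ g : E ≃ₐ[K] E, g • w = w → g = 1}.ncard + Fintype.card J →
    ∃ ξ : M2 E, Un p ξ ∧ (∃ y : E, ∏ i, ξ i i = y ^ p) ∧
      (∀ ψ : Pr E → M2 (ZMod p), (∀ (g : E ≃ₐ[K] E) w, ψ (g • w) = cj (R g) (ψ w)) →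
        (∀ j, ψ (x j) = 0) → pairP ψ ξ = 0) ∧ L ξ = 0 ∧
      ∀ (κ : Type) (lam : κ → E → ZMod p),
        (∀ i x y, x ≠ 0 → y ≠ 0 → lam i (x * y) = lam i x + lam i y) →
        (∀ x, x ≠ 0 → (∀ i, lam i x = 0) → ∃ y, x = y ^ p) →
        ∃ i, ∑ g : E ≃ₐ[K] E, cj (R g) (Matrix.of fun u v => lam i (g (ξ u v))) ≠ 0

/-- eigenspaces of a finite abelian group modulo `p` and in the `p`-torsion -/
def TeichStmt : Prop :=
  ∀ (Δ A : Type) [Group Δ] [Finite Δ] [CommGroup A] [Finite A] (α : Δ →* MulAut A)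
    (η : Δ →* (ZMod p)ˣ) (N : ℕ), ¬ p ∣ Nat.card Δ →
    Nat.card {a : A // a ^ p = 1 ∧ ∀ δ, α δ a = a ^ (η δ : ZMod p).val} ≤ p ^ N →
    ∀ a : Fin (N + 1) → A, (∀ i δ, ∃ b, α δ (a i) = a i ^ (η δ : ZMod p).val * b ^ p) →
    ∃ (c : Fin (N + 1) → ZMod p) (b : A), c ≠ 0 ∧ ∏ i, a i ^ (c i).val = b ^ p

/-- approximate eigenvectors in the last layer -/
def EigStmt : Prop :=
  ∀ (K F : Type) [Field K] [NumberField K] [Field F] [NumberField F] [Algebra K F]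
    [IsGalois K F] (w : Pr F), ¬ Tm p w →
    ¬ p ∣ Nat.card (MulAction.stabilizer (F ≃ₐ[K] F) w) →
    ∀ (η : MulAction.stabilizer (F ≃ₐ[K] F) w → ℕ), (∀ δ, ¬ p ∣ η δ) → ∀ (N : ℤ) (ι : Type)
    [Fintype ι] (y : ι → F), (∀ i, w.valuation F (p * y i) ≤ WithZero.exp (-N)) →
    (∀ i (δ : MulAction.stabilizer (F ≃ₐ[K] F) w),
      w.valuation F (δ.1 (y i) - η δ * y i) ≤ WithZero.exp (-N)) →
    (∀ i j, w.valuation F (y i - y j) ≤ WithZero.exp (-N) → i = j) →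
    Fintype.card ι ≤ p ^ ((un K w).asIdeal.ramificationIdx ℤ * (un K w).asIdeal.inertiaDeg ℤ)

/-- eigenspaces of local units modulo `p`-th powers -/
def LocAbsStmt : Prop :=
  ∀ (K F : Type) [Field K] [NumberField K] [Field F] [NumberField F] [Algebra K F]
    [IsGalois K F] (ζ : F) (w : Pr F), 2 < p → IsPrimitiveRoot ζ p → ¬ Tm p w →
    ¬ p ∣ Nat.card (MulAction.stabilizer (F ≃ₐ[K] F) w) →
    ∀ η : MulAction.stabilizer (F ≃ₐ[K] F) w →* (ZMod p)ˣ,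
    (∃ δ : MulAction.stabilizer (F ≃ₐ[K] F) w, δ.1 ζ ≠ ζ ^ (η δ : ZMod p).val) →
    ∀ a : Fin ((un K w).asIdeal.ramificationIdx ℤ * (un K w).asIdeal.inertiaDeg ℤ + 1) → F,
    (∀ i, a i ≠ 0 ∧ ord w (a i) = 0) →
    (∀ i (δ : MulAction.stabilizer (F ≃ₐ[K] F) w) k,
      NearAt p ζ k w (δ.1 (a i) / a i ^ (η δ : ZMod p).val)) →
    ∃ c : _ → ZMod p, c ≠ 0 ∧ NearAt p ζ (p + 1) w (∏ i, a i ^ (c i).val)

/-- local `p`-th powers have trivial Kummer character on the decomposition group -/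
def LocCStmt : Prop :=
  ∀ (M : IntermediateField ℚ Qb) [NumberField M] (hM : xi p ∈ M) (P : Ideal OQ) (w : Pr M),
    2 < p → P.IsMaximal → (p : OQ) ∈ P → w.asIdeal = P.under (𝓞 M) → ∀ β : M, β ≠ 0 →
    NearAt p (⟨xi p, hM⟩ : M) (p + 1) w β → ∀ g ∈ M.fixingSubgroup, g • P = P → KK p β g = 0

/-- unramified primes -/
def LocVStmt : Prop :=
  ∀ (M : IntermediateField ℚ Qb) [NumberField M],
    (∃ E : Finset ℕ, ∀ l ∉ E, l.Prime → ∀ P : Ideal OQ, P.IsMaximal → (l : OQ) ∈ P →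
      P.inertia GQ ≤ M.fixingSubgroup) ∧
    (∀ (l : ℕ) (P : Ideal OQ) (σ : GQ), l.Prime → P.IsMaximal → (l : OQ) ∈ P → IsFrob l P σ →
      P.inertia GQ ≤ M.fixingSubgroup →
      MulAction.stabilizer GQ P ≤ Subgroup.zpowers σ ⊔ M.fixingSubgroup ∧
      (∀ g : GQ, g • P = P → ∃ (k : ℕ), ∃ h ∈ M.fixingSubgroup, g = σ ^ k * h) ∧
      ∀ m : ℕ, (∀ k : ℕ, σ ^ k ∈ M.fixingSubgroup ↔ m ∣ k) →
        Ideal.absNorm (P.under (𝓞 M)) = l ^ m) ∧
    (xi p ∈ M → ∀ l : ℕ, 2 < p → l.Prime → l ≠ p → ∀ (P : Ideal OQ) (w : Pr M), P.IsMaximal →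
      (l : OQ) ∈ P → w.asIdeal = P.under (𝓞 M) → P.inertia GQ ≤ M.fixingSubgroup →
      (∃ τ ∈ P.inertia GQ, KK p l τ = 1) ∧
      ∀ τ ∈ P.inertia GQ, ∀ y : M, y ≠ 0 → KK p y τ = ord w y * KK p l τ)

open Classical in
/-- counting primes of degree one of a given type -/
def CountStmt : Prop :=
  ∀ (K F : IntermediateField ℚ Qb) [NumberField K] [NumberField F], K ≤ F → Stab K F →
    xi p ∈ F → ∀ t ∈ K.fixingSubgroup, ∀ (L : IntermediateField ℚ Qb) [NumberField L]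
    [IsGalois ℚ L], F ≤ L → ∀ sc : (L ≃ₐ[ℚ] L) → GQ, (∀ x, res L (sc x) = x) →
    ∃ N : ℕ, 0 < N ∧ ∀ (l : ℕ) (P : Ideal OQ) (σ : GQ), l.Prime →
      (∀ P' : Ideal OQ, P'.IsMaximal → (l : OQ) ∈ P' → P'.inertia GQ ≤ F.fixingSubgroup) →
      P.IsMaximal → (l : OQ) ∈ P → IsFrob l P σ → ∀ f : Ideal (𝓞 K) → ℝ,
      (∑ x, if Ty p F t ((sc x)⁻¹ * σ * sc x) then f (((sc x)⁻¹ • P).under (𝓞 K)) else 0) =
        N * ∑ᶠ q ∈ {q | Typ p K F t q ∧ Ideal.absNorm q = l}, f q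

/-- Galois theory of `F` over `K` -/
def GalStmt : Prop :=
  ∀ (K F : IntermediateField ℚ Qb) [NumberField K] [NumberField F] (hle : K ≤ F) (h : Stab K F),
    (∀ (g : K.fixingSubgroup) (P : Ideal OQ) (w : Pr F), w.asIdeal = P.under (𝓞 F) →
      (rF h g • w).asIdeal = (g.1 • P).under (𝓞 F)) ∧
    (∀ g, rF h g = 1 ↔ g.1 ∈ F.fixingSubgroup) ∧
    (∀ (P : Ideal OQ) (w : Pr F), P.IsMaximal → w.asIdeal = P.under (𝓞 F) →
      (∀ g : K.fixingSubgroup, g.1 • P = P → Tame p F g) →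
      ¬ p ∣ Nat.card {x : Qt K F // rF h x.out • w = w}) ∧
    letI := (IntermediateField.inclusion hle).toRingHom.toAlgebra
    IsGalois K F ∧ ∃ π : K.fixingSubgroup →* (F ≃ₐ[K] F), Function.Surjective π ∧
      (∀ g x, π g x = rF h g x) ∧ (∀ g (w : Pr F), π g • w = rF h g • w) ∧
      ∀ (P : Ideal OQ) (w : Pr F), P.IsMaximal → w.asIdeal = P.under (𝓞 F) →
        (un K w).asIdeal = P.under (𝓞 K) ∧
        (∀ δ : F ≃ₐ[K] F, δ • w = w ↔ ∃ g, π g = δ ∧ g.1 • P = P) ∧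
        ((∀ g : K.fixingSubgroup, g.1 • P = P → Tame p F g) →
          ¬ p ∣ Nat.card (MulAction.stabilizer (F ≃ₐ[K] F) w))

/-- the norm of the Kummer map -/
def ThStmt : Prop :=
  ∀ (K F : IntermediateField ℚ Qb) [NumberField K] [NumberField F] (D : Dq p K), D.Bs F →
    ∀ ξ : M2 F, (∀ i j, ξ i j ≠ 0) →
      (∀ (c : K.fixingSubgroup) (x : Qt K F), x = QuotientGroup.mk c → ∀ g : GQ,
        D.ad x.out (Matrix.of fun i j => KK p (x.out.1 (ξ i j : Qb)) g) =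
          D.ad c (Matrix.of fun i j => KK p (c.1 (ξ i j : Qb)) g)) ∧
      (∀ g ∈ F.fixingSubgroup, ∀ h ∈ F.fixingSubgroup,
        Th D F ξ (g * h) = Th D F ξ g + Th D F ξ h) ∧
      (∀ᶠ g in 𝓝 (1 : GQ), g ∈ F.fixingSubgroup → Th D F ξ g = 0) ∧
      ((∃ y : F, ∏ i, ξ i i = y ^ p) → ∀ g ∈ F.fixingSubgroup, (Th D F ξ g).trace = 0) ∧
      (∀ t : K.fixingSubgroup, ∀ g ∈ F.fixingSubgroup,
        Th D F ξ (t * g * (t : GQ)⁻¹) = cb p t • D.ad t (Th D F ξ g)) ∧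
      ∀ ξ' : M2 F, (∀ i j, ξ' i j ≠ 0) → ∀ g ∈ F.fixingSubgroup,
        Th D F (Matrix.of fun i j => ξ i j * ξ' i j) g = Th D F ξ g + Th D F ξ' g

/-- existence and basic properties of the data at an auxiliary prime -/
def CoStmt : Prop :=
  ∀ (K F : IntermediateField ℚ Qb) [NumberField K] [NumberField F] (D : Dq p K), D.Bs F →
    (∀ (l : ℕ) (P : Ideal OQ) (σ : GQ), l.Prime → l ≠ p → P.IsMaximal → (l : OQ) ∈ P →
      P.inertia GQ ≤ F.fixingSubgroup → IsFrob l P σ → σ ∈ K.fixingSubgroup → Tame p F σ →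
      ∃ τ m, Co.Ok p K F ⟨l, P, σ, τ, m⟩) ∧
    ∀ c : Co, c.Ok p K F → (p : OQ) ∉ c.P ∧ c.σ ^ c.m ∈ F.fixingSubgroup ∧ c.σ • c.P = c.P ∧
      c.l ^ c.m ≡ 1 [MOD p] ∧ IsFrob (c.l ^ c.m) c.P (c.σ ^ c.m) ∧ cb p c.σ = c.l ∧
      (∀ g ∈ K.fixingSubgroup, Ideal.absNorm ((g • c.P).under (𝓞 F)) = c.l ^ c.m) ∧
      (∀ g ∈ K.fixingSubgroup, (g • c.P).under (𝓞 F) = c.P.under (𝓞 F) ↔
        g ∈ Subgroup.zpowers c.σ ⊔ F.fixingSubgroup) ∧
      (∀ g ∈ K.fixingSubgroup, ∀ w : Pr F, w.asIdeal = (g • c.P).under (𝓞 F) → ∀ y : F, y ≠ 0 →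
        KK p y (g * c.τ * g⁻¹) = cb p g * ord w y) ∧
      ∀ (V : Type) [AddCommGroup V] [Module (ZMod p) V] (a : Pr F → V) (b : GQ → V),
        (∀ g ∈ K.fixingSubgroup, ∀ w : Pr F, w.asIdeal = (g • c.P).under (𝓞 F) → b g = a w) →
        ∑ᶠ x : Qt K F, b x.out = (c.m : ZMod p) • ∑ᶠ w ∈ Orb K c.P, a w

/-- values on inertia -/
def InerStmt : Prop :=
  ∀ (K F : IntermediateField ℚ Qb) [NumberField K] [NumberField F] (D : Dq p K), D.Bs F →
    ∀ c : Co, c.Ok p K F → ∀ f, Tg D F f →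
    (f c.τ = 0 → ∀ s ∈ K.fixingSubgroup, ∀ g, Iner F (s • c.P) g → f g = 0) ∧
    ∀ s : K.fixingSubgroup, s.1 = c.σ → D.ad s (f c.τ) = cb p s • f c.τ ∧
      D.ad s (f (c.σ ^ c.m)) = f (c.σ ^ c.m)

/-- the two sums over an orbit -/
def OrdStmt : Prop :=
  ∀ (K F : IntermediateField ℚ Qb) [NumberField K] [NumberField F] (D : Dq p K) (hB : D.Bs F)
    (c : Co), c.Ok p K F → ∀ ξ : M2 F, (∀ i j, ξ i j ≠ 0) →
    (∀ s : K.fixingSubgroup, s.1 = c.σ → D.ad s (Th D F ξ c.τ) = Th D F ξ c.τ) ∧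
    (∀ ψ, EqP D hB.stab ψ → ∀ w₀ : Pr F, w₀.asIdeal = c.P.under (𝓞 F) →
      (Th D F ξ c.τ * ψ w₀).trace = c.m * ∑ᶠ w ∈ Orb K c.P, (ordF p w ξ * ψ w).trace) ∧
    ∀ f, Tg D F f → ∀ β : M2 F, (∀ i j, β i j ≠ 0) →
      (∀ g ∈ F.fixingSubgroup, ∀ i j, KK p (β i j : Qb) g = f g j i) → ∀ a : Pr F → ZMod p,
      (∀ g ∈ K.fixingSubgroup, ∀ w : Pr F, w.asIdeal = (g • c.P).under (𝓞 F) →
        a w = ∑ i, ∑ j, (ord w (β i j) : ZMod p) * KK p (ξ i j : Qb) (g * c.σ ^ c.m * g⁻¹)) →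
      (Th D F ξ (c.σ ^ c.m) * f c.τ).trace = c.m * ∑ᶠ w ∈ Orb K c.P, a w

/-- the reciprocity law for matrices -/
def RecStmt : Prop :=
  ∀ (K F : IntermediateField ℚ Qb) [NumberField K] [NumberField F] (D : Dq p K) (hB : D.Bs F)
    (f : GQ → M2 (ZMod p)), Tg D F f → Wild D F 0 f → ∀ β : M2 F, (∀ i j, β i j ≠ 0) →
    (∀ g ∈ F.fixingSubgroup, ∀ i j, KK p (β i j : Qb) g = f g j i) →
    ∀ ξ : M2 F, Un p ξ → (∀ i, Loc D ξ i) → PhiM p (⟨xi p, hB.xi⟩ : F) ξ β = 0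

/-- the contribution of the primes above `p` -/
def CfStmt : Prop :=
  ∀ (K F : IntermediateField ℚ Qb) [NumberField K] [NumberField F] (D : Dq p K) (hB : D.Bs F),
    ∃ cf : M2 F → ZMod p, AddM p cf ∧ ∀ u f, Tg D F f → Wild D F u f →
      ∃ β : M2 F, (∀ i j, β i j ≠ 0) ∧
        (∀ g ∈ F.fixingSubgroup, ∀ i j, KK p (β i j : Qb) g = f g j i) ∧
        ∀ ξ : M2 F, Un p ξ → (∀ i, Loc D ξ i) →
          PhiM p (⟨xi p, hB.xi⟩ : F) ξ β = u * cf ξ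

/-- the linear relations -/
def SumStmt : Prop :=
  ∀ (K F : IntermediateField ℚ Qb) [NumberField K] [NumberField F] (D : Dq p K) (hB : D.Bs F)
    (J : Type) [Fintype J] (c : J → Co), (∀ j, (c j).Ok p K F) →
    (Function.Injective fun j => (c j).l) → ∀ u f, Sel D F c u f → ∀ β : M2 F,
    (∀ i j, β i j ≠ 0) → (∀ g ∈ F.fixingSubgroup, ∀ i j, KK p (β i j : Qb) g = f g j i) →
    ∀ (T : Finset J) (ξ : M2 F), Dual D hB.stab ((fun j => (c j).P) '' T) ξ →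
    ∑ j, ((c j).m : ZMod p)⁻¹ * (Th D F ξ ((c j).σ ^ (c j).m) * f (c j).τ).trace =
      ∑ j ∈ T, ((c j).m : ZMod p)⁻¹ * (Th D F ξ (c j).τ * f ((c j).σ ^ (c j).m)).trace +
        PhiM p (⟨xi p, hB.xi⟩ : F) ξ β

/-- the number of local conditions at an ordinary prime -/
def LocStmt : Prop :=
  ∀ (K F : IntermediateField ℚ Qb) [NumberField K] [NumberField F] (D : Dq p K), D.Bs F →
    ∀ i, ∃ L : M2 F → Fin (((D.o i).P.under (𝓞 K)).ramificationIdx ℤ *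
      ((D.o i).P.under (𝓞 K)).inertiaDeg ℤ) → ZMod p,
      AddM p L ∧ ∀ ξ, Un p ξ → L ξ = 0 → Loc D ξ i

/-- the field cut out by the projective representation -/
def SetStmt : Prop :=
  ∀ (K F : IntermediateField ℚ Qb) [NumberField K] [NumberField F] (D : Dq p K), D.Bs F →
    ∃ (E : IntermediateField K Qb) (_ : NumberField E) (π : K.fixingSubgroup →* (E ≃ₐ[K] E)),
      Function.Surjective π ∧ (∀ g (x : E), (π g x : Qb) = g.1 x) ∧
      (∀ g, π g = 1 ↔ D.r g = 1) ∧ Nat.card (E ≃ₐ[K] E) = Nat.card D.r.range ∧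
      (∀ x : E, (x : Qb) ∈ F) ∧ (∀ x : E, x ^ p = 1 → x = 1) ∧
      Unram K E p ∧ (∀ v, EvenAt D.r v → ∃ w : InfinitePlace E, w.comap (algebraMap K E) = v ∧
        ∀ g : E ≃ₐ[K] E, g • w = w → g = 1) ∧
      ¬ p ∣ (F.fixingSubgroup.subgroupOf K.fixingSubgroup).relIndex π.ker ∧
      (∀ x : E, x ≠ 0 → (∀ g ∈ F.fixingSubgroup, KK p (x : Qb) g = 0) → ∃ y : E, x = y ^ p) ∧
      ∀ P : Ideal OQ, P.IsMaximal → ∃ x : Pr E, x.asIdeal = P.under (𝓞 E) ∧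
        ∀ (P' : Ideal OQ) (x' : Pr E) (g : K.fixingSubgroup), P'.IsMaximal →
          x'.asIdeal = P'.under (𝓞 E) → π g • x = x' → ∃ h, π h = π g ∧ h.1 • P = P'

/-- nonvanishing of the characters -/
def NzStmt : Prop :=
  ∀ (K F : IntermediateField ℚ Qb) [NumberField K] [NumberField F] (D : Dq p K), D.Bs F →
    (∀ Ψ : GQ → M2 (ZMod p), (∀ g ∈ F.fixingSubgroup, (Ψ g).trace = 0) →
      (∀ t : K.fixingSubgroup, ∀ g ∈ F.fixingSubgroup,
        Ψ (t * g * (t : GQ)⁻¹) = cb p t • D.ad t (Ψ g)) → (∃ g ∈ F.fixingSubgroup, Ψ g ≠ 0) →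
      ∀ X : M2 (ZMod p), X ≠ 0 → X.trace = 0 → ∃ g ∈ F.fixingSubgroup, (Ψ g * X).trace ≠ 0) ∧
    ∀ g₀, Tg D F g₀ → ∀ H : M2 (ZMod p), H.trace = 0 →
      ∃ g ∈ F.fixingSubgroup, (H * g₀ g).trace - psi p g ≠ 0

end

end Pool.Agent.MP_f68ac8_nt.Qv
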