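import Mathlib
import Pool.Agent.Mg.Fe23604m.Gc29647
import Pool.Agent.Mg.Fe23604m.G7d1337
import Pool.Agent.Mg.Fe23604m.G6ee7f6

set_option linter.all false

section

/-! Selmer groups of an abstract module and their variation with auxiliary primes. -/

namespace Pool.Agent.MP_f68ac8_nt.Sv

open NumberField Matrix Finset Module Ev Pv
open Qv (Stab rF Qt Orb)
open Pool.Agent.MP_14ad9d_nt.Full (Pr ord Tm tame Phi)
open scoped Pointwise Topology

/-- the data attached to an auxiliary prime -/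
abbrev Co : Type := Qv.Co

/-- vectors -/
abbrev Vc (p d : ℕ) : Type := Fin d → ZMod p

section
variable {p : ℕ} [hp : Fact p.Prime] {K : IntermediateField ℚ Qb}

variable (p K) in
/-- a module with local conditions above `p` and a set of bad primes -/
structure Md where
  d : ℕ
  R : K.fixingSubgroup → Mt d (ZMod p)
  Adm : (GQ → Vc p d) → Prop
  Bd : Set (Ideal OQ)

variable (p K) in
/-- the hypotheses on the fields -/
structure Fb (F : IntermediateField ℚ Qb) : Prop where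
  two : 2 < p
  le : K ≤ F
  stab : Stab K F
  xi : xi p ∈ F
  hh : HH p F = F.fixingSubgroup
  fin : Finite (Qt K F)
  nrm : ∀ g : K.fixingSubgroup, ∀ h ∈ F.fixingSubgroup, g.1 * h * g.1⁻¹ ∈ F.fixingSubgroup

variable (D : Md p K) (F : IntermediateField ℚ Qb)

/-- the dual action -/
noncomputable def Md.dl (g : K.fixingSubgroup) : Mt D.d (ZMod p) := (D.R g⁻¹)ᵀ

/-- equivariant continuous additive maps -/
structure Tg (f : GQ → Vc p D.d) : Prop where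
  add : ∀ g ∈ F.fixingSubgroup, ∀ h ∈ F.fixingSubgroup, f (g * h) = f g + f h
  conj : ∀ g : K.fixingSubgroup, ∀ h ∈ F.fixingSubgroup, f (g * h * g.1⁻¹) = D.R g *ᵥ f h
  nhds : ∀ᶠ g in 𝓝 (1 : GQ), g ∈ F.fixingSubgroup → f g = 0

/-- the module is a representation that is trivial on the Galois group of `F` -/
structure Mr : Prop where
  mul : ∀ g h, D.R (g * h) = D.R g * D.R h
  one : D.R 1 = 1
  ker : ∀ g : K.fixingSubgroup, g.1 ∈ F.fixingSubgroup → D.R g = 1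

/-- the hypotheses on the module -/
structure Mb : Prop extends Mr D F where
  irr : ∀ W : Submodule (ZMod p) (Vc p D.d), (∀ g, ∀ v ∈ W, D.R g *ᵥ v ∈ W) → W = ⊥ ∨ W = ⊤
  cyc : ∃ g, D.R g = 1 ∧ cb p g ≠ 1
  zero : D.Adm 0
  lin : ∀ (a : ZMod p) f f', D.Adm f → D.Adm f' → D.Adm (a • f + f')
  max : ∀ P ∈ D.Bd, P.IsMaximal
  bad : ∀ P ∈ D.Bd, ∀ f, Tg D F f → D.Adm f → ∀ g ∈ F.fixingSubgroup, g • P = P → f g = 0

/-- the Selmer group with the level raising condition at the auxiliary primes -/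
structure Sel {J : Type} (c : J → Co) (f : GQ → Vc p D.d) : Prop where
  tang : Tg D F f
  adm : D.Adm f
  unr : ∀ P g, Iner F P g → (p : OQ) ∉ P → (∀ j, ∀ s ∈ K.fixingSubgroup, P ≠ s • (c j).P) →
    f g = 0
  st : ∀ j, f ((c j).σ ^ (c j).m) = 0
  out : ∀ g, g ∉ F.fixingSubgroup → f g = 0

/-- the linear algebra attached to a type -/
structure RamData (t : GQ) (X Y : Vc p D.d) : Prop where
  neX : X ≠ 0
  neY : Y ≠ 0
  fix : ∀ g : K.fixingSubgroup, g.1 ∈ Subgroup.zpowers t ⊔ F.fixingSubgroup →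
    D.R g *ᵥ X = cb p g • X ∧ Y ᵥ* D.R g = Y
  eig : ∀ s : K.fixingSubgroup, t ∈ Subgroup.zpowers s.1 ⊔ F.fixingSubgroup → ∀ Z,
    D.R s *ᵥ Z = cb p s • Z → ∃ c : ZMod p, Z = c • X

/-- the norm of the Kummer map -/
noncomputable def Th (ξ : Fin D.d → F) (g : GQ) : Vc p D.d :=
  ∑ᶠ x : Qt K F, D.dl x.out *ᵥ fun i => KK p (x.out.1 (ξ i : Qb)) g

/-- the dimension of the space of restrictions to the primes above `p` -/
def LocDim (N : ℕ) : Prop :=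
  ∀ f : Fin (N + 1) → GQ → Vc p D.d, (∀ j, Tg D F (f j) ∧ D.Adm (f j)) →
    ∃ c : Fin (N + 1) → ZMod p, c ≠ 0 ∧ ∀ P : Ideal OQ, P.IsMaximal → (p : OQ) ∈ P →
      ∀ g ∈ F.fixingSubgroup, g • P = P → ∑ j, c j • f j g = 0

end

section
variable {E : Type} [Field E] [NumberField E] {d : ℕ}

/-- functions that are additive for the entrywise product -/
def AddV {V : Type} [Add V] (L : (Fin d → E) → V) : Prop :=
  ∀ ξ ξ' : Fin d → E, (∀ i, ξ i ≠ 0) → (∀ i, ξ' i ≠ 0) → L (ξ * ξ') = L ξ + L ξ'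

/-- the vector of valuations -/
noncomputable def ordV (p : ℕ) (w : Pr E) (ξ : Fin d → E) : Vc p d :=
  fun i => ((ord w (ξ i) : ℤ) : ZMod p)

/-- the pairing with functions on primes -/
noncomputable def pairP {p : ℕ} (ψ : Pr E → Vc p d) (ξ : Fin d → E) : ZMod p :=
  ∑ᶠ w, ordV p w ξ ⬝ᵥ ψ w

/-- the sum of the tame symbols -/
noncomputable def PhiV (p : ℕ) (ζ : E) (ξ β : Fin d → E) : ZMod p := ∑ i, Phi p ζ (ξ i) (β i)

end

section
variable {p : ℕ} [hp : Fact p.Prime] {K : IntermediateField ℚ Qb} (D : Md p K)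
  {F : IntermediateField ℚ Qb} [NumberField F]

/-- equivariant functions on primes -/
def EqP (h : Stab K F) (ψ : Pr F → Vc p D.d) : Prop :=
  ∀ g w, ψ (rF h g • w) = D.R g *ᵥ ψ w

/-- dual classes ramified only above `p`, at the bad primes and at the primes in `B` -/
structure Dual (h : Stab K F) (B : Set (Ideal OQ)) (ξ : Fin D.d → F) : Prop where
  ne : ∀ i, ξ i ≠ 0
  pair : ∀ ψ, EqP D h ψ → (∀ w, ¬ Tm p w → ψ w = 0) →
    (∀ P ∈ B ∪ D.Bd, ∀ w ∈ Orb K P, ψ w = 0) → pairP ψ ξ = 0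

/-- the values on Frobenius elements -/
structure Art (h : Stab K F) {J : Type} (c : J → Co) (f : GQ → Vc p D.d)
    (ψ : Pr F → Vc p D.d) : Prop where
  eqv : EqP D h ψ
  wild : ∀ w, ¬ Tm p w → ψ w = 0
  aux : ∀ j, ∀ w ∈ Orb K (c j).P, ψ w = 0
  oth : ∀ P : Ideal OQ, P.IsMaximal → (p : OQ) ∉ P →
    (∀ j, ∀ s ∈ K.fixingSubgroup, P ≠ s • (c j).P) → ∀ w : Pr F, w.asIdeal = P.under (𝓞 F) →
    ∀ s ∈ F.fixingSubgroup, IsFrob (Ideal.absNorm w.asIdeal) P s → ψ w = f s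

/-- the contribution of the primes above `p` -/
def Cf (hx : xi p ∈ F) {N : ℕ} (cf : (Fin D.d → F) → Fin N → ZMod p) : Prop :=
  AddV cf ∧ ∀ f, Tg D F f → D.Adm f → ∃ β : Fin D.d → F, (∀ i, β i ≠ 0) ∧
    (∀ g ∈ F.fixingSubgroup, ∀ i, KK p (β i : Qb) g = f g i) ∧
    ∀ ξ : Fin D.d → F, (∀ i, ξ i ≠ 0) → cf ξ = 0 → PhiV p (⟨xi p, hx⟩ : F) ξ β = 0

end

section
variable (p : ℕ) [hp : Fact p.Prime]

/-- the norm of the Kummer map -/
def ThStmt : Prop :=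
  ∀ (K F : IntermediateField ℚ Qb) [NumberField K] [NumberField F] (D : Md p K), Fb p K F →
    Mr D F → ∀ ξ : Fin D.d → F, (∀ i, ξ i ≠ 0) →
      (∀ (c : K.fixingSubgroup) (x : Qt K F), x = QuotientGroup.mk c → ∀ g : GQ,
        (D.dl x.out *ᵥ fun i => KK p (x.out.1 (ξ i : Qb)) g) =
          D.dl c *ᵥ fun i => KK p (c.1 (ξ i : Qb)) g) ∧
      (∀ g ∈ F.fixingSubgroup, ∀ h ∈ F.fixingSubgroup,
        Th D F ξ (g * h) = Th D F ξ g + Th D F ξ h) ∧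
      (∀ᶠ g in 𝓝 (1 : GQ), g ∈ F.fixingSubgroup → Th D F ξ g = 0) ∧
      (∀ t : K.fixingSubgroup, ∀ g ∈ F.fixingSubgroup,
        Th D F ξ (t * g * (t : GQ)⁻¹) = cb p t • D.dl t *ᵥ Th D F ξ g) ∧
      ∀ ξ' : Fin D.d → F, (∀ i, ξ' i ≠ 0) → ∀ g ∈ F.fixingSubgroup,
        Th D F (ξ * ξ') g = Th D F ξ g + Th D F ξ' g

/-- existence and basic properties of the data at an auxiliary prime -/
def CoStmt : Prop :=
  ∀ (K F : IntermediateField ℚ Qb) [NumberField K] [NumberField F], Fb p K F →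
    (∀ (l : ℕ) (P : Ideal OQ) (σ : GQ), l.Prime → l ≠ p → P.IsMaximal → (l : OQ) ∈ P →
      P.inertia GQ ≤ F.fixingSubgroup → IsFrob l P σ → σ ∈ K.fixingSubgroup → Tame p F σ →
      ∃ τ m, Qv.Co.Ok p K F ⟨l, P, σ, τ, m⟩) ∧
    ∀ c : Co, c.Ok p K F → (p : OQ) ∉ c.P ∧ c.σ ^ c.m ∈ F.fixingSubgroup ∧ c.σ • c.P = c.P ∧
      c.l ^ c.m ≡ 1 [MOD p] ∧ IsFrob (c.l ^ c.m) c.P (c.σ ^ c.m) ∧ cb p c.σ = c.l ∧
      (∀ g ∈ K.fixingSubgroup, Ideal.absNorm ((g • c.P).under (𝓞 F)) = c.l ^ c.m) ∧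
      (∀ g ∈ K.fixingSubgroup, (g • c.P).under (𝓞 F) = c.P.under (𝓞 F) ↔
        g ∈ Subgroup.zpowers c.σ ⊔ F.fixingSubgroup) ∧
      (∀ g ∈ K.fixingSubgroup, ∀ w : Pr F, w.asIdeal = (g • c.P).under (𝓞 F) → ∀ y : F, y ≠ 0 →
        KK p y (g * c.τ * g⁻¹) = cb p g * ord w y) ∧
      ∀ (V : Type) [AddCommGroup V] [Module (ZMod p) V] (a : Pr F → V) (b : GQ → V),
        (∀ g ∈ K.fixingSubgroup, ∀ w : Pr F, w.asIdeal = (g • c.P).under (𝓞 F) → b g = a w) →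
        ∑ᶠ x : Qt K F, b x.out = (c.m : ZMod p) • ∑ᶠ w ∈ Orb K c.P, a w

/-- values on inertia -/
def InerStmt : Prop :=
  ∀ (K F : IntermediateField ℚ Qb) [NumberField K] [NumberField F] (D : Md p K), Fb p K F →
    ∀ c : Co, c.Ok p K F → ∀ f, Tg D F f →
    (f c.τ = 0 → ∀ s ∈ K.fixingSubgroup, ∀ g, Iner F (s • c.P) g → f g = 0) ∧
    ∀ s : K.fixingSubgroup, s.1 = c.σ → D.R s *ᵥ f c.τ = cb p s • f c.τ

/-- the sum over an orbit -/
def OrdStmt : Prop :=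
  ∀ (K F : IntermediateField ℚ Qb) [NumberField K] [NumberField F] (D : Md p K), Fb p K F →
    Mr D F → ∀ c : Co, c.Ok p K F → ∀ ξ : Fin D.d → F, (∀ i, ξ i ≠ 0) →
    ∀ f, Tg D F f → ∀ β : Fin D.d → F, (∀ i, β i ≠ 0) →
      (∀ g ∈ F.fixingSubgroup, ∀ i, KK p (β i : Qb) g = f g i) → ∀ a : Pr F → ZMod p,
      (∀ g ∈ K.fixingSubgroup, ∀ w : Pr F, w.asIdeal = (g • c.P).under (𝓞 F) →
        a w = ∑ i, (ord w (β i) : ZMod p) * KK p (ξ i : Qb) (g * c.σ ^ c.m * g⁻¹)) →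
      Th D F ξ (c.σ ^ c.m) ⬝ᵥ f c.τ = c.m * ∑ᶠ w ∈ Orb K c.P, a w

/-- the linear relation -/
def SumStmt : Prop :=
  ∀ (K F : IntermediateField ℚ Qb) [NumberField K] [NumberField F] (D : Md p K) (hB : Fb p K F),
    Mb D F → ∀ (J : Type) [Fintype J] (c : J → Co), (∀ j, (c j).Ok p K F) →
    (Function.Injective fun j => (c j).l) → ∀ f, Sel D F c f → ∀ β : Fin D.d → F,
    (∀ i, β i ≠ 0) → (∀ g ∈ F.fixingSubgroup, ∀ i, KK p (β i : Qb) g = f g i) →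
    ∀ (B : Set (Ideal OQ)) (ξ : Fin D.d → F), (∀ P ∈ B, ∃ j, P = (c j).P) →
    Dual D hB.stab B ξ →
    ∑ j, ((c j).m : ZMod p)⁻¹ * (Th D F ξ ((c j).σ ^ (c j).m) ⬝ᵥ f (c j).τ) =
      PhiV p (⟨xi p, hB.xi⟩ : F) ξ β

/-- the contribution of the primes above `p` -/
def CfStmt : Prop :=
  ∀ (K F : IntermediateField ℚ Qb) [NumberField K] [NumberField F] (D : Md p K) (hB : Fb p K F),
    Mb D F → ∀ N, LocDim D F N → ∃ cf : (Fin D.d → F) → Fin N → ZMod p, Cf D hB.xi cf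

/-- nonvanishing and independence of the characters -/
def NzStmt : Prop :=
  ∀ (K F : IntermediateField ℚ Qb) [NumberField K] [NumberField F] (D : Md p K), Fb p K F →
    Mb D F →
    (∀ Ψ : GQ → Vc p D.d, (∀ t : K.fixingSubgroup, ∀ g ∈ F.fixingSubgroup,
        Ψ (t * g * (t : GQ)⁻¹) = cb p t • D.dl t *ᵥ Ψ g) → (∃ g ∈ F.fixingSubgroup, Ψ g ≠ 0) →
      ∀ X, X ≠ 0 → ∃ g ∈ F.fixingSubgroup, Ψ g ⬝ᵥ X ≠ 0) ∧
    (∀ f, Tg D F f → (∃ g ∈ F.fixingSubgroup, f g ≠ 0) →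
      ∀ Y, Y ≠ 0 → ∃ g ∈ F.fixingSubgroup, Y ⬝ᵥ f g ≠ 0) ∧
    ∀ (Ψ f : GQ → Vc p D.d) (X Y : Vc p D.d), (∀ t : K.fixingSubgroup, ∀ g ∈ F.fixingSubgroup,
        Ψ (t * g * (t : GQ)⁻¹) = cb p t • D.dl t *ᵥ Ψ g) → Tg D F f →
      (∀ g ∈ F.fixingSubgroup, Y ⬝ᵥ f g + Ψ g ⬝ᵥ X = 0) →
      ∀ g ∈ F.fixingSubgroup, Y ⬝ᵥ f g = 0 ∧ Ψ g ⬝ᵥ X = 0

open Classical in
/-- equidistribution of independent invariant characters -/
def StepMStmt : Prop :=
  ∀ (K F : IntermediateField ℚ Qb) [NumberField K] [NumberField F], K ≤ F → Stab K F →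
    xi p ∈ F → ∀ t ∈ K.fixingSubgroup, ∀ m : ℕ, ¬ p ∣ m →
    t ^ m ∈ F.fixingSubgroup → ∀ (I : Type) [Fintype I] (B : I → Type) [∀ i, Fintype (B i)]
    (θ : ∀ i, B i → GQ → ZMod p) (w : I → ℝ),
    (∀ i b, ∀ g ∈ F.fixingSubgroup, ∀ h ∈ F.fixingSubgroup, θ i b (g * h) = θ i b g + θ i b h) →
    (∀ i b, ∀ᶠ g in 𝓝 (1 : GQ), g ∈ F.fixingSubgroup → θ i b g = 0) →
    (∀ i b, ∀ g ∈ F.fixingSubgroup, θ i b (t * g * t⁻¹) = θ i b g) →
    (∀ i (c : B i → ZMod p), (∀ g ∈ F.fixingSubgroup, ∑ b, c b * θ i b g = 0) → c = 0) →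
    ∀ (a : ℝ) (f : Ideal (𝓞 K) → ℝ), (∀ q, 0 ≤ f q) → (∀ q, f q ≤ 1) → ∀ E : Finset ℕ,
    (∀ l ∉ E, l.Prime → ∀ P : Ideal OQ, P.IsMaximal → (l : OQ) ∈ P → ∀ σ, IsFrob l P σ →
      Ty p F t σ → a - ∑ i, (if ∀ b, θ i b (σ ^ m) = 0 then w i else 0) ≤ f (P.under (𝓞 K))) →
    a - ∑ i, w i / p ^ Fintype.card (B i) ≤ idMean (Typ p K F t) f

end

end Pool.Agent.MP_f68ac8_nt.Sv

end

section

/-! Modular representation theory of units in the presence of wild ramification. -/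

namespace Pool.Agent.MP_f68ac8_nt.Sv

open NumberField Matrix Finset Module Ev Pv
open Pool.Agent.MP_14ad9d_nt.Full (Pr ord Tm)
open scoped TensorProduct

section
variable {p : ℕ} [hp : Fact p.Prime] {Γ : Type} [Group Γ]

/-- the norm of an operator of order `p` -/
noncomputable def nm {V : Type} [AddCommGroup V] [Module (ZMod p) V]
    (S : Module.End (ZMod p) V) : Module.End (ZMod p) V := ∑ i ∈ range p, S ^ i

/-- all Jordan blocks have size one or `p` -/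
def FT {V : Type} [AddCommGroup V] [Module (ZMod p) V] (S : Module.End (ZMod p) V) : Prop :=
  finrank (ZMod p) (LinearMap.range (S - 1)) ≤ (p - 1) * finrank (ZMod p) (LinearMap.range (nm S))

/-- the representation given by matrices -/
noncomputable def mRep {d : ℕ} (R : Γ →* Mt d (ZMod p)) : Representation (ZMod p) Γ (Vc p d) :=
  (Matrix.toLinAlgEquiv' (R := ZMod p) (n := Fin d)).toRingEquiv.toRingHom.toMonoidHom.comp R

lemma mRep_apply {d : ℕ} (R : Γ →* Mt d (ZMod p)) (g : Γ) (v : Vc p d) :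
    mRep R g v = R g *ᵥ v := rfl

/-- a central element of order at most two complementing a subgroup -/
structure Cen (H : Subgroup Γ) (c : Γ) : Prop where
  comm : ∀ g, g * c = c * g
  sq : c * c = 1
  cov : ∀ g, g ∈ H ∨ c * g ∈ H
  mem : c ∈ H → c = 1

variable (p) in
/-- a Sylow subgroup of order `p` of `H` with its normaliser -/
structure BorW (H : Subgroup Γ) (s t : Γ) (a e : ℕ) : Prop where
  hs : s ∈ H
  ht : t ∈ H
  os : orderOf s = p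
  ot : t ^ e = 1
  rel : t * s = s ^ a * t
  oa : orderOf (a : ZMod p) = e
  pos : 0 < e
  ti : ∀ g ∈ H, g * s * g⁻¹ ∈ Subgroup.closure {s, t} → g ∈ Subgroup.closure {s, t}

/-- the weights of a module -/
structure WtD {M : Type} [AddCommGroup M] [Module (ZMod p) M] (σ : Representation (ZMod p) Γ M)
    (s t c : Γ) (a i : ℕ) (ε : ZMod p) : Prop where
  pos : 0 < i
  sq : ε * ε = 1
  cen : ∀ v, σ c v = ε • v
  bas : ∃ b : Basis (Fin (2 * i + 1)) (ZMod p) M,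
    ∀ j, (a : ZMod p) ^ i • σ t (b j) = (a : ZMod p) ^ (j : ℕ) • b j
  top : ∀ v, σ s v = v → σ t v = (a : ZMod p) ^ i • v

variable (p) in
/-- the stabilisers of the fixed points are large -/
def FixE (Sg : Type) [MulAction Γ Sg] (s t : Γ) (a i : ℕ) : Prop :=
  (∃ w : Sg, s • w = w) ∧ ∀ w : Sg, s • w = w → ∃ k : ℕ, t ^ k • w = w ∧
    ∀ j, 0 < j → j ≤ i + 1 → ((a : ZMod p) ^ k) ^ j ≠ 1

variable (p) in
/-- functions supported on the fixed points -/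
def Fx (Sg : Type) [MulAction Γ Sg] (s : Γ) : Submodule (ZMod p) (Sg → ZMod p) where
  carrier := {y | ∀ w, s • w ≠ w → y w = 0}
  zero_mem' _ _ := rfl
  add_mem' hx hy w hw := by rw [Pi.add_apply, hx w hw, hy w hw, add_zero]
  smul_mem' c x hx w hw := by rw [Pi.smul_apply, hx w hw, smul_zero]

variable (p) in
/-- functions of sum zero -/
noncomputable def Sz (Sg : Type) [Fintype Sg] : Submodule (ZMod p) (Sg → ZMod p) :=
  LinearMap.ker (∑ w : Sg, LinearMap.proj (R := ZMod p) (φ := fun _ : Sg => ZMod p) w)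

/-- the Tate cohomology of a module -/
structure BrD {X Sg : Type} [AddCommGroup X] [Module (ZMod p) X] [Fintype Sg] [MulAction Γ Sg]
    (ρ : Representation (ZMod p) Γ X) (s : Γ) (lam : X →ₗ[ZMod p] Sg → ZMod p) : Prop where
  ft : FT (ρ s)
  ker : ∀ x, ρ s x = x → (lam x = 0 ↔ x ∈ LinearMap.range (nm (ρ s)))
  img : (LinearMap.ker (ρ s - 1)).map lam = Fx p Sg s ⊓ Sz p Sg
  eqv : ∀ (g : Γ) (k : ℕ), g * s = s ^ k * g → ∀ x, ρ s x = x → ∀ w,
    lam (ρ g x) (g • w) = k * lam x w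

/-- the Tate cohomology of a lattice -/
structure HWA {A Sg : Type} [AddCommGroup A] [Module ℤ A] [MulAction Γ Sg]
    (α : Representation ℤ Γ A) (s : Γ) (lam : A → Sg → ZMod p) : Prop where
  add : ∀ x y, α s x = x → α s y = y → ∀ w, s • w = w → lam (x + y) w = lam x w + lam y w
  eqv : ∀ (g : Γ) (k : ℕ), g * s = s ^ k * g → ∀ x, α s x = x → ∀ w, s • w = w →
    lam (α g x) (g • w) = k * lam x w
  nrm : ∀ y w, s • w = w → lam (∑ i ∈ range p, α (s ^ i) y) w = 0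
  sum : ∀ x, α s x = x → ∑ᶠ w ∈ {w | s • w = w}, lam x w = 0
  h1 : ∀ a, ∑ i ∈ range p, α (s ^ i) a = 0 → ∃ c, a = α s c - c
  rel : ∀ r : Sg → ZMod p, (∀ x, α s x = x → ∑ᶠ w ∈ {w | s • w = w}, r w * lam x w = 0) →
    ∀ w w', s • w = w → s • w' = w' → r w = r w'

/-- the class of a module in terms of ranks of idempotents -/
def ClsD {X : Type} [AddCommGroup X] [Module (ZMod p) X] (ρ : Representation (ZMod p) Γ X)
    (Sg : Type) [MulAction Γ Sg] : Prop :=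
  ∀ e : MonoidAlgebra (ZMod p) Γ, IsIdempotentElem e →
    ∀ (M : Type) [AddCommGroup M] [Module (ZMod p) M] [FiniteDimensional (ZMod p) M]
      (σ : Representation (ZMod p) Γ M),
      rk e ρ σ + finrank (ZMod p) (LinearMap.range (σ.asAlgebraHom e)) =
        rk e (perm Γ (ZMod p) Sg) σ

end

section
variable (p : ℕ) [hp : Fact p.Prime]

/-- the lower bound for the space of norms -/
def AlgWStmt : Prop :=
  ∀ (Γ : Type) [Group Γ] [Fintype Γ] (X M : Type) [AddCommGroup X] [Module (ZMod p) X]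
    [FiniteDimensional (ZMod p) X] [AddCommGroup M] [Module (ZMod p) M]
    [FiniteDimensional (ZMod p) M] (ρ : Representation (ZMod p) Γ X)
    (σ : Representation (ZMod p) Γ M) (Sg : Type) [Fintype Sg] [MulAction Γ Sg]
    (H : Subgroup Γ) (s t c : Γ) (a e i : ℕ) (ε : ZMod p) (lam : X →ₗ[ZMod p] Sg → ZMod p),
    2 < p → Cen H c → BorW p H s t a e → WtD σ s t c a i ε → FixE p Sg s t a i → BrD ρ s lam →
    ClsD ρ Sg → finrank (ZMod p) ((perm Γ (ZMod p) Sg).tprod σ).invariants ≤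
      finrank (ZMod p) (LinearMap.range (∑ g, ρ.tprod σ g))

/-- the Tate cohomology of the reduction -/
def RankWStmt : Prop :=
  ∀ (Γ : Type) [Group Γ] (A : Type) [AddCommGroup A] [Module ℤ A] (α : Representation ℤ Γ A)
    (Sg : Type) [Fintype Sg] [MulAction Γ Sg] (j : (Sg → ℤ) →ₗ[ℤ] A), JData p α Sg j →
    ∀ s : Γ, orderOf s = p → (∃ w : Sg, s • w = w) → ∀ lam : A → Sg → ZMod p, HWA α s lam →
    ∃ lam' : (ZMod p ⊗[ℤ] A) →ₗ[ZMod p] Sg → ZMod p, BrD (red p α) s lam'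

/-- the equivariant unit theorem -/
def JStmt : Prop :=
  ∀ (K E : Type) [Field K] [NumberField K] [Field E] [NumberField E] [Algebra K E]
    (T : SubMulAction (E ≃ₐ[K] E) (Pr E)), (T : Set (Pr E)).Finite →
    (∀ x : E, x ^ p = 1 → x = 1) → ∃ j, JData p (uRep T) (InfinitePlace E ⊕ T) j

/-- from tensors to vectors -/
def Mat1Stmt : Prop :=
  ∀ (Γ : Type) [Group Γ] [Fintype Γ] (d : ℕ) (R : Γ →* Mt d (ZMod p))
    (A : Type) [AddCommGroup A] [Module ℤ A] [Module.Finite ℤ A] (α : Representation ℤ Γ A)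
    (T : Type) [Fintype T] [MulAction Γ T] (o : T → A →+ ZMod p) (ι : Type) [Fintype ι]
    (L : (Fin d → A) → ι → ZMod p), (∀ η η', L (η + η') = L η + L η') →
    (∀ g w x, o (g • w) (α g x) = o w x) →
    finrank (ZMod p) ((perm Γ (ZMod p) T).tprod (mRep R)).invariants + Fintype.card ι <
      finrank (ZMod p) (LinearMap.range (∑ g, (red p α).tprod (mRep R) g)) →
    ∃ η : Fin d → A, (∀ w, ∑ g, (R g *ᵥ fun i => o w (α g (η i))) = 0) ∧ L η = 0 ∧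
      ∀ (κ : Type) (lam : κ → A →+ ZMod p), (∀ x, (∀ i, lam i x = 0) → ∃ b, x = (p : ℤ) • b) →
        ∃ i, ∑ g, (R g *ᵥ fun u => lam i (α g (η u))) ≠ 0

/-- a nonzero norm with prescribed linear conditions -/
def MatStmt : Prop :=
  ∀ (K E : Type) [Field K] [NumberField K] [Field E] [NumberField E] [Algebra K E] [IsGalois K E]
    [Fintype (E ≃ₐ[K] E)] (d : ℕ) (R : (E ≃ₐ[K] E) →* Mt d (ZMod p)), 2 < p →
    (∀ x : E, x ^ p = 1 → x = 1) → ∀ (H : Subgroup (E ≃ₐ[K] E)) (s t c : E ≃ₐ[K] E) (a e i : ℕ)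
    (ε : ZMod p), Cen H c → BorW p H s t a e → WtD (mRep R) s t c a i ε →
    ∀ W : SubMulAction (E ≃ₐ[K] E) (Pr E), (W : Set (Pr E)).Finite → (∀ w, ¬ Tm p w → w ∈ W) →
    (∀ w, w ∉ W → s ∉ w.asIdeal.inertia (E ≃ₐ[K] E)) → FixE p W s t a i →
    ∀ (J : Type) [Fintype J] (x : J → Pr E), (∀ j, x j ∈ W) →
    (∀ i j (g : E ≃ₐ[K] E), g • x i = x j → i = j) →
    (∀ j, ∃ Y, Y ≠ 0 ∧ ∀ g : E ≃ₐ[K] E, g • x j = x j → R g *ᵥ Y = Y) →
    ∀ (y : InfinitePlace K → InfinitePlace E)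
    (U : InfinitePlace K → Submodule (ZMod p) (Vc p d)),
    (∀ v, (y v).comap (algebraMap K E) = v) →
    (∀ v (g : E ≃ₐ[K] E), g • y v = y v → ∀ Y ∈ U v, R g *ᵥ Y = Y) →
    ∀ (ι : Type) [Fintype ι] (L : (Fin d → E) → ι → ZMod p), AddV L →
    Fintype.card ι < ∑ v, finrank (ZMod p) (U v) + Fintype.card J →
    ∃ ξ : Fin d → E, (∀ i, ξ i ≠ 0) ∧
      (∀ ψ : Pr E → Vc p d, (∀ (g : E ≃ₐ[K] E) w, ψ (g • w) = (R g⁻¹)ᵀ *ᵥ ψ w) →
        (∀ w ∈ W, ψ w = 0) → pairP ψ ξ = 0) ∧ L ξ = 0 ∧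
      ∀ (κ : Type) (lam : κ → E → ZMod p),
        (∀ i x y, x ≠ 0 → y ≠ 0 → lam i (x * y) = lam i x + lam i y) →
        (∀ x, x ≠ 0 → (∀ i, lam i x = 0) → ∃ y, x = y ^ p) →
        ∃ i, ∑ g : E ≃ₐ[K] E, (R g *ᵥ fun u => lam i (g (ξ u))) ≠ 0

end

end Pool.Agent.MP_f68ac8_nt.Sv

end

section

/-! Linear algebra of symmetric powers. -/

namespace Pool.Agent.MP_f68ac8_nt.Sv

open Matrix Finset Module Ev Pv

/-- the invariant form -/
def Dm (R : Type) [CommRing R] (n : ℕ) : Mt n R :=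
  Matrix.of fun i j => if (i : ℕ) + j + 1 = n then (-1) ^ (i : ℕ) * ((n - 1).choose i : R) else 0

/-- the symmetric power with coefficients in `k` -/
noncomputable def sy {p : ℕ} (k : Type) [Field k] [Algebra (ZMod p) k] (n : ℕ)
    (A : Mt 2 (ZMod p)) : Mt n k := (symP n A).map (algebraMap (ZMod p) k)

/-- the formal properties of symmetric powers -/
def Sym1Stmt : Prop :=
  ∀ (R : Type) [CommRing R] (n : ℕ), symP n (1 : Mt 2 R) = 1 ∧
    (∀ A B : Mt 2 R, symP n (A * B) = symP n A * symP n B) ∧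
    (∀ (c : R) (A : Mt 2 R), symP n (c • A) = c ^ (n - 1) • symP n A) ∧
    (∀ (R' : Type) [CommRing R'] (f : R →+* R'), (∀ A : Mt 2 R,
      (symP n A).map f = symP n (A.map f)) ∧ (Dm R n).map f = Dm R' n) ∧
    (∀ A : Mt 2 R, A 1 0 = 0 → (symP n A).BlockTriangular id ∧
      (∀ j, symP n A j j = A 0 0 ^ (n - 1 - j) * A 1 1 ^ (j : ℕ)) ∧
      (∀ i j : Fin n, (i : ℕ) + 1 = j →
        symP n A i j = j * (A 0 0 ^ (n - 1 - j) * A 0 1 * A 1 1 ^ (i : ℕ))) ∧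
      (A 0 1 = 0 → ∀ i j, i ≠ j → symP n A i j = 0)) ∧
    (∀ A : Mt 2 R, symP n A * Dm R n * (symP n A)ᵀ = A.det ^ (n - 1) • Dm R n) ∧
    (Dm R n)ᵀ = (-1 : R) ^ (n - 1) • Dm R n ∧
    ((∀ m, 0 < m → m < n → IsUnit (m : R)) → IsUnit (Dm R n))

section
variable (p : ℕ) [hp : Fact p.Prime]

end

end Pool.Agent.MP_f68ac8_nt.Sv

end
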