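import Mathlib
import Pool.Agent.Mg.Fe23604m.G4ee231

set_option linter.all false

section

/-! The modules attached to symmetric powers and their local conditions. -/

namespace Pool.Agent.MP_f68ac8_nt.Sv

open NumberField Matrix Finset Module Ev Pv
open Pool.Agent.MP_14ad9d_nt.Full (Pr ord Tm)
open scoped Pointwise Topology MatrixGroups

section
variable {p : ℕ} [hp : Fact p.Prime] {K : IntermediateField ℚ Qb} (F : IntermediateField ℚ Qb)
  (r : K.fixingSubgroup →* PGL(2, ZMod p)) (η : K.fixingSubgroup →* ℤˣ)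

/-- the sign in the prime field -/
def sg (p : ℕ) (x : ℤˣ) : ZMod p := ((x : ℤ) : ZMod p)

/-- the twisted symmetric power -/
noncomputable def vR (i : ℕ) (g : K.fixingSubgroup) : Mt (2 * i + 1) (ZMod p) :=
  (sg p (η g) * (rep r g).val.det⁻¹) ^ i • symP (2 * i + 1) (rep r g).val

/-- bases in which the decomposition group is triangular -/
def Tri (P : Ideal OQ) (A : GL (Fin 2) (ZMod p)) : Prop :=
  ∀ g : K.fixingSubgroup, g.1 • P = P → repIn r A g 1 0 = 0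

variable (p K) in
/-- vanishing on `p`-th powers -/
def PV {V : Type} [Zero V] (f : GQ → V) : Prop :=
  ∀ g ∈ K.fixingSubgroup, g ^ p ∈ F.fixingSubgroup → f (g ^ p) = 0

/-- the local conditions -/
def AdmP (i : ℕ) (f : GQ → Vc p (2 * i + 1)) : Prop :=
  PV p K F f ∧ ∀ P : Ideal OQ, P.IsMaximal → (p : OQ) ∈ P → ∀ A, Tri r P A →
    ∀ g ∈ F.fixingSubgroup, g • P = P → ∀ j : Fin (2 * i + 1),
      (i < j ∨ i = j ∧ g ∈ P.inertia GQ) → (symP (2 * i + 1) A⁻¹.val *ᵥ f g) j = 0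

/-- the module -/
noncomputable def PM (i : ℕ) : Md p K :=
  ⟨2 * i + 1, vR r η i, AdmP F r i, {P | P.IsMaximal ∧ (p : OQ) ∉ P ∧ WildAt p K F P}⟩

variable (K) in
/-- the decomposition group -/
noncomputable def Dc (P : Ideal OQ) : Subgroup GQ := MulAction.stabilizer GQ P ⊓ K.fixingSubgroup

variable (K) in
/-- the local degree -/
noncomputable def efP (P : Ideal OQ) : ℕ :=
  (P.under (𝓞 K)).ramificationIdx ℤ * (P.under (𝓞 K)).inertiaDeg ℤ

variable (p K) in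
/-- a subgroup of the decomposition group of index prime to `p` -/
structure LocS (P : Ideal OQ) (D' : Subgroup GQ) : Prop where
  le : D' ≤ Dc K P
  cyc : ∀ g ∈ D', cb p g = 1
  ge : ∀ g ∈ F.fixingSubgroup, g • P = P → g ∈ D'
  nrm : ∀ δ ∈ Dc K P, ∀ g ∈ D', δ * g * δ⁻¹ ∈ D'
  idx : ¬ p ∣ D'.relIndex (Dc K P)

/-- a character of the decomposition group -/
structure Chr (P : Ideal OQ) (D' : Subgroup GQ) (φ : K.fixingSubgroup → ZMod p) : Prop where
  mul : ∀ δ δ' : K.fixingSubgroup, δ.1 • P = P → δ'.1 • P = P → φ (δ * δ') = φ δ * φ δ'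
  one : ∀ δ : K.fixingSubgroup, δ.1 ∈ D' → φ δ = 1
  ne : ∃ δ : K.fixingSubgroup, δ.1 • P = P ∧ φ δ ≠ 1
  nc : ∃ δ : K.fixingSubgroup, δ.1 • P = P ∧ φ δ ≠ cb p δ

/-- equivariant additive maps on a subgroup -/
structure HomL (P : Ideal OQ) (H : Subgroup GQ) (φ : K.fixingSubgroup → ZMod p)
    (θ : GQ → ZMod p) : Prop where
  add : ∀ g ∈ H, ∀ h ∈ H, θ (g * h) = θ g + θ h
  nhds : ∀ᶠ g in 𝓝 (1 : GQ), g ∈ H → θ g = 0
  conj : ∀ δ : K.fixingSubgroup, δ.1 • P = P → ∀ g ∈ H, θ (δ * g * δ.1⁻¹) = φ δ * θ g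

/-- the wild part of the residual representation -/
structure LocW (P : Ideal OQ) (D' : Subgroup GQ) (ψ : K.fixingSubgroup → ZMod p)
    (κ : GQ → ZMod p) (u : K.fixingSubgroup) : Prop where
  hom : HomL P D' ψ κ
  ker : ∀ g ∈ D', κ g = 0 ↔ g ∈ F.fixingSubgroup
  mem : u.1 ∈ D'
  ine : u.1 ∈ P.inertia GQ
  ne : κ u ≠ 0
  pow : u.1 ^ p ∈ F.fixingSubgroup

variable (p) in
/-- the field cut out by a normal subgroup -/
structure Cut (N : Subgroup K.fixingSubgroup) (E : IntermediateField K Qb) [NumberField E]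
    (π : K.fixingSubgroup →* (E ≃ₐ[K] E)) : Prop where
  gal : IsGalois K E
  surj : Function.Surjective π
  app : ∀ g (x : E), (π g x : Qb) = g.1 x
  ker : ∀ g, π g = 1 ↔ g ∈ N
  le : ∀ x : E, (x : Qb) ∈ F
  mu : ∀ x : E, x ^ p = 1 → x = 1
  idx : ¬ p ∣ (F.fixingSubgroup.subgroupOf K.fixingSubgroup).relIndex π.ker
  kum : ∀ x : E, x ≠ 0 → (∀ g ∈ F.fixingSubgroup, KK p (x : Qb) g = 0) → ∃ y : E, x = y ^ p
  prime : ∀ P : Ideal OQ, P.IsMaximal → ∃ x : Pr E, x.asIdeal = P.under (𝓞 E) ∧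
    ∀ (P' : Ideal OQ) (x' : Pr E) (g : K.fixingSubgroup), P'.IsMaximal →
      x'.asIdeal = P'.under (𝓞 E) → π g • x = x' → ∃ h, π h = π g ∧ h.1 • P = P'
  up : ∀ x : Pr E, ∃ P : Ideal OQ, P.IsMaximal ∧ x.asIdeal = P.under (𝓞 E)
  smul : ∀ (P : Ideal OQ) (x : Pr E) (g : K.fixingSubgroup), x.asIdeal = P.under (𝓞 E) →
    (π g • x).asIdeal = (g.1 • P).under (𝓞 E)
  ine : ∀ (x : Pr E), ∀ s ∈ x.asIdeal.inertia (E ≃ₐ[K] E), ∃ (P : Ideal OQ)
    (g : K.fixingSubgroup), P.IsMaximal ∧ x.asIdeal = P.under (𝓞 E) ∧ g.1 ∈ P.inertia GQ ∧ π g = s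
  inf : ∀ (φ : Qb →+* ℂ) (s : E ≃ₐ[K] E), s • InfinitePlace.mk (φ.comp (algebraMap E Qb)) =
    InfinitePlace.mk (φ.comp (algebraMap E Qb)) →
    s = 1 ∨ ∃ c : K.fixingSubgroup, IsConj' φ c ∧ π c = s

end

section
variable (p : ℕ) [hp : Fact p.Prime]

/-- the local degree in a subfield of the decomposition field -/
def EfEqStmt : Prop :=
  ∀ (K Z : IntermediateField ℚ Qb) [NumberField K] [NumberField Z] (P : Ideal OQ), K ≤ Z →
    P.IsMaximal → (p : OQ) ∈ P → Dc K P ≤ Z.fixingSubgroup → efP Z P = efP K P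

/-- eigenspaces of local characters -/
def LocHomStmt : Prop :=
  ∀ (K F : IntermediateField ℚ Qb) [NumberField K] [NumberField F], Fb p K F →
    ∀ P : Ideal OQ, P.IsMaximal → (p : OQ) ∈ P → ∀ D', LocS p K F P D' →
    ∀ φ : K.fixingSubgroup → ZMod p, Chr P D' φ → ∀ θ : Fin (efP K P + 1) → GQ → ZMod p,
    (∀ j, HomL P D' φ (θ j)) → ∃ c : _ → ZMod p, c ≠ 0 ∧ ∀ g ∈ D', ∑ j, c j * θ j g = 0

/-- unramified local characters -/
def LocUrStmt : Prop :=
  ∀ (K F : IntermediateField ℚ Qb) [NumberField K] [NumberField F], Fb p K F →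
    ∀ P : Ideal OQ, P.IsMaximal → ∃ s ∈ F.fixingSubgroup, s • P = P ∧
    ∀ (V : Type) [AddCommGroup V] (θ : GQ → V),
      (∀ g ∈ F.fixingSubgroup, ∀ h ∈ F.fixingSubgroup, θ (g * h) = θ g + θ h) →
      (∀ᶠ g in 𝓝 (1 : GQ), g ∈ F.fixingSubgroup → θ g = 0) → (∀ g, Iner F P g → θ g = 0) →
      (∀ δ ∈ Dc K P, ∀ g ∈ F.fixingSubgroup, g • P = P → θ (δ * g * δ⁻¹) = θ g) ∧
      (θ s = 0 → ∀ g ∈ F.fixingSubgroup, g • P = P → θ g = 0)

/-- the field cut out by a normal subgroup -/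
def SetStmt : Prop :=
  ∀ (K F : IntermediateField ℚ Qb) [NumberField K] [NumberField F], Fb p K F →
    ∀ (N : Subgroup K.fixingSubgroup) [N.Normal],
    (∀ g : K.fixingSubgroup, g.1 ∈ F.fixingSubgroup ↔ g ∈ N ∧ cb p g = 1) →
    (∃ g ∈ N, g.1 ∉ F.fixingSubgroup) →
    ∃ (E : IntermediateField K Qb) (_ : NumberField E) (π : K.fixingSubgroup →* (E ≃ₐ[K] E)),
      Cut p F N E π

/-- the basic properties -/
def BaseStmt : Prop :=
  ∀ (K F : IntermediateField ℚ Qb) [NumberField K] [NumberField F]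
    (r : K.fixingSubgroup →* PGL(2, ZMod p)) η γ n, K ≤ F → PolRes F r η γ n →
    Fb p K F ∧ (∀ g : K.fixingSubgroup,
      g.1 ∈ F.fixingSubgroup ↔ η g = 1 ∧ r g = 1 ∧ cb p g = 1) ∧
    (∀ A : GL (Fin 2) (ZMod p), A.val.det = 1 →
      ∃ g c, η g = 1 ∧ c ≠ 0 ∧ (rep r g).val = c • A.val) ∧
    (∀ A g h, ∃ c, c ≠ 0 ∧ repIn r A (g * h) = c • (repIn r A g * repIn r A h)) ∧
    (∀ A g, r g = 1 ↔ ∃ c : ZMod p, repIn r A g = c • 1) ∧ ∀ i, Mr (PM F r η i) F ∧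
      ∀ (A : GL (Fin 2) (ZMod p)) g,
        symP (2 * i + 1) A⁻¹.val * vR r η i g * symP (2 * i + 1) A.val =
          (sg p (η g) * (repIn r A g).det⁻¹) ^ i • symP (2 * i + 1) (repIn r A g)

end

end Pool.Agent.MP_f68ac8_nt.Sv

end

section

/-! The leading term of a lift that is not conjugate self-dual. -/

namespace Pool.Agent.MP_f68ac8_nt.Sv

open NumberField Matrix Finset Module Ev Pv IsLocalRing
open scoped Pointwise Topology MatrixGroups

section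
variable {p : ℕ} [hp : Fact p.Prime] {K : IntermediateField ℚ Qb} (F : IntermediateField ℚ Qb)
  (r : K.fixingSubgroup →* PGL(2, ZMod p)) (η : K.fixingSubgroup →* ℤˣ) (γ : K.fixingSubgroup)
  (n : ℕ)

/-- the adjoint action of the symmetric power -/
noncomputable def adS {k : Type} [Field k] [Algebra (ZMod p) k] {n : ℕ}
    (A : GL (Fin 2) (ZMod p)) (X : Mt n k) : Mt n k := sy k n A.val * X * sy k n A⁻¹.val

/-- the ordinary condition on a leading term -/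
def OrdZ {k : Type} [Field k] [Algebra (ZMod p) k] {n : ℕ} (z : GQ → Mt n k) : Prop :=
  ∀ P : Ideal OQ, P.IsMaximal → (p : OQ) ∈ P → ∀ A, Tri r P A → ∀ g ∈ F.fixingSubgroup,
    g • P = P → (adS A⁻¹ (z g)).BlockTriangular id ∧
      (g ∈ P.inertia GQ → ∀ a, adS A⁻¹ (z g) a a = 0)

/-- the level raising condition on a leading term -/
def StZ (S : Set (Ideal (𝓞 K))) {V : Type} [Zero V] (z : GQ → V) : Prop :=
  ∀ c : Co, c.Ok p K F → (∃ h, PolTyp r η n ⟨c.σ, h⟩) → c.P.under (𝓞 K) ∈ S → z (c.σ ^ c.m) = 0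

/-- leading terms -/
structure LeadD (S : Set (Ideal (𝓞 K))) {k : Type} [Field k] [Algebra (ZMod p) k]
    (z : GQ → Mt n k) : Prop where
  add : ∀ g ∈ F.fixingSubgroup, ∀ h ∈ F.fixingSubgroup, z (g * h) = z g + z h
  conj : ∀ g : K.fixingSubgroup, η g = 1 → ∀ h ∈ F.fixingSubgroup,
    z (g * h * g.1⁻¹) = adS (rep r g) (z h)
  nhds : ∀ᶠ g in 𝓝 (1 : GQ), g ∈ F.fixingSubgroup → z g = 0
  tr : ∀ h ∈ F.fixingSubgroup, (z h).trace = 0
  unr : ∀ P g, Iner F P g → ¬ WildAt p K F P → P.under (𝓞 K) ∉ S → z g = 0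
  gam : ∀ h ∈ F.fixingSubgroup, z (γ * h * γ.1⁻¹) * Dm k n = Dm k n * (z h)ᵀ
  ne : ∃ h ∈ F.fixingSubgroup, z h ≠ 0
  pv : PV p K F z
  ord : OrdZ F r z
  st : StZ F r η n S z

/-- a lift together with the comparison with its conjugate dual -/
structure Lf (O : Type) [CommRing O] where
  ρ : η.ker →* GL (Fin n) O
  E : GL (Fin n) O
  τ : O
  s : η.ker → O
  Z : η.ker → Mt n O

variable {η n} {O k : Type} [CommRing O] [Field k] (π : O →+* k)

/-- the leading term -/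
noncomputable def Lf.z (L : Lf η n O) : GQ → Mt n k :=
  Function.extend (fun g : η.ker => g.1.1) (fun g => (L.Z g).map π) 0

lemma Lf.z_apply (L : Lf η n O) (g : η.ker) : L.z π g.1.1 = (L.Z g).map π :=
  (Subtype.val_injective.comp Subtype.val_injective).extend_apply _ _ g

/-- residue maps -/
structure Rs [IsLocalRing O] : Prop where
  surj : Function.Surjective π
  ker : ∀ x, π x = 0 ↔ x ∈ maximalIdeal O

/-- the properties of the comparison -/
structure Lv [IsLocalRing O] [Algebra (ZMod p) k] (L : Lf η n O) : Prop extends Rs π where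
  ne0 : L.τ ≠ 0
  mem : π L.τ = 0
  eq : ∀ g, L.s g • (L.E.val * (L.ρ (MulAut.conjNormal γ g))⁻¹.valᵀ * L.E⁻¹.val) =
    (1 + L.τ • L.Z g) * (L.ρ g).val
  det : ∀ g, (1 + L.τ • L.Z g).det = 1
  red : ∃ c : k, c ≠ 0 ∧ L.E.val.map π = c • Dm k n
  res : ∀ g, ∃ c : k, c ≠ 0 ∧ (L.ρ g).val.map π = c • sy k n (rep r g).val
  coc : ∀ g h, (L.Z (g * h)).map π = (L.Z g).map π + adS (rep r g) ((L.Z h).map π)
  nhds : ∀ᶠ g in 𝓝 1, (L.Z g).map π = 0
  tr : ∀ g, ((L.Z g).map π).trace = 0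
  ne : ¬ ∃ W : Mt n k, ∀ g, (L.Z g).map π = W - adS (rep r g) W

end

section
variable (p : ℕ) [hp : Fact p.Prime]

/-- statements about all lifts with their leading terms -/
def AllLv (Q : ∀ (K F : IntermediateField ℚ Qb) (_ : K.fixingSubgroup →* PGL(2, ZMod p))
    (_ : K.fixingSubgroup →* ℤˣ) (_ : K.fixingSubgroup) (n : ℕ) (_ : Set (Ideal (𝓞 K)))
    (k : Type) [Field k] [Algebra (ZMod p) k], (GQ → Mt n k) → Prop) : Prop :=
  ∀ (K F : IntermediateField ℚ Qb) [NumberField K] [NumberField F]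
    (r : K.fixingSubgroup →* PGL(2, ZMod p)) η γ n, K ≤ F → PolRes F r η γ n →
    ∀ (S : Set (Ideal (𝓞 K))) (O : Type) [CommRing O] [IsDomain O] [IsDiscreteValuationRing O]
    (k : Type) [Field k] [Algebra (ZMod p) k] (π : O →+* k) (L : Lf η n O),
    PolLoc F r η γ n S L.ρ → Lv r γ π L → Q K F r η γ n S k (L.z π)

/-- the first properties of the leading term -/
def BasStmt : Prop :=
  AllLv p fun K F r η _ _ S _ _ _ z =>
    (∀ g ∈ F.fixingSubgroup, ∀ h ∈ F.fixingSubgroup, z (g * h) = z g + z h) ∧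
    (∀ g : K.fixingSubgroup, η g = 1 → ∀ h ∈ F.fixingSubgroup,
      z (g * h * g.1⁻¹) = adS (rep r g) (z h)) ∧
    (∀ᶠ g in 𝓝 (1 : GQ), g ∈ F.fixingSubgroup → z g = 0) ∧
    (∀ h ∈ F.fixingSubgroup, (z h).trace = 0) ∧
    ∀ P g, Iner F P g → ¬ WildAt p K F P → P.under (𝓞 K) ∉ S → z g = 0

end

end Pool.Agent.MP_f68ac8_nt.Sv

end
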