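import Mathlib
import Pool.Agent.Mg.Fe23604m.Gec6cb6

set_option linter.all false

/-! Selmer groups with an extra parameter. -/

namespace Pool.Agent.MP_f68ac8_nt.Sv

open NumberField Matrix Finset Module Ev Pv
open Qv (Stab rF Qt Orb)
open Pool.Agent.MP_14ad9d_nt.Full (Pr ord Tm tame Phi)
open scoped Pointwise Topology MatrixGroups

section
variable {p : ℕ} [hp : Fact p.Prime] {K : IntermediateField ℚ Qb}

/-- local conditions with an extra parameter -/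
structure Mu (D : Md p K) where
  Ad : (GQ → Vc p D.d) → ZMod p → Prop
  l : GQ → ZMod p
  Y : Subgroup GQ → Vc p D.d

variable {D : Md p K} (U : Mu D) (F : IntermediateField ℚ Qb)

/-- the linear form attached to a Frobenius element -/
noncomputable def Mu.Ys (σ : GQ) : Vc p D.d := U.Y (Subgroup.zpowers σ ⊔ F.fixingSubgroup)

/-- the hypotheses on the local conditions -/
structure Mub : Prop extends Mb D F where
  nt : ∃ g, D.R g ≠ 1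
  zero' : U.Ad 0 0
  lin' : ∀ (a : ZMod p) f u f' u', U.Ad f u → U.Ad f' u' → U.Ad (a • f + f') (a * u + u')
  adm : ∀ f, U.Ad f 0 → D.Adm f
  ladd : ∀ g ∈ F.fixingSubgroup, ∀ h ∈ F.fixingSubgroup, U.l (g * h) = U.l g + U.l h
  lnhds : ∀ᶠ g in 𝓝 (1 : GQ), g ∈ F.fixingSubgroup → U.l g = 0
  lconj : ∀ g : K.fixingSubgroup, ∀ h ∈ F.fixingSubgroup, U.l (g * h * g.1⁻¹) = U.l h
  nz : ∀ u, U.Ad 0 u → u ≠ 0 → ∃ g ∈ F.fixingSubgroup, U.l g ≠ 0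
  bdr : ∀ P ∈ D.Bd, ¬ P.inertia GQ ≤ F.fixingSubgroup

variable (D) in
/-- the Selmer group without condition at the auxiliary primes -/
structure Sel0 {J : Type} (c : J → Co) (f : GQ → Vc p D.d) : Prop where
  tang : Tg D F f
  adm : D.Adm f
  unr : ∀ P g, Iner F P g → (p : OQ) ∉ P → (∀ j, ∀ s ∈ K.fixingSubgroup, P ≠ s • (c j).P) →
    f g = 0
  out : ∀ g, g ∉ F.fixingSubgroup → f g = 0

/-- the Selmer group of pairs -/
structure Sel2 {J : Type} (c : J → Co) (x : (GQ → Vc p D.d) × ZMod p) : Prop where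
  tang : Tg D F x.1
  ad : U.Ad x.1 x.2
  unr : ∀ P g, Iner F P g → (p : OQ) ∉ P → P ∉ D.Bd →
    (∀ j, ∀ s ∈ K.fixingSubgroup, P ≠ s • (c j).P) → x.1 g = 0
  st : ∀ j, U.Ys F (c j).σ ⬝ᵥ x.1 ((c j).σ ^ (c j).m) = x.2 * U.l ((c j).σ ^ (c j).m)
  out : ∀ g, g ∉ F.fixingSubgroup → x.1 g = 0

variable (D) {F} [NumberField F]

/-- dual classes whose ramification at the auxiliary primes is along the vectors `Y j` -/
structure Dual2 (h : Stab K F) {J : Type} (c : J → Co) (Y : J → Vc p D.d) (ξ : Fin D.d → F) :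
    Prop where
  ne : ∀ i, ξ i ≠ 0
  pair : ∀ ψ, EqP D h ψ → (∀ w, ¬ Tm p w → ψ w = 0) → (∀ P ∈ D.Bd, ∀ w ∈ Orb K P, ψ w = 0) →
    (∀ j (w : Pr F), w.asIdeal = (c j).P.under (𝓞 F) → Y j ⬝ᵥ ψ w = 0) → pairP ψ ξ = 0

/-- existence of dual classes -/
def DualEx2 (h : Stab K F) (N : ℕ) : Prop :=
  ∀ (J : Type) [Fintype J] (c : J → Co) (Y : J → Vc p D.d), (∀ j, (c j).Ok p K F) →
    (Function.Injective fun j => (c j).l) →
    (∀ j, Y j ≠ 0 ∧ ∀ s : K.fixingSubgroup, s.1 = (c j).σ → Y j ᵥ* D.R s = Y j) →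
    ∀ (ι : Type) [Fintype ι] (L : (Fin D.d → F) → ι → ZMod p), AddV L →
    Fintype.card ι < N + Fintype.card J →
    ∃ ξ, Dual2 D h c Y ξ ∧ L ξ = 0 ∧ ∃ g ∈ F.fixingSubgroup, Th D F ξ g ≠ 0

end

section
variable {p : ℕ} [hp : Fact p.Prime] {K E : Type} [Field K] [NumberField K] [Field E]
  [NumberField E] [Algebra K E] [Fintype (E ≃ₐ[K] E)] {d : ℕ}

/-- the lower bound for the space of norms of units -/
def AlgH (R : (E ≃ₐ[K] E) →* Mt d (ZMod p)) (W : SubMulAction (E ≃ₐ[K] E) (Pr E)) : Prop :=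
  ∃ T : SubMulAction (E ≃ₐ[K] E) (Pr E), (T : Set (Pr E)).Finite ∧ (∀ w ∈ W, w ∈ T) ∧
    (∀ w ∈ T, w ∉ W → ∀ g : E ≃ₐ[K] E, g • w = w → g = 1) ∧
    finrank (ZMod p)
        ((perm (E ≃ₐ[K] E) (ZMod p) (InfinitePlace E ⊕ T)).tprod (mRep R)).invariants ≤
      finrank (ZMod p) (LinearMap.range (∑ g, (red p (uRep T)).tprod (mRep R) g))

end

section
variable {p : ℕ} [hp : Fact p.Prime] {K : IntermediateField ℚ Qb} (D : Md p K)
  (F : IntermediateField ℚ Qb)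

/-- the lower bound for the field cut out by `N` -/
def AlgN (N : Subgroup K.fixingSubgroup) : Prop :=
  ∀ (E : IntermediateField K Qb) [NumberField K] [NumberField E] [Fintype (E ≃ₐ[K] E)]
    (π : K.fixingSubgroup →* (E ≃ₐ[K] E)), Cut p F N E π →
    ∀ R : (E ≃ₐ[K] E) →* Mt D.d (ZMod p), (∀ g, R (π g) = D.dl g) →
    ∀ W : SubMulAction (E ≃ₐ[K] E) (Pr E), (W : Set (Pr E)).Finite →
    (∀ (P : Ideal OQ) (x : Pr E), P.IsMaximal → x.asIdeal = P.under (𝓞 E) →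
      (p : OQ) ∈ P ∨ P ∈ D.Bd → x ∈ W) →
    (∀ x ∈ W, ∃ P : Ideal OQ, P.IsMaximal ∧ x.asIdeal = P.under (𝓞 E) ∧ ((p : OQ) ∈ P ∨
      P ∈ D.Bd ∨ ∀ g : K.fixingSubgroup, g.1 • P = P → Tame p F g)) → AlgH R W

/-- invariant subspaces at the infinite places -/
structure ArchD (φ : InfinitePlace K → Qb →+* ℂ)
    (V : InfinitePlace K → Submodule (ZMod p) (Vc p D.d)) : Prop where
  mk_eq : ∀ v, InfinitePlace.mk ((φ v).comp (algebraMap K Qb)) = v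
  fix : ∀ v (c : K.fixingSubgroup), IsConj' (φ v) c → ∀ Y ∈ V v, D.dl c *ᵥ Y = Y

/-- invariant subspaces at primes above `p` -/
structure PadD {J : Type} (Q : J → Ideal OQ) (V : J → Submodule (ZMod p) (Vc p D.d)) : Prop where
  max : ∀ j, (Q j).IsMaximal ∧ (p : OQ) ∈ Q j
  inj : ∀ i j (g : K.fixingSubgroup), g.1 • Q i = Q j → i = j
  fix : ∀ j (g : K.fixingSubgroup), g.1 • Q j = Q j → ∀ Y ∈ V j, D.dl g *ᵥ Y = Y

end

section
variable (p : ℕ) [hp : Fact p.Prime]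

/-- the linear relation -/
def Sum2Stmt : Prop :=
  ∀ (K F : IntermediateField ℚ Qb) [NumberField K] [NumberField F] (D : Md p K) (hB : Fb p K F),
    Mb D F → (∀ P ∈ D.Bd, ¬ P.inertia GQ ≤ F.fixingSubgroup) →
    ∀ (J : Type) [Fintype J] (c : J → Co), (∀ j, (c j).Ok p K F) →
    (Function.Injective fun j => (c j).l) → ∀ f, Sel0 D F c f → ∀ β : Fin D.d → F,
    (∀ i, β i ≠ 0) → (∀ g ∈ F.fixingSubgroup, ∀ i, KK p (β i : Qb) g = f g i) →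
    ∀ (J' : Type) (e : J' → J) (Y : J' → Vc p D.d) (ξ : Fin D.d → F),
    (∀ j, Y j ⬝ᵥ f ((c (e j)).σ ^ (c (e j)).m) = 0) →
    Dual2 D hB.stab (fun j => c (e j)) Y ξ →
    ∑ j, ((c j).m : ZMod p)⁻¹ * (Th D F ξ ((c j).σ ^ (c j).m) ⬝ᵥ f (c j).τ) =
      PhiV p (⟨xi p, hB.xi⟩ : F) ξ β

/-- finiteness -/
def Fin0Stmt : Prop :=
  ∀ (K F : IntermediateField ℚ Qb) [NumberField K] [NumberField F] (D : Md p K), Fb p K F →
    ∀ (J : Type) [Finite J] (c : J → Co), (∀ j, (c j).Ok p K F) → {f | Sel0 D F c f}.Finite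

/-- independence of three kinds of characters -/
def Nz3Stmt : Prop :=
  ∀ (K F : IntermediateField ℚ Qb) [NumberField K] [NumberField F] (D : Md p K), Fb p K F →
    Mb D F → (∃ g, D.R g ≠ 1) → ∀ (Ψ f : GQ → Vc p D.d) (l : GQ → ZMod p) (X Y : Vc p D.d),
    (∀ t : K.fixingSubgroup, ∀ g ∈ F.fixingSubgroup,
      Ψ (t * g * (t : GQ)⁻¹) = cb p t • D.dl t *ᵥ Ψ g) → Tg D F f →
    (∀ t : K.fixingSubgroup, ∀ g ∈ F.fixingSubgroup, l (t * g * (t : GQ)⁻¹) = l g) →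
    (∀ g ∈ F.fixingSubgroup, Y ⬝ᵥ f g + l g + Ψ g ⬝ᵥ X = 0) →
    ∀ g ∈ F.fixingSubgroup, Y ⬝ᵥ f g = 0 ∧ l g = 0 ∧ Ψ g ⬝ᵥ X = 0

/-- a nonzero norm with prescribed linear conditions -/
def MatGStmt : Prop :=
  ∀ (K E : Type) [Field K] [NumberField K] [Field E] [NumberField E] [Algebra K E] [IsGalois K E]
    [Fintype (E ≃ₐ[K] E)] (d : ℕ) (R : (E ≃ₐ[K] E) →* Mt d (ZMod p)),
    (∀ x : E, x ^ p = 1 → x = 1) → ∀ W : SubMulAction (E ≃ₐ[K] E) (Pr E), AlgH R W →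
    ∀ (J J' : Type) [Fintype J] [Fintype J'] (x : J ⊕ J' → Pr E) (Y : J → Vc p d)
    (V : J' → Submodule (ZMod p) (Vc p d)), (∀ j, x j ∈ W) →
    (∀ i j (g : E ≃ₐ[K] E), g • x i = x j → i = j) →
    (∀ j, Y j ≠ 0 ∧ ¬ p ∣ Nat.card (MulAction.stabilizer (E ≃ₐ[K] E) (x (.inl j))) ∧
      ∀ g : E ≃ₐ[K] E, g • x (.inl j) = x (.inl j) → R g *ᵥ Y j = Y j) →
    (∀ j (g : E ≃ₐ[K] E), g • x (.inr j) = x (.inr j) → ∀ Z ∈ V j, R g *ᵥ Z = Z) →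
    ∀ (y : InfinitePlace K → InfinitePlace E)
    (U : InfinitePlace K → Submodule (ZMod p) (Vc p d)),
    (∀ v, (y v).comap (algebraMap K E) = v) →
    (∀ v (g : E ≃ₐ[K] E), g • y v = y v → ∀ Z ∈ U v, R g *ᵥ Z = Z) →
    ∀ (ι : Type) [Fintype ι] (L : (Fin d → E) → ι → ZMod p), AddV L →
    Fintype.card ι < ∑ v, finrank (ZMod p) (U v) + ∑ j, finrank (ZMod p) (V j) + Fintype.card J →
    ∃ ξ : Fin d → E, (∀ i, ξ i ≠ 0) ∧
      (∀ ψ : Pr E → Vc p d, (∀ (g : E ≃ₐ[K] E) w, ψ (g • w) = (R g⁻¹)ᵀ *ᵥ ψ w) →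
        (∀ w ∈ W, (∀ j (g : E ≃ₐ[K] E), w ≠ g • x (.inl j)) → ψ w = 0) →
        (∀ j, Y j ⬝ᵥ ψ (x (.inl j)) = 0) → pairP ψ ξ = 0) ∧ L ξ = 0 ∧
      ∀ (κ : Type) (lam : κ → E → ZMod p),
        (∀ i x y, x ≠ 0 → y ≠ 0 → lam i (x * y) = lam i x + lam i y) →
        (∀ x, x ≠ 0 → (∀ i, lam i x = 0) → ∃ y, x = y ^ p) →
        ∃ i, ∑ g : E ≃ₐ[K] E, (R g *ᵥ fun u => lam i (g (ξ u))) ≠ 0

/-- descent of equivariant functions on primes, with control at single primes -/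
def Down2Stmt : Prop :=
  ∀ (E F G : Type) [Field E] [NumberField E] [Field F] [NumberField F] (ι : E →+* F)
    (a : G → E ≃+* E) (b : G → F ≃+* F) (d : ℕ) (R : G → Mt d (ZMod p)),
    (∀ g x, ι (a g x) = b g (ι x)) → ∀ ψ : Pr F → Vc p d,
    (∀ g w, ψ (Pool.Agent.MP_14ad9d_nt.Full.act (b g) w) = R g *ᵥ ψ w) →
    ∃ ψ' : Pr E → Vc p d,
      (∀ g x, ψ' (Pool.Agent.MP_14ad9d_nt.Full.act (a g) x) = R g *ᵥ ψ' x) ∧
      (∀ (x : Pr E) (Y : Vc p d),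
        (∀ w : Pr F, w.asIdeal.comap (RingOfIntegers.mapRingHom ι) = x.asIdeal →
          Y ⬝ᵥ ψ w = 0) → Y ⬝ᵥ ψ' x = 0) ∧
      ∀ ξ : Fin d → E, (∀ i, ξ i ≠ 0) → pairP ψ (fun i => ι (ξ i)) = pairP ψ' ξ

/-- existence of dual classes -/
def DualGStmt : Prop :=
  ∀ (K F : IntermediateField ℚ Qb) [NumberField K] [NumberField F] (D : Md p K) (hB : Fb p K F),
    Mr D F → (∀ P ∈ D.Bd, P.IsMaximal ∧ ¬ P.inertia GQ ≤ F.fixingSubgroup ∧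
      ∀ g : K.fixingSubgroup, g.1 • P ∈ D.Bd) →
    ∀ (N : Subgroup K.fixingSubgroup) [N.Normal],
    (∀ g : K.fixingSubgroup, g.1 ∈ F.fixingSubgroup ↔ g ∈ N ∧ cb p g = 1) →
    (∃ g ∈ N, g.1 ∉ F.fixingSubgroup) → (∀ g ∈ N, D.R g = 1) → AlgN D F N →
    ∀ φ U, ArchD D φ U → ∀ (J : Type) [Fintype J] (Q : J → Ideal OQ) V, PadD D Q V →
    DualEx2 D hB.stab (∑ v, finrank (ZMod p) (U v) + ∑ j, finrank (ZMod p) (V j))

/-- the lower bound for groups of order prime to `p` -/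
def AlgTStmt : Prop :=
  ∀ (K F : IntermediateField ℚ Qb) [NumberField K] [NumberField F] (D : Md p K), Fb p K F →
    Mb D F → (∃ g, D.R g ≠ 1) → (∀ g : K.fixingSubgroup, Tame p F g) →
    ∀ N : Subgroup K.fixingSubgroup, (∀ g : K.fixingSubgroup, g.1 ∈ F.fixingSubgroup → g ∈ N) →
    AlgN D F N

end

end Pool.Agent.MP_f68ac8_nt.Sv
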