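import Mathlib
import Pool.Agent.Mg.Fe23604m.Gece136
import Pool.Agent.Mg.Fe23604m.G6ee7f6

set_option linter.all false

/-! Consequences of the Hodge-Tate condition. -/

namespace Pool.Agent.MP_f68ac8_nt

open Matrix PadicInt
open scoped Topology

section
variable {K L : Type} [Field K] [Field L] [CharZero K] [CharZero L] (φ : K →+* L)

end

variable {p : ℕ} [hp : Fact p.Prime]

section
variable {K : Type} [NormedField K] [IsUltrametricDist K] [IsAlgClosed K] [CharZero K]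
  {G : Type} [Group G] [MulSemiringAction G K]

end

variable {Ω : Type} [Field Ω] [CharZero Ω] [IsAlgClosure ℚ Ω]

variable (p) in
/-- powers of the principal part of the cyclotomic character -/
noncomputable def ea (a : ℤ) : (Ω ≃ₐ[ℚ] Ω) →* ℚ_[p] :=
  (algebraMap ℤ_[p] ℚ_[p]).toMonoidHom.comp ((Units.coeHom _).comp
    (eps.comp ((zpowGroupHom a).comp (chi p))))

variable (ι : Ω →+* ℂ_[p])

/-- Hodge-Tate vectors, with the finite order part of the character removed -/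
def HT' (ρ : (Ω ≃ₐ[ℚ] Ω) →* M2 ℚ_[p]) (a : ℤ) (v : Fin 2 → ℂ_[p]) : Prop :=
  ∀ g : GC p, (ρ (resC ι g)).map (algebraMap ℚ_[p] ℂ_[p]) *ᵥ (fun i => g • v i) =
    algebraMap ℚ_[p] ℂ_[p] (ea p a (resC ι g)) • v

variable {ι} {ρ : (Ω ≃ₐ[ℚ] Ω) →* M2 ℚ_[p]} {a b : ℤ} {v w : Fin 2 → ℂ_[p]}

lemma HT'.conj (h : HT' ι ρ a v) {A A' : M2 ℚ_[p]} (a1 : A * A' = 1) (a2 : A' * A = 1) :
    HT' ι (conjRep ρ a1 a2) a (A'.map (algebraMap ℚ_[p] ℂ_[p]) *ᵥ v) := by
  intro g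
  have e1 : (fun i => g • (A'.map (algebraMap ℚ_[p] ℂ_[p]) *ᵥ v) i) =
      A'.map (algebraMap ℚ_[p] ℂ_[p]) *ᵥ fun i => g • v i := by
    ext i
    simp only [mulVec, dotProduct, Finset.smul_sum, smul_mul', map_apply, GC.fix]
  rw [e1, ← mulVec_smul, ← h g, mulVec_mulVec, mulVec_mulVec, ← Matrix.map_mul, ← Matrix.map_mul]
  change Matrix.map (A' * ρ _ * A * A') _ *ᵥ _ = _
  rw [mul_assoc, a1, mul_one]

end Pool.Agent.MP_f68ac8_nt
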