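import Mathlib
import Pool.Agent.Mg.Fe23604m.Ge12da9
import Pool.Agent.MP_f68ac8_nt.GvDefs
import Pool.Agent.Mg.Fe23604m.G2d7081
import Pool.Agent.Mg.Fe23604m.Gdb5dfc

set_option linter.all false

section

/-! Auxiliary statements for Hodge-Tate lifts: algebraic part. -/

namespace Pool.Agent.MP_f68ac8_nt.Ev

open Matrix MvPolynomial Finset

/-- variables of the adversary: scalars, named functionals and named operators -/
abbrev Bw (n : ℕ) : Type := (ℕ × ℕ × ℕ) × Option (Ix n) × Option (Ix n)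

/-- witnesses -/
structure Wit (n m₁ m₂ : ℕ) (R : Type) where
  X : ℕ → Mt n R
  V : ℕ → Ix n → ℤ → Mt n R
  Q : ℕ → Fin 4 → Ix n → Ix n → R
  c : ℕ → Ix n → ℕ → Fin m₁ → R
  ρ : ℕ → Ix n → ℕ → R
  q : ℕ → ℕ → Mt n R
  γ : ℕ → ℕ → Fin m₂ → R

section sol
variable {n m₁ m₂ : ℕ} {R : Type} [CommRing R]

/-- a named operator -/
def opw (y : Bw n → R) (κ : ℕ × ℕ × ℕ) (X : Mt n R) : Mt n R :=
  ap (fun a c => y (κ, some a, some c)) X

/-- a named functional -/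
def fnw (y : Bw n → R) (κ : ℕ × ℕ × ℕ) (X : Mt n R) : R :=
  ∑ c : Ix n, y (κ, none, some c) * X c.1 c.2

/-- the operator in row `j` and column `i` -/
def colW (d : ℕ) (x : ∀ i, Rn m₁ m₂ i → R) (y : ℕ → Bw n → R) (j i : ℕ) (X : Mt n R) : Mt n R :=
  if h : j < i ∧ i < d then
    opw (y 0) (1, j, 0) (∑ s : Fin m₁, x i (.inl (⟨j, h.1⟩, s)) • opw (y 0) (2, s, 0) X)
  else opw (y (j + 1)) (3, i, 0) X

/-- a solution with certificates -/
structure SolX (d m c B : ℕ) (x : ∀ i, Rn m₁ m₂ i → R) (y : ℕ → Bw n → R) (w : Wit n m₁ m₂ R) :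
    Prop where
  nil : ∀ j < d, w.X j ^ n = 0
  tr : ∀ j ∈ Ico d (d + m), (w.X j).trace = 0
  dec : ∀ j ∈ Ico d (d + m), ∀ e : Ix n,
    (single e.1 e.2 1 : Mt n R) = ∑ l ∈ Icc (-B : ℤ) B, w.V j e l
  eig : ∀ j ∈ Ico d (d + m), ∀ e l, brk (w.V j e l) (w.X j) = (l : R) • w.V j e l
  self : ∀ j < d + m, opw (y 0) (0, j, 0) (w.X j) = w.X j
  ann : ∀ j < d + m, ∀ e : Ix n, ap (w.Q j 0) (brk (single e.1 e.2 1) (w.X j)) = 0
  cert : ∀ j < d + m, ∀ e : Ix n, ∀ i < d + m, ∑ a ∈ range c, w.ρ j e a • w.q a i =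
    if i = j then single e.1 e.2 1 - ap (w.Q j 1) (brk (opw (y 0) (1, j, 0)
      (∑ l ∈ Ico (j + 1) d, ∑ s : Fin m₁, w.c j e l s • opw (y 0) (2, s, 0) (w.X l))) (w.X j)) -
      ap (w.Q j 2) (single e.1 e.2 1 - opw (y 0) (0, j, 0) (single e.1 e.2 1)) -
      ap (w.Q j 3) (ap (w.Q j 0) (single e.1 e.2 1)) else 0
  br : ∀ j < d, brk (∑ i ∈ range (d + m), colW d x y j i (w.X i)) (w.X j) =
    y (j + 1) (0, none, none) • w.X j
  un : ∀ e ≤ c, ∑ i ∈ range d, ∑ s : Fin m₂, x i (.inr s) * fnw (y 0) (0, s, e) (w.X i) +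
    ∑ i ∈ Ico d (d + m), fnw (y 0) (1, i, e) (w.X i) = 0
  rk : ∀ e ≤ c, ∀ e' ≤ c, ∑ i ∈ range d, ∑ s : Fin m₂, w.γ e i s * fnw (y 0) (0, s, e') (w.X i) =
    if e = e' then 1 else 0

end sol

/-- solvability -/
def SolG (n m₁ m₂ d m c B : ℕ) (R : Type) [CommRing R] (x : ∀ i, Rn m₁ m₂ i → R)
    (y : ℕ → Bw n → R) : Prop := ∃ w, SolX d m c B x y w

/-- the local tangent space -/
def EigStmt : Prop :=
  ∀ (k Δ : Type) [Field k] [Group Δ] [Fintype Δ] (n : ℕ) (Ad : Representation k Δ (Mt n k)),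
    AdData Ad → (Fintype.card Δ : k) ≠ 0 → (n : k) ≠ 0 → ∀ (δ : Δ) (a : k), a ≠ 0 →
    ∃ π : Mt n k →ₗ[k] Mt n k, ∀ X, Ad δ X = a • X → π X = X ∧ ∀ Z, π (adM X Z) = adM X Z →
      adM X Z ∈ (LinearMap.eqLocus (Ad δ) LinearMap.id).map (adM X) ∧
        ∃ Z', Z'.trace = 0 ∧ adM X Z = adM X (av Ad δ Z')

/-- many independent relations come from the units -/
def RankW {k Δ V A : Type} [Field k] [Group Δ] [Fintype Δ] [AddCommGroup V] [Module k V]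
    [Fintype A] [DecidableEq A] (Ad : Representation k Δ V) (μ : Δ →* Matrix A A ℤ)
    (W : Submodule k V) (c : ℕ) : Prop :=
  ∃ (u : ℕ → A → k) (l : ℕ → V →ₗ[k] k), ∀ X, W ≤ Submodule.span k (Set.range fun γ => Ad γ X) →
    ∀ e ≤ c, ∃ κ : A → k, ∀ e' ≤ c,
      l e' (∑ γ, (κ ⬝ᵥ ((μ γ⁻¹).map (Int.cast : ℤ → k) *ᵥ u e')) • Ad γ X) =
        if e = e' then 1 else 0

/-- the condition at a place above `p` -/
structure Wild {k : Type} [Field k] {n : ℕ} (B c : ℕ) (X : Mt n k) : Prop where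
  tr : X.trace = 0
  dec : ∀ Z, ∃ V : ℤ → Mt n k, Z = ∑ l ∈ Icc (-B : ℤ) B, V l ∧ ∀ l, brk (V l) X = (l : k) • V l
  rk : Module.finrank k (LinearMap.range (adM X)) ≤ c

/-- the data of a row that the adversary chooses -/
abbrev Ow (n : ℕ) (k : Type) [Field k] : Type := k × (ℕ → Mt n k →ₗ[k] Mt n k)

/-- the relations with a given solution -/
structure St.RelW {p : ℕ} {k Δ A : Type} [Field k] [Algebra (ZMod p) k] [Group Δ] [Fintype Δ]
    [Fintype A] [DecidableEq A] {n : ℕ} (Ad : Representation k Δ (Mt n k))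
    (μ : Δ →* Matrix A A ℤ) (d m B : ℕ) (w : ℕ → ℕ) (δ : ℕ → Δ) (a : ℕ → ZMod p)
    (u : A → ℕ → Mt n k →ₗ[k] Mt n k) (s : St p (Ow n k) Δ A) (b : ℕ → Bool)
    (X X' Y : ℕ → Mt n k) : Prop where
  nil : ∀ j < d, X j ^ n = 0
  ne : ∃ j < d, X j ≠ 0
  eig : ∀ j < d, Ad (δ j) (X j) = algebraMap (ZMod p) k (a j) • X j
  wild : ∀ x < m, Wild B (w x) (X' x)
  lin : ∀ j < d, Y j = ∑ i ∈ range d, ∑ γ, algebraMap (ZMod p) k (s.ν j i γ) • Ad γ (X i) +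
    ∑ x ∈ range m, (s.c j).2 x (X' x)
  br : ∀ j < d, Y j * X j - X j * Y j = (if b j then (s.c j).1 else 0) • X j
  un : ∀ e, ∑ i ∈ range d, ∑ γ,
    algebraMap (ZMod p) k (∑ e', μ γ⁻¹ e' e * s.κ i e') • Ad γ (X i) +
      ∑ x ∈ range m, u e x (X' x) = 0

/-- the hypotheses of the algebraic part -/
structure HypW {p : ℕ} {k Δ A : Type} [Field k] [Algebra (ZMod p) k] [Group Δ] [Fintype Δ]
    [Fintype A] [DecidableEq A] {n : ℕ} (Ad : Representation k Δ (Mt n k))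
    (μ : Δ →* Matrix A A ℤ) (d m c : ℕ) (w : ℕ → ℕ) (δ : ℕ → Δ) (a : ℕ → ZMod p) : Prop where
  ad : AdData Ad
  card : ¬ p ∣ Fintype.card Δ
  irr : ∀ X : Mt n k, X ≠ 0 → X.trace = 0 → LinearMap.ker (traceLinearMap (Fin n) k k) ≤
    Submodule.span k (Set.range fun γ => Ad γ X)
  ne : ∀ j, a j ≠ 0
  loss : ∀ j < d, ∀ X, Ad (δ j) X = algebraMap (ZMod p) k (a j) • X → X ^ n = 0 →
    Module.finrank k ((LinearMap.eqLocus (Ad (δ j)) LinearMap.id).map (adM X)) +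
      ∑ x ∈ range m, w x ≤ c
  rank : RankW Ad μ (LinearMap.ker (traceLinearMap (Fin n) k k)) c

end Pool.Agent.MP_f68ac8_nt.Ev

end

section

/-! Auxiliary statements for Hodge-Tate lifts: arithmetic part. -/

namespace Pool.Agent.MP_f68ac8_nt.Ev

open NumberField Matrix Finset
open Pool.Agent.MP_14ad9d_nt.Full (Pr ord Tm tame Phi NearAt)
open scoped Pointwise Topology

section
variable (p : ℕ) [hp : Fact p.Prime]

/-- the leading term of a deformation over the `p`-adic integers -/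
structure LeadW {n : ℕ} {G : Subgroup GQ} (F : IntermediateField ℚ Qb)
    (r : G →* GL (Fin n) (ZMod p)) (ρ : G → GL (Fin n) ℤ_[p]) (Sp Un : Ideal OQ → Prop)
    (f : GQ → Matrix (Fin n) (Fin n) (ZMod p)) : Prop where
  add : ∀ g ∈ F.fixingSubgroup, ∀ h ∈ F.fixingSubgroup, f (g * h) = f g + f h
  conj : ∀ g : G, ∀ h ∈ F.fixingSubgroup,
    f (g * h * (g : GQ)⁻¹) = (r g).val * f h * (r g)⁻¹.val
  nhds : ∀ᶠ g in 𝓝 (1 : GQ), g ∈ F.fixingSubgroup → f g = 0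
  ne : ∃ h ∈ F.fixingSubgroup, f h ≠ 0
  unr : ∀ P g, Iner F P g → Un P → f g = 0
  nil : ∀ P g, Iner F P g → Sp P → f g ^ n = 0
  rel : ∀ l e : ℕ, l.Prime → 0 < e → l ^ e ≡ 1 [MOD p] → ∃ b : Bool, ∀ P, Sp P → (l : OQ) ∈ P →
    ∀ σ ∈ F.fixingSubgroup, IsFrob (l ^ e) P σ → ∀ u, Iner F P u →
      f σ * f u - f u * f σ = (if b then (cu p (l ^ e) : ZMod p) else 0) • f u
  lev : ∃ k : ℕ, 0 < k ∧ ∀ g : G, g.1 ∈ F.fixingSubgroup → ∃ (s : ℤ_[p]) (Z : Mt n ℤ_[p]),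
    PadicInt.toZMod s ≠ 0 ∧ (ρ g).val = s • (1 + (p : ℤ_[p]) ^ k • Z) ∧
      Z.map PadicInt.toZMod = f g ∧ (f g).trace = 0

end

end Pool.Agent.MP_f68ac8_nt.Ev

end
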