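import Mathlib
import Pool.Agent.Mg.Fe23604m.G7b5416
import Pool.Agent.MP_f68ac8_nt.TvDefs
import Pool.Agent.Mg.Fe23604m.G8e6640

set_option linter.all false

/-! Hodge-Tate and ordinary lifts of a tame representation with irreducible adjoint. -/

namespace Pool.Agent.MP_f68ac8_nt.Sv

open NumberField Matrix Finset Module Ev Pv IsLocalRing
open scoped Pointwise Topology MatrixGroups

section
variable {p : ℕ} [hp : Fact p.Prime] {K : IntermediateField ℚ Qb} (F : IntermediateField ℚ Qb)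
  {n d : ℕ} (r : K.fixingSubgroup →* GL (Fin n) (ZMod p))

/-- coordinates on the trace zero matrices -/
structure SlB (e : Mt n (ZMod p) →ₗ[ZMod p] Vc p d) (s : Vc p d →ₗ[ZMod p] Mt n (ZMod p)) :
    Prop where
  es : ∀ v, e (s v) = v
  se : ∀ Z, Z.trace = 0 → s (e Z) = Z
  tr : ∀ v, (s v).trace = 0

/-- the adjoint module -/
noncomputable def TM (e : Mt n (ZMod p) →ₗ[ZMod p] Vc p d) (s : Vc p d →ₗ[ZMod p] Mt n (ZMod p))
    (Adm : (GQ → Vc p d) → Prop) : Md p K :=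
  ⟨d, fun g => LinearMap.toMatrix' (e ∘ₗ LinearMap.mulLeftRight (ZMod p)
    ((r g).val, (r g)⁻¹.val) ∘ₗ s), Adm, ∅⟩

lemma TM_mulVec (e : Mt n (ZMod p) →ₗ[ZMod p] Vc p d) (s : Vc p d →ₗ[ZMod p] Mt n (ZMod p))
    (Adm : (GQ → Vc p d) → Prop) (g : K.fixingSubgroup) (v : Vc p d) :
    (TM r e s Adm).R g *ᵥ v = e (cj (r g) (s v)) := LinearMap.toMatrix'_mulVec _ _

/-- the local condition at a prime above `p` in the basis `A` -/
def LocA (o : Prop) (a : Fin n → ZMod p) (P : Ideal OQ) (A : GL (Fin n) (ZMod p))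
    (z : GQ → Mt n (ZMod p)) (u : ZMod p) : Prop :=
  ∀ g ∈ F.fixingSubgroup, g • P = P → (o → (cj A⁻¹ (z g)).BlockTriangular id) ∧
    (g ∈ P.inertia GQ → ∀ s t, (o → t ≤ s) →
      cj A⁻¹ (z g) s t = if s = t then u * psi p g * (a s - (∑ x, a x) / n) else 0)

/-- the first properties of the leading term -/
structure BasT (z : GQ → Mt n (ZMod p)) : Prop where
  add : ∀ g ∈ F.fixingSubgroup, ∀ h ∈ F.fixingSubgroup, z (g * h) = z g + z h
  conj : ∀ g : K.fixingSubgroup, ∀ h ∈ F.fixingSubgroup, z (g * h * g.1⁻¹) = cj (r g) (z h)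
  nhds : ∀ᶠ g in 𝓝 (1 : GQ), g ∈ F.fixingSubgroup → z g = 0
  tr : ∀ h ∈ F.fixingSubgroup, (z h).trace = 0

/-- `z` is the term of level one of `ρ` -/
def Lev (ρ : K.fixingSubgroup → GL (Fin n) ℤ_[p]) (z : GQ → Mt n (ZMod p)) : Prop :=
  ∀ g : K.fixingSubgroup, g.1 ∈ F.fixingSubgroup → ∃ (s : ℤ_[p]) (Z : Mt n ℤ_[p]),
    (ρ g).val = s • (1 + (p : ℤ_[p]) • Z) ∧ Z.map PadicInt.toZMod = z g ∧ (z g).trace = 0

variable (K) in
/-- embeddings representing the primes above `p` -/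
structure EmbD (ι : (K →+* ℂ_[p]) → Qb →+* ℂ_[p]) : Prop where
  ext : ∀ τ, (ι τ).comp (algebraMap K Qb) = τ
  surj : ∀ P : Ideal OQ, P.IsMaximal → (p : OQ) ∈ P →
    ∃ τ, ∃ g ∈ K.fixingSubgroup, P = g • primeC (ι τ)
  inj : ∀ τ τ' (g : K.fixingSubgroup), g.1 • primeC (ι τ) = primeC (ι τ') → τ = τ'

end

section
variable (p : ℕ) [hp : Fact p.Prime]

end

end Pool.Agent.MP_f68ac8_nt.Sv
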