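import Mathlib
import Pool.Agent.Mg.Fe23604m.G4ee231
import Pool.Agent.MP_f68ac8_nt.EvRec

set_option linter.all false

section

/-! Random variables on Frobenius elements and the variation of Selmer groups. -/

namespace Pool.Agent.MP_f68ac8_nt.Sv

open Ev Pv
open NumberField Matrix Finset
open scoped Topology Pointwise

variable {p : ℕ} [hp : Fact p.Prime] {K F : IntermediateField ℚ Qb}

variable (F) in
/-- independent families of invariant characters -/
structure Ind (t : GQ) {B : Type} [Fintype B] (θ : B → GQ → ZMod p) : Prop where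
  add : ∀ b, ∀ g ∈ F.fixingSubgroup, ∀ h ∈ F.fixingSubgroup, θ b (g * h) = θ b g + θ b h
  nhds : ∀ b, ∀ᶠ g in 𝓝 (1 : GQ), g ∈ F.fixingSubgroup → θ b g = 0
  conj : ∀ b, ∀ g ∈ F.fixingSubgroup, θ b (t * g * t⁻¹) = θ b g
  ind : ∀ c : B → ZMod p, (∀ g ∈ F.fixingSubgroup, ∑ b, c b * θ b g = 0) → c = 0

open Classical in
variable (p F) in
/-- `u` is a combination of events with mean `μ` -/
def Mn (t : GQ) (u : GQ → ℝ) (μ : ℝ) : Prop :=
  ∃ (I : Type) (_ : Fintype I) (B : I → Type) (_ : ∀ i, Fintype (B i))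
    (θ : ∀ i, B i → GQ → ZMod p) (w : I → ℝ), (∀ i, Ind F t (θ i)) ∧
    (∀ g, u g = ∑ i, if ∀ b, θ i b g = 0 then w i else 0) ∧
    μ = ∑ i, w i / p ^ Fintype.card (B i)

open Classical in
lemma Ind.mn {t : GQ} {B : Type} [Fintype B] {θ : B → GQ → ZMod p} (h : Ind F t θ) (w : ℝ) :
    Mn p F t (fun g => if ∀ b, θ b g = 0 then w else 0) (w / p ^ Fintype.card B) :=
  ⟨Unit, inferInstance, fun _ => B, fun _ => inferInstance, fun _ => θ, fun _ => w, fun _ => h,
    fun g => by simp, by simp⟩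

lemma Mn.sum {t : GQ} {ι : Type} [Fintype ι] {u : ι → GQ → ℝ} {μ : ι → ℝ}
    (h : ∀ i, Mn p F t (u i) (μ i)) : Mn p F t (fun g => ∑ i, u i g) (∑ i, μ i) := by
  choose I _ B _ θ w h1 h2 h3 using h
  refine ⟨Σ i, I i, inferInstance, fun x => B x.1 x.2, fun _ => inferInstance,
    fun x => θ x.1 x.2, fun x => w x.1 x.2, fun x => h1 x.1 x.2, fun g => ?_, ?_⟩
  · rw [Fintype.sum_sigma]
    exact sum_congr rfl fun i _ => by convert h2 i g
  · rw [Fintype.sum_sigma]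
    exact sum_congr rfl fun i _ => h3 i

lemma Mn.add {t : GQ} {u v : GQ → ℝ} {μ ν : ℝ} (h : Mn p F t u μ) (h' : Mn p F t v ν) :
    Mn p F t (fun g => u g + v g) (μ + ν) := by
  have := Mn.sum (ι := Bool) (u := fun b => cond b u v) (μ := fun b => cond b μ ν)
    (by rintro (_ | _) <;> assumption)
  simpa using this

lemma Mn.smul {t : GQ} {u : GQ → ℝ} {μ : ℝ} (h : Mn p F t u μ) (a : ℝ) :
    Mn p F t (fun g => a * u g) (a * μ) := by
  obtain ⟨I, _, B, _, θ, w, h1, h2, h3⟩ := h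
  refine ⟨I, inferInstance, B, inferInstance, θ, fun i => a * w i, h1, fun g => ?_, ?_⟩
  · simp only [h2, mul_sum, mul_ite, mul_zero]
  · simp only [h3, mul_sum, mul_div_assoc]

variable {D : Md p K}

lemma Tg.lin (a : ZMod p) {f f' : GQ → Vc p D.d} (h : Tg D F f) (h' : Tg D F f') :
    Tg D F (a • f + f') := by
  refine ⟨fun g hg x hx => ?_, fun g x hx => ?_, ?_⟩
  · simp only [Pi.add_apply, Pi.smul_apply, h.add g hg x hx, h'.add g hg x hx, smul_add]
    abel
  · simp only [Pi.add_apply, Pi.smul_apply, h.conj g x hx, h'.conj g x hx, mulVec_add,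
      mulVec_smul]
  · filter_upwards [h.nhds, h'.nhds] with g h1 h2 hg
    simp [h1 hg, h2 hg]

lemma Sel.lin (hM : Mb D F) {J : Type} {c : J → Co} (a : ZMod p) {f f' : GQ → Vc p D.d}
    (h : Sel D F c f) (h' : Sel D F c f') : Sel D F c (a • f + f') :=
  ⟨h.tang.lin a h'.tang, hM.lin a _ _ h.adm h'.adm,
    fun P g h1 h2 h3 => by simp [h.unr P g h1 h2 h3, h'.unr P g h1 h2 h3],
    fun j => by simp [h.st j, h'.st j], fun g hg => by simp [h.out g hg, h'.out g hg]⟩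

lemma Sel.zero (hM : Mb D F) {J : Type} (c : J → Co) : Sel D F c 0 :=
  ⟨⟨by simp, by simp, by simp⟩, hM.zero, by simp, by simp, by simp⟩

variable (D F) in
/-- the number of nonzero elements of the Selmer group -/
noncomputable def sz {J : Type} (c : J → Co) : ℕ := {f | Sel D F c f ∧ f ≠ 0}.ncard

lemma pow_ty (hB : Fb p K F) {t : K.fixingSubgroup} {σ : GQ} (hty : Ty p F t σ) {m : ℕ}
    (hm : t.1 ^ m ∈ F.fixingSubgroup) : σ ∈ K.fixingSubgroup ∧ σ ^ m ∈ F.fixingSubgroup := by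
  have hn : (F.fixingSubgroup.subgroupOf K.fixingSubgroup).Normal :=
    ⟨fun x hx g => hB.nrm g x hx⟩
  rw [Ty, hB.hh] at hty
  let π := QuotientGroup.mk' (F.fixingSubgroup.subgroupOf K.fixingSubgroup)
  have h1 : Subgroup.zpowers t.1 ⊔ F.fixingSubgroup ≤
      ((Subgroup.zpowers (π t)).comap π).map K.fixingSubgroup.subtype := by
    refine sup_le (Subgroup.zpowers_le.mpr ⟨t, Subgroup.mem_zpowers _, rfl⟩) fun g hg => ?_
    refine ⟨⟨g, IntermediateField.fixingSubgroup_le hB.le hg⟩, ?_, rfl⟩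
    have : π ⟨g, IntermediateField.fixingSubgroup_le hB.le hg⟩ = 1 :=
      (QuotientGroup.eq_one_iff _).2 hg
    rw [SetLike.mem_coe, Subgroup.mem_comap, this]
    exact one_mem _
  obtain ⟨s, ⟨k, hk⟩, rfl⟩ := h1 (hty ▸ Subgroup.mem_sup_left (Subgroup.mem_zpowers σ))
  refine ⟨s.2, ?_⟩
  have h2 : π (t ^ m) = 1 := (QuotientGroup.eq_one_iff _).2 hm
  have h3 : π (s ^ m) = 1 := by
    rw [map_pow, ← hk]
    beta_reduce
    rw [← zpow_natCast, zpow_comm, zpow_natCast, ← map_pow, h2, _root_.one_zpow]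
  exact (QuotientGroup.eq_one_iff (s ^ m)).1 h3

variable [NumberField K] [NumberField F]

lemma tau_line (hI : InerStmt p) (hB : Fb p K F) {x : Co} (hx : x.Ok p K F) {X Y}
    (hR : RamData D F x.σ X Y) {f} (h : Tg D F f) : ∃ a : ZMod p, f x.τ = a • X :=
  hR.eig ⟨_, hx.inG⟩ (Subgroup.mem_sup_left (Subgroup.mem_zpowers _)) _
    ((hI K F D hB x hx f h).2 _ rfl)

lemma Sel.tail (hI : InerStmt p) (hB : Fb p K F) {a : ℕ} {c : Fin a → Co} {x : Co}
    (hx : x.Ok p K F) {f} (h : Sel D F (Fin.cons x c : Fin (a + 1) → Co) f) (h0 : f x.τ = 0) :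
    Sel D F c f ∧ f (x.σ ^ x.m) = 0 := by
  refine ⟨⟨h.tang, h.adm, fun P g h1 h2 h3 => ?_, fun j => h.st j.succ, h.out⟩, h.st 0⟩
  by_cases h4 : ∃ s ∈ K.fixingSubgroup, P = s • x.P
  · obtain ⟨s, hs, rfl⟩ := h4
    exact (hI K F D hB x hx f h.tang).1 h0 s hs g h1
  · exact h.unr P g h1 h2 (Fin.cases (fun s hs e => h4 ⟨s, hs, e⟩) h3)

variable (D) in
/-- the linear conditions on a dual class -/
structure Kill (h : Qv.Stab K F) {N : ℕ} (cf : (Fin D.d → F) → Fin N → ZMod p) {J : Type}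
    (c : J → Co) (ξ : Fin D.d → F) : Prop where
  dual : Dual D h (Set.range fun j => (c j).P) ξ
  cf : cf ξ = 0
  col : ∀ j f, Tg D F f → Th D F ξ ((c j).σ ^ (c j).m) ⬝ᵥ f (c j).τ = 0

lemma Kill.tau (hS : SumStmt p) (hB : Fb p K F) (hM : Mb D F) {N : ℕ}
    {cf : (Fin D.d → F) → Fin N → ZMod p} (hC : Cf D hB.xi cf) {a : ℕ} {c : Fin a → Co} {x : Co}
    (hc : ∀ j, ((Fin.cons x c : Fin (a + 1) → Co) j).Ok p K F)
    (hi : Function.Injective fun j => ((Fin.cons x c : Fin (a + 1) → Co) j).l) {ξ}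
    (hk : Kill D hB.stab cf c ξ) {f} (h : Sel D F (Fin.cons x c : Fin (a + 1) → Co) f) :
    Th D F ξ (x.σ ^ x.m) ⬝ᵥ f x.τ = 0 := by
  obtain ⟨β, b1, b2, b3⟩ := hC.2 f h.tang h.adm
  have key := hS K F D hB hM _ _ hc hi f h β b1 b2 _ ξ
    (by rintro _ ⟨j, rfl⟩; exact ⟨j.succ, rfl⟩) hk.dual
  rw [b3 ξ hk.dual.ne hk.cf, Fin.sum_univ_succ, sum_eq_zero fun j _ => ?_, add_zero] at key
  · exact (mul_eq_zero.1 key).resolve_left
      (inv_ne_zero (mt (ZMod.natCast_eq_zero_iff _ _).1 (hc 0).ord))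
  · rw [Fin.cons_succ, hk.col j f h.tang, mul_zero]

end Pool.Agent.MP_f68ac8_nt.Sv

end

section

/-! The expected size of the Selmer group after adding one prime. -/

namespace Pool.Agent.MP_f68ac8_nt.Sv

open Ev Pv
open NumberField Matrix Finset
open scoped Topology Pointwise

variable {p : ℕ} [hp : Fact p.Prime] {K F : IntermediateField ℚ Qb} {D : Md p K}

lemma card_line {V : Type} [AddCommGroup V] [Module (ZMod p) V] {S T : Set V} (hT : T.Finite)
    (f₀ : V) (h : ∀ f ∈ S, ∃ a : ZMod p, f - a • f₀ ∈ T) : S.ncard ≤ p * T.ncard := by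
  have h1 : S ⊆ (fun x : ZMod p × V => x.1 • f₀ + x.2) '' (Set.univ ×ˢ T) := fun f hf => by
    obtain ⟨a, ha⟩ := h f hf
    exact ⟨(a, _), ⟨trivial, ha⟩, by simp⟩
  have h2 := Set.finite_univ.prod hT (α := ZMod p)
  refine (Set.ncard_le_ncard h1 (h2.image _)).trans ((Set.ncard_image_le h2).trans_eq ?_)
  rw [Set.ncard_prod, Set.ncard_univ, Nat.card_zmod]

open Classical in
lemma ncard_le_sum {V : Type} {A : V → Prop} [Fintype {f // A f}] {S : Set V} {q : V → Prop}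
    (h : ∀ f ∈ S, A f ∧ q f) :
    (S.ncard : ℝ) ≤ ∑ f : {f // A f}, if q f then 1 else 0 := by
  rw [sum_boole, Nat.cast_le, ← Set.ncard_coe_finset,
    ← Set.ncard_image_of_injective _ Subtype.val_injective]
  exact Set.ncard_le_ncard (fun f hf => ⟨⟨f, (h f hf).1⟩, by simpa using (h f hf).2, rfl⟩)
    (Set.toFinite _)

variable [NumberField K] [NumberField F]

end Pool.Agent.MP_f68ac8_nt.Sv

end
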