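import Mathlib
import Pool.Agent.Mg.Fe23604m.G1819d8
import Pool.Agent.Mg.Fe23604m.Gec6cb6

set_option linter.all false

/-! The density of sets of primes with vanishing Selmer groups. -/

namespace Pool.Agent.MP_f68ac8_nt.Sv

open Ev Pv
open NumberField Matrix Finset
open scoped Topology Pointwise MatrixGroups

variable {p : ℕ} [hp : Fact p.Prime] {K F : IntermediateField ℚ Qb} [NumberField K]
  [NumberField F]

end Pool.Agent.MP_f68ac8_nt.Sv
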