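import Mathlib
import Pool.Agent.Mg.Fe23604m.G1eea41
import Pool.Agent.Mg.Fe23604m.G7b5416

set_option linter.all false

section

/-! Selmer groups of pairs and dual classes. -/

namespace Pool.Agent.MP_f68ac8_nt.Sv

open Ev Pv
open NumberField Matrix Finset
open scoped Topology Pointwise

variable {p : ℕ} [hp : Fact p.Prime] {K F : IntermediateField ℚ Qb} {D : Md p K} {U : Mu D}

lemma Sel2.lin (hM : Mub U F) {J : Type} {c : J → Co} (a : ZMod p)
    {x y : (GQ → Vc p D.d) × ZMod p} (h : Sel2 U F c x) (h' : Sel2 U F c y) :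
    Sel2 U F c (a • x + y) :=
  ⟨h.tang.lin a h'.tang, hM.lin' a _ _ _ _ h.ad h'.ad,
    fun P g h1 h2 h3 h4 => by simp [h.unr P g h1 h2 h3 h4, h'.unr P g h1 h2 h3 h4],
    fun j => by
      simp only [Prod.fst_add, Prod.smul_fst, Pi.add_apply, Pi.smul_apply, dotProduct_add,
        dotProduct_smul, h.st j, h'.st j, Prod.snd_add, Prod.smul_snd, smul_eq_mul]
      ring,
    fun g hg => by simp [h.out g hg, h'.out g hg]⟩

lemma Sel2.zero (hM : Mub U F) {J : Type} (c : J → Co) : Sel2 U F c 0 :=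
  ⟨⟨by simp, by simp, by simp⟩, hM.zero', by simp, by simp, by simp⟩

lemma sel0_of (hM : Mub U F) {J : Type} {c : J → Co} {f : GQ → Vc p D.d} (h1 : Tg D F f)
    (h2 : U.Ad f 0) (h3 : ∀ P g, Iner F P g → (p : OQ) ∉ P → P ∉ D.Bd →
      (∀ j, ∀ s ∈ K.fixingSubgroup, P ≠ s • (c j).P) → f g = 0)
    (h4 : ∀ g, g ∉ F.fixingSubgroup → f g = 0) : Sel0 D F c f := by
  refine ⟨h1, hM.adm f h2, fun P g a1 a2 a3 => ?_, h4⟩
  by_cases h : P ∈ D.Bd
  · exact hM.bad P h f h1 (hM.adm f h2) g a1.2.2 (Ideal.inertia_le_stabilizer _ a1.2.1)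
  · exact h3 P g a1 a2 h a3

variable [NumberField K] [NumberField F]

lemma Sel2.tail (hI : InerStmt p) (hB : Fb p K F) {a : ℕ} {c : Fin a → Co} {x : Co}
    (hx : x.Ok p K F) {y} (h : Sel2 U F (Fin.cons x c : Fin (a + 1) → Co) y) (h0 : y.1 x.τ = 0) :
    Sel2 U F c y := by
  refine ⟨h.tang, h.ad, fun P g h1 h2 h5 h3 => ?_, fun j => h.st j.succ, h.out⟩
  by_cases h4 : ∃ s ∈ K.fixingSubgroup, P = s • x.P
  · obtain ⟨s, hs, rfl⟩ := h4
    exact (hI K F D hB x hx _ h.tang).1 h0 s hs g h1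
  · exact h.unr P g h1 h2 h5 (Fin.cases (fun s hs e => h4 ⟨s, hs, e⟩) h3)

variable (U) in
/-- the linear conditions on a dual class -/
structure Kill2 (h : Qv.Stab K F) {N : ℕ} (cf : (Fin D.d → F) → Fin N → ZMod p) {J J' : Type}
    (c : J → Co) (c' : J' → Co) (ξ : Fin D.d → F) : Prop where
  dual : Dual2 D h c (fun j => U.Ys F (c j).σ) ξ
  cf : cf ξ = 0
  col : ∀ j f, Tg D F f → Th D F ξ ((c j).σ ^ (c j).m) ⬝ᵥ f (c j).τ = 0
  col' : ∀ j f, Tg D F f → Th D F ξ ((c' j).σ ^ (c' j).m) ⬝ᵥ f (c' j).τ = 0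

lemma Kill2.tau (hS : Sum2Stmt p) (hB : Fb p K F) (hM : Mub U F) {N : ℕ}
    {cf : (Fin D.d → F) → Fin N → ZMod p} (hC : Cf D hB.xi cf) {J J' : Type} [Fintype J]
    [Fintype J'] {c : J → Co} {c' : J' → Co} {x : Co}
    (hc : ∀ o : Option (J ⊕ J'), (o.elim x (Sum.elim c c')).Ok p K F)
    (hi : Function.Injective fun o : Option (J ⊕ J') => (o.elim x (Sum.elim c c')).l) {ξ}
    (hk : Kill2 U hB.stab cf c c' ξ) {f}
    (h : Sel0 D F (fun o : Option (J ⊕ J') => o.elim x (Sum.elim c c')) f)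
    (h' : ∀ j, U.Ys F (c j).σ ⬝ᵥ f ((c j).σ ^ (c j).m) = 0) :
    Th D F ξ (x.σ ^ x.m) ⬝ᵥ f x.τ = 0 := by
  obtain ⟨β, b1, b2, b3⟩ := hC.2 f h.tang h.adm
  have key := hS K F D hB hM.toMb hM.bdr _ _ hc hi f h β b1 b2 J (fun j => some (.inl j)) _ ξ h'
    hk.dual
  rw [b3 ξ hk.dual.ne hk.cf, Fintype.sum_option, sum_eq_zero fun j _ => ?_, add_zero] at key
  · exact (mul_eq_zero.1 key).resolve_left
      (inv_ne_zero (mt (ZMod.natCast_eq_zero_iff _ _).1 (hc none).ord))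
  · rcases j with j | j
    · exact mul_eq_zero_of_right _ (hk.col j f h.tang)
    · exact mul_eq_zero_of_right _ (hk.col' j f h.tang)

end Pool.Agent.MP_f68ac8_nt.Sv

end

section

/-! The expected size of the Selmer group of pairs after adding one prime. -/

namespace Pool.Agent.MP_f68ac8_nt.Sv

open Ev Pv
open NumberField Matrix Finset
open scoped Topology Pointwise

variable {p : ℕ} [hp : Fact p.Prime] {K F : IntermediateField ℚ Qb} {D : Md p K} {U : Mu D}
  [NumberField K] [NumberField F]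

end Pool.Agent.MP_f68ac8_nt.Sv

end

section

/-! The density of sets of primes with vanishing Selmer groups of pairs. -/

namespace Pool.Agent.MP_f68ac8_nt.Sv

open Ev Pv
open NumberField Matrix Finset
open scoped Topology Pointwise MatrixGroups

variable {p : ℕ} [hp : Fact p.Prime] {K F : IntermediateField ℚ Qb} [NumberField K]
  [NumberField F]

variable (p) in
/-- the statements used in the induction -/
structure Core : Prop where
  th : ThStmt p
  co : CoStmt p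
  iner : InerStmt p
  nz : NzStmt p
  nz3 : Nz3Stmt p
  sum : Sum2Stmt p
  fin : Fin0Stmt p
  step : StepMStmt p
  locV : Qv.LocVStmt p
  mean : IdMeanStmt
  cf : CfStmt p

omit [NumberField K] in
lemma DualEx2.mono {D : Md p K} {h : Qv.Stab K F} {a b : ℕ} (hD : DualEx2 D h a) (e : b ≤ a) :
    DualEx2 D h b := fun J _ c Y h1 h2 h3 ι _ L h4 h5 => hD J c Y h1 h2 h3 ι L h4 (by omega)

end Pool.Agent.MP_f68ac8_nt.Sv

end
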