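import Mathlib
import Pool.Agent.MP_f68ac8_nt.ZvDefs
import Pool.Agent.Mg.Fe23604m.Gd5f312
import Pool.Agent.Mg.Fe23604m.G9a9246
import Pool.Agent.Mg.Fe23604m.G774860

set_option linter.all false

section

/-! Densities of tuples of primes and the Selmer groups of level one. -/

namespace Pool.Agent.MP_f68ac8_nt.Zv

open NumberField Matrix Finset Filter Ev Pv Sv
open scoped Pointwise Topology BigOperators

/-- the data attached to an auxiliary prime -/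
abbrev Co : Type := Qv.Co

/-- the iterated filter -/
noncomputable def itF : (d : ℕ) → Filter (Fin d → ℝ)
  | 0 => ⊤
  | d + 1 => (𝓝[>] (1 : ℝ)).bind fun s =>
      (itF d).map fun L : Fin d → ℝ => (Fin.cons s L : Fin (d + 1) → ℝ)

section
variable {K : Type} [Field K] [NumberField K]

/-- the iterated lower mean -/
noncomputable def idT : (d : ℕ) → (ℕ → Ideal (𝓞 K) → Prop) →
    ((Fin d → Ideal (𝓞 K)) → ℝ) → ℝ
  | 0, _, f => f Fin.elim0
  | d + 1, T, f => idMean (T 0) fun q => idT d (fun j => T (j + 1)) fun Q => f (Fin.cons q Q)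

/-- the mass of a finite set -/
noncomputable def mass (T : Ideal (𝓞 K) → Prop) (s : ℝ) (U : Finset (Ideal (𝓞 K))) : ℝ :=
  (∑ q ∈ U, (Ideal.absNorm q : ℝ) ^ (-s)) / ∑' q : {q // T q}, (Ideal.absNorm q.1 : ℝ) ^ (-s)

/-- the weights on a finite set -/
noncomputable def wt (s : ℝ) (U : Finset (Ideal (𝓞 K))) (q : Ideal (𝓞 K)) : ℝ :=
  (Ideal.absNorm q : ℝ) ^ (-s) / ∑ q ∈ U, (Ideal.absNorm q : ℝ) ^ (-s)

end

/-- functions with values in the unit interval -/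
def Unit01 {α : Type} (f : α → ℝ) : Prop := ∀ a, 0 ≤ f a ∧ f a ≤ 1

/-- the Galois group of `K` -/
abbrev GK (K : IntermediateField ℚ Qb) : Type := K.fixingSubgroup

open Classical in
/-- an element of the Galois group of `K` -/
noncomputable def toK (K : IntermediateField ℚ Qb) (g : GQ) : GK K :=
  if h : g ∈ K.fixingSubgroup then ⟨g, h⟩ else 1

lemma toK_val {K : IntermediateField ℚ Qb} {g : GQ} (h : g ∈ K.fixingSubgroup) :
    (toK K g).1 = g := by rw [toK, dif_pos h]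

/-- exponents prime to `e` -/
abbrev Exn (e : ℕ) : Type := {a : Fin e // Nat.Coprime a e}

noncomputable instance : Inhabited Co := ⟨⟨0, ⊥, 1, 1, 0⟩⟩

section
variable {p : ℕ} [hp : Fact p.Prime] {K : IntermediateField ℚ Qb} (F : IntermediateField ℚ Qb)

variable (p) in
/-- data of type `t` at the prime `q` -/
def CoAt (t : GK K) (q : Ideal (𝓞 K)) (x : Co) : Prop :=
  x.Ok p K F ∧ Ty p F t x.σ ∧ x.P.under (𝓞 K) = q

variable (p) in
/-- a translation multiplies the function by a constant -/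
def Sh (t : GK K) (φ : GK K → ℂ) : Prop :=
  ∀ g : GK K, Ty p F t g → ∃ g₀ : GK K, g₀.1 ∈ F.fixingSubgroup ∧ ∃ ε : ℂ, ε ≠ 1 ∧
    ∀ h : GK K, h.1 ∈ F.fixingSubgroup → φ (g₀ * (g * h)) = ε * φ (g * h)

variable (p) in
/-- valid data up to time `a` -/
def Val (t : ℕ → GK K) (a : ℕ) (c : ℕ → Co) : Prop :=
  (∀ j < a, (c j).Ok p K F ∧ Ty p F (t j) (c j).σ) ∧ ∀ i < a, ∀ j < a, (c i).l = (c j).l → i = j

variable (p) in
/-- a new prime at time `a` -/
def New (t : ℕ → GK K) (a : ℕ) (c : ℕ → Co) (x : Co) : Prop :=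
  x.Ok p K F ∧ Ty p F (t a) x.σ ∧ ∀ j < a, x.l ≠ (c j).l

variable (p) in
/-- one step of a potential -/
def Stp (t : ℕ → GK K) (a : ℕ) (c : ℕ → Co) (Φ : (ℕ → Co) → ℝ) (b : ℝ) : Prop :=
  ∃ u μ, ∃ E : Finset ℕ, Mn p F (t a) u μ ∧ μ ≤ b ∧
    ∀ x, New p F t a c x → x.l ∉ E → Φ (Function.update c a x) ≤ u (x.σ ^ x.m)

variable (p) in
/-- a potential that bounds the probability of an event -/
def Pot (t : ℕ → GK K) (d : ℕ) (A : (ℕ → Co) → Prop) (β : ℝ) : Prop :=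
  ∃ Φ : ℕ → (ℕ → Co) → ℝ, (∀ c, Φ 0 c ≤ β) ∧ (∀ c, Val p F t d c → 0 ≤ Φ d c) ∧
    (∀ c, Val p F t d c → A c → 1 ≤ Φ d c) ∧
    ∀ a < d, ∀ c, Val p F t a c → Stp p F t a c (Φ (a + 1)) (Φ a c)

variable {D : Md p K} (U : Mu D)

/-- the Selmer group at time `a` without level raising condition at the times in `Z` -/
structure SelA (a : ℕ) (c : ℕ → Co) (Z : Finset ℕ) (f : GQ → Vc p D.d) (u : ZMod p) : Prop where
  tang : Tg D F f
  ad : U.Ad f u
  unr : ∀ P g, Iner F P g → (p : OQ) ∉ P → P ∉ D.Bd →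
    (∀ j < a, ∀ s ∈ K.fixingSubgroup, P ≠ s • (c j).P) → f g = 0
  st : ∀ j < a, j ∉ Z → U.Ys F (c j).σ ⬝ᵥ f ((c j).σ ^ (c j).m) = u * U.l ((c j).σ ^ (c j).m)
  out : ∀ g, g ∉ F.fixingSubgroup → f g = 0

/-- its order -/
noncomputable def szA (a : ℕ) (c : ℕ → Co) (Z : Finset ℕ) : ℕ := {f | SelA F U a c Z f 0}.ncard

variable (D) in
/-- the order of the Selmer group at time zero -/
noncomputable def sz0 : ℕ := {f | Sel0 D F (Empty.elim : Empty → Co) f}.ncard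

/-- there is a nonzero unramified class -/
def Unr (a : ℕ) (c : ℕ → Co) (Z : Finset ℕ) : Prop :=
  ∃ f, f ≠ 0 ∧ SelA F U a c Z f 0 ∧ ∀ j < a, f (c j).τ = 0

/-- the potential of the Selmer group -/
noncomputable def om (a : ℕ) (c : ℕ → Co) (Z : Finset ℕ) : ℝ :=
  max (p * szA F U a c Z / p ^ Z.card : ℝ) 1 - 1

variable (X : ℕ → Vc p D.d)

/-- a class with given ramification whose last ramified prime is at time `z` -/
def BadV (d z : ℕ) (v : Fin z → ZMod p) (c : ℕ → Co) : Prop :=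
  ∃ f, SelA F U d c ∅ f 1 ∧ (∀ j : Fin z, f (c j).τ = v j • X j) ∧ (z ≠ 0 → f (c z).τ ≠ 0) ∧
    ∀ j, z < j → j < d → f (c j).τ = 0

variable {F} [NumberField F]

/-- independent dual classes -/
def IndD (Y : Vc p D.d) {ι : Type} [Fintype ι] (ξ : ι → Fin D.d → F) : Prop :=
  (∀ b i, ξ b i ≠ 0) ∧ ∀ y : ι → ZMod p,
    (∀ g ∈ F.fixingSubgroup, ∑ b, y b * (Th D F (ξ b) g ⬝ᵥ Y) = 0) → y = 0

/-- the hypotheses on the module -/
structure Hy (hB : Fb p K F) {N : ℕ} (cf : (Fin D.d → F) → Fin N → ZMod p) : Prop where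
  core : Core p
  mub : Mub U F
  cf : Cf D hB.xi cf
  dual : DualEx2 D hB.stab (N + 1)
  ne : ∃ g ∈ F.fixingSubgroup, U.l g ≠ 0

variable (F) in
/-- the hypotheses on the types -/
def HyT (t : ℕ → GK K) : Prop :=
  ∀ j, Tame p F (t j) ∧ ∀ σ, Ty p F (t j) σ → RamData D F σ (X j) (U.Ys F σ)

end

/-- bounds and subadditivity -/
def MeanStmt : Prop :=
  ∀ (K : Type) [Field K] [NumberField K] (d : ℕ) (T : ℕ → Ideal (𝓞 K) → Prop),
    (∀ s f, Unit01 f → 0 ≤ tupMean d T s f ∧ tupMean d T s f ≤ 1) ∧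
    (∀ f, Unit01 f → 0 ≤ idT d T f ∧ idT d T f ≤ 1) ∧
    (∀ s f g h, (∀ j, 1 < s j) → Unit01 f → Unit01 g → Unit01 h → (∀ q, f q ≤ g q + h q) →
      tupMean d T s f ≤ tupMean d T s g + tupMean d T s h) ∧
    ∀ f a, Unit01 f → a < idT d T f → ∀ᶠ s in itF d, a ≤ tupMean d T s f

/-- the iterated filter -/
def ItStmt : Prop :=
  (∀ d, ∀ᶠ s in itF d, ∀ j, 1 < s j) ∧
  (∀ d (φ : (Fin d → ℝ) → ℝ) a, Unit01 φ → (∀ᶠ s in itF d, a ≤ φ s) → a ≤ iterInf d φ) ∧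
  ∀ (α : Type) [Nonempty α] (d : ℕ) (R : ℕ → (ℕ → α) → ℝ → α → Prop),
    (∀ j (U : ℕ → α), ∀ᶠ s in 𝓝[>] (1 : ℝ), ∃ u, ∀ U', (∀ i < j, U' i = U i) → R j U' s u) →
    ∀ᶠ s in itF d, ∃ U : ℕ → α, ∀ j : Fin d, R j U (s j) (U j)

/-- truncation to finite sets -/
def TruncStmt : Prop :=
  ∀ (K : Type) [Field K] [NumberField K] (d : ℕ) (T : ℕ → Ideal (𝓞 K) → Prop) (s : Fin d → ℝ)
    (U : ℕ → Finset (Ideal (𝓞 K))) (η : ℝ), (∀ j, 1 < s j) → η < 1 →
    (∀ j : Fin d, (∀ q ∈ U j, T j q) ∧ 1 - η ≤ mass (T j) (s j) (U j)) →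
    (∀ j : Fin d, ∑ q : U j, wt (s j) (U j) q = 1) ∧ ∀ f, Unit01 f → tupMean d T s f ≤
      d * η + ∑ q : ∀ j : Fin d, U j, (∏ j, wt (s j) (U j) (q j)) * f fun j => q j

open Classical in
/-- most vectors have many zero and many nonzero entries -/
def CombStmt : Prop :=
  ∀ (p : ℕ) [Fact p.Prime] (k : ℕ) (ε : ℝ), 0 < ε →
    (∃ r₀, ∀ r z : ℕ, r₀ ≤ r → r ≤ z → ((univ.filter fun v : Fin z → ZMod p =>
      (univ.filter fun j : Fin z => j.1 < r ∧ v j ≠ 0).card < k).card : ℝ) ≤ ε * p ^ z) ∧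
    ∃ w, ∀ r z : ℕ, r + w ≤ z → ((univ.filter fun v : Fin z → ZMod p =>
      (univ.filter fun j : Fin z => r ≤ j.1 ∧ j.1 < r + w ∧ v j = 0).card < k).card : ℝ) ≤ ε * p ^ z

section
variable (p : ℕ) [hp : Fact p.Prime]

/-- finite sets of primes with almost full mass -/
def SelStmt : Prop :=
  ∀ (K F : IntermediateField ℚ Qb) [NumberField K] [NumberField F], Fb p K F → ∀ t : GK K,
    Tame p F t → ∀ η, 0 < η → ∀ Q : Finset (Ideal (𝓞 K)), ∀ᶠ s in 𝓝[>] (1 : ℝ),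
    ∃ U : Finset (Ideal (𝓞 K)), (∀ q ∈ U, q ∉ Q ∧ Typ p K F t q ∧ (∃ x, CoAt p F t q x) ∧
      wt s U q ≤ η) ∧ 1 - η ≤ mass (Typ p K F t) s U

/-- equidistribution of generators of decomposition groups -/
def ChebStmt : Prop :=
  ∀ (K F : IntermediateField ℚ Qb) [NumberField K] [NumberField F], Fb p K F → ∀ t : GK K,
    Tame p F t → ∀ (N : Subgroup (GK K)) (e : ℕ) (φ : GK K → ℂ), N.Normal →
    (N : Set (GK K)) ∈ 𝓝 1 → (∀ g ∈ N, g.1 ∈ F.fixingSubgroup) → 0 < e →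
    (∀ g : GK K, g ^ e ∈ N) →
    (∀ g, ‖φ g‖ ≤ 1) → (∀ n ∈ N, ∀ g, φ (n * g) = φ g) → (∀ s g, φ (s * g * s⁻¹) = φ g) →
    Sh p F t φ → ∀ η, 0 < η → η ≤ 1 / 2 → ∀ᶠ s in 𝓝[>] (1 : ℝ),
    ∀ (U : Finset (Ideal (𝓞 K))) (x : Ideal (𝓞 K) → Co),
      (∀ q ∈ U, Typ p K F t q ∧ CoAt p F t q (x q)) → 1 - η ≤ mass (Typ p K F t) s U →
      ‖∑ q : U, wt s U q • 𝔼 a : Exn e, φ (toK K (x q).σ ^ (a.1 : ℕ))‖ ≤ 4 * η

open Classical in
/-- potentials bound probabilities -/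
def PotStmt : Prop :=
  ∀ (K F : IntermediateField ℚ Qb) [NumberField K] [NumberField F], Fb p K F →
    ∀ t : ℕ → GK K, (∀ j, Tame p F (t j)) → ∀ d,
    (∀ A β, Pot p F t d A β → 1 - β ≤ idT d (fun j => Typ p K F (t j)) fun q =>
      if ∃ c, Val p F t d c ∧ (∀ j : Fin d, (c j).P.under (𝓞 K) = q j) ∧ ¬ A c then 1 else 0) ∧
    ∀ (I : Type) [Fintype I] (A : I → (ℕ → Co) → Prop) (β : I → ℝ) (A' : (ℕ → Co) → Prop) β',
      (∀ i, Pot p F t d (A i) (β i)) → (∀ c, Val p F t d c → A' c → ∃ i, A i c) →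
      ∑ i, β i ≤ β' → Pot p F t d A' β'

/-- statements about all modules and types -/
def AllH (Q : ∀ (K F : IntermediateField ℚ Qb) [NumberField F] (D : Md p K) (_ : Mu D)
    (_ : ℕ → Vc p D.d) (_ : ℕ → GK K), Prop) : Prop :=
  ∀ (K F : IntermediateField ℚ Qb) [NumberField K] [NumberField F] (D : Md p K) (U : Mu D)
    (hB : Fb p K F) (N : ℕ) (cf : (Fin D.d → F) → Fin N → ZMod p), Hy U hB cf →
    ∀ X t, HyT F U X t → Q K F D U X t

/-- basic properties of the Selmer groups -/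
def BasStmt : Prop :=
  AllH p fun _ F _ D U X t => ∀ a c Z, Val p F t a c →
    (∀ u, {f | SelA F U a c Z f u}.Finite) ∧ szA F U a c Z ≤ sz0 F D * p ^ a ∧
    (∀ u (y : ℕ → Vc p D.d),
      {f | SelA F U a c Z f u ∧ ∀ j < a, f (c j).τ = y j}.ncard ≤ sz0 F D) ∧
    (∀ (b : ZMod p) f u f' u', SelA F U a c Z f u → SelA F U a c Z f' u' →
      SelA F U a c Z (b • f + f') (b * u + u')) ∧ SelA F U a c Z 0 0 ∧
    (∀ f, Tg D F f → ∀ j < a, ∃ b : ZMod p, f (c j).τ = b • X j) ∧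
    (∀ a' ≤ a, ∀ f u, SelA F U a c Z f u → (∀ j, a' ≤ j → j < a → f (c j).τ = 0) →
      SelA F U a' c Z f u) ∧
    (∀ c', (∀ j < a, c' j = c j) → Val p F t a c' ∧
      ∀ f u, SelA F U a c Z f u → SelA F U a c' Z f u) ∧
    ∀ x, New p F t a c x → Val p F t (a + 1) (Function.update c a x) ∧
      ∀ f u, SelA F U a c Z f u →
        SelA F U (a + 1) (Function.update c a x) (insert a Z) f u ∧ f x.τ = 0

/-- the change of the Selmer group in one step -/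
def SelStepStmt : Prop :=
  AllH p fun _ F _ D U X t => ∀ a c Z, Val p F t a c → a ∉ Z →
    ∃ (h : ℕ) (θ : Fin h → GQ → ZMod p), szA F U a c Z = p ^ h ∧
      (∀ (ι : Type) [Fintype ι] (ξ : ι → Fin D.d → F), IndD (X a) ξ →
        Ind F (t a) (Sum.elim θ fun b g => Th D F (ξ b) g ⬝ᵥ X a)) ∧
      ∀ x, New p F t a c x →
        szA F U (a + 1) (Function.update c a x) Z ≤ p ^ (h + 1) ∧
        ((∃ b, θ b (x.σ ^ x.m) ≠ 0) → szA F U (a + 1) (Function.update c a x) Z ≤ p ^ h ∧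
          ((∀ f, SelA F U (a + 1) (Function.update c a x) (insert a Z) f 0 → f x.τ = 0) →
            p * szA F U (a + 1) (Function.update c a x) Z ≤ p ^ h))

/-- a dual class for a large Selmer group -/
def CtrlDStmt : Prop :=
  AllH p fun _ F _ D U X t => ∀ a c Z, Val p F t a c → (∀ j ∈ Z, j < a) → ¬ Unr F U a c Z →
    p ^ Z.card ≤ szA F U a c Z → ∃ ξ : Unit → Fin D.d → F, IndD (X a) ξ ∧
      ∀ x, New p F t a c x → Th D F (ξ ()) (x.σ ^ x.m) ⬝ᵥ X a ≠ 0 →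
        ∀ f, SelA F U (a + 1) (Function.update c a x) (insert a Z) f 0 → f x.τ = 0

/-- dual classes for a given ramification -/
def CtrlVStmt : Prop :=
  AllH p fun _ F _ D U X t => ∀ z c (v : Fin z → ZMod p), Val p F t z c →
    ∃ (ξ : Fin z → Fin D.d → F) (E : Finset ℕ), IndD (X z) ξ ∧ ∀ x, New p F t z c x → x.l ∉ E →
      BadV F U X (z + 1) z v (Function.update c z x) →
      ∀ b, Th D F (ξ b) (x.σ ^ x.m) ⬝ᵥ X z = 0

open Classical in
/-- the change of the potential in one step -/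
def OmStmt : Prop :=
  AllH p fun _ F _ D U X t => ∀ a c Z, Val p F t a c → (∀ j ∈ Z, j < a) →
    (∀ (k : ℕ) (ξ : Fin k → Fin D.d → F) (A : (ℕ → Co) → Prop) (E : Finset ℕ) (b : ℝ), 0 ≤ b →
      IndD (X a) ξ → (∀ x, New p F t a c x → x.l ∉ E → A (Function.update c a x) →
        ∀ i, Th D F (ξ i) (x.σ ^ x.m) ⬝ᵥ X a = 0) →
      Stp p F t a c (fun c' => if A c' then om F U (a + 1) c' Z + b else 0)
        ((om F U a c Z + p ^ 2 / p ^ Z.card + b) / p ^ k)) ∧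
    (¬ Unr F U a c Z → Stp p F t a c (fun c' => om F U (a + 1) c' Z)
      (2 / p * om F U a c Z + p ^ 2 / p ^ Z.card))

/-- unramified classes die -/
def T0Stmt : Prop :=
  AllH p fun _ F _ D U _ t => ∀ r d, r ≤ d →
    Pot p F t d (fun c => Unr F U r c ∅) (sz0 F D / p ^ r)

/-- classes with given ramification -/
def T1Stmt : Prop :=
  AllH p fun _ F _ D U X t => ∀ z d (v : Fin z → ZMod p), z < d →
    Pot p F t d (BadV F U X d z v) (p ^ 2 * sz0 F D / p ^ d)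

/-- classes with given ramification and a large Selmer group -/
def T2Stmt : Prop :=
  AllH p fun _ F _ D U X t => ∀ r b z d (v : Fin z → ZMod p) (Z : Finset ℕ), r ≤ b → b ≤ z → z < d →
    (∀ j ∈ Z, r ≤ j ∧ j < b) →
    Pot p F t d (fun c => BadV F U X d z v c ∧ ¬ Unr F U r c ∅ ∧ p ^ Z.card < p * szA F U d c Z)
      (((2 / p) ^ (z - b) * (sz0 F D * p ^ (b + 1)) + (3 + (d - z : ℕ)) * (p ^ 2 / p ^ Z.card)) /
        p ^ z)

end

end Pool.Agent.MP_f68ac8_nt.Zv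

end

section

/-! The link between Galois representations and word equations. -/

namespace Pool.Agent.MP_f68ac8_nt.Zv

open NumberField Matrix Finset Filter Module Ev Pv Sv
open scoped Pointwise Topology BigOperators Kronecker

section
variable {R : Type} [CommRing R] {n : ℕ}

/-- the adjoint representation -/
noncomputable def AdM : GL (Fin n) R →* GL (Fin n × Fin n) R :=
  MonoidHom.toHomUnits
    { toFun := fun A => A.val ⊗ₖ A⁻¹.valᵀ
      map_one' := by simp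
      map_mul' := fun A B => by
        rw [_root_.mul_inv_rev, Units.val_mul, Units.val_mul, transpose_mul, mul_kronecker_mul] }

lemma AdM_val (A : GL (Fin n) R) : (AdM A).val = A.val ⊗ₖ A⁻¹.valᵀ := rfl

/-- its derivative -/
def adM : Mt n R →ₗ[R] Matrix (Fin n × Fin n) (Fin n × Fin n) R where
  toFun Z := Z ⊗ₖ (1 : Mt n R) - (1 : Mt n R) ⊗ₖ Zᵀ
  map_add' Z Z' := by
    rw [add_kronecker, transpose_add, kronecker_add]
    abel
  map_smul' c Z := by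
    rw [smul_kronecker, transpose_smul, kronecker_smul, smul_sub, RingHom.id_apply]

lemma adM_apply (Z : Mt n R) : adM Z = Z ⊗ₖ (1 : Mt n R) - (1 : Mt n R) ⊗ₖ Zᵀ := rfl

/-- a matrix as a vector -/
def vc (X : Mt n R) : Fin n × Fin n → R := fun x => X x.1 x.2

end

section
variable (p M n : ℕ)

/-- the adjoint group -/
noncomputable def Gm : Subgroup (GL (Fin n × Fin n) (Rg p M)) := AdM.range

/-- its Lie algebra -/
def Lm : Submodule (ZMod p) (Matrix (Fin n × Fin n) (Fin n × Fin n) (ZMod p)) :=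
  LinearMap.range adM

noncomputable instance [Fact p.Prime] : Fintype (Gm p M n) := Fintype.ofFinite _

end

open Classical in
/-- uniformly distributed words -/
def Unf {Λ 𝓡 : Type} (G : Type) [Group G] [Fintype 𝓡] (H : Subgroup (FreeGroup Λ))
    (s : 𝓡 → FreeGroup Λ) : Prop :=
  (∀ ρ, s ρ ∈ H) ∧ ∀ (Ω : Type) [Fintype Ω] [Fintype (Ω → G)] (V : Ω → Λ → G) (φ : (Ω → G) → ℂ),
    𝔼 ρ, φ (piV V (s ρ)) = 𝔼 h ∈ univ.filter (· ∈ H.map (piV V)), φ h

section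
variable {p : ℕ} [hp : Fact p.Prime] {K : IntermediateField ℚ Qb} (F : IntermediateField ℚ Qb)

variable (K) in
/-- the Galois group of `F` -/
noncomputable abbrev GF : Subgroup (GK K) := F.fixingSubgroup.subgroupOf K.fixingSubgroup

variable (p K) in
/-- the cyclotomic character modulo a power of `p` -/
noncomputable def chiM (M : ℕ) : GK K →* Rg p M where
  toFun g := PadicInt.toZModPow (M + 1) (cycChar p g : ℤ_[p])
  map_one' := by
    change PadicInt.toZModPow _ ((cyclotomicCharacter Qb p 1 : ℤ_[p]ˣ) : ℤ_[p]) = 1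
    simp
  map_mul' g h := by
    change PadicInt.toZModPow _ ((cyclotomicCharacter Qb p
      (g.1.toRingEquiv * h.1.toRingEquiv) : ℤ_[p]ˣ) : ℤ_[p]) = _
    rw [map_mul, Units.val_mul, map_mul]
    rfl

variable (K) in
/-- the prime of `K` below the data -/
noncomputable abbrev pr (c : Co) : Ideal (𝓞 K) := c.P.under (𝓞 K)

variable (p) (O : Set (Ideal OQ))

/-- subgroups that cut out `p`-extensions of `F` unramified outside `O` and `Q` -/
structure Adm (Q : Set (Ideal (𝓞 K))) (N : Subgroup (GK K)) : Prop where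
  nrm : N.Normal
  nhds : (N : Set (GK K)) ∈ 𝓝 1
  pg : ∀ g ∈ GF K F, ∃ k, g ^ p ^ k ∈ N
  unr : ∀ P (g : GK K), Iner F P g → P ∉ O → P.under (𝓞 K) ∉ Q → g ∈ N

/-- generators -/
def Gen {B : Type} (β : B → GK K) : Prop :=
  ∀ (J : Type) (c : J → Co), (∀ j, (c j).Ok p K F) → ∀ N,
    Adm p F O (Set.range fun j => pr K (c j)) N →
    Subgroup.closure (Set.range β ∪ Set.range fun j => toK K (c j).τ) ⊔ N = ⊤

variable (K) in
/-- admissible exponents -/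
def Eok (M n d e : ℕ) : Prop :=
  1 < e ∧ p ∣ e ∧ Nat.card (Finset (Fin d) → Gm p M n) ∣ e ∧
    ∀ g : GK K, g ^ e ∈ GF K F ∧ chiM p K M (g ^ e) = 1

variable {p} in
/-- the test functions -/
noncomputable def Psi {M n d : ℕ} (κ : Finset (Fin d) → Rg p M) (h : Finset (Fin d) → Gm p M n)
    (c : Rg p M) : ℂ := ZMod.stdAddChar (Ps κ h c)

/-- equidistribution for all correspondences unramified outside `Q` -/
def EqW (M n d e : ℕ) (Q : Set (Ideal (𝓞 K))) (t : GK K) {U : Type} [Fintype U] (w : U → ℝ)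
    (σ : U → GK K) (η : ℝ) : Prop :=
  ∀ C : Subgroup (GK K × (Finset (Fin d) → Gm p M n)),
    (∃ N, Adm p F O Q N ∧ ∀ g ∈ N, (g, 1) ∈ C) → (∀ g, ∃ h, (g, h) ∈ C) →
    ∀ κ, Sh p F t (FC C (chiM p K M) (Psi κ)) →
      ‖∑ u, w u • 𝔼 a : Exn e, FC C (chiM p K M) (Psi κ) (σ u ^ (a.1 : ℕ))‖ ≤ η

variable {B : Type} {d : ℕ} {U : Fin d → Type} (β : B → GK K) (x : (Σ j, U j) → Co)

/-- the Galois elements attached to the letters -/
noncomputable def ltr : Lt B U → GK K := Sum.elim β fun y => toK K (x y).τ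

/-- the Galois elements attached to the words -/
noncomputable def lw : FreeGroup (Lt B U) →* GK K := FreeGroup.lift (ltr β x)

variable (K) in
/-- the primes at earlier times -/
def Prior (j : Fin d) : Set (Ideal (𝓞 K)) := {q | ∃ y, y.1 < j ∧ pr K (x y) = q}

/-- the finite model of the Galois group -/
structure Am (t : ℕ → GK K) (N : Subgroup (GK K)) : Prop where
  above : ∀ P ∈ O, (p : OQ) ∈ P
  co : ∀ y, (x y).Ok p K F ∧ Ty p F (t y.1) (x y).σ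
  inj : Function.Injective fun y => pr K (x y)
  adm : Adm p F O (Set.range fun y => pr K (x y)) N
  le : N ≤ GF K F
  gen : ∀ g, ∃ w, (lw β x w)⁻¹ * g ∈ N

variable {p} {M n : ℕ} {E : Type} (N : Subgroup (GK K)) (S : Sy p M (Fin n × Fin n) B U E)

/-- the equations cut out the finite model and contain the level raising conditions -/
structure Sm : Prop where
  cut : ∀ V : Lt B U → Gm p M n, (∀ e, (p : Rg p M) ^ 2 ∣ E0 V (S.x e)) →
    ∀ w, lw β x w ∈ N → Ld 1 (ev V w) 0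
  frob : ∀ y, ∃ a : ℕ, a.Coprime (p * (x y).m) ∧
    (lw β x (S.y y).1)⁻¹ * toK K (x y).σ ^ a ∈ N ∧ (S.y y).2 = chiM p K M (toK K (x y).σ ^ a)

/-- the equations hold for the homomorphisms that factor through the finite model -/
def Tru : Prop :=
  ∀ V : Lt B U → Gm p M n, (∀ w, lw β x w ∈ N → ev V w = 1) → ∀ e, E0 V (S.x e) = 0

variable (r : GK K →* GL (Fin n) (ZMod p))

/-- the residual values of the letters -/
noncomputable def bbr (b : B) : GL (Fin n × Fin n) (ZMod p) := AdM (r (β b))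

variable {m : ℕ} (e : Mt n (ZMod p) →ₗ[ZMod p] Vc p m) (s : Vc p m →ₗ[ZMod p] Mt n (ZMod p))
  (Y : Subgroup GQ → Vc p m)

/-- the linear algebra of the types -/
def TypY : Prop :=
  ∀ t, TamTyp r t → (∀ σ, Ty p F t σ → ∃ h : σ ∈ K.fixingSubgroup, TamTyp r ⟨σ, h⟩) ∧
    (∃ X : Vc p m, ∀ Adm σ, Ty p F t σ →
      RamData (TM r e s Adm) F σ X (Y (Subgroup.zpowers σ ⊔ F.fixingSubgroup))) ∧
    ∀ (Z X : Mt n (ZMod p)) (c : ZMod p), Z.trace = 0 → cj (r t) Z = Z → X ≠ 0 →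
      cj (r t) X = cb p t • X → Z * X - X * Z = c • X →
      Y (Subgroup.zpowers t.1 ⊔ F.fixingSubgroup) ⬝ᵥ e Z = c

/-- the local conditions -/
noncomputable def MuT (A : (GQ → Vc p m) → ZMod p → Prop) : Mu (TM r e s fun f => A f 0) :=
  ⟨A, psi p, Y⟩

end

/-- the first window -/
def Wa (d r : ℕ) : Finset (Fin d) := univ.filter fun j => j.1 < r

/-- the second window -/
def Wb (d r w : ℕ) : Finset (Fin d) := univ.filter fun j => r ≤ j.1 ∧ j.1 < r + w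

section
variable (p : ℕ) [hp : Fact p.Prime]

/-- the adjoint representation -/
def AdStmt : Prop :=
  (∀ (R : Type) [CommRing R] (n : ℕ),
    (∀ (A : GL (Fin n) R) X, (AdM A).val *ᵥ vc X = vc (A.val * X * A⁻¹.val)) ∧
    (∀ Z X : Mt n R, adM Z *ᵥ vc X = vc (Z * X - X * Z)) ∧
    (∀ (A : GL (Fin n) R) Z,
      (AdM A).val * adM Z * (AdM A)⁻¹.val = adM (A.val * Z * A⁻¹.val)) ∧
    (∀ A : GL (Fin n) R, AdM A = 1 ↔ IsScal A) ∧
    (∀ (A B : GL (Fin n) R) (c : R), A.val = c • B.val → AdM A = AdM B) ∧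
    ∀ (S : Type) [CommRing S] (f : R →+* S) (A : GL (Fin n) R),
      GeneralLinearGroup.map f (AdM A) = AdM (GeneralLinearGroup.map f A)) ∧
  ∀ n, 2 < p → ¬ p ∣ n → (∀ Z : Mt n (ZMod p), Z.trace = 0 → adM Z = 0 → Z = 0) ∧
    (∀ A ∈ Lm p n, ∃ Z : Mt n (ZMod p), Z.trace = 0 ∧ adM Z = A) ∧
    ∀ M, LieD (Gm p M n) (Lm p n)

/-- eigenvectors -/
def EigStmt : Prop :=
  ∀ (M : ℕ) (ι : Type) [Fintype ι] [DecidableEq ι],
    (∀ (γ h : GL ι (Rg p M)) c, Pf (h * γ * h⁻¹) c = Pf γ c) ∧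
    (∀ (γ : GL ι (Rg p M)) c (v : ι → Rg p M), (∃ i, rd p M (v i) ≠ 0) → γ.val *ᵥ v = c • v →
      Pf γ c = 0) ∧
    ∀ L (γ : GL ι (Rg p M)) c, 1 ≤ M → ND L (rs γ) (rd p M c) → (p : Rg p M) ^ 2 ∣ Pf γ c →
      ∃ v : ι → ZMod p, v ≠ 0 ∧ (rs γ).val *ᵥ v = rd p M c • v ∧
        ∀ (m : ℕ) A y, Ld 1 (γ ^ m) A → c ^ m = 1 + p * y → A *ᵥ v = rd p M y • v

/-- statements about all pairs of fields -/
def AllF (Q : ∀ (K F : IntermediateField ℚ Qb) [NumberField K] [NumberField F], Prop) : Prop :=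
  ∀ (K F : IntermediateField ℚ Qb) [NumberField K] [NumberField F], Fb p K F → Q K F

/-- the cyclotomic character -/
def ChiStmt : Prop :=
  AllF p fun K F _ _ => ∀ M, (∀ g, rd p M (chiM p K M g) = cb p g) ∧
    (∀ᶠ g in 𝓝 1, chiM p K M g = 1) ∧
    (∀ c : Co, c.Ok p K F → chiM p K M (toK K c.σ) = c.l) ∧
    (∀ (P : Ideal OQ) (g : GK K), P.IsMaximal → (p : OQ) ∉ P → g.1 ∈ P.inertia GQ →
      chiM p K M g = 1 ∧ psi p g.1 = 0) ∧
    (1 ≤ M → ∀ g ∈ GF K F, ∃ y, chiM p K M g = 1 + p * y ∧ rd p M y = psi p g.1) ∧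
    ∀ n d, ∃ e, Eok p K F M n d e

/-- inertia groups in `p`-extensions -/
def RestrStmt : Prop :=
  AllF p fun K F _ _ => ∀ c : Co, c.Ok p K F → ∀ N : Subgroup (GK K), N.Normal →
    (N : Set (GK K)) ∈ 𝓝 1 → (∀ g ∈ GF K F, ∃ k, g ^ p ^ k ∈ N) →
    (∀ u : GK K, u.1 ∈ c.P.inertia GQ → toK K c.σ * u * (toK K c.σ)⁻¹ * (u ^ c.l)⁻¹ ∈ N) ∧
    (toK K c.τ ∈ N → ∀ P (g : GK K), Iner F P g → P.under (𝓞 K) = pr K c → g ∈ N)

/-- existence of generators -/
def GenStmt : Prop :=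
  AllF p fun K F _ _ => ∀ O, (∀ P ∈ O, (p : OQ) ∈ P) →
    ∃ (B : Type) (_ : Fintype B) (β : B → GK K), Gen p F O β

/-- the finite model -/
def NuStmt : Prop :=
  AllF p fun K F _ _ => ∀ O, (∀ Q, Adm p F O Q (GF K F)) ∧
    (∀ (Q : Set (Ideal (𝓞 K))) N N', Adm p F O Q N → Adm p F O Q N' → Adm p F O Q (N ⊓ N')) ∧
    ∀ (B : Type) [Finite B] (β : B → GK K), Gen p F O β → (∀ P ∈ O, (p : OQ) ∈ P) →
    ∀ (t : ℕ → GK K) (d : ℕ) (U : Fin d → Type) [∀ j, Finite (U j)] (x : (Σ j, U j) → Co),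
      (∀ y, (x y).Ok p K F ∧ Ty p F (t y.1) (x y).σ) →
      (Function.Injective fun y => pr K (x y)) → ∀ (H : Type) [Group H] [Finite H],
      ∃ N, Am p F O β x t N ∧ ∀ θ : GK K →* H,
        Adm p F O (Set.range fun y => pr K (x y)) θ.ker → N ≤ θ.ker

/-- equidistribution for all correspondences -/
def EqEvStmt : Prop :=
  AllF p fun K F _ _ => ∀ O (B : Type) [Finite B] (β : B → GK K), Gen p F O β →
    ∀ M n d e, Eok p K F M n d e → ∀ Q : Set (Ideal (𝓞 K)), Q.Finite →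
    (∀ q ∈ Q, ∃ c : Co, c.Ok p K F ∧ pr K c = q) → ∀ t : GK K, Tame p F t →
    ∀ η, 0 < η → η ≤ 1 / 2 → ∀ᶠ s in 𝓝[>] (1 : ℝ),
    ∀ (U : Finset (Ideal (𝓞 K))) (x : Ideal (𝓞 K) → Co),
      (∀ q ∈ U, Typ p K F t q ∧ CoAt p F t q (x q)) → 1 - η ≤ mass (Typ p K F t) s U →
      EqW p F O M n d e Q t (fun q : U => wt s U q) (fun q => toK K (x q).σ) (4 * η)

/-- statements about all residual representations -/
def AllZ (Q : ∀ (K F : IntermediateField ℚ Qb) [NumberField K] [NumberField F] (n : ℕ),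
    (GK K →* GL (Fin n) (ZMod p)) → Prop) : Prop :=
  ∀ (K F : IntermediateField ℚ Qb) [NumberField K] [NumberField F] (n : ℕ)
    (r : GK K →* GL (Fin n) (ZMod p)), K ≤ F → UnrRes F r → Q K F n r

/-- the basic properties -/
def BaseZStmt : Prop :=
  AllZ p fun K F _ _ n r => Fb p K F ∧ ¬ p ∣ (GF K F).index ∧
    (∀ g ∈ GF K F, AdM (r g) = 1 ∧ cb p g = 1) ∧ (∃ N : Subgroup (GK K), N.Normal ∧
      (∀ g, g ∈ N ↔ IsScal (r g)) ∧
      (∀ g : GK K, g.1 ∈ F.fixingSubgroup ↔ g ∈ N ∧ cb p g = 1) ∧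
      ∃ g ∈ N, cb p g ≠ 1) ∧ (∃ g ∈ F.fixingSubgroup, psi p g ≠ 0) ∧
    (∃ (d : ℕ) (e : Mt n (ZMod p) →ₗ[ZMod p] Vc p d) (s : _), SlB e s) ∧
    ∀ (d : ℕ) (e : Mt n (ZMod p) →ₗ[ZMod p] Vc p d) s, SlB e s → ∀ Adm,
      Mr (TM r e s Adm) F ∧ (∀ g, IsScal (r g) → (TM r e s Adm).R g = 1) ∧
      (∃ g, (TM r e s Adm).R g ≠ 1) ∧ ∀ W : Submodule (ZMod p) (Vc p d),
        (∀ g, ∀ v ∈ W, (TM r e s Adm).R g *ᵥ v ∈ W) → W = ⊥ ∨ W = ⊤

/-- the linear algebra of a type -/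
def TypZStmt : Prop :=
  AllZ p fun _ F _ _ n r => (∀ t, TamTyp r t → ND (Lm p n) (AdM (r t)) (cb p t)) ∧
    ∀ (d : ℕ) (e : Mt n (ZMod p) →ₗ[ZMod p] Vc p d) s, SlB e s → ∃ Y, TypY F r e s Y

/-- statements about all finite models -/
def AllM (Q : ∀ (K F : IntermediateField ℚ Qb) [NumberField K] [NumberField F] (n : ℕ)
    (_ : GK K →* GL (Fin n) (ZMod p)) (_ : ℕ) (_ : Set (Ideal OQ)) (B : Type) (_ : B → GK K)
    (d : ℕ) (U : Fin d → Type) (_ : (Σ j, U j) → Co) (_ : ℕ → GK K) (_ : Subgroup (GK K)),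
    Prop) : Prop :=
  AllZ p fun K F _ _ n r => ∀ M O B β d U x t N, 1 ≤ M → (∀ j, TamTyp r (t j)) →
    Am p F O β x t N → Q K F n r M O B β d U x t N

open Classical in
/-- from finite sets of primes to densities -/
def GlueStmt : Prop :=
  AllF p fun K F _ _ => ∀ O (B : Type) [Finite B] (β : B → GK K), Gen p F O β →
    ∀ (M n d : ℕ) (t : ℕ → GK K), (∀ j, Tame p F (t j)) →
    ∀ (A : (ℕ → Co) → Prop) (Z : (Fin d → Ideal (𝓞 K)) → Prop) (ε₁ ε₂ η : ℝ) (ee : ℕ), 0 < η →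
    Eok p K F M n d ee → Pot p F t d A ε₁ →
    (∀ (U : Fin d → Type) [∀ j, Fintype (U j)] (x : (Σ j, U j) → Co) (wt : ∀ j, U j → ℝ),
      Prob wt → (∀ j u, wt j u ≤ η) → (∀ y, (x y).Ok p K F ∧ Ty p F (t y.1) (x y).σ) →
      (Function.Injective fun y => pr K (x y)) → (∀ j : Fin d,
        EqW p F O M n d ee (Prior K x j) (t j) (wt j) (fun u => toK K (x ⟨j, u⟩).σ) η) →
      (Ex wt fun q => if (∃ c, Val p F t d c ∧ (∀ j : Fin d, pr K (c j) = pr K (x ⟨j, q j⟩)) ∧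
        ¬ A c) ∧ Z (fun j => pr K (x ⟨j, q j⟩)) then (1 : ℝ) else 0) ≤ ε₂) →
    1 - ε₁ - ε₂ ≤ tupDens (fun j => Typ p K F (t j)) d fun q => Function.Injective q ∧ ¬ Z q

end

end Pool.Agent.MP_f68ac8_nt.Zv

end
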