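import Mathlib
import Pool.Agent.Mg.Fe23604m.Gec02e9
import Pool.Agent.Mg.Fe23604m.G926323

set_option linter.all false

/-! Selmer groups of pairs, hitting times and densities. -/

namespace Pool.Agent.MP_f68ac8_nt.Ze

open NumberField Matrix Finset Filter Ev Pv Sv Zv
open scoped Pointwise Topology BigOperators

/-- the data attached to an auxiliary prime -/
abbrev Co : Type := Qv.Co

/-- the potential for the hitting time -/
noncomputable def gg (p s : ℕ) : ℝ := if s ≤ 1 then 0 else (3 / 2) ^ Nat.log p s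

/-- the common zeros in a window -/
def Zs {p : ℕ} (T : Finset ℕ) (v : ℕ → ℕ → ZMod p) (r w : ℕ) : Finset ℕ :=
  (Ico r (r + w)).filter fun j => ∀ z ∈ T, v z j = 0

section
variable {p : ℕ} [hp : Fact p.Prime] {K : IntermediateField ℚ Qb} (F : IntermediateField ℚ Qb)
  {D : Md p K} (U : Mu D)

/-- there is a nonzero unramified pair -/
def Un2 (r : ℕ) (c : ℕ → Co) : Prop :=
  ∃ f u, (f ≠ 0 ∨ u ≠ 0) ∧ SelA F U r c ∅ f u ∧ ∀ j < r, f (c j).τ = 0

open Classical in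
/-- the times in a window where all classes are unramified -/
noncomputable def zc (d r w : ℕ) (c : ℕ → Co) : Finset ℕ :=
  (Ico r (r + w)).filter fun j => ∀ f u, SelA F U d c ∅ f u → f (c j).τ = 0

/-- all classes are generic -/
def Good2 (d k r w : ℕ) (c : ℕ → Co) : Prop :=
  (∀ f u, SelA F U d c ∅ f u → f ≠ 0 ∨ u ≠ 0 →
    k ≤ ((range r).filter fun j => f (c j).τ ≠ 0).card) ∧
  ∀ Z, zc F U d r w c ⊆ Z → Z ⊆ Ico r (r + w) → p * szA F U d c Z ≤ p ^ Z.card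

/-- the Selmer group vanishes at some time in the last window -/
def Hit (d w : ℕ) (c : ℕ → Co) : Prop :=
  ∃ a, d ≤ a + w ∧ a ≤ d ∧ (∀ f, SelA F U a c ∅ f 0 → f = 0) ∧
    ∃ j < a, U.l ((c j).σ ^ (c j).m) ≠ 0

/-- a class with given ramification whose last ramified prime is at time `z` -/
def BadW (X : ℕ → Vc p D.d) (d z : ℕ) (v : ℕ → ZMod p) (u : ZMod p) (c : ℕ → Co) : Prop :=
  ∃ f, SelA F U d c ∅ f u ∧ (∀ j < z, f (c j).τ = v j • X j) ∧ f (c z).τ ≠ 0 ∧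
    ∀ j, z < j → j < d → f (c j).τ = 0

variable (p) (O : Set (Ideal OQ))

/-- equidistribution for all correspondences unramified outside `Q` -/
def EqG {H R I : Type} [Group H] [Fintype H] (χ : GK K → R) (Ψ : I → H → R → ℂ) (e : ℕ) (η : ℝ)
    (Q : Set (Ideal (𝓞 K))) (t : GK K) (V : Type) [Fintype V] (w : V → ℝ) (σ : V → GK K) :
    Prop :=
  ∀ C : Subgroup (GK K × H), (∃ N, Adm p F O Q N ∧ ∀ g ∈ N, (g, 1) ∈ C) →
    (∀ g, ∃ h, (g, h) ∈ C) → ∀ κ, Sh p F t (FC C χ (Ψ κ)) →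
      ‖∑ u, w u • 𝔼 a : Exn e, FC C χ (Ψ κ) (σ u ^ (a.1 : ℕ))‖ ≤ η

/-- a property of finite sets of primes that holds for almost all masses -/
def Evt [NumberField K] (E : Set (Ideal (𝓞 K)) → GK K → ∀ (V : Type) [Fintype V], (V → ℝ) →
    (V → GK K) → Prop) : Prop :=
  ∃ η : ℝ, 0 < η ∧ ∀ Q : Set (Ideal (𝓞 K)), Q.Finite →
    (∀ q ∈ Q, ∃ c : Co, c.Ok p K F ∧ pr K c = q) → ∀ t : GK K, Tame p F t →
    ∀ᶠ s in 𝓝[>] (1 : ℝ), ∀ (V : Finset (Ideal (𝓞 K))) (x : Ideal (𝓞 K) → Co),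
      (∀ q ∈ V, Typ p K F t q ∧ CoAt p F t q (x q)) → 1 - η ≤ mass (Typ p K F t) s V →
      E Q t V (fun q => wt s V q) fun q => toK K (x q).σ

/-- the finite model of the Galois group -/
structure Am {B : Type} {d : ℕ} {V : Fin d → Type} (β : B → GK K) (x : (Σ j, V j) → Co)
    (t : ℕ → GK K) (N : Subgroup (GK K)) : Prop where
  co : ∀ y, (x y).Ok p K F ∧ Ty p F (t y.1) (x y).σ
  inj : Function.Injective fun y => pr K (x y)
  adm : Adm p F O (Set.range fun y => pr K (x y)) N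
  le : N ≤ GF K F
  gen : ∀ g, ∃ w, (lw β x w)⁻¹ * g ∈ N

end

open Classical in
/-- most vectors take a given value many times in a window -/
def CombStmt : Prop :=
  ∀ (N k : ℕ) (ε : ℝ), 0 < ε → ∃ w, ∀ (Ω : Type) [Fintype Ω] (a : Ω), Fintype.card Ω ≤ N →
    ∀ r d : ℕ, r + w ≤ d → ((univ.filter fun v : Fin d → Ω =>
      (univ.filter fun j : Fin d => r ≤ j.1 ∧ j.1 < r + w ∧ v j = a).card < k).card : ℝ) ≤
      ε * Fintype.card Ω ^ d

open Classical in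
/-- superadditivity and events that are decided in one step -/
def IdtStmt : Prop :=
  ∀ (K : Type) [Field K] [NumberField K] (d : ℕ) (T : ℕ → Ideal (𝓞 K) → Prop),
    (∀ f g, Unit01 f → Unit01 g → (∀ q, f q ≤ g q) → idT d T f ≤ idT d T g) ∧
    (∀ f g h, Unit01 f → Unit01 g → Unit01 h → (∀ q, f q + g q ≤ 1 + h q) →
      idT d T f + idT d T g ≤ 1 + idT d T h) ∧
    ((∀ j, 1 ≤ idMean (T j) fun _ => 1) → ∀ (a : Fin d) (G : (Fin d → Ideal (𝓞 K)) → Prop)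
      (η : ℝ), (∀ q q', (∀ j ≤ a, q j = q' j) → G q → G q') →
      (∀ q, 1 - η ≤ idMean (T a) fun x => if G (Function.update q a x) then 1 else 0) →
      1 - η ≤ idT d T fun q => if G q then 1 else 0)

section
variable (p : ℕ) [hp : Fact p.Prime]

/-- dual classes for a given ramification -/
def CtrlStmt : Prop :=
  AllH p fun _ F _ D U X t => ∀ z c v u, Val p F t z c →
    ∃ (ξ : Fin z → Fin D.d → F) (E : Finset ℕ), IndD (X z) ξ ∧ ∀ x, New p F t z c x → x.l ∉ E →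
      BadW F U X (z + 1) z v u (Function.update c z x) →
      ∀ b, Th D F (ξ b) (x.σ ^ x.m) ⬝ᵥ X z = 0

/-- unramified pairs die -/
def T0Stmt : Prop :=
  AllH p fun _ F _ D U _ t => ∀ r d, r ≤ d → Pot p F t d (Un2 F U r) (p * sz0 F D / p ^ r) ∧
    Pot p F t d (fun c => ∀ j < r, U.l ((c j).σ ^ (c j).m) = 0) (1 / p ^ r)

/-- classes with given ramification -/
def T1Stmt : Prop :=
  AllH p fun _ F _ D U X t => ∀ z d v u, z < d →
    Pot p F t d (BadW F U X d z v u) (p ^ 2 * sz0 F D / p ^ d)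

/-- several classes with given ramification -/
def T3Stmt : Prop :=
  AllH p fun _ F _ _ U X t => ∀ d (T : Finset ℕ) (v : ℕ → ℕ → ZMod p) (u : ℕ → ZMod p),
    (∀ z ∈ T, z < d) →
    Pot p F t d (fun c => ∀ z ∈ T, BadW F U X (z + 1) z (v z) (u z) c) (1 / ∏ z ∈ T, p ^ z)

/-- several classes with given ramification and a large Selmer group -/
def T2Stmt : Prop :=
  AllH p fun _ F _ D U X t => ∀ r b z₀ d (T : Finset ℕ) (v : ℕ → ℕ → ZMod p) (u : ℕ → ZMod p)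
    (Z : Finset ℕ), r ≤ b → b ≤ z₀ → z₀ ≤ d → T ⊆ Ico z₀ d → Z ⊆ Ico r b →
    Pot p F t d (fun c => (∀ z ∈ T, BadW F U X (z + 1) z (v z) (u z) c) ∧ ¬ Unr F U r c ∅ ∧
        p ^ Z.card < p * szA F U d c Z)
      (((2 / p) ^ (z₀ - b) * (sz0 F D * p ^ (b + 1)) +
        (3 + (d - z₀ : ℕ)) * (p ^ 2 / p ^ Z.card)) / ∏ z ∈ T, p ^ z)

/-- a basis in echelon form -/
def EchStmt : Prop :=
  AllH p fun _ F _ _ U X t => ∀ d k r w z₀ c, Val p F t d c → r + w ≤ z₀ → z₀ ≤ d →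
    ¬ Good2 F U d k r w c → Un2 F U r c ∨ (∃ z < z₀, ∃ v u, BadW F U X d z v u c) ∨
      (∃ z ∈ Ico z₀ d, ∃ v u, BadW F U X (z + 1) z v u c ∧
        ((range r).filter fun j => v j ≠ 0).card < k) ∨
      ∃ T ⊆ Ico z₀ d, ∃ (v : ℕ → ℕ → ZMod p) (u : ℕ → ZMod p),
        (∀ z ∈ T, BadW F U X (z + 1) z (v z) (u z) c) ∧ ¬ Unr F U r c ∅ ∧
        p ^ (Zs T v r w).card < p * szA F U d c (Zs T v r w)

/-- statements about all modules -/
def AllY (Q : ∀ (K F : IntermediateField ℚ Qb) [NumberField F] (D : Md p K), Mu D → Prop) : Prop :=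
  ∀ (K F : IntermediateField ℚ Qb) [NumberField K] [NumberField F] (D : Md p K) (U : Mu D)
    (hB : Fb p K F) (N : ℕ) (cf : (Fin D.d → F) → Fin N → ZMod p), Hy U hB cf → Q K F D U

/-- all classes are generic with high probability -/
def L2Stmt : Prop :=
  AllY p fun _ F _ _ U => ∀ ε : ℝ, 0 < ε → ∃ w, ∀ k, ∃ r d₀, r + w ≤ d₀ ∧
    ∀ X t, HyT F U X t → ∀ d, d₀ ≤ d → Pot p F t d (fun c => ¬ Good2 F U d k r w c) ε

/-- one step towards the vanishing of the Selmer group -/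
def Hit1Stmt : Prop :=
  AllH p fun _ F _ _ U _ t => ∀ a c, Val p F t a c → ¬ Unr F U a c ∅ → 1 < szA F U a c ∅ →
    Stp p F t a c (fun c' => gg p (szA F U (a + 1) c' ∅)) (7 / 8 * gg p (szA F U a c ∅))

/-- the Selmer group vanishes at some time with high probability -/
def HitStmt : Prop :=
  AllY p fun _ F _ _ U => ∀ ε : ℝ, 0 < ε → ∃ w d₀, w ≤ d₀ ∧
    ∀ X t, HyT F U X t → ∀ d, d₀ ≤ d → Pot p F t d (fun c => ¬ Hit F U d w c) ε

open Classical in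
/-- sets with few translates have small density -/
def ChebStmt : Prop :=
  AllF p fun K F _ _ => ∀ t : GK K, Tame p F t → ∀ N : Subgroup (GK K), N.Normal →
    (N : Set (GK K)) ∈ 𝓝 1 → N ≤ GF K F → ∀ Bad : GK K → Prop,
    (∀ n ∈ N, ∀ g, Bad g → Bad (n * g)) → (∀ g (k : ℕ), Bad g → Bad (g ^ k)) →
    ∀ l k : ℕ, 0 < k → (∀ g : GK K, Ty p F t g → ∃ γ : Fin k → GK K, (∀ i, γ i ∈ GF K F) ∧
      ∀ h ∈ GF K F, (univ.filter fun i => Bad (γ i * (g * h))).card ≤ l) →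
    ∀ f : Ideal (𝓞 K) → ℝ, Unit01 f → ∀ E : Finset ℕ, (∀ c : Co, c.Ok p K F → Ty p F t c.σ →
      c.l ∉ E → ¬ Bad (toK K c.σ) → 1 ≤ f (pr K c)) → 1 - l / k ≤ idMean (Typ p K F t) f

/-- existence of generators -/
def GenStmt : Prop :=
  AllF p fun K F _ _ => ∀ O : Set (Ideal OQ),
    (∀ P ∈ O, (p : OQ) ∈ P ∨ ¬ P.inertia GQ ≤ F.fixingSubgroup) →
    ∃ (B : Type) (_ : Fintype B) (β : B → GK K), Gen p F O β

/-- the finite model -/
def NuStmt : Prop :=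
  AllF p fun K F _ _ => ∀ O (B : Type) [Finite B] (β : B → GK K), Gen p F O β →
    ∀ (t : ℕ → GK K) (d : ℕ) (V : Fin d → Type) [∀ j, Finite (V j)] (x : (Σ j, V j) → Co),
      (∀ y, (x y).Ok p K F ∧ Ty p F (t y.1) (x y).σ) →
      (Function.Injective fun y => pr K (x y)) → ∀ (H : Type) [Group H] [Finite H],
      ∃ N, Am p F O β x t N ∧ ∀ θ : GK K →* H,
        Adm p F O (Set.range fun y => pr K (x y)) θ.ker → N ≤ θ.ker

/-- equidistribution for all correspondences -/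
def EqEvStmt : Prop :=
  AllF p fun K F _ _ => ∀ O (B : Type) [Finite B] (β : B → GK K), Gen p F O β →
    ∀ (H R I : Type) [Group H] [Fintype H] [CommMonoid R] [Finite R] [Finite I] (χ : GK K →* R)
    (Ψ : I → H → R → ℂ), (∀ᶠ g in 𝓝 1, χ g = 1) → (∀ κ h c, ‖Ψ κ h c‖ ≤ 1) →
    (∀ κ k h c, Ψ κ (k * h * k⁻¹) c = Ψ κ h c) → ∃ e, 1 < e ∧ p ∣ e ∧
    (∀ g : GK K, g ^ e ∈ GF K F) ∧ ∀ η, 0 < η → Evt p F (EqG p F O χ Ψ e η)

open Classical in
/-- from finite sets of primes to densities -/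
def GlueStmt : Prop :=
  AllF p fun K F _ _ => ∀ (d : ℕ) (t : ℕ → GK K), (∀ j, Tame p F (t j)) → ∀ E, Evt p F E →
    ∀ (H Z : (Fin d → Ideal (𝓞 K)) → Prop) (ε₁ ε₂ η : ℝ), 0 < η →
    (∀ q, H q → Function.Injective q) →
    (1 - ε₁ ≤ idT d (fun j => Typ p K F (t j)) fun q => if H q then 1 else 0) →
    (∀ (V : Fin d → Type) [∀ j, Fintype (V j)] (x : (Σ j, V j) → Co) (wt : ∀ j, V j → ℝ),
      Prob wt → (∀ j u, wt j u ≤ η) → (∀ y, (x y).Ok p K F ∧ Ty p F (t y.1) (x y).σ) →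
      (Function.Injective fun y => pr K (x y)) → (∀ j : Fin d,
        E (Prior K x j) (t j) (V j) (wt j) fun u => toK K (x ⟨j, u⟩).σ) →
      (Ex wt fun q => if H (fun j => pr K (x ⟨j, q j⟩)) ∧ Z (fun j => pr K (x ⟨j, q j⟩))
        then (1 : ℝ) else 0) ≤ ε₂) →
    1 - ε₁ - ε₂ ≤ tupDens (fun j => Typ p K F (t j)) d fun q => Function.Injective q ∧ ¬ Z q

end

end Pool.Agent.MP_f68ac8_nt.Ze
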