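import Mathlib
import Pool.Agent.Mg.Fe23604m.G8a6e81
import Pool.Agent.Mg.Fe23604m.G2f5e1d
import Pool.Agent.MP_f68ac8_nt.ZkDefs
import Pool.Agent.Mg.Fe23604m.Gb5685d
import Pool.Agent.Mg.Fe23604m.G200097

set_option linter.all false

section

/-! Cyclic fields of degree `p` and word equations. -/

namespace Pool.Agent.MP_f68ac8_nt.Zk

open NumberField Finset Filter Ev Pv Sv Zv
open scoped Pointwise Topology BigOperators commutatorElement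

/-- the data attached to an auxiliary prime -/
abbrev Co : Type := Qv.Co

section
variable (p : ℕ) [hp : Fact p.Prime]

/-- characters of order `p` and conductor `l` -/
def ChOk (l : ℕ) (χ : GQ →* Cp p) : Prop :=
  ∃ (_ : NeZero l) (ψ : (ZMod l)ˣ →* Cp p), Function.Surjective ψ ∧ ∀ g, χ g = ψ (cyc l g)

/-- a chosen character of order `p` and conductor `l` -/
noncomputable def ch (l : ℕ) : GQ →* Cp p := Classical.epsilon (ChOk p l)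

/-- linking numbers -/
noncomputable def lk (l m : ℕ) : ZMod p :=
  (ch p m (Classical.epsilon fun σ => ∃ P : Ideal OQ, P.IsMaximal ∧ (l : OQ) ∈ P ∧
    IsFrob l P σ)).toAdd

/-- primes congruent to one -/
def P1 (l : ℕ) : Prop := l.Prime ∧ l ≡ 1 [MOD p]

variable {p} {d : ℕ}

/-- products of the chosen characters -/
noncomputable def chA (l : Fin d → ℕ) (a : Fin d → (ZMod p)ˣ) : GQ →* Cp p :=
  ∏ j, ch p (l j) ^ (a j : ZMod p).val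

/-- there is a homomorphism that is unramified over the fixed field of `χ` -/
def Adz {P : Type} [Group P] (T : Fil p P) (χ : GQ →* Cp p) : Prop :=
  ∃ θ : GQ →* P, (θ.ker : Set GQ) ∈ 𝓝 1 ∧ (∀ g, T.pi (θ g) = χ g) ∧
    (∀ Q : Ideal OQ, Q.IsMaximal → ∀ g ∈ Q.inertia GQ, χ g = 1 → θ g = 1) ∧
    θ.range ⊔ T.F 2 = ⊤

/-- induced representations -/
structure IndR {ι : Type} [Fintype ι] [DecidableEq ι] (ϖ : GZ p ι → ZMod p) (χ : GQ →* Cp p)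
    (Θ : GQ →* GZ p ι) : Prop where
  nhds : ∀ k, ∀ᶠ g in 𝓝 (1 : GQ), Θ g ∈ Cg p ι k
  pi : ∀ g, ϖ (Θ g) = (χ g).toAdd
  unr : ∀ Q : Ideal OQ, Q.IsMaximal → ∀ g ∈ Q.inertia GQ, χ g = 1 → Θ g = 1
  ne : ∃ g, χ g = 1 ∧ Θ g ≠ 1

variable (p) {K : IntermediateField ℚ Qb}

/-- subgroups that cut out `p`-extensions unramified outside `Q` -/
structure AdmP (Q : Set (Ideal (𝓞 K))) (N : Subgroup (GK K)) : Prop where
  nrm : N.Normal
  nhds : (N : Set (GK K)) ∈ 𝓝 1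
  pg : ∀ g : GK K, ∃ k, g ^ p ^ k ∈ N
  unr : ∀ (P : Ideal OQ) (g : GK K), P.IsMaximal → g.1 ∈ P.inertia GQ → P.under (𝓞 K) ∉ Q → g ∈ N

variable (K) in
/-- the Galois elements attached to the words -/
noncomputable def lwp {Λ : Type} (x : Λ → Co) : FreeGroup Λ →* GK K :=
  FreeGroup.lift fun y => toK K (x y).τ

/-- replace the letters by powers -/
def sb {Λ : Type} (n : Λ → ℕ) : FreeGroup Λ →* FreeGroup Λ :=
  FreeGroup.lift fun l => FreeGroup.of l ^ n l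

variable (F : IntermediateField ℚ Qb)

/-- the finite model of the Galois group -/
structure AmP {Λ : Type} (x : Λ → Co) (N : Subgroup (GK K)) : Prop where
  co : ∀ y, (x y).Ok p K F ∧ Ty p F 1 (x y).σ
  inj : Function.Injective fun y => pr K (x y)
  adm : AdmP p (Set.range fun y => pr K (x y)) N
  gen : ∀ g, ∃ w, (lwp K x w)⁻¹ * g ∈ N

end

section
variable (p : ℕ) [hp : Fact p.Prime]

/-- statements about the rational numbers and the cyclotomic field -/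
def AllQ (Q : ∀ (K F : IntermediateField ℚ Qb) [NumberField K] [NumberField F], Prop) : Prop :=
  ∀ (K F : IntermediateField ℚ Qb) [NumberField K] [NumberField F], Fb p K F → K = ⊥ →
    (∀ g, g ∈ F.fixingSubgroup ↔ cyc p g = 1) → Q K F

/-- existence of the fields -/
def BaseStmt : Prop :=
  2 < p → ∃ (K F : IntermediateField ℚ Qb) (_ : NumberField K) (_ : NumberField F),
    Fb p K F ∧ K = ⊥ ∧ (∀ g, g ∈ F.fixingSubgroup ↔ cyc p g = 1) ∧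
    ∃ φ : Ideal (𝓞 K) ≃ Ideal (𝓞 ℚ), ∀ q, Ideal.absNorm (φ q) = Ideal.absNorm q ∧
      ((φ q).IsMaximal ↔ q.IsMaximal)

/-- primes of the rational numbers -/
def PrimStmt : Prop :=
  AllQ p fun K F _ _ => (∀ g : GQ, (toK K g).1 = g) ∧ (∀ g : GK K, g ^ (p - 1) ∈ GF K F) ∧
    (∀ q : Ideal (𝓞 K), q.IsMaximal → (Ideal.absNorm q).Prime ∧ ∀ P : Ideal OQ, P.IsMaximal →
      (P.under (𝓞 K) = q ↔ (Ideal.absNorm q : OQ) ∈ P)) ∧
    (∀ q : Ideal (𝓞 K), Typ p K F 1 q ↔ q.IsMaximal ∧ Ideal.absNorm q ≡ 1 [MOD p]) ∧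
    ∀ c : Co, c.Ok p K F → (pr K c).IsMaximal ∧ Ideal.absNorm (pr K c) = c.l ∧
      (Ty p F 1 c.σ → P1 p c.l ∧ c.m = 1)

/-- the chosen characters -/
def ChStmt : Prop :=
  AllQ p fun K F _ _ => (∀ l, P1 p l → ChOk p l (ch p l) ∧ ((ch p l).ker : Set GQ) ∈ 𝓝 1 ∧
      ∀ P : Ideal OQ, P.IsMaximal → (l : OQ) ∉ P → ∀ g ∈ P.inertia GQ, ch p l g = 1) ∧
    (∀ c : Co, c.Ok p K F → P1 p c.l → ch p c.l c.τ ≠ 1 ∧
      (∀ m, P1 p m → m ≠ c.l → (ch p m c.σ).toAdd = lk p c.l m ∧ ch p m c.τ = 1) ∧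
      ∃ κ : ZMod p, κ ≠ 0 ∧ ∀ m, P1 p m → m ≠ c.l → lk p m c.l = κ * KK p m c.σ) ∧
    ∀ (d : ℕ) (l : Fin d → ℕ), Function.Injective l → (∀ j, P1 p (l j)) →
      Ind F 1 (Sum.elim (fun j g => (ch p (l j) g).toAdd) fun j => KK p (l j)) ∧
      CycCh p (Set.range l) = Set.range (chA l) ∧ Function.Injective (chA (p := p) l)

/-- generators of `p`-extensions -/
def GenPStmt : Prop :=
  AllQ p fun K F _ _ => (∀ Q : Set (Ideal (𝓞 K)), AdmP p Q ⊤ ∧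
      ∀ N N', AdmP p Q N → AdmP p Q N' → AdmP p Q (N ⊓ N')) ∧
    (∀ c : Co, c.Ok p K F → ∀ N : Subgroup (GK K), N.Normal → (N : Set (GK K)) ∈ 𝓝 1 →
      (∀ g : GK K, ∃ k, g ^ p ^ k ∈ N) → toK K c.τ ∈ N → ∀ (P : Ideal OQ) (g : GK K),
      P.IsMaximal → g.1 ∈ P.inertia GQ → P.under (𝓞 K) = pr K c → g ∈ N) ∧
    (∀ (J : Type) (c : J → Co), (∀ j, (c j).Ok p K F) → ∀ N,
      AdmP p (Set.range fun j => pr K (c j)) N →
      Subgroup.closure (Set.range fun j => toK K (c j).τ) ⊔ N = ⊤) ∧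
    ∀ (Λ : Type) [Finite Λ] (x : Λ → Co), (∀ y, (x y).Ok p K F ∧ Ty p F 1 (x y).σ) →
      (Function.Injective fun y => pr K (x y)) → ∀ (H : Type) [Group H] [Finite H],
      ∃ N, AmP p F x N ∧
        (∀ θ : GK K →* H, AdmP p (Set.range fun y => pr K (x y)) θ.ker → N ≤ θ.ker) ∧
        ∀ θ : GK K →* Cp p, AdmP p (Set.range fun y => pr K (x y)) θ.ker → N ≤ θ.ker

/-- induction -/
def IndStmt : Prop :=
  ∀ n, ∃ (R : Subgroup (GZ p (ZMod p × Fin n))) (ϖ : _), Chr R ϖ ∧ Cg p _ 1 ≤ R ∧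
    ∀ χ : GQ →* Cp p, IsOpen (χ.ker : Set GQ) → (∃ g, χ g ≠ 1) → ¬ UnrFM p n χ.ker →
      ∃ Θ, IndR ϖ χ Θ ∧ Θ.range ≤ R

/-- the image of the induced representation -/
def ClsStmt : Prop :=
  ∀ (ι : Type) [Fintype ι] [DecidableEq ι] (R : Subgroup (GZ p ι)) ϖ χ Θ, Chr R ϖ →
    IndR ϖ χ Θ → Θ.range ≤ R → Cls Θ.range ϖ ∧ ∀ S, Hm Θ.range ϖ S → Adz S.T χ

end

end Pool.Agent.MP_f68ac8_nt.Zk

end

section

/-! Uniform quotients of all dimensions. -/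

namespace Pool.Agent.MP_f68ac8_nt.Zk

open NumberField Finset Filter Ev Pv Sv Zv
open scoped Pointwise Topology BigOperators commutatorElement

section
variable (p : ℕ) [hp : Fact p.Prime]

/-- continuity -/
def TopStmt : Prop :=
  ∀ (H : Subgroup GQ) (n : ℕ), (IsClosed (H : Set GQ) → ∀ ρ : H →ₜ* GL (Fin n) ℤ_[p],
      cl ρ.toMonoidHom.range ≤ ρ.toMonoidHom.range) ∧
    (∀ U : Subgroup (GZ p (Fin n)), U.topologicalClosure ≤ cl U) ∧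
    (∀ (ρ : H →ₜ* GL (Fin n) ℤ_[p]) k, ∀ᶠ g in 𝓝 (1 : H), ρ g ∈ Cg p (Fin n) k) ∧
    ∀ ψ : H →* GZ p (Fin n), (∀ k, ∀ᶠ g in 𝓝 (1 : H), ψ g ∈ Cg p (Fin n) k) → Continuous ψ

/-- the second layer -/
def Ar2Stmt : Prop :=
  AllO p fun _ _ ζ => ∀ r (S₁ : Sy p) co₁ (S₂ : Sy p) co₂, Cd ζ 3 r S₁ co₁ → Cd ζ p 2 S₂ co₂ →
    ∀ χ : GQ →* Cp p, (∃ g, χ g ≠ 1) → ¬ Adz S₁.T χ → ¬ Adz S₂.T χ →
    ∀ (Δ : Type) [Group Δ], Two p Δ → ∀ θ : GQ → Δ, MulK χ θ →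
    (∀ a, ∃ u, χ u = 1 ∧ θ u = a) → {g | χ g = 1 ∧ θ g = 1} ∈ 𝓝 (1 : GQ) →
    (∀ Q : Ideal OQ, Q.IsMaximal → ∀ g ∈ Q.inertia GQ, χ g = 1 → θ g = 1) →
    DlQ p Δ ((2 * p * r) ^ 2)

/-- uniform quotients give representations of bounded dimension -/
def ArStmt : Prop :=
  AllO p fun _ _ ζ => ∀ r (S₁ : Sy p) co₁ (S₂ : Sy p) co₂, Cd ζ 3 r S₁ co₁ → Cd ζ p 2 S₂ co₂ →
    ∃ N, ∀ χ : GQ →* Cp p, IsOpen (χ.ker : Set GQ) → (∃ g, χ g ≠ 1) → UnrFM p N χ.ker →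
      ¬ Adz S₁.T χ → ¬ Adz S₂.T χ → UnifFM p χ.ker

end

end Pool.Agent.MP_f68ac8_nt.Zk

end
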