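import Mathlib
import Pool.Agent.Mg.Fe23604m.G200097
import Pool.Agent.Mg.Fe23604m.G170b11

set_option linter.all false

section

/-! Kernels, marked primes and the passage to natural density. -/

namespace Pool.Agent.MP_f68ac8_nt.Nd

open Finset Filter
open Zv (Ex Prob)
open scoped BigOperators

/-- the kernel -/
noncomputable def Kc (c x : ℝ) : ℝ :=
  ‖∫ u in (0 : ℝ)..1, Complex.exp (Complex.I * (c * u * x : ℝ))‖ ^ 2

section
variable (Λ : Finset ℕ) (W : Fin 4 → ℕ → ℝ) {d : ℕ}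

/-- the mass of a mark -/
noncomputable def ms (m : Fin 4) : ℝ := ∑ l ∈ Λ, W m l

/-- the weights of a sequence of marks -/
noncomputable def wm (μ : Fin d → Fin 4) (j : Fin d) (u : Λ) : ℝ := W (μ j) u / ms Λ W (μ j)

variable {Λ}

/-- the product of a tuple -/
def np (q : Fin d → Λ) : ℕ := ∏ j, (q j : ℕ)

/-- the indices with a given mark -/
def mk (μ : Fin d → Fin 4) (m : Fin 4) : Finset (Fin d) := univ.filter fun j => μ j = m

end

/-- parameters -/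
structure Par where
  s : ℝ
  h : ℝ
  Z : ℝ
  Y : ℝ
  k : ℕ
  E : Finset ℕ
  Λ : Finset ℕ

namespace Par
variable (p : Par)

/-- tiny primes -/
noncomputable def ti : Finset ℕ := p.Λ.filter fun l => (l : ℝ) ≤ p.Z

/-- small primes -/
noncomputable def sm : Finset ℕ := p.Λ.filter fun l => p.Z < l ∧ (l : ℝ) ≤ p.Y ∧ l ∉ p.E

/-- large primes -/
noncomputable def lg : Finset ℕ := p.Λ.filter fun l => p.Y < l

/-- the weights of the marks tiny, small, medium, large -/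
noncomputable def W : Fin 4 → ℕ → ℝ :=
  ![fun l => if l ∈ p.ti then (l : ℝ) ^ (-p.s) else 0,
    fun l => if l ∈ p.sm then (l : ℝ) ^ (-p.s) else 0,
    fun l => if l ∈ p.ti ∨ l ∈ p.sm ∨ l ∉ p.Λ then 0 else
      if l ∈ p.lg then (l : ℝ) ^ (-p.s) - wl p.s p.h p.k l else (l : ℝ) ^ (-p.s),
    fun l => if l ∈ p.lg then wl p.s p.h p.k l else 0]

/-- equidistribution of the large primes -/
def Eqd (n : ℕ) (R : Finset ℕ) (c η : ℝ) : Prop :=
  ∀ N, Ad2 n R N → ∀ τ : ℝ, |τ| ≤ c → ∀ σ : ℕ → GQ, (∀ l ∈ p.lg, Fr l (σ l)) →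
    ∀ (e : ℕ) (φ : GQ → ℂ), Tf N e φ →
    ‖∑ l ∈ p.lg, (wl p.s p.h p.k l : ℝ) * tw τ l * 𝔼 a : Exm e, φ (σ l ^ (a.1 : ℕ))‖ ≤ η

/-- the properties of the parameters that do not involve `X` -/
structure Ok (c : ℝ) (n r : ℕ) (D η : ℝ) : Prop where
  pri : ∀ l ∈ p.Λ, l.Prime ∧ Odd l
  le : p.Z ≤ p.Y
  nn : ∀ m l, 0 ≤ p.W m l
  sum : ∀ l ∈ p.Λ, ∑ m, p.W m l = (l : ℝ) ^ (-p.s)
  pos : 0 < ms p.Λ p.W 0
  one : ∀ m, m ≠ 0 → 1 ≤ ms p.Λ p.W m
  wle : ∀ m l, m ≠ 0 → p.W m l ≤ η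
  bil : ∀ (m m' : Fin 4) (a b : ℕ → ℂ), m ≠ 0 → m' ≠ 0 → (∀ l ∈ p.Λ, ‖a l‖ ≤ p.W m l) →
    (∀ l ∈ p.Λ, ‖b l‖ ≤ p.W m' l) →
    ‖∑ l ∈ p.Λ, ∑ l' ∈ p.Λ, a l * b l' * (jacobiSym l l' : ℤ)‖ ≤ η
  eqs : ∀ R ⊆ p.sm, R.card ≤ r → p.Eqd n R 0 η
  eqt : ∀ R ⊆ p.ti, (R.card : ℝ) ≤ D → p.Eqd 2 (insert 2 R) c η

end Par

/-- the parameters as functions of `X` -/
noncomputable def par (X : ℕ) (δ A : ℝ) (k : ℕ) (E : Finset ℕ) (p₀ X' : ℕ) : Par where
  s := 1 + 1 / Real.log X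
  h := Real.log X ^ (-δ)
  Z := Real.log X ^ A
  Y := Real.exp (Real.log X ^ (δ / 8))
  k := k
  E := E
  Λ := (range (X' + 1)).filter fun l => l.Prime ∧ Odd l ∧ l ≠ p₀

/-- the iterated logarithm -/
noncomputable def LL (X : ℕ) : ℝ := Real.log (Real.log X)

open Classical in
/-- sets of odd squarefree numbers of upper density at most `ε` -/
def Sp (B : ℕ → Prop) (ε : ℝ) : Prop :=
  ∀ᶠ X : ℕ in atTop, (((Icc 1 X).filter fun n => Odd n ∧ Squarefree n ∧ B n).card : ℝ) ≤ ε * X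

open Classical in
/-- the estimate for tuples -/
def Est (p : Par) (c : ℝ) (B : ℕ → Prop) (D δ : ℝ) (m₀ : ℕ) (ε C ξ : ℝ) : Prop :=
  ∀ (y : ℝ) (d : ℕ) (μ : Fin d → Fin 4), (d : ℝ) ≤ D → Thin δ m₀ (mk μ 1) (mk μ 3) →
    (Ex (U := fun _ => p.Λ) (wm p.Λ p.W μ) fun q =>
      if Function.Injective q ∧ B (np q) then Kc c (Real.log (np q) - y) else 0) ≤
    ε * (Ex (U := fun _ => p.Λ) (wm p.Λ p.W μ) fun q => Kc c (Real.log (np q) - y)) +
      C ^ (d + 1) * ξ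

/-- the kernel -/
def KerStmt : Prop :=
  ∀ c : ℝ, 0 < c → (∀ x, 0 ≤ Kc c x ∧ Kc c x ≤ 1 ∧ (|c * x| ≤ 1 → 1 / 4 ≤ Kc c x)) ∧
    (∃ C₀ : ℝ, 0 < C₀ ∧ ∀ (s y : ℝ) (A : Finset ℕ), 1 ≤ s →
      ∑ n ∈ A, (n : ℝ) ^ (-s) * Kc c (Real.log n - y) ≤ C₀) ∧
    ∀ (ι : Type) (A : Finset ι) (a : ι → ℂ) (x : ι → ℝ) (y b : ℝ),
      (∀ τ : ℝ, |τ| ≤ c → ‖∑ i ∈ A, a i * Complex.exp (Complex.I * τ * x i)‖ ≤ b) →
      ‖∑ i ∈ A, a i * Kc c (x i - y)‖ ≤ b

/-- counting in windows -/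
def WndStmt : Prop :=
  ∀ c ε : ℝ, 0 < c → 0 < ε → ∃ ε' : ℝ, 0 < ε' ∧ ∀ (X : ℕ) (A : Finset ℕ), 3 ≤ X → A ⊆ Icc 1 X →
    (∀ y : ℝ, ∑ n ∈ A, (n : ℝ) ^ (-(1 + 1 / Real.log X)) * Kc c (Real.log n - y) ≤ ε') →
    (A.card : ℝ) ≤ ε * X

/-- sums over primes -/
def MertStmt : Prop :=
  (∀ y : ℝ, 2 ≤ y → Real.log (Real.log y) - 1 ≤
    ∑ l ∈ (range (⌊y⌋₊ + 1)).filter Nat.Prime, (1 : ℝ) / l) ∧
  ∀ (u : ℝ) (A : Finset ℕ), 0 < u → (∀ l ∈ A, l.Prime) →
    ∑ l ∈ A, (l : ℝ) ^ (-(1 + u)) ≤ Real.log (1 + 1 / u)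

/-- the inequality of Turán and Kubilius -/
def TkStmt : Prop :=
  ∀ (X : ℕ) (A : Finset ℕ) (a : ℝ), (∀ l ∈ A, l.Prime ∧ l ≤ X) → 0 < a → a ≤ ∑ l ∈ A, (1 : ℝ) / l →
    (((Icc 1 X).filter fun n => ((A.filter fun l => l ∣ n).card : ℝ) ≤ a / 2).card : ℝ) ≤
      12 * X / a

open Classical in
/-- tuples of primes -/
def TupN : Prop :=
  ∀ Λ : Finset ℕ, (∀ l ∈ Λ, l.Prime) →
    (∀ (d : ℕ) (q : Fin d → Λ), Function.Injective q → Squarefree (np q) ∧
      (np q).primeFactors = univ.image fun j => (q j : ℕ)) ∧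
    (∀ n : ℕ, Squarefree n → n.primeFactors ⊆ Λ →
      (univ.filter fun q : Fin n.primeFactors.card → Λ => Function.Injective q ∧ np q = n).card =
        n.primeFactors.card.factorial) ∧
    ∀ (f : ℕ → ℝ) (b : ℝ) (D : ℕ), (∀ n, 0 ≤ f n) → (∀ A : Finset ℕ, ∑ n ∈ A, f n ≤ b) →
      ∑ d ∈ range D, (∑ q : Fin d → Λ, f (np q)) / d.factorial ≤ b

open Classical in
/-- from tuples to numbers -/
def PoisStmt : Prop :=
  ∀ (Λ S : Finset ℕ) (W : Fin 4 → ℕ → ℝ) (s C₀ ε C ξ δ D : ℝ) (d₀ m₀ : ℕ) (K : ℕ → ℝ)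
    (B : ℕ → Prop), (∀ l ∈ Λ, l.Prime) → (∀ m l, 0 ≤ W m l) →
    (∀ l ∈ Λ, ∑ m, W m l = (l : ℝ) ^ (-s)) → (∀ m, 0 < ms Λ W m) →
    (∀ l ∈ S, ∀ m, m ≠ 1 → W m l = 0) → (∀ n, 0 ≤ K n) →
    (∀ a : ℕ, a ≠ 0 → ∀ A : Finset ℕ, ∑ n ∈ A, (n : ℝ) ^ (-s) * K (a * n) ≤ C₀) →
    0 ≤ ε → 0 ≤ C → 0 ≤ ξ → 0 < δ → δ ≤ 1 → 0 < D → 0 < d₀ → 2 * m₀ ≤ d₀ →
    (∀ (d : ℕ) (μ : Fin d → Fin 4), (d : ℝ) ≤ D → Thin δ m₀ (mk μ 1) (mk μ 3) →
      (Ex (U := fun _ => Λ) (wm Λ W μ) fun q =>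
        if Function.Injective q ∧ B (np q) then K (np q) else 0) ≤
      ε * (Ex (U := fun _ => Λ) (wm Λ W μ) fun q => K (np q)) + C ^ (d + 1) * ξ) →
    ∀ A : Finset ℕ, (∀ n ∈ A, Squarefree n ∧ n.primeFactors ⊆ Λ ∧ B n ∧
      d₀ ≤ n.primeFactors.card ∧ m₀ ≤ (n.primeFactors ∩ S).card) →
    ∑ n ∈ A, (n : ℝ) ^ (-s) * K n ≤ ε * C₀ + C * ξ * Real.exp (C * ∑ m, ms Λ W m) +
      C₀ * (∑ m, ms Λ W m) / D + 2 * C₀ * (∑ m with m ≠ 3, ms Λ W m) / (δ * d₀)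

/-- character sums -/
def ChsStmt : Prop :=
  ∀ (q q' M₁ M₂ : ℕ) (s : ℝ), q.Prime → q'.Prime → Odd q → Odd q' → q ≠ q' → 1 ≤ M₁ → 0 ≤ s →
    |∑ m ∈ Ico M₁ M₂, (m : ℝ) ^ (-s) * ((jacobiSym m q * jacobiSym m q' : ℤ) : ℝ)| ≤
      2 * (q * q') * (M₁ : ℝ) ^ (-s)

/-- bilinear sums with a short modulus -/
def Bil1Stmt : Prop :=
  ∃ C : ℝ, 0 < C ∧ ∀ (s L : ℝ) (A B : Finset ℕ) (a b : ℕ → ℂ), 1 < s → s ≤ 2 → 2 ≤ L →
    (∀ l ∈ A, l.Prime ∧ L ≤ l ∧ ‖a l‖ ≤ (l : ℝ) ^ (-s)) →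
    (∀ l ∈ B, l.Prime ∧ Odd l ∧ L ≤ l ∧ l < L ^ 2 ∧ ‖b l‖ ≤ (l : ℝ) ^ (-s)) →
    ‖∑ l ∈ A, ∑ l' ∈ B, a l * b l' * (jacobiSym l l' : ℤ)‖ ≤ C / (s - 1) ^ 2 * L ^ (-(1 / 10 : ℝ))

/-- bilinear sums -/
def BilStmt : Prop :=
  ∃ C : ℝ, 0 < C ∧ ∀ (s Z : ℝ) (A : Finset ℕ) (a b : ℕ → ℂ), 1 < s → s ≤ 2 → 2 ≤ Z →
    (∀ l ∈ A, l.Prime ∧ Odd l ∧ Z ≤ l ∧ ‖a l‖ ≤ (l : ℝ) ^ (-s) ∧ ‖b l‖ ≤ (l : ℝ) ^ (-s)) →
    ‖∑ l ∈ A, ∑ l' ∈ A, a l * b l' * (jacobiSym l l' : ℤ)‖ ≤ C / (s - 1) ^ 2 * Z ^ (-(1 / 10 : ℝ))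

/-- upper bounds for the masses -/
def MupStmt : Prop :=
  ∀ (δ A : ℝ) (k : ℕ), 0 < δ → δ ≤ 1 / 100 → 1 ≤ A → ∀ᶠ X : ℕ in atTop, ∀ (E : Finset ℕ) (p₀ : ℕ),
    (∀ X', let p := par X δ A k E p₀ X'
      p.Z ≤ p.Y ∧ (∀ m l, 0 ≤ p.W m l) ∧ (∀ l ∈ p.Λ, ∑ m, p.W m l = (l : ℝ) ^ (-p.s)) ∧
      (∀ m l, p.W m l ≤ (l : ℝ) ^ (-p.s)) ∧ (∀ m l, m ≠ 0 → p.W m l ≤ 1 / p.Z) ∧
      ∑ m, ms p.Λ p.W m ≤ 2 * LL X ∧ ∑ m with m ≠ 3, ms p.Λ p.W m ≤ 3 * δ * LL X) ∧
    ∃ X', X ≤ X' ∧ let p := par X δ A k E p₀ X'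
      ∑' l, wl p.s p.h k l ≤ ∑ l ∈ p.lg, wl p.s p.h k l + Real.log X ^ (-((k + 1) * δ / 2))

/-- lower bounds for the masses -/
def MloStmt : Prop :=
  ∀ (δ A : ℝ) (k r : ℕ), 0 < δ → δ ≤ 1 / 100 → 1 ≤ A → ∀ᶠ X : ℕ in atTop,
    ∀ (E : Finset ℕ) (p₀ X' : ℕ), E.card ≤ r → X ≤ X' → let p := par X δ A k E p₀ X'
      0 < ms p.Λ p.W 0 ∧ (∀ m, m ≠ 0 → 1 ≤ ms p.Λ p.W m) ∧ (∀ l ∈ p.sm, l ≤ X) ∧
      δ * LL X / 16 ≤ ∑ l ∈ p.sm, (1 : ℝ) / l

/-- existence of parameters -/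
def ParStmt : Prop :=
  ∃ c : ℝ, 0 < c ∧ ∀ (n r p₁ : ℕ) (δ A : ℝ), 0 < δ → δ ≤ 1 / 100 → ∀ᶠ X : ℕ in atTop,
    ∃ (p : Par) (p₀ : ℕ), p₁ ≤ p₀ ∧ p.Ok c n r (LL X ^ 2) (Real.log X ^ (-A)) ∧
      p.s = 1 + 1 / Real.log X ∧ (∀ l, l.Prime → Odd l → l ≠ p₀ → l ≤ X → l ∈ p.Λ) ∧
      ∑ m, ms p.Λ p.W m ≤ 2 * LL X ∧ ∑ m with m ≠ 3, ms p.Λ p.W m ≤ 3 * δ * LL X ∧
      (∀ l ∈ p.sm, l ≤ X) ∧ δ * LL X / 16 ≤ ∑ l ∈ p.sm, (1 : ℝ) / l

/-- from estimates for tuples to densities -/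
def DensStmt : Prop :=
  ∃ c : ℝ, 0 < c ∧ ∀ ε : ℝ, 0 < ε → ∃ ε' : ℝ, 0 < ε' ∧ ∀ (B : ℕ → Prop) (n r m₀ a : ℕ) (δ C : ℝ),
    0 < δ → 1 ≤ C →
    (∀ (p : Par) (D ξ : ℝ), 0 ≤ ξ → ξ ≤ 1 → p.Ok c n r D (ξ ^ 2 ^ a) → Est p c B D δ m₀ ε' C ξ) →
    Sp B ε

end Pool.Agent.MP_f68ac8_nt.Nd

end

section

namespace Pool.Agent.MP_f68ac8_nt.Nd
open Finset Filter
open Zv (Ex Prob)
open scoped BigOperators

theorem nrm_NeKer (t : ℝ) : ‖Complex.exp (Complex.I * t)‖ = 1 := by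
  rw [mul_comm, Complex.norm_exp_ofReal_mul_I]

theorem le_one_NeKer (c x : ℝ) : Kc c x ≤ 1 := by
  have h : ‖∫ u in (0 : ℝ)..1, Complex.exp (Complex.I * (c * u * x : ℝ))‖ ≤ 1 * |(1 : ℝ) - 0| :=
    intervalIntegral.norm_integral_le_of_norm_le_const fun u _ => (nrm_NeKer _).le
  rw [sub_zero, abs_one, mul_one] at h
  exact pow_le_one₀ (norm_nonneg _) h

theorem low_NeKer (c x : ℝ) (h : |c * x| ≤ 1) : 1 / 4 ≤ Kc c x := by
  have hi : IntervalIntegrable (fun u : ℝ => Complex.exp (Complex.I * (c * u * x : ℝ)))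
      MeasureTheory.volume 0 1 := Continuous.intervalIntegrable (by fun_prop) _ _
  have h1 : (1 / 2 : ℝ) ≤ (∫ u in (0 : ℝ)..1, Complex.exp (Complex.I * (c * u * x : ℝ))).re := by
    have h2 := intervalIntegral.intervalIntegral_re hi
    simp only [RCLike.re_to_complex] at h2
    rw [← h2]
    have h3 : (∫ _ in (0 : ℝ)..1, (1 / 2 : ℝ)) = 1 / 2 := by simp
    rw [← h3]
    refine intervalIntegral.integral_mono_on zero_le_one (by simp)
      (Continuous.intervalIntegrable (by fun_prop) _ _) fun u hu => ?_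
    rw [mul_comm, Complex.exp_ofReal_mul_I_re]
    refine le_trans ?_ Real.one_sub_sq_div_two_le_cos
    have h4 : (c * x) ^ 2 ≤ 1 := by
      rw [← sq_abs]
      exact pow_le_one₀ (abs_nonneg _) h
    have h5 : u ^ 2 ≤ 1 := pow_le_one₀ hu.1 hu.2
    have h6 : (c * u * x) ^ 2 = u ^ 2 * (c * x) ^ 2 := by ring
    rw [h6]
    nlinarith [sq_nonneg u, sq_nonneg (c * x)]
  have h7 := h1.trans (Complex.re_le_norm _)
  unfold Kc
  nlinarith

theorem dec_NeKer (c x : ℝ) : Kc c x * (c * x) ^ 2 ≤ 4 := by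
  by_cases h : c * x = 0
  · rw [h]
    norm_num
  have h1 : (Complex.I * (c * x : ℝ)) ≠ 0 := mul_ne_zero Complex.I_ne_zero (by exact_mod_cast h)
  have h2 : (∫ u in (0 : ℝ)..1, Complex.exp (Complex.I * (c * u * x : ℝ))) =
      ∫ u in (0 : ℝ)..1, Complex.exp (Complex.I * (c * x : ℝ) * u) := by
    refine intervalIntegral.integral_congr fun u _ => ?_
    congr 1
    push_cast
    ring
  unfold Kc
  rw [h2, integral_exp_mul_complex h1, norm_div, norm_mul, Complex.norm_I, one_mul,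
    Complex.norm_real, Real.norm_eq_abs, div_pow, sq_abs, div_mul_cancel₀ _ (pow_ne_zero 2 h)]
  have h3 : ‖Complex.exp (Complex.I * (c * x : ℝ) * (1 : ℝ)) -
      Complex.exp (Complex.I * (c * x : ℝ) * (0 : ℝ))‖ ≤ 2 := by
    refine (norm_sub_le _ _).trans ?_
    rw [Complex.ofReal_one, mul_one, nrm_NeKer, Complex.ofReal_zero, mul_zero, Complex.exp_zero,
      norm_one]
    norm_num
  nlinarith [norm_nonneg (Complex.exp (Complex.I * (c * x : ℝ) * (1 : ℝ)) -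
      Complex.exp (Complex.I * (c * x : ℝ) * (0 : ℝ)))]

theorem maj_NeKer {c : ℝ} (hc : 0 < c) (x : ℝ) : Kc c x ≤ (1 + 4 / c ^ 2) / (1 + x ^ 2) := by
  rw [le_div_iff₀ (by positivity), mul_add, mul_one]
  refine add_le_add (le_one_NeKer c x) ?_
  rw [le_div_iff₀ (by positivity)]
  have := dec_NeKer c x
  nlinarith

theorem arc_NeKer (x z : ℝ) (h0 : x ≤ z) (h1 : z ≤ x + 1) :
    (z - x) / (3 * (1 + x ^ 2)) ≤ Real.arctan z - Real.arctan x := by
  rcases h0.eq_or_lt with rfl | h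
  · simp
  obtain ⟨t, ht, e⟩ := exists_hasDerivAt_eq_slope Real.arctan (fun t => 1 / (1 + t ^ 2)) h
    Real.continuous_arctan.continuousOn fun t _ => Real.hasDerivAt_arctan t
  have hz : 0 < z - x := sub_pos.2 h
  rw [eq_div_iff hz.ne'] at e
  rw [← e, one_div, ← div_eq_inv_mul]
  refine div_le_div_of_nonneg_left hz.le (by positivity) ?_
  have h2 : 0 < t - x := sub_pos.2 ht.1
  have h3 : t - x ≤ 1 := by linarith [ht.2]
  nlinarith [sq_nonneg (t - 2 * x), mul_le_mul h3 h3 h2.le zero_le_one]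

theorem step_NeKer {c : ℝ} (hc : 0 < c) (s y : ℝ) (hs : 1 ≤ s) (n : ℕ) :
    (n : ℝ) ^ (-s) * Kc c (Real.log n - y) ≤ 6 * (1 + 4 / c ^ 2) *
      (Real.arctan (Real.log (n + 1 : ℕ) - y) - Real.arctan (Real.log n - y)) := by
  rcases Nat.eq_zero_or_pos n with rfl | hn
  · simp [Real.zero_rpow (show -s ≠ 0 by linarith)]
  have h1 : (1 : ℝ) ≤ n := by exact_mod_cast hn
  have h2 : (n : ℝ) ^ (-s) ≤ (n : ℝ)⁻¹ := by
    rw [← Real.rpow_neg_one]
    exact Real.rpow_le_rpow_of_exponent_le h1 (by linarith)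
  have h3 : Real.log (n + 1 : ℕ) - Real.log n = Real.log ((n + 1) / n) := by
    rw [Real.log_div (by positivity) (by positivity)]
    push_cast
    rfl
  have h4 : (n : ℝ)⁻¹ / 2 ≤ Real.log (n + 1 : ℕ) - Real.log n := by
    rw [h3]
    refine le_trans ?_ (Real.one_sub_inv_le_log_of_pos (by positivity))
    rw [inv_div, one_sub_div (by positivity), add_sub_cancel_left, inv_eq_one_div, div_div]
    exact one_div_le_one_div_of_le (by positivity) (by linarith)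
  have h5 : Real.log (n + 1 : ℕ) - Real.log n ≤ 1 := by
    rw [h3]
    refine (Real.log_le_sub_one_of_pos (by positivity)).trans ?_
    rw [sub_le_iff_le_add, div_le_iff₀ (by positivity)]
    linarith
  have h6 : (0 : ℝ) < (n : ℝ)⁻¹ := by positivity
  have h7 := arc_NeKer (Real.log n - y) (Real.log (n + 1 : ℕ) - y) (by linarith) (by linarith)
  refine (mul_le_mul h2 (maj_NeKer hc _) (sq_nonneg _) h6.le).trans
    (le_trans ?_ (mul_le_mul_of_nonneg_left h7 (by positivity)))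
  have h8 : (n : ℝ)⁻¹ / 2 / (3 * (1 + (Real.log n - y) ^ 2)) ≤
      (Real.log (n + 1 : ℕ) - y - (Real.log n - y)) / (3 * (1 + (Real.log n - y) ^ 2)) :=
    div_le_div_of_nonneg_right (by linarith) (by positivity)
  refine le_trans (le_of_eq ?_) (mul_le_mul_of_nonneg_left h8 (by positivity))
  field_simp
  ring

theorem sum_NeKer {c : ℝ} (hc : 0 < c) (s y : ℝ) (A : Finset ℕ) (hs : 1 ≤ s) :
    ∑ n ∈ A, (n : ℝ) ^ (-s) * Kc c (Real.log n - y) ≤ 6 * (1 + 4 / c ^ 2) * Real.pi := by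
  obtain ⟨N, hN⟩ := A.exists_nat_subset_range
  refine (sum_le_sum_of_subset_of_nonneg hN fun n _ _ =>
    mul_nonneg (Real.rpow_nonneg (Nat.cast_nonneg _) _) (sq_nonneg _)).trans ?_
  refine (sum_le_sum fun n _ => step_NeKer hc s y hs n).trans ?_
  rw [← mul_sum, sum_range_sub fun n : ℕ => Real.arctan (Real.log n - y)]
  have h : ∀ a b : ℝ, Real.arctan a - Real.arctan b ≤ Real.pi := fun a b => by
    linarith [Real.arctan_lt_pi_div_two a, Real.neg_pi_div_two_lt_arctan b]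
  exact mul_le_mul_of_nonneg_left (h _ _) (by positivity)

theorem rep_NeKer (c x : ℝ) : (Kc c x : ℂ) =
    (∫ u in (0 : ℝ)..1, Complex.exp (Complex.I * (c * u * x : ℝ))) *
      ∫ v in (0 : ℝ)..1, Complex.exp (-(Complex.I * (c * v * x : ℝ))) := by
  have h : (∫ v in (0 : ℝ)..1, Complex.exp (-(Complex.I * (c * v * x : ℝ)))) =
      (starRingEnd ℂ) (∫ u in (0 : ℝ)..1, Complex.exp (Complex.I * (c * u * x : ℝ))) := by
    rw [← intervalIntegral.intervalIntegral_conj]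
    refine intervalIntegral.integral_congr fun u _ => ?_
    simp only [← Complex.exp_conj, map_mul, Complex.conj_I, Complex.conj_ofReal, neg_mul]
  rw [h, Complex.mul_conj, Complex.normSq_eq_norm_sq]
  rfl

theorem tw_NeKer {c : ℝ} (hc : 0 < c) {ι : Type} (A : Finset ι) (a : ι → ℂ) (x : ι → ℝ) (y b : ℝ)
    (h : ∀ τ : ℝ, |τ| ≤ c → ‖∑ i ∈ A, a i * Complex.exp (Complex.I * τ * x i)‖ ≤ b) :
    ‖∑ i ∈ A, a i * Kc c (x i - y)‖ ≤ b := by
  have e1 : ∑ i ∈ A, a i * Kc c (x i - y) = ∫ u in (0 : ℝ)..1, ∑ i ∈ A,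
      a i * Complex.exp (Complex.I * (c * u * (x i - y) : ℝ)) *
        ∫ v in (0 : ℝ)..1, Complex.exp (-(Complex.I * (c * v * (x i - y) : ℝ))) := by
    rw [intervalIntegral.integral_finsetSum fun i _ =>
      Continuous.intervalIntegrable (by fun_prop) _ _]
    refine sum_congr rfl fun i _ => ?_
    rw [intervalIntegral.integral_mul_const, intervalIntegral.integral_const_mul, rep_NeKer,
      mul_assoc]
  rw [e1]
  refine (intervalIntegral.norm_integral_le_of_norm_le_const (C := b) fun u hu => ?_).trans_eq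
    (by simp)
  have e2 : ∑ i ∈ A, a i * Complex.exp (Complex.I * (c * u * (x i - y) : ℝ)) *
        ∫ v in (0 : ℝ)..1, Complex.exp (-(Complex.I * (c * v * (x i - y) : ℝ))) =
      ∫ v in (0 : ℝ)..1, ∑ i ∈ A, a i * Complex.exp (Complex.I * (c * u * (x i - y) : ℝ)) *
        Complex.exp (-(Complex.I * (c * v * (x i - y) : ℝ))) := by
    rw [intervalIntegral.integral_finsetSum fun i _ =>
      Continuous.intervalIntegrable (by fun_prop) _ _]
    exact sum_congr rfl fun i _ => (intervalIntegral.integral_const_mul _ _).symm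
  rw [e2]
  refine (intervalIntegral.norm_integral_le_of_norm_le_const (C := b) fun v hv => ?_).trans_eq
    (by simp)
  rw [Set.uIoc_of_le zero_le_one] at hu hv
  have e3 : ∑ i ∈ A, a i * Complex.exp (Complex.I * (c * u * (x i - y) : ℝ)) *
        Complex.exp (-(Complex.I * (c * v * (x i - y) : ℝ))) =
      Complex.exp (Complex.I * (-(c * (u - v) * y) : ℝ)) *
        ∑ i ∈ A, a i * Complex.exp (Complex.I * (c * (u - v) : ℝ) * x i) := by
    rw [mul_sum]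
    refine sum_congr rfl fun i _ => ?_
    rw [mul_assoc, ← Complex.exp_add, mul_left_comm, ← Complex.exp_add]
    congr 2
    push_cast
    ring
  rw [e3, norm_mul, nrm_NeKer, one_mul]
  refine h _ ?_
  rw [abs_mul, abs_of_pos hc]
  exact mul_le_of_le_one_right hc.le (abs_le.2 ⟨by linarith [hu.1, hv.2], by linarith [hu.2, hv.1]⟩)

theorem ker_stmt : KerStmt := fun c hc =>
  ⟨fun x => ⟨sq_nonneg _, le_one_NeKer c x, low_NeKer c x⟩,
    ⟨6 * (1 + 4 / c ^ 2) * Real.pi, by positivity, fun s y A hs => sum_NeKer hc s y A hs⟩,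
    fun _ A a x y b h => tw_NeKer hc A a x y b h⟩

end Pool.Agent.MP_f68ac8_nt.Nd

end

section

/-! Tuples of primes. -/

namespace Pool.Agent.MP_f68ac8_nt.Nd

open Finset Filter
open Zv (Ex Prob)
open scoped BigOperators

section
variable {Λ : Finset ℕ} (hΛ : ∀ l ∈ Λ, l.Prime)
include hΛ

theorem one_NeTup (d : ℕ) (q : Fin d → Λ) (hq : Function.Injective q) :
    Squarefree (np q) ∧ (np q).primeFactors = univ.image fun j => (q j : ℕ) := by
  have hi : Function.Injective fun j => (q j : ℕ) := Subtype.val_injective.comp hq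
  have hp : ∀ j, (q j : ℕ).Prime := fun j => hΛ _ (q j).2
  constructor
  · refine Finset.squarefree_prod_of_pairwise_isCoprime (fun i _ j _ hij => ?_)
      fun j _ => (hp j).prime.squarefree
    exact Nat.coprime_iff_isRelPrime.1 ((Nat.coprime_primes (hp i) (hp j)).2 (hi.ne hij))
  · have h1 : np q = ∏ p ∈ univ.image fun j => (q j : ℕ), p :=
      (prod_image (s := univ) (g := fun j => (q j : ℕ)) (f := fun p => p) hi.injOn).symm
    rw [h1]
    refine Nat.primeFactors_prod fun p hp' => ?_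
    obtain ⟨j, -, rfl⟩ := mem_image.1 hp'
    exact hp j

theorem perm_NeTup {d : ℕ} (q : Fin d → Λ) :
    (List.ofFn fun j => (q j : ℕ)).Perm (np q).primeFactorsList := by
  refine Nat.primeFactorsList_unique List.prod_ofFn fun p hp => ?_
  obtain ⟨j, rfl⟩ := (List.mem_ofFn' _ _).1 hp
  exact hΛ _ (q j).2

theorem len_NeTup {d : ℕ} (q : Fin d → Λ) : (np q).primeFactorsList.length = d := by
  rw [← (perm_NeTup hΛ q).length_eq, List.length_ofFn]

theorem card_NeTup {d : ℕ} (q₀ : Fin d → Λ) :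
    (univ.filter fun q : Fin d → Λ => np q = np q₀).card ≤ d.factorial := by
  refine (card_le_card_of_injOn (t := (np q₀).primeFactorsList.permutations.toFinset)
    (fun q => List.ofFn fun j => (q j : ℕ)) (fun q hq => ?_) fun q _ q' _ h => ?_).trans ?_
  · have h1 := (mem_filter.1 (mem_coe.1 hq)).2
    refine mem_coe.2 (List.mem_toFinset.2 (List.mem_permutations.2 ?_))
    rw [← h1]
    exact perm_NeTup hΛ q
  · exact funext fun j => Subtype.ext (congrFun (List.ofFn_injective h) j)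
  · refine (List.toFinset_card_le _).trans_eq ?_
    rw [List.length_permutations, len_NeTup hΛ]

end

theorem tupN : TupN := by
  intro Λ hΛ
  refine ⟨one_NeTup hΛ, fun n hn hs => ?_, fun f b D hf hb => ?_⟩
  · have h1 : (univ : Finset (Fin n.primeFactors.card ↪ n.primeFactors)).card =
        n.primeFactors.card.factorial := by
      rw [card_univ, Fintype.card_embedding_eq, Fintype.card_fin, Fintype.card_coe,
        Nat.descFactorial_self]
    rw [← h1]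
    refine (card_bij (fun e _ j => (⟨e j, hs (e j).2⟩ : Λ)) (fun e _ => ?_)
      (fun e _ e' _ h => ?_) fun q hq => ?_).symm
    · refine mem_filter.2 ⟨mem_univ _, fun i j h => e.injective (Subtype.ext ?_), ?_⟩
      · exact congrArg (fun z : Λ => (z : ℕ)) h
      · have h2 : Function.Bijective e := (Fintype.bijective_iff_injective_and_card e).2
          ⟨e.injective, by rw [Fintype.card_fin, Fintype.card_coe]⟩
        refine (h2.prod_comp fun p : n.primeFactors => (p : ℕ)).trans ?_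
        rw [prod_coe_sort n.primeFactors fun p => p]
        exact Nat.prod_primeFactors_of_squarefree hn
    · exact Function.Embedding.ext fun j => Subtype.ext
        (congrArg (fun z : Λ => (z : ℕ)) (congrFun h j))
    · obtain ⟨h2, h3⟩ := (mem_filter.1 hq).2
      have h4 : ∀ j, (q j : ℕ) ∈ n.primeFactors := fun j => by
        have h5 := (one_NeTup hΛ _ q h2).2
        rw [h3] at h5
        exact h5.ge (mem_image_of_mem _ (mem_univ j))
      exact ⟨⟨fun j => ⟨q j, h4 j⟩, fun i j h => h2 (Subtype.ext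
        (congrArg (fun z : n.primeFactors => (z : ℕ)) h))⟩, mem_univ _, rfl⟩
  · refine le_trans (sum_le_sum (g := fun d => ∑ n ∈ univ.image (np (Λ := Λ) (d := d)), f n)
      fun d _ => ?_) ?_
    · rw [div_le_iff₀ (by exact_mod_cast d.factorial_pos), sum_comp f np, sum_mul]
      refine sum_le_sum fun n hn => ?_
      obtain ⟨q₀, -, rfl⟩ := mem_image.1 hn
      rw [nsmul_eq_mul, mul_comm]
      exact mul_le_mul_of_nonneg_left (by exact_mod_cast card_NeTup hΛ q₀) (hf _)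
    · rw [← sum_biUnion]
      · exact hb _
      · intro d _ d' _ h
        refine disjoint_left.2 fun n h1 h2 => h ?_
        obtain ⟨q, -, rfl⟩ := mem_image.1 h1
        obtain ⟨q', -, h3⟩ := mem_image.1 h2
        rw [← len_NeTup hΛ q, ← h3, len_NeTup hΛ q']

end Pool.Agent.MP_f68ac8_nt.Nd

end

section

namespace Pool.Agent.MP_f68ac8_nt.Nd

open Finset Filter
open Zv (Ex Prob)
open scoped BigOperators

theorem exp_NeMup {l : ℕ} (hl : l.Prime) (a : ℝ) : (l : ℝ) ^ (-a) = Real.exp (-(a * Real.log l)) := by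
  rw [Real.rpow_def_of_pos (Nat.cast_pos.2 hl.pos)]
  ring_nf

theorem x_NeMup {l : ℕ} (hl : l.Prime) {h : ℝ} (hh : 0 ≤ h) :
    0 ≤ 1 - (l : ℝ) ^ (-h) ∧ 1 - (l : ℝ) ^ (-h) ≤ 1 ∧ 1 - (l : ℝ) ^ (-h) ≤ h * Real.log l := by
  rw [exp_NeMup hl]
  have h1 := mul_nonneg hh (Real.log_natCast_nonneg l)
  exact ⟨sub_nonneg.2 (Real.exp_le_one_iff.2 (by linarith)), sub_le_self _ (Real.exp_pos _).le,
    by linarith [Real.add_one_le_exp (-(h * Real.log l))]⟩

theorem wl_NeMup (s : ℝ) {h : ℝ} (hh : 0 ≤ h) (k l : ℕ) :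
    0 ≤ wl s h k l ∧ wl s h k l ≤ (l : ℝ) ^ (-s) ∧
      wl s h k l ≤ (l : ℝ) ^ (-s) * (h * Real.log l) ^ (k + 1) := by
  have h0 : (0 : ℝ) ≤ (l : ℝ) ^ (-s) := by positivity
  have h1 := mul_nonneg hh (Real.log_natCast_nonneg l)
  unfold wl
  split_ifs with hl
  · obtain ⟨a, b, c⟩ := x_NeMup hl hh
    exact ⟨by positivity, mul_le_of_le_one_right h0 (pow_le_one₀ a b),
      mul_le_mul_of_nonneg_left (pow_le_pow_left₀ a c _) h0⟩
  · exact ⟨le_rfl, h0, by positivity⟩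

theorem W_NeMup (p : Par) (l : ℕ) :
    p.W 0 l = (if l ∈ p.ti then (l : ℝ) ^ (-p.s) else 0) ∧
    p.W 1 l = (if l ∈ p.sm then (l : ℝ) ^ (-p.s) else 0) ∧
    p.W 2 l = (if l ∈ p.ti ∨ l ∈ p.sm ∨ l ∉ p.Λ then 0 else
      if l ∈ p.lg then (l : ℝ) ^ (-p.s) - wl p.s p.h p.k l else (l : ℝ) ^ (-p.s)) ∧
    p.W 3 l = if l ∈ p.lg then wl p.s p.h p.k l else 0 := ⟨rfl, rfl, rfl, rfl⟩

theorem bd_NeMup (p : Par) (hh : 0 ≤ p.h) (m : Fin 4) (l : ℕ) :
    0 ≤ p.W m l ∧ p.W m l ≤ (l : ℝ) ^ (-p.s) := by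
  have h0 : (0 : ℝ) ≤ (l : ℝ) ^ (-p.s) := by positivity
  obtain ⟨a, b, -⟩ := wl_NeMup p.s hh p.k l
  obtain ⟨e0, e1, e2, e3⟩ := W_NeMup p l
  obtain rfl | rfl | rfl | rfl : m = 0 ∨ m = 1 ∨ m = 2 ∨ m = 3 := by omega
  all_goals
    simp only [e0, e1, e2, e3]
    split_ifs <;> constructor <;> linarith

theorem sum_NeMup (p : Par) (hZ : p.Z ≤ p.Y) {l : ℕ} (hl : l ∈ p.Λ) :
    ∑ m, p.W m l = (l : ℝ) ^ (-p.s) := by
  have a : l ∈ p.ti ↔ (l : ℝ) ≤ p.Z := by simp [Par.ti, hl]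
  have b : l ∈ p.sm ↔ p.Z < l ∧ (l : ℝ) ≤ p.Y ∧ l ∉ p.E := by simp [Par.sm, hl]
  have c : l ∈ p.lg ↔ p.Y < l := by simp [Par.lg, hl]
  obtain ⟨e0, e1, e2, e3⟩ := W_NeMup p l
  rw [Fin.sum_univ_four, e0, e1, e2, e3]
  by_cases h1 : l ∈ p.ti
  · have h2 : l ∉ p.sm := fun h => (b.1 h).1.not_ge (a.1 h1)
    have h3 : l ∉ p.lg := fun h => (c.1 h).not_ge ((a.1 h1).trans hZ)
    simp [h1, h2, h3]
  · by_cases h2 : l ∈ p.sm
    · have h3 : l ∉ p.lg := fun h => (c.1 h).not_ge (b.1 h2).2.1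
      simp [h1, h2, h3]
    · by_cases h3 : l ∈ p.lg <;> simp [h1, h2, h3, hl]

theorem big_NeMup (p : Par) (hZ : p.Z ≤ p.Y) {m : Fin 4} (hm : m ≠ 0) {l : ℕ} (h : (l : ℝ) ≤ p.Z) :
    p.W m l = 0 := by
  have h1 : l ∈ p.ti ∨ l ∈ p.sm ∨ l ∉ p.Λ := by
    by_cases hl : l ∈ p.Λ
    exacts [Or.inl (mem_filter.2 ⟨hl, h⟩), Or.inr (Or.inr hl)]
  have h2 : l ∉ p.sm := fun h' => (mem_filter.1 h').2.1.not_ge h
  have h3 : l ∉ p.lg := fun h' => (mem_filter.1 h').2.not_ge (h.trans hZ)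
  obtain rfl | rfl | rfl | rfl : m = 0 ∨ m = 1 ∨ m = 2 ∨ m = 3 := by omega
  · exact absurd rfl hm
  · exact if_neg h2
  · exact if_pos h1
  · exact if_neg h3

theorem one_NeMup {l : ℕ} (hl : 1 ≤ l) {s : ℝ} (hs : 1 ≤ s) : (l : ℝ) ^ (-s) ≤ 1 / l := by
  rw [one_div, ← Real.rpow_neg_one]
  exact Real.rpow_le_rpow_of_exponent_le (Nat.one_le_cast.2 hl) (by linarith)

theorem ber_NeMup (k : ℕ) {t L : ℝ} (hL : 1 ≤ L) (hk : (k : ℝ) + 1 ≤ Real.exp L) (ht : L ≤ t) :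
    1 - (1 - Real.exp (-t)) ^ (k + 1) ≤ Real.exp (1 - t / L) := by
  have x0 := Real.exp_pos (-t)
  have x1 : Real.exp (-t) ≤ 1 := Real.exp_le_one_iff.2 (by linarith)
  have h1 := one_add_mul_le_pow (a := -Real.exp (-t)) (by linarith) (k + 1)
  have h2 := mul_le_mul_of_nonneg_right hk x0.le
  have h3 : Real.exp L * Real.exp (-t) ≤ Real.exp (1 - t / L) := by
    rw [← Real.exp_add, Real.exp_le_exp]
    obtain ⟨r, rfl⟩ : ∃ r, t = r * L := ⟨t / L, by field_simp⟩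
    have h4 : 1 ≤ r := by
      by_contra h
      nlinarith
    rw [mul_div_cancel_right₀ _ (by linarith)]
    nlinarith
  push_cast at h1
  rw [← sub_eq_add_neg] at h1
  linarith

theorem non_NeMup (hM : MertStmt) (p : Par) (hP : ∀ l ∈ p.Λ, l.Prime) (hs : 1 ≤ p.s)
    (hh : 0 < p.h) (hZ : p.Z ≤ p.Y) (hY : ∀ l : ℕ, (l : ℝ) ≤ p.Y → p.h * Real.log l ≤ 1) {L : ℝ}
    (hL : 1 ≤ L) (hk : (p.k : ℝ) + 1 ≤ Real.exp L) :
    ∑ m with m ≠ 3, ms p.Λ p.W m ≤ Real.exp 1 * Real.log (1 + L / p.h) := by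
  have h1 := hM.2 (p.h / L) p.Λ (by positivity) hP
  rw [one_div_div] at h1
  refine le_trans ?_ (mul_le_mul_of_nonneg_left h1 (Real.exp_pos 1).le)
  simp only [ms]
  rw [sum_comm, mul_sum]
  refine sum_le_sum fun l hl => ?_
  have e1 : ∑ m with m ≠ 3, p.W m l = (l : ℝ) ^ (-p.s) - p.W 3 l := by
    rw [filter_ne', ← sum_NeMup p hZ hl, ← sum_erase_add _ _ (mem_univ 3), add_sub_cancel_right]
  have e2 : Real.exp 1 * (l : ℝ) ^ (-(1 + p.h / L)) =
      1 / l * Real.exp (1 - p.h * Real.log l / L) := by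
    rw [exp_NeMup (hP l hl), one_div, ← Real.rpow_neg_one, exp_NeMup (hP l hl), ← Real.exp_add,
      ← Real.exp_add]
    ring_nf
  have e3 := one_NeMup (hP l hl).pos hs
  have e4 : (0 : ℝ) ≤ (l : ℝ) ^ (-p.s) := by positivity
  rw [e1, e2]
  refine le_trans ?_ (mul_le_mul_of_nonneg_right e3 (Real.exp_pos _).le)
  rcases le_or_gt (p.h * Real.log l) L with h | h
  · have := le_mul_of_one_le_right e4 (Real.one_le_exp
      (sub_nonneg.2 ((div_le_one (by linarith)).2 h)))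
    linarith [(bd_NeMup p hh.le 3 l).1]
  · have h3 : l ∈ p.lg := mem_filter.2 ⟨hl, lt_of_not_ge fun h' => by linarith [hY l h']⟩
    have e5 : p.W 3 l = wl p.s p.h p.k l := if_pos h3
    rw [e5, wl, if_pos (hP l hl), exp_NeMup (hP l hl) p.h, ← mul_one_sub]
    exact mul_le_mul_of_nonneg_left (ber_NeMup p.k hL hk h.le) e4

theorem union_NeMup {f : ℕ → ℝ} (hf : ∀ l, 0 ≤ f l) (A B : Finset ℕ) :
    ∑ l ∈ A ∪ B, f l ≤ ∑ l ∈ A, f l + ∑ l ∈ B, f l := by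
  rw [← sum_union_inter]
  exact le_add_of_nonneg_right (sum_nonneg fun l _ => hf l)

theorem miss_NeMup (hM : MertStmt) {u h Y b η : ℝ} (hu : 0 < u) (hh : 0 ≤ h) (hY : 2 ≤ Y)
    (hb : ∀ l : ℕ, (l : ℝ) ≤ Y → h * Real.log l ≤ b) (hη : 0 < η) (k p₀ X : ℕ) :
    ∃ X', X ≤ X' ∧ ∑' l, wl (1 + u) h k l ≤
      ∑ l ∈ ((range (X' + 1)).filter fun l => l.Prime ∧ Odd l ∧ l ≠ p₀).filter fun l : ℕ => Y < l,
        wl (1 + u) h k l +
      (Real.log (1 + 1 / u) * b ^ (k + 1) + h ^ (k + 1) * (k + 1).factorial + η) := by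
  have w := wl_NeMup (1 + u) hh k
  have hS : Summable (wl (1 + u) h k) := Summable.of_nonneg_of_le (fun l => (w l).1)
    (fun l => (w l).2.1) (Real.summable_nat_rpow.2 (by linarith))
  obtain ⟨X', h1, h2⟩ := ((eventually_ge_atTop X).and
    ((((tendsto_sum_nat_add (wl (1 + u) h k)).comp (tendsto_add_atTop_nat 1))).eventually
      (ge_mem_nhds hη))).exists
  refine ⟨X', h1, ?_⟩
  rw [← hS.sum_add_tsum_nat_add (X' + 1)]
  set G := ((range (X' + 1)).filter fun l => l.Prime ∧ Odd l ∧ l ≠ p₀).filter fun l : ℕ => Y < l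
  set A := (range (X' + 1)).filter fun l : ℕ => l.Prime ∧ (l : ℝ) ≤ Y
  have k1 : ∑ l ∈ range (X' + 1), wl (1 + u) h k l ≤ ∑ l ∈ G ∪ (A ∪ {p₀}), wl (1 + u) h k l := by
    rw [← sum_filter_ne_zero]
    refine sum_le_sum_of_subset_of_nonneg (fun l hl => ?_) fun l _ _ => (w l).1
    obtain ⟨a, b⟩ := mem_filter.1 hl
    have c : l.Prime := by
      by_contra c
      exact b (if_neg c)
    by_cases d : (l : ℝ) ≤ Y
    · exact mem_union_right _ (mem_union_left _ (mem_filter.2 ⟨a, c, d⟩))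
    · by_cases e : l = p₀
      · exact mem_union_right _ (mem_union_right _ (mem_singleton.2 e))
      · refine mem_union_left _ (mem_filter.2 ⟨mem_filter.2 ⟨a, c, c.odd_of_ne_two ?_, e⟩,
          lt_of_not_ge d⟩)
        rintro rfl
        exact d hY
  have k2 := union_NeMup (fun l => (w l).1) G (A ∪ {p₀})
  have k3 := union_NeMup (fun l => (w l).1) A {p₀}
  have b0 : 0 ≤ b := by simpa using hb 1 (by push_cast; linarith)
  have k4 : ∑ l ∈ A, wl (1 + u) h k l ≤ Real.log (1 + 1 / u) * b ^ (k + 1) := by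
    refine le_trans ?_ (mul_le_mul_of_nonneg_right
      (hM.2 u A hu fun l hl => (mem_filter.1 hl).2.1) (by positivity))
    rw [sum_mul]
    refine sum_le_sum fun l hl => (w l).2.2.trans (mul_le_mul_of_nonneg_left (pow_le_pow_left₀
      (mul_nonneg hh (Real.log_natCast_nonneg l)) (hb l (mem_filter.1 hl).2.2) _) (by positivity))
  have k5 : wl (1 + u) h k p₀ ≤ h ^ (k + 1) * (k + 1).factorial := by
    by_cases c : p₀.Prime
    · have c0 : (0 : ℝ) < p₀ := Nat.cast_pos.2 c.pos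
      have c1 := Real.pow_div_factorial_le_exp _ (Real.log_natCast_nonneg p₀) (k + 1)
      rw [Real.exp_log c0, div_le_iff₀ (by positivity), ← div_le_iff₀' c0] at c1
      refine (w p₀).2.2.trans ((mul_le_mul_of_nonneg_right (one_NeMup c.pos (by linarith))
        (pow_nonneg (mul_nonneg hh (Real.log_natCast_nonneg _)) _)).trans ?_)
      rw [mul_pow, mul_left_comm, one_div_mul_eq_div]
      exact mul_le_mul_of_nonneg_left c1 (by positivity)
    · rw [wl, if_neg c]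
      positivity
  rw [sum_singleton] at k3
  have k6 : ∑' i, wl (1 + u) h k (i + (X' + 1)) ≤ η := h2
  linarith

theorem mup_stmt (hM : MertStmt) : MupStmt := by
  intro δ A k d0 d1 hA
  have tT : Tendsto (fun X : ℕ => Real.log X) atTop atTop :=
    Real.tendsto_log_atTop.comp tendsto_natCast_atTop_atTop
  have d8 : 0 < δ / 8 := by positivity
  have E1 := tT.eventually ((isLittleO_log_rpow_atTop d8).bound (c := 1 / (6 * A)) (by positivity))
  have E2 := ((tendsto_rpow_atTop d8).comp tT).eventually_ge_atTop (3 * (k + 1).factorial)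
  have E3 := ((Real.tendsto_log_atTop.comp tT).const_mul_atTop d0).eventually_ge_atTop
    (10 * Real.log (1 + (k + 1)))
  filter_upwards [tT.eventually_ge_atTop 2, E1, E2, E3] with X h1 h2 h3 h4 E p₀
  simp only [Function.comp_apply] at h3 h4
  simp only [par, LL]
  generalize Real.log X = T at *
  have T0 : 0 < T := by linarith
  have w0 : 0 ≤ Real.log T := Real.log_nonneg (by linarith)
  have e1 : T ^ (-δ) = ((T ^ (δ / 8)) ^ 8)⁻¹ := by
    rw [← Real.rpow_natCast, ← Real.rpow_mul T0.le, Real.rpow_neg T0.le]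
    norm_num
  have e2 : T ^ (-((k + 1) * δ / 2)) = ((T ^ (δ / 8)) ^ 4)⁻¹ ^ (k + 1) := by
    rw [inv_pow, ← pow_mul, ← Real.rpow_natCast, ← Real.rpow_mul T0.le, Real.rpow_neg T0.le]
    push_cast
    ring_nf
  have e3 : Real.log (T ^ (-δ))⁻¹ = δ * Real.log T := by
    rw [Real.log_inv, Real.log_rpow T0]
    ring
  have e4 : T ^ A = Real.exp (A * Real.log T) := by rw [Real.rpow_def_of_pos T0, mul_comm]
  have v1 : 1 ≤ T ^ (δ / 8) := Real.one_le_rpow (by linarith) d8.le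
  rw [Real.norm_of_nonneg w0, Real.norm_of_nonneg (by linarith), one_div_mul_eq_div,
    le_div_iff₀ (by positivity)] at h2
  rw [e2, e4]
  generalize T ^ (δ / 8) = v at *
  generalize T ^ (-δ) = h at *
  have h0 : 0 < h := by
    rw [e1]
    positivity
  have h5 : h ≤ 1 := e1 ▸ inv_le_one_of_one_le₀ (one_le_pow₀ v1)
  have hZ : Real.exp (A * Real.log T) ≤ Real.exp v := Real.exp_le_exp.2 (by nlinarith)
  have hY : ∀ l : ℕ, (l : ℝ) ≤ Real.exp v → h * Real.log l ≤ (v ^ 7)⁻¹ := fun l hl => by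
    have : Real.log l ≤ v := by
      rcases l.eq_zero_or_pos with rfl | l0
      · simpa using zero_le_one.trans v1
      · exact (Real.log_le_iff_le_exp (Nat.cast_pos.2 l0)).2 hl
    refine (mul_le_mul_of_nonneg_left this h0.le).trans (le_of_eq ?_)
    rw [e1]
    field_simp
  have hl2 : Real.log (1 + 1 / (1 / T)) ≤ 2 * Real.log T := by
    rw [one_div_one_div, two_mul, ← Real.log_mul T0.ne' T0.ne']
    exact Real.log_le_log (by linarith) (by nlinarith)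
  have u0 : 0 < 1 / T := by positivity
  refine ⟨fun X' => ?_, ?_⟩
  · set p : Par := ⟨1 + 1 / T, h, Real.exp (A * Real.log T), Real.exp v, k, E,
      (range (X' + 1)).filter fun l => l.Prime ∧ Odd l ∧ l ≠ p₀⟩ with hp
    have hP : ∀ l ∈ p.Λ, l.Prime := fun l hl => (mem_filter.1 hl).2.1
    have hs : 1 ≤ p.s := le_add_of_nonneg_right u0.le
    refine ⟨hZ, fun m l => (bd_NeMup p h0.le m l).1, fun l hl => sum_NeMup p hZ hl,
      fun m l => (bd_NeMup p h0.le m l).2, fun m l hm => ?_, ?_, ?_⟩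
    · rcases le_or_gt (l : ℝ) p.Z with c | c
      · rw [big_NeMup p hZ hm c]
        positivity
      · exact (bd_NeMup p h0.le m l).2.trans ((one_NeMup
          (Nat.cast_pos.1 ((Real.exp_pos _).trans c)) hs).trans
          (one_div_le_one_div_of_le (Real.exp_pos _) c.le))
    · change ∑ m, ∑ l ∈ p.Λ, p.W m l ≤ _
      rw [sum_comm, sum_congr rfl fun l hl => sum_NeMup p hZ hl]
      exact (hM.2 _ _ u0 hP).trans hl2
    · have k0 : (0 : ℝ) ≤ k := k.cast_nonneg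
      refine (non_NeMup hM p hP hs h0 hZ (fun l hl => (hY l hl).trans
        (inv_le_one_of_one_le₀ (one_le_pow₀ v1))) (L := k + 1) (by linarith)
        (by linarith [Real.add_one_le_exp ((k : ℝ) + 1)])).trans ?_
      have a1 : Real.log (1 + (k + 1) / h) ≤ Real.log (1 + (k + 1)) + δ * Real.log T := by
        rw [← e3, ← Real.log_mul (by positivity) (by positivity), add_mul, one_mul, div_eq_mul_inv]
        exact Real.log_le_log (by positivity) (add_le_add_left ((one_le_inv₀ h0).2 h5) _)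
      have a2 : 0 ≤ Real.log (1 + (k + 1) / h) :=
        Real.log_nonneg (le_add_of_nonneg_right (by positivity))
      have a3 := mul_le_mul_of_nonneg_right Real.exp_one_lt_d9.le a2
      have a4 := mul_nonneg d0.le w0
      change Real.exp 1 * Real.log (1 + (k + 1) / h) ≤ _
      linarith
  · have η0 : 0 < (v ^ 4)⁻¹ ^ (k + 1) := by positivity
    obtain ⟨X', a, b⟩ := miss_NeMup hM u0 h0.le (Y := Real.exp v)
      (by linarith [Real.add_one_le_exp v]) hY (η := (v ^ 4)⁻¹ ^ (k + 1) / 3) (by positivity) k p₀ X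
    refine ⟨X', a, b.trans (add_le_add_right ?_ _)⟩
    have v0 : 0 < v := by linarith
    have key : ∀ j : ℕ, (v ^ (5 + j))⁻¹ ^ (k + 1) * v ≤ (v ^ 4)⁻¹ ^ (k + 1) := fun j => by
      rw [show 5 + j = 4 + (j + 1) by ring, pow_add v, mul_inv, mul_pow, mul_assoc]
      refine mul_le_of_le_one_right η0.le ?_
      rw [inv_pow, ← pow_mul, inv_mul_le_iff₀ (by positivity), mul_one]
      exact le_self_pow₀ v1 (by positivity)
    have b1 := mul_le_mul_of_nonneg_right (hl2.trans (show 2 * Real.log T ≤ v / 3 by nlinarith))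
      (show 0 ≤ (v ^ 7)⁻¹ ^ (k + 1) by positivity)
    have b2 := mul_le_mul_of_nonneg_left h3 (show 0 ≤ h ^ (k + 1) by positivity)
    have b3 := key 2
    have b4 := key 3
    rw [← e1] at b4
    norm_num only at b3
    linarith

end Pool.Agent.MP_f68ac8_nt.Nd

end

section

/-! Bilinear sums of Jacobi symbols with a short modulus. -/

namespace Pool.Agent.MP_f68ac8_nt.Nd

open Finset Filter
open Zv (Ex Prob)
open scoped BigOperators

theorem zeta_NeBil1 {s : ℝ} (h1 : 1 < s) (h2 : s ≤ 2) (T : Finset ℕ) :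
    ∑ n ∈ T, (n : ℝ) ^ (-s) ≤ 2 / (s - 1) := by
  set N := T.sup id
  have hsub : T ⊆ range (N + 1 + 1) := fun n hn =>
    mem_range.mpr (by have : n ≤ N := Finset.le_sup (f := id) hn; omega)
  have hu : 0 < s - 1 := by linarith
  have hanti : AntitoneOn (fun x : ℝ => x ^ (-s)) (Set.Icc 1 (1 + (N : ℝ))) := by
    intro x hx y _ hxy
    exact Real.rpow_le_rpow_of_nonpos (by linarith [hx.1]) hxy (by linarith)
  have hint := hanti.sum_le_integral
  have hN : (0 : ℝ) ≤ N := Nat.cast_nonneg N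
  rw [integral_rpow (Or.inr ⟨by linarith, by
    rw [Set.uIcc_of_le (by linarith)]
    intro h
    linarith [h.1]⟩), Real.one_rpow] at hint
  have hpos : 0 ≤ (1 + (N : ℝ)) ^ (-s + 1) := by positivity
  have hb : ((1 + (N : ℝ)) ^ (-s + 1) - 1) / (-s + 1) ≤ 1 / (s - 1) := by
    rw [show -s + 1 = -(s - 1) by ring, div_neg, ← neg_div] at *
    exact div_le_div_of_nonneg_right (by linarith) hu.le
  have h3 : (1 : ℝ) ≤ 1 / (s - 1) := by
    rw [le_div_iff₀ hu]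
    linarith
  calc ∑ n ∈ T, (n : ℝ) ^ (-s) ≤ ∑ n ∈ range (N + 1 + 1), (n : ℝ) ^ (-s) :=
        sum_le_sum_of_subset_of_nonneg hsub fun _ _ _ => by positivity
    _ = ∑ i ∈ range N, (1 + ((i + 1 : ℕ) : ℝ)) ^ (-s) + 1 := by
        rw [sum_range_succ', sum_range_succ']
        simp only [Nat.cast_zero, zero_add, Nat.cast_one, Real.one_rpow]
        rw [Real.zero_rpow (by linarith), add_zero]
        congr 1
        refine sum_congr rfl fun i _ => ?_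
        congr 1
        push_cast
        ring
    _ ≤ 1 / (s - 1) + 1 / (s - 1) := by linarith
    _ = 2 / (s - 1) := by ring

theorem pm_NeBil1 (B : Finset ℕ) (w z : ℕ → ℝ) (H : ℝ) (hw : ∀ i ∈ B, 0 ≤ w i)
    (hz : ∀ i ∈ B, 0 ≤ z i) (hH : ∑ i ∈ B, w i ≤ H) :
    (∑ i ∈ B, w i * z i) ^ 5 ≤ H ^ 4 * ∑ i ∈ B, w i * z i ^ 5 := by
  have hY : 0 ≤ ∑ i ∈ B, w i * z i ^ 5 :=
    sum_nonneg fun i hi => mul_nonneg (hw i hi) (pow_nonneg (hz i hi) _)
  rcases (sum_nonneg hw).eq_or_lt with h0 | h0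
  · have h1 : ∀ i ∈ B, w i = 0 := (sum_eq_zero_iff_of_nonneg hw).mp h0.symm
    have h2 : ∑ i ∈ B, w i * z i = 0 := sum_eq_zero fun i hi => by rw [h1 i hi, zero_mul]
    rw [h2]
    have : 0 ≤ H ^ 4 := by positivity
    simpa using mul_nonneg this hY
  set W := ∑ i ∈ B, w i with hW
  have h := Real.pow_arith_mean_le_arith_mean_pow B (fun i => w i / W) z
    (fun i hi => div_nonneg (hw i hi) h0.le) (by rw [← sum_div, div_self h0.ne']) hz 5
  simp only [div_mul_eq_mul_div, ← sum_div] at h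
  rw [div_pow, div_le_div_iff₀ (by positivity) h0] at h
  have h3 : (∑ i ∈ B, w i * z i) ^ 5 ≤ W ^ 4 * ∑ i ∈ B, w i * z i ^ 5 := by
    refine le_of_mul_le_mul_right ?_ h0
    calc _ ≤ _ := h
      _ = _ := by ring
  exact h3.trans (mul_le_mul_of_nonneg_right (pow_le_pow_left₀ h0.le hH 4) hY)

theorem fib_NeBil1 (A : Finset ℕ) (hA : ∀ l ∈ A, l.Prime) (m : ℕ) :
    ((Fintype.piFinset fun _ : Fin 5 => A).filter fun q => ∏ j, q j = m).card ≤ 5 ^ 5 := by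
  rcases ((Fintype.piFinset fun _ : Fin 5 => A).filter fun q => ∏ j, q j = m).eq_empty_or_nonempty
    with h | ⟨q₀, h0⟩
  · rw [h]
    simp
  obtain ⟨h1, h2⟩ := mem_filter.mp h0
  have hsub : ((Fintype.piFinset fun _ : Fin 5 => A).filter fun q => ∏ j, q j = m) ⊆
      Fintype.piFinset fun _ : Fin 5 => univ.image q₀ := by
    intro q hq
    obtain ⟨h3, h4⟩ := mem_filter.mp hq
    refine Fintype.mem_piFinset.mpr fun j => ?_
    have hp := hA _ (Fintype.mem_piFinset.mp h3 j)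
    have hd : q j ∣ ∏ i, q₀ i := by
      rw [h2, ← h4]
      exact dvd_prod_of_mem _ (mem_univ j)
    obtain ⟨i, -, hi⟩ := (Prime.dvd_finsetProd_iff hp.prime _).mp hd
    exact mem_image.mpr ⟨i, mem_univ i,
      ((Nat.prime_dvd_prime_iff_eq hp (hA _ (Fintype.mem_piFinset.mp h1 i))).mp hi).symm⟩
  refine (card_le_card hsub).trans ?_
  rw [Fintype.card_piFinset, prod_const, card_univ, Fintype.card_fin]
  exact Nat.pow_le_pow_left (card_image_le.trans (by simp)) 5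

theorem tup_NeBil1 (A I : Finset ℕ) (hA : ∀ l ∈ A, l.Prime) (F : ℕ → ℝ) (hF : ∀ m, 0 ≤ F m)
    (hI : ∀ q ∈ Fintype.piFinset fun _ : Fin 5 => A, ∏ j, q j ∈ I) :
    ∑ q ∈ Fintype.piFinset fun _ : Fin 5 => A, F (∏ j, q j) ≤ 5 ^ 5 * ∑ m ∈ I, F m := by
  rw [← sum_fiberwise_of_maps_to hI, mul_sum]
  refine sum_le_sum fun m _ => ?_
  rw [sum_congr rfl (g := fun _ => F m) fun q hq => by rw [(mem_filter.mp hq).2], sum_const,
    nsmul_eq_mul]
  refine mul_le_mul_of_nonneg_right ?_ (hF m)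
  exact_mod_cast fib_NeBil1 A hA m

theorem ls_NeBil1 (hC : ChsStmt) {s L : ℝ} (h1 : 1 < s) (h2 : s ≤ 2) (hL : 2 ≤ L)
    (B : Finset ℕ) (β : ℕ → ℂ)
    (hB : ∀ l ∈ B, l.Prime ∧ Odd l ∧ L ≤ l ∧ l < L ^ 2 ∧ ‖β l‖ ≤ (l : ℝ) ^ (-s)) (M₂ : ℕ) :
    ∑ m ∈ Ico ⌈L ^ 5⌉₊ M₂, (m : ℝ) ^ (-s) * ‖∑ l ∈ B, β l * (jacobiSym m l : ℤ)‖ ^ 2 ≤
      3 * (2 / (s - 1)) ^ 2 / L := by
  set H := 2 / (s - 1) with hH
  set I := Ico ⌈L ^ 5⌉₊ M₂
  have hL0 : 0 < L := by linarith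
  have hH0 : 0 ≤ H := div_nonneg (by norm_num) (by linarith)
  let K : ℕ → ℕ → ℝ := fun l l' =>
    ∑ m ∈ I, (m : ℝ) ^ (-s) * ((jacobiSym m l * jacobiSym m l' : ℤ) : ℝ)
  have e : ((∑ m ∈ I, (m : ℝ) ^ (-s) * ‖∑ l ∈ B, β l * (jacobiSym m l : ℤ)‖ ^ 2 : ℝ) : ℂ) =
      ∑ l ∈ B, ∑ l' ∈ B, β l * (starRingEnd ℂ) (β l') * (K l l' : ℝ) := by
    simp only [K, Complex.ofReal_sum, Complex.ofReal_mul, Complex.ofReal_pow, ← Complex.mul_conj',
      map_sum, map_mul, map_intCast, sum_mul_sum, Complex.ofReal_intCast, Int.cast_mul]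
    simp only [mul_sum]
    rw [sum_comm]
    refine sum_congr rfl fun l _ => ?_
    rw [sum_comm]
    refine sum_congr rfl fun l' _ => sum_congr rfl fun m _ => ?_
    ring
  have hM : (⌈L ^ 5⌉₊ : ℝ) ^ (-s) ≤ (L ^ 5)⁻¹ := by
    have a1 : L ^ 5 ≤ (⌈L ^ 5⌉₊ : ℝ) := Nat.le_ceil _
    have a2 : 1 ≤ L ^ 5 := one_le_pow₀ (by linarith)
    calc (⌈L ^ 5⌉₊ : ℝ) ^ (-s) ≤ (⌈L ^ 5⌉₊ : ℝ) ^ (-1 : ℝ) :=
          Real.rpow_le_rpow_of_exponent_le (a2.trans a1) (by linarith)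
      _ = (⌈L ^ 5⌉₊ : ℝ)⁻¹ := Real.rpow_neg_one _
      _ ≤ (L ^ 5)⁻¹ := inv_anti₀ (by positivity) a1
  have hK : ∀ l ∈ B, ∀ l' ∈ B, |K l l'| ≤ 2 / L + if l = l' then H else 0 := by
    intro l hl l' hl'
    split_ifs with h
    · have : |K l l'| ≤ H := by
        refine (abs_sum_le_sum_abs _ _).trans (le_trans (sum_le_sum fun m _ => ?_)
          (zeta_NeBil1 h1 h2 I))
        rw [abs_mul, abs_of_nonneg (by positivity)]
        refine mul_le_of_le_one_right (by positivity) ?_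
        rw [← h]
        rcases jacobiSym.trichotomy m l with h0 | h0 | h0 <;> simp [h0]
      have : 0 ≤ 2 / L := by positivity
      linarith
    · obtain ⟨p1, o1, -, u1, -⟩ := hB l hl
      obtain ⟨p2, o2, -, u2, -⟩ := hB l' hl'
      have a := hC l l' ⌈L ^ 5⌉₊ M₂ s p1 p2 o1 o2 h
        (Nat.one_le_ceil_iff.mpr (by positivity)) (by linarith)
      rw [add_zero]
      refine a.trans ?_
      have b : (l : ℝ) * l' ≤ L ^ 2 * L ^ 2 :=
        mul_le_mul u1.le u2.le (Nat.cast_nonneg _) (by positivity)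
      calc 2 * ((l : ℝ) * l') * (⌈L ^ 5⌉₊ : ℝ) ^ (-s) ≤ 2 * (L ^ 2 * L ^ 2) * (L ^ 5)⁻¹ := by
            gcongr
        _ = 2 / L := by field_simp
  have hβ : ∑ l ∈ B, ‖β l‖ ≤ H :=
    (sum_le_sum fun l hl => (hB l hl).2.2.2.2).trans (zeta_NeBil1 h1 h2 B)
  have hβ0 : 0 ≤ ∑ l ∈ B, ‖β l‖ := sum_nonneg fun _ _ => norm_nonneg _
  have hβL : ∀ l ∈ B, ‖β l‖ ≤ 1 / L := by
    intro l hl
    obtain ⟨-, -, u, -, v⟩ := hB l hl
    calc ‖β l‖ ≤ (l : ℝ) ^ (-s) := v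
      _ ≤ (l : ℝ) ^ (-1 : ℝ) := Real.rpow_le_rpow_of_exponent_le (by linarith) (by linarith)
      _ = (l : ℝ)⁻¹ := Real.rpow_neg_one _
      _ ≤ 1 / L := by rw [one_div]; exact inv_anti₀ hL0 u
  refine (le_abs_self _).trans ?_
  rw [← Real.norm_eq_abs, ← Complex.norm_real, e]
  calc ‖∑ l ∈ B, ∑ l' ∈ B, β l * (starRingEnd ℂ) (β l') * (K l l' : ℝ)‖
      ≤ ∑ l ∈ B, ∑ l' ∈ B, ‖β l‖ * ‖β l'‖ * (2 / L + if l = l' then H else 0) := by
        refine (norm_sum_le _ _).trans (sum_le_sum fun l hl => (norm_sum_le _ _).trans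
          (sum_le_sum fun l' hl' => ?_))
        rw [norm_mul, norm_mul, Complex.norm_conj, Complex.norm_real, Real.norm_eq_abs]
        exact mul_le_mul_of_nonneg_left (hK l hl l' hl') (by positivity)
    _ = (∑ l ∈ B, ‖β l‖) * (∑ l ∈ B, ‖β l‖) * (2 / L) + ∑ l ∈ B, ‖β l‖ * ‖β l‖ * H := by
        rw [sum_mul_sum, sum_mul, ← sum_add_distrib]
        refine sum_congr rfl fun l hl => ?_
        simp only [mul_add, sum_add_distrib, mul_ite, mul_zero, sum_ite_eq, if_pos hl, sum_mul]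
    _ ≤ H * H * (2 / L) + ∑ l ∈ B, ‖β l‖ * (1 / L * H) := by
        refine add_le_add (by gcongr) (sum_le_sum fun l hl => ?_)
        rw [mul_assoc]
        exact mul_le_mul_of_nonneg_left (mul_le_mul_of_nonneg_right (hβL l hl) hH0) (norm_nonneg _)
    _ ≤ H * H * (2 / L) + H * (1 / L * H) := by
        rw [← sum_mul]
        gcongr
    _ = 3 * H ^ 2 / L := by ring

theorem bil1_stmt (hC : ChsStmt) : Bil1Stmt := by
  refine ⟨24, by norm_num, fun s L A B a b h1 h2 hL hA hB => ?_⟩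
  set H := 2 / (s - 1) with hH
  have hu : 0 < s - 1 := by linarith
  have hL0 : 0 < L := by linarith
  have hH1 : 1 ≤ H := by
    rw [hH, le_div_iff₀ hu]
    linarith
  let α : ℕ → ℂ := fun l' => ∑ l ∈ A, a l * (jacobiSym l l' : ℤ)
  choose u hu1 hu2 using fun l' => Complex.exists_norm_eq_mul_self (α l' ^ 5)
  let β : ℕ → ℂ := fun l' => (‖b l'‖ : ℝ) * u l'
  have hβ : ∀ l', ‖β l'‖ = ‖b l'‖ := fun l' => by simp [β, hu1]
  let g : ℕ → ℂ := fun m => ∑ l ∈ B, β l * (jacobiSym m l : ℤ)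
  let P := Fintype.piFinset fun _ : Fin 5 => A
  set I := Ico ⌈L ^ 5⌉₊ (P.sup (fun q => ∏ j, q j) + 1) with hI
  set X := ‖∑ l ∈ A, ∑ l' ∈ B, a l * b l' * (jacobiSym l l' : ℤ)‖ with hX
  set Y := ∑ l' ∈ B, ‖b l'‖ * ‖α l'‖ ^ 5 with hY
  set Z := ∑ m ∈ I, (m : ℝ) ^ (-s) * ‖g m‖ with hZ
  have hX0 : 0 ≤ X := norm_nonneg _
  have hY0 : 0 ≤ Y := sum_nonneg fun _ _ => by positivity
  have s1 : X ≤ ∑ l' ∈ B, ‖b l'‖ * ‖α l'‖ := by
    rw [hX, sum_comm]
    refine (norm_sum_le _ _).trans (sum_le_sum fun l' _ => le_of_eq ?_)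
    rw [← norm_mul, mul_sum]
    congr 1
    exact sum_congr rfl fun l _ => by ring
  have s2 : X ^ 5 ≤ H ^ 4 * Y :=
    (pow_le_pow_left₀ hX0 s1 5).trans (pm_NeBil1 B _ _ H (fun _ _ => norm_nonneg _)
      (fun _ _ => norm_nonneg _)
      ((sum_le_sum fun l hl => (hB l hl).2.2.2.2).trans (zeta_NeBil1 h1 h2 B)))
  have e : (Y : ℂ) = ∑ q ∈ P, (∏ j, a (q j)) * g (∏ j, q j) := by
    have e1 : (Y : ℂ) = ∑ l' ∈ B, β l' * α l' ^ 5 := by
      rw [hY, Complex.ofReal_sum]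
      refine sum_congr rfl fun l' _ => ?_
      rw [Complex.ofReal_mul, ← norm_pow, hu2, mul_assoc]
    rw [e1]
    simp only [α, g, sum_pow', mul_sum]
    rw [sum_comm]
    refine sum_congr rfl fun q _ => sum_congr rfl fun l' _ => ?_
    simp only [Fin.prod_univ_five, Nat.cast_mul, jacobiSym.mul_left, Int.cast_mul]
    ring
  have hP : ∀ q ∈ P, ∀ j, q j ∈ A := fun q hq => Fintype.mem_piFinset.mp hq
  have s3 : Y ≤ 5 ^ 5 * Z := by
    refine le_trans ?_ (tup_NeBil1 A I (fun l hl => (hA l hl).1)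
      (fun m => (m : ℝ) ^ (-s) * ‖g m‖) (fun m => by positivity) fun q hq => ?_)
    · refine (le_abs_self _).trans ?_
      rw [← Real.norm_eq_abs, ← Complex.norm_real, e]
      refine (norm_sum_le _ _).trans (sum_le_sum fun q hq => ?_)
      rw [norm_mul, norm_prod, Nat.cast_prod,
        ← Real.finsetProd_rpow _ _ (fun j _ => Nat.cast_nonneg _)]
      exact mul_le_mul_of_nonneg_right (prod_le_prod (fun _ _ => norm_nonneg _)
        fun j _ => (hA _ (hP q hq j)).2.2) (norm_nonneg _)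
    · refine mem_Ico.mpr ⟨Nat.ceil_le.mpr ?_, Nat.lt_succ_of_le (le_sup (f := fun q => ∏ j, q j) hq)⟩
      rw [Nat.cast_prod]
      have := prod_le_prod (s := univ) (f := fun _ : Fin 5 => L) (g := fun j => (q j : ℝ))
        (fun _ _ => hL0.le) fun j _ => (hA _ (hP q hq j)).2.1
      simpa using this
  have s4 : Z ^ 2 ≤ H * (3 * H ^ 2 / L) := by
    have c := sum_sq_le_sum_mul_sum_of_sq_le_mul I (r := fun m => (m : ℝ) ^ (-s) * ‖g m‖)
      (f := fun m => (m : ℝ) ^ (-s)) (g := fun m => (m : ℝ) ^ (-s) * ‖g m‖ ^ 2)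
      (fun _ _ => by positivity) (fun _ _ => by positivity) fun _ _ => le_of_eq (by ring)
    refine c.trans (mul_le_mul (zeta_NeBil1 h1 h2 I) (ls_NeBil1 hC h1 h2 hL B β ?_ _)
      (sum_nonneg fun _ _ => by positivity) (by positivity))
    intro l hl
    rw [hβ]
    exact hB l hl
  have hR : (24 / (s - 1) ^ 2 * L ^ (-(1 / 10 : ℝ))) ^ 10 = 6 ^ 10 * H ^ 20 / L := by
    have r1 : (L ^ (-(1 / 10 : ℝ))) ^ 10 = L⁻¹ := by
      rw [← Real.rpow_natCast, ← Real.rpow_mul hL0.le, ← Real.rpow_neg_one]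
      norm_num
    have r2 : 24 / (s - 1) ^ 2 = 6 * H ^ 2 := by
      rw [hH]
      field_simp
      norm_num
    rw [mul_pow, r1, r2]
    ring
  refine le_of_pow_le_pow_left₀ (n := 10) (by norm_num) (by positivity) ?_
  rw [hR]
  calc X ^ 10 = (X ^ 5) ^ 2 := by ring
    _ ≤ (H ^ 4 * (5 ^ 5 * Z)) ^ 2 :=
        pow_le_pow_left₀ (by positivity) (s2.trans (by gcongr)) 2
    _ = H ^ 8 * 5 ^ 10 * Z ^ 2 := by ring
    _ ≤ H ^ 8 * 5 ^ 10 * (H * (3 * H ^ 2 / L)) := by gcongr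
    _ = 3 * 5 ^ 10 * H ^ 11 / L := by ring
    _ ≤ 6 ^ 10 * H ^ 20 / L := by
        refine div_le_div_of_nonneg_right ?_ hL0.le
        exact mul_le_mul (by norm_num) (pow_le_pow_right₀ hH1 (by norm_num)) (by positivity)
          (by norm_num)

end Pool.Agent.MP_f68ac8_nt.Nd

end

section

namespace Pool.Agent.MP_f68ac8_nt.Nd
open Finset Filter
open Zv (Ex Prob)
open scoped BigOperators

theorem idx_NeBil {Z : ℝ} (hZ : 2 ≤ Z) (x : ℝ) :
    ∃ j : ℕ, Z ≤ x → Z ^ 2 ^ j ≤ x ∧ x < (Z ^ 2 ^ j) ^ 2 := by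
  classical
  have hex : ∃ j : ℕ, x < (Z ^ 2 ^ j) ^ 2 := by
    obtain ⟨n, hn⟩ := pow_unbounded_of_one_lt x (by linarith : 1 < Z)
    refine ⟨n, hn.trans_le ?_⟩
    rw [← pow_mul]
    exact pow_le_pow_right₀ (by linarith) (Nat.lt_two_pow_self.le.trans (Nat.le_mul_of_pos_right _
      two_pos))
  refine ⟨Nat.find hex, fun hx => ⟨?_, Nat.find_spec hex⟩⟩
  rcases h : Nat.find hex with _ | k
  · simpa using hx
  · have := Nat.find_min hex (m := k) (by omega)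
    rw [pow_succ, pow_mul]
    exact not_lt.1 this

theorem split_NeBil (A : Finset ℕ) (j : ℕ → ℕ) (N : ℕ) (hN : ∀ l ∈ A, j l < N)
    (R : ℕ → ℕ → Prop) [∀ i l, Decidable (R i l)] (g : ℕ → ℕ → ℂ) :
    ∑ l ∈ A, ∑ l' ∈ A, (if R (j l') l then g l l' else 0) =
      ∑ i ∈ range N, ∑ l ∈ A with R i l, ∑ l' ∈ A with j l' = i, g l l' := by
  simp only [sum_filter]
  rw [sum_comm (s := range N)]
  refine sum_congr rfl fun l _ => ?_
  have h : ∀ i, (if R i l then ∑ l' ∈ A, (if j l' = i then g l l' else 0) else 0) =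
      ∑ l' ∈ A, if j l' = i then (if R i l then g l l' else 0) else 0 := fun i => by
    split_ifs <;> simp
  simp only [h]
  rw [sum_comm]
  refine sum_congr rfl fun l' hl' => ?_
  rw [sum_ite_eq, if_pos (mem_range.2 (hN l' hl'))]

theorem geom_NeBil {Z : ℝ} (hZ : 2 ≤ Z) (N : ℕ) :
    ∑ i ∈ range N, (Z ^ 2 ^ i) ^ (-(1 / 10 : ℝ)) ≤
      (1 - (2 : ℝ) ^ (-(1 / 10 : ℝ)))⁻¹ * Z ^ (-(1 / 10 : ℝ)) := by
  have h0 : (0 : ℝ) < Z := by linarith
  have hρ : (2 : ℝ) ^ (-(1 / 10 : ℝ)) < 1 :=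
    Real.rpow_lt_one_of_one_lt_of_neg one_lt_two (by norm_num)
  have hρ0 : 0 ≤ (2 : ℝ) ^ (-(1 / 10 : ℝ)) := by positivity
  have hw : Z ^ (-(1 / 10 : ℝ)) ≤ (2 : ℝ) ^ (-(1 / 10 : ℝ)) :=
    Real.rpow_le_rpow_of_nonpos two_pos hZ (by norm_num)
  have hw0 : 0 ≤ Z ^ (-(1 / 10 : ℝ)) := by positivity
  have h1 : ∀ i : ℕ, (Z ^ 2 ^ i) ^ (-(1 / 10 : ℝ)) ≤
      ((2 : ℝ) ^ (-(1 / 10 : ℝ))) ^ i * Z ^ (-(1 / 10 : ℝ)) := fun i => by
    rw [← Real.rpow_pow_comm h0.le]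
    refine (pow_le_pow_of_le_one hw0 (hw.trans hρ.le)
      (Nat.succ_le_of_lt Nat.lt_two_pow_self : i + 1 ≤ 2 ^ i)).trans ?_
    rw [pow_succ]
    exact mul_le_mul_of_nonneg_right (pow_le_pow_left₀ hw0 hw i) hw0
  refine (sum_le_sum fun i _ => h1 i).trans ?_
  rw [← sum_mul]
  refine mul_le_mul_of_nonneg_right ?_ hw0
  rw [← tsum_geometric_of_lt_one hρ0 hρ]
  exact (summable_geometric_of_lt_one hρ0 hρ).sum_le_tsum _ fun i _ => by positivity

theorem bil_stmt (h1 : Bil1Stmt) : BilStmt := by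
  obtain ⟨C, hC, h⟩ := h1
  have hρ : (2 : ℝ) ^ (-(1 / 10 : ℝ)) < 1 :=
    Real.rpow_lt_one_of_one_lt_of_neg one_lt_two (by norm_num)
  have hK : 0 < (1 - (2 : ℝ) ^ (-(1 / 10 : ℝ)))⁻¹ := inv_pos.2 (by linarith)
  refine ⟨4 * (C * (1 - (2 : ℝ) ^ (-(1 / 10 : ℝ)))⁻¹), by positivity, ?_⟩
  intro s Z A a b hs1 hs2 hZ hA
  choose j hj using fun l : ℕ => idx_NeBil hZ (l : ℝ)
  have hN : ∀ l ∈ A, j l < A.sup j + 1 := fun l hl => Nat.lt_succ_of_le (le_sup hl)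
  have key : ∀ (R : ℕ → ℕ → Prop) [∀ i l, Decidable (R i l)] (a b : ℕ → ℂ),
      (∀ i l, R i l → i ≤ j l) → (∀ l ∈ A, ‖a l‖ ≤ (l : ℝ) ^ (-s)) →
      (∀ l ∈ A, ‖b l‖ ≤ (l : ℝ) ^ (-s)) →
      ‖∑ l ∈ A, ∑ l' ∈ A, (if R (j l') l then a l * b l' * (jacobiSym l l' : ℤ) else 0)‖ ≤
        C * (1 - (2 : ℝ) ^ (-(1 / 10 : ℝ)))⁻¹ / (s - 1) ^ 2 * Z ^ (-(1 / 10 : ℝ)) := by
    intro R _ a b hR ha hb
    rw [split_NeBil A j _ hN R]
    refine (norm_sum_le _ _).trans ((sum_le_sum fun i _ =>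
      h s (Z ^ 2 ^ i) _ _ a b hs1 hs2 ?_ (fun l hl => ?_) fun l hl => ?_).trans ?_)
    · exact hZ.trans (le_self_pow₀ (by linarith) (by positivity))
    · obtain ⟨hl, hl'⟩ := mem_filter.1 hl
      refine ⟨(hA l hl).1, le_trans ?_ (hj l (hA l hl).2.2.1).1, ha l hl⟩
      exact pow_le_pow_right₀ (by linarith) (Nat.pow_le_pow_right two_pos (hR i l hl'))
    · obtain ⟨hl2, hl3⟩ := mem_filter.1 hl
      rw [← hl3]
      exact ⟨(hA l hl2).1, (hA l hl2).2.1, (hj l (hA l hl2).2.2.1).1, (hj l (hA l hl2).2.2.1).2,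
        hb l hl2⟩
    · rw [← mul_sum]
      refine (mul_le_mul_of_nonneg_left (geom_NeBil hZ _) (by positivity)).trans (le_of_eq ?_)
      ring
  have ha : ∀ l ∈ A, ‖a l‖ ≤ (l : ℝ) ^ (-s) := fun l hl => (hA l hl).2.2.2.1
  have hb : ∀ l ∈ A, ‖b l‖ ≤ (l : ℝ) ^ (-s) := fun l hl => (hA l hl).2.2.2.2
  have hθ : ∀ c : ℕ → ℂ, (∀ l ∈ A, ‖c l‖ ≤ (l : ℝ) ^ (-s)) →
      ∀ l ∈ A, ‖if l % 4 = 3 then c l else 0‖ ≤ (l : ℝ) ^ (-s) := fun c hc l hl => by
    split_ifs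
    · exact hc l hl
    · rw [norm_zero]
      positivity
  have k1 := key (fun i l => i ≤ j l) a b (fun _ _ h => h) ha hb
  have k2 := key (fun i l => i < j l) b a (fun _ _ h => h.le) hb ha
  have k3 := key (fun i l => i < j l) _ _ (fun _ _ h => h.le) (hθ b hb) (hθ a ha)
  rw [sum_comm] at k2 k3
  have e : ∑ l ∈ A, ∑ l' ∈ A, a l * b l' * (jacobiSym l l' : ℤ) =
      ∑ l ∈ A, ∑ l' ∈ A, (if j l' ≤ j l then a l * b l' * (jacobiSym l l' : ℤ) else 0) +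
      ∑ l ∈ A, ∑ l' ∈ A, (if j l < j l' then b l' * a l * (jacobiSym l' l : ℤ) else 0) -
      2 * ∑ l ∈ A, ∑ l' ∈ A, (if j l < j l' then (if l' % 4 = 3 then b l' else 0) *
        (if l % 4 = 3 then a l else 0) * (jacobiSym l' l : ℤ) else 0) := by
    simp only [mul_sum, ← sum_add_distrib, ← sum_sub_distrib]
    refine sum_congr rfl fun l hl => sum_congr rfl fun l' hl' => ?_
    by_cases hj' : j l' ≤ j l
    · rw [if_pos hj', if_neg (not_lt.2 hj'), if_neg (not_lt.2 hj')]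
      ring
    · rw [if_neg hj', if_pos (not_le.1 hj'), if_pos (not_le.1 hj'),
        ← jacobiSym.quadratic_reciprocity_if (Nat.odd_iff.1 (hA l hl).2.1)
          (Nat.odd_iff.1 (hA l' hl').2.1)]
      by_cases h3 : l % 4 = 3 <;> by_cases h3' : l' % 4 = 3 <;>
        simp only [h3, h3', and_self, and_true, and_false, if_true, if_false, Int.cast_neg] <;>
        ring
  rw [e]
  refine (norm_sub_le _ _).trans ((add_le_add ((norm_add_le _ _).trans (add_le_add k1 k2))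
    ((norm_mul_le _ _).trans (mul_le_mul_of_nonneg_left k3 (norm_nonneg _)))).trans (le_of_eq ?_))
  rw [Complex.norm_ofNat]
  ring

end Pool.Agent.MP_f68ac8_nt.Nd

end

section

namespace Pool.Agent.MP_f68ac8_nt.Nd
open Finset Filter
open Zv (Ex Prob)
open scoped BigOperators

lemma ev_NePar (K : ℝ) {a b : ℝ} (h : a < b) : ∀ᶠ T : ℝ in atTop, K * T ^ a ≤ T ^ b := by
  filter_upwards [(tendsto_rpow_atTop (sub_pos.2 h)).eventually_ge_atTop K,
    eventually_gt_atTop 0] with T h1 h0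
  have e : T ^ b = T ^ (b - a) * T ^ a := by
    rw [← Real.rpow_add h0, sub_add_cancel]
  rw [e]
  exact mul_le_mul_of_nonneg_right h1 (Real.rpow_nonneg h0.le a)

lemma ti_NePar (p : Par) (hle : p.Z ≤ p.Y) {m : Fin 4} {l : ℕ} (hm : m ≠ 0) (hl : l ∈ p.ti) :
    p.W m l = 0 := by
  have h1 : (l : ℝ) ≤ p.Z := (mem_filter.1 hl).2
  have h2 : l ∉ p.sm := fun h => absurd (mem_filter.1 h).2.1 (not_lt.2 h1)
  have h3 : l ∉ p.lg := fun h => absurd (mem_filter.1 h).2 (not_lt.2 (h1.trans hle))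
  fin_cases m
  · exact absurd rfl hm
  · exact if_neg h2
  · exact if_pos (Or.inl hl)
  · exact if_neg h3

lemma bil_NePar (p : Par) (hle : p.Z ≤ p.Y) {m m' : Fin 4} {a b : ℕ → ℂ} (hm : m ≠ 0)
    (hm' : m' ≠ 0) (ha : ∀ l ∈ p.Λ, ‖a l‖ ≤ p.W m l) (hb : ∀ l ∈ p.Λ, ‖b l‖ ≤ p.W m' l) :
    ∑ l ∈ p.Λ, ∑ l' ∈ p.Λ, a l * b l' * (jacobiSym l l' : ℤ) =
      ∑ l ∈ p.Λ.filter (fun l : ℕ => p.Z < l), ∑ l' ∈ p.Λ.filter (fun l : ℕ => p.Z < l),
        a l * b l' * (jacobiSym l l' : ℤ) := by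
  have h0 : ∀ l ∈ p.Λ, l ∉ p.Λ.filter (fun l : ℕ => p.Z < l) → l ∈ p.ti := fun l h1 h2 =>
    mem_filter.2 ⟨h1, not_lt.1 fun h => h2 (mem_filter.2 ⟨h1, h⟩)⟩
  symm
  rw [← sum_subset (filter_subset (fun l : ℕ => p.Z < l) p.Λ)]
  · refine sum_congr rfl fun l _ => sum_subset (filter_subset _ _) fun l' h1 h2 => ?_
    have h3 := hb l' h1
    rw [ti_NePar p hle hm' (h0 l' h1 h2)] at h3
    rw [norm_le_zero_iff.1 h3, mul_zero, zero_mul]
  · intro l h1 h2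
    have h3 := ha l h1
    rw [ti_NePar p hle hm (h0 l h1 h2)] at h3
    refine sum_eq_zero fun l' _ => ?_
    rw [norm_le_zero_iff.1 h3, zero_mul, zero_mul]

lemma sz_NePar {R : Finset ℕ} {B D : ℝ} (hB : 0 ≤ Real.log B) (hD : (R.card : ℝ) ≤ D)
    (h : ∀ l ∈ R, 0 < l ∧ (l : ℝ) ≤ B) : ∑ l ∈ R, Real.log l ≤ D * Real.log B := by
  have h1 := sum_le_card_nsmul R (fun l : ℕ => Real.log l) (Real.log B) fun l hl =>
    Real.log_le_log (by exact_mod_cast (h l hl).1) (h l hl).2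
  rw [nsmul_eq_mul] at h1
  exact h1.trans (mul_le_mul_of_nonneg_right hD hB)

lemma num_NePar {δ A c c₀ C : ℝ} {k : ℕ} (hδ : 0 < δ) (hc : 0 < c) (h0 : 0 < c₀) (hC : 0 < C)
    (hk : δ / 4 + |A| + 1 ≤ (k + 1) * δ / 2) : ∀ᶠ T : ℝ in atTop,
    c₀ / (T ^ (δ / 4)) ^ 2 ≤ c / T ^ (δ / 4) ∧ C * T ^ (-δ) ≤ c₀ / (T ^ (δ / 4)) ^ 2 ∧
    C * (T ^ (δ / 4) * (T ^ (-δ) / (c₀ / (T ^ (δ / 4)) ^ 2)) ^ (k + 1) +
      T ^ (-((k + 1) * δ / 2))) ≤ T ^ (-A) := by
  have hA := le_abs_self A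
  filter_upwards [ev_NePar (c₀ / c) (a := 0) (b := δ / 4) (by linarith),
    ev_NePar (C / c₀) (a := -δ) (b := -(δ / 2)) (by linarith),
    ev_NePar (C * (1 / c₀ ^ (k + 1) + 1)) (a := δ / 4 + -((k + 1) * δ / 2)) (b := -A)
      (by linarith), eventually_ge_atTop 1] with T h1 h2 h3 hT
  have hT0 : 0 < T := by linarith
  have hM : 1 ≤ T ^ (δ / 4) := Real.one_le_rpow hT (by linarith)
  have e1 : (T ^ (δ / 4)) ^ 2 = T ^ (δ / 2) := by
    rw [← Real.rpow_natCast, ← Real.rpow_mul hT0.le]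
    congr 1
    push_cast
    ring
  have e2 : c₀ / (T ^ (δ / 4)) ^ 2 = c₀ * T ^ (-(δ / 2)) := by
    rw [e1, Real.rpow_neg hT0.le, div_eq_mul_inv]
  refine ⟨?_, ?_, ?_⟩
  · rw [Real.rpow_zero, mul_one, div_le_iff₀ hc] at h1
    rw [div_le_div_iff₀ (by positivity) (by positivity)]
    nlinarith
  · rw [e2]
    rw [div_mul_eq_mul_div, div_le_iff₀ h0] at h2
    linarith
  · have e3 : T ^ (-δ) / (c₀ / (T ^ (δ / 4)) ^ 2) = T ^ (-(δ / 2)) / c₀ := by
      have e : T ^ (-δ) = T ^ (-(δ / 2)) * T ^ (-(δ / 2)) := by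
        rw [← Real.rpow_add hT0]
        congr 1
        ring
      have h4 : 0 < T ^ (-(δ / 2)) := Real.rpow_pos_of_pos hT0 _
      rw [e2, e]
      field_simp
    have e4 : (T ^ (-(δ / 2))) ^ (k + 1) = T ^ (-((k + 1) * δ / 2)) := by
      rw [← Real.rpow_natCast, ← Real.rpow_mul hT0.le]
      congr 1
      push_cast
      ring
    rw [e3, div_pow, e4]
    rw [Real.rpow_add hT0] at h3
    refine le_trans ?_ h3
    have h5 : 0 < T ^ (-((k + 1) * δ / 2)) := Real.rpow_pos_of_pos hT0 _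
    generalize T ^ (-((k + 1) * δ / 2)) = w at h5 ⊢
    generalize T ^ (δ / 4) = M at hM ⊢
    have h6 : 0 ≤ C * w * (M - 1) := mul_nonneg (mul_pos hC h5).le (by linarith)
    have e5 : C * (1 / c₀ ^ (k + 1) + 1) * (M * w) =
      C * (M * (w / c₀ ^ (k + 1)) + w) + C * w * (M - 1) := by ring
    linarith

lemma num2_NePar {δ A B CB ρ₀ c₀ : ℝ} (r : ℕ) (hδ : 0 < δ) (hδ1 : δ ≤ 1) (hρ : 0 < ρ₀)
    (hB : B = 10 * (|A| + 3)) : ∀ᶠ T : ℝ in atTop,
    1 < T ∧ 0 ≤ Real.log T ∧ c₀ / (T ^ (δ / 4)) ^ 2 ≤ ρ₀ ∧ 1 / T ≤ T ^ (-δ) ∧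
    1 + r * T ^ (δ / 8) ≤ T ^ (δ / 4) ∧ 2 + Real.log T ^ 2 * (B * Real.log T) ≤ T ^ (δ / 4) ∧
    CB / (1 + 1 / T - 1) ^ 2 * (T ^ B) ^ (-(1 / 10 : ℝ)) ≤ T ^ (-A) ∧ 2 ≤ T ^ B ∧
    1 / T ^ B ≤ T ^ (-A) := by
  have hA := le_abs_self A
  have hA0 := abs_nonneg A
  filter_upwards [ev_NePar (c₀ / ρ₀) (a := 0) (b := δ / 4) (by linarith),
    ev_NePar (1 + r) (a := δ / 8) (b := δ / 4) (by linarith),
    ev_NePar (2 + B / (δ / 24) ^ 3) (a := δ / 8) (b := δ / 4) (by linarith),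
    ev_NePar CB (a := 2 + B * -(1 / 10)) (b := -A) (by linarith),
    ev_NePar 2 (a := 0) (b := B) (by linarith), eventually_gt_atTop 1] with T h1 h2 h3 h4 h5 hT
  have hT0 : 0 < T := by linarith
  have hM : 1 ≤ T ^ (δ / 4) := Real.one_le_rpow hT.le (by linarith)
  have hM' : 1 ≤ T ^ (δ / 8) := Real.one_le_rpow hT.le (by linarith)
  have hL : 0 ≤ Real.log T := Real.log_nonneg hT.le
  refine ⟨hT, hL, ?_, ?_, by nlinarith, ?_, ?_, by simpa using h5, ?_⟩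
  · rw [Real.rpow_zero, mul_one, div_le_iff₀ hρ] at h1
    rw [div_le_iff₀ (by positivity)]
    nlinarith [mul_nonneg hρ.le (mul_nonneg (zero_le_one.trans hM) (sub_nonneg.2 hM))]
  · rw [one_div, ← Real.rpow_neg_one]
    exact Real.rpow_le_rpow_of_exponent_le hT.le (by linarith)
  · have h6 := Real.log_le_rpow_div hT0.le (ε := δ / 24) (by linarith)
    have h7 := pow_le_pow_left₀ hL h6 3
    have e : (T ^ (δ / 24)) ^ 3 = T ^ (δ / 8) := by
      rw [← Real.rpow_natCast, ← Real.rpow_mul hT0.le]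
      congr 1
      push_cast
      ring
    rw [div_pow, e] at h7
    have h8 := mul_le_mul_of_nonneg_left h7 (show 0 ≤ B by linarith)
    have e2 : (2 + B / (δ / 24) ^ 3) * T ^ (δ / 8) =
      2 * T ^ (δ / 8) + B * (T ^ (δ / 8) / (δ / 24) ^ 3) := by ring
    have e3 : Real.log T ^ 2 * (B * Real.log T) = B * Real.log T ^ 3 := by ring
    linarith
  · have e : CB / (1 + 1 / T - 1) ^ 2 * (T ^ B) ^ (-(1 / 10 : ℝ)) =
        CB * T ^ (2 + B * -(1 / 10)) := by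
      rw [Real.rpow_add hT0, Real.rpow_mul hT0.le, Real.rpow_two, add_sub_cancel_left]
      field_simp
    rw [e]
    exact h4
  · rw [one_div, ← Real.rpow_neg hT0.le]
    exact Real.rpow_le_rpow_of_exponent_le hT.le (by linarith)

theorem par_stmt (hC : ChebStmt) (hS : SelStmt) (hB : BilStmt) (hU : MupStmt) (hL : MloStmt) :
    ParStmt := by
  obtain ⟨c, hc, hc2⟩ := hC 2
  refine ⟨c, hc, fun n r p₁ δ A hδ hδ1 => ?_⟩
  obtain ⟨c', hc', hcn⟩ := hC n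
  obtain ⟨c₁, hc₁, hS1⟩ := hS.1 n
  obtain ⟨c₂, hc₂, hS2⟩ := hS.2
  obtain ⟨ρ₀, hρ₀, hS3⟩ := hS2 (max p₁ 3)
  obtain ⟨k, hk⟩ := exists_nat_ge ((δ / 4 + |A| + 1) * 2 / δ)
  have hk' : δ / 4 + |A| + 1 ≤ (k + 1) * δ / 2 := by
    rw [div_le_iff₀ hδ] at hk
    linarith
  obtain ⟨C, hC0, hC2⟩ := hc2 k
  obtain ⟨C', hC0', hCn⟩ := hcn k
  obtain ⟨CB, hCB, hB⟩ := hB
  obtain ⟨B, hBe⟩ : ∃ B : ℝ, B = 10 * (|A| + 3) := ⟨_, rfl⟩
  have hB1 : 1 ≤ B := by linarith [abs_nonneg A]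
  have h0 : 0 < min c₁ c₂ := lt_min hc₁ hc₂
  have hlog : Tendsto (fun X : ℕ => Real.log X) atTop atTop :=
    Real.tendsto_log_atTop.comp tendsto_natCast_atTop_atTop
  filter_upwards [hU δ B k hδ hδ1 hB1, hL δ B k r hδ hδ1 hB1,
    hlog.eventually (num_NePar hδ hc h0 hC0 hk'), hlog.eventually (num_NePar hδ hc' h0 hC0' hk'),
    hlog.eventually (num2_NePar (CB := CB) (c₀ := min c₁ c₂) r hδ (by linarith) hρ₀ hBe)] with X xU xL x2 xn xx
  obtain ⟨hT, hLL, x1, x3, x4, x5, x6, x7, x8⟩ := xx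
  have hT0 : 0 < Real.log X := by linarith
  have hM : 0 < Real.log X ^ (δ / 4) := Real.rpow_pos_of_pos hT0 _
  have hρ : 0 < min c₁ c₂ / (Real.log X ^ (δ / 4)) ^ 2 := by positivity
  obtain ⟨E, hE, hE2⟩ := hS1 (Real.log X ^ (δ / 4)) _ r
    (div_le_div_of_nonneg_right (min_le_left c₁ c₂) (by positivity))
  obtain ⟨p₀, hp₀, hp2⟩ := hS3 (Real.log X ^ (δ / 4)) _
    (div_le_div_of_nonneg_right (min_le_right c₁ c₂) (by positivity)) x1
  obtain ⟨u1, X', hX', u2⟩ := xU E p₀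
  obtain ⟨v1, v2, v3, v4, v5, v6, v7⟩ := u1 X'
  obtain ⟨w1, w2, w3, w4⟩ := xL E p₀ X' hE hX'
  have hΛ : ∀ l, l ∈ (par X δ B k E p₀ X').Λ ↔ l < X' + 1 ∧ l.Prime ∧ Odd l ∧ l ≠ p₀ :=
    fun l => mem_filter.trans (and_congr_left' mem_range)
  have es : (par X δ B k E p₀ X').s = 1 + 1 / Real.log X := rfl
  have eh : (par X δ B k E p₀ X').h = Real.log X ^ (-δ) := rfl
  have eZ : (par X δ B k E p₀ X').Z = Real.log X ^ B := rfl
  have eY : (par X δ B k E p₀ X').Y = Real.exp (Real.log X ^ (δ / 8)) := rfl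
  have ek : (par X δ B k E p₀ X').k = k := rfl
  have eE : (par X δ B k E p₀ X').E = E := rfl
  generalize par X δ B k E p₀ X' = p at *
  subst ek
  have s1 : 1 < p.s := by
    rw [es]
    exact lt_add_of_pos_right _ (by positivity)
  have s2 : p.s ≤ 2 := by
    have h := (div_le_one hT0).2 hT.le
    linarith
  have s3 : p.s ≤ 1 + p.h := by linarith
  have s4 : 0 < p.h := by
    rw [eh]
    exact Real.rpow_pos_of_pos hT0 _
  rw [← eh] at x2 xn
  refine ⟨p, p₀, (le_max_left _ _).trans hp₀,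
    ⟨fun l hl => ⟨((hΛ l).1 hl).2.1, ((hΛ l).1 hl).2.2.1⟩, v1, v2, v3, w1, w2,
      fun m l hm => (v5 m l hm).trans (eZ ▸ x8), fun m m' a b hm hm' ha hb => ?_,
      fun R hR hr N hN τ hτ σ hσ e φ hφ => ?_, fun R hR hr N hN τ hτ σ hσ e φ hφ => ?_⟩,
    es, fun l h1 h2 h3 h4 => (hΛ l).2 ⟨by omega, h1, h2, h3⟩, v6, v7, w3, w4⟩
  · rw [bil_NePar p v1 hm hm' ha hb]
    refine (hB p.s p.Z _ a b s1 s2 (eZ ▸ x7) fun l hl => ?_).trans (by rw [es, eZ]; assumption)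
    obtain ⟨h1, h2⟩ := mem_filter.1 hl
    exact ⟨((hΛ l).1 h1).2.1, ((hΛ l).1 h1).2.2.1, h2.le, (ha l h1).trans (v4 m l),
      (hb l h1).trans (v4 m' l)⟩
  · have hsz : sz R ≤ Real.log X ^ (δ / 4) := by
      have h1 := sz_NePar (R := R) (B := p.Y) (D := r)
        (by rw [eY, Real.log_exp]; positivity) (by exact_mod_cast hr) fun l hl =>
        ⟨((hΛ l).1 (mem_filter.1 (hR hl)).1).2.1.pos, (mem_filter.1 (hR hl)).2.2.1⟩
      rw [eY, Real.log_exp] at h1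
      unfold sz
      linarith
    refine (hCn R N hN _ _ p.h p.s τ _ hsz hρ xn.1 (hE2 R N hN hr hsz ?_) s4 xn.2.1 s1 s3
      (hτ.trans hc'.le) p.lg σ (fun l hl => ?_) u2 e φ hφ).trans xn.2.2
    · exact disjoint_left.2 fun l hl => eE ▸ (mem_filter.1 (hR hl)).2.2.2
    · exact ⟨((hΛ l).1 (mem_filter.1 hl).1).2.1, fun h =>
        absurd (mem_filter.1 hl).2 (not_lt.2 (mem_filter.1 (hR h)).2.2.1), hσ l hl⟩
  · have ho : ∀ l ∈ p.Λ, l ≠ 2 := fun l hl h => by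
      have h1 := ((hΛ l).1 hl).2.2.1
      rw [h] at h1
      exact absurd h1 (by decide)
    have hsz : sz (insert 2 R) ≤ Real.log X ^ (δ / 4) := by
      have e : Real.log p.Z = B * Real.log (Real.log X) := by rw [eZ, Real.log_rpow hT0]
      have h1 := sz_NePar (R := R) (B := p.Z) (D := LL X ^ 2)
        (by rw [e]; positivity) hr fun l hl =>
        ⟨((hΛ l).1 (mem_filter.1 (hR hl)).1).2.1.pos, (mem_filter.1 (hR hl)).2⟩
      have h2 := Real.log_le_sub_one_of_pos (x := ((2 : ℕ) : ℝ)) (by norm_num)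
      rw [e] at h1
      unfold sz
      rw [sum_insert fun h => ho 2 (mem_filter.1 (hR h)).1 rfl]
      unfold LL at h1
      push_cast at h2 ⊢
      linarith
    refine (hC2 _ N hN _ _ p.h p.s τ _ hsz hρ x2.1 (hp2 _ N hN hsz ?_) s4 x2.2.1 s1 s3
      hτ p.lg σ (fun l hl => ?_) u2 e φ hφ).trans x2.2.2
    · intro h
      rcases mem_insert.1 h with h | h
      · have := (le_max_right _ _).trans hp₀
        omega
      · exact ((hΛ p₀).1 (mem_filter.1 (hR h)).1).2.2.2 rfl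
    · refine ⟨((hΛ l).1 (mem_filter.1 hl).1).2.1, fun h => ?_, hσ l hl⟩
      rcases mem_insert.1 h with h | h
      · exact ho l (mem_filter.1 hl).1 h
      · exact absurd (mem_filter.1 hl).2 (not_lt.2 ((mem_filter.1 (hR h)).2.trans v1))

end Pool.Agent.MP_f68ac8_nt.Nd

end

section

namespace Pool.Agent.MP_f68ac8_nt.Nd
open Finset Filter
open Zv (Ex Prob)
open scoped BigOperators

theorem markov_NePois (Λ : Finset ℕ) (hΛ : ∀ l ∈ Λ, l.Prime) (s C₀ : ℝ) (K : ℕ → ℝ)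
    (hK : ∀ a : ℕ, a ≠ 0 → ∀ A : Finset ℕ, ∑ n ∈ A, (n : ℝ) ^ (-s) * K (a * n) ≤ C₀)
    (V : ℕ → ℝ) (hV : ∀ l, 0 ≤ V l) (A : Finset ℕ) (hA : ∀ n ∈ A, n.primeFactors ⊆ Λ) :
    ∑ n ∈ A, ∑ l ∈ n.primeFactors, V l * ((n / l : ℕ) : ℝ) ^ (-s) * K n ≤ C₀ * ∑ l ∈ Λ, V l := by
  have e1 : ∑ n ∈ A, ∑ l ∈ n.primeFactors, V l * ((n / l : ℕ) : ℝ) ^ (-s) * K n =
      ∑ n ∈ A, ∑ l ∈ Λ, if l ∈ n.primeFactors then V l * ((n / l : ℕ) : ℝ) ^ (-s) * K n else 0 := by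
    refine sum_congr rfl fun n hn => ?_
    rw [← sum_filter, filter_mem_eq_inter, inter_eq_right.mpr (hA n hn)]
  rw [e1, sum_comm, mul_sum]
  refine sum_le_sum fun l hl => ?_
  have hl0 : l ≠ 0 := (hΛ l hl).ne_zero
  rw [← sum_filter]
  have h := hK l hl0 ((A.filter fun n => l ∈ n.primeFactors).image fun n => n / l)
  rw [sum_image] at h
  · have e2 : ∑ n ∈ A.filter (fun n => l ∈ n.primeFactors), V l * ((n / l : ℕ) : ℝ) ^ (-s) * K n =
        V l * ∑ n ∈ A.filter (fun n => l ∈ n.primeFactors),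
          ((n / l : ℕ) : ℝ) ^ (-s) * K (l * (n / l)) := by
      rw [mul_sum]
      refine sum_congr rfl fun n hn => ?_
      rw [Nat.mul_div_cancel' (Nat.dvd_of_mem_primeFactors (mem_filter.mp hn).2), mul_assoc]
    rw [e2, mul_comm C₀]
    exact mul_le_mul_of_nonneg_left h (hV l)
  · intro a ha b hb hab
    have ha' := Nat.dvd_of_mem_primeFactors (mem_filter.mp (mem_coe.mp ha)).2
    have hb' := Nat.dvd_of_mem_primeFactors (mem_filter.mp (mem_coe.mp hb)).2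
    have hab' : a / l = b / l := hab
    rw [← Nat.mul_div_cancel' ha', ← Nat.mul_div_cancel' hb', hab']

theorem cast_prod_NePois {ι : Type} (T : Finset ι) (f : ι → ℕ) (s : ℝ) :
    ((∏ i ∈ T, f i : ℕ) : ℝ) ^ s = ∏ i ∈ T, (f i : ℝ) ^ s := by
  rw [Nat.cast_prod, Real.finsetProd_rpow _ _ (fun i _ => Nat.cast_nonneg _)]

theorem expand_NePois {Λ : Finset ℕ} {W : Fin 4 → ℕ → ℝ} {s : ℝ}
    (hs : ∀ l ∈ Λ, ∑ m, W m l = (l : ℝ) ^ (-s)) {d : ℕ} (q : Fin d → Λ) :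
    ∑ μ : Fin d → Fin 4, ∏ j, W (μ j) (q j) = (np q : ℝ) ^ (-s) := by
  rw [np, cast_prod_NePois, ← Fintype.piFinset_univ,
    ← prod_univ_sum (fun _ : Fin d => (univ : Finset (Fin 4))) (fun j m => W m (q j))]
  exact prod_congr rfl fun j _ => hs _ (q j).2

theorem kmu_NePois {Λ : Finset ℕ} {W : Fin 4 → ℕ → ℝ} {s : ℝ}
    (hs : ∀ l ∈ Λ, ∑ m, W m l = (l : ℝ) ^ (-s)) {d : ℕ} (q : Fin d → Λ) :
    ∑ μ : Fin d → Fin 4, ((univ.filter fun j => μ j ≠ 3).card : ℝ) * ∏ j, W (μ j) (q j) =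
      ∑ j, (∑ m with m ≠ 3, W m (q j)) * ∏ i ∈ univ.erase j, ((q i : ℕ) : ℝ) ^ (-s) := by
  have e1 : ∀ μ : Fin d → Fin 4, ((univ.filter fun j => μ j ≠ 3).card : ℝ) * ∏ j, W (μ j) (q j) =
      ∑ j, ∏ i, (if i = j ∧ μ i = 3 then 0 else W (μ i) (q i)) := by
    intro μ
    rw [card_filter, Nat.cast_sum, sum_mul]
    refine sum_congr rfl fun j _ => ?_
    by_cases h : μ j = 3
    · rw [if_neg (not_not.mpr h), Nat.cast_zero, zero_mul]
      symm
      refine prod_eq_zero (mem_univ j) ?_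
      rw [if_pos ⟨rfl, h⟩]
    · rw [if_pos h, Nat.cast_one, one_mul]
      refine prod_congr rfl fun i _ => ?_
      rw [if_neg]
      rintro ⟨rfl, h'⟩
      exact h h'
  rw [sum_congr rfl fun μ _ => e1 μ, sum_comm]
  refine sum_congr rfl fun j _ => ?_
  rw [← Fintype.piFinset_univ, ← prod_univ_sum (fun _ : Fin d => (univ : Finset (Fin 4)))
    (fun i m => if i = j ∧ m = 3 then (0 : ℝ) else W m (q i)), ← mul_prod_erase _ _ (mem_univ j)]
  congr 1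
  · rw [sum_filter]
    refine sum_congr rfl fun m _ => ?_
    by_cases h : m = 3
    · rw [if_pos ⟨rfl, h⟩, if_neg (not_not.mpr h)]
    · rw [if_neg (fun h' => h h'.2), if_pos h]
  · refine prod_congr rfl fun i hi => ?_
    rw [← hs _ (q i).2]
    refine sum_congr rfl fun m _ => ?_
    rw [if_neg (fun h' => (mem_erase.mp hi).1 h'.1)]

theorem kmu2_NePois {Λ : Finset ℕ} (hΛ : ∀ l ∈ Λ, l.Prime) (V : ℕ → ℝ) (s : ℝ) {d : ℕ}
    (q : Fin d → Λ) (hq : Function.Injective q)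
    (hpf : (np q).primeFactors = univ.image fun j => (q j : ℕ)) :
    ∑ j, V (q j) * ∏ i ∈ univ.erase j, ((q i : ℕ) : ℝ) ^ (-s) =
      ∑ l ∈ (np q).primeFactors, V l * ((np q / l : ℕ) : ℝ) ^ (-s) := by
  rw [hpf, sum_image (fun a _ b _ h => hq (Subtype.ext h))]
  refine sum_congr rfl fun j _ => ?_
  rw [np, ← mul_prod_erase _ _ (mem_univ j), Nat.mul_div_cancel_left _ (hΛ _ (q j).2).pos,
    cast_prod_NePois]

theorem thin_NePois {Λ S : Finset ℕ} {W : Fin 4 → ℕ → ℝ} {δ : ℝ} {d₀ m₀ d : ℕ}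
    (hS : ∀ l ∈ S, ∀ m, m ≠ 1 → W m l = 0) (hδ : 0 < δ) (hδ1 : δ ≤ 1) (hm : 2 * m₀ ≤ d₀)
    (hd : d₀ ≤ d) (q : Fin d → Λ) (μ : Fin d → Fin 4)
    (hq : m₀ ≤ ((univ.image fun j => (q j : ℕ)) ∩ S).card)
    (hk : ((univ.filter fun j => μ j ≠ 3).card : ℝ) ≤ δ * d₀ / 2)
    (hne : ∏ j, W (μ j) (q j) ≠ 0) : Thin δ m₀ (mk μ 1) (mk μ 3) := by
  have hc : (mk μ 3).card + (univ.filter fun j => μ j ≠ 3).card = d := by
    have := card_filter_add_card_filter_not (s := (univ : Finset (Fin d))) (fun j => μ j = 3)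
    rw [card_univ, Fintype.card_fin] at this
    exact this
  have hc' : ((mk μ 3).card : ℝ) + ((univ.filter fun j => μ j ≠ 3).card : ℝ) = d := by
    exact_mod_cast hc
  have hd' : (d₀ : ℝ) ≤ d := by exact_mod_cast hd
  have hm' : 2 * (m₀ : ℝ) ≤ d₀ := by exact_mod_cast hm
  have hd0 : (0 : ℝ) ≤ d₀ := Nat.cast_nonneg _
  refine ⟨?_, ?_, ?_, ?_⟩
  · rw [disjoint_left]
    intro j h1 h3
    have := (mem_filter.mp h1).2.symm.trans (mem_filter.mp h3).2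
    exact absurd this (by decide)
  · have h1 : (d : ℝ) - δ * d / 2 ≤ (mk μ 3).card := by nlinarith
    have h2 : 0 ≤ δ * (1 - δ) * d := by
      have : (0 : ℝ) ≤ d := Nat.cast_nonneg _
      have : 0 ≤ 1 - δ := by linarith
      positivity
    nlinarith
  · have : (m₀ : ℝ) ≤ (mk μ 3).card := by nlinarith
    exact_mod_cast this
  · refine hq.trans (le_trans (card_le_card ?_) (card_image_le (f := fun j => (q j : ℕ))))
    intro l hl
    obtain ⟨h1, h2⟩ := mem_inter.mp hl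
    obtain ⟨j, -, rfl⟩ := mem_image.mp h1
    refine mem_image.mpr ⟨j, mem_filter.mpr ⟨mem_univ _, ?_⟩, rfl⟩
    by_contra h
    exact hne (prod_eq_zero (mem_univ j) (hS _ h2 _ h))

open Classical in
theorem point_NePois {Λ S : Finset ℕ} {W : Fin 4 → ℕ → ℝ} {s δ : ℝ} {d₀ m₀ d : ℕ}
    (hΛ : ∀ l ∈ Λ, l.Prime) (hW : ∀ m l, 0 ≤ W m l) (hs : ∀ l ∈ Λ, ∑ m, W m l = (l : ℝ) ^ (-s))
    (hS : ∀ l ∈ S, ∀ m, m ≠ 1 → W m l = 0) (hδ : 0 < δ) (hδ1 : δ ≤ 1) (hd0 : 0 < d₀)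
    (hm : 2 * m₀ ≤ d₀) (hd : d₀ ≤ d) (q : Fin d → Λ) (hq : Function.Injective q)
    (hpf : (np q).primeFactors = univ.image fun j => (q j : ℕ))
    (hqS : m₀ ≤ ((np q).primeFactors ∩ S).card) :
    (np q : ℝ) ^ (-s) ≤
      (∑ μ : Fin d → Fin 4 with Thin δ m₀ (mk μ 1) (mk μ 3), ∏ j, W (μ j) (q j)) +
      2 / (δ * d₀) * ∑ l ∈ (np q).primeFactors,
        (∑ m with m ≠ 3, W m l) * ((np q / l : ℕ) : ℝ) ^ (-s) := by
  rw [← kmu2_NePois hΛ (fun l => ∑ m with m ≠ 3, W m l) s q hq hpf, ← kmu_NePois hs q,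
    ← expand_NePois hs q, sum_filter, mul_sum, ← sum_add_distrib]
  refine sum_le_sum fun μ _ => ?_
  have hP : 0 ≤ ∏ j, W (μ j) (q j) := prod_nonneg fun j _ => hW _ _
  have hdd : 0 < δ * d₀ := mul_pos hδ (by exact_mod_cast hd0)
  have h0 : 0 ≤ 2 / (δ * d₀) *
      (((univ.filter fun j => μ j ≠ 3).card : ℝ) * ∏ j, W (μ j) (q j)) := by positivity
  by_cases hth : Thin δ m₀ (mk μ 1) (mk μ 3)
  · rw [if_pos hth]
    linarith
  · rw [if_neg hth, zero_add]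
    by_cases hne : ∏ j, W (μ j) (q j) = 0
    · rw [hne] at h0 ⊢
      exact h0
    · have hk : δ * d₀ / 2 < ((univ.filter fun j => μ j ≠ 3).card : ℝ) := by
        by_contra hk
        exact hth (thin_NePois hS hδ hδ1 hm hd q μ (hpf ▸ hqS) (not_lt.mp hk) hne)
      rw [← mul_assoc]
      refine le_mul_of_one_le_left hP ?_
      rw [div_mul_eq_mul_div, le_div_iff₀ hdd]
      linarith

theorem ex_NePois {Λ : Finset ℕ} {W : Fin 4 → ℕ → ℝ} (hms : ∀ m, 0 < ms Λ W m) {d : ℕ}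
    (μ : Fin d → Fin 4) (f : (Fin d → Λ) → ℝ) :
    (∏ j, ms Λ W (μ j)) * Ex (U := fun _ => Λ) (wm Λ W μ) f =
      ∑ q : Fin d → Λ, (∏ j, W (μ j) (q j)) * f q := by
  rw [Ex, mul_sum]
  refine sum_congr rfl fun q _ => ?_
  rw [smul_eq_mul, ← mul_assoc, ← prod_mul_distrib]
  congr 1
  refine prod_congr rfl fun j _ => ?_
  rw [wm, mul_div_cancel₀ _ (hms _).ne']

open Classical in
theorem level_NePois {Λ : Finset ℕ} {W : Fin 4 → ℕ → ℝ} {s ε C ξ δ : ℝ} {m₀ d : ℕ} {K : ℕ → ℝ}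
    {B : ℕ → Prop} (hW : ∀ m l, 0 ≤ W m l) (hs : ∀ l ∈ Λ, ∑ m, W m l = (l : ℝ) ^ (-s))
    (hms : ∀ m, 0 < ms Λ W m) (hK : ∀ n, 0 ≤ K n) (hε : 0 ≤ ε) (hC : 0 ≤ C) (hξ : 0 ≤ ξ)
    (hE : ∀ μ : Fin d → Fin 4, Thin δ m₀ (mk μ 1) (mk μ 3) →
      (Ex (U := fun _ => Λ) (wm Λ W μ) fun q =>
        if Function.Injective q ∧ B (np q) then K (np q) else 0) ≤
      ε * (Ex (U := fun _ => Λ) (wm Λ W μ) fun q => K (np q)) + C ^ (d + 1) * ξ)
    (A : Finset ℕ) (hA : ∀ n ∈ A, B n) :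
    ∑ n ∈ A, (∑ q : Fin d → Λ with (Function.Injective q ∧ np q = n),
      ∑ μ : Fin d → Fin 4 with Thin δ m₀ (mk μ 1) (mk μ 3), ∏ j, W (μ j) (q j)) * K n ≤
      ε * (∑ q : Fin d → Λ, (np q : ℝ) ^ (-s) * K (np q)) + C * ξ * (C * ∑ m, ms Λ W m) ^ d := by
  have hP : ∀ (μ : Fin d → Fin 4) (q : Fin d → Λ), 0 ≤ ∏ j, W (μ j) (q j) := fun μ q =>
    prod_nonneg fun j _ => hW _ _
  have hM : ∀ μ : Fin d → Fin 4, 0 ≤ ∏ j, ms Λ W (μ j) := fun μ =>
    prod_nonneg fun j _ => (hms _).le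
  calc _ = ∑ q : Fin d → Λ, ∑ n ∈ A, (if Function.Injective q ∧ np q = n then
          (∑ μ : Fin d → Fin 4 with Thin δ m₀ (mk μ 1) (mk μ 3), ∏ j, W (μ j) (q j)) * K n
          else 0) := by
        rw [sum_comm]
        refine sum_congr rfl fun n _ => ?_
        rw [sum_mul, sum_filter]
    _ ≤ ∑ q : Fin d → Λ,
          (∑ μ : Fin d → Fin 4 with Thin δ m₀ (mk μ 1) (mk μ 3), ∏ j, W (μ j) (q j)) *
            (if Function.Injective q ∧ B (np q) then K (np q) else 0) := by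
        refine sum_le_sum fun q _ => ?_
        have hG : 0 ≤ ∑ μ : Fin d → Fin 4 with Thin δ m₀ (mk μ 1) (mk μ 3), ∏ j, W (μ j) (q j) :=
          sum_nonneg fun μ _ => hP μ q
        by_cases hq : Function.Injective q ∧ np q ∈ A
        · rw [sum_eq_single (np q), if_pos ⟨hq.1, rfl⟩, if_pos ⟨hq.1, hA _ hq.2⟩]
          · intro n _ hn
            exact if_neg fun h => hn h.2.symm
          · intro h
            exact absurd hq.2 h
        · rw [sum_eq_zero]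
          · refine mul_nonneg hG ?_
            split_ifs
            · exact hK _
            · exact le_rfl
          · intro n hn
            rw [if_neg]
            rintro ⟨h1, h2⟩
            exact hq ⟨h1, h2 ▸ hn⟩
    _ = ∑ μ : Fin d → Fin 4 with Thin δ m₀ (mk μ 1) (mk μ 3), (∏ j, ms Λ W (μ j)) *
          Ex (U := fun _ => Λ) (wm Λ W μ) fun q =>
            if Function.Injective q ∧ B (np q) then K (np q) else 0 := by
        rw [sum_congr rfl fun q _ => sum_mul _ _ _, sum_comm]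
        exact sum_congr rfl fun μ _ => (ex_NePois hms μ _).symm
    _ ≤ ∑ μ : Fin d → Fin 4 with Thin δ m₀ (mk μ 1) (mk μ 3), (∏ j, ms Λ W (μ j)) *
          (ε * (Ex (U := fun _ => Λ) (wm Λ W μ) fun q => K (np q)) + C ^ (d + 1) * ξ) :=
        sum_le_sum fun μ hμ => mul_le_mul_of_nonneg_left (hE μ (mem_filter.mp hμ).2) (hM μ)
    _ = ∑ μ : Fin d → Fin 4 with Thin δ m₀ (mk μ 1) (mk μ 3),
          (ε * ∑ q : Fin d → Λ, (∏ j, W (μ j) (q j)) * K (np q) +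
            (∏ j, ms Λ W (μ j)) * (C ^ (d + 1) * ξ)) := by
        refine sum_congr rfl fun μ _ => ?_
        rw [mul_add, mul_left_comm, ex_NePois hms]
    _ ≤ ∑ μ : Fin d → Fin 4, (ε * ∑ q : Fin d → Λ, (∏ j, W (μ j) (q j)) * K (np q) +
            (∏ j, ms Λ W (μ j)) * (C ^ (d + 1) * ξ)) := by
        refine sum_le_sum_of_subset_of_nonneg (filter_subset _ _) fun μ _ _ => ?_
        have h1 : 0 ≤ ∑ q : Fin d → Λ, (∏ j, W (μ j) (q j)) * K (np q) :=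
          sum_nonneg fun q _ => mul_nonneg (hP μ q) (hK _)
        have h2 := hM μ
        positivity
    _ = _ := by
        rw [sum_add_distrib, ← mul_sum, ← sum_mul, sum_comm]
        congr 1
        · congr 1
          refine sum_congr rfl fun q _ => ?_
          rw [← sum_mul, expand_NePois hs]
        · rw [← Fintype.piFinset_univ,
            ← prod_univ_sum (fun _ : Fin d => (univ : Finset (Fin 4))) (fun _ m => ms Λ W m),
            prod_const, card_univ, Fintype.card_fin, mul_pow]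
          ring

open Classical in
theorem pois_stmt (hT : TupN) : PoisStmt := by
  intro Λ S W s C₀ ε C ξ δ D d₀ m₀ K B hΛ hW hs hms hS hK hKC hε hC hξ hδ hδ1 hD hd0 hm hE A hA
  obtain ⟨hT1, hT2, hT3⟩ := hT Λ hΛ
  have hM : ∑ m, ms Λ W m = ∑ l ∈ Λ, (l : ℝ) ^ (-s) := by
    simp only [ms]
    rw [sum_comm]
    exact sum_congr rfl hs
  have hM3 : ∑ m with m ≠ 3, ms Λ W m = ∑ l ∈ Λ, ∑ m with m ≠ 3, W m l := by
    simp only [ms]
    rw [sum_comm]
  have hM0 : 0 ≤ ∑ m, ms Λ W m := sum_nonneg fun m _ => (hms m).le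
  have hdd : 0 < δ * d₀ := mul_pos hδ (by exact_mod_cast hd0)
  set H : ℕ → ℕ → ℝ := fun d n => ∑ q : Fin d → Λ with (Function.Injective q ∧ np q = n),
      ∑ μ : Fin d → Fin 4 with Thin δ m₀ (mk μ 1) (mk μ 3), ∏ j, W (μ j) (q j) with hH
  set T : ℕ → ℝ := fun n => ∑ l ∈ n.primeFactors,
    (∑ m with m ≠ 3, W m l) * ((n / l : ℕ) : ℝ) ^ (-s) with hTd
  have ha : ∑ n ∈ A.filter (fun n => ¬ ((n.primeFactors.card : ℝ) ≤ D)), (n : ℝ) ^ (-s) * K n ≤
      C₀ * (∑ m, ms Λ W m) / D := by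
    have h := markov_NePois Λ hΛ s C₀ K hKC (fun l => (l : ℝ) ^ (-s))
      (fun l => Real.rpow_nonneg (Nat.cast_nonneg _) _)
      (A.filter (fun n => ¬ ((n.primeFactors.card : ℝ) ≤ D)))
      (fun n hn => (hA n (mem_filter.mp hn).1).2.1)
    rw [le_div_iff₀ hD, hM, sum_mul]
    refine le_trans (sum_le_sum fun n hn => ?_) h
    have e : ∑ l ∈ n.primeFactors, (l : ℝ) ^ (-s) * ((n / l : ℕ) : ℝ) ^ (-s) * K n =
        (n : ℝ) ^ (-s) * K n * n.primeFactors.card := by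
      rw [sum_congr rfl (g := fun _ => (n : ℝ) ^ (-s) * K n), sum_const, nsmul_eq_mul, mul_comm]
      intro l hl
      rw [← Real.mul_rpow (Nat.cast_nonneg _) (Nat.cast_nonneg _), ← Nat.cast_mul,
        Nat.mul_div_cancel' (Nat.dvd_of_mem_primeFactors hl)]
    rw [e]
    exact mul_le_mul_of_nonneg_left (not_le.mp (mem_filter.mp hn).2).le
      (mul_nonneg (Real.rpow_nonneg (Nat.cast_nonneg _) _) (hK n))
  have hpt : ∀ n ∈ A, (n : ℝ) ^ (-s) ≤
      H n.primeFactors.card n / n.primeFactors.card.factorial + 2 / (δ * d₀) * T n := by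
    intro n hn
    obtain ⟨h1, h2, -, h4, h5⟩ := hA n hn
    have hf : (0 : ℝ) < n.primeFactors.card.factorial := by exact_mod_cast Nat.factorial_pos _
    rw [← sub_le_iff_le_add, le_div_iff₀ hf, ← hT2 n h1 h2, mul_comm, ← nsmul_eq_mul, ← sum_const]
    refine sum_le_sum fun q hq => ?_
    obtain ⟨hq1, hq2⟩ := (mem_filter.mp hq).2
    have := point_NePois hΛ hW hs hS hδ hδ1 hd0 hm h4 q hq1 (hT1 _ q hq1).2 (hq2.symm ▸ h5)
    rw [hq2] at this
    rw [sub_le_iff_le_add]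
    exact this
  set A₁ := A.filter (fun n => (n.primeFactors.card : ℝ) ≤ D) with hA₁
  have hb1 : ∑ n ∈ A₁, 2 / (δ * d₀) * T n * K n ≤
      2 * C₀ * (∑ m with m ≠ 3, ms Λ W m) / (δ * d₀) := by
    have h := markov_NePois Λ hΛ s C₀ K hKC (fun l => ∑ m with m ≠ 3, W m l)
      (fun l => sum_nonneg fun m _ => hW m l) A₁ (fun n hn => (hA n (mem_filter.mp hn).1).2.1)
    have e : ∑ n ∈ A₁, 2 / (δ * d₀) * T n * K n = 2 / (δ * d₀) * ∑ n ∈ A₁, ∑ l ∈ n.primeFactors,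
        (∑ m with m ≠ 3, W m l) * ((n / l : ℕ) : ℝ) ^ (-s) * K n := by
      rw [mul_sum]
      refine sum_congr rfl fun n _ => ?_
      rw [mul_assoc, hTd, sum_mul]
    rw [e, hM3]
    refine (mul_le_mul_of_nonneg_left h (by positivity)).trans (le_of_eq ?_)
    ring
  have hb2 : ∑ n ∈ A₁, H n.primeFactors.card n / n.primeFactors.card.factorial * K n ≤
      ε * C₀ + C * ξ * Real.exp (C * ∑ m, ms Λ W m) := by
    have hmap : ∀ n ∈ A₁, n.primeFactors.card ∈ range (⌊D⌋₊ + 1) := fun n hn =>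
      mem_range.mpr (Nat.lt_succ_of_le (Nat.le_floor (mem_filter.mp hn).2))
    rw [← sum_fiberwise_of_maps_to hmap]
    have h3 := hT3 (fun n => (n : ℝ) ^ (-s) * K n) C₀ (⌊D⌋₊ + 1)
      (fun n => mul_nonneg (Real.rpow_nonneg (Nat.cast_nonneg _) _) (hK n))
      (fun A' => by simpa only [one_mul] using hKC 1 one_ne_zero A')
    have h4 := Real.sum_le_exp_of_nonneg (mul_nonneg hC hM0) (⌊D⌋₊ + 1)
    refine le_trans ?_ (add_le_add (mul_le_mul_of_nonneg_left h3 hε)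
      (mul_le_mul_of_nonneg_left h4 (mul_nonneg hC hξ)))
    rw [mul_sum, mul_sum, ← sum_add_distrib]
    refine sum_le_sum fun d hd => ?_
    have hdD : (d : ℝ) ≤ D :=
      (Nat.le_floor_iff hD.le).mp (Nat.lt_succ_iff.mp (mem_range.mp hd))
    have hf : (0 : ℝ) < d.factorial := by exact_mod_cast Nat.factorial_pos _
    have h5 := level_NePois hW hs hms hK hε hC hξ (fun μ hμ => hE d μ hdD hμ)
      (A₁.filter fun n => n.primeFactors.card = d)
      (fun n hn => (hA n (mem_filter.mp (mem_filter.mp hn).1).1).2.2.1)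
    have e : ∑ n ∈ A₁.filter (fun n => n.primeFactors.card = d),
        H n.primeFactors.card n / n.primeFactors.card.factorial * K n =
        (∑ n ∈ A₁.filter (fun n => n.primeFactors.card = d), H d n * K n) / d.factorial := by
      rw [sum_div]
      refine sum_congr rfl fun n hn => ?_
      rw [(mem_filter.mp hn).2]
      ring
    rw [e, ← mul_div_assoc, ← mul_div_assoc, ← add_div]
    exact div_le_div_of_nonneg_right h5 hf.le
  have hb : ∑ n ∈ A₁, (n : ℝ) ^ (-s) * K n ≤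
      ∑ n ∈ A₁, H n.primeFactors.card n / n.primeFactors.card.factorial * K n +
        ∑ n ∈ A₁, 2 / (δ * d₀) * T n * K n := by
    rw [← sum_add_distrib]
    refine sum_le_sum fun n hn => ?_
    rw [← add_mul]
    exact mul_le_mul_of_nonneg_right (hpt n (mem_filter.mp hn).1) (hK n)
  rw [← sum_filter_add_sum_filter_not A (fun n => (n.primeFactors.card : ℝ) ≤ D)]
  linarith

end Pool.Agent.MP_f68ac8_nt.Nd

end

section

/-! Counting in windows, and the second moment of the number of prime factors. -/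

namespace Pool.Agent.MP_f68ac8_nt.Nd
open Finset Filter
open Zv (Ex Prob)
open scoped BigOperators

theorem wnd_stmt (hK : KerStmt) : WndStmt := by
  intro c ε hc hε
  have hK := (hK c hc).1
  obtain ⟨J, hJ⟩ := exists_nat_gt (max 0 (c * -Real.log (ε / 2)))
  have J0 : (0 : ℝ) < J := (le_max_left _ _).trans_lt hJ
  have J1 : c * -Real.log (ε / 2) < J := (le_max_right _ _).trans_lt hJ
  refine ⟨ε / (8 * Real.exp 1 * J), by positivity, fun X A hX hA h => ?_⟩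
  have X1 : (1 : ℝ) < X := by exact_mod_cast (by omega : 1 < X)
  have X0 : (0 : ℝ) < X := by linarith
  have L0 := Real.log_pos X1
  have e0 : 4 * Real.exp 1 * X * ((X : ℝ) ^ (-(1 + 1 / Real.log X)) * (1 / 4)) = 1 := by
    rw [Real.rpow_def_of_pos X0, show Real.log X * -(1 + 1 / Real.log X) = -Real.log X + -1 by
      field_simp; ring, Real.exp_add, Real.exp_neg, Real.exp_neg, Real.exp_log X0]
    field_simp
  have h1 : ∀ n ∈ A, (1 : ℝ) ≤ (if (n : ℝ) ≤ ε / 2 * X then 1 else 0) + 4 * Real.exp 1 * X *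
      ∑ j ∈ range J, (n : ℝ) ^ (-(1 + 1 / Real.log X)) *
        Kc c (Real.log n - (Real.log X - j / c)) := by
    intro n hn
    have h0 : ∀ j ∈ range J, 0 ≤ (n : ℝ) ^ (-(1 + 1 / Real.log X)) *
        Kc c (Real.log n - (Real.log X - j / c)) := fun j _ =>
      mul_nonneg (by positivity) (hK _).1
    split_ifs with b
    · exact le_add_of_nonneg_right (mul_nonneg (by positivity) (sum_nonneg h0))
    obtain ⟨n1, n2⟩ := mem_Icc.1 (hA hn)
    have n0 : (0 : ℝ) < n := by exact_mod_cast n1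
    have n3 : (n : ℝ) ≤ X := by exact_mod_cast n2
    have t0 : 0 ≤ c * (Real.log X - Real.log n) :=
      mul_nonneg hc.le (sub_nonneg.2 (Real.log_le_log n0 n3))
    have t1 : c * (Real.log X - Real.log n) < J := by
      have := Real.log_lt_log (by positivity) (not_le.1 b)
      rw [Real.log_mul (by positivity) X0.ne'] at this
      exact (mul_lt_mul_of_pos_left (by linarith) hc).trans J1
    rw [zero_add]
    refine e0.ge.trans (mul_le_mul_of_nonneg_left (le_trans ?_ (single_le_sum h0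
      (mem_range.2 ((Nat.floor_lt t0).2 t1)))) (by positivity))
    refine mul_le_mul (Real.rpow_le_rpow_of_nonpos n0 n3 (neg_nonpos.2 (by positivity)))
      ((hK _).2.2 ?_) (by norm_num) (by positivity)
    have a1 := Nat.floor_le t0
    have a2 := Nat.lt_floor_add_one (c * (Real.log X - Real.log n))
    generalize (⌊c * (Real.log X - Real.log n)⌋₊ : ℝ) = j at a1 a2
    rw [show c * (Real.log n - (Real.log X - j / c)) = j - c * (Real.log X - Real.log n) by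
      field_simp; ring, abs_le]
    constructor <;> linarith
  have h2 := sum_le_sum h1
  rw [sum_const, nsmul_one, sum_add_distrib, ← mul_sum, sum_comm, sum_boole] at h2
  have h3 : ((A.filter fun n : ℕ => (n : ℝ) ≤ ε / 2 * X).card : ℝ) ≤ ε / 2 * X := by
    refine le_trans ?_ (Nat.floor_le (by positivity))
    have : (A.filter fun n : ℕ => (n : ℝ) ≤ ε / 2 * X) ⊆ Icc 1 ⌊ε / 2 * X⌋₊ := fun n hn =>
      mem_Icc.2 ⟨(mem_Icc.1 (hA (mem_filter.1 hn).1)).1, Nat.le_floor (mem_filter.1 hn).2⟩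
    have := card_le_card this
    rw [Nat.card_Icc, Nat.add_sub_cancel] at this
    exact_mod_cast this
  have h4 := sum_le_card_nsmul (range J) _ _ fun j _ => h (Real.log X - j / c)
  rw [card_range, nsmul_eq_mul] at h4
  have h5 := mul_le_mul_of_nonneg_left h4 (by positivity : 0 ≤ 4 * Real.exp 1 * X)
  rw [show 4 * Real.exp 1 * X * (J * (ε / (8 * Real.exp 1 * J))) = ε / 2 * X by
    field_simp; ring] at h5
  linarith

lemma cnt_NeWnd (X l : ℕ) :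
    (X : ℝ) * (1 / l) - 1 ≤ ∑ n ∈ Icc 1 X, (if l ∣ n then 1 else 0 : ℝ) ∧
      ∑ n ∈ Icc 1 X, (if l ∣ n then 1 else 0 : ℝ) ≤ X * (1 / l) := by
  rw [sum_boole, show Icc 1 X = Ioc 0 X from rfl, Nat.Ioc_filter_dvd_card_eq_div, mul_one_div]
  refine ⟨?_, Nat.cast_div_le⟩
  rw [← Nat.floor_div_eq_div (K := ℝ)]
  exact (Nat.sub_one_lt_floor _).le

theorem tk_stmt : TkStmt := by
  intro X A a hA a0 ha
  obtain ⟨L, hL⟩ : ∃ L : ℝ, L = ∑ l ∈ A, (1 : ℝ) / l := ⟨_, rfl⟩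
  obtain ⟨ω, hω⟩ : ∃ ω : ℕ → ℝ, ∀ n, ω n = ∑ l ∈ A, (if l ∣ n then 1 else 0 : ℝ) :=
    ⟨_, fun _ => rfl⟩
  rw [← hL] at ha
  have L0 : 0 < L := a0.trans_le ha
  have c1 : (A.card : ℝ) ≤ X := by
    have : A ⊆ Icc 1 X := fun l hl => mem_Icc.2 ⟨(hA l hl).1.pos, (hA l hl).2⟩
    have := card_le_card this
    rw [Nat.card_Icc, Nat.add_sub_cancel] at this
    exact_mod_cast this
  have s1 : X * L - A.card ≤ ∑ n ∈ Icc 1 X, ω n := by
    simp only [hω]
    rw [sum_comm, hL, mul_sum, ← nsmul_one A.card, ← sum_const, ← sum_sub_distrib]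
    exact sum_le_sum fun l _ => (cnt_NeWnd X l).1
  have s2 : ∑ n ∈ Icc 1 X, ω n ^ 2 ≤ X * L ^ 2 + X * L := by
    simp only [hω, sq, sum_mul_sum]
    rw [sum_comm, hL, sum_mul_sum, mul_sum, mul_sum, ← sum_add_distrib]
    refine sum_le_sum fun l hl => ?_
    have e : (X : ℝ) * (1 / l) = ∑ l' ∈ A, if l = l' then (X : ℝ) * (1 / l) else 0 := by
      rw [sum_ite_eq, if_pos hl]
    rw [sum_comm, mul_sum, e, ← sum_add_distrib]
    refine sum_le_sum fun l' hl' => ?_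
    split_ifs with b
    · subst b
      refine le_add_of_nonneg_of_le (by positivity)
        (le_trans (sum_le_sum fun n _ => ?_) (cnt_NeWnd X l).2)
      split_ifs <;> norm_num
    · rw [add_zero, one_div_mul_one_div, ← Nat.cast_mul]
      refine le_trans (sum_le_sum fun n _ => ?_) (cnt_NeWnd X (l * l')).2
      by_cases b1 : l ∣ n ∧ l' ∣ n
      · rw [if_pos b1.1, if_pos b1.2, if_pos (Nat.Coprime.mul_dvd_of_dvd_of_dvd
          ((Nat.coprime_primes (hA l hl).1 (hA l' hl').1).2 b) b1.1 b1.2), one_mul]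
      · rw [ite_zero_mul_ite_zero, if_neg b1]
        split_ifs <;> norm_num
  have s3 : ∑ n ∈ Icc 1 X, (ω n - L) ^ 2 ≤ 3 * X * L := by
    simp only [sub_sq]
    rw [sum_add_distrib, sum_sub_distrib, ← sum_mul, ← mul_sum, sum_const, Nat.card_Icc,
      Nat.add_sub_cancel, nsmul_eq_mul]
    nlinarith
  have s4 := card_nsmul_le_sum ((Icc 1 X).filter fun n =>
    ((A.filter fun l => l ∣ n).card : ℝ) ≤ a / 2) (fun n => (ω n - L) ^ 2) ((L / 2) ^ 2)
    fun n hn => by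
      have h1 := (mem_filter.1 hn).2
      rw [← sum_boole, ← hω] at h1
      nlinarith
  have s5 := s4.trans ((sum_le_sum_of_subset_of_nonneg (filter_subset _ _)
    fun n _ _ => sq_nonneg _).trans s3)
  rw [nsmul_eq_mul] at s5
  refine le_trans ?_ (div_le_div_of_nonneg_left (by positivity) a0 ha)
  rw [le_div_iff₀ L0]
  refine le_of_mul_le_mul_right ?_ L0
  linarith

end Pool.Agent.MP_f68ac8_nt.Nd

end

section

namespace Pool.Agent.MP_f68ac8_nt.Nd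
open Finset Filter
open Zv (Ex Prob)
open scoped BigOperators

/-- the completely multiplicative function `n ^ (-s)` -/
noncomputable def fs_NeMert (s : ℝ) : ℕ →* ℝ where
  toFun n := (n : ℝ) ^ (-s)
  map_one' := by simp
  map_mul' m n := by rw [Nat.cast_mul, Real.mul_rpow (Nat.cast_nonneg m) (Nat.cast_nonneg n)]

theorem lt_one_NeMert {s : ℝ} (hs : 0 < s) {p : ℕ} (hp : p.Prime) : (p : ℝ) ^ (-s) < 1 :=
  Real.rpow_lt_one_of_one_lt_of_neg (by exact_mod_cast hp.one_lt) (by linarith)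

theorem euler_NeMert {s : ℝ} (hs : 0 < s) (A : Finset ℕ) :
    HasSum ((Nat.factoredNumbers A).indicator fun n : ℕ => (n : ℝ) ^ (-s))
      (∏ p ∈ A with p.Prime, (1 - (p : ℝ) ^ (-s))⁻¹) := by
  rw [← hasSum_subtype_iff_indicator]
  refine (EulerProduct.summable_and_hasSum_factoredNumbers_prod_filter_prime_geometric
    (f := fs_NeMert s) (fun {p} hp => ?_) A).2
  change ‖(p : ℝ) ^ (-s)‖ < 1
  rw [Real.norm_of_nonneg (by positivity)]
  exact lt_one_NeMert hs hp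

theorem tel_NeMert (M : ℕ) :
    ∑ l ∈ range (M + 2), (1 : ℝ) / (l * (l - 1)) = 1 - 1 / (M + 1) := by
  induction M with
  | zero => simp [sum_range_succ]
  | succ M ih =>
    rw [show M + 1 + 2 = M + 2 + 1 from rfl, sum_range_succ, ih]
    push_cast
    rw [show (M : ℝ) + 2 - 1 = M + 1 by ring]
    field_simp
    ring

theorem step_NeMert {u : ℝ} (hu : 0 < u) {M : ℝ} (hM : 0 < M) :
    (M + 1) ^ (-(1 + u)) ≤ (M ^ (-u) - (M + 1) ^ (-u)) / u := by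
  have hM1 : 0 < M + 1 := by linarith
  have h1 : (M + 1)⁻¹ ≤ Real.log (M + 1) - Real.log M := by
    have h := Real.one_sub_inv_le_log_of_pos (div_pos hM1 hM)
    rw [Real.log_div hM1.ne' hM.ne', inv_div] at h
    refine le_trans (le_of_eq ?_) h
    field_simp
    ring
  have h2 : M ^ (-u) = (M + 1) ^ (-u) * Real.exp (u * (Real.log (M + 1) - Real.log M)) := by
    rw [Real.rpow_def_of_pos hM, Real.rpow_def_of_pos hM1, ← Real.exp_add]
    congr 1
    ring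
  have h3 := Real.add_one_le_exp (u * (Real.log (M + 1) - Real.log M))
  have h4 : u * (M + 1)⁻¹ ≤ u * (Real.log (M + 1) - Real.log M) :=
    mul_le_mul_of_nonneg_left h1 hu.le
  have h5 : 0 < (M + 1) ^ (-u) := Real.rpow_pos_of_pos hM1 _
  rw [le_div_iff₀ hu, neg_add, Real.rpow_add hM1, Real.rpow_neg_one, h2]
  have h6 : u * (M + 1)⁻¹ + 1 ≤ Real.exp (u * (Real.log (M + 1) - Real.log M)) := by linarith
  have h7 := mul_le_mul_of_nonneg_left h6 h5.le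
  linarith

theorem zeta_NeMert {u : ℝ} (hu : 0 < u) (M : ℕ) :
    ∑ n ∈ range (M + 2), (n : ℝ) ^ (-(1 + u)) ≤ 1 + 1 / u - ((M : ℝ) + 1) ^ (-u) / u := by
  induction M with
  | zero =>
    have : -(1 + u) ≠ 0 := by linarith
    rw [sum_range_succ, sum_range_one, Nat.cast_zero, Real.zero_rpow this]
    simp
  | succ M ih =>
    have h := step_NeMert hu (M := (M : ℝ) + 1) (by positivity)
    rw [show M + 1 + 2 = M + 2 + 1 from rfl, sum_range_succ]
    push_cast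
    rw [sub_div] at h
    rw [show (M : ℝ) + 2 = M + 1 + 1 by ring]
    linarith

theorem mert_stmt : MertStmt := by
  refine ⟨fun y hy => ?_, fun u A hu hA => ?_⟩
  · set N := ⌊y⌋₊
    have h1 : Real.log y ≤ ∑ n ∈ Icc 1 N, (n : ℝ)⁻¹ := by
      have h := log_add_one_le_harmonic N
      rw [harmonic_eq_sum_Icc] at h
      push_cast at h
      exact (Real.log_le_log (by linarith) (Nat.lt_floor_add_one y).le).trans h
    have h2 : ∑ n ∈ Icc 1 N, (n : ℝ)⁻¹ ≤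
        ∏ p ∈ range (N + 1) with p.Prime, (1 - (p : ℝ) ^ (-(1 : ℝ)))⁻¹ := by
      refine le_trans (le_of_eq (sum_congr rfl fun n hn => ?_))
        (sum_le_hasSum (Icc 1 N) (fun n _ => Set.indicator_nonneg (fun n _ => by positivity) n)
          (euler_NeMert one_pos (range (N + 1))))
      obtain ⟨h3, h4⟩ := mem_Icc.1 hn
      rw [Set.indicator_of_mem, Real.rpow_neg_one]
      exact Nat.mem_factoredNumbers'.2 fun p _ hp =>
        mem_range.2 (Nat.lt_succ_of_le ((Nat.le_of_dvd h3 hp).trans h4))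
    have h3 : ∏ p ∈ range (N + 1) with p.Prime, (1 - (p : ℝ) ^ (-(1 : ℝ)))⁻¹ ≤
        Real.exp (∑ p ∈ range (N + 1) with p.Prime, ((1 : ℝ) / p + 1 / (p * (p - 1)))) := by
      rw [Real.exp_sum]
      refine prod_le_prod (fun p hp => ?_) fun p hp => ?_
      · exact inv_nonneg.2 (sub_nonneg.2 (lt_one_NeMert one_pos (mem_filter.1 hp).2).le)
      · have h4 : (2 : ℝ) ≤ p := by exact_mod_cast (mem_filter.1 hp).2.two_le
        have h5 : (p : ℝ) - 1 ≠ 0 := by linarith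
        have h6 : (p : ℝ) ≠ 0 := by linarith
        refine le_trans (le_of_eq ?_) (Real.add_one_le_exp _)
        rw [Real.rpow_neg_one]
        field_simp
        ring
    have h4 : ∑ p ∈ range (N + 1) with p.Prime, (1 : ℝ) / (p * (p - 1)) ≤ 1 := by
      refine (sum_le_sum_of_subset_of_nonneg (t := range (N + 2)) (fun p hp => ?_)
        fun p _ _ => ?_).trans ?_
      · exact mem_range.2 ((mem_range.1 (mem_filter.1 hp).1).trans (by omega))
      · cases p with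
        | zero => simp
        | succ p =>
          push_cast
          rw [add_sub_cancel_right]
          positivity
      · rw [tel_NeMert]
        exact sub_le_self _ (by positivity)
    have h5 := Real.log_le_log (Real.log_pos (by linarith)) ((h1.trans h2).trans h3)
    rw [Real.log_exp, sum_add_distrib] at h5
    linarith
  · have hs : 0 < 1 + u := by linarith
    have h1 : Real.exp (∑ l ∈ A, (l : ℝ) ^ (-(1 + u))) ≤
        ∏ p ∈ A with p.Prime, (1 - (p : ℝ) ^ (-(1 + u)))⁻¹ := by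
      rw [filter_true_of_mem hA, Real.exp_sum]
      refine prod_le_prod (fun p _ => (Real.exp_pos _).le) fun p hp => ?_
      have h2 := Real.add_one_le_exp (-(p : ℝ) ^ (-(1 + u)))
      rw [Real.exp_neg] at h2
      have h3 := lt_one_NeMert hs (hA p hp)
      exact (le_inv_comm₀ (Real.exp_pos _) (by linarith)).2 (by linarith)
    have h2 : ∏ p ∈ A with p.Prime, (1 - (p : ℝ) ^ (-(1 + u)))⁻¹ ≤ 1 + 1 / u := by
      refine le_of_tendsto' ((euler_NeMert hs A).tendsto_sum_nat.comp (tendsto_add_atTop_nat 2))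
        fun M => ?_
      refine (sum_le_sum fun n _ => Set.indicator_le_self' (fun n _ => by positivity) n).trans
        ((zeta_NeMert hu M).trans (sub_le_self _ (by positivity)))
    exact (Real.le_log_iff_exp_le (by positivity)).2 (h1.trans h2)

end Pool.Agent.MP_f68ac8_nt.Nd

end
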