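import Mathlib
import Pool.Agent.Mg.Fe23604m.G85b98f
import Pool.Agent.Mg.Fe23604m.G170b11
import Pool.Agent.Mg.Fe23604m.G200097
import Pool.Agent.Mg.Fe23604m.Ga53936

set_option linter.all false

section

/-! Quadratic fields and word equations. -/

namespace Pool.Agent.MP_f68ac8_nt.Zq

open NumberField Finset Filter Ev Pv Sv Zv Zk
open Qv (Stab Qt Orb)
open Pool.Agent.MP_14ad9d_nt.Full (Pr ord)
open scoped Pointwise Topology BigOperators commutatorElement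

/-- the data attached to an auxiliary prime -/
abbrev Co : Type := Qv.Co

section
variable (p : ℕ) [hp : Fact p.Prime]

/-- the hypotheses on the fields -/
structure Fb (K F : IntermediateField ℚ Qb) : Prop where
  le : K ≤ F
  stab : Stab K F
  xi : xi p ∈ F
  hh : HH p F = F.fixingSubgroup
  fin : Finite (Qt K F)
  nrm : ∀ g : K.fixingSubgroup, ∀ h ∈ F.fixingSubgroup, g.1 * h * g.1⁻¹ ∈ F.fixingSubgroup

/-- Kummer characters on inertia groups -/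
def LocStmt : Prop :=
  ∀ (M : IntermediateField ℚ Qb) [NumberField M], xi p ∈ M → ∀ l : ℕ, l.Prime → l ≠ p →
    ∀ (P : Ideal OQ) (w : Pr M), P.IsMaximal → (l : OQ) ∈ P → w.asIdeal = P.under (𝓞 M) →
    P.inertia GQ ≤ M.fixingSubgroup → (∃ τ ∈ P.inertia GQ, KK p l τ = 1) ∧
      ∀ τ ∈ P.inertia GQ, ∀ y : M, y ≠ 0 → KK p y τ = ord w y * KK p l τ

/-- statements about all fields -/
def AllF (Q : ∀ (K F : IntermediateField ℚ Qb) [NumberField K] [NumberField F], Prop) : Prop :=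
  ∀ (K F : IntermediateField ℚ Qb) [NumberField K] [NumberField F], Fb p K F → Q K F

/-- existence of the data at an auxiliary prime -/
def CoStmt : Prop :=
  AllF p fun K F _ _ => (∀ (l : ℕ) (P : Ideal OQ) (σ : GQ), l.Prime → l ≠ p → P.IsMaximal →
      (l : OQ) ∈ P → P.inertia GQ ≤ F.fixingSubgroup → IsFrob l P σ → σ ∈ K.fixingSubgroup →
      Tame p F σ → ∃ τ m, Qv.Co.Ok p K F ⟨l, P, σ, τ, m⟩) ∧
    ∀ c : Co, c.Ok p K F → c.l ^ c.m ≡ 1 [MOD p]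

/-- the arithmetic statements that are used -/
structure Core : Prop where
  co : CoStmt p
  step : StepMStmt p
  locV : Qv.LocVStmt p
  loc : LocStmt p
  mean : IdMeanStmt

/-- inertia groups in `p`-extensions -/
def RestrStmt : Prop :=
  AllF p fun K F _ _ => ∀ c : Co, c.Ok p K F → ∀ N : Subgroup (GK K), N.Normal →
    (N : Set (GK K)) ∈ 𝓝 1 → (∀ g ∈ GF K F, ∃ k, g ^ p ^ k ∈ N) →
    (∀ u : GK K, u.1 ∈ c.P.inertia GQ → toK K c.σ * u * (toK K c.σ)⁻¹ * (u ^ c.l)⁻¹ ∈ N) ∧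
    (toK K c.τ ∈ N → ∀ P (g : GK K), Iner F P g → P.under (𝓞 K) = pr K c → g ∈ N)

/-- statements about the rational numbers and the cyclotomic field -/
def AllQ (Q : ∀ (K F : IntermediateField ℚ Qb) [NumberField K] [NumberField F], Prop) : Prop :=
  ∀ (K F : IntermediateField ℚ Qb) [NumberField K] [NumberField F], Fb p K F → K = ⊥ →
    (∀ g, g ∈ F.fixingSubgroup ↔ cyc p g = 1) → Q K F

/-- existence of the fields -/
def BaseStmt : Prop :=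
  ∃ (K F : IntermediateField ℚ Qb) (_ : NumberField K) (_ : NumberField F),
    Fb p K F ∧ K = ⊥ ∧ (∀ g, g ∈ F.fixingSubgroup ↔ cyc p g = 1) ∧
    ∃ φ : Ideal (𝓞 K) ≃ Ideal (𝓞 ℚ), ∀ q, Ideal.absNorm (φ q) = Ideal.absNorm q ∧
      ((φ q).IsMaximal ↔ q.IsMaximal)

/-- primes of the rational numbers -/
def PrimStmt : Prop :=
  AllQ p fun K F _ _ => (∀ g : GQ, (toK K g).1 = g) ∧ (∀ g : GK K, g ^ (p - 1) ∈ GF K F) ∧
    (∀ q : Ideal (𝓞 K), q.IsMaximal → (Ideal.absNorm q).Prime ∧ ∀ P : Ideal OQ, P.IsMaximal →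
      (P.under (𝓞 K) = q ↔ (Ideal.absNorm q : OQ) ∈ P)) ∧
    (p = 2 → ∀ q : Ideal (𝓞 K), Typ p K F 1 q ↔ q.IsMaximal) ∧
    ∀ c : Co, c.Ok p K F → (pr K c).IsMaximal ∧ Ideal.absNorm (pr K c) = c.l ∧
      (Ty p F 1 c.σ → P1 p c.l ∧ c.m = 1)

/-- generators of `p`-extensions -/
def GenPStmt : Prop :=
  AllQ p fun K F _ _ => (∀ Q : Set (Ideal (𝓞 K)), AdmP p Q ⊤ ∧
      ∀ N N', AdmP p Q N → AdmP p Q N' → AdmP p Q (N ⊓ N')) ∧
    (∀ c : Co, c.Ok p K F → ∀ N : Subgroup (GK K), N.Normal → (N : Set (GK K)) ∈ 𝓝 1 →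
      (∀ g : GK K, ∃ k, g ^ p ^ k ∈ N) → toK K c.τ ∈ N → ∀ (P : Ideal OQ) (g : GK K),
      P.IsMaximal → g.1 ∈ P.inertia GQ → P.under (𝓞 K) = pr K c → g ∈ N) ∧
    (∀ (J : Type) (c : J → Co), (∀ j, (c j).Ok p K F) → ∀ N,
      AdmP p (Set.range fun j => pr K (c j)) N →
      Subgroup.closure (Set.range fun j => toK K (c j).τ) ⊔ N = ⊤) ∧
    ∀ (Λ : Type) [Finite Λ] (x : Λ → Co), (∀ y, (x y).Ok p K F ∧ Ty p F 1 (x y).σ) →
      (Function.Injective fun y => pr K (x y)) → ∀ (H : Type) [Group H] [Finite H],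
      ∃ N, AmP p F x N ∧
        (∀ θ : GK K →* H, AdmP p (Set.range fun y => pr K (x y)) θ.ker → N ≤ θ.ker) ∧
        ∀ θ : GK K →* Cp p, AdmP p (Set.range fun y => pr K (x y)) θ.ker → N ≤ θ.ker

end

/-- the residue class modulo four -/
def eps (l : ℕ) : ZMod 2 := if l % 4 = 3 then 1 else 0

/-- the character of conductor four -/
noncomputable def x4 (g : GQ) : ZMod 2 := if cyc 4 g = 1 then 0 else 1

section
variable {d : ℕ} (l : Fin d → ℕ)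

/-- the matrix of linking numbers -/
noncomputable def lk2 : Mx d := fun i j => if i = j then eps (l i) else lk 2 (l i) (l j)

/-- the quadratic character -/
noncomputable def chi : GQ →* Cp 2 := chA l 1

end

/-- the chosen characters -/
def ChStmt : Prop :=
  AllQ 2 fun K F _ _ => (∀ l, P1 2 l → ChOk 2 l (ch 2 l) ∧ ((ch 2 l).ker : Set GQ) ∈ 𝓝 1 ∧
      ∀ P : Ideal OQ, P.IsMaximal → (l : OQ) ∉ P → ∀ g ∈ P.inertia GQ, ch 2 l g = 1) ∧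
    (∀ c : Co, c.Ok 2 K F → P1 2 c.l → (ch 2 c.l c.τ).toAdd = 1 ∧ x4 c.σ = eps c.l ∧
      ∀ m, P1 2 m → m ≠ c.l → (ch 2 m c.σ).toAdd = lk 2 c.l m ∧ ch 2 m c.τ = 1) ∧
    ∀ (d : ℕ) (l : Fin d → ℕ), Function.Injective l → (∀ j, P1 2 (l j)) →
      (∀ g, (chi l g).toAdd = ∑ j, (ch 2 (l j) g).toAdd) ∧ CycCh 2 (Set.range l) = {chi l} ∧
      Ind F 1 fun o : Option (Fin d) => o.elim x4 fun j g => (ch 2 (l j) g).toAdd

/-- quadratic reciprocity and complex conjugation -/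
def QrStmt : Prop :=
  (∀ l m, P1 2 l → P1 2 m → l ≠ m → lk 2 l m = lk 2 m l + eps l * eps m) ∧
    ∃ c : GQ, c ^ 2 = 1 ∧ ∀ l, P1 2 l → (ch 2 l c).toAdd = eps l

/-- induction -/
def IndStmt : Prop :=
  ∀ n, ∃ (R : Subgroup (GZ 2 (ZMod 2 × Fin n))) (ϖ : _), Chr R ϖ ∧ Cg 2 _ 2 ≤ R ∧
    ∀ χ : GQ →* Cp 2, IsOpen (χ.ker : Set GQ) → (∃ g, χ g ≠ 1) → ¬ FourFM n χ.ker →
      ∃ Θ, IndR ϖ χ Θ ∧ Θ.range ≤ R

/-- the image of the induced representation -/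
def ClsStmt : Prop :=
  AllI fun ι _ _ => ∀ (R : Subgroup (GZ 2 ι)) ϖ χ Θ, Chr R ϖ →
    IndR ϖ χ Θ → Θ.range ≤ R → Cls Θ.range ϖ ∧ ∀ S, Hm Θ.range ϖ S → Adz S.T χ

/-- powerful quotients give representations of bounded dimension -/
def ArStmt : Prop :=
  ∀ r (S : Sy 2) co, Cd (-1 : ℤ) 3 r S co → ∀ χ : GQ →* Cp 2, IsOpen (χ.ker : Set GQ) →
    (∃ g, χ g ≠ 1) → FourFM (r + 2) χ.ker → ¬ Adz S.T χ → PowFM χ.ker

end Pool.Agent.MP_f68ac8_nt.Zq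

end

section

/-! Quadratic fields ordered by the discriminant. -/

namespace Pool.Agent.MP_f68ac8_nt.Nd

open Zq Ev Pv Sv Zv Zk NumberField Finset Filter
open scoped Topology BigOperators commutatorElement

/-- replace a letter by the product of its copies -/
def sbs (d : ℕ) {Λ : Type} : FreeGroup Λ →* FreeGroup (Lr d Λ) :=
  FreeGroup.lift fun l => (List.ofFn fun j : Fin d => FreeGroup.of (⟨j, l⟩ : Lr d Λ)).prod

/-- the quadratic character of conductor `n` -/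
noncomputable def chn (n : ℕ) : GQ →* Cp 2 := ∏ l ∈ n.primeFactors, ch 2 l

section
variable {Λ : Finset ℕ} {d : ℕ}

/-- the entries of a tuple -/
def vl (q : Fin d → Λ) (j : Fin d) : ℕ := q j

/-- the weight of a tuple -/
noncomputable def kap (c y : ℝ) (q : Fin d → Λ) : ℝ := Kc c (Real.log (np q) - y)

open Classical in
/-- the distribution of the linking matrix -/
noncomputable def nu (w : Fin d → Λ → ℝ) (c y : ℝ) (r : Mx d) : ℝ :=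
  Ex (U := fun _ => Λ) w fun q => if Function.Injective q ∧ lk2 (vl q) = r then kap c y q else 0

end

section
variable {P : Type} [Group P] (T : Fil 2 P) {d : ℕ} {Λ : Type}

/-- solutions of the equations -/
def Sol (y : Lr d Λ → FreeGroup (Lr d Λ)) (q : Fin d → Λ) (ε : Fin d → ZMod 2) : Prop :=
  ∃ z : Fin d → P, (∀ i, z i ∈ Zk.XX T) ∧ Subgroup.closure (Set.range z) ⊔ T.F 2 = ⊤ ∧
    (∀ i, ⁅z i, Yw (U := fun _ => Λ) y q z i⁆ = 1) ∧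
    ∀ D : Gd 2 P, D.Ok T → T.F 1 = ⊤ → ∃ c : P, c ^ 2 = 1 ∧ D.e 1 c = cc ε (tyOf D z)

end

/-- data at the odd primes -/
def CoN : Prop :=
  Zq.AllQ 2 fun K F _ _ => ∀ Λ : Finset ℕ, (∀ l ∈ Λ, l.Prime ∧ Odd l) → ∃ x : Λ → Zq.Co,
    (∀ u, (x u).Ok 2 K F ∧ Ty 2 F 1 (x u).σ) ∧ (∀ u, (x u).l = u) ∧
      Function.Injective fun u => pr K (x u)

/-- linking numbers are Jacobi symbols -/
def JacN : Prop :=
  ∀ l m : ℕ, l.Prime → Odd l → m.Prime → Odd m → l ≠ m → sg (lk 2 l m) = (jacobiSym l m : ℤ)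

/-- the characters of odd squarefree conductor -/
def ChnN : Prop :=
  (∀ (Λ : Finset ℕ) (d : ℕ) (q : Fin d → Λ), (∀ l ∈ Λ, l.Prime) → Function.Injective q →
    chn (np q) = Zq.chi (vl q)) ∧
  ∀ n : ℕ, Odd n → Squarefree n → n ≠ 1 → CycCh 2 n.primeFactors = {chn n} ∧
    IsOpen ((chn n).ker : Set GQ) ∧ ∃ g, chn n g ≠ 1

/-- characters of tiny conductor -/
def TinyN : Prop :=
  ∀ (p : Par) (c : ℝ) (n r : ℕ) (D η : ℝ), p.Ok c n r D η → ∀ τ : ℝ, |τ| ≤ c → ∀ R ⊆ p.ti,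
    (R.card : ℝ) ≤ D → ∀ b : ZMod 2, R.Nonempty ∨ b ≠ 0 →
    ‖∑ l ∈ p.Λ, (p.W 3 l : ℂ) * tw τ l * sg (b * Zq.eps l + ∑ m ∈ R, lk 2 l m)‖ ≤ η

/-- the kernel is an average of products -/
def TwN : Prop :=
  ∀ c : ℝ, 0 < c → ∀ Λ : Finset ℕ, (∀ l ∈ Λ, l.Prime) → ∀ (d : ℕ) (w : Fin d → Λ → ℝ) (y : ℝ),
    Tw (U := fun _ => Λ) w (kap c y) ∧ ∀ (F : (Fin d → Λ) → ℂ) (b : ℝ),
      (∀ τ : ℝ, |τ| ≤ c → ‖Ex (U := fun _ => Λ) w fun q => (∏ j, tw τ (q j)) * F q‖ ≤ b) →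
      ‖Ex (U := fun _ => Λ) w fun q => (kap c y q : ℂ) * F q‖ ≤ b

/-- the weights of the marks -/
def WmN : Prop :=
  ∀ (p : Par) (c : ℝ) (n r : ℕ) (D η : ℝ), p.Ok c n r D η → 0 ≤ η ∧ ∀ (d : ℕ) (μ : Fin d → Fin 4),
    Prob (U := fun _ => p.Λ) (wm p.Λ p.W μ) ∧ Disjoint (mk μ 1) (mk μ 3) ∧
    (∀ j u, μ j ≠ 0 → wm p.Λ p.W μ j u ≤ p.W (μ j) u ∧ wm p.Λ p.W μ j u ≤ η) ∧
    (∀ j u, wm p.Λ p.W μ j u ≠ 0 → (μ j = 0 → u.1 ∈ p.ti) ∧ (μ j = 1 → u.1 ∈ p.sm)) ∧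
    ∀ (c' y : ℝ) (f : Mx d → ℝ), ∑ r', nu (wm p.Λ p.W μ) c' y r' * f r' =
      Ex (U := fun _ => p.Λ) (wm p.Λ p.W μ) fun q =>
        if Function.Injective q then kap c' y q * f (lk2 (vl q)) else 0

/-- oscillation of the linking matrix -/
def OscN : Prop :=
  ∀ (p : Par) (c : ℝ) (n r : ℕ) (D η : ℝ), 0 < c → p.Ok c n r D η →
    ∀ (y : ℝ) (d : ℕ) (μ : Fin d → Fin 4), (d : ℝ) ≤ D →
      Osc (nu (wm p.Λ p.W μ) c y) (mk μ 3) ((d + 1) * η)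

/-- equidistribution of the Frobenius elements of the large primes -/
def EqpN : Prop :=
  Zq.AllQ 2 fun K F _ _ => ∀ (p : Par) (n : ℕ) (R : Finset ℕ) (η : ℝ), p.Eqd n R 0 η →
    (∀ l ∈ R, l.Prime) → ∀ x : p.Λ → Zq.Co, (∀ u, (x u).Ok 2 K F ∧ (x u).l = u) →
    ∀ N : Subgroup (GK K), AdmP 2 {q | Ideal.absNorm q ∈ R} N → N.index ≠ 0 → N.index ≤ n →
    ∀ (e : ℕ) (φ : GK K → ℂ), Tf N e φ →
    ‖∑ u : p.Λ, p.W 3 u • 𝔼 a : Exn e, φ (toK K (x u).σ ^ (a.1 : ℕ))‖ ≤ η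

/-- equidistribution of the random words -/
def EqaN : Prop :=
  Zq.AllQ 2 fun K F _ _ => ∀ (P : Type) [Group P] [Fintype P], (∀ g : P, ∃ k, g ^ 2 ^ k = 1) →
    ∀ (L : ℕ) (p : Par) (c D η : ℝ), p.Ok c (Fintype.card P ^ 2 ^ L) (2 * L) D η →
    ∀ (x : p.Λ → Zq.Co) N, AmP 2 F x N → (∀ u, (x u).l = u) →
    ∀ (𝓡 : Type) [Fintype 𝓡] [Nonempty 𝓡] (s : 𝓡 → FreeGroup p.Λ), Unf P (N.comap (lwp K x)) s →
    ∀ wd : p.Λ → Exn (2 * Fintype.card P) → FreeGroup p.Λ,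
    (∀ u a, (lwp K x (wd u a))⁻¹ * toK K (x u).σ ^ (a.1 : ℕ) ∈ N) →
    ∀ (d : ℕ) (μ : Fin d → Fin 4) (k : Lr d p.Λ → Exn (2 * Fintype.card P) × 𝓡 → ℕ),
    EQN (mk μ 1) (mk μ 3) P (wm p.Λ p.W μ)
      (fun u a => sbs d (wd u.2 a.1 * s a.2) * FreeGroup.of u ^ k u a) L η

/-- homomorphisms give solutions -/
def SolN : Prop :=
  Zq.AllQ 2 fun K F _ _ => ∀ (P : Type) [Group P] (T : Fil 2 P), (∀ g : P, ∃ k, g ^ 2 ^ k = 1) →
    ∀ (Λ : Type) (x : Λ → Zq.Co) N, AmP 2 F x N →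
    (∀ θ : GK K →* P, AdmP 2 (Set.range fun u => pr K (x u)) θ.ker → N ≤ θ.ker) →
    (∀ θ : GK K →* Cp 2, AdmP 2 (Set.range fun u => pr K (x u)) θ.ker → N ≤ θ.ker) →
    ∀ (d : ℕ) (v : Lr d Λ → FreeGroup Λ) (k : Lr d Λ → ℕ), (∀ u, ∃ b : ℕ, ¬ 2 ∣ b ∧
      (lwp K x (v u))⁻¹ * toK K (x u.2).σ ^ b ∈ N) → ∀ q : Fin d → Λ, Function.Injective q →
      (∀ i j, i ≠ j → rr (U := fun _ => Λ) (fun u => sbs d (v u) * FreeGroup.of u ^ k u) q 2 i j =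
        lk 2 (x (q i)).l (x (q j)).l) ∧
      (Adz T (Zq.chi fun j => (x (q j)).l) →
        Sol T (fun u => sbs d (v u) * FreeGroup.of u ^ k u) q fun j => Zq.eps (x (q j)).l)

/-- existence of the random words -/
def WordN : Prop :=
  ∀ (P : Type) [Group P] [Fintype P] (T : Fil 2 P), (∀ g : P, ∃ k, g ^ 2 ^ k = 1) → ∀ L : ℕ,
    ∃ n r : ℕ, ∀ (p : Par) (c D η : ℝ), p.Ok c n r D η → ∀ (d : ℕ) (μ : Fin d → Fin 4),
    ∃ (Y : Type) (_ : Fintype Y) (_ : Nonempty Y) (y : Lr d p.Λ → Y → FreeGroup (Lr d p.Λ)),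
      EQN (mk μ 1) (mk μ 3) P (wm p.Λ p.W μ) y L η ∧
      ∀ (a : Lr d p.Λ → Y) (q : Fin d → p.Λ), Function.Injective q →
        rr (U := fun _ => p.Λ) (fun u => y u (a u)) q 2 = lk2 (vl q) ∧
        (Adz T (Zq.chi (vl q)) → Sol T (fun u => y u (a u)) q (dg (lk2 (vl q))))

/-- rules for densities -/
def SpN : Prop :=
  (∀ (B B' : ℕ → Prop) (ε ε' : ℝ), ε < ε' → (∀ n, Odd n → Squarefree n → n ≠ 1 → B' n → B n) →
    Sp B ε → Sp B' ε') ∧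
  ∀ (J : Type) [Fintype J] (B : J → ℕ → Prop) (e : J → ℝ), (∀ j, Sp (B j) (e j)) →
    Sp (fun n => ∃ j, B j n) (∑ j, e j)

/-- few characters admit a homomorphism to a given filtered group -/
def PtN : Prop :=
  ∀ (l n : ℕ) (ε : ℝ), 0 < ε → ∃ L, 2 ≤ L ∧ ∀ S : Sy 2, TE S.T L l n →
    Sp (fun m => Adz S.T (chn m)) ε

/-- the rank of the class group modulo four is small -/
def RkN : Prop :=
  ∀ ε : ℝ, 0 < ε → ∃ r, 1 ≤ r ∧ ∀ (S : Sy 2) co, Cd (-1 : ℤ) 3 r S co →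
    Sp (fun m => Adz S.T (chn m)) ε

end Pool.Agent.MP_f68ac8_nt.Nd

end
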