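import Mathlib
import Pool.Agent.Mg.Fe23604m.Ga53936
import Pool.Agent.MP_f68ac8_nt.Cyc
import Pool.Agent.Mg.Fe23604m.G200097
import Pool.Agent.MP_f68ac8_nt.NaPsum

set_option linter.all false

section

/-! Primes that split in the cyclotomic field: equidistribution, bilinear sums, mean values. -/

namespace Pool.Agent.MP_f68ac8_nt.Nd

open NumberField Finset Filter
open MP_d64882_nt (cnt)
open Zv (Ex Prob)
open scoped Topology BigOperators commutatorElement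

/-- subgroups that cut out Galois extensions of degree at most `n` unramified outside `R` -/
structure Ad0 (n : ℕ) (R : Finset ℕ) (N : Subgroup GQ) : Prop where
  pri : ∀ l ∈ R, l.Prime
  nrm : N.Normal
  nhds : (N : Set GQ) ∈ 𝓝 1
  idx : N.index ≠ 0 ∧ N.index ≤ n
  unr : ∀ P : Ideal (𝓞 Qa), P.IsMaximal → (∀ l ∈ R, (l : 𝓞 Qa) ∉ P) → ∀ g ∈ P.inertia GQ, g ∈ N

/-- test functions of mean zero -/
structure Tf0 {G : Type} [Group G] (N : Subgroup G) (e : ℕ) (φ : G → ℂ) : Prop where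
  pos : 0 < e
  pow : ∀ g : G, g ^ e ∈ N
  le : ∀ g, ‖φ g‖ ≤ 1
  inv : ∀ n ∈ N, ∀ g, φ (n * g) = φ g
  cls : ∀ s g, φ (s * g * s⁻¹) = φ g
  sh : ∃ (z : G) (k : ℕ), 0 < k ∧ ∀ g, ∑ i ∈ range k, φ (z ^ i * g) = 0

/-- weighted sums of permutation characters -/
noncomputable def Sw {G : Type} [Group G] (σ : ℕ → G) (w : ℕ → ℝ) (H : Subgroup G) : ℝ :=
  ∑' i, w i * perm H (σ i)

/-- the primes that can ramify in cyclic fields of degree `p` -/
def Pq (p l : ℕ) : Prop := l.Prime ∧ (l ≡ 1 [MOD p] ∨ l = p)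

instance instDecPq (p l : ℕ) : Decidable (Pq p l) := inferInstanceAs (Decidable (_ ∧ _))

/-- the weight of a prime -/
def fq (p l : ℕ) : ℝ := if Pq p l then p - 1 else 0

/-- the completely multiplicative weight -/
noncomputable def gp (p n : ℕ) : ℝ := n.factorization.prod fun l k => fq p l ^ k

/-- a bound for the number of ideals whose norm has no simple prime factor except `p` -/
noncomputable def hw (N p n : ℕ) : ℝ :=
  n.factorization.prod fun l k => if k = 1 ∧ l ≠ p then 0 else ((k : ℝ) + 1) ^ N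

/-- weights of bounded mean value -/
def Mv (g : ℕ → ℝ) (C : ℝ) : Prop := (∀ n, 0 ≤ g n) ∧ ∀ x : ℕ, ∑ n ∈ Icc 1 x, g n ≤ C * x

section
variable (p : ℕ) [Fact p.Prime]

/-- the Galois group of the cyclotomic field -/
noncomputable def Gz : Subgroup GQ := (cyc (Ω := Qa) p).ker

/-- `p`-extensions of the rational numbers -/
structure AdQ (n : ℕ) (R : Finset ℕ) (N : Subgroup GQ) : Prop extends Ad0 n R N where
  pg : ∀ g : GQ, ∃ k, g ^ p ^ k ∈ N

/-- elementary abelian extensions of the cyclotomic field -/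
structure AdE (R : Finset ℕ) (N : Subgroup GQ) : Prop extends Ad0 (p ^ 3) R N where
  le : N ≤ Gz p
  pw : ∀ g ∈ Gz p, g ^ p ∈ N
  cm : ∀ g ∈ Gz p, ∀ h ∈ Gz p, ⁅g, h⁆ ∈ N

/-- additive functions on the Galois group of the cyclotomic field that vanish on `N` -/
structure AdZ (N : Subgroup GQ) (Ψ : GQ → ZMod p) : Prop where
  le : N ≤ Gz p
  add : ∀ g ∈ Gz p, ∀ h ∈ Gz p, Ψ (g * h) = Ψ g + Ψ h
  ker : ∀ g ∈ N, Ψ g = 0

variable {p} in
/-- the coefficients of the logarithm of a quotient of zeta functions -/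
noncomputable def cP (Ψ : GQ → ZMod p) (σ : ℕ → GQ) (t : (ZMod p)ˣ → GQ) (l : ℕ) : ℂ :=
  if l ≡ 1 [MOD p] then ∑ j : (ZMod p)ˣ × (ZMod p)ˣ,
    ZMod.stdAddChar ((j.1 : ZMod p) * Ψ (t j.2 * σ l * (t j.2)⁻¹)) else 0

end

/-! ### equidistribution -/

/-- degrees and discriminants -/
def DiscP : Prop :=
  ∀ n : ℕ, ∃ C : ℝ, 1 ≤ C ∧ ∀ R N, Ad0 n R N →
    ∀ (E : IntermediateField ℚ Qa) [NumberField E], N ≤ E.fixingSubgroup →
      dE E ≤ n ∧ Real.log (Bd E) ≤ C * sz R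

/-- primes of degree one -/
def CountP : Prop :=
  ∀ n R N, Ad0 n R N →
    (∀ H, N ≤ H → ∃ (E : IntermediateField ℚ Qa) (_ : NumberField E), E.fixingSubgroup = H) ∧
    ∀ (E : IntermediateField ℚ Qa) [NumberField E], N ≤ E.fixingSubgroup →
      ∀ l : ℕ, l.Prime → l ∉ R → ∀ σ, Fr l σ → cnt E l = perm E.fixingSubgroup σ

/-- the induction theorem of Artin -/
def ArtinP : Prop :=
  ∀ n : ℕ, ∃ C : ℝ, 0 < C ∧ ∀ (G : Type) [Group G] (N : Subgroup G), N.Normal → N.index ≠ 0 →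
    N.index ≤ n → ∀ (e : ℕ) (φ : G → ℂ), Tf0 N e φ →
    ∃ (T : Finset (Subgroup G)) (c : Subgroup G → ℂ), (∀ H ∈ T, N ≤ H) ∧ ∑ H ∈ T, ‖c H‖ ≤ C ∧
      ∑ H ∈ T, c H = 0 ∧ ∀ g, 𝔼 a : Exm e, φ (g ^ (a.1 : ℕ)) = ∑ H ∈ T, c H * perm H g

/-- equidistribution of Frobenius elements -/
def ChebP : Prop :=
  ∀ n : ℕ, ∃ c : ℝ, 0 < c ∧ ∀ k : ℕ, ∃ C : ℝ, 0 < C ∧ ∀ R N, Ad0 n R N →
    ∀ M ρ h s τ η : ℝ, sz R ≤ M → 0 < ρ → ρ ≤ c / M → GoodN N ρ → 0 < h → C * h ≤ ρ → 1 < s →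
      s ≤ 1 + h → |τ| ≤ c → ∀ (A : Finset ℕ) (σ : ℕ → GQ),
      (∀ l ∈ A, l.Prime ∧ l ∉ R ∧ Fr l (σ l)) → ∑' l, wl s h k l ≤ ∑ l ∈ A, wl s h k l + η →
      ∀ (e : ℕ) (φ : GQ → ℂ), Tf0 N e φ →
      ‖∑ l ∈ A, (wl s h k l : ℝ) * tw τ l * 𝔼 a : Exm e, φ (σ l ^ (a.1 : ℕ))‖ ≤
        C * (M * (h / ρ) ^ (k + 1) + η)

/-- a scale that separates the fields with and without a zero close to one -/
def DichP : Prop :=
  ∀ (n : ℕ) (θ c' : ℝ), 0 < θ → θ < 1 / 2 → 0 < c' → ∃ c : ℝ, 0 < c ∧ c ≤ c' ∧ ∀ R N, Ad0 n R N →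
    ∀ M : ℝ, sz R ≤ M → ∃ (σ : ℕ → GQ) (w : ℕ → ℝ), (∀ i, 0 ≤ w i) ∧ Summable w ∧
      (∀ H, N ≤ H → Sw σ w H ≤ θ ∨ |Sw σ w H - 1| ≤ θ) ∧
      ∀ (E : IntermediateField ℚ Qa) [NumberField E], N ≤ E.fixingSubgroup →
        (¬ Good E (c / M ^ 2) → Sw σ w E.fixingSubgroup ≤ θ) ∧
        (Sw σ w E.fixingSubgroup ≤ θ → ¬ Good E (c' / M ^ 2))

/-- holomorphic factors of the zeta function -/
def ExpP : Prop :=
  ∀ N : ℕ, ∃ C : ℕ, ∀ (E : Type) [Field E] [NumberField E], dE E ≤ N → ∃ G : ℂ → ℂ,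
    DifferentiableOn ℂ G (Metric.ball 2 (5 / 4)) ∧
    (∀ s ∈ Metric.ball (2 : ℂ) (5 / 4), G s ≠ 0 ∧ ‖G s‖ ≤ Bd E ^ C ∧ ‖(G s)⁻¹‖ ≤ Bd E ^ C) ∧
    ∀ s ∈ Metric.ball (2 : ℂ) (5 / 4), 1 < s.re → Complex.exp (P0 E s) = ZE E s * G s

/-- quotients of zeta functions -/
def QuoP : Prop :=
  ∀ (F : Type) [Field F] [NumberField F] (N : ℕ), ∃ (r : ℝ) (C : ℕ), 0 < r ∧ r ≤ 1 / 8 ∧
    ∀ (E : Type) [Field E] [NumberField E], dE E ≤ N → ∃ g : ℂ → ℂ,
      DifferentiableOn ℂ g (Metric.ball 1 r) ∧ ∀ s ∈ Metric.ball (1 : ℂ) r, ‖g s‖ ≤ Bd E ^ C ∧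
        (1 < s.re → g s = Complex.exp (P0 E s - P0 F s))

/-- the sum over the primes of degree one -/
def LogP : Prop :=
  ∀ (F : Type) [Field F] [NumberField F], ∃ r C : ℝ, 0 < r ∧ ∀ s : ℝ, 1 < s → s ≤ 1 + r →
    |(P0 F s).re + Real.log (s - 1)| ≤ C

/-- positivity -/
def PsdP : Prop :=
  ∀ (J : Type) [Fintype J] (B : Finset ℕ) (γ : ℕ → ℕ → J → ℂ) (b : ℕ → ℂ) (s h L δ : ℝ) (k K : ℕ)
    (A : Finset (ℕ × J)), (∀ m l j, ‖γ m l j‖ ≤ 1) → 1 < s → 0 < h → 1 ≤ L → 0 ≤ δ →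
    (∀ x ∈ A, x.1.Prime ∧ L ≤ x.1) →
    (∀ m ∈ B, ∀ m' ∈ B, m ≠ m' → ‖(fwdDiff (h : ℂ))^[k + 1] (fun z => Complex.exp
      (∑' l, (∑ j, γ m l j * (starRingEnd ℂ) (γ m' l j)) * pw z l)) s‖ ≤ δ) →
    (1 - L ^ (-(K * h))) ^ (k + 1) * ∑ x : Fin K → A, (∏ i, ((x i).1.1 : ℝ) ^ (-s)) *
        ‖∑ m ∈ B, b m * ∏ i, γ m (x i).1.1 (x i).1.2‖ ^ 2 ≤
      K.factorial * ((∑ m ∈ B, ‖b m‖ ^ 2) * Real.exp (Fintype.card J * ∑' l, ‖pw s l‖) +
        (∑ m ∈ B, ‖b m‖) ^ 2 * δ)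

/-- the inequality of Hölder -/
def HolP : Prop :=
  ∀ (ι : Type) (A : Finset ι) (B : Finset ℕ) (a : ι → ℂ) (ω : ι → ℝ) (b : ℕ → ℂ) (γ : ℕ → ι → ℂ)
    (K : ℕ) (T : ℝ), 1 ≤ K → (∀ x ∈ A, ‖a x‖ ≤ ω x) →
    (∀ b' : ℕ → ℂ, (∀ m, ‖b' m‖ ≤ ‖b m‖) →
      ∑ x : Fin K → A, (∏ i, ω (x i)) * ‖∑ m ∈ B, b' m * ∏ i, γ m (x i)‖ ^ 2 ≤ T) →
    ‖∑ x ∈ A, ∑ m ∈ B, a x * b m * γ m x‖ ^ (2 * K) ≤
      (∑ m ∈ B, ‖b m‖) ^ (2 * K - 2) * (∑ x ∈ A, ω x) ^ K * T

/-- the choice of the exponents -/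
def NumP : Prop :=
  ∀ C r : ℝ, 0 < C → 0 < r → ∃ x₀ : ℝ, ∀ x, x₀ ≤ x → ∃ k K : ℕ, 1 ≤ K ∧
    Real.exp (C * x) / 2 ^ k ≤ Real.exp (-x) ∧
    1 / 2 ≤ (1 - Real.exp (-(K * (r / (k + 1)) * x))) ^ (k + 1) ∧
    K.factorial * Real.exp (-x) ≤ Real.exp (-√x) ^ (2 * K)

/-- mean values of multiplicative functions on squarefree numbers -/
def HtP : Prop :=
  ∀ (f : ℕ → ℝ) (k : ℝ) (X : ℕ), (∀ l, 0 ≤ f l ∧ f l ≤ k) →
    Real.log X * ∑ n ∈ Icc 1 X with Squarefree n, ∏ l ∈ n.primeFactors, f l ≤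
      (2 * k + 1) * X * Real.exp (∑ l ∈ (range (X + 1)).filter Nat.Prime, f l / l)

/-- the kernel and weights -/
def KerP : Prop :=
  ∀ c C₁ : ℝ, 0 < c → ∃ C₀ : ℝ, 0 < C₀ ∧ ∀ g : ℕ → ℝ, Mv g C₁ → ∀ (s y : ℝ) (A : Finset ℕ), 1 ≤ s →
    ∑ n ∈ A, g n * (n : ℝ) ^ (-s) * Kc c (Real.log n - y) ≤ C₀

/-- counting in windows -/
def WndP : Prop :=
  ∀ c C₁ ε : ℝ, 0 < c → 0 < ε → ∃ ε' : ℝ, 0 < ε' ∧ ∀ (g b : ℕ → ℝ), Mv g C₁ →
    (∀ n, 0 ≤ b n ∧ b n ≤ g n) → ∀ (X : ℕ) (A : Finset ℕ), 3 ≤ X → A ⊆ Icc 1 X →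
    (∀ y : ℝ, ∑ n ∈ A, b n * (n : ℝ) ^ (-(1 + 1 / Real.log X)) * Kc c (Real.log n - y) ≤ ε') →
    ∑ n ∈ A, b n ≤ ε * X

open Classical in
/-- from tuples to numbers -/
def PoisP : Prop :=
  ∀ (Λ S : Finset ℕ) (W : Fin 4 → ℕ → ℝ) (C₀ ε C ξ δ D : ℝ) (d₀ m₀ : ℕ) (G K β : ℕ → ℝ),
    (∀ l ∈ Λ, l.Prime) → (∀ m l, 0 ≤ W m l) → G 1 = 1 → (∀ n, 0 ≤ G n) →
    (∀ a b, a ≠ 0 → b ≠ 0 → G (a * b) = G a * G b) →
    (∀ l ∈ Λ, ∑ m, W m l = G l) → (∀ m, 0 < ms Λ W m) →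
    (∀ l ∈ S, ∀ m, m ≠ 1 → W m l = 0) → (∀ n, 0 ≤ K n) → (∀ n, 0 ≤ β n ∧ β n ≤ 1) →
    (∀ a : ℕ, a ≠ 0 → ∀ A : Finset ℕ, ∑ n ∈ A, G n * K (a * n) ≤ C₀) →
    0 ≤ ε → 0 ≤ C → 0 ≤ ξ → 0 < δ → δ ≤ 1 → 0 < D → 0 < d₀ → 2 * m₀ ≤ d₀ →
    (∀ (d : ℕ) (μ : Fin d → Fin 4), (d : ℝ) ≤ D → Thin δ m₀ (mk μ 1) (mk μ 3) →
      (Ex (U := fun _ => Λ) (wm Λ W μ) fun q =>
        if Function.Injective q then β (np q) * K (np q) else 0) ≤
      ε * (Ex (U := fun _ => Λ) (wm Λ W μ) fun q => K (np q)) + C ^ (d + 1) * ξ) →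
    ∀ A : Finset ℕ, (∀ n ∈ A, Squarefree n ∧ n.primeFactors ⊆ Λ ∧
      d₀ ≤ n.primeFactors.card ∧ m₀ ≤ (n.primeFactors ∩ S).card) →
    ∑ n ∈ A, G n * β n * K n ≤ ε * C₀ + C * ξ * Real.exp (C * ∑ m, ms Λ W m) +
      C₀ * (∑ m, ms Λ W m) / D + 2 * C₀ * (∑ m with m ≠ 3, ms Λ W m) / (δ * d₀)

/-- the number of ideals of given norm -/
def IdP : Prop :=
  ∀ (N p : ℕ) (E : Type) [Field E] [NumberField E], p.Prime → dE E ≤ N → ∀ n : ℕ, n ≠ 0 →
    ∃ m b : ℕ, m * b = n ∧ Squarefree m ∧ ¬ p ∣ m ∧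
      (cnt E n : ℝ) ≤ (∏ l ∈ m.primeFactors, (cnt E l : ℝ)) * hw N p b

/-- numbers without simple prime factors are sparse -/
def HsP : Prop := ∀ N p : ℕ, (∀ b, 0 ≤ hw N p b) ∧ Summable fun b : ℕ => hw N p b / b

section
variable (p : ℕ) [Fact p.Prime]

/-- small subgroups -/
def GrpP : Prop :=
  ∀ (G : Type) [Group G] (N : Subgroup G) (n : ℕ), N.Normal → N.index ≠ 0 → N.index ≤ n →
    ∀ (σ : ℕ → G) (w : ℕ → ℝ) (θ : ℝ), (∀ i, 0 ≤ w i) → Summable w → 0 ≤ θ →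
    θ * (n + 2 * p + 2) < 1 → (∀ H, N ≤ H → Sw σ w H ≤ θ ∨ |Sw σ w H - 1| ≤ θ) →
    (∀ A H : Subgroup G, N ≤ A → A ≤ H → Sw σ w H ≤ θ → Sw σ w A ≤ θ) ∧
    ∀ K : Subgroup G, N ≤ K → (∀ g ∈ K, ∃ k, g ^ p ^ k ∈ N) →
      (∀ A B : Subgroup G, N ≤ A → N ≤ B → A ≤ K → B ≤ K →
        (∀ x ∈ K, ∃ a ∈ A, ∃ b ∈ B, a * b = x) → Sw σ w A ≤ θ → Sw σ w B ≤ θ → Sw σ w K ≤ θ) ∧
      ((∀ g ∈ K, g ^ p ∈ N) → (∀ g ∈ K, ∀ h ∈ K, ⁅g, h⁆ ∈ N) → ¬ Sw σ w K ≤ θ →
        ∀ A : Subgroup G, N ≤ A → A ≤ K → Sw σ w A ≤ θ →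
          ∃ M : Subgroup G, A ≤ M ∧ M ≤ K ∧ M.relIndex K = p ∧ Sw σ w M ≤ θ)

/-- the cyclotomic field -/
def GzP : Prop :=
  Ad0 p {p} (Gz p) ∧ (∀ g : GQ, g ^ (p - 1) ∈ Gz p) ∧
  (∀ (l : ℕ) (σ : GQ), l.Prime → l ≠ p → Fr l σ → (σ ∈ Gz p ↔ l ≡ 1 [MOD p])) ∧
  (∀ l : ℕ, l.Prime → ∃ σ, Fr l σ) ∧
  (∀ n n' R R' N N', Ad0 n R N → Ad0 n' R' N' → Ad0 (n * n') (R ∪ R') (N ⊓ N')) ∧
  (∀ σ : GQ, perm (Gz p) σ = if cyc (Ω := Qa) p σ = 1 then p - 1 else 0) ∧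
  ∃ (F : IntermediateField ℚ Qa) (_ : NumberField F), F.fixingSubgroup = Gz p ∧ dE F ≤ p ∧
    ∀ l : ℕ, l.Prime → l ≠ p → (cnt F l : ℝ) = fq p l

/-- the exceptional primes -/
def SelP : Prop :=
  (∀ n : ℕ, ∃ c : ℝ, 0 < c ∧ ∀ (M ρ : ℝ) (r : ℕ), ρ ≤ c / M ^ 2 → ∃ E₀ : Finset ℕ, E₀.card ≤ r ∧
    ∀ R N, AdQ p n R N → R.card ≤ r → sz (insert p R) ≤ M → Disjoint R E₀ →
      GoodN (N ⊓ Gz p) ρ) ∧
  ∃ c : ℝ, 0 < c ∧ ∀ p₁ : ℕ, ∃ ρ₀ : ℝ, 0 < ρ₀ ∧ ∀ M ρ : ℝ, ρ ≤ c / M ^ 2 → ρ ≤ ρ₀ →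
    ∃ p₀ : ℕ, p₁ ≤ p₀ ∧ ∀ R N, AdE p R N → sz R ≤ M → p₀ ∉ R → GoodN N ρ

/-- equidistribution over the cyclotomic field -/
def ChZ : Prop :=
  ∀ n : ℕ, ∃ c : ℝ, 0 < c ∧ ∀ k : ℕ, ∃ C : ℝ, 0 < C ∧ ∀ R N, Ad0 n R N → p ∈ R → N ≤ Gz p →
    ∀ M ρ h s τ η : ℝ, sz R ≤ M → 0 < ρ → ρ ≤ c / M → GoodN N ρ → 0 < h → C * h ≤ ρ → 1 < s →
      s ≤ 1 + h → |τ| ≤ c → ∀ (A : Finset ℕ) (σ : ℕ → GQ), (∀ l ∈ A, l.Prime ∧ l ∉ R) →
      (∀ l ∈ A, l ≡ 1 [MOD p] → Fr l (σ l)) → ∑' l, wl s h k l ≤ ∑ l ∈ A, wl s h k l + η →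
      ∀ (e : ℕ) (φ : GQ → ℂ), Tf0 N e φ → (∀ g ∉ Gz p, φ g = 0) →
      ‖∑ l ∈ A with l ≡ 1 [MOD p], (wl s h k l : ℝ) * tw τ l * 𝔼 a : Exm e, φ (σ l ^ (a.1 : ℕ))‖ ≤
        C * (M * (h / ρ) ^ (k + 1) + η)

/-- equidistribution in `p`-extensions of the primes congruent to one -/
def ChQ : Prop :=
  ∀ n : ℕ, ∃ c : ℝ, 0 < c ∧ ∀ k : ℕ, ∃ C : ℝ, 0 < C ∧ ∀ R N, AdQ p n R N →
    ∀ M ρ h s τ η : ℝ, sz (insert p R) ≤ M → 0 < ρ → ρ ≤ c / M → GoodN (N ⊓ Gz p) ρ → 0 < h →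
      C * h ≤ ρ → 1 < s → s ≤ 1 + h → |τ| ≤ c → ∀ (A : Finset ℕ) (σ : ℕ → GQ),
      (∀ l ∈ A, l.Prime ∧ l ∉ insert p R) → (∀ l ∈ A, l ≡ 1 [MOD p] → Fr l (σ l)) →
      ∑' l, wl s h k l ≤ ∑ l ∈ A, wl s h k l + η →
      ∀ (e : ℕ) (φ : GQ → ℂ), Tf N e φ → p - 1 ∣ e →
      ‖∑ l ∈ A with l ≡ 1 [MOD p], (wl s h k l : ℝ) * tw τ l * 𝔼 a : Exm e, φ (σ l ^ (a.1 : ℕ))‖ ≤
        C * (M * (h / ρ) ^ (k + 1) + η)

/-- cancellation for a nontrivial character -/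
def OffP : Prop :=
  ∀ n : ℕ, ∃ r C : ℝ, 0 < r ∧ r ≤ 1 ∧ 0 < C ∧ ∀ R N, Ad0 n R N → p ∈ R →
    ∀ Ψ : GQ → ZMod p, AdZ p N Ψ → (∃ g ∈ Gz p, Ψ g ≠ 0) → ∀ (σ : ℕ → GQ) (t : (ZMod p)ˣ → GQ),
    (∀ l : ℕ, l.Prime → l ≡ 1 [MOD p] → Fr l (σ l)) → (∀ j, cyc (Ω := Qa) p (t j) = j) →
    ∀ (k : ℕ) (s : ℝ), 1 < s → s ≤ 1 + r →
      ‖(fwdDiff ((r / (k + 1) : ℝ) : ℂ))^[k + 1]
        (fun z => Complex.exp (∑' l, cP Ψ σ t l * pw z l)) s‖ ≤ Real.exp (C * sz R) / 2 ^ k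

/-- bilinear sums with a short modulus -/
def Bil1P : Prop :=
  ∀ n : ℕ, ∃ (r C : ℝ) (e : ℕ), 0 < r ∧ r ≤ 1 ∧ 0 < C ∧ ∀ (s L : ℝ) (A B : Finset ℕ) (a b : ℕ → ℂ)
    (σ : ℕ → GQ) (N : ℕ → Subgroup GQ) (Ψ : ℕ → GQ → ZMod p), 1 < s → s ≤ 1 + r → 2 ≤ L →
    (∀ l ∈ A, l.Prime ∧ l ≡ 1 [MOD p] ∧ Fr l (σ l) ∧ L ≤ l ∧ ‖a l‖ ≤ (l : ℝ) ^ (-s)) →
    (∀ m ∈ B, m.Prime ∧ L ≤ m ∧ m < L ^ 2 ∧ ‖b m‖ ≤ (m : ℝ) ^ (-s) ∧ Ad0 n {p, m} (N m) ∧
      AdZ p (N m) (Ψ m)) → (∀ m ∈ B, ∀ m' ∈ B, m ≠ m' → ∃ g ∈ Gz p, Ψ m g ≠ Ψ m' g) →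
    ‖∑ l ∈ A, ∑ m ∈ B, a l * b m * ZMod.stdAddChar (Ψ m (σ l))‖ ≤
      C / (s - 1) ^ e * Real.exp (-√(Real.log L))

/-- the theorem of Mertens -/
def MertP : Prop :=
  ∃ C : ℝ, ∀ y : ℝ, 2 ≤ y →
    |∑ l ∈ range (⌊y⌋₊ + 1), fq p l / l - Real.log (Real.log y)| ≤ C

/-- the weight -/
def GpP : Prop :=
  (∀ n, 0 ≤ gp p n) ∧ gp p 1 = 1 ∧ (∀ a b, a ≠ 0 → b ≠ 0 → gp p (a * b) = gp p a * gp p b) ∧
  (∀ l, l.Prime → gp p l = fq p l) ∧
  (∀ n, Squarefree n → gp p n = ∏ l ∈ n.primeFactors, fq p l) ∧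
  ∃ C : ℝ, 0 < C ∧ Mv (gp p) C

/-- numbers with few prime factors in a given set -/
def TkP : Prop :=
  ∃ C : ℝ, 0 < C ∧ ∀ (X : ℕ) (A : Finset ℕ) (a : ℝ), 2 ≤ X → (∀ l ∈ A, Pq p l ∧ l ≤ X) →
    a ≤ ∑ l ∈ A, (1 : ℝ) / l →
    ∑ n ∈ Icc 1 X with Squarefree n ∧ ((n.primeFactors ∩ A).card : ℝ) ≤ a / 2, gp p n ≤
      C * X * Real.exp (-(a / 8))

/-- a lower bound for the mean value -/
def LowP : Prop :=
  ∃ c : ℝ, 0 < c ∧ ∀ᶠ X : ℕ in atTop,
    c * X ≤ ∑ n ∈ Icc 1 X with Squarefree n ∧ ¬ p ∣ n, gp p n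

end

end Pool.Agent.MP_f68ac8_nt.Nd

end

section

namespace Pool.Agent.MP_f68ac8_nt.Nd
open NumberField Finset Filter
open MP_d64882_nt (cnt)
open Zv (Ex Prob)
open scoped Topology BigOperators commutatorElement

theorem discP : DiscP := by
  intro n
  refine ⟨1 + n * n, le_add_of_nonneg_right (by positivity), fun R N hA E _ hE => ?_⟩
  have := hA.nrm
  have hop : IsOpen (N : Set GQ) := N.isOpen_of_mem_nhds hA.nhds
  have hfix := InfiniteGalois.fixingSubgroup_fixedField ⟨N, N.isClosed_of_isOpen hop⟩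
  set L := IntermediateField.fixedField N with hL
  change L.fixingSubgroup = N at hfix
  obtain ⟨h1, h2⟩ := (InfiniteGalois.isOpen_and_normal_iff_finite_and_isGalois L).mp
    (by rw [hfix]; exact ⟨hop, hA.nrm⟩)
  have : FiniteDimensional ℚ L := h1
  have : IsGalois ℚ L := h2
  have : NumberField L := {}
  have hD : Module.finrank ℚ L ≤ n := by
    rw [IntermediateField.finrank_eq_fixingSubgroup_index, hfix]
    exact hA.idx.2
  have hEL : E ≤ L := (IntermediateField.le_iff_le N E).mpr hE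
  refine ⟨(IntermediateField.finrank_le_of_le_right hEL).trans hD, ?_⟩
  have h3 : (discr L).natAbs ≤ (∏ l ∈ R, l) ^ (n * n) := by
    refine discr_le_NbDisc hD R hA.pri fun Q hQ hQR => ?_
    rw [← Ideal.ramificationIdx_eq_one_iff,
      ← Ideal.ramificationIdxIn_eq_ramificationIdx (Q.under ℤ) Q (L ≃ₐ[ℚ] L),
      ← Ideal.card_inertia_eq_ramificationIdxIn (G := L ≃ₐ[ℚ] L) (Q.under ℤ) Q,
      Subgroup.card_eq_one, eq_bot_iff]
    intro g₀ h₀
    obtain ⟨P, hP, hPQ⟩ := Ideal.exists_maximal_ideal_liesOver_of_isIntegral (S := 𝓞 Qa) Q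
    rw [hPQ.over] at h₀
    obtain ⟨g, hg, rfl⟩ := lift_inertia L P h₀
    have := hA.unr P hP (fun l hl hlP => hQR l hl (by
      rw [hPQ.over, Ideal.mem_comap, map_natCast]
      exact hlP)) g hg
    rw [← hfix] at this
    rw [Subgroup.mem_bot, res_eq_one]
    intro x hx
    exact this ⟨x, hx⟩
  have h4 : (discr E).natAbs ≤ (discr L).natAbs := by
    let _ : Algebra E L := (IntermediateField.inclusion hEL).toRingHom.toAlgebra
    exact Nat.le_of_dvd (Int.natAbs_pos.mpr (discr_ne_zero L))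
      (Int.natAbs_dvd_natAbs.mpr (discr_dvd_discr E L))
  have h5 : |(discr E : ℝ)| ≤ (∏ l ∈ R, (l : ℝ)) ^ (n * n) := by
    rw [← Int.cast_abs, ← Nat.cast_natAbs]
    rw [← Nat.cast_prod, ← Nat.cast_pow, Nat.cast_le]
    exact h4.trans h3
  have h6 : (0 : ℝ) < |(discr E : ℝ)| := abs_pos.mpr (by exact_mod_cast discr_ne_zero E)
  have h7 := Real.log_le_log h6 h5
  rw [Real.log_pow, Real.log_prod fun l hl => by exact_mod_cast (hA.pri l hl).ne_zero] at h7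
  have h8 : 0 ≤ ∑ l ∈ R, Real.log l := Finset.sum_nonneg fun l _ => Real.log_natCast_nonneg l
  have h9 : Real.log 2 ≤ 1 := by linarith [Real.log_le_sub_one_of_pos (zero_lt_two (α := ℝ))]
  unfold Bd sz
  rw [Real.log_mul two_ne_zero h6.ne']
  push_cast at h7
  have h10 : (0 : ℝ) ≤ n * n := by positivity
  nlinarith

lemma not_dvd_NhDisc {n : ℕ} {R : Finset ℕ} {N : Subgroup GQ} (h : Ad0 n R N)
    (L : IntermediateField ℚ Qa) [NumberField L] [IsGalois ℚ L] (hfix : L.fixingSubgroup = N)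
    {l : ℕ} (hl : l.Prime) (hR : l ∉ R) : ¬ (l : ℤ) ∣ discr L := by
  rw [not_dvd_discr_iff_forall_liesOver L (𝓞 L) (Nat.prime_iff_prime_int.1 hl)]
  intro Q hQ hQl
  rw [← Ideal.ramificationIdx_eq_one_iff,
    ← Ideal.ramificationIdxIn_eq_ramificationIdx (Q.under ℤ) Q (L ≃ₐ[ℚ] L),
    ← Ideal.card_inertia_eq_ramificationIdxIn (G := L ≃ₐ[ℚ] L) (Q.under ℤ) Q,
    Subgroup.card_eq_one, eq_bot_iff]
  intro g₀ h₀
  obtain ⟨P, hP, hPQ⟩ := Ideal.exists_maximal_ideal_liesOver_of_isIntegral (S := 𝓞 Qa) Q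
  have hlQ : (l : 𝓞 L) ∈ Q := by
    have : (l : ℤ) ∈ Q.under ℤ := by
      rw [← hQl.over]
      exact Ideal.mem_span_singleton_self _
    simpa using Ideal.mem_comap.mp this
  have hlP : (l : 𝓞 Qa) ∈ P := by
    rw [hPQ.over] at hlQ
    simpa using Ideal.mem_comap.mp hlQ
  rw [hPQ.over] at h₀
  obtain ⟨g, hg, rfl⟩ := lift_inertia L P h₀
  have := h.unr P hP (fun l' hl' => not_mem_of_coprime hlP
    ((Nat.coprime_primes hl (h.pri l' hl')).mpr fun e => hR (e ▸ hl'))) g hg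
  rw [← hfix] at this
  rw [Subgroup.mem_bot, res_eq_one]
  intro x hx
  exact this ⟨x, hx⟩

theorem countP : CountP := by
  intro n R N h
  have key : ∀ H : Subgroup GQ, N ≤ H →
      (IntermediateField.fixedField H).fixingSubgroup = H ∧ IsOpen (H : Set GQ) := by
    intro H hH
    have hop : IsOpen (H : Set GQ) :=
      H.isOpen_of_mem_nhds (Filter.mem_of_superset h.nhds hH)
    exact ⟨InfiniteGalois.fixingSubgroup_fixedField ⟨H, H.isClosed_of_isOpen hop⟩, hop⟩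
  refine ⟨fun H hH => ?_, ?_⟩
  · obtain ⟨h1, h2⟩ := key H hH
    haveI : FiniteDimensional ℚ (IntermediateField.fixedField H) :=
      (InfiniteGalois.isOpen_iff_finite _).mp (by rw [h1]; exact h2)
    exact ⟨IntermediateField.fixedField H, {}, h1⟩
  intro E _ hNE l hl hR σ hσ
  obtain ⟨P, hP, hlP, hF⟩ := hσ
  obtain ⟨hfix, hop⟩ := key N le_rfl
  set L := IntermediateField.fixedField N with hL
  obtain ⟨h1, h2⟩ := (InfiniteGalois.isOpen_and_normal_iff_finite_and_isGalois L).mp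
    (by rw [hfix]; exact ⟨hop, h.nrm⟩)
  haveI : FiniteDimensional ℚ L := h1
  haveI : IsGalois ℚ L := h2
  haveI : NumberField L := {}
  have hEL : E ≤ L := (IntermediateField.le_iff_le N E).mpr hNE
  let ι : E →+* L := (IntermediateField.inclusion hEL).toRingHom
  let τ₀ : MP_d64882_nt.Emb E L := MP_d64882_nt.Emb.mk ι
  have hE : Algebra.IsUnramifiedIn (𝓞 E) (Ideal.span {(l : ℤ)}) := by
    rw [← not_dvd_discr_iff_isUnramifiedIn E (𝓞 E) (Nat.prime_iff_prime_int.1 hl)]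
    intro hd
    letI : Algebra E L := ι.toAlgebra
    exact not_dvd_NhDisc h L hfix hl hR (hd.trans (discr_dvd_discr E L))
  have hu : (P.under (𝓞 L)).under ℤ = Ideal.span {(l : ℤ)} := by
    rw [Ideal.under_under, under_int_eq hl hlP]
  have hQ : P.under (𝓞 L) ∈ (Ideal.span {(l : ℤ)}).primesOver (𝓞 L) :=
    ⟨inferInstance, ⟨hu.symm⟩⟩
  have hA : IsArithFrobAt ℤ (res L σ) (P.under (𝓞 L)) := by
    intro x
    have hc : Nat.card (ℤ ⧸ (P.under (𝓞 L)).under ℤ) = l := by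
      rw [hu, Nat.card_congr (Int.quotientSpanNatEquivZMod l).toEquiv, Nat.card_zmod]
    rw [hc]
    change res L σ • x - x ^ l ∈ _
    rw [Ideal.mem_comap, map_sub, map_pow, res_smul]
    exact hF _
  have h3 := MP_d64882_nt.orbData_frob l hl _ hQ _ hA τ₀ hE
  rw [← MP_d64882_nt.cnt_prime E l hl, ← h3.card_fixed]
  refine perm_eq_NbCount (res L) (AlgEquiv.restrictNormalHom_surjective Qa) τ₀
    (MP_d64882_nt.Emb.exists_smul τ₀) _ (fun g => ?_) σ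
  rw [IntermediateField.mem_fixingSubgroup_iff]
  have h4 : ∀ x : E, (((res L g • τ₀).hom x : L) : Qa) = g x := fun x =>
    AlgEquiv.restrictNormal_commutes g L (ι x)
  refine ⟨fun hg => MP_d64882_nt.Emb.ext fun x => Subtype.ext ?_, fun hg x hx => ?_⟩
  · rw [h4]
    exact hg x x.2
  · have := h4 ⟨x, hx⟩
    rw [hg] at this
    exact this.symm

theorem inf_NhDisc {n n' : ℕ} {R₁ R₂ : Finset ℕ} {N₁ N₂ : Subgroup GQ} (h₁ : Ad0 n R₁ N₁)
    (h₂ : Ad0 n' R₂ N₂) : Ad0 (n * n') (R₁ ∪ R₂) (N₁ ⊓ N₂) where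
  pri l hl := (mem_union.1 hl).elim (h₁.pri l) (h₂.pri l)
  nrm := by
    have := h₁.nrm
    have := h₂.nrm
    infer_instance
  nhds := by
    rw [Subgroup.coe_inf]
    exact inter_mem h₁.nhds h₂.nhds
  idx := ⟨Subgroup.index_inf_ne_zero h₁.idx.1 h₂.idx.1,
    Subgroup.index_inf_le.trans (Nat.mul_le_mul h₁.idx.2 h₂.idx.2)⟩
  unr P hP hR g hg :=
    ⟨h₁.unr P hP (fun l hl => hR l (mem_union_left _ hl)) g hg,
      h₂.unr P hP (fun l hl => hR l (mem_union_right _ hl)) g hg⟩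

theorem fix_NhDisc {G : Type} [Group G] (N : Subgroup G) [hN : N.Normal] (σ : G) (x : G ⧸ N) :
    σ • x = x ↔ σ ∈ N := by
  obtain ⟨y, rfl⟩ := QuotientGroup.mk_surjective x
  rw [MulAction.Quotient.smul_mk, smul_eq_mul, eq_comm, QuotientGroup.eq, ← mul_assoc]
  exact hN.mem_comm_iff.trans (by rw [← mul_assoc, mul_inv_cancel, one_mul]) |>.trans Iff.rfl

theorem perm_mem_NhDisc {G : Type} [Group G] (N : Subgroup G) [N.Normal] {σ : G} (h : σ ∈ N) :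
    perm N σ = N.index :=
  Nat.card_congr (Equiv.subtypeUnivEquiv fun x => (fix_NhDisc N σ x).2 h)

theorem perm_not_NhDisc {G : Type} [Group G] (N : Subgroup G) [N.Normal] {σ : G} (h : σ ∉ N) :
    perm N σ = 0 := by
  have : IsEmpty {x : G ⧸ N // σ • x = x} := ⟨fun x => h ((fix_NhDisc N σ x.1).1 x.2)⟩
  exact Nat.card_of_isEmpty

theorem index_NhDisc (p : ℕ) [Fact p.Prime] : (Gz p).index = p - 1 := by
  rw [Gz, Subgroup.index_ker, MonoidHom.range_eq_top.2 (cyc_surj p), Subgroup.card_top,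
    Nat.card_eq_fintype_card, ZMod.card_units]

theorem gzP (p : ℕ) [Fact p.Prime] (hD : DiscP) (hC : CountP) : GzP p := by
  have hp : p.Prime := Fact.out
  have hn : (Gz p).Normal := MonoidHom.normal_ker _
  have h1 : Ad0 p {p} (Gz p) :=
    { pri := fun l hl => by rwa [mem_singleton.1 hl]
      nrm := hn
      nhds := cyc_nhds p
      idx := by
        rw [index_NhDisc]
        have := hp.two_le
        omega
      unr := fun P _ hP g hg => cyc_inertia (hP p (mem_singleton_self p)) hg }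
  have h3 : ∀ (l : ℕ) (σ : GQ), l.Prime → l ≠ p → Fr l σ → (σ ∈ Gz p ↔ l ≡ 1 [MOD p]) := by
    rintro l σ hl hlp ⟨P, hP, hlP, hσ⟩
    have h := cyc_frob (not_mem_of_coprime hlP ((Nat.coprime_primes hl hp).2 hlp)) hσ
    rw [Gz, MonoidHom.mem_ker, Units.ext_iff, h, Units.val_one, ← ZMod.natCast_eq_natCast_iff,
      Nat.cast_one]
  have h4 : ∀ l : ℕ, l.Prime → ∃ σ, Fr l σ := by
    intro l hl
    obtain ⟨P, hP1, hP2⟩ := exists_maximal_mem (Ω := Qa) hl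
    obtain ⟨σ, hσ⟩ := exists_frob P hl hP2
    exact ⟨σ, P, hP1, hP2, hσ⟩
  refine ⟨h1, fun g => ?_, h3, h4, fun n n' R R' N N' => inf_NhDisc, fun σ => ?_, ?_⟩
  · rw [Gz, MonoidHom.mem_ker, map_pow, ← ZMod.card_units p, pow_card_eq_one]
  · split_ifs with h
    · rw [perm_mem_NhDisc _ (show σ ∈ Gz p from h), index_NhDisc]
    · exact perm_not_NhDisc _ (show σ ∉ Gz p from h)
  · obtain ⟨F, i, hF⟩ := (hC p {p} _ h1).1 (Gz p) le_rfl
    obtain ⟨C, -, hD⟩ := hD p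
    refine ⟨F, i, hF, (hD _ _ h1 F hF.ge).1, fun l hl hlp => ?_⟩
    obtain ⟨σ, hσ⟩ := h4 l hl
    rw [(hC p {p} _ h1).2 F hF.ge l hl (by simpa using hlp) σ hσ, hF, fq]
    by_cases h : l ≡ 1 [MOD p]
    · rw [perm_mem_NhDisc _ ((h3 l σ hl hlp hσ).2 h), index_NhDisc, if_pos ⟨hl, Or.inl h⟩,
        Nat.cast_sub hp.one_le, Nat.cast_one]
    · rw [perm_not_NhDisc _ (mt (h3 l σ hl hlp hσ).1 h), if_neg, Nat.cast_zero]
      exact fun h' => h'.2.elim h hlp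

end Pool.Agent.MP_f68ac8_nt.Nd

end

section

namespace Pool.Agent.MP_f68ac8_nt.Nd

open NumberField Finset Filter
open MP_d64882_nt (cnt)
open Zv (Ex Prob)
open scoped Topology BigOperators commutatorElement

theorem log_NhBil1 (hM : MertStmt) {s : ℝ} (h1 : 1 < s) (h2 : s ≤ 2) (T : Finset ℕ)
    (hT : ∀ l ∈ T, l.Prime) : ∑ l ∈ T, (l : ℝ) ^ (-s) ≤ Real.log (2 / (s - 1)) := by
  have hu : 0 < s - 1 := by linarith
  have h := hM.2 (s - 1) T hu hT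
  rw [add_sub_cancel] at h
  refine h.trans (Real.log_le_log (by positivity) ?_)
  rw [le_div_iff₀ hu, add_mul, one_div, inv_mul_cancel₀ hu.ne']
  linarith

theorem sum_NhBil1 (hM : MertStmt) {s : ℝ} (h1 : 1 < s) (h2 : s ≤ 2) (T : Finset ℕ)
    (hT : ∀ l ∈ T, l.Prime) : ∑ l ∈ T, (l : ℝ) ^ (-s) ≤ 2 / (s - 1) :=
  (log_NhBil1 hM h1 h2 T hT).trans (Real.log_le_self (div_nonneg zero_le_two (by linarith)))

theorem tsum_NhBil1 (hM : MertStmt) {s : ℝ} (h1 : 1 < s) (h2 : s ≤ 2) :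
    ∑' l, ‖pw s l‖ ≤ Real.log (2 / (s - 1)) := by
  refine Real.tsum_le_of_sum_le (fun _ => norm_nonneg _) fun T => ?_
  refine le_trans (le_of_eq ?_) (log_NhBil1 hM h1 h2 (T.filter Nat.Prime)
    fun l hl => (mem_filter.1 hl).2)
  rw [sum_filter]
  refine sum_congr rfl fun l _ => ?_
  rw [pw]
  split_ifs with h
  · rw [Complex.norm_natCast_cpow_of_pos h.pos, Complex.neg_re, Complex.ofReal_re]
  · exact norm_zero

theorem pair_NhBil1 (a b : ℕ) : ∑ l ∈ ({a, b} : Finset ℕ), Real.log l ≤ Real.log a + Real.log b := by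
  by_cases h : a = b
  · rw [h, pair_eq_singleton, sum_singleton]
    linarith [Real.log_natCast_nonneg b]
  · rw [sum_pair h]

theorem sz_NhBil1 (p m m' : ℕ) {x : ℝ} (hx : 1 ≤ x) (h : Real.log m ≤ 2 * x)
    (h' : Real.log m' ≤ 2 * x) : sz ({p, m} ∪ {p, m'}) ≤ (5 + 2 * Real.log p) * x := by
  have h1 := sum_union_inter (s₁ := ({p, m} : Finset ℕ)) (s₂ := {p, m'})
    (f := fun l : ℕ => Real.log l)
  have h2 : 0 ≤ ∑ l ∈ ({p, m} : Finset ℕ) ∩ {p, m'}, Real.log l :=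
    sum_nonneg fun l _ => Real.log_natCast_nonneg l
  have h3 := pair_NhBil1 p m
  have h4 := pair_NhBil1 p m'
  have h5 := mul_le_mul_of_nonneg_left hx (Real.log_natCast_nonneg p)
  rw [sz]
  linarith

theorem root_NhBil1 {X Λ w T : ℝ} {K e : ℕ} (hK : 1 ≤ K) (hΛ : 1 ≤ Λ) (hw : 0 ≤ w)
    (hT : T ≤ 4 * Λ ^ e * w ^ (2 * K)) (h : X ^ (2 * K) ≤ Λ ^ (2 * K - 2) * Λ ^ K * T) :
    X ≤ 4 * Λ ^ (e + 2) * w := by
  refine le_of_pow_le_pow_left₀ (n := 2 * K) (by omega) (by positivity) (h.trans ?_)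
  have h1 : Λ ^ (2 * K - 2) * Λ ^ K * Λ ^ e ≤ (Λ ^ (e + 2)) ^ (2 * K) := by
    rw [← pow_add, ← pow_add, ← pow_mul]
    refine pow_le_pow_right₀ hΛ ?_
    have : e ≤ e * K := Nat.le_mul_of_pos_right e hK
    have h2 : (e + 2) * (2 * K) = 2 * (e * K) + 4 * K := by ring
    omega
  have h2 : (4 : ℝ) ≤ 4 ^ (2 * K) := le_self_pow₀ (by norm_num) (by omega)
  calc _ ≤ Λ ^ (2 * K - 2) * Λ ^ K * (4 * Λ ^ e * w ^ (2 * K)) :=
        mul_le_mul_of_nonneg_left hT (by positivity)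
    _ = 4 * (Λ ^ (2 * K - 2) * Λ ^ K * Λ ^ e) * w ^ (2 * K) := by ring
    _ ≤ 4 ^ (2 * K) * (Λ ^ (e + 2)) ^ (2 * K) * w ^ (2 * K) := by gcongr
    _ = _ := by rw [mul_pow, mul_pow]

section
variable {p : ℕ} [Fact p.Prime]

/-- the values of the characters -/
noncomputable def ga_NhBil1 (Ψ : ℕ → GQ → ZMod p) (σ : ℕ → GQ) (t : (ZMod p)ˣ → GQ) (m l : ℕ)
    (j : (ZMod p)ˣ × (ZMod p)ˣ) : ℂ :=
  if l ≡ 1 [MOD p] then ZMod.stdAddChar ((j.1 : ZMod p) * Ψ m (t j.2 * σ l * (t j.2)⁻¹)) else 0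

theorem ga_le_NhBil1 (Ψ : ℕ → GQ → ZMod p) (σ : ℕ → GQ) (t : (ZMod p)ˣ → GQ) (m l : ℕ)
    (j : (ZMod p)ˣ × (ZMod p)ˣ) : ‖ga_NhBil1 Ψ σ t m l j‖ ≤ 1 := by
  rw [ga_NhBil1]
  split_ifs
  · exact (AddChar.norm_apply _ _).le
  · rw [norm_zero]
    exact zero_le_one

theorem ga_sum_NhBil1 (Ψ : ℕ → GQ → ZMod p) (σ : ℕ → GQ) (t : (ZMod p)ˣ → GQ) (m m' l : ℕ) :
    ∑ j, ga_NhBil1 Ψ σ t m l j * (starRingEnd ℂ) (ga_NhBil1 Ψ σ t m' l j) =
      cP (fun g => Ψ m g - Ψ m' g) σ t l := by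
  simp only [ga_NhBil1, cP]
  split_ifs
  · refine sum_congr rfl fun j _ => ?_
    rw [← AddChar.map_neg_eq_conj, ← AddChar.map_add_eq_mul, mul_sub, sub_eq_add_neg]
  · simp only [zero_mul, sum_const_zero]

theorem card_NhBil1 : Fintype.card ((ZMod p)ˣ × (ZMod p)ˣ) ≤ p ^ 2 := by
  have h : Fintype.card (ZMod p)ˣ ≤ p :=
    (Fintype.card_le_of_injective _ Units.val_injective).trans_eq (ZMod.card p)
  rw [Fintype.card_prod, sq]
  exact Nat.mul_le_mul h h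

theorem main_NhBil1 (hM : MertStmt) (hS : PsdP) (hH : HolP) {s h L : ℝ} {k K : ℕ}
    (A B : Finset ℕ) (a b : ℕ → ℂ) (γ : ℕ → ℕ → (ZMod p)ˣ × (ZMod p)ˣ → ℂ) (hγ : ∀ m l j, ‖γ m l j‖ ≤ 1)
    (h1 : 1 < s) (h2 : s ≤ 2) (hh : 0 < h) (hL : 1 ≤ L) (hK : 1 ≤ K)
    (hA : ∀ l ∈ A, l.Prime ∧ L ≤ l ∧ ‖a l‖ ≤ (l : ℝ) ^ (-s))
    (hB : ∀ m ∈ B, m.Prime ∧ L ≤ m ∧ ‖b m‖ ≤ (m : ℝ) ^ (-s))
    (hO : ∀ m ∈ B, ∀ m' ∈ B, m ≠ m' → ‖(fwdDiff (h : ℂ))^[k + 1] (fun z => Complex.exp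
      (∑' l, (∑ j, γ m l j * (starRingEnd ℂ) (γ m' l j)) * pw z l)) s‖ ≤ Real.exp (-Real.log L))
    (k1 : 1 / 2 ≤ (1 - Real.exp (-(K * h * Real.log L))) ^ (k + 1))
    (k2 : K.factorial * Real.exp (-Real.log L) ≤ Real.exp (-√(Real.log L)) ^ (2 * K)) :
    ‖∑ l ∈ A, ∑ m ∈ B, a l * b m * γ m l (1, 1)‖ ≤
      4 * (2 / (s - 1)) ^ (p ^ 2 + 2 + 2) * Real.exp (-√(Real.log L)) := by
  set Λ := 2 / (s - 1) with hΛ
  have hu : 0 < s - 1 := by linarith
  have hL0 : 0 < L := by linarith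
  have hΛ1 : 1 ≤ Λ := by
    rw [hΛ, le_div_iff₀ hu]
    linarith
  set E := Real.exp (-Real.log L) with hE
  have hE0 : 0 < E := Real.exp_pos _
  have hEL : E = L⁻¹ := by rw [hE, Real.exp_neg, Real.exp_log hL0]
  let A' : Finset (ℕ × ((ZMod p)ˣ × (ZMod p)ˣ)) := A ×ˢ {(1, 1)}
  have hA' : ∀ x ∈ A', x.1 ∈ A := fun x hx => (mem_product.1 hx).1
  have sb : ∑ m ∈ B, ‖b m‖ ≤ Λ :=
    (sum_le_sum fun m hm => (hB m hm).2.2).trans (sum_NhBil1 hM h1 h2 B fun m hm => (hB m hm).1)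
  have sb0 : 0 ≤ ∑ m ∈ B, ‖b m‖ := sum_nonneg fun _ _ => norm_nonneg _
  have sa : ∑ x ∈ A', (x.1 : ℝ) ^ (-s) ≤ Λ := by
    rw [sum_product]
    simp only [sum_singleton]
    exact sum_NhBil1 hM h1 h2 A fun l hl => (hA l hl).1
  have sa0 : 0 ≤ ∑ x ∈ A', (x.1 : ℝ) ^ (-s) := sum_nonneg fun _ _ => by positivity
  have bL : ∀ m ∈ B, ‖b m‖ ≤ E := fun m hm => by
    obtain ⟨-, u, v⟩ := hB m hm
    calc ‖b m‖ ≤ (m : ℝ) ^ (-s) := v
      _ ≤ (m : ℝ) ^ (-1 : ℝ) := Real.rpow_le_rpow_of_exponent_le (hL.trans u) (by linarith)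
      _ = (m : ℝ)⁻¹ := Real.rpow_neg_one _
      _ ≤ E := by rw [hEL]; exact inv_anti₀ hL0 u
  have ex : Real.exp (Fintype.card ((ZMod p)ˣ × (ZMod p)ˣ) * ∑' l, ‖pw s l‖) ≤ Λ ^ p ^ 2 := by
    have c1 : (Fintype.card ((ZMod p)ˣ × (ZMod p)ˣ) : ℝ) ≤ (p ^ 2 : ℕ) := Nat.cast_le.2 card_NhBil1
    calc _ ≤ Real.exp ((p ^ 2 : ℕ) * Real.log Λ) := Real.exp_le_exp.2 (mul_le_mul c1
          (tsum_NhBil1 hM h1 h2) (tsum_nonneg fun _ => norm_nonneg _) (Nat.cast_nonneg _))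
      _ = _ := by rw [Real.exp_nat_mul, Real.exp_log (by linarith)]
  have H := hH _ A' B (fun x => a x.1) (fun x => (x.1 : ℝ) ^ (-s)) b (fun m x => γ m x.1 x.2) K
    (4 * Λ ^ (p ^ 2 + 2) * Real.exp (-√(Real.log L)) ^ (2 * K)) hK
    (fun x hx => (hA _ (hA' x hx)).2.2) fun b' hb' => by
      have P := hS _ B γ b' s h L E k K A' hγ h1 hh hL hE0.le
        (fun x hx => ⟨(hA _ (hA' x hx)).1, (hA _ (hA' x hx)).2.1⟩) hO
      rw [Real.rpow_def_of_pos hL0, show Real.log L * -(K * h) = -(K * h * Real.log L) by ring] at P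
      have s1 : ∑ m ∈ B, ‖b' m‖ ≤ Λ := (sum_le_sum fun m _ => hb' m).trans sb
      have s0 : 0 ≤ ∑ m ∈ B, ‖b' m‖ := sum_nonneg fun _ _ => norm_nonneg _
      have s2 : ∑ m ∈ B, ‖b' m‖ ^ 2 ≤ Λ * E := by
        refine le_trans (sum_le_sum fun m hm => ?_) ((sum_mul _ _ _).ge.trans
          (mul_le_mul_of_nonneg_right s1 hE0.le))
        rw [sq]
        exact mul_le_mul_of_nonneg_left ((hb' m).trans (bL m hm)) (norm_nonneg _)
      have s3 : Λ * Λ ^ p ^ 2 ≤ Λ ^ (p ^ 2 + 2) := by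
        rw [← pow_succ']
        exact pow_le_pow_right₀ hΛ1 (by omega)
      have s4 : Λ ^ 2 ≤ Λ ^ (p ^ 2 + 2) := pow_le_pow_right₀ hΛ1 (by omega)
      have s5 : (∑ m ∈ B, ‖b' m‖ ^ 2) *
          Real.exp (Fintype.card ((ZMod p)ˣ × (ZMod p)ˣ) * ∑' l, ‖pw s l‖) +
            (∑ m ∈ B, ‖b' m‖) ^ 2 * E ≤ 2 * Λ ^ (p ^ 2 + 2) * E :=
        calc _ ≤ Λ * E * Λ ^ p ^ 2 + Λ ^ 2 * E := by gcongr
          _ = (Λ * Λ ^ p ^ 2 + Λ ^ 2) * E := by ring
          _ ≤ _ := mul_le_mul_of_nonneg_right (by linarith) hE0.le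
      have s6 := P.trans (mul_le_mul_of_nonneg_left s5 (Nat.cast_nonneg _))
      have s7 := (mul_le_mul_of_nonneg_right k1 (sum_nonneg fun _ _ => mul_nonneg
        (prod_nonneg fun _ _ => Real.rpow_nonneg (Nat.cast_nonneg _) _) (sq_nonneg _))).trans s6
      have s8 := mul_le_mul_of_nonneg_left k2 (show 0 ≤ Λ ^ (p ^ 2 + 2) by positivity)
      linarith
  rw [sum_product] at H
  simp only [sum_singleton] at H
  refine root_NhBil1 hK hΛ1 (Real.exp_pos _).le le_rfl (H.trans ?_)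
  gcongr

end

theorem bil1P (p : ℕ) [Fact p.Prime] (hP : PsumStmt) (hM : MertStmt) (hZ : GzP p) (hO : OffP p)
    (hS : PsdP) (hH : HolP) (hN : NumP) : Bil1P p := by
  classical
  intro n
  obtain ⟨r, C, hr, hr1, hC, hO⟩ := hO (n * n)
  have hlp := Real.log_natCast_nonneg p
  obtain ⟨x₀, hN⟩ := hN (C * (5 + 2 * Real.log p)) r (by positivity) hr
  refine ⟨r, 4 * 2 ^ (p ^ 2 + 2 + 2) * Real.exp √(max x₀ 1), p ^ 2 + 2 + 2, hr, hr1, by positivity,
    fun s L A B a b σ N Ψ h1 h2 hL hA hB hne => ?_⟩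
  have h2' : s ≤ 2 := by linarith
  have hu : 0 < s - 1 := by linarith
  have hL0 : 0 < L := by linarith
  have hΛ1 : 1 ≤ 2 / (s - 1) := by
    rw [le_div_iff₀ hu]
    linarith
  have e : 4 * 2 ^ (p ^ 2 + 2 + 2) * Real.exp √(max x₀ 1) / (s - 1) ^ (p ^ 2 + 2 + 2) *
      Real.exp (-√(Real.log L)) = 4 * (2 / (s - 1)) ^ (p ^ 2 + 2 + 2) *
        (Real.exp √(max x₀ 1) * Real.exp (-√(Real.log L))) := by
    rw [div_pow]
    ring
  rw [e]
  rcases le_total (Real.log L) (max x₀ 1) with hx | hx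
  · have t1 : 1 ≤ Real.exp √(max x₀ 1) * Real.exp (-√(Real.log L)) := by
      rw [← Real.exp_add]
      exact Real.one_le_exp (by linarith [Real.sqrt_le_sqrt hx])
    have t2 : (2 / (s - 1)) ^ 2 ≤ (2 / (s - 1)) ^ (p ^ 2 + 2 + 2) :=
      pow_le_pow_right₀ hΛ1 (by omega)
    have t3 : ‖∑ l ∈ A, ∑ m ∈ B, a l * b m * ZMod.stdAddChar (Ψ m (σ l))‖ ≤
        (∑ l ∈ A, (l : ℝ) ^ (-s)) * ∑ m ∈ B, (m : ℝ) ^ (-s) := by
      rw [sum_mul_sum]
      refine (norm_sum_le _ _).trans (sum_le_sum fun l hl => (norm_sum_le _ _).trans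
        (sum_le_sum fun m hm => ?_))
      rw [norm_mul, norm_mul, AddChar.norm_apply, mul_one]
      exact mul_le_mul (hA l hl).2.2.2.2 (hB m hm).2.2.2.1 (norm_nonneg _) (by positivity)
    have t4 := mul_le_mul (sum_NhBil1 hM h1 h2' A fun l hl => (hA l hl).1)
      (sum_NhBil1 hM h1 h2' B fun m hm => (hB m hm).1) (sum_nonneg fun _ _ => by positivity)
      (by linarith)
    have t5 : 0 ≤ (2 / (s - 1)) ^ (p ^ 2 + 2 + 2) := by positivity
    have t6 := mul_le_mul_of_nonneg_left t1 t5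
    rw [← sq] at t4
    linarith
  obtain ⟨k, K, hK, k0, k1, k2⟩ := hN (Real.log L) ((le_max_left _ _).trans hx)
  have hx1 : 1 ≤ Real.log L := (le_max_right _ _).trans hx
  choose t₀ ht₀ using cyc_surj (Ω := Qa) p
  let t : (ZMod p)ˣ → GQ := fun j => if j = 1 then 1 else t₀ j
  have ht : ∀ j, cyc (Ω := Qa) p (t j) = j := fun j => by
    by_cases hj : j = 1
    · simp only [t, hj, if_true, map_one]
    · simp only [t, if_neg hj, ht₀]
  have ht1 : t 1 = 1 := if_pos rfl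
  choose! τ hτ using hZ.2.2.2.1
  let σ' : ℕ → GQ := fun l => if l ∈ A then σ l else τ l
  have hσ' : ∀ l : ℕ, l.Prime → l ≡ 1 [MOD p] → Fr l (σ' l) := fun l hl _ => by
    by_cases h : l ∈ A
    · simp only [σ', if_pos h]
      exact (hA l h).2.2.1
    · simp only [σ', if_neg h]
      exact hτ l hl
  have lg : ∀ m ∈ B, Real.log m ≤ 2 * Real.log L := fun m hm => by
    have := Real.log_le_log (Nat.cast_pos.2 (hB m hm).1.pos) (hB m hm).2.2.1.le
    rwa [Real.log_pow, Nat.cast_ofNat] at this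
  have M := main_NhBil1 hM hS hH (s := s) (h := r / (k + 1)) (L := L) (k := k) (K := K) A B a b
    (ga_NhBil1 Ψ σ' t) (ga_le_NhBil1 Ψ σ' t) h1 h2' (by positivity) (by linarith) hK
    (fun l hl => ⟨(hA l hl).1, (hA l hl).2.2.2⟩)
    (fun m hm => ⟨(hB m hm).1, (hB m hm).2.1, (hB m hm).2.2.2.1⟩) (fun m hm m' hm' hmm => by
      obtain ⟨-, -, -, -, a1, z1⟩ := hB m hm
      obtain ⟨-, -, -, -, a2, z2⟩ := hB m' hm'
      obtain ⟨g, hg, hg'⟩ := hne m hm m' hm' hmm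
      simp only [ga_sum_NhBil1]
      refine (hO _ _ (hZ.2.2.2.2.1 _ _ _ _ _ _ a1 a2) (mem_union_left _ (mem_insert_self _ _))
        (fun g => Ψ m g - Ψ m' g) ⟨inf_le_left.trans z1.le, fun g hg g' hg' => ?_, fun g hg => ?_⟩
        ⟨g, hg, sub_ne_zero.2 hg'⟩ σ' t hσ' ht k s h1 h2).trans (le_trans ?_ k0)
      · rw [z1.add g hg g' hg', z2.add g hg g' hg']
        ring
      · rw [z1.ker g hg.1, z2.ker g hg.2, sub_self]
      · refine div_le_div_of_nonneg_right (Real.exp_le_exp.2 ?_) (by positivity)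
        rw [mul_assoc]
        exact mul_le_mul_of_nonneg_left (sz_NhBil1 p m m' hx1 (lg m hm) (lg m' hm')) hC.le) k1 k2
  have e2 : ∑ l ∈ A, ∑ m ∈ B, a l * b m * ZMod.stdAddChar (Ψ m (σ l)) =
      ∑ l ∈ A, ∑ m ∈ B, a l * b m * ga_NhBil1 Ψ σ' t m l (1, 1) :=
    sum_congr rfl fun l hl => sum_congr rfl fun m _ => by
      simp only [ga_NhBil1, if_pos (hA l hl).2.1, ht1, σ', if_pos hl, Units.val_one, one_mul,
        inv_one, mul_one]
  rw [e2]
  refine M.trans (mul_le_mul_of_nonneg_left ?_ (by positivity))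
  exact le_mul_of_one_le_left (Real.exp_pos _).le (Real.one_le_exp (Real.sqrt_nonneg _))

end Pool.Agent.MP_f68ac8_nt.Nd

end

section

namespace Pool.Agent.MP_f68ac8_nt.Nd

open NumberField Finset Filter
open MP_d64882_nt (cnt)
open Zv (Ex Prob)
open scoped Topology BigOperators commutatorElement

theorem dichP (hP : PsumStmt) (hO : OneStmt) (hD : DiscP) (hC : CountP) : DichP := by
  intro n θ c' hθ hθ2 hc'
  obtain ⟨Cd, hCd, hD'⟩ := hD n
  obtain ⟨c₀, C₀, hc₀, hC₀, hO'⟩ := hO n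
  obtain ⟨κ, hκ0, hκ1, hκ2⟩ : ∃ κ : ℝ, 0 < κ ∧ 3 * κ ≤ θ ∧ κ ≤ 1 :=
    ⟨θ / 3, by positivity, by linarith, by linarith⟩
  obtain ⟨a, ha, ha1, ha2, ha3, ha4, ha5⟩ : ∃ a : ℝ, 0 < a ∧ a ≤ c₀ ∧ C₀ * a ≤ 1 ∧
      (n : ℝ) * a ≤ 1 ∧ a ≤ 1 ∧ a ≤ c' := by
    have hn : (0 : ℝ) ≤ (n : ℝ) := Nat.cast_nonneg _
    refine ⟨min (min c₀ C₀⁻¹) (min ((n : ℝ) + 1)⁻¹ c'), by positivity,
      (min_le_left _ _).trans (min_le_left _ _), ?_, ?_, ?_,
      (min_le_right _ _).trans (min_le_right _ _)⟩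
    · rw [← le_div_iff₀' hC₀, one_div]
      exact (min_le_left _ _).trans (min_le_right _ _)
    · refine (mul_le_mul_of_nonneg_left ((min_le_right _ _).trans (min_le_left _ _)) hn).trans ?_
      rw [← div_eq_mul_inv, div_le_one (by linarith)]
      linarith
    · exact ((min_le_right _ _).trans (min_le_left _ _)).trans (inv_le_one_of_one_le₀ (by linarith))
  have hq0 : 0 < κ ^ 2 := by positivity
  have hq1 : κ ^ 2 ≤ 1 := pow_le_one₀ hκ0.le hκ2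
  have hq2 : (κ ^ 2) ^ (2 ^ n + 1) ≤ 1 := pow_le_one₀ hq0.le hq1
  have hCd2 : 1 ≤ Cd ^ 2 := one_le_pow₀ hCd
  refine ⟨a * (κ ^ 2) ^ (2 ^ n + 1) / Cd ^ 2, by positivity, ?_, ?_⟩
  · exact (div_le_self (by positivity) hCd2).trans
      ((mul_le_of_le_one_right ha.le hq2).trans ha5)
  intro R N hA M hsz
  have hM : 1 ≤ M := (one_le_sz_NbRep R).trans hsz
  obtain ⟨M', hM'⟩ : ∃ M', M' = Cd * M := ⟨_, rfl⟩
  have hM1 : M ≤ M' := by rw [hM']; nlinarith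
  have hM2 : 1 ≤ M' := by linarith
  have hM3 : M' ≤ M' ^ 2 := by nlinarith
  have hM4 : 0 < M' ^ 2 := by positivity
  obtain ⟨l₀, hl₀⟩ : ∃ l₀, l₀ = a / M' ^ 2 := ⟨_, rfl⟩
  have hl1 : 0 < l₀ := by rw [hl₀]; positivity
  have hl2 : l₀ * M' ^ 2 = a := by rw [hl₀]; field_simp
  have hl3 : l₀ ≤ a := by nlinarith
  have hl4 : l₀ ≤ c' / M ^ 2 := by
    rw [hl₀]
    exact div_le_div₀ hc'.le ha5 (by positivity) (pow_le_pow_left₀ (by linarith) hM1 2)
  have hρ1 : a * (κ ^ 2) ^ (2 ^ n + 1) / Cd ^ 2 / M ^ 2 = l₀ * (κ ^ 2) ^ (2 ^ n + 1) := by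
    rw [hl₀, hM']
    field_simp
  have hρ2 : l₀ * (κ ^ 2) ^ (2 ^ n + 1) ≤ c₀ / M' := by
    rw [le_div_iff₀ (by linarith)]
    have h4 : l₀ * (κ ^ 2) ^ (2 ^ n + 1) ≤ l₀ := mul_le_of_le_one_right hl1.le hq2
    have h5 := mul_le_mul h4 hM3 (by linarith) hl1.le
    linarith
  have key : ∀ H, N ≤ H → ∃ z : ℂ, z.re ≤ 1 ∧
      ∀ (E : IntermediateField ℚ Qa) [NumberField E], E.fixingSubgroup = H →
        (z = 0 ∨ FE E z = 0) ∧ (∀ s : ℂ, ‖s - 1‖ ≤ c₀ / M' → FE E s = 0 → s = z) ∧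
        ∀ σ : ℝ, 1 < σ → σ ≤ 1 + c₀ →
          ‖(σ - 1) * P1 E σ - 1 + (σ - 1) / (σ - z)‖ ≤ C₀ * (σ - 1) * M' ^ 2 := by
    intro H hH
    obtain ⟨E₀, i₀, hE₀⟩ := (hC _ R N hA).1 H hH
    obtain ⟨h3, h4⟩ := hD' R N hA E₀ (hE₀ ▸ hH)
    obtain ⟨z, hz1, hz2⟩ := hO' E₀ h3 M' hM2
      (h4.trans (by rw [hM']; exact mul_le_mul_of_nonneg_left hsz (by linarith)))
    refine ⟨z, hz1, fun E _ hE => ?_⟩
    obtain rfl : E = E₀ := fix_inj_NbRep (hE.trans hE₀.symm)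
    exact hz2
  choose! z hz1 hz2 using key
  have hfr : ∀ l : ℕ, ∃ σ : GQ, l.Prime → Fr l σ := by
    intro l
    by_cases hl : l.Prime
    · obtain ⟨P, hP1, hP2⟩ := exists_maximal_mem (Ω := Qa) hl
      obtain ⟨σ, hσ⟩ := exists_frob P hl hP2
      exact ⟨σ, fun _ => ⟨P, hP1, hP2, hσ⟩⟩
    · exact ⟨1, fun h => absurd h hl⟩
  choose σ hσ using hfr
  have := hA.nrm
  obtain ⟨j, hj, hgap⟩ := gap_NbRep N hA.idx.1 hA.idx.2 (fun H => ‖1 - z H‖) hl1 hq0 hq1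
  obtain ⟨t, ht⟩ : ∃ t : ℝ, t = l₀ * (κ ^ 2) ^ j := ⟨_, rfl⟩
  have ht0 : 0 < t := by rw [ht]; positivity
  have ht1 : t ≤ l₀ := by
    rw [ht]
    exact mul_le_of_le_one_right hl1.le (pow_le_one₀ hq0.le hq1)
  have ht2 : l₀ * (κ ^ 2) ^ (j + 1) = κ * (κ * t) := by rw [ht]; ring
  have ht3 : t * M' ^ 2 ≤ a := hl2 ▸ mul_le_mul_of_nonneg_right ht1 hM4.le
  have hk0 : 0 < κ * t := by positivity
  have hk1 : κ * t ≤ t := mul_le_of_le_one_left ht0.le hκ2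
  have hest : ∀ H, N ≤ H →
      (‖1 - z H‖ ≤ κ * (κ * t) → Sw σ (w_NbRep R (κ * t) (1 + κ * t)) H ≤ 3 * κ) ∧
      (κ * t ≤ κ * ‖1 - z H‖ → |Sw σ (w_NbRep R (κ * t) (1 + κ * t)) H - 1| ≤ 3 * κ) := by
    intro H hH
    obtain ⟨E, i, hE⟩ := (hC _ R N hA).1 H hH
    obtain ⟨h3, -⟩ := hD' R N hA E (hE ▸ hH)
    obtain ⟨P, hP1, hP2⟩ := cmp_NbRep hP E h3 R (lam := κ * t) (σ := 1 + κ * t) hk0.le
      (by linarith) (fun l => perm H (σ l))
      (fun l hl hR => hE ▸ (hC _ R N hA).2 E (hE ▸ hH) l hl hR _ (hσ l hl))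
    have h4 := (hz2 H hH E hE).2.2 (1 + κ * t) (by linarith) (by linarith)
    rw [hP1] at h4
    refine est_NbRep (P := P) hk0 hκ0.le (hz1 H hH) ?_ (hP2.trans ?_)
    · have e1 : ((1 + κ * t : ℝ) : ℂ) - 1 = ((κ * t : ℝ) : ℂ) := by push_cast; ring
      have e2 : ((1 + κ * t : ℝ) : ℂ) - z H = ((κ * t : ℝ) : ℂ) + (1 - z H) := by
        push_cast; ring
      rw [e1, e2] at h4
      refine h4.trans ?_
      have h5 := (mul_le_mul_of_nonneg_left ht3 hC₀.le).trans ha2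
      have h6 := mul_le_mul_of_nonneg_left h5 hκ0.le
      linarith
    · have hn : (0 : ℝ) ≤ (n : ℝ) := Nat.cast_nonneg _
      have h5 : t * sz R ≤ a :=
        (mul_le_mul_of_nonneg_left (by linarith) ht0.le).trans ht3
      have h6 := (mul_le_mul_of_nonneg_left h5 hn).trans ha3
      have h7 := mul_le_mul_of_nonneg_left h6 hκ0.le
      linarith
  have hbig : ∀ H, N ≤ H → t ≤ ‖1 - z H‖ → |Sw σ (w_NbRep R (κ * t) (1 + κ * t)) H - 1| ≤ θ :=
    fun H hH h => ((hest H hH).2 (mul_le_mul_of_nonneg_left h hκ0.le)).trans hκ1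
  refine ⟨σ, w_NbRep R (κ * t) (1 + κ * t), w_nonneg_NbRep R _ hk0.le,
    w_summable_NbRep hP R hk0.le (by linarith), fun H hH => ?_, fun E _ hE => ⟨?_, ?_⟩⟩
  · exact (hgap H hH).imp (fun h => ((hest H hH).1 (ht2 ▸ h)).trans hκ1)
      fun h => hbig H hH (ht ▸ h)
  · intro hn
    unfold Good at hn
    push Not at hn
    obtain ⟨s, hs1, hs2⟩ := hn
    rw [hρ1] at hs1
    refine ((hest _ hE).1 ?_).trans hκ1
    rw [← (hz2 _ hE E rfl).2.1 s (hs1.trans hρ2) hs2, norm_sub_rev, ← ht2]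
    refine hs1.trans (mul_le_mul_of_nonneg_left ?_ hl1.le)
    exact pow_le_pow_of_le_one hq0.le hq1 (by omega)
  · intro hS hG
    have h1 : ‖1 - z E.fixingSubgroup‖ < t := by
      by_contra h
      have := abs_le.1 (hbig _ hE (not_lt.1 h))
      linarith [this.1]
    rcases (hz2 _ hE E rfl).1 with h | h
    · rw [h, sub_zero, norm_one] at h1
      linarith
    · refine hG _ ?_ h
      rw [norm_sub_rev]
      linarith

end Pool.Agent.MP_f68ac8_nt.Nd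

end

section

namespace Pool.Agent.MP_f68ac8_nt.Nd
open NumberField Finset Filter
open MP_d64882_nt (cnt)
open Zv (Ex Prob)
open scoped Topology BigOperators commutatorElement

lemma bd_NhExp (E : Type) [Field E] [NumberField E] : 2 ≤ Bd E := by
  have h : (1 : ℤ) ≤ |discr E| := Int.one_le_abs (discr_ne_zero E)
  have h' : (1 : ℝ) ≤ |(discr E : ℝ)| := by exact_mod_cast h
  unfold Bd
  linarith

lemma abs_NhExp (A : ℝ) : ∃ k : ℕ, ∀ B : ℝ, 2 ≤ B → A ≤ B ^ k := by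
  obtain ⟨k, hk⟩ := pow_unbounded_of_one_lt A (show (1 : ℝ) < 2 by norm_num)
  exact ⟨k, fun B hB => hk.le.trans (pow_le_pow_left₀ (by norm_num) hB k)⟩

lemma fac_NhExp {t : ℝ} (h0 : 0 < t) (h1 : t ≤ 1) :
    t / 2 ≤ 1 - Real.exp (-t) ∧ 1 - Real.exp (-t) ≤ t := by
  have a := Real.add_one_le_exp (-t)
  have b := Real.add_one_le_exp t
  have c : Real.exp (-t) * Real.exp t = 1 := by rw [← Real.exp_add]; simp
  have d := Real.exp_pos (-t)
  refine ⟨?_, by linarith⟩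
  by_contra h
  have e : 1 - t / 2 < Real.exp (-t) := by linarith [not_le.1 h]
  have f : (1 - t / 2) * (t + 1) < Real.exp (-t) * (t + 1) :=
    mul_lt_mul_of_pos_right e (by linarith)
  have g : Real.exp (-t) * (t + 1) ≤ Real.exp (-t) * Real.exp t :=
    mul_le_mul_of_nonneg_left b d.le
  nlinarith

lemma nfac_NhExp {s : ℝ} (h0 : 1 < s) :
    ‖1 - Complex.exp (1 - (s : ℂ))‖ = 1 - Real.exp (-(s - 1)) := by
  have e : 1 - Complex.exp (1 - (s : ℂ)) = ((1 - Real.exp (-(s - 1)) : ℝ) : ℂ) := by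
    push_cast
    congr 2
    ring
  rw [e, Complex.norm_real, Real.norm_eq_abs, abs_of_nonneg]
  have := Real.exp_le_one_iff.2 (show -(s - 1) ≤ 0 by linarith)
  linarith

lemma ne_NhExp {s : ℂ} (h : 1 < s.re) : 1 - Complex.exp (1 - s) ≠ 0 := by
  intro e
  have h1 := congrArg norm (sub_eq_zero.1 e)
  rw [norm_one, Complex.norm_exp, eq_comm, Real.exp_eq_one_iff] at h1
  simp only [Complex.sub_re, Complex.one_re] at h1
  linarith

lemma re_NhExp {s : ℂ} {a r : ℝ} (h : s ∈ Metric.ball (a : ℂ) r) : a - r < s.re := by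
  rw [Metric.mem_ball, dist_eq_norm] at h
  have := (abs_le.1 (Complex.abs_re_le_norm (s - a))).1
  simp only [Complex.sub_re, Complex.ofReal_re] at this
  linarith

lemma near_NhExp (hC : ContStmt) (F : Type) [Field F] [NumberField F] :
    0 < ‖FE F 1‖ ∧ ∃ r : ℝ, 0 < r ∧ ∀ s ∈ Metric.ball (1 : ℂ) r,
      ‖FE F 1‖ / 2 ≤ ‖FE F s‖ ∧ ‖FE F s‖ ≤ 2 * ‖FE F 1‖ := by
  obtain ⟨C, hC⟩ := hC (dE F)
  obtain ⟨hd, -, -, h1⟩ := hC F le_rfl
  have hpos : (0 : ℝ) < dE F := by exact_mod_cast Module.finrank_pos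
  have hopen : IsOpen {s : ℂ | 1 - 1 / (dE F : ℝ) < s.re} :=
    isOpen_lt continuous_const Complex.continuous_re
  have hmem : (1 : ℂ) ∈ {s : ℂ | 1 - 1 / (dE F : ℝ) < s.re} := by
    have : 0 < 1 / (dE F : ℝ) := by positivity
    show 1 - 1 / (dE F : ℝ) < (1 : ℂ).re
    rw [Complex.one_re]
    linarith
  have hc := (hd.differentiableAt (hopen.mem_nhds hmem)).continuousAt.norm
  have h0 : 0 < ‖FE F 1‖ := norm_pos_iff.2 h1
  have := hc.eventually (Icc_mem_nhds (a := ‖FE F 1‖ / 2) (b := 2 * ‖FE F 1‖)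
    (by linarith) (by linarith))
  obtain ⟨ε, hε, hb⟩ := Metric.eventually_nhds_iff.1 this
  exact ⟨h0, ε, hε, fun s hs => hb hs⟩

theorem expP (hC : ContStmt) (hE : EulStmt) (hP : PsumStmt) : ExpP := by
  intro N
  obtain ⟨C1, c1, hE⟩ := hE N
  obtain ⟨C2, hC⟩ := hC N
  obtain ⟨hS, -⟩ := hP.1 2 (by simp)
  obtain ⟨k, hk⟩ := abs_NhExp (Real.exp (N * ∑' l, ‖pw 2 l‖) * Real.exp (C1 * (5 / 4)))
  refine ⟨k + 1 + C2, fun E _ _ hN => ?_⟩
  obtain ⟨e1, e2, R, r1, r2, r3⟩ := hE E hN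
  obtain ⟨-, f2, f3, -⟩ := hC E hN
  obtain ⟨p1, -, p3⟩ := hP.2.2 E
  have hB := bd_NhExp E
  have hk := hk _ hB
  have hb : ∀ s ∈ Metric.ball (2 : ℂ) (5 / 4), 3 / 4 < s.re := fun s hs => by
    have := re_NhExp (a := 2) (by exact_mod_cast hs)
    linarith
  obtain ⟨Φ, g0, g1⟩ := (r1.mono hb).isExactOn_ball.with_val_at 2 0
  have m2 : (2 : ℂ) ∈ Metric.ball (2 : ℂ) (5 / 4) := Metric.mem_ball_self (by norm_num)
  have g2 : ∀ s ∈ Metric.ball (2 : ℂ) (5 / 4), ‖Φ s‖ ≤ C1 * (5 / 4) := fun s hs => by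
    have := (convex_ball (2 : ℂ) (5 / 4)).norm_image_sub_le_of_norm_hasDerivWithin_le
      (fun x hx => (g1 x hx).hasDerivWithinAt) (fun x hx => r2 x (hb x hx)) m2 hs
    rw [g0, sub_zero] at this
    refine this.trans (mul_le_mul_of_nonneg_left ?_ c1.le)
    rw [← dist_eq_norm]
    exact le_of_lt hs
  have z1 : 1 ≤ ‖ZE E 2‖ := by exact_mod_cast (e2 2 (by norm_num)).1
  have z2 : ‖ZE E 2‖ ≤ 2 * Bd E ^ C2 := by
    have a := f2 2 (by
      have : (0 : ℝ) ≤ 1 / (2 * N) := by positivity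
      simp only [Complex.re_ofNat]
      linarith) (by simp)
    have b := nfac_NhExp (s := 2) (by norm_num)
    have c := (fac_NhExp (t := 2 - 1) (by norm_num) (by norm_num)).1
    rw [f3 2 (by simp), norm_mul] at a
    rw [Complex.ofReal_ofNat] at b
    rw [b] at a
    have d := (mul_le_mul_of_nonneg_right c (norm_nonneg (ZE E 2))).trans a
    clear a b c
    linarith
  have q : ‖P0 E 2‖ ≤ N * ∑' l, ‖pw 2 l‖ := by
    rw [← tsum_mul_left]
    refine tsum_of_norm_bounded (hS.mul_left _).hasSum fun l => ?_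
    rw [norm_mul, Complex.norm_natCast]
    by_cases hl : l.Prime
    · exact mul_le_mul_of_nonneg_right (by exact_mod_cast (p1 l hl).trans hN) (norm_nonneg _)
    · simp [pw, hl]
  have x1 : ∀ {z : ℂ} {A : ℝ}, ‖z‖ ≤ A → ‖Complex.exp z‖ ≤ Real.exp A ∧
      ‖(Complex.exp z)⁻¹‖ ≤ Real.exp A := fun {z A} h =>
    ⟨(Complex.norm_exp_le_exp_norm z).trans (Real.exp_le_exp.2 h), by
      rw [← Complex.exp_neg]
      exact (Complex.norm_exp_le_exp_norm _).trans (Real.exp_le_exp.2 (by rwa [norm_neg]))⟩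
  have hz : ZE E 2 ≠ 0 := (e1 2 (by simp)).1
  have b1 : 1 ≤ Bd E ^ C2 := one_le_pow₀ (by linarith)
  have b2 : Real.exp (N * ∑' l, ‖pw 2 l‖) * Real.exp (C1 * (5 / 4)) * (2 * Bd E ^ C2) ≤
      Bd E ^ (k + 1 + C2) := by
    rw [pow_add, pow_succ, mul_assoc (Bd E ^ k)]
    gcongr
  refine ⟨fun s => Complex.exp (P0 E 2) * Complex.exp (Φ s) * (ZE E 2)⁻¹, ?_,
    fun s hs => ⟨?_, ?_, ?_⟩, fun s hs h1 => ?_⟩
  · exact fun s hs => (((g1 s hs).differentiableAt.cexp.const_mul _).mul_const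
      _).differentiableWithinAt
  · exact mul_ne_zero (mul_ne_zero (Complex.exp_ne_zero _) (Complex.exp_ne_zero _)) (inv_ne_zero hz)
  · refine le_trans ?_ b2
    rw [norm_mul, norm_mul, norm_inv]
    have := (x1 q).1
    have := (x1 (g2 s hs)).1
    have : ‖ZE E 2‖⁻¹ ≤ 2 * Bd E ^ C2 := (inv_le_one_of_one_le₀ z1).trans (by linarith)
    gcongr
  · refine le_trans ?_ b2
    rw [mul_inv, mul_inv, inv_inv, norm_mul, norm_mul]
    have := (x1 q).2
    have := (x1 (g2 s hs)).2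
    gcongr
  · have hU : Convex ℝ (Metric.ball (2 : ℂ) (5 / 4) ∩ {s | 1 < s.re}) :=
      (convex_ball _ _).inter (convex_halfSpace_re_gt 1)
    have hd : ∀ x ∈ Metric.ball (2 : ℂ) (5 / 4) ∩ {s | 1 < s.re},
        HasDerivAt (fun y => Complex.exp (P0 E y - Φ y) / ZE E y) 0 x := fun x hx => by
      obtain ⟨a, b⟩ := e1 x hx.2
      refine ((((p3 x hx.2).sub (g1 x hx.1)).cexp).div b.hasDerivAt a).congr_deriv ?_
      have c := r3 x hx.2
      rw [LE, logDeriv_apply, ← neg_div, div_eq_iff a, neg_eq_iff_eq_neg] at c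
      rw [c]
      simp only [Pi.sub_apply]
      ring
    have := hU.norm_image_sub_le_of_norm_hasDerivWithin_le (C := 0)
      (fun x hx => (hd x hx).hasDerivWithinAt) (fun x _ => by simp) ⟨m2, by simp⟩ ⟨hs, h1⟩
    rw [zero_mul, norm_le_zero_iff, sub_eq_zero, g0, sub_zero, Complex.exp_sub] at this
    have a := (e1 s h1).1
    have b := Complex.exp_ne_zero (Φ s)
    field_simp at this ⊢
    linear_combination this

theorem quoP (hC : ContStmt) (hX : ExpP) : QuoP := by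
  intro F _ _ N
  obtain ⟨a0, ρ, hρ, hn⟩ := near_NhExp hC F
  obtain ⟨C2, hC⟩ := hC (max N (dE F))
  obtain ⟨C3, hX⟩ := hX (max N (dE F))
  have hpos : (0 : ℝ) < (max N (dE F) : ℕ) := by
    exact_mod_cast lt_of_lt_of_le Module.finrank_pos (le_max_right N (dE F))
  generalize hM : max N (dE F) = M at hC hX hpos
  obtain ⟨f1, -, f3, -⟩ := hC F (hM ▸ le_max_right _ _)
  obtain ⟨GF, u1, u2, u3⟩ := hX F (hM ▸ le_max_right _ _)
  obtain ⟨k, hk⟩ := abs_NhExp ((‖FE F 1‖ / 2)⁻¹ * Bd F ^ C3)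
  refine ⟨min ρ (min (1 / 8) (1 / (2 * M))), C2 + C3 + k, by positivity,
    (min_le_right _ _).trans (min_le_left _ _), fun E _ _ hN => ?_⟩
  obtain ⟨e1, e2, e3, -⟩ := hC E (hM ▸ hN.trans (le_max_left _ _))
  obtain ⟨GE, v1, v2, v3⟩ := hX E (hM ▸ hN.trans (le_max_left _ _))
  set r := min ρ (min (1 / 8) (1 / (2 * (M : ℝ)))) with hr
  have r1 : r ≤ ρ := min_le_left _ _
  have r2 : r ≤ 1 / 8 := (min_le_right _ _).trans (min_le_left _ _)
  have r3 : r ≤ 1 / (2 * (M : ℝ)) := (min_le_right _ _).trans (min_le_right _ _)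
  have r4 : 1 / (2 * (M : ℝ)) ≤ 1 / M := one_div_le_one_div_of_le hpos (by linarith)
  have s1 : Metric.ball (1 : ℂ) r ⊆ Metric.ball 2 (5 / 4) := Metric.ball_subset_ball' (by
    have : dist (1 : ℂ) 2 = 1 := by rw [dist_eq_norm]; norm_num
    linarith)
  have s2 : ∀ s ∈ Metric.ball (1 : ℂ) r, 1 - r < s.re := fun s hs =>
    re_NhExp (a := 1) (by exact_mod_cast hs)
  have s3 : Metric.ball (1 : ℂ) r ⊆ {s | 1 - 1 / (M : ℝ) < s.re} := fun s hs => by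
    have := s2 s hs
    show 1 - 1 / (M : ℝ) < s.re
    linarith
  have s4 : ∀ s ∈ Metric.ball (1 : ℂ) r, ‖FE F 1‖ / 2 ≤ ‖FE F s‖ := fun s hs =>
    (hn s (Metric.ball_subset_ball r1 hs)).1
  have s5 : ∀ s ∈ Metric.ball (1 : ℂ) r, FE F s ≠ 0 := fun s hs =>
    norm_pos_iff.1 (lt_of_lt_of_le (by linarith) (s4 s hs))
  refine ⟨fun s => FE E s * GE s * ((FE F s)⁻¹ * (GF s)⁻¹),
    ((e1.mono s3).mul (v1.mono s1)).mul (((f1.mono s3).inv s5).mul
      ((u1.mono s1).inv fun s hs => (u2 s (s1 hs)).1)), fun s hs => ⟨?_, fun h1 => ?_⟩⟩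
  · have hB := bd_NhExp E
    have a := e2 s (by linarith [s2 s hs]) (by
      have : ‖s‖ ≤ ‖s - 1‖ + ‖(1 : ℂ)‖ := norm_le_norm_sub_add s 1
      rw [norm_one, ← dist_eq_norm] at this
      linarith [Metric.mem_ball.1 hs])
    have b := (v2 s (s1 hs)).2.1
    have c := (u2 s (s1 hs)).2.2
    have d : ‖(FE F s)⁻¹‖ ≤ (‖FE F 1‖ / 2)⁻¹ := by
      rw [norm_inv]
      exact inv_anti₀ (by linarith) (s4 s hs)
    have e : ‖(FE F s)⁻¹ * (GF s)⁻¹‖ ≤ Bd E ^ k := by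
      refine le_trans ?_ (hk _ hB)
      rw [norm_mul]
      gcongr
    rw [norm_mul, norm_mul, pow_add, pow_add]
    gcongr
  · have a := ne_NhExp h1
    have b := s5 s hs
    have c := (u2 s (s1 hs)).1
    rw [f3 s h1] at b
    have d := right_ne_zero_of_mul b
    simp only []
    rw [Complex.exp_sub, v3 s (s1 hs) h1, u3 s (s1 hs) h1, e3 s h1, f3 s h1]
    field_simp

theorem logP (hC : ContStmt) (hX : ExpP) : LogP := by
  intro F _ _
  obtain ⟨a0, ρ, hρ, hn⟩ := near_NhExp hC F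
  obtain ⟨C2, hC⟩ := hC (dE F)
  obtain ⟨C3, hX⟩ := hX (dE F)
  obtain ⟨-, -, f3, -⟩ := hC F le_rfl
  obtain ⟨G, -, u2, u3⟩ := hX F le_rfl
  have hB : 0 < Bd F ^ C3 := pow_pos (by linarith [bd_NhExp F]) _
  refine ⟨min (ρ / 2) 1, |Real.log (‖FE F 1‖ / 2 * (Bd F ^ C3)⁻¹)| +
    |Real.log (4 * ‖FE F 1‖ * Bd F ^ C3)|, by positivity, fun s h1 h2 => ?_⟩
  have t1 : s - 1 ≤ ρ / 2 := by linarith [min_le_left (ρ / 2) 1]
  have t2 : s - 1 ≤ 1 := by linarith [min_le_right (ρ / 2) 1]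
  have t0 : 0 < s - 1 := by linarith
  have m1 : (s : ℂ) ∈ Metric.ball (1 : ℂ) ρ := by
    rw [Metric.mem_ball, ← Complex.ofReal_one, Complex.dist_eq, ← Complex.ofReal_sub,
      Complex.norm_real, Real.norm_eq_abs, abs_of_pos t0]
    linarith
  have m2 : (s : ℂ) ∈ Metric.ball (2 : ℂ) (5 / 4) := by
    rw [Metric.mem_ball, ← Complex.ofReal_ofNat, Complex.dist_eq, ← Complex.ofReal_sub,
      Complex.norm_real, Real.norm_eq_abs, abs_lt]
    constructor <;> linarith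
  obtain ⟨n1, n2⟩ := hn s m1
  obtain ⟨g1, g2, g3⟩ := u2 s m2
  obtain ⟨k1, k2⟩ := fac_NhExp t0 t2
  have e1 := congrArg norm (u3 s m2 (by simpa using h1))
  have e2 := congrArg norm (f3 s (by simpa using h1))
  rw [Complex.norm_exp, norm_mul] at e1
  rw [norm_mul, nfac_NhExp h1] at e2
  have g4 : (Bd F ^ C3)⁻¹ ≤ ‖G s‖ := by
    rw [norm_inv] at g3
    exact inv_le_of_inv_le₀ (norm_pos_iff.2 g1) g3
  have z0 := norm_nonneg (ZE F s)
  have w1 : ‖FE F 1‖ / 2 ≤ ‖ZE F s‖ * (s - 1) := by nlinarith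
  have w2 : ‖ZE F s‖ * (s - 1) ≤ 4 * ‖FE F 1‖ := by nlinarith
  have e3 : (P0 F s).re + Real.log (s - 1) = Real.log (‖ZE F s‖ * (s - 1) * ‖G s‖) := by
    rw [mul_right_comm, ← e1, Real.log_mul (Real.exp_pos _).ne' t0.ne', Real.log_exp]
  have l1 : Real.log (‖FE F 1‖ / 2 * (Bd F ^ C3)⁻¹) ≤ Real.log (‖ZE F s‖ * (s - 1) * ‖G s‖) :=
    Real.log_le_log (by positivity) (by gcongr)
  have l2 : Real.log (‖ZE F s‖ * (s - 1) * ‖G s‖) ≤ Real.log (4 * ‖FE F 1‖ * Bd F ^ C3) :=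
    Real.log_le_log (mul_pos (by linarith) (norm_pos_iff.2 g1)) (by gcongr)
  rw [e3, abs_le]
  constructor
  · linarith [neg_abs_le (Real.log (‖FE F 1‖ / 2 * (Bd F ^ C3)⁻¹)),
      abs_nonneg (Real.log (4 * ‖FE F 1‖ * Bd F ^ C3))]
  · linarith [le_abs_self (Real.log (4 * ‖FE F 1‖ * Bd F ^ C3)),
      abs_nonneg (Real.log (‖FE F 1‖ / 2 * (Bd F ^ C3)⁻¹))]

end Pool.Agent.MP_f68ac8_nt.Nd

end

section

namespace Pool.Agent.MP_f68ac8_nt.Nd
open NumberField Finset Filter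
open MP_d64882_nt (cnt)
open Zv (Ex Prob)
open scoped Topology BigOperators commutatorElement

theorem fq_NhGp {p : ℕ} (hp : p.Prime) (l : ℕ) : 0 ≤ fq p l ∧ fq p l ≤ p := by
  have h : (1 : ℝ) ≤ p := by exact_mod_cast hp.one_le
  unfold fq
  split_ifs <;> constructor <;> linarith

theorem nonneg_NhGp {p : ℕ} (hp : p.Prime) (n : ℕ) : 0 ≤ gp p n := by
  rw [gp, Finsupp.prod]
  exact prod_nonneg fun l _ => pow_nonneg (fq_NhGp hp l).1 _

theorem mul_NhGp (p : ℕ) {a b : ℕ} (ha : a ≠ 0) (hb : b ≠ 0) :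
    gp p (a * b) = gp p a * gp p b := by
  rw [gp, Nat.factorization_mul ha hb, Finsupp.prod_add_index' (fun _ => pow_zero _)
    fun _ _ _ => pow_add _ _ _]
  rfl

theorem prime_NhGp (p : ℕ) {l : ℕ} (hl : l.Prime) : gp p l = fq p l := by
  rw [gp, hl.factorization, Finsupp.prod_single_index (h := fun l k => fq p l ^ k) (pow_zero _),
    pow_one]

theorem sqf_NhGp (p : ℕ) {n : ℕ} (hn : Squarefree n) :
    gp p n = ∏ l ∈ n.primeFactors, fq p l := by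
  rw [gp, Nat.prod_factorization_eq_prod_primeFactors]
  refine prod_congr rfl fun l hl => ?_
  rw [Nat.factorization_eq_one_of_squarefree hn (Nat.prime_of_mem_primeFactors hl)
    (Nat.dvd_of_mem_primeFactors hl), pow_one]

theorem filt_NhGp (p X : ℕ) : ∑ l ∈ (range (X + 1)).filter Nat.Prime, fq p l / l =
    ∑ l ∈ range (X + 1), fq p l / l :=
  sum_filter_of_ne fun l _ h => by
    by_contra hl
    exact h (by rw [fq, if_neg fun h' => hl h'.1, zero_div])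

theorem core_NhGp (p : ℕ) (hM : MertP p) (hH : HtP) : ∃ C : ℝ, 0 < C ∧
    ∀ (X : ℕ) (f : ℕ → ℝ) (b : ℝ), 2 ≤ X → (∀ l, 0 ≤ f l ∧ f l ≤ p) →
      ∑ l ∈ (range (X + 1)).filter Nat.Prime, f l / l ≤
        ∑ l ∈ (range (X + 1)).filter Nat.Prime, fq p l / l - b →
      ∑ n ∈ Icc 1 X with Squarefree n, ∏ l ∈ n.primeFactors, f l ≤ C * X * Real.exp (-b) := by
  obtain ⟨C, hC⟩ := hM
  refine ⟨(2 * p + 1) * Real.exp C, by positivity, fun X f b hX hf hb => ?_⟩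
  have hX' : (2 : ℝ) ≤ X := by exact_mod_cast hX
  have hl : 0 < Real.log X := Real.log_pos (by linarith)
  have h1 := (abs_le.1 (hC X hX')).2
  rw [Nat.floor_natCast, ← filt_NhGp] at h1
  refine le_of_mul_le_mul_left ((hH f p X hf).trans ?_) hl
  calc _ ≤ (2 * p + 1) * X * Real.exp (Real.log (Real.log X) + C + -b) := by
        gcongr
        linarith
    _ = _ := by
        rw [Real.exp_add, Real.exp_add, Real.exp_log hl]
        ring

/-- the square of the normalised weight -/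
noncomputable def sqw_NhGp (p : ℕ) : ℕ →* ℝ where
  toFun a := (gp p a / a) ^ 2
  map_one' := by simp [gp]
  map_mul' a b := by
    rcases eq_or_ne a 0 with rfl | ha
    · simp
    rcases eq_or_ne b 0 with rfl | hb
    · simp
    rw [mul_NhGp p ha hb, Nat.cast_mul, mul_div_mul_comm, mul_pow]

theorem t_NhGp {p l : ℕ} (hp : p.Prime) (hl : l.Prime) :
    0 ≤ sqw_NhGp p l ∧ sqw_NhGp p l ≤ 1 - 1 / p ∧ sqw_NhGp p l ≤ p ^ 2 * ((l : ℝ) ^ 2)⁻¹ := by
  have h1 : (1 : ℝ) ≤ p := by exact_mod_cast hp.one_le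
  have h2 : (0 : ℝ) < l := by exact_mod_cast hl.pos
  have h3 := fq_NhGp hp l
  have h4 : fq p l / l ≤ 1 - 1 / p := by
    unfold fq
    split_ifs with h
    · have h5 : p ≤ l := by
        rcases h.2 with h | h
        · exact (Nat.le_of_dvd (Nat.sub_pos_of_lt hl.one_lt)
            ((Nat.modEq_iff_dvd' hl.one_le).1 h.symm)).trans (Nat.sub_le _ _)
        · exact h.ge
      have h6 : (p : ℝ) ≤ l := by exact_mod_cast h5
      calc _ ≤ ((p : ℝ) - 1) / p := div_le_div_of_nonneg_left (by linarith) (by linarith) h6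
        _ = _ := by field_simp
    · rw [zero_div, sub_nonneg]
      exact (div_le_one (by linarith)).2 h1
  have h5 : 0 ≤ fq p l / l := div_nonneg h3.1 h2.le
  have h6 : (0 : ℝ) ≤ 1 / p := by positivity
  change 0 ≤ (gp p l / l) ^ 2 ∧ (gp p l / l) ^ 2 ≤ _ ∧ (gp p l / l) ^ 2 ≤ _
  rw [prime_NhGp p hl]
  refine ⟨sq_nonneg _, by nlinarith, ?_⟩
  rw [div_pow, div_eq_mul_inv]
  gcongr
  exacts [h3.1, h3.2]

theorem sq_NhGp {p : ℕ} (hp : p.Prime) (x : ℕ) :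
    ∑ a ∈ Icc 1 x, (gp p a / a) ^ 2 ≤ Real.exp (p * (p ^ 2 * 2)) := by
  have h1 : (1 : ℝ) ≤ p := by exact_mod_cast hp.one_le
  have h0 : (0 : ℝ) < 1 / p := by positivity
  have hs := (EulerProduct.summable_and_hasSum_factoredNumbers_prod_filter_prime_geometric
    (f := sqw_NhGp p) (fun {l} hl => by
      rw [Real.norm_of_nonneg (t_NhGp hp hl).1]
      linarith [(t_NhGp hp hl).2.1]) (range (x + 1))).2
  have hs' : HasSum ((Nat.factoredNumbers (range (x + 1))).indicator fun a => sqw_NhGp p a)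
      (∏ l ∈ range (x + 1) with l.Prime, (1 - sqw_NhGp p l)⁻¹) :=
    hasSum_subtype_iff_indicator.1 hs
  have h2 : ∑ a ∈ Icc 1 x, (gp p a / a) ^ 2 ≤
      ∏ l ∈ range (x + 1) with l.Prime, (1 - sqw_NhGp p l)⁻¹ := by
    refine le_trans (le_of_eq (sum_congr rfl fun n hn => ?_))
      (sum_le_hasSum (Icc 1 x) (fun n _ => Set.indicator_nonneg (fun n _ => sq_nonneg _) n) hs')
    obtain ⟨h3, h4⟩ := mem_Icc.1 hn
    exact (Set.indicator_of_mem (Nat.mem_factoredNumbers'.2 fun p _ hp => mem_range.2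
      (Nat.lt_succ_of_le ((Nat.le_of_dvd h3 hp).trans h4))) fun a => sqw_NhGp p a).symm
  have h3 : ∏ l ∈ range (x + 1) with l.Prime, (1 - sqw_NhGp p l)⁻¹ ≤
      Real.exp (∑ l ∈ range (x + 1) with l.Prime, p * sqw_NhGp p l) := by
    rw [Real.exp_sum]
    refine prod_le_prod (fun l hl => ?_) fun l hl => ?_
    · exact inv_nonneg.2 (by linarith [(t_NhGp hp (mem_filter.1 hl).2).2.1])
    · obtain ⟨h4, h5, -⟩ := t_NhGp hp (mem_filter.1 hl).2
      generalize sqw_NhGp p l = t at h4 h5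
      refine le_trans ?_ (Real.add_one_le_exp _)
      have h6 : 1 ≤ p * (1 - t) := by
        have := mul_le_mul_of_nonneg_left (show 1 / (p : ℝ) ≤ 1 - t by linarith)
          (show (0 : ℝ) ≤ p by linarith)
        rwa [mul_one_div_cancel (by linarith)] at this
      rw [inv_le_iff_one_le_mul₀ (by linarith)]
      nlinarith
  refine h2.trans (h3.trans (Real.exp_le_exp.2 ?_))
  rw [← mul_sum]
  gcongr
  calc _ ≤ ∑ l ∈ range (x + 1) with l.Prime, (p : ℝ) ^ 2 * ((l : ℝ) ^ 2)⁻¹ :=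
        sum_le_sum fun l hl => (t_NhGp hp (mem_filter.1 hl).2).2.2
    _ ≤ ∑ l ∈ Ioo 0 (x + 1), (p : ℝ) ^ 2 * ((l : ℝ) ^ 2)⁻¹ :=
        sum_le_sum_of_subset_of_nonneg (fun l hl => mem_Ioo.2
          ⟨(mem_filter.1 hl).2.pos, mem_range.1 (mem_filter.1 hl).1⟩) fun _ _ _ => by positivity
    _ ≤ _ := by
        rw [← mul_sum]
        gcongr
        simpa using sum_Ioo_inv_sq_le (α := ℝ) 0 (x + 1)

theorem gpP (p : ℕ) [Fact p.Prime] (hM : MertP p) (hH : HtP) : GpP p := by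
  have hp : p.Prime := Fact.out
  refine ⟨nonneg_NhGp hp, by simp [gp], fun a b => mul_NhGp p, fun l => prime_NhGp p,
    fun n => sqf_NhGp p, ?_⟩
  obtain ⟨C, hC, h⟩ := core_NhGp p hM hH
  have h1 : ∀ y : ℕ, ∑ m ∈ Icc 1 y with Squarefree m, gp p m ≤ (C + 1) * y := fun y => by
    rcases lt_or_ge y 2 with hy | hy
    · interval_cases y
      · simp
      · rw [Icc_self, filter_singleton, if_pos squarefree_one, sum_singleton]
        simp [gp, hC.le]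
    · have h2 := h y (fq p) 0 hy (fq_NhGp hp) (by rw [sub_zero])
      rw [neg_zero, Real.exp_zero, mul_one] at h2
      rw [sum_congr rfl fun m hm => sqf_NhGp p (mem_filter.1 hm).2]
      have : (0 : ℝ) ≤ y := Nat.cast_nonneg y
      linarith
  refine ⟨(C + 1) * Real.exp (p * (p ^ 2 * 2)), by positivity, nonneg_NhGp hp, fun x => ?_⟩
  set T : Finset (Σ _ : ℕ, ℕ) :=
    (Icc 1 x).sigma fun a => (Icc 1 (x / a ^ 2)).filter Squarefree with hT
  have h2 : Icc 1 x ⊆ T.image fun z => z.1 ^ 2 * z.2 := fun n hn => by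
    obtain ⟨h3, h4⟩ := mem_Icc.1 hn
    obtain ⟨m, a, hm, ha, he, hs⟩ := Nat.sq_mul_squarefree_of_pos h3
    refine mem_image.2 ⟨⟨a, m⟩, mem_sigma.2 ⟨mem_Icc.2 ⟨ha, ?_⟩, mem_filter.2
      ⟨mem_Icc.2 ⟨hm, ?_⟩, hs⟩⟩, he⟩
    · exact (Nat.le_of_dvd h3 (he ▸ (dvd_pow_self a two_ne_zero).mul_right m)).trans h4
    · exact (Nat.le_div_iff_mul_le (pow_pos ha 2)).2 (by rw [mul_comm, he]; exact h4)
  calc _ ≤ ∑ n ∈ T.image fun z => z.1 ^ 2 * z.2, gp p n :=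
        sum_le_sum_of_subset_of_nonneg h2 fun n _ _ => nonneg_NhGp hp n
    _ ≤ ∑ z ∈ T, gp p (z.1 ^ 2 * z.2) := sum_image_le_of_nonneg fun n _ => nonneg_NhGp hp n
    _ ≤ ∑ a ∈ Icc 1 x, (C + 1) * x * (gp p a / a) ^ 2 := by
        rw [hT, sum_sigma]
        refine sum_le_sum fun a ha => ?_
        have ha0 : a ≠ 0 := Nat.one_le_iff_ne_zero.1 (mem_Icc.1 ha).1
        have h3 : ∀ m ∈ (Icc 1 (x / a ^ 2)).filter Squarefree,
            gp p (a ^ 2 * m) = gp p a ^ 2 * gp p m := fun m hm => by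
          rw [mul_NhGp p (pow_ne_zero 2 ha0) (mem_filter.1 hm).2.ne_zero, sq, mul_NhGp p ha0 ha0,
            sq]
        rw [sum_congr rfl h3, ← mul_sum]
        have h4 : ((x / a ^ 2 : ℕ) : ℝ) ≤ x / a ^ 2 := by
          have := Nat.cast_div_le (α := ℝ) (m := x) (n := a ^ 2)
          rwa [Nat.cast_pow] at this
        calc _ ≤ gp p a ^ 2 * ((C + 1) * (x / a ^ 2)) := by
              refine mul_le_mul_of_nonneg_left ((h1 _).trans ?_) (sq_nonneg _)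
              gcongr
          _ = _ := by ring
    _ ≤ _ := by
        rw [← mul_sum, mul_right_comm]
        gcongr
        exact sq_NhGp hp x

theorem tkP (p : ℕ) [Fact p.Prime] (hM : MertP p) (hH : HtP) (hG : GpP p) : TkP p := by
  have hp : p.Prime := Fact.out
  have hp2 : (2 : ℝ) ≤ p := by exact_mod_cast hp.two_le
  obtain ⟨C, hC, h⟩ := core_NhGp p hM hH
  refine ⟨C, hC, fun X A a hX hA ha => ?_⟩
  rcases lt_or_ge a 0 with ha0 | ha0
  · rw [filter_false_of_mem, sum_empty]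
    · positivity
    · intro n _ hn
      have : (0 : ℝ) ≤ ((n.primeFactors ∩ A).card : ℝ) := Nat.cast_nonneg _
      linarith [hn.2]
  set f : ℕ → ℝ := fun l => fq p l * if l ∈ A then 1 / 2 else 1 with hf
  have f0 : ∀ l, 0 ≤ f l ∧ f l ≤ p := fun l => by
    have := fq_NhGp hp l
    simp only [hf]
    split_ifs <;> constructor <;> linarith [this.1, this.2]
  have hsub : A ⊆ (range (X + 1)).filter Nat.Prime := fun l hl =>
    mem_filter.2 ⟨mem_range.2 (Nat.lt_succ_of_le (hA l hl).2), (hA l hl).1.1⟩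
  have h1 := h X f (a / 2) hX f0 (by
    rw [le_sub_comm, ← sum_sub_distrib]
    calc a / 2 ≤ ∑ l ∈ A, (1 : ℝ) / l / 2 := by rw [← sum_div]; linarith
      _ ≤ ∑ l ∈ A, (fq p l / l - f l / l) := sum_le_sum fun l hl => by
          have h2 : (0 : ℝ) ≤ 1 / l := by positivity
          simp only [hf, fq, if_pos hl, if_pos (hA l hl).1]
          calc _ ≤ (p - 1) * ((1 : ℝ) / l / 2) := le_mul_of_one_le_left (by linarith) (by linarith)
            _ = _ := by ring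
      _ ≤ _ := sum_le_sum_of_subset_of_nonneg hsub fun l _ hl => by
          simp only [hf, if_neg hl, mul_one, sub_self, le_refl])
  have h2 : ∀ n, Squarefree n → ((n.primeFactors ∩ A).card : ℝ) ≤ a / 2 →
      gp p n ≤ Real.exp (a / 2 * Real.log 2) * ∏ l ∈ n.primeFactors, f l := fun n hn hc => by
    have h3 : ∏ l ∈ n.primeFactors, f l = gp p n * (1 / 2) ^ (n.primeFactors ∩ A).card := by
      rw [hG.2.2.2.2.1 n hn, prod_mul_distrib, prod_ite_mem, prod_const]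
    have h4 : (2 : ℝ) ^ (n.primeFactors ∩ A).card ≤ Real.exp (a / 2 * Real.log 2) := by
      rw [← Real.exp_log (show (0 : ℝ) < 2 ^ (n.primeFactors ∩ A).card by positivity),
        Real.log_pow]
      gcongr
    calc gp p n = 2 ^ (n.primeFactors ∩ A).card * ∏ l ∈ n.primeFactors, f l := by
          rw [h3, one_div, inv_pow]
          field_simp
      _ ≤ _ := mul_le_mul_of_nonneg_right h4 (prod_nonneg fun l _ => (f0 l).1)
  calc _ ≤ ∑ n ∈ Icc 1 X with Squarefree n ∧ ((n.primeFactors ∩ A).card : ℝ) ≤ a / 2,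
        Real.exp (a / 2 * Real.log 2) * ∏ l ∈ n.primeFactors, f l :=
        sum_le_sum fun n hn => h2 n (mem_filter.1 hn).2.1 (mem_filter.1 hn).2.2
    _ ≤ ∑ n ∈ Icc 1 X with Squarefree n,
        Real.exp (a / 2 * Real.log 2) * ∏ l ∈ n.primeFactors, f l :=
        sum_le_sum_of_subset_of_nonneg (fun n hn => mem_filter.2
          ⟨(mem_filter.1 hn).1, (mem_filter.1 hn).2.1⟩) fun n _ _ =>
            mul_nonneg (Real.exp_pos _).le (prod_nonneg fun l _ => (f0 l).1)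
    _ ≤ Real.exp (a / 2 * Real.log 2) * (C * X * Real.exp (-(a / 2))) := by
        rw [← mul_sum]
        gcongr
    _ = C * X * Real.exp (a / 2 * Real.log 2 + -(a / 2)) := by rw [Real.exp_add]; ring
    _ ≤ _ := by
        gcongr
        nlinarith [Real.log_two_lt_d9]

end Pool.Agent.MP_f68ac8_nt.Nd

end

section

/-! Small subgroups of a finite `p`-group. -/

namespace Pool.Agent.MP_f68ac8_nt.Nd
open NumberField Finset Filter
open MP_d64882_nt (cnt)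
open Zv (Ex Prob)
open scoped Topology BigOperators commutatorElement

/-- additive on `K` -/
def Adv_NhGrp {Q : Type} [Group Q] {p : ℕ} (K : Subgroup Q) (φ : Q → ZMod p) : Prop :=
  ∀ a ∈ K, ∀ b ∈ K, φ (a * b) = φ a + φ b

theorem adv_one_NhGrp {Q : Type} [Group Q] {p : ℕ} {K : Subgroup Q} {φ : Q → ZMod p}
    (h : Adv_NhGrp K φ) : φ 1 = 0 := by
  have := h 1 K.one_mem 1 K.one_mem
  rw [mul_one] at this
  exact left_eq_add.mp this

theorem adv_pow_NhGrp {Q : Type} [Group Q] {p : ℕ} {K : Subgroup Q} {φ : Q → ZMod p}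
    (h : Adv_NhGrp K φ) {x : Q} (hx : x ∈ K) (s : ℕ) : φ (x ^ s) = s * φ x := by
  induction s with
  | zero => simp [adv_one_NhGrp h]
  | succ s ih => rw [pow_succ, h _ (K.pow_mem hx s) _ hx, ih]; push_cast; ring

/-- the kernel inside `K` -/
def ker_NhGrp {Q : Type} [Group Q] {p : ℕ} {K : Subgroup Q} {φ : Q → ZMod p}
    (h : Adv_NhGrp K φ) : Subgroup Q where
  carrier := {g | g ∈ K ∧ φ g = 0}
  mul_mem' := by
    rintro a b ⟨ha, ha'⟩ ⟨hb, hb'⟩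
    exact ⟨K.mul_mem ha hb, by rw [h a ha b hb, ha', hb', add_zero]⟩
  one_mem' := ⟨K.one_mem, adv_one_NhGrp h⟩
  inv_mem' := by
    rintro a ⟨ha, ha'⟩
    refine ⟨K.inv_mem ha, ?_⟩
    have := h a ha a⁻¹ (K.inv_mem ha)
    rw [mul_inv_cancel, adv_one_NhGrp h, ha', zero_add] at this
    exact this.symm

theorem ker_le_NhGrp {Q : Type} [Group Q] {p : ℕ} {K : Subgroup Q} {φ : Q → ZMod p}
    (h : Adv_NhGrp K φ) : ker_NhGrp h ≤ K := fun _ hg => hg.1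

theorem card_ker_NhGrp {Q : Type} [Group Q] [Finite Q] {p : ℕ} [Fact p.Prime] {K : Subgroup Q}
    {φ : Q → ZMod p} (h : Adv_NhGrp K φ) : Nat.card K ≤ p * Nat.card (ker_NhGrp h) := by
  let f : K →* Multiplicative (ZMod p) := MonoidHom.mk' (fun a => Multiplicative.ofAdd (φ a))
    (fun a b => by rw [← ofAdd_add, ← h a a.2 b b.2]; rfl)
  have e : ker_NhGrp h = f.ker.map K.subtype := by
    ext g
    constructor
    · rintro ⟨hg, h0⟩
      exact ⟨⟨g, hg⟩, show Multiplicative.ofAdd (φ g) = 1 by rw [h0]; rfl, rfl⟩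
    · rintro ⟨y, hy, rfl⟩
      exact ⟨y.2, hy⟩
  have h1 := f.ker.card_mul_index
  have h2 : Nat.card f.range ≤ p := by
    have := Subgroup.card_le_card_group f.range
    rwa [Nat.card_congr Multiplicative.toAdd, Nat.card_zmod] at this
  rw [e, Subgroup.card_subtype, ← h1, Subgroup.index_ker, mul_comm]
  exact Nat.mul_le_mul_right _ h2

theorem card_lt_NhGrp {Q : Type} [Group Q] [Finite Q] {p : ℕ} [Fact p.Prime] {K M : Subgroup Q}
    (hK : IsPGroup p K) (hlt : M < K) : p * Nat.card M ≤ Nat.card K := by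
  obtain ⟨k, hk⟩ := IsPGroup.iff_card.mp hK
  obtain ⟨j, hj⟩ := IsPGroup.iff_card.mp (hK.to_le hlt.le)
  have hp : 1 < p := (Fact.out : p.Prime).one_lt
  have h2 := card_lt_NbGrp hlt
  have h3 : p ^ j < p ^ k := by
    have : 0 < p ^ j := by positivity
    omega
  rw [hk, hj, ← pow_succ']
  exact Nat.pow_le_pow_right hp.le ((Nat.pow_lt_pow_iff_right hp).mp h3)

theorem ex_NhGrp {Q : Type} [Group Q] [Finite Q] {p : ℕ} [Fact p.Prime] {K A : Subgroup Q}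
    (hK : IsPGroup p K) (hlt : A < K) : ∃ φ : Q → ZMod p, Adv_NhGrp K φ ∧ (∀ a ∈ A, φ a = 0) ∧
      ∃ x ∈ K, φ x ≠ 0 := by
  classical
  have hp : p.Prime := Fact.out
  obtain ⟨k, hk⟩ := IsPGroup.iff_card.mp hK
  obtain ⟨j, hj⟩ := IsPGroup.iff_card.mp (hK.to_le hlt.le)
  have h2 := card_lt_NhGrp hK hlt
  rw [hk, hj, ← pow_succ'] at h2
  have hjk : j + 1 ≤ k := (Nat.pow_le_pow_iff_right hp.one_lt).mp h2
  obtain ⟨k, rfl⟩ : ∃ k', k = k' + 1 := ⟨k - 1, by omega⟩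
  have hA : Nat.card (A.subgroupOf K) = p ^ j := by
    rw [← hj]
    exact Nat.card_congr (Subgroup.subgroupOfEquivOfLe hlt.le).toEquiv
  obtain ⟨M, hM, hAM⟩ := Sylow.exists_subgroup_card_pow_prime_le (G := K) p (n := j) (m := k)
    (by rw [hk]; exact pow_dvd_pow p (Nat.le_succ k)) (A.subgroupOf K) hA (by omega)
  have hidx : M.index = p := by
    have h := M.card_mul_index
    rw [hM, hk, pow_succ] at h
    exact Nat.eq_of_mul_eq_mul_left (pow_pos hp.pos k) h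
  have : M.Normal := Subgroup.normal_of_index_eq_minFac_card (by
    rw [hidx, hk, hp.pow_minFac (Nat.succ_ne_zero k)])
  let e : K ⧸ M ≃* Multiplicative (ZMod p) := mulEquivOfPrimeCardEq (p := p) hidx
    (by rw [Nat.card_congr Multiplicative.toAdd, Nat.card_zmod])
  let f : K →* Multiplicative (ZMod p) := e.toMonoidHom.comp (QuotientGroup.mk' M)
  have hf : Function.Surjective f := e.surjective.comp (QuotientGroup.mk'_surjective M)
  refine ⟨fun g => if h : g ∈ K then (f ⟨g, h⟩).toAdd else 0, ?_, ?_, ?_⟩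
  · intro a ha b hb
    simp only [dif_pos ha, dif_pos hb, dif_pos (K.mul_mem ha hb)]
    rw [← toAdd_mul, ← map_mul]
    rfl
  · intro a ha
    simp only [dif_pos (hlt.le ha)]
    have : QuotientGroup.mk' M ⟨a, hlt.le ha⟩ = 1 := (QuotientGroup.eq_one_iff _).mpr (hAM ha)
    show (e (QuotientGroup.mk' M ⟨a, hlt.le ha⟩)).toAdd = 0
    rw [this, map_one]
    rfl
  · obtain ⟨x, hx⟩ := hf (Multiplicative.ofAdd 1)
    refine ⟨x, x.2, ?_⟩
    simp only [dif_pos x.2]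
    rw [show (⟨x, x.2⟩ : K) = x from rfl, hx]
    exact one_ne_zero

/-- the pencil spanned by two additive functions -/
def pen_NhGrp {Q : Type} {p : ℕ} (φ ψ : Q → ZMod p) : Option (ZMod p) → Q → ZMod p
  | none => ψ
  | some c => fun g => φ g - c * ψ g

theorem pen_adv_NhGrp {Q : Type} [Group Q] {p : ℕ} {K : Subgroup Q} {φ ψ : Q → ZMod p}
    (h : Adv_NhGrp K φ) (h' : Adv_NhGrp K ψ) (c : Option (ZMod p)) :
    Adv_NhGrp K (pen_NhGrp φ ψ c) := by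
  cases c with
  | none => exact h'
  | some c =>
    intro a ha b hb
    simp only [pen_NhGrp, h a ha b hb, h' a ha b hb]
    ring

theorem pen_cov_NhGrp {Q : Type} {p : ℕ} [Fact p.Prime] (φ ψ : Q → ZMod p) (g : Q) :
    ∃ c, pen_NhGrp φ ψ c g = 0 := by
  by_cases h : ψ g = 0
  · exact ⟨none, h⟩
  · refine ⟨some (φ g / ψ g), ?_⟩
    simp only [pen_NhGrp]
    field_simp
    ring

theorem pen_two_NhGrp {Q : Type} {p : ℕ} [Fact p.Prime] (φ ψ : Q → ZMod p) (g : Q)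
    {c c' : Option (ZMod p)} (hne : c ≠ c') (h : pen_NhGrp φ ψ c g = 0)
    (h' : pen_NhGrp φ ψ c' g = 0) : φ g = 0 ∧ ψ g = 0 := by
  cases c with
  | none =>
    cases c' with
    | none => exact absurd rfl hne
    | some c' =>
      simp only [pen_NhGrp] at h h'
      rw [h, mul_zero, sub_zero] at h'
      exact ⟨h', h⟩
  | some c =>
    cases c' with
    | none =>
      simp only [pen_NhGrp] at h h'
      rw [h', mul_zero, sub_zero] at h
      exact ⟨h, h'⟩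
    | some c' =>
      simp only [pen_NhGrp] at h h'
      have h1 : (c - c') * ψ g = 0 := by linear_combination h' - h
      have h2 : c - c' ≠ 0 := sub_ne_zero.mpr fun e => hne (congrArg some e)
      have h3 := (mul_eq_zero.mp h1).resolve_left h2
      rw [h3, mul_zero, sub_zero] at h
      exact ⟨h, h3⟩

/-- the abstract setting -/
structure St_NhGrp {Q : Type} [Group Q] [Fintype Q] (p : ℕ) (m : Subgroup Q → ℝ) (c : Q → ℝ)
    (θ : ℝ) : Prop where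
  c0 : ∀ y, 0 ≤ c y
  eq : ∀ H : Subgroup Q, Nat.card H * m H = ∑ y, (H : Set Q).indicator c y
  t0 : 0 ≤ θ
  t1 : θ * (Nat.card Q + 2 * p + 2) < 1
  di : ∀ H, m H ≤ θ ∨ |m H - 1| ≤ θ

section
variable {Q : Type} [Group Q] [Fintype Q] {p : ℕ} {m : Subgroup Q → ℝ} {c : Q → ℝ} {θ : ℝ}

theorem cpos_NhGrp (H : Subgroup Q) : (1 : ℝ) ≤ Nat.card H := by
  have : 0 < Nat.card H := Nat.card_pos
  exact_mod_cast this

theorem m0_NhGrp (S : St_NhGrp p m c θ) (H : Subgroup Q) : 0 ≤ m H := by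
  have h1 : 0 ≤ Nat.card H * m H := by
    rw [S.eq]
    exact sum_nonneg fun y _ => Set.indicator_nonneg (fun y _ => S.c0 y) y
  have h2 := cpos_NhGrp H
  by_contra h
  nlinarith [not_le.mp h]

theorem lo_NhGrp (S : St_NhGrp p m c θ) {H : Subgroup Q} (h : ¬ m H ≤ θ) : 1 - θ ≤ m H := by
  have := (abs_le.mp ((S.di H).resolve_left h)).1
  linarith

theorem hi_NhGrp (S : St_NhGrp p m c θ) (H : Subgroup Q) : m H ≤ 1 + θ := by
  rcases S.di H with h | h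
  · linarith
  · have := (abs_le.mp h).2
    linarith

theorem mono_NhGrp (S : St_NhGrp p m c θ) {A H : Subgroup Q} (hle : A ≤ H) (h : m H ≤ θ) :
    m A ≤ θ := by
  by_contra hA
  have h1 := lo_NhGrp S hA
  have h2 : Nat.card A * m A ≤ Nat.card H * m H := by
    rw [S.eq, S.eq]
    exact sum_le_sum fun y _ => Set.indicator_le_indicator_of_subset hle S.c0 y
  have h3 : (Nat.card H : ℝ) ≤ Nat.card Q := Nat.cast_le.mpr (Subgroup.card_le_card_group H)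
  have h4 := cpos_NhGrp A
  have h5 := m0_NhGrp S A
  have h6 : Nat.card H * m H ≤ Nat.card Q * θ :=
    mul_le_mul h3 h (m0_NhGrp S H) (Nat.cast_nonneg _)
  have h7 : 0 ≤ θ * p := mul_nonneg S.t0 (Nat.cast_nonneg _)
  have := S.t1
  have := S.t0
  nlinarith

theorem cov_NhGrp (S : St_NhGrp p m c θ) {ι : Type} [Fintype ι] {K : Subgroup Q}
    (M : ι → Subgroup Q) (hM : ∀ i, p * Nat.card (M i) ≤ Nat.card K)
    (hc : ∀ x ∈ K, ∃ i, x ∈ M i) : p * m K ≤ ∑ i, m (M i) := by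
  have h1 : Nat.card K * m K ≤ ∑ i, Nat.card (M i) * m (M i) := by
    simp only [S.eq]
    rw [sum_comm]
    refine sum_le_sum fun y _ => ?_
    have h0 : ∀ i, 0 ≤ (M i : Set Q).indicator c y :=
      fun i => Set.indicator_nonneg (fun y _ => S.c0 y) y
    by_cases hy : y ∈ K
    · obtain ⟨i, hi⟩ := hc y hy
      rw [Set.indicator_of_mem hy, ← Set.indicator_of_mem (s := (M i : Set Q)) hi c]
      exact single_le_sum (f := fun i => (M i : Set Q).indicator c y) (fun i _ => h0 i)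
        (mem_univ i)
    · rw [Set.indicator_of_notMem hy]
      exact sum_nonneg fun i _ => h0 i
  have h2 : p * ∑ i, Nat.card (M i) * m (M i) ≤ Nat.card K * ∑ i, m (M i) := by
    rw [mul_sum, mul_sum]
    refine sum_le_sum fun i _ => ?_
    rw [← mul_assoc]
    exact mul_le_mul_of_nonneg_right (by exact_mod_cast hM i) (m0_NhGrp S _)
  have h3 := cpos_NhGrp K
  have h4 : (0 : ℝ) ≤ p := Nat.cast_nonneg _
  refine le_of_mul_le_mul_left ?_ (lt_of_lt_of_le zero_lt_one h3)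
  nlinarith

theorem pack_NhGrp [Fact p.Prime] (S : St_NhGrp p m c θ) {K L : Subgroup Q}
    (M : Option (ZMod p) → Subgroup Q) (hL : L ≤ K) (hM : ∀ i, M i ≤ K)
    (hc : ∀ i, p * Nat.card L ≤ Nat.card (M i)) (hK : Nat.card K ≤ p * (p * Nat.card L))
    (h2 : ∀ i j, i ≠ j → ∀ x, x ∈ M i → x ∈ M j → x ∈ L) :
    ∑ i, m (M i) ≤ p * m K + m L := by
  classical
  have h1 : ∑ i, Nat.card (M i) * m (M i) ≤ Nat.card K * m K + p * (Nat.card L * m L) := by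
    simp only [S.eq]
    rw [sum_comm, mul_sum, ← sum_add_distrib]
    refine sum_le_sum fun y _ => ?_
    have hy0 := S.c0 y
    by_cases hy : y ∈ L
    · rw [Set.indicator_of_mem hy, Set.indicator_of_mem (hL hy)]
      refine (sum_le_card_nsmul _ _ (c y) fun i _ =>
        Set.indicator_le_self' (fun _ _ => S.c0 _) y).trans ?_
      rw [card_univ, Fintype.card_option, ZMod.card, nsmul_eq_mul]
      push_cast
      linarith
    · rw [Set.indicator_of_notMem hy, mul_zero, add_zero]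
      by_cases he : ∃ i, y ∈ M i
      · obtain ⟨i, hi⟩ := he
        rw [sum_eq_single i (fun j _ hj => Set.indicator_of_notMem
          (fun h => hy (h2 j i hj y h hi)) c) (fun h => absurd (mem_univ i) h),
          Set.indicator_of_mem hi, Set.indicator_of_mem (hM i hi)]
      · rw [sum_eq_zero fun i _ => Set.indicator_of_notMem (fun h => he ⟨i, h⟩) c]
        exact Set.indicator_nonneg (fun y _ => S.c0 y) y
  have h3 : p * Nat.card L * ∑ i, m (M i) ≤ ∑ i, Nat.card (M i) * m (M i) := by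
    rw [mul_sum]
    exact sum_le_sum fun i _ =>
      mul_le_mul_of_nonneg_right (by exact_mod_cast hc i) (m0_NhGrp S _)
  have h4 : Nat.card K * m K ≤ p * (p * Nat.card L) * m K :=
    mul_le_mul_of_nonneg_right (by exact_mod_cast hK) (m0_NhGrp S _)
  have h5 : (0 : ℝ) < p * Nat.card L :=
    mul_pos (Nat.cast_pos.mpr (Fact.out : p.Prime).pos) (lt_of_lt_of_le zero_lt_one (cpos_NhGrp L))
  refine le_of_mul_le_mul_left ?_ h5
  nlinarith

theorem two_NhGrp [Fact p.Prime] (S : St_NhGrp p m c θ) :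
    ∀ (n : ℕ) (K A B : Subgroup Q), Nat.card K = n → IsPGroup p K → A ≤ K → B ≤ K →
      (∀ x ∈ K, ∃ a ∈ A, ∃ b ∈ B, a * b = x) → m A ≤ θ → m B ≤ θ → m K ≤ θ := by
  classical
  intro n
  induction n using Nat.strong_induction_on with | _ n ih =>
  intro K A B hn hK hA hB hAB sA sB
  rcases hA.eq_or_lt with h | hAK
  · rw [← h]
    exact sA
  rcases hB.eq_or_lt with h | hBK
  · rw [← h]
    exact sB
  obtain ⟨φ, hφ, φA, x, hx, φx⟩ := ex_NhGrp hK hAK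
  obtain ⟨ψ, hψ, ψB, x', hx', ψx⟩ := ex_NhGrp hK hBK
  let M : Option (ZMod p) → Subgroup Q := fun i => ker_NhGrp (pen_adv_NhGrp hφ hψ i)
  have hlt : ∀ i, M i < K := by
    intro i
    refine lt_of_le_of_ne (ker_le_NhGrp _) fun e => ?_
    have h0 : ∀ g ∈ K, pen_NhGrp φ ψ i g = 0 := fun g hg => (show g ∈ M i from e ▸ hg).2
    cases i with
    | none => exact ψx (h0 x' hx')
    | some t =>
      obtain ⟨a, ha, b, hb, rfl⟩ := hAB x hx
      have := h0 b (hB hb)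
      simp only [pen_NhGrp, ψB b hb, mul_zero, sub_zero] at this
      exact φx (by rw [hφ a (hA ha) b (hB hb), φA a ha, this, add_zero])
  have hcl : ∀ i, Nat.card (M i) < n := by
    intro i
    have h1 := card_lt_NbGrp (hlt i)
    have h2 : 0 < Nat.card (M i) := Nat.card_pos
    omega
  have hA₁ : A ≤ M (some 0) := fun a ha => ⟨hA ha, by simp [pen_NhGrp, φA a ha]⟩
  have hB₂ : B ≤ M none := fun b hb => ⟨hB hb, ψB b hb⟩
  have s₁ : m (M (some 0)) ≤ θ := by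
    refine ih _ (hcl _) _ A (B ⊓ M (some 0)) rfl (hK.to_le (hlt _).le) hA₁ inf_le_right ?_ sA
      (mono_NhGrp S inf_le_left sB)
    intro y hy
    obtain ⟨a, ha, b, hb, rfl⟩ := hAB y ((hlt _).le hy)
    exact ⟨a, ha, b, ⟨hb, ((M (some 0)).mul_mem_cancel_left (hA₁ ha)).mp hy⟩, rfl⟩
  have s₂ : m (M none) ≤ θ := by
    refine ih _ (hcl _) _ (A ⊓ M none) B rfl (hK.to_le (hlt _).le) inf_le_right hB₂ ?_
      (mono_NhGrp S inf_le_left sA) sB
    intro y hy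
    obtain ⟨a, ha, b, hb, rfl⟩ := hAB y ((hlt _).le hy)
    exact ⟨a, ⟨ha, ((M none).mul_mem_cancel_right (hB₂ hb)).mp hy⟩, b, hb, rfl⟩
  have key := cov_NhGrp S M (fun i => card_lt_NhGrp hK (hlt i)) fun y hy => by
    obtain ⟨i, hi⟩ := pen_cov_NhGrp φ ψ y
    exact ⟨i, hy, hi⟩
  by_contra hs
  have k1 := lo_NhGrp S hs
  rw [Fintype.sum_option, ← add_sum_erase _ _ (mem_univ (0 : ZMod p))] at key
  have k2 := sum_le_card_nsmul (univ.erase (0 : ZMod p)) (fun t => m (M (some t))) (1 + θ)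
    fun t _ => hi_NhGrp S _
  have hp : p.Prime := Fact.out
  rw [card_erase_of_mem (mem_univ _), card_univ, ZMod.card, nsmul_eq_mul,
    Nat.cast_sub hp.one_le, Nat.cast_one] at k2
  have h4 : (0 : ℝ) ≤ p := Nat.cast_nonneg _
  have h5 : 0 ≤ θ * Nat.card Q := mul_nonneg S.t0 (Nat.cast_nonneg _)
  have h6 := mul_le_mul_of_nonneg_left k1 h4
  have := S.t1
  have := S.t0
  nlinarith

theorem three_NhGrp [Fact p.Prime] (S : St_NhGrp p m c θ) :
    ∀ (n : ℕ) (K A : Subgroup Q), Nat.card K = n → (∀ g ∈ K, g ^ p = 1) →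
      (∀ g ∈ K, ∀ h ∈ K, g * h = h * g) → ¬ m K ≤ θ → A ≤ K → m A ≤ θ →
      ∃ M : Subgroup Q, A ≤ M ∧ M ≤ K ∧ Nat.card K = p * Nat.card M ∧ m M ≤ θ := by
  classical
  intro n
  induction n using Nat.strong_induction_on with | _ n ih =>
  intro K A hn hpw hcm hs hA sA
  have hp : p.Prime := Fact.out
  have hK : IsPGroup p K := fun g => ⟨1, Subtype.ext (by rw [pow_one]; exact hpw g g.2)⟩
  have hAK : A < K := lt_of_le_of_ne hA fun e => hs (e ▸ sA)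
  obtain ⟨φ, hφ, φA, x, hx, φx⟩ := ex_NhGrp hK hAK
  have h₁ : ker_NhGrp hφ < K :=
    lt_of_le_of_ne (ker_le_NhGrp _) fun e => φx (e.ge hx).2
  have c₁ : Nat.card K = p * Nat.card (ker_NhGrp hφ) :=
    le_antisymm (card_ker_NhGrp hφ) (card_lt_NhGrp hK h₁)
  have hA₁ : A ≤ ker_NhGrp hφ := fun a ha => ⟨hA ha, φA a ha⟩
  by_cases s₁ : m (ker_NhGrp hφ) ≤ θ
  · exact ⟨_, hA₁, h₁.le, c₁, s₁⟩
  have p₁ : 0 < Nat.card (ker_NhGrp hφ) := Nat.card_pos
  obtain ⟨L, hAL, hL, cL, sL⟩ := ih (Nat.card (ker_NhGrp hφ))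
    (by have := card_lt_NbGrp h₁; omega) _ A rfl (fun g hg => hpw g (h₁.le hg))
    (fun g hg h hh => hcm g (h₁.le hg) h (h₁.le hh)) s₁ hA₁ sA
  have hLK : L ≤ K := hL.trans h₁.le
  have pL : 0 < Nat.card L := Nat.card_pos
  let E : Subgroup Q :=
    { carrier := {z | ∃ l ∈ L, ∃ s : ℕ, z = l * x ^ s}
      mul_mem' := by
        rintro _ _ ⟨l, hl, s, rfl⟩ ⟨l', hl', s', rfl⟩
        refine ⟨l * l', L.mul_mem hl hl', s + s', ?_⟩
        rw [pow_add, mul_assoc, mul_assoc, ← mul_assoc (x ^ s),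
          hcm _ (K.pow_mem hx s) _ (hLK hl'), mul_assoc]
      one_mem' := ⟨1, L.one_mem, 0, by simp⟩
      inv_mem' := by
        rintro _ ⟨l, hl, s, rfl⟩
        refine ⟨l⁻¹, L.inv_mem hl, s * (p - 1), ?_⟩
        have e : (x ^ s)⁻¹ = x ^ (s * (p - 1)) := by
          rw [inv_eq_iff_mul_eq_one, pow_mul, ← pow_succ', Nat.sub_add_cancel hp.one_le]
          exact hpw _ (K.pow_mem hx s)
        rw [mul_inv_rev, e, hcm _ (K.pow_mem hx _) _ (K.inv_mem (hLK hl))] }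
  have hE : E < K := by
    refine lt_of_le_of_ne ?_ fun e => ?_
    · rintro _ ⟨l, hl, s, rfl⟩
      exact K.mul_mem (hLK hl) (K.pow_mem hx s)
    · have hle : ker_NhGrp hφ ≤ L := by
        intro y hy
        obtain ⟨l, hl, s, rfl⟩ : y ∈ E := e ▸ hy.1
        have h0 := hy.2
        rw [hφ l (hLK hl) _ (K.pow_mem hx s), (hL hl).2, zero_add, adv_pow_NhGrp hφ hx] at h0
        obtain ⟨t, rfl⟩ := (ZMod.natCast_eq_zero_iff s p).mp ((mul_eq_zero.mp h0).resolve_right φx)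
        rw [pow_mul, hpw x hx, one_pow, mul_one]
        exact hl
      have h1 := Subgroup.card_le_of_le hle
      have h2 := hp.two_le
      nlinarith
  obtain ⟨ψ, hψ, ψE, x', hx', ψx'⟩ := ex_NhGrp hK hE
  have ψx : ψ x = 0 := ψE x ⟨1, L.one_mem, 1, by simp⟩
  have ψL : ∀ l ∈ L, ψ l = 0 := fun l hl => ψE l ⟨l, hl, 0, by simp⟩
  have h₂ : ker_NhGrp hψ < K :=
    lt_of_le_of_ne (ker_le_NhGrp _) fun e => ψx' (e.ge hx').2
  have hinf : L = ker_NhGrp hφ ⊓ ker_NhGrp hψ := by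
    refine Subgroup.eq_of_le_of_card_ge (le_inf hL fun l hl => ⟨hLK hl, ψL l hl⟩) ?_
    have hlt : ker_NhGrp hφ ⊓ ker_NhGrp hψ < ker_NhGrp hφ := by
      refine lt_of_le_of_ne inf_le_left fun e => ?_
      have a1 : ker_NhGrp hφ < ker_NhGrp hψ :=
        lt_of_le_of_ne (inf_eq_left.mp e) fun e' =>
          φx (show x ∈ ker_NhGrp hφ from e' ▸ ⟨hx, ψx⟩).2
      have a2 := card_lt_NbGrp a1
      have a3 := card_lt_NhGrp hK h₂
      have a4 := hp.pos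
      nlinarith
    have a1 := card_lt_NhGrp (hK.to_le h₁.le) hlt
    rw [cL] at a1
    exact Nat.le_of_mul_le_mul_left a1 hp.pos
  let M : Option (ZMod p) → Subgroup Q := fun i => ker_NhGrp (pen_adv_NhGrp hφ hψ i)
  have hLM : ∀ i, L ≤ M i := by
    intro i l hl
    refine ⟨hLK hl, ?_⟩
    cases i with
    | none => exact ψL l hl
    | some t => simp [pen_NhGrp, ψL l hl, (hL hl).2]
  by_contra hno
  have big : ∀ i, 1 - θ ≤ m (M i) := by
    intro i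
    refine lo_NhGrp S fun si => hno ⟨M i, hAL.trans (hLM i), ker_le_NhGrp _, ?_, si⟩
    exact le_antisymm (card_ker_NhGrp _)
      (card_lt_NhGrp hK (lt_of_le_of_ne (ker_le_NhGrp _) fun e => hs (e ▸ si)))
  have key := pack_NhGrp S M hLK (fun i => ker_le_NhGrp _) (fun i => by
    have a1 : Nat.card K ≤ p * Nat.card (M i) := card_ker_NhGrp _
    rw [c₁, cL] at a1
    exact Nat.le_of_mul_le_mul_left a1 hp.pos) (by rw [c₁, cL]) fun i j hij y hi hj => by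
      obtain ⟨a1, a2⟩ := pen_two_NhGrp φ ψ y hij hi.2 hj.2
      rw [hinf]
      exact ⟨⟨hi.1, a1⟩, hi.1, a2⟩
  have k2 := card_nsmul_le_sum univ (fun i => m (M i)) (1 - θ) fun i _ => big i
  rw [card_univ, Fintype.card_option, ZMod.card, nsmul_eq_mul] at k2
  push_cast at k2
  have h4 : (0 : ℝ) ≤ p := Nat.cast_nonneg _
  have h5 : 0 ≤ θ * Nat.card Q := mul_nonneg S.t0 (Nat.cast_nonneg _)
  have h6 := mul_le_mul_of_nonneg_left (hi_NhGrp S K) h4
  have := S.t1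
  have := S.t0
  nlinarith

theorem fib_NhGrp (H : Subgroup Q) (g : Q) : (Nat.card H * perm H g : ℝ) =
    ∑ y, (H : Set Q).indicator (fun y => (Set.ncard {x : Q | x⁻¹ * g * x = y} : ℝ)) y := by
  classical
  have h1 : ∀ s : Set Q, (s.ncard : ℝ) = ∑ x, if x ∈ s then (1 : ℝ) else 0 := by
    intro s
    rw [Set.ncard_eq_toFinset_card', sum_boole]
    congr 2
    ext x
    simp
  rw [← Nat.cast_mul, card_perm_NbGrp]
  simp only [h1, Set.mem_ofPred_eq]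
  have h2 : ∀ y, (H : Set Q).indicator (fun y => ∑ x : Q, if x⁻¹ * g * x = y then (1 : ℝ) else 0) y
      = ∑ x : Q, if x⁻¹ * g * x = y then (if y ∈ H then (1 : ℝ) else 0) else 0 := by
    intro y
    by_cases hy : y ∈ H
    · rw [Set.indicator_of_mem hy]
      simp only [if_pos hy]
    · rw [Set.indicator_of_notMem hy]
      simp only [if_neg hy, ite_self, sum_const_zero]
  simp only [h2]
  rw [sum_comm]
  refine sum_congr rfl fun x _ => ?_
  rw [sum_ite_eq]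
  simp

end

theorem grpP (p : ℕ) [Fact p.Prime] : GrpP p := by
  intro G _ N n hN hidx hn σ w θ hw hsum h0 hθ hd
  have : N.FiniteIndex := ⟨hidx⟩
  have : Finite (G ⧸ N) := Subgroup.finite_quotient_of_finiteIndex
  let _ : Fintype (G ⧸ N) := Fintype.ofFinite _
  let f : G →* G ⧸ N := QuotientGroup.mk' N
  have hf : Function.Surjective f := QuotientGroup.mk'_surjective N
  have hf1 : ∀ g, f g = 1 ↔ g ∈ N := fun g => QuotientGroup.eq_one_iff g
  let m : Subgroup (G ⧸ N) → ℝ := fun H => ∑' i, w i * perm H (f (σ i))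
  have hm : ∀ H : Subgroup (G ⧸ N), m H = Sw σ w (H.comap f) := by
    intro H
    simp only [m, Sw, perm_comap_NbGrp f hf]
  have hcm : ∀ K : Subgroup G, N ≤ K → (K.map f).comap f = K := by
    intro K hK
    refine Subgroup.comap_map_eq_self ?_
    rw [QuotientGroup.ker_mk']
    exact hK
  have hm' : ∀ K : Subgroup G, N ≤ K → m (K.map f) = Sw σ w K := fun K hK => by
    rw [hm, hcm K hK]
  let r : ℕ → G ⧸ N → ℝ := fun i y => (Set.ncard {x : G ⧸ N | x⁻¹ * f (σ i) * x = y} : ℝ)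
  have hr : ∀ y, Summable fun i => w i * r i y := by
    intro y
    refine Summable.of_nonneg_of_le (fun i => mul_nonneg (hw i) (Nat.cast_nonneg _)) (fun i => ?_)
      (hsum.mul_right (Nat.card (G ⧸ N) : ℝ))
    exact mul_le_mul_of_nonneg_left (Nat.cast_le.mpr (Set.ncard_le_card _)) (hw i)
  have S : St_NhGrp p m (fun y => ∑' i, w i * r i y) θ := by
    refine ⟨fun y => tsum_nonneg fun i => mul_nonneg (hw i) (Nat.cast_nonneg _), fun H => ?_, h0,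
      lt_of_le_of_lt (mul_le_mul_of_nonneg_left ?_ h0) hθ, fun H => ?_⟩
    · have e : ∀ y, (H : Set (G ⧸ N)).indicator (fun y => ∑' i, w i * r i y) y =
          ∑' i, w i * (H : Set (G ⧸ N)).indicator (r i) y := by
        intro y
        by_cases hy : y ∈ H
        · simp only [Set.indicator_of_mem (s := (H : Set (G ⧸ N))) hy]
        · simp only [Set.indicator_of_notMem (s := (H : Set (G ⧸ N))) hy, mul_zero, tsum_zero]
      have e2 : ∀ y, Summable fun i => w i * (H : Set (G ⧸ N)).indicator (r i) y := by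
        intro y
        by_cases hy : y ∈ H
        · simp only [Set.indicator_of_mem (s := (H : Set (G ⧸ N))) hy]
          exact hr y
        · simp only [Set.indicator_of_notMem (s := (H : Set (G ⧸ N))) hy, mul_zero]
          exact summable_zero
      simp only [e]
      rw [← Summable.tsum_finsetSum fun y _ => e2 y, ← tsum_mul_left]
      refine tsum_congr fun i => ?_
      rw [← mul_sum, ← fib_NhGrp]
      ring
    · have : (Nat.card (G ⧸ N) : ℝ) ≤ n := Nat.cast_le.mpr hn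
      linarith
    · rw [hm]
      refine hd _ fun g hg => ?_
      rw [Subgroup.mem_comap, (hf1 g).mpr hg]
      exact H.one_mem
  refine ⟨fun A H hA hAH hH => ?_, fun K hK hpg => ⟨fun A B hA hB hAK hBK hAB sA sB => ?_,
    fun hpw hc hs A hA hAK sA => ?_⟩⟩
  · rw [← hm' A hA]
    exact mono_NhGrp S (Subgroup.map_mono hAH) (by rwa [hm' H (hA.trans hAH)])
  · rw [← hm' K hK]
    refine two_NhGrp S _ _ (A.map f) (B.map f) rfl ?_ (Subgroup.map_mono hAK)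
      (Subgroup.map_mono hBK) ?_ (by rwa [hm' A hA]) (by rwa [hm' B hB])
    · rintro ⟨_, g, hg, rfl⟩
      obtain ⟨k, hk⟩ := hpg g hg
      exact ⟨k, Subtype.ext (((map_pow f g _).symm).trans ((hf1 _).mpr hk))⟩
    · rintro _ ⟨g, hg, rfl⟩
      obtain ⟨a, ha, b, hb, rfl⟩ := hAB g hg
      exact ⟨f a, ⟨a, ha, rfl⟩, f b, ⟨b, hb, rfl⟩, (map_mul f a b).symm⟩
  · obtain ⟨M, h1, h2, h3, h4⟩ := three_NhGrp S _ (K.map f) (A.map f) rfl (by
      rintro _ ⟨g, hg, rfl⟩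
      exact ((map_pow f g _).symm).trans ((hf1 _).mpr (hpw g hg))) (by
      rintro _ ⟨g, hg, rfl⟩ _ ⟨h, hh, rfl⟩
      rw [← commutatorElement_eq_one_iff_mul_comm, ← map_commutatorElement]
      exact (hf1 _).mpr (hc g hg h hh)) (by rwa [hm' K hK]) (Subgroup.map_mono hAK)
      (by rwa [hm' A hA])
    refine ⟨M.comap f, Subgroup.map_le_iff_le_comap.mp h1, ?_, ?_, by rwa [← hm]⟩
    · rw [← hcm K hK]
      exact Subgroup.comap_mono h2
    · rw [Subgroup.relIndex_comap]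
      have a1 := (M.subgroupOf (K.map f)).card_mul_index
      have a2 : Nat.card (M.subgroupOf (K.map f)) = Nat.card M :=
        Nat.card_congr (Subgroup.subgroupOfEquivOfLe h2).toEquiv
      rw [a2, h3, mul_comm p] at a1
      exact Nat.eq_of_mul_eq_mul_left Nat.card_pos a1

end Pool.Agent.MP_f68ac8_nt.Nd

end

section

namespace Pool.Agent.MP_f68ac8_nt.Nd
open NumberField Finset Filter
open MP_d64882_nt (cnt)
open Zv (Ex Prob)
open scoped Topology BigOperators commutatorElement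

section
variable (E : Type) [Field E] [NumberField E]

lemma fin_NhId (n : ℕ) : Finite {I : Ideal (𝓞 E) // Ideal.absNorm I = n} :=
  (Ideal.finite_setOfPred_absNorm_eq (S := 𝓞 E) n).to_subtype

lemma split_NhId {a b : ℕ} (hab : a.Coprime b) (I : Ideal (𝓞 E)) (hI : Ideal.absNorm I = a * b) :
    (I ⊔ Ideal.span {(a : 𝓞 E)}) * (I ⊔ Ideal.span {(b : 𝓞 E)}) = I := by
  have hm : ((a * b : ℕ) : 𝓞 E) ∈ I := hI ▸ Ideal.absNorm_mem I
  refine le_antisymm ?_ fun x hx => ?_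
  · rw [Ideal.sup_mul, Ideal.mul_sup, Ideal.mul_sup, Ideal.span_singleton_mul_span_singleton]
    refine sup_le (sup_le Ideal.mul_le_left Ideal.mul_le_left) (sup_le Ideal.mul_le_right ?_)
    rw [Ideal.span_singleton_le_iff_mem]
    exact_mod_cast hm
  · obtain ⟨u, v, huv⟩ : IsCoprime (a : 𝓞 E) (b : 𝓞 E) := Nat.Coprime.cast hab
    have e : x = (u * a) * x + x * (v * b) := by
      rw [mul_comm x, ← add_mul, huv, one_mul]
    rw [e]
    refine Ideal.add_mem _ (Ideal.mul_mem_mul (Ideal.mem_sup_right ?_) (Ideal.mem_sup_left hx))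
      (Ideal.mul_mem_mul (Ideal.mem_sup_left hx) (Ideal.mem_sup_right ?_))
    · exact Ideal.mul_mem_left _ _ (Ideal.mem_span_singleton_self _)
    · exact Ideal.mul_mem_left _ _ (Ideal.mem_span_singleton_self _)

lemma nrm_NhId {a b : ℕ} (hab : a.Coprime b) (I : Ideal (𝓞 E)) (hI : Ideal.absNorm I = a * b) :
    Ideal.absNorm (I ⊔ Ideal.span {(a : 𝓞 E)}) ∣ a := by
  have h1 : Ideal.absNorm (I ⊔ Ideal.span {(a : 𝓞 E)}) ∣ a ^ Module.finrank ℤ (𝓞 E) := by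
    rw [← Ideal.absNorm_span_natCast]
    exact Ideal.absNorm_dvd_absNorm_of_le le_sup_right
  have h2 : Ideal.absNorm (I ⊔ Ideal.span {(a : 𝓞 E)}) ∣ a * b :=
    hI ▸ Ideal.absNorm_dvd_absNorm_of_le le_sup_left
  exact (Nat.Coprime.coprime_dvd_left h1 (hab.pow_left _)).dvd_of_dvd_mul_right h2

lemma mul_NhId {a b : ℕ} (ha : 0 < a) (hb : 0 < b) (hab : a.Coprime b) :
    cnt E (a * b) ≤ cnt E a * cnt E b := by
  have := fin_NhId E a
  have := fin_NhId E b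
  have key : ∀ I : Ideal (𝓞 E), Ideal.absNorm I = a * b →
      Ideal.absNorm (I ⊔ Ideal.span {(a : 𝓞 E)}) = a ∧
        Ideal.absNorm (I ⊔ Ideal.span {(b : 𝓞 E)}) = b := by
    intro I hI
    have h1 := Nat.le_of_dvd ha (nrm_NhId E hab I hI)
    have h2 := Nat.le_of_dvd hb (nrm_NhId E hab.symm I (by rw [hI, mul_comm]))
    have h3 := congrArg Ideal.absNorm (split_NhId E hab I hI)
    rw [map_mul, hI] at h3
    constructor
    · by_contra h
      have := Nat.mul_lt_mul_of_lt_of_le (lt_of_le_of_ne h1 h) h2 hb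
      omega
    · by_contra h
      have := Nat.mul_lt_mul_of_le_of_lt h1 (lt_of_le_of_ne h2 h) ha
      omega
  unfold cnt
  rw [← Nat.card_prod]
  refine Nat.card_le_card_of_injective (fun I => (⟨_, (key I.1 I.2).1⟩, ⟨_, (key I.1 I.2).2⟩))
    fun I J h => Subtype.ext ?_
  have h1 := congrArg (fun x => x.1.1) h
  have h2 := congrArg (fun x => x.2.1) h
  simp only at h1 h2
  rw [← split_NhId E hab I.1 I.2, ← split_NhId E hab J.1 J.2, h1, h2]

open UniqueFactorizationMonoid in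
lemma pow_NhId {l : ℕ} (hl : l.Prime) (k : ℕ) : cnt E (l ^ k) ≤ (k + 1) ^ dE E := by
  classical
  have := Fact.mk hl
  have hfin : ((Ideal.span {(l : ℤ)}).primesOver (𝓞 E)).Finite :=
    Algebra.QuasiFinite.finite_primesOver _
  have hS : hfin.toFinset.card ≤ dE E := by
    rw [dE, ← RingOfIntegers.rank]
    exact MP_d64882_nt.card_primesOver_le E (Ideal.span {(l : ℤ)}) _ fun P hP => by simpa using hP
  have h0 : ∀ I : Ideal (𝓞 E), Ideal.absNorm I = l ^ k → I ≠ ⊥ := by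
    rintro I hI rfl
    rw [Ideal.absNorm_bot] at hI
    exact pow_ne_zero k hl.ne_zero hI.symm
  have h1 : ∀ I : Ideal (𝓞 E), Ideal.absNorm I = l ^ k → ∀ q ∈ normalizedFactors I,
      q ∈ hfin.toFinset := by
    intro I hI q hq
    have hp : q.IsPrime := Ideal.isPrime_of_prime (prime_of_normalized_factor q hq)
    have hle : I ≤ q := Ideal.le_of_dvd (dvd_of_mem_normalizedFactors hq)
    have hm : ((l ^ k : ℕ) : 𝓞 E) ∈ q := hle (hI ▸ Ideal.absNorm_mem I)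
    rw [Nat.cast_pow] at hm
    rw [Set.Finite.mem_toFinset]
    refine ⟨hp, ⟨Ideal.IsMaximal.eq_of_le inferInstance (Ideal.IsPrime.ne_top inferInstance) ?_⟩⟩
    rw [Ideal.span_singleton_le_iff_mem, Ideal.under_def, Ideal.mem_comap]
    simpa using hp.mem_of_pow_mem k hm
  have h2 : ∀ I : Ideal (𝓞 E), Ideal.absNorm I = l ^ k → ∀ q,
      (normalizedFactors I).count q < k + 1 := by
    intro I hI q
    rcases Nat.eq_zero_or_pos ((normalizedFactors I).count q) with h | h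
    · omega
    have hq : q ∈ normalizedFactors I := Multiset.count_pos.1 h
    have hp := prime_of_normalized_factor q hq
    have hd : q ^ (normalizedFactors I).count q ∣ I := by
      have := Multiset.prod_dvd_prod_of_le
        (Multiset.le_count_iff_replicate_le.1 (le_refl ((normalizedFactors I).count q)))
      rwa [Multiset.prod_replicate, Ideal.prod_normalizedFactors_eq_self (h0 I hI)] at this
    have hd1 : Ideal.absNorm q ∣ l ^ k :=
      hI ▸ map_dvd Ideal.absNorm (dvd_of_mem_normalizedFactors hq)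
    obtain ⟨j, -, hj⟩ := (Nat.dvd_prime_pow hl).1 hd1
    have hj0 : j ≠ 0 := by
      rintro rfl
      rw [pow_zero, Ideal.absNorm_eq_one_iff] at hj
      exact (Ideal.isPrime_of_prime hp).ne_top hj
    have hd2 := map_dvd Ideal.absNorm hd
    rw [map_pow, hI, hj, ← pow_mul, Nat.pow_dvd_pow_iff_le_right hl.one_lt] at hd2
    have := Nat.le_mul_of_pos_left ((normalizedFactors I).count q) (Nat.pos_of_ne_zero hj0)
    omega
  calc cnt E (l ^ k) ≤ Nat.card (hfin.toFinset → Fin (k + 1)) := by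
        refine Nat.card_le_card_of_injective
          (fun I q => ⟨(normalizedFactors I.1).count q.1, h2 I.1 I.2 q.1⟩) fun I J h =>
          Subtype.ext ?_
        rw [← Ideal.prod_normalizedFactors_eq_self (h0 I.1 I.2),
          ← Ideal.prod_normalizedFactors_eq_self (h0 J.1 J.2)]
        congr 1
        ext q
        by_cases hq : q ∈ hfin.toFinset
        · exact congrArg Fin.val (congrFun h ⟨q, hq⟩)
        · rw [Multiset.count_eq_zero.2 fun h' => hq (h1 I.1 I.2 q h'),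
            Multiset.count_eq_zero.2 fun h' => hq (h1 J.1 J.2 q h')]
    _ = (k + 1) ^ hfin.toFinset.card := by
        rw [Nat.card_fun, Nat.card_eq_fintype_card, Nat.card_eq_fintype_card, Fintype.card_fin,
          Fintype.card_coe]
    _ ≤ _ := Nat.pow_le_pow_right k.succ_pos hS

end

lemma hw0_NhId (N p b : ℕ) : 0 ≤ hw N p b := by
  unfold hw Finsupp.prod
  refine Finset.prod_nonneg fun l _ => ?_
  dsimp only
  split_ifs
  · exact le_rfl
  · positivity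

lemma hw1_NhId (N p : ℕ) : hw N p 1 = 1 := by simp [hw]

lemma hwm_NhId (N p : ℕ) {a b : ℕ} (h : a.Coprime b) : hw N p (a * b) = hw N p a * hw N p b := by
  unfold hw
  rw [Nat.factorization_mul_of_coprime h, Finsupp.prod_add_index_of_disjoint]
  exact h.disjoint_primeFactors

lemma hwp_NhId (N p : ℕ) {l : ℕ} (hl : l.Prime) {k : ℕ} (hk : 0 < k) :
    hw N p (l ^ k) = if k = 1 ∧ l ≠ p then 0 else ((k : ℝ) + 1) ^ N := by
  unfold hw
  rw [hl.factorization_pow, Finsupp.prod, Finsupp.support_single _ hk.ne', prod_singleton,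
    Finsupp.single_eq_same]

theorem idP : IdP := by
  intro N p E _ _ hp hN n
  have hc : ∀ l : ℕ, l.Prime → ∀ k : ℕ, (cnt E (l ^ k) : ℝ) ≤ ((k : ℝ) + 1) ^ N := by
    intro l hl k
    exact_mod_cast (pow_NhId E hl k).trans (Nat.pow_le_pow_right k.succ_pos hN)
  induction n using Nat.recOnPosPrimePosCoprime with
  | prime_pow l k hl hk =>
    intro _
    by_cases h : k = 1 ∧ l ≠ p
    · obtain ⟨rfl, h⟩ := h
      refine ⟨l, 1, by simp, hl.squarefree, fun hd => h ((Nat.prime_dvd_prime_iff_eq hp hl).1 hd).symm,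
        ?_⟩
      rw [hl.primeFactors, prod_singleton, hw1_NhId, pow_one, mul_one]
    · refine ⟨1, l ^ k, one_mul _, squarefree_one, hp.not_dvd_one, ?_⟩
      rw [Nat.primeFactors_one, prod_empty, one_mul, hwp_NhId N p hl hk, if_neg h]
      exact hc l hl k
  | zero => exact fun h => absurd rfl h
  | one =>
    intro _
    refine ⟨1, 1, rfl, squarefree_one, hp.not_dvd_one, ?_⟩
    have := hc 2 Nat.prime_two 0
    simpa [hw1_NhId] using this
  | coprime a b ha hb hab iha ihb =>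
    intro _
    obtain ⟨m1, b1, e1, s1, p1, c1⟩ := iha (by omega)
    obtain ⟨m2, b2, e2, s2, p2, c2⟩ := ihb (by omega)
    have hm : m1.Coprime m2 :=
      Nat.Coprime.coprime_dvd_left ⟨b1, e1.symm⟩ (Nat.Coprime.coprime_dvd_right ⟨b2, e2.symm⟩ hab)
    have hb' : b1.Coprime b2 :=
      Nat.Coprime.coprime_dvd_left (Dvd.intro_left m1 e1)
        (Nat.Coprime.coprime_dvd_right (Dvd.intro_left m2 e2) hab)
    refine ⟨m1 * m2, b1 * b2, by rw [← e1, ← e2]; ring, (Nat.squarefree_mul hm).2 ⟨s1, s2⟩,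
      fun hd => ((Nat.Prime.dvd_mul hp).1 hd).elim p1 p2, ?_⟩
    rw [hm.primeFactors_mul, prod_union hm.disjoint_primeFactors, hwm_NhId N p hb']
    have h1 : (cnt E (a * b) : ℝ) ≤ cnt E a * cnt E b := by
      exact_mod_cast mul_NhId E (by omega) (by omega) hab
    refine h1.trans ((mul_le_mul c1 c2 (Nat.cast_nonneg _) ((Nat.cast_nonneg _).trans c1)).trans_eq ?_)
    ring

lemma geo_NhId (N : ℕ) : Summable fun k : ℕ => ((k : ℝ) + 3) ^ N * (1 / 2 : ℝ) ^ k := by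
  have h := summable_pow_mul_geometric_of_norm_lt_one (R := ℝ) N (r := 1 / 2) (by norm_num)
  refine (((summable_nat_add_iff 3).2 h).mul_left 8).congr fun k => ?_
  push_cast
  ring

theorem hsP : HsP := by
  intro N p
  refine ⟨hw0_NhId N p, ?_⟩
  set f : ℕ → ℝ := fun b => hw N p b / b with hf
  have f0 : ∀ b, 0 ≤ f b := fun b => div_nonneg (hw0_NhId N p b) (Nat.cast_nonneg b)
  have f1 : f 1 = 1 := by simp [hf, hw1_NhId]
  have fm : ∀ {a b : ℕ}, a.Coprime b → ‖f (a * b)‖ ≤ ‖f a‖ * ‖f b‖ ∧ f (a * b) = f a * f b := by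
    intro a b h
    have : f (a * b) = f a * f b := by
      simp only [hf, hwm_NhId N p h, Nat.cast_mul]
      ring
    exact ⟨by rw [this, norm_mul], this⟩
  set C : ℝ := ∑' k : ℕ, ((k : ℝ) + 3) ^ N * (1 / 2 : ℝ) ^ k with hC
  have C0 : 0 ≤ C := tsum_nonneg fun k => by positivity
  have fb : ∀ {l : ℕ}, l.Prime → ∀ k : ℕ,
      f (l ^ (k + 2)) ≤ 1 / (l : ℝ) ^ 2 * (((k : ℝ) + 3) ^ N * (1 / 2 : ℝ) ^ k) := by
    intro l hl k
    have h2 : (2 : ℝ) ≤ l := by exact_mod_cast hl.two_le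
    simp only [hf]
    rw [hwp_NhId N p hl (by omega), if_neg (by omega)]
    push_cast
    rw [show (k : ℝ) + 2 + 1 = k + 3 by ring, pow_add, one_div_pow,
      show 1 / (l : ℝ) ^ 2 * (((k : ℝ) + 3) ^ N * (1 / 2 ^ k)) = (k + 3) ^ N / (2 ^ k * l ^ 2) by
        field_simp]
    gcongr
  have fs2 : ∀ {l : ℕ}, l.Prime → Summable fun k => f (l ^ (k + 2)) := fun hl =>
    Summable.of_nonneg_of_le (fun k => f0 _) (fb hl) ((geo_NhId N).mul_left _)
  have fs : ∀ {l : ℕ}, l.Prime → Summable fun k => f (l ^ k) := fun hl =>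
    (summable_nat_add_iff 2).1 (fs2 hl)
  set t : ℕ → ℝ := fun l => (if l = p then (2 : ℝ) ^ N else 0) + C * (1 / (l : ℝ) ^ 2) with ht
  have t0 : ∀ l, 0 ≤ t l := fun l => by
    simp only [ht]
    split_ifs <;> positivity
  have ft : ∀ {l : ℕ}, l.Prime → ∑' k, f (l ^ k) ≤ 1 + t l := by
    intro l hl
    rw [← (fs hl).sum_add_tsum_nat_add 2, sum_range_succ, sum_range_one, pow_zero, f1]
    have h1 : ∑' k, f (l ^ (k + 2)) ≤ C * (1 / (l : ℝ) ^ 2) := by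
      refine ((fs2 hl).tsum_le_tsum (fb hl) ((geo_NhId N).mul_left _)).trans_eq ?_
      rw [tsum_mul_left, mul_comm]
    have h2 : f (l ^ 1) ≤ if l = p then (2 : ℝ) ^ N else 0 := by
      simp only [hf]
      rw [hwp_NhId N p hl one_pos]
      by_cases h : l = p
      · rw [if_neg (by simp [h]), if_pos h]
        have h3 : (1 : ℝ) ≤ (l ^ 1 : ℕ) := by exact_mod_cast Nat.one_le_pow _ _ hl.pos
        refine (div_le_self (by positivity) h3).trans_eq ?_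
        norm_num
      · rw [if_pos ⟨rfl, h⟩, if_neg h, zero_div]
    simp only [ht]
    linarith
  have hz : Summable fun l : ℕ => 1 / (l : ℝ) ^ 2 := Real.summable_one_div_nat_pow.2 one_lt_two
  refine summable_of_sum_range_le f0 (c := Real.exp (2 ^ N + C * ∑' l : ℕ, 1 / (l : ℝ) ^ 2))
    fun X => ?_
  have h1 := (EulerProduct.summable_and_hasSum_smoothNumbers_prod_primesBelow_tsum f1
    (fun h => (fm h).2) (fun hl => (fs hl).norm) X).2
  have h2 := sum_le_hasSum (range X) (fun b _ => Set.indicator_nonneg (fun b _ => f0 b) b)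
    (hasSum_subtype_iff_indicator.1 h1)
  have h3 : ∑ b ∈ range X, f b = ∑ b ∈ range X, X.smoothNumbers.indicator f b := by
    refine sum_congr rfl fun b hb => ?_
    rcases Nat.eq_zero_or_pos b with rfl | h
    · have : f 0 = 0 := by simp [hf]
      rw [this, Set.indicator_apply_eq_zero.2 fun _ => this]
    · rw [Set.indicator_of_mem (Nat.mem_smoothNumbers_of_lt h (mem_range.1 hb))]
  rw [h3]
  refine h2.trans ((prod_le_prod (fun l _ => tsum_nonneg fun k => f0 _)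
    fun l hl => ft (Nat.prime_of_mem_primesBelow hl)).trans
    ((Real.prod_one_add_le_exp_sum _ t0).trans (Real.exp_le_exp.2 ?_)))
  simp only [ht]
  rw [sum_add_distrib, ← mul_sum, sum_ite_eq']
  refine add_le_add ?_ (mul_le_mul_of_nonneg_left (hz.sum_le_tsum _ fun l _ => by positivity) C0)
  split_ifs
  · exact le_rfl
  · positivity

open scoped nonZeroDivisors in
lemma lim_NhId (K : Type) [Field K] [NumberField K] :
    ∃ ρ : ℝ, 0 < ρ ∧ Tendsto (fun X : ℕ => (∑ n ∈ Icc 1 X, (cnt K n : ℝ)) / X) atTop (𝓝 ρ) := by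
  refine ⟨_, dedekindZeta_residue_pos K, ?_⟩
  refine ((Ideal.tendsto_norm_le_div_atTop₀ K).comp tendsto_natCast_atTop_atTop).congr fun n => ?_
  simp only [Function.comp_apply, Nat.cast_le, ← Nat.cast_sum]
  congr 2
  unfold cnt
  rw [← add_left_inj 1, ← Ideal.card_norm_le_eq_card_norm_le_add_one,
    show Finset.Icc 1 n = Finset.Ioc 0 n from Finset.Icc_succ_left_eq_Ioc _ _,
    show 1 = Nat.card {I : Ideal (𝓞 K) // Ideal.absNorm I = 0} by simp [Ideal.absNorm_eq_zero_iff],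
    Finset.sum_Ioc_add_eq_sum_Icc (n.zero_le),
    ← Finset.card_preimage_eq_sum_card_image_eq
      (fun k _ => Ideal.finite_setOfPred_absNorm_eq k)]
  simp [Set.coe_eq_subtype]

theorem lowP (p : ℕ) [Fact p.Prime] (hZ : GzP p) (hG : GpP p) (hI : IdP) (hH : HsP) : LowP p := by
  classical
  obtain ⟨-, -, -, -, -, -, F, _, -, hd, hF⟩ := hZ
  obtain ⟨g0, -, -, -, gs, C, C0, -, hC⟩ := hG
  obtain ⟨w0, ws⟩ := hH p p
  obtain ⟨ρ, ρ0, hρ⟩ := lim_NhId F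
  have hp : p.Prime := Fact.out
  obtain ⟨T, hT⟩ : ∃ T : ℕ, ∑' i : ℕ, hw p p (i + T) / (i + T : ℕ) ≤ ρ / 4 / C :=
    ((tendsto_sum_nat_add fun b : ℕ => hw p p b / b).eventually
      (eventually_le_nhds (by positivity))).exists
  set H : ℝ := ∑ b ∈ range T, hw p p b + 1 with hH
  have H0 : 0 < H := add_pos_of_nonneg_of_pos (sum_nonneg fun b _ => w0 b) one_pos
  refine ⟨ρ / 4 / H, by positivity, ?_⟩
  filter_upwards [hρ.eventually (eventually_ge_nhds (half_lt_self ρ0)), eventually_gt_atTop 0]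
    with X hX X0
  have X0' : (0 : ℝ) < X := by exact_mod_cast X0
  rw [le_div_iff₀ X0'] at hX
  set S : ℝ := ∑ n ∈ Icc 1 X with Squarefree n ∧ ¬ p ∣ n, gp p n with hS
  have S0 : 0 ≤ S := sum_nonneg fun n _ => g0 n
  choose! m b e1 e2 e3 e4 using hI p p F hp hd
  have e5 : ∀ n, n ≠ 0 → (cnt F n : ℝ) ≤ hw p p (b n) * gp p (m n) := by
    intro n hn
    refine (e4 n hn).trans_eq ?_
    rw [mul_comm, gs _ (e2 n hn)]
    congr 1
    refine prod_congr rfl fun l hl => hF l (Nat.prime_of_mem_primeFactors hl) ?_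
    rintro rfl
    exact e3 n hn (Nat.dvd_of_mem_primeFactors hl)
  have h1 : ∑ n ∈ Icc 1 X, (cnt F n : ℝ) ≤ ∑ c ∈ Icc 1 X, hw p p c *
      ∑ n ∈ Icc 1 (X / c) with Squarefree n ∧ ¬ p ∣ n, gp p n := by
    simp only [mul_sum]
    rw [sum_sigma']
    refine (sum_le_sum fun n hn => e5 n (by have := mem_Icc.1 hn; omega)).trans ?_
    refine le_trans (le_of_eq (sum_image (g := fun n => (⟨b n, m n⟩ : Σ _ : ℕ, ℕ))
      (f := fun x : Σ _ : ℕ, ℕ => hw p p x.1 * gp p x.2) ?_).symm)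
      (sum_le_sum_of_subset_of_nonneg ?_ fun x _ _ => mul_nonneg (w0 _) (g0 _))
    · intro n hn n' hn' h
      have a := (mem_Icc.1 hn).1
      have a' := (mem_Icc.1 hn').1
      have h1 : b n = b n' := congrArg Sigma.fst h
      have h2 : m n = m n' := congrArg (fun x : Σ _ : ℕ, ℕ => x.2) h
      rw [← e1 n (by omega), ← e1 n' (by omega), h1, h2]
    · intro x hx
      obtain ⟨n, hn, rfl⟩ := mem_image.1 hx
      obtain ⟨a, a'⟩ := mem_Icc.1 hn
      have e := e1 n (by omega)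
      have hb : 0 < b n := Nat.pos_of_mul_pos_left (e ▸ a)
      have hm : 0 < m n := Nat.pos_of_mul_pos_right (e ▸ a)
      refine mem_sigma.2 ⟨mem_Icc.2 ⟨hb, le_trans (Nat.le_of_dvd a (Dvd.intro_left _ e)) a'⟩,
        mem_filter.2 ⟨mem_Icc.2 ⟨hm, ?_⟩, e2 n (by omega), e3 n (by omega)⟩⟩
      exact (Nat.le_div_iff_mul_le hb).2 (e.le.trans a')
  have h2 : ∀ c ∈ Icc 1 X, hw p p c * ∑ n ∈ Icc 1 (X / c) with Squarefree n ∧ ¬ p ∣ n, gp p n ≤
      (if c < T then hw p p c else 0) * S + C * X * (if T ≤ c then hw p p c / c else 0) := by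
    intro c hc
    by_cases h : c < T
    · rw [if_pos h, if_neg (by omega), mul_zero, add_zero]
      refine mul_le_mul_of_nonneg_left (sum_le_sum_of_subset_of_nonneg
        (filter_subset_filter _ (Icc_subset_Icc_right (Nat.div_le_self _ _))) fun n _ _ => g0 n)
        (w0 c)
    · rw [if_neg h, if_pos (by omega), zero_mul, zero_add]
      have a := (sum_le_sum_of_subset_of_nonneg (filter_subset (fun n => Squarefree n ∧ ¬ p ∣ n)
        (Icc 1 (X / c))) fun n _ _ => g0 n).trans (hC (X / c))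
      have a2 : ((X / c : ℕ) : ℝ) ≤ X / c := Nat.cast_div_le
      refine (mul_le_mul_of_nonneg_left (a.trans (mul_le_mul_of_nonneg_left a2 C0.le))
        (w0 c)).trans_eq ?_
      ring
  have h3 : ∑ c ∈ Icc 1 X, (if c < T then hw p p c else 0) ≤ H := by
    rw [← sum_filter]
    refine (sum_le_sum_of_subset_of_nonneg (t := range T)
      (fun c hc => mem_range.2 (mem_filter.1 hc).2) fun c _ _ => w0 c).trans ?_
    linarith
  have h4 : ∑ c ∈ Icc 1 X, (if T ≤ c then hw p p c / c else 0) ≤ ρ / 4 / C := by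
    refine le_trans ?_ hT
    rw [← sum_filter]
    refine (sum_le_sum_of_subset_of_nonneg (t := Ico T (T + (X + 1))) (fun c hc => ?_)
      fun c _ _ => div_nonneg (w0 c) (Nat.cast_nonneg c)).trans ?_
    · have := mem_Icc.1 (mem_filter.1 hc).1
      exact mem_Ico.2 ⟨(mem_filter.1 hc).2, by omega⟩
    · rw [sum_Ico_eq_sum_range]
      simp only [add_comm T]
      exact ((summable_nat_add_iff T).2 ws).sum_le_tsum _
        fun c _ => div_nonneg (w0 _) (Nat.cast_nonneg _)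
  have h5 := h1.trans (sum_le_sum h2)
  rw [sum_add_distrib, ← sum_mul, ← mul_sum] at h5
  have h6 := mul_le_mul_of_nonneg_right h3 S0
  have h7 := mul_le_mul_of_nonneg_left h4 (mul_pos C0 X0').le
  have h8 : C * X * (ρ / 4 / C) = ρ / 4 * X := by field_simp
  rw [div_mul_eq_mul_div, div_le_iff₀ H0]
  nlinarith

end Pool.Agent.MP_f68ac8_nt.Nd

end
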