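import Mathlib
import Pool.Agent.Mg.Fe23604m.G170b11

set_option linter.all false

section

/-! Matrices over a prime field that are random in the large rows and columns. -/

namespace Pool.Agent.MP_f68ac8_nt.Nd

open Zv Zk Matrix Finset
open scoped BigOperators commutatorElement

/-- matrices over the prime field -/
abbrev MP (p d : ℕ) : Type := Fin d → Fin d → ZMod p

/-- colours -/
structure ClP (p a b c e : ℕ) where
  t : V p a
  v : V p c
  z : V p b
  y : V p e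
  deriving DecidableEq

instance instFinClP (p a b c e : ℕ) [NeZero p] : Fintype (ClP p a b c e) :=
  Fintype.ofEquiv (V p a × V p c × V p b × V p e)
    ⟨fun x => ⟨x.1, x.2.1, x.2.2.1, x.2.2.2⟩, fun s => (s.t, s.v, s.z, s.y), fun _ => rfl,
      fun _ => rfl⟩

section
variable {p : ℕ} [Fact p.Prime] {d : ℕ}

/-- functions that do not depend on the row and the column `i` -/
def OfP (i : Fin d) (h : MP p d → ℂ) : Prop :=
  ∀ r r' : MP p d, (∀ j k, j ≠ i → k ≠ i → r j k = r' j k) → h r = h r'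

/-- measures on matrices with oscillation in the rows and columns in `Lg` -/
structure OscP (ν : MP p d → ℝ) (Lg : Finset (Fin d)) (η : ℝ) : Prop where
  pos : 0 ≤ η
  nn : ∀ r, 0 ≤ ν r
  osc : ∀ i ∈ Lg, ∀ α β : Fin d → ZMod p, α i = 0 → β i = 0 → α ≠ 0 ∨ β ≠ 0 →
    ∀ h : MP p d → ℂ, (∀ r, ‖h r‖ ≤ 1) → OfP i h →
    ‖∑ r, (ν r : ℂ) * (h r * ZMod.stdAddChar (∑ j, (α j * r i j + β j * r j i)))‖ ≤ η

variable {a b c e : ℕ} (N : Ln p a b c e)

/-- the pairing of two colours -/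
def PhP (s s' : ClP p a b c e) : ZMod p :=
  s.z ⬝ᵥ N.b1 s.t s'.t + s.y ⬝ᵥ (N.b2 s.t s'.v - N.b2 s'.t s.v)

/-- valid colours -/
def VlP (s : ClP p a b c e) : Prop := s.t ∈ N.ty ∧ s.v ∈ N.A s.t ∧ s.y ∈ N.La s.t

/-- the weight of a type -/
noncomputable def wqP (τ : V p a) : ℝ := 1 / (p ^ b * Nat.card (N.A τ))

variable (Sm Lg : Finset (Fin d))

variable {P : Type} [Group P]

variable (p P) in
/-- equidistribution of the random words -/
def EQP {Λ : Type} [Fintype P] [Fintype Λ] (w : Fin d → Λ → ℝ) {Y : Type} [Fintype Y]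
    (y : Lr d Λ → Y → FreeGroup (Lr d Λ)) (L : ℕ) (η : ℝ) : Prop :=
  ∀ t ∈ Lg, ∀ S ⊆ Sm, S.card ≤ L → ∀ (x : Fin d → P) (q₀ q₁ : Fin d → Λ)
    (κ : (Finset (Fin d) → P) → ZMod p), (∀ j ∈ S, w j (q₀ j) ≠ 0 ∧ w j (q₁ j) ≠ 0) →
    OKp S q₀ q₁ → Shf (piV (Wc S x q₀ q₁)).range κ →
    ‖∑ u, w t u • 𝔼 a, Av (piV (Wc S x q₀ q₁)).range κ (piV (Wc S x q₀ q₁) (y ⟨t, u⟩ a))‖ ≤ η

end

section
variable (p : ℕ) [Fact p.Prime]

/-- statements about all linear data -/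
def AllNP (Q : ∀ (a b c e : ℕ), Ln p a b c e → Prop) : Prop :=
  ∀ (a b c e : ℕ) (N : Ln p a b c e), N.Ok → Q a b c e N

/-- the mass of isotropic sets of colours -/
def UnlP : Prop :=
  AllNP p fun a b c e N => (∀ s, PhP N s s = 0) ∧ ∀ U : Finset (ClP p a b c e),
    (∀ s ∈ U, VlP N s) → (∀ s ∈ U, ∀ s' ∈ U, PhP N s s' = 0) → ∑ s ∈ U, wqP N s.t ≤ 1 ∧
    (1 ≤ ∑ s ∈ U, wqP N s.t → ∀ s ∈ U, ∃ s' ∈ U, s'.t = s.t ∧ s'.y = 0)

/-- averages of characters -/
def RdP : Prop :=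
  ∀ (d : ℕ) (ν : MP p d → ℝ) (Lg : Finset (Fin d)) (η : ℝ), OscP ν Lg η →
    ∀ Φ : MP p d, (∀ i, Φ i i = 0) →
      ‖∑ r, (ν r : ℂ) * ZMod.stdAddChar (∑ i, ∑ j, r i j * Φ i j)‖ ≤
        if ∀ i ∈ Lg, ∀ j, Φ i j = 0 ∧ Φ j i = 0 then ∑ r, ν r else η

/-- the inequality with a factor of low complexity -/
def BoxP : Prop :=
  ∀ (d : ℕ) (U : Fin d → Type) [∀ j, Fintype (U j)] (w : ∀ j, U j → ℝ), Prob w →
    ∀ (T : Finset (Fin d)) (t : Fin d), t ∉ T → T.Nonempty →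
    ∀ (I A : Type) [Fintype I] [Fintype A] (f : I → (∀ j, U j) → A) (Θ : (∀ j, U j) → ℂ)
      (G : (∀ j, U j) → ZMod p) (ζ : ∀ j, U j → ℂ),
    (∀ i, ∃ s ∈ insert t T, ∀ q u, f i (Function.update q s u) = f i q) → (∀ q, ‖Θ q‖ ≤ 1) →
    (∀ q q', (∀ j ∉ insert t T, q j = q' j) → (∀ i, f i q = f i q') → Θ q = Θ q') →
    (∀ j u, ‖ζ j u‖ ≤ 1) →
    ‖Ex w fun q => (∏ j, ζ j (q j)) * (Θ q * ZMod.stdAddChar (G q))‖ ^ 2 ^ (T.card + 1) ≤
      ((Fintype.card A : ℝ) ^ Fintype.card I) ^ 2 ^ (T.card + 1) * Bx ZMod.stdAddChar w T t G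

/-- low complexity of the equations -/
def LcP : Prop :=
  AllT p fun P _ _ T _ _ _ => ∀ D : Gd p P, D.Ok T → ∀ (d : ℕ) (U : Fin d → Type) (l : ℕ)
    (S : Finset (Fin d)) (t : Fin d) (x : Fin d → P) (z : Fin d → V p (D.k (l + 1 + 1)))
    (φ : P → ZMod p), 1 ≤ l → S.card = l + 1 → t ∉ S → (∀ i ∈ S, z i = 0) →
    (∀ c ∈ T.F (l + 1), ∀ h, φ (c * h) = z t ⬝ᵥ D.b (l + 1) (tyOf D x t) (D.e (l + 1) c) + φ h) →
    ∀ y g (q q' : ∀ j, U j), DatN (insert t S) x y g q q' → Eqs y q T l x →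
      Eqs y q' T l x ∧ Ob y q D l x z - φ (Yw (g * y * g⁻¹) q (msk S x) t) =
        Ob y q' D l x z - φ (Yw (g * y * g⁻¹) q' (msk S x) t)

end

end Pool.Agent.MP_f68ac8_nt.Nd

end

section

namespace Pool.Agent.MP_f68ac8_nt.Nd
open Zv Zk Matrix Finset
open scoped BigOperators commutatorElement

theorem boxP (p : ℕ) [Fact p.Prime] (hG : GcsN) : BoxP p := by
  intro d U _ w hw T t ht hT I A _ _ f Θ G ζ hf hΘ hΘ' hζ
  classical
  obtain ⟨t', ht'⟩ := hT
  choose s hs hfs using hf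
  let s' : Fin d → Fin d := fun j => if j = t then t' else t
  have hs' : ∀ j, s' j ∈ insert t T := fun j => by
    by_cases h : j = t <;> simp [s', h, ht']
  have hs'' : ∀ j, j ≠ s' j := fun j => by
    by_cases h : j = t
    · simp only [s', h, if_true]
      rintro rfl
      exact ht ht'
    · simp [s', h]
  let Θ' : (I → A) → (∀ j, U j) → ℂ := fun δ q =>
    pick_NcGcs Θ fun q' => (∀ j ∉ insert t T, q' j = q j) ∧ ∀ i, f i q' = δ i
  let ind : (I → A) → I → (∀ j, U j) → ℂ := fun δ i q => if f i q = δ i then 1 else 0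
  let c : (I → A) → Fin d → (∀ j, U j) → ℂ := fun δ k q =>
    (∏ i ∈ univ with s i = k, ind δ i q) * (∏ j ∈ univ with s' j = k, ζ j (q j)) *
      (if k = t then Θ' δ q else 1)
  have h1 : ∀ δ, ‖Ex w fun q => (∏ k ∈ insert t T, c δ k q) * ZMod.stdAddChar (G q)‖ ^
      2 ^ (T.card + 1) ≤ Bx ZMod.stdAddChar w T t G := by
    intro δ
    refine hG (ZMod p) ZMod.stdAddChar d U w (fun x => by simp) hw T t ht (c δ) G
      (fun k q => ?_) fun k hk q u => ?_
    · simp only [c, norm_mul]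
      refine mul_le_one₀ (mul_le_one₀ (norm_prod_le_NcGcs _ _ fun i => ?_) (norm_nonneg _)
        (norm_prod_le_NcGcs _ _ fun j => hζ j _)) (norm_nonneg _) ?_
      · simp only [ind]
        split_ifs <;> simp
      · split_ifs
        · exact pick_le_NcGcs Θ hΘ _
        · simp
    · have e1 : ∏ i ∈ univ with s i = k, ind δ i (Function.update q k u) =
          ∏ i ∈ univ with s i = k, ind δ i q := by
        refine prod_congr rfl fun i hi => ?_
        obtain rfl := (mem_filter.1 hi).2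
        simp only [ind, hfs]
      have e2 : ∏ j ∈ univ with s' j = k, ζ j (Function.update q k u j) =
          ∏ j ∈ univ with s' j = k, ζ j (q j) := by
        refine prod_congr rfl fun j hj => ?_
        obtain rfl := (mem_filter.1 hj).2
        rw [Function.update_of_ne (hs'' j)]
      have e3 : Θ' δ (Function.update q k u) = Θ' δ q := by
        refine congrArg (pick_NcGcs Θ) (funext fun q' => propext (and_congr_left' ?_))
        refine forall₂_congr fun j hj => ?_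
        have : j ≠ k := fun h => hj (h ▸ hk)
        rw [Function.update_of_ne this]
      simp only [c, e1, e2, e3]
  have h2 : ∀ q, (∏ j, ζ j (q j)) * (Θ q * ZMod.stdAddChar (G q)) =
      ∑ δ : I → A, (1 : ℝ) • ((∏ k ∈ insert t T, c δ k q) * ZMod.stdAddChar (G q)) := by
    intro q
    have e : ∀ δ, ∏ k ∈ insert t T, c δ k q =
        (if (fun i => f i q) = δ then 1 else 0) * (∏ j, ζ j (q j)) * Θ' δ q := by
      intro δ
      simp only [c, prod_mul_distrib]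
      rw [prod_fiberwise_of_maps_to (fun i _ => hs i), prod_fiberwise_of_maps_to (fun j _ => hs' j),
        prod_ite_eq', if_pos (mem_insert_self t T)]
      congr 2
      by_cases h : (fun i => f i q) = δ
      · rw [if_pos h]
        exact prod_eq_one fun i _ => if_pos (congrFun h i)
      · rw [if_neg h]
        obtain ⟨i, hi⟩ := Function.ne_iff.1 h
        exact prod_eq_zero (mem_univ i) (if_neg hi)
    have e' : Θ' (fun i => f i q) q = Θ q :=
      pick_eq_NcGcs Θ _ q ⟨fun _ _ => rfl, fun _ => rfl⟩ fun y hy => hΘ' y q hy.1 hy.2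
    simp only [e, one_smul, ite_mul, zero_mul, one_mul, sum_ite_eq, mem_univ, if_true, e']
    ring
  simp only [h2]
  rw [ex_sum_ZaGcs]
  simp only [one_smul]
  obtain ⟨n, hn⟩ : ∃ n, 2 ^ (T.card + 1) = n + 1 :=
    Nat.exists_eq_succ_of_ne_zero (pow_ne_zero _ two_ne_zero)
  rw [hn] at h1 ⊢
  refine (pow_le_pow_left₀ (norm_nonneg _) (norm_sum_le _ _) _).trans ?_
  refine (pow_sum_le_card_mul_sum_pow (fun δ _ => norm_nonneg _) n).trans ?_
  refine (mul_le_mul_of_nonneg_left (sum_le_card_nsmul _ _ _ fun δ _ => h1 δ)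
    (by positivity)).trans (le_of_eq ?_)
  rw [nsmul_eq_mul, card_univ, Fintype.card_fun]
  push_cast
  ring

theorem lcP (p : ℕ) [Fact p.Prime] (hC : CornStmt) : LcP p := by
  intro P _ _ T L l0 n hT D hD d U l S t x z φ hl hS ht hz hφ y g q q' hE hq
  have hF := hT.ns
  have h1 := hT.one
  have hm : 1 ≤ l + 1 := Nat.le_add_left 1 l
  have hm' : 1 ≤ l + 1 + 1 := Nat.le_add_left 1 _
  have hcard : (insert t S).card = l + 1 + 1 := by rw [Finset.card_insert_of_notMem ht, hS]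
  have econg : ∀ i, 1 ≤ i → ∀ a ∈ T.F i, ∀ b : P, a⁻¹ * b ∈ T.F (i + 1) →
      D.e i b = D.e i a := by
    intro i hi a ha b hb
    have hb' := hF.anti i (i + 1) hi (Nat.le_succ i) hb
    have := hD.add i hi a ha _ hb'
    rw [mul_inv_cancel_left, (hD.zero i hi _ hb').2 hb, add_zero] at this
    exact this
  have hc : ∀ i, (Yw y q' x i)⁻¹ * Yw y q x i ∈ T.F (l + 1) := by
    intro i
    obtain ⟨R, hR, hRc⟩ := Finset.exists_subset_card_eq (s := (insert t S).erase i) (n := l + 1)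
      (by have := Finset.pred_card_le_card_erase (s := insert t S) (a := i); omega)
    have := full_NcLc hC hF h1 y q q' x i R fun J hJ ⟨s, hs, hs'⟩ =>
      (hE i J (sub_NcLc (hR.trans (Finset.erase_subset _ _)) hJ)
        ⟨s, Finset.mem_of_mem_erase (hR hs), hs', Finset.ne_of_mem_erase (hR hs)⟩).1
    rwa [hRc, max_eq_right hm] at this
  have hsp : ∀ i, ⁅x i, Yw y q x i⁆ = ⁅x i, Yw y q' x i⁆ *
      (⁅Yw y q' x i, ⁅x i, (Yw y q' x i)⁻¹ * Yw y q x i⁆⁆ *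
        ⁅x i, (Yw y q' x i)⁻¹ * Yw y q x i⁆) := fun i => by
    rw [← split_ZkLc, mul_inv_cancel_left]
  have hw : ∀ i, ⁅x i, (Yw y q' x i)⁻¹ * Yw y q x i⁆ ∈ T.F (l + 1 + 1) := fun i =>
    comm_ZkLc hF h1 hm _ (hc i)
  have hw2 : ∀ i, ⁅Yw y q' x i, ⁅x i, (Yw y q' x i)⁻¹ * Yw y q x i⁆⁆ ∈ T.F (l + 1 + 1 + 1) :=
    fun i => comm_ZkLc hF h1 hm' _ (hw i)
  have hw3 : ∀ i, ⁅Yw y q' x i, ⁅x i, (Yw y q' x i)⁻¹ * Yw y q x i⁆⁆ ∈ T.F (l + 1 + 1) :=
    fun i => hF.anti _ _ hm' (Nat.le_succ _) (hw2 i)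
  have hq' : Eqs y q' T l x := fun i => by
    have := hq i
    rw [hsp i] at this
    exact (Subgroup.mul_mem_cancel_right _ (mul_mem (hw3 i) (hw i))).1 this
  refine ⟨hq', ?_⟩
  have he : ∀ i, D.e (l + 1 + 1) ⁅x i, Yw y q x i⁆ = D.e (l + 1 + 1) ⁅x i, Yw y q' x i⁆ +
      D.b (l + 1) (tyOf D x i) (D.e (l + 1) ((Yw y q' x i)⁻¹ * Yw y q x i)) := fun i => by
    rw [hsp i, hD.add _ hm' _ (hq' i) _ (mul_mem (hw3 i) (hw i)), hD.add _ hm' _ (hw3 i) _ (hw i),
      (hD.zero _ hm' _ (hw3 i)).2 (hw2 i), zero_add, hD.br _ hm _ _ (hc i)]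
    rfl
  have hOb : Ob y q D l x z = Ob y q' D l x z +
      z t ⬝ᵥ D.b (l + 1) (tyOf D x t) (D.e (l + 1) ((Yw y q' x t)⁻¹ * Yw y q x t)) := by
    simp only [Ob, he, dotProduct_add, Finset.sum_add_distrib]
    congr 1
    refine Finset.sum_eq_single t (fun i _ hit => ?_) (fun h => absurd (Finset.mem_univ t) h)
    by_cases hi : i ∈ S
    · rw [hz i hi, zero_dotProduct]
    · have hi' : i ∉ insert t S := fun h => (Finset.mem_insert.1 h).elim hit hi
      have := full_NcLc hC hF h1 y q q' x i (insert t S) fun J hJ ⟨s, hs, hs'⟩ =>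
        (hE i J hJ ⟨s, hs, hs', fun h => hi' (h ▸ hs)⟩).1
      rw [hcard, max_eq_right hm'] at this
      rw [(hD.zero _ hm _ (hc i)).2 this, map_zero, dotProduct_zero]
  have hy : ∀ J : Finset (Fin d), J ⊆ S ∨ Sᶜ ⊆ J → (∃ s ∈ S, s ∉ J) →
      Yw y q (msk J x) t = Yw y q' (msk J x) t ∧ Yw g q (msk J x) t = Yw g q' (msk J x) t :=
    fun J hJ ⟨s, hs, hs'⟩ => hE t J (sub_NcLc (Finset.subset_insert t S) hJ)
      ⟨s, Finset.mem_insert_of_mem hs, hs', fun h => ht (h ▸ hs)⟩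
  have ha := low_NcLc hC hF h1 y q q' x t S fun J hJ hJ' => (hy J hJ hJ').1
  have hγ := low_NcLc hC hF h1 g q q' x t S fun J hJ hJ' => (hy J hJ hJ').2
  have hac := mix_NcLc hC hF h1 y q q' x t t S ht fun J hJ hJ' => (hy J hJ hJ').1
  rw [hS, max_eq_right hm] at ha hγ
  rw [hS] at hac
  have hu := conj_ZkLc hF h1 hm hγ ha
  have eZ : ∀ r : ∀ j, U j, Yw (g * y * g⁻¹) r (msk S x) t =
      Yw g r (msk S x) t * Yw y r (msk S x) t * (Yw g r (msk S x) t)⁻¹ := fun r => by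
    simp only [Yw, Pi.mul_apply, Pi.inv_apply, map_mul, map_inv]
  rw [← eZ, ← eZ] at hu
  set Z := Yw (g * y * g⁻¹) q (msk S x) t
  set Z' := Yw (g * y * g⁻¹) q' (msk S x) t
  have hum : Z * Z'⁻¹ ∈ T.F (l + 1) := by
    have := hF.anti _ _ hm (Nat.le_succ _) hu
    exact (Subgroup.inv_mem_iff _).1 ((Subgroup.mul_mem_cancel_right _ ha).1 this)
  have e1 := econg _ hm _ hum _ hu
  have e2 := econg _ hm _ ha _ hac
  have e3 := hφ _ hum Z'
  rw [inv_mul_cancel_right, ← e1, ← e2] at e3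
  rw [hOb, e3]
  ring

end Pool.Agent.MP_f68ac8_nt.Nd

end
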