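import Mathlib
import Pool.Agent.Mg.Fe23604m.G3360bb
import Pool.Agent.Mg.Fe23604m.G8fa719
import Pool.Agent.Mg.Fe23604m.Ge40551
import Pool.Agent.MP_f68ac8_nt.NkDefs

set_option linter.all false

/-! Cyclic fields of odd prime degree ordered by the discriminant. -/

namespace Pool.Agent.MP_f68ac8_nt.Nd

open Ev Pv Sv Zv Zk NumberField Finset Filter
open scoped Topology BigOperators commutatorElement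

section
variable {p : ℕ} [Fact p.Prime]

/-- averages of additive characters over the units -/
noncomputable def fP (x : ZMod p) : ℂ := 𝔼 u : (ZMod p)ˣ, ZMod.stdAddChar ((u : ZMod p) * x)

variable (χ₀ : GQ →* Cp p)

/-- nontrivial characters that are unramified outside `p` -/
structure Wd : Prop where
  nhds : (χ₀.ker : Set GQ) ∈ 𝓝 1
  ne : ∃ g, χ₀ g ≠ 1
  unr : ∀ P : Ideal OQ, P.IsMaximal → (p : OQ) ∉ P → ∀ g ∈ P.inertia GQ, χ₀ g = 1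

/-- the characters attached to the primes -/
noncomputable def cq (l : ℕ) : GQ →* Cp p := if l = p then χ₀ else ch p l

/-- their values at Frobenius elements -/
noncomputable def lq (l m : ℕ) : ZMod p := (cq χ₀ m (Classical.epsilon (Fr l))).toAdd

/-- products of these characters -/
noncomputable def chq {ι : Type} [Fintype ι] (l : ι → ℕ) (a : ι → (ZMod p)ˣ) : GQ →* Cp p :=
  ∏ j, cq χ₀ (l j) ^ (a j : ZMod p).val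

/-- the normalised matrix of linking numbers -/
noncomputable def lkq {d : ℕ} (l : Fin d → ℕ) (u a : Fin d → (ZMod p)ˣ) : MP p d :=
  fun i j => u i * (lq χ₀ (l i) (l j) * a j)

open Classical in
/-- the proportion of the characters ramified at the prime factors of `n` with a property -/
noncomputable def bt (B : (GQ →* Cp p) → Prop) (n : ℕ) : ℝ :=
  𝔼 a : n.primeFactors → (ZMod p)ˣ, if B (chq χ₀ (↑) a) then 1 else 0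

open Classical in
/-- the distribution of the matrix -/
noncomputable def nuP {Λ : Finset ℕ} {d : ℕ} (w : Fin d → Λ → ℝ) (c y : ℝ) (r : MP p d) : ℝ :=
  𝔼 x : (Fin d → (ZMod p)ˣ) × (Fin d → (ZMod p)ˣ), Ex (U := fun _ => Λ) w fun q =>
    if Function.Injective q ∧ lkq χ₀ (vl q) x.1 x.2 = r then kap c y q else 0

/-- combinations of the characters -/
noncomputable def Aq (R : Finset ℕ) (x : ℕ → ZMod p) (g : GQ) : ZMod p :=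
  ∑ m ∈ R, x m * (cq χ₀ m g).toAdd

/-- combinations of Kummer characters -/
noncomputable def Bq (R : Finset ℕ) (y : ℕ → ZMod p) (g : GQ) : ZMod p :=
  ∑ m ∈ R, y m * KK p m g

/-- local data at a prime -/
structure LoP (l : ℕ) (σ τ : GQ) : Prop where
  ex : ∃ P : Ideal OQ, P.IsMaximal ∧ (l : OQ) ∈ P ∧ IsFrob l P σ ∧ τ ∈ P.inertia GQ
  ram : cq χ₀ l τ ≠ 1

variable (p) in
/-- open normal subgroups of `p`-power index -/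
structure OpP (N : Subgroup GQ) : Prop where
  nrm : N.Normal
  nhds : (N : Set GQ) ∈ 𝓝 1
  pg : ∀ g : GQ, ∃ k, g ^ p ^ k ∈ N

/-- subgroups with restricted ramification -/
structure AxP (R : Finset ℕ) (N : Subgroup GQ) : Prop extends OpP p N where
  unr : ∀ P : Ideal OQ, P.IsMaximal → (∀ l ∈ R, l ≠ p → (l : OQ) ∉ P) → ∀ g ∈ P.inertia GQ,
    χ₀ g = 1 → g ∈ N

/-- generators of the Galois group modulo `N` -/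
structure GnP {Λ : Finset ℕ} (σ τ : Λ → GQ) (N : Subgroup GQ) : Prop where
  wd : Wd χ₀
  pri : ∀ l ∈ Λ, Pq p l
  mem : p ∈ Λ
  loc : ∀ u : Λ, LoP χ₀ u (σ u) (τ u)
  adm : AxP χ₀ Λ N
  gen : ∀ g, ∃ w, (FreeGroup.lift τ w)⁻¹ * g ∈ N

end

/-- the words -/
def wrd {d : ℕ} {Λ : Type} (n : Lr d Λ → ℕ) (v : FreeGroup Λ) : FreeGroup (Lr d Λ) :=
  sb n (sbs d v)

/-- equidistribution of the large primes for a family of test functions -/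
def Par.Eqv (Q : Par) (c η : ℝ) (T : ℕ → (GQ → ℂ) → Prop) : Prop :=
  ∀ τ : ℝ, |τ| ≤ c → ∀ σ : ℕ → GQ, (∀ l ∈ Q.lg, Fr l (σ l)) → ∀ (e : ℕ) (φ : GQ → ℂ), T e φ →
    ‖∑ l ∈ Q.lg, (wl Q.s Q.h Q.k l : ℝ) * tw τ l * 𝔼 a : Exm e, φ (σ l ^ (a.1 : ℕ))‖ ≤ η

/-- the parameters as functions of `X` -/
noncomputable def parP (p X : ℕ) (δ : ℝ) (k : ℕ) (E : Finset ℕ) (p₀ X' : ℕ) : Par where
  s := 1 + 1 / Real.log X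
  h := Real.log X ^ (-δ)
  Z := Real.exp (LL X ^ 3)
  Y := Real.exp (Real.log X ^ (δ / 8))
  k := k
  E := E
  Λ := (range (X' + 1)).filter fun l => Pq p l ∧ l ≠ p₀

open Classical in
/-- the estimate for tuples -/
def EstJ (Q : Par) (c : ℝ) (β : ℕ → ℝ) (D δ : ℝ) (m₀ : ℕ) (ε C ξ : ℝ) : Prop :=
  ∀ (y : ℝ) (d : ℕ) (μ : Fin d → Fin 4), (d : ℝ) ≤ D → Thin δ m₀ (mk μ 1) (mk μ 3) →
    (Ex (U := fun _ => Q.Λ) (wm Q.Λ Q.W μ) fun q =>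
      if Function.Injective q then β (np q) * kap c y q else 0) ≤
    ε * Ex (U := fun _ => Q.Λ) (wm Q.Λ Q.W μ) (kap c y) + C ^ (d + 1) * ξ

/-- weights with small mean value -/
def SpW (p : ℕ) (β : ℕ → ℝ) (ε : ℝ) : Prop :=
  ∀ᶠ X : ℕ in atTop, ∑ n ∈ Icc 1 X with Squarefree n, gp p n * β n ≤ ε * X

section
variable (p : ℕ) [Fact p.Prime]

/-- the properties of the parameters that do not involve `X` -/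
structure OkP (Q : Par) (c : ℝ) (n r : ℕ) (D η : ℝ) : Prop where
  pri : ∀ l ∈ Q.Λ, Pq p l
  mem : p ∈ Q.ti
  le : Q.Z ≤ Q.Y
  nn : ∀ m l, 0 ≤ Q.W m l
  sum : ∀ l ∈ Q.Λ, ∑ m, Q.W m l = (l : ℝ) ^ (-Q.s)
  pos : 0 < ms Q.Λ Q.W 0
  one : ∀ m, m ≠ 0 → 1 ≤ ms Q.Λ Q.W m
  wle : ∀ m l, m ≠ 0 → Q.W m l ≤ η
  bil : ∀ (m m' : Fin 4) (a b : ℕ → ℂ) (u v : ZMod p), m ≠ 0 → m' ≠ 0 → u ≠ 0 ∨ v ≠ 0 →
    (∀ l ∈ Q.Λ, ‖a l‖ ≤ Q.W m l) → (∀ l ∈ Q.Λ, ‖b l‖ ≤ Q.W m' l) →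
    ‖∑ l ∈ Q.Λ, ∑ l' ∈ Q.Λ, if l = l' then 0 else
      a l * b l' * ZMod.stdAddChar (u * lk p l l' + v * lk p l' l)‖ ≤ η
  eqs : ∀ R ⊆ Q.sm, R.card ≤ r → ∀ N, AdQ p n R N → Q.Eqv 0 η fun e φ => Tf N e φ ∧ p - 1 ∣ e
  eqt : ∀ R ⊆ Q.ti, (R.card : ℝ) ≤ D → ∀ N, AdE p (insert p R) N →
    Q.Eqv c η fun e φ => Tf0 N e φ ∧ ∀ g ∉ Gz p, φ g = 0

/-! ### the analytic part -/

/-- the characters of conductor a power of `p` -/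
def WdJ : Prop := {χ₀ : GQ →* Cp p | Wd χ₀}.Finite ∧ ∃ χ₀ : GQ →* Cp p, Wd χ₀

/-- Kummer characters -/
def KumJ : Prop :=
  (∀ l, Zk.P1 p l → ∃ σ, Fr l σ ∧ ∀ m : ℕ, m.Prime → m ≠ l → lk p m l = KK p m σ) ∧
  ∀ χ₀ : GQ →* Cp p, Wd χ₀ → ∀ (R : Finset ℕ) (x y : ℕ → ZMod p), (∀ m ∈ R, Pq p m) →
    (∀ g h, Aq χ₀ R x (g * h) = Aq χ₀ R x g + Aq χ₀ R x h) ∧
    (∀ g ∈ Gz p, ∀ h, Bq R y (g * h) = Bq R y g + Bq R y h) ∧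
    (∀ t, ∀ g ∈ Gz p, Bq R y (t * g * t⁻¹) = cyc (Ω := Qa) p t * Bq R y g) ∧
    (∃ N, AdE p (insert p R) N ∧ ∀ g, g ∈ N ↔ g ∈ Gz p ∧ Aq χ₀ R x g = 0 ∧ Bq R y g = 0) ∧
    ((∃ m ∈ R, x m ≠ 0 ∨ y m ≠ 0) → ∃ z ∈ Gz p,
      (Aq χ₀ R x z ≠ 0 ∧ Bq R y z = 0) ∨ (Aq χ₀ R x z = 0 ∧ Bq R y z ≠ 0))

/-- bilinear sums -/
def BilJ : Prop :=
  ∃ (r C : ℝ) (e : ℕ), 0 < r ∧ 0 < C ∧ ∀ (s Z : ℝ) (A : Finset ℕ) (a b : ℕ → ℂ) (u v : ZMod p),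
    1 < s → s ≤ 1 + r → 2 ≤ Z → u ≠ 0 ∨ v ≠ 0 →
    (∀ l ∈ A, Zk.P1 p l ∧ Z ≤ l ∧ ‖a l‖ ≤ (l : ℝ) ^ (-s) ∧ ‖b l‖ ≤ (l : ℝ) ^ (-s)) →
    ‖∑ l ∈ A, ∑ l' ∈ A, if l = l' then 0 else
      a l * b l' * ZMod.stdAddChar (u * lk p l l' + v * lk p l' l)‖ ≤
      C / (s - 1) ^ e * Real.exp (-√(Real.log Z))

/-- upper bounds for the masses -/
def MupJ : Prop :=
  ∀ (δ : ℝ) (k : ℕ), 0 < δ → δ ≤ 1 / 100 → ∀ᶠ X : ℕ in atTop, ∀ (E : Finset ℕ) (p₀ : ℕ),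
    (∀ X', let Q := parP p X δ k E p₀ X'
      Q.Z ≤ Q.Y ∧ (p : ℝ) ≤ Q.Z ∧ (∀ m l, 0 ≤ Q.W m l) ∧
      (∀ l ∈ Q.Λ, ∑ m, Q.W m l = (l : ℝ) ^ (-Q.s)) ∧
      (∀ m l, Q.W m l ≤ (l : ℝ) ^ (-Q.s)) ∧ (∀ m l, m ≠ 0 → Q.W m l ≤ 1 / Q.Z) ∧
      ∑ m, ms Q.Λ Q.W m ≤ 2 * LL X ∧ ∑ m with m ≠ 3, ms Q.Λ Q.W m ≤ 3 * δ * LL X) ∧
    ∃ X', X ≤ X' ∧ let Q := parP p X δ k E p₀ X'
      ∃ A : Finset ℕ, (∀ l ∈ A, l.Prime ∧ Q.Y < l ∧ l ≠ p₀) ∧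
        A.filter (fun l => l ≡ 1 [MOD p]) = Q.lg ∧
        ∑' l, wl Q.s Q.h k l ≤ ∑ l ∈ A, wl Q.s Q.h k l + Real.log X ^ (-((k + 1) * δ / 2))

/-- lower bounds for the masses -/
def MloJ : Prop :=
  ∀ (δ : ℝ) (k r : ℕ), 0 < δ → δ ≤ 1 / 100 → ∀ᶠ X : ℕ in atTop,
    ∀ (E : Finset ℕ) (p₀ X' : ℕ), E.card ≤ r → X ≤ X' → p < p₀ → let Q := parP p X δ k E p₀ X'
      p ∈ Q.ti ∧ 0 < ms Q.Λ Q.W 0 ∧ (∀ m, m ≠ 0 → 1 ≤ ms Q.Λ Q.W m) ∧ (∀ l ∈ Q.sm, l ≤ X) ∧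
      δ * LL X / (16 * p) ≤ ∑ l ∈ Q.sm, (1 : ℝ) / l

/-- existence of parameters -/
def ParJ : Prop :=
  ∃ c : ℝ, 0 < c ∧ ∀ (n r p₁ : ℕ) (δ A : ℝ), 0 < δ → δ ≤ 1 / 100 → ∀ᶠ X : ℕ in atTop,
    ∃ (Q : Par) (p₀ : ℕ), p₁ ≤ p₀ ∧ OkP p Q c n r (LL X ^ 2) (Real.log X ^ (-A)) ∧
      Q.s = 1 + 1 / Real.log X ∧ (∀ l, Pq p l → l ≠ p₀ → l ≤ X → l ∈ Q.Λ) ∧
      ∑ m, ms Q.Λ Q.W m ≤ 2 * LL X ∧ ∑ m with m ≠ 3, ms Q.Λ Q.W m ≤ 3 * δ * LL X ∧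
      (∀ l ∈ Q.sm, l ≤ X) ∧ δ * LL X / (16 * p) ≤ ∑ l ∈ Q.sm, (1 : ℝ) / l

/-- from estimates for tuples to mean values -/
def DensJ : Prop :=
  ∃ c : ℝ, 0 < c ∧ ∀ ε : ℝ, 0 < ε → ∃ ε' : ℝ, 0 < ε' ∧ ∀ (β : ℕ → ℝ) (n r m₀ a : ℕ) (δ C : ℝ),
    (∀ n, 0 ≤ β n ∧ β n ≤ 1) → 0 < δ → 1 ≤ C →
    (∀ (Q : Par) (D ξ : ℝ), 0 ≤ ξ → ξ ≤ 1 → OkP p Q c n r D (ξ ^ 2 ^ a) →
      EstJ Q c β D δ m₀ ε' C ξ) → SpW p β ε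

/-! ### the Galois part -/

/-- the local behaviour of the characters -/
def LocJ : Prop :=
  ∀ χ₀ : GQ →* Cp p, Wd χ₀ → (∀ l, Pq p l → ((cq χ₀ l).ker : Set GQ) ∈ 𝓝 1 ∧
      ∀ P : Ideal OQ, P.IsMaximal → (l : OQ) ∉ P → ∀ g ∈ P.inertia GQ, cq χ₀ l g = 1) ∧
    (∀ l m : ℕ, l.Prime → Pq p m → l ≠ m → ∀ σ, Fr l σ → (cq χ₀ m σ).toAdd = lq χ₀ l m) ∧
    (∀ l m : ℕ, m ≠ p → lq χ₀ l m = lk p l m) ∧ ∀ l, Pq p l → ∃ σ τ, LoP χ₀ l σ τ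

/-- inertia groups in `p`-extensions -/
def TamJ : Prop :=
  (∀ χ₀ : GQ →* Cp p, Wd χ₀ → ∀ (l : ℕ) (σ τ : GQ), Pq p l → LoP χ₀ l σ τ → ∀ N, OpP p N →
    (l = p → ∀ P : Ideal OQ, P.IsMaximal → (l : OQ) ∈ P → ∀ g ∈ P.inertia GQ, χ₀ g = 1 →
      g ∈ N) → τ ∈ N → ∀ P : Ideal OQ, P.IsMaximal → (l : OQ) ∈ P → ∀ g ∈ P.inertia GQ, g ∈ N) ∧
  ∀ (l : ℕ) (P : Ideal OQ) (σ : GQ), l.Prime → IsFrob l P σ → ∀ g ∈ P.inertia GQ,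
    σ * g * σ⁻¹ ∈ P.inertia GQ

/-- the weights of the marks -/
def WmJ : Prop :=
  ∀ (Q : Par) (c : ℝ) (n r : ℕ) (D η : ℝ), OkP p Q c n r D η → 0 ≤ η ∧
    (∀ l ∈ Q.lg, Zk.P1 p l ∧ l ∉ Q.ti) ∧ ∀ (d : ℕ) (μ : Fin d → Fin 4),
    Prob (U := fun _ => Q.Λ) (wm Q.Λ Q.W μ) ∧ Disjoint (mk μ 1) (mk μ 3) ∧
    (∀ j u, μ j ≠ 0 → wm Q.Λ Q.W μ j u ≤ Q.W (μ j) u ∧ wm Q.Λ Q.W μ j u ≤ η) ∧
    (∀ j u, wm Q.Λ Q.W μ j u ≠ 0 → (μ j = 0 → u.1 ∈ Q.ti) ∧ (μ j = 1 → u.1 ∈ Q.sm) ∧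
      (μ j ≠ 0 → u.1 ≠ p)) ∧
    ∀ (χ₀ : GQ →* Cp p) (c' y : ℝ),
      (∀ f : MP p d → ℝ, ∑ r', nuP χ₀ (wm Q.Λ Q.W μ) c' y r' * f r' =
        𝔼 x : (Fin d → (ZMod p)ˣ) × (Fin d → (ZMod p)ˣ),
          Ex (U := fun _ => Q.Λ) (wm Q.Λ Q.W μ) fun q =>
            if Function.Injective q then kap c' y q * f (lkq χ₀ (vl q) x.1 x.2) else 0) ∧
      ∀ f : MP p d → ℂ, ∑ r', (nuP χ₀ (wm Q.Λ Q.W μ) c' y r' : ℂ) * f r' =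
        Ex (U := fun _ => Q.Λ) (wm Q.Λ Q.W μ) fun q => (kap c' y q : ℂ) *
          𝔼 x : (Fin d → (ZMod p)ˣ) × (Fin d → (ZMod p)ˣ),
            if Function.Injective q then f (lkq χ₀ (vl q) x.1 x.2) else 0

/-- characters of tiny conductor -/
def TinyJ : Prop :=
  ∀ χ₀ : GQ →* Cp p, Wd χ₀ → ∀ (Q : Par) (c : ℝ) (n r : ℕ) (D η : ℝ), OkP p Q c n r D η →
    ∀ τ : ℝ, |τ| ≤ c → ∀ R ⊆ Q.ti, (R.card : ℝ) ≤ D → ∀ x y : ℕ → ZMod p,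
    (∃ m ∈ R, x m ≠ 0 ∨ y m ≠ 0) →
    ‖∑ l ∈ Q.Λ, (Q.W 3 l : ℂ) * tw τ l *
      (fP (∑ m ∈ R, x m * lq χ₀ l m) * fP (∑ m ∈ R, y m * lq χ₀ m l))‖ ≤ η

open Classical in
/-- the characters with given ramification -/
def ChnJ : Prop :=
  (∀ (χ₀ : GQ →* Cp p) (B : (GQ →* Cp p) → Prop), (∀ n, 0 ≤ bt χ₀ B n ∧ bt χ₀ B n ≤ 1) ∧
    ∀ (Λ : Finset ℕ) (d : ℕ) (q : Fin d → Λ), (∀ l ∈ Λ, l.Prime) → Function.Injective q →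
      bt χ₀ B (np q) = 𝔼 a : Fin d → (ZMod p)ˣ, if B (chq χ₀ (vl q) a) then 1 else 0) ∧
  (∀ χ₀ : GQ →* Cp p, Wd χ₀ → ∀ S : Finset ℕ, (∀ l ∈ S, Pq p l) →
    (∀ a : S → (ZMod p)ˣ, chq χ₀ (↑) a ∈ CycCh p S) ∧
    Function.Injective fun a : S → (ZMod p)ˣ => chq χ₀ (↑) a) ∧
  ∀ S : Finset ℕ, (∀ l ∈ S, l.Prime) → ∀ χ ∈ CycCh p S, (∀ l ∈ S, Pq p l) ∧
    ∃ χ₀ : GQ →* Cp p, Wd χ₀ ∧ ∃ a : S → (ZMod p)ˣ, χ = chq χ₀ (↑) a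

/-- rules for mean values -/
def SpJ : Prop :=
  ∀ χ₀ : GQ →* Cp p, Wd χ₀ →
    (∀ (B B' : (GQ →* Cp p) → Prop) (ε ε' : ℝ), ε < ε' →
      (∀ χ : GQ →* Cp p, IsOpen (χ.ker : Set GQ) → (∃ g, χ g ≠ 1) → B' χ → B χ) →
      SpW p (bt χ₀ B) ε → SpW p (bt χ₀ B') ε') ∧
    ∀ (J : Type) [Fintype J] (B : J → (GQ →* Cp p) → Prop) (e : J → ℝ),
      (∀ j, SpW p (bt χ₀ (B j)) (e j)) → SpW p (bt χ₀ fun χ => ∃ j, B j χ) (∑ j, e j)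

/-- counting characters -/
def CntJ : Prop :=
  (∃ W : Finset (GQ →* Cp p), (∀ χ₀ ∈ W, Wd χ₀) ∧ ∀ (B : (GQ →* Cp p) → Prop) (X : ℕ),
    {χ | ∃ n ∈ Icc 1 X, Squarefree n ∧ χ ∈ CycCh p n.primeFactors ∧ B χ}.Finite ∧
    ({χ | ∃ n ∈ Icc 1 X, Squarefree n ∧ χ ∈ CycCh p n.primeFactors ∧ B χ}.ncard : ℝ) ≤
      ∑ χ₀ ∈ W, ∑ n ∈ Icc 1 X with Squarefree n, gp p n * bt χ₀ B n) ∧
  ∀ X : ℕ, ∑ n ∈ Icc 1 X with Squarefree n ∧ ¬ p ∣ n, gp p n ≤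
    {χ | ∃ n ∈ Icc 1 X, Squarefree n ∧ χ ∈ CycCh p n.primeFactors ∧ ¬ p ∣ n}.ncard

/-- fields and characters -/
def FldJ : Prop :=
  (∀ (K : IntermediateField ℚ Qa) [NumberField K], IsGalois ℚ K → Module.finrank ℚ K = p →
    ∃ (χ : GQ →* Cp p) (n : ℕ), χ.ker = K.fixingSubgroup ∧ Squarefree n ∧
      χ ∈ CycCh p n.primeFactors ∧ n ^ (p - 1) ≤ (discr K).natAbs) ∧
  (∀ (n : ℕ) (χ : GQ →* Cp p), Squarefree n → ¬ p ∣ n → χ ∈ CycCh p n.primeFactors →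
    (∃ g, χ g ≠ 1) → ∃ (K : IntermediateField ℚ Qa) (_ : NumberField K), IsGalois ℚ K ∧
      Module.finrank ℚ K = p ∧ K.fixingSubgroup = χ.ker ∧ (discr K).natAbs ≤ n ^ (p - 1)) ∧
  ∀ H : Subgroup GQ, {χ : GQ →* Cp p | χ.ker = H}.Finite ∧
    {χ : GQ →* Cp p | χ.ker = H}.ncard ≤ p

end

end Pool.Agent.MP_f68ac8_nt.Nd
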