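import Pool.Agent.Mg.Fe23604m.Gf58573
import Pool.Agent.MP_e23604_nt.Mordell
import Pool.Agent.MP_e23604_nt.BTors
import Pool.Agent.MP_e23604_nt.BH90

set_option linter.all false

section

/-!
Rank and 3-primary part of Sha from the descent data.
-/

open scoped Classical
open WeierstrassCurve

set_option linter.unusedSectionVars false

noncomputable section

namespace Pool.Agent.MP_e23604_nt

lemma finrank_congr {W W' : WeierstrassCurve ℚ} (e : W = W') (d d' : DecidableEq ℚ) :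
    (letI := d; Module.finrank ℤ W.toAffine.Point) =
      (letI := d'; Module.finrank ℤ W'.toAffine.Point) := by
  subst e
  cases Subsingleton.elim d d'
  rfl

attribute [local instance 2000] decQ

end Pool.Agent.MP_e23604_nt

end
end

section

/-!
Definitions for the 2-descent on the curve y^2 = x^3 + D x.
-/

open WeierstrassCurve
open scoped Classical

noncomputable section

namespace Pool.Agent.MP_e23604_nt.P

/-- The curve y^2 = x^3 + D x. -/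
def EE (D : ℚ) : WeierstrassCurve ℚ := ⟨0, 0, 0, D, 0⟩

variable {D : ℚ} {F : Type} [Field F] [CharZero F]

def px : Pts (EE D) F → F
  | .zero => 0
  | .some x _ _ => x

def py : Pts (EE D) F → F
  | .zero => 0
  | .some _ y _ => y

/-- The point with the given coordinates, or zero. -/
def pt2 (D : ℚ) (x y : F) : Pts (EE D) F :=
  if h : ((EE D).baseChange F).toAffine.Nonsingular x y then .some x y h else 0

/-- The rational point of order two. -/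
def T2 (D : ℚ) (F : Type) [Field F] [CharZero F] : Pts (EE D) F := pt2 D 0 0

def In2 (S : Pts (EE D) F) : Prop := S = 0 ∨ S = T2 D F

def LocA (F : Type) [Field F] [CharZero F] (D d : ℚ) : Prop :=
  (∃ z : F, (d : F) = z ^ 2) ∨ (∃ z : F, (d : F) = D * z ^ 2) ∨
    ∃ x y z : F, x ≠ 0 ∧ y ^ 2 = x ^ 3 + D * x ∧ (d : F) = x * z ^ 2

def LocB (F : Type) [Field F] [CharZero F] (D e : ℚ) : Prop :=
  (∃ z : F, (e : F) = z ^ 2) ∨ (∃ z : F, (e : F) = -D * z ^ 2) ∨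
    ∃ x y z : F, x ≠ 0 ∧ y ^ 2 = x ^ 3 - 4 * D * x ∧ (e : F) = x * z ^ 2

/-- The data of a successful descent. -/
structure Desc2 (D x1 y1 x2 y2 : ℚ) : Prop where
  pos : 0 < D
  on1 : y1 ^ 2 = x1 ^ 3 + D * x1
  on2 : y2 ^ 2 = x2 ^ 3 - 4 * D * x2
  HA : ∀ d : ℚ, d ≠ 0 → LocA ℝ D d → (∀ (p : ℕ) [Fact p.Prime], LocA ℚ_[p] D d) →
    ∃ z : ℚ, d = z ^ 2 ∨ d = D * z ^ 2 ∨ d = x1 * z ^ 2 ∨ d = D * x1 * z ^ 2
  HB : ∀ e : ℚ, e ≠ 0 → (∀ (p : ℕ) [Fact p.Prime], LocB ℚ_[p] D e) →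
    ∃ z : ℚ, e = z ^ 2 ∨ e = -D * z ^ 2 ∨ e = x2 * z ^ 2 ∨ e = -D * x2 * z ^ 2
  n1 : ¬ IsSquare D
  n2 : ¬ IsSquare x1
  n3 : ¬ IsSquare (D * x1)
  n4 : ¬ IsSquare x2
  n5 : ¬ IsSquare (-D * x2)

end Pool.Agent.MP_e23604_nt.P

end
end

section

/-!
Points of the curve y^2 = x^3 + D x and its 2-torsion.
-/

open WeierstrassCurve
open scoped Classical

set_option linter.unusedSectionVars false

noncomputable section

namespace Pool.Agent.MP_e23604_nt.P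

attribute [local instance 2000] decQ

variable {D : ℚ} {F F' : Type} [Field F] [CharZero F] [Field F'] [CharZero F']

theorem xCCur_Δ (D : ℚ) : (EE D).Δ = -64 * D ^ 3 := by
  simp only [EE, Δ, b₂, b₄, b₆, b₈]; ring

theorem xCCur_a₁ : ((EE D).baseChange F).toAffine.a₁ = 0 := by simp [EE, baseChange]
theorem xCCur_a₂ : ((EE D).baseChange F).toAffine.a₂ = 0 := by simp [EE, baseChange]
theorem xCCur_a₃ : ((EE D).baseChange F).toAffine.a₃ = 0 := by simp [EE, baseChange]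
theorem xCCur_a₄ : ((EE D).baseChange F).toAffine.a₄ = D := by simp [EE, baseChange]
theorem xCCur_a₆ : ((EE D).baseChange F).toAffine.a₆ = 0 := by simp [EE, baseChange]

theorem xCCur_eqn (x y : F) :
    ((EE D).baseChange F).toAffine.Equation x y ↔ y ^ 2 = x ^ 3 + D * x := by
  rw [Affine.equation_iff, xCCur_a₁, xCCur_a₂, xCCur_a₃, xCCur_a₄, xCCur_a₆]
  simp

theorem xCCur_negY (x y : F) : ((EE D).baseChange F).toAffine.negY x y = -y := by
  rw [Affine.negY, xCCur_a₁, xCCur_a₃]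
  ring

theorem xCCur_Δ' (hD : D ≠ 0) : ((EE D).baseChange F).Δ ≠ 0 := by
  have : ((EE D).baseChange F).Δ = ((EE D).Δ : F) := by simp [baseChange]
  rw [this, xCCur_Δ]
  exact_mod_cast mul_ne_zero (by norm_num) (pow_ne_zero _ hD)

theorem xCCur_D (hD : D ≠ 0) : (D : F) ≠ 0 := by exact_mod_cast hD

theorem xCCur_ext {P Q : Pts (EE D) F} (h0 : P = 0 ↔ Q = 0) (hx : px P = px Q)
    (hy : py P = py Q) : P = Q := by
  rcases P with _ | ⟨x, y, h⟩ <;> rcases Q with _ | ⟨x', y', h'⟩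
  · rfl
  · exact (h0.1 rfl).symm
  · exact h0.2 rfl
  · change x = x' at hx
    change y = y' at hy
    subst hx hy
    rfl

theorem EE_ell (hD : D ≠ 0) : (EE D).IsElliptic := by
  refine ⟨Ne.isUnit ?_⟩
  rw [xCCur_Δ]
  exact mul_ne_zero (by norm_num) (pow_ne_zero _ hD)

theorem ns2_iff (hD : D ≠ 0) (x y : F) :
    ((EE D).baseChange F).toAffine.Nonsingular x y ↔ y ^ 2 = x ^ 3 + D * x := by
  rw [← Affine.equation_iff_nonsingular_of_Δ_ne_zero (xCCur_Δ' hD), xCCur_eqn]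

theorem xCCur_pt (hD : D ≠ 0) {x y : F} (h : y ^ 2 = x ^ 3 + D * x) :
    pt2 D x y = .some x y ((ns2_iff hD x y).2 h) := by
  rw [pt2, dif_pos]

theorem pt2_cases (hD : D ≠ 0) (P : Pts (EE D) F) :
    P = 0 ∨ ∃ x y : F, y ^ 2 = x ^ 3 + D * x ∧ P = pt2 D x y := by
  rcases P with _ | ⟨x, y, hxy⟩
  · exact Or.inl rfl
  · exact Or.inr ⟨x, y, (ns2_iff hD x y).1 hxy, (xCCur_pt hD ((ns2_iff hD x y).1 hxy)).symm⟩

theorem pt2_ne_zero (hD : D ≠ 0) {x y : F} (h : y ^ 2 = x ^ 3 + D * x) : pt2 D x y ≠ 0 := by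
  rw [xCCur_pt hD h]
  exact Affine.Point.some_ne_zero _

theorem px_pt2 (hD : D ≠ 0) {x y : F} (h : y ^ 2 = x ^ 3 + D * x) :
    px (pt2 D x y) = x ∧ py (pt2 D x y) = y := by
  rw [xCCur_pt hD h]
  exact ⟨rfl, rfl⟩

theorem xCCur_inj (hD : D ≠ 0) {x y x' y' : F} (h : y ^ 2 = x ^ 3 + D * x)
    (h' : y' ^ 2 = x' ^ 3 + D * x') (e : pt2 D x y = pt2 D x' y') : x = x' ∧ y = y' := by
  rw [xCCur_pt hD h, xCCur_pt hD h'] at e
  exact Affine.Point.some.inj e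

theorem xCCur_map (f : F →+* F') {x y : F} (h : y ^ 2 = x ^ 3 + D * x) :
    f y ^ 2 = f x ^ 3 + D * f x := by
  simpa using congrArg f h

theorem act_pt2 (hD : D ≠ 0) (f : F →+* F') {x y : F} (h : y ^ 2 = x ^ 3 + D * x) :
    act (EE D) f (pt2 D x y) = pt2 D (f x) (f y) := by
  rw [xCCur_pt hD h, xCCur_pt hD (xCCur_map f h)]
  rfl

theorem px_act (f : F →+* F') (P : Pts (EE D) F) :
    px (act (EE D) f P) = f (px P) ∧ py (act (EE D) f P) = f (py P) := by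
  rcases P with _ | ⟨x, y, hxy⟩
  · exact ⟨(map_zero f).symm, (map_zero f).symm⟩
  · exact ⟨rfl, rfl⟩

theorem pt2_neg (hD : D ≠ 0) {x y : F} (h : y ^ 2 = x ^ 3 + D * x) :
    -pt2 D x y = pt2 D x (-y) := by
  have h' : (-y) ^ 2 = x ^ 3 + D * x := by rw [neg_sq, h]
  rw [xCCur_pt hD h, xCCur_pt hD h', Affine.Point.neg_some]
  congr 1
  exact xCCur_negY x y

theorem pt2_add_ne (hD : D ≠ 0) {x₁ y₁ x₂ y₂ x₃ y₃ l : F} (h₁ : y₁ ^ 2 = x₁ ^ 3 + D * x₁)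
    (h₂ : y₂ ^ 2 = x₂ ^ 3 + D * x₂) (hx : x₁ ≠ x₂) (hl : l * (x₁ - x₂) = y₁ - y₂)
    (hx₃ : x₃ = l ^ 2 - x₁ - x₂) (hy₃ : y₃ = -(l * (x₃ - x₁) + y₁)) :
    y₃ ^ 2 = x₃ ^ 3 + D * x₃ ∧ pt2 D x₁ y₁ + pt2 D x₂ y₂ = pt2 D x₃ y₃ := by
  have hs : ((EE D).baseChange F).toAffine.slope x₁ x₂ y₁ y₂ = l := by
    rw [Affine.slope_of_X_ne hx, div_eq_iff (sub_ne_zero.2 hx), hl]
  have e1 : ((EE D).baseChange F).toAffine.addX x₁ x₂
      (((EE D).baseChange F).toAffine.slope x₁ x₂ y₁ y₂) = x₃ := by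
    rw [hs, Affine.addX, xCCur_a₁, xCCur_a₂, hx₃]; ring
  have e2 : ((EE D).baseChange F).toAffine.addY x₁ x₂ y₁
      (((EE D).baseChange F).toAffine.slope x₁ x₂ y₁ y₂) = y₃ := by
    rw [Affine.addY, Affine.negAddY, e1, hs, xCCur_negY, hy₃]
  have h₃ := Affine.nonsingular_add ((ns2_iff hD _ _).2 h₁) ((ns2_iff hD _ _).2 h₂)
    (fun hxy => hx hxy.left)
  rw [e1, e2] at h₃
  refine ⟨(ns2_iff hD _ _).1 h₃, ?_⟩
  rw [xCCur_pt hD h₁, xCCur_pt hD h₂, xCCur_pt hD ((ns2_iff hD _ _).1 h₃),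
    Affine.Point.add_of_X_ne hx]
  congr 1

theorem pt2_add_self (hD : D ≠ 0) {x₁ y₁ x₃ y₃ l : F} (h₁ : y₁ ^ 2 = x₁ ^ 3 + D * x₁)
    (hy : y₁ ≠ 0) (hl : l * (2 * y₁) = 3 * x₁ ^ 2 + D) (hx₃ : x₃ = l ^ 2 - x₁ - x₁)
    (hy₃ : y₃ = -(l * (x₃ - x₁) + y₁)) :
    y₃ ^ 2 = x₃ ^ 3 + D * x₃ ∧ pt2 D x₁ y₁ + pt2 D x₁ y₁ = pt2 D x₃ y₃ := by
  have hy' : y₁ ≠ ((EE D).baseChange F).toAffine.negY x₁ y₁ := by
    rw [xCCur_negY]
    intro e
    apply hy
    linear_combination e / 2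
  have hs : ((EE D).baseChange F).toAffine.slope x₁ x₁ y₁ y₁ = l := by
    rw [Affine.slope_of_Y_ne rfl hy', div_eq_iff (sub_ne_zero.2 hy'), xCCur_negY, xCCur_a₁,
      xCCur_a₂, xCCur_a₄]
    linear_combination -hl
  have e1 : ((EE D).baseChange F).toAffine.addX x₁ x₁
      (((EE D).baseChange F).toAffine.slope x₁ x₁ y₁ y₁) = x₃ := by
    rw [hs, Affine.addX, xCCur_a₁, xCCur_a₂, hx₃]; ring
  have e2 : ((EE D).baseChange F).toAffine.addY x₁ x₁ y₁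
      (((EE D).baseChange F).toAffine.slope x₁ x₁ y₁ y₁) = y₃ := by
    rw [Affine.addY, Affine.negAddY, e1, hs, xCCur_negY, hy₃]
  have h₃ := Affine.nonsingular_add ((ns2_iff hD _ _).2 h₁) ((ns2_iff hD _ _).2 h₁)
    (fun hxy => hy' hxy.right)
  rw [e1, e2] at h₃
  refine ⟨(ns2_iff hD _ _).1 h₃, ?_⟩
  rw [xCCur_pt hD h₁, xCCur_pt hD ((ns2_iff hD _ _).1 h₃), Affine.Point.add_self_of_Y_ne hy']
  congr 1

theorem two_eq_zero_iff (hD : D ≠ 0) {x y : F} (h : y ^ 2 = x ^ 3 + D * x) :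
    (2 : ℕ) • pt2 D x y = 0 ↔ y = 0 := by
  have h' : (-y) ^ 2 = x ^ 3 + D * x := by rw [neg_sq, h]
  rw [two_nsmul, add_eq_zero_iff_eq_neg, pt2_neg hD h]
  constructor
  · intro e
    linear_combination (xCCur_inj hD h h' e).2 / 2
  · rintro rfl
    rw [neg_zero]

theorem xCCur_on0 : (0 : F) ^ 2 = 0 ^ 3 + D * 0 := by simp

theorem T2_ne_zero (hD : D ≠ 0) : T2 D F ≠ 0 := pt2_ne_zero hD xCCur_on0

theorem two_T2 (hD : D ≠ 0) : (2 : ℕ) • T2 D F = 0 := (two_eq_zero_iff hD xCCur_on0).2 rfl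

theorem add_T2 (hD : D ≠ 0) {x y : F} (h : y ^ 2 = x ^ 3 + D * x) (hx : x ≠ 0) :
    (-D * y / x ^ 2) ^ 2 = (D / x) ^ 3 + D * (D / x) ∧
      pt2 D x y + T2 D F = pt2 D (D / x) (-D * y / x ^ 2) := by
  refine pt2_add_ne hD (l := y / x) h xCCur_on0 hx ?_ ?_ ?_
  · field_simp
    ring
  · field_simp
    linear_combination -h
  · field_simp
    ring

theorem px_ne_zero (hD : D ≠ 0) {P : Pts (EE D) F} (h : ¬ In2 P) : px P ≠ 0 := by
  rcases pt2_cases hD P with rfl | ⟨x, y, hxy, rfl⟩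
  · exact absurd (Or.inl rfl) h
  rw [(px_pt2 hD hxy).1]
  rintro rfl
  have : y = 0 := by simpa using hxy
  subst this
  exact h (Or.inr rfl)

theorem xCCur_TT (hD : D ≠ 0) : T2 D F + T2 D F = 0 := by
  rw [← two_nsmul, two_T2 hD]

theorem In2.add (hD : D ≠ 0) {P Q : Pts (EE D) F} (hP : In2 P) (hQ : In2 Q) : In2 (P + Q) := by
  rcases hP with rfl | rfl <;> rcases hQ with rfl | rfl <;> simp [In2, xCCur_TT hD]

theorem In2.neg (hD : D ≠ 0) {P : Pts (EE D) F} (hP : In2 P) : -P = P := by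
  rcases hP with rfl | rfl
  · exact neg_zero
  · exact neg_eq_of_add_eq_zero_left (xCCur_TT hD)

theorem xCCur_two (hD : D ≠ 0) {S : Pts (EE D) F} (h : (2 : ℕ) • S = 0) (hS : ¬ In2 S) :
    ∃ e : F, e ≠ 0 ∧ e ^ 2 = -D ∧ S = pt2 D e 0 := by
  have h0 := px_ne_zero hD hS
  rcases pt2_cases hD S with rfl | ⟨x, y, hxy, rfl⟩
  · exact absurd (Or.inl rfl) hS
  rw [(px_pt2 hD hxy).1] at h0
  obtain rfl := (two_eq_zero_iff hD hxy).1 h
  refine ⟨x, h0, mul_left_cancel₀ h0 ?_, rfl⟩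
  linear_combination -hxy

theorem exists_half [IsAlgClosed F] (hD : D ≠ 0) (P : Pts (EE D) F) :
    ∃ R : Pts (EE D) F, (2 : ℕ) • R = P := by
  have : ((EE D).baseChange F).IsElliptic := ⟨Ne.isUnit (xCCur_Δ' hD)⟩
  exact B.smul_surj (W := (EE D).baseChange F) two_pos P

theorem dd_mem2 (R : Pts (EE D) Qb) : dd (EE D) R ∈ cocycles (EE D) := by
  constructor
  · rw [IsLocallyConstant.iff_eventually_eq]
    intro σ
    filter_upwards [(isLC_apply (px R)).eventually_eq σ, (isLC_apply (py R)).eventually_eq σ]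
      with τ h1 h2
    unfold dd
    congr 1
    refine xCCur_ext ?_ (by rw [(px_act _ _).1, (px_act _ _).1]; exact h1)
      (by rw [(px_act _ _).2, (px_act _ _).2]; exact h2)
    rw [map_eq_zero_iff _ (act_inj _ _), map_eq_zero_iff _ (act_inj _ _)]
  · intro σ τ
    simp only [dd, act_mul, map_sub, galQ]
    abel

theorem fixed_pt2 (hD : D ≠ 0) {P : Pts (EE D) Qb} (hP : ∀ σ, dd (EE D) P σ = 0) :
    ∃ P₀, P = rp (EE D) Qb P₀ := by
  have h0 : ∀ σ : GQ, act (EE D) (σ : Qb →+* Qb) P = P := fun σ => sub_eq_zero.1 (hP σ)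
  obtain ⟨x, hx⟩ := fixed_rat (x := px P) fun σ => by
    have := (px_act (σ : Qb →+* Qb) P).1
    rw [h0] at this
    exact this.symm
  obtain ⟨y, hy⟩ := fixed_rat (x := py P) fun σ => by
    have := (px_act (σ : Qb →+* Qb) P).2
    rw [h0] at this
    exact this.symm
  rcases pt2_cases hD P with rfl | ⟨x', y', h, rfl⟩
  · exact ⟨0, (map_zero _).symm⟩
  rw [(px_pt2 hD h).1] at hx
  rw [(px_pt2 hD h).2] at hy
  subst hx hy
  have h' : y ^ 2 = x ^ 3 + ((D : ℚ) : ℚ) * x := by exact_mod_cast h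
  exact ⟨pt2 D x y, (act_pt2 hD (Rat.castHom Qb) h').symm⟩

end Pool.Agent.MP_e23604_nt.P

end
end
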