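import Mathlib
import Pool.Agent.Mg.Fe23604m.G170b11

set_option linter.all false

/-! Generic matrices and error terms. -/

namespace Pool.Agent.MP_f68ac8_nt.Nd

open Zq Zv Zk Finset
open scoped BigOperators commutatorElement

section
variable {d : ℕ}

/-- the linear equations attached to the matrix `r` and the vector `k` -/
def KQ (r : Mx d) (k : Fin d → ZMod 2) (b g : ZMod 2 × ZMod 2) (u : Fin d → ZMod 2) : Prop :=
  ∀ i, ∑ j, r i j * (u i + u j) + u i * (b.1 * r i i + b.2 * k i) + (g.1 * r i i + g.2 * k i) = 0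

/-- constant vectors -/
def Cst (u : Fin d → ZMod 2) : Prop := ∀ i j, u i = u j

/-- all pairs of values occur at large indices and many times at small indices -/
def RichQ (Sm Lg : Finset (Fin d)) (m : ℕ) (u z : Fin d → ZMod 2) : Prop :=
  ∀ a b, (∃ t ∈ Lg, u t = a ∧ z t = b) ∧ m ≤ (Sm.filter fun j => u j = a ∧ z j = b).card

/-- generic data -/
structure GenQ (Sm Lg : Finset (Fin d)) (B m : ℕ) (r : Mx d) (k : Fin d → ZMod 2) : Prop where
  g1 : ∀ b g, {u | KQ r k b g u}.ncard ≤ B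
  g2 : ∀ b g b' g' u z, KQ r k b g u → KQ r k b' g' z →
    Cst u ∨ Cst z ∨ Cst (u + z) ∨ RichQ Sm Lg m u z
  g3 : ∀ b g g' u, KQ r k b g u → KQ r k (b + (1, 0)) g' u → Cst u
  g4 : ∀ g : ZMod 2 × ZMod 2, (∀ i, g.1 * r i i + g.2 * k i = 0) → g = 0

/-- the upper left block -/
def ul (r : Mx (d + 1)) : Mx d := fun i j => r i.castSucc j.castSucc

/-- the last column -/
def lc (r : Mx (d + 1)) : Fin d → ZMod 2 := fun i => r i.castSucc (Fin.last d)

/-- the phase of a sequence of colours -/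
def PhQ {Ω : Type} (φ : Ω → Ω → ZMod 2) (c₁ c₂ : Ω → ZMod 2) (r : Mx d) (k : Fin d → ZMod 2)
    (s : Fin d → Ω) : ZMod 2 :=
  ∑ i, (∑ j, r i j * φ (s i) (s j) + c₁ (s i) * r i i + c₂ (s i) * k i)

end

/-- the data of an error term -/
structure Trm (P : Type) (d : ℕ) where
  x : Fin d → P
  s : List (Fin d)
  t : Fin d
  ψ : P → ZMod 2
  Cn : Mx d → (Fin d → P) → Prop
  Ob : Mx d → (Fin d → P) → ZMod 2
  c : ℝ

section
variable {P : Type} [Group P] {d : ℕ}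

/-- admissible error terms -/
structure Trm.Ok (T : Trm P d) (F : ℕ → Subgroup P) (L : ℕ) (Sm Lg : Finset (Fin d)) : Prop where
  nd : T.s.Nodup
  two : 2 ≤ T.s.length
  len : T.s.length + 1 ≤ L
  sm : ∀ j ∈ T.s, j ∈ Sm
  lg : T.t ∈ Lg
  add : ∀ g ∈ F T.s.length, ∀ h ∈ F T.s.length, T.ψ (g * h) = T.ψ g + T.ψ h
  zero : ∀ g ∈ F (T.s.length + 1), T.ψ g = 0
  br : T.ψ (brL (T.s.map T.x)) ≠ 0
  inv : ∀ r Z Z', T.Cn r Z → (∀ i, (Z' i)⁻¹ * Z i ∈ F T.s.length) → T.Cn r Z' ∧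
    ((∀ i, i ∉ T.s → i ≠ T.t → (Z' i)⁻¹ * Z i ∈ F (T.s.length + 1)) →
      T.Ob r Z = T.Ob r Z' + T.ψ ((Z' T.t)⁻¹ * Z T.t))
  le : |T.c| ≤ 1

open Classical in
/-- the value of an error term -/
noncomputable def Trm.val (T : Trm P d) {Λ : Type} (y : Lr d Λ → FreeGroup (Lr d Λ))
    (q : Fin d → Λ) : ℝ :=
  if T.Cn (rr (U := fun _ => Λ) y q 2) (Yw (U := fun _ => Λ) y q T.x) then
    T.c * sg (T.Ob (rr (U := fun _ => Λ) y q 2) (Yw (U := fun _ => Λ) y q T.x)) else 0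

/-- append `e` letters at two -/
def exq {Λ : Type} (e : ℕ) (q : Fin d → Λ) : Fin (d + e) → Option Λ :=
  Fin.append (some ∘ q) fun _ => none

/-- the same indices in a longer tuple -/
def upq (e : ℕ) (S : Finset (Fin d)) : Finset (Fin (d + e)) := S.map (Fin.castAddEmb e)

end

/-- values of words in the group of order two -/
def RrQ : Prop :=
  ∀ (d : ℕ) (Λ : Type) (y : Lr d Λ → FreeGroup (Lr d Λ)) (q : Fin d → Λ) (x : Fin d → Multiplicative (ZMod 2))
    (i : Fin d), (Yw (U := fun _ => Λ) y q x i).toAdd =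
      ∑ j, rr (U := fun _ => Λ) y q 2 i j * (x j).toAdd

end Pool.Agent.MP_f68ac8_nt.Nd
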