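import Mathlib
import Pool.Agent.Mg.Fe23604m.Gea5915
import Pool.Agent.MP_e23604_nt.BValB
import Pool.Agent.Mg.Fe23604m.G2d01bf
import Pool.Agent.MP_e23604_nt.Q.Res

set_option linter.all false

/-! Affine actions on modules with complex multiplication by `i`, and systems of equations. -/

namespace Pool.Agent.MP_e23604_nt.Q

open Finset NumberField
open MP_f68ac8_nt.Zq (Mx sg)
open MP_f68ac8_nt.Zk (Yw rr)
open scoped BigOperators Topology

section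
variable {V : Type} [AddCommGroup V] (J : V ≃ₗ[ℤ] V)

/-- multiplication by `i - 1` -/
def om : Module.End ℤ V := (J : V →ₗ[ℤ] V) - 1

/-- the filtration -/
def Wn (n : ℕ) : Submodule ℤ V := LinearMap.ker (om J ^ n)

open Classical in
/-- the digit of level `n` -/
noncomputable def dig (n : ℕ) (u : V) : ZMod 2 := if u ∈ Wn J n then 0 else 1

/-- the basic properties -/
structure Cm0 : Prop where
  sq : ∀ u, J (J u) = -u
  one : ∀ u ∈ Wn J 1, ∀ u' ∈ Wn J 1, u ≠ 0 → u' ≠ 0 → u = u'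

/-- modules of length `N` -/
structure Cm (N : ℕ) : Prop extends Cm0 J where
  top : ∀ u, u ∈ Wn J N
  ex : ∃ u, u ∉ Wn J (N - 1)

/-- divisible modules -/
structure CmI : Prop extends Cm0 J where
  surj : Function.Surjective (om J)
  ex : ∃ u ∈ Wn J 1, u ≠ 0

/-- automorphisms that preserve the filtration -/
def Pre (a : V ≃ₗ[ℤ] V) : Prop := ∀ n u, a u ∈ Wn J n ↔ u ∈ Wn J n

open Classical in
/-- the quadratic character of level `n` -/
noncomputable def del (n : ℕ) (a : V ≃ₗ[ℤ] V) : ZMod 2 :=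
  if ∀ u ∈ Wn J (n + 1), a u - u ∈ Wn J (n - 1) then 0 else 1

theorem aff_apply (g : V ≃ᵃ[ℤ] V) (y : V) : g y = g.linear y + g 0 := by
  have := g.map_vadd 0 y
  simpa using this

theorem lin_inv (g : V ≃ᵃ[ℤ] V) (u : V) : g.linear (g⁻¹.linear u) = u :=
  g.linear.apply_symm_apply u

theorem inv_zero (g : V ≃ᵃ[ℤ] V) : g.linear (g⁻¹ 0) = -g 0 := by
  have h : g (g⁻¹ 0) = 0 := g.apply_symm_apply 0
  rw [aff_apply] at h
  exact eq_neg_of_add_eq_zero_left h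

/-- the affine group -/
def Pm (m : ℕ) : Subgroup (V ≃ᵃ[ℤ] V) where
  carrier := {g | Pre J g.linear ∧ g 0 ∈ Wn J m}
  one_mem' := ⟨fun _ _ => Iff.rfl, zero_mem _⟩
  mul_mem' := by
    rintro g h ⟨g1, g2⟩ ⟨h1, h2⟩
    refine ⟨fun n u => (g1 n (h.linear u)).trans (h1 n u), ?_⟩
    change g (h 0) ∈ _
    rw [aff_apply]
    exact add_mem ((g1 _ _).2 h2) g2
  inv_mem' := by
    rintro g ⟨g1, g2⟩
    refine ⟨fun n u => ?_, ?_⟩
    · rw [← g1 n, lin_inv]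
    · rw [← g1 m, inv_zero]
      exact neg_mem g2

noncomputable instance instFintypePm [Fintype V] (m : ℕ) : Fintype (Pm J m) :=
  have : Finite (V ≃ᵃ[ℤ] V) := Finite.of_injective _ DFunLike.coe_injective
  Fintype.ofFinite _

/-- its filtration -/
def Fk (m k : ℕ) : Subgroup (Pm J m) where
  carrier := {g | g.1 0 ∈ Wn J (m + 1 - k) ∧ ∀ n, ∀ u ∈ Wn J n, g.1.linear u - u ∈ Wn J (n - k)}
  one_mem' := ⟨zero_mem _, fun n u _ => by
    change u - u ∈ _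
    rw [sub_self]
    exact zero_mem _⟩
  mul_mem' := by
    rintro g h ⟨g1, g2⟩ ⟨h1, h2⟩
    refine ⟨?_, fun n u hu => ?_⟩
    · change g.1 (h.1 0) ∈ _
      rw [aff_apply]
      exact add_mem ((g.2.1 _ _).2 h1) g1
    · change g.1.linear (h.1.linear u) - u ∈ _
      have e : g.1.linear (h.1.linear u) - u =
          g.1.linear (h.1.linear u - u) + (g.1.linear u - u) := by
        rw [map_sub]
        abel
      rw [e]
      exact add_mem ((g.2.1 _ _).2 (h2 n u hu)) (g2 n u hu)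
  inv_mem' := by
    rintro g ⟨g1, g2⟩
    refine ⟨?_, fun n u hu => ?_⟩
    · change g.1⁻¹ 0 ∈ _
      rw [← g.2.1, inv_zero]
      exact neg_mem g1
    · change g.1⁻¹.linear u - u ∈ _
      rw [← g.2.1, map_sub, lin_inv, ← neg_sub]
      exact neg_mem (g2 n u hu)

/-- the rotation with centre `v` -/
def rot0 (v : V) : V ≃ᵃ[ℤ] V :=
  AffineEquiv.constVAdd ℤ V v * J.toAffineEquiv * (AffineEquiv.constVAdd ℤ V v)⁻¹

open Classical in
/-- the rotation as an element of the group -/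
noncomputable def rot (m : ℕ) (v : V) : Pm J m := if h : rot0 J v ∈ Pm J m then ⟨_, h⟩ else 1

end

/-- the combinatorial shape of a system -/
structure Sh (d : ℕ) where
  Tm : Finset (Fin d)
  i0 : Fin d
  kf : Fin d
  kc : Fin d
  be : ℕ → Fin d → ZMod 2
  ga : Fin d → ZMod 2
  pi : ZMod 2
  m : ℕ

section
variable {d : ℕ}

/-- the matrix of a level -/
def Mn (β : Fin d → ZMod 2) (r : Mx d) : Mx d :=
  fun i j => if i = j then ∑ k ∈ univ.erase i, r i k * β k else r i j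

/-- rich pairs of vectors -/
def Rich (Sm Lg : Finset (Fin d)) (L : ℕ) (u z : Fin d → ZMod 2) : Prop :=
  (∃ t ∈ Lg, z t ≠ 0) ∧ ∀ a, L ≤ (Sm.filter fun j => u j = a ∧ z j = 0).card

namespace Sh
variable (H : Sh d)

/-- the positions of the special indices -/
structure Ok : Prop where
  i0 : H.i0 ∈ H.Tm
  kf : H.kf ∉ H.Tm
  kc : H.kc ∉ H.Tm
  ne : H.kf ≠ H.kc

/-- the leading digits -/
def Top (r : Mx d) (u : Fin d → ZMod 2) : Prop :=
  (∀ j ∉ H.Tm, u j = H.ga j) ∧ (∀ i ∈ H.Tm, ∑ j, Mn (H.be H.m) r i j * u j = 0) ∧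
    ∃ j ∈ H.Tm, ∃ k ∈ H.Tm, u j ≠ u k

/-- the rows that are used at level `n` -/
def Rw (n : ℕ) : Finset (Fin d) :=
  insert H.kf (H.Tm.erase H.i0) ∪ if H.pi + n = 1 then {H.kc} else ∅

/-- the left kernel -/
def LK (n : ℕ) (r : Mx d) (z : Fin d → ZMod 2) : Prop :=
  (∀ i ∉ H.Rw n, z i = 0) ∧ ∀ j ∈ H.Tm, ∑ i, z i * Mn (H.be n) r i j = 0

/-- good matrices -/
structure Good (Sm Lg : Finset (Fin d)) (L B : ℕ) (r : Mx d) : Prop where
  top : {u | H.Top r u}.ncard ≤ B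
  cj : ∀ n : ℕ, 1 ≤ n → n ≤ H.m → ∑ k, r H.kc k * H.be n k = H.pi + n + 1
  few : ∀ n : ℕ, 1 ≤ n → n + 1 ≤ H.m → ∀ u, H.Top r u → ∀ z z', H.LK n r z → H.LK n r z' →
    ¬ Rich Sm Lg L u z → ¬ Rich Sm Lg L u z' → z ≠ 0 → z' ≠ 0 →
    z = z' ∧ (n : ZMod 2) + 1 = H.m

end Sh

end

/-- a system of equations -/
structure Sy {V : Type} [AddCommGroup V] (J : V ≃ₗ[ℤ] V) (m d : ℕ) where
  Tm : Finset (Fin d)
  i0 : Fin d
  kf : Fin d
  kc : Fin d
  x0 : Fin d → Pm J m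
  f0 : V
  o : V
  pi : ZMod 2

namespace Sy
variable {V : Type} [AddCommGroup V] {J : V ≃ₗ[ℤ] V} {m d : ℕ} (S : Sy J m d)

/-- the shape -/
noncomputable def sh : Sh d where
  Tm := S.Tm
  i0 := S.i0
  kf := S.kf
  kc := S.kc
  be := fun n j => if j ∈ S.Tm then 1 else del J n (S.x0 j).1.linear
  ga := fun j => dig J (m - 1) ((S.x0 j).1 0)
  pi := S.pi
  m := m

/-- valid systems -/
structure Ok : Prop where
  sh : S.sh.Ok
  fix : ∀ j ∉ S.Tm, (S.x0 j).1 S.o = S.o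
  o : S.o ∈ Wn J (m + 4)

/-- candidates -/
def Cand (n : ℕ) (v : Fin d → V) : Prop := (∀ j ∈ S.Tm, v j ∈ Wn J (n + 1)) ∧ ∀ j ∉ S.Tm, v j = 0

/-- the values of the letters -/
noncomputable def xv (v : Fin d → V) (j : Fin d) : Pm J m :=
  if j ∈ S.Tm then rot J m (v j) else S.x0 j

/-- the leading digits -/
noncomputable def ub (v : Fin d → V) (j : Fin d) : ZMod 2 :=
  if j ∈ S.Tm then dig J m (v j) else dig J (m - 1) ((S.x0 j).1 0)

/-- the equations -/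
def Ev (Z : Fin d → Pm J m) (v : Fin d → V) (i : Fin d) : V :=
  if i ∈ S.Tm then (Z i).1 (v i) - v i else if i = S.kf then (Z i).1 0 - S.f0
    else (Z i).1 ((Z i).1 0)

/-- the conditions of level `n` -/
def Cond (n : ℕ) (Z : Fin d → Pm J m) (v : Fin d → V) : Prop :=
  (∀ i ∈ S.Tm, i ≠ S.i0 → S.Ev Z v i ∈ Wn J n) ∧ S.Ev Z v S.kf ∈ Wn J n ∧
    S.Ev Z v S.kc ∈ Wn J (n - 1)

/-- the obstructions -/
noncomputable def ob (n : ℕ) (Z : Fin d → Pm J m) (v : Fin d → V) (i : Fin d) : ZMod 2 :=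
  if i = S.kc then dig J (n - 2) (S.Ev Z v i) else dig J (n - 1) (S.Ev Z v i)

variable {U : Fin d → Type} (y : (Σ j, U j) → FreeGroup (Σ j, U j)) (q : ∀ j, U j)

/-- the values of the words -/
noncomputable def Yv (v : Fin d → V) : Fin d → Pm J m := Yw y q (S.xv v)

/-- the solutions of level `n` -/
def Sol (n : ℕ) : Set (Fin d → V) :=
  {v | S.Cand m v ∧ S.sh.Top (rr y q 2) (S.ub v) ∧ S.Cond n (S.Yv y q v) v}

/-- the number of classes of solutions -/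
noncomputable def Nn (n : ℕ) : ℝ := (S.Sol y q n).ncard / 2 ^ ((n + 1) * S.Tm.card)

open Classical in
/-- the sum of the rich terms -/
noncomputable def Es [Fintype V] (Sm Lg : Finset (Fin d)) (L n : ℕ) : ℝ :=
  ∑ v : Fin d → V, ∑ z : Fin d → ZMod 2,
    if v ∈ S.Sol y q n ∧ S.sh.LK n (rr y q 2) z ∧ Rich Sm Lg L (S.ub v) z then
      sg (∑ i, z i * S.ob n (S.Yv y q v) v i) else 0

/-- true solutions -/
structure Tru (v : Fin d → V) : Prop where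
  cand : S.Cand m v
  tam : ∀ i ∈ S.Tm, (S.Yv y q v i).1 (v i) - v i ∈ Wn J 2
  fo : (S.Yv y q v S.kf).1 S.o = S.o
  ff : (S.Yv y q v S.kf).1 0 = S.f0
  cc : S.Yv y q v S.kc * S.Yv y q v S.kc = 1
  nc : ∃ j ∈ S.Tm, ∃ k ∈ S.Tm, dig J m (v j) ≠ dig J m (v k)

end Sy

section
variable {d : ℕ}

variable (ρ : Mx d) (κ : Fin d → ZMod 2)

/-- the link between the exponent sums and the linking numbers -/
structure Lnk {d' : ℕ} (H : Sh d') (e : Fin d ↪ Fin d') (r : Mx d') (α a : ZMod 2)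
    (γ : ZMod 2 × ZMod 2) : Prop where
  tm : H.Tm = univ.map e
  off : ∀ i j, i ≠ j → r (e i) (e j) = ρ i j
  be : ∀ n : ℕ, 1 ≤ n → n ≤ H.m → ∀ i,
    ∑ k ∈ H.Tmᶜ, r (e i) k * H.be n k = (α + n) * ρ i i + a * κ i
  ga : ∀ i, ∑ k ∈ H.Tmᶜ, r (e i) k * H.ga k = γ.1 * ρ i i + γ.2 * κ i
  kf : ∀ j, r H.kf (e j) = κ j
  kc : ∀ j, r H.kc (e j) = ρ j j
  cj : ∀ n : ℕ, 1 ≤ n → n ≤ H.m → ∑ k, r H.kc k * H.be n k = H.pi + n + 1
  one : ∀ n j, H.be n (e j) = 1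

end

/-- the fixed prime above two -/
noncomputable def P2 : Ideal (𝓞 Qb) := B.BValB_cen (B.nv_na 2 1)

/-- its decomposition group -/
def Dc (g : GQ) : Prop := ∀ x, B.nv 2 1 (g x) = B.nv 2 1 x

/-- restrictions of local automorphisms -/
def Lc2 (τ : GQ) : Prop :=
  ∃ σ : AlgebraicClosure ℚ_[2] ≃ₐ[ℚ_[2]] AlgebraicClosure ℚ_[2],
    ∀ x, emb ℚ_[2] (τ x) = σ (emb ℚ_[2] x)

/-- primes outside `2` and `R` -/
def Out (R : Finset ℕ) (P : Ideal (𝓞 Qb)) : Prop :=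
  P.IsMaximal ∧ ((2 : ℕ) : 𝓞 Qb) ∉ P ∧ ∀ l ∈ R, (l : 𝓞 Qb) ∉ P

/-- parameters -/
structure Pa {V : Type} [AddCommGroup V] (J : V ≃ₗ[ℤ] V) (m : ℕ) where
  th : GQ → Pm J m
  o : V
  al : ZMod 2
  a : ZMod 2
  pi : ZMod 2

section
variable {V : Type} [AddCommGroup V] {J : V ≃ₗ[ℤ] V} {m : ℕ} (p : Pa J m)

/-- valid parameters -/
def Pa.Ok : Prop := (∀ g, Dc g → (p.th g).1 p.o = p.o) ∧ p.o ∈ Wn J (m + 4)

end

section
variable {A : Type} [AddCommGroup A] (J : A ≃ₗ[ℤ] A) (η : GQ →* (A ≃ₗ[ℤ] A)) (n : ℕ)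

/-- strict cocycles -/
def St : Set (GQ → A) :=
  {x | IsLocallyConstant x ∧ (∀ g h, x (g * h) = x g + η g (x h)) ∧ (∃ K, ∀ g, x g ∈ Wn J K) ∧
    (∀ P, Out n.primeFactors P → ∀ g ∈ P.inertia GQ, x g = 0) ∧ ∀ g, Dc g → x g = 0}

/-- a strict cocycle of level `m` -/
structure Lev (τ : ℕ → GQ) (m : ℕ) (x : GQ → A) (p : ℕ → A) (b : A) : Prop where
  st : x ∈ St J η n
  base : b ∈ Wn J (m + 3)
  lev : ∀ g, x g + η g b - b ∈ Wn J m
  fix : ∀ l ∈ n.primeFactors, x (τ l) + J (p l) = p l ∧ p l - b ∈ Wn J (m + 1)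
  nc : ∃ l ∈ n.primeFactors, ∃ l' ∈ n.primeFactors, p l - p l' ∉ Wn J m

variable {V : Type} [AddCommGroup V] (JV : V ≃ₗ[ℤ] V) (ι : V →ₗ[ℤ] A)

/-- finite pieces of a module -/
structure Emb (N : ℕ) : Prop where
  cm : Cm JV N
  inj : Function.Injective ι
  rng : ∀ u ∈ Wn J N, ∃ y, ι y = u
  com : ∀ y, ι (JV y) = J (ι y)
  lev : ∀ k y, ι y ∈ Wn J k ↔ y ∈ Wn JV k

variable {JV}

/-- the affine map `y ↦ a y + w` -/
def Rep {m : ℕ} (t : Pm JV m) (a : A ≃ₗ[ℤ] A) (w : A) : Prop := ∀ y, ι (t.1 y) = a (ι y) + w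

end

section
open P
open scoped Classical

/-- scaling of the coordinates -/
noncomputable def scf {D : ℚ} {F : Type} [Field F] [CharZero F] (D' : ℚ) (u : F)
    (R : Pts (EE D) F) : Pts (EE D') F :=
  if R = 0 then 0 else pt2 D' (u ^ 2 * px R) (u ^ 3 * py R)

/-- the points of the base curve -/
abbrev A1 : Type := Pts (EE 1) Qb

/-- the twisted action -/
def Eta (δ : Qb) (η : GQ →* (A1 ≃ₗ[ℤ] A1)) : Prop :=
  ∀ g R, η g R = scf 1 (g δ / δ) (galQ (EE 1) g R)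

/-- complex multiplication -/
def Jm (i : Qb) (J : A1 ≃ₗ[ℤ] A1) : Prop := i ^ 2 = -1 ∧ ∀ R, J R = scf 1 (-i) R

/-- Selmer cocycles killed by `2 ^ k` -/
def Sel (D : ℚ) (k : ℕ) (ξ : GQ → Pts (EE D) Qb) : Prop :=
  ξ ∈ cocycles (EE D) ∧ (∀ g, 2 ^ k • ξ g = 0) ∧
    ∀ (q : ℕ) [Fact q.Prime], LocTriv (EE D) ℚ_[q] ξ

/-- strict Selmer cocycles -/
def Str (D : ℚ) : Set (GQ → Pts (EE D) Qb) := {ξ | (∃ k, Sel D k ξ) ∧ ∀ g, Dc g → ξ g = 0}

/-- the local point of a cocycle -/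
def Lp (D : ℚ) (k : ℕ) (ξ : GQ → Pts (EE D) Qb) (T : Pts (EE D) ℚ_[2]) : Prop :=
  ∃ R : Pts (EE D) (AlgebraicClosure ℚ_[2]),
    (∀ (σ : AlgebraicClosure ℚ_[2] ≃ₐ[ℚ_[2]] AlgebraicClosure ℚ_[2]) (τ : GQ),
      (∀ x, emb ℚ_[2] (τ x) = σ (emb ℚ_[2] x)) → act (EE D) (emb ℚ_[2]) (ξ τ) =
        act (EE D) (σ : AlgebraicClosure ℚ_[2] →+* AlgebraicClosure ℚ_[2]) R - R) ∧
    2 ^ k • R = act (EE D) (algebraMap ℚ_[2] (AlgebraicClosure ℚ_[2])) T

section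
variable (D : ℚ) (F : Type) [Field F] [CharZero F]

/-- congruence modulo `2 ^ k` -/
def Md (k : ℕ) (T T' : Pts (EE D) F) : Prop := ∃ T'', T = T' + 2 ^ k • T''

/-- finite generation -/
def Fg : Prop := AddGroup.FG (Pts (EE D) F)

end

end

/-- rank plus corank is at most one -/
def Cork (W : WeierstrassCurve ℚ) : Prop :=
  ∃ C : ℕ, ∀ k : ℕ, {c | c ∈ Sha W ∧ 2 ^ k • c = 0}.encard *
    2 ^ (k * Module.finrank ℤ W.toAffine.Point) ≤ C * 2 ^ k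

end Pool.Agent.MP_e23604_nt.Q
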