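import Mathlib
import Pool.Agent.Mg.Fe23604m.Gc7c2d8
import Pool.Agent.Mg.Fe23604m.Gd02325
import Pool.Agent.MP_e23604_nt.T.Res

set_option linter.all false

/-! Cubic twists: modules, Galois data, parameters and the interfaces between the parts. -/

namespace Pool.Agent.MP_e23604_nt.T

open Finset Filter NumberField
open MP_f68ac8_nt (cyc IsFrob)
open MP_f68ac8_nt.Zv (Ex Prob piV Unf)
open MP_f68ac8_nt.Zk (NS brL lk msk Av Shf)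
open MP_f68ac8_nt.Nd (Lr OKp Fr Gz Ad0 Tf0 Exm tw fP kap np)
open Q (Wn Pre rot0 aff_apply lin_inv)
open scoped BigOperators Topology

/-! ### Modules with complex multiplication by a cube root of unity -/

section
variable {V : Type} [AddCommGroup V] (J : V ≃ₗ[ℤ] V) (T : V)

open Classical in
/-- the digit of level `n` -/
noncomputable def dig (n : ℕ) (u : V) : ZMod 3 :=
  if (Q.om J ^ n) u = T then 1 else if (Q.om J ^ n) u = -T then -1 else 0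

/-- the basic properties -/
structure Cm0 : Prop where
  sq : ∀ u, J (J u) + J u + u = 0
  ne : T ≠ 0
  fix : J T = T
  one : ∀ u ∈ Wn J 1, u = 0 ∨ u = T ∨ u = -T

/-- modules of length `N` -/
structure Cm (N : ℕ) : Prop extends Cm0 J T where
  top : ∀ u, u ∈ Wn J N
  ex : ∃ u, u ∉ Wn J (N - 1)

/-- divisible modules -/
structure CmI : Prop extends Cm0 J T where
  surj : Function.Surjective (Q.om J)

/-- automorphisms that preserve the filtration and fix the even digits -/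
def Pr3 (a : V ≃ₗ[ℤ] V) : Prop :=
  Pre J a ∧ ∀ k, Even k → ∀ u ∈ Wn J (k + 1), a u - u ∈ Wn J k

/-- the affine group -/
def Pm (m : ℕ) : Subgroup (V ≃ᵃ[ℤ] V) where
  carrier := {g | Pr3 J g.linear ∧ g 0 ∈ Wn J m}
  one_mem' := ⟨⟨fun _ _ => Iff.rfl, fun k _ u _ => by
    change u - u ∈ _
    rw [sub_self]
    exact zero_mem _⟩, zero_mem _⟩
  mul_mem' := by
    rintro g h ⟨⟨g1, g3⟩, g2⟩ ⟨⟨h1, h3⟩, h2⟩
    refine ⟨⟨fun n u => (g1 n (h.linear u)).trans (h1 n u), fun k hk u hu => ?_⟩, ?_⟩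
    · change g.linear (h.linear u) - u ∈ _
      have e : g.linear (h.linear u) - u = g.linear (h.linear u - u) + (g.linear u - u) := by
        rw [map_sub]
        abel
      rw [e]
      exact add_mem ((g1 _ _).2 (h3 k hk u hu)) (g3 k hk u hu)
    · change g (h 0) ∈ _
      rw [aff_apply]
      exact add_mem ((g1 _ _).2 h2) g2
  inv_mem' := by
    rintro g ⟨⟨g1, g3⟩, g2⟩
    refine ⟨⟨fun n u => ?_, fun k hk u hu => ?_⟩, ?_⟩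
    · rw [← g1 n, lin_inv]
    · rw [← g1 k, map_sub, lin_inv, ← neg_sub]
      exact neg_mem (g3 k hk u hu)
    · rw [← g1 m, Q.inv_zero]
      exact neg_mem g2

noncomputable instance instFintypePm [Fintype V] (m : ℕ) : Fintype (Pm J m) :=
  have : Finite (V ≃ᵃ[ℤ] V) := Finite.of_injective _ DFunLike.coe_injective
  Fintype.ofFinite _

/-- its filtration -/
def Fk (m k : ℕ) : Subgroup (Pm J m) where
  carrier := {g | g.1 0 ∈ Wn J (m + 1 - k) ∧ ∀ n, ∀ u ∈ Wn J n, g.1.linear u - u ∈ Wn J (n - k)}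
  one_mem' := ⟨zero_mem _, fun n u _ => by
    change u - u ∈ _
    rw [sub_self]
    exact zero_mem _⟩
  mul_mem' := by
    rintro g h ⟨g1, g2⟩ ⟨h1, h2⟩
    refine ⟨?_, fun n u hu => ?_⟩
    · change g.1 (h.1 0) ∈ _
      rw [aff_apply]
      exact add_mem ((g.2.1.1 _ _).2 h1) g1
    · change g.1.linear (h.1.linear u) - u ∈ _
      have e : g.1.linear (h.1.linear u) - u =
          g.1.linear (h.1.linear u - u) + (g.1.linear u - u) := by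
        rw [map_sub]
        abel
      rw [e]
      exact add_mem ((g.2.1.1 _ _).2 (h2 n u hu)) (g2 n u hu)
  inv_mem' := by
    rintro g ⟨g1, g2⟩
    refine ⟨?_, fun n u hu => ?_⟩
    · change g.1⁻¹ 0 ∈ _
      rw [← g.2.1.1, Q.inv_zero]
      exact neg_mem g1
    · change g.1⁻¹.linear u - u ∈ _
      rw [← g.2.1.1, map_sub, lin_inv, ← neg_sub]
      exact neg_mem (g2 n u hu)

open Classical in
/-- the rotation with centre `v` as an element of the group -/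
noncomputable def rot (m : ℕ) (v : V) : Pm J m := if h : rot0 J v ∈ Pm J m then ⟨_, h⟩ else 1

end

/-! ### The Galois group -/

/-- the decomposition group of a prime -/
def DP (P : Ideal (𝓞 Qb)) : Subgroup GQ where
  carrier := {g | ∀ x : 𝓞 Qb, g • x ∈ P ↔ x ∈ P}
  one_mem' x := by rw [one_smul]
  mul_mem' {g h} hg hh x := by rw [mul_smul, hg, hh]
  inv_mem' {g} hg x := by rw [← hg, smul_inv_smul]

/-- the fixed prime above three -/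
noncomputable def P3 : Ideal (𝓞 Qb) := B.BValB_cen (B.nv_na 3 1)

/-- primes outside `3` and `R` -/
def Out (R : Finset ℕ) (P : Ideal (𝓞 Qb)) : Prop :=
  P.IsMaximal ∧ ((3 : ℕ) : 𝓞 Qb) ∉ P ∧ ∀ l ∈ R, (l : 𝓞 Qb) ∉ P

/-- primes different from three -/
def P0 (l : ℕ) : Prop := l.Prime ∧ l ≠ 3

/-- the action on the cube roots of unity -/
noncomputable def sg (g : GQ) : ZMod 3 := cyc (Ω := Qb) 3 g

/-- the logarithm modulo nine -/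
def lm9 (u : ZMod 9) : ZMod 3 := if u = 2 ∨ u = 7 then 1 else if u = 4 ∨ u = 5 then 2 else 0

/-- the cubic character of conductor nine -/
noncomputable def x9 (g : GQ) : ZMod 3 := lm9 (cyc (Ω := Qb) 9 g)

/-- the cubic character of conductor `l` -/
noncomputable def ch (l : ℕ) (g : GQ) : ZMod 3 := (MP_f68ac8_nt.Zk.ch 3 l g).toAdd

/-- the Kummer character of `l` -/
noncomputable def kk (l : ℕ) (g : GQ) : ZMod 3 := MP_f68ac8_nt.Ev.KK 3 (l : Qb) g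

/-- the Kummer character of `3 ^ β * ∏ l ^ e l` -/
noncomputable def kD (R : Finset ℕ) (e : ℕ → ZMod 3) (β : ZMod 3) (g : GQ) : ZMod 3 :=
  β * kk 3 g + ∑ l ∈ R, e l * kk l g

/-- the cubic residue symbol of `l` modulo `l'` -/
noncomputable def rh (l l' : ℕ) : ZMod 3 := if l' % 3 = 1 then lk 3 l l' else 0

/-- admissible subgroups -/
structure Adm (R : Finset ℕ) (N : Subgroup GQ) : Prop where
  nrm : N.Normal
  nhds : (N : Set GQ) ∈ 𝓝 1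
  pg : ∀ g ∈ Gz 3, ∃ k, g ^ 3 ^ k ∈ N
  unr : ∀ P, Out R P → ∀ g ∈ P.inertia GQ, g ∈ N

/-- local data at a prime -/
structure Loc (l : ℕ) (σ τ : GQ) (e : ZMod 3) : Prop where
  ex : ∃ P : Ideal (𝓞 Qb), P.IsMaximal ∧ (l : 𝓞 Qb) ∈ P ∧ IsFrob l P σ ∧ τ ∈ P.inertia GQ
  ne : e ≠ 0
  tau : kk l τ = e
  spl : l % 3 = 1 → ch l τ = e ∧ ch l σ = kk l σ ∧ ∀ m : ℕ, m.Prime → m ≠ l → kk m σ = lk 3 m l

/-- local data at all primes -/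
def Tl (σ τ : ℕ → GQ) (e : ℕ → ZMod 3) : Prop := ∀ l, P0 l → Loc l (σ l) (τ l) (e l)

section
variable {A : Type} [AddCommGroup A] (J : A ≃ₗ[ℤ] A) (T : A) (η : GQ →* (A ≃ₗ[ℤ] A))
  (R : Finset ℕ)

/-- Galois modules -/
structure Gm0 (e : ℕ → ZMod 3) (β : ZMod 3) (τ : ℕ → GQ) : Prop where
  fix : ∀ g, η g T = T
  lin : ∀ g ∈ Gz 3, ∀ u, η g (J u) = J (η g u)
  ant : ∀ g ∉ Gz 3, ∀ u, η g (J u) = J (J (η g u))
  opn : ∀ u, {g | η g u = u} ∈ 𝓝 (1 : GQ)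
  unr : ∀ P, Out R P → ∀ g ∈ P.inertia GQ, ∀ k, ∀ u ∈ Wn J k, η g u = u
  tam : ∀ l ∈ R, ∀ k, ∀ u ∈ Wn J k, η (τ l) u = J u
  two : ∀ g ∈ Gz 3, ∀ u ∈ Wn J 2, η g u - u = (kD R e β g).val • Q.om J u

/-- Galois modules with given behaviour at three -/
structure Gm (e : ℕ → ZMod 3) (β : ZMod 3) (τ : ℕ → GQ) (η₀ : GQ → A ≃ₗ[ℤ] A) : Prop
    extends Gm0 J T η R e β τ where
  three : ∀ g ∈ DP P3, η g = η₀ g
  big : ∃ g ∈ DP P3, g ∈ Gz 3 ∧ ∃ u ∈ Wn J 3, η g u ≠ u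

/-- strict cocycles -/
def St : Set (GQ → A) :=
  {x | IsLocallyConstant x ∧ (∀ g h, x (g * h) = x g + η g (x h)) ∧ (∃ K, ∀ g, x g ∈ Wn J K) ∧
    (∀ P, Out R P → ∀ g ∈ P.inertia GQ, x g = 0) ∧ ∀ g ∈ DP P3, x g = 0}

end

/-- the class of `D` modulo cubes -/
def Cls (D : ℕ) (R : Finset ℕ) (e : ℕ → ZMod 3) (β : ZMod 3) : Prop :=
  ∃ c : ℕ, D = c ^ 3 * (3 ^ β.val * ∏ l ∈ R, l ^ (e l).val)

/-- rank plus corank is at most one -/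
def Cork (W : WeierstrassCurve ℚ) : Prop :=
  ∃ C : ℕ, ∀ k : ℕ, {c | c ∈ Sha W ∧ 3 ^ k • c = 0}.encard *
    3 ^ (k * Module.finrank ℤ W.toAffine.Point) ≤ C * 3 ^ k

/-! ### Marked primes -/

/-- parameters: level `0` is tiny, level `1` is junk, the levels `≥ 2` are bands; the flag says
that the prime is `1` modulo `3` -/
structure Par where
  nb : ℕ
  Λ : Finset ℕ
  W : Fin (nb + 2) × Bool → ℕ → ℝ

namespace Par
variable (Q : Par)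

/-- the marks -/
abbrev Mk : Type := Fin (Q.nb + 2) × Bool

/-- the mass of a mark -/
noncomputable def ms (m : Q.Mk) : ℝ := ∑ l ∈ Q.Λ, Q.W m l

/-- the weights of a sequence of marks -/
noncomputable def wm {d : ℕ} (μ : Fin d → Q.Mk) (j : Fin d) (u : Q.Λ) : ℝ :=
  Q.W (μ j) u / Q.ms (μ j)

/-- tiny primes -/
def Ti (l : ℕ) : Prop := l ∈ Q.Λ ∧ ∃ b, Q.W (0, b) l ≠ 0

/-- primes of the bands below the level `a` -/
def Lo (a l : ℕ) : Prop := l ∈ Q.Λ ∧ ∃ m : Q.Mk, 2 ≤ m.1.val ∧ m.1.val + 2 ≤ a ∧ Q.W m l ≠ 0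

/-- the properties of the parameters that do not involve `X` -/
structure Ok (c : ℝ) (n r : ℕ) (D η : ℝ) : Prop where
  pri : ∀ l ∈ Q.Λ, P0 l
  nn : ∀ m l, 0 ≤ Q.W m l
  pos : ∀ m, 0 < Q.ms m
  one : ∀ m : Q.Mk, m.1.val ≠ 0 → 1 ≤ Q.ms m
  wle : ∀ (m : Q.Mk) l, m.1.val ≠ 0 → Q.W m l ≤ η
  cls : ∀ (m : Q.Mk), ∀ l ∈ Q.Λ, Q.W m l ≠ 0 → (l % 3 = 1 ↔ m.2 = true)
  big : ∀ (m : Q.Mk), ∀ l ∈ Q.Λ, m.1.val ≠ 0 → Q.W m l ≠ 0 → n < l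
  bil : ∀ (m m' : Q.Mk) (a b : ℕ → ℂ) (u v : ZMod 3), m.1.val ≠ 0 → m'.1.val ≠ 0 → m'.2 = true →
    u ≠ 0 → (∀ l ∈ Q.Λ, ‖a l‖ ≤ Q.W m l) → (∀ l ∈ Q.Λ, ‖b l‖ ≤ Q.W m' l) →
    ‖∑ l ∈ Q.Λ, ∑ l' ∈ Q.Λ, if l = l' then 0 else
      a l * b l' * ZMod.stdAddChar (u * rh l l' + v * rh l' l)‖ ≤ η
  dir : ∀ m : Q.Mk, 2 ≤ m.1.val → m.2 = false → ∀ τ : ℝ, |τ| ≤ c → ∀ (R : Finset ℕ)
    (x : ℕ → ZMod 3) (a : ZMod 3), (∀ l ∈ R, Q.Ti l ∧ l % 3 = 1) → (R.card : ℝ) ≤ D →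
    (∃ l ∈ R, x l ≠ 0) ∨ a ≠ 0 →
    ‖∑ l ∈ Q.Λ, (Q.W m l : ℂ) * tw τ l *
      ZMod.stdAddChar (∑ k ∈ R, x k * rh l k + a * lm9 l)‖ ≤ η
  kum : ∀ m : Q.Mk, 2 ≤ m.1.val → m.2 = true → ∀ τ : ℝ, |τ| ≤ c → ∀ (R : Finset ℕ)
    (x : ℕ → ZMod 3) (a : ZMod 3), (∀ l ∈ R, Q.Ti l) → (R.card : ℝ) ≤ D →
    (∃ l ∈ R, x l ≠ 0) ∨ a ≠ 0 →
    ‖∑ l ∈ Q.Λ, (Q.W m l : ℂ) * tw τ l * fP (∑ k ∈ R, x k * rh k l + a * rh 3 l)‖ ≤ η
  eqs : ∀ m : Q.Mk, 2 ≤ m.1.val → ∀ (R : Finset ℕ) (N : Subgroup GQ),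
    (∀ l ∈ R, Q.Lo m.1 l) → R.card ≤ r → Ad0 n (insert 3 R) N → N ≤ Gz 3 →
    (∀ g ∈ Gz 3, ∃ k, g ^ 3 ^ k ∈ N) → ∀ σ : ℕ → GQ, (∀ l ∈ Q.Λ, Fr l (σ l)) →
    ∀ (e : ℕ) (φ : GQ → ℂ), Tf0 N e φ →
    (∃ z ∈ Gz 3, ∃ k : ℕ, 0 < k ∧ ∀ g, ∑ i ∈ range k, φ (z ^ i * g) = 0) →
    ‖∑ l ∈ Q.Λ, (Q.W m l : ℂ) * 𝔼 x : Exm e, φ (σ l ^ (x.1 : ℕ))‖ ≤ η

end Par

/-- typical sequences of levels and flags -/
structure Typ {d : ℕ} (m₀ : ℕ) (lv : Fin d → ℕ) (sp : Fin d → Bool) : Prop where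
  big : m₀ ≤ d
  lev : ∀ a, 10000 * (univ.filter fun j => lv j = a).card ≤ d
  spl : d ≤ 100 * (univ.filter fun j => 2 ≤ lv j ∧ sp j = true).card
  ine : d ≤ 100 * (univ.filter fun j => 2 ≤ lv j ∧ sp j = false).card

open Classical in
/-- sets of squarefree numbers prime to three of upper density at most `ε` -/
def Sp (B : ℕ → Prop) (ε : ℝ) : Prop :=
  ∀ᶠ X : ℕ in atTop, (((Icc 1 X).filter fun n => ¬ 3 ∣ n ∧ Squarefree n ∧ B n).card : ℝ) ≤ ε * X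

open Classical in
/-- the estimate for tuples -/
def Est (Q : Par) (c : ℝ) (B : ℕ → Prop) (D : ℝ) (m₀ : ℕ) (ε C ξ : ℝ) : Prop :=
  ∀ (y : ℝ) (d : ℕ) (μ : Fin d → Q.Mk), (d : ℝ) ≤ D →
    Typ m₀ (fun j => (μ j).1.val) (fun j => (μ j).2) →
    (Ex (U := fun _ => Q.Λ) (Q.wm μ) fun q =>
      if Function.Injective q ∧ B (np q) then kap c y q else 0) ≤
    ε * Ex (U := fun _ => Q.Λ) (Q.wm μ) (kap c y) + C ^ (d + 1) * ξ

/-! ### The interfaces -/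

/-- PART A: from estimates for tuples to densities -/
def DensT : Prop :=
  ∃ c : ℝ, 0 < c ∧ ∀ ε : ℝ, 0 < ε → ∃ ε' : ℝ, 0 < ε' ∧ ∀ (B : ℕ → Prop) (n r m₀ a : ℕ) (C : ℝ),
    1 ≤ C →
    (∀ (Q : Par) (D ξ : ℝ), 0 ≤ ξ → ξ ≤ 1 → Q.Ok c n r D (ξ ^ 2 ^ a) → Est Q c B D m₀ ε' C ξ) →
    Sp B ε

/-- PART D: the reciprocity law -/
def RecD : Prop :=
  ∀ (R : Finset ℕ) (e : ℕ → ZMod 3) (β : ZMod 3) (M : Subgroup GQ) (c : GQ → GQ → ZMod 3)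
    (k : GQ → ZMod 3) (P : ℕ → Ideal (𝓞 Qb)) (σ : ℕ → GQ) (s b : ℕ → GQ → ZMod 3),
    (∀ l ∈ R, P0 l) → Adm R M → M ≤ Gz 3 →
    (∀ g h, ∀ n ∈ M, ∀ n' ∈ M, c (g * n) (h * n') = c g h) →
    (∀ g h j, c g h + c (g * h) j = sg g * c h j + c g (h * j)) →
    (∀ g h, k (g * h) = k g + sg g * k h) → (∀ g ∈ Gz 3, k g = kD R e β g) →
    (∀ l ∈ insert 3 R, (P l).IsMaximal ∧ (l : 𝓞 Qb) ∈ P l ∧ IsFrob l (P l) (σ l) ∧
      (∀ g ∈ (P l).inertia GQ, s l g = 0) ∧ ∀ g ∈ DP (P l), ∀ h ∈ DP (P l),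
        s l (g * h) = s l g + s l h ∧ (g⁻¹ * h ∈ M → s l g = s l h ∧ b l g = b l h) ∧
        c g h = s l h * k g + b l g + sg g * b l h - b l (g * h)) →
    ∑ l ∈ R, e l * s l (σ l) + β * s 3 (σ 3) = 0

end Pool.Agent.MP_e23604_nt.T
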