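import Mathlib
import Pool.Agent.Mg.Fe23604m.Gd7623c
import Pool.Agent.Mg.Fe23604m.G0fbe18

set_option linter.all false

section

/-! Cubic twists: linear data, systems, words and error terms. -/

namespace Pool.Agent.MP_e23604_nt.T

open Finset Filter NumberField
open MP_f68ac8_nt (cyc IsFrob)
open MP_f68ac8_nt.Zv (Ex Prob piV Unf)
open MP_f68ac8_nt.Zk (NS brL lk msk Av)
open MP_f68ac8_nt.Nd (Lr Fr Gz Exm fP kap np)
open Q (Wn Pre rot0)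
open scoped BigOperators Topology

/-! ### The linear data of a tuple of primes -/

/-- vectors -/
abbrev V3 (d : ℕ) : Type := Fin d → ZMod 3

/-- flags, exponents and residue symbols -/
structure Dt (d : ℕ) where
  sp : Fin d → Bool
  e : V3 d
  lam : V3 d
  r3 : V3 d
  rho : Fin d → V3 d

/-- the data of a tuple -/
noncomputable def dtl {d : ℕ} (e : ℕ → ZMod 3) (l : Fin d → ℕ) : Dt d where
  sp j := decide (l j % 3 = 1)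
  e j := e (l j)
  lam j := lm9 (l j)
  r3 j := rh 3 (l j)
  rho i j := rh (l i) (l j)

section
variable {d : ℕ}

/-- the number of split indices -/
def n1 (sp : Fin d → Bool) : ℕ := (univ.filter fun j => sp j = true).card

/-- the number of inert indices -/
def n2 (sp : Fin d → Bool) : ℕ := (univ.filter fun j => sp j = false).card

/-- vectors that are not constant -/
def Nc (u : V3 d) : Prop := ∃ i j, u i ≠ u j

/-- the indices in low bands with a given value -/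
def Bz (lv : Fin d → ℕ) (z : V3 d) (a : ℕ) (b : ZMod 3) : Finset (Fin d) :=
  univ.filter fun j => 2 ≤ lv j ∧ lv j ≤ a ∧ z j = b

/-- many such indices, with two different values of `u` -/
def Gd (lv : Fin d → ℕ) (L : ℕ) (u z : V3 d) (a : ℕ) (b : ZMod 3) : Prop :=
  L ≤ (Bz lv z a b).card ∧ ∃ i ∈ Bz lv z a b, ∃ j ∈ Bz lv z a b, u i ≠ u j

/-- rich pairs -/
def Rich (lv : Fin d → ℕ) (L : ℕ) (u z : V3 d) : Prop :=
  ∃ a b t, Gd lv L u z a b ∧ a + 2 ≤ lv t ∧ z t ≠ b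

namespace Dt
variable (D : Dt d) (β : ZMod 3)

/-- the linear forms -/
def Kf (u : V3 d) (γ : ZMod 3) (j : Fin d) : ZMod 3 :=
  ∑ i ∈ univ.erase j, D.e i * D.rho i j * (u i - u j) + (γ - β * u j) * D.r3 j

/-- the linear equations -/
def KK (u : V3 d) (γ : ZMod 3) : Prop := ∀ j, D.sp j = true → D.Kf β u γ j = 0

/-- the form at three -/
def L0 (y : V3 d) : ZMod 3 := ∑ i, D.e i * y i * D.lam i

/-- the class modulo nine -/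
def cls : ZMod 3 := ∑ i, D.e i * D.lam i

/-- the strict kernel -/
def K0 : Set (V3 d) := {y | D.KK β y 0 ∧ D.L0 y = 0}

/-- the leading digits -/
def KS : Set (V3 d) := {u | ∃ γ, D.KK β u γ}

/-- independence of the forms -/
def GA : Prop :=
  ∀ (X : V3 d) (g : ZMod 3),
    (∀ y, ∑ j with D.sp j = true, X j * D.Kf β y 0 j + g * D.L0 y = 0) →
    (∀ j, D.sp j = true → X j = 0) ∧ g = 0

/-- three is not a cube modulo some prime -/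
def G3 : Prop := ∃ j, D.sp j = true ∧ D.r3 j ≠ 0

/-- generic data -/
structure Gen : Prop where
  ga : D.GA β
  g3 : D.G3
  ine : ∃ j, D.sp j = false

/-- the trivial solutions -/
def Af (u z : V3 d) (γ : ZMod 3) : Prop :=
  ∃ a b γ', D.KK β u γ' ∧ (∀ j, z j = a * u j + b) ∧ γ = a * γ' + β * b

variable (lv : Fin d → ℕ) (L : ℕ)

/-- the number of solutions that are not rich -/
noncomputable def NK (u : V3 d) : ℕ :=
  {p : V3 d × ZMod 3 | D.KK β p.1 p.2 ∧ ¬ Rich lv L u p.1}.ncard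

/-- the number of exceptional solutions -/
noncomputable def Rn (u : V3 d) : ℕ :=
  {p : V3 d × ZMod 3 | D.KK β p.1 p.2 ∧ ¬ Rich lv L u p.1 ∧ ¬ D.Af β u p.1 p.2}.ncard

open Classical in
/-- all exceptional solutions -/
noncomputable def Rt : ℝ := ∑ u : V3 d, if u ∈ D.KS β ∧ Nc u then (D.Rn β lv L u : ℝ) else 0

/-- the main term -/
noncomputable def H1 (h : ℕ) : ℝ :=
  (4 * D.Rt β lv L + 3 / 3 ^ h * ((D.KS β).ncard : ℝ)) / 3 ^ n2 D.sp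

open Classical in
/-- the majorant -/
noncomputable def Hf (h : ℕ) : ℝ := (if D.Gen β then 0 else 1) + 3 * D.H1 β lv L h

open Classical in
/-- the weights of the levels -/
noncomputable def wt (h n : ℕ) (u : V3 d) : ℝ :=
  if u ∈ D.KS β ∧ Nc u then
    (if D.Rn β lv L u = 0 then 1 / 3 ^ h else if n + 2 = L then 1 else 0) else 0

/-- the test functions -/
noncomputable def Tf (φ : Fin d → V3 d) (c a : V3 d) : ℂ :=
  (∏ j with D.sp j = true, fP (∑ i ∈ univ.erase j, φ i j * (D.e i * D.rho i j) + c j * D.r3 j)) *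
    ZMod.stdAddChar (∑ i, a i * (D.e i * D.lam i))

end Dt

/-- the test functions that oscillate -/
def Osc (lv : Fin d → ℕ) (sp : Fin d → Bool) (φ : Fin d → V3 d) (c a : V3 d) : Prop :=
  (∃ i j, i ≠ j ∧ lv i ≠ 0 ∧ lv j ≠ 0 ∧ sp j = true ∧ φ i j ≠ 0) ∨
  (∃ i, 2 ≤ lv i ∧ sp i = false ∧ ((∃ j, sp j = true ∧ φ i j ≠ 0) ∨ a i ≠ 0)) ∨
  ∃ t, 2 ≤ lv t ∧ sp t = true ∧ (∀ j, j ≠ t → sp j = true → φ t j = 0) ∧ a t = 0 ∧
    ((∃ i, i ≠ t ∧ φ i t ≠ 0) ∨ c t ≠ 0)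

/-- weights with oscillation -/
structure OscM {Ω : Type} [Fintype Ω] (ν : Ω → ℝ) (D : Ω → Dt d) (lv : Fin d → ℕ)
    (sp : Fin d → Bool) (η : ℝ) : Prop where
  pos : 0 ≤ η
  nn : ∀ q, 0 ≤ ν q
  sup : ∀ q, ν q ≠ 0 → (D q).sp = sp
  osc : ∀ φ c a, Osc lv sp φ c a → ‖∑ q, (ν q : ℂ) * (D q).Tf φ c a‖ ≤ η

/-- the dual variables of several systems of equations -/
def fX {ι : Type} [Fintype ι] (u X : ι → V3 d) (i j : Fin d) : ZMod 3 :=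
  ∑ k, X k j * (u k i - u k j)

/-- their coefficients at three -/
def cX {ι : Type} [Fintype ι] (β : ZMod 3) (u X : ι → V3 d) (γ : ι → ZMod 3) (j : Fin d) :
    ZMod 3 := ∑ k, X k j * (γ k - β * u k j)

end

/-! ### Systems -/

/-- the data that do not depend on the primes -/
structure Bs (V : Type) [AddCommGroup V] where
  J : V ≃ₗ[ℤ] V
  T : V
  m : ℕ
  σ : ℕ → GQ
  τ : ℕ → GQ
  e : ℕ → ZMod 3
  β : ZMod 3
  φ : GQ
  o : V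

/-- systems -/
structure Sy (V : Type) [AddCommGroup V] (d : ℕ) extends Bs V where
  η : GQ →* (V ≃ₗ[ℤ] V)
  l : Fin d → ℕ

/-- the even levels that are used -/
def Lv (m : ℕ) : Finset ℕ := (range (m - 1)).filter fun n => Even n ∧ 2 ≤ n

/-- the real part of the additive character -/
noncomputable def cs (a : ZMod 3) : ℝ := (ZMod.stdAddChar a : ℂ).re

/-- candidates with given leading digits -/
def Bs.Cand {V : Type} [AddCommGroup V] (B : Bs V) {d : ℕ} (u : V3 d) (v : Fin d → V) : Prop :=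
  ∀ j, v j ∈ Wn B.J (B.m + 1) ∧ dig B.J B.T B.m (v j) = u j

namespace Sy
variable {V : Type} [AddCommGroup V] {d : ℕ} (S : Sy V d)

/-- the set of primes -/
def R : Finset ℕ := univ.image S.l

/-- the linear data -/
noncomputable def dt : Dt d := dtl S.e S.l

/-- valid systems -/
structure Ok : Prop where
  cm : Cm S.J S.T (S.m + 2)
  ev : Even S.m
  four : 4 ≤ S.m
  tl : Tl S.σ S.τ S.e
  gm : Gm0 S.J S.T S.η S.R S.e S.β S.τ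
  fr : IsFrob 3 P3 S.φ
  inj : Function.Injective S.l
  pri : ∀ j, P0 (S.l j)
  o : ∀ g ∈ DP P3, S.o - S.η g S.o ∈ Wn S.J S.m

/-- cocycles modulo the level `n` -/
structure Ap (n : ℕ) (v : Fin d → V) (x : GQ → V) : Prop where
  lc : IsLocallyConstant x
  co : ∀ g h, x (g * h) - (x g + S.η g (x h)) ∈ Wn S.J n
  val : ∀ g, x g ∈ Wn S.J S.m
  unr : ∀ P, Out S.R P → ∀ g ∈ P.inertia GQ, x g ∈ Wn S.J n
  thr : ∀ g ∈ P3.inertia GQ, x g - (S.o - S.η g S.o) ∈ Wn S.J n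
  tam : ∀ j, x (S.τ (S.l j)) - (v j - S.J (v j)) ∈ Wn S.J n

/-- the equations -/
noncomputable def Ev (x : GQ → V) (v : Fin d → V) : Option (Fin d) → V
  | some j => x (S.σ (S.l j)) + S.η (S.σ (S.l j)) (v j) - v j
  | none => x S.φ - (S.o - S.η S.φ S.o)

/-- the solutions -/
def Sol (n k : ℕ) (u : V3 d) : Set (Fin d → V) :=
  {v | S.Cand u v ∧ ∃ x, S.Ap n v x ∧ ∀ i, S.Ev x v i ∈ Wn S.J k}

/-- the obstructions -/
noncomputable def ob (n : ℕ) (v : Fin d → V) (i : Option (Fin d)) : ZMod 3 :=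
  dig S.J S.T n (S.Ev (Classical.epsilon (S.Ap n v)) v i)

/-- the phase -/
noncomputable def ph (n : ℕ) (v : Fin d → V) (z : V3 d) (γ : ZMod 3) : ZMod 3 :=
  ∑ j, S.e (S.l j) * z j * S.ob n v (some j) + γ * S.ob n v none

/-- the number of classes of solutions -/
noncomputable def Nn (n : ℕ) (u : V3 d) : ℝ := (S.Sol n n u).ncard / 3 ^ ((n + 1) * d)

/-- admissible shifts -/
def Sh (n : ℕ) (w : Fin d → V) : Prop :=
  ∀ j, w j ∈ Wn S.J (if S.l j % 3 = 1 then n + 2 else n + 1)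

/-- true solutions with given leading digits -/
def Tr (u : V3 d) (v : Fin d → V) : Prop :=
  S.Cand u v ∧ ∃ x, S.Ap 0 v x ∧ ∀ i, S.Ev x v i ∈ Wn S.J 1

/-- existence of a true solution -/
def Tru : Prop := ∃ u v, Nc u ∧ S.Tr u v

variable [Fintype V] (lv : Fin d → ℕ)

open Classical in
/-- the sum of the rich terms -/
noncomputable def Rs (n : ℕ) (u : V3 d) : ℝ :=
  (∑ v : Fin d → V, ∑ z : V3 d, ∑ γ : ZMod 3,
    if v ∈ S.Sol n (n + 1) u ∧ Rich lv S.m u z then cs (S.ph n v z γ) else 0) /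
    (3 ^ (d + 1) * 3 ^ ((n + 1) * d))

/-- the total error -/
noncomputable def Tot (h : ℕ) : ℝ :=
  ∑ n ∈ Lv S.m, ∑ u : V3 d, S.dt.wt S.β lv S.m h n u * S.Rs lv n u

end Sy

/-! ### Divisible modules -/

section
variable {A : Type} [AddCommGroup A] (J : A ≃ₗ[ℤ] A) (T : A) (η : GQ →* (A ≃ₗ[ℤ] A))

/-- a strict cocycle of level `m` -/
structure Lev (R : Finset ℕ) (τ : ℕ → GQ) (m : ℕ) (x : GQ → A) (p : ℕ → A) (b : A) : Prop where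
  st : x ∈ St J η R
  base : b ∈ Wn J (m + 2)
  lev : ∀ g, x g + η g b - b ∈ Wn J m
  fix : ∀ l ∈ R, x (τ l) + J (p l) = p l ∧ p l - b ∈ Wn J (m + 1)
  nc : ∃ l ∈ R, ∃ l' ∈ R, p l - p l' ∉ Wn J m

variable {V : Type} [AddCommGroup V] (JV : V ≃ₗ[ℤ] V) (TV : V) (ι : V →ₗ[ℤ] A)

/-- finite pieces of a module -/
structure Emb (N : ℕ) : Prop where
  cm : Cm JV TV N
  inj : Function.Injective ι
  rng : ∀ u ∈ Wn J N, ∃ y, ι y = u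
  com : ∀ y, ι (JV y) = J (ι y)
  lev : ∀ k y, ι y ∈ Wn J k ↔ y ∈ Wn JV k
  pt : ι TV = T

end

/-! ### Words -/

section
variable {d : ℕ} {P Λ B O A : Type} [Group P]

open Classical in
/-- the values of the letters -/
noncomputable def vT (q : Fin d → Λ) (x : Fin d → P) (x0 : B → P) : Λ ⊕ B → P :=
  Sum.elim (fun l => ((List.finRange d).map fun j => if q j = l then x j else 1).prod) x0

/-- the values of the letters on a cube -/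
noncomputable def vC (S : Finset (Fin d)) (x : Fin d → P) (x0 : B → P) (q₀ q₁ : Fin d → Λ)
    (ω : Finset (Fin d)) : Λ ⊕ B → P := vT (ω.piecewise q₁ q₀) (msk S x) x0

/-- a commutator changes the function by a constant -/
def ShC {L Ω : Type} (W : Ω → L → P) (κ : (Ω → P) → ZMod 3) : Prop :=
  ∃ z ∈ commutator (FreeGroup L), ∃ c : ZMod 3, c ≠ 0 ∧ ∀ k ∈ (piV W).range, ∀ h ∈ (piV W).range,
    κ (k * piV W z * k⁻¹ * h) = κ h + c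

/-- equal values of words after removing a letter -/
def DatT (S : Finset (Fin d)) (x : Fin d → P) (x0 : B → P) (q q' : Fin d → Λ)
    (y y' : Fin d ⊕ O → FreeGroup (Λ ⊕ B)) : Prop :=
  ∀ i J, J ⊆ S ∨ Sᶜ ⊆ J → (∃ s ∈ S, s ∉ J ∧ i ≠ Sum.inl s) →
    FreeGroup.lift (vT q (msk J x) x0) (y i) = FreeGroup.lift (vT q' (msk J x) x0) (y' i)

variable (P) in
/-- equidistribution of the random words -/
def EQT [Fintype P] [Fintype Λ] (lv : Fin d → ℕ) (w : Fin d → Λ → ℝ) {Y : Type} [Fintype Y]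
    (y : Lr d Λ → Y → FreeGroup (Λ ⊕ B)) (L : ℕ) (η : ℝ) : Prop :=
  ∀ (t : Fin d) (S : Finset (Fin d)), 2 ≤ lv t → (∀ j ∈ S, 2 ≤ lv j ∧ lv j + 2 ≤ lv t) →
    S.card ≤ L → ∀ (x : Fin d → P) (x0 : B → P) (q₀ q₁ : Fin d → Λ)
    (κ : (Finset (Fin d) → P) → ZMod 3), (∀ j ∈ S, w j (q₀ j) ≠ 0 ∧ w j (q₁ j) ≠ 0) →
    ShC (vC S x x0 q₀ q₁) κ →
    ‖∑ u, w t u • 𝔼 a, Av (piV (vC S x x0 q₀ q₁)).range κ
      (piV (vC S x x0 q₀ q₁) (y ⟨t, u⟩ a))‖ ≤ η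

end

/-- the data of an error term -/
structure Trm (P B O A : Type) (d : ℕ) where
  x : Fin d → P
  x0 : B → P
  s : List (Fin d)
  t : Fin d
  ψ : P → ZMod 3
  Cn : (Fin d ⊕ O → P) → Prop
  Ob : (Fin d → Fin d → A) → (Fin d ⊕ O → P) → ZMod 3
  c : (Fin d → Fin d → A) → ℝ

namespace Trm
variable {d : ℕ} {P B O A : Type} [Group P] (T : Trm P B O A d)

/-- admissible error terms -/
structure Ok (F : ℕ → Subgroup P) (L : ℕ) (lv : Fin d → ℕ) : Prop where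
  nd : T.s.Nodup
  two : 2 ≤ T.s.length
  len : T.s.length + 1 ≤ L
  lv : ∀ j ∈ T.s, 2 ≤ lv j ∧ lv j + 2 ≤ lv T.t
  mem : ∀ j, T.x j ∈ F 1
  add : ∀ g ∈ F T.s.length, ∀ h ∈ F T.s.length, T.ψ (g * h) = T.ψ g + T.ψ h
  zero : ∀ g ∈ F (T.s.length + 1), T.ψ g = 0
  cj : ∀ g ∈ F T.s.length, ∀ a, T.ψ (a * g * a⁻¹) = T.ψ g
  br : T.ψ (brL (T.s.map T.x)) ≠ 0
  inv : ∀ r Z Z', T.c r ≠ 0 → T.Cn Z → (∀ i, (Z' i)⁻¹ * Z i ∈ F T.s.length) → T.Cn Z' ∧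
    ((∀ i, (∀ j ∈ T.s, i ≠ Sum.inl j) → i ≠ Sum.inl T.t → (Z' i)⁻¹ * Z i ∈ F (T.s.length + 1)) →
      T.Ob r Z = T.Ob r Z' + T.ψ ((Z' (Sum.inl T.t))⁻¹ * Z (Sum.inl T.t)))
  le : ∀ r, |T.c r| ≤ 1

open Classical in
/-- the value of an error term -/
noncomputable def val {Λ : Type} (r : Fin d → Fin d → A) (q : Fin d → Λ)
    (y : Fin d ⊕ O → FreeGroup (Λ ⊕ B)) : ℂ :=
  if T.Cn (fun i => FreeGroup.lift (vT q T.x T.x0) (y i)) then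
    (T.c r : ℂ) * ZMod.stdAddChar (T.Ob r fun i => FreeGroup.lift (vT q T.x T.x0) (y i)) else 0

end Trm

/-- the letters -/
def ltr (Λ : Finset ℕ) {B : Type} (τ : ℕ → GQ) (bb : B → GQ) : Λ ⊕ B → GQ :=
  Sum.elim (fun l => τ l) bb

/-- generators of the Galois group modulo `N` -/
structure GnT (Λ : Finset ℕ) {B : Type} (σ τ : ℕ → GQ) (bb : B → GQ) (N : Subgroup GQ) :
    Prop where
  adm : Adm Λ N
  le : N ≤ Gz 3
  fr : ∀ l ∈ Λ, Fr l (σ l)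
  mem : ∀ b, bb b ∈ P3.inertia GQ
  cov : ∀ g ∈ P3.inertia GQ, ∃ b, (bb b)⁻¹ * g ∈ N
  gen : ∀ g, ∃ w, (FreeGroup.lift (ltr Λ τ bb) w)⁻¹ * g ∈ N
  unr : ∀ (M : Subgroup GQ) (R : Finset ℕ), M.Normal → N ≤ M → (∀ l ∈ Λ, l ∉ R → τ l ∈ M) →
    ∀ P, Out R P → ∀ g ∈ P.inertia GQ, g ∈ M

/-- words that represent the given elements -/
structure Gw {Λ : Finset ℕ} {B O : Type} {d : ℕ} (σ τ : ℕ → GQ) (bb : B → GQ) (N : Subgroup GQ)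
    (γ : O → GQ) (q : Fin d → Λ) (b : Fin d → ℕ) (y : Fin d → FreeGroup (Λ ⊕ B))
    (w : O → FreeGroup (Λ ⊕ B)) : Prop where
  cop : ∀ j, Nat.Coprime (b j) 6
  tam : ∀ j, (FreeGroup.lift (ltr Λ τ bb) (y j))⁻¹ * σ (q j) ^ b j ∈ N
  oth : ∀ o, (FreeGroup.lift (ltr Λ τ bb) (w o))⁻¹ * γ o ∈ N

/-- the data of all pairs -/
def prs {Λ : Finset ℕ} {A : Type} {d : ℕ} (pd : ℕ → ℕ → A) (q : Fin d → Λ) (b : Fin d → ℕ) :
    Fin d → Fin d → A × ZMod 3 := fun i j => (pd (q i) (q j), (b i : ZMod 3))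

/-! ### The error terms of a system -/

/-- the data of a pair of primes -/
abbrev Pd : Type := Bool × Bool × ZMod 3 × ZMod 3 × ZMod 3 × ZMod 3

/-- the data of the pair `l`, `l'` -/
noncomputable def pa (e : ℕ → ZMod 3) (l l' : ℕ) : Pd :=
  (decide (l = l'), decide (l' % 3 = 1), e l, lm9 l, rh 3 l', rh l l')

section
variable {d : ℕ}

/-- the linear data of a matrix of pairs -/
def ofP (r : Fin d → Fin d → Pd × ZMod 3) : Dt d where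
  sp j := (r j j).1.2.1
  e j := (r j j).1.2.2.1
  lam j := (r j j).1.2.2.2.1
  r3 j := (r j j).1.2.2.2.2.1
  rho i j := (r i j).1.2.2.2.2.2

/-- distinct primes, generic data and a given class -/
def Act (β c₀ : ZMod 3) (r : Fin d → Fin d → Pd × ZMod 3) : Prop :=
  (∀ i j, (r i j).1.1 = true → i = j) ∧ (ofP r).Gen β ∧ (ofP r).cls = c₀

variable {V : Type} [AddCommGroup V]

open Classical in
/-- the affine map with linear term `a` that fixes `o` -/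
noncomputable def afx (J : V ≃ₗ[ℤ] V) (m : ℕ) (a : V ≃ₗ[ℤ] V) (o : V) : Pm J m :=
  if h : rot0 a o ∈ Pm J m then ⟨_, h⟩ else 1

namespace Bs
variable (B : Bs V) (η₀ : GQ → V ≃ₗ[ℤ] V)

/-- the elements that are represented by the additional words -/
noncomputable def gam : Option (Fin B.m) → GQ := fun o => o.elim B.φ fun _ => 1

/-- the values of the tame letters -/
noncomputable def xr (v : Fin d → V) : Fin d → Pm B.J B.m := fun j => rot B.J B.m (v j)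

/-- the values of the letters at three -/
noncomputable def xb {ι : Type} (bb : ι → GQ) : ι → Pm B.J B.m :=
  fun b => afx B.J B.m (η₀ (bb b)) B.o

/-- the equations for words -/
def evW (v : Fin d → V) (Z : Fin d ⊕ Option (Fin B.m) → Pm B.J B.m) : Option (Fin d) → V
  | some j => (Z (Sum.inl j)).1 (v j) - v j
  | none => (Z (Sum.inr none)).1 0 - (B.o - η₀ B.φ B.o)

/-- the conditions for words -/
def cnW (n : ℕ) (v : Fin d → V) (Z : Fin d ⊕ Option (Fin B.m) → Pm B.J B.m) : Prop :=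
  ∀ i, B.evW η₀ v Z i ∈ Wn B.J (n + 1)

/-- the phase for words -/
noncomputable def obW (n : ℕ) (v : Fin d → V) (z : V3 d) (γ : ZMod 3) (a : V3 d)
    (Z : Fin d ⊕ Option (Fin B.m) → Pm B.J B.m) : ZMod 3 :=
  ∑ j, a j * z j * dig B.J B.T n (B.evW η₀ v Z (some j)) + γ * dig B.J B.T n (B.evW η₀ v Z none) +
    ∑ k : Fin B.m with n ≤ k.1, dig B.J B.T k ((Z (Sum.inr (some k))).1 0)

open Classical in
/-- an error term -/
noncomputable def mkT {ι : Type} (bb : ι → GQ) (n : ℕ) (v : Fin d → V) (z : V3 d) (γ ε : ZMod 3)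
    (s : List (Fin d)) (t : Fin d) (c : (Fin d → Fin d → Pd × ZMod 3) → ℝ) :
    Trm (Pm B.J B.m) ι (Option (Fin B.m)) (Pd × ZMod 3) d where
  x := B.xr v
  x0 := B.xb η₀ bb
  s := s
  t := t
  ψ g := ε * z t * dig B.J B.T n (g.1 (v t) - v t)
  Cn := B.cnW η₀ n v
  Ob r := B.obW η₀ n v z γ fun j => (ofP r).e j * (r j j).2
  c r := if (ofP r).e t * (r t t).2 = ε then c r else 0

end Bs

/-- the setting of the words -/
structure Sy.Wd (S : Sy V d) (η₀ : GQ → V ≃ₗ[ℤ] V) {Λ : Finset ℕ} {ι : Type} (bb : ι → GQ)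
    (N : Subgroup GQ) (q : Fin d → Λ) : Prop where
  ok : S.Ok
  gn : GnT Λ S.σ S.τ bb N
  pri : ∀ l ∈ Λ, P0 l
  l : ∀ j, S.l j = q j
  eta : ∀ g ∈ DP P3, S.η g = η₀ g
  ker : ∀ g ∈ N, S.η g = 1
  ap : ∀ n v x, S.Ap n v x → ∀ g ∈ N, x g ∈ Wn S.J n

/-- the homomorphism given by the letters -/
noncomputable def Bs.pw (B : Bs V) (η₀ : GQ → V ≃ₗ[ℤ] V) {Λ ι : Type} (bb : ι → GQ)
    (q : Fin d → Λ) (v : Fin d → V) : FreeGroup (Λ ⊕ ι) →* Pm B.J B.m :=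
  FreeGroup.lift (vT q (B.xr v) (B.xb η₀ bb))

end

end Pool.Agent.MP_e23604_nt.T

end

section

/-! Cubic twists: the steps of the proof, first part. -/

namespace Pool.Agent.MP_e23604_nt.T

open Finset Filter NumberField
open MP_f68ac8_nt (cyc IsFrob)
open MP_f68ac8_nt.Zv (Ex Prob piV Unf)
open MP_f68ac8_nt.Zk (NS brL lk msk Av)
open MP_f68ac8_nt.Nd (Lr Fr Gz Exm fP kap np OKp)
open Q (Wn Pre rot0)
open scoped BigOperators Topology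

/-! ### Modules -/

/-- statements about all modules -/
def AllM (X : ∀ (V : Type) [AddCommGroup V], (V ≃ₗ[ℤ] V) → V → Prop) : Prop :=
  ∀ (V : Type) [AddCommGroup V] (J : V ≃ₗ[ℤ] V) (T : V), Cm0 J T → X V J T

/-- levels and digits -/
def BasT : Prop :=
  AllM fun _ _ J T => (∀ a b, a ≤ b → Wn J a ≤ Wn J b) ∧ Wn J 0 = ⊥ ∧
    (∀ n u, Q.om J u ∈ Wn J n ↔ u ∈ Wn J (n + 1)) ∧ Pre J J ∧
    (∀ n u, 3 • u ∈ Wn J n ↔ u ∈ Wn J (n + 2)) ∧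
    (∀ n, ∀ u ∈ Wn J (n + 1), dig J T n u = 0 ↔ u ∈ Wn J n) ∧
    (∀ n, ∀ u ∈ Wn J (n + 1), ∀ u' ∈ Wn J (n + 1),
      dig J T n (u + u') = dig J T n u + dig J T n u' ∧
      dig J T n (u - u') = dig J T n u - dig J T n u') ∧
    (∀ n (k : ℕ), ∀ u ∈ Wn J (n + 1), dig J T n (k • u) = k * dig J T n u) ∧
    (∀ n u, ∀ w ∈ Wn J n, dig J T n (u + w) = dig J T n u) ∧
    (∀ n u, dig J T n (Q.om J u) = dig J T (n + 1) u ∧ Q.om J u = J u - u) ∧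
    T ∈ Wn J 1 ∧ dig J T 0 T = 1

/-- semilinear automorphisms -/
def SemT : Prop :=
  AllM fun V _ J T => ∀ a : V ≃ₗ[ℤ] V, a T = T →
    ((∀ u, a (J u) = J (a u)) → Pr3 J a ∧ (∀ n, ∀ u ∈ Wn J (n + 1), a u - u ∈ Wn J n) ∧
      (∀ κ : ZMod 3, (∀ u ∈ Wn J 2, a u - u = κ.val • Q.om J u) →
        ∀ n, ∀ u ∈ Wn J (n + 2), dig J T n (a u - u) = κ * dig J T (n + 1) u) ∧
      ((∃ u ∈ Wn J 3, a u ≠ u) → ∀ K k, ∀ b ∈ Wn J K, a b - b ∈ Wn J k → b ∈ Wn J (k + 2))) ∧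
    ((∀ u, a (J u) = J (J (a u))) → Pr3 J a ∧
      ∀ n, ∀ u ∈ Wn J (n + 1), dig J T n (a u) = (-1) ^ n * dig J T n u)

/-- the sizes of the levels -/
def LevS : Prop :=
  AllM fun V _ J T =>
    (∀ N, Cm J T N → (∀ n, n < N → ∃ t ∈ Wn J (n + 1), dig J T n t = 1) ∧
      ∀ n, n ≤ N → Nat.card (Wn J n) = 3 ^ n) ∧
    (CmI J T → (∀ n, ∃ t ∈ Wn J (n + 1), dig J T n t = 1) ∧ ∀ n, Nat.card (Wn J n) = 3 ^ n) ∧
    ∀ (H : AddSubgroup V) (K : ℕ), (∀ u ∈ H, J u ∈ H) → (∀ u ∈ H, u ∈ Wn J K) →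
      ∃ k, k ≤ K ∧ (∀ u, u ∈ H ↔ u ∈ Wn J k) ∧ (k ≠ 0 → ∃ u ∈ H, dig J T (k - 1) u = 1)

/-- the filtration of the affine group -/
def FilT : Prop :=
  AllM fun V _ J _ => ∀ m, NS (Fk J m) ∧ (∀ k, (Fk J m k).Normal) ∧
    (∀ k, ∀ c ∈ Fk J m k, ∀ n, ∀ y ∈ Wn J n, n ≤ m + 1 → c.1 y - y ∈ Wn J (m + 1 - k) ∧
      c.1 y - y - c.1 0 ∈ Wn J (n - k)) ∧
    (∀ v ∈ Wn J (m + 1), (∀ y, (rot J m v).1 y = J (y - v) + v) ∧ (rot J m v).1.linear = J ∧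
      rot J m v ∈ Fk J m 1) ∧
    ∀ (a : V ≃ₗ[ℤ] V) (o : V), Pr3 J a → o - a o ∈ Wn J m →
      (∀ y, (afx J m a o).1 y = a (y - o) + o) ∧ (afx J m a o).1.linear = a

/-- iterated commutators of rotations -/
def BrT : Prop :=
  AllM fun V _ J _ => ∀ (m : ℕ) (l : List V) (v₁ v₂ : V),
    (∀ v ∈ l, v ∈ Wn J (m + 1)) → v₁ ∈ Wn J (m + 1) → v₂ ∈ Wn J (m + 1) → v₁ - v₂ ∉ Wn J m →
    l.length + 2 ≤ m → ∃ c ∈ Wn J (m - 1 - l.length), c ∉ Wn J (m - 2 - l.length) ∧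
      ∀ y, (brL ((l ++ [v₁, v₂]).map (rot J m))).1 y = y + c

/-! ### The Galois group -/

/-- the quadratic character -/
def SgT : Prop :=
  (∀ g h, sg (g * h) = sg g * sg h) ∧ (∀ g ∈ Gz 3, sg g = 1) ∧ (∀ g ∉ Gz 3, sg g = -1) ∧
    (Gz 3).Normal ∧ (Gz 3 : Set GQ) ∈ 𝓝 1 ∧ commutator GQ ≤ Gz 3 ∧
    (∀ g ∉ Gz 3, ∀ h ∉ Gz 3, g * h ∈ Gz 3) ∧
    ∀ g (k : ℕ), Odd k → (g ^ k ∈ Gz 3 ↔ g ∈ Gz 3)

/-- locally constant functions -/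
def UcT : Prop :=
  ∀ (α : Type) (a : GQ → α), (IsLocallyConstant a → ∃ N : Subgroup GQ, N.Normal ∧
      (N : Set GQ) ∈ 𝓝 1 ∧ ∀ g h, g⁻¹ * h ∈ N → a g = a h) ∧
    ∀ N : Subgroup GQ, (N : Set GQ) ∈ 𝓝 1 → N.index ≠ 0 ∧
      ((∀ g h, g⁻¹ * h ∈ N → a g = a h) → IsLocallyConstant a)

/-- primes and decomposition groups -/
def DecT : Prop :=
  P3.IsMaximal ∧ ((3 : ℕ) : 𝓞 Qb) ∈ P3 ∧ (∃ φ, IsFrob 3 P3 φ) ∧
    ∀ P : Ideal (𝓞 Qb), P.IsMaximal → (∀ g ∈ P.inertia GQ, g ∈ DP P) ∧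
      (∀ g ∈ DP P, ∀ i ∈ P.inertia GQ, g * i * g⁻¹ ∈ P.inertia GQ) ∧
      (((3 : ℕ) : 𝓞 Qb) ∉ P → ∀ g ∈ P.inertia GQ, g ∈ Gz 3) ∧
      (∃ l : ℕ, l.Prime ∧ (l : 𝓞 Qb) ∈ P) ∧
      ∀ l : ℕ, l.Prime → (l : 𝓞 Qb) ∈ P → (∀ l' : ℕ, l'.Prime → (l' : 𝓞 Qb) ∈ P → l' = l) ∧
        (∀ P' : Ideal (𝓞 Qb), P'.IsMaximal → (l : 𝓞 Qb) ∈ P' →
          ∃ s : GQ, ∀ g ∈ P'.inertia GQ, s * g * s⁻¹ ∈ P.inertia GQ) ∧
        ∀ σ, IsFrob l P σ → σ ∈ DP P ∧ (l ≠ 3 → (σ ∈ Gz 3 ↔ l % 3 = 1)) ∧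
          ∀ M : Subgroup GQ, M.Normal → (M : Set GQ) ∈ 𝓝 1 → ∀ g ∈ DP P,
            ∃ (k : ℕ) (i : GQ), i ∈ P.inertia GQ ∧ (σ ^ k * i)⁻¹ * g ∈ M

/-- Kummer cocycles -/
def ValK : Prop :=
  ∀ l : ℕ, l.Prime → IsLocallyConstant (kk l) ∧ (∀ g h, kk l (g * h) = kk l g + sg g * kk l h) ∧
    ∀ P : Ideal (𝓞 Qb), P.IsMaximal → ((3 : ℕ) : 𝓞 Qb) ∉ P → (l : 𝓞 Qb) ∉ P →
      ∀ g ∈ P.inertia GQ, kk l g = 0

/-- cyclic cubic characters -/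
def ValC : Prop :=
  (∀ l : ℕ, l.Prime → l % 3 = 1 → IsLocallyConstant (ch l) ∧
    (∀ g h, ch l (g * h) = ch l g + ch l h) ∧
    ∀ P : Ideal (𝓞 Qb), P.IsMaximal → (l : 𝓞 Qb) ∉ P → (∀ g ∈ P.inertia GQ, ch l g = 0) ∧
      ∀ (l' : ℕ) (σ : GQ), l'.Prime → (l' : 𝓞 Qb) ∈ P → IsFrob l' P σ → ch l σ = rh l' l) ∧
  IsLocallyConstant x9 ∧ (∀ g h, x9 (g * h) = x9 g + x9 h) ∧
    ∀ P : Ideal (𝓞 Qb), P.IsMaximal → ((3 : ℕ) : 𝓞 Qb) ∉ P → (∀ g ∈ P.inertia GQ, x9 g = 0) ∧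
      ∀ (l' : ℕ) (σ : GQ), l'.Prime → (l' : 𝓞 Qb) ∈ P → IsFrob l' P σ → x9 σ = lm9 l'

/-- elements of the inertia group at three -/
def SjT : Prop :=
  (∃ g ∈ P3.inertia GQ, g ∉ Gz 3) ∧ (∃ g ∈ P3.inertia GQ, g ∈ Gz 3 ∧ x9 g ≠ 0) ∧
    ∃ g ∈ P3.inertia GQ, g ∈ Gz 3 ∧ kk 3 g ≠ 0

/-- ramification of the cube roots -/
def TauA : Prop :=
  ∀ (l : ℕ) (P : Ideal (𝓞 Qb)), P0 l → P.IsMaximal → (l : 𝓞 Qb) ∈ P →
    ∃ τ ∈ P.inertia GQ, kk l τ ≠ 0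

/-- the two characters agree locally -/
def TauB : Prop :=
  ∀ (l : ℕ) (P : Ideal (𝓞 Qb)) (σ : GQ), l.Prime → l % 3 = 1 → P.IsMaximal → (l : 𝓞 Qb) ∈ P →
    IsFrob l P σ → (∀ m : ℕ, m.Prime → m ≠ l → kk m σ = lk 3 m l) → ∀ g ∈ DP P, ch l g = kk l g

/-- existence of the local data -/
def TauT : Prop := ∀ e : ℕ → ZMod 3, (∀ l, e l ≠ 0) → ∃ σ τ, Tl σ τ e

/-- tame inertia -/
def TamT : Prop :=
  ∀ (l : ℕ) (P : Ideal (𝓞 Qb)) (τ : GQ), P0 l → P.IsMaximal → (l : 𝓞 Qb) ∈ P →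
    τ ∈ P.inertia GQ → kk l τ ≠ 0 → ∀ M : Subgroup GQ, M.Normal → (M : Set GQ) ∈ 𝓝 1 →
    (∀ g ∈ Gz 3, ∃ k, g ^ 3 ^ k ∈ M) → ∀ g ∈ P.inertia GQ, ∃ k : ℕ, (τ ^ k)⁻¹ * g ∈ M

/-- all cubic characters -/
def ChrT : Prop :=
  ∀ σ τ e, Tl σ τ e → ∀ R : Finset ℕ, (∀ l ∈ R, P0 l) → ∀ a : GQ → ZMod 3, IsLocallyConstant a →
    (∀ g h, a (g * h) = a g + a h) → (∀ P, Out R P → ∀ g ∈ P.inertia GQ, a g = 0) →
    (∀ l ∈ R, l % 3 ≠ 1 → a (τ l) = 0) ∧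
      ∃ γ, ∀ g, a g = ∑ l ∈ R with l % 3 = 1, a (τ l) * e l * ch l g + γ * x9 g

/-- all cocycles with values in the cube roots of unity -/
def KumA : Prop :=
  ∀ σ τ e, Tl σ τ e → ∀ R : Finset ℕ, (∀ l ∈ R, P0 l) → ∀ a : GQ → ZMod 3, IsLocallyConstant a →
    (∀ g h, a (g * h) = a g + sg g * a h) → (∀ P, Out R P → ∀ g ∈ P.inertia GQ, a g = 0) →
    ∃ γ, ∀ g ∈ Gz 3, a g = kD R (fun l => a (τ l) * e l) γ g

/-- Kummer characters that are unramified at three -/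
def KumB : Prop :=
  ∀ (R : Finset ℕ) (f : ℕ → ZMod 3) (γ : ZMod 3), (∀ l ∈ R, P0 l) →
    (∀ g ∈ P3.inertia GQ, g ∈ Gz 3 → kD R f γ g = 0) → γ = 0 ∧ ∑ l ∈ R, f l * lm9 l = 0

open Classical in
/-- proper subgroups are killed by a cocycle -/
def EigT : Prop :=
  ∀ (G : Type) [Group G] (K M H : Subgroup G), K.Normal → M.Normal → M.index ≠ 0 →
    (∀ g ∉ K, ∀ h ∉ K, g * h ∈ K) → (∀ g ∈ K, ∃ k, g ^ 3 ^ k ∈ M) → M ≤ H → (∃ c ∈ H, c ∉ K) →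
    H ≠ ⊤ → ∃ (a : G → ZMod 3) (ε : ZMod 3), (ε = 1 ∨ ε = -1) ∧
      (∀ g h, a (g * h) = a g + (if g ∈ K then 1 else ε) * a h) ∧ (∀ g ∈ H, a g = 0) ∧
      ∃ g ∈ K, a g ≠ 0

/-- generation of the Galois group -/
def GenT : Prop :=
  ∀ σ τ e, Tl σ τ e → ∀ (R : Finset ℕ) (M H : Subgroup GQ), (∀ l ∈ R, P0 l) → Adm R M → M ≤ H →
    (∀ l ∈ R, τ l ∈ H) → (∃ g ∈ H, g ∉ Gz 3) → (∃ g ∈ H, g ∈ P3.inertia GQ ∧ x9 g ≠ 0) →
    (∃ g ∈ H, g ∈ P3.inertia GQ ∧ g ∈ Gz 3 ∧ kk 3 g ≠ 0) → H = ⊤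

/-- a common level -/
def GqT : Prop :=
  ∀ σ τ e, Tl σ τ e → ∀ Λ : Finset ℕ, (∀ l ∈ Λ, P0 l) → ∀ c : ℕ,
    ∃ (N : Subgroup GQ) (nb : ℕ) (bb : Fin nb → GQ), GnT Λ σ τ bb N ∧
      ∀ (R : Finset ℕ) (M : Subgroup GQ), R ⊆ Λ → Adm R M → M.index ≤ c → N ≤ M

/-- statements about all tuples of primes -/
def AllL (X : ∀ d : ℕ, (ℕ → GQ) → (ℕ → GQ) → (ℕ → ZMod 3) → ZMod 3 → (Fin d → ℕ) → Prop) : Prop :=
  ∀ (d : ℕ) σ τ e β (l : Fin d → ℕ), Tl σ τ e → Function.Injective l → (∀ j, P0 (l j)) →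
    X d σ τ e β l

/-- the layers of odd index -/
def MuT : Prop :=
  AllL fun d σ τ e β l => ∀ (a : GQ → ZMod 3) (y : V3 d), IsLocallyConstant a →
    (∀ g h, a (g * h) = a g + sg g * a h) →
    (∀ P, Out (univ.image l) P → ∀ g ∈ P.inertia GQ, a g = 0) → (∀ j, a (τ (l j)) = -y j) →
    ∃ γ, (∀ j, l j % 3 = 1 → a (σ (l j)) + kD (univ.image l) e β (σ (l j)) * y j =
        -(dtl e l).Kf β y γ j) ∧
      ((∀ g ∈ P3.inertia GQ, g ∈ Gz 3 → a g = 0) → γ = 0 ∧ (dtl e l).L0 y = 0) ∧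
      ((∀ j, y j = 0) → γ = 0 → ∀ g ∈ Gz 3, a g = 0)

/-- the layers of even index -/
def ZeA : Prop :=
  AllL fun d σ τ e β l => ∀ (a : GQ → ZMod 3) (y : V3 d), IsLocallyConstant a →
    (∀ g h, a (g * h) = a g + a h) →
    (∀ P, Out (univ.image l) P → ∀ g ∈ P.inertia GQ, a g = 0) → (∀ j, a (τ (l j)) = -y j) →
    (∀ j, l j % 3 ≠ 1 → y j = 0) ∧ ∃ γ, (∀ z : V3 d,
        ∑ i, e (l i) * z i * (a (σ (l i)) + kD (univ.image l) e β (σ (l i)) * y i) =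
          ∑ j with (dtl e l).sp j = true, -(e (l j) * y j) * (dtl e l).Kf β z 0 j +
            γ * (dtl e l).L0 z) ∧
      ((∀ j, y j = 0) → γ = 0 → ∀ g, a g = 0)

/-- existence of cubic characters -/
def ZeB : Prop :=
  AllL fun d σ τ e β l => ∀ (y : V3 d) (φ : GQ), (∀ j, l j % 3 ≠ 1 → y j = 0) → IsFrob 3 P3 φ →
    ∃ a : GQ → ZMod 3, IsLocallyConstant a ∧ (∀ g h, a (g * h) = a g + a h) ∧
      (∀ P, Out (univ.image l) P → ∀ g ∈ P.inertia GQ, a g = 0) ∧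
      (∀ g ∈ P3.inertia GQ, a g = 0) ∧ (∀ j, a (τ (l j)) = -y j) ∧ ∀ (z : V3 d) (γ : ZMod 3),
        ∑ i, e (l i) * z i * (a (σ (l i)) + kD (univ.image l) e β (σ (l i)) * y i) + γ * a φ =
          -∑ j with (dtl e l).sp j = true, e (l j) * y j * (dtl e l).Kf β z γ j

/-! ### Galois modules -/

/-- statements about all Galois modules -/
def AllG (X : ∀ (V : Type) [AddCommGroup V], (V ≃ₗ[ℤ] V) → V → (GQ →* (V ≃ₗ[ℤ] V)) → Finset ℕ →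
    (ℕ → ZMod 3) → ZMod 3 → (ℕ → GQ) → (ℕ → GQ) → Prop) : Prop :=
  AllM fun V _ J T => ∀ η R e β σ τ, Gm0 J T η R e β τ → Tl σ τ e → (∀ l ∈ R, P0 l) →
    X V J T η R e β σ τ

/-- the action on the digits -/
def ActB : Prop :=
  AllG fun _ _ J T η R e β _ _ => ∀ g, Pr3 J (η g) ∧
    (∀ n, ∀ u ∈ Wn J (n + 1), dig J T n (η g u) = (if Even n then 1 else sg g) * dig J T n u) ∧
    (g ∈ Gz 3 → (∀ n, ∀ u ∈ Wn J (n + 1), η g u - u ∈ Wn J n) ∧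
      ∀ n, ∀ u ∈ Wn J (n + 2), dig J T n (η g u - u) = kD R e β g * dig J T (n + 1) u)

/-- uniqueness of cocycles -/
def UniT : Prop :=
  AllG fun V _ J _ η R _ _ _ τ => ∀ (y : GQ → V) (K n : ℕ), IsLocallyConstant y →
    (∀ g, y g ∈ Wn J K) → (∀ g h, y (g * h) - (y g + η g (y h)) ∈ Wn J n) →
    (∀ P, Out R P → ∀ g ∈ P.inertia GQ, y g ∈ Wn J n) → (∀ g ∈ P3.inertia GQ, y g ∈ Wn J n) →
    (∀ l ∈ R, y (τ l) ∈ Wn J n) → ∀ g, y g ∈ Wn J n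

/-- the level of a cocycle -/
def AdmG : Prop :=
  AllG fun V _ J _ η R _ _ _ _ => ∀ (y : GQ → V) (K n : ℕ), Finite (Wn J K) →
    (∃ u ∈ Wn J K, u ∉ Wn J 1) → IsLocallyConstant y → (∀ g, y g ∈ Wn J K) →
    (∀ g h, y (g * h) - (y g + η g (y h)) ∈ Wn J n) →
    (∀ P, Out R P → ∀ g ∈ P.inertia GQ, y g ∈ Wn J n) →
    ∃ M : Subgroup GQ, Adm R M ∧ M ≤ Gz 3 ∧
      M.index ≤ Nat.card (Wn J K) ^ (Nat.card (Wn J K) + 1) ∧
      ∀ g, g ∈ M ↔ (∀ u ∈ Wn J K, η g u = u) ∧ y g ∈ Wn J n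

/-- the local form of the defect of a cocycle -/
def RecL : Prop :=
  AllG fun V _ J T η _ _ _ _ _ => ∀ (x : GQ → V) (k : ℕ) (p t : V) (D : Subgroup GQ), Odd k →
    (∀ g h, x (g * h) - (x g + η g (x h)) ∈ Wn J (k + 1)) → t ∈ Wn J (k + 2) →
    dig J T (k + 1) t = 1 → (∀ g ∈ D, x g + η g p - p ∈ Wn J (k + 2)) →
    ∀ s b : GQ → ZMod 3, (∀ g, s g = dig J T (k + 1) (x g + η g p - p)) →
      (∀ g, b g = dig J T k (x g + η g p - p - (s g).val • t)) → ∀ g ∈ D, ∀ h ∈ D,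
        s (g * h) = s g + s h ∧ dig J T k (x g + η g (x h) - x (g * h)) =
          s h * dig J T k (η g t - t) + b g + sg g * b h - b (g * h)

/-! ### Systems -/

/-- statements about all systems -/
def AllS (X : ∀ (V : Type) [AddCommGroup V] [Fintype V] (d : ℕ), Sy V d → Prop) : Prop :=
  ∀ (V : Type) [AddCommGroup V] [Fintype V] (d : ℕ) (S : Sy V d), S.Ok → X V d S

/-- the obstructions are well defined -/
def ObT : Prop :=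
  AllS fun _ _ _ _ S => ∀ n v, (∀ x x', S.Ap n v x → S.Ap n v x' → ∀ g, x g - x' g ∈ Wn S.J n) ∧
    (∀ x, S.Ap n v x → (∀ i, S.ob n v i = dig S.J S.T n (S.Ev x v i)) ∧
      ∀ n', n ≤ n' → S.Ap n' v x) ∧
    (∀ u, v ∈ S.Sol n n u ↔ v ∈ S.Sol n (n + 1) u ∧ ∀ i, S.ob n v i = 0) ∧
    (∀ u k x, n ≤ k → v ∈ S.Sol n k u → S.Ap n v x → ∀ i, S.Ev x v i ∈ Wn S.J k) ∧
    ∀ u k n' k', n ≤ n' → k ≤ k' → v ∈ S.Sol n k u → v ∈ S.Sol n' k' u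

/-- the levels of the approximate cocycles -/
def AdmT : Prop :=
  AllS fun V _ _ _ S => S.Ap S.m 0 0 ∧ ∀ n v x, S.Ap n v x → ∃ M : Subgroup GQ, Adm S.R M ∧
    M ≤ Gz 3 ∧ M.index ≤ Fintype.card V ^ (Fintype.card V + 1) ∧
    ∀ g, g ∈ M ↔ S.η g = 1 ∧ x g ∈ Wn S.J n

/-- the equations hold on the decomposition groups -/
def RecP : Prop :=
  AllS fun _ _ _ _ S => ∀ n u v x, v ∈ S.Sol n (n + 1) u → S.Ap n v x →
    (∀ g ∈ DP P3, x g + S.η g S.o - S.o ∈ Wn S.J (n + 1)) ∧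
    ∀ j (P : Ideal (𝓞 Qb)), P.IsMaximal → (S.l j : 𝓞 Qb) ∈ P → IsFrob (S.l j) P (S.σ (S.l j)) →
      S.τ (S.l j) ∈ P.inertia GQ → (∀ g ∈ DP P, x g + S.η g (v j) - v j ∈ Wn S.J (n + 1)) ∧
        ∀ g ∈ P.inertia GQ, x g + S.η g (v j) - v j ∈ Wn S.J n

/-- reciprocity -/
def RecT : Prop :=
  AllS fun _ _ _ _ S => ∀ n u v, Even n → 2 ≤ n → n ≤ S.m → v ∈ S.Sol n (n + 1) u →
    S.ph n v 1 S.β = 0

/-- shifts -/
def ShfT : Prop :=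
  AllS fun _ _ _ _ S => ∀ n u v w, Even n → n + 2 ≤ S.m → v ∈ S.Sol n (n + 1) u → S.Sh n w →
    v + w ∈ S.Sol n (n + 1) u ∧ ∀ z γ, S.ph n (v + w) z γ = S.ph n v z γ -
      ∑ j with S.dt.sp j = true, S.e (S.l j) * dig S.J S.T (n + 1) (w j) * S.dt.Kf S.β z γ j

open Classical in
/-- vanishing sums -/
def VanT : Prop :=
  AllS fun V _ _ d S => ∀ n u z γ, Even n → n + 2 ≤ S.m → ¬ S.dt.KK S.β z γ →
    (∑ v : Fin d → V, if v ∈ S.Sol n (n + 1) u then cs (S.ph n v z γ) else 0) = 0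

open Classical in
/-- the Fourier expansion -/
def FouT : Prop :=
  AllS fun V _ _ d S => ∀ n u, ((S.Sol n n u).ncard : ℝ) * 3 ^ (d + 1) =
    ∑ v : Fin d → V, ∑ z : V3 d, ∑ γ : ZMod 3,
      if v ∈ S.Sol n (n + 1) u then cs (S.ph n v z γ) else 0

/-- one step of the recursion -/
def StpT : Prop :=
  AllS fun _ _ _ d S => ∀ lv n u, Even n → n + 2 ≤ S.m →
    S.Nn n u ≤ S.dt.NK S.β lv S.m u * ((S.Sol n (n + 1) u).ncard : ℝ) /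
      (3 ^ (d + 1) * 3 ^ ((n + 1) * d)) + S.Rs lv n u

/-- invariance of the solutions -/
def InvT : Prop :=
  AllS fun _ _ _ _ S => ∀ n u v w, Even n → n + 1 ≤ S.m → v ∈ S.Sol n n u →
    (∀ j, w j ∈ Wn S.J (n + 1)) → v + w ∈ S.Sol n n u

/-- the digits at the inert primes are determined -/
def PinT : Prop :=
  AllS fun _ _ _ _ S => ∀ n u v v', Even n → v ∈ S.Sol n (n + 1) u → v' ∈ S.Sol n (n + 1) u →
    (∀ j, v j - v' j ∈ Wn S.J (n + 2)) → S.Sh n (v - v')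

/-- the leading digits -/
def TopT : Prop :=
  AllS fun _ _ _ _ S => ∀ n k u v, n + 1 ≤ S.m → k + 1 ≤ S.m → v ∈ S.Sol n k u →
    u ∈ S.dt.KS S.β

/-- the intermediate digits -/
def MidT : Prop :=
  AllS fun _ _ _ _ S => ∀ n u v v', Even n → v ∈ S.Sol n (n + 1) u → v' ∈ S.Sol n (n + 1) u →
    (∀ j, v j - v' j ∈ Wn S.J (n + 3)) →
    (fun j => dig S.J S.T (n + 2) (v j - v' j)) ∈ S.dt.K0 S.β

/-- the number of shifts -/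
def CntA : Prop :=
  AllS fun V _ _ d S => n1 S.dt.sp + n2 S.dt.sp = d ∧
    (∀ n, n ≤ S.m → {w | S.Sh n w}.ncard = 3 ^ ((n + 2) * n1 S.dt.sp + (n + 1) * n2 S.dt.sp)) ∧
    ∀ k, k ≤ S.m + 2 → {w : Fin d → V | ∀ j, w j ∈ Wn S.J k}.ncard = 3 ^ (k * d)

/-- the top level -/
def CntB : Prop :=
  AllS fun _ _ _ d S => ∀ n u, n + 2 = S.m →
    (S.Sol n (n + 1) u).ncard ≤ 3 ^ ((n + 1) * d + n1 S.dt.sp)

/-- the other levels -/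
def CntC : Prop :=
  AllS fun _ _ _ d S => ∀ n u, Even n → n + 4 ≤ S.m →
    (S.Sol n (n + 1) u).ncard * 3 ^ ((n + 3) * d) ≤ (S.dt.K0 S.β).ncard *
      3 ^ ((n + 2) * n1 S.dt.sp + (n + 1) * n2 S.dt.sp) * (S.Sol (n + 2) (n + 2) u).ncard

/-- the size of the strict kernel -/
def LinT : Prop :=
  ∀ (d : ℕ) (D : Dt d) (β : ZMod 3), D.GA β → 3 * (D.K0 β).ncard ≤ 3 ^ n2 D.sp

/-- the number of trivial solutions -/
def TrvT : Prop :=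
  ∀ (d : ℕ) (D : Dt d) (β : ZMod 3) lv L u, D.G3 → D.NK β lv L u ≤ 9 + D.Rn β lv L u

/-- the recursion -/
def ItT : Prop :=
  AllS fun _ _ _ _ S => S.dt.GA S.β → ∀ lv n u, Even n →
    (n + 2 = S.m → S.Nn n u ≤ S.dt.NK S.β lv S.m u / 3 ^ (n2 S.dt.sp + 1) + S.Rs lv n u) ∧
    (n + 4 ≤ S.m → S.Nn n u ≤ S.dt.NK S.β lv S.m u / 9 * S.Nn (n + 2) u + S.Rs lv n u)

/-- homotheties -/
def HomT : Prop :=
  AllS fun _ _ _ _ S => ∀ u v, S.Tr u v → ∀ t : ℕ, S.Tr u fun j => v j + (3 * t) • (v j - S.o)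

/-- a true solution gives many solutions -/
def OrbT : Prop :=
  AllS fun _ _ _ _ S => ∀ h u v, S.m = 2 * h + 4 → Nc u → S.Tr u v →
    u ∈ S.dt.KS S.β ∧ (3 : ℝ) ^ h ≤ S.Nn 2 u ∧ 1 ≤ S.Nn (S.m - 2) u

/-- the main inequality -/
def SumT : Prop :=
  AllS fun _ _ _ _ S => ∀ h lv, S.m = 2 * h + 4 → S.dt.Gen S.β →
    0 ≤ S.dt.H1 S.β lv S.m h + S.Tot lv h ∧ (S.Tru → 1 ≤ S.dt.H1 S.β lv S.m h + S.Tot lv h)

/-! ### Strict cocycles -/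

/-- statements about all divisible Galois modules -/
def AllI (X : ∀ (A : Type) [AddCommGroup A] (d : ℕ), (A ≃ₗ[ℤ] A) → A → (GQ →* (A ≃ₗ[ℤ] A)) →
    (ℕ → ZMod 3) → ZMod 3 → (ℕ → GQ) → (ℕ → GQ) → (Fin d → ℕ) → Prop) : Prop :=
  ∀ (A : Type) [AddCommGroup A] (d : ℕ) (J : A ≃ₗ[ℤ] A) (T : A) η e β σ τ (l : Fin d → ℕ) η₀,
    CmI J T → Gm J T η (univ.image l) e β τ η₀ → Tl σ τ e → Function.Injective l →
    (∀ j, P0 (l j)) → X A d J T η e β σ τ l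

/-- the tame condition -/
def TamI : Prop :=
  AllI fun _ _ _ J _ η _ _ σ τ l => ∀ x ∈ St J η (univ.image l), ∀ j p,
    x (τ (l j)) + J p = p → (∃ K, p ∈ Wn J K) ∧ x (σ (l j)) + η (σ (l j)) p - p ∈ Wn J 1

/-- the level of a strict cocycle -/
def LevT : Prop :=
  AllI fun A _ _ J _ η e β _ τ l => (dtl e l).Gen β → ∀ x ∈ St J η (univ.image l),
    ∀ (m : ℕ) (p : ℕ → A) j₀, 1 ≤ m → l j₀ % 3 ≠ 1 →
    (∀ j, x (τ (l j)) + J (p (l j)) = p (l j) ∧ p (l j) - p (l j₀) ∈ Wn J (m + 1)) →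
    (∀ g, x g + η g (p (l j₀)) - p (l j₀) ∈ Wn J m) ∧ p (l j₀) ∈ Wn J (m + 2)

/-- odd levels do not occur -/
def OddT : Prop :=
  AllI fun _ _ _ J _ η e β _ τ l => (dtl e l).Gen β → ∀ m x p b, Odd m → 3 ≤ m →
    ¬ Lev J η (univ.image l) τ m x p b

/-- cocycles of prescribed level -/
def DetT : Prop :=
  AllI fun _ _ _ J _ η e β _ τ l => (dtl e l).Gen β → (St J η (univ.image l)).Infinite →
    ∀ m, Even m → 2 ≤ m → ∃ x p b, Lev J η (univ.image l) τ m x p b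

/-- existence of finite pieces -/
def ResT : Prop :=
  ∀ (A : Type) [AddCommGroup A] (J : A ≃ₗ[ℤ] A) (T : A), CmI J T → ∀ N, 1 ≤ N →
    ∃ (V : Type) (_ : AddCommGroup V) (_ : Fintype V) (JV : V ≃ₗ[ℤ] V) (TV : V) (ι : V →ₗ[ℤ] A),
      Emb J T JV TV ι N

/-- restriction of the action -/
def ThT : Prop :=
  ∀ (A : Type) [AddCommGroup A] (V : Type) [AddCommGroup V] (J : A ≃ₗ[ℤ] A) (T : A)
    (JV : V ≃ₗ[ℤ] V) (TV : V) (ι : V →ₗ[ℤ] A) (N : ℕ), Cm0 J T → Emb J T JV TV ι N →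
    ∀ η R e β σ τ, Gm0 J T η R e β τ → Tl σ τ e → (∀ l ∈ R, P0 l) →
      ∃ ηV : GQ →* (V ≃ₗ[ℤ] V), (∀ g y, ι (ηV g y) = η g (ι y)) ∧ Gm0 JV TV ηV R e β τ

/-- from cocycles to true solutions -/
def ActT : Prop :=
  ∀ (A : Type) [AddCommGroup A] (V : Type) [AddCommGroup V] (d : ℕ) (J : A ≃ₗ[ℤ] A) (T : A) η
    (S : Sy V d) (ι : V →ₗ[ℤ] A) x p b, Cm0 J T → Emb J T S.J S.T ι (S.m + 2) → Even S.m →
    Tl S.σ S.τ S.e → (∀ j, P0 (S.l j)) → Gm0 J T η S.R S.e S.β S.τ → S.φ ∈ DP P3 →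
    (∀ g y, ι (S.η g y) = η g (ι y)) →
    (∀ j, x (S.σ (S.l j)) + η (S.σ (S.l j)) (p (S.l j)) - p (S.l j) ∈ Wn J 1) →
    Lev J η S.R S.τ S.m x p b → ι S.o + b ∈ Wn J (S.m + 1) →
    (∀ g ∈ DP P3, S.o - S.η g S.o ∈ Wn S.J S.m) ∧ S.Tru

/-- infinitely many strict cocycles give a true solution -/
def RedT : Prop :=
  ∀ (A : Type) [AddCommGroup A] (V : Type) [AddCommGroup V] (J : A ≃ₗ[ℤ] A) (T : A) (B : Bs V)
    (ι : V →ₗ[ℤ] A), CmI J T → Emb J T B.J B.T ι (B.m + 2) → Even B.m → 4 ≤ B.m →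
    Tl B.σ B.τ B.e → IsFrob 3 P3 B.φ → ∃ O : Finset V, O.card ≤ 3 ∧
      ∀ (d : ℕ) (l : Fin d → ℕ) η η₀ (ηV : GQ →* (V ≃ₗ[ℤ] V)), Function.Injective l →
        (∀ j, P0 (l j)) → Gm J T η (univ.image l) B.e B.β B.τ η₀ →
        (∀ g y, ι (ηV g y) = η g (ι y)) → (dtl B.e l).Gen B.β →
        (St J η (univ.image l)).Infinite → ∃ o ∈ O, (∀ g ∈ DP P3, o - ηV g o ∈ Wn B.J B.m) ∧
          Sy.Tru ⟨{ B with o := o }, ηV, l⟩

end Pool.Agent.MP_e23604_nt.T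

end

section

/-! Cubic twists: the steps of the proof, second part. -/

namespace Pool.Agent.MP_e23604_nt.T

open Finset Filter NumberField
open MP_f68ac8_nt (cyc IsFrob)
open MP_f68ac8_nt.Zv (Ex Prob piV Unf Bx)
open MP_f68ac8_nt.Zk (NS brL lk msk Av)
open MP_f68ac8_nt.Nd (Lr Fr Gz Exm fP kap np OKp)
open Q (Wn Pre rot0)
open scoped BigOperators Topology

/-! ### Random words -/

open Classical in
/-- the values of the letters -/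
def VtT : Prop :=
  ∀ (d : ℕ) (P Λ B : Type) [Group P] (q : Fin d → Λ) (x : Fin d → P) (x0 : B → P),
    (∀ b, vT q x x0 (Sum.inr b) = x0 b) ∧
    (∀ l, (∀ j, q j = l → x j = 1) → vT q x x0 (Sum.inl l) = 1) ∧
    (∀ j, (∀ i, i ≠ j → q i = q j → x i = 1) → vT q x x0 (Sum.inl (q j)) = x j) ∧
    (∀ q' : Fin d → Λ, (∀ j, x j ≠ 1 → q j = q' j) → vT q x x0 = vT q' x x0) ∧
    ∀ H : Subgroup P, (∀ j, x j ∈ H) → ∀ l, vT q x x0 (Sum.inl l) ∈ H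

/-- statements about all filtered groups -/
def AllF (X : ∀ (P : Type) [Group P], (ℕ → Subgroup P) → Prop) : Prop :=
  ∀ (P : Type) [Group P] (F : ℕ → Subgroup P), NS F → (∀ k, (F k).Normal) → X P F

/-- the values of words form cubes -/
def CubM : Prop :=
  AllF fun P _ F => ∀ (d : ℕ) (Λ B ι : Type) [DecidableEq ι] (R : Finset ι) (x : Fin d → P)
    (x0 : B → P) (q q' : Fin d → Λ) (w w' : FreeGroup (Λ ⊕ B)) (J : Finset ι → Finset (Fin d)),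
    (∀ j, x j ∈ F 1) →
    (∀ j, (∀ ω, j ∈ J ω) ∨ (∀ ω, j ∉ J ω) ∨ ∃ s ∈ R, ∀ ω, j ∈ J ω ↔ s ∈ ω) →
    (∃ ω, FreeGroup.lift (vT q (msk (J ω) x) x0) w =
      FreeGroup.lift (vT q' (msk (J ω) x) x0) w') →
    (fun ω => (FreeGroup.lift (vT q' (msk (J ω) x) x0) w')⁻¹ *
      FreeGroup.lift (vT q (msk (J ω) x) x0) w) ∈ MP_f68ac8_nt.Zk.Cube F R

/-- removing the other letters -/
def MixT : Prop :=
  AllF fun P _ F => ∀ (d : ℕ) (Λ B : Type) (S : Finset (Fin d)) (t : Fin d) (x : Fin d → P)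
    (x0 : B → P) (q q' : Fin d → Λ) (w w' : FreeGroup (Λ ⊕ B)), S.Nonempty → t ∉ S →
    (∀ j, x j ∈ F 1) →
    (∀ J : Finset (Fin d), J ⊆ S ∨ Sᶜ ⊆ J → (∃ s ∈ S, s ∉ J) →
      FreeGroup.lift (vT q (msk J x) x0) w = FreeGroup.lift (vT q' (msk J x) x0) w') →
    ((FreeGroup.lift (vT q' (msk S x) x0) w')⁻¹ * FreeGroup.lift (vT q (msk S x) x0) w)⁻¹ *
      ((FreeGroup.lift (vT q' x x0) w')⁻¹ * FreeGroup.lift (vT q x x0) w) ∈ F (S.card + 1)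

/-- low complexity -/
def LcT : Prop :=
  AllF fun P _ F => ∀ (d : ℕ) (Λ B O : Type) (S : Finset (Fin d)) (t : Fin d) (x : Fin d → P)
    (x0 : B → P) (ψ φ : P → ZMod 3) (q q' : Fin d → Λ) (y y' g g' : Fin d ⊕ O → FreeGroup (Λ ⊕ B)),
    S.Nonempty → t ∉ S → (∀ j, x j ∈ F 1) →
    (∀ a ∈ F S.card, ∀ b ∈ F S.card, ψ (a * b) = ψ a + ψ b) → (∀ a ∈ F (S.card + 1), ψ a = 0) →
    (∀ a ∈ F S.card, ∀ b, ψ (b * a * b⁻¹) = ψ a) → (∀ a ∈ F S.card, ∀ b, φ (a * b) = ψ a + φ b) →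
    DatT (insert t S) x x0 q q' y y' → DatT (insert t S) x x0 q q' g g' →
    (∀ i, (FreeGroup.lift (vT q' x x0) (y' i))⁻¹ * FreeGroup.lift (vT q x x0) (y i) ∈ F S.card) ∧
    (∀ i, (∀ j ∈ S, i ≠ Sum.inl j) → i ≠ Sum.inl t →
      (FreeGroup.lift (vT q' x x0) (y' i))⁻¹ * FreeGroup.lift (vT q x x0) (y i) ∈
        F (S.card + 1)) ∧
    φ (FreeGroup.lift (vT q (msk S x) x0) (g (Sum.inl t) * y (Sum.inl t) * (g (Sum.inl t))⁻¹)) =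
      ψ ((FreeGroup.lift (vT q' x x0) (y' (Sum.inl t)))⁻¹ *
        FreeGroup.lift (vT q x x0) (y (Sum.inl t))) +
      φ (FreeGroup.lift (vT q' (msk S x) x0)
        (g' (Sum.inl t) * y' (Sum.inl t) * (g' (Sum.inl t))⁻¹))

/-- the commutator of the letters shifts the phase -/
def ShcT : Prop :=
  AllF fun P _ F => ∀ (d : ℕ) (Λ B : Type) (s : List (Fin d)) (x : Fin d → P) (x0 : B → P)
    (ψ φ : P → ZMod 3) (q₀ q₁ : Fin d → Λ), s.Nodup → 2 ≤ s.length → (∀ j, x j ∈ F 1) →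
    (∀ a ∈ F s.length, ∀ b, ψ (b * a * b⁻¹) = ψ a) →
    (∀ a ∈ F s.length, ∀ b, φ (a * b) = ψ a + φ b) → ψ (brL (s.map x)) ≠ 0 →
    OKp s.toFinset q₀ q₁ →
    ShC (vC s.toFinset x x0 q₀ q₁) fun h => ∑ ω ∈ s.toFinset.powerset, (-1) ^ ω.card * φ (h ω)

/-- the box norm is small -/
def BxT : Prop :=
  ∀ (P : Type) [Group P] [Fintype P] (d : ℕ) (Λ B : Type) [Fintype Λ] [Finite B],
    ∃ (𝓡 : Type) (_ : Fintype 𝓡) (_ : Nonempty 𝓡) (c : 𝓡 → FreeGroup (Λ ⊕ B)),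
    ∀ (w : Fin d → Λ → ℝ) (Y : Type) [Fintype Y] [Nonempty Y] [Fintype (Lr d Λ → Y × 𝓡)]
      (y : Lr d Λ → Y → FreeGroup (Λ ⊕ B)) (η : ℝ) (lv : Fin d → ℕ) (L : ℕ),
      Prob (U := fun _ => Λ) w → (∀ j, 2 ≤ lv j → ∀ u, w j u ≤ η) → 0 ≤ η → EQT P lv w y L η →
      ∀ (x : Fin d → P) (x0 : B → P) (S : Finset (Fin d)) (t : Fin d) (φ : P → ZMod 3),
      2 ≤ lv t → (∀ j ∈ S, 2 ≤ lv j ∧ lv j + 2 ≤ lv t) → S.card ≤ L →
      (∀ q₀ q₁ : Fin d → Λ, OKp S q₀ q₁ →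
        ShC (vC S x x0 q₀ q₁) fun h => ∑ ω ∈ S.powerset, (-1) ^ ω.card * φ (h ω)) →
      𝔼 a : Lr d Λ → Y × 𝓡, Bx (U := fun _ => Λ) ZMod.stdAddChar w S t (fun q =>
        φ (FreeGroup.lift (vT q (msk S x) x0) (c (a ⟨t, q t⟩).2 * y ⟨t, q t⟩ (a ⟨t, q t⟩).1 *
          (c (a ⟨t, q t⟩).2)⁻¹))) ≤ η ^ 2 + η + 3 * S.card ^ 2 * η

/-- the box inequality with the data of the words -/
def BoxT : Prop :=
  ∀ (P A O : Type) [Group P] [Fintype P] [Fintype A] [Fintype O] (d : ℕ) (Λ B : Type) [Fintype Λ]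
    (w : Fin d → Λ → ℝ) (S : Finset (Fin d)) (t : Fin d) (x : Fin d → P) (x0 : B → P)
    (y g : Lr d Λ → FreeGroup (Λ ⊕ B)) (yo : O → FreeGroup (Λ ⊕ B)) (pd : Lr d Λ → Λ → A)
    (G : (Fin d → Λ) → ZMod 3) (Θ : (Fin d → Λ) → ℂ) (ζ : Fin d → Λ → ℂ),
    Prob (U := fun _ => Λ) w → t ∉ S → 2 ≤ S.card → (∀ q, ‖Θ q‖ ≤ 1) → (∀ j u, ‖ζ j u‖ ≤ 1) →
    (∀ q q' : Fin d → Λ,
      DatT (insert t S) x x0 q q' (Sum.elim (fun j => y ⟨j, q j⟩) yo)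
        (Sum.elim (fun j => y ⟨j, q' j⟩) yo) →
      DatT (insert t S) x x0 q q' (Sum.elim (fun j => g ⟨j, q j⟩) yo)
        (Sum.elim (fun j => g ⟨j, q' j⟩) yo) →
      (∀ i j, pd ⟨i, q i⟩ (q j) = pd ⟨i, q' i⟩ (q' j)) → Θ q = Θ q') →
    ‖Ex (U := fun _ => Λ) w fun q => (∏ j, ζ j (q j)) * (Θ q * ZMod.stdAddChar (G q))‖ ^
        2 ^ (S.card + 1) ≤
      (((Fintype.card P : ℝ) * (Fintype.card A + 1)) ^ ((d + Fintype.card O) *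
        (2 ^ (S.card + 1 + 2) + 2 * (S.card + 1)))) ^ 2 ^ (S.card + 1) *
        Bx (U := fun _ => Λ) ZMod.stdAddChar w S t G

/-- the error terms are small -/
def ErrT : Prop :=
  ∀ (P A O : Type) [Group P] [Fintype P] [Fintype A] [Fintype O] (L : ℕ), ∃ C : ℝ, 1 ≤ C ∧
    ∀ F : ℕ → Subgroup P, NS F → (∀ k, (F k).Normal) → ∀ (d : ℕ) (Λ B : Type) [Fintype Λ] [Finite B]
    (w : Fin d → Λ → ℝ) (Y : Type) [Fintype Y] [Nonempty Y] [Fintype (Lr d Λ → Y)]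
    (y : Lr d Λ → Y → FreeGroup (Λ ⊕ B)) (pd : Lr d Λ → Y → Λ → A) (yo : O → FreeGroup (Λ ⊕ B))
    (lv : Fin d → ℕ) (ξ : ℝ), 0 ≤ ξ → ξ ≤ 1 → Prob (U := fun _ => Λ) w →
    (∀ j, 2 ≤ lv j → ∀ u, w j u ≤ ξ ^ 2 ^ L) → EQT P lv w y L (ξ ^ 2 ^ L) →
    ∀ (T : Trm P B O A d) (ζ : Fin d → Λ → ℂ), T.Ok F L lv → (∀ j u, ‖ζ j u‖ ≤ 1) →
      ‖𝔼 a : Lr d Λ → Y, Ex (U := fun _ => Λ) w fun q => (∏ j, ζ j (q j)) *
        T.val (fun i j => pd ⟨i, q i⟩ (a ⟨i, q i⟩) (q j)) q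
          (Sum.elim (fun j => y ⟨j, q j⟩ (a ⟨j, q j⟩)) yo)‖ ≤ C ^ (d + 1) * ξ

/-- the weights of the marks -/
def WmT : Prop :=
  ∀ (Q : Par) (c : ℝ) (n r : ℕ) (D η : ℝ), Q.Ok c n r D η → 0 ≤ η ∧ ∀ (d : ℕ) (μ : Fin d → Q.Mk),
    Prob (U := fun _ => Q.Λ) (Q.wm μ) ∧
    (∀ j u, (μ j).1.val ≠ 0 → Q.wm μ j u ≤ Q.W (μ j) u ∧ Q.wm μ j u ≤ η) ∧
    ∀ j u, Q.wm μ j u ≠ 0 → Q.W (μ j) u ≠ 0

/-- equidistribution of the random words -/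
def EqaT : Prop :=
  ∀ (P : Type) [Group P] [Fintype P] (L : ℕ) (Q : Par) (c : ℝ) (n r : ℕ) (D η : ℝ),
    Q.Ok c n r D η → 3 * Fintype.card P ^ 2 ^ L ≤ n → 2 * L ≤ r →
    ∀ (B : Type) (σ τ : ℕ → GQ) (bb : B → GQ) (N : Subgroup GQ), GnT Q.Λ σ τ bb N →
    ∀ (𝓡 : Type) [Fintype 𝓡] [Nonempty 𝓡] (s : 𝓡 → FreeGroup (Q.Λ ⊕ B)),
    Unf P (N.comap (FreeGroup.lift (ltr Q.Λ τ bb))) s →
    ∀ wd : Q.Λ → Exm (6 * Fintype.card P) → FreeGroup (Q.Λ ⊕ B),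
    (∀ u a, (FreeGroup.lift (ltr Q.Λ τ bb) (wd u a))⁻¹ * σ u ^ (a.1 : ℕ) ∈ N) →
    ∀ (d : ℕ) (μ : Fin d → Q.Mk), EQT P (fun j => (μ j).1.val) (Q.wm μ)
      (fun u (a : Exm (6 * Fintype.card P) × 𝓡) => wd u.2 a.1 * s a.2) L η

open Classical in
/-- what has to be shown for given parameters -/
def Cli (P A O : Type) [Group P] [Fintype P] [Fintype O] (F : ℕ → Subgroup P) (L m₀ : ℕ)
    (ε c₀ C : ℝ) (Bad : ℕ → Prop) (pd : ℕ → ℕ → A) (Q : Par) (c D η : ℝ) : Prop :=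
  ∃ (B : Type) (_ : Finite B) (σ τ : ℕ → GQ) (bb : B → GQ) (N : Subgroup GQ) (γ : O → GQ),
    GnT Q.Λ σ τ bb N ∧ ∀ (yy : ℝ) (d : ℕ) (μ : Fin d → Q.Mk), (d : ℝ) ≤ D →
      Typ m₀ (fun j => (μ j).1.val) (fun j => (μ j).2) →
      ∃ (I : Type) (_ : Fintype I) (T : I → Trm P B O (A × ZMod 3) d) (H : (Fin d → Q.Λ) → ℝ),
        (Fintype.card I : ℝ) ≤ c₀ ^ (d + 1) ∧ (∀ i, (T i).Ok F L fun j => (μ j).1.val) ∧
        (Ex (U := fun _ => Q.Λ) (Q.wm μ) fun q => kap c yy q * H q) ≤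
          ε * Ex (U := fun _ => Q.Λ) (Q.wm μ) (kap c yy) + C ^ (d + 1) * η ∧
        ∀ (𝓡 : Type) [Fintype 𝓡] [Nonempty 𝓡] (s : 𝓡 → FreeGroup (Q.Λ ⊕ B)),
          Unf P (N.comap (FreeGroup.lift (ltr Q.Λ τ bb))) s →
          ∀ (q : Fin d → Q.Λ) b y w, Gw σ τ bb N γ q b y w →
            (if Function.Injective q ∧ Bad (np q) then 1 else 0) ≤ H q +
              (𝔼 ρ : O → 𝓡, ∑ i, (T i).val (prs pd q b) q (Sum.elim y fun o => w o * s (ρ o))).re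

/-- from an inequality for words to densities -/
def PtT : Prop :=
  ∀ ε : ℝ, 0 < ε → ∃ ε' : ℝ, 0 < ε' ∧
    ∀ (P A O : Type) [Group P] [Fintype P] [Fintype A] [Fintype O] (F : ℕ → Subgroup P)
      (L n₀ m₀ : ℕ) (c₀ C : ℝ) (Bad : ℕ → Prop) (pd : ℕ → ℕ → A), NS F → (∀ k, (F k).Normal) →
      1 ≤ C → (∀ (Q : Par) (c : ℝ) (n r : ℕ) (D η : ℝ), 0 < c → n₀ ≤ n → Q.Ok c n r D η →
        Cli P A O F L m₀ ε' c₀ C Bad pd Q c D η) → Sp Bad ε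

/-! ### The first level -/

open Classical in
/-- the weights of the tuples -/
noncomputable def nuT (Q : Par) {d : ℕ} (μ : Fin d → Q.Mk) (c y : ℝ) (q : Fin d → Q.Λ) : ℝ :=
  (∏ j, Q.wm μ j (q j)) * if Function.Injective q then kap c y q else 0

/-- statements about all parameters -/
def AllP (X : ∀ (Q : Par) (d : ℕ), (Fin d → Q.Mk) → ℝ → ℝ → ℝ → (ℕ → ZMod 3) → Prop) : Prop :=
  ∀ (Q : Par) (c : ℝ) (n r : ℕ) (D η y : ℝ) (d : ℕ) (μ : Fin d → Q.Mk) (e : ℕ → ZMod 3), 0 < c →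
    Q.Ok c n r D η → (d : ℝ) ≤ D → (∀ l, e l ≠ 0) → (∀ l, n < l → e l = 1) → X Q d μ c y η e

/-- oscillation in two large primes -/
def OscA : Prop :=
  AllP fun Q d μ c y η e => ∀ (φ : Fin d → V3 d) (c' a : V3 d) i j, i ≠ j → (μ i).1.val ≠ 0 →
    (μ j).1.val ≠ 0 → (μ j).2 = true → φ i j ≠ 0 →
    ‖∑ q, (nuT Q μ c y q : ℂ) * (dtl e fun k => (q k : ℕ)).Tf φ c' a‖ ≤ η

/-- oscillation in an inert prime -/
def OscB : Prop :=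
  AllP fun Q d μ c y η e => ∀ (φ : Fin d → V3 d) (c' a : V3 d) i, 2 ≤ (μ i).1.val →
    (μ i).2 = false → (∀ j, (μ j).1.val ≠ 0 → (μ j).2 = true → φ i j = 0) →
    (∃ j, (μ j).2 = true ∧ φ i j ≠ 0) ∨ a i ≠ 0 →
    ‖∑ q, (nuT Q μ c y q : ℂ) * (dtl e fun k => (q k : ℕ)).Tf φ c' a‖ ≤ (d + 1) * η

/-- oscillation in a split prime -/
def OscC : Prop :=
  AllP fun Q d μ c y η e => ∀ (φ : Fin d → V3 d) (c' a : V3 d) t, 2 ≤ (μ t).1.val →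
    (μ t).2 = true → (∀ j, j ≠ t → (μ j).2 = true → φ t j = 0) → a t = 0 →
    (∀ i, i ≠ t → (μ i).1.val ≠ 0 → φ i t = 0) → (∃ i, i ≠ t ∧ φ i t ≠ 0) ∨ c' t ≠ 0 →
    ‖∑ q, (nuT Q μ c y q : ℂ) * (dtl e fun k => (q k : ℕ)).Tf φ c' a‖ ≤ (d + 1) * η

/-- oscillation -/
def OscT : Prop :=
  AllP fun Q d μ c y η e => OscM (nuT Q μ c y) (fun q => dtl e fun k => (q k : ℕ))
    (fun j => (μ j).1.val) (fun j => (μ j).2) ((d + 1) * η)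

/-- statements about all weights with oscillation -/
def AllO (X : ∀ (d : ℕ) (Ω : Type) [Fintype Ω], (Ω → ℝ) → (Ω → Dt d) → (Fin d → ℕ) →
    (Fin d → Bool) → ℝ → ZMod 3 → Prop) : Prop :=
  ∀ (d : ℕ) (Ω : Type) [Fintype Ω] ν D lv sp η β, OscM ν D lv sp η → X d Ω ν D lv sp η β

open Classical in
/-- the probability of systems of equations -/
def FouM : Prop :=
  AllO fun d _ _ ν D lv sp η β => ∀ (ι : Type) [Fintype ι] (u : ι → V3 d) (γ : ι → ZMod 3),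
    ∑ q, ν q * (if ∀ k, (D q).KK β (u k) (γ k) then 1 else 0) ≤
      {X : ι → V3 d | ¬ Osc lv sp (fX u X) (cX β u X γ) 0}.ncard / 3 ^ (Fintype.card ι * d) *
        ∑ q, ν q + η

/-- dual vectors for the independence of the forms -/
def NoA {d : ℕ} (lv : Fin d → ℕ) (sp : Fin d → Bool) (β : ZMod 3) :
    Set (V3 d × ZMod 3 × V3 d) :=
  {p | (∀ j, sp j = false → p.1 j = 0) ∧ (p.1 ≠ 0 ∨ p.2.1 ≠ 0) ∧
    ¬ Osc lv sp (fun i j => p.1 j * (p.2.2 i - p.2.2 j)) (fun j => -(p.1 j * β * p.2.2 j))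
      fun i => p.2.1 * p.2.2 i}

open Classical in
/-- the probability of dependent forms -/
def FouA : Prop :=
  AllO fun d _ _ ν D lv sp η β => ∑ q, ν q * (if (D q).GA β then 0 else 1) ≤
    (NoA lv sp β).ncard / 3 ^ d * ∑ q, ν q + 3 ^ (d + 1) * η

/-- pairs that are not rich -/
def NrC : Prop :=
  ∀ L : ℕ, ∃ K : ℕ, ∀ (d M : ℕ) (lv : Fin d → ℕ),
    (∀ a, (univ.filter fun j => lv j = a).card ≤ M) →
    {p : V3 d × V3 d | ¬ Rich lv L p.1 p.2}.ncard ≤ K * (d + 1) ^ K * 3 ^ (d + 4 * M)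

/-- the band indices of a given kind -/
def Bn {d : ℕ} (lv : Fin d → ℕ) (sp : Fin d → Bool) (b : Bool) : Finset (Fin d) :=
  univ.filter fun j => 2 ≤ lv j ∧ sp j = b

/-- the indices outside the bands -/
def Ex0 {d : ℕ} (lv : Fin d → ℕ) : Finset (Fin d) := univ.filter fun j => lv j < 2

/-- configurations that are constant on the inert bands, one equation -/
def CoA : Prop :=
  ∀ (d : ℕ) (lv : Fin d → ℕ) (sp : Fin d → Bool) (X : Set (V3 d × V3 d)),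
    (∀ p ∈ X, (∀ i ∈ Bn lv sp false, ∀ j ∈ Bn lv sp false, p.1 i = p.1 j) ∧
      ∀ i ∈ Bn lv sp false ∪ Bn lv sp true, ∀ j ∈ Bn lv sp true, p.2 j * (p.1 i - p.1 j) = 0) →
    X.ncard ≤ 6 * 3 ^ (Bn lv sp true).card * 3 ^ (Bn lv sp false).card * 9 ^ (Ex0 lv).card ∧
    ((∀ p ∈ X, ∀ i ∈ Bn lv sp false, p.2 i = 0) →
      X.ncard ≤ 6 * 3 ^ (Bn lv sp true).card * 9 ^ (Ex0 lv).card)

/-- configurations that are constant on the inert bands, two equations -/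
def CoB : Prop :=
  ∀ (d : ℕ) (lv : Fin d → ℕ) (sp : Fin d → Bool), (Bn lv sp false).Nonempty →
    {p : (V3 d × V3 d) × V3 d × V3 d |
      (∀ i ∈ Bn lv sp false, ∀ j ∈ Bn lv sp false, p.1.1 i = p.1.1 j ∧ p.1.2 i = p.1.2 j) ∧
      ∀ i ∈ Bn lv sp false ∪ Bn lv sp true, ∀ j ∈ Bn lv sp true,
        p.2.1 j * (p.1.1 i - p.1.1 j) + p.2.2 j * (p.1.2 i - p.1.2 j) = 0}.ncard ≤
      100 * 9 ^ (Bn lv sp true).card * 9 ^ (Bn lv sp false).card * 81 ^ (Ex0 lv).card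

/-- the sizes of typical sequences -/
def NumT : Prop :=
  ∀ (ε : ℝ) (K : ℕ), 0 < ε → ∃ m₀, ∀ (d : ℕ) (lv : Fin d → ℕ) (sp : Fin d → Bool), Typ m₀ lv sp →
    (Bn lv sp true).card + (Bn lv sp false).card + (Ex0 lv).card = d ∧
    (Bn lv sp false).card ≤ n2 sp ∧ n2 sp ≤ (Bn lv sp false).card + (Ex0 lv).card ∧
    n1 sp + n2 sp = d ∧ ∃ M, (∀ a, (univ.filter fun j => lv j = a).card ≤ M) ∧
      (Ex0 lv).card ≤ 2 * M ∧ ∀ b, (Bn lv sp b).Nonempty ∧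
        (K * (d + 1) ^ K * 3 ^ (12 * M) : ℝ) ≤ ε * 3 ^ (Bn lv sp b).card

/-- the first moment of the leading digits -/
def CnA : Prop :=
  ∃ m₀, AllO fun d _ _ ν D lv sp η β => Typ m₀ lv sp →
    ∑ q, ν q * (((D q).KS β).ncard / 3 ^ n2 (D q).sp) ≤ 4 * ∑ q, ν q + 3 ^ (d + 1) * η

/-- the dual vectors of exceptional solutions -/
def NoB {d : ℕ} (lv : Fin d → ℕ) (sp : Fin d → Bool) (β : ZMod 3) (L : ℕ) :
    Set ((ZMod 3 × ZMod 3) × (V3 d × V3 d) × V3 d × V3 d) :=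
  {p | Nc p.2.1.1 ∧ ¬ Rich lv L p.2.1.1 p.2.1.2 ∧
    (¬ ∃ a b, (∀ j, p.2.1.2 j = a * p.2.1.1 j + b) ∧ p.1.2 = a * p.1.1 + β * b) ∧
    ¬ Osc lv sp (fX ![p.2.1.1, p.2.1.2] ![p.2.2.1, p.2.2.2])
      (cX β ![p.2.1.1, p.2.1.2] ![p.2.2.1, p.2.2.2] ![p.1.1, p.1.2]) 0}

/-- their structure -/
def NoS : Prop :=
  ∀ (d : ℕ) (lv : Fin d → ℕ) (sp : Fin d → Bool) (β : ZMod 3) (L : ℕ), ∀ p ∈ NoB lv sp β L,
    (∀ i ∈ Bn lv sp false ∪ Bn lv sp true, ∀ j ∈ Bn lv sp true,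
      p.2.2.1 j * (p.2.1.1 i - p.2.1.1 j) + p.2.2.2 j * (p.2.1.2 i - p.2.1.2 j) = 0) ∧
    ((∀ i ∈ Bn lv sp false, ∀ j ∈ Bn lv sp false, p.2.1.1 i = p.2.1.1 j ∧ p.2.1.2 i = p.2.1.2 j) ∨
      ∀ j ∈ Bn lv sp true, p.2.2.1 j = 0 ∧ p.2.2.2 j = 0)

/-- their number -/
def NoC : Prop :=
  ∀ (ε : ℝ) (L : ℕ), 0 < ε → ∃ m₀, ∀ (d : ℕ) (lv : Fin d → ℕ) (sp : Fin d → Bool) (β : ZMod 3),
    Typ m₀ lv sp → ((NoB lv sp β L).ncard : ℝ) ≤ ε * 3 ^ n2 sp * 9 ^ d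

/-- the first moment of the exceptional solutions -/
def CnB : Prop :=
  ∀ (ε : ℝ) (L : ℕ), 0 < ε → ∃ m₀, AllO fun d _ _ ν D lv sp η β => Typ m₀ lv sp →
    ∑ q, ν q * ((D q).Rt β lv L / 3 ^ n2 (D q).sp) ≤ ε * ∑ q, ν q + 9 ^ (d + 1) * η

open Classical in
/-- most data are generic -/
def CnC : Prop :=
  ∀ ε : ℝ, 0 < ε → ∃ m₀, AllO fun d _ _ ν D lv sp η β => Typ m₀ lv sp →
    ∑ q, ν q * (if (D q).Gen β then 0 else 1) ≤ ε * ∑ q, ν q + 9 ^ (d + 1) * η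

/-- the majorant is small on average -/
def FstT : Prop :=
  ∀ ε : ℝ, 0 < ε → ∃ (h m₀ : ℕ) (C : ℝ), 1 ≤ C ∧ AllO fun d _ _ ν D lv sp η β => Typ m₀ lv sp →
    ∑ q, ν q * (D q).Hf β lv (2 * h + 4) h ≤ ε * ∑ q, ν q + C ^ (d + 1) * η

/-! ### Words and cocycles -/

/-- statements about all settings -/
def AllW (X : ∀ (V : Type) [AddCommGroup V] [Fintype V] (d : ℕ) (Λ : Finset ℕ) (ι : Type),
    Sy V d → (GQ → V ≃ₗ[ℤ] V) → (ι → GQ) → Subgroup GQ → (Fin d → Λ) → Prop) : Prop :=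
  ∀ (V : Type) [AddCommGroup V] [Fintype V] (d : ℕ) (Λ : Finset ℕ) (ι : Type) (S : Sy V d) η₀
    (bb : ι → GQ) N (q : Fin d → Λ), S.Wd η₀ bb N q → X V d Λ ι S η₀ bb N q

/-- the values of words -/
def WaT : Prop :=
  AllW fun _ _ _ _ Λ _ S η₀ bb _ q => ∀ u v, S.Cand u v →
    (∀ w, (S.pw η₀ bb q v w).1.linear = S.η (FreeGroup.lift (ltr Λ S.τ bb) w)) ∧
    (∀ j, (S.pw η₀ bb q v (FreeGroup.of (Sum.inl (q j)))).1 0 = v j - S.J (v j)) ∧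
    (∀ b, (S.pw η₀ bb q v (FreeGroup.of (Sum.inr b))).1 0 = S.o - S.η (bb b) S.o) ∧
    (∀ l : Λ, l.1 ∉ S.R → S.pw η₀ bb q v (FreeGroup.of (Sum.inl l)) = 1 ∧
      ∃ P, Out S.R P ∧ S.τ l ∈ P.inertia GQ) ∧
    ∀ n x, S.Ap n v x → ∀ w,
      (S.pw η₀ bb q v w).1 0 - x (FreeGroup.lift (ltr Λ S.τ bb) w) ∈ Wn S.J n

/-- from relators to cocycles -/
def WbT : Prop :=
  AllW fun _ _ _ _ Λ _ S η₀ bb N q => ∀ u v n, S.Cand u v →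
    (∀ w, FreeGroup.lift (ltr Λ S.τ bb) w ∈ N → (S.pw η₀ bb q v w).1 0 ∈ Wn S.J n) →
    ∃ x, S.Ap n v x

/-- random relators detect the failure -/
def WcT : Prop :=
  AllW fun _ _ _ d Λ ι S η₀ bb N q => 0 < d → ∀ u v n, S.Cand u v → (¬ ∃ x, S.Ap n v x) →
    ∀ (𝓡 : Type) [Fintype 𝓡] (s : 𝓡 → FreeGroup (Λ ⊕ ι)),
      Unf (Pm S.J S.m) (N.comap (FreeGroup.lift (ltr Λ S.τ bb))) s →
      ∃ k : Fin S.m, n ≤ k.1 ∧ ∀ w, FreeGroup.lift (ltr Λ S.τ bb) w ∈ N →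
        𝔼 ρ, (ZMod.stdAddChar (dig S.J S.T k ((S.pw η₀ bb q v (w * s ρ)).1 0)) : ℂ) = 0

/-- powers of Frobenius elements -/
def WdT : Prop :=
  AllS fun V _ _ _ S => ∀ n v x (g : GQ) (p : V) (b : ℕ), Even n → S.Ap n v x →
    Nat.Coprime b 6 →
    (x (g ^ b) + S.η (g ^ b) p - p ∈ Wn S.J (n + 1) ↔ x g + S.η g p - p ∈ Wn S.J (n + 1)) ∧
    (x g + S.η g p - p ∈ Wn S.J (n + 1) →
      dig S.J S.T n (x (g ^ b) + S.η (g ^ b) p - p) = b * dig S.J S.T n (x g + S.η g p - p))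

/-- the equations for words -/
def WeT : Prop :=
  AllW fun _ _ _ _ _ _ S η₀ bb N q => ∀ u v n x b y w, S.Cand u v → Even n → S.Ap n v x →
    Gw S.σ S.τ bb N S.gam q b y w →
    (S.cnW η₀ n v (fun i => S.pw η₀ bb q v (Sum.elim y w i)) ↔ v ∈ S.Sol n (n + 1) u) ∧
    (v ∈ S.Sol n (n + 1) u → ∀ z γ, S.obW η₀ n v z γ (fun j => S.e (S.l j) * b j)
      (fun i => S.pw η₀ bb q v (Sum.elim y w i)) = S.ph n v z γ)

open Classical in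
/-- the mean value over the relators -/
def WvT : Prop :=
  AllW fun _ _ _ d Λ ι S η₀ bb N q => 0 < d → ∀ u v n b y w z γ, S.Cand u v → Even n →
    Gw S.σ S.τ bb N S.gam q b y w → ∀ (𝓡 : Type) [Fintype 𝓡] [Nonempty 𝓡]
      (s : 𝓡 → FreeGroup (Λ ⊕ ι)), Unf (Pm S.J S.m) (N.comap (FreeGroup.lift (ltr Λ S.τ bb))) s →
      (𝔼 ρ : Option (Fin S.m) → 𝓡,
        if S.cnW η₀ n v (fun i => S.pw η₀ bb q v (Sum.elim y (fun o => w o * s (ρ o)) i)) then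
          (ZMod.stdAddChar (S.obW η₀ n v z γ (fun j => S.e (S.l j) * b j)
            fun i => S.pw η₀ bb q v (Sum.elim y (fun o => w o * s (ρ o)) i)) : ℂ) else 0) =
      if v ∈ S.Sol n (n + 1) u then ZMod.stdAddChar (S.ph n v z γ) else 0

/-- statements about all base data -/
def AllB (X : ∀ (V : Type) [AddCommGroup V], Bs V → Prop) : Prop :=
  ∀ (V : Type) [AddCommGroup V] (B : Bs V), Cm0 B.J B.T → X V B

/-- the equations depend only on classes -/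
def IvT : Prop :=
  AllB fun V _ B => ∀ (d n k : ℕ) η₀ (v : Fin d → V) (Z Z' : Fin d ⊕ Option (Fin B.m) → Pm B.J B.m),
    Even n → n + k = B.m → (∀ j, v j ∈ Wn B.J (B.m + 1)) → B.cnW η₀ n v Z →
    (∀ i, (Z' i)⁻¹ * Z i ∈ Fk B.J B.m k) → B.cnW η₀ n v Z' ∧
      (∀ j, dig B.J B.T n (B.evW η₀ v Z (some j)) = dig B.J B.T n (B.evW η₀ v Z' (some j)) +
        dig B.J B.T n (((Z' (Sum.inl j))⁻¹ * Z (Sum.inl j)).1 (v j) - v j)) ∧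
      (∀ j, (Z' (Sum.inl j))⁻¹ * Z (Sum.inl j) ∈ Fk B.J B.m (k + 1) →
        dig B.J B.T n (B.evW η₀ v Z (some j)) = dig B.J B.T n (B.evW η₀ v Z' (some j))) ∧
      ((Z' (Sum.inr none))⁻¹ * Z (Sum.inr none) ∈ Fk B.J B.m (k + 1) →
        dig B.J B.T n (B.evW η₀ v Z none) = dig B.J B.T n (B.evW η₀ v Z' none)) ∧
      ∀ o n', n ≤ n' → (Z' (Sum.inr o))⁻¹ * Z (Sum.inr o) ∈ Fk B.J B.m (k + 1) →
        dig B.J B.T n' ((Z (Sum.inr o)).1 0) = dig B.J B.T n' ((Z' (Sum.inr o)).1 0)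

/-- the character of an error term -/
def PsT : Prop :=
  AllM fun _ _ J T => ∀ (m n k : ℕ), ∀ p ∈ Wn J (m + 1), Even m → Even n → n + k = m →
    (∀ g ∈ Fk J m k, ∀ h ∈ Fk J m k,
      dig J T n ((g * h).1 p - p) = dig J T n (g.1 p - p) + dig J T n (h.1 p - p)) ∧
    (∀ g ∈ Fk J m (k + 1), dig J T n (g.1 p - p) = 0) ∧
    ∀ g ∈ Fk J m k, ∀ a : Pm J m, dig J T n ((a * g * a⁻¹).1 p - p) = dig J T n (g.1 p - p)

/-- the choice of the indices -/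
def SelT : Prop :=
  ∀ (d L k : ℕ) (lv : Fin d → ℕ) (u z : V3 d), Rich lv L u z → 2 ≤ k → k ≤ L →
    ∃ (s : List (Fin d)) (i j t : Fin d) (b : ZMod 3), (s ++ [i, j]).Nodup ∧ s.length + 2 = k ∧
      (∀ a ∈ s ++ [i, j], (2 ≤ lv a ∧ lv a + 2 ≤ lv t) ∧ z a = b) ∧ u i ≠ u j ∧ z t ≠ b

/-- the error terms are admissible -/
def TrmT : Prop :=
  AllB fun V _ B => ∀ (d n : ℕ) η₀ (ι : Type) (bb : ι → GQ) (lv : Fin d → ℕ) u (v : Fin d → V) z γ ε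
    (s : List (Fin d)) (i j t : Fin d) c, Even B.m → Even n → 1 ≤ n → B.Cand u v → ε ≠ 0 →
    (s ++ [i, j]).Nodup → n + (s.length + 2) = B.m →
    (∀ a ∈ s ++ [i, j], (2 ≤ lv a ∧ lv a + 2 ≤ lv t) ∧ z a = 0) → u i ≠ u j → z t ≠ 0 →
    (∀ r, |c r| ≤ 1) → (B.mkT η₀ bb n v z γ ε (s ++ [i, j]) t c).Ok (Fk B.J B.m) B.m lv

open Classical in
/-- two terms for a rich pair -/
def TwoT : Prop :=
  AllB fun V _ B => ∀ [Fintype V] (d n : ℕ) η₀ (ι : Type) (bb : ι → GQ) (lv : Fin d → ℕ) u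
    (v : Fin d → V) z γ (c : (Fin d → Fin d → Pd × ZMod 3) → ℝ), Even B.m → n ∈ Lv B.m →
    B.Cand u v → Rich lv B.m u z → (∀ r, |c r| ≤ 1) →
    ∃ T : Bool → Trm (Pm B.J B.m) ι (Option (Fin B.m)) (Pd × ZMod 3) d,
      (∀ a, (T a).Ok (Fk B.J B.m) B.m lv ∧ ∀ r, c r = 0 → (T a).c r = 0) ∧
      ∀ (Λ : Finset ℕ) (η : GQ →* (V ≃ₗ[ℤ] V)) (N : Subgroup GQ) (q : Fin d → Λ) b y w,
        Sy.Wd ⟨B, η, fun j => q j⟩ η₀ bb N q → Gw B.σ B.τ bb N B.gam q b y w →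
        ∀ (𝓡 : Type) [Fintype 𝓡] [Nonempty 𝓡] (s : 𝓡 → FreeGroup (Λ ⊕ ι)),
          Unf (Pm B.J B.m) (N.comap (FreeGroup.lift (ltr Λ B.τ bb))) s →
          (𝔼 ρ : Option (Fin B.m) → 𝓡, ∑ a, (T a).val (prs (pa B.e) q b) q
            (Sum.elim y fun o => w o * s (ρ o))).re = c (prs (pa B.e) q b) *
            if v ∈ Sy.Sol ⟨B, η, fun j => q j⟩ n (n + 1) u then
              cs (Sy.ph ⟨B, η, fun j => q j⟩ n v z γ) else 0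

/-- the data of the pairs -/
def PaT : Prop :=
  ∀ (Λ : Finset ℕ) (d : ℕ) (e : ℕ → ZMod 3) (q : Fin d → Λ) (b : Fin d → ℕ) (β c₀ : ZMod 3),
    ofP (prs (pa e) q b) = dtl e (fun j => (q j : ℕ)) ∧
    (Act β c₀ (prs (pa e) q b) ↔ Function.Injective q ∧ (dtl e fun j => (q j : ℕ)).Gen β ∧
      (dtl e fun j => (q j : ℕ)).cls = c₀) ∧
    (Function.Injective q → (dtl e fun j => (q j : ℕ)).cls =
      ∑ l ∈ univ.image fun j => (q j : ℕ), e l * lm9 l)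

/-- all terms of a system -/
def WrdT : Prop :=
  AllB fun V _ B => ∀ [Fintype V] (d h : ℕ) η₀ (ι : Type) (bb : ι → GQ) (lv : Fin d → ℕ)
    (c₀ : ZMod 3), Even B.m →
    ∃ (I : Type) (_ : Fintype I) (T : I → Trm (Pm B.J B.m) ι (Option (Fin B.m)) (Pd × ZMod 3) d),
      Fintype.card I ≤ (18 * (B.m + 1) * Fintype.card V) ^ (d + 1) ∧
      (∀ i, (T i).Ok (Fk B.J B.m) B.m lv ∧ ∀ r, ¬ Act B.β c₀ r → (T i).c r = 0) ∧
      ∀ (Λ : Finset ℕ) (η : GQ →* (V ≃ₗ[ℤ] V)) (N : Subgroup GQ) (q : Fin d → Λ) b y w,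
        Sy.Wd ⟨B, η, fun j => q j⟩ η₀ bb N q → Gw B.σ B.τ bb N B.gam q b y w →
        Act B.β c₀ (prs (pa B.e) q b) →
        ∀ (𝓡 : Type) [Fintype 𝓡] [Nonempty 𝓡] (s : 𝓡 → FreeGroup (Λ ⊕ ι)),
          Unf (Pm B.J B.m) (N.comap (FreeGroup.lift (ltr Λ B.τ bb))) s →
          (𝔼 ρ : Option (Fin B.m) → 𝓡, ∑ i, (T i).val (prs (pa B.e) q b) q
            (Sum.elim y fun o => w o * s (ρ o))).re = Sy.Tot ⟨B, η, fun j => q j⟩ lv h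

/-- the numbers with a true solution -/
def BadV {V : Type} [AddCommGroup V] (B : Bs V) (η₀ : ZMod 3 → GQ → V ≃ₗ[ℤ] V) (O : Finset V)
    (n : ℕ) : Prop :=
  ∃ η, Gm0 B.J B.T η n.primeFactors B.e B.β B.τ ∧
    (∀ g ∈ DP P3, η g = η₀ (∑ l ∈ n.primeFactors, B.e l * lm9 l) g) ∧
    ∀ (d : ℕ) (l : Fin d → ℕ), Function.Injective l → univ.image l = n.primeFactors →
      (dtl B.e l).Gen B.β → ∃ o ∈ O, (∀ g ∈ DP P3, o - η g o ∈ Wn B.J B.m) ∧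
        Sy.Tru ⟨{ B with o := o }, η, l⟩

/-- valid base data -/
structure Bs.Ok {V : Type} [AddCommGroup V] (B : Bs V) (η₀ : ZMod 3 → GQ → V ≃ₗ[ℤ] V) (h : ℕ) :
    Prop where
  cm : Cm B.J B.T (B.m + 2)
  m : B.m = 2 * h + 4
  tl : Tl B.σ B.τ B.e
  fr : IsFrob 3 P3 B.φ
  ex : ∀ R : Finset ℕ, (∀ l ∈ R, P0 l) → ∃ η, Gm0 B.J B.T η R B.e B.β B.τ ∧
    ∀ g ∈ DP P3, η g = η₀ (∑ l ∈ R, B.e l * lm9 l) g

open Classical in
/-- the inequality for words -/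
def InqT : Prop :=
  ∀ (V : Type) [AddCommGroup V] [Fintype V] (B : Bs V) η₀ (h : ℕ) (O : Finset V), B.Ok η₀ h →
    O.card ≤ 3 → ∀ (Λ : Finset ℕ) (ι : Type) (bb : ι → GQ) (N : Subgroup GQ), (∀ l ∈ Λ, P0 l) →
    GnT Λ B.σ B.τ bb N → (∀ (R : Finset ℕ) (M : Subgroup GQ), R ⊆ Λ → Adm R M →
      M.index ≤ Fintype.card V ^ (Fintype.card V + 1) → N ≤ M) → ∀ (d : ℕ) (lv : Fin d → ℕ),
    ∃ (I : Type) (_ : Fintype I) (T : I → Trm (Pm B.J B.m) ι (Option (Fin B.m)) (Pd × ZMod 3) d),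
      Fintype.card I ≤ (162 * (B.m + 1) * Fintype.card V) ^ (d + 1) ∧
      (∀ i, (T i).Ok (Fk B.J B.m) B.m lv) ∧
      ∀ (𝓡 : Type) [Fintype 𝓡] [Nonempty 𝓡] (s : 𝓡 → FreeGroup (Λ ⊕ ι)),
        Unf (Pm B.J B.m) (N.comap (FreeGroup.lift (ltr Λ B.τ bb))) s →
        ∀ (q : Fin d → Λ) b y w, Gw B.σ B.τ bb N B.gam q b y w →
          (if Function.Injective q ∧ BadV B η₀ O (np q) then 1 else 0) ≤
            (if Function.Injective q then (dtl B.e fun j => (q j : ℕ)).Hf B.β lv B.m h else 0) +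
            (𝔼 ρ : Option (Fin B.m) → 𝓡, ∑ i, (T i).val (prs (pa B.e) q b) q
              (Sum.elim y fun o => w o * s (ρ o))).re

/-- the shape of a positive integer -/
def ShpT : Prop :=
  (∀ D : ℕ, D ≠ 0 → ∃ (a f n : ℕ) (β : ZMod 3), D = a ^ 3 * 3 ^ β.val * f * n ∧ ¬ 3 ∣ n ∧
    Squarefree n ∧ f ∣ n ∧ Cls D n.primeFactors (fun l => if l ∣ f then 2 else 1) β) ∧
  ∀ ε : ℝ, 0 < ε → ∃ K : ℕ, ∀ X : ℕ,
    ({D : ℕ | 1 ≤ D ∧ D ≤ X ∧ ∃ a f, (K < a ∨ K < f) ∧ a ^ 3 * f ^ 2 ∣ D}.ncard : ℝ) ≤ ε * X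

end Pool.Agent.MP_e23604_nt.T

end

section

/-! Cubic twists: primes and absolute values. -/

namespace Pool.Agent.MP_e23604_nt.T

open NumberField
open MP_f68ac8_nt (IsFrob)
open MP_f68ac8_nt.Nd (Gz)

/-- the centre of an absolute value -/
noncomputable def cen (l : ℕ) [Fact l.Prime] (γ : GQ) : Ideal (𝓞 Qb) := B.BValB_cen (B.nv_na l γ)

/-- primes and absolute values -/
def DicA : Prop :=
  (∀ (l : ℕ) [Fact l.Prime] (P : Ideal (𝓞 Qb)), P.IsMaximal → (l : 𝓞 Qb) ∈ P →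
    ∃ γ, P = cen l γ) ∧
  ∀ (l : ℕ) [Fact l.Prime] (γ : GQ), (cen l γ).IsMaximal ∧ (l : 𝓞 Qb) ∈ cen l γ ∧
    (∀ g, g ∈ (cen l γ).inertia GQ ↔ g ∈ R.Ine l γ) ∧
    (∀ g, g ∈ DP (cen l γ) ↔ g ∈ R.Dec (B.nv l γ)) ∧ ∀ σ, IsFrob l (cen l γ) σ ↔ R.Frob l γ σ

/-- the two normalisations of the characters -/
def DicB : Prop :=
  (∀ g, (g ∈ S.GK ↔ g ∈ Gz 3) ∧ S.ep g = sg g) ∧
    ∃ ε : ZMod 3, ε ≠ 0 ∧ ∀ l : ℕ, l ≠ 0 → ∀ g ∈ Gz 3, S.kum l g = ε * kk l g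

end Pool.Agent.MP_e23604_nt.T

end
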