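import Mathlib
import Pool.Agent.Mg.Fe23604m.G06f121

set_option linter.all false

section

namespace Pool.Agent.MP_e23604_nt.T

open Finset Filter NumberField
open MP_f68ac8_nt (cyc IsFrob)
open MP_f68ac8_nt.Zv (Ex Prob piV Unf Bx)
open MP_f68ac8_nt.Zk (NS brL lk msk Av)
open MP_f68ac8_nt.Nd (Lr Fr Gz Exm fP kap np OKp)
open Q (Wn Pre rot0)
open scoped BigOperators Topology

theorem one_XShpT (D : ℕ) (hD : D ≠ 0) : ∃ (a f n : ℕ) (β : ZMod 3),
    D = a ^ 3 * 3 ^ β.val * f * n ∧ ¬ 3 ∣ n ∧ Squarefree n ∧ f ∣ n ∧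
      Cls D n.primeFactors (fun l => if l ∣ f then 2 else 1) β := by
  set v := D.factorization with hv
  set S := D.primeFactors.filter fun p => p ≠ 3 ∧ v p % 3 ≠ 0 with hS
  set G := S.filter fun p => v p % 3 = 2 with hG
  have hp : ∀ p ∈ S, p.Prime := fun p h => Nat.prime_of_mem_primeFactors (mem_filter.1 h).1
  have hp' : ∀ p ∈ G, p.Prime := fun p h => hp p (mem_filter.1 h).1
  have h3 : 3 ^ ((v 3 : ℕ) : ZMod 3).val =
      ∏ p ∈ D.primeFactors, if p = 3 then p ^ (v p % 3) else 1 := by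
    rw [ZMod.val_natCast, prod_ite_eq']
    split_ifs with h
    · rfl
    · rw [Finsupp.notMem_support_iff.1 h]
      rfl
  have h1 : D = (∏ p ∈ D.primeFactors, p ^ (v p / 3)) ^ 3 * 3 ^ ((v 3 : ℕ) : ZMod 3).val *
      (∏ p ∈ G, p) * ∏ p ∈ S, p := by
    rw [h3, hG, prod_filter, hS, prod_filter, prod_filter, ← prod_pow, ← prod_mul_distrib,
      ← prod_mul_distrib, ← prod_mul_distrib]
    refine (Nat.prod_primeFactors_pow_factorization hD).trans (prod_congr rfl fun p _ => ?_)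
    rw [← hv, ← pow_mul]
    nth_rewrite 1 [← Nat.div_add_mod' (v p) 3]
    rw [pow_add, mul_assoc, mul_assoc]
    congr 1
    have : v p % 3 = 0 ∨ v p % 3 = 1 ∨ v p % 3 = 2 := by omega
    by_cases e : p = 3
    · simp [e]
    · rcases this with h | h | h <;> simp [e, h, sq]
  refine ⟨_, _, _, _, h1, fun h => ?_, ?_, prod_dvd_prod_of_subset _ _ _ (filter_subset _ _),
    ∏ p ∈ D.primeFactors, p ^ (v p / 3), h1.trans ?_⟩
  · have : 3 ∈ S := by
      rw [← Nat.primeFactors_prod hp]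
      exact Nat.mem_primeFactors.2 ⟨Nat.prime_three, h,
        prod_ne_zero_iff.2 fun p h => (hp p h).ne_zero⟩
    exact (mem_filter.1 this).2.1 rfl
  · exact squarefree_prod_of_pairwise_isCoprime (fun p h q h' e => Nat.coprime_iff_isRelPrime.1
      ((Nat.coprime_primes (hp p h) (hp q h')).2 e)) fun p h => (hp p h).prime.squarefree
  · rw [Nat.primeFactors_prod hp, mul_assoc, mul_assoc]
    congr 2
    refine (congrArg (· * _) (prod_filter _ _)).trans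
      (prod_mul_distrib.symm.trans (prod_congr rfl fun p h => ?_))
    have e : p ∣ ∏ p ∈ G, p ↔ v p % 3 = 2 := by
      refine ⟨fun c => ?_, fun c => dvd_prod_of_mem _ (mem_filter.2 ⟨h, c⟩)⟩
      have : p ∈ G := by
        rw [← Nat.primeFactors_prod hp']
        exact Nat.mem_primeFactors.2 ⟨hp p h, c, prod_ne_zero_iff.2 fun p h => (hp' p h).ne_zero⟩
      exact (mem_filter.1 this).2
    simp only [e]
    split_ifs
    · exact (sq p).symm
    · exact (one_mul p).trans (pow_one p).symm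

theorem two_XShpT (K X : ℕ) (hK : K ≠ 0) :
    ({D : ℕ | 1 ≤ D ∧ D ≤ X ∧ ∃ a f, (K < a ∨ K < f) ∧ a ^ 3 * f ^ 2 ∣ D}.ncard : ℝ) ≤
      (K : ℝ)⁻¹ * X := by
  have h1 : {D : ℕ | 1 ≤ D ∧ D ≤ X ∧ ∃ a f, (K < a ∨ K < f) ∧ a ^ 3 * f ^ 2 ∣ D} ⊆
      ((Ioc K (K + X)).biUnion fun g => (Ioc 0 X).filter fun x => g ^ 2 ∣ x : Finset ℕ) := by
    rintro D ⟨h1, h2, a, f, h3, h4⟩
    have key : ∀ g, K < g → g ^ 2 ∣ D → D ∈ (Ioc K (K + X)).biUnion fun g =>
        (Ioc 0 X).filter fun x => g ^ 2 ∣ x := fun g hg hd => by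
      have := Nat.le_of_dvd h1 ((dvd_pow_self g two_ne_zero).trans hd)
      exact mem_biUnion.2 ⟨g, mem_Ioc.2 ⟨hg, by omega⟩, mem_filter.2 ⟨mem_Ioc.2 ⟨h1, h2⟩, hd⟩⟩
    rcases h3 with h | h
    · exact key a h (((pow_dvd_pow a (by omega)).mul_right _).trans h4)
    · exact key f h ((dvd_mul_left _ _).trans h4)
  have h2 := (Set.ncard_le_ncard h1 (finite_toSet _)).trans
    ((Set.ncard_coe_finset _).trans_le card_biUnion_le)
  have h3 := sum_Ioc_inv_sq_le_sub (α := ℝ) hK (Nat.le_add_right K X)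
  calc _ ≤ ∑ g ∈ Ioc K (K + X), ((X / g ^ 2 : ℕ) : ℝ) := by
        simp only [Nat.Ioc_filter_dvd_card_eq_div] at h2
        exact_mod_cast h2
    _ ≤ ∑ g ∈ Ioc K (K + X), ((g : ℝ) ^ 2)⁻¹ * X := sum_le_sum fun g _ =>
        Nat.cast_div_le.trans_eq (by rw [Nat.cast_pow, div_eq_inv_mul])
    _ ≤ _ := by
        rw [← sum_mul]
        exact mul_le_mul_of_nonneg_right (h3.trans (sub_le_self _ (by positivity))) (by positivity)

theorem x_ShpT : ShpT := by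
  refine ⟨one_XShpT, fun ε hε => ?_⟩
  obtain ⟨K, hK⟩ := exists_nat_one_div_lt hε
  refine ⟨K + 1, fun X => (two_XShpT _ X K.succ_ne_zero).trans ?_⟩
  rw [one_div] at hK
  push_cast
  gcongr

end Pool.Agent.MP_e23604_nt.T

end

section

namespace Pool.Agent.MP_e23604_nt.T

open Finset Filter NumberField
open MP_f68ac8_nt (cyc IsFrob)
open MP_f68ac8_nt.Zv (Ex Prob piV Unf Bx)
open MP_f68ac8_nt.Zk (NS brL lk msk Av)
open MP_f68ac8_nt.Nd (Lr Fr Gz Exm fP kap np OKp)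
open Q (Wn Pre rot0)
open scoped BigOperators Topology

theorem sq_XWeT {b : ℕ} (h : Nat.Coprime b 6) : (b : ZMod 3) * b = 1 := by
  have h3 : (b : ZMod 3) ≠ 0 := fun e => by
    have := Nat.dvd_gcd ((ZMod.natCast_eq_zero_iff b 3).1 e) (show 3 ∣ 6 by norm_num)
    rw [h] at this
    omega
  revert h3
  generalize (b : ZMod 3) = c
  revert c
  decide

theorem key_XWeT (hWaT : WaT) {V : Type} [AddCommGroup V] [Fintype V] {d : ℕ} {Λ : Finset ℕ}
    {ι : Type} {S : Sy V d} {η₀ : GQ → V ≃ₗ[ℤ] V} {bb : ι → GQ} {N : Subgroup GQ}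
    {q : Fin d → Λ} (hW : S.Wd η₀ bb N q) {u : V3 d} {v : Fin d → V} (hc : S.Cand u v) {n : ℕ}
    {x : GQ → V} (hx : S.Ap n v x) {w : FreeGroup (Λ ⊕ ι)} {g : GQ}
    (hg : (FreeGroup.lift (ltr Λ S.τ bb) w)⁻¹ * g ∈ N) (p : V) :
    (S.pw η₀ bb q v w).1 p - (x g + S.η g p) ∈ Wn S.J n := by
  obtain ⟨h1, -, -, -, h5⟩ := hWaT V d Λ ι S η₀ bb N q hW u v hc
  have h6 := h5 n x hx w
  have h7 := h1 w
  have h8 := (S.pw η₀ bb q v w).2.1.1 n
  rw [Q.aff_apply, h7]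
  rw [h7] at h8
  generalize FreeGroup.lift (ltr Λ S.τ bb) w = a at hg h6 h8
  obtain ⟨c, rfl⟩ : ∃ c, g = a * c := ⟨a⁻¹ * g, (mul_inv_cancel_left a g).symm⟩
  rw [inv_mul_cancel_left] at hg
  have h9 := hx.co a c
  have h10 := (h8 _).2 (hW.ap n v x hx c hg)
  rw [map_mul, hW.ker c hg, mul_one]
  convert sub_mem (sub_mem h6 h9) h10 using 1
  abel

theorem x_WeT (hBasT : BasT) (hWaT : WaT) (hWdT : WdT) (hObT : ObT) (hDecT : DecT) : WeT := by
  intro V _ _ d Λ ι S η₀ bb N q hW u v n x b y w hc hn hx hG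
  obtain ⟨b1, -, -, -, -, b6, -, -, b9, -⟩ := hBasT V S.J S.T hW.ok.cm.toCm0
  obtain ⟨-, o2, -, o4, -⟩ := hObT V d S hW.ok n v
  have hφ : S.η S.φ = η₀ S.φ :=
    hW.eta _ ((((hDecT.2.2.2 P3 hDecT.1).2.2.2.2 3 Nat.prime_three hDecT.2.1).2.2 _ hW.ok.fr).1)
  have e1 : ∀ j, ∃ r ∈ Wn S.J n,
      S.evW η₀ v (fun i => S.pw η₀ bb q v (Sum.elim y w i)) (some j) =
        (x (S.σ (S.l j) ^ b j) + S.η (S.σ (S.l j) ^ b j) (v j) - v j) + r := fun j =>
    ⟨_, key_XWeT hWaT hW hc hx (hG.tam j) (v j), by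
      simp only [Bs.evW, Sum.elim_inl, hW.l]
      abel⟩
  have e2 : ∃ r ∈ Wn S.J n,
      S.evW η₀ v (fun i => S.pw η₀ bb q v (Sum.elim y w i)) none = S.Ev x v none + r :=
    ⟨_, key_XWeT hWaT hW hc hx (hG.oth none) 0, by
      simp only [Bs.evW, Sy.Ev, Sum.elim_inr, Bs.gam, Option.elim_none, map_zero, hφ]
      abel⟩
  have e3 : ∀ k : Fin S.m, (S.pw η₀ bb q v (w (some k))).1 0 ∈ Wn S.J n := fun k => by
    have h1 := key_XWeT hWaT hW hc hx (hG.oth (some k)) 0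
    simpa [Bs.gam] using add_mem h1 (hW.ap n v x hx 1 N.one_mem)
  have hd := fun j => hWdT V d S hW.ok n v x (S.σ (S.l j)) (v j) (b j) hn hx (hG.cop j)
  have e4 : ∀ i, S.evW η₀ v (fun i => S.pw η₀ bb q v (Sum.elim y w i)) i ∈ Wn S.J (n + 1) ↔
      S.Ev x v i ∈ Wn S.J (n + 1) := by
    rintro (_ | j)
    · obtain ⟨r, h1, h2⟩ := e2
      rw [h2, Submodule.add_mem_iff_left _ (b1 _ _ n.le_succ h1)]
    · obtain ⟨r, h1, h2⟩ := e1 j
      rw [h2, Submodule.add_mem_iff_left _ (b1 _ _ n.le_succ h1)]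
      exact (hd j).1
  refine ⟨⟨fun h => ⟨hc, x, hx, fun i => (e4 i).1 (h i)⟩,
    fun h i => (e4 i).2 (o4 u _ x n.le_succ h hx i)⟩, fun h z γ => ?_⟩
  have h0 := o4 u _ x n.le_succ h hx
  obtain ⟨r, h1, h2⟩ := e2
  rw [Bs.obW, Sy.ph, h2, b9 n _ r h1, ← (o2 x hx).1, Finset.sum_eq_zero (s := Finset.filter _ _),
    add_zero]
  · congr 1
    refine Finset.sum_congr rfl fun j _ => ?_
    obtain ⟨r, h1, h2⟩ := e1 j
    rw [h2, b9 n _ r h1, (hd j).2 (h0 (some j)), (o2 x hx).1]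
    change _ = _ * dig S.J S.T n (x _ + _ - _)
    linear_combination (S.e (S.l j) * z j *
      dig S.J S.T n (x (S.σ (S.l j)) + S.η (S.σ (S.l j)) (v j) - v j)) * sq_XWeT (hG.cop j)
  · intro k hk
    have h3 := b1 _ _ (Finset.mem_filter.1 hk).2 (e3 k)
    exact (b6 k _ (b1 _ _ (Nat.le_succ _) h3)).2 h3

end Pool.Agent.MP_e23604_nt.T

end
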