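import Mathlib
import Pool.Agent.Mg.Fe23604m.Gd02325
import Pool.Agent.MP_e23604_nt.R.Brg
import Pool.Agent.MP_e23604_nt.BDefs2
import Pool.Agent.MP_e23604_nt.BLift
import Pool.Agent.MP_e23604_nt.BSel

set_option linter.all false

section

/-! The steps of the proof, first part. -/

namespace Pool.Agent.MP_e23604_nt.Q

open Finset Filter NumberField
open MP_f68ac8_nt.Zq (Mx sg)
open MP_f68ac8_nt.Zk (Cp Yw rr NS brL)
open MP_f68ac8_nt.Nd (Lr Rcp GenQ Trm)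
open scoped BigOperators Topology

/-! ### Modules and systems of equations -/

/-- levels and digits -/
def BasQ : Prop :=
  ∀ (V : Type) [AddCommGroup V] (J : V ≃ₗ[ℤ] V), Cm0 J →
    (∀ a b, a ≤ b → Wn J a ≤ Wn J b) ∧ Wn J 0 = ⊥ ∧
    (∀ n u, om J u ∈ Wn J n ↔ u ∈ Wn J (n + 1)) ∧ Pre J J ∧
    (∀ n u, 2 • u ∈ Wn J n ↔ u ∈ Wn J (n + 2)) ∧
    (∀ n, ∀ u ∈ Wn J (n + 1), ∀ u' ∈ Wn J (n + 1), dig J n (u + u') = dig J n u + dig J n u') ∧
    (∀ a, Pre J a → (∀ n, ∀ u ∈ Wn J (n + 1), a u - u ∈ Wn J n) ∧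
      ∀ n, 1 ≤ n → ∀ u ∈ Wn J (n + 1), dig J (n - 1) (a u - u) = del J n a * dig J n u) ∧
    (∀ a b, Pre J a → Pre J b → ∀ n, 1 ≤ n → del J n (a * b) = del J n a + del J n b) ∧
    ∀ n, 1 ≤ n → (∃ u ∈ Wn J (n + 1), u ∉ Wn J n) → del J n J = 1

/-- the sizes of the levels -/
def LevQ : Prop :=
  ∀ (V : Type) [AddCommGroup V] (J : V ≃ₗ[ℤ] V),
    (∀ N, Cm J N → (∀ n, n < N → ∃ u ∈ Wn J (n + 1), u ∉ Wn J n) ∧
      ∀ n, n ≤ N → Nat.card (Wn J n) = 2 ^ n) ∧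
    (CmI J → (∀ n, ∃ u ∈ Wn J (n + 1), u ∉ Wn J n) ∧ (∀ n, Nat.card (Wn J n) = 2 ^ n) ∧
      ∀ m, ∃ rep : Fin 4 → V, (∀ t, rep t ∈ Wn J (m + 3)) ∧
        ∀ b ∈ Wn J (m + 3), ∃ t, b - rep t ∈ Wn J (m + 1))

/-- semilinear automorphisms -/
def SemQ : Prop :=
  ∀ (A : Type) [AddCommGroup A] (J : A ≃ₗ[ℤ] A), CmI J → ∀ a : A ≃ₗ[ℤ] A,
    ((∀ u, a (J u) = J (a u)) → Pre J a ∧ (∀ n, 1 ≤ n → del J (n + 1) a = del J n a) ∧
      ((∃ u ∈ Wn J 4, a u ≠ u) →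
        ∀ K k, ∀ b ∈ Wn J K, a b - b ∈ Wn J k → b ∈ Wn J (k + 3))) ∧
    ((∀ u, a (J u) = -J (a u)) → Pre J a ∧ ∀ n, 1 ≤ n → del J (n + 1) a = del J n a + 1)

/-- the filtration of the affine group -/
def FilQ : Prop :=
  ∀ (V : Type) [AddCommGroup V] (J : V ≃ₗ[ℤ] V), Cm0 J → ∀ m,
    NS (Fk J m) ∧ Fk J m 1 = ⊤ ∧
    (∀ k, ∀ c ∈ Fk J m k, ∀ y ∈ Wn J (m + 1), c.1 y - y ∈ Wn J (m + 1 - k)) ∧
    (∀ v ∈ Wn J (m + 1), (∀ y, (rot J m v).1 y = J (y - v) + v) ∧ (rot J m v).1.linear = J) ∧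
    ∀ N, (∀ u, u ∈ Wn J N) → ∃ K, ∀ g : Pm J m, g ^ 2 ^ K = 1

/-- exponent sums and naturality -/
def RrQ : Prop :=
  ∀ (d : ℕ) (U : Fin d → Type) (y : (Σ j, U j) → FreeGroup (Σ j, U j)) (q : ∀ j, U j),
    (∀ (c : Fin d → ZMod 2) i,
      (Yw y q (fun j => Multiplicative.ofAdd (c j)) i).toAdd = ∑ j, rr y q 2 i j * c j) ∧
    ∀ (P P' : Type) [Group P] [Group P'] (f : P →* P') (x : Fin d → P) i,
      f (Yw y q x i) = Yw y q (fun j => f (x j)) i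

/-- statements about all finite modules -/
def AllV (Q : ∀ (V : Type) [AddCommGroup V] [Fintype V], (V ≃ₗ[ℤ] V) → ℕ → Prop) : Prop :=
  ∀ (V : Type) [AddCommGroup V] [Fintype V] (J : V ≃ₗ[ℤ] V) (N m : ℕ), Cm J N → 1 ≤ m →
    m + 1 ≤ N → Q V J m

/-- statements about all systems -/
def AllS (Q : ∀ (V : Type) [AddCommGroup V] [Fintype V] (J : V ≃ₗ[ℤ] V) (m d : ℕ),
    Sy J m d → Prop) : Prop :=
  AllV fun V _ _ J m => ∀ (d : ℕ) (S : Sy J m d), S.Ok → Q V J m d S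

/-- the derivative of the words -/
def DerQ : Prop :=
  AllS fun _ _ _ J m d S => ∀ (U : Fin d → Type) y (q : ∀ j, U j) v, S.Cand m v →
    (∀ k, 1 ≤ k → k ≤ m → ∀ i,
      del J k (S.Yv y q v i).1.linear = ∑ j, rr y q 2 i j * S.sh.be k j) ∧
    (∀ i, dig J (m - 1) ((S.Yv y q v i).1 0) = ∑ j, rr y q 2 i j * S.ub v j) ∧
    ∀ n, 1 ≤ n → n ≤ m → ∀ w, S.Cand n w → ∀ i,
      (S.Yv y q (v + w) i).1.linear = (S.Yv y q v i).1.linear ∧
      (S.Yv y q (v + w) i).1 0 - (S.Yv y q v i).1 0 ∈ Wn J n ∧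
      dig J (n - 1) ((S.Yv y q (v + w) i).1 0 - (S.Yv y q v i).1 0) =
        ∑ j, rr y q 2 i j * dig J n (w j)

/-- the change of the obstructions -/
def StepQ : Prop :=
  AllS fun _ _ _ J m d S => ∀ (U : Fin d → Type) y (q : ∀ j, U j) (n : ℕ), 2 ≤ n → n + 1 ≤ m →
    (∀ v ∈ S.Sol y q (n - 1), v ∈ S.Sol y q n ∧
      ∀ i ∈ S.sh.Rw n, S.ob n (S.Yv y q v) v i = 0) ∧
    ∀ v ∈ S.Sol y q n, ∀ w, S.Cand n w → v + w ∈ S.Sol y q n ∧
      (∑ k, rr y q 2 S.kc k * S.sh.be (n - 1) k = S.pi + n → ∀ i ∈ S.sh.Rw n,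
        S.ob n (S.Yv y q (v + w)) (v + w) i = S.ob n (S.Yv y q v) v i +
          ∑ j, Mn (S.sh.be n) (rr y q 2) i j * dig J n (w j))

open Classical in
/-- the number of solutions of linear equations -/
def FouQ : Prop :=
  ∀ (d : ℕ) (M : Mx d) (R T : Finset (Fin d)) (o : Fin d → ZMod 2),
    ((univ.filter fun a : Fin d → ZMod 2 =>
      (∀ j ∉ T, a j = 0) ∧ ∀ i ∈ R, o i + ∑ j, M i j * a j = 0).card : ℝ) * 2 ^ R.card =
    2 ^ T.card * ∑ z : Fin d → ZMod 2,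
      if (∀ i ∉ R, z i = 0) ∧ ∀ j ∈ T, ∑ i, z i * M i j = 0 then sg (∑ i, z i * o i) else 0

/-- the fibres of the digits -/
def FibQ : Prop :=
  AllS fun _ _ _ J m d S => ∀ n, n ≤ m → {w | S.Cand n w}.ncard = 2 ^ ((n + 1) * S.Tm.card) ∧
    ∀ a : Fin d → ZMod 2, (∀ j ∉ S.Tm, a j = 0) →
      {w | S.Cand n w ∧ ∀ j, dig J n (w j) = a j}.ncard = 2 ^ (n * S.Tm.card)

open Classical in
/-- the recursion -/
def RecQ : Prop :=
  AllS fun V _ _ _ m d S => ∀ (U : Fin d → Type) y (q : ∀ j, U j) (n : ℕ), 2 ≤ n → n + 1 ≤ m →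
    ∑ k, rr y q 2 S.kc k * S.sh.be (n - 1) k = S.pi + n →
    S.Nn y q (n - 1) ≤ (if S.pi + n = 1 then 1 / 2 else 1) / 2 ^ ((n + 1) * S.Tm.card) *
      ∑ v : Fin d → V, ∑ z : Fin d → ZMod 2,
        if v ∈ S.Sol y q n ∧ S.sh.LK n (rr y q 2) z then
          sg (∑ i, z i * S.ob n (S.Yv y q v) v i) else 0

/-- the top level -/
def TopQ : Prop :=
  AllS fun _ _ _ _ m d S => ∀ (U : Fin d → Type) y (q : ∀ j, U j),
    S.Nn y q (m - 1) ≤ {u | S.sh.Top (rr y q 2) u}.ncard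

/-- the iteration of the recursion -/
def ItQ : Prop :=
  AllS fun _ _ _ _ m d S => ∀ h, 2 * h + 6 ≤ m → ∃ c : ℕ → ℝ, (∀ n, |c n| ≤ 2) ∧
    ∀ (U : Fin d → Type) y (q : ∀ j, U j) (Sm Lg : Finset (Fin d)) (L B : ℕ),
      S.sh.Good Sm Lg L B (rr y q 2) →
      S.Nn y q (m - 2 * h - 3) ≤ B + ∑ n ∈ Ico 2 m, c n * S.Es y q Sm Lg L n

/-- true solutions are solutions -/
def TsQ : Prop :=
  AllS fun _ _ _ _ m d S => ∀ (U : Fin d → Type) y (q : ∀ j, U j) v, S.Tru y q v → 3 ≤ m →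
    ∀ n, 2 ≤ n → v ∈ S.Sol y q n

/-- homotheties -/
def HomQ : Prop :=
  AllS fun _ _ _ _ _ d S => ∀ (U : Fin d → Type) y (q : ∀ j, U j) v, S.Tru y q v → ∀ t : ℕ,
    S.Tru y q fun j => if j ∈ S.Tm then v j + (4 * t) • (v j - S.o) else 0

/-- a true solution gives many solutions -/
def OrbQ : Prop :=
  AllS fun _ _ _ _ m d S => ∀ (U : Fin d → Type) y (q : ∀ j, U j) v, S.Tru y q v →
    ∀ n h, 2 ≤ n → n + 2 * h + 3 ≤ m → (2 : ℝ) ^ h ≤ S.Nn y q n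

/-- iterated commutators of rotations -/
def BrQ : Prop :=
  ∀ (V : Type) [AddCommGroup V] (J : V ≃ₗ[ℤ] V), Cm0 J → ∀ (m : ℕ) (l : List V) (v₁ v₂ : V),
    (∀ v ∈ l, v ∈ Wn J (m + 1)) → v₁ ∈ Wn J (m + 1) → v₂ ∈ Wn J (m + 1) → v₁ - v₂ ∉ Wn J m →
    l.length + 2 ≤ m → ∃ c ∈ Wn J (m - 1 - l.length), c ∉ Wn J (m - 2 - l.length) ∧
      ∀ y, (brL ((l ++ [v₁, v₂]).map (rot J m))).1 y = y + c

/-- the equations depend only on classes -/
def InvQ : Prop :=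
  AllS fun V _ _ J m d S => ∀ (n : ℕ) (v : Fin d → V) (Z Z' : Fin d → Pm J m), 2 ≤ n →
    n + 1 ≤ m → S.Cand m v → S.Cond n Z v → (∀ i, (Z' i)⁻¹ * Z i ∈ Fk J m (m + 1 - n)) →
    S.Cond n Z' v ∧
      (∀ i, (Z' i)⁻¹ * Z i ∈ Fk J m (m + 1 - n + 1) → S.ob n Z v i = S.ob n Z' v i) ∧
      ∀ t ∈ S.Tm, t ≠ S.i0 →
        S.ob n Z v t = S.ob n Z' v t + dig J (n - 1) (((Z' t)⁻¹ * Z t).1 (v t) - v t)

open Classical in
/-- the error terms -/
def TrmQ : Prop :=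
  AllS fun V _ _ J m d S => ∀ (Sm Lg : Finset (Fin d)) (n : ℕ) (v : Fin d → V)
    (z : Fin d → ZMod 2) (A : Mx d → Prop) (c : ℝ), Sm ⊆ S.Tm → Lg ⊆ S.Tm → Disjoint Sm Lg →
    2 ≤ n → n + 1 ≤ m → S.Cand m v → z S.i0 = 0 → Rich Sm Lg m (S.ub v) z → |c| ≤ 1 →
    ∃ T : Trm (Pm J m) d, T.Ok (Fk J m) m Sm Lg ∧
      ∀ (Λ : Type) (y : Lr d Λ → FreeGroup (Lr d Λ)) (q : Fin d → Λ), T.val y q =
        if A (rr (U := fun _ => Λ) y q 2) ∧ S.Cond n (S.Yv (U := fun _ => Λ) y q v) v then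
          c * sg (∑ i, z i * S.ob n (S.Yv (U := fun _ => Λ) y q v) v i) else 0

/-- the main inequality -/
def SumQ : Prop :=
  AllS fun V _ _ J m d S => ∀ (h B : ℕ) (Sm Lg : Finset (Fin d)), 1 ≤ h → 2 * h + 6 ≤ m →
    Sm ⊆ S.Tm → Lg ⊆ S.Tm → Disjoint Sm Lg →
    ∃ (I : Type) (_ : Fintype I) (T : I → Trm (Pm J m) d),
      Fintype.card I ≤ m * (2 * Fintype.card V) ^ d ∧ (∀ i, (T i).Ok (Fk J m) m Sm Lg) ∧
      ∀ (Λ : Type) (y : Lr d Λ → FreeGroup (Lr d Λ)) (q : Fin d → Λ),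
        0 ≤ (B : ℝ) / 2 ^ h + ∑ i, (T i).val y q ∧
        (S.sh.Good Sm Lg m B (rr (U := fun _ => Λ) y q 2) →
          (∃ v, S.Tru (U := fun _ => Λ) y q v) → 1 ≤ (B : ℝ) / 2 ^ h + ∑ i, (T i).val y q)

/-- generic linking numbers give good matrices -/
def GoodQ : Prop :=
  ∀ (d d' : ℕ) (ρ : Mx d) (κ : Fin d → ZMod 2) (H : Sh d') (e : Fin d ↪ Fin d') (r : Mx d')
    (α a : ZMod 2) (γ : ZMod 2 × ZMod 2) (Sm Lg : Finset (Fin d)) (L B : ℕ), H.Ok → 1 ≤ H.m →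
    Lnk ρ κ H e r α a γ → Rcp ρ → GenQ Sm Lg B L ρ κ → H.Good (Sm.map e) (Lg.map e) L B r

/-! ### Finite pieces -/

/-- existence of finite pieces -/
def ResQ : Prop :=
  ∀ (A : Type) [AddCommGroup A] (J : A ≃ₗ[ℤ] A), CmI J → ∀ N, 1 ≤ N →
    ∃ (V : Type) (_ : AddCommGroup V) (_ : Fintype V) (JV : V ≃ₗ[ℤ] V) (ι : V →ₗ[ℤ] A),
      Emb J JV ι N

/-- statements about all finite pieces -/
def AllE (Q : ∀ (A : Type) [AddCommGroup A] (V : Type) [AddCommGroup V] [Fintype V],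
    (A ≃ₗ[ℤ] A) → (V ≃ₗ[ℤ] V) → (V →ₗ[ℤ] A) → ℕ → Prop) : Prop :=
  ∀ (A : Type) [AddCommGroup A] (V : Type) [AddCommGroup V] [Fintype V] (J : A ≃ₗ[ℤ] A)
    (JV : V ≃ₗ[ℤ] V) (ι : V →ₗ[ℤ] A) (N : ℕ), CmI J → Emb J JV ι N → Q A V J JV ι N

/-- restriction of affine maps -/
def ThQ : Prop :=
  AllE fun A _ _ _ _ J JV ι N => ∀ m, m ≤ N →
    (∀ a w, Pre J a → w ∈ Wn J m → ∃ t : Pm JV m, Rep ι t a w) ∧
    (∀ (t t' : Pm JV m) a a' w, Rep ι t a w → Rep ι t' a' w → (∀ u ∈ Wn J N, a u = a' u) →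
      t = t') ∧
    (∀ (t : Pm JV m) a w, Rep ι t a w → ∀ k, k + 1 ≤ N → del JV k t.1.linear = del J k a) ∧
    ∀ (η : GQ →* (A ≃ₗ[ℤ] A)) (z : GQ → A), (∀ g, Pre J (η g)) → (∀ g, z g ∈ Wn J m) →
      (∀ g h, z (g * h) = z g + η g (z h)) → ∃ θ : GQ →* Pm JV m, ∀ g, Rep ι (θ g) (η g) (z g)

/-! ### The curves -/

/-- local and global automorphisms -/
def LiftQ : Prop :=
  (∀ g, Dc g → ∀ X : Finset Qb, ∃ τ, Lc2 τ ∧ ∀ x ∈ X, τ x = g x) ∧
    (∀ g, Dc g → ∀ (c : Qb) (a : ℚ_[2]),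
      emb ℚ_[2] c = algebraMap ℚ_[2] (AlgebraicClosure ℚ_[2]) a → g c = c) ∧
    ∀ σ : AlgebraicClosure ℚ_[2] ≃ₐ[ℚ_[2]] AlgebraicClosure ℚ_[2],
      ∃ τ : GQ, ∀ x, emb ℚ_[2] (τ x) = σ (emb ℚ_[2] x)

section
open P
open scoped Classical

/-- scaling -/
def ScQ : Prop :=
  ∀ (D D' : ℚ) (F : Type) [Field F] [CharZero F] (u : F), D ≠ 0 → D' ≠ 0 → u ^ 4 * D = D' →
    (∀ R R' : Pts (EE D) F, scf D' u (R + R') = scf D' u R + scf D' u R') ∧
    (∀ R : Pts (EE D) F, R ≠ 0 → scf D' u R ≠ 0 ∧ px (scf D' u R) = u ^ 2 * px R ∧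
      py (scf D' u R) = u ^ 3 * py R) ∧
    (∀ (D'' : ℚ) (u' : F), D'' ≠ 0 → u' ^ 4 * D' = D'' →
      ∀ R : Pts (EE D) F, scf D'' u' (scf D' u R) = scf D'' (u' * u) R) ∧
    (∀ R : Pts (EE D) F, scf D (1 : F) R = R ∧ scf D (-1 : F) R = -R) ∧
    ∀ (F' : Type) [Field F'] [CharZero F'] (f : F →+* F') (R : Pts (EE D) F),
      act (EE D') f (scf D' u R) = scf D' (f u) (act (EE D) f R)

/-- the module of points -/
def ModQ : Prop :=
  ∀ i : Qb, (i ^ 2 = -1 → ∃ J, Jm i J) ∧ ∀ J, Jm i J → CmI J ∧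
    (∀ k u, u ∈ Wn J (2 * k) ↔ 2 ^ k • u = 0) ∧
    ∀ r : Qb, r ^ 2 = 2 → ∃ u ∈ Wn J 4, u ≠ 0 ∧ px u = i * (1 + r)

/-- the twisted action -/
def EtaQ : Prop := ∀ (δ : Qb) (D : ℤ), D ≠ 0 → δ ^ 4 = D → ∃ η, Eta δ η

/-- fourth roots in the field of dyadic numbers -/
def TwoQ : Prop :=
  ∀ t u : ℤ, Odd t → (t : ZMod 16) = u → ∃ c : Qb, c ^ 4 * u = t ∧ ∀ g, Dc g → g c = c

/-- the dyadic points modulo powers of two -/
def IdxQ : Prop :=
  ∀ D : ℤ, D ≠ 0 → ∃ C : ℕ, ∀ k : ℕ, ∃ S : Finset (Pts (EE D) ℚ_[2]), S.card ≤ C * 2 ^ k ∧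
    ∀ T : Pts (EE D) ℚ_[2], ∃ s ∈ S, ∃ T', T = s + 2 ^ k • T'

/-- existence of the local points -/
def LpQ : Prop := ∀ D : ℚ, D ≠ 0 → ∀ k ξ, Sel D k ξ → ∃ T, Lp D k ξ T

/-- cocycles with the same local class -/
def StcQ : Prop :=
  ∀ D : ℚ, D ≠ 0 → ∀ k ξ ξ' T T' T'', Sel D k ξ → Sel D k ξ' → Lp D k ξ T → Lp D k ξ' T' →
    T = T' + 2 ^ k • T'' → ∃ R : Pts (EE D) Qb, 2 ^ k • R = 0 ∧
      (fun g => ξ g - ξ' g - (galQ (EE D) g R - R)) ∈ Str D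

/-- the number of Selmer classes -/
def CntQ : Prop :=
  ∀ D : ℤ, D ≠ 0 → (Str D).Finite → ∃ C : ℕ, ∀ (k : ℕ) (I : Type) (ξ : I → GQ → Pts (EE D) Qb),
    (∀ s, Sel D k (ξ s)) → (∀ s s' (R : Pts (EE D) Qb), 2 ^ k • R = 0 →
      (∀ g, ξ s g - ξ s' g = galQ (EE D) g R - R) → s = s') → ENat.card I ≤ C * 2 ^ k

/-- Kummer cocycles -/
def KumQ : Prop :=
  ∀ D : ℚ, D ≠ 0 → ∀ k : ℕ, ∃ κ : Pts (EE D) ℚ → Pts (EE D) Qb,
    (∀ T, Sel D k fun g => galQ (EE D) g (κ T) - κ T) ∧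
    ∀ T T' (R : Pts (EE D) Qb), 2 ^ k • R = 0 →
      (∀ g, galQ (EE D) g (κ T) - κ T - (galQ (EE D) g (κ T') - κ T') = galQ (EE D) g R - R) →
      Md D ℚ k T T'

end

/-- independent points -/
def IndQ : Prop :=
  ∀ (M : Type) [AddCommGroup M], AddGroup.FG M → ∀ k : ℕ,
    ∃ f : (Fin (Module.finrank ℤ M) → Fin (2 ^ k)) → M,
      ∀ s s' T, f s = f s' + 2 ^ k • T → s = s'

/-- finite generation -/
def FgQ : Prop := ∀ D : ℤ, D ≠ 0 → (Str D).Finite → Fg D ℚ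

/-- the bound for the Selmer group -/
def SelQ : Prop := ∀ D : ℤ, D ≠ 0 → (Str D).Finite → Cork (EZ D)

end Pool.Agent.MP_e23604_nt.Q

end

section

namespace Pool.Agent.MP_e23604_nt.Q

open Finset Filter NumberField
open MP_f68ac8_nt.Zq (Mx sg)
open MP_f68ac8_nt.Zk (Cp Yw rr NS brL)
open MP_f68ac8_nt.Nd (Lr Rcp GenQ Trm)
open scoped BigOperators Topology

section
variable {V : Type} [AddCommGroup V] {J : V ≃ₗ[ℤ] V}

theorem mem_XBas {n : ℕ} {u : V} : u ∈ Wn J n ↔ (om J ^ n) u = 0 := Iff.rfl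

theorem om_XBas (u : V) : om J u = J u - u := rfl

theorem succ_XBas (n : ℕ) (u : V) : om J u ∈ Wn J n ↔ u ∈ Wn J (n + 1) := by
  rw [mem_XBas, mem_XBas, pow_succ, Module.End.mul_apply]

theorem mono_XBas : Monotone (Wn J) := monotone_nat_of_le_succ fun n u hu => by
  rw [mem_XBas] at hu ⊢
  rw [pow_succ', Module.End.mul_apply, hu, map_zero]

theorem com_XBas (n : ℕ) : ∀ u : V, (om J ^ n) (J u) = J ((om J ^ n) u) := by
  induction n with
  | zero => intro u; rfl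
  | succ n ih =>
    intro u
    rw [pow_succ', Module.End.mul_apply, Module.End.mul_apply, ih, om_XBas, om_XBas, map_sub]

theorem pre_XBas : Pre J J := fun n u => by
  rw [mem_XBas, mem_XBas, com_XBas, map_eq_zero_iff J J.injective]

theorem two_XBas (h : Cm0 J) (n : ℕ) (u : V) : 2 • u ∈ Wn J n ↔ u ∈ Wn J (n + 2) := by
  have e : om J (om J u) = -J (2 • u) := by
    rw [om_XBas, om_XBas, map_sub, h.sq, two_nsmul, map_add]
    abel
  rw [← succ_XBas (n + 1), ← succ_XBas n, e, neg_mem_iff, pre_XBas]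

theorem key_XBas (h : Cm0 J) {n : ℕ} {u u' : V} (hu : u ∈ Wn J (n + 1)) (hu' : u' ∈ Wn J (n + 1))
    (h1 : u ∉ Wn J n) (h2 : u' ∉ Wn J n) : u - u' ∈ Wn J n := by
  have a : ∀ v ∈ Wn J (n + 1), (om J ^ n) v ∈ Wn J 1 := fun v hv => by
    rw [mem_XBas] at hv ⊢
    rwa [pow_succ', Module.End.mul_apply] at hv
  rw [mem_XBas, map_sub, sub_eq_zero]
  exact h.one _ (a u hu) _ (a u' hu') h1 h2

theorem dig0_XBas {n : ℕ} {u : V} (h : u ∈ Wn J n) : dig J n u = 0 := if_pos h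

theorem dig1_XBas {n : ℕ} {u : V} (h : u ∉ Wn J n) : dig J n u = 1 := if_neg h

theorem add_XBas (h : Cm0 J) (n : ℕ) {u u' : V} (hu : u ∈ Wn J (n + 1))
    (hu' : u' ∈ Wn J (n + 1)) : dig J n (u + u') = dig J n u + dig J n u' := by
  by_cases h1 : u ∈ Wn J n <;> by_cases h2 : u' ∈ Wn J n
  · rw [dig0_XBas h1, dig0_XBas h2, dig0_XBas (add_mem h1 h2), add_zero]
  · rw [dig0_XBas h1, dig1_XBas h2, zero_add,
      dig1_XBas fun h3 => h2 ((Submodule.add_mem_iff_right _ h1).1 h3)]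
  · rw [dig1_XBas h1, dig0_XBas h2, add_zero,
      dig1_XBas fun h3 => h1 ((Submodule.add_mem_iff_left _ h2).1 h3)]
  · have h3 := add_mem (key_XBas h hu hu' h1 h2)
      ((two_XBas h n u').2 (mono_XBas (Nat.le_succ _) hu'))
    have e : u - u' + 2 • u' = u + u' := by
      rw [two_nsmul]
      abel
    rw [e] at h3
    rw [dig0_XBas h3, dig1_XBas h1, dig1_XBas h2]
    rfl

theorem low_XBas (h : Cm0 J) {a : V ≃ₗ[ℤ] V} (ha : Pre J a) (n : ℕ) {u : V}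
    (hu : u ∈ Wn J (n + 1)) : a u - u ∈ Wn J n := by
  by_cases h1 : u ∈ Wn J n
  · exact sub_mem ((ha n u).2 h1) h1
  · exact key_XBas h ((ha _ u).2 hu) hu (fun h2 => h1 ((ha n u).1 h2)) h1

theorem del_XBas (h : Cm0 J) {a : V ≃ₗ[ℤ] V} (ha : Pre J a) (k : ℕ) {u : V}
    (hu : u ∈ Wn J (k + 1 + 1)) : dig J k (a u - u) = del J (k + 1) a * dig J (k + 1) u := by
  by_cases h1 : u ∈ Wn J (k + 1)
  · rw [dig0_XBas h1, dig0_XBas (low_XBas h ha k h1), mul_zero]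
  · rw [dig1_XBas h1, mul_one, del]
    split_ifs with h2
    · exact dig0_XBas (h2 u hu)
    · push Not at h2
      obtain ⟨u0, h3, h4⟩ := h2
      have h5 : u0 ∉ Wn J (k + 1) := fun h5 => h4 (low_XBas h ha k h5)
      have h6 := low_XBas h ha k (key_XBas h hu h3 h1 h5)
      refine dig1_XBas fun h7 => h4 ?_
      have h8 := sub_mem h7 h6
      have e : a u - u - (a (u - u0) - (u - u0)) = a u0 - u0 := by
        rw [map_sub]
        abel
      rwa [e] at h8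

theorem mul_XBas (h : Cm0 J) {a b : V ≃ₗ[ℤ] V} (ha : Pre J a) (hb : Pre J b) (k : ℕ) :
    del J (k + 1) (a * b) = del J (k + 1) a + del J (k + 1) b := by
  have hab : Pre J (a * b) := fun n u => (ha n (b u)).trans (hb n u)
  by_cases h1 : ∃ u ∈ Wn J (k + 1 + 1), u ∉ Wn J (k + 1)
  · obtain ⟨u, h2, h3⟩ := h1
    have e1 := del_XBas h ha k h2
    have e2 := del_XBas h hb k h2
    have e3 := del_XBas h hab k h2
    rw [dig1_XBas h3, mul_one] at e1 e2 e3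
    have e4 : (a * b) u - u = (a u - u) + a (b u - u) := by
      rw [map_sub]
      change a (b u) - u = _
      abel
    have e5 : dig J k (a (b u - u)) = dig J k (b u - u) := by
      unfold dig
      rw [ha]
    rw [← e1, ← e2, ← e3, e4,
      add_XBas h k (low_XBas h ha _ h2) ((ha _ _).2 (low_XBas h hb _ h2)), e5]
  · push Not at h1
    have e : ∀ c, Pre J c → del J (k + 1) c = 0 := fun c hc =>
      if_pos fun u hu => low_XBas h hc k (h1 u hu)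
    rw [e a ha, e b hb, e _ hab, add_zero]

end

theorem basQ : BasQ := by
  intro V _ J h
  refine ⟨fun a b hab => mono_XBas hab, ?_, succ_XBas, pre_XBas, two_XBas h,
    fun n u hu u' hu' => add_XBas h n hu hu',
    fun a ha => ⟨fun n u hu => low_XBas h ha n hu, fun n hn u hu => ?_⟩,
    fun a b ha hb n hn => ?_, fun n hn => ?_⟩
  · rw [Wn, pow_zero]
    exact LinearMap.ker_id
  · obtain ⟨k, rfl⟩ := Nat.exists_eq_add_of_le' hn
    exact del_XBas h ha k hu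
  · obtain ⟨k, rfl⟩ := Nat.exists_eq_add_of_le' hn
    exact mul_XBas h ha hb k
  · obtain ⟨k, rfl⟩ := Nat.exists_eq_add_of_le' hn
    rintro ⟨u, h1, h2⟩
    have e := del_XBas h pre_XBas k h1
    rw [dig1_XBas h2, mul_one] at e
    rw [← e]
    exact dig1_XBas fun h3 => h2 ((succ_XBas k u).1 h3)

end Pool.Agent.MP_e23604_nt.Q

end

section

namespace Pool.Agent.MP_e23604_nt.Q

open Finset Filter NumberField
open MP_f68ac8_nt.Zq (Mx sg)
open MP_f68ac8_nt.Zk (Cp Yw rr NS brL)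
open MP_f68ac8_nt.Nd (Lr Rcp GenQ Trm)
open scoped BigOperators Topology

section
variable {V : Type} [AddCommGroup V] {J : V ≃ₗ[ℤ] V}

theorem sub_XLev (hB : BasQ) (h : Cm0 J) {n : ℕ} {u u' : V} (hu : u ∈ Wn J (n + 1))
    (hu' : u' ∈ Wn J (n + 1)) (h1 : u ∉ Wn J n) (h2 : u' ∉ Wn J n) : u - u' ∈ Wn J n := by
  have h3 := (hB V J h).2.2.2.2.2.1 n u hu (-u') (neg_mem hu')
  have h4 : -u' ∉ Wn J n := fun hh => h2 (neg_mem_iff.1 hh)
  by_contra h5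
  rw [← sub_eq_add_neg, dig, dig, dig, if_neg h1, if_neg h4, if_neg h5] at h3
  exact absurd h3 (by decide)

theorem card_XLev (hB : BasQ) (h : Cm0 J) (n : ℕ)
    (hex : ∀ k, k < n → ∃ u ∈ Wn J (k + 1), u ∉ Wn J k) : Nat.card (Wn J n) = 2 ^ n := by
  induction n with
  | zero => rw [(hB V J h).2.1]; simp
  | succ n ih =>
    have h1 := ih fun k hk => hex k (by omega)
    obtain ⟨u, hu, hu'⟩ := hex n (by omega)
    have hle := (hB V J h).1 n (n + 1) (by omega)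
    have hf : (Wn J n : Set V).Finite := by
      have : Finite (Wn J n) := Nat.finite_of_card_ne_zero (by rw [h1]; positivity)
      exact Set.toFinite _
    have h2 : (Wn J (n + 1) : Set V) = (Wn J n : Set V) ∪ (fun w => u + w) '' (Wn J n : Set V) := by
      ext w
      constructor
      · intro hw
        by_cases hw' : w ∈ Wn J n
        · exact Or.inl hw'
        · exact Or.inr ⟨w - u, sub_XLev hB h hw hu hw' hu', by simp⟩
      · rintro (hw | ⟨w, hw, rfl⟩)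
        · exact hle hw
        · exact add_mem hu (hle hw)
    have h3 : Disjoint (Wn J n : Set V) ((fun w => u + w) '' (Wn J n : Set V)) := by
      rw [Set.disjoint_left]
      rintro _ hw ⟨w, hw', rfl⟩
      exact hu' (by simpa using sub_mem hw hw')
    have h4 : ∀ k, Nat.card (Wn J k) = (Wn J k : Set V).ncard := fun k => rfl
    rw [h4] at h1 ⊢
    rw [h2, Set.ncard_union_eq h3 hf (hf.image _),
      Set.ncard_image_of_injective _ (add_right_injective u), h1, pow_succ, mul_two]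

end

theorem levQ (hBasQ : BasQ) : LevQ := by
  intro V _ J
  refine ⟨fun N h => ?_, fun h => ?_⟩
  · have hB := hBasQ V J h.toCm0
    have h1 : ∀ k n, n + k + 1 = N → ∃ u ∈ Wn J (n + 1), u ∉ Wn J n := by
      intro k
      induction k with
      | zero =>
        rintro n rfl
        obtain ⟨u, hu⟩ := h.ex
        exact ⟨u, h.top u, hu⟩
      | succ k ih =>
        intro n hn
        obtain ⟨u, hu, hu'⟩ := ih (n + 1) (by omega)
        exact ⟨om J u, (hB.2.2.1 _ _).2 hu, fun hh => hu' ((hB.2.2.1 _ _).1 hh)⟩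
    have h2 : ∀ n, n < N → ∃ u ∈ Wn J (n + 1), u ∉ Wn J n := fun n hn =>
      h1 (N - n - 1) n (by omega)
    exact ⟨h2, fun n hn => card_XLev hBasQ h.toCm0 n fun k hk => h2 k (by omega)⟩
  · have hB := hBasQ V J h.toCm0
    have h1 : ∀ n, ∃ u ∈ Wn J (n + 1), u ∉ Wn J n := by
      intro n
      induction n with
      | zero =>
        obtain ⟨u, hu, hu'⟩ := h.ex
        exact ⟨u, hu, by rw [hB.2.1]; exact hu'⟩
      | succ n ih =>
        obtain ⟨u, hu, hu'⟩ := ih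
        obtain ⟨w, rfl⟩ := h.surj u
        exact ⟨w, (hB.2.2.1 _ _).1 hu, fun hh => hu' ((hB.2.2.1 _ _).2 hh)⟩
    refine ⟨h1, fun n => card_XLev hBasQ h.toCm0 n fun k _ => h1 k, fun m => ?_⟩
    obtain ⟨u, hu, hu'⟩ := h1 (m + 2)
    obtain ⟨w, hw, hw'⟩ := h1 (m + 1)
    have hw3 : w ∈ Wn J (m + 3) := hB.1 _ _ (by omega) hw
    refine ⟨![0, w, u, u + w], fun t => ?_, fun b hb => ?_⟩
    · fin_cases t
      · exact zero_mem _
      · exact hw3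
      · exact hu
      · exact add_mem hu hw3
    · by_cases h2 : b ∈ Wn J (m + 2)
      · by_cases h3 : b ∈ Wn J (m + 1)
        · exact ⟨0, by simpa using h3⟩
        · exact ⟨1, sub_XLev hBasQ h.toCm0 h2 hw h3 hw'⟩
      · have h4 := sub_XLev hBasQ h.toCm0 hb hu h2 hu'
        by_cases h3 : b - u ∈ Wn J (m + 1)
        · exact ⟨2, h3⟩
        · exact ⟨3, by simpa [sub_sub] using sub_XLev hBasQ h.toCm0 h4 hw h3 hw'⟩

end Pool.Agent.MP_e23604_nt.Q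

end

section

/-!
Selmer structures on modules with complex multiplication, and the statements of the steps of the
parity theorem.
-/

set_option autoImplicit false

open Module Filter Topology Finset
open scoped Classical

namespace Pool.Agent.MP_e23604_nt.R

open B
open Q (Wn dig CmI Cm0 Pre A1 Eta Jm scf St Sel Cork Fg IdxQ basQ levQ)

/-- actions of the Galois group -/
abbrev Act (A : Type) [AddCommGroup A] : Type := GQ →* (A ≃ₗ[ℤ] A)

section defs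

variable {A : Type} [AddCommGroup A]

/-- multiplication by `i - 1` -/
abbrev wo (J : A ≃ₗ[ℤ] A) : Module.End ℤ A := Q.om J

/-- the `n`-torsion -/
def tor (A : Type) [AddCommGroup A] (n : ℕ) : AddSubgroup A := (nsmulAddMonoidHom n : A →+ A).ker

/-- coboundaries -/
noncomputable def dd (η : Act A) (R : A) : GQ → A := fun g => η g R - R

/-- `ξ` is a coboundary on `H` -/
def InL (η : Act A) (H : Subgroup GQ) (ξ : GQ → A) : Prop := ∃ R, ∀ g ∈ H, ξ g = dd η R g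

/-- a quadratic character as a function with values in `A` -/
def chT (χ : GQ → ZMod 2) (T : A) : GQ → A := fun g => (χ g).val • T

/-- unramified outside `2`, `n` and `Q` -/
def UnrO {α : Type} [Zero α] (n : ℕ) (Q : Finset ℕ) (ξ : GQ → α) : Prop :=
  ∀ (l : ℕ) [Fact l.Prime] (γ : GQ), l ≠ 2 → ¬ l ∣ n → l ∉ Q → ∀ τ ∈ Ine l γ, ξ τ = 0

/-- the cup product -/
noncomputable def cup (η : Act A) (e : A → A → Qb) (a b : GQ → A) : GQ → GQ → Qb :=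
  fun g h => e (a g) (η g (b h))

/-- nondegenerate alternating pairings on the `n`-torsion -/
structure Pai (n : ℕ) (e : A → A → Qb) : Prop where
  bil : Bil (tor A n) n e
  alt : ∀ x ∈ tor A n, e x x = 1
  nd : ∀ x ∈ tor A n, (∀ y ∈ tor A n, e y x = 1) → x = 0

/-- equivariant pairings for which the images of points are isotropic -/
structure Wp (η : Act A) (n : ℕ) (e : A → A → Qb) : Prop extends Pai n e where
  eqv : ∀ g : GQ, ∀ x ∈ tor A n, ∀ y ∈ tor A n, g (e x y) = e (η g x) (η g y)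
  iso : ∀ (H : Subgroup GQ) (R R' : A), (∀ g ∈ H, dd η R g ∈ tor A n) →
    (∀ g ∈ H, dd η R' g ∈ tor A n) → Cob H (cup η e (dd η R) (dd η R'))

/-- a function field with translations, orders of vanishing and Galois action -/
structure Th (η : Act A) {F : Type} [Field F] [Algebra Qb F] (τ : A → F →+* F) (g : GQ → F →+* F)
    (o : A → F → ℤ) : Prop where
  t0 : ∀ f, τ 0 f = f
  tadd : ∀ S T f, τ (S + T) f = τ S (τ T f)
  tc : ∀ T c, τ T (algebraMap Qb F c) = algebraMap Qb F c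
  gc : ∀ (σ : GQ) c, g σ (algebraMap Qb F c) = algebraMap Qb F (σ c)
  gt : ∀ σ T f, g σ (τ T f) = τ (η σ T) (g σ f)
  gmul : ∀ σ σ' f, g (σ * σ') f = g σ (g σ' f)
  glc : ∀ f, Lc ⊤ fun σ => g σ f
  omul : ∀ Q f f', f ≠ 0 → f' ≠ 0 → o Q (f * f') = o Q f + o Q f'
  ot : ∀ Q T f, o Q (τ T f) = o (Q + T) f
  og : ∀ σ Q f, o (η σ Q) (g σ f) = o Q f
  oc : ∀ Q c, o Q (algebraMap Qb F c) = 0
  cst : ∀ f, f ≠ 0 → (∀ Q, o Q f = 0) → ∃ c, f = algebraMap Qb F c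
  deg : ∀ f, f ≠ 0 → ∃ s : Finset A, (∀ Q, Q ∉ s → o Q f = 0) ∧ ∑ Q ∈ s, o Q f = 0
  two : ∀ S S' V, S + S' = V + V → ∃ f, f ≠ 0 ∧ ∀ Q,
    o Q f = (if Q = S then 1 else 0) + (if Q = S' then 1 else 0) - if Q = V then 2 else 0

/-- functions with divisor `n (-S) - n (0)` -/
def Fn {F : Type} [Field F] (o : A → F → ℤ) (n : ℕ) (S : A) (f : F) : Prop :=
  f ≠ 0 ∧ ∀ Q, o Q f = (if Q = -S then (n : ℤ) else 0) - if Q = 0 then (n : ℤ) else 0

/-- `e` is the commutator pairing -/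
def IsW {F : Type} [Field F] [Algebra Qb F] (τ : A → F →+* F) (o : A → F → ℤ) (n : ℕ)
    (e : A → A → Qb) : Prop :=
  ∀ S T f f', Fn o n S f → Fn o n T f' → n • S = 0 → n • T = 0 →
    f * τ S f' = algebraMap Qb F (e S T) * (f' * τ T f)

variable (J : A ≃ₗ[ℤ] A)

/-- cocycles of level `m` -/
structure Zc (η : Act A) (m : ℕ) (ξ : GQ → A) : Prop where
  lc : Lc ⊤ ξ
  coc : ∀ g h, ξ (g * h) = ξ g + η g (ξ h)
  lev : ∀ g, ξ g ∈ Wn J m

variable {J}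

theorem Zc.zero (η : Act A) (m : ℕ) : Zc J η m 0 :=
  ⟨Lc.const ⊤ 0, fun _ _ => by simp, fun _ => zero_mem _⟩

theorem Zc.add {η : Act A} {m : ℕ} {a b : GQ → A} (ha : Zc J η m a) (hb : Zc J η m b) :
    Zc J η m (a + b) :=
  ⟨ha.lc.map₂ hb.lc (· + ·), fun g h => by
    simp only [Pi.add_apply, ha.coc, hb.coc, map_add]; abel, fun g => add_mem (ha.lev g) (hb.lev g)⟩

theorem Zc.neg {η : Act A} {m : ℕ} {a : GQ → A} (ha : Zc J η m a) : Zc J η m (-a) :=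
  ⟨ha.lc.map (- ·), fun g h => by simp only [Pi.neg_apply, ha.coc, map_neg]; abel,
    fun g => neg_mem (ha.lev g)⟩

theorem InL.zero (η : Act A) (H : Subgroup GQ) : InL η H 0 := ⟨0, fun _ _ => by simp [dd]⟩

theorem InL.add {η : Act A} {H : Subgroup GQ} {a b : GQ → A} (ha : InL η H a) (hb : InL η H b) :
    InL η H (a + b) := by
  obtain ⟨R, h⟩ := ha
  obtain ⟨R', h'⟩ := hb
  exact ⟨R + R', fun g hg => by simp only [Pi.add_apply, h g hg, h' g hg, dd, map_add]; abel⟩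

theorem InL.neg {η : Act A} {H : Subgroup GQ} {a : GQ → A} (ha : InL η H a) : InL η H (-a) := by
  obtain ⟨R, h⟩ := ha
  exact ⟨-R, fun g hg => by simp only [Pi.neg_apply, h g hg, dd, map_neg]; abel⟩

theorem InL.congr {η : Act A} {H : Subgroup GQ} {a b : GQ → A} (ha : InL η H a)
    (e : ∀ g ∈ H, b g = a g) : InL η H b := ha.imp fun _ h g hg => (e g hg).trans (h g hg)

variable (J)

/-- the Selmer group relaxed at `Q` -/
def Sq (η : Act A) (n : ℕ) (cc : GQ) (Q : Finset ℕ) (m : ℕ) : AddSubgroup (GQ → A) where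
  carrier := {ξ | Zc J η m ξ ∧ UnrO n Q ξ ∧ InL η (Dec (nv 2 1)) ξ ∧
    InL η (Subgroup.zpowers cc) ξ ∧ ∀ (l : ℕ) [Fact l.Prime], l ∣ n → InL η (Dec (nv l 1)) ξ}
  zero_mem' := ⟨Zc.zero η m, fun _ _ _ _ _ _ _ _ => rfl, InL.zero _ _, InL.zero _ _,
    fun _ _ _ => InL.zero _ _⟩
  add_mem' := by
    rintro a b ⟨a1, a2, a3, a4, a5⟩ ⟨b1, b2, b3, b4, b5⟩
    exact ⟨a1.add b1, fun l _ γ h1 h2 h3 τ hτ => by
      rw [Pi.add_apply, a2 l γ h1 h2 h3 τ hτ, b2 l γ h1 h2 h3 τ hτ, add_zero],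
      a3.add b3, a4.add b4, fun l _ h => (a5 l h).add (b5 l h)⟩
  neg_mem' := by
    rintro a ⟨a1, a2, a3, a4, a5⟩
    exact ⟨a1.neg, fun l _ γ h1 h2 h3 τ hτ => by rw [Pi.neg_apply, a2 l γ h1 h2 h3 τ hτ, neg_zero],
      a3.neg, a4.neg, fun l _ h => (a5 l h).neg⟩

/-- coboundaries of points of finite level -/
def Cb (η : Act A) : AddSubgroup (GQ → A) where
  carrier := {ξ | ∃ T, (∃ k : ℕ, 2 ^ k • T = 0) ∧ ξ = dd η T}
  zero_mem' := ⟨0, ⟨0, by simp⟩, funext fun _ => by simp [dd]⟩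
  add_mem' := by
    rintro _ _ ⟨T, ⟨k, h⟩, rfl⟩ ⟨T', ⟨k', h'⟩, rfl⟩
    refine ⟨T + T', ⟨k + k', ?_⟩, funext fun g => by simp only [Pi.add_apply, dd, map_add]; abel⟩
    rw [smul_add, pow_add, mul_smul, mul_smul, h', smul_comm, h]
    simp
  neg_mem' := by
    rintro _ ⟨T, ⟨k, h⟩, rfl⟩
    exact ⟨-T, ⟨k, by rw [smul_neg, h, neg_zero]⟩, funext fun g => by
      simp only [Pi.neg_apply, dd, map_neg]; abel⟩

/-- the elements that act trivially on the level `m` and are killed by the cocycles in `X` -/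
def Kr (η : Act A) (m : ℕ) (X : Set (GQ → A)) (g : GQ) : Prop :=
  (∀ u ∈ Wn J m, η g u = u) ∧ ∀ ξ ∈ X, ξ g = 0

/-- every odd class modulo eight contains a divisor of `n` -/
def G8 (n : ℕ) : Prop := ∀ u : ℕ, Odd u → ∃ m : ℕ, m ∣ n ∧ m % 8 = u % 8

/-- Galois modules with good reduction outside `2 n` -/
structure Ga (n : ℕ) (η : Act A) : Prop where
  opn : ∀ u, Lc ⊤ fun g => η g u
  pre : ∀ g, Pre J (η g)
  unr : ∀ (l : ℕ) [Fact l.Prime] (γ : GQ), l ≠ 2 → ¬ l ∣ n → ∀ τ ∈ Ine l γ, ∀ k, ∀ u ∈ Wn J k,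
    η τ u = u
  tam : ∀ (l : ℕ) [Fact l.Prime], l ∣ n → ∃ τ ∈ Ine l 1, kap l τ = 1 ∧ ∀ k, ∀ u ∈ Wn J k,
    η τ u = J u

/-- the local conditions at two and infinity have index at most `2 ^ (4 - ℓ)` -/
def Cov (η : Act A) (cc : GQ) (T : A) (ℓ : ℕ) : Prop :=
  ∃ Y : Finset ℤ, Y.card * 2 ^ ℓ ≤ 16 ∧ ∀ d : ℤ, d ≠ 0 → ∃ y ∈ Y, y ≠ 0 ∧
    InL η (Dec (nv 2 1)) (chT (kap (d * y : ℤ)) T) ∧
    InL η (Subgroup.zpowers cc) (chT (kap (d * y : ℤ)) T)

/-- one module -/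
structure P1 (η : Act A) (n : ℕ) (cc : GQ) (T : A) : Prop where
  cm : CmI J
  t0 : T ∈ Wn J 1 ∧ T ≠ 0
  odd : Odd n
  sf : Squarefree n
  g8 : G8 n
  cc : CC cc
  ga : Ga J n η
  wp : ∀ K, ∃ e, Wp η (2 ^ K) e

/-- the chain of twisted modules -/
structure Ps (η : ℕ → Act A) (n : ℕ) (cc : GQ) (T : A) (ℓ : ℕ → ℕ) : Prop where
  p1 : ∀ j, P1 J (η j) n cc T
  tw : ∀ j g u, wo J (η j g u) = η (j + 1) g (wo J u)
  jj : ∀ j g u, J (η j g u) = η (j + 2) g (J u)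
  cov : ∀ j, Cov (η j) cc T (ℓ j)
  sum : ∀ j, ℓ j + ℓ (j + 1) = 4

/-- auxiliary primes -/
structure Qs (η : Act A) (n K : ℕ) (ζ : Qb) (l₀ : ℕ) (qq : ℕ → ℕ) (Q : Finset ℕ) (φ τ : ℕ → GQ) :
    Prop where
  two : 2 ≤ K
  zeta : IsPrimitiveRoot ζ (2 ^ (K + 1))
  base : l₀ ∈ n.primeFactors
  img : Q = (n.primeFactors.erase l₀).image qq
  inj : Set.InjOn qq (n.primeFactors.erase l₀)
  pri : ∀ q ∈ Q, q.Prime ∧ q ≠ 2 ∧ ¬ q ∣ n
  tq : ∀ (q : ℕ) [Fact q.Prime], q ∈ Q → TQ (2 ^ (K + 1)) ζ q 1 (φ q) (τ q)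
  triv : ∀ (q : ℕ) [Fact q.Prime], q ∈ Q → ∀ g ∈ Dec (nv q 1), ∀ u ∈ Wn J (2 * K + 1), η g u = u
  sym : ∀ l ∈ n.primeFactors.erase l₀, ∀ l' ∈ n.primeFactors,
    kap l' (φ (qq l)) = if l' = l ∨ l' = l₀ then 1 else 0

/-- the values at the tame generators -/
def res (Q : Finset ℕ) (φ τ : ℕ → GQ) : (GQ → A) →+ (Q → A × A) where
  toFun ξ q := (ξ (φ q), ξ (τ q))
  map_zero' := rfl
  map_add' _ _ := rfl

/-- families of pairs of level `m` -/
def Hm (ι : Type) (m : ℕ) : AddSubgroup (ι → A × A) where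
  carrier := {x | ∀ q, (x q).1 ∈ Wn J m ∧ (x q).2 ∈ Wn J m}
  zero_mem' _ := ⟨zero_mem _, zero_mem _⟩
  add_mem' ha hb q := ⟨add_mem (ha q).1 (hb q).1, add_mem (ha q).2 (hb q).2⟩
  neg_mem' ha q := ⟨neg_mem (ha q).1, neg_mem (ha q).2⟩

/-- unramified families -/
def B0 (A : Type) [AddCommGroup A] (ι : Type) : AddSubgroup (ι → A × A) where
  carrier := {x | ∀ q, (x q).2 = 0}
  zero_mem' _ := rfl
  add_mem' {a b} ha hb q := by rw [Pi.add_apply, Prod.snd_add, ha q, hb q, add_zero]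
  neg_mem' {a} ha q := by rw [Pi.neg_apply, Prod.snd_neg, ha q, neg_zero]

/-- a map applied to all components -/
def onP {ι : Type} (f : A → A) (x : ι → A × A) : ι → A × A := fun q => (f (x q).1, f (x q).2)

/-- a chain of subgroups -/
structure Ch {ι : Type} [Fintype ι] (V : ℕ → ℕ → AddSubgroup (ι → A × A)) (ℓ : ℕ → ℕ) (M : ℕ) :
    Prop where
  cm : CmI J
  le : ∀ j m, V j m ≤ Hm J ι m
  mono : ∀ j m, V j m ≤ V j (m + 1)
  map : ∀ j m, ∀ y ∈ V j (m + 1), onP (wo J) y ∈ V (j + 1) m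
  lift : ∀ j m, m + 1 ≤ M → ∀ x ∈ V (j + 1) m, ∃ y ∈ V j (m + 1), onP (wo J) y = x
  jj : ∀ j m, ∀ x ∈ V j m, onP J x ∈ V (j + 2) m
  low : ∀ j, 2 ^ (Fintype.card ι + ℓ j) ≤ 4 * Nat.card (V j 1)
  sum : ∀ j, ℓ j + ℓ (j + 1) = 4

/-- the points fixed by the decomposition group at two, modulo powers of two -/
def Idx (η : Act A) : Prop :=
  ∃ C : ℕ, ∀ k : ℕ, ∃ cl : A → ℕ, (∀ T, cl T < C * 2 ^ k) ∧ ∀ T T',
    (∀ g ∈ Dec (nv 2 1), η g T = T) → (∀ g ∈ Dec (nv 2 1), η g T' = T') → cl T = cl T' →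
    ∃ S, (∀ g ∈ Dec (nv 2 1), η g S = S) ∧ T - T' = 2 ^ k • S

/-- the Selmer group has bounded exponent -/
def Bex (η : Act A) (n : ℕ) (cc : GQ) : Prop :=
  ∃ k₀ : ℕ, ∀ k, ∀ ξ ∈ Sq J η n cc ∅ (2 * k), 2 ^ k₀ • ξ ∈ Cb η

end defs

/-- the classes with root number one -/
def Rt (D : ℤ) : Prop :=
  (0 < D ∧ D % 16 ∈ ({1, 2, 6, 7, 9, 10, 11, 14} : Finset ℤ)) ∨
    (D < 0 ∧ D % 16 ∈ ({3, 5, 13, 15} : Finset ℤ))

/-- the dimension of the local conditions -/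
def lz (D : ℤ) : ℕ := if 0 < D ∧ D % 8 = 1 then 4 else 2

/-- finiteness of the group of points and of the two-primary part -/
def Fin2 (W : WeierstrassCurve ℚ) : Prop :=
  Finite W.toAffine.Point ∧ {c | c ∈ Sha W ∧ ∃ k : ℕ, 2 ^ k • c = 0}.Finite

/-! ### Elementary lemmas -/

section lemmas

variable {A : Type} [AddCommGroup A] {J : A ≃ₗ[ℤ] A} {η : Act A}

theorem mem_tor {n : ℕ} {x : A} : x ∈ tor A n ↔ n • x = 0 := Iff.rfl

theorem act_mul (η : Act A) (g h : GQ) (u : A) : η (g * h) u = η g (η h u) := by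
  rw [map_mul]; rfl

theorem act_one (η : Act A) (u : A) : η 1 u = u := by rw [map_one]; rfl

theorem om_apply (J : A ≃ₗ[ℤ] A) (u : A) : wo J u = J u - u := rfl

theorem W_mono (h : Cm0 J) {a b : ℕ} (hab : a ≤ b) {u : A} (hu : u ∈ Wn J a) : u ∈ Wn J b :=
  (basQ A J h).1 a b hab hu

theorem W_zero (h : Cm0 J) {u : A} : u ∈ Wn J 0 ↔ u = 0 := by
  rw [(basQ A J h).2.1, Submodule.mem_bot]

theorem W_om (h : Cm0 J) {n : ℕ} {u : A} : wo J u ∈ Wn J n ↔ u ∈ Wn J (n + 1) :=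
  (basQ A J h).2.2.1 n u

theorem W_J (h : Cm0 J) {n : ℕ} {u : A} : J u ∈ Wn J n ↔ u ∈ Wn J n := (basQ A J h).2.2.2.1 n u

theorem W_pow (h : Cm0 J) (k : ℕ) {n : ℕ} {u : A} : 2 ^ k • u ∈ Wn J n ↔ u ∈ Wn J (n + 2 * k) := by
  induction k generalizing u with
  | zero => simp
  | succ k ih =>
    rw [pow_succ, mul_smul, ih, (basQ A J h).2.2.2.2.1]
    rfl

theorem W_tor (h : Cm0 J) (k : ℕ) {u : A} : u ∈ Wn J (2 * k) ↔ u ∈ tor A (2 ^ k) := by
  rw [mem_tor, ← W_zero h, W_pow h, zero_add]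

theorem W_step (h : Cm0 J) {a : A ≃ₗ[ℤ] A} (ha : Pre J a) {n : ℕ} {u : A}
    (hu : u ∈ Wn J (n + 1)) : a u - u ∈ Wn J n :=
  ((basQ A J h).2.2.2.2.2.2.1 a ha).1 n u hu

theorem W_ex (h : CmI J) (n : ℕ) : ∃ u ∈ Wn J (n + 1), u ∉ Wn J n := ((levQ basQ A J).2 h).1 n

theorem W_card (h : CmI J) (n : ℕ) : Nat.card (Wn J n) = 2 ^ n := ((levQ basQ A J).2 h).2.1 n

theorem om_om (h : Cm0 J) (u : A) : wo J (wo J u) = -(2 • J u) := by
  rw [om_apply, om_apply, map_sub, h.sq, two_smul]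
  abel

theorem two_surj (h : CmI J) (k : ℕ) (u : A) : ∃ v : A, 2 ^ k • v = u := by
  induction k generalizing u with
  | zero => exact ⟨u, by simp⟩
  | succ k ih =>
    obtain ⟨a, rfl⟩ := ih u
    obtain ⟨b, rfl⟩ := h.surj a
    obtain ⟨c, rfl⟩ := h.surj b
    exact ⟨-J c, by rw [om_om h.toCm0, pow_succ, mul_smul, smul_neg 2]⟩

theorem W_one (h : Cm0 J) {T u : A} (hT : T ∈ Wn J 1 ∧ T ≠ 0) (hu : u ∈ Wn J 1) :
    u = 0 ∨ u = T := by
  by_cases h0 : u = 0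
  · exact Or.inl h0
  · exact Or.inr (h.one u hu T hT.1 h0 hT.2)

theorem T_two (h : Cm0 J) {T : A} (hT : T ∈ Wn J 1) : T + T = 0 := by
  have := (W_tor h 1).1 (W_mono h one_le_two hT)
  rwa [mem_tor, pow_one, two_smul] at this

theorem T_fix (h : Cm0 J) {a : A ≃ₗ[ℤ] A} (ha : Pre J a) {T : A} (hT : T ∈ Wn J 1) : a T = T :=
  sub_eq_zero.1 ((W_zero h).1 (W_step h ha hT))

theorem z2 (a : ZMod 2) : a = 0 ∨ a = 1 := by
  revert a
  decide

theorem chT_add (h : Cm0 J) {T : A} (hT : T ∈ Wn J 1) (χ χ' : GQ → ZMod 2) :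
    chT (χ + χ') T = chT χ T + chT χ' T := by
  funext g
  have h2 := T_two h hT
  simp only [chT, Pi.add_apply]
  generalize χ g = a
  generalize χ' g = b
  rcases z2 a with rfl | rfl <;> rcases z2 b with rfl | rfl <;>
    simp [h2, ZMod.val_one, show (1 + 1 : ZMod 2) = 0 from rfl]

theorem chT_eq_zero {T : A} (hT : T ≠ 0) {χ : GQ → ZMod 2} {g : GQ} : chT χ T g = 0 ↔ χ g = 0 := by
  simp only [chT]
  generalize χ g = a
  rcases z2 a with rfl | rfl <;> simp [hT, ZMod.val_one]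

theorem chT_dig (h : Cm0 J) {T : A} (hT : T ∈ Wn J 1 ∧ T ≠ 0) {ξ : GQ → A} {g : GQ}
    (hg : ξ g ∈ Wn J 1) : chT (fun g => dig J 0 (ξ g)) T g = ξ g := by
  rcases W_one h hT hg with e | e
  · simp [chT, dig, e]
  · simp [chT, dig, e, W_zero h, hT.2, ZMod.val_one]

theorem chT_zc (h : Cm0 J) (hη : ∀ g, Pre J (η g)) {T : A} (hT : T ∈ Wn J 1) {χ : GQ → ZMod 2}
    (h1 : Adt ⊤ χ) (h2 : Lc ⊤ χ) : Zc J η 1 (chT χ T) := by
  refine ⟨h2.map fun a => a.val • T, fun g j => ?_, fun g => nsmul_mem hT _⟩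
  have := congrFun (chT_add h hT (fun _ => χ g) fun _ => χ j) 1
  simp only [chT, Pi.add_apply] at this
  simp only [chT, h1 g trivial j trivial, this, map_nsmul, T_fix h (hη g) hT]

theorem Zc.mono (h : Cm0 J) {m m' : ℕ} (hm : m ≤ m') {ξ : GQ → A} (hξ : Zc J η m ξ) :
    Zc J η m' ξ := ⟨hξ.lc, hξ.coc, fun g => W_mono h hm (hξ.lev g)⟩

theorem Zc.one {m : ℕ} {ξ : GQ → A} (hξ : Zc J η m ξ) : ξ 1 = 0 := by
  have := hξ.coc 1 1
  rw [mul_one, act_one] at this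
  exact left_eq_add.1 this

theorem dd_coc (η : Act A) (R : A) (g h : GQ) : dd η R (g * h) = dd η R g + η g (dd η R h) := by
  simp only [dd, act_mul, map_sub]
  abel

theorem dd_zc (h : Cm0 J) {n m : ℕ} (hη : Ga J n η) {T : A} (hT : T ∈ Wn J (m + 1)) :
    Zc J η m (dd η T) :=
  ⟨(hη.opn T).map (· - T), dd_coc η T, fun g => W_step h (hη.pre g) hT⟩

theorem dd_sq (h : Cm0 J) {n m : ℕ} (hη : Ga J n η) (cc : GQ) (Q : Finset ℕ) {T : A}
    (hT : T ∈ Wn J (m + 1)) : dd η T ∈ Sq J η n cc Q m :=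
  ⟨dd_zc h hη hT, fun l _ γ h1 h2 _ τ hτ => sub_eq_zero.2 (hη.unr l γ h1 h2 τ hτ _ T hT),
    ⟨T, fun _ _ => rfl⟩, ⟨T, fun _ _ => rfl⟩, fun _ _ _ => ⟨T, fun _ _ => rfl⟩⟩

theorem Sq_mono (h : Cm0 J) {n m m' : ℕ} {cc : GQ} {Q Q' : Finset ℕ} (hm : m ≤ m') (hQ : Q ⊆ Q') :
    Sq J η n cc Q m ≤ Sq J η n cc Q' m' := fun _ hξ =>
  ⟨hξ.1.mono h hm, fun l _ γ h1 h2 h3 => hξ.2.1 l γ h1 h2 fun e => h3 (hQ e), hξ.2.2⟩

/-- transport of Selmer cocycles along an equivariant map -/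
theorem Sq_map {η' : Act A} {n m m' : ℕ} {cc : GQ} {Q : Finset ℕ} (f : A →+ A)
    (hf : ∀ g u, f (η g u) = η' g (f u)) (hm : ∀ u ∈ Wn J m, f u ∈ Wn J m') {ξ : GQ → A}
    (hξ : ξ ∈ Sq J η n cc Q m) : (fun g => f (ξ g)) ∈ Sq J η' n cc Q m' := by
  have key : ∀ H, InL η H ξ → InL η' H fun g => f (ξ g) := by
    rintro H ⟨R, hR⟩
    exact ⟨f R, fun g hg => by simp only [hR g hg, dd, map_sub, hf]⟩
  obtain ⟨h1, h2, h3, h4, h5⟩ := hξ
  exact ⟨⟨h1.lc.map f, fun g j => by simp only [h1.coc, map_add, hf], fun g => hm _ (h1.lev g)⟩,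
    fun l _ γ a b c τ hτ => by simp only [h2 l γ a b c τ hτ, map_zero], key _ h3, key _ h4,
    fun l _ hl => key _ (h5 l hl)⟩

/-- vanishing on one inertia group above `l` suffices -/
theorem unr_conj {m : ℕ} {ξ : GQ → A} (hξ : Zc J η m ξ) {l : ℕ} [Fact l.Prime]
    (hη : ∀ τ ∈ Ine l 1, ∀ u ∈ Wn J m, η τ u = u) (h : ∀ τ ∈ Ine l 1, ξ τ = 0) (γ : GQ) :
    ∀ τ ∈ Ine l γ, ξ τ = 0 := by
  intro τ hτ
  have h1 : γ * τ * γ⁻¹ ∈ Ine l 1 := (mem_Ine_conj l 1 γ τ).1 (by rwa [one_mul])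
  have h2 := hξ.coc (γ * τ * γ⁻¹) γ
  rw [h _ h1, hη _ h1 _ (hξ.lev γ), zero_add, inv_mul_cancel_right, hξ.coc, add_eq_left] at h2
  exact (η γ).map_eq_zero_iff.1 h2

end lemmas

theorem Inv.cob_mul {l : ℕ} [Fact l.Prime] {γ : GQ} {c c' : GQ → GQ → Qb} {r : ℚ}
    (h : Cob (Dec (nv l γ)) c) (h' : Inv l γ c' r) : Inv l γ (fun g j => c g j * c' g j) r := by
  obtain ⟨n, k, s, a, φ, h1, h2, h3, h4, h5, h6, h7, h8⟩ := h'
  exact ⟨n, k, s, a, φ, h1, h2, h3, h4, h5, h6, h7,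
    (h.mul h8).congr fun _ _ _ _ => (mul_assoc _ _ _).symm⟩

theorem Inv.congr {l : ℕ} [Fact l.Prime] {γ : GQ} {c c' : GQ → GQ → Qb} {r : ℚ}
    (h : Inv l γ c r) (e : ∀ g ∈ Dec (nv l γ), ∀ j ∈ Dec (nv l γ), c g j = c' g j) :
    Inv l γ c' r := by
  obtain ⟨n, k, s, a, φ, h1, h2, h3, h4, h5, h6, h7, h8⟩ := h
  exact ⟨n, k, s, a, φ, h1, h2, h3, h4, h5, h6, h7,
    h8.congr fun g hg j hj => by rw [e g hg j hj]⟩

/-! ### Statements: modules -/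

/-- statements about all modules -/
def AllP (S : ∀ (A : Type) [AddCommGroup A], (A ≃ₗ[ℤ] A) → Act A → ℕ → GQ → A → Prop) : Prop :=
  ∀ (A : Type) [AddCommGroup A] (J : A ≃ₗ[ℤ] A) (η : Act A) (n : ℕ) (cc : GQ) (T : A),
    P1 J η n cc T → S A J η n cc T

/-- statements about all modules with auxiliary primes -/
def AllQ (S : ∀ (A : Type) [AddCommGroup A], (A ≃ₗ[ℤ] A) → Act A → ℕ → GQ → A → ℕ → ℕ → Finset ℕ →
    (ℕ → GQ) → (ℕ → GQ) → Prop) : Prop :=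
  AllP fun A _ J η n cc T => ∀ K ζ l₀ qq Q φ τ, Qs J η n K ζ l₀ qq Q φ τ →
    S A J η n cc T K l₀ Q φ τ

/-- the kernel of the affine action -/
def LEV_st : Prop := ∀ (A : Type) [AddCommGroup A] (J : A ≃ₗ[ℤ] A) (η : Act A) (n m : ℕ)
  (X : Set (GQ → A)), CmI J → Ga J n η → X.Finite → (∀ ξ ∈ X, Zc J η m ξ) →
  ∃ N, Lev N ∧ ∀ g, g ∈ N ↔ Kr J η m X g

/-- finitely many primes ramify -/
def FINR_st : Prop := ∀ N, ON N → {l : ℕ | ∃ _ : Fact l.Prime, ¬ Ine l 1 ≤ N}.Finite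

/-- pairings and levels -/
def PAI_st : Prop := ∀ (A : Type) [AddCommGroup A] (J : A ≃ₗ[ℤ] A) (K : ℕ) (e : A → A → Qb),
  CmI J → Pai (2 ^ K) e → 1 ≤ K →
  (∀ T, T ∈ Wn J 1 ∧ T ≠ 0 → ∀ y ∈ Wn J (2 * K), e T y = (-1) ^ (dig J (2 * K - 1) y).val) ∧
  (∀ a b, a + b ≤ 2 * K → ∀ x ∈ Wn J a, ∀ y ∈ Wn J b, e x y = 1) ∧
  ∀ x ∈ Wn J (2 * K), ∀ y ∈ Wn J (2 * K), e x y * e y x = 1

/-- the product of the unramified and a ramified quadratic character -/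
def INV2_st : Prop := ∀ (l : ℕ) [Fact l.Prime] (γ φ : GQ) (u κ : GQ → ZMod 2), l ≠ 2 →
  Frob l γ φ → Adt (Dec (nv l γ)) u → Lc (Dec (nv l γ)) u → (∀ τ ∈ Ine l γ, u τ = 0) → u φ = 1 →
  Adt (Dec (nv l γ)) κ → Lc (Dec (nv l γ)) κ → (∃ τ ∈ Ine l γ, κ τ = 1) →
  ∃ v : ℤ, Odd v ∧ Inv l γ (fun g h => (-1) ^ (u g * κ h).val) (v / 2)

/-- reciprocity for cup products -/
def CUP_st : Prop := AllP fun A _ J η n cc _ => ∀ (K : ℕ) (e : A → A → Qb) (a b : GQ → A)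
  (S : Finset ℕ) (r : ℕ → ℚ), Wp η (2 ^ K) e → Zc J η (2 * K) a → Zc J η (2 * K) b →
  InL η (Dec (nv 2 1)) a → InL η (Dec (nv 2 1)) b → InL η (Subgroup.zpowers cc) a →
  InL η (Subgroup.zpowers cc) b → (∀ l ∈ S, l.Prime ∧ l ≠ 2) →
  (∀ (l : ℕ) [Fact l.Prime], l ∈ S → Inv l 1 (cup η e a b) (r l)) →
  (∀ (l : ℕ) [Fact l.Prime], l ≠ 2 → l ∉ S →
    (InL η (Dec (nv l 1)) a ∧ InL η (Dec (nv l 1)) b) ∨
      (¬ l ∣ n ∧ ∀ γ, ∀ τ ∈ Ine l γ, a τ = 0 ∧ b τ = 0)) →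
  ∃ k : ℤ, ∑ l ∈ S, r l = k

/-- the unramified character does not come from a point -/
def UPB_st : Prop := AllP fun _ _ _ η n _ T => ∀ (l : ℕ) [Fact l.Prime] (u : GQ → ZMod 2), l ∣ n →
  Adt (Dec (nv l 1)) u → Lc (Dec (nv l 1)) u → (∀ τ ∈ Ine l 1, u τ = 0) →
  InL η (Dec (nv l 1)) (chT u T) → ∀ g ∈ Dec (nv l 1), u g = 0

/-- the condition at the last prime -/
def LAST_st : Prop := AllQ fun A _ J η n cc T K l₀ Q _ _ => ∀ [Fact l₀.Prime] (ξ : GQ → A)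
  (u : GQ → ZMod 2), Zc J η (2 * K) ξ → UnrO n Q ξ → InL η (Dec (nv 2 1)) ξ →
  InL η (Subgroup.zpowers cc) ξ →
  (∀ (l : ℕ) [Fact l.Prime], l ∣ n → l ≠ l₀ → InL η (Dec (nv l 1)) ξ) →
  Adt (Dec (nv l₀ 1)) u → Lc (Dec (nv l₀ 1)) u → (∀ τ ∈ Ine l₀ 1, u τ = 0) →
  InL η (Dec (nv l₀ 1)) (ξ + chT u T) → ∀ g ∈ Dec (nv l₀ 1), u g = 0

/-- correction by auxiliary primes -/
def COR_st : Prop := AllQ fun A _ J η n cc T K _ Q _ _ => ∀ (m : ℕ) (ξ : GQ → A), 1 ≤ m →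
  m ≤ 2 * K → Zc J η m ξ → UnrO n Q ξ → InL η (Dec (nv 2 1)) ξ → InL η (Subgroup.zpowers cc) ξ →
  (∀ (l : ℕ) [Fact l.Prime], l ∣ n → ∃ χ : GQ → ZMod 2, Adt (Dec (nv l 1)) χ ∧
    Lc (Dec (nv l 1)) χ ∧ InL η (Dec (nv l 1)) (ξ + chT χ T)) →
  ∃ Q' ⊆ Q, ξ + chT (kap (∏ q ∈ Q', (q : ℚ))) T ∈ Sq J η n cc Q m

/-- lifting of cocycles -/
def LIF0_st : Prop := AllQ fun A _ J η n cc _ K _ Q _ _ => ∀ (η' : Act A) (m : ℕ), Ga J n η' →
  (∀ g u, wo J (η g u) = η' g (wo J u)) → m + 1 ≤ 2 * K → ∀ ξ' ∈ Sq J η' n cc Q m,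
  ∃ ξ, Zc J η (m + 1) ξ ∧ ∀ g, wo J (ξ g) = ξ' g

/-- lifting of Selmer cocycles -/
def LIFT_st : Prop := AllQ fun A _ J η n cc _ K _ Q _ _ => ∀ (η' : Act A) (m : ℕ), Ga J n η' →
  (∀ g u, wo J (η g u) = η' g (wo J u)) → m + 1 ≤ 2 * K → ∀ ξ' ∈ Sq J η' n cc Q m,
  ∃ ξ ∈ Sq J η n cc Q (m + 1), ∀ g, wo J (ξ g) = ξ' g

/-- the image of the relaxed Selmer group is isotropic -/
def ISOT_st : Prop := AllQ fun A _ J η n cc _ K _ Q φ τ => ∀ e : A → A → Qb, Wp η (2 ^ K) e →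
  ∀ a ∈ Sq J η n cc Q (2 * K), ∀ b ∈ Sq J η n cc Q (2 * K),
  ∏ q : Q, e (a (φ q)) (b (τ q)) * e (b (φ q)) (a (τ q)) = 1

/-- the kernel of restriction on the first level -/
def KER1_st : Prop := AllQ fun _ _ J η n cc _ _ _ Q φ τ => ∀ ξ ∈ Sq J η n cc Q 1,
  res Q φ τ ξ = 0 → ∃ T' ∈ Wn J 2, ξ = dd η T'

/-- the lower bound on the first level -/
def LOW_st : Prop := AllQ fun _ _ J η n cc T _ _ Q φ τ => ∀ ℓ, Cov η cc T ℓ →
  2 ^ (Q.card + ℓ) ≤ 4 * Nat.card ((Sq J η n cc Q 1).map (res Q φ τ))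

/-- statements about all chains of modules -/
def AllC (S : ∀ (A : Type) [AddCommGroup A], (A ≃ₗ[ℤ] A) → (ℕ → Act A) → ℕ → GQ → (ℕ → ℕ) → Prop) :
    Prop :=
  ∀ (A : Type) [AddCommGroup A] (J : A ≃ₗ[ℤ] A) (η : ℕ → Act A) (n : ℕ) (cc : GQ) (T : A)
    (ℓ : ℕ → ℕ), Ps J η n cc T ℓ → S A J η n cc ℓ

/-- the kernel of restriction -/
def KER_st : Prop := AllC fun _ _ J η n cc _ => ∀ K ζ l₀ qq Q φ τ,
  (∀ j, Qs J (η j) n K ζ l₀ qq Q φ τ) → ∀ m, m ≤ 2 * K → ∀ j, ∀ ξ ∈ Sq J (η j) n cc Q m,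
  res Q φ τ ξ = 0 → ∃ T' ∈ Wn J (m + 1), ξ = dd (η j) T'

/-- existence of auxiliary primes -/
def QEX_st : Prop := AllC fun _ _ J η n _ _ => ∀ K, 2 ≤ K →
  ∃ ζ l₀ qq Q φ τ, ∀ j, Qs J (η j) n K ζ l₀ qq Q φ τ

/-- the sizes in a chain -/
def LIN1_st : Prop := ∀ (A : Type) [AddCommGroup A] (J : A ≃ₗ[ℤ] A) (ι : Type) [Fintype ι]
  (V : ℕ → ℕ → AddSubgroup (ι → A × A)) (ℓ : ℕ → ℕ) (M k : ℕ), Ch J V ℓ M → 2 * k ≤ M →
  Nat.card (V 0 (2 * k)) ≤ 2 ^ (2 * k * Fintype.card ι) →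
  Nat.card (V 0 (2 * k)) = 2 ^ (2 * k * Fintype.card ι) ∧
    ∃ s, Nat.card ↥(V 0 (2 * k) ⊓ Hm J ι k) = 2 ^ s ∧ Even (s + k * Fintype.card ι + k * ℓ 0)

/-- the parity in a chain -/
def LIN_st : Prop := ∀ (A : Type) [AddCommGroup A] (J : A ≃ₗ[ℤ] A) (ι : Type) [Fintype ι]
  (V : ℕ → ℕ → AddSubgroup (ι → A × A)) (ℓ : ℕ → ℕ) (k : ℕ) (e : A → A → Qb),
  Ch J V ℓ (2 * (k + 1)) → Pai (2 ^ (k + 1)) e →
  (∀ x ∈ V 0 (2 * (k + 1)), ∀ y ∈ V 0 (2 * (k + 1)),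
    ∏ q, e (x q).1 (y q).2 * e (y q).1 (x q).2 = 1) →
  IsSquare (Nat.card ↥(V 0 (2 * k) ⊓ B0 A ι) * 2 ^ (k * ℓ 0))

/-- the parity theorem -/
def PAR_st : Prop := AllC fun _ _ J η n cc ℓ => ∀ k, 1 ≤ k →
  IsSquare ((Cb (η 0)).relIndex (Sq J (η 0) n cc ∅ (2 * k)) * 2 ^ (k * ℓ 0))

/-- the bound for the Selmer groups -/
def BND_st : Prop := AllP fun _ _ J η n cc _ => Idx η → (St J η n).Finite →
  ∃ C : ℕ, ∀ k, (Cb η).relIndex (Sq J η n cc ∅ (2 * k)) ≠ 0 ∧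
    (Cb η).relIndex (Sq J η n cc ∅ (2 * k)) ≤ C * 2 ^ k

/-- small groups of square order have bounded exponent -/
def FIN_st : Prop := AllP fun _ _ J η n cc _ =>
  (∃ C : ℕ, ∀ k, (Cb η).relIndex (Sq J η n cc ∅ (2 * k)) ≠ 0 ∧
    (Cb η).relIndex (Sq J η n cc ∅ (2 * k)) ≤ C * 2 ^ k) →
  (∀ k, 1 ≤ k → IsSquare ((Cb η).relIndex (Sq J η n cc ∅ (2 * k)))) → Bex J η n cc

/-! ### Statements: theta groups -/

/-- statements about all function fields of divisible groups -/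
def AllT (S : ∀ (A : Type) [AddCommGroup A] (F : Type) [Field F] [Algebra Qb F], Act A →
    (A → F →+* F) → (A → F → ℤ) → Prop) : Prop :=
  ∀ (A : Type) [AddCommGroup A] (F : Type) [Field F] [Algebra Qb F] (η : Act A) (τ : A → F →+* F)
    (g : GQ → F →+* F) (o : A → F → ℤ), Th η τ g o → (∀ P : A, ∃ P' : A, 2 • P' = P) →
    S A F η τ o

/-- functions with prescribed divisor -/
def FNX_st : Prop := AllT fun A _ F _ _ _ _ o => ∀ (n : ℕ) (R : A), ∃ f : F, f ≠ 0 ∧ ∀ Q,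
  o Q f = (if Q = R then (n : ℤ) else 0) - (if Q = n • R then 1 else 0) -
    if Q = 0 then (n : ℤ) - 1 else 0

/-- the Weil pairing -/
def WEIL_st : Prop := AllT fun A _ _ _ _ η τ o => ∀ K : ℕ,
  (∀ T : A, ∃ T' : A, 2 • T' = 0 ∧ T' ≠ 0 ∧ T' ≠ T) → Finite (tor A (2 ^ K)) →
  ∃ e : A → A → Qb, Pai (2 ^ K) e ∧ IsW τ o (2 ^ K) e ∧
    ∀ g : GQ, ∀ x ∈ tor A (2 ^ K), ∀ y ∈ tor A (2 ^ K), g (e x y) = e (η g x) (η g y)

/-- the images of points are isotropic -/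
def ISO_st : Prop := AllT fun A _ _ _ _ η τ o => ∀ (n : ℕ) (e : A → A → Qb),
  (∀ u, Lc ⊤ fun g => η g u) → IsW τ o n e → ∀ (H : Subgroup GQ) (R R' : A),
  (∀ g ∈ H, dd η R g ∈ tor A n) → (∀ g ∈ H, dd η R' g ∈ tor A n) →
  Cob H (cup η e (dd η R) (dd η R'))

/-! ### Statements: the curves -/

section curves

open P

/-- statements about all twists -/
def AllE (S : Qb → Qb → (A1 ≃ₗ[ℤ] A1) → Act A1 → ℤ → Prop) : Prop :=
  ∀ (i δ : Qb) (J : A1 ≃ₗ[ℤ] A1) (η : Act A1) (D : ℤ), Jm i J → Eta δ η → D ≠ 0 → δ ^ 4 = D →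
    S i δ J η D

/-- the function field of a twist -/
def TH_st : Prop := AllE fun _ _ _ η _ => ∃ (F : Type) (_ : Field F) (_ : Algebra Qb F)
  (τ : A1 → F →+* F) (g : GQ → F →+* F) (o : A1 → F → ℤ), Th η τ g o

/-- the module of a twist -/
def GA_st : Prop := AllE fun _ _ J η D => ∀ a n : ℕ, D.natAbs = 2 ^ a * n → Odd n → Squarefree n →
  Ga J n η

/-- the isogeny between twists -/
def TW_st : Prop := AllE fun i δ J η _ => ∀ η' : Act A1, Eta ((1 - i) * δ) η' →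
  ∀ g u, wo J (η g u) = η' g (wo J u)

/-- quadratic characters that come from points -/
def PT_st : Prop := AllE fun _ _ J η D => ∀ T, T ∈ Wn J 1 ∧ T ≠ 0 →
  (∀ (H : Subgroup GQ) (x : ℚ), x ≠ 0 → (∀ g ∈ H, kap (x ^ 3 - 4 * D * x) g = 0) →
    InL η H (chT (kap x) T)) ∧ InL η ⊤ (chT (kap (-D)) T)

/-- the local conditions for the curve -/
def TAB0_st : Prop := AllE fun _ _ J η D => ∀ T cc, T ∈ Wn J 1 ∧ T ≠ 0 → (∀ g, Pre J (η g)) →
  CC cc → Rt D → Cov η cc T (lz D)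

/-- the local conditions for the isogenous curve -/
def TAB1_st : Prop := AllE fun _ _ J η D' => ∀ T cc (D : ℤ), T ∈ Wn J 1 ∧ T ≠ 0 →
  (∀ g, Pre J (η g)) → CC cc → D' = -4 * D → Rt D → Cov η cc T (4 - lz D)

/-- the chain of twists -/
def INST_st : Prop := AllE fun _ _ J η D => ∀ (a n : ℕ) (cc : GQ), D.natAbs = 2 ^ a * n → Odd n →
  Squarefree n → G8 n → CC cc → Rt D →
  ∃ (η' : ℕ → Act A1) (T : A1) (ℓ : ℕ → ℕ), η' 0 = η ∧ Even (ℓ 0) ∧ Ps J η' n cc T ℓ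

/-- the dyadic points -/
def IDX_st : Prop := IdxQ → AllE fun _ _ _ η _ => Idx η

/-- local and global automorphisms -/
def DL_st : Prop := ∀ (l : ℕ) [Fact l.Prime], ∀ g ∈ Dec (nv l 1),
  (∀ X : Finset Qb, ∃ (σ : AlgebraicClosure ℚ_[l] ≃ₐ[ℚ_[l]] AlgebraicClosure ℚ_[l]) (τ : GQ),
    (∀ x, emb ℚ_[l] (τ x) = σ (emb ℚ_[l] x)) ∧ ∀ x ∈ X, τ x = g x) ∧
  ∀ (c : Qb) (a : ℚ_[l]), emb ℚ_[l] c = algebraMap ℚ_[l] (AlgebraicClosure ℚ_[l]) a → g c = c

/-- approximation of local points by algebraic points -/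
def APX0_st : Prop := ∀ (D : ℤ) (l : ℕ) [Fact l.Prime] (k : ℕ) (T : Pts (EE D) ℚ_[l]), D ≠ 0 →
  ∃ (T₁ : Pts (EE D) Qb) (S : Pts (EE D) ℚ_[l]),
    act (EE D) (algebraMap ℚ_[l] (AlgebraicClosure ℚ_[l])) (T - 2 ^ k • S) =
      act (EE D) (emb ℚ_[l]) T₁

/-- locally trivial cocycles are coboundaries of algebraic points -/
def APX_st : Prop := ∀ (D : ℤ) (k : ℕ) (ξ : GQ → Pts (EE D) Qb) (l : ℕ) [Fact l.Prime], D ≠ 0 →
  Q.Sel D k ξ → ∃ R : Pts (EE D) Qb, ∀ g ∈ Dec (nv l 1), ξ g = galQ (EE D) g R - R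

/-- Selmer cocycles of the curve -/
def SEL_st : Prop := AllE fun _ δ J η D => ∀ (a n k : ℕ) (cc : GQ) (ξ : GQ → Pts (EE D) Qb),
  D.natAbs = 2 ^ a * n → cc * cc = 1 → Q.Sel D k ξ →
  (fun g => scf 1 δ⁻¹ (2 • ξ g)) ∈ Sq J η n cc ∅ (2 * k)

/-- bounded exponent gives finiteness -/
def RED_st : Prop := AllE fun _ _ J η D => ∀ (a n : ℕ) (cc : GQ), D.natAbs = 2 ^ a * n →
  cc * cc = 1 → Bex J η n cc → Cork (EZ D) → Fg D ℚ → Fin2 (EZ D)

end curves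

end Pool.Agent.MP_e23604_nt.R

end

section

/-!
The classes of odd parity: statements of the steps.
-/

set_option autoImplicit false

open Module Filter Topology Finset
open scoped Classical

namespace Pool.Agent.MP_e23604_nt.R

open B
open Q (Wn dig CmI Cm0 Pre A1 Eta Jm scf St Cork Fg)

/-- the classes with root number minus one -/
def Ro (D : ℤ) : Prop := D % 4 ≠ 0 ∧ ¬ Rt D

/-- the dimension of the local conditions in these classes -/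
def lo (D : ℤ) : ℕ := if 0 < D ∨ D % 8 = 1 then 3 else 1

/-- semilinear actions -/
def Sl {A : Type} [AddCommGroup A] (J : A ≃ₗ[ℤ] A) (η : Act A) : Prop :=
  ∀ g, (∀ u, η g (J u) = J (η g u)) ∨ ∀ u, η g (J u) = -J (η g u)

/-- the complex conjugation of the real place -/
def RC (cc : GQ) : Prop :=
  CC cc ∧ ∀ (σ : AlgebraicClosure ℝ ≃ₐ[ℝ] AlgebraicClosure ℝ) (τ : GQ),
    (∀ x, emb ℝ (τ x) = σ (emb ℝ x)) → τ ∈ Subgroup.zpowers cc

/-- the local conditions for the curve -/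
def TAB2_st : Prop := AllE fun _ _ J η D => ∀ T cc, T ∈ Wn J 1 ∧ T ≠ 0 → (∀ g, Pre J (η g)) →
  CC cc → Ro D → Cov η cc T (lo D)

/-- the local conditions for the isogenous curve -/
def TAB3_st : Prop := AllE fun _ _ J η D' => ∀ T cc (D : ℤ), T ∈ Wn J 1 ∧ T ≠ 0 →
  (∀ g, Pre J (η g)) → CC cc → D' = -4 * D → Ro D → Cov η cc T (4 - lo D)

/-- existence of the complex conjugation -/
def RCE_st : Prop := ∃ cc, RC cc

/-- Frobenius minus one is onto -/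
def SURJ_st : Prop := AllP fun _ _ J η _ _ _ => Sl J η → ∀ (l : ℕ) [Fact l.Prime] (φ : GQ),
  l ≠ 2 → Frob l 1 φ → ∀ k, ∀ x ∈ Wn J k, ∃ m, ∃ R ∈ Wn J m, η φ R - R = x

/-- unramified cocycles come from points -/
def UNR_st : Prop := AllP fun A _ J η n _ _ => Sl J η → ∀ (m : ℕ) (ξ : GQ → A) (l : ℕ)
  [Fact l.Prime], Zc J η m ξ → l ≠ 2 → ¬ l ∣ n → (∀ τ ∈ Ine l 1, ξ τ = 0) →
  InL η (Dec (nv l 1)) ξ

/-- finiteness bounds the Selmer groups -/
def SHA_st : Prop := AllE fun _ _ J η D => ∀ (n : ℕ) (cc : GQ), RC cc →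
  (∀ m, ∀ ξ ∈ Sq J η n cc ∅ m, ∀ (l : ℕ) [Fact l.Prime], InL η (Dec (nv l 1)) ξ) → Fin2 (EZ D) →
  ∃ C : ℕ, ∀ k, (Cb η).relIndex (Sq J η n cc ∅ (2 * k)) ≠ 0 ∧
    (Cb η).relIndex (Sq J η n cc ∅ (2 * k)) ≤ C

/-- the counting function -/
def CNT_st : Prop := ∀ D : ℤ, Fg D ℚ → Cork (EZ D) →
  (Fin2 (EZ D) → ∃ C : ℕ, ∀ k : ℕ, 1 ≤ (shaTors (EZ D) (2 ^ k)).encard *
      2 ^ (k * finrank ℤ (EZ D).toAffine.Point) ∧ (shaTors (EZ D) (2 ^ k)).encard *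
      2 ^ (k * finrank ℤ (EZ D).toAffine.Point) ≤ C) ∧
  (¬ Fin2 (EZ D) → ∀ k : ℕ, 2 ^ k ≤ (shaTors (EZ D) (2 ^ k)).encard *
      2 ^ (k * finrank ℤ (EZ D).toAffine.Point))

end Pool.Agent.MP_e23604_nt.R

end

section

set_option autoImplicit false

open Module Filter Topology Finset
open scoped Classical

namespace Pool.Agent.MP_e23604_nt.R

open B
open Q (Wn dig CmI Cm0 Pre A1 Eta Jm scf St Cork Fg IdxQ basQ levQ)

theorem unit_FINR (c : Qb) : {l : ℕ | ∃ _ : Fact l.Prime, c ≠ 0 ∧ nv l 1 c ≠ 1}.Finite := by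
  rcases eq_or_ne c 0 with rfl | hc
  · simp
  obtain ⟨n, h0, h⟩ := unit_away hc
  refine (Set.finite_le_nat n).subset ?_
  rintro l ⟨hl, -, h1⟩
  refine Nat.le_of_dvd (Nat.pos_of_ne_zero h0) (by_contra fun h2 => h1 (h _ (nv_na l 1) ?_))
  rw [nv_apply, map_natCast, map_natCast, ← map_natCast (algebraMap ℚ_[l] (PadicAlgCl l)),
    norm_algebraMap']
  exact Padic.norm_natCast_eq_one_iff.2 ((Nat.Prime.coprime_iff_not_dvd hl.out).2 h2)

theorem fix_FINR (x : Qb) : {l : ℕ | ∃ _ : Fact l.Prime, ¬ Fix (Ine l 1) x}.Finite := by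
  refine ((unit_FINR x).union ((Lc.apply ⊤ x).finite.biUnion fun y _ =>
    unit_FINR (y - x))).subset ?_
  rintro l ⟨hl, h⟩
  by_contra h1
  simp only [Set.mem_union, Set.mem_iUnion, Set.mem_ofPred_eq, not_or, not_exists, not_and,
    not_not] at h1
  refine h fun τ hτ => by_contra fun h2 => ?_
  have h3 : x ≠ 0 := fun e => h2 (by rw [e, map_zero])
  exact (hτ x (h1.1 hl h3).le).ne (h1.2 _ ⟨τ, trivial, rfl⟩ hl (sub_ne_zero.2 h2))

theorem FINR_pf : FINR_st := by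
  intro N hN
  obtain ⟨L, h1, h2⟩ := (krullTopology_mem_nhds_one_iff ℚ Qb N).1 (hN.2.mem_nhds N.one_mem)
  let b := finBasis ℚ L
  refine (Set.finite_iUnion fun i => fix_FINR (b i)).subset ?_
  rintro l ⟨hl, h⟩
  by_contra h3
  simp only [Set.mem_iUnion, Set.mem_ofPred_eq, not_exists, not_not] at h3
  refine h fun τ hτ => h2 fun z => ?_
  have h4 : τ.toLinearMap ∘ₗ L.val.toLinearMap = L.val.toLinearMap :=
    b.ext fun i => h3 i hl τ hτ
  exact LinearMap.congr_fun h4 z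

end Pool.Agent.MP_e23604_nt.R

end

section

namespace Pool.Agent.MP_e23604_nt.Q

open Finset Filter NumberField
open MP_f68ac8_nt.Zq (Mx sg)
open MP_f68ac8_nt.Zk (Cp Yw rr NS brL)
open MP_f68ac8_nt.Nd (Lr Rcp GenQ Trm)
open scoped BigOperators Topology

open scoped Classical

lemma mul_XEta (W : WeierstrassCurve ℚ) (σ τ : GQ) (R : Pts W Qb) :
    galQ W (σ * τ) R = galQ W σ (galQ W τ R) := by
  rcases R with _ | ⟨x, y, h⟩ <;> rfl

lemma one_XEta (W : WeierstrassCurve ℚ) (R : Pts W Qb) : galQ W 1 R = R := by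
  rcases R with _ | ⟨x, y, h⟩ <;> rfl

theorem etaQ (hScQ : ScQ) : EtaQ := by
  intro δ D hD hδ
  have h0 : δ ≠ 0 := by
    rintro rfl
    exact hD (by exact_mod_cast (hδ.symm.trans (zero_pow (by norm_num))))
  have hu : ∀ g : GQ, (g δ / δ) ^ 4 * ((1 : ℚ) : Qb) = ((1 : ℚ) : Qb) := fun g => by
    rw [div_pow, ← map_pow, hδ, map_intCast, div_self (by exact_mod_cast hD), one_mul]
  have hS := fun g : GQ => hScQ 1 1 Qb (g δ / δ) one_ne_zero one_ne_zero (hu g)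
  let f : GQ → Module.End ℤ A1 := fun g =>
    (AddMonoidHom.mk' (fun R => scf 1 (g δ / δ) (galQ (P.EE 1) g R)) fun R R' => by
      rw [map_add, (hS g).1]).toIntLinearMap
  have hf : ∀ g R, f g R = scf 1 (g δ / δ) (galQ (P.EE 1) g R) := fun _ _ => rfl
  have f1 : f 1 = 1 := LinearMap.ext fun R => by
    rw [hf, one_XEta, AlgEquiv.one_apply, div_self h0]
    exact ((hS 1).2.2.2.1 R).1
  have fm : ∀ g h, f (g * h) = f g * f h := fun g h => LinearMap.ext fun R => by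
    rw [Module.End.mul_apply, hf, hf, hf, mul_XEta]
    have h1 := (hS h).2.2.2.2 Qb (g : Qb →+* Qb) (galQ (P.EE 1) h R)
    have h2 : ((g : Qb →+* Qb) (h δ / δ)) ^ 4 * ((1 : ℚ) : Qb) = ((1 : ℚ) : Qb) := by
      have := congrArg (g : Qb →+* Qb) (hu h)
      rwa [map_mul, map_pow, map_ratCast] at this
    have h3 := (hScQ 1 1 Qb _ one_ne_zero one_ne_zero h2).2.2.1 1 (g δ / δ) one_ne_zero (hu g)
      (galQ (P.EE 1) g (galQ (P.EE 1) h R))
    have h4 : g δ ≠ 0 := (map_ne_zero g).2 h0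
    refine Eq.trans ?_ ((congrArg (scf 1 (g δ / δ)) h1).trans h3).symm
    congr 1
    rw [map_div₀]
    change g (h δ) / δ = g δ / δ * (g (h δ) / g δ)
    field_simp
  let F : GQ →* Module.End ℤ A1 := ⟨⟨f, f1⟩, fm⟩
  exact ⟨(LinearMap.GeneralLinearGroup.generalLinearEquiv ℤ A1).toMonoidHom.comp F.toHomUnits,
    fun g R => hf g R⟩

end Pool.Agent.MP_e23604_nt.Q

end

section

namespace Pool.Agent.MP_e23604_nt.Q

open Finset Filter NumberField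
open MP_f68ac8_nt.Zq (Mx sg)
open MP_f68ac8_nt.Zk (Cp Yw rr NS brL)
open MP_f68ac8_nt.Nd (Lr Rcp GenQ Trm)
open scoped BigOperators Topology

section
open Polynomial B

theorem fix_XLift {τ : GQ} (hτ : Dc τ) {c : Qb} {a : ℚ_[2]}
    (h : emb ℚ_[2] c = algebraMap ℚ_[2] (PadicAlgCl 2) a) : τ c = c := by
  have key : ∀ ε : ℝ, 0 < ε → nv 2 1 (τ c - c) < ε := by
    intro ε hε
    obtain ⟨r, hr⟩ := Padic.rat_dense 2 a hε
    have h1 : nv 2 1 (c - r) < ε := by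
      rw [nv_apply, AlgEquiv.one_apply, map_sub, h, map_ratCast,
        ← map_ratCast (algebraMap ℚ_[2] (PadicAlgCl 2)), ← map_sub, norm_algebraMap']
      exact hr
    have h2 : nv 2 1 (τ c - r) < ε := by
      have := hτ (c - r)
      rw [map_sub, map_ratCast] at this
      rwa [this]
    have e : τ c - c = (τ c - r) + -(c - r) := by ring
    rw [e]
    refine (nv_na 2 1 _ _).trans_lt (max_lt h2 ?_)
    rwa [AbsoluteValue.map_neg]
  have h0 : nv 2 1 (τ c - c) = 0 := by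
    by_contra hc
    exact lt_irrefl _ (key _ (lt_of_le_of_ne ((nv 2 1).nonneg _) (Ne.symm hc)))
  exact sub_eq_zero.1 ((nv 2 1).eq_zero.1 h0)

theorem conj_XLift {τ : GQ} (hτ : Dc τ) (x : Qb) :
    ∃ σ : PadicAlgCl 2 ≃ₐ[ℚ_[2]] PadicAlgCl 2, σ (emb ℚ_[2] x) = emb ℚ_[2] (τ x) := by
  have halg : IsAlgebraic ℚ_[2] (emb ℚ_[2] x) := Algebra.IsAlgebraic.isAlgebraic _
  have hx : IsIntegral ℚ x := Algebra.IsIntegral.isIntegral x
  refine minpoly.exists_algEquiv_of_root' halg ?_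
  set m := minpoly ℚ_[2] (emb ℚ_[2] x) with hm
  have hmon : m.Monic := minpoly.monic halg.isIntegral
  have hdvd : m ∣ (minpoly ℚ x).map (algebraMap ℚ ℚ_[2]) := by
    refine minpoly.dvd _ _ ?_
    rw [aeval_map_algebraMap]
    have := aeval_algHom_apply (emb ℚ_[2]).toRatAlgHom x (minpoly ℚ x)
    rw [minpoly.aeval, map_zero] at this
    exact this
  have hl : m.map (algebraMap ℚ_[2] (PadicAlgCl 2)) ∈ lifts (emb ℚ_[2]) := by
    refine (IsAlgClosed.splits _).mem_lift_of_roots_mem_range (hmon.map _) _ fun a ha => ?_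
    refine BLift_root 2 (minpoly.ne_zero hx) ?_
    have h1 : aeval a m = 0 := by
      rw [aeval_def, ← eval_map]
      exact (mem_roots'.1 ha).2
    rw [← aeval_map_algebraMap ℚ_[2]]
    exact aeval_eq_zero_of_dvd_aeval_eq_zero hdvd h1
  obtain ⟨m0, h0⟩ := (mem_lifts _).1 hl
  have hfix : m0.map (τ : Qb →+* Qb) = m0 := by
    ext i
    rw [coeff_map]
    refine fix_XLift hτ (a := m.coeff i) ?_
    rw [← coeff_map, h0, coeff_map]
  have ev : ∀ z : Qb, aeval (emb ℚ_[2] z) m = emb ℚ_[2] (m0.eval z) := fun z => by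
    rw [aeval_def, ← eval_map, ← h0, eval_map, eval₂_hom]
  have z0 : m0.eval x = 0 := by
    apply (emb ℚ_[2]).injective
    rw [← ev, map_zero]
    exact minpoly.aeval _ _
  have z1 : m0.eval (τ x) = 0 := by
    have := eval₂_hom (p := m0) (τ : Qb →+* Qb) x
    rw [← eval_map, hfix, z0, map_zero] at this
    exact this
  rw [ev, z1, map_zero]

end

theorem liftQ : LiftQ := by
  refine ⟨fun g hg X => ?_, fun g hg c a h => fix_XLift hg h, fun σ => exists_res ℚ_[2] σ⟩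
  obtain ⟨x0, hx0⟩ := B.BLift_prim X
  obtain ⟨σ, hσ⟩ := conj_XLift hg x0
  obtain ⟨τ, hτ⟩ := exists_res ℚ_[2] σ
  have e0 : τ x0 = g x0 := (emb ℚ_[2]).injective ((hτ x0).trans hσ)
  exact ⟨τ, ⟨σ, hτ⟩, hx0 τ g e0⟩

end Pool.Agent.MP_e23604_nt.Q

end

section

set_option autoImplicit false

open Module Filter Topology Finset
open scoped Classical

namespace Pool.Agent.MP_e23604_nt.R

open B
open Q (Wn dig CmI Cm0 Pre A1 Eta Jm scf St Cork Fg IdxQ basQ levQ)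

section
open Polynomial

variable {l : ℕ} [Fact l.Prime]

theorem fix_EDL {τ : GQ} (hτ : τ ∈ Dec (nv l 1)) {c : Qb} {a : ℚ_[l]}
    (h : emb ℚ_[l] c = algebraMap ℚ_[l] (PadicAlgCl l) a) : τ c = c := by
  have key : ∀ ε : ℝ, 0 < ε → nv l 1 (τ c - c) < ε := by
    intro ε hε
    obtain ⟨r, hr⟩ := Padic.rat_dense l a hε
    have h1 : nv l 1 (c - r) < ε := by
      rw [nv_apply, AlgEquiv.one_apply, map_sub, h, map_ratCast,
        ← map_ratCast (algebraMap ℚ_[l] (PadicAlgCl l)), ← map_sub, norm_algebraMap']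
      exact hr
    have h2 : nv l 1 (τ c - r) < ε := by
      have := hτ (c - r)
      rw [map_sub, map_ratCast] at this
      rwa [this]
    have e : τ c - c = (τ c - r) + -(c - r) := by ring
    rw [e]
    refine (nv_na l 1 _ _).trans_lt (max_lt h2 ?_)
    rwa [AbsoluteValue.map_neg]
  have h0 : nv l 1 (τ c - c) = 0 := by
    by_contra hc
    exact lt_irrefl _ (key _ (lt_of_le_of_ne ((nv l 1).nonneg _) (Ne.symm hc)))
  exact sub_eq_zero.1 ((nv l 1).eq_zero.1 h0)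

theorem conj_EDL {τ : GQ} (hτ : τ ∈ Dec (nv l 1)) (x : Qb) :
    ∃ σ : PadicAlgCl l ≃ₐ[ℚ_[l]] PadicAlgCl l, σ (emb ℚ_[l] x) = emb ℚ_[l] (τ x) := by
  have halg : IsAlgebraic ℚ_[l] (emb ℚ_[l] x) := Algebra.IsAlgebraic.isAlgebraic _
  have hx : IsIntegral ℚ x := Algebra.IsIntegral.isIntegral x
  refine minpoly.exists_algEquiv_of_root' halg ?_
  set m := minpoly ℚ_[l] (emb ℚ_[l] x) with hm
  have hmon : m.Monic := minpoly.monic halg.isIntegral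
  have hdvd : m ∣ (minpoly ℚ x).map (algebraMap ℚ ℚ_[l]) := by
    refine minpoly.dvd _ _ ?_
    rw [aeval_map_algebraMap]
    have := aeval_algHom_apply (emb ℚ_[l]).toRatAlgHom x (minpoly ℚ x)
    rw [minpoly.aeval, map_zero] at this
    exact this
  have hl : m.map (algebraMap ℚ_[l] (PadicAlgCl l)) ∈ lifts (emb ℚ_[l]) := by
    refine (IsAlgClosed.splits _).mem_lift_of_roots_mem_range (hmon.map _) _ fun a ha => ?_
    refine BLift_root l (minpoly.ne_zero hx) ?_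
    have h1 : aeval a m = 0 := by
      rw [aeval_def, ← eval_map]
      exact (mem_roots'.1 ha).2
    rw [← aeval_map_algebraMap ℚ_[l]]
    exact aeval_eq_zero_of_dvd_aeval_eq_zero hdvd h1
  obtain ⟨m0, h0⟩ := (mem_lifts _).1 hl
  have hfix : m0.map (τ : Qb →+* Qb) = m0 := by
    ext i
    rw [coeff_map]
    refine fix_EDL hτ (a := m.coeff i) ?_
    rw [← coeff_map, h0, coeff_map]
  have ev : ∀ z : Qb, aeval (emb ℚ_[l] z) m = emb ℚ_[l] (m0.eval z) := fun z => by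
    rw [aeval_def, ← eval_map, ← h0, eval_map, eval₂_hom]
  have z0 : m0.eval x = 0 := by
    apply (emb ℚ_[l]).injective
    rw [← ev, map_zero]
    exact minpoly.aeval _ _
  have z1 : m0.eval (τ x) = 0 := by
    have := eval₂_hom (p := m0) (τ : Qb →+* Qb) x
    rw [← eval_map, hfix, z0, map_zero] at this
    exact this
  rw [ev, z1, map_zero]

end

theorem DL_pf : DL_st := by
  intro l _ g hg
  refine ⟨fun X => ?_, fun c a h => fix_EDL hg h⟩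
  obtain ⟨x0, hx0⟩ := B.BLift_prim X
  obtain ⟨σ, hσ⟩ := conj_EDL hg x0
  obtain ⟨τ, hτ⟩ := exists_res ℚ_[l] σ
  have e0 : τ x0 = g x0 := (emb ℚ_[l]).injective ((hτ x0).trans hσ)
  exact ⟨σ, τ, hτ, hx0 τ g e0⟩

end Pool.Agent.MP_e23604_nt.R

end

section

set_option autoImplicit false

open Module Filter Topology Finset
open scoped Classical

namespace Pool.Agent.MP_e23604_nt.R

open B
open Q (Wn dig CmI Cm0 Pre A1 Eta Jm scf St Cork Fg IdxQ basQ levQ)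

section
variable {A : Type} [AddCommGroup A] {J : A ≃ₗ[ℤ] A} {η : Act A}

theorem keep_LEV (h : Cm0 J) {a : A ≃ₗ[ℤ] A} (ha : Pre J a) {m : ℕ} {u : A} (hu : u ∈ Wn J m) :
    a u ∈ Wn J m := by
  have := add_mem (W_step h ha (W_mono h m.le_succ hu)) hu
  rwa [sub_add_cancel] at this

theorem pow_LEV (h : Cm0 J) (hη : ∀ g, Pre J (η g)) (g : GQ) (s : ℕ) :
    ∀ j, ∀ u ∈ Wn J (j + s), η (g ^ 2 ^ s) u - u ∈ Wn J j := by
  induction s with
  | zero => exact fun j u hu => W_step h (hη _) (W_mono h j.le_succ hu)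
  | succ s ih =>
    intro j u hu
    have h1 := ih (j + 1) u (W_mono h (by omega) hu)
    have h2 := W_step h (hη (g ^ 2 ^ s)) h1
    have h3 := (W_pow h 1 (n := j)).2 (W_mono h (by omega) h1)
    have h4 := add_mem h2 h3
    rw [pow_succ, pow_mul, sq, act_mul]
    rw [map_sub, pow_one, two_smul] at h4
    convert h4 using 1
    abel

theorem inv_LEV {m : ℕ} {ξ : GQ → A} (hξ : Zc J η m ξ) (g : GQ) : ξ g + η g (ξ g⁻¹) = 0 := by
  rw [← hξ.coc, mul_inv_cancel, hξ.one]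

theorem lc_LEV {α ι : Type} {X : Set ι} (hX : X.Finite) {f : ι → GQ → α}
    (h : ∀ i ∈ X, Lc ⊤ (f i)) : {g | ∀ i ∈ X, f i g = f i 1} ∈ 𝓝 (1 : GQ) :=
  (Filter.eventually_all_finite hX).2 fun i hi => (lc_iff.2 (h i hi)).eventually_eq 1

end

theorem LEV_pf : LEV_st := by
  intro A _ J η n m X hJ hη hX hZ
  have h := hJ.toCm0
  let N : Subgroup GQ :=
    { carrier := {g | Kr J η m X g}
      one_mem' := ⟨fun u _ => act_one η u, fun ξ hξ => (hZ ξ hξ).one⟩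
      mul_mem' := fun {a b} ha hb => ⟨fun u hu => by rw [act_mul, hb.1 u hu, ha.1 u hu],
        fun ξ hξ => by rw [(hZ ξ hξ).coc, ha.2 ξ hξ, hb.2 ξ hξ, map_zero, add_zero]⟩
      inv_mem' := fun {a} ha => ⟨fun u hu => by
        conv_lhs => rw [← ha.1 u hu, ← act_mul, inv_mul_cancel, act_one], fun ξ hξ => by
        have := inv_LEV (hZ ξ hξ) a
        rwa [ha.2 ξ hξ, zero_add, ha.1 _ ((hZ ξ hξ).lev _)] at this⟩ }
  refine ⟨N, ⟨⟨⟨fun g hg x => ⟨fun u hu => ?_, fun ξ hξ => ?_⟩⟩, ?_⟩, fun g => ⟨m + m, ?_⟩⟩,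
    fun g => Iff.rfl⟩
  · rw [act_mul, act_mul, hg.1 _ (keep_LEV h (hη.pre _) hu), ← act_mul, mul_inv_cancel, act_one]
  · rw [(hZ ξ hξ).coc, (hZ ξ hξ).coc, hg.2 ξ hξ, map_zero, add_zero, act_mul,
      hg.1 _ ((hZ ξ hξ).lev _), inv_LEV (hZ ξ hξ)]
  · have hf : (Wn J m : Set A).Finite :=
      Nat.finite_of_card_ne_zero (by rw [SetLike.coe_sort_coe, W_card hJ]; positivity)
    refine N.isOpen_of_mem_nhds (g := 1) ?_
    filter_upwards [lc_LEV hf (f := fun u g => η g u) fun u _ => hη.opn u,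
      lc_LEV hX (f := fun ξ g => ξ g) fun ξ hξ => (hZ ξ hξ).lc] with g h1 h2
    exact ⟨fun u hu => (h1 u hu).trans (act_one η u), fun ξ hξ => (h2 ξ hξ).trans (hZ ξ hξ).one⟩
  · have h1 : ∀ u ∈ Wn J m, η (g ^ 2 ^ m) u = u := fun u hu =>
      sub_eq_zero.1 ((W_zero h).1 (pow_LEV h hη.pre g m 0 u (by rwa [zero_add])))
    rw [pow_add, pow_mul]
    generalize g ^ 2 ^ m = a at h1
    have h2 : ∀ j : ℕ, ∀ u ∈ Wn J m, η (a ^ j) u = u := fun j u hu => by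
      induction j with
      | zero => rw [pow_zero, act_one]
      | succ j ih => rw [pow_succ, act_mul, h1 u hu, ih]
    refine ⟨h2 _, fun ξ hξ => ?_⟩
    have h3 : ∀ j : ℕ, ξ (a ^ j) = j • ξ a := fun j => by
      induction j with
      | zero => rw [pow_zero, (hZ ξ hξ).one, zero_smul]
      | succ j ih => rw [pow_succ, (hZ ξ hξ).coc, ih, h2 j _ ((hZ ξ hξ).lev a), succ_nsmul]
    rw [h3]
    exact (W_tor h m).1 (W_mono h (by omega) ((hZ ξ hξ).lev a))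

end Pool.Agent.MP_e23604_nt.R

end

section

set_option autoImplicit false

open Module Filter Topology Finset
open scoped Classical

namespace Pool.Agent.MP_e23604_nt.R

open B
open Q (Wn dig CmI Cm0 Pre A1 Eta Jm scf St Cork Fg IdxQ basQ levQ)

section aux

variable {A : Type} [AddCommGroup A] {J : A ≃ₗ[ℤ] A} {n : ℕ} {e : A → A → Qb} {M : AddSubgroup A}

theorem ne_EPAI (h : Bil M n e) (hn : n ≠ 0) {x y : A} (hx : x ∈ M) (hy : y ∈ M) : e x y ≠ 0 :=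
  fun h0 => by
    have := h.pow x hx y hy
    rw [h0, zero_pow hn] at this
    exact zero_ne_one this

theorem left_EPAI (h : Bil M n e) (hn : n ≠ 0) {x y : A} (hx : x ∈ M) (hy : y ∈ M) (j : ℕ) :
    e (j • x) y = e x y ^ j := by
  induction j with
  | zero =>
    have := h.addl 0 (zero_mem _) 0 (zero_mem _) y hy
    rw [add_zero] at this
    rw [zero_smul, pow_zero]
    exact (mul_eq_left₀ (ne_EPAI h hn (zero_mem _) hy)).1 this.symm
  | succ j ih => rw [succ_nsmul, h.addl _ (nsmul_mem hx j) _ hx _ hy, ih, pow_succ]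

theorem right_EPAI (h : Bil M n e) (hn : n ≠ 0) {x y : A} (hx : x ∈ M) (hy : y ∈ M) (j : ℕ) :
    e x (j • y) = e x y ^ j :=
  left_EPAI (e := fun a b => e b a) ⟨fun a ha a' ha' b hb => h.addr b hb a ha a' ha',
    fun a ha b hb b' hb' => h.addl b hb b' hb' a ha, fun a ha b hb => h.pow b hb a ha⟩ hn hy hx j

theorem alt_EPAI (h : Pai n e) {x y : A} (hx : x ∈ tor A n) (hy : y ∈ tor A n) :
    e x y * e y x = 1 := by
  have := h.alt _ (add_mem hx hy)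
  rwa [h.bil.addl x hx y hy _ (add_mem hx hy), h.bil.addr x hx x hx y hy, h.bil.addr y hy x hx y hy,
    h.alt x hx, h.alt y hy, one_mul, mul_one] at this

theorem sq_EPAI (hJ : Cm0 J) (h : Bil M n e) (hn : n ≠ 0) {T y : A} (hT : T ∈ Wn J 1) (h1 : T ∈ M)
    (hy : y ∈ M) : e T y ^ 2 = 1 := by
  rw [← left_EPAI h hn h1 hy, two_smul, T_two hJ hT, ← zero_smul ℕ y, left_EPAI h hn hy hy,
    pow_zero]

theorem core_EPAI (hJ : CmI J) {k : ℕ} (h : Pai (2 ^ (k + 1)) e) {T y : A} (hT : T ∈ Wn J 1)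
    (hy : y ∈ Wn J (2 * k + 1)) : e T y = 1 := by
  have hc := hJ.toCm0
  have hn : 2 ^ (k + 1) ≠ 0 := by positivity
  have h1 : T ∈ tor A (2 ^ (k + 1)) := (W_tor hc _).1 (W_mono hc (by omega) hT)
  have h2 : y ∈ tor A (2 ^ (k + 1)) := (W_tor hc _).1 (W_mono hc (by omega) hy)
  by_cases h0 : T = 0
  · rw [h0, ← zero_smul ℕ y, left_EPAI h.bil hn h2 h2, pow_zero]
  rcases W_one hc ⟨hT, h0⟩ ((W_pow hc k).2 (by rwa [add_comm])) with h3 | h3
  · obtain ⟨z, rfl⟩ := two_surj hJ 1 y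
    have h4 : z ∈ tor A (2 ^ (k + 1)) := by rw [mem_tor, pow_add, mul_smul, h3]
    rw [right_EPAI h.bil hn h1 h4, pow_one, sq_EPAI hc h.bil hn hT h1 h4]
  · rw [← h3, left_EPAI h.bil hn h2 h2, h.alt y h2, one_pow]

end aux

theorem PAI_pf : PAI_st := by
  intro A _ J K e hJ h hK
  obtain ⟨k, rfl⟩ : ∃ k, K = k + 1 := ⟨K - 1, by omega⟩
  have hc := hJ.toCm0
  have hn : 2 ^ (k + 1) ≠ 0 := by positivity
  have ht : ∀ {m : ℕ} {u : A}, m ≤ 2 * (k + 1) → u ∈ Wn J m → u ∈ tor A (2 ^ (k + 1)) :=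
    fun hm hu => (W_tor hc _).1 (W_mono hc hm hu)
  refine ⟨fun T hT y hy => ?_, fun a b hab x hx y hy => ?_,
    fun x hx y hy => alt_EPAI h (ht le_rfl hx) (ht le_rfl hy)⟩
  · rw [show 2 * (k + 1) - 1 = 2 * k + 1 by omega]
    have h1 := ht (by omega) hT.1
    by_cases h0 : y ∈ Wn J (2 * k + 1)
    · rw [core_EPAI hJ h hT.1 h0, dig, if_pos h0, ZMod.val_zero, pow_zero]
    · rw [dig, if_neg h0, ZMod.val_one, pow_one]
      refine (sq_eq_one_iff.1 (sq_EPAI hc h.bil hn hT.1 h1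
        (ht le_rfl hy))).resolve_left fun h2 => hT.2 (h.nd T h1 fun z hz => ?_)
      have h3 := alt_EPAI h h1 hz
      have h4 : e T z = 1 := by
        by_cases h5 : z ∈ Wn J (2 * k + 1)
        · exact core_EPAI hJ h hT.1 h5
        · have h6 := (basQ A J hc).2.2.2.2.2.1 (2 * k + 1) z ((W_tor hc (k + 1)).2 hz) y hy
          rw [dig, dig, dig, if_neg h5, if_neg h0] at h6
          have h7 : z + y ∈ Wn J (2 * k + 1) := by
            by_contra h8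
            rw [if_neg h8] at h6
            exact absurd h6 (by decide)
          have h8 := core_EPAI hJ h hT.1 h7
          rwa [h.bil.addr T h1 z hz y (ht le_rfl hy), h2, mul_one] at h8
      rwa [h4, one_mul] at h3
  · obtain ⟨z, rfl⟩ := two_surj hJ (b / 2) x
    have h1 := (W_pow hc _).1 hx
    have h2 := ht (by omega) h1
    have h3 := ht (by omega) hy
    have h4 : 2 ^ (b / 2) • y ∈ Wn J (b % 2) := (W_pow hc _).2 (by rwa [Nat.mod_add_div])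
    rw [left_EPAI h.bil hn h2 h3, ← right_EPAI h.bil hn h2 h3]
    rcases Nat.mod_two_eq_zero_or_one b with h5 | h5 <;> rw [h5] at h4
    · rw [(W_zero hc).1 h4, ← zero_smul ℕ y, right_EPAI h.bil hn h2 h3, pow_zero]
    · have h6 := alt_EPAI h h2 (nsmul_mem h3 (2 ^ (b / 2)))
      rwa [core_EPAI hJ h h4 (W_mono hc (by omega) h1), mul_one] at h6

end Pool.Agent.MP_e23604_nt.R

end

section

set_option autoImplicit false

open Module Filter Topology Finset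
open scoped Classical

namespace Pool.Agent.MP_e23604_nt.R

open B
open Q (Wn dig CmI Cm0 Pre A1 Eta Jm scf St Cork Fg IdxQ basQ levQ)

section aux

variable {A : Type} [AddCommGroup A] {J : A ≃ₗ[ℤ] A}

theorem gen_FSURJ (h : Cm0 J) {b : A ≃ₗ[ℤ] A} (hb : ∀ u, b (J u) = J (b u)) (t : ℕ) :
    ∀ x ∈ Wn J (t + 1), x ∉ Wn J t → b x = x → ∀ u ∈ Wn J (t + 1), b u = u := by
  have key : ∀ t, ∀ x ∈ Wn J (t + 1), x ∉ Wn J t → b x = x → (∀ u ∈ Wn J t, b u = u) →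
      ∀ u ∈ Wn J (t + 1), b u = u := by
    intro t x h1 h2 h3 h4 u hu
    by_cases h5 : u ∈ Wn J t
    · exact h4 u h5
    have h6 := (basQ A J h).2.2.2.2.2.1 t u hu x h1
    rw [dig, dig, dig, if_neg h5, if_neg h2] at h6
    have h7 : u + x ∈ Wn J t := by
      by_contra h8
      rw [if_neg h8] at h6
      exact absurd h6 (by decide)
    have h8 := h4 _ h7
    rwa [map_add, h3, add_left_inj] at h8
  induction t with
  | zero => exact fun x h1 h2 h3 => key 0 x h1 h2 h3 fun u hu => by rw [(W_zero h).1 hu, map_zero]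
  | succ t ih =>
    intro x h1 h2 h3
    refine key _ x h1 h2 h3 (ih (wo J x) ((W_om h).2 h1) (fun e => h2 ((W_om h).1 e)) ?_)
    rw [om_apply, map_sub, hb, h3]

theorem right_FSURJ {n : ℕ} {e : A → A → Qb} (h : Pai n e) {x y : A} (hx : x ∈ tor A n)
    (hy : y ∈ tor A n) (j : ℕ) : e x (j • y) * e x x = e x y ^ j * e x x := by
  induction j with
  | zero => rw [zero_smul, pow_zero, ← h.bil.addr x hx 0 (zero_mem _) x hx, zero_add, one_mul]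
  | succ j ih =>
    rw [succ_nsmul, h.bil.addr _ hx _ (nsmul_mem hy j) _ hy, pow_succ, mul_right_comm, ih]
    ring

theorem onto_FSURJ (h : CmI J) {a : A ≃ₗ[ℤ] A} (ha : Pre J a) {c : ℕ}
    (hc : ∀ m, ∀ x ∈ Wn J m, a x = x → x ∈ Wn J c) (k : ℕ) {x : A} (hx : x ∈ Wn J k) :
    ∃ R ∈ Wn J (k + 2 * c), a R - R = x := by
  have h0 := h.toCm0
  obtain ⟨y, rfl⟩ := two_surj h c x
  have hy := (W_pow h0 c).1 hx
  generalize k + 2 * c = m at hy ⊢
  have : Finite (Wn J m) := Nat.finite_of_card_ne_zero (by rw [W_card h]; positivity)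
  let f : Wn J m →+ Wn J m := AddMonoidHom.mk'
    (fun u => ⟨a u - u, sub_mem ((ha m u).2 u.2) u.2⟩) fun u v => Subtype.ext (by
      simp only [Submodule.coe_add, map_add]
      abel)
  let g : f.ker →+ Wn J c := AddMonoidHom.mk'
    (fun u => ⟨u.1.1, hc m _ u.1.2 (sub_eq_zero.1 (congrArg Subtype.val u.2))⟩) fun _ _ => rfl
  have h1 := AddSubgroup.card_dvd_of_injective g fun u v e =>
    Subtype.ext (Subtype.ext (congrArg (fun z : Wn J c => (z : A)) e))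
  rw [W_card h, ← AddSubgroup.index_range] at h1
  obtain ⟨j, hj⟩ := h1
  obtain ⟨R, hR⟩ := nsmul_mem (f.range.nsmul_index_mem ⟨y, hy⟩) j
  refine ⟨R, R.2, (congrArg Subtype.val hR).trans ?_⟩
  rw [hj, mul_comm, mul_smul]
  rfl

end aux

theorem SURJ_pf (hFRO : FRO_st) : SURJ_st := by
  intro A _ J η n cc T hP hS l hl φ h2 hφ k x hx
  have h0 := hP.cm.toCm0
  have hl1 : l ^ 2 - 1 ≠ 0 := Nat.sub_ne_zero_of_lt (Nat.one_lt_pow two_ne_zero hl.out.one_lt)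
  obtain ⟨j, d, hd, hj⟩ := Nat.exists_eq_two_pow_mul_odd hl1
  refine ⟨_, onto_FSURJ hP.cm (hP.ga.pre φ) (c := 2 * (j + 1)) (fun m => ?_) k hx⟩
  have hb : ∀ u, η (φ * φ) (J u) = J (η (φ * φ) u) := fun u => by
    rcases hS φ with h | h <;> simp only [act_mul, h, map_neg, neg_neg]
  induction m with
  | zero => exact fun x hx _ => W_mono h0 (by omega) hx
  | succ m ih =>
    intro x hx h3
    by_cases h4 : x ∈ Wn J m
    · exact ih x h4 h3
    by_cases h5 : m + 1 ≤ 2 * (j + 1)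
    · exact W_mono h0 h5 hx
    exfalso
    have h6 := gen_FSURJ h0 hb m x hx h4 (by rw [act_mul, h3, h3])
    obtain ⟨e, he⟩ := hP.wp (j + 1)
    obtain ⟨v, h7, h8⟩ := W_ex hP.cm (2 * j + 1)
    have hv : v ∈ tor A (2 ^ (j + 1)) := (W_tor h0 _).1 h7
    have hf : ∀ u ∈ tor A (2 ^ (j + 1)), η (φ * φ) u = u := fun u hu =>
      h6 u (W_mono h0 (by omega) ((W_tor h0 _).2 hu))
    have h9 : (l ^ 2 - 1) • v = 0 := by
      refine he.nd _ (nsmul_mem hv _) fun u hu => ?_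
      have e1 := right_FSURJ he.toPai hu hv (l ^ 2 - 1)
      have e2 := he.eqv (φ * φ) u hu v hv
      have e3 := he.bil.pow u hu v hv
      have e4 := ((hFRO l 1).2 φ hφ).2.2.1 _ _ (fun h => h2 ((Nat.prime_dvd_prime_iff_eq hl.out
        Nat.prime_two).1 (hl.out.dvd_of_dvd_pow h))) e3
      have e5 : e u v ≠ 0 := fun h => by
        rw [h, zero_pow (by positivity)] at e3
        exact zero_ne_one e3
      rw [hf u hu, hf v hv, AlgEquiv.mul_apply, e4, map_pow, e4, ← pow_mul, ← pow_two,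
        ← Nat.sub_add_cancel (Nat.one_le_pow 2 l hl.out.pos), pow_succ, mul_eq_right₀ e5] at e2
      rwa [he.alt u hu, mul_one, mul_one, e2] at e1
    obtain ⟨i, rfl⟩ := hd
    have h10 : 2 ^ j • v = 0 := by
      rw [hj, mul_add, mul_one, add_smul, ← mul_assoc, ← pow_succ, mul_comm, mul_smul,
        mem_tor.1 hv, smul_zero, zero_add] at h9
      exact h9
    exact h8 (W_mono h0 (by omega) ((W_tor h0 j).2 h10))

end Pool.Agent.MP_e23604_nt.R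

end

section

set_option autoImplicit false

open Module Filter Topology Finset
open scoped Classical

namespace Pool.Agent.MP_e23604_nt.R

open B
open Q (Wn dig CmI Cm0 Pre A1 Eta Jm scf St Cork Fg IdxQ basQ levQ)

theorem FNX_pf : FNX_st := by
  intro A _ F _ _ η τ g o h hd n R
  have o1 : ∀ Q, o Q 1 = 0 := fun Q => by simpa using h.oc Q 1
  induction n with
  | zero =>
    refine ⟨1, one_ne_zero, fun Q => ?_⟩
    rw [o1, zero_smul]
    split_ifs <;> simp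
  | succ n ih =>
    obtain ⟨f, f0, hf⟩ := ih
    obtain ⟨V, hV⟩ := hd (n • R + R)
    rw [two_smul] at hV
    obtain ⟨a, a0, ha⟩ := h.two (n • R) R V hV.symm
    obtain ⟨b, b0, hb⟩ := h.two (n • R + R) 0 V (by rw [add_zero, hV])
    refine ⟨f * a * b⁻¹, mul_ne_zero (mul_ne_zero f0 a0) (inv_ne_zero b0), fun Q => ?_⟩
    have e := h.omul Q b b⁻¹ b0 (inv_ne_zero b0)
    rw [mul_inv_cancel₀ b0, o1, hb] at e
    rw [h.omul Q _ _ (mul_ne_zero f0 a0) (inv_ne_zero b0), h.omul Q _ _ f0 a0, hf, ha, succ_nsmul]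
    push_cast
    split_ifs at e ⊢ <;> omega

end Pool.Agent.MP_e23604_nt.R

end

section

namespace Pool.Agent.MP_e23604_nt.Q

open Finset Filter NumberField
open MP_f68ac8_nt.Zq (Mx sg)
open MP_f68ac8_nt.Zk (Cp Yw rr NS brL)
open MP_f68ac8_nt.Nd (Lr Rcp GenQ Trm)
open scoped BigOperators Topology

open P

section
open scoped Classical

/-- the rank of the group of points -/
noncomputable def rk_XSel (D : ℚ) (F : Type) [Field F] [CharZero F] : ℕ :=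
  Module.finrank ℤ (Pts (EE D) F)

lemma ind_XSel (hI : IndQ) (D : ℚ) (F : Type) [Field F] [CharZero F] (h : Fg D F) (k : ℕ) :
    ∃ f : (Fin (rk_XSel D F) → Fin (2 ^ k)) → Pts (EE D) F,
      ∀ s s', Md D F k (f s) (f s') → s = s' := by
  obtain ⟨f, hf⟩ := hI (Pts (EE D) F) h k
  exact ⟨f, fun s s' ⟨T, e⟩ => hf s s' T e⟩

end

lemma rk_eq_XSel (D : ℚ) : Module.finrank ℤ (EE D).toAffine.Point = rk_XSel D ℚ :=
  finrank_congr (W := EE D) (W' := (EE D).baseChange ℚ)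
    (by ext <;> simp [WeierstrassCurve.baseChange]) _ _

lemma ell_XSel {D : ℚ} (hD : D ≠ 0) : (EE D).IsElliptic := by
  refine ⟨Ne.isUnit ?_⟩
  have e : (EE D).Δ = -64 * D ^ 3 := by
    simp only [EE, WeierstrassCurve.Δ, WeierstrassCurve.b₂, WeierstrassCurve.b₄,
      WeierstrassCurve.b₆, WeierstrassCurve.b₈]
    ring
  rw [e]
  exact mul_ne_zero (by norm_num) (pow_ne_zero _ hD)

open scoped Classical in
lemma main_XSel (hKumQ : KumQ) (hIndQ : IndQ) {D : ℚ} (hD : D ≠ 0) (hF : Fg D ℚ) (k : ℕ) :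
    ∃ ξ : {c | c ∈ Sha (EE D) ∧ 2 ^ k • c = 0} × (Fin (rk_XSel D ℚ) → Fin (2 ^ k)) →
        GQ → Pts (EE D) Qb,
      (∀ s, Sel D k (ξ s)) ∧ ∀ s s' (R : Pts (EE D) Qb), 2 ^ k • R = 0 →
        (∀ g, ξ s g - ξ s' g = galQ (EE D) g R - R) → s = s' := by
  have := ell_XSel hD
  obtain ⟨κ, k1, k2⟩ := hKumQ D hD k
  obtain ⟨f, hf⟩ := ind_XSel hIndQ D ℚ hF k
  choose rep r1 r2 r3 using fun c : {c | c ∈ Sha (EE D) ∧ 2 ^ k • c = 0} =>
    B.sha_rep (EE D) (pow_pos two_pos k) c.2.1 c.2.2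
  refine ⟨fun x => (rep x.1).1 + fun g => galQ (EE D) g (κ (f x.2)) - κ (f x.2), fun x => ?_, ?_⟩
  · obtain ⟨a1, a2, a3⟩ := k1 (f x.2)
    refine ⟨add_mem (rep x.1).2 a1, fun g => ?_, fun q _ => (r3 x.1 q).add (a3 q)⟩
    beta_reduce
    rw [Pi.add_apply, smul_add, r2, a2, add_zero]
  · rintro ⟨c, s⟩ ⟨c', s'⟩ R hR h
    simp only [Pi.add_apply] at h
    have e : c = c' := by
      apply Subtype.ext
      rw [← r1 c, ← r1 c']
      refine QuotientAddGroup.eq.2 ⟨κ (f s) - κ (f s') - R, ?_⟩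
      rintro g _ rfl
      have h1 := h g
      change -(rep c).1 g + (rep c').1 g = _
      rw [map_sub, map_sub]
      have h2 : galQ (EE D) g R = (rep c).1 g + (galQ (EE D) g (κ (f s)) - κ (f s)) -
          ((rep c').1 g + (galQ (EE D) g (κ (f s')) - κ (f s'))) + R := by
        rw [h1, sub_add_cancel]
      rw [h2]
      abel
    subst e
    have e2 : s = s' := hf s s' (k2 _ _ R hR fun g => by rw [← h g]; abel)
    rw [e2]

theorem selQ (hCntQ : CntQ) (hKumQ : KumQ) (hIndQ : IndQ) (hFgQ : FgQ) : SelQ := by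
  intro D hD hS
  obtain ⟨C, hC⟩ := hCntQ D hD hS
  refine ⟨C, fun k => ?_⟩
  obtain ⟨ξ, x1, x2⟩ := main_XSel hKumQ hIndQ (Int.cast_ne_zero.2 hD) (hFgQ D hD hS) k
  have h := hC k _ ξ x1 x2
  rw [ENat.card_prod, ENat.card_eq_coe_fintype_card (α := Fin _ → Fin _), Fintype.card_fun,
    Fintype.card_fin, Fintype.card_fin, ← pow_mul, ← rk_eq_XSel] at h
  push_cast at h
  exact h

end Pool.Agent.MP_e23604_nt.Q

end

section

set_option autoImplicit false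

open Module Filter Topology Finset
open scoped Classical

namespace Pool.Agent.MP_e23604_nt.R

open B
open Q (Wn dig CmI Cm0 Pre A1 Eta Jm scf St Cork Fg IdxQ basQ levQ)

theorem cc_FRCE (ι : Qb →+* ℂ) : ∃ c : GQ, ∀ x, ι (c x) = starRingEnd ℂ (ι x) := by
  let _ : Algebra Qb ℂ := ι.toAlgebra
  have : IsScalarTower ℚ Qb ℂ :=
    IsScalarTower.of_algebraMap_eq fun x => (ι.toRatAlgHom.commutes x).symm
  have : Normal ℚ Qb := IsAlgClosure.normal ℚ Qb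
  exact ⟨(Complex.conjAe.restrictScalars ℚ).restrictNormal Qb,
    (Complex.conjAe.restrictScalars ℚ).restrictNormal_commutes Qb⟩

theorem RCE_pf : RCE_st := by
  have : IsAlgClosure ℝ ℂ := ⟨inferInstance, inferInstance⟩
  let e : AlgebraicClosure ℝ ≃ₐ[ℝ] ℂ := IsAlgClosure.equiv ℝ _ _
  let ι : Qb →+* ℂ := (e : AlgebraicClosure ℝ →+* ℂ).comp (emb ℝ)
  obtain ⟨c, hc⟩ := cc_FRCE ι
  refine ⟨c, ⟨ι, hc⟩, fun σ τ h => ?_⟩
  have key : ∀ x, ι (τ x) = ((e.symm.trans σ).trans e : ℂ →ₐ[ℝ] ℂ) (ι x) := by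
    intro x
    show e (emb ℝ (τ x)) = e (σ (e.symm (e (emb ℝ x))))
    rw [h, e.symm_apply_apply]
  rcases Complex.real_algHom_eq_id_or_conj ((e.symm.trans σ).trans e : ℂ →ₐ[ℝ] ℂ) with h1 | h1
  · have : τ = 1 := AlgEquiv.ext fun x => ι.injective (by rw [key, h1]; rfl)
    rw [this]
    exact one_mem _
  · have : τ = c := AlgEquiv.ext fun x => ι.injective (by rw [key, h1, hc]; rfl)
    rw [this]
    exact Subgroup.mem_zpowers _

end Pool.Agent.MP_e23604_nt.R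

end

section

set_option autoImplicit false

open Module Filter Topology Finset
open scoped Classical

namespace Pool.Agent.MP_e23604_nt.R

open B
open Q (Wn dig CmI Cm0 Pre A1 Eta Jm scf St Cork Fg IdxQ basQ levQ)

lemma grow_FCNT {G : Type*} [AddCommGroup G] (S : AddSubgroup G)
    (h : {c | c ∈ S ∧ ∃ k : ℕ, 2 ^ k • c = 0}.Infinite) (k : ℕ) :
    2 ^ k ≤ {c | c ∈ S ∧ 2 ^ k • c = 0}.encard := by
  induction k with
  | zero => exact Set.one_le_encard_iff_nonempty.2 ⟨0, S.zero_mem, smul_zero _⟩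
  | succ k ih =>
    have hs : ∀ c : G, 2 ^ k • c = 0 → 2 ^ (k + 1) • c = 0 := fun c hc => by
      rw [pow_succ', mul_smul, hc, smul_zero]
    by_cases hc : ∃ c ∈ S, 2 ^ (k + 1) • c = 0 ∧ 2 ^ k • c ≠ 0
    · obtain ⟨c, c1, c2, c3⟩ := hc
      have hd : Disjoint {x | x ∈ S ∧ 2 ^ k • x = 0} ((c + ·) '' {x | x ∈ S ∧ 2 ^ k • x = 0}) := by
        rw [Set.disjoint_left]
        rintro _ h1 ⟨y, h2, rfl⟩
        have := h1.2
        rw [smul_add, h2.2, add_zero] at this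
        exact c3 this
      refine le_trans ?_ (Set.encard_le_encard (Set.union_subset
        (s := {x | x ∈ S ∧ 2 ^ k • x = 0}) (t := (c + ·) '' {x | x ∈ S ∧ 2 ^ k • x = 0})
        (fun x hx => ⟨hx.1, hs x hx.2⟩) ?_))
      · rw [Set.encard_union_eq hd, (add_right_injective c).encard_image, pow_succ, mul_two]
        exact add_le_add ih ih
      · rintro _ ⟨y, h2, rfl⟩
        exact ⟨S.add_mem c1 h2.1, by rw [smul_add, c2, hs y h2.2, add_zero]⟩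
    · push Not at hc
      have key : ∀ j : ℕ, ∀ c ∈ S, 2 ^ j • c = 0 → 2 ^ (k + 1) • c = 0 := by
        intro j
        induction j with
        | zero => exact fun c _ e => by rw [pow_zero, one_smul] at e; rw [e, smul_zero]
        | succ j ihj =>
          intro c c1 e
          rw [pow_succ, mul_smul] at e
          rw [pow_succ, mul_smul]
          exact hc _ (S.nsmul_mem c1 2) (ihj _ (S.nsmul_mem c1 2) e)
      have hi : {c | c ∈ S ∧ 2 ^ (k + 1) • c = 0}.Infinite := by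
        refine h.mono ?_
        rintro c ⟨c1, j, e⟩
        exact ⟨c1, key j c c1 e⟩
      rw [hi.encard_eq]
      exact le_top

lemma rk_FCNT {W W' : WeierstrassCurve ℚ} (e : W = W') (d d' : DecidableEq ℚ)
    (h : letI := d'; AddGroup.FG W'.toAffine.Point)
    (h0 : (letI := d; finrank ℤ W.toAffine.Point) = 0) : Finite W.toAffine.Point := by
  subst e
  cases Subsingleton.elim d d'
  have : Module.Finite ℤ W.toAffine.Point := Module.Finite.iff_addGroup_fg.2 h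
  exact Module.finite_of_fg_torsion _ (Module.finrank_eq_zero_iff_isTorsion.1 h0)

theorem CNT_pf : CNT_st := by
  intro D hF _
  have h1 : ∀ k : ℕ, 1 ≤ (shaTors (EZ D) (2 ^ k)).encard := fun k =>
    Set.one_le_encard_iff_nonempty.2 ⟨0, zero_mem _, smul_zero _⟩
  refine ⟨fun h => ?_, fun h k => ?_⟩
  · have := h.1
    have h0 : finrank ℤ (EZ D).toAffine.Point = 0 :=
      Module.finrank_eq_zero_iff_isTorsion.2 fun x => ⟨⟨Nat.card (EZ D).toAffine.Point,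
        mem_nonZeroDivisors_of_ne_zero (Nat.cast_ne_zero.2 Nat.card_pos.ne')⟩,
        (natCast_zsmul x _).trans card_nsmul_eq_zero'⟩
    refine ⟨h.2.toFinset.card, fun k => ?_⟩
    rw [h0, mul_zero, pow_zero, mul_one, ← h.2.encard_eq_coe_toFinset_card]
    exact ⟨h1 k, Set.encard_le_encard fun c hc => ⟨hc.1, k, hc.2⟩⟩
  · by_cases h0 : finrank ℤ (EZ D).toAffine.Point = 0
    · rw [h0, mul_zero, pow_zero, mul_one]
      refine grow_FCNT _ (fun h2 => h ⟨rk_FCNT (W' := (P.EE D).baseChange ℚ) ?_ _ _ hF h0, h2⟩) k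
      ext <;> simp [WeierstrassCurve.baseChange, EZ, P.EE]
    · refine le_trans ?_ (mul_le_mul_left (h1 k) _)
      rw [one_mul]
      exact pow_le_pow_right₀ one_le_two (Nat.le_mul_of_pos_right k (Nat.pos_of_ne_zero h0))

end Pool.Agent.MP_e23604_nt.R

end
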