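import Pool.Agent.MP_e23604_nt.BBase
import Pool.Agent.MP_e23604_nt.BTors
import Pool.Agent.MP_e23604_nt.BLocA

set_option linter.all false

section

/-!
Statements of the steps of the linear bound for the p-torsion of Sha.
-/

open WeierstrassCurve NumberField IsDedekindDomain Matrix Module
open scoped Classical

namespace Pool.Agent.MP_e23604_nt.L

open B

section defs

variable {K M n : Type} [Field K] [AddCommGroup M] [Fintype n] [DecidableEq n]

/-- a nondegenerate alternating pairing on a group of order `p ^ 2` killed by `p` -/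
structure Pair (p : ℕ) (e : M → M → K) : Prop where
  hp : p.Prime
  h2 : p ≠ 2
  card : Nat.card M = p ^ 2
  tor : ∀ T : M, p • T = 0
  addl : ∀ S S' T, e (S + S') T = e S T * e S' T
  addr : ∀ S T T', e S (T + T') = e S T * e S T'
  alt : ∀ T, e T T = 1
  nd : ∀ T, (∀ S, e S T = 1) → T = 0

/-- a Galois module with an equivariant pairing -/
structure Dat (p : ℕ) (ρ : GQ → M →+ M) (e : M → M → Qb) : Prop extends Pair p e where
  mul : ∀ σ τ T, ρ (σ * τ) T = ρ σ (ρ τ T)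
  one : ∀ T, ρ 1 T = T
  lc : ∀ T, IsLocallyConstant fun σ => ρ σ T
  eqv : ∀ (σ : GQ) S T, σ (e S T) = e (ρ σ S) (ρ σ T)

/-- cocycles that are coboundaries on every inertia group -/
structure Adm (ρ : GQ → M →+ M) (ξ : GQ → M) : Prop where
  coc : ∀ σ τ, ξ (σ * τ) = ξ σ + ρ σ (ξ τ)
  lc : IsLocallyConstant ξ
  unr : ∀ (q : ℕ) [Fact q.Prime] (γ : GQ), ∃ R : M, ∀ τ : GQ, Inr (nv q γ) τ → ξ τ = ρ τ R - R

/-- a projective representation with multiplier `e` -/
structure Heis (e : M → M → K) (B : M → Matrix n n K) : Prop where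
  zero : B 0 = 1
  mul : ∀ S T, B S * B T = e S T • B (S + T)

/-- functions that are equivariant for the action twisted by `ξ` -/
def Eqv (ρ : GQ → M →+ M) (e : M → M → Qb) (ξ : GQ → M) (a : M → Qb) : Prop :=
  ∀ (σ : GQ) T, σ (a T) = e (ξ σ) (ρ σ T) * a (ρ σ T)

/-- a projective representation all of whose entries are equivariant -/
def Spl (ρ : GQ → M →+ M) (e : M → M → Qb) (ξ : GQ → M) (B : M → Matrix n n Qb) : Prop :=
  Heis e B ∧ ∀ i j, Eqv ρ e ξ fun T => B T i j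

/-- `g` intertwines the conjugate of `U` by `σ` with the twist of `U` -/
def Itw (ρ : GQ → M →+ M) (e : M → M → Qb) (ξ : GQ → M) (U : M → Matrix n n Qb) (σ : GQ)
    (g : Matrix n n Qb) : Prop :=
  ∀ T, g * (U T).map σ = e (ξ σ) (ρ σ T) • (U (ρ σ T) * g)

/-- `m` lies in the different of a Galois number field that splits `ρ` -/
def Dif (ρ : GQ → M →+ M) (m : ℕ) : Prop :=
  ∃ F : IntermediateField ℚ Qb, FiniteDimensional ℚ F ∧ IsGalois ℚ F ∧
    (∀ σ : GQ, (∀ x ∈ F, σ x = x) → ∀ T, ρ σ T = T) ∧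
    ∀ x : F, (∀ w : 𝓞 F, ∃ k : ℤ, Algebra.trace ℚ F ((w : F) * x) = k) → IsIntegral ℤ ((m : F) * x)

end defs

/-- traces, inversion, uniqueness and Schur's lemma for projective representations -/
def HEI_st : Prop :=
  ∀ (K M n : Type) [Field K] [CharZero K] [AddCommGroup M] [Fintype M] [Fintype n] [DecidableEq n]
    (p : ℕ) (e : M → M → K), Pair p e → Fintype.card n = p →
    (∀ B : M → Matrix n n K, Heis e B → (∀ T, T ≠ 0 → (B T).trace = 0) ∧
      (∀ X : Matrix n n K, ∑ T, (B T * X).trace • B (-T) = (p : K) • X) ∧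
      ∀ g : Matrix n n K, (∀ T, g * B T = B T * g) → ∃ c : K, g = c • (1 : Matrix n n K)) ∧
    ∀ B B' : M → Matrix n n K, Heis e B → Heis e B' →
      ∃ g : Matrix n n K, IsUnit g.det ∧ ∀ T, g * B T = B' T * g

/-- the Hasse norm theorem for unramified cyclic extensions of odd prime degree -/
def HNT_st : Prop :=
  ∀ (p : ℕ) (K E : Type) [Field K] [NumberField K] [IsTotallyComplex K] [Field E] [NumberField E]
    [Algebra K E] [IsGalois K E] (s : E ≃ₐ[K] E), p.Prime → p ≠ 2 → finrank K E = p →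
    (∀ g, g ∈ Subgroup.zpowers s) →
    (∀ (w : HeightOneSpectrum (𝓞 E)) (g : E ≃ₐ[K] E), (∀ x : 𝓞 E, g • x - x ∈ w.asIdeal) → g = 1) →
    ∀ β : K, β ≠ 0 → (∀ w : HeightOneSpectrum (𝓞 E), (∀ x ∈ w.asIdeal, s • x ∈ w.asIdeal) →
      ∃ x : E, w.valuation E (algebraMap K E β) = w.valuation E x ^ p) →
    ∃ y : E, Algebra.norm K y = β

/-- a cyclic algebra that is unramified everywhere splits -/
def CYC_st : Prop :=
  ∀ (p : ℕ) [Fact p.Prime] (H : Subgroup GQ) (z : Qb) (k : GQ → ZMod p) (ψ : GQ → ZMod p → Qb),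
    p ≠ 2 → IsOpen (H : Set GQ) → IsPrimitiveRoot z p → (∀ σ ∈ H, σ z = z) →
    IsLocallyConstant k → IsLocallyConstant ψ → (∀ σ ∈ H, ∀ τ ∈ H, k (σ * τ) = k σ + k τ) →
    (∀ σ ∈ H, ∀ τ ∈ H, ∀ i, ψ (σ * τ) i = ψ σ i * ψ τ (i + k σ)) → (∀ σ ∈ H, ∀ i, ψ σ i ^ p = 1) →
    (∀ σ ∈ H, ∏ i, ψ σ i = 1) →
    (∀ (q : ℕ) [Fact q.Prime] (γ : GQ), ∃ i₀, ∀ τ ∈ H, Inr (nv q γ) τ → k τ = 0 ∧ ψ τ i₀ = 1) →
    ∃ a : ZMod p → Qb, ∏ i, a i = 1 ∧ ∀ σ ∈ H, ∀ i, σ (a (i + k σ)) = ψ σ i * a i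

/-- splitting over a subgroup of index prime to `p` -/
def LINE_st : Prop :=
  ∀ (p : ℕ) [Fact p.Prime] (M : Type) [AddCommGroup M] (ρ : GQ → M →+ M) (e : M → M → Qb)
    (ξ : GQ → M), Dat p ρ e → Adm ρ ξ →
    ∃ (H : Subgroup GQ) (U : M → Matrix (ZMod p) (ZMod p) Qb)
      (s : GQ → Matrix (ZMod p) (ZMod p) Qb), IsOpen (H : Set GQ) ∧ ¬ p ∣ H.index ∧ Heis e U ∧
      IsLocallyConstant s ∧ s 1 = 1 ∧ (∀ σ ∈ H, ∀ τ ∈ H, s (σ * τ) = s σ * (s τ).map σ) ∧
      ∀ σ ∈ H, Itw ρ e ξ U σ (s σ)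

/-- descent of the splitting by the transfer -/
def GAS_st : Prop :=
  ∀ (p : ℕ) (M n : Type) [AddCommGroup M] [Fintype n] [DecidableEq n] (ρ : GQ → M →+ M)
    (e : M → M → Qb) (ξ : GQ → M) (H : Subgroup GQ) (U : M → Matrix n n Qb)
    (s : GQ → Matrix n n Qb), Dat p ρ e → Fintype.card n = p →
    (∀ σ τ, ξ (σ * τ) = ξ σ + ρ σ (ξ τ)) → IsOpen (H : Set GQ) → ¬ p ∣ H.index → Heis e U →
    IsLocallyConstant s → s 1 = 1 → (∀ σ ∈ H, ∀ τ ∈ H, s (σ * τ) = s σ * (s τ).map σ) →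
    (∀ σ ∈ H, Itw ρ e ξ U σ (s σ)) →
    ∃ g : GQ → Matrix n n Qb, IsLocallyConstant g ∧ g 1 = 1 ∧
      (∀ σ τ, g (σ * τ) = g σ * (g τ).map σ) ∧ ∀ σ, Itw ρ e ξ U σ (g σ)

/-- Hilbert 90 for the general linear group -/
def SPE_st : Prop :=
  ∀ (n : Type) [Fintype n] [DecidableEq n] (g : GQ → Matrix n n Qb), IsLocallyConstant g →
    g 1 = 1 → (∀ σ τ, g (σ * τ) = g σ * (g τ).map σ) →
    ∃ h : Matrix n n Qb, IsUnit h.det ∧ ∀ σ : GQ, g σ * h.map σ = h

/-- the obstruction algebra splits -/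
def SPL_st : Prop :=
  ∀ (p : ℕ) [Fact p.Prime] (M : Type) [AddCommGroup M] (ρ : GQ → M →+ M) (e : M → M → Qb)
    (ξ : GQ → M), Dat p ρ e → Adm ρ ξ → ∃ B : M → Matrix (ZMod p) (ZMod p) Qb, Spl ρ e ξ B

/-- denominators in the dual of the order of integral equivariant functions -/
def DUAL_st : Prop :=
  ∀ (p m : ℕ) (M : Type) [AddCommGroup M] [Fintype M] (ρ : GQ → M →+ M) (e : M → M → Qb)
    (ξ : GQ → M) (a : M → Qb), Dat p ρ e → Adm ρ ξ → Dif ρ m → Eqv ρ e ξ a →
    (∀ b, Eqv ρ e ξ b → (∀ T, IsIntegral ℤ (b T)) → ∃ k : ℤ, ∑ T, a T * b (-T) = k) →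
    ∀ T, IsIntegral ℤ ((m : Qb) * a T)

/-- short vectors in a lattice and in its dual -/
def MP_st : Prop :=
  ∀ (F : Type) [NormedAddCommGroup F] [InnerProductSpace ℝ F] (Λ : Submodule ℤ F) (d : ℕ),
    Λ.FG → finrank ℝ (Submodule.span ℝ (Λ : Set F)) = d → finrank ℤ Λ ≤ d → d ≠ 0 →
    ∃ x ∈ Λ, x ≠ 0 ∧ ∃ y ∈ Submodule.span ℝ (Λ : Set F), y ≠ 0 ∧
      (∀ z ∈ Λ, ∃ k : ℤ, inner ℝ y z = k) ∧ ‖x‖ * ‖y‖ ≤ d

/-- transference: a lattice whose dual has no short vector is spanned by short vectors -/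
def LLS_st : Prop :=
  ∀ (F : Type) [NormedAddCommGroup F] [InnerProductSpace ℝ F] (Λ : Submodule ℤ F) (d : ℕ) (μ : ℝ),
    Λ.FG → finrank ℝ (Submodule.span ℝ (Λ : Set F)) = d → finrank ℤ Λ ≤ d → 0 < μ →
    (∀ y ∈ Submodule.span ℝ (Λ : Set F), y ≠ 0 → (∀ z ∈ Λ, ∃ k : ℤ, inner ℝ y z = k) → μ ≤ ‖y‖) →
    (Λ : Set F) ⊆ Submodule.span ℝ {x | x ∈ Λ ∧ ‖x‖ ≤ 3 * d ^ 2 / μ}

/-- the two lattice lemmas for lattices in a rational vector space -/
def BRI_st : Prop :=
  ∀ (V κ ι : Type) [AddCommGroup V] [Module ℚ V] [Fintype κ] [Fintype ι] (b : Basis κ ℚ V)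
    (c : V →ₗ[ℚ] (ι → ℂ)) (Λ : Submodule ℤ V), (LinearIndependent ℝ fun k => c (b k)) → Λ.FG →
    Submodule.span ℚ (Λ : Set V) = ⊤ →
    (Nonempty κ → ∃ x ∈ Λ, x ≠ 0 ∧ ∃ φ : V →ₗ[ℚ] ℚ, φ ≠ 0 ∧ (∀ z ∈ Λ, ∃ k : ℤ, φ z = k) ∧
      ∃ l : ι → ℂ, (∀ z, (φ z : ℝ) = (∑ i, l i * c z i).re) ∧
        (∑ i, ‖l i‖ ^ 2) * ∑ i, ‖c x i‖ ^ 2 ≤ (Fintype.card κ : ℝ) ^ 2) ∧
    ∀ μ : ℝ, 0 < μ → (∀ (φ : V →ₗ[ℚ] ℚ) (l : ι → ℂ), φ ≠ 0 → (∀ z ∈ Λ, ∃ k : ℤ, φ z = k) →
        (∀ z, (φ z : ℝ) = (∑ i, l i * c z i).re) → μ ^ 2 ≤ ∑ i, ‖l i‖ ^ 2) →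
      Submodule.span ℚ {x | x ∈ Λ ∧ ∀ i, ‖c x i‖ ≤ 3 * (Fintype.card κ : ℝ) ^ 2 / μ} = ⊤

/-- small integral equivariant functions span -/
def SMALL_st : Prop :=
  ∀ (p m : ℕ) (M n : Type) [AddCommGroup M] [Fintype M] [Fintype n] [DecidableEq n]
    (ρ : GQ → M →+ M) (e : M → M → Qb) (ξ : GQ → M) (B : M → Matrix n n Qb) (ι : Qb →+* ℂ),
    Dat p ρ e → Adm ρ ξ → Dif ρ m → m ≠ 0 → Fintype.card n = p → Spl ρ e ξ B →
    ∃ b : Basis M Qb (M → Qb), ∀ i, Eqv ρ e ξ (b i) ∧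
      ∀ T, IsIntegral ℤ (b i T) ∧ ‖ι (b i T)‖ ≤ 3 * p ^ 5 * m

/-- a small element of rank one all of whose coefficients are nonzero -/
def RK_st : Prop :=
  ∀ (p m : ℕ) (M n : Type) [AddCommGroup M] [Fintype M] [Fintype n] [DecidableEq n]
    (ρ : GQ → M →+ M) (e : M → M → Qb) (ξ : GQ → M) (B : M → Matrix n n Qb) (ι : Qb →+* ℂ),
    Dat p ρ e → Adm ρ ξ → Dif ρ m → m ≠ 0 → Fintype.card n = p → Spl ρ e ξ B →
    ∃ v φ : n → Qb, Eqv ρ e ξ (fun T => φ ⬝ᵥ B T *ᵥ v) ∧ ∀ T, φ ⬝ᵥ B T *ᵥ v ≠ 0 ∧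
      IsIntegral ℤ ((m : Qb) * (φ ⬝ᵥ B T *ᵥ v)) ∧ ‖ι (φ ⬝ᵥ B T *ᵥ v)‖ ≤ 3 * p ^ 12 * m

/-- a weak form of Bezout's theorem for nondegenerate solutions -/
def BEZ_st : Prop :=
  ∀ (κ : Type) [Fintype κ] (P : κ → MvPolynomial κ ℂ) (D : ℕ) (y : κ → ℂ) (Z : Finset (κ → ℂ)),
    (∀ i, (P i).totalDegree ≤ D) → (∀ z ∈ Z, ∀ i, MvPolynomial.eval z (P i) = y i) →
    (∀ z ∈ Z, ∀ w : κ → ℂ,
      (∀ i, HasDerivAt (fun t : ℂ => MvPolynomial.eval (z + t • w) (P i)) 0 0) → w = 0) →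
    Z.card ≤ (Fintype.card κ * D + 1) ^ Fintype.card κ

/-- the same for a larger family of polynomials with few values -/
def BEZ2_st : Prop :=
  ∀ (κ I : Type) [Fintype κ] [Fintype I] (P : I → MvPolynomial κ ℂ) (D N : ℕ) (Y : I → Finset ℂ)
    (Z : Finset (κ → ℂ)), (∀ i, (P i).totalDegree ≤ D) → (∀ i, (Y i).card ≤ N) →
    (∀ z ∈ Z, ∀ i, MvPolynomial.eval z (P i) ∈ Y i) →
    (∀ z ∈ Z, ∀ w : κ → ℂ,
      (∀ i, HasDerivAt (fun t : ℂ => MvPolynomial.eval (z + t • w) (P i)) 0 0) → w = 0) →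
    Z.card ≤ (Fintype.card I * N * (Fintype.card κ * D + 1)) ^ Fintype.card κ

/-- counting elements of rank one with few values of the cubic invariants -/
def CUB_st : Prop :=
  ∀ (p N : ℕ) (M n : Type) [AddCommGroup M] [Fintype M] [Fintype n] [DecidableEq n]
    (e : M → M → ℂ) (U : M → Matrix n n ℂ) (f : Basis M ℂ (M → ℂ)) (Y : Finset ℂ)
    (A : Finset (M → ℂ)), Pair p e → Fintype.card n = p → Heis e U → Y.card ≤ N → N ≠ 0 →
    (∀ a ∈ A, (∃ v φ : n → ℂ, ∀ T, a T = φ ⬝ᵥ U T *ᵥ v) ∧ (∀ T, a T ≠ 0) ∧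
      ∀ i j, ∑ S, ∑ T, f i S * f j T * (a S * a T * a (-S - T)) ∈ Y) →
    A.card ≤ (p ^ 10 * N) ^ (2 * p)

/-- the number of admissible cocycles -/
def CNT_st : Prop :=
  ∀ (p m : ℕ) (M : Type) [AddCommGroup M] (ρ : GQ → M →+ M) (e : M → M → Qb)
    (X : Finset (GQ → M)), Dat p ρ e → Dif ρ m → m ≠ 0 → (∀ ξ ∈ X, Adm ρ ξ) →
    X.card ≤ (p ^ 66 * m ^ 8) ^ (2 * p)

/-- division in the formal group -/
def DIV_st : Prop :=
  ∀ (F : Type) [Field F] [DecidableEq F] [IsAlgClosed F] [CharZero F] (v : AbsoluteValue F ℝ)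
    (W : WeierstrassCurve F) [W.IsElliptic] (n : ℕ) (S : W.toAffine.Point), IsNonarchimedean v →
    Intg v W → 0 < n → E1 v S → v (zz S) < v n ^ 2 →
    ∃! D : W.toAffine.Point, n • D = S ∧ E1 v D ∧ v (zz D) < v n

/-- points fixed by the local Galois group -/
def Fx (W : WeierstrassCurve ℚ) (q : ℕ) [Fact q.Prime] (P : Pts W (PadicAlgCl q)) : Prop :=
  ∀ σ : PadicAlgCl q ≃ₐ[ℚ_[q]] PadicAlgCl q, act W (σ : PadicAlgCl q →+* PadicAlgCl q) P = P

/-- the index of a subgroup of the formal group in the group of local points -/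
def IDX_st : Prop :=
  ∀ (W : WeierstrassCurve ℚ) [W.IsElliptic] (q : ℕ) [Fact q.Prime] (j k : ℕ),
    Intg (NormedField.toAbsoluteValue (PadicAlgCl q)) (W.baseChange (PadicAlgCl q)) →
    1 ≤ ‖(W.baseChange (PadicAlgCl q)).Δ‖ * q ^ k →
    ∃ A : Finset (Pts W (PadicAlgCl q)), A.card ≤ (q ^ (2 * k + 2) + 1) * q ^ j ∧
      ∀ S, Fx W q S → ∃ a ∈ A, E1 (NormedField.toAbsoluteValue (PadicAlgCl q)) (S - a) ∧
        ‖zz (S - a)‖ * q ^ (j + 1) ≤ 1

/-- local points modulo `p`, in terms of division points -/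
def Cls (W : WeierstrassCurve ℚ) (q : ℕ) [Fact q.Prime] (p N : ℕ) : Prop :=
  ∃ cl : Pts W (PadicAlgCl q) → Fin N, ∀ R R', Fx W q (p • R) → Fx W q (p • R') → cl R = cl R' →
    ∃ T, p • T = 0 ∧ Fx W q (R - R' - T)

/-- translations, orders of vanishing and the Galois action on a function field of the curve -/
structure Ord (W : WeierstrassCurve ℚ) {F : Type} [Field F] [Algebra Qb F]
    (τ : Pts W Qb → F →+* F) (g : GQ → F →+* F) (o : Pts W Qb → F → ℤ) : Prop where
  t0 : ∀ f, τ 0 f = f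
  tadd : ∀ S T f, τ (S + T) f = τ S (τ T f)
  tc : ∀ T c, τ T (algebraMap Qb F c) = algebraMap Qb F c
  gc : ∀ (σ : GQ) c, g σ (algebraMap Qb F c) = algebraMap Qb F (σ c)
  gt : ∀ σ T f, g σ (τ T f) = τ (galQ W σ T) (g σ f)
  omul : ∀ Q f f', f ≠ 0 → f' ≠ 0 → o Q (f * f') = o Q f + o Q f'
  ot : ∀ Q T f, o Q (τ T f) = o (Q + T) f
  og : ∀ σ Q f, o (galQ W σ Q) (g σ f) = o Q f
  oc : ∀ Q c, o Q (algebraMap Qb F c) = 0
  cst : ∀ f, f ≠ 0 → (∀ Q, o Q f = 0) → ∃ c, f = algebraMap Qb F c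
  deg : ∀ f, f ≠ 0 → ∃ s : Finset (Pts W Qb), (∀ Q, Q ∉ s → o Q f = 0) ∧ ∑ Q ∈ s, o Q f = 0
  ex : ∀ (n : ℕ) T, Odd n → n • T = 0 → ∃ f, f ≠ 0 ∧
    ∀ Q, o Q f = (if Q = T then (n : ℤ) else 0) - if Q = 0 then (n : ℤ) else 0

/-- divisors on the curve -/
def ORD_st : Prop :=
  ∀ (W : WeierstrassCurve ℚ) [W.IsElliptic], ∃ (F : Type) (_ : Field F) (_ : Algebra Qb F)
    (τ : Pts W Qb → F →+* F) (g : GQ → F →+* F) (o : Pts W Qb → F → ℤ), Ord W τ g o

/-- the Weil pairing -/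
def WEIL_st : Prop :=
  ∀ (W : WeierstrassCurve ℚ) [W.IsElliptic] (p : ℕ), p.Prime → p ≠ 2 →
    ∃ e : Pts W Qb → Pts W Qb → Qb,
      (∀ S S' T, p • S = 0 → p • S' = 0 → p • T = 0 → e (S + S') T = e S T * e S' T) ∧
      (∀ S T T', p • S = 0 → p • T = 0 → p • T' = 0 → e S (T + T') = e S T * e S T') ∧
      (∀ T, p • T = 0 → e T T = 1) ∧
      (∀ T, p • T = 0 → (∀ S, p • S = 0 → e S T = 1) → T = 0) ∧
      ∀ (σ : GQ) S T, p • S = 0 → p • T = 0 → σ (e S T) = e (galQ W σ S) (galQ W σ T)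

end Pool.Agent.MP_e23604_nt.L

end

section

/-!
Basic facts on pairings, cocycles and projective representations.
-/

open Matrix
open scoped Classical

namespace Pool.Agent.MP_e23604_nt.L

variable {K K' M n : Type} [Field K] [Field K'] [AddCommGroup M] [Fintype n] [DecidableEq n] {p : ℕ}

namespace Pair

variable {e : M → M → K} (h : Pair p e)
include h

theorem swap (S T : M) : e S T * e T S = 1 := by
  have := h.alt (S + T)
  rwa [h.addl, h.addr, h.addr, h.alt, h.alt, one_mul, mul_one] at this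

theorem ne (S T : M) : e S T ≠ 0 := left_ne_zero_of_mul_eq_one (h.swap S T)

theorem zero_l (T : M) : e 0 T = 1 := by
  have := h.addl 0 0 T
  rw [add_zero] at this
  exact (mul_eq_left₀ (h.ne 0 T)).1 this.symm

theorem zero_r (S : M) : e S 0 = 1 := by
  have := h.swap S 0
  rwa [h.zero_l, mul_one] at this

theorem neg_l (S T : M) : e (-S) T = (e S T)⁻¹ :=
  eq_inv_of_mul_eq_one_left (by rw [← h.addl, neg_add_cancel, h.zero_l])

theorem neg_r (S T : M) : e S (-T) = (e S T)⁻¹ :=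
  eq_inv_of_mul_eq_one_left (by rw [← h.addr, neg_add_cancel, h.zero_r])

theorem inv (S T : M) : e T S = (e S T)⁻¹ := eq_inv_of_mul_eq_one_right (h.swap S T)

theorem neg_self (T : M) : e T (-T) = 1 := by rw [h.neg_r, h.alt, inv_one]

theorem nsmul_l (k : ℕ) (S T : M) : e (k • S) T = e S T ^ k := by
  induction k with
  | zero => rw [zero_smul, h.zero_l, pow_zero]
  | succ k ih => rw [succ_nsmul, h.addl, ih, pow_succ]

theorem nsmul_r (k : ℕ) (S T : M) : e S (k • T) = e S T ^ k := by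
  induction k with
  | zero => rw [zero_smul, h.zero_r, pow_zero]
  | succ k ih => rw [succ_nsmul, h.addr, ih, pow_succ]

theorem pow_p (S T : M) : e S T ^ p = 1 := by rw [← h.nsmul_l, h.tor, h.zero_l]

theorem three_le : 3 ≤ p := by
  have := h.hp.two_le
  have := h.h2
  omega

theorem eq_one_of_sq {S T : M} (h2 : e S T ^ 2 = 1) : e S T = 1 := by
  obtain ⟨k, hk⟩ := h.hp.odd_of_ne_two h.h2
  have := h.pow_p S T
  rwa [hk, pow_succ, pow_mul, h2, one_pow, one_mul] at this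

theorem nd' {S : M} (hS : ∀ T, e S T = 1) : S = 0 :=
  h.nd S fun T => by rw [h.inv, hS, inv_one]

theorem finite : Finite M :=
  Nat.finite_of_card_ne_zero (h.card ▸ pow_ne_zero 2 h.hp.ne_zero)

theorem prim {S T : M} (h1 : e S T ≠ 1) : IsPrimitiveRoot (e S T) p := by
  have := Fact.mk h.hp
  have e1 := orderOf_eq_prime (h.pow_p S T) h1
  exact e1 ▸ IsPrimitiveRoot.orderOf (e S T)

theorem integral (S T : M) : IsIntegral ℤ (e S T) :=
  IsIntegral.of_pow h.hp.pos (by rw [h.pow_p]; exact isIntegral_one)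

theorem map (f : K →+* K') : Pair p fun S T => f (e S T) :=
  ⟨h.hp, h.h2, h.card, h.tor, fun S S' T => by rw [h.addl, map_mul],
    fun S T T' => by rw [h.addr, map_mul], fun T => by rw [h.alt, map_one],
    fun T hT => h.nd T fun S => f.injective (by rw [hT, map_one])⟩

theorem norm_map (f : K →+* ℂ) (S T : M) : ‖f (e S T)‖ = 1 :=
  Complex.norm_eq_one_of_pow_eq_one (by rw [← map_pow, h.pow_p, map_one]) h.hp.ne_zero

end Pair

theorem Heis.map {e : M → M → K} {B : M → Matrix n n K} (h : Heis e B) (f : K →+* K') :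
    Heis (fun S T => f (e S T)) fun T => (B T).map f :=
  ⟨by rw [h.zero, Matrix.map_one _ (map_zero f) (map_one f)], fun S T => by
    rw [← Matrix.map_mul, h.mul]
    ext i j
    simp⟩

theorem Heis.neg {e : M → M → K} {B : M → Matrix n n K} (h : Heis e B) (hp : Pair p e) (T : M) :
    B T * B (-T) = 1 := by rw [h.mul, hp.neg_self, add_neg_cancel, one_smul, h.zero]

variable {ρ : GQ → M →+ M} {e : M → M → Qb} {ξ : GQ → M}

theorem Dat.inv (h : Dat p ρ e) (σ : GQ) (T : M) : ρ σ⁻¹ (ρ σ T) = T := by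
  rw [← h.mul, inv_mul_cancel, h.one]

theorem Dat.inv' (h : Dat p ρ e) (σ : GQ) (T : M) : ρ σ (ρ σ⁻¹ T) = T := by
  rw [← h.mul, mul_inv_cancel, h.one]

theorem Dat.bij (h : Dat p ρ e) (σ : GQ) : Function.Bijective (ρ σ) :=
  Function.bijective_iff_has_inverse.2 ⟨ρ σ⁻¹, h.inv σ, h.inv' σ⟩

theorem Dat.coc_one (h : Dat p ρ e) (hξ : ∀ σ τ, ξ (σ * τ) = ξ σ + ρ σ (ξ τ)) : ξ 1 = 0 := by
  have := hξ 1 1
  rw [mul_one, h.one] at this
  exact left_eq_add.1 this

/-- the twisting factors form a cocycle -/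
theorem Dat.chi (h : Dat p ρ e) (hξ : ∀ σ τ, ξ (σ * τ) = ξ σ + ρ σ (ξ τ)) (σ τ : GQ) (T : M) :
    e (ξ (σ * τ)) (ρ (σ * τ) T) = e (ξ σ) (ρ (σ * τ) T) * σ (e (ξ τ) (ρ τ T)) := by
  rw [hξ, h.addl, h.eqv, ← h.mul σ τ T]

theorem Adm.zero (ρ : GQ → M →+ M) : Adm ρ 0 :=
  ⟨fun σ τ => by simp, IsLocallyConstant.const 0, fun q _ γ => ⟨0, fun τ _ => by simp⟩⟩

theorem Eqv.norm (h : Dat p ρ e) {a : M → Qb} (ha : Eqv ρ e ξ a) (ι : Qb →+* ℂ) (σ : GQ) (T : M) :
    ‖ι (σ (a T))‖ = ‖ι (a (ρ σ T))‖ := by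
  rw [ha, map_mul, norm_mul, h.toPair.norm_map, one_mul]

/-- every embedding differs from a given one by an automorphism -/
theorem emb_ex (ι ι' : Qb →+* ℂ) : ∃ c : GQ, ∀ x, ι (c x) = ι' x := by
  let _ : Algebra Qb ℂ := ι.toAlgebra
  have : IsScalarTower ℚ Qb ℂ := IsScalarTower.of_algebraMap_eq fun x => by
    simp [RingHom.algebraMap_toAlgebra]
  refine ⟨AlgHom.restrictNormal' ι'.toRatAlgHom Qb, fun x => ?_⟩
  exact AlgHom.restrictNormal_commutes ι'.toRatAlgHom Qb x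

/-- complex conjugation -/
theorem conj_ex (ι : Qb →+* ℂ) : ∃ c : GQ, ∀ x, ι (c x) = starRingEnd ℂ (ι x) :=
  emb_ex ι ((starRingEnd ℂ).comp ι)

/-- a nonzero algebraic integer has a conjugate of absolute value at least one -/
theorem big_conj (ι : Qb →+* ℂ) {x : Qb} (hx : IsIntegral ℤ x) (h0 : x ≠ 0) :
    ∃ σ : GQ, 1 ≤ ‖ι (σ x)‖ := by
  let F := IntermediateField.adjoin ℚ {x}
  have : FiniteDimensional ℚ F :=
    IntermediateField.adjoin.finiteDimensional (Algebra.IsIntegral.isIntegral x)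
  have : NumberField F := {}
  let y : F := ⟨x, IntermediateField.mem_adjoin_simple_self ℚ x⟩
  have hy : IsIntegral ℤ y := (isIntegral_algHom_iff (F.val.restrictScalars ℤ)
    Subtype.val_injective).1 hx
  by_contra hc
  push Not at hc
  have h1 : ∀ φ : F →+* ℂ, ‖φ y‖ < 1 := fun φ => by
    let _ : Algebra F ℂ := φ.toAlgebra
    let ψ : Qb →ₐ[F] ℂ := IsAlgClosed.lift
    obtain ⟨c, hc'⟩ := emb_ex ι ψ.toRingHom
    have e1 : φ y = ι (c x) := by
      rw [hc']
      exact (ψ.commutes y).symm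
    rw [e1]
    exact hc c
  obtain ⟨φ, hφ⟩ := NumberField.exists_conjugate_one_le_norm (α := ⟨y, hy⟩)
    (fun e => h0 (congrArg (fun t : NumberField.RingOfIntegers F => ((t : F) : Qb)) e))
  exact absurd (h1 φ) (not_lt.2 hφ)

end Pool.Agent.MP_e23604_nt.L

end

section

/-!
Division in the formal group.
-/

open WeierstrassCurve Polynomial
open scoped Classical

namespace Pool.Agent.MP_e23604_nt.L

open B

lemma sum_lt_Div {F : Type} [Field F] {v : AbsoluteValue F ℝ} (hv : IsNonarchimedean v) {c : ℝ}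
    (hc : 0 < c) (m : Multiset F) (hm : ∀ r ∈ m, v r < c) : v m.sum < c := by
  induction m using Multiset.induction_on with
  | empty => simpa using hc
  | cons a m ih =>
    rw [Multiset.sum_cons]
    exact bLocA_add_lt hv (hm a (Multiset.mem_cons_self a m))
      (ih fun r hr => hm r (Multiset.mem_cons_of_mem hr))

lemma next_lt_Div {F : Type} [Field F] [IsAlgClosed F] {v : AbsoluteValue F ℝ}
    (hv : IsNonarchimedean v) {c : ℝ} (hc : 0 < c) {A : F[X]} (hA : A.Monic)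
    (hm : ∀ r, A.IsRoot r → v r < c) : v A.nextCoeff < c := by
  rw [(IsAlgClosed.splits A).nextCoeff_eq_neg_sum_roots_of_monic hA, v.map_neg]
  exact sum_lt_Div hv hc _ fun r hr => hm r ((mem_roots hA.ne_zero).mp hr)

lemma root_le_Div {F : Type} [Field F] [DecidableEq F] [IsAlgClosed F] {v : AbsoluteValue F ℝ}
    {W : WeierstrassCurve F} [W.IsElliptic] (hv : IsNonarchimedean v) (hW : Intg v W) {n : ℕ}
    {A B : F[X]} (hr : BTorsRep W n A B) {r : F} (h : A.IsRoot r) : v r ≤ 1 := by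
  by_contra hlt
  rw [not_le] at hlt
  obtain ⟨y, hy⟩ := btors_exists_y W r
  have hA : A.eval r = 0 := h
  have hB : B.eval r ≠ 0 := (btors_no_common hr r).resolve_left (not_not.mpr hA)
  have h1 : E1 v (Affine.Point.some r y hy) := hlt
  have h2 := (bLocA_nsmul hv hW h1 n).1
  rcases hP : n • Affine.Point.some r y hy with _ | ⟨x', y', h'⟩
  · exact hB ((btors_zero_iff hr hy).mp hP)
  · have h3 := btors_some hr hy h' hP
    rw [hA] at h3
    have h4 : x' = 0 := (mul_eq_zero.mp h3.symm).resolve_right hB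
    rw [hP] at h2
    have h5 : 1 < v x' := h2
    rw [h4, map_zero] at h5
    linarith

lemma uniq_Div {F : Type} [Field F] [DecidableEq F] {v : AbsoluteValue F ℝ}
    {W : WeierstrassCurve F} (hv : IsNonarchimedean v) (hW : Intg v W) {n : ℕ}
    {D D' : W.toAffine.Point} (h : n • D = n • D') (h1 : E1 v D) (h2 : E1 v D')
    (h3 : v (zz D) < v n) (h4 : v (zz D') < v n) : D = D' := by
  have hN := bLocA_nat hv n
  obtain ⟨k1, k2⟩ := E1_neg hv hW h2
  have k3 : v (zz (-D')) < v n := by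
    have := bLocA_sub_lt hv (k2.trans_lt (by nlinarith [v.nonneg (zz D')])) h4
    rwa [add_sub_cancel_right] at this
  obtain ⟨k4, k5⟩ := E1_add hv hW h1 k1
  have k6 : max (v (zz D)) (v (zz (-D'))) < v n := max_lt h3 k3
  have k7 : 0 ≤ max (v (zz D)) (v (zz (-D'))) := le_max_of_le_left (v.nonneg _)
  have k8 : v (zz (D + -D')) < v n := by
    have := bLocA_add_lt hv (bLocA_add_lt hv (k5.trans_lt (by nlinarith)) k3) h3
    rwa [sub_add_cancel, sub_add_cancel] at this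
  have k9 := (bLocA_nsmul hv hW k4 n).2.1
  have k0 : n • (D + -D') = 0 := by rw [smul_add, smul_neg, h, add_neg_cancel]
  rw [k0, zz_zero, zero_sub, v.map_neg, map_mul] at k9
  have : D + -D' = 0 := by
    refine E1_eq_zero hv hW k4 (v.eq_zero.1 ?_)
    nlinarith [v.nonneg (zz (D + -D'))]
  exact add_neg_eq_zero.mp this

theorem div_st : DIV_st := by
  intro F _ _ _ _ v W _ n S hv hW hn hS hz
  have hN := bLocA_nat hv n
  have hN0 : 0 < v n := v.pos (Nat.cast_ne_zero.mpr hn.ne')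
  refine existsUnique_of_exists_of_unique ?_ fun D D' hD hD' =>
    uniq_Div hv hW (hD.1.trans hD'.1.symm) hD.2.1 hD'.2.1 hD.2.2 hD'.2.2
  rcases S with _ | ⟨x', y', h'⟩
  · exact ⟨0, smul_zero n, trivial, by rwa [zz_zero, map_zero]⟩
  have hx : 1 < v x' := hS
  have hxz := btors_xz hv hW (Affine.Point.some_ne_zero h') hS
  have hxr : (Affine.Point.some x' y' h').xRep 0 = x' := by simp
  rw [hxr] at hxz
  have hz0 := v.nonneg (zz (Affine.Point.some x' y' h'))
  generalize v (zz (Affine.Point.some x' y' h')) = z at hz hxz hz0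
  have hz2 : z ^ 2 < (v n ^ 2) ^ 2 := pow_lt_pow_left₀ hz hz0 two_ne_zero
  have hM : 1 < v x' * v n ^ 2 * v n ^ 2 := by nlinarith
  have hN2 : v n ^ 2 ≤ 1 := pow_le_one₀ hN0.le hN
  have hM0 : 0 < v x' * v n ^ 2 := by positivity
  have hM1 : 1 < v x' * v n ^ 2 := by nlinarith
  obtain ⟨A, B, hA, hdA, hdB, hl, -, hr, -⟩ := div_poly W n hn
  obtain ⟨hm, hd⟩ := btors_deg hn hA hdA hdB x'
  have hpos : 0 < n ^ 2 := pow_pos hn 2
  have hex : ∃ r, (A - C x' * B).IsRoot r ∧ v x' * v n ^ 2 ≤ v r := by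
    by_contra hne
    push Not at hne
    have e1 := next_lt_Div hv hM0 hm hne
    have e2 := next_lt_Div hv hM0 hA fun r h => (root_le_Div hv hW hr h).trans_lt hM1
    have e3 : A.nextCoeff - (A - C x' * B).nextCoeff = x' * (n : F) ^ 2 := by
      rw [nextCoeff_of_natDegree_pos (hdA ▸ hpos), nextCoeff_of_natDegree_pos (hd ▸ hpos), hd, hdA,
        coeff_sub, coeff_C_mul, ← hdB, coeff_natDegree, hl]
      ring
    have e4 := bLocA_sub_lt hv e2 e1
    rw [e3, map_mul, map_pow] at e4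
    exact lt_irrefl _ e4
  obtain ⟨r, hroot, hvr⟩ := hex
  obtain ⟨D, hD, hDr⟩ := btors_lift hr h' hroot
  have hD0 : D ≠ 0 := by
    rintro rfl
    rw [smul_zero] at hD
    exact Affine.Point.some_ne_zero h' hD.symm
  have hD1 : E1 v D := (btors_E1_iff hD0).mpr (by rw [hDr]; linarith)
  refine ⟨D, hD, hD1, ?_⟩
  have e5 := btors_xz hv hW hD0 hD1
  rw [hDr] at e5
  by_contra hge
  rw [not_lt] at hge
  have e6 : v n ^ 2 ≤ v (zz D) ^ 2 := pow_le_pow_left₀ hN0.le hge 2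
  have e7 := mul_le_mul hvr e6 (sq_nonneg _) (v.nonneg r)
  linarith

end Pool.Agent.MP_e23604_nt.L

end

section

/-!
The function field of the curve: generic point and the absolute value at the origin.
-/

open WeierstrassCurve Polynomial
open scoped Classical NNReal Polynomial.Bivariate

namespace Pool.Agent.MP_e23604_nt.L

/-- a generic point of the curve, with the absolute value at the origin -/
structure Gen (W : WeierstrassCurve ℚ) {F : Type} [Field F] [CharZero F] [Algebra Qb F] (x y : F)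
    (v : AbsoluteValue F ℝ) : Prop where
  eqn : (W.baseChange F).toAffine.Equation x y
  hom : ∀ (φ : Qb →+* F) (x' y' : F), (W.baseChange F).toAffine.Equation x' y' → x' ∉ φ.range →
    ∃ Φ : F →+* F, (∀ c, Φ (algebraMap Qb F c) = φ c) ∧ Φ x = x' ∧ Φ y = y'
  rep : ∀ f : F, ∃ p q d : Qb[X], d ≠ 0 ∧ f * aeval x d = aeval x p + aeval x q * y
  na : IsNonarchimedean v
  vc : ∀ c, c ≠ 0 → v (algebraMap Qb F c) = 1
  vx : v x = 4

lemma ord_eqn (W : WeierstrassCurve ℚ) {F : Type} [Field F] [CharZero F] (x y : F) :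
    (W.baseChange F).toAffine.Equation x y ↔
      y ^ 2 + (W.a₁ : F) * x * y + W.a₃ * y = x ^ 3 + W.a₂ * x ^ 2 + W.a₄ * x + W.a₆ := by
  rw [Affine.equation_iff]
  simp [baseChange]

section

variable {k : Type} [Field k] (E : Affine k)

open Affine CoordinateRing

lemma ord_norm_ne {g : E.CoordinateRing} (hg : g ≠ 0) : Algebra.norm k[X] g ≠ 0 := by
  have : Module.Finite k[X] E.CoordinateRing := Module.Finite.of_basis (CoordinateRing.basis E)
  exact Algebra.norm_ne_zero_iff.2 hg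

lemma ord_norm_add (g g' : E.CoordinateRing) : (Algebra.norm k[X] (g + g')).degree ≤
    max (Algebra.norm k[X] g).degree (Algebra.norm k[X] g').degree := by
  obtain ⟨p, q, rfl⟩ := exists_smul_basis_eq g
  obtain ⟨p', q', rfl⟩ := exists_smul_basis_eq g'
  have e : p • (1 : E.CoordinateRing) + q • mk E Y + (p' • 1 + q' • mk E Y) =
      (p + p') • 1 + (q + q') • mk E Y := by
    rw [add_smul, add_smul]; abel
  rw [e, degree_norm_smul_basis, degree_norm_smul_basis, degree_norm_smul_basis]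
  refine max_le ?_ ?_
  · rcases le_max_iff.1 (degree_add_le p p') with h | h
    · exact le_max_of_le_left (le_max_of_le_left (nsmul_le_nsmul_right h 2))
    · exact le_max_of_le_right (le_max_of_le_left (nsmul_le_nsmul_right h 2))
  · rcases le_max_iff.1 (degree_add_le q q') with h | h
    · exact le_max_of_le_left (le_max_of_le_right (by gcongr))
    · exact le_max_of_le_right (le_max_of_le_right (by gcongr))

/-- the valuation at the origin on the coordinate ring -/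
noncomputable def ordV : Valuation E.CoordinateRing ℝ≥0 where
  toFun g := if g = 0 then 0 else 2 ^ (Algebra.norm k[X] g).natDegree
  map_zero' := if_pos rfl
  map_one' := by simp
  map_mul' g g' := by
    rcases eq_or_ne g 0 with rfl | hg
    · simp
    rcases eq_or_ne g' 0 with rfl | hg'
    · simp
    rw [if_neg hg, if_neg hg', if_neg (mul_ne_zero hg hg'), map_mul,
      natDegree_mul (ord_norm_ne E hg) (ord_norm_ne E hg'), pow_add]
  map_add_le_max' g g' := by
    rcases eq_or_ne g 0 with rfl | hg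
    · simp
    rcases eq_or_ne g' 0 with rfl | hg'
    · simp
    rcases eq_or_ne (g + g') 0 with h | h
    · simp [h]
    simp only [if_neg hg, if_neg hg', if_neg h]
    rcases le_max_iff.1 (ord_norm_add E g g') with h | h
    · exact le_max_of_le_left (pow_le_pow_right₀ one_le_two (natDegree_le_natDegree h))
    · exact le_max_of_le_right (pow_le_pow_right₀ one_le_two (natDegree_le_natDegree h))

lemma ordV_apply {g : E.CoordinateRing} (hg : g ≠ 0) :
    ordV E g = 2 ^ (Algebra.norm k[X] g).natDegree := if_neg hg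

lemma ordV_C {p : k[X]} (hp : p ≠ 0) : ordV E (mk E (C p)) = 2 ^ (2 * p.natDegree) := by
  have e : mk E (C p) = p • (1 : E.CoordinateRing) + (0 : k[X]) • mk E Y := by
    rw [zero_smul, add_zero, CoordinateRing.smul, mul_one]
  have h : mk E (C p) ≠ 0 := fun h => hp (smul_basis_eq_zero (e ▸ h)).1
  rw [ordV_apply E h, e, norm_smul_basis]
  simp

lemma ord_abs : ∃ v : AbsoluteValue E.FunctionField ℝ, IsNonarchimedean v ∧
    ∀ g, v (algebraMap E.CoordinateRing E.FunctionField g) = ordV E g := by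
  have hS : nonZeroDivisors E.CoordinateRing ≤ (ordV E).supp.primeCompl := fun g hg h => by
    have h2 : ordV E g = 0 := h
    rw [ordV_apply E (nonZeroDivisors.ne_zero hg)] at h2
    exact absurd h2 (by positivity)
  let V := (ordV E).extendToLocalization hS E.FunctionField
  have na : ∀ f g, (V (f + g) : ℝ) ≤ max (V f : ℝ) (V g) := fun f g => by
    exact_mod_cast V.map_add f g
  refine ⟨⟨⟨fun f => V f, fun f g => by simp⟩, fun f => (V f).2, fun f => by simp,
    fun f g => (na f g).trans (max_le ?_ ?_)⟩, na, fun g => ?_⟩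
  · exact le_add_of_nonneg_right (V g).2
  · exact le_add_of_nonneg_left (V f).2
  · exact congrArg NNReal.toReal (Valuation.extendToLocalization_apply_map_apply _ hS _ g)

lemma ord_hom [IsAlgClosed k] {F : Type} [Field F] (φ : k →+* F) {x y : F}
    (h : (E.map φ).Equation x y) (hx : x ∉ φ.range) : ∃ Φ : E.FunctionField →+* F,
      (∀ p, Φ (algebraMap E.CoordinateRing _ (mk E (C p))) = eval₂ φ x p) ∧
        Φ (algebraMap E.CoordinateRing _ (mk E Y)) = y := by
  have h0 : eval₂ (eval₂RingHom φ x) y E.polynomial = 0 := by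
    rw [equation_iff'] at h
    simp only [polynomial, eval₂_sub, eval₂_add, eval₂_mul, eval₂_pow, eval₂_X, eval₂_C,
      coe_eval₂RingHom]
    simp only [map_a₁, map_a₂, map_a₃, map_a₄, map_a₆] at h
    linear_combination h
  let Ψ : E.CoordinateRing →+* F := AdjoinRoot.lift (eval₂RingHom φ x) y h0
  have h1 : ∀ p, Ψ (mk E (C p)) = eval₂ φ x p := fun p => by
    simp [Ψ]
  have h2 : Ψ (mk E Y) = y := by simp [Ψ]
  have inj : Function.Injective Ψ := by
    rw [injective_iff_map_eq_zero]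
    intro g hg
    by_contra h3
    refine hx ((IsAlgClosed.splits _).mem_range_of_isRoot (ord_norm_ne E h3) ?_)
    obtain ⟨p, q, rfl⟩ := exists_smul_basis_eq g
    have e : p • (1 : E.CoordinateRing) + q • mk E Y = CoordinateRing.mk E (C p + C q * X) := by
      simp only [CoordinateRing.smul, map_add, map_mul, mul_one]
    rw [IsRoot.def, eval_map, ← h1]
    change Ψ (Algebra.norm k[X] _ : k[X]) = 0
    rw [coe_norm_smul_basis, map_mul, map_mul, ← e, hg, zero_mul]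
  exact ⟨IsFractionRing.lift inj, fun p => by rw [IsFractionRing.lift_algebraMap, h1],
    by rw [IsFractionRing.lift_algebraMap, h2]⟩

lemma ord_rep (f : E.FunctionField) : ∃ p q d : k[X], d ≠ 0 ∧
    f * algebraMap E.CoordinateRing _ (mk E (C d)) = algebraMap E.CoordinateRing _ (mk E (C p)) +
      algebraMap E.CoordinateRing _ (mk E (C q)) * algebraMap E.CoordinateRing _ (mk E Y) := by
  obtain ⟨a, b, hb, rfl⟩ := IsFractionRing.div_surjective (A := E.CoordinateRing) f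
  have hb0 : b ≠ 0 := nonZeroDivisors.ne_zero hb
  obtain ⟨b', hb'⟩ : ∃ b', mk E (C (Algebra.norm k[X] b)) = b * b' := by
    obtain ⟨p, q, rfl⟩ := exists_smul_basis_eq b
    have e : p • (1 : E.CoordinateRing) + q • mk E Y = CoordinateRing.mk E (C p + C q * X) := by
      simp only [CoordinateRing.smul, map_add, map_mul, mul_one]
    exact ⟨_, (coe_norm_smul_basis p q).trans (by rw [map_mul, ← e])⟩
  obtain ⟨p, q, h⟩ := exists_smul_basis_eq (a * b')
  refine ⟨p, q, _, ord_norm_ne E hb0, ?_⟩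
  have h2 : algebraMap E.CoordinateRing E.FunctionField b ≠ 0 := by simpa using hb0
  rw [CoordinateRing.smul, CoordinateRing.smul, mul_one] at h
  rw [← map_mul, ← map_add, h, hb', map_mul, map_mul]
  field_simp

end

theorem gen_ex (W : WeierstrassCurve ℚ) : ∃ (F : Type) (_ : Field F) (_ : CharZero F)
    (_ : Algebra Qb F) (x y : F) (v : AbsoluteValue F ℝ), Gen W x y v := by
  let E := (W.baseChange Qb).toAffine
  let j : Qb[X][Y] →+* E.FunctionField :=
    (algebraMap E.CoordinateRing E.FunctionField).comp (Affine.CoordinateRing.mk E)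
  let : Algebra Qb E.FunctionField := ((j.comp C).comp C).toAlgebra
  have hc : ∀ c, algebraMap Qb E.FunctionField c = j (C (C c)) := fun c => rfl
  have : CharZero E.FunctionField := charZero_of_injective_ringHom (algebraMap Qb E.FunctionField).injective
  have ha : ∀ p : Qb[X], aeval (j (C X)) p = j (C p) := fun p => by
    have : (aeval (j (C X)) : Qb[X] →ₐ[Qb] _).toRingHom = j.comp C := by
      ext c <;> simp [hc]
    exact DFunLike.congr_fun this p
  obtain ⟨v, hv, hv'⟩ := ord_abs E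
  have hm : ∀ (φ : Qb →+* E.FunctionField) x y,
      (W.baseChange E.FunctionField).toAffine.Equation x y ↔ (E.map φ).Equation x y :=
    fun φ x y => by
      have e : φ.comp (algebraMap ℚ Qb) = algebraMap ℚ _ := Subsingleton.elim _ _
      rw [baseChange, ← e, ← WeierstrassCurve.map_map]
      rfl
  refine ⟨E.FunctionField, inferInstance, inferInstance, inferInstance, j (C X), j Y, v, ?_,
    fun φ x y h hx => ?_, fun f => ?_, hv, fun c h => ?_, ?_⟩
  · rw [hm (algebraMap _ _), Affine.equation_iff']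
    have h : j E.polynomial = 0 := by simp [j]
    simp only [Affine.polynomial, map_add, map_sub, map_mul, map_pow] at h
    simp only [map_a₁, map_a₂, map_a₃, map_a₄, map_a₆, hc]
    linear_combination h
  · obtain ⟨Φ, h1, h2⟩ := ord_hom E φ ((hm φ x y).1 h) hx
    exact ⟨Φ, fun c => (h1 (C c)).trans (by simp), (h1 X).trans (by simp), h2⟩
  · simp only [ha]
    exact ord_rep E f
  · rw [hc]
    refine (hv' (Affine.CoordinateRing.mk E _)).trans ?_
    rw [ordV_C E (C_ne_zero.2 h)]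
    simp
  · refine (hv' (Affine.CoordinateRing.mk E _)).trans ?_
    rw [ordV_C E X_ne_zero]
    norm_num

end Pool.Agent.MP_e23604_nt.L

end

section

/-!
The absolute value at the origin and endomorphisms of the function field.
-/

open WeierstrassCurve Polynomial
open scoped Classical

namespace Pool.Agent.MP_e23604_nt.L

open B

lemma ord_ind (P : Qb[X] → Prop) (hc : ∀ c, c ≠ 0 → P (C c))
    (hs : ∀ a p, p ≠ 0 → P p → P ((X - C a) * p)) (p : Qb[X]) (hp : p ≠ 0) : P p := by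
  induction h : p.natDegree generalizing p with
  | zero =>
    rw [eq_C_of_natDegree_eq_zero h] at hp ⊢
    exact hc _ (C_ne_zero.1 hp)
  | succ n ih =>
    obtain ⟨a, ha⟩ := IsAlgClosed.exists_root p (by
      rw [degree_eq_natDegree hp, h]; exact_mod_cast n.succ_ne_zero)
    obtain ⟨q, rfl⟩ := dvd_iff_isRoot.2 ha
    have hq : q ≠ 0 := right_ne_zero_of_mul hp
    refine hs a q hq (ih q hq ?_)
    rw [natDegree_mul (X_sub_C_ne_zero a) hq, natDegree_X_sub_C] at h
    omega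

lemma ord_act_act (W : WeierstrassCurve ℚ) {F F' F'' : Type} [Field F] [CharZero F] [Field F']
    [CharZero F'] [Field F''] [CharZero F''] (f : F →+* F') (g : F' →+* F'') (P : Pts W F) :
    act W g (act W f P) = act W (g.comp f) P := by
  rcases P with _ | ⟨x, y, h⟩ <;> rfl

lemma ord_ns (W : WeierstrassCurve ℚ) [W.IsElliptic] {F : Type} [Field F] [CharZero F] {x y : F}
    (h : (W.baseChange F).toAffine.Equation x y) : (W.baseChange F).toAffine.Nonsingular x y :=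
  (Affine.equation_iff_nonsingular_of_Δ_ne_zero (by
    rw [baseChange, map_Δ, _root_.map_ne_zero]
    exact W.coe_Δ' ▸ W.Δ'.ne_zero)).1 h

lemma ord_pt (W : WeierstrassCurve ℚ) [W.IsElliptic] (a : Qb) :
    ∃ b, (W.baseChange Qb).toAffine.Nonsingular a b := by
  obtain ⟨s, hs⟩ := IsAlgClosed.exists_eq_mul_self
    (((W.a₁ : Qb) * a + W.a₃) ^ 2 + 4 * (a ^ 3 + W.a₂ * a ^ 2 + W.a₄ * a + W.a₆))
  refine ⟨(s - (W.a₁ * a + W.a₃)) / 2, ord_ns W ((ord_eqn W _ _).2 ?_)⟩
  linear_combination (-1 / 4 : Qb) * hs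

variable {W : WeierstrassCurve ℚ} {F : Type} [Field F] [CharZero F] [Algebra Qb F] {x y : F}
  {v : AbsoluteValue F ℝ}

lemma Gen.vle (G : Gen W x y v) (c : Qb) : v (algebraMap Qb F c) ≤ 1 := by
  rcases eq_or_ne c 0 with rfl | h
  · simp
  · exact (G.vc c h).le

lemma Gen.intg (G : Gen W x y v) : Intg v (W.baseChange F) := by
  have h : ∀ r : ℚ, v (algebraMap ℚ F r) ≤ 1 := fun r => by
    rw [eq_ratCast, ← map_ratCast (algebraMap Qb F)]
    exact G.vle _
  exact ⟨h _, h _, h _, h _, h _⟩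

lemma Gen.vy (G : Gen W x y v) : v y = 8 := by
  have h := E1_xy G.na G.intg G.eqn (by rw [G.vx]; norm_num)
  rw [G.vx] at h
  exact (pow_left_inj₀ (v.nonneg _) (by norm_num) two_ne_zero).1 (h.trans (by norm_num))

lemma Gen.vlin (G : Gen W x y v) (a : Qb) : v (x - algebraMap Qb F a) = 4 := by
  rw [sub_eq_add_neg, bLocA_add_eq G.na, G.vx]
  rw [v.map_neg, G.vx]
  exact (G.vle a).trans_lt (by norm_num)

lemma Gen.vp (G : Gen W x y v) (p : Qb[X]) (hp : p ≠ 0) : v (aeval x p) = 4 ^ p.natDegree := by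
  refine ord_ind (fun p => v (aeval x p) = 4 ^ p.natDegree) (fun c hc => ?_)
    (fun a p hp h => ?_) p hp
  · simp [G.vc c hc]
  · rw [map_mul, map_mul, h, natDegree_mul (X_sub_C_ne_zero a) hp, natDegree_X_sub_C, pow_add]
    simp [G.vlin]

lemma Gen.ane (G : Gen W x y v) {p : Qb[X]} (hp : p ≠ 0) : aeval x p ≠ 0 := fun h => by
  have := G.vp p hp
  rw [h, map_zero] at this
  exact absurd this (by positivity)

lemma ord_par (m n : ℕ) : (4 : ℝ) ^ m ≠ 4 ^ n * 8 := fun h => by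
  have h2 : 2 ^ (2 * m) = 2 ^ (2 * n + 3) := by
    rw [pow_add, pow_mul, pow_mul]
    exact_mod_cast h
  have := Nat.pow_right_injective le_rfl h2
  omega

lemma Gen.vadd (G : Gen W x y v) (p q : Qb[X]) :
    v (aeval x p + aeval x q * y) = max (v (aeval x p)) (v (aeval x q) * 8) := by
  rcases eq_or_ne p 0 with rfl | hp
  · simp [G.vy]
  rcases eq_or_ne q 0 with rfl | hq
  · simp
  have e : v (aeval x q * y) = v (aeval x q) * 8 := by rw [map_mul, G.vy]
  rcases lt_or_gt_of_ne (show v (aeval x p) ≠ v (aeval x q * y) by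
    rw [e, G.vp p hp, G.vp q hq]; exact ord_par _ _) with h | h
  · rw [add_comm, bLocA_add_eq G.na h, ← e, max_eq_right h.le]
  · rw [bLocA_add_eq G.na h, ← e, max_eq_left h.le]

lemma Gen.uniq (G : Gen W x y v) {w : AbsoluteValue F ℝ} (G' : Gen W x y w) (f : F) :
    w f = v f := by
  have h : ∀ p : Qb[X], w (aeval x p) = v (aeval x p) := fun p => by
    rcases eq_or_ne p 0 with rfl | hp
    · simp
    · rw [G.vp p hp, G'.vp p hp]
  obtain ⟨p, q, d, hd, e⟩ := G.rep f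
  have h1 := G.vadd p q
  have h2 := G'.vadd p q
  rw [h, h, ← h1, ← e, map_mul, map_mul, h] at h2
  exact mul_right_cancel₀ (v.ne_zero (G.ane hd)) h2

lemma Gen.inv (G : Gen W x y v) (Φ : F →+* F) (σ : Qb →+* Qb)
    (hc : ∀ c, Φ (algebraMap Qb F c) = algebraMap Qb F (σ c)) (hx : Φ x = x) (f : F) :
    v (Φ f) = v f := by
  refine G.uniq (w := v.comp Φ.injective) ⟨G.eqn, G.hom, G.rep, fun a b => ?_, fun c h => ?_, ?_⟩ f
  · change v (Φ (a + b)) ≤ max (v (Φ a)) (v (Φ b))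
    rw [map_add]
    exact G.na _ _
  · change v (Φ _) = 1
    rw [hc]
    exact G.vc _ ((map_ne_zero σ).2 h)
  · change v (Φ x) = 4
    rw [hx, G.vx]

lemma Gen.disc (G : Gen W x y v) {f : F} (hf : f ≠ 0) : v f = 2 ^ Int.log 2 (v f) := by
  have hp : ∀ p : Qb[X], p ≠ 0 → v (aeval x p) = 2 ^ (2 * p.natDegree : ℤ) := fun p hp => by
    rw [G.vp p hp, zpow_mul, zpow_natCast]
    norm_num
  obtain ⟨n, hn⟩ : ∃ n : ℤ, v f = 2 ^ n := by
    obtain ⟨p, q, d, hd, e⟩ := G.rep f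
    have h1 := G.vadd p q
    rw [← e, map_mul, hp d hd] at h1
    have h0 : 0 < v f * 2 ^ (2 * d.natDegree : ℤ) := mul_pos (v.pos hf) (by positivity)
    obtain ⟨m, hm⟩ : ∃ m : ℤ, v f * 2 ^ (2 * d.natDegree : ℤ) = 2 ^ m := by
      rcases max_choice (v (aeval x p)) (v (aeval x q) * 8) with h | h <;> rw [h] at h1
      · refine ⟨_, h1.trans (hp p ?_)⟩
        rintro rfl
        simp [h1] at h0
      · refine ⟨2 * q.natDegree + 3, h1.trans ?_⟩
        rw [hp q, zpow_add₀ two_ne_zero]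
        · norm_num
        · rintro rfl
          simp [h1] at h0
    exact ⟨m - 2 * d.natDegree, by rw [zpow_sub₀ two_ne_zero, ← hm]; field_simp⟩
  rw [hn]
  exact congrArg _ (Int.log_zpow (R := ℝ) one_lt_two n).symm

/-- the residue field at the origin -/
lemma Gen.res (G : Gen W x y v) {f : F} (hf : v f = 1) : ∃ c, v (f - algebraMap Qb F c) < 1 := by
  obtain ⟨p, q, d, hd, e⟩ := G.rep f
  have h1 := G.vadd p q
  rw [← e, map_mul, hf, one_mul] at h1
  have h0 : 0 < v (aeval x d) := v.pos (G.ane hd)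
  have h2 : v (aeval x q) * 8 < v (aeval x d) := by
    refine lt_of_le_of_ne (h1 ▸ le_max_right _ _) fun h => ?_
    rcases eq_or_ne q 0 with rfl | hq
    · simp [← h] at h0
    · rw [G.vp q hq, G.vp d hd] at h
      exact ord_par _ _ h.symm
  have h3 : v (aeval x d) = v (aeval x p) := by
    rcases max_choice (v (aeval x p)) (v (aeval x q) * 8) with h | h <;> rw [h] at h1
    · exact h1
    · exact absurd h1 h2.ne'
  have hp : p ≠ 0 := by
    rintro rfl
    simp [h3] at h0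
  have h4 : d.natDegree = p.natDegree := by
    rw [G.vp d hd, G.vp p hp] at h3
    exact pow_right_injective₀ (by norm_num) (by norm_num) h3
  have hl := leadingCoeff_ne_zero.2 hd
  have hc : p.leadingCoeff / d.leadingCoeff ≠ 0 := div_ne_zero (leadingCoeff_ne_zero.2 hp) hl
  have h5 := degree_sub_lt_left (p := p) (q := C (p.leadingCoeff / d.leadingCoeff) * d)
    (by rw [degree_C_mul hc, degree_eq_natDegree hp, degree_eq_natDegree hd, h4]) hp
    (by rw [leadingCoeff_mul, leadingCoeff_C, div_mul_cancel₀ _ hl])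
  refine ⟨p.leadingCoeff / d.leadingCoeff, lt_of_mul_lt_mul_right ?_ h0.le⟩
  have e2 : (f - algebraMap Qb F (p.leadingCoeff / d.leadingCoeff)) * aeval x d =
      aeval x (p - C (p.leadingCoeff / d.leadingCoeff) * d) + aeval x q * y := by
    rw [map_sub, map_mul, aeval_C]
    linear_combination e
  rw [← map_mul, e2, G.vadd, one_mul]
  refine max_lt ?_ h2
  rcases eq_or_ne (p - C (p.leadingCoeff / d.leadingCoeff) * d) 0 with h | h
  · simpa [h] using h0
  · rw [G.vp _ h, G.vp d hd, h4]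
    exact pow_lt_pow_right₀ (by norm_num) (natDegree_lt_natDegree h h5)

variable [W.IsElliptic]

/-- the generic point -/
def Gen.pt (G : Gen W x y v) : Pts W F := .some x y (ord_ns W G.eqn)

lemma Gen.ne (G : Gen W x y v) (Q : Pts W Qb) : G.pt ≠ act W (algebraMap Qb F) Q := by
  rcases Q with _ | ⟨a, b, h⟩
  · exact Affine.Point.some_ne_zero _
  · intro e
    have h1 : x = algebraMap Qb F a := (Affine.Point.some.inj e).1
    have h2 := G.vle a
    rw [← h1, G.vx] at h2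
    norm_num at h2

lemma Gen.lift (G : Gen W x y v) (φ : Qb →+* F) (R : Pts W F) (hR : ∀ Q, R ≠ act W φ Q) :
    ∃ Φ : F →+* F, (∀ c, Φ (algebraMap Qb F c) = φ c) ∧ act W Φ G.pt = R := by
  rcases R with _ | ⟨x', y', h⟩
  · exact absurd (map_zero (act W φ)).symm (hR 0)
  · obtain ⟨Φ, h1, rfl, rfl⟩ := G.hom φ x' y' h.1 (by
      rintro ⟨a, rfl⟩
      obtain ⟨b, hb⟩ := ord_pt W a
      obtain ⟨h', e⟩ : ∃ h', act W φ (.some a b hb) = .some (φ a) (φ b) h' := ⟨_, rfl⟩
      rcases (Affine.Point.X_eq_iff (h₁ := h) (h₂ := h')).1 rfl with e' | e'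
      · exact hR _ (e'.trans e.symm)
      · exact hR (-.some a b hb) (by rw [map_neg, e, e']))
    exact ⟨Φ, h1, rfl⟩

lemma Gen.ext (G : Gen W x y v) {Φ Ψ : F →+* F}
    (hc : ∀ c, Φ (algebraMap Qb F c) = Ψ (algebraMap Qb F c))
    (h : act W Φ G.pt = act W Ψ G.pt) (f : F) : Φ f = Ψ f := by
  obtain ⟨h1, h2⟩ : Φ x = Ψ x ∧ Φ y = Ψ y := Affine.Point.some.inj h
  have hp : ∀ p : Qb[X], Φ (aeval x p) = Ψ (aeval x p) := fun p => by
    induction p using Polynomial.induction_on' with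
    | add p q hp hq => simp [hp, hq]
    | monomial n a => simp [aeval_monomial, hc, h1]
  obtain ⟨p, q, d, hd, e⟩ := G.rep f
  have e1 := congrArg Φ e
  have e2 := congrArg Ψ e
  simp only [map_mul, map_add, hp, h2] at e1 e2
  exact mul_right_cancel₀ ((map_ne_zero Ψ).2 (G.ane hd)) (e1.trans e2.symm)

/-- the order of vanishing of `x - a` at a point with abscissa `a` -/
lemma Gen.key (G : Gen W x y v) {Φ : F →+* F} {a b : Qb}
    (h : (W.baseChange Qb).toAffine.Nonsingular a b)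
    (hΦ : act W Φ G.pt = G.pt + act W (algebraMap Qb F) (.some a b h)) :
    v (Φ x - algebraMap Qb F a) =
      if (.some a b h : Pts W Qb) = -.some a b h then 1 / 4 else 1 / 2 := by
  have h4 := G.vlin a
  have hne : x ≠ algebraMap Qb F a := fun e => by simp [e] at h4
  obtain ⟨h', e⟩ : ∃ h', act W (algebraMap Qb F) (.some a b h) =
    .some (algebraMap Qb F a) (algebraMap Qb F b) h' := ⟨_, rfl⟩
  rw [e, Gen.pt, Affine.Point.add_of_X_ne hne] at hΦ
  have h1 : Φ x = _ := (Affine.Point.some.inj hΦ).1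
  rw [Affine.slope_of_X_ne hne, Affine.addX] at h1
  have hE := (ord_eqn W x y).1 G.eqn
  have e1 : (W.baseChange F).toAffine.a₁ = W.a₁ := eq_ratCast (algebraMap ℚ F) _
  have e2 : (W.baseChange F).toAffine.a₂ = W.a₂ := eq_ratCast (algebraMap ℚ F) _
  rw [e1, e2] at h1
  set ψ : Qb := 2 * b + W.a₁ * a + W.a₃ with hψ
  set φ : Qb := 3 * a ^ 2 + 2 * W.a₂ * a + W.a₄ - W.a₁ * b with hφ
  set γ : Qb := W.a₆ + b ^ 2 + W.a₁ * a * b - (W.a₂ + 2 * a) * a ^ 2 with hγ
  have h2 : (Φ x - algebraMap Qb F a) * (x - algebraMap Qb F a) ^ 2 =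
      algebraMap Qb F (-ψ) * y + (algebraMap Qb F φ * x + algebraMap Qb F γ) := by
    have := sub_ne_zero.2 hne
    rw [h1, hψ, hφ, hγ]
    simp only [map_add, map_mul, map_sub, map_neg, map_pow, map_ratCast, map_ofNat]
    field_simp
    linear_combination hE
  have h3 := congrArg v h2
  rw [map_mul, map_pow, h4] at h3
  have hn : (.some a b h : Pts W Qb) = -.some a b h ↔ ψ = 0 := by
    rw [Affine.Point.neg_some, Affine.Point.some.injEq, Affine.negY]
    have e1 : (W.baseChange Qb).toAffine.a₁ = W.a₁ := eq_ratCast (algebraMap ℚ Qb) _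
    have e3 : (W.baseChange Qb).toAffine.a₃ = W.a₃ := eq_ratCast (algebraMap ℚ Qb) _
    rw [e1, e3]
    exact ⟨fun h => by linear_combination h.2, fun h => ⟨rfl, by linear_combination h⟩⟩
  have hγ1 : v (algebraMap Qb F γ) < 4 := (G.vle γ).trans_lt (by norm_num)
  split_ifs with h5
  · have h6 := hn.1 h5
    have h7 : φ ≠ 0 := fun h7 => by
      have := ((W.baseChange Qb).toAffine.nonsingular_iff' a b).1 h
      simp only [baseChange, map_a₁, map_a₂, map_a₃, map_a₄, eq_ratCast] at this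
      rcases this.2 with h8 | h8
      · exact h8 (by linear_combination -h7)
      · exact h8 (by linear_combination h6)
    have h8 : v (algebraMap Qb F φ * x) = 4 := by rw [map_mul, G.vc φ h7, G.vx, one_mul]
    rw [h6, neg_zero, map_zero, zero_mul, zero_add, bLocA_add_eq G.na (h8 ▸ hγ1), h8] at h3
    linarith
  · have h8 : v (algebraMap Qb F (-ψ) * y) = 8 := by
      rw [map_mul, G.vc _ (neg_ne_zero.2 (mt hn.2 h5)), G.vy, one_mul]
    rw [bLocA_add_eq G.na, h8] at h3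
    · linarith
    · rw [h8]
      refine bLocA_add_lt G.na ((bLocA_mul_le (G.vle φ)).trans_lt ?_) (hγ1.trans (by norm_num))
      rw [G.vx]
      norm_num

end Pool.Agent.MP_e23604_nt.L

end

section

/-!
Divisors on the curve.
-/

open WeierstrassCurve Polynomial
open scoped Classical

namespace Pool.Agent.MP_e23604_nt.L

open B

variable {W : WeierstrassCurve ℚ} [W.IsElliptic] {F : Type} [Field F] [CharZero F] [Algebra Qb F]
  {x y : F} {v : AbsoluteValue F ℝ}

omit [W.IsElliptic] in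
lemma ord_fix {Φ : F →+* F} {σ : Qb →+* Qb}
    (hc : ∀ c, Φ (algebraMap Qb F c) = algebraMap Qb F (σ c)) (Q : Pts W Qb) :
    act W Φ (act W (algebraMap Qb F) Q) = act W (algebraMap Qb F) (act W σ Q) := by
  rw [ord_act_act, ord_act_act, show Φ.comp (algebraMap Qb F) = (algebraMap Qb F).comp σ from
    RingHom.ext hc]

omit [W.IsElliptic] [Algebra Qb F] in
lemma ord_id (Q : Pts W F) : act W (RingHom.id F) Q = Q := by
  rcases Q with _ | ⟨a, b, h⟩ <;> rfl

/-- translations together with the orders of vanishing -/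
structure Tr (G : Gen W x y v) (τ : Pts W Qb → F →+* F) (o : Pts W Qb → F → ℤ) : Prop where
  tc : ∀ T c, τ T (algebraMap Qb F c) = algebraMap Qb F c
  tp : ∀ T, act W (τ T) G.pt = G.pt + act W (algebraMap Qb F) T
  ov : ∀ Q f, o Q f = -Int.log 2 (v (τ Q f))

variable {G : Gen W x y v} {τ : Pts W Qb → F →+* F} {o : Pts W Qb → F → ℤ}

lemma Tr.fix (H : Tr G τ o) (T Q : Pts W Qb) :
    act W (τ T) (act W (algebraMap Qb F) Q) = act W (algebraMap Qb F) Q := by
  rw [ord_fix (σ := RingHom.id Qb) (H.tc T), ord_id]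

lemma Tr.t0 (H : Tr G τ o) (f : F) : τ 0 f = f :=
  G.ext (Ψ := RingHom.id F) (H.tc 0) (by rw [H.tp, map_zero, add_zero, ord_id]) f

lemma Tr.tadd (H : Tr G τ o) (S T : Pts W Qb) (f : F) : τ (S + T) f = τ S (τ T f) :=
  G.ext (Ψ := (τ S).comp (τ T)) (fun c => by simp [H.tc]) (by
    rw [← ord_act_act, H.tp, H.tp, map_add, map_add, H.tp, H.fix, add_assoc]) f

lemma Tr.ot (H : Tr G τ o) (Q T : Pts W Qb) (f : F) : o Q (τ T f) = o (Q + T) f := by
  rw [H.ov, H.ov, H.tadd]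

lemma Tr.val (H : Tr G τ o) (Q : Pts W Qb) {f : F} (hf : f ≠ 0) : v (τ Q f) = 2 ^ (-o Q f) := by
  rw [H.ov, neg_neg]
  exact G.disc ((_root_.map_ne_zero _).2 hf)

lemma Tr.eq (H : Tr G τ o) {Q : Pts W Qb} {f : F} {n : ℤ} (h : v (τ Q f) = 2 ^ (-n)) :
    o Q f = n := by
  rw [H.ov, h, neg_eq_iff_eq_neg]
  exact Int.log_zpow (R := ℝ) one_lt_two _

lemma Tr.omul (H : Tr G τ o) (Q : Pts W Qb) (f f' : F) (hf : f ≠ 0) (hf' : f' ≠ 0) :
    o Q (f * f') = o Q f + o Q f' :=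
  H.eq (by rw [map_mul, map_mul, H.val Q hf, H.val Q hf', neg_add, zpow_add₀ two_ne_zero])

lemma Tr.oc (H : Tr G τ o) (Q : Pts W Qb) (c : Qb) : o Q (algebraMap Qb F c) = 0 := by
  rcases eq_or_ne c 0 with rfl | h
  · simp [H.ov]
  · exact H.eq (by rw [H.tc, G.vc c h, neg_zero, zpow_zero])

lemma Tr.odiv (H : Tr G τ o) (Q : Pts W Qb) {f f' : F} (hf : f ≠ 0) (hf' : f' ≠ 0) :
    o Q (f / f') = o Q f - o Q f' := by
  have := H.omul Q (f / f') f' (div_ne_zero hf hf') hf'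
  rw [div_mul_cancel₀ _ hf'] at this
  omega

lemma Tr.nonneg (H : Tr G τ o) {Q : Pts W Qb} {f : F} (hf : f ≠ 0) (h : v (τ Q f) ≤ 1) :
    0 ≤ o Q f := by
  rw [H.val Q hf, zpow_le_one_iff_right₀ one_lt_two] at h
  omega

lemma Tr.small (H : Tr G τ o) {a b : Qb} (h : (W.baseChange Qb).toAffine.Nonsingular a b) :
    v (τ (.some a b h) x - algebraMap Qb F a) < 1 := by
  rw [G.key h (H.tp _)]
  split_ifs <;> norm_num

lemma Tr.lin (H : Tr G τ o) {a b : Qb} (h : (W.baseChange Qb).toAffine.Nonsingular a b)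
    (Q : Pts W Qb) : o Q (x - algebraMap Qb F a) = (if Q = .some a b h then 1 else 0) +
      (if Q = -.some a b h then 1 else 0) - if Q = 0 then 2 else 0 := by
  refine H.eq ?_
  rw [map_sub, H.tc]
  rcases Q with _ | ⟨a', b', h'⟩
  · have h0 : (.some a b h : Pts W Qb) ≠ 0 := Affine.Point.some_ne_zero h
    rw [← Affine.Point.zero_def, H.t0, G.vlin, if_neg h0.symm, if_neg (neg_ne_zero.2 h0).symm,
      if_pos rfl]
    norm_num
  · rw [if_neg (Affine.Point.some_ne_zero h')]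
    have hx := Affine.Point.X_eq_iff (h₁ := h') (h₂ := h)
    rcases eq_or_ne a' a with rfl | ha
    · rw [G.key h' (H.tp _)]
      rcases hx.1 rfl with e | e
      · rw [if_pos e, ← e]
        split_ifs <;> norm_num
      · rw [if_pos e, ← neg_eq_iff_eq_neg.2 e]
        split_ifs <;> norm_num
    · rw [if_neg fun e => ha (hx.2 (.inl e)), if_neg fun e => ha (hx.2 (.inr e))]
      have h1 := G.vc _ (sub_ne_zero.2 ha)
      have h2 := bLocA_add_eq G.na (h1 ▸ H.small h')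
      rw [h1, map_sub, add_comm, sub_add_sub_cancel] at h2
      rw [h2]
      norm_num

lemma Tr.reg (H : Tr G τ o) {Q : Pts W Qb} (hQ : Q ≠ 0) (p q : Qb[X]) :
    v (τ Q (aeval x p + aeval x q * y)) ≤ 1 := by
  rcases Q with _ | ⟨a, b, h⟩
  · exact absurd rfl hQ
  have hx : v (τ (.some a b h) x) ≤ 1 := by
    have := bLocA_add_le G.na (H.small h).le (G.vle a)
    rwa [sub_add_cancel] at this
  obtain ⟨h', -⟩ : ∃ h', act W (τ (.some a b h)) G.pt = .some (τ (.some a b h) x)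
    (τ (.some a b h) y) h' := ⟨_, rfl⟩
  have hy := y_le G.na G.intg h'.1 hx
  have hp : ∀ p : Qb[X], v (τ (.some a b h) (aeval x p)) ≤ 1 := fun p => by
    induction p using Polynomial.induction_on' with
    | add p q hp hq => rw [map_add, map_add]; exact bLocA_add_le G.na hp hq
    | monomial n c =>
      rw [aeval_monomial, map_mul, H.tc, map_pow]
      exact bLocA_mul_one (G.vle c) (by rw [map_pow]; exact pow_le_one₀ (v.nonneg _) hx)
  rw [map_add, map_mul]
  exact bLocA_add_le G.na (hp p) (bLocA_mul_one (hp q) hy)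

/-- finitely many zeros and poles, of total degree zero -/
def Dg (o : Pts W Qb → F → ℤ) (f : F) : Prop :=
  (Function.support fun Q => o Q f).Finite ∧ ∑ᶠ Q, o Q f = 0

lemma Tr.dpoly (H : Tr G τ o) (p : Qb[X]) (hp : p ≠ 0) : Dg o (aeval x p) := by
  refine ord_ind (fun p => Dg o (aeval x p)) (fun c _ => ?_) (fun a p hp h => ?_) p hp
  · simp [Dg, H.oc]
  · obtain ⟨b, hb⟩ := ord_pt W a
    have h1 := G.ane (X_sub_C_ne_zero a)
    have f1 : ∀ (U : Pts W Qb) (n : ℤ), (Function.support fun Q => if Q = U then n else 0).Finite :=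
      fun U n => (Set.finite_singleton U).subset fun Q hQ => by
        by_contra h
        exact hQ (if_neg h)
    have f2 : ∀ (U : Pts W Qb) (n : ℤ), ∑ᶠ Q, (if Q = U then n else 0) = n := fun U n =>
      (finsum_eq_single _ U fun Q h => if_neg h).trans (if_pos rfl)
    have f3 : ∀ {a b : Pts W Qb → ℤ}, a.support.Finite → b.support.Finite →
        (Function.support fun Q => a Q + b Q).Finite := fun ha hb =>
      (ha.union hb).subset (Function.support_add _ _)
    have e : ∀ Q, o Q (aeval x ((X - C a) * p)) = (if Q = .some a b hb then 1 else 0) +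
        (if Q = -.some a b hb then 1 else 0) + (if Q = 0 then -2 else 0) + o Q (aeval x p) :=
      fun Q => by
        rw [map_mul, H.omul Q _ _ h1 (G.ane hp), map_sub, aeval_X, aeval_C, H.lin hb]
        split_ifs <;> simp
    simp only [Dg, e]
    refine ⟨f3 (f3 (f3 (f1 _ _) (f1 _ _)) (f1 _ _)) h.1, ?_⟩
    rw [finsum_add_distrib (f3 (f3 (f1 _ _) (f1 _ _)) (f1 _ _)) h.1,
      finsum_add_distrib (f3 (f1 _ _) (f1 _ _)) (f1 _ _), finsum_add_distrib (f1 _ _) (f1 _ _),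
      f2, f2, f2, h.2]
    norm_num

lemma Tr.dg (H : Tr G τ o) {f : F} (hf : f ≠ 0) : Dg o f := by
  obtain ⟨ι, hc, hι⟩ := G.lift (algebraMap Qb F) (-G.pt) fun Q e =>
    G.ne (-Q) (by rw [map_neg, ← e, neg_neg])
  obtain ⟨hx, hy⟩ : ι x = x ∧ ι y = _ := Affine.Point.some.inj hι
  have ho : ∀ Q g, o Q (ι g) = o (-Q) g := fun Q g => by
    have : τ Q (ι g) = ι (τ (-Q) g) := G.ext (Φ := (τ Q).comp ι) (Ψ := ι.comp (τ (-Q)))
      (fun c => by simp [H.tc, hc]) (by
        rw [← ord_act_act, ← ord_act_act, hι, map_neg, H.tp, H.tp, map_add, hι,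
          ord_fix (σ := RingHom.id Qb) hc, ord_id, map_neg, neg_add]) g
    rw [H.ov, H.ov, this, G.inv ι (RingHom.id Qb) hc hx]
  have hp : ∀ p : Qb[X], ι (aeval x p) = aeval x p := fun p => by
    induction p using Polynomial.induction_on' with
    | add p q hp hq => simp [hp, hq]
    | monomial n a => simp [aeval_monomial, hc, hx]
  obtain ⟨p, q, d, hd, e⟩ := G.rep f
  set g := aeval x p + aeval x q * y with hg
  have hg0 : g ≠ 0 := e ▸ mul_ne_zero hf (G.ane hd)
  have hg1 : ι g ≠ 0 := (map_ne_zero ι).2 hg0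
  obtain ⟨N, hN⟩ : ∃ N : Qb[X], aeval x N = g * ι g := by
    refine ⟨p ^ 2 - p * q * (C (W.a₁ : Qb) * X + C (W.a₃ : Qb)) - q ^ 2 * (X ^ 3 +
      C (W.a₂ : Qb) * X ^ 2 + C (W.a₄ : Qb) * X + C (W.a₆ : Qb)), ?_⟩
    have e1 : (W.baseChange F).toAffine.a₁ = W.a₁ := eq_ratCast (algebraMap ℚ F) _
    have e3 : (W.baseChange F).toAffine.a₃ = W.a₃ := eq_ratCast (algebraMap ℚ F) _
    simp only [hg, map_add, map_mul, map_sub, map_pow, hp, hy, aeval_X, aeval_C, map_ratCast,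
      Affine.negY, e1, e3]
    linear_combination (aeval x q) ^ 2 * (ord_eqn W x y).1 G.eqn
  have h1 := H.dpoly N (by
    rintro rfl
    exact mul_ne_zero hg0 hg1 (hN ▸ map_zero _))
  have h2 : ∀ Q, o Q (aeval x N) = o Q g + o (-Q) g := fun Q => by
    rw [hN, H.omul Q _ _ hg0 hg1, ho]
  have h3 : (Function.support fun Q => o Q g).Finite := by
    refine (h1.1.insert 0).subset fun Q hQ => ?_
    by_contra h
    rw [Set.mem_insert_iff, not_or, Function.mem_support, not_not, h2] at h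
    have h4 := H.nonneg hg0 (H.reg h.1 p q)
    have h5 := H.nonneg hg0 (H.reg (neg_ne_zero.2 h.1) p q)
    exact hQ (show o Q g = 0 by omega)
  have h4 : ∑ᶠ Q, o Q g = 0 := by
    have h5 := h1.2
    have h6 : (Function.support fun Q => o (-Q) g).Finite :=
      h3.preimage neg_injective.injOn
    simp only [h2] at h5
    have h7 : ∑ᶠ Q, o (-Q) g = ∑ᶠ Q, o Q g :=
      finsum_comp_equiv (f := fun Q => o Q g) (Equiv.neg _)
    rw [finsum_add_distrib h3 h6, h7] at h5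
    omega
  have h5 := H.dpoly d hd
  have h6 : ∀ Q, o Q f = o Q g - o Q (aeval x d) := fun Q => by
    rw [← e, H.omul Q _ _ hf (G.ane hd), add_sub_cancel_right]
  simp only [Dg, h6]
  exact ⟨(h3.union h5.1).subset (Function.support_sub _ _),
    by rw [finsum_sub_distrib h3 h5.1, h4, h5.2, sub_zero]⟩

lemma Tr.cst (H : Tr G τ o) (f : F) (hf : f ≠ 0) (h : ∀ Q, o Q f = 0) :
    ∃ c, f = algebraMap Qb F c := by
  have h1 : ∀ Q, v (τ Q f) = 1 := fun Q => by rw [H.val Q hf, h, neg_zero, zpow_zero]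
  obtain ⟨c, hc⟩ := G.res (H.t0 f ▸ h1 0)
  refine ⟨c, sub_eq_zero.1 ?_⟩
  by_contra h0
  have h2 := H.dg h0
  refine (finsum_pos (fun Q => H.nonneg h0 ?_) ⟨0, ?_⟩ h2.1).ne' h2.2
  · rw [map_sub, H.tc]
    exact bLocA_sub_le G.na (h1 Q).le (G.vle c)
  · rw [← H.t0 (f - _), H.val 0 h0, zpow_lt_one_iff_right₀ one_lt_two] at hc
    omega

lemma Tr.two (H : Tr G τ o) {S S' V : Pts W Qb} (h : S + S' = V + V) : ∃ f, f ≠ 0 ∧ ∀ Q,
    o Q f = (if Q = S then 1 else 0) + (if Q = S' then 1 else 0) - if Q = V then 2 else 0 := by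
  obtain ⟨f, hf, h1⟩ : ∃ f, f ≠ 0 ∧ ∀ Q, o Q f = (if Q = S - V then 1 else 0) +
      (if Q = -(S - V) then 1 else 0) - if Q = 0 then 2 else 0 := by
    rcases S - V with _ | ⟨a, b, hb⟩
    · refine ⟨algebraMap Qb F 1, by simp, fun Q => ?_⟩
      rw [H.oc, ← Affine.Point.zero_def, neg_zero]
      split_ifs <;> rfl
    · exact ⟨_, by simpa using G.ane (X_sub_C_ne_zero a), H.lin hb⟩
  refine ⟨τ (-V) f, (_root_.map_ne_zero _).2 hf, fun Q => ?_⟩
  have e : -(S - V) = S' - V := by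
    rw [neg_sub, sub_eq_sub_iff_add_eq_add, ← h, add_comm]
  simp only [H.ot, h1, e, ← sub_eq_add_neg, sub_left_inj, sub_eq_zero]

lemma Tr.ex (H : Tr G τ o) (n : ℕ) (T : Pts W Qb) (hn : Odd n) (hT : n • T = 0) : ∃ f, f ≠ 0 ∧
    ∀ Q, o Q f = (if Q = T then (n : ℤ) else 0) - if Q = 0 then (n : ℤ) else 0 := by
  obtain ⟨k, hk⟩ := hn
  have key : ∀ i : ℕ, ∃ f, f ≠ 0 ∧ ∀ Q, o Q f = (if Q = T then (i : ℤ) else 0) -
      (if Q = i • T then 1 else 0) - if Q = 0 then (i : ℤ) - 1 else 0 := fun i => by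
    induction i with
    | zero =>
      refine ⟨algebraMap Qb F 1, by simp, fun Q => ?_⟩
      rw [H.oc, zero_smul]
      split_ifs <;> rfl
    | succ i ih =>
      obtain ⟨f, hf, h⟩ := ih
      have e : (i + 1) • T = ((k + 1) * (i + 1)) • T + ((k + 1) * (i + 1)) • T := by
        rw [← add_smul, show (k + 1) * (i + 1) + (k + 1) * (i + 1) = (i + 1) + (i + 1) * n by
          rw [hk]; ring, add_smul (i + 1), mul_smul, hT, smul_zero, add_zero]
      obtain ⟨f₁, hf₁, h₁⟩ := H.two (S := i • T) (S' := T) (by rw [← e, succ_nsmul])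
      obtain ⟨f₂, hf₂, h₂⟩ := H.two (S := (i + 1) • T) (S' := 0) (by rw [← e, add_zero])
      refine ⟨f * f₁ / f₂, div_ne_zero (mul_ne_zero hf hf₁) hf₂, fun Q => ?_⟩
      rw [H.odiv Q (mul_ne_zero hf hf₁) hf₂, H.omul Q _ _ hf hf₁, h, h₁, h₂]
      push_cast
      split_ifs <;> ring
  obtain ⟨f, hf, h⟩ := key n
  refine ⟨f, hf, fun Q => ?_⟩
  rw [h, hT]
  split_ifs <;> ring

theorem ord_st : ORD_st := by
  intro W _
  obtain ⟨F, _, _, _, x, y, v, G⟩ := gen_ex W
  choose τ tc tp using fun T : Pts W Qb => G.lift (algebraMap Qb F)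
    (G.pt + act W (algebraMap Qb F) T) fun Q e => G.ne (Q - T) (by rw [map_sub, ← e]; simp)
  choose g gc gp using fun σ : GQ => G.lift ((algebraMap Qb F).comp (σ : Qb →+* Qb)) G.pt
    fun Q e => G.ne _ (e.trans (ord_act_act W _ _ Q).symm)
  have H : Tr G τ fun Q f => -Int.log 2 (v (τ Q f)) := ⟨tc, tp, fun _ _ => rfl⟩
  have gt : ∀ σ T f, g σ (τ T f) = τ (galQ W σ T) (g σ f) := fun σ T f =>
    G.ext (Φ := (g σ).comp (τ T)) (Ψ := (τ (galQ W σ T)).comp (g σ))
      (fun c => by simp [tc, gc]) (by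
        rw [← ord_act_act, ← ord_act_act, tp, gp, tp, map_add, gp,
          ord_fix (σ := (σ : Qb →+* Qb)) (gc σ)]
        rfl) f
  refine ⟨F, _, _, τ, g, _, H.t0, H.tadd, tc, gc, gt, H.omul, H.ot, fun σ Q f => ?_, H.oc, H.cst,
    fun f hf => ?_, H.ex⟩
  · rw [← gt, G.inv (g σ) σ (gc σ) (Affine.Point.some.inj (gp σ)).1]
  · have h := H.dg hf
    refine ⟨h.1.toFinset, fun Q hQ => by simpa using hQ, ?_⟩
    rw [← finsum_eq_sum _ h.1, h.2]

end Pool.Agent.MP_e23604_nt.L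

end
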