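import Pool.Agent.MP_e23604_nt.BH90
import Pool.Agent.Mg.Fe23604m.G4d6502
import Pool.Agent.MP_e23604_nt.BTors

set_option linter.all false

section

/-!
The Kummer map for cocycles with values in E[p].
-/

open WeierstrassCurve AddSubgroup
open scoped Classical

namespace Pool.Agent.MP_e23604_nt.B

variable {W : WeierstrassCurve ℚ}

lemma gal_mul (σ τ : GQ) (P : Pts W Qb) : galQ W (σ * τ) P = galQ W σ (galQ W τ P) := by
  rcases P with _ | ⟨x, y, h⟩ <;> rfl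

lemma gal_one (P : Pts W Qb) : galQ W 1 P = P := by
  rcases P with _ | ⟨x, y, h⟩ <;> rfl

/-- The Galois data attached to a split prime. -/
structure GD (W : WeierstrassCurve ℚ) (p : ℕ) (α ζ : Qb) (T T' : Pts W Qb) (σ₀ : GQ) : Prop where
  hp : p.Prime
  h2 : p ≠ 2
  hζ : IsPrimitiveRoot ζ p
  pT : p • T = 0
  pT' : p • T' = 0
  ind : ∀ i j : ℤ, i • T = j • T' → (p : ℤ) ∣ i
  span : ∀ P : Pts W Qb, p • P = 0 → ∃ i j : ℤ, P = i • T + j • T'
  U1 : ∀ σ : GQ, σ α = α → ∃ j : ℤ, galQ W σ T = j • T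
  U2 : ∀ σ : GQ, σ α = α → ∃ j : ℤ, galQ W σ T' = j • T'
  s0 : σ₀ α ≠ α
  s1 : ∃ j : ℤ, galQ W σ₀ T' = j • T
  idx : (MulAction.stabilizer GQ α).index = 2

namespace GD

variable {p : ℕ} {α ζ : Qb} {T T' : Pts W Qb} {σ₀ : GQ} (h : GD W p α ζ T T' σ₀)
include h

lemma z0 : ζ ≠ 0 := h.hζ.ne_zero h.hp.ne_zero

lemma dT {i : ℤ} (hi : (p : ℤ) ∣ i) : i • T = 0 := by
  obtain ⟨k, rfl⟩ := hi
  rw [mul_comm, mul_smul, natCast_zsmul, h.pT, smul_zero]

lemma T_eq {i j : ℤ} : i • T = j • T ↔ (p : ℤ) ∣ i - j := by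
  rw [← sub_eq_zero, ← sub_smul]
  exact ⟨fun e => h.ind _ 0 (by rw [e, zero_smul]), h.dT⟩

lemma z_eq {i j : ℤ} : ζ ^ i = ζ ^ j ↔ (p : ℤ) ∣ i - j := by
  rw [← h.hζ.zpow_eq_one_iff_dvd, zpow_sub₀ h.z0, div_eq_one_iff_eq (zpow_ne_zero _ h.z0)]

lemma memA {i : ℤ} : i • T ∈ zmultiples T' ↔ (p : ℤ) ∣ i := by
  constructor
  · rintro ⟨j, hj⟩
    exact h.ind i j hj.symm
  · intro hi
    rw [h.dT hi]
    exact zero_mem _

lemma comp {P : Pts W Qb} (hP : p • P = 0) : ∃ i : ℤ, P - i • T ∈ zmultiples T' := by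
  obtain ⟨i, j, rfl⟩ := h.span P hP
  exact ⟨i, j, by simp⟩

lemma uniq {P : Pts W Qb} {i j : ℤ} (hi : P - i • T ∈ zmultiples T')
    (hj : P - j • T ∈ zmultiples T') : (p : ℤ) ∣ i - j := by
  rw [← h.memA]
  convert sub_mem hj hi using 1
  rw [sub_smul]
  abel

lemma UA {σ : GQ} (hσ : σ α = α) {P : Pts W Qb} (hP : P ∈ zmultiples T') :
    galQ W σ P ∈ zmultiples T' := by
  obtain ⟨i, rfl⟩ := hP
  obtain ⟨j, hj⟩ := h.U2 σ hσ
  exact ⟨i * j, by simp only [map_zsmul, hj, mul_smul]⟩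

lemma root {x : Qb} (hx : x ^ p = 1) : ∃ m : ℕ, x = ζ ^ m := by
  have : NeZero p := ⟨h.hp.ne_zero⟩
  obtain ⟨m, -, hm⟩ := h.hζ.eq_pow_of_pow_eq_one hx
  exact ⟨m, hm.symm⟩

lemma gz (σ : GQ) : ∃ m : ℕ, σ ζ = ζ ^ m :=
  h.root (by rw [← map_pow, h.hζ.pow_eq_one, map_one])

/-- The group fixing α and acting on T and on ζ through the same character. -/
def H : Subgroup GQ where
  carrier := {σ | σ α = α ∧ ∃ j : ℤ, galQ W σ T = j • T ∧ σ ζ = ζ ^ j}
  one_mem' := ⟨rfl, 1, by rw [gal_one, one_smul], by simp⟩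
  mul_mem' := by
    rintro σ τ ⟨a1, j, a2, a3⟩ ⟨b1, k, b2, b3⟩
    refine ⟨by rw [AlgEquiv.mul_apply, b1, a1], k * j, ?_, ?_⟩
    · rw [gal_mul, b2, map_zsmul, a2, mul_smul]
    · rw [AlgEquiv.mul_apply, b3, map_zpow₀, a3, ← zpow_mul, mul_comm]
  inv_mem' := by
    rintro σ ⟨a1, j, a2, a3⟩
    obtain ⟨m, hm⟩ := h.gz σ⁻¹
    refine ⟨?_, m, ?_, by rw [hm, zpow_natCast]⟩
    · nth_rewrite 1 [← a1]
      rw [← AlgEquiv.mul_apply, inv_mul_cancel, AlgEquiv.one_apply]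
    · have e : ζ ^ ((m : ℤ) * j) = ζ ^ (1 : ℤ) := by
        rw [mul_comm, zpow_mul, ← a3, zpow_natCast, ← map_pow, ← hm, ← AlgEquiv.mul_apply,
          mul_inv_cancel, AlgEquiv.one_apply, zpow_one]
      have e2 : galQ W σ ((m : ℤ) • T) = T := by
        rw [map_zsmul, a2, ← mul_smul, h.T_eq.2 (h.z_eq.1 e), one_smul]
      nth_rewrite 1 [← e2]
      rw [← gal_mul, inv_mul_cancel, gal_one]

lemma mem_H {σ : GQ} : σ ∈ h.H ↔ σ α = α ∧ ∃ j : ℤ, galQ W σ T = j • T ∧ σ ζ = ζ ^ j := Iff.rfl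

lemma conj {σ τ : GQ} (hσ : σ α = α) {j : ℤ} (h1 : τ α = α) (h2 : galQ W τ T = j • T)
    (h3 : τ ζ = ζ ^ j) : (σ⁻¹ * τ * σ) α = α ∧ galQ W (σ⁻¹ * τ * σ) T = j • T ∧
      (σ⁻¹ * τ * σ) ζ = ζ ^ j := by
  obtain ⟨k, hk⟩ := h.U1 σ hσ
  obtain ⟨m, hm⟩ := h.gz σ
  refine ⟨?_, ?_, ?_⟩
  · rw [AlgEquiv.mul_apply, AlgEquiv.mul_apply, hσ, h1]
    nth_rewrite 1 [← hσ]
    rw [← AlgEquiv.mul_apply, inv_mul_cancel, AlgEquiv.one_apply]
  · rw [gal_mul, gal_mul, hk, map_zsmul, h2, smul_comm, ← hk, map_zsmul, ← gal_mul,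
      inv_mul_cancel, gal_one]
  · rw [AlgEquiv.mul_apply, AlgEquiv.mul_apply, hm, map_pow, h3, ← zpow_natCast, ← zpow_mul,
      mul_comm, zpow_mul, zpow_natCast, ← hm, map_zpow₀, ← AlgEquiv.mul_apply, inv_mul_cancel,
      AlgEquiv.one_apply]

/-- δ is a Kummer generator for the T-component of ξ on H. -/
def Kum (ξ : GQ → Pts W Qb) (δ : Qb) : Prop :=
  δ ≠ 0 ∧ ∀ σ ∈ h.H, ∀ i : ℤ, ξ σ - i • T ∈ zmultiples T' → σ δ = ζ ^ i * δ

variable {ξ η : GQ → Pts W Qb} {δ ε : Qb}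

omit h in
lemma pd (σ : GQ) {R : Pts W Qb} (hR : p • R = 0) : p • (galQ W σ R - R) = 0 := by
  rw [smul_sub, ← map_nsmul, hR, map_zero, sub_zero]

end GD

end Pool.Agent.MP_e23604_nt.B

end

section

/-!
The Weil pairing, from translations and orders of vanishing.
-/

open scoped Classical

namespace Pool.Agent.MP_e23604_nt.L

open B

section abstract

variable {K M F : Type} [Field K] [AddCommGroup M] [DecidableEq M] [Field F] [Algebra K F]

omit [DecidableEq M] in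
theorem dvd_sum_Weil (L : AddSubgroup M) [Finite L] (d : M → ℤ)
    (hd : ∀ S ∈ L, ∀ X, d (X + S) = d X) (s : Finset M) (hs : ∀ X, X ∉ s → d X = 0) :
    (Nat.card L : ℤ) ∣ ∑ X ∈ s, d X := by
  have := Fintype.ofFinite L
  rw [← Finset.sum_filter_ne_zero]
  set s0 := s.filter fun X => d X ≠ 0 with hs0
  have hm : ∀ X, X ∈ s0 ↔ d X ≠ 0 := fun X => by
    rw [hs0, Finset.mem_filter]
    exact ⟨fun h => h.2, fun h => ⟨by_contra fun h' => h (hs X h'), h⟩⟩
  rw [← Finset.sum_fiberwise_of_maps_to (t := s0.image (QuotientAddGroup.mk : M → M ⧸ L))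
    (g := (QuotientAddGroup.mk : M → M ⧸ L)) (fun i hi => Finset.mem_image_of_mem _ hi)]
  refine Finset.dvd_sum fun y hy => ?_
  obtain ⟨X, hX, rfl⟩ := Finset.mem_image.1 hy
  have h1 : ∑ S : L, d (X + S) =
      ∑ Y ∈ s0 with (QuotientAddGroup.mk Y : M ⧸ L) = QuotientAddGroup.mk X, d Y := by
    refine Finset.sum_bij (fun S _ => X + S) (fun S _ => ?_) (fun S _ S' _ h => ?_)
      (fun Y hY => ?_) (fun _ _ => rfl)
    · rw [Finset.mem_filter, hm, hd _ S.2]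
      exact ⟨(hm X).1 hX, by simp⟩
    · exact Subtype.ext (add_left_cancel h)
    · rw [Finset.mem_filter] at hY
      exact ⟨⟨-X + Y, QuotientAddGroup.eq.1 hY.2.symm⟩, Finset.mem_univ _, by simp⟩
  rw [← h1, Finset.sum_congr rfl fun (S : L) _ => hd _ S.2 X, Finset.sum_const, Finset.card_univ,
    nsmul_eq_mul, Nat.card_eq_fintype_card]
  exact dvd_mul_right _ _

theorem eig_Weil [IsAlgClosed K] (V : Submodule K F) [FiniteDimensional K V] (hV : V ≠ ⊥)
    (A : Module.End K F) (hA : ∀ v ∈ V, A v ∈ V) : ∃ (μ : K) (w : F), w ∈ V ∧ w ≠ 0 ∧ A w = μ • w := by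
  have : Nontrivial V := Submodule.nontrivial_iff_ne_bot.2 hV
  obtain ⟨μ, hμ⟩ := Module.End.exists_eigenvalue (A.restrict hA)
  obtain ⟨w, hw⟩ := hμ.exists_hasEigenvector
  refine ⟨μ, w, w.2, fun h => hw.2 (Subtype.ext h), ?_⟩
  exact congrArg Subtype.val hw.apply_eq_smul

theorem eig2_Weil [IsAlgClosed K] (V : Submodule K F) [FiniteDimensional K V] (hV : V ≠ ⊥)
    (A A' : Module.End K F) (hA : ∀ v ∈ V, A v ∈ V) (hA' : ∀ v ∈ V, A' v ∈ V)
    (hc : ∀ v, A (A' v) = A' (A v)) :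
    ∃ (μ μ' : K) (w : F), w ≠ 0 ∧ A w = μ • w ∧ A' w = μ' • w := by
  obtain ⟨μ, w, hw, h0, he⟩ := eig_Weil V hV A hA
  obtain ⟨μ', w', hw', h0', he'⟩ := eig_Weil (V ⊓ A.eigenspace μ)
    ((Submodule.ne_bot_iff _).2 ⟨w, ⟨hw, Module.End.mem_eigenspace_iff.2 he⟩, h0⟩) A'
    (fun v hv => ⟨hA' v hv.1, Module.End.mem_eigenspace_iff.2 (by
      rw [hc, Module.End.mem_eigenspace_iff.1 hv.2, map_smul])⟩)
  exact ⟨μ, μ', w', h0', Module.End.mem_eigenspace_iff.1 hw'.2, he'⟩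

/-- translations, orders and the chosen functions -/
structure Ab_Weil (K : Type) [Field K] [Algebra K F] (p : ℕ) (τ : M → F →+* F) (o : M → F → ℤ)
    (f : M → F) : Prop where
  tadd : ∀ S T h, τ (S + T) h = τ S (τ T h)
  tc : ∀ T c, τ T (algebraMap K F c) = algebraMap K F c
  omul : ∀ Q h h', h ≠ 0 → h' ≠ 0 → o Q (h * h') = o Q h + o Q h'
  ot : ∀ Q T h, o Q (τ T h) = o (Q + T) h
  oc : ∀ Q c, o Q (algebraMap K F c) = 0
  cst : ∀ h, h ≠ 0 → (∀ Q, o Q h = 0) → ∃ c, h = algebraMap K F c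
  deg : ∀ h, h ≠ 0 → ∃ s : Finset M, (∀ Q, Q ∉ s → o Q h = 0) ∧ ∑ Q ∈ s, o Q h = 0
  f0 : ∀ T, p • T = 0 → f T ≠ 0
  fo : ∀ T, p • T = 0 → ∀ Q,
    o Q (f T) = (if Q = -T then (p : ℤ) else 0) - if Q = 0 then (p : ℤ) else 0

variable {p : ℕ} {τ : M → F →+* F} {o : M → F → ℤ} {f : M → F}

theorem same_Weil (H : Ab_Weil K p τ o f) {h h' : F} (h0 : h ≠ 0) (h0' : h' ≠ 0)
    (ho : ∀ Q, o Q h = o Q h') : ∃ c : K, c ≠ 0 ∧ h = algebraMap K F c * h' := by
  obtain ⟨c, hc⟩ := H.cst (h / h') (div_ne_zero h0 h0') fun Q => by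
    have := H.omul Q (h / h') h' (div_ne_zero h0 h0') h0'
    rw [div_mul_cancel₀ _ h0', ho] at this
    linarith
  refine ⟨c, fun e => ?_, by rw [← hc, div_mul_cancel₀ _ h0']⟩
  rw [e, map_zero] at hc
  exact div_ne_zero h0 h0' hc

omit [DecidableEq M] in
theorem tor_add_Weil {S T : M} (hS : p • S = 0) (hT : p • T = 0) : p • (S + T) = 0 := by
  rw [nsmul_add, hS, hT, add_zero]

theorem c_ex_Weil (H : Ab_Weil K p τ o f) : ∃ c : M → M → K, ∀ S T, p • S = 0 → p • T = 0 →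
    c S T ≠ 0 ∧ f S * τ S (f T) = algebraMap K F (c S T) * f (S + T) := by
  have : ∀ S T : M, ∃ c : K, p • S = 0 → p • T = 0 →
      c ≠ 0 ∧ f S * τ S (f T) = algebraMap K F c * f (S + T) := by
    intro S T
    by_cases hS : p • S = 0
    · by_cases hT : p • T = 0
      · have h1 : τ S (f T) ≠ 0 := (map_ne_zero _).2 (H.f0 T hT)
        obtain ⟨c, hc⟩ := same_Weil H (mul_ne_zero (H.f0 S hS) h1) (H.f0 _ (tor_add_Weil hS hT))
          fun Q => by
            rw [H.omul _ _ _ (H.f0 S hS) h1, H.ot, H.fo S hS, H.fo T hT,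
              H.fo _ (tor_add_Weil hS hT)]
            have e1 : (Q + S = 0) = (Q = -S) := propext add_eq_zero_iff_eq_neg
            have e2 : (Q + S = -T) = (Q = -(S + T)) :=
              propext ⟨fun h => by rw [neg_add, ← h]; abel, fun h => by rw [h]; abel⟩
            simp only [e1, e2]
            ring
        exact ⟨c, fun _ _ => hc⟩
      · exact ⟨0, fun _ h => absurd h hT⟩
    · exact ⟨0, fun h => absurd h hS⟩
  choose c hc using this
  exact ⟨c, hc⟩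

variable {c : M → M → K}

theorem coc_Weil (H : Ab_Weil K p τ o f) (hc : ∀ S T, p • S = 0 → p • T = 0 →
    c S T ≠ 0 ∧ f S * τ S (f T) = algebraMap K F (c S T) * f (S + T)) {S T U : M}
    (hS : p • S = 0) (hT : p • T = 0) (hU : p • U = 0) :
    c S T * c (S + T) U = c T U * c S (T + U) := by
  have h1 : f S * τ S (f T * τ T (f U)) = algebraMap K F (c S T * c (S + T) U) * f (S + T + U) := by
    rw [map_mul, ← mul_assoc, (hc S T hS hT).2, ← H.tadd, mul_assoc,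
      (hc _ U (tor_add_Weil hS hT) hU).2, map_mul, mul_assoc]
  have h2 : f S * τ S (f T * τ T (f U)) = algebraMap K F (c T U * c S (T + U)) * f (S + T + U) := by
    rw [(hc T U hT hU).2, map_mul, H.tc, mul_left_comm, (hc S _ hS (tor_add_Weil hT hU)).2,
      map_mul, mul_assoc, add_assoc]
  rw [h1] at h2
  exact (algebraMap K F).injective
    (mul_right_cancel₀ (H.f0 _ (tor_add_Weil (tor_add_Weil hS hT) hU)) h2)

theorem addl_Weil (H : Ab_Weil K p τ o f) (hc : ∀ S T, p • S = 0 → p • T = 0 →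
    c S T ≠ 0 ∧ f S * τ S (f T) = algebraMap K F (c S T) * f (S + T)) {S S' T : M}
    (hS : p • S = 0) (hS' : p • S' = 0) (hT : p • T = 0) :
    c (S + S') T / c T (S + S') = c S T / c T S * (c S' T / c T S') := by
  have h1 := coc_Weil H hc hS hS' hT
  have h2 := coc_Weil H hc hT hS hS'
  have h3 := coc_Weil H hc hS hT hS'
  rw [add_comm T S] at h2
  rw [add_comm T S'] at h3
  have n1 := (hc S S' hS hS').1
  have n2 := (hc T S hT hS).1
  have n3 := (hc T S' hT hS').1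
  have n4 := (hc T _ hT (tor_add_Weil hS hS')).1
  have n5 := (hc _ S' (tor_add_Weil hS hT) hS').1
  rw [div_mul_div_comm, div_eq_div_iff n4 (mul_ne_zero n2 n3)]
  apply mul_left_cancel₀ (mul_ne_zero n1 n5)
  linear_combination (c (S + T) S' * c T S * c T S') * h1 +
    (c (S + T) S' * c S T * c S' T) * h2 - (c (S + T) S' * c T S * c S' T) * h3

theorem eqv_Weil (H : Ab_Weil K p τ o f) (hc : ∀ S T, p • S = 0 → p • T = 0 →
    c S T ≠ 0 ∧ f S * τ S (f T) = algebraMap K F (c S T) * f (S + T)) (σ : K →+* K)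
    (ρ : M →+ M) (hρ : Function.Bijective ρ) (g : F →+* F)
    (gc : ∀ a, g (algebraMap K F a) = algebraMap K F (σ a))
    (gt : ∀ T h, g (τ T h) = τ (ρ T) (g h)) (og : ∀ Q h, o (ρ Q) (g h) = o Q h) {S T : M}
    (hS : p • S = 0) (hT : p • T = 0) :
    σ (c S T / c T S) = c (ρ S) (ρ T) / c (ρ T) (ρ S) := by
  have hr : ∀ T : M, p • T = 0 → p • ρ T = 0 := fun T hT => by rw [← map_nsmul, hT, map_zero]
  have hd : ∀ T : M, p • T = 0 → ∃ d : K, d ≠ 0 ∧ g (f T) = algebraMap K F d * f (ρ T) :=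
    fun T hT => same_Weil H ((map_ne_zero _).2 (H.f0 T hT)) (H.f0 _ (hr T hT)) fun Q => by
      obtain ⟨Q, rfl⟩ := hρ.2 Q
      rw [og, H.fo T hT, H.fo _ (hr T hT)]
      have e1 : (ρ Q = 0) = (Q = 0) := propext (map_eq_zero_iff ρ hρ.1)
      have e2 : (ρ Q = -ρ T) = (Q = -T) := by rw [← map_neg]; exact propext hρ.1.eq_iff
      simp only [e1, e2]
  obtain ⟨a, ha, ea⟩ := hd S hS
  obtain ⟨b, hb, eb⟩ := hd T hT
  obtain ⟨d, hd0, ed⟩ := hd _ (tor_add_Weil hS hT)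
  have key : ∀ {S T : M} {a b : K}, p • S = 0 → p • T = 0 →
      g (f S) = algebraMap K F a * f (ρ S) → g (f T) = algebraMap K F b * f (ρ T) →
      g (f (S + T)) = algebraMap K F d * f (ρ (S + T)) →
      σ (c S T) * d = a * b * c (ρ S) (ρ T) := by
    intro S T a b hS hT ea eb ed
    have h1 := congrArg g (hc S T hS hT).2
    rw [map_mul, map_mul, gt, gc, ea, eb, ed, map_mul, H.tc, mul_mul_mul_comm,
      (hc _ _ (hr S hS) (hr T hT)).2, map_add, ← mul_assoc, ← mul_assoc, ← map_mul, ← map_mul,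
      ← map_mul] at h1
    exact ((algebraMap K F).injective
      (mul_right_cancel₀ (H.f0 _ (tor_add_Weil (hr S hS) (hr T hT))) h1)).symm
  have k1 := key hS hT ea eb ed
  have k2 := key hT hS eb ea (by rw [add_comm T S]; exact ed)
  have n1 : σ (c T S) ≠ 0 := (map_ne_zero _).2 (hc T S hT hS).1
  rw [map_div₀, div_eq_div_iff n1 (hc _ _ (hr T hT) (hr S hS)).1]
  apply mul_left_cancel₀ (mul_ne_zero hd0 (mul_ne_zero ha hb))
  linear_combination (a * b * c (ρ T) (ρ S)) * k1 - (a * b * c (ρ S) (ρ T)) * k2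

/-- twisted translation -/
def op_Weil (H : Ab_Weil K p τ o f) (S : M) : Module.End K F where
  toFun h := f S * τ S h
  map_add' x y := by rw [map_add, mul_add]
  map_smul' a x := by
    rw [RingHom.id_apply, Algebra.smul_def, Algebra.smul_def, map_mul, H.tc, mul_left_comm]

theorem op_apply_Weil (H : Ab_Weil K p τ o f) (S : M) (h : F) : op_Weil H S h = f S * τ S h := rfl

theorem inv_Weil (H : Ab_Weil K p τ o f) {S : M} (hS : p • S = 0) {h : F} (h0 : h ≠ 0) {μ : K}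
    (he : op_Weil H S h = μ • h) (X : M) :
    o (X + S) h + (if X + S = 0 then (p : ℤ) else 0) = o X h + if X = 0 then (p : ℤ) else 0 := by
  rw [op_apply_Weil, Algebra.smul_def] at he
  have h1 : τ S h ≠ 0 := (map_ne_zero _).2 h0
  have h2 : algebraMap K F μ ≠ 0 := fun e => by
    rw [e, zero_mul] at he
    exact mul_ne_zero (H.f0 S hS) h1 he
  have h3 := congrArg (o X) he
  rw [H.omul _ _ _ (H.f0 S hS) h1, H.omul _ _ _ h2 h0, H.ot, H.oc, H.fo S hS] at h3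
  have e1 : (X + S = 0) = (X = -S) := propext add_eq_zero_iff_eq_neg
  simp only [e1]
  linarith

theorem nd_Weil [IsAlgClosed K] (H : Ab_Weil K p τ o f) (hc : ∀ S T, p • S = 0 → p • T = 0 →
    c S T ≠ 0 ∧ f S * τ S (f T) = algebraMap K F (c S T) * f (S + T)) (hp : p.Prime)
    (hcard : Nat.card {P : M // p • P = 0} = p ^ 2) {T : M} (hT : p • T = 0)
    (h1 : ∀ S, p • S = 0 → c S T / c T S = 1) : T = 0 := by
  by_contra hT0
  have := Fact.mk hp
  let E : AddSubgroup M := (nsmulAddMonoidHom p : M →+ M).ker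
  have hE : Nat.card E = p ^ 2 := hcard
  have hfin : Finite E := Nat.finite_of_card_ne_zero (hE ▸ pow_ne_zero 2 hp.ne_zero)
  have hZ : Nat.card (AddSubgroup.zmultiples T) = p := by
    rw [Nat.card_zmultiples, addOrderOf_eq_prime hT hT0]
  have hlt : p < p ^ 2 := by nlinarith [hp.two_le]
  obtain ⟨Q, hQ, hQZ⟩ : ∃ Q ∈ E, Q ∉ AddSubgroup.zmultiples T := by
    by_contra hcon
    push Not at hcon
    have := Nat.le_of_dvd (hZ.symm ▸ hp.pos) (AddSubgroup.card_dvd_of_le (H := E) hcon)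
    omega
  have hQ' : p • Q = 0 := hQ
  let V : Submodule K F := Submodule.span K (f '' (E : Set M))
  have : FiniteDimensional K V :=
    FiniteDimensional.span_of_finite K ((Set.toFinite (E : Set M)).image f)
  have hV : V ≠ ⊥ := (Submodule.ne_bot_iff _).2
    ⟨f T, Submodule.subset_span ⟨T, hT, rfl⟩, H.f0 T hT⟩
  have hinv : ∀ S, p • S = 0 → ∀ v ∈ V, op_Weil H S v ∈ V := fun S hS v hv => by
    refine Submodule.span_le (p := V.comap (op_Weil H S)).2 ?_ hv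
    rintro _ ⟨U, hU, rfl⟩
    show op_Weil H S (f U) ∈ V
    rw [op_apply_Weil, (hc S U hS hU).2, ← Algebra.smul_def]
    exact V.smul_mem _ (Submodule.subset_span ⟨S + U, tor_add_Weil hS hU, rfl⟩)
  have hcomm : ∀ v, op_Weil H T (op_Weil H Q v) = op_Weil H Q (op_Weil H T v) := fun v => by
    have e1 : c Q T = c T Q := (div_eq_one_iff_eq (hc T Q hT hQ').1).1 (h1 Q hQ')
    simp only [op_apply_Weil, map_mul, ← mul_assoc, ← H.tadd]
    rw [(hc T Q hT hQ').2, (hc Q T hQ' hT).2, e1, add_comm Q T]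
  obtain ⟨μ, μ', h, h0, e1, e2⟩ := eig2_Weil V hV _ _ (hinv T hT) (hinv Q hQ') hcomm
  let d : M → ℤ := fun X => o X h + if X = 0 then (p : ℤ) else 0
  let L : AddSubgroup M :=
    { carrier := {S | p • S = 0 ∧ ∀ X, d (X + S) = d X}
      add_mem' := fun ha hb => ⟨tor_add_Weil ha.1 hb.1, fun X => by rw [← add_assoc, hb.2, ha.2]⟩
      zero_mem' := ⟨nsmul_zero _, fun X => by rw [add_zero]⟩
      neg_mem' := fun {a} ha => ⟨by rw [neg_nsmul, ha.1, neg_zero], fun X => by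
        rw [← ha.2 (X + -a), neg_add_cancel_right]⟩ }
  have hLE : L ≤ E := fun S hS => hS.1
  have : Finite L := Finite.of_injective _ (AddSubgroup.inclusion_injective hLE)
  have hZL : AddSubgroup.zmultiples T ≤ L :=
    AddSubgroup.zmultiples_le_of_mem ⟨hT, inv_Weil H hT h0 e1⟩
  have hQL : Q ∈ L := ⟨hQ', inv_Weil H hQ' h0 e2⟩
  have hL : Nat.card L = p ^ 2 := by
    obtain ⟨k, hk, ek⟩ := (Nat.dvd_prime_pow hp).1 (hE ▸ AddSubgroup.card_dvd_of_le hLE)
    by_contra hne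
    have h3 : k ≤ 1 := by
      by_contra h4
      exact hne (by rw [ek, show k = 2 by omega])
    have h5 : Nat.card L ≤ p := by
      rw [ek]
      exact (Nat.pow_le_pow_right hp.pos h3).trans (pow_one p).le
    exact hQZ (AddSubgroup.eq_of_le_of_card_ge hZL (hZ.symm ▸ h5) ▸ hQL)
  obtain ⟨s, hs, hsum⟩ := H.deg h h0
  have h6 := dvd_sum_Weil L d (fun S hS => hS.2) (insert 0 s) fun X hX => by
    rw [Finset.mem_insert, not_or] at hX
    simp only [d, hs X hX.2, if_neg hX.1, add_zero]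
  simp only [d] at h6
  rw [Finset.sum_add_distrib, Finset.sum_insert_of_eq_zero_if_notMem (hs 0), hsum,
    Finset.sum_ite_eq', if_pos (Finset.mem_insert_self _ _), zero_add, hL] at h6
  have h7 := Nat.le_of_dvd hp.pos (Int.natCast_dvd_natCast.1 h6)
  omega

end abstract

theorem weil_st (h : ORD_st) : WEIL_st := by
  intro W _ p hp h2
  obtain ⟨F, _, _, τ, g, o, O⟩ := h W
  have hf : ∀ T : Pts W Qb, ∃ f : F, p • T = 0 → f ≠ 0 ∧ ∀ Q,
      o Q f = (if Q = -T then (p : ℤ) else 0) - if Q = 0 then (p : ℤ) else 0 := by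
    intro T
    by_cases hT : p • T = 0
    · obtain ⟨f, hf⟩ := O.ex p (-T) (hp.odd_of_ne_two h2) (by rw [neg_nsmul, hT, neg_zero])
      exact ⟨f, fun _ => hf⟩
    · exact ⟨0, fun h => absurd h hT⟩
  choose f hf using hf
  have H : Ab_Weil Qb p τ o f := ⟨O.tadd, O.tc, O.omul, O.ot, O.oc, O.cst, O.deg,
    fun T hT => (hf T hT).1, fun T hT => (hf T hT).2⟩
  obtain ⟨c, hc⟩ := c_ex_Weil H
  have : (W.baseChange Qb).IsElliptic := inferInstanceAs (W.map (algebraMap ℚ Qb)).IsElliptic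
  refine ⟨fun S T => c S T / c T S, fun S S' T hS hS' hT => addl_Weil H hc hS hS' hT,
    fun S T T' hS hT hT' => ?_, fun T hT => div_self (hc T T hT hT).1,
    fun T hT h1 => nd_Weil H hc hp (tors_card (W.baseChange Qb) hp h2) hT h1,
    fun σ S T hS hT => ?_⟩
  · have := congrArg (fun x => x⁻¹) (addl_Weil H hc hT hT' hS)
    simpa only [mul_inv, inv_div] using this
  · refine eqv_Weil H hc (σ : Qb →+* Qb) (galQ W σ) ?_ (g σ) (O.gc σ) (O.gt σ) (O.og σ) hS hT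
    exact Function.bijective_iff_has_inverse.2 ⟨galQ W σ⁻¹,
      fun P => by rw [← gal_mul, inv_mul_cancel, gal_one],
      fun P => by rw [← gal_mul, mul_inv_cancel, gal_one]⟩

end Pool.Agent.MP_e23604_nt.L

end
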