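import Pool.Agent.Mg.Fe23604m.G0a5d16
import Pool.Agent.Mg.Fe23604m.G824365
import Mathlib
import Pool.Agent.MP_e23604_nt.S.Res

set_option linter.all false

section

set_option autoImplicit false

open Module Filter Topology Finset
open scoped Classical

namespace Pool.Agent.MP_e23604_nt.R

open B
open Q (Wn dig CmI Cm0 Pre A1 Eta Jm scf St Cork Fg IdxQ basQ levQ)

section abstract

open L

variable {K M F : Type} [Field K] [AddCommGroup M] [DecidableEq M] [Field F] [Algebra K F]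
  {p : ℕ} {τ : M → F →+* F} {o : M → F → ℤ} {f : M → F} {c : M → M → K}

theorem nd_EWEIL [IsAlgClosed K] (H : Ab_Weil K p τ o f) (hc : ∀ S T, p • S = 0 → p • T = 0 →
    c S T ≠ 0 ∧ f S * τ S (f T) = algebraMap K F (c S T) * f (S + T)) (hp : 0 < p)
    (hfin : Finite (tor M p)) {T Q : M} (hT : p • T = 0) (hQ : addOrderOf Q = p)
    (h1 : c Q T / c T Q = 1) : T ∈ AddSubgroup.zmultiples Q := by
  have hQ' : p • Q = 0 := hQ ▸ addOrderOf_nsmul_eq_zero Q
  let V : Submodule K F := Submodule.span K (f '' (tor M p : Set M))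
  have : FiniteDimensional K V :=
    FiniteDimensional.span_of_finite K ((Set.toFinite (tor M p : Set M)).image f)
  have hV : V ≠ ⊥ := (Submodule.ne_bot_iff _).2
    ⟨f T, Submodule.subset_span ⟨T, hT, rfl⟩, H.f0 T hT⟩
  have hinv : ∀ S, p • S = 0 → ∀ v ∈ V, op_Weil H S v ∈ V := fun S hS v hv => by
    refine Submodule.span_le (p := V.comap (op_Weil H S)).2 ?_ hv
    rintro _ ⟨U, hU, rfl⟩
    show op_Weil H S (f U) ∈ V
    rw [op_apply_Weil, (hc S U hS hU).2, ← Algebra.smul_def]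
    exact V.smul_mem _ (Submodule.subset_span ⟨S + U, tor_add_Weil hS hU, rfl⟩)
  have hcomm : ∀ v, op_Weil H T (op_Weil H Q v) = op_Weil H Q (op_Weil H T v) := fun v => by
    have e1 : c Q T = c T Q := (div_eq_one_iff_eq (hc T Q hT hQ').1).1 h1
    simp only [op_apply_Weil, map_mul, ← mul_assoc, ← H.tadd]
    rw [(hc T Q hT hQ').2, (hc Q T hQ' hT).2, e1, add_comm Q T]
  obtain ⟨μ, μ', h, h0, e1, e2⟩ := eig2_Weil V hV _ _ (hinv T hT) (hinv Q hQ') hcomm
  let d : M → ℤ := fun X => o X h + if X = 0 then (p : ℤ) else 0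
  let L : AddSubgroup M :=
    { carrier := {S | p • S = 0 ∧ ∀ X, d (X + S) = d X}
      add_mem' := fun ha hb => ⟨tor_add_Weil ha.1 hb.1, fun X => by rw [← add_assoc, hb.2, ha.2]⟩
      zero_mem' := ⟨nsmul_zero _, fun X => by rw [add_zero]⟩
      neg_mem' := fun {a} ha => ⟨by rw [neg_nsmul, ha.1, neg_zero], fun X => by
        rw [← ha.2 (X + -a), neg_add_cancel_right]⟩ }
  have hLE : L ≤ tor M p := fun S hS => hS.1
  have : Finite L := Finite.of_injective _ (AddSubgroup.inclusion_injective hLE)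
  have hZL : AddSubgroup.zmultiples Q ≤ L :=
    AddSubgroup.zmultiples_le_of_mem ⟨hQ', inv_Weil H hQ' h0 e2⟩
  have hTL : T ∈ L := ⟨hT, inv_Weil H hT h0 e1⟩
  obtain ⟨s, hs, hsum⟩ := H.deg h h0
  have h6 := dvd_sum_Weil L d (fun S hS => hS.2) (insert 0 s) fun X hX => by
    rw [Finset.mem_insert, not_or] at hX
    simp only [d, hs X hX.2, if_neg hX.1, add_zero]
  simp only [d] at h6
  rw [Finset.sum_add_distrib, Finset.sum_insert_of_eq_zero_if_notMem (hs 0), hsum,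
    Finset.sum_ite_eq', if_pos (Finset.mem_insert_self _ _), zero_add] at h6
  have h7 := Nat.le_of_dvd hp (Int.natCast_dvd_natCast.1 h6)
  have hZ : Nat.card (AddSubgroup.zmultiples Q) = p := by rw [Nat.card_zmultiples, hQ]
  rw [AddSubgroup.eq_of_le_of_card_ge hZL (hZ.symm ▸ h7)]
  exact hTL

omit [DecidableEq M] in
theorem two_EWEIL (k : ℕ) {x : M} (hx : 2 ^ k • x = 0) (h0 : x ≠ 0) :
    ∃ j : ℕ, j • x ≠ 0 ∧ 2 • j • x = 0 := by
  induction k with
  | zero => exact absurd (by simpa using hx) h0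
  | succ k ih =>
    by_cases h : 2 ^ k • x = 0
    · exact ih h
    · exact ⟨2 ^ k, h, by rw [← mul_smul, ← pow_succ', hx]⟩

omit [DecidableEq M] in
theorem half_EWEIL (hd : ∀ P : M, ∃ P' : M, 2 • P' = P) (k : ℕ) (P : M) :
    ∃ Q : M, 2 ^ k • Q = P := by
  induction k with
  | zero => exact ⟨P, by simp⟩
  | succ k ih =>
    obtain ⟨Q, rfl⟩ := ih
    obtain ⟨Q', rfl⟩ := hd Q
    exact ⟨Q', by rw [pow_succ, mul_smul]⟩

omit [DecidableEq M] in
theorem cyc_EWEIL {k : ℕ} {T Q : M} (hQ : addOrderOf Q = 2 ^ (k + 1))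
    (hT : T ∈ AddSubgroup.zmultiples Q) (h2 : 2 • T = 0) : T = 0 ∨ T = 2 ^ k • Q := by
  obtain ⟨m, rfl⟩ := AddSubgroup.mem_zmultiples_iff.1 hT
  have h3 : (2 * m) • Q = 0 := by
    rw [mul_smul]
    exact_mod_cast h2
  have h4 := addOrderOf_dvd_iff_zsmul_eq_zero.2 h3
  rw [hQ, pow_succ'] at h4
  push_cast at h4
  obtain ⟨r, rfl⟩ := (mul_dvd_mul_iff_left (two_ne_zero : (2 : ℤ) ≠ 0)).1 h4
  have h5 : ((2 : ℤ) ^ k) • Q = 2 ^ k • Q := by exact_mod_cast natCast_zsmul Q (2 ^ k)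
  have h6 : (2 : ℤ) • (2 ^ k • Q) = 0 := by
    have := addOrderOf_nsmul_eq_zero Q
    rw [hQ, pow_succ', mul_smul] at this
    exact_mod_cast this
  rw [mul_comm, mul_smul, h5]
  rcases Int.even_or_odd' r with ⟨t, rfl | rfl⟩
  · left
    rw [mul_comm, mul_smul, h6, smul_zero]
  · right
    rw [add_smul, mul_comm, mul_smul, h6, smul_zero, zero_add, one_smul]

end abstract

theorem WEIL_pf (hFNX : FNX_st) : WEIL_st := by
  intro A _ F _ _ η τ g o O hd K hT' hfin
  have hf : ∀ T : A, ∃ f : F, 2 ^ K • T = 0 → f ≠ 0 ∧ ∀ Q,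
      o Q f = (if Q = -T then ((2 ^ K : ℕ) : ℤ) else 0) -
        if Q = 0 then ((2 ^ K : ℕ) : ℤ) else 0 := by
    intro T
    obtain ⟨f, h0, hf⟩ := hFNX A F η τ g o O hd (2 ^ K) (-T)
    refine ⟨f, fun hT => ⟨h0, fun Q => ?_⟩⟩
    rw [hf, neg_nsmul, hT, neg_zero]
    split_ifs <;> ring
  choose f hf using hf
  have H : L.Ab_Weil Qb (2 ^ K) τ o f := ⟨O.tadd, O.tc, O.omul, O.ot, O.oc, O.cst, O.deg,
    fun T hT => (hf T hT).1, fun T hT => (hf T hT).2⟩
  obtain ⟨c, hc⟩ := L.c_ex_Weil H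
  have hne : ∀ S T, 2 ^ K • S = 0 → 2 ^ K • T = 0 → c S T / c T S ≠ 0 := fun S T hS hT =>
    div_ne_zero (hc S T hS hT).1 (hc T S hT hS).1
  refine ⟨fun S T => c S T / c T S, ⟨⟨fun S hS S' hS' T hT => L.addl_Weil H hc hS hS' hT,
    fun S hS T hT T' hT' => ?_, fun S hS T hT => ?_⟩, fun T hT => div_self (hc T T hT hT).1,
    fun x hx h1 => ?_⟩, fun S T u u' hu hu' hS hT => ?_, fun σ S hS T hT => ?_⟩
  · have := congrArg (fun x => x⁻¹) (L.addl_Weil H hc hT hT' hS)
    simpa only [mul_inv, inv_div] using this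
  · have h0 : c 0 T / c T 0 = 1 := by
      have := L.addl_Weil H hc (nsmul_zero _) (nsmul_zero _) hT
      rw [add_zero] at this
      exact (mul_eq_left₀ (hne 0 T (nsmul_zero _) hT)).1 this.symm
    have key : ∀ j : ℕ, (c S T / c T S) ^ j = c (j • S) T / c T (j • S) := by
      intro j
      induction j with
      | zero => rw [pow_zero, zero_smul, h0]
      | succ j ih =>
        rw [pow_succ, ih, succ_nsmul, L.addl_Weil H hc (mem_tor.1 (nsmul_mem hS j)) hS hT]
    show (c S T / c T S) ^ 2 ^ K = 1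
    rw [key, mem_tor.1 hS, h0]
  · by_contra hx0
    obtain ⟨j, hj0, hj2⟩ := two_EWEIL K (mem_tor.1 hx) hx0
    obtain ⟨T', h2, h0, hne'⟩ := hT' (j • x)
    cases K with
    | zero => exact hx0 (by simpa using mem_tor.1 hx)
    | succ k =>
      obtain ⟨Q, rfl⟩ := half_EWEIL hd k T'
      have hQ2 : 2 ^ (k + 1) • Q = 0 := by rw [pow_succ', mul_smul, h2]
      have hQ : addOrderOf Q = 2 ^ (k + 1) := addOrderOf_eq_prime_pow h0 hQ2
      have h3 := nd_EWEIL H hc (by positivity) hfin (mem_tor.1 hx) hQ (h1 Q hQ2)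
      rcases cyc_EWEIL hQ (nsmul_mem h3 j) hj2 with e | e
      · exact hj0 e
      · exact hne' e.symm
  · obtain ⟨a, -, rfl⟩ := L.same_Weil H hu.1 (hf S hS).1 fun Q => by rw [hu.2, (hf S hS).2]
    obtain ⟨b, -, rfl⟩ := L.same_Weil H hu'.1 (hf T hT).1 fun Q => by rw [hu'.2, (hf T hT).2]
    have n1 : algebraMap Qb F (c T S) ≠ 0 := (map_ne_zero _).2 (hc T S hT hS).1
    rw [map_mul, map_mul, O.tc, O.tc, mul_mul_mul_comm, (hc S T hS hT).2,
      mul_mul_mul_comm _ (f T), (hc T S hT hS).2, add_comm T S, map_div₀]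
    field_simp
  · refine L.eqv_Weil H hc (σ : Qb →+* Qb) (η σ).toAddEquiv.toAddMonoidHom (η σ).bijective (g σ)
      (O.gc σ) (O.gt σ) (O.og σ) hS hT

end Pool.Agent.MP_e23604_nt.R

end

section

set_option autoImplicit false

open Module Filter Topology Finset
open scoped Classical

namespace Pool.Agent.MP_e23604_nt.R

open B
open Q (Wn dig CmI Cm0 Pre A1 Eta Jm scf St Cork Fg IdxQ basQ levQ)

section aux

variable {A : Type} [AddCommGroup A] {F : Type} [Field F] [Algebra Qb F] {η : Act A}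
  {τ : A → F →+* F} {G : GQ → F →+* F} {o : A → F → ℤ}

theorem odiv_ISO (h : Th η τ G o) (Q : A) {f f' : F} (hf : f ≠ 0) (hf' : f' ≠ 0) :
    o Q (f / f') = o Q f - o Q f' := by
  have := h.omul Q (f / f') f' (div_ne_zero hf hf') hf'
  rw [div_mul_cancel₀ _ hf'] at this
  omega

theorem og_ISO (h : Th η τ G o) (σ : GQ) (Q : A) (f : F) :
    o Q (G σ f) = o ((η σ).symm Q) f := by
  rw [← h.og σ ((η σ).symm Q) f, LinearEquiv.apply_symm_apply]

theorem fn_act_ISO (h : Th η τ G o) (σ : GQ) {n : ℕ} {S : A} {f : F} (hf : Fn o n S f) :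
    Fn o n (η σ S) (G σ f) := by
  refine ⟨(map_ne_zero _).2 hf.1, fun Q => ?_⟩
  rw [og_ISO h, hf.2]
  simp only [LinearEquiv.symm_apply_eq, map_neg, map_zero]

theorem fn_mul_ISO (h : Th η τ G o) {n : ℕ} {S T : A} {f f' : F} (hf : Fn o n S f)
    (hf' : Fn o n T f') : Fn o n (S + T) (f' * τ T f) := by
  have h0 : τ T f ≠ 0 := (map_ne_zero _).2 hf.1
  refine ⟨mul_ne_zero hf'.1 h0, fun Q => ?_⟩
  have e1 : Q + T = -S ↔ Q = -(S + T) := by
    rw [neg_add, ← sub_eq_add_neg, eq_sub_iff_add_eq]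
  rw [h.omul Q _ _ hf'.1 h0, h.ot, hf.2, hf'.2]
  simp only [e1, add_eq_zero_iff_eq_neg]
  ring

theorem fn_uniq_ISO (h : Th η τ G o) {n : ℕ} {S : A} {f f' : F} (hf : Fn o n S f)
    (hf' : Fn o n S f') : ∃ c : Qb, algebraMap Qb F c * f' = f := by
  obtain ⟨c, hc⟩ := h.cst (f / f') (div_ne_zero hf.1 hf'.1) fun Q => by
    rw [odiv_ISO h Q hf.1 hf'.1, hf.2, hf'.2, sub_self]
  exact ⟨c, by rw [← hc, div_mul_cancel₀ _ hf'.1]⟩

theorem theta_ISO (h : Th η τ G o) {n : ℕ} {R : A} {l : F} (hl : l ≠ 0)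
    (ho : ∀ Q, o Q l = (if Q = -R then (n : ℤ) else 0) - (if Q = n • -R then 1 else 0) -
      if Q = 0 then (n : ℤ) - 1 else 0) :
    ∃ θ : GQ → F, Lc ⊤ θ ∧ (∀ g j, θ (g * j) = θ g * τ (dd η R g) (G g (θ j))) ∧
      ∀ g, dd η R g ∈ tor A n → Fn o n (dd η R g) (θ g) := by
  refine ⟨fun g => τ (-R) (G g l / l), (h.glc l).map fun x => τ (-R) (x / l), fun g j => ?_,
    fun g hg => ?_⟩
  · have h1 : G g l ≠ 0 := (map_ne_zero _).2 hl
    have e1 : dd η R g + η g (-R) = -R := by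
      rw [dd, map_neg]
      abel
    beta_reduce
    rw [h.gt, ← h.tadd, e1, ← map_mul, map_div₀ (G g), h.gmul]
    congr 1
    field_simp
  · have h1 : G g l ≠ 0 := (map_ne_zero _).2 hl
    refine ⟨(map_ne_zero _).2 (div_ne_zero h1 hl), fun Q => ?_⟩
    have e1 : η g (n • -R) = n • -R := by
      rw [mem_tor, dd, smul_sub, sub_eq_zero] at hg
      rw [map_nsmul, map_neg, smul_neg, smul_neg, hg]
    have e2 : Q + -R = -η g R ↔ Q = -dd η R g := by
      rw [dd, neg_sub, ← sub_eq_add_neg, sub_eq_iff_eq_add, neg_add_eq_sub]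
    have e3 : Q + -R = -R ↔ Q = 0 := add_eq_right
    rw [h.ot, odiv_ISO h _ h1 hl, og_ISO h, ho, ho]
    simp only [LinearEquiv.symm_apply_eq, e1, map_zero]
    simp only [map_neg, e2, e3]
    ring

end aux

theorem ISO_pf (hFNX : FNX_st) : ISO_st := by
  intro A _ F _ _ η τ G o h hd n e hη hW H R R' hR hR'
  obtain ⟨l, l0, l1⟩ := hFNX A F η τ G o h hd n (-R)
  obtain ⟨l', l0', l1'⟩ := hFNX A F η τ G o h hd n (-R')
  obtain ⟨l'', l0'', l1''⟩ := hFNX A F η τ G o h hd n (-(R + R'))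
  obtain ⟨θ, a1, a2, a3⟩ := theta_ISO h l0 l1
  obtain ⟨θ', b1, b2, b3⟩ := theta_ISO h l0' l1'
  obtain ⟨θ'', c1, c2, c3⟩ := theta_ISO h l0'' l1''
  have hs : ∀ g, dd η (R + R') g = dd η R g + dd η R' g := fun g => by
    simp only [dd, map_add]
    abel
  simp only [hs] at c2 c3
  let Φ : F × F → F × A → Qb := fun x y =>
    Classical.epsilon fun c => algebraMap Qb F c * y.1 = x.2 * τ (y.2 - R') x.1
  let β : GQ → Qb := fun g => Φ (θ g, θ' g) (θ'' g, η g R')
  have fc : ∀ g ∈ H, Fn o n (dd η R g + dd η R' g) (θ'' g) := fun g hg =>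
    c3 g (add_mem (hR g hg) (hR' g hg))
  have fm : ∀ g ∈ H, Fn o n (dd η R g + dd η R' g) (θ' g * τ (dd η R' g) (θ g)) := fun g hg =>
    fn_mul_ISO h (a3 g (hR g hg)) (b3 g (hR' g hg))
  have hβ : ∀ g ∈ H, algebraMap Qb F (β g) * θ'' g = θ' g * τ (dd η R' g) (θ g) := fun g hg =>
    Classical.epsilon_spec (fn_uniq_ISO h (fm g hg) (fc g hg))
  have hL : Lc ⊤ β := (a1.map₂ b1 Prod.mk).map₂ (c1.map₂ (hη R') Prod.mk) Φ
  refine cob_of_lc (hL.mono le_top) (fun g hg h0 => ?_) fun g hg j hj => ?_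
  · have := hβ g hg
    rw [h0, map_zero, zero_mul] at this
    exact (fm g hg).1 this.symm
  · have t1 : n • η g (dd η R' j) = 0 := by rw [← map_nsmul, mem_tor.1 (hR' j hj), map_zero]
    have w := congrArg (τ (dd η R' g)) (hW _ _ _ _ (a3 g (hR g hg))
      (fn_act_ISO h g (b3 j (hR' j hj))) (hR g hg) t1)
    have e1 := hβ g hg
    have e2 := congrArg (fun x => τ (dd η R g + dd η R' g) (G g x)) (hβ j hj)
    have e3 := hβ (g * j) (H.mul_mem hg hj)
    have n3 := (fc (g * j) (H.mul_mem hg hj)).1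
    rw [a2, b2, dd_coc η R'] at e3
    simp only [map_mul, h.tc, h.gc, h.gt, ← h.tadd] at w e2 e3
    rw [add_comm (dd η R' g)] at w
    rw [add_comm _ (dd η R g), ← add_assoc] at e3
    apply (algebraMap Qb F).injective
    refine mul_right_cancel₀ n3 ?_
    rw [map_mul, map_mul, mul_assoc (algebraMap Qb F (cup _ _ _ _ _ _)), e3, c2, cup]
    linear_combination (algebraMap Qb F (g (β j)) * τ (dd η R g + dd η R' g) (G g (θ'' j))) * e1 +
      (θ' g * τ (dd η R' g) (θ g)) * e2 +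
      (θ' g * τ (dd η R g + dd η R' g + η g (dd η R' j)) (G g (θ j))) * w

end Pool.Agent.MP_e23604_nt.R

end

section

/-! The parity takes each value for half of the integers. -/

namespace Pool.Agent.MP_e23604_nt.S

open Finset Filter
open scoped Topology

/-- no high power of a small prime and no square of a large prime -/
def GoodH (N D : ℕ) : Prop :=
  ∀ l, l.Prime → (l ≤ N → ¬ l ^ (2 * N) ∣ D) ∧ (N < l → ¬ l ^ 2 ∣ D)

theorem sgn_H (D : ℕ) (hD : D ≠ 0) :
    ((D / 3 ^ D.factorization 3 : ℕ) : ZMod 3) =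
      (-1) ^ (∑ l ∈ D.primeFactors with l % 3 = 2, D.factorization l) := by
  have h1 : D / 3 ^ D.factorization 3 = ∏ l ∈ D.primeFactors.erase 3, l ^ D.factorization l := by
    refine Nat.div_eq_of_eq_mul_right (by positivity) ?_
    conv_lhs => rw [← Nat.prod_factorization_pow_eq_self hD]
    rw [Finsupp.prod, Nat.support_factorization]
    by_cases h : 3 ∈ D.primeFactors
    · exact (mul_prod_erase _ (fun l => l ^ D.factorization l) h).symm
    · rw [erase_eq_of_notMem h, Finsupp.notMem_support_iff.1 (by simpa using h), pow_zero, one_mul]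
  rw [h1, Nat.cast_prod, ← prod_pow_eq_pow_sum, prod_filter, ← prod_erase (s := D.primeFactors)
    (a := 3) (f := fun l => if l % 3 = 2 then (-1 : ZMod 3) ^ D.factorization l else 1) (by simp)]
  refine prod_congr rfl fun l hl => ?_
  have hp := Nat.prime_of_mem_primeFactors (mem_of_mem_erase hl)
  have h3 : l % 3 ≠ 0 := fun h => ne_of_mem_erase hl
    ((Nat.prime_dvd_prime_iff_eq Nat.prime_three hp).1 (Nat.dvd_of_mod_eq_zero h)).symm
  rw [Nat.cast_pow, ← ZMod.natCast_mod l 3]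
  split_ifs with h
  · rw [h]; rfl
  · have : l % 3 = 1 := by omega
    rw [this]; simp

theorem cnt_H {N D : ℕ} (hD : D ≠ 0) (hg : GoodH N D) :
    ((D.primeFactors.filter fun l => l % 3 = 2 ∧ ¬ 3 ∣ D.factorization l).card +
      ∑ l ∈ D.primeFactors with l % 3 = 2, D.factorization l) % 2 =
    (∑ l ∈ range (N + 1) with l.Prime ∧ l % 3 = 2,
      ((if 3 ∣ D.factorization l then 0 else 1) + D.factorization l)) % 2 := by
  rw [← filter_filter, card_filter, ← sum_add_distrib, sum_nat_mod, sum_nat_mod (range (N + 1) |>.filter _)]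
  congr 1
  have e : ∀ l, (if ¬ 3 ∣ D.factorization l then 1 else 0) =
      (if 3 ∣ D.factorization l then 0 else 1) := fun l => by split_ifs <;> simp_all
  simp only [e]
  refine sum_congr_of_eq_on_inter (fun l h1 h2 => ?_) (fun l h1 h2 => ?_) fun _ _ _ => rfl
  · obtain ⟨h3, h4⟩ := mem_filter.1 h1
    have hp := Nat.prime_of_mem_primeFactors h3
    have h5 : N < l := by
      by_contra h
      exact h2 (mem_filter.2 ⟨mem_range.2 (by omega), hp, h4⟩)
    have h6 := (hg l hp).2 h5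
    rw [hp.pow_dvd_iff_le_factorization hD] at h6
    have h7 := hp.factorization_pos_of_dvd hD (Nat.dvd_of_mem_primeFactors h3)
    have : D.factorization l = 1 := by omega
    rw [this]; rfl
  · obtain ⟨-, hp, h4⟩ := mem_filter.1 h1
    have : D.factorization l = 0 := by
      by_contra h
      exact h2 (mem_filter.2 ⟨by rwa [← Nat.support_factorization, Finsupp.mem_support_iff], h4⟩)
    rw [this]; rfl

theorem val_H {l k D D' : ℕ} (hl : l.Prime) (hD : D ≠ 0) (hD' : D' ≠ 0) (h : l ^ k ∣ D + D')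
    (h1 : ¬ l ^ k ∣ D) : D.factorization l = D'.factorization l := by
  have h2 : ¬ l ^ k ∣ D' := fun h2 => h1 ((Nat.dvd_add_left h2).1 h)
  rw [hl.pow_dvd_iff_le_factorization hD] at h1
  rw [hl.pow_dvd_iff_le_factorization hD'] at h2
  refine le_antisymm ?_ ?_
  · rw [← hl.pow_dvd_iff_le_factorization hD']
    exact (Nat.dvd_add_right (Nat.ordProj_dvd D l)).1 ((pow_dvd_pow l (by omega)).trans h)
  · rw [← hl.pow_dvd_iff_le_factorization hD]
    exact (Nat.dvd_add_left (Nat.ordProj_dvd D' l)).1 ((pow_dvd_pow l (by omega)).trans h)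

theorem flip_H {N D D' : ℕ} (hN : 3 ≤ N) (hD : D ≠ 0) (hD' : D' ≠ 0) (hg : GoodH N D)
    (hg' : GoodH N D') (h : N.factorial ^ (2 * N + 2) ∣ D + D') : par3 D + par3 D' = 1 := by
  have hv : ∀ l, l.Prime → l ≤ N → l ^ (2 * N + 2) ∣ D + D' := fun l hl h1 =>
    (pow_dvd_pow_of_dvd (Nat.dvd_factorial hl.pos h1) _).trans h
  have he : ∀ l, l.Prime → l ≤ N → D.factorization l = D'.factorization l := fun l hl h1 =>
    val_H hl hD hD' ((pow_dvd_pow l (by omega)).trans (hv l hl h1)) ((hg l hl).1 h1)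
  have c1 := cnt_H hD hg
  have c2 := cnt_H hD' hg'
  have c3 : ∑ l ∈ range (N + 1) with l.Prime ∧ l % 3 = 2,
      ((if 3 ∣ D'.factorization l then 0 else 1) + D'.factorization l) =
      ∑ l ∈ range (N + 1) with l.Prime ∧ l % 3 = 2,
      ((if 3 ∣ D.factorization l then 0 else 1) + D.factorization l) :=
    sum_congr rfl fun l hl => by
      rw [he l (mem_filter.1 hl).2.1 (by have := mem_range.1 (mem_filter.1 hl).1; omega)]
  rw [c3] at c2
  have s1 := sgn_H D hD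
  have s2 := sgn_H D' hD'
  have e3 := he 3 Nat.prime_three hN
  have a3 : D.factorization 3 < 2 * N := by
    have := (hg 3 Nat.prime_three).1 hN
    rw [Nat.prime_three.pow_dvd_iff_le_factorization hD] at this
    omega
  obtain ⟨u, hu⟩ := Nat.ordProj_dvd D 3
  obtain ⟨u', hu'⟩ := Nat.ordProj_dvd D' 3
  unfold par3
  rw [← e3] at s2 hu' ⊢
  generalize D.factorization 3 = a at *
  have h9 : 9 ∣ u + u' := by
    have h4 := (pow_dvd_pow 3 (show a + 2 ≤ 2 * N + 2 by omega)).trans (hv 3 Nat.prime_three hN)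
    rw [hu, hu', ← mul_add, pow_add] at h4
    exact Nat.dvd_of_mul_dvd_mul_left (by positivity) h4
  have d1 : ∀ w : ℕ, 3 ^ a * w / 27 ^ (a / 3) = 3 ^ (a % 3) * w := fun w => by
    refine Nat.div_eq_of_eq_mul_right (by positivity) ?_
    rw [← mul_assoc, show 27 = 3 ^ 3 from rfl, ← pow_mul, ← pow_add, Nat.div_add_mod]
  have d2 : D / 27 ^ (a / 3) = 3 ^ (a % 3) * u := by rw [← d1, ← hu]
  have d3 : D' / 27 ^ (a / 3) = 3 ^ (a % 3) * u' := by rw [← d1, ← hu']
  have d4 : D / 3 ^ a = u := by rw [hu]; exact Nat.mul_div_cancel_left _ (by positivity)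
  have d5 : D' / 3 ^ a = u' := by rw [hu']; exact Nat.mul_div_cancel_left _ (by positivity)
  rw [d4] at s1
  rw [d5] at s2
  have h10 : 9 ∣ 3 ^ (a % 3) * u + 3 ^ (a % 3) * u' := by rw [← mul_add]; exact h9.mul_left _
  rw [d2, d3]
  generalize 3 ^ (a % 3) * u = x at *
  generalize 3 ^ (a % 3) * u' = x' at *
  have h11 : (x % 9 ∈ ({1, 3, 6, 8} : Finset ℕ)) ↔ (x' % 9 ∈ ({1, 3, 6, 8} : Finset ℕ)) := by
    simp only [mem_insert, mem_singleton]
    omega
  have h12 : ((u + u' : ℕ) : ZMod 3) = 0 :=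
    (ZMod.natCast_eq_zero_iff _ 3).2 (Dvd.dvd.trans (by norm_num) h9)
  rw [Nat.cast_add, s1, s2] at h12
  generalize (∑ l ∈ D.primeFactors with l % 3 = 2, D.factorization l) = s at *
  generalize (∑ l ∈ D'.primeFactors with l % 3 = 2, D'.factorization l) = s' at *
  have h13 : (s + s') % 2 = 1 := by
    rcases Nat.even_or_odd s with b1 | b1 <;> rcases Nat.even_or_odd s' with b2 | b2 <;>
      rw [b1.neg_one_pow, b2.neg_one_pow] at h12
    · exact absurd h12 (by decide)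
    · exact Nat.odd_iff.1 (b1.add_odd b2)
    · exact Nat.odd_iff.1 (b1.add_even b2)
    · exact absurd h12 (by decide)
  simp only [h11]
  split_ifs <;> omega

open Classical in
theorem bad_H {N : ℕ} (hN : 3 ≤ N) (Y : ℕ) :
    (((Ioc 0 Y).filter fun D => ¬ GoodH N D).card : ℝ) ≤ 2 * Y / N := by
  have hN0 : (0 : ℝ) < N := by exact_mod_cast (by omega : 0 < N)
  have h1 : ((Ioc 0 Y).filter fun D => ¬ GoodH N D) ⊆
      ((Ioc 1 N).biUnion fun l => (Ioc 0 Y).filter fun D => l ^ (2 * N) ∣ D) ∪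
      ((Ioc N (N + Y)).biUnion fun l => (Ioc 0 Y).filter fun D => l ^ 2 ∣ D) := by
    intro D hD
    obtain ⟨h2, h3⟩ := mem_filter.1 hD
    simp only [GoodH, not_forall, not_and_or, not_not, exists_prop] at h3
    obtain ⟨l, hl, h4 | h4⟩ := h3
    · exact mem_union_left _ (mem_biUnion.2 ⟨l, mem_Ioc.2 ⟨hl.one_lt, h4.1⟩,
        mem_filter.2 ⟨h2, h4.2⟩⟩)
    · have h5 := Nat.le_of_dvd (mem_Ioc.1 h2).1 ((dvd_pow_self l two_ne_zero).trans h4.2)
      exact mem_union_right _ (mem_biUnion.2 ⟨l, mem_Ioc.2 ⟨h4.1, by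
        have := (mem_Ioc.1 h2).2; omega⟩, mem_filter.2 ⟨h2, h4.2⟩⟩)
  have h2 := (card_le_card h1).trans ((card_union_le _ _).trans
    (add_le_add card_biUnion_le card_biUnion_le))
  simp only [Nat.Ioc_filter_dvd_card_eq_div] at h2
  have h3 : ((∑ l ∈ Ioc 1 N, Y / l ^ (2 * N) : ℕ) : ℝ) ≤ Y / N := by
    rw [Nat.cast_sum]
    refine (sum_le_card_nsmul _ _ ((Y : ℝ) / N ^ 2) fun l hl => ?_).trans ?_
    · refine Nat.cast_div_le.trans (div_le_div_of_nonneg_left (by positivity) (by positivity) ?_)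
      have h4 : N ^ 2 ≤ l ^ (2 * N) := by
        rw [mul_comm, pow_mul]
        exact Nat.pow_le_pow_left (Nat.lt_pow_self (mem_Ioc.1 hl).1).le 2
      exact_mod_cast h4
    · rw [Nat.card_Ioc, nsmul_eq_mul]
      have : ((N - 1 : ℕ) : ℝ) ≤ N := by exact_mod_cast Nat.sub_le N 1
      calc _ ≤ N * ((Y : ℝ) / N ^ 2) := by gcongr
        _ = _ := by field_simp
  have h4 : ((∑ l ∈ Ioc N (N + Y), Y / l ^ 2 : ℕ) : ℝ) ≤ Y / N := by
    rw [Nat.cast_sum]
    refine (sum_le_sum fun l _ => Nat.cast_div_le).trans ?_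
    simp only [div_eq_mul_inv, Nat.cast_pow]
    rw [← mul_sum]
    refine mul_le_mul_of_nonneg_left ((sum_Ioc_inv_sq_le_sub (by omega) (by omega)).trans
      (sub_le_self _ (by positivity))) (by positivity)
  have h5 : (((Ioc 0 Y).filter fun D => ¬ GoodH N D).card : ℝ) ≤
      ((∑ l ∈ Ioc 1 N, Y / l ^ (2 * N) : ℕ) : ℝ) + ((∑ l ∈ Ioc N (N + Y), Y / l ^ 2 : ℕ) : ℝ) := by
    exact_mod_cast h2
  refine (h5.trans (add_le_add h3 h4)).trans (le_of_eq ?_)
  ring

theorem par_le_H (D : ℕ) : par3 D ≤ 1 := by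
  unfold par3
  omega

theorem sum_H {r : ℕ} (hr : r ≤ 1) (X : ℕ) : ((Ioc 0 X).filter fun D => par3 D = r).card +
    ((Ioc 0 X).filter fun D => par3 D = 1 - r).card = X := by
  have h := card_filter_add_card_filter_not (s := Ioc 0 X) fun D => par3 D = r
  rw [Nat.card_Ioc, Nat.sub_zero] at h
  rw [← h]
  congr 2
  · rw [h]
  rw [h]
  exact filter_congr fun D _ => by have := par_le_H D; omega

theorem up_H {r N : ℕ} (hr : r ≤ 1) (hN : 3 ≤ N) (X : ℕ) :
    (((Ioc 0 X).filter fun D => par3 D = r).card : ℝ) ≤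
      X / 2 + 2 * X / N + (N.factorial ^ (2 * N + 2) + 1 : ℕ) := by
  classical
  have hN0 : (0 : ℝ) < N := by exact_mod_cast (by omega : 0 < N)
  obtain ⟨M, hM⟩ : ∃ M, M = N.factorial ^ (2 * N + 2) := ⟨_, rfl⟩
  have hM0 : 0 < M := hM ▸ pow_pos N.factorial_pos _
  obtain ⟨Y, hY⟩ : ∃ Y, Y = M * (X / M) := ⟨_, rfl⟩
  have h1 : Y ≤ X := hY ▸ Nat.mul_div_le X M
  have h2 : X < Y + M := by
    have := Nat.div_add_mod X M
    have := Nat.mod_lt X hM0
    omega
  have h3 : ((Ioc 0 X).filter fun D => par3 D = r) ⊆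
      ((Ioc 0 Y).filter fun D => par3 D = r) ∪ Ioc Y X := by
    intro D hD
    simp only [mem_filter, mem_Ioc, mem_union] at hD ⊢
    omega
  have h4 : ((Ioc 0 Y).filter fun D => par3 D = r) ⊆
      (((Ioc 0 Y).filter fun D => par3 D = 1 - r).image fun D => Y - D) ∪
      (((Ioc 0 Y).filter fun D => ¬ GoodH N D) ∪
      ((((Ioc 0 Y).filter fun D => ¬ GoodH N D).image fun D => Y - D) ∪ {Y})) := by
    intro D hD
    simp only [mem_filter, mem_Ioc, mem_union, mem_image, mem_singleton] at hD ⊢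
    by_cases a1 : D = Y
    · exact Or.inr (Or.inr (Or.inr a1))
    by_cases a2 : GoodH N D
    · by_cases a3 : GoodH N (Y - D)
      · have := flip_H hN (by omega) (by omega) a2 a3 (by
          rw [show D + (Y - D) = Y by omega, ← hM, hY]; exact Dvd.intro _ rfl)
        exact Or.inl ⟨Y - D, ⟨by omega, by omega⟩, by omega⟩
      · exact Or.inr (Or.inr (Or.inl ⟨Y - D, ⟨by omega, a3⟩, by omega⟩))
    · exact Or.inr (Or.inl ⟨hD.1, a2⟩)
  have h5 := (card_le_card h3).trans (card_union_le _ _)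
  have h6 := (card_le_card h4).trans ((card_union_le _ _).trans (add_le_add card_image_le
    ((card_union_le _ _).trans (add_le_add le_rfl ((card_union_le _ _).trans
      (add_le_add card_image_le le_rfl))))))
  have h7 := sum_H hr Y
  have h8 := bad_H hN Y
  rw [Nat.card_Ioc] at h5
  rw [card_singleton] at h6
  have h9 : 2 * ((Ioc 0 X).filter fun D => par3 D = r).card ≤
      X + 2 * ((Ioc 0 Y).filter fun D => ¬ GoodH N D).card + 2 * (M + 1) := by omega
  have h10 : (2 * Y / N : ℝ) ≤ 2 * X / N := by gcongr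
  have h11 : (2 * ((Ioc 0 X).filter fun D => par3 D = r).card : ℝ) ≤
      X + 2 * ((Ioc 0 Y).filter fun D => ¬ GoodH N D).card + 2 * (M + 1 : ℕ) := by
    exact_mod_cast h9
  rw [← hM]
  linarith

theorem half_H {r : ℕ} (hr : r ≤ 1) : Tendsto (fun X : ℕ =>
    (((Ioc 0 X).filter fun D => par3 D = r).card : ℝ) / X) atTop (𝓝 (1 / 2)) := by
  rw [Metric.tendsto_atTop]
  intro ε hε
  obtain ⟨N, hN⟩ := exists_nat_gt (max 3 (4 / ε))
  have hN3 : 3 ≤ N := by exact_mod_cast ((le_max_left _ _).trans hN.le : (3 : ℝ) ≤ N)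
  have hN0 : (0 : ℝ) < N := by exact_mod_cast (by omega : 0 < N)
  have hN4 : 2 / (N : ℝ) < ε / 2 := by
    have := (div_lt_iff₀ hε).1 ((le_max_right _ _).trans_lt hN)
    rw [div_lt_iff₀ hN0]
    linarith
  obtain ⟨C, hC⟩ : ∃ C : ℝ, C = (N.factorial ^ (2 * N + 2) + 1 : ℕ) := ⟨_, rfl⟩
  obtain ⟨X₀, hX⟩ := exists_nat_gt (max 0 (2 * C / ε))
  refine ⟨X₀, fun X h => ?_⟩
  have h0 : (X₀ : ℝ) ≤ X := by exact_mod_cast h
  have h1 : (0 : ℝ) < X := ((le_max_left _ _).trans_lt hX).trans_le h0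
  have h2 : C < ε / 2 * X := by
    have := (div_lt_iff₀ hε).1 (((le_max_right _ _).trans_lt hX).trans_le h0)
    linarith
  have h3 : 2 * (X : ℝ) / N < ε / 2 * X := by
    rw [mul_div_right_comm]
    exact mul_lt_mul_of_pos_right hN4 h1
  have u1 := up_H hr hN3 X
  have u2 := up_H (Nat.sub_le 1 r) hN3 X
  have u3 : (((Ioc 0 X).filter fun D => par3 D = r).card : ℝ) +
      ((Ioc 0 X).filter fun D => par3 D = 1 - r).card = X := by exact_mod_cast sum_H hr X
  rw [← hC] at u1 u2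
  rw [Real.dist_eq, abs_lt, lt_sub_iff_add_lt, sub_lt_iff_lt_add, lt_div_iff₀ h1, div_lt_iff₀ h1]
  constructor <;> nlinarith

end Pool.Agent.MP_e23604_nt.S

end
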