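import Mathlib
import Pool.Agent.Mg.Fe23604m.G0a5d16
import Pool.Agent.Mg.Fe23604m.G2d01bf
import Pool.Agent.Mg.Fe23604m.G4d6502
import Pool.Agent.MP_e23604_nt.BSel

set_option linter.all false

section

namespace Pool.Agent.MP_e23604_nt.Q

open Finset Filter NumberField
open MP_f68ac8_nt.Zq (Mx sg)
open MP_f68ac8_nt.Zk (Cp Yw rr NS brL)
open MP_f68ac8_nt.Nd (Lr Rcp GenQ Trm)
open scoped BigOperators Topology

open P
open scoped Classical

theorem one_XMod {V : Type} [AddCommGroup V] (J : V ≃ₗ[ℤ] V) (u : V) : u ∈ Wn J 1 ↔ J u = u := by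
  rw [Wn, pow_one, LinearMap.mem_ker, om]
  exact sub_eq_zero

theorem om_XMod {V : Type} [AddCommGroup V] (J : V ≃ₗ[ℤ] V) (h : ∀ u, J (J u) = -u) (u : V) :
    om J (om J (J u)) = 2 • u := by
  have e : ∀ w, om J w = J w - w := fun _ => rfl
  simp only [e, map_sub, h, map_neg]
  abel

theorem four_XMod {i : Qb} (hi : i ^ 2 = -1) :
    (-i) ^ 4 * ((1 : ℚ) : Qb) = (1 : ℚ) ∧ i ^ 4 * ((1 : ℚ) : Qb) = (1 : ℚ) := by
  rw [Rat.cast_one]
  exact ⟨by linear_combination (i ^ 2 - 1) * hi, by linear_combination (i ^ 2 - 1) * hi⟩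

theorem ex_XMod (hS : ScQ) {i : Qb} (hi : i ^ 2 = -1) : ∃ J, Jm i J := by
  obtain ⟨h1, h2⟩ := four_XMod hi
  obtain ⟨a1, -, a3, a4, -⟩ := hS 1 1 Qb (-i) one_ne_zero one_ne_zero h1
  obtain ⟨-, -, b3, -, -⟩ := hS 1 1 Qb i one_ne_zero one_ne_zero h2
  let e : A1 ≃+ A1 :=
    { toFun := scf 1 (-i)
      invFun := scf 1 i
      left_inv := fun R => by
        rw [a3 1 i one_ne_zero h2, show i * -i = 1 by linear_combination -hi, (a4 R).1]
      right_inv := fun R => by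
        rw [b3 1 (-i) one_ne_zero h1, show -i * i = 1 by linear_combination -hi, (a4 R).1]
      map_add' := a1 }
  exact ⟨e.toIntLinearEquiv, hi, fun _ => rfl⟩

theorem fix_XMod (hS : ScQ) {i : Qb} {J : A1 ≃ₗ[ℤ] A1} (h : Jm i J) {u : A1} (hu : u ≠ 0) :
    u ∈ Wn J 1 ↔ px u = 0 ∧ py u = 0 := by
  obtain ⟨hi, hJ⟩ := h
  obtain ⟨b1, b2, b3⟩ := (hS 1 1 Qb (-i) one_ne_zero one_ne_zero (four_XMod hi).1).2.1 u hu
  rw [one_XMod, hJ]
  constructor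
  · intro e
    rw [e] at b2 b3
    exact ⟨by linear_combination b2 / 2 + px u / 2 * hi,
      by linear_combination (1 + i) / 2 * b3 - (i ^ 2 + i - 1) * py u / 2 * hi⟩
  · rintro ⟨e1, e2⟩
    exact xCCur_ext (iff_of_false b1 hu) (by rw [b2, e1, mul_zero]) (by rw [b3, e2, mul_zero])

theorem cm_XMod (hS : ScQ) {i : Qb} {J : A1 ≃ₗ[ℤ] A1} (h : Jm i J) : CmI J := by
  have hi := h.1
  obtain ⟨-, -, a3, a4, -⟩ := hS 1 1 Qb (-i) one_ne_zero one_ne_zero (four_XMod hi).1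
  have hsq : ∀ u, J (J u) = -u := fun u => by
    rw [h.2, h.2, a3 1 (-i) one_ne_zero (four_XMod hi).1,
      show -i * -i = -1 by linear_combination hi, (a4 u).2]
  refine ⟨⟨hsq, fun u hu u' hu' h0 h0' => ?_⟩, fun u => ?_, T2 1 Qb, ?_, T2_ne_zero one_ne_zero⟩
  · obtain ⟨c1, c2⟩ := (fix_XMod hS h h0).1 hu
    obtain ⟨d1, d2⟩ := (fix_XMod hS h h0').1 hu'
    exact xCCur_ext (iff_of_false h0 h0') (c1.trans d1.symm) (c2.trans d2.symm)
  · obtain ⟨R, hR⟩ := exists_half one_ne_zero u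
    exact ⟨om J (J R), (om_XMod J hsq R).trans hR⟩
  · exact (fix_XMod hS h (T2_ne_zero one_ne_zero)).2 (px_pt2 one_ne_zero xCCur_on0)

theorem pt_XMod {i r : Qb} (hi : i ^ 2 = -1) (hr : r ^ 2 = 2) :
    ∃ u : A1, 2 ^ 2 • u = 0 ∧ u ≠ 0 ∧ px u = i * (1 + r) := by
  have h1 : ((1 - i) * (1 + r)) ^ 2 = (i * (1 + r)) ^ 3 + ((1 : ℚ) : Qb) * (i * (1 + r)) := by
    rw [Rat.cast_one]
    grind
  have h2 : (1 - i) * (1 + r) ≠ 0 := by
    refine mul_ne_zero (fun e => ?_) fun e => ?_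
    · have : (2 : Qb) = 0 := by linear_combination hi + (1 + i) * e
      exact two_ne_zero this
    · have : (1 : Qb) = 0 := by linear_combination -hr - (1 - r) * e
      exact one_ne_zero this
  obtain ⟨h3, h4⟩ := pt2_add_self one_ne_zero (x₃ := i) (y₃ := 0)
    (l := -((1 + i) * r * (1 + r)) / 2) h1 h2 (by rw [Rat.cast_one]; grind) (by grind) (by grind)
  refine ⟨_, ?_, pt2_ne_zero one_ne_zero h1, (px_pt2 one_ne_zero h1).1⟩
  rw [pow_two, mul_nsmul, two_nsmul (pt2 _ _ _), h4]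
  exact (two_eq_zero_iff one_ne_zero h3).2 rfl

theorem modQ (hBasQ : BasQ) (hScQ : ScQ) : ModQ := by
  refine fun i => ⟨ex_XMod hScQ, fun J hJ => ?_⟩
  have hC := cm_XMod hScQ hJ
  obtain ⟨-, b0, -, -, b2, -⟩ := hBasQ A1 J hC.toCm0
  have key : ∀ k u, u ∈ Wn J (2 * k) ↔ 2 ^ k • u = 0 := by
    intro k
    induction k with
    | zero => intro u; rw [mul_zero, b0, Submodule.mem_bot, pow_zero, one_smul]
    | succ k ih => intro u; rw [mul_add, mul_one, ← b2, ih, pow_succ, mul_smul]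
  refine ⟨hC, key, fun r hr => ?_⟩
  obtain ⟨u, h1, h2, h3⟩ := pt_XMod hJ.1 hr
  exact ⟨u, (key 2 u).2 h1, h2, h3⟩

end Pool.Agent.MP_e23604_nt.Q

end

section

namespace Pool.Agent.MP_e23604_nt.Q

open Finset Filter NumberField
open MP_f68ac8_nt.Zq (Mx sg)
open MP_f68ac8_nt.Zk (Cp Yw rr NS brL)
open MP_f68ac8_nt.Nd (Lr Rcp GenQ Trm)
open scoped BigOperators Topology
open P
open scoped Classical

section
variable {D D' : ℚ} {F : Type} [Field F] [CharZero F] {u : F}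

omit [CharZero F] in
theorem on_XSc (hu : u ^ 4 * D = D') {x y : F} (h : y ^ 2 = x ^ 3 + D * x) :
    (u ^ 3 * y) ^ 2 = (u ^ 2 * x) ^ 3 + D' * (u ^ 2 * x) := by
  rw [← hu]; linear_combination u ^ 6 * h

theorem zero_XSc (D' : ℚ) (u : F) : scf D' u (0 : Pts (EE D) F) = 0 := by
  rw [scf, if_pos rfl]

theorem pt_XSc (hD : D ≠ 0) (D' : ℚ) (u : F) {x y : F} (h : y ^ 2 = x ^ 3 + D * x) :
    scf D' u (pt2 D x y) = pt2 D' (u ^ 2 * x) (u ^ 3 * y) := by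
  rw [scf, if_neg (pt2_ne_zero hD h), (px_pt2 hD h).1, (px_pt2 hD h).2]

theorem add_XSc (hD : D ≠ 0) (hD' : D' ≠ 0) (hu : u ^ 4 * D = D') (R R' : Pts (EE D) F) :
    scf D' u (R + R') = scf D' u R + scf D' u R' := by
  have hu0 : u ≠ 0 := by
    rintro rfl
    exact xCCur_D (F := F) hD' (by rw [← hu]; simp)
  rcases pt2_cases hD R with rfl | ⟨x₁, y₁, h₁, rfl⟩
  · rw [zero_add, zero_XSc, zero_add]
  rcases pt2_cases hD R' with rfl | ⟨x₂, y₂, h₂, rfl⟩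
  · rw [add_zero, zero_XSc, add_zero]
  rw [pt_XSc hD D' u h₁, pt_XSc hD D' u h₂]
  by_cases hx : x₁ = x₂
  · subst hx
    by_cases hy : y₂ = -y₁
    · subst hy
      rw [← pt2_neg hD h₁, add_neg_cancel, zero_XSc, mul_neg, ← pt2_neg hD' (on_XSc hu h₁),
        add_neg_cancel]
    · have e : y₂ = y₁ := by
        have : (y₂ - y₁) * (y₂ + y₁) = 0 := by linear_combination h₂ - h₁
        rcases mul_eq_zero.1 this with h | h
        · exact sub_eq_zero.1 h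
        · exact absurd (eq_neg_of_add_eq_zero_left h) hy
      subst e
      have hy0 : y₂ ≠ 0 := by
        rintro rfl
        exact hy neg_zero.symm
      have hl : (3 * x₁ ^ 2 + D) / (2 * y₂) * (2 * y₂) = 3 * x₁ ^ 2 + D :=
        div_mul_cancel₀ _ (mul_ne_zero two_ne_zero hy0)
      generalize (3 * x₁ ^ 2 + D) / (2 * y₂) = l at hl
      obtain ⟨h₃, e₃⟩ := pt2_add_self hD h₁ hy0 hl rfl rfl
      rw [e₃, pt_XSc hD D' u h₃]
      refine (pt2_add_self hD' (l := u * l) (on_XSc hu h₁) (mul_ne_zero (pow_ne_zero _ hu0) hy0)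
        ?_ ?_ ?_).2.symm
      · rw [← hu]; linear_combination u ^ 4 * hl
      · ring
      · ring
  · have hl : (y₁ - y₂) / (x₁ - x₂) * (x₁ - x₂) = y₁ - y₂ :=
      div_mul_cancel₀ _ (sub_ne_zero.2 hx)
    generalize (y₁ - y₂) / (x₁ - x₂) = l at hl
    obtain ⟨h₃, e₃⟩ := pt2_add_ne hD h₁ h₂ hx hl rfl rfl
    rw [e₃, pt_XSc hD D' u h₃]
    refine (pt2_add_ne hD' (l := u * l) (on_XSc hu h₁) (on_XSc hu h₂)
      (fun e => hx (mul_left_cancel₀ (pow_ne_zero 2 hu0) e)) ?_ ?_ ?_).2.symm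
    · linear_combination u ^ 3 * hl
    · ring
    · ring

end

theorem scQ : ScQ := by
  intro D D' F _ _ u hD hD' hu
  refine ⟨add_XSc hD hD' hu, fun R hR => ?_, fun D'' u' _ _ R => ?_, fun R => ?_,
    fun F' _ _ f R => ?_⟩
  · rcases pt2_cases hD R with rfl | ⟨x, y, h, rfl⟩
    · exact absurd rfl hR
    rw [pt_XSc hD D' u h, (px_pt2 hD h).1, (px_pt2 hD h).2]
    exact ⟨pt2_ne_zero hD' (on_XSc hu h), px_pt2 hD' (on_XSc hu h)⟩
  · rcases pt2_cases hD R with rfl | ⟨x, y, h, rfl⟩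
    · rw [zero_XSc, zero_XSc, zero_XSc]
    rw [pt_XSc hD D' u h, pt_XSc hD' D'' u' (on_XSc hu h), pt_XSc hD D'' (u' * u) h]
    congr 1 <;> ring
  · rcases pt2_cases hD R with rfl | ⟨x, y, h, rfl⟩
    · rw [zero_XSc, zero_XSc]
      exact ⟨rfl, neg_zero.symm⟩
    rw [pt_XSc hD D 1 h, pt_XSc hD D (-1) h, pt2_neg hD h]
    constructor <;> congr 1 <;> ring
  · rcases pt2_cases hD R with rfl | ⟨x, y, h, rfl⟩
    · rw [zero_XSc, map_zero, map_zero, zero_XSc]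
    rw [pt_XSc hD D' u h, act_pt2 hD' f (on_XSc hu h), act_pt2 hD f h,
      pt_XSc hD D' (f u) (xCCur_map f h), map_mul, map_mul, map_pow, map_pow]

end Pool.Agent.MP_e23604_nt.Q

end

section

set_option autoImplicit false

open Module Filter Topology Finset
open scoped Classical

namespace Pool.Agent.MP_e23604_nt.R

open B
open Q (Wn dig CmI Cm0 Pre A1 Eta Jm scf St Cork Fg IdxQ basQ levQ)

section aux

open P Polynomial

variable {l : ℕ} [Fact l.Prime] {D : ℤ}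

theorem t1_APX0 : ‖(2 : ℚ_[l])‖ ≤ 1 := by
  have := Padic.norm_int_le_one (p := l) 2
  exact_mod_cast this

theorem t0_APX0 : 0 < ‖(2 : ℚ_[l])‖ := norm_pos_iff.2 two_ne_zero

theorem eq_APX0 {a b : ℚ_[l]} (h : ‖b‖ < ‖a‖) : ‖a + b‖ = ‖a‖ := by
  rw [Padic.add_eq_max_of_ne h.ne', max_eq_left h.le]

theorem sq_APX0 {c : ℚ_[l]} (h : ‖c - 1‖ < ‖(2 : ℚ_[l])‖ ^ 2) :
    ∃ s : ℚ_[l], s ^ 2 = c ∧ ‖s - 1‖ * ‖(2 : ℚ_[l])‖ = ‖c - 1‖ ∧ ‖s + 1‖ = ‖(2 : ℚ_[l])‖ ∧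
      ‖s‖ = 1 := by
  have t1 := t1_APX0 (l := l)
  have t0 := t0_APX0 (l := l)
  have hc : ‖c‖ ≤ 1 := by
    rw [show c = 1 + (c - 1) by ring, eq_APX0 (by rw [norm_one]; nlinarith), norm_one]
  let z : ℤ_[l] := ⟨c, hc⟩
  have e2 : ‖(2 : ℤ_[l])‖ = ‖(2 : ℚ_[l])‖ := rfl
  have hd : (derivative (X ^ 2 - C z : ℤ_[l][X])).aeval (1 : ℤ_[l]) = 2 := by
    simp [one_add_one_eq_two]
  obtain ⟨s, h1, h2, -⟩ := hensels_lemma (F := (X ^ 2 - C z : ℤ_[l][X])) (a := 1) (by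
    rw [hd, e2]
    simp only [map_sub, map_pow, aeval_X, aeval_C, one_pow]
    rw [norm_sub_rev]
    exact h)
  rw [hd, e2] at h2
  simp only [map_sub, map_pow, aeval_X, aeval_C] at h1
  have h3 : (s : ℚ_[l]) ^ 2 = c := congrArg (fun t : ℤ_[l] => (t : ℚ_[l])) (sub_eq_zero.1 h1)
  have h4 : ‖(s : ℚ_[l]) - 1‖ < ‖(2 : ℚ_[l])‖ := h2
  have h5 : ‖(s : ℚ_[l]) + 1‖ = ‖(2 : ℚ_[l])‖ := by
    rw [show (s : ℚ_[l]) + 1 = 2 + (s - 1) by ring, eq_APX0 h4]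
  refine ⟨s, h3, ?_, h5, ?_⟩
  · rw [← h3, show (s : ℚ_[l]) ^ 2 - 1 = (s - 1) * (s + 1) by ring, norm_mul, h5]
  · rw [show (s : ℚ_[l]) = 1 + (s - 1) by ring, eq_APX0 (by rw [norm_one]; linarith), norm_one]

theorem half_APX0 (hD : (D : ℚ) ≠ 0) {x y : ℚ_[l]} (h : y ^ 2 = x ^ 3 + (D : ℚ) * x)
    (hx : 1 < ‖x‖ * ‖(2 : ℚ_[l])‖ ^ 2) :
    ∃ u v : ℚ_[l], v ^ 2 = u ^ 3 + (D : ℚ) * u ∧ ‖u‖ = ‖x‖ * ‖(2 : ℚ_[l])‖ ^ 2 ∧
      pt2 (D : ℚ) x y = 2 • pt2 (D : ℚ) u v := by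
  have t1 := t1_APX0 (l := l)
  have t0 := t0_APX0 (l := l)
  have hn : ‖((D : ℚ) : ℚ_[l])‖ ≤ 1 := by
    rw [Rat.cast_intCast]
    exact Padic.norm_int_le_one D
  have hx0 : x ≠ 0 := by
    rintro rfl
    rw [norm_zero, zero_mul] at hx
    linarith
  have hx1 : 0 < ‖x‖ := norm_pos_iff.2 hx0
  set d : ℚ_[l] := ((D : ℚ) : ℚ_[l])
  set t := ‖(2 : ℚ_[l])‖ with ht
  have h1 : ‖1 + d / x ^ 2 - 1‖ < t ^ 2 * t ^ 2 := by
    rw [add_sub_cancel_left, norm_div, norm_pow, div_lt_iff₀ (by positivity)]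
    nlinarith
  have t2 : t ^ 2 ≤ 1 := pow_le_one₀ t0.le t1
  obtain ⟨r, r1, r2, -, r4⟩ := sq_APX0 (c := 1 + d / x ^ 2)
    (h1.trans_le (mul_le_of_le_one_left (by positivity) t2))
  obtain ⟨s, s1, -, s3, s4⟩ := sq_APX0 (c := (1 + r) / 2) (by
    rw [show (1 + r) / 2 - 1 = (r - 1) / 2 by ring, norm_div, div_lt_iff₀ t0]
    rw [← r2] at h1
    refine lt_of_mul_lt_mul_right (h1.trans_le (le_of_eq ?_)) t0.le
    rw [← ht]
    ring)
  have hr0 : r ≠ 0 := norm_pos_iff.1 (by rw [r4]; exact one_pos)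
  have hs0 : s ≠ 0 := norm_pos_iff.1 (by rw [s4]; exact one_pos)
  have hs1 : s + 1 ≠ 0 := norm_pos_iff.1 (by rw [s3]; exact t0)
  obtain ⟨a, ha⟩ : ∃ a, a = y / (x * r) := ⟨_, rfl⟩
  have hd : d = x ^ 2 * (r ^ 2 - 1) := by
    rw [r1]
    field_simp
    ring
  have ha2 : a ^ 2 = x := by
    rw [ha, div_pow, h, hd]
    field_simp
    ring
  have ha0 : a ≠ 0 := fun e => hx0 (by rw [← ha2, e]; ring)
  have hr : r = 2 * s ^ 2 - 1 := by rw [s1]; ring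
  have hy : y = a ^ 3 * r := by
    rw [show a ^ 3 = a * a ^ 2 by ring, ha2, ha]
    field_simp
  have hu : (4 * a ^ 3 * s ^ 2 * (s + 1)) ^ 2 =
      (2 * a ^ 2 * s * (s + 1)) ^ 3 + d * (2 * a ^ 2 * s * (s + 1)) := by
    rw [hd, ← ha2, hr]
    ring
  have hw : 4 * a ^ 3 * s ^ 2 * (s + 1) ≠ 0 := by simp [ha0, hs0, hs1]
  refine ⟨_, _, hu, ?_, ?_⟩
  · rw [ha2, norm_mul, norm_mul, norm_mul, s3, s4, ← ht]
    ring
  · rw [two_nsmul]
    refine (pt2_add_self hD (l := a * (2 * s + 1)) hu hw ?_ ?_ ?_).2.symm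
    · change _ = _ + d
      rw [hd, ← ha2, hr]
      ring
    · rw [← ha2]
      ring
    · rw [hy, ← ha2, hr]
      ring

theorem pow_APX0 (hD : (D : ℚ) ≠ 0) (k : ℕ) : ∀ x y : ℚ_[l], y ^ 2 = x ^ 3 + (D : ℚ) * x →
    1 < ‖x‖ * (‖(2 : ℚ_[l])‖ ^ 2) ^ k → ∃ R, pt2 (D : ℚ) x y = 2 ^ k • R := by
  induction k with
  | zero => exact fun x y _ _ => ⟨pt2 (D : ℚ) x y, by simp⟩
  | succ k ih =>
    intro x y h hx
    have t2 : ‖(2 : ℚ_[l])‖ ^ 2 ≤ 1 := pow_le_one₀ (norm_nonneg _) t1_APX0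
    obtain ⟨u, v, h1, h2, h3⟩ := half_APX0 hD h (hx.trans_le (by
      rw [pow_succ]
      exact mul_le_mul_of_nonneg_left
        (mul_le_of_le_one_left (by positivity) (pow_le_one₀ (by positivity) t2)) (norm_nonneg _)))
    obtain ⟨R, hR⟩ := ih u v h1 (by rw [h2, mul_assoc, ← pow_succ']; exact hx)
    exact ⟨R, by rw [h3, hR, smul_smul, pow_succ']⟩

theorem root_APX0 (c : Qb) (a : AlgebraicClosure ℚ_[l]) (h : a ^ 2 = emb ℚ_[l] c) :
    ∃ b : Qb, emb ℚ_[l] b = a := by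
  obtain ⟨b, rfl⟩ := IsAlgClosed.exists_pow_nat_eq c two_pos
  rw [map_pow] at h
  rcases sq_eq_sq_iff_eq_or_eq_neg.1 h with e | e
  · exact ⟨b, e.symm⟩
  · exact ⟨-b, by rw [map_neg, e]⟩

theorem lift_APX0 (hD : (D : ℚ) ≠ 0) {x y : ℚ_[l]} (h : y ^ 2 = x ^ 3 + (D : ℚ) * x) (u : Qb)
    (hu : emb ℚ_[l] u = algebraMap ℚ_[l] (AlgebraicClosure ℚ_[l]) x) :
    ∃ T₁ : Pts (EE D) Qb, act (EE D) (algebraMap ℚ_[l] (AlgebraicClosure ℚ_[l])) (pt2 D x y) =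
      act (EE D) (emb ℚ_[l]) T₁ := by
  have h1 := xCCur_map (algebraMap ℚ_[l] (AlgebraicClosure ℚ_[l])) h
  obtain ⟨v, hv⟩ := root_APX0 (u ^ 3 + (D : ℚ) * u) (algebraMap ℚ_[l] _ y) (by
    rw [h1, map_add, map_mul, map_pow, map_ratCast, hu])
  have h2 : v ^ 2 = u ^ 3 + (D : ℚ) * u := (emb ℚ_[l]).injective (by
    rw [map_pow, hv, h1, map_add, map_mul, map_pow, map_ratCast, hu])
  exact ⟨pt2 D u v, by rw [act_pt2 hD _ h, act_pt2 hD _ h2, hu, hv]⟩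

theorem near_APX0 (hD : (D : ℚ) ≠ 0) {x y : ℚ_[l]} (h : y ^ 2 = x ^ 3 + (D : ℚ) * x) (hy : y ≠ 0)
    (hx : ∀ q : ℚ, x ≠ q) (M : ℝ) :
    ∃ (q : ℚ) (v X Y : ℚ_[l]), v ^ 2 = (q : ℚ_[l]) ^ 3 + (D : ℚ) * (q : ℚ_[l]) ∧
      Y ^ 2 = X ^ 3 + (D : ℚ) * X ∧ M < ‖X‖ ∧ pt2 (D : ℚ) x y - pt2 (D : ℚ) (q : ℚ_[l]) v =
        pt2 (D : ℚ) X Y := by
  have t0 := t0_APX0 (l := l)
  have y0 : 0 < ‖y‖ := norm_pos_iff.2 hy
  set d : ℚ_[l] := ((D : ℚ) : ℚ_[l]) with hd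
  have e1 : ∀ᶠ u in 𝓝 x, ‖(u ^ 3 + d * u) / y ^ 2 - 1‖ < ‖(2 : ℚ_[l])‖ ^ 2 :=
    ContinuousAt.eventually_lt (by fun_prop) continuousAt_const (by
      rw [← h, div_self (pow_ne_zero _ hy), sub_self, norm_zero]
      positivity)
  have e2 : ∀ᶠ u in 𝓝 x, (M + ‖x‖ + ‖u‖) * ‖x - u‖ ^ 2 < (‖y‖ * ‖(2 : ℚ_[l])‖) ^ 2 :=
    ContinuousAt.eventually_lt (by fun_prop) continuousAt_const (by
      rw [sub_self, norm_zero, zero_pow two_ne_zero, mul_zero]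
      positivity)
  obtain ⟨q, q1, q2⟩ := (Padic.denseRange_ratCast l).mem_nhds (e1.and e2)
  obtain ⟨s, s1, -, s3, -⟩ := sq_APX0 q1
  have hv : (s * y) ^ 2 = (q : ℚ_[l]) ^ 3 + d * q := by
    rw [mul_pow, s1, div_mul_cancel₀ _ (pow_ne_zero _ hy)]
  have hv' : (-(s * y)) ^ 2 = (q : ℚ_[l]) ^ 3 + d * q := by rw [neg_sq, hv]
  have hq : x - q ≠ 0 := sub_ne_zero.2 (hx q)
  have a3 : y * (s + 1) / (x - q) * (x - q) = y - -(s * y) := by
    rw [div_mul_cancel₀ _ hq]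
    ring
  obtain ⟨b1, b2⟩ := pt2_add_ne hD h hv' (hx q) a3 rfl rfl
  refine ⟨q, s * y, _, _, hv, b1, ?_, by rw [sub_eq_add_neg, pt2_neg hD hv, b2]⟩
  have c1 : M + ‖x‖ + ‖(q : ℚ_[l])‖ < ‖(y * (s + 1) / (x - q)) ^ 2‖ := by
    rw [norm_pow, norm_div, norm_mul, s3, div_pow,
      lt_div_iff₀ (pow_pos (norm_pos_iff.2 hq) 2)]
    exact q2
  have c2 := norm_sub_norm_le ((y * (s + 1) / (x - q)) ^ 2 - x) (q : ℚ_[l])
  have c3 := norm_sub_norm_le ((y * (s + 1) / (x - q)) ^ 2) x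
  linarith

end aux

theorem APX0_pf : APX0_st := by
  intro D l _ k T hD0
  have hD : (D : ℚ) ≠ 0 := Int.cast_ne_zero.2 hD0
  rcases P.pt2_cases hD T with rfl | ⟨x, y, h, rfl⟩
  · exact ⟨0, 0, by simp⟩
  by_cases hx : ∀ q : ℚ, x ≠ q
  · by_cases hy : y = 0
    · have h0 : x ≠ 0 := by simpa using hx 0
      have h1 : x ^ 2 = -((D : ℚ) : ℚ_[l]) := mul_left_cancel₀ h0 (by
        rw [hy] at h
        linear_combination -h)
      obtain ⟨u, hu⟩ := root_APX0 (l := l) (-((D : ℚ) : Qb)) (algebraMap ℚ_[l] _ x) (by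
        rw [← map_pow, h1, map_neg, map_neg, map_ratCast, map_ratCast])
      obtain ⟨T₁, hT⟩ := lift_APX0 hD h u hu
      exact ⟨T₁, 0, by rw [nsmul_zero, sub_zero, hT]⟩
    · have t0 : 0 < (‖(2 : ℚ_[l])‖ ^ 2) ^ k := pow_pos (pow_pos t0_APX0 2) k
      obtain ⟨q, v, X, Y, h1, h2, h3, h4⟩ := near_APX0 hD h hy hx (1 / (‖(2 : ℚ_[l])‖ ^ 2) ^ k)
      obtain ⟨S, hS⟩ := pow_APX0 hD k X Y h2 ((div_lt_iff₀ t0).1 h3)
      obtain ⟨T₁, hT⟩ := lift_APX0 hD h1 (q : Qb) (by rw [map_ratCast, map_ratCast])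
      exact ⟨T₁, S, by rw [← hS, ← h4, sub_sub_cancel, hT]⟩
  · obtain ⟨q, hq⟩ := not_forall.1 hx
    obtain rfl := not_not.1 hq
    obtain ⟨T₁, hT⟩ := lift_APX0 hD h (q : Qb) (by rw [map_ratCast, map_ratCast])
    exact ⟨T₁, 0, by rw [nsmul_zero, sub_zero, hT]⟩

end Pool.Agent.MP_e23604_nt.R

end

section

namespace Pool.Agent.MP_e23604_nt.Q

open Finset Filter NumberField
open MP_f68ac8_nt.Zq (Mx sg)
open MP_f68ac8_nt.Zk (Cp Yw rr NS brL)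
open MP_f68ac8_nt.Nd (Lr Rcp GenQ Trm)
open scoped BigOperators Topology
open scoped Classical

open P in
theorem fix_XLp {D : ℚ} (hD : D ≠ 0) {k L : Type} [Field k] [Field L] [CharZero k] [CharZero L]
    [Algebra k L] [IsGalois k L] {R : Pts (EE D) L}
    (hR : ∀ σ : L ≃ₐ[k] L, act (EE D) (σ : L →+* L) R = R) :
    ∃ T : Pts (EE D) k, R = act (EE D) (algebraMap k L) T := by
  obtain ⟨x, hx⟩ := (InfiniteGalois.mem_range_algebraMap_iff_fixed (k := k) (px R)).2 fun σ => by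
    have := (px_act (σ : L →+* L) R).1
    rw [hR σ] at this
    exact this.symm
  obtain ⟨y, hy⟩ := (InfiniteGalois.mem_range_algebraMap_iff_fixed (k := k) (py R)).2 fun σ => by
    have := (px_act (σ : L →+* L) R).2
    rw [hR σ] at this
    exact this.symm
  rcases pt2_cases hD R with rfl | ⟨a, b, hab, rfl⟩
  · exact ⟨0, (map_zero _).symm⟩
  rw [(px_pt2 hD hab).1] at hx
  rw [(px_pt2 hD hab).2] at hy
  subst hx hy
  have h' : y ^ 2 = x ^ 3 + D * x := by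
    apply (algebraMap k L).injective
    simpa using hab
  exact ⟨pt2 D x y, (act_pt2 hD (algebraMap k L) h').symm⟩

theorem lpQ (hLiftQ : LiftQ) : LpQ := by
  intro D hD k ξ hξ
  obtain ⟨R, hR⟩ := hξ.2.2 2
  obtain ⟨T, hT⟩ := fix_XLp hD (k := ℚ_[2]) (R := 2 ^ k • R) fun σ => by
    obtain ⟨τ, hτ⟩ := hLiftQ.2.2 σ
    have h := congrArg (fun z => 2 ^ k • z) (hR σ τ hτ)
    simp only [← map_nsmul, hξ.2.1 τ, map_zero, smul_sub] at h
    exact (sub_eq_zero.1 h.symm)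
  exact ⟨T, R, hR, hT⟩

end Pool.Agent.MP_e23604_nt.Q

end

section

namespace Pool.Agent.MP_e23604_nt.Q

open Finset Filter NumberField
open MP_f68ac8_nt.Zq (Mx sg)
open MP_f68ac8_nt.Zk (Cp Yw rr NS brL)
open MP_f68ac8_nt.Nd (Lr Rcp GenQ Trm)
open scoped BigOperators Topology

section
open P
open scoped Classical

theorem ell_XStc {D : ℚ} (hD : D ≠ 0) : (EE D).IsElliptic := by
  refine ⟨Ne.isUnit ?_⟩
  have : (EE D).Δ = -64 * D ^ 3 := by
    simp only [EE, WeierstrassCurve.Δ, WeierstrassCurve.b₂, WeierstrassCurve.b₄,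
      WeierstrassCurve.b₆, WeierstrassCurve.b₈]
    ring
  rw [this]
  exact mul_ne_zero (by norm_num) (pow_ne_zero _ hD)

theorem tors_XStc (W : WeierstrassCurve ℚ) [W.IsElliptic] {F : Type} [Field F] [CharZero F]
    [IsAlgClosed F] (f : Qb →+* F) {n : ℕ} (hn : 0 < n) (Q : Pts W F) (hQ : n • Q = 0) :
    ∃ R : Pts W Qb, n • R = 0 ∧ act W f R = Q := by
  have e1 : (W.baseChange Qb).IsElliptic := inferInstanceAs (W.map _).IsElliptic
  have e2 : (W.baseChange F).IsElliptic := inferInstanceAs (W.map _).IsElliptic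
  have c1 := B.btors_card (W.baseChange Qb) hn
  have c2 := B.btors_card (W.baseChange F) hn
  let φ : {P : Pts W Qb // n • P = 0} → {P : Pts W F // n • P = 0} :=
    fun P => ⟨act W f P.1, by rw [← map_nsmul, P.2, map_zero]⟩
  have hφ : Function.Injective φ := fun P P' e =>
    Subtype.ext (B.BSel_act_inj W f (congrArg Subtype.val e))
  have : Finite {P : Pts W F // n • P = 0} :=
    Nat.finite_of_card_ne_zero (by rw [c2]; positivity)
  obtain ⟨R, hR⟩ := (hφ.bijective_of_nat_card_le (by rw [c1, c2])).2 ⟨Q, hQ⟩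
  exact ⟨R.1, R.2, congrArg Subtype.val hR⟩

theorem fix_XStc (W : WeierstrassCurve ℚ) {F : Type} [Field F] [CharZero F]
    (σ : AlgebraicClosure F ≃ₐ[F] AlgebraicClosure F) (T : Pts W F) :
    act W (σ : AlgebraicClosure F →+* AlgebraicClosure F)
      (act W (algebraMap F (AlgebraicClosure F)) T) =
      act W (algebraMap F (AlgebraicClosure F)) T := by
  rw [B.BSel_act_act, show (σ : AlgebraicClosure F →+* AlgebraicClosure F).comp
    (algebraMap F (AlgebraicClosure F)) = algebraMap F (AlgebraicClosure F) from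
      RingHom.ext fun x => σ.commutes x]

theorem gal_XStc (W : WeierstrassCurve ℚ) {F : Type} [Field F] [CharZero F]
    {σ : AlgebraicClosure F ≃ₐ[F] AlgebraicClosure F} {τ : GQ}
    (h : ∀ x, emb F (τ x) = σ (emb F x)) (R : Pts W Qb) :
    act W (emb F) (galQ W τ R) =
      act W (σ : AlgebraicClosure F →+* AlgebraicClosure F) (act W (emb F) R) := by
  rw [galQ, B.BSel_act_act, B.BSel_act_act, show (emb F).comp (τ : Qb →+* Qb) =
    (σ : AlgebraicClosure F →+* AlgebraicClosure F).comp (emb F) from RingHom.ext h]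

theorem stcQ (hLiftQ : LiftQ) : StcQ := by
  intro D hD k ξ ξ' T T' T'' hξ hξ' ⟨R, r1, r2⟩ ⟨R', s1, s2⟩ hT
  have ell := ell_XStc hD
  obtain ⟨R0, h0, h1⟩ := tors_XStc (EE D) (emb ℚ_[2]) (n := 2 ^ k) (by positivity)
    (R - R' - act (EE D) (algebraMap ℚ_[2] (AlgebraicClosure ℚ_[2])) T'') (by
      rw [nsmul_sub, nsmul_sub, r2, s2, hT, map_add, map_nsmul]
      abel)
  have hc : ξ - ξ' - B.BSel_dd (EE D) R0 ∈ cocycles (EE D) :=
    sub_mem (sub_mem hξ.1 hξ'.1) (B.BSel_dd_mem _ _)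
  refine ⟨R0, h0, ⟨k, hc, fun g => ?_, fun q _ => ?_⟩, fun g hg => ?_⟩
  · rw [nsmul_sub, nsmul_sub, nsmul_sub, hξ.2.1, hξ'.2.1, ← map_nsmul, h0, map_zero]
    simp only [sub_self]
  · have h2 := ((hξ.2.2 q).add (hξ'.2.2 q).neg).add (B.BSel_dd_loc (EE D) R0 ℚ_[q]).neg
    rw [← sub_eq_add_neg, ← sub_eq_add_neg] at h2
    exact h2
  · obtain ⟨X, hX⟩ := B.BSel_finset hc.1 g
    obtain ⟨τ, ⟨σ, hσ⟩, h2⟩ := hLiftQ.1 g hg X
    refine (hX τ h2).symm.trans (B.BSel_act_inj (EE D) (emb ℚ_[2]) ?_)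
    change act (EE D) (emb ℚ_[2]) (ξ τ - ξ' τ - (galQ (EE D) τ R0 - R0)) = _
    rw [map_zero, map_sub, map_sub, map_sub, r1 σ τ hσ, s1 σ τ hσ, gal_XStc _ hσ, h1, map_sub,
      map_sub, fix_XStc]
    abel

end

end Pool.Agent.MP_e23604_nt.Q

end

section

set_option autoImplicit false

open Module Filter Topology Finset
open scoped Classical

namespace Pool.Agent.MP_e23604_nt.R

open B
open Q (Wn dig CmI Cm0 Pre A1 Eta Jm scf St Cork Fg IdxQ basQ levQ)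

theorem APX_pf (hAPX0 : APX0_st) (hDL : DL_st) : APX_st := by
  intro D k ξ l _ hD hξ
  have hD' : (D : ℚ) ≠ 0 := Int.cast_ne_zero.2 hD
  have ell := Q.ell_XStc hD'
  have e1 : ((P.EE D).baseChange Qb).IsElliptic :=
    inferInstanceAs ((P.EE D).map _).IsElliptic
  obtain ⟨R, hR⟩ := hξ.2.2 l
  obtain ⟨T, hT⟩ := Q.fix_XLp hD' (k := ℚ_[l]) (R := 2 ^ k • R) fun σ => by
    obtain ⟨τ, hτ⟩ := exists_res ℚ_[l] σ
    have h := congrArg (fun z => 2 ^ k • z) (hR σ τ hτ)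
    simp only [← map_nsmul, hξ.2.1 τ, map_zero, smul_sub] at h
    exact (sub_eq_zero.1 h.symm)
  obtain ⟨T₁, S, hS⟩ := hAPX0 D l k T hD
  obtain ⟨R₁, hR₁⟩ : ∃ R₁ : Pts (P.EE D) Qb, 2 ^ k • R₁ = T₁ :=
    B.smul_surj (W := (P.EE D).baseChange Qb) (by positivity) T₁
  obtain ⟨U, -, hU⟩ := Q.tors_XStc (P.EE D) (emb ℚ_[l]) (n := 2 ^ k) (by positivity)
    (R - act (P.EE D) (algebraMap ℚ_[l] (AlgebraicClosure ℚ_[l])) S -
      act (P.EE D) (emb ℚ_[l]) R₁) (by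
      rw [nsmul_sub, nsmul_sub, hT, ← map_nsmul, ← map_nsmul, ← map_sub, hS, hR₁, sub_self])
  have h1 : act (P.EE D) (emb ℚ_[l]) (R₁ + U) =
      R - act (P.EE D) (algebraMap ℚ_[l] (AlgebraicClosure ℚ_[l])) S := by
    rw [map_add, hU]; abel
  refine ⟨R₁ + U, fun g hg => sub_eq_zero.1 ?_⟩
  have hc : ξ - B.BSel_dd (P.EE D) (R₁ + U) ∈ cocycles (P.EE D) :=
    sub_mem hξ.1 (B.BSel_dd_mem _ _)
  obtain ⟨X, hX⟩ := B.BSel_finset hc.1 g
  obtain ⟨σ, τ, hσ, h2⟩ := (hDL l g hg).1 X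
  refine (hX τ h2).symm.trans (B.BSel_act_inj (P.EE D) (emb ℚ_[l]) ?_)
  change act (P.EE D) (emb ℚ_[l]) (ξ τ - (galQ (P.EE D) τ (R₁ + U) - (R₁ + U))) = _
  rw [map_zero, map_sub, map_sub, hR σ τ hσ, Q.gal_XStc _ hσ, h1, map_sub, Q.fix_XStc]
  abel

end Pool.Agent.MP_e23604_nt.R

end

section

set_option autoImplicit false

open Module Filter Topology Finset
open scoped Classical

namespace Pool.Agent.MP_e23604_nt.R

open B
open Q (Wn dig CmI Cm0 Pre A1 Eta Jm scf St Cork Fg IdxQ basQ levQ)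

theorem tor_act_CUP {A : Type} [AddCommGroup A] (η : Act A) (g : GQ) {n : ℕ} {x : A}
    (hx : x ∈ tor A n) : η g x ∈ tor A n := by
  rw [mem_tor] at hx ⊢
  rw [← map_nsmul, hx, map_zero]

theorem coc_CUP {A : Type} [AddCommGroup A] {η : Act A} {n : ℕ} {e : A → A → Qb} (he : Wp η n e)
    {a b : GQ → A} (ha : ∀ g h, a (g * h) = a g + η g (a h))
    (hb : ∀ g h, b (g * h) = b g + η g (b h)) (ta : ∀ g, a g ∈ tor A n)
    (tb : ∀ g, b g ∈ tor A n) : Coc ⊤ (cup η e a b) := by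
  intro g _ h _ j _
  have t1 := tor_act_CUP η h (tb j)
  simp only [cup]
  rw [ha, hb, act_mul, map_add, he.eqv g _ (ta h) _ t1,
    he.bil.addl _ (ta g) _ (tor_act_CUP η g (ta h)) _ (tor_act_CUP η g t1),
    he.bil.addr _ (ta g) _ (tor_act_CUP η g (tb h)) _ (tor_act_CUP η g t1)]
  ring

theorem cob_CUP {A : Type} [AddCommGroup A] {η : Act A} {n : ℕ} {e : A → A → Qb} (he : Wp η n e)
    {a b : GQ → A} (ta : ∀ g, a g ∈ tor A n) (tb : ∀ g, b g ∈ tor A n) {H : Subgroup GQ}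
    (ha : InL η H a) (hb : InL η H b) : Cob H (cup η e a b) := by
  obtain ⟨R, hR⟩ := ha
  obtain ⟨R', hR'⟩ := hb
  refine (he.iso H R R' (fun g hg => hR g hg ▸ ta g) fun g hg => hR' g hg ▸ tb g).congr
    fun g hg j hj => ?_
  simp only [cup, hR g hg, hR' j hj]

theorem cst_CUP {A : Type} [AddCommGroup A] {η : Act A} {a : GQ → A}
    (ha : ∀ g h, a (g * h) = a g + η g (a h)) {g h : GQ} (h0 : a (g⁻¹ * h) = 0) : a g = a h := by
  have := ha g (g⁻¹ * h)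
  rw [mul_inv_cancel_left, h0, map_zero, add_zero] at this
  exact this.symm

theorem CUP_pf (hREC : REC_st) (hLEV : LEV_st) : CUP_st := by
  intro A _ J η n cc T hP K e a b S r he ha hb a2 b2 ac bc hS hI hO
  have h0 : Cm0 J := hP.cm.toCm0
  obtain ⟨N, hN, hK⟩ := hLEV A J η n (2 * K) {a, b} hP.cm hP.ga (Set.toFinite _) (by
    rintro ξ (rfl | rfl)
    · exact ha
    · exact hb)
  have ta : ∀ g, a g ∈ tor A (2 ^ K) := fun g => (W_tor h0 K).1 (ha.lev g)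
  have tb : ∀ g, b g ∈ tor A (2 ^ K) := fun g => (W_tor h0 K).1 (hb.lev g)
  have na : ∀ g ∈ N, a g = 0 := fun g hg => ((hK g).1 hg).2 a (Or.inl rfl)
  have nb : ∀ g ∈ N, b g = 0 := fun g hg => ((hK g).1 hg).2 b (Or.inr rfl)
  have nf : ∀ g ∈ N, ∀ u ∈ tor A (2 ^ K), η g u = u := fun g hg u hu =>
    ((hK g).1 hg).1 u ((W_tor h0 K).2 hu)
  have hn : (2 : ℕ) ^ K ≠ 0 := by positivity
  have hp : ∀ g h, cup η e a b g h ^ 2 ^ K = 1 := fun g h =>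
    he.bil.pow _ (ta g) _ (tor_act_CUP η g (tb h))
  refine hREC N (cup η e a b) cc (2 ^ K) S r hN (coc_CUP he ha.coc hb.coc ta tb)
    ⟨fun g _ h _ j _ hj => ?_, fun j _ g _ h _ hh => ?_, fun g _ h _ => ⟨fun h1 => ?_,
      fun ν hν => ?_⟩⟩ hn hp hP.cc (cob_CUP he ta tb ac bc) hS hI fun l _ hl => ?_
  · simp only [cup, cst_CUP hb.coc (nb _ hj)]
  · have e1 : η h (b j) = η g (b j) := by
      rw [← mul_inv_cancel_left g h, act_mul, nf _ hh _ (tb j)]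
    simp only [cup, cst_CUP ha.coc (na _ hh), e1]
  · have := hp g h
    rw [h1, zero_pow hn] at this
    exact zero_ne_one this
  · have t1 := tor_act_CUP η g (tb h)
    simp only [cup]
    rw [he.eqv ν _ (ta g) _ t1, nf ν hν _ (ta g), nf ν hν _ t1]
  · by_cases h2 : l = 2
    · subst h2
      exact Or.inl (cob_CUP he ta tb a2 b2)
    · rcases hO l h2 hl with ⟨h3, h4⟩ | ⟨h3, h4⟩
      · exact Or.inl (cob_CUP he ta tb h3 h4)
      · refine Or.inr ⟨h2, fun γ τ hτ => (hK τ).2 ⟨hP.ga.unr l γ h2 h3 τ hτ _, ?_⟩⟩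
        rintro ξ (rfl | rfl)
        · exact (h4 γ τ hτ).1
        · exact (h4 γ τ hτ).2

end Pool.Agent.MP_e23604_nt.R

end

section

set_option autoImplicit false

open Module Filter Topology Finset
open scoped Classical

namespace Pool.Agent.MP_e23604_nt.R

open B
open Q (Wn dig CmI Cm0 Pre A1 Eta Jm scf St Cork Fg IdxQ basQ levQ)

theorem gen_ETH (W : WeierstrassCurve ℚ) [W.IsElliptic] {A : Type} [AddCommGroup A] (η : Act A)
    (ψ : A ≃+ Pts W Qb) (hψ : ∀ g R, ψ (η g R) = galQ W g (ψ R)) :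
    ∃ (F : Type) (_ : Field F) (_ : Algebra Qb F) (τ : A → F →+* F) (g : GQ → F →+* F)
      (o : A → F → ℤ), Th η τ g o := by
  obtain ⟨F, _, _, _, x, y, v, G⟩ := L.gen_ex W
  choose τ tc tp using fun T : Pts W Qb => G.lift (algebraMap Qb F)
    (G.pt + act W (algebraMap Qb F) T) fun Q e => G.ne (Q - T) (by rw [map_sub, ← e]; simp)
  choose g gc gp using fun σ : GQ => G.lift ((algebraMap Qb F).comp (σ : Qb →+* Qb)) G.pt
    fun Q e => G.ne _ (e.trans (L.ord_act_act W _ _ Q).symm)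
  have H : L.Tr G τ fun Q f => -Int.log 2 (v (τ Q f)) := ⟨tc, tp, fun _ _ => rfl⟩
  have gc' : ∀ (σ : GQ) c, g σ (algebraMap Qb F c) = algebraMap Qb F (σ c) := gc
  have gt : ∀ σ T f, g σ (τ T f) = τ (galQ W σ T) (g σ f) := fun σ T f =>
    G.ext (Φ := (g σ).comp (τ T)) (Ψ := (τ (galQ W σ T)).comp (g σ))
      (fun c => by simp [tc, gc]) (by
        rw [← L.ord_act_act, ← L.ord_act_act, tp, gp, tp, map_add, gp,
          L.ord_fix (σ := (σ : Qb →+* Qb)) (gc σ)]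
        rfl) f
  have gxy : ∀ σ, g σ x = x ∧ g σ y = y := fun σ => WeierstrassCurve.Affine.Point.some.inj (gp σ)
  have glp : ∀ p : Polynomial Qb, Lc ⊤ fun σ => g σ (Polynomial.aeval x p) := fun p => by
    induction p using Polynomial.induction_on' with
    | add p q hp hq => simpa only [map_add] using hp.map₂ hq (· + ·)
    | monomial n a =>
      simpa only [Polynomial.aeval_monomial, map_mul, map_pow, gc', (gxy _).1] using
        (Lc.apply ⊤ a).map fun c => algebraMap Qb F c * x ^ n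
  refine ⟨F, _, _, fun T => τ (ψ T), g, fun Q f => -Int.log 2 (v (τ (ψ Q) f)), fun f => ?_,
    fun S T f => ?_, fun T => tc _, gc', fun σ T f => ?_, fun σ σ' f => ?_, fun f => ?_,
    fun Q => H.omul (ψ Q), fun Q T f => ?_, fun σ Q f => ?_, fun Q => H.oc (ψ Q),
    fun f hf h => H.cst f hf fun Q => ?_, fun f hf => ?_, fun S S' V h => ?_⟩
  · rw [map_zero, H.t0]
  · rw [map_add, H.tadd]
  · rw [hψ, gt]
  · exact G.ext (Φ := g (σ * σ')) (Ψ := (g σ).comp (g σ')) (fun c => by simp [gc'])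
      (by rw [← L.ord_act_act, gp, gp, gp]) f
  · obtain ⟨p, q, d, hd, e⟩ := G.rep f
    have key : (fun σ => g σ f) = fun σ => (g σ (Polynomial.aeval x p) +
        g σ (Polynomial.aeval x q) * y) / g σ (Polynomial.aeval x d) := by
      funext σ
      rw [eq_div_iff ((map_ne_zero (g σ)).2 (G.ane hd)), ← map_mul, e, map_add, map_mul, (gxy σ).2]
    rw [key]
    exact ((glp p).map₂ (glp q) fun a b => a + b * y).map₂ (glp d) (· / ·)
  · rw [map_add, H.tadd]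
  · rw [hψ, ← gt, G.inv (g σ) σ (gc σ) (gxy σ).1]
  · simpa using h (ψ.symm Q)
  · have h := H.dg hf
    have h1 : (Function.support fun Q => -Int.log 2 (v (τ (ψ Q) f))).Finite :=
      h.1.preimage ψ.injective.injOn
    refine ⟨h1.toFinset, fun Q hQ => by simpa using hQ, ?_⟩
    rw [← finsum_eq_sum _ h1, ← h.2]
    exact finsum_comp_equiv (f := fun Q => -Int.log 2 (v (τ Q f))) ψ.toEquiv
  · obtain ⟨f, hf, h1⟩ := H.two (S := ψ S) (S' := ψ S') (V := ψ V)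
      (by rw [← map_add, h, map_add])
    exact ⟨f, hf, fun Q => by simpa only [ψ.apply_eq_iff_eq] using h1 (ψ Q)⟩

theorem TH_pf : TH_st := by
  intro i δ J η D _ hη hD hδ
  have hD' : (D : ℚ) ≠ 0 := by exact_mod_cast hD
  have h0 : δ ≠ 0 := by
    rintro rfl
    exact hD (by exact_mod_cast (hδ.symm.trans (zero_pow (by norm_num))))
  have hu : δ ^ 4 * ((1 : ℚ) : Qb) = ((D : ℚ) : Qb) := by rw [hδ]; simp
  have hv : δ⁻¹ ^ 4 * ((D : ℚ) : Qb) = ((1 : ℚ) : Qb) := by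
    rw [← hu, ← mul_assoc, ← mul_pow, inv_mul_cancel₀ h0, one_pow, one_mul]
  have hw : ∀ g : GQ, (g δ / δ) ^ 4 * ((1 : ℚ) : Qb) = ((1 : ℚ) : Qb) := fun g => by
    rw [div_pow, ← map_pow, hδ, map_intCast, div_self (by exact_mod_cast hD), one_mul]
  have h1 := Q.scQ 1 D Qb δ one_ne_zero hD' hu
  have h2 := Q.scQ D 1 Qb δ⁻¹ hD' one_ne_zero hv
  have := P.EE_ell hD'
  let ψ : A1 ≃+ Pts (P.EE D) Qb :=
    { toFun := scf D δ
      invFun := scf 1 δ⁻¹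
      left_inv := fun R => by
        rw [h1.2.2.1 1 δ⁻¹ one_ne_zero hv, inv_mul_cancel₀ h0]
        exact (h1.2.2.2.1 R).1
      right_inv := fun R => by
        rw [h2.2.2.1 D δ hD' hu, mul_inv_cancel₀ h0]
        exact (h2.2.2.2.1 R).1
      map_add' := h1.1 }
  refine gen_ETH (P.EE D) η ψ fun g R => ?_
  change scf D δ (η g R) = galQ (P.EE D) g (scf D δ R)
  rw [hη, (Q.scQ 1 1 Qb _ one_ne_zero one_ne_zero (hw g)).2.2.1 D δ hD' hu,
    mul_div_cancel₀ _ h0]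
  exact (h1.2.2.2.2 Qb (g : Qb →+* Qb) R).symm

end Pool.Agent.MP_e23604_nt.R

end

section

set_option autoImplicit false

open Module Filter Topology Finset
open scoped Classical

namespace Pool.Agent.MP_e23604_nt.R

open B
open Q (Wn dig CmI Cm0 Pre A1 Eta Jm scf St Cork Fg IdxQ basQ levQ)
open P

theorem unr_SEL {D : ℤ} {n b : ℕ} (hD : D.natAbs = 2 ^ b * n) {k : ℕ}
    {ξ : GQ → Pts (EE D) Qb} (h : Q.Sel D k ξ) {l : ℕ} [hl : Fact l.Prime] {γ : GQ} (h2 : l ≠ 2)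
    (hln : ¬ l ∣ n) {g : GQ} (hg : g ∈ Ine l γ) : ξ g = 0 := by
  have hl2 : ¬ l ∣ 2 := fun e => h2 ((Nat.prime_dvd_prime_iff_eq hl.out Nat.prime_two).1 e)
  have hv := nv_na l γ
  have hlt := nv_lt l γ
  have v2 : nv l γ 2 = 1 := by
    have := v_coprime hv hl.out hlt (n := 2) (by exact_mod_cast hl2)
    simpa using this
  have vD : nv l γ D = 1 := by
    refine v_coprime hv hl.out hlt fun e => ?_
    rw [Int.natCast_dvd, hD] at e
    rcases (Nat.Prime.dvd_mul hl.out).1 e with e | e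
    · exact hl2 (hl.out.dvd_of_dvd_pow e)
    · exact hln e
  refine sel_unram (EE D) h.1 h.2.1 l (h.2.2 l) γ ?_ ?_ ?_ hg
  · simp [Intg, EE, WeierstrassCurve.baseChange, vD]
  · have e : ((EE D).baseChange Qb).Δ = -(2 ^ 6 * (D : Qb) ^ 3) := by
      simp [EE, WeierstrassCurve.baseChange, WeierstrassCurve.Δ, WeierstrassCurve.b₂,
        WeierstrassCurve.b₄, WeierstrassCurve.b₆, WeierstrassCurve.b₈]
      ring
    rw [e, AbsoluteValue.map_neg, map_mul, map_pow, map_pow, v2, vD]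
    norm_num
  · rw [Nat.cast_pow, map_pow, Nat.cast_ofNat, v2, one_pow]

theorem map_SEL {δ : Qb} {η : Act A1} {D : ℤ} (hη : Eta δ η) (hD : D ≠ 0) (hp : δ ^ 4 = D) :
    ∃ Φ : Pts (EE D) Qb →+ A1, (∀ R, Φ R = scf 1 δ⁻¹ R) ∧
      ∀ (g : GQ) R, η g (Φ R) = Φ (galQ (EE D) g R) := by
  have hD' : (D : ℚ) ≠ 0 := by exact_mod_cast hD
  have hDb : (D : Qb) ≠ 0 := by exact_mod_cast hD
  have hδ : δ ≠ 0 := fun e => hDb (by rw [← hp, e]; norm_num)
  have hgδ : ∀ g : GQ, g δ ^ 4 = D := fun g => by rw [← map_pow, hp, map_intCast]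
  have hgδ0 : ∀ g : GQ, g δ ≠ 0 := fun g => (map_ne_zero g).2 hδ
  have hu : ∀ g : GQ, (g δ)⁻¹ ^ 4 * ((D : ℚ) : Qb) = ((1 : ℚ) : Qb) := fun g => by
    rw [inv_pow, hgδ, Rat.cast_intCast, Rat.cast_one, inv_mul_cancel₀ hDb]
  have hu1 : δ⁻¹ ^ 4 * ((D : ℚ) : Qb) = ((1 : ℚ) : Qb) := hu 1
  have H := Q.scQ D 1 Qb δ⁻¹ hD' one_ne_zero hu1
  let Φ : Pts (EE D) Qb →+ A1 := AddMonoidHom.mk' (scf 1 δ⁻¹) H.1
  refine ⟨Φ, fun _ => rfl, fun g R => ?_⟩
  rw [hη g]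
  have e1 : galQ (EE 1) g (Φ R) = scf 1 (g δ)⁻¹ (galQ (EE D) g R) := by
    have := H.2.2.2.2 Qb (g : Qb →+* Qb) R
    rw [map_inv₀] at this
    exact this
  have e2 := (Q.scQ D 1 Qb (g δ)⁻¹ hD' one_ne_zero (hu g)).2.2.1 1 (g δ / δ) one_ne_zero
    (by rw [div_pow, hgδ, hp, div_self hDb, one_mul]) (galQ (EE D) g R)
  rw [e1, e2]
  have e3 : g δ / δ * (g δ)⁻¹ = δ⁻¹ := by
    have := hgδ0 g
    field_simp
  rw [e3]
  rfl

theorem SEL_pf (hAPX : APX_st) (hDIC : DIC_st) : SEL_st := by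
  intro i δ J η D hJ hη hD hp a n k cc ξ ha hc hξ
  obtain ⟨Φ, h1, h2⟩ := map_SEL hη hD hp
  simp only [← h1]
  have hz : Zc J η (2 * k) fun g => Φ (ξ g) :=
    ⟨(lc_iff.1 hξ.1.1).map Φ, fun g h => by rw [hξ.1.2 g h, map_add, h2], fun g => by
      rw [((Q.modQ basQ Q.scQ i).2 J hJ).2.1, ← map_nsmul, hξ.2.1, map_zero]⟩
  have e : (fun g => Φ (2 • ξ g)) = (fun g => Φ (ξ g)) + fun g => Φ (ξ g) :=
    funext fun g => by rw [two_smul, map_add, Pi.add_apply]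
  have hl : ∀ (l : ℕ) [Fact l.Prime], InL η (Dec (nv l 1)) fun g => Φ (ξ g) := fun l _ => by
    obtain ⟨R, hR⟩ := hAPX D k ξ l hD hξ
    exact ⟨Φ R, fun g hg => by rw [dd, h2, ← map_sub, ← hR g hg]⟩
  rw [e]
  refine ⟨hz.add hz, fun l _ γ b1 b2 _ τ hτ => ?_, (hl 2).add (hl 2), ⟨-Φ (ξ cc), fun g hg => ?_⟩,
    fun l _ _ => (hl l).add (hl l)⟩
  · rw [Pi.add_apply, unr_SEL ha hξ b1 b2 hτ, map_zero, add_zero]
  · have h3 : g = 1 ∨ g = cc := by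
      obtain ⟨j, rfl⟩ := hg
      have h4 : cc ^ (2 : ℤ) = 1 := by rw [zpow_two, hc]
      obtain ⟨j, rfl | rfl⟩ := Int.even_or_odd' j
      · exact Or.inl (by simp only [zpow_mul, h4, one_zpow])
      · exact Or.inr (by simp only [zpow_add, zpow_mul, h4, one_zpow, one_mul, zpow_one])
    rcases h3 with rfl | rfl
    · rw [Pi.add_apply, hz.one, add_zero, dd, act_one, sub_self]
    · have h5 := hz.coc g g
      rw [hc, hz.one] at h5
      rw [Pi.add_apply, dd, map_neg, ← eq_neg_of_add_eq_zero_left h5.symm, sub_neg_eq_add]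

end Pool.Agent.MP_e23604_nt.R

end

section

namespace Pool.Agent.MP_e23604_nt.Q

open Finset Filter NumberField
open MP_f68ac8_nt.Zq (Mx sg)
open MP_f68ac8_nt.Zk (Cp Yw rr NS brL)
open MP_f68ac8_nt.Nd (Lr Rcp GenQ Trm)
open scoped BigOperators Topology

open P
open scoped Classical

attribute [local instance 2000] decQ

theorem root_XKum {D : ℚ} (hD : D ≠ 0) (k : ℕ) :
    ∀ X : Pts (EE D) Qb, ∃ R : Pts (EE D) Qb, 2 ^ k • R = X := by
  induction k with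
  | zero => exact fun X => ⟨X, by simp⟩
  | succ k ih =>
    intro X
    obtain ⟨R, hR⟩ := ih X
    obtain ⟨R', hR'⟩ := exists_half hD R
    exact ⟨R', by rw [pow_succ, mul_nsmul', ← hR, ← hR', smul_comm]⟩

theorem kumQ : KumQ := by
  intro D hD k
  choose κ hκ using fun T : Pts (EE D) ℚ => root_XKum hD k (rp (EE D) Qb T)
  refine ⟨κ, fun T => ⟨B.BSel_dd_mem _ (κ T), fun g => ?_, fun q _ => B.BSel_dd_loc _ (κ T) _⟩,
    fun T T' R hR h => ?_⟩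
  · rw [nsmul_sub, ← map_nsmul, hκ, galQ, act_rp, sub_self]
  · obtain ⟨T'', hT⟩ := fixed_pt2 hD (P := κ T - κ T' - R) fun σ => by
      have := h σ
      simp only [dd, map_sub, galQ] at this ⊢
      linear_combination (norm := abel) this
    refine ⟨T'', act_inj (EE D) (Rat.castHom Qb) ?_⟩
    change rp (EE D) Qb T = rp (EE D) Qb (T' + 2 ^ k • T'')
    rw [map_add, map_nsmul, ← hT, nsmul_sub, nsmul_sub, hκ, hκ, hR]
    abel

end Pool.Agent.MP_e23604_nt.Q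

end

section

set_option autoImplicit false

open Module Filter Topology Finset
open scoped Classical

namespace Pool.Agent.MP_e23604_nt.R

open B
open Q (Wn dig CmI Cm0 Pre A1 Eta Jm scf St Cork Fg IdxQ basQ levQ)

/-- a finitely generated group whose elements are divisible up to torsion is finite -/
theorem fin_ERED {M : Type} [AddCommGroup M] (hM : AddGroup.FG M) (k₁ : ℕ)
    (h : ∀ (T : M) (k : ℕ), ∃ (P : M) (j : ℕ), 2 ^ j • 2 ^ k₁ • T = 2 ^ j • 2 ^ k • P) :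
    Finite M := by
  have hf : Module.Finite ℤ M := Module.Finite.iff_addGroup_fg.2 hM
  have h0 : ∀ (φ : M →ₗ[ℤ] ℤ) (T : M), φ T = 0 := by
    intro φ T
    have h1 : ∀ k : ℕ, (2 : ℤ) ^ k ∣ 2 ^ k₁ * φ T := fun k => by
      obtain ⟨P, j, e⟩ := h T k
      have e' := congrArg φ e
      simp only [map_nsmul, nsmul_eq_mul, Nat.cast_pow, Nat.cast_ofNat] at e'
      exact ⟨φ P, mul_left_cancel₀ (pow_ne_zero j two_ne_zero) e'⟩
    have h2 : 2 ^ k₁ * φ T = 0 := by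
      refine Int.eq_zero_of_dvd_of_natAbs_lt_natAbs (h1 (2 ^ k₁ * φ T).natAbs) ?_
      rw [Int.natAbs_pow]
      exact Nat.lt_two_pow_self
    exact (mul_eq_zero.1 h2).resolve_left (pow_ne_zero _ two_ne_zero)
  refine Module.finite_of_fg_torsion M fun T => ?_
  have h3 : (Submodule.torsion ℤ M).mkQ T = 0 := by
    let b := Module.Free.chooseBasis ℤ (M ⧸ Submodule.torsion ℤ M)
    exact b.ext_elem fun i => by
      rw [map_zero]
      exact h0 (b.coord i ∘ₗ (Submodule.torsion ℤ M).mkQ) T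
  exact (Submodule.Quotient.mk_eq_zero _).1 h3

open P

/-- transport of the bound to the curve -/
theorem key_ERED (hSEL : SEL_st) {i δ : Qb} {J : A1 ≃ₗ[ℤ] A1} {η : Act A1} {D : ℤ} (hJ : Jm i J)
    (hη : Eta δ η) (hD : D ≠ 0) (hδ : δ ^ 4 = D) {a n : ℕ} {cc : GQ} (ha : D.natAbs = 2 ^ a * n)
    (hc : cc * cc = 1) (hB : Bex J η n cc) : ∃ k₁ : ℕ, ∀ k ξ, Q.Sel D k ξ →
      ∃ (U : Pts (EE D) Qb) (j : ℕ), 2 ^ j • U = 0 ∧ ∀ g, 2 ^ k₁ • ξ g = galQ (EE D) g U - U := by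
  have hD' : (D : ℚ) ≠ 0 := Int.cast_ne_zero.2 hD
  have h0 : δ ≠ 0 := by
    rintro rfl
    exact hD (by exact_mod_cast (hδ.symm.trans (zero_pow (by norm_num))))
  have u1 : ∀ x : Qb, x ^ 4 = D → x⁻¹ ^ 4 * ((D : ℚ) : Qb) = (1 : ℚ) := fun x hx => by
    rw [Rat.cast_intCast, Rat.cast_one, inv_pow, hx, inv_mul_cancel₀ (Int.cast_ne_zero.2 hD)]
  have u2 : δ ^ 4 * ((1 : ℚ) : Qb) = ((D : ℚ) : Qb) := by
    rw [Rat.cast_intCast, Rat.cast_one, hδ, mul_one]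
  obtain ⟨a1, -, a3, a4, a5⟩ := Q.scQ D 1 Qb δ⁻¹ hD' one_ne_zero (u1 δ hδ)
  obtain ⟨-, -, b3, b4, -⟩ := Q.scQ 1 D Qb δ one_ne_zero hD' u2
  let ψ : Pts (EE D) Qb →+ A1 := AddMonoidHom.mk' (scf 1 δ⁻¹) a1
  have inj : Function.Injective ψ := fun R R' e => by
    have e' := congrArg (scf D δ) e
    change scf D δ (scf 1 δ⁻¹ R) = scf D δ (scf 1 δ⁻¹ R') at e'
    rwa [a3 D δ hD' u2, a3 D δ hD' u2, mul_inv_cancel₀ h0, (a4 R).1, (a4 R').1] at e'
  have sur : ∀ T : A1, ψ (scf D δ T) = T := fun T => by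
    change scf 1 δ⁻¹ (scf D δ T) = T
    rw [b3 1 δ⁻¹ one_ne_zero (u1 δ hδ), inv_mul_cancel₀ h0, (b4 T).1]
  have eqv : ∀ (g : GQ) (R : Pts (EE D) Qb), η g (ψ R) = ψ (galQ (EE D) g R) := fun g R => by
    have hg : g δ ^ 4 = D := by rw [← map_pow, hδ, map_intCast]
    have hg0 : g δ ≠ 0 := (map_ne_zero g).2 h0
    have h1 := a5 Qb (g : Qb →+* Qb) R
    rw [map_inv₀] at h1
    have h2 := (Q.scQ D 1 Qb (g δ)⁻¹ hD' one_ne_zero (u1 _ hg)).2.2.1 1 (g δ / δ) one_ne_zero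
      (by rw [div_pow, hg, hδ, div_self (Int.cast_ne_zero.2 hD), one_mul]) (galQ (EE D) g R)
    rw [show g δ / δ * (g δ)⁻¹ = δ⁻¹ by field_simp] at h2
    exact (hη g _).trans ((congrArg (scf 1 (g δ / δ)) h1).trans h2)
  obtain ⟨k₀, hk⟩ := hB
  refine ⟨k₀ + 1, fun k ξ hξ => ?_⟩
  obtain ⟨T, ⟨j, hj⟩, e⟩ := hk k _ (hSEL i δ J η D hJ hη hD hδ a n k cc ξ ha hc hξ)
  refine ⟨scf D δ T, j, inj ?_, fun g => inj ?_⟩
  · rw [map_nsmul, sur, hj, map_zero]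
  · rw [map_sub, ← eqv, sur, pow_succ, mul_smul, map_nsmul]
    exact congrFun e g

attribute [local instance 2000] decQ

theorem RED_pf (hSEL : SEL_st) : RED_st := by
  intro i δ J η D hJ hη hD hδ a n cc ha hc hB hC hF
  have hD' : (D : ℚ) ≠ 0 := Int.cast_ne_zero.2 hD
  obtain ⟨k₁, hk⟩ := key_ERED hSEL hJ hη hD hδ ha hc hB
  constructor
  · have h1 : Finite (Pts (EE D) ℚ) := by
      refine fin_ERED hF k₁ fun T k => ?_
      obtain ⟨κ, hκ⟩ := Q.root_XKum hD' k (rp (EE D) Qb T)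
      obtain ⟨U, j, hU, e⟩ := hk k (fun g => galQ (EE D) g κ - κ) ⟨BSel_dd_mem _ κ, fun g => by
        rw [nsmul_sub, ← map_nsmul, hκ, galQ, act_rp, sub_self], fun q _ => BSel_dd_loc _ κ _⟩
      obtain ⟨P₀, hP⟩ := fixed_pt2 hD' (P := 2 ^ k₁ • κ - U) fun σ => by
        have := e σ
        simp only [MP_e23604_nt.dd, map_sub, map_nsmul, galQ, nsmul_sub] at this ⊢
        linear_combination (norm := abel) this
      refine ⟨P₀, j, act_inj (EE D) (Rat.castHom Qb) ?_⟩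
      change rp (EE D) Qb _ = rp (EE D) Qb _
      rw [map_nsmul, map_nsmul, map_nsmul, map_nsmul, ← hP, ← hκ, nsmul_sub, nsmul_sub,
        smul_comm (2 ^ j) (2 ^ k) U, hU, smul_zero, sub_zero, smul_comm (2 ^ k₁)]
    have e : EZ D = (EE D).baseChange ℚ := by ext <;> simp [WeierstrassCurve.baseChange, EZ, EE]
    rw [e]
    exact h1
  · obtain ⟨C, hC⟩ := hC
    have h1 : {c | c ∈ Sha (EZ D) ∧ 2 ^ k₁ • c = 0}.Finite := by
      rw [← Set.encard_ne_top_iff]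
      intro e
      have h2 := hC k₁
      rw [e, ENat.top_mul (pow_ne_zero _ two_ne_zero), top_le_iff] at h2
      exact ENat.natCast_ne_top (C * 2 ^ k₁) (by exact_mod_cast h2)
    refine h1.subset ?_
    rintro c ⟨hc1, k, hc2⟩
    refine ⟨hc1, ?_⟩
    have := Q.ell_XSel hD'
    obtain ⟨ξ, rfl, r2, r3⟩ := sha_rep (EE D) (pow_pos two_pos k) hc1 hc2
    obtain ⟨U, -, -, e⟩ := hk k ξ.1 ⟨ξ.2, r2, r3⟩
    refine (QuotientAddGroup.eq_zero_iff (2 ^ k₁ • ξ)).2 ⟨U, ?_⟩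
    rintro g _ rfl
    exact e g

end Pool.Agent.MP_e23604_nt.R

end

section

set_option autoImplicit false

open Module Filter Topology Finset
open scoped Classical

namespace Pool.Agent.MP_e23604_nt.R

open B
open Q (Wn dig CmI Cm0 Pre A1 Eta Jm scf St Cork Fg IdxQ basQ levQ)

theorem cnt_FSHA {G β : Type} [AddCommGroup G] (H K : AddSubgroup G) {S : Set β}
    (hS : S.Finite) (c : K → β) (hc : ∀ x, c x ∈ S)
    (h : ∀ x y : K, c x = c y → -(x : G) + y ∈ H) :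
    H.relIndex K ≠ 0 ∧ H.relIndex K ≤ Nat.card S := by
  have := hS.to_subtype
  let f : K ⧸ H.addSubgroupOf K → S := fun q => ⟨c q.out, hc _⟩
  have hf : Function.Injective f := fun q q' e => by
    rw [← q.out_eq', ← q'.out_eq', QuotientAddGroup.eq, AddSubgroup.mem_addSubgroupOf]
    exact h _ _ (congrArg Subtype.val e)
  have := Finite.of_injective f hf
  exact ⟨Nat.card_pos.ne', Nat.card_le_card_of_injective f hf⟩

theorem cb_FSHA {A : Type} [AddCommGroup A] (η : Act A) (R : A) {k N : ℕ} (hN : N ≠ 0)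
    (h1 : ∀ g, 2 ^ k • dd η R g = 0) (h2 : N • 2 ^ k • R = 0) : dd η R ∈ Cb η := by
  obtain ⟨a, b, hb, rfl⟩ := Nat.exists_eq_two_pow_mul_odd hN
  have c1 : b ^ (2 ^ k).totient ≡ 1 [MOD 2 ^ k] :=
    Nat.ModEq.pow_totient (Nat.Coprime.pow_right k hb.coprime_two_right)
  obtain ⟨t, ht⟩ := (Nat.modEq_iff_dvd' (Nat.one_le_pow _ _ hb.pos)).1 c1.symm
  obtain ⟨s, hs⟩ := dvd_pow_self b (Nat.totient_pos.2 (Nat.two_pow_pos k)).ne'
  have c2 : b * s = t * 2 ^ k + 1 := by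
    rw [← hs, mul_comm, ← ht, Nat.sub_add_cancel (Nat.one_le_pow _ _ hb.pos)]
  refine ⟨(b * s) • R, ⟨a + k, ?_⟩, funext fun g => ?_⟩
  · rw [← mul_smul, show 2 ^ (a + k) * (b * s) = s * (2 ^ a * b * 2 ^ k) by ring, mul_smul,
      mul_smul, h2, smul_zero]
  · have c3 : dd η ((b * s) • R) g = (b * s) • dd η R g := by
      rw [dd, dd, map_nsmul, smul_sub]
    rw [c3, c2, add_smul, mul_smul, h1, smul_zero, zero_add, one_smul]

theorem gal_FSHA (W : WeierstrassCurve ℚ) {F : Type} [Field F] [CharZero F]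
    {σ : AlgebraicClosure F ≃ₐ[F] AlgebraicClosure F} {τ : GQ}
    (h : ∀ x, emb F (τ x) = σ (emb F x)) (R : Pts W Qb) :
    act W (emb F) (galQ W τ R) =
      act W (σ : AlgebraicClosure F →+* AlgebraicClosure F) (act W (emb F) R) := by
  rw [galQ, BSel_act_act, BSel_act_act, show (emb F).comp (τ : Qb →+* Qb) =
    (σ : AlgebraicClosure F →+* AlgebraicClosure F).comp (emb F) from RingHom.ext h]

theorem res_FSHA (W : WeierstrassCurve ℚ) (F : Type) [Field F] [CharZero F] (H : Subgroup GQ)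
    (hH : ∀ (σ : AlgebraicClosure F ≃ₐ[F] AlgebraicClosure F) (τ : GQ),
      (∀ x, emb F (τ x) = σ (emb F x)) → τ ∈ H) (x : Z1 (galQ W)) (R : Pts W Qb)
    (h : ∀ g ∈ H, x.1 g = galQ W g R - R) :
    (QuotientAddGroup.mk x : H1 (galQ W)) ∈ resKer W F :=
  ⟨x, ⟨act W (emb F) R, fun σ τ e => by
    change act W (emb F) (x.1 τ) = _
    rw [h τ (hH σ τ e), map_sub, gal_FSHA W e]⟩, rfl⟩

open P in
theorem psi_FSHA {δ : Qb} {η : Act A1} {D : ℤ} (hη : Eta δ η) (hD : D ≠ 0) (hδ : δ ^ 4 = D) :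
    ∃ ψ : A1 →+ Pts (EE D) Qb, Function.Bijective ψ ∧
      ∀ g R, ψ (η g R) = galQ (EE D) g (ψ R) := by
  have hq : (D : ℚ) ≠ 0 := Int.cast_ne_zero.2 hD
  have h0 : δ ≠ 0 := by
    rintro rfl
    exact hD (by exact_mod_cast (hδ.symm.trans (zero_pow (by norm_num))))
  have hu : δ ^ 4 * ((1 : ℚ) : Qb) = ((D : ℚ) : Qb) := by
    rw [hδ]
    simp
  have hv : δ⁻¹ ^ 4 * ((D : ℚ) : Qb) = ((1 : ℚ) : Qb) := by
    rw [← hu, ← mul_assoc, ← mul_pow, inv_mul_cancel₀ h0, one_pow, one_mul]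
  obtain ⟨a1, a2, -, -, a5⟩ := Q.scQ 1 D Qb δ one_ne_zero hq hu
  obtain ⟨-, -, b3, b4, -⟩ := Q.scQ D 1 Qb δ⁻¹ hq one_ne_zero hv
  refine ⟨AddMonoidHom.mk' (scf D δ) a1, ⟨(injective_iff_map_eq_zero _).2 fun R h =>
    by_contra fun hR => (a2 R hR).1 h, fun S => ⟨scf 1 δ⁻¹ S, (b3 D δ hq hu S).trans (by
      rw [mul_inv_cancel₀ h0]
      exact (b4 S).1)⟩⟩, fun g R => ?_⟩
  have hg : (g δ / δ) ^ 4 * ((1 : ℚ) : Qb) = ((1 : ℚ) : Qb) := by
    rw [div_pow, ← map_pow, hδ, map_intCast, div_self (by exact_mod_cast hD), one_mul]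
  have h1 := (Q.scQ 1 1 Qb _ one_ne_zero one_ne_zero hg).2.2.1 D δ hq hu (galQ (EE 1) g R)
  rw [mul_div_cancel₀ _ h0] at h1
  rw [hη]
  exact h1.trans (a5 Qb (g : Qb →+* Qb) R).symm

attribute [local instance 2000] decQ

open P in
theorem rat_FSHA {D : ℤ} (hD : D ≠ 0) (h : Finite (EZ D).toAffine.Point) {S : Pts (EE D) Qb}
    (hS : ∀ g, galQ (EE D) g S = S) : ∃ N : ℕ, N ≠ 0 ∧ N • S = 0 := by
  have e : EZ D = (EE D).baseChange ℚ := by ext <;> simp [WeierstrassCurve.baseChange, EZ, EE]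
  rw [e] at h
  have h1 : Finite (Pts (EE D) ℚ) := h
  obtain ⟨P₀, rfl⟩ := fixed_pt2 (Int.cast_ne_zero.2 hD) (P := S) fun σ => sub_eq_zero.2 (hS σ)
  exact ⟨Nat.card (Pts (EE D) ℚ), Nat.card_pos.ne', by
    rw [← map_nsmul, card_nsmul_eq_zero', map_zero]⟩

theorem SHA_pf : SHA_st := by
  intro i δ J η D hJ hη hD hδ n cc hc hl hF
  have h0 := (Q.cm_XMod Q.scQ hJ).toCm0
  obtain ⟨ψ, ⟨inj, sur⟩, eqv⟩ := psi_FSHA hη hD hδ
  refine ⟨Nat.card {c | c ∈ Sha (EZ D) ∧ ∃ k : ℕ, 2 ^ k • c = 0}, fun k => ?_⟩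
  have tor : ∀ x : Sq J η n cc ∅ (2 * k), ∀ g, 2 ^ k • x.1 g = 0 := fun x g =>
    (W_tor h0 k).1 (x.2.1.lev g)
  let z : Sq J η n cc ∅ (2 * k) → Z1 (galQ (P.EE D)) := fun x =>
    ⟨fun g => ψ (x.1 g), lc_iff.2 (x.2.1.lc.map ψ), fun g h => by
      beta_reduce
      rw [x.2.1.coc, map_add, eqv]⟩
  have loc : ∀ x H, InL η H x.1 → ∃ R, ∀ g ∈ H, (z x).1 g = galQ (P.EE D) g R - R := by
    rintro x H ⟨R, hR⟩
    refine ⟨ψ R, fun g hg => ?_⟩
    change ψ (x.1 g) = _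
    rw [hR g hg, dd, map_sub, eqv]
  refine cnt_FSHA _ _ hF.2 (fun x => (QuotientAddGroup.mk (z x) : H1 (galQ (P.EE D))))
    (fun x => ⟨⟨?_, ?_⟩, k, ?_⟩) fun x y e => ?_
  · obtain ⟨R, hR⟩ := loc x _ x.2.2.2.2.1
    exact res_FSHA _ ℝ _ hc.2 _ R hR
  · refine AddSubgroup.mem_iInf.2 fun l => AddSubgroup.mem_iInf.2 fun _ => ?_
    obtain ⟨R, hR⟩ := loc x _ (hl _ x.1 x.2 l)
    refine res_FSHA _ ℚ_[l] _ (fun σ τ hτ y => ?_) _ R hR
    rw [nv_apply, nv_apply, AlgEquiv.one_apply, AlgEquiv.one_apply, hτ]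
    exact (spectralNorm_eq_of_equiv σ _).symm
  · have e : 2 ^ k • z x = 0 := Subtype.ext (funext fun g => by
      change 2 ^ k • ψ (x.1 g) = 0
      rw [← map_nsmul, tor, map_zero])
    exact congrArg (QuotientAddGroup.mk : _ → H1 (galQ (P.EE D))) e
  · obtain ⟨S, hS⟩ := QuotientAddGroup.eq.1 e
    obtain ⟨R, rfl⟩ := sur S
    have e1 : -x.1 + y.1 = dd η R := funext fun g => inj (by
      rw [dd, map_sub, eqv, Pi.add_apply, Pi.neg_apply, map_add, map_neg]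
      exact hS g g rfl)
    have e2 : ∀ g, 2 ^ k • dd η R g = 0 := fun g => by
      rw [← e1, Pi.add_apply, Pi.neg_apply, smul_add, smul_neg, tor, tor, neg_zero, add_zero]
    obtain ⟨N, hN, h1⟩ := rat_FSHA hD hF.1 (S := ψ (2 ^ k • R)) fun g => by
      have := e2 g
      rw [dd, smul_sub, sub_eq_zero, ← map_nsmul] at this
      rw [← eqv, this]
    rw [e1]
    exact cb_FSHA η R hN e2 (inj (by rw [map_nsmul, h1, map_zero]))

end Pool.Agent.MP_e23604_nt.R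

end
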