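import Pool.Agent.Mg.Fe23604m.G463337
import Pool.Agent.Mg.Fe23604m.Ga3c24f
import Pool.Agent.Mg.Fe23604m.G47b00c
import Pool.Agent.Mg.Fe23604m.G0a5d16

set_option linter.all false

section

/-!
Total ramification at inert primes, and inert primes with prescribed Frobenius elements.
-/

set_option autoImplicit false

open Finset QuadraticAlgebra
open scoped Classical

namespace Pool.Agent.MP_e23604_nt.Y

open B R S W

theorem core_RAMI (V : Plc) (ϖ : Zw) (T T' : Pt) (hP : PP ϖ) (hq : IsCoprime ϖ 6 ∨ ϖ = -2)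
    (hV : Ov V ϖ) (hT : ϖ • T = 0) (hT' : ϖ • T' = 0) (T0' : T ≠ 0) (T1' : T' ≠ 0) :
    ∃ τ ∈ V.I, gal τ T = T' := by
  have h0 := hP.2.ne
  have h3 : ¬ Ov V 3 := fun e =>
    (Ov_three.1 e).cop (pw_prime.coprime_iff_not_dvd.2 hP.2.pw) hV
  have gen : ∀ S : Pt, S ≠ 0 → ϖ • S = 0 → W.Gen ϖ S := fun S a b c =>
    ⟨fun e => by_contra fun k => a (cop_smul (hP.1.coprime_iff_not_dvd.2 k) b e), dvd_smul b⟩
  have e1 := (FRB_ok V ϖ hP hV).1
  have le : ∀ S S' : Pt, S ≠ 0 → ϖ • S = 0 → ϖ • S' = 0 → V.v (zz S') ≤ V.v (zz S) := by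
    intro S S' a b c
    obtain ⟨u, rfl⟩ := (CYG_ok ϖ h0).2.1 S (gen S a b) S' c
    exact (E1m (e1 S b) u).2.2
  have eq : ∀ S ∈ (tor ϖ).erase 0, V.v (zz S) = V.v (zz T) := fun S hS =>
    have := (mem_tor0 h0).1 hS
    le_antisymm (le T S T0' hT this.2) (le S T this.1 this.2 hT)
  have r0 : 0 < V.v (zz T) := V.v.pos fun e => T0' ((zz_zero_iff (e1 T hT)).1 e)
  have r1 := zz_lt (e1 T hT)
  have cd : ((tor ϖ).erase 0).card = nn ϖ - 1 := by
    rw [card_erase_of_mem (zero_tor h0), CARD_ok ϖ h0]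
  have hϖ : V.v (W.io ϖ) = V.v (zz T) ^ (nn ϖ - 1) := by
    rcases hq with c6 | rfl
    · have k := ((UNIT_ok ϖ V T0 c6 h3).1 (by rw [hP.2.smul three_T0]; exact T0_E1 V)).1
      rw [Fa, map_mul, map_pow, map_prod, prod_congr rfl (g := fun _ => (V.v (zz T) ^ 2)⁻¹)
        fun S hS => by
          have := (mem_tor0 h0).1 hS
          rw [xc_T0.1, zero_sub, V.v.map_neg, ← eq S hS]
          exact eq_inv_of_mul_eq_one_left (E1_xz (e1 S this.2) this.1).1,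
        prod_const, cd, inv_pow, mul_inv_eq_one₀ (by positivity), ← pow_mul, mul_comm,
        pow_mul] at k
      exact (pow_left_inj₀ (V.v.nonneg _) (by positivity) two_ne_zero).1 k
    · have k1 : -T = T := by
        rw [neg_smul, neg_eq_zero, two_smul] at hT
        exact neg_eq_of_add_eq_zero_left hT
      have k2 := (xc_neg T).2 T0'
      rw [k1] at k2
      have k3 : W.io (-2) * yc T = 1 := by
        rw [map_neg, map_ofNat]
        linear_combination -k2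
      have k4 := congrArg V.v k3
      rw [map_mul, map_one] at k4
      have k5 := (E1_xz (e1 T hT) T0').2
      rw [nn_neg, nn_two]
      calc V.v (W.io (-2)) = V.v (W.io (-2)) * (V.v (yc T) * V.v (zz T) ^ 3) := by rw [k5, mul_one]
        _ = V.v (zz T) ^ (4 - 1) := by rw [← mul_assoc, k4, one_mul]
  let O := (tor ϖ).filter fun S => ∃ τ ∈ V.I, gal τ T = S
  have sub : O ⊆ (tor ϖ).erase 0 := fun S hS => by
    obtain ⟨a, τ, -, rfl⟩ := mem_filter.1 hS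
    exact mem_erase.2 ⟨fun e => T0' ((gal_ne τ).1 e), a⟩
  have TO : T ∈ O := mem_filter.2 ⟨(mem_tor h0).2 hT, 1, V.I.one_mem, W.gal_one T⟩
  obtain ⟨k, hk⟩ := (PLK_ok.2.2.1 V ϖ hP.1 hV).2.2.2.2.2.2 (∏ S ∈ O, zz S)
    (prod_ne_zero_iff.2 fun S hS e => r0.ne (by rw [← eq S (sub hS), e, map_zero]))
    fun τ hτ => by
      have k1 : ∀ S ∈ O, gal τ S ∈ O := fun S hS => by
        obtain ⟨a, σ, b, rfl⟩ := mem_filter.1 hS
        exact mem_filter.2 ⟨(mem_tor h0).2 (by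
          rw [← gal_smul (V.D_le (V.I_le hτ)), (mem_tor h0).1 a, map_zero]),
          τ * σ, V.I.mul_mem hτ b, W.gal_mul _ _ _⟩
      rw [map_prod]
      exact prod_nbij (gal τ) k1 (gal_inj τ).injOn
        (surjOn_of_injOn_of_card_le _ k1 (gal_inj τ).injOn le_rfl) fun S _ => (zz_gal τ S).symm
  rw [map_prod, prod_congr rfl fun S hS => eq S (sub hS), prod_const, hϖ, ← zpow_natCast,
    ← zpow_natCast, ← zpow_mul] at hk
  have hk' := zpow_right_injective₀ r0 r1.ne hk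
  have c1 : 0 < O.card := card_pos.2 ⟨T, TO⟩
  have c2 : nn ϖ - 1 ≤ O.card :=
    Nat.le_of_dvd c1 (Int.natCast_dvd_natCast.1 ⟨k, hk'⟩)
  have := eq_of_subset_of_card_le sub (cd ▸ c2)
  exact (mem_filter.1 (show T' ∈ O from this ▸ (mem_tor0 h0).2 ⟨T1', hT'⟩)).2

theorem RAMI_pf : RAMI_st := by
  intro V T T' h3 hT hT' h0 h0'
  have hl : V.l.Prime := V.hl.out
  have hP : PP (-(V.l : Zw)) := by
    refine ⟨(inert_prime hl h3).neg, ?_⟩
    obtain ⟨k, hk⟩ : ∃ k, V.l + 1 = 3 * k := ⟨(V.l + 1) / 3, by omega⟩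
    have : (V.l : Zw) + 1 = 3 * k := by exact_mod_cast congrArg (Nat.cast : ℕ → Zw) hk
    exact ⟨-k, by linear_combination -this⟩
  refine core_RAMI V (-(V.l : Zw)) T T' hP ?_ ((Ov_l V).dvd (dvd_neg.2 dvd_rfl))
    (by rw [neg_smul, hT, neg_zero]) (by rw [neg_smul, hT', neg_zero]) h0 h0'
  by_cases h2 : V.l = 2
  · right
    rw [h2]
    rfl
  · refine Or.inl (cop6.2 ⟨fun e => h2 ?_, hP.2.pw⟩)
    have := two_dvd_iff.1 e
    rw [nn_neg, nn_nat] at this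
    exact ((Nat.prime_dvd_prime_iff_eq Nat.prime_two hl).1
      (Nat.prime_two.dvd_of_dvd_pow this)).symm

theorem one_RAMI (N : Subgroup GQ) (g : GQ) (B : ℕ) (hN : ON N) (hg : g ∉ GK) :
    ∃ (V : Plc) (φ : GQ) (i j : ℕ), In V φ ∧ B < V.l ∧ (∀ W : Plc, W.l = V.l → W.I ≤ N) ∧
      (g ^ i)⁻¹ * φ ∈ N ⊓ GK ∧ (φ ^ j)⁻¹ * g ∈ N := by
  obtain ⟨q, hq, γ, φ, i, j, a1, a2, a3, a4, a5⟩ := CHQ_ok (N ⊓ GK) g (B + 3) (hN.inf GK_on)
  have b1 : φ ∉ GK := fun e => hg (by simpa using GK.mul_mem (GK.pow_mem e j) a5.2)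
  have b3 : q % 3 = 2 := by
    have : ¬ 3 ∣ q := fun e => by
      have := (Nat.prime_dvd_prime_iff_eq Nat.prime_three hq.out).1 e
      omega
    have : q % 3 ≠ 1 := fun e => b1 (S.LOC_ok.2.2.1 q γ e a2.1)
    omega
  refine ⟨⟨q, γ⟩, φ, i, j, ⟨b3, a2⟩, by dsimp only; omega, ?_, a4, a5.1⟩
  rintro ⟨l, γ'⟩ (rfl : l = q) τ hτ
  exact (a3 γ' hτ.1).1

theorem two_RAMI {A A' : Type} [AddCommGroup A] [AddCommGroup A'] {U : Subgroup GQ}
    {b : GQ → A} {b' : GQ → A'} {T : AddSubgroup A} {T' : AddSubgroup A'} (hb : Adt U b)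
    (hb' : Adt U b') (h : ∃ u ∈ U, b u ∉ T) (h' : ∃ u ∈ U, b' u ∉ T') :
    ∃ u ∈ U, b u ∉ T ∧ b' u ∉ T' := by
  obtain ⟨g₁, g1, e1⟩ := h
  obtain ⟨g₂, g2, e2⟩ := h'
  by_cases k1 : b' g₁ ∈ T'
  · by_cases k2 : b g₂ ∈ T
    · refine ⟨g₁ * g₂, U.mul_mem g1 g2, ?_, ?_⟩
      · rwa [hb _ g1 _ g2, T.add_mem_cancel_right k2]
      · rwa [hb' _ g1 _ g2, T'.add_mem_cancel_left k1]
    · exact ⟨g₂, g2, k2, e2⟩
  · exact ⟨g₁, g1, e1, k1⟩

theorem CHI_pf (hINF : INF_st) : CHI_st := by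
  refine ⟨fun N g B hN hg => ?_, ?_⟩
  · obtain ⟨V, φ, i, j, a1, a2, a3, a4, a5⟩ := one_RAMI N g B hN hg
    exact ⟨V, φ, i, j, a1, a2, a3, a4.1, a5⟩
  intro U c B A A' _ _ a a' T T' hU hG hc ha ⟨M, m1, m2⟩ ha' ⟨M', n1, n2⟩ h h'
  have ci : c⁻¹ = c := inv_eq_of_mul_eq_one_left hc.sq
  have cU : ∀ u ∈ U, c * u * c ∈ U := fun u hu => by
    have := hU.1.conj_mem u hu c
    rwa [ci] at this
  have cm : ∀ u v : GQ, c * (u * v) * c = c * u * c * (c * v * c) := fun u v => by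
    calc c * (u * v) * c = c * u * 1 * v * c := by group
      _ = c * u * (c * c) * v * c := by rw [hc.sq]
      _ = _ := by group
  have ad : ∀ (X : Type) [AddCommGroup X] (x : GQ → X), Adt U x →
      Adt U fun u => x (c * u * c) + x u := fun X _ x hx u hu v hv => by
    show x (c * (u * v) * c) + x (u * v) = x (c * u * c) + x u + (x (c * v * c) + x v)
    rw [cm, hx _ (cU u hu) _ (cU v hv), hx _ hu _ hv]
    abel
  obtain ⟨u, hu, e, e'⟩ := two_RAMI (ad A a ha) (ad A' a' ha') h h'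
  have gK : c * u ∉ GK := fun k => hc.nk (by simpa using GK.mul_mem k (GK.inv_mem (hG hu)))
  have hN : ON (U ⊓ (M ⊓ M')) := hU.inf (m1.inf n1)
  obtain ⟨V, φ, i, j, a1, a2, a3, a4, a5⟩ := one_RAMI (U ⊓ (M ⊓ M')) (c * u) B hN gK
  obtain ⟨p1, p2, -, p4, p5, -⟩ := hINF.2.2 V φ a1
  have g2 : (c * u) ^ 2 = c * u * c * u := by rw [pow_two, mul_assoc (c * u)]
  have g2U : (c * u) ^ 2 ∈ U := g2 ▸ U.mul_mem (cU u hu) hu
  have cφ : c * φ ∈ U := by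
    obtain ⟨k, rfl | rfl⟩ := Nat.even_or_odd' i
    · refine absurd ?_ p4
      have k1 : (c * u) ^ (2 * k) ∈ GK := by
        rw [pow_mul]
        exact GK.pow_mem (hG g2U) k
      simpa using GK.mul_mem k1 a4.2
    · have k1 : c * φ = u * ((c * u) ^ 2) ^ k * (((c * u) ^ (2 * k + 1))⁻¹ * φ) := by
        rw [pow_succ' (c * u) (2 * k), pow_mul]
        generalize ((c * u) ^ 2) ^ k = y
        calc c * φ = c⁻¹ * φ := by rw [ci]
          _ = _ := by group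
      rw [k1]
      exact U.mul_mem (U.mul_mem hu (U.pow_mem g2U k)) a4.1.1
  have φ2 : φ ^ 2 ∈ U := by
    have k1 : φ ^ 2 = c * (c * φ) * c * (c * φ) := by
      calc φ ^ 2 = 1 * φ * 1 * φ := by rw [pow_two, one_mul, mul_one]
        _ = c * c * φ * (c * c) * φ := by rw [hc.sq]
        _ = _ := by group
    rw [k1]
    exact U.mul_mem (cU _ cφ) cφ
  have a6 : ((φ ^ 2) ^ j)⁻¹ * (c * u) ^ 2 ∈ U ⊓ (M ⊓ M') := by
    have k1 : ((φ ^ 2) ^ j)⁻¹ * (c * u) ^ 2 =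
        (φ ^ j)⁻¹ * ((φ ^ j)⁻¹ * (c * u)) * (φ ^ j)⁻¹⁻¹ * ((φ ^ j)⁻¹ * (c * u)) := by
      rw [← pow_mul, mul_comm 2 j, pow_mul]
      generalize φ ^ j = x
      generalize c * u = y
      rw [pow_two, pow_two]
      group
    rw [k1]
    exact mul_mem (hN.1.conj_mem _ a5 _) a5
  have VD : V.D ≤ U := ((FRK_ok V _ p1.1 p2).2.2.2 _ p5).2.2.2.2.1 U hU.2 φ2
    fun τ hτ => (a3 V rfl hτ).1
  refine ⟨V, φ, a1, a2, cφ, fun W hW σ hσ => ?_, fun k => e ?_, fun k => e' ?_⟩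
  · obtain ⟨g, hg⟩ := (PLK_ok.2.2.2.2.1 V W).1 hW.symm
    rw [((PLK_ok.2.2.2.2.1 W (V.mv g)).2 hg).2.1, Plc.mv_D] at hσ
    have := hU.1.conj_mem _ (VD hσ) g⁻¹
    simpa [mul_assoc] using this
  · show a (c * u * c) + a u ∈ T
    rw [← ha _ (cU u hu) _ hu, ← g2, ← m2 _ (U.pow_mem φ2 j) _ g2U a6.2.1, pow_CREC ha φ2]
    exact T.nsmul_mem k j
  · show a' (c * u * c) + a' u ∈ T'
    rw [← ha' _ (cU u hu) _ hu, ← g2, ← n2 _ (U.pow_mem φ2 j) _ g2U a6.2.2, pow_CREC ha' φ2]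
    exact T'.nsmul_mem k j

end Pool.Agent.MP_e23604_nt.Y

end

section

/-!
The reciprocity law for conjugate self-dual characters.
-/

set_option autoImplicit false

open Finset QuadraticAlgebra
open scoped Classical

namespace Pool.Agent.MP_e23604_nt.Y

open B R S W

theorem inv_RCS {c : GQ} (hc : Cj c) : c⁻¹ = c := inv_eq_of_mul_eq_one_right hc.sq

theorem mul_RCS {c : GQ} (hc : Cj c) (g h : GQ) : c * (g * h) * c = c * g * c * (c * h * c) := by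
  simp only [mul_assoc]
  rw [← mul_assoc c c, hc.sq, one_mul]

theorem lc_RCS {A : Type} {c : GQ} (hc : Cj c) (hG : ∀ g, g ∈ GK ↔ c * g * c ∈ GK) {f : GQ → A}
    (h : Lc GK f) : Lc GK fun g => f (c * g * c) := by
  obtain ⟨N, h1, h2⟩ := h
  refine ⟨N, h1, fun g hg k hk e => h2 _ ((hG g).1 hg) _ ((hG k).1 hk) ?_⟩
  have e1 : (c * g * c)⁻¹ * (c * k * c) = c * (g⁻¹ * k) * c⁻¹ := by
    rw [mul_inv_rev, mul_inv_rev, inv_RCS hc, mul_RCS hc]
    simp only [mul_assoc]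
  rw [e1]
  exact h1.1.conj_mem _ e c

theorem conj_RCS {R : Type} [CommRing R] {lam x : GQ → R} (hl : Mu GK lam) (hx : Co lam GK x)
    {k h : GQ} (hk : k ∈ GK) (hh : h ∈ GK) (e : lam h = 1) : x (k * h * k⁻¹) = lam k * x h := by
  have m1 : k * h * k⁻¹ ∈ GK := GK.mul_mem (GK.mul_mem hk hh) (GK.inv_mem hk)
  have e1 : lam (k * h * k⁻¹) = 1 := by
    rw [hl.2.2 _ (GK.mul_mem hk hh) _ (GK.inv_mem hk), hl.2.2 _ hk _ hh, e, mul_one,
      ← hl.2.2 _ hk _ (GK.inv_mem hk), mul_inv_cancel, hl.2.1]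
  have e2 := hx.2 _ m1 _ hk
  rw [inv_mul_cancel_right, hx.2 _ hk _ hh, e1] at e2
  linear_combination -e2

theorem tame_RCS {R : Type} [CommRing R] {p n : ℕ} (j : ZMod (p ^ n) →+* R) (hp : p.Prime)
    (hn : 1 ≤ n) {V : Plc} (h3 : V.l % 3 = 2) (hd : p ^ n ∣ V.l + 1) :
    ∃ τ₀ ∈ V.I, km (p ^ n) τ₀ V.l = 1 ∧ ∀ lam x : GQ → R, Co lam GK x → (∀ g ∈ V.D, lam g = 1) →
      ∀ u ∈ V.I, x u = j (km (p ^ n) u V.l) * x τ₀ := by
  have hN : NeZero (p ^ n) := ⟨pow_ne_zero _ hp.ne_zero⟩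
  have h0 : ((p ^ n : ℕ) : R) = 0 := by rw [← map_natCast j, ZMod.natCast_self, map_zero]
  have a1 : V.l ≠ p := fun e => by
    have := (dvd_pow_self p (by omega : n ≠ 0)).trans hd
    rw [e] at this
    exact hp.one_lt.ne' (Nat.dvd_one.1 ((Nat.dvd_add_right dvd_rfl).1 this))
  have a2 : V.l ≠ 3 := fun e => by
    rw [e] at h3
    omega
  obtain ⟨-, ⟨τ₀, t1, t2⟩, -, -, -, hT⟩ := TAME_ok p n V hp a1 a2
  have hle : V.I ≤ GK := V.I_le.trans V.D_le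
  refine ⟨τ₀, t1, t2, fun lam x hx hl u hu => ?_⟩
  rw [hT R x (fun g hg k hk => by
    rw [hx.2 g (hle hg) k (hle hk), hl g (V.I_le hg), one_mul]) (hx.1.mono hle)
    (fun u _ => by rw [nsmul_eq_mul, h0, zero_mul]) τ₀ t1 t2 u hu, nsmul_eq_mul,
    ← map_natCast j, ZMod.natCast_zmod_val]

theorem RCS_pf (hINF : INF_st) (hCJ : CJ_st) (hRCI : RCI_st) : RCS_st := by
  intro R _ p n j c lam x y hp hn hc hlam hκ hx hy
  obtain ⟨hG, hD, -⟩ := hCJ c hc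
  have hN : p ^ n ≠ 0 := pow_ne_zero _ hp.ne_zero
  have h0 : ((p ^ n : ℕ) : R) = 0 := by rw [← map_natCast j, ZMod.natCast_self, map_zero]
  have hρ : Mu GK fun g => lam (c * g * c) :=
    ⟨lc_RCS hc hG hlam.1, by simp only [mul_one, hc.sq, hlam.2.1], fun g hg k hk => by
      simp only [mul_RCS hc, hlam.2.2 _ ((hG g).1 hg) _ ((hG k).1 hk)]⟩
  have hx1 : Co (fun g => lam (c * g * c)) GK fun g => x (c * g * c) :=
    ⟨lc_RCS hc hG hx.1, fun g hg k hk => by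
      simp only [mul_RCS hc, hx.2 _ ((hG g).1 hg) _ ((hG k).1 hk)]⟩
  have hC := fun W : Plc => CUP_ok R (cj j) (fun g => lam (c * g * c)) lam
    (fun g => x (c * g * c)) y W.D (mu_HRCC hρ W.D_le) (mu_HRCC hlam W.D_le)
    (fun g hg => (hκ g (W.D_le hg)).symm) (co_HRCC hx1 W.D_le) (co_HRCC hy W.D_le)
  have hM : ∀ W : Plc, Mu W.D (cj j) := fun W =>
    ⟨(cy_lc _ _).map j, by rw [cj, cy_one hN, map_one],
      fun g _ k _ => by rw [cj, cj, cj, cy_mul hN, map_mul]⟩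
  have key : ∀ (Q : Finset ℕ) (V : ℕ → Plc) (φ τ : ℕ → GQ) (u : ℕ → ZMod (p ^ n)),
      (∀ l ∈ Q, (V l).l = l ∧ In (V l) (φ l) ∧ p ^ n ∣ l + 1 ∧ τ l ∈ (V l).I ∧
        u l * km (p ^ n) (τ l) l = 1 ∧ ∀ g ∈ (V l).D, lam g = 1) →
      (∀ W : Plc, W.l ∉ Q → Bo2 (cj j) W.D (cup lam (fun g => x (c * g * c)) y)) →
      8 * ∑ l ∈ Q, j (u l) * lam (c * (φ l)⁻¹) *
        (x (τ l) * y (φ l ^ 2) + x (φ l ^ 2) * y (τ l)) = 0 := by
    intro Q V φ τ u hQ hW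
    have b := hRCI R p n j (cup lam (fun g => x (c * g * c)) y) Q V φ τ u
      (fun _ => cup lam (fun g => x (c * g * c)) y) hp hn
      (CUP_ok R (cj j) _ lam _ y GK hρ hlam (fun g hg => (hκ g hg).symm) hx1 hy).1
      (fun l h => by
        obtain ⟨q1, q2, q3, q4, q5, q6⟩ := hQ l h
        refine ⟨q1, q2, q3, q4, q5, (hC _).2.2.2 fun g hg => ⟨?_, q6 g hg⟩,
          fun _ => 0, Lc.const _ _, fun g _ k _ => by simp⟩
        have e := hκ g ((V l).D_le hg)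
        obtain ⟨-, -, -, -, -, -, -, -, -, -, -, i⟩ := hINF.2.2 _ _ q2
        rw [q6 g hg, mul_one, cj, (i _ (q1.symm ▸ q3)).1 g hg, map_one] at e
        exact e) hW
    rw [← neg_eq_zero, ← b, ← mul_neg, ← sum_neg_distrib]
    refine congrArg _ (sum_congr rfl fun l h => ?_)
    obtain ⟨q1, q2, q3, q4, q5, q6⟩ := hQ l h
    obtain ⟨-, -, -, i1, i2, i3, i4, -, -, -, -, i⟩ := hINF.2.2 _ _ q2
    have q3' : p ^ n ∣ (V l).l + 1 := q1.symm ▸ q3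
    obtain ⟨τ₀, -, -, hT⟩ := tame_RCS j hp hn q2.l3 q3'
    have hk : c * (φ l)⁻¹ ∈ GK := GK_mul hc.nk (by rwa [GK.inv_mem_iff])
    have e1 : ∀ g ∈ (V l).D, x (c * g * c) = lam (c * (φ l)⁻¹) * x (φ l * g * (φ l)⁻¹) := by
      intro g hg
      have m := (i3 g).1 hg
      rw [← conj_RCS hlam hx hk ((V l).D_le m) (q6 _ m)]
      congr 1
      rw [mul_inv_rev, inv_RCS hc]
      group
    have e2 : φ l * φ l ^ 2 * (φ l)⁻¹ = φ l ^ 2 := by group
    have e3 : x (φ l * τ l * (φ l)⁻¹) = -x (τ l) := by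
      rw [hT lam x hx q6 _ ((i4 _).1 q4), hT lam x hx q6 _ q4, (i _ q3').2.2 _ q4, map_neg,
        neg_mul]
    simp only [W.cup]
    rw [e1 _ ((V l).I_le q4), e1 _ i2.1, e2, e3, q6 _ ((V l).I_le q4), q6 _ i2.1]
    ring
  refine ⟨⟨hρ, hx1, fun W h => ?_⟩, key, fun V φ h1 h2 h3 h4 τ hτ => ?_⟩
  · rcases h with ⟨m, h⟩ | h | h
    · exact (hC W).2.1 (Or.inl ⟨m, fun g hg => h _ ((hD W g).1.1 hg)⟩)
    · exact (hC W).2.1 (Or.inr h)
    · exact UNB_ok R (p ^ n) (cj j) W _ hN h0 (hM W)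
        (fun τ hτ => by rw [← hκ τ (W.D_le (W.I_le hτ)), (h τ hτ).1, (h τ hτ).2.1, mul_one])
        (hC W).1 ((hC W).2.2.1 W.I W.I_le fun τ hτ => ⟨(h τ hτ).1, (h τ hτ).2.2⟩)
  · obtain ⟨τ₀, t1, t2, hT⟩ := tame_RCS j hp hn h1.l3 h2
    have b := key {V.l} (fun _ => V) (fun _ => φ) (fun _ => τ₀) (fun _ => 1)
      (fun l h => by
        rw [mem_singleton.1 h]
        exact ⟨rfl, h1, h2, t1, by rw [t2, mul_one], h3⟩)
      fun W h => h4 W fun e => h (mem_singleton.2 e)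
    rw [sum_singleton, map_one, one_mul] at b
    have hk : c * φ⁻¹ ∈ GK := GK_mul hc.nk (by
      rw [GK.inv_mem_iff]
      exact (hINF.2.2 _ _ h1).2.2.2.1)
    have e := hlam.2.2 _ (GK.inv_mem hk) _ hk
    rw [inv_mul_cancel, hlam.2.1] at e
    rw [hT lam x hx h3 τ hτ, hT lam y hy h3 τ hτ]
    linear_combination (j (km (p ^ n) τ V.l) * lam (c * φ⁻¹)⁻¹) * b +
      8 * j (km (p ^ n) τ V.l) * (x τ₀ * y (φ ^ 2) + x (φ ^ 2) * y τ₀) * e

end Pool.Agent.MP_e23604_nt.Y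

end

section

/-!
The images of points are isotropic.
-/

set_option autoImplicit false

open Finset QuadraticAlgebra
open scoped Classical

namespace Pool.Agent.MP_e23604_nt.Y

open B R S W

theorem weil_ISK {A : Type} [AddCommGroup A] {F : Type} [Field F] [Algebra Qb F] {η : R.Act A}
    {τ : A → F →+* F} {g : GQ → F →+* F} {o : A → F → ℤ} (O : R.Th η τ g o)
    (hd : ∀ P : A, ∃ P' : A, 2 • P' = P) {N : ℕ} (hN : N ≠ 0) (hfin : Finite (R.tor A N)) :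
    ∃ e : A → A → Qb, R.Bil (R.tor A N) N e ∧ (∀ x, N • x = 0 → e x x = 1) ∧
      (∀ x Q, N • x = 0 → addOrderOf Q = N → e Q x = 1 → x ∈ AddSubgroup.zmultiples Q) ∧
      R.IsW τ o N e := by
  have hf : ∀ T : A, ∃ f : F, N • T = 0 → f ≠ 0 ∧ ∀ Q,
      o Q f = (if Q = -T then (N : ℤ) else 0) - if Q = 0 then (N : ℤ) else 0 := by
    intro T
    obtain ⟨f, h0, hf⟩ := R.FNX_pf A F η τ g o O hd N (-T)
    refine ⟨f, fun hT => ⟨h0, fun Q => ?_⟩⟩
    rw [hf, neg_nsmul, hT, neg_zero]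
    split_ifs <;> ring
  choose f hf using hf
  have H : L.Ab_Weil Qb N τ o f := ⟨O.tadd, O.tc, O.omul, O.ot, O.oc, O.cst, O.deg,
    fun T hT => (hf T hT).1, fun T hT => (hf T hT).2⟩
  obtain ⟨c, hc⟩ := L.c_ex_Weil H
  have hne : ∀ S T, N • S = 0 → N • T = 0 → c S T / c T S ≠ 0 := fun S T hS hT =>
    div_ne_zero (hc S T hS hT).1 (hc T S hT hS).1
  refine ⟨fun S T => c S T / c T S, ⟨fun S hS S' hS' T hT => L.addl_Weil H hc hS hS' hT,
    fun S hS T hT T' hT' => ?_, fun S hS T hT => ?_⟩, fun T hT => div_self (hc T T hT hT).1,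
    fun x Q hx hQ h1 => R.nd_EWEIL H hc (Nat.pos_of_ne_zero hN) hfin hx hQ h1,
    fun S T u u' hu hu' hS hT => ?_⟩
  · have := congrArg (fun x => x⁻¹) (L.addl_Weil H hc hT hT' hS)
    simpa only [mul_inv, inv_div] using this
  · have h0 : c 0 T / c T 0 = 1 := by
      have := L.addl_Weil H hc (nsmul_zero _) (nsmul_zero _) hT
      rw [add_zero] at this
      exact (mul_eq_left₀ (hne 0 T (nsmul_zero _) hT)).1 this.symm
    have key : ∀ j : ℕ, (c S T / c T S) ^ j = c (j • S) T / c T (j • S) := by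
      intro j
      induction j with
      | zero => rw [pow_zero, zero_smul, h0]
      | succ j ih =>
        rw [pow_succ, ih, succ_nsmul, L.addl_Weil H hc (R.mem_tor.1 (nsmul_mem hS j)) hS hT]
    show (c S T / c T S) ^ N = 1
    rw [key, R.mem_tor.1 hS, h0]
  · obtain ⟨a, -, rfl⟩ := L.same_Weil H hu.1 (hf S hS).1 fun Q => by rw [hu.2, (hf S hS).2]
    obtain ⟨b, -, rfl⟩ := L.same_Weil H hu'.1 (hf T hT).1 fun Q => by rw [hu'.2, (hf T hT).2]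
    have n1 : algebraMap Qb F (c T S) ≠ 0 := (map_ne_zero _).2 (hc T S hT hS).1
    rw [map_mul, map_mul, O.tc, O.tc, mul_mul_mul_comm, (hc S T hS hT).2,
      mul_mul_mul_comm _ (f T), (hc T S hT hS).2, add_comm T S, map_div₀]
    field_simp

theorem dvd_ISK {N : ℕ} {z : Zw} (h : (N : Zw) ∣ z) : (N : ℤ) ∣ z.re ∧ (N : ℤ) ∣ z.im := by
  obtain ⟨w, rfl⟩ := h
  exact ⟨⟨w.re, by simp⟩, ⟨w.im, by simp⟩⟩

theorem bd_ISK {χ : GQ → ZMod 3} {N : Zw} {H : Subgroup GQ} {P : Pt} (hH : H ≤ GK)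
    (h : Fx χ H (N • P)) {g : GQ} (hg : g ∈ H) : N • bd χ P g = 0 := by
  rw [bd, smul_sub, ← eta_smul χ (hH hg), h g hg, sub_self]

theorem pair_ISK {χ : GQ → ZMod 3} {N : ℕ} {G : Pt} (hM : Mdl χ) (hN : N ≠ 0) (hG : W.Gen N G) :
    ∃ ε : Pt → Pt → ZMod N,
      (∀ x x' y, (N : Zw) • x = 0 → (N : Zw) • x' = 0 → (N : Zw) • y = 0 →
        ε (x + x') y = ε x y + ε x' y ∧ ε y (x + x') = ε y x + ε y x') ∧
      (∀ x, (N : Zw) • x = 0 → ε x x = 0) ∧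
      (∀ x, (N : Zw) • x = 0 → ε G x = 0 → ∃ k : ℤ, x = (k : Zw) • G) ∧
      ∀ (H : Subgroup GQ) (P Q : Pt), H ≤ GK → Fx χ H ((N : Zw) • P) → Fx χ H ((N : Zw) • Q) →
        Bo2 (W.cy N) H fun g h => ε (bd χ P g) (eta χ g (bd χ Q h)) := by
  obtain ⟨E, _, Ψ, hΨ⟩ := hM
  obtain ⟨F, _, _, τ, g, o, hth⟩ := gen_ETH E (gA E) (AddEquiv.refl _) fun _ _ => rfl
  have ell : (E.baseChange Qb).IsElliptic := inferInstanceAs (E.map _).IsElliptic
  have hv : ∀ P : Pts E Qb, ∃ P' : Pts E Qb, 2 • P' = P :=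
    B.smul_surj (W := E.baseChange Qb) two_pos
  have hp := Nat.pos_of_ne_zero hN
  have hfin : Finite (R.tor (Pts E Qb) N) :=
    Nat.finite_of_card_ne_zero ((btors_card (E.baseChange Qb) hp).trans_ne (pow_pos hp 2).ne')
  obtain ⟨e, p1, p2, p3, p4⟩ := weil_ISK hth hv hN hfin
  have opn : ∀ u, Lc ⊤ fun σ => gA E σ u := fun u => by
    simpa only [BSel_dd, sub_add_cancel, gA_apply] using (lc_iff.1 (BSel_dd_mem E u).1).map (· + u)
  have t : ∀ x : Pt, (N : Zw) • x = 0 → N • Ψ.symm x = 0 := fun x h => by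
    rw [← map_nsmul, ← Nat.cast_smul_eq_nsmul Zw, h, map_zero]
  have a : ∀ σ ∈ GK, ∀ x, gA E σ (Ψ.symm x) = Ψ.symm (eta χ σ x) := fun σ hσ x => by
    rw [gA_apply, Ψ.eq_symm_apply, hΨ σ hσ, Ψ.apply_symm_apply]
  have d : ∀ σ ∈ GK, ∀ x, R.dd (gA E) (Ψ.symm x) σ = Ψ.symm (bd χ x σ) := fun σ hσ x => by
    rw [R.dd, a σ hσ, bd, map_sub]
  refine ⟨fun x y => lz N (e (Ψ.symm x) (Ψ.symm y)), fun x x' y h h' k => ⟨?_, ?_⟩,
    fun x h => ?_, fun x h k => ?_, fun H P Q hH hP hQ => ?_⟩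
  · simp only [map_add]
    rw [p1.addl _ (t x h) _ (t x' h') _ (t y k),
      lz_mul hN (p1.pow _ (t x h) _ (t y k)) (p1.pow _ (t x' h') _ (t y k))]
  · simp only [map_add]
    rw [p1.addr _ (t y k) _ (t x h) _ (t x' h'),
      lz_mul hN (p1.pow _ (t y k) _ (t x h)) (p1.pow _ (t y k) _ (t x' h'))]
  · simp only [p2 _ (t x h), lz_one hN]
  · have k1 : addOrderOf (Ψ.symm G) = N := by
      refine Nat.dvd_antisymm (addOrderOf_dvd_of_nsmul_eq_zero (t G hG.zero)) ?_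
      have k2 := congrArg Ψ (addOrderOf_nsmul_eq_zero (Ψ.symm G))
      rw [map_nsmul, Ψ.apply_symm_apply, map_zero, ← Nat.cast_smul_eq_nsmul Zw] at k2
      exact Int.natCast_dvd_natCast.1 (dvd_ISK ((hG _).1 k2)).1
    have k3 := zt_lz hN (p1.pow _ (t G hG.zero) _ (t x h))
    rw [show lz N (e (Ψ.symm G) (Ψ.symm x)) = 0 from k, ZMod.val_zero, pow_zero] at k3
    obtain ⟨m, hm⟩ := AddSubgroup.mem_zmultiples_iff.1 (p3 _ _ (t x h) k1 k3.symm)
    exact ⟨m, by rw [Int.cast_smul_eq_zsmul, ← Ψ.symm.injective.eq_iff, map_zsmul, hm]⟩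
  · obtain ⟨M, β, b1, b2, b3⟩ := R.ISO_pf R.FNX_pf _ F (gA E) τ g o hth hv N e opn p4 H
      (Ψ.symm P) (Ψ.symm Q) (fun σ hσ => d σ (hH hσ) P ▸ t _ (bd_ISK hH hP hσ))
      fun σ hσ => d σ (hH hσ) Q ▸ t _ (bd_ISK hH hQ hσ)
    refine (ADM_ok N H _ hN).2.1.2 ⟨M, β, b1, b2, fun σ hσ ρ hρ => ?_⟩
    rw [b3 σ hσ ρ hρ, R.cup, d σ (hH hσ), d ρ (hH hρ), a σ (hH hσ)]
    beta_reduce
    rw [zt_lz hN (p1.pow _ (t _ (bd_ISK hH hP hσ)) _ (t _ (by
      rw [← eta_smul χ (hH hσ), bd_ISK hH hQ hρ, map_zero])))]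

theorem det_ISK {A : Type} [CommRing A] (B : Zw →+ Zw →+ A) (h : ∀ s, B s s = 0) (s t : Zw) :
    B s t = B 1 ω * ((s.re * t.im - s.im * t.re : ℤ) : A) := by
  have e : ∀ z : Zw, z = z.re • (1 : Zw) + z.im • ω := fun z => by ext <;> simp
  have k := h (1 + ω)
  simp only [map_add, AddMonoidHom.add_apply, h] at k
  conv_lhs => rw [e s, e t]
  simp only [map_add, map_zsmul, AddMonoidHom.add_apply, AddMonoidHom.zsmul_apply, h]
  simp only [zsmul_eq_mul]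
  push_cast
  linear_combination (s.im * t.re : A) * k

theorem ISK_pf : ISK_st := by
  intro χ N G R _ j φ H P Q hM hN hG hH hP hQ
  obtain ⟨ε, e1, e2, e3, e4⟩ := pair_ISK hM hN hG
  have : NeZero N := ⟨hN⟩
  have t : ∀ s : Zw, (N : Zw) • s • G = 0 := fun s => by rw [smul_comm, hG.zero, smul_zero]
  let B : Zw →+ Zw →+ ZMod N := AddMonoidHom.mk' (fun s => AddMonoidHom.mk'
    (fun u => ε (s • G) (u • G)) fun u u' => by rw [add_smul, (e1 _ _ _ (t u) (t u') (t s)).2])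
    fun s s' => AddMonoidHom.ext fun u => by
      simp only [AddMonoidHom.mk'_apply, AddMonoidHom.add_apply]
      rw [add_smul, (e1 _ _ _ (t s) (t s') (t u)).1]
  have hB : ∀ s u : Zw, ε (s • G) (u • G) = B 1 ω * ((s.re * u.im - s.im * u.re : ℤ) : ZMod N) :=
    det_ISK B fun s => e2 _ (t s)
  obtain ⟨k, hk⟩ : ∃ k, B 1 ω * k = 1 := by
    refine Finite.surjective_of_injective (f := AddMonoidHom.mulLeft (B 1 ω))
      ((injective_iff_map_eq_zero _).2 fun x hx => ?_) 1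
    obtain ⟨d, rfl⟩ := ZMod.intCast_surjective x
    have h1 := hB 1 ((d : Zw) * ω)
    rw [one_smul] at h1
    obtain ⟨m, hm⟩ := e3 _ (t _) (h1.trans (by simpa using hx))
    simpa [ZMod.intCast_zmod_eq_zero_iff_dvd] using (dvd_ISK (hG.congr.1 hm)).2
  have hc : ∀ T : Pt, (N : Zw) • T = 0 → T = co G T • G := fun T hT =>
    co_spec ((CYG_ok N (Nat.cast_ne_zero.2 hN)).2.1 G hG T hT)
  obtain ⟨b, l1, h1⟩ := e4 H P Q hH hP hQ
  obtain ⟨b', l2, h2⟩ := e4 H ((ω : Zw) • P) Q hH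
    (fun g hg => by rw [smul_comm, eta_smul χ (hH hg), hP g hg]) hQ
  refine ⟨fun g => φ ω * j (k * b g) - j (k * b' g),
    l1.map₂ l2 fun x y => φ ω * j (k * x) - j (k * y), fun g hg h hh => ?_⟩
  have a1 := h1 g hg h hh
  have a2 := h2 g hg h hh
  have s1 := hc _ (bd_ISK hH hP hg)
  have s2 := hc (eta χ g (bd χ Q h)) (by rw [← eta_smul χ (hH hg), bd_ISK hH hQ hh, map_zero])
  have s3 : bd χ ((ω : Zw) • P) g = (ω * co G (bd χ P g)) • G := by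
    rw [mul_smul, ← s1, bd, bd, eta_smul χ (hH hg), smul_sub]
  simp only [ic, cj] at *
  rw [s3] at a2
  generalize co G (bd χ P g) = s at *
  generalize co G (eta χ g (bd χ Q h)) = u at *
  rw [s2] at a1 a2
  rw [s1] at a1
  rw [hB] at a1 a2
  have a3 : star s * u = ω * ((s.re * u.im - s.im * u.re : ℤ) : Zw) -
      (((ω * s).re * u.im - (ω * s).im * u.re : ℤ) : Zw) := by
    ext <;> simp <;> ring
  have a4 := congrArg j hk
  have a5 := congrArg j a1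
  have a6 := congrArg j a2
  rw [← map_mul, a3]
  simp only [map_mul, map_sub, map_add, map_intCast, map_one] at a4 a5 a6 ⊢
  linear_combination (φ ω * j k) * a5 - j k * a6 -
    (φ ω * ((s.re * u.im - s.im * u.re : ℤ) : R) -
      (((ω * s).re * u.im - (ω * s).im * u.re : ℤ) : R)) * a4

end Pool.Agent.MP_e23604_nt.Y

end
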