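import Pool.Agent.Mg.Fe23604m.G256ad4
import Pool.Agent.Mg.Fe23604m.G917aeb

set_option linter.all false

/-!
The reciprocity law with a term at three.
-/

set_option autoImplicit false

open Finset Filter QuadraticAlgebra
open scoped Classical

namespace Pool.Agent.MP_e23604_nt.PH

open B R S W V

theorem RCB_pf (hV : HV) : RCB_st := by
  obtain ⟨-, k2, -, ⟨e, e1, e2⟩, -⟩ := hV.KW
  refine ⟨e, fun h => by simp [h] at e1, fun R _ => ?_⟩
  have hR := hV.Y.RCI R 3 1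
  have hS := hV.Y.RCS R 3 1
  have hT := @Y.tame_RCS R _ 3 1
  rw [pow_one] at hR hS hT ⊢
  intro j c c₃ lam x y β B Q P φ τ u hc c1 c2 hlam hκ hx hy h3 hB hQ hW hb
  obtain ⟨hρ, hx1, -⟩ := (hS j c lam x y Nat.prime_three le_rfl hc hlam hκ hx hy).1
  obtain ⟨l, b1, lp, b2⟩ := Nat.forall_exists_prime_gt_and_modEq (max B (Q.sup id)) (q := 9) (a := 2)
    (by decide) (by decide)
  replace b2 : l % 9 = 2 := b2
  have lQ : l ∉ Q := fun h => ((le_sup (f := id) h).trans (le_max_right _ _)).not_gt b1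
  have l0 : (l : Qb) ≠ 0 := Nat.cast_ne_zero.2 lp.ne_zero
  have l4 : l ^ 2 % 9 = 4 := by rw [Nat.pow_mod, b2]
  obtain ⟨U, rfl⟩ : ∃ U : Plc, U.l = l := ⟨@Plc.mk l ⟨lp⟩ 1, rfl⟩
  obtain ⟨ψ, hψ⟩ := hV.Y.INF.2.1 U (by omega)
  obtain ⟨t, t1, t2, -⟩ := hT j Nat.prime_three le_rfl hψ.l3 (by omega)
  obtain ⟨u1, u2⟩ := hB U ((le_max_left _ _).trans_lt b1) hψ.l3
  have n3 : (3 : ℕ) ≠ 0 := three_ne_zero
  have cy3 : ∀ g ∈ GK, W.cy 3 g = 1 := fun g hg => ((KM_ok 3 n3).2.2.2.2.2.2.2.1 g hg).1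
  have cj1 : ∀ g ∈ GK, cj j g = 1 := fun g hg => by rw [cj, cy3 g hg, map_one]
  have fw : ∀ g ∈ GK, g w3 = w3 := fun g => mem_GK'.1
  have m1 : ∀ H, Mu H fun _ => (1 : R) := fun H => ⟨Lc.const _ _, rfl, fun _ _ _ _ => (mul_one _).symm⟩
  have co : ∀ (θ : Qb) (H : Subgroup GQ), H ≤ GK → θ ≠ 0 → (∀ g ∈ GK, g θ = θ) →
      Co (fun _ => (1 : R)) H fun g => j (km 3 g θ) := fun θ H hH h0 h =>
    ⟨(km_lc _ _ _).map j, fun g hg k hk => by
      simp only [km_mul n3 g k h0, cy3 g (hH hg), h k (hH hk), map_add, one_mul, add_comm]⟩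
  have hG := fun (H : Subgroup GQ) (hH : H ≤ GK) => CUP_ok R (cj j) _ _ _ _ H (m1 H) (m1 H)
    (fun g hg => (cj1 g (hH hg)).trans (mul_one _).symm) (co w3 H hH w3_ne_zero fw)
    (co U.l H hH l0 fun g _ => map_natCast g _)
  have hF := fun (H : Subgroup GQ) (hH : H ≤ GK) => CUP_ok R (cj j) _ lam _ y H (mu_HRCC hρ hH)
    (mu_HRCC hlam hH) (fun g hg => (hκ g (hH hg)).symm) (co_HRCC hx1 hH) (co_HRCC hy hH)
  have v3 : ∀ X : Plc, X.l ≠ 3 → X.v (3 : ℕ) = 1 := fun X h => by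
    simpa [map_ofNat] using not_Ov.1 fun e =>
      h ((Nat.prime_dvd_prime_iff_eq X.hl.out Nat.prime_three).1 ((PLK_ok.2.2.2.1 X 3).1 e))
  have iw : ∀ X : Plc, X.l ≠ 3 → ∀ g ∈ X.I, km 3 g w3 = 0 := fun X h g hg =>
    km_ine X (v3 X h) hg.1 (v_w3 X) (fw g hg.2)
  have il : ∀ X : Plc, X.l ≠ 3 → X.l ≠ U.l → ∀ g ∈ X.I, km 3 g U.l = 0 := fun X h h' g hg =>
    km_ine X (v3 X h) hg.1 (by
      simpa using not_Ov.1 fun e => h' ((Nat.prime_dvd_prime_iff_eq X.hl.out lp).1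
        ((PLK_ok.2.2.2.1 X U.l).1 e))) (map_natCast g _)
  set F := W.cup lam (fun g => x (c * g * c)) y with hFd
  set G := W.cup (fun _ => (1 : R)) (fun g => j (km 3 g w3)) fun g => j (km 3 g U.l) with hGd
  have hf : Co2 (cj j) GK fun g h => F g h - lam (c * c₃⁻¹) * β * G g h :=
    (((W.LIN_ok R _ GK).1 _ _ 0).1 (hF _ le_rfl).1
      (((W.LIN_ok R _ GK).1 _ G _).1 (hG _ le_rfl).1 (hG _ le_rfl).1).2.2).2.1
  have loc : ∀ (X : Plc) (f s : GQ), Y.In X f → 3 ∣ X.l + 1 → s ∈ X.I → (∀ g ∈ X.D, lam g = 1) →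
      Bia X.D (fun g h => F g h - lam (c * c₃⁻¹) * β * G g h) ∧
      F s (f ^ 2) - F (f ^ 2) s = -(lam (c * f⁻¹) * (x s * y (f ^ 2) + x (f ^ 2) * y s)) :=
    fun X f s q2 q3 q4 q6 => by
      have a1 := (hF _ X.D_le).2.2.2 fun g hg => ⟨by
        simpa [q6 g hg, cj1 g (X.D_le hg)] using hκ g (X.D_le hg), q6 g hg⟩
      have a2 := (hG _ X.D_le).2.2.2 fun g hg => ⟨rfl, rfl⟩
      refine ⟨⟨fun g hg k hk k' hk' => ?_, fun k hk g hg g' hg' => ?_⟩, ?_⟩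
      · linear_combination a1.1 g hg k hk k' hk' - lam (c * c₃⁻¹) * β * a2.1 g hg k hk k' hk'
      · linear_combination a1.2 k hk g hg g' hg' - lam (c * c₃⁻¹) * β * a2.2 k hk g hg g' hg'
      obtain ⟨-, -, -, i1, i2, i3, i4, -, -, -, -, i⟩ := hV.Y.INF.2.2 _ _ q2
      obtain ⟨τ₀, -, -, hT⟩ := hT j Nat.prime_three le_rfl q2.l3 q3
      have hk : c * f⁻¹ ∈ GK := GK_mul hc.nk (by rwa [GK.inv_mem_iff])
      have e1 : ∀ g ∈ X.D, x (c * g * c) = lam (c * f⁻¹) * x (f * g * f⁻¹) := fun g hg => by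
        have m := (i3 g).1 hg
        rw [← Y.conj_RCS hlam hx hk (X.D_le m) (q6 _ m), mul_inv_rev, Y.inv_RCS hc]
        congr 1
        group
      have e3 : x (f * s * f⁻¹) = -x s := by
        rw [hT lam x hx q6 _ ((i4 _).1 q4), hT lam x hx q6 _ q4, (i _ q3).2.2 _ q4, map_neg,
          neg_mul]
      simp only [hFd, W.cup]
      rw [e1 _ (X.I_le q4), e1 _ i2.1, show f * f ^ 2 * f⁻¹ = f ^ 2 by group, e3,
        q6 _ (X.I_le q4), q6 _ i2.1]
      ring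
  have z0 : ∀ (H : Subgroup GQ) (f : GQ → GQ → R), Bo2 (cj j) H fun g h => f g h - f g h :=
    fun H f => ⟨fun _ => 0, Lc.const _ _, fun g _ k _ => by simp⟩
  have b := hR j _ (insert U.l Q) (Function.update P U.l U) (Function.update φ U.l ψ)
    (Function.update τ U.l t) (Function.update u U.l 1)
    (fun _ g h => F g h - lam (c * c₃⁻¹) * β * G g h) Nat.prime_three le_rfl hf (fun l h => by
      rcases mem_insert.1 h with rfl | h
      · simp only [Function.update_self]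
        exact ⟨trivial, hψ, by omega, t1, by rw [t2, mul_one], (loc U ψ t hψ (by omega) t1 u1).1,
          z0 _ _⟩
      · obtain ⟨q1, q2, q3, q4, q5, q6⟩ := hQ l h
        simp only [Function.update_of_ne (ne_of_mem_of_not_mem h lQ)]
        exact ⟨q1, q2, q3, q4, q5, (loc _ _ _ q2 (q1.symm ▸ q3) q4 q6).1, z0 _ _⟩)
    fun X hX => by
      rw [mem_insert, not_or] at hX
      by_cases h : X.l = 3
      · refine ((CNJ_ok R (cj j)).2 V3 X pw (Mu_cj_XEXR n3 j _) pw_prime (Ov_three.1 V3_three)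
          (Ov_three.1 (by simpa [h] using Ov_l X))).2 _ hf ?_
        obtain ⟨γ, g1, g2⟩ := hb
        refine ⟨_, g1.map (lam (c * c₃⁻¹) * ·), fun g hg k hk => ?_⟩
        have m : c₃ * g * c₃⁻¹ ∈ V3.D := ⟨(Dec _).mul_mem ((Dec _).mul_mem c1 hg.1)
          ((Dec _).inv_mem c1), GK_on.1.conj_mem g hg.2 c₃⟩
        have a1 := Y.conj_RCS hlam hx (GK_mul hc.nk (by rwa [GK.inv_mem_iff]) : c * c₃⁻¹ ∈ GK) m.2
          (h3 _ m)
        rw [mul_inv_rev, Y.inv_RCS hc, show c * c₃⁻¹ * (c₃ * g * c₃⁻¹) * (c₃⁻¹⁻¹ * c) = c * g * c by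
          group] at a1
        have a2 := hV.UN3.2.2.2.2 U.l (by omega) k hk
        rw [show (((U.l ^ 2 - 1) / 3 : ℕ) : ZMod 3) = 1 from
          (ZMod.natCast_eq_natCast_iff' _ 1 3).2 (by omega), one_mul,
          ← (k2 _ (Nat.cast_ne_zero.2 lp.ne_zero)).1 k hk.2, Rat.cast_natCast] at a2
        have a3 := g2 g hg k hk
        beta_reduce at a3
        rw [cv, ← map_natCast j, ZMod.natCast_zmod_val, ← a2, ← one_mul (_ * _ : ZMod 3), ← e1,
          mul_mul_mul_comm, ← e2 g hg.2 _ w3_ne_zero (fw g hg.2),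
          ← e2 k hk.2 _ l0 (map_natCast k _), map_mul] at a3
        simp only [hFd, hGd, W.cup, a1, h3 g hg, cj1 g hg.2]
        linear_combination lam (c * c₃⁻¹) * a3
      · have a := UNB_ok R 3 (cj j) X G n3 (j_zero j) (Mu_cj_XEXR n3 j _)
          (fun g hg => cj1 g hg.2) (hG _ X.D_le).1 ((hG _ X.D_le).2.2.1 _ X.I_le fun g hg =>
            ⟨rfl, by rw [iw X h g hg, map_zero], by rw [il X h hX.1 g hg, map_zero]⟩)
        exact (((W.LIN_ok R _ _).1 _ _ 0).2.1 (hW X hX.2 h)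
          (((W.LIN_ok R _ _).1 _ G _).2.1 a a).2.2).2.1
  obtain ⟨-, -, i3, -, i5, -⟩ := hV.Y.INF.2.2 _ _ hψ
  have a1 : km 3 (ψ ^ 2) w3 = e := by
    have s3 := rt_pow n3 w3
    have s9 := zt_lz (N := 9) (by decide) (z := rt 3 w3)
      (by rw [show 9 = 3 * 3 from rfl, pow_mul, s3, w3_cube])
    have c9 := ((KM_ok 9 (by decide)).2.2.2.2.2.2.2.2 U fun h => by
      have := (Nat.prime_dvd_prime_iff_eq lp Nat.prime_three).1 (lp.dvd_of_dvd_pow (n := 2) h)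
      omega).2.2 _ _ i5
    have a : (ψ ^ 2) (rt 3 w3) = w3 * rt 3 w3 := by
      conv_lhs => rw [← s9, act_zt (by decide), mul_comm, zt_mul (by decide), s9, c9, i3,
        ZMod.val_natCast, l4, pow_succ, s3]
    rw [e2 _ i5.1.2 _ w3_ne_zero (fw _ i5.1.2), X.kw, a, mul_div_cancel_right₀ _
      (rt_ne n3 w3_ne_zero), S.lg, if_neg w3_ne_one, if_pos rfl, mul_one]
  rw [sum_insert lQ, sum_congr rfl (g := fun l => -(j (u l) * lam (c * (φ l)⁻¹) *
    (x (τ l) * y (φ l ^ 2) + x (φ l ^ 2) * y (τ l)))) fun l h => by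
      obtain ⟨q1, q2, q3, q4, q5, q6⟩ := hQ l h
      have a := (loc _ _ _ q2 (q1.symm ▸ q3) q4 q6).2
      have l3 : (P l).l ≠ 3 := by have := q2.l3; omega
      simp only [Function.update_of_ne (ne_of_mem_of_not_mem h lQ), hGd, W.cup, iw _ l3 _ q4,
        il _ l3 (q1.symm ▸ ne_of_mem_of_not_mem h lQ) _ q4, map_zero]
      linear_combination j (u l) * a, sum_neg_distrib] at b
  have a := (loc U ψ t hψ (by omega) t1 u1).2
  simp only [Function.update_self, hGd, W.cup, iw U (by omega) t t1, t2, a1, map_zero, map_one,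
    (u2 t t1).1, (u2 t t1).2] at a b
  have h9 : (3 : R) = 0 := by simpa using j_zero j
  rw [cv, ← map_natCast j, ZMod.natCast_zmod_val]
  linear_combination b - 8 * a + 3 * (∑ l ∈ Q, j (u l) * lam (c * (φ l)⁻¹) *
    (x (τ l) * y (φ l ^ 2) + x (φ l ^ 2) * y (τ l)) - j e * lam (c * c₃⁻¹) * β) * h9

end Pool.Agent.MP_e23604_nt.PH
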