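import Mathlib
import Pool.Agent.Mg.Fe23604m.G06f121

set_option linter.all false

section

namespace Pool.Agent.MP_e23604_nt.T

open Finset Filter NumberField
open MP_f68ac8_nt (cyc IsFrob)
open MP_f68ac8_nt.Zv (Ex Prob piV Unf Bx)
open MP_f68ac8_nt.Zk (NS brL lk msk Av)
open MP_f68ac8_nt.Nd (Lr Fr Gz Exm fP kap np OKp)
open Q (Wn Pre rot0)
open scoped BigOperators Topology

theorem x_InvT (hBasT : BasT) (hActB : ActB) : InvT := by
  rintro V _ _ d S hS n u v w hn hm ⟨hc, x, hx, hE⟩ hw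
  obtain ⟨b1, -, b3, -, -, -, -, -, b9, b10, -⟩ := hBasT V S.J S.T hS.cm.toCm0
  have hA := fun g => (hActB V S.J S.T hS.cm.toCm0 S.η S.R S.e S.β S.σ S.τ hS.gm hS.tl
    (fun l hl => by
      obtain ⟨j, -, rfl⟩ := mem_image.1 hl
      exact hS.pri j) g).1
  refine ⟨fun j => ⟨add_mem (hc j).1 (b1 _ _ (by omega) (hw j)), ?_⟩, x,
    ⟨hx.lc, hx.co, hx.val, hx.unr, hx.thr, fun j => ?_⟩, ?_⟩
  · rw [Pi.add_apply, b9 _ _ _ (b1 _ _ hm (hw j)), (hc j).2]
  · have h1 := add_mem (hx.tam j) ((b3 n (w j)).2 (hw j))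
    rw [(b10 0 (w j)).2] at h1
    have e : x (S.τ (S.l j)) - ((v + w) j - S.J ((v + w) j)) =
        x (S.τ (S.l j)) - (v j - S.J (v j)) + (S.J (w j) - w j) := by
      rw [Pi.add_apply, map_add]
      abel
    rwa [e]
  · rintro (_ | j)
    · exact hE none
    · have h1 := add_mem (hE (some j)) ((hA (S.σ (S.l j))).2 n hn (w j) (hw j))
      have e : S.Ev x (v + w) (some j) =
          S.Ev x v (some j) + (S.η (S.σ (S.l j)) (w j) - w j) := by
        simp only [Sy.Ev, Pi.add_apply, map_add]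
        abel
      rwa [e]

end Pool.Agent.MP_e23604_nt.T

end

section

namespace Pool.Agent.MP_e23604_nt.T

open Finset Filter NumberField
open MP_f68ac8_nt (cyc IsFrob)
open MP_f68ac8_nt.Zv (Ex Prob piV Unf Bx)
open MP_f68ac8_nt.Zk (NS brL lk msk Av)
open MP_f68ac8_nt.Nd (Lr Fr Gz Exm fP kap np OKp)
open Q (Wn Pre rot0)
open scoped BigOperators Topology

theorem x_MuT (hDecT : DecT) (hKumA : KumA) (hKumB : KumB) : MuT := by
  intro d σ τ e β l hT hi hp a y a1 a2 a3 a4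
  have hR : ∀ k ∈ univ.image l, P0 k := fun k hk => by
    obtain ⟨j, -, rfl⟩ := mem_image.1 hk
    exact hp j
  obtain ⟨c, hc⟩ := hKumA σ τ e hT _ hR a a1 a2 a3
  have hs : ∀ f : ℕ → ZMod 3, ∑ k ∈ univ.image l, f k = ∑ i, f (l i) := fun f =>
    sum_image fun _ _ _ _ h => hi h
  refine ⟨-c, fun j hj => ?_, fun h => ?_, fun h1 h2 g hg => ?_⟩
  · obtain ⟨P, p1, p2, p3, -⟩ := (hT _ (hp j)).ex
    have hg := ((((hDecT.2.2.2 P p1).2.2.2.2 _ (hp j).1 p2).2.2 _ p3).2.1 (hp j).2).2 hj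
    have hk := ((hT _ (hp j)).spl hj).2.2
    have h3 : kk 3 (σ (l j)) = rh 3 (l j) := by
      rw [rh, if_pos hj, hk 3 Nat.prime_three (hp j).2.symm]
    have h4 : ∀ i ∈ univ.erase j, e (l i) * rh (l i) (l j) * (y i - y j) =
        e (l i) * kk (l i) (σ (l j)) * (y i - y j) := fun i h => by
      rw [rh, if_pos hj, hk _ (hp i).1 fun e => ne_of_mem_erase h (hi e)]
    have h5 : ∑ i ∈ univ.erase j, e (l i) * kk (l i) (σ (l j)) * (y i - y j) =
        ∑ i, e (l i) * kk (l i) (σ (l j)) * (y i - y j) :=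
      sum_erase _ (by rw [sub_self, mul_zero])
    rw [hc _ hg]
    simp only [Dt.Kf, dtl, kD, hs, a4, h3]
    rw [sum_congr rfl h4, h5, add_mul, sum_mul, add_add_add_comm, ← sum_add_distrib, neg_add,
      ← sum_neg_distrib, add_comm]
    exact congrArg₂ _ (sum_congr rfl fun i _ => by ring) (by ring)
  · obtain ⟨h1, h2⟩ := hKumB _ _ c hR fun g hg hz => by rw [← hc g hz, h g hg hz]
    refine ⟨by rw [h1, neg_zero], ?_⟩
    rw [hs, ← neg_eq_zero, ← sum_neg_distrib] at h2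
    rw [← h2]
    exact sum_congr rfl fun i _ => by
      simp only [dtl, a4]
      ring
  · rw [hc g hg, kD, hs, neg_eq_zero.1 h2]
    simp [a4, h1]

end Pool.Agent.MP_e23604_nt.T

end
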