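import Mathlib
import Pool.Agent.Mg.Fe23604m.G2d7081
import Pool.Agent.MP_f68ac8_nt.EvRec
import Pool.Agent.MP_f68ac8_nt.EvAux

set_option linter.all false

section

/-! Powers of Frobenius elements and decomposition groups. -/

set_option linter.style.haveILetI false

namespace Pool.Agent.MP_f68ac8_nt.Ev

open NumberField
open scoped Pointwise Topology

lemma pow_FvWild (l m : ℕ) (P : Ideal OQ) (σ : GQ) (_hl : 0 < l) (h : IsFrob l P σ) :
    IsFrob (l ^ m) P (σ ^ m) := by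
  induction m with
  | zero => intro x; simp
  | succ m ih =>
    intro x
    have h1 := h (σ ^ m • x)
    have h2 : (σ ^ m • x) ^ l - (x ^ l ^ m) ^ l ∈ P :=
      Ideal.mem_of_dvd _ (sub_dvd_pow_sub_pow _ _ _) (ih x)
    rw [pow_succ', mul_smul, pow_succ, pow_mul]
    simpa using P.add_mem h1 h2

lemma diff_FvWild {Q : ℕ} {P : Ideal OQ} [P.IsMaximal] {σ s : GQ} (h : IsFrob Q P σ)
    (h' : IsFrob Q P s) : s⁻¹ * σ ∈ P.inertia GQ := by
  intro x
  have h1 : σ • x - s • x ∈ P := by simpa using P.sub_mem (h x) (h' x)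
  have h2 := h'.inv_mem h1
  change _ ∈ P
  simpa [smul_sub, mul_smul] using h2

lemma one_FvWild (l e : ℕ) (P : Ideal OQ) (σ u : GQ) (hl : l.Prime) (hP : P.IsMaximal)
    (hlP : (l : OQ) ∈ P) (hσ : IsFrob (l ^ e) P σ) (hu : u ∈ P.inertia GQ) (s : Set GQ)
    (hs : s ∈ 𝓝 (1 : GQ)) : ∃ a : ℕ, (σ * u * σ⁻¹ * (u ^ l ^ e)⁻¹) ^ l ^ a ∈ s := by
  obtain ⟨L, _, _, hL⟩ := exists_level hs
  obtain ⟨C, _, _, Θ, h1, h2⟩ := level_theta L P hl hlP
  obtain ⟨σ₀, h₀⟩ := exists_frob P hl hlP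
  have key : ∀ (m : ℕ) (v : P.inertia GQ), ∃ w : P.inertia GQ,
      (w : GQ) = σ₀ ^ m * v * (σ₀ ^ m)⁻¹ ∧ Θ w = Θ v ^ l ^ m := by
    intro m v
    induction m with
    | zero => exact ⟨v, by simp, by simp⟩
    | succ m ih =>
      obtain ⟨w, e1, e2⟩ := ih
      have hv : σ₀ * w * σ₀⁻¹ ∈ P.inertia GQ := by
        have := inert_conj_EvRec σ₀ w.2
        rwa [frob_stab_EvRec hP hl h₀] at this
      refine ⟨⟨_, hv⟩, ?_, ?_⟩
      · change σ₀ * w * σ₀⁻¹ = _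
        rw [e1, pow_succ']
        group
      · rw [h2 σ₀ h₀ w ⟨_, hv⟩ rfl, e2, pow_succ, pow_mul]
  have hd := diff_FvWild hσ (pow_FvWild l e P σ₀ hl.pos h₀)
  obtain ⟨w, e1, e2⟩ := key e (⟨_, hd⟩ * ⟨u, hu⟩ * ⟨_, hd⟩⁻¹)
  have e3 : (w : GQ) = σ * u * σ⁻¹ := by
    rw [e1]
    change σ₀ ^ e * ((σ₀ ^ e)⁻¹ * σ * u * ((σ₀ ^ e)⁻¹ * σ)⁻¹) * (σ₀ ^ e)⁻¹ = _
    group
  obtain ⟨a, ha⟩ := h1 (w * (⟨u, hu⟩ ^ l ^ e)⁻¹) (by
    rw [map_mul, map_inv, map_pow, e2, map_mul, map_mul, map_inv, mul_inv_cancel_comm,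
      mul_inv_cancel])
  refine ⟨a, hL _ ?_⟩
  rw [← e3]
  exact ha

attribute [local instance] Ideal.Quotient.field in
lemma card_FvWild (F : IntermediateField ℚ Qb) [NumberField F] (P : Ideal OQ) [P.IsMaximal]
    {l : ℕ} (hl : l.Prime) (hlP : (l : OQ) ∈ P) :
    CharP (𝓞 F ⧸ P.under (𝓞 F)) l ∧ ∃ e : ℕ, 0 < e ∧ Nat.card (𝓞 F ⧸ P.under (𝓞 F)) = l ^ e := by
  haveI : (P.under (𝓞 F)).IsMaximal := Ideal.isMaximal_comap_of_isIntegral_of_isMaximal P
  haveI : Finite (𝓞 F ⧸ P.under (𝓞 F)) :=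
    Ideal.finiteQuotientOfFreeOfNeBot _ (NeZero.ne (P.under (𝓞 F)))
  letI := Fintype.ofFinite (𝓞 F ⧸ P.under (𝓞 F))
  haveI : Fact l.Prime := ⟨hl⟩
  have hc : CharP (𝓞 F ⧸ P.under (𝓞 F)) l := by
    refine (CharP.charP_iff_prime_eq_zero hl).2 ?_
    rw [← map_natCast (Ideal.Quotient.mk _), Ideal.Quotient.eq_zero_iff_mem]
    exact (nat_under_EvRec F).2 hlP
  obtain ⟨n, -, hn⟩ := FiniteField.card (𝓞 F ⧸ P.under (𝓞 F)) l
  exact ⟨hc, n, n.2, by rw [Nat.card_eq_fintype_card, hn]⟩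

attribute [local instance] Ideal.Quotient.field in
lemma two_FvWild (F : IntermediateField ℚ Qb) [NumberField F] (P : Ideal OQ) (hP : P.IsMaximal) :
    ∃ (l e : ℕ) (s : GQ), l.Prime ∧ 0 < e ∧ (l : OQ) ∈ P ∧
      Ideal.absNorm (P.under (𝓞 F)) = l ^ e ∧ s ∈ F.fixingSubgroup ∧ IsFrob (l ^ e) P s := by
  obtain ⟨l, hl, hlP⟩ := exists_prime_mem (Ω := Qb) P
  obtain ⟨-, e, he, hc⟩ := card_FvWild F P hl hlP
  letI : TopologicalSpace OQ := ⊥
  haveI : DiscreteTopology OQ := ⟨rfl⟩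
  haveI := contSMul (Ω := Qb) (F := F)
  haveI := invariant_rel (Ω := Qb) (F := F)
  haveI := smulComm_rel (Ω := Qb) (F := F)
  haveI : (P.under (𝓞 F)).IsMaximal := Ideal.isMaximal_comap_of_isIntegral_of_isMaximal P
  haveI : Finite (𝓞 F ⧸ P.under (𝓞 F)) :=
    Ideal.finiteQuotientOfFreeOfNeBot _ (NeZero.ne (P.under (𝓞 F)))
  letI := Fintype.ofFinite (𝓞 F ⧸ P.under (𝓞 F))
  obtain ⟨s, hs⟩ := Ideal.Quotient.stabilizerHom_surjective_of_profinite (G := Qb ≃ₐ[F] Qb)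
    (P.under (𝓞 F)) P (FiniteField.frobeniusAlgEquivOfAlgebraic _ _)
  refine ⟨l, e, (s : Qb ≃ₐ[F] Qb).restrictScalars ℚ, hl, he, hlP, ?_, ?_, fun x => ?_⟩
  · rw [Ideal.absNorm_apply, Submodule.cardQuot_apply, hc]
  · rw [IntermediateField.mem_fixingSubgroup_iff]
    intro x hx
    exact (s : Qb ≃ₐ[F] Qb).commutes ⟨x, hx⟩
  · rw [← Ideal.Quotient.eq]
    have := DFunLike.congr_fun hs (Ideal.Quotient.mk P x)
    rw [FiniteField.coe_frobeniusAlgEquivOfAlgebraic, ← Nat.card_eq_fintype_card, hc] at this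
    exact this

lemma aut_FvWild {k : Type} [Field k] [Finite k] {l : ℕ} (hl : l.Prime) [CharP k l]
    (φ : k ≃+* k) : ∃ i : ℕ, ∀ x, φ x = x ^ l ^ i := by
  haveI : Fact l.Prime := ⟨hl⟩
  letI : Algebra (ZMod l) k := ZMod.algebra k l
  let ψ : k ≃ₐ[ZMod l] k := AlgEquiv.ofRingEquiv (f := φ) fun a => by
    obtain ⟨n, rfl⟩ := ZMod.natCast_zmod_surjective a
    simp
  obtain ⟨i, hi⟩ := (FiniteField.bijective_frobeniusAlgEquivOfAlgebraic_pow (ZMod l) k).2 ψ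
  refine ⟨i, fun x => ?_⟩
  have := DFunLike.congr_fun hi x
  rw [AlgEquiv.coe_pow, FiniteField.coe_frobeniusAlgEquivOfAlgebraic_iterate, ZMod.card] at this
  exact this.symm

lemma dvd_FvWild {k : Type} [Field k] [Finite k] {l e f : ℕ} (hl : l.Prime) (hf : 0 < f)
    (hk : Nat.card k = l ^ e) (h : ∀ x : k, x ^ l ^ f = x) : e ≤ f := by
  classical
  letI := Fintype.ofFinite k
  have h0 := FiniteField.X_pow_card_pow_sub_X_ne_zero k hf.ne' hl.one_lt
  have h1 : (Finset.univ : Finset k).val ⊆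
      (Polynomial.X ^ l ^ f - Polynomial.X : Polynomial k).roots := fun x _ => by
    rw [Polynomial.mem_roots h0]
    simp [h x]
  have h2 := Polynomial.card_le_degree_of_subset_roots h1
  rw [FiniteField.X_pow_card_pow_sub_X_natDegree_eq k hf.ne' hl.one_lt, Finset.card_univ,
    ← Nat.card_eq_fintype_card, hk] at h2
  exact (Nat.pow_le_pow_iff_right hl.one_lt).1 h2

attribute [local instance] Ideal.Quotient.field in
lemma four_FvWild (L : IntermediateField ℚ Qb) [NumberField L] [IsGalois ℚ L] (l : ℕ)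
    (P : Ideal OQ) (σ : GQ) (hl : l.Prime) (hP : P.IsMaximal) (hlP : (l : OQ) ∈ P)
    (hσ : IsFrob l P σ) (hI : P.inertia GQ ≤ L.fixingSubgroup) :
    σ • P = P ∧ MulAction.stabilizer GQ P ≤ Subgroup.zpowers σ ⊔ L.fixingSubgroup ∧
      Ideal.absNorm (P.under (𝓞 L)) = l ^ orderOf (res L σ) := by
  obtain ⟨hc, e, he, hk⟩ := card_FvWild L P hl hlP
  haveI : (P.under (𝓞 L)).IsMaximal := Ideal.isMaximal_comap_of_isIntegral_of_isMaximal P
  haveI : Finite (𝓞 L ⧸ P.under (𝓞 L)) :=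
    Ideal.finiteQuotientOfFreeOfNeBot _ (NeZero.ne (P.under (𝓞 L)))
  have fix : ∀ g : GQ, (∀ x : 𝓞 L, g • algebraMap (𝓞 L) OQ x - algebraMap (𝓞 L) OQ x ∈ P) →
      res L g = 1 := by
    intro g hg
    obtain ⟨g', h1, h2⟩ := lift_inertia L P (g₀ := res L g) fun x => by
      change _ ∈ P.under (𝓞 L)
      rw [Ideal.mem_comap, map_sub, res_smul]
      exact hg x
    rw [← h2, res_eq_one]
    exact (IntermediateField.mem_fixingSubgroup_iff _ _).1 (hI h1)
  refine ⟨frob_stab_EvRec hP hl hσ, fun g hg => ?_, ?_⟩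
  · rw [MulAction.mem_stabilizer_iff] at hg
    have h1 : P.under (𝓞 L) = (P.under (𝓞 L)).map
        (MulSemiringAction.toRingEquiv _ (𝓞 L) (res L g) : 𝓞 L →+* 𝓞 L) := by
      rw [Ideal.map_comap_of_equiv]
      ext x
      rw [Ideal.mem_comap, Ideal.mem_comap, Ideal.mem_comap]
      change _ ↔ algebraMap (𝓞 L) OQ ((res L g)⁻¹ • x) ∈ P
      rw [← map_inv, res_smul, ← Ideal.mem_pointwise_smul_iff_inv_smul_mem, hg]
    obtain ⟨i, hi⟩ := aut_FvWild hl (Ideal.quotientEquiv _ _ _ h1)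
    have h2 := pow_FvWild l i P σ hl.pos hσ
    have h3 : res L ((σ ^ i)⁻¹ * g) = 1 := fix _ fun x => by
      have h4 := hi (Ideal.Quotient.mk _ x)
      rw [Ideal.quotientEquiv_mk, ← map_pow, Ideal.Quotient.eq, Ideal.mem_comap, map_sub,
        map_pow] at h4
      change algebraMap (𝓞 L) OQ (res L g • x) - _ ∈ P at h4
      rw [res_smul] at h4
      have h5 := h2.inv_mem (P.sub_mem h4 (h2 (algebraMap (𝓞 L) OQ x)))
      simpa [smul_sub, mul_smul] using h5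
    rw [← mul_inv_cancel_left (σ ^ i) g]
    exact Subgroup.mul_mem_sup (Subgroup.npow_mem_zpowers σ i)
      ((IntermediateField.mem_fixingSubgroup_iff _ _).2 ((res_eq_one L).1 h3))
  · rw [Ideal.absNorm_apply, Submodule.cardQuot_apply, hk]
    congr 1
    refine le_antisymm (dvd_FvWild hl (orderOf_pos _) hk fun x => ?_) (orderOf_le_of_pow_eq_one he ?_)
    · obtain ⟨x, rfl⟩ := Ideal.Quotient.mk_surjective x
      have h1 := pow_FvWild l (orderOf (res L σ)) P σ hl.pos hσ (algebraMap (𝓞 L) OQ x)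
      rw [← res_smul, map_pow, pow_orderOf_eq_one, one_smul] at h1
      rw [← map_pow, eq_comm, Ideal.Quotient.eq, Ideal.mem_comap, map_sub, map_pow]
      exact h1
    · rw [← map_pow]
      refine fix _ fun x => ?_
      letI := Fintype.ofFinite (𝓞 L ⧸ P.under (𝓞 L))
      have h1 := FiniteField.pow_card (Ideal.Quotient.mk (P.under (𝓞 L)) x)
      rw [← Nat.card_eq_fintype_card, hk, ← map_pow, Ideal.Quotient.eq, Ideal.mem_comap, map_sub,
        map_pow] at h1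
      simpa using P.add_mem (pow_FvWild l e P σ hl.pos hσ (algebraMap (𝓞 L) OQ x)) h1

theorem wild_stmt : WildStmt :=
  ⟨one_FvWild, two_FvWild, pow_FvWild, four_FvWild⟩

end Pool.Agent.MP_f68ac8_nt.Ev

end

section

/-! Basic rules for the Kummer characters. -/

namespace Pool.Agent.MP_f68ac8_nt.Ev

open scoped Topology

section
variable {p : ℕ} [hp : Fact p.Prime]

lemma fix_root_EvKK {g : GQ} (hg : cyc (Ω := Qb) p g = 1) {u : Qb} (hu : u ^ p = 1) :
    g u = u := by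
  rw [cyc_spec p g hu, hg, Units.val_one, ZMod.val_one, pow_one]

lemma root_ne_EvKK {x y : Qb} (hx : x ≠ 0) (h : y ^ p = x) : y ≠ 0 := by
  rintro rfl
  exact hx (by rw [← h, zero_pow hp.out.ne_zero])

lemma one_EvKK {x y : Qb} {g : GQ} (hx : x ≠ 0) (h : y ^ p = x) (hg : cyc (Ω := Qb) p g = 1) :
    kap p y g = KK p x g := by
  have hr := proot_pow p x
  have h1 := root_ne_EvKK hx h
  have h2 := root_ne_EvKK hx hr
  have h3 : g (y / proot p x) = y / proot p x :=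
    fix_root_EvKK hg (by rw [div_pow, h, hr, div_self hx])
  have h4 : g (proot p x) ≠ 0 := (map_ne_zero g).mpr h2
  rw [map_div₀, div_eq_div_iff h4 h2] at h3
  have h5 : g y / y = g (proot p x) / proot p x := by
    rw [div_eq_div_iff h1 h2, h3, mul_comm]
  rw [KK, kap, kap, h5]

lemma spec_EvKK {x : Qb} {g : GQ} (hx : x ≠ 0) (h : g x = x) :
    g (proot p x) = xi p ^ (KK p x g).val * proot p x :=
  kap_spec (root_ne_EvKK hx (proot_pow p x)) (by rw [proot_pow, h])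

lemma zero_EvKK {y : Qb} {g : GQ} (hy : y ≠ 0) (h : g y = y) : kap p y g = 0 :=
  kap_eq hy (by rw [h, ZMod.val_zero, pow_zero, one_mul])

lemma mul_EvKK {x y : Qb} {g : GQ} (hx : x ≠ 0) (hy : y ≠ 0) (h1 : g x = x) (h2 : g y = y)
    (hg : cyc (Ω := Qb) p g = 1) : KK p (x * y) g = KK p x g + KK p y g := by
  have e : (proot p x * proot p y) ^ p = x * y := by rw [mul_pow, proot_pow, proot_pow]
  rw [← one_EvKK (mul_ne_zero hx hy) e hg]
  refine kap_eq (root_ne_EvKK (mul_ne_zero hx hy) e) ?_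
  rw [map_mul, spec_EvKK hx h1, spec_EvKK hy h2, ex_add xi_spec]
  ring

lemma unit_EvKK {g : GQ} (hg : cyc (Ω := Qb) p g = 1) : KK p 1 g = 0 := by
  rw [← one_EvKK one_ne_zero (one_pow p) hg]
  exact zero_EvKK one_ne_zero (map_one g)

lemma zpow_EvKK {x : Qb} {g : GQ} (hx : x ≠ 0) (h : g x = x) (hg : cyc (Ω := Qb) p g = 1)
    (m : ℤ) : KK p (x ^ m) g = m * KK p x g := by
  have hm : ∀ k : ℤ, g (x ^ k) = x ^ k := fun k => by rw [map_zpow₀, h]
  induction m using Int.induction_on with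
  | zero => rw [zpow_zero, unit_EvKK hg, Int.cast_zero, zero_mul]
  | succ k ih =>
    rw [zpow_add_one₀ hx, mul_EvKK (zpow_ne_zero _ hx) hx (hm _) h hg, ih]
    push_cast
    ring
  | pred k ih =>
    have e := mul_EvKK (zpow_ne_zero (-(k : ℤ) - 1) hx) hx (hm _) h hg
    rw [← zpow_add_one₀ hx, sub_add_cancel, ih] at e
    push_cast at e ⊢
    linear_combination -e

lemma conj_EvKK {x : Qb} {t h : GQ} (hx : x ≠ 0) (h1 : h (t⁻¹ x) = t⁻¹ x)
    (hh : cyc (Ω := Qb) p h = 1) :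
    KK p x (t * h * t⁻¹) = (cyc (Ω := Qb) p t : ZMod p) * KK p (t⁻¹ x) h := by
  have hr := proot_pow p x
  have h0 := root_ne_EvKK hx hr
  have hx' : t⁻¹ x ≠ 0 := (map_ne_zero t⁻¹).mpr hx
  have e : t⁻¹ (proot p x) ^ p = t⁻¹ x := by rw [← map_pow, hr]
  have h2 := kap_spec (p := p) (root_ne_EvKK hx' e) (g := h) (by rw [e, h1])
  rw [one_EvKK hx' e hh] at h2
  refine kap_eq h0 ?_
  have h3 : t (t⁻¹ (proot p x)) = proot p x := by
    rw [← AlgEquiv.mul_apply, mul_inv_cancel, AlgEquiv.one_apply]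
  rw [AlgEquiv.mul_apply, AlgEquiv.mul_apply, h2, map_mul, h3, cyc_spec p t
    (by rw [pow_right_comm, xi_spec.pow_eq_one, one_pow]), ex_mul xi_spec]

end

theorem kk_stmt (p : ℕ) [Fact p.Prime] : KKStmt p := by
  refine ⟨fun x y g hx h hg => one_EvKK hx h hg,
    fun x y g hx hy h1 h2 hg => mul_EvKK hx hy h1 h2 hg,
    fun x m g hx h hg => zpow_EvKK hx h hg m, fun x g h hx h1 h2 hg => ?_,
    fun x t h hx h1 hh => conj_EvKK hx h1 hh, fun x g hx h => ⟨fun e => ?_, fun e => ?_⟩,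
    fun x hx => ?_, fun s g h2 hs hg => ?_⟩
  · have := kap_mul (p := p) (root_ne_EvKK hx (proot_pow p x)) (g := g) (h := h)
      (by rw [proot_pow, h1]) (by rw [proot_pow, h2])
    rw [hg, Units.val_one, one_mul] at this
    exact this
  · rw [spec_EvKK hx h, e, ZMod.val_zero, pow_zero, one_mul]
  · exact zero_EvKK (root_ne_EvKK hx (proot_pow p x)) e
  · filter_upwards [fix_nhds (proot p x)] with g hg
    exact zero_EvKK (root_ne_EvKK hx (proot_pow p x)) hg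
  · have ho : Odd p := (Fact.out : p.Prime).odd_of_ne_two h2
    rcases sq_eq_one_iff.mp hs with rfl | rfl
    · exact unit_EvKK hg
    · have h0 : (-1 : Qb) ≠ 0 := neg_ne_zero.mpr one_ne_zero
      rw [← one_EvKK h0 ho.neg_one_pow hg]
      exact zero_EvKK h0 (by rw [map_neg, map_one])

end Pool.Agent.MP_f68ac8_nt.Ev

end
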