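import Mathlib
import Pool.Agent.MP_f68ac8_nt.EvAux

set_option linter.all false

section

namespace Pool.Agent.MP_f68ac8_nt.Ev

open NumberField
open Pool.Agent.MP_14ad9d_nt.Full (Pr ord ord_over)

lemma card_e_EvRam {M N : Type} [Field M] [Field N] [NumberField M] [NumberField N] [Algebra M N]
    [IsGalois M N] (Q : Ideal (𝓞 N)) [Q.IsMaximal] :
    Q.ramificationIdx (𝓞 M) = Nat.card (Q.inertia (N ≃ₐ[M] N)) := by
  have : (Q.under (𝓞 M)).IsMaximal := Ideal.isMaximal_comap_of_isIntegral_of_isMaximal Q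
  rw [← Ideal.ramificationIdxIn_eq_ramificationIdx (Q.under (𝓞 M)) Q (N ≃ₐ[M] N),
    ← Ideal.card_inertia_eq_ramificationIdxIn (G := N ≃ₐ[M] N) (Q.under (𝓞 M)) Q]

lemma card_eq_EvRam {M L N : Type} [Field M] [Field L] [Field N] [Algebra M L] [Algebra L N]
    [Algebra M N] [IsScalarTower M L N] (Q : Ideal (𝓞 N))
    (h : ∀ g ∈ Q.inertia (N ≃ₐ[M] N), ∀ x : L, g (algebraMap L N x) = algebraMap L N x) :
    Nat.card (Q.inertia (N ≃ₐ[M] N)) = Nat.card (Q.inertia (N ≃ₐ[L] N)) := by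
  symm
  refine Nat.card_eq_of_bijective
    (fun g => (⟨g.1.restrictScalars M, fun x => g.2 x⟩ : Q.inertia (N ≃ₐ[M] N))) ⟨?_, ?_⟩
  · intro g g' e
    exact Subtype.ext (AlgEquiv.restrictScalars_injective M (congrArg Subtype.val e))
  · intro g
    exact ⟨⟨{ g.1.toRingEquiv with commutes' := h g.1 g.2 }, fun x => g.2 x⟩, rfl⟩

lemma ord_eq_EvRam {M L N : Type} [Field M] [Field L] [Field N] [NumberField M] [NumberField L]
    [NumberField N] [Algebra M L] [Algebra L N] [Algebra M N] [IsScalarTower M L N] [IsGalois M N]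
    (Q : Pr N) (w : Pr M) (w' : Pr L) (h1 : Q.asIdeal.LiesOver w.asIdeal)
    (h2 : Q.asIdeal.LiesOver w'.asIdeal)
    (h : ∀ g ∈ Q.asIdeal.inertia (N ≃ₐ[M] N), ∀ x : L, g (algebraMap L N x) = algebraMap L N x)
    (x : M) : ord w' (algebraMap M L x) = ord w x := by
  have : IsGalois L N := IsGalois.tower_top_of_isGalois M L N
  have := Q.isMaximal
  have e1 := ord_over h1 x
  have e2 := ord_over h2 (algebraMap M L x)
  rw [← IsScalarTower.algebraMap_apply, e1, card_e_EvRam, card_e_EvRam, card_eq_EvRam _ h] at e2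
  have h0 : (Nat.card (Q.asIdeal.inertia (N ≃ₐ[L] N)) : ℤ) ≠ 0 := by
    exact_mod_cast Nat.card_pos.ne'
  exact (mul_left_cancel₀ h0 e2).symm

theorem ram_stmt : RamStmt := by
  intro M L _ _ h P w w' hP hw hw' hI x
  let N : IntermediateField ℚ Qb := IntermediateField.normalClosure ℚ L Qb
  have hLN : L ≤ N := IntermediateField.le_normalClosure L
  have : FiniteDimensional ℚ N := normalClosure.is_finiteDimensional ℚ L Qb
  have : Normal ℚ N := normalClosure.normal ℚ L Qb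
  have : NumberField N := {}
  have : IsGalois ℚ N := {}
  let _ : Algebra M L := (IntermediateField.inclusion h).toAlgebra
  let _ : Algebra L N := (IntermediateField.inclusion hLN).toAlgebra
  let _ : Algebra M N := (IntermediateField.inclusion (h.trans hLN)).toAlgebra
  have : IsScalarTower M L N := IsScalarTower.of_algebraMap_eq fun _ => rfl
  have : IsGalois M N := IsGalois.tower_top_of_isGalois ℚ M N
  have hQ : (P.under (𝓞 N)).IsMaximal := Ideal.isMaximal_comap_of_isIntegral_of_isMaximal P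
  refine ord_eq_EvRam (N := N) ⟨P.under (𝓞 N), hQ.isPrime, NeZero.ne _⟩ w w' ⟨?_⟩ ⟨?_⟩ ?_ x
  · rw [hw]
    ext y
    exact Iff.rfl
  · rw [hw']
    ext y
    exact Iff.rfl
  · intro g hg y
    obtain ⟨u, hu, hr⟩ := lift_inertia N P (g₀ := g.restrictScalars ℚ) fun z => hg z
    have hv : ∀ z : N, u z = (g z : N) := by
      intro z
      have := AlgEquiv.restrictNormal_commutes u N z
      change ((res N u z : N) : Qb) = u z at this
      rw [hr] at this
      exact this.symm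
    have hM : u ∈ M.fixingSubgroup := by
      rw [IntermediateField.mem_fixingSubgroup_iff]
      intro z hz
      exact (hv ⟨z, hLN (h hz)⟩).trans (congrArg Subtype.val (g.commutes ⟨z, hz⟩))
    have hL := hI u hu hM
    rw [IntermediateField.mem_fixingSubgroup_iff] at hL
    exact Subtype.ext ((hv _).symm.trans (hL y.1 y.2))

end Pool.Agent.MP_f68ac8_nt.Ev

end

section

/-! Tame symbols at a split prime in terms of Kummer characters. -/

namespace Pool.Agent.MP_f68ac8_nt.Ev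

open NumberField IsDedekindDomain
open Pool.Agent.MP_14ad9d_nt.Full
open scoped Pointwise

lemma ord_ram_EvLocT {E : Type} [Field E] [NumberField E] {l : ℕ} (hl : l.Prime) (v : Pr E)
    (hv : (l : 𝓞 E) ∈ v.asIdeal) :
    ord v (l : E) = v.asIdeal.ramificationIdx ℤ ∧ ∃ f : ℕ, Ideal.absNorm v.asIdeal = l ^ f := by
  have : Fact l.Prime := ⟨hl⟩
  have hp0 : (l : ℤ) ≠ 0 := by exact_mod_cast hl.ne_zero
  have hpz : Prime (l : ℤ) := Nat.prime_iff_prime_int.1 hl
  have := v.isPrime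
  have hL : v.asIdeal.LiesOver (Ideal.span {(l : ℤ)}) := by
    rw [Ideal.liesOver_span_iff v.isPrime.ne_top hpz, map_natCast]
    exact hv
  let u : HeightOneSpectrum ℤ := ⟨Ideal.span {(l : ℤ)}, Ideal.isPrime_of_liesOver v.asIdeal _,
    by simpa using hl.ne_zero⟩
  have hL' : v.asIdeal.LiesOver u.asIdeal := hL
  refine ⟨?_, _, (Ideal.pow_inertiaDeg l _).symm⟩
  have e := HeightOneSpectrum.intValuation_liesOver u v (l : ℤ)
  rw [u.intValuation_singleton hp0 rfl, Ideal.ramificationIdx'_eq_ramificationIdx _ _ u.ne_bot,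
    map_natCast, ← v.valuation_of_algebraMap (K := E)] at e
  rw [ord, ← map_natCast (algebraMap (𝓞 E) E) l]
  erw [← e]
  simp

lemma norm_eq_EvLocT {E : Type} [Field E] [NumberField E] {l : ℕ} (hl : l.Prime) (v : Pr E)
    (hv : (l : 𝓞 E) ∈ v.asIdeal) (h : ∀ x : 𝓞 E, x - x ^ l ∈ v.asIdeal) :
    Ideal.absNorm v.asIdeal = l := by
  obtain ⟨f, hf⟩ := (ord_ram_EvLocT hl v hv).2
  obtain ⟨g, h1, h2, -⟩ := Sym1Aux.exists_gen v
  have l1 := hl.one_lt
  have a1 : g ^ (l - 1) - 1 ∈ v.asIdeal := by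
    refine (v.isPrime.mem_or_mem (x := g) ?_).resolve_left h1
    have := neg_mem (h g)
    rwa [neg_sub, show g ^ l - g = g * (g ^ (l - 1) - 1) by
      rw [mul_sub, mul_one, ← pow_succ', Nat.sub_add_cancel l1.le]] at this
  have a2 := Nat.le_of_dvd (by omega) ((h2 _).1 a1)
  have a3 := Sym1Aux.one_lt_norm v
  have a4 : l ≤ l ^ f := Nat.le_self_pow (by rintro rfl; simp [hf] at a3) l
  omega

section
variable {M : IntermediateField ℚ Qb} [NumberField M] {P : Ideal OQ} {w : Pr M}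

lemma ram_one_EvLocT [IsGalois ℚ M] [P.IsMaximal] (hw : w.asIdeal = P.under (𝓞 M))
    (hI : ∀ u ∈ P.inertia GQ, u ∈ M.fixingSubgroup) : w.asIdeal.ramificationIdx ℤ = 1 := by
  have := w.isMaximal
  rw [← Ideal.ramificationIdxIn_eq_ramificationIdx (w.asIdeal.under ℤ) w.asIdeal (M ≃ₐ[ℚ] M),
    ← Ideal.card_inertia_eq_ramificationIdxIn (G := M ≃ₐ[ℚ] M) (w.asIdeal.under ℤ) w.asIdeal,
    Subgroup.card_eq_one, eq_bot_iff]
  intro g₀ h₀
  rw [hw] at h₀
  obtain ⟨g, hg, rfl⟩ := lift_inertia M P h₀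
  rw [Subgroup.mem_bot, res_eq_one]
  intro x hx
  exact hI g hg ⟨x, hx⟩

variable {p : ℕ} [hp : Fact p.Prime]

lemma local_EvLocT (hM : xi p ∈ M) (hw : w.asIdeal = P.under (𝓞 M)) {y : M}
    (hy : y ≠ 0) (h0 : ord w y = 0) :
    ∃ (a : OQ) (z d c : 𝓞 M), (z : M) = ⟨xi p, hM⟩ ∧ a ∉ P ∧ c ∉ w.asIdeal ∧
      (d : M) = y * (c : M) ^ p ∧ a ^ p = algebraMap (𝓞 M) OQ d ∧
      ∀ g ∈ M.fixingSubgroup, g • a = algebraMap (𝓞 M) OQ z ^ (KK p y g).val * a := by
  have hv := (Sym1Aux.val_eq_one_iff w hy).2 h0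
  obtain ⟨b, ⟨c, hc⟩, e⟩ := w.exists_primeCompl_mul_eq_of_integer y hv.le
  have hc' : c ∉ w.asIdeal := hc
  have e' : y * (c : M) = (b : M) := e
  have hb : b ∉ w.asIdeal := by
    rw [← Sym1Aux.val_int_eq, ← e', map_mul, hv, (Sym1Aux.val_int_eq w c).2 hc', one_mul]
  have hz : IsIntegral ℤ (⟨xi p, hM⟩ : M) :=
    IsIntegral.of_pow hp.out.pos (by
      rw [show (⟨xi p, hM⟩ : M) ^ p = 1 from Subtype.ext xi_spec.pow_eq_one]
      exact isIntegral_one)
  have hd : ((b * c ^ (p - 1) : 𝓞 M) : M) = y * (c : M) ^ p := by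
    have : (c : M) ^ p = c * (c : M) ^ (p - 1) := by
      rw [← pow_succ', Nat.sub_add_cancel hp.out.one_le]
    rw [this, ← mul_assoc, e']
    simp
  have h1 : (((c : M) : Qb) * proot p y) ^ p =
      (algebraMap (𝓞 M) OQ (b * c ^ (p - 1)) : OQ) := by
    change _ = (((b * c ^ (p - 1) : 𝓞 M) : M) : Qb)
    rw [hd, mul_pow, proot_pow]
    push_cast
    ring
  have hint : IsIntegral ℤ (((c : M) : Qb) * proot p y) :=
    IsIntegral.of_pow hp.out.pos (h1 ▸ RingOfIntegers.isIntegral_coe _)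
  have h2 : (⟨_, hint⟩ : OQ) ^ p = algebraMap (𝓞 M) OQ (b * c ^ (p - 1)) :=
    RingOfIntegers.ext h1
  refine ⟨⟨_, hint⟩, ⟨_, hz⟩, b * c ^ (p - 1), c, rfl, fun h => ?_, hc', hd, h2, fun g hg => ?_⟩
  · have this : b * c ^ (p - 1) ∈ w.asIdeal := by
      rw [hw, Ideal.mem_comap, ← h2]
      exact P.pow_mem_of_mem h p hp.out.pos
    exact (w.isPrime.mem_or_mem this).elim hb fun h => hc' (w.isPrime.mem_of_pow_mem _ h)
  · have hr : proot p (y : Qb) ≠ 0 := fun h => by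
      have := proot_pow p (y : Qb)
      rw [h, zero_pow hp.out.ne_zero] at this
      exact hy (Subtype.ext this.symm)
    have h3 := kap_spec (p := p) hr (g := g) (by rw [proot_pow]; exact hg y)
    have h4 : g ((c : M) : Qb) = (c : M) := hg (c : M)
    refine RingOfIntegers.ext ?_
    change g (((c : M) : Qb) * proot p y) = xi p ^ (KK p y g).val * (((c : M) : Qb) * proot p y)
    rw [map_mul, h3, h4, KK]
    ring

lemma inert_EvLocT [hP : P.IsMaximal] (hM : xi p ∈ M) (hw : w.asIdeal = P.under (𝓞 M))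
    (hpP : (p : OQ) ∉ P) {y : M} (hy : y ≠ 0) (h0 : ord w y = 0) {u : GQ} (hu : u ∈ P.inertia GQ)
    (hu' : u ∈ M.fixingSubgroup) : KK p y u = 0 := by
  obtain ⟨a, z, d, c, hz, ha, -, -, -, h⟩ := local_EvLocT hM hw hy h0
  have h1 : u • a - a ∈ P := hu a
  rw [h u hu', ← sub_one_mul] at h1
  have hzp : algebraMap (𝓞 M) OQ z ^ p = 1 := by
    refine RingOfIntegers.ext ?_
    change ((z : M) : Qb) ^ p = 1
    rw [hz]
    exact xi_spec.pow_eq_one
  have h2 := root_eq_of_sub_mem hpP (by rw [pow_right_comm, hzp, one_pow]) (one_pow _)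
    ((hP.isPrime.mem_or_mem h1).resolve_right ha)
  have h3 : ((z : M) : Qb) ^ (KK p y u).val = 1 := congrArg (fun t : OQ => (t : Qb)) h2
  rw [hz] at h3
  have h4 : xi p ^ (KK p y u).val = xi p ^ (0 : ZMod p).val := by
    rw [ZMod.val_zero, pow_zero]
    exact h3
  exact ex_inj xi_spec h4

lemma frob_EvLocT [hP : P.IsMaximal] (hM : xi p ∈ M) (hw : w.asIdeal = P.under (𝓞 M))
    (ht : Tm p w) {l : ℕ} (hN : Ideal.absNorm w.asIdeal = l) {y : M} (hy : y ≠ 0)
    (h0 : ord w y = 0) {σ : GQ} (hσ : IsFrob l P σ) (hσ' : σ ∈ M.fixingSubgroup) :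
    chi p (⟨xi p, hM⟩ : M) w y = KK p y σ := by
  obtain ⟨a, z, d, c, hz, ha, hc, hd, had, h⟩ := local_EvLocT hM hw hy h0
  have hζ : IsPrimitiveRoot (⟨xi p, hM⟩ : M) p :=
    xi_spec.of_map_of_injective (f := algebraMap M Qb) (algebraMap M Qb).injective
  obtain ⟨m, hm⟩ := norm_mod hζ ht
  have l1 := Sym1Aux.one_lt_norm w
  have h1 := neg_mem (hσ a)
  rw [h σ hσ', show l = p * m + 1 by omega, pow_succ, pow_mul, had, neg_sub, ← sub_mul,
    ← map_pow, ← map_pow, ← map_sub] at h1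
  have h2 : d ^ m - z ^ (KK p y σ).val ∈ w.asIdeal := by
    rw [hw]
    exact (hP.isPrime.mem_or_mem h1).resolve_right ha
  have c0 : c ≠ 0 := fun e => hc (e ▸ zero_mem _)
  have c0' : (c : M) ≠ 0 := by simpa using c0
  have c1 := (ord_eq_zero_iff w c0).2 hc
  have c2 : ord w ((c : M) ^ p) = 0 := by rw [ord_pow, c1, mul_zero]
  have h3 : chi p (⟨xi p, hM⟩ : M) w (y * (c : M) ^ p) = KK p y σ := by
    rw [chi_spec hζ ht (mul_ne_zero hy (pow_ne_zero _ c0'))
      (by rw [ord_mul w hy (pow_ne_zero _ c0'), h0, c2, add_zero]), hm,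
      Nat.mul_div_cancel_left _ hp.out.pos, ← hd, ← hz]
    have := (Sym1Aux.val_int_lt w _).2 h2
    simpa using this
  rw [chi_mul hζ ht hy (pow_ne_zero _ c0') h0 c2, ← zpow_natCast, chi_zpow hζ ht c0' c1] at h3
  simpa using h3

end

end Pool.Agent.MP_f68ac8_nt.Ev

end

section

namespace Pool.Agent.MP_f68ac8_nt.Ev

open NumberField
open scoped Pointwise Topology

attribute [local instance] Ideal.Quotient.field in
lemma int_of_pow_EvTriv {A : Type} [CommRing A] (Q : Ideal A) [Q.IsMaximal] {l : ℕ} (hl : l.Prime)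
    (h : (l : A) ∈ Q) {x : A} (hx : x - x ^ l ∈ Q) : ∃ a : ℤ, x - a ∈ Q := by
  haveI : Fact l.Prime := ⟨hl⟩
  haveI : CharP (A ⧸ Q) l := (CharP.charP_iff_prime_eq_zero hl).2 (by
    rw [← map_natCast (Ideal.Quotient.mk Q), Ideal.Quotient.eq_zero_iff_mem]; exact h)
  have h1 : Ideal.Quotient.mk Q x ^ l = Ideal.Quotient.mk Q x := by
    rw [← map_pow, eq_comm, Ideal.Quotient.eq]; exact hx
  obtain ⟨a, ha⟩ := (mem_bot_iff_intCast l (A ⧸ Q)).1
    ((Subfield.mem_bot_iff_pow_eq_self (A ⧸ Q) l).2 h1)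
  refine ⟨a, ?_⟩
  rw [← Ideal.Quotient.eq, map_intCast, ha]

lemma smul_sub_EvTriv {A G : Type} [CommRing A] [Group G] [MulSemiringAction G A] (Q : Ideal A)
    [Q.IsMaximal] {l : ℕ} (hl : l.Prime) (h : (l : A) ∈ Q) {x : A} (hx : x - x ^ l ∈ Q) {g : G}
    (hg : g • Q = Q) : g • x - x ∈ Q := by
  obtain ⟨a, ha⟩ := int_of_pow_EvTriv Q hl h hx
  have h1 : g • (x - a) ∈ g • Q := Ideal.smul_mem_pointwise_smul g _ Q ha
  have h2 : g • (a : A) = a := map_intCast (MulSemiringAction.toRingHom G A g) a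
  rw [hg, smul_sub, h2] at h1
  simpa using Q.sub_mem h1 ha

section
variable (F : IntermediateField ℚ Qb) [NumberField F] [IsGalois ℚ F]

omit [IsGalois ℚ F] in
lemma mem_under_EvTriv {P : Ideal OQ} {l : ℕ} (h : (l : OQ) ∈ P) :
    (l : 𝓞 F) ∈ P.under (𝓞 F) := by
  rw [Ideal.mem_comap, map_natCast]; exact h

lemma count_EvTriv (P : Ideal OQ) [P.IsMaximal] {l : ℕ} (hl : l.Prime) (h : (l : OQ) ∈ P) :
    ((Ideal.span {(l : ℤ)}).primesOver (𝓞 F)).ncard *
      Nat.card (MulAction.stabilizer (F ≃ₐ[ℚ] F) (P.under (𝓞 F))) = Module.finrank ℚ F := by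
  haveI : (P.under (𝓞 F)).LiesOver (Ideal.span {(l : ℤ)}) :=
    ⟨by rw [Ideal.under_under, under_int_eq hl h]⟩
  rw [← IsGalois.card_aut_eq_finrank,
    ← Algebra.IsInvariant.orbit_eq_primesOver ℤ (𝓞 F) (F ≃ₐ[ℚ] F) _ (P.under (𝓞 F))]
  simpa using Nat.card_congr (MulAction.orbitProdStabilizerEquivGroup (F ≃ₐ[ℚ] F) (P.under (𝓞 F)))

lemma inert_EvTriv (P : Ideal OQ) [P.IsMaximal] {l : ℕ} (hl : l.Prime) (h : (l : OQ) ∈ P)
    (hd : ¬ (l : ℤ) ∣ discr F) : (P.under (𝓞 F)).inertia (F ≃ₐ[ℚ] F) = ⊥ := by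
  set Q := P.under (𝓞 F) with hQ
  haveI : Q.IsMaximal := Ideal.isMaximal_comap_of_isIntegral_of_isMaximal P
  have h1 := (not_dvd_discr_iff_forall_mem F (𝓞 F) (Nat.prime_iff_prime_int.mp hl)).1 hd Q
    inferInstance (by rw [Int.cast_natCast]; exact mem_under_EvTriv F h)
  rwa [← Ideal.ramificationIdx_eq_one_iff,
    ← Ideal.ramificationIdxIn_eq_ramificationIdx (Q.under ℤ) Q (F ≃ₐ[ℚ] F),
    ← Ideal.card_inertia_eq_ramificationIdxIn (G := F ≃ₐ[ℚ] F) (Q.under ℤ) Q,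
    Subgroup.card_eq_one] at h1

lemma mem_fix_EvTriv {g : GQ} : g ∈ F.fixingSubgroup ↔ res F g = 1 := by
  rw [res_eq_one]
  exact IntermediateField.mem_fixingSubgroup_iff F g

lemma inert_le_EvTriv (P : Ideal OQ) [P.IsMaximal] {l : ℕ} (hl : l.Prime) (h : (l : OQ) ∈ P)
    (hd : ¬ (l : ℤ) ∣ discr F) : P.inertia GQ ≤ F.fixingSubgroup := fun g hg => by
  have := res_inertia F hg
  rw [inert_EvTriv F P hl h hd, Subgroup.mem_bot] at this
  exact (mem_fix_EvTriv F).2 this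

variable (p : ℕ) [hp : Fact p.Prime]

lemma split_EvTriv {l : ℕ} (h : TrivPrime p F l) : l ≠ p ∧ Split (HH p F) l := by
  obtain ⟨hl, h1, h2⟩ := h
  have hne : l ≠ p := by
    rintro rfl
    exact hl.one_lt.ne' (Nat.dvd_one.1 ((Nat.modEq_zero_iff_dvd).1
      (h1.symm.trans (Nat.modEq_zero_iff_dvd.2 dvd_rfl))))
  refine ⟨hne, fun P hP hlP g hg => ⟨(mem_fix_EvTriv F).2 ?_, ?_⟩⟩
  · have h3 := count_EvTriv F P hl hlP
    rw [h2, mul_eq_left₀ Module.finrank_pos.ne', Subgroup.card_eq_one] at h3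
    rw [← Subgroup.mem_bot, ← h3, MulAction.mem_stabilizer_iff]
    conv_rhs => rw [← hg]
    ext x
    rw [Ideal.mem_comap, Ideal.mem_pointwise_smul_iff_inv_smul_mem,
      Ideal.mem_pointwise_smul_iff_inv_smul_mem, Ideal.mem_comap, ← map_inv, res_smul]
  · refine cyc_of_xi (p := p) ?_
    let y : OQ := ⟨xi p, isIntegral_of_pow_eq_one (n := p) xi_spec.pow_eq_one⟩
    have hy : y ^ p = 1 := RingOfIntegers.ext (by simpa [y] using xi_spec.pow_eq_one)
    have hy' : y ^ l = y := by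
      rw [← Nat.div_add_mod l p, pow_add, pow_mul, hy, one_pow, one_mul, h1,
        Nat.mod_eq_of_lt hp.out.one_lt, pow_one]
    have h4 := smul_sub_EvTriv P hl hlP (x := y) (by rw [hy', sub_self]; exact zero_mem _) hg
    have := root_eq_of_sub_mem (not_mem_of_coprime hlP ((Nat.coprime_primes hl hp.out).2 hne))
      (by rw [← smul_pow', hy, smul_one]) hy h4
    exact congrArg (fun z : OQ => (z : Qb)) this

lemma triv_EvTriv {l : ℕ} (hl : l.Prime) (hne : l ≠ p) (hd : ¬ (l : ℤ) ∣ discr F) (P : Ideal OQ)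
    [P.IsMaximal] (hlP : (l : OQ) ∈ P) {σ : GQ} (hσ : IsFrob l P σ) (hH : σ ∈ HH p F) :
    TrivPrime p F l := by
  refine ⟨hl, ?_, ?_⟩
  · have h1 := cyc_frob (not_mem_of_coprime hlP ((Nat.coprime_primes hl hp.out).2 hne)) hσ
    rw [MonoidHom.mem_ker.1 hH.2, Units.val_one] at h1
    rw [← ZMod.natCast_eq_natCast_iff, Nat.cast_one, h1]
  · haveI : (P.under (𝓞 F)).IsMaximal := Ideal.isMaximal_comap_of_isIntegral_of_isMaximal P
    have h2 : MulAction.stabilizer (F ≃ₐ[ℚ] F) (P.under (𝓞 F)) = ⊥ := by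
      rw [eq_bot_iff, ← inert_EvTriv F P hl hlP hd]
      intro δ hδ x
      refine smul_sub_EvTriv _ hl (mem_under_EvTriv F hlP) ?_ hδ
      have := hσ (algebraMap (𝓞 F) OQ x)
      rw [← res_smul, (mem_fix_EvTriv F).1 hH.1, one_smul] at this
      rw [Ideal.mem_comap, map_sub, map_pow]
      exact this
    have h3 := count_EvTriv F P hl hlP
    rwa [h2, Subgroup.card_bot, mul_one] at h3

lemma field_EvTriv : ∃ (M : IntermediateField ℚ Qb) (_ : NumberField M) (_ : IsGalois ℚ M),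
    xi p ∈ M ∧ F ≤ M ∧ M.fixingSubgroup = HH p F ∧
      (2 < p → ¬ p ∣ Module.finrank ℚ F → ¬ (p : ℤ) ∣ discr F → MData p M) := by
  have hk : HH p F = ((res F).prod (cyc (Ω := Qb) p)).ker := by
    rw [MonoidHom.ker_prod]
    exact Subgroup.ext fun g => and_congr_left' (mem_fix_EvTriv F)
  have hn : (HH p F).Normal := hk ▸ MonoidHom.normal_ker _
  have hop : IsOpen (HH p F : Set GQ) := Subgroup.isOpen_of_mem_nhds _ (g := 1)
    (Filter.inter_mem (F.fixingSubgroup_isOpen.mem_nhds (one_mem _)) (cyc_nhds p))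
  have hfix := InfiniteGalois.fixingSubgroup_fixedField
    ⟨HH p F, (HH p F).isClosed_of_isOpen hop⟩
  set M := IntermediateField.fixedField (HH p F) with hM
  change M.fixingSubgroup = HH p F at hfix
  obtain ⟨h1, h2⟩ := (InfiniteGalois.isOpen_and_normal_iff_finite_and_isGalois M).mp
    (by rw [hfix]; exact ⟨hop, hn⟩)
  haveI : FiniteDimensional ℚ M := h1
  have hxi : xi p ∈ M := fun g => fix_xi (MonoidHom.mem_ker.1 g.2.2)
  refine ⟨M, {}, h2, hxi, (IntermediateField.le_iff_le _ _).2 inf_le_left, hfix,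
    fun h3 h4 h5 => ⟨h3, hxi, fun h6 => ?_, fun P hP hpP u hu hc => ?_⟩⟩
  · rw [IntermediateField.finrank_eq_fixingSubgroup_index, hfix, hk, Subgroup.index_ker] at h6
    have h7 := h6.trans (Subgroup.card_subgroup_dvd_card _)
    rw [Nat.card_prod, IsGalois.card_aut_eq_finrank, Nat.card_eq_fintype_card,
      ZMod.card_units, hp.out.dvd_mul] at h7
    rcases h7 with h7 | h7
    · exact h4 h7
    · exact absurd (Nat.le_of_dvd (by omega) h7) (by omega)
  · rw [hfix]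
    exact ⟨inert_le_EvTriv F P hp.out hpP h5 hu, hc⟩

end

theorem triv_stmt (p : ℕ) [Fact p.Prime] : TrivStmt p := fun F _ _ =>
  ⟨fun _ h => split_EvTriv F p h, fun _ hl hd P _ h => inert_le_EvTriv F P hl h hd,
    fun _ hl hne hd P _ h _ hσ hH => triv_EvTriv F p hl hne hd P h hσ hH, field_EvTriv F p⟩

end Pool.Agent.MP_f68ac8_nt.Ev

end
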