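import Pool.Agent.MP_e23604_nt.P.Defs
import Pool.Agent.MP_e23604_nt.P.Div
import Pool.Agent.MP_fdd1d3_nt.Mertens
import Pool.Agent.MP_2a1f0e_nt.Div

set_option linter.all false

section

/-!
The quadratic characters given by Jacobi symbols.
-/

open Finset
open scoped Classical

noncomputable section

namespace Pool.Agent.MP_e23604_nt.P

theorem chi_cases (c : ℤ) (n : ℕ) : chi c n = 0 ∨ chi c n = 1 ∨ chi c n = -1 := by
  unfold chi
  split_ifs
  · rcases jacobiSym.trichotomy c n with h | h | h <;> simp [h]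
  · exact Or.inl rfl

theorem abs_chi_le (c : ℤ) (n : ℕ) : |chi c n| ≤ 1 := by
  rcases chi_cases c n with h | h | h <;> simp [h]

theorem chi_one_right (c : ℤ) : chi c 1 = 1 := by
  simp [chi]

theorem chi_one_left {n : ℕ} (hn : n % 2 = 1) : chi 1 n = 1 := by
  simp [chi, hn]

theorem chi_mul (c : ℤ) (m n : ℕ) : chi c (m * n) = chi c m * chi c n := by
  unfold chi
  rcases Nat.mod_two_eq_zero_or_one m with hm | hm
  · simp [Nat.mul_mod, hm]
  rcases Nat.mod_two_eq_zero_or_one n with hn | hn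
  · simp [Nat.mul_mod, hn]
  have h : (m * n) % 2 = 1 := by simp [Nat.mul_mod, hm, hn]
  rw [if_pos h, if_pos hm, if_pos hn, jacobiSym.mul_right' c (by omega) (by omega)]
  push_cast
  rfl

theorem chi_mul_left (c c' : ℤ) (n : ℕ) : chi (c * c') n = chi c n * chi c' n := by
  unfold chi
  split_ifs
  · rw [jacobiSym.mul_left]
    push_cast
    rfl
  · simp

theorem chi_neg_one {n : ℕ} (hn : n % 2 = 1) : chi (-1) n = if n % 4 = 1 then 1 else -1 := by
  unfold chi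
  rw [if_pos hn, jacobiSym.at_neg_one (Nat.odd_iff.2 hn), ZMod.χ₄_nat_eq_if_mod_four,
    if_neg (by omega)]
  split_ifs <;> simp

theorem jac_swap {d e : ℕ} (hd : d % 2 = 1) (he : e % 2 = 1) : (jacobiSym (d : ℤ) e : ℝ) =
    (jacobiSym (e : ℤ) d : ℝ) *
      ((1 + chi (-1) d + chi (-1) e - chi (-1) d * chi (-1) e) / 2) := by
  rw [chi_neg_one hd, chi_neg_one he, ← jacobiSym.quadratic_reciprocity_if hd he]
  rcases Nat.odd_mod_four_iff.1 hd with h1 | h1 <;>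
    rcases Nat.odd_mod_four_iff.1 he with h2 | h2 <;> simp [h1, h2] <;> ring

/-- Quadratic reciprocity. -/
theorem chi_star {l e : ℕ} (hl : l % 2 = 1) (he : e % 2 = 1) :
    (jacobiSym (l : ℤ) e : ℝ) = chi (star e) l := by
  have h0 : chi (e : ℤ) l = (jacobiSym (e : ℤ) l : ℝ) := by
    unfold chi
    rw [if_pos hl]
  rw [jac_swap hl he, chi_neg_one he]
  unfold star
  split_ifs with h
  · rw [h0]
    ring
  · rw [show (-(e : ℤ)) = -1 * e by ring, chi_mul_left, h0]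
    ring

theorem NS_of_prime {c : ℤ} {l : ℕ} (hl : l.Prime) (h2 : l ≠ 2) (h : (l : ℤ) ∣ c)
    (h' : ¬ (l : ℤ) ^ 2 ∣ c) : NS c := by
  obtain ⟨d, rfl⟩ := h
  have hd : ¬ (l : ℤ) ∣ d := fun hd => h' (by rw [pow_two]; exact mul_dvd_mul_left _ hd)
  have hd0 : d ≠ 0 := fun h0 => hd (h0 ▸ dvd_zero _)
  have hdp : 0 < d.natAbs := Int.natAbs_pos.2 hd0
  have hlo : Odd l := hl.odd_of_ne_two h2
  have hco : Nat.Coprime (4 * d.natAbs) l := by
    refine Nat.Coprime.mul_left ?_ ?_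
    · exact Nat.Coprime.pow_left 2 ((Nat.coprime_primes Nat.prime_two hl).2 h2.symm)
    · exact (hl.coprime_iff_not_dvd.2 fun hh => hd (Int.natCast_dvd.2 hh)).symm
  have : Fact l.Prime := ⟨hl⟩
  obtain ⟨a, ha⟩ := FiniteField.exists_nonsquare (F := ZMod l) (by rwa [ZMod.ringChar_zmod_n])
  obtain ⟨n, hn1, hn2⟩ := Nat.chineseRemainder hco 1 a.val
  have hK : n % (4 * d.natAbs) = 1 := by
    rw [hn1]
    exact Nat.mod_eq_of_lt (by omega)
  have h4 : n % 4 = 1 := by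
    rw [← Nat.mod_mod_of_dvd n (dvd_mul_right 4 d.natAbs), hK]
  have hno : n % 2 = 1 := by omega
  refine ⟨n, hno, ?_⟩
  rw [jacobiSym.mul_left, jacobiSym.mod_right d (Nat.odd_iff.2 hno), hK, jacobiSym.one_right,
    mul_one, jacobiSym.quadratic_reciprocity_one_mod_four' hlo h4,
    ZMod.nonsquare_iff_jacobiSym_eq_neg_one]
  have : (((n : ℕ) : ℤ) : ZMod l) = a := by
    rw [Int.cast_natCast, (ZMod.natCast_eq_natCast_iff _ _ _).2 hn2, ZMod.natCast_zmod_val]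
  rwa [this]

theorem xBChi_mod (c : ℤ) (n : ℕ) : chi c (n % (4 * c.natAbs)) = chi c n := by
  have h : n % (4 * c.natAbs) % 2 = n % 2 :=
    Nat.mod_mod_of_dvd n (Dvd.dvd.mul_right (by decide) _)
  unfold chi
  rw [h]
  split_ifs with h1
  · rw [← jacobiSym.mod_right c (Nat.odd_iff.2 h1)]
  · rfl

theorem xBChi_period {c : ℤ} (h : NS c) : ∑ n ∈ range (4 * c.natAbs), chi c n = 0 := by
  obtain ⟨m, hm, hj⟩ := h
  have hm0 : m ≠ 0 := by omega
  have hg : c.gcd m = 1 := by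
    by_contra hne
    rw [jacobiSym.eq_zero_iff.2 ⟨hm0, hne⟩] at hj
    norm_num at hj
  have hco : Nat.Coprime (4 * c.natAbs) m := by
    refine Nat.Coprime.mul_left ?_ ?_
    · exact Nat.Coprime.pow_left 2 (Nat.coprime_two_left.2 (Nat.odd_iff.2 hm))
    · simpa [Int.gcd] using hg
  have hcm : chi c m = -1 := by
    unfold chi
    rw [if_pos hm, hj]
    simp
  rcases Nat.eq_zero_or_pos (4 * c.natAbs) with h0 | hK
  · rw [h0]
    simp
  have hinj : Set.InjOn (fun n => m * n % (4 * c.natAbs)) (range (4 * c.natAbs) : Finset ℕ) := by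
    intro a ha b hb hab
    have h1 : a ≡ b [MOD 4 * c.natAbs] := Nat.ModEq.cancel_left_of_coprime hco hab
    exact Nat.ModEq.eq_of_lt_of_lt h1 (by simpa using ha) (by simpa using hb)
  have hmap : Set.MapsTo (fun n => m * n % (4 * c.natAbs)) (range (4 * c.natAbs) : Finset ℕ)
      (range (4 * c.natAbs) : Finset ℕ) := fun a _ => by
    simpa using Nat.mod_lt _ hK
  have h1 : ∑ n ∈ range (4 * c.natAbs), -chi c n = ∑ n ∈ range (4 * c.natAbs), chi c n := by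
    refine Finset.sum_nbij (fun n => m * n % (4 * c.natAbs)) (fun a ha => hmap ha) hinj
      (Finset.surjOn_of_injOn_of_card_le _ hmap hinj le_rfl) fun a _ => ?_
    rw [xBChi_mod, chi_mul, hcm]
    ring
  rw [Finset.sum_neg_distrib] at h1
  linarith

theorem xBChi_red {c : ℤ} (h : NS c) (q r : ℕ) :
    ∑ n ∈ range (4 * c.natAbs * q + r), chi c n = ∑ n ∈ range r, chi c n := by
  induction q with
  | zero => simp
  | succ q ih =>
    rw [show 4 * c.natAbs * (q + 1) + r = 4 * c.natAbs + (4 * c.natAbs * q + r) by ring,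
      Finset.sum_range_add, xBChi_period h, zero_add, ← ih]
    refine Finset.sum_congr rfl fun n _ => ?_
    rw [← xBChi_mod c (4 * c.natAbs + n), Nat.add_mod_left, xBChi_mod]

theorem chi_sum {c : ℤ} (h : NS c) (N : ℕ) : |∑ n ∈ Icc 1 N, chi c n| ≤ 4 * |(c : ℝ)| := by
  have hc : c ≠ 0 := by
    rintro rfl
    obtain ⟨m, hm, hj⟩ := h
    rcases Nat.lt_or_ge 1 m with h1 | h1
    · rw [jacobiSym.zero_left h1] at hj
      norm_num at hj
    · rw [show m = 1 by omega, jacobiSym.one_right] at hj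
      norm_num at hj
  have hK : 0 < 4 * c.natAbs := by
    have := Int.natAbs_pos.2 hc
    omega
  have h1 : ∑ n ∈ Icc 1 N, chi c n = ∑ n ∈ range (N + 1), chi c n := by
    rw [Finset.range_eq_Ico, Finset.sum_eq_sum_Ico_succ_bot (by omega)]
    have : chi c 0 = 0 := by simp [chi]
    rw [this, zero_add]
    rfl
  rw [h1, ← Nat.div_add_mod (N + 1) (4 * c.natAbs), xBChi_red h]
  refine (Finset.abs_sum_le_sum_abs _ _).trans ?_
  refine (Finset.sum_le_sum fun n _ => abs_chi_le c n).trans ?_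
  have h2 : (N + 1) % (4 * c.natAbs) ≤ 4 * c.natAbs := (Nat.mod_lt _ hK).le
  have h3 : (((N + 1) % (4 * c.natAbs) : ℕ) : ℝ) ≤ ((4 * c.natAbs : ℕ) : ℝ) := by
    exact_mod_cast h2
  have h4 : ((4 * c.natAbs : ℕ) : ℝ) = 4 * |(c : ℝ)| := by
    push_cast
    rw [Nat.cast_natAbs]
    simp
  simpa [h4] using h3.trans h4.le

end Pool.Agent.MP_e23604_nt.P

end
end

section

/-!
Bilinear sums of Jacobi symbols.
-/

open Finset
open scoped Classical

noncomputable section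

namespace Pool.Agent.MP_e23604_nt.P

theorem xBBil_ns1 {d e l : ℕ} (hd : Squarefree d) (ho : d % 2 = 1) (hl : l.Prime) (h1 : l ∣ d)
    (h2 : ¬ l ∣ e) : NS ((d : ℤ) * e) := by
  refine NS_of_prime hl ?_ (Dvd.dvd.mul_right (Int.natCast_dvd_natCast.2 h1) _) fun h => ?_
  · rintro rfl
    omega
  · have h3 : l ^ 2 ∣ d * e := by exact_mod_cast h
    have h4 := Nat.Coprime.dvd_of_dvd_mul_right
      (Nat.Coprime.pow_left 2 ((Nat.Prime.coprime_iff_not_dvd hl).2 h2)) h3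
    exact hl.one_lt.ne' (Nat.isUnit_iff.1 (hd l (by rwa [← pow_two])))

theorem xBBil_ns {d e : ℕ} (hd : Squarefree d ∧ d % 2 = 1) (he : Squarefree e ∧ e % 2 = 1)
    (h : d ≠ e) : NS ((d : ℤ) * e) := by
  by_cases h1 : ∃ l, l.Prime ∧ l ∣ d ∧ ¬ l ∣ e
  · obtain ⟨l, hl, h1, h2⟩ := h1
    exact xBBil_ns1 hd.1 hd.2 hl h1 h2
  by_cases h2 : ∃ l, l.Prime ∧ l ∣ e ∧ ¬ l ∣ d
  · obtain ⟨l, hl, h1, h2⟩ := h2
    rw [mul_comm]
    exact xBBil_ns1 he.1 he.2 hl h1 h2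
  push Not at h1 h2
  refine absurd ?_ h
  rw [← Nat.prod_primeFactors_of_squarefree hd.1, ← Nat.prod_primeFactors_of_squarefree he.1]
  congr 1
  ext l
  simp only [Nat.mem_primeFactors]
  exact ⟨fun h => ⟨h.1, h1 l h.1 h.2.1, he.1.ne_zero⟩, fun h => ⟨h.1, h2 l h.1 h.2.1, hd.1.ne_zero⟩⟩

/-- The mean square over the lower argument. -/
theorem bil_sq (D N : ℕ) (a : ℕ → ℝ) (ha : ∀ d, a d ≠ 0 → Squarefree d ∧ d % 2 = 1) :
    ∑ n ∈ Icc 1 N, (∑ d ∈ Icc 1 D, a d * chi d n) ^ 2 ≤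
      N * ∑ d ∈ Icc 1 D, a d ^ 2 + 4 * (D : ℝ) ^ 2 * (∑ d ∈ Icc 1 D, |a d|) ^ 2 := by
  have key : ∀ d ∈ Icc 1 D, ∀ e ∈ Icc 1 D, ∑ n ∈ Icc 1 N, a d * chi d n * (a e * chi e n) ≤
      (if d = e then N * a d ^ 2 else 0) + 4 * (D : ℝ) ^ 2 * (|a d| * |a e|) := by
    intro d hd e he
    have h1 : ∑ n ∈ Icc 1 N, a d * chi d n * (a e * chi e n) =
        a d * a e * ∑ n ∈ Icc 1 N, chi ((d : ℤ) * e) n := by
      rw [mul_sum]
      exact sum_congr rfl fun n _ => by rw [chi_mul_left]; ring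
    have h0 : 0 ≤ 4 * (D : ℝ) ^ 2 * (|a d| * |a e|) := by positivity
    rw [h1]
    split_ifs with h
    · subst h
      have h2 : ∑ n ∈ Icc 1 N, chi ((d : ℤ) * d) n ≤ N := by
        have := sum_le_card_nsmul (Icc 1 N) (fun n => chi ((d : ℤ) * d) n) 1
          fun n _ => (le_abs_self _).trans (abs_chi_le _ _)
        simpa using this
      nlinarith [mul_le_mul_of_nonneg_left h2 (mul_self_nonneg (a d))]
    · by_cases hd0 : a d = 0
      · simp [hd0]
      by_cases he0 : a e = 0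
      · simp [he0]
      have h2 := chi_sum (xBBil_ns (ha d hd0) (ha e he0) h) N
      have h3 : |(((d : ℤ) * e : ℤ) : ℝ)| ≤ (D : ℝ) ^ 2 := by
        have h4 : d * e ≤ D ^ 2 := by
          rw [pow_two]; exact Nat.mul_le_mul (mem_Icc.1 hd).2 (mem_Icc.1 he).2
        push_cast
        rw [abs_of_nonneg (by positivity)]
        exact_mod_cast h4
      rw [zero_add]
      refine (le_abs_self _).trans ?_
      rw [abs_mul, abs_mul, mul_comm]
      exact mul_le_mul_of_nonneg_right (by linarith) (by positivity)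
  calc _ = ∑ d ∈ Icc 1 D, ∑ e ∈ Icc 1 D, ∑ n ∈ Icc 1 N, a d * chi d n * (a e * chi e n) := by
        simp only [pow_two, sum_mul_sum]
        rw [sum_comm]
        exact sum_congr rfl fun d _ => sum_comm
    _ ≤ ∑ d ∈ Icc 1 D, ∑ e ∈ Icc 1 D,
          ((if d = e then N * a d ^ 2 else 0) + 4 * (D : ℝ) ^ 2 * (|a d| * |a e|)) :=
        sum_le_sum fun d hd => sum_le_sum fun e he => key d hd e he
    _ = _ := by
        simp only [sum_add_distrib]
        congr 1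
        · rw [mul_sum]
          exact sum_congr rfl fun d hd => by rw [sum_ite_eq, if_pos hd]
        · rw [pow_two (∑ d ∈ Icc 1 D, |a d|), sum_mul_sum, mul_sum]
          exact sum_congr rfl fun d _ => by rw [mul_sum]

theorem xBBil_sqz (N k : ℕ) (b : ℕ → ℝ) (hb : ∀ n, |b n| ≤ tau n ^ k) :
    ∃ B : ℕ → ℝ, (∀ n, |B n| ≤ tau n ^ (2 * k + 1)) ∧ ∀ c : ℤ,
      (∑ e ∈ Icc 1 N, b e * chi c e) ^ 2 = ∑ n ∈ Icc 1 (N ^ 2), B n * chi c n := by
  refine ⟨fun n => ∑ p ∈ (Icc 1 N ×ˢ Icc 1 N).filter (fun p => p.1 * p.2 = n), b p.1 * b p.2,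
    fun n => ?_, fun c => ?_⟩
  · beta_reduce
    by_cases hn : n = 0
    · rw [sum_eq_zero, abs_zero]
      · exact pow_nonneg (tau_nonneg _) _
      · intro p hp
        simp only [mem_filter, mem_product, mem_Icc, hn, mul_eq_zero] at hp
        omega
    have hn' : (n : ℤ) ≠ 0 := by exact_mod_cast hn
    refine (abs_sum_le_sum_abs _ _).trans ((sum_le_card_nsmul _ _ (tau n ^ (2 * k)) ?_).trans ?_)
    · intro p hp
      have h := (mem_filter.1 hp).2
      have h1 : tau p.1 ≤ tau n := tau_le_of_dvd (by exact_mod_cast Dvd.intro _ h) hn'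
      have h2 : tau p.2 ≤ tau n := tau_le_of_dvd (by exact_mod_cast Dvd.intro_left _ h) hn'
      rw [abs_mul, two_mul, pow_add]
      exact mul_le_mul ((hb _).trans (pow_le_pow_left₀ (tau_nonneg _) h1 _))
        ((hb _).trans (pow_le_pow_left₀ (tau_nonneg _) h2 _)) (abs_nonneg _)
        (pow_nonneg (tau_nonneg _) _)
    · rw [nsmul_eq_mul, pow_succ']
      refine mul_le_mul_of_nonneg_right ?_ (pow_nonneg (tau_nonneg _) _)
      rw [← card_image_of_injOn (f := Prod.fst)]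
      · refine card_le_tau hn' _ fun d hd => ?_
        obtain ⟨p, hp, rfl⟩ := mem_image.1 hd
        exact_mod_cast Dvd.intro _ (mem_filter.1 hp).2
      · intro p hp q hq h
        simp only [coe_filter, mem_product, mem_Icc, Set.mem_ofPred_eq] at hp hq
        refine Prod.ext h (Nat.eq_of_mul_eq_mul_left (show 0 < p.1 from hp.1.1.1) ?_)
        rw [hp.2, h, hq.2]
  · rw [pow_two, sum_mul_sum, ← sum_product',
      ← sum_fiberwise_of_maps_to (t := Icc 1 (N ^ 2)) (g := fun p : ℕ × ℕ => p.1 * p.2)]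
    · refine sum_congr rfl fun n _ => ?_
      rw [sum_mul]
      refine sum_congr rfl fun p hp => ?_
      rw [← (mem_filter.1 hp).2, chi_mul]
      ring
    · intro p hp
      simp only [mem_product, mem_Icc] at hp ⊢
      exact ⟨Nat.mul_pos hp.1.1 hp.2.1, by rw [pow_two]; exact Nat.mul_le_mul hp.1.2 hp.2.2⟩

theorem xBBil_core : ∃ c : ℕ, ∀ (D E : ℕ) (a b : ℕ → ℝ), 1 ≤ D → D ≤ E → (∀ n, |a n| ≤ tau n) →
    (∀ n, |b n| ≤ tau n) → (∀ n, a n ≠ 0 → Squarefree n ∧ n % 2 = 1) →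
    (∑ d ∈ Icc 1 D, ∑ e ∈ Icc 1 E, a d * b e * chi d e) ^ 8 ≤
      5 * (D : ℝ) ^ 7 * (E : ℝ) ^ 8 * (1 + Real.log D) ^ 16 * (1 + 4 * Real.log E) ^ c := by
  obtain ⟨c, hc⟩ : ∃ c : ℕ, ∀ N : ℕ, ∑ n ∈ Icc 1 N, tau n ^ 14 ≤ N * (1 + Real.log N) ^ c :=
    ⟨_, sum_tau_pow 14⟩
  refine ⟨c, fun D E a b hD hDE ha hb hs => ?_⟩
  obtain ⟨B1, hB1, h1⟩ := xBBil_sqz E 1 b (by simpa using hb)
  obtain ⟨B, hB, h2⟩ := xBBil_sqz (E ^ 2) 3 B1 hB1
  obtain ⟨j, hj⟩ : ∃ j : ℕ → ℝ, ∀ d, j d = if Squarefree d ∧ d % 2 = 1 then 1 else 0 :=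
    ⟨_, fun _ => rfl⟩
  obtain ⟨S, hS⟩ : ∃ S : ℕ → ℝ, ∀ d, S d = ∑ e ∈ Icc 1 E, b e * chi d e := ⟨_, fun _ => rfl⟩
  have hD' : (1 : ℝ) ≤ D := by exact_mod_cast hD
  have hDE' : (D : ℝ) ≤ E := by exact_mod_cast hDE
  have e1 : ∑ d ∈ Icc 1 D, ∑ e ∈ Icc 1 E, a d * b e * chi d e =
      ∑ d ∈ Icc 1 D, a d * (j d * S d) := by
    refine sum_congr rfl fun d _ => ?_
    by_cases h : a d = 0
    · simp [h]
    · rw [hj, if_pos (hs d h), one_mul, hS, mul_sum]
      exact sum_congr rfl fun e _ => mul_assoc _ _ _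
  have e2 := sum_mul_sq_le_sq_mul_sq (Icc 1 D) a (fun d => j d * S d)
  have e3 := sq_sum_le_card_mul_sum_sq (s := Icc 1 D) (f := fun d => (j d * S d) ^ 2)
  have e4 : ∑ d ∈ Icc 1 D, ((j d * S d) ^ 2) ^ 2 =
      ∑ n ∈ Icc 1 ((E ^ 2) ^ 2), B n * ∑ d ∈ Icc 1 D, j d * chi d n := by
    simp only [mul_sum]
    rw [sum_comm]
    refine sum_congr rfl fun d _ => ?_
    have h : ((j d * S d) ^ 2) ^ 2 = j d * (S d ^ 2) ^ 2 := by
      rw [hj]; split_ifs <;> simp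
    rw [h, hS, h1, h2, mul_sum]
    exact sum_congr rfl fun n _ => by ring
  have e5 := sum_mul_sq_le_sq_mul_sq (Icc 1 ((E ^ 2) ^ 2)) B
    (fun n => ∑ d ∈ Icc 1 D, j d * chi d n)
  have e6 := bil_sq D ((E ^ 2) ^ 2) j fun d h => by
    by_contra h'
    exact h (by rw [hj, if_neg h'])
  have e7 : ∑ d ∈ Icc 1 D, j d ^ 2 ≤ D := by
    simpa using sum_le_card_nsmul (Icc 1 D) (fun d => j d ^ 2) 1 fun d _ => by
      rw [hj]; split_ifs <;> simp
  have e8 : ∑ d ∈ Icc 1 D, |j d| ≤ D := by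
    simpa using sum_le_card_nsmul (Icc 1 D) (fun d => |j d|) 1 fun d _ => by
      rw [hj]; split_ifs <;> simp
  have e9 : ∑ n ∈ Icc 1 ((E ^ 2) ^ 2), (∑ d ∈ Icc 1 D, j d * chi d n) ^ 2 ≤
      5 * (E : ℝ) ^ 4 * D := by
    have f1 := pow_le_pow_left₀ (sum_nonneg fun d _ => abs_nonneg (j d)) e8 2
    have f2 : (D : ℝ) ^ 3 ≤ (E : ℝ) ^ 4 :=
      (pow_le_pow_left₀ (by positivity) hDE' 3).trans
        (pow_le_pow_right₀ (hD'.trans hDE') (by norm_num))
    have f3 := mul_le_mul_of_nonneg_left e7 (show (0 : ℝ) ≤ (E : ℝ) ^ 4 by positivity)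
    have f4 := mul_le_mul_of_nonneg_left f1 (show (0 : ℝ) ≤ 4 * (D : ℝ) ^ 2 by positivity)
    have f5 := mul_le_mul_of_nonneg_left f2 (show (0 : ℝ) ≤ 4 * (D : ℝ) by positivity)
    push_cast at e6
    nlinarith
  have e10 : ∑ n ∈ Icc 1 ((E ^ 2) ^ 2), B n ^ 2 ≤ (E : ℝ) ^ 4 * (1 + 4 * Real.log E) ^ c := by
    have f1 := hc ((E ^ 2) ^ 2)
    rw [← pow_mul] at f1 ⊢
    push_cast at f1
    rw [Real.log_pow] at f1
    refine (sum_le_sum fun n _ => ?_).trans (f1.trans_eq (by norm_num))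
    rw [← sq_abs, show 14 = (2 * 3 + 1) * 2 by norm_num, pow_mul]
    exact pow_le_pow_left₀ (abs_nonneg _) (hB n) 2
  have e11 : ∑ d ∈ Icc 1 D, a d ^ 2 ≤ D * (1 + Real.log D) ^ 4 := by
    refine (sum_le_sum fun n _ => ?_).trans ((sum_tau_pow 2 D).trans_eq (by norm_num))
    rw [← sq_abs]
    exact pow_le_pow_left₀ (abs_nonneg _) (ha n) 2
  rw [e4, Nat.card_Icc, Nat.add_sub_cancel] at e3
  rw [e1]
  have g1 : 0 ≤ ∑ d ∈ Icc 1 D, a d ^ 2 := sum_nonneg fun _ _ => sq_nonneg _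
  have g2 : 0 ≤ ∑ n ∈ Icc 1 ((E ^ 2) ^ 2), (∑ d ∈ Icc 1 D, j d * chi d n) ^ 2 :=
    sum_nonneg fun _ _ => sq_nonneg _
  have g3 : 0 ≤ ∑ n ∈ Icc 1 ((E ^ 2) ^ 2), B n ^ 2 := sum_nonneg fun _ _ => sq_nonneg _
  have g4 := e5.trans (mul_le_mul e10 e9 g2 (g3.trans e10))
  have g5 := pow_le_pow_left₀ (sq_nonneg _) e3 2
  have g6 := pow_le_pow_left₀ (sq_nonneg _) e2 4
  have g7 := pow_le_pow_left₀ g1 e11 4
  rw [mul_pow] at g5 g6
  have g8 := g5.trans (mul_le_mul_of_nonneg_left g4 (sq_nonneg _))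
  rw [← pow_mul] at g8 g6
  refine g6.trans ((mul_le_mul g7 g8 (by positivity) (by positivity)).trans_eq ?_)
  ring

theorem xBBil_cut (D : ℕ) (f : ℕ → ℝ) :
    ∑ d ∈ Ioc D (2 * D), f d = ∑ d ∈ Icc 1 (2 * D), if D < d then f d else 0 := by
  rw [← sum_filter]
  refine sum_congr ?_ fun _ _ => rfl
  ext d
  simp only [mem_Ioc, mem_filter, mem_Icc]
  omega

theorem bilin_le : ∃ C : ℕ, ∀ (D E : ℕ) (a b : ℕ → ℝ), 1 ≤ D → D ≤ E → (∀ n, |a n| ≤ tau n) →
    (∀ n, |b n| ≤ tau n) → (∀ n, a n ≠ 0 → Squarefree n ∧ n % 2 = 1) →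
    |∑ d ∈ Ioc D (2 * D), ∑ e ∈ Ioc E (2 * E), a d * b e * chi d e| ≤
      D * E * (2 + Real.log (D * E)) ^ C / (D : ℝ) ^ (1 / 8 : ℝ) := by
  obtain ⟨c, hc⟩ := xBBil_core
  refine ⟨34 + 3 * c, fun D E a b hD hDE ha hb hs => ?_⟩
  have h := hc (2 * D) (2 * E) (fun d => if D < d then a d else 0)
    (fun e => if E < e then b e else 0) (by omega) (by omega)
    (fun n => by split_ifs; exacts [ha n, by simpa using tau_nonneg _])
    (fun n => by split_ifs; exacts [hb n, by simpa using tau_nonneg _])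
    (fun n h => hs n fun h' => h (by simp [h']))
  have e : ∑ d ∈ Ioc D (2 * D), ∑ e ∈ Ioc E (2 * E), a d * b e * chi d e =
      ∑ d ∈ Icc 1 (2 * D), ∑ e ∈ Icc 1 (2 * E),
        (if D < d then a d else 0) * (if E < e then b e else 0) * chi d e := by
    rw [xBBil_cut]
    refine sum_congr rfl fun d _ => ?_
    rw [xBBil_cut]
    split_ifs
    · exact sum_congr rfl fun e _ => by split_ifs <;> simp
    · simp
  rw [← e] at h
  have hD' : (1 : ℝ) ≤ D := by exact_mod_cast hD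
  have hE' : (1 : ℝ) ≤ E := by exact_mod_cast hD.trans hDE
  have l1 := Real.log_nonneg hD'
  have l2 := Real.log_nonneg hE'
  have l3 : Real.log 2 ≤ 1 := by linarith [Real.log_two_lt_d9]
  have l4 : 0 ≤ Real.log 2 := Real.log_nonneg (by norm_num)
  push_cast at h
  rw [Real.log_mul (by norm_num) (by positivity), Real.log_mul (by norm_num) (by positivity)] at h
  rw [Real.log_mul (by positivity) (by positivity)]
  obtain ⟨L, hL⟩ : ∃ L, L = 2 + (Real.log D + Real.log E) := ⟨_, rfl⟩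
  rw [← hL]
  have m0 : 2 ≤ L := by linarith
  have m1 : (1 + (Real.log 2 + Real.log D)) ^ 16 ≤ L ^ 16 :=
    pow_le_pow_left₀ (by positivity) (by linarith) _
  have m2 : (1 + 4 * (Real.log 2 + Real.log E)) ^ c ≤ L ^ (3 * c) := by
    rw [pow_mul]
    refine pow_le_pow_left₀ (by positivity) ?_ _
    have : 4 * L ≤ L ^ 3 := by nlinarith [mul_le_mul m0 m0 (by norm_num) (by linarith)]
    linarith
  have m3 : (5 * 2 ^ 15 : ℝ) ≤ L ^ 18 :=
    le_trans (by norm_num) (pow_le_pow_left₀ (by norm_num) m0 18)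
  have m4 : L ^ (34 + 3 * c) ≤ (L ^ (34 + 3 * c)) ^ 8 :=
    le_self_pow₀ (one_le_pow₀ (by linarith)) (by norm_num)
  refine le_of_pow_le_pow_left₀ (n := 8) (by norm_num) (by positivity) ?_
  rw [Even.pow_abs (by norm_num), div_pow, ← Real.rpow_natCast ((D : ℝ) ^ (1 / 8 : ℝ)),
    ← Real.rpow_mul (by positivity), show (1 / 8 : ℝ) * ((8 : ℕ) : ℝ) = 1 by norm_num,
    Real.rpow_one, le_div_iff₀ (by positivity)]
  calc _ ≤ 5 * (2 * (D : ℝ)) ^ 7 * (2 * (E : ℝ)) ^ 8 * L ^ 16 * L ^ (3 * c) * D := by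
        refine mul_le_mul_of_nonneg_right (h.trans ?_) (by positivity)
        exact mul_le_mul (mul_le_mul_of_nonneg_left m1 (by positivity)) m2 (by positivity)
          (by positivity)
    _ = (5 * 2 ^ 15) * (((D : ℝ) * E) ^ 8 * L ^ 16 * L ^ (3 * c)) := by ring
    _ ≤ L ^ 18 * (((D : ℝ) * E) ^ 8 * L ^ 16 * L ^ (3 * c)) :=
        mul_le_mul_of_nonneg_right m3 (by positivity)
    _ = ((D : ℝ) * E) ^ 8 * L ^ (34 + 3 * c) := by ring
    _ ≤ _ := by
        rw [mul_pow (_ * _)]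
        exact mul_le_mul_of_nonneg_left m4 (by positivity)

theorem bilin : ∃ C : ℕ, ∀ (D E : ℕ) (a b : ℕ → ℝ), 1 ≤ D → 1 ≤ E → (∀ n, |a n| ≤ tau n) →
    (∀ n, |b n| ≤ tau n) → (∀ n, a n ≠ 0 → Squarefree n ∧ n % 2 = 1) →
    (∀ n, b n ≠ 0 → Squarefree n ∧ n % 2 = 1) →
    |∑ d ∈ Ioc D (2 * D), ∑ e ∈ Ioc E (2 * E), a d * b e * (jacobiSym (d : ℤ) e : ℝ)| ≤
      D * E * (2 + Real.log (D * E)) ^ C / (min (D : ℝ) E) ^ (1 / 8 : ℝ) := by
  obtain ⟨C, hC⟩ := bilin_le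
  refine ⟨C + 1, fun D E a b hD hE ha hb hsa hsb => ?_⟩
  have hD' : (1 : ℝ) ≤ D := by exact_mod_cast hD
  have hE' : (1 : ℝ) ≤ E := by exact_mod_cast hE
  have m0 : 2 ≤ 2 + Real.log (D * E) := by
    linarith [Real.log_nonneg (one_le_mul_of_one_le_of_one_le hD' hE')]
  have m1 : ∀ x y : ℝ, 0 < x → y ≤ 2 * (D * E * (2 + Real.log (D * E)) ^ C / x) →
      y ≤ D * E * (2 + Real.log (D * E)) ^ (C + 1) / x := by
    intro x y hx h
    refine h.trans ((mul_le_mul_of_nonneg_right m0 (by positivity)).trans_eq ?_)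
    ring
  rcases le_total D E with h | h
  · rw [min_eq_left (by exact_mod_cast h)]
    have h1 := hC D E a b hD h ha hb hsa
    have e : ∑ d ∈ Ioc D (2 * D), ∑ e ∈ Ioc E (2 * E), a d * b e * (jacobiSym (d : ℤ) e : ℝ) =
        ∑ d ∈ Ioc D (2 * D), ∑ e ∈ Ioc E (2 * E), a d * b e * chi d e := by
      refine sum_congr rfl fun d _ => sum_congr rfl fun e _ => ?_
      by_cases hb0 : b e = 0
      · simp [hb0]
      · rw [chi, if_pos (hsb e hb0).2]
    rw [e]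
    exact m1 _ _ (by positivity) (by linarith [(abs_nonneg _).trans h1])
  · rw [min_eq_right (by exact_mod_cast h)]
    have t : ∀ f : ℕ → ℝ, (∀ n, |f n| ≤ tau n) → ∀ n, |f n * chi (-1) n| ≤ tau n := by
      intro f hf n
      rw [abs_mul]
      exact (mul_le_of_le_one_right (abs_nonneg _) (abs_chi_le _ _)).trans (hf n)
    have hs' : ∀ n, b n * chi (-1) n ≠ 0 → Squarefree n ∧ n % 2 = 1 :=
      fun n h => hsb n (left_ne_zero_of_mul h)
    have h1 := hC E D b a hE h hb ha hsb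
    have h2 := hC E D b _ hE h hb (t a ha) hsb
    have h3 := hC E D _ a hE h (t b hb) ha hs'
    have h4 := hC E D _ _ hE h (t b hb) (t a ha) hs'
    rw [mul_comm (E : ℝ) D] at h1 h2 h3 h4
    have e : ∑ d ∈ Ioc D (2 * D), ∑ e ∈ Ioc E (2 * E), a d * b e * (jacobiSym (d : ℤ) e : ℝ) =
        ((∑ e ∈ Ioc E (2 * E), ∑ d ∈ Ioc D (2 * D), b e * a d * chi e d) +
        (∑ e ∈ Ioc E (2 * E), ∑ d ∈ Ioc D (2 * D), b e * (a d * chi (-1) d) * chi e d) +
        (∑ e ∈ Ioc E (2 * E), ∑ d ∈ Ioc D (2 * D), b e * chi (-1) e * a d * chi e d) -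
        (∑ e ∈ Ioc E (2 * E), ∑ d ∈ Ioc D (2 * D),
          b e * chi (-1) e * (a d * chi (-1) d) * chi e d)) / 2 := by
      rw [sum_comm]
      simp only [← sum_add_distrib, ← sum_sub_distrib, sum_div]
      refine sum_congr rfl fun e _ => sum_congr rfl fun d _ => ?_
      by_cases hb0 : b e = 0
      · simp [hb0]
      by_cases ha0 : a d = 0
      · simp [ha0]
      rw [jac_swap (hsa d ha0).2 (hsb e hb0).2, chi.eq_1 e d, if_pos (hsa d ha0).2]
      ring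
    rw [e]
    refine m1 _ _ (by positivity) ?_
    rw [abs_le] at h1 h2 h3 h4 ⊢
    constructor <;> linarith [h1.1, h1.2, h2.1, h2.2, h3.1, h3.2, h4.1, h4.2]

end Pool.Agent.MP_e23604_nt.P

end
end

section

/-!
Size of the sieve model.
-/

open Finset
open scoped Classical

noncomputable section

namespace Pool.Agent.MP_e23604_nt.P

theorem xCW_mem {W q : ℕ} : q ∈ PW W ↔ q ≤ W ∧ q.Prime := by
  rw [PW, mem_filter, mem_range, Nat.lt_succ_iff]

theorem xCW_fac {q : ℕ} (hq : q.Prime) :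
    0 < 1 / (q : ℝ) ∧ 1 + 1 / (q : ℝ) ≤ (1 - 1 / (q : ℝ))⁻¹ ∧
      (1 - 1 / (q : ℝ))⁻¹ ≤ (1 + 1 / (q : ℝ)) ^ 2 := by
  have h2 : (2 : ℝ) ≤ q := by exact_mod_cast hq.two_le
  have h0 : 0 < 1 / (q : ℝ) := by positivity
  have h1 : 1 / (q : ℝ) ≤ 1 / 2 := one_div_le_one_div_of_le two_pos h2
  generalize 1 / (q : ℝ) = x at h0 h1
  have h3 : 0 < 1 - x := by linarith
  refine ⟨h0, ?_, ?_⟩
  · rw [inv_eq_one_div, le_div_iff₀ h3]
    nlinarith
  · rw [inv_eq_one_div, div_le_iff₀ h3]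
    have h4 : 0 ≤ x * (1 - x - x ^ 2) := mul_nonneg h0.le (by nlinarith)
    nlinarith

theorem xCW_one {W q : ℕ} (hq : q ∈ PW W) : 1 ≤ (1 - 1 / (q : ℝ))⁻¹ := by
  obtain ⟨h1, h2, -⟩ := xCW_fac (xCW_mem.1 hq).2
  linarith

theorem one_le_cW (W : ℕ) : 1 ≤ cW W := one_le_prod fun _ hq => xCW_one hq

theorem prod_le_cW {W : ℕ} {I : Finset ℕ} (hI : I ⊆ PW W) (c : ℕ) :
    ∏ l ∈ I, (1 + (c : ℝ) / l) ≤ cW W ^ c := by
  rw [cW, ← prod_pow]
  refine le_trans (prod_le_prod (fun l _ => by positivity) fun l hl => ?_)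
    (prod_le_prod_of_subset_of_one_le hI
      (fun l hl => zero_le_one.trans (one_le_pow₀ (xCW_one (hI hl))))
      fun l hl _ => one_le_pow₀ (xCW_one hl))
  obtain ⟨h1, h2, -⟩ := xCW_fac (xCW_mem.1 (hI hl)).2
  rw [← mul_one_div]
  exact (one_add_mul_le_pow (by linarith) c).trans (pow_le_pow_left₀ (by linarith) h2 c)

theorem card_PW (W : ℕ) : (PW W).card ≤ W := by
  refine (card_le_card (t := Ioc 0 W) fun q hq => ?_).trans (by simp)
  exact mem_Ioc.2 ⟨(xCW_mem.1 hq).2.pos, (xCW_mem.1 hq).1⟩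

theorem xCW_sq {W : ℕ} (hW : 2 ≤ W) : cW W ≤ (15 * Real.log W) ^ 2 := by
  have h := MP_fdd1d3_nt.mertens_b W hW
  have h1 : MP_fdd1d3_nt.PP 0 W = PW W := Finset.ext fun q => by
    rw [MP_fdd1d3_nt.mem_PP, xCW_mem]
    exact ⟨fun h => ⟨h.1.2, h.2⟩, fun h => ⟨⟨h.2.pos, h.1⟩, h.2⟩⟩
  have h2 : ∏ q ∈ PW W, (1 + 1 / (q : ℝ)) =
      ∑ s ∈ (PW W).powerset, 1 / MP_fdd1d3_nt.nn (fun p => p) s := by
    rw [prod_one_add]
    refine sum_congr rfl fun s _ => ?_
    simp [MP_fdd1d3_nt.nn]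
  rw [h1, ← h2] at h
  refine le_trans ?_ (pow_le_pow_left₀ (prod_nonneg fun q _ => by positivity) h 2)
  rw [cW, ← prod_pow]
  exact prod_le_prod (fun q hq => zero_le_one.trans (xCW_one hq))
    fun q hq => (xCW_fac (xCW_mem.1 hq).2).2.2

theorem xCW_ev (C : ℝ) (n : ℕ) : ∀ᶠ x : ℝ in Filter.atTop, C * Real.log x ^ n ≤ x := by
  filter_upwards [((Real.isLittleO_pow_log_id_atTop (n := n)).const_mul_left C).eventuallyLE,
    Filter.eventually_ge_atTop 0] with x hx h0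
  rw [id, Real.norm_of_nonneg h0] at hx
  exact (le_abs_self _).trans hx

theorem xCW_td : Filter.Tendsto (fun X : ℕ => Real.log X) Filter.atTop Filter.atTop :=
  Real.tendsto_log_atTop.comp tendsto_natCast_atTop_atTop

theorem WW_bounds (B : ℕ) {X : ℕ} (hX : 3 ≤ X) :
    Real.log X ^ B ≤ WW B X ∧ (WW B X : ℝ) ≤ 2 * Real.log X ^ B := by
  have h3 : (3 : ℝ) ≤ X := by exact_mod_cast hX
  have h1 : 1 ≤ Real.log X := by
    rw [Real.le_log_iff_exp_le (by linarith)]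
    linarith [Real.exp_one_lt_d9]
  have h2 : 1 ≤ Real.log X ^ B := one_le_pow₀ h1
  have h4 := Nat.ceil_lt_add_one (zero_le_one.trans h2)
  exact ⟨Nat.le_ceil _, by unfold WW; linarith⟩

theorem xCW_W (B : ℕ) {X : ℕ} (hX : 3 ≤ X) (hL : 3 ≤ Real.log X) :
    (WW B X : ℝ) + 1 ≤ Real.log X ^ (B + 1) := by
  have h1 := (WW_bounds B hX).2
  have h2 : 1 ≤ Real.log X ^ B := one_le_pow₀ (by linarith)
  rw [pow_succ]
  nlinarith

theorem cW_le (B : ℕ) : ∃ X1 : ℕ, ∀ X ≥ X1, cW (WW B X) ≤ Real.log X := by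
  refine Filter.eventually_atTop.1 ?_
  filter_upwards [xCW_td.eventually (xCW_ev ((15 * (B + 1 : ℕ)) ^ 2) 2),
    xCW_td.eventually_ge_atTop 3, Filter.eventually_ge_atTop 3] with X h1 h2 h3
  by_cases hW : 2 ≤ WW B X
  · have h4 : (2 : ℝ) ≤ WW B X := by exact_mod_cast hW
    have h5 : Real.log (WW B X) ≤ (B + 1 : ℕ) * Real.log (Real.log X) := by
      rw [← Real.log_pow]
      exact Real.log_le_log (by linarith) (by linarith [xCW_W B h3 h2])
    refine (xCW_sq hW).trans (le_trans ?_ h1)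
    rw [← mul_pow, mul_assoc]
    exact pow_le_pow_left₀ (mul_nonneg (by norm_num) (Real.log_natCast_nonneg _)) (by linarith) 2
  · rw [cW, prod_eq_one fun q hq => absurd ((xCW_mem.1 hq).2.two_le.trans (xCW_mem.1 hq).1) hW]
    linarith

theorem lam_nonneg (n : ℤ) : 0 ≤ lam n := by
  unfold lam
  split_ifs
  · exact Real.log_intCast_nonneg n
  · exact le_rfl

theorem shp_nonneg (W : ℕ) (n : ℤ) : 0 ≤ shp W n := by
  unfold shp
  split_ifs
  · exact zero_le_one.trans (one_le_cW W)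
  · exact le_rfl

theorem wt_all (B : ℕ) : ∃ X1 : ℕ, ∀ X ≥ X1,
    Wt (WW B X) X lam ∧ Wt (WW B X) X (shp (WW B X)) ∧ Wt (WW B X) X (gg (WW B X)) := by
  obtain ⟨X1, h⟩ := cW_le B
  refine ⟨X1, fun X hX => ?_⟩
  have hc := h X hX
  have hL := Real.log_natCast_nonneg X
  generalize WW B X = W at hc
  have h1 : ∀ u : ℤ, u ≤ (X : ℤ) ^ 3 → lam u ≤ 3 * Real.log X := fun u hu => by
    unfold lam
    split_ifs with hp
    · have h0 : 0 < u := Int.lt_toNat.1 hp.pos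
      have h2 := Real.log_pow (X : ℝ) 3
      rw [Nat.cast_ofNat] at h2
      rw [← h2]
      exact Real.log_le_log (by exact_mod_cast h0) (by exact_mod_cast hu)
    · linarith
  have h2 : ∀ u : ℤ, shp W u ≤ 3 * Real.log X := fun u => by
    unfold shp
    split_ifs <;> linarith
  have h3 : ∀ u : ℤ, lam u ≠ 0 → (W : ℤ) < u → Rough (PW W) u := fun u hu hW q hq hd => by
    have hp : u.toNat.Prime := by_contra fun hp => hu (if_neg hp)
    have h0 : (u.toNat : ℤ) = u := Int.toNat_of_nonneg (by omega)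
    rw [← h0, Int.natCast_dvd_natCast, Nat.prime_dvd_prime_iff_eq (xCW_mem.1 hq).2 hp] at hd
    have := (xCW_mem.1 hq).1
    omega
  have h4 : ∀ u : ℤ, shp W u ≠ 0 → Rough (PW W) u := fun u hu =>
    by_contra fun hp => hu (if_neg hp)
  refine ⟨⟨fun u _ hu => ?_, h3⟩, ⟨fun u _ _ => ?_, fun u hu _ => h4 u hu⟩,
    fun u _ hu => ?_, fun u hu hW => ?_⟩
  · rw [abs_of_nonneg (lam_nonneg u)]
    exact h1 u hu
  · rw [abs_of_nonneg (shp_nonneg W u)]
    exact h2 u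
  · rw [gg, abs_le]
    constructor <;> linarith [lam_nonneg u, shp_nonneg W u, h1 u hu, h2 u]
  · by_cases h5 : lam u = 0
    · exact h4 u fun h6 => hu (by rw [gg, h5, h6, sub_zero])
    · exact h3 u h5 hW

/-- The truncation level. -/
theorem exists_level (B c j : ℕ) : ∃ X1 : ℕ, ∀ X ≥ X1, ∃ k : ℕ,
    Real.log X ^ c ≤ 2 ^ k ∧ ((WW B X + 1) ^ (k + 1)) ^ j ≤ X := by
  refine Filter.eventually_atTop.1 ?_
  filter_upwards [xCW_td.eventually (xCW_ev ((B + 1) * j * (2 * c + 2)) 2),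
    xCW_td.eventually_ge_atTop 3, Filter.eventually_ge_atTop 3] with X h1 h2 h3
  have h4 := xCW_W B h3 h2
  have hX : (0 : ℝ) < X := by exact_mod_cast (by omega : 0 < X)
  have h5 : 1 ≤ Real.log (Real.log X) := by
    rw [Real.le_log_iff_exp_le (by linarith)]
    linarith [Real.exp_one_lt_d9]
  have h6 := Real.exp_log (show 0 < Real.log X by linarith)
  generalize Real.log (Real.log X) = y at h1 h5 h6
  have h0 : (0 : ℝ) ≤ c := Nat.cast_nonneg c
  have h7 := Nat.le_ceil (2 * c * y)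
  have h8 := Nat.ceil_lt_add_one (show 0 ≤ 2 * c * y by positivity)
  refine ⟨⌈2 * c * y⌉₊, ?_, ?_⟩
  · rw [← h6, ← Real.exp_nat_mul, ← Real.exp_log two_pos, ← Real.exp_nat_mul, Real.exp_log two_pos]
    refine Real.exp_le_exp.2 ?_
    have h9 := Real.log_two_gt_d9
    nlinarith [mul_nonneg h0 (zero_le_one.trans h5)]
  · generalize ⌈2 * c * y⌉₊ = k at h8
    have h9 : ((((WW B X + 1) ^ (k + 1)) ^ j : ℕ) : ℝ) ≤ X := by
      push_cast
      refine (pow_le_pow_left₀ (by positivity) (pow_le_pow_left₀ (by positivity) h4 _) _).trans ?_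
      rw [← pow_mul, ← pow_mul, ← h6, ← Real.exp_nat_mul, ← Real.le_log_iff_exp_le hX]
      refine le_trans ?_ h1
      push_cast
      have h10 : (k : ℝ) + 1 ≤ (2 * c + 2) * y := by linarith
      have h11 : (0 : ℝ) ≤ (B + 1) * j * y := by positivity
      nlinarith [mul_le_mul_of_nonneg_left h10 h11]
    exact_mod_cast h9

/-- Powers of the logarithm are small. -/
theorem log_pow_le (c j : ℕ) (C : ℝ) : ∃ X1 : ℕ, ∀ X ≥ X1,
    C ≤ Real.log X ∧ (C * Real.log X ^ c) ^ j ≤ X := by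
  refine Filter.eventually_atTop.1 ?_
  filter_upwards [tendsto_natCast_atTop_atTop.eventually (xCW_ev (C ^ j) (c * j)),
    xCW_td.eventually_ge_atTop C] with X h1 h2
  exact ⟨h2, by rwa [mul_pow, ← pow_mul]⟩

end Pool.Agent.MP_e23604_nt.P

end
end

section

/-!
The weight of the pairs whose modulus is divisible by a given integer.
-/

open Finset
open scoped Classical

noncomputable section

namespace Pool.Agent.MP_e23604_nt.P

theorem xWeight_gcd {ι : Type} (d : ℕ) (s : Finset ι) (a : ι → ℕ) :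
    Nat.gcd d (∏ i ∈ s, a i) ∣ ∏ i ∈ s, Nat.gcd d (a i) := by
  induction s using Finset.induction_on with
  | empty => simp
  | insert i s hi ih =>
    rw [prod_insert hi, prod_insert hi]
    exact (gcd_mul_dvd_mul_gcd d _ _).trans (Nat.mul_dvd_mul_left _ ih)

theorem xWeight_tau_prod {ι : Type} (s : Finset ι) (a : ι → ℤ) :
    tau (∏ i ∈ s, a i) ≤ ∏ i ∈ s, tau (a i) := by
  induction s using Finset.induction_on with
  | empty => simp [tau]
  | insert i s hi ih =>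
    rw [prod_insert hi, prod_insert hi]
    exact (tau_mul_le _ _).trans (mul_le_mul_of_nonneg_left ih (tau_nonneg _))

theorem xWeight_div (c g : ℕ) (hg : 0 < g) {R : ℝ} (hR : 1 ≤ R) :
    ∑ n ∈ (Icc 1 ⌊R⌋₊).filter fun n => g ∣ n, tau n ^ c / n ≤
      tau g ^ c / g * (1 + Real.log R) ^ 2 ^ c := by
  have hsub : ((Icc 1 ⌊R⌋₊).filter fun n => g ∣ n) ⊆ (Icc 1 ⌊R⌋₊).image fun n => g * n := by
    intro n hn
    obtain ⟨h1, k, rfl⟩ := mem_filter.1 hn
    rw [mem_Icc] at h1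
    refine mem_image.2 ⟨k, mem_Icc.2 ⟨?_, (Nat.le_mul_of_pos_left k hg).trans h1.2⟩, rfl⟩
    exact Nat.pos_of_mul_pos_left h1.1
  have hN : (1 : ℝ) ≤ ⌊R⌋₊ := by exact_mod_cast Nat.floor_pos.2 hR
  calc _ ≤ ∑ n ∈ (Icc 1 ⌊R⌋₊).image fun n => g * n, tau (n : ℕ) ^ c / (n : ℕ) :=
        sum_le_sum_of_subset_of_nonneg hsub fun n _ _ =>
          div_nonneg (pow_nonneg (tau_nonneg _) _) (Nat.cast_nonneg _)
    _ = ∑ n ∈ Icc 1 ⌊R⌋₊, tau (g * n : ℕ) ^ c / (g * n : ℕ) :=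
        sum_image fun x _ y _ e => Nat.eq_of_mul_eq_mul_left hg e
    _ ≤ ∑ n ∈ Icc 1 ⌊R⌋₊, tau g ^ c / g * (tau n ^ c / n) := by
        refine sum_le_sum fun n _ => ?_
        rw [div_mul_div_comm, ← mul_pow, Nat.cast_mul, Nat.cast_mul]
        exact div_le_div_of_nonneg_right (pow_le_pow_left₀ (tau_nonneg _) (tau_mul_le _ _) c)
          (by positivity)
    _ ≤ _ := by
        rw [← mul_sum]
        refine mul_le_mul_of_nonneg_left ((sum_tau_pow_div c _).trans ?_)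
          (div_nonneg (pow_nonneg (tau_nonneg _) _) (Nat.cast_nonneg _))
        have h1 := Real.log_nonneg hN
        have h2 : Real.log ⌊R⌋₊ ≤ Real.log R :=
          Real.log_le_log (by linarith) (Nat.floor_le (by linarith))
        exact pow_le_pow_left₀ (by linarith) (by linarith) _

end Pool.Agent.MP_e23604_nt.P

end
end
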