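import Pool.Agent.Mg.Fe23604m.Ge5ee40

set_option linter.all false

section

/-!
The steps of part D (density of the good classes, and the count).
-/

open Finset
open scoped Classical

noncomputable section

namespace Pool.Agent.MP_e23604_nt.U

open P (sy ep lam)

/-! Part D1. -/

/-- The additive quadratic character of a field. -/
def chi {F : Type} [Field F] (a : F) : ZMod 2 := if IsSquare a then 0 else 1

/-- The sites over a field, the third one multiplied by four. -/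
def siteF {F : Type} [Field F] (w : Fin 10 → F) : Fin 12 → F :=
  ![w 0, w 1, w 2 * w 4 * w 6 ^ 2 - w 5 * w 3 * w 7 ^ 2,
    w 2 * w 5 * w 8 ^ 2 - w 4 * w 3 * w 9 ^ 2,
    w 4, w 5, w 0 * w 2 * w 6 ^ 2 - 4 * w 3 * w 1 * w 9 ^ 2,
    4 * w 2 * w 1 * w 8 ^ 2 - w 0 * w 3 * w 7 ^ 2,
    w 2, w 3, w 0 * w 4 * w 6 ^ 2 - 4 * w 5 * w 1 * w 8 ^ 2,
    4 * w 4 * w 1 * w 9 ^ 2 - w 0 * w 5 * w 7 ^ 2]

/-- The local condition over a field. -/
def LocF {F : Type} [Field F] (w : Fin 10 → F) (σ : Fin 12) : Prop :=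
  siteF w σ = 0 ∧ (∀ τ, τ ≠ σ → siteF w τ ≠ 0) ∧ ∀ j : Fin 10, 6 ≤ j.val → w j ≠ 0

/-- The cross entries over a field. -/
def crF {F : Type} [Field F] (w : Fin 10 → F) (σ τ : Fin 12) : ZMod 2 :=
  chi ((if cls σ < cls τ then (sg τ : F) else 1) * siteF w τ)

/-- The border in terms of the cross entries. -/
def bordOf (c : F12) (σ : Fin 12) (e : ZMod 2) : F12 := fun τ =>
  if cls τ ≠ cls σ then c τ
  else if cls σ = 1 then
    (if τ = σ then ∑ ρ ∈ univ.filter (fun ρ => cls ρ = 0), c ρ + e * ((if σ = 7 then 1 else 0) + 1)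
      else if τ = 7 then e else 0)
  else if τ = σ then ∑ ρ ∈ univ.filter (fun ρ => cls ρ = 1), c ρ else 0

theorem bord_eq (v : V10) (σ : Fin 12) (l : ℕ) : bord v σ l = bordOf (cr v σ l) σ (ep l) := rfl

/-- Functions that depend only on the class modulo `K`. -/
def Per10 (K : ℕ) (f : V10 → ℝ) : Prop := ∀ v v' : V10, (∀ i, (K : ℤ) ∣ v i - v' i) → f v = f v'

/-- Averages: passage to `ZMod`, and the Chinese remainder theorem. -/
def DAvg : Prop :=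
  (∀ (l : ℕ) [NeZero l] (f : (Fin 10 → ZMod l) → ℝ),
    avg10 l (fun v => f fun i => (v i : ZMod l)) = (∑ w, f w) / (l : ℝ) ^ 10) ∧
  ∀ (I : Finset ℕ) (K : ℕ → ℕ) (f : ℕ → V10 → ℝ), (∀ i ∈ I, 1 ≤ K i ∧ Per10 (K i) (f i)) →
    (∀ i ∈ I, ∀ j ∈ I, i ≠ j → Nat.Coprime (K i) (K j)) →
    avg10 (∏ i ∈ I, K i) (fun v => ∏ i ∈ I, f i v) = ∏ i ∈ I, avg10 (K i) (f i)

/-- Reduction modulo an odd prime, and the prime three. -/
def DRed : Prop :=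
  (∀ (l : ℕ) [Fact l.Prime], l ≠ 2 → ep l = chi (-1 : ZMod l) ∧
    ∀ v : V10, (∀ i, v i % 240 = v0 i) → ∀ σ,
      (LocC v σ l ↔ LocF (fun i => (v i : ZMod l)) σ) ∧
      ∀ τ, cr v σ l τ = crF (fun i => (v i : ZMod l)) σ τ) ∧
  ∀ v : V10, (∀ i, v i % 240 = v0 i) → LocC v 0 3 ∧ bord v 0 3 = c3

/-- The border is determined by its pivot bits. -/
def DTab (σ : Fin 12) : Prop :=
  ∀ (l : ℕ) [Fact l.Prime], l ≠ 2 → ∀ w : Fin 10 → ZMod l, LocF w σ → ∀ τ,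
    bordOf (crF w σ) σ (chi (-1 : ZMod l)) τ =
      ∑ i, crF w σ (piv σ i) * gen σ i τ + chi (-1 : ZMod l) * zet σ τ

/-- The pivot bits are equidistributed. -/
def DLoc (σ : Fin 12) : Prop :=
  ∀ (l : ℕ) [Fact l.Prime], 10000 < l → ∀ g : Fin 5 → ZMod 2,
    (1 - 100 / (l : ℝ)) * (l : ℝ) ^ 9 / 32 ≤
      ((univ.filter fun w : Fin 10 → ZMod l =>
        LocF w σ ∧ ∀ i, crF w σ (piv σ i) = g i).card : ℝ)

/-! Part D2. -/

/-- The sizes of the sites. -/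
def Sep (Z : ℕ) (v : V10) : Prop :=
  (∀ σ, (Z : ℤ) ^ 2 < site v σ) ∧
    ∀ σ τ, σ ≠ τ → (Z : ℤ) * site v σ < site v τ ∨ (Z : ℤ) * site v τ < site v σ

/-- Sizes in a box. -/
def DSz : Prop := ∀ (X : Fin 10 → ℕ) (Z : ℕ), Reg X Z → ∀ v ∈ Box X,
  (∀ i, 0 < v i) ∧ Sep Z v ∧ (∀ σ, site v σ ≤ (X 0 : ℤ) ^ 20) ∧
    ∀ i, |zz v i| ≤ 32 * ((X 0 : ℤ) * X 2 * X 4 * X 6 ^ 2)

/-- The product of the sites is squarefree and determines the small parts. -/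
def DSq : Prop := ∀ (Z : ℕ) (v : V10) (s : S12), Sep Z v → s ∈ SSet Z → Cond s v →
  (∀ σ, (qq s v σ).toNat.Prime) → Squarefree (∏ σ, site v σ) ∧ (∀ σ, qq s v σ ≤ site v σ) ∧
    ∀ s' ∈ SSet Z, Cond s' v → (∀ σ, (qq s' v σ).toNat.Prime) → s' = s

/-- Good points. -/
def GV (v : V10) : Prop :=
  (∀ i, 0 < v i) ∧ (∀ i, v i % 240 = v0 i) ∧ Squarefree (∏ σ, site v σ) ∧ R2 (zz v)

/-- A good point is determined by its four integers. -/
def DInj : Prop := ∀ v v' : V10, GV v → GV v' → zz v = zz v' → v = v'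

/-- Many disjoint boxes. -/
def DBox : Prop := ∃ c : ℝ, 0 < c ∧ ∀ X0 : ℕ, ∃ B₀ : ℕ, ∀ B : ℕ, B₀ ≤ B →
  ∃ (T : Finset (Fin 10 → ℕ)) (Z : ℕ), c * Real.log B ^ 6 ≤ T.card ∧
    (∀ X ∈ T, Reg X Z ∧ X0 ≤ X 0 ∧ 32 * (X 0 * X 2 * X 4 * X 6 ^ 2) ≤ B ∧
      c * (B : ℝ) ^ 2 ≤ Vol X) ∧
    ∀ X ∈ T, ∀ X' ∈ T, X ≠ X' → Disjoint (Box X) (Box X')

/-- Four positive integers with square product. -/
def DPar : Prop := ∀ a : Fin 4 → ℕ, (∀ i, 0 < a i) → IsSquare (∏ i, a i) →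
  ∃ (g : ℕ) (v : Fin 10 → ℕ), 0 < g ∧ (∀ i, 0 < v i) ∧ a 0 = g * (v 0 * v 2 * v 4) * v 6 ^ 2 ∧
    a 1 = g * (v 0 * v 5 * v 3) * v 7 ^ 2 ∧ a 2 = g * (v 2 * v 5 * v 1) * v 8 ^ 2 ∧
    a 3 = g * (v 4 * v 3 * v 1) * v 9 ^ 2

/-- The size of the family. -/
def DCnt : Prop := ∃ C : ℝ, 0 < C ∧ ∀ B : ℕ, 3 ≤ B →
  (Set.ncard {z : Fin 4 → ℤ | (∀ i, |z i| ≤ B) ∧ ∏ i, z i ≠ 0 ∧ IsSquare (∏ i, z i)} : ℝ) ≤
    C * ((B : ℝ) ^ 2 * Real.log B ^ 6)

end Pool.Agent.MP_e23604_nt.U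

end
end

section

open Finset
open scoped Classical

namespace Pool.Agent.MP_e23604_nt.U

open P (sy ep lam)

namespace DRedJ

theorem sy_eq (l : ℕ) [Fact l.Prime] (u : ℤ) : sy u l = chi (u : ZMod l) := by
  rw [sy, chi, ← jacobiSym.legendreSym.to_jacobiSym]
  by_cases h : IsSquare (u : ZMod l)
  · rw [if_pos h, if_neg fun h' => (legendreSym.eq_neg_one_iff l).1 h' h]
  · rw [if_neg h, if_pos ((legendreSym.eq_neg_one_iff l).2 h)]

theorem ep_eq (l : ℕ) [Fact l.Prime] : ep l = chi (-1 : ZMod l) := by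
  rw [ep, chi]
  by_cases h : l % 4 = 3
  · rw [if_pos h, if_neg fun h' => ZMod.exists_sq_eq_neg_one_iff.1 h' h]
  · rw [if_neg h, if_pos (ZMod.exists_sq_eq_neg_one_iff.2 h)]

theorem chi_sq {F : Type} [Field F] {c : F} (hc : c ≠ 0) (a : F) : chi (c * c * a) = chi a := by
  have : IsSquare (c * c * a) ↔ IsSquare a := by
    constructor
    · rintro ⟨r, hr⟩
      refine ⟨r / c, ?_⟩
      field_simp
      linear_combination hr
    · rintro ⟨r, rfl⟩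
      exact ⟨c * r, by ring⟩
  simp only [chi, this]

theorem four_site (v : V10) (h : ∀ i, v i % 240 = v0 i) :
    4 * site v 2 = v 2 * v 4 * v 6 ^ 2 - v 5 * v 3 * v 7 ^ 2 := by
  have h2 : v 2 % 240 = 181 := h 2
  have h3 : v 3 % 240 = 1 := h 3
  have h4 : v 4 % 240 = 1 := h 4
  have h5 : v 5 % 240 = 17 := h 5
  have h6 : v 6 % 240 = 1 := h 6
  have h7 : v 7 % 240 = 1 := h 7
  have k2 : v 2 ≡ 1 [ZMOD 4] := by unfold Int.ModEq; omega
  have k3 : v 3 ≡ 1 [ZMOD 4] := by unfold Int.ModEq; omega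
  have k4 : v 4 ≡ 1 [ZMOD 4] := by unfold Int.ModEq; omega
  have k5 : v 5 ≡ 1 [ZMOD 4] := by unfold Int.ModEq; omega
  have k6 : v 6 ≡ 1 [ZMOD 4] := by unfold Int.ModEq; omega
  have k7 : v 7 ≡ 1 [ZMOD 4] := by unfold Int.ModEq; omega
  have k := ((k2.mul k4).mul (k6.pow 2)).sub ((k5.mul k3).mul (k7.pow 2))
  have hd : (4 : ℤ) ∣ v 2 * v 4 * v 6 ^ 2 - v 5 * v 3 * v 7 ^ 2 :=
    Int.modEq_zero_iff_dvd.1 (by simpa using k)
  exact Int.mul_ediv_cancel' hd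

theorem site_eq (l : ℕ) [Fact l.Prime] (hl : l ≠ 2) (v : V10) (h : ∀ i, v i % 240 = v0 i)
    (t : Fin 12) : ∃ c : ZMod l, c ≠ 0 ∧
      siteF (fun i => (v i : ZMod l)) t = c * c * (site v t : ZMod l) := by
  by_cases ht : t = 2
  · subst ht
    have h2 : (2 : ZMod l) ≠ 0 := by
      intro h2
      have h3 : ((2 : ℕ) : ZMod l) = 0 := by exact_mod_cast h2
      rw [ZMod.natCast_eq_zero_iff] at h3
      exact hl ((Nat.prime_dvd_prime_iff_eq Fact.out Nat.prime_two).1 h3)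
    refine ⟨2, h2, ?_⟩
    have := congrArg (Int.cast : ℤ → ZMod l) (four_site v h)
    push_cast at this
    show (v 2 : ZMod l) * v 4 * v 6 ^ 2 - v 5 * v 3 * v 7 ^ 2 = _
    linear_combination -this
  · refine ⟨1, one_ne_zero, ?_⟩
    rw [one_mul, one_mul]
    fin_cases t
    all_goals first
      | exact absurd rfl ht
      | simp [site, siteF]

theorem red (l : ℕ) [Fact l.Prime] (hl : l ≠ 2) (v : V10) (h : ∀ i, v i % 240 = v0 i)
    (σ : Fin 12) : (LocC v σ l ↔ LocF (fun i => (v i : ZMod l)) σ) ∧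
      ∀ τ, cr v σ l τ = crF (fun i => (v i : ZMod l)) σ τ := by
  have z : ∀ t, siteF (fun i => (v i : ZMod l)) t = 0 ↔ (l : ℤ) ∣ site v t := fun t => by
    obtain ⟨c, hc, e⟩ := site_eq l hl v h t
    rw [e, ← ZMod.intCast_zmod_eq_zero_iff_dvd]
    simp [hc]
  refine ⟨?_, fun τ => ?_⟩
  · simp only [LocC, LocF, ne_eq, z, ZMod.intCast_zmod_eq_zero_iff_dvd]
  · obtain ⟨c, hc, e⟩ := site_eq l hl v h τ
    rw [cr, crF, sy_eq, e, mul_left_comm, chi_sq hc]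
    congr 1
    split_ifs <;> simp

theorem chi3 (a : ZMod 3) : chi a = if a = 2 then 1 else 0 := by
  have : IsSquare a ↔ ¬ a = 2 := by
    unfold IsSquare
    revert a
    decide
  simp only [chi, this, ite_not]

def w3 : Fin 10 → ZMod 3 := ![0, 1, 1, 1, 1, 2, 1, 1, 1, 1]

theorem cast3 (v : V10) (h : ∀ i, v i % 240 = v0 i) : (fun i => (v i : ZMod 3)) = w3 := by
  funext i
  have e : (v i : ZMod 3) = ((v0 i : ℤ) : ZMod 3) := by
    rw [← h i]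
    exact (ZMod.intCast_eq_intCast_iff _ _ 3).2 (Int.mod_modEq _ _ |>.of_dvd (by norm_num)).symm
  rw [e]
  clear e
  revert i
  decide

theorem site3 : siteF w3 = ![0, 1, 2, 1, 1, 2, 2, 1, 1, 1, 1, 1] := by
  decide

theorem loc3 : LocF w3 0 := by
  unfold LocF
  rw [site3]
  decide

theorem cr3 : crF w3 0 = ![0, 0, 1, 0, 0, 1, 1, 1, 0, 0, 0, 1] := by
  funext τ
  rw [crF, chi3, site3]
  revert τ
  decide

end DRedJ

open DRedJ

theorem dRed : DRed := by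
  refine ⟨fun l _ hl => ⟨ep_eq l, fun v h σ => red l hl v h σ⟩, fun v h => ?_⟩
  obtain ⟨h1, h2⟩ := red 3 (by norm_num) v h 0
  rw [cast3 v h] at h1 h2
  refine ⟨h1.2 loc3, ?_⟩
  rw [bord_eq, (funext h2 : cr v 0 3 = crF w3 0), cr3]
  have : ep 3 = 1 := by simp [ep]
  rw [this]
  decide

end Pool.Agent.MP_e23604_nt.U

end

section

/-!
The density of the good classes.
-/

open Finset
open scoped Classical

noncomputable section

namespace Pool.Agent.MP_e23604_nt.U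

open P (sy ep lam)

namespace DD1J

/-- The local condition with given pivot bits. -/
def Loc (σ : Fin 12) (l : ℕ) (g : Fin 5 → ZMod 2) (v : V10) : Prop :=
  ∃ _ : Fact l.Prime, LocF (fun i => (v i : ZMod l)) σ ∧
    ∀ i, crF (fun i => (v i : ZMod l)) σ (piv σ i) = g i

/-- Its indicator. -/
def ee (σ : Fin 12) (l : ℕ) (g : Fin 5 → ZMod 2) (v : V10) : ℝ := if Loc σ l g v then 1 else 0

/-- The indicator of the base class. -/
def ind (v : V10) : ℝ := if ∀ i, v i % 240 = v0 i then 1 else 0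

theorem ee_per (σ : Fin 12) (l : ℕ) (g : Fin 5 → ZMod 2) : Per10 l (ee σ l g) := by
  intro v v' h
  refine if_congr (exists_congr fun _ => ?_) rfl rfl
  have : (fun i => (v i : ZMod l)) = fun i => (v' i : ZMod l) :=
    funext fun i => ((ZMod.intCast_eq_intCast_iff_dvd_sub _ _ _).2 (h i)).symm
  rw [this]

theorem ind_per : Per10 240 ind := by
  intro v v' h
  have : ∀ i, v i % 240 = v' i % 240 := fun i => by
    have := h i
    omega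
  unfold ind
  simp only [this]

theorem ee_avg (hAvg : DAvg) {σ : Fin 12} (hLoc : DLoc σ) {l : ℕ} (hl : l.Prime) (h : 10000 < l)
    (g : Fin 5 → ZMod 2) : (1 - 100 / (l : ℝ)) / (32 * l) ≤ avg10 l (ee σ l g) := by
  have : Fact l.Prime := ⟨hl⟩
  have h1 := hAvg.1 l fun w => if LocF w σ ∧ ∀ i, crF w σ (piv σ i) = g i then 1 else 0
  have h2 : ee σ l g = fun v => if LocF (fun i => (v i : ZMod l)) σ ∧
      ∀ i, crF (fun i => (v i : ZMod l)) σ (piv σ i) = g i then 1 else 0 := funext fun v => by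
    unfold ee
    exact if_congr ⟨fun ⟨_, a⟩ => a, fun a => ⟨this, a⟩⟩ rfl rfl
  have h3 := hLoc l h g
  have h4 : (0 : ℝ) < l := by exact_mod_cast hl.pos
  rw [h2, h1, sum_boole, le_div_iff₀ (by positivity)]
  refine le_trans (le_of_eq ?_) h3
  field_simp

theorem avg_single (K : ℕ) {f : V10 → ℝ} (hf : ∀ v, 0 ≤ f v) (v : V10)
    (hv : ∀ i, 0 ≤ v i ∧ v i < K) : f v / (K : ℝ) ^ 10 ≤ avg10 K f :=
  div_le_div_of_nonneg_right (single_le_sum (fun v _ => hf v)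
    (Fintype.mem_piFinset.2 fun i => mem_Ico.2 (hv i))) (by positivity)

theorem ind_avg : 1 / (240 : ℝ) ^ 10 ≤ avg10 240 ind := by
  have h1 := avg_single 240 (f := ind) (fun v => by unfold ind; split_ifs <;> norm_num) v0
    (by decide)
  have h2 : ind v0 = 1 := if_pos (by decide)
  rwa [h2, Nat.cast_ofNat] at h1

theorem avg_sum {ι : Type} (K : ℕ) (S : Finset ι) (f : ι → V10 → ℝ) :
    avg10 K (fun v => ∑ a ∈ S, f a v) = ∑ a ∈ S, avg10 K (f a) := by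
  unfold avg10
  rw [sum_comm, sum_div]

theorem avg_mono (K : ℕ) {f f' : V10 → ℝ} (h : ∀ v, f v ≤ f' v) : avg10 K f ≤ avg10 K f' :=
  div_le_div_of_nonneg_right (sum_le_sum fun v _ => h v) (by positivity)

theorem good_congr {Q : Finset ℕ} {t : ℕ → Fin 12} {c c' : ℕ → F12} (e : ∀ l ∈ Q, c l = c' l)
    (h : Good Q t c) : Good Q t c' := by
  refine fun x y hk => h x y ⟨fun l hl => ?_, fun τ => ?_⟩
  · rw [e l hl]
    exact hk.1 l hl
  · rw [sum_congr rfl fun l hl => by rw [e l hl]]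
    exact hk.2 τ

theorem three {s : S12} (hs : SOK s) : 3 ∈ PS s ∧ st s 3 = 0 := by
  refine ⟨Nat.mem_primeFactors.2 ⟨Nat.prime_three, hs.2.1.trans (dvd_prod_of_mem _ (mem_univ _)),
    hs.1.ne_zero⟩, ?_⟩
  have h : ∃ σ, 3 ∣ s σ := ⟨0, hs.2.1⟩
  rw [st, dif_pos h]
  by_contra hn
  have h1 : 3 * 3 ∣ SP s := by
    refine (mul_dvd_mul h.choose_spec hs.2.1).trans ?_
    rw [← prod_pair hn]
    exact prod_dvd_prod_of_subset _ _ _ (subset_univ _)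
  exact absurd (Nat.isUnit_iff.1 (hs.1 3 h1)) (by norm_num)

/-- The classes attached to the pivot bits `g`. -/
def Cl (s : S12) (g : ↥((PS s).erase 3) → Fin 5 → ZMod 2) (v : V10) : Prop :=
  (∀ i, v i % 240 = v0 i) ∧ ∀ (l : ℕ) (h : l ∈ (PS s).erase 3), Loc (st s l) l (g ⟨l, h⟩) v

theorem cl_good (hRed : DRed) (hTab : ∀ k, DTab k) {s : S12} (hs : SOK s)
    {g : ↥((PS s).erase 3) → Fin 5 → ZMod 2} {v : V10} (h : Cl s g v)
    (hg : Good (PS s) (st s) (cvec s g)) : GG s v = 1 := by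
  have key : ∀ l ∈ PS s, LocC v (st s l) l ∧ cvec s g l = bord v (st s l) l := fun l hl => by
    by_cases e : l = 3
    · subst e
      rw [(three hs).2, cvec, dif_neg (notMem_erase _ _)]
      exact ⟨(hRed.2 v h.1).1, (hRed.2 v h.1).2.symm⟩
    · have hl' : l ∈ (PS s).erase 3 := mem_erase.2 ⟨e, hl⟩
      obtain ⟨_, a, b⟩ := h.2 l hl'
      have h2 : l ≠ 2 := by
        have := (hs.2.2 l hl).resolve_left e
        omega
      obtain ⟨c, d⟩ := hRed.1 l h2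
      refine ⟨(d v h.1 _).1.2 a, funext fun τ => ?_⟩
      rw [cvec, dif_pos hl', bord_eq, funext (d v h.1 _).2, cv, c, hTab _ l h2 _ a τ]
      simp only [b]
  exact if_pos ⟨⟨h.1, fun l hl => (key l hl).1⟩, good_congr (fun l hl => (key l hl).2) hg⟩

theorem cl_uniq {s : S12} {g g' : ↥((PS s).erase 3) → Fin 5 → ZMod 2} {v : V10} (h : Cl s g v)
    (h' : Cl s g' v) : g = g' := by
  funext ⟨l, hl⟩ i
  obtain ⟨_, -, a⟩ := h.2 l hl
  obtain ⟨_, -, b⟩ := h'.2 l hl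
  exact (a i).symm.trans (b i)

theorem cl_avg (hAvg : DAvg) (hLoc : ∀ k, DLoc k) {s : S12} (hs : SOK s)
    (g : ↥((PS s).erase 3) → Fin 5 → ZMod 2) :
    1 / (240 : ℝ) ^ 10 * ∏ l ∈ (PS s).erase 3, (1 - 100 / (l : ℝ)) / (32 * l) ≤
      avg10 (KK s) fun v => if Cl s g v then 1 else 0 := by
  have hP : ∀ l ∈ (PS s).erase 3, l.Prime ∧ 10000 < l := fun l hl =>
    ⟨Nat.prime_of_mem_primeFactors (mem_of_mem_erase hl),
      (hs.2.2 l (mem_of_mem_erase hl)).resolve_left (ne_of_mem_erase hl)⟩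
  have h0 : 240 ∉ (PS s).erase 3 := fun h => absurd (hP _ h).2 (by norm_num)
  have hne : ∀ l ∈ (PS s).erase 3, l ≠ 240 := fun l hl e => h0 (e ▸ hl)
  let G : ℕ → Fin 5 → ZMod 2 := fun l => if h : l ∈ (PS s).erase 3 then g ⟨l, h⟩ else 0
  let f : ℕ → V10 → ℝ := fun l => if l = 240 then ind else ee (st s l) l (G l)
  have f0 : f 240 = ind := if_pos rfl
  have f1 : ∀ l ∈ (PS s).erase 3, f l = ee (st s l) l (G l) := fun l hl => if_neg (hne l hl)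
  have hc : ∀ l ∈ (PS s).erase 3, Nat.Coprime l 240 := fun l hl =>
    (hP l hl).1.coprime_iff_not_dvd.2 fun h => by
      have := Nat.le_of_dvd (by norm_num) h
      have := (hP l hl).2
      omega
  have h1 := hAvg.2 (insert 240 ((PS s).erase 3)) (fun l => l) f (fun l hl => by
    rcases mem_insert.1 hl with rfl | hl
    · exact ⟨by norm_num, f0 ▸ ind_per⟩
    · exact ⟨(hP l hl).1.pos, (f1 l hl).symm ▸ ee_per _ _ _⟩) (fun l hl l' hl' e => by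
    rcases mem_insert.1 hl with rfl | hl <;> rcases mem_insert.1 hl' with rfl | hl'
    · exact absurd rfl e
    · exact (hc _ hl').symm
    · exact hc _ hl
    · exact (Nat.coprime_primes (hP _ hl).1 (hP _ hl').1).2 e)
  have h2 : ∏ l ∈ insert 240 ((PS s).erase 3), l = KK s := by
    have a := mul_prod_erase (PS s) (fun l => l) (three hs).1
    have b : ∏ l ∈ PS s, l = SP s := Nat.prod_primeFactors_of_squarefree hs.1
    rw [prod_insert h0, KK, ← b, ← a]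
    ring
  have h3 : (fun v => ∏ l ∈ insert 240 ((PS s).erase 3), f l v) =
      fun v => if Cl s g v then 1 else 0 := funext fun v => by
    rw [prod_insert h0, f0, prod_congr rfl fun l hl => congrFun (f1 l hl) v]
    unfold ind ee
    rw [prod_boole, ite_zero_mul_ite_zero, mul_one]
    refine if_congr (and_congr_right fun _ => forall₂_congr fun l hl => ?_) rfl rfl
    simp only [G, dif_pos hl]
  rw [h2, h3, prod_insert h0, f0] at h1
  rw [h1]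
  have h4 : ∀ l ∈ (PS s).erase 3, 0 ≤ (1 - 100 / (l : ℝ)) / (32 * l) := fun l hl => by
    have : (10000 : ℝ) < l := by exact_mod_cast (hP l hl).2
    refine div_nonneg (sub_nonneg.2 ?_) (by positivity)
    rw [div_le_one (by linarith)]
    linarith
  refine mul_le_mul ind_avg (prod_le_prod h4 fun l hl => ?_) (prod_nonneg h4)
    (le_trans (by positivity) ind_avg)
  rw [f1 l hl]
  exact ee_avg hAvg (hLoc _) (hP l hl).1 (hP l hl).2 _

end DD1J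

open DD1J in
theorem dD1 (hAvg : DAvg) (hRed : DRed) (hTab : ∀ k, DTab k) (hLoc : ∀ k, DLoc k) : ID1 := by
  refine ⟨3 / 240 ^ 10, by positivity, fun s hs => ?_⟩
  let S := univ.filter fun g : ↥((PS s).erase 3) → Fin 5 → ZMod 2 =>
    Good (PS s) (st s) (cvec s g)
  have h1 : ∀ v, ∑ g ∈ S, (if Cl s g v then (1 : ℝ) else 0) ≤ GG s v := fun v => by
    by_cases h : ∃ g ∈ S, Cl s g v
    · obtain ⟨g, a, b⟩ := h
      rw [sum_eq_single g (fun g' _ e => if_neg fun c => e (cl_uniq c b)) fun c => absurd a c,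
        if_pos b, cl_good hRed hTab hs b (mem_filter.1 a).2]
    · rw [sum_eq_zero fun g a => if_neg fun b => h ⟨g, a, b⟩]
      unfold GG
      split_ifs <;> norm_num
  refine le_trans ?_ (avg_mono _ h1)
  rw [avg_sum]
  refine le_trans (le_of_eq ?_) (sum_le_sum fun g _ => cl_avg hAvg hLoc hs g)
  have a := mul_prod_erase (PS s) (fun l => (l : ℝ)) (three hs).1
  have b : ∏ l ∈ PS s, (l : ℝ) = SP s := by
    rw [← Nat.cast_prod]
    exact congrArg _ (Nat.prod_primeFactors_of_squarefree hs.1)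
  have c : ∏ l ∈ (PS s).erase 3, (l : ℝ) ≠ 0 := prod_ne_zero_iff.2 fun l hl =>
    Nat.cast_ne_zero.2 (Nat.prime_of_mem_primeFactors (mem_of_mem_erase hl)).ne_zero
  rw [sum_const, nsmul_eq_mul, prod_div_distrib, prod_mul_distrib, prod_const, wS, pgood, ← b, ← a]
  rw [Nat.cast_ofNat]
  field_simp
  exact mul_comm _ _

end Pool.Agent.MP_e23604_nt.U

end
end

section

/-!
Sizes of the sides of an admissible box, and of the sites in it.
-/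

open Finset
open scoped Classical

noncomputable section

namespace Pool.Agent.MP_e23604_nt.U

namespace DSep

variable {X : Fin 10 → ℕ} {Z : ℕ}

/-! The sides of the box. -/

theorem zpos (h : Reg X Z) : 1 ≤ Z := le_trans (by norm_num) h.z2

theorem w_pow (h : Reg X Z) : 1048576 * Z ^ 2 ≤ Z ^ 1000 := by
  have h1 : 2 ^ 20 ≤ Z ^ 998 :=
    le_trans (Nat.pow_le_pow_left h.z2 20) (Nat.pow_le_pow_right (zpos h) (by norm_num))
  calc 1048576 * Z ^ 2 = 2 ^ 20 * Z ^ 2 := by norm_num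
    _ ≤ Z ^ 998 * Z ^ 2 := Nat.mul_le_mul_right _ h1
    _ = Z ^ 1000 := by rw [← pow_add]

theorem pw_pos (h : Reg X Z) : 1 ≤ Z ^ 1000 := Nat.one_le_pow _ _ (zpos h)

theorem x4_pos (h : Reg X Z) : 1 ≤ X 4 := (pw_pos h).trans h.h4
theorem x8_pos (h : Reg X Z) : 1 ≤ X 8 := (pw_pos h).trans h.h8
theorem x9_pos (h : Reg X Z) : 1 ≤ X 9 := (pw_pos h).trans h.h9

theorem m_pos (h : Reg X Z) : 1 ≤ X 4 * X 8 * X 9 :=
  Nat.mul_pos (Nat.mul_pos (x4_pos h) (x8_pos h)) (x9_pos h)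

theorem x4_m (h : Reg X Z) : X 4 ≤ X 4 * X 8 * X 9 :=
  (Nat.le_mul_of_pos_right _ (x8_pos h)).trans (Nat.le_mul_of_pos_right _ (x9_pos h))

theorem x8_m (h : Reg X Z) : X 8 ≤ X 4 * X 8 * X 9 :=
  (Nat.le_mul_of_pos_left _ (x4_pos h)).trans (Nat.le_mul_of_pos_right _ (x9_pos h))

theorem x9_m (h : Reg X Z) : X 9 ≤ X 4 * X 8 * X 9 :=
  Nat.le_mul_of_pos_left _ (Nat.mul_pos (x4_pos h) (x8_pos h))

/-- Any power up to the thousandth of `X 4 * X 8 * X 9` is at most `X 7`. -/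
theorem m_pow (h : Reg X Z) (k : ℕ) (hk : k ≤ 1000) : (X 4 * X 8 * X 9) ^ k ≤ X 7 :=
  (Nat.pow_le_pow_right (m_pos h) hk).trans h.h7

theorem m_x7 (h : Reg X Z) : X 4 * X 8 * X 9 ≤ X 7 := by
  have := m_pow h 1 (by norm_num)
  rwa [pow_one] at this

theorem x7_pos (h : Reg X Z) : 1 ≤ X 7 := (m_pos h).trans (m_x7 h)

theorem x7_x5 (h : Reg X Z) : X 7 ≤ X 5 :=
  (Nat.le_self_pow (by norm_num) _).trans h.h5

theorem x5_pos (h : Reg X Z) : 1 ≤ X 5 := (x7_pos h).trans (x7_x5 h)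

theorem x7_pow (h : Reg X Z) (k : ℕ) (hk : k ≤ 1000) : X 7 ^ k ≤ X 2 :=
  (Nat.pow_le_pow_right (x7_pos h) hk).trans h.h2

theorem x5_x2 (h : Reg X Z) : X 5 ≤ X 2 := h.h5'.trans (x7_pow h 10 (by norm_num))

theorem x2_pos (h : Reg X Z) : 1 ≤ X 2 := (x5_pos h).trans (x5_x2 h)

theorem x2_pow (h : Reg X Z) (k : ℕ) (hk : k ≤ 1000) : X 2 ^ k ≤ X 0 :=
  (Nat.pow_le_pow_right (x2_pos h) hk).trans h.h0

theorem x2_x0 (h : Reg X Z) : X 2 ≤ X 0 := by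
  have := x2_pow h 1 (by norm_num)
  rwa [pow_one] at this

theorem x0_pos (h : Reg X Z) : 1 ≤ X 0 := (x2_pos h).trans (x2_x0 h)

theorem x1_pos (h : Reg X Z) : 1 ≤ X 1 := by
  rcases Nat.eq_zero_or_pos (X 1) with h0 | h0
  · have h1 := h.b3
    have h2 : 0 < 16 * (X 0 * X 5 * X 7 ^ 2) :=
      Nat.mul_pos (by norm_num)
        (Nat.mul_pos (Nat.mul_pos (x0_pos h) (x5_pos h)) (Nat.pow_pos (x7_pos h)))
    rw [h0] at h1
    omega
  · exact h0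

theorem x3_pos (h : Reg X Z) : 1 ≤ X 3 := by
  rcases Nat.eq_zero_or_pos (X 3) with h0 | h0
  · have h1 := h.b2
    have h2 : 0 < X 2 * X 5 * X 8 ^ 2 :=
      Nat.mul_pos (Nat.mul_pos (x2_pos h) (x5_pos h)) (Nat.pow_pos (x8_pos h))
    rw [h0] at h1
    omega
  · exact h0

theorem x6_pos (h : Reg X Z) : 1 ≤ X 6 := by
  rcases Nat.eq_zero_or_pos (X 6) with h0 | h0
  · have h1 := h.b1
    have h2 : 0 < 256 * (X 5 * X 1 * X 8 ^ 2) :=
      Nat.mul_pos (by norm_num)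
        (Nat.mul_pos (Nat.mul_pos (x5_pos h) (x1_pos h)) (Nat.pow_pos (x8_pos h)))
    rw [h0] at h1
    omega
  · exact h0

theorem x_pos (h : Reg X Z) (i : Fin 10) : 1 ≤ X i := by
  fin_cases i
  exacts [x0_pos h, x1_pos h, x2_pos h, x3_pos h, x4_pos h, x5_pos h, x6_pos h, x7_pos h,
    x8_pos h, x9_pos h]

theorem e0 (h : Reg X Z) : X 4 * X 6 * X 9 = 64 * (X 5 * X 7 * X 8) := by
  have h1 : X 0 * X 1 * (X 4 * X 6 * X 9) ^ 2 = X 0 * X 1 * (64 * (X 5 * X 7 * X 8)) ^ 2 := by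
    calc X 0 * X 1 * (X 4 * X 6 * X 9) ^ 2
        = (X 0 * X 4 * X 6 ^ 2) * (X 4 * X 1 * X 9 ^ 2) := by ring
      _ = (256 * (X 5 * X 1 * X 8 ^ 2)) * (16 * (X 0 * X 5 * X 7 ^ 2)) := by rw [h.b1, h.b3]
      _ = _ := by ring
  have h2 := Nat.eq_of_mul_eq_mul_left (Nat.mul_pos (x0_pos h) (x1_pos h)) h1
  exact Nat.pow_left_injective (by norm_num : (2 : ℕ) ≠ 0) h2

theorem e2 (h : Reg X Z) : X 2 * X 4 * X 6 ^ 2 = 262144 * (X 5 * X 3 * X 7 ^ 2) := by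
  apply Nat.eq_of_mul_eq_mul_left (Nat.mul_pos (x4_pos h) (Nat.pow_pos (n := 2) (x9_pos h)))
  calc X 4 * X 9 ^ 2 * (X 2 * X 4 * X 6 ^ 2) = X 2 * (X 4 * X 6 * X 9) ^ 2 := by ring
    _ = X 2 * (64 * (X 5 * X 7 * X 8)) ^ 2 := by rw [e0 h]
    _ = 4096 * (X 5 * X 7 ^ 2) * (X 2 * X 5 * X 8 ^ 2) := by ring
    _ = 4096 * (X 5 * X 7 ^ 2) * (64 * (X 4 * X 3 * X 9 ^ 2)) := by rw [h.b2]
    _ = _ := by ring

theorem e6 (h : Reg X Z) : X 0 * X 2 * X 6 ^ 2 = 16384 * (X 3 * X 1 * X 9 ^ 2) := by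
  apply Nat.eq_of_mul_eq_mul_left (x4_pos h)
  calc X 4 * (X 0 * X 2 * X 6 ^ 2) = X 2 * (X 0 * X 4 * X 6 ^ 2) := by ring
    _ = X 2 * (256 * (X 5 * X 1 * X 8 ^ 2)) := by rw [h.b1]
    _ = 256 * X 1 * (X 2 * X 5 * X 8 ^ 2) := by ring
    _ = 256 * X 1 * (64 * (X 4 * X 3 * X 9 ^ 2)) := by rw [h.b2]
    _ = _ := by ring

theorem e7 (h : Reg X Z) : X 2 * X 1 * X 8 ^ 2 = 1024 * (X 0 * X 3 * X 7 ^ 2) := by
  apply Nat.eq_of_mul_eq_mul_left
    (Nat.mul_pos (x5_pos h) (Nat.mul_pos (x4_pos h) (Nat.pow_pos (n := 2) (x9_pos h))))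
  calc X 5 * (X 4 * X 9 ^ 2) * (X 2 * X 1 * X 8 ^ 2)
      = (X 2 * X 5 * X 8 ^ 2) * (X 4 * X 1 * X 9 ^ 2) := by ring
    _ = (64 * (X 4 * X 3 * X 9 ^ 2)) * (16 * (X 0 * X 5 * X 7 ^ 2)) := by rw [h.b2, h.b3]
    _ = _ := by ring

theorem k1 (h : Reg X Z) : 1048576 * Z ^ 2 ≤ X 4 := (w_pow h).trans h.h4

theorem big4 (h : Reg X Z) : 1048576 ≤ X 4 :=
  (Nat.le_mul_of_pos_right _ (Nat.pow_pos (zpos h))).trans (k1 h)

theorem big7 (h : Reg X Z) : 1048576 ≤ X 7 := (big4 h).trans ((x4_m h).trans (m_x7 h))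

theorem k2 (h : Reg X Z) : 1048576 * Z ^ 2 * (X 4 * X 9 ^ 2) ≤ X 5 := by
  have h1 : X 4 * X 9 ^ 2 ≤ (X 4 * X 8 * X 9) ^ 3 := by
    calc X 4 * X 9 ^ 2 ≤ (X 4 * X 8 * X 9) * (X 4 * X 8 * X 9) ^ 2 :=
          Nat.mul_le_mul (x4_m h) (Nat.pow_le_pow_left (x9_m h) 2)
      _ = _ := by ring
  calc 1048576 * Z ^ 2 * (X 4 * X 9 ^ 2) ≤ (X 4 * X 8 * X 9) * (X 4 * X 8 * X 9) ^ 3 :=
        Nat.mul_le_mul ((k1 h).trans (x4_m h)) h1
    _ = (X 4 * X 8 * X 9) ^ 4 := by ring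
    _ ≤ X 7 := m_pow h 4 (by norm_num)
    _ ≤ X 5 := x7_x5 h

theorem k3 (h : Reg X Z) : 1048576 * Z ^ 2 * X 5 ≤ X 2 := by
  calc 1048576 * Z ^ 2 * X 5 ≤ X 7 * X 7 ^ 10 :=
        Nat.mul_le_mul ((k1 h).trans ((x4_m h).trans (m_x7 h))) h.h5'
    _ = X 7 ^ 11 := by ring
    _ ≤ X 2 := x7_pow h 11 (by norm_num)

theorem x6_x7 (h : Reg X Z) : X 6 ≤ X 7 ^ 13 := by
  calc X 6 ≤ X 4 * X 6 * X 9 :=
        (Nat.le_mul_of_pos_left _ (x4_pos h)).trans (Nat.le_mul_of_pos_right _ (x9_pos h))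
    _ = 64 * (X 5 * X 7 * X 8) := e0 h
    _ ≤ X 7 * (X 7 ^ 10 * X 7 * X 7) :=
        Nat.mul_le_mul (le_trans (by norm_num) (big7 h))
          (Nat.mul_le_mul (Nat.mul_le_mul h.h5' le_rfl) ((x8_m h).trans (m_x7 h)))
    _ = X 7 ^ 13 := by ring

theorem x6_x2 (h : Reg X Z) : X 6 ≤ X 2 := (x6_x7 h).trans (x7_pow h 13 (by norm_num))

theorem x7_x2 (h : Reg X Z) : X 7 ≤ X 2 := (x7_x5 h).trans (x5_x2 h)

theorem x4_x2 (h : Reg X Z) : X 4 ≤ X 2 := (x4_m h).trans ((m_x7 h).trans (x7_x2 h))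

theorem x8_x2 (h : Reg X Z) : X 8 ≤ X 2 := (x8_m h).trans ((m_x7 h).trans (x7_x2 h))

theorem x9_x2 (h : Reg X Z) : X 9 ≤ X 2 := (x9_m h).trans ((m_x7 h).trans (x7_x2 h))

theorem k4 (h : Reg X Z) : 1048576 * Z ^ 2 * (X 2 * X 4 * X 6 ^ 2) ≤ X 0 := by
  calc 1048576 * Z ^ 2 * (X 2 * X 4 * X 6 ^ 2) ≤ X 2 * (X 2 * X 2 * X 2 ^ 2) :=
        Nat.mul_le_mul ((k1 h).trans (x4_x2 h))
          (Nat.mul_le_mul (Nat.mul_le_mul le_rfl (x4_x2 h)) (Nat.pow_le_pow_left (x6_x2 h) 2))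
    _ = X 2 ^ 5 := by ring
    _ ≤ X 0 := x2_pow h 5 (by norm_num)

theorem x3_x2 (h : Reg X Z) : X 3 ≤ X 2 * X 7 ^ 12 := by
  calc X 3 ≤ 64 * (X 4 * X 3 * X 9 ^ 2) :=
        ((Nat.le_mul_of_pos_left _ (x4_pos h)).trans
          (Nat.le_mul_of_pos_right _ (Nat.pow_pos (x9_pos h)))).trans
          (Nat.le_mul_of_pos_left _ (by norm_num))
    _ = X 2 * X 5 * X 8 ^ 2 := h.b2.symm
    _ ≤ X 2 * X 7 ^ 10 * X 7 ^ 2 :=
        Nat.mul_le_mul (Nat.mul_le_mul le_rfl h.h5')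
          (Nat.pow_le_pow_left ((x8_m h).trans (m_x7 h)) 2)
    _ = X 2 * X 7 ^ 12 := by ring

theorem x3_x0 (h : Reg X Z) : X 3 ≤ X 0 := by
  calc X 3 ≤ X 2 * X 7 ^ 12 := x3_x2 h
    _ ≤ X 2 * X 2 := Nat.mul_le_mul le_rfl (x7_pow h 12 (by norm_num))
    _ = X 2 ^ 2 := by ring
    _ ≤ X 0 := x2_pow h 2 (by norm_num)

theorem x1_x0 (h : Reg X Z) : X 1 ≤ X 0 * X 7 ^ 13 := by
  calc X 1 ≤ X 4 * X 1 * X 9 ^ 2 :=
        (Nat.le_mul_of_pos_left _ (x4_pos h)).trans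
          (Nat.le_mul_of_pos_right _ (Nat.pow_pos (x9_pos h)))
    _ = 16 * (X 0 * X 5 * X 7 ^ 2) := h.b3
    _ ≤ X 7 * (X 0 * X 7 ^ 10 * X 7 ^ 2) :=
        Nat.mul_le_mul (le_trans (by norm_num) (big7 h))
          (Nat.mul_le_mul (Nat.mul_le_mul le_rfl h.h5') le_rfl)
    _ = X 0 * X 7 ^ 13 := by ring

theorem k2' (h : Reg X Z) : 1048576 * Z ^ 2 * X 4 ≤ X 5 :=
  (Nat.mul_le_mul_left _ (Nat.le_mul_of_pos_right _ (Nat.pow_pos (x9_pos h)))).trans (k2 h)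

theorem k89 (h : Reg X Z) : 16384 * Z ^ 2 * X 2 ≤ X 3 := by
  apply Nat.le_of_mul_le_mul_left _
    (Nat.mul_pos (by norm_num : 0 < 64) (Nat.mul_pos (x4_pos h) (Nat.pow_pos (n := 2) (x9_pos h))))
  calc 64 * (X 4 * X 9 ^ 2) * (16384 * Z ^ 2 * X 2)
      = X 2 * (1048576 * Z ^ 2 * (X 4 * X 9 ^ 2)) := by ring
    _ ≤ X 2 * X 5 := Nat.mul_le_mul_left _ (k2 h)
    _ ≤ X 2 * X 5 * X 8 ^ 2 := Nat.le_mul_of_pos_right _ (Nat.pow_pos (x8_pos h))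
    _ = 64 * (X 4 * X 3 * X 9 ^ 2) := h.b2
    _ = _ := by ring

theorem k93 (h : Reg X Z) : 1048576 * Z ^ 2 * X 3 ≤ X 4 * X 3 * X 9 ^ 2 :=
  (Nat.mul_le_mul_right _ (k1 h)).trans (Nat.le_mul_of_pos_right _ (Nat.pow_pos (x9_pos h)))

theorem k32 (h : Reg X Z) : 1048576 * Z ^ 2 * (X 4 * X 3 * X 9 ^ 2) ≤ X 5 * X 3 * X 7 ^ 2 := by
  calc 1048576 * Z ^ 2 * (X 4 * X 3 * X 9 ^ 2) = 1048576 * Z ^ 2 * (X 4 * X 9 ^ 2) * X 3 := by ring
    _ ≤ X 5 * X 3 := Nat.mul_le_mul_right _ (k2 h)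
    _ ≤ _ := Nat.le_mul_of_pos_right _ (Nat.pow_pos (x7_pos h))

theorem k01 (h : Reg X Z) : 1048576 * Z ^ 2 * X 0 ≤ X 1 := by
  apply Nat.le_of_mul_le_mul_left _ (Nat.mul_pos (x4_pos h) (Nat.pow_pos (n := 2) (x9_pos h)))
  calc X 4 * X 9 ^ 2 * (1048576 * Z ^ 2 * X 0)
      = X 0 * (1048576 * Z ^ 2 * (X 4 * X 9 ^ 2)) := by ring
    _ ≤ X 0 * X 5 := Nat.mul_le_mul_left _ (k2 h)
    _ ≤ X 0 * X 5 * X 7 ^ 2 := Nat.le_mul_of_pos_right _ (Nat.pow_pos (x7_pos h))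
    _ ≤ 16 * (X 0 * X 5 * X 7 ^ 2) := Nat.le_mul_of_pos_left _ (by norm_num)
    _ = X 4 * X 1 * X 9 ^ 2 := h.b3.symm
    _ = _ := by ring

theorem k1B (h : Reg X Z) : 1048576 * Z ^ 2 * X 1 ≤ X 4 * X 1 * X 9 ^ 2 :=
  (Nat.mul_le_mul_right _ (k1 h)).trans (Nat.le_mul_of_pos_right _ (Nat.pow_pos (x9_pos h)))

theorem kBA (h : Reg X Z) : 1048576 * Z ^ 2 * (X 4 * X 1 * X 9 ^ 2) ≤ X 5 * X 1 * X 8 ^ 2 := by
  calc 1048576 * Z ^ 2 * (X 4 * X 1 * X 9 ^ 2) = 1048576 * Z ^ 2 * (X 4 * X 9 ^ 2) * X 1 := by ring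
    _ ≤ X 5 * X 1 := Nat.mul_le_mul_right _ (k2 h)
    _ ≤ _ := Nat.le_mul_of_pos_right _ (Nat.pow_pos (x8_pos h))

theorem kA7 (h : Reg X Z) : 1048576 * Z ^ 2 * (X 5 * X 1 * X 8 ^ 2) ≤ X 2 * X 1 * X 8 ^ 2 := by
  calc 1048576 * Z ^ 2 * (X 5 * X 1 * X 8 ^ 2) = 1048576 * Z ^ 2 * X 5 * (X 1 * X 8 ^ 2) := by ring
    _ ≤ X 2 * (X 1 * X 8 ^ 2) := Nat.mul_le_mul_right _ (k3 h)
    _ = _ := by ring

theorem k76 (h : Reg X Z) : 1048576 * Z ^ 2 * (X 2 * X 1 * X 8 ^ 2) ≤ X 0 * X 2 * X 6 ^ 2 := by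
  apply Nat.le_of_mul_le_mul_left _ (x4_pos h)
  calc X 4 * (1048576 * Z ^ 2 * (X 2 * X 1 * X 8 ^ 2))
      = 1048576 * Z ^ 2 * X 4 * (X 2 * X 1 * X 8 ^ 2) := by ring
    _ ≤ X 5 * (X 2 * X 1 * X 8 ^ 2) := Nat.mul_le_mul_right _ (k2' h)
    _ ≤ 256 * (X 5 * (X 2 * X 1 * X 8 ^ 2)) := Nat.le_mul_of_pos_left _ (by norm_num)
    _ = X 2 * (256 * (X 5 * X 1 * X 8 ^ 2)) := by ring
    _ = X 2 * (X 0 * X 4 * X 6 ^ 2) := by rw [h.b1]
    _ = _ := by ring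

/-! Points of the box. -/

variable {v : V10}

theorem lo (hv : v ∈ Box X) (i : Fin 10) : (X i : ℤ) < v i :=
  (mem_Ioc.1 (Fintype.mem_piFinset.1 hv i)).1

theorem hi (hv : v ∈ Box X) (i : Fin 10) : v i ≤ 2 * (X i : ℤ) :=
  (mem_Ioc.1 (Fintype.mem_piFinset.1 hv i)).2

theorem vpos (hv : v ∈ Box X) (i : Fin 10) : 0 < v i :=
  lt_of_le_of_lt (Int.natCast_nonneg _) (lo hv i)

theorem mon_lo (hv : v ∈ Box X) (i j k : Fin 10) :
    (X i : ℤ) * X j * (X k : ℤ) ^ 2 ≤ v i * v j * v k ^ 2 := by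
  have h1 := (lo hv i).le
  have h2 := (lo hv j).le
  have h3 := (lo hv k).le
  have h4 := (vpos hv i).le
  have h5 := (vpos hv j).le
  gcongr

theorem mon_hi (hv : v ∈ Box X) (i j k : Fin 10) :
    v i * v j * v k ^ 2 ≤ 16 * ((X i : ℤ) * X j * (X k : ℤ) ^ 2) := by
  have h1 := hi hv i
  have h2 := hi hv j
  have h3 := hi hv k
  have h4 := (vpos hv i).le
  have h5 := (vpos hv j).le
  have h6 := (vpos hv k).le
  calc v i * v j * v k ^ 2 ≤ (2 * (X i : ℤ)) * (2 * (X j : ℤ)) * (2 * (X k : ℤ)) ^ 2 := by gcongr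
    _ = _ := by ring

theorem mon_pos (hv : v ∈ Box X) (i j k : Fin 10) : 0 < v i * v j * v k ^ 2 :=
  mul_pos (mul_pos (vpos hv i) (vpos hv j)) (pow_pos (vpos hv k) 2)

theorem xmon_pos (h : Reg X Z) (i j k : Fin 10) : 1 ≤ (X i : ℤ) * X j * (X k : ℤ) ^ 2 := by
  have : 1 ≤ X i * X j * X k ^ 2 :=
    Nat.mul_pos (Nat.mul_pos (x_pos h i) (x_pos h j)) (Nat.pow_pos (x_pos h k))
  exact_mod_cast this

theorem s0 (v : V10) : site v 0 = v 0 := rfl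
theorem s1 (v : V10) : site v 1 = v 1 := rfl
theorem s2 (v : V10) : site v 2 = (v 2 * v 4 * v 6 ^ 2 - v 5 * v 3 * v 7 ^ 2) / 4 := rfl
theorem s3 (v : V10) : site v 3 = v 2 * v 5 * v 8 ^ 2 - v 4 * v 3 * v 9 ^ 2 := rfl
theorem s4 (v : V10) : site v 4 = v 4 := rfl
theorem s5 (v : V10) : site v 5 = v 5 := rfl
theorem s6 (v : V10) : site v 6 = v 0 * v 2 * v 6 ^ 2 - 4 * v 3 * v 1 * v 9 ^ 2 := rfl
theorem s7 (v : V10) : site v 7 = 4 * v 2 * v 1 * v 8 ^ 2 - v 0 * v 3 * v 7 ^ 2 := rfl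
theorem s8 (v : V10) : site v 8 = v 2 := rfl
theorem s9 (v : V10) : site v 9 = v 3 := rfl
theorem s10 (v : V10) : site v 10 = v 0 * v 4 * v 6 ^ 2 - 4 * v 5 * v 1 * v 8 ^ 2 := rfl
theorem s11 (v : V10) : site v 11 = 4 * v 4 * v 1 * v 9 ^ 2 - v 0 * v 5 * v 7 ^ 2 := rfl

/-! Two-sided bounds for the six quadratic sites. -/

theorem s2_bd (h : Reg X Z) (hv : v ∈ Box X) :
    (X 2 : ℤ) * X 4 * (X 6 : ℤ) ^ 2 < 8 * site v 2 ∧
      site v 2 ≤ 4 * ((X 2 : ℤ) * X 4 * (X 6 : ℤ) ^ 2) := by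
  have e : (X 2 : ℤ) * X 4 * (X 6 : ℤ) ^ 2 = 262144 * ((X 5 : ℤ) * X 3 * (X 7 : ℤ) ^ 2) := by
    exact_mod_cast e2 h
  have h1 := mon_lo hv 2 4 6
  have h2 := mon_hi hv 2 4 6
  have h3 := mon_hi hv 5 3 7
  have h4 := mon_pos hv 5 3 7
  have h5 := xmon_pos h 5 3 7
  rw [s2]
  generalize v 2 * v 4 * v 6 ^ 2 = A at *
  generalize v 5 * v 3 * v 7 ^ 2 = B at *
  generalize (X 2 : ℤ) * X 4 * (X 6 : ℤ) ^ 2 = C at *
  generalize (X 5 : ℤ) * X 3 * (X 7 : ℤ) ^ 2 = D at *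
  omega

theorem s3_bd (h : Reg X Z) (hv : v ∈ Box X) :
    (X 2 : ℤ) * X 5 * (X 8 : ℤ) ^ 2 < 2 * site v 3 ∧
      site v 3 ≤ 16 * ((X 2 : ℤ) * X 5 * (X 8 : ℤ) ^ 2) := by
  have e : (X 2 : ℤ) * X 5 * (X 8 : ℤ) ^ 2 = 64 * ((X 4 : ℤ) * X 3 * (X 9 : ℤ) ^ 2) := by
    exact_mod_cast h.b2
  have h1 := mon_lo hv 2 5 8
  have h2 := mon_hi hv 2 5 8
  have h3 := mon_hi hv 4 3 9
  have h4 := mon_pos hv 4 3 9
  have h5 := xmon_pos h 4 3 9
  rw [s3]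
  constructor <;> linarith

theorem s6_bd (h : Reg X Z) (hv : v ∈ Box X) :
    (X 0 : ℤ) * X 2 * (X 6 : ℤ) ^ 2 < 2 * site v 6 ∧
      site v 6 ≤ 16 * ((X 0 : ℤ) * X 2 * (X 6 : ℤ) ^ 2) := by
  have e : (X 0 : ℤ) * X 2 * (X 6 : ℤ) ^ 2 = 16384 * ((X 3 : ℤ) * X 1 * (X 9 : ℤ) ^ 2) := by
    exact_mod_cast e6 h
  have h1 := mon_lo hv 0 2 6
  have h2 := mon_hi hv 0 2 6
  have h3 := mon_hi hv 3 1 9
  have h4 := mon_pos hv 3 1 9
  have h5 := xmon_pos h 3 1 9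
  rw [s6]
  constructor <;> linarith

theorem s7_bd (h : Reg X Z) (hv : v ∈ Box X) :
    (X 2 : ℤ) * X 1 * (X 8 : ℤ) ^ 2 < site v 7 ∧
      site v 7 ≤ 64 * ((X 2 : ℤ) * X 1 * (X 8 : ℤ) ^ 2) := by
  have e : (X 2 : ℤ) * X 1 * (X 8 : ℤ) ^ 2 = 1024 * ((X 0 : ℤ) * X 3 * (X 7 : ℤ) ^ 2) := by
    exact_mod_cast e7 h
  have h1 := mon_lo hv 2 1 8
  have h2 := mon_hi hv 2 1 8
  have h3 := mon_hi hv 0 3 7
  have h4 := mon_pos hv 0 3 7
  have h5 := xmon_pos h 0 3 7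
  rw [s7]
  constructor <;> linarith

theorem s10_bd (h : Reg X Z) (hv : v ∈ Box X) :
    (X 0 : ℤ) * X 4 * (X 6 : ℤ) ^ 2 < 2 * site v 10 ∧
      site v 10 ≤ 16 * ((X 0 : ℤ) * X 4 * (X 6 : ℤ) ^ 2) := by
  have e : (X 0 : ℤ) * X 4 * (X 6 : ℤ) ^ 2 = 256 * ((X 5 : ℤ) * X 1 * (X 8 : ℤ) ^ 2) := by
    exact_mod_cast h.b1
  have h1 := mon_lo hv 0 4 6
  have h2 := mon_hi hv 0 4 6
  have h3 := mon_hi hv 5 1 8
  have h4 := mon_pos hv 5 1 8
  have h5 := xmon_pos h 5 1 8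
  rw [s10]
  constructor <;> linarith

theorem s11_bd (h : Reg X Z) (hv : v ∈ Box X) :
    (X 4 : ℤ) * X 1 * (X 9 : ℤ) ^ 2 < site v 11 ∧
      site v 11 ≤ 64 * ((X 4 : ℤ) * X 1 * (X 9 : ℤ) ^ 2) := by
  have e : (X 4 : ℤ) * X 1 * (X 9 : ℤ) ^ 2 = 16 * ((X 0 : ℤ) * X 5 * (X 7 : ℤ) ^ 2) := by
    exact_mod_cast h.b3
  have h1 := mon_lo hv 4 1 9
  have h2 := mon_hi hv 4 1 9
  have h3 := mon_hi hv 0 5 7
  have h4 := mon_pos hv 0 5 7
  have h5 := xmon_pos h 0 5 7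
  rw [s11]
  constructor <;> linarith

/-! The chain of the sites. -/

theorem gap {W a b A : ℤ} (hW : 0 ≤ W) (ha : a ≤ A) (h : W * A < b) : W * a < b :=
  lt_of_le_of_lt (mul_le_mul_of_nonneg_left ha hW) h

theorem c4 (h : Reg X Z) (hv : v ∈ Box X) : (Z : ℤ) ^ 2 < site v 4 := by
  have k : 1048576 * (Z : ℤ) ^ 2 ≤ X 4 := by exact_mod_cast k1 h
  have h1 := lo hv 4
  have h2 : 0 ≤ (Z : ℤ) ^ 2 := sq_nonneg _
  rw [s4]
  linarith

theorem c45 (h : Reg X Z) (hv : v ∈ Box X) : (Z : ℤ) ^ 2 * site v 4 < site v 5 := by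
  have k : 1048576 * (Z : ℤ) ^ 2 * X 4 ≤ X 5 := by exact_mod_cast k2' h
  have h1 := lo hv 5
  have h2 : 0 ≤ (Z : ℤ) ^ 2 * X 4 := by positivity
  rw [s4, s5]
  exact gap (sq_nonneg _) (hi hv 4) (by linarith)

theorem c58 (h : Reg X Z) (hv : v ∈ Box X) : (Z : ℤ) ^ 2 * site v 5 < site v 8 := by
  have k : 1048576 * (Z : ℤ) ^ 2 * X 5 ≤ X 2 := by exact_mod_cast k3 h
  have h1 := lo hv 2
  have h2 : 0 ≤ (Z : ℤ) ^ 2 * X 5 := by positivity
  rw [s5, s8]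
  exact gap (sq_nonneg _) (hi hv 5) (by linarith)

theorem c89 (h : Reg X Z) (hv : v ∈ Box X) : (Z : ℤ) ^ 2 * site v 8 < site v 9 := by
  have k : 16384 * (Z : ℤ) ^ 2 * X 2 ≤ X 3 := by exact_mod_cast k89 h
  have h1 := lo hv 3
  have h2 : 0 ≤ (Z : ℤ) ^ 2 * X 2 := by positivity
  rw [s8, s9]
  exact gap (sq_nonneg _) (hi hv 2) (by linarith)

theorem c93 (h : Reg X Z) (hv : v ∈ Box X) : (Z : ℤ) ^ 2 * site v 9 < site v 3 := by
  have k : 1048576 * (Z : ℤ) ^ 2 * X 3 ≤ (X 4 : ℤ) * X 3 * (X 9 : ℤ) ^ 2 := by exact_mod_cast k93 h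
  have e : (X 2 : ℤ) * X 5 * (X 8 : ℤ) ^ 2 = 64 * ((X 4 : ℤ) * X 3 * (X 9 : ℤ) ^ 2) := by
    exact_mod_cast h.b2
  have h1 := (s3_bd h hv).1
  have h2 : 0 ≤ (Z : ℤ) ^ 2 * X 3 := by positivity
  rw [s9]
  exact gap (sq_nonneg _) (hi hv 3) (by linarith)

theorem c32 (h : Reg X Z) (hv : v ∈ Box X) : (Z : ℤ) ^ 2 * site v 3 < site v 2 := by
  have k : 1048576 * (Z : ℤ) ^ 2 * ((X 4 : ℤ) * X 3 * (X 9 : ℤ) ^ 2) ≤
      (X 5 : ℤ) * X 3 * (X 7 : ℤ) ^ 2 := by exact_mod_cast k32 h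
  have e : (X 2 : ℤ) * X 5 * (X 8 : ℤ) ^ 2 = 64 * ((X 4 : ℤ) * X 3 * (X 9 : ℤ) ^ 2) := by
    exact_mod_cast h.b2
  have e' : (X 2 : ℤ) * X 4 * (X 6 : ℤ) ^ 2 = 262144 * ((X 5 : ℤ) * X 3 * (X 7 : ℤ) ^ 2) := by
    exact_mod_cast e2 h
  have h1 := (s2_bd h hv).1
  have h2 : 0 ≤ (Z : ℤ) ^ 2 * ((X 4 : ℤ) * X 3 * (X 9 : ℤ) ^ 2) := by positivity
  have h3 := (s3_bd h hv).2
  rw [e] at h3
  exact gap (sq_nonneg _) h3 (by linarith)

theorem c20 (h : Reg X Z) (hv : v ∈ Box X) : (Z : ℤ) ^ 2 * site v 2 < site v 0 := by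
  have k : 1048576 * (Z : ℤ) ^ 2 * ((X 2 : ℤ) * X 4 * (X 6 : ℤ) ^ 2) ≤ X 0 := by
    exact_mod_cast k4 h
  have h1 := lo hv 0
  have h2 : 0 ≤ (Z : ℤ) ^ 2 * ((X 2 : ℤ) * X 4 * (X 6 : ℤ) ^ 2) := by positivity
  rw [s0]
  exact gap (sq_nonneg _) (s2_bd h hv).2 (by linarith)

theorem c01 (h : Reg X Z) (hv : v ∈ Box X) : (Z : ℤ) ^ 2 * site v 0 < site v 1 := by
  have k : 1048576 * (Z : ℤ) ^ 2 * X 0 ≤ X 1 := by exact_mod_cast k01 h
  have h1 := lo hv 1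
  have h2 : 0 ≤ (Z : ℤ) ^ 2 * X 0 := by positivity
  rw [s0, s1]
  exact gap (sq_nonneg _) (hi hv 0) (by linarith)

theorem c1B (h : Reg X Z) (hv : v ∈ Box X) : (Z : ℤ) ^ 2 * site v 1 < site v 11 := by
  have k : 1048576 * (Z : ℤ) ^ 2 * X 1 ≤ (X 4 : ℤ) * X 1 * (X 9 : ℤ) ^ 2 := by exact_mod_cast k1B h
  have h1 := (s11_bd h hv).1
  have h2 : 0 ≤ (Z : ℤ) ^ 2 * X 1 := by positivity
  rw [s1]
  exact gap (sq_nonneg _) (hi hv 1) (by linarith)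

theorem cBA (h : Reg X Z) (hv : v ∈ Box X) : (Z : ℤ) ^ 2 * site v 11 < site v 10 := by
  have k : 1048576 * (Z : ℤ) ^ 2 * ((X 4 : ℤ) * X 1 * (X 9 : ℤ) ^ 2) ≤
      (X 5 : ℤ) * X 1 * (X 8 : ℤ) ^ 2 := by exact_mod_cast kBA h
  have e : (X 0 : ℤ) * X 4 * (X 6 : ℤ) ^ 2 = 256 * ((X 5 : ℤ) * X 1 * (X 8 : ℤ) ^ 2) := by
    exact_mod_cast h.b1
  have h1 := (s10_bd h hv).1
  have h2 : 0 ≤ (Z : ℤ) ^ 2 * ((X 4 : ℤ) * X 1 * (X 9 : ℤ) ^ 2) := by positivity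
  exact gap (sq_nonneg _) (s11_bd h hv).2 (by linarith)

theorem cA7 (h : Reg X Z) (hv : v ∈ Box X) : (Z : ℤ) ^ 2 * site v 10 < site v 7 := by
  have k : 1048576 * (Z : ℤ) ^ 2 * ((X 5 : ℤ) * X 1 * (X 8 : ℤ) ^ 2) ≤
      (X 2 : ℤ) * X 1 * (X 8 : ℤ) ^ 2 := by exact_mod_cast kA7 h
  have e : (X 0 : ℤ) * X 4 * (X 6 : ℤ) ^ 2 = 256 * ((X 5 : ℤ) * X 1 * (X 8 : ℤ) ^ 2) := by
    exact_mod_cast h.b1
  have h1 := (s7_bd h hv).1
  have h2 : 0 ≤ (Z : ℤ) ^ 2 * ((X 5 : ℤ) * X 1 * (X 8 : ℤ) ^ 2) := by positivity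
  have h3 := (s10_bd h hv).2
  rw [e] at h3
  exact gap (sq_nonneg _) h3 (by linarith)

theorem c76 (h : Reg X Z) (hv : v ∈ Box X) : (Z : ℤ) ^ 2 * site v 7 < site v 6 := by
  have k : 1048576 * (Z : ℤ) ^ 2 * ((X 2 : ℤ) * X 1 * (X 8 : ℤ) ^ 2) ≤
      (X 0 : ℤ) * X 2 * (X 6 : ℤ) ^ 2 := by exact_mod_cast k76 h
  have h1 := (s6_bd h hv).1
  have h2 : 0 ≤ (Z : ℤ) ^ 2 * ((X 2 : ℤ) * X 1 * (X 8 : ℤ) ^ 2) := by positivity
  exact gap (sq_nonneg _) (s7_bd h hv).2 (by linarith)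

/-- The sites in increasing order. -/
def ord : Fin 12 → Fin 12 := ![4, 5, 8, 9, 3, 2, 0, 1, 11, 10, 7, 6]

/-- The place of a site in the increasing order. -/
def rk : Fin 12 → Fin 12 := ![6, 7, 5, 4, 0, 1, 11, 10, 2, 3, 9, 8]

theorem ord_rk : ∀ σ, ord (rk σ) = σ := by decide

theorem step (h : Reg X Z) (hv : v ∈ Box X) (i : Fin 11) :
    (Z : ℤ) ^ 2 * site v (ord i.castSucc) < site v (ord i.succ) := by
  fin_cases i
  exacts [c45 h hv, c58 h hv, c89 h hv, c93 h hv, c32 h hv, c20 h hv, c01 h hv, c1B h hv,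
    cBA h hv, cA7 h hv, c76 h hv]

theorem zsq (h : Reg X Z) : 1 ≤ (Z : ℤ) ^ 2 := by
  have : 1 ≤ Z ^ 2 := Nat.pow_pos (zpos h)
  exact_mod_cast this

theorem ord_lo (h : Reg X Z) (hv : v ∈ Box X) (i : Fin 12) : (Z : ℤ) ^ 2 < site v (ord i) := by
  induction i using Fin.induction with
  | zero => exact c4 h hv
  | succ i ih =>
    have h1 := step h hv i
    have h2 := zsq h
    nlinarith

theorem ord_mono (h : Reg X Z) (hv : v ∈ Box X) : StrictMono fun i => site v (ord i) := by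
  rw [Fin.strictMono_iff_lt_succ]
  intro i
  have h1 := step h hv i
  have h2 := zsq h
  have h3 := ord_lo h hv i.castSucc
  nlinarith

theorem ord_gap (h : Reg X Z) (hv : v ∈ Box X) {i j : Fin 12} (hij : i < j) :
    (Z : ℤ) ^ 2 * site v (ord i) < site v (ord j) := by
  obtain ⟨k, rfl⟩ := Fin.exists_succ_eq.2 (Fin.ne_zero_of_lt hij)
  have h1 : i ≤ k.castSucc := Fin.le_castSucc_iff.2 hij
  exact gap (sq_nonneg _) ((ord_mono h hv).monotone h1) (step h hv k)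

/-- Every site exceeds `Z ^ 2`. -/
theorem site_lo (h : Reg X Z) (hv : v ∈ Box X) (σ : Fin 12) : (Z : ℤ) ^ 2 < site v σ := by
  have := ord_lo h hv (rk σ)
  rwa [ord_rk] at this

theorem site_pos (h : Reg X Z) (hv : v ∈ Box X) (σ : Fin 12) : 0 < site v σ :=
  lt_of_le_of_lt (sq_nonneg _) (site_lo h hv σ)

/-- The gaps between the sites. -/
theorem site_gap (h : Reg X Z) (hv : v ∈ Box X) {σ τ : Fin 12} (hστ : rk σ < rk τ) :
    (Z : ℤ) ^ 2 * site v σ < site v τ := by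
  have := ord_gap h hv hστ
  rwa [ord_rk, ord_rk] at this

theorem site_gap' (h : Reg X Z) (hv : v ∈ Box X) {σ τ : Fin 12} (hστ : σ ≠ τ) :
    (Z : ℤ) ^ 2 * site v σ < site v τ ∨ (Z : ℤ) ^ 2 * site v τ < site v σ := by
  have h1 : rk σ ≠ rk τ := fun e => hστ (by rw [← ord_rk σ, e, ord_rk])
  rcases lt_or_gt_of_ne h1 with h2 | h2
  · exact Or.inl (site_gap h hv h2)
  · exact Or.inr (site_gap h hv h2)

theorem sep (h : Reg X Z) (hv : v ∈ Box X) : Sep Z v := by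
  refine ⟨site_lo h hv, fun σ τ hστ => ?_⟩
  have hz : (Z : ℤ) ≤ (Z : ℤ) ^ 2 := by
    have : Z ≤ Z ^ 2 := Nat.le_self_pow (by norm_num) _
    exact_mod_cast this
  rcases site_gap' h hv hστ with h1 | h1
  · exact Or.inl (lt_of_le_of_lt (mul_le_mul_of_nonneg_right hz (site_pos h hv σ).le) h1)
  · exact Or.inr (lt_of_le_of_lt (mul_le_mul_of_nonneg_right hz (site_pos h hv τ).le) h1)

/-- The largest site is the sixth. -/
theorem site_le6 (h : Reg X Z) (hv : v ∈ Box X) (σ : Fin 12) : site v σ ≤ site v 6 := by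
  have := (ord_mono h hv).monotone (Fin.le_last (rk σ))
  simp only [ord_rk] at this
  exact this

/-- Every site is at most `X 0 ^ 2`. -/
theorem site_hi2 (h : Reg X Z) (hv : v ∈ Box X) (σ : Fin 12) : site v σ ≤ (X 0 : ℤ) ^ 2 := by
  have k : 16 * (X 0 * X 2 * X 6 ^ 2) ≤ X 0 ^ 2 := by
    calc 16 * (X 0 * X 2 * X 6 ^ 2) ≤ X 2 * (X 0 * X 2 * X 2 ^ 2) :=
          Nat.mul_le_mul (le_trans (by norm_num) ((big7 h).trans (x7_x2 h)))
            (Nat.mul_le_mul le_rfl (Nat.pow_le_pow_left (x6_x2 h) 2))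
      _ = X 0 * X 2 ^ 4 := by ring
      _ ≤ X 0 * X 0 := Nat.mul_le_mul_left _ (x2_pow h 4 (by norm_num))
      _ = X 0 ^ 2 := by ring
  have k' : 16 * ((X 0 : ℤ) * X 2 * (X 6 : ℤ) ^ 2) ≤ (X 0 : ℤ) ^ 2 := by exact_mod_cast k
  exact (site_le6 h hv σ).trans ((s6_bd h hv).2.trans k')

theorem site_hi (h : Reg X Z) (hv : v ∈ Box X) (σ : Fin 12) : site v σ ≤ (X 0 : ℤ) ^ 20 := by
  have h0 : (1 : ℤ) ≤ X 0 := by exact_mod_cast x0_pos h
  exact (site_hi2 h hv σ).trans (pow_le_pow_right₀ h0 (by norm_num))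

theorem mon4 (hv : v ∈ Box X) (l i j k : Fin 10) :
    0 < v l * (v i * v j * v k ^ 2) ∧
      v l * (v i * v j * v k ^ 2) ≤ 32 * ((X l : ℤ) * ((X i : ℤ) * X j * (X k : ℤ) ^ 2)) := by
  refine ⟨mul_pos (vpos hv l) (mon_pos hv i j k), ?_⟩
  calc v l * (v i * v j * v k ^ 2) ≤ (2 * (X l : ℤ)) * (16 * ((X i : ℤ) * X j * (X k : ℤ) ^ 2)) :=
        mul_le_mul (hi hv l) (mon_hi hv i j k) (mon_pos hv i j k).le (by positivity)
    _ = _ := by ring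

theorem zz_hi (h : Reg X Z) (hv : v ∈ Box X) (i : Fin 4) :
    |zz v i| ≤ 32 * ((X 0 : ℤ) * X 2 * X 4 * X 6 ^ 2) := by
  have e1 : (X 0 : ℤ) * X 4 * (X 6 : ℤ) ^ 2 = 256 * ((X 5 : ℤ) * X 1 * (X 8 : ℤ) ^ 2) := by
    exact_mod_cast h.b1
  have e2' : (X 2 : ℤ) * X 4 * (X 6 : ℤ) ^ 2 = 262144 * ((X 5 : ℤ) * X 3 * (X 7 : ℤ) ^ 2) := by
    exact_mod_cast e2 h
  have e6' : (X 0 : ℤ) * X 2 * (X 6 : ℤ) ^ 2 = 16384 * ((X 3 : ℤ) * X 1 * (X 9 : ℤ) ^ 2) := by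
    exact_mod_cast e6 h
  fin_cases i
  · obtain ⟨a, b⟩ := mon4 hv 0 2 4 6
    show |v 0 * v 2 * v 4 * v 6 ^ 2| ≤ _
    rw [abs_of_nonneg (by linarith)]
    linarith
  · obtain ⟨a, b⟩ := mon4 hv 0 5 3 7
    have c : (X 0 : ℤ) * X 2 * X 4 * X 6 ^ 2 =
        262144 * ((X 0 : ℤ) * ((X 5 : ℤ) * X 3 * (X 7 : ℤ) ^ 2)) := by
      linear_combination (X 0 : ℤ) * e2'
    show |v 0 * v 5 * v 3 * v 7 ^ 2| ≤ _
    rw [abs_of_nonneg (by linarith), c]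
    linarith
  · obtain ⟨a, b⟩ := mon4 hv 2 5 1 8
    have c : (X 0 : ℤ) * X 2 * X 4 * X 6 ^ 2 =
        256 * ((X 2 : ℤ) * ((X 5 : ℤ) * X 1 * (X 8 : ℤ) ^ 2)) := by
      linear_combination (X 2 : ℤ) * e1
    show |4 * v 2 * v 5 * v 1 * v 8 ^ 2| ≤ _
    rw [abs_of_nonneg (by linarith), c]
    linarith
  · obtain ⟨a, b⟩ := mon4 hv 4 3 1 9
    have c : (X 0 : ℤ) * X 2 * X 4 * X 6 ^ 2 =
        16384 * ((X 4 : ℤ) * ((X 3 : ℤ) * X 1 * (X 9 : ℤ) ^ 2)) := by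
      linear_combination (X 4 : ℤ) * e6'
    show |4 * v 4 * v 3 * v 1 * v 9 ^ 2| ≤ _
    rw [abs_of_nonneg (by linarith), c]
    linarith

end DSep

theorem dSz : DSz := fun _ _ h _ hv =>
  ⟨DSep.vpos hv, DSep.sep h hv, DSep.site_hi h hv, DSep.zz_hi h hv⟩

end Pool.Agent.MP_e23604_nt.U

end
end

section

/-!
The product of the sites is squarefree and determines the small parts.
-/

open Finset
open scoped Classical

namespace Pool.Agent.MP_e23604_nt.U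

open P (sy ep lam)

namespace DSqJ

theorem st_eq {s : S12} (hs : Squarefree (SP s)) {l : ℕ} (hl : l.Prime) {k : Fin 12}
    (h : l ∣ s k) : st s l = k := by
  have he : ∃ σ, l ∣ s σ := ⟨k, h⟩
  rw [st, dif_pos he]
  by_contra hne
  have h1 : s he.choose * s k ∣ SP s := by
    rw [← Finset.prod_pair hne]
    exact Finset.prod_dvd_prod_of_subset _ _ _ (subset_univ _)
  exact hl.ne_one (Nat.isUnit_iff.1 (hs l ((mul_dvd_mul he.choose_spec h).trans h1)))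

theorem dvd_site {s : S12} {v : V10} (hs : Squarefree (SP s)) (hc : Cond s v) (k : Fin 12) :
    (s k : ℤ) ∣ site v k := by
  have hk : s k ∣ SP s := Finset.dvd_prod_of_mem _ (mem_univ k)
  rw [Int.natCast_dvd, ← Nat.prod_primeFactors_of_squarefree (hs.squarefree_of_dvd hk)]
  refine Finset.prod_primes_dvd _ (fun l hl => (Nat.prime_of_mem_primeFactors hl).prime)
    fun l hl => ?_
  have h1 := Nat.prime_of_mem_primeFactors hl
  have h2 := Nat.dvd_of_mem_primeFactors hl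
  have h3 := (hc.2 l (Nat.mem_primeFactors.2 ⟨h1, h2.trans hk, hs.ne_zero⟩)).1
  rw [st_eq hs h1 h2] at h3
  exact Int.natCast_dvd.1 h3

theorem fac {Z : ℕ} {v : V10} {s : S12} (hS : Sep Z v) (hs : s ∈ SSet Z) (hc : Cond s v)
    (hp : ∀ σ, (qq s v σ).toNat.Prime) :
    ∃ P : Fin 12 → ℕ, (∀ σ, (P σ).Prime ∧ qq s v σ = P σ ∧ site v σ = (s σ * P σ : ℕ) ∧
      Z < P σ ∧ 1 ≤ s σ ∧ s σ ≤ Z) ∧ Squarefree (SP s) ∧ SP s ≤ Z := by
  obtain ⟨h1, ⟨h2, -⟩, h3⟩ := Finset.mem_filter.1 hs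
  refine ⟨fun σ => (qq s v σ).toNat, fun σ => ?_, h2, h3⟩
  obtain ⟨h4, h5⟩ := Finset.mem_Icc.1 (Fintype.mem_piFinset.1 h1 σ)
  have h6 : qq s v σ = ((qq s v σ).toNat : ℤ) := by
    have := (hp σ).two_le
    omega
  have h7 : site v σ = (s σ * (qq s v σ).toNat : ℕ) := by
    rw [Nat.cast_mul, ← h6, qq, Int.mul_ediv_cancel' (dvd_site h2 hc σ)]
  refine ⟨hp σ, h6, h7, ?_, h4, h5⟩
  have h8 := hS.1 σ
  rw [h7] at h8
  have h9 : Z ^ 2 < s σ * (qq s v σ).toNat := by exact_mod_cast h8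
  by_contra h10
  have h11 := Nat.mul_le_mul h5 (not_lt.1 h10)
  rw [← sq] at h11
  exact absurd h9 (not_lt.2 h11)

end DSqJ

theorem dSq : DSq := by
  intro Z v s hS hs hc hp
  obtain ⟨P, hP, hsq, hZ⟩ := DSqJ.fac hS hs hc hp
  have hne : ∀ k t, (Z : ℤ) * site v k < site v t → P k ≠ P t := by
    intro k t h e
    obtain ⟨-, -, h1, -, h2, -⟩ := hP k
    obtain ⟨-, -, h3, -, -, h4⟩ := hP t
    rw [h1, h3, e] at h
    have h5 : Z * (s k * P t) < s t * P t := by exact_mod_cast h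
    have h6 : s t * P t ≤ Z * (s k * P t) :=
      Nat.mul_le_mul h4 (Nat.le_mul_of_pos_left _ h2)
    omega
  refine ⟨?_, fun σ => ?_, fun s' hs' hc' hp' => ?_⟩
  · have e : ∏ σ, site v σ = ((SP s * ∏ σ, P σ : ℕ) : ℤ) := by
      rw [SP, ← Finset.prod_mul_distrib, Nat.cast_prod]
      exact Finset.prod_congr rfl fun σ _ => (hP σ).2.2.1
    rw [e, Int.squarefree_natCast, Nat.squarefree_mul_iff]
    refine ⟨Nat.Coprime.prod_right fun σ _ => ?_, hsq, ?_⟩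
    · exact ((Nat.Prime.coprime_iff_not_dvd (hP σ).1).2 fun h => by
        have := Nat.le_of_dvd (Nat.pos_of_ne_zero hsq.ne_zero) h
        have := (hP σ).2.2.2.1
        omega).symm
    · refine Finset.squarefree_prod_of_pairwise_isCoprime (fun k _ t _ h => ?_)
        fun σ _ => (hP σ).1.prime.squarefree
      refine Nat.coprime_iff_isRelPrime.1 ((Nat.coprime_primes (hP k).1 (hP t).1).2 ?_)
      rcases hS.2 k t h with h1 | h1
      · exact hne k t h1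
      · exact (hne t k h1).symm
  · obtain ⟨-, h1, h2, -, h3, -⟩ := hP σ
    rw [h1, h2]
    exact_mod_cast Nat.le_mul_of_pos_left _ h3
  · obtain ⟨P', hP', -, -⟩ := DSqJ.fac hS hs' hc' hp'
    funext σ
    obtain ⟨h1, -, h2, h3, -, -⟩ := hP σ
    obtain ⟨h4, -, h5, -, h6, h7⟩ := hP' σ
    have h8 : s σ * P σ = s' σ * P' σ := by exact_mod_cast h2.symm.trans h5
    have h9 : P σ ∣ s' σ * P' σ := h8 ▸ Dvd.intro_left _ rfl
    have h10 : P σ = P' σ := by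
      rcases (Nat.Prime.dvd_mul h1).1 h9 with h | h
      · have := Nat.le_of_dvd h6 h
        omega
      · exact (Nat.prime_dvd_prime_iff_eq h1 h4).1 h
    rw [h10] at h8
    exact (Nat.eq_of_mul_eq_mul_right h4.pos h8).symm

end Pool.Agent.MP_e23604_nt.U

end

section

/-!
A good point is determined by its four integers.
-/

open Finset
open scoped Classical

namespace Pool.Agent.MP_e23604_nt.U

open P (sy ep lam)

namespace DInjJ

theorem key {a b c e u w S k : ℤ} (hsq : Squarefree (S * (a * b * c * e))) (hk : k ∣ 4)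
    (h : a * b * u ^ 2 - k * (c * e * w ^ 2) ∣ 4 * S) (hodd : Odd (a * b * u ^ 2)) :
    IsCoprime (a * b * u ^ 2) (k * (c * e * w ^ 2)) := by
  apply isCoprime_of_prime_dvd
  · rintro ⟨h0, -⟩
    rw [h0] at hodd
    exact absurd hodd (by decide)
  intro p hp h1 h2
  have n4 : ¬ p ∣ 4 := by
    intro h4
    have h2' : p ∣ 2 := hp.dvd_of_dvd_pow (n := 2) (by norm_num; exact h4)
    obtain ⟨m, hm⟩ := hodd
    rw [hm] at h1
    exact hp.not_dvd_one ((dvd_add_right (h2'.mul_right m)).1 h1)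
  have c4 : IsCoprime p 4 := (hp.irreducible.coprime_iff_not_dvd).2 n4
  have hS : p ∣ S := c4.dvd_of_dvd_mul_left ((dvd_sub h1 h2).trans h)
  have hn : ¬ p ∣ a * b * c * e := fun hd => hp.not_isUnit (hsq p (mul_dvd_mul hS hd))
  have hu : p ∣ u := by
    rcases hp.dvd_or_dvd h1 with h' | h'
    · exact absurd ((h'.mul_right c).mul_right e) hn
    · exact hp.dvd_of_dvd_pow h'
  have hw : p ∣ w := by
    rcases hp.dvd_or_dvd h2 with h' | h'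
    · exact absurd (h'.trans hk) n4
    rcases hp.dvd_or_dvd h' with h' | h'
    · exact absurd (h'.trans ⟨a * b, by ring⟩) hn
    · exact hp.dvd_of_dvd_pow h'
  obtain ⟨u', rfl⟩ := hu
  obtain ⟨w', rfl⟩ := hw
  have h3 : p * p ∣ 4 * S :=
    Dvd.dvd.trans ⟨a * b * u' ^ 2 - k * (c * e * w' ^ 2), by ring⟩ h
  exact hp.not_isUnit (hsq p (((c4.mul_left c4).dvd_of_dvd_mul_left h3).mul_right _))

theorem dv {m m' A B A' B' : ℤ} (h1 : m * A = m' * A') (h2 : m * B = m' * B')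
    (hc : IsCoprime A' B') : m ∣ m' := by
  obtain ⟨x, y, hxy⟩ := hc
  exact ⟨x * A + y * B, by linear_combination (-m') * hxy - x * h1 - y * h2⟩

theorem eqm {m m' A B A' B' : ℤ} (hm : 0 < m) (hm' : 0 < m') (h1 : m * A = m' * A')
    (h2 : m * B = m' * B') (hc : IsCoprime A B) (hc' : IsCoprime A' B') : m = m' :=
  Int.dvd_antisymm hm.le hm'.le (dv h1 h2 hc') (dv h1.symm h2.symm hc)

theorem pr (f : Fin 12 → ℤ) : ∏ σ, f σ =
    f 0 * f 1 * f 2 * f 3 * f 4 * f 5 * f 6 * f 7 * f 8 * f 9 * f 10 * f 11 := by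
  simp only [Fin.prod_univ_succ, Fin.prod_univ_zero, mul_one, mul_assoc]
  rfl

theorem cop (v : V10) (h : GV v) :
    IsCoprime (v 2 * v 4 * v 6 ^ 2) (1 * (v 5 * v 3 * v 7 ^ 2)) ∧
    IsCoprime (v 0 * v 4 * v 6 ^ 2) (4 * (v 5 * v 1 * v 8 ^ 2)) ∧
    IsCoprime (v 0 * v 2 * v 6 ^ 2) (4 * (v 3 * v 1 * v 9 ^ 2)) ∧
    IsCoprime (v 0 * v 3 * v 7 ^ 2) (4 * (v 2 * v 1 * v 8 ^ 2)) ∧
    IsCoprime (v 0 * v 5 * v 7 ^ 2) (4 * (v 4 * v 1 * v 9 ^ 2)) ∧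
    IsCoprime (v 2 * v 5 * v 8 ^ 2) (1 * (v 4 * v 3 * v 9 ^ 2)) := by
  obtain ⟨-, hm, hsq, -⟩ := h
  have m0 : v 0 % 240 = 81 := hm 0
  have m2 : v 2 % 240 = 181 := hm 2
  have m3 : v 3 % 240 = 1 := hm 3
  have m4 : v 4 % 240 = 1 := hm 4
  have m5 : v 5 % 240 = 17 := hm 5
  have m6 : v 6 % 240 = 1 := hm 6
  have m7 : v 7 % 240 = 1 := hm 7
  have m8 : v 8 % 240 = 1 := hm 8
  have o0 : Odd (v 0) := Int.odd_iff.2 (by omega)
  have o2 : Odd (v 2) := Int.odd_iff.2 (by omega)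
  have o3 : Odd (v 3) := Int.odd_iff.2 (by omega)
  have o4 : Odd (v 4) := Int.odd_iff.2 (by omega)
  have o5 : Odd (v 5) := Int.odd_iff.2 (by omega)
  have o6 : Odd (v 6) := Int.odd_iff.2 (by omega)
  have o7 : Odd (v 7) := Int.odd_iff.2 (by omega)
  have o8 : Odd (v 8) := Int.odd_iff.2 (by omega)
  have e2 : 4 * site v 2 = v 2 * v 4 * v 6 ^ 2 - v 5 * v 3 * v 7 ^ 2 := by
    apply Int.mul_ediv_cancel'
    have q2 : v 2 ≡ 1 [ZMOD 4] := by unfold Int.ModEq; omega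
    have q3 : v 3 ≡ 1 [ZMOD 4] := by unfold Int.ModEq; omega
    have q4 : v 4 ≡ 1 [ZMOD 4] := by unfold Int.ModEq; omega
    have q5 : v 5 ≡ 1 [ZMOD 4] := by unfold Int.ModEq; omega
    have q6 : v 6 ≡ 1 [ZMOD 4] := by unfold Int.ModEq; omega
    have q7 : v 7 ≡ 1 [ZMOD 4] := by unfold Int.ModEq; omega
    exact (((q5.mul q3).mul (q7.pow 2)).trans ((q2.mul q4).mul (q6.pow 2)).symm).dvd
  have e3 : site v 3 = v 2 * v 5 * v 8 ^ 2 - v 4 * v 3 * v 9 ^ 2 := rfl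
  have e6 : site v 6 = v 0 * v 2 * v 6 ^ 2 - 4 * v 3 * v 1 * v 9 ^ 2 := rfl
  have e7 : site v 7 = 4 * v 2 * v 1 * v 8 ^ 2 - v 0 * v 3 * v 7 ^ 2 := rfl
  have e10 : site v 10 = v 0 * v 4 * v 6 ^ 2 - 4 * v 5 * v 1 * v 8 ^ 2 := rfl
  have e11 : site v 11 = 4 * v 4 * v 1 * v 9 ^ 2 - v 0 * v 5 * v 7 ^ 2 := rfl
  have hp : ∏ σ, site v σ = v 0 * v 1 * site v 2 * site v 3 * v 4 * v 5 * site v 6 * site v 7 *
      v 2 * v 3 * site v 10 * site v 11 := pr _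
  rw [hp] at hsq
  generalize site v 2 = s2 at *
  generalize site v 3 = s3 at *
  generalize site v 6 = s6 at *
  generalize site v 7 = s7 at *
  generalize site v 10 = s10 at *
  generalize site v 11 = s11 at *
  refine ⟨key (S := s2) (hsq.squarefree_of_dvd ⟨v 0 * v 1 * s3 * s6 * s7 * s10 * s11, by ring⟩)
      (one_dvd _) ⟨1, by rw [e2]; ring⟩ ((o2.mul o4).mul o6.pow),
    key (S := s10) (hsq.squarefree_of_dvd ⟨v 2 * v 3 * s3 * s6 * s7 * s2 * s11, by ring⟩)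
      dvd_rfl ⟨4, by rw [e10]; ring⟩ ((o0.mul o4).mul o6.pow),
    key (S := s6) (hsq.squarefree_of_dvd ⟨v 4 * v 5 * s3 * s10 * s7 * s2 * s11, by ring⟩)
      dvd_rfl ⟨4, by rw [e6]; ring⟩ ((o0.mul o2).mul o6.pow),
    key (S := s7) (hsq.squarefree_of_dvd ⟨v 4 * v 5 * s3 * s10 * s6 * s2 * s11, by ring⟩)
      dvd_rfl ⟨-4, by rw [e7]; ring⟩ ((o0.mul o3).mul o7.pow),
    key (S := s11) (hsq.squarefree_of_dvd ⟨v 2 * v 3 * s3 * s10 * s6 * s2 * s7, by ring⟩)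
      dvd_rfl ⟨-4, by rw [e11]; ring⟩ ((o0.mul o5).mul o7.pow),
    key (S := s3) (hsq.squarefree_of_dvd ⟨v 0 * v 1 * s11 * s10 * s6 * s2 * s7, by ring⟩)
      (one_dvd _) ⟨4, by rw [e3]; ring⟩ ((o2.mul o5).mul o8.pow)⟩

theorem sq {a x y : ℤ} (ha : 0 < a) (hx : 0 < x) (hy : 0 < y) (h : a * x ^ 2 = a * y ^ 2) :
    x = y :=
  (pow_left_inj₀ hx.le hy.le two_ne_zero).1 (mul_left_cancel₀ ha.ne' h)

end DInjJ

open DInjJ in
theorem dInj : DInj := by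
  intro v w hv hw h
  obtain ⟨a1, a2, a3, a4, a5, a6⟩ := cop v hv
  obtain ⟨b1, b2, b3, b4, b5, b6⟩ := cop w hw
  have pv := hv.1
  have pw := hw.1
  have z0 : v 0 * v 2 * v 4 * v 6 ^ 2 = w 0 * w 2 * w 4 * w 6 ^ 2 := congrFun h 0
  have z1 : v 0 * v 5 * v 3 * v 7 ^ 2 = w 0 * w 5 * w 3 * w 7 ^ 2 := congrFun h 1
  have z2 : 4 * v 2 * v 5 * v 1 * v 8 ^ 2 = 4 * w 2 * w 5 * w 1 * w 8 ^ 2 := congrFun h 2
  have z3 : 4 * v 4 * v 3 * v 1 * v 9 ^ 2 = 4 * w 4 * w 3 * w 1 * w 9 ^ 2 := congrFun h 3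
  have e0 : v 0 = w 0 := eqm (pv 0) (pw 0) (by linear_combination z0) (by linear_combination z1) a1 b1
  have e2 : v 2 = w 2 := eqm (pv 2) (pw 2) (by linear_combination z0) (by linear_combination z2) a2 b2
  have e4 : v 4 = w 4 := eqm (pv 4) (pw 4) (by linear_combination z0) (by linear_combination z3) a3 b3
  have e5 : v 5 = w 5 := eqm (pv 5) (pw 5) (by linear_combination z1) (by linear_combination z2) a4 b4
  have e3 : v 3 = w 3 := eqm (pv 3) (pw 3) (by linear_combination z1) (by linear_combination z3) a5 b5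
  have e1 : v 1 = w 1 := by
    have : 4 * v 1 = 4 * w 1 := eqm (by have := pv 1; omega) (by have := pw 1; omega)
      (by linear_combination z2) (by linear_combination z3) a6 b6
    omega
  have p0 := pw 0
  have p1 := pw 1
  have p2 := pw 2
  have p3 := pw 3
  have p4 := pw 4
  have p5 := pw 5
  rw [e0, e2, e4] at z0
  rw [e0, e5, e3] at z1
  rw [e2, e5, e1] at z2
  rw [e4, e3, e1] at z3
  have e6 : v 6 = w 6 := sq (by positivity) (pv 6) (pw 6) z0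
  have e7 : v 7 = w 7 := sq (by positivity) (pv 7) (pw 7) z1
  have e8 : v 8 = w 8 := sq (by positivity) (pv 8) (pw 8) z2
  have e9 : v 9 = w 9 := sq (by positivity) (pv 9) (pw 9) z3
  funext i
  fin_cases i
  exacts [e0, e1, e2, e3, e4, e5, e6, e7, e8, e9]

end Pool.Agent.MP_e23604_nt.U

end

section

/-!
The number of good points in one box.
-/

open Finset
open scoped Classical

namespace Pool.Agent.MP_e23604_nt.U

open P (sy ep lam)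

namespace DOneJ

theorem ne {s : S12} {v : V10} (h : GG s v * F0 s v ≠ 0) :
    GG s v = 1 ∧ Cond s v ∧ Bits s v ∧ (∀ σ, (qq s v σ).toNat.Prime) ∧
      F0 s v = ∏ σ, lam (qq s v σ) := by
  have h1 := left_ne_zero_of_mul h
  have h2 := right_ne_zero_of_mul h
  unfold GG at h1
  unfold F0 at h2
  split_ifs at h1 h2 with a b
  · refine ⟨by rw [GG, if_pos a], a.1, b.2, fun σ => ?_, by rw [F0, if_pos b]⟩
    by_contra e
    exact h2 (prod_eq_zero (mem_univ σ) (by rw [lam, if_neg e]))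
  · exact absurd rfl h2
  · exact absurd rfl h1
  · exact absurd rfl h1

theorem inner (hA : IA) (hSz : DSz) (hSq : DSq) {X : Fin 10 → ℕ} {Z : ℕ} (hR : Reg X Z)
    (h2 : 2 ≤ X 0) {v : V10} (hv : v ∈ Box X) :
    ∑ s ∈ SSet Z, GG s v * F0 s v ≤ if GV v then (20 * Real.log (X 0)) ^ 12 else 0 := by
  have hL : 0 ≤ Real.log (X 0) := Real.log_natCast_nonneg _
  by_cases h : ∃ s ∈ SSet Z, GG s v * F0 s v ≠ 0
  · obtain ⟨s, hs, h⟩ := h
    obtain ⟨a1, a2, a3, a4, a5⟩ := ne h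
    obtain ⟨b1, b2, b3, -⟩ := hSz X Z hR v hv
    obtain ⟨c1, c2, c3⟩ := hSq Z v s b2 hs a2 a4
    have hG : GV v := ⟨b1, a2.1, c1, hA s v (mem_filter.1 hs).2.1 b1
      (fun σ => (sq_nonneg _).trans_lt (b2.1 σ)) (by rw [a1]; exact one_ne_zero) a3 a4 c1⟩
    rw [if_pos hG, sum_eq_single s, a1, one_mul, a5]
    · have : ∀ σ, 0 ≤ lam (qq s v σ) ∧ lam (qq s v σ) ≤ 20 * Real.log (X 0) := fun σ => by
        have q1 : 1 ≤ qq s v σ := by have := (a4 σ).one_lt; omega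
        have q2 : (1 : ℝ) ≤ qq s v σ := by exact_mod_cast q1
        have q3 : (qq s v σ : ℝ) ≤ (X 0 : ℝ) ^ 20 := by exact_mod_cast (c2 σ).trans (b3 σ)
        rw [lam, if_pos (a4 σ)]
        refine ⟨Real.log_nonneg q2, (Real.log_le_log (by linarith) q3).trans ?_⟩
        rw [Real.log_pow]
        norm_num
      refine (prod_le_prod (fun σ _ => (this σ).1) fun σ _ => (this σ).2).trans ?_
      simp
    · intro s' hs' e
      by_contra h'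
      obtain ⟨-, d2, -, d4, -⟩ := ne h'
      exact e (c3 s' hs' d2 d4)
    · exact fun e => absurd hs e
  · push Not at h
    rw [sum_eq_zero h]
    split_ifs
    · positivity
    · exact le_rfl

end DOneJ

end Pool.Agent.MP_e23604_nt.U

end

section

open Finset
open scoped Classical

namespace Pool.Agent.MP_e23604_nt.U

open P (sy ep lam)

namespace DParJ

theorem peel {p m : ℕ} (hp : p.Prime) {a : Fin 4 → ℕ} (h : ∏ i, a i = p * m) :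
    ∃ (i : Fin 4) (b : Fin 4 → ℕ), (∀ k, a k = b k * if k = i then p else 1) ∧ ∏ k, b k = m := by
  obtain ⟨i, -, c, hc⟩ := (Prime.dvd_finsetProd_iff hp.prime a).1 ⟨m, h⟩
  have e : ∀ k, a k = (if k = i then c else a k) * if k = i then p else 1 := fun k => by
    split_ifs with hk
    · rw [hk, hc, mul_comm]
    · rw [mul_one]
  refine ⟨i, _, e, Nat.eq_of_mul_eq_mul_left hp.pos ?_⟩
  rw [← h, prod_congr rfl fun k _ => e k, prod_mul_distrib, prod_ite_eq', if_pos (mem_univ _),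
    mul_comm]

theorem mat (s : ℕ) : ∀ a : Fin 4 → ℕ, s ≠ 0 → ∏ i, a i = s * s →
    ∃ M : Fin 4 → Fin 4 → ℕ, ∀ k, a k = (∏ l, M k l) * ∏ l, M l k := by
  induction s using induction_on_primes with
  | zero => exact fun _ h => absurd rfl h
  | one => exact fun a _ h => ⟨fun _ _ => 1, fun k => by
      simpa using (Finset.prod_eq_one_iff_of_one_le' (fun i _ => Nat.pos_of_ne_zero fun e =>
        by rw [prod_eq_zero (mem_univ i) e] at h; simp at h)).1 h k (mem_univ k)⟩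
  | prime_mul p s hp ih =>
    intro a h0 h
    obtain ⟨i, b, e1, h1⟩ := peel (m := p * (s * s)) hp (h.trans (by ring))
    obtain ⟨j, c, e2, h2⟩ := peel hp h1
    obtain ⟨M, hM⟩ := ih c (right_ne_zero_of_mul h0) h2
    refine ⟨fun k l => M k l * if k = i then (if l = j then p else 1) else 1, fun k => ?_⟩
    have a1 : ∏ l, (if k = i then (if l = j then p else 1) else 1) = if k = i then p else 1 := by
      split_ifs <;> simp
    rw [prod_mul_distrib, prod_mul_distrib, a1, prod_ite_eq', if_pos (mem_univ _), e1, e2, hM]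
    ring

end DParJ

theorem dPar : DPar := by
  rintro a ha ⟨s, hs⟩
  have h0 : s ≠ 0 := fun e => (prod_pos fun i _ => ha i).ne' (by rw [hs, e, mul_zero])
  obtain ⟨M, hM⟩ := DParJ.mat s a h0 hs
  have hp : ∀ k l, 0 < M k l := fun k l => Nat.pos_of_ne_zero fun e =>
    (ha k).ne' (by rw [hM k, prod_eq_zero (mem_univ l) e, zero_mul])
  refine ⟨1, ![M 0 1 * M 1 0, M 2 3 * M 3 2, M 0 2 * M 2 0, M 1 3 * M 3 1, M 0 3 * M 3 0,
    M 1 2 * M 2 1, M 0 0, M 1 1, M 2 2, M 3 3], one_pos, fun i => ?_, ?_, ?_, ?_, ?_⟩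
  · fin_cases i <;> simp [hp]
  all_goals
    rw [hM]
    simp only [Fin.prod_univ_four]
    simp
    ring

end Pool.Agent.MP_e23604_nt.U

end

section

open Finset
open scoped Classical

namespace Pool.Agent.MP_e23604_nt.U

open P (sy ep lam)

namespace DCntJ

def UU (B c : ℕ) : Finset ℕ := (Icc 1 B).filter fun u => c * u ^ 2 ≤ B

theorem card_UU (B c : ℕ) (hc : 0 < c) : (UU B c).card ^ 2 * c ≤ B := by
  have h1 : UU B c ⊆ Icc 1 (Nat.sqrt (B / c)) := by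
    intro u hu
    rw [UU, mem_filter, mem_Icc] at hu
    rw [mem_Icc, Nat.le_sqrt', Nat.le_div_iff_mul_le hc, mul_comm]
    exact ⟨hu.1.1, hu.2⟩
  have h2 := card_le_card h1
  rw [Nat.card_Icc, Nat.add_sub_cancel, Nat.le_sqrt', Nat.le_div_iff_mul_le hc] at h2
  exact h2

def AA (B c : ℕ) : Finset ℤ :=
  (UU B c).image (fun u => ((c * u ^ 2 : ℕ) : ℤ)) ∪ (UU B c).image fun u => -((c * u ^ 2 : ℕ) : ℤ)

theorem card_AA (B c : ℕ) : (AA B c).card ≤ 2 * (UU B c).card := by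
  rw [two_mul]
  exact (card_union_le _ _).trans (add_le_add card_image_le card_image_le)

theorem mem_AA {B c u : ℕ} {t : ℤ} (hu : 0 < u) (hc : 0 < c) (ht : |t| ≤ B)
    (e : t.natAbs = c * u ^ 2) : t ∈ AA B c := by
  have h1 : c * u ^ 2 ≤ B := by
    rw [← e]
    rw [← Int.natCast_natAbs] at ht
    exact_mod_cast ht
  have h2 : u ∈ UU B c := by
    rw [UU, mem_filter, mem_Icc]
    refine ⟨⟨hu, le_trans ?_ h1⟩, h1⟩
    exact Nat.le_of_dvd (by positivity) (Dvd.intro_left (c * u) (by ring))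
  rw [AA, mem_union, mem_image, mem_image]
  rcases Int.natAbs_eq t with h | h
  · exact Or.inl ⟨u, h2, by rw [← e, ← h]⟩
  · exact Or.inr ⟨u, h2, by rw [← e, ← h]⟩

def cs (g : ℕ) (m : Fin 6 → ℕ) : Fin 4 → ℕ :=
  ![g * (m 0 * m 2 * m 4), g * (m 0 * m 5 * m 3), g * (m 2 * m 5 * m 1), g * (m 4 * m 3 * m 1)]

theorem prod_cs (g : ℕ) (m : Fin 6 → ℕ) : ∏ i, cs g m i = (g ^ 2 * ∏ j, m j) ^ 2 := by
  simp only [Fin.prod_univ_four, Fin.prod_univ_six, cs, Matrix.cons_val_zero, Matrix.cons_val_one,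
    Matrix.cons_val]
  ring

theorem card_pi (B g : ℕ) (m : Fin 6 → ℕ) (hg : 0 < g) (hm : ∀ j, 0 < m j) :
    ((Fintype.piFinset fun i => AA B (cs g m i)).card : ℝ) ≤
      16 * (B : ℝ) ^ 2 * (((g : ℝ) ^ 2)⁻¹ * ∏ j, ((m j : ℝ))⁻¹) := by
  have hp : 0 < ∏ j, m j := prod_pos fun j _ => hm j
  have hc : ∀ i, 0 < cs g m i := by
    have : 0 < ∏ i, cs g m i := by rw [prod_cs]; positivity
    exact fun i => Nat.pos_of_dvd_of_pos (dvd_prod_of_mem _ (mem_univ i)) this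
  have h1 : (Fintype.piFinset fun i => AA B (cs g m i)).card ≤
      16 * ∏ i, (UU B (cs g m i)).card := by
    rw [Fintype.card_piFinset]
    refine (prod_le_prod' fun i _ => card_AA B (cs g m i)).trans (le_of_eq ?_)
    rw [prod_mul_distrib]
    simp
  have h2 : ((∏ i, (UU B (cs g m i)).card) * (g ^ 2 * ∏ j, m j)) ^ 2 ≤ (B ^ 2) ^ 2 := by
    rw [mul_pow, ← prod_cs, ← prod_pow, ← prod_mul_distrib]
    refine (prod_le_prod' fun i _ => card_UU B (cs g m i) (hc i)).trans (le_of_eq ?_)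
    simp [← pow_mul]
  have h3 := (Nat.pow_le_pow_iff_left two_ne_zero).1 h2
  have h4 : (Fintype.piFinset fun i => AA B (cs g m i)).card * (g ^ 2 * ∏ j, m j) ≤ 16 * B ^ 2 :=
    (Nat.mul_le_mul_right _ h1).trans (by rw [mul_assoc]; exact Nat.mul_le_mul_left _ h3)
  have h5 : ((Fintype.piFinset fun i => AA B (cs g m i)).card : ℝ) *
      ((g : ℝ) ^ 2 * ∏ j, (m j : ℝ)) ≤ 16 * (B : ℝ) ^ 2 := by exact_mod_cast h4
  have h6 : (0 : ℝ) < (g : ℝ) ^ 2 * ∏ j, (m j : ℝ) := by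
    have : (0 : ℝ) < ∏ j, (m j : ℝ) := by exact_mod_cast hp
    positivity
  rw [prod_inv_distrib, ← mul_inv, ← div_eq_mul_inv, le_div_iff₀ h6]
  exact h5

theorem sum_g (B : ℕ) (hB : 1 ≤ B) : ∑ g ∈ Icc 1 B, ((g : ℝ) ^ 2)⁻¹ ≤ 2 := by
  have h1 := sum_Ioc_inv_sq_le_sub (α := ℝ) (k := 1) (n := B) one_ne_zero hB
  rw [← Finset.Ioc_insert_left hB, sum_insert (by simp)]
  have : (0 : ℝ) ≤ (B : ℝ)⁻¹ := by positivity
  simp only [Nat.cast_one, one_pow, inv_one] at h1 ⊢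
  linarith

theorem sum_m (B : ℕ) (hB : 3 ≤ B) :
    ∑ m ∈ Fintype.piFinset fun _ : Fin 6 => Icc 1 B, ∏ j, ((m j : ℝ))⁻¹ ≤
      64 * Real.log B ^ 6 := by
  have h1 : ∑ x ∈ Icc 1 B, ((x : ℝ))⁻¹ ≤ 1 + Real.log B := by
    have := harmonic_le_one_add_log B
    rw [harmonic_eq_sum_Icc] at this
    push_cast at this
    exact this
  have h2 : 1 ≤ Real.log B := by
    rw [Real.le_log_iff_exp_le (by positivity)]
    have : (3 : ℝ) ≤ B := by exact_mod_cast hB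
    linarith [Real.exp_one_lt_d9]
  rw [← prod_univ_sum (fun _ : Fin 6 => Icc 1 B) fun _ x => ((x : ℝ))⁻¹, prod_const, card_univ,
    Fintype.card_fin]
  calc _ ≤ (2 * Real.log B) ^ 6 := by
        gcongr
        linarith
    _ = _ := by ring

end DCntJ

open DCntJ in
theorem dCnt (h : DPar) : DCnt := by
  refine ⟨16 * 2 * 64, by norm_num, fun B hB => ?_⟩
  have hsub : {z : Fin 4 → ℤ | (∀ i, |z i| ≤ B) ∧ ∏ i, z i ≠ 0 ∧ IsSquare (∏ i, z i)} ⊆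
      ((Icc 1 B ×ˢ Fintype.piFinset fun _ : Fin 6 => Icc 1 B).biUnion fun p =>
        Fintype.piFinset fun i => AA B (cs p.1 p.2 i) : Finset (Fin 4 → ℤ)) := by
    rintro z ⟨h1, h2, r, hr⟩
    have hz : ∀ i, 0 < (z i).natAbs := fun i =>
      Int.natAbs_pos.2 (prod_ne_zero_iff.1 h2 i (mem_univ i))
    have hle : ∀ i, (z i).natAbs ≤ B := fun i => by
      have := h1 i
      rw [← Int.natCast_natAbs] at this
      exact_mod_cast this
    obtain ⟨g, v, hg, hv, e0, e1, e2, e3⟩ := h (fun i => (z i).natAbs) hz ⟨r.natAbs, by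
      rw [← Int.natAbs_mul, ← hr]
      exact (map_prod Int.natAbsHom z univ).symm⟩
    have key : ∀ i x, x ∣ (z i).natAbs → x ≤ B := fun i x hx =>
      (Nat.le_of_dvd (hz i) hx).trans (hle i)
    have p0 := hv 0
    have p1 := hv 1
    have p2 := hv 2
    have p3 := hv 3
    have p4 := hv 4
    have p5 := hv 5
    rw [mem_coe, mem_biUnion]
    refine ⟨(g, ![v 0, v 1, v 2, v 3, v 4, v 5]), ?_, ?_⟩
    · rw [mem_product, mem_Icc, Fintype.mem_piFinset]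
      refine ⟨⟨hg, key 0 g ⟨v 0 * v 2 * v 4 * v 6 ^ 2, by rw [e0]; ring⟩⟩, fun j => ?_⟩
      rw [mem_Icc]
      fin_cases j
      · exact ⟨p0, key 0 (v 0) ⟨g * v 2 * v 4 * v 6 ^ 2, by rw [e0]; ring⟩⟩
      · exact ⟨p1, key 2 (v 1) ⟨g * v 2 * v 5 * v 8 ^ 2, by rw [e2]; ring⟩⟩
      · exact ⟨p2, key 0 (v 2) ⟨g * v 0 * v 4 * v 6 ^ 2, by rw [e0]; ring⟩⟩
      · exact ⟨p3, key 1 (v 3) ⟨g * v 0 * v 5 * v 7 ^ 2, by rw [e1]; ring⟩⟩
      · exact ⟨p4, key 0 (v 4) ⟨g * v 0 * v 2 * v 6 ^ 2, by rw [e0]; ring⟩⟩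
      · exact ⟨p5, key 1 (v 5) ⟨g * v 0 * v 3 * v 7 ^ 2, by rw [e1]; ring⟩⟩
    · rw [Fintype.mem_piFinset]
      intro i
      fin_cases i
      · exact mem_AA (c := g * (v 0 * v 2 * v 4)) (hv 6) (by positivity) (h1 0) e0
      · exact mem_AA (c := g * (v 0 * v 5 * v 3)) (hv 7) (by positivity) (h1 1) e1
      · exact mem_AA (c := g * (v 2 * v 5 * v 1)) (hv 8) (by positivity) (h1 2) e2
      · exact mem_AA (c := g * (v 4 * v 3 * v 1)) (hv 9) (by positivity) (h1 3) e3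
  have h1 := Set.ncard_le_ncard hsub (Finset.finite_toSet _)
  rw [Set.ncard_coe_finset] at h1
  have h2 := h1.trans card_biUnion_le
  refine le_trans (Nat.cast_le.2 h2) ?_
  rw [Nat.cast_sum]
  refine le_trans (sum_le_sum fun p hp => ?_) (?_ : ∑ p ∈ Icc 1 B ×ˢ
    Fintype.piFinset fun _ : Fin 6 => Icc 1 B,
      16 * (B : ℝ) ^ 2 * (((p.1 : ℝ) ^ 2)⁻¹ * ∏ j, ((p.2 j : ℝ))⁻¹) ≤ _)
  · rw [mem_product, mem_Icc, Fintype.mem_piFinset] at hp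
    exact card_pi B p.1 p.2 hp.1.1 fun j => (mem_Icc.1 (hp.2 j)).1
  · rw [← mul_sum, sum_product, ← sum_mul_sum (Icc 1 B) _ (fun g : ℕ => ((g : ℝ) ^ 2)⁻¹)
      fun m : Fin 6 → ℕ => ∏ j, ((m j : ℝ))⁻¹]
    have h3 := mul_le_mul (sum_g B (by omega)) (sum_m B hB)
      (sum_nonneg fun _ _ => by positivity) (by norm_num)
    calc _ ≤ 16 * (B : ℝ) ^ 2 * (2 * (64 * Real.log B ^ 6)) := by gcongr
      _ = _ := by ring

end Pool.Agent.MP_e23604_nt.U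

end

section

open Finset
open scoped Classical

namespace Pool.Agent.MP_e23604_nt.U

open P (sy ep lam)

namespace DFinJ

theorem prod_zz (v : V10) : ∏ i, zz v i = (4 * ∏ i, v i) * (4 * ∏ i, v i) := by
  simp only [Fin.prod_univ_succ, Fin.prod_univ_zero, zz]
  simp
  ring

theorem fin_box (B : ℕ) (p : (Fin 4 → ℤ) → Prop) :
    {z : Fin 4 → ℤ | (∀ i, |z i| ≤ B) ∧ p z}.Finite :=
  (Fintype.piFinset fun _ : Fin 4 => Icc (-(B : ℤ)) B).finite_toSet.subset fun _ hz =>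
    mem_coe.2 (Fintype.mem_piFinset.2 fun i => mem_Icc.2 (abs_le.1 (hz.1 i)))

end DFinJ

end Pool.Agent.MP_e23604_nt.U

end

section

/-!
Many disjoint admissible boxes.
-/

open Finset
open scoped Classical

namespace Pool.Agent.MP_e23604_nt.U

open P (sy ep lam)

namespace DBoxJ

theorem pw_le {a b : ℕ} (k : ℕ) (h : a * k ≤ b) : (2 ^ a) ^ k ≤ 2 ^ b := by
  rw [← pow_mul]
  exact Nat.pow_le_pow_right (by norm_num) h

theorem le_pw {a b : ℕ} (k : ℕ) (h : b ≤ a * k) : 2 ^ b ≤ (2 ^ a) ^ k := by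
  rw [← pow_mul]
  exact Nat.pow_le_pow_right (by norm_num) h

theorem bal {a b c d e f : ℕ} (k : ℕ) (h : a + b + c * 2 = k + (d + e + f * 2)) :
    2 ^ a * 2 ^ b * (2 ^ c) ^ 2 = 2 ^ k * (2 ^ d * 2 ^ e * (2 ^ f) ^ 2) := by
  simp only [← pow_mul, ← pow_add, h]

/-- The exponents. -/
def ex (M n : ℕ) (a : Fin 6 → ℕ) : Fin 10 → ℕ :=
  let e4 := 1000 * n + a 0
  let e8 := 1000 * n + a 1
  let e9 := 1000 * n + a 2
  let e7 := 4000000 * n + a 3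
  let e5 := 30000000 * n + a 4
  let e2 := 5000000000 * n + a 5
  let e6 := e5 + e7 + e8 + 6 - e4 - e9
  let e0 := M - e2 - e4 - 2 * e6
  ![e0, e0 + e5 + 2 * e7 + 4 - e4 - 2 * e9, e2, e2 + e5 + 2 * e8 - e4 - 2 * e9 - 6, e4, e5, e6,
    e7, e8, e9]

/-- The linear facts. -/
structure Lin (M n : ℕ) (e : Fin 10 → ℕ) : Prop where
  b1 : e 0 + e 4 + e 6 * 2 = 8 + (e 5 + e 1 + e 8 * 2)
  b2 : e 2 + e 5 + e 8 * 2 = 6 + (e 4 + e 3 + e 9 * 2)
  b3 : e 4 + e 1 + e 9 * 2 = 4 + (e 0 + e 5 + e 7 * 2)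
  h4 : n * 1000 ≤ e 4
  h8 : n * 1000 ≤ e 8
  h9 : n * 1000 ≤ e 9
  h7 : (e 4 + e 8 + e 9) * 1000 ≤ e 7
  h5 : e 7 * 5 ≤ e 5
  h5' : e 5 ≤ e 7 * 10
  h2 : e 7 * 1000 ≤ e 2
  h0 : e 2 * 1000 ≤ e 0
  top : e 0 ≤ n * 100000000000000
  tot : e 0 + e 2 + e 4 + e 6 * 2 = M

theorem lin {M n : ℕ} (hn : 1 ≤ n) (h1 : 10000000000000 * n ≤ M) (h2 : M < 20000000000000 * n)
    {a : Fin 6 → ℕ} (ha : ∀ i, a i < n) : Lin M n (ex M n a) := by
  have := ha 0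
  have := ha 1
  have := ha 2
  have := ha 3
  have := ha 4
  have := ha 5
  constructor <;> simp only [ex, Matrix.cons_val] <;> omega

theorem Lin.reg {M n : ℕ} {e : Fin 10 → ℕ} (h : Lin M n e) (hn : 1 ≤ n) :
    Reg (fun i => 2 ^ e i) (2 ^ n) where
  b1 := bal 8 h.b1
  b2 := bal 6 h.b2
  b3 := bal 4 h.b3
  z2 := Nat.pow_le_pow_right (by norm_num : 0 < 2) hn
  h4 := pw_le _ h.h4
  h8 := pw_le _ h.h8
  h9 := pw_le _ h.h9
  h7 := by
    rw [← pow_add, ← pow_add]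
    exact pw_le _ h.h7
  h5 := pw_le _ h.h5
  h5' := le_pw _ h.h5'
  h2 := pw_le _ h.h2
  h0 := pw_le _ h.h0
  top := le_pw _ (h.top.trans_eq (by norm_num))

theorem Lin.sum {M n : ℕ} {e : Fin 10 → ℕ} (h : Lin M n e) : ∑ i, e i + 20 = 2 * M := by
  have := h.b1
  have := h.b2
  have := h.b3
  have := h.tot
  have e1 : ∑ i, e i = e 0 + (e 1 + (e 2 + (e 3 + (e 4 + (e 5 + (e 6 + (e 7 + (e 8 + e 9)))))))) := by
    simp only [Fin.sum_univ_succ, Fin.sum_univ_zero, add_zero]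
    rfl
  omega

theorem ex_inj (M n : ℕ) : Function.Injective fun (a : Fin 6 → ℕ) (i : Fin 10) =>
    2 ^ ex M n a i := by
  intro a b h
  have h' : ∀ i, ex M n a i = ex M n b i := fun i =>
    Nat.pow_right_injective (le_refl 2) (congrFun h i)
  have h4 := h' 4
  have h8 := h' 8
  have h9 := h' 9
  have h7 := h' 7
  have h5 := h' 5
  have h2 := h' 2
  simp only [ex, Matrix.cons_val, add_right_inj] at h4 h8 h9 h7 h5 h2
  funext i
  fin_cases i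
  exacts [h4, h8, h9, h7, h5, h2]

theorem dy {a b : ℕ} {x : ℤ} (ha : x ∈ Ioc ((2 ^ a : ℕ) : ℤ) (2 * (2 ^ a : ℕ)))
    (hb : x ∈ Ioc ((2 ^ b : ℕ) : ℤ) (2 * (2 ^ b : ℕ))) : a ≤ b := by
  by_contra h
  have : 2 ^ (b + 1) ≤ 2 ^ a := Nat.pow_le_pow_right (by norm_num) (by omega)
  rw [mem_Ioc] at ha hb
  rw [pow_succ] at this
  omega

end DBoxJ

open DBoxJ in
theorem dBox : DBox := by
  refine ⟨1 / 30000000000000 ^ 6, by positivity, fun X0 =>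
    ⟨2 ^ (10000000000000 * (X0 + 1) + 5), fun B hB => ?_⟩⟩
  have hB0 : B ≠ 0 := by
    have := Nat.two_pow_pos (10000000000000 * (X0 + 1) + 5)
    omega
  have hL : 10000000000000 * (X0 + 1) + 5 ≤ Nat.log 2 B := Nat.le_log_of_pow_le (by norm_num) hB
  obtain ⟨M, hM⟩ : ∃ M, Nat.log 2 B = M + 5 := ⟨Nat.log 2 B - 5, by omega⟩
  have hB1 : 2 ^ (M + 5) ≤ B := hM ▸ Nat.pow_log_le_self 2 hB0
  have hB2 : B < 2 ^ (M + 6) := by
    have := Nat.lt_pow_succ_log_self (by norm_num : 1 < 2) B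
    rwa [hM] at this
  obtain ⟨n, hn⟩ : ∃ n, n = M / 10000000000000 := ⟨_, rfl⟩
  have hn1 : X0 + 1 ≤ n := by omega
  have hl : ∀ a ∈ Fintype.piFinset fun _ : Fin 6 => range n, Lin M n (ex M n a) := fun a ha =>
    lin (by omega) (by omega) (by omega) fun i => mem_range.1 (Fintype.mem_piFinset.1 ha i)
  have hB3 : (B : ℝ) ≤ 2 ^ (M + 6) := by exact_mod_cast hB2.le
  have hBp : (0 : ℝ) < B := by positivity
  refine ⟨(Fintype.piFinset fun _ : Fin 6 => range n).image fun a i => 2 ^ ex M n a i, 2 ^ n,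
    ?_, ?_, ?_⟩
  · rw [card_image_of_injective _ (ex_inj M n), Fintype.card_piFinset]
    simp only [card_range, prod_const, card_univ, Fintype.card_fin, Nat.cast_pow]
    have h1 : Real.log B ≤ 30000000000000 * n := by
      have h2 := Real.log_le_log hBp hB3
      rw [Real.log_pow] at h2
      have h3 : Real.log 2 ≤ 1 := by linarith [Real.log_two_lt_d9]
      have h4 : ((M + 6 : ℕ) : ℝ) ≤ 30000000000000 * n := by
        exact_mod_cast (by omega : M + 6 ≤ 30000000000000 * n)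
      have h5 := mul_le_mul_of_nonneg_left h3 (Nat.cast_nonneg (α := ℝ) (M + 6))
      linarith
    have h2 := pow_le_pow_left₀ (Real.log_natCast_nonneg B) h1 6
    rw [mul_pow] at h2
    rw [one_div, inv_mul_le_iff₀ (by positivity)]
    exact h2
  · intro X hX
    obtain ⟨a, ha, rfl⟩ := mem_image.1 hX
    have h := hl a ha
    refine ⟨h.reg (by omega), ?_, ?_, ?_⟩
    · have h1 := h.h4
      have h2 := h.h7
      have h3 := h.h2
      have h4 := h.h0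
      have := @Nat.lt_two_pow_self (ex M n a 0)
      change X0 ≤ 2 ^ ex M n a 0
      omega
    · refine le_trans (le_of_eq ?_) hB1
      rw [show 32 = 2 ^ 5 from rfl]
      simp only [← pow_mul, ← pow_add]
      rw [h.tot, add_comm]
    · have h1 : Vol (fun i => 2 ^ ex M n a i) = 2 ^ ∑ i, ex M n a i := by
        simp only [Vol, Nat.cast_pow, Nat.cast_ofNat, prod_pow_eq_pow_sum]
      have h2 : (B : ℝ) ^ 2 ≤ 2 ^ 32 * 2 ^ ∑ i, ex M n a i := by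
        refine (pow_le_pow_left₀ hBp.le hB3 2).trans_eq ?_
        have := h.sum
        rw [← pow_mul, ← pow_add]
        congr 1
        omega
      rw [h1, one_div, inv_mul_le_iff₀ (by positivity)]
      exact h2.trans (mul_le_mul_of_nonneg_right (by norm_num) (by positivity))
  · intro X hX X' hX' hne
    obtain ⟨a, -, rfl⟩ := mem_image.1 hX
    obtain ⟨b, -, rfl⟩ := mem_image.1 hX'
    refine disjoint_left.2 fun v h1 h2 => hne (funext fun i => ?_)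
    have h3 := Fintype.mem_piFinset.1 h1 i
    have h4 := Fintype.mem_piFinset.1 h2 i
    rw [le_antisymm (dy h3 h4) (dy h4 h3)]

end Pool.Agent.MP_e23604_nt.U

end

section

/-!
A good point with prime cofactors is determined by the j-invariant of its curve.
-/

open Finset
open scoped Classical

noncomputable section

namespace Pool.Agent.MP_e23604_nt.U

namespace JInv

/-! The j-invariant. -/

theorem j_mul (W : WeierstrassCurve ℚ) [W.IsElliptic] : W.j * W.Δ = W.c₄ ^ 3 := by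
  rw [WeierstrassCurve.j, ← WeierstrassCurve.coe_Δ', mul_right_comm, Units.inv_mul, one_mul]

theorem j_leg (W : WeierstrassCurve ℚ) [W.IsElliptic] {A B : ℤ}
    (h : W = ⟨0, -((A + B : ℤ) : ℚ), 0, ((A * B : ℤ) : ℚ), 0⟩) :
    W.j * ((A ^ 2 * B ^ 2 * (A - B) ^ 2 : ℤ) : ℚ) = 256 * (((A ^ 2 - A * B + B ^ 2) ^ 3 : ℤ) : ℚ) := by
  have h1 := j_mul W
  have h2 : W.Δ = 16 * ((A ^ 2 * B ^ 2 * (A - B) ^ 2 : ℤ) : ℚ) := by
    rw [h]
    simp only [WeierstrassCurve.Δ, WeierstrassCurve.b₂, WeierstrassCurve.b₄, WeierstrassCurve.b₆,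
      WeierstrassCurve.b₈]
    push_cast
    ring
  have h3 : W.c₄ = 16 * ((A ^ 2 - A * B + B ^ 2 : ℤ) : ℚ) := by
    rw [h]
    simp only [WeierstrassCurve.c₄, WeierstrassCurve.b₂, WeierstrassCurve.b₄]
    push_cast
    ring
  rw [h2, h3] at h1
  push_cast at h1 ⊢
  linear_combination h1 / 16

theorem jkey {A B A' B' : ℤ} (hA : 0 < A) (hAB : A < B) (hA' : 0 < A') (hAB' : A' < B')
    (eA : Even A) (eA' : Even A') (oB : Odd B) (oB' : Odd B') (hc : IsCoprime A B)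
    (hc' : IsCoprime A' B')
    (h : (A ^ 2 - A * B + B ^ 2) ^ 3 * (A' ^ 2 * B' ^ 2 * (A' - B') ^ 2) =
      (A' ^ 2 - A' * B' + B' ^ 2) ^ 3 * (A ^ 2 * B ^ 2 * (A - B) ^ 2)) : A = A' ∧ B = B' := by
  have h0 : (A * B' - A' * B) * (A * A' - B * B') * (A' * B - B' * (B - A)) *
      (A' * (B - A) - B * B') * (A' * (B - A) + A * B') * (A * A' + B' * (B - A)) = 0 := by
    linear_combination h
  have oC : Odd (B - A) := oB.sub_even eA
  have hC : 0 < B - A := sub_pos.2 hAB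
  have hB' : 0 < B' := hA'.trans hAB'
  have n1 : A * A' - B * B' ≠ 0 := fun e =>
    (Int.not_odd_iff_even.2 (e ▸ Even.zero)) ((eA.mul_right A').sub_odd (oB.mul oB'))
  have n2 : A' * B - B' * (B - A) ≠ 0 := fun e =>
    (Int.not_odd_iff_even.2 (e ▸ Even.zero)) ((eA'.mul_right B).sub_odd (oB'.mul oC))
  have n3 : A' * (B - A) - B * B' ≠ 0 := fun e =>
    (Int.not_odd_iff_even.2 (e ▸ Even.zero)) ((eA'.mul_right _).sub_odd (oB.mul oB'))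
  have n4 : A' * (B - A) + A * B' ≠ 0 := by positivity
  have n5 : A * A' + B' * (B - A) ≠ 0 := by positivity
  have h1 : A * B' - A' * B = 0 := by
    simpa only [mul_eq_zero, n1, n2, n3, n4, n5, or_false] using h0
  have h2 : A ∣ A' := hc.dvd_of_dvd_mul_right ⟨B', by linear_combination -h1⟩
  have h3 : A' ∣ A := hc'.dvd_of_dvd_mul_right ⟨B, by linear_combination h1⟩
  have h4 : A = A' := Int.dvd_antisymm hA.le hA'.le h2 h3
  subst h4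
  exact ⟨rfl, mul_left_cancel₀ hA.ne' (by linear_combination -h1)⟩

/-! The differences of the four integers. -/

theorem d01 (v : V10) (h : ∀ i, v i % 240 = v0 i) :
    zz v 0 - zz v 1 = 4 * (site v 0 * site v 2) := by
  have := DRedJ.four_site v h
  show v 0 * v 2 * v 4 * v 6 ^ 2 - v 0 * v 5 * v 3 * v 7 ^ 2 = 4 * (v 0 * site v 2)
  linear_combination (-v 0) * this

theorem d23 (v : V10) : zz v 2 - zz v 3 = 4 * (site v 1 * site v 3) := by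
  show 4 * v 2 * v 5 * v 1 * v 8 ^ 2 - 4 * v 4 * v 3 * v 1 * v 9 ^ 2 =
    4 * (v 1 * (v 2 * v 5 * v 8 ^ 2 - v 4 * v 3 * v 9 ^ 2))
  ring

theorem d03 (v : V10) : zz v 0 - zz v 3 = site v 4 * site v 6 := by
  show v 0 * v 2 * v 4 * v 6 ^ 2 - 4 * v 4 * v 3 * v 1 * v 9 ^ 2 =
    v 4 * (v 0 * v 2 * v 6 ^ 2 - 4 * v 3 * v 1 * v 9 ^ 2)
  ring

theorem d21 (v : V10) : zz v 2 - zz v 1 = site v 5 * site v 7 := by
  show 4 * v 2 * v 5 * v 1 * v 8 ^ 2 - v 0 * v 5 * v 3 * v 7 ^ 2 =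
    v 5 * (4 * v 2 * v 1 * v 8 ^ 2 - v 0 * v 3 * v 7 ^ 2)
  ring

theorem d02 (v : V10) : zz v 0 - zz v 2 = site v 8 * site v 10 := by
  show v 0 * v 2 * v 4 * v 6 ^ 2 - 4 * v 2 * v 5 * v 1 * v 8 ^ 2 =
    v 2 * (v 0 * v 4 * v 6 ^ 2 - 4 * v 5 * v 1 * v 8 ^ 2)
  ring

theorem d31 (v : V10) : zz v 3 - zz v 1 = site v 9 * site v 11 := by
  show 4 * v 4 * v 3 * v 1 * v 9 ^ 2 - v 0 * v 5 * v 3 * v 7 ^ 2 =
    v 3 * (4 * v 4 * v 1 * v 9 ^ 2 - v 0 * v 5 * v 7 ^ 2)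
  ring

def AA (z : Fin 4 → ℤ) : ℤ := (z 0 - z 1) * (z 2 - z 3)

def BB (z : Fin 4 → ℤ) : ℤ := (z 0 - z 3) * (z 2 - z 1)

theorem ez (z : Fin 4 → ℤ) :
    EZ z = ⟨0, -((AA z + BB z : ℤ) : ℚ), 0, ((AA z * BB z : ℤ) : ℚ), 0⟩ := rfl

theorem aa (v : V10) (h : ∀ i, v i % 240 = v0 i) :
    AA (zz v) = 16 * (site v 0 * site v 1 * site v 2 * site v 3) := by
  rw [AA, d01 v h, d23]
  ring

theorem bb (v : V10) : BB (zz v) = site v 4 * site v 5 * site v 6 * site v 7 := by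
  rw [BB, d03, d21]
  ring

theorem cc (v : V10) : BB (zz v) - AA (zz v) = site v 8 * site v 9 * site v 10 * site v 11 := by
  have e : BB (zz v) - AA (zz v) = (zz v 0 - zz v 2) * (zz v 3 - zz v 1) := by
    rw [AA, BB]
    ring
  rw [e, d02, d31]
  ring

theorem abc (v : V10) (h : ∀ i, v i % 240 = v0 i) :
    AA (zz v) * BB (zz v) * (BB (zz v) - AA (zz v)) = 16 * ∏ σ, site v σ := by
  rw [cc, aa v h, bb, DInjJ.pr]
  ring

theorem odd_bb (v : V10) (hm : ∀ i, v i % 240 = v0 i) : Odd (BB (zz v)) := by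
  have m0 : v 0 % 240 = 81 := hm 0
  have m2 : v 2 % 240 = 181 := hm 2
  have m3 : v 3 % 240 = 1 := hm 3
  have m4 : v 4 % 240 = 1 := hm 4
  have m5 : v 5 % 240 = 17 := hm 5
  have m6 : v 6 % 240 = 1 := hm 6
  have m7 : v 7 % 240 = 1 := hm 7
  have o0 : Odd (v 0) := Int.odd_iff.2 (by omega)
  have o2 : Odd (v 2) := Int.odd_iff.2 (by omega)
  have o3 : Odd (v 3) := Int.odd_iff.2 (by omega)
  have o4 : Odd (v 4) := Int.odd_iff.2 (by omega)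
  have o5 : Odd (v 5) := Int.odd_iff.2 (by omega)
  have o6 : Odd (v 6) := Int.odd_iff.2 (by omega)
  have o7 : Odd (v 7) := Int.odd_iff.2 (by omega)
  have p6 : Odd (site v 6) :=
    ((o0.mul o2).mul o6.pow).sub_even ⟨2 * v 3 * v 1 * v 9 ^ 2, by ring⟩
  have p7 : Odd (site v 7) :=
    Even.sub_odd ⟨2 * v 2 * v 1 * v 8 ^ 2, by ring⟩ ((o0.mul o3).mul o7.pow)
  rw [bb]
  exact ((o4.mul o5).mul p6).mul p7

theorem ab (v : V10) (hG : GV v) (hp : ∀ σ, 0 < site v σ) :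
    0 < AA (zz v) ∧ AA (zz v) < BB (zz v) ∧ Even (AA (zz v)) ∧ Odd (BB (zz v)) ∧
      IsCoprime (AA (zz v)) (BB (zz v)) := by
  obtain ⟨-, hm, hsq, -⟩ := hG
  have ob := odd_bb v hm
  refine ⟨?_, ?_, ?_, ob, ?_⟩
  · rw [aa v hm]
    have := hp 0
    have := hp 1
    have := hp 2
    have := hp 3
    positivity
  · rw [← sub_pos, cc]
    have := hp 8
    have := hp 9
    have := hp 10
    have := hp 11
    positivity
  · rw [aa v hm]
    exact ⟨8 * (site v 0 * site v 1 * site v 2 * site v 3), by ring⟩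
  · obtain ⟨k, hk⟩ := ob
    have c2 : IsCoprime 2 (BB (zz v)) := ⟨-k, 1, by rw [hk]; ring⟩
    rw [aa v hm]
    refine IsCoprime.mul_left (by simpa using c2.pow_left (m := 4)) ?_
    rw [bb]
    rw [DInjJ.pr] at hsq
    have h1 : Squarefree ((site v 0 * site v 1 * site v 2 * site v 3) *
        (site v 4 * site v 5 * site v 6 * site v 7)) :=
      hsq.squarefree_of_dvd ⟨site v 8 * site v 9 * site v 10 * site v 11, by ring⟩
    exact (squarefree_mul_iff.1 h1).1.isCoprime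

/-- Equal j-invariants give equal `A` and `B`. -/
theorem ab_eq {v w : V10} (hv : GV v) (hw : GV w) (pv : ∀ σ, 0 < site v σ)
    (pw : ∀ σ, 0 < site w σ) [(EZ (zz v)).IsElliptic] [(EZ (zz w)).IsElliptic]
    (h : (EZ (zz v)).j = (EZ (zz w)).j) : AA (zz v) = AA (zz w) ∧ BB (zz v) = BB (zz w) := by
  obtain ⟨a1, a2, a3, a4, a5⟩ := ab v hv pv
  obtain ⟨b1, b2, b3, b4, b5⟩ := ab w hw pw
  refine jkey a1 a2 b1 b2 a3 b3 a4 b4 a5 b5 ?_
  have h1 := j_leg _ (ez (zz v))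
  have h2 := j_leg _ (ez (zz w))
  rw [← h] at h2
  generalize (AA (zz v) ^ 2 - AA (zz v) * BB (zz v) + BB (zz v) ^ 2) ^ 3 = N at *
  generalize (AA (zz w) ^ 2 - AA (zz w) * BB (zz w) + BB (zz w) ^ 2) ^ 3 = N' at *
  generalize AA (zz v) ^ 2 * BB (zz v) ^ 2 * (AA (zz v) - BB (zz v)) ^ 2 = D at *
  generalize AA (zz w) ^ 2 * BB (zz w) ^ 2 * (AA (zz w) - BB (zz w)) ^ 2 = D' at *
  have h3 : (N : ℚ) * D' = N' * D := by
    linear_combination ((D : ℚ) * h2 - (D' : ℚ) * h1) / 256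
  exact_mod_cast h3

/-! The large primes. -/

theorem pmono {X : Fin 10 → ℕ} {Z : ℕ} {v : V10} (h : Reg X Z) (hv : v ∈ Box X)
    {s P : Fin 12 → ℕ} (hP : ∀ σ, site v σ = (s σ * P σ : ℕ) ∧ 1 ≤ s σ ∧ s σ ≤ Z) :
    StrictMono fun i => P (DSep.ord i) := by
  intro i j hij
  have h1 := DSep.ord_gap h hv hij
  obtain ⟨a1, a2, -⟩ := hP (DSep.ord i)
  obtain ⟨b1, -, b3⟩ := hP (DSep.ord j)
  rw [a1, b1] at h1
  have h2 : Z ^ 2 * (s (DSep.ord i) * P (DSep.ord i)) < s (DSep.ord j) * P (DSep.ord j) := by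
    exact_mod_cast h1
  by_contra h3
  have h4 : s (DSep.ord j) * P (DSep.ord j) ≤ Z ^ 2 * (s (DSep.ord i) * P (DSep.ord i)) :=
    Nat.mul_le_mul (b3.trans (Nat.le_self_pow (by norm_num) _))
      ((not_lt.1 h3).trans (Nat.le_mul_of_pos_left _ a2))
  omega

theorem psub {Z : ℕ} {s s' P P' : Fin 12 → ℕ} (hP : ∀ σ, (P σ).Prime ∧ Z < P σ)
    (hP' : ∀ σ, (P' σ).Prime ∧ 1 ≤ s' σ ∧ s' σ ≤ Z) (e : ∏ σ, s σ * P σ = ∏ σ, s' σ * P' σ) :
    Set.range (fun i => P (DSep.ord i)) ⊆ Set.range fun i => P' (DSep.ord i) := by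
  rintro _ ⟨i, rfl⟩
  obtain ⟨a1, a2⟩ := hP (DSep.ord i)
  have h1 : P (DSep.ord i) ∣ ∏ σ, s' σ * P' σ :=
    e ▸ (Dvd.intro_left _ rfl).trans (dvd_prod_of_mem (fun σ => s σ * P σ) (mem_univ _))
  obtain ⟨τ, -, h2⟩ := (Prime.dvd_finsetProd_iff a1.prime _).1 h1
  obtain ⟨b1, b2, b3⟩ := hP' τ
  rcases (Nat.Prime.dvd_mul a1).1 h2 with h3 | h3
  · have := Nat.le_of_dvd b2 h3
    omega
  · refine ⟨DSep.rk τ, ?_⟩
    simp only [DSep.ord_rk]
    exact ((Nat.prime_dvd_prime_iff_eq a1 b1).1 h3).symm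

/-! The small parts. -/

theorem three {a b c a' b' c' α β γ W : ℤ} (h : a * α - b * β = c * γ)
    (h' : a' * α - b' * β = c' * γ) (hc : IsCoprime β α) (a1 : 0 < a) (a2 : a ≤ W) (c1 : 0 < c)
    (c2 : c ≤ W) (a1' : 0 < a') (a2' : a' ≤ W) (c1' : 0 < c') (c2' : c' ≤ W) (hβ : W * W < β)
    (k : IsCoprime a c) (k' : IsCoprime a' c') : a = a' ∧ c = c' := by
  have h1 : β ∣ a * c' - a' * c :=
    hc.dvd_of_dvd_mul_right ⟨b * c' - b' * c, by linear_combination c' * h - c * h'⟩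
  have h2 : a * c' ≤ W * W := mul_le_mul a2 c2' c1'.le (a1.le.trans a2)
  have h3 : a' * c ≤ W * W := mul_le_mul a2' c2 c1.le (a1.le.trans a2)
  have h4 : 0 < a * c' := mul_pos a1 c1'
  have h5 : 0 < a' * c := mul_pos a1' c1
  have h6 : a * c' - a' * c = 0 :=
    Int.eq_zero_of_abs_lt_dvd h1 (abs_lt.2 ⟨by linarith, by linarith⟩)
  have h7 : a ∣ a' := k.dvd_of_dvd_mul_right ⟨c', by linear_combination -h6⟩
  have h8 : a' ∣ a := k'.dvd_of_dvd_mul_right ⟨c, by linear_combination h6⟩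
  have h9 : a = a' := Int.dvd_antisymm a1.le a1'.le h7 h8
  subst h9
  exact ⟨rfl, mul_left_cancel₀ a1.ne' (by linear_combination -h6)⟩

theorem small {Z : ℕ} {s : S12} (h1 : Squarefree (SP s)) (h2 : SP s ≤ Z) :
    0 < (s 4 : ℤ) * s 6 ∧ (s 4 : ℤ) * s 6 ≤ Z ∧ 0 < (s 8 : ℤ) * s 10 ∧ (s 8 : ℤ) * s 10 ≤ Z ∧
      IsCoprime ((s 4 : ℤ) * s 6) ((s 8 : ℤ) * s 10) := by
  have e : (SP s : ℤ) = ((s 4 : ℤ) * s 6) * ((s 8 : ℤ) * s 10) *
      (s 0 * s 1 * s 2 * s 3 * s 5 * s 7 * s 9 * s 11) := by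
    rw [SP, Nat.cast_prod, DInjJ.pr]
    ring
  have h3 : Squarefree (SP s : ℤ) := Int.squarefree_natCast.2 h1
  have h4 : (0 : ℤ) < SP s := by exact_mod_cast Nat.pos_of_ne_zero h1.ne_zero
  have h5 : (SP s : ℤ) ≤ Z := by exact_mod_cast h2
  have h6 : ((s 4 : ℤ) * s 6) * ((s 8 : ℤ) * s 10) ∣ SP s := ⟨_, e⟩
  have n : ((s 4 : ℤ) * s 6) * ((s 8 : ℤ) * s 10) ≠ 0 := fun h => by
    rw [h, zero_mul] at e
    exact h4.ne' e
  refine ⟨lt_of_le_of_ne (by positivity) (left_ne_zero_of_mul n).symm,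
    (Int.le_of_dvd h4 ((Dvd.intro _ rfl).trans h6)).trans h5,
    lt_of_le_of_ne (by positivity) (right_ne_zero_of_mul n).symm,
    (Int.le_of_dvd h4 ((Dvd.intro_left _ rfl).trans h6)).trans h5,
    (squarefree_mul_iff.1 (h3.squarefree_of_dvd h6)).1.isCoprime⟩

/-! The common shift. -/

theorem z1_lt {X : Fin 10 → ℕ} {Z : ℕ} {v : V10} (h : Reg X Z) (hv : v ∈ Box X)
    {s P : Fin 12 → ℕ} (hP : ∀ σ, site v σ = (s σ * P σ : ℕ) ∧ Z < P σ ∧ s σ ≤ Z) :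
    0 < zz v 1 ∧ zz v 1 < (P 0 : ℤ) * P 1 ∧ (P 0 : ℤ) ∣ zz v 1 ∧ (P 1 : ℤ) ∣ zz v 3 := by
  obtain ⟨a1, a2, a3⟩ := hP 0
  obtain ⟨b1, b2, b3⟩ := hP 1
  have a4 : v 0 = s 0 * P 0 := by exact_mod_cast a1
  have b4 : v 1 = s 1 * P 1 := by exact_mod_cast b1
  have a5 : (s 0 : ℤ) ≤ Z := by exact_mod_cast a3
  have b5 : (s 1 : ℤ) ≤ Z := by exact_mod_cast b3
  have a6 : (0 : ℤ) < P 0 := by exact_mod_cast (Nat.zero_le _).trans_lt a2
  have b6 : (0 : ℤ) < P 1 := by exact_mod_cast (Nat.zero_le _).trans_lt b2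
  have hZ : (0 : ℤ) < Z := by exact_mod_cast DSep.zpos h
  have e1 : zz v 1 = v 0 * (v 5 * v 3 * v 7 ^ 2) := by
    show v 0 * v 5 * v 3 * v 7 ^ 2 = _
    ring
  have e3 : zz v 3 = v 1 * (4 * v 4 * v 3 * v 9 ^ 2) := by
    show 4 * v 4 * v 3 * v 1 * v 9 ^ 2 = _
    ring
  have m1 := DSep.mon_pos hv 5 3 7
  have m2 := DSep.mon_hi hv 5 3 7
  have m3 : (X 2 : ℤ) * X 4 * (X 6 : ℤ) ^ 2 = 262144 * ((X 5 : ℤ) * X 3 * (X 7 : ℤ) ^ 2) := by
    exact_mod_cast DSep.e2 h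
  have m4 : 1048576 * (Z : ℤ) ^ 2 * ((X 2 : ℤ) * X 4 * (X 6 : ℤ) ^ 2) ≤ X 0 := by
    exact_mod_cast DSep.k4 h
  have m5 : (X 0 : ℤ) ≤ X 1 := by
    exact_mod_cast (Nat.le_mul_of_pos_left _
      (Nat.mul_pos (by norm_num) (Nat.pow_pos (DSep.zpos h)))).trans (DSep.k01 h)
  have m6 := DSep.lo hv 1
  have m7 : (Z : ℤ) ^ 2 * (v 5 * v 3 * v 7 ^ 2) < v 1 := by
    rw [m3] at m4
    have h1 : 0 ≤ (Z : ℤ) ^ 2 * ((X 5 : ℤ) * X 3 * (X 7 : ℤ) ^ 2) := by positivity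
    exact DSep.gap (sq_nonneg _) m2 (by linarith)
  refine ⟨e1 ▸ mul_pos (DSep.vpos hv 0) m1, ?_, ⟨s 0 * (v 5 * v 3 * v 7 ^ 2), by rw [e1, a4]; ring⟩,
    ⟨s 1 * (4 * v 4 * v 3 * v 9 ^ 2), by rw [e3, b4]; ring⟩⟩
  have m8 : (Z : ℤ) * (v 5 * v 3 * v 7 ^ 2) < P 1 := by
    refine lt_of_mul_lt_mul_left (a := (Z : ℤ)) ?_ hZ.le
    have : (s 1 : ℤ) * P 1 ≤ Z * P 1 := mul_le_mul_of_nonneg_right b5 b6.le
    rw [b4] at m7
    linarith
  have m9 : (s 0 : ℤ) * (v 5 * v 3 * v 7 ^ 2) ≤ Z * (v 5 * v 3 * v 7 ^ 2) :=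
    mul_le_mul_of_nonneg_right a5 m1.le
  rw [e1, a4]
  calc (s 0 : ℤ) * P 0 * (v 5 * v 3 * v 7 ^ 2) = P 0 * (s 0 * (v 5 * v 3 * v 7 ^ 2)) := by ring
    _ < _ := mul_lt_mul_of_pos_left (m9.trans_lt m8) a6

end JInv

/-- Good points with prime cofactors. -/
def GJ (Z : ℕ) (v : V10) : Prop :=
  GV v ∧ ∃ s ∈ SSet Z, Cond s v ∧ ∀ σ, (qq s v σ).toNat.Prime

open JInv in
/-- A good point with prime cofactors is determined by the j-invariant. -/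
theorem jInj {X X' : Fin 10 → ℕ} {Z : ℕ} (h : Reg X Z) (h' : Reg X' Z) {v w : V10}
    (hv : v ∈ Box X) (hw : w ∈ Box X') (gv : GJ Z v) (gw : GJ Z w) [(EZ (zz v)).IsElliptic]
    [(EZ (zz w)).IsElliptic] (hj : (EZ (zz v)).j = (EZ (zz w)).j) : v = w := by
  obtain ⟨gv, s, hs, cv, pv⟩ := gv
  obtain ⟨gw, t, ht, cw, pw⟩ := gw
  obtain ⟨eA, eB⟩ := ab_eq gv gw (DSep.site_pos h hv) (DSep.site_pos h' hw) hj
  obtain ⟨P, hP, qs, zs⟩ := DSqJ.fac (DSep.sep h hv) hs cv pv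
  obtain ⟨Q, hQ, qt, zt⟩ := DSqJ.fac (DSep.sep h' hw) ht cw pw
  have e1 : ∏ σ, site v σ = ∏ σ, site w σ := by
    have h1 := abc v gv.2.1
    rw [eA, eB, abc w gw.2.1] at h1
    linarith
  have e2 : ∏ σ, s σ * P σ = ∏ σ, t σ * Q σ := by
    rw [prod_congr rfl fun σ _ => (hP σ).2.2.1, prod_congr rfl fun σ _ => (hQ σ).2.2.1,
      ← Nat.cast_prod, ← Nat.cast_prod] at e1
    exact_mod_cast e1
  have mP := pmono h hv fun σ => ⟨(hP σ).2.2.1, (hP σ).2.2.2.2⟩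
  have mQ := pmono h' hw fun σ => ⟨(hQ σ).2.2.1, (hQ σ).2.2.2.2⟩
  have e3 := (mP.range_inj mQ).1 (Set.Subset.antisymm
    (psub (fun σ => ⟨(hP σ).1, (hP σ).2.2.2.1⟩) (fun σ => ⟨(hQ σ).1, (hQ σ).2.2.2.2⟩) e2)
    (psub (fun σ => ⟨(hQ σ).1, (hQ σ).2.2.2.1⟩) (fun σ => ⟨(hP σ).1, (hP σ).2.2.2.2⟩) e2.symm))
  have e4 : P = Q := funext fun σ => by simpa only [DSep.ord_rk] using congrFun e3 (DSep.rk σ)
  subst e4
  have cop : ∀ σ τ, σ ≠ τ → IsCoprime (P σ : ℤ) (P τ) := fun σ τ n => by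
    refine Nat.isCoprime_iff_coprime.2 ((Nat.coprime_primes (hP σ).1 (hP τ).1).2 fun e => n ?_)
    have : DSep.rk σ = DSep.rk τ := mP.injective (by simpa only [DSep.ord_rk] using e)
    rw [← DSep.ord_rk σ, this, DSep.ord_rk]
  have sv : ∀ σ, site v σ = s σ * P σ := fun σ => by exact_mod_cast (hP σ).2.2.1
  have sw : ∀ σ, site w σ = t σ * P σ := fun σ => by exact_mod_cast (hQ σ).2.2.1
  have f : ∀ u : V10, site u 4 * site u 6 - 4 * (site u 1 * site u 3) = site u 8 * site u 10 :=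
    fun u => by rw [← d03, ← d23, ← d02]; ring
  have f1 := f v
  have f2 := f w
  simp only [sv] at f1
  simp only [sw] at f2
  obtain ⟨a1, a2, a3, a4, a5⟩ := small qs zs
  obtain ⟨b1, b2, b3, b4, b5⟩ := small qt zt
  have hβ : (Z : ℤ) * Z < (P 1 : ℤ) * P 3 := by
    exact_mod_cast Nat.mul_lt_mul'' (hP 1).2.2.2.1 (hP 3).2.2.2.1
  obtain ⟨g1, g2⟩ := three (α := (P 4 : ℤ) * P 6) (β := (P 1 : ℤ) * P 3) (γ := (P 8 : ℤ) * P 10)
    (b := 4 * (s 1 * s 3)) (b' := 4 * (t 1 * t 3)) (by linear_combination f1)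
    (by linear_combination f2)
    (((cop 1 4 (by decide)).mul_right (cop 1 6 (by decide))).mul_left
      ((cop 3 4 (by decide)).mul_right (cop 3 6 (by decide)))) a1 a2 a3 a4 b1 b2 b3 b4 hβ a5 b5
  have k03 : zz v 0 - zz v 3 = zz w 0 - zz w 3 := by
    rw [d03, d03, sv, sv, sw, sw]
    linear_combination ((P 4 : ℤ) * P 6) * g1
  have k02 : zz v 0 - zz v 2 = zz w 0 - zz w 2 := by
    rw [d02, d02, sv, sv, sw, sw]
    linear_combination ((P 8 : ℤ) * P 10) * g2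
  have k21 : zz v 2 - zz v 1 = zz w 2 - zz w 1 := by
    have n : zz w 0 - zz w 3 ≠ 0 := by
      rw [d03]
      exact (mul_pos (DSep.site_pos h' hw 4) (DSep.site_pos h' hw 6)).ne'
    rw [BB, BB, k03] at eB
    exact mul_left_cancel₀ n eB
  obtain ⟨u1, u2, u3, u4⟩ := z1_lt h hv fun σ => ⟨(hP σ).2.2.1, (hP σ).2.2.2.1, (hP σ).2.2.2.2.2⟩
  obtain ⟨w1, w2, w3, w4⟩ := z1_lt h' hw fun σ => ⟨(hQ σ).2.2.1, (hQ σ).2.2.2.1, (hQ σ).2.2.2.2.2⟩
  have d1 : (P 1 : ℤ) ∣ zz v 1 - zz w 1 := by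
    have : zz v 1 - zz w 1 = zz v 3 - zz w 3 := by linarith
    rw [this]
    exact dvd_sub u4 w4
  have d0 : zz v 1 - zz w 1 = 0 :=
    Int.eq_zero_of_abs_lt_dvd ((cop 0 1 (by decide)).mul_dvd (dvd_sub u3 w3) d1)
      (abs_lt.2 ⟨by linarith, by linarith⟩)
  refine dInj v w gv gw (funext fun i => ?_)
  fin_cases i
  · show zz v 0 = zz w 0
    linarith
  · show zz v 1 = zz w 1
    linarith
  · show zz v 2 = zz w 2
    linarith
  · show zz v 3 = zz w 3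
    linarith

end Pool.Agent.MP_e23604_nt.U

end
end

section

/-!
From one box to the count of j-invariants.
-/

open Finset
open scoped Classical

noncomputable section

namespace Pool.Agent.MP_e23604_nt.U

open P (sy ep lam)

namespace JMain

theorem inner (hA : IA) {X : Fin 10 → ℕ} {Z : ℕ} (hR : Reg X Z) (h2 : 2 ≤ X 0) {v : V10}
    (hv : v ∈ Box X) :
    ∑ s ∈ SSet Z, GG s v * F0 s v ≤ if GJ Z v then (20 * Real.log (X 0)) ^ 12 else 0 := by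
  by_cases h : ∃ s ∈ SSet Z, GG s v * F0 s v ≠ 0
  · obtain ⟨s, hs, h⟩ := h
    obtain ⟨a1, a2, a3, a4, -⟩ := DOneJ.ne h
    obtain ⟨b1, b2, -, -⟩ := dSz X Z hR v hv
    obtain ⟨c1, -, -⟩ := dSq Z v s b2 hs a2 a4
    have hG : GV v := ⟨b1, a2.1, c1, hA s v (mem_filter.1 hs).2.1 b1
      (fun σ => (sq_nonneg _).trans_lt (b2.1 σ)) (by rw [a1]; exact one_ne_zero) a3 a4 c1⟩
    have := DOneJ.inner hA dSz dSq hR h2 hv
    rw [if_pos hG] at this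
    rwa [if_pos ⟨hG, s, hs, a2, a4⟩]
  · push Not at h
    rw [sum_eq_zero h]
    split_ifs
    · positivity
    · exact le_rfl

theorem one (hA : IA) (hC : IC) : ∃ c : ℝ, 0 < c ∧ ∃ X0 : ℕ, ∀ (X : Fin 10 → ℕ) (Z : ℕ),
    Reg X Z → X0 ≤ X 0 → c * Vol X ≤ (((Box X).filter (GJ Z)).card : ℝ) := by
  obtain ⟨c, hc, X0, h⟩ := hC
  refine ⟨c / 20 ^ 12, by positivity, max X0 2, fun X Z hR hX => ?_⟩
  have h2 : 2 ≤ X 0 := (le_max_right _ _).trans hX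
  have hL : 0 < Real.log (X 0) := Real.log_pos (by exact_mod_cast h2)
  have h1 := h X Z hR ((le_max_left _ _).trans hX)
  rw [SS, sum_comm] at h1
  have h3 := h1.trans (sum_le_sum fun v hv => inner hA hR h2 hv)
  rw [← sum_filter, sum_const, nsmul_eq_mul, mul_pow, ← mul_assoc,
    mul_le_mul_iff_left₀ (pow_pos hL 12)] at h3
  rw [div_mul_eq_mul_div, div_le_iff₀ (by positivity)]
  exact h3

/-- The j-invariant as a function. -/
def jj (v : V10) : ℚ := if h : (EZ (zz v)).IsElliptic then @WeierstrassCurve.j _ _ _ h else 0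

theorem jj_eq (v : V10) [h : (EZ (zz v)).IsElliptic] : jj v = (EZ (zz v)).j := dif_pos h

end JMain

open JMain in
/-- Part D2, counting j-invariants. -/
theorem IDJ_pf : IDJ := by
  intro hA hC
  obtain ⟨c1, hc1, X0, h1⟩ := one hA hC
  obtain ⟨c2, hc2, h2⟩ := dBox
  obtain ⟨B0, h2⟩ := h2 X0
  obtain ⟨C, hC, h3⟩ := dCnt dPar
  refine ⟨c1 * c2 ^ 2 / (C + 1), by positivity, max B0 3, fun B hB => ?_⟩
  obtain ⟨T, Z, hT, hX, hd⟩ := h2 B (le_of_max_le_left hB)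
  have h3 := h3 B (le_of_max_le_right hB)
  set U := T.biUnion fun X => (Box X).filter (GJ Z) with hU
  have hc : U.card = ∑ X ∈ T, ((Box X).filter (GJ Z)).card :=
    card_biUnion fun X hX' X' hX'' hne =>
      (hd X hX' X' hX'' hne).mono (filter_subset _ _) (filter_subset _ _)
  have hl : (T.card : ℝ) * (c1 * (c2 * (B : ℝ) ^ 2)) ≤ U.card := by
    rw [hc, Nat.cast_sum, ← nsmul_eq_mul]
    refine card_nsmul_le_sum _ _ _ fun X hX' => ?_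
    obtain ⟨a, b, -, d⟩ := hX X hX'
    exact (mul_le_mul_of_nonneg_left d hc1.le).trans (h1 X Z a b)
  have hi : (U.image jj).card = U.card := by
    refine card_image_of_injOn fun v hv w hw e => ?_
    obtain ⟨X, hX1, hv⟩ := mem_biUnion.1 hv
    obtain ⟨X', hX2, hw⟩ := mem_biUnion.1 hw
    obtain ⟨hv, gv⟩ := mem_filter.1 hv
    obtain ⟨hw, gw⟩ := mem_filter.1 hw
    have := gv.1.2.2.2.1
    have := gw.1.2.2.2.1
    rw [jj_eq, jj_eq] at e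
    exact jInj (hX X hX1).1 (hX X' hX2).1 hv hw gv gw e
  set S : Set ℚ := {j : ℚ | ∃ z : Fin 4 → ℤ, (∀ i, |z i| ≤ B) ∧ ∏ i, z i ≠ 0 ∧
    IsSquare (∏ i, z i) ∧ ∃ _ : (EZ z).IsElliptic, (EZ z).j = j ∧
      Module.finrank ℤ (EZ z).toAffine.Point = 2 ∧
        ∀ s ∈ Sha (EZ z), ∀ k : ℕ, 2 ^ k • s = 0 → s = 0} with hS
  have hs : ((U.image jj : Finset ℚ) : Set ℚ) ⊆ S := by
    intro j hj
    obtain ⟨v, hv, rfl⟩ := mem_image.1 hj
    obtain ⟨X, hX', hv⟩ := mem_biUnion.1 hv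
    obtain ⟨hv, hG, -⟩ := mem_filter.1 hv
    obtain ⟨a, -, b, -⟩ := hX X hX'
    have hp : 0 < ∏ i, v i := prod_pos fun i _ => hG.1 i
    obtain ⟨r1, r2, r3⟩ := hG.2.2.2
    refine ⟨zz v, fun i => ((dSz X Z a v hv).2.2.2 i).trans (by exact_mod_cast b),
      ?_, ⟨_, DFinJ.prod_zz v⟩, r1, (jj_eq v).symm, r2, r3⟩
    rw [DFinJ.prod_zz]
    positivity
  have hf : S.Finite := by
    refine ((DFinJ.fin_box B fun _ => True).image fun z => (EZ z).c₄ ^ 3 / (EZ z).Δ).subset ?_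
    rintro j ⟨z, z1, -, -, z2, rfl, -⟩
    refine ⟨z, ⟨z1, trivial⟩, ?_⟩
    show (EZ z).c₄ ^ 3 / (EZ z).Δ = _
    rw [← JInv.j_mul, mul_div_cancel_right₀ _ (EZ z).isUnit_Δ.ne_zero]
  have hn := Set.ncard_le_ncard hs hf
  rw [Set.ncard_coe_finset, hi] at hn
  have hn' : (U.card : ℝ) ≤ _ := Nat.cast_le.2 hn
  have hL : 0 ≤ (B : ℝ) ^ 2 * Real.log B ^ 6 := by positivity
  have hm := max_le (h3.trans (mul_le_mul_of_nonneg_right (le_add_of_nonneg_right zero_le_one) hL))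
    (le_mul_of_one_le_left hL (le_add_of_nonneg_left hC.le : 1 ≤ C + 1))
  refine (mul_le_mul_of_nonneg_left hm (by positivity)).trans (le_trans ?_ (hl.trans hn'))
  calc c1 * c2 ^ 2 / (C + 1) * ((C + 1) * ((B : ℝ) ^ 2 * Real.log B ^ 6))
      = c2 * Real.log B ^ 6 * (c1 * (c2 * (B : ℝ) ^ 2)) := by field_simp
    _ ≤ _ := mul_le_mul_of_nonneg_right hT (by positivity)

end Pool.Agent.MP_e23604_nt.U

end
end
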