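import Pool.Agent.Mg.Fe23604m.G954648
import Pool.Agent.Mg.Fe23604m.Ge4cc4e
import Pool.Agent.Mg.Fe23604m.G651d65

set_option linter.all false

section

/-!
The replacement of the first prime: definitions and step statements.
-/

open Finset
open scoped Classical

noncomputable section

namespace Pool.Agent.MP_e23604_nt.U

open P (gg WW Datum Wt)

/-- Three weights: the first does not see `v 7`, the second does not see `v 5`, the third sees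
neither `v 0` nor `v 1`. -/
structure EW (G1 G2 H : S12 → V10 → ℝ) : Prop where
  b1 : ∀ s v, |G1 s v| ≤ 1
  b2 : ∀ s v, |G2 s v| ≤ 1
  b3 : ∀ s v, |H s v| ≤ 1
  i1 : ∀ s v t, G1 s (Function.update v 7 t) = G1 s v
  i2 : ∀ s v t, G2 s (Function.update v 5 t) = G2 s v
  i3 : ∀ s v t, H s (Function.update v 0 t) = H s v
  i4 : ∀ s v t, H s (Function.update v 1 t) = H s v
  sup : ∀ s v, H s v ≠ 0 → IsCoprime (v 7) (v 4 * v 9) ∧ (qq s v 5).toNat.Prime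

/-- The replacement of the prime at the last site. -/
def IE : Prop := ∀ A : ℕ, ∃ B0 : ℕ, ∀ B ≥ B0, ∃ X0 : ℕ, ∀ (X : Fin 10 → ℕ) (Z : ℕ), Reg X Z →
  X0 ≤ X 0 → ∀ G1 G2 H : S12 → V10 → ℝ, EW G1 G2 H →
  |SS X Z fun s v => G1 s v * G2 s v * H s v * gg (WW B (X 0)) (qq s v 11)| ≤
    Vol X / Real.log (X 0) ^ A

/-- The weighted bound for a family of pairs of forms. -/
def ECore : Prop := ∀ (A h c d0 : ℕ) (κ : ℝ), 0 < κ → ∃ B0 : ℕ, ∀ B ≥ B0, ∃ X1 : ℕ, ∀ X ≥ X1,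
  ∀ (ι : Type) (Pi : Finset ι) (dat : ι → Datum) (ρ : ι → ℝ) (Ω U T0 : ℝ) (H : ℕ) (g' : ℤ → ℝ),
  (X : ℝ) ≤ U → U ≤ (X : ℝ) ^ 2 → 0 ≤ T0 → 0 ≤ Ω → (∀ π ∈ Pi, 0 ≤ ρ π) →
  (∀ π ∈ Pi, (dat π).OK U T0 ∧ (dat π).m ^ 10 ≤ X ∧ (dat π).K ^ 5 ≤ X ∧ ((dat π).t0 : ℝ) ≤ T0) →
  ∑ π ∈ Pi, ρ π / ((dat π).m * (dat π).t0) ≤ Ω * Real.log X ^ c →
  (∀ d : ℕ, d0 ≤ d → ∑ π ∈ Pi.filter fun π => d ∣ (dat π).K, ρ π / ((dat π).m * (dat π).t0) ≤
    Ω * Real.log X ^ c * (d : ℝ) ^ (-κ)) →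
  1 ≤ H → (H : ℝ) ≤ Real.log X ^ h → Wt (WW B X) X g' →
  ∑ π ∈ Pi, ρ π * |(dat π).T (gg (WW B X)) g'| ≤ U * T0 * Ω / Real.log X ^ A +
    9 * Real.log X ^ 2 * ∑ π ∈ Pi, ρ π * (dat π).mass ((dat π).nr U H)

def upd (v : V10) (a b : ℤ) : V10 := Function.update (Function.update v 0 a) 1 b

def cc (v : V10) : ℕ := (4 * v 4 * v 9 ^ 2).toNat

def KP (s : S12) (v : V10) : ℕ := cc v * KK s * s 5

/-- The box, longer in the direction of `v 5`. -/
def Box3 (X : Fin 10 → ℕ) : Finset V10 :=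
  Fintype.piFinset fun i => Ioc (X i : ℤ) ((if i = 5 then 3 else 2) * X i)

/-- The eight outer coordinates. -/
def O8 (X : Fin 10 → ℕ) : Finset V10 :=
  Fintype.piFinset fun i => if i = 0 ∨ i = 1 then {0} else
    Ioc (X i : ℤ) ((if i = 5 then 3 else 2) * X i)

def Vol8 (X : Fin 10 → ℕ) : ℝ := ∏ i ∈ univ.filter (fun i : Fin 10 => 2 ≤ i.val), (X i : ℝ)

/-- The small parts of the six long sites, and of the six others. -/
def sL (s : S12) : ℕ := s 0 * s 1 * s 6 * s 7 * s 10 * s 11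
def sM (s : S12) : ℕ := s 2 * s 3 * s 4 * s 5 * s 8 * s 9

def Adm8 (s : S12) (v : V10) : Prop :=
  (∃ a b, Cond s (upd v a b)) ∧ IsCoprime (v 5 * v 7) (cc v : ℤ)

abbrev I8 : Type := S12 × V10 × ℤ

def PE (X : Fin 10 → ℕ) (Z q : ℕ) : Finset I8 :=
  (SSet Z ×ˢ O8 X ×ˢ Ioc (X 5 : ℤ) (3 * X 5)).filter fun π => Adm8 π.1 π.2.1 ∧ π.2.2 ≠ π.2.1 5 ∧
    ((π.1 5 * (q * KP π.1 π.2.1 ^ 32) : ℕ) : ℤ) ∣ π.2.1 5 - π.2.2

def rho (X : Fin 10 → ℕ) (q : ℕ) (π : I8) : ℝ :=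
  (q : ℝ) * (KP π.1 π.2.1 : ℝ) ^ 32 / ((X 5 / π.1 5 : ℕ) : ℝ)

/-- One class of the pair correlation. -/
def Tc (W : ℕ) (X : Fin 10 → ℕ) (s : S12) (v : V10) (w r0 r1 : ℤ) : ℝ :=
  ∑ a ∈ cl (X 0) (2 * X 0) (cc v * KK s) r0, ∑ b ∈ cl (X 1) (2 * X 1) (KK s * s 5) r1,
    if Cond s (upd v a b) then
      gg W (((cc v : ℤ) * b - a * v 5 * v 7 ^ 2) / (s 11 : ℤ)) *
        gg W (((cc v : ℤ) * b - a * w * v 7 ^ 2) / (s 11 : ℤ)) else 0

def Tab (W : ℕ) (X : Fin 10 → ℕ) (π : I8) : ℝ :=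
  ∑ r0 ∈ range (cc π.2.1 * KK π.1), ∑ r1 ∈ range (KK π.1 * π.1 5),
    |Tc W X π.1 π.2.1 π.2.2 r0 r1|

/-- The pair of forms, with signs `ε` on the classes. -/
def datE (X : Fin 10 → ℕ) (ε : ℤ → ℤ → ℝ) (π : I8) : Datum where
  A1 := X 0
  A2 := 2 * X 0
  B1 := X 1
  B2 := 2 * X 1
  α := -(π.2.1 5 * π.2.1 7 ^ 2)
  β := cc π.2.1
  α' := -(π.2.2 * π.2.1 7 ^ 2)
  β' := cc π.2.1
  m := π.1 11
  m' := π.1 11
  K0 := KP π.1 π.2.1
  t0 := π.1 0 * π.1 1 * π.1 6 * π.1 7 * π.1 10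
  F := fun a b => if Cond π.1 (upd π.2.1 a b) then
    ε (a % ((cc π.2.1 * KK π.1 : ℕ) : ℤ)) (b % ((KK π.1 * π.1 5 : ℕ) : ℤ)) else 0

def UE (X : Fin 10 → ℕ) : ℝ := 64 * (X 4 : ℝ) * X 1 * (X 9 : ℝ) ^ 2
def TE (X : Fin 10 → ℕ) : ℝ := (X 0 : ℝ) / (4 * (X 4 : ℝ) * (X 9 : ℝ) ^ 2)

/-- The point of a cell with the four inner coordinates replaced. -/
def pt4 (v : V10) (a b m u : ℤ) : V10 := Function.update (Function.update (upd v a b) 5 m) 7 u

/-- One cell. -/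
def E1a : Prop := ∃ C : ℕ, ∀ (B a : ℕ), 1 ≤ a → ∃ X0 : ℕ, ∀ (X : Fin 10 → ℕ) (Z : ℕ), Reg X Z →
  X0 ≤ X 0 → ∀ G1 G2 H : S12 → V10 → ℝ, EW G1 G2 H → ∀ s ∈ SSet Z, ∀ v ∈ Box X,
  ∀ r0 r1 rm ru : ℤ,
  |∑ a ∈ cl (X 0) (2 * X 0) (cc v * KK s) r0, ∑ b ∈ cl (X 1) (2 * X 1) (KK s * s 5) r1,
      ∑ m ∈ cl (X 5) (2 * X 5) (s 5 * KP s v) rm, ∑ u ∈ cl (X 7) (2 * X 7) (KP s v) ru,
        GG s (pt4 v a b m u) * (G1 s (pt4 v a b m u) * G2 s (pt4 v a b m u) * H s (pt4 v a b m u) *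
          gg (WW B (X 0)) (qq s (pt4 v a b m u) 11))| ≤
    3 * Real.log (X 0) / Real.log (X 0) ^ a *
      (∑ a ∈ cl (X 0) (2 * X 0) (cc v * KK s) r0, ∑ b ∈ cl (X 1) (2 * X 1) (KK s * s 5) r1,
        ∑ m ∈ cl (X 5) (3 * X 5) (s 5 * KP s v) rm, ∑ u ∈ cl (X 7) (2 * X 7) (KP s v) ru,
          if Cond s (pt4 v a b m u) then (1 : ℝ) else 0) +
    Real.log (X 0) ^ (a * C) * ∑ q ∈ Icc 1 ⌊Real.log (X 0) ^ (a * C)⌋₊,
      ∑ m ∈ cl (X 5) (3 * X 5) (s 5 * KP s v) rm, ∑ u ∈ cl (X 7) (2 * X 7) (KP s v) ru,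
        ∑ w ∈ (Ioc (X 5 : ℤ) (3 * X 5)).filter (fun w => (s, pt4 v 0 0 m u, w) ∈ PE X Z q),
          rho X q (s, pt4 v 0 0 m u, w) * |Tc (WW B (X 0)) X s (pt4 v 0 0 m u) w r0 r1|

/-- All cells. -/
def E1 : Prop := ∃ C : ℕ, ∀ (B a : ℕ), 1 ≤ a → ∃ X0 : ℕ, ∀ (X : Fin 10 → ℕ) (Z : ℕ), Reg X Z →
  X0 ≤ X 0 → ∀ G1 G2 H : S12 → V10 → ℝ, EW G1 G2 H →
  |SS X Z fun s v => G1 s v * G2 s v * H s v * gg (WW B (X 0)) (qq s v 11)| ≤
    3 * Real.log (X 0) / Real.log (X 0) ^ a *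
      ∑ s ∈ SSet Z, (((Box3 X).filter fun v => Cond s v).card : ℝ) +
    Real.log (X 0) ^ (a * C) * ∑ q ∈ Icc 1 ⌊Real.log (X 0) ^ (a * C)⌋₊,
      ∑ π ∈ PE X Z q, rho X q π * Tab (WW B (X 0)) X π

/-- Counting in the inner coordinates. -/
def E2a : Prop := ∀ (s : S12) (v : V10) (a1 a2 b1 b2 : ℤ), SOK s → a1 ≤ a2 → b1 ≤ b2 →
  (((Ioc a1 a2 ×ˢ Ioc b1 b2).filter fun z => Cond s (upd v z.1 z.2)).card : ℝ) ≤
    (((a2 : ℝ) - a1) + SP s) * (((b2 : ℝ) - b1) + SP s) / sL s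

/-- Counting in the outer coordinates. -/
def E2b : Prop := ∀ (X : Fin 10 → ℕ) (Z : ℕ), Reg X Z → ∀ s ∈ SSet Z,
  (((O8 X).filter fun v => ∃ a b, Cond s (upd v a b)).card : ℝ) ≤ 100 * Vol8 X / sM s ∧
  ∀ d : ℕ, 1 ≤ d →
    (((O8 X).filter fun v => (∃ a b, Cond s (upd v a b)) ∧ (d : ℤ) ∣ v 7).card : ℝ) ≤
      300 * Vol8 X / (sM s * d) ∧
    (((O8 X).filter fun v => (∃ a b, Cond s (upd v a b)) ∧ (d : ℤ) ∣ v 9).card : ℝ) ≤
      300 * Vol8 X / (sM s * d) ∧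
    (((O8 X).filter fun v => (∃ a b, Cond s (upd v a b)) ∧ (d : ℤ) ∣ v 4).card : ℝ) ≤
      300 * Vol8 X * Nat.gcd d (s 4) / (sM s * d)

/-- Sums over the small parts. -/
def E2c : Prop := ∀ Z : ℕ, 1 ≤ Z →
  ∑ s ∈ SSet Z, (1 : ℝ) / SP s ≤ (1 + Real.log Z) ^ 12 ∧ ∀ (d : ℕ) (σ : Fin 12), 1 ≤ d →
    ∑ s ∈ (SSet Z).filter (fun s => d ∣ s σ), (1 : ℝ) / SP s ≤ (1 + Real.log Z) ^ 12 / d ∧
    ∑ s ∈ SSet Z, (Nat.gcd d (s σ) : ℝ) / SP s ≤ d.divisors.card * (1 + Real.log Z) ^ 12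

def E2 : Prop := ∀ (X : Fin 10 → ℕ) (Z : ℕ), Reg X Z →
  ∑ s ∈ SSet Z, (((Box3 X).filter fun v => Cond s v).card : ℝ) ≤
    400 * Vol X * (1 + Real.log Z) ^ 12

/-- The pairs of forms are admissible. -/
def E4a : Prop := ∀ (X : Fin 10 → ℕ) (Z q : ℕ) (ε : ℤ → ℤ → ℝ), Reg X Z → 1 ≤ q →
  (∀ a b, |ε a b| ≤ 1) → ∀ π ∈ PE X Z q, (datE X ε π).OK (UE X) (TE X) ∧
    (datE X ε π).m ^ 10 ≤ X 0 ∧ (datE X ε π).K ^ 5 ≤ X 0 ∧ ((datE X ε π).t0 : ℝ) ≤ TE X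

def E4s : Prop := ∀ (W : ℕ) (X : Fin 10 → ℕ) (Z q : ℕ), Reg X Z → ∀ π ∈ PE X Z q,
  ∃ ε : ℤ → ℤ → ℝ, (∀ a b, |ε a b| ≤ 1) ∧ Tab W X π = (datE X ε π).T (gg W) (gg W)

/-- The mass near the boundary. -/
def E4b : Prop := ∀ (X : Fin 10 → ℕ) (Z q H : ℕ) (ε : I8 → ℤ → ℤ → ℝ), Reg X Z → 1 ≤ q → 1 ≤ H →
  H ≤ Z → (∀ π a b, |ε π a b| ≤ 1) →
  ∑ π ∈ PE X Z q, rho X q π * (datE X (ε π) π).mass ((datE X (ε π) π).nr (UE X) H) ≤
    10 ^ 9 * Vol X * (1 + Real.log Z) ^ 12 / √H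

/-- The weights of the family. -/
def E5a : Prop := ∀ (X : Fin 10 → ℕ) (Z q : ℕ), Reg X Z → 1 ≤ q → ∀ s ∈ SSet Z, ∀ v ∈ O8 X,
  ∀ d : ℕ, 1 ≤ d →
  ∑ w ∈ (Ioc (X 5 : ℤ) (3 * X 5)).filter (fun w => w ≠ v 5 ∧
    ((s 5 * (q * KP s v ^ 32) * d : ℕ) : ℤ) ∣ v 5 - w), rho X q (s, v, w) ≤ 8 / d

def E5 : Prop := ∃ (d0 : ℕ) (κ : ℝ), 0 < κ ∧ ∀ (X : Fin 10 → ℕ) (Z q : ℕ) (ε : I8 → ℤ → ℤ → ℝ),
  Reg X Z → 1 ≤ q →
  ∑ π ∈ PE X Z q, rho X q π / ((datE X (ε π) π).m * (datE X (ε π) π).t0) ≤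
    800 * Vol8 X * (1 + Real.log Z) ^ 12 ∧
  ∀ d : ℕ, d0 ≤ d → ∑ π ∈ (PE X Z q).filter fun π => d ∣ (datE X (ε π) π).K,
    rho X q π / ((datE X (ε π) π).m * (datE X (ε π) π).t0) ≤
      q * Vol8 X * (1 + Real.log Z) ^ 12 * (d : ℝ) ^ (-κ)

/-- The family is small. -/
def E6 : Prop := ∀ A c : ℕ, ∃ B0 : ℕ, ∀ B ≥ B0, ∃ X0 : ℕ, ∀ (X : Fin 10 → ℕ) (Z q : ℕ), Reg X Z →
  X0 ≤ X 0 → 1 ≤ q → (q : ℝ) ≤ Real.log (X 0) ^ c →
  ∑ π ∈ PE X Z q, rho X q π * Tab (WW B (X 0)) X π ≤ Vol X / Real.log (X 0) ^ A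

end Pool.Agent.MP_e23604_nt.U

end
end

section

/-!
Basic facts on the local conditions and on admissible boxes.
-/

open Finset
open scoped Classical

noncomputable section

namespace Pool.Agent.MP_e23604_nt.U

open P (gg WW Datum Wt)

theorem xEB_st {s : S12} (hs : Squarefree (SP s)) {l : ℕ} (hl : l.Prime) {k : Fin 12}
    (h : l ∣ s k) : st s l = k := by
  have he : ∃ σ, l ∣ s σ := ⟨k, h⟩
  rw [st, dif_pos he]
  by_contra hne
  have h1 : s he.choose * s k ∣ SP s := by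
    rw [← Finset.prod_pair hne]
    exact Finset.prod_dvd_prod_of_subset _ _ _ (subset_univ _)
  exact hl.ne_one (Nat.isUnit_iff.1 (hs l ((mul_dvd_mul he.choose_spec h).trans h1)))

theorem xEB_dvd (s : S12) (σ : Fin 12) : s σ ∣ SP s := Finset.dvd_prod_of_mem _ (mem_univ σ)

theorem xEB_mem {s : S12} (hs : SOK s) {l : ℕ} (hl : l.Prime) {σ : Fin 12} (hd : l ∣ s σ) :
    l ∈ PS s := Nat.mem_primeFactors.2 ⟨hl, hd.trans (xEB_dvd s σ), hs.1.ne_zero⟩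

theorem Cond.loc {s : S12} {v : V10} (hs : SOK s) (h : Cond s v) {l : ℕ} (hl : l.Prime)
    {σ : Fin 12} (hd : l ∣ s σ) : LocC v σ l := by
  have := h.2 l (xEB_mem hs hl hd)
  rwa [xEB_st hs.1 hl hd] at this

theorem SOK.odd {s : S12} (hs : SOK s) {l : ℕ} (hl : l.Prime) {σ : Fin 12} (hd : l ∣ s σ) :
    l ≠ 2 ∧ l ≠ 5 := by
  have := hs.2.2 l (xEB_mem hs hl hd)
  omega

theorem SOK.pos {s : S12} (hs : SOK s) (σ : Fin 12) : 1 ≤ s σ :=
  Nat.pos_of_dvd_of_pos (xEB_dvd s σ) (Nat.pos_of_ne_zero hs.1.ne_zero)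

theorem SOK.cop {s : S12} (hs : SOK s) {σ τ : Fin 12} (h : σ ≠ τ) : Nat.Coprime (s σ) (s τ) := by
  refine Nat.coprime_of_squarefree_mul (hs.1.squarefree_of_dvd ?_)
  rw [← Finset.prod_pair h]
  exact Finset.prod_dvd_prod_of_subset _ _ _ (subset_univ _)

theorem Cond.dvd {s : S12} {v : V10} (hs : SOK s) (h : Cond s v) (σ : Fin 12) :
    (s σ : ℤ) ∣ site v σ := by
  rw [Int.natCast_dvd,
    ← Nat.prod_primeFactors_of_squarefree (hs.1.squarefree_of_dvd (xEB_dvd s σ))]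
  refine Finset.prod_primes_dvd _ (fun l hl => (Nat.prime_of_mem_primeFactors hl).prime)
    fun l hl => ?_
  exact Int.natCast_dvd.1
    (h.loc hs (Nat.prime_of_mem_primeFactors hl) (Nat.dvd_of_mem_primeFactors hl)).1

/-- The ten coordinates other than the site itself are units at the small primes of a site. -/
theorem Cond.unit {s : S12} {v : V10} (hs : SOK s) (h : Cond s v) (σ : Fin 12) (i : Fin 10)
    (hi : 6 ≤ i.val ∨ ∃ τ, τ ≠ σ ∧ site v τ = v i) : IsCoprime (v i) (s σ : ℤ) := by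
  rw [Int.isCoprime_iff_nat_coprime, Int.natAbs_natCast]
  refine Nat.Coprime.symm (Nat.coprime_of_dvd fun l hl h1 h2 => ?_)
  have h3 := h.loc hs hl h1
  have h4 : (l : ℤ) ∣ v i := Int.natCast_dvd.2 h2
  rcases hi with hi | ⟨τ, hτ, e⟩
  · exact h3.2.2 i hi h4
  · exact h3.2.1 τ hτ (e ▸ h4)

theorem xEB_four (v : V10) (h : ∀ i, v i % 240 = v0 i) :
    4 * site v 2 = v 2 * v 4 * v 6 ^ 2 - v 5 * v 3 * v 7 ^ 2 := by
  have h2 : v 2 % 240 = 181 := h 2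
  have h3 : v 3 % 240 = 1 := h 3
  have h4 : v 4 % 240 = 1 := h 4
  have h5 : v 5 % 240 = 17 := h 5
  have h6 : v 6 % 240 = 1 := h 6
  have h7 : v 7 % 240 = 1 := h 7
  have k2 : v 2 ≡ 1 [ZMOD 4] := by unfold Int.ModEq; omega
  have k3 : v 3 ≡ 1 [ZMOD 4] := by unfold Int.ModEq; omega
  have k4 : v 4 ≡ 1 [ZMOD 4] := by unfold Int.ModEq; omega
  have k5 : v 5 ≡ 1 [ZMOD 4] := by unfold Int.ModEq; omega
  have k6 : v 6 ≡ 1 [ZMOD 4] := by unfold Int.ModEq; omega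
  have k7 : v 7 ≡ 1 [ZMOD 4] := by unfold Int.ModEq; omega
  have k := ((k2.mul k4).mul (k6.pow 2)).sub ((k5.mul k3).mul (k7.pow 2))
  have hd : (4 : ℤ) ∣ v 2 * v 4 * v 6 ^ 2 - v 5 * v 3 * v 7 ^ 2 :=
    Int.modEq_zero_iff_dvd.1 (by simpa using k)
  exact Int.mul_ediv_cancel' hd

theorem Cond.four {s : S12} {v : V10} (h : Cond s v) :
    4 * site v 2 = v 2 * v 4 * v 6 ^ 2 - v 5 * v 3 * v 7 ^ 2 := xEB_four v h.1

theorem xEB_site {l : ℕ} (hl : l.Prime) (h2 : l ≠ 2) {v v' : V10} (h : ∀ i, v i % 240 = v0 i)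
    (h' : ∀ i, v' i % 240 = v0 i) (hv : ∀ i, (v i : ZMod l) = v' i) (τ : Fin 12) :
    (site v τ : ZMod l) = site v' τ := by
  have := Fact.mk hl
  by_cases ht : τ = 2
  · subst ht
    have h3 : (2 : ZMod l) ≠ 0 := by
      intro h3
      have h4 : ((2 : ℕ) : ZMod l) = 0 := by exact_mod_cast h3
      rw [ZMod.natCast_eq_zero_iff] at h4
      exact h2 ((Nat.prime_dvd_prime_iff_eq hl Nat.prime_two).1 h4)
    have e := congrArg (Int.cast : ℤ → ZMod l) (xEB_four v h)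
    have e' := congrArg (Int.cast : ℤ → ZMod l) (xEB_four v' h')
    push_cast at e e'
    simp only [hv] at e
    refine mul_left_cancel₀ (mul_ne_zero h3 h3) ?_
    linear_combination e - e'
  · fin_cases τ
    all_goals first
      | exact absurd rfl ht
      | simp [site, hv]

theorem xEB_240 {s : S12} (hs : SOK s) {v v' : V10} (h : ∀ i, v i % 240 = v0 i)
    (hv : ∀ i, (KK s : ℤ) ∣ v i - v' i) (i : Fin 10) : v' i % 240 = v0 i := by
  have h1 : 240 ∣ KK s := Nat.mul_dvd_mul_left 80 (hs.2.1.trans (xEB_dvd s 0))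
  have h2 : (240 : ℤ) ∣ v i - v' i := (Int.natCast_dvd_natCast.2 h1).trans (hv i)
  rw [← h i]
  exact Int.modEq_iff_dvd.2 h2

theorem xEB_cast {s : S12} {v v' : V10} (hv : ∀ i, (KK s : ℤ) ∣ v i - v' i) {l : ℕ}
    (hl : l ∈ PS s) (i : Fin 10) : (v i : ZMod l) = v' i := by
  have h1 : l ∣ KK s := (Nat.dvd_of_mem_primeFactors hl).mul_left 80
  exact ((ZMod.intCast_eq_intCast_iff_dvd_sub _ _ _).2
    ((Int.natCast_dvd_natCast.2 h1).trans (hv i))).symm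

theorem xEB_ne {s : S12} (hs : SOK s) {l : ℕ} (hl : l ∈ PS s) : l ≠ 2 := by
  have := hs.2.2 l hl
  omega

theorem Cond.per {s : S12} {v v' : V10} (hs : SOK s) (h : Cond s v)
    (hv : ∀ i, (KK s : ℤ) ∣ v i - v' i) : Cond s v' := by
  have h' := xEB_240 hs h.1 hv
  refine ⟨h', fun l hl => ?_⟩
  have e := xEB_cast hv hl
  have e' := xEB_site (Nat.prime_of_mem_primeFactors hl) (xEB_ne hs hl) h.1 h' e
  have := h.2 l hl
  simp only [LocC, ← ZMod.intCast_zmod_eq_zero_iff_dvd] at this ⊢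
  simpa only [e, e'] using this

theorem xEB_good {Q : Finset ℕ} {t : ℕ → Fin 12} {c c' : ℕ → F12} (e : ∀ l ∈ Q, c l = c' l)
    (h : Good Q t c) : Good Q t c' := by
  refine fun x y hk => h x y ⟨fun l hl => ?_, fun τ => ?_⟩
  · rw [e l hl]
    exact hk.1 l hl
  · rw [sum_congr rfl fun l hl => by rw [e l hl]]
    exact hk.2 τ

theorem xEB_bord {s : S12} (hs : SOK s) {v v' : V10} (h : Cond s v)
    (hv : ∀ i, (KK s : ℤ) ∣ v i - v' i) {l : ℕ} (hl : l ∈ PS s) (σ : Fin 12) :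
    bord v σ l = bord v' σ l := by
  have e' := xEB_site (Nat.prime_of_mem_primeFactors hl) (xEB_ne hs hl) h.1
    (xEB_240 hs h.1 hv) (xEB_cast hv hl)
  have e : cr v σ l = cr v' σ l := by
    funext τ
    have h1 : site v τ ≡ site v' τ [ZMOD l] := (ZMod.intCast_eq_intCast_iff _ _ _).1 (e' τ)
    have h2 := h1.mul_left (if cls σ < cls τ then sg τ else 1)
    rw [cr, cr, P.sy, P.sy, jacobiSym.mod_left' h2]
  rw [bord_eq, bord_eq, e]

theorem GG_per10 {s : S12} (hs : SOK s) : Per10 (KK s) (GG s) := by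
  have key : ∀ v v' : V10, (∀ i, (KK s : ℤ) ∣ v i - v' i) →
      Cond s v ∧ Good (PS s) (st s) (fun l => bord v (st s l) l) →
      Cond s v' ∧ Good (PS s) (st s) (fun l => bord v' (st s l) l) := fun v v' hv h =>
    ⟨h.1.per hs hv, xEB_good (fun l hl => xEB_bord hs h.1 hv hl _) h.2⟩
  intro v v' hv
  exact if_congr ⟨key v v' hv, key v' v fun i => dvd_sub_comm.1 (hv i)⟩ rfl rfl

theorem GG_01 (s : S12) (v : V10) : GG s v = 0 ∨ (GG s v = 1 ∧ Cond s v) := by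
  unfold GG
  split_ifs with h
  · exact Or.inr ⟨rfl, h.1⟩
  · exact Or.inl rfl

theorem sL_mul_sM (s : S12) : sL s * sM s = SP s := by
  have : SP s = s 0 * s 1 * s 2 * s 3 * s 4 * s 5 * s 6 * s 7 * s 8 * s 9 * s 10 * s 11 := by
    simp only [SP, Fin.prod_univ_succ, Fin.prod_univ_zero, mul_one, mul_assoc]
    rfl
  rw [this, sL, sM]
  ring

theorem mem_SSet {Z : ℕ} {s : S12} : s ∈ SSet Z ↔ SOK s ∧ SP s ≤ Z := by
  rw [SSet, Finset.mem_filter]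
  refine ⟨fun h => h.2, fun h => ⟨Fintype.mem_piFinset.2 fun σ => Finset.mem_Icc.2
    ⟨h.1.pos σ, le_trans ?_ h.2⟩, h⟩⟩
  exact Nat.le_of_dvd (Nat.pos_of_ne_zero h.1.1.ne_zero) (xEB_dvd s σ)

theorem le_SP {s : S12} (hs : SOK s) (σ : Fin 12) : s σ ≤ SP s :=
  Nat.le_of_dvd (Nat.pos_of_ne_zero hs.1.ne_zero) (xEB_dvd s σ)

theorem upd_apply (v : V10) (a b : ℤ) : upd v a b 0 = a ∧ upd v a b 1 = b ∧
    ∀ i : Fin 10, 2 ≤ i.val → upd v a b i = v i := by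
  refine ⟨by simp [upd], by simp [upd], fun i hi => ?_⟩
  have h0 : i ≠ 0 := fun e => by simp [e] at hi
  have h1 : i ≠ 1 := fun e => by simp [e] at hi
  simp [upd, h0, h1]

theorem pt4_apply (v : V10) (a b m u : ℤ) : pt4 v a b m u 0 = a ∧ pt4 v a b m u 1 = b ∧
    pt4 v a b m u 5 = m ∧ pt4 v a b m u 7 = u ∧
    ∀ i : Fin 10, i ≠ 0 → i ≠ 1 → i ≠ 5 → i ≠ 7 → pt4 v a b m u i = v i := by
  refine ⟨by simp [pt4, upd], by simp [pt4, upd], by simp [pt4, upd], by simp [pt4, upd],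
    fun i h0 h1 h5 h7 => ?_⟩
  simp [pt4, upd, h0, h1, h5, h7]

theorem xEB_sz {y a b c u x0 x1 x2 x3 x5 x6 : ℕ} (hy : 64 ≤ y) (ha : y ≤ a) (hb : y ≤ b)
    (hc : y ≤ c) (hu : a * b * c ≤ u) (h5 : u ^ 5 ≤ x5) (h5' : x5 ≤ u ^ 10) (h2 : u ^ 13 ≤ x2)
    (h0 : x2 ≤ x0) (b1 : x0 * a * x6 ^ 2 = 256 * (x5 * x1 * b ^ 2))
    (b2 : x2 * x5 * b ^ 2 = 64 * (a * x3 * c ^ 2))
    (b3 : a * x1 * c ^ 2 = 16 * (x0 * x5 * u ^ 2)) :
    a ≤ u ∧ b ≤ u ∧ c ≤ u ∧ u ≤ x5 ∧ x5 ≤ x2 ∧ x0 ≤ x1 ∧ x1 ≤ x0 ^ 2 ∧ x2 ≤ x3 ∧ x3 ≤ x2 ^ 2 ∧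
      y ≤ x6 ∧ x6 ≤ x2 := by
  have a1 : 1 ≤ a := by omega
  have b1' : 1 ≤ b := by omega
  have c1 : 1 ≤ c := by omega
  have au : a ≤ u := le_trans (by
    calc a = a * 1 * 1 := by ring
      _ ≤ a * b * c := by gcongr) hu
  have bu : b ≤ u := le_trans (by
    calc b = 1 * b * 1 := by ring
      _ ≤ a * b * c := by gcongr) hu
  have cu : c ≤ u := le_trans (by
    calc c = 1 * 1 * c := by ring
      _ ≤ a * b * c := by gcongr) hu
  have u64 : 64 ≤ u := by omega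
  have u1 : 1 ≤ u := by omega
  have pw : ∀ i j : ℕ, i ≤ j → u ^ i ≤ u ^ j := fun i j h => Nat.pow_le_pow_right u1 h
  have u5 : u ≤ x5 := le_trans (by simpa using pw 1 5 (by norm_num)) h5
  have x52 : x5 ≤ x2 := h5'.trans ((pw 10 13 (by norm_num)).trans h2)
  have x51 : 1 ≤ x5 := by omega
  have x01 : 1 ≤ x0 := by omega
  have hac : 0 < a * c ^ 2 := by positivity
  refine ⟨au, bu, cu, u5, x52, ?_, ?_, ?_, ?_, ?_⟩
  · refine Nat.le_of_mul_le_mul_left ?_ hac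
    calc a * c ^ 2 * x0 = 1 * (x0 * a * c ^ 2) := by ring
      _ ≤ 16 * (x0 * x5 * u ^ 2) := by gcongr <;> omega
      _ = a * c ^ 2 * x1 := by rw [← b3]; ring
  · calc x1 = 1 * x1 * 1 ^ 2 := by ring
      _ ≤ a * x1 * c ^ 2 := by gcongr
      _ = 16 * (x0 * x5 * u ^ 2) := b3
      _ ≤ u * (x0 * u ^ 10 * u ^ 2) := by gcongr; omega
      _ = x0 * u ^ 13 := by ring
      _ ≤ x0 * x0 := by gcongr; omega
      _ = x0 ^ 2 := by ring
  · refine Nat.le_of_mul_le_mul_left ?_ (show 0 < 64 * (a * c ^ 2) by positivity)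
    calc 64 * (a * c ^ 2) * x2 ≤ u * (u * u ^ 2) * x2 := by gcongr
      _ = x2 * u ^ 4 * 1 ^ 2 := by ring
      _ ≤ x2 * x5 * b ^ 2 := by gcongr; exact (pw 4 5 (by norm_num)).trans h5
      _ = 64 * (a * c ^ 2) * x3 := by rw [b2]; ring
  · calc x3 = 1 * (1 * x3 * 1 ^ 2) := by ring
      _ ≤ 64 * (a * x3 * c ^ 2) := by gcongr; norm_num
      _ = x2 * x5 * b ^ 2 := b2.symm
      _ ≤ x2 * u ^ 10 * u ^ 2 := by gcongr
      _ = x2 * u ^ 12 := by ring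
      _ ≤ x2 * x2 := by gcongr; exact (pw 12 13 (by norm_num)).trans h2
      _ = x2 ^ 2 := by ring
  have e1 : x0 * (a * c * x6) ^ 2 = x0 * (64 * x5 * b * u) ^ 2 := by
    calc x0 * (a * c * x6) ^ 2 = x0 * a * x6 ^ 2 * (a * c ^ 2) := by ring
      _ = 256 * x5 * b ^ 2 * (a * x1 * c ^ 2) := by rw [b1]; ring
      _ = x0 * (64 * x5 * b * u) ^ 2 := by rw [b3]; ring
  have e2 : a * c * x6 = 64 * x5 * b * u :=
    Nat.pow_left_injective (by norm_num : 2 ≠ 0) (Nat.eq_of_mul_eq_mul_left x01 e1)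
  constructor
  · refine Nat.le_of_mul_le_mul_left ?_ (show 0 < a * c by positivity)
    calc a * c * y ≤ u * u * u := by gcongr; omega
      _ = 1 * u ^ 3 * 1 * 1 := by ring
      _ ≤ 64 * x5 * b * u := by
        gcongr
        · norm_num
        · exact (pw 3 5 (by norm_num)).trans h5
      _ = a * c * x6 := e2.symm
  · calc x6 = 1 * 1 * x6 := by ring
      _ ≤ a * c * x6 := by gcongr
      _ = 64 * x5 * b * u := e2
      _ ≤ u * u ^ 10 * u * u := by gcongr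
      _ = u ^ 13 := by ring
      _ ≤ x2 := h2

theorem xEB_all {P : Fin 10 → Prop} (h0 : P 0) (h1 : P 1) (h2 : P 2) (h3 : P 3) (h4 : P 4)
    (h5 : P 5) (h6 : P 6) (h7 : P 7) (h8 : P 8) (h9 : P 9) (i : Fin 10) : P i := by
  fin_cases i <;> assumption

/-- Crude sizes. -/
theorem Reg.sizes {X : Fin 10 → ℕ} {Z : ℕ} (h : Reg X Z) :
    (∀ i, Z ^ 1000 ≤ X i) ∧ (∀ i : Fin 10, 2 ≤ i.val → X i ^ 400 ≤ X 0) ∧ X 0 ≤ X 1 ∧
      X 1 ≤ X 0 ^ 2 ∧ X 7 ≤ X 5 ∧ (X 4 * X 9) ^ 1000 ≤ X 7 := by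
  have hy : 64 ≤ Z ^ 1000 :=
    le_trans (by norm_num : 64 ≤ 2 ^ 6) ((Nat.pow_le_pow_left h.z2 6).trans
      (Nat.pow_le_pow_right (le_trans one_le_two h.z2) (by norm_num)))
  have h4 := h.h4
  have h8 := h.h8
  have h9 := h.h9
  generalize Z ^ 1000 = y at hy h4 h8 h9 ⊢
  have hu : X 4 * X 8 * X 9 ≤ X 7 := (Nat.le_self_pow (by norm_num) _).trans h.h7
  have p4 : 0 < X 4 := by omega
  have p8 : 0 < X 8 := by omega
  have p9 : 0 < X 9 := by omega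
  have u1 : 1 ≤ X 7 := le_trans (Nat.mul_pos (Nat.mul_pos p4 p8) p9) hu
  have h13 : X 7 ^ 13 ≤ X 2 := (Nat.pow_le_pow_right u1 (by norm_num)).trans h.h2
  have h20 : X 2 ≤ X 0 := (Nat.le_self_pow (by norm_num) _).trans h.h0
  obtain ⟨k4, k8, k9, k75, k52, k01, k10, k23, k32, k6, k62⟩ :=
    xEB_sz hy h4 h8 h9 hu h.h5 h.h5' h13 h20 h.b1 h.b2 h.b3
  have x21 : 1 ≤ X 2 := by omega
  have pw : ∀ n : ℕ, n ≤ X 2 ^ 2 → n ^ 400 ≤ X 0 := fun n hn => by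
    refine (Nat.pow_le_pow_left hn 400).trans ?_
    rw [← pow_mul]
    exact (Nat.pow_le_pow_right x21 (by norm_num)).trans h.h0
  have h22 : X 2 ≤ X 2 ^ 2 := Nat.le_self_pow (by norm_num) _
  generalize X 2 ^ 2 = w at pw h22 k32
  refine ⟨?_, ?_, k01, k10, k75, le_trans (Nat.pow_le_pow_left ?_ _) h.h7⟩
  · apply xEB_all <;> omega
  · apply xEB_all
    · intro hi
      exact absurd hi (by decide)
    · intro hi
      exact absurd hi (by decide)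
    all_goals exact fun _ => pw _ (by omega)
  · exact Nat.mul_le_mul_right _ (Nat.le_mul_of_pos_right _ p8)

theorem xEB_log (c N : ℕ) (hN : N ≠ 0) : ∃ X0 : ℕ, ∀ x Z : ℕ, 2 ≤ Z → Z ^ 1000 ≤ x → x ≤ Z ^ N →
    X0 ≤ x → Real.log x ^ c ≤ Z ∧ 1 + Real.log Z ≤ Real.log x ∧ (c : ℝ) ≤ Real.log x := by
  have hN' : (0 : ℝ) < N := Nat.cast_pos.2 (Nat.pos_of_ne_zero hN)
  have e1 := (Real.isLittleO_pow_log_id_atTop (n := c)).def (c := 1 / (N : ℝ) ^ c) (by positivity)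
  have e2 := Real.tendsto_log_atTop.eventually_ge_atTop (c : ℝ)
  obtain ⟨z, hz⟩ := Filter.eventually_atTop.1 (e1.and e2)
  refine ⟨⌈z⌉₊ ^ N, fun x Z h2 h3 h4 h5 => ?_⟩
  have h6 : ⌈z⌉₊ ≤ Z := (Nat.pow_le_pow_iff_left hN).1 (h5.trans h4)
  obtain ⟨h7, h8⟩ := hz Z ((Nat.le_ceil z).trans (Nat.cast_le.2 h6))
  have z2 : (2 : ℝ) ≤ Z := by exact_mod_cast h2
  have l2 : Real.log 2 ≤ Real.log Z := Real.log_le_log (by norm_num) z2
  have l3 := Real.log_two_gt_d9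
  have zp : 0 < Z ^ 1000 := Nat.pow_pos (by omega)
  have xp : (0 : ℝ) < x := Nat.cast_pos.2 (zp.trans_le h3)
  have l4 : 1000 * Real.log Z ≤ Real.log x := by
    have := Real.log_le_log (Nat.cast_pos.2 zp) (Nat.cast_le.2 h3)
    rwa [Nat.cast_pow, Real.log_pow, Nat.cast_ofNat] at this
  have l5 : Real.log x ≤ N * Real.log Z := by
    have := Real.log_le_log xp (Nat.cast_le.2 h4)
    rwa [Nat.cast_pow, Real.log_pow] at this
  refine ⟨?_, by linarith, by linarith⟩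
  have l6 : 0 ≤ Real.log Z := by linarith
  rw [Real.norm_of_nonneg (pow_nonneg l6 c), id, Real.norm_of_nonneg (Nat.cast_nonneg _),
    div_mul_eq_mul_div, one_mul, le_div_iff₀ (pow_pos hN' c), ← mul_pow, mul_comm] at h7
  exact (pow_le_pow_left₀ (by linarith) l5 c).trans h7

/-- Powers of the logarithm are below `Z`. -/
theorem Reg.log_le (c : ℕ) : ∃ X0 : ℕ, ∀ (X : Fin 10 → ℕ) (Z : ℕ), Reg X Z → X0 ≤ X 0 →
    Real.log (X 0) ^ c ≤ Z ∧ 1 + Real.log Z ≤ Real.log (X 0) ∧ (c : ℝ) ≤ Real.log (X 0) := by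
  obtain ⟨X0, h⟩ := xEB_log c (10 ^ 14) (pow_ne_zero _ (by norm_num))
  exact ⟨X0, fun X Z hR h0 => h (X 0) Z hR.z2 (hR.sizes.1 0) hR.top h0⟩

theorem Vol_eq (X : Fin 10 → ℕ) : Vol X = X 0 * X 1 * Vol8 X := by
  have e : univ.filter (fun i : Fin 10 => ¬ 2 ≤ i.val) = {0, 1} := by decide
  rw [Vol, Vol8, ← Finset.prod_filter_mul_prod_filter_not univ (fun i : Fin 10 => 2 ≤ i.val), e,
    Finset.prod_pair (by decide), mul_comm]

end Pool.Agent.MP_e23604_nt.U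

end
end

section

/-!
Sums over the small parts.
-/

open Finset
open scoped Classical

noncomputable section

namespace Pool.Agent.MP_e23604_nt.U

open P (gg WW Datum Wt)

theorem xE2c_harm (Z : ℕ) : ∑ x ∈ Icc 1 Z, (1 : ℝ) / x ≤ 1 + Real.log Z := by
  have := harmonic_le_one_add_log Z
  rw [harmonic_eq_sum_Icc] at this
  push_cast at this
  simpa only [one_div] using this

theorem xE2c_mult (Z d : ℕ) (hd : 1 ≤ d) :
    ∑ n ∈ Icc 1 Z, (if d ∣ n then (1 : ℝ) else 0) / n ≤ 1 / d * (1 + Real.log Z) := by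
  calc _ = ∑ n ∈ (Icc 1 Z).filter (d ∣ ·), (1 : ℝ) / n := by
        rw [sum_filter]
        exact sum_congr rfl fun n _ => by split_ifs <;> simp
    _ ≤ ∑ n ∈ (Icc 1 Z).image (d * ·), (1 : ℝ) / n := by
        refine sum_le_sum_of_subset_of_nonneg (fun n hn => ?_) fun _ _ _ => by positivity
        obtain ⟨h, m, rfl⟩ := mem_filter.1 hn
        rw [mem_Icc] at h
        refine mem_image.2 ⟨m, mem_Icc.2 ⟨Nat.pos_of_mul_pos_left h.1, ?_⟩, rfl⟩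
        exact (Nat.le_mul_of_pos_left m hd).trans h.2
    _ = 1 / d * ∑ m ∈ Icc 1 Z, (1 : ℝ) / m := by
        rw [sum_image fun a _ b _ h => Nat.eq_of_mul_eq_mul_left hd h, mul_sum]
        exact sum_congr rfl fun m _ => by rw [Nat.cast_mul, one_div_mul_one_div]
    _ ≤ _ := mul_le_mul_of_nonneg_left (xE2c_harm Z) (by positivity)

theorem xE2c_gcd (Z d : ℕ) (hd : 1 ≤ d) :
    ∑ n ∈ Icc 1 Z, (Nat.gcd d n : ℝ) / n ≤ d.divisors.card * (1 + Real.log Z) := by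
  calc _ ≤ ∑ n ∈ Icc 1 Z, ∑ e ∈ d.divisors, e * ((if e ∣ n then (1 : ℝ) else 0) / n) := by
        refine sum_le_sum fun n _ => le_trans (le_of_eq ?_) (single_le_sum
          (f := fun e : ℕ => e * ((if e ∣ n then (1 : ℝ) else 0) / n)) (a := Nat.gcd d n)
          (fun e _ => by split_ifs <;> positivity)
          (Nat.mem_divisors.2 ⟨Nat.gcd_dvd_left _ _, by omega⟩))
        simp only [if_pos (Nat.gcd_dvd_right d n), mul_one_div]
    _ ≤ ∑ _e ∈ d.divisors, (1 + Real.log Z) := by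
        rw [sum_comm]
        refine sum_le_sum fun e he => ?_
        have h : 1 ≤ e := Nat.pos_of_mem_divisors he
        have h' : (0 : ℝ) < e := by exact_mod_cast h
        rw [← mul_sum]
        refine (mul_le_mul_of_nonneg_left (xE2c_mult Z e h) h'.le).trans_eq ?_
        field_simp
    _ = _ := by rw [sum_const, nsmul_eq_mul]

theorem xE2c_main (Z : ℕ) (σ : Fin 12) (w : ℕ → ℝ) (hw : ∀ n, 0 ≤ w n) (a : ℝ)
    (h : ∑ n ∈ Icc 1 Z, w n / n ≤ a * (1 + Real.log Z)) :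
    ∑ s ∈ SSet Z, w (s σ) / SP s ≤ a * (1 + Real.log Z) ^ 12 := by
  calc _ ≤ ∑ s ∈ Fintype.piFinset fun _ : Fin 12 => Icc 1 Z, w (s σ) / SP s :=
        sum_le_sum_of_subset_of_nonneg (filter_subset _ _) fun s _ _ =>
          div_nonneg (hw _) (Nat.cast_nonneg _)
    _ = ∏ τ : Fin 12, ∑ n ∈ Icc 1 Z, (if τ = σ then w n else 1) / n := by
        rw [prod_univ_sum]
        refine sum_congr rfl fun s _ => ?_
        rw [SP, Nat.cast_prod, prod_div_distrib, prod_ite_eq', if_pos (mem_univ _)]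
    _ ≤ ∏ τ : Fin 12, (if τ = σ then a else 1) * (1 + Real.log Z) := by
        refine prod_le_prod (fun τ _ => sum_nonneg fun n _ => ?_) fun τ _ => ?_
        · have := hw n
          split_ifs <;> positivity
        · split_ifs
          · exact h
          · rw [one_mul]
            exact xE2c_harm Z
    _ = _ := by
        rw [prod_mul_distrib, prod_ite_eq', if_pos (mem_univ _), prod_const, card_univ,
          Fintype.card_fin]

theorem E2c_pf  : E2c := by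
  intro Z _
  refine ⟨?_, fun d σ hd => ⟨?_, xE2c_main Z σ (fun n => Nat.gcd d n)
    (fun _ => Nat.cast_nonneg _) _ (xE2c_gcd Z d hd)⟩⟩
  · simpa only [one_mul] using xE2c_main Z 0 (fun _ => 1) (fun _ => zero_le_one) 1
      (by rw [one_mul]; exact xE2c_harm Z)
  · have := xE2c_main Z σ (fun n => if d ∣ n then 1 else 0)
      (fun _ => by split_ifs <;> positivity) _ (xE2c_mult Z d hd)
    rw [sum_filter]
    refine le_trans (le_of_eq (sum_congr rfl fun s _ => ?_)) (this.trans_eq (by ring))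
    split_ifs <;> simp

end Pool.Agent.MP_e23604_nt.U

end
end

section

/-!
All cells.
-/

open Finset
open scoped Classical

noncomputable section

namespace Pool.Agent.MP_e23604_nt.U

open P (gg WW Datum Wt)

theorem xE1_one (T : Fin 10 → Finset ℤ) (i : Fin 10) (c : ℤ) (f : V10 → ℝ) :
    ∑ v ∈ Fintype.piFinset T, f v =
      ∑ o ∈ Fintype.piFinset (Function.update T i {c}), ∑ t ∈ T i, f (Function.update o i t) := by
  rw [← sum_product' (f := fun (o : V10) t => f (Function.update o i t))]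
  refine sum_nbij' (fun v => (Function.update v i c, v i)) (fun z => Function.update z.1 i z.2)
    ?_ ?_ ?_ ?_ ?_
  · intro v hv
    rw [Fintype.mem_piFinset] at hv
    refine mem_product.2 ⟨Fintype.mem_piFinset.2 fun j => ?_, hv i⟩
    by_cases h : j = i
    · subst h
      simp
    · simp only [Function.update_of_ne h]
      exact hv j
  · intro z hz
    obtain ⟨h1, h2⟩ := mem_product.1 hz
    rw [Fintype.mem_piFinset] at h1 ⊢
    intro j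
    by_cases h : j = i
    · subst h
      simpa using h2
    · have := h1 j
      simp only [Function.update_of_ne h] at this ⊢
      exact this
  · intro v _
    simp
  · intro z hz
    have h1 := Fintype.mem_piFinset.1 (mem_product.1 hz).1 i
    rw [Function.update_self, mem_singleton] at h1
    refine Prod.ext ?_ (by simp)
    simp only [Function.update_idem]
    rw [← h1, Function.update_eq_self]
  · intro v _
    simp

/-- The six outer coordinates. -/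
def xE1_O (X : Fin 10 → ℕ) : Finset V10 :=
  Fintype.piFinset fun i => if i = 0 ∨ i = 1 ∨ i = 5 ∨ i = 7 then {(X i : ℤ) + 1} else
    Ioc (X i : ℤ) (2 * X i)

theorem xE1_four (X : Fin 10 → ℕ) (T : Fin 10 → Finset ℤ)
    (hT : ∀ i, ¬ (i = 0 ∨ i = 1 ∨ i = 5 ∨ i = 7) → T i = Ioc (X i : ℤ) (2 * X i)) (f : V10 → ℝ) :
    ∑ v ∈ Fintype.piFinset T, f v =
      ∑ o ∈ xE1_O X, ∑ a ∈ T 0, ∑ b ∈ T 1, ∑ m ∈ T 5, ∑ u ∈ T 7, f (pt4 o a b m u) := by
  rw [xE1_one T 7 (X 7 + 1), xE1_one _ 5 (X 5 + 1), xE1_one _ 1 (X 1 + 1), xE1_one _ 0 (X 0 + 1)]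
  refine sum_congr ?_ fun o _ => rfl
  rw [xE1_O]
  congr 1
  funext i
  by_cases h0 : i = 0
  · subst h0
    simp
  by_cases h1 : i = 1
  · subst h1
    simp
  by_cases h5 : i = 5
  · subst h5
    simp
  by_cases h7 : i = 7
  · subst h7
    simp
  rw [Function.update_of_ne h0, Function.update_of_ne h1, Function.update_of_ne h5,
    Function.update_of_ne h7, if_neg (by tauto), hT i (by tauto)]

theorem xE1_split (a b : ℤ) {K : ℕ} (hK : 1 ≤ K) (f : ℤ → ℝ) :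
    ∑ x ∈ Ioc a b, f x = ∑ r ∈ range K, ∑ x ∈ cl a b K r, f x := by
  have h := sum_cl_split a b 0 (le_refl 1) hK f
  have e : cl a b 1 0 = Ioc a b := by
    ext x
    rw [mem_cl, mem_Ioc]
    simp
  rw [e] at h
  simpa using h

theorem xE1_split2 (a b c d : ℤ) {K L : ℕ} (hK : 1 ≤ K) (hL : 1 ≤ L) (f : ℤ → ℤ → ℝ) :
    ∑ x ∈ Ioc a b, ∑ y ∈ Ioc c d, f x y =
      ∑ r ∈ range K, ∑ t ∈ range L, ∑ x ∈ cl a b K r, ∑ y ∈ cl c d L t, f x y := by
  rw [xE1_split a b hK]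
  refine sum_congr rfl fun r _ => ?_
  rw [sum_comm]
  conv_rhs => rw [sum_congr rfl fun t _ => sum_comm]
  exact xE1_split c d hL _

theorem xE1_comm {α β γ δ : Type} (S : Finset α) (T : Finset β) (U : Finset γ) (V : Finset δ)
    (g : α → β → γ → δ → ℝ) : ∑ a ∈ S, ∑ b ∈ T, ∑ c ∈ U, ∑ d ∈ V, g a b c d =
      ∑ c ∈ U, ∑ d ∈ V, ∑ a ∈ S, ∑ b ∈ T, g a b c d := by
  rw [← sum_product' (f := fun a b => ∑ c ∈ U, ∑ d ∈ V, g a b c d), sum_comm]
  refine sum_congr rfl fun c _ => ?_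
  rw [sum_comm]
  exact sum_congr rfl fun d _ => sum_product' _ _ fun a b => g a b c d

theorem xE1_split4 (a0 b0 a1 b1 a2 b2 a3 b3 : ℤ) {K0 K1 K2 K3 : ℕ} (h0 : 1 ≤ K0) (h1 : 1 ≤ K1)
    (h2 : 1 ≤ K2) (h3 : 1 ≤ K3) (f : ℤ → ℤ → ℤ → ℤ → ℝ) :
    ∑ x ∈ Ioc a0 b0, ∑ y ∈ Ioc a1 b1, ∑ m ∈ Ioc a2 b2, ∑ u ∈ Ioc a3 b3, f x y m u =
      ∑ r0 ∈ range K0, ∑ r1 ∈ range K1, ∑ r2 ∈ range K2, ∑ r3 ∈ range K3,
        ∑ x ∈ cl a0 b0 K0 r0, ∑ y ∈ cl a1 b1 K1 r1, ∑ m ∈ cl a2 b2 K2 r2, ∑ u ∈ cl a3 b3 K3 r3,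
          f x y m u := by
  refine (xE1_split2 a0 b0 a1 b1 h0 h1
    fun x y => ∑ m ∈ Ioc a2 b2, ∑ u ∈ Ioc a3 b3, f x y m u).trans ?_
  refine sum_congr rfl fun r0 _ => sum_congr rfl fun r1 _ => ?_
  refine Eq.trans ?_ (xE1_comm (cl a0 b0 K0 r0) (cl a1 b1 K1 r1) (range K2) (range K3)
    fun x y r2 r3 => ∑ m ∈ cl a2 b2 K2 r2, ∑ u ∈ cl a3 b3 K3 r3, f x y m u)
  exact sum_congr rfl fun x _ => sum_congr rfl fun y _ => xE1_split2 a2 b2 a3 b3 h2 h3 (f x y)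

theorem xE1_step {ι : Type} {S : Finset ι} {Q : Finset ℕ} {f N : ι → ℝ} {M : ℕ → ι → ℝ} {α β : ℝ}
    (h : ∀ i ∈ S, |f i| ≤ α * N i + β * ∑ q ∈ Q, M q i) :
    |∑ i ∈ S, f i| ≤ α * ∑ i ∈ S, N i + β * ∑ q ∈ Q, ∑ i ∈ S, M q i := by
  rw [sum_comm, mul_sum, mul_sum, ← sum_add_distrib]
  exact (abs_sum_le_sum_abs _ _).trans (sum_le_sum h)

theorem xE1_sub {X : Fin 10 → ℕ} {Z : ℕ} (h : Reg X Z) {o : V10} (ho : o ∈ xE1_O X) :
    o ∈ Box X := by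
  rw [xE1_O, Fintype.mem_piFinset] at ho
  refine Fintype.mem_piFinset.2 fun i => ?_
  have h1 := ho i
  split_ifs at h1 with h2
  · have h3 : 1 ≤ X i := le_trans (Nat.one_le_pow _ _ (lt_of_lt_of_le two_pos h.z2)) (h.sizes.1 i)
    rw [mem_singleton] at h1
    rw [h1, mem_Ioc]
    omega
  · exact h1

theorem xE1_cc {X : Fin 10 → ℕ} {v : V10} (hv : v ∈ Box X) : 1 ≤ cc v := by
  have h4 := (mem_Ioc.1 (Fintype.mem_piFinset.1 hv 4)).1
  have h9 := (mem_Ioc.1 (Fintype.mem_piFinset.1 hv 9)).1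
  have a4 : 0 < v 4 := by omega
  have a9 : 0 < v 9 := by omega
  have : 0 < 4 * v 4 * v 9 ^ 2 := by positivity
  rw [cc]
  omega

theorem xE1_mod {X : Fin 10 → ℕ} {Z : ℕ} {s : S12} (hs : s ∈ SSet Z) {v : V10} (hv : v ∈ Box X) :
    1 ≤ cc v * KK s ∧ 1 ≤ KK s * s 5 ∧ 1 ≤ s 5 * KP s v ∧ 1 ≤ KP s v := by
  have h := (mem_SSet.1 hs).1
  have h1 : 0 < cc v := xE1_cc hv
  have h2 : 0 < s 5 := h.pos 5
  have h3 : 0 < KK s := Nat.mul_pos (by norm_num) (lt_of_lt_of_le h2 (le_SP h 5))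
  have h4 : 0 < KP s v := Nat.mul_pos (Nat.mul_pos h1 h3) h2
  exact ⟨Nat.mul_pos h1 h3, Nat.mul_pos h3 h2, Nat.mul_pos h2 h4, h4⟩

theorem xE1_PE (X : Fin 10 → ℕ) (Z q : ℕ) (F : I8 → ℝ) :
    ∑ π ∈ PE X Z q, F π = ∑ s ∈ SSet Z, ∑ v ∈ O8 X,
      ∑ w ∈ (Ioc (X 5 : ℤ) (3 * X 5)).filter (fun w => (s, v, w) ∈ PE X Z q), F (s, v, w) := by
  have e : PE X Z q =
      (SSet Z ×ˢ O8 X ×ˢ Ioc (X 5 : ℤ) (3 * X 5)).filter fun π => π ∈ PE X Z q := by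
    ext π
    rw [mem_filter]
    exact ⟨fun h => ⟨(mem_filter.1 h).1, h⟩, fun h => h.2⟩
  conv_lhs => rw [e, sum_filter, sum_product]
  refine sum_congr rfl fun s _ => ?_
  rw [sum_product]
  exact sum_congr rfl fun v _ => (sum_filter _ _).symm

theorem xE1_A {X : Fin 10 → ℕ} {Z : ℕ} (h : Reg X Z) {s : S12} (hs : s ∈ SSet Z) (f : V10 → ℝ) :
    ∑ v ∈ Box X, f v = ∑ o ∈ xE1_O X, ∑ r0 ∈ range (cc o * KK s), ∑ r1 ∈ range (KK s * s 5),
      ∑ rm ∈ range (s 5 * KP s o), ∑ ru ∈ range (KP s o),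
      ∑ a ∈ cl (X 0) (2 * X 0) (cc o * KK s) r0, ∑ b ∈ cl (X 1) (2 * X 1) (KK s * s 5) r1,
      ∑ m ∈ cl (X 5) (2 * X 5) (s 5 * KP s o) rm, ∑ u ∈ cl (X 7) (2 * X 7) (KP s o) ru,
        f (pt4 o a b m u) := by
  rw [Box, xE1_four X _ fun _ _ => rfl]
  refine sum_congr rfl fun o ho => ?_
  obtain ⟨h0, h1, h2, h3⟩ := xE1_mod hs (xE1_sub h ho)
  exact xE1_split4 _ _ _ _ _ _ _ _ h0 h1 h2 h3 _

theorem xE1_B {X : Fin 10 → ℕ} {Z : ℕ} (h : Reg X Z) {s : S12} (hs : s ∈ SSet Z) (f : V10 → ℝ) :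
    ∑ v ∈ Box3 X, f v = ∑ o ∈ xE1_O X, ∑ r0 ∈ range (cc o * KK s), ∑ r1 ∈ range (KK s * s 5),
      ∑ rm ∈ range (s 5 * KP s o), ∑ ru ∈ range (KP s o),
      ∑ a ∈ cl (X 0) (2 * X 0) (cc o * KK s) r0, ∑ b ∈ cl (X 1) (2 * X 1) (KK s * s 5) r1,
      ∑ m ∈ cl (X 5) (3 * X 5) (s 5 * KP s o) rm, ∑ u ∈ cl (X 7) (2 * X 7) (KP s o) ru,
        f (pt4 o a b m u) := by
  rw [Box3, xE1_four X _ fun i hi => by rw [if_neg (by tauto)]]
  refine sum_congr rfl fun o ho => ?_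
  obtain ⟨h0, h1, h2, h3⟩ := xE1_mod hs (xE1_sub h ho)
  exact xE1_split4 _ _ _ _ _ _ _ _ h0 h1 h2 h3 _

theorem xE1_C {X : Fin 10 → ℕ} {Z : ℕ} (h : Reg X Z) {s : S12} (hs : s ∈ SSet Z) (f : V10 → ℝ) :
    ∑ v ∈ O8 X, f v = ∑ o ∈ xE1_O X, ∑ rm ∈ range (s 5 * KP s o), ∑ ru ∈ range (KP s o),
      ∑ m ∈ cl (X 5) (3 * X 5) (s 5 * KP s o) rm, ∑ u ∈ cl (X 7) (2 * X 7) (KP s o) ru,
        f (pt4 o 0 0 m u) := by
  rw [O8, xE1_four X _ fun i hi => by rw [if_neg (by tauto), if_neg (by tauto)]]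
  refine sum_congr rfl fun o ho => ?_
  obtain ⟨-, -, h2, h3⟩ := xE1_mod hs (xE1_sub h ho)
  rw [if_pos (Or.inl rfl), if_pos (Or.inr rfl), sum_singleton, sum_singleton]
  exact xE1_split2 _ _ _ _ h2 h3 _

theorem xE1_D {X : Fin 10 → ℕ} {Z : ℕ} (h : Reg X Z) (W q : ℕ) :
    ∑ π ∈ PE X Z q, rho X q π * Tab W X π = ∑ s ∈ SSet Z, ∑ o ∈ xE1_O X,
      ∑ r0 ∈ range (cc o * KK s), ∑ r1 ∈ range (KK s * s 5),
      ∑ rm ∈ range (s 5 * KP s o), ∑ ru ∈ range (KP s o),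
      ∑ m ∈ cl (X 5) (3 * X 5) (s 5 * KP s o) rm, ∑ u ∈ cl (X 7) (2 * X 7) (KP s o) ru,
        ∑ w ∈ (Ioc (X 5 : ℤ) (3 * X 5)).filter (fun w => (s, pt4 o 0 0 m u, w) ∈ PE X Z q),
          rho X q (s, pt4 o 0 0 m u, w) * |Tc W X s (pt4 o 0 0 m u) w r0 r1| := by
  rw [xE1_PE]
  refine sum_congr rfl fun s hs => ?_
  rw [xE1_C h hs]
  refine sum_congr rfl fun o _ => ?_
  rw [xE1_comm (range (cc o * KK s))]
  refine sum_congr rfl fun rm _ => sum_congr rfl fun ru _ => ?_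
  rw [xE1_comm (range (cc o * KK s))]
  refine sum_congr rfl fun m _ => sum_congr rfl fun u _ => ?_
  have e : cc (pt4 o 0 0 m u) = cc o := by
    have h1 := (pt4_apply o 0 0 m u).2.2.2.2
    rw [cc, cc, h1 4 (by decide) (by decide) (by decide) (by decide),
      h1 9 (by decide) (by decide) (by decide) (by decide)]
  simp only [Tab, e, mul_sum]
  rw [sum_comm]
  exact sum_congr rfl fun r0 _ => sum_comm

theorem E1_pf (h1 : E1a) : E1 := by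
  obtain ⟨C, hC⟩ := h1
  refine ⟨C, fun B a ha => ?_⟩
  obtain ⟨X0, hX⟩ := hC B a ha
  refine ⟨X0, fun X Z hR h0 G1 G2 H hE => ?_⟩
  have hc := hX X Z hR h0 G1 G2 H hE
  rw [SS, sum_congr rfl fun s hs => xE1_A hR hs _, sum_congr rfl fun q _ => xE1_D hR _ q]
  simp only [card_filter, Nat.cast_sum, Nat.cast_ite, Nat.cast_one, Nat.cast_zero]
  rw [sum_congr rfl fun s hs => xE1_B hR hs _]
  exact xE1_step fun s hs => xE1_step fun o ho => xE1_step fun r0 _ => xE1_step fun r1 _ =>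
    xE1_step fun rm _ => xE1_step fun ru _ => hc s hs o (xE1_sub hR ho) r0 r1 rm ru

end Pool.Agent.MP_e23604_nt.U

end
end

section

/-!
Counting in the inner coordinates.
-/

open Finset
open scoped Classical

noncomputable section

namespace Pool.Agent.MP_e23604_nt.U

open P (gg WW Datum Wt)

theorem xE2a_four {s : S12} (hs : SOK s) (σ : Fin 12) : IsCoprime (4 : ℤ) (s σ : ℤ) := by
  have h : Nat.Coprime 2 (s σ) :=
    (Nat.prime_two.coprime_iff_not_dvd).2 fun hd => (hs.odd Nat.prime_two hd).1 rfl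
  have h2 : IsCoprime ((2 : ℕ) : ℤ) (s σ : ℤ) := Nat.isCoprime_iff_coprime.2 h
  have := h2.pow_left (m := 2)
  norm_num at this ⊢
  exact this

theorem xE2a_site (v : V10) (a b : ℤ) :
    site (upd v a b) 0 = a ∧ site (upd v a b) 1 = b ∧
    site (upd v a b) 6 = a * v 2 * v 6 ^ 2 - 4 * v 3 * b * v 9 ^ 2 ∧
    site (upd v a b) 7 = 4 * v 2 * b * v 8 ^ 2 - a * v 3 * v 7 ^ 2 ∧
    site (upd v a b) 10 = a * v 4 * v 6 ^ 2 - 4 * v 5 * b * v 8 ^ 2 ∧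
    site (upd v a b) 11 = 4 * v 4 * b * v 9 ^ 2 - a * v 5 * v 7 ^ 2 :=
  ⟨rfl, rfl, rfl, rfl, rfl, rfl⟩

theorem xE2a_one {s : S12} (hs : SOK s) {v : V10} {a b : ℤ} (h : Cond s (upd v a b)) (σ τ : Fin 12)
    (i j : Fin 10) (hτ : τ ≠ σ) (hi : site (upd v a b) τ = upd v a b i) (hi2 : 2 ≤ i.val)
    (hj : 6 ≤ j.val) {x : ℤ} (hx : (s σ : ℤ) ∣ 4 * v i * v j ^ 2 * x) : (s σ : ℤ) ∣ x := by
  have c1 := Cond.unit hs h σ i (Or.inr ⟨τ, hτ, hi⟩)
  have c2 := Cond.unit hs h σ j (Or.inl hj)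
  rw [(upd_apply v a b).2.2 i hi2] at c1
  rw [(upd_apply v a b).2.2 j (by omega)] at c2
  exact (((xE2a_four hs σ).mul_left c1).mul_left c2.pow_left).symm.dvd_of_dvd_mul_left hx

theorem xE2a_diff {s : S12} (hs : SOK s) {v : V10} {a b b' : ℤ} (h : Cond s (upd v a b))
    (h' : Cond s (upd v a b')) : ((s 1 * s 6 * s 7 * s 10 * s 11 : ℕ) : ℤ) ∣ b - b' := by
  obtain ⟨-, e1, e6, e7, e10, e11⟩ := xE2a_site v a b
  obtain ⟨-, f1, f6, f7, f10, f11⟩ := xE2a_site v a b'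
  have d : ∀ σ, (s σ : ℤ) ∣ site (upd v a b) σ - site (upd v a b') σ := fun σ =>
    dvd_sub (Cond.dvd hs h σ) (Cond.dvd hs h' σ)
  have d1 : (s 1 : ℤ) ∣ b - b' := by
    have := d 1
    rwa [e1, f1] at this
  have d6 : (s 6 : ℤ) ∣ b - b' := by
    refine xE2a_one hs h 6 9 3 9 (by decide) rfl (by decide) (by decide) ?_
    have := (d 6).neg_right
    rw [e6, f6] at this
    exact this.trans (dvd_of_eq (by ring))
  have d7 : (s 7 : ℤ) ∣ b - b' := by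
    refine xE2a_one hs h 7 8 2 8 (by decide) rfl (by decide) (by decide) ?_
    have := d 7
    rw [e7, f7] at this
    exact this.trans (dvd_of_eq (by ring))
  have d10 : (s 10 : ℤ) ∣ b - b' := by
    refine xE2a_one hs h 10 5 5 8 (by decide) rfl (by decide) (by decide) ?_
    have := (d 10).neg_right
    rw [e10, f10] at this
    exact this.trans (dvd_of_eq (by ring))
  have d11 : (s 11 : ℤ) ∣ b - b' := by
    refine xE2a_one hs h 11 4 4 9 (by decide) rfl (by decide) (by decide) ?_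
    have := d 11
    rw [e11, f11] at this
    exact this.trans (dvd_of_eq (by ring))
  have c : ∀ σ τ : Fin 12, σ ≠ τ → IsCoprime (s σ : ℤ) (s τ : ℤ) := fun σ τ hne =>
    Nat.isCoprime_iff_coprime.2 (hs.cop hne)
  push_cast
  refine IsCoprime.mul_dvd ?_ (IsCoprime.mul_dvd ?_ (IsCoprime.mul_dvd ?_
    (IsCoprime.mul_dvd (c 1 6 (by decide)) d1 d6) d7) d10) d11
  · exact (((c 1 11 (by decide)).mul_left (c 6 11 (by decide))).mul_left
      (c 7 11 (by decide))).mul_left (c 10 11 (by decide))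
  · exact ((c 1 10 (by decide)).mul_left (c 6 10 (by decide))).mul_left (c 7 10 (by decide))
  · exact (c 1 7 (by decide)).mul_left (c 6 7 (by decide))

theorem xE2a_bd {x P : ℝ} {D : ℕ} (hD : 1 ≤ D) (hP : (D : ℝ) ≤ P) :
    x / D + 1 ≤ (x + P) / D := by
  have : (0 : ℝ) < D := by exact_mod_cast hD
  rw [div_add_one this.ne']
  gcongr

theorem E2a_pf  : E2a := by
  intro s v a1 a2 b1 b2 hs ha hb
  set D : ℕ := s 1 * s 6 * s 7 * s 10 * s 11 with hD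
  have hL : sL s = s 0 * D := by
    rw [hD, sL]
    ring
  have hSP : 1 ≤ SP s := (hs.pos 0).trans (le_SP hs 0)
  have hD1 : 1 ≤ D := by
    have := hs.pos
    exact Nat.mul_pos (Nat.mul_pos (Nat.mul_pos (Nat.mul_pos (this 1) (this 6)) (this 7))
      (this 10)) (this 11)
  have hD2 : D ≤ SP s := Nat.le_of_dvd hSP ⟨s 0 * sM s, by rw [← sL_mul_sM, hL]; ring⟩
  set A : Finset ℤ := (Ioc a1 a2).filter fun a => (s 0 : ℤ) ∣ a with hA
  have cA : (A.card : ℝ) ≤ (((a2 : ℝ) - a1) + SP s) / s 0 :=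
    (card_sparse_le a1 a2 ha (hs.pos 0) A (filter_subset _ _) fun x hx y hy =>
      dvd_sub (mem_filter.1 hx).2 (mem_filter.1 hy).2).trans
      (xE2a_bd (hs.pos 0) (by exact_mod_cast le_SP hs 0))
  have cB : ∀ a, ((((Ioc b1 b2).filter fun b => Cond s (upd v a b)).card : ℕ) : ℝ) ≤
      (((b2 : ℝ) - b1) + SP s) / D := fun a =>
    (card_sparse_le b1 b2 hb hD1 _ (filter_subset _ _) fun x hx y hy =>
      xE2a_diff hs (mem_filter.1 hx).2 (mem_filter.1 hy).2).trans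
      (xE2a_bd hD1 (by exact_mod_cast hD2))
  have sub : ((Ioc a1 a2 ×ˢ Ioc b1 b2).filter fun z => Cond s (upd v z.1 z.2)) ⊆
      A.biUnion fun a => ((Ioc b1 b2).filter fun b => Cond s (upd v a b)).image (Prod.mk a) := by
    intro z hz
    obtain ⟨h1, h2⟩ := mem_filter.1 hz
    obtain ⟨h3, h4⟩ := mem_product.1 h1
    refine mem_biUnion.2 ⟨z.1, mem_filter.2 ⟨h3, ?_⟩, mem_image.2 ⟨z.2, mem_filter.2 ⟨h4, h2⟩, rfl⟩⟩
    have := Cond.dvd hs h2 0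
    rwa [(xE2a_site v z.1 z.2).1] at this
  have c1 := (card_le_card sub).trans (card_biUnion_le.trans (sum_le_sum fun a _ => card_image_le))
  have c2 : (((Ioc a1 a2 ×ˢ Ioc b1 b2).filter fun z => Cond s (upd v z.1 z.2)).card : ℝ) ≤
      A.card * ((((b2 : ℝ) - b1) + SP s) / D) := by
    refine le_trans (Nat.cast_le.2 c1) ?_
    rw [← nsmul_eq_mul, Nat.cast_sum]
    exact sum_le_card_nsmul _ _ _ fun a _ => cB a
  have hb' : (0 : ℝ) ≤ (b2 : ℝ) - b1 := by exact_mod_cast sub_nonneg.2 hb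
  refine c2.trans ((mul_le_mul_of_nonneg_right cA (by positivity)).trans (le_of_eq ?_))
  rw [hL, Nat.cast_mul (s 0) D, div_mul_div_comm]

end Pool.Agent.MP_e23604_nt.U

end
end

section

/-!
Counting in the long box.
-/

open Finset
open scoped Classical

noncomputable section

namespace Pool.Agent.MP_e23604_nt.U

open P (gg WW Datum Wt)

theorem xE2_upd (v : V10) (a b c d : ℤ) : upd (upd v a b) c d = upd v c d := by
  funext i
  unfold upd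
  by_cases h1 : i = 1
  · simp [h1]
  · by_cases h0 : i = 0 <;> simp [h0, h1]

theorem xE2_self (v : V10) : upd v (v 0) (v 1) = v := by
  funext i
  unfold upd
  by_cases h1 : i = 1
  · simp [h1]
  · by_cases h0 : i = 0 <;> simp [h0, h1]

theorem xE2_one (h1 : E2a) (h2 : E2b) {X : Fin 10 → ℕ} {Z : ℕ} (hR : Reg X Z) {s : S12}
    (hs : s ∈ SSet Z) :
    (((Box3 X).filter fun v => Cond s v).card : ℝ) ≤ 400 * Vol X * (1 / SP s) := by
  obtain ⟨ok, hZ⟩ := mem_SSet.1 hs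
  have hX : ∀ i, (SP s : ℝ) ≤ X i := fun i => by
    exact_mod_cast hZ.trans ((Nat.le_self_pow (by norm_num) Z).trans (hR.sizes.1 i))
  have hm : ∀ v ∈ (Box3 X).filter fun v => Cond s v,
      upd v 0 0 ∈ (O8 X).filter fun v => ∃ a b, Cond s (upd v a b) := by
    intro v hv
    obtain ⟨a1, a2⟩ := mem_filter.1 hv
    refine mem_filter.2 ⟨Fintype.mem_piFinset.2 fun i => ?_, v 0, v 1, by
      rwa [xE2_upd, xE2_self]⟩
    by_cases h : i = 0 ∨ i = 1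
    · rw [if_pos h, mem_singleton]
      rcases h with rfl | rfl
      · exact (upd_apply v 0 0).1
      · exact (upd_apply v 0 0).2.1
    · rw [if_neg h, (upd_apply v 0 0).2.2 i (by omega)]
      exact Fintype.mem_piFinset.1 a1 i
  have hf : ∀ o ∈ (O8 X).filter fun v => ∃ a b, Cond s (upd v a b),
      ((((Box3 X).filter fun v => Cond s v).filter fun v => upd v 0 0 = o).card : ℝ) ≤
        4 * X 0 * X 1 / sL s := by
    intro o _
    refine le_trans ?_ ((h1 s o (X 0) (2 * X 0) (X 1) (2 * X 1) ok (by omega) (by omega)).trans ?_)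
    · refine Nat.cast_le.2 (card_le_card_of_injOn (fun v => (v 0, v 1)) (fun v hv => ?_)
        fun v hv v' hv' h => ?_)
      · obtain ⟨a1, a3⟩ := mem_filter.1 (mem_coe.1 hv)
        obtain ⟨a1, a2⟩ := mem_filter.1 a1
        have b0 := Fintype.mem_piFinset.1 a1 0
        have b1 := Fintype.mem_piFinset.1 a1 1
        rw [if_neg (by decide)] at b0 b1
        refine mem_coe.2 (mem_filter.2 ⟨mem_product.2 ⟨b0, b1⟩, ?_⟩)
        rwa [← a3, xE2_upd, xE2_self]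
      · have a1 := (mem_filter.1 (mem_coe.1 hv)).2
        have a2 := (mem_filter.1 (mem_coe.1 hv')).2
        obtain ⟨b0, b1⟩ := Prod.ext_iff.1 h
        rw [← xE2_self v, ← xE2_self v', ← xE2_upd v 0 0, ← xE2_upd v' 0 0, a1, a2]
        exact congrArg₂ (upd o) b0 b1
    · refine div_le_div_of_nonneg_right ?_ (Nat.cast_nonneg _)
      have a0 := hX 0
      have a1 := hX 1
      have a2 : (0 : ℝ) ≤ SP s := Nat.cast_nonneg _
      push_cast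
      calc _ ≤ (2 * X 0 : ℝ) * (2 * X 1) :=
            mul_le_mul (by linarith) (by linarith) (by linarith) (by linarith)
        _ = _ := by ring
  rw [card_eq_sum_card_fiberwise hm, Nat.cast_sum]
  refine (sum_le_sum hf).trans ?_
  rw [sum_const, nsmul_eq_mul]
  refine (mul_le_mul_of_nonneg_right (h2 X Z hR s hs).1 (by positivity)).trans (le_of_eq ?_)
  rw [Vol_eq, ← sL_mul_sM, Nat.cast_mul]
  ring

theorem E2_pf (h1 : E2a) (h2 : E2b) (h3 : E2c) : E2 := by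
  intro X Z hR
  refine (sum_le_sum fun s hs => xE2_one h1 h2 hR hs).trans ?_
  rw [← mul_sum]
  refine mul_le_mul_of_nonneg_left (h3 Z (one_le_two.trans hR.z2)).1 ?_
  exact mul_nonneg (by norm_num) (prod_nonneg fun _ _ => Nat.cast_nonneg _)

end Pool.Agent.MP_e23604_nt.U

end
end

section

/-!
Signs on the classes.
-/

open Finset
open scoped Classical

noncomputable section

namespace Pool.Agent.MP_e23604_nt.U

open P (gg WW Datum Wt)

theorem xE4s_split (A B : ℤ) {m : ℕ} (hm : 1 ≤ m) (f : ℤ → ℤ → ℝ) :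
    ∑ a ∈ Ioc A B, f a (a % (m : ℤ)) = ∑ r ∈ range m, ∑ a ∈ cl A B m r, f a r := by
  have hm0 : (0 : ℤ) < m := by exact_mod_cast hm
  rw [← sum_fiberwise_of_maps_to (s := Ioc A B) (t := range m) (g := fun a => (a % (m : ℤ)).toNat)
    fun a _ => by
      have h1 := Int.emod_lt_of_pos a hm0
      have h2 := Int.emod_nonneg a hm0.ne'
      rw [mem_range]
      omega]
  refine sum_congr rfl fun r hr => ?_
  have h0 : (r : ℤ) % m = r :=
    Int.emod_eq_of_lt (Int.natCast_nonneg r) (by exact_mod_cast mem_range.1 hr)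
  refine sum_congr (filter_congr fun a _ => ?_) fun a ha => ?_
  · have h2 := Int.emod_nonneg a hm0.ne'
    rw [h0]
    omega
  · rw [(mem_filter.1 ha).2, h0]

theorem E4s_pf : E4s := by
  rintro W X Z q - ⟨s, v, w⟩ hπ
  obtain ⟨h1, -⟩ := mem_filter.1 hπ
  obtain ⟨hs, h2⟩ := mem_product.1 h1
  have hs' : SOK s := (mem_filter.1 hs).2.1
  have hv := Fintype.mem_piFinset.1 (mem_product.1 h2).1
  have h4 : 0 < v 4 := lt_of_le_of_lt (Int.natCast_nonneg _) (mem_Ioc.1 (hv 4)).1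
  have h9 : 0 < v 9 := lt_of_le_of_lt (Int.natCast_nonneg _) (mem_Ioc.1 (hv 9)).1
  have hc : 1 ≤ cc v := by
    have : 0 < 4 * v 4 * v 9 ^ 2 := by positivity
    unfold cc
    omega
  have hK : 1 ≤ KK s := Nat.mul_pos (by norm_num) (Nat.pos_of_ne_zero hs'.1.ne_zero)
  refine ⟨fun r0 r1 => if 0 ≤ Tc W X s v w r0 r1 then 1 else -1, fun a b => ?_, ?_⟩
  · beta_reduce
    split_ifs <;> simp
  set ε : ℤ → ℤ → ℝ := fun r0 r1 => if 0 ≤ Tc W X s v w r0 r1 then 1 else -1 with hε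
  have e1 : ∀ r0 r1, |Tc W X s v w r0 r1| = ε r0 r1 * Tc W X s v w r0 r1 := fun r0 r1 => by
    simp only [hε]
    split_ifs with h
    · rw [abs_of_nonneg h, one_mul]
    · rw [abs_of_neg (not_le.1 h), neg_one_mul]
  set Ψ : ℤ → ℤ → ℝ := fun a b => if Cond s (upd v a b) then
      gg W (((cc v : ℤ) * b - a * v 5 * v 7 ^ 2) / (s 11 : ℤ)) *
        gg W (((cc v : ℤ) * b - a * w * v 7 ^ 2) / (s 11 : ℤ)) else 0 with hΨ
  have e2 : (datE X ε (s, v, w)).T (gg W) (gg W) =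
      ∑ a ∈ Ioc (X 0 : ℤ) (2 * X 0), ∑ b ∈ Ioc (X 1 : ℤ) (2 * X 1),
        ε (a % ((cc v * KK s : ℕ) : ℤ)) (b % ((KK s * s 5 : ℕ) : ℤ)) * Ψ a b := by
    rw [Datum.T, Datum.bx, sum_product]
    refine sum_congr rfl fun a _ => sum_congr rfl fun b _ => ?_
    have l1 : (datE X ε (s, v, w)).l (a, b) = (cc v : ℤ) * b - a * v 5 * v 7 ^ 2 := by
      simp only [Datum.l, datE]
      ring
    have l2 : (datE X ε (s, v, w)).l' (a, b) = (cc v : ℤ) * b - a * w * v 7 ^ 2 := by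
      simp only [Datum.l', datE]
      ring
    rw [l1, l2]
    simp only [datE, hΨ]
    split_ifs
    · rw [mul_assoc]
    · rw [zero_mul, zero_mul, mul_zero]
  rw [e2, xE4s_split _ _ (Nat.mul_pos hc hK) fun a r0 => ∑ b ∈ Ioc (X 1 : ℤ) (2 * X 1),
    ε r0 (b % ((KK s * s 5 : ℕ) : ℤ)) * Ψ a b]
  refine sum_congr rfl fun r0 _ => ?_
  rw [sum_congr rfl fun a _ => xE4s_split _ _ (Nat.mul_pos hK (hs'.pos 5))
    fun b r1 => ε r0 r1 * Ψ a b, sum_comm]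
  refine sum_congr rfl fun r1 _ => ?_
  rw [e1, Tc, mul_sum]
  exact sum_congr rfl fun a _ => mul_sum _ _ _

end Pool.Agent.MP_e23604_nt.U

end
end

section

/-!
The weight of the second form.
-/

open Finset
open scoped Classical

noncomputable section

namespace Pool.Agent.MP_e23604_nt.U

open P (gg WW Datum Wt)

theorem xE5a_card {a b x : ℤ} (hx : x ∈ Ioc a b) (D : ℕ) :
    (((Ioc a b).filter fun w => w ≠ x ∧ (D : ℤ) ∣ x - w).card : ℝ) * D ≤ b - a := by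
  have hab : a ≤ b := (mem_Ioc.1 hx).1.le.trans (mem_Ioc.1 hx).2
  rcases Nat.eq_zero_or_pos D with rfl | hD
  · rw [Nat.cast_zero (R := ℝ), mul_zero, sub_nonneg]
    exact_mod_cast hab
  have h1 : ∀ y ∈ insert x ((Ioc a b).filter fun w => w ≠ x ∧ (D : ℤ) ∣ x - w),
      y ∈ Ioc a b ∧ (D : ℤ) ∣ x - y := fun y hy => by
    rcases mem_insert.1 hy with rfl | h
    · exact ⟨hx, by simp⟩
    · exact ⟨(mem_filter.1 h).1, (mem_filter.1 h).2.2⟩
  have h2 := card_sparse_le a b hab hD _ (fun y hy => (h1 y hy).1) fun y hy z hz => by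
    rw [← sub_sub_sub_cancel_left z y x]
    exact dvd_sub (h1 z hz).2 (h1 y hy).2
  rw [card_insert_of_notMem fun h => (mem_filter.1 h).2.1 rfl, Nat.cast_succ,
    add_le_add_iff_right] at h2
  exact (le_div_iff₀ (Nat.cast_pos.2 hD)).1 h2

theorem E5a_pf  : E5a := by
  intro X Z q hR _ s hs v hv d hd
  obtain ⟨h1, h2⟩ := mem_SSet.1 hs
  have h3 : v 5 ∈ Ioc (X 5 : ℤ) (3 * X 5) := by simpa using Fintype.mem_piFinset.1 hv 5
  have h4 := xE5a_card h3 (s 5 * (q * KP s v ^ 32) * d)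
  have h5 : s 5 ≤ X 5 := ((le_SP h1 5).trans h2).trans
    ((Nat.le_self_pow (by norm_num) Z).trans (hR.sizes.1 5))
  have h6 := h1.pos 5
  have h7 : 1 ≤ X 5 / s 5 := Nat.div_pos h5 h6
  have h8 : X 5 ≤ s 5 * (2 * (X 5 / s 5)) :=
    (Nat.lt_mul_div_succ _ h6).le.trans (Nat.mul_le_mul_left _ (by omega))
  have e : ∀ w, rho X q (s, v, w) = (q : ℝ) * (KP s v : ℝ) ^ 32 / ((X 5 / s 5 : ℕ) : ℝ) :=
    fun _ => rfl
  simp only [e]
  rw [sum_const, nsmul_eq_mul]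
  generalize X 5 / s 5 = n at h7 h8
  have a1 : (0 : ℝ) < n := Nat.cast_pos.2 h7
  have a2 : (0 : ℝ) < s 5 := Nat.cast_pos.2 h6
  have a3 : (X 5 : ℝ) ≤ s 5 * (2 * n) := by exact_mod_cast h8
  rw [← mul_div_assoc, div_le_div_iff₀ a1 (Nat.cast_pos.2 hd)]
  refine le_of_mul_le_mul_left ?_ a2
  have a4 := mul_pos a2 a1
  push_cast at h4 ⊢
  linarith

end Pool.Agent.MP_e23604_nt.U

end
end

section

/-!
The weights of the family.
-/

open Finset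
open scoped Classical

noncomputable section

namespace Pool.Agent.MP_e23604_nt.U

open P (gg WW Datum Wt)

theorem xE5_cover {ι : Type} [Fintype ι] [Nonempty ι] (f : ι → ℕ) {d k : ℕ} (hd : 0 < d)
    (h : d ∣ (∏ i, f i) ^ k) : ∃ i, d ≤ Nat.gcd d (f i) ^ (Fintype.card ι * k) := by
  obtain ⟨j, -, hj⟩ := exists_max_image univ (fun i => Nat.gcd d (f i)) univ_nonempty
  refine ⟨j, ?_⟩
  have h6 := P.xWeight_gcd d (range k) fun _ => ∏ i, f i
  rw [prod_const, prod_const, card_range, Nat.gcd_eq_left h] at h6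
  have h7 := h6.trans (pow_dvd_pow_of_dvd (P.xWeight_gcd d univ f) k)
  have h8 := Nat.le_of_dvd (pow_pos (prod_pos fun i _ => Nat.gcd_pos_of_pos_left _ hd) _) h7
  refine h8.trans ?_
  rw [pow_mul]
  exact Nat.pow_le_pow_left (Finset.prod_le_pow_card univ _ _ hj) _

theorem xE5_rho (X : Fin 10 → ℕ) (q : ℕ) (π : I8) : 0 ≤ rho X q π := by
  unfold rho
  positivity

/-- The condition on the last coordinate. -/
def xE5_D (q g : ℕ) (π : I8) : Prop :=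
  ((π.1 5 * (q * KP π.1 π.2.1 ^ 32) * g : ℕ) : ℤ) ∣ π.2.1 5 - π.2.2

/-- The weight on an event. -/
def xE5_w (X : Fin 10 → ℕ) (q : ℕ) (π : I8) (p : Prop) : ℝ :=
  if p then rho X q π / sL π.1 else 0

theorem xE5_sum (h4 : E5a) {X : Fin 10 → ℕ} {Z q : ℕ} (hR : Reg X Z) (hq : 1 ≤ q)
    (A : S12 → V10 → Prop) [∀ s, DecidablePred (A s)] (g : ℕ) (hg : 1 ≤ g) :
    ∑ π ∈ PE X Z q, xE5_w X q π (A π.1 π.2.1 ∧ xE5_D q g π) ≤
      ∑ s ∈ SSet Z, (((O8 X).filter fun v => (∃ a b, Cond s (upd v a b)) ∧ A s v).card : ℝ) *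
        (8 / g / sL s) := by
  have w0 : ∀ π : I8, 0 ≤ rho X q π / sL π.1 := fun π =>
    div_nonneg (xE5_rho X q π) (Nat.cast_nonneg _)
  calc _ ≤ ∑ π ∈ SSet Z ×ˢ O8 X ×ˢ Ioc (X 5 : ℤ) (3 * X 5),
        (if ((∃ a b, Cond π.1 (upd π.2.1 a b)) ∧ A π.1 π.2.1) ∧ (π.2.2 ≠ π.2.1 5 ∧ xE5_D q g π) then
          rho X q π / sL π.1 else 0) := by
        unfold PE xE5_w
        rw [sum_filter]
        refine sum_le_sum fun π _ => ?_
        by_cases h1 : Adm8 π.1 π.2.1 ∧ π.2.2 ≠ π.2.1 5 ∧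
            ((π.1 5 * (q * KP π.1 π.2.1 ^ 32) : ℕ) : ℤ) ∣ π.2.1 5 - π.2.2
        · rw [if_pos h1]
          by_cases h2 : A π.1 π.2.1 ∧ xE5_D q g π
          · rw [if_pos h2, if_pos ⟨⟨h1.1.1, h2.1⟩, h1.2.1, h2.2⟩]
          · rw [if_neg h2]
            split_ifs
            exacts [w0 π, le_rfl]
        · rw [if_neg h1]
          split_ifs
          exacts [w0 π, le_rfl]
    _ ≤ _ := by
        rw [sum_product]
        refine sum_le_sum fun s hs => ?_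
        rw [sum_product, ← nsmul_eq_mul, ← sum_const, sum_filter]
        refine sum_le_sum fun v hv => ?_
        by_cases h1 : (∃ a b, Cond s (upd v a b)) ∧ A s v
        · rw [if_pos h1]
          have h2 := div_le_div_of_nonneg_right (h4 X Z q hR hq s hs v hv g hg)
            (Nat.cast_nonneg (α := ℝ) (sL s))
          refine le_trans (le_of_eq ?_) h2
          rw [sum_div, sum_filter]
          refine sum_congr rfl fun w _ => ?_
          exact if_congr ⟨fun h => h.2, fun h => ⟨h1, h⟩⟩ rfl rfl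
        · rw [if_neg h1]
          refine le_of_eq (sum_eq_zero fun w _ => ?_)
          exact if_neg fun h => h1 h.1

theorem xE5_D_one {X : Fin 10 → ℕ} {Z q : ℕ} {π : I8} (h : π ∈ PE X Z q) : xE5_D q 1 π := by
  unfold xE5_D
  rw [mul_one]
  exact (mem_filter.1 h).2.2.2

theorem xE5_SP {s : S12} (hs : SOK s) : (0 : ℝ) < sL s ∧ (0 : ℝ) < sM s ∧
    (SP s : ℝ) = sL s * sM s := by
  have h1 : 0 < SP s := prod_pos fun σ _ => hs.pos σ
  rw [← sL_mul_sM] at h1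
  refine ⟨Nat.cast_pos.2 (Nat.pos_of_mul_pos_right h1), Nat.cast_pos.2 (Nat.pos_of_mul_pos_left h1), ?_⟩
  rw [← sL_mul_sM, Nat.cast_mul]

theorem xE5_vol (X : Fin 10 → ℕ) : 0 ≤ Vol8 X := prod_nonneg fun _ _ => Nat.cast_nonneg _

/-- The condition does not see `v`. -/
theorem xE5_s (h2 : E2b) (h4 : E5a) {X : Fin 10 → ℕ} {Z q : ℕ} (hR : Reg X Z) (hq : 1 ≤ q)
    (A : S12 → Prop) [DecidablePred A] (g : ℕ) (hg : 1 ≤ g) :
    ∑ π ∈ PE X Z q, xE5_w X q π (A π.1 ∧ xE5_D q g π) ≤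
      800 * Vol8 X / g * ∑ s ∈ (SSet Z).filter A, (1 : ℝ) / SP s := by
  refine (xE5_sum h4 hR hq (fun s _ => A s) g hg).trans ?_
  rw [mul_sum, sum_filter]
  refine sum_le_sum fun s hs => ?_
  obtain ⟨p1, p2, p3⟩ := xE5_SP (mem_SSet.1 hs).1
  have gp : (0 : ℝ) < g := Nat.cast_pos.2 hg
  by_cases hA : A s
  · rw [if_pos hA]
    have h5 := (h2 X Z hR s hs).1
    have h6 : ((O8 X).filter fun v => (∃ a b, Cond s (upd v a b)) ∧ A s) =
        (O8 X).filter fun v => ∃ a b, Cond s (upd v a b) :=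
      filter_congr fun v _ => ⟨fun h => h.1, fun h => ⟨h, hA⟩⟩
    rw [h6]
    refine (mul_le_mul_of_nonneg_right h5 (by positivity)).trans (le_of_eq ?_)
    rw [p3]
    field_simp
    ring
  · rw [if_neg hA, filter_false_of_mem fun v _ h => hA h.2]
    simp

/-- The condition is a divisibility of a coordinate. -/
theorem xE5_v (h4 : E5a) {X : Fin 10 → ℕ} {Z q : ℕ} (hR : Reg X Z) (hq : 1 ≤ q)
    (A : V10 → Prop) [DecidablePred A] (g : ℕ) (hg : 1 ≤ g) (c : S12 → ℝ)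
    (h : ∀ s ∈ SSet Z, (((O8 X).filter fun v => (∃ a b, Cond s (upd v a b)) ∧ A v).card : ℝ) ≤
      300 * Vol8 X * c s / (sM s * g)) :
    ∑ π ∈ PE X Z q, xE5_w X q π (A π.2.1 ∧ xE5_D q 1 π) ≤
      2400 * Vol8 X / g * ∑ s ∈ SSet Z, c s / SP s := by
  refine (xE5_sum h4 hR hq (fun _ v => A v) 1 le_rfl).trans ?_
  rw [mul_sum]
  refine sum_le_sum fun s hs => ?_
  obtain ⟨p1, p2, p3⟩ := xE5_SP (mem_SSet.1 hs).1
  have gp : (0 : ℝ) < g := Nat.cast_pos.2 hg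
  refine (mul_le_mul_of_nonneg_right (h s hs) (by positivity)).trans (le_of_eq ?_)
  rw [p3]
  field_simp
  ring

/-- The seventeen cases. -/
def xE5_C (q g : ℕ) (π : I8) : Fin 5 ⊕ Fin 12 → Prop :=
  Sum.elim ![g ∣ 320 * q ∧ xE5_D q 1 π, (g : ℤ) ∣ π.2.1 4 ∧ xE5_D q 1 π,
    (g : ℤ) ∣ π.2.1 9 ∧ xE5_D q 1 π, (g : ℤ) ∣ π.2.1 7 ∧ xE5_D q 1 π, True ∧ xE5_D q g π]
    fun σ => g ∣ π.1 σ ∧ xE5_D q 1 π

theorem xE5_K {X : Fin 10 → ℕ} {Z q : ℕ} (ε : ℤ → ℤ → ℝ) {π : I8} (h : π ∈ PE X Z q) {d : ℕ}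
    (hd : 0 < d) (hK : d ∣ (datE X ε π).K) :
    ∃ g, g ∣ d ∧ d ≤ g ^ 1241 ∧ ∃ i, xE5_C q g π i := by
  have hD := xE5_D_one h
  obtain ⟨s, v, w⟩ := π
  obtain ⟨h1, -, -, a, ha⟩ := mem_filter.1 h
  simp only at ha
  have hv : v ∈ O8 X := (mem_product.1 (mem_product.1 h1).2).1
  have h4 : 0 ≤ v 4 := by
    have := Fintype.mem_piFinset.1 hv 4
    rw [if_neg (by decide)] at this
    exact (Nat.cast_nonneg _).trans (mem_Ioc.1 this).1.le
  have hc : cc v = 4 * (v 4).natAbs * (v 9).natAbs ^ 2 := by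
    unfold cc
    have : 4 * v 4 * v 9 ^ 2 = ((4 * (v 4).natAbs * (v 9).natAbs ^ 2 : ℕ) : ℤ) := by
      push_cast
      rw [abs_of_nonneg h4, sq_abs]
    rw [this, Int.toNat_natCast]
  have hdet : (datE X ε (s, v, w)).det = -((cc v : ℤ) * v 7 ^ 2 * (v 5 - w)) := by
    simp only [Datum.det, datE]
    ring
  have hK' : (datE X ε (s, v, w)).K = KP s v * (cc v * (v 7).natAbs ^ 2 *
      (s 5 * (q * KP s v ^ 32) * a.natAbs)) := by
    unfold Datum.K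
    rw [hdet, ha, Int.natAbs_neg, Int.natAbs_mul, Int.natAbs_mul, Int.natAbs_mul, Int.natAbs_pow,
      Int.natAbs_natCast, Int.natAbs_natCast]
    rfl
  let f : Fin 5 ⊕ Fin 12 → ℕ :=
    Sum.elim ![320 * q, (v 4).natAbs, (v 9).natAbs, (v 7).natAbs, a.natAbs] s
  obtain ⟨r, hr⟩ : s 5 ∣ SP s := dvd_prod_of_mem _ (mem_univ _)
  have hM : ∏ i, f i = 320 * q * (v 4).natAbs * (v 9).natAbs * (v 7).natAbs * a.natAbs * SP s := by
    rw [Fintype.prod_sum_type, Fin.prod_univ_five]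
    rfl
  have hKP : KP s v = 320 * (v 4).natAbs * (v 9).natAbs ^ 2 * SP s * s 5 := by
    unfold KP KK
    rw [hc]
    ring
  have hdv : (datE X ε (s, v, w)).K ∣ (∏ i, f i) ^ 73 := by
    rw [hK', hM]
    generalize (v 4).natAbs = x4 at *
    generalize (v 9).natAbs = x9 at *
    generalize (v 7).natAbs = x7 at *
    generalize a.natAbs = y at *
    have d1 : KP s v ∣ (320 * q * x4 * x9 * x7 * y * SP s) ^ 2 :=
      ⟨320 * q ^ 2 * x4 * x7 ^ 2 * y ^ 2 * r, by rw [hKP, hr]; ring⟩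
    have d2 : cc v ∣ (320 * q * x4 * x9 * x7 * y * SP s) ^ 2 :=
      ⟨80 * 320 * q ^ 2 * x4 * x7 ^ 2 * y ^ 2 * SP s ^ 2, by rw [hc]; ring⟩
    have d3 : x7 ^ 2 ∣ (320 * q * x4 * x9 * x7 * y * SP s) ^ 2 :=
      pow_dvd_pow_of_dvd ⟨320 * q * x4 * x9 * y * SP s, by ring⟩ 2
    have d4 : s 5 ∣ 320 * q * x4 * x9 * x7 * y * SP s := Dvd.dvd.mul_left ⟨r, hr⟩ _
    have d5 : q ∣ 320 * q * x4 * x9 * x7 * y * SP s := ⟨320 * x4 * x9 * x7 * y * SP s, by ring⟩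
    have d6 : y ∣ 320 * q * x4 * x9 * x7 * y * SP s := ⟨320 * q * x4 * x9 * x7 * SP s, by ring⟩
    generalize 320 * q * x4 * x9 * x7 * y * SP s = M at *
    have e : M ^ 73 = M ^ 2 * (M ^ 2 * M ^ 2 * (M * (M * (M ^ 2) ^ 32) * M)) := by ring
    rw [e]
    exact mul_dvd_mul d1 (mul_dvd_mul (mul_dvd_mul d2 d3)
      (mul_dvd_mul (mul_dvd_mul d4 (mul_dvd_mul d5 (pow_dvd_pow_of_dvd d1 32))) d6))
  obtain ⟨i, hi⟩ := xE5_cover f hd (hK.trans hdv)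
  have hcard : Fintype.card (Fin 5 ⊕ Fin 12) * 73 = 1241 := by simp
  rw [hcard] at hi
  refine ⟨_, Nat.gcd_dvd_left d (f i), hi, i, ?_⟩
  have hg := Nat.gcd_dvd_right d (f i)
  generalize Nat.gcd d (f i) = g at hg
  rcases i with i | σ
  · fin_cases i
    · exact ⟨hg, hD⟩
    · exact ⟨Int.natCast_dvd.2 hg, hD⟩
    · exact ⟨Int.natCast_dvd.2 hg, hD⟩
    · exact ⟨Int.natCast_dvd.2 hg, hD⟩
    · refine ⟨trivial, ?_⟩
      show ((s 5 * (q * KP s v ^ 32) * g : ℕ) : ℤ) ∣ v 5 - w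
      rw [ha, Nat.cast_mul]
      exact mul_dvd_mul_left _ (Int.natCast_dvd.2 hg)
  · exact ⟨hg, hD⟩

theorem xE5_case (h2 : E2b) (h3 : E2c) (h4 : E5a) {X : Fin 10 → ℕ} {Z q : ℕ} (hR : Reg X Z)
    (hq : 1 ≤ q) (g : ℕ) (hg : 1 ≤ g) (i : Fin 5 ⊕ Fin 12) :
    ∑ π ∈ PE X Z q, xE5_w X q π (xE5_C q g π i) ≤
      256000 * (q * Vol8 X * (1 + Real.log Z) ^ 12) * (g.divisors.card / g) := by
  have hZ : 1 ≤ Z := le_trans (by norm_num) hR.z2
  obtain ⟨c1, c2⟩ := h3 Z hZ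
  have gp : (0 : ℝ) < g := Nat.cast_pos.2 hg
  have hV := xE5_vol X
  have hL : 0 ≤ (1 + Real.log Z) ^ 12 := Even.pow_nonneg (by decide) _
  have ht : (1 : ℝ) ≤ g.divisors.card := by
    exact_mod_cast card_pos.2 ⟨1, Nat.one_mem_divisors.2 (by omega)⟩
  have hq' : (1 : ℝ) ≤ q := by exact_mod_cast hq
  have c4 := (c2 g 4 hg).2
  have cs := fun σ => (c2 g σ hg).1
  have b7 := xE5_v h4 hR hq (fun v => (g : ℤ) ∣ v 7) g hg (fun _ => 1) fun s hs => by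
    rw [mul_one]
    exact ((h2 X Z hR s hs).2 g hg).1
  have b9 := xE5_v h4 hR hq (fun v => (g : ℤ) ∣ v 9) g hg (fun _ => 1) fun s hs => by
    rw [mul_one]
    exact ((h2 X Z hR s hs).2 g hg).2.1
  have b4 := xE5_v h4 hR hq (fun v => (g : ℤ) ∣ v 4) g hg (fun s => Nat.gcd g (s 4)) fun s hs =>
    ((h2 X Z hR s hs).2 g hg).2.2
  have ba := xE5_s h2 h4 hR hq (fun _ => True) g hg
  have bq := xE5_s h2 h4 hR hq (fun _ => g ∣ 320 * q) 1 le_rfl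
  have bs := fun σ => xE5_s h2 h4 hR hq (fun s => g ∣ s σ) 1 le_rfl
  rw [filter_true] at ba
  generalize (1 + Real.log Z) ^ 12 = L at *
  generalize (g.divisors.card : ℝ) = t at *
  have hVg : 0 ≤ Vol8 X / g * L := by positivity
  have key : ∀ c : ℝ, 0 ≤ c → c ≤ 256000 * q * t →
      c * Vol8 X / g * L ≤ 256000 * (q * Vol8 X * L) * (t / g) := by
    intro c _ hc
    have := mul_le_mul_of_nonneg_right hc hVg
    refine le_trans (le_of_eq (by ring)) (this.trans (le_of_eq (by ring)))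
  have hqt : 1 ≤ (q : ℝ) * t := one_le_mul_of_one_le_of_one_le hq' ht
  have hqt' : t ≤ (q : ℝ) * t := le_mul_of_one_le_left (by linarith) hq'
  have hqt'' : (q : ℝ) ≤ (q : ℝ) * t := le_mul_of_one_le_right (by linarith) ht
  rcases i with i | σ
  · fin_cases i
    · refine bq.trans ?_
      by_cases hgq : g ∣ 320 * q
      · have h5 : (g : ℝ) ≤ 320 * q := by exact_mod_cast Nat.le_of_dvd (by omega) hgq
        rw [filter_true_of_mem fun _ _ => hgq]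
        refine (mul_le_mul_of_nonneg_left c1 (by positivity)).trans ?_
        refine le_trans (le_of_eq ?_) (key (800 * g) (by positivity) (by linarith))
        field_simp
        norm_num
      · rw [filter_false_of_mem fun _ _ => hgq, sum_empty, mul_zero]
        have : 0 ≤ t := by linarith
        positivity
    · refine b4.trans ((mul_le_mul_of_nonneg_left c4 (by positivity)).trans ?_)
      refine le_trans (le_of_eq ?_) (key (2400 * t) (by linarith) (by linarith))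
      ring
    · exact b9.trans ((mul_le_mul_of_nonneg_left c1 (by positivity)).trans
        (key 2400 (by norm_num) (by linarith)))
    · exact b7.trans ((mul_le_mul_of_nonneg_left c1 (by positivity)).trans
        (key 2400 (by norm_num) (by linarith)))
    · exact ba.trans ((mul_le_mul_of_nonneg_left c1 (by positivity)).trans
        (key 800 (by norm_num) (by linarith)))
  · have h5 : 0 ≤ 800 * Vol8 X / ((1 : ℕ) : ℝ) := by positivity
    refine (bs σ).trans ((mul_le_mul_of_nonneg_left (cs σ) h5).trans ?_)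
    refine le_trans (le_of_eq ?_) (key 800 (by norm_num) (by linarith))
    push_cast
    ring

theorem E5_pf (h2 : E2b) (h3 : E2c) (h4 : E5a) : E5 := by
  obtain ⟨C, hC1, hC⟩ := Pool.Agent.MP_2a1f0e_nt.divisor_bound (ε := 1 / 4964) (by norm_num)
  obtain ⟨d0, hd0⟩ : ∃ d0 : ℕ, ∀ d : ℕ, d0 ≤ d →
      0 < d ∧ 17 * 256000 * C ^ 2 ≤ (d : ℝ) ^ (1 / 4964 : ℝ) := by
    have h1 := ((tendsto_rpow_atTop (y := 1 / 4964) (by norm_num)).comp
      tendsto_natCast_atTop_atTop).eventually_ge_atTop (17 * 256000 * C ^ 2)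
    obtain ⟨d0, h⟩ := Filter.eventually_atTop.1 h1
    exact ⟨d0 + 1, fun d hd => ⟨by omega, h d (by omega)⟩⟩
  refine ⟨d0, 1 / 4964, by norm_num, fun X Z q ε hR hq => ?_⟩
  have e : ∀ π : I8, ((datE X (ε π) π).m : ℝ) * (datE X (ε π) π).t0 = sL π.1 := by
    intro π
    simp only [datE, sL]
    push_cast
    ring
  simp only [e]
  have w0 : ∀ π : I8, 0 ≤ rho X q π / sL π.1 := fun π =>
    div_nonneg (xE5_rho X q π) (Nat.cast_nonneg _)
  have hV := xE5_vol X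
  have hL : 0 ≤ (1 + Real.log Z) ^ 12 := Even.pow_nonneg (by decide) _
  constructor
  · have h5 := xE5_s h2 h4 hR hq (fun _ => True) 1 le_rfl
    rw [filter_true, Nat.cast_one, div_one] at h5
    refine le_trans (le_of_eq (sum_congr rfl fun π hπ => ?_)) (h5.trans
      (mul_le_mul_of_nonneg_left (h3 Z (le_trans (by norm_num) hR.z2)).1 (by positivity)))
    exact (if_pos ⟨trivial, xE5_D_one hπ⟩).symm
  intro d hd
  obtain ⟨hdp, hdC⟩ := hd0 d hd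
  have hdr : (0 : ℝ) < d := Nat.cast_pos.2 hdp
  obtain ⟨N, hN⟩ : ∃ N : ℕ, N = 1241 := ⟨_, rfl⟩
  let Gs : Finset ℕ := d.divisors.filter fun g => d ≤ g ^ N
  let U : ℕ → I8 → ℝ := fun g π => ∑ i, xE5_w X q π (xE5_C q g π i)
  have i0 : ∀ (π : I8) (p : Prop), 0 ≤ xE5_w X q π p := fun π p => by
    unfold xE5_w
    split_ifs
    exacts [w0 π, le_rfl]
  have U0 : ∀ g π, 0 ≤ U g π := fun g π => sum_nonneg fun i _ => i0 _ _
  have s1 : ∀ π ∈ (PE X Z q).filter fun π => d ∣ (datE X (ε π) π).K,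
      rho X q π / sL π.1 ≤ ∑ g ∈ Gs, U g π := by
    intro π hπ
    obtain ⟨a1, a2⟩ := mem_filter.1 hπ
    obtain ⟨g, g1, g2, i, g3⟩ := xE5_K (ε π) a1 hdp a2
    rw [← hN] at g2
    refine le_trans ?_ (single_le_sum (fun g _ => U0 g π)
      (mem_filter.2 ⟨Nat.mem_divisors.2 ⟨g1, hdp.ne'⟩, g2⟩))
    have a4 := single_le_sum (f := fun i => xE5_w X q π (xE5_C q g π i))
      (fun i _ => i0 _ _) (mem_univ i)
    exact le_trans (le_of_eq (if_pos g3).symm) a4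
  have hQ : 0 ≤ q * Vol8 X * (1 + Real.log Z) ^ 12 := by positivity
  have s2 : ∀ g ∈ Gs, ∑ π ∈ PE X Z q, U g π ≤ 17 * (256000 * (q * Vol8 X * (1 + Real.log Z) ^ 12) *
      (d.divisors.card * (d : ℝ) ^ (-(1 / 1241) : ℝ))) := by
    intro g hg
    obtain ⟨g1, g2⟩ := mem_filter.1 hg
    have gp : 0 < g := Nat.pos_of_mem_divisors g1
    have gr : (0 : ℝ) < g := Nat.cast_pos.2 gp
    have b1 : 1 / (g : ℝ) ≤ (d : ℝ) ^ (-(1 / 1241) : ℝ) := by
      rw [Real.rpow_neg hdr.le, one_div]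
      refine inv_anti₀ (Real.rpow_pos_of_pos hdr _) ?_
      have h1 : (d : ℝ) ≤ (g : ℝ) ^ N := by exact_mod_cast g2
      refine (Real.rpow_le_rpow hdr.le h1 (by norm_num)).trans (le_of_eq ?_)
      rw [← Real.rpow_natCast, ← Real.rpow_mul gr.le, hN]
      norm_num
    have b2 : (g.divisors.card : ℝ) ≤ d.divisors.card := Nat.cast_le.2 (card_le_card
      (Nat.divisors_subset_of_dvd hdp.ne' (Nat.dvd_of_mem_divisors g1)))
    have b3 : (g.divisors.card : ℝ) / g ≤ d.divisors.card * (d : ℝ) ^ (-(1 / 1241) : ℝ) := by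
      rw [div_eq_mul_one_div]
      exact mul_le_mul b2 b1 (by positivity) (Nat.cast_nonneg _)
    simp only [U]
    rw [sum_comm]
    refine (sum_le_card_nsmul _ _ _ fun i _ => (xE5_case h2 h3 h4 hR hq g gp i).trans
      (mul_le_mul_of_nonneg_left b3 (by positivity))).trans (le_of_eq ?_)
    rw [nsmul_eq_mul, card_univ]
    simp
  have s4 : (Gs.card : ℝ) ≤ d.divisors.card := Nat.cast_le.2 (card_le_card (filter_subset _ _))
  have s3 : (d.divisors.card : ℝ) ^ 2 ≤ (C * (d : ℝ) ^ (1 / 4964 : ℝ)) ^ 2 :=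
    pow_le_pow_left₀ (Nat.cast_nonneg _) (hC d) 2
  have s5 : ((d : ℝ) ^ (1 / 4964 : ℝ)) ^ 3 * (d : ℝ) ^ (-(1 / 1241) : ℝ) =
      (d : ℝ) ^ (-(1 / 4964) : ℝ) := by
    rw [← Real.rpow_natCast, ← Real.rpow_mul hdr.le, ← Real.rpow_add hdr]
    norm_num
  have s6 : 0 ≤ (d : ℝ) ^ (-(1 / 1241) : ℝ) := Real.rpow_nonneg hdr.le _
  have s7 : 0 ≤ (d : ℝ) ^ (1 / 4964 : ℝ) := Real.rpow_nonneg hdr.le _
  rw [← s5]
  generalize (d : ℝ) ^ (1 / 4964 : ℝ) = y at *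
  generalize (d : ℝ) ^ (-(1 / 1241) : ℝ) = δ at *
  generalize q * Vol8 X * (1 + Real.log Z) ^ 12 = Q at *
  calc _ ≤ ∑ π ∈ (PE X Z q).filter fun π => d ∣ (datE X (ε π) π).K, ∑ g ∈ Gs, U g π :=
        sum_le_sum s1
    _ ≤ ∑ π ∈ PE X Z q, ∑ g ∈ Gs, U g π := sum_le_sum_of_subset_of_nonneg (filter_subset _ _)
        fun π _ _ => sum_nonneg fun g _ => U0 g π
    _ = ∑ g ∈ Gs, ∑ π ∈ PE X Z q, U g π := sum_comm
    _ ≤ Gs.card * (17 * (256000 * Q * (d.divisors.card * δ))) := by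
        rw [← nsmul_eq_mul]
        exact sum_le_card_nsmul _ _ _ s2
    _ ≤ d.divisors.card * (17 * (256000 * Q * (d.divisors.card * δ))) :=
        mul_le_mul_of_nonneg_right s4 (by positivity)
    _ = 17 * 256000 * Q * δ * (d.divisors.card : ℝ) ^ 2 := by ring
    _ ≤ 17 * 256000 * Q * δ * (C * y) ^ 2 := mul_le_mul_of_nonneg_left s3 (by positivity)
    _ = Q * δ * y ^ 2 * (17 * 256000 * C ^ 2) := by ring
    _ ≤ Q * δ * y ^ 2 * y := mul_le_mul_of_nonneg_left hdC (by positivity)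
    _ = _ := by ring

end Pool.Agent.MP_e23604_nt.U

end
end

section

/-!
The family is small.
-/

open Finset
open scoped Classical

noncomputable section

namespace Pool.Agent.MP_e23604_nt.U

open P (gg WW Datum Wt)

theorem xE6_U {X : Fin 10 → ℕ} {Z : ℕ} (h : Reg X Z) :
    (X 0 : ℝ) ≤ UE X ∧ UE X ≤ (X 0 : ℝ) ^ 2 ∧ UE X * TE X = 16 * X 0 * X 1 := by
  obtain ⟨s1, s2, s3, -, s5, -⟩ := h.sizes
  have z0 : 1024 ≤ Z ^ 10 := le_trans (by norm_num : 1024 ≤ 2 ^ 10) (Nat.pow_le_pow_left h.z2 10)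
  have z1 : Z ^ 10 ≤ Z ^ 1000 := pow_le_pow_right₀ (one_le_two.trans h.z2) (by norm_num)
  have z := z0.trans z1
  clear z0 z1
  have p : ∀ i, 1024 ≤ X i := fun i => z.trans (s1 i)
  have e : UE X = ((64 * (X 4 * X 1 * X 9 ^ 2) : ℕ) : ℝ) := by
    rw [UE]
    push_cast
    ring
  refine ⟨?_, ?_, ?_⟩
  · rw [e]
    have h1 : 1 * X 1 * 1 ≤ X 4 * X 1 * X 9 ^ 2 :=
      Nat.mul_le_mul (Nat.mul_le_mul_right _ (by have := p 4; omega))
        (Nat.one_le_pow _ _ (by have := p 9; omega))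
    exact_mod_cast (by omega : X 0 ≤ 64 * (X 4 * X 1 * X 9 ^ 2))
  · rw [e, h.b3]
    have h1 : 1024 * X 5 * X 7 ^ 2 ≤ X 5 * X 5 * X 5 ^ 2 :=
      Nat.mul_le_mul (Nat.mul_le_mul_right _ (p 5)) (Nat.pow_le_pow_left s5 2)
    have h2 : X 5 ^ 4 ≤ X 0 :=
      (pow_le_pow_right₀ (by have := p 5; omega) (by norm_num)).trans (s2 5 (by decide))
    have h3 : 64 * (16 * (X 0 * X 5 * X 7 ^ 2)) ≤ X 0 ^ 2 := by
      calc 64 * (16 * (X 0 * X 5 * X 7 ^ 2)) = X 0 * (1024 * X 5 * X 7 ^ 2) := by ring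
        _ ≤ X 0 * X 0 := Nat.mul_le_mul_left _ (h1.trans (le_of_eq_of_le (by ring) h2))
        _ = X 0 ^ 2 := by ring
    exact_mod_cast h3
  · have h4 : (0 : ℝ) < X 4 := by exact_mod_cast (by have := p 4; omega : 0 < X 4)
    have h9 : (0 : ℝ) < X 9 := by exact_mod_cast (by have := p 9; omega : 0 < X 9)
    rw [UE, TE]
    field_simp
    ring

theorem xE6_fin {L V W M S : ℝ} {A c H : ℕ} (hL : 1000 ≤ L) (hV : 0 ≤ V) (hW : 0 ≤ W)
    (hW' : W ≤ L) (hH : L ^ (2 * A + 60) ≤ H) (hM : M ≤ 10 ^ 9 * V * W ^ 12 / √H)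
    (hS : S ≤ 12800 * V * L ^ c / L ^ (A + c + 2) + 9 * L ^ 2 * M) : S ≤ V / L ^ A := by
  have h0 : 0 < L := by linarith
  have h1 : L ^ (A + 30) ≤ √H := by
    refine Real.le_sqrt_of_sq_le (le_of_eq_of_le ?_ hH)
    rw [← pow_mul]
    congr 1
    ring
  have h2 : M ≤ 10 ^ 9 * V * L ^ 12 / L ^ (A + 30) := by
    refine hM.trans ?_
    gcongr
  have h3 : (1000 : ℝ) ^ 2 ≤ L ^ 2 := by gcongr
  have h4 : (1000 : ℝ) ^ 16 ≤ L ^ 16 := by gcongr
  have h5 : 12800 * V * L ^ c / L ^ (A + c + 2) = V / L ^ A * (12800 / L ^ 2) := by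
    field_simp
    ring
  have h6 : 9 * L ^ 2 * (10 ^ 9 * V * L ^ 12 / L ^ (A + 30)) =
      V / L ^ A * (9 * 10 ^ 9 / L ^ 16) := by
    field_simp
    ring
  have h7 : 12800 / L ^ 2 ≤ 1 / 2 := by
    rw [div_le_iff₀ (by positivity)]
    linarith
  have h8 : 9 * 10 ^ 9 / L ^ 16 ≤ 1 / 2 := by
    rw [div_le_iff₀ (by positivity)]
    linarith
  have h9 : 0 ≤ V / L ^ A := by positivity
  have h10 := mul_le_mul_of_nonneg_left h2 (by positivity : 0 ≤ 9 * L ^ 2)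
  have h11 := mul_le_mul_of_nonneg_left h7 h9
  have h12 := mul_le_mul_of_nonneg_left h8 h9
  linarith

theorem E6_pf (h1 : ECore) (h2 : E4a) (h3 : E4s) (h4 : E4b) (h5 : E5) : E6 := by
  intro A c
  obtain ⟨d0, κ, hκ, h5⟩ := h5
  obtain ⟨B0, h1⟩ := h1 (A + c + 2) (2 * A + 61) 12 d0 κ hκ
  refine ⟨B0, fun B hB => ?_⟩
  obtain ⟨X1, h1⟩ := h1 B hB
  obtain ⟨X2, g2⟩ := P.wt_all B
  obtain ⟨X3, g3⟩ := Reg.log_le (2 * A + 61)
  obtain ⟨X4, g4⟩ := Reg.log_le 1000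
  refine ⟨X1 + X2 + X3 + X4, fun X Z q hR hX hq hqc => ?_⟩
  obtain ⟨a1, a2, -⟩ := g3 X Z hR (by omega)
  obtain ⟨-, -, a3⟩ := g4 X Z hR (by omega)
  have a4 := (g2 (X 0) (by omega)).2.2
  have h1 := h1 (X 0) (by omega)
  obtain ⟨u1, u2, u3⟩ := xE6_U hR
  have hε : ∀ π : I8, ∃ ε : ℤ → ℤ → ℝ, (∀ a b, |ε a b| ≤ 1) ∧ (π ∈ PE X Z q →
      Tab (WW B (X 0)) X π = (datE X ε π).T (gg (WW B (X 0))) (gg (WW B (X 0)))) := fun π => by
    by_cases hπ : π ∈ PE X Z q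
    · obtain ⟨ε, b1, b2⟩ := h3 (WW B (X 0)) X Z q hR π hπ
      exact ⟨ε, b1, fun _ => b2⟩
    · exact ⟨fun _ _ => 0, fun _ _ => by simp, fun h => absurd h hπ⟩
  choose ε e1 e2 using hε
  obtain ⟨f1, f2⟩ := h5 X Z q ε hR hq
  have hZ : 0 ≤ 1 + Real.log Z := add_nonneg zero_le_one (Real.log_natCast_nonneg Z)
  have hV8 : 0 ≤ Vol8 X := prod_nonneg fun _ _ => Nat.cast_nonneg _
  have hV : 0 ≤ Vol X := prod_nonneg fun _ _ => Nat.cast_nonneg _
  have hρ : ∀ π, 0 ≤ rho X q π := fun π => by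
    rw [rho]
    positivity
  have hT : 0 ≤ TE X := by
    rw [TE]
    positivity
  have hv := Vol_eq X
  generalize hW : WW B (X 0) = W at *
  generalize Real.log (X 0) = L at *
  have hL : (1000 : ℝ) ≤ L := by exact_mod_cast a3
  have hL1 : 1 ≤ L := by linarith
  have c1 : 1 ≤ L ^ c := one_le_pow₀ hL1
  have c2 : 1 ≤ L ^ (2 * A + 60) := one_le_pow₀ hL1
  have c3 : (1 + Real.log Z) ^ 12 ≤ L ^ 12 := pow_le_pow_left₀ hZ a2 12
  have c4 : L ^ (2 * A + 60) ≤ (⌈L ^ (2 * A + 60)⌉₊ : ℕ) := Nat.le_ceil _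
  have c5 : ((⌈L ^ (2 * A + 60)⌉₊ : ℕ) : ℝ) ≤ L ^ (2 * A + 61) := by
    have := Nat.ceil_lt_add_one (zero_le_one.trans c2)
    rw [pow_succ L (2 * A + 60)]
    nlinarith
  generalize ⌈L ^ (2 * A + 60)⌉₊ = H at *
  have c6 : 1 ≤ H := by exact_mod_cast c2.trans c4
  have c7 : H ≤ Z := by exact_mod_cast c5.trans a1
  have c8 : Vol8 X * (1 + Real.log Z) ^ 12 ≤ Vol8 X * L ^ 12 := mul_le_mul_of_nonneg_left c3 hV8
  have c9 : 0 ≤ Vol8 X * (1 + Real.log Z) ^ 12 := mul_nonneg hV8 (pow_nonneg hZ _)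
  have k := h1 I8 (PE X Z q) (fun π => datE X (ε π) π) (rho X q) (800 * L ^ c * Vol8 X) (UE X)
    (TE X) H (gg W) u1 u2 hT (by positivity) (fun π _ => hρ π)
    (fun π hπ => h2 X Z q (ε π) hR hq (e1 π) π hπ) (f1.trans (by nlinarith))
    (fun d hd => (f2 d hd).trans (mul_le_mul_of_nonneg_right (by
      have : (q : ℝ) * (Vol8 X * (1 + Real.log Z) ^ 12) ≤ 800 * L ^ c * (Vol8 X * L ^ 12) :=
        mul_le_mul (by linarith) c8 c9 (by positivity)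
      linarith) (Real.rpow_nonneg (Nat.cast_nonneg d) _))) c6 c5 a4
  refine xE6_fin (c := c) hL hV hZ a2 c4 (h4 X Z q H ε hR hq c6 c7 e1) (le_trans ?_ (k.trans_eq ?_))
  · refine sum_le_sum fun π hπ => mul_le_mul_of_nonneg_left ?_ (hρ π)
    rw [e2 π hπ]
    exact le_abs_self _
  · rw [u3, hv]
    ring

end Pool.Agent.MP_e23604_nt.U

end
end

section

/-!
The replacement of the first prime.
-/

open Finset
open scoped Classical

noncomputable section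

namespace Pool.Agent.MP_e23604_nt.U

open P (gg WW Datum Wt)

theorem IE_of (h1 : E1) (h2 : E2) (h3 : E6) : IE := by
  intro A
  obtain ⟨C, h1⟩ := h1
  obtain ⟨n, hn⟩ : ∃ n, n = (A + 15) * C := ⟨_, rfl⟩
  obtain ⟨B0, h3⟩ := h3 (A + 2 * n + 1) n
  refine ⟨B0, fun B hB => ?_⟩
  obtain ⟨X1, h3⟩ := h3 B hB
  obtain ⟨X2, h1⟩ := h1 B (A + 15) (by omega)
  obtain ⟨X3, h4⟩ := Reg.log_le 50
  refine ⟨X1 + X2 + X3, fun X Z hR hX G1 G2 H hW => (h1 X Z hR (by omega) G1 G2 H hW).trans ?_⟩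
  obtain ⟨-, a2, a3⟩ := h4 X Z hR (by omega)
  have h5 := fun q => h3 X Z q hR (by omega)
  have hV : 0 ≤ Vol X := prod_nonneg fun _ _ => Nat.cast_nonneg _
  have h6 := (h2 X Z hR).trans (mul_le_mul_of_nonneg_left (pow_le_pow_left₀
    (add_nonneg zero_le_one (Real.log_natCast_nonneg Z)) a2 12) (by positivity))
  rw [← hn]
  generalize Real.log (X 0) = L at *
  have hL : (50 : ℝ) ≤ L := by exact_mod_cast a3
  have hL0 : 0 < L := by linarith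
  have h7 := sum_le_card_nsmul (Icc 1 ⌊L ^ n⌋₊) _ _ fun q hq => h5 q (mem_Icc.1 hq).1
    ((Nat.le_floor_iff (by positivity)).1 (mem_Icc.1 hq).2)
  rw [Nat.card_Icc, Nat.add_sub_cancel, nsmul_eq_mul] at h7
  have h8 := h7.trans (mul_le_mul_of_nonneg_right (Nat.floor_le (by positivity)) (by positivity))
  refine (add_le_add (mul_le_mul_of_nonneg_left h6 (by positivity))
    (mul_le_mul_of_nonneg_left h8 (by positivity))).trans ?_
  have e : 3 * L / L ^ (A + 15) * (400 * Vol X * L ^ 12) +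
      L ^ n * (L ^ n * (Vol X / L ^ (A + 2 * n + 1))) = Vol X / L ^ A * ((1200 + L) / L ^ 2) := by
    field_simp
    ring
  rw [e]
  refine mul_le_of_le_one_right (by positivity) ?_
  rw [div_le_one (by positivity)]
  nlinarith

end Pool.Agent.MP_e23604_nt.U

end
end
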