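import Mathlib
import Pool.Agent.Mg.Fe23604m.Gec02e9

set_option linter.all false

section

namespace Pool.Agent.MP_f68ac8_nt.Zv

open Ev Pv Sv
open NumberField Filter
open scoped Topology BigOperators

lemma norm_psi_ZcEqEv {p : ℕ} [Fact p.Prime] {M n d : ℕ} (κ : Finset (Fin d) → Rg p M)
    (h : Finset (Fin d) → Gm p M n) (c : Rg p M) : ‖Psi κ h c‖ ≤ 1 := by
  unfold Psi
  rw [ZMod.stdAddChar_apply]
  exact (Circle.norm_coe _).le

lemma psi_conj_ZcEqEv {p : ℕ} [Fact p.Prime] (hE : EigStmt p) {M n d : ℕ}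
    (κ : Finset (Fin d) → Rg p M) (k h : Finset (Fin d) → Gm p M n) (c : Rg p M) :
    Psi κ (k * h * k⁻¹) c = Psi κ h c := by
  unfold Psi Ps
  congr 1
  refine Finset.sum_congr rfl fun ω _ => ?_
  congr 1
  exact (hE M (Fin n × Fin n)).1 (h ω).1 (k ω).1 c

theorem eqEv_stmt (p : ℕ) [Fact p.Prime] (hC : ChebStmt p) (hF : FcStmt) (hI : FincStmt) (hN : NuStmt p) (hX : ChiStmt p) (hE : EigStmt p) : EqEvStmt p := by
  intro K F _ _ hB O B _ β hG M n d e he Q hQ hc t ht η hη hη2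
  obtain ⟨hN1, hN2, -⟩ := hN K F hB O
  obtain ⟨-, hX2, -⟩ := hX K F hB M
  choose c hc1 hc2 using hc
  have hr : (Set.range fun j : Q => pr K (c j.1 j.2)) = Q := by
    ext q
    constructor
    · rintro ⟨j, rfl⟩
      simp only [hc2]
      exact j.2
    · intro hq
      exact ⟨⟨q, hq⟩, hc2 q hq⟩
  have : Finite Q := hQ.to_subtype
  have hfin := (hI (GK K) (Finset (Fin d) → Gm p M n) {N | Adm p F O Q N}
    (Set.range β ∪ Set.range fun j : Q => toK K (c j.1 j.2).τ)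
    ((Set.finite_range _).union (Set.finite_range _))
    (fun N h N' h' => hN2 Q N N' h h')
    (fun N h => hG Q (fun j => c j.1 j.2) (fun j => hc1 j.1 j.2) N (by rw [hr]; exact h))).1
  have key : ∀ C : Subgroup (GK K × (Finset (Fin d) → Gm p M n)),
      (∃ N, Adm p F O Q N ∧ ∀ g ∈ N, (g, 1) ∈ C) → ∀ κ : Finset (Fin d) → Rg p M,
      ∀ᶠ s in 𝓝[>] (1 : ℝ), (∀ g, ∃ h, (g, h) ∈ C) →
        Sh p F t (FC C (chiM p K M) (Psi κ)) →
        ∀ (U : Finset (Ideal (𝓞 K))) (x : Ideal (𝓞 K) → Co),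
          (∀ q ∈ U, Typ p K F t q ∧ CoAt p F t q (x q)) → 1 - η ≤ mass (Typ p K F t) s U →
          ‖∑ q : U, wt s U q • 𝔼 a : Exn e,
            FC C (chiM p K M) (Psi κ) (toK K (x q).σ ^ (a.1 : ℕ))‖ ≤ 4 * η := by
    rintro C ⟨N, hNa, hNC⟩ κ
    by_cases hs : ∀ g, ∃ h, (g, h) ∈ C
    swap
    · exact Eventually.of_forall fun s h => absurd h hs
    by_cases hSh : Sh p F t (FC C (chiM p K M) (Psi κ))
    swap
    · exact Eventually.of_forall fun s _ h => absurd h hSh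
    obtain ⟨f1, f2, f3, f4, f5⟩ := hF (GK K) (Finset (Fin d) → Gm p M n) (Rg p M) C
      (chiM p K M) (Psi κ) hs (norm_psi_ZcEqEv κ) (psi_conj_ZcEqEv hE κ)
    have g1 := (hN1 Q).nrm
    have := hC K F hB t ht
      (C.comap (MonoidHom.inl _ _) ⊓ (chiM p K M).ker ⊓ GF K F) e (FC C (chiM p K M) (Psi κ))
      inferInstance ?_ ?_ (lt_trans zero_lt_one he.1) ?_ f3 ?_ f4 hSh η hη hη2
    · exact this.mono fun s h _ _ => h
    · filter_upwards [hNa.nhds, hX2, (hN1 Q).nhds] with g h1 h2 h3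
      exact ⟨⟨hNC g h1, h2⟩, h3⟩
    · intro g hg
      exact hg.2
    · intro g
      refine ⟨⟨?_, (he.2.2.2 g).2⟩, (he.2.2.2 g).1⟩
      obtain ⟨k, hk⟩ := he.2.2.1
      have := C.pow_mem (f2 g) k
      rw [Prod.pow_mk, one_pow, ← pow_mul, ← hk] at this
      exact this
    · intro g₀ hg₀ g
      have := f5 g₀ 1 g 1 hg₀.1.1 hg₀.1.2 (fun h _ => by rw [one_mul, one_mul])
      rwa [one_mul] at this
  have key2 := (hfin.eventually_all (l := 𝓝[>] (1 : ℝ))).2 fun C hC' =>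
    eventually_all.2 (key C hC'.1)
  filter_upwards [key2] with s hs U x hU hm C hC1 hC2 κ hSh
  exact hs C ⟨hC1, fun g _ => hC2 g⟩ κ hC2 hSh U x hU hm

end Pool.Agent.MP_f68ac8_nt.Zv

end

section

/-! Equidistribution of the random words. -/

namespace Pool.Agent.MP_f68ac8_nt.Zv

open Ev Pv Sv
open NumberField Finset Filter
open scoped Topology BigOperators

section
variable {Φ G H : Type} [Group Φ] [Group G] [Group H] (a : Φ →* G) (b : Φ →* H) (N : Subgroup G)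

/-- the correspondence defined by two homomorphisms -/
def corr_ZcEqa (hN : N.Normal) : Subgroup (G × H) where
  carrier := {z | ∃ w, b w = z.2 ∧ (a w)⁻¹ * z.1 ∈ N}
  one_mem' := ⟨1, map_one b, by simp⟩
  mul_mem' := by
    rintro z z' ⟨w, h1, h2⟩ ⟨w', h3, h4⟩
    refine ⟨w * w', by rw [map_mul, h1, h3, Prod.snd_mul], ?_⟩
    have := N.mul_mem (hN.conj_mem' _ h2 (a w')) h4
    simpa [mul_assoc] using this
  inv_mem' := by
    rintro z ⟨w, h1, h2⟩
    refine ⟨w⁻¹, by rw [map_inv, h1, Prod.snd_inv], ?_⟩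
    have := hN.conj_mem _ (N.inv_mem h2) (a w)
    simpa [mul_assoc] using this

open Classical in
lemma avg_ZcEqa [Fintype H] (hN : N.Normal) {w₀ : Φ} {g : G} (h : (a w₀)⁻¹ * g ∈ N) (Ψ : H → ℂ) :
    𝔼 k ∈ univ.filter (· ∈ (N.comap a).map b), Ψ (b w₀ * k) =
      𝔼 k ∈ univ.filter (fun k => (g, k) ∈ corr_ZcEqa a b N hN), Ψ k := by
  refine Finset.expect_nbij' (fun k => b w₀ * k) (fun k => (b w₀)⁻¹ * k) (fun k hk => ?_)
    (fun k hk => ?_) (fun k _ => inv_mul_cancel_left _ _) (fun k _ => mul_inv_cancel_left _ _)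
    fun _ _ => rfl
  · obtain ⟨w, hw, rfl⟩ := (mem_filter.1 hk).2
    refine mem_filter.2 ⟨mem_univ _, w₀ * w, map_mul _ _ _, ?_⟩
    have := N.mul_mem (N.inv_mem hw) h
    simpa [mul_assoc] using this
  · obtain ⟨w, h1, h2⟩ := (mem_filter.1 hk).2
    refine mem_filter.2 ⟨mem_univ _, w₀⁻¹ * w, ?_, by rw [map_mul, map_inv, h1]⟩
    have := N.mul_mem h (N.inv_mem h2)
    simpa [mul_assoc] using this

end

lemma piV_ZcEqa {Λ Ω G : Type} [Group G] (V : Ω → Λ → G) (w : FreeGroup Λ) (ω : Ω) :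
    piV V w ω = FreeGroup.lift (V ω) w :=
  DFunLike.congr_fun (show (Pi.evalMonoidHom (fun _ => G) ω).comp (piV V) = FreeGroup.lift (V ω) from
    FreeGroup.ext_hom _ _ fun l => by simp [piV]) w

lemma notMem_ZcEqa {p : ℕ} [hp : Fact p.Prime] {K F : IntermediateField ℚ Qb} {c : Co}
    (h : c.Ok p K F) : (p : OQ) ∉ c.P := fun e => by
  have h1 := (under_int_eq (hP := h.max) h.prime h.mem).symm.trans
    (under_int_eq (hP := h.max) hp.out e)
  rw [Ideal.span_singleton_eq_span_singleton, Int.associated_iff_natAbs] at h1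
  exact h.ne (by simpa using h1)

end Pool.Agent.MP_f68ac8_nt.Zv

end
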