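import Mathlib
import Pool.Agent.Mg.Fe23604m.G85b98f
import Pool.Agent.Mg.Fe23604m.G2cae3b
import Pool.Agent.Mg.Fe23604m.G3360bb

set_option linter.all false

section

namespace Pool.Agent.MP_f68ac8_nt.Zk

open Ev Pv Sv Zv
open scoped commutatorElement
open NumberField Filter
open scoped Topology BigOperators

section
variable {p : ℕ} [NeZero p] {G H : Type} [Group G] [Group H] [Fintype H]

open Classical in
lemma norm_Av_ZmEqP (H' : Subgroup H) (κ : H → ZMod p) (h : H) : ‖Av H' κ h‖ ≤ 1 := by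
  refine (RCLike.norm_expect_le (K := ℂ)).trans (Finset.expect_le ⟨1, ?_⟩ fun x _ => ?_)
  · exact Finset.mem_filter.2 ⟨Finset.mem_univ _, H'.one_mem⟩
  · rw [ZMod.stdAddChar_apply]
    exact (Circle.norm_coe _).le

open Classical in
lemma Av_conj_ZmEqP (H' : Subgroup H) (κ : H → ZMod p) {u : H} (hu : u ∈ H') (h : H) :
    Av H' κ (u * h * u⁻¹) = Av H' κ h := by
  refine Finset.expect_equiv (Equiv.mulRight u) (fun k => ?_) fun k _ => ?_
  · simp only [Finset.mem_filter, Finset.mem_univ, true_and, Equiv.coe_mulRight]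
    exact (H'.mul_mem_cancel_right hu).symm
  · simp only [Equiv.coe_mulRight, mul_inv_rev, mul_assoc]

open Classical in
lemma Av_shift_ZmEqP (H' : Subgroup H) (κ : H → ZMod p) {z : H} {c : ZMod p}
    (hz : ∀ k ∈ H', ∀ h ∈ H', κ (k * z * k⁻¹ * h) = κ h + c) {h : H} (hh : h ∈ H') :
    Av H' κ (z * h * 1) = ZMod.stdAddChar c * Av H' κ h := by
  rw [Av, Av, Finset.mul_expect]
  refine Finset.expect_congr rfl fun k hk => ?_
  have hk' : k ∈ H' := (Finset.mem_filter.1 hk).2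
  rw [show k * (z * h * 1) * k⁻¹ = k * z * k⁻¹ * (k * h * k⁻¹) by group,
    hz k hk' _ (H'.mul_mem (H'.mul_mem hk' hh) (H'.inv_mem hk')), AddChar.map_add_eq_mul, mul_comm]

open Classical in
lemma FC_move_ZmEqP (C : Subgroup (G × H)) (Ψ : H → ℂ) {a b : G} {u v : H} (ha : (a, u) ∈ C)
    (hb : (b, v) ∈ C) (g : G) (ε : ℂ) (hΨ : ∀ h, (g, h) ∈ C → Ψ (u * h * v) = ε * Ψ h) :
    FC C (fun _ => ()) (fun h _ => Ψ h) (a * g * b) =
      ε * FC C (fun _ => ()) (fun h _ => Ψ h) g := by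
  rw [FC, FC, Finset.mul_expect]
  symm
  refine Finset.expect_equiv ((Equiv.mulLeft u).trans (Equiv.mulRight v)) (fun h => ?_)
    fun h hh => (hΨ h (Finset.mem_filter.1 hh).2).symm
  simp only [Finset.mem_filter, Finset.mem_univ, true_and]
  exact ((C.mul_mem_cancel_right (x := (b, v)) (y := (a, u) * (g, h)) hb).trans
    (C.mul_mem_cancel_left ha)).symm

open Classical in
lemma norm_FC_ZmEqP (C : Subgroup (G × H)) (Ψ : H → ℂ) (hs : ∀ g, ∃ h, (g, h) ∈ C)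
    (hΨ : ∀ h, ‖Ψ h‖ ≤ 1) (g : G) : ‖FC C (fun _ => ()) (fun h _ => Ψ h) g‖ ≤ 1 := by
  obtain ⟨h, hh⟩ := hs g
  refine (RCLike.norm_expect_le (K := ℂ)).trans (Finset.expect_le ⟨h, ?_⟩ fun x _ => hΨ _)
  exact Finset.mem_filter.2 ⟨Finset.mem_univ _, hh⟩

lemma facts_ZmEqP (C : Subgroup (G × H)) (κ : H → ZMod p) (hs : ∀ g, ∃ h, (g, h) ∈ C)
    (φ : G → ℂ) (hφ : φ = FC C (fun _ => ()) fun h _ => Av (C.map (MonoidHom.snd _ _)) κ h) :
    (∀ g, ‖φ g‖ ≤ 1) ∧ (∀ n, (n, 1) ∈ C → ∀ g, φ (n * g) = φ g) ∧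
    (∀ s g, φ (s * g * s⁻¹) = φ g) ∧ (Shf (C.map (MonoidHom.snd _ _)) κ →
      ∃ (g₁ : G) (z : H) (ε : ℂ), ε ≠ 1 ∧ (g₁, z) ∈ C ∧
        ∀ g₀, (g₀, z) ∈ C → ∀ g, φ (g₀ * g) = ε * φ g) := by
  subst hφ
  refine ⟨norm_FC_ZmEqP C _ hs (norm_Av_ZmEqP _ κ), fun g₀ hg₀ g => ?_, fun s g => ?_, ?_⟩
  · have := FC_move_ZmEqP C (Av (C.map (MonoidHom.snd _ _)) κ) (a := g₀) (b := 1) (u := 1)
      (v := 1) hg₀ C.one_mem g 1 fun h _ => by rw [one_mul, one_mul, mul_one]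
    rwa [one_mul, mul_one] at this
  · obtain ⟨k, hk⟩ := hs s
    have := FC_move_ZmEqP C (Av (C.map (MonoidHom.snd _ _)) κ) (b := s⁻¹) (v := k⁻¹) hk
      (C.inv_mem hk) g 1 fun h _ => by
        rw [one_mul, Av_conj_ZmEqP (C.map (MonoidHom.snd G H)) κ (u := k) ⟨_, hk, rfl⟩]
    rwa [one_mul] at this
  · rintro ⟨z, ⟨⟨g₁, z'⟩, hz, rfl⟩, d, hd, hκ⟩
    refine ⟨g₁, z', ZMod.stdAddChar d, fun h0 => hd (ZMod.injective_stdAddChar ?_), hz,
      fun g₀ h1 g => ?_⟩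
    · rw [h0, AddChar.map_zero_eq_one]
    · have := FC_move_ZmEqP C (Av (C.map (MonoidHom.snd _ _)) κ) (b := 1) (v := 1) h1
        C.one_mem g (ZMod.stdAddChar d) fun h' hh' => Av_shift_ZmEqP _ κ hκ ⟨_, hh', rfl⟩
      rwa [mul_one] at this

end

end Pool.Agent.MP_f68ac8_nt.Zk

end

section

namespace Pool.Agent.MP_f68ac8_nt.Nd

open Zq Ev Pv Sv Zv Zk NumberField Finset Filter
open scoped Topology BigOperators commutatorElement

lemma prod_single_NdEqa {P : Type} [Monoid P] : ∀ {d : ℕ} (f : Fin d → P) (j : Fin d),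
    (∀ k, k ≠ j → f k = 1) → (List.ofFn f).prod = f j
  | 0, _, j, _ => j.elim0
  | d + 1, f, j, h => by
    rw [List.ofFn_succ, List.prod_cons]
    rcases Fin.eq_zero_or_eq_succ j with rfl | ⟨i, rfl⟩
    · rw [List.prod_eq_one, mul_one]
      intro a ha
      obtain ⟨k, rfl⟩ := List.mem_ofFn.1 ha
      exact h _ (Fin.succ_ne_zero k)
    · rw [h 0 (Fin.succ_ne_zero i).symm, one_mul]
      exact prod_single_NdEqa (fun k => f k.succ) i fun k hk =>
        h _ fun e => hk (Fin.succ_injective _ e)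

lemma index_NdEqa {G H : Type} [Group G] [Group H] [Finite H] (C : Subgroup (G × H))
    (hC : ∀ g, ∃ h, (g, h) ∈ C) : (C.comap (MonoidHom.inl G H)).index ≠ 0 ∧
      (C.comap (MonoidHom.inl G H)).index ≤ Nat.card (C.map (MonoidHom.snd G H)) := by
  have h0 : ∀ h : C.map (MonoidHom.snd G H), ∃ g, (g, h.1) ∈ C := by
    rintro ⟨_, ⟨g, h⟩, hz, rfl⟩
    exact ⟨g, hz⟩
  choose f hf using h0
  have hs : Function.Surjective fun h : C.map (MonoidHom.snd G H) =>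
      (QuotientGroup.mk (f h) : G ⧸ C.comap (MonoidHom.inl G H)) := by
    intro z
    obtain ⟨g, rfl⟩ := QuotientGroup.mk_surjective z
    obtain ⟨h, hh⟩ := hC g
    refine ⟨⟨h, ⟨(g, h), hh, rfl⟩⟩, QuotientGroup.eq.2 ?_⟩
    have := C.mul_mem (C.inv_mem (hf ⟨h, ⟨(g, h), hh, rfl⟩⟩)) hh
    simpa [Subgroup.mem_comap] using this
  have : Finite (G ⧸ C.comap (MonoidHom.inl G H)) := Finite.of_surjective _ hs
  exact ⟨Nat.card_pos.ne', Nat.card_le_card_of_surjective _ hs⟩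

section
variable {P Λ : Type} [Group P] {d : ℕ}

/-- the values of the products of the copies -/
noncomputable def Vc_NdEqa (W : Finset (Fin d) → Lr d Λ → P) (ω : Finset (Fin d)) (l : Λ) : P :=
  (List.ofFn fun j : Fin d => W ω ⟨j, l⟩).prod

lemma sbs_NdEqa (W : Finset (Fin d) → Lr d Λ → P) (v : FreeGroup Λ) :
    piV W (sbs d v) = piV (Vc_NdEqa W) v :=
  DFunLike.congr_fun (show (piV W).comp (sbs d) = piV (Vc_NdEqa W) from
    FreeGroup.ext_hom _ _ fun l => by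
      funext ω
      rw [MonoidHom.comp_apply, piV_ZcEqa, piV_ZcEqa, FreeGroup.lift_apply_of, sbs,
        FreeGroup.lift_apply_of, map_list_prod, List.map_ofFn, Vc_NdEqa]
      congr 2
      funext j
      exact FreeGroup.lift_apply_of) v

variable {S : Finset (Fin d)} (x : Fin d → P) {q₀ q₁ : Fin d → Λ}

lemma ne_NdEqa {ω : Finset (Fin d)} {j : Fin d} {l : Λ} (h : Wc S x q₀ q₁ ω ⟨j, l⟩ ≠ 1) :
    j ∈ S ∧ (l = q₀ j ∨ l = q₁ j) := by
  unfold Wc plc msk at h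
  constructor
  · by_contra hj
    simp [hj] at h
  · by_contra hl
    refine h (if_neg fun e => hl ?_)
    by_cases hω : j ∈ ω
    · exact Or.inr (e.trans (Finset.piecewise_eq_of_mem _ _ _ hω))
    · exact Or.inl (e.trans (Finset.piecewise_eq_of_notMem _ _ _ hω))

lemma one_NdEqa (ω : Finset (Fin d)) {l : Λ} (h : ∀ j ∈ S, l ≠ q₀ j ∧ l ≠ q₁ j) :
    Vc_NdEqa (Wc S x q₀ q₁) ω l = 1 := by
  refine List.prod_eq_one fun a ha => ?_
  obtain ⟨j, rfl⟩ := List.mem_ofFn.1 ha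
  by_contra hj
  obtain ⟨h1, h2⟩ := ne_NdEqa x hj
  exact h2.elim (h j h1).1 (h j h1).2

lemma val_NdEqa (hq : OKp S q₀ q₁) (ω : Finset (Fin d)) {j : Fin d} {l : Λ} (hj : j ∈ S)
    (hl : l = q₀ j ∨ l = q₁ j) : Vc_NdEqa (Wc S x q₀ q₁) ω l = Wc S x q₀ q₁ ω ⟨j, l⟩ := by
  refine prod_single_NdEqa (fun j : Fin d => Wc S x q₀ q₁ ω ⟨j, l⟩) j fun k hk => ?_
  by_contra h
  obtain ⟨h1, h2⟩ := ne_NdEqa x h
  rcases hl with hl | hl <;> rcases h2 with h2 | h2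
  · exact ((hq k h1 j hj).2 hk).1 (h2.symm.trans hl)
  · exact (hq j hj k h1).1 (hl.symm.trans h2)
  · exact (hq k h1 j hj).1 (h2.symm.trans hl)
  · exact ((hq k h1 j hj).2 hk).2 (h2.symm.trans hl)

lemma range_NdEqa (hq : OKp S q₀ q₁) :
    (piV (Vc_NdEqa (Wc S x q₀ q₁))).range = (piV (Wc S x q₀ q₁)).range := by
  refine le_antisymm ?_ ?_
  · rintro _ ⟨v, rfl⟩
    exact ⟨_, sbs_NdEqa _ v⟩
  · rw [piV, FreeGroup.range_lift_eq_closure, Subgroup.closure_le]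
    rintro _ ⟨⟨j, l⟩, rfl⟩
    by_cases h : j ∈ S ∧ (l = q₀ j ∨ l = q₁ j)
    · refine ⟨FreeGroup.of l, funext fun ω => ?_⟩
      rw [piV_ZcEqa, FreeGroup.lift_apply_of]
      exact val_NdEqa x hq ω h.1 h.2
    · refine ⟨1, funext fun ω => ?_⟩
      rw [map_one]
      by_contra h1
      exact h (ne_NdEqa x fun e => h1 e.symm)

lemma inter_NdEqa (ω : Finset (Fin d)) (l : Lr d Λ) :
    Wc S x q₀ q₁ ω l = Wc S x q₀ q₁ (ω ∩ S) l := by
  obtain ⟨j, l⟩ := l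
  unfold Wc plc msk
  by_cases hj : j ∈ S
  · have : ω.piecewise q₁ q₀ j = (ω ∩ S).piecewise q₁ q₀ j := by
      by_cases hω : j ∈ ω
      · rw [Finset.piecewise_eq_of_mem _ _ _ hω,
          Finset.piecewise_eq_of_mem _ _ _ (mem_inter.2 ⟨hω, hj⟩)]
      · rw [Finset.piecewise_eq_of_notMem _ _ _ hω,
          Finset.piecewise_eq_of_notMem _ _ _ fun e => hω (mem_inter.1 e).1]
    by_cases e : l = ω.piecewise q₁ q₀ j
    · exact (if_pos e).trans (if_pos (e.trans this)).symm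
    · exact (if_neg e).trans (if_neg fun e' => e (e'.trans this.symm)).symm
  · simp [hj]

lemma card_NdEqa [Fintype P] :
    Nat.card (piV (Wc S x q₀ q₁)).range ≤ Fintype.card P ^ 2 ^ S.card := by
  have h1 : ∀ v ω, piV (Wc S x q₀ q₁) v ω = piV (Wc S x q₀ q₁) v (ω ∩ S) := fun v ω => by
    rw [piV_ZcEqa, piV_ZcEqa, funext (inter_NdEqa x ω)]
  have h2 : Function.Injective fun (h : (piV (Wc S x q₀ q₁)).range) (ω : S.powerset) =>
      h.1 ω.1 := by
    rintro ⟨_, v, rfl⟩ ⟨_, v', rfl⟩ e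
    refine Subtype.ext (funext fun ω => ?_)
    exact (h1 v ω).trans ((congrFun e ⟨ω ∩ S, mem_powerset.2 inter_subset_right⟩).trans
      (h1 v' ω).symm)
  refine (Nat.card_le_card_of_injective _ h2).trans ?_
  rw [Nat.card_fun, Nat.card_eq_fintype_card, Nat.card_eq_fintype_card, Fintype.card_coe,
    card_powerset]

end

theorem eqaN (hP : Zq.PrimStmt 2) (hG : Zq.GenPStmt 2) (hW : WmN) (hE : EqpN) : EqaN := by
  classical
  intro K F _ _ hFb hK hF P _ _ _ L p c D η hOk x N hA hx 𝓡 _ _ s hs wd hwd d μ k t ht S hS hL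
    x' q₀ q₁ κ hw hq hSh
  obtain ⟨-, g2, -, -⟩ := hG K F hFb hK hF
  obtain ⟨-, -, -, -, p5⟩ := hP K F hFb hK hF
  obtain ⟨-, hW'⟩ := hW p c _ _ D η hOk
  obtain ⟨-, w2, -, w4, -⟩ := hW' d μ
  obtain ⟨V, hV⟩ : ∃ V, V = Vc_NdEqa (Wc S x' q₀ q₁) := ⟨_, rfl⟩
  obtain ⟨R, hR⟩ : ∃ R : Finset ℕ,
      R = (S.image fun j => (q₀ j : ℕ)) ∪ S.image fun j => (q₁ j : ℕ) := ⟨_, rfl⟩
  have hN := hA.adm.nrm
  have hr : (corr_ZcEqa (lwp K x) (piV V) N hN).map (MonoidHom.snd _ _) =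
      (piV (Wc S x' q₀ q₁)).range := by
    rw [← range_NdEqa x' hq, ← hV]
    ext h
    constructor
    · rintro ⟨z, ⟨v, h1, -⟩, rfl⟩
      exact ⟨v, h1⟩
    · rintro ⟨v, rfl⟩
      exact ⟨(lwp K x v, piV V v), ⟨v, rfl, by simp⟩, rfl⟩
  have hC : ∀ g, ∃ h, (g, h) ∈ corr_ZcEqa (lwp K x) (piV V) N hN := fun g =>
    let ⟨v, hv⟩ := hA.gen g
    ⟨_, v, rfl, hv⟩
  have f1 : ((corr_ZcEqa (lwp K x) (piV V) N hN).comap (MonoidHom.inl _ _)).Normal := by
    refine ⟨fun g hg k => ?_⟩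
    obtain ⟨h, hh⟩ := hC k
    have := Subgroup.mul_mem _ (Subgroup.mul_mem _ hh (Subgroup.mem_comap.1 hg))
      (Subgroup.inv_mem _ hh)
    simpa [Subgroup.mem_comap] using this
  have hle : N ≤ (corr_ZcEqa (lwp K x) (piV V) N hN).comap (MonoidHom.inl _ _) := fun g hg =>
    ⟨1, map_one _, by simpa using hg⟩
  have a2 := mem_of_superset hA.adm.nhds hle
  have a3 : ∀ g : GK K, ∃ k, g ^ 2 ^ k ∈
      (corr_ZcEqa (lwp K x) (piV V) N hN).comap (MonoidHom.inl _ _) := fun g =>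
    (hA.adm.pg g).imp fun _ h => hle h
  have adm : AdmP 2 {q | Ideal.absNorm q ∈ R}
      ((corr_ZcEqa (lwp K x) (piV V) N hN).comap (MonoidHom.inl _ _)) := by
    refine ⟨f1, a2, a3, fun Q g h1 h2 h3 => ?_⟩
    by_cases h4 : Q.under (𝓞 K) ∈ Set.range fun y => pr K (x y)
    · obtain ⟨y, hy⟩ := h4
      refine g2 (x y) (hA.co y).1 _ f1 a2 a3 ⟨FreeGroup.of y, ?_, ?_⟩ Q g h1 h2 hy.symm
      · funext ω
        rw [piV_ZcEqa, FreeGroup.lift_apply_of, hV]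
        have h5 : (y : ℕ) ∉ R := fun e => h3 (by
          rw [← hy, Set.mem_ofPred_eq, (p5 (x y) (hA.co y).1).2.1, hx]
          exact e)
        refine one_NdEqa x' ω fun j hj => ⟨fun e => h5 ?_, fun e => h5 ?_⟩
        · rw [hR, e]
          exact mem_union_left _ (mem_image_of_mem _ hj)
        · rw [hR, e]
          exact mem_union_right _ (mem_image_of_mem _ hj)
      · rw [lwp, FreeGroup.lift_apply_of]
        simp
    · exact hle (hA.adm.unr Q g h1 h2 h4)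
  have hRs : R ⊆ p.sm := by
    intro l hl
    rw [hR, mem_union, mem_image, mem_image] at hl
    rcases hl with ⟨j, hj, rfl⟩ | ⟨j, hj, rfl⟩
    · exact (w4 j _ (hw j hj).1).2 (mem_filter.1 (hS hj)).2
    · exact (w4 j _ (hw j hj).2).2 (mem_filter.1 (hS hj)).2
  have hRc : R.card ≤ 2 * L := by
    rw [hR]
    have h1 := card_image_le (s := S) (f := fun j => (q₀ j : ℕ))
    have h2 := card_image_le (s := S) (f := fun j => (q₁ j : ℕ))
    have h3 := card_union_le (S.image fun j => (q₀ j : ℕ)) (S.image fun j => (q₁ j : ℕ))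
    omega
  obtain ⟨i1, i2⟩ := index_NdEqa _ hC
  have i3 : ((corr_ZcEqa (lwp K x) (piV V) N hN).comap (MonoidHom.inl _ _)).index ≤
      Fintype.card P ^ 2 ^ L := by
    rw [hr] at i2
    exact i2.trans ((card_NdEqa x').trans (Nat.pow_le_pow_right Fintype.card_pos
      (Nat.pow_le_pow_right two_pos hL)))
  obtain ⟨f3, f4, f5, f6⟩ := facts_ZmEqP (corr_ZcEqa (lwp K x) (piV V) N hN) κ hC _ rfl
  obtain ⟨g₁, z, ε, hε, hz, f7⟩ := f6 (hr ▸ hSh)
  have key := hE K F hFb hK hF p _ R η (hOk.eqs R hRs hRc)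
    (fun l hl => (hOk.pri l (mem_filter.1 (hRs hl)).1).1) x (fun u => ⟨(hA.co u).1, hx u⟩) _
    adm i1 i3 (2 * Fintype.card P) _ ⟨Nat.mul_pos two_pos Fintype.card_pos, fun g => by
      obtain ⟨h, hh⟩ := hC g
      have h1 := Subgroup.pow_mem _ hh (2 * Fintype.card P)
      have h2 : h ^ (2 * Fintype.card P) = 1 := funext fun ω => by
        rw [Pi.pow_apply, mul_comm, pow_mul, pow_card_eq_one, one_pow, Pi.one_apply]
      rw [Prod.pow_mk, h2] at h1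
      exact h1, f3, f4, f5, g₁, ε, hε, f7 g₁ hz⟩
  rw [hr] at key
  have ht3 : μ t = 3 := (mem_filter.1 ht).2
  have htS : t ∉ S := fun e => disjoint_left.1 w2 (hS e) ht
  have hm : 1 ≤ ms p.Λ p.W 3 := hOk.one 3 (by decide)
  have h0 : ∀ u, piV (Wc S x' q₀ q₁) (FreeGroup.of ⟨t, u⟩) = 1 := fun u => funext fun ω => by
    rw [piV_ZcEqa, FreeGroup.lift_apply_of]
    by_contra h
    exact htS (ne_NdEqa x' h).1
  refine le_trans (le_of_eq ?_) ((mul_le_of_le_one_left (norm_nonneg _)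
    (inv_le_one_of_one_le₀ hm)).trans key)
  rw [← abs_of_nonneg (inv_nonneg.2 (zero_le_one.trans hm)), ← Real.norm_eq_abs, ← norm_smul,
    Finset.smul_sum]
  congr 1
  refine Finset.sum_congr rfl fun u _ => ?_
  rw [smul_smul, wm, ht3, div_eq_inv_mul]
  congr 1
  rw [← univ_product_univ, expect_product]
  refine expect_congr rfl fun a _ => ?_
  have h1 := hs.2 (Finset (Fin d)) V fun h =>
    Av (piV (Wc S x' q₀ q₁)).range κ (piV V (wd u a) * h)
  simp only [map_mul, map_pow, h0, one_pow, mul_one, sbs_NdEqa, ← hV]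
  exact h1.trans (avg_ZcEqa (lwp K x) (piV V) N hN (hwd u a)
    fun h => Av (piV (Wc S x' q₀ q₁)).range κ h)

end Pool.Agent.MP_f68ac8_nt.Nd

end
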