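import Mathlib
import Pool.Agent.Mg.Fe23604m.G85b98f
import Pool.Agent.Mg.Fe23604m.G2cae3b
import Pool.Agent.Mg.Fe23604m.Gc7c2d8
import Pool.Agent.Mg.Fe23604m.G0f32ef
import Pool.Agent.Mg.Fe23604m.Ga53936

set_option linter.all false

section

/-! Equidistribution of the random words. -/

namespace Pool.Agent.MP_f68ac8_nt.Zk

open Ev Pv Sv Zv
open NumberField Finset Filter
open scoped commutatorElement Topology BigOperators

lemma sb_ZmEqa {Λ Ω P : Type} [Group P] (W : Ω → Λ → P) (n : Λ → ℕ) (v : FreeGroup Λ) :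
    piV W (sb n v) = piV (fun ω l => W ω l ^ n l) v :=
  DFunLike.congr_fun (show (piV W).comp (sb n) = piV (fun ω l => W ω l ^ n l) from
    FreeGroup.ext_hom _ _ fun l => by
      simp only [MonoidHom.comp_apply, sb, piV, FreeGroup.lift_apply_of, map_pow]
      rfl) v

lemma range_ZmEqa {p : ℕ} [hp : Fact p.Prime] {Λ Ω P : Type} [Group P] [Finite P]
    (hP : IsPGroup p P) (W : Ω → Λ → P) {n : Λ → ℕ} (hn : ∀ l, ¬ p ∣ n l) :
    (piV fun ω l => W ω l ^ n l).range = (piV W).range := by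
  refine le_antisymm ?_ ?_
  · rintro _ ⟨v, rfl⟩
    exact ⟨_, sb_ZmEqa W n v⟩
  · obtain ⟨k, hk⟩ := hP.exists_card_eq
    rw [piV, FreeGroup.range_lift_eq_closure, Subgroup.closure_le]
    rintro _ ⟨l, rfl⟩
    have h1 : orderOf (fun ω => W ω l) ∣ p ^ k :=
      orderOf_dvd_of_pow_eq_one (funext fun ω => by rw [← hk]; exact pow_card_eq_one')
    obtain ⟨m, hm⟩ := exists_pow_eq_self_of_coprime (x := fun ω => W ω l)
      ((((Nat.Prime.coprime_iff_not_dvd hp.out).2 (hn l)).symm.pow_right k).coprime_dvd_right h1)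
    refine ⟨FreeGroup.of l ^ m, ?_⟩
    rw [map_pow, piV, FreeGroup.lift_apply_of]
    exact hm

end Pool.Agent.MP_f68ac8_nt.Zk

end

section

namespace Pool.Agent.MP_f68ac8_nt.Nd

open Ev Pv Sv Zv Zk NumberField Finset Filter
open scoped Topology BigOperators commutatorElement

section
variable {P Λ : Type} [Group P] {d : ℕ} {S : Finset (Fin d)} (x : Fin d → P)
  {q₀ q₁ : Fin d → Λ} (n : Lr d Λ → ℕ)

lemma ne_NjEqa {ω : Finset (Fin d)} {j : Fin d} {l : Λ}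
    (h : Wc S x q₀ q₁ ω ⟨j, l⟩ ^ n ⟨j, l⟩ ≠ 1) : j ∈ S ∧ (l = q₀ j ∨ l = q₁ j) :=
  ne_NdEqa x fun e => h (by rw [e, one_pow])

lemma one_NjEqa (ω : Finset (Fin d)) {l : Λ} (h : ∀ j ∈ S, l ≠ q₀ j ∧ l ≠ q₁ j) :
    Vc_NdEqa (fun ω l => Wc S x q₀ q₁ ω l ^ n l) ω l = 1 := by
  refine List.prod_eq_one fun a ha => ?_
  obtain ⟨j, rfl⟩ := List.mem_ofFn.1 ha
  by_contra hj
  obtain ⟨h1, h2⟩ := ne_NjEqa x n hj
  exact h2.elim (h j h1).1 (h j h1).2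

lemma val_NjEqa (hq : OKp S q₀ q₁) (ω : Finset (Fin d)) {j : Fin d} {l : Λ} (hj : j ∈ S)
    (hl : l = q₀ j ∨ l = q₁ j) : Vc_NdEqa (fun ω l => Wc S x q₀ q₁ ω l ^ n l) ω l =
      Wc S x q₀ q₁ ω ⟨j, l⟩ ^ n ⟨j, l⟩ := by
  refine prod_single_NdEqa (fun j : Fin d => Wc S x q₀ q₁ ω ⟨j, l⟩ ^ n ⟨j, l⟩) j fun k hk => ?_
  by_contra h
  obtain ⟨h1, h2⟩ := ne_NjEqa x n h
  rcases hl with hl | hl <;> rcases h2 with h2 | h2
  · exact ((hq k h1 j hj).2 hk).1 (h2.symm.trans hl)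
  · exact (hq j hj k h1).1 (hl.symm.trans h2)
  · exact (hq k h1 j hj).1 (h2.symm.trans hl)
  · exact ((hq k h1 j hj).2 hk).2 (h2.symm.trans hl)

lemma range_NjEqa (hq : OKp S q₀ q₁) :
    (piV (Vc_NdEqa fun ω l => Wc S x q₀ q₁ ω l ^ n l)).range =
      (piV fun ω l => Wc S x q₀ q₁ ω l ^ n l).range := by
  refine le_antisymm ?_ ?_
  · rintro _ ⟨v, rfl⟩
    exact ⟨_, sbs_NdEqa _ v⟩
  · rw [piV, FreeGroup.range_lift_eq_closure, Subgroup.closure_le]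
    rintro _ ⟨⟨j, l⟩, rfl⟩
    by_cases h : j ∈ S ∧ (l = q₀ j ∨ l = q₁ j)
    · refine ⟨FreeGroup.of l, funext fun ω => ?_⟩
      rw [piV_ZcEqa, FreeGroup.lift_apply_of]
      exact val_NjEqa x n hq ω h.1 h.2
    · refine ⟨1, funext fun ω => ?_⟩
      rw [map_one]
      by_contra h1
      exact h (ne_NjEqa x n fun e => h1 e.symm)

end

lemma sum_NjEqa (Q : Par) (σ : Q.Λ → GQ) (e : ℕ) (φ : GQ → ℂ) :
    ∑ u : Q.Λ, Q.W 3 u • 𝔼 a : Exm e, φ (σ u ^ (a.1 : ℕ)) =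
      ∑ l ∈ Q.lg, (wl Q.s Q.h Q.k l : ℝ) * tw 0 l * 𝔼 a : Exm e,
        φ ((if h : l ∈ Q.Λ then σ ⟨l, h⟩ else 1) ^ (a.1 : ℕ)) := by
  rw [Par.lg, Finset.sum_filter, ← Finset.sum_coe_sort Q.Λ]
  refine Finset.sum_congr rfl fun u _ => ?_
  have hw : Q.W 3 u = if (u : ℕ) ∈ Q.lg then wl Q.s Q.h Q.k u else 0 := rfl
  have hm : (u : ℕ) ∈ Q.lg ↔ Q.Y < (u : ℕ) := by
    rw [Par.lg, Finset.mem_filter]
    exact ⟨fun h => h.2, fun h => ⟨u.2, h⟩⟩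
  rw [hw, dif_pos u.2]
  by_cases hu : (u : ℕ) ∈ Q.lg
  · rw [if_pos hu, if_pos (hm.1 hu)]
    simp only [Nd.tw, Complex.ofReal_zero, mul_zero, zero_mul, Complex.exp_zero, mul_one,
      Complex.real_smul]
  · rw [if_neg hu, if_neg fun h => hu (hm.2 h), zero_smul]

end Pool.Agent.MP_f68ac8_nt.Nd

end

section

namespace Pool.Agent.MP_f68ac8_nt.Nd
open Ev Pv Sv Zv Zk NumberField Finset Filter
open scoped Topology BigOperators commutatorElement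

lemma bil_NjPar (Q : Par) (hle : Q.Z ≤ Q.Y) {m m' : Fin 4} {a b : ℕ → ℂ} (f : ℕ → ℕ → ℂ)
    (hm : m ≠ 0) (hm' : m' ≠ 0) (ha : ∀ l ∈ Q.Λ, ‖a l‖ ≤ Q.W m l)
    (hb : ∀ l ∈ Q.Λ, ‖b l‖ ≤ Q.W m' l) :
    ∑ l ∈ Q.Λ, ∑ l' ∈ Q.Λ, (if l = l' then 0 else a l * b l' * f l l') =
      ∑ l ∈ Q.Λ.filter (fun l : ℕ => Q.Z < l), ∑ l' ∈ Q.Λ.filter (fun l : ℕ => Q.Z < l),
        if l = l' then 0 else a l * b l' * f l l' := by
  have h0 : ∀ l ∈ Q.Λ, l ∉ Q.Λ.filter (fun l : ℕ => Q.Z < l) → l ∈ Q.ti := fun l h1 h2 =>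
    mem_filter.2 ⟨h1, not_lt.1 fun h => h2 (mem_filter.2 ⟨h1, h⟩)⟩
  symm
  rw [← sum_subset (filter_subset (fun l : ℕ => Q.Z < l) Q.Λ)]
  · refine sum_congr rfl fun l _ => sum_subset (filter_subset _ _) fun l' h1 h2 => ?_
    have h3 := hb l' h1
    rw [ti_NePar Q hle hm' (h0 l' h1 h2)] at h3
    rw [norm_le_zero_iff.1 h3, mul_zero, zero_mul, ite_self]
  · intro l h1 h2
    have h3 := ha l h1
    rw [ti_NePar Q hle hm (h0 l h1 h2)] at h3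
    refine sum_eq_zero fun l' _ => ?_
    rw [norm_le_zero_iff.1 h3, zero_mul, zero_mul, ite_self]

lemma num_NjPar {δ A CB rB : ℝ} (e : ℕ) (hδ : 0 < δ) (hr : 0 < rB) : ∀ᶠ T : ℝ in atTop,
    1 / T ≤ rB ∧ 1 + (Real.log T ^ 2 + 1) * Real.log T ^ 3 ≤ T ^ (δ / 4) ∧
    CB / (1 + 1 / T - 1) ^ e * Real.exp (-√(Real.log T ^ 3)) ≤ T ^ (-A) ∧
    2 ≤ Real.exp (Real.log T ^ 3) ∧ 1 / Real.exp (Real.log T ^ 3) ≤ T ^ (-A) := by
  have hA := le_abs_self A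
  have hA0 := abs_nonneg A
  filter_upwards [ev_NePar (3 / (δ / 40) ^ 5) (a := δ / 8) (b := δ / 4) (by linarith),
    eventually_ge_atTop (1 / rB), eventually_ge_atTop CB, eventually_gt_atTop 0,
    Real.tendsto_log_atTop.eventually_ge_atTop ((e + |A| + 1) ^ 2),
    Real.tendsto_log_atTop.eventually_ge_atTop (|A| + 1)] with T h1 h2 h3 hT h4 h5
  have h6 := Real.log_le_rpow_div hT.le (ε := δ / 40) (by linarith)
  have eT := Real.exp_log hT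
  rw [Real.rpow_def_of_pos hT (-A)]
  generalize Real.log T = L at *
  have L1 : 1 ≤ L := by linarith
  have L0 : 0 ≤ L := by linarith
  have L3 : L ^ 2 ≤ L ^ 3 := pow_le_pow_right₀ L1 (by norm_num)
  refine ⟨(one_div_le hT hr).2 h2, ?_, ?_, ?_, ?_⟩
  · have h7 := pow_le_pow_left₀ L0 h6 5
    have e1 : (T ^ (δ / 40)) ^ 5 = T ^ (δ / 8) := by
      rw [← Real.rpow_natCast, ← Real.rpow_mul hT.le]
      congr 1
      push_cast
      ring
    rw [div_pow, e1] at h7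
    have h8 : L ^ 3 ≤ L ^ 5 := pow_le_pow_right₀ L1 (by norm_num)
    have h9 : 1 ≤ L ^ 5 := one_le_pow₀ L1
    have e2 : 3 / (δ / 40) ^ 5 * T ^ (δ / 8) = 3 * (T ^ (δ / 8) / (δ / 40) ^ 5) := by ring
    linarith
  · have h7 : (e + |A| + 1) * L ≤ √(L ^ 3) := Real.le_sqrt_of_sq_le (by
      rw [mul_pow, pow_succ' L 2]
      exact mul_le_mul_of_nonneg_right h4 (sq_nonneg L))
    have e1 : CB / (1 + 1 / T - 1) ^ e = CB * Real.exp (e * L) := by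
      rw [add_sub_cancel_left, Real.exp_nat_mul, eT, one_div, inv_pow, div_inv_eq_mul]
    rw [e1, mul_assoc]
    refine (mul_le_mul_of_nonneg_right (h3.trans eT.ge) (by positivity)).trans ?_
    rw [← Real.exp_add, ← Real.exp_add]
    exact Real.exp_le_exp.2 (by nlinarith)
  · nlinarith [Real.add_one_le_exp (L ^ 3)]
  · rw [one_div, ← Real.exp_neg]
    exact Real.exp_le_exp.2 (by nlinarith)

theorem parJ (p : ℕ) [Fact p.Prime] (hZ : ChZ p) (hQ : ChQ p) (hS : SelP p) (hB : BilJ p)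
    (hU : MupJ p) (hL : MloJ p) : ParJ p := by
  have pp : p.Prime := Fact.out
  obtain ⟨c, hc, hc2⟩ := hZ (p ^ 3)
  refine ⟨c, hc, fun n r p₁ δ A hδ hδ1 => ?_⟩
  obtain ⟨c', hc', hcn⟩ := hQ n
  obtain ⟨c₁, hc₁, hS1⟩ := hS.1 n
  obtain ⟨c₂, hc₂, hS2⟩ := hS.2
  obtain ⟨ρ₀, hρ₀, hS3⟩ := hS2 (max p₁ (p + 1))
  obtain ⟨k, hk⟩ := exists_nat_ge ((δ / 4 + |A| + 1) * 2 / δ)
  have hk' : δ / 4 + |A| + 1 ≤ (k + 1) * δ / 2 := by
    rw [div_le_iff₀ hδ] at hk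
    linarith
  obtain ⟨C, hC0, hC2⟩ := hc2 k
  obtain ⟨C', hC0', hCn⟩ := hcn k
  obtain ⟨rB, CB, eB, hrB, -, hB⟩ := hB
  have h0 : 0 < min c₁ c₂ := lt_min hc₁ hc₂
  have hlog : Tendsto (fun X : ℕ => Real.log X) atTop atTop :=
    Real.tendsto_log_atTop.comp tendsto_natCast_atTop_atTop
  filter_upwards [hU δ k hδ hδ1, hL δ k r hδ hδ1,
    hlog.eventually (num_NePar hδ hc h0 hC0 hk'), hlog.eventually (num_NePar hδ hc' h0 hC0' hk'),
    hlog.eventually (num2_NePar (A := A) (CB := 0) (c₀ := min c₁ c₂) (r + 1) hδ (by linarith) hρ₀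
      rfl), hlog.eventually (num_NjPar (A := A) (CB := CB) eB hδ hrB)] with X xU xL x2 xn xx xy
  obtain ⟨hT, hLL, x1, x3, x4, -⟩ := xx
  obtain ⟨y1, x5, x6, x7, x8⟩ := xy
  have hT0 : 0 < Real.log X := by linarith
  have hM : 0 < Real.log X ^ (δ / 4) := Real.rpow_pos_of_pos hT0 _
  have hρ : 0 < min c₁ c₂ / (Real.log X ^ (δ / 4)) ^ 2 := by positivity
  obtain ⟨E, hE, hE2⟩ := hS1 (Real.log X ^ (δ / 4)) _ r
    (div_le_div_of_nonneg_right (min_le_left c₁ c₂) (by positivity))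
  obtain ⟨p₀, hp₀, hp2⟩ := hS3 (Real.log X ^ (δ / 4)) _
    (div_le_div_of_nonneg_right (min_le_right c₁ c₂) (by positivity)) x1
  have pp₀ : p < p₀ := (le_max_right _ _).trans hp₀
  obtain ⟨u1, X', hX', A₀, a1, a2, u2⟩ := xU E p₀
  obtain ⟨v1, v0, v2, v3, v4, v5, v6, v7⟩ := u1 X'
  obtain ⟨w0, w1, w2, w3, w4⟩ := xL E p₀ X' hE hX' pp₀
  have hΛ : ∀ l, l ∈ (parP p X δ k E p₀ X').Λ ↔ l < X' + 1 ∧ Pq p l ∧ l ≠ p₀ :=
    fun l => mem_filter.trans (and_congr_left' mem_range)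
  have es : (parP p X δ k E p₀ X').s = 1 + 1 / Real.log X := rfl
  have eh : (parP p X δ k E p₀ X').h = Real.log X ^ (-δ) := rfl
  have eZ : (parP p X δ k E p₀ X').Z = Real.exp (Real.log (Real.log X) ^ 3) := rfl
  have eY : (parP p X δ k E p₀ X').Y = Real.exp (Real.log X ^ (δ / 8)) := rfl
  have ek : (parP p X δ k E p₀ X').k = k := rfl
  have eE : (parP p X δ k E p₀ X').E = E := rfl
  generalize parP p X δ k E p₀ X' = Q at *
  subst ek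
  have s1 : 1 < Q.s := by
    rw [es]
    exact lt_add_of_pos_right _ (by positivity)
  have s3 : Q.s ≤ 1 + Q.h := by linarith
  have s4 : 0 < Q.h := by
    rw [eh]
    exact Real.rpow_pos_of_pos hT0 _
  have hA : ∀ R : Finset ℕ, (∀ l ∈ R, (l : ℝ) ≤ Q.Y) → ∀ l ∈ A₀, l.Prime ∧ l ∉ insert p R :=
    fun R hR l hl => ⟨(a1 l hl).1, fun h => absurd (a1 l hl).2.1 (not_lt.2 (by
      rcases mem_insert.1 h with rfl | h
      exacts [v0.trans v1, hR l h]))⟩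
  have hF : ∀ σ : ℕ → GQ, (∀ l ∈ Q.lg, Fr l (σ l)) → ∀ l ∈ A₀, l ≡ 1 [MOD p] → Fr l (σ l) :=
    fun σ hσ l h1 h2 => hσ l (a2 ▸ mem_filter.2 ⟨h1, h2⟩)
  have hc1 : ∀ R : Finset ℕ, ((insert p R).card : ℝ) ≤ R.card + 1 := fun R => by
    exact_mod_cast card_insert_le p R
  rw [← eh] at x2 xn
  refine ⟨Q, p₀, (le_max_left _ _).trans hp₀,
    ⟨fun l hl => ((hΛ l).1 hl).2.1, w0, v1, v2, v3, w1, w2,
      fun m l hm => (v5 m l hm).trans (eZ ▸ x8), fun m m' a b u v hm hm' huv ha hb => ?_,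
      fun R hR hr N hN τ hτ σ hσ e φ hφ => ?_, fun R hR hr N hN τ hτ σ hσ e φ hφ => ?_⟩,
    es, fun l h1 h2 h3 => (hΛ l).2 ⟨by omega, h1, h2⟩, v6, v7, w3, w4⟩
  · rw [bil_NjPar Q v1 _ hm hm' ha hb]
    refine (hB Q.s Q.Z _ a b u v s1 (by linarith) (eZ ▸ x7) huv fun l hl => ?_).trans
      (by rw [es, eZ, Real.log_exp]; exact x6)
    obtain ⟨h1, h2⟩ := mem_filter.1 hl
    obtain ⟨h3, h4⟩ := ((hΛ l).1 h1).2.1
    exact ⟨⟨h3, h4.resolve_right fun h => absurd h2 (not_lt.2 (h ▸ v0))⟩, h2.le,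
      (ha l h1).trans (v4 m l), (hb l h1).trans (v4 m' l)⟩
  · have hsz : sz (insert p R) ≤ Real.log X ^ (δ / 4) := by
      have h1 := sz_NePar (R := insert p R) (B := Q.Y) (D := (r + 1 : ℕ))
        (by rw [eY, Real.log_exp]; positivity)
        (by exact_mod_cast (card_insert_le p R).trans (Nat.succ_le_succ hr)) fun l hl => by
          rcases mem_insert.1 hl with rfl | hl
          · exact ⟨pp.pos, v0.trans v1⟩
          · exact ⟨((hΛ l).1 (mem_filter.1 (hR hl)).1).2.1.1.pos, (mem_filter.1 (hR hl)).2.2.1⟩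
      rw [eY, Real.log_exp] at h1
      unfold sz
      linarith
    rw [← a2]
    refine (hCn R N hN _ _ Q.h Q.s τ _ hsz hρ xn.1 (hE2 R N hN hr hsz ?_) s4 xn.2.1 s1 s3
      (hτ.trans hc'.le) A₀ σ (hA R fun l hl => (mem_filter.1 (hR hl)).2.2.1) (hF σ hσ) u2 e φ
      hφ.1 hφ.2).trans xn.2.2
    exact disjoint_left.2 fun l hl => eE ▸ (mem_filter.1 (hR hl)).2.2.2
  · have hsz : sz (insert p R) ≤ Real.log X ^ (δ / 4) := by
      have h1 := sz_NePar (R := insert p R) (B := Q.Z) (D := LL X ^ 2 + 1)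
        (by rw [eZ, Real.log_exp]; positivity) ((hc1 R).trans (by linarith)) fun l hl => by
          rcases mem_insert.1 hl with rfl | hl
          · exact ⟨pp.pos, v0⟩
          · exact ⟨((hΛ l).1 (mem_filter.1 (hR hl)).1).2.1.1.pos, (mem_filter.1 (hR hl)).2⟩
      rw [eZ, Real.log_exp] at h1
      unfold sz
      unfold LL at h1
      linarith
    rw [← a2]
    refine (hC2 _ N hN.toAd0 (mem_insert_self p R) hN.le _ _ Q.h Q.s τ _ hsz hρ x2.1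
      (hp2 _ N hN hsz fun h => ?_) s4 x2.2.1 s1 s3 hτ A₀ σ
      (hA R fun l hl => (mem_filter.1 (hR hl)).2.trans v1) (hF σ hσ) u2 e φ hφ.1 hφ.2).trans x2.2.2
    rcases mem_insert.1 h with h | h
    · omega
    · exact ((hΛ p₀).1 (mem_filter.1 (hR h)).1).2.2 rfl

end Pool.Agent.MP_f68ac8_nt.Nd

end
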