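import Pool.Agent.Mg.Fe23604m.Gd767a4

set_option linter.all false

section

set_option autoImplicit false

open Finset Filter QuadraticAlgebra
open scoped Classical

namespace Pool.Agent.MP_e23604_nt.V

open B R S W

theorem two_MTHB {k : ℕ} {x : ZMod (3 ^ k)} (h : x = -x) : x = 0 := by
  have hu : IsUnit ((2 : ℕ) : ZMod (3 ^ k)) :=
    (ZMod.isUnit_iff_coprime _ _).2 (Nat.Coprime.pow_right _ (by norm_num))
  refine (hu.mul_right_eq_zero).1 ?_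
  push_cast
  linear_combination h

theorem sq_MTHB {A : Type} [Neg A] {a : GQ → A} (h : Y.Anti a) {φ : GQ} (hφ : φ ∉ GK) :
    a (φ ^ 2) = -a (φ ^ 2) := by
  have := h φ hφ (φ ^ 2) (pow_two φ ▸ GK_mul hφ hφ)
  rwa [show φ * φ ^ 2 * φ⁻¹ = φ ^ 2 by group] at this

theorem ov_MTHB {W : Plc} {l : ℕ} (hl : l.Prime) (h : W.l ≠ l) : ¬ Ov W l := fun e =>
  h ((Nat.prime_dvd_prime_iff_eq W.hl.out hl).1 ((PLK_ok.2.2.2.1 W l).1 e))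

theorem ov3_MTHB {W : Plc} (h : W.l ≠ 3) : ¬ Ov W 3 := by
  simpa using ov_MTHB Nat.prime_three h

theorem ml_MTHB {W : Plc} {r : ℕ} (n : ℕ) (h3 : ¬ Ov W 3) (hr : ¬ Ov W r) : ¬ Ov W (ML r n) := by
  rw [ML, Ov_mul, Ov_mul, show (9 : Zw) = 3 ^ 2 by norm_num]
  rintro (e | e | e)
  exacts [h3 (Ov_pow e), h3 (Ov_pow e), hr e]

theorem pp_MTHB {l : ℕ} (hl : l.Prime) (h : l % 3 = 2) : PP (-(l : Zw)) := by
  refine ⟨(inert_prime hl h).neg, ?_⟩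
  obtain ⟨k, hk⟩ : 3 ∣ l + 1 := by omega
  have : ((l + 1 : ℕ) : Zw) = (3 * k : ℕ) := by rw [hk]
  push_cast at this
  exact ⟨-k, by linear_combination -this⟩

theorem aux_MTHB {n r l : ℕ} (hl : l.Prime) (h : 3 ^ (n + 3) * r ∣ l + 1) :
    l % 3 = 2 ∧ ¬ l ∣ r := by
  have h1 : 3 ∣ l + 1 := ((dvd_pow_self 3 (by omega)).mul_right r).trans h
  refine ⟨by omega, fun e => ?_⟩
  exact hl.one_lt.ne' (Nat.dvd_one.1 ((Nat.dvd_add_right dvd_rfl).1 ((e.mul_left _).trans h)))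

theorem th_MTHB {Λ : Type} [CommRing Λ] (Z : Dt Λ) (n : ℕ) (ε : Bool) (hr : Z.r ≠ 0) {g : GQ}
    (hg : g ∈ GK) {u : Zw} (h : ∀ P : Pt, (3 : Zw) ^ (n + 1) • P = 0 → gal g P = u • P) :
    Z.th ε n g - Z.ph ε (ω ^ (Z.χ ε g).val * u) * Z.ga n g ∈ Z.E.m ^ n := by
  have h3 : (3 : Zw) ^ (n + 1) ≠ 0 := pow_ne_zero _ (by decide)
  have hM : ML Z.r n ≠ 0 := mul_ne_zero h3 (mul_ne_zero (by decide) (Nat.cast_ne_zero.2 hr))
  obtain ⟨-, -, -, -, a1, -, -, -, a2⟩ := (PS_ok _ h3).1 g hg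
  obtain ⟨c, hc⟩ := dvd_add (a2 _ hM (dvd_mul_right _ _)) ((a1 u).1 h)
  rw [sub_add_sub_cancel] at hc
  rw [Dt.th, lamZ, ← sub_mul, ← map_sub, ← mul_sub, hc, pow_succ, map_mul, map_mul, map_mul,
    map_pow, map_pow, map_ofNat]
  exact Ideal.mul_mem_right _ _ (Ideal.mul_mem_left _ _ (Ideal.mul_mem_right _ _
    (Ideal.mul_mem_right _ _ (Ideal.pow_mem_pow Z.E.three_mem n))))

theorem ram_MTHB {χ : GQ → ZMod 3} {r : ℕ} (h : Tw χ r) {V : Plc} (hV : Ov V r) {τ : GQ}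
    (hτ : τ ∈ V.I) (hk : km 3 τ V.l ≠ 0) : χ τ ≠ 0 := fun e => by
  have l3 : V.l ≠ 3 := fun e => h.n3 (e ▸ (PLK_ok.2.2.2.1 V r).1 hV)
  have hI : V.I ≤ GK := V.I_le.trans V.D_le
  have hT := TAME_ok 3 1 V Nat.prime_three l3 l3
  rw [pow_one] at hT
  obtain ⟨-, ⟨t, ht, kt⟩, -, -, -, key⟩ := hT
  have k := key _ χ (h.add.mono hI) (h.lc.mono hI)
    (fun w _ => by rw [nsmul_eq_mul, ZMod.natCast_self, zero_mul]) t ht kt
  obtain ⟨τ', h1, h2⟩ := h.ram V hV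
  have k1 := k τ hτ
  rw [e, nsmul_eq_mul, ZMod.natCast_zmod_val] at k1
  have : Fact (Nat.Prime 3) := ⟨Nat.prime_three⟩
  exact h2 (by rw [k τ' h1, (mul_eq_zero.1 k1.symm).resolve_left hk, smul_zero])

theorem THB_pf (hY : HY) (hTRM : TRM_st) (hTHA : THA_st) : THB_st := by
  intro Λ _ Z n h
  have tw := h.tw true
  have hr : Z.r ≠ 0 := tw.sf.ne_zero
  obtain ⟨q3, qr⟩ := aux_MTHB (h.qp n) (h.qd n)
  obtain ⟨hU, -, -, -, -, hth, -⟩ := hTHA Λ Z n h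
  obtain ⟨t1, -, -, t4, -⟩ := hTRM Z.r hr tw.n3
  have a0 : ∀ W : Plc, W.l ≠ Z.q n → ∀ τ ∈ W.I, Z.At n τ = 0 := fun W e =>
    h.unr n W (ov_MTHB (h.qp n) e)
  have g1 : ∀ g, Z.At n g = 0 → Z.ga n g = 1 := fun g e => by
    rw [Dt.ga, e, ZMod.val_zero, pow_zero]
  have p2 : ∀ φ ∉ GK, Z.At n (φ ^ 2) = 0 ∧ ∀ ε, Z.χ ε (φ ^ 2) = 0 := fun φ hφ =>
    ⟨two_MTHB (sq_MTHB (h.odd n) hφ), fun ε => two_MTHB (k := 1) (sq_MTHB (h.anti ε) hφ)⟩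
  have p1 : ∀ W : Plc, W.l = 3 ∨ (W.l % 3 = 2 ∧ W.l ≠ Z.q n) → ∀ g ∈ W.D, Z.At n g = 0 := by
    rintro W (e | ⟨e, e'⟩) g hg
    · obtain ⟨t, b1, b2⟩ : ∃ c ∈ Ine W.l W.γ, c ∉ GK := by
        obtain ⟨l, γ⟩ := W
        subst e
        exact S.LOC_ok.2.2.2 γ
      have b3 : t * g * t⁻¹ ∈ GK := (Plc.cj_GK t g).1 hg.2
      have b4 : t * g * t⁻¹ * g⁻¹ ∈ W.I := ⟨by
        rw [mul_assoc, mul_assoc, ← mul_assoc g]
        exact (Ine _ _).mul_mem b1 (Ine_conj hg.1 ((Ine _ _).inv_mem b1)),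
        GK.mul_mem b3 (GK.inv_mem hg.2)⟩
      have b5 := h.add n _ b4.2 g hg.2
      rw [inv_mul_cancel_right, a0 W (by omega) _ b4, zero_add, h.odd n t b2 g hg.2] at b5
      exact two_MTHB b5.symm
    · obtain ⟨φ, hφ⟩ := hY.INF.2.1 W e
      obtain ⟨pp, ov, -, nφ, fk, -⟩ := hY.INF.2.2 W φ hφ
      exact van_HIVK ((FRK_ok W _ pp.1 ov).2.2.2 _ fk).2.2.2.1 W.I_le fk.1
        ((h.add n).mono W.D_le) ((h.lc n).mono W.D_le) (a0 W e') (p2 φ nφ).1 g hg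
  have p4 : ∀ l : ℕ, l.Prime → 3 ^ (n + 3) * Z.r ∣ l + 1 → l % 3 = 2 ∧ ¬ l ∣ Z.r ∧ PP (-l) ∧
      ∀ W : Plc, W.l = l → W.D ≤ UM (ML Z.r n) ∧ (l ≠ Z.q n → W.D ≤ Z.U n) := fun l hl hd => by
    obtain ⟨l3, lr⟩ := aux_MTHB hl hd
    refine ⟨l3, lr, pp_MTHB hl l3, fun W e => ?_⟩
    subst e
    obtain ⟨φ, hφ⟩ := hY.INF.2.1 W l3
    obtain ⟨-, -, -, -, -, -, -, -, -, -, b1, -⟩ := hY.INF.2.2 W φ hφ
    have b2 := ml_MTHB n (ov3_MTHB (by omega)) fun e => lr ((PLK_ok.2.2.2.1 W _).1 e)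
    have b3 : W.D ≤ UM (ML Z.r n) := (b1 _ (ne_of_not_Ov b2) b2).2 (by
      have := Nat.cast_dvd_cast (α := Zw) hd
      push_cast at this
      exact (Dvd.intro 1 (by rw [ML]; ring)).trans this)
    exact ⟨b3, fun e g hg => (hU g).2 ⟨b3 hg, p1 W (Or.inr ⟨l3, e⟩) g hg⟩⟩
  have p6 : ∀ ε, ∀ W : Plc, W.l ≠ 3 → ∀ τ ∈ W.I,
      Z.th ε n τ - Z.ph ε (ω ^ (Z.χ ε τ).val) * Z.ga n τ ∈ Z.E.m ^ n := fun ε W e τ hτ => by
    have b1 := ov3_MTHB e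
    have := th_MTHB Z n ε hr hτ.2 (u := 1) fun P hP => by
      rw [one_smul]
      exact (INE_ok W b1 τ hτ).2.1 _ P (fun e => b1 (Ov_pow e)) hP
    rwa [mul_one] at this
  refine ⟨p1, p2, fun W hW τ hτ => ?_, p4, fun ϖ hϖ => ?_, fun ε => ⟨fun W e τ hτ =>
    ⟨p6 ε W e τ hτ, fun e' => ?_⟩, ?_, ?_, fun ϖ hϖ => ?_, fun l hl => ?_, fun g hg => ?_⟩⟩
  · rw [Nat.cast_mul, Ov_mul, Ov_mul, not_or, not_or] at hW
    exact (hU τ).2 ⟨(INE_ok W hW.1 τ hτ).2.2 _ (ml_MTHB n hW.1 hW.2.1), h.unr n W hW.2.2 τ hτ⟩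
  · obtain ⟨pp, -⟩ := (t1 _).1 (mem_filter.1 hϖ).1
    obtain ⟨pp', dv'⟩ := (t1 _).1 (mem_filter.1 (t4 ϖ hϖ).1).1
    obtain ⟨o1, f1, -⟩ := h.pk.tm _ pp
    obtain ⟨o2, f2, -⟩ := h.pk.tm _ pp'
    generalize Z.K.V ϖ = V at o1 f1
    generalize Z.K.V (star ϖ) = V' at o2 f2
    generalize Z.K.σ ϖ = σ at f1
    generalize Z.K.σ (star ϖ) = σ' at f2
    obtain ⟨c, hc⟩ := ex_SAQ
    have o3 : Ov (V.mv c) (star ϖ) :=
      ((PLK_ok.2.2.2.2.2.1 V c _).2 hc).2 (by rwa [star_star])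
    have f3 := ((FRK_ok V ϖ pp.1 o1).2.2.2 σ f1).2.2.1 c _ (nn_star ϖ)
    obtain ⟨-, g, hg, e⟩ := (PLK_ok.2.2.1 _ _ pp'.1 o3).2.1 V' o2
    have f4 := ((FRK_ok _ _ pp'.1 o3).2.2.2 _ f3).2.2.1 g _ rfl
    have f5 : FK V' (star ϖ) (g⁻¹ * (c⁻¹ * σ * c) * g) := by
      rw [FK, ((PLK_ok.2.2.2.2.1 _ _).2 e).2.1, e]
      exact f4
    have i1 := ((FRK_ok _ _ pp'.1 o2).2.2.2 _ f2).1 _ f5
    have i2 := h.add n _ f2.1.2 _ i1.2
    have i3 : (c * g)⁻¹ ∉ GK := fun e =>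
      hc ((GK.mul_mem_cancel_right hg).1 (GK.inv_mem_iff.1 e))
    rw [mul_inv_cancel_left, a0 V' (fun e => qr (e ▸ (PLK_ok.2.2.2.1 V' _).1 (o2.dvd dv'))) _ i1,
      add_zero, show g⁻¹ * (c⁻¹ * σ * c) * g = (c * g)⁻¹ * σ * (c * g)⁻¹⁻¹ by group,
      h.odd n _ i3 σ f1.1.2] at i2
    exact i2.symm
  · have := p6 ε W e τ hτ
    rwa [g1 τ (a0 W e' τ hτ), mul_one] at this
  · rcases Nat.eq_zero_or_pos n with rfl | hn
    · simp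
    obtain ⟨-, -, b1, -⟩ := h.pk.tm _ (pp_MTHB (h.qp n) q3)
    have b2 := (h.pk.ine _ (h.qp n) q3).1
    have b3 := p6 ε _ (by omega) _ b1
    have b4 : Z.χ ε (Z.K.τ (-Z.q n)) = 0 := (h.tw ε).unr _ (fun e => (Ov_mul.1 e).elim
      (ov3_MTHB (by omega)) fun e => qr (b2 ▸ (PLK_ok.2.2.2.1 _ _).1 e)) _ b1
    rwa [b4, ZMod.val_zero, pow_zero, map_one, one_mul, Dt.ga, h.one n,
      ZMod.val_one'' (Nat.one_lt_pow hn.ne' (by norm_num)).ne', pow_one] at b3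
  · obtain ⟨-, b1, -⟩ := h.pk.tm _ (pp_MTHB (h.qp n) q3)
    obtain ⟨b2, b3, b4⟩ := h.pk.ine _ (h.qp n) q3
    refine (hth ε).1.2 _ ((hU _).2 ⟨((p4 _ (h.qp n) (h.qd n)).2.2.2 _ b2).1 b1.1, ?_⟩)
    rw [b4]
    exact (p2 _ (hY.INF.2.2 _ _ b3).2.2.2.1).1
  · obtain ⟨pp, dv⟩ := (t1 _).1 hϖ
    obtain ⟨b1, -, b2, b3⟩ := h.pk.tm _ pp
    exact ram_MTHB (h.tw ε) (b1.dvd dv) b2 b3
  · obtain ⟨b0, l3⟩ := mem_filter.1 hl
    have lp := Nat.prime_of_mem_primeFactors b0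
    have pp := pp_MTHB lp l3
    obtain ⟨b1, b2, -⟩ := h.pk.tm _ pp
    obtain ⟨b3, b4, b5⟩ := h.pk.ine _ lp l3
    obtain ⟨c1, c2⟩ := p2 _ (hY.INF.2.2 _ _ b4).2.2.2.1
    rw [← b5] at c1 c2
    have := th_MTHB Z n ε hr b2.1.2 (u := -l) fun P hP =>
      ((FRB_ok _ _ pp b1).2 _ b2).2 _ P (fun e => ov3_MTHB (by omega) (Ov_pow e)) hP
    rwa [c2, g1 _ c1, ZMod.val_zero, pow_zero, one_mul, mul_one, map_neg, map_natCast,
      sub_neg_eq_add] at this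
  · rw [Dt.th, g1 g (p1 V3 (Or.inl rfl) g hg), mul_one]

end Pool.Agent.MP_e23604_nt.V

end

section

/-!
The two forms of the local condition at three.
-/

set_option autoImplicit false

open Finset Filter QuadraticAlgebra
open scoped Classical

namespace Pool.Agent.MP_e23604_nt.V

open B R S W

theorem dv_MLOK {M : Zw} (h : M ≠ 0) (P : Pt) : M • N.dv M P = P :=
  Classical.epsilon_spec (smul_onto h P)

theorem gq_MLOK {M : Zw} (h : M ≠ 0) : W.Gen M (N.gq M) :=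
  Classical.epsilon_spec (CYG_ok M h).1

theorem fx_MLOK (χ : GQ → ZMod 3) (g : GQ) {P : Pt} (h : pw • P = 0) : eta χ g P = P := by
  have : eta χ g T0 = T0 := by
    rw [eta_apply, gal_T0]
    induction (χ g).val with
    | zero => simp
    | succ i ih => rw [pow_succ, mul_smul, w_T0, ih]
  rcases (PI_ok.1 P).1 h with rfl | rfl | rfl
  exacts [map_zero _, this, by rw [map_neg, this]]

theorem key_MLOK {χ : GQ → ZMod 3} {P : Fin 2 → Pt} {M : Zw} (lb : Lb χ P) (h : M ≠ 0) (S : Pt)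
    (hS : Fx χ V3.D (M • S)) (e : ℕ) : ∃ (a : Fin 2 → Zw) (S' : Pt), Fx χ V3.D (M • S') ∧
      S = ∑ i, a i • N.dv M (P i) + pw ^ e • S' := by
  induction e with
  | zero => exact ⟨0, S, hS, by simp⟩
  | succ e ih =>
    obtain ⟨a, S', h1, h2⟩ := ih
    obtain ⟨a', Q, h3, h4⟩ := lb.spn _ h1
    obtain ⟨S'', h5⟩ := smul_onto (b := pw) (by decide) (S' - ∑ i, a' i • N.dv M (P i))
    have h6 : pw • (M • S'' - Q) = 0 := by
      rw [smul_sub, smul_comm, h5, smul_sub, h4, smul_sum]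
      simp only [smul_comm M, dv_MLOK h]
      abel
    refine ⟨fun i => a i + pw ^ e * a' i, S'', fun g hg => ?_, ?_⟩
    · have := fx_MLOK χ g h6
      rwa [map_sub, h3 g hg, sub_left_inj] at this
    · rw [pow_succ, mul_smul, h5, h2]
      simp only [add_smul, mul_smul, sum_add_distrib, smul_sub, smul_sum]
      abel

theorem LOK_pf (hY : HY) (hTHA : THA_st) (hTHB : THB_st) : LOK_st := by
  intro Λ _ Z ε n b f ok hb
  obtain ⟨-, ⟨j⟩, -⟩ := (hTHA Λ Z.toDt n ok.toOk).2.2.2.2.2.2 b hb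
  have th := ((hTHB Λ Z.toDt n ok.toOk).2.2.2.2.2 ε).2.2.2.2.2
  have tw := ok.tw ε
  set φ := (Ideal.Quotient.mk b).comp (Z.ph ε) with hφ
  have N0 : (3 : Zw) ^ (n + 1) ≠ 0 := pow_ne_zero _ (by decide)
  have φN : φ (3 ^ (n + 1)) = 0 := by
    have := congrArg j (ZMod.natCast_self (3 ^ (n + 1)))
    rw [map_natCast, map_zero] at this
    rw [map_pow, map_ofNat]
    exact_mod_cast this
  have L0 : ML Z.r n ≠ 0 := mul_ne_zero N0 (mul_ne_zero (by decide)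
    (Nat.cast_ne_zero.2 tw.sf.ne_zero))
  have gG := gq_MLOK N0
  obtain ⟨i1, i2, i3⟩ := COI_ok _ φ _ _ N0 gG φN
  obtain ⟨i4, i5⟩ := i3 _ _ (ML Z.r n) tw L0 (dvd_mul_left _ _) (dvd_mul_right _ _)
  have tor : ∀ S, Fx (Z.χ ε) V3.D ((3 : Zw) ^ (n + 1) • S) → ∀ g ∈ V3.D,
      (3 : Zw) ^ (n + 1) • bd (Z.χ ε) S g = 0 := fun S hS => ((i5 _ V3.D_le).2.1 S hS).1
  have key : ∀ S, Fx (Z.χ ε) V3.D ((3 : Zw) ^ (n + 1) • S) → ∃ a : Fin 2 → Λ ⧸ b, ∀ g ∈ V3.D,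
      ic φ (N.gq (3 ^ (n + 1))) (bd (Z.χ ε) S g) =
        ∑ i, a i * Ideal.Quotient.mk b (Z.lo ε n i g) := fun S hS => by
    obtain ⟨a, S', h1, rfl⟩ := key_MLOK (ok.lb ε) N0 S hS (2 * (n + 1))
    refine ⟨fun i => φ (a i), fun g hg => ?_⟩
    have t := fun i => tor (N.dv (3 ^ (n + 1)) (Z.P ε i))
      (by rw [dv_MLOK N0]; exact (ok.lb ε).fx i) g hg
    rw [Fin.sum_univ_two, bd_add, bd_add, bd_smul hg.2, bd_smul hg.2, bd_smul hg.2, pow_mul, pw_sq,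
      neg_pow, mul_smul, tor S' h1 g hg, smul_zero, add_zero,
      ((i2 _ (by rw [smul_comm, t, smul_zero])).2.2.2 _ (by rw [smul_comm, t, smul_zero])).1,
      (i2 _ (t 0)).2.1, (i2 _ (t 1)).2.1, Fin.sum_univ_two]
    rfl
  have fin : ∀ f : GQ → Λ, (∃ a : Fin 2 → Λ ⧸ b, ∀ g ∈ V3.D, Ideal.Quotient.mk b (f g) =
      ∑ i, a i * Ideal.Quotient.mk b (Z.lo ε n i g)) → Z.Kl ε n b f := fun f ⟨a, ha⟩ => by
    choose a' h' using fun i => Ideal.Quotient.mk_surjective (a i)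
    refine ⟨a', fun g hg => Ideal.Quotient.eq.1 ?_⟩
    simp only [ha g hg, map_sum, map_mul, h']
  obtain ⟨a₀, h₀⟩ := key _ (by rw [gG.zero]; exact fun g _ => map_zero _)
  have h₁ : ∀ g ∈ V3.D, lamZ φ (Z.χ ε) (ML Z.r n) g - 1 =
      ∑ i, a₀ i * Ideal.Quotient.mk b (Z.lo ε n i g) := fun g hg => by
    have := i1 1
    rw [one_smul, map_one] at this
    rw [← h₀ g hg, (i4 g hg.2 _ gG.zero).2, this, mul_one]
  refine ⟨fun ⟨M, ⟨M', hM⟩, hm, ι, _, r, P, fx, m, hf⟩ => fin _ ?_, fin _ ⟨a₀, fun g hg => ?_⟩⟩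
  · have M0 : M ≠ 0 := left_ne_zero_of_mul (hM ▸ N0)
    have M1 : M' ≠ 0 := right_ne_zero_of_mul (hM ▸ N0)
    have φM : φ M = 0 := Ideal.Quotient.eq_zero_iff_mem.2 hm
    obtain ⟨e, he⟩ := (CYG_ok M M0).2.1 _ (gq_MLOK M0) (M' • N.gq (3 ^ (n + 1)))
      (by rw [← mul_smul, ← hM, gG.zero])
    have : ∀ t, ∃ a : Fin 2 → Λ ⧸ b, ∀ g ∈ V3.D, N.dl φ M (Z.χ ε) g (P t) =
        ∑ i, a i * Ideal.Quotient.mk b (Z.lo ε n i g) := fun t => by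
      obtain ⟨S, hS⟩ := smul_onto M1 (N.dv M (P t))
      have fS : Fx (Z.χ ε) V3.D ((3 : Zw) ^ (n + 1) • S) := by
        rw [hM, mul_smul, hS, dv_MLOK M0]
        exact fx t
      obtain ⟨a, ha⟩ := key S fS
      refine ⟨fun i => φ e * a i, fun g hg => ?_⟩
      simp only [mul_assoc, ← mul_sum, ← ha g hg]
      show ic φ (N.gq M) (bd (Z.χ ε) (N.dv M (P t)) g) = _
      rw [← hS, bd_smul hg.2, (i2 _ (tor S fS g hg)).1, smul_comm, he, ← mul_smul,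
        (COI_ok _ φ _ _ M0 (gq_MLOK M0) φM).1, i1, map_mul, mul_comm]
    choose a ha using this
    refine ⟨fun i => ∑ t, r t * a t i + m * a₀ i, fun g hg => ?_⟩
    have e1 : lamZ φ (Z.χ ε) M g = lamZ φ (Z.χ ε) (ML Z.r n) g := by
      rw [lamZ, lamZ, map_mul, map_mul, congr_XCOI φM (((PS_ok M M0).1 g hg.2).2.2.2.2.2.2.2.2 _ L0
        ((Dvd.intro _ hM.symm).mul_right _))]
    have := hf g hg
    simp only [← hφ, ha _ g hg] at this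
    simp only [this, e1, h₁ g hg, Fin.sum_univ_two, mul_add, add_mul, sum_add_distrib, sum_mul,
      mul_assoc]
    ring
  · rw [← h₁ g hg, th g hg, map_sub, map_one]
    rfl

end Pool.Agent.MP_e23604_nt.V

end
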