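import Pool.Agent.Mg.Fe23604m.G300596

set_option linter.all false

/-!
Elementary lemmas on Eisenstein integers, places and points.
-/

set_option autoImplicit false

open Finset QuadraticAlgebra
open scoped Classical

namespace Pool.Agent.MP_e23604_nt.W

open B R S

/-! ### Eisenstein integers -/

theorem nn_star (b : Zw) : nn (star b) = nn b := by rw [nn, nw_star]; rfl

theorem nn_one : nn 1 = 1 := by decide

theorem nn_neg (b : Zw) : nn (-b) = nn b := by rw [nn, nw, QuadraticAlgebra.norm_neg]; rfl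

theorem nn_w : nn ω = 1 := by decide

theorem nn_two : nn 2 = 4 := by decide

theorem nn_nat (n : ℕ) : nn (n : Zw) = n ^ 2 := by
  rw [nn, nw, QuadraticAlgebra.norm_natCast]
  simp [Int.natAbs_pow]

theorem nn_pow (b : Zw) (n : ℕ) : nn (b ^ n) = nn b ^ n := by
  rw [nn, nw_pow, Int.natAbs_pow]; rfl

theorem nn_dvd {a b : Zw} (h : a ∣ b) : nn a ∣ nn b := by
  obtain ⟨c, rfl⟩ := h
  exact ⟨_, nn_mul a c⟩

theorem nn_unit {u : Zw} : IsUnit u ↔ nn u = 1 :=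
  ⟨fun h => Nat.dvd_one.1 (nn_one ▸ nn_dvd h.dvd),
    fun h => IsUnit.of_mul_eq_one (star u) (by rw [mul_star_nn, h, Nat.cast_one])⟩

theorem w_unit : IsUnit (ω : Zw) := nn_unit.2 nn_w

theorem unit6 {u : Zw} (h : IsUnit u) : ∃ i : ℕ, u = ω ^ i ∨ u = -ω ^ i := by
  have h1 : nw u = 1 := by rw [← nn_cast, nn_unit.1 h, Nat.cast_one]
  rw [nw_def] at h1
  obtain ⟨x, y⟩ := u
  simp only at h1
  have hy1 : y ≤ 1 := by nlinarith [sq_nonneg (2 * x - y)]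
  have hy2 : -1 ≤ y := by nlinarith [sq_nonneg (2 * x - y)]
  have hx1 : x ≤ 1 := by nlinarith [sq_nonneg (2 * y - x)]
  have hx2 : -1 ≤ x := by nlinarith [sq_nonneg (2 * y - x)]
  interval_cases x <;> interval_cases y <;> simp at h1
  · exact ⟨2, Or.inl (by decide)⟩
  · exact ⟨0, Or.inr (by decide)⟩
  · exact ⟨1, Or.inr (by decide)⟩
  · exact ⟨1, Or.inl (by decide)⟩
  · exact ⟨0, Or.inl (by decide)⟩
  · exact ⟨2, Or.inr (by decide)⟩

theorem inert_dvd {l : ℕ} (hl : l.Prime) (h3 : l % 3 = 2) {a : Zw} (h : l ∣ nn a) : (l : Zw) ∣ a := by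
  simpa using dvd_of_inert hl h3 (z := a) (by rw [← nn_cast]; exact_mod_cast h)

theorem inert_prime {l : ℕ} (hl : l.Prime) (h3 : l % 3 = 2) : Prime (l : Zw) := by
  refine ⟨Nat.cast_ne_zero.2 hl.ne_zero, fun e => ?_, fun a b h => ?_⟩
  · have := nn_unit.1 e
    rw [nn_nat] at this
    exact hl.ne_one (Nat.pow_eq_one.1 this |>.resolve_right two_ne_zero)
  · have h1 := nn_dvd h
    rw [nn_nat, nn_mul] at h1
    exact ((Nat.Prime.dvd_mul hl).1 ((dvd_pow_self l two_ne_zero).trans h1)).imp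
      (inert_dvd hl h3) (inert_dvd hl h3)

theorem two_prime : Prime (2 : Zw) := by simpa using inert_prime Nat.prime_two rfl

theorem pw_ne : pw ≠ 0 := pw_prime.ne_zero

theorem star_pw : star pw = -pw := by decide

theorem pw_dvd3 : pw ∣ 3 := ⟨-pw, by decide⟩

theorem pw_w : pw ∣ ω - 1 := ⟨-ω ^ 2, by decide⟩

theorem mod_pw (a : Zw) : pw ∣ a ∨ pw ∣ a - 1 ∨ pw ∣ a + 1 := by
  have h1 : pw ∣ a - ((a.re + a.im : ℤ) : Zw) := by
    refine ⟨(a.im : Zw) * -ω ^ 2, ?_⟩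
    have e : (ω : Zw) - 1 = pw * -ω ^ 2 := by decide
    push_cast
    linear_combination (a.im : Zw) * e + Zw_eq a
  generalize a.re + a.im = n at h1
  obtain ⟨k, h | h | h⟩ : ∃ k, n = 3 * k ∨ n = 3 * k + 1 ∨ n = 3 * k - 1 :=
    ⟨(n + 1) / 3, by omega⟩ <;> subst h <;> push_cast at h1
  · exact Or.inl (by simpa using dvd_add h1 (pw_dvd3.mul_right (k : Zw)))
  · refine Or.inr (Or.inl ?_)
    convert dvd_add h1 (pw_dvd3.mul_right (k : Zw)) using 1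
    ring
  · refine Or.inr (Or.inr ?_)
    convert dvd_add h1 (pw_dvd3.mul_right (k : Zw)) using 1
    ring

theorem pw_dvd_iff {a : Zw} : pw ∣ a ↔ 3 ∣ nn a := by
  refine ⟨fun h => nn_pw ▸ nn_dvd h, fun h => ?_⟩
  have h1 : pw ∣ a * star a := by
    rw [mul_star_nn]
    exact pw_dvd3.trans (by exact_mod_cast Nat.cast_dvd_cast (α := Zw) h)
  refine (pw_prime.dvd_or_dvd h1).elim id fun ⟨c, hc⟩ => ⟨-star c, ?_⟩
  rw [← star_star a, hc, star_mul, star_pw]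
  ring

theorem two_dvd_iff {a : Zw} : 2 ∣ a ↔ 2 ∣ nn a :=
  ⟨fun h => (show 2 ∣ nn 2 by decide).trans (nn_dvd h),
    fun h => by simpa using inert_dvd Nat.prime_two rfl h⟩

theorem cop6 {a : Zw} : IsCoprime a 6 ↔ ¬ 2 ∣ a ∧ ¬ pw ∣ a := by
  rw [show (6 : Zw) = -(2 * pw ^ 2) by decide, IsCoprime.neg_right_iff, IsCoprime.mul_right_iff,
    IsCoprime.pow_right_iff two_pos, isCoprime_comm, isCoprime_comm (x := a),
    two_prime.coprime_iff_not_dvd, pw_prime.coprime_iff_not_dvd]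

theorem cop6_ne {a : Zw} (h : IsCoprime a 6) : a ≠ 0 := fun e => (cop6.1 h).1 (e ▸ dvd_zero _)

theorem cop6_odd {a : Zw} (h : IsCoprime a 6) : Odd (nn a) :=
  Nat.not_even_iff_odd.1 fun e => (cop6.1 h).1 (two_dvd_iff.2 e.two_dvd)

theorem nn_mod3 {a : Zw} (h : ¬ pw ∣ a) : nn a % 3 = 1 := by
  have h1 : ¬ 3 ∣ nn a := fun e => h (pw_dvd_iff.2 e)
  have h2 := nn_cast a
  rw [nw_def] at h2
  have h3 : (a.re + a.im) ^ 2 % 3 = 0 ∨ (a.re + a.im) ^ 2 % 3 = 1 := by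
    generalize a.re + a.im = n
    obtain h | h | h : n % 3 = 0 ∨ n % 3 = 1 ∨ n % 3 = 2 := by omega
    all_goals simp [pow_two, Int.mul_emod, h]
  have h4 : (a.re + a.im) ^ 2 = nn a + 3 * (a.re * a.im) := by rw [h2]; ring
  omega

theorem Pry.pw {u : Zw} (h : Pry u) : ¬ pw ∣ u := fun e =>
  pw_prime.not_dvd_one (by simpa using dvd_sub e (pw_dvd3.trans h))

theorem Pry.ne {u : Zw} (h : Pry u) : u ≠ 0 := fun e => h.pw (e ▸ dvd_zero _)

theorem Pry.one : Pry 1 := by simp [Pry]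

theorem Pry.mul {u v : Zw} (h : Pry u) (h' : Pry v) : Pry (u * v) := by
  unfold Pry at *
  convert dvd_add (h.mul_right v) h' using 1
  ring

theorem Pry.pow {u : Zw} (h : Pry u) (n : ℕ) : Pry (u ^ n) := by
  induction n with
  | zero => simpa using Pry.one
  | succ n ih => exact pow_succ u n ▸ ih.mul h

theorem Pry.star {u : Zw} (h : Pry u) : Pry (star u) := by
  obtain ⟨c, hc⟩ := h
  exact ⟨Star.star c, by simpa using congrArg Star.star hc⟩

theorem Pry.unit {u : Zw} (h : Pry u) (h' : IsUnit u) : u = 1 := by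
  have h1 := nn_dvd h
  obtain ⟨i, e⟩ := unit6 h'
  rw [pow_eq_pow_mod i www] at e
  have hi : i % 3 < 3 := Nat.mod_lt _ three_pos
  generalize i % 3 = j at *
  interval_cases j <;> rcases e with rfl | rfl <;> first | rfl | exact absurd h1 (by decide)

theorem ex_pry {a : Zw} (h : ¬ pw ∣ a) : ∃ u : Zw, IsUnit u ∧ Pry (u * a) := by
  have key : ∀ b : Zw, pw ∣ b - 1 → ∃ u : Zw, IsUnit u ∧ Pry (u * b) := by
    rintro b ⟨c, hc⟩
    obtain rfl : b = 1 + pw * c := by linear_combination hc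
    have e : pw * pw = -3 := by decide
    rcases mod_pw c with ⟨d, rfl⟩ | ⟨d, hd⟩ | ⟨d, hd⟩
    · exact ⟨1, isUnit_one, -d, by linear_combination d * e⟩
    · obtain rfl : c = 1 + pw * d := by linear_combination hd
      have e1 : ω * (1 + pw) - 1 = (3 : Zw) * -1 := by decide
      exact ⟨ω, w_unit, -1 - ω * d, by linear_combination e1 + ω * d * e⟩
    · obtain rfl : c = -1 + pw * d := by linear_combination hd
      have e1 : ω ^ 2 * (1 - pw) - 1 = (3 : Zw) * (-1 - ω - 0) + 3 * ω := by decide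
      exact ⟨ω ^ 2, w_unit.pow 2, -1 - ω ^ 2 * d, by linear_combination e1 + ω ^ 2 * d * e⟩
  rcases mod_pw a with h1 | h1 | h1
  · exact absurd h1 h
  · exact key a h1
  · obtain ⟨u, hu, e⟩ := key (-a) (by simpa [sub_eq_add_neg, add_comm] using h1.neg_right)
    exact ⟨-u, hu.neg, by simpa using e⟩

theorem io_pw : io pw = 1 + 2 * w3 := by simp [io_apply, pw]

theorem io_pw_sq : io pw ^ 2 = -3 := by
  rw [← map_pow, pw_sq, map_neg, map_ofNat]

theorem io_star {g : GQ} (hg : g ∉ GK) (b : Zw) : g (io b) = io (star b) := by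
  simp only [io_apply, map_add, map_mul, map_intCast, not_mem_GK hg, re_star, im_star]
  push_cast
  linear_combination (b.im : Qb) * w3_spec

theorem QUO_pf : QUO_st := fun b _ => (qt_mk b).card

/-! ### Places -/

theorem v_w3 (V : Plc) : V.v w3 = 1 := by
  have := congrArg V.v w3_cube
  rw [map_pow, map_one] at this
  exact (pow_eq_one_iff_of_nonneg (V.v.nonneg _) three_ne_zero).1 this

theorem not_Ov {V : Plc} {b : Zw} : ¬ Ov V b ↔ V.v (io b) = 1 :=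
  ⟨fun h => le_antisymm (V.io_le b) (not_lt.1 h), fun h => not_lt.2 h.ge⟩

theorem Ov_zero (V : Plc) : Ov V 0 := by simp [Ov]

theorem ne_of_not_Ov {V : Plc} {b : Zw} (h : ¬ Ov V b) : b ≠ 0 := fun e => h (e ▸ Ov_zero V)

theorem Ov_mul {V : Plc} {a b : Zw} : Ov V (a * b) ↔ Ov V a ∨ Ov V b := by
  rw [← not_iff_not, not_or, not_Ov, not_Ov, not_Ov, map_mul, map_mul]
  have := V.io_le a
  have := V.io_le b
  have := V.v.nonneg (io a)
  have := V.v.nonneg (io b)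
  exact ⟨fun h => ⟨by nlinarith, by nlinarith⟩, fun h => by rw [h.1, h.2, mul_one]⟩

theorem Ov.dvd {V : Plc} {a b : Zw} (h : Ov V a) (e : a ∣ b) : Ov V b := by
  obtain ⟨c, rfl⟩ := e
  exact Ov_mul.2 (Or.inl h)

theorem Ov.add {V : Plc} {a b : Zw} (h : Ov V a) (h' : Ov V b) : Ov V (a + b) := by
  rw [Ov, map_add]
  exact bLocA_add_lt V.na h h'

theorem not_Ov_unit (V : Plc) {u : Zw} (h : IsUnit u) : ¬ Ov V u := fun e => by
  have := e.dvd (b := 1) h.dvd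
  simp [Ov] at this

theorem Ov.cop {V : Plc} {a b : Zw} (h : Ov V a) (e : IsCoprime a b) : ¬ Ov V b := fun h' => by
  obtain ⟨c, d, e⟩ := e
  exact not_Ov_unit V isUnit_one
    (e ▸ (h.dvd (dvd_mul_left _ _)).add (h'.dvd (dvd_mul_left _ _)))

theorem Ov_pow {V : Plc} {a : Zw} {n : ℕ} (h : Ov V (a ^ n)) : Ov V a := by
  by_contra e
  exact not_Ov.2 (by rw [map_pow, map_pow, not_Ov.1 e, one_pow]) h

theorem Ov_l (V : Plc) : Ov V V.l := by
  rw [Ov, map_natCast]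
  exact nv_lt _ _

theorem Ov_three {V : Plc} : Ov V 3 ↔ Ov V pw :=
  ⟨fun h => Ov_pow (n := 2) (h.dvd ⟨-1, by decide⟩), fun h => h.dvd pw_dvd3⟩

theorem v_three {V : Plc} (h : ¬ Ov V 3) : V.v 3 = 1 := by
  simpa [map_ofNat] using not_Ov.1 h

theorem v_nine {V : Plc} (h : ¬ Ov V 3) : V.v 9 = 1 := by
  rw [show (9 : Qb) = 3 ^ 2 by norm_num, map_pow, v_three h, one_pow]

theorem v_Δ {V : Plc} (h : ¬ Ov V 3) : V.v EQ.Δ = 1 := by
  have : EQ.Δ = -3 ^ 3 := by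
    have e : EQ.Δ = ((E3 0 1).Δ : Qb) := by simp [WeierstrassCurve.baseChange]
    rw [e, E3_Δ]
    norm_num
  rw [this, V.v.map_neg, map_pow, v_three h, one_pow]

/-- a place over two -/
noncomputable def V2 : Plc := ⟨2, 1⟩

theorem V2_three : ¬ Ov V2 3 := (Ov_l V2).cop ⟨-1, 1, by decide⟩

theorem V3_three : Ov V3 3 := Ov_l V3

theorem V3_not {a : Zw} (h : ¬ pw ∣ a) : ¬ Ov V3 a :=
  (Ov_three.1 V3_three).cop (pw_prime.coprime_iff_not_dvd.2 h)

/-! ### Points -/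

theorem xy_eq (P : Pt) : yc P ^ 2 + yc P = xc P ^ 3 := by
  by_cases h : P = 0
  · simp [h]
  · exact on_iff.1 (on_xy h).1

theorem pt_ext {P Q : Pt} (hP : P ≠ 0) (hQ : Q ≠ 0) (hx : xc P = xc Q) (hy : yc P = yc Q) :
    P = Q := by rw [(on_xy hP).2, (on_xy hQ).2, hx, hy]

theorem xc_eq {P Q : Pt} (hP : P ≠ 0) (hQ : Q ≠ 0) (hx : xc P = xc Q) : P = Q ∨ P = -Q := by
  have h : (yc P - yc Q) * (yc P - (-yc Q - 1)) = 0 := by
    linear_combination xy_eq P - xy_eq Q + congrArg (· ^ 3) hx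
  exact (mul_eq_zero.1 h).imp (fun e => pt_ext hP hQ hx (sub_eq_zero.1 e)) fun e =>
    pt_ext hP (neg_ne_zero.2 hQ) (hx.trans (xc_neg Q).1.symm)
      ((sub_eq_zero.1 e).trans ((xc_neg Q).2 hQ).symm)

theorem ex_pt (x : Qb) : ∃ P : Pt, P ≠ 0 ∧ xc P = x := by
  obtain ⟨y, h⟩ := btors_exists_y EQ x
  exact ⟨.some x y h, WeierstrassCurve.Affine.Point.some_ne_zero h, rfl⟩

theorem xRep_eq {P : Pt} (h : P ≠ 0) : P.xRep = ![xc P, 1] := by
  rcases P with _ | ⟨x, y, h'⟩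
  · exact absurd rfl h
  · rfl

theorem ex_generic (X : Finset Pt) (Y : Finset Qb) : ∃ P : Pt, P ≠ 0 ∧ P ∉ X ∧ xc P ∉ Y := by
  obtain ⟨x, hx⟩ := Infinite.exists_notMem_finset (X.image xc ∪ Y)
  obtain ⟨P, h, rfl⟩ := ex_pt x
  rw [mem_union, not_or] at hx
  exact ⟨P, h, fun e => hx.1 (mem_image_of_mem _ e), hx.2⟩

theorem ex_smul_ne {b : Zw} (h : b ≠ 0) : ∃ P : Pt, b • P ≠ 0 := by
  obtain ⟨P, -, h1, -⟩ := ex_generic (tor b) ∅
  exact ⟨P, fun e => h1 ((mem_tor h).2 e)⟩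

theorem smul_ne {b : Zw} {P : Pt} (h : b • P ≠ 0) : b ≠ 0 ∧ P ≠ 0 :=
  ⟨fun e => h (by rw [e, zero_smul]), fun e => h (by rw [e, smul_zero])⟩

theorem dvd_smul {a b : Zw} {P : Pt} (h : a • P = 0) (e : a ∣ b) : b • P = 0 := by
  obtain ⟨c, rfl⟩ := e
  rw [mul_comm, mul_smul, h, smul_zero]

theorem smul_congr {M a b : Zw} {P : Pt} (h : M • P = 0) (e : M ∣ a - b) : a • P = b • P := by
  rw [← sub_eq_zero, ← sub_smul, dvd_smul h e]

theorem cop_smul {a b : Zw} {P : Pt} (e : IsCoprime a b) (h : a • P = 0) (h' : b • P = 0) :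
    P = 0 := by
  obtain ⟨c, d, e⟩ := e
  rw [← one_smul Zw P, ← e, add_smul, mul_smul, mul_smul, h, h', smul_zero, smul_zero, add_zero]

theorem unit_smul {u : Zw} (h : IsUnit u) {P : Pt} : u • P = 0 ↔ P = 0 := h.smul_eq_zero

theorem zz_w (P : Pt) : zz ((ω : Zw) • P) = w3 * zz P := by
  rw [zz_eq, zz_eq, (xc_w P).1, (xc_w P).2]
  ring

theorem gal_star {g : GQ} (hg : g ∉ GK) (b : Zw) (P : Pt) :
    gal g (b • P) = star b • gal g P := by
  have : gal g (Jw P) = -gal g P - Jw (gal g P) := by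
    rw [eq_sub_iff_add_eq, eq_neg_iff_add_eq_zero, ← Jw_sq (gal g P)]
    congr 2
    rcases pt_cases G01 P with rfl | ⟨x, y, h, rfl⟩
    · simp
    · have h1 : On 0 1 (g x) (g y) := h.map (g : Qb →+* Qb)
      rw [Jw_pt h, gal_pt g h, gal_pt g (on_w h), map_mul, not_mem_GK hg, Jw_pt h1,
        Jw_pt (on_w h1), sq, mul_assoc]
  rw [smul_def, smul_def, map_add, map_zsmul, map_zsmul, this, re_star, im_star]
  module

theorem gal_ne (g : GQ) {P : Pt} : gal g P = 0 ↔ P = 0 :=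
  map_eq_zero_iff _ (gal_inj g)

theorem three_T0 : (3 : Zw) • T0 = 0 := by
  exact (Nat.cast_smul_eq_nsmul Zw 3 T0).trans (three_T G01)

theorem pw_T0 : pw • T0 = 0 := by
  rw [← three_T0, pw, add_smul, mul_smul, w_T0, ← add_smul]
  norm_num

theorem smul_T0 {a : Zw} (h : ¬ pw ∣ a) : a • T0 = T0 ∨ a • T0 = -T0 := by
  rcases mod_pw a with h1 | h1 | h1
  · exact absurd h1 h
  · exact Or.inl (by rw [smul_congr pw_T0 h1, one_smul])
  · exact Or.inr (by rw [smul_congr pw_T0 (b := -1) (by simpa using h1), neg_one_smul])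

theorem Pry.smul {u : Zw} (h : Pry u) {P : Pt} (e : (3 : Zw) • P = 0) : u • P = P := by
  rw [smul_congr e h, one_smul]

/-! ### The kernel of reduction -/

section E1

variable {V : Plc} {P Q : Pt}

theorem not_E1 : ¬ E1 V.v P ↔ P ≠ 0 ∧ V.v (xc P) ≤ 1 := by rw [E1_iff, not_or, not_lt]

theorem yc_le (h : V.v (xc P) ≤ 1) : V.v (yc P) ≤ 1 := by
  rcases P with _ | ⟨x, y, h'⟩
  · exact h
  · exact y_le V.na (intg_EQ _) h'.1 h

theorem E1a (h : E1 V.v P) (h' : E1 V.v Q) : E1 V.v (P + Q) := (E1_add V.na (intg_EQ _) h h').1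

theorem E1n (h : E1 V.v P) : E1 V.v (-P) := (E1_neg V.na (intg_EQ _) h).1

theorem E1s (h : E1 V.v P) (h' : E1 V.v Q) : E1 V.v (P - Q) := sub_eq_add_neg P Q ▸ E1a h (E1n h')

theorem E1w (h : E1 V.v P) : E1 V.v ((ω : Zw) • P) := by
  rw [E1_iff] at *
  exact h.imp (fun e => by rw [e, smul_zero]) fun e => by rwa [(xc_w P).1, map_mul, v_w3, one_mul]

theorem zz_lt (h : E1 V.v P) : V.v (zz P) < 1 := E1_lt V.na (intg_EQ _) h

theorem zz_zero_iff (h : E1 V.v P) : zz P = 0 ↔ P = 0 :=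
  ⟨E1_eq_zero V.na (intg_EQ _) h, fun e => e ▸ rfl⟩

theorem zz_add_le (h : E1 V.v P) (h' : E1 V.v Q) {s : ℝ} (e : V.v (zz P) ≤ s)
    (e' : V.v (zz Q) ≤ s) : V.v (zz (P + Q)) ≤ s := by
  have h1 := (E1_add V.na (intg_EQ _) h h').2
  have h2 : max (V.v (zz P)) (V.v (zz Q)) ^ 2 ≤ s := by
    have k1 := max_lt (zz_lt h) (zz_lt h')
    have k2 := max_le e e'
    have k3 : 0 ≤ max (V.v (zz P)) (V.v (zz Q)) := le_max_of_le_left (V.v.nonneg _)
    nlinarith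
  convert bLocA_add_le V.na (bLocA_add_le V.na (h1.trans h2) e) e' using 2
  ring

theorem E1m (h : E1 V.v P) (b : Zw) : E1 V.v (b • P) ∧
    V.v (zz (b • P) - io b * zz P) ≤ V.v (zz P) ^ 2 ∧ V.v (zz (b • P)) ≤ V.v (zz P) := by
  have r1 := zz_lt h
  have r2 : V.v (zz P) ^ 2 ≤ V.v (zz P) := by nlinarith [V.v.nonneg (zz P)]
  have hw : V.v (zz ((ω : Zw) • P)) = V.v (zz P) := by rw [zz_w, map_mul, v_w3, one_mul]
  obtain ⟨a1, a2⟩ := E1_zsmul V.na (intg_EQ _) h b.re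
  obtain ⟨b1, b2⟩ := E1_zsmul V.na (intg_EQ _) (E1w h) b.im
  rw [hw] at b2
  have k : ∀ (n : ℤ) (x y : Qb), V.v y = V.v (zz P) → V.v (x - n * y) ≤ V.v (zz P) ^ 2 →
      V.v x ≤ V.v (zz P) := fun n x y e e' => by
    have := bLocA_add_le V.na (e'.trans r2)
      ((bLocA_mul_le (IsNonarchimedean.apply_intCast_le_one V.na (n := n))).trans e.le)
    rwa [sub_add_cancel] at this
  have a3 := k _ _ _ rfl a2
  have b3 := k _ _ _ hw b2
  obtain ⟨c1, c2⟩ := E1_add V.na (intg_EQ _) a1 b1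
  rw [smul_def, ← w_smul]
  refine ⟨c1, ?_, zz_add_le a1 b1 a3 b3⟩
  have c3 := c2.trans (pow_le_pow_left₀ (le_max_of_le_left (V.v.nonneg _)) (max_le a3 b3) 2)
  convert bLocA_add_le V.na (bLocA_add_le V.na c3 a2) b2 using 2
  rw [zz_w, io_apply]
  ring

theorem E1_tor (h : E1 V.v P) {n : Zw} (hn : ¬ Ov V n) (e : n • P = 0) : P = 0 := by
  have k := (E1m h n).2.1
  have r := zz_lt h
  rw [e, zz_zero, zero_sub, V.v.map_neg, map_mul, not_Ov.1 hn, one_mul] at k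
  refine (zz_zero_iff h).1 (V.v.eq_zero.1 ?_)
  nlinarith [V.v.nonneg (zz P)]

theorem E1_xz (h : E1 V.v P) (h0 : P ≠ 0) : V.v (xc P) * V.v (zz P) ^ 2 = 1 ∧
    V.v (yc P) * V.v (zz P) ^ 3 = 1 := by
  have hx : 1 < V.v (xc P) := ((E1_iff _ _).1 h).resolve_left h0
  have q : V.v (yc P) ^ 2 = V.v (xc P) ^ 3 := by
    rcases P with _ | ⟨x, y, h'⟩
    · exact absurd rfl h0
    · exact E1_xy V.na (intg_EQ _) h'.1 hx
  have hy := bLocA_lt hx (V.v.nonneg _) q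
  have x0 : V.v (xc P) ≠ 0 := by linarith
  have y0 : V.v (yc P) ≠ 0 := by linarith
  rw [zz_eq, map_div₀, V.v.map_neg, div_pow, div_pow, ← q]
  constructor
  · rw [q]; field_simp
  · field_simp

theorem not_E1_add (h : ¬ E1 V.v P) (h' : E1 V.v Q) : ¬ E1 V.v (P + Q) := fun e =>
  h (by simpa using E1s e h')

theorem E1_dec {g : GQ} (hg : g ∈ Dec V.v) : E1 V.v (gal g P) ↔ E1 V.v P := by
  rw [E1_iff, E1_iff, gal_ne, (xc_gal g P).1, hg]

theorem T0_E1 (V : Plc) : ¬ E1 V.v T0 := not_E1.2 ⟨T0_ne, by simp [xc_T0.1]⟩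

end E1

/-! ### Good points and generators -/

theorem Gd_T0 : Gd T0 := ⟨1, one_smul _ _⟩

theorem Gd.of {Y : Pt} {b : Zw} (h : Gd (b • Y)) : Gd Y := by
  obtain ⟨c, e⟩ := h
  exact ⟨c * b, by rw [mul_smul, e]⟩

theorem Gd.smul {Y : Pt} (h : Gd Y) {a : Zw} (ha : ¬ pw ∣ a) : Gd (a • Y) := by
  obtain ⟨c, e⟩ := h
  rcases smul_T0 ha with h1 | h1
  · exact ⟨c, by rw [smul_comm, e, h1]⟩
  · exact ⟨-c, by rw [smul_comm, neg_smul, e, smul_neg, h1, neg_neg]⟩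

theorem Gd.neg {Y : Pt} (h : Gd Y) : Gd (-Y) := Gd.of (b := -1) (by simpa using h)

theorem Gd.gal {Y : Pt} (h : Gd Y) {g : GQ} (hg : g ∈ GK) : Gd (gal g Y) := by
  obtain ⟨c, e⟩ := h
  exact ⟨c, by rw [← gal_smul hg, e, gal_T0]⟩

theorem Gd.eta {Y : Pt} (h : Gd Y) (χ : GQ → ZMod 3) {g : GQ} (hg : g ∈ GK) : Gd (eta χ g Y) :=
  (h.gal hg).smul fun e => pw_prime.not_isUnit (isUnit_of_dvd_unit e (w_unit.pow _))

theorem Gd.nE1 {Y : Pt} (h : Gd Y) (V : Plc) : ¬ E1 V.v Y := fun e => by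
  obtain ⟨c, h⟩ := h
  exact T0_E1 V (h ▸ (E1m e c).1)

theorem Gd.ne {Y : Pt} (h : Gd Y) : Y ≠ 0 := (not_E1.1 (h.nE1 V3)).1

theorem Gd.add_tor {Y T : Pt} {b : Zw} (h : Gd (b • Y)) (e : b • T = 0) : Gd (Y + T) :=
  Gd.of (b := b) (by rwa [smul_add, e, add_zero])

theorem two_pw : ¬ pw ∣ 2 := fun e => absurd (pw_dvd_iff.1 e) (by decide)

theorem Gd.two {Y : Pt} {b : Zw} (h : Gd (b • Y)) : (2 * b) • Y ≠ 0 :=
  mul_smul 2 b Y ▸ (h.smul two_pw).ne

theorem Gd.two_add {Y P : Pt} {b : Zw} (h : Gd (b • Y)) {V : Plc} (hP : E1 V.v P) :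
    (2 * b) • (Y + P) ≠ 0 := by
  rw [smul_add, mul_smul]
  exact (not_E1.1 (not_E1_add ((h.smul two_pw).nE1 V) (E1m hP _).1)).1

theorem Gen.zero {M : Zw} {Q : Pt} (h : Gen M Q) : M • Q = 0 := (h M).2 dvd_rfl

theorem Gen.congr {M a b : Zw} {Q : Pt} (h : Gen M Q) : a • Q = b • Q ↔ M ∣ a - b := by
  rw [← h, sub_smul, sub_eq_zero]

theorem Gen.smul {M b : Zw} {Q : Pt} (h : Gen (b * M) Q) (hb : b ≠ 0) : Gen M (b • Q) := fun c => by
  rw [← mul_smul, h, mul_comm c, mul_dvd_mul_iff_left hb]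

theorem Gen.cop {M u : Zw} {Q : Pt} (h : Gen M Q) (hu : IsCoprime u M) : Gen M (u • Q) := fun c => by
  rw [← mul_smul, h]
  exact ⟨hu.symm.dvd_of_dvd_mul_right, fun e => e.mul_right u⟩

theorem Gen.gal {M : Zw} {Q : Pt} (h : Gen M Q) {g : GQ} (hg : g ∈ GK) : Gen M (gal g Q) :=
  fun c => by rw [← gal_smul hg, gal_ne, h]

theorem Gen.eta {M : Zw} {Q : Pt} (h : Gen M Q) (χ : GQ → ZMod 3) {g : GQ} (hg : g ∈ GK) :
    Gen M (eta χ g Q) := (h.gal hg).cop (by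
  simpa using (isCoprime_mul_unit_left_left (w_unit.pow (χ g).val) 1 M).2 isCoprime_one_left)

theorem Gen_T0 : Gen pw T0 := fun b => by
  refine ⟨fun h => by_contra fun e => ?_, dvd_smul pw_T0⟩
  exact (Gd_T0.smul e).ne h

/-! ### Permutations of the torsion points -/

theorem zero_tor {b : Zw} (h : b ≠ 0) : (0 : Pt) ∈ tor b := (mem_tor h).2 (smul_zero b)

theorem mem_tor0 {b : Zw} (h : b ≠ 0) {S : Pt} : S ∈ (tor b).erase 0 ↔ S ≠ 0 ∧ b • S = 0 := by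
  rw [mem_erase, mem_tor h]

theorem sum_tor0 {A : Type} [AddCommMonoid A] {a : Zw} (h : a ≠ 0) (f : Pt →+ Pt)
    (h1 : ∀ S, a • S = 0 → a • f S = 0) (h2 : ∀ S, a • S = 0 → f S = 0 → S = 0) (F : Pt → A) :
    ∑ S ∈ (tor a).erase 0, F (f S) = ∑ S ∈ (tor a).erase 0, F S := by
  have k1 : ∀ S ∈ (tor a).erase 0, f S ∈ (tor a).erase 0 := fun S hS => by
    rw [mem_tor0 h] at *
    exact ⟨fun e => hS.1 (h2 S hS.2 e), h1 S hS.2⟩
  have k2 : Set.InjOn f ((tor a).erase 0) := fun S hS T hT e => by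
    rw [mem_coe, mem_tor0 h] at hS hT
    exact sub_eq_zero.1 (h2 _ (by rw [smul_sub, hS.2, hT.2, sub_zero]) (by rw [map_sub, e, sub_self]))
  exact sum_nbij f k1 k2 (surjOn_of_injOn_of_card_le f k1 k2 le_rfl) fun _ _ => rfl

theorem sum_tor0_smul {A : Type} [AddCommMonoid A] {a b : Zw} (h : a ≠ 0) (e : IsCoprime a b)
    (F : Pt → A) : ∑ S ∈ (tor a).erase 0, F (b • S) = ∑ S ∈ (tor a).erase 0, F S :=
  sum_tor0 h (DistribSMul.toAddMonoidHom Pt b)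
    (fun S hS => show a • b • S = 0 by rw [smul_comm, hS, smul_zero]) (fun _ => cop_smul e) F

theorem sum_tor0_gal {A : Type} [AddCommMonoid A] {a : Zw} (h : a ≠ 0) {g : GQ} (hg : g ∈ GK)
    (F : Pt → A) : ∑ S ∈ (tor a).erase 0, F (gal g S) = ∑ S ∈ (tor a).erase 0, F S :=
  sum_tor0 h (gal g) (fun S hS => by rw [← gal_smul hg, hS, map_zero])
    (fun _ _ e => (gal_ne g).1 e) F

theorem prod_tor0 {A : Type} [CommMonoid A] {a : Zw} (h : a ≠ 0) (f : Pt →+ Pt)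
    (h1 : ∀ S, a • S = 0 → a • f S = 0) (h2 : ∀ S, a • S = 0 → f S = 0 → S = 0) (F : Pt → A) :
    ∏ S ∈ (tor a).erase 0, F (f S) = ∏ S ∈ (tor a).erase 0, F S :=
  sum_tor0 (A := Additive A) h f h1 h2 F

theorem prod_tor0_smul {A : Type} [CommMonoid A] {a b : Zw} (h : a ≠ 0) (e : IsCoprime a b)
    (F : Pt → A) : ∏ S ∈ (tor a).erase 0, F (b • S) = ∏ S ∈ (tor a).erase 0, F S :=
  sum_tor0_smul (A := Additive A) h e F

theorem prod_tor0_gal {A : Type} [CommMonoid A] {a : Zw} (h : a ≠ 0) {g : GQ} (hg : g ∈ GK)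
    (F : Pt → A) : ∏ S ∈ (tor a).erase 0, F (gal g S) = ∏ S ∈ (tor a).erase 0, F S :=
  sum_tor0_gal (A := Additive A) h hg F

/-- sums over the points killed by a product -/
theorem sum_tor_mul {A : Type} [AddCommMonoid A] {a b : Zw} (ha : a ≠ 0) (hb : b ≠ 0)
    (q : Pt → Pt) (hq : ∀ S, b • q S = S) (F : Pt → A) :
    ∑ U ∈ tor (a * b), F U = ∑ S ∈ tor a, ∑ T ∈ tor b, F (q S + T) := by
  rw [← sum_fiberwise_of_maps_to (s := tor (a * b)) (t := tor a) (g := (b • ·)) fun U hU => by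
    rwa [mem_tor ha, ← mul_smul, ← mem_tor (mul_ne_zero ha hb)]]
  refine sum_congr rfl fun S hS => (sum_nbij' (q S + ·) (· - q S) (fun T hT => ?_)
    (fun U hU => ?_) (by simp) (by simp) fun _ _ => rfl).symm
  · rw [mem_tor hb] at hT
    rw [mem_filter, mem_tor (mul_ne_zero ha hb), mul_smul, smul_add, hT, hq, add_zero]
    exact ⟨(mem_tor ha).1 hS, rfl⟩
  · rw [mem_tor hb, smul_sub, (mem_filter.1 hU).2, hq, sub_self]

theorem prod_tor_mul {A : Type} [CommMonoid A] {a b : Zw} (ha : a ≠ 0) (hb : b ≠ 0)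
    (q : Pt → Pt) (hq : ∀ S, b • q S = S) (F : Pt → A) :
    ∏ U ∈ tor (a * b), F U = ∏ S ∈ tor a, ∏ T ∈ tor b, F (q S + T) :=
  sum_tor_mul (A := Additive A) ha hb q hq F

end Pool.Agent.MP_e23604_nt.W
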