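import Mathlib

set_option linter.all false

section

/-!
The differential equation of the Weierstrass function: uniqueness, injectivity, surjectivity.
-/

set_option autoImplicit false

open Filter Topology

namespace Pool.Agent.MP_e23604_nt.Un

/-- the Weierstrass function -/
noncomputable abbrev wp (L : PeriodPair) : ℂ → ℂ := L.weierstrassP

/-- its derivative -/
noncomputable abbrev wq (L : PeriodPair) : ℂ → ℂ := L.derivWeierstrassP

theorem ode_uniq {f g : ℂ → ℂ} {z c : ℂ} (hf : AnalyticAt ℂ f z) (hg : AnalyticAt ℂ g z)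
    (ef : ∀ᶠ w in 𝓝 z, deriv (deriv f) w = 6 * f w ^ 2 - c)
    (eg : ∀ᶠ w in 𝓝 z, deriv (deriv g) w = 6 * g w ^ 2 - c)
    (h0 : f z = g z) (h1 : deriv f z = deriv g z) : f =ᶠ[𝓝 z] g := by
  have hh : AnalyticAt ℂ (f - g) z := hf.sub hg
  have d1 : deriv (f - g) =ᶠ[𝓝 z] deriv f - deriv g := by
    filter_upwards [hf.eventually_analyticAt, hg.eventually_analyticAt] with w a b
    exact deriv_sub a.differentiableAt b.differentiableAt
  have d2 : deriv (deriv (f - g)) =ᶠ[𝓝 z] (fun w => 6 * (f w + g w)) * (f - g) := by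
    filter_upwards [d1.deriv, hf.deriv.eventually_analyticAt, hg.deriv.eventually_analyticAt,
      ef, eg] with w e a b e1 e2
    rw [e, deriv_sub a.differentiableAt b.differentiableAt, e1, e2]
    simp only [Pi.mul_apply, Pi.sub_apply]
    ring
  have o1 := hh.analyticOrderAt_deriv_add_one
  have o2 := hh.deriv.analyticOrderAt_deriv_add_one
  have z0 : (f - g) z = 0 := by simp [h0]
  have z1 : deriv (f - g) z = 0 := by rw [d1.eq_of_nhds]; simp [h1]
  simp only [z0, z1, sub_zero] at o1 o2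
  have k : AnalyticAt ℂ (fun w => 6 * (f w + g w)) z := analyticAt_const.mul (hf.add hg)
  rw [analyticOrderAt_congr d2, analyticOrderAt_mul k hh] at o2
  have top : analyticOrderAt (f - g) z = ⊤ := by
    by_contra ne
    change analyticOrderAt (deriv (f - g)) z + 1 = analyticOrderAt (f - g) z at o1
    change _ = analyticOrderAt (deriv (f - g)) z at o2
    rw [← o2] at o1
    obtain ⟨n, hn⟩ := ENat.ne_top_iff_exists.1 ne
    rw [← hn] at o1
    generalize analyticOrderAt (fun w => 6 * (f w + g w)) z = m at o1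
    induction m with
    | top => simp at o1
    | coe m =>
      have : m + n + 1 + 1 = n := by exact_mod_cast o1
      omega
  filter_upwards [analyticOrderAt_eq_top.1 top] with w hw
  exact sub_eq_zero.1 hw

variable (L : PeriodPair)

theorem cnt : (L.lattice : Set ℂ).Countable := countable_of_Lindelof_of_discrete (X := L.lattice)

theorem cnt_shift (d : ℂ) : {t : ℂ | t + d ∈ L.lattice}.Countable :=
  (cnt L).preimage_of_injOn (f := fun t => t + d) (add_left_injective d).injOn

theorem conn {s : Set ℂ} (h : s.Countable) : IsPreconnected sᶜ :=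
  (h.isConnected_compl_of_one_lt_rank (by simp)).2

variable {L}

theorem an_p {z : ℂ} (h : z ∉ L.lattice) : AnalyticAt ℂ (wp L) z :=
  L.analyticOnNhd_weierstrassP z h

theorem an_q {z : ℂ} (h : z ∉ L.lattice) : AnalyticAt ℂ (wq L) z :=
  L.analyticOnNhd_derivWeierstrassP z h

theorem an_ps {z d : ℂ} (h : z + d ∉ L.lattice) : AnalyticAt ℂ (fun t => wp L (t + d)) z :=
  (an_p h).comp_of_eq (f := fun t => t + d) (by fun_prop) rfl

theorem an_qs {z d : ℂ} (h : z + d ∉ L.lattice) : AnalyticAt ℂ (fun t => wq L (t + d)) z :=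
  (an_q h).comp_of_eq (f := fun t => t + d) (by fun_prop) rfl

theorem near {z : ℂ} (h : z ∉ L.lattice) : ∀ᶠ w in 𝓝 z, w ∉ L.lattice :=
  L.isClosed_lattice.isOpen_compl.mem_nhds h

theorem near_s {z d : ℂ} (h : z + d ∉ L.lattice) : ∀ᶠ w in 𝓝 z, w + d ∉ L.lattice :=
  (continuous_add_const d).continuousAt.eventually (near h)

theorem hd_p {z : ℂ} (h : z ∉ L.lattice) : HasDerivAt (wp L) (wq L z) z := by
  have := (an_p h).differentiableAt.hasDerivAt
  rwa [L.deriv_weierstrassP] at this

theorem wp_per {z l : ℂ} (h : l ∈ L.lattice) : wp L (z + l) = wp L z :=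
  L.weierstrassP_add_coe z ⟨l, h⟩

theorem wq_per {z l : ℂ} (h : l ∈ L.lattice) : wq L (z + l) = wq L z :=
  L.derivWeierstrassP_add_coe z ⟨l, h⟩

/-- the pole at the origin cannot be removed -/
theorem no_ext {S : Set ℂ} (hS : S.Countable) (h0 : (0 : ℂ) ∉ S) {g : ℂ → ℂ}
    (hg : ∀ z, z ∉ S → z ∉ (L.lattice : Set ℂ) \ {0} → AnalyticAt ℂ g z) {z : ℂ}
    (hz : z ∉ L.lattice) (hz' : z ∉ S) (e : wp L =ᶠ[𝓝 z] g) : False := by
  have hc : (S ∪ (L.lattice : Set ℂ) \ {0}).Countable := hS.union ((cnt L).mono Set.sdiff_subset)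
  have a1 : AnalyticOnNhd ℂ (fun t => t ^ 2 * L.weierstrassPExcept 0 t + 1)
      (S ∪ (L.lattice : Set ℂ) \ {0})ᶜ := fun t ht => by
    have := L.analyticOnNhd_weierstrassPExcept 0 t fun h => ht (Or.inr h)
    fun_prop
  have a2 : AnalyticOnNhd ℂ (fun t => t ^ 2 * g t) (S ∪ (L.lattice : Set ℂ) \ {0})ᶜ :=
    fun t ht => by
      have := hg t (fun h => ht (Or.inl h)) fun h => ht (Or.inr h)
      fun_prop
  have := a1.eqOn_of_preconnected_of_eventuallyEq a2 (conn hc) (z₀ := z)
    (by rintro (h | h); exacts [hz' h, hz h.1]) (by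
      filter_upwards [e, near hz] with w e hw
      have w0 : w ≠ 0 := by rintro rfl; exact hw (zero_mem _)
      have := L.weierstrassPExcept_add 0 w
      simp only [ZeroMemClass.coe_zero, sub_zero] at this
      rw [← e, wp, ← this]
      field_simp
      ring) (x := 0) (by rintro (h | h); exacts [h0 h, h.2 rfl])
  simp at this

theorem not_const {z c : ℂ} (hz : z ∉ L.lattice) (e : ∀ᶠ w in 𝓝 z, wp L w = c) : False :=
  no_ext (S := ∅) Set.countable_empty (Set.notMem_empty _) (g := fun _ => c)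
    (fun _ _ _ => analyticAt_const) hz (Set.notMem_empty _) e

theorem shift_mem {z d : ℂ} (hz : z ∉ L.lattice) (hd : z + d ∉ L.lattice)
    (e : ∀ᶠ w in 𝓝 z, wp L w = wp L (w + d)) : d ∈ L.lattice := by
  by_contra h
  exact no_ext (cnt_shift L d) (by simpa using h) (g := fun t => wp L (t + d))
    (fun t ht _ => an_ps ht) hz hd e

theorem wq_freq {z : ℂ} (hz : z ∉ L.lattice) : ∀ᶠ w in 𝓝[≠] z, wq L w ≠ 0 := by
  rcases (an_q hz).eventually_eq_zero_or_eventually_ne_zero with h | h
  · exfalso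
    obtain ⟨r, r0, hr⟩ := Metric.eventually_nhds_iff_ball.1 (h.and (near hz))
    refine not_const (c := wp L z) hz ?_
    filter_upwards [Metric.ball_mem_nhds z r0] with w hw
    refine (convex_ball z r).is_const_of_fderivWithin_eq_zero (𝕜 := ℂ) (f := wp L)
      (fun t ht => (an_p (hr t ht).2).differentiableAt.differentiableWithinAt) (fun t ht => ?_)
      hw (Metric.mem_ball_self r0)
    have := ((hd_p (hr t ht).2).hasFDerivAt).hasFDerivWithinAt (s := Metric.ball z r)
    rw [this.fderivWithin (Metric.isOpen_ball.uniqueDiffWithinAt ht), (hr t ht).1]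
    simp
  · exact h

theorem wq_sq {z : ℂ} (h : z ∉ L.lattice) :
    wq L z ^ 2 = 4 * wp L z ^ 3 - L.g₂ * wp L z - L.g₃ := L.derivWeierstrassP_sq z h

theorem hd_q {z : ℂ} (h : z ∉ L.lattice) : HasDerivAt (wq L) (6 * wp L z ^ 2 - L.g₂ / 2) z := by
  have key : ∀ w, w ∉ L.lattice → wq L w * (deriv (wq L) w - (6 * wp L w ^ 2 - L.g₂ / 2)) = 0 := by
    intro w hw
    have a := ((an_q hw).differentiableAt.hasDerivAt).pow 2
    have b := ((((hd_p hw).pow 3).const_mul 4).sub ((hd_p hw).const_mul L.g₂)).sub_const L.g₃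
    have := a.unique (b.congr_of_eventuallyEq (by
      filter_upwards [near hw] with t ht
      simpa using wq_sq ht))
    simp only [Nat.cast_ofNat, Nat.add_one_sub_one, pow_one] at this
    linear_combination this / 2
  have c1 : ContinuousAt (fun w => deriv (wq L) w - (6 * wp L w ^ 2 - L.g₂ / 2)) z := by
    have := (an_q h).deriv.continuousAt
    have := (an_p h).continuousAt
    fun_prop
  have e : (fun w => deriv (wq L) w - (6 * wp L w ^ 2 - L.g₂ / 2)) =ᶠ[𝓝[≠] z] fun _ => 0 := by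
    filter_upwards [wq_freq h, mem_nhdsWithin_of_mem_nhds (near h)] with w h1 h2
    exact (mul_eq_zero.1 (key w h2)).resolve_left h1
  have := tendsto_nhds_unique_of_eventuallyEq (c1.tendsto.mono_left nhdsWithin_le_nhds)
    tendsto_const_nhds e
  rw [← sub_eq_zero.1 this]
  exact (an_q h).differentiableAt.hasDerivAt

theorem der_s (d : ℂ) : deriv (fun t => wp L (t + d)) = fun t => wq L (t + d) := by
  funext t
  rw [deriv_comp_add_const, L.deriv_weierstrassP]

theorem ode_s {z d : ℂ} (h : z + d ∉ L.lattice) : ∀ᶠ w in 𝓝 z,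
    deriv (deriv fun t => wp L (t + d)) w = 6 * wp L (w + d) ^ 2 - L.g₂ / 2 := by
  filter_upwards [near_s h] with w hw
  rw [der_s, deriv_comp_add_const, (hd_q hw).deriv]

/-- a solution of the differential equation is a translate of the Weierstrass function -/
theorem sol_eq {f : ℂ → ℂ} {z u : ℂ} (hf : AnalyticAt ℂ f z) (hu : u ∉ L.lattice)
    (ef : ∀ᶠ w in 𝓝 z, deriv (deriv f) w = 6 * f w ^ 2 - L.g₂ / 2)
    (h0 : f z = wp L u) (h1 : deriv f z = wq L u) :
    f =ᶠ[𝓝 z] fun t => wp L (t + (u - z)) := by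
  have h : z + (u - z) ∉ L.lattice := by simpa using hu
  exact ode_uniq hf (an_ps h) ef (ode_s h) (by simpa using h0) (by rw [der_s]; simpa using h1)

theorem inj {z w : ℂ} (hz : z ∉ L.lattice) (hw : w ∉ L.lattice) (h0 : wp L z = wp L w)
    (h1 : wq L z = wq L w) : w - z ∈ L.lattice := by
  refine shift_mem hz (by simpa using hw) (sol_eq (an_p hz) hw ?_ h0 ?_)
  · simpa using ode_s (L := L) (z := z) (d := 0) (by simpa using hz)
  · rw [L.deriv_weierstrassP, ← h1]

theorem wp_eq {z w : ℂ} (hz : z ∉ L.lattice) (hw : w ∉ L.lattice) (h : wp L z = wp L w) :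
    w - z ∈ L.lattice ∨ w + z ∈ L.lattice := by
  have : (wq L z - wq L w) * (wq L z + wq L w) = 0 := by
    linear_combination wq_sq hz - wq_sq hw + (4 * (wp L z ^ 2 + wp L z * wp L w + wp L w ^ 2)
      - L.g₂) * h
  rcases mul_eq_zero.1 this with e | e
  · exact Or.inl (inj hz hw h (sub_eq_zero.1 e))
  · right
    have := inj (z := -z) (by simpa using hz) hw (by simpa using h) (by
      rw [wq, L.derivWeierstrassP_neg]; linear_combination -e)
    simpa using this

theorem wq_zero {z : ℂ} (hz : z ∉ L.lattice) : wq L z = 0 ↔ 2 * z ∈ L.lattice := by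
  constructor
  · intro h
    have := inj (z := -z) (by simpa using hz) hz (by simp) (by
      rw [wq, L.derivWeierstrassP_neg]; linear_combination -2 * h)
    simpa [two_mul] using this
  · intro h
    have := wq_per (L := L) (z := -z) h
    rw [show -z + 2 * z = z by ring, wq, L.derivWeierstrassP_neg] at this
    linear_combination this / 2

theorem nonsing {z : ℂ} (hz : z ∉ L.lattice) (h : wq L z = 0) :
    6 * wp L z ^ 2 - L.g₂ / 2 ≠ 0 := fun e => by
  refine not_const (c := wp L z) hz (ode_uniq (c := L.g₂ / 2) (an_p hz) analyticAt_const ?_ ?_ rfl ?_)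
  · simpa using ode_s (L := L) (z := z) (d := 0) (by simpa using hz)
  · simp [e]
  · rw [L.deriv_weierstrassP]; simpa using h

open Classical in
theorem wp_surj (c : ℂ) : ∃ z, z ∉ L.lattice ∧ wp L z = c := by
  by_contra H
  push Not at H
  let F : ℂ → ℂ := fun z => if z ∈ L.lattice then 0 else (wp L z - c)⁻¹
  have per : ∀ z w, w ∈ L.lattice → F (z + w) = F z := fun z w hw => by
    simp only [F, wp_per hw, L.lattice.add_mem_iff_left hw]
  have an : ∀ z, AnalyticAt ℂ F z := fun z => by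
    by_cases hz : z ∈ L.lattice
    · have a := L.analyticAt_weierstrassPExcept z
      have b : AnalyticAt ℂ (fun t => (t - z) ^ 2 *
          ((t - z) ^ 2 * (L.weierstrassPExcept z t - 1 / z ^ 2 - c) + 1)⁻¹) z := by
        refine AnalyticAt.mul (by fun_prop) (AnalyticAt.inv (by fun_prop) (by simp))
      refine b.congr ?_
      filter_upwards [L.compl_lattice_sdiff_singleton_mem_nhds z] with t ht
      by_cases e : t = z
      · simp [F, e, hz]
      have h1 : t ∉ L.lattice := fun h => ht ⟨h, e⟩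
      have h2 := L.weierstrassPExcept_add ⟨z, hz⟩ t
      have h3 : t - z ≠ 0 := sub_ne_zero.2 e
      have h4 : (t - z) ^ 2 * (L.weierstrassPExcept z t - 1 / z ^ 2 - c) + 1 =
          (t - z) ^ 2 * (wp L t - c) := by
        rw [wp, ← h2]
        field_simp
        ring
      simp only [F, if_neg h1, h4, mul_inv, mul_inv_cancel_left₀ (pow_ne_zero 2 h3)]
    · refine (((an_p hz).sub (analyticAt_const (v := c))).inv
        (sub_ne_zero.2 (H z hz))).congr ?_
      filter_upwards [near hz] with t ht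
      simp [F, ht]
  have df : Differentiable ℂ F := fun z => (an z).differentiableAt
  have := df.apply_eq_apply_of_bounded
    (IsZLattice.isCompact_range_of_periodic L.lattice _ df.continuous per).isBounded (L.ω₁ / 2) 0
  simp only [F, if_neg L.ω₁_div_two_notMem_lattice, if_pos (zero_mem L.lattice), inv_eq_zero,
    sub_eq_zero] at this
  exact H _ L.ω₁_div_two_notMem_lattice this

theorem surj {x y : ℂ} (h : y ^ 2 = 4 * x ^ 3 - L.g₂ * x - L.g₃) :
    ∃ z, z ∉ L.lattice ∧ wp L z = x ∧ wq L z = y := by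
  obtain ⟨z, hz, rfl⟩ := wp_surj (L := L) x
  have : (wq L z - y) * (wq L z + y) = 0 := by linear_combination wq_sq hz - h
  rcases mul_eq_zero.1 this with e | e
  · exact ⟨z, hz, rfl, sub_eq_zero.1 e⟩
  · exact ⟨-z, by simpa using hz, by simp, by
      rw [wq, L.derivWeierstrassP_neg]; linear_combination -e⟩

end Pool.Agent.MP_e23604_nt.Un

end

section

/-!
The addition theorem of the Weierstrass function and the uniformisation of the curve of a lattice.
-/

set_option autoImplicit false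

open Filter Topology WeierstrassCurve
open scoped Classical

namespace Pool.Agent.MP_e23604_nt.Un

variable {L : PeriodPair}

/-- the addition theorem -/
theorem add_thm {z w : ℂ} (hz : z ∉ L.lattice) (hw : w ∉ L.lattice)
    (hs : z + w ∉ L.lattice) :
    4 * wp L (z + w) * (wp L z - wp L w) ^ 2 =
      (wq L z - wq L w) ^ 2 - 4 * (wp L z + wp L w) * (wp L z - wp L w) ^ 2 ∧
    wq L (z + w) * (wp L z - wp L w) =
      -(wq L z - wq L w) * (wp L (z + w) - wp L z) - wq L z * (wp L z - wp L w) := by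
  obtain ⟨z₀, h₀⟩ : (((L.lattice : Set ℂ) ∪ {t | t + w ∈ L.lattice} ∪
      {t | t + -w ∈ L.lattice})ᶜ).Nonempty :=
    ((((cnt L).union (cnt_shift L w)).union (cnt_shift L (-w))).isConnected_compl_of_one_lt_rank
      (by simp)).1
  simp only [Set.mem_compl_iff, Set.mem_union, not_or, Set.mem_ofPred_eq, SetLike.mem_coe] at h₀
  obtain ⟨⟨h1, h2⟩, h3⟩ := h₀
  have h4 : wp L z₀ - wp L w ≠ 0 := fun e => by
    rcases wp_eq hw h1 (sub_eq_zero.1 e).symm with h | h
    · exact h3 (by simpa [sub_eq_add_neg] using h)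
    · exact h2 h
  set x₂ := wp L w
  set y₂ := wq L w
  have c2 : y₂ ^ 2 = 4 * x₂ ^ 3 - L.g₂ * x₂ - L.g₃ := wq_sq hw
  let l : ℂ → ℂ := fun t => (wq L t - y₂) / (wp L t - x₂)
  let X : ℂ → ℂ := fun t => l t ^ 2 / 4 - wp L t - x₂
  let Y : ℂ → ℂ := fun t => l t * (wp L t - X t) - wq L t
  have dl : ∀ t, t ∉ L.lattice → wp L t - x₂ ≠ 0 → HasDerivAt l (2 * (wp L t - X t)) t := by
    intro t ht hx
    refine (((hd_q ht).sub_const y₂).div ((hd_p ht).sub_const x₂) hx).congr_deriv ?_
    have c1 := wq_sq ht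
    simp only [X, l]
    field_simp
    linear_combination 4 * c2 - 4 * c1
  have dX : ∀ t, t ∉ L.lattice → wp L t - x₂ ≠ 0 → HasDerivAt X (Y t) t := by
    intro t ht hx
    refine (((((dl t ht hx).pow 2).div_const 4).sub (hd_p ht)).sub_const x₂).congr_deriv ?_
    simp only [Y]
    ring
  have cu : ∀ t, t ∉ L.lattice → wp L t - x₂ ≠ 0 → l t * (wp L t - x₂) = wq L t - y₂ :=
    fun t _ hx => div_mul_cancel₀ _ hx
  have k1 : ∀ t, t ∉ L.lattice → wp L t - x₂ ≠ 0 → 4 * (wp L t - x₂) * (wp L t - X t) =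
      12 * wp L t ^ 2 - L.g₂ - 2 * l t * wq L t := by
    intro t ht hx
    have c1 := wq_sq ht
    have e := cu t ht hx
    refine mul_left_cancel₀ hx ?_
    simp only [X]
    linear_combination c1 - c2 + (-(l t * (wp L t - x₂)) + wq L t + y₂) * e
  have dY : ∀ t, t ∉ L.lattice → wp L t - x₂ ≠ 0 →
      HasDerivAt Y (6 * X t ^ 2 - L.g₂ / 2) t := by
    intro t ht hx
    refine (((dl t ht hx).mul ((hd_p ht).sub (dX t ht hx))).sub (hd_q ht)).congr_deriv ?_
    have := k1 t ht hx
    have e : l t ^ 2 = 4 * (X t + wp L t + x₂) := by simp only [X]; ring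
    change 2 * (wp L t - X t) * (wp L t - X t) +
      l t * (wq L t - (l t * (wp L t - X t) - wq L t)) - _ = _
    linear_combination this - (wp L t - X t) * e
  have on : ∀ t, t ∉ L.lattice → wp L t - x₂ ≠ 0 →
      Y t ^ 2 = 4 * X t ^ 3 - L.g₂ * X t - L.g₃ := by
    intro t ht hx
    have c1 := wq_sq ht
    have := k1 t ht hx
    simp only [Y, X] at this ⊢
    linear_combination c1 + (wp L t - (l t ^ 2 / 4 - wp L t - x₂)) * (-this)
  have ev : ∀ᶠ t in 𝓝 z₀, t ∉ L.lattice ∧ wp L t - x₂ ≠ 0 :=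
    (near h1).and (((an_p h1).continuousAt.sub continuousAt_const).eventually_ne h4)
  have aX : AnalyticAt ℂ X z₀ := by
    have a := an_p h1
    have b := an_q h1
    have : AnalyticAt ℂ l z₀ := (b.sub analyticAt_const).div (a.sub analyticAt_const) h4
    simp only [X]
    fun_prop (disch := norm_num)
  have e1 : deriv X =ᶠ[𝓝 z₀] Y := by
    filter_upwards [ev] with t ht using (dX t ht.1 ht.2).deriv
  obtain ⟨u, hu, u1, u2⟩ := surj (on z₀ h1 h4)
  have eX := sol_eq aX hu (by
    filter_upwards [e1.deriv, ev] with t e ht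
    rw [e, (dY t ht.1 ht.2).deriv]) u1.symm (by rw [e1.eq_of_nhds, u2])
  have eY : Y =ᶠ[𝓝 z₀] fun t => wq L (t + (u - z₀)) := by
    rw [← der_s]
    exact e1.symm.trans eX.deriv
  set d := u - z₀
  have hd : z₀ + d ∉ L.lattice := by simpa [d] using hu
  have id : ∀ G : ℂ → ℂ, (∀ t, t ∉ L.lattice → t + d ∉ L.lattice → AnalyticAt ℂ G t) →
      (∀ᶠ t in 𝓝 z₀, G t = 0) → ∀ t, t ∉ L.lattice → t + d ∉ L.lattice → G t = 0 := by
    intro G a e t t1 t2
    refine AnalyticOnNhd.eqOn_zero_of_preconnected_of_eventuallyEq_zero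
      (U := ((L.lattice : Set ℂ) ∪ {t | t + d ∈ L.lattice})ᶜ)
      (fun s hs => a s (fun h => hs (Or.inl h)) fun h => hs (Or.inr h))
      (conn ((cnt L).union (cnt_shift L d))) (z₀ := z₀) ?_ e ?_
    · rintro (h | h); exacts [h1 h, hd h]
    · rintro (h | h); exacts [t1 h, t2 h]
  have G1 := id (fun t => 4 * wp L (t + d) * (wp L t - x₂) ^ 2 -
      ((wq L t - y₂) ^ 2 - 4 * (wp L t + x₂) * (wp L t - x₂) ^ 2)) (fun t a b => by
    have := an_p a
    have := an_q a
    have := an_ps b
    fun_prop) (by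
    filter_upwards [eX, ev] with t e ht
    rw [← e, ← cu t ht.1 ht.2]
    simp only [X]
    ring)
  have G2 := id (fun t => wq L (t + d) * (wp L t - x₂) -
      (-(wq L t - y₂) * (wp L (t + d) - wp L t) - wq L t * (wp L t - x₂))) (fun t a b => by
    have := an_p a
    have := an_q a
    have := an_ps b
    have := an_qs b
    fun_prop) (by
    filter_upwards [eX, eY, ev] with t e e' ht
    rw [← e, ← e', ← cu t ht.1 ht.2]
    simp only [Y]
    ring)
  have dw : d - w ∈ L.lattice := by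
    by_contra h
    have n1 : -w ∉ L.lattice := by simpa using hw
    have n2 : -w + d ∉ L.lattice := by rwa [neg_add_eq_sub]
    have p1 : wp L (-w) = x₂ := L.weierstrassP_neg w
    have p2 : wq L (-w) = -y₂ := L.derivWeierstrassP_neg w
    have y0 : y₂ = 0 := by
      have := G1 _ n1 n2
      simp only [p1, p2] at this
      exact pow_eq_zero_iff two_ne_zero |>.1 (by linear_combination -this / 4)
    have G3 := id (fun t => 4 * wp L (t + d) * (wp L t - x₂) -
        (4 * (wp L t ^ 2 + wp L t * x₂ + x₂ ^ 2) - L.g₂ - 4 * (wp L t + x₂) * (wp L t - x₂)))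
      (fun t a b => by
        have := an_p a
        have := an_ps b
        fun_prop) (by
        filter_upwards [ev, near_s hd] with t ht h2
        have := G1 t ht.1 h2
        have c1 := wq_sq ht.1
        refine mul_left_cancel₀ ht.2 ?_
        rw [y0] at this c2
        linear_combination this + c1 - c2) _ n1 n2
    simp only [p1] at G3
    exact nonsing hw y0 (by linear_combination -G3 / 2)
  have e : z + d = z + w + (d - w) := by ring
  have hs' : z + d ∉ L.lattice := by rwa [e, L.lattice.add_mem_iff_left dw]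
  have a := G1 z hz hs'
  have b := G2 z hz hs'
  simp only [e, wp_per dw, wq_per dw] at a b
  exact ⟨sub_eq_zero.1 a, sub_eq_zero.1 b⟩

/-- an additive function on generic pairs is additive -/
theorem add_of_gen {A : Type} [AddCommGroup A] {φ : ℂ → A}
    (h0 : ∀ z ∈ L.lattice, φ z = 0) (hp : ∀ z, ∀ l ∈ L.lattice, φ (z + l) = φ z)
    (hn : ∀ z, φ (-z) = -φ z)
    (h : ∀ z w, z ∉ L.lattice → w ∉ L.lattice → z + w ∉ L.lattice → z - w ∉ L.lattice →
      φ (z + w) = φ z + φ w) (z w : ℂ) : φ (z + w) = φ z + φ w := by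
  by_cases hz : z ∈ L.lattice
  · rw [add_comm, hp _ _ hz, h0 z hz, zero_add]
  by_cases hw : w ∈ L.lattice
  · rw [hp _ _ hw, h0 w hw, add_zero]
  by_cases hs : z + w ∈ L.lattice
  · rw [h0 _ hs, show z = -w + (z + w) by ring, hp _ _ hs, hn, neg_add_cancel]
  have c2 : ∀ d : ℂ, {t : ℂ | 2 * t + d ∈ L.lattice}.Countable := fun d =>
    (cnt_shift L d).preimage_of_injOn (f := fun t => 2 * t)
      (mul_right_injective₀ two_ne_zero).injOn
  obtain ⟨t, ht⟩ := ((((((cnt L).union (cnt_shift L (-z))).union (c2 (-z))).union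
    (cnt_shift L w)).union (cnt_shift L (-w))).union
      (c2 (w - z))).isConnected_compl_of_one_lt_rank (by simp) |>.1
  simp only [Set.mem_compl_iff, Set.mem_union, not_or, Set.mem_ofPred_eq, SetLike.mem_coe] at ht
  obtain ⟨⟨⟨⟨⟨t1, t2⟩, t3⟩, t4⟩, t5⟩, t6⟩ := ht
  have s2 : z - t ∉ L.lattice := fun e => t2 (by simpa [sub_eq_add_neg] using neg_mem e)
  have a := h (z - t) t s2 t1 (by simpa using hz) fun e => t3 (by
    rw [show 2 * t + -z = -(z - t - t) by ring]; exact neg_mem e)
  have b := h t w t1 hw t4 (by rwa [sub_eq_add_neg])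
  have e0 : z - t + (t + w) = z + w := by ring
  have c := h (z - t) (t + w) s2 t4 (by rwa [e0]) fun e => t6 (by
    rw [show 2 * t + (w - z) = -(z - t - (t + w)) by ring]; exact neg_mem e)
  rw [sub_add_cancel] at a
  rw [e0] at c
  rw [c, b, a, add_assoc]

/-- the curve of a lattice -/
noncomputable def WL (L : PeriodPair) : WeierstrassCurve ℂ := ⟨0, 0, 0, -L.g₂ / 4, -L.g₃ / 4⟩

theorem WL_eq {x y : ℂ} : (WL L).toAffine.Equation x y ↔
    (2 * y) ^ 2 = 4 * x ^ 3 - L.g₂ * x - L.g₃ := by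
  rw [Affine.equation_iff]
  simp only [WL]
  exact ⟨fun h => by linear_combination 4 * h, fun h => by linear_combination h / 4⟩

theorem WL_ns {z : ℂ} (hz : z ∉ L.lattice) :
    (WL L).toAffine.Nonsingular (wp L z) (wq L z / 2) := by
  rw [Affine.nonsingular_iff]
  refine ⟨WL_eq.2 (by linear_combination wq_sq hz), ?_⟩
  simp only [WL]
  by_cases h : wq L z = 0
  · exact Or.inl fun e => nonsing hz h (by linear_combination -2 * e)
  · exact Or.inr fun e => h (by linear_combination e)

/-- the point with parameter `z` -/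
noncomputable def uP (L : PeriodPair) (z : ℂ) : (WL L).toAffine.Point :=
  if h : z ∈ L.lattice then 0 else .some _ _ (WL_ns h)

theorem uP_of {z : ℂ} (h : z ∉ L.lattice) : uP L z = .some _ _ (WL_ns h) := dif_neg h

theorem uP_eq_zero {z : ℂ} : uP L z = 0 ↔ z ∈ L.lattice :=
  ⟨fun e => by_contra fun h => Affine.Point.some_ne_zero _ ((uP_of h).symm.trans e),
    fun h => dif_pos h⟩

theorem uP_add (z w : ℂ) : uP L (z + w) = uP L z + uP L w := by
  refine add_of_gen (L := L) (fun z => uP_eq_zero.2) (fun z l hl => ?_) (fun z => ?_)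
    (fun z w hz hw hs hd => ?_) z w
  · by_cases hz : z ∈ L.lattice
    · rw [uP_eq_zero.2 hz, uP_eq_zero.2 (add_mem hz hl)]
    · rw [uP_of hz, uP_of (by rwa [L.lattice.add_mem_iff_left hl])]
      simp only [wp_per hl, wq_per hl]
  · by_cases hz : z ∈ L.lattice
    · rw [uP_eq_zero.2 hz, uP_eq_zero.2 (neg_mem hz), neg_zero]
    · rw [uP_of hz, uP_of (by simpa using hz), Affine.Point.neg_some]
      simp [WL, wp, wq, L.derivWeierstrassP_neg, neg_div]
  · have hx : wp L z ≠ wp L w := fun e => by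
      rcases wp_eq hw hz e.symm with h | h
      exacts [hd h, hs h]
    have hx' := sub_ne_zero.2 hx
    obtain ⟨a, b⟩ := add_thm hz hw hs
    have e1 : (WL L).toAffine.addX (wp L z) (wp L w)
        ((WL L).toAffine.slope (wp L z) (wp L w) (wq L z / 2) (wq L w / 2)) = wp L (z + w) := by
      rw [Affine.slope_of_X_ne hx]
      simp only [Affine.addX, WL]
      field_simp
      linear_combination -a
    rw [uP_of hz, uP_of hw, uP_of hs, Affine.Point.add_of_X_ne hx]
    congr 1
    · exact e1.symm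
    · rw [Affine.addY, Affine.negAddY, e1, Affine.slope_of_X_ne hx]
      simp only [Affine.negY, WL]
      field_simp
      linear_combination b

end Pool.Agent.MP_e23604_nt.Un

end

section

/-!
Scaling of lattices and sums over finite extensions of lattices.
-/

set_option autoImplicit false

open Filter Topology Finset

namespace Pool.Agent.MP_e23604_nt.Un

/-- `L'` is `c` times `L` -/
def Sc (c : ℂ) (L L' : PeriodPair) : Prop := c ≠ 0 ∧ ∀ z, c * z ∈ L'.lattice ↔ z ∈ L.lattice

namespace Sc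

variable {c : ℂ} {L L' : PeriodPair} (h : Sc c L L')

/-- multiplication by `c` -/
noncomputable def eqv : L.lattice ≃ L'.lattice where
  toFun l := ⟨c * l, (h.2 _).2 l.2⟩
  invFun l := ⟨c⁻¹ * l, (h.2 _).1 (by rw [mul_inv_cancel_left₀ h.1]; exact l.2)⟩
  left_inv l := Subtype.ext (inv_mul_cancel_left₀ h.1 _)
  right_inv l := Subtype.ext (mul_inv_cancel_left₀ h.1 _)

include h

theorem tsum (F : ℂ → ℂ) : ∑' l : L'.lattice, F l = ∑' l : L.lattice, F (c * l) :=
  (h.eqv.tsum_eq fun l => F l).symm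

theorem wp_mul (z : ℂ) : wp L' (c * z) = (c ^ 2)⁻¹ * wp L z := by
  rw [wp, wp, PeriodPair.weierstrassP, PeriodPair.weierstrassP,
    h.tsum fun l => 1 / (c * z - l) ^ 2 - 1 / l ^ 2, ← tsum_mul_left]
  refine tsum_congr fun l => ?_
  rw [← mul_sub, mul_pow, mul_pow, one_div, one_div, mul_inv, mul_inv]
  ring

theorem wq_mul (z : ℂ) : wq L' (c * z) = (c ^ 3)⁻¹ * wq L z := by
  rw [wq, wq, PeriodPair.derivWeierstrassP, PeriodPair.derivWeierstrassP,
    h.tsum fun l => 2 / (c * z - l) ^ 3, mul_neg, ← tsum_mul_left]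
  refine congrArg _ (tsum_congr fun l => ?_)
  rw [← mul_sub, mul_pow, div_eq_mul_inv, mul_inv]
  ring

theorem G (n : ℕ) : L'.G n = (c ^ n)⁻¹ * L.G n := by
  rw [PeriodPair.G, PeriodPair.G, h.tsum fun l => (l ^ n)⁻¹, ← tsum_mul_left]
  refine tsum_congr fun l => ?_
  rw [mul_pow, mul_inv]

theorem g₂ : L'.g₂ = (c ^ 4)⁻¹ * L.g₂ := by
  rw [PeriodPair.g₂, PeriodPair.g₂, h.G]; ring

theorem g₃ : L'.g₃ = (c ^ 6)⁻¹ * L.g₃ := by
  rw [PeriodPair.g₃, PeriodPair.g₃, h.G]; ring

theorem symm : Sc c⁻¹ L' L :=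
  ⟨inv_ne_zero h.1, fun z => by rw [← h.2, mul_inv_cancel_left₀ h.1]⟩

theorem trans {c' : ℂ} {L'' : PeriodPair} (h' : Sc c' L' L'') : Sc (c' * c) L L'' :=
  ⟨mul_ne_zero h'.1 h.1, fun z => by rw [mul_assoc, h'.2, h.2]⟩

end Sc

theorem Sc.of_eq {L L' : PeriodPair} (h : L.lattice = L'.lattice) : Sc 1 L L' :=
  ⟨one_ne_zero, fun z => by rw [one_mul, h]⟩

theorem wp_congr {L L' : PeriodPair} (h : L.lattice = L'.lattice) (z : ℂ) : wp L' z = wp L z := by
  simpa using (Sc.of_eq h).wp_mul z

theorem wq_congr {L L' : PeriodPair} (h : L.lattice = L'.lattice) (z : ℂ) : wq L' z = wq L z := by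
  simpa using (Sc.of_eq h).wq_mul z

/-- a multiple of a pair of periods -/
def scl (c : ℂ) (hc : c ≠ 0) (L : PeriodPair) : PeriodPair where
  ω₁ := c * L.ω₁
  ω₂ := c * L.ω₂
  indep := LinearIndependent.pair_iff.2 fun s t e => LinearIndependent.pair_iff.1 L.indep s t (by
    refine mul_left_cancel₀ hc ?_
    simp only [Complex.real_smul] at e ⊢
    linear_combination e)

theorem scl_sc (c : ℂ) (hc : c ≠ 0) (L : PeriodPair) : Sc c L (scl c hc L) := by
  refine ⟨hc, fun z => ?_⟩
  simp only [PeriodPair.mem_lattice, scl]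
  exact ⟨fun ⟨m, n, e⟩ => ⟨m, n, mul_left_cancel₀ hc (by linear_combination e)⟩,
    fun ⟨m, n, e⟩ => ⟨m, n, by linear_combination c * e⟩⟩

/-- `X` represents the classes of `L'` modulo `L` -/
structure Rep (L L' : PeriodPair) (X : Finset ℂ) : Prop where
  le : L.lattice ≤ L'.lattice
  mem : ∀ x ∈ X, x ∈ L'.lattice
  uni : ∀ y ∈ L'.lattice, ∃! x, x ∈ X ∧ y - x ∈ L.lattice

namespace Rep

variable {L L' : PeriodPair} {X : Finset ℂ} (h : Rep L L' X)

include h

theorem tsum {F : ℂ → ℂ} (hF : Summable fun l : L'.lattice => F l) :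
    ∑' l : L'.lattice, F l = ∑ x ∈ X, ∑' l : L.lattice, F (l - x) := by
  let e : X × L.lattice → L'.lattice := fun p => ⟨p.2 - p.1, sub_mem (h.le p.2.2) (h.mem _ p.1.2)⟩
  have he : Function.Bijective e := by
    constructor
    · rintro ⟨x, l⟩ ⟨x', l'⟩ e'
      have e1 : (l : ℂ) - x = l' - x' := congrArg Subtype.val e'
      have e2 : x = x' := Subtype.ext ((h.uni x (h.mem _ x.2)).unique ⟨x.2, by simp⟩ ⟨x'.2, by
        rw [show (x : ℂ) - x' = l - l' by linear_combination -e1]
        exact sub_mem l.2 l'.2⟩)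
      subst e2
      exact Prod.ext rfl (Subtype.ext (sub_left_injective e1))
    · intro y
      obtain ⟨x, ⟨x1, x2⟩, -⟩ := h.uni (-y) (neg_mem y.2)
      exact ⟨(⟨x, x1⟩, ⟨_, neg_mem x2⟩), Subtype.ext (by simp [e])⟩
  have s := (Equiv.ofBijective e he).summable_iff.2 hF
  rw [← (Equiv.ofBijective e he).tsum_eq, ← Finset.sum_coe_sort X]
  exact s.tsum_prod.trans (tsum_fintype _)

theorem wp_eq (z : ℂ) : wp L' z = ∑ x ∈ X, (wp L (z + x) - wp L x) := by
  rw [wp, PeriodPair.weierstrassP,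
    h.tsum (F := fun l => 1 / (z - l) ^ 2 - 1 / l ^ 2) (L'.hasSum_weierstrassP z).summable]
  refine sum_congr rfl fun x _ => HasSum.tsum_eq ?_
  refine ((L.hasSum_weierstrassP (z + x)).sub (L.hasSum_weierstrassP x)).congr_fun fun l => ?_
  rw [show z - (l - x) = z + x - l by ring, show ((l : ℂ) - x) ^ 2 = (x - l) ^ 2 by ring]
  ring

theorem wq_eq (z : ℂ) : wq L' z = ∑ x ∈ X, wq L (z + x) := by
  have s : Summable fun l : L'.lattice => 2 / (z - l) ^ 3 := by
    simpa [neg_div] using (L'.hasSum_derivWeierstrassP z).summable.neg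
  rw [wq, PeriodPair.derivWeierstrassP, h.tsum (F := fun l => 2 / (z - l) ^ 3) s, ← sum_neg_distrib]
  refine sum_congr rfl fun x _ => ?_
  rw [wq, PeriodPair.derivWeierstrassP]
  refine congrArg _ (tsum_congr fun l => ?_)
  rw [show z - (l - x) = z + x - l by ring]

end Rep

/-- a group between `L` and `L / N` is a lattice -/
theorem ex_pair (L : PeriodPair) (M : Submodule ℤ ℂ) (h : L.lattice ≤ M) {N : ℂ} (hN : N ≠ 0)
    (hM : ∀ z ∈ M, N * z ∈ L.lattice) : ∃ L' : PeriodPair, L'.lattice = M := by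
  have le : M ≤ (scl N⁻¹ (inv_ne_zero hN) L).lattice := fun z hz =>
    ((scl_sc N⁻¹ (inv_ne_zero hN) L).symm.2 z).1 (by simpa using hM z hz)
  have : DiscreteTopology M := DiscreteTopology.of_subset
    (inferInstanceAs (DiscreteTopology (scl N⁻¹ (inv_ne_zero hN) L).lattice)) le
  have : IsZLattice ℝ M := ⟨top_le_iff.1 ((IsZLattice.span_top (K := ℝ) (L := L.lattice)).symm.trans_le
    (Submodule.span_mono h))⟩
  have fr : Module.finrank ℤ M = 2 := by rw [ZLattice.rank ℝ M]; simp
  let b := (Module.finBasisOfFinrankEq ℤ M fr).ofZLatticeBasis ℝ M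
  have e : ![b 0, b 1] = b := by ext i; fin_cases i <;> rfl
  refine ⟨⟨b 0, b 1, by rw [e]; exact b.linearIndependent⟩, ?_⟩
  rw [← (Module.finBasisOfFinrankEq ℤ M fr).ofZLatticeBasis_span ℝ M, PeriodPair.lattice]
  congr 1
  change {b 0, b 1} = Set.range b
  ext z
  simp [Fin.exists_fin_two, eq_comm]

end Pool.Agent.MP_e23604_nt.Un

end

section

/-!
Elliptic functions with poles of small order at the lattice points; product formulas.
-/

set_option autoImplicit false

open Filter Topology Finset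
open scoped Classical

namespace Pool.Agent.MP_e23604_nt.Un

/-- an elliptic function whose poles are lattice points of order at most `n`, with leading
coefficient `k` -/
structure Pole (L : PeriodPair) (n : ℕ) (F : ℂ → ℂ) (k : ℂ) : Prop where
  an : ∀ z, z ∉ L.lattice → AnalyticAt ℂ F z
  per : ∀ z, ∀ l ∈ L.lattice, F (z + l) = F z
  ex : ∃ G : ℂ → ℂ, AnalyticAt ℂ G 0 ∧ G 0 = k ∧ ∀ᶠ z in 𝓝[≠] 0, z ^ n * F z = G z

variable {L : PeriodPair} {n m : ℕ} {F F' : ℂ → ℂ} {k k' : ℂ}

theorem near0 (L : PeriodPair) {l : ℂ} : ∀ᶠ z in 𝓝[≠] l, z ∉ L.lattice := by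
  filter_upwards [self_mem_nhdsWithin,
    mem_nhdsWithin_of_mem_nhds (L.compl_lattice_sdiff_singleton_mem_nhds l)] with z h1 h2 h
  exact h2 ⟨h, h1⟩

namespace Pole

theorem uniq (h : Pole L n F k) (h' : Pole L n F k') : k = k' := by
  obtain ⟨G, a, rfl, e⟩ := h.ex
  obtain ⟨G', a', rfl, e'⟩ := h'.ex
  refine tendsto_nhds_unique_of_eventuallyEq (l := 𝓝[≠] (0 : ℂ))
    (a.continuousAt.tendsto.mono_left nhdsWithin_le_nhds)
    (a'.continuousAt.tendsto.mono_left nhdsWithin_le_nhds) ?_
  filter_upwards [e, e'] with z e e' using e.symm.trans e'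

theorem zero (h : Pole L 0 F k) {z : ℂ} (hz : z ∉ L.lattice) : F z = k := by
  obtain ⟨G, a, rfl, e⟩ := h.ex
  let H : ℂ → ℂ := fun z => if z ∈ L.lattice then G 0 else F z
  have per : ∀ z w, w ∈ L.lattice → H (z + w) = H z := fun z w hw => by
    simp only [H, h.per z w hw, L.lattice.add_mem_iff_left hw]
  have a0 : AnalyticAt ℂ H 0 := a.congr (by
    have := eventually_nhdsWithin_iff.1 (e.and (near0 L))
    filter_upwards [this] with t ht
    by_cases t0 : t = 0
    · simp [H, t0]
    · simp only [H, if_neg (ht t0).2, ← (ht t0).1, pow_zero, one_mul])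
  have an : ∀ z, AnalyticAt ℂ H z := fun z => by
    by_cases hz : z ∈ L.lattice
    · have := a0.comp_of_eq (f := fun t => t + -z) (x := z) (by fun_prop) (by simp)
      exact this.congr (.of_forall fun t => per t _ (neg_mem hz))
    · refine (h.an z hz).congr ?_
      filter_upwards [near hz] with t ht
      simp [H, ht]
  have df : Differentiable ℂ H := fun z => (an z).differentiableAt
  simpa [H, hz] using df.apply_eq_apply_of_bounded
    (IsZLattice.isCompact_range_of_periodic L.lattice _ df.continuous per).isBounded z 0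

theorem step (h : Pole L (n + 1) F 0) : ∃ k, Pole L n F k := by
  obtain ⟨G, a, g0, e⟩ := h.ex
  obtain ⟨p, hp⟩ := a
  refine ⟨_, h.an, h.per, dslope G 0, ⟨_, hp.has_fpower_series_dslope_fslope⟩, rfl, ?_⟩
  filter_upwards [e, self_mem_nhdsWithin] with z e (z0 : z ≠ 0)
  rw [dslope_of_ne _ z0, slope_def_field, g0, ← e]
  field_simp
  ring

theorem mul (h : Pole L n F k) (h' : Pole L m F' k') :
    Pole L (n + m) (fun z => F z * F' z) (k * k') := by
  obtain ⟨G, a, rfl, e⟩ := h.ex
  obtain ⟨G', a', rfl, e'⟩ := h'.ex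
  refine ⟨fun z hz => (h.an z hz).mul (h'.an z hz), fun z l hl => by
    rw [h.per z l hl, h'.per z l hl], fun z => G z * G' z, a.mul a', rfl, ?_⟩
  filter_upwards [e, e'] with z e e'
  rw [← e, ← e']
  ring

theorem const (c : ℂ) : Pole L 0 (fun _ => c) c :=
  ⟨fun _ _ => analyticAt_const, fun _ _ _ => rfl, fun _ => c, analyticAt_const, rfl,
    .of_forall fun _ => by simp⟩

theorem up (h : Pole L n F k) : Pole L (n + 1) F 0 := by
  obtain ⟨G, a, rfl, e⟩ := h.ex
  refine ⟨h.an, h.per, fun z => z * G z, by fun_prop, by simp, ?_⟩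
  filter_upwards [e] with z e
  rw [← e]
  ring

theorem lin (h : Pole L n F k) (h' : Pole L n F' k') (c c' : ℂ) :
    Pole L n (fun z => c * F z + c' * F' z) (c * k + c' * k') := by
  obtain ⟨G, a, rfl, e⟩ := h.ex
  obtain ⟨G', a', rfl, e'⟩ := h'.ex
  refine ⟨fun z hz => ?_, fun z l hl => by rw [h.per z l hl, h'.per z l hl],
    fun z => c * G z + c' * G' z, by fun_prop, rfl, ?_⟩
  · have := h.an z hz
    have := h'.an z hz
    fun_prop
  filter_upwards [e, e'] with z e e'
  rw [← e, ← e']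
  ring

theorem neg (h : Pole L n F k) : Pole L n (fun z => F (-z)) ((-1) ^ n * k) := by
  obtain ⟨G, a, rfl, e⟩ := h.ex
  refine ⟨fun z hz => (h.an (-z) (by simpa using hz)).comp_of_eq (f := fun t => -t)
    (by fun_prop) rfl, fun z l hl => by rw [neg_add, h.per _ _ (neg_mem hl)],
    fun z => (-1) ^ n * G (-z), analyticAt_const.mul (a.comp_of_eq (f := fun t => -t)
      (by fun_prop) neg_zero), by simp, ?_⟩
  have t : Tendsto (fun z : ℂ => -z) (𝓝[≠] 0) (𝓝[≠] 0) :=
    tendsto_nhdsWithin_of_tendsto_nhds_of_eventually_within _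
      ((continuous_neg.tendsto' 0 0 neg_zero).mono_left nhdsWithin_le_nhds)
      (by filter_upwards [self_mem_nhdsWithin] with z hz; simpa using hz)
  filter_upwards [t.eventually e] with z e
  rw [← e, ← mul_assoc, ← mul_pow]
  simp

theorem congr (h : Pole L n F k) (e : ∀ z, F' z = F z) (e' : k' = k) : Pole L n F' k' := by
  rw [funext e, e']
  exact h

end Pole

theorem pole_p (L : PeriodPair) : Pole L 2 (wp L) 1 := by
  have a := L.analyticAt_weierstrassPExcept 0
  refine ⟨fun _ => an_p, fun _ _ => wp_per, fun z => z ^ 2 * L.weierstrassPExcept 0 z + 1,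
    by fun_prop, by simp, ?_⟩
  filter_upwards [self_mem_nhdsWithin] with z (z0 : z ≠ 0)
  have := L.weierstrassPExcept_add 0 z
  simp only [ZeroMemClass.coe_zero, sub_zero] at this
  rw [wp, ← this]
  field_simp
  ring

theorem pole_q (L : PeriodPair) : Pole L 3 (wq L) (-2) := by
  have a := L.analyticAt_derivWeierstrassPExcept 0
  refine ⟨fun _ => an_q, fun _ _ => wq_per, fun z => z ^ 3 * L.derivWeierstrassPExcept 0 z - 2,
    by fun_prop, by simp, ?_⟩
  filter_upwards [self_mem_nhdsWithin] with z (z0 : z ≠ 0)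
  have := L.derivWeierstrassPExcept_sub 0 z
  simp only [ZeroMemClass.coe_zero, sub_zero] at this
  rw [wq, ← this]
  field_simp

theorem Pole.even (h : Pole L 2 F k) (e : ∀ z, F (-z) = F z) :
    ∃ c, ∀ z, z ∉ L.lattice → F z = k * wp L z + c := by
  obtain ⟨k1, h1⟩ := ((h.lin (pole_p L) 1 (-k)).congr (fun _ => rfl) (k' := 0) (by ring)).step
  have h2 : k1 = (-1) ^ 1 * k1 := h1.uniq (h1.neg.congr (fun z => by simp [e]) rfl)
  obtain ⟨c, h3⟩ := (h1.congr (fun _ => rfl) (k' := 0) (by linear_combination -h2 / 2)).step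
  exact ⟨c, fun z hz => by linear_combination h3.zero hz⟩

theorem Pole.one (h : Pole L 1 F k) : k = 0 := by
  have h1 := h.lin h.neg 1 (-1)
  obtain ⟨c, hc⟩ := (h1.mul h1).even fun z => by simp only [neg_neg]; ring
  have hh : ∀ l ∈ L.lattice, F (-(l / 2)) = F (l / 2) := fun l hl => by
    rw [← h.per _ l hl]
    congr 1
    ring
  have a := hc _ L.ω₁_div_two_notMem_lattice
  have b := hc _ L.ω₂_div_two_notMem_lattice
  rw [hh _ L.ω₁_mem_lattice] at a
  rw [hh _ L.ω₂_mem_lattice] at b
  by_contra k0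
  have e : wp L (L.ω₁ / 2) = wp L (L.ω₂ / 2) :=
    mul_left_cancel₀ (pow_ne_zero 2 k0) (by linear_combination (b - a) / 4)
  rcases wp_eq L.ω₁_div_two_notMem_lattice L.ω₂_div_two_notMem_lattice e with e | e
  · have := (L.mul_ω₁_add_mul_ω₂_mem_lattice (α := -1 / 2) (β := 1 / 2)).1 (by
      convert e using 1; push_cast; ring)
    norm_num at this
  · have := (L.mul_ω₁_add_mul_ω₂_mem_lattice (α := 1 / 2) (β := 1 / 2)).1 (by
      convert e using 1; push_cast; ring)
    norm_num at this

theorem Pole.two (h : Pole L 2 F k) : ∃ c, ∀ z, z ∉ L.lattice → F z = k * wp L z + c := by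
  obtain ⟨k1, h1⟩ := ((h.lin (pole_p L) 1 (-k)).congr (fun _ => rfl) (k' := 0) (by ring)).step
  obtain ⟨c, h3⟩ := (h1.congr (fun _ => rfl) h1.one.symm).step
  exact ⟨c, fun z hz => by linear_combination h3.zero hz⟩

theorem Pole.three (h : Pole L 3 F k) :
    ∃ b c, ∀ z, z ∉ L.lattice → F z = -k / 2 * wq L z + b * wp L z + c := by
  obtain ⟨k1, h1⟩ := ((h.lin (pole_q L) 1 (k / 2)).congr (fun _ => rfl) (k' := 0) (by ring)).step
  obtain ⟨c, h3⟩ := h1.two
  exact ⟨k1, c, fun z hz => by linear_combination h3 z hz⟩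

/-- the first coefficient of the normal form at `P` -/
noncomputable def dA (L : PeriodPair) (P : ℂ) : ℂ := (6 * wp L P ^ 2 - L.g₂ / 2) / wq L P

/-- the second coordinate of the normal form at `P` -/
noncomputable def dY (L : PeriodPair) (P z : ℂ) : ℂ :=
  (wq L z - dA L P * (wp L z - wp L P) - wq L P) / 2

theorem pole_y (L : PeriodPair) (P : ℂ) : Pole L 3 (dY L P) (-1) :=
  (((pole_q L).lin (pole_p L).up (1 / 2) (-dA L P / 2)).lin (Pole.const (L := L) 1).up.up.up 1
    ((dA L P * wp L P - wq L P) / 2)).congr (fun z => by rw [dY]; ring) (by ring)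

theorem dY_self (L : PeriodPair) (P : ℂ) : dY L P P = 0 := by simp [dY]

theorem dY_der {P : ℂ} (h : P ∉ L.lattice) (h2 : wq L P ≠ 0) : HasDerivAt (dY L P) 0 P := by
  refine ((((hd_q h).sub (((hd_p h).sub_const _).const_mul _)).sub_const _).div_const
    2).congr_deriv ?_
  rw [dA, div_mul_cancel₀ _ h2, sub_self, zero_div]

namespace Rep

variable {L' : PeriodPair} {X : Finset ℂ} (h : Rep L L' X)

include h

theorem prod_per (p : ∀ z, ∀ l ∈ L.lattice, F (z + l) = F z) (z : ℂ) {l : ℂ}
    (hl : l ∈ L'.lattice) : ∏ x ∈ X, F (z + l + x) = ∏ x ∈ X, F (z + x) := by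
  choose! r hr using fun x (hx : x ∈ X) => (h.uni (l + x) (add_mem hl (h.mem x hx))).exists
  have inj : Set.InjOn r X := fun x hx y hy e => (h.uni x (h.mem x hx)).unique ⟨hx, by simp⟩ ⟨hy, by
    have := sub_mem (hr x hx).2 (hr y hy).2
    rwa [e, show l + x - r y - (l + y - r y) = x - y by ring] at this⟩
  refine prod_bij (fun x _ => r x) (fun x hx => (hr x hx).1) (fun x hx y hy e => inj hx hy e)
    (fun y hy => ?_) fun x hx => ?_
  · obtain ⟨x, hx, e⟩ := surj_on_of_inj_on_of_card_le (fun x _ => r x) (fun x hx => (hr x hx).1)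
      (fun x y hx hy e => inj hx hy e) le_rfl y hy
    exact ⟨x, hx, e.symm⟩
  · rw [← p (z + r x) _ (hr x hx).2]
    congr 1
    ring

theorem split (p : ∀ z, ∀ l ∈ L.lattice, F (z + l) = F z) (z : ℂ) :
    ∏ x ∈ X, F (z + x) = F z * ∏ x ∈ X with x ∉ L.lattice, F (z + x) := by
  obtain ⟨x0, ⟨h1, h2⟩, h3⟩ := h.uni 0 (zero_mem _)
  have h4 : x0 ∈ L.lattice := by simpa using h2
  rw [← mul_prod_erase X _ h1, p z _ h4]
  congr 2
  ext x
  simp only [mem_erase, mem_filter]
  exact ⟨fun ⟨a, b⟩ => ⟨b, fun e => a (h3 x ⟨b, by simpa using e⟩)⟩,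
    fun ⟨a, b⟩ => ⟨fun e => b (e ▸ h4), a⟩⟩

theorem notMem {z x : ℂ} (hz : z ∉ L'.lattice) (hx : x ∈ X) : z + x ∉ L.lattice := fun e =>
  hz (by simpa using sub_mem (h.le e) (h.mem x hx))

theorem pole (p : Pole L n F k) :
    Pole L' n (fun z => ∏ x ∈ X, F (z + x)) (k * ∏ x ∈ X with x ∉ L.lattice, F x) := by
  obtain ⟨G, a, rfl, e⟩ := p.ex
  refine ⟨fun z hz => analyticAt_fun_prod _ fun x hx => (p.an _ (h.notMem hz hx)).comp_of_eq
    (f := fun t => t + x) (by fun_prop) rfl, fun z l hl => h.prod_per p.per z hl,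
    fun z => G z * ∏ x ∈ X with x ∉ L.lattice, F (z + x), a.mul (analyticAt_fun_prod _
      fun x hx => (p.an _ (mem_filter.1 hx).2).comp_of_eq (f := fun t => t + x) (by fun_prop)
        (zero_add x)), by simp, ?_⟩
  filter_upwards [e] with z e
  rw [h.split p.per, ← e, mul_assoc]

theorem prod_p {z w : ℂ} (hz : z ∉ L'.lattice) (hw : w ∉ L'.lattice) :
    ∏ x ∈ X, (wp L (z + x) - wp L w) =
      (∏ x ∈ X with x ∉ L.lattice, (wp L x - wp L w)) * (wp L' z - wp L' w) := by
  have p : Pole L 2 (fun z => wp L z - wp L w) 1 :=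
    ((pole_p L).lin (Pole.const (L := L) 1).up.up 1 (-wp L w)).congr (fun z => by ring) (by ring)
  obtain ⟨c, hc⟩ := (h.pole p).two
  have := (h.split (F := fun z => wp L z - wp L w) p.per w).symm.trans (hc w hw)
  rw [sub_self, zero_mul] at this
  rw [hc z hz]
  linear_combination -this

theorem prod_y {z P : ℂ} (hz : z ∉ L'.lattice) (hP : 2 * P ∉ L'.lattice) :
    ∏ x ∈ X, dY L P (z + x) = (∏ x ∈ X with x ∉ L.lattice, dY L P x) * dY L' P z := by
  have h1 : P ∉ L'.lattice := fun e => hP (by rw [two_mul]; exact add_mem e e)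
  have h2 : P ∉ L.lattice := fun e => h1 (h.le e)
  have h3 : wq L' P ≠ 0 := fun e => hP ((wq_zero h1).1 e)
  have h4 : wq L P ≠ 0 := fun e => hP (h.le ((wq_zero h2).1 e))
  have p := pole_y L P
  set κ := ∏ x ∈ X with x ∉ L.lattice, dY L P x
  obtain ⟨b, hb⟩ := (((h.pole p).lin (pole_y L' P) 1 (-κ)).congr (fun _ => rfl) (k' := 0)
    (by ring)).step
  obtain ⟨c, hc⟩ := hb.two
  have d1 : HasDerivAt (fun z => ∏ x ∈ X, dY L P (z + x)) 0 P := by
    simp only [h.split p.per]
    have : AnalyticAt ℂ (fun z => ∏ x ∈ X with x ∉ L.lattice, dY L P (z + x)) P :=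
      analyticAt_fun_prod _ fun x hx => (p.an _ (h.notMem h1 (mem_filter.1 hx).1)).comp_of_eq
        (f := fun t => t + x) (by fun_prop) rfl
    exact ((dY_der h2 h4).mul this.differentiableAt.hasDerivAt).congr_deriv (by simp [dY_self])
  have d2 := ((d1.const_mul 1).add ((dY_der h1 h3).const_mul (-κ))).unique
    ((((hd_p h1).const_mul b).add_const c).congr_of_eventuallyEq (by
      filter_upwards [near h1] with t ht using hc t ht))
  have b0 : b = 0 := mul_right_cancel₀ h3 (by linear_combination -d2)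
  have := hc P h1
  rw [h.split p.per, dY_self, dY_self] at this
  linear_combination hc z hz - this + (wp L' z - wp L' P) * b0

end Rep

end Pool.Agent.MP_e23604_nt.Un

end
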