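import Pool.Agent.MP_e23604_nt.BBase
import Pool.Agent.Mg.Fe23604m.G4d6502
import Pool.Agent.MP_e23604_nt.BSel

set_option linter.all false

section

/-!
A change of variables induces an isomorphism of the groups of points.
-/

open WeierstrassCurve

namespace Pool.Agent.MP_e23604_nt.B

section

variable {F : Type} [Field F] (W : WeierstrassCurve F) (C : VariableChange F)

/-- The new first coordinate. -/
def BVC_x (x : F) : F := (x - C.r) / (C.u : F) ^ 2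

/-- The new second coordinate. -/
def BVC_y (x y : F) : F := (y - C.s * (x - C.r) - C.t) / (C.u : F) ^ 3

lemma BVC_x_inj {x₁ x₂ : F} : BVC_x C x₁ = BVC_x C x₂ ↔ x₁ = x₂ := by
  have hu : (C.u : F) ≠ 0 := C.u.ne_zero
  unfold BVC_x
  rw [div_left_inj' (pow_ne_zero _ hu), sub_left_inj]

lemma BVC_y_inj {x y₁ y₂ : F} : BVC_y C x y₁ = BVC_y C x y₂ ↔ y₁ = y₂ := by
  have hu : (C.u : F) ≠ 0 := C.u.ne_zero
  unfold BVC_y
  rw [div_left_inj' (pow_ne_zero _ hu), sub_left_inj, sub_left_inj]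

lemma BVC_surj (x' y' : F) : ∃ x y, BVC_x C x = x' ∧ BVC_y C x y = y' := by
  have hu : (C.u : F) ≠ 0 := C.u.ne_zero
  refine ⟨(C.u : F) ^ 2 * x' + C.r, (C.u : F) ^ 3 * y' + C.s * ((C.u : F) ^ 2 * x') + C.t, ?_, ?_⟩
  · unfold BVC_x
    field_simp
    ring
  · unfold BVC_y
    field_simp
    ring

lemma BVC_negY (x y : F) :
    (C • W).toAffine.negY (BVC_x C x) (BVC_y C x y) = BVC_y C x (W.toAffine.negY x y) := by
  have hu : (C.u : F) ≠ 0 := C.u.ne_zero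
  simp only [Affine.negY, BVC_x, BVC_y, variableChange_a₁, variableChange_a₃,
    Units.val_inv_eq_inv_val]
  field_simp
  ring

lemma BVC_polyX (x y : F) :
    (C • W).a₁ * BVC_y C x y - (3 * BVC_x C x ^ 2 + 2 * (C • W).a₂ * BVC_x C x + (C • W).a₄) =
      (W.a₁ * y - (3 * x ^ 2 + 2 * W.a₂ * x + W.a₄) + C.s * (2 * y + W.a₁ * x + W.a₃)) /
        (C.u : F) ^ 4 := by
  have hu : (C.u : F) ≠ 0 := C.u.ne_zero
  simp only [BVC_x, BVC_y, variableChange_a₁, variableChange_a₂, variableChange_a₄,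
    Units.val_inv_eq_inv_val]
  field_simp
  ring

lemma BVC_polyY (x y : F) :
    2 * BVC_y C x y + (C • W).a₁ * BVC_x C x + (C • W).a₃ =
      (2 * y + W.a₁ * x + W.a₃) / (C.u : F) ^ 3 := by
  have hu : (C.u : F) ≠ 0 := C.u.ne_zero
  simp only [BVC_x, BVC_y, variableChange_a₁, variableChange_a₃, Units.val_inv_eq_inv_val]
  field_simp
  ring

lemma BVC_poly (x y : F) :
    BVC_y C x y ^ 2 + (C • W).a₁ * BVC_x C x * BVC_y C x y + (C • W).a₃ * BVC_y C x y -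
      (BVC_x C x ^ 3 + (C • W).a₂ * BVC_x C x ^ 2 + (C • W).a₄ * BVC_x C x + (C • W).a₆) =
      (y ^ 2 + W.a₁ * x * y + W.a₃ * y - (x ^ 3 + W.a₂ * x ^ 2 + W.a₄ * x + W.a₆)) /
        (C.u : F) ^ 6 := by
  have hu : (C.u : F) ≠ 0 := C.u.ne_zero
  simp only [BVC_x, BVC_y, variableChange_a₁, variableChange_a₂, variableChange_a₃,
    variableChange_a₄, variableChange_a₆, Units.val_inv_eq_inv_val]
  field_simp
  ring

lemma BVC_ns (x y : F) :
    (C • W).toAffine.Nonsingular (BVC_x C x) (BVC_y C x y) ↔ W.toAffine.Nonsingular x y := by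
  have hu : (C.u : F) ≠ 0 := C.u.ne_zero
  rw [Affine.nonsingular_iff', Affine.nonsingular_iff', Affine.equation_iff',
    Affine.equation_iff']
  erw [BVC_poly, BVC_polyX, BVC_polyY]
  simp only [ne_eq, div_eq_zero_iff, pow_eq_zero_iff, hu, or_false, Nat.reduceEqDiff,
    not_false_eq_true, OfNat.ofNat_ne_zero]
  refine and_congr_right' ?_
  by_cases h : 2 * y + W.a₁ * x + W.a₃ = 0
  · simp [h]
  · simp [h]

lemma BVC_addX (x₁ x₂ l : F) :
    (C • W).toAffine.addX (BVC_x C x₁) (BVC_x C x₂) ((l - C.s) / C.u) =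
      BVC_x C (W.toAffine.addX x₁ x₂ l) := by
  have hu : (C.u : F) ≠ 0 := C.u.ne_zero
  simp only [Affine.addX, BVC_x, variableChange_a₁, variableChange_a₂, Units.val_inv_eq_inv_val]
  field_simp
  ring

lemma BVC_addY (x₁ x₂ y₁ l : F) :
    (C • W).toAffine.addY (BVC_x C x₁) (BVC_x C x₂) (BVC_y C x₁ y₁) ((l - C.s) / C.u) =
      BVC_y C (W.toAffine.addX x₁ x₂ l) (W.toAffine.addY x₁ x₂ y₁ l) := by
  have hu : (C.u : F) ≠ 0 := C.u.ne_zero
  rw [Affine.addY, Affine.addY, ← BVC_negY, Affine.negAddY, Affine.negAddY, BVC_addX]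
  congr 1
  simp only [BVC_x, BVC_y]
  field_simp
  ring

lemma BVC_slope [DecidableEq F] {x₁ x₂ y₁ y₂ : F}
    (hxy : ¬(x₁ = x₂ ∧ y₁ = W.toAffine.negY x₂ y₂)) (h₁ : W.toAffine.Equation x₁ y₁)
    (h₂ : W.toAffine.Equation x₂ y₂) :
    (C • W).toAffine.slope (BVC_x C x₁) (BVC_x C x₂) (BVC_y C x₁ y₁) (BVC_y C x₂ y₂) =
      (W.toAffine.slope x₁ x₂ y₁ y₂ - C.s) / C.u := by
  have hu : (C.u : F) ≠ 0 := C.u.ne_zero
  by_cases hx : x₁ = x₂
  · subst hx
    have hy : y₁ ≠ W.toAffine.negY x₁ y₂ := fun h => hxy ⟨rfl, h⟩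
    obtain rfl := Affine.Y_eq_of_Y_ne h₁ h₂ rfl hy
    have hy' : BVC_y C x₁ y₁ ≠ (C • W).toAffine.negY (BVC_x C x₁) (BVC_y C x₁ y₁) := by
      rw [BVC_negY]
      exact fun h => hy ((BVC_y_inj C).1 h)
    have e : 2 * y₁ + W.a₁ * x₁ + W.a₃ ≠ 0 := fun h => hy (by
      simp only [Affine.negY]
      linear_combination h)
    have e₁ : y₁ - W.toAffine.negY x₁ y₁ = 2 * y₁ + W.a₁ * x₁ + W.a₃ := by
      simp only [Affine.negY]
      ring
    have e₂ : BVC_y C x₁ y₁ - (C • W).toAffine.negY (BVC_x C x₁) (BVC_y C x₁ y₁) =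
        (2 * y₁ + W.a₁ * x₁ + W.a₃) / (C.u : F) ^ 3 := by
      rw [← BVC_polyY]
      simp only [Affine.negY]
      ring
    have e₃ := BVC_polyX W C x₁ y₁
    rw [Affine.slope_of_Y_ne rfl hy, Affine.slope_of_Y_ne rfl hy', e₁, e₂, ← neg_sub]
    erw [e₃]
    generalize 2 * y₁ + W.a₁ * x₁ + W.a₃ = D at e ⊢
    field_simp
    ring
  · have hx' : BVC_x C x₁ ≠ BVC_x C x₂ := fun h => hx ((BVC_x_inj C).1 h)
    have e : x₁ - x₂ ≠ 0 := sub_ne_zero.2 hx
    have e₁ : BVC_x C x₁ - BVC_x C x₂ = (x₁ - x₂) / (C.u : F) ^ 2 := by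
      simp only [BVC_x]
      ring
    rw [Affine.slope_of_X_ne hx, Affine.slope_of_X_ne hx', e₁]
    simp only [BVC_y]
    field_simp
    ring

/-- The map on points. -/
def BVC_map : W.toAffine.Point → (C • W).toAffine.Point
  | .zero => .zero
  | .some x y h => .some (BVC_x C x) (BVC_y C x y) ((BVC_ns W C x y).2 h)

lemma BVC_map_add [DecidableEq F] (P Q : W.toAffine.Point) :
    BVC_map W C (P + Q) = BVC_map W C P + BVC_map W C Q := by
  rcases P with _ | ⟨x₁, y₁, h₁⟩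
  · change BVC_map W C (0 + Q) = 0 + _
    rw [zero_add, zero_add]
  rcases Q with _ | ⟨x₂, y₂, h₂⟩
  · change BVC_map W C (_ + 0) = _ + 0
    rw [add_zero, add_zero]
  by_cases hxy : x₁ = x₂ ∧ y₁ = W.toAffine.negY x₂ y₂
  · obtain ⟨rfl, hy⟩ := hxy
    rw [Affine.Point.add_of_Y_eq rfl hy]
    exact (Affine.Point.add_of_Y_eq rfl (by rw [BVC_negY, ← hy])).symm
  · have hxy' : ¬(BVC_x C x₁ = BVC_x C x₂ ∧
        BVC_y C x₁ y₁ = (C • W).toAffine.negY (BVC_x C x₂) (BVC_y C x₂ y₂)) := by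
      rintro ⟨hx, hy⟩
      obtain rfl := (BVC_x_inj C).1 hx
      rw [BVC_negY] at hy
      exact hxy ⟨rfl, (BVC_y_inj C).1 hy⟩
    rw [Affine.Point.add_some hxy]
    simp only [BVC_map]
    rw [Affine.Point.add_some hxy']
    simp only [Affine.Point.some.injEq, BVC_slope W C hxy h₁.1 h₂.1, BVC_addX, BVC_addY, and_self]

lemma BVC_map_bij : Function.Bijective (BVC_map W C) := by
  constructor
  · rintro (_ | ⟨x₁, y₁, h₁⟩) (_ | ⟨x₂, y₂, h₂⟩) h
    · rfl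
    · cases h
    · cases h
    · simp only [BVC_map, Affine.Point.some.injEq] at h
      obtain rfl := (BVC_x_inj C).1 h.1
      obtain rfl := (BVC_y_inj C).1 h.2
      rfl
  · rintro (_ | ⟨x', y', h⟩)
    · exact ⟨.zero, rfl⟩
    · obtain ⟨x, y, rfl, rfl⟩ := BVC_surj C x' y'
      exact ⟨.some x y ((BVC_ns W C x y).1 h), rfl⟩

end

theorem vc_equiv {F : Type} [Field F] [DecidableEq F] (W W' : WeierstrassCurve F)
    (C : VariableChange F) (hC : C • W = W') :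
    ∃ Ψ : W.toAffine.Point ≃+ W'.toAffine.Point, ∀ (x y : F) (h : W.toAffine.Nonsingular x y),
      ∃ h', Ψ (.some x y h) = .some ((x - C.r) / (C.u : F) ^ 2)
        ((y - C.s * (x - C.r) - C.t) / (C.u : F) ^ 3) h' := by
  subst hC
  exact ⟨AddEquiv.ofBijective (AddMonoidHom.mk' (BVC_map W C) (BVC_map_add W C))
    (BVC_map_bij W C), fun x y h => ⟨(BVC_ns W C x y).2 h, rfl⟩⟩

end Pool.Agent.MP_e23604_nt.B

end

section

/-!
The number of local classes modulo p.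
-/

open WeierstrassCurve
open scoped Classical

namespace Pool.Agent.MP_e23604_nt.L

open B

theorem sub_Locq {F : Type} [Field F] [DecidableEq F] {v : AbsoluteValue F ℝ}
    {W : WeierstrassCurve F} (hv : IsNonarchimedean v) (hW : Intg v W) {P Q : W.toAffine.Point}
    (hP : E1 v P) (hQ : E1 v Q) {c : ℝ} (h1 : v (zz P) ≤ c) (h2 : v (zz Q) ≤ c) :
    E1 v (P - Q) ∧ v (zz (P - Q)) ≤ c := by
  obtain ⟨n1, n2⟩ := E1_neg hv hW hQ
  have sq : ∀ t : ℝ, 0 ≤ t → t < 1 → t ≤ c → t ^ 2 ≤ c := fun t a b d => by nlinarith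
  have n3 : v (zz (-Q)) ≤ c := by
    have := bLocA_sub_le hv (n2.trans (sq _ (v.nonneg _) (E1_lt hv hW hQ) h2)) h2
    rwa [add_sub_cancel_right] at this
  obtain ⟨k1, k2⟩ := E1_add hv hW hP n1
  rw [sub_eq_add_neg]
  refine ⟨k1, ?_⟩
  have k3 := k2.trans (sq _ ((v.nonneg _).trans (le_max_left _ _))
    (max_lt (E1_lt hv hW hP) (E1_lt hv hW n1)) (max_le h1 n3))
  have := bLocA_add_le hv (bLocA_add_le hv k3 n3) h1
  rwa [sub_add_cancel, sub_add_cancel] at this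

section

variable (W : WeierstrassCurve ℚ) (q : ℕ) [Fact q.Prime]

theorem Fx_sub_Locq {P Q : Pts W (PadicAlgCl q)} (hP : Fx W q P) (hQ : Fx W q Q) :
    Fx W q (P - Q) := fun σ => by rw [map_sub, hP σ, hQ σ]

theorem act_Locq (σ : PadicAlgCl q ≃ₐ[ℚ_[q]] PadicAlgCl q) (D : Pts W (PadicAlgCl q))
    (h : E1 (NormedField.toAbsoluteValue (PadicAlgCl q)) D) :
    E1 (NormedField.toAbsoluteValue (PadicAlgCl q))
      (act W (σ : PadicAlgCl q →+* PadicAlgCl q) D) ∧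
    ‖zz (act W (σ : PadicAlgCl q →+* PadicAlgCl q) D)‖ = ‖zz D‖ := by
  rcases D with _ | ⟨x, y, hxy⟩
  · exact ⟨trivial, rfl⟩
  · constructor
    · change 1 < ‖σ x‖
      rw [norm_gal]
      exact h
    · change ‖-(σ x) / σ y‖ = ‖-x / y‖
      rw [norm_div, norm_div, norm_neg, norm_neg, norm_gal, norm_gal]

theorem norm_nat_Locq (n : ℕ) : ‖(n : PadicAlgCl q)‖ = ‖(n : ℚ_[q])‖ := by
  rw [← map_natCast (algebraMap ℚ_[q] (PadicAlgCl q)), norm_algebraMap']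

theorem trans_Locq (C : VariableChange ℚ) {p N : ℕ} (h : Cls (C • W) q p N) : Cls W q p N := by
  obtain ⟨Ψ, hΨ⟩ := vc_equiv (W.baseChange (PadicAlgCl q)) ((C • W).baseChange (PadicAlgCl q))
    (C.map (algebraMap ℚ (PadicAlgCl q))) (map_variableChange _ _ _)
  have hc : ∀ (σ : PadicAlgCl q →+* PadicAlgCl q) (P : Pts W (PadicAlgCl q)),
      act (C • W) σ (Ψ P) = Ψ (act W σ P) := by
    intro σ P
    rcases P with _ | ⟨x, y, hxy⟩
    · change act (C • W) σ (Ψ 0) = Ψ (act W σ 0)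
      simp only [map_zero]
    · obtain ⟨h1, e1⟩ := hΨ x y hxy
      obtain ⟨h2, e2⟩ := BSel_act_some W σ hxy
      obtain ⟨h3, e3⟩ := hΨ _ _ h2
      obtain ⟨h4, e4⟩ := BSel_act_some (C • W) σ h1
      rw [e1, e2, e3, e4]
      simp [VariableChange.map]
  have hF : ∀ P, Fx W q P ↔ Fx (C • W) q (Ψ P) := by
    intro P
    refine forall_congr' fun σ => ?_
    rw [hc, Ψ.injective.eq_iff]
  obtain ⟨cl, hcl⟩ := h
  refine ⟨fun R => cl (Ψ R), fun R R' hR hR' e => ?_⟩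
  obtain ⟨T, t1, t2⟩ := hcl (Ψ R) (Ψ R') (by rw [← map_nsmul]; exact (hF _).1 hR)
    (by rw [← map_nsmul]; exact (hF _).1 hR') e
  refine ⟨Ψ.symm T, by rw [← map_nsmul, t1, map_zero], (hF _).2 ?_⟩
  rwa [map_sub, map_sub, Ψ.apply_symm_apply]

theorem intg_Locq : ∃ C : VariableChange ℚ, Intg (NormedField.toAbsoluteValue (PadicAlgCl q))
    ((C • W).baseChange (PadicAlgCl q)) := by
  have hq : (q : ℚ) ≠ 0 := Nat.cast_ne_zero.2 (Fact.out : q.Prime).ne_zero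
  have hlt : ‖(q : PadicAlgCl q)‖ < 1 := by
    rw [norm_nat_Locq]
    exact Padic.norm_p_lt_one
  set f := algebraMap ℚ (PadicAlgCl q) with hf
  set M : ℝ := ‖f W.a₁‖ + ‖f W.a₂‖ + ‖f W.a₃‖ + ‖f W.a₄‖ + ‖f W.a₆‖ + 1 with hM
  have hM0 : 0 < M := by positivity
  obtain ⟨n, hn⟩ := exists_pow_lt_of_lt_one (one_div_pos.2 hM0) hlt
  rw [lt_div_iff₀ hM0] at hn
  have key : ∀ (i : ℕ) (a : ℚ), i ≠ 0 → ‖f a‖ ≤ M → ‖f (((q : ℚ) ^ n) ^ i * a)‖ ≤ 1 := by
    intro i a hi ha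
    rw [map_mul, map_pow, map_pow, map_natCast, norm_mul, norm_pow, norm_pow]
    have t0 : 0 ≤ ‖(q : PadicAlgCl q)‖ ^ n := by positivity
    have t1 : (‖(q : PadicAlgCl q)‖ ^ n) ^ i ≤ ‖(q : PadicAlgCl q)‖ ^ n :=
      pow_le_of_le_one t0 (pow_le_one₀ (norm_nonneg _) hlt.le) hi
    exact (mul_le_mul t1 ha (norm_nonneg _) t0).trans hn.le
  have hw : ∀ x, NormedField.toAbsoluteValue (PadicAlgCl q) x = ‖x‖ := fun _ => rfl
  have p1 := norm_nonneg (f W.a₁)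
  have p2 := norm_nonneg (f W.a₂)
  have p3 := norm_nonneg (f W.a₃)
  have p4 := norm_nonneg (f W.a₄)
  have p6 := norm_nonneg (f W.a₆)
  refine ⟨⟨(Units.mk0 ((q : ℚ) ^ n) (pow_ne_zero _ hq))⁻¹, 0, 0, 0⟩, ?_, ?_, ?_, ?_, ?_⟩
  · have := key 1 W.a₁ (by norm_num) (by linarith)
    simpa [baseChange, variableChange_a₁, hw] using this
  · have := key 2 W.a₂ (by norm_num) (by linarith)
    simpa [baseChange, variableChange_a₂, hw] using this
  · have := key 3 W.a₃ (by norm_num) (by linarith)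
    simpa [baseChange, variableChange_a₃, hw] using this
  · have := key 4 W.a₄ (by norm_num) (by linarith)
    simpa [baseChange, variableChange_a₄, hw] using this
  · have := key 6 W.a₆ (by norm_num) (by linarith)
    simpa [baseChange, variableChange_a₆, hw] using this

end

end Pool.Agent.MP_e23604_nt.L

end

section

/-!
The index of a subgroup of the formal group in the group of local points.
-/

open WeierstrassCurve
open scoped Classical

namespace Pool.Agent.MP_e23604_nt.L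

open B

lemma cover_Idx {M ι : Type} [AddCommGroup M] [Fintype ι] (G H : M → Prop) (rel : M → ι → Prop)
    (h1 : ∀ S, G S → ∃ i, rel S i)
    (h2 : ∀ S S' i, G S → G S' → rel S i → rel S' i → H (S - S')) :
    ∃ A : Finset M, A.card ≤ Fintype.card ι ∧ (∀ a ∈ A, G a) ∧
      ∀ S, G S → ∃ a ∈ A, H (S - a) := by
  let c : {i // ∃ S, G S ∧ rel S i} → M := fun i => Classical.choose i.2
  have hc : ∀ i, G (c i) ∧ rel (c i) i.1 := fun i => Classical.choose_spec i.2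
  refine ⟨Finset.univ.image c, ?_, ?_, fun S hS => ?_⟩
  · exact Finset.card_image_le.trans (Fintype.card_subtype_le _)
  · intro a ha
    obtain ⟨i, -, rfl⟩ := Finset.mem_image.1 ha
    exact (hc i).1
  · obtain ⟨i, hi⟩ := h1 S hS
    exact ⟨c ⟨i, S, hS, hi⟩, Finset.mem_image_of_mem _ (Finset.mem_univ _),
      h2 S _ i hS (hc _).1 hi (hc ⟨i, S, hS, hi⟩).2⟩

section quant

variable {F : Type} [Field F] {v : AbsoluteValue F ℝ} {W : WeierstrassCurve F} {r : ℝ}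

lemma mul_Idx (hv : IsNonarchimedean v) {a b : F} (ha : a ∈ blocBO hv) (hb : v b < r) :
    v (a * b) < r := by
  rw [map_mul]
  exact (mul_le_of_le_one_left (v.nonneg b) ha).trans_lt hb

lemma two_Idx (hv : IsNonarchimedean v) {a b s t : F} (ha : a ∈ blocBO hv) (hb : b ∈ blocBO hv)
    (hs : v s < r) (ht : v t < r) : v (a * s + b * t) < r :=
  bLocA_add_lt hv (mul_Idx hv ha hs) (mul_Idx hv hb ht)

lemma ns_Idx (hv : IsNonarchimedean v) (hW : Intg v W) (hr : r ≤ 1) (hΔ : r ≤ v W.Δ) {x y : F}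
    (h : W.toAffine.Equation x y) (hx : v x ≤ 1)
    (s1 : v (3 * x ^ 2 + 2 * W.a₂ * x + W.a₄ - W.a₁ * y) < r)
    (s2 : v (2 * y + W.a₁ * x + W.a₃) < r) : False := by
  have a1 : W.a₁ ∈ blocBO hv := hW.1
  have a2 : W.a₂ + 3 * x ∈ blocBO hv :=
    add_mem hW.2.1 (mul_mem (ofNat_mem _ 3) (show x ∈ blocBO hv from hx))
  rw [Affine.equation_iff] at h
  have e6 : W.a₆ = y ^ 2 + W.a₁ * x * y + W.a₃ * y - (x ^ 3 + W.a₂ * x ^ 2 + W.a₄ * x) := by
    linear_combination -h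
  have key : ∀ a b s t : F, a = W.a₁ → b = W.a₂ + 3 * x →
      s = 3 * x ^ 2 + 2 * W.a₂ * x + W.a₄ - W.a₁ * y → t = 2 * y + W.a₁ * x + W.a₃ →
      W.Δ = ((a ^ 2 + 4 * b) ^ 2 * (a * t + s) - 16 * (2 * s + a * t) ^ 2 +
          18 * (a ^ 2 + 4 * b) * t ^ 2) * s +
        (-((a ^ 2 + 4 * b) ^ 2 * b * t) - 8 * a * (2 * s + a * t) ^ 2 - 27 * t ^ 3 +
          9 * (a ^ 2 + 4 * b) * a * t ^ 2) * t := by
    rintro _ _ _ _ rfl rfl rfl rfl
    simp only [Δ, b₂, b₄, b₆, b₈]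
    rw [e6]
    ring
  have e := key _ _ _ _ rfl rfl rfl rfl
  generalize W.a₂ + 3 * x = b at a2 e
  generalize 3 * x ^ 2 + 2 * W.a₂ * x + W.a₄ - W.a₁ * y = s at s1 e
  generalize 2 * y + W.a₁ * x + W.a₃ = t at s2 e
  generalize W.a₁ = a at a1 e
  have ms : s ∈ blocBO hv := s1.le.trans hr
  have mt : t ∈ blocBO hv := s2.le.trans hr
  have b2 : a ^ 2 + 4 * b ∈ blocBO hv := add_mem (pow_mem a1 2) (mul_mem (ofNat_mem _ 4) a2)
  have b4 : 2 * s + a * t ∈ blocBO hv := add_mem (mul_mem (ofNat_mem _ 2) ms) (mul_mem a1 mt)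
  have := two_Idx hv
    (add_mem (sub_mem (mul_mem (pow_mem b2 2) (add_mem (mul_mem a1 mt) ms))
      (mul_mem (ofNat_mem _ 16) (pow_mem b4 2)))
      (mul_mem (mul_mem (ofNat_mem _ 18) b2) (pow_mem mt 2)))
    (add_mem (sub_mem (sub_mem (neg_mem (mul_mem (mul_mem (pow_mem b2 2) a2) mt))
      (mul_mem (mul_mem (ofNat_mem _ 8) a1) (pow_mem b4 2)))
      (mul_mem (ofNat_mem _ 27) (pow_mem mt 3)))
      (mul_mem (mul_mem (mul_mem (ofNat_mem _ 9) b2) a1) (pow_mem mt 2))) s1 s2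
  rw [← e] at this
  exact absurd this (not_lt.2 hΔ)

lemma slope_Idx (hv : IsNonarchimedean v) (hW : Intg v W) (hr : r ≤ 1) (hΔ : r ≤ v W.Δ)
    {x y x' y' l : F} (h : W.toAffine.Equation x y) (hx : v x ≤ 1)
    (h1 : v (x' - x) < r) (h2 : v (y' - y) < r)
    (ea : l * (x' - x) = y' + y + W.a₁ * x + W.a₃)
    (eb : l * (y' - y + W.a₁ * (x' - x)) = x' ^ 2 + x' * x + x ^ 2 + W.a₂ * (x' + x) + W.a₄ +
      W.a₁ * (y + W.a₁ * x + W.a₃)) : 1 < v (W.toAffine.addX x' x l) := by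
  have a1 : W.a₁ ∈ blocBO hv := hW.1
  have a2 : W.a₂ ∈ blocBO hv := hW.2.1
  have mx : x ∈ blocBO hv := hx
  have mx' : x' ∈ blocBO hv := by
    have := add_mem (show x' - x ∈ blocBO hv from h1.le.trans hr) mx
    rwa [sub_add_cancel] at this
  have hl : 1 < v l := by
    by_contra hc
    have ml : l ∈ blocBO hv := not_lt.1 hc
    have e1 : 2 * y + W.a₁ * x + W.a₃ = l * (x' - x) + -1 * (y' - y) := by
      linear_combination -ea
    have s1 : v (2 * y + W.a₁ * x + W.a₃) < r := by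
      rw [e1]
      exact two_Idx hv ml (neg_mem (one_mem _)) h1 h2
    have e2 : 3 * x ^ 2 + 2 * W.a₂ * x + W.a₄ - W.a₁ * y =
        (l * W.a₁ - (x' + x + x) - W.a₂) * (x' - x) + l * (y' - y) +
          -W.a₁ * (2 * y + W.a₁ * x + W.a₃) := by
      linear_combination -eb
    have s2 : v (3 * x ^ 2 + 2 * W.a₂ * x + W.a₄ - W.a₁ * y) < r := by
      rw [e2]
      exact bLocA_add_lt hv (two_Idx hv (sub_mem (sub_mem (mul_mem ml a1)
        (add_mem (add_mem mx' mx) mx)) a2) ml h1 h2) (mul_Idx hv (neg_mem a1) s1)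
    exact ns_Idx hv hW hr hΔ h hx s2 s1
  by_contra hc
  have ma : W.toAffine.addX x' x l ∈ blocBO hv := not_lt.1 hc
  have l0 : l ≠ 0 := fun h => by
    rw [h, map_zero] at hl
    linarith
  have li : v l⁻¹ < 1 := by
    rw [map_inv₀]
    exact inv_lt_one_of_one_lt₀ hl
  have mi : l⁻¹ ∈ blocBO hv := li.le
  have e : (1 : F) = ((W.toAffine.addX x' x l + W.a₂ + x' + x) * l⁻¹ - W.a₁) * l⁻¹ := by
    rw [Affine.addX]
    field_simp
    ring
  have s := blocB_mul hv (sub_mem (mul_mem (add_mem (add_mem (add_mem ma a2) mx') mx) mi) a1) li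
  rw [← e, map_one] at s
  exact lt_irrefl _ s

lemma close_Idx (hv : IsNonarchimedean v) (hW : Intg v W) (hr : r ≤ 1) (hΔ : r ≤ v W.Δ)
    {x y x' y' : F} (h : W.toAffine.Nonsingular x y) (h' : W.toAffine.Nonsingular x' y')
    (hx : v x ≤ 1) (h1 : v (x' - x) < r) (h2 : v (y' - y) < r) :
    E1 v (Affine.Point.some x' y' h' - Affine.Point.some x y h) := by
  rw [sub_eq_add_neg, Affine.Point.neg_some]
  by_cases hxy : x' = x ∧ y' = W.toAffine.negY x (W.toAffine.negY x y)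
  · rw [Affine.Point.add_of_Y_eq hxy.1 hxy.2]
    exact E1_zero v
  rw [Affine.Point.add_some hxy, E1_some]
  have q := (Affine.equation_iff _ _).1 h.1
  have q' := (Affine.equation_iff _ _).1 h'.1
  by_cases e : x' = x
  · have e1 : y' ≠ W.toAffine.negY x (W.toAffine.negY x y) := fun h3 => hxy ⟨e, h3⟩
    have e2 : y' ≠ y := by rwa [Affine.negY_negY] at e1
    have e3 : y' = W.toAffine.negY x y := (Affine.Y_eq_of_X_eq h'.1 h.1 e).resolve_left e2
    have e4 : W.toAffine.negY x' y' = y := by rw [e, e3, Affine.negY_negY]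
    have e5 : y' - y ≠ 0 := sub_ne_zero.2 e2
    rw [Affine.negY] at e3
    refine slope_Idx hv hW hr hΔ h.1 hx h1 h2 ?_ ?_
    · rw [e]
      linear_combination -e3
    · rw [Affine.slope_of_Y_ne e e1, e4, e, sub_self, mul_zero, add_zero, div_mul_cancel₀ _ e5]
      linear_combination -W.a₁ * e3
  · have e5 : x' - x ≠ 0 := sub_ne_zero.2 e
    refine slope_Idx hv hW hr hΔ h.1 hx h1 h2 ?_ ?_
    · rw [Affine.slope_of_X_ne e, div_mul_cancel₀ _ e5, Affine.negY]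
      ring
    · rw [Affine.slope_of_X_ne e, div_mul_eq_mul_div, div_eq_iff e5, Affine.negY]
      linear_combination q' - q

lemma sub_Idx (hv : IsNonarchimedean v) (hW : Intg v W) {P Q : W.toAffine.Point} (hP : E1 v P)
    (hQ : E1 v Q) (h0 : 0 ≤ r) (h1 : v (zz P) ≤ r) (h2 : v (zz Q) ≤ r) :
    E1 v (P - Q) ∧ v (zz (P - Q) - (zz P - zz Q)) ≤ r ^ 2 := by
  obtain ⟨n1, n2⟩ := E1_neg hv hW hQ
  obtain ⟨a1, a2⟩ := E1_add hv hW hP n1
  rw [← sub_eq_add_neg] at a1 a2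
  have hq := E1_lt hv hW hQ
  have hq0 := v.nonneg (zz Q)
  have n3 : v (zz (-Q) + zz Q) ≤ r ^ 2 := n2.trans (pow_le_pow_left₀ hq0 h2 2)
  have n4 : v (zz (-Q)) ≤ r := by
    have : v (zz (-Q) + zz Q - zz Q) ≤ r :=
      bLocA_sub_le hv (n2.trans (by nlinarith)) h2
    rwa [add_sub_cancel_right] at this
  refine ⟨a1, ?_⟩
  have a3 : v (zz (P - Q) - zz P - zz (-Q)) ≤ r ^ 2 :=
    a2.trans (pow_le_pow_left₀ (le_max_of_le_left (v.nonneg _)) (max_le h1 n4) 2)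
  have := bLocA_add_le hv a3 n3
  rwa [show zz (P - Q) - zz P - zz (-Q) + (zz (-Q) + zz Q) = zz (P - Q) - (zz P - zz Q) by ring]
    at this

end quant

section padic

variable {q : ℕ} [Fact q.Prime]

lemma qpos_Idx : (1 : ℝ) < q := by exact_mod_cast (Fact.out : q.Prime).one_lt

lemma appr_Idx {z : PadicAlgCl q} (hz : z ∈ (algebraMap ℚ_[q] (PadicAlgCl q)).range) (i n : ℕ)
    (h : ‖z‖ * q ^ i ≤ 1) : ∃ m : Fin (q ^ n), ‖z - (m : ℕ) * q ^ i‖ * q ^ (i + n) ≤ 1 := by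
  obtain ⟨t, rfl⟩ := hz
  have hq : (0 : ℝ) < q := zero_lt_one.trans qpos_Idx
  have hq' : (q : ℚ_[q]) ≠ 0 := Nat.cast_ne_zero.2 (Fact.out : q.Prime).ne_zero
  rw [norm_algebraMap'] at h
  have hn : ‖(q : ℚ_[q]) ^ i‖ = ((q : ℝ) ^ i)⁻¹ := by rw [norm_pow, Padic.norm_p, inv_pow]
  have hu : ‖t / (q : ℚ_[q]) ^ i‖ ≤ 1 := by rw [norm_div, hn, div_inv_eq_mul]; exact h
  let u : ℤ_[q] := ⟨t / (q : ℚ_[q]) ^ i, hu⟩
  refine ⟨⟨u.appr n, u.appr_lt n⟩, ?_⟩
  have h1 := ((u - u.appr n).norm_le_pow_iff_mem_span_pow n).2 (u.appr_spec n)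
  have h2 : ‖t / (q : ℚ_[q]) ^ i - (u.appr n : ℚ_[q])‖ ≤ ((q : ℝ) ^ n)⁻¹ := by
    rw [zpow_neg, zpow_natCast] at h1
    simpa [PadicInt.norm_def, u] using h1
  have e : algebraMap ℚ_[q] (PadicAlgCl q) t - (u.appr n : ℕ) * (q : PadicAlgCl q) ^ i =
      algebraMap ℚ_[q] (PadicAlgCl q)
        ((t / (q : ℚ_[q]) ^ i - (u.appr n : ℚ_[q])) * (q : ℚ_[q]) ^ i) := by
    rw [sub_mul, div_mul_cancel₀ _ (pow_ne_zero _ hq'), map_sub, map_mul, map_pow, map_natCast,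
      map_natCast]
  show ‖algebraMap ℚ_[q] (PadicAlgCl q) t - (u.appr n : ℕ) * (q : PadicAlgCl q) ^ i‖ *
    (q : ℝ) ^ (i + n) ≤ 1
  rw [e, norm_algebraMap', norm_mul, hn, pow_add]
  calc _ = ‖t / (q : ℚ_[q]) ^ i - (u.appr n : ℚ_[q])‖ * (q : ℝ) ^ n := by field_simp
    _ ≤ ((q : ℝ) ^ n)⁻¹ * (q : ℝ) ^ n := by gcongr
    _ = 1 := inv_mul_cancel₀ (by positivity)

lemma disc_Idx {z : PadicAlgCl q} (hz : z ∈ (algebraMap ℚ_[q] (PadicAlgCl q)).range)
    (h : ‖z‖ < 1) : ‖z‖ * q ^ 1 ≤ 1 := by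
  obtain ⟨t, rfl⟩ := hz
  have hq : (0 : ℝ) < q := zero_lt_one.trans qpos_Idx
  rw [norm_algebraMap'] at h ⊢
  have h1 := (Padic.norm_le_pow_iff_norm_lt_pow_add_one t (-1)).2 (by simpa using h)
  rw [zpow_neg_one] at h1
  calc ‖t‖ * (q : ℝ) ^ 1 ≤ (q : ℝ)⁻¹ * q ^ 1 := by gcongr
    _ = 1 := by rw [pow_one, inv_mul_cancel₀ hq.ne']

variable {W : WeierstrassCurve ℚ}

lemma fx_sub_Idx {S S' : Pts W (PadicAlgCl q)} (h : Fx W q S) (h' : Fx W q S') :
    Fx W q (S - S') := fun σ => by rw [map_sub, h σ, h' σ]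

lemma fx_xy_Idx {x y : PadicAlgCl q}
    {h : (W.baseChange (PadicAlgCl q)).toAffine.Nonsingular x y} (hF : Fx W q (.some x y h)) :
    x ∈ (algebraMap ℚ_[q] (PadicAlgCl q)).range ∧ y ∈ (algebraMap ℚ_[q] (PadicAlgCl q)).range := by
  have key : ∀ σ : PadicAlgCl q ≃ₐ[ℚ_[q]] PadicAlgCl q, σ x = x ∧ σ y = y := by
    intro σ
    obtain ⟨h', e⟩ := BSel_act_some W (σ : PadicAlgCl q →+* PadicAlgCl q) h
    have := e.symm.trans (hF σ)
    exact (Affine.Point.some.injEq _ _ _ _ _ _).mp this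
  exact ⟨(InfiniteGalois.mem_range_algebraMap_iff_fixed x).2 fun σ => (key σ).1,
    (InfiniteGalois.mem_range_algebraMap_iff_fixed y).2 fun σ => (key σ).2⟩

lemma fx_zz_Idx {S : Pts W (PadicAlgCl q)} (hF : Fx W q S) :
    zz S ∈ (algebraMap ℚ_[q] (PadicAlgCl q)).range := by
  rcases S with _ | ⟨x, y, h⟩
  · exact zero_mem _
  · obtain ⟨⟨a, ha⟩, ⟨b, hb⟩⟩ := fx_xy_Idx hF
    exact ⟨-a / b, by rw [map_div₀, map_neg, ha, hb]; rfl⟩

lemma le_inv_Idx {a : ℝ} {n : ℕ} : a * q ^ n ≤ 1 ↔ a ≤ ((q : ℝ) ^ n)⁻¹ := by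
  have hq : (0 : ℝ) < q := zero_lt_one.trans qpos_Idx
  rw [← one_div, le_div_iff₀ (by positivity)]

end padic

theorem idx_st : IDX_st := by
  intro W _ q _ j k hW hΔ
  set w := NormedField.toAbsoluteValue (PadicAlgCl q) with hw
  have hv : IsNonarchimedean w := fun x y => IsUltrametricDist.norm_add_le_max x y
  have hq1 : (1 : ℝ) < q := qpos_Idx
  have hq : (0 : ℝ) < q := zero_lt_one.trans hq1
  suffices H : ∃ A : Finset (Pts W (PadicAlgCl q)), A.card ≤ (q ^ (2 * k + 2) + 1) * q ^ j ∧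
      ∀ S, Fx W q S → ∃ a ∈ A, Fx W q (S - a) ∧ E1 w (S - a) ∧
        ‖zz (S - a)‖ * q ^ (j + 1) ≤ 1 by
    obtain ⟨A, h1, h2⟩ := H
    refine ⟨A, h1, fun S hS => ?_⟩
    obtain ⟨a, ha, h3⟩ := h2 S hS
    exact ⟨a, ha, h3.2⟩
  induction j with
  | zero =>
    obtain ⟨A, h1, -, h2⟩ := cover_Idx (ι := Option (Fin (q ^ (k + 1)) × Fin (q ^ (k + 1))))
      (Fx W q) (fun S => Fx W q S ∧ E1 w S ∧ ‖zz S‖ * q ^ (0 + 1) ≤ 1)
      (fun S i => match i with
        | none => E1 w S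
        | some m => ∃ x y h, S = .some x y h ∧ ‖x‖ ≤ 1 ∧
            ‖x - (m.1 : ℕ) * q ^ 0‖ * q ^ (0 + (k + 1)) ≤ 1 ∧
            ‖y - (m.2 : ℕ) * q ^ 0‖ * q ^ (0 + (k + 1)) ≤ 1)
      (fun S hS => by
        rcases S with _ | ⟨x, y, h⟩
        · exact ⟨none, E1_zero w⟩
        · by_cases hx : 1 < w x
          · exact ⟨none, hx⟩
          · have hx' : ‖x‖ ≤ 1 := not_lt.1 hx
            have hy' : ‖y‖ ≤ 1 := y_le hv hW h.1 hx'
            obtain ⟨m, hm⟩ := appr_Idx (fx_xy_Idx hS).1 0 (k + 1) (by simpa using hx')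
            obtain ⟨n, hn⟩ := appr_Idx (fx_xy_Idx hS).2 0 (k + 1) (by simpa using hy')
            exact ⟨some (m, n), x, y, h, rfl, hx', hm, hn⟩)
      (fun S S' i hS hS' r1 r2 => by
        have hF := fx_sub_Idx hS hS'
        have hE : E1 w (S - S') := by
          rcases i with _ | m
          · exact (sub_Idx hv hW r1 r2 zero_le_one (E1_lt hv hW r1).le (E1_lt hv hW r2).le).1
          · obtain ⟨x', y', h', rfl, -, a1, a2⟩ := r1
            obtain ⟨x, y, h, rfl, hx, b1, b2⟩ := r2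
            rw [le_inv_Idx] at a1 a2 b1 b2
            have hlt : ((q : ℝ) ^ (0 + (k + 1)))⁻¹ < ((q : ℝ) ^ k)⁻¹ :=
              inv_strictAnti₀ (by positivity) (pow_lt_pow_right₀ hq1 (by omega))
            refine close_Idx (r := ((q : ℝ) ^ k)⁻¹) hv hW
              (inv_le_one_of_one_le₀ (one_le_pow₀ hq1.le)) ?_ h h' hx ?_ ?_
            · rw [← one_div, div_le_iff₀ (by positivity)]
              exact hΔ
            · have := bLocA_sub_le hv (a := x' - _) (b := x - _) a1 b1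
              rw [sub_sub_sub_cancel_right] at this
              exact this.trans_lt hlt
            · have := bLocA_sub_le hv (a := y' - _) (b := y - _) a2 b2
              rw [sub_sub_sub_cancel_right] at this
              exact this.trans_lt hlt
        exact ⟨hF, hE, disc_Idx (fx_zz_Idx hF) (E1_lt hv hW hE)⟩)
    refine ⟨A, h1.trans (le_of_eq ?_), h2⟩
    rw [Fintype.card_option, Fintype.card_prod, Fintype.card_fin]
    ring
  | succ j ih =>
    obtain ⟨A, h1, h2⟩ := ih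
    obtain ⟨B, h3, -, h4⟩ := cover_Idx (ι := Fin (q ^ 1))
      (fun S => Fx W q S ∧ E1 w S ∧ ‖zz S‖ * q ^ (j + 1) ≤ 1)
      (fun S => Fx W q S ∧ E1 w S ∧ ‖zz S‖ * q ^ (j + 1 + 1) ≤ 1)
      (fun S m => ‖zz S - (m : ℕ) * q ^ (j + 1)‖ * q ^ (j + 1 + 1) ≤ 1)
      (fun S hS => appr_Idx (fx_zz_Idx hS.1) (j + 1) 1 hS.2.2)
      (fun S S' m hS hS' r1 r2 => by
        obtain ⟨e1, e2⟩ := sub_Idx (r := ((q : ℝ) ^ (j + 1))⁻¹) hv hW hS.2.1 hS'.2.1
          (by positivity) (le_inv_Idx.1 hS.2.2) (le_inv_Idx.1 hS'.2.2)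
        refine ⟨fx_sub_Idx hS.1 hS'.1, e1, ?_⟩
        rw [le_inv_Idx] at r1 r2 ⊢
        have e3 := bLocA_sub_le hv (a := zz S - _) (b := zz S' - _) r1 r2
        rw [sub_sub_sub_cancel_right] at e3
        have e4 : (((q : ℝ) ^ (j + 1))⁻¹) ^ 2 ≤ ((q : ℝ) ^ (j + 1 + 1))⁻¹ := by
          rw [inv_pow, ← pow_mul]
          exact inv_anti₀ (by positivity) (pow_le_pow_right₀ hq1.le (by omega))
        have e5 := bLocA_add_le hv (e2.trans e4) e3
        rwa [sub_add_cancel] at e5)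
    refine ⟨Finset.image₂ (· + ·) A B, ?_, fun S hS => ?_⟩
    · refine (Finset.card_image₂_le _ _ _).trans ?_
      rw [Fintype.card_fin, pow_one] at h3
      rw [pow_succ q j, ← mul_assoc]
      exact Nat.mul_le_mul h1 h3
    · obtain ⟨a, ha, h5⟩ := h2 S hS
      obtain ⟨b, hb, h6⟩ := h4 _ h5
      refine ⟨a + b, Finset.mem_image₂_of_mem ha hb, ?_⟩
      rwa [sub_sub] at h6

end Pool.Agent.MP_e23604_nt.L

end
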