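import Pool.Agent.MP_e23604_nt.Eis
import Pool.Agent.Mg.Fe23604m.G0fbe18
import Pool.Agent.MP_e23604_nt.Curve
import Pool.Agent.Mg.Fe23604m.G5224b9
import Pool.Agent.MP_e23604_nt.BLocB
import Pool.Agent.Mg.Fe23604m.G4a1d09

set_option linter.all false

section

/-! The Eisenstein integers are a Euclidean domain. -/

set_option autoImplicit false

namespace Pool.Agent.MP_e23604_nt.W

/-- rounding to a nearest integer -/
def rd (x n : ℤ) : ℤ := (2 * x + n) / (2 * n)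

theorem rd_spec (x : ℤ) {n : ℤ} (hn : 0 < n) :
    -n ≤ 2 * (x - rd x n * n) ∧ 2 * (x - rd x n * n) ≤ n := by
  have h1 := Int.emod_nonneg (2 * x + n) (b := 2 * n) (by omega)
  have h2 := Int.emod_lt_of_pos (2 * x + n) (b := 2 * n) (by omega)
  have h3 := Int.mul_ediv_add_emod (2 * x + n) (2 * n)
  unfold rd
  constructor <;> nlinarith

/-- the quotient -/
def qw (a b : Zw) : Zw := ⟨rd (a * star b).re (nw b), rd (a * star b).im (nw b)⟩

theorem nw_pos {b : Zw} (hb : b ≠ 0) : 0 < nw b :=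
  lt_of_le_of_ne (nw_nonneg b) fun e => hb (nw_eq_zero e.symm)

theorem rem_lt (a : Zw) {b : Zw} (hb : b ≠ 0) : nw (a - b * qw a b) < nw b := by
  have hn := nw_pos hb
  obtain ⟨h1, h2⟩ := rd_spec (a * star b).re hn
  obtain ⟨h3, h4⟩ := rd_spec (a * star b).im hn
  have e : (a - b * qw a b) * star b = a * star b - qw a b * (nw b : Zw) := by
    rw [← mul_star_eq]
    ring
  have e1 : nw (a - b * qw a b) * nw b = ((a * star b).re - rd (a * star b).re (nw b) * nw b) ^ 2 -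
      ((a * star b).re - rd (a * star b).re (nw b) * nw b) *
        ((a * star b).im - rd (a * star b).im (nw b) * nw b) +
      ((a * star b).im - rd (a * star b).im (nw b) * nw b) ^ 2 := by
    conv_lhs => rw [← nw_star b, ← nw_mul, e, nw_def]
    simp [qw]
  generalize (a * star b).re - rd (a * star b).re (nw b) * nw b = u at *
  generalize (a * star b).im - rd (a * star b).im (nw b) * nw b = v at *
  refine lt_of_mul_lt_mul_right ?_ hn.le
  rw [e1]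
  nlinarith [mul_nonneg (sub_nonneg.2 h1) (sub_nonneg.2 h2),
    mul_nonneg (sub_nonneg.2 h3) (sub_nonneg.2 h4), mul_nonneg (sub_nonneg.2 h1) (sub_nonneg.2 h3),
    mul_nonneg (sub_nonneg.2 h2) (sub_nonneg.2 h4), mul_pos hn hn]

instance instEuclideanDomainZw : EuclideanDomain Zw :=
  { (inferInstance : CommRing Zw), (inferInstance : Nontrivial Zw) with
    quotient := qw
    quotient_zero := fun a => by ext <;> simp [qw, rd]
    remainder := fun a b => a - b * qw a b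
    quotient_mul_add_remainder_eq := fun a b => by ring
    r := fun a b => (nw a).natAbs < (nw b).natAbs
    r_wellFounded := (measure fun a : Zw => (nw a).natAbs).wf
    remainder_lt := fun a b hb => by
      have := rem_lt a hb
      have := nw_nonneg (a - b * qw a b)
      omega
    mul_left_not_lt := fun a b hb => by
      have h1 := nw_pos hb
      have h2 := nw_nonneg a
      have h3 : nw a ≤ nw (a * b) := by rw [nw_mul]; nlinarith
      omega }

end Pool.Agent.MP_e23604_nt.W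

end

section

/-!
The curve `y ^ 2 + y = x ^ 3` as a module over the Eisenstein integers.
-/

set_option autoImplicit false

open Finset QuadraticAlgebra
open scoped Classical

namespace Pool.Agent.MP_e23604_nt.W

open B R S

theorem ww : (ω : Zw) ^ 2 + ω + 1 = 0 := by decide

theorem www : (ω : Zw) ^ 3 = 1 := by decide

theorem Zw_eq (b : Zw) : b = (b.re : Zw) + (b.im : Zw) * ω := by ext <;> simp

/-- the norm as a natural number -/
def nn (b : Zw) : ℕ := (nw b).natAbs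

theorem nn_cast (b : Zw) : (nn b : ℤ) = nw b := Int.natAbs_of_nonneg (nw_nonneg b)

theorem nn_mul (a b : Zw) : nn (a * b) = nn a * nn b := by rw [nn, nw_mul, Int.natAbs_mul]; rfl

theorem nn_pos {b : Zw} (h : b ≠ 0) : 0 < nn b := Int.natAbs_pos.2 (nw_pos h).ne'

theorem mul_star_nn (b : Zw) : b * star b = (nn b : Zw) := by
  rw [mul_star_eq, ← nn_cast, Int.cast_natCast]

/-- the square root of `-3` -/
def pw : Zw := 1 + 2 * ω

theorem pw_sq : pw ^ 2 = -3 := by decide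

/-- the embedding of the Eisenstein integers -/
noncomputable def io : Zw →+* Qb :=
  (QuadraticAlgebra.lift (R := ℤ) ⟨w3, by
    simp only [neg_smul, one_smul]; linear_combination w3_spec⟩ : Zw →ₐ[ℤ] Qb)

theorem io_apply (b : Zw) : io b = b.re + b.im * w3 := by
  simp [io, QuadraticAlgebra.lift]

theorem io_w : io ω = w3 := by simp [io_apply]

theorem io_fix {g : GQ} (hg : g ∈ GK) (b : Zw) : g (io b) = io b := by
  simp [io_apply, mem_GK'.1 hg]

theorem io_ne {b : Zw} (h : b ≠ 0) : io b ≠ 0 := fun e => by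
  have := congrArg io (mul_star_nn b)
  rw [map_mul, e, zero_mul, map_natCast] at this
  exact (nn_pos h).ne' (by exact_mod_cast this.symm)

theorem io_inj : Function.Injective io :=
  (injective_iff_map_eq_zero io).2 fun _ h => by_contra fun e => io_ne e h

/-- the points of the curve -/
abbrev Pt : Type := Pts (E3 0 1) Qb

/-- the curve over the algebraic closure -/
noncomputable abbrev EQ : WeierstrassCurve Qb := (E3 0 1).baseChange Qb

theorem G01 : Good 0 1 := ⟨one_ne_zero, by norm_num⟩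

instance ellEQ : EQ.IsElliptic := by
  have : (E3 0 1).IsElliptic := ⟨by rw [E3_Δ]; norm_num⟩
  exact inferInstanceAs ((E3 0 1).map _).IsElliptic

theorem on_iff {x y : Qb} : On 0 1 x y ↔ y ^ 2 + y = x ^ 3 := by simp [On]

theorem on_w {x y : Qb} (h : On 0 1 x y) : On 0 1 (w3 * x) y := by
  rw [on_iff] at *
  linear_combination h - x ^ 3 * w3_cube

theorem ex_Jw : ∃ J : Pt →+ Pt, ∀ x y, On 0 1 x y → J (pt 0 1 x y) = pt 0 1 (w3 * x) y := by
  let C : WeierstrassCurve.VariableChange Qb := ⟨Units.mk0 w3 w3_ne_zero, 0, 0, 0⟩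
  have hC : C • EQ = EQ := by
    ext <;> simp [C, E3, WeierstrassCurve.baseChange, WeierstrassCurve.variableChange_a₁,
      WeierstrassCurve.variableChange_a₂, WeierstrassCurve.variableChange_a₃,
      WeierstrassCurve.variableChange_a₄, WeierstrassCurve.variableChange_a₆, w3_cube]
  obtain ⟨Ψ, hΨ⟩ := vc_equiv _ _ C hC
  refine ⟨Ψ, fun x y h => ?_⟩
  obtain ⟨h', e⟩ := hΨ x y ((ns_iff G01 x y).2 h)
  rw [pt_eq G01 h, pt_eq G01 (on_w h)]
  refine e.trans ?_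
  have e1 : (x - C.r) / (C.u : Qb) ^ 2 = w3 * x := by
    simp only [C, sub_zero, Units.val_mk0]
    rw [div_eq_iff (pow_ne_zero _ w3_ne_zero)]
    linear_combination -x * w3_cube
  have e2 : (y - C.s * (x - C.r) - C.t) / (C.u : Qb) ^ 3 = y := by
    simp only [C, sub_zero, Units.val_mk0, zero_mul, w3_cube, div_one]
  simp only [e1, e2]

/-- the automorphism of order three -/
noncomputable def Jw : Module.End ℤ Pt := ex_Jw.choose.toIntLinearMap

theorem Jw_pt {x y : Qb} (h : On 0 1 x y) : Jw (pt 0 1 x y) = pt 0 1 (w3 * x) y :=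
  ex_Jw.choose_spec x y h

/-- the point `(0, 0)` of order three -/
noncomputable def T0 : Pt := T 0 1 Qb

theorem Jw_sq (u : Pt) : Jw (Jw u) + Jw u + u = 0 := by
  rcases pt_cases G01 u with rfl | ⟨x, y, h, rfl⟩
  · simp
  by_cases hx : x = 0
  · subst hx
    have hT : Jw (T 0 1 Qb) = T 0 1 Qb := by rw [T, Jw_pt on_T, mul_zero]
    have h3 : T 0 1 Qb + T 0 1 Qb + T 0 1 Qb = 0 := by rw [T_add_T G01, neg_add_cancel]
    have : y * (y + (1 : ℚ)) = 0 := by unfold On at h; linear_combination h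
    rcases mul_eq_zero.1 this with h1 | h1
    · rw [show pt 0 1 0 y = T 0 1 Qb by rw [h1]; rfl, hT, hT, h3]
    · rw [show pt 0 1 0 y = -T 0 1 Qb by rw [neg_T G01, eq_neg_of_add_eq_zero_left h1], map_neg, hT,
        map_neg, hT, ← neg_add, ← neg_add, h3, neg_zero]
  rw [Jw_pt h, Jw_pt (on_w h), add_eq_zero_iff_eq_neg, pt_neg G01 h]
  refine (pt_add_ne G01 (l := 0) (on_w (on_w h)) (on_w h) (fun e => ?_) (by ring) ?_
    (by ring)).2
  · exact mul_ne_zero (sub_ne_zero.2 w3_ne_one) (mul_ne_zero w3_ne_zero hx)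
      (by linear_combination e)
  · linear_combination x * w3_spec

/-- the action of the Eisenstein integers -/
noncomputable def cm : Zw →+* Module.End ℤ Pt :=
  (QuadraticAlgebra.lift (R := ℤ) ⟨Jw, LinearMap.ext fun u => by
    have := Jw_sq u
    simp only [neg_smul, one_smul, Module.End.mul_apply, LinearMap.add_apply, LinearMap.neg_apply,
      Module.End.one_apply]
    linear_combination (norm := abel) this⟩ : Zw →ₐ[ℤ] Module.End ℤ Pt)

noncomputable instance modPt : Module Zw Pt := Module.compHom Pt cm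

theorem smul_def (b : Zw) (P : Pt) : b • P = b.re • P + b.im • Jw P := by
  change cm b P = _
  simp [cm, QuadraticAlgebra.lift]

theorem w_smul (P : Pt) : (ω : Zw) • P = Jw P := by simp [smul_def]

theorem w_pt {x y : Qb} (h : On 0 1 x y) : (ω : Zw) • pt 0 1 x y = pt 0 1 (w3 * x) y := by
  rw [w_smul, Jw_pt h]

/-- the first coordinate -/
noncomputable def xc : Pt → Qb
  | .zero => 0
  | .some x _ _ => x

/-- the second coordinate -/
noncomputable def yc : Pt → Qb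
  | .zero => 0
  | .some _ y _ => y

@[simp] theorem xc_zero : xc 0 = 0 := rfl

@[simp] theorem yc_zero : yc 0 = 0 := rfl

theorem xc_pt {x y : Qb} (h : On 0 1 x y) : xc (pt 0 1 x y) = x := by rw [pt_eq G01 h]; rfl

theorem yc_pt {x y : Qb} (h : On 0 1 x y) : yc (pt 0 1 x y) = y := by rw [pt_eq G01 h]; rfl

theorem on_xy {P : Pt} (h : P ≠ 0) : On 0 1 (xc P) (yc P) ∧ P = pt 0 1 (xc P) (yc P) := by
  rcases pt_cases G01 P with rfl | ⟨x, y, h', rfl⟩
  · exact absurd rfl h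
  · rw [xc_pt h', yc_pt h']
    exact ⟨h', rfl⟩

theorem xc_w (P : Pt) : xc ((ω : Zw) • P) = w3 * xc P ∧ yc ((ω : Zw) • P) = yc P := by
  rcases pt_cases G01 P with rfl | ⟨x, y, h, rfl⟩
  · simp
  · rw [w_pt h, xc_pt h, xc_pt (on_w h), yc_pt h, yc_pt (on_w h)]
    exact ⟨rfl, rfl⟩

theorem xc_neg (P : Pt) : xc (-P) = xc P ∧ (P ≠ 0 → yc (-P) = -yc P - 1) := by
  rcases pt_cases G01 P with rfl | ⟨x, y, h, rfl⟩
  · simp
  · rw [pt_neg G01 h, xc_pt h, xc_pt h.neg, yc_pt h, yc_pt h.neg]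
    simp

theorem zz_eq (P : Pt) : zz P = -xc P / yc P := by
  rcases P with _ | ⟨x, y, h⟩
  · exact (div_zero _).symm
  · rfl

theorem E1_iff (v : AbsoluteValue Qb ℝ) (P : Pt) : E1 v P ↔ P = 0 ∨ 1 < v (xc P) := by
  rcases P with _ | ⟨x, y, h⟩
  · exact iff_of_true trivial (Or.inl rfl)
  · exact (or_iff_right (WeierstrassCurve.Affine.Point.some_ne_zero h)).symm

theorem intg_EQ (v : AbsoluteValue Qb ℝ) : Intg v EQ := by
  simp [Intg, E3, WeierstrassCurve.baseChange]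

theorem T0_ne : T0 ≠ 0 := T_ne_zero G01

theorem xc_T0 : xc T0 = 0 ∧ yc T0 = 0 := ⟨xc_pt on_T, yc_pt on_T⟩

theorem w_T0 : (ω : Zw) • T0 = T0 := by rw [T0, T, w_pt on_T, mul_zero]

/-- the Galois action -/
noncomputable def gal (g : GQ) : Pt →+ Pt := galQ (E3 0 1) g

theorem gal_pt (g : GQ) {x y : Qb} (h : On 0 1 x y) : gal g (pt 0 1 x y) = pt 0 1 (g x) (g y) :=
  act_pt G01 (g : Qb →+* Qb) h

theorem gal_one (P : Pt) : gal 1 P = P := BSel_gal_one _ P

theorem gal_mul (g h : GQ) (P : Pt) : gal (g * h) P = gal g (gal h P) := BSel_gal_mul _ g h P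

theorem gal_inj (g : GQ) : Function.Injective (gal g) := fun P Q h => by
  rw [← gal_one P, ← gal_one Q, ← inv_mul_cancel g, gal_mul, gal_mul, h]

theorem xc_gal (g : GQ) (P : Pt) : xc (gal g P) = g (xc P) ∧ yc (gal g P) = g (yc P) := by
  rcases pt_cases G01 P with rfl | ⟨x, y, h, rfl⟩
  · simp
  · rw [gal_pt g h, xc_pt h, yc_pt h]
    exact ⟨xc_pt (h.map (g : Qb →+* Qb)), yc_pt (h.map (g : Qb →+* Qb))⟩

theorem zz_gal (g : GQ) (P : Pt) : zz (gal g P) = g (zz P) := by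
  rw [zz_eq, zz_eq, (xc_gal g P).1, (xc_gal g P).2, map_div₀, map_neg]

theorem gal_T0 (g : GQ) : gal g T0 = T0 := by rw [T0, T, gal_pt g on_T, map_zero]

theorem gal_smul {g : GQ} (hg : g ∈ GK) (b : Zw) (P : Pt) : gal g (b • P) = b • gal g P := by
  have : gal g (Jw P) = Jw (gal g P) := by
    rcases pt_cases G01 P with rfl | ⟨x, y, h, rfl⟩
    · simp
    · rw [Jw_pt h, gal_pt g h, gal_pt g (on_w h), map_mul, mem_GK'.1 hg]
      exact (Jw_pt (h.map (g : Qb →+* Qb))).symm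
  rw [smul_def, smul_def, map_add, map_zsmul, map_zsmul, this]

theorem gal_lc (P : Pt) : Lc ⊤ fun g => gal g P := by
  obtain ⟨N, h1, h2⟩ := exists_ON_fix {xc P, yc P}
  refine ⟨N, h1, fun g _ h _ e => ?_⟩
  by_cases h0 : P = 0
  · simp [h0]
  have : gal (g⁻¹ * h) P = P := by
    rw [(on_xy h0).2, gal_pt _ (on_xy h0).1, h2 _ (by simp) _ e, h2 _ (by simp) _ e]
  show gal g P = gal h P
  rw [← mul_inv_cancel_left g h, gal_mul g, this]

theorem fin_tor {b : Zw} (h : b ≠ 0) : {P : Pt | b • P = 0}.Finite := by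
  have h1 := btors_card EQ (nn_pos h)
  have : Finite {P : Pt // nn b • P = 0} :=
    Nat.finite_of_card_ne_zero (h1 ▸ (pow_pos (nn_pos h) 2).ne')
  refine Set.Finite.subset (s := {P : Pt | nn b • P = 0}) this fun P hP => ?_
  change nn b • P = 0
  rw [← Nat.cast_smul_eq_nsmul Zw, ← mul_star_nn, mul_comm, mul_smul, show b • P = 0 from hP,
    smul_zero]

/-- the points killed by `b` -/
noncomputable def tor (b : Zw) : Finset Pt := if h : b = 0 then ∅ else (fin_tor h).toFinset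

theorem mem_tor {b : Zw} (h : b ≠ 0) {P : Pt} : P ∈ tor b ↔ b • P = 0 := by
  rw [tor, dif_neg h, Set.Finite.mem_toFinset]
  rfl

theorem smul_onto {b : Zw} (h : b ≠ 0) (P : Pt) : ∃ Q, b • Q = P := by
  obtain ⟨Q, rfl⟩ := smul_surj (W := EQ) (nn_pos h) P
  exact ⟨star b • Q, by rw [← mul_smul, mul_star_nn, Nat.cast_smul_eq_nsmul]⟩

end Pool.Agent.MP_e23604_nt.W

end

section

/-!
Definitions for the Euler system of elliptic units of `y ^ 2 + y = x ^ 3`.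
-/

set_option autoImplicit false

open Finset QuadraticAlgebra
open scoped Classical

namespace Pool.Agent.MP_e23604_nt.W

open B R S

/-! ### Places -/

/-- a non-archimedean place of the algebraic closure -/
structure Plc where
  l : ℕ
  [hl : Fact l.Prime]
  γ : GQ

instance factPlc (V : Plc) : Fact V.l.Prime := V.hl

namespace Plc

variable (V : Plc)

/-- the absolute value -/
noncomputable def v : AbsoluteValue Qb ℝ := nv V.l V.γ

/-- the decomposition group over the field of cube roots of unity -/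
noncomputable def D : Subgroup GQ := Dec V.v ⊓ GK

/-- the inertia group over the field of cube roots of unity -/
noncomputable def I : Subgroup GQ := Ine V.l V.γ ⊓ GK

/-- the place `x ↦ V.v (g x)` -/
noncomputable def mv (g : GQ) : Plc := ⟨V.l, V.γ * g⟩

theorem na : IsNonarchimedean V.v := nv_na _ _

theorem mv_v (g : GQ) (x : Qb) : (V.mv g).v x = V.v (g x) := rfl

theorem I_le : V.I ≤ V.D := inf_le_inf_right _ (Ine_le _ _)

theorem D_le : V.D ≤ GK := inf_le_right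

theorem mem_D {g : GQ} : g ∈ V.D ↔ (∀ x, V.v (g x) = V.v x) ∧ g ∈ GK := Iff.rfl

theorem mem_I {g : GQ} : g ∈ V.I ↔ (∀ x, V.v x ≤ 1 → V.v (g x - x) < 1) ∧ g ∈ GK := Iff.rfl

theorem cj_GK (g σ : GQ) : σ ∈ GK ↔ g * σ * g⁻¹ ∈ GK := by
  rw [mul_assoc, GK_on.1.mem_comm_iff, inv_mul_cancel_right]

theorem mv_D (g σ : GQ) : σ ∈ (V.mv g).D ↔ g * σ * g⁻¹ ∈ V.D :=
  and_congr (mem_Dec_conj _ _ g σ) (cj_GK g σ)

theorem mv_I (g σ : GQ) : σ ∈ (V.mv g).I ↔ g * σ * g⁻¹ ∈ V.I :=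
  and_congr (mem_Ine_conj _ _ g σ) (cj_GK g σ)

theorem io_le (b : Zw) : V.v (io b) ≤ 1 := by
  have h1 : V.v w3 = 1 := by
    have := congrArg V.v w3_cube
    rw [map_pow, map_one] at this
    exact (pow_eq_one_iff_of_nonneg (V.v.nonneg _) three_ne_zero).1 this
  rw [io_apply]
  refine bLocA_add_le V.na (IsNonarchimedean.apply_intCast_le_one V.na) ?_
  rw [map_mul, h1, mul_one]
  exact IsNonarchimedean.apply_intCast_le_one V.na

end Plc

/-- a place over three -/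
noncomputable def V3 : Plc := ⟨3, 1⟩

/-- `V` lies over a prime factor of `b` -/
def Ov (V : Plc) (b : Zw) : Prop := V.v (io b) < 1

/-- `σ` is a Frobenius element at `V` for a residue field of the order of `ϖ` -/
def FK (V : Plc) (ϖ : Zw) (σ : GQ) : Prop :=
  σ ∈ V.D ∧ ∀ x, V.v x ≤ 1 → V.v (σ x - x ^ nn ϖ) < 1

/-- primary numbers -/
def Pry (u : Zw) : Prop := (3 : Zw) ∣ u - 1

/-- primary primes -/
def PP (ϖ : Zw) : Prop := Prime ϖ ∧ Pry ϖ

/-- unramified outside `b` -/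
def Unr {A : Type} [Zero A] (b : Zw) (c : GQ → A) : Prop :=
  ∀ V : Plc, ¬ Ov V b → ∀ τ ∈ V.I, c τ = 0

/-! ### Kummer cocycles -/

/-- a complex embedding -/
noncomputable def eC : Qb →+* ℂ := (IsAlgClosed.lift (R := ℚ) (S := Qb) (M := ℂ)).toRingHom

/-- a compatible system of roots of unity -/
noncomputable def zt (N : ℕ) : Qb :=
  Classical.epsilon fun z => eC z = Complex.exp (2 * Real.pi * Complex.I / N)

/-- a chosen root -/
noncomputable def rt (N : ℕ) (θ : Qb) : Qb := Classical.epsilon fun s => s ^ N = θ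

/-- the logarithm of a root of unity -/
noncomputable def lz (N : ℕ) (z : Qb) : ZMod N := Classical.epsilon fun i => zt N ^ i.val = z

/-- the Kummer cocycle -/
noncomputable def km (N : ℕ) (g : GQ) (θ : Qb) : ZMod N := lz N (g (rt N θ) / rt N (g θ))

/-- the cyclotomic character -/
noncomputable def cy (N : ℕ) (g : GQ) : ZMod N := lz N (g (zt N))

/-- representatives of the cosets of `U` in `H` -/
def Trv (U H : Subgroup GQ) (X : Finset GQ) : Prop :=
  (∀ y ∈ X, y ∈ H) ∧ ∀ g ∈ H, ∃! y, y ∈ X ∧ y⁻¹ * g ∈ U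

/-- chosen representatives -/
noncomputable def Xs (U H : Subgroup GQ) : Finset GQ := Classical.epsilon (Trv U H)

section ring

variable {R : Type} [CommRing R]

/-- multiplicative on `H`, locally constant -/
def Mu (H : Subgroup GQ) (θ : GQ → R) : Prop :=
  Lc H θ ∧ θ 1 = 1 ∧ ∀ g ∈ H, ∀ h ∈ H, θ (g * h) = θ g * θ h

/-- one-cocycles -/
def Co (θ : GQ → R) (H : Subgroup GQ) (c : GQ → R) : Prop :=
  Lc H c ∧ ∀ g ∈ H, ∀ h ∈ H, c (g * h) = c g + θ g * c h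

/-- one-coboundaries -/
def Bo (θ : GQ → R) (H : Subgroup GQ) (c : GQ → R) : Prop :=
  ∃ m, ∀ g ∈ H, c g = (θ g - 1) * m

/-- two-cocycles -/
def Co2 (κ : GQ → R) (H : Subgroup GQ) (f : GQ → GQ → R) : Prop :=
  (∃ N, ON N ∧ (∀ g ∈ H, Cst N H (f g)) ∧ ∀ h ∈ H, Cst N H fun g => f g h) ∧
    ∀ g ∈ H, ∀ h ∈ H, ∀ k ∈ H, κ g * f h k - f (g * h) k + f g (h * k) - f g h = 0

/-- two-coboundaries -/
def Bo2 (κ : GQ → R) (H : Subgroup GQ) (f : GQ → GQ → R) : Prop :=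
  ∃ b, Lc H b ∧ ∀ g ∈ H, ∀ h ∈ H, f g h = κ g * b h - b (g * h) + b g

/-- the cup product of `c` and the `lam`-cocycle `x` -/
def cup (lam c x : GQ → R) (g h : GQ) : R := c g * lam g * x h

/-- the cyclotomic character with values in `R` -/
noncomputable def cj {N : ℕ} (j : ZMod N →+* R) (g : GQ) : R := j (cy N g)

/-- the dual character -/
noncomputable def rho {N : ℕ} (j : ZMod N →+* R) (lam : GQ → R) (g : GQ) : R :=
  j (cy N g) * lam g⁻¹

/-- a character that factors through the abelian quotient by `U` -/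
structure Chr {N : ℕ} (j : ZMod N →+* R) (U : Subgroup GQ) (lam : GQ → R) : Prop where
  pos : N ≠ 0
  opn : IsOpen (U : Set GQ)
  le : U ≤ GK
  ab : ∀ g ∈ GK, ∀ h ∈ GK, (g * h)⁻¹ * (h * g) ∈ U
  mul : ∀ g ∈ GK, ∀ h ∈ GK, lam (g * h) = lam g * lam h
  one : ∀ g ∈ U, lam g = 1
  cyc : ∀ g ∈ U, cy N g = 1

/-- the twisted norm of a Kummer cocycle -/
noncomputable def zc {N : ℕ} (j : ZMod N →+* R) (U : Subgroup GQ) (lam : GQ → R) (θ : Qb)
    (g : GQ) : R := ∑ y ∈ Xs U GK, lam (g * y)⁻¹ * j (km N g (y θ))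

/-- strict cocycles -/
def Str (θ : GQ → R) (b : Zw) (x : GQ → R) : Prop :=
  Co θ GK x ∧ Unr b x ∧ ∀ V : Plc, Ov V b → Bo θ V.D x

/-- the restrictions to `H` of the functions with property `P` -/
def rs {A : Type} (H : Subgroup GQ) (P : (GQ → A) → Prop) : Set (H → A) :=
  {y | ∃ x, P x ∧ ∀ g : H, y g = x g}

/-- finite chain rings of length `N` -/
structure Chn (t : R) (N : ℕ) : Prop where
  fin : Finite R
  pos : 0 < N
  nil : t ^ N = 0
  ne : t ^ (N - 1) ≠ 0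
  dec : ∀ x : R, ∃ (u : R) (i : ℕ), IsUnit u ∧ x = u * t ^ i

/-- the valuation of a chain ring -/
noncomputable def vl (t : R) (N : ℕ) (x : R) : ℕ := Nat.findGreatest (fun i => t ^ i ∣ x) N

/-- the order of the residue field -/
noncomputable def kp (t : R) : ℕ := Nat.card (R ⧸ Ideal.span {t})

/-- `φ` is the reduction modulo `b` -/
structure Qt (φ : Zw →+* R) (b : Zw) : Prop where
  sur : Function.Surjective φ
  ker : ∀ x, φ x = 0 ↔ b ∣ x

end ring

/-! ### The curve -/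

/-- the cubic twist of the Galois action -/
noncomputable def eta (χ : GQ → ZMod 3) (g : GQ) : Pt →+ Pt :=
  (DistribSMul.toAddMonoidHom Pt ((ω : Zw) ^ (χ g).val)).comp (gal g)

theorem eta_apply (χ : GQ → ZMod 3) (g : GQ) (P : Pt) :
    eta χ g P = (ω : Zw) ^ (χ g).val • gal g P := rfl

/-- the division polynomial -/
noncomputable def Fa (a : Zw) (P : Pt) : Qb := io a ^ 2 * ∏ S ∈ (tor a).erase 0, (xc P - xc S)

/-- the normalising constant -/
noncomputable def cc (a : Zw) : Qb :=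
  (io a ^ 6 * ∏ S ∈ (tor a).erase 0, (4 * xc S ^ 3 + 1)) /
    (io a ^ 4 * ∏ S ∈ (tor a).erase 0, (-3 * xc S ^ 2))

/-- the theta function -/
noncomputable def Th (a : Zw) (P : Pt) : Qb := cc a / Fa a P

/-- its logarithmic derivative -/
noncomputable def de (a : Zw) (P : Pt) : Qb :=
  -(2 * yc P + 1) * ∑ S ∈ (tor a).erase 0, 1 / (xc P - xc S)

/-- good points -/
def Gd (Y : Pt) : Prop := ∃ b : Zw, b • Y = T0

/-- `Q` has annihilator `M` -/
def Gen (M : Zw) (Q : Pt) : Prop := ∀ b : Zw, b • Q = 0 ↔ M ∣ b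

/-- the group that fixes the cube roots of unity and the points killed by `M` -/
def UM (M : Zw) : Subgroup GQ where
  carrier := {g | g ∈ GK ∧ ∀ P : Pt, M • P = 0 → gal g P = P}
  one_mem' := ⟨GK.one_mem, fun P _ => gal_one P⟩
  mul_mem' h h' := ⟨GK.mul_mem h.1 h'.1, fun P e => by rw [gal_mul, h'.2 P e, h.2 P e]⟩
  inv_mem' {g} h := ⟨GK.inv_mem h.1, fun P e => by
    conv_lhs => rw [← h.2 P e, ← gal_mul, inv_mul_cancel, gal_one]⟩

theorem mem_UM {M : Zw} {g : GQ} :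
    g ∈ UM M ↔ g ∈ GK ∧ ∀ P : Pt, M • P = 0 → gal g P = P := Iff.rfl

/-- the action on the points killed by `M` -/
noncomputable def ps (M : Zw) (g : GQ) : Zw :=
  Classical.epsilon fun u => ∀ P : Pt, M • P = 0 → gal g P = u • P

/-- the coordinate of `P` with respect to `Q` -/
noncomputable def co (Q P : Pt) : Zw := Classical.epsilon fun u => P = u • Q

/-- the character of the twisted action -/
noncomputable def lamZ {R : Type} [CommRing R] (φ : Zw →+* R) (χ : GQ → ZMod 3) (M : Zw)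
    (g : GQ) : R := φ (ω ^ (χ g).val * ps M g)

/-- cubic characters ramified at all places over `r` and at no other place prime to three -/
structure Tw (χ : GQ → ZMod 3) (r : ℕ) : Prop where
  sf : Squarefree r
  n3 : ¬ 3 ∣ r
  add : Adt GK χ
  lc : Lc GK χ
  unr : Unr (3 * r) χ
  ram : ∀ V : Plc, Ov V r → ∃ τ ∈ V.I, χ τ ≠ 0
  fac : ∀ g ∈ UM (9 * r), χ g = 0

/-- admissible auxiliary primes -/
structure Adm (r : ℕ) (a : Zw) : Prop where
  pp : PP a
  deg : (nn a).Prime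
  cop : IsCoprime a (6 * r)
  nine : nn a % 9 ≠ 1

/-- cocycles for the twisted action -/
def Cz (χ : GQ → ZMod 3) (H : Subgroup GQ) (x : GQ → Pt) : Prop :=
  Lc H x ∧ ∀ g ∈ H, ∀ h ∈ H, x (g * h) = x g + eta χ g (x h)

/-- coboundaries for the twisted action -/
def Bz (χ : GQ → ZMod 3) (H : Subgroup GQ) (x : GQ → Pt) : Prop :=
  ∃ P, ∀ g ∈ H, x g = eta χ g P - P

/-- everywhere locally trivial cocycles -/
def SelK (χ : GQ → ZMod 3) (x : GQ → Pt) : Prop := Cz χ GK x ∧ ∀ V : Plc, Bz χ V.D x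

/-- cocycles unramified outside `3 r` and locally trivial at `3 r` -/
def SelU (χ : GQ → ZMod 3) (r : ℕ) (x : GQ → Pt) : Prop :=
  Cz χ GK x ∧ Unr (3 * r) x ∧ ∀ V : Plc, Ov V (3 * r) → Bz χ V.D x

/-- the three-primary Selmer group has bounded exponent -/
def HB (χ : GQ → ZMod 3) (r : ℕ) : Prop :=
  ∃ k₀ : ℕ, ∀ (k : ℕ) (x : GQ → Pt), SelU χ r x → (∀ g ∈ GK, 3 ^ k • x g = 0) →
    ∃ P : Pt, (∃ i : ℕ, 3 ^ i • P = 0) ∧ ∀ g ∈ GK, 3 ^ k₀ • x g = eta χ g P - P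

/-- the trace of the logarithmic derivative -/
noncomputable def tr (χ : GQ → ZMod 3) (a M : Zw) (Q : Pt) : Qb :=
  ∑ y ∈ Xs (UM M) GK, de a (eta χ y Q)

/-- the data of the Euler system -/
structure ES {R : Type} [CommRing R] (p n : ℕ) (j : ZMod (p ^ n) →+* R) (M a : Zw) (Q : Pt)
    (lam : GQ → R) : Prop where
  pp : p.Prime
  pos : 1 ≤ n
  chr : Chr j (UM M) lam
  cop : IsCoprime a (6 * M)
  ne : M ≠ 0
  pM : (p : Zw) ^ n ∣ M
  nine : 9 ∣ M
  gen : Gen M Q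

/-! ### Basic lemmas: roots -/

theorem eC_zt {N : ℕ} (h : N ≠ 0) : eC (zt N) = Complex.exp (2 * Real.pi * Complex.I / N) := by
  refine Classical.epsilon_spec (p := fun z => eC z = Complex.exp (2 * Real.pi * Complex.I / N)) ?_
  have : NeZero N := ⟨h⟩
  obtain ⟨z, hz⟩ := HasEnoughRootsOfUnity.exists_primitiveRoot Qb N
  obtain ⟨i, -, e⟩ := (hz.map_of_injective eC.injective).eq_pow_of_pow_eq_one
    (Complex.isPrimitiveRoot_exp N h).pow_eq_one
  exact ⟨z ^ i, by rw [map_pow, e]⟩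

theorem zt_prim {N : ℕ} (h : N ≠ 0) : IsPrimitiveRoot (zt N) N :=
  IsPrimitiveRoot.of_map_of_injective (eC_zt h ▸ Complex.isPrimitiveRoot_exp N h) eC.injective

theorem zt_pow {N k : ℕ} (h : N ≠ 0) (hk : k ≠ 0) : zt (N * k) ^ k = zt N := eC.injective (by
  rw [map_pow, eC_zt h, eC_zt (mul_ne_zero h hk), ← Complex.exp_nat_mul]
  congr 1
  push_cast
  field_simp)

theorem zt_ne {N : ℕ} (h : N ≠ 0) : zt N ≠ 0 := (zt_prim h).ne_zero h

theorem rt_pow {N : ℕ} (h : N ≠ 0) (θ : Qb) : rt N θ ^ N = θ :=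
  Classical.epsilon_spec (IsAlgClosed.exists_pow_nat_eq θ (Nat.pos_of_ne_zero h))

theorem rt_ne {N : ℕ} (h : N ≠ 0) {θ : Qb} (h0 : θ ≠ 0) : rt N θ ≠ 0 := fun e =>
  h0 (by rw [← rt_pow h θ, e, zero_pow h])

theorem zt_lz {N : ℕ} (h : N ≠ 0) {z : Qb} (hz : z ^ N = 1) : zt N ^ (lz N z).val = z := by
  refine Classical.epsilon_spec (p := fun i : ZMod N => zt N ^ i.val = z) ?_
  have : NeZero N := ⟨h⟩
  obtain ⟨i, hi, e⟩ := (zt_prim h).eq_pow_of_pow_eq_one hz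
  exact ⟨i, by rw [ZMod.val_cast_of_lt hi, e]⟩

theorem zt_inj {N : ℕ} (h : N ≠ 0) {a b : ZMod N} (e : zt N ^ a.val = zt N ^ b.val) : a = b := by
  have : NeZero N := ⟨h⟩
  exact ZMod.val_injective N ((zt_prim h).pow_inj a.val_lt b.val_lt e)

theorem zt_nat {N : ℕ} (h : N ≠ 0) (i : ℕ) : zt N ^ (i : ZMod N).val = zt N ^ i := by
  rw [ZMod.val_natCast, ← pow_eq_pow_mod i (zt_prim h).pow_eq_one]

theorem zt_add {N : ℕ} (h : N ≠ 0) (a b : ZMod N) :
    zt N ^ (a + b).val = zt N ^ a.val * zt N ^ b.val := by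
  have : NeZero N := ⟨h⟩
  rw [← pow_add, ← zt_nat h (_ + _), Nat.cast_add, ZMod.natCast_zmod_val, ZMod.natCast_zmod_val]

theorem zt_mul {N : ℕ} (h : N ≠ 0) (a b : ZMod N) :
    zt N ^ (a * b).val = (zt N ^ a.val) ^ b.val := by
  have : NeZero N := ⟨h⟩
  rw [← pow_mul, ← zt_nat h (_ * _), Nat.cast_mul, ZMod.natCast_zmod_val, ZMod.natCast_zmod_val]

theorem zt_val_pow {N : ℕ} (h : N ≠ 0) (i : ℕ) : (zt N ^ i) ^ N = 1 := by
  rw [← pow_mul, mul_comm, pow_mul, (zt_prim h).pow_eq_one, one_pow]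

theorem lz_eq {N : ℕ} (h : N ≠ 0) {z : Qb} {a : ZMod N} (e : zt N ^ a.val = z) : lz N z = a :=
  zt_inj h ((zt_lz h (e ▸ zt_val_pow h _)).trans e.symm)

theorem lz_one {N : ℕ} (h : N ≠ 0) : lz N 1 = 0 := lz_eq h (by simp)

theorem lz_mul {N : ℕ} (h : N ≠ 0) {z w : Qb} (hz : z ^ N = 1) (hw : w ^ N = 1) :
    lz N (z * w) = lz N z + lz N w := lz_eq h (by rw [zt_add h, zt_lz h hz, zt_lz h hw])

theorem cy_spec {N : ℕ} (h : N ≠ 0) (g : GQ) : g (zt N) = zt N ^ (cy N g).val :=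
  (zt_lz h (by rw [← map_pow, (zt_prim h).pow_eq_one, map_one])).symm

theorem act_zt {N : ℕ} (h : N ≠ 0) (g : GQ) (a : ZMod N) :
    g (zt N ^ a.val) = zt N ^ (cy N g * a).val := by rw [map_pow, cy_spec h, zt_mul h]

theorem lz_act {N : ℕ} (h : N ≠ 0) (g : GQ) {z : Qb} (hz : z ^ N = 1) :
    lz N (g z) = cy N g * lz N z := lz_eq h (by rw [← act_zt h, zt_lz h hz])

theorem cy_mul {N : ℕ} (h : N ≠ 0) (g g' : GQ) : cy N (g * g') = cy N g * cy N g' :=
  lz_act h g (z := g' (zt N)) (by rw [← map_pow, (zt_prim h).pow_eq_one, map_one])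

theorem cy_one {N : ℕ} (h : N ≠ 0) : cy N 1 = 1 := by
  have : NeZero N := ⟨h⟩
  exact lz_eq h (by rw [← Nat.cast_one, zt_nat h, pow_one, AlgEquiv.one_apply])

theorem km_root {N : ℕ} (h : N ≠ 0) (g : GQ) {θ : Qb} (h0 : θ ≠ 0) :
    (g (rt N θ) / rt N (g θ)) ^ N = 1 := by
  rw [div_pow, ← map_pow, rt_pow h, rt_pow h, div_self ((map_ne_zero g).2 h0)]

theorem km_spec {N : ℕ} (h : N ≠ 0) (g : GQ) {θ : Qb} (h0 : θ ≠ 0) :
    g (rt N θ) = zt N ^ (km N g θ).val * rt N (g θ) := by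
  rw [km, zt_lz h (km_root h g h0), div_mul_cancel₀ _ (rt_ne h ((map_ne_zero g).2 h0))]

theorem km_mul {N : ℕ} (h : N ≠ 0) (g g' : GQ) {θ : Qb} (h0 : θ ≠ 0) :
    km N (g * g') θ = cy N g * km N g' θ + km N g (g' θ) := by
  have h1 := (map_ne_zero g').2 h0
  refine lz_eq h (eq_div_of_mul_eq (rt_ne h ((map_ne_zero _).2 h0)) ?_)
  rw [AlgEquiv.mul_apply, AlgEquiv.mul_apply, km_spec h g' h0, map_mul, km_spec h g h1, act_zt h,
    zt_add h, mul_assoc]

theorem km_one {N : ℕ} (h : N ≠ 0) {θ : Qb} (h0 : θ ≠ 0) : km N 1 θ = 0 := by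
  rw [km, AlgEquiv.one_apply, AlgEquiv.one_apply, div_self (rt_ne h h0), lz_one h]

/-- the Kummer cocycle computed with arbitrary roots -/
theorem km_any {N : ℕ} (h : N ≠ 0) (g : GQ) {θ s s' : Qb} (h0 : θ ≠ 0) (hs : s ^ N = θ)
    (hs' : s' ^ N = g θ) :
    km N g θ = lz N (g s / s') + cy N g * lz N (rt N θ / s) - lz N (rt N (g θ) / s') := by
  have h1 := (map_ne_zero g).2 h0
  have s0 : s ≠ 0 := fun e => h0 (by rw [← hs, e, zero_pow h])
  have s1 : s' ≠ 0 := fun e => h1 (by rw [← hs', e, zero_pow h])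
  have e1 : (g s / s') ^ N = 1 := by rw [div_pow, ← map_pow, hs, hs', div_self h1]
  have e2 : (rt N θ / s) ^ N = 1 := by rw [div_pow, rt_pow h, hs, div_self h0]
  have e3 : (rt N (g θ) / s') ^ N = 1 := by rw [div_pow, rt_pow h, hs', div_self h1]
  rw [eq_sub_iff_add_eq, km, ← lz_mul h (km_root h g h0) e3, ← lz_act h g e2,
    ← lz_mul h e1 (by rw [← map_pow, e2, map_one]), map_div₀]
  congr 1
  have := rt_ne h h1
  have := (map_ne_zero g).2 s0
  field_simp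

/-! ### Basic lemmas: representatives -/

theorem Xs_trv {U H : Subgroup GQ} (h : IsOpen (U : Set GQ)) (hle : U ≤ H) : Trv U H (Xs U H) := by
  refine Classical.epsilon_spec (p := Trv U H) ?_
  have : Finite (GQ ⧸ U) := Subgroup.quotient_finite_of_isOpen U h
  have := Fintype.ofFinite (GQ ⧸ U)
  refine ⟨(univ.filter fun q : GQ ⧸ U => q.out ∈ H).image Quotient.out, fun y hy => ?_,
    fun g hg => ?_⟩
  · obtain ⟨q, hq, rfl⟩ := mem_image.1 hy
    exact (mem_filter.1 hq).2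
  · have e : ((g : GQ ⧸ U).out)⁻¹ * g ∈ U := QuotientGroup.eq.1 (Quotient.out_eq _)
    refine ⟨(g : GQ ⧸ U).out, ⟨mem_image_of_mem _ (mem_filter.2 ⟨mem_univ _, ?_⟩), e⟩, ?_⟩
    · simpa using H.mul_mem hg (H.inv_mem (hle e))
    · rintro y ⟨hy, e'⟩
      obtain ⟨q, -, rfl⟩ := mem_image.1 hy
      rw [← QuotientGroup.eq.2 e', QuotientGroup.out_eq']

theorem Trv.mul {U H : Subgroup GQ} {X : Finset GQ} (hX : Trv U H X) {g : GQ} (hg : g ∈ H) :
    Trv U H (X.image (g * ·)) := by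
  refine ⟨fun y hy => ?_, fun h hh => ?_⟩
  · obtain ⟨x, hx, rfl⟩ := mem_image.1 hy
    exact H.mul_mem hg (hX.1 x hx)
  · obtain ⟨y, ⟨h1, h2⟩, h3⟩ := hX.2 _ (H.mul_mem (H.inv_mem hg) hh)
    refine ⟨g * y, ⟨mem_image_of_mem _ h1, by rwa [mul_inv_rev, mul_assoc]⟩, ?_⟩
    rintro _ ⟨hy', e⟩
    obtain ⟨x, hx, rfl⟩ := mem_image.1 hy'
    rw [h3 x ⟨hx, by rwa [mul_inv_rev, mul_assoc] at e⟩]

theorem Trv.sum_eq {A : Type} [AddCommMonoid A] {U H : Subgroup GQ} {X Y : Finset GQ}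
    (hX : Trv U H X) (hY : Trv U H Y) {F : GQ → A} (hF : ∀ g ∈ H, ∀ u ∈ U, F (g * u) = F g) :
    ∑ y ∈ X, F y = ∑ y ∈ Y, F y := by
  choose f hf using fun x hx => hY.2 x (hX.1 x hx)
  refine sum_bij f (fun x hx => (hf x hx).1.1) (fun x hx x' hx' e => ?_) (fun y hy => ?_)
    fun x hx => ?_
  · refine (hX.2 x' (hX.1 x' hx')).unique ⟨hx, ?_⟩ ⟨hx', by simp⟩
    simpa [e, mul_assoc] using U.mul_mem (U.inv_mem (hf x hx).1.2) (hf x' hx').1.2
  · obtain ⟨x, ⟨hx, e⟩, -⟩ := hX.2 y (hY.1 y hy)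
    exact ⟨x, hx, ((hf x hx).2 y ⟨hy, by simpa using U.inv_mem e⟩).symm⟩
  · rw [← hF _ (hY.1 _ (hf x hx).1.1) _ (hf x hx).1.2, mul_inv_cancel_left]

theorem Trv.sum_mul {A : Type} [AddCommMonoid A] {U H : Subgroup GQ} {X : Finset GQ}
    (hX : Trv U H X) {F : GQ → A} (hF : ∀ g ∈ H, ∀ u ∈ U, F (g * u) = F g) {g : GQ}
    (hg : g ∈ H) : ∑ y ∈ X, F (g * y) = ∑ y ∈ X, F y := by
  rw [← (hX.mul hg).sum_eq hX hF, sum_image fun _ _ _ _ e => mul_left_cancel e]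

theorem Trv.prod_mul {A : Type} [CommMonoid A] {U H : Subgroup GQ} {X : Finset GQ}
    (hX : Trv U H X) {F : GQ → A} (hF : ∀ g ∈ H, ∀ u ∈ U, F (g * u) = F g) {g : GQ}
    (hg : g ∈ H) : ∏ y ∈ X, F (g * y) = ∏ y ∈ X, F y := hX.sum_mul (A := Additive A) hF hg

theorem ex_ON {U : Subgroup GQ} (h : IsOpen (U : Set GQ)) : ∃ N, ON N ∧ N ≤ U :=
  exists_ON (h.mem_nhds U.one_mem)

theorem Chr.nrm {R : Type} [CommRing R] {N : ℕ} {j : ZMod N →+* R} {U : Subgroup GQ}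
    {lam : GQ → R} (h : Chr j U lam) {g u : GQ} (hg : g ∈ GK) (hu : u ∈ U) : g⁻¹ * u * g ∈ U := by
  simpa [mul_assoc] using U.mul_mem hu (h.ab g hg u (h.le hu))

theorem Chr.trv {R : Type} [CommRing R] {N : ℕ} {j : ZMod N →+* R} {U : Subgroup GQ}
    {lam : GQ → R} (h : Chr j U lam) : Trv U GK (Xs U GK) := Xs_trv h.opn h.le

/-! ### Basic lemmas: the twisted action -/

theorem w_add (a b : ZMod 3) : (ω : Zw) ^ (a + b).val = ω ^ a.val * ω ^ b.val := by
  revert a b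
  decide

theorem eta_smul (χ : GQ → ZMod 3) {g : GQ} (hg : g ∈ GK) (b : Zw) (P : Pt) :
    eta χ g (b • P) = b • eta χ g P := by rw [eta_apply, eta_apply, gal_smul hg, smul_comm]

theorem eta_mul {χ : GQ → ZMod 3} (h : Adt GK χ) {g g' : GQ} (hg : g ∈ GK) (hg' : g' ∈ GK)
    (P : Pt) : eta χ (g * g') P = eta χ g (eta χ g' P) := by
  rw [eta_apply χ g', eta_smul χ hg, eta_apply, eta_apply, h g hg g' hg', w_add, gal_mul,
    mul_comm, mul_smul]

theorem eta_one {χ : GQ → ZMod 3} (h : Adt GK χ) (P : Pt) : eta χ 1 P = P := by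
  have := h 1 GK.one_mem 1 GK.one_mem
  rw [mul_one, left_eq_add] at this
  rw [eta_apply, this, ZMod.val_zero, pow_zero, one_smul, gal_one]

theorem UM_le (M : Zw) : UM M ≤ GK := fun _ h => h.1

theorem UM_mono {M M' : Zw} (h : M ∣ M') : UM M' ≤ UM M := fun _ hg =>
  ⟨hg.1, fun P e => hg.2 P (by obtain ⟨c, rfl⟩ := h; rw [mul_comm, mul_smul, e, smul_zero])⟩

theorem UM_open {M : Zw} (h : M ≠ 0) : IsOpen (UM M : Set GQ) := by
  obtain ⟨N, h1, h2⟩ := exists_ON_fix (insert w3 ((tor M).image xc ∪ (tor M).image yc))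
  refine Subgroup.isOpen_mono (H₁ := N) (fun g hg => ⟨mem_GK'.2 (h2 _ (by simp) g hg),
    fun P e => ?_⟩) h1.2
  by_cases h0 : P = 0
  · rw [h0, map_zero]
  have := (mem_tor h).2 e
  rw [(on_xy h0).2, gal_pt _ (on_xy h0).1, h2 _ (by simp [mem_image_of_mem _ this]) g hg,
    h2 _ (by simp [mem_image_of_mem _ this]) g hg]

theorem co_spec {Q P : Pt} (h : ∃ u : Zw, P = u • Q) : P = co Q P • Q := Classical.epsilon_spec h

end Pool.Agent.MP_e23604_nt.W

end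

section

/-!
Statements about complex multiplication on the curve `y ^ 2 + y = x ^ 3`.
-/

set_option autoImplicit false

open Finset QuadraticAlgebra
open scoped Classical

namespace Pool.Agent.MP_e23604_nt.W

open B R S

/-- the multiples `u • Q` with `u` in `W` -/
noncomputable def Orb (W : Set Zw) (M : Zw) (Q : Pt) : Finset Pt :=
  (tor M).filter fun P => ∃ u ∈ W, P = u • Q

/-- the numbers congruent modulo `M` to a value of the twisted action -/
def Wc (χ : GQ → ZMod 3) (M : Zw) : Set Zw :=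
  {u | ∃ g ∈ GK, M ∣ u - ω ^ (χ g).val * ps M g}

/-- `W` is a union of residue classes modulo `m` -/
def Sat (W : Set Zw) (m : Zw) : Prop := ∀ u ∈ W, ∀ u', m ∣ u' - u → u' ∈ W

theorem Wc_sat (χ : GQ → ZMod 3) {M m : Zw} (h : M ∣ m) : Sat (Wc χ M) m := by
  rintro u ⟨g, hg, e⟩ u' e'
  exact ⟨g, hg, by simpa using dvd_add (h.trans e') e⟩

theorem Sat.cop {W : Set Zw} {m b : Zw} (h : Sat W m) (hb : b ∣ m) :
    Sat {u | u ∈ W ∧ IsCoprime u b} m := by
  rintro u ⟨h1, h2⟩ u' e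
  obtain ⟨c, hc⟩ := hb.trans e
  refine ⟨h u h1 u' e, ?_⟩
  rw [show u' = u + b * c by linear_combination hc]
  exact h2.add_mul_left_left c

/-! ### Torsion points -/

/-- the number of torsion points -/
def CARD_st : Prop := ∀ b : Zw, b ≠ 0 → (tor b).card = nn b

/-- the number of residue classes -/
def QUO_st : Prop := ∀ b : Zw, b ≠ 0 → Nat.card (Zw ⧸ Ideal.span {b}) = nn b

/-- the torsion points form a cyclic module -/
def CYG_st : Prop := ∀ M : Zw, M ≠ 0 → (∃ Q, Gen M Q) ∧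
  (∀ Q, Gen M Q → ∀ P : Pt, M • P = 0 → ∃ u : Zw, P = u • Q) ∧
  ∀ (Q : Pt) (b : Zw), Gen M Q → b ≠ 0 → ∃ Q', Gen (b * M) Q' ∧ b • Q' = Q

/-- multiplication by the square root of `-3` -/
def PI_st : Prop :=
  (∀ P : Pt, pw • P = 0 ↔ P = 0 ∨ P = T0 ∨ P = -T0) ∧
  (∀ P : Pt, pw • P = 0 ↔ xc P = 0) ∧
  (∀ P : Pt, xc P ≠ 0 → xc (pw • P) = (xc P ^ 3 + 1) / (-3 * xc P ^ 2) ∧
    yc (pw • P) = ((yc P - w3 ^ 2) / (io pw * xc P)) ^ 3) ∧
  (∀ P : Pt, (3 : Zw) • P = 0 ↔ xc P = 0 ∨ xc P ^ 3 = -1) ∧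
  ∀ g ∈ GK, ∀ P : Pt, (3 : Zw) • P = 0 → gal g P = P

/-- the Galois action on torsion points -/
def PS_st : Prop := ∀ M : Zw, M ≠ 0 →
  (∀ g ∈ GK, (∀ P : Pt, M • P = 0 → gal g P = ps M g • P) ∧ IsCoprime (ps M g) M ∧
    (3 ∣ M → Pry (ps M g)) ∧ (g ∈ UM M ↔ M ∣ ps M g - 1) ∧
    (∀ u : Zw, (∀ P : Pt, M • P = 0 → gal g P = u • P) ↔ M ∣ ps M g - u) ∧
    (∀ h ∈ GK, M ∣ ps M (g * h) - ps M g * ps M h) ∧
    (∀ h ∈ GK, (g * h)⁻¹ * (h * g) ∈ UM M) ∧ (∀ h ∈ UM M, g * h * g⁻¹ ∈ UM M) ∧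
    ∀ M' : Zw, M' ≠ 0 → M ∣ M' → M ∣ ps M' g - ps M g) ∧
  (M ∣ star M → ON (UM M))

/-! ### The theta function -/

/-- invariance -/
def THI_st : Prop := ∀ a : Zw, a ≠ 0 →
  (∀ (u : Zw) (P : Pt), IsUnit u → Th a (u • P) = Th a P ∧
    (P ≠ 0 → io u * de a (u • P) = de a P)) ∧
  (∀ g ∈ GK, ∀ P : Pt, Th a (gal g P) = g (Th a P) ∧ de a (gal g P) = g (de a P)) ∧
  (∀ (χ : GQ → ZMod 3), ∀ g ∈ GK, ∀ P : Pt, Th a (eta χ g P) = g (Th a P) ∧
    w3 ^ (χ g).val * de a (eta χ g P) = g (de a P)) ∧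
  (IsCoprime a 6 → ∀ P : Pt, a • P ≠ 0 → Th a P ≠ 0)

/-- the norm relation -/
def NRM1_st : Prop := ∀ (a b : Zw) (P : Pt), IsCoprime a 6 → IsCoprime a b → (2 * b) • P ≠ 0 →
  ∏ T ∈ tor b, Th a (P + T) = Th a (b • P)

/-- the values at the points of order three -/
def TH0_st : Prop := ∀ a : Zw, IsCoprime a 6 → Th a T0 ^ 2 = (-3) ^ (nn a - 1) ∧
  ∀ R : Pt, (3 : Zw) • R = 0 → pw • R ≠ 0 →
    ∃ u : Zw, IsUnit u ∧ Th a R = io (u * pw ^ ((nn a - 1) / 3))

/-- the change of the auxiliary number -/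
def IDN_st : Prop := ∀ (a b : Zw) (P : Pt), IsCoprime a 6 → IsCoprime b 6 → IsCoprime a b →
  a • P ≠ 0 → b • P ≠ 0 → Th a (b • P) * Th b P ^ nn a = Th b (a • P) * Th a P ^ nn b

/-- the values are units -/
def UNIT_st : Prop := ∀ (a : Zw) (V : Plc) (P : Pt), IsCoprime a 6 → ¬ Ov V 3 →
  (¬ E1 V.v (a • P) → V.v (Fa a P) = 1 ∧ V.v (Th a P) = 1) ∧ (Gd P → V.v (Th a P) = 1)

/-! ### Local estimates -/

/-- close integral points differ by a point of the kernel of reduction -/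
def CLO_st : Prop := ∀ (V : Plc) (P Q : Pt), ¬ E1 V.v P → ¬ E1 V.v Q →
  V.v (xc P - xc Q) < V.v 3 → V.v (yc P - yc Q) < V.v 3 → E1 V.v (P - Q)

/-- good points are far from the torsion points -/
def SEP_st : Prop := ∀ (a : Zw) (V : Plc) (Y S : Pt), ¬ pw ∣ a → ¬ Ov V a → Gd Y → a • S = 0 →
  S ≠ 0 → V.v 9 ≤ V.v (xc Y - xc S) ∧ V.v (xc Y - xc S) ≤ 1

/-- the expansion of the first coordinate -/
def EXP_st : Prop := ∀ (V : Plc) (Y P : Pt), ¬ E1 V.v Y → E1 V.v P →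
  V.v (xc (Y + P) - xc Y - (2 * yc Y + 1) * zz P - 3 * xc Y ^ 2 * zz P ^ 2) ≤ V.v (zz P) ^ 3 ∧
  V.v (xc (Y - P) - xc Y + (2 * yc Y + 1) * zz P - 3 * xc Y ^ 2 * zz P ^ 2) ≤ V.v (zz P) ^ 3 ∧
  V.v (xc (Y + P) - xc Y) ≤ V.v (zz P) ∧ V.v (yc (Y + P) - yc Y) ≤ V.v (zz P)

/-- congruences -/
def CONG_st : Prop := ∀ (a : Zw) (V : Plc) (Y T : Pt), IsCoprime a 6 → ¬ Ov V 3 → ¬ Ov V a →
  Gd Y → E1 V.v T → V.v (Th a (Y + T)) = 1 ∧ V.v (Th a (Y + T) - Th a Y) < 1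

/-- the expansion of the theta function -/
def TAY_st : Prop := ∀ (a : Zw) (V : Plc) (Y P : Pt), IsCoprime a 6 → ¬ Ov V a → Gd Y →
  E1 V.v P → V.v (zz P) < V.v 9 →
  V.v (de a Y) * V.v 9 ≤ 1 ∧ Th a Y ≠ 0 ∧ V.v (Th a (Y + P) / Th a Y) = 1 ∧
  V.v (Th a (Y + P) / Th a Y - (1 + de a Y * zz P)) ≤ (V.v (zz P) / V.v 9) ^ 2 ∧
  V.v (Th a (Y - P) / Th a Y - (1 - de a Y * zz P)) ≤ (V.v (zz P) / V.v 9) ^ 2 ∧
  V.v (Th a (Y + P) / Th a Y * (Th a (Y - P) / Th a Y) - 1) ≤ (V.v (zz P) / V.v 9) ^ 2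

/-- the formal group -/
def FML_st : Prop := ∀ V : Plc,
  (∀ P Q : Pt, E1 V.v P → E1 V.v Q →
    V.v (zz (P + Q) - zz P - zz Q) ≤ max (V.v (zz P)) (V.v (zz Q)) ^ 4) ∧
  (∀ (b : Zw) (P : Pt), E1 V.v P → V.v (zz (b • P) - io b * zz P) ≤ V.v (zz P) ^ 4) ∧
  ∀ t : Qb, V.v t < 1 → ∃! P : Pt, E1 V.v P ∧ zz P = t

/-- division in the formal group -/
def DIV_st : Prop := ∀ (V : Plc) (b : Zw) (n : ℕ) (s : ℝ) (R : Pt), b ≠ 0 → E1 V.v R →
  V.v (zz R) ≤ V.v (io b) ^ n * s → s ^ 3 < V.v (io b) →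
  ∃! R' : Pt, E1 V.v R' ∧ b ^ n • R' = R ∧ V.v (zz R') ≤ s

/-! ### Frobenius elements -/

/-- the Frobenius element acts as the primary prime -/
def FRB_st : Prop := ∀ (V : Plc) (ϖ : Zw), PP ϖ → Ov V ϖ →
  (∀ T : Pt, ϖ • T = 0 → E1 V.v T) ∧ ∀ σ, FK V ϖ σ → (∀ P : Pt, E1 V.v (gal σ P - ϖ • P)) ∧
    ∀ (n : Zw) (P : Pt), ¬ Ov V n → n • P = 0 → gal σ P = ϖ • P

/-- the action of inertia -/
def INE_st : Prop := ∀ V : Plc, ¬ Ov V 3 → ∀ τ ∈ V.I, (∀ P : Pt, E1 V.v (gal τ P - P)) ∧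
  (∀ (n : Zw) (P : Pt), ¬ Ov V n → n • P = 0 → gal τ P = P) ∧ ∀ n, ¬ Ov V n → τ ∈ UM n

/-- the image of the Galois group -/
def SURJ_st : Prop := ∀ M u : Zw, M ≠ 0 → Pry u → IsCoprime u M →
  ∃ g ∈ GK, ∀ P : Pt, M • P = 0 → gal g P = u • P

/-- the cyclotomic character is the norm -/
def CYC1_st : Prop := ∀ (N : ℕ) (M : Zw), M ≠ 0 → (N : Zw) ∣ M → ∀ g ∈ GK,
  cy N g = (nn (ps M g) : ZMod N)

/-- total ramification -/
def RAMQ_st : Prop := ∀ (V : Plc) (ϖ : Zw) (T T' : Pt), PP ϖ → (nn ϖ).Prime → Ov V ϖ →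
  ϖ • T = 0 → ϖ • T' = 0 → T ≠ 0 → T' ≠ 0 → ∃ τ ∈ V.I, gal τ T = T'

/-! ### Orbits -/

/-- sums over the Galois group are sums over orbits -/
def ORB_st : Prop := ∀ (A : Type) [AddCommMonoid A] (F : Pt → A) (χ : GQ → ZMod 3) (M₀ M : Zw)
  (Q : Pt) (X : Finset GQ), Adt GK χ → (∀ g ∈ UM M₀, χ g = 0) → 3 ∣ M₀ → M₀ ∣ M → M ≠ 0 →
  Gen M Q → Trv (UM M) GK X →
  ∑ y ∈ X, F (eta χ y Q) = ∑ P ∈ Orb {u | u ∈ Wc χ M₀ ∧ IsCoprime u M} M Q, F P

/-- distribution relations on orbits -/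
def DIST_st : Prop := ∀ (A : Type) [AddCommMonoid A] (F F' : Pt → A) (W : Set Zw) (b m : Zw)
  (Q : Pt), b ≠ 0 → m ≠ 0 → Gen (b * m) Q → Sat W m →
  ((∀ P ∈ Orb W (b * m) Q, ∑ T ∈ tor b, F (P + T) = F' (b • P)) →
    ∑ P ∈ Orb W (b * m) Q, F P = ∑ P ∈ Orb W m (b • Q), F' P) ∧
  ∀ b', m ∣ b * b' - 1 → ∑ P ∈ Orb {u | u ∈ W ∧ ¬ b ∣ u} (b * m) Q, F P +
    ∑ P ∈ Orb W m (b • Q), F (b' • P) = ∑ P ∈ Orb W (b * m) Q, F P

/-! ### The twist -/

/-- the Kummer character factors through the action on torsion points -/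
def FAC_st : Prop := ∀ D r : ℕ, D ≠ 0 → r ≠ 0 →
  (∀ l : ℕ, l.Prime → l ≠ 3 → ¬ 3 ∣ D.factorization l → l ∣ r) →
  ∀ g ∈ UM (9 * r), kum D g = 0

/-- the twisted curve -/
def ISO_st : Prop := ∀ D : ℕ, D ≠ 0 → ∃ Ψ : Pts (E3 0 D) Qb ≃+ Pt,
  (∀ x y, On 0 D x y → On 0 1 (x / cbr D ^ 2) (y / D) ∧
    Ψ (pt 0 D x y) = pt 0 1 (x / cbr D ^ 2) (y / D)) ∧
  ∀ g ∈ GK, ∀ P, Ψ (galQ (E3 0 D) g P) = eta (fun g => 2 * kum D g) g (Ψ P)

theorem ORB_st.prod (h : ORB_st) {A : Type} [CommMonoid A] (F : Pt → A) {χ : GQ → ZMod 3}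
    {M₀ M : Zw} {Q : Pt} {X : Finset GQ} (h1 : Adt GK χ) (h2 : ∀ g ∈ UM M₀, χ g = 0) (h3 : 3 ∣ M₀)
    (h4 : M₀ ∣ M) (h5 : M ≠ 0) (h6 : Gen M Q) (h7 : Trv (UM M) GK X) :
    ∏ y ∈ X, F (eta χ y Q) = ∏ P ∈ Orb {u | u ∈ Wc χ M₀ ∧ IsCoprime u M} M Q, F P :=
  h (Additive A) F χ M₀ M Q X h1 h2 h3 h4 h5 h6 h7

theorem DIST_st.prod (h : DIST_st) {A : Type} [CommMonoid A] (F F' : Pt → A) {W : Set Zw}
    {b m : Zw} {Q : Pt} (h1 : b ≠ 0) (h2 : m ≠ 0) (h3 : Gen (b * m) Q) (h4 : Sat W m) :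
    ((∀ P ∈ Orb W (b * m) Q, ∏ T ∈ tor b, F (P + T) = F' (b • P)) →
      ∏ P ∈ Orb W (b * m) Q, F P = ∏ P ∈ Orb W m (b • Q), F' P) ∧
    ∀ b', m ∣ b * b' - 1 → (∏ P ∈ Orb {u | u ∈ W ∧ ¬ b ∣ u} (b * m) Q, F P) *
      ∏ P ∈ Orb W m (b • Q), F (b' • P) = ∏ P ∈ Orb W (b * m) Q, F P :=
  h (Additive A) F F' W b m Q h1 h2 h3 h4

end Pool.Agent.MP_e23604_nt.W

end

section

/-!
Finite chain rings.
-/

set_option autoImplicit false

open Finset
open scoped Classical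

namespace Pool.Agent.MP_e23604_nt.W

variable {R : Type} [CommRing R] {t : R} {N : ℕ}

theorem vl_le (t : R) (N : ℕ) (x : R) : vl t N x ≤ N := Nat.findGreatest_le N

theorem vl_dvd (t : R) (N : ℕ) (x : R) : t ^ vl t N x ∣ x :=
  Nat.findGreatest_spec (P := fun i => t ^ i ∣ x) (Nat.zero_le N) (by simp)

theorem le_vl {x : R} {i : ℕ} (hi : i ≤ N) : i ≤ vl t N x ↔ t ^ i ∣ x :=
  ⟨fun h => (pow_dvd_pow t h).trans (vl_dvd t N x),
    Nat.le_findGreatest (P := fun i => t ^ i ∣ x) hi⟩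

theorem vl_zero (t : R) (N : ℕ) : vl t N 0 = N :=
  (vl_le t N 0).antisymm ((le_vl le_rfl).2 (dvd_zero _))

theorem vl_mono {x y : R} (h : x ∣ y) : vl t N x ≤ vl t N y :=
  (le_vl (vl_le t N x)).2 ((vl_dvd t N x).trans h)

theorem vl_unit {u : R} (hu : IsUnit u) (x : R) : vl t N (u * x) = vl t N x :=
  (vl_mono (hu.mul_left_dvd.2 dvd_rfl)).antisymm (vl_mono (dvd_mul_left x u))

theorem vl_neg (x : R) : vl t N (-x) = vl t N x := by
  rw [← neg_one_mul, vl_unit isUnit_one.neg]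

namespace Chn

theorem pow_eq_zero (h : Chn t N) {i : ℕ} : t ^ i = 0 ↔ N ≤ i :=
  ⟨fun e => not_lt.1 fun hi => h.ne (pow_eq_zero_of_le (by omega) e),
    fun hi => pow_eq_zero_of_le hi h.nil⟩

theorem nontriv (h : Chn t N) : Nontrivial R := nontrivial_of_ne _ _ h.ne

theorem nilp (h : Chn t N) : IsNilpotent t := ⟨N, h.nil⟩

theorem not_unit (h : Chn t N) : ¬ IsUnit t := fun e =>
  have := h.nontriv
  (e.pow N).ne_zero h.nil

theorem unit_iff (h : Chn t N) {x : R} : IsUnit x ↔ ¬ t ∣ x := by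
  refine ⟨fun e d => h.not_unit (isUnit_of_dvd_unit d e), fun e => ?_⟩
  obtain ⟨u, i, hu, rfl⟩ := h.dec x
  rcases i with _ | i
  · simpa using hu
  · exact absurd ((dvd_pow_self t i.succ_ne_zero).mul_left u) e

theorem pow_dvd (h : Chn t N) {i k : ℕ} (hk : k < N) (e : t ^ i ∣ t ^ k) : i ≤ k := by
  by_contra hn
  obtain ⟨c, hc⟩ := (pow_dvd_pow t (not_le.1 hn)).trans e
  have : IsUnit (1 - t * c) := ((Commute.all t c).isNilpotent_mul_right h.nilp).isUnit_one_sub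
  rw [pow_succ] at hc
  have e : (1 - t * c) * t ^ k = 0 := by linear_combination hc
  exact absurd (h.pow_eq_zero.1 (this.mul_right_eq_zero.1 e)) (by omega)

theorem vl_pow (h : Chn t N) (i : ℕ) : vl t N (t ^ i) = min N i := by
  rcases le_or_gt N i with hi | hi
  · rw [h.pow_eq_zero.2 hi, vl_zero, min_eq_left hi]
  · rw [min_eq_right hi.le]
    exact (h.pow_dvd hi (vl_dvd t N _)).antisymm ((le_vl hi.le).2 dvd_rfl)

theorem ex_unit (h : Chn t N) (x : R) : ∃ u, IsUnit u ∧ x = u * t ^ vl t N x := by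
  obtain ⟨u, i, hu, rfl⟩ := h.dec x
  refine ⟨u, hu, ?_⟩
  rw [vl_unit hu, h.vl_pow]
  rcases le_or_gt N i with hi | hi
  · rw [min_eq_left hi, h.pow_eq_zero.2 hi, h.nil]
  · rw [min_eq_right hi.le]

theorem vl_eq (h : Chn t N) {x : R} : vl t N x = N ↔ x = 0 :=
  ⟨fun e => by simpa [e, h.nil] using vl_dvd t N x, fun e => e ▸ vl_zero t N⟩

theorem le_iff (h : Chn t N) {x : R} : N ≤ vl t N x ↔ x = 0 :=
  ⟨fun e => h.vl_eq.1 ((vl_le t N x).antisymm e), fun e => (h.vl_eq.2 e).ge⟩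

theorem vl_mul (h : Chn t N) (x y : R) : vl t N (x * y) = min N (vl t N x + vl t N y) := by
  obtain ⟨u, hu, e⟩ := h.ex_unit x
  obtain ⟨u', hu', e'⟩ := h.ex_unit y
  rw [← h.vl_pow, ← vl_unit (hu.mul hu') (t ^ _), pow_add, mul_mul_mul_comm, ← e, ← e']

theorem mul_eq_zero (h : Chn t N) {x y : R} : x * y = 0 ↔ N ≤ vl t N x + vl t N y := by
  rw [← h.le_iff, h.vl_mul, le_min_iff, and_iff_right le_rfl]

theorem dvd_iff (h : Chn t N) {x y : R} : x ∣ y ↔ vl t N x ≤ vl t N y := by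
  refine ⟨vl_mono, fun e => ?_⟩
  obtain ⟨u, hu, e'⟩ := h.ex_unit x
  rw [e', hu.mul_left_dvd]
  exact (le_vl (vl_le t N x)).1 e

theorem pow_mul_eq_zero (h : Chn t N) {i : ℕ} {x : R} : t ^ i * x = 0 ↔ t ^ (N - i) ∣ x := by
  rw [h.mul_eq_zero, h.vl_pow, ← le_vl (Nat.sub_le N i)]
  omega

/-- an element of minimal valuation in a set of values -/
theorem ex_min (h : Chn t N) {α : Type} {S : Set α} (hS : S.Nonempty) (f : α → R) :
    ∃ a ∈ S, ∀ b ∈ S, f a ∣ f b := by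
  obtain ⟨a, ha, e⟩ := (InvImage.wf (fun a => vl t N (f a)) wellFounded_lt).has_min S hS
  exact ⟨a, ha, fun b hb => h.dvd_iff.2 (not_lt.1 (e b hb))⟩

theorem card_step (h : Chn t N) {i : ℕ} (hi : i < N) :
    Nat.card (Ideal.span {t ^ i}) = kp t * Nat.card (Ideal.span {t ^ (i + 1)}) := by
  let f : R →ₗ[R] R ⧸ Ideal.span {t ^ (i + 1)} :=
    (Ideal.span {t ^ (i + 1)}).mkQ ∘ₗ LinearMap.mul R R (t ^ i)
  have hk : LinearMap.ker f = Ideal.span {t} := by
    ext x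
    simp only [f, LinearMap.mem_ker, LinearMap.comp_apply, LinearMap.mul_apply', Submodule.mkQ_apply,
      Submodule.Quotient.mk_eq_zero, Ideal.mem_span_singleton]
    refine ⟨fun e => by_contra fun d => ?_, fun d => pow_succ t i ▸ mul_dvd_mul_left _ d⟩
    have := h.pow_dvd hi (((h.unit_iff.2 d).dvd_mul_right).1 e)
    omega
  have hr : LinearMap.range f =
      Submodule.map (Ideal.span {t ^ (i + 1)}).mkQ (Ideal.span {t ^ i}) := by
    rw [LinearMap.range_comp]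
    congr 1
    ext x
    simp only [LinearMap.mem_range, LinearMap.mul_apply', Ideal.mem_span_singleton]
    exact ⟨fun ⟨y, e⟩ => ⟨y, e.symm⟩, fun ⟨y, e⟩ => ⟨y, e.symm⟩⟩
  have h1 : kp t = Nat.card (LinearMap.range f) := by
    rw [kp, ← hk]
    exact Nat.card_congr f.quotKerEquivRange.toEquiv
  have hle : Ideal.span {t ^ (i + 1)} ≤ Ideal.span {t ^ i} :=
    Ideal.span_singleton_le_span_singleton.2 (pow_dvd_pow t i.le_succ)
  let g := (Ideal.span {t ^ (i + 1)}).mkQ ∘ₗ (Ideal.span {t ^ i}).subtype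
  rw [h1, hr, Submodule.card_eq_card_quotient_mul_card (LinearMap.ker g), mul_comm,
    Nat.card_congr g.quotKerEquivRange.toEquiv, LinearMap.range_comp, Submodule.range_subtype,
    LinearMap.ker_comp, Submodule.ker_mkQ,
    Nat.card_congr (Submodule.comapSubtypeEquivOfLe hle).toEquiv]

theorem card_span (h : Chn t N) {i : ℕ} (hi : i ≤ N) :
    Nat.card (Ideal.span {t ^ i}) = kp t ^ (N - i) := by
  induction hi using Nat.decreasingInduction with
  | self => simp [h.nil]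
  | of_succ i hi ih =>
    rw [h.card_step hi, ih, ← pow_succ', Nat.sub_add_eq, Nat.sub_add_cancel (by omega)]

theorem card_eq (h : Chn t N) : Nat.card R = kp t ^ N := by
  have := h.card_span (Nat.zero_le N)
  rwa [pow_zero, Ideal.span_singleton_one, Nat.card_congr Submodule.topEquiv.toEquiv] at this

theorem card_dvd (h : Chn t N) (x : R) : Nat.card {y // x ∣ y} = kp t ^ (N - vl t N x) := by
  rw [← h.card_span (vl_le t N x)]
  refine Nat.card_congr (Equiv.subtypeEquivRight fun y => ?_)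
  rw [Ideal.mem_span_singleton, h.dvd_iff, le_vl (vl_le t N x)]

theorem card_ann (h : Chn t N) (x : R) : Nat.card {y // x * y = 0} = kp t ^ vl t N x := by
  have := h.card_span (Nat.sub_le N (vl t N x))
  rw [Nat.sub_sub_self (vl_le t N x)] at this
  rw [← this]
  refine Nat.card_congr (Equiv.subtypeEquivRight fun y => ?_)
  rw [Ideal.mem_span_singleton, h.mul_eq_zero, ← le_vl (Nat.sub_le _ _)]
  omega

theorem two_le (h : Chn t N) : 2 ≤ kp t := by
  have := h.fin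
  have : Nontrivial (R ⧸ Ideal.span {t}) :=
    Ideal.Quotient.nontrivial_iff.2 (by rw [Ne, Ideal.span_singleton_eq_top]; exact h.not_unit)
  have : Finite (R ⧸ Ideal.span {t}) := Finite.of_surjective _ Ideal.Quotient.mk_surjective
  exact Finite.one_lt_card

/-- quotients of chain rings -/
theorem map (h : Chn t N) {R' : Type} [CommRing R'] (f : R →+* R') (hf : Function.Surjective f)
    {i : ℕ} (h0 : 0 < i) (hi : i ≤ N) (hk : ∀ x, f x = 0 ↔ t ^ i ∣ x) : Chn (f t) i := by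
  have := h.fin
  refine ⟨Finite.of_surjective f hf, h0, by rw [← map_pow, hk], ?_, fun x => ?_⟩
  · rw [← map_pow, Ne, hk]
    exact fun e => by have := h.pow_dvd (by omega) e; omega
  · obtain ⟨x, rfl⟩ := hf x
    obtain ⟨u, k, hu, rfl⟩ := h.dec x
    exact ⟨f u, k, hu.map f, by rw [map_mul, map_pow]⟩

end Chn

theorem kp_map {R' : Type} [CommRing R'] (f : R →+* R') (hf : Function.Surjective f)
    (hk : ∀ x, f x = 0 → t ∣ x) : kp (f t) = kp t := by
  let g := (Ideal.Quotient.mk (Ideal.span {f t})).comp f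
  have hg : Function.Surjective g := Ideal.Quotient.mk_surjective.comp hf
  have : RingHom.ker g = Ideal.span {t} := by
    ext x
    simp only [g, RingHom.mem_ker, RingHom.comp_apply, Ideal.Quotient.eq_zero_iff_mem,
      Ideal.mem_span_singleton]
    refine ⟨fun ⟨c, e⟩ => ?_, fun d => map_dvd f d⟩
    obtain ⟨c, rfl⟩ := hf c
    simpa using dvd_add (hk (x - t * c) (by rw [map_sub, map_mul, e, sub_self])) (dvd_mul_right t c)
  rw [kp, kp, ← this]
  exact (Nat.card_congr (RingHom.quotientKerEquivOfSurjective hg).toEquiv).symm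

theorem ex_j {n : ℕ} (h : (n : R) = 0) : Nonempty (ZMod n →+* R) :=
  ⟨ZMod.castHom (ringChar.dvd h) R⟩

theorem j_zero {n : ℕ} (j : ZMod n →+* R) : (n : R) = 0 := by
  rw [← map_natCast j, ZMod.natCast_self, map_zero]

theorem qt_mk (b : Zw) : Qt (Ideal.Quotient.mk (Ideal.span {b})) b :=
  ⟨Ideal.Quotient.mk_surjective, fun _ => by
    rw [Ideal.Quotient.eq_zero_iff_mem, Ideal.mem_span_singleton]⟩

theorem Qt.congr {φ : Zw →+* R} {b b' : Zw} (h : Qt φ b) (e : Associated b b') : Qt φ b' :=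
  ⟨h.sur, fun x => (h.ker x).trans e.dvd_iff_dvd_left⟩

theorem Qt.card {φ : Zw →+* R} {b : Zw} (h : Qt φ b) : Nat.card R = nn b := by
  have e : RingHom.ker φ = Ideal.span {b} := Ideal.ext fun x => by
    rw [RingHom.mem_ker, h.ker, Ideal.mem_span_singleton]
  rw [← Nat.card_congr (RingHom.quotientKerEquivOfSurjective h.sur).toEquiv, e]
  have := Module.Finite.of_basis (QuadraticAlgebra.basis (-1 : ℤ) (-1))
  have := Module.Free.of_basis (QuadraticAlgebra.basis (-1 : ℤ) (-1))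
  have h1 := Ideal.absNorm_span_singleton b
  rw [Ideal.absNorm_apply, Submodule.cardQuot_apply] at h1
  rw [h1, nn, Algebra.norm_eq_matrix_det (QuadraticAlgebra.basis (-1 : ℤ) (-1)), Matrix.det_fin_two,
    nw_def]
  simp [Algebra.leftMulMatrix_eq_repr_mul, QuadraticAlgebra.basis]
  congr 1
  ring

theorem Qt.chn {φ : Zw →+* R} {ϖ : Zw} {n : ℕ} (h : Qt φ (ϖ ^ n)) (hp : Prime ϖ) (hn : 0 < n) :
    Chn (φ ϖ) n ∧ kp (φ ϖ) = nn ϖ := by
  have h0 := pow_ne_zero n hp.ne_zero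
  refine ⟨⟨Nat.finite_of_card_ne_zero (h.card ▸ (nn_pos h0).ne'), hn, by rw [← map_pow, h.ker],
    ?_, fun x => ?_⟩, ?_⟩
  · rw [← map_pow, Ne, h.ker, pow_dvd_pow_iff hp.ne_zero hp.not_isUnit]
    omega
  · obtain ⟨x, rfl⟩ := h.sur x
    by_cases x0 : x = 0
    · exact ⟨1, n, isUnit_one, by rw [x0, map_zero, one_mul, ← map_pow, eq_comm, h.ker]⟩
    obtain ⟨i, u, hu, rfl⟩ := WfDvdMonoid.max_power_factor x0 hp.irreducible
    obtain ⟨a, b, e⟩ := ((hp.irreducible.coprime_iff_not_dvd).2 hu).pow_left (m := n)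
    refine ⟨φ u, i, .of_mul_eq_one (φ b) ?_, by rw [map_mul, map_pow, mul_comm]⟩
    have := congrArg φ e
    rwa [map_add, (h.ker _).2 (dvd_mul_left _ _), zero_add, map_mul, map_one, mul_comm] at this
  · rw [kp_map φ h.sur fun x e => (dvd_pow_self ϖ hn.ne').trans ((h.ker x).1 e)]
    exact (qt_mk ϖ).card

theorem nn_pw : nn pw = 3 := by decide

theorem prime_of_nn {b : Zw} (h : (nn b).Prime) : Prime b := by
  refine Irreducible.prime ⟨fun e => ?_, fun x y e => ?_⟩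
  · have := Int.isUnit_iff_natAbs_eq.1 (QuadraticAlgebra.isUnit_iff_norm_isUnit.1 e)
    exact h.one_lt.ne' this
  · rw [e, nn_mul] at h
    exact (Nat.prime_mul_iff.1 h).symm.imp
      (fun d => QuadraticAlgebra.isUnit_iff_norm_isUnit.2 (Int.isUnit_iff_natAbs_eq.2 d.2))
      fun d => QuadraticAlgebra.isUnit_iff_norm_isUnit.2 (Int.isUnit_iff_natAbs_eq.2 d.2)

theorem pw_prime : Prime pw := prime_of_nn (nn_pw ▸ Nat.prime_three)

theorem pw_three (n : ℕ) : Associated ((3 : Zw) ^ n) (pw ^ (2 * n)) := by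
  rw [pow_mul, pw_sq]
  exact (Associated.refl (3 : Zw)).neg_right.pow_pow

theorem Qt.chn3 {φ : Zw →+* R} {n : ℕ} (h : Qt φ (3 ^ n)) (hn : 0 < n) :
    Chn (φ pw) (2 * n) ∧ kp (φ pw) = 3 :=
  nn_pw ▸ (h.congr (pw_three n)).chn pw_prime (by omega)

end Pool.Agent.MP_e23604_nt.W

end

section

/-!
The statements that connect the parts of the proof.
-/

set_option autoImplicit false

open Finset QuadraticAlgebra
open scoped Classical

namespace Pool.Agent.MP_e23604_nt.W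

open B R S

/-- twisted norms of Kummer cocycles -/
def ZC_st : Prop := ∀ (R : Type) [CommRing R] (N : ℕ) (j : ZMod N →+* R) (U : Subgroup GQ)
  (lam : GQ → R), Chr j U lam →
  (Mu GK lam ∧ Mu GK (rho j lam) ∧ (∀ g ∈ GK, rho j lam g * lam g = cj j g) ∧
    ∀ u ∈ U, rho j lam u = 1) ∧
  ∀ θ : Qb, θ ≠ 0 → Fix U θ → Co (rho j lam) GK (zc j U lam θ) ∧
    (∀ θ', θ' ≠ 0 → Fix U θ' → Bo (rho j lam) GK fun g =>
      zc j U lam (θ * θ') g - zc j U lam θ g - zc j U lam θ' g) ∧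
    (∀ s ∈ GK, ∀ g ∈ GK, zc j U lam (s θ) g = lam s * zc j U lam θ g) ∧
    (∀ V : Plc, V.v N = 1 → V.I ≤ U → (∀ y ∈ GK, V.v (y θ) = 1) →
      ∀ τ ∈ V.I, zc j U lam θ τ = 0) ∧
    ∀ U', U ≤ U' → Chr j U' lam → Bo (rho j lam) GK fun g =>
      zc j U lam θ g - zc j U' lam (∏ y ∈ Xs U U', y θ) g

/-- the character of the twisted action -/
def LZ_st : Prop := ∀ (χ : GQ → ZMod 3) (r : ℕ) (M : Zw), Tw χ r → M ≠ 0 → (9 * r : Zw) ∣ M →
  (∀ u ∈ UM M, χ u = 0) ∧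
  (∀ g ∈ GK, ∀ P : Pt, M • P = 0 → eta χ g P = (ω ^ (χ g).val * ps M g : Zw) • P) ∧
  ∀ (R : Type) [CommRing R] (φ : Zw →+* R), φ M = 0 →
    (∀ (N : ℕ) (j : ZMod N →+* R), (N : Zw) ∣ M → Chr j (UM M) (lamZ φ χ M) ∧
      ∀ g ∈ GK, cy N g = nn (ps M g)) ∧
    ∀ b : Zw, b ∣ M → φ b = 0 → Unr (3 * r * b) fun g => lamZ φ χ M g - 1

/-- the annihilator of strict classes -/
def ES1_st : Prop := ∀ (R : Type) [CommRing R] (p n : ℕ) (j : ZMod (p ^ n) →+* R) (t : R) (N : ℕ)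
  (M a : Zw) (Q : Pt) (lam x : GQ → R), Chn t N → ES p n j M a Q lam → Str lam M x →
  ∀ g ∈ GK, ∀ u ∈ UM M, ∀ u' ∈ UM M,
    4 * (rho j lam g - 1) * zc j (UM M) lam (Th a Q) u' * x u = 0

/-- the bottom class of the Euler system is not too divisible -/
def NT_st : Prop := ∀ (χ : GQ → ZMod 3) (r : ℕ) (a : Zw), Tw χ r → HB χ r → Adm r a →
  ∃ c m : ℕ, ∀ n₀ : ℕ, ∃ n, n₀ ≤ n ∧ ∀ (R : Type) [CommRing R] (φ : Zw →+* R)
    (j : ZMod (3 ^ n) →+* R) (M : Zw) (Q : Pt), Qt φ (3 ^ n) → M = 3 ^ (n + m) * (9 * r) →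
    Gen M Q → ∃ u ∈ UM M, ¬ (3 : R) ^ c ∣ zc j (UM M) (lamZ φ χ M) (Th a Q) u

/-- the lower bound for the number of cocycles -/
def LOW_st : Prop := ∀ (R : Type) [CommRing R] (t : R) (N n : ℕ)
  (θ : GQ → R) (b : Zw) (Q : Finset Zw), Chn t N → (3 : R) ^ n = 0 → Mu GK θ → (∀ g ∈ GK, t ∣ θ g - 1) → b ≠ 0 →
  Unr (3 * b) (fun g => θ g - 1) →
  (∀ ϖ ∈ Q, PP ϖ ∧ ϖ ∣ b ∧ ∃ V : Plc, Ov V ϖ ∧ ∀ g ∈ V.D, θ g = 1 ∧ cy (3 ^ n) g = 1) →
  ((Nat.card R ^ (2 + Q.card) : ℕ) : ℕ∞) ≤ (rs GK fun c => Co θ GK c ∧ Unr (3 * b) c).encard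

/-- the number of generators -/
def GEN_st : Prop := ∀ b : Zw, b ≠ 0 → ∃ (d : ℕ) (e : Fin d → GQ), (∀ i, e i ∈ GK) ∧
  ∀ (R : Type) [CommRing R] (t : R) (n : ℕ) (θ c : GQ → R), IsNilpotent t → (3 : R) ^ n = 0 →
    Mu GK θ → (∀ g ∈ GK, t ∣ θ g - 1) → Unr (3 * b) (fun g => θ g - 1) → Co θ GK c →
    Unr (3 * b) c → (∀ i, c (e i) = 0) → ∀ g ∈ GK, c g = 0

/-- the bound for the exponent at the primes other than three -/
def FINP_st : Prop := ∀ (χ : GQ → ZMod 3) (r : ℕ) (a : Zw), Tw χ r → HB χ r → Adm r a →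
  ∃ B : ℕ, B ≠ 0 ∧ ∀ p : ℕ, p.Prime → p ≠ 3 → p ≠ nn a → ∃ c : ℕ, (¬ p ∣ B → c = 0) ∧
    ∀ (k : ℕ) (x : GQ → Pt), SelK χ x → (∀ g ∈ GK, p ^ k • x g = 0) →
      Bz χ GK fun g => p ^ c • x g

end Pool.Agent.MP_e23604_nt.W

end

section

/-!
The complex uniformisation of the curve `y ^ 2 + y = x ^ 3`.
-/

set_option autoImplicit false

open Filter Topology Finset QuadraticAlgebra
open scoped Classical

namespace Pool.Agent.MP_e23604_nt.Un

open B R S W

/-- the complex cube root of unity -/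
noncomputable def zc3 : ℂ := eC w3

/-- the complex embedding of the Eisenstein integers -/
noncomputable def iz : Zw →+* ℂ := eC.comp io

theorem zc3_spec : zc3 ^ 2 + zc3 + 1 = 0 := by simpa [zc3] using congrArg eC w3_spec

theorem zc3_cube : zc3 ^ 3 = 1 := by linear_combination (zc3 - 1) * zc3_spec

theorem zc3_ne : zc3 ≠ 0 := fun h => by simpa [h] using zc3_spec

theorem zc3_im : zc3.im ≠ 0 := fun h => by
  have := congrArg Complex.re zc3_spec
  simp [pow_two, h] at this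
  nlinarith [sq_nonneg (zc3.re + 1 / 2)]

theorem iz_apply (b : Zw) : iz b = b.re + b.im * zc3 := by simp [iz, io_apply, zc3]

theorem iz_inj : Function.Injective iz := eC.injective.comp io_inj

/-- the Eisenstein integers as a lattice -/
noncomputable def L1 : PeriodPair where
  ω₁ := 1
  ω₂ := zc3
  indep := LinearIndependent.pair_iff.2 fun s t e => by
    have a := congrArg Complex.im e
    have b := congrArg Complex.re e
    simp [zc3_im] at a
    simpa [a] using b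

theorem mem_L1 {z : ℂ} : z ∈ L1.lattice ↔ ∃ b : Zw, iz b = z := by
  simp only [PeriodPair.mem_lattice, L1, mul_one, iz_apply]
  exact ⟨fun ⟨m, n, e⟩ => ⟨⟨m, n⟩, e⟩, fun ⟨b, e⟩ => ⟨_, _, e⟩⟩

theorem iz_w : iz ω = zc3 := by simp [iz_apply]

theorem L1_sc : Sc zc3 L1 L1 := by
  refine ⟨zc3_ne, fun z => ?_⟩
  simp only [mem_L1]
  refine ⟨fun ⟨b, e⟩ => ⟨ω ^ 2 * b, ?_⟩, fun ⟨b, e⟩ => ⟨ω * b, by rw [map_mul, iz_w, e]⟩⟩
  rw [map_mul, map_pow, iz_w, e]
  linear_combination z * zc3_cube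

theorem g2_of_sc {L : PeriodPair} (h : Sc zc3 L L) : L.g₂ = 0 := by
  have e := h.g₂
  have : zc3 ^ 4 = zc3 := by linear_combination zc3 * zc3_cube
  rw [this, eq_inv_mul_iff_mul_eq₀ zc3_ne] at e
  linear_combination (-(zc3 + 2) / 3) * e + (L.g₂ / 3) * zc3_spec

theorem L1_g3 : L1.g₃ ≠ 0 := fun h => by
  obtain ⟨z, hz, e1, e2⟩ := surj (L := L1) (x := 0) (y := 0) (by simp [h])
  exact nonsing hz e2 (by simp [e1, g2_of_sc L1_sc])

/-- the period -/
noncomputable def Om : ℂ := Classical.epsilon fun z => z ^ 6 = -L1.g₃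

theorem Om_pow : Om ^ 6 = -L1.g₃ :=
  Classical.epsilon_spec (IsAlgClosed.exists_pow_nat_eq _ (by norm_num))

theorem Om_ne : Om ≠ 0 := fun h => L1_g3 (by simpa [h] using Om_pow.symm)

/-- the period lattice -/
noncomputable def L0 : PeriodPair := scl Om Om_ne L1

theorem mem_L0 {z : ℂ} : z ∈ L0.lattice ↔ ∃ b : Zw, Om * iz b = z := by
  rw [← mul_inv_cancel_left₀ Om_ne z, L0, (scl_sc Om Om_ne L1).2, mem_L1]
  simp only [mul_right_inj' Om_ne]

theorem L0_mul (b : Zw) {z : ℂ} (h : z ∈ L0.lattice) : iz b * z ∈ L0.lattice := by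
  obtain ⟨c, rfl⟩ := mem_L0.1 h
  exact mem_L0.2 ⟨b * c, by rw [map_mul]; ring⟩

theorem L0_sc : Sc zc3 L0 L0 := ⟨zc3_ne, fun z => ⟨fun h => by
  have := L0_mul (ω ^ 2) h
  rwa [map_pow, iz_w, show zc3 ^ 2 * (zc3 * z) = z by linear_combination z * zc3_cube] at this,
  fun h => iz_w ▸ L0_mul ω h⟩⟩

theorem L0_g2 : L0.g₂ = 0 := g2_of_sc L0_sc

theorem L0_g3 : L0.g₃ = -1 := by
  rw [L0, (scl_sc Om Om_ne L1).g₃, Om_pow]
  field_simp [L1_g3]

theorem wp_w (z : ℂ) : wp L0 (zc3 * z) = zc3 * wp L0 z := by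
  rw [L0_sc.wp_mul, inv_eq_of_mul_eq_one_right (b := zc3) (by linear_combination zc3_cube)]

theorem wq_w (z : ℂ) : wq L0 (zc3 * z) = wq L0 z := by
  rw [L0_sc.wq_mul, zc3_cube, inv_one, one_mul]

theorem onC {x y : ℂ} : On 0 1 x y ↔ y ^ 2 + y = x ^ 3 := by simp [On]

theorem on_L0 {z : ℂ} (h : z ∉ L0.lattice) : On 0 1 (wp L0 z) ((wq L0 z - 1) / 2) := by
  have := wq_sq h
  rw [L0_g2, L0_g3] at this
  rw [onC]
  linear_combination this / 4

/-- the complex points -/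
abbrev PC : Type := Pts (E3 0 1) ℂ

/-- the complex point with parameter `z` -/
noncomputable def ue (z : ℂ) : PC :=
  if z ∈ L0.lattice then 0 else pt 0 1 (wp L0 z) ((wq L0 z - 1) / 2)

theorem ue_of {z : ℂ} (h : z ∉ L0.lattice) :
    ue z = pt 0 1 (wp L0 z) ((wq L0 z - 1) / 2) := if_neg h

theorem ue_eq_zero {z : ℂ} : ue z = 0 ↔ z ∈ L0.lattice :=
  ⟨fun e => by_contra fun h => pt_ne_zero G01 (on_L0 h) ((ue_of h).symm.trans e),
    fun h => if_pos h⟩

theorem ue_add (z w : ℂ) : ue (z + w) = ue z + ue w := by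
  refine add_of_gen (L := L0) (fun z => ue_eq_zero.2) (fun z l hl => ?_) (fun z => ?_)
    (fun z w hz hw hs hd => ?_) z w
  · simp only [ue, wp_per hl, wq_per hl, L0.lattice.add_mem_iff_left hl]
  · by_cases hz : z ∈ L0.lattice
    · rw [ue_eq_zero.2 hz, ue_eq_zero.2 (neg_mem hz), neg_zero]
    · rw [ue_of hz, ue_of (by simpa using hz), pt_neg G01 (on_L0 hz), wp, wq,
        L0.weierstrassP_neg, L0.derivWeierstrassP_neg]
      congr 1
      push_cast
      ring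
  · have hx : wp L0 z ≠ wp L0 w := fun e => by
      rcases wp_eq hw hz e.symm with h | h
      exacts [hd h, hs h]
    have hx' := sub_ne_zero.2 hx
    obtain ⟨a, b⟩ := add_thm hz hw hs
    rw [ue_of hz, ue_of hw, ue_of hs]
    refine (pt_add_ne G01 (l := (wq L0 z - wq L0 w) / (2 * (wp L0 z - wp L0 w))) (on_L0 hz)
      (on_L0 hw) hx ?_ ?_ ?_).2.symm
    · field_simp
      ring
    · push_cast
      field_simp
      linear_combination a
    · push_cast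
      field_simp
      linear_combination b

/-- the uniformisation as a homomorphism -/
noncomputable def uE : ℂ →+ PC := AddMonoidHom.mk' ue ue_add

theorem ue_surj : Function.Surjective ue := by
  intro P
  rcases pt_cases G01 P with rfl | ⟨x, y, h, rfl⟩
  · exact ⟨0, ue_eq_zero.2 (zero_mem _)⟩
  · obtain ⟨z, hz, e1, e2⟩ := surj (L := L0) (x := x) (y := 2 * y + 1) (by
      rw [L0_g2, L0_g3]
      linear_combination 4 * onC.1 h)
    refine ⟨z, (ue_of hz).trans ?_⟩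
    rw [e1, e2]
    congr 1
    ring

theorem ue_eq {z w : ℂ} : ue z = ue w ↔ z - w ∈ L0.lattice := by
  rw [← ue_eq_zero, ← sub_eq_zero]
  exact (map_sub uE z w).symm.congr_left

/-- algebraic points as complex points -/
noncomputable def iC : Pt →+ PC := act (E3 0 1) eC

theorem iC_pt {x y : Qb} (h : On 0 1 x y) : iC (pt 0 1 x y) = pt 0 1 (eC x) (eC y) :=
  act_pt G01 eC h

theorem iC_inj : Function.Injective iC := (injective_iff_map_eq_zero iC).2 fun P h => by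
  rcases pt_cases G01 P with rfl | ⟨x, y, h', rfl⟩
  · rfl
  · exact absurd (iC_pt h' ▸ h) (pt_ne_zero G01 (h'.map eC))

/-- a logarithm of an algebraic point -/
noncomputable def lg (P : Pt) : ℂ := (ue_surj (iC P)).choose

theorem ue_lg (P : Pt) : ue (lg P) = iC P := (ue_surj (iC P)).choose_spec

theorem lg_mem {P : Pt} : lg P ∈ L0.lattice ↔ P = 0 := by
  rw [← ue_eq_zero, ue_lg, map_eq_zero_iff _ iC_inj]

theorem lg_sub_mem {P Q : Pt} : lg P - lg Q ∈ L0.lattice ↔ P = Q := by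
  rw [← ue_eq, ue_lg, ue_lg, iC_inj.eq_iff]

theorem lg_add (P Q : Pt) : lg (P + Q) - (lg P + lg Q) ∈ L0.lattice := by
  rw [← ue_eq, ue_add, ue_lg, ue_lg, ue_lg, map_add]

theorem lg_xy {P : Pt} (h : P ≠ 0) :
    wp L0 (lg P) = eC (xc P) ∧ wq L0 (lg P) = eC (2 * yc P + 1) := by
  have h1 : lg P ∉ L0.lattice := fun e => h (lg_mem.1 e)
  have e := ue_lg P
  rw [ue_of h1] at e
  nth_rw 3 [(on_xy h).2] at e
  rw [iC_pt (on_xy h).1] at e
  obtain ⟨a, b⟩ := pt_inj G01 (on_L0 h1) ((on_xy h).1.map eC) e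
  refine ⟨a, ?_⟩
  rw [map_add, map_mul, ← b, map_one, map_ofNat]
  ring

theorem lg_x (P : Pt) : wp L0 (lg P) = eC (xc P) := by
  by_cases h : P = 0
  · rw [show wp L0 (lg P) = 0 from L0.weierstrassP_coe ⟨_, lg_mem.2 h⟩, h, xc_zero, map_zero]
  · exact (lg_xy h).1

theorem ue_w (P : Pt) : ue (zc3 * lg P) = iC ((ω : Zw) • P) := by
  by_cases h : P = 0
  · rw [ue_eq_zero.2 ((L0_sc.2 _).2 (lg_mem.2 h)), h, smul_zero, map_zero]
  rw [ue_of (fun e => h (lg_mem.1 ((L0_sc.2 _).1 e))), wp_w, wq_w, (lg_xy h).1, (lg_xy h).2]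
  nth_rw 3 [(on_xy h).2]
  rw [w_pt (on_xy h).1, iC_pt (on_w (on_xy h).1), map_mul, map_add, map_mul, map_one, map_ofNat]
  congr 1
  ring

theorem ue_smul (b : Zw) (P : Pt) : ue (iz b * lg P) = iC (b • P) := by
  rw [smul_def, map_add, map_zsmul, map_zsmul, ← w_smul, ← ue_w, ← ue_lg, iz_apply]
  change uE _ = b.re • uE _ + b.im • uE _
  rw [← map_zsmul, ← map_zsmul, ← map_add]
  congr 1
  simp only [zsmul_eq_mul]
  ring

theorem lg_smul (b : Zw) (P : Pt) : lg (b • P) - iz b * lg P ∈ L0.lattice := by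
  rw [← ue_eq, ue_smul, ue_lg]

/-- the complex torsion points are algebraic -/
theorem ex_lg {n : ℕ} (hn : 0 < n) {z : ℂ} (h : n * z ∈ L0.lattice) :
    ∃ P : Pt, n • P = 0 ∧ lg P - z ∈ L0.lattice := by
  have : ((E3 0 1).baseChange ℂ).IsElliptic := by
    have : (E3 0 1).IsElliptic := ⟨by rw [E3_Δ]; norm_num⟩
    exact inferInstanceAs ((E3 0 1).map _).IsElliptic
  have c1 := btors_card EQ hn
  have c2 := btors_card ((E3 0 1).baseChange ℂ) hn
  have : Finite {P : PC // n • P = 0} :=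
    Nat.finite_of_card_ne_zero (c2 ▸ (pow_pos hn 2).ne')
  let f : {P : Pt // n • P = 0} → {P : PC // n • P = 0} :=
    fun P => ⟨iC P, by rw [← map_nsmul, P.2, map_zero]⟩
  have hf : Function.Bijective f := (Nat.bijective_iff_injective_and_card f).2
    ⟨fun P Q e => Subtype.ext (iC_inj (congrArg Subtype.val e)), c1.trans c2.symm⟩
  obtain ⟨P, e⟩ := hf.2 ⟨uE z, by
    rw [← map_nsmul, nsmul_eq_mul]
    exact ue_eq_zero.2 h⟩
  exact ⟨P, P.2, by rw [← ue_eq, ue_lg]; exact congrArg Subtype.val e⟩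

end Pool.Agent.MP_e23604_nt.Un

end
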