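import Pool.Agent.Mg.Fe23604m.G300596

set_option linter.all false

section

/-!
Further lemmas on Kummer cocycles and on representatives.
-/

set_option autoImplicit false

open Finset
open scoped Classical

namespace Pool.Agent.MP_e23604_nt.W

open B R S

theorem lc_sum {α ι : Type} [AddCommMonoid α] {H : Subgroup GQ} (s : Finset ι) {f : ι → GQ → α}
    (h : ∀ i ∈ s, Lc H (f i)) : Lc H fun g => ∑ i ∈ s, f i g := by
  induction s using Finset.induction_on with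
  | empty => exact Lc.const H _
  | insert i s hi ih =>
    simp only [sum_insert hi]
    exact (h i (mem_insert_self _ _)).map₂ (ih fun j hj => h j (mem_insert_of_mem hj)) (· + ·)

theorem lc_of_open {α : Type} {U H : Subgroup GQ} (hU : IsOpen (U : Set GQ)) {f : GQ → α}
    (h : ∀ g ∈ H, ∀ u ∈ U, g * u ∈ H → f (g * u) = f g) : Lc H f := by
  obtain ⟨N, h1, h2⟩ := ex_ON hU
  exact ⟨N, h1, fun g hg k hk e => by
    rw [← h g hg _ (h2 e) (by rwa [mul_inv_cancel_left]), mul_inv_cancel_left]⟩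

theorem cy_lc (N : ℕ) (H : Subgroup GQ) : Lc H (cy N) := (Lc.apply H (zt N)).map (lz N)

theorem km_lc (N : ℕ) (H : Subgroup GQ) (θ : Qb) : Lc H fun g => km N g θ :=
  (Lc.apply H (rt N θ)).map₂ (Lc.apply H θ) fun a b => lz N (a / rt N b)

variable {N : ℕ}

theorem cy_inv (h : N ≠ 0) (g : GQ) : cy N g * cy N g⁻¹ = 1 := by
  rw [← cy_mul h, mul_inv_cancel, cy_one h]

theorem cy_eq_one (h : N ≠ 0) {g : GQ} : cy N g = 1 ↔ ∀ z : Qb, z ^ N = 1 → g z = z :=
  ⟨fun e z hz => by rw [← zt_lz h hz, act_zt h, e, one_mul], fun e => by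
    rw [cy, e _ (zt_prim h).pow_eq_one]
    exact cy_one h⟩

theorem lz_prod (h : N ≠ 0) {ι : Type} (s : Finset ι) {f : ι → Qb} (hf : ∀ i ∈ s, f i ^ N = 1) :
    lz N (∏ i ∈ s, f i) = ∑ i ∈ s, lz N (f i) := by
  induction s using Finset.induction_on with
  | empty => exact lz_one h
  | insert i s hi ih =>
    have := fun j hj => hf j (mem_insert_of_mem hj)
    rw [prod_insert hi, sum_insert hi, lz_mul h (hf i (mem_insert_self _ _))
      (by rw [← prod_pow, prod_eq_one this]), ih this]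

theorem lz_eq_zero (h : N ≠ 0) {z : Qb} (hz : z ^ N = 1) : lz N z = 0 ↔ z = 1 :=
  ⟨fun e => by rw [← zt_lz h hz, e, ZMod.val_zero, pow_zero], fun e => e ▸ lz_one h⟩

/-- the defect of the chosen roots on a product -/
noncomputable def df (N : ℕ) {ι : Type} (s : Finset ι) (f : ι → Qb) : ZMod N :=
  lz N (rt N (∏ i ∈ s, f i) / ∏ i ∈ s, rt N (f i))

theorem km_prod (h : N ≠ 0) (g : GQ) {ι : Type} (s : Finset ι) {f : ι → Qb}
    (hf : ∀ i ∈ s, f i ≠ 0) : km N g (∏ i ∈ s, f i) =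
      ∑ i ∈ s, km N g (f i) + cy N g * df N s f - df N s fun i => g (f i) := by
  rw [km_any h g (prod_ne_zero_iff.2 hf) (s := ∏ i ∈ s, rt N (f i))
    (s' := ∏ i ∈ s, rt N (g (f i))) (by simp only [← prod_pow, rt_pow h])
    (by simp only [← prod_pow, rt_pow h, map_prod]), map_prod, map_prod, ← prod_div_distrib,
    lz_prod h s fun i hi => km_root h g (hf i hi)]
  rfl

theorem km_two (h : N ≠ 0) (g : GQ) {a b : Qb} (ha : a ≠ 0) (hb : b ≠ 0) : km N g (a * b) =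
    km N g a + km N g b + cy N g * lz N (rt N (a * b) / (rt N a * rt N b)) -
      lz N (rt N (g a * g b) / (rt N (g a) * rt N (g b))) := by
  simpa [df, add_comm] using km_prod h g (univ : Finset Bool) (f := fun i => cond i a b)
    (by simp [ha, hb])

/-- an element that fixes the number and the roots of unity: any root computes the cocycle -/
theorem km_fix (h : N ≠ 0) {g : GQ} {θ s : Qb} (h0 : θ ≠ 0) (hs : s ^ N = θ) (hg : g θ = θ)
    (hc : cy N g = 1) : km N g θ = lz N (g s / s) := by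
  rw [km_any h g h0 hs (hs.trans hg.symm), hc, hg, one_mul, add_sub_cancel_right]

theorem km_fix_mul (h : N ≠ 0) {g : GQ} {a b : Qb} (ha : a ≠ 0) (hb : b ≠ 0) (ga : g a = a)
    (gb : g b = b) (hc : cy N g = 1) : km N g (a * b) = km N g a + km N g b := by
  rw [km_two h g ha hb, ga, gb, hc, one_mul, add_sub_cancel_right]

theorem km_fix_pow (h : N ≠ 0) {g : GQ} {a : Qb} (ha : a ≠ 0) (ga : g a = a) (hc : cy N g = 1)
    (i : ℕ) : km N g (a ^ i) = i * km N g a := by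
  induction i with
  | zero => rw [pow_zero, km_fix h one_ne_zero (one_pow N) (map_one g) hc]; simp [lz_one h]
  | succ i ih =>
    rw [pow_succ, km_fix_mul h (pow_ne_zero i ha) ha (by rw [map_pow, ga]) ga hc, ih]
    push_cast
    ring

theorem km_conj (h : N ≠ 0) {g y : GQ} {θ : Qb} (h0 : θ ≠ 0) (hg : g θ = θ) (hc : cy N g = 1) :
    km N (y * g * y⁻¹) (y θ) = cy N y * km N g θ := by
  have e : ∀ x, y⁻¹ (y x) = x := fun x => by
    rw [← AlgEquiv.mul_apply, inv_mul_cancel, AlgEquiv.one_apply]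
  rw [km_fix h ((map_ne_zero y).2 h0) (s := y (rt N θ)) (by rw [← map_pow, rt_pow h])
    (by simp only [AlgEquiv.mul_apply, e, hg]) (by rw [cy_mul h, cy_mul h, hc, mul_one, cy_inv h]),
    km_fix h h0 (rt_pow h θ) hg hc, AlgEquiv.mul_apply, AlgEquiv.mul_apply, e, ← map_div₀,
    lz_act h y (by simpa only [hg] using km_root h g h0)]

theorem lz_cast (h : N ≠ 0) {k : ℕ} (hk : k ≠ 0) {z : Qb} (hz : z ^ (N * k) = 1) :
    lz N (z ^ k) = ZMod.castHom (dvd_mul_right N k) (ZMod N) (lz (N * k) z) := by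
  have : NeZero (N * k) := ⟨mul_ne_zero h hk⟩
  refine lz_eq h ?_
  rw [ZMod.castHom_apply, ← ZMod.natCast_val, zt_nat h, ← zt_pow h hk, ← pow_mul, mul_comm k,
    pow_mul, zt_lz (mul_ne_zero h hk) hz]

theorem cy_cast (h : N ≠ 0) {k : ℕ} (hk : k ≠ 0) (g : GQ) :
    cy N g = ZMod.castHom (dvd_mul_right N k) (ZMod N) (cy (N * k) g) := by
  rw [cy, cy, ← lz_cast h hk (by rw [← map_pow, (zt_prim (mul_ne_zero h hk)).pow_eq_one, map_one]),
    ← map_pow, zt_pow h hk]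

/-- change of the level -/
theorem km_cast (h : N ≠ 0) {k : ℕ} (hk : k ≠ 0) {g : GQ} {θ : Qb} (h0 : θ ≠ 0) (hg : g θ = θ)
    (hc : cy N g = 1) : km N g θ = ZMod.castHom (dvd_mul_right N k) (ZMod N) (km (N * k) g θ) := by
  rw [km_fix h h0 (s := rt (N * k) θ ^ k) (by rw [← pow_mul, mul_comm k, rt_pow (mul_ne_zero h hk)])
    hg hc, km, ← lz_cast h hk (km_root (mul_ne_zero h hk) g h0), hg, div_pow, map_pow]

/-- reduction is injective on roots of unity of order prime to the place -/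
theorem root_one (V : Plc) (hN : V.v N = 1) {z : Qb} (hz : z ^ N = 1) (h1 : V.v (z - 1) < 1) :
    z = 1 := by
  by_contra hn
  have h0 : N ≠ 0 := by
    rintro rfl
    simp at hN
  have hv : V.v z = 1 := (pow_eq_one_iff_of_nonneg (V.v.nonneg z) h0).1 (by rw [← map_pow, hz, map_one])
  have e : ∑ i ∈ range N, z ^ i = 0 := by
    rw [geom_sum_eq hn, hz, sub_self, zero_div]
  have : ∀ k : ℕ, V.v (∑ i ∈ range k, z ^ i - k) < 1 := fun k => by
    induction k with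
    | zero => simp
    | succ k ih =>
      rw [geom_sum_succ, show z * ∑ i ∈ range k, z ^ i + 1 - ((k + 1 : ℕ) : Qb) =
        z * (∑ i ∈ range k, z ^ i - k) + k * (z - 1) by push_cast; ring]
      refine bLocA_add_lt V.na (by rwa [map_mul, hv, one_mul]) ?_
      exact (bLocA_mul_le (bLocA_nat V.na k)).trans_lt h1
  have := this N
  rw [e, zero_sub, V.v.map_neg, hN] at this
  exact lt_irrefl _ this

theorem cy_ine (V : Plc) (hN : V.v N = 1) {τ : GQ} (hτ : τ ∈ Ine V.l V.γ) : cy N τ = 1 := by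
  have h0 : N ≠ 0 := by
    rintro rfl
    simp at hN
  refine (cy_eq_one h0).2 fun z hz => ?_
  have hv : V.v z = 1 := (pow_eq_one_iff_of_nonneg (V.v.nonneg z) h0).1 (by rw [← map_pow, hz, map_one])
  have z0 : z ≠ 0 := fun e => by simp [e] at hv
  refine (div_eq_one_iff_eq z0).1 (root_one V hN (by rw [div_pow, ← map_pow, hz, map_one, div_one]) ?_)
  rw [div_sub_one z0, map_div₀, hv, div_one]
  exact hτ z hv.le

/-- Kummer cocycles of units are unramified -/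
theorem km_ine (V : Plc) (hN : V.v N = 1) {τ : GQ} (hτ : τ ∈ Ine V.l V.γ) {θ : Qb}
    (h1 : V.v θ = 1) (hθ : τ θ = θ) : km N τ θ = 0 := by
  have h0 : N ≠ 0 := by
    rintro rfl
    simp at hN
  have θ0 : θ ≠ 0 := fun e => by simp [e] at h1
  have hv : V.v (rt N θ) = 1 :=
    (pow_eq_one_iff_of_nonneg (V.v.nonneg _) h0).1 (by rw [← map_pow, rt_pow h0, h1])
  rw [km, lz_eq_zero h0 (km_root h0 τ θ0)]
  refine root_one V hN (km_root h0 τ θ0) ?_
  rw [hθ, div_sub_one (rt_ne h0 θ0), map_div₀, hv, div_one]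
  exact hτ _ hv.le

/-! ### Representatives -/

theorem Trv.uniq {U H : Subgroup GQ} {X : Finset GQ} (hX : Trv U H X) {x y : GQ} (hx : x ∈ X)
    (hy : y ∈ X) (e : x⁻¹ * y ∈ U) : x = y :=
  (hX.2 y (hX.1 y hy)).unique ⟨hx, e⟩ ⟨hy, by simp⟩

theorem Trv.sum_tower {A : Type} [AddCommMonoid A] {U H K : Subgroup GQ} {X Y Z : Finset GQ}
    (hX : Trv H K X) (hY : Trv U H Y) (hZ : Trv U K Z) (h1 : U ≤ H) (h2 : H ≤ K) {F : GQ → A}
    (hF : ∀ g ∈ K, ∀ u ∈ U, F (g * u) = F g) : ∑ z ∈ Z, F z = ∑ x ∈ X, ∑ y ∈ Y, F (x * y) := by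
  have key : ∀ p ∈ X ×ˢ Y, ∀ q ∈ X ×ˢ Y, (p.1 * p.2)⁻¹ * (q.1 * q.2) ∈ U → p = q := by
    intro p hp q hq e
    rw [mem_product] at hp hq
    have e1 : p.1 = q.1 := hX.uniq hp.1 hq.1 (by
      simpa [mul_assoc] using H.mul_mem (H.mul_mem (hY.1 _ hp.2) (h1 e)) (H.inv_mem (hY.1 _ hq.2)))
    exact Prod.ext e1 (hY.uniq hp.2 hq.2 (by simpa [e1, mul_assoc] using e))
  have hT : Trv U K ((X ×ˢ Y).image fun p => p.1 * p.2) := by
    refine ⟨fun z hz => ?_, fun g hg => ?_⟩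
    · obtain ⟨p, hp, rfl⟩ := mem_image.1 hz
      exact K.mul_mem (hX.1 _ (mem_product.1 hp).1) (h2 (hY.1 _ (mem_product.1 hp).2))
    · obtain ⟨x, ⟨hx, e⟩, -⟩ := hX.2 g hg
      obtain ⟨y, ⟨hy, e'⟩, -⟩ := hY.2 _ e
      have hp : (x, y) ∈ X ×ˢ Y := mem_product.2 ⟨hx, hy⟩
      refine ⟨x * y, ⟨mem_image_of_mem _ hp, by rwa [mul_inv_rev, mul_assoc]⟩, ?_⟩
      rintro _ ⟨hz, e''⟩
      obtain ⟨q, hq, rfl⟩ := mem_image.1 hz
      rw [key q hq _ hp (by simpa [mul_assoc] using U.mul_mem e'' (U.inv_mem e'))]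
  rw [hZ.sum_eq hT hF, sum_image fun p hp q hq e => key p hp q hq (by simp [e]), sum_product]

/-- right translation when `U` is normal in `H` -/
theorem Trv.sum_mul_right {A : Type} [AddCommMonoid A] {U H : Subgroup GQ} {X : Finset GQ}
    (hX : Trv U H X) (hn : ∀ g ∈ H, ∀ u ∈ U, g⁻¹ * u * g ∈ U) {F : GQ → A}
    (hF : ∀ g ∈ H, ∀ u ∈ U, F (g * u) = F g) {g : GQ} (hg : g ∈ H) :
    ∑ y ∈ X, F (y * g) = ∑ y ∈ X, F y := by
  have hT : Trv U H (X.image (· * g)) := by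
    refine ⟨fun y hy => ?_, fun h hh => ?_⟩
    · obtain ⟨x, hx, rfl⟩ := mem_image.1 hy
      exact H.mul_mem (hX.1 x hx) hg
    · obtain ⟨y, ⟨h1, h2⟩, h3⟩ := hX.2 _ (H.mul_mem hh (H.inv_mem hg))
      refine ⟨y * g, ⟨mem_image_of_mem _ h1, by simpa [mul_assoc] using hn g hg _ h2⟩, ?_⟩
      rintro _ ⟨hy', e⟩
      obtain ⟨x, hx, rfl⟩ := mem_image.1 hy'
      rw [h3 x ⟨hx, by simpa [mul_assoc] using hn _ (H.inv_mem hg) _ e⟩]
  rw [← hT.sum_eq hX hF, sum_image fun _ _ _ _ e => mul_right_cancel e]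

theorem Trv.card {U H : Subgroup GQ} {X : Finset GQ} (hX : Trv U H X) : X.card = U.relIndex H := by
  rw [Subgroup.relIndex, Subgroup.index, ← Nat.card_eq_finsetCard]
  refine Nat.card_eq_of_bijective (fun x => QuotientGroup.mk ⟨x.1, hX.1 _ x.2⟩)
    ⟨fun x y e => Subtype.ext (hX.uniq x.2 y.2 (QuotientGroup.eq (s := U.subgroupOf H).1 e)), fun q => ?_⟩
  obtain ⟨g, rfl⟩ := QuotientGroup.mk_surjective q
  obtain ⟨y, ⟨h1, h2⟩, -⟩ := hX.2 g g.2
  exact ⟨⟨y, h1⟩, QuotientGroup.eq.2 h2⟩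

end Pool.Agent.MP_e23604_nt.W

end

section

set_option autoImplicit false

open Finset
open scoped Classical

namespace Pool.Agent.MP_e23604_nt.W

open B R S

variable {R : Type} [CommRing R] {N : ℕ} {j : ZMod N →+* R} {U : Subgroup GQ} {lam : GQ → R}

theorem Chr.mul_U (h : Chr j U lam) {g u : GQ} (hg : g ∈ GK) (hu : u ∈ U) :
    lam (g * u)⁻¹ = lam g⁻¹ := by
  rw [mul_inv_rev, h.mul _ (h.le (U.inv_mem hu)) _ (GK.inv_mem hg), h.one _ (U.inv_mem hu), one_mul]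

theorem Chr.inv_mul (h : Chr j U lam) {g y : GQ} (hg : g ∈ GK) (hy : y ∈ GK) :
    lam (g * y)⁻¹ = lam g⁻¹ * lam y⁻¹ := by
  rw [mul_inv_rev, h.mul _ (GK.inv_mem hy) _ (GK.inv_mem hg), mul_comm]

theorem Chr.fix (h : Chr j U lam) {θ : Qb} (hθ : Fix U θ) {y : GQ} (hy : y ∈ GK) :
    Fix U (y θ) := fun u hu => by
  have := congrArg y (hθ _ (h.nrm hy hu))
  rwa [← AlgEquiv.mul_apply, mul_assoc, mul_inv_cancel_left] at this

/-- twisted sums of boundaries are boundaries -/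
theorem Chr.bo (h : Chr j U lam) {d : GQ → ZMod N} (hd : ∀ g ∈ GK, ∀ u ∈ U, d (g * u) = d g)
    {c : GQ → R}
    (hc : ∀ g ∈ GK, c g = ∑ y ∈ Xs U GK, lam (g * y)⁻¹ * j (cy N g * d y - d (g * y))) :
    Bo (rho j lam) GK c := by
  refine ⟨∑ y ∈ Xs U GK, lam y⁻¹ * j (d y), fun g hg => ?_⟩
  rw [hc g hg, sub_mul, one_mul, mul_sum, ← h.trv.sum_mul (F := fun y => lam y⁻¹ * j (d y))
    (fun y hy u hu => by simp only [h.mul_U hy hu, hd y hy u hu]) hg, ← sum_sub_distrib]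
  refine sum_congr rfl fun y hy => ?_
  rw [map_sub, map_mul, mul_sub, h.inv_mul hg (h.trv.1 y hy), rho]
  ring

theorem ZC_pf : ZC_st := by
  intro R _ N j U lam h
  have h0 := h.pos
  have hT := h.trv
  have l1 : lam 1 = 1 := h.one 1 U.one_mem
  have lc : Lc GK fun g => lam g⁻¹ := lc_of_open h.opn fun g hg u hu _ => h.mul_U hg hu
  refine ⟨⟨⟨lc_of_open h.opn fun g hg u hu _ => by rw [h.mul g hg u (h.le hu), h.one u hu, mul_one],
    l1, h.mul⟩, ⟨(cy_lc N GK).map₂ lc fun a b => j a * b, by simp [rho, cy_one h0, l1],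
    fun g hg k hk => by simp only [rho, cy_mul h0, map_mul, h.inv_mul hg hk]; ring⟩,
    fun g hg => by rw [rho, mul_assoc, ← h.mul _ (GK.inv_mem hg) g hg, inv_mul_cancel, l1, mul_one, cj],
    fun u hu => by rw [rho, h.cyc u hu, map_one, h.one _ (U.inv_mem hu), mul_one]⟩,
    fun θ θ0 hθ => ?_⟩
  have ne : ∀ (y : GQ) {x : Qb}, x ≠ 0 → y x ≠ 0 := fun y _ e => (map_ne_zero y).2 e
  have inv : ∀ g ∈ GK, ∀ y ∈ GK, ∀ u ∈ U, lam (g * (y * u))⁻¹ * j (km N g ((y * u) θ)) =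
      lam (g * y)⁻¹ * j (km N g (y θ)) := fun g hg y hy u hu => by
    rw [← mul_assoc, h.mul_U (GK.mul_mem hg hy) hu, AlgEquiv.mul_apply, hθ u hu]
  refine ⟨⟨lc_sum _ fun y hy => (lc.map₂ (km_lc N GK (y θ)) fun a b => a * lam y⁻¹ * j b).imp
    fun M hM => ⟨hM.1, fun g hg k hk e => ?_⟩, fun g hg k hk => ?_⟩, fun θ' θ0' hθ' => ?_,
    fun s hs g hg => ?_, fun V hN hI hv τ hτ => ?_, fun U' hle h' => ?_⟩
  · have := hM.2 g hg k hk e
    simp only [h.inv_mul hg (hT.1 y hy), h.inv_mul hk (hT.1 y hy), this]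
  · rw [zc, zc, zc, ← hT.sum_mul (F := fun y => lam (g * y)⁻¹ * j (km N g (y θ))) (inv g hg) hk,
      mul_sum, ← sum_add_distrib]
    refine sum_congr rfl fun y hy => ?_
    rw [km_mul h0 g k (ne y θ0), mul_assoc, h.inv_mul hg (GK.mul_mem hk (hT.1 y hy)), rho, map_add,
      map_mul, AlgEquiv.mul_apply]
    ring
  · refine h.bo (d := fun y => lz N (rt N (y θ * y θ') / (rt N (y θ) * rt N (y θ'))))
      (fun g _ u hu => by simp only [AlgEquiv.mul_apply, hθ u hu, hθ' u hu]) fun g _ => ?_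
    simp only [zc, ← sum_sub_distrib]
    refine sum_congr rfl fun y _ => ?_
    rw [map_mul y, km_two h0 g (ne y θ0) (ne y θ0')]
    simp only [map_sub, map_add, AlgEquiv.mul_apply]
    ring
  · rw [zc, zc, ← hT.sum_mul_right (F := fun y => lam (g * y)⁻¹ * j (km N g (y θ)))
      (fun _ a _ b => h.nrm a b) (inv g hg) hs, mul_sum]
    refine sum_congr rfl fun y hy => ?_
    rw [← mul_assoc g, h.inv_mul (GK.mul_mem hg (hT.1 y hy)) hs, AlgEquiv.mul_apply,
      ← one_mul (lam (g * y)⁻¹ * _), ← l1, ← mul_inv_cancel s, h.mul s hs _ (GK.inv_mem hs)]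
    ring
  · refine sum_eq_zero fun y hy => ?_
    rw [km_ine V hN hτ.1 (hv y (hT.1 y hy)) (h.fix hθ (hT.1 y hy) τ (hI hτ)), map_zero, mul_zero]
  · have hY := Xs_trv h.opn hle
    refine h'.bo (d := fun y => -df N (Xs U U') fun w => y (w θ)) (fun g _ u hu => ?_) fun g hg => ?_
    · have key : ∀ f : Qb → Qb, ∏ w ∈ Xs U U', f ((g * u) (w θ)) = ∏ w ∈ Xs U U', f (g (w θ)) :=
        fun f => hY.prod_mul (F := fun w => f (g (w θ)))
          (fun w _ v hv => by simp only [AlgEquiv.mul_apply, hθ v hv]) hu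
      simp only [df, key (rt N), key fun x => x]
    rw [zc, zc, h'.trv.sum_tower hY hT hle h'.le (inv g hg), ← sum_sub_distrib]
    refine sum_congr rfl fun y hy => ?_
    rw [map_prod, km_prod h0 g _ fun w _ => ne y (ne w θ0), sum_congr rfl fun w hw => by
      rw [← mul_assoc, h'.mul_U (GK.mul_mem hg (h'.trv.1 y hy)) (hY.1 w hw), AlgEquiv.mul_apply],
      ← mul_sum, ← map_sum]
    simp only [map_sub, map_add, map_mul, map_neg, AlgEquiv.mul_apply]
    ring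

end Pool.Agent.MP_e23604_nt.W

end
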