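import Pool.Agent.Mg.Fe23604m.Gdcbf1f
import Pool.Agent.Mg.Fe23604m.G8362cd
import Pool.Agent.Mg.Fe23604m.G19f17f
import Pool.Agent.Mg.Fe23604m.G300596

set_option linter.all false

section

/-! Cocycles with prescribed values at the generators. -/

set_option autoImplicit false

open Finset
open scoped Classical

namespace Pool.Agent.MP_e23604_nt.W

open B R S

section
variable {R R' : Type} [CommRing R] [CommRing R'] {θ c c' : GQ → R} {H : Subgroup GQ}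

theorem Mu.mapK (h : Mu H θ) (π : R →+* R') : Mu H fun g => π (θ g) :=
  ⟨h.1.map π, by simp [h.2.1], fun g hg k hk => by simp [h.2.2 g hg k hk]⟩

theorem Mu.monoK (h : Mu H θ) {H' : Subgroup GQ} (e : H' ≤ H) : Mu H' θ :=
  ⟨h.1.mono e, h.2.1, fun g hg k hk => h.2.2 g (e hg) k (e hk)⟩

theorem Mu.constK (H : Subgroup GQ) : Mu H fun _ => (1 : R) :=
  ⟨Lc.const _ _, rfl, fun _ _ _ _ => (mul_one _).symm⟩

theorem Co.mapK (h : Co θ H c) (π : R →+* R') : Co (fun g => π (θ g)) H fun g => π (c g) :=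
  ⟨h.1.map π, fun g hg k hk => by simp [h.2 g hg k hk]⟩

theorem Co.monoK (h : Co θ H c) {H' : Subgroup GQ} (e : H' ≤ H) : Co θ H' c :=
  ⟨h.1.mono e, fun g hg k hk => h.2 g (e hg) k (e hk)⟩

theorem Co.subK (h : Co θ H c) (h' : Co θ H c') : Co θ H fun g => c g - c' g :=
  ⟨h.1.map₂ h'.1 (· - ·), fun g hg k hk => by
    simp only [h.2 g hg k hk, h'.2 g hg k hk]; ring⟩

theorem Co.oneK (h : Co θ H c) (h1 : θ 1 = 1) : c 1 = 0 := by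
  simpa [h1] using h.2 1 H.one_mem 1 H.one_mem

theorem koch_unip (R : Type) [CommRing R] [Finite R] (h : IsNilpotent (3 : R)) :
    ∃ n : ℕ, ((3 : ℕ) : R) ^ n = 0 ∧ ∀ x : R, IsNilpotent (x - 1) → x ^ 3 ^ n = 1 := by
  obtain ⟨k, hk⟩ := IsNoetherianRing.isNilpotent_nilradical R
  have h3 : (3 : R) ∈ nilradical R := h
  refine ⟨k, ?_, fun x hx => ?_⟩
  · simpa [hk] using Ideal.pow_mem_pow h3 k
  have : ∀ j, x ^ 3 ^ j - 1 ∈ nilradical R ^ (j + 1) := fun j => by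
    induction j with
    | zero => simpa [mem_nilradical] using hx
    | succ j ih =>
      have e : x ^ 3 ^ (j + 1) - 1 =
          (x ^ 3 ^ j - 1) * (3 + (x ^ 3 ^ j - 1) * (x ^ 3 ^ j + 2)) := by ring
      rw [e, pow_succ _ (j + 1)]
      exact Ideal.mul_mem_mul ih (add_mem h3 (Ideal.mul_mem_right _ _
        (Ideal.pow_le_self (by omega) ih)))
  simpa [pow_succ, hk, sub_eq_zero] using this k

theorem koch_soc (R : Type) [CommRing R] [Finite R] [Nontrivial R] :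
    ∃ w : R, w ≠ 0 ∧ ∀ x, IsNilpotent x → x * w = 0 := by
  have h := IsNoetherianRing.isNilpotent_nilradical R
  obtain ⟨k, hk⟩ : ∃ k, Nat.find h = k + 1 := Nat.exists_eq_succ_of_ne_zero fun e => by
    simpa [e] using Nat.find_spec h
  obtain ⟨w, h1, h2⟩ := (Submodule.ne_bot_iff _).1 (Nat.find_min h (m := k) (by omega))
  refine ⟨w, h2, fun x hx => ?_⟩
  have := Ideal.mul_mem_mul (show x ∈ nilradical R from hx) h1
  rwa [← pow_succ', ← hk, Nat.find_spec h] at this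

end

/-- tame generators at the primes in `T` -/
def Tm (T : Finset Zw) (V : Zw → Plc) (σ τ : Zw → GQ) : Prop :=
  ∀ ϖ ∈ T, PP ϖ ∧ Ov (V ϖ) ϖ ∧ FK (V ϖ) ϖ (σ ϖ) ∧ τ ϖ ∈ (V ϖ).I ∧ km 3 (τ ϖ) (V ϖ).l ≠ 0

/-- existence of cocycles with prescribed values at the generators -/
def KOCH_st : Prop := ∀ (x₁ x₂ : GQ) (T : Finset Zw) (V : Zw → Plc) (σ τ : Zw → GQ), x₁ ∈ GK →
  x₂ ∈ GK → cy 9 x₁ ≠ 1 → cy 9 x₂ = 1 → km 3 x₂ (io pw) ≠ 0 → Tm T V σ τ →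
  ∀ (R : Type) [CommRing R] [Finite R] (θ : GQ → R) (v₁ v₂ : R) (v s : Zw → R),
    IsNilpotent (3 : R) → Mu GK θ → (∀ g ∈ GK, IsNilpotent (θ g - 1)) →
    Unr (3 * ∏ ϖ ∈ T, ϖ) (fun g => θ g - 1) →
    (∀ ϖ ∈ T, (1 - θ (τ ϖ)) * s ϖ + (θ (σ ϖ) - ∑ i ∈ range (nn ϖ), θ (τ ϖ) ^ i) * v ϖ = 0) →
    (∀ (R' : Type) [CommRing R'] (π : R →+* R') (c : GQ → R'), Co (fun g => π (θ g)) GK c →
      Unr (3 * ∏ ϖ ∈ T, ϖ) c → c x₁ = π v₁ → c x₂ = π v₂ → (∀ ϖ ∈ T, c (τ ϖ) = π (v ϖ)) →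
      ∀ ϖ ∈ T, c (σ ϖ) = π (s ϖ)) →
    ∃ c, Co θ GK c ∧ Unr (3 * ∏ ϖ ∈ T, ϖ) c ∧ c x₁ = v₁ ∧ c x₂ = v₂ ∧ ∀ ϖ ∈ T, c (τ ϖ) = v ϖ

theorem PP.l_neK {V : Plc} {ϖ : Zw} (h : PP ϖ) (h' : Ov V ϖ) : V.l ≠ 3 := fun e => by
  have h3 : Ov V 3 := by simpa [e] using Ov_l V
  exact (Ov_three.1 h3).cop (pw_prime.coprime_iff_not_dvd.2 h.2.pw) h'

theorem koch_mem (hP : PLK_st) {T : Finset Zw} {V : Plc}
    (h : Ov V (3 * ∏ ϖ ∈ T, ϖ)) (h3 : V.l ≠ 3) : ∃ ϖ ∈ T, Ov V ϖ := by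
  obtain ⟨ϖ, h1, h2, -, h4⟩ := hP.1 V
  have h5 := (hP.2.2.1 V ϖ h1 h2).1
  rcases Ov_mul.1 h with h | h
  · exact absurd ((Nat.prime_dvd_prime_iff_eq V.hl.out Nat.prime_three).1
      ((hP.2.2.2.1 V 3).1 (by simpa using h))) h3
  · obtain ⟨ϖ', h6, h7⟩ := (h1.dvd_finsetProd_iff _).1 ((h5 _).1 h)
    exact ⟨ϖ', h6, h2.dvd h7⟩

theorem koch_dual (hK : KGEN_st) {x₁ x₂ : GQ} {T : Finset Zw} {V : Zw → Plc} {σ τ : Zw → GQ}
    (h1 : x₁ ∈ GK) (h2 : x₂ ∈ GK) (h3 : cy 9 x₁ ≠ 1) (h4 : cy 9 x₂ = 1)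
    (h5 : km 3 x₂ (io pw) ≠ 0) (hT : Tm T V σ τ) {k : Type} [CommRing k] (hk : (3 : k) = 0)
    (d₁ d₂ : k) (d : Zw → k) : ∃ a : GQ → k, Adt GK a ∧ Lc GK a ∧ Unr (3 * ∏ ϖ ∈ T, ϖ) a ∧
      a x₁ = d₁ ∧ a x₂ = d₂ ∧ ∀ ϖ ∈ T, a (τ ϖ) = d ϖ := by
  have j : ZMod 3 →+* k := ZMod.castHom (ringChar.dvd (by exact_mod_cast hk)) k
  choose a ha using (hK.2 x₁ x₂ T V τ h1 h2 h3 h4 h5 fun ϖ h =>
    ⟨(hT ϖ h).1, (hT ϖ h).2.1, (hT ϖ h).2.2.2⟩).2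
  let e : Zw → Zw → ZMod 3 := fun ϖ => Pi.single ϖ 1
  refine ⟨fun g => j (a 1 0 0 g) * d₁ + j (a 0 1 0 g) * d₂ + ∑ ϖ ∈ T, j (a 0 0 (e ϖ) g) * d ϖ,
    fun g hg h hh => ?_, (((ha 1 0 0).2.1.map₂ (ha 0 1 0).2.1 fun x y => j x * d₁ + j y * d₂).map₂
      (lc_sum T fun ϖ _ => (ha 0 0 (e ϖ)).2.1.map fun x => j x * d ϖ) (· + ·)),
    fun W hW t ht => ?_, ?_, ?_, fun ϖ hϖ => ?_⟩
  · simp only [(ha _ _ _).1 g hg h hh, map_add, add_mul, sum_add_distrib]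
    ring
  · simp [(ha _ _ _).2.2.1 W hW t ht]
  · simp [(ha _ _ _).2.2.2.1]
  · simp [(ha _ _ _).2.2.2.2.1]
  · simp [(ha _ _ _).2.2.2.2.2 ϖ hϖ, e, Pi.single_apply, hϖ]

theorem KOCH_pf (hT : TPR_st) (hR : R2_st) (hK : KGEN_st) (hC : CNJ_st) (hP : PLK_st)
    (hL : LIN_st) : KOCH_st := by
  intro x₁ x₂ T V σ τ h1 h2 h3 h4 h5 hm R
  induction hn : Nat.card R using Nat.strong_induction_on generalizing R with
  | _ N ih =>
  intro _ _ θ v₁ v₂ v s n3 hθ hu hr hrow hU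
  set b := 3 * ∏ ϖ ∈ T, ϖ
  rcases subsingleton_or_nontrivial R with h0 | h0
  · exact ⟨0, ⟨Lc.const _ _, fun _ _ _ _ => Subsingleton.elim _ _⟩, fun _ _ _ _ => rfl,
      Subsingleton.elim _ _, Subsingleton.elim _ _, fun _ _ => Subsingleton.elim _ _⟩
  obtain ⟨w, hw0, hw⟩ := koch_soc R
  obtain ⟨n, hn3, hnu⟩ := koch_unip R n3
  let π := Ideal.Quotient.mk (Ideal.span {w})
  have fq : ∀ I : Ideal R, Finite (R ⧸ I) := fun I =>
    Finite.of_surjective _ Ideal.Quotient.mk_surjective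
  have hlt : Nat.card (R ⧸ Ideal.span {w}) < N := by
    rw [← hn]
    refine (Nat.card_le_card_of_surjective π Ideal.Quotient.mk_surjective).lt_of_ne fun e => ?_
    exact hw0 (((Nat.bijective_iff_surjective_and_card π).2
      ⟨Ideal.Quotient.mk_surjective, e.symm⟩).1 (a₂ := 0) (by simp [π]))
  obtain ⟨c', k1, k2, k3, k4, k5⟩ := ih _ hlt (R ⧸ Ideal.span {w}) rfl (fun g => π (θ g)) (π v₁)
    (π v₂) (fun ϖ => π (v ϖ)) (fun ϖ => π (s ϖ)) (map_ofNat π 3 ▸ n3.map π) (hθ.mapK π)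
    (fun g hg => by simpa using (hu g hg).map π)
    (fun W hW t ht => by simpa using congrArg π (hr W hW t ht))
    (fun ϖ h => by simpa using congrArg π (hrow ϖ h)) fun R' _ π' => hU R' (π'.comp π)
  obtain ⟨sc, hs, hs0⟩ : ∃ sc : R ⧸ Ideal.span {w} → R, (∀ x, π (sc x) = x) ∧ sc 0 = 0 := by
    choose f hf using Ideal.Quotient.mk_surjective (I := Ideal.span {w})
    exact ⟨fun x => if x = 0 then 0 else f x, fun x => by by_cases h : x = 0 <;> simp [π, h, hf],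
      if_pos rfl⟩
  let J : Ideal R := LinearMap.ker (LinearMap.mul R R w)
  let ι : (R ⧸ J) →ₗ[R] R := J.liftQ (LinearMap.mul R R w) le_rfl
  have hι : Function.Injective ι := LinearMap.ker_eq_bot.1 (Submodule.ker_liftQ_eq_bot _ _ _ le_rfl)
  have hιθ : ∀ g ∈ GK, ∀ y, θ g * ι y = ι y := fun g hg y => by
    obtain ⟨y, rfl⟩ := Ideal.Quotient.mk_surjective y
    change θ g * (w * y) = w * y
    linear_combination y * hw _ (hu g hg)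
  obtain ⟨iv, hiv⟩ : ∃ iv : R → R ⧸ J, ∀ x, π x = 0 → ι (iv x) = x :=
    ⟨Function.invFun ι, fun x hx => Function.invFun_eq (by
      obtain ⟨y, rfl⟩ := Ideal.mem_span_singleton.1 (Ideal.Quotient.eq_zero_iff_mem.1 hx)
      exact ⟨Ideal.Quotient.mk J y, rfl⟩)⟩
  have hk3 : (3 : R ⧸ J) = 0 := by
    rw [← map_ofNat (Ideal.Quotient.mk J), Ideal.Quotient.eq_zero_iff_mem]
    exact (mul_comm _ _).trans (hw 3 n3)
  let f : GQ → GQ → R := fun g h => θ g * sc (c' h) - sc (c' (g * h)) + sc (c' g)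
  have hf : ∀ g ∈ GK, ∀ h ∈ GK, ι (iv (f g h)) = f g h := fun g hg h hh =>
    hiv _ (by simp [f, hs, k1.2 g hg h hh])
  obtain ⟨⟨M, m1, m2, m3⟩, m4⟩ : Co2 θ GK f :=
    ((hL R θ GK).1 f f 0).2.2.1 hθ ⟨_, k1.1.map sc, fun _ _ _ _ => rfl⟩
  have hco : Co2 (fun _ => 1) GK fun g h => iv (f g h) :=
    ⟨⟨M, m1, fun g hg x hx y hy e => congrArg iv (m2 g hg x hx y hy e),
      fun g hg x hx y hy e => congrArg iv (m3 g hg x hx y hy e)⟩, fun g hg h hh k hk => hι (by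
        rw [one_mul, map_sub, map_add, map_sub, ← hιθ g hg, hf h hh k hk,
          hf _ (mul_mem hg hh) k hk, hf g hg _ (mul_mem hh hk), hf g hg h hh, map_zero]
        exact m4 g hg h hh k hk)⟩
  have hinv : ∀ W : Plc, ¬ Ov W b → ∀ t ∈ W.I, ∀ g ∈ GK, c' (g * t) = c' g := fun W hW t ht g hg =>
    by rw [k1.2 g hg t ht.2, k2 W hW t ht, mul_zero, add_zero]
  obtain ⟨β, b1, b2, b3⟩ := hR (R ⧸ J) (fun g h => iv (f g h)) b hk3
    (pw_dvd3.mul_right _) hco (hι (by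
      rw [hf 1 GK.one_mem 1 GK.one_mem]
      simp [f, k1.oneK (by simp [hθ.2.1]), hs0]))
    (fun W hW g hg h hh t ht => by
      have e1 : θ (g * t) = θ g := by
        rw [hθ.2.2 g hg t ht.2, sub_eq_zero.1 (hr W hW t ht), mul_one]
      have e2 : c' (g * t * h) = c' (g * h) := by
        rw [show g * t * h = g * h * (h⁻¹ * t * h) by group]
        exact hinv (W.mv h) (by rwa [(hP.2.2.2.2.2.1 W h b).1 hh]) _
          ((W.mv_I h _).2 (by simpa [mul_assoc] using ht)) _ (mul_mem hg hh)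
      simp only [f, e1, e2, hinv W hW t ht g hg, hinv W hW t ht h hh, ← mul_assoc,
        hinv W hW t ht _ (mul_mem hg hh), and_self])
    fun W hW hl => by
      obtain ⟨ϖ, hϖ, hWϖ⟩ := koch_mem hP hW hl
      obtain ⟨p1, p2, p3, p4, p5⟩ := hm ϖ hϖ
      refine ((hC _ _).2 (V ϖ) W ϖ (Mu.constK _) p1.1 p2 hWϖ).2 _ hco ?_
      have hD := (V ϖ).D_le
      obtain ⟨c, q1, q2, q3⟩ := (hT 3 n R (V ϖ) ϖ (σ ϖ) (τ ϖ) θ Nat.prime_three (p1.l_neK p2)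
        (p1.l_neK p2) p1.1 p2 p3 p4 p5 hn3 (hθ.monoK hD) fun g hg => hnu _ (hu g (hD hg))).2 _ _
        (hrow ϖ hϖ)
      have q4 := ((hT 3 n _ (V ϖ) ϖ (σ ϖ) (τ ϖ) (fun g => π (θ g)) Nat.prime_three (p1.l_neK p2)
        (p1.l_neK p2) p1.1 p2 p3 p4 p5 (by rw [← map_natCast π, ← map_pow, hn3, map_zero]) ((hθ.mapK π).monoK hD)
        fun g hg => by rw [← map_pow, hnu _ (hu g (hD hg)), map_one]).1 _
          ((k1.monoK hD).subK (q1.mapK π))).2.1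
        (by rw [q2, hU _ π c' k1 k2 k3 k4 k5 ϖ hϖ, sub_self]) (by rw [q3, k5 ϖ hϖ, sub_self])
      have q5 : ∀ g ∈ (V ϖ).D, ι (iv (sc (c' g) - c g)) = sc (c' g) - c g := fun g hg =>
        hiv _ (by rw [map_sub, hs]; exact q4 g hg)
      refine ⟨fun g => iv (sc (c' g) - c g), (k1.1.mono hD).map₂ q1.1 fun x y => iv (sc x - y),
        fun g hg h hh => hι ?_⟩
      rw [one_mul, map_add, map_sub, ← hιθ g (hD hg) (iv (sc (c' h) - c h)),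
        hf g (hD hg) h (hD hh), q5 g hg, q5 h hh, q5 _ (mul_mem hg hh), q1.2 g hg h hh]
      ring
  obtain ⟨a, a1, a2, a3, a4, a5, a6⟩ := koch_dual hK h1 h2 h3 h4 h5 hm hk3
    (iv (v₁ - sc (c' x₁)) + β x₁) (iv (v₂ - sc (c' x₂)) + β x₂)
    fun ϖ => iv (v ϖ - sc (c' (τ ϖ))) + β (τ ϖ)
  refine ⟨fun g => sc (c' g) + ι (a g - β g), ⟨k1.1.map₂ (a2.map₂ b1 (· - ·))
    fun x y => sc x + ι y, fun g hg h hh => ?_⟩, fun W hW t ht => ?_, ?_, ?_, fun ϖ hϖ => ?_⟩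
  · have e := hf g hg h hh
    rw [b3 g hg h hh] at e
    simp only [a1 g hg h hh, map_add, map_sub, f] at e ⊢
    linear_combination e - hιθ g hg (a h) + hιθ g hg (β h)
  · simp [k2 W hW t ht, a3 W hW t ht, b2 W hW t ht, hs0]
  · simp only [a4, add_sub_cancel_right]
    rw [hiv _ (by rw [map_sub, hs, k3, sub_self]), add_sub_cancel]
  · simp only [a5, add_sub_cancel_right]
    rw [hiv _ (by rw [map_sub, hs, k4, sub_self]), add_sub_cancel]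
  · simp only [a6 ϖ hϖ, add_sub_cancel_right]
    rw [hiv _ (by rw [map_sub, hs, k5 ϖ hϖ, sub_self]), add_sub_cancel]

theorem koch_word {ι : Type} {x : ι → GQ} (hx : ∀ i, x i ∈ GK) (L₀ : List ι) :
    (L₀.map x).prod ∈ GK ∧ ∃ L : List (GQ × ι), (∀ e ∈ L, e.1 ∈ GK) ∧
      ∀ (R : Type) [CommRing R] (θ c : GQ → R), Mu GK θ → Co θ GK c →
        c (L₀.map x).prod = (L.map fun e => θ e.1 * c (x e.2)).sum := by
  induction L₀ with
  | nil => exact ⟨GK.one_mem, [], by simp, fun R _ θ c h1 h2 => h2.oneK h1.2.1⟩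
  | cons i L₀ ih =>
    obtain ⟨h0, L, h1, h2⟩ := ih
    refine ⟨mul_mem (hx i) h0, (1, i) :: L.map fun e => (x i * e.1, e.2), ?_,
      fun R _ θ c h3 h4 => ?_⟩
    · simp only [List.mem_cons, List.mem_map]
      rintro _ (rfl | ⟨e, he, rfl⟩)
      exacts [GK.one_mem, mul_mem (hx i) (h1 e he)]
    · rw [List.map_cons, List.prod_cons, h4.2 _ (hx i) _ h0, h2 R θ c h3 h4, List.map_cons,
        List.sum_cons, h3.2.1, one_mul, List.map_map, ← List.sum_map_mul_left]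
      exact congrArg (fun l => _ + List.sum l) (List.map_congr_left fun e he => by
        simp only [Function.comp, h3.2.2 _ (hx i) _ (h1 e he), mul_assoc])

theorem NUL_pf (hB : BRN_st) (hF : FIH_st) (hP : PLK_st) : NUL_st := by
  intro ι b x U n g hb hx hU hle hn h3 hI hg
  obtain ⟨N, n1, n2, n3⟩ := hF 3 n U b Nat.prime_three hb hU hle
  let P : ∀ (A : Type) [AddCommGroup A], (GQ → A) → Prop := fun A _ a =>
    Adt U a ∧ Lc U a ∧ (∀ g ∈ U, 3 ^ n • a g = 0) ∧ ∀ V : Plc, ¬ Ov V b → ∀ τ ∈ V.I ⊓ U, a τ = 0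
  have h1 : ∀ (A : Type) [AddCommGroup A] (a : GQ → A), P A a → a 1 = 0 := fun A _ a h => by
    simpa using h.1 1 U.one_mem 1 U.one_mem
  let N' : Subgroup GQ :=
    { carrier := {g | g ∈ U ∧ ∀ (A : Type) [AddCommGroup A] (a : GQ → A), P A a → a g = 0}
      one_mem' := ⟨U.one_mem, h1⟩
      mul_mem' := fun h h' => ⟨mul_mem h.1 h'.1, fun A _ a ha => by
        rw [ha.1 _ h.1 _ h'.1, h.2 A a ha, h'.2 A a ha, add_zero]⟩
      inv_mem' := fun {y} h => ⟨inv_mem h.1, fun A _ a ha => by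
        simpa [h.2 A a ha, h1 A a ha] using (ha.1 _ h.1 _ (inv_mem h.1)).symm⟩ }
  obtain ⟨L₀, hL⟩ := hB ι b x N' hx (Subgroup.isOpen_mono (H₁ := N) (fun y hy =>
      ⟨n2 hy, fun A _ a ha => n3 A a ha.1 ha.2.1 ha.2.2.1 ha.2.2.2 y hy⟩) n1.2)
    (fun y hy u hu => ⟨hn y hy u hu.1, fun A _ a ha => hu.2 A (fun u => a (y * u * y⁻¹))
      ⟨fun s hs t ht => by
        rw [← ha.1 _ (hn y hy s hs) _ (hn y hy t ht)]; group, by
        obtain ⟨M, m1, m2⟩ := ha.2.1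
        exact ⟨M, m1, fun s hs t ht e => m2 _ (hn y hy s hs) _ (hn y hy t ht) (by
          simpa [mul_assoc] using m1.1.conj_mem _ e y)⟩,
      fun s hs => ha.2.2.1 _ (hn y hy s hs), fun V hV t ht => ha.2.2.2 (V.mv y⁻¹)
        (by rwa [(hP.2.2.2.2.2.1 V _ b).1 (inv_mem hy)]) _ ⟨(V.mv_I _ _).2
          (by simpa [mul_assoc] using ht.1), hn y hy t ht.2⟩⟩⟩)
    (fun y hy => by
      obtain ⟨k, hk⟩ := h3 y hy
      refine ⟨k + n, ?_⟩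
      rw [pow_add, pow_mul]
      exact ⟨pow_mem hk _, fun A _ a ha => by rw [pow_CREC ha.1 hk, ha.2.2.1 _ hk]⟩)
    (fun V hV t ht => ⟨hI V hV ht, fun A _ a ha => ha.2.2.2 V hV t ⟨ht, hI V hV ht⟩⟩) g hg
  obtain ⟨h0, L, l1, l2⟩ := koch_word hx.1 L₀
  refine ⟨L, l1, fun R _ θ c r1 r2 r3 r4 r5 => ?_⟩
  rw [← l2 R θ c r2 r4, ← mul_inv_cancel_left (L₀.map x).prod g, r4.2 _ h0 _ (hle hL.1),
    hL.2 R c ⟨fun s hs t ht => by rw [r4.2 s (hle hs) t (hle ht), r3 s hs, one_mul], r4.1.mono hle,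
      fun s _ => by rw [nsmul_eq_mul, Nat.cast_pow, Nat.cast_ofNat, r1, zero_mul],
      fun V hV t ht => r5 V hV t ht.1⟩, mul_zero, add_zero]

/-- the generators -/
def gn (x₁ x₂ : GQ) (τ : Zw → GQ) (T : Finset Zw) : Bool ⊕ T → GQ :=
  Sum.elim (fun i => cond i x₁ x₂) fun ϖ => τ ϖ

/-- the value of a word -/
def wd {ι R : Type} [CommRing R] (θ : GQ → R) (L : List (GQ × ι)) (v : ι → R) : R :=
  (L.map fun e => θ e.1 * v e.2).sum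

/-- the presentation of the module of cocycles -/
def PRES_st : Prop := ∀ (x₁ x₂ : GQ) (T : Finset Zw) (V : Zw → Plc) (σ τ : Zw → GQ)
  (U : Subgroup GQ) (n : ℕ), x₁ ∈ GK → x₂ ∈ GK → cy 9 x₁ ≠ 1 → cy 9 x₂ = 1 →
  km 3 x₂ (io pw) ≠ 0 → Tm T V σ τ → IsOpen (U : Set GQ) → U ≤ GK →
  (∀ g ∈ GK, ∀ u ∈ U, g * u * g⁻¹ ∈ U) → (∀ g ∈ GK, ∃ k, g ^ 3 ^ k ∈ U) →
  (∀ W : Plc, ¬ Ov W (3 * ∏ ϖ ∈ T, ϖ) → W.I ≤ U) →
  ∃ L : GQ → List (GQ × (Bool ⊕ T)), (∀ g ∈ GK, ∀ e ∈ L g, e.1 ∈ GK) ∧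
    ∀ (R : Type) [CommRing R] (θ : GQ → R), (3 : R) ^ n = 0 → Mu GK θ → (∀ u ∈ U, θ u = 1) →
      (∀ c, Co θ GK c → Unr (3 * ∏ ϖ ∈ T, ϖ) c →
        ∀ g ∈ GK, c g = wd θ (L g) fun k => c (gn x₁ x₂ τ T k)) ∧
      (Finite R → ∀ v : Bool ⊕ T → R, (∀ ϖ : T, (1 - θ (τ ϖ)) * wd θ (L (σ ϖ)) v +
          (θ (σ ϖ) - ∑ i ∈ range (nn ϖ), θ (τ ϖ) ^ i) * v (.inr ϖ) = 0) →
        ∃ c, Co θ GK c ∧ Unr (3 * ∏ ϖ ∈ T, ϖ) c ∧ ∀ k, c (gn x₁ x₂ τ T k) = v k)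

theorem koch_nil {R : Type} [CommRing R] (h3 : IsNilpotent (3 : R)) {x : R} (k : ℕ)
    (h : IsNilpotent (x ^ 3 ^ k - 1)) : IsNilpotent (x - 1) := by
  induction k with
  | zero => simpa using h
  | succ k ih =>
    refine ih (IsNilpotent.of_pow (m := 3) ?_)
    rw [show (x ^ 3 ^ k - 1) ^ 3 = (x ^ 3 ^ (k + 1) - 1) - 3 * (x ^ 3 ^ k * (x ^ 3 ^ k - 1)) by
      ring]
    exact (Commute.all _ _).isNilpotent_sub h ((Commute.all _ _).isNilpotent_mul_right h3)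

theorem Mu.powK {R : Type} [CommRing R] {θ : GQ → R} {H : Subgroup GQ} (h : Mu H θ) {g : GQ}
    (hg : g ∈ H) (i : ℕ) : θ (g ^ i) = θ g ^ i := by
  induction i with
  | zero => simpa using h.2.1
  | succ i ih => rw [pow_succ, h.2.2 _ (pow_mem hg i) g hg, ih, pow_succ]

theorem wd_map {ι R R' : Type} [CommRing R] [CommRing R'] (π : R →+* R') (θ : GQ → R)
    (L : List (GQ × ι)) (v : ι → R) :
    π (wd θ L v) = wd (fun g => π (θ g)) L fun k => π (v k) := by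
  simp [wd, map_list_sum, Function.comp_def]

theorem koch_gn3 (hK : KGEN_st) (hP : PLK_st) {x₁ x₂ : GQ} {T : Finset Zw} {V : Zw → Plc}
    {σ τ : Zw → GQ} (h1 : x₁ ∈ GK) (h2 : x₂ ∈ GK) (h3 : cy 9 x₁ ≠ 1) (h4 : cy 9 x₂ = 1)
    (h5 : km 3 x₂ (io pw) ≠ 0) (hm : Tm T V σ τ) : Gn3 (3 * ∏ ϖ ∈ T, ϖ) (gn x₁ x₂ τ T) := by
  refine ⟨?_, fun a a1 a2 a3 a4 => (hK.2 x₁ x₂ T V τ h1 h2 h3 h4 h5 fun ϖ h =>
    ⟨(hm ϖ h).1, (hm ϖ h).2.1, (hm ϖ h).2.2.2⟩).1 _ a (fun ϖ h e => ?_) a1 a2 a3 (a4 (.inl true))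
    (a4 (.inl false)) fun ϖ h => a4 (.inr ⟨ϖ, h⟩)⟩
  · rintro ((_ | _) | ⟨ϖ, h⟩)
    exacts [h2, h1, (hm ϖ h).2.2.2.1.2]
  · obtain ⟨W, hW⟩ := hP.2.1 ϖ h.1
    obtain ⟨ϖ', h6, h7⟩ := koch_mem hP (hW.dvd e) (h.l_neK hW)
    rwa [hP.2.2.2.2.2.2.2.1 ϖ ϖ' h (hm ϖ' h6).1 (((hP.2.2.1 W ϖ h.1 hW).1 _).1 h7)]

theorem PRES_pf (hK : KOCH_st) (hN : NUL_st) (hG : KGEN_st) (hP : PLK_st) : PRES_st := by
  intro x₁ x₂ T V σ τ U n h1 h2 h3 h4 h5 hm u1 u2 u3 u4 u5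
  choose! L l1 l2 using fun g => hN _ _ _ U n g (mul_ne_zero (by decide)
    (prod_ne_zero_iff.2 fun ϖ h => (hm ϖ h).1.1.ne_zero)) (koch_gn3 hG hP h1 h2 h3 h4 h5 hm)
    u1 u2 u3 u4 u5
  refine ⟨L, l1, fun R _ θ r1 r2 r3 =>
    ⟨fun c c1 c2 g hg => l2 g hg R θ c r1 r2 r3 c1 c2, fun _ v hv => ?_⟩⟩
  have hs : ∀ ϖ ∈ T, σ ϖ ∈ GK := fun ϖ h => (hm ϖ h).2.2.1.1.2
  obtain ⟨c, c1, c2, c3, c4, c5⟩ := hK x₁ x₂ T V σ τ h1 h2 h3 h4 h5 hm R θ (v (.inl true))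
    (v (.inl false)) (fun ϖ => if h : ϖ ∈ T then v (.inr ⟨ϖ, h⟩) else 0)
    (fun ϖ => wd θ (L (σ ϖ)) v) ⟨n, r1⟩ r2 (fun g hg => by
      obtain ⟨k, hk⟩ := u4 g hg
      exact koch_nil ⟨n, r1⟩ k (by simp [← r2.powK hg, r3 _ hk]))
    (fun W hW t ht => sub_eq_zero.2 (r3 t (u5 W hW ht)))
    (fun ϖ h => by simpa only [dif_pos h] using hv ⟨ϖ, h⟩)
    fun R' _ π c c1 c2 c3 c4 c5 ϖ h => by
      rw [l2 _ (hs ϖ h) R' _ c (by rw [← map_ofNat π 3, ← map_pow, r1, map_zero]) (r2.mapK π)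
        (fun u hu => by rw [r3 u hu, map_one]) c1 c2, wd_map]
      refine congrArg (wd (fun g => π (θ g)) (L (σ ϖ)))
        (a₁ := fun k => c (gn x₁ x₂ τ T k)) (funext ?_)
      rintro ((_ | _) | ⟨ϖ, h⟩)
      exacts [c4, c3, (c5 ϖ h).trans (by rw [dif_pos h])]
  refine ⟨c, c1, c2, ?_⟩
  rintro ((_ | _) | ⟨ϖ, h⟩)
  exacts [c4, c3, (c5 ϖ h).trans (dif_pos h)]

end Pool.Agent.MP_e23604_nt.W

end

section

/-! The lower bound for the number of cocycles. -/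

set_option autoImplicit false

open Finset
open scoped Classical

namespace Pool.Agent.MP_e23604_nt.W

open B R S

/-- the kernel of a character -/
def Mu.kerK {R : Type} [CommRing R] {θ : GQ → R} (h : Mu GK θ) : Subgroup GQ where
  carrier := {g | g ∈ GK ∧ θ g = 1}
  one_mem' := ⟨GK.one_mem, h.2.1⟩
  mul_mem' a b := ⟨mul_mem a.1 b.1, by rw [h.2.2 _ a.1 _ b.1, a.2, b.2, one_mul]⟩
  inv_mem' {g} a := ⟨inv_mem a.1, by
    simpa [a.2, h.2.1] using (h.2.2 _ a.1 _ (inv_mem a.1)).symm⟩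

theorem Mu.kerK_open {R : Type} [CommRing R] {θ : GQ → R} (h : Mu GK θ) :
    IsOpen (h.kerK : Set GQ) := by
  obtain ⟨N, n1, n2⟩ := h.1
  exact Subgroup.isOpen_mono (H₁ := N ⊓ GK) (fun g hg => ⟨hg.2,
    (n2 1 GK.one_mem g hg.2 (by simpa using hg.1)).symm.trans h.2.1⟩) (n1.inf GK_on).2

theorem Mu.kerK_conj {R : Type} [CommRing R] {θ : GQ → R} (h : Mu GK θ) :
    ∀ g ∈ GK, ∀ u ∈ h.kerK, g * u * g⁻¹ ∈ h.kerK := fun g hg u hu =>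
  ⟨mul_mem (mul_mem hg hu.1) (inv_mem hg), by
    rw [h.2.2 _ (mul_mem hg hu.1) _ (inv_mem hg), h.2.2 _ hg _ hu.1, hu.2, mul_one,
      ← h.2.2 _ hg _ (inv_mem hg), mul_inv_cancel, h.2.1]⟩

/-- the primary primes that divide `b` -/
theorem ex_primes_LOW (hP : PLK_st) {b : Zw} (hb : b ≠ 0) : ∃ T : Finset Zw,
    (∀ ϖ, ϖ ∈ T ↔ PP ϖ ∧ ϖ ∣ b) ∧ ∀ W : Plc, Ov W (3 * ∏ ϖ ∈ T, ϖ) ↔ Ov W (3 * b) := by
  obtain ⟨u, i, c, h1, h2, rfl⟩ := hP.2.2.2.2.2.2.2.2.2.2.2 b hb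
  obtain ⟨s, h3, rfl⟩ := hP.2.2.2.2.2.2.2.2.2.2.1 c h2
  have e : ∀ ϖ, ϖ ∈ s.toFinset ↔ PP ϖ ∧ ϖ ∣ u * pw ^ i * s.prod := fun ϖ => by
    rw [Multiset.mem_toFinset]
    refine ⟨fun h => ⟨h3 ϖ h, (Multiset.dvd_prod h).mul_left _⟩, fun h => ?_⟩
    rcases h.1.1.dvd_or_dvd h.2 with h4 | h4
    · exact absurd ((h.1.1.dvd_prime_iff_associated pw_prime).1
        (h.1.1.dvd_of_dvd_pow (h1.dvd_mul_left.1 h4))).symm.dvd h.1.2.pw
    · obtain ⟨ϖ', h5, h6⟩ := h.1.1.exists_mem_multiset_dvd h4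
      rwa [hP.2.2.2.2.2.2.2.1 ϖ ϖ' h.1 (h3 ϖ' h5) h6]
  refine ⟨s.toFinset, e, fun W => ?_⟩
  by_cases hl : W.l = 3
  · have : Ov W 3 := by simpa [hl] using Ov_l W
    exact iff_of_true (Ov_mul.2 (Or.inl this)) (Ov_mul.2 (Or.inl this))
  refine ⟨fun h => ?_, fun h => ?_⟩
  · obtain ⟨ϖ, h4, h5⟩ := koch_mem hP h hl
    exact h5.dvd (((e ϖ).1 h4).2.mul_left _)
  · obtain ⟨ϖ, h4, h5, -, h6⟩ := hP.1 W
    refine Ov_mul.2 ((Ov_mul.1 h).imp id fun h => h5.dvd ?_)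
    exact dvd_prod_of_mem _ ((e ϖ).2 ⟨h6 hl, ((hP.2.2.1 W ϖ h4 h5).1 _).1 h⟩)

theorem ex_tame_LOW (hF : FRK_st) (hT : TAME_st) {T : Finset Zw} {V : Zw → Plc}
    (h : ∀ ϖ ∈ T, PP ϖ ∧ Ov (V ϖ) ϖ) : ∃ σ τ, Tm T V σ τ := by
  choose! σ hσ using fun ϖ hϖ => (hF (V ϖ) ϖ (h ϖ hϖ).1.1 (h ϖ hϖ).2).1
  choose! τ h1 h2 using fun ϖ hϖ => (hT 3 1 (V ϖ) Nat.prime_three
    ((h ϖ hϖ).1.l_neK (h ϖ hϖ).2) ((h ϖ hϖ).1.l_neK (h ϖ hϖ).2)).2.1
  exact ⟨σ, τ, fun ϖ hϖ => ⟨(h ϖ hϖ).1, (h ϖ hϖ).2, hσ ϖ hϖ, h1 ϖ hϖ, fun e =>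
    absurd (e.symm.trans (h2 ϖ hϖ)) (by decide)⟩⟩

/-- the value of a word is linear -/
def wdL {ι R : Type} [CommRing R] (θ : GQ → R) (L : List (GQ × ι)) : (ι → R) →+ R where
  toFun := wd θ L
  map_zero' := by simp [wd]
  map_add' v w := by simp [wd, mul_add, List.sum_map_add]

theorem LOW_pf (hS : PRES_st) (hG : KGEN_st) (hP : PLK_st) (hF : FRK_st) (hT : TAME_st)
    (hM : KM_st) : LOW_st := by
  intro R _ t N n θ b Q hc h3 hθ ht hb hu hQ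
  have fin := hc.fin
  obtain ⟨T, t1, t2⟩ := ex_primes_LOW hP hb
  have hV : ∀ ϖ ∈ T, ∃ V : Plc, Ov V ϖ ∧ (ϖ ∈ Q → ∀ g ∈ V.D, θ g = 1 ∧ cy (3 ^ n) g = 1) :=
    fun ϖ h => by
      by_cases hq : ϖ ∈ Q
      · exact (hQ ϖ hq).2.2.imp fun V hV => ⟨hV.1, fun _ => hV.2⟩
      · exact (hP.2.1 ϖ ((t1 ϖ).1 h).1.1).imp fun V hV => ⟨hV, fun h => absurd h hq⟩
  have : Nonempty Plc := ⟨V3⟩
  choose! V v1 v2 using hV
  obtain ⟨σ, τ, hm⟩ := ex_tame_LOW hF hT (V := V) fun ϖ h => ⟨((t1 ϖ).1 h).1, v1 ϖ h⟩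
  obtain ⟨x₁, h1, x₂, h2, -, -, h4, h5, h6⟩ := hG.1 0
  obtain ⟨k, -, hk⟩ := koch_unip R ⟨n, h3⟩
  obtain ⟨L, -, hL⟩ := hS x₁ x₂ T V σ τ hθ.kerK n h1.2 h2.2 h4 h5 h6 hm hθ.kerK_open
    (fun _ h => h.1) hθ.kerK_conj (fun g hg => ⟨k, pow_mem hg _, by
      obtain ⟨c, e⟩ := ht g hg
      rw [hθ.powK hg, hk _ (e ▸ (Commute.all _ _).isNilpotent_mul_right ⟨N, hc.nil⟩)]⟩)
    fun W hW g hg => ⟨hg.2, sub_eq_zero.1 (hu W (by rwa [← t2]) g hg)⟩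
  replace hL := (hL R θ h3 hθ fun _ h => h.2).2 fin
  let Φ : (Bool ⊕ T → R) →+ ((T \ Q : Finset Zw) → R) := AddMonoidHom.pi fun ϖ =>
    (AddMonoidHom.mulLeft (1 - θ (τ ϖ))).comp (wdL θ (L (σ ϖ))) +
      (AddMonoidHom.mulLeft (θ (σ ϖ) - ∑ i ∈ range (nn ϖ), θ (τ ϖ) ^ i)).comp
        (Pi.evalAddMonoidHom _ (.inr ⟨ϖ, (mem_sdiff.1 ϖ.2).1⟩))
  have hrow : ∀ v : Φ.ker, ∃ c, Co θ GK c ∧ Unr (3 * ∏ ϖ ∈ T, ϖ) c ∧
      ∀ k, c (gn x₁ x₂ τ T k) = v.1 k := fun v => hL v fun ϖ => by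
    by_cases hq : ϖ.1 ∈ Q
    · obtain ⟨p1, p2, p3, p4, -⟩ := hm ϖ ϖ.2
      obtain ⟨j⟩ : Nonempty (ZMod (3 ^ n) →+* R) :=
        ⟨ZMod.castHom (ringChar.dvd (by exact_mod_cast h3)) R⟩
      have e := ((hM (3 ^ n) (by positivity)).2.2.2.2.2.2.2.2 (V ϖ) fun h => p1.l_neK p2
        ((Nat.prime_dvd_prime_iff_eq (V ϖ).hl.out Nat.prime_three).1
          ((V ϖ).hl.out.dvd_of_dvd_pow h))).2.2 ϖ _ p3
      have e' := congrArg j e
      rw [(v2 ϖ ϖ.2 hq _ p3.1).2, map_one, map_natCast] at e'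
      simp [(v2 ϖ ϖ.2 hq _ p3.1).1, (v2 ϖ ϖ.2 hq _ ((V ϖ).I_le p4)).1, ← e']
    · exact congrFun v.2 ⟨ϖ, mem_sdiff.2 ⟨ϖ.2, hq⟩⟩
  choose c c1 c2 c3 using hrow
  have hg := (koch_gn3 hG hP h1.2 h2.2 h4 h5 h6 hm).1
  have hi : Function.Injective fun (v : Φ.ker) (g : GK) => c v g := fun v w e =>
    Subtype.ext (funext fun k => by rw [← c3, ← c3]; exact congrFun e ⟨_, hg k⟩)
  have hQT : Q ⊆ T := fun ϖ h => (t1 ϖ).2 ⟨(hQ ϖ h).1, (hQ ϖ h).2.1⟩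
  have hcard : Nat.card R ^ (2 + Q.card) ≤ Nat.card Φ.ker := by
    have e1 := Φ.ker.card_mul_index
    rw [AddSubgroup.index_ker, Nat.card_fun, Nat.card_sum, Nat.card_eq_fintype_card (α := Bool),
      Fintype.card_bool, Nat.card_eq_finsetCard T] at e1
    have e2 := Φ.range.card_le_card_addGroup
    rw [Nat.card_fun, Nat.card_eq_finsetCard, card_sdiff_of_subset hQT] at e2
    refine Nat.le_of_mul_le_mul_right ?_ (pow_pos (Nat.card_pos (α := R)) (T.card - Q.card))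
    rw [← pow_add, add_assoc, Nat.add_sub_cancel' (card_le_card hQT), ← e1]
    exact Nat.mul_le_mul_left _ e2
  refine le_trans ?_ (Set.encard_le_encard (s := Set.range fun (v : Φ.ker) (g : GK) => c v g) ?_)
  · refine le_trans ?_ hi.encard_range
    rw [ENat.card_eq_coe_natCard]
    exact_mod_cast hcard
  · rintro _ ⟨v, rfl⟩
    exact ⟨c v, ⟨c1 v, fun W hW => c2 v W (by rwa [t2])⟩, fun _ => rfl⟩

end Pool.Agent.MP_e23604_nt.W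

end

section

/-!
Heegner points on `y ^ 2 + y = x ^ 3` as products over finite subgroups: definitions and statements.
-/

set_option autoImplicit false

open Finset QuadraticAlgebra
open scoped Classical

namespace Pool.Agent.MP_e23604_nt.Un

open B R S W

/-- the tangent line at `P`, evaluated at `R` -/
noncomputable def lT (P R : Pt) : Qb :=
  yc R - yc P - 3 * xc P ^ 2 / (2 * yc P + 1) * (xc R - xc P)

/-- the elements of a finite subgroup -/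
noncomputable def els (C : AddSubgroup Pt) : Finset Pt :=
  if h : (C : Set Pt).Finite then h.toFinset else ∅

theorem mem_els {C : AddSubgroup Pt} (h : (C : Set Pt).Finite) {T : Pt} : T ∈ els C ↔ T ∈ C := by
  rw [els, dif_pos h, Set.Finite.mem_toFinset, SetLike.mem_coe]

/-- a ratio of second coordinates on the quotient curve -/
noncomputable def hA (C : AddSubgroup Pt) (P Q : Pt) : Qb :=
  ∏ T ∈ els C, lT P (Q + T) / lT P (-P + T)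

/-- the ratio `b / (a - b)` -/
noncomputable def hR (C : AddSubgroup Pt) (P : Pt) : Qb := -(hA C P T0 + hA C P (-T0) + 2) / 3

/-- the elliptic unit -/
noncomputable def hU (C : AddSubgroup Pt) (s : Pt) : Qb :=
  ∏ T ∈ els C, xc (s + T) * xc (s + 3 • s + T) * xc (s - 3 • s + T)

/-- its normalised inverse -/
noncomputable def hV (C : AddSubgroup Pt) (s : Pt) : Qb :=
  (∏ T ∈ els C, xc (3 • s + T)) ^ 3 / hU C s

/-- the ratio `(a - c) / (a - b)` -/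
noncomputable def hG (C : AddSubgroup Pt) (s : Pt) : Qb :=
  3 * hR C (3 • s) ^ 3 * hV C s / (hA C (3 • s) T0 * hA C (3 • s) (-T0))

/-- the first coordinate -/
noncomputable def hx (C : AddSubgroup Pt) (s : Pt) : Qb := hG C s - 1 - hR C (3 • s)

/-- the second coordinate -/
noncomputable def hy (C : AddSubgroup Pt) (s : Pt) : Qb := w3 * (1 + (1 - w3) * hR C (3 • s))

/-- admissible data -/
structure HD (C : AddSubgroup Pt) (s : Pt) : Prop where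
  fin : (C : Set Pt).Finite
  c3 : ¬ 3 ∣ (els C).card
  s9 : 9 • s = 0
  sP : xc (3 • s) ≠ 0

end Pool.Agent.MP_e23604_nt.Un

end

section

/-!
A second family of Heegner points on `y ^ 2 + y = x ^ 3`: definitions and statements.
-/

set_option autoImplicit false

open Finset QuadraticAlgebra
open scoped Classical

namespace Pool.Agent.MP_e23604_nt.Un

open B R S W

/-- the order of a finite subgroup -/
noncomputable def cd (C : AddSubgroup Pt) : ℕ := (els C).card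

/-- the product of the differences of first coordinates -/
noncomputable def kk (C : AddSubgroup Pt) (z : Qb) : Qb := ∏ T ∈ (els C).erase 0, (z - xc T)

/-- the image under multiplication by `b` -/
noncomputable def mC (b : Zw) (C : AddSubgroup Pt) : AddSubgroup Pt :=
  C.map (DistribSMul.toAddMonoidHom Pt b)

/-- the preimage under multiplication by `b` -/
noncomputable def qC (b : Zw) (C : AddSubgroup Pt) : AddSubgroup Pt :=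
  C.comap (DistribSMul.toAddMonoidHom Pt b)

/-- the exponent of the root of unity attached to the type `k` -/
def nj (k : ℕ) : ℕ := if 3 ∣ k then 1 else 2

/-- the three elliptic units -/
noncomputable def nE (k : ℕ) (C : AddSubgroup Pt) (i : ℕ) : Qb :=
  w3 ^ (nj k * cd C * i) * kk C (-w3 ^ i) * kk (mC pw C) (-w3 ^ (i + k))

/-- the cube root of their product -/
noncomputable def nB (C : AddSubgroup Pt) : Qb :=
  cbr 3 ^ (2 * (cd C - 1)) * kk C 0 * kk (mC pw C) 0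

/-- the first coordinate -/
noncomputable def nX (k : ℕ) (C : AddSubgroup Pt) : Qb :=
  -(nE k C 2 - nE k C 0 - nE k C 1) / (2 * nB C)

/-- the second coordinate -/
noncomputable def nY (k : ℕ) (C : AddSubgroup Pt) : Qb :=
  (nE k C 1 - nE k C 0 - nE k C 2) / (2 * nE k C 2)

/-- the Heegner point -/
noncomputable def ny (k : ℕ) (C : AddSubgroup Pt) : Pt := pt 0 1 (nX k C) (nY k C)

/-- finite subgroups of order prime to three -/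
structure ND (C : AddSubgroup Pt) : Prop where
  fin : (C : Set Pt).Finite
  c3 : ¬ 3 ∣ cd C

/-- the point lies on the curve; nothing vanishes -/
def NON_st : Prop := ∀ (k : ℕ) (C : AddSubgroup Pt), ND C →
  On 0 1 (nX k C) (nY k C) ∧ (∀ z : Qb, z ^ 4 + z = 0 → kk C z ≠ 0) ∧
  (∀ i, nE k C i ≠ 0) ∧ nB C ≠ 0 ∧ nX k C ≠ 0 ∧ nE k C 0 * nE k C 1 * nE k C 2 = nB C ^ 3 ∧
  nY k C ^ 2 * nE k C 2 = nE k C 0 ∧ (nY k C + 1) ^ 2 * nE k C 2 = nE k C 1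

/-- the Galois action -/
def NGAL_st : Prop := ∀ (k : ℕ) (C : AddSubgroup Pt) (g : GQ), ND C →
  ND (C.map (gal g)) ∧ cd (C.map (gal g)) = cd C ∧
  (g ∈ GK → gal g (ny k C) =
    (ω : Zw) ^ ((cd C - 1) * (kum 3 g).val) • ny k (C.map (gal g))) ∧
  (g ∉ GK → gal g (ny k C) =
    -((ω : Zw) ^ ((cd C - 1) * (kum 3 g).val) • ny (2 * k) (C.map (gal g)) + T0))

/-- rotation of the subgroup -/
def NORI_st : Prop := ∀ (k : ℕ) (C : AddSubgroup Pt), ND C →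
  ND (mC ω C) ∧ cd (mC ω C) = cd C ∧
    ny k (mC ω C) = (ω : Zw) ^ (nj k * cd C) • ny k C + T0

/-- complex multiplication -/
def NMUL_st : Prop := ∀ b : Zw, Pry b → ∃ j : ℕ, ∀ (k : ℕ) (C : AddSubgroup Pt), ND C →
  ND (qC b C) ∧ cd (qC b C) = nn b * cd C ∧ nY k (qC b C) = nY k C ∧
    ny k (qC b C) = (ω : Zw) ^ (j * cd C) • ny k C

/-- `X` is a system of generators of the groups that contain `C` with index `l` -/
def Nbs (C : AddSubgroup Pt) (l : ℕ) (X : Finset Pt) : Prop :=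
  (∀ R ∈ X, l • R ∈ C ∧ R ∉ C) ∧
    ∀ T : Pt, l • T ∈ C → T ∉ C → ∃! R, R ∈ X ∧ T ∈ C ⊔ AddSubgroup.zmultiples R

/-- the product over the neighbours -/
def NPR_st : Prop := ∀ (C : AddSubgroup Pt) (l : ℕ) (X : Finset Pt), ND C → l.Prime → l ≠ 3 →
  Nbs C l X → X.card = l + 1 ∧
    (∀ R ∈ X, ND (C ⊔ AddSubgroup.zmultiples R) ∧
      cd (C ⊔ AddSubgroup.zmultiples R) = l * cd C) ∧
    ∀ z : Qb, ∏ R ∈ X, kk (C ⊔ AddSubgroup.zmultiples R) z = kk C z ^ l * kk (qC l C) z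

/-- the Hecke relation at an inert prime -/
def NTL_st : Prop := ∀ (k : ℕ) (C : AddSubgroup Pt) (l : ℕ) (X : Finset Pt), ND C →
  l.Prime → l % 3 = 2 → Nbs C l X →
    pw • ∑ R ∈ X, ny k (C ⊔ AddSubgroup.zmultiples R) = 0

end Pool.Agent.MP_e23604_nt.Un

end
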