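import Pool.Agent.Mg.Fe23604m.G300596

set_option linter.all false

/-! Statements of the cohomological module: what the other modules use. -/

set_option autoImplicit false

open Finset
open scoped Classical

namespace Pool.Agent.MP_e23604_nt.W

open B R S

/-- the logarithm to base four of the cyclotomic character -/
noncomputable def lA (m : ℕ) (g : GQ) : ZMod (3 ^ m) :=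
  Classical.epsilon fun a => (4 : ZMod (3 ^ (m + 1))) ^ a.val = cy (3 ^ (m + 1)) g

/-- a prime of degree one with norm one modulo `N`, a place over it and a Frobenius element -/
structure Sp (N : ℕ) (V : Plc) (ϖ : Zw) (φ : GQ) : Prop where
  pp : PP ϖ
  ov : Ov V ϖ
  deg : nn ϖ = V.l
  dvd : N ∣ V.l - 1
  fr : FK V ϖ φ

/-- additive in both variables -/
def Bia {A : Type} [Add A] (H : Subgroup GQ) (b : GQ → GQ → A) : Prop :=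
  (∀ g ∈ H, Adt H (b g)) ∧ ∀ h ∈ H, Adt H fun g => b g h

/-- `f` on `H` is invariant under `I` in both variables -/
def Un2 {A : Type} (H I : Subgroup GQ) (f : GQ → GQ → A) : Prop :=
  ∀ g ∈ H, ∀ h ∈ H, ∀ τ ∈ I, f (g * τ) h = f g h ∧ f g (h * τ) = f g h

/-- the family detects the cubic characters unramified outside `b` -/
def Gn3 {ι : Type} (b : Zw) (x : ι → GQ) : Prop := (∀ i, x i ∈ GK) ∧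
  ∀ a : GQ → ZMod 3, Adt GK a → Lc GK a → Unr b a → (∀ i, a (x i) = 0) → ∀ g ∈ GK, a g = 0

/-- Kummer cocycles -/
def KM_st : Prop := ∀ N : ℕ, N ≠ 0 →
  Mu ⊤ (cy N) ∧ (∀ θ : Qb, Lc ⊤ fun g => km N g θ) ∧
  (∀ (H : Subgroup GQ) (θ : Qb), θ ≠ 0 → Fix H θ → Co (cy N) H fun g => km N g θ) ∧
  (∃ e : Qb → Qb → ZMod N, ∀ (g : GQ) (θ θ' : Qb), θ ≠ 0 → θ' ≠ 0 →
    km N g (θ * θ') = km N g θ + km N g θ' + cy N g * e θ θ' - e (g θ) (g θ')) ∧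
  (∀ (ι : Type) (s : Finset ι) (θ : ι → Qb) (k : ι → ℤ), (∀ i ∈ s, θ i ≠ 0) →
    ∃ e : GQ → ZMod N, (∀ y y' : GQ, (∀ i ∈ s, y (θ i) = y' (θ i)) → e y = e y') ∧ ∀ g y : GQ,
      km N g (y (∏ i ∈ s, θ i ^ k i)) =
        ∑ i ∈ s, (k i : ZMod N) * km N g (y (θ i)) + cy N g * e y - e (g * y)) ∧
  (∀ (g : GQ) (y : Qb), y ≠ 0 → g y = y → km N g (y ^ N) = (cy N g - 1) * lz N (rt N (y ^ N) / y)) ∧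
  (∀ k : ℕ, k ≠ 0 → (∀ g, ZMod.castHom (Dvd.intro k rfl) (ZMod N) (cy (N * k) g) = cy N g) ∧
    ∃ e : Qb → ZMod N, ∀ (g : GQ) (θ : Qb), θ ≠ 0 →
      ZMod.castHom (Dvd.intro k rfl) (ZMod N) (km (N * k) g θ) =
        km N g θ + cy N g * e θ - e (g θ)) ∧
  (∀ g ∈ GK, cy 3 g = 1 ∧ (cy 9 g = 1 ↔ km 3 g w3 = 0)) ∧
  ∀ V : Plc, ¬ V.l ∣ N →
    (∀ z z' : Qb, z ^ N = 1 → z' ^ N = 1 → V.v (z - z') < 1 → z = z') ∧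
    (∀ τ ∈ Ine V.l V.γ, cy N τ = 1 ∧ ∀ (θ ϖ : Qb) (k : ℤ), ϖ ≠ 0 → τ θ = θ → τ ϖ = ϖ →
      V.v θ = V.v ϖ ^ k → km N τ θ = k * km N τ ϖ) ∧
    ∀ ϖ σ, FK V ϖ σ → cy N σ = nn ϖ

/-- the places of the field of cube roots of unity -/
def PLK_st : Prop :=
  (∀ V : Plc, ∃ ϖ : Zw, Prime ϖ ∧ Ov V ϖ ∧ (V.l = 3 → ϖ = pw) ∧ (V.l ≠ 3 → PP ϖ)) ∧
  (∀ ϖ : Zw, Prime ϖ → ∃ V, Ov V ϖ) ∧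
  (∀ (V : Plc) (ϖ : Zw), Prime ϖ → Ov V ϖ → (∀ b, Ov V b ↔ ϖ ∣ b) ∧
    (∀ V', Ov V' ϖ → V'.l = V.l ∧ ∃ g ∈ GK, V'.v = (V.mv g).v) ∧
    (V.l % 3 = 1 ∧ nn ϖ = V.l ∧ Dec V.v ≤ GK ∨ V.l % 3 = 2 ∧ nn ϖ = V.l ^ 2 ∨
      V.l = 3 ∧ nn ϖ = 3) ∧
    (V.l ≠ 3 → V.v (io ϖ) = (V.l : ℝ)⁻¹ ∧ Ine V.l V.γ ≤ GK) ∧
    (V.l = 3 → V.v (io ϖ) ^ 2 = 3⁻¹) ∧
    (∀ (b : Zw) (k : ℕ), ϖ ^ k ∣ b ↔ V.v (io b) ≤ V.v (io ϖ) ^ k) ∧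
    ∀ y : Qb, y ≠ 0 → Fix V.I y → ∃ k : ℤ, V.v y = V.v (io ϖ) ^ k) ∧
  (∀ (V : Plc) (m : ℕ), Ov V m ↔ V.l ∣ m) ∧
  (∀ V V' : Plc, (V.l = V'.l → ∃ g, V'.v = (V.mv g).v) ∧
    (V.v = V'.v → V.l = V'.l ∧ V.D = V'.D ∧ V.I = V'.I)) ∧
  (∀ (V : Plc) (g : GQ) (b : Zw), (g ∈ GK → (Ov (V.mv g) b ↔ Ov V b)) ∧
    (g ∉ GK → (Ov (V.mv g) b ↔ Ov V (star b)))) ∧
  (∀ x : Qb, Fix GK x → (∃ a b : Zw, b ≠ 0 ∧ x = io a / io b) ∧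
    ((∀ V : Plc, V.v x ≤ 1) → ∃ a : Zw, x = io a)) ∧
  (∀ ϖ ϖ' : Zw, PP ϖ → PP ϖ' → ϖ ∣ ϖ' → ϖ = ϖ') ∧ (∀ ϖ : Zw, PP ϖ → PP (star ϖ)) ∧
  (∀ u : Zw, IsUnit u → ∃ i j : ℕ, u = (-1) ^ i * QuadraticAlgebra.omega ^ j) ∧
  (∀ u : Zw, Pry u → ∃ s : Multiset Zw, (∀ ϖ ∈ s, PP ϖ) ∧ s.prod = u) ∧
  ∀ b : Zw, b ≠ 0 → ∃ (u : Zw) (i : ℕ) (c : Zw), IsUnit u ∧ Pry c ∧ b = u * pw ^ i * c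

/-- Frobenius elements -/
def FRK_st : Prop := ∀ (V : Plc) (ϖ : Zw), Prime ϖ → Ov V ϖ → (∃ σ, FK V ϖ σ) ∧
  (∀ g ∈ V.D, ∀ τ ∈ V.I, g * τ * g⁻¹ ∈ V.I) ∧
  (V.l % 3 = 1 → ∀ φ, FK V ϖ φ ↔ Frob V.l V.γ φ) ∧
  ∀ σ, FK V ϖ σ → (∀ σ', FK V ϖ σ' → σ⁻¹ * σ' ∈ V.I) ∧
    (∀ τ ∈ V.I, FK V ϖ (σ * τ) ∧ FK V ϖ (τ * σ)) ∧
    (∀ (g : GQ) (ϖ' : Zw), nn ϖ' = nn ϖ → FK (V.mv g) ϖ' (g⁻¹ * σ * g)) ∧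
    (∀ N, ON N → ∀ g ∈ V.D, ∃ (i : ℕ) (τ : GQ), τ ∈ V.I ∧ (σ ^ i * τ)⁻¹ * g ∈ N) ∧
    (∀ W : Subgroup GQ, IsOpen (W : Set GQ) → σ ∈ W → V.I ≤ W → V.D ≤ W) ∧
    ∀ n : ℕ, n ≠ 0 → ∃ s : GQ → ZMod n, Adt V.D s ∧ Lc V.D s ∧ (∀ τ ∈ V.I, s τ = 0) ∧ s σ = 1

/-- primes with prescribed Frobenius elements -/
def CHB_st : Prop :=
  (∀ (N : Subgroup GQ) (g : GQ) (m B : ℕ) (b : Zw), ON N → g ∈ GK → m ≠ 0 → cy m g = 1 → b ≠ 0 →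
    ∃ (V : Plc) (ϖ : Zw) (φ : GQ) (i j : ℕ), Sp m V ϖ φ ∧ B < V.l ∧ IsCoprime (V.l : Zw) b ∧
      (∀ W : Plc, W.l = V.l → W.I ≤ N) ∧ (g ^ i)⁻¹ * φ ∈ N ∧ (φ ^ j)⁻¹ * g ∈ N) ∧
  ∀ (N U : Subgroup GQ) (m B : ℕ) (b : Zw) (A A' : Type) [AddCommGroup A] [AddCommGroup A']
    (a : GQ → A) (a' : GQ → A') (T : AddSubgroup A) (T' : AddSubgroup A'), ON N →
    IsOpen (U : Set GQ) → U ≤ GK → m ≠ 0 → (∀ g ∈ U, cy m g = 1) → b ≠ 0 → Adt U a → Lc U a →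
    Adt U a' → Lc U a' → (∃ g ∈ U, a g ∉ T) → (∃ g ∈ U, a' g ∉ T') →
    ∃ (V : Plc) (ϖ : Zw) (φ : GQ), Sp m V ϖ φ ∧ B < V.l ∧ IsCoprime (V.l : Zw) b ∧
      (∀ W : Plc, W.l = V.l → W.I ≤ N ⊓ U) ∧ V.D ≤ U ∧ a φ ∉ T ∧ a' φ ∉ T'

/-- tame inertia -/
def TAME_st : Prop := ∀ (p n : ℕ) (V : Plc), p.Prime → V.l ≠ p → V.l ≠ 3 →
  Adt V.I (fun g => km (p ^ n) g V.l) ∧ (∃ τ ∈ V.I, km (p ^ n) τ V.l = 1) ∧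
  (∀ ϖ : Zw, Prime ϖ → Ov V ϖ → ∀ τ ∈ V.I, km (p ^ n) τ (io ϖ) = km (p ^ n) τ V.l) ∧
  (∀ τ ∈ V.I, km p τ V.l ≠ 0 → IsUnit (km (p ^ n) τ V.l)) ∧
  (1 ≤ n → ∀ τ ∈ V.I, IsUnit (km (p ^ n) τ V.l) → km p τ V.l ≠ 0) ∧
  ∀ (A : Type) [AddCommGroup A] (a : GQ → A), Adt V.I a → Lc V.I a →
    (∀ u ∈ V.I, p ^ n • a u = 0) → ∀ τ ∈ V.I, km (p ^ n) τ V.l = 1 →
    ∀ u ∈ V.I, a u = (km (p ^ n) u V.l).val • a τ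

/-- homomorphisms from the tame group to groups of prime power exponent: uniqueness -/
def TPU_st : Prop := ∀ (p e : ℕ) (V : Plc) (ϖ : Zw) (σ τ : GQ) (A : Type) [Group A] (π : GQ → A),
  p.Prime → V.l ≠ p → V.l ≠ 3 → Prime ϖ → Ov V ϖ → FK V ϖ σ → τ ∈ V.I → km p τ V.l ≠ 0 →
  (∀ g ∈ V.D, ∀ h ∈ V.D, π (g * h) = π g * π h) → Lc V.D π → (∀ g ∈ V.D, π g ^ p ^ e = 1) →
  π σ * π τ = π τ ^ nn ϖ * π σ ∧ (∀ u ∈ V.I, ∃ i : ℕ, π u = π τ ^ i) ∧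
    ∀ g ∈ V.D, ∃ i k : ℕ, π g = π τ ^ i * π σ ^ k

/-- existence -/
def TPG_st : Prop := ∀ (p e : ℕ) (V : Plc) (ϖ : Zw) (σ τ : GQ) (A : Type) [Group A] (s t : A),
  p.Prime → V.l ≠ p → V.l ≠ 3 → Prime ϖ → Ov V ϖ → FK V ϖ σ → τ ∈ V.I → km p τ V.l ≠ 0 →
  s ^ p ^ e = 1 → t ^ p ^ e = 1 → s * t = t ^ nn ϖ * s →
  ∃ π : GQ → A, (∀ g ∈ V.D, ∀ h ∈ V.D, π (g * h) = π g * π h) ∧ Lc V.D π ∧ π σ = s ∧ π τ = t ∧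
    ∀ g, ∃ i k : ℕ, π g = t ^ i * s ^ k

/-- cocycles of the tame group -/
def TPR_st : Prop := ∀ (p n : ℕ) (R : Type) [CommRing R] (V : Plc) (ϖ : Zw) (σ τ : GQ)
  (θ : GQ → R), p.Prime → V.l ≠ p → V.l ≠ 3 → Prime ϖ → Ov V ϖ → FK V ϖ σ → τ ∈ V.I →
  km p τ V.l ≠ 0 → (p : R) ^ n = 0 → Mu V.D θ → (∀ g ∈ V.D, θ g ^ p ^ n = 1) →
  (∀ c, Co θ V.D c → (1 - θ τ) * c σ + (θ σ - ∑ i ∈ range (nn ϖ), θ τ ^ i) * c τ = 0 ∧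
    (c σ = 0 → c τ = 0 → ∀ g ∈ V.D, c g = 0) ∧ (c τ = 0 → ∀ g ∈ V.I, c g = 0)) ∧
  ∀ x y, (1 - θ τ) * x + (θ σ - ∑ i ∈ range (nn ϖ), θ τ ^ i) * y = 0 →
    ∃ c, Co θ V.D c ∧ c σ = x ∧ c τ = y

/-- conjugation -/
def CNJ_st : Prop := ∀ (R : Type) [CommRing R] (θ : GQ → R),
  (∀ (H : Subgroup GQ) (f : GQ → GQ → R) (k : GQ), Mu H θ → Co2 θ H f → k ∈ H →
    Bo2 θ H fun g h => f g h - θ k * f (k⁻¹ * g * k) (k⁻¹ * h * k)) ∧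
  ∀ (V V' : Plc) (ϖ : Zw), Mu GK θ → Prime ϖ → Ov V ϖ → Ov V' ϖ →
    (∀ x, Co θ GK x → (Bo θ V.D x → Bo θ V'.D x) ∧
      ((∀ τ ∈ V.I, θ τ = 1) → (∀ τ ∈ V.I, x τ = 0) → ∀ τ ∈ V'.I, x τ = 0)) ∧
    ∀ f, Co2 θ GK f → Bo2 θ V.D f → Bo2 θ V'.D f

/-- sums and multiples of cocycles and of coboundaries -/
def LIN_st : Prop := ∀ (R : Type) [CommRing R] (θ : GQ → R) (H : Subgroup GQ),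
  (∀ (f f' : GQ → GQ → R) (r : R), (Co2 θ H f → Co2 θ H f' →
      Co2 θ H (fun g h => f g h + f' g h) ∧ Co2 θ H (fun g h => f g h - f' g h) ∧
        Co2 θ H fun g h => r * f g h) ∧
    (Bo2 θ H f → Bo2 θ H f' →
      Bo2 θ H (fun g h => f g h + f' g h) ∧ Bo2 θ H (fun g h => f g h - f' g h) ∧
        Bo2 θ H fun g h => r * f g h) ∧
    (Mu H θ → Bo2 θ H f → Co2 θ H f) ∧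
    ∀ (θ' : GQ → R) (H' : Subgroup GQ), H' ≤ H → (∀ g ∈ H', θ' g = θ g) →
      (∀ g ∈ H', ∀ h ∈ H', f' g h = f g h) →
      (Co2 θ H f → Co2 θ' H' f') ∧ (Bo2 θ H f → Bo2 θ' H' f')) ∧
  ∀ (ι : Type) (s : Finset ι) (f : ι → GQ → GQ → R),
    ((∀ i ∈ s, Co2 θ H (f i)) → Co2 θ H fun g h => ∑ i ∈ s, f i g h) ∧
    ((∀ i ∈ s, Bo2 θ H (f i)) → Bo2 θ H fun g h => ∑ i ∈ s, f i g h)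

/-- cup products -/
def CUP_st : Prop := ∀ (R : Type) [CommRing R] (κ ρ lam c x : GQ → R) (H : Subgroup GQ),
  Mu H ρ → Mu H lam → (∀ g ∈ H, κ g = ρ g * lam g) → Co ρ H c → Co lam H x →
  Co2 κ H (cup lam c x) ∧ (Bo ρ H c ∨ Bo lam H x → Bo2 κ H (cup lam c x)) ∧
  (∀ I ≤ H, (∀ τ ∈ I, lam τ = 1 ∧ c τ = 0 ∧ x τ = 0) → Un2 H I (cup lam c x)) ∧
  ((∀ g ∈ H, ρ g = 1 ∧ lam g = 1) → Bia H (cup lam c x))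

/-- unramified two-cocycles are coboundaries -/
def UNB_st : Prop := ∀ (R : Type) [CommRing R] (m : ℕ) (κ : GQ → R) (V : Plc)
  (f : GQ → GQ → R), m ≠ 0 → (m : R) = 0 → Mu V.D κ → (∀ τ ∈ V.I, κ τ = 1) → Co2 κ V.D f →
  Un2 V.D V.I f → Bo2 κ V.D f

/-- cocycles of an action groupoid -/
def GRP_st : Prop := ∀ (R : Type) [CommRing R] (κ : GQ → R) (U G H N : Subgroup GQ)
  (c : GQ → GQ → GQ → R), IsOpen (U : Set GQ) → (∀ g ∈ G, ∀ u ∈ U, g⁻¹ * u * g ∈ U) → ON N →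
  U ≤ G → H ≤ G → Mu H κ →
  (∀ g ∈ H, ∀ h ∈ H, ∀ y ∈ G, ∀ u ∈ U, c g h (y * u) = c g h y) →
  (∀ y ∈ G, (∀ g ∈ H, Cst N H fun h => c g h y) ∧ ∀ h ∈ H, Cst N H fun g => c g h y) →
  (∀ g ∈ H, ∀ h ∈ H, ∀ k ∈ H, ∀ y ∈ G,
    κ g * c h k y - c (g * h) k y + c g (h * k) y - c g h (k * y) = 0) →
  Co2 κ H (fun g h => ∑ y ∈ Xs U G, c g h y) ∧
  ((∀ y ∈ G, Bo2 κ (H ⊓ U) fun g h => c g h y) → Bo2 κ H fun g h => ∑ y ∈ Xs U G, c g h y)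

/-- the reciprocity law -/
def RCP_st : Prop := ∀ (R : Type) [CommRing R] (p n : ℕ) (j : ZMod (p ^ n) →+* R)
  (f : GQ → GQ → R) (Q : Finset Zw) (V : Zw → Plc) (φ τ : Zw → GQ) (u : Zw → ZMod (p ^ n))
  (b : Zw → GQ → GQ → R), p.Prime → 1 ≤ n → Co2 (cj j) GK f →
  (∀ ϖ ∈ Q, Sp (p ^ n) (V ϖ) ϖ (φ ϖ) ∧ τ ϖ ∈ (V ϖ).I ∧ u ϖ * km (p ^ n) (τ ϖ) (V ϖ).l = 1 ∧
    Bia (V ϖ).D (b ϖ) ∧ Bo2 (cj j) (V ϖ).D fun g h => f g h - b ϖ g h) →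
  (∀ W : Plc, (∀ ϖ ∈ Q, ¬ Ov W ϖ) → Bo2 (cj j) W.D f) →
  4 * ∑ ϖ ∈ Q, j (u ϖ) * (b ϖ (τ ϖ) (φ ϖ) - b ϖ (φ ϖ) (τ ϖ)) = 0

/-- the reciprocity law for cup products -/
def RCC_st : Prop := ∀ (R : Type) [CommRing R] (p n : ℕ) (j : ZMod (p ^ n) →+* R)
  (ρ lam c x : GQ → R), p.Prime → 1 ≤ n → Mu GK ρ → Mu GK lam →
  (∀ g ∈ GK, ρ g * lam g = cj j g) → Co ρ GK c → Co lam GK x →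
  (∀ (Q : Finset Zw) (V : Zw → Plc) (φ τ : Zw → GQ) (u : Zw → ZMod (p ^ n)),
    (∀ ϖ ∈ Q, Sp (p ^ n) (V ϖ) ϖ (φ ϖ) ∧ τ ϖ ∈ (V ϖ).I ∧ u ϖ * km (p ^ n) (τ ϖ) (V ϖ).l = 1 ∧
      ∀ g ∈ (V ϖ).D, ρ g = 1 ∧ lam g = 1) →
    (∀ W : Plc, (∀ ϖ ∈ Q, ¬ Ov W ϖ) → Bo ρ W.D c ∨ Bo lam W.D x ∨
      ∀ g ∈ W.I, ρ g = 1 ∧ lam g = 1 ∧ c g = 0 ∧ x g = 0) →
    4 * ∑ ϖ ∈ Q, j (u ϖ) * (c (τ ϖ) * x (φ ϖ) - c (φ ϖ) * x (τ ϖ)) = 0) ∧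
  ∀ (V : Plc) (ϖ : Zw) (φ : GQ), PP ϖ → (nn ϖ).Prime → Ov V ϖ → FK V ϖ φ → V.l ≠ p →
    (∀ g ∈ V.D, ρ g = 1 ∧ lam g = 1 ∧ cy (p ^ n) g = 1) →
    (∀ W : Plc, ¬ Ov W ϖ → Bo ρ W.D c ∨ Bo lam W.D x ∨
      ∀ g ∈ W.I, ρ g = 1 ∧ lam g = 1 ∧ c g = 0 ∧ x g = 0) →
    ∀ τ ∈ V.I, 4 * (c τ * x φ - c φ * x τ) = 0

/-- the layers of the cyclotomic tower at three -/
def CYL_st : Prop := ∀ m : ℕ, Adt GK (lA m) ∧ Lc GK (lA m) ∧ Unr 3 (lA m) ∧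
  (∀ g ∈ GK, (4 : ZMod (3 ^ (m + 1))) ^ (lA m g).val = cy (3 ^ (m + 1)) g ∧
    (lA m g = 0 ↔ cy (3 ^ (m + 1)) g = 1) ∧
    ∀ k, ZMod.castHom (pow_dvd_pow 3 (Nat.le_add_right m k)) (ZMod (3 ^ m)) (lA (m + k) g) =
      lA m g) ∧
  ∀ V : Plc, V.l = 3 → ∃ x ∈ V.I, lA m x = 1

/-- generators -/
def KGEN_st : Prop :=
  (∀ m : ℕ, ∃ x₁ ∈ V3.D, ∃ x₂ ∈ V3.D, lA m x₁ = 1 ∧ lA m x₂ = 0 ∧ cy 9 x₁ ≠ 1 ∧ cy 9 x₂ = 1 ∧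
    km 3 x₂ (io pw) ≠ 0) ∧
  ∀ (x₁ x₂ : GQ) (T : Finset Zw) (V : Zw → Plc) (τ : Zw → GQ), x₁ ∈ GK → x₂ ∈ GK →
    cy 9 x₁ ≠ 1 → cy 9 x₂ = 1 → km 3 x₂ (io pw) ≠ 0 →
    (∀ ϖ ∈ T, PP ϖ ∧ Ov (V ϖ) ϖ ∧ τ ϖ ∈ (V ϖ).I ∧ km 3 (τ ϖ) (V ϖ).l ≠ 0) →
    (∀ (b : Zw) (a : GQ → ZMod 3), (∀ ϖ, PP ϖ → ϖ ∣ b → ϖ ∈ T) → Adt GK a → Lc GK a → Unr b a →
      a x₁ = 0 → a x₂ = 0 → (∀ ϖ ∈ T, a (τ ϖ) = 0) → ∀ g ∈ GK, a g = 0) ∧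
    ∀ (e₁ e₂ : ZMod 3) (e : Zw → ZMod 3), ∃ a : GQ → ZMod 3, Adt GK a ∧ Lc GK a ∧
      Unr (3 * ∏ ϖ ∈ T, ϖ) a ∧ a x₁ = e₁ ∧ a x₂ = e₂ ∧ ∀ ϖ ∈ T, a (τ ϖ) = e ϖ

/-- generators of three-groups -/
def BRN_st : Prop := ∀ (ι : Type) (b : Zw) (x : ι → GQ) (N : Subgroup GQ), Gn3 b x →
  IsOpen (N : Set GQ) → (∀ g ∈ GK, ∀ n ∈ N, g * n * g⁻¹ ∈ N) → (∀ g ∈ GK, ∃ k, g ^ 3 ^ k ∈ N) →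
  (∀ V : Plc, ¬ Ov V b → V.I ≤ N) → ∀ g ∈ GK, ∃ L : List ι, ((L.map x).prod)⁻¹ * g ∈ N

/-- universal words -/
def NUL_st : Prop := ∀ (ι : Type) (b : Zw) (x : ι → GQ) (U : Subgroup GQ) (n : ℕ) (g : GQ),
  b ≠ 0 → Gn3 b x → IsOpen (U : Set GQ) → U ≤ GK → (∀ g ∈ GK, ∀ u ∈ U, g * u * g⁻¹ ∈ U) →
  (∀ g ∈ GK, ∃ k, g ^ 3 ^ k ∈ U) → (∀ V : Plc, ¬ Ov V b → V.I ≤ U) → g ∈ GK →
  ∃ L : List (GQ × ι), (∀ e ∈ L, e.1 ∈ GK) ∧ ∀ (R : Type) [CommRing R] (θ c : GQ → R),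
    (3 : R) ^ n = 0 → Mu GK θ → (∀ u ∈ U, θ u = 1) → Co θ GK c → Unr b c →
    c g = (L.map fun e => θ e.1 * c (x e.2)).sum

/-- the local-global principle without a condition at three -/
def R2_st : Prop := ∀ (k : Type) [CommRing k] [Finite k] (f : GQ → GQ → k) (b : Zw), (3 : k) = 0 →
  pw ∣ b → Co2 (fun _ => 1) GK f → f 1 1 = 0 → (∀ V : Plc, ¬ Ov V b → Un2 GK V.I f) →
  (∀ V : Plc, Ov V b → V.l ≠ 3 → Bo2 (fun _ => 1) V.D f) →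
  ∃ β, Lc GK β ∧ Unr b β ∧ ∀ g ∈ GK, ∀ h ∈ GK, f g h = β h - β (g * h) + β g

/-- four elements detect the cubic characters at three -/
def DM4_st : Prop := ∃ y : Fin 4 → GQ, (∀ i, y i ∈ V3.D) ∧ ∀ (A : Type) [AddCommGroup A]
  (a : GQ → A), Adt V3.D a → Lc V3.D a → (∀ g ∈ V3.D, 3 • a g = 0) → (∀ i, a (y i) = 0) →
  ∀ g ∈ V3.D, a g = 0

/-- the local pairing is not degenerate -/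
def NDG_st : Prop := ∀ (V : Plc) (φ : GQ → ZMod 3), Adt V.D φ → Lc V.D φ → (∃ g ∈ V.D, φ g ≠ 0) →
  ∃ u : Qb, u ≠ 0 ∧ Fix V.D u ∧ ¬ Bo2 (fun _ => 1) V.D fun g h => φ g * km 3 h u

/-- the number of cocycles at three -/
def LOC3_st : Prop := ∀ (R : Type) [CommRing R] (n N : ℕ) (j : ZMod (3 ^ n) →+* R) (t : R)
  (θ : GQ → R) (g₀ : GQ), Chn t N → Mu V3.D θ → (∀ g ∈ V3.D, t ∣ θ g - 1) → g₀ ∈ V3.D →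
  (rs V3.D (Co θ V3.D)).Finite ∧
    (rs V3.D (Co θ V3.D)).ncard ≤ Nat.card R ^ 3 * kp t ^ vl t N (θ g₀ - cj j g₀)

/-- elements close to one -/
def POW_st : Prop := ∀ (p n : ℕ) (V : Plc) (H : Subgroup GQ) (u : Qb), p.Prime → H ≤ Dec V.v →
  Fix H u → V.v (u - 1) < V.v p ^ (n + 1) → (∃ y, y ^ p ^ n = u ∧ Fix H y) ∧
    Bo (cy (p ^ n)) H fun g => km (p ^ n) g u

/-- approximation by an integer whose prime factors split completely -/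
def APXF_st : Prop := ∀ (U : Subgroup GQ) (B : Finset ℕ) (Q : Finset Zw) (V : Zw → Plc)
  (t : Zw → GQ → Qb) (ε : ℝ), IsOpen (U : Set GQ) → U ≤ GK → 0 < ε →
  (∀ ϖ ∈ Q, Prime ϖ ∧ Ov (V ϖ) ϖ ∧ ∀ ϖ' ∈ Q, ϖ ∣ ϖ' → ϖ = ϖ') →
  (∀ ϖ ∈ Q, ∀ y ∈ GK, (V ϖ).v (t ϖ y) = 1 ∧ (∀ h ∈ (V ϖ).D, t ϖ (h * y) = h (t ϖ y)) ∧
    ∀ u ∈ U, t ϖ (y * u) = t ϖ y) →
  ∃ α : Qb, α ≠ 0 ∧ Fix U α ∧ (∀ W : Plc, W.v α ≤ 1) ∧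
    (∀ ϖ ∈ Q, ∀ y ∈ GK, (V ϖ).v (y α - t ϖ y) < ε) ∧
    (∀ W : Plc, W.l ∈ B → (∀ ϖ ∈ Q, ¬ Ov W ϖ) → W.v (α - 1) < ε) ∧
    ∀ W : Plc, W.v α < 1 → Dec W.v ≤ U ∧ W.l ∉ B ∧ ∀ ϖ ∈ Q, ¬ Ov W ϖ

/-- finitely many homomorphisms of bounded exponent and ramification -/
def FIH_st : Prop := ∀ (p e : ℕ) (U : Subgroup GQ) (b : Zw), p.Prime → b ≠ 0 →
  IsOpen (U : Set GQ) → U ≤ GK → ∃ N, ON N ∧ N ≤ U ∧ ∀ (A : Type) [AddCommGroup A] (a : GQ → A),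
    Adt U a → Lc U a → (∀ g ∈ U, p ^ e • a g = 0) →
    (∀ V : Plc, ¬ Ov V b → ∀ τ ∈ V.I ⊓ U, a τ = 0) → ∀ g ∈ N, a g = 0

/-- enough functionals -/
def FUN_st : Prop := ∀ (N : ℕ) (A : Type) [AddCommGroup A] (x : A), N ≠ 0 → (∀ y : A, N • y = 0) →
  x ≠ 0 → ∃ ℓ : A →+ ZMod N, ℓ x ≠ 0

end Pool.Agent.MP_e23604_nt.W
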