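import Pool.Agent.Mg.Fe23604m.G19f17f
import Pool.Agent.Mg.Fe23604m.Gdcbf1f
import Pool.Agent.Mg.Fe23604m.G300596

set_option linter.all false

section

/-!
Division polynomials for the Eisenstein integers: auxiliary statements.
-/

set_option autoImplicit false

open Finset QuadraticAlgebra Polynomial
open scoped Classical

namespace Pool.Agent.MP_e23604_nt.W

open B R S

/-- the first coordinate of `b • P` is `A / B` evaluated at the first coordinate of `P` -/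
structure Rep (b : Zw) (A B : Qb[X]) : Prop where
  mon : A.Monic
  dA : A.natDegree = nn b
  dB : B.natDegree = nn b - 1
  lc : B.leadingCoeff = io b ^ 2
  sq : ¬ 2 ∣ b → IsSquare B
  pt : ∀ P : Pt, P ≠ 0 → ∃ c : Qb, c ≠ 0 ∧ (b • P).xRep = c • ![A.eval (xc P), B.eval (xc P)]
  ht : ∀ V : Plc, ¬ Ov V 3 → ∀ x : Qb,
    max (V.v (A.eval x)) (V.v (B.eval x)) = max 1 (V.v x) ^ nn b

namespace Rep

variable {b : Zw} {A B : Qb[X]} (h : Rep b A B)

include h

theorem zero {P : Pt} (hP : P ≠ 0) : b • P = 0 ↔ B.eval (xc P) = 0 := by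
  obtain ⟨c, hc, e⟩ := h.pt P hP
  have h1 := congrFun e 1
  refine ⟨fun h0 => ?_, fun h0 => by_contra fun h2 => ?_⟩
  · rw [h0] at h1
    simpa [hc] using h1
  · rw [xRep_eq h2] at h1
    simp [h0] at h1

theorem val {P : Pt} (hP : b • P ≠ 0) : A.eval (xc P) = xc (b • P) * B.eval (xc P) := by
  obtain ⟨c, hc, e⟩ := h.pt P (smul_ne hP).2
  rw [xRep_eq hP] at e
  have h0 := congrFun e 0
  have h1 := congrFun e 1
  simp at h0 h1
  exact mul_left_cancel₀ hc (by linear_combination -h0 + xc (b • P) * h1)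

theorem cop (x : Qb) : A.eval x ≠ 0 ∨ B.eval x ≠ 0 := by
  by_contra e
  rw [not_or, not_not, not_not] at e
  have := h.ht V2 V2_three x
  rw [e.1, e.2, map_zero, max_self] at this
  exact (pow_pos (lt_max_of_lt_left one_pos) _).ne this

theorem ne (hb : b ≠ 0) : B ≠ 0 := leadingCoeff_ne_zero.1 (h.lc ▸ pow_ne_zero 2 (io_ne hb))

theorem deg (hb : b ≠ 0) (c : Qb) : (A - C c * B).Monic ∧ (A - C c * B).natDegree = nn b := by
  have := nn_pos hb
  have h1 : (C c * B).natDegree < A.natDegree := by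
    have := natDegree_C_mul_le c B
    rw [h.dA]
    rw [h.dB] at this
    omega
  exact ⟨h.mon.sub_of_left (degree_lt_degree h1),
    by rw [natDegree_sub_eq_left_of_natDegree_lt h1, h.dA]⟩

theorem lift {R : Pt} (hR : R ≠ 0) {x : Qb} (hx : (A - C (xc R) * B).IsRoot x) :
    ∃ S : Pt, b • S = R ∧ xc S = x := by
  obtain ⟨S, h0, rfl⟩ := ex_pt x
  have e : A.eval (xc S) = xc R * B.eval (xc S) := by
    simp only [IsRoot.def, eval_sub, eval_mul, eval_C] at hx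
    linear_combination hx
  have hB : B.eval (xc S) ≠ 0 := fun e' => (h.cop (xc S)).elim (fun k => k (by
    rw [e, e', mul_zero])) fun k => k e'
  have h1 : b • S ≠ 0 := fun e' => hB ((h.zero h0).1 e')
  rcases xc_eq h1 hR (mul_right_cancel₀ hB ((h.val h1).symm.trans e)) with k | k
  · exact ⟨S, k, rfl⟩
  · exact ⟨-S, by rw [smul_neg, k, neg_neg], (xc_neg S).1⟩

theorem root {b' : Zw} {x : Qb} (hx : B.IsRoot x) (hb : b' ≠ 0) (e : b ∣ b') :
    ∃ T ∈ (tor b').erase 0, b • T = 0 ∧ xc T = x := by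
  obtain ⟨T, h0, rfl⟩ := ex_pt x
  exact ⟨T, (mem_tor0 hb).2 ⟨h0, dvd_smul ((h.zero h0).2 hx) e⟩, (h.zero h0).2 hx, rfl⟩

end Rep

/-- the constant in the norm relation of the division polynomial -/
noncomputable def Cb (a b : Zw) (B : Qb[X]) : Qb :=
  io a ^ (2 * nn b - 2) * ∏ S ∈ (tor a).erase 0, B.eval (xc S)

/-- the recursion -/
def PSTEP_st : Prop := ∀ (g : Zw) (A₀ B₀ A₁ B₁ : Qb[X]), g - 1 ≠ 0 → g ≠ 0 → g + 1 ≠ 0 →
  Rep (g - 1) A₀ B₀ → Rep g A₁ B₁ → ∃ A B, Rep (g + 1) A B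

/-- small multipliers and units -/
def PBASE_st : Prop := Rep 1 X 1 ∧ Rep 2 (X ^ 4 - C 2 * X) (C 4 * X ^ 3 + 1) ∧
  ∀ (b u : Zw) (A B : Qb[X]), IsUnit u → Rep b A B → Rep (u * b) A (C (io u ^ 2) * B)

/-- existence -/
def POLY_st : Prop := ∀ b : Zw, b ≠ 0 → ∃ A B, Rep b A B

/-- the fibres of the multiplication -/
def MAST_st : Prop := ∀ (b : Zw) (A B : Qb[X]) (Q : Pt), Rep b A B → (2 * b) • Q ≠ 0 →
  ∏ T ∈ tor b, (X - C (xc (Q + T))) = A - C (xc (b • Q)) * B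

/-- the denominator -/
def BPR_st : Prop := ∀ (a : Zw) (A B : Qb[X]), Rep a A B → ¬ 2 ∣ a →
  B = C (io a ^ 2) * ∏ S ∈ (tor a).erase 0, (X - C (xc S)) ∧ ∀ P : Pt, B.eval (xc P) = Fa a P

/-- every point has a preimage with large first coordinate -/
def NXT_st : Prop := ∀ (V : Plc) (b : Zw) (R : Pt), b ≠ 0 → R ≠ 0 →
  ∃ R' : Pt, b • R' = R ∧ V.v (io b) ^ 2 * V.v (xc R) ≤ V.v (xc R')

/-- the norm relation of the division polynomial -/
def NRF_st : Prop := ∀ (a b : Zw) (A B : Qb[X]), IsCoprime a 6 → IsCoprime a b → b ≠ 0 →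
  Rep b A B → Cb a b B ≠ 0 ∧ cc a ^ (nn b - 1) = Cb a b B ∧
    ∀ P : Pt, (2 * b) • P ≠ 0 → ∏ T ∈ tor b, Fa a (P + T) = Cb a b B * Fa a (b • P)

/-- products close to one -/
def PRD_st : Prop := ∀ (V : Plc) (ι : Type) (s : Finset ι) (e f : ι → Qb) (ρ : ℝ), 0 ≤ ρ → ρ < 1 →
  (∀ i ∈ s, V.v (e i) ≤ ρ ∧ V.v (f i - 1 - e i) ≤ ρ ^ 2) →
  V.v (∑ i ∈ s, e i) ≤ ρ ∧ V.v (∏ i ∈ s, f i) = 1 ∧
    V.v (∏ i ∈ s, f i - 1 - ∑ i ∈ s, e i) ≤ ρ ^ 2 ∧
    V.v ((∏ i ∈ s, f i)⁻¹ - 1 + ∑ i ∈ s, e i) ≤ ρ ^ 2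

/-- the cube root of three -/
def CU3_st : Prop := ∀ g ∈ UM 9, ∃ ξ : Qb, ξ ^ 3 = 3 ∧ g ξ = ξ

/-- the value at the point of order three -/
def CUL_st : Prop := ∀ l : ℕ, l.Prime → l ≠ 3 → ∀ g ∈ UM l,
  ∃ (ξ : Qb) (k : ℤ), ξ ^ 3 = (l : Qb) ^ 2 * 3 ^ k ∧ g ξ = ξ

end Pool.Agent.MP_e23604_nt.W

end

section

/-!
The Frobenius element acts as the primary prime.
-/

set_option autoImplicit false

open Finset QuadraticAlgebra Polynomial
open scoped Classical

namespace Pool.Agent.MP_e23604_nt.W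

open B R S

variable {V : Plc} {ϖ : Zw} {A B : Qb[X]}

theorem three_AFRB (h : PP ϖ) (hV : Ov V ϖ) : ¬ Ov V 3 := fun e =>
  (Ov_three.1 e).cop (pw_prime.coprime_iff_not_dvd.2 h.2.pw) hV

theorem mprod_AFRB (r : Qb) (s : Multiset Qb) (h : ∀ x ∈ s, V.v x ≤ 1) :
    V.v (s.map (r - ·)).prod ≤ max 1 (V.v r) ^ s.card := by
  induction s using Multiset.induction_on with
  | empty => simp
  | cons a s ih =>
    rw [Multiset.map_cons, Multiset.prod_cons, map_mul, Multiset.card_cons, pow_succ']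
    exact mul_le_mul (bLocA_sub_le V.na (le_max_right _ _)
      ((h a (Multiset.mem_cons_self _ _)).trans (le_max_left _ _)))
      (ih fun x hx => h x (Multiset.mem_cons_of_mem hx)) (V.v.nonneg _)
      (le_max_of_le_left zero_le_one)

theorem tor_AFRB (hG : CYG_st) (h : PP ϖ) (hV : Ov V ϖ) (hR : Rep ϖ A B) (T : Pt)
    (hT : ϖ • T = 0) : E1 V.v T := by
  have h0 := h.2.ne
  obtain ⟨S, s0, s1, s2⟩ : ∃ S : Pt, S ≠ 0 ∧ ϖ • S = 0 ∧ E1 V.v S := by
    by_contra hn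
    have k1 : ∀ x ∈ B.roots, V.v x ≤ 1 := fun x hx => by
      obtain ⟨S, e1, e2, rfl⟩ := hR.root (isRoot_of_mem_roots hx) h0 dvd_rfl
      exact (not_E1.1 fun e => hn ⟨S, ((mem_tor0 h0).1 e1).1, e2, e⟩).2
    have hq := nn_pos h0
    obtain ⟨r, hr⟩ := IsAlgClosed.exists_root A (natDegree_pos_iff_degree_pos.1 (hR.dA ▸ hq)).ne'
    have k2 := hR.ht V (three_AFRB h hV) r
    rw [hr.eq_zero, map_zero, max_eq_right (V.v.nonneg _), (IsAlgClosed.splits B).eval_eq_prod_roots,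
      map_mul, hR.lc, map_pow] at k2
    have k3 := mprod_AFRB r _ k1
    rw [← (IsAlgClosed.splits B).natDegree_eq_card_roots, hR.dB] at k3
    have k4 : max 1 (V.v r) ^ (nn ϖ - 1) ≤ max 1 (V.v r) ^ nn ϖ :=
      pow_le_pow_right₀ (le_max_left _ _) (Nat.sub_le _ _)
    have k5 : V.v (io ϖ) ^ 2 < 1 := pow_lt_one₀ (V.v.nonneg _) hV two_ne_zero
    have k6 : 0 < max 1 (V.v r) ^ nn ϖ := pow_pos (lt_max_of_lt_left one_pos) _
    have k7 := mul_le_mul_of_nonneg_left (k3.trans k4) (sq_nonneg (V.v (io ϖ)))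
    nlinarith
  have hg : Gen ϖ S := fun b => ⟨fun e => by_contra fun e' =>
    s0 (cop_smul (h.1.coprime_iff_not_dvd.2 e') s1 e), dvd_smul s1⟩
  obtain ⟨u, rfl⟩ := (hG ϖ h0).2.1 S hg T hT
  exact (E1m s2 u).1

theorem cprod_AFRB {ι : Type} (s : Finset ι) {f : ι → Qb} {a : Qb} (ha : V.v a ≤ 1)
    (h : ∀ i ∈ s, V.v (f i - a) < 1) : V.v (∏ i ∈ s, f i - a ^ s.card) < 1 := by
  induction s using Finset.induction_on with
  | empty => simp
  | insert i s hi ih =>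
    have h1 := h i (mem_insert_self _ _)
    have h2 : V.v (f i) ≤ 1 := by simpa using bLocA_add_le V.na h1.le ha
    rw [prod_insert hi, card_insert_of_notMem hi, show f i * ∏ i ∈ s, f i - a ^ (s.card + 1) =
      f i * (∏ i ∈ s, f i - a ^ s.card) + a ^ s.card * (f i - a) by ring]
    exact bLocA_add_lt V.na
      ((bLocA_mul_le h2).trans_lt (ih fun j hj => h j (mem_insert_of_mem hj)))
      ((bLocA_mul_le (by rw [map_pow]; exact pow_le_one₀ (V.v.nonneg _) ha)).trans_lt h1)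

theorem a0_AFRB (h : PP ϖ) (hR : Rep ϖ A B) : A.eval 0 = 0 := by
  have e := h.2.smul three_T0
  have := hR.val (P := T0) (e.symm ▸ T0_ne)
  rwa [e, xc_T0.1, zero_mul] at this

theorem sign_AFRB (h : PP ϖ) (hV : Ov V ϖ) {x : Qb} (hx : V.v x ≤ 1) :
    V.v ((-x) ^ nn ϖ + x ^ nn ϖ) < 1 := by
  rcases Nat.even_or_odd (nn ϖ) with e | e
  · obtain ⟨c, hc⟩ := two_dvd_iff.2 e.two_dvd
    have h2 : Ov V 2 := (Ov_mul.1 (hc ▸ hV)).resolve_right
      (not_Ov_unit V ((h.1.irreducible.isUnit_or_isUnit hc).resolve_left two_prime.not_isUnit))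
    rw [Ov, map_ofNat] at h2
    rw [e.neg_pow, ← mul_two]
    exact (bLocA_mul_le (by rw [map_pow]; exact pow_le_one₀ (V.v.nonneg _) hx)).trans_lt h2
  · simp [e.neg_pow]

theorem cong_AFRB (hM : MAST_st) (hC : CARD_st) (hG : CYG_st) (hE : EXP_st) (h : PP ϖ)
    (hV : Ov V ϖ) (hR : Rep ϖ A B) {P : Pt} (hP : ¬ E1 V.v P) (h2 : (2 * ϖ) • P ≠ 0) :
    V.v (xc (ϖ • P) * B.eval 0 - xc P ^ nn ϖ) < 1 := by
  have hx := (not_E1.1 hP).2
  have k1 := congrArg (eval 0) (hM ϖ A B P hR h2)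
  simp only [eval_prod, eval_sub, eval_X, eval_C, eval_mul, a0_AFRB h hR, zero_sub] at k1
  have k2 := cprod_AFRB (V := V) (tor ϖ) (f := fun T => -xc (P + T)) (a := -xc P)
    (by rwa [V.v.map_neg]) fun T hT => by
      have e := tor_AFRB hG h hV hR T ((mem_tor h.2.ne).1 hT)
      rw [← V.v.map_neg, neg_sub, neg_sub_neg]
      exact (hE V P T hP e).2.2.1.trans_lt (zz_lt e)
  rw [k1, hC ϖ h.2.ne] at k2
  have := bLocA_add_lt V.na k2 (sign_AFRB h hV hx)
  rw [← V.v.map_neg]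
  convert this using 2
  ring

theorem clo_AFRB (hL : CLO_st) (h3 : ¬ Ov V 3) {P Q : Pt} (hP : ¬ E1 V.v P) (hQ : ¬ E1 V.v Q)
    (h : V.v (xc P - xc Q) < 1) : E1 V.v (P - Q) ∨ E1 V.v (P + Q) := by
  have p1 := (not_E1.1 hP).2
  have q1 := (not_E1.1 hQ).2
  have k1 : V.v (yc P - yc Q) * V.v (yc P - (-yc Q - 1)) < 1 := by
    rw [← map_mul, show (yc P - yc Q) * (yc P - (-yc Q - 1)) =
      (xc P * xc P + xc P * xc Q + xc Q * xc Q) * (xc P - xc Q) by
        linear_combination xy_eq P - xy_eq Q]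
    exact (bLocA_mul_le (bLocA_add_le V.na (bLocA_add_le V.na (bLocA_mul_one p1 p1)
      (bLocA_mul_one p1 q1)) (bLocA_mul_one q1 q1))).trans_lt h
  by_cases e : V.v (yc P - yc Q) < 1
  · exact Or.inl (hL V P Q hP hQ (v_three h3 ▸ h) (v_three h3 ▸ e))
  · have e' : V.v (yc P - (-yc Q - 1)) < 1 := by
      by_contra e'
      exact not_le.2 k1 (one_le_mul_of_one_le_of_one_le (not_lt.1 e) (not_lt.1 e'))
    refine Or.inr ?_
    rw [← sub_neg_eq_add]
    refine hL V P (-Q) hP (fun k => hQ (by simpa using E1n k)) ?_ ?_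
    · rwa [(xc_neg Q).1, v_three h3]
    · rwa [(xc_neg Q).2 (not_E1.1 hQ).1, v_three h3]

theorem FRB_pf (hP : POLY_st) (hM : MAST_st) (hC : CARD_st) (hG : CYG_st) (hPI : PI_st)
    (hE : EXP_st) (hL : CLO_st) : FRB_st := by
  intro V ϖ h hV
  obtain ⟨A, B, hR⟩ := hP ϖ h.2.ne
  have h3 := three_AFRB h hV
  refine ⟨tor_AFRB hG h hV hR, fun σ hσ => ?_⟩
  have hK : σ ∈ GK := V.D_le hσ.1
  have hD : σ ∈ Dec V.v := hσ.1.1
  have b1 : V.v (B.eval 0) = 1 := by simpa [a0_AFRB h hR] using hR.ht V h3 0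
  obtain ⟨R, r0, r1⟩ := ex_pt (-1)
  have r3 : (3 : Zw) • R = 0 := (hPI.2.2.2.1 R).2 (Or.inr (by rw [r1]; norm_num))
  have r4 := h.2.smul r3
  have r2 : (2 : Zw) • R ≠ 0 := fun e => r0 (cop_smul ⟨-1, 1, by decide⟩ e r3)
  have b2 : V.v (B.eval 0 - 1) < 1 := by
    have e := cong_AFRB hM hC hG hE h hV hR (P := R) (not_E1.2 ⟨r0, by simp [r1]⟩)
      (by rwa [mul_smul, r4])
    have e' := sign_AFRB h hV (x := 1) (by simp)
    rw [r4, r1] at e
    have := bLocA_add_lt V.na e e'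
    rw [← V.v.map_neg]
    convert this using 2
    ring
  have k1 : ∀ P : Pt, (2 * ϖ) • P ≠ 0 →
      E1 V.v (gal σ P - ϖ • P) ∨ E1 V.v (gal σ P + ϖ • P) := fun P h2 => by
    by_cases e : E1 V.v P
    · exact Or.inl (E1s ((E1_dec hD).2 e) (E1m e ϖ).1)
    have hx := (not_E1.1 e).2
    have e1 := cong_AFRB hM hC hG hE h hV hR e h2
    have e2 : V.v (xc (ϖ • P)) ≤ 1 := by
      have := bLocA_add_le V.na e1.le
        (show V.v (xc P ^ nn ϖ) ≤ 1 by rw [map_pow]; exact pow_le_one₀ (V.v.nonneg _) hx)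
      rwa [sub_add_cancel, map_mul, b1, mul_one] at this
    refine clo_AFRB hL h3 (fun k => e ((E1_dec hD).1 k))
      (not_E1.2 ⟨(smul_ne (mul_smul 2 ϖ P ▸ h2)).2, e2⟩) ?_
    have := bLocA_add_lt V.na (bLocA_sub_lt V.na (hσ.2 _ hx) e1) ((bLocA_mul_le e2).trans_lt b2)
    rw [(xc_gal σ P).1]
    convert this using 2
    ring
  have r5 : gal σ R = R := hPI.2.2.2.2 σ hK R r3
  have k2 : ∀ P : Pt, (2 * ϖ) • P ≠ 0 → (2 * ϖ) • (P + R) ≠ 0 → E1 V.v (gal σ P - ϖ • P) :=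
    fun P e1 e2 => by
      refine (k1 P e1).elim id fun e3 => ?_
      rcases k1 _ e2 with e4 | e4 <;> rw [map_add, smul_add, r4, r5] at e4
      · rwa [add_sub_add_right_eq_sub] at e4
      · refine absurd (E1_tor (P := (2 : Zw) • R) ?_ h3 (by rw [smul_comm, r3, smul_zero])) r2
        convert E1s e4 e3 using 1
        rw [two_smul]
        abel
  have m0 : 2 * ϖ ≠ 0 := mul_ne_zero two_ne_zero h.2.ne
  have k3 : ∀ P : Pt, E1 V.v (gal σ P - ϖ • P) := fun P => by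
    obtain ⟨Y, -, hY, -⟩ := ex_generic (tor (2 * ϖ) ∪ (tor (2 * ϖ)).image (· - R) ∪
      (tor (2 * ϖ)).image (· + P) ∪ (tor (2 * ϖ)).image (· - R + P)) ∅
    simp only [mem_union, not_or, mem_image, not_exists, not_and, mem_tor m0] at hY
    convert E1s (k2 Y hY.1.1.1 fun e => hY.1.1.2 _ e (by abel))
      (k2 (Y - P) (fun e => hY.1.2 _ e (by abel)) fun e => hY.2 _ e (by abel)) using 1
    rw [map_sub, smul_sub]
    abel
  refine ⟨k3, fun n P hn e => sub_eq_zero.1 (E1_tor (k3 P) hn ?_)⟩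
  rw [smul_sub, ← gal_smul hK, smul_comm, e, map_zero, smul_zero, sub_zero]

end Pool.Agent.MP_e23604_nt.W

end

section

set_option autoImplicit false
open Finset QuadraticAlgebra Polynomial
open scoped Classical
namespace Pool.Agent.MP_e23604_nt.W
open B R S

theorem ne_ANRF {a b : Zw} {A B : Qb[X]} (ha : a ≠ 0) (hab : IsCoprime a b) (h : Rep b A B) :
    Cb a b B ≠ 0 := by
  refine mul_ne_zero (pow_ne_zero _ (io_ne ha)) (prod_ne_zero_iff.2 fun S hS e => ?_)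
  rw [mem_tor0 ha] at hS
  exact hS.1 (cop_smul hab hS.2 ((h.zero hS.1).2 e))

theorem fa_ANRF {a : Zw} {P : Pt} (h : a • P ≠ 0) : Fa a P ≠ 0 := by
  have ha := (smul_ne h).1
  refine mul_ne_zero (pow_ne_zero _ (io_ne ha)) (prod_ne_zero_iff.2 fun S hS e => ?_)
  rw [mem_tor0 ha] at hS
  rcases xc_eq (smul_ne h).2 hS.1 (sub_eq_zero.1 e) with k | k
  · exact h (k ▸ hS.2)
  · exact h (by rw [k, smul_neg, hS.2, neg_zero])

theorem form_ANRF (hM : MAST_st) (hC : CARD_st) {a b : Zw} {A B : Qb[X]} (ha : IsCoprime a 6)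
    (hab : IsCoprime a b) (h : Rep b A B) {P : Pt} (hP : (2 * b) • P ≠ 0) :
    ∏ T ∈ tor b, Fa a (P + T) = Cb a b B * Fa a (b • P) := by
  have a0 := cop6_ne ha
  have hb : b ≠ 0 := right_ne_zero_of_mul (smul_ne hP).1
  have k : ∀ S ∈ (tor a).erase 0, ∏ T ∈ tor b, (xc (P + T) - xc S) =
      (-1) ^ (nn b + 1) * (B.eval (xc S) * (xc (b • P) - xc (b • S))) := fun S hS => by
    rw [mem_tor0 a0] at hS
    have h1 := congrArg (eval (xc S)) (hM b A B P h hP)
    rw [eval_prod] at h1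
    simp only [eval_sub, eval_X, eval_C, eval_mul] at h1
    rw [h.val fun e => hS.1 (cop_smul hab hS.2 e)] at h1
    have h2 : ∏ T ∈ tor b, (xc (P + T) - xc S) = ∏ T ∈ tor b, (-1) * (xc S - xc (P + T)) :=
      prod_congr rfl fun _ _ => by ring
    rw [h2, prod_mul_distrib, prod_const, hC b hb, h1]
    ring
  have ev : Even ((tor a).erase 0).card := by
    rw [card_erase_of_mem (zero_tor a0), hC a a0]
    exact Nat.Odd.sub_odd (cop6_odd ha) odd_one
  simp only [Fa, Cb]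
  rw [prod_mul_distrib, prod_const, hC b hb, prod_comm, prod_congr rfl k, prod_mul_distrib,
    prod_const, prod_mul_distrib, prod_tor0_smul a0 hab fun S => xc (b • P) - xc S, ← pow_mul,
    ← pow_mul, (ev.mul_left _).neg_one_pow,
    show 2 * nn b = (2 * nn b - 2) + 2 by have := nn_pos hb; omega, pow_add, Nat.add_sub_cancel]
  ring

theorem two_ANRF (hM : MAST_st) (hC : CARD_st) {a b b' : Zw} {A B A' B' : Qb[X]}
    (ha : IsCoprime a 6) (hab : IsCoprime a b) (hab' : IsCoprime a b') (h : Rep b A B)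
    (h' : Rep b' A' B') {P : Pt} (hP : (2 * (b' * b)) • P ≠ 0) :
    ∏ U ∈ tor (b' * b), Fa a (P + U) = Cb a b B ^ nn b' * Cb a b' B' * Fa a ((b' * b) • P) := by
  have h0 := right_ne_zero_of_mul (smul_ne hP).1
  have hb : b ≠ 0 := right_ne_zero_of_mul h0
  have hb' : b' ≠ 0 := left_ne_zero_of_mul h0
  choose q hq using smul_onto hb
  have k : ∀ S ∈ tor b', ∏ T ∈ tor b, Fa a (P + (q S + T)) = Cb a b B * Fa a (b • P + S) :=
    fun S hS => by
      have e : b • (P + q S) = b • P + S := by rw [smul_add, hq]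
      rw [← e, ← form_ANRF hM hC ha hab h (P := P + q S) fun e' => hP ?_]
      · simp only [add_assoc]
      · have := congrArg (b' • ·) e'
        simp only [mul_smul, e, smul_zero] at this
        rw [smul_comm, smul_add, (mem_tor hb').1 hS, add_zero] at this
        rw [mul_smul, mul_smul, this]
  rw [prod_tor_mul hb' hb q hq fun U => Fa a (P + U), prod_congr rfl k, prod_mul_distrib,
    prod_const, hC b' hb', form_ANRF hM hC ha hab' h' (P := b • P)
      (by rwa [← mul_smul, mul_assoc]), ← mul_smul, mul_assoc]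

theorem cmp_ANRF (hM : MAST_st) (hC : CARD_st) {a b b' : Zw} {A B A' B' : Qb[X]}
    (ha : IsCoprime a 6) (hab : IsCoprime a b) (hab' : IsCoprime a b') (hb : b ≠ 0) (hb' : b' ≠ 0)
    (h : Rep b A B) (h' : Rep b' A' B') : Cb a b B ^ (nn b' - 1) = Cb a b' B' ^ (nn b - 1) := by
  have a0 := cop6_ne ha
  obtain ⟨P, hP⟩ := ex_smul_ne (mul_ne_zero a0 (mul_ne_zero two_ne_zero (mul_ne_zero hb' hb)))
  have h1 : (2 * (b' * b)) • P ≠ 0 := fun e => hP (dvd_smul e (dvd_mul_left _ _))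
  have h2 : a • (b' * b) • P ≠ 0 := fun e => hP (dvd_smul (a := a * (b' * b))
    (by rwa [mul_smul]) ⟨2, by ring⟩)
  have e1 := two_ANRF hM hC ha hab hab' h h' h1
  have e2 := two_ANRF hM hC ha hab' hab h' h (P := P) (by rwa [mul_comm b])
  rw [mul_comm b b', e1] at e2
  have e3 := mul_right_cancel₀ (fa_ANRF h2) e2
  have p1 := nn_pos hb
  have p2 := nn_pos hb'
  refine mul_right_cancel₀ (mul_ne_zero (ne_ANRF a0 hab h) (ne_ANRF a0 hab' h')) ?_
  rw [← mul_assoc, ← pow_succ, mul_comm (Cb a b B), ← mul_assoc, ← pow_succ,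
    Nat.sub_add_cancel p1, Nat.sub_add_cancel p2, e3]

theorem NRF_pf (hP : POLY_st) (hB : PBASE_st) (hM : MAST_st) (hR : BPR_st) (hC : CARD_st) (hPI : PI_st) : NRF_st := by
  intro a b A B ha hab hb h
  have a0 := cop6_ne ha
  refine ⟨ne_ANRF a0 hab h, ?_, fun P hP => form_ANRF hM hC ha hab h hP⟩
  obtain ⟨A', B', h'⟩ := hP pw pw_ne
  have c2 : IsCoprime a 2 := (two_prime.coprime_iff_not_dvd.2 (cop6.1 ha).1).symm
  have c3 : IsCoprime a pw := (pw_prime.coprime_iff_not_dvd.2 (cop6.1 ha).2).symm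
  have e2 := cmp_ANRF hM hC ha hab c2 hb two_ne_zero h hB.2.1
  have e3 := cmp_ANRF hM hC ha hab c3 hb pw_ne h h'
  have k : ∀ S : Pt, B'.eval (xc S) = -3 * xc S ^ 2 := fun S => by
    rw [(hR pw A' B' h' fun e => absurd (two_dvd_iff.1 e) (by decide)).2, Fa, io_pw_sq,
      prod_congr rfl (g := fun _ => xc S) fun T hT => by
        rw [(hPI.2.1 T).1 ((mem_tor0 pw_ne).1 hT).2, sub_zero],
      prod_const, card_erase_of_mem (zero_tor pw_ne), hC pw pw_ne, nn_pw]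
  have e : cc a = Cb a 2 (C 4 * X ^ 3 + 1) / Cb a pw B' := by
    simp [cc, Cb, k, nn_two, nn_pw]
  have c0 := ne_ANRF a0 hab h
  rw [e, div_pow, ← e2, ← e3, nn_two, nn_pw, div_eq_iff (pow_ne_zero _ c0)]
  exact pow_succ' _ 2

theorem NRM1_pf (hP : POLY_st) (hC : CARD_st) (hN : NRF_st) : NRM1_st := by
  intro a b P ha hab h
  have hb : b ≠ 0 := right_ne_zero_of_mul (smul_ne h).1
  obtain ⟨A, B, h'⟩ := hP b hb
  obtain ⟨h1, h2, h3⟩ := hN a b A B ha hab hb h'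
  simp only [Th]
  rw [prod_div_distrib, prod_const, hC b hb, h3 P h, ← Nat.sub_add_cancel (nn_pos hb), pow_succ, h2,
    mul_div_mul_left _ _ h1]

end Pool.Agent.MP_e23604_nt.W

end

section

set_option autoImplicit false
open Finset QuadraticAlgebra Polynomial
open scoped Classical
namespace Pool.Agent.MP_e23604_nt.W
open B R S

theorem mul_le_ATAY (V : Plc) {a b : Qb} {r s : ℝ} (h : V.v a ≤ r) (h' : V.v b ≤ s) :
    V.v (a * b) ≤ r * s := by
  rw [map_mul]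
  exact mul_le_mul h h' (V.v.nonneg _) ((V.v.nonneg _).trans h)

theorem sum_le_ATAY (V : Plc) {ι : Type} (s : Finset ι) (f : ι → Qb) {c : ℝ} (hc : 0 ≤ c)
    (h : ∀ i ∈ s, V.v (f i) ≤ c) : V.v (∑ i ∈ s, f i) ≤ c :=
  sum_induction f (fun x => V.v x ≤ c) (fun _ _ => bLocA_add_le V.na) (by simpa using hc) h

theorem PRD_pf : PRD_st := by
  intro V ι s e f ρ h0 h1 h
  have hρ : ρ ^ 2 ≤ ρ := by nlinarith
  have k1 : V.v (∑ i ∈ s, e i) ≤ ρ := sum_le_ATAY V s e h0 fun i hi => (h i hi).1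
  have k2 : V.v (∏ i ∈ s, f i - 1 - ∑ i ∈ s, e i) ≤ ρ ^ 2 := by
    clear k1
    induction s using Finset.induction_on with
    | empty => simpa using sq_nonneg ρ
    | insert i s hi ih =>
      have hs := fun j hj => h j (mem_insert_of_mem hj)
      obtain ⟨a1, a2⟩ := h i (mem_insert_self _ _)
      have a3 : V.v (f i - 1) ≤ ρ := by
        simpa using bLocA_add_le V.na (a2.trans hρ) a1
      have a4 : V.v (f i) ≤ 1 := by
        simpa using bLocA_add_le V.na (a3.trans h1.le) (map_one V.v).le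
      have a5 := mul_le_ATAY V (sum_le_ATAY V s e h0 fun j hj => (hs j hj).1) a3
      rw [prod_insert hi, sum_insert hi]
      convert bLocA_add_le V.na (bLocA_add_le V.na ((bLocA_mul_le a4).trans (ih hs)) a2)
        (a5.trans (sq ρ).ge) using 2
      ring
  generalize ∏ i ∈ s, f i = A, ∑ i ∈ s, e i = S at k1 k2
  have k3 : V.v (A - 1) ≤ ρ := by simpa using bLocA_add_le V.na (k2.trans hρ) k1
  have k4 : V.v A = 1 := by
    simpa using bLocA_add_eq V.na (a := 1) (b := A - 1) (by rw [map_one]; exact k3.trans_lt h1)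
  have k5 : A ≠ 0 := fun e => by simp [e] at k4
  refine ⟨k1, k4, k2, ?_⟩
  rw [show A⁻¹ - 1 + S = ((A - 1) * S - (A - 1 - S)) / A by field_simp; ring, map_div₀, k4, div_one]
  exact bLocA_sub_le V.na ((mul_le_ATAY V k3 k1).trans (sq ρ).ge) k2

theorem nine_ATAY (V : Plc) : 0 < V.v 9 ∧ V.v 9 ≤ 1 :=
  ⟨V.v.pos (by norm_num), by simpa using bLocA_nat V.na 9⟩

theorem ty_ATAY {V : Plc} {Y : Pt} (hY : Gd Y) : V.v (xc Y) ≤ 1 ∧ V.v (2 * yc Y + 1) ≤ 1 :=
  have h := (not_E1.1 (hY.nE1 V)).2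
  ⟨h, bLocA_add_le V.na (bLocA_mul_one (bLocA_two V.na) (yc_le h)) (map_one V.v).le⟩

theorem one_ATAY (hS : SEP_st) {a : Zw} {V : Plc} {Y : Pt} (ha : IsCoprime a 6) (hV : ¬ Ov V a)
    (hY : Gd Y) (h0 : Th a Y ≠ 0) (Q : Pt) {z : Qb} (hz : V.v z < V.v 9)
    (hx : V.v (xc Q - xc Y - (2 * yc Y + 1) * z) ≤ V.v z ^ 2) :
    V.v (de a Y * z) ≤ V.v z / V.v 9 ∧ V.v (Th a Q / Th a Y) = 1 ∧
      V.v (Th a Q / Th a Y - (1 + de a Y * z)) ≤ (V.v z / V.v 9) ^ 2 := by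
  obtain ⟨n0, n1⟩ := nine_ATAY V
  have z0 := V.v.nonneg z
  have hd : ∀ S ∈ (tor a).erase 0, V.v 9 ≤ V.v (xc Y - xc S) := fun S h =>
    have k := (mem_tor0 (cop6_ne ha)).1 h
    (hS a V Y S (cop6.1 ha).2 hV hY k.2 k.1).1
  have hd0 : ∀ S ∈ (tor a).erase 0, xc Y - xc S ≠ 0 := fun S h e => by
    have := hd S h
    rw [e, map_zero] at this
    linarith
  obtain ⟨p1, p2, -, p4⟩ := PRD_pf V Pt ((tor a).erase 0)
    (fun S => (2 * yc Y + 1) * z / (xc Y - xc S)) (fun S => (xc Q - xc S) / (xc Y - xc S))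
    (V.v z / V.v 9) (by positivity) ((div_lt_one n0).2 hz) fun S h => by
      constructor
      · rw [map_div₀]
        exact div_le_div₀ z0 (bLocA_mul_le (ty_ATAY hY).2) n0 (hd S h)
      · have := hd0 S h
        rw [show (xc Q - xc S) / (xc Y - xc S) - 1 - (2 * yc Y + 1) * z / (xc Y - xc S) =
          (xc Q - xc Y - (2 * yc Y + 1) * z) / (xc Y - xc S) by field_simp; ring, map_div₀, div_pow]
        exact div_le_div₀ (by positivity) hx (by positivity) (le_trans (by nlinarith) (hd S h))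
  have e1 : ∑ S ∈ (tor a).erase 0, (2 * yc Y + 1) * z / (xc Y - xc S) = -(de a Y * z) := by
    rw [de, mul_sum, sum_mul, ← sum_neg_distrib]
    exact sum_congr rfl fun _ _ => by ring
  have e2 : (∏ S ∈ (tor a).erase 0, (xc Q - xc S) / (xc Y - xc S))⁻¹ = Th a Q / Th a Y := by
    have c0 : cc a ≠ 0 := fun e => h0 (by rw [Th, e, zero_div])
    have i0 := io_ne (cop6_ne ha)
    rw [prod_div_distrib, inv_div, Th, Th, div_div_div_cancel_left' _ _ c0, Fa, Fa,
      mul_div_mul_left _ _ (pow_ne_zero 2 i0)]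
  rw [e1, V.v.map_neg] at p1
  rw [e1, e2] at p4
  refine ⟨p1, by rw [← e2, map_inv₀, p2, inv_one], ?_⟩
  convert p4 using 2
  ring

theorem TAY_pf (hS : SEP_st) (hE : EXP_st) (hI : THI_st) : TAY_st := by
  intro a V Y P ha hV hY hP hz
  obtain ⟨n0, n1⟩ := nine_ATAY V
  have h0 : Th a Y ≠ 0 := (hI a (cop6_ne ha)).2.2.2 ha Y (hY.smul (cop6.1 ha).2).ne
  obtain ⟨x1, x2, -⟩ := hE V Y P (hY.nE1 V) hP
  have z0 := V.v.nonneg (zz P)
  have z1 : V.v (zz P) ^ 3 ≤ V.v (zz P) ^ 2 :=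
    pow_le_pow_of_le_one z0 (zz_lt hP).le (by norm_num)
  have z2 : V.v (3 * xc Y ^ 2 * zz P ^ 2) ≤ V.v (zz P) ^ 2 := by
    rw [← map_pow]
    refine bLocA_mul_le (bLocA_mul_one (bLocA_three V.na) ?_)
    rw [map_pow]
    exact pow_le_one₀ (V.v.nonneg _) (ty_ATAY hY).1
  obtain ⟨a1, a2, a3⟩ := one_ATAY hS ha hV hY h0 (Y + P) hz (by
    convert bLocA_add_le V.na (x1.trans z1) z2 using 2
    ring)
  obtain ⟨-, -, b3⟩ := one_ATAY hS ha hV hY h0 (Y - P) (z := -zz P) (by rwa [V.v.map_neg]) (by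
    rw [V.v.map_neg]
    convert bLocA_add_le V.na (x2.trans z1) z2 using 2
    ring)
  rw [V.v.map_neg, mul_neg, ← sub_eq_add_neg] at b3
  refine ⟨?_, h0, a2, a3, b3, ?_⟩
  · rw [← le_div_iff₀ n0, de, neg_mul, V.v.map_neg]
    refine (bLocA_mul_le (ty_ATAY hY).2).trans (sum_le_ATAY V _ _ (by positivity) fun S h => ?_)
    have k := (mem_tor0 (cop6_ne ha)).1 h
    rw [map_div₀, map_one]
    exact one_div_le_one_div_of_le n0 (hS a V Y S (cop6.1 ha).2 hV hY k.2 k.1).1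
  · have c1 : V.v (1 - de a Y * zz P) ≤ 1 :=
      bLocA_sub_le V.na (map_one V.v).le (a1.trans ((div_le_one n0).2 hz.le))
    convert bLocA_sub_le V.na (bLocA_add_le V.na ((bLocA_mul_le a2.le).trans b3)
      ((bLocA_mul_le c1).trans a3)) ((mul_le_ATAY V a1 a1).trans (sq _).ge) using 2
    ring

theorem CONG_pf (hT : TAY_st) (hU : UNIT_st) : CONG_st := by
  intro a V Y T ha h3 hV hY hE
  have z1 := zz_lt hE
  have z0 := V.v.nonneg (zz T)
  obtain ⟨a1, a2, a3, a4, -⟩ := hT a V Y T ha hV hY hE (by rwa [v_nine h3])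
  have u := (hU a V Y ha h3).2 hY
  rw [v_nine h3, mul_one] at a1
  rw [v_nine h3, div_one] at a4
  rw [map_div₀, u, div_one] at a3
  refine ⟨a3, ?_⟩
  have k := bLocA_add_lt V.na (a4.trans_lt (by nlinarith : V.v (zz T) ^ 2 < 1))
    ((bLocA_mul_le a1).trans_lt z1)
  rwa [show Th a (Y + T) / Th a Y - (1 + de a Y * zz T) + de a Y * zz T =
    (Th a (Y + T) - Th a Y) / Th a Y by field_simp; ring, map_div₀, u, div_one] at k

end Pool.Agent.MP_e23604_nt.W

end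

section

/-!
Total ramification of the points killed by a prime of degree one.
-/

set_option autoImplicit false

open Finset QuadraticAlgebra Polynomial
open scoped Classical

namespace Pool.Agent.MP_e23604_nt.W

open B R S

theorem RAMQ_pf (hC : CARD_st) (hG : CYG_st) (hU : UNIT_st) (hF : FRB_st) (hK : PLK_st) :
    RAMQ_st := by
  intro V ϖ T T' hP hq hV hT hT' T0' T1'
  have h0 := hP.2.ne
  have c6 : IsCoprime ϖ 6 := cop6.2 ⟨fun e => by
    have := nn_mod3 hP.2.pw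
    rw [← (Nat.prime_dvd_prime_iff_eq Nat.prime_two hq).1 (two_dvd_iff.1 e)] at this
    omega, hP.2.pw⟩
  have h3 : ¬ Ov V 3 := fun e =>
    (Ov_three.1 e).cop (pw_prime.coprime_iff_not_dvd.2 hP.2.pw) hV
  have gen : ∀ S : Pt, S ≠ 0 → ϖ • S = 0 → Gen ϖ S := fun S a b c =>
    ⟨fun e => by_contra fun k => a (cop_smul (hP.1.coprime_iff_not_dvd.2 k) b e), dvd_smul b⟩
  have e1 := (hF V ϖ hP hV).1
  have le : ∀ S S' : Pt, S ≠ 0 → ϖ • S = 0 → ϖ • S' = 0 → V.v (zz S') ≤ V.v (zz S) := by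
    intro S S' a b c
    obtain ⟨u, rfl⟩ := (hG ϖ h0).2.1 S (gen S a b) S' c
    exact (E1m (e1 S b) u).2.2
  have eq : ∀ S ∈ (tor ϖ).erase 0, V.v (zz S) = V.v (zz T) := fun S hS =>
    have := (mem_tor0 h0).1 hS
    le_antisymm (le T S T0' hT this.2) (le S T this.1 this.2 hT)
  have r0 : 0 < V.v (zz T) := V.v.pos fun e => T0' ((zz_zero_iff (e1 T hT)).1 e)
  have r1 := zz_lt (e1 T hT)
  have cd : ((tor ϖ).erase 0).card = nn ϖ - 1 := by rw [card_erase_of_mem (zero_tor h0), hC ϖ h0]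
  have hϖ : V.v (io ϖ) = V.v (zz T) ^ (nn ϖ - 1) := by
    have k := ((hU ϖ V T0 c6 h3).1 (by rw [hP.2.smul three_T0]; exact T0_E1 V)).1
    rw [Fa, map_mul, map_pow, map_prod, prod_congr rfl (g := fun _ => (V.v (zz T) ^ 2)⁻¹)
      fun S hS => by
        have := (mem_tor0 h0).1 hS
        rw [xc_T0.1, zero_sub, V.v.map_neg, ← eq S hS]
        exact eq_inv_of_mul_eq_one_left (E1_xz (e1 S this.2) this.1).1,
      prod_const, cd, inv_pow, mul_inv_eq_one₀ (by positivity), ← pow_mul, mul_comm, pow_mul] at k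
    exact (pow_left_inj₀ (V.v.nonneg _) (by positivity) two_ne_zero).1 k
  let O := (tor ϖ).filter fun S => ∃ τ ∈ V.I, gal τ T = S
  have sub : O ⊆ (tor ϖ).erase 0 := fun S hS => by
    obtain ⟨a, τ, -, rfl⟩ := mem_filter.1 hS
    exact mem_erase.2 ⟨fun e => T0' ((gal_ne τ).1 e), a⟩
  have TO : T ∈ O := mem_filter.2 ⟨(mem_tor h0).2 hT, 1, V.I.one_mem, gal_one T⟩
  obtain ⟨k, hk⟩ := (hK.2.2.1 V ϖ hP.1 hV).2.2.2.2.2.2 (∏ S ∈ O, zz S)
    (prod_ne_zero_iff.2 fun S hS e => r0.ne (by rw [← eq S (sub hS), e, map_zero]))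
    fun τ hτ => by
      have k1 : ∀ S ∈ O, gal τ S ∈ O := fun S hS => by
        obtain ⟨a, σ, b, rfl⟩ := mem_filter.1 hS
        exact mem_filter.2 ⟨(mem_tor h0).2 (by
          rw [← gal_smul (V.D_le (V.I_le hτ)), (mem_tor h0).1 a, map_zero]),
          τ * σ, V.I.mul_mem hτ b, gal_mul _ _ _⟩
      rw [map_prod]
      exact prod_nbij (gal τ) k1 (gal_inj τ).injOn
        (surjOn_of_injOn_of_card_le _ k1 (gal_inj τ).injOn le_rfl) fun S _ => (zz_gal τ S).symm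
  rw [map_prod, prod_congr rfl fun S hS => eq S (sub hS), prod_const, hϖ, ← zpow_natCast,
    ← zpow_natCast, ← zpow_mul] at hk
  have hk' := zpow_right_injective₀ r0 r1.ne hk
  have c1 : 0 < O.card := card_pos.2 ⟨T, TO⟩
  have c2 : nn ϖ - 1 ≤ O.card :=
    Nat.le_of_dvd c1 (Int.natCast_dvd_natCast.1 ⟨k, hk'⟩)
  have := eq_of_subset_of_card_le sub (cd ▸ c2)
  exact (mem_filter.1 (show T' ∈ O from this ▸ (mem_tor0 h0).2 ⟨T1', hT'⟩)).2

end Pool.Agent.MP_e23604_nt.W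

end

section

/-!
Close integral points, and the distance from good points to torsion points.
-/

set_option autoImplicit false

open Finset QuadraticAlgebra Polynomial
open scoped Classical

namespace Pool.Agent.MP_e23604_nt.W

open B R S

theorem slope_ACLO {P Q : Pt} (hP : P ≠ 0) (hQ : Q ≠ 0) (h : P ≠ Q) :
    ∃ l : Qb, xc (P - Q) = l ^ 2 - xc P - xc Q ∧ l * (xc P - xc Q) = yc P + yc Q + 1 ∧
      l * (yc P - yc Q) = xc P ^ 2 + xc P * xc Q + xc Q ^ 2 := by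
  obtain ⟨h1, e1⟩ := on_xy hP
  by_cases hx : xc P = xc Q
  · have e : P = -Q := (xc_eq hP hQ hx).resolve_left h
    have hy : yc P = -yc Q - 1 := e ▸ (xc_neg Q).2 hQ
    have h2 : 2 * yc P + 1 ≠ 0 := fun k => h (pt_ext hP hQ hx (by linear_combination k - hy))
    have h3 : 3 * xc P ^ 2 / (2 * yc P + 1) * (2 * yc P + 1) = 3 * xc P ^ 2 := div_mul_cancel₀ _ h2
    generalize 3 * xc P ^ 2 / (2 * yc P + 1) = l at h3
    obtain ⟨k1, k2⟩ := pt_add_self G01 (l := l) h1 (by simpa using h2) (by simpa using h3) rfl rfl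
    refine ⟨l, ?_, by linear_combination l * hx - hy, ?_⟩
    · rw [sub_eq_add_neg, ← e, ← hx]
      conv_lhs => rw [e1, k2, xc_pt k1]
      simp
    · rw [← hx]
      linear_combination h3 - l * hy
  · obtain ⟨h2, e2⟩ := on_xy hQ
    have h0 := sub_ne_zero.2 hx
    have h3 : (yc P + yc Q + 1) / (xc P - xc Q) * (xc P - xc Q) = yc P + yc Q + 1 :=
      div_mul_cancel₀ _ h0
    generalize (yc P + yc Q + 1) / (xc P - xc Q) = l at h3
    obtain ⟨k1, k2⟩ := pt_add_ne G01 (l := l) h1 h2.neg hx (by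
      push_cast
      linear_combination h3) rfl rfl
    refine ⟨l, ?_, h3, mul_right_cancel₀ h0 ?_⟩
    · conv_lhs => rw [sub_eq_add_neg, e1, e2, pt_neg G01 h2, k2, xc_pt k1]
      simp
    · linear_combination (yc P - yc Q) * h3 + xy_eq P - xy_eq Q

theorem CLO_pf : CLO_st := by
  intro V P Q hP hQ hx hy
  obtain ⟨p0, p1⟩ := not_E1.1 hP
  obtain ⟨q0, q1⟩ := not_E1.1 hQ
  rw [E1_iff]
  by_cases h : P = Q
  · exact Or.inl (sub_eq_zero.2 h)
  obtain ⟨l, k1, k2, k3⟩ := slope_ACLO p0 q0 h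
  have h3 := bLocA_three V.na
  refine Or.inr ?_
  rcases le_or_gt (V.v l) 1 with hl | hl
  · exfalso
    have a1 : V.v (yc P + yc Q + 1) < V.v 3 := k2 ▸ (bLocA_mul_le hl).trans_lt hx
    have a2 : V.v (xc P ^ 2 + xc P * xc Q + xc Q ^ 2) < V.v 3 := k3 ▸ (bLocA_mul_le hl).trans_lt hy
    have a3 := (bLocA_sub_lt V.na a1 hy).trans_le h3
    have a4 := bLocA_sub_lt V.na a2 ((bLocA_mul_le (bLocA_add_le V.na p1
      (bLocA_mul_one (bLocA_two V.na) q1))).trans_lt hx)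
    rw [show xc P ^ 2 + xc P * xc Q + xc Q ^ 2 - (xc P + 2 * xc Q) * (xc P - xc Q) =
      3 * xc Q ^ 2 by ring, map_mul] at a4
    have a5 : V.v (xc Q ^ 2) < 1 := lt_of_mul_lt_mul_left (a4.trans_eq (mul_one _).symm)
      (V.v.nonneg _)
    have a6 := bLocA_sub_lt V.na ((bLocA_mul_le a3.le).trans_lt a3)
      ((bLocA_mul_le (bLocA_mul_one (bLocA_mul_one (bLocA_two V.na) (bLocA_two V.na)) q1)).trans_lt
        a5)
    rw [show (yc P + yc Q + 1 - (yc P - yc Q)) * (yc P + yc Q + 1 - (yc P - yc Q)) -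
      2 * 2 * xc Q * xc Q ^ 2 = 1 by linear_combination 4 * xy_eq Q, map_one] at a6
    exact lt_irrefl _ a6
  · have a1 : 1 < V.v (l ^ 2) := by
      rw [map_pow]
      exact one_lt_pow₀ hl two_ne_zero
    have a2 : V.v (-xc P - xc Q) < V.v (l ^ 2) :=
      (bLocA_sub_le V.na (by rwa [V.v.map_neg]) q1).trans_lt a1
    rwa [k1, show l ^ 2 - xc P - xc Q = l ^ 2 + (-xc P - xc Q) by ring, bLocA_add_eq V.na a2]

theorem SEP_pf : SEP_st := by
  intro a V Y S ha hV hY hS h0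
  have y1 := hY.nE1 V
  have s1 : ¬ E1 V.v S := fun e => h0 (E1_tor e hV hS)
  have p1 := (not_E1.1 y1).2
  have q1 := (not_E1.1 s1).2
  refine ⟨not_lt.1 fun h => ?_, bLocA_sub_le V.na p1 q1⟩
  have h3 := bLocA_three V.na
  have h4 := V.v.nonneg 3
  rw [show (9 : Qb) = 3 * 3 by norm_num] at h
  have hx := h.trans_le (bLocA_mul_le h3)
  have key : ∀ T : Pt, a • T = 0 → ¬ E1 V.v T → xc T = xc S → V.v 3 ≤ V.v (yc Y - yc T) :=
    fun T k1 k2 k3 => not_lt.1 fun k4 => by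
      have k5 := (E1m (CLO_pf V Y T y1 k2 (k3 ▸ hx) k4) a).1
      rw [smul_sub, k1, sub_zero] at k5
      exact (hY.smul ha).nE1 V k5
  have a1 := key S hS s1 rfl
  have a2 := key (-S) (by rw [smul_neg, hS, neg_zero]) (fun e => s1 (neg_neg S ▸ E1n e))
    (xc_neg S).1
  have a3 := mul_le_mul a1 a2 h4 (V.v.nonneg _)
  rw [← map_mul, ← map_mul, (xc_neg S).2 h0, show (yc Y - yc S) * (yc Y - (-yc S - 1)) =
    (xc Y * xc Y + xc Y * xc S + xc S * xc S) * (xc Y - xc S) by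
      linear_combination xy_eq Y - xy_eq S] at a3
  exact absurd (a3.trans (bLocA_mul_le (bLocA_add_le V.na (bLocA_add_le V.na (bLocA_mul_one p1 p1)
    (bLocA_mul_one p1 q1)) (bLocA_mul_one q1 q1)))) (not_le.2 h)

end Pool.Agent.MP_e23604_nt.W

end

section

/-! The values of the theta function at the points of order three. -/

set_option autoImplicit false

open Finset QuadraticAlgebra Polynomial
open scoped Classical

namespace Pool.Agent.MP_e23604_nt.W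

open B R S

theorem sq_ATH0 (hB : PBASE_st) (hC : CARD_st) (hPI : PI_st) {a : Zw} (h6 : IsCoprime a 6) :
    Th a T0 ^ 2 = (-3) ^ (nn a - 1) := by
  have ha := cop6_ne h6
  have c2 : IsCoprime a 2 := h6.of_isCoprime_of_dvd_right ⟨3, by norm_num⟩
  have c3 : IsCoprime a pw := h6.of_isCoprime_of_dvd_right (pw_dvd3.trans ⟨2, by norm_num⟩)
  have hx : ∀ S ∈ (tor a).erase 0, xc S ≠ 0 := fun S hS e => by
    rw [mem_tor0 ha] at hS
    exact hS.1 (cop_smul c3 hS.2 ((hPI.2.1 S).2 e))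
  have h2 : ∀ S ∈ (tor a).erase 0, (2 : Zw) • S ≠ 0 := fun S hS e => by
    rw [mem_tor0 ha] at hS
    exact hS.1 (cop_smul c2 hS.2 e)
  have hu : ∀ S ∈ (tor a).erase 0, 4 * xc S ^ 3 + 1 ≠ 0 := fun S hS e =>
    h2 S hS ((hB.2.1.zero ((mem_tor0 ha).1 hS).1).2 (by simpa using e))
  have px := prod_ne_zero_iff.2 hx
  have pu := prod_ne_zero_iff.2 hu
  have e1 : ∏ S ∈ (tor a).erase 0, (xc S ^ 3 - 2) = ∏ S ∈ (tor a).erase 0, (4 * xc S ^ 3 + 1) := by
    apply mul_left_cancel₀ px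
    conv_rhs => rw [← prod_tor0_smul ha c2 xc]
    rw [← prod_mul_distrib, ← prod_mul_distrib]
    refine prod_congr rfl fun S hS => ?_
    have := hB.2.1.val (h2 S hS)
    simp only [eval_sub, eval_add, eval_mul, eval_pow, eval_X, eval_C, eval_one] at this
    linear_combination this
  have e2 : ∏ S ∈ (tor a).erase 0, (xc S ^ 3 - 2) ^ 2 =
      ∏ S ∈ (tor a).erase 0, (-3 * (-3 * xc S ^ 2 * (0 - xc S)) ^ 2) := by
    apply mul_left_cancel₀ pu
    conv_rhs => rw [← prod_tor0_smul ha c3 fun S => 4 * xc S ^ 3 + 1]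
    rw [← prod_mul_distrib, ← prod_mul_distrib]
    refine prod_congr rfl fun S hS => ?_
    have := hx S hS
    rw [(hPI.2.2.1 S this).1]
    field_simp
    ring
  have hc : #((tor a).erase 0) = nn a - 1 := by rw [card_erase_of_mem (zero_tor ha), hC a ha]
  rw [prod_pow, e1, prod_mul_distrib, prod_const, hc, prod_pow, prod_mul_distrib] at e2
  have p1 : ∏ S ∈ (tor a).erase 0, (-3 * xc S ^ 2) ≠ 0 :=
    prod_ne_zero_iff.2 fun S hS => mul_ne_zero (by norm_num) (pow_ne_zero _ (hx S hS))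
  have p2 : ∏ S ∈ (tor a).erase 0, (0 - xc S) ≠ 0 :=
    prod_ne_zero_iff.2 fun S hS => by simpa using hx S hS
  have p3 := io_ne ha
  rw [Th, cc, Fa, xc_T0.1]
  generalize ∏ S ∈ (tor a).erase 0, (-3 * xc S ^ 2) = u at *
  generalize ∏ S ∈ (tor a).erase 0, (0 - xc S) = v at *
  field_simp
  linear_combination e2

theorem cube_ATH0 (hC : CARD_st) (hPI : PI_st) (hN : NRM1_st) (hI : THI_st) {a : Zw}
    (h6 : IsCoprime a 6) {R : Pt} (h3 : (3 : Zw) • R = 0) (hR : pw • R ≠ 0) :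
    Th a R ^ 3 = Th a T0 := by
  have ha := cop6_ne h6
  have c3 : IsCoprime a pw := h6.of_isCoprime_of_dvd_right (pw_dvd3.trans ⟨2, by norm_num⟩)
  have inv : ∀ (u : Zw) (P : Pt), IsUnit u → Th a (u • P) = Th a P :=
    fun u P hu => ((hI a ha).1 u P hu).1
  have h1 := hN a pw R h6 c3 fun e => hR (cop_smul (a := 2) (b := 3) ⟨-1, 1, by norm_num⟩
    (by rwa [← mul_smul]) (by rw [smul_comm, h3, smul_zero]))
  have h2 : Th a (pw • R) = Th a T0 := by
    rcases (hPI.1 (pw • R)).1 (by rw [← mul_smul]; exact dvd_smul h3 ⟨-1, by decide⟩) with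
      e | e | e
    · exact absurd e hR
    · rw [e]
    · rw [e, ← neg_one_smul Zw T0, inv _ _ isUnit_one.neg]
  have k1 : Th a (R + ((ω : Zw) - 1) • R) = Th a R := by
    rw [sub_smul, one_smul, add_sub_cancel, inv _ _ w_unit]
  have k2 : Th a (R + -(((ω : Zw) - 1) • R)) = Th a R := by
    have e : R + -(((ω : Zw) - 1) • R) = (ω ^ 2 : Zw) • R := by
      rw [← smul_congr h3 (a := 1 + -(ω - 1)) (b := ω ^ 2) ⟨1, by decide⟩, add_smul, one_smul,
        neg_smul]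
    rw [e, inv _ _ (w_unit.pow 2)]
  have k3 : ((ω : Zw) - 1) • R = T0 ∨ ((ω : Zw) - 1) • R = -T0 := by
    refine ((hPI.1 _).1 (by
      rw [← mul_smul]; exact dvd_smul h3 ⟨ω ^ 2, by decide⟩)).resolve_left fun e => hR ?_
    rw [show (ω : Zw) - 1 = -ω ^ 2 * pw by decide, mul_smul] at e
    exact (unit_smul (w_unit.pow 2).neg).1 e
  rw [← h2, ← h1, prod_congr rfl (g := fun _ => Th a R), prod_const, hC pw pw_ne, nn_pw]
  intro T hT
  rcases (hPI.1 T).1 ((mem_tor pw_ne).1 hT) with rfl | rfl | rfl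
  · rw [add_zero]
  · rcases k3 with e | e
    · rwa [e] at k1
    · rwa [e, neg_neg] at k2
  · rcases k3 with e | e
    · rwa [e] at k2
    · rwa [e] at k1

theorem root_ATH0 {z : Qb} (h : z ^ 3 = 1) : ∃ u : Zw, IsUnit u ∧ z = io u := by
  rcases cube_one h with e | e | e
  · exact ⟨1, isUnit_one, by rw [e, map_one]⟩
  · exact ⟨ω, w_unit, by rw [e, io_w]⟩
  · exact ⟨ω ^ 2, w_unit.pow 2, by rw [e, map_pow, io_w]⟩

theorem TH0_pf (hB : PBASE_st) (hC : CARD_st) (hPI : PI_st) (hN : NRM1_st) (hI : THI_st) :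
    TH0_st := by
  intro a h6
  have h1 := sq_ATH0 hB hC hPI h6
  refine ⟨h1, fun R h3 hR => ?_⟩
  have h2 := cube_ATH0 hC hPI hN hI h6 h3 hR
  have h4 := nn_mod3 (cop6.1 h6).2
  obtain ⟨k, hk⟩ : ∃ k, nn a - 1 = 3 * k := ⟨nn a / 3, by omega⟩
  rw [hk, Nat.mul_div_cancel_left _ three_pos]
  rw [hk, ← h2, ← io_pw_sq] at h1
  have h0 : io pw ^ k ≠ 0 := pow_ne_zero _ (io_ne pw_ne)
  have h5 : ((Th a R / io pw ^ k) ^ 3) ^ 2 = 1 := by
    rw [div_pow, div_pow, h1, div_eq_one_iff_eq (pow_ne_zero _ (pow_ne_zero _ h0))]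
    ring
  rcases sq_eq_one_iff.1 h5 with e | e
  · obtain ⟨u, hu, e'⟩ := root_ATH0 e
    exact ⟨u, hu, by rw [map_mul, map_pow, ← e', div_mul_cancel₀ _ h0]⟩
  · obtain ⟨u, hu, e'⟩ := root_ATH0 (z := -(Th a R / io pw ^ k)) (by linear_combination -e)
    exact ⟨-u, hu.neg, by rw [map_mul, map_pow, map_neg, ← e', neg_neg, div_mul_cancel₀ _ h0]⟩

end Pool.Agent.MP_e23604_nt.W

end

section

/-!
The torsion points form a cyclic module.
-/

set_option autoImplicit false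

open Finset QuadraticAlgebra Polynomial
open scoped Classical

namespace Pool.Agent.MP_e23604_nt.W

open B R S

theorem onto_ACYG (hC : CARD_st) {M : Zw} (hM : M ≠ 0) {Q : Pt} (h : Gen M Q) (P : Pt)
    (hP : M • P = 0) : ∃ u : Zw, P = u • Q := by
  let f : Zw ⧸ Ideal.span {M} → tor M := fun x =>
    ⟨x.out • Q, (mem_tor hM).2 (by rw [smul_comm, h.zero, smul_zero])⟩
  have hf : Function.Injective f := fun x y e => by
    have e' : x.out • Q = y.out • Q := congrArg Subtype.val e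
    rw [← Ideal.Quotient.mk_out x, ← Ideal.Quotient.mk_out y, Ideal.Quotient.eq,
      Ideal.mem_span_singleton]
    exact h.congr.1 e'
  have hb := hf.bijective_of_nat_card_le (by
    rw [QUO_pf M hM, Nat.card_eq_finsetCard, hC M hM])
  obtain ⟨x, hx⟩ := hb.2 ⟨P, (mem_tor hM).2 hP⟩
  exact ⟨x.out, (congrArg Subtype.val hx).symm⟩

theorem prime_ACYG (hC : CARD_st) {M b : Zw} (hM : M ≠ 0) {Q : Pt} (h : Gen M Q) (hb : Prime b) :
    ∃ Q', Gen (b * M) Q' ∧ b • Q' = Q := by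
  by_cases hd : b ∣ M
  · obtain ⟨Q', e⟩ := smul_onto hb.ne_zero Q
    have h0 : (b * M) • Q' = 0 := by rw [mul_comm, mul_smul, e, h.zero]
    have h1 : M • Q' ≠ 0 := fun k => by
      obtain ⟨u, hu⟩ := onto_ACYG hC hM h Q' k
      have : M ∣ b * u - 1 := h.congr.1 (by rw [mul_smul, ← hu, e, one_smul])
      exact hb.not_dvd_one (by simpa using dvd_sub (dvd_mul_right b u) (hd.trans this))
    refine ⟨Q', fun c => ⟨fun k => ?_, dvd_smul h0⟩, e⟩
    obtain ⟨c', rfl⟩ := (h c).1 (by rw [← e, smul_comm, k, smul_zero])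
    rw [mul_comm M]
    refine mul_dvd_mul_right (by_contra fun k' => h1 ?_) M
    exact cop_smul (hb.coprime_iff_not_dvd.2 k') (by rw [← mul_smul, h0])
      (by rw [← mul_smul, mul_comm, k])
  · have hc := hb.coprime_iff_not_dvd.2 hd
    obtain ⟨b', d, e⟩ := hb.coprime_iff_not_dvd.2 hd
    obtain ⟨T, hT, h0⟩ := exists_mem_ne (s := tor b) (by
      have := nn_pos hb.ne_zero
      have : nn b ≠ 1 := fun k => hb.not_isUnit (nn_unit.2 k)
      rw [hC b hb.ne_zero]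
      omega) 0
    rw [mem_tor hb.ne_zero] at hT
    have e1 : b • (b' • Q + T) = Q := by
      rw [smul_add, hT, add_zero, ← mul_smul, smul_congr h.zero (b := 1) ⟨-d, by
        linear_combination e⟩, one_smul]
    refine ⟨b' • Q + T, fun c => ⟨fun k => ?_, dvd_smul ?_⟩, e1⟩
    · have k1 : c • Q = 0 := by rw [← e1, smul_comm, k, smul_zero]
      rw [smul_add, smul_comm, k1, smul_zero, zero_add] at k
      exact hc.mul_dvd (by_contra fun k' => h0 (cop_smul (hb.coprime_iff_not_dvd.2 k') hT k))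
        ((h c).1 k1)
    · rw [mul_comm, mul_smul, e1, h.zero]

theorem lift_ACYG (hC : CARD_st) (b : Zw) : b ≠ 0 → ∀ (M : Zw) (Q : Pt), M ≠ 0 → Gen M Q →
    ∃ Q', Gen (b * M) Q' ∧ b • Q' = Q := by
  refine UniqueFactorizationMonoid.induction_on_prime b (fun h => absurd rfl h) ?_ ?_
  · rintro _ ⟨u, rfl⟩ - M Q - h
    refine ⟨((u⁻¹ : Zwˣ) : Zw) • Q, fun c => ?_, by rw [← mul_smul, Units.mul_inv, one_smul]⟩
    rw [smul_comm, unit_smul (Units.isUnit _), h, Units.mul_left_dvd]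
  · intro a p ha hp ih _ M Q hM h
    obtain ⟨Q₁, g₁, rfl⟩ := ih ha M Q hM h
    obtain ⟨Q₂, g₂, rfl⟩ := prime_ACYG hC (mul_ne_zero ha hM) g₁ hp
    exact ⟨Q₂, by rwa [mul_assoc], by rw [mul_comm, mul_smul]⟩

theorem CYG_pf (hC : CARD_st) : CYG_st := fun M hM => by
  refine ⟨?_, fun Q h => onto_ACYG hC hM h, fun Q b h hb => lift_ACYG hC b hb M Q hM h⟩
  obtain ⟨Q, h, -⟩ := lift_ACYG hC M hM 1 0 one_ne_zero fun c => by simp
  exact ⟨Q, by rwa [mul_one] at h⟩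

end Pool.Agent.MP_e23604_nt.W

end

section

set_option autoImplicit false
open Finset QuadraticAlgebra Polynomial
open scoped Classical
namespace Pool.Agent.MP_e23604_nt.W
open B R S

theorem nn_congr_ACYC {N : ℕ} {u u' : Zw} (h : (N : Zw) ∣ u - u') :
    (nn u : ZMod N) = nn u' := by
  obtain ⟨c, hc⟩ := h
  obtain rfl : u = u' + N * c := by linear_combination hc
  have e : ∀ b : Zw, (nn b : ZMod N) = ((nw b : ℤ) : ZMod N) := fun b => by
    rw [← nn_cast, Int.cast_natCast]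
  rw [e, e, nw_def, nw_def]
  simp

theorem CYC1_pf (hS : PS_st) (hF : FRB_st) (hH : CHB_st) (hK : KM_st) : CYC1_st := by
  intro N M hM hN g hg
  have h0 : N ≠ 0 := by
    rintro rfl
    exact hM (by simpa using hN)
  obtain ⟨N1, a1, a2⟩ := ex_ON (UM_open hM)
  obtain ⟨N2, b1, b2⟩ := exists_ON_fix {zt N}
  obtain ⟨V, ϖ, φ, i, j, sp, hB, hc, -, -, hj⟩ :=
    hH.1 (N1 ⊓ N2) g 1 N M (a1.inf b1) hg one_ne_zero (Subsingleton.elim _ _) hM
  have c1 : cy N φ = nn ϖ := ((hK N h0).2.2.2.2.2.2.2.2 V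
    fun e => absurd (Nat.le_of_dvd (Nat.pos_of_ne_zero h0) e) (not_le.2 hB)).2.2 ϖ φ sp.fr
  have c2 : ∀ k : ℕ, cy N (φ ^ k) = nn ϖ ^ k := fun k => by
    induction k with
    | zero => rw [pow_zero, pow_zero, cy_one h0]
    | succ k ih => rw [pow_succ, pow_succ, cy_mul h0, ih, c1]
  have c3 : cy N ((φ ^ j)⁻¹ * g) = 1 := by
    rw [cy, b2 _ (mem_singleton_self _) _ hj.2]
    exact cy_one h0
  have c4 : ∀ (k : ℕ) (P : Pt), M • P = 0 → gal (φ ^ k) P = ϖ ^ k • P := fun k P hP => by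
    induction k with
    | zero => rw [pow_zero, pow_zero, gal_one, one_smul]
    | succ k ih =>
      rw [pow_succ', gal_mul, ih, gal_smul (V.D_le sp.fr.1),
        ((hF V ϖ sp.pp sp.ov).2 φ sp.fr).2 M P ((Ov_l V).cop hc) hP, pow_succ, mul_smul]
  have c5 : M ∣ ps M g - ϖ ^ j := (((hS M hM).1 g hg).2.2.2.2.1 _).1 fun P hP => by
    rw [← c4 j P hP, ← mul_inv_cancel_left (φ ^ j) g, gal_mul, (a2 hj.1).2 P hP]
  rw [nn_congr_ACYC (hN.trans c5), nn_pow, Nat.cast_pow, ← c2, ← mul_inv_cancel_left (φ ^ j) g,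
    cy_mul h0, c3, mul_one]

theorem LZ_pf (hS : PS_st) (hY : CYC1_st) (hI : INE_st) : LZ_st := by
  intro χ r M hT hM h9
  have a1 : ∀ u ∈ UM M, χ u = 0 := fun u hu => hT.fac u (UM_mono h9 hu)
  refine ⟨a1, fun g hg P hP => ?_, fun R _ φ hφ => ?_⟩
  · rw [eta_apply, ((hS M hM).1 g hg).1 P hP, mul_smul]
  have k : ∀ {b u v : Zw}, φ b = 0 → b ∣ u - v → φ u = φ v := by
    rintro b u v hb ⟨c, hc⟩
    rw [← sub_eq_zero, ← map_sub, hc, map_mul, hb, zero_mul]
  refine ⟨fun N j hN => ⟨⟨?_, UM_open hM, UM_le M,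
    fun g hg => ((hS M hM).1 g hg).2.2.2.2.2.2.1, fun g hg h hh => ?_, fun g hg => ?_,
    fun g hg => ?_⟩, hY N M hM hN⟩, fun b hb h0 V hV τ hτ => ?_⟩
  · rintro rfl
    exact hM (by simpa using hN)
  · simp only [lamZ, map_mul]
    rw [hT.add g hg h hh, w_add, k hφ (((hS M hM).1 g hg).2.2.2.2.2.1 h hh), map_mul, map_mul]
    ring
  · rw [lamZ, a1 g hg, ZMod.val_zero, pow_zero, one_mul,
      k hφ (((hS M hM).1 g hg.1).2.2.2.1.1 hg), map_one]
  · rw [hY N M hM hN g hg.1, nn_congr_ACYC (hN.trans (((hS M hM).1 g hg.1).2.2.2.1.1 hg)), nn_one,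
      Nat.cast_one]
  · rw [Ov_mul, not_or] at hV
    have h3 : ¬ Ov V 3 := fun e => hV.1 (Ov_mul.2 (Or.inl e))
    have hb0 := ne_of_not_Ov hV.2
    have hu := (hI V h3 τ hτ).2.2 b hV.2
    have h4 := (hS b hb0).1 τ hu.1
    change lamZ φ χ M τ - 1 = 0
    rw [lamZ, hT.unr V hV.1 τ hτ, ZMod.val_zero, pow_zero, one_mul,
      k h0 (h4.2.2.2.2.2.2.2.2 M hM hb), k h0 (h4.2.2.2.1.1 hu), map_one, sub_self]

end Pool.Agent.MP_e23604_nt.W

end

section

set_option autoImplicit false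
open Finset QuadraticAlgebra Polynomial
open scoped Classical
namespace Pool.Agent.MP_e23604_nt.W
open B R S

theorem three_AORB : ∀ i j : ZMod 3, nn 3 ∣ nn ((ω : Zw) ^ i.val - ω ^ j.val) → i = j := by
  decide

theorem inv_AORB {g h : GQ} {P : Pt} : gal (g⁻¹ * h) P = P ↔ gal h P = gal g P :=
  ⟨fun e => by rw [← mul_inv_cancel_left g h, gal_mul, e],
    fun e => by rw [gal_mul, e, ← gal_mul, inv_mul_cancel, gal_one]⟩

theorem ORB_pf (hG : CYG_st) (hS : PS_st) (hJ : SURJ_st) : ORB_st := by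
  intro A _ F χ M₀ M Q X hχ h0 h3 hd hM hQ hX
  have hM₀ : M₀ ≠ 0 := ne_zero_of_dvd_ne_zero hM hd
  have he : ∀ y ∈ GK, eta χ y Q = ((ω : Zw) ^ (χ y).val * ps M y) • Q := fun y hy => by
    rw [eta_apply, ((hS M hM).1 y hy).1 Q hQ.zero, mul_smul]
  have hc : ∀ g ∈ GK, ∀ h : GQ, g⁻¹ * h ∈ UM M₀ → χ h = χ g := fun g hg h e => by
    rw [← mul_inv_cancel_left g h, hχ g hg _ e.1, h0 _ e, add_zero]
  refine sum_nbij (fun y => eta χ y Q) (fun y hy => ?_) (fun y hy y' hy' e => ?_)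
    (fun P hP => ?_) fun _ _ => rfl
  · have k := hX.1 y hy
    refine mem_filter.2 ⟨(mem_tor hM).2 (hQ.eta χ k).zero, _, ⟨⟨y, k, ?_⟩, ?_⟩, he y k⟩
    · rw [← mul_sub]
      exact (((hS M₀ hM₀).1 y k).2.2.2.2.2.2.2.2 M hM hd).mul_left _
    · exact (isCoprime_mul_unit_left_left (w_unit.pow _) _ _).2 ((hS M hM).1 y k).2.1
  · have k := hX.1 y hy
    have k' := hX.1 y' hy'
    have e1 := e
    simp only [he y k, he y' k', hQ.congr] at e1
    have e2 : χ y = χ y' := by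
      refine three_AORB _ _ (nn_dvd ?_)
      obtain ⟨a, ha⟩ := (h3.trans hd).trans e1
      obtain ⟨b, hb⟩ := ((hS M hM).1 y k).2.2.1 (h3.trans hd)
      obtain ⟨c, hc⟩ := ((hS M hM).1 y' k').2.2.1 (h3.trans hd)
      exact ⟨a - ω ^ (χ y).val * b + ω ^ (χ y').val * c, by
        linear_combination ha - ω ^ (χ y).val * hb + ω ^ (χ y').val * hc⟩
    simp only [eta_apply, e2, (w_unit.pow _).smul_left_cancel] at e
    have k2 := GK.mul_mem (GK.inv_mem k) k'
    refine (hX.2 y' k').unique ⟨hy, k2, fun P hP => ?_⟩ ⟨hy', by simp⟩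
    obtain ⟨u, rfl⟩ := (hG M hM).2.1 Q hQ P hP
    rw [gal_smul k2, inv_AORB.2 e.symm]
  · obtain ⟨-, u, ⟨⟨g, hg, h1⟩, h2⟩, rfl⟩ := mem_filter.1 (mem_coe.1 hP)
    have hw : (ω : Zw) ^ (χ g).val * (ω ^ (χ g).val) ^ 2 = 1 := by
      rw [← pow_succ', ← pow_mul, mul_comm, pow_mul, www, one_pow]
    have h4 : M₀ ∣ ps M₀ g - (ω ^ (χ g).val) ^ 2 * u := by
      obtain ⟨a, ha⟩ := h1
      exact ⟨-(ω ^ (χ g).val) ^ 2 * a, by
        linear_combination (-(ω ^ (χ g).val) ^ 2) * ha - ps M₀ g * hw⟩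
    have h5 : Pry ((ω ^ (χ g).val) ^ 2 * u) := by
      have := dvd_sub (((hS M₀ hM₀).1 g hg).2.2.1 h3) (h3.trans h4)
      rwa [sub_sub_sub_cancel_left] at this
    obtain ⟨g', hg', h6⟩ := hJ M _ hM h5
      ((isCoprime_mul_unit_left_left ((w_unit.pow _).pow 2) _ _).2 h2)
    have h7 : χ g' = χ g := hc g hg g' ⟨GK.mul_mem (GK.inv_mem hg) hg', fun P hP =>
      inv_AORB.2 (by rw [h6 P (dvd_smul hP hd),
        (((hS M₀ hM₀).1 g hg).2.2.2.2.1 _).2 h4 P hP])⟩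
    obtain ⟨y, ⟨y1, y2⟩, -⟩ := hX.2 g' hg'
    refine ⟨y, y1, ?_⟩
    show eta χ y Q = u • Q
    rw [eta_apply, ← inv_AORB.1 (y2.2 Q hQ.zero), ← hc y (hX.1 y y1) g' (UM_mono hd y2), h7,
      h6 Q hQ.zero, ← mul_smul, ← mul_assoc, hw, one_mul]

end Pool.Agent.MP_e23604_nt.W

end

section

/-!
Multiplication by the square root of `-3`.
-/

set_option autoImplicit false

open Finset QuadraticAlgebra Polynomial
open scoped Classical

namespace Pool.Agent.MP_e23604_nt.W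

open B R S

theorem pw_smul_API (P : Pt) : pw • P = (ω : Zw) • P - (ω : Zw) • (ω : Zw) • P := by
  rw [← mul_smul, ← sub_smul, show pw = ω - ω * ω by decide]

theorem io_pw_ne_API : io pw ≠ 0 := io_ne pw_ne

theorem two_API (P : Pt) : pw • P = 0 ↔ xc P = 0 := by
  refine ⟨fun h => ?_, fun h => ?_⟩
  · rw [pw_smul_API, sub_eq_zero] at h
    have h1 := congrArg xc h
    rw [(xc_w _).1, (xc_w _).1, (xc_w _).1] at h1
    refine (mul_eq_zero.1 (?_ : io pw * xc P = 0)).resolve_left io_pw_ne_API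
    rw [io_pw]
    linear_combination h1 + xc P * w3_spec
  · by_cases h0 : P = 0
    · rw [h0, smul_zero]
    rcases xc_eq h0 T0_ne (h.trans xc_T0.1.symm) with e | e
    · rw [e, pw_T0]
    · rw [e, smul_neg, pw_T0, neg_zero]

theorem one_API (P : Pt) : xc P = 0 ↔ P = 0 ∨ P = T0 ∨ P = -T0 := by
  refine ⟨fun h => ?_, ?_⟩
  · by_cases h0 : P = 0
    · exact Or.inl h0
    · exact Or.inr (xc_eq h0 T0_ne (h.trans xc_T0.1.symm))
  · rintro (rfl | rfl | rfl)
    · rfl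
    · exact xc_T0.1
    · exact (xc_neg T0).1.trans xc_T0.1

theorem three_API (P : Pt) (hx : xc P ≠ 0) : xc (pw • P) = (xc P ^ 3 + 1) / (-3 * xc P ^ 2) ∧
    yc (pw • P) = ((yc P - w3 ^ 2) / (io pw * xc P)) ^ 3 := by
  have h0 : P ≠ 0 := fun e => hx (by rw [e, xc_zero])
  obtain ⟨h, e⟩ := on_xy h0
  have hxy := xy_eq P
  generalize xc P = x at *
  generalize yc P = y at *
  have hp := io_pw_ne_API
  have hq := io_pw_sq
  have hw : w3 = (io pw - 1) / 2 := by rw [io_pw]; ring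
  have e1 : (x ^ 3 + 1) / (-3 * x ^ 2) = (x ^ 3 + 1) / (io pw * x) ^ 2 := by rw [mul_pow, hq]
  have k := pt_add_ne G01 (l := (2 * y + 1) / (io pw * x)) (x₃ := (x ^ 3 + 1) / (io pw * x) ^ 2)
    (y₃ := ((y - w3 ^ 2) / (io pw * x)) ^ 3) (on_w h) (on_w (on_w h)).neg
    (fun e => mul_ne_zero hp hx (by rw [io_pw]; linear_combination e + x * w3_spec)) ?_ ?_ ?_
  · rw [e1, e, pw_smul_API, w_pt h, w_pt (on_w h), sub_eq_add_neg, pt_neg G01 (on_w (on_w h)), k.2,
      xc_pt k.1, yc_pt k.1]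
    exact ⟨rfl, rfl⟩
  · rw [show w3 * x - w3 * (w3 * x) = io pw * x by rw [io_pw]; linear_combination -x * w3_spec,
      div_mul_cancel₀ _ (mul_ne_zero hp hx)]
    push_cast
    ring
  · rw [show ∀ a b : Qb, a + b - w3 * x - w3 * (w3 * x) = a + b + x from fun a b => by
      linear_combination -x * w3_spec]
    push_cast
    field_simp
    linear_combination -4 * hxy - x ^ 3 * hq
  · rw [show w3 ^ 2 = (-io pw - 1) / 2 by rw [io_pw]; linear_combination w3_spec, hw]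
    generalize io pw = p at *
    push_cast
    field_simp
    linear_combination (-8 - 16 * y - 4 * p ^ 2 - 8 * p ^ 2 * y - 4 * p ^ 3) * hxy +
      (3 + 10 * y + 12 * y ^ 2 + 8 * y ^ 3 + p + 4 * p * y + 4 * p * y ^ 2) * hq

theorem four_API (P : Pt) : (3 : Zw) • P = 0 ↔ xc P = 0 ∨ xc P ^ 3 = -1 := by
  rw [show (3 : Zw) = -(pw * pw) by decide, neg_smul, neg_eq_zero, mul_smul, two_API]
  by_cases hx : xc P = 0
  · exact iff_of_true (by rw [(two_API P).2 hx, xc_zero]) (Or.inl hx)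
  · rw [(three_API P hx).1, div_eq_zero_iff, or_iff_right hx, add_eq_zero_iff_eq_neg]
    exact or_iff_left (mul_ne_zero (by norm_num) (pow_ne_zero 2 hx))

theorem PI_pf : PI_st := by
  refine ⟨fun P => (two_API P).trans (one_API P), two_API, three_API, four_API,
    fun g hg P h => ?_⟩
  by_cases h0 : P = 0
  · rw [h0, map_zero]
  rcases (four_API P).1 h with h1 | h1
  · rcases (one_API P).1 h1 with rfl | rfl | rfl
    · exact map_zero _
    · exact gal_T0 g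
    · rw [map_neg, gal_T0]
  · refine pt_ext (fun e => h0 ((gal_ne g).1 e)) h0 ?_ ?_
    · have := mem_GK.1 hg (-xc P) (by linear_combination -h1)
      rw [map_neg, neg_inj] at this
      rw [(xc_gal g P).1, this]
    · rw [(xc_gal g P).2]
      exact mem_GK.1 hg _ (by linear_combination (yc P - 1) * (xy_eq P + h1))

end Pool.Agent.MP_e23604_nt.W

end

section

set_option autoImplicit false

open Finset QuadraticAlgebra Polynomial
open scoped Classical

namespace Pool.Agent.MP_e23604_nt.W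

open B R S

theorem kill_APS {M : Zw} {g : GQ} (hg : g ∈ GK) {P : Pt} (h : M • P = 0) : M • gal g P = 0 := by
  rw [← gal_smul hg, h, map_zero]

theorem act_APS (hG : CYG_st) {M : Zw} (hM : M ≠ 0) {g : GQ} (hg : g ∈ GK) :
    ∀ P : Pt, M • P = 0 → gal g P = ps M g • P := by
  obtain ⟨⟨Q, hQ⟩, h2, -⟩ := hG M hM
  obtain ⟨u, hu⟩ := h2 Q hQ _ (kill_APS hg hQ.zero)
  refine Classical.epsilon_spec (p := fun u : Zw => ∀ P : Pt, M • P = 0 → gal g P = u • P)
    ⟨u, fun P hP => ?_⟩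
  obtain ⟨c, rfl⟩ := h2 Q hQ P hP
  rw [gal_smul hg, hu, smul_comm]

theorem uniq_APS (hG : CYG_st) {M : Zw} (hM : M ≠ 0) {g : GQ} (hg : g ∈ GK) (u : Zw) :
    (∀ P : Pt, M • P = 0 → gal g P = u • P) ↔ M ∣ ps M g - u := by
  obtain ⟨⟨Q, hQ⟩, -⟩ := hG M hM
  refine ⟨fun h => hQ.congr.1 ?_, fun h P hP => ?_⟩
  · rw [← act_APS hG hM hg Q hQ.zero, h Q hQ.zero]
  · rw [act_APS hG hM hg P hP, smul_congr hP h]

theorem mul_APS (hG : CYG_st) {M : Zw} (hM : M ≠ 0) {g h : GQ} (hg : g ∈ GK) (hh : h ∈ GK) :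
    M ∣ ps M (g * h) - ps M g * ps M h := by
  refine (uniq_APS hG hM (GK.mul_mem hg hh) _).1 fun P hP => ?_
  rw [gal_mul, act_APS hG hM hh P hP, gal_smul hg, act_APS hG hM hg P hP, mul_comm, mul_smul]

theorem conj_APS {M : Zw} {g h : GQ} (hg : g ∈ GK) (hh : h ∈ UM M) : g * h * g⁻¹ ∈ UM M := by
  refine ⟨GK.mul_mem (GK.mul_mem hg hh.1) (GK.inv_mem hg), fun P hP => ?_⟩
  rw [gal_mul, gal_mul, hh.2 _ (kill_APS (GK.inv_mem hg) hP), ← gal_mul, mul_inv_cancel, gal_one]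

theorem PS_pf (hG : CYG_st) (hPI : PI_st) : PS_st := by
  intro M hM
  refine ⟨fun g hg => ⟨act_APS hG hM hg, ?_, fun h3 => ?_, ?_, uniq_APS hG hM hg,
    fun h hh => mul_APS hG hM hg hh, fun h hh => ?_, fun h hh => conj_APS hg hh,
    fun M' hM' e => ?_⟩, fun hs => ⟨⟨fun h hh c => ?_⟩, UM_open hM⟩⟩
  · have h1 := mul_APS hG hM hg (GK.inv_mem hg)
    have h2 : M ∣ ps M 1 - 1 :=
      (uniq_APS hG hM GK.one_mem 1).1 fun P _ => by rw [gal_one, one_smul]
    rw [mul_inv_cancel] at h1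
    obtain ⟨a, ha⟩ := h1
    obtain ⟨b, hb⟩ := h2
    exact ⟨ps M g⁻¹, a - b, by linear_combination hb - ha⟩
  · obtain ⟨⟨R, hR⟩, -⟩ := hG 3 (by decide)
    refine hR.congr.1 ?_
    rw [← act_APS hG hM hg R (dvd_smul hR.zero h3), hPI.2.2.2.2 g hg R hR.zero, one_smul]
  · rw [← uniq_APS hG hM hg 1, mem_UM, and_iff_right hg]
    simp only [one_smul]
  · refine ⟨GK.mul_mem (GK.inv_mem (GK.mul_mem hg hh)) (GK.mul_mem hh hg), fun P hP => ?_⟩
    apply gal_inj (g * h)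
    rw [← gal_mul, mul_inv_cancel_left, gal_mul, gal_mul, act_APS hG hM hg P hP,
      act_APS hG hM hh P hP, gal_smul hh, gal_smul hg, act_APS hG hM hg P hP,
      act_APS hG hM hh P hP, smul_comm]
  · rw [← dvd_neg, neg_sub]
    exact (uniq_APS hG hM hg _).1 fun P hP => act_APS hG hM' hg P (dvd_smul hP e)
  · by_cases hc : c ∈ GK
    · exact conj_APS hc hh
    refine ⟨GK_on.1.conj_mem h hh.1 c, fun P hP => ?_⟩
    have h1 : M • gal c⁻¹ P = 0 := by
      have := gal_star (g := c⁻¹) (by rwa [GK.inv_mem_iff]) (star M) P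
      rw [star_star, dvd_smul hP hs, map_zero] at this
      exact this.symm
    rw [gal_mul, gal_mul, hh.2 _ h1, ← gal_mul, mul_inv_cancel, gal_one]

end Pool.Agent.MP_e23604_nt.W

end

section

/-!
Invariance of the theta function and of its logarithmic derivative.
-/

set_option autoImplicit false
open Finset QuadraticAlgebra Polynomial
open scoped Classical
namespace Pool.Agent.MP_e23604_nt.W
open B R S

theorem cop_w_ATHI (a : Zw) : IsCoprime a ω := by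
  simpa using (isCoprime_mul_unit_left_right w_unit a 1).2 isCoprime_one_right

theorem Fa_w_ATHI {a : Zw} (h : a ≠ 0) (P : Pt) :
    Fa a ((ω : Zw) • P) = w3 ^ ((tor a).erase 0).card * Fa a P := by
  rw [Fa, Fa, ← prod_tor0_smul h (cop_w_ATHI a), mul_left_comm, ← prod_const, ← prod_mul_distrib]
  congr 1
  exact prod_congr rfl fun S _ => by rw [(xc_w P).1, (xc_w S).1, mul_sub]

theorem Th_w_ATHI {a : Zw} (h : a ≠ 0) (P : Pt) : Th a ((ω : Zw) • P) = Th a P := by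
  have e : ∏ S ∈ (tor a).erase 0, (-3 * xc S ^ 2) =
      (w3 ^ ((tor a).erase 0).card) ^ 2 * ∏ S ∈ (tor a).erase 0, (-3 * xc S ^ 2) := by
    conv_lhs => rw [← prod_tor0_smul h (cop_w_ATHI a)]
    rw [← pow_mul, mul_comm _ 2, pow_mul, ← prod_const, ← prod_mul_distrib]
    exact prod_congr rfl fun S _ => by rw [(xc_w S).1]; ring
  rw [Th, Th, Fa_w_ATHI h]
  rcases mul_left_eq_self₀.1 e.symm with h1 | h1
  · have h2 : (w3 ^ ((tor a).erase 0).card) ^ 3 = 1 := by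
      rw [← pow_mul, mul_comm, pow_mul, w3_cube, one_pow]
    rw [pow_succ, h1, one_mul] at h2
    rw [h2, one_mul]
  · rw [cc, h1, mul_zero, div_zero, zero_div, zero_div]

theorem de_w_ATHI {a : Zw} (h : a ≠ 0) (P : Pt) : w3 * de a ((ω : Zw) • P) = de a P := by
  rw [de, de, ← sum_tor0_smul h (cop_w_ATHI a), (xc_w P).2, mul_left_comm, mul_sum]
  congr 1
  refine sum_congr rfl fun S _ => ?_
  rw [(xc_w P).1, (xc_w S).1, ← mul_sub, mul_one_div, div_mul_cancel_left₀ w3_ne_zero, one_div]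

theorem pow_ATHI {a : Zw} (h : a ≠ 0) (i : ℕ) (P : Pt) :
    Th a ((ω : Zw) ^ i • P) = Th a P ∧ w3 ^ i * de a ((ω : Zw) ^ i • P) = de a P := by
  induction i with
  | zero => simp
  | succ i ih =>
    rw [pow_succ' (ω : Zw), mul_smul, Th_w_ATHI h, pow_succ, mul_assoc, de_w_ATHI h]
    exact ih

theorem neg_ATHI (a : Zw) (P : Pt) : Th a (-P) = Th a P ∧ (P ≠ 0 → de a (-P) = -de a P) := by
  refine ⟨by rw [Th, Th, Fa, Fa, (xc_neg P).1], fun h => ?_⟩
  rw [de, de, (xc_neg P).1, (xc_neg P).2 h]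
  ring

theorem gal_ATHI {a : Zw} (h : a ≠ 0) {g : GQ} (hg : g ∈ GK) (P : Pt) :
    Th a (gal g P) = g (Th a P) ∧ de a (gal g P) = g (de a P) := by
  constructor
  · rw [Th, Th, cc, Fa, Fa, ← prod_tor0_gal h hg fun S => 4 * xc S ^ 3 + 1,
      ← prod_tor0_gal h hg fun S => -3 * xc S ^ 2,
      ← prod_tor0_gal h hg fun S => xc (gal g P) - xc S]
    conv_rhs => rw [prod_tor0_gal h hg fun S => 4 * xc S ^ 3 + 1,
      prod_tor0_gal h hg fun S => -3 * xc S ^ 2]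
    simp only [(xc_gal g _).1, map_div₀, map_mul, map_pow, map_prod, io_fix hg, map_add, map_sub,
      map_neg, map_ofNat, map_one]
  · rw [de, de, ← sum_tor0_gal h hg fun S => 1 / (xc (gal g P) - xc S)]
    simp only [(xc_gal g _).1, (xc_gal g _).2, map_div₀, map_mul, map_sum, map_add, map_sub,
      map_neg, map_ofNat, map_one]

theorem ne_ATHI {a : Zw} (h : IsCoprime a 6) {P : Pt} (hP : a • P ≠ 0) : Th a P ≠ 0 := by
  have h0 := cop6_ne h
  obtain ⟨h2, h3⟩ := cop6.1 h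
  have ha := io_ne h0
  refine div_ne_zero (div_ne_zero (mul_ne_zero (pow_ne_zero _ ha) (prod_ne_zero_iff.2 fun S hS => ?_))
    (mul_ne_zero (pow_ne_zero _ ha) (prod_ne_zero_iff.2 fun S hS => ?_)))
    (mul_ne_zero (pow_ne_zero _ ha) (prod_ne_zero_iff.2 fun S hS => ?_))
  all_goals obtain ⟨s1, s2⟩ := (mem_tor0 h0).1 hS
  · intro e
    have e1 : (2 * yc S + 1) ^ 2 = 0 := by linear_combination e + 4 * xy_eq S
    have e2 : S = -S := pt_ext s1 (neg_ne_zero.2 s1) (xc_neg S).1.symm (by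
      rw [(xc_neg S).2 s1]
      linear_combination pow_eq_zero_iff two_ne_zero |>.1 e1)
    refine s1 (cop_smul (two_prime.coprime_iff_not_dvd.2 h2).symm s2 ?_)
    rw [two_smul, add_eq_zero_iff_eq_neg]
    exact e2
  · refine mul_ne_zero (by norm_num) (pow_ne_zero _ fun e => s1 ?_)
    refine cop_smul (pw_prime.coprime_iff_not_dvd.2 h3).symm s2 ?_
    rcases xc_eq s1 T0_ne (e.trans xc_T0.1.symm) with rfl | rfl
    · exact pw_T0
    · rw [smul_neg, pw_T0, neg_zero]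
  · refine sub_ne_zero.2 fun e => hP ?_
    rcases xc_eq (smul_ne hP).2 s1 e with rfl | rfl
    · exact s2
    · rw [smul_neg, s2, neg_zero]

theorem THI_pf : THI_st := fun a h => by
  refine ⟨fun u P hu => ?_, fun g hg P => gal_ATHI h hg P, fun χ g hg P => ?_,
    fun h6 P hP => ne_ATHI h6 hP⟩
  · obtain ⟨i, rfl | rfl⟩ := unit6 hu
    · rw [map_pow, io_w]
      exact ⟨(pow_ATHI h i P).1, fun _ => (pow_ATHI h i P).2⟩
    · rw [neg_smul, (neg_ATHI a _).1, map_neg, map_pow, io_w]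
      refine ⟨(pow_ATHI h i P).1, fun hP => ?_⟩
      rw [(neg_ATHI a _).2 fun e => hP ((unit_smul (w_unit.pow i)).1 e), neg_mul_neg,
        (pow_ATHI h i P).2]
  · rw [eta_apply, (pow_ATHI h _ _).1, (pow_ATHI h _ _).2]
    exact gal_ATHI h hg P

end Pool.Agent.MP_e23604_nt.W

end

section

/-!
The number of torsion points and the fibres of the multiplication.
-/

set_option autoImplicit false

open Finset QuadraticAlgebra Polynomial
open scoped Classical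

namespace Pool.Agent.MP_e23604_nt.W

open B R S

theorem ne_ACARD {b : Zw} {Q : Pt} (h : (2 * b) • Q ≠ 0) :
    b • Q ≠ 0 ∧ ∀ T ∈ tor b, b • (Q + T) = b • Q := by
  have h1 : b • Q ≠ 0 := fun e => h (by rw [mul_smul, e, smul_zero])
  exact ⟨h1, fun T hT => by rw [smul_add, (mem_tor (smul_ne h1).1).1 hT, add_zero]⟩

theorem inj_ACARD {b : Zw} {Q T T' : Pt} (h : (2 * b) • Q ≠ 0) (hT : T ∈ tor b)
    (hT' : T' ∈ tor b) (e : xc (Q + T) = xc (Q + T')) : T = T' := by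
  obtain ⟨h1, k⟩ := ne_ACARD h
  have k1 := k T hT
  have k2 := k T' hT'
  rcases xc_eq (smul_ne (k1.trans_ne h1)).2 (smul_ne (k2.trans_ne h1)).2 e with e' | e'
  · exact add_left_cancel e'
  · rw [e', smul_neg, k2, neg_eq_iff_add_eq_zero] at k1
    exact absurd (by rw [mul_smul, two_smul, k1]) h

theorem dvd_ACARD {b : Zw} {A B : Qb[X]} (hR : Rep b A B) {Q : Pt} (h : (2 * b) • Q ≠ 0) :
    ∏ T ∈ tor b, (X - C (xc (Q + T))) ∣ A - C (xc (b • Q)) * B := by
  obtain ⟨h1, k⟩ := ne_ACARD h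
  refine Finset.prod_dvd_of_coprime (fun T hT T' hT' ne => ?_) fun T hT => dvd_iff_isRoot.2 ?_
  · exact isCoprime_X_sub_C_of_isUnit_sub
      (sub_ne_zero.2 fun e => ne (inj_ACARD h hT hT' e)).isUnit
  · have := hR.val (P := Q + T) ((k T hT).trans_ne h1)
    rw [k T hT] at this
    rw [IsRoot.def, eval_sub, eval_mul, eval_C, this, sub_self]

theorem deg_ACARD (b : Zw) (Q : Pt) : (∏ T ∈ tor b, (X - C (xc (Q + T)))).Monic ∧
    (∏ T ∈ tor b, (X - C (xc (Q + T)))).natDegree = (tor b).card :=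
  ⟨monic_prod_of_monic _ _ fun _ _ => monic_X_sub_C _, by
    rw [natDegree_prod_of_monic _ _ fun _ _ => monic_X_sub_C _]
    simp⟩

theorem le_ACARD (hP : POLY_st) {b : Zw} (hb : b ≠ 0) : (tor b).card ≤ nn b := by
  obtain ⟨A, B, hR⟩ := hP b hb
  obtain ⟨Q, h⟩ := ex_smul_ne (mul_ne_zero two_prime.ne_zero hb)
  have := natDegree_le_of_dvd (dvd_ACARD hR h) (hR.deg hb _).1.ne_zero
  rwa [(deg_ACARD b Q).2, (hR.deg hb _).2] at this

theorem mul_ACARD {a b : Zw} (ha : a ≠ 0) (hb : b ≠ 0) :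
    (tor (a * b)).card = (tor a).card * (tor b).card := by
  choose q hq using smul_onto hb
  simpa using sum_tor_mul ha hb q hq fun _ => (1 : ℕ)

theorem nat_ACARD {n : ℕ} (h : 0 < n) : (tor (n : Zw)).card = n ^ 2 := by
  rw [← btors_card EQ h]
  refine (Nat.subtype_card _ fun P => ?_).symm
  rw [mem_tor (Nat.cast_ne_zero.2 h.ne'), Nat.cast_smul_eq_nsmul]

theorem CARD_pf (hP : POLY_st) : CARD_st := fun b hb => by
  have hs : star b ≠ 0 := star_ne_zero.2 hb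
  have h1 := le_ACARD hP hb
  have h2 := le_ACARD hP hs
  have h3 := mul_ACARD hb hs
  rw [mul_star_nn, nat_ACARD (nn_pos hb)] at h3
  rw [nn_star] at h2
  refine le_antisymm h1 (Nat.le_of_mul_le_mul_right ?_ (nn_pos hb))
  rw [← sq, h3]
  exact Nat.mul_le_mul_left _ h2

theorem MAST_pf (hC : CARD_st) : MAST_st := fun b A B Q hR h => by
  have hb := (smul_ne (ne_ACARD h).1).1
  exact (eq_of_monic_of_dvd_of_natDegree_le (deg_ACARD b Q).1 (hR.deg hb _).1 (dvd_ACARD hR h)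
    (by rw [(deg_ACARD b Q).2, (hR.deg hb _).2, hC b hb])).symm

end Pool.Agent.MP_e23604_nt.W

end

section

set_option autoImplicit false

open Finset QuadraticAlgebra Polynomial
open scoped Classical

namespace Pool.Agent.MP_e23604_nt.W

open B R S

lemma fib_ABPR {a : Zw} (ha : a ≠ 0) (h2 : ¬ 2 ∣ a) {r : Qb}
    (hr : r ∈ ((tor a).erase 0).image xc) :
    (((tor a).erase 0).filter fun S => xc S = r).card = 2 := by
  obtain ⟨S, hS, rfl⟩ := mem_image.1 hr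
  rw [mem_tor0 ha] at hS
  refine card_eq_two.2 ⟨S, -S, fun e => hS.1 ?_, ?_⟩
  · refine cop_smul (two_prime.coprime_iff_not_dvd.2 h2) ?_ hS.2
    rw [two_smul]
    exact add_eq_zero_iff_eq_neg.2 e
  · ext T
    rw [mem_filter, mem_tor0 ha, mem_insert, mem_singleton]
    refine ⟨fun h => xc_eq h.1.1 hS.1 h.2, ?_⟩
    rintro (rfl | rfl)
    · exact ⟨hS, rfl⟩
    · exact ⟨⟨neg_ne_zero.2 hS.1, by rw [smul_neg, hS.2, neg_zero]⟩, (xc_neg S).1⟩

theorem BPR_pf (hC : CARD_st) : BPR_st := by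
  intro a A B h h2
  have ha : a ≠ 0 := fun e => h2 (e ▸ dvd_zero _)
  suffices e : B = C (io a ^ 2) * ∏ S ∈ (tor a).erase 0, (X - C (xc S)) by
    refine ⟨e, fun P => ?_⟩
    rw [e, eval_mul, eval_C, eval_prod, Fa]
    simp
  obtain ⟨D, hD⟩ := h.sq h2
  have hB := h.ne ha
  have hD0 : D ≠ 0 := fun e => hB (by rw [hD, e, mul_zero])
  set E := (tor a).erase 0 with hE
  set I := E.image xc with hI
  have hcard : E.card = nn a - 1 := by
    rw [hE, card_erase_of_mem ((mem_tor ha).2 (smul_zero a)), hC a ha]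
  have hc2 : E.card = I.card * 2 := by
    rw [card_eq_sum_card_image xc E, sum_congr rfl fun r hr => fib_ABPR ha h2 hr, sum_const,
      smul_eq_mul]
  have hdeg : D.natDegree = I.card := by
    have := h.dB
    rw [hD, natDegree_mul hD0 hD0] at this
    omega
  have hprod : ∏ S ∈ E, (X - C (xc S)) = (∏ r ∈ I, (X - C r)) ^ 2 := by
    rw [prod_comp (fun r : Qb => X - C r) xc, ← prod_pow]
    exact prod_congr rfl fun r hr => by rw [fib_ABPR ha h2 hr]
  have hdvd : ∏ r ∈ I, (X - C r) ∣ D := by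
    refine prod_dvd_of_coprime (fun r _ s _ e => isCoprime_X_sub_C_of_isUnit_sub
      (sub_ne_zero.2 e).isUnit) fun r hr => ?_
    obtain ⟨S, hS, rfl⟩ := mem_image.1 hr
    rw [mem_tor0 ha] at hS
    have := (h.zero hS.1).1 hS.2
    rw [hD, eval_mul, mul_self_eq_zero] at this
    exact dvd_iff_isRoot.2 this
  have hm : (∏ r ∈ I, (X - C r)).Monic := monic_prod_of_monic _ _ fun r _ => monic_X_sub_C r
  have he := eq_leadingCoeff_mul_of_monic_of_dvd_of_natDegree_le hm hdvd (by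
    rw [hdeg, natDegree_prod_of_monic _ _ fun r _ => monic_X_sub_C r]
    simp)
  have hl : D.leadingCoeff * D.leadingCoeff = io a ^ 2 := by
    rw [← h.lc, hD, leadingCoeff_mul]
  rw [hprod, ← hl, hD, map_mul]
  generalize D.leadingCoeff = c at he
  rw [he]
  ring

end Pool.Agent.MP_e23604_nt.W

end

section

set_option autoImplicit false
open Finset QuadraticAlgebra Polynomial
open scoped Classical
namespace Pool.Agent.MP_e23604_nt.W
open B R S

theorem nc_ADIV {b : Zw} {A B : Qb[X]} (h : Rep b A B) (hb : b ≠ 0) (c : Qb) :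
    (A - C c * B).nextCoeff = A.coeff (nn b - 1) - c * io b ^ 2 := by
  have e := (h.deg hb c).2
  rw [nextCoeff_of_natDegree_pos (e ▸ nn_pos hb), e, coeff_sub, coeff_C_mul, ← h.lc,
    leadingCoeff, h.dB]

theorem z_ADIV (hM : MAST_st) {b : Zw} {A B : Qb[X]} (h : Rep b A B) (hb : b ≠ 0) :
    A.coeff (nn b - 1) = 0 := by
  obtain ⟨Q, hQ⟩ := ex_smul_ne (mul_ne_zero two_ne_zero hb)
  have hQ' : (2 * b) • (ω : Zw) • Q ≠ 0 := by
    rw [smul_comm]
    exact fun e => hQ ((unit_smul w_unit).1 e)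
  have h1 := congrArg nextCoeff (hM b A B Q h hQ)
  have h2 := congrArg nextCoeff (hM b A B _ h hQ')
  rw [prod_X_sub_C_nextCoeff, nc_ADIV h hb] at h1 h2
  have e : ∑ T ∈ tor b, xc ((ω : Zw) • Q + T) = w3 * ∑ T ∈ tor b, xc (Q + T) := by
    have c : IsCoprime b (ω : Zw) := by
      simpa using (isCoprime_mul_unit_left_right w_unit b 1).2 isCoprime_one_right
    rw [← add_sum_erase _ _ (zero_tor hb), ← add_sum_erase _ _ (zero_tor hb),
      ← sum_tor0_smul hb c fun T => xc ((ω : Zw) • Q + T), mul_add, mul_sum, add_zero, add_zero,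
      (xc_w Q).1]
    refine congrArg _ (sum_congr rfl fun T _ => ?_)
    rw [← smul_add, (xc_w _).1]
  rw [e, smul_comm, (xc_w _).1] at h2
  exact (mul_eq_zero.1 (show (w3 - 1) * A.coeff (nn b - 1) = 0 by
    linear_combination h2 - w3 * h1)).resolve_left (sub_ne_zero.2 w3_ne_one)

theorem NXT_pf (hP : POLY_st) (hM : MAST_st) (hC : CARD_st) : NXT_st := by
  intro V b R hb hR
  obtain ⟨A, B, h⟩ := hP b hb
  obtain ⟨m, d⟩ := h.deg hb (xc R)
  have sp := IsAlgClosed.splits (A - C (xc R) * B)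
  have e := sp.nextCoeff_eq_neg_sum_roots_of_monic m
  rw [nc_ADIV h hb, z_ADIV hM h hb, zero_sub, neg_inj] at e
  obtain ⟨x, hx, hle⟩ := V.na.multiset_image_add_of_nonempty id
    (sp.roots_ne_zero (d ▸ (nn_pos hb).ne'))
  obtain ⟨S, h1, h2⟩ := h.lift hR ((mem_roots m.ne_zero).1 hx)
  refine ⟨S, h1, ?_⟩
  rw [Multiset.map_id, ← e, map_mul, map_pow, mul_comm] at hle
  exact h2 ▸ hle

theorem real_ADIV {x x' z z' β s : ℝ} (s0 : 0 ≤ s) (s1 : s < 1) (x0 : 0 ≤ x) (z0 : 0 ≤ z)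
    (h1 : x * z ^ 2 = 1) (h2 : z ≤ β * s) (h3 : β ^ 2 * x ≤ x') :
    1 < x' ∧ (x' * z' ^ 2 = 1 → z' ≤ s) := by
  have k1 : 1 ≤ x' * s ^ 2 := by
    have a := mul_le_mul_of_nonneg_left (pow_le_pow_left₀ z0 h2 2) x0
    have c := mul_le_mul_of_nonneg_right h3 (sq_nonneg s)
    rw [h1] at a
    exact a.trans (le_of_eq_of_le (by ring) c)
  have k2 : 1 < x' := by
    by_contra c
    have a := mul_le_mul_of_nonneg_right (not_lt.1 c) (sq_nonneg s)
    have := pow_lt_one₀ s0 s1 two_ne_zero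
    linarith
  refine ⟨k2, fun e => ?_⟩
  rw [← e] at k1
  exact le_of_sq_le_sq (le_of_mul_le_mul_left k1 (by linarith)) s0

theorem step_ADIV (hN : NXT_st) (V : Plc) {b : Zw} (hb : b ≠ 0) {s : ℝ} (s0 : 0 ≤ s) (s1 : s < 1)
    {R : Pt} (hR : E1 V.v R) (h : V.v (zz R) ≤ V.v (io b) * s) :
    ∃ R' : Pt, E1 V.v R' ∧ b • R' = R ∧ V.v (zz R') ≤ s := by
  by_cases h0 : R = 0
  · exact ⟨0, (E1_iff _ _).2 (Or.inl rfl), by rw [h0, smul_zero], by rwa [zz_zero, map_zero]⟩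
  obtain ⟨R', h1, h2⟩ := hN V b R hb h0
  obtain ⟨k1, k2⟩ := real_ADIV (z' := V.v (zz R')) s0 s1 (V.v.nonneg _) (V.v.nonneg _)
    (E1_xz hR h0).1 h h2
  have k3 : E1 V.v R' := (E1_iff _ _).2 (Or.inr k1)
  exact ⟨R', k3, h1, k2 (E1_xz k3 (smul_ne (h1 ▸ h0)).2).1⟩

theorem uniq_ADIV (hF : FML_st) (V : Plc) {b : Zw} {s : ℝ} (hs : s ^ 3 < V.v (io b)) (n : ℕ) :
    ∀ T : Pt, E1 V.v T → V.v (zz T) ≤ s → b ^ n • T = 0 → T = 0 := by
  induction n with
  | zero => intro T _ _ e; rwa [pow_zero, one_smul] at e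
  | succ n ih =>
    intro T h1 h2 e
    rw [pow_succ, mul_smul] at e
    have k := (hF V).2.1 b T h1
    rw [ih _ (E1m h1 b).1 ((E1m h1 b).2.2.trans h2) e, zz_zero, zero_sub, V.v.map_neg,
      map_mul, pow_succ] at k
    refine (zz_zero_iff h1).1 (V.v.eq_zero.1 (((V.v.nonneg _).eq_or_lt.resolve_right
      fun p => ?_).symm))
    exact absurd ((le_of_mul_le_mul_right k p).trans (pow_le_pow_left₀ p.le h2 3)) hs.not_ge

theorem DIV_pf (hN : NXT_st) (hF : FML_st) : DIV_st := by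
  intro V b n s R hb hR h hs
  have b0 : 0 < V.v (io b) := V.v.pos (io_ne hb)
  have b1 := V.io_le b
  have s0 : 0 ≤ s := le_of_mul_le_mul_left
    (by rw [mul_zero]; exact (V.v.nonneg _).trans h) (pow_pos b0 n)
  have s1 : s < 1 := lt_of_pow_lt_pow_left₀ 3 zero_le_one (by rw [one_pow]; exact hs.trans_le b1)
  refine existsUnique_of_exists_of_unique ?_ ?_
  · induction n generalizing R with
    | zero => exact ⟨R, hR, by rw [pow_zero, one_smul], by rwa [pow_zero, one_mul] at h⟩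
    | succ n ih =>
      obtain ⟨R1, h1, h2, h3⟩ := step_ADIV hN V hb (s := V.v (io b) ^ n * s)
        (mul_nonneg (pow_pos b0 n).le s0)
        ((mul_le_of_le_one_left s0 (pow_le_one₀ b0.le b1)).trans_lt s1) hR
        (by rwa [pow_succ', mul_assoc] at h)
      obtain ⟨R', k1, k2, k3⟩ := ih R1 h1 h3
      exact ⟨R', k1, by rw [pow_succ', mul_smul, k2, h2], k3⟩
  · rintro P Q ⟨p1, p2, p3⟩ ⟨q1, q2, q3⟩
    refine sub_eq_zero.1 (uniq_ADIV hF V hs n _ (E1s p1 q1) ?_ (by rw [smul_sub, p2, q2, sub_self]))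
    have k := (E1m q1 (-1)).2.2
    rw [neg_one_smul] at k
    rw [sub_eq_add_neg]
    exact zz_add_le p1 (E1n q1) p3 (k.trans q3)

end Pool.Agent.MP_e23604_nt.W

end

section

set_option autoImplicit false
open Finset QuadraticAlgebra Polynomial
open scoped Classical
namespace Pool.Agent.MP_e23604_nt.W
open B R S

theorem INE_pf : INE_st := by
  intro V h3 τ hτ
  have h1 : ∀ P : Pt, E1 V.v (gal τ P - P) := fun P =>
    inr_E1 (E3 0 1) V.na (intg_EQ _) (v_Δ h3) (V.mem_I.1 hτ).1 P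
  have h2 : ∀ (n : Zw) (P : Pt), ¬ Ov V n → n • P = 0 → gal τ P = P := fun n P hn e =>
    sub_eq_zero.1 (E1_tor (h1 P) hn (by
      rw [smul_sub, ← gal_smul (V.mem_I.1 hτ).2, e, map_zero, sub_zero]))
  exact ⟨h1, h2, fun n hn => ⟨(V.mem_I.1 hτ).2, fun P e => h2 n P hn e⟩⟩

theorem SURJ_pf (hF : FRB_st) (hK : PLK_st) (hR : FRK_st) : SURJ_st := by
  intro M u _ hu hc
  obtain ⟨s, hs, rfl⟩ := hK.2.2.2.2.2.2.2.2.2.2.1 u hu
  clear hu
  induction s using Multiset.induction with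
  | empty => exact ⟨1, GK.one_mem, fun P _ => by rw [gal_one, Multiset.prod_zero, one_smul]⟩
  | cons ϖ s ih =>
    rw [Multiset.prod_cons, IsCoprime.mul_left_iff] at hc
    obtain ⟨g, hg, e⟩ := ih (fun x hx => hs x (Multiset.mem_cons_of_mem hx)) hc.2
    have hp := hs ϖ (Multiset.mem_cons_self _ _)
    obtain ⟨V, hV⟩ := hK.2.1 ϖ hp.1
    obtain ⟨σ, hσ⟩ := (hR V ϖ hp.1 hV).1
    have hσ' := V.D_le hσ.1
    refine ⟨σ * g, GK.mul_mem hσ' hg, fun P hP => ?_⟩
    rw [gal_mul, e P hP, gal_smul hσ', ((hF V ϖ hp hV).2 σ hσ).2 M P (hV.cop hc.1) hP,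
      Multiset.prod_cons, mul_comm, mul_smul]

theorem Fa_ASURJ (hP : POLY_st) (hR : BPR_st) {a : Zw} {V : Plc} {P : Pt} (ha : IsCoprime a 6)
    (h3 : ¬ Ov V 3) (h : ¬ E1 V.v (a • P)) : V.v (Fa a P) = 1 := by
  obtain ⟨A, B, r⟩ := hP a (cop6_ne ha)
  have h1 : ¬ E1 V.v P := fun e => h (E1m e a).1
  have h2 := r.ht V h3 (xc P)
  rw [max_eq_left (not_E1.1 h1).2, one_pow, r.val (not_E1.1 h).1,
    max_eq_right (bLocA_mul_le (not_E1.1 h).2), (hR a A B r (cop6.1 ha).1).2] at h2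
  exact h2

theorem UNIT_pf (hP : POLY_st) (hR : BPR_st) (hT : TH0_st) : UNIT_st := by
  intro a V P ha h3
  have h0 : V.v (Fa a T0) = 1 :=
    Fa_ASURJ hP hR ha h3 ((Gd_T0.smul (cop6.1 ha).2).nE1 V)
  have h1 : V.v (Th a T0) = 1 := by
    have := congrArg V.v (hT a ha).1
    rw [map_pow, map_pow, V.v.map_neg, v_three h3, one_pow] at this
    exact (pow_eq_one_iff_of_nonneg (V.v.nonneg _) two_ne_zero).1 this
  rw [Th, map_div₀, h0, div_one] at h1
  have h2 : ¬ E1 V.v (a • P) → V.v (Fa a P) = 1 ∧ V.v (Th a P) = 1 := fun h => by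
    have := Fa_ASURJ hP hR ha h3 h
    exact ⟨this, by rw [Th, map_div₀, this, h1, div_one]⟩
  exact ⟨h2, fun h => (h2 ((h.smul (cop6.1 ha).2).nE1 V)).2⟩

end Pool.Agent.MP_e23604_nt.W

end
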