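import Pool.Agent.Mg.Fe23604m.G0fbe18
import Mathlib
import Pool.Agent.MP_f68ac8_nt.Gal
import Pool.Agent.MP_e23604_nt.BValB
import Pool.Agent.MP_e23604_nt.BLift
import Pool.Agent.Mg.Fe23604m.G5224b9
import Pool.Agent.Mg.Fe23604m.G4d6502
import Pool.Agent.MP_e23604_nt.Mordell
import Pool.Agent.MP_e23604_nt.T.Res
import Pool.Agent.MP_e23604_nt.BValC

set_option linter.all false

section

set_option autoImplicit false

open NumberField IsDedekindDomain Module Filter Topology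
open scoped Classical

namespace Pool.Agent.MP_e23604_nt.S

open B R Pool.Agent.MP_f3cd89_nt

theorem idx_SAMB {I : Type} [AddCommGroup I] {n : ℕ} (W T : AddSubgroup I) (f : I → Fin n)
    (h : ∀ x ∈ T, ∀ y ∈ T, f x = f y → x - y ∈ W) : W.relIndex T ≤ n := by
  have h1 := Nat.card_le_card_of_injective
    (fun q : T ⧸ W.addSubgroupOf T => f (q.out : T).1) fun q q' e => by
      rw [← QuotientAddGroup.out_eq' q, ← QuotientAddGroup.out_eq' q', eq_comm,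
        QuotientAddGroup.eq, AddSubgroup.mem_addSubgroupOf, neg_add_eq_sub]
      exact h _ q.out.2 _ q'.out.2 e
  rwa [Nat.card_eq_fintype_card (α := Fin n), Fintype.card_fin] at h1

open AddSubgroup in
theorem core_SAMB {A I : Type} [AddCommGroup A] [AddCommGroup I] {d : ℕ} (hd : 0 < d)
    (D N : A →+ A) (D' N' : I →+ I)
    (j : A →+ I) (hjD : ∀ a, j (D a) = D' (j a)) (hjN : ∀ a, j (N a) = N' (j a))
    (hDN : ∀ x, D (N x) = 0) (hND : ∀ x, N (D x) = 0)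
    (hDN' : ∀ x, D' (N' x) = 0) (hND' : ∀ x, N' (D' x) = 0) (hP : j.range.index ≠ 0)
    (h90 : ∀ a, N a = 0 → ∃ b, a = D b)
    (hi : (N'.range ⊔ D.ker.map j).relIndex D'.ker ≤ d)
    (h0 : (j.ker.map N).relIndex (j.ker ⊓ D.ker) ≠ 0)
    (h1 : (j.ker.map D).relIndex (j.ker ⊓ N.ker) = d * (j.ker.map N).relIndex (j.ker ⊓ D.ker))
    (a : A) (e : I) (ha : D a = 0) (he : j a = N' e) : ∃ b, a = N b := by
  have hPD : j.range ≤ j.range.comap D' := by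
    rintro _ ⟨a, rfl⟩; exact ⟨D a, hjD a⟩
  have hNK : N'.range ≤ D'.ker := by rintro _ ⟨x, rfl⟩; exact hDN' x
  have hFP : D.ker.map j ≤ j.range ⊓ D'.ker := by
    rintro _ ⟨x, hx, rfl⟩
    refine ⟨⟨x, rfl⟩, ?_⟩
    show D' (j x) = 0
    rw [← hjD, show D x = 0 from hx, map_zero]
  have hK : D'.range ⊔ j.range ≤ (D.ker.map j).comap N' := by
    refine sup_le ?_ ?_
    · rintro _ ⟨x, rfl⟩
      show N' (D' x) ∈ D.ker.map j
      rw [hND']; exact zero_mem _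
    · rintro _ ⟨x, rfl⟩
      exact ⟨N x, hDN x, hjN x⟩
  have hC : D'.ker ⊔ j.range ≤ j.range.comap D' := sup_le (fun x hx => by
    show D' x ∈ j.range
    rw [show D' x = 0 from hx]; exact zero_mem _) hPD
  -- invariants and coinvariants of the class group
  have a1 := relIndex_mul_index hPD
  have a2 := relIndex_mul_index (le_sup_right : j.range ≤ D'.range ⊔ j.range)
  rw [index_comap] at a1
  rw [relIndex_sup_right] at a2
  have a3 : j.range.relIndex (j.range.comap D') = (D'.range ⊔ j.range).index := by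
    have : j.range.relIndex D'.range ≠ 0 := fun h => hP (by rw [← a2, h, zero_mul])
    exact Nat.eq_of_mul_eq_mul_left (Nat.pos_of_ne_zero this) (by rw [a2, mul_comm, a1])
  have a4 : (D'.range ⊔ j.range).index ≠ 0 := fun h => hP (by rw [← a2, h, mul_zero])
  -- the norm map on coinvariants
  have b1 := relIndex_mul_index hK
  rw [index_comap] at b1
  have b2 := relIndex_mul_relIndex (D.ker.map j) (N'.range ⊔ D.ker.map j) D'.ker le_sup_right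
    (sup_le hNK (hFP.trans inf_le_right))
  rw [relIndex_sup_right] at b2
  -- invariant classes
  have c1 := relIndex_mul_relIndex j.range (D'.ker ⊔ j.range) _ le_sup_right hC
  rw [relIndex_sup_right, a3, ← b1] at c1
  have c2 := relIndex_mul_relIndex (D.ker.map j) (j.range ⊓ D'.ker) D'.ker hFP inf_le_right
  rw [inf_relIndex_right, ← b2] at c2
  have hE : j.ker.map N ≤ j.ker ⊓ D.ker ⊓ N.range := by
    rintro _ ⟨x, hx, rfl⟩
    refine ⟨⟨?_, hDN x⟩, x, rfl⟩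
    show j (N x) = 0
    rw [hjN, show j x = 0 from hx, map_zero]
  have c3 := relIndex_mul_relIndex (j.ker.map N) (j.ker ⊓ D.ker ⊓ N.range) (j.ker ⊓ D.ker) hE
    inf_le_left
  have u0 : (j.ker.map N).relIndex (j.ker ⊓ D.ker ⊓ N.range) ≠ 0 := fun h => h0 (by
    rw [← c3, h, zero_mul])
  let Z : AddSubgroup (I × A) :=
    (D'.comp (AddMonoidHom.fst I A) - j.comp (AddMonoidHom.snd I A)).ker
  have mZ : ∀ z : I × A, z ∈ Z ↔ D' z.1 = j z.2 := fun z => by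
    rw [AddMonoidHom.mem_ker]; simp [sub_eq_zero]
  have c4 := (Pool.Agent.MP_9b2bac_nt.Tw.corr_Amb ((AddMonoidHom.fst I A).comp Z.subtype)
    (N.comp ((AddMonoidHom.snd I A).comp Z.subtype)) (D'.ker ⊔ j.range) (j.range.comap D')
    (j.ker.map N) (j.ker ⊓ D.ker ⊓ N.range)
    (by rintro x ⟨y, hy⟩; exact ⟨⟨(x, y), (mZ _).2 hy.symm⟩, rfl⟩)
    (by
      rintro _ ⟨⟨⟨x, y⟩, hz⟩, rfl⟩
      have hz' : D' x = j y := (mZ _).1 hz
      refine ⟨⟨?_, hDN y⟩, y, rfl⟩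
      show j (N y) = 0
      rw [hjN, ← hz', hND'])
    (by
      rintro ⟨⟨x, y⟩, hz⟩ ⟨ε, hε, hey⟩
      have hz' : D' x = j y := (mZ _).1 hz
      have hey' : N ε = N y := hey
      obtain ⟨b, hb⟩ := h90 (y - ε) (by rw [map_sub, hey', sub_self])
      show x ∈ D'.ker ⊔ j.range
      rw [show x = (x - j b) + j b by abel]
      refine add_mem (mem_sup_left ?_) (mem_sup_right ⟨b, rfl⟩)
      show D' (x - j b) = 0
      rw [map_sub, hz', ← hjD, ← hb, map_sub, show j ε = 0 from hε]; simp) u0).2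
  let Y : AddSubgroup A := (j.comp D).ker
  have o0 : (j.ker.map D).relIndex (j.ker ⊓ N.ker) ≠ 0 := by
    rw [h1]; exact mul_ne_zero hd.ne' h0
  have t0 := (Pool.Agent.MP_9b2bac_nt.Tw.corr_Amb (j.comp Y.subtype) (D.comp Y.subtype) (D.ker.map j) (j.range ⊓ D'.ker)
    (j.ker.map D) (j.ker ⊓ N.ker)
    (by rintro _ ⟨⟨x, rfl⟩, hx⟩; exact ⟨⟨x, (hjD x).trans hx⟩, rfl⟩)
    (by rintro _ ⟨⟨x, hx⟩, rfl⟩; exact ⟨hx, hND x⟩)
    (by
      rintro ⟨x, hx⟩ ⟨ε, hε, h⟩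
      have h' : D ε = D x := h
      refine ⟨x - ε, ?_, ?_⟩
      · show D (x - ε) = 0
        rw [map_sub, h', sub_self]
      · show j (x - ε) = j x
        rw [map_sub, show j ε = 0 from hε, sub_zero]) o0).1
  have c5 := (Pool.Agent.MP_9b2bac_nt.Tw.corr_Amb (D.comp Y.subtype) (j.comp Y.subtype) (j.ker.map D) (j.ker ⊓ N.ker)
    (D.ker.map j) (j.range ⊓ D'.ker)
    (by
      rintro x ⟨hx, hx'⟩
      obtain ⟨b, rfl⟩ := h90 x hx'
      exact ⟨⟨b, hx⟩, rfl⟩)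
    (by rintro _ ⟨⟨x, hx⟩, rfl⟩; exact ⟨⟨x, rfl⟩, (hjD x).symm.trans hx⟩)
    (by
      rintro ⟨x, hx⟩ ⟨γ, hγ, h⟩
      have h' : j γ = j x := h
      refine ⟨x - γ, ?_, ?_⟩
      · show j (x - γ) = 0
        rw [map_sub, h', sub_self]
      · show D (x - γ) = D x
        rw [map_sub, show D γ = 0 from hγ, sub_zero]) t0).2
  rw [h1, ← c3] at c5
  rw [← b1] at a4
  rw [← c3] at h0
  have fin : (D'.range ⊔ j.range).relIndex ((D.ker.map j).comap N') = 1 ∧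
      (j.ker ⊓ D.ker ⊓ N.range).relIndex (j.ker ⊓ D.ker) = 1 := by
    generalize (D'.range ⊔ j.range).relIndex ((D.ker.map j).comap N') = k at *
    generalize (j.ker ⊓ D.ker ⊓ N.range).relIndex (j.ker ⊓ D.ker) = u' at *
    generalize (j.ker.map N).relIndex (j.ker ⊓ D.ker ⊓ N.range) = u at *
    generalize (D.ker.map j).relIndex N'.range = m at *
    generalize (N'.range ⊔ D.ker.map j).relIndex D'.ker = i at *
    generalize (D.ker.map j).relIndex (j.range ⊓ D'.ker) = t at *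
    generalize j.range.relIndex D'.ker = n at *
    generalize (D'.ker ⊔ j.range).relIndex (j.range.comap D') = w at *
    have k0 := Nat.pos_of_ne_zero (left_ne_zero_of_mul a4)
    have m0 := Nat.pos_of_ne_zero (right_ne_zero_of_mul a4)
    have v0 := Nat.pos_of_ne_zero (right_ne_zero_of_mul h0)
    have h3 : (d * m) * (u' * k) ≤ (d * m) * 1 :=
      calc (d * m) * (u' * k) = d * u' * (n * w) := by rw [c1]; ring
        _ ≤ d * u' * (n * u) := by gcongr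
        _ = d * (u * u') * n := by ring
        _ ≤ t * n := by gcongr
        _ = m * i := c2
        _ ≤ m * d := by gcongr
        _ = _ := by ring
    have h4 := Nat.le_of_mul_le_mul_left h3 (Nat.mul_pos hd m0)
    constructor <;> nlinarith
  have f1 := relIndex_eq_one.1 fin.1 (show e ∈ (D.ker.map j).comap N' from ⟨a, ha, he⟩)
  obtain ⟨_, ⟨y, rfl⟩, _, ⟨b, rfl⟩, rfl⟩ := mem_sup.1 f1
  obtain ⟨-, c, hc⟩ := relIndex_eq_one.1 fin.2 (show a - N b ∈ j.ker ⊓ D.ker from ⟨by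
    show j (a - N b) = 0
    rw [map_sub, he, map_add, hND', hjN, zero_add, sub_self], by
    show D (a - N b) = 0
    rw [map_sub, ha, hDN, sub_self]⟩)
  exact ⟨b + c, by rw [map_add, hc]; abel⟩

theorem AMB_pf : AMB_st := by
  intro A I _ _ n D N D' N' j hn hjD hjN hDN hND hDN' hND' hP h90 ⟨f, hf⟩ h0 h1 a e ha he
  refine core_SAMB hn D N D' N' j hjD hjN hDN hND hDN' hND' hP h90
    (idx_SAMB _ _ f fun x hx y hy h => ?_) h0 h1 a e ha he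
  obtain ⟨c, z, hc, hz⟩ := hf x y hx hy h
  rw [hz, add_comm]
  exact add_mem (AddSubgroup.mem_sup_left ⟨z, rfl⟩) (AddSubgroup.mem_sup_right ⟨c, hc, rfl⟩)

end Pool.Agent.MP_e23604_nt.S

end

section

set_option autoImplicit false

open NumberField IsDedekindDomain Module Filter Topology
open scoped Classical

namespace Pool.Agent.MP_e23604_nt.S

open B R Pool.Agent.MP_f3cd89_nt

theorem pow_SHNT {A I : Type} [AddCommGroup A] [AddCommGroup I] (σ : AddMonoid.End A)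
    (τ : AddMonoid.End I) (j : A →+ I) (hj : ∀ a, j (σ a) = τ (j a)) (n : ℕ) (a : A) :
    j ((σ ^ n) a) = (τ ^ n) (j a) := by
  induction n with
  | zero => rfl
  | succ n ih =>
    rw [pow_succ', pow_succ']
    exact (hj _).trans (congrArg τ ih)

theorem core_SHNT (hAMB : AMB_st) {A D : Type} [AddCommGroup A] [AddCommGroup D] (p : ℕ)
    (σ : AddMonoid.End A) (t : AddMonoid.End D) (j1 : A →+ D) (V : AddSubgroup A) (hp : 0 < p)
    (sσ : σ ^ p = 1) (tt : t ^ p = 1) (hjt : ∀ x, j1 (σ x) = t (j1 x)) (v1 : ∀ a ∈ V, σ a ∈ V)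
    (v4 : ∀ a ∈ V, nmH σ p a = 0 → ∃ b ∈ V, a = σ b - b)
    (h90 : ∀ a, nmH σ p a = 0 → ∃ b, a = σ b - b)
    (T : Set D) (hT : T.Finite) (hfin : ∀ x, ∃ y ∈ V, x - j1 y ∈ T) (f : D → Fin p)
    (hi : ∀ x y, t x = x → t y = y → f x = f y →
      ∃ a ∈ V, ∃ e, σ a = a ∧ x - y = j1 a + nmH t p e)
    (h0 : hz σ p (j1.ker ⊓ V) ≠ 0) (h1 : ho σ p (j1.ker ⊓ V) = p * hz σ p (j1.ker ⊓ V))
    (a : A) (e : D) (y : A) (ha : σ a = a) (he : j1 a = nmH t p e) (hy : a - nmH σ p y ∈ V) :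
    ∃ b, a = nmH σ p b := by
  let τ : AddMonoid.End (D × (A ⧸ V)) :=
    AddMonoidHom.prodMap (t : D →+ D) (QuotientAddGroup.map V V σ v1)
  let j : A →+ D × (A ⧸ V) := j1.prod (QuotientAddGroup.mk' V)
  let i1 : D →+ D × (A ⧸ V) := AddMonoidHom.inl D (A ⧸ V)
  let i2 : A →+ D × (A ⧸ V) := (AddMonoidHom.inr D (A ⧸ V)).comp (QuotientAddGroup.mk' V)
  have eτ : ∀ d (x : A), τ (d, (x : A ⧸ V)) = (t d, ((σ x : A) : A ⧸ V)) := fun _ _ => rfl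
  have e1 : ∀ d, i1 (t d) = τ (i1 d) := fun d =>
    (Prod.ext rfl (map_zero (QuotientAddGroup.map V V σ v1)) : τ (i1 d) = i1 (t d)).symm
  have e2 : ∀ x, i2 (σ x) = τ (i2 x) := fun x =>
    (Prod.ext (map_zero t) rfl : τ (i2 x) = i2 (σ x)).symm
  have e3 : ∀ d (x : A), (d, (x : A ⧸ V)) = i1 d + i2 x := fun d x =>
    Prod.ext (add_zero d).symm (zero_add _).symm
  have ej : ∀ x, j x = (j1 x, (x : A ⧸ V)) := fun _ => rfl
  have ejV : ∀ x ∈ V, j x = i1 (j1 x) := fun x hx =>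
    Prod.ext rfl ((QuotientAddGroup.eq_zero_iff x).2 hx)
  have hker : j1.ker ⊓ V = j.ker := AddSubgroup.ext fun x => by
    rw [AddMonoidHom.mem_ker, ej, Prod.mk_eq_zero, QuotientAddGroup.eq_zero_iff]
    rfl
  have hj : ∀ x, j (σ x) = τ (j x) := fun x => by rw [ej, ej, eτ, hjt]
  have sτ : τ ^ p = 1 := AddMonoidHom.ext fun x => by
    obtain ⟨d, q⟩ := x
    obtain ⟨c, rfl⟩ := QuotientAddGroup.mk_surjective q
    change (τ ^ p) _ = (d, (c : A ⧸ V))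
    rw [e3, map_add, ← pow_SHNT t τ i1 e1, ← pow_SHNT σ τ i2 e2, sσ, tt]
    rfl
  have hinv : ∀ x, ∃ b d, τ x = x → σ b = b ∧ t d = d ∧ x = j b + i1 d := by
    rintro ⟨d, q⟩
    by_cases hx : τ (d, q) = (d, q)
    swap
    · exact ⟨0, 0, fun h => absurd h hx⟩
    obtain ⟨c, rfl⟩ := QuotientAddGroup.mk_surjective q
    rw [eτ, Prod.mk.injEq, QuotientAddGroup.eq_iff_sub_mem] at hx
    obtain ⟨b, hb, e⟩ := v4 _ hx.2 (HerbX.nd σ p sσ c)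
    have e4 : σ (c - b) = c - b := by
      rw [map_sub, sub_eq_sub_iff_sub_eq_sub, ← e]
    refine ⟨c - b, d - j1 (c - b), fun _ => ⟨e4, by rw [map_sub, hx.1, ← hjt, e4], ?_⟩⟩
    change _ = (j1 (c - b), ((c - b : A) : A ⧸ V)) + (d - j1 (c - b), 0)
    rw [Prod.mk_add_mk, add_sub_cancel, add_zero, QuotientAddGroup.mk_sub,
      (QuotientAddGroup.eq_zero_iff b).2 hb, sub_zero]
  choose b d hbd using hinv
  rw [hker] at h0 h1
  refine hAMB A (D × (A ⧸ V)) p (σ - 1 : AddMonoid.End A) (nmH σ p)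
    (τ - 1 : AddMonoid.End (D × (A ⧸ V))) (nmH τ p) j hp (fun x => ?_) (HerbX.n_map σ τ j hj p)
    (HerbX.dn σ p sσ) (HerbX.nd σ p sσ) (HerbX.dn τ p sτ) (HerbX.nd τ p sτ)
    (idx_HNT _ _ (hT.image fun d => (d, 0)) ?_) h90
    ⟨fun x => f (d x), fun x x' hx hx' hf => ?_⟩ h0 h1 a (e, (y : A ⧸ V)) (sub_eq_zero.2 ha) ?_
  · change j (σ x - x) = τ (j x) - j x
    rw [map_sub, hj]
  · rintro ⟨d, q⟩
    obtain ⟨c, rfl⟩ := QuotientAddGroup.mk_surjective q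
    obtain ⟨x, hx, hx'⟩ := hfin (d - j1 c)
    refine ⟨_, ⟨c + x, rfl⟩, _, hx', ?_⟩
    rw [map_add, ejV _ hx, ej]
    change _ = (d, (c : A ⧸ V)) - ((j1 c, (c : A ⧸ V)) + (j1 x, 0))
    rw [Prod.mk_add_mk, Prod.mk_sub_mk, add_zero, sub_self, sub_sub]
  · obtain ⟨b1, d1, x1⟩ := hbd x (sub_eq_zero.1 hx)
    obtain ⟨b2, d2, x2⟩ := hbd x' (sub_eq_zero.1 hx')
    obtain ⟨c, c0, g, c1, c2⟩ := hi _ _ d1 d2 hf
    refine ⟨b x - b x' + c, i1 g, ?_, ?_⟩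
    · change σ (b x - b x' + c) - (b x - b x' + c) = 0
      rw [map_add, map_sub, b1, b2, c1, sub_self]
    · change x - x' = j (b x - b x' + c) + nmH τ p (i1 g)
      rw [← HerbX.n_map t τ i1 e1, map_add, map_sub, ejV c c0, add_assoc, ← map_add i1, ← c2,
        map_sub i1, ← add_sub_add_comm, ← x1, ← x2]
  · change j a = nmH τ p (e, (y : A ⧸ V))
    rw [e3, map_add, ← HerbX.n_map t τ i1 e1, ← HerbX.n_map σ τ i2 e2, ← e3, ej, he,
      QuotientAddGroup.eq_iff_sub_mem.2 hy]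

theorem prod_SHNT {G β : Type} [Group G] [Fintype G] [CommMonoid β] {γ : G}
    (hγ : ∀ g, g ∈ Subgroup.zpowers γ) (φ : G → β) :
    ∏ i ∈ Finset.range (Nat.card G), φ (γ ^ i) = ∏ g, φ g := by
  rw [← IsCyclic.image_range_card hγ, Finset.prod_image]
  rw [← orderOf_eq_card_of_forall_mem_zpowers hγ, Finset.coe_range]
  exact pow_injOn_Iio_orderOf

theorem sum_SHNT {G : Type} [Group G] [Fintype G] {γ : G}
    (hγ : ∀ g, g ∈ Subgroup.zpowers γ) (φ : G → ℤ) :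
    ∑ i ∈ Finset.range (Nat.card G), φ (γ ^ i) = ∑ g, φ g :=
  prod_SHNT (β := Multiplicative ℤ) hγ φ

section

variable {F M : Type} [Field F] [NumberField F] [Field M] [NumberField M] [Algebra F M]
  [IsGalois F M]

theorem h90_SHNT (s : M ≃ₐ[F] M) (hg : ∀ g, g ∈ Subgroup.zpowers s) (a : Additive Mˣ)
    (ha : nmH (sA s) (Nat.card (M ≃ₐ[F] M)) a = 0) : ∃ b, a = sA s b - b := by
  have : IsCyclic (M ≃ₐ[F] M) := ⟨⟨s, hg⟩⟩
  have h1 := VlatX.coe_nmH s (Nat.card (M ≃ₐ[F] M)) a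
  rw [ha, prod_SHNT hg fun g => g • ((Additive.toMul a : Mˣ) : M)] at h1
  have h2 : Algebra.norm F ((Additive.toMul a : Mˣ) : M) = 1 := by
    apply (algebraMap F M).injective
    rw [Algebra.norm_eq_prod_automorphisms, map_one]
    exact h1.symm
  obtain ⟨y, hy⟩ := groupCohomology.exists_div_of_norm_eq_one hg h2
  refine ⟨-Additive.ofMul y, ?_⟩
  rw [map_neg, neg_sub_neg]
  refine Additive.toMul.injective (Units.ext ?_)
  rw [toMul_sub, Units.val_div_eq_div_val]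
  exact hy.symm

theorem V_SHNT (s : M ≃ₐ[F] M) (hg : ∀ g, g ∈ Subgroup.zpowers s)
    (S : Finset (Pr F)) : ∃ (V : AddSubgroup (Additive Mˣ)) (N : ℕ), 0 < N ∧
    (∀ a ∈ V, sA s a ∈ V) ∧ (∀ a ∈ V, Cong (above M S) 1 ((Additive.toMul a : Mˣ) : M)) ∧
    (∀ a : Additive Mˣ, Cong (above M S) N ((Additive.toMul a : Mˣ) : M) → a ∈ V) ∧
    ∀ a ∈ V, nmH (sA s) (Nat.card (M ≃ₐ[F] M)) a = 0 → ∃ b ∈ V, a = sA s b - b := by
  rcases S.eq_empty_or_nonempty with rfl | hS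
  · refine ⟨⊤, 1, one_pos, fun _ _ => trivial, fun a _ w hw => ?_, fun _ _ => trivial,
      fun a _ ha => (h90_SHNT s hg a ha).imp fun b hb => ⟨trivial, hb⟩⟩
    simpa using mem_above.1 hw
  · exact vlat F M (M ≃ₐ[F] M) s S hS hg

theorem tau_SHNT (s : M ≃ₐ[F] M) (hg : ∀ g, g ∈ Subgroup.zpowers s) (S : Finset (Pr F)) :
    ∃ t : AddMonoid.End (off (above M S)), (∀ D w, (t D).1 w = D.1 (gact s⁻¹ w)) ∧
      t ^ Nat.card (M ≃ₐ[F] M) = 1 ∧ ∀ D w, (nmH t (Nat.card (M ≃ₐ[F] M)) D).1 w =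
        ∑ i ∈ Finset.range (Nat.card (M ≃ₐ[F] M)), D.1 (gact (s ^ i) w) := by
  let e : Pr M ≃ Pr M := ⟨gact s, gact s⁻¹, fun w => by rw [← gact_mul, inv_mul_cancel, gact_one],
    fun w => by rw [← gact_mul, mul_inv_cancel, gact_one]⟩
  obtain ⟨t, ht⟩ : ∃ t : AddMonoid.End (off (above M S)), ∀ D w, (t D).1 w = D.1 (gact s⁻¹ w) :=
    ⟨((Finsupp.domCongr (M := ℤ) e).toAddMonoidHom.comp (off (above M S)).subtype).codRestrict
      _ fun D w hw => D.2 (gact s⁻¹ w) ((above_HNT S s⁻¹ w).2 hw), fun _ _ => rfl⟩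
  have h1 : ∀ (i : ℕ) (D : off (above M S)) w,
      ((t ^ i : AddMonoid.End (off (above M S))) D).1 w = D.1 (gact (s⁻¹ ^ i) w) := by
    intro i
    induction i with
    | zero =>
      intro D w
      rw [pow_zero, pow_zero, gact_one]
      rfl
    | succ i ih =>
      intro D w
      rw [pow_succ', pow_succ, gact_mul, ← ih]
      exact ht _ _
  have h2 : ∀ (n : ℕ) D w, (nmH t n D).1 w = ∑ i ∈ Finset.range n, D.1 (gact (s⁻¹ ^ i) w) :=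
    fun n D w => by
      induction n with
      | zero => rw [HerbX.n_zero]; rfl
      | succ n ih =>
        rw [Finset.sum_range_succ, ← ih, ← h1, nmH, nmH, Finset.sum_range_succ]
        rfl
  refine ⟨t, ht, AddMonoidHom.ext fun D => Subtype.ext (Finsupp.ext fun w => ?_), fun D w => ?_⟩
  · refine (h1 _ D w).trans ?_
    rw [pow_card_eq_one', gact_one]
    rfl
  · rw [h2, sum_SHNT hg fun g => D.1 (gact g w),
      sum_SHNT (by rwa [Subgroup.zpowers_inv]) fun g => D.1 (gact g w)]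

end

theorem HNT_pf (hAMB : AMB_st) (hSIP : SIP_st) (hLOCN : LOCN_st) : HNT_st := by
  intro F M _ _ _ _ _ _ _ p s S hp h2 h1 a ha0 hsa hun hev hloc
  have hc : Nat.card (M ≃ₐ[F] M) = p := (IsGalois.card_aut_eq_finrank F M).trans h2
  have : Fact p.Prime := ⟨hp⟩
  have hg : ∀ g, g ∈ Subgroup.zpowers s := fun _ => mem_zpowers_of_prime_card hc h1
  obtain ⟨V, N, hN, v1, v2, v3, v4⟩ := V_SHNT s hg S
  obtain ⟨t, ht, q1, hn⟩ := tau_SHNT s hg S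
  have h90 := h90_SHNT s hg
  rw [hc] at v4 q1 hn h90
  obtain ⟨j1, hj1⟩ := j_HNT (above M S)
  have sσ : (sA s : AddMonoid.End (Additive Mˣ)) ^ p = 1 := AddMonoidHom.ext fun x =>
    Additive.toMul.injective (Units.ext ((VlatX.coe_sA_pow s p x).trans (by
      rw [← hc, pow_card_eq_one', one_smul]
      rfl)))
  have hjt : ∀ x, j1 (sA s x) = t (j1 x) := fun x => Subtype.ext (Finsupp.ext fun w => by
    rw [ht, hj1, hj1]
    refine if_congr (above_HNT S s⁻¹ w).symm rfl ?_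
    have := ord_gact s (gact s⁻¹ w) ((Additive.toMul x : Mˣ) : M)
    rw [← gact_mul, mul_inv_cancel, gact_one] at this
    exact this)
  have hjV : ∀ x ∈ V, (j1 x).1 = dv ((Additive.toMul x : Mˣ) : M) := fun x hx =>
    Finsupp.ext fun w => by
      rw [hj1, dv_apply]
      split_ifs with hw
      · exact ((val_eq_one_iff w (Units.ne_zero _)).1 (NtbX.val_one one_pos (v2 x hx) hw)).symm
      · rfl
  obtain ⟨M0, hM0, hM'⟩ := (ntb M).2.2.1 (above M S) N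
  obtain ⟨hz0, hho⟩ := R.UNC_ok F M s (j1.ker ⊓ V) M0 hg
    (fun x hx => ⟨by
      have h3 : j1 x = 0 := hx.1
      change j1 _ = 0
      rw [hjt, h3, map_zero], v1 x hx.2⟩)
    (fun x hx => by
      have h3 : j1 x = 0 := hx.1
      rw [← hjV x hx.2, h3]
      rfl) hM0
    (fun x hx => by
      have h0 : ∀ w, ord w ((Additive.toMul x : Mˣ) : M) = 0 := fun w => by
        rw [← dv_apply, hx, Finsupp.zero_apply]
      have h3 : j1 x = 0 := Subtype.ext (Finsupp.ext fun w => by rw [hj1, h0, ite_self]; rfl)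
      refine ⟨?_, v3 _ ?_⟩
      · change j1 _ = 0
        rw [map_nsmul, h3, nsmul_zero]
      · rw [toMul_nsmul, Units.val_pow_eq_pow_val]
        exact hM' _ (Units.ne_zero _) fun w _ => h0 w)
  rw [h2] at hz0 hho
  obtain ⟨⟨E, hE, hE'⟩, hy⟩ := hLOCN F M p s S hp h2 h1 a ha0 hsa hev hloc
  obtain ⟨y, y0, hy⟩ := hy N
  obtain ⟨T, hT⟩ := (ntb M).2.1 (above M S) N
  obtain ⟨f, hf⟩ := hSIP F M p s S hp h2 h1 N hN hun
  have q2 : ∀ D : off (above M S), ∃ y ∈ V, D - j1 y ∈ Subtype.val ⁻¹' (T : Set (Pr M →₀ ℤ)) :=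
    fun D => by
      obtain ⟨x, hx, hx'⟩ := hT _ D.2
      have hV := v3 (Additive.ofMul (Units.mk0 x hx.1)) hx.2.2
      refine ⟨_, hV, ?_⟩
      change D.1 - (j1 _).1 ∈ T
      rw [hjV _ hV]
      exact hx'
  have q0 : ∀ D : off (above M S), t D = D → ∀ w, D.1 (gact s w) = D.1 w := fun D h w => by
    have := ht D (gact s w)
    rwa [h, ← gact_mul, inv_mul_cancel, gact_one] at this
  have q3 : ∀ D D' : off (above M S), t D = D → t D' = D' → f D.1 = f D'.1 →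
      ∃ a ∈ V, ∃ e, sA s a = a ∧ D - D' = j1 a + nmH t p e := fun D D' D1 D2 e => by
    obtain ⟨c, E, c0, c1, c2, E1, E2⟩ := hf D.1 D'.1 D.2 D'.2 (q0 D D1) (q0 D' D2) e
    have hV := v3 (Additive.ofMul (Units.mk0 c c0)) c2
    refine ⟨_, hV, ⟨E, E1⟩, Additive.toMul.injective (Units.ext c1),
      Subtype.ext (Finsupp.ext fun w => ?_)⟩
    change D.1 w - D'.1 w = (j1 _).1 w + (nmH t p ⟨E, E1⟩).1 w
    rw [hjV _ hV, hn]
    exact E2 w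
  have q4 : j1 (Additive.ofMul (Units.mk0 a ha0)) = nmH t p ⟨E, hE⟩ :=
    Subtype.ext (Finsupp.ext fun w => by
      rw [hj1, hn]
      split_ifs with hw
      · exact (Finset.sum_eq_zero fun i _ => hE _ ((above_HNT S _ w).2 hw)).symm
      · exact hE' w hw)
  have q5 : Additive.ofMul (Units.mk0 a ha0) - nmH (sA s) p (Additive.ofMul (Units.mk0 y y0)) ∈ V :=
    v3 _ (by
      rw [toMul_sub, Units.val_div_eq_div_val, VlatX.coe_nmH]
      exact hy)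
  have q6 : sA s (Additive.ofMul (Units.mk0 a ha0)) = Additive.ofMul (Units.mk0 a ha0) :=
    Additive.toMul.injective (Units.ext hsa)
  have q7 : (Subtype.val ⁻¹' (T : Set (Pr M →₀ ℤ)) : Set (off (above M S))).Finite :=
    T.finite_toSet.preimage Subtype.val_injective.injOn
  have q8 := core_SHNT hAMB p (sA s) t j1 V hp.pos sσ q1 hjt v1 v4 h90 _ q7 q2
    (fun D => f D.1) q3
  obtain ⟨b, hb⟩ := q8 hz0 hho _ _ _ q6 q4 q5
  exact ⟨((Additive.toMul b : Mˣ) : M), (VlatX.coe_nmH s p b).symm.trans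
    (congrArg (fun z : Additive Mˣ => ((Additive.toMul z : Mˣ) : M)) hb).symm⟩

end Pool.Agent.MP_e23604_nt.S

end

section

/-! Decomposition groups, and local and global automorphisms. -/

namespace Pool.Agent.MP_e23604_nt.T.CS

open NumberField
open MP_f68ac8_nt

section
variable {v : AbsoluteValue Qb ℝ}

theorem inr_of (hv : IsNonarchimedean v) {q : ℕ} (hq : q.Prime) (h : v q < 1) {τ : GQ}
    (h₆ : ∀ b : 𝓞 Qb, v (τ (b : Qb) - b) < 1) : B.Inr v τ := by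
  intro x hx
  obtain ⟨a, b, ha, hb, hb1, hab⟩ := B.frac hv hq h hx
  have e1 : v (τ a - a) < 1 := h₆ ⟨a, ha⟩
  have e2 : v (τ b - b) < 1 := h₆ ⟨b, hb⟩
  have e3 : 1 ≤ v (τ b) := by
    by_contra hc
    have h7 := hv (τ b) (-(τ b - b))
    rw [v.map_neg, show τ b + -(τ b - b) = b by ring, hb1] at h7
    exact absurd h7 (not_le.2 (max_lt (not_le.1 hc) e2))
  have e4 : (τ x - x) * τ b = (τ a - a) + -(x * (τ b - b)) := by
    rw [← hab, map_mul]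
    ring
  have e5 : v (τ x - x) * v (τ b) < 1 := by
    rw [← map_mul, e4]
    refine lt_of_le_of_lt (hv _ _) (max_lt e1 ?_)
    rw [v.map_neg, map_mul]
    exact mul_lt_one_of_nonneg_of_lt_one_right hx (v.nonneg _) e2
  exact lt_of_le_of_lt (le_mul_of_one_le_right (v.nonneg _) e3) e5

theorem lt_of (hv : IsNonarchimedean v) {q : ℕ} (hq : q.Prime) (h : v q < 1) {τ : GQ}
    (hs : ∀ b : 𝓞 Qb, v (τ (b : Qb)) < 1 ↔ v b < 1) {y : Qb} (hy : v y < 1) : v (τ y) < 1 := by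
  obtain ⟨a, b, ha, hb, hb1, hab⟩ := B.frac hv hq h hy.le
  have e1 : v (τ a) < 1 := (hs ⟨a, ha⟩).2 (by
    change v a < 1
    rwa [← hab, map_mul, hb1, mul_one])
  have e3 : 1 ≤ v (τ b) := by
    by_contra hc
    have h7 : v b < 1 := (hs ⟨b, hb⟩).1 (not_le.1 hc)
    exact h7.ne hb1
  rw [← hab, map_mul, map_mul] at e1
  exact lt_of_le_of_lt (le_mul_of_one_le_right (v.nonneg _) e3) e1

theorem ge_of {τ : GQ} (hτ : ∀ y, v y < 1 → v (τ y) < 1) (x : Qb) : v x ≤ v (τ x) := by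
  by_contra hlt
  rw [not_le] at hlt
  have hx : x ≠ 0 := by rintro rfl; simp at hlt
  have h1 : ∀ k : ℕ, v ((τ ^ k) (τ x / x)) < 1 := fun k => by
    induction k with
    | zero =>
      rw [pow_zero, AlgEquiv.one_apply, map_div₀, div_lt_one (v.pos hx)]
      exact hlt
    | succ k ih =>
      rw [pow_succ', AlgEquiv.mul_apply]
      exact hτ _ ih
  have h2 : StrictAnti fun k : ℕ => v ((τ ^ k) x) := strictAnti_nat_of_succ_lt fun k => by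
    have := h1 k
    rwa [map_div₀, map_div₀, div_lt_one (v.pos ((map_ne_zero _).2 hx)), ← AlgEquiv.mul_apply,
      ← pow_succ] at this
  obtain ⟨N, hN, h3⟩ := B.BValA_fix {x}
  have h4 := h2 hN
  simp only [h3 τ x (Finset.mem_singleton_self x), pow_zero, AlgEquiv.one_apply] at h4
  exact lt_irrefl _ h4

theorem eq_of {τ : GQ} (hτ : ∀ y, v y < 1 → v (τ y) < 1) (x : Qb) : v (τ x) = v x := by
  refine le_antisymm ?_ (ge_of hτ x)
  rcases eq_or_ne x 0 with rfl | hx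
  · simp
  have := ge_of hτ x⁻¹
  rwa [map_inv₀ τ, map_inv₀, map_inv₀, inv_le_inv₀ (v.pos hx) (v.pos ((map_ne_zero _).2 hx))]
    at this

end

variable (l : ℕ) [Fact l.Prime]

/-- the fixed prime above `l` -/
noncomputable def cen : Ideal (𝓞 Qb) := B.BValB_cen (B.nv_na l 1)

/-- its decomposition group -/
def Dc (g : GQ) : Prop := ∀ x : 𝓞 Qb, g • x ∈ cen l ↔ x ∈ cen l

/-- restrictions of local automorphisms -/
def Lc (τ : GQ) : Prop :=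
  ∃ σ : AlgebraicClosure ℚ_[l] ≃ₐ[ℚ_[l]] AlgebraicClosure ℚ_[l],
    ∀ x, emb ℚ_[l] (τ x) = σ (emb ℚ_[l] x)

theorem cen_mem : (l : 𝓞 Qb) ∈ cen l := by
  rw [cen, B.BValB_mem, RingOfIntegers.coe_eq_algebraMap, map_natCast]
  exact B.nv_lt l 1

theorem cen_conj (P : Ideal (𝓞 Qb)) (hP : P.IsMaximal) (h1 : (l : 𝓞 Qb) ∈ P) :
    ∃ ρ : GQ, ∀ b, b ∈ P ↔ ρ • b ∈ cen l := by
  have : (cen l).IsPrime := B.BValB_prime (B.nv_na l 1)
  have := hP.isPrime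
  exact B.BValB_conj ℚ P (cen l) fun x => by
    obtain ⟨n, rfl⟩ := Rat.ringOfIntegersEquiv.symm.surjective x
    rw [eq_intCast Rat.ringOfIntegersEquiv.symm, map_intCast, B.BValB_int P Fact.out h1,
      B.BValB_int _ Fact.out (cen_mem l)]

theorem cen_max : (cen l).IsMaximal := by
  obtain ⟨P, hP, h⟩ := exists_maximal_mem (Ω := Qb) (Fact.out : l.Prime)
  obtain ⟨ρ, hρ⟩ := cen_conj l P hP h
  have e : cen l = P.comap (MulSemiringAction.toRingEquiv GQ (𝓞 Qb) ρ⁻¹ : 𝓞 Qb →+* 𝓞 Qb) := by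
    ext b
    rw [Ideal.mem_comap, hρ]
    change _ ↔ ρ • ρ⁻¹ • b ∈ _
    rw [smul_inv_smul]
  rw [e]
  exact Ideal.comap_isMaximal_of_surjective _
    (MulSemiringAction.toRingEquiv GQ (𝓞 Qb) ρ⁻¹).surjective

theorem dc_iff (g : GQ) : Dc l g ↔ ∀ x, B.nv l 1 (g x) = B.nv l 1 x := by
  refine ⟨fun h => eq_of fun y hy => lt_of (B.nv_na l 1) Fact.out (B.nv_lt l 1) h hy,
    fun h x => ?_⟩
  change B.nv l 1 (g (x : Qb)) < 1 ↔ B.nv l 1 (x : Qb) < 1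
  rw [h]

theorem ex_inr (P : Ideal (𝓞 Qb)) (hP : P.IsMaximal) (h : (l : 𝓞 Qb) ∈ P) :
    ∃ g : GQ, ∀ τ ∈ P.inertia GQ, B.Inr (B.nv l g) τ := by
  obtain ⟨ρ, hρ⟩ := cen_conj l P hP h
  refine ⟨ρ, fun τ hτ => inr_of (B.nv_na l ρ) Fact.out (B.nv_lt l ρ) fun b => ?_⟩
  have e := (B.BValB_mem _ _).1 ((hρ _).1 (hτ b))
  rw [B.BValB_coe, ← B.nv_mul, one_mul] at e
  exact e

section
open Polynomial B

variable {l}

theorem dc_fix {τ : GQ} (hτ : Dc l τ) {c : Qb} {a : ℚ_[l]}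
    (h : emb ℚ_[l] c = algebraMap ℚ_[l] (AlgebraicClosure ℚ_[l]) a) : τ c = c := by
  have key : ∀ ε : ℝ, 0 < ε → nv l 1 (τ c - c) < ε := by
    intro ε hε
    obtain ⟨r, hr⟩ := Padic.rat_dense l a hε
    have h1 : nv l 1 (c - r) < ε := by
      rw [nv_apply, AlgEquiv.one_apply, map_sub, h, map_ratCast,
        ← map_ratCast (algebraMap ℚ_[l] (PadicAlgCl l)), ← map_sub, norm_algebraMap']
      exact hr
    have h2 : nv l 1 (τ c - r) < ε := by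
      have := (dc_iff l τ).1 hτ (c - r)
      rw [map_sub, map_ratCast] at this
      rwa [this]
    have e : τ c - c = (τ c - r) + -(c - r) := by ring
    rw [e]
    refine (nv_na l 1 _ _).trans_lt (max_lt h2 ?_)
    rwa [AbsoluteValue.map_neg]
  have h0 : nv l 1 (τ c - c) = 0 := by
    by_contra hc
    exact lt_irrefl _ (key _ (lt_of_le_of_ne ((nv l 1).nonneg _) (Ne.symm hc)))
  exact sub_eq_zero.1 ((nv l 1).eq_zero.1 h0)

theorem dc_conj {τ : GQ} (hτ : Dc l τ) (x : Qb) :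
    ∃ σ : PadicAlgCl l ≃ₐ[ℚ_[l]] PadicAlgCl l, σ (emb ℚ_[l] x) = emb ℚ_[l] (τ x) := by
  have halg : IsAlgebraic ℚ_[l] (emb ℚ_[l] x) := Algebra.IsAlgebraic.isAlgebraic _
  have hx : IsIntegral ℚ x := Algebra.IsIntegral.isIntegral x
  refine minpoly.exists_algEquiv_of_root' halg ?_
  set m := minpoly ℚ_[l] (emb ℚ_[l] x) with hm
  have hmon : m.Monic := minpoly.monic halg.isIntegral
  have hdvd : m ∣ (minpoly ℚ x).map (algebraMap ℚ ℚ_[l]) := by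
    refine minpoly.dvd _ _ ?_
    rw [aeval_map_algebraMap]
    have := aeval_algHom_apply (emb ℚ_[l]).toRatAlgHom x (minpoly ℚ x)
    rw [minpoly.aeval, map_zero] at this
    exact this
  have hl : m.map (algebraMap ℚ_[l] (PadicAlgCl l)) ∈ lifts (emb ℚ_[l]) := by
    refine (IsAlgClosed.splits _).mem_lift_of_roots_mem_range (hmon.map _) _ fun a ha => ?_
    refine BLift_root l (minpoly.ne_zero hx) ?_
    have h1 : aeval a m = 0 := by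
      rw [aeval_def, ← eval_map]
      exact (mem_roots'.1 ha).2
    rw [← aeval_map_algebraMap ℚ_[l]]
    exact aeval_eq_zero_of_dvd_aeval_eq_zero hdvd h1
  obtain ⟨m0, h0⟩ := (mem_lifts _).1 hl
  have hfix : m0.map (τ : Qb →+* Qb) = m0 := by
    ext i
    rw [coeff_map]
    refine dc_fix hτ (a := m.coeff i) ?_
    rw [← coeff_map, h0, coeff_map]
  have ev : ∀ z : Qb, aeval (emb ℚ_[l] z) m = emb ℚ_[l] (m0.eval z) := fun z => by
    rw [aeval_def, ← eval_map, ← h0, eval_map, eval₂_hom]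
  have z0 : m0.eval x = 0 := by
    apply (emb ℚ_[l]).injective
    rw [← ev, map_zero]
    exact minpoly.aeval _ _
  have z1 : m0.eval (τ x) = 0 := by
    have := eval₂_hom (p := m0) (τ : Qb →+* Qb) x
    rw [← eval_map, hfix, z0, map_zero] at this
    exact this
  rw [ev, z1, map_zero]

theorem dc_lift {g : GQ} (hg : Dc l g) (X : Finset Qb) : ∃ τ, Lc l τ ∧ ∀ x ∈ X, τ x = g x := by
  obtain ⟨x0, hx0⟩ := B.BLift_prim X
  obtain ⟨σ, hσ⟩ := dc_conj hg x0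
  obtain ⟨τ, hτ⟩ := exists_res ℚ_[l] σ
  have e0 : τ x0 = g x0 := (emb ℚ_[l]).injective ((hτ x0).trans hσ)
  exact ⟨τ, ⟨σ, hτ⟩, hx0 τ g e0⟩

end

end Pool.Agent.MP_e23604_nt.T.CS

end

section

/-!
The number of local classes modulo powers of the residue characteristic.
-/

open WeierstrassCurve
open scoped Classical

namespace Pool.Agent.MP_e23604_nt.T.CS

open B L

variable (W : WeierstrassCurve ℚ) (q : ℕ) [Fact q.Prime] [W.IsElliptic]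

theorem fx_div
    (hW : Intg (NormedField.toAbsoluteValue (PadicAlgCl q)) (W.baseChange (PadicAlgCl q))) (k : ℕ) :
    ∀ S : Pts W (PadicAlgCl q), Fx W q S → E1 (NormedField.toAbsoluteValue (PadicAlgCl q)) S →
      ‖zz S‖ * q ^ (k + 2) ≤ 1 → ∃ D, Fx W q D ∧ q ^ k • D = S := by
  have hq : q.Prime := Fact.out
  have hq1 : (1 : ℝ) < q := by exact_mod_cast hq.one_lt
  have hq0 : (0 : ℝ) < q := zero_lt_one.trans hq1
  have hv : IsNonarchimedean (NormedField.toAbsoluteValue (PadicAlgCl q)) :=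
    fun x y => IsUltrametricDist.norm_add_le_max x y
  have hn : ‖(q : PadicAlgCl q)‖ = (q : ℝ)⁻¹ := by rw [norm_nat_Locq, Padic.norm_p]
  have : (W.baseChange (PadicAlgCl q)).IsElliptic :=
    inferInstanceAs (W.map (algebraMap ℚ (PadicAlgCl q))).IsElliptic
  induction k with
  | zero => exact fun S hS _ _ => ⟨S, hS, by rw [pow_zero, one_nsmul]⟩
  | succ k ih =>
    intro S hS h1 h2
    have s3 : NormedField.toAbsoluteValue (PadicAlgCl q) (zz S) <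
        NormedField.toAbsoluteValue (PadicAlgCl q) q ^ 2 := by
      change ‖zz S‖ < ‖(q : PadicAlgCl q)‖ ^ 2
      rw [hn, inv_pow]
      exact (le_inv_Idx.1 h2).trans_lt
        (inv_strictAnti₀ (by positivity) (pow_lt_pow_right₀ hq1 (by omega)))
    obtain ⟨D, ⟨d1, d2, d3⟩, hD⟩ := div_st (PadicAlgCl q) _ (W.baseChange (PadicAlgCl q)) q S hv hW
      hq.pos h1 s3
    have f1 : Fx W q D := fun σ => by
      obtain ⟨c1, c2⟩ := act_Locq W q σ D d2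
      refine hD _ ⟨?_, c1, c2.trans_lt d3⟩
      rw [← map_nsmul, d1]
      exact hS σ
    have f2 : ‖zz D‖ * q ^ (k + 2) ≤ 1 := by
      rcases (norm_nonneg (zz D)).eq_or_lt with e | e
      · rw [← e, zero_mul]
        exact zero_le_one
      have g1 : ‖zz S - q * zz D‖ ≤ ‖zz D‖ ^ 2 := by
        have := (bLocA_nsmul hv hW d2 q).2.1
        rwa [d1] at this
      have g2 : ‖zz S - q * zz D‖ < ‖(q : PadicAlgCl q) * zz D‖ := by
        refine g1.trans_lt ?_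
        rw [norm_mul, pow_two]
        exact mul_lt_mul_of_pos_right d3 e
      have g3 : ‖(q : PadicAlgCl q) * zz D + (zz S - q * zz D)‖ = ‖(q : PadicAlgCl q) * zz D‖ :=
        bLocA_add_eq hv g2
      rw [add_sub_cancel, norm_mul, hn] at g3
      rw [g3] at h2
      refine le_of_eq_of_le ?_ h2
      field_simp
      ring
    obtain ⟨D', e1, e2⟩ := ih D f1 d2 f2
    exact ⟨D', e1, by rw [pow_succ', mul_nsmul', e2, d1]⟩

theorem cls_int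
    (hW : Intg (NormedField.toAbsoluteValue (PadicAlgCl q)) (W.baseChange (PadicAlgCl q))) :
    ∃ C : ℕ, ∀ k : ℕ, Cls W q (q ^ k) (C * q ^ k) := by
  have hq : q.Prime := Fact.out
  have hq1 : (1 : ℝ) < q := by exact_mod_cast hq.one_lt
  have hv : IsNonarchimedean (NormedField.toAbsoluteValue (PadicAlgCl q)) :=
    fun x y => IsUltrametricDist.norm_add_le_max x y
  have : (W.baseChange (PadicAlgCl q)).IsElliptic :=
    inferInstanceAs (W.map (algebraMap ℚ (PadicAlgCl q))).IsElliptic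
  have hΔ : 0 < ‖(W.baseChange (PadicAlgCl q)).Δ‖ :=
    norm_pos_iff.2 (W.baseChange (PadicAlgCl q)).isUnit_Δ.ne_zero
  obtain ⟨c, hc⟩ := pow_unbounded_of_one_lt (1 / ‖(W.baseChange (PadicAlgCl q)).Δ‖) hq1
  rw [div_lt_iff₀ hΔ, mul_comm] at hc
  refine ⟨(q ^ (2 * c + 2) + 1) * q, fun k => ?_⟩
  obtain ⟨A, hA, hS⟩ := idx_st W q (k + 1) c hW hc.le
  have hA' : A.card ≤ (q ^ (2 * c + 2) + 1) * q * q ^ k := hA.trans (le_of_eq (by ring))
  have hN0 : 0 < (q ^ (2 * c + 2) + 1) * q * q ^ k := by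
    have := hq.pos
    positivity
  choose a ha hE hz using hS
  refine ⟨fun R => if h : Fx W q (q ^ k • R) then
    Fin.castLE hA' (A.equivFin ⟨a _ h, ha _ h⟩) else ⟨0, hN0⟩, ?_⟩
  intro R R' hR hR' he
  simp only [dif_pos hR, dif_pos hR'] at he
  have e : a _ hR = a _ hR' :=
    congrArg Subtype.val (A.equivFin.injective (Fin.castLE_injective _ he))
  obtain ⟨s1, s2⟩ := sub_Locq hv hW (hE _ hR) (hE _ hR') (le_inv_Idx.1 (hz _ hR))
    (le_inv_Idx.1 (hz _ hR'))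
  have e2 : q ^ k • R - a _ hR - (q ^ k • R' - a _ hR') = q ^ k • R - q ^ k • R' := by
    rw [e]
    abel
  rw [e2] at s1 s2
  obtain ⟨D, d1, d2⟩ := fx_div W q hW k _ (Fx_sub_Locq W q hR hR') s1 (le_inv_Idx.2 s2)
  refine ⟨R - R' - D, ?_, ?_⟩
  · rw [nsmul_sub, nsmul_sub, d2, sub_self]
  · rwa [sub_sub_cancel]

theorem cls_pow : ∃ C : ℕ, ∀ k : ℕ, Cls W q (q ^ k) (C * q ^ k) := by
  obtain ⟨V, hV⟩ := intg_Locq W q
  obtain ⟨C, hC⟩ := cls_int (V • W) q hV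
  exact ⟨C, fun k => trans_Locq W q V (hC k)⟩

end Pool.Agent.MP_e23604_nt.T.CS

end

section

/-!
Finitely many strict Selmer cocycles bound the Selmer group.
-/

open WeierstrassCurve Finset
open scoped Classical

namespace Pool.Agent.MP_e23604_nt.T.CS

open B L

variable (W : WeierstrassCurve ℚ) (q : ℕ) [Fact q.Prime]

/-- Selmer cocycles killed by `q ^ k` -/
def Sel (k : ℕ) (ξ : GQ → Pts W Qb) : Prop :=
  ξ ∈ cocycles W ∧ (∀ g, q ^ k • ξ g = 0) ∧ ∀ (l : ℕ) [Fact l.Prime], LocTriv W ℚ_[l] ξ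

/-- strict Selmer cocycles -/
def Str : Set (GQ → Pts W Qb) := {ξ | (∃ k, Sel W q k ξ) ∧ ∀ g, Dc q g → ξ g = 0}

theorem tors_lift [W.IsElliptic] {F : Type} [Field F] [CharZero F] [IsAlgClosed F] (f : Qb →+* F)
    {n : ℕ} (hn : 0 < n) (Q : Pts W F) (hQ : n • Q = 0) :
    ∃ R : Pts W Qb, n • R = 0 ∧ act W f R = Q := by
  have e1 : (W.baseChange Qb).IsElliptic := inferInstanceAs (W.map _).IsElliptic
  have e2 : (W.baseChange F).IsElliptic := inferInstanceAs (W.map _).IsElliptic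
  have c1 := btors_card (W.baseChange Qb) hn
  have c2 := btors_card (W.baseChange F) hn
  let φ : {P : Pts W Qb // n • P = 0} → {P : Pts W F // n • P = 0} :=
    fun P => ⟨act W f P.1, by rw [← map_nsmul, P.2, map_zero]⟩
  have hφ : Function.Injective φ := fun P P' e =>
    Subtype.ext (BSel_act_inj W f (congrArg Subtype.val e))
  have : Finite {P : Pts W F // n • P = 0} :=
    Nat.finite_of_card_ne_zero (by rw [c2]; positivity)
  obtain ⟨R, hR⟩ := (hφ.bijective_of_nat_card_le (by rw [c1, c2])).2 ⟨Q, hQ⟩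
  exact ⟨R.1, R.2, congrArg Subtype.val hR⟩

theorem gal_emb {F : Type} [Field F] [CharZero F]
    {σ : AlgebraicClosure F ≃ₐ[F] AlgebraicClosure F} {τ : GQ}
    (h : ∀ x, emb F (τ x) = σ (emb F x)) (R : Pts W Qb) :
    act W (emb F) (galQ W τ R) =
      act W (σ : AlgebraicClosure F →+* AlgebraicClosure F) (act W (emb F) R) := by
  rw [galQ, BSel_act_act, BSel_act_act, show (emb F).comp (τ : Qb →+* Qb) =
    (σ : AlgebraicClosure F →+* AlgebraicClosure F).comp (emb F) from RingHom.ext h]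

/-- the number of Selmer classes -/
theorem cnt [W.IsElliptic] (hfin : (Str W q).Finite) :
    ∃ C : ℕ, ∀ (k : ℕ) (I : Type) (ξ : I → GQ → Pts W Qb), (∀ s, Sel W q k (ξ s)) →
      (∀ s s' (R : Pts W Qb), q ^ k • R = 0 → (∀ g, ξ s g - ξ s' g = galQ W g R - R) → s = s') →
      ENat.card I ≤ C * q ^ k := by
  obtain ⟨C0, hC⟩ := cls_pow W q
  refine ⟨C0 * (Str W q).ncard, fun k I ξ hξ hinj => ?_⟩
  rcases isEmpty_or_nonempty I with hI | hI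
  · rw [ENat.card_eq_coe_natCard, Nat.card_of_isEmpty]
    simp
  obtain ⟨cl, hcl⟩ := hC k
  choose L hL using fun s => (hξ s).2.2 q
  have hF : ∀ s, Fx W q (q ^ k • L s) := fun s σ => by
    obtain ⟨τ, hτ⟩ := exists_res ℚ_[q] σ
    have h := congrArg (fun z => q ^ k • z) (hL s σ τ hτ)
    simp only [← map_nsmul, (hξ s).2.1 τ, map_zero, smul_sub] at h
    exact sub_eq_zero.1 h.symm
  have key : ∀ s s', cl (L s) = cl (L s') → ∃ R : Pts W Qb, q ^ k • R = 0 ∧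
      (fun g => ξ s g - ξ s' g - (galQ W g R - R)) ∈ Str W q := fun s s' e => by
    obtain ⟨T, t1, t2⟩ := hcl _ _ (hF s) (hF s') e
    obtain ⟨R, h0, h1⟩ := tors_lift W (emb ℚ_[q]) (pow_pos (Fact.out : q.Prime).pos k) T t1
    have hc : ξ s - ξ s' - BSel_dd W R ∈ cocycles W :=
      sub_mem (sub_mem (hξ s).1 (hξ s').1) (BSel_dd_mem _ _)
    refine ⟨R, h0, ⟨k, hc, fun g => ?_, fun l _ => ?_⟩, fun g hg => ?_⟩
    · rw [nsmul_sub, nsmul_sub, nsmul_sub, (hξ s).2.1, (hξ s').2.1, ← map_nsmul, h0, map_zero]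
      simp only [sub_self]
    · have h2 := (((hξ s).2.2 l).add ((hξ s').2.2 l).neg).add (BSel_dd_loc W R ℚ_[l]).neg
      rw [← sub_eq_add_neg, ← sub_eq_add_neg] at h2
      exact h2
    · obtain ⟨X, hX⟩ := BSel_finset hc.1 g
      obtain ⟨τ, ⟨σ, hσ⟩, h2⟩ := dc_lift hg X
      refine (hX τ h2).symm.trans (BSel_act_inj W (emb ℚ_[q]) ?_)
      change act W (emb ℚ_[q]) (ξ s τ - ξ s' τ - (galQ W τ R - R)) = _
      have t3 := t2 σ
      rw [map_sub, map_sub] at t3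
      rw [map_zero, map_sub, map_sub, map_sub, hL s σ τ hσ, hL s' σ τ hσ, gal_emb _ hσ, h1]
      linear_combination (norm := abel) t3
  let c : I → Fin (C0 * q ^ k) := fun s => cl (L s)
  have hb : ∀ s, c (Function.invFun c (c s)) = c s := fun s => Function.invFun_eq ⟨s, rfl⟩
  choose R hR hR' using fun s => key s _ (hb s).symm
  let f : I → Fin (C0 * q ^ k) × Str W q := fun s => (c s, ⟨_, hR' s⟩)
  have hf : Function.Injective f := by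
    intro s s' h
    have e1 : c s = c s' := congrArg (fun p => p.1) h
    have e2 := congrArg (fun p => p.2.1) h
    refine hinj s s' (R s - R s') (by rw [smul_sub, hR, hR, sub_zero]) fun g => ?_
    have e3 : ξ s g - ξ (Function.invFun c (c s)) g - (galQ W g (R s) - R s) =
        ξ s' g - ξ (Function.invFun c (c s')) g - (galQ W g (R s') - R s') := congrFun e2 g
    rw [e1] at e3
    rw [map_sub]
    linear_combination (norm := abel) e3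
  have := hfin.to_subtype
  refine (ENat.card_le_card_of_injective hf).trans ?_
  rw [ENat.card_eq_coe_natCard, Nat.card_prod, Nat.card_coe_set_eq, Nat.card_eq_fintype_card,
    Fintype.card_fin, mul_right_comm]
  exact_mod_cast le_rfl

section
variable (F : Type) [Field F] [CharZero F]

/-- congruence modulo `n` -/
def Md (n : ℕ) (T T' : Pts W F) : Prop := ∃ T'', T = T' + n • T''

/-- finite generation -/
def Fg : Prop := AddGroup.FG (Pts W F)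

/-- the rank -/
noncomputable def rk : ℕ := Module.finrank ℤ (Pts W F)

theorem fix_pt {L : Type} [Field L] [CharZero L] [Algebra F L] [IsGalois F L] {R : Pts W L}
    (hR : ∀ σ : L ≃ₐ[F] L, act W (σ : L →+* L) R = R) :
    ∃ T : Pts W F, act W (algebraMap F L) T = R := by
  rcases R with _ | ⟨x, y, h⟩
  · exact ⟨0, map_zero _⟩
  have key : ∀ σ : L ≃ₐ[F] L, σ x = x ∧ σ y = y := fun σ => by
    obtain ⟨h', e⟩ := BSel_act_some W (σ : L →+* L) h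
    exact (Affine.Point.some.injEq _ _ _ _ _ _).mp (e.symm.trans (hR σ))
  obtain ⟨a, rfl⟩ := (InfiniteGalois.mem_range_algebraMap_iff_fixed (k := F) x).2
    fun σ => (key σ).1
  obtain ⟨b, rfl⟩ := (InfiniteGalois.mem_range_algebraMap_iff_fixed (k := F) y).2
    fun σ => (key σ).2
  exact ⟨.some a b ((Affine.baseChange_nonsingular W (f := (algebraMap F L).toRatAlgHom)
    (algebraMap F L).injective a b).1 h), rfl⟩

/-- Kummer cocycles -/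
theorem kum [W.IsElliptic] [Algebra F Qb] [IsGalois F Qb] (hF : ∀ (g : GQ) (a : F),
    g (algebraMap F Qb a) = algebraMap F Qb a) (k : ℕ) : ∃ κ : Pts W F → Pts W Qb,
    (∀ T, Sel W q k fun g => galQ W g (κ T) - κ T) ∧
    ∀ T T' (R : Pts W Qb), q ^ k • R = 0 →
      (∀ g, galQ W g (κ T) - κ T - (galQ W g (κ T') - κ T') = galQ W g R - R) →
      Md W F (q ^ k) T T' := by
  have e1 : (W.baseChange Qb).IsElliptic := inferInstanceAs (W.map _).IsElliptic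
  choose κ hκ using fun T : Pts W F => smul_surj (W := W.baseChange Qb)
    (pow_pos (Fact.out : q.Prime).pos k) (act W (algebraMap F Qb) T)
  refine ⟨κ, fun T => ⟨BSel_dd_mem _ (κ T), fun g => ?_, fun l _ => BSel_dd_loc _ (κ T) _⟩,
    fun T T' R hR h => ?_⟩
  · rw [nsmul_sub, ← map_nsmul, hκ, galQ, BSel_act_act, show (g : Qb →+* Qb).comp
      (algebraMap F Qb) = algebraMap F Qb from RingHom.ext (hF g), sub_self]
  · obtain ⟨T'', hT⟩ := fix_pt W F (R := κ T - κ T' - R) fun σ => by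
      have := h (AlgEquiv.ofRingEquiv (f := σ.toRingEquiv) fun x => by simp)
      change act W (σ : Qb →+* Qb) (κ T) - κ T - (act W (σ : Qb →+* Qb) (κ T') - κ T') =
        act W (σ : Qb →+* Qb) R - R at this
      rw [map_sub, map_sub]
      linear_combination (norm := abel) this
    refine ⟨T'', BSel_act_inj W (algebraMap F Qb) ?_⟩
    rw [map_add, map_nsmul, hT, nsmul_sub, nsmul_sub, hκ, hκ, hR]
    abel

theorem fin_idx (n C : ℕ)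
    (h : ∀ (I : Type) (f : I → Pts W F), (∀ s s', Md W F n (f s) (f s') → s = s') →
      ENat.card I ≤ C) : (nsmulAddMonoidHom (α := Pts W F) n).range.FiniteIndex := by
  have h1 := h (Pts W F ⧸ (nsmulAddMonoidHom (α := Pts W F) n).range) Quotient.out
    fun s s' ⟨T, hT⟩ => by
      rw [← QuotientAddGroup.out_eq' s, ← QuotientAddGroup.out_eq' s', eq_comm,
        QuotientAddGroup.eq]
      exact ⟨T, by rw [hT, neg_add_cancel_left]; rfl⟩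
  have : Finite (Pts W F ⧸ (nsmulAddMonoidHom (α := Pts W F) n).range) :=
    ENat.card_lt_top.1 (h1.trans_lt (ENat.natCast_lt_top C))
  exact AddSubgroup.finiteIndex_of_finite_quotient

end

theorem ind (M : Type) [AddCommGroup M] (hM : AddGroup.FG M) (n : ℕ) :
    ∃ f : (Fin (Module.finrank ℤ M) → Fin n) → M, ∀ s s' T, f s = f s' + n • T → s = s' := by
  have : Module.Finite ℤ M := Module.Finite.iff_addGroup_fg.2 hM
  have hr : Module.finrank ℤ (M ⧸ Submodule.torsion ℤ M) = Module.finrank ℤ M :=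
    finrank_quotient_eq_of_le_torsion le_rfl
  let b := Module.finBasisOfFinrankEq ℤ (M ⧸ Submodule.torsion ℤ M) hr
  choose P hP using fun i => (Submodule.torsion ℤ M).mkQ_surjective (b i)
  refine ⟨fun s => ∑ i, ((s i : ℕ) : ℤ) • P i, fun s s' T h => funext fun i => ?_⟩
  have h1 := congrArg (fun x => b.coord i ((Submodule.torsion ℤ M).mkQ x)) h
  simp only [map_add, map_sum, map_smul, map_nsmul, hP, Module.Basis.coord_apply,
    Module.Basis.repr_self, Finsupp.single_apply, smul_eq_mul, mul_ite, mul_one, mul_zero,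
    sum_ite_eq', mem_univ, if_true, nsmul_eq_mul] at h1
  have h2 : ((s i : ℕ) : ℤ) % (n : ℤ) = ((s' i : ℕ) : ℤ) % (n : ℤ) := by
    rw [h1, Int.add_mul_emod_self_left]
  rw [Int.emod_eq_of_lt (Int.natCast_nonneg _) (by exact_mod_cast (s i).2),
    Int.emod_eq_of_lt (Int.natCast_nonneg _) (by exact_mod_cast (s' i).2)] at h2
  exact Fin.ext (by exact_mod_cast h2)

theorem ind' (F : Type) [Field F] [CharZero F] (h : Fg W F) (n : ℕ) :
    ∃ f : (Fin (rk W F) → Fin n) → Pts W F, ∀ s s', Md W F n (f s) (f s') → s = s' := by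
  obtain ⟨f, hf⟩ := ind (Pts W F) h n
  exact ⟨f, fun s s' ⟨T, e⟩ => hf s s' T e⟩

theorem fix_rat (g : GQ) (a : ℚ) : g (algebraMap ℚ Qb a) = algebraMap ℚ Qb a := g.commutes a

theorem fg3 [W.IsElliptic] (hS : (Str W 3).Finite) : Fg W ℚ := by
  obtain ⟨C, hC⟩ := cnt W 3 hS
  obtain ⟨κ, h1, h2⟩ := kum W 3 ℚ fix_rat 1
  have : (W.baseChange ℚ).IsElliptic := inferInstanceAs (W.map _).IsElliptic
  exact @fg_of_three (fun _ _ => Classical.propDecidable _) (W.baseChange ℚ) _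
    (fin_idx W ℚ 3 (C * 3) fun I f hf => by
      simpa using hC 1 I _ (fun s => h1 (f s)) fun s s' R hR h => hf s s' (h2 _ _ R hR h))

theorem fam [W.IsElliptic] (hF : Fg W ℚ) (k : ℕ) :
    ∃ ξ : {c | c ∈ Sha W ∧ q ^ k • c = 0} × (Fin (rk W ℚ) → Fin (q ^ k)) → GQ → Pts W Qb,
      (∀ s, Sel W q k (ξ s)) ∧ ∀ s s' (R : Pts W Qb), q ^ k • R = 0 →
        (∀ g, ξ s g - ξ s' g = galQ W g R - R) → s = s' := by
  obtain ⟨κ, k1, k2⟩ := kum W q ℚ fix_rat k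
  obtain ⟨f, hf⟩ := ind' W ℚ hF (q ^ k)
  choose rep r1 r2 r3 using fun c : {c | c ∈ Sha W ∧ q ^ k • c = 0} =>
    sha_rep W (pow_pos (Fact.out : q.Prime).pos k) c.2.1 c.2.2
  refine ⟨fun x => (rep x.1).1 + fun g => galQ W g (κ (f x.2)) - κ (f x.2), fun x => ?_, ?_⟩
  · obtain ⟨a1, a2, a3⟩ := k1 (f x.2)
    refine ⟨add_mem (rep x.1).2 a1, fun g => ?_, fun l _ => (r3 x.1 l).add (a3 l)⟩
    beta_reduce
    rw [Pi.add_apply, smul_add, r2, a2, add_zero]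
  · rintro ⟨c, s⟩ ⟨c', s'⟩ R hR h
    simp only [Pi.add_apply] at h
    have e : c = c' := by
      apply Subtype.ext
      rw [← r1 c, ← r1 c']
      refine QuotientAddGroup.eq.2 ⟨κ (f s) - κ (f s') - R, ?_⟩
      rintro g _ rfl
      have h1 := h g
      change -(rep c).1 g + (rep c').1 g = _
      rw [map_sub, map_sub]
      have h2 : galQ W g R = (rep c).1 g + (galQ W g (κ (f s)) - κ (f s)) -
          ((rep c').1 g + (galQ W g (κ (f s')) - κ (f s'))) + R := by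
        rw [h1, sub_add_cancel]
      rw [h2]
      abel
    subst e
    have e2 : s = s' := hf s s' (k2 _ _ R hR fun g => by rw [← h g]; abel)
    rw [e2]

theorem congr_pt {V V' : WeierstrassCurve ℚ} (e : V = V') (d d' : DecidableEq ℚ) :
    ((letI := d; Module.finrank ℤ V.toAffine.Point) =
      (letI := d'; Module.finrank ℤ V'.toAffine.Point)) ∧
    ((letI := d'; AddGroup.FG V'.toAffine.Point) → (letI := d; AddGroup.FG V.toAffine.Point)) := by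
  subst e
  cases Subsingleton.elim d d'
  exact ⟨rfl, id⟩

theorem bound [W.IsElliptic] (hS : (Str W 3).Finite) : ∃ C : ℕ, ∀ k : ℕ,
    {c | c ∈ Sha W ∧ 3 ^ k • c = 0}.encard * 3 ^ (k * rk W ℚ) ≤ C * 3 ^ k := by
  obtain ⟨C, hC⟩ := cnt W 3 hS
  refine ⟨C, fun k => ?_⟩
  obtain ⟨ξ, x1, x2⟩ := fam W 3 (fg3 W hS) k
  have h := hC k _ ξ x1 x2
  rw [ENat.card_prod, ENat.card_eq_coe_fintype_card (α := Fin _ → Fin _), Fintype.card_fun,
    Fintype.card_fin, Fintype.card_fin, ← pow_mul] at h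
  push_cast at h
  exact h

theorem sel3 [W.IsElliptic] (hS : (Str W 3).Finite) (d : DecidableEq ℚ) :
    (∃ C : ℕ, ∀ k : ℕ, {c | c ∈ Sha W ∧ 3 ^ k • c = 0}.encard *
      3 ^ (k * (letI := d; Module.finrank ℤ W.toAffine.Point)) ≤ C * 3 ^ k) ∧
    (letI := d; AddGroup.FG W.toAffine.Point) := by
  have e := congr_pt (V := W) (V' := W.baseChange ℚ) (by ext <;> simp [baseChange]) d
    fun _ _ => Classical.propDecidable _
  refine ⟨?_, e.2 (fg3 W hS)⟩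
  rw [e.1]
  exact bound W hS

end Pool.Agent.MP_e23604_nt.T.CS

end

section

/-!
Cocycles with values in the cube roots of unity, and change of the model.
-/

open WeierstrassCurve Finset
open scoped Classical

namespace Pool.Agent.MP_e23604_nt.T.CS

open B

theorem cube_split (S : Finset ℕ) {N : ℕ} (hN : N ≠ 0)
    (h : ∀ l, l.Prime → l ∉ S → 3 ∣ N.factorization l) :
    ∃ s m : ℕ, N = s ^ 3 * m ∧ m ∣ ∏ l ∈ S, l ^ 2 := by
  refine ⟨∏ l ∈ N.primeFactors, l ^ (N.factorization l / 3),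
    ∏ l ∈ N.primeFactors, l ^ (N.factorization l % 3), ?_, ?_⟩
  · rw [← prod_pow, ← prod_mul_distrib]
    conv_lhs => rw [← Nat.prod_factorization_pow_eq_self hN]
    refine prod_congr rfl fun l _ => ?_
    rw [← pow_mul, ← pow_add, mul_comm, Nat.div_add_mod]
  · rw [← prod_subset (filter_subset (· ∈ S) N.primeFactors) fun l hl hl' => ?_]
    · refine (prod_dvd_prod_of_dvd _ (fun l => l ^ 2) fun l _ => pow_dvd_pow l (by omega)).trans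
        (prod_dvd_prod_of_subset _ _ _ fun l hl => (mem_filter.1 hl).2)
    · have h1 := h l (Nat.prime_of_mem_primeFactors hl) fun e => hl' (mem_filter.2 ⟨hl, e⟩)
      rw [Nat.mod_eq_zero_of_dvd h1, pow_zero]

theorem three_dvd {l : ℕ} [hl : Fact l.Prime] {N : ℕ} (hN : N ≠ 0) {δ : Qb} (hδ : δ ^ 3 = N)
    (h : ∀ τ : GQ, Inr (nv l 1) τ → τ δ = δ) : 3 ∣ N.factorization l := by
  have hv := nv_na l 1
  have hlt := nv_lt l 1
  obtain ⟨x, hx, e⟩ := ram_a ⊥ hv hl.out hlt (y := δ) fun τ _ hτ => h τ hτ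
  obtain ⟨r, rfl⟩ := IntermediateField.mem_bot.1 hx
  have hδ0 : δ ≠ 0 := fun e => hN (by
    rw [e, zero_pow three_ne_zero] at hδ
    exact_mod_cast hδ.symm)
  have hr : r ≠ 0 := fun e' => hδ0 (by
    rw [e', map_zero, map_zero] at e
    exact (nv l 1).eq_zero.1 e.symm)
  obtain ⟨m, hm⟩ := v_rat hv hl.out hlt hr
  obtain ⟨a, n, h1, h2⟩ := Nat.exists_eq_pow_mul_and_not_dvd hN l hl.out.ne_one
  have h3 : N.factorization l = a := by
    rw [h2, Nat.factorization_mul (pow_ne_zero _ hl.out.ne_zero) (by rintro rfl; simp at h1),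
      Finsupp.add_apply, hl.out.factorization_pow, Finsupp.single_eq_same,
      Nat.factorization_eq_zero_of_not_dvd h1, add_zero]
  have h4 : nv l 1 n = 1 := by
    simpa using v_coprime hv hl.out hlt (n := n) (by exact_mod_cast h1)
  have h5 : nv l 1 l ^ (a : ℤ) = nv l 1 l ^ (m * 3) := by
    have h6 := congrArg (nv l 1) hδ
    rw [map_pow, ← e, eq_ratCast, hm, h2, Nat.cast_mul, map_mul, h4, mul_one, Nat.cast_pow,
      map_pow] at h6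
    rw [zpow_natCast, ← h6, zpow_mul]
    rfl
  have h7 : (a : ℤ) = m * 3 := zpow_right_injective₀
    ((nv l 1).pos (Nat.cast_ne_zero.2 hl.out.ne_zero)) hlt.ne h5
  omega

theorem mu_fin (S : Finset ℕ) : {c : GQ → Qb | (∀ g, c g ^ 3 = 1) ∧ IsLocallyConstant c ∧
    (∀ g h, c (g * h) = c g * g (c h)) ∧ ∀ (l : ℕ) [Fact l.Prime], l ∉ S → ∀ τ : GQ,
      Inr (nv l 1) τ → c τ = 1}.Finite := by
  let B : ℕ := ∏ l ∈ S.filter Nat.Prime, l ^ 2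
  have hB : B ≠ 0 := prod_ne_zero_iff.2 fun l hl => pow_ne_zero _ (mem_filter.1 hl).2.ne_zero
  have hfin : (⋃ m ∈ B.divisors, {δ : Qb | δ ^ 3 = m}).Finite :=
    B.divisors.finite_toSet.biUnion fun m _ =>
      (Polynomial.nthRootsFinset 3 (m : Qb)).finite_toSet.subset fun δ hδ => by
        simpa [Polynomial.mem_nthRootsFinset (by norm_num : 0 < 3)] using hδ
  refine (hfin.image fun (δ : Qb) (g : GQ) => g δ / δ).subset ?_
  rintro c ⟨h1, h2, h3, h4⟩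
  obtain ⟨δ, d0, d1⟩ := h90 ⊤ c (fun g _ => h1 g) (fun g _ h _ => h3 g h)
    (by simpa using h2.isOpen_fiber 1)
  obtain ⟨r, hr⟩ := fixed_rat (x := δ ^ 3) fun g => by
    rw [map_pow, d1 g trivial, mul_pow, h1, one_mul]
  have hr0 : r ≠ 0 := fun e => d0 (by
    rw [e, Rat.cast_zero] at hr
    exact pow_eq_zero_iff three_ne_zero |>.1 hr)
  obtain ⟨t, ht, N, hN⟩ : ∃ t : ℚ, t ≠ 0 ∧ ∃ N : ℕ, t ^ 3 * r = N := by
    have e : ((r.num * r.den ^ 2 : ℤ) : ℚ) = (r.den : ℚ) ^ 3 * r := by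
      push_cast
      rw [← Rat.mul_den_eq_num r]
      ring
    obtain ⟨N, hN | hN⟩ := (r.num * r.den ^ 2).eq_nat_or_neg
    · exact ⟨r.den, Nat.cast_ne_zero.2 r.den_ne_zero, N, by rw [← e, hN, Int.cast_natCast]⟩
    · refine ⟨-r.den, neg_ne_zero.2 (Nat.cast_ne_zero.2 r.den_ne_zero), N, ?_⟩
      rw [hN, Int.cast_neg, Int.cast_natCast] at e
      linear_combination e
  have hN0 : N ≠ 0 := fun e => mul_ne_zero (pow_ne_zero 3 ht) hr0 (by rw [hN, e, Nat.cast_zero])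
  have d2 : ((t : Qb) * δ) ^ 3 = N := by
    rw [mul_pow, hr]
    exact_mod_cast hN
  obtain ⟨s, m, e1, e2⟩ := cube_split (S.filter Nat.Prime) hN0 fun l hl hS => by
    have := Fact.mk hl
    exact three_dvd hN0 d2 fun τ hτ => by
      rw [map_mul, map_ratCast, d1 τ trivial, h4 l (fun e => hS (mem_filter.2 ⟨e, hl⟩)) τ hτ,
        one_mul]
  have hs : (s : Qb) ≠ 0 := Nat.cast_ne_zero.2 fun e => hN0 (by rw [e1, e]; simp)
  have ht' : (t : Qb) ≠ 0 := Rat.cast_ne_zero.2 ht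
  refine ⟨t * δ / s, Set.mem_iUnion₂.2 ⟨m, Nat.mem_divisors.2 ⟨e2, hB⟩, ?_⟩, funext fun g => ?_⟩
  · change (t * δ / s) ^ 3 = m
    rw [div_pow, d2, e1]
    push_cast
    field_simp
  · change g (t * δ / s) / (t * δ / s) = c g
    rw [map_div₀, map_mul, map_ratCast, map_natCast, d1 g trivial]
    field_simp

theorem vc_nat (W : WeierstrassCurve ℚ) (C : VariableChange ℚ) :
    ∃ Ψ : ∀ (F : Type) [Field F] [CharZero F], Pts W F ≃+ Pts (C • W) F,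
      ∀ (F F' : Type) [Field F] [CharZero F] [Field F'] [CharZero F'] (f : F →+* F') (P : Pts W F),
        act (C • W) f (Ψ F P) = Ψ F' (act W f P) := by
  choose Ψ hΨ using fun (F : Type) [Field F] [CharZero F] => vc_equiv (W.baseChange F)
    ((C • W).baseChange F) (C.map (algebraMap ℚ F)) (map_variableChange _ _ _)
  refine ⟨Ψ, fun F F' _ _ _ _ f P => ?_⟩
  rcases P with _ | ⟨x, y, hxy⟩
  · change act (C • W) f (Ψ F 0) = Ψ F' (act W f 0)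
    simp only [map_zero]
  · obtain ⟨h1, e1⟩ := hΨ F x y hxy
    obtain ⟨h2, e2⟩ := BSel_act_some W f hxy
    obtain ⟨h3, e3⟩ := hΨ F' _ _ h2
    obtain ⟨h4, e4⟩ := BSel_act_some (C • W) f h1
    rw [e1, e2, e3, e4]
    simp [VariableChange.map]

theorem sel_vc (W : WeierstrassCurve ℚ) (C : VariableChange ℚ) {q k : ℕ} {ξ : GQ → Pts W Qb}
    (h : Sel W q k ξ) (l : ℕ) [Fact l.Prime] (g : GQ)
    (hW : Intg (nv l g) ((C • W).baseChange Qb)) (hΔ : nv l g ((C • W).baseChange Qb).Δ = 1)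
    (hq : nv l g q = 1) {τ : GQ} (hτ : Inr (nv l g) τ) : ξ τ = 0 := by
  obtain ⟨Ψ, hΨ⟩ := vc_nat W C
  have := sel_unram (C • W) (ξ := fun g => Ψ Qb (ξ g)) (p := q ^ k)
    ⟨h.1.1.comp (Ψ Qb), fun a b => by
      simp only
      rw [h.1.2 a b, map_add, galQ, galQ, hΨ]⟩
    (fun a => by rw [← map_nsmul, h.2.1, map_zero]) l (by
      obtain ⟨R, hR⟩ := h.2.2 l
      exact ⟨Ψ _ R, fun σ a ha => by rw [hΨ, hΨ, hR σ a ha, map_sub]⟩) g hW hΔ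
    (by rw [Nat.cast_pow, map_pow, hq, one_pow]) hτ
  exact (Ψ Qb).map_eq_zero_iff.1 this

theorem ec_ell {D : ℕ} (hD : D ≠ 0) : (EC D).IsElliptic := ⟨by
  have : (EC D).Δ = -432 * (432 * (D : ℚ) ^ 2) ^ 2 := by
    simp only [EC, Δ, b₂, b₄, b₆, b₈]
    ring
  rw [this]
  exact (mul_ne_zero (by norm_num) (by positivity)).isUnit⟩

theorem ec_unr {c n k : ℕ} (hc : c ≠ 0) {ξ : GQ → Pts (EC (c ^ 3 * n)) Qb}
    (h : Sel (EC (c ^ 3 * n)) 3 k ξ) (l : ℕ) [hl : Fact l.Prime] (h3 : l ≠ 3) (hn : ¬ l ∣ n)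
    (g : GQ) {τ : GQ} (hτ : Inr (nv l g) τ) : ξ τ = 0 := by
  have hv := nv_na l g
  have hlt := nv_lt l g
  have hc' : (c : ℚ) ≠ 0 := Nat.cast_ne_zero.2 hc
  have v3 : nv l g 3 = 1 := by
    simpa using v_coprime hv hl.out hlt (n := 3) fun e =>
      h3 ((Nat.prime_dvd_prime_iff_eq hl.out Nat.prime_three).1 (by exact_mod_cast e))
  have vn : nv l g n = 1 := by
    simpa using v_coprime hv hl.out hlt (n := n) (by exact_mod_cast hn)
  let C : VariableChange ℚ := ⟨Units.mk0 (2 * c) (by positivity), 0, 0, 36 * c ^ 3 * n⟩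
  have e : C • EC (c ^ 3 * n) = ⟨0, 0, 3 ^ 2 * n, 0, -(3 ^ 3 * n ^ 2)⟩ := by
    ext <;> simp [C, EC, variableChange_a₁, variableChange_a₂, variableChange_a₃,
      variableChange_a₄, variableChange_a₆] <;> field_simp <;> ring
  refine sel_vc _ C h l g ?_ ?_ (by simpa using v3) hτ
  · rw [e]
    simp only [Intg, baseChange, map_a₁, map_a₂, map_a₃, map_a₄, map_a₆, map_zero, map_neg,
      map_mul, map_pow, map_ofNat, map_natCast, AbsoluteValue.map_neg, v3, vn]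
    norm_num
  · have e2 : ((C • EC (c ^ 3 * n)).baseChange Qb).Δ = -(3 ^ 9 * (n : Qb) ^ 4) := by
      rw [e]
      simp only [baseChange, Δ, b₂, b₄, b₆, b₈, map_a₁, map_a₂, map_a₃, map_a₄, map_a₆, map_zero,
        map_neg, map_mul, map_pow, map_ofNat, map_natCast]
      ring
    rw [e2, AbsoluteValue.map_neg, map_mul, map_pow, map_pow, v3, vn]
    norm_num

end Pool.Agent.MP_e23604_nt.T.CS

end

section

/-!
A polynomial identity.
-/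

set_option autoImplicit false

namespace Pool.Agent.MP_e23604_nt.Un

set_option maxRecDepth 100000 in
theorem alg_s {U V g e x A B x0 p : ℂ} (he : e ^ 2 + e + 1 = 0) (hg : g ^ 3 = A ^ 3 - B ^ 3)
    (h0 : x0 = -(A ^ 2 + A * B + B ^ 2)) (hp : p = x0 * (2 * e + 1) * B)
    (hV : V = -U - (2 * e + 1) * (A + 2 * B) * x - p) (hU : U * V = -x ^ 3) :
    ((x0 * U + p * x) ^ 2 +
      g * (-3 * A * (x0 * U + p * x) - (A ^ 3 - B ^ 3) * U - p * (V - p)) / 2 * U -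
      g ^ 2 * (x0 * U + p * x) * U) * (x + x0) =
    x0 * (x0 - g * (A - e * B) - g ^ 2) * ((x + x0) ^ 2 +
      e * g * ((-3 * A * (x + x0) - (A ^ 3 - B ^ 3) - (U - V)) / 2) - (e * g) ^ 2 * (x + x0)) *
      (x ^ 2 + (e ^ 2 * A - e * B) * U) := by
  subst h0 hp hV
  linear_combination -(g ^ 3 * e ^ 3 * A ^ 3 + g ^ 3 * e ^ 3 * A ^ 2 * B + g ^ 3 * e ^ 3 * A * B ^
    2 - g ^ 3 * e ^ 2 * A ^ 2 * B - g ^ 3 * e ^ 2 * A * B ^ 2 - g ^ 3 * e ^ 2 * B ^ 3 - g ^ 2 * e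
    ^ 4 * A ^ 3 * B - g ^ 2 * e ^ 4 * A ^ 2 * B ^ 2 - g ^ 2 * e ^ 4 * A * B ^ 3 + g ^ 2 * e ^ 3 *
    A ^ 4 + g ^ 2 * e ^ 3 * A ^ 3 * B + 2 * g ^ 2 * e ^ 3 * A ^ 2 * B ^ 2 + g ^ 2 * e ^ 3 * A * B
    ^ 3 + g ^ 2 * e ^ 3 * B ^ 4 - g ^ 2 * e ^ 2 * A ^ 3 * B - g ^ 2 * e ^ 2 * A ^ 2 * B ^ 2 - g ^
    2 * e ^ 2 * A * B ^ 3 + g ^ 2 * x * A ^ 2 + g ^ 2 * x * A * B + g ^ 2 * x * B ^ 2 - g ^ 2 * A
    ^ 4 - 2 * g ^ 2 * A ^ 3 * B - 3 * g ^ 2 * A ^ 2 * B ^ 2 - 2 * g ^ 2 * A * B ^ 3 - g ^ 2 * B ^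
    4 + g * e ^ 3 * A ^ 5 + 2 * g * e ^ 3 * A ^ 4 * B + 3 * g * e ^ 3 * A ^ 3 * B ^ 2 + 2 * g * e
    ^ 3 * A ^ 2 * B ^ 3 + g * e ^ 3 * A * B ^ 4 - g * e ^ 2 * A ^ 4 * B - 2 * g * e ^ 2 * A ^ 3 *
    B ^ 2 - 3 * g * e ^ 2 * A ^ 2 * B ^ 3 - 2 * g * e ^ 2 * A * B ^ 4 - g * e ^ 2 * B ^ 5 - g * e
    * x * A ^ 2 * B - g * e * x * A * B ^ 2 - g * e * x * B ^ 3 + g * e * A ^ 4 * B + 2 * g * e *
    A ^ 3 * B ^ 2 + 3 * g * e * A ^ 2 * B ^ 3 + 2 * g * e * A * B ^ 4 + g * e * B ^ 5 + g * x * A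
    ^ 3 + g * x * A ^ 2 * B + g * x * A * B ^ 2 - g * A ^ 5 - 2 * g * A ^ 4 * B - 3 * g * A ^ 3 *
    B ^ 2 - 2 * g * A ^ 2 * B ^ 3 - g * A * B ^ 4 + x * A ^ 4 + 2 * x * A ^ 3 * B + 3 * x * A ^ 2
    * B ^ 2 + 2 * x * A * B ^ 3 + x * B ^ 4 - A ^ 6 - 3 * A ^ 5 * B - 6 * A ^ 4 * B ^ 2 - 7 * A ^
    3 * B ^ 3 - 6 * A ^ 2 * B ^ 4 - 3 * A * B ^ 5 - B ^ 6) * hU + (U * g * e ^ 4 * x * A ^ 3 + U *
    g * e ^ 4 * x * A ^ 2 * B + U * g * e ^ 4 * x * A * B ^ 2 - U * g * e ^ 4 * A ^ 5 - 2 * U * g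
    * e ^ 4 * A ^ 4 * B - 3 * U * g * e ^ 4 * A ^ 3 * B ^ 2 - 2 * U * g * e ^ 4 * A ^ 2 * B ^ 3 -
    U * g * e ^ 4 * A * B ^ 4 - U * g * e ^ 3 * x * A ^ 2 * B - U * g * e ^ 3 * x * A * B ^ 2 - U
    * g * e ^ 3 * x * B ^ 3 + U * g * e ^ 3 * A ^ 4 * B + 2 * U * g * e ^ 3 * A ^ 3 * B ^ 2 + 3 *
    U * g * e ^ 3 * A ^ 2 * B ^ 3 + 2 * U * g * e ^ 3 * A * B ^ 4 + U * g * e ^ 3 * B ^ 5 - U * e
    ^ 5 * x * A ^ 3 * B - U * e ^ 5 * x * A ^ 2 * B ^ 2 - U * e ^ 5 * x * A * B ^ 3 + U * e ^ 5 *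
    A ^ 5 * B + 2 * U * e ^ 5 * A ^ 4 * B ^ 2 + 3 * U * e ^ 5 * A ^ 3 * B ^ 3 + 2 * U * e ^ 5 * A
    ^ 2 * B ^ 4 + U * e ^ 5 * A * B ^ 5 - 2 * U * e ^ 4 * x * A ^ 3 * B - U * e ^ 4 * x * A ^ 2 *
    B ^ 2 - U * e ^ 4 * x * A * B ^ 3 + U * e ^ 4 * x * B ^ 4 - U * e ^ 4 * A ^ 6 - U * e ^ 4 * A
    ^ 5 * B - 2 * U * e ^ 4 * A ^ 4 * B ^ 2 - U * e ^ 4 * A ^ 3 * B ^ 3 - 2 * U * e ^ 4 * A ^ 2 *
    B ^ 4 - U * e ^ 4 * A * B ^ 5 - U * e ^ 4 * B ^ 6 + U * e ^ 3 * x * A ^ 4 + 2 * U * e ^ 3 * x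
    * A ^ 2 * B ^ 2 + U * e ^ 3 * x * A * B ^ 3 + 2 * U * e ^ 3 * x * B ^ 4 - U * e ^ 3 * A ^ 6 -
    U * e ^ 3 * A ^ 5 * B - 2 * U * e ^ 3 * A ^ 4 * B ^ 2 - U * e ^ 3 * A ^ 3 * B ^ 3 - 2 * U * e
    ^ 3 * A ^ 2 * B ^ 4 - U * e ^ 3 * A * B ^ 5 - U * e ^ 3 * B ^ 6 - U * e ^ 2 * x * A ^ 3 * B +
    U * e ^ 2 * x * B ^ 4 + U * e ^ 2 * A ^ 5 * B + 2 * U * e ^ 2 * A ^ 4 * B ^ 2 + 3 * U * e ^ 2
    * A ^ 3 * B ^ 3 + 2 * U * e ^ 2 * A ^ 2 * B ^ 4 + U * e ^ 2 * A * B ^ 5 + U * e * x ^ 2 * A ^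
    2 + U * e * x ^ 2 * A * B + U * e * x ^ 2 * B ^ 2 + g * e ^ 2 * x ^ 3 * A ^ 2 + g * e ^ 2 * x
    ^ 3 * A * B + g * e ^ 2 * x ^ 3 * B ^ 2 - g * e ^ 2 * x ^ 2 * A ^ 4 - 2 * g * e ^ 2 * x ^ 2 *
    A ^ 3 * B - 3 * g * e ^ 2 * x ^ 2 * A ^ 2 * B ^ 2 - 2 * g * e ^ 2 * x ^ 2 * A * B ^ 3 - g * e
    ^ 2 * x ^ 2 * B ^ 4 + e ^ 3 * x ^ 3 * A ^ 3 - e ^ 3 * x ^ 3 * B ^ 3 + e ^ 3 * x ^ 2 * A ^ 4 *
    B + 2 * e ^ 3 * x ^ 2 * A ^ 3 * B ^ 2 + 3 * e ^ 3 * x ^ 2 * A ^ 2 * B ^ 3 + 2 * e ^ 3 * x ^ 2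
    * A * B ^ 4 + e ^ 3 * x ^ 2 * B ^ 5 + 2 * e ^ 2 * x ^ 3 * A ^ 3 + 3 * e ^ 2 * x ^ 3 * A ^ 2 *
    B + 3 * e ^ 2 * x ^ 3 * A * B ^ 2 + e ^ 2 * x ^ 3 * B ^ 3 - e ^ 2 * x ^ 2 * A ^ 5 - 3 * e ^ 2
    * x ^ 2 * A ^ 4 * B - 5 * e ^ 2 * x ^ 2 * A ^ 3 * B ^ 2 - 5 * e ^ 2 * x ^ 2 * A ^ 2 * B ^ 3 -
    3 * e ^ 2 * x ^ 2 * A * B ^ 4 - e ^ 2 * x ^ 2 * B ^ 5 + 2 * e * x ^ 3 * A ^ 3 + 3 * e * x ^ 3
    * A ^ 2 * B + 3 * e * x ^ 3 * A * B ^ 2 + e * x ^ 3 * B ^ 3 - e * x ^ 2 * A ^ 5 - 3 * e * x ^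
    2 * A ^ 4 * B - 5 * e * x ^ 2 * A ^ 3 * B ^ 2 - 5 * e * x ^ 2 * A ^ 2 * B ^ 3 - 3 * e * x ^ 2
    * A * B ^ 4 - e * x ^ 2 * B ^ 5) * hg + (U * g ^ 2 * e ^ 3 * x * A ^ 4 * B + 3 * U * g ^ 2 * e
    ^ 3 * x * A ^ 3 * B ^ 2 + 3 * U * g ^ 2 * e ^ 3 * x * A ^ 2 * B ^ 3 + 2 * U * g ^ 2 * e ^ 3 *
    x * A * B ^ 4 - U * g ^ 2 * e ^ 3 * A ^ 5 * B ^ 2 - 2 * U * g ^ 2 * e ^ 3 * A ^ 4 * B ^ 3 - 3
    * U * g ^ 2 * e ^ 3 * A ^ 3 * B ^ 4 - 2 * U * g ^ 2 * e ^ 3 * A ^ 2 * B ^ 5 - U * g ^ 2 * e ^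
    3 * A * B ^ 6 - 3 * U * g ^ 2 * e ^ 2 * x * A ^ 4 * B - 4 * U * g ^ 2 * e ^ 2 * x * A ^ 3 * B
    ^ 2 - 6 * U * g ^ 2 * e ^ 2 * x * A ^ 2 * B ^ 3 - 3 * U * g ^ 2 * e ^ 2 * x * A * B ^ 4 - 2 *
    U * g ^ 2 * e ^ 2 * x * B ^ 5 - U * g ^ 2 * e ^ 2 * A ^ 7 - U * g ^ 2 * e ^ 2 * A ^ 6 * B - U
    * g ^ 2 * e ^ 2 * A ^ 5 * B ^ 2 + 2 * U * g ^ 2 * e ^ 2 * A ^ 4 * B ^ 3 + 3 * U * g ^ 2 * e ^
    2 * A ^ 3 * B ^ 4 + 4 * U * g ^ 2 * e ^ 2 * A ^ 2 * B ^ 5 + 2 * U * g ^ 2 * e ^ 2 * A * B ^ 6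
    + U * g ^ 2 * e ^ 2 * B ^ 7 + U * g ^ 2 * e * x * A ^ 5 + 2 * U * g ^ 2 * e * x * A ^ 4 * B +
    3 * U * g ^ 2 * e * x * A ^ 3 * B ^ 2 + 2 * U * g ^ 2 * e * x * A ^ 2 * B ^ 3 + U * g ^ 2 * e
    * x * A * B ^ 4 - U * g ^ 2 * x ^ 2 * A ^ 3 - 2 * U * g ^ 2 * x ^ 2 * A ^ 2 * B - 2 * U * g ^
    2 * x ^ 2 * A * B ^ 2 - U * g ^ 2 * x ^ 2 * B ^ 3 + U * g ^ 2 * x * A ^ 5 + 4 * U * g ^ 2 * x
    * A ^ 4 * B + 7 * U * g ^ 2 * x * A ^ 3 * B ^ 2 + 8 * U * g ^ 2 * x * A ^ 2 * B ^ 3 + 5 * U *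
    g ^ 2 * x * A * B ^ 4 + 2 * U * g ^ 2 * x * B ^ 5 - U * g ^ 2 * A ^ 6 * B - 3 * U * g ^ 2 * A
    ^ 5 * B ^ 2 - 6 * U * g ^ 2 * A ^ 4 * B ^ 3 - 7 * U * g ^ 2 * A ^ 3 * B ^ 4 - 6 * U * g ^ 2 *
    A ^ 2 * B ^ 5 - 3 * U * g ^ 2 * A * B ^ 6 - U * g ^ 2 * B ^ 7 - 3 * U * g * e ^ 2 * x * A ^ 5
    * B - 6 * U * g * e ^ 2 * x * A ^ 4 * B ^ 2 - 9 * U * g * e ^ 2 * x * A ^ 3 * B ^ 3 - 6 * U *
    g * e ^ 2 * x * A ^ 2 * B ^ 4 - 3 * U * g * e ^ 2 * x * A * B ^ 5 - U * g * e ^ 2 * A ^ 8 - U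
    * g * e ^ 2 * A ^ 7 * B + 5 * U * g * e ^ 2 * A ^ 5 * B ^ 3 + 8 * U * g * e ^ 2 * A ^ 4 * B ^
    4 + 9 * U * g * e ^ 2 * A ^ 3 * B ^ 5 + 5 * U * g * e ^ 2 * A ^ 2 * B ^ 6 + 2 * U * g * e ^ 2
    * A * B ^ 7 + U * g * e * x ^ 2 * A ^ 3 * B + U * g * e * x ^ 2 * A ^ 2 * B ^ 2 + U * g * e *
    x ^ 2 * A * B ^ 3 + U * g * e * x * A ^ 6 + 2 * U * g * e * x * A ^ 5 * B + 6 * U * g * e * x
    * A ^ 4 * B ^ 2 + 8 * U * g * e * x * A ^ 3 * B ^ 3 + 10 * U * g * e * x * A ^ 2 * B ^ 4 + 6 *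
    U * g * e * x * A * B ^ 5 + 3 * U * g * e * x * B ^ 6 - 2 * U * g * e * A ^ 6 * B ^ 2 - 6 * U
    * g * e * A ^ 5 * B ^ 3 - 12 * U * g * e * A ^ 4 * B ^ 4 - 14 * U * g * e * A ^ 3 * B ^ 5 - 12
    * U * g * e * A ^ 2 * B ^ 6 - 6 * U * g * e * A * B ^ 7 - 2 * U * g * e * B ^ 8 - U * g * x ^
    2 * A ^ 4 - 2 * U * g * x ^ 2 * A ^ 3 * B - 3 * U * g * x ^ 2 * A ^ 2 * B ^ 2 - 2 * U * g * x
    ^ 2 * A * B ^ 3 - U * g * x ^ 2 * B ^ 4 + U * g * x * A ^ 6 + 4 * U * g * x * A ^ 5 * B + 9 *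
    U * g * x * A ^ 4 * B ^ 2 + 12 * U * g * x * A ^ 3 * B ^ 3 + 11 * U * g * x * A ^ 2 * B ^ 4 +
    6 * U * g * x * A * B ^ 5 + 2 * U * g * x * B ^ 6 - U * g * A ^ 7 * B - 4 * U * g * A ^ 6 * B
    ^ 2 - 9 * U * g * A ^ 5 * B ^ 3 - 13 * U * g * A ^ 4 * B ^ 4 - 13 * U * g * A ^ 3 * B ^ 5 - 9
    * U * g * A ^ 2 * B ^ 6 - 4 * U * g * A * B ^ 7 - U * g * B ^ 8 - U * e ^ 3 * x * A ^ 6 * B -
    U * e ^ 3 * x * A ^ 5 * B ^ 2 - U * e ^ 3 * x * A ^ 4 * B ^ 3 + U * e ^ 3 * x * A ^ 3 * B ^ 4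
    + U * e ^ 3 * x * A ^ 2 * B ^ 5 + U * e ^ 3 * x * A * B ^ 6 + U * e ^ 3 * A ^ 8 * B + 2 * U *
    e ^ 3 * A ^ 7 * B ^ 2 + 3 * U * e ^ 3 * A ^ 6 * B ^ 3 + U * e ^ 3 * A ^ 5 * B ^ 4 - U * e ^ 3
    * A ^ 4 * B ^ 5 - 3 * U * e ^ 3 * A ^ 3 * B ^ 6 - 2 * U * e ^ 3 * A ^ 2 * B ^ 7 - U * e ^ 3 *
    A * B ^ 8 - U * e ^ 2 * x * A ^ 6 * B + 2 * U * e ^ 2 * x * A ^ 3 * B ^ 4 - U * e ^ 2 * x * B
    ^ 7 - U * e ^ 2 * A ^ 9 - 2 * U * e ^ 2 * A ^ 8 * B - 4 * U * e ^ 2 * A ^ 7 * B ^ 2 - 3 * U *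
    e ^ 2 * A ^ 6 * B ^ 3 - 2 * U * e ^ 2 * A ^ 5 * B ^ 4 + 2 * U * e ^ 2 * A ^ 4 * B ^ 5 + 3 * U
    * e ^ 2 * A ^ 3 * B ^ 6 + 4 * U * e ^ 2 * A ^ 2 * B ^ 7 + 2 * U * e ^ 2 * A * B ^ 8 + U * e ^
    2 * B ^ 9 + U * e * x * A ^ 7 + 2 * U * e * x * A ^ 6 * B + 3 * U * e * x * A ^ 5 * B ^ 2 + U
    * e * x * A ^ 4 * B ^ 3 - U * e * x * A ^ 3 * B ^ 4 - 3 * U * e * x * A ^ 2 * B ^ 5 - 2 * U *
    e * x * A * B ^ 6 - U * e * x * B ^ 7 - U * x ^ 2 * A ^ 5 - 2 * U * x ^ 2 * A ^ 4 * B - 3 * U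
    * x ^ 2 * A ^ 3 * B ^ 2 - 2 * U * x ^ 2 * A ^ 2 * B ^ 3 - U * x ^ 2 * A * B ^ 4 + U * x * A ^
    7 + 4 * U * x * A ^ 6 * B + 9 * U * x * A ^ 5 * B ^ 2 + 13 * U * x * A ^ 4 * B ^ 3 + 13 * U *
    x * A ^ 3 * B ^ 4 + 9 * U * x * A ^ 2 * B ^ 5 + 4 * U * x * A * B ^ 6 + U * x * B ^ 7 - U * A
    ^ 8 * B - 4 * U * A ^ 7 * B ^ 2 - 10 * U * A ^ 6 * B ^ 3 - 16 * U * A ^ 5 * B ^ 4 - 19 * U * A
    ^ 4 * B ^ 5 - 16 * U * A ^ 3 * B ^ 6 - 10 * U * A ^ 2 * B ^ 7 - 4 * U * A * B ^ 8 - U * B ^ 9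
    - g ^ 2 * e ^ 2 * x ^ 3 * A ^ 3 * B - g ^ 2 * e ^ 2 * x ^ 3 * A ^ 2 * B ^ 2 - g ^ 2 * e ^ 2 *
    x ^ 3 * A * B ^ 3 + g ^ 2 * e * x ^ 3 * A ^ 4 + g ^ 2 * e * x ^ 3 * A ^ 3 * B - g ^ 2 * e * x
    ^ 3 * A * B ^ 3 - g ^ 2 * e * x ^ 3 * B ^ 4 + g ^ 2 * e * x ^ 2 * A ^ 4 * B ^ 2 + 2 * g ^ 2 *
    e * x ^ 2 * A ^ 3 * B ^ 3 + 3 * g ^ 2 * e * x ^ 2 * A ^ 2 * B ^ 4 + 2 * g ^ 2 * e * x ^ 2 * A
    * B ^ 5 + g ^ 2 * e * x ^ 2 * B ^ 6 + g ^ 2 * x ^ 3 * A ^ 4 + 2 * g ^ 2 * x ^ 3 * A ^ 3 * B +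
    3 * g ^ 2 * x ^ 3 * A ^ 2 * B ^ 2 + 2 * g ^ 2 * x ^ 3 * A * B ^ 3 + g ^ 2 * x ^ 3 * B ^ 4 - g
    ^ 2 * x ^ 2 * A ^ 6 - 3 * g ^ 2 * x ^ 2 * A ^ 5 * B - 6 * g ^ 2 * x ^ 2 * A ^ 4 * B ^ 2 - 7 *
    g ^ 2 * x ^ 2 * A ^ 3 * B ^ 3 - 6 * g ^ 2 * x ^ 2 * A ^ 2 * B ^ 4 - 3 * g ^ 2 * x ^ 2 * A * B
    ^ 5 - g ^ 2 * x ^ 2 * B ^ 6 + g * e * x ^ 3 * A ^ 5 + 2 * g * e * x ^ 3 * A ^ 4 * B + 3 * g *
    e * x ^ 3 * A ^ 3 * B ^ 2 + 2 * g * e * x ^ 3 * A ^ 2 * B ^ 3 + g * e * x ^ 3 * A * B ^ 4 + g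
    * x ^ 3 * A ^ 5 + 2 * g * x ^ 3 * A ^ 4 * B + 3 * g * x ^ 3 * A ^ 3 * B ^ 2 + 2 * g * x ^ 3 *
    A ^ 2 * B ^ 3 + g * x ^ 3 * A * B ^ 4 - g * x ^ 2 * A ^ 7 - 3 * g * x ^ 2 * A ^ 6 * B - 6 * g
    * x ^ 2 * A ^ 5 * B ^ 2 - 7 * g * x ^ 2 * A ^ 4 * B ^ 3 - 6 * g * x ^ 2 * A ^ 3 * B ^ 4 - 3 *
    g * x ^ 2 * A ^ 2 * B ^ 5 - g * x ^ 2 * A * B ^ 6 + e * x ^ 3 * A ^ 6 - 2 * e * x ^ 3 * A ^ 3
    * B ^ 3 + e * x ^ 3 * B ^ 6 + e * x ^ 2 * A ^ 7 * B + 2 * e * x ^ 2 * A ^ 6 * B ^ 2 + 3 * e *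
    x ^ 2 * A ^ 5 * B ^ 3 + e * x ^ 2 * A ^ 4 * B ^ 4 - e * x ^ 2 * A ^ 3 * B ^ 5 - 3 * e * x ^ 2
    * A ^ 2 * B ^ 6 - 2 * e * x ^ 2 * A * B ^ 7 - e * x ^ 2 * B ^ 8 + x ^ 3 * A ^ 6 + 3 * x ^ 3 *
    A ^ 5 * B + 7 * x ^ 3 * A ^ 4 * B ^ 2 + 9 * x ^ 3 * A ^ 3 * B ^ 3 + 9 * x ^ 3 * A ^ 2 * B ^ 4
    + 5 * x ^ 3 * A * B ^ 5 + 2 * x ^ 3 * B ^ 6 - x ^ 2 * A ^ 8 - 4 * x ^ 2 * A ^ 7 * B - 11 * x ^
    2 * A ^ 6 * B ^ 2 - 19 * x ^ 2 * A ^ 5 * B ^ 3 - 25 * x ^ 2 * A ^ 4 * B ^ 4 - 23 * x ^ 2 * A ^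
    3 * B ^ 5 - 16 * x ^ 2 * A ^ 2 * B ^ 6 - 7 * x ^ 2 * A * B ^ 7 - 2 * x ^ 2 * B ^ 8) * he

end Pool.Agent.MP_e23604_nt.Un

end
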