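import Pool.Agent.Mg.Fe23604m.G4a1d09
import Pool.Agent.Mg.Fe23604m.G300596
import Pool.Agent.Mg.Fe23604m.G8de698
import Mathlib

set_option linter.all false

section

/-!
The normal form of the curve of a lattice at a point of order three.
-/

set_option autoImplicit false

open Filter Topology Finset WeierstrassCurve
open scoped Classical

namespace Pool.Agent.MP_e23604_nt.Un

variable {L : PeriodPair} {P Q s z : ℂ}

theorem dup (hz : z ∉ L.lattice) (h2 : 2 * z ∉ L.lattice) :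
    wp L (2 * z) = dA L z ^ 2 / 4 - 2 * wp L z := by
  have h3 : wq L z ≠ 0 := fun e => h2 ((wq_zero hz).1 e)
  have hy : wq L z / 2 ≠ (WL L).toAffine.negY (wp L z) (wq L z / 2) := fun e =>
    h3 (by simp only [Affine.negY, WL] at e; linear_combination e)
  have e := uP_add (L := L) z z
  rw [← two_mul, uP_of hz, uP_of h2, Affine.Point.add_self_of_Y_ne hy] at e
  rw [(Affine.Point.some.inj e).1, Affine.slope_of_Y_ne rfl hy]
  simp only [Affine.addX, Affine.negY, WL, dA]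
  rw [show wq L z / 2 - (-(wq L z / 2) - 0 * wp L z - 0) = wq L z by ring]
  field_simp
  ring

/-- the first coordinate of the normal form at `P` -/
noncomputable def dX (L : PeriodPair) (P z : ℂ) : ℂ := wp L z - wp L P

theorem two_not (h3 : 3 * P ∈ L.lattice) (h : P ∉ L.lattice) : 2 * P ∉ L.lattice := fun e =>
  h (by simpa [show 3 * P - 2 * P = P by ring] using sub_mem h3 e)

theorem a3_ne (h3 : 3 * P ∈ L.lattice) (h : P ∉ L.lattice) : wq L P ≠ 0 := fun e =>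
  two_not h3 h ((wq_zero h).1 e)

theorem flex (h3 : 3 * P ∈ L.lattice) (h : P ∉ L.lattice) : dA L P ^ 2 = 12 * wp L P := by
  have := dup h (two_not h3 h)
  rw [show 2 * P = -P + 3 * P by ring, wp_per h3, wp, L.weierstrassP_neg] at this
  linear_combination -4 * this

theorem g2_eq (h3 : 3 * P ∈ L.lattice) (h : P ∉ L.lattice) :
    L.g₂ = 12 * wp L P ^ 2 - 2 * dA L P * wq L P := by
  rw [dA, mul_assoc, div_mul_cancel₀ _ (a3_ne h3 h)]
  ring

theorem wq_deu (h3 : 3 * P ∈ L.lattice) (h : P ∉ L.lattice) (hz : z ∉ L.lattice) :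
    wq L z ^ 2 = 4 * dX L P z ^ 3 + (dA L P * dX L P z + wq L P) ^ 2 := by
  rw [dX]
  linear_combination wq_sq hz - wq_sq h - (wp L z - wp L P) * g2_eq h3 h -
    (wp L z - wp L P) ^ 2 * flex h3 h

theorem wq_dY (L : PeriodPair) (P z : ℂ) :
    wq L z = 2 * dY L P z + dA L P * dX L P z + wq L P := by
  rw [dY, dX]; ring

theorem deu (h3 : 3 * P ∈ L.lattice) (h : P ∉ L.lattice) (hz : z ∉ L.lattice) :
    dY L P z ^ 2 + (dA L P * dX L P z + wq L P) * dY L P z = dX L P z ^ 3 := by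
  have := wq_deu h3 h hz
  rw [wq_dY L P z] at this
  linear_combination this / 4

theorem dA_neg (L : PeriodPair) (P : ℂ) : dA L (-P) = -dA L P := by
  rw [dA, dA, wp, wq, L.weierstrassP_neg, L.derivWeierstrassP_neg, div_neg]

theorem dY_neg (L : PeriodPair) (P z : ℂ) :
    dY L P (-z) = -dY L P z - dA L P * dX L P z - wq L P := by
  rw [dY, dY, dX, wp, wq, L.weierstrassP_neg, L.derivWeierstrassP_neg]
  ring

theorem dY_negP (L : PeriodPair) (P : ℂ) : dY L P (-P) = -wq L P := by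
  rw [dY_neg, dY_self, dX]
  ring

theorem addP (h3 : 3 * P ∈ L.lattice) (h : P ∉ L.lattice) (hz : z ∉ L.lattice)
    (hs : z + P ∉ L.lattice) : dX L P (z + P) * dX L P z ^ 2 = -wq L P * dY L P z ∧
      wq L (z + P) * dX L P z =
        -(wq L z - wq L P) * (dX L P (z + P) - dX L P z) - wq L z * dX L P z := by
  obtain ⟨a, b⟩ := add_thm hz h hs
  have c := deu h3 h hz
  have d := wq_dY L P z
  have f := flex h3 h
  simp only [dX] at *
  refine ⟨?_, by linear_combination b⟩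
  rw [d] at a
  linear_combination a / 4 + c + (wp L z - wp L P) ^ 2 / 4 * f

theorem subP (h3 : 3 * P ∈ L.lattice) (h : P ∉ L.lattice) (hz : z ∉ L.lattice)
    (hs : z - P ∉ L.lattice) : dX L P (z - P) * dX L P z ^ 2 = -wq L P * dY L P (-z) ∧
      wq L (z - P) * dX L P z =
        -(wq L z + wq L P) * (dX L P (z - P) - dX L P z) - wq L z * dX L P z := by
  have := addP (z := -z) h3 h (by simpa using hz) (by
    rw [show -z + P = -(z - P) by ring]; simpa only [neg_mem_iff] using hs)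
  simp only [show -z + P = -(z - P) by ring, dX, wp, wq, L.weierstrassP_neg,
    L.derivWeierstrassP_neg] at this ⊢
  exact ⟨this.1, by linear_combination -this.2⟩

theorem dX_neg (L : PeriodPair) (P z : ℂ) : dX L P (-z) = dX L P z := by
  rw [dX, dX, wp, L.weierstrassP_neg]

theorem dX_ne (h : P ∉ L.lattice) (hz : z ∉ L.lattice) (hs : z + P ∉ L.lattice)
    (hd : z - P ∉ L.lattice) : dX L P z ≠ 0 := fun e => by
  rcases wp_eq h hz (sub_eq_zero.1 e).symm with e | e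
  exacts [hd e, hs e]

theorem nrm (h3 : 3 * P ∈ L.lattice) (h : P ∉ L.lattice) (hz : z ∉ L.lattice) :
    dY L P z * dY L P (-z) = -dX L P z ^ 3 := by
  rw [dY_neg]
  linear_combination -deu h3 h hz

theorem trP (h3 : 3 * P ∈ L.lattice) (h : P ∉ L.lattice) (hz : z ∉ L.lattice)
    (hs : z + P ∉ L.lattice) (hd : z - P ∉ L.lattice) :
    dX L P (z + P) * dY L P (-z) = wq L P * dX L P z ∧
      dY L P (z + P) * dY L P (-z) = wq L P ^ 2 ∧
      dY L P (-(z + P)) * dY L P (-z) = wq L P * dY L P z := by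
  obtain ⟨a, b⟩ := addP h3 h hz hs
  have x0 := dX_ne h hz hs hd
  have n := nrm h3 h hz
  have c := dY_neg L P z
  have c' := dY_neg L P (z + P)
  have d := wq_dY L P z
  have d' := wq_dY L P (z + P)
  have e1 : dX L P (z + P) * dY L P (-z) = wq L P * dX L P z :=
    mul_right_cancel₀ (pow_ne_zero 2 x0) (by linear_combination dY L P (-z) * a - wq L P * n)
  have e2 : dY L P (z + P) * dY L P (-z) = wq L P ^ 2 := mul_right_cancel₀ x0 (by
    rw [d, d'] at b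
    linear_combination dY L P (-z) / 2 * b - (dY L P z + dA L P * dX L P z) * e1 -
      wq L P * dX L P z * c)
  exact ⟨e1, e2, by
    linear_combination dY L P (-z) * c' - e2 - dA L P * e1 - wq L P * c⟩

theorem trM (h3 : 3 * P ∈ L.lattice) (h : P ∉ L.lattice) (hz : z ∉ L.lattice)
    (hs : z + P ∉ L.lattice) (hd : z - P ∉ L.lattice) :
    dX L P (z - P) * dY L P z = wq L P * dX L P z ∧
      dY L P (-(z - P)) * dY L P z = wq L P ^ 2 ∧
      dY L P (z - P) * dY L P z = wq L P * dY L P (-z) := by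
  have := trP (z := -z) h3 h (by simpa using hz)
    (by rw [show -z + P = -(z - P) by ring]; simpa only [neg_mem_iff] using hd)
    (by rw [show -z - P = -(z + P) by ring]; simpa only [neg_mem_iff] using hs)
  simpa only [show -z + P = -(z - P) by ring, dX_neg, neg_neg] using this

/-- a basis of the points of order three -/
structure Two (L : PeriodPair) (P Q : ℂ) : Prop where
  P3 : 3 * P ∈ L.lattice
  Q3 : 3 * Q ∈ L.lattice
  P0 : P ∉ L.lattice
  Q0 : Q ∉ L.lattice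
  ad : Q + P ∉ L.lattice
  sb : Q - P ∉ L.lattice

/-- a cube root of the second factor of the discriminant -/
noncomputable def dB (L : PeriodPair) (P Q : ℂ) : ℂ := dA L P + 3 * wq L P / dX L P Q

/-- the sum over the translates by `P` -/
noncomputable def s3 (F : ℂ → ℂ) (P z : ℂ) : ℂ := F z + F (z + P) + F (z - P)

/-- the values at the points of order three -/
structure Par (L : PeriodPair) (P Q e : ℂ) : Prop where
  he : e ^ 2 + e + 1 = 0
  yp : dY L P Q = -dX L P Q * (dA L P - e * dB L P Q) / 3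
  ym : dY L P (-Q) = -dX L P Q * (dA L P - e ^ 2 * dB L P Q) / 3
  xp : dX L P (Q + P) = (dB L P Q - dA L P) * (dA L P - e * dB L P Q) / 9
  xm : dX L P (Q - P) = (dB L P Q - dA L P) * (dA L P - e ^ 2 * dB L P Q) / 9
  q0 : wq L Q = -dX L P Q * (e ^ 2 - e) * dB L P Q / 3
  aq : dA L Q = -(e ^ 2 - e) * (dA L P + 2 * dB L P Q) / 3
  sq : s3 (wq L) P Q = (e ^ 2 - e) * dB L P Q ^ 3 / 9
  sd : s3 (fun z => 6 * wp L z ^ 2 - L.g₂ / 2) P Q = dA L P * dB L P Q ^ 3 / 3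

namespace Two

variable (h : Two L P Q)

include h

theorem x_ne : dX L P Q ≠ 0 := dX_ne h.P0 h.Q0 h.ad h.sb

theorem x_eq : dX L P Q = -(dA L P ^ 2 + dA L P * dB L P Q + dB L P Q ^ 2) / 9 ∧
    wq L P * 3 = (dB L P Q - dA L P) * dX L P Q := by
  have x0 := h.x_ne
  have e3 : wq L P * 3 = (dB L P Q - dA L P) * dX L P Q := by
    rw [dB]; field_simp; ring
  refine ⟨mul_left_cancel₀ (pow_ne_zero 3 x0) ?_, e3⟩
  have f : (6 * wp L Q ^ 2 - L.g₂ / 2) ^ 2 = 12 * wp L Q * wq L Q ^ 2 := by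
    rw [← flex h.Q3 h.Q0, dA, ← mul_pow, div_mul_cancel₀ _ (a3_ne h.Q3 h.Q0)]
  rw [wq_deu h.P3 h.P0 h.Q0, g2_eq h.P3 h.P0, show wp L Q = dX L P Q + wp L P by rw [dX]; ring,
    show wp L P = dA L P ^ 2 / 12 by linear_combination -flex h.P3 h.P0 / 12,
    show wq L P = (dB L P Q - dA L P) * dX L P Q / 3 by linear_combination e3 / 3] at f
  linear_combination -f / 12

theorem b_cube : dB L P Q ^ 3 = dA L P ^ 3 - 27 * wq L P := by
  obtain ⟨a, b⟩ := h.x_eq
  rw [a] at b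
  linear_combination 9 * b

theorem par : ∃ e : ℂ, Par L P Q e := by
  obtain ⟨ex, e3⟩ := h.x_eq
  have x0 := h.x_ne
  have c := deu h.P3 h.P0 h.Q0
  have cn := dY_neg L P Q
  have cq := wq_dY L P Q
  obtain ⟨p1, p2⟩ := addP h.P3 h.P0 h.Q0 h.ad
  obtain ⟨m1, m2⟩ := subP h.P3 h.P0 h.Q0 h.sb
  have g := g2_eq h.P3 h.P0
  have f := flex h.P3 h.P0
  have q0 := a3_ne h.Q3 h.Q0
  have w1 : wp L Q = dX L P Q + wp L P := by rw [dX]; ring
  have w2 : wp L (Q + P) = dX L P (Q + P) + wp L P := by rw [dX]; ring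
  have w3 : wp L (Q - P) = dX L P (Q - P) + wp L P := by rw [dX]; ring
  suffices ∃ e : ℂ, e ^ 2 + e + 1 = 0 ∧ dY L P Q = -dX L P Q * (dA L P - e * dB L P Q) / 3 ∧
      dY L P (-Q) = -dX L P Q * (dA L P - e ^ 2 * dB L P Q) / 3 ∧
      dX L P (Q + P) = (dB L P Q - dA L P) * (dA L P - e * dB L P Q) / 9 ∧
      dX L P (Q - P) = (dB L P Q - dA L P) * (dA L P - e ^ 2 * dB L P Q) / 9 ∧
      wq L Q = -dX L P Q * (e ^ 2 - e) * dB L P Q / 3 ∧
      6 * wp L Q ^ 2 - L.g₂ / 2 = -(e ^ 2 - e) * (dA L P + 2 * dB L P Q) / 3 * wq L Q ∧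
      s3 (wq L) P Q = (e ^ 2 - e) * dB L P Q ^ 3 / 9 ∧
      s3 (fun z => 6 * wp L z ^ 2 - L.g₂ / 2) P Q = dA L P * dB L P Q ^ 3 / 3 by
    obtain ⟨e, a1, a2, a3, a4, a5, a6, a7, a8, a9⟩ := this
    exact ⟨e, a1, a2, a3, a4, a5, a6, by rw [dA, div_eq_iff q0, a7], a8, a9⟩
  simp only [s3, w1, w2, w3, g]
  generalize dA L P = a at *
  generalize dB L P Q = b at *
  generalize dX L P Q = x at *
  generalize dY L P Q = y at *
  generalize dY L P (-Q) = y' at *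
  generalize dX L P (Q + P) = xp at *
  generalize dX L P (Q - P) = xm at *
  generalize wq L (Q + P) = qp at *
  generalize wq L (Q - P) = qm at *
  generalize wq L Q = q at *
  generalize wq L P = u at *
  generalize wp L P = p at *
  obtain ⟨e, he, ey⟩ : ∃ e : ℂ, e ^ 2 + e + 1 = 0 ∧ y = -x * (a - e * b) / 3 := by
    have z := zc3_spec
    have : (y + x * (a - zc3 * b) / 3) * (y + x * (a - zc3 ^ 2 * b) / 3) = 0 := by
      linear_combination c - y / 3 * e3 + x ^ 2 * ex +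
        (-x * y * b / 3 - x ^ 2 * a * b / 9 + x ^ 2 * b ^ 2 * (zc3 - 1) / 9) * z
    rcases mul_eq_zero.1 this with e | e
    · exact ⟨zc3, z, by linear_combination e⟩
    · exact ⟨zc3 ^ 2, by linear_combination (zc3 ^ 2 - zc3 + 1) * z,
        by linear_combination e⟩
  have eu : u = (b - a) * x / 3 := by linear_combination e3 / 3
  have ey' : y' = -x * (a - e ^ 2 * b) / 3 := by
    linear_combination cn - ey - eu - x * b / 3 * he
  have exp : xp = (b - a) * (a - e * b) / 9 :=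
    mul_left_cancel₀ (pow_ne_zero 2 x0) (by rw [ey, eu] at p1; linear_combination p1)
  have exm : xm = (b - a) * (a - e ^ 2 * b) / 9 :=
    mul_left_cancel₀ (pow_ne_zero 2 x0) (by rw [ey', eu] at m1; linear_combination m1)
  have eq : q = -x * (e ^ 2 - e) * b / 3 := by
    linear_combination cq + 2 * ey + eu + x * b / 3 * he
  have eqp : qp = (e ^ 2 - e) * b * (a - b) * (a - e * b) * e ^ 2 / 27 :=
    mul_right_cancel₀ x0 (by rw [p2, eq, eu, exp, ex]; clear * - he; grind)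
  have eqm : qm = (e ^ 2 - e) * b * (a - b) * (a - e ^ 2 * b) * e / 27 :=
    mul_right_cancel₀ x0 (by rw [m2, eq, eu, exm, ex]; clear * - he; grind)
  have ep : p = a ^ 2 / 12 := by linear_combination -f / 12
  refine ⟨e, he, ey, ey', exp, exm, eq, ?_, ?_, ?_⟩
  · rw [eq, eu, ep, ex]; clear * - he; grind
  · rw [eq, eqp, eqm, ex]; clear * - he; grind
  · rw [exp, exm, eu, ep, ex]; clear * - he; grind

theorem b_ne : dB L P Q ≠ 0 := fun e => a3_ne h.Q3 h.Q0 (by rw [h.par.choose_spec.q0, e]; ring)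

theorem b_six : dB L P Q ^ 6 = -27 * s3 (wq L) P Q ^ 2 := by
  obtain ⟨e, p⟩ := h.par
  have he := p.he
  rw [p.sq]
  clear * - he
  grind

end Two

theorem ex_rep3 (h3 : 3 * P ∈ L.lattice) (h : P ∉ L.lattice) :
    ∃ L' : PeriodPair, Rep L L' {0, P, -P} := by
  have h2 := two_not h3 h
  obtain ⟨L', e⟩ := ex_pair L (L.lattice ⊔ Submodule.span ℤ {P}) le_sup_left (N := 3)
    three_ne_zero (fun z hz => by
      obtain ⟨l, hl, y, hy, rfl⟩ := Submodule.mem_sup.1 hz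
      obtain ⟨i, rfl⟩ := Submodule.mem_span_singleton.1 hy
      have := add_mem (L.lattice.smul_mem 3 hl) (L.lattice.smul_mem i h3)
      convert this using 1
      simp only [zsmul_eq_mul]
      push_cast
      ring)
  have hP : P ∈ L'.lattice := e ▸ Submodule.mem_sup_right (Submodule.mem_span_singleton_self P)
  refine ⟨L', e ▸ le_sup_left, by simp [hP], fun y hy => ?_⟩
  refine existsUnique_of_exists_of_unique ?_ fun x x' ⟨a, b⟩ ⟨a', b'⟩ => ?_
  · rw [e] at hy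
    obtain ⟨l, hl, y', hy', rfl⟩ := Submodule.mem_sup.1 hy
    obtain ⟨i, rfl⟩ := Submodule.mem_span_singleton.1 hy'
    have key : ∀ j r : ℤ, i = 3 * j + r → l + i • P - r * P ∈ L.lattice := fun j r e => by
      convert add_mem hl (L.lattice.smul_mem j h3) using 1
      simp only [zsmul_eq_mul, e]
      push_cast
      ring
    obtain e | e | e : i = 3 * (i / 3) + 0 ∨ i = 3 * (i / 3) + 1 ∨ i = 3 * (i / 3 + 1) + -1 := by
      omega
    · exact ⟨0, by simp, by simpa using key _ _ e⟩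
    · exact ⟨P, by simp, by simpa using key _ _ e⟩
    · exact ⟨-P, by simp, by simpa using key _ _ e⟩
  · have d : x - x' ∈ L.lattice := by simpa using sub_mem b' b
    simp only [mem_insert, mem_singleton] at a a'
    rcases a with rfl | rfl | rfl <;> rcases a' with rfl | rfl | rfl <;>
      first | rfl | exact absurd (by simpa [← two_mul] using d) h |
        exact absurd (by simpa [two_mul] using d) h2 |
        exact absurd (by simpa [two_mul] using neg_mem d) h2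

theorem sum3 (h3 : 3 * P ∈ L.lattice) (h : P ∉ L.lattice) (F : ℂ → ℂ) :
    ∑ x ∈ ({0, P, -P} : Finset ℂ), F x = F 0 + F P + F (-P) := by
  have h0 : P ≠ 0 := by rintro rfl; exact h (zero_mem _)
  have h1 : P ≠ -P := fun e => two_not h3 h (by
    rw [show 2 * P = 0 by linear_combination e]; exact zero_mem _)
  rw [sum_insert (by simp [h0, h0.symm]), sum_pair h1, add_assoc]

end Pool.Agent.MP_e23604_nt.Un

end

section

/-!
Lattices with a point of order three and a point of order nine.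
-/

set_option autoImplicit false

open Filter Topology Finset
open scoped Classical

namespace Pool.Agent.MP_e23604_nt.Un

variable {L L' : PeriodPair} {P Q t s u z γ e : ℂ}

theorem third (L : PeriodPair) (m n : ℤ) :
    (m * L.ω₁ + n * L.ω₂) / 3 ∈ L.lattice ↔ (m : ZMod 3) = 0 ∧ (n : ZMod 3) = 0 := by
  have := L.mul_ω₁_add_mul_ω₂_mem_lattice (α := m / 3) (β := n / 3)
  rw [show ((m : ℚ) / 3) = (m : ℚ) / (3 : ℤ) by simp, show ((n : ℚ) / 3) = (n : ℚ) / (3 : ℤ) by simp,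
    Rat.den_div_intCast_eq_one_iff _ _ three_ne_zero,
    Rat.den_div_intCast_eq_one_iff _ _ three_ne_zero] at this
  rw [ZMod.intCast_zmod_eq_zero_iff_dvd, ZMod.intCast_zmod_eq_zero_iff_dvd]
  refine Iff.trans ?_ this
  push_cast
  rw [show (m * L.ω₁ + n * L.ω₂) / 3 = m / 3 * L.ω₁ + n / 3 * L.ω₂ by ring]

theorem Two.gen (h : Two L P Q) (hz : 3 * z ∈ L.lattice) :
    ∃ i j : ℤ, z - i * P - j * Q ∈ L.lattice := by
  obtain ⟨a, b, e1⟩ := PeriodPair.mem_lattice.1 h.P3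
  obtain ⟨c, d, e2⟩ := PeriodPair.mem_lattice.1 h.Q3
  obtain ⟨m, n, e3⟩ := PeriodPair.mem_lattice.1 hz
  have k1 := (third L a b).not.1 (by convert h.P0 using 2; linear_combination e1 / 3)
  have k2 := (third L c d).not.1 (by convert h.Q0 using 2; linear_combination e2 / 3)
  have k3 := (third L (c + a) (d + b)).not.1 (by
    convert h.ad using 2; push_cast; linear_combination e1 / 3 + e2 / 3)
  have k4 := (third L (c - a) (d - b)).not.1 (by
    convert h.sb using 2; push_cast; linear_combination -e1 / 3 + e2 / 3)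
  push_cast at k3 k4
  have key : ∀ a b c d m n : ZMod 3, ¬(a = 0 ∧ b = 0) → ¬(c = 0 ∧ d = 0) →
      ¬(c + a = 0 ∧ d + b = 0) → ¬(c - a = 0 ∧ d - b = 0) →
      ∃ i j : ZMod 3, m - i * a - j * c = 0 ∧ n - i * b - j * d = 0 := by decide +kernel
  obtain ⟨i, j, k⟩ := key _ _ _ _ m n k1 k2 k3 k4
  obtain ⟨i, rfl⟩ := ZMod.intCast_surjective i
  obtain ⟨j, rfl⟩ := ZMod.intCast_surjective j
  refine ⟨i, j, ?_⟩
  convert (third L (m - i * a - j * c) (n - i * b - j * d)).2 (by push_cast; exact k) using 1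
  push_cast
  linear_combination -e3 / 3 + i * e1 / 3 + j * e2 / 3

theorem Two.negQ (h : Two L P Q) : Two L P (-Q) :=
  ⟨h.P3, by simpa using h.Q3, h.P0, by simpa using h.Q0, by
    rw [show -Q + P = -(Q - P) by ring]; simpa only [neg_mem_iff] using h.sb, by
    rw [show -Q - P = -(Q + P) by ring]; simpa only [neg_mem_iff] using h.ad⟩

theorem Two.negP (h : Two L P Q) : Two L (-P) Q :=
  ⟨by simpa using h.P3, h.Q3, by simpa using h.P0, h.Q0, h.sb, by simpa using h.ad⟩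

theorem s3_neg (F : ℂ → ℂ) (P z : ℂ) : s3 F (-P) z = s3 F P z := by
  simp only [s3, sub_neg_eq_add, ← sub_eq_add_neg]; ring

theorem s3p_neg (L : PeriodPair) (P z : ℂ) : s3 (wp L) P (-z) = s3 (wp L) P z := by
  simp only [s3, show -z + P = -(z - P) by ring, show -z - P = -(z + P) by ring, wp,
    L.weierstrassP_neg]
  ring

theorem s3_x (h3 : 3 * P ∈ L.lattice) (h : P ∉ L.lattice) (hz : z ∉ L.lattice)
    (hs : z + P ∉ L.lattice) (hd : z - P ∉ L.lattice) :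
    (s3 (wp L) P z - 3 * wp L P) * dX L P z ^ 2 =
      dX L P z ^ 3 + wq L P * (dA L P * dX L P z + wq L P) := by
  have a := (addP h3 h hz hs).1
  have b := (subP h3 h hz hd).1
  have c := dY_neg L P z
  simp only [s3, dX] at *
  linear_combination a + b - wq L P * c

/-- a function that vanishes on a coset of points of order nine -/
noncomputable def dF (L : PeriodPair) (t γ z : ℂ) : ℂ :=
  dX L t z ^ 2 + γ * dY L t (-z) - γ ^ 2 * dX L t z

theorem dF_nrm (h3 : 3 * t ∈ L.lattice) (h : t ∉ L.lattice) (hγ : γ ^ 3 = wq L t)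
    (hz : z ∉ L.lattice) (hs : z + t ∉ L.lattice) (hd : z - t ∉ L.lattice) :
    dF L t γ z * dF L t γ (-z) =
      dX L t z ^ 3 * (s3 (wp L) t z - 3 * wp L t - dA L t * γ - 3 * γ ^ 2) := by
  have a := s3_x h3 h hz hs hd
  have b := nrm h3 h hz
  have c := dY_neg L t z
  rw [dF, dF, dX_neg, neg_neg]
  rw [← hγ] at a c
  linear_combination -dX L t z * a + γ ^ 2 * b + γ * (dX L t z ^ 2 - γ ^ 2 * dX L t z) * c

theorem dF_tr (h3 : 3 * t ∈ L.lattice) (h : t ∉ L.lattice) (hγ : γ ^ 3 = wq L t)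
    (hz : z ∉ L.lattice) (hs : z + t ∉ L.lattice) (hd : z - t ∉ L.lattice) :
    dF L t γ (z + t) * dY L t (-z) ^ 2 = -(γ * wq L t) * dX L t z * dF L t γ z := by
  obtain ⟨a, -, c⟩ := trP h3 h hz hs hd
  have b := nrm h3 h hz
  rw [dF, dF]
  rw [← hγ] at *
  linear_combination (dX L t (z + t) * dY L t (-z) + γ ^ 3 * dX L t z - γ ^ 2 * dY L t (-z)) * a +
    γ * dY L t (-z) * c + γ ^ 4 * b

theorem dF_s (h : Two L t s) (p : Par L t s e) (hγ : γ ^ 3 = wq L t) (hz : z ∉ L.lattice)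
    (hs : z + s ∉ L.lattice) (hd : z - s ∉ L.lattice) :
    dF L t γ (z - s) * dY L s z ^ 2 * dX L t z = dF L t γ (-s) * dF L t (e * γ) z *
      (dX L s z ^ 2 + (e ^ 2 * dA L t - e * dB L t s) / 3 * dY L s z) := by
  obtain ⟨a, b, c⟩ := trM h.Q3 h.Q0 hz hs hd
  have n := nrm h.Q3 h.Q0 hz
  have he := p.he
  have e1 : dX L t (z - s) = dX L s (z - s) + dX L t s := by simp only [dX]; ring
  have e2 : dX L t z = dX L s z + dX L t s := by simp only [dX]; ring
  have e3 : ∀ w, dY L t (-w) = (-dA L t * dX L t w - wq L t - (dY L s w - dY L s (-w))) / 2 :=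
    fun w => by
      linear_combination dY_neg L t w - dY_neg L s w / 2 + wq_dY L t w / 2 - wq_dY L s w / 2
  have e4 : wq L t = (dA L t / 3) ^ 3 - (dB L t s / 3) ^ 3 := by linear_combination h.b_cube / 27
  have key := alg_s (U := dY L s z) (V := dY L s (-z)) (g := γ) (x := dX L s z) (A := dA L t / 3)
    (B := dB L t s / 3) (x0 := dX L t s) (p := wq L s) he (hγ.trans e4)
    (by linear_combination h.x_eq.1)
    (by linear_combination p.q0 - dX L t s * dB L t s / 3 * he)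
    (by rw [dY_neg, p.aq]; linear_combination (dA L t + 2 * dB L t s) / 3 * dX L s z * he) n
  rw [← e4] at key
  have f1 : dX L t (z - s) * dY L s z = dX L t s * dY L s z + wq L s * dX L s z := by
    linear_combination dY L s z * e1 + a
  have f2 : dY L t (-(z - s)) * dY L s z = (-dA L t * (dX L t s * dY L s z + wq L s * dX L s z) -
      wq L t * dY L s z - wq L s * (dY L s (-z) - wq L s)) / 2 := by
    rw [e3]
    linear_combination -dA L t / 2 * f1 - c / 2 + b / 2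
  simp only [dF, dX_neg, neg_neg]
  rw [e3 z, p.yp, e2]
  linear_combination key + (dX L s z + dX L t s) * ((dX L t (z - s) * dY L s z +
    (dX L t s * dY L s z + wq L s * dX L s z) - γ ^ 2 * dY L s z) * f1 + γ * dY L s z * f2)

theorem dF_ss (h : Two L t s) (p : Par L t s e) (hγ : γ ^ 3 = wq L t) (hz : z ∉ L.lattice)
    (hs : z + s ∉ L.lattice) (hd : z - s ∉ L.lattice) (hs' : z + t ∉ L.lattice)
    (hd' : z - t ∉ L.lattice) :
    dF L t γ (z - s) * dF L t γ (-z - s) * dX L s z ^ 4 = dF L t γ (-s) ^ 2 * dX L (s - t) z *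
      dX L t z ^ 2 * (s3 (wp L) t z - 3 * wp L t - dA L t * (e * γ) - 3 * (e * γ) ^ 2) := by
  have he := p.he
  have a := dF_s h p hγ hz hs hd
  have b := dF_s (z := -z) h p hγ (by simpa using hz)
    (by rw [show -z + s = -(z - s) by ring]; simpa only [neg_mem_iff] using hd)
    (by rw [show -z - s = -(z + s) by ring]; simpa only [neg_mem_iff] using hs)
  have c := dF_nrm (γ := e * γ) h.P3 h.P0
    (by linear_combination hγ + γ ^ 3 * (e - 1) * he) hz hs' hd'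
  have n := nrm h.Q3 h.Q0 hz
  have n' := dY_neg L s z
  have x1 := dX_ne h.Q0 hz hs hd
  have x2 := dX_ne h.P0 hz hs' hd'
  have e1 : dX L (s - t) z = dX L s z + dX L t s - dX L t (s - t) := by simp only [dX]; ring
  have e2 : dX L t z = dX L s z + dX L t s := by simp only [dX]; ring
  have g : (dX L s z ^ 2 + (e ^ 2 * dA L t - e * dB L t s) / 3 * dY L s z) *
      (dX L s z ^ 2 + (e ^ 2 * dA L t - e * dB L t s) / 3 * dY L s (-z)) =
      dX L s z ^ 2 * dX L t z * dX L (s - t) z := by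
    have : (dX L s z + dX L t s) * (dX L s z + dX L t s - dX L t (s - t)) = dX L s z ^ 2 -
        (e ^ 2 * dA L t - e * dB L t s) / 3 * (dA L s * dX L s z + wq L s) -
        ((e ^ 2 * dA L t - e * dB L t s) / 3) ^ 2 * dX L s z := by
      rw [p.aq, p.q0, p.xm, h.x_eq.1]
      clear * - he
      grind
    rw [e1, e2]
    linear_combination -dX L s z ^ 2 * this + ((e ^ 2 * dA L t - e * dB L t s) / 3) ^ 2 * n +
      (e ^ 2 * dA L t - e * dB L t s) / 3 * dX L s z ^ 2 * n'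
  rw [dX_neg, dX_neg] at b
  refine mul_right_cancel₀ (mul_ne_zero (pow_ne_zero 2 x1) (pow_ne_zero 2 x2)) ?_
  have m := congrArg₂ (· * ·) a b
  calc _ = dF L t γ (z - s) * dF L t γ (-z - s) * (dY L s z * dY L s (-z)) ^ 2 *
        dX L t z ^ 2 := by rw [n]; ring
    _ = dF L t γ (-s) ^ 2 * (dF L t (e * γ) z * dF L t (e * γ) (-z)) *
        (dX L s z ^ 2 * dX L t z * dX L (s - t) z) := by rw [← g]; linear_combination m
    _ = _ := by rw [c]; ring

/-- `γ` is the cube root attached to `u` -/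
def Gam (L : PeriodPair) (t u γ : ℂ) : Prop :=
  γ ^ 3 = wq L t ∧ s3 (wp L) t u - 3 * wp L t = dA L t * γ + 3 * γ ^ 2

/-- a formula for the cube root -/
noncomputable def oG (L : PeriodPair) (t u : ℂ) : ℂ :=
  (dA L t ^ 2 * (s3 (wp L) t u - 3 * wp L t) - 3 * (s3 (wp L) t u - 3 * wp L t) ^ 2 +
    18 * dA L t * wq L t) / (dA L t ^ 3 - 27 * wq L t)

theorem Gam.eq (g : Gam L t u γ) (h : Two L t s) : oG L t u = γ := by
  rw [oG, div_eq_iff (h.b_cube ▸ pow_ne_zero 3 h.b_ne), g.2, ← g.1]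
  ring

theorem ex_der (h : Rep L L' {0, t, -t}) (h3 : 3 * t ∈ L.lattice) (h0 : t ∉ L.lattice) :
    (∀ z, wp L' z = s3 (wp L) t z - 2 * wp L t) ∧ (∀ z, wq L' z = s3 (wq L) t z) ∧
    ∀ z, z ∉ L'.lattice →
      6 * wp L' z ^ 2 - L'.g₂ / 2 = s3 (fun z => 6 * wp L z ^ 2 - L.g₂ / 2) t z := by
  have e2 : ∀ z, wq L' z = s3 (wq L) t z := fun z => by
    rw [h.wq_eq, sum3 h3 h0, s3, add_zero, sub_eq_add_neg]
  refine ⟨fun z => ?_, e2, fun z hz => ?_⟩
  · rw [h.wp_eq, sum3 h3 h0, s3, add_zero, sub_eq_add_neg z, wp, L.weierstrassP_neg,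
      L.weierstrassP_zero]
    ring
  · have a0 := hd_q (fun e => hz (h.le e))
    have a1 := (hd_q (h.notMem hz (x := t) (by simp))).comp_add_const z t
    have a2 := (hd_q (h.notMem hz (x := -t) (by simp))).comp_add_const z (-t)
    refine (hd_q hz).unique (((a0.add a1).add a2).congr_of_eventuallyEq (.of_forall fun w => ?_))
    rw [e2]
    rfl

theorem rep3_mem (h : Rep L L' {0, t, -t}) :
    z ∈ L'.lattice ↔ z ∈ L.lattice ∨ z - t ∈ L.lattice ∨ z + t ∈ L.lattice := by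
  have ht := h.mem t (by simp)
  refine ⟨fun hz => ?_, ?_⟩
  · obtain ⟨x, ⟨a, b⟩, -⟩ := h.uni z hz
    simp only [mem_insert, mem_singleton] at a
    rcases a with rfl | rfl | rfl
    exacts [Or.inl (by simpa using b), Or.inr (Or.inl b), Or.inr (Or.inr (by simpa using b))]
  · rintro (a | a | a)
    exacts [h.le a, by simpa using add_mem (h.le a) ht, by simpa using sub_mem (h.le a) ht]

theorem rep3_three (h : Rep L L' {0, t, -t}) (h3 : 3 * t ∈ L.lattice) (hz : z ∈ L'.lattice) :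
    3 * z ∈ L.lattice := by
  have k : ∀ w ∈ L.lattice, 3 * w ∈ L.lattice := fun w hw => by
    simpa using L.lattice.smul_mem 3 hw
  rcases (rep3_mem h).1 hz with a | a | a
  · exact k _ a
  · simpa [mul_sub] using add_mem (k _ a) h3
  · simpa [mul_add] using sub_mem (k _ a) h3

/-- the data of the isogenous lattice -/
theorem flip (h : Two L (3 * u) s) (p : Par L (3 * u) s e) (r : Rep L L' {0, 3 * u, -(3 * u)}) :
    Two L' s u ∧ dA L' s = -(e ^ 2 - e) * dA L (3 * u) ∧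
    (∀ z, s3 (wp L') s z - 2 * wp L' s = 9 * wp L (3 * z)) ∧
    Gam L' (-s) (-s / 3) ((e ^ 2 - e) * dB L (3 * u) s / 3) ∧ ∃ γ, dB L' s u = -3 * (e ^ 2 - e) * γ ∧
      Par L' s u (e ^ 2) ∧ Gam L (3 * u) u γ ∧ Gam L (3 * u) (u + s) (e * γ) ∧
        Gam L (3 * u) (u - s) (e ^ 2 * γ) := by
  have he := p.he
  have T : Two L' s u := ⟨r.le h.Q3, r.mem _ (by simp), fun a => by
      rcases (rep3_mem r).1 a with a | a | a
      exacts [h.Q0 a, h.sb a, h.ad a], fun a => h.P0 (rep3_three r h.P3 a),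
    fun a => h.P0 (by simpa [mul_add] using sub_mem (rep3_three r h.P3 a) h.Q3),
    fun a => h.P0 (by simpa [mul_sub] using add_mem (rep3_three r h.P3 a) h.Q3)⟩
  obtain ⟨L2, r2⟩ := ex_rep3 T.P3 T.P0
  have S : Sc 3 L2 L := ⟨three_ne_zero, fun z => ⟨fun hz => ?_, fun hz => ?_⟩⟩
  rotate_left
  · obtain ⟨i, j, k⟩ := h.gen hz
    have := add_mem (add_mem (r2.le (r.le k)) (L2.lattice.smul_mem i (r2.le T.Q3)))
      (L2.lattice.smul_mem j (r2.mem s (by simp)))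
    convert this using 1
    simp only [zsmul_eq_mul]
    ring
  · rcases (rep3_mem r2).1 hz with a | a | a
    · exact rep3_three r h.P3 a
    · simpa [mul_sub] using add_mem (rep3_three r h.P3 a) h.Q3
    · simpa [mul_add] using sub_mem (rep3_three r h.P3 a) h.Q3
  obtain ⟨d1, d2, d3⟩ := ex_der r h.P3 h.P0
  obtain ⟨f1, f2, -⟩ := ex_der r2 T.P3 T.P0
  have b0 := h.b_ne
  have th : (e ^ 2 - e) ^ 2 = -3 := by linear_combination (e ^ 2 - 3 * e + 3) * he
  have t0 : e ^ 2 - e ≠ 0 := fun a => by rw [a] at th; norm_num at th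
  have q1 : wq L' s = (e ^ 2 - e) * dB L (3 * u) s ^ 3 / 9 := by rw [d2, p.sq]
  have a1 : dA L' s = -(e ^ 2 - e) * dA L (3 * u) := by
    rw [dA, div_eq_iff (a3_ne T.P3 T.P0), d3 s T.P0, p.sd, q1]
    linear_combination dA L (3 * u) * dB L (3 * u) s ^ 3 / 9 * th
  have w2 : ∀ z, s3 (wp L') s z - 2 * wp L' s = 9 * wp L (3 * z) := fun z => by
    rw [← f1, S.wp_mul]; ring
  have p1 : wp L' s = -dA L (3 * u) ^ 2 / 4 := by
    have := flex T.P3 T.P0
    rw [a1] at this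
    linear_combination -this / 12 + dA L (3 * u) ^ 2 / 12 * th
  have p0 : wp L (3 * u) = dA L (3 * u) ^ 2 / 12 := by linear_combination -flex h.P3 h.P0 / 12
  obtain ⟨γ, hγ⟩ : ∃ γ, dB L' s u = -3 * (e ^ 2 - e) * γ :=
    ⟨_, (mul_div_cancel₀ _ (mul_ne_zero (by norm_num) t0)).symm⟩
  have g3 : γ ^ 3 = wq L (3 * u) := mul_left_cancel₀ t0 (by
    have := T.b_cube
    rw [hγ, a1, q1, h.b_cube] at this
    linear_combination this / 81 + (e ^ 2 - e) * (γ ^ 3 / 3 - dA L (3 * u) ^ 3 / 81) * th)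
  obtain ⟨e', p'⟩ := T.par
  have ee : e' = e ^ 2 := by
    have a := p'.sq
    rw [← f2, hγ, show wq L2 u = 27 * γ ^ 3 by rw [g3, S.wq_mul]; ring] at a
    have g0 : γ ^ 3 ≠ 0 := g3 ▸ a3_ne h.P3 h.P0
    have : (e' ^ 2 - e') * (e ^ 2 - e) = 3 := mul_right_cancel₀ g0 (by
      linear_combination -a / 9 + (e' ^ 2 - e') * (e ^ 2 - e) * γ ^ 3 / 3 * th)
    exact mul_left_cancel₀ t0 (by
      linear_combination -this / 2 + (e ^ 2 - e) / 2 * p'.he - (e ^ 2 - 2 * e + 3 / 2) * he)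
  subst ee
  have x0 := T.x_eq.1
  have xp := p'.xp
  have xm := p'.xm
  rw [dX, d1, a1, hγ, p1] at x0 xp xm
  refine ⟨T, a1, w2, ⟨?_, ?_⟩, γ, hγ, p', ⟨g3, ?_⟩, ⟨?_, ?_⟩, ⟨?_, ?_⟩⟩
  · rw [wq, L'.derivWeierstrassP_neg, ← wq, q1]
    linear_combination (e ^ 2 - e) * dB L (3 * u) s ^ 3 / 27 * th
  · have := h.x_eq.1
    rw [dX, p0] at this
    rw [s3_neg, dA_neg, a1, wp, L'.weierstrassP_neg, ← wp, ← sub_eq_zero, eq_add_of_sub_eq (w2 _),
      show 3 * (-s / 3) = -s by ring, wp, L.weierstrassP_neg, ← wp, p1]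
    linear_combination 9 * this - (dA L (3 * u) * dB L (3 * u) s + dB L (3 * u) s ^ 2) / 3 * th
  · rw [p0] at *
    linear_combination x0 - (dA L (3 * u) ^ 2 / 9 + dA L (3 * u) * γ / 3 + γ ^ 2) * th
  · linear_combination g3 + γ ^ 3 * (e - 1) * he
  · rw [p0] at *
    linear_combination xp - (3 * γ - dA L (3 * u)) * (3 * e ^ 2 * γ - dA L (3 * u)) / 9 * th -
      dA L (3 * u) * γ * he
  · linear_combination g3 + γ ^ 3 * (e ^ 3 + 1) * (e - 1) * he
  · rw [p0] at *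
    linear_combination xm - (3 * γ - dA L (3 * u)) * (3 * e ^ 4 * γ - dA L (3 * u)) / 9 * th -
      dA L (3 * u) * γ * (e ^ 2 - e + 1) * he

end Pool.Agent.MP_e23604_nt.Un

end

section

/-!
Product formulas for isogenies of degree prime to three.
-/

set_option autoImplicit false

open Filter Topology Finset
open scoped Classical

namespace Pool.Agent.MP_e23604_nt.Un

variable {L L' L'' : PeriodPair} {P t s u z w γ e : ℂ} {X Y Z : Finset ℂ} {F : ℂ → ℂ}

/-- a product of differences -/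
noncomputable def KP (L : PeriodPair) (X : Finset ℂ) (z : ℂ) : ℂ :=
  ∏ x ∈ X with x ∉ L.lattice, (wp L z - wp L x)

/-- the same product for the isogenous lattice -/
noncomputable def KQ (L : PeriodPair) (t : ℂ) (X : Finset ℂ) (z : ℂ) : ℂ :=
  ∏ x ∈ X with x ∉ L.lattice, (s3 (wp L) t z - s3 (wp L) t x)

/-- the index is prime to three -/
def Cop (L L' : PeriodPair) : Prop := ∀ z ∈ L'.lattice, 3 * z ∈ L.lattice → z ∈ L.lattice

theorem Two.up (h : Two L P w) (r : Rep L L' X) (c : Cop L L') : Two L' P w :=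
  ⟨r.le h.P3, r.le h.Q3, fun a => h.P0 (c _ a h.P3), fun a => h.Q0 (c _ a h.Q3),
    fun a => h.ad (c _ a (by rw [mul_add]; exact add_mem h.Q3 h.P3)),
    fun a => h.sb (c _ a (by rw [mul_sub]; exact sub_mem h.Q3 h.P3))⟩

theorem prod3 (h3 : 3 * P ∈ L.lattice) (h : P ∉ L.lattice) (hz : z ∉ L.lattice)
    (hz1 : z + P ∉ L.lattice) (hz2 : z - P ∉ L.lattice) (hw : w ∉ L.lattice)
    (hw1 : w + P ∉ L.lattice) (hw2 : w - P ∉ L.lattice) :
    (wp L z - wp L w) * (wp L (z + P) - wp L w) * (wp L (z - P) - wp L w) =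
      (wp L P - wp L w) ^ 2 * (s3 (wp L) P z - s3 (wp L) P w) := by
  obtain ⟨L', r⟩ := ex_rep3 h3 h
  have e := r.prod_p (z := z) (w := w) (by rw [rep3_mem r]; tauto) (by rw [rep3_mem r]; tauto)
  have h0 : P ≠ 0 := by rintro rfl; exact h (zero_mem _)
  have h1 : P ≠ -P := fun e => two_not h3 h (by
    rw [show 2 * P = 0 by linear_combination e]; exact zero_mem _)
  rw [prod_filter, prod_insert (by simp [h0, h0.symm]), prod_pair h1,
    prod_insert (by simp [h0, h0.symm]), prod_pair h1, if_neg (by simp), if_pos h,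
    if_pos (by simpa using h), (ex_der r h3 h).1, (ex_der r h3 h).1, add_zero, ← sub_eq_add_neg, wp,
    L.weierstrassP_neg] at e
  linear_combination e

namespace Rep

variable (h : Rep L L' X)

include h

theorem prod_map {ι : Type} {I : Finset ι} {φ : ι → ℂ} (p : ∀ z, ∀ l ∈ L.lattice, F (z + l) = F z)
    (h1 : ∀ i ∈ I, φ i ∈ L'.lattice) (h2 : ∀ i ∈ I, ∀ j ∈ I, φ i - φ j ∈ L.lattice → i = j)
    (h3 : #X ≤ #I ∨ ∀ x ∈ X, ∃ i ∈ I, φ i - x ∈ L.lattice) : ∏ i ∈ I, F (φ i) = ∏ x ∈ X, F x := by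
  choose! r hr using fun i (hi : i ∈ I) => (h.uni (φ i) (h1 i hi)).exists
  have inj : ∀ i ∈ I, ∀ j ∈ I, r i = r j → i = j := fun i hi j hj e => h2 i hi j hj (by
    have := sub_mem (hr i hi).2 (hr j hj).2
    rwa [e, sub_sub_sub_cancel_right] at this)
  refine prod_bij (fun x _ => r x) (fun x hx => (hr x hx).1) inj (fun y hy => ?_) fun x hx => ?_
  · rcases h3 with h3 | h3
    · obtain ⟨x, hx, e⟩ := surj_on_of_inj_on_of_card_le (fun x _ => r x) (fun x hx => (hr x hx).1)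
        (fun x y hx hy e => inj x hx y hy e) h3 y hy
      exact ⟨x, hx, e.symm⟩
    · obtain ⟨i, hi, e⟩ := h3 y hy
      exact ⟨i, hi, (h.uni _ (h1 i hi)).unique (hr i hi) ⟨hy, e⟩⟩
  · rw [← p (r x) _ (hr x hx).2]
    congr 1
    ring

theorem inj {x y : ℂ} (hx : x ∈ X) (hy : y ∈ X) (e : x - y ∈ L.lattice) : x = y :=
  (h.uni x (h.mem x hx)).unique ⟨hx, by simp⟩ ⟨hy, e⟩

theorem prod_smul (p : ∀ z, ∀ l ∈ L.lattice, F (z + l) = F z) (c : ℤ)
    (hc : ∀ z ∈ L'.lattice, c * z ∈ L.lattice → z ∈ L.lattice) :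
    ∏ x ∈ X with x ∉ L.lattice, F (c * x) = ∏ x ∈ X with x ∉ L.lattice, F x := by
  have := h.prod_map (F := fun z => if z ∉ L.lattice then F z else 1) (I := X)
    (φ := fun x => c * x) (fun z l hl => by simp only [p z l hl, L.lattice.add_mem_iff_left hl])
    (fun x hx => by simpa using L'.lattice.smul_mem c (h.mem x hx))
    (fun x hx y hy e => h.inj hx hy (hc _ (sub_mem (h.mem x hx) (h.mem y hy)) (by rwa [mul_sub])))
    (Or.inl le_rfl)
  rw [prod_filter, prod_filter, ← this]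
  refine prod_congr rfl fun x hx => if_congr (not_congr ⟨fun a => ?_, hc x (h.mem x hx)⟩) rfl rfl
  simpa using L.lattice.smul_mem c a

theorem prod_neg (p : ∀ z, ∀ l ∈ L.lattice, F (z + l) = F z) :
    ∏ x ∈ X with x ∉ L.lattice, F (-x) = ∏ x ∈ X with x ∉ L.lattice, F x := by
  simpa using h.prod_smul p (-1) (by simp)

theorem prod_sq (p : ∀ z, ∀ l ∈ L.lattice, F (z + l) = F z) :
    (∏ x ∈ X with x ∉ L.lattice, F x) ^ 2 = ∏ x ∈ X with x ∉ L.lattice, F x * F (-x) := by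
  rw [prod_mul_distrib, h.prod_neg p, sq]

theorem card_nz : #X = #{x ∈ X | x ∉ L.lattice} + 1 := by
  obtain ⟨x0, ⟨h1, h2⟩, h3⟩ := h.uni 0 (zero_mem _)
  rw [← card_erase_add_one h1]
  congr 2
  ext x
  simp only [mem_erase, mem_filter]
  exact ⟨fun ⟨a, b⟩ => ⟨b, fun e => a (h3 x ⟨b, by simpa using e⟩)⟩,
    fun ⟨a, b⟩ => ⟨fun e => b (by simpa [e] using h2), a⟩⟩

theorem prod_tr (h' : Rep L' L'' Y) (h'' : Rep L L'' Z)
    (p : ∀ z, ∀ l ∈ L.lattice, F (z + l) = F z) :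
    ∏ x ∈ Z, F x = ∏ y ∈ Y, ∏ x ∈ X, F (y + x) := by
  rw [← prod_product']
  refine (h''.prod_map (φ := fun q : ℂ × ℂ => q.1 + q.2) p (fun q hq => add_mem
    (h'.mem _ (mem_product.1 hq).1) (h'.le (h.mem _ (mem_product.1 hq).2))) (fun q hq r hr e => ?_)
    (Or.inr fun x hx => ?_)).symm
  · obtain ⟨a, b⟩ := mem_product.1 hq
    obtain ⟨c, d⟩ := mem_product.1 hr
    have e1 : q.1 = r.1 := h'.inj a c (by
      convert add_mem (sub_mem (h.le e) (h.mem _ b)) (h.mem _ d) using 1; ring)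
    exact Prod.ext e1 (h.inj b d (by simpa [e1] using e))
  · obtain ⟨y, ⟨a, b⟩, -⟩ := h'.uni x (h''.mem x hx)
    obtain ⟨v, ⟨c, d⟩, -⟩ := h.uni _ b
    exact ⟨(y, v), mem_product.2 ⟨a, c⟩, by convert neg_mem d using 1; ring⟩

theorem KP_ne (hz : z ∉ L'.lattice) : KP L X z ≠ 0 := prod_ne_zero_iff.2 fun x hx e => by
  obtain ⟨a, b⟩ := mem_filter.1 hx
  rcases Un.wp_eq b (fun e => hz (h.le e)) (sub_eq_zero.1 e).symm with e | e
  · exact hz (by simpa using add_mem (h.le e) (h.mem x a))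
  · exact hz (by simpa using sub_mem (h.le e) (h.mem x a))

theorem prod_p' (hz : z ∉ L'.lattice) (hw : w ∉ L'.lattice) :
    ∏ x ∈ X, (wp L w - wp L (z + x)) = KP L X w * (wp L' w - wp L' z) := by
  have e := h.prod_p hz hw
  have a : ∏ x ∈ X, (wp L w - wp L (z + x)) = (-1) ^ #X * ∏ x ∈ X, (wp L (z + x) - wp L w) := by
    rw [← Finset.prod_neg]; simp
  have b : KP L X w = (-1) ^ #{x ∈ X | x ∉ L.lattice} *
      ∏ x ∈ X with x ∉ L.lattice, (wp L x - wp L w) := by rw [← Finset.prod_neg, KP]; simp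
  rw [a, b, e, h.card_nz]
  ring

theorem KP_tr (h' : Rep L' L'' Y) (h'' : Rep L L'' Z) (hz : z ∉ L''.lattice) :
    KP L Z z = KP L X z ^ #Y * KP L' Y z := by
  have p : ∀ w, ∀ l ∈ L.lattice, (if w + l ∉ L.lattice then wp L z - wp L (w + l) else 1) =
      if w ∉ L.lattice then wp L z - wp L w else 1 := fun w l hl => by
    simp only [wp_per hl, L.lattice.add_mem_iff_left hl]
  rw [KP, prod_filter,
    h.prod_tr (F := fun w => if w ∉ L.lattice then wp L z - wp L w else 1) h' h'' p, KP, KP, prod_filter, prod_filter, ← prod_const,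
    ← prod_mul_distrib]
  refine prod_congr rfl fun y hy => ?_
  by_cases a : y ∈ L'.lattice
  · simpa [a] using h.prod_per (F := fun w => if w ∉ L.lattice then wp L z - wp L w else 1) p 0 a
  · rw [if_pos a, ← prod_filter (p := fun x => x ∉ L.lattice), ← KP,
      ← h.prod_p' a fun e => hz (h'.le e)]
    exact prod_congr rfl fun x hx => if_pos (h.notMem a hx)

theorem nz {x : ℂ} (hx : x ∈ X) (hz : z ∉ L'.lattice) :
    x + z ∉ L.lattice ∧ x - z ∉ L.lattice :=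
  ⟨add_comm x z ▸ h.notMem hz hx, by
    rw [sub_eq_neg_add]; exact h.notMem (by simpa using hz) hx⟩

theorem KQ_eq (h3 : 3 * t ∈ L.lattice) (ht : t ∉ L'.lattice) (hz : z ∉ L.lattice)
    (hz1 : z + t ∉ L.lattice) (hz2 : z - t ∉ L.lattice) :
    KQ L t X z * KP L X t ^ 2 = KP L X z * KP L X (z + t) * KP L X (z - t) := by
  simp only [KP, KQ, ← prod_pow, ← prod_mul_distrib]
  refine prod_congr rfl fun x hx => ?_
  obtain ⟨a, b⟩ := mem_filter.1 hx
  rw [prod3 h3 (fun e => ht (h.le e)) hz hz1 hz2 b (h.nz a ht).1 (h.nz a ht).2, mul_comm]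

theorem KQ_ne (h3 : 3 * t ∈ L.lattice) (ht : t ∉ L'.lattice) (hz : z ∉ L'.lattice)
    (hz1 : z + t ∉ L'.lattice) (hz2 : z - t ∉ L'.lattice) : KQ L t X z ≠ 0 := fun e => by
  have := h.KQ_eq h3 ht (fun e => hz (h.le e)) (fun e => hz1 (h.le e)) fun e => hz2 (h.le e)
  rw [e, zero_mul] at this
  exact mul_ne_zero (mul_ne_zero (h.KP_ne hz) (h.KP_ne hz1)) (h.KP_ne hz2) this.symm

theorem KQ_tr (h' : Rep L' L'' Y) (h'' : Rep L L'' Z) (h3 : 3 * t ∈ L.lattice)
    (ht : t ∉ L''.lattice) (hz : z ∉ L''.lattice) (hz1 : z + t ∉ L''.lattice)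
    (hz2 : z - t ∉ L''.lattice) : KQ L t Z z = KQ L t X z ^ #Y * KQ L' t Y z := by
  have k : ∀ {w}, w ∉ L''.lattice → w ∉ L'.lattice := fun a e => a (h'.le e)
  have k' : ∀ {w}, w ∉ L''.lattice → w ∉ L.lattice := fun a e => a (h''.le e)
  refine mul_right_cancel₀ (pow_ne_zero 2 (h''.KP_ne ht)) ?_
  rw [h''.KQ_eq h3 ht (k' hz) (k' hz1) (k' hz2), h.KP_tr h' h'' ht, h.KP_tr h' h'' hz,
    h.KP_tr h' h'' hz1, h.KP_tr h' h'' hz2]
  have a := congrArg (· ^ #Y) (h.KQ_eq h3 (k ht) (k' hz) (k' hz1) (k' hz2))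
  have b := h'.KQ_eq (h.le h3) ht (k hz) (k hz1) (k hz2)
  simp only [mul_pow] at a
  simp only [← pow_mul, mul_comm 2] at a
  linear_combination -(KP L' Y z * KP L' Y (z + t) * KP L' Y (z - t)) * a -
    KQ L t X z ^ #Y * KP L X t ^ (#Y * 2) * b

theorem tr_y (h3 : 3 * P ∈ L.lattice) (hP : P ∉ L'.lattice) :
    (∏ x ∈ X with x ∉ L.lattice, dY L P x) * wq L' P = wq L P ^ #X ∧
      (∏ x ∈ X with x ∉ L.lattice, dY L P x) ^ 2 = KP L X P ^ 3 := by
  have h0 : P ∉ L.lattice := fun e => hP (h.le e)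
  have p := (pole_y L P).per
  have e2 : (∏ x ∈ X with x ∉ L.lattice, dY L P x) ^ 2 = KP L X P ^ 3 := by
    rw [h.prod_sq p, KP, ← prod_pow]
    exact prod_congr rfl fun x hx => by rw [nrm h3 h0 (mem_filter.1 hx).2, dX]; ring
  refine ⟨?_, e2⟩
  have e := h.prod_y (z := -P) (P := P) (by simpa using hP) (two_not (h.le h3) hP)
  rw [h.split p, dY_negP, dY_negP] at e
  have n0 : ∏ x ∈ X with x ∉ L.lattice, dY L P x ≠ 0 := fun a =>
    pow_ne_zero 3 (h.KP_ne hP) (by rw [← e2, a]; ring)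
  have e3 : (∏ x ∈ X with x ∉ L.lattice, dY L P (-P + x)) * ∏ x ∈ X with x ∉ L.lattice, dY L P x =
      wq L P ^ #{x ∈ X | x ∉ L.lattice} * ∏ x ∈ X with x ∉ L.lattice, dY L P x := by
    rw [← prod_mul_distrib, ← h.prod_neg p, ← prod_const, ← prod_mul_distrib]
    refine prod_congr rfl fun x hx => ?_
    obtain ⟨a, b⟩ := mem_filter.1 hx
    rw [neg_add_eq_sub, (trM h3 h0 b (h.nz a hP).1 (h.nz a hP).2).2.2]
  rw [mul_right_cancel₀ n0 e3] at e
  rw [h.card_nz]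
  linear_combination e

end Rep

theorem pole_x (L : PeriodPair) (P : ℂ) : Pole L 2 (dX L P) 1 :=
  ((pole_p L).lin (Pole.const (L := L) 1).up.up 1 (-wp L P)).congr (fun z => by rw [dX]; ring)
    (by ring)

theorem pole_F (L : PeriodPair) (t γ : ℂ) : Pole L 4 (dF L t γ) 1 :=
  ((((pole_x L t).mul (pole_x L t)).lin (pole_y L t).neg.up 1 γ).lin (pole_x L t).up.up 1
    (-γ ^ 2)).congr (fun z => by rw [dF]; ring) (by ring)

theorem dF_negt (L : PeriodPair) (t γ : ℂ) : dF L t γ (-t) = 0 := by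
  simp [dF, dX_neg, dY_self, dX]

theorem Rep.tr_F (h : Rep L L' X) (T : Two L' t s) (h3 : 3 * t ∈ L.lattice) (g : Gam L t u γ)
    (hu : u ∉ L'.lattice) (hu1 : u + t ∉ L'.lattice) (hu2 : u - t ∉ L'.lattice) :
    ∃ γ', Gam L' t u γ' ∧ γ' ^ 2 * KP L X t = γ ^ (2 * #X) ∧
      (∏ x ∈ X with x ∉ L.lattice, dF L t γ x) ^ 2 = KP L X t ^ 3 * KQ L t X u ∧
      ∀ z, z ∉ L'.lattice → ∏ x ∈ X, dF L t γ (z + x) =
        (∏ x ∈ X with x ∉ L.lattice, dF L t γ x) * dF L' t γ' z := by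
  have h0 : t ∉ L.lattice := fun e => T.P0 (h.le e)
  have p := pole_F L t γ
  have e1 : (∏ x ∈ X with x ∉ L.lattice, dF L t γ x) ^ 2 = KP L X t ^ 3 * KQ L t X u := by
    rw [h.prod_sq p.per, KP, KQ, ← prod_pow, ← prod_mul_distrib]
    refine prod_congr rfl fun x hx => ?_
    obtain ⟨a, b⟩ := mem_filter.1 hx
    rw [dF_nrm h3 h0 g.1 b (h.nz a T.P0).1 (h.nz a T.P0).2, dX]
    linear_combination (wp L x - wp L t) ^ 3 * g.2
  have K0 := h.KP_ne T.P0
  set κ := ∏ x ∈ X with x ∉ L.lattice, dF L t γ x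
  have k0 : κ ≠ 0 := fun a => mul_ne_zero (pow_ne_zero 3 K0) (h.KQ_ne h3 T.P0 hu hu1 hu2) (by
    rw [← e1, a]; ring)
  obtain ⟨k, hk⟩ := (((h.pole p).lin ((pole_x L' t).mul (pole_x L' t)) 1 (-κ)).congr (fun _ => rfl)
    (k' := 0) (by ring)).step
  obtain ⟨b, c, hc⟩ := hk.three
  have c0 := hc (-t) (by simpa using T.P0)
  rw [h.split p.per, dF_negt, dX_neg, wq, wp, L'.weierstrassP_neg, L'.derivWeierstrassP_neg] at c0
  obtain ⟨β, δ, Ψ⟩ : ∃ β δ, ∀ z, z ∉ L'.lattice → ∏ x ∈ X, dF L t γ (z + x) =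
      κ * dX L' t z ^ 2 + β * dY L' t (-z) + δ * dX L' t z :=
    ⟨k, b + k * dA L' t / 2, fun z hz => by
      have := hc z hz
      simp only [dX, dY, wp, wq, L'.weierstrassP_neg, L'.derivWeierstrassP_neg] at *
      linear_combination this - c0⟩
  obtain ⟨y1, y2⟩ := h.tr_y h3 T.P0
  set η := ∏ x ∈ X with x ∉ L.lattice, dY L t x
  set μ := (-(γ * wq L t)) ^ #X * ∏ x ∈ X with x ∉ L.lattice, dX L t x with hμ
  have fe : ∀ z, z ∉ L'.lattice → z + t ∉ L'.lattice → z - t ∉ L'.lattice →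
      (wq L' t * η ^ 2 * β + μ * κ) * dX L' t z ^ 2 + (μ * β - wq L' t * η ^ 2 * δ) * dY L' t (-z) +
        (μ * δ - wq L' t ^ 2 * η ^ 2 * κ) * dX L' t z = 0 := fun z hz hs hd => by
    have a : (∏ x ∈ X, dF L t γ (z + t + x)) * (∏ x ∈ X, dY L t (-z + x)) ^ 2 =
        (-(γ * wq L t)) ^ #X * (∏ x ∈ X, dX L t (z + x)) * ∏ x ∈ X, dF L t γ (z + x) := by
      rw [← h.prod_map (F := fun x => dY L t (-z + x)) (φ := fun x => -x)
        (fun w l hl => by rw [← add_assoc, (pole_y L t).per _ l hl])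
        (fun x hx => neg_mem (h.mem x hx))
        (fun x hx y hy e => h.inj hx hy (by simpa [neg_add_eq_sub] using neg_mem e))
        (Or.inl le_rfl), ← prod_const, ← prod_pow]
      simp only [← prod_mul_distrib]
      refine prod_congr rfl fun x hx => ?_
      rw [← neg_add, add_right_comm, dF_tr h3 h0 g.1 (h.notMem hz hx)
        (add_right_comm z t x ▸ h.notMem hs hx) (by
          rw [show z + x - t = z - t + x by ring]; exact h.notMem hd hx)]
    rw [Ψ _ hz, Ψ _ hs, h.prod_y (by simpa using hz) (two_not T.P3 T.P0),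
      show ∏ x ∈ X, dX L t (z + x) = (∏ x ∈ X with x ∉ L.lattice, dX L t x) * dX L' t z from
        h.prod_p hz T.P0, ← mul_assoc, ← hμ] at a
    obtain ⟨t1, -, t3⟩ := trP T.P3 T.P0 hz hs hd
    refine mul_left_cancel₀ (dX_ne T.P0 hz hs hd) ?_
    linear_combination -a + η ^ 2 * (κ * (dX L' t (z + t) * dY L' t (-z) + wq L' t * dX L' t z) +
      δ * dY L' t (-z)) * t1 + η ^ 2 * β * dY L' t (-z) * t3 +
      η ^ 2 * β * wq L' t * nrm T.P3 T.P0 hz
  have f1 := fe s T.Q0 T.ad T.sb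
  have f2 := fe (-s) T.negQ.Q0 T.negQ.ad T.negQ.sb
  have f3 := fe (s + t) T.ad (fun a => T.sb (by
    convert sub_mem a T.P3 using 1; ring)) (by simpa using T.Q0)
  rw [dX_neg, neg_neg] at f2
  have c2 : μ * β - wq L' t * η ^ 2 * δ = 0 := mul_right_cancel₀ (a3_ne T.Q3 T.Q0) (by
    linear_combination f2 - f1 + (μ * β - wq L' t * η ^ 2 * δ) * (wq_dY L' t s + dY_neg L' t s))
  have x1 := T.x_ne
  have x2 : dX L' t (s + t) ≠ 0 := dX_ne T.P0 T.ad (fun a => T.sb (by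
    convert sub_mem a T.P3 using 1; ring)) (by simpa using T.Q0)
  have x3 : dX L' t (s + t) - dX L' t s ≠ 0 := fun a => by
    rcases Un.wp_eq T.Q0 T.ad (by simp only [dX] at a; linear_combination -a) with a | a
    · exact T.P0 (by simpa using a)
    · exact T.sb (by convert sub_mem T.Q3 a using 1; ring)
  rw [c2] at f1 f3
  have c1 : wq L' t * η ^ 2 * β + μ * κ = 0 :=
    mul_right_cancel₀ (mul_ne_zero (mul_ne_zero x1 x2) x3) (by
      linear_combination dX L' t s * f3 - dX L' t (s + t) * f1)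
  have c3 : μ * δ - wq L' t ^ 2 * η ^ 2 * κ = 0 :=
    mul_right_cancel₀ x1 (by linear_combination f1 - dX L' t s ^ 2 * c1)
  have a0 := a3_ne T.P3 T.P0
  have n0 : wq L' t * η ^ 2 ≠ 0 := mul_ne_zero a0 (y2 ▸ pow_ne_zero 3 K0)
  obtain ⟨γ', hγ⟩ : ∃ γ', μ = -γ' * (wq L' t * η ^ 2) := ⟨-μ / (wq L' t * η ^ 2), by rw [neg_div, neg_neg, div_mul_cancel₀ _ n0]⟩
  have m2 : μ ^ 2 = γ ^ (2 * #X) * (η * wq L' t) ^ 2 * KP L X t ^ 2 := by
    rw [hμ, y1, mul_pow, ← pow_mul, mul_comm #X, pow_mul, neg_sq, ← pow_mul, KP, ← prod_pow,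
      ← prod_pow, prod_congr rfl fun x _ => show dX L t x ^ 2 = (wp L t - wp L x) ^ 2 by
        rw [dX]; ring]
    ring
  rw [hγ] at c1 c2 c3 m2
  have eβ : β = γ' * κ := mul_left_cancel₀ n0 (by linear_combination c1)
  have eδ : δ = -γ' ^ 2 * κ := mul_left_cancel₀ n0 (by rw [eβ] at c2; linear_combination -c2)
  have e3 : γ' ^ 3 = wq L' t := mul_left_cancel₀ (mul_ne_zero n0 k0) (by
    rw [eδ] at c3; linear_combination c3)
  have Ψ' : ∀ z, z ∉ L'.lattice → ∏ x ∈ X, dF L t γ (z + x) = κ * dF L' t γ' z := fun z hz => by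
    rw [Ψ z hz, eβ, eδ, dF]; ring
  refine ⟨γ', ⟨e3, ?_⟩, mul_left_cancel₀ (mul_ne_zero (mul_ne_zero n0 a0) (pow_ne_zero 2 K0)) (by
    linear_combination m2 - γ' ^ 2 * wq L' t ^ 2 * η ^ 2 * y2), e1, Ψ'⟩
  have a := Ψ' u hu
  have b := Ψ' (-u) (by simpa using hu)
  have c := dF_nrm h3 h0 g.1 (fun e => hu (h.le e)) (fun e => hu1 (h.le e)) fun e => hu2 (h.le e)
  rw [h.split p.per] at a b
  have := congrArg₂ (· * ·) a b
  rw [mul_mul_mul_comm, c, mul_mul_mul_comm κ, dF_nrm T.P3 T.P0 e3 hu hu1 hu2, g.2] at this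
  exact mul_left_cancel₀ (mul_ne_zero (mul_ne_zero k0 k0) (pow_ne_zero 3 (dX_ne T.P0 hu hu1 hu2)))
    (by linear_combination -this)

end Pool.Agent.MP_e23604_nt.Un

end

section

/-!
Three modular units with sum zero and their transport along isogenies.
-/

set_option autoImplicit false

open Filter Topology Finset
open scoped Classical

namespace Pool.Agent.MP_e23604_nt.Un

variable {L L' : PeriodPair} {s u e : ℂ} {X : Finset ℂ}

/-- a modular unit of weight two -/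
noncomputable def oH (L : PeriodPair) (u s : ℂ) : ℂ :=
  dF L (3 * u) (oG L (3 * u) u) s / dX L (3 * u) s

/-- the difference of two such units -/
noncomputable def oD (L : PeriodPair) (u s : ℂ) : ℂ := oH L u (-s) - oH L u s

/-- the first transported unit -/
noncomputable def oE (L : PeriodPair) (u s : ℂ) (X : Finset ℂ) : ℂ :=
  oD L u s ^ (2 * #X) * KP L X s * KQ L (3 * u) X u

/-- the other transported units -/
noncomputable def oF (L : PeriodPair) (u s : ℂ) (X : Finset ℂ) : ℂ :=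
  oH L u s ^ (2 * #X) * KP L X (s + 3 * u) * KQ L (3 * u) X (u - s)

/-- the transported cube root -/
noncomputable def oB (L : PeriodPair) (u s : ℂ) (X : Finset ℂ) : ℂ :=
  KP L X (3 * u) * KQ L (3 * u) X s

theorem KP_neg (L : PeriodPair) (X : Finset ℂ) (z : ℂ) : KP L X (-z) = KP L X z := by
  simp only [KP, wp, L.weierstrassP_neg]

theorem KQ_neg (L : PeriodPair) (t : ℂ) (X : Finset ℂ) (z : ℂ) : KQ L t X (-z) = KQ L t X z := by
  simp only [KQ, s3p_neg]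

theorem oD_neg (L : PeriodPair) (u s : ℂ) : oD L u (-s) = -oD L u s := by simp [oD]

theorem oE_neg (L : PeriodPair) (u s : ℂ) (X : Finset ℂ) : oE L u (-s) X = oE L u s X := by
  rw [oE, oE, oD_neg, KP_neg, pow_mul, neg_sq, ← pow_mul]

namespace Two

variable (h : Two L (3 * u) s)

include h

theorem nine {z : ℂ} (e : 3 * z - 3 * u ∈ L.lattice) :
    z ∉ L.lattice ∧ z + 3 * u ∉ L.lattice ∧ z - 3 * u ∉ L.lattice := by
  have k : ∀ w, w ∈ L.lattice → 3 * (z - w) ∈ L.lattice → False := fun w a b => h.P0 (by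
    convert sub_mem (add_mem b (L.lattice.smul_mem 3 a)) e using 1
    simp only [zsmul_eq_mul]
    push_cast
    ring)
  exact ⟨fun a => k _ a (by simp), fun a => k _ a (by simpa using h.P3),
    fun a => k _ a (by simpa using h.P3)⟩

theorem nu : u ∉ L.lattice ∧ u + 3 * u ∉ L.lattice ∧ u - 3 * u ∉ L.lattice := h.nine (by simp)

theorem nus : u + s ∉ L.lattice ∧ u + s + 3 * u ∉ L.lattice ∧ u + s - 3 * u ∉ L.lattice :=
  h.nine (by simpa [mul_add] using h.Q3)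

theorem gam (p : Par L (3 * u) s e) : Gam L (3 * u) u (oG L (3 * u) u) ∧
    Gam L (3 * u) (u + s) (e * oG L (3 * u) u) ∧
      Gam L (3 * u) (u - s) (e ^ 2 * oG L (3 * u) u) := by
  obtain ⟨L', r⟩ := ex_rep3 h.P3 h.P0
  obtain ⟨-, -, -, -, γ, -, -, a, b⟩ := flip h p r
  exact (a.eq h).symm ▸ ⟨a, b⟩

theorem g_cube : oG L (3 * u) u ^ 3 = wq L (3 * u) := (h.gam h.par.choose_spec).1.1

theorem g_ne : oG L (3 * u) u ≠ 0 := fun e =>
  a3_ne h.P3 h.P0 (by rw [← h.g_cube, e]; ring)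

theorem oD_eq : oD L u s * dX L (3 * u) s = oG L (3 * u) u * wq L s := by
  have := h.x_ne
  rw [oD, oH, oH, dX_neg, ← sub_div, div_mul_cancel₀ _ this, dF, dF, dX_neg, neg_neg, dY_neg,
    wq_dY L (3 * u) s]
  ring

theorem oD_ne : oD L u s ≠ 0 := fun e =>
  mul_ne_zero h.g_ne (a3_ne h.Q3 h.Q0) (by rw [← h.oD_eq, e, zero_mul])

/-- the values in terms of the three forms of weight one -/
theorem oH_eq (p : Par L (3 * u) s e) :
    oH L u s = dX L (3 * u) s - oG L (3 * u) u * (dA L (3 * u) - e ^ 2 * dB L (3 * u) s) / 3 -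
      oG L (3 * u) u ^ 2 ∧
    oH L u (-s) = dX L (3 * u) s - oG L (3 * u) u * (dA L (3 * u) - e * dB L (3 * u) s) / 3 -
      oG L (3 * u) u ^ 2 := by
  have := h.x_ne
  simp only [oH, dF, dX_neg, neg_neg, p.yp, p.ym, div_eq_iff this]
  constructor <;> ring

theorem abc : dA L (3 * u) ^ 3 = dB L (3 * u) s ^ 3 + (3 * oG L (3 * u) u) ^ 3 := by
  linear_combination -h.b_cube - 27 * h.g_cube

theorem oH_mul : 27 * (oH L u s * oH L u (-s)) =
    (dA L (3 * u) ^ 2 + dA L (3 * u) * dB L (3 * u) s + dB L (3 * u) s ^ 2) *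
    (dA L (3 * u) ^ 2 + dA L (3 * u) * (3 * oG L (3 * u) u) + (3 * oG L (3 * u) u) ^ 2) ∧
    27 * oD L u s ^ 2 = -(dB L (3 * u) s * (3 * oG L (3 * u) u)) ^ 2 := by
  obtain ⟨e, p⟩ := h.par
  have he := p.he
  have a := h.abc
  rw [oD, (h.oH_eq p).1, (h.oH_eq p).2, h.x_eq.1]
  generalize dA L (3 * u) = a at *
  generalize dB L (3 * u) s = b at *
  generalize oG L (3 * u) u = g at *
  clear * - he a
  constructor <;> grind

theorem oH_ne : oH L u s ≠ 0 := fun e => by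
  have a := h.oH_mul.1
  have b := h.abc
  rw [e, zero_mul, mul_zero] at a
  rcases mul_eq_zero.1 a.symm with a | a
  · exact pow_ne_zero 3 h.g_ne (by
      linear_combination -b / 27 + (dA L (3 * u) - dB L (3 * u) s) / 27 * a)
  · exact pow_ne_zero 3 h.b_ne (by
      linear_combination -b + (dA L (3 * u) - 3 * oG L (3 * u) u) * a)

variable (r : Rep L L' X) (c : Cop L L')

include r c

theorem tr_E : oF L u (-s) X * oD L' u s ^ 2 = oE L u s X * oH L' u (-s) ^ 2 := by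
  have T := h.up r c
  obtain ⟨e, p⟩ := h.par
  obtain ⟨g1, g2, -⟩ := h.gam p
  obtain ⟨γ', g', a1, a2, a3⟩ := r.tr_F T h.P3 g1 T.nu.1 T.nu.2.1 T.nu.2.2
  obtain rfl := g'.eq T
  have a4 := a3 (-s) (by simpa using T.Q0)
  have pe := (pole_F L (3 * u) (oG L (3 * u) u)).per
  rw [r.split pe] at a4
  have a5 : (∏ x ∈ X with x ∉ L.lattice, dF L (3 * u) (oG L (3 * u) u) (-s + x)) ^ 2 *
      KP L X s ^ 4 = (dF L (3 * u) (oG L (3 * u) u) (-s) ^ 2) ^ #{x ∈ X | x ∉ L.lattice} *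
        KP L X (s - 3 * u) * KP L X (3 * u) ^ 2 * KQ L (3 * u) X (u + s) := by
    rw [r.prod_sq fun w l hl => by rw [← add_assoc, pe _ l hl], ← prod_const]
    simp only [KP, KQ, ← prod_pow, ← prod_mul_distrib]
    refine prod_congr rfl fun x hx => ?_
    obtain ⟨a, b⟩ := mem_filter.1 hx
    have := dF_ss h p g1.1 b (r.nz a T.Q0).1 (r.nz a T.Q0).2 (r.nz a T.P0).1 (r.nz a T.P0).2
    simp only [neg_add_eq_sub, dX] at this ⊢
    linear_combination this + dF L (3 * u) (oG L (3 * u) u) (-s) ^ 2 *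
      (wp L x - wp L (s - 3 * u)) * (wp L x - wp L (3 * u)) ^ 2 * g2.2
  obtain ⟨y1, y2⟩ := r.tr_y h.Q3 T.Q0
  have y3 : KP L X s ^ 3 * wq L' s ^ 2 = wq L s ^ (2 * #X) := by
    rw [← y2, ← mul_pow, y1, ← pow_mul, mul_comm]
  have d1 := congrArg (· ^ (2 * #X)) h.oD_eq
  have d2 := T.oD_eq
  have d3 : oH L u (-s) * dX L (3 * u) s = dF L (3 * u) (oG L (3 * u) u) (-s) := by
    rw [oH, dX_neg, div_mul_cancel₀ _ h.x_ne]
  have d4 : oH L' u (-s) * dX L' (3 * u) s = dF L' (3 * u) (oG L' (3 * u) u) (-s) := by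
    rw [oH, dX_neg, div_mul_cancel₀ _ T.x_ne]
  have d5 := congrArg (· ^ (2 * #X)) d3
  simp only [mul_pow] at d1 d5
  have d6 : dF L (3 * u) (oG L (3 * u) u) (-s) ^ (2 * #X) =
      (dF L (3 * u) (oG L (3 * u) u) (-s) ^ 2) ^ #{x ∈ X | x ∉ L.lattice} *
        dF L (3 * u) (oG L (3 * u) u) (-s) ^ 2 := by rw [pow_mul, r.card_nz, pow_succ]
  refine mul_right_cancel₀ (mul_ne_zero (mul_ne_zero (pow_ne_zero (2 * #X) h.x_ne)
    (pow_ne_zero 2 T.x_ne)) (pow_ne_zero 2 (r.KP_ne T.P0))) ?_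
  rw [oF, oE, show -s + 3 * u = -(s - 3 * u) by ring, KP_neg, sub_neg_eq_add]
  calc _ = (oH L u (-s) ^ (2 * #X) * dX L (3 * u) s ^ (2 * #X)) * KP L X (s - 3 * u) *
        KP L X (3 * u) ^ 2 * KQ L (3 * u) X (u + s) * (oD L' u s * dX L' (3 * u) s) ^ 2 := by ring
    _ = (dF L (3 * u) (oG L (3 * u) u) (-s) *
        ∏ x ∈ X with x ∉ L.lattice, dF L (3 * u) (oG L (3 * u) u) (-s + x)) ^ 2 * KP L X s ^ 4 *
        (oG L' (3 * u) u * wq L' s) ^ 2 := by
      rw [d5, d6, d2, mul_pow (dF _ _ _ _), mul_assoc (dF _ _ _ _ ^ 2), a5]; ring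
    _ = (oG L' (3 * u) u ^ 2 * KP L X (3 * u)) * (KP L X s ^ 3 * wq L' s ^ 2) * KP L X s *
        KQ L (3 * u) X u * dF L' (3 * u) (oG L' (3 * u) u) (-s) ^ 2 * KP L X (3 * u) ^ 2 := by
      rw [a4, mul_pow, a2]; ring
    _ = _ := by rw [a1, y3, ← d1, ← d4]; ring

theorem oE_ne : oE L u s X ≠ 0 := by
  have T := h.up r c
  exact mul_ne_zero (mul_ne_zero (pow_ne_zero _ h.oD_ne) (r.KP_ne T.Q0))
    (r.KQ_ne h.P3 T.P0 T.nu.1 T.nu.2.1 T.nu.2.2)

theorem oB_ne : oB L u s X ≠ 0 := by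
  have T := h.up r c
  exact mul_ne_zero (r.KP_ne T.P0) (r.KQ_ne h.P3 T.P0 T.Q0 T.ad T.sb)

/-- the transported units are proportional to the squares of the units of the larger lattice -/
theorem tr_all : ∃ μ, μ ≠ 0 ∧ oE L u s X = μ * oD L' u s ^ 2 ∧ oF L u s X = μ * oH L' u s ^ 2 ∧
    oF L u (-s) X = μ * oH L' u (-s) ^ 2 := by
  have d := pow_ne_zero 2 (h.up r c).oD_ne
  have a := h.tr_E r c
  have b := h.negQ.tr_E r c
  rw [neg_neg, oD_neg, neg_sq, oE_neg] at b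
  refine ⟨oE L u s X / oD L' u s ^ 2, div_ne_zero (h.oE_ne r c) d, ?_, ?_, ?_⟩ <;>
    rw [div_mul_eq_mul_div, eq_div_iff d]
  exacts [b, a]

theorem tr_prod : oE L u s X * oF L u s X * oF L u (-s) X = 9 ^ (#X - 1) *
    (oD L u s * oH L u s * oH L u (-s)) ^ (2 * #X) * oB L u s X ^ 3 := by
  have T := h.up r c
  obtain ⟨e, p⟩ := h.par
  obtain ⟨L1, r1⟩ := ex_rep3 h.P3 h.P0
  obtain ⟨T1, -, w, -⟩ := flip h p r1
  have d := (ex_der r1 h.P3 h.P0).1
  have a := r.KQ_eq h.P3 T.P0 h.Q0 h.ad h.sb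
  have b : KQ L (3 * u) X u * KQ L (3 * u) X (u + s) * KQ L (3 * u) X (u - s) =
      KQ L (3 * u) X s ^ 2 * (9 ^ (#X - 1) * KP L X (3 * u)) := by
    rw [r.card_nz, Nat.add_sub_cancel, KP, ← r.prod_smul (F := fun x => wp L (3 * u) - wp L x)
      (fun z l hl => by rw [wp_per hl]) 3 (by simpa [Cop] using c), ← prod_const]
    simp only [KQ, ← prod_pow, ← prod_mul_distrib]
    refine prod_congr rfl fun x hx => ?_
    obtain ⟨x1, x2⟩ := mem_filter.1 hx
    have k : ∀ y, 3 * y ∈ L.lattice → x + y ∉ L1.lattice := fun y hy m => x2 (c x (r.mem x x1) (by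
      simpa [mul_add] using sub_mem (rep3_three r1 h.P3 m) hy))
    have := prod3 T1.P3 T1.P0 T1.Q0 T1.ad T1.sb (by simpa using k 0 (by simp)) (k s h.Q3)
      (k (-s) (by simpa using h.Q3))
    rw [eq_add_of_sub_eq (w u), eq_add_of_sub_eq (w x)] at this
    simp only [d] at this
    push_cast
    linear_combination this
  rw [oE, oF, oF, oB, show -s + 3 * u = -(s - 3 * u) by ring, KP_neg, sub_neg_eq_add]
  simp only [mul_pow]
  linear_combination oD L u s ^ (2 * #X) * oH L u s ^ (2 * #X) * oH L u (-s) ^ (2 * #X) *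
    (KP L X s * KP L X (s + 3 * u) * KP L X (s - 3 * u) * b -
      KQ L (3 * u) X s ^ 2 * (9 ^ (#X - 1) * KP L X (3 * u)) * a)

end Two

end Pool.Agent.MP_e23604_nt.Un

end

section

/-!
Periodic holomorphic functions on the upper half plane and their growth at infinity.
-/

set_option autoImplicit false

open Filter Topology Asymptotics Function Finset
open scoped MatrixGroups

namespace Pool.Agent.MP_e23604_nt.Un

/-- the upper half plane -/
abbrev HH : Set ℂ := {z | 0 < z.im}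

/-- the neighbourhoods of the cusp at infinity -/
abbrev Ii : Filter ℂ := comap Complex.im atTop

/-- the local parameter at infinity -/
noncomputable abbrev qq (h : ℝ) : ℂ → ℂ := Periodic.qParam h

/-- bounded at infinity -/
abbrev Bd (F : ℂ → ℂ) : Prop := BoundedAtFilter Ii F

theorem HH_open : IsOpen HH := isOpen_lt continuous_const Complex.continuous_im

theorem HH_conn : IsPreconnected HH := (convex_halfSpace_im_gt 0).isPreconnected

instance neII : Ii.NeBot := comap_neBot fun t ht => by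
  obtain ⟨a, ha⟩ := mem_atTop_sets.1 ht
  exact ⟨a * Complex.I, ha _ (by simp)⟩

theorem ev_HH : ∀ᶠ τ in Ii, τ ∈ HH := tendsto_comap.eventually (eventually_gt_atTop 0)

theorem ev_nhds {p : ℂ → Prop} (h : ∀ᶠ τ in Ii, p τ) : ∀ᶠ τ in Ii, ∀ᶠ σ in 𝓝 τ, p σ := by
  obtain ⟨a, ha⟩ := eventually_atTop.1 (eventually_comap.1 h)
  filter_upwards [tendsto_comap.eventually (eventually_gt_atTop a)] with τ hτ
  filter_upwards [(isOpen_lt continuous_const Complex.continuous_im).mem_nhds hτ] with σ hσ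
  exact ha _ (le_of_lt hσ) σ rfl

theorem add_HH {τ : ℂ} (h : τ ∈ HH) (w : ℝ) : τ + w ∈ HH := by simpa using h

theorem tendsto_aff {a : ℝ} (ha : 0 < a) (b : ℝ) : Tendsto (fun τ : ℂ => a * τ + b) Ii Ii := by
  refine tendsto_comap_iff.2 ((tendsto_comap.const_mul_atTop ha).congr fun τ => ?_)
  simp

variable {h w : ℝ} {F G : ℂ → ℂ}

theorem Bd.of_tendsto {c : ℂ} (t : Tendsto F Ii (𝓝 c)) : Bd F := t.isBigO_one ℝ

theorem Bd.congr (b : Bd F) (e : ∀ τ ∈ HH, G τ = F τ) : Bd G :=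
  IsBigO.congr' b (ev_HH.mono fun τ hτ => (e τ hτ).symm) EventuallyEq.rfl

theorem Bd.of_pow {n : ℕ} (hn : n ≠ 0) (b : Bd fun τ => F τ ^ n) : Bd F :=
  IsBigO.of_pow hn (IsBigO.congr b (fun _ => rfl) fun _ => by simp)

theorem Bd.pow (b : Bd F) (n : ℕ) : Bd fun τ => F τ ^ n :=
  (IsBigO.pow b n).congr (fun _ => rfl) fun _ => by simp

theorem Bd.cst (c : ℂ) : Bd fun _ => c := const_boundedAtFilter _ _

theorem Bd.mul_zero (b : Bd F) (t : Tendsto G Ii (𝓝 0)) :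
    Tendsto (fun τ => F τ * G τ) Ii (𝓝 0) := by
  have : (fun τ => F τ * G τ) =O[Ii] G := by simpa using IsBigO.mul b (isBigO_refl G Ii).norm_right
  exact this.trans_tendsto t

theorem Bd.div (a : F =O[Ii] G) : Bd fun τ => F τ / G τ :=
  (isBigO_one_iff ℝ).2 (div_isBoundedUnder_of_isBigO a)

theorem Bd.inv {c : ℂ} (t : Tendsto F Ii (𝓝 c)) (hc : c ≠ 0) : Bd fun τ => (F τ)⁻¹ :=
  .of_tendsto (t.inv₀ hc)

/-- holomorphic and periodic -/
structure Cus (h : ℝ) (F : ℂ → ℂ) : Prop where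
  hol : DifferentiableOn ℂ F HH
  per : ∀ τ ∈ HH, F (τ + h) = F τ

theorem qq_ne (h : ℝ) (τ : ℂ) : qq h τ ≠ 0 := Periodic.qParam_ne_zero τ

theorem qq_zero (hh : 0 < h) : Tendsto (qq h) Ii (𝓝 0) :=
  (Periodic.qParam_tendsto hh).mono_right nhdsWithin_le_nhds

theorem qq_der (h : ℝ) (τ : ℂ) :
    HasDerivAt (qq h) (qq h τ * (2 * Real.pi * Complex.I / h)) τ := by
  have := (((hasDerivAt_id τ).const_mul (2 * Real.pi * Complex.I)).div_const h).cexp
  rw [mul_one] at this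
  exact this

theorem qq_pow (hh : h ≠ 0) {n : ℕ} (hn : n ≠ 0) (τ : ℂ) : qq (n * h) τ ^ n = qq h τ := by
  simp only [Periodic.qParam, ← Complex.exp_nat_mul]
  congr 1
  push_cast
  field_simp

namespace Cus

theorem dat (c : Cus h F) {τ : ℂ} (hτ : τ ∈ HH) : DifferentiableAt ℂ F τ :=
  c.hol.differentiableAt (HH_open.mem_nhds hτ)

theorem qp (hh : h ≠ 0) : Cus h (qq h) :=
  ⟨Periodic.differentiable_qParam.differentiableOn, fun τ _ => by
    simp only [Periodic.qParam]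
    rw [← Complex.exp_periodic (2 * _ * _ * τ / h)]
    congr 1
    have : (h : ℂ) ≠ 0 := by exact_mod_cast hh
    field_simp⟩

theorem congr (c : Cus h F) (e : ∀ τ ∈ HH, G τ = F τ) : Cus h G :=
  ⟨c.hol.congr e, fun τ hτ => by rw [e _ (add_HH hτ h), e τ hτ, c.per τ hτ]⟩

theorem cst (c : ℂ) : Cus h fun _ => c := ⟨differentiableOn_const c, fun _ _ => rfl⟩

theorem add (a : Cus h F) (b : Cus h G) : Cus h fun τ => F τ + G τ :=
  ⟨a.hol.add b.hol, fun τ hτ => by rw [a.per τ hτ, b.per τ hτ]⟩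

theorem sub (a : Cus h F) (b : Cus h G) : Cus h fun τ => F τ - G τ :=
  ⟨a.hol.sub b.hol, fun τ hτ => by rw [a.per τ hτ, b.per τ hτ]⟩

theorem mul (a : Cus h F) (b : Cus h G) : Cus h fun τ => F τ * G τ :=
  ⟨a.hol.mul b.hol, fun τ hτ => by rw [a.per τ hτ, b.per τ hτ]⟩

theorem pow (a : Cus h F) (n : ℕ) : Cus h fun τ => F τ ^ n :=
  ⟨a.hol.pow n, fun τ hτ => by rw [a.per τ hτ]⟩

theorem div (a : Cus h F) (b : Cus h G) (n : ∀ τ ∈ HH, G τ ≠ 0) : Cus h fun τ => F τ / G τ :=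
  ⟨a.hol.div b.hol n, fun τ hτ => by rw [a.per τ hτ, b.per τ hτ]⟩

theorem nat (a : Cus h F) (n : ℕ) : Cus (n * h) F := ⟨a.hol, fun τ hτ => by
  induction n with
  | zero => simp
  | succ n ih =>
    have := a.per _ (add_HH hτ (n * h))
    push_cast at *
    rw [add_mul, one_mul, ← add_assoc, this, ih]⟩

theorem deriv (a : Cus h F) : Cus h (deriv F) := ⟨a.hol.deriv HH_open, fun τ hτ => by
  rw [← deriv_comp_add_const]
  exact EventuallyEq.deriv_eq (eventually_of_mem (HH_open.mem_nhds hτ) a.per)⟩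

/-- the expansion at infinity -/
theorem ex (hh : 0 < h) (c : Cus h F) (b : Bd F) :
    ∃ φ : ℂ → ℂ, AnalyticAt ℂ φ 0 ∧ ∀ τ ∈ HH, F τ = φ (qq h τ) := by
  have p : Periodic (HH.indicator F) h := fun τ => by
    by_cases hτ : τ ∈ HH
    · rw [Set.indicator_of_mem hτ, Set.indicator_of_mem (add_HH hτ h), c.per τ hτ]
    · rw [Set.indicator_of_notMem hτ, Set.indicator_of_notMem (by simpa using hτ)]
  have d : ∀ᶠ z in Ii, DifferentiableAt ℂ (HH.indicator F) z := ev_HH.mono fun τ hτ =>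
    (c.dat hτ).congr_of_eventuallyEq (eventually_of_mem (HH_open.mem_nhds hτ) fun σ hσ =>
      Set.indicator_of_mem hσ F)
  refine ⟨Periodic.cuspFunction h (HH.indicator F), ?_, fun τ hτ => ?_⟩
  · rw [Complex.analyticAt_iff_eventually_differentiableAt, ← nhdsNE_sup_pure, eventually_sup]
    exact ⟨Periodic.eventually_differentiableAt_cuspFunction_nhds_ne_zero hh p d,
      Periodic.differentiableAt_cuspFunction_zero hh p d
        (b.congr fun τ hτ => Set.indicator_of_mem hτ F)⟩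
  · rw [Periodic.eq_cuspFunction hh.ne' p, Set.indicator_of_mem hτ]

theorem lim (hh : 0 < h) (c : Cus h F) (b : Bd F) :
    ∃ a, Tendsto F Ii (𝓝 a) ∧ (fun τ => F τ - a) =O[Ii] qq h := by
  obtain ⟨φ, a, e⟩ := c.ex hh b
  refine ⟨φ 0, (a.continuousAt.tendsto.comp (qq_zero hh)).congr' (ev_HH.mono fun τ hτ =>
    (e τ hτ).symm), (a.differentiableAt.isBigO_sub.comp_tendsto (qq_zero hh)).congr'
      (ev_HH.mono fun τ hτ => by simp [e τ hτ]) (.of_forall fun τ => by simp)⟩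

theorem dec (hh : 0 < h) (c : Cus h F) (t : Tendsto F Ii (𝓝 0)) : F =O[Ii] qq h := by
  obtain ⟨a, t', b⟩ := c.lim hh (.of_tendsto t)
  simpa [tendsto_nhds_unique t' t] using b

/-- the order at infinity is an integer -/
theorem jump (hh : 0 < h) (c : Cus h F) (t : Tendsto (fun τ => F τ * qq h τ) Ii (𝓝 0)) : Bd F :=
  (Bd.div ((c.mul (qp hh.ne')).dec hh t)).congr fun τ _ => by
    rw [mul_div_cancel_right₀ _ (qq_ne h τ)]

theorem jump' (hh : 0 < h) (c : Cus h F) {n m : ℕ} (hm : m < n)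
    (t : Bd fun τ => F τ ^ n * qq h τ ^ m) : Bd F := by
  refine c.jump hh ?_
  obtain ⟨k, rfl⟩ := Nat.exists_eq_add_of_lt hm
  have := t.mul_zero (G := fun τ => qq h τ ^ (k + 1)) (by simpa using (qq_zero hh).pow (k + 1))
  rw [← isLittleO_one_iff ℂ] at this ⊢
  exact IsLittleO.of_pow (this.congr (fun τ => by simp only [Pi.pow_apply, Nat.succ_eq_add_one]; ring)
    fun τ => by simp) (Nat.succ_ne_zero (m + k))

end Cus

/-- holomorphic, periodic and meromorphic at infinity -/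
structure Mr (h : ℝ) (F : ℂ → ℂ) : Prop where
  cus : Cus h F
  mer : ∃ φ : ℂ → ℂ, MeromorphicAt φ 0 ∧ ∀ᶠ τ in Ii, F τ = φ (qq h τ)

namespace Mr

theorem of_bd (hh : 0 < h) (c : Cus h F) (b : Bd F) : Mr h F := by
  obtain ⟨φ, a, e⟩ := c.ex hh b
  exact ⟨c, φ, a.meromorphicAt, ev_HH.mono e⟩

theorem congr (a : Mr h F) (e : ∀ τ ∈ HH, G τ = F τ) : Mr h G := by
  obtain ⟨c, φ, m, a⟩ := a
  exact ⟨c.congr e, φ, m, by filter_upwards [a, ev_HH] with τ a b using (e τ b).trans a⟩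

theorem cst (c : ℂ) : Mr h fun _ => c := ⟨.cst c, fun _ => c, .const c 0, .of_forall fun _ => rfl⟩

theorem op (a : Mr h F) (b : Mr h G) {o : ℂ → ℂ → ℂ} (c : Cus h fun τ => o (F τ) (G τ))
    (m : ∀ φ ψ : ℂ → ℂ, MeromorphicAt φ 0 → MeromorphicAt ψ 0 →
      MeromorphicAt (fun q => o (φ q) (ψ q)) 0) : Mr h fun τ => o (F τ) (G τ) := by
  obtain ⟨φ, m1, e1⟩ := a.mer
  obtain ⟨ψ, m2, e2⟩ := b.mer
  exact ⟨c, _, m φ ψ m1 m2, by filter_upwards [e1, e2] with τ e1 e2 using by rw [e1, e2]⟩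

theorem add (a : Mr h F) (b : Mr h G) : Mr h fun τ => F τ + G τ :=
  a.op b (o := (· + ·)) (a.cus.add b.cus) fun _ _ => .add

theorem sub (a : Mr h F) (b : Mr h G) : Mr h fun τ => F τ - G τ :=
  a.op b (o := (· - ·)) (a.cus.sub b.cus) fun _ _ => .sub

theorem mul (a : Mr h F) (b : Mr h G) : Mr h fun τ => F τ * G τ :=
  a.op b (o := (· * ·)) (a.cus.mul b.cus) fun _ _ => .mul

theorem div (a : Mr h F) (b : Mr h G) (n : ∀ τ ∈ HH, G τ ≠ 0) : Mr h fun τ => F τ / G τ :=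
  a.op b (o := (· / ·)) (a.cus.div b.cus n) fun _ _ => .div

theorem neg (a : Mr h F) : Mr h fun τ => -F τ := ((cst 0).sub a).congr fun _ _ => by simp

theorem pow (a : Mr h F) (n : ℕ) : Mr h fun τ => F τ ^ n := by
  induction n with
  | zero => exact (cst 1).congr fun _ _ => by simp
  | succ n ih => exact (ih.mul a).congr fun _ _ => pow_succ _ _

theorem prod {ι : Type} {s : Finset ι} {f : ι → ℂ → ℂ} (a : ∀ i ∈ s, Mr h (f i)) :
    Mr h fun τ => ∏ i ∈ s, f i τ := by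
  classical
  induction s using Finset.induction_on with
  | empty => exact (cst 1).congr fun _ _ => by simp
  | insert i s hi ih =>
    exact ((a i (mem_insert_self i s)).mul (ih fun j hj => a j (mem_insert_of_mem hj))).congr
      fun _ _ => prod_insert hi

end Mr

theorem ord_ex (hh : 0 < h) {φ : ℂ → ℂ} (m : MeromorphicAt φ 0)
    (e : ∀ᶠ τ in Ii, F τ = φ (qq h τ)) (n : ∀ τ ∈ HH, F τ ≠ 0) :
    ∃ k : ℤ, meromorphicOrderAt φ 0 = k ∧ Tendsto (fun τ => deriv F τ / F τ) Ii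
      (𝓝 (2 * Real.pi * Complex.I / h * k)) := by
  have t := Periodic.qParam_tendsto hh
  obtain ⟨k, hk⟩ := WithTop.ne_top_iff_exists.1 (show meromorphicOrderAt φ 0 ≠ ⊤ from fun a => by
    obtain ⟨τ, a1, a2, a3⟩ := (e.and ((t.eventually (meromorphicOrderAt_eq_top_iff.1 a)).and
      ev_HH)).exists
    exact n τ a3 (a1.trans a2))
  obtain ⟨g, a, g0, e'⟩ := (meromorphicOrderAt_eq_int_iff m).1 hk.symm
  have e2 : ∀ᶠ τ in Ii, F τ = qq h τ ^ k * g (qq h τ) := by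
    filter_upwards [e, t.eventually e'] with τ a b using by simpa using a.trans b
  refine ⟨k, hk.symm, ?_⟩
  have := ((((qq_zero hh).mul (a.deriv.continuousAt.tendsto.comp (qq_zero hh))).div
    (a.continuousAt.tendsto.comp (qq_zero hh)) g0).const_add (k : ℂ)).const_mul
      (2 * Real.pi * Complex.I / h)
  rw [zero_mul, zero_div, add_zero] at this
  refine this.congr' ?_
  filter_upwards [ev_nhds e2, (qq_zero hh).eventually a.eventually_analyticAt,
    (qq_zero hh).eventually (a.continuousAt.eventually_ne g0)] with τ e3 a' g'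
  have d := (((hasDerivAt_zpow k _ (Or.inl (qq_ne h τ))).comp τ (qq_der h τ)).mul
    (a'.differentiableAt.hasDerivAt.comp τ (qq_der h τ))).congr_of_eventuallyEq e3
  have := qq_ne h τ
  rw [d.deriv, e3.self_of_nhds]
  simp only [comp_apply, Pi.div_apply, zpow_sub_one₀ this]
  field_simp

/-- the pull-back of the invariant differential vanishes at infinity -/
theorem Mr.ld (hh : 0 < h) (m : Mr h F) (n0 : ∀ τ ∈ HH, F τ ≠ 0) (n1 : ∀ τ ∈ HH, F τ + 1 ≠ 0) :
    Tendsto (fun τ => deriv F τ ^ 3 / (F τ * (F τ + 1)) ^ 2) Ii (𝓝 0) := by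
  obtain ⟨φ, a, e⟩ := m.mer
  obtain ⟨k, k1, t1⟩ := ord_ex hh a e n0
  obtain ⟨l, l1, t2⟩ := ord_ex (F := fun τ => F τ + 1) (φ := φ + fun _ => 1) hh (a.add (.const 1 0))
    (e.mono fun τ e => by simp [e]) n1
  have o : meromorphicOrderAt (fun _ : ℂ => (1 : ℂ)) 0 = 0 := by simp [meromorphicOrderAt_const]
  have : k = 0 ∨ l = 0 ∨ k = l := by
    rcases lt_trichotomy k 0 with c | c | c
    · rw [meromorphicOrderAt_add_eq_left_of_lt (.const 1 0) (by rw [o, k1]; exact_mod_cast c),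
        k1] at l1
      exact Or.inr (Or.inr (by exact_mod_cast l1))
    · exact Or.inl c
    · rw [meromorphicOrderAt_add_eq_right_of_lt a (by rw [o, k1]; exact_mod_cast c), o] at l1
      exact Or.inr (Or.inl (by exact_mod_cast l1.symm))
  have t := (t1.mul t2).mul (t1.sub t2)
  rw [show _ * _ * (_ - _) = (0 : ℂ) by rcases this with rfl | rfl | rfl <;> simp] at t
  refine t.congr' (ev_HH.mono fun τ hτ => ?_)
  have := n0 τ hτ
  have := n1 τ hτ
  simp only [deriv_add_const]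
  field_simp
  ring

/-- a holomorphic cube root -/
theorem ex_root (c : DifferentiableOn ℂ F HH) (n : ∀ τ ∈ HH, F τ ≠ 0) :
    ∃ G, DifferentiableOn ℂ G HH ∧ ∀ τ, G τ ^ 3 = F τ := by
  have : ContractibleSpace HH := (convex_halfSpace_im_gt 0).contractibleSpace ⟨Complex.I, by simp⟩
  obtain ⟨G, a, e⟩ := Complex.exists_continuousOn_pow_eq (U := HH)
    (inferInstanceAs (SimplyConnectedSpace HH)) HH_open c.continuousOn
    (fun ⟨τ, a, b⟩ => n τ a b) three_ne_zero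
  refine ⟨G, fun τ hτ => (HasDerivAt.of_comp_left (a.continuousAt (HH_open.mem_nhds hτ))
    (hasDerivAt_pow 3 _) (c.differentiableAt (HH_open.mem_nhds hτ)).hasDerivAt ?_
    (.of_forall e)).differentiableAt.differentiableWithinAt, e⟩
  exact mul_ne_zero (by norm_num) (pow_ne_zero _ fun a => n τ hτ (by rw [← e, a]; ring))

theorem root_shift (c : DifferentiableOn ℂ G HH) (n : ∀ τ ∈ HH, G τ ≠ 0)
    (p : ∀ τ ∈ HH, G (τ + w) ^ 3 = G τ ^ 3) : ∃ ζ, ζ ^ 3 = 1 ∧ ∀ τ ∈ HH, G (τ + w) = ζ * G τ := by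
  have c' : ContinuousOn (fun τ => G (τ + w) / G τ) HH :=
    (c.continuousOn.comp (by fun_prop) fun τ hτ => add_HH hτ w).div c.continuousOn n
  have e : ∀ τ ∈ HH, (G (τ + w) / G τ) ^ 3 = 1 := fun τ hτ => by
    rw [div_pow, p τ hτ, div_self (pow_ne_zero 3 (n τ hτ))]
  have i : Complex.I ∈ HH := by simp
  have f : {z : ℂ | z ^ 3 = 1}.Finite := (Polynomial.nthRootsFinset 3 (1 : ℂ)).finite_toSet.subset
    fun z hz => (Polynomial.mem_nthRootsFinset three_pos 1).2 hz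
  refine ⟨_, e _ i, fun τ hτ => ?_⟩
  rw [← HH_conn.constant_of_mapsTo f.isDiscrete c' e hτ i, div_mul_cancel₀ _ (n τ hτ)]

/-- the action of an integral matrix -/
noncomputable def mob (γ : SL(2, ℤ)) (τ : ℂ) : ℂ := (γ 0 0 * τ + γ 0 1) / (γ 1 0 * τ + γ 1 1)

theorem mob_coe (γ : SL(2, ℤ)) (τ : UpperHalfPlane) : mob γ τ = (γ • τ : UpperHalfPlane) := by
  rw [UpperHalfPlane.coe_specialLinearGroup_apply]
  simp [mob]

theorem mob_HH (γ : SL(2, ℤ)) {τ : ℂ} (h : τ ∈ HH) : mob γ τ ∈ HH :=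
  mob_coe γ ⟨τ, h⟩ ▸ (γ • (⟨τ, h⟩ : UpperHalfPlane)).2

theorem den_ne (γ : SL(2, ℤ)) {τ : ℂ} (h : τ ∈ HH) : (γ 1 0 * τ + γ 1 1 : ℂ) ≠ 0 := by
  simpa [UpperHalfPlane.denom] using UpperHalfPlane.denom_ne_zero γ ⟨τ, h⟩

theorem mob_der (γ : SL(2, ℤ)) {τ : ℂ} (h : τ ∈ HH) :
    HasDerivAt (mob γ) ((γ 1 0 * τ + γ 1 1 : ℂ) ^ 2)⁻¹ τ := by
  have d : (γ 0 0 * γ 1 1 - γ 0 1 * γ 1 0 : ℂ) = 1 := by
    exact_mod_cast (Matrix.det_fin_two γ.1).symm.trans γ.det_coe
  refine ((((hasDerivAt_id τ).const_mul _).add_const _).div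
    (((hasDerivAt_id τ).const_mul _).add_const _) (den_ne γ h)).congr_deriv ?_
  simp only [id, mul_one]
  rw [inv_eq_one_div]
  congr 1
  linear_combination d

theorem Bd.coe (b : Bd F) : UpperHalfPlane.IsBoundedAtImInfty fun τ : UpperHalfPlane => F τ :=
  b.comp_tendsto (tendsto_comap_iff.2 tendsto_comap)

/-- bounded modular functions are constant -/
theorem const_of {N : ℕ} (hN : N ≠ 0) (c : DifferentiableOn ℂ F HH)
    (i : ∀ γ ∈ CongruenceSubgroup.Gamma N, ∀ τ ∈ HH, F (mob γ τ) = F τ)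
    (b : ∀ γ, Bd fun τ => F (mob γ τ)) : ∃ κ, ∀ τ ∈ HH, F τ = κ := by
  have : NeZero N := ⟨hN⟩
  let f : ModularForm (CongruenceSubgroup.Gamma N) 0 :=
    { toFun τ := F τ
      slash_action_eq' A hA := by
        obtain ⟨γ, hγ, rfl⟩ := hA
        ext τ
        exact (ModularForm.SL_slash_apply (k := 0) (fun τ => F τ) γ τ).trans
          (by rw [← mob_coe, i γ hγ τ τ.2]; simp)
      holo' := UpperHalfPlane.mdifferentiable_iff.2 (c.congr fun z hz => by
        simp [UpperHalfPlane.ofComplex_apply_of_im_pos hz])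
      bdd_at_cusps' hc := by
        rw [Subgroup.IsArithmetic.isCusp_iff_isCusp_SL2Z] at hc
        rw [OnePoint.isBoundedAt_iff_forall_SL2Z hc]
        intro γ _
        convert (b γ).coe using 1
        ext τ
        rw [ModularForm.SL_slash_apply, mob_coe]
        simp }
  obtain ⟨κ, e⟩ := f.eq_const_of_weight_zero
  exact ⟨κ, fun τ hτ => congrFun e ⟨τ, hτ⟩⟩

/-- the discriminant -/
noncomputable def Dl (τ : ℂ) : ℂ := ModularForm.eta τ ^ 24

theorem Dl_ne {τ : ℂ} (h : τ ∈ HH) : Dl τ ≠ 0 := pow_ne_zero _ (ModularForm.eta_ne_zero h)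

theorem Dl_hol : DifferentiableOn ℂ Dl HH := fun _ h =>
  ((ModularForm.differentiableAt_eta_of_mem_upperHalfPlaneSet h).pow 24).differentiableWithinAt

theorem Dl_mob (γ : SL(2, ℤ)) {τ : ℂ} (h : τ ∈ HH) :
    Dl (mob γ τ) = (γ 1 0 * τ + γ 1 1 : ℂ) ^ 12 * Dl τ := by
  have := congrFun (SlashInvariantForm.slash_action_generators_SL2Z ModularForm.discriminant_S_invariant
    ModularForm.discriminant_T_invariant γ) ⟨τ, h⟩
  rw [ModularForm.SL_slash_apply, zpow_neg,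
    mul_inv_eq_iff_eq_mul₀ (zpow_ne_zero _ (UpperHalfPlane.denom_ne_zero _ _))] at this
  rw [mob_coe γ ⟨τ, h⟩, mul_comm]
  simpa [UpperHalfPlane.denom, ModularForm.discriminant, Dl] using this

theorem Dl_low : qq 1 =O[Ii] Dl := by
  have := ModularForm.exp_isBigO_discriminant.comp_tendsto
    UpperHalfPlane.tendsto_comap_im_ofComplex
  refine (IsBigO.congr' this ?_ ?_).of_norm_left <;> filter_upwards [ev_HH] with τ hτ
  · simp [UpperHalfPlane.ofComplex_apply_of_im_pos hτ, Periodic.norm_qParam]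
  · simp [UpperHalfPlane.ofComplex_apply_of_im_pos hτ, Dl, ModularForm.discriminant]

end Pool.Agent.MP_e23604_nt.Un

end

section

/-!
The values of the Weierstrass functions at torsion points as functions on the upper half plane.
-/

set_option autoImplicit false

open Filter Topology Asymptotics Function Finset
open scoped MatrixGroups Classical

namespace Pool.Agent.MP_e23604_nt.Un

theorem indep_of {τ : ℂ} (h : τ.im ≠ 0) : LinearIndependent ℝ ![τ, 1] :=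
  LinearIndependent.pair_iff.2 fun s t e => by
    have a := congrArg Complex.im e
    have b := congrArg Complex.re e
    simp [h] at a
    simpa [a] using b

/-- the lattice with basis `τ, 1` -/
noncomputable def Lt (τ : ℂ) : PeriodPair :=
  if h : τ.im = 0 then ⟨Complex.I, 1, indep_of (by simp)⟩ else ⟨τ, 1, indep_of h⟩

/-- the lattice point with coordinates `p` -/
def lin (p : ℤ × ℤ) (τ : ℂ) : ℂ := p.1 * τ + p.2

variable {τ z : ℂ} {p : ℤ × ℤ} {h : ℝ} {F : ℂ → ℂ}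

theorem lin_add (p q : ℤ × ℤ) (τ : ℂ) : lin (p + q) τ = lin p τ + lin q τ := by
  simp only [lin, Prod.fst_add, Prod.snd_add]; push_cast; ring

theorem lin_neg (p : ℤ × ℤ) (τ : ℂ) : lin (-p) τ = -lin p τ := by
  simp only [lin, Prod.fst_neg, Prod.snd_neg]; push_cast; ring

theorem lin_smul (n : ℤ) (p : ℤ × ℤ) (τ : ℂ) : lin (n • p) τ = n * lin p τ := by
  simp only [lin, Prod.smul_fst, Prod.smul_snd, smul_eq_mul]; push_cast; ring

theorem Lt_om (h : τ ∈ HH) : (Lt τ).ω₁ = τ ∧ (Lt τ).ω₂ = 1 := by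
  rw [Lt, dif_neg (ne_of_gt h)]
  exact ⟨rfl, rfl⟩

theorem mem_Lt (h : τ ∈ HH) : z ∈ (Lt τ).lattice ↔ ∃ p, lin p τ = z := by
  simp [PeriodPair.mem_lattice, Lt_om h, lin]

theorem lin_mem (h : τ ∈ HH) (p : ℤ × ℤ) : lin p τ ∈ (Lt τ).lattice := (mem_Lt h).2 ⟨p, rfl⟩

theorem lin_eq_zero (h : τ ∈ HH) (e : lin p τ = 0) : p = 0 := by
  have a := congrArg Complex.im e
  have b := congrArg Complex.re e
  have h' : τ.im ≠ 0 := ne_of_gt h
  simp [lin, h'] at a
  exact Prod.ext a (by simpa [lin, a] using b)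

theorem lin_div_mem (h : τ ∈ HH) {N : ℤ} (hN : N ≠ 0) :
    lin p τ / N ∈ (Lt τ).lattice ↔ N ∣ p.1 ∧ N ∣ p.2 := by
  have hN' : (N : ℂ) ≠ 0 := by exact_mod_cast hN
  rw [mem_Lt h]
  refine ⟨fun ⟨q, e⟩ => ?_, fun ⟨⟨a, ha⟩, b, hb⟩ => ⟨(a, b), ?_⟩⟩
  · have : p + -(N • q) = 0 := lin_eq_zero h (by
      rw [lin_add, lin_neg, lin_smul, e]; field_simp; ring)
    rw [add_neg_eq_zero.1 this]
    exact ⟨dvd_mul_right _ _, dvd_mul_right _ _⟩
  · simp only [lin, ha, hb]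
    push_cast
    field_simp

theorem tsum_Lt (h : τ ∈ HH) (F : ℂ → ℂ) :
    ∑' l : (Lt τ).lattice, F l = ∑' p : ℤ × ℤ, F (lin p τ) := by
  rw [← (Lt τ).latticeEquivProd.symm.toEquiv.tsum_eq]
  refine tsum_congr fun p => congrArg F ?_
  simpa [Lt_om h, lin] using (Lt τ).latticeEquiv_symm_apply p

/-- the action on coordinates -/
def act (γ : SL(2, ℤ)) (p : ℤ × ℤ) : ℤ × ℤ :=
  (p.1 * γ 0 0 + p.2 * γ 1 0, p.1 * γ 0 1 + p.2 * γ 1 1)

theorem lin_mob (γ : SL(2, ℤ)) (h : τ ∈ HH) (p : ℤ × ℤ) :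
    (γ 1 0 * τ + γ 1 1 : ℂ) * lin p (mob γ τ) = lin (act γ p) τ := by
  have := den_ne γ h
  simp only [lin, mob, act]
  push_cast
  field_simp
  ring

theorem det_sl (γ : SL(2, ℤ)) : γ 0 0 * γ 1 1 - γ 0 1 * γ 1 0 = 1 :=
  (Matrix.det_fin_two γ.1).symm.trans γ.det_coe

theorem act_inv (γ : SL(2, ℤ)) (p : ℤ × ℤ) : act γ (act γ⁻¹ p) = p := by
  have := det_sl γ
  simp only [act, Matrix.SpecialLinearGroup.SL2_inv_expl]
  ext <;> simp
  · linear_combination p.1 * this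
  · linear_combination p.2 * this

theorem Lt_sc (γ : SL(2, ℤ)) (h : τ ∈ HH) :
    Sc (γ 1 0 * τ + γ 1 1) (Lt (mob γ τ)) (Lt τ) := ⟨den_ne γ h, fun z => by
  rw [mem_Lt h, mem_Lt (mob_HH γ h)]
  exact ⟨fun ⟨p, e⟩ => ⟨act γ⁻¹ p, mul_left_cancel₀ (den_ne γ h) (by rw [lin_mob γ h, act_inv, e])⟩,
    fun ⟨p, e⟩ => ⟨act γ p, by rw [← lin_mob γ h, e]⟩⟩⟩

theorem Lt_add (h : τ ∈ HH) (n : ℤ) : (Lt τ).lattice = (Lt (τ + n)).lattice := by
  ext z
  rw [mem_Lt h, mem_Lt (show τ + n ∈ HH by simpa using h)]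
  exact ⟨fun ⟨p, e⟩ => ⟨(p.1, p.2 - p.1 * n), by rw [← e]; simp only [lin]; push_cast; ring⟩,
    fun ⟨p, e⟩ => ⟨(p.1, p.2 + p.1 * n), by rw [← e]; simp only [lin]; push_cast; ring⟩⟩

/-- uniform bounds in a strip -/
theorem strip_bd {k : ℕ} (hk : 3 ≤ k) {N : ℤ} (hN : N ≠ 0) (p : ℤ × ℤ) (A : ℝ) {B : ℝ}
    (hB : 0 < B) : ∃ u : ℤ × ℤ → ℝ, Summable u ∧ ∀ x τ, |τ.re| ≤ A → B ≤ τ.im →
      ‖lin (p - N • x) τ‖⁻¹ ^ k ≤ u x := by
  have s := (EisensteinSeries.summable_one_div_norm_rpow (k := k) (by exact_mod_cast hk)).mul_left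
    (EisensteinSeries.r ⟨⟨A, B⟩, hB⟩ ^ (-k : ℝ))
  refine ⟨_, s.comp_injective (i := fun x : ℤ × ℤ => ![(p - N • x).1, (p - N • x).2])
    fun x y e => ?_, fun x τ a b => ?_⟩
  · have a := congrFun e 0
    have b := congrFun e 1
    simp [hN] at a b
    exact Prod.ext a b
  · have := EisensteinSeries.summand_bound_of_mem_verticalStrip (z := ⟨τ, hB.trans_le b⟩) (k := k)
      (Nat.cast_nonneg k) ![(p - N • x).1, (p - N • x).2] hB ⟨a, b⟩
    rwa [Real.rpow_neg (norm_nonneg _), Real.rpow_natCast, ← inv_pow] at this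

theorem hol_tsum {f : ℤ × ℤ → ℂ → ℂ} (d : ∀ x, DifferentiableOn ℂ (f x) HH)
    (b : ∀ A B : ℝ, 0 < B → ∃ u : ℤ × ℤ → ℝ, Summable u ∧ ∀ x τ, ‖τ‖ ≤ A → B ≤ τ.im →
      ‖f x τ‖ ≤ u x) : DifferentiableOn ℂ (fun τ => ∑' x, f x τ) HH := fun τ hτ => by
  have h0 : 0 < τ.im := hτ
  obtain ⟨u, s, e⟩ := b (‖τ‖ + 1) (τ.im / 2) (by positivity)
  have o : IsOpen {σ : ℂ | ‖σ‖ < ‖τ‖ + 1 ∧ τ.im / 2 < σ.im} :=
    (isOpen_lt continuous_norm continuous_const).inter
      (isOpen_lt continuous_const Complex.continuous_im)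
  exact ((Complex.differentiableOn_tsum_of_summable_norm s (fun x => (d x).mono fun σ hσ =>
    lt_trans (by positivity) hσ.2) o fun x σ hσ => e x σ hσ.1.le hσ.2.le).differentiableAt
      (o.mem_nhds ⟨by simp, by linarith⟩)).differentiableWithinAt

theorem hol_inv (p : ℤ × ℤ) : DifferentiableOn ℂ (fun τ => (lin p τ)⁻¹) HH := by
  by_cases h : p = 0
  · simp [h, lin]
  · exact .inv (by unfold lin; fun_prop) fun τ hτ e => h (lin_eq_zero hτ e)

theorem bd_strip (hh : 0 < h) (c : ∀ τ ∈ HH, F (τ + h) = F τ) {M : ℝ}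
    (b : ∀ τ : ℂ, |τ.re| ≤ h → 1 ≤ τ.im → ‖F τ‖ ≤ M) : Bd F := by
  have p : Periodic (HH.indicator F) h := fun τ => by
    by_cases hτ : τ ∈ HH
    · rw [Set.indicator_of_mem hτ, Set.indicator_of_mem (add_HH hτ h), c τ hτ]
    · rw [Set.indicator_of_notMem hτ, Set.indicator_of_notMem (by simpa using hτ)]
  refine IsBigO.of_bound M ?_
  filter_upwards [tendsto_comap.eventually (eventually_ge_atTop 1)] with τ hτ
  have m := toIcoMod_mem_Ico' hh τ.re
  have := b (τ - toIcoDiv hh 0 τ.re • h) (by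
    simpa using abs_le.2 ⟨by linarith [m.1], m.2.le⟩) (by simpa using hτ)
  rw [← Set.indicator_of_mem (s := HH) (by simpa using one_pos.trans_le hτ) F, p.sub_zsmul_eq,
    Set.indicator_of_mem (s := HH) (one_pos.trans_le hτ)] at this
  simpa using this

/-- an Eisenstein series -/
noncomputable def Es (k : ℕ) (N : ℤ) (p : ℤ × ℤ) (τ : ℂ) : ℂ :=
  ∑' x : ℤ × ℤ, (lin (p - N • x) τ)⁻¹ ^ k

theorem Es_hol {k : ℕ} (hk : 3 ≤ k) {N : ℤ} (hN : N ≠ 0) (p : ℤ × ℤ) :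
    DifferentiableOn ℂ (Es k N p) HH :=
  hol_tsum (fun x => (hol_inv _).pow k) fun A B hB => by
    obtain ⟨u, s, e⟩ := strip_bd hk hN p A hB
    exact ⟨u, s, fun x τ a b => by
      simpa using e x τ ((Complex.abs_re_le_norm τ).trans a) b⟩

theorem Es_bd {k : ℕ} (hk : 3 ≤ k) {N : ℤ} (hN : N ≠ 0) (p : ℤ × ℤ) (hh : 0 < h)
    (c : ∀ τ ∈ HH, Es k N p (τ + h) = Es k N p τ) :
    Bd (Es k N p) ∧ (¬ N ∣ p.1 → Tendsto (Es k N p) Ii (𝓝 0)) := by
  obtain ⟨u, s, e⟩ := strip_bd hk hN p h one_pos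
  have e' : ∀ τ : ℂ, |τ.re| ≤ h → 1 ≤ τ.im → ∀ x, ‖(lin (p - N • x) τ)⁻¹ ^ k‖ ≤ u x :=
    fun τ a b x => by simpa using e x τ a b
  have b : Bd (Es k N p) := bd_strip hh c fun τ a b => tsum_of_norm_bounded s.hasSum (e' τ a b)
  refine ⟨b, fun n => ?_⟩
  obtain ⟨a, t, -⟩ := Cus.lim hh ⟨Es_hol hk hN p, c⟩ b
  have v : Tendsto (fun y : ℝ => y * Complex.I) atTop Ii :=
    tendsto_comap_iff.2 (tendsto_id.congr fun y => by simp)
  have := tendsto_tsum_of_dominated_convergence (𝓕 := atTop) (g := fun _ => 0)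
    (f := fun (y : ℝ) x => (lin (p - N • x) (y * Complex.I))⁻¹ ^ k) s (fun x => ?_)
    ((eventually_ge_atTop 1).mono fun y hy => e' _ (by simpa using hh.le) (by simpa using hy))
  · rwa [tendsto_nhds_unique (t.comp v) this, tsum_zero] at t
  · rw [← zero_pow (n := k) (by omega)]
    refine Tendsto.pow (tendsto_inv₀_cobounded.comp (tendsto_norm_atTop_iff_cobounded.1
      (tendsto_atTop_mono' _ ((eventually_ge_atTop 0).mono fun y hy => ?_) tendsto_id))) k
    refine le_trans ?_ (Complex.abs_im_le_norm _)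
    have : (1 : ℝ) ≤ |((p.1 - N * x.1 : ℤ) : ℝ)| := by
      exact_mod_cast Int.one_le_abs fun a => n ⟨_, sub_eq_zero.1 a⟩
    simpa [lin, abs_mul, abs_of_nonneg hy] using le_mul_of_one_le_left hy this

theorem sub_lin {N : ℤ} (hN : N ≠ 0) (p x : ℤ × ℤ) (τ : ℂ) :
    lin p τ / N - lin x τ = lin (p - N • x) τ / N := by
  have hN' : (N : ℂ) ≠ 0 := by exact_mod_cast hN
  rw [sub_eq_add_neg p, lin_add, lin_neg, lin_smul]
  field_simp
  ring

theorem wq_Es (h : τ ∈ HH) {N : ℤ} (hN : N ≠ 0) (p : ℤ × ℤ) :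
    wq (Lt τ) (lin p τ / N) = -2 * N ^ 3 * Es 3 N p τ := by
  rw [wq, PeriodPair.derivWeierstrassP, tsum_Lt h fun l => 2 / (lin p τ / N - l) ^ 3, Es,
    ← tsum_mul_left, ← tsum_neg]
  refine tsum_congr fun x => ?_
  rw [sub_lin hN, div_eq_mul_inv, ← inv_pow, inv_div]
  ring

theorem G_Es (h : τ ∈ HH) (k : ℕ) : (Lt τ).G k = Es k (-1) 0 τ := by
  rw [PeriodPair.G, tsum_Lt h fun l => (l ^ k)⁻¹, Es]
  simp

theorem G_mr {k : ℕ} (hk : 3 ≤ k) : Cus 1 (fun τ => (Lt τ).G k) ∧ Bd fun τ => (Lt τ).G k := by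
  have p : ∀ τ ∈ HH, (Lt (τ + (1 : ℝ))).G k = (Lt τ).G k := fun τ hτ => by
    simpa using (Sc.of_eq (Lt_add hτ 1)).G k
  exact ⟨⟨(Es_hol hk (by norm_num) 0).congr fun τ hτ => G_Es hτ k, p⟩,
    (Es_bd hk (by norm_num) 0 one_pos fun τ hτ => by
      rw [← G_Es hτ, ← G_Es (add_HH hτ 1), p τ hτ]).1.congr fun τ hτ => G_Es hτ k⟩

theorem g2_mr : Cus 1 (fun τ => (Lt τ).g₂) ∧ Bd fun τ => (Lt τ).g₂ :=
  ⟨(Cus.cst 60).mul (G_mr (by norm_num)).1, (Bd.cst 60).mul (G_mr (by norm_num)).2⟩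

theorem g3_bd : Bd fun τ => (Lt τ).g₃ := (Bd.cst 140).mul (G_mr (by norm_num)).2

theorem lin_shift (p : ℤ × ℤ) (τ : ℂ) {N : ℕ} (hN : N ≠ 0) :
    lin p (τ + (N : ℝ)) / (N : ℤ) = lin p τ / (N : ℤ) + lin (0, p.1) τ := by
  have hN' : (N : ℂ) ≠ 0 := by exact_mod_cast hN
  simp only [lin]
  push_cast
  field_simp
  ring

theorem q_mr {N : ℕ} (hN : N ≠ 0) (p : ℤ × ℤ) :
    Cus N (fun τ => wq (Lt τ) (lin p τ / (N : ℤ))) ∧ Bd (fun τ => wq (Lt τ) (lin p τ / (N : ℤ))) ∧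
      (¬ (N : ℤ) ∣ p.1 → Tendsto (fun τ => wq (Lt τ) (lin p τ / (N : ℤ))) Ii (𝓝 0)) := by
  have hN' : (N : ℤ) ≠ 0 := by exact_mod_cast hN
  have e := fun τ (hτ : τ ∈ HH) => wq_Es hτ hN' p
  have pe : ∀ τ ∈ HH, wq (Lt (τ + (N : ℝ))) (lin p (τ + (N : ℝ)) / (N : ℤ)) =
      wq (Lt τ) (lin p τ / (N : ℤ)) := fun τ hτ => by
    rw [lin_shift p τ hN, ← wq_per (lin_mem hτ _)]
    simpa using wq_congr (Lt_add hτ N) _
  obtain ⟨b, t⟩ := Es_bd le_rfl hN' p (h := N) (by positivity) fun τ hτ => mul_left_cancel₀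
    (a := -2 * ((N : ℤ) : ℂ) ^ 3) (by simpa using hN) (by
      rw [← e τ hτ, ← e _ (add_HH hτ _), pe τ hτ])
  exact ⟨⟨((Es_hol le_rfl hN' p).const_mul _).congr e, pe⟩, Bd.congr ((Bd.cst _).mul b) e, fun n =>
    (by simpa using (t n).const_mul (-2 * ((N : ℤ) : ℂ) ^ 3) : Tendsto _ _ _).congr'
      (ev_HH.mono fun τ hτ => by simpa using (e τ hτ).symm)⟩

theorem term_le (z l : ℂ) (h : z ≠ l) :
    ‖1 / (z - l) ^ 2 - 1 / l ^ 2‖ ≤ ‖z‖ * (‖l‖⁻¹ ^ 3 + ‖z - l‖⁻¹ ^ 3) := by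
  have h' := sub_ne_zero.2 h
  by_cases l0 : l = 0
  · have : ‖z‖ ≠ 0 := by simpa [l0] using h
    simp only [l0, sub_zero, ne_eq, OfNat.ofNat_ne_zero, not_false_eq_true, zero_pow, div_zero,
      norm_div, norm_one, norm_pow, norm_zero, inv_zero, zero_add]
    apply le_of_eq
    field_simp
  · rw [show 1 / (z - l) ^ 2 - 1 / l ^ 2 = z * (l⁻¹ * (z - l)⁻¹ ^ 2 - l⁻¹ ^ 2 * (z - l)⁻¹) by
      field_simp; ring, norm_mul]
    refine mul_le_mul_of_nonneg_left ((norm_sub_le _ _).trans ?_) (norm_nonneg _)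
    simp only [norm_mul, norm_pow, norm_inv]
    have a : 0 ≤ ‖l‖⁻¹ := by positivity
    have b : 0 ≤ ‖z - l‖⁻¹ := by positivity
    nlinarith [mul_nonneg (add_nonneg a b) (sq_nonneg (‖l‖⁻¹ - ‖z - l‖⁻¹))]

theorem root_le {x a b : ℂ} (e : x ^ 3 = a * x + b) : ‖x‖ ≤ 1 + ‖a‖ + ‖b‖ := by
  by_contra c
  rw [not_le] at c
  have := (congrArg norm e).le.trans (norm_add_le _ _)
  rw [norm_pow, norm_mul] at this
  have a0 := norm_nonneg a
  have b0 := norm_nonneg b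
  have x1 : 1 < ‖x‖ := by linarith
  nlinarith [mul_pos (sub_pos.2 c) (mul_pos (one_pos.trans x1) (one_pos.trans x1)),
    mul_nonneg a0 (mul_nonneg (one_pos.trans x1).le (sub_pos.2 x1).le),
    mul_nonneg b0 (mul_nonneg (sub_pos.2 x1).le (add_pos (one_pos.trans x1) one_pos).le),
    sq_nonneg ‖x‖]

theorem p_mr {N : ℕ} (hN : N ≠ 0) (hp : ¬ ((N : ℤ) ∣ p.1 ∧ (N : ℤ) ∣ p.2)) :
    Cus N (fun τ => wp (Lt τ) (lin p τ / (N : ℤ))) ∧ Bd fun τ => wp (Lt τ) (lin p τ / (N : ℤ)) := by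
  have hN' : (N : ℤ) ≠ 0 := by exact_mod_cast hN
  have n : ∀ τ ∈ HH, lin p τ / (N : ℤ) ∉ (Lt τ).lattice := fun τ hτ =>
    (lin_div_mem hτ hN').not.2 hp
  refine ⟨⟨(hol_tsum (f := fun x τ => 1 / (lin p τ / (N : ℤ) - lin x τ) ^ 2 - 1 / lin x τ ^ 2)
    (fun x => ?_) fun A B hB => ?_).congr fun τ hτ => tsum_Lt hτ
      fun l => 1 / (lin p τ / (N : ℤ) - l) ^ 2 - 1 / l ^ 2, fun τ hτ => ?_⟩, ?_⟩
  · refine ((((hol_inv (p - (N : ℤ) • x)).const_mul (N : ℤ)).pow 2).sub ((hol_inv x).pow 2)).congr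
      fun τ _ => ?_
    rw [sub_lin hN', one_div, one_div, ← inv_pow, ← inv_pow, inv_div, div_eq_mul_inv]
    rfl
  · obtain ⟨u, s, e⟩ := strip_bd le_rfl hN' p A hB
    obtain ⟨u', s', e'⟩ := strip_bd le_rfl (N := -1) (by norm_num) 0 A hB
    refine ⟨_, (s'.add (s.mul_left ((N : ℝ) ^ 3))).mul_left ((|(p.1 : ℝ)| * A + |(p.2 : ℝ)|) / N),
      fun x τ a b => (term_le _ _ fun c => n τ (hB.trans_le b)
        (by rw [c]; exact lin_mem (hB.trans_le b) x)).trans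
        (mul_le_mul ?_ (add_le_add ?_ ?_) (by positivity) ?_)⟩
    · rw [norm_div, lin]
      simp only [Int.cast_natCast, Complex.norm_natCast]
      gcongr
      refine (norm_add_le _ _).trans ?_
      simp only [norm_mul, Complex.norm_intCast]
      gcongr
    · simpa using e' x τ ((Complex.abs_re_le_norm τ).trans a) b
    · rw [sub_lin hN', norm_div, inv_div, div_eq_mul_inv, mul_pow]
      simp only [Int.cast_natCast, Complex.norm_natCast]
      exact mul_le_mul_of_nonneg_left (e x τ ((Complex.abs_re_le_norm τ).trans a) b) (by positivity)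
    · have := (norm_nonneg τ).trans a
      positivity
  · rw [lin_shift p τ hN, ← wp_per (lin_mem hτ _)]
    simpa using wp_congr (Lt_add hτ N) _
  · have b := ((Bd.cst 1).norm_left.add ((Bd.cst (1 / 4)).mul g2_mr.2).norm_left).add
      ((Bd.cst (1 / 4)).mul (((q_mr hN p).2.1.pow 2).add g3_bd)).norm_left
    refine IsBigO.trans (IsBigO.of_bound 1 (ev_HH.mono fun τ hτ => ?_)) b
    rw [one_mul, norm_one, Real.norm_of_nonneg (by positivity)]
    exact root_le (by simp only [Pi.mul_apply, Pi.add_apply]; linear_combination -wq_sq (n τ hτ) / 4)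

/-- torsion sections with denominator `N` -/
def Pn (N : ℕ) (z : ℂ → ℂ) : Prop := ∃ p, ∀ τ, z τ = lin p τ / (N : ℤ)

namespace Pn

variable {N : ℕ} {z w : ℂ → ℂ}

theorem add (a : Pn N z) (b : Pn N w) : Pn N fun τ => z τ + w τ := by
  obtain ⟨p, a⟩ := a
  obtain ⟨q, b⟩ := b
  exact ⟨p + q, fun τ => by simp only [a, b, lin_add, add_div]⟩

theorem neg (a : Pn N z) : Pn N fun τ => -z τ := by
  obtain ⟨p, a⟩ := a
  exact ⟨-p, fun τ => by simp only [a, lin_neg, neg_div]⟩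

theorem sub (a : Pn N z) (b : Pn N w) : Pn N fun τ => z τ - w τ := by
  simpa only [sub_eq_add_neg] using a.add b.neg

theorem nat (a : Pn N z) (n : ℕ) : Pn N fun τ => n * z τ := by
  obtain ⟨p, a⟩ := a
  exact ⟨(n : ℤ) • p, fun τ => by simp only [a, lin_smul, mul_div_assoc, Int.cast_natCast]⟩

theorem of (p : ℤ × ℤ) {m k : ℕ} (hk : k ≠ 0) (e : N = m * k) : Pn N fun τ => lin p τ / m :=
  ⟨(k : ℤ) • p, fun τ => by
    rw [lin_smul, e]
    push_cast
    rw [mul_comm (k : ℂ), mul_div_mul_right _ _ (by exact_mod_cast hk)]⟩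

theorem wp (a : Pn N z) (hN : N ≠ 0) (n : ∀ τ ∈ HH, z τ ∉ (Lt τ).lattice) :
    Mr N (fun τ => wp (Lt τ) (z τ)) ∧ Bd fun τ => wp (Lt τ) (z τ) := by
  obtain ⟨p, a⟩ := a
  have i : Complex.I ∈ HH := by simp
  obtain ⟨c, b⟩ := p_mr hN ((lin_div_mem i (by exact_mod_cast hN)).not.1 (a _ ▸ n _ i))
  simp only [a]
  exact ⟨.of_bd (by positivity) c b, b⟩

theorem wq (a : Pn N z) (hN : N ≠ 0) :
    Mr N (fun τ => wq (Lt τ) (z τ)) ∧ Bd fun τ => wq (Lt τ) (z τ) := by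
  obtain ⟨p, a⟩ := a
  obtain ⟨c, b, -⟩ := q_mr hN p
  simp only [a]
  exact ⟨.of_bd (by positivity) c b, b⟩

end Pn

theorem g2_Mr {N : ℕ} (hN : N ≠ 0) : Mr N fun τ => (Lt τ).g₂ :=
  .of_bd (by positivity) (by simpa using g2_mr.1.nat N) g2_mr.2

end Pool.Agent.MP_e23604_nt.Un

end

section

/-!
A sum of holomorphic families of points is constant when the sum of the differentials vanishes.
-/

set_option autoImplicit false

open Filter Topology Finset

namespace Pool.Agent.MP_e23604_nt.Un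

open B R S W

theorem loc_lift {X Y : ℂ → ℂ} (hX : DifferentiableOn ℂ X HH) (hY : DifferentiableOn ℂ Y HH)
    (n : ∀ τ ∈ HH, X τ ≠ 0) (e : ∀ τ ∈ HH, Y τ ^ 2 + Y τ = X τ ^ 3) {σ : ℂ} (h : σ ∈ HH) :
    ∃ Φ : ℂ → ℂ, ∀ᶠ τ in 𝓝 σ, pt 0 1 (X τ) (Y τ) = ue (Φ τ) ∧
      HasDerivAt Φ (deriv Y τ / X τ ^ 2 / 3) τ := by
  obtain ⟨z, z0, a, b⟩ := surj (L := L0) (x := X σ) (y := 2 * Y σ + 1) (by
    rw [L0_g2, L0_g3]; linear_combination 4 * e σ h)
  have o := HH_open.mem_nhds h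
  have d : deriv (wq L0) z ≠ 0 := by
    rw [(hd_q z0).deriv, a, L0_g2]
    simpa using n σ h
  have A := (an_q z0).analyticAt_localInverse d
  have r : ∀ᶠ y in 𝓝 (wq L0 z), wq L0 ((an_q z0).hasStrictDerivAt.localInverse _ _ _ d y) = y :=
    HasStrictDerivAt.eventually_right_inverse ..
  have v : (an_q z0).hasStrictDerivAt.localInverse _ _ _ d (wq L0 z) = z :=
    HasStrictFDerivAt.localInverse_apply_image ..
  generalize (an_q z0).hasStrictDerivAt.localInverse _ _ _ d = g at A r v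
  rw [b] at A r v
  have y : AnalyticAt ℂ (fun τ => 2 * Y τ + 1) σ := by
    have := hY.analyticAt o
    fun_prop
  have B := A.comp_of_eq y rfl
  have t : Tendsto (g ∘ fun τ => 2 * Y τ + 1) (𝓝 σ) (𝓝 z) := v ▸ B.continuousAt.tendsto
  have p := a ▸ (an_p z0).continuousAt.tendsto.comp t
  have x := (hX.continuousOn.continuousAt o).tendsto
  have k := (((p.pow 2).add (p.mul x)).add (x.pow 2)).eventually_ne (b₂ := 0) fun c =>
    n σ h (pow_eq_zero_iff two_ne_zero |>.1 (by linear_combination c / 3))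
  refine ⟨g ∘ fun τ => 2 * Y τ + 1, ?_⟩
  filter_upwards [o, (y.continuousAt.tendsto.eventually r).eventually_nhds, B.eventually_analyticAt,
    t.eventually (near z0), k] with τ h r B m k
  have r' := r.self_of_nhds
  have w := wq_sq m
  simp only [Function.comp] at *
  rw [r', L0_g2, L0_g3] at w
  have u : wp L0 (g (2 * Y τ + 1)) = X τ := sub_eq_zero.1 (mul_right_cancel₀ k (by
    linear_combination e τ h - w / 4))
  have := n τ h
  refine ⟨by rw [ue_of m, u, r']; congr 1; ring, (HasDerivAt.of_comp_left B.continuousAt (hd_q m)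
    (((hY.differentiableAt (HH_open.mem_nhds h)).hasDerivAt.const_mul 2).add_const 1) ?_
      r).congr_deriv ?_⟩ <;> rw [Function.comp_apply, u, L0_g2]
  · simpa using this
  · field_simp
    ring

theorem loc_const {ι : Type} {S : Finset ι} {X Y : ι → ℂ → ℂ}
    (hX : ∀ i ∈ S, DifferentiableOn ℂ (X i) HH) (hY : ∀ i ∈ S, DifferentiableOn ℂ (Y i) HH)
    (n : ∀ i ∈ S, ∀ τ ∈ HH, X i τ ≠ 0) (e : ∀ i ∈ S, ∀ τ ∈ HH, Y i τ ^ 2 + Y i τ = X i τ ^ 3)
    (d : ∀ τ ∈ HH, ∑ i ∈ S, deriv (Y i) τ / X i τ ^ 2 = 0) {σ τ : ℂ} (hσ : σ ∈ HH)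
    (hτ : τ ∈ HH) : ∑ i ∈ S, pt 0 1 (X i σ) (Y i σ) = ∑ i ∈ S, pt 0 1 (X i τ) (Y i τ) := by
  refine HH_conn.induction₂ (fun σ τ => ∑ i ∈ S, pt 0 1 (X i σ) (Y i σ) =
    ∑ i ∈ S, pt 0 1 (X i τ) (Y i τ)) (fun σ h => mem_nhdsWithin_of_mem_nhds ?_)
    (fun _ _ _ _ _ _ => Eq.trans) (fun _ _ _ _ => Eq.symm) hσ hτ
  choose! Φ H using fun i hi => loc_lift (hX i hi) (hY i hi) (n i hi) (e i hi) h
  obtain ⟨r, r0, H⟩ := Metric.eventually_nhds_iff_ball.1
    (((eventually_all_finset S).2 H).and (HH_open.eventually_mem h))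
  have D : ∀ τ ∈ Metric.ball σ r, HasDerivAt (fun τ => ∑ i ∈ S, Φ i τ) 0 τ := fun τ a =>
    (HasDerivAt.fun_sum fun i hi => ((H τ a).1 i hi).2).congr_deriv (by
      rw [← sum_div, d τ (H τ a).2, zero_div])
  have E : ∀ τ ∈ Metric.ball σ r, ∑ i ∈ S, pt 0 1 (X i τ) (Y i τ) = uE (∑ i ∈ S, Φ i τ) :=
    fun τ a => by rw [map_sum]; exact sum_congr rfl fun i hi => ((H τ a).1 i hi).1
  filter_upwards [Metric.ball_mem_nhds σ r0] with τ a
  rw [E τ a, E σ (Metric.mem_ball_self r0), Metric.isOpen_ball.is_const_of_deriv_eq_zero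
    (convex_ball σ r).isPreconnected (fun τ a => (D τ a).differentiableAt.differentiableWithinAt)
    (fun τ a => (D τ a).deriv) a (Metric.mem_ball_self r0)]

end Pool.Agent.MP_e23604_nt.Un

end

section

/-!
The points of the upper half plane whose lattice is hexagonal; forms of negative weight.
-/

set_option autoImplicit false

open Filter Topology Asymptotics Function
open scoped MatrixGroups Classical

namespace Pool.Agent.MP_e23604_nt.M

open Un

variable {L L' : PeriodPair} {τ : ℂ} {E A F : ℂ → ℂ}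

theorem mem_Ell {z d : ℂ} (hz : z ∉ L.lattice) (hd : z + d ∉ L'.lattice)
    (e : wp L =ᶠ[𝓝 z] fun t => wp L' (t + d)) : d ∈ L'.lattice := by
  by_contra h
  exact no_ext (cnt_shift L' d) (by simpa using h) (g := fun t => wp L' (t + d))
    (fun t ht _ => an_ps ht) hz hd e

theorem le_Ell (h2 : L.g₂ = L'.g₂) (h3 : L.g₃ = L'.g₃) : L.lattice ≤ L'.lattice := fun l hl => by
  have c : ((L.lattice : Set ℂ) ∪ {t | t + l ∈ L'.lattice}).Countable :=
    (cnt L).union (cnt_shift L' l)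
  have c' : ((L.lattice : Set ℂ) ∪ L'.lattice).Countable := (cnt L).union (cnt L')
  obtain ⟨z, hz⟩ := c.dense_compl ℝ |>.nonempty
  have z1 : z ∉ L.lattice := fun a => hz (Or.inl a)
  have z2 : z + l ∉ L'.lattice := fun a => hz (Or.inr a)
  have z3 : z + l ∉ L.lattice := fun a => z1 ((L.lattice.add_mem_iff_left hl).1 a)
  obtain ⟨u, hu, a, b⟩ := surj (L := L') (h2 ▸ h3 ▸ wq_sq z3)
  have e := sol_eq (an_p z3) hu (by
    simpa [h2] using ode_s (L := L) (z := z + l) (d := 0) (by simpa using z3)) a.symm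
    (by rw [L.deriv_weierstrassP, b])
  have d := mem_Ell z3 (by simpa using hu) e
  refine mem_Ell z1 z2 ?_
  filter_upwards [(continuous_add_const l).continuousAt.eventually e] with t ht
  rw [← wp_per hl, ht, wp_per d]

/-- a lattice is determined by its invariants -/
theorem lat_Ell (h2 : L.g₂ = L'.g₂) (h3 : L.g₃ = L'.g₃) : L.lattice = L'.lattice :=
  le_antisymm (le_Ell h2 h3) (le_Ell h2.symm h3.symm)

theorem sc_Ell {c : ℂ} (hc : c ^ 2 + c + 1 = 0) (h : L.g₂ = 0) : Sc c L L := by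
  have c3 : c ^ 3 = 1 := by linear_combination (c - 1) * hc
  have c0 : c ≠ 0 := fun e => by simp [e] at hc
  have s := scl_sc c c0 L
  have e := lat_Ell (L := L) (L' := scl c c0 L) (by rw [s.g₂, h, mul_zero])
    (by rw [s.g₃, show c ^ 6 = (c ^ 3) ^ 2 by ring, c3]; simp)
  exact ⟨c0, fun z => by rw [← s.2 z, e]⟩

theorem g3_Ell (h : L.g₂ = 0) : L.g₃ ≠ 0 := fun h' => by
  obtain ⟨z, hz, e1, e2⟩ := surj (L := L) (x := 0) (y := 0) (by simp [h'])
  exact nonsing hz e2 (by simp [e1, h])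

/-- the rotation that fixes a hexagonal point -/
theorem fix_Ell {c : ℂ} (hc : c ^ 2 + c + 1 = 0) (hτ : τ ∈ HH) (h : (Lt τ).g₂ = 0) :
    ∃ γ : SL(2, ℤ), mob γ τ = τ ∧ (γ 1 0 * τ + γ 1 1 : ℂ) = c := by
  have s := sc_Ell hc h
  obtain ⟨p, hp⟩ := (mem_Lt hτ).1 ((s.2 _).2 (lin_mem hτ (1, 0)))
  obtain ⟨q, hq⟩ := (mem_Lt hτ).1 ((s.2 _).2 (lin_mem hτ (0, 1)))
  simp only [lin, Int.cast_one, Int.cast_zero, one_mul, zero_mul, add_zero, zero_add,
    mul_one] at hp hq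
  have e : (q.1 * (p.1 + q.2 + 1), q.1 * p.2 + q.2 ^ 2 + q.2 + 1) = (0 : ℤ × ℤ) :=
    lin_eq_zero hτ (by
      simp only [lin]
      push_cast
      linear_combination hc + q.1 * hp + (q.2 + 1 + c) * hq)
  have e1 : q.1 * (p.1 + q.2 + 1) = 0 := congrArg Prod.fst e
  have e2 : q.1 * p.2 + q.2 ^ 2 + q.2 + 1 = 0 := congrArg Prod.snd e
  have q0 : q.1 ≠ 0 := fun a => by
    rw [a] at e2
    nlinarith [sq_nonneg (2 * q.2 + 1)]
  have e3 := (mul_eq_zero.1 e1).resolve_left q0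
  refine ⟨⟨!![p.1, p.2; q.1, q.2], by
    rw [Matrix.det_fin_two_of]; linear_combination q.2 * e3 - e2⟩, ?_, hq⟩
  change (p.1 * τ + p.2 : ℂ) / (q.1 * τ + q.2) = τ
  rw [hp, hq, mul_div_cancel_left₀ _ s.1]

/-- division by a function with simple zeros -/
theorem div_Ell (hE : DifferentiableOn ℂ E HH) (hA : DifferentiableOn ℂ A HH)
    (h : ∀ τ ∈ HH, A τ = 0 → deriv A τ ≠ 0 ∧ E τ = 0) :
    ∃ Q, DifferentiableOn ℂ Q HH ∧ (∀ τ ∈ HH, E τ = A τ * Q τ) ∧
      ∀ τ ∈ HH, ∀ᶠ σ in 𝓝[≠] τ, A σ ≠ 0 := by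
  have key : ∀ τ ∈ HH, A τ = 0 → ∀ᶠ σ in 𝓝 τ, dslope A τ σ ≠ 0 := fun τ hτ a =>
    (((Complex.differentiableOn_dslope (HH_open.mem_nhds hτ)).2 hA).differentiableAt
      (HH_open.mem_nhds hτ)).continuousAt.eventually_ne (by simpa using (h τ hτ a).1)
  have sl : ∀ {G : ℂ → ℂ} {τ σ}, G τ = 0 → σ ≠ τ → G σ = (σ - τ) * dslope G τ σ :=
    fun {G τ σ} a b => by simpa [a] using (sub_smul_dslope G τ σ).symm
  refine ⟨fun τ => if A τ = 0 then deriv E τ / deriv A τ else E τ / A τ, fun τ hτ => ?_,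
    fun τ hτ => ?_, fun τ hτ => ?_⟩
  · have m := HH_open.mem_nhds hτ
    by_cases a : A τ = 0
    · refine (((((Complex.differentiableOn_dslope m).2 hE).differentiableAt m).div
        (((Complex.differentiableOn_dslope m).2 hA).differentiableAt m)
        (key τ hτ a).self_of_nhds).congr_of_eventuallyEq ?_).differentiableWithinAt
      filter_upwards [key τ hτ a] with σ b
      by_cases c : σ = τ
      · simp [c, a]
      · have c' := sub_ne_zero.2 c
        rw [if_neg (sl a c ▸ mul_ne_zero c' b), sl a c, sl (h τ hτ a).2 c, mul_div_mul_left _ _ c']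
        rfl
    · refine (((hE.differentiableAt m).div (hA.differentiableAt m) a).congr_of_eventuallyEq
        ?_).differentiableWithinAt
      filter_upwards [(hA.differentiableAt m).continuousAt.eventually_ne a] with σ b
      simp [b]
  · by_cases a : A τ = 0
    · simp [a, (h τ hτ a).2]
    · simp [a, mul_div_cancel₀ _ a]
  · by_cases a : A τ = 0
    · filter_upwards [self_mem_nhdsWithin, nhdsWithin_le_nhds (key τ hτ a)] with σ b c
      exact sl a b ▸ mul_ne_zero (sub_ne_zero.2 b) c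
    · exact nhdsWithin_le_nhds ((hA.differentiableAt (HH_open.mem_nhds hτ)).continuousAt.eventually_ne a)

theorem Dl_zero_Ell : Tendsto Dl Ii (𝓝 0) :=
  (ModularForm.discriminant_isZeroAtImInfty.comp UpperHalfPlane.tendsto_comap_im_ofComplex).congr'
    (ev_HH.mono fun τ hτ => by
      simp [UpperHalfPlane.ofComplex_apply_of_im_pos hτ, Dl, ModularForm.discriminant])

/-- forms of negative weight vanish -/
theorem neg_Ell {N k : ℕ} (hN : N ≠ 0) (hk : k ≠ 0) (c : DifferentiableOn ℂ F HH)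
    (i : ∀ γ ∈ CongruenceSubgroup.Gamma N, ∀ τ ∈ HH,
      F (mob γ τ) * (γ 1 0 * τ + γ 1 1 : ℂ) ^ k = F τ)
    (b : ∀ γ : SL(2, ℤ), Bd fun τ => F (mob γ τ) * (γ 1 0 * τ + γ 1 1 : ℂ) ^ k) :
    ∀ τ ∈ HH, F τ = 0 := by
  have e : ∀ (γ : SL(2, ℤ)), ∀ τ ∈ HH, F (mob γ τ) ^ 12 * Dl (mob γ τ) ^ k =
      (F (mob γ τ) * (γ 1 0 * τ + γ 1 1 : ℂ) ^ k) ^ 12 * Dl τ ^ k := fun γ τ hτ => by
    rw [Dl_mob γ hτ, mul_pow, mul_pow, pow_right_comm, mul_assoc]
  have t : ∀ γ : SL(2, ℤ), Tendsto (fun τ => F (mob γ τ) ^ 12 * Dl (mob γ τ) ^ k) Ii (𝓝 0) :=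
    fun γ => (((b γ).pow 12).mul_zero (G := fun τ => Dl τ ^ k)
      (by simpa [hk] using Dl_zero_Ell.pow k)).congr' (ev_HH.mono fun τ hτ => (e γ τ hτ).symm)
  obtain ⟨κ, hκ⟩ := const_of (F := fun τ => F τ ^ 12 * Dl τ ^ k) hN ((c.pow 12).mul (Dl_hol.pow k))
    (fun γ hγ τ hτ => by rw [e γ τ hτ, i γ hγ τ hτ]) fun γ => .of_tendsto (t γ)
  have : κ = 0 := tendsto_nhds_unique tendsto_const_nhds
    ((t 1).congr' (ev_HH.mono fun τ hτ => hκ _ (mob_HH 1 hτ)))
  exact fun τ hτ => pow_eq_zero_iff (by norm_num) |>.1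
    ((mul_eq_zero.1 ((hκ τ hτ).trans this)).resolve_right (pow_ne_zero _ (Dl_ne hτ)))

theorem der_zero_Ell {h : ℝ} (hh : 0 < h) (c : Cus h F) (b : Bd F) :
    Tendsto (deriv F) Ii (𝓝 0) := by
  obtain ⟨φ, a, e⟩ := c.ex hh b
  have := (a.deriv.continuousAt.tendsto.comp (qq_zero hh)).mul
    ((qq_zero hh).mul_const (2 * Real.pi * Complex.I / h))
  rw [zero_mul, mul_zero] at this
  refine this.congr' ?_
  filter_upwards [ev_HH, (qq_zero hh).eventually a.eventually_analyticAt] with τ hτ a'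
  exact ((a'.differentiableAt.hasDerivAt.comp τ (qq_der h τ)).congr_of_eventuallyEq
    (eventually_of_mem (HH_open.mem_nhds hτ) e)).deriv.symm

/-- the derivative of a form of weight `k` -/
theorem der_mob_Ell {G : ℂ → ℂ} {k : ℕ} {γ : SL(2, ℤ)} (c : DifferentiableOn ℂ F HH)
    (c' : DifferentiableOn ℂ G HH)
    (e : ∀ τ ∈ HH, F (mob γ τ) = (γ 1 0 * τ + γ 1 1 : ℂ) ^ k * G τ) (hτ : τ ∈ HH) :
    deriv F (mob γ τ) = (γ 1 0 * τ + γ 1 1 : ℂ) ^ (k + 1) *
      (k * γ 1 0 * G τ + (γ 1 0 * τ + γ 1 1) * deriv G τ) := by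
  have d0 := den_ne γ hτ
  have a := (c.differentiableAt (HH_open.mem_nhds (mob_HH γ hτ))).hasDerivAt.comp τ (mob_der γ hτ)
  have b := (((((hasDerivAt_id τ).const_mul (γ 1 0 : ℂ)).add_const (γ 1 1 : ℂ)).pow k).mul
    (c'.differentiableAt (HH_open.mem_nhds hτ)).hasDerivAt).congr_of_eventuallyEq
    (eventually_of_mem (HH_open.mem_nhds hτ) e)
  have := a.unique b
  rw [mul_inv_eq_iff_eq_mul₀ (pow_ne_zero 2 d0)] at this
  rw [this]
  cases k <;> simp <;> ring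

/-- the zeros of the first invariant are simple -/
theorem g2_Ell (hτ : τ ∈ HH) (h : (Lt τ).g₂ = 0) : deriv (fun τ => (Lt τ).g₂) τ ≠ 0 := fun h' => by
  have c2 := g2_mr.1
  have c3 : Cus 1 fun τ => (Lt τ).g₃ := (Cus.cst 140).mul (G_mr (by norm_num)).1
  have w2 : ∀ γ : SL(2, ℤ), ∀ τ ∈ HH,
      (Lt (mob γ τ)).g₂ = (γ 1 0 * τ + γ 1 1 : ℂ) ^ 4 * (Lt τ).g₂ := fun γ τ hτ => by
    rw [(Lt_sc γ hτ).g₂, mul_inv_cancel_left₀ (pow_ne_zero _ (den_ne γ hτ))]
  have w3 : ∀ γ : SL(2, ℤ), ∀ τ ∈ HH,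
      (Lt (mob γ τ)).g₃ = (γ 1 0 * τ + γ 1 1 : ℂ) ^ 6 * (Lt τ).g₃ := fun γ τ hτ => by
    rw [(Lt_sc γ hτ).g₃, mul_inv_cancel_left₀ (pow_ne_zero _ (den_ne γ hτ))]
  have g3 := g3_Ell h
  have ni : ¬ ∀ τ ∈ HH, (Lt τ).g₂ = 0 := fun a => by
    have i : Complex.I ∈ HH := by simp
    obtain ⟨γ, -, e⟩ := fix_Ell zc3_spec i (a _ i)
    have := zc3_spec
    rw [← e] at this
    have a := congrArg Complex.im this
    have b := congrArg Complex.re this
    simp [sq] at a b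
    have a' : γ 1 1 * γ 1 0 + γ 1 0 * γ 1 1 + γ 1 0 = 0 := by exact_mod_cast a
    have b' : γ 1 1 * γ 1 1 - γ 1 0 * γ 1 0 + γ 1 1 + 1 = 0 := by exact_mod_cast b
    have : γ 1 0 = 0 := (mul_eq_zero.1 (show γ 1 0 * (2 * γ 1 1 + 1) = 0 by
      linear_combination a')).resolve_right (by omega)
    rw [this] at b'
    nlinarith [sq_nonneg (2 * γ 1 1 + 1)]
  generalize hG : (fun τ => (Lt τ).g₂) = G at *
  generalize hH : (fun τ => (Lt τ).g₃) = H at *
  have eG : ∀ τ, (Lt τ).g₂ = G τ := congrFun hG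
  have eH : ∀ τ, (Lt τ).g₃ = H τ := congrFun hH
  have b2 : Bd G := hG ▸ g2_mr.2
  have b3 : Bd H := hH ▸ g3_bd
  simp only [eG, eH] at *
  have cW := (((Cus.cst 2).mul c2).mul c3.deriv).sub (((Cus.cst 3).mul c3).mul c2.deriv)
  have tW := (Bd.mul_zero ((Bd.cst 2).mul b2) (der_zero_Ell one_pos c3 b3)).sub
    (Bd.mul_zero ((Bd.cst 3).mul b3) (der_zero_Ell one_pos c2 b2))
  rw [sub_zero] at tW
  have inv : ∀ γ : SL(2, ℤ), ∀ τ ∈ HH,
      (2 * G (mob γ τ) * deriv H (mob γ τ) - 3 * H (mob γ τ) * deriv G (mob γ τ)) / Dl (mob γ τ) =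
        (2 * G τ * deriv H τ - 3 * H τ * deriv G τ) / Dl τ := fun γ τ hτ => by
    rw [der_mob_Ell c2.hol c2.hol (w2 γ) hτ, der_mob_Ell c3.hol c3.hol (w3 γ) hτ, w2 γ τ hτ,
      w3 γ τ hτ, Dl_mob γ hτ, ← mul_div_mul_left _ (Dl τ) (pow_ne_zero 12 (den_ne γ hτ))]
    congr 1
    push_cast
    ring
  obtain ⟨κ, hκ⟩ := const_of (N := 1) one_ne_zero (cW.hol.div Dl_hol fun _ => Dl_ne)
    (fun γ _ => inv γ) fun γ => (Bd.div ((cW.dec one_pos tW).trans Dl_low)).congr (inv γ)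
  have k0 : κ = 0 := by simpa [h, h'] using (hκ τ hτ).symm
  have m := HH_open.mem_nhds hτ
  have ev : ∀ᶠ σ in 𝓝 τ, HasDerivAt (fun σ => G σ ^ 3 / H σ ^ 2) 0 σ := by
    filter_upwards [m, (c3.dat hτ).continuousAt.eventually_ne g3] with σ a b
    have := hκ σ a
    rw [k0, Pi.div_apply, div_eq_zero_iff, or_iff_left (Dl_ne a)] at this
    refine (((c2.dat a).hasDerivAt.pow 3).div ((c3.dat a).hasDerivAt.pow 2)
      (pow_ne_zero 2 b)).congr_deriv ?_
    rw [div_eq_zero_iff]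
    left
    simp only [Pi.pow_apply]
    linear_combination -(G σ ^ 2 * H σ) * this
  obtain ⟨r, r0, hr⟩ := Metric.eventually_nhds_iff_ball.1
    (ev.and ((c3.dat hτ).continuousAt.eventually_ne g3))
  refine ni ((c2.hol.analyticOnNhd HH_open).eqOn_zero_of_preconnected_of_eventuallyEq_zero
    HH_conn hτ ?_)
  filter_upwards [Metric.ball_mem_nhds τ r0] with σ a
  have := Metric.isOpen_ball.is_const_of_deriv_eq_zero (convex_ball τ r).isPreconnected
    (fun σ a => (hr σ a).1.differentiableAt.differentiableWithinAt) (fun σ a => (hr σ a).1.deriv)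
    a (Metric.mem_ball_self r0)
  simpa [h, (hr σ a).2] using this

/-- the zeros of the first coefficient of the normal form are simple and hexagonal -/
theorem dA_Ell {t : ℂ → ℂ} (h3 : ∀ τ ∈ HH, 3 * t τ ∈ (Lt τ).lattice)
    (h0 : ∀ τ ∈ HH, t τ ∉ (Lt τ).lattice)
    (ha : DifferentiableOn ℂ (fun τ => dA (Lt τ) (t τ)) HH)
    (hq : DifferentiableOn ℂ (fun τ => wq (Lt τ) (t τ)) HH) (hτ : τ ∈ HH)
    (h : dA (Lt τ) (t τ) = 0) : (Lt τ).g₂ = 0 ∧ wp (Lt τ) (t τ) = 0 ∧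
      deriv (fun τ => dA (Lt τ) (t τ)) τ ≠ 0 := by
  have e : ∀ τ ∈ HH, (Lt τ).g₂ =
      dA (Lt τ) (t τ) * (dA (Lt τ) (t τ) ^ 3 / 12 - 2 * wq (Lt τ) (t τ)) := fun τ hτ => by
    linear_combination g2_eq (h3 τ hτ) (h0 τ hτ) -
      (dA (Lt τ) (t τ) ^ 2 / 12 + wp (Lt τ) (t τ)) * flex (h3 τ hτ) (h0 τ hτ)
  have g : (Lt τ).g₂ = 0 := by rw [e τ hτ, h, zero_mul]
  have m := HH_open.mem_nhds hτ
  refine ⟨g, by have := flex (h3 τ hτ) (h0 τ hτ); rw [h] at this; linear_combination -this / 12,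
    fun d => g2_Ell hτ g ?_⟩
  have a := (ha.differentiableAt m).hasDerivAt
  rw [((a.mul (((a.pow 3).div_const 12).sub ((hq.differentiableAt m).hasDerivAt.const_mul
    2))).congr_of_eventuallyEq (eventually_of_mem m e)).deriv, d, h]
  simp

end Pool.Agent.MP_e23604_nt.M

end

section

/-!
The normal forms of two isogenous lattices at points of order three.
-/

set_option autoImplicit false

open Finset

namespace Pool.Agent.MP_e23604_nt.PH

open Un

variable {L L' : PeriodPair} {t u s ρ γ Y : ℂ}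

theorem Two.swap_FT (h : Two L t s) : Two L s t :=
  ⟨h.Q3, h.P3, h.Q0, h.P0, add_comm s t ▸ h.ad, by
    rw [← neg_sub]; simpa only [neg_mem_iff] using h.sb⟩

/-- the three abscissae and the sum over a coset -/
theorem sym_FT (h : Two L (3 * ρ) s) {x y z w : ℂ} (hx : x = dX L (3 * ρ) s)
    (hy : y = dX L (3 * ρ) (s + 3 * ρ)) (hz : z = dX L (3 * ρ) (s - 3 * ρ))
    (hw : w = dX L (3 * ρ) ρ + dX L (3 * ρ) (ρ + 3 * ρ) + dX L (3 * ρ) (ρ - 3 * ρ)) :
    x * y + x * z + y * z = wq L (3 * ρ) * dA L (3 * ρ) ∧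
    x * y + x * z + y * z - 3 * y * z = wq L (3 * ρ) * dB L (3 * ρ) s ∧
    (x * y + x * z + y * z - (x * y + x * z + y * z - 3 * y * z) ^ 3 /
      (3 * (x * y * z) * (x + y + z - w))) ^ 3 =
      wq L (3 * ρ) ^ 3 * (dA L (3 * ρ) ^ 3 - dB L (3 * ρ) s ^ 3) := by
  obtain ⟨e, p⟩ := h.par
  obtain ⟨L2, r⟩ := ex_rep3 h.P3 h.P0
  obtain ⟨-, -, -, -, γ, -, -, ⟨g1, g2⟩, -⟩ := Un.flip h p r
  obtain ⟨x1, x2⟩ := h.x_eq
  have b3 := h.b_cube
  have b0 := h.b_ne
  have q0 := a3_ne h.P3 h.P0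
  have he := p.he
  have y1 := p.xp
  have z1 := p.xm
  have w1 : w = dA L (3 * ρ) * γ + 3 * γ ^ 2 := by
    rw [hw, ← g2, s3]
    simp only [dX]
    ring
  rw [← hx] at x1 x2
  rw [← hy] at y1
  rw [← hz] at z1
  clear hx hy hz hw g2 p
  generalize dA L (3 * ρ) = a at *
  generalize dB L (3 * ρ) s = b at *
  generalize wq L (3 * ρ) = q at *
  have e1 : y + z = (b - a) * (2 * a + b) / 9 := by
    linear_combination y1 + z1 - (b - a) * b / 9 * he
  have e2 : y * z = -(b - a) * q / 3 := by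
    rw [y1, z1]
    linear_combination (b - a) / 9 * x2 + (b - a) ^ 2 / 9 * x1 +
      (b - a) ^ 2 * (b ^ 2 * (e - 1) - a * b) / 81 * he
  have e3 : x * y + x * z + y * z = q * a := by
    linear_combination x * e1 + e2 - (2 * a + b) / 9 * x2
  have e4 : x * y + x * z + y * z - 3 * y * z = q * b := by linear_combination e3 - 3 * e2
  have e5 : 3 * (x * y * z) * (x + y + z - w) = q ^ 2 * (a ^ 2 + 3 * a * γ + 9 * γ ^ 2) := by
    have f1 : x * y * z = -q ^ 2 := by linear_combination x * e2 + q / 3 * x2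
    have f2 : x + y + z - w = -(a ^ 2 + 3 * a * γ + 9 * γ ^ 2) / 3 := by
      linear_combination x1 + e1 - w1
    rw [f1, f2]
    ring
  have e6 : b ^ 3 = (a - 3 * γ) * (a ^ 2 + 3 * a * γ + 9 * γ ^ 2) := by
    linear_combination b3 + 27 * g1
  have e7 : a ^ 2 + 3 * a * γ + 9 * γ ^ 2 ≠ 0 := right_ne_zero_of_mul (e6 ▸ pow_ne_zero 3 b0)
  refine ⟨e3, e4, ?_⟩
  rw [e4, e3, e5, mul_pow, e6, (div_eq_iff (mul_ne_zero (pow_ne_zero 2 q0) e7)).2
    (show _ = q * (a - 3 * γ) * _ by ring)]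
  ring

/-- the parameter of a point of order nine -/
theorem par_FT (h3 : 3 * t ∈ L.lattice) (h : t ∉ L.lattice) (hu : u ∉ L.lattice)
    (hs : u + t ∉ L.lattice) (hd : u - t ∉ L.lattice) (g : Gam L t u γ)
    (h1 : wp L (u + t) - wp L u ≠ 0)
    (hY : Y * (wp L (u + t) - wp L u) = wp L u - wp L (u - t)) :
    dA L t * (Y * (Y + 1)) = -γ * (Y ^ 3 + 3 * Y ^ 2 - 1) ∨
      dA L t * (Y * (Y + 1)) = γ * (Y ^ 3 - 3 * Y - 1) := by
  have n := dF_nrm h3 h g.1 hu hs hd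
  rw [g.2, show _ + 3 * γ ^ 2 - dA L t * γ - 3 * γ ^ 2 = 0 by ring, mul_zero, dF, dF, dX_neg,
    neg_neg] at n
  have a := (trP h3 h hu hs hd).1
  have b := (trM h3 h hu hs hd).1
  have c := dY_neg L t u
  have d := nrm h3 h hu
  have x0 := dX_ne h hu hs hd
  have g0 : γ ≠ 0 := fun e => a3_ne h3 h (by rw [← g.1, e]; ring)
  have k1 : dX L t (u + t) - dX L t u ≠ 0 := by simpa [dX] using h1
  have k2 : Y * (dX L t (u + t) - dX L t u) = dX L t u - dX L t (u - t) := by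
    simpa [dX] using hY
  rw [← g.1] at a b c
  generalize dX L t (u + t) = x1 at *
  generalize dX L t (u - t) = x2 at *
  generalize dX L t u = x at *
  generalize dY L t (-u) = m at *
  generalize dY L t u = p at *
  generalize dA L t = A at *
  clear h1 hY g
  have key : ∀ x1 x2 m p : ℂ, x ^ 2 + γ * m - γ ^ 2 * x = 0 → x1 * m = γ ^ 3 * x →
      x2 * p = γ ^ 3 * x → p * m = -x ^ 3 → m = -p - A * x - γ ^ 3 →
      x1 * (γ ^ 2 - x) = γ ^ 4 ∧ x * x2 = -γ ^ 2 * (γ ^ 2 - x) ∧ γ ^ 2 - x ≠ 0 ∧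
        A * x * γ * (γ ^ 2 - x) = γ ^ 2 * x ^ 2 - x * (γ ^ 2 - x) ^ 2 - γ ^ 4 * (γ ^ 2 - x) := by
    intro x1 x2 m p n a b d c
    have f1 : x1 * (γ ^ 2 - x) = γ ^ 4 :=
      mul_left_cancel₀ x0 (by linear_combination γ * a - x1 * n)
    have f2 : p * (γ ^ 2 - x) = -γ * x ^ 2 :=
      mul_left_cancel₀ x0 (by linear_combination γ * d - p * n)
    refine ⟨f1, mul_left_cancel₀ (mul_ne_zero g0 x0) ?_,
      fun e => pow_ne_zero 4 g0 (by rw [← f1, e, mul_zero]), ?_⟩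
    · linear_combination x2 * f2 - (γ ^ 2 - x) * b
    · linear_combination γ * (γ ^ 2 - x) * c - γ * f2 - (γ ^ 2 - x) * n
  rcases mul_eq_zero.1 n with n | n
  · obtain ⟨f1, f2, f3, f4⟩ := key _ _ _ _ n a b d c
    have f5 : γ ^ 2 - x = Y * x := mul_left_cancel₀ (mul_ne_zero f3 k1) (by
      linear_combination -x * (γ ^ 2 - x) * k2 + (γ ^ 2 - x) * f1 + (γ ^ 2 - x) * f2)
    refine Or.inl (mul_left_cancel₀ (mul_ne_zero g0 (pow_ne_zero 2 x0)) ?_)
    have f6 : γ ^ 2 = x * (1 + Y) := by linear_combination f5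
    rw [f5, show γ ^ 4 = (γ ^ 2) ^ 2 by ring, f6] at f4
    linear_combination (1 + Y) * f4 + x ^ 2 * (Y ^ 3 + 3 * Y ^ 2 - 1) * f6
  · obtain ⟨f1, f2, f3, f4⟩ := key _ _ _ _ n b a (by rw [mul_comm, d]) (by linear_combination c)
    have f5 : x = Y * (γ ^ 2 - x) := mul_left_cancel₀ (mul_ne_zero x0 k1) (by
      linear_combination -x * (γ ^ 2 - x) * k2 + x * f1 + x * f2)
    refine Or.inr (mul_left_cancel₀ (mul_ne_zero g0 (pow_ne_zero 2 f3)) ?_)
    obtain ⟨δ, hδ⟩ : ∃ δ, γ ^ 2 - x = δ := ⟨_, rfl⟩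
    rw [hδ] at f5 f4 ⊢
    have f6 : γ ^ 2 = δ * (1 + Y) := by linear_combination f5 + hδ
    rw [f5, show γ ^ 4 = (γ ^ 2) ^ 2 by ring, f6] at f4
    linear_combination (1 + Y) * f4 - δ ^ 2 * (Y ^ 3 - 3 * Y - 1) * f6

end Pool.Agent.MP_e23604_nt.PH

end
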