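import Pool.Agent.Mg.Fe23604m.Ga474eb
import Pool.Agent.Mg.Fe23604m.Gf509f6
import Pool.Agent.Mg.Fe23604m.G9f00c9
import Pool.Agent.Mg.Fe23604m.Ga6f63b

set_option linter.all false

section

set_option autoImplicit false

open Finset QuadraticAlgebra
open scoped Classical

namespace Pool.Agent.MP_e23604_nt.W

open B R S

lemma prod_XLCP {A : Type} [CommMonoid A] {b : Zw} (hb : b ≠ 0) {D : Pt} (hD : b • D = 0)
    (F : Pt → A) : ∏ T ∈ tor b, F (D + T) = ∏ T ∈ tor b, F T :=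
  prod_equiv (Equiv.addLeft D) (fun T => by
    rw [mem_tor hb, mem_tor hb, Equiv.coe_addLeft, smul_add, hD, zero_add]) fun _ _ => rfl

lemma sum_XLCP {A : Type} [AddCommMonoid A] {b : Zw} (hb : b ≠ 0) {D : Pt} (hD : b • D = 0)
    (F : Pt → A) : ∑ T ∈ tor b, F (D + T) = ∑ T ∈ tor b, F T :=
  prod_XLCP (A := Multiplicative A) hb hD F

theorem NMZ_pf (H : H5) (hCOI : COI_st) : NMZ_st := by
  intro R _ N j φ U a G Y hN hG ha hU hc h2 h3 hf
  have hN' : (N : Zw) ≠ 0 := Nat.cast_ne_zero.2 hN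
  have a6 : IsCoprime a 6 := ha.of_mul_right_left
  obtain ⟨-, t2, -, t4⟩ := H.THI a (cop6_ne a6)
  obtain ⟨-, c2, -⟩ := hCOI R φ N G hN' hG (by rw [map_natCast, j_zero j])
  have hd : ∀ g ∈ U, (N : Zw) • (gal g Y - Y) = 0 := fun g hg => by
    rw [smul_sub, ← gal_smul (hU hg).1, hf g hg, sub_self]
  have h0 : ∀ T ∈ tor N, Th a (Y + T) ≠ 0 := fun T hT => t4 a6 _ fun e => h3 (by
    have := congrArg ((N : Zw) • ·) e
    simp only [smul_zero] at this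
    rwa [smul_comm, smul_add, (mem_tor hN').1 hT, add_zero] at this)
  have hg : ∀ g ∈ U, ∀ T ∈ tor N, g (Th a (Y + T)) = Th a (Y + (gal g Y - Y + T)) :=
    fun g hg T hT => by
      rw [← (t2 g (hU hg).1 _).1, map_add, (hU hg).2 T ((mem_tor hN').1 hT), ← add_assoc,
        add_sub_cancel]
  have hs : ∀ g ∈ U, km N g (Th a ((N : Zw) • Y)) = ∑ T ∈ tor N, km N g (Th a (Y + T)) :=
    fun g hg' => by
      have e : (df N (tor N) fun T => g (Th a (Y + T))) = df N (tor N) fun T => Th a (Y + T) := by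
        unfold df
        rw [prod_congr rfl (hg g hg'), prod_congr rfl fun T hT => congrArg (rt N) (hg g hg' T hT),
          prod_XLCP hN' (hd g hg') fun T => Th a (Y + T),
          prod_XLCP hN' (hd g hg') fun T => rt N (Th a (Y + T))]
      rw [← H.NRM1 a N Y a6 ha.of_mul_right_right h2, km_prod hN g _ h0, hc g hg', one_mul, e,
        add_sub_cancel_right]
  refine ⟨fun g => ∑ T ∈ tor N, j (km N g (Th a (Y + T))) * ic φ G T,
    lc_sum _ fun T _ => (km_lc N U _).map fun x => j x * ic φ G T, fun g hg1 h hh => ?_⟩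
  have e1 : ∑ T ∈ tor N, j (km N (g * h) (Th a (Y + T))) * ic φ G T =
      ∑ T ∈ tor N, j (km N h (Th a (Y + T))) * ic φ G T +
        ∑ T ∈ tor N, j (km N g (Th a (Y + T))) * (ic φ G T - ic φ G (gal h Y - Y)) := by
    rw [← sum_XLCP hN' (hd h hh) fun T => j (km N g (Th a (Y + T))) *
      (ic φ G T - ic φ G (gal h Y - Y)), ← sum_add_distrib]
    refine sum_congr rfl fun T hT => ?_
    rw [km_mul hN g h (h0 T hT), hc g hg1, one_mul, map_add, hg h hh T hT,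
      ((c2 _ (hd h hh)).2.2.2 T ((mem_tor hN').1 hT)).1]
    ring
  simp only [cj, hc g hg1, map_one, one_mul]
  rw [e1, hs g hg1, map_sum, sum_mul]
  simp only [mul_sub, sum_sub_distrib]
  ring

theorem LCP_pf (H : H5) (hCOI : COI_st) (hAHM : AHM_st) (hNMZ : NMZ_st) : LCP_st := by
  intro R _ χ r p n m a M b Q' P' φ j V hX hP y hy
  have hN : (p : Zw) ^ n ≠ 0 := pow_ne_zero _ hX.p0
  have hN' : p ^ n ≠ 0 := pow_ne_zero _ hX.pp.ne_zero
  have hχ := (H.LZ χ r M hX.tw hX.ne hX.dr).1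
  have hC := hX.chr H.LZ j
  obtain ⟨-, t2, t3, -⟩ := H.THI a hX.a0
  have hu : ∀ u ∈ UM M, ∀ T, eta χ u T = gal u T := fun u hu T => by
    rw [eta_apply, hχ u hu, ZMod.val_zero, pow_zero, one_smul]
  have hQ := hX.genQ.zero
  have hY := (hX.gd H.CYG).eta χ hy
  obtain ⟨-, c2, -⟩ := hCOI R φ _ _ hN hX.genG hX.φn
  have a1 := (hAHM R φ _ M Q' hN hX.ne hX.dn hX.gen hX.φn).2.2.2.2.2 χ y hy
  have eY : (p : Zw) ^ n • eta χ y Q' = eta χ y ((p : Zw) ^ n • Q') := (eta_smul χ hy _ _).symm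
  generalize hQ' : (p : Zw) ^ n • Q' = Q at *
  have hM : M • eta χ y Q = 0 := by rw [← eta_smul χ hy, hQ, map_zero]
  have key : ∀ P'' : Pt, E1 V.v ((p : Zw) ^ n • P'') → Fx χ V.D ((p : Zw) ^ n • P'') →
      Fix (V.D ⊓ UM M) (Th a (eta χ y Q + (p : Zw) ^ n • P'')) ∧
      Bo2 (cj j) (V.D ⊓ UM M) fun g h => j (km (p ^ n) g (Th a (eta χ y Q + (p : Zw) ^ n • P''))) *
        (lamZ φ χ M y * Ah φ M Q' h + ic φ (M • Q') (bd χ P'' h)) := by
    intro P'' k1 k2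
    have e : ((p ^ n : ℕ) : Zw) • (eta χ y Q' + P'') = eta χ y Q + (p : Zw) ^ n • P'' := by
      rw [Nat.cast_pow, smul_add, eY]
    have f : ∀ g ∈ V.D ⊓ UM M, gal g (eta χ y Q + (p : Zw) ^ n • P'') =
        eta χ y Q + (p : Zw) ^ n • P'' := fun g hg => by
      rw [map_add, hg.2.2 _ hM, ← hu g hg.2, k2 g hg.1]
    refine ⟨fun g hg => by rw [← (t2 g hg.2.1 _).1, f g hg], ?_⟩
    have := hNMZ R (p ^ n) j φ (V.D ⊓ UM M) a (M • Q') (eta χ y Q' + P'') hN'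
      (by simpa using hX.genG) (hX.cop.of_isCoprime_of_dvd_right (mul_dvd_mul_left 6 hX.dN))
      (inf_le_right.trans (UM_mono hX.dN)) (fun g hg => hC.cyc g hg.2)
      (by
        rw [mul_smul, e]
        simpa using Gd.two_add (b := 1) (Y := eta χ y Q) (by simpa using hY) k1)
      (by
        rw [e, smul_add]
        exact (not_E1.1 (not_E1_add ((hY.smul (cop6.1 hX.a6).2).nE1 V) (E1m k1 a).1)).1)
      (by rw [e]; exact f)
    refine (((H.LIN R _ _).1 _ _ 0).2.2.2 _ _ le_rfl (fun _ _ => rfl) fun g _ h hh => ?_).2 this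
    have k3 : (p : Zw) ^ n • bd χ P'' h = 0 := by rw [← bd_smul hh.2.1, bd, k2 h hh.1, sub_self]
    rw [e, map_add, add_sub_add_comm, ← hu h hh.2 P'',
      ((c2 _ (a1 h hh.2).1).2.2.2 (eta χ h P'' - P'') k3).1, (a1 h hh.2).2, bd]
  obtain ⟨f1, b1⟩ := key P' hP.e1 hP.fx
  obtain ⟨f2, b2⟩ := key (-P') (by rw [smul_neg]; exact E1n hP.e1) fun g hg => by
    rw [smul_neg, map_neg, hP.fx g hg]
  have k4 : ∀ h ∈ V.D, ic φ (M • Q') (bd χ (-P') h) = -ic φ (M • Q') (bd χ P' h) := fun h hh => by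
    rw [← neg_one_smul Zw P', bd_smul hh.2, (c2 _ (by
      rw [← bd_smul hh.2, bd, hP.fx h hh, sub_self])).2.1, map_neg, map_one, neg_one_mul]
  rw [smul_neg, ← sub_eq_add_neg] at f2 b2
  generalize (p : Zw) ^ n • P' = P at *
  have p1 : V.v p ≤ 1 := bLocA_nat V.na p
  have p0 := V.v.nonneg p
  have n9 : 0 < V.v 9 := V.v.pos (by norm_num)
  have z0 := V.v.nonneg (zz P)
  obtain ⟨ρ, hρ⟩ : ∃ ρ, ρ = V.v (zz P) / V.v 9 := ⟨_, rfl⟩
  have r0 : 0 ≤ ρ := hρ ▸ div_nonneg z0 n9.le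
  have r1 : ρ ^ 2 < V.v p ^ (n + 2) := by
    have := hP.sm
    rw [show (81 : Qb) = 9 ^ 2 by norm_num, map_pow] at this
    rw [hρ, div_pow, div_lt_iff₀ (pow_pos n9 2)]
    exact this
  have r2 : ρ < V.v p ^ 2 := lt_of_pow_lt_pow_left₀ 2 (by positivity) (by
    rw [← pow_mul]
    exact r1.trans_le (pow_le_pow_of_le_one p0 p1 (by have := hX.n2; omega)))
  have r3 : ρ < 1 := r2.trans_le (pow_le_one₀ p0 p1)
  obtain ⟨s1, s2, s3, s4, s5, s6⟩ := H.TAY a V _ P hX.a6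
    (hP.ov.cop (hX.aM.of_isCoprime_of_dvd_right hX.dp).symm) hY hP.e1
    ((div_lt_one n9).1 (hρ ▸ r3))
  rw [← hρ] at s4 s5 s6
  have r4 : ρ ^ 2 ≤ ρ := by nlinarith
  have s7 : V.v (de a (eta χ y Q) * zz P) ≤ ρ := by
    rw [map_mul, hρ, le_div_iff₀ n9]
    nlinarith
  have e1 : eP χ a Q P y = Th a (eta χ y Q + P) / Th a (eta χ y Q) /
      (Th a (eta χ y Q - P) / Th a (eta χ y Q)) := by rw [eP, div_div_div_cancel_right₀ s2]
  have s8 : V.v (Th a (eta χ y Q - P) / Th a (eta χ y Q)) = 1 := by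
    have := bLocA_add_eq V.na (a := 1) ((bLocA_sub_le V.na (s5.trans r4) s7).trans_lt
      (by rwa [map_one]))
    rw [map_one] at this
    rw [← this]
    congr 1
    ring
  have B0 : Th a (eta χ y Q - P) / Th a (eta χ y Q) ≠ 0 := fun e => by simp [e] at s8
  have A0 : Th a (eta χ y Q + P) / Th a (eta χ y Q) ≠ 0 := fun e => by simp [e] at s3
  have s9 : V.v (eP χ a Q P y) = 1 := by rw [e1, map_div₀, s3, s8, div_one]
  refine ⟨?_, fun h hh => ?_, fun u hu' => ?_, fun β hβ hv => ?_⟩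
  · rw [e1, div_sub_one B0, map_div₀, s8, div_one]
    refine lt_of_eq_of_lt (congrArg V.v ?_) ((bLocA_add_le V.na (bLocA_add_le V.na
      (bLocA_sub_le V.na (s4.trans r4) (s5.trans r4)) s7) s7).trans_lt r2)
    ring
  · rw [eP, eP, map_div₀, ← (t3 χ h hh.2 _).1, ← (t3 χ h hh.2 _).1, map_add, map_sub, hP.fx h hh,
      eta_mul hX.tw.add hh.2 hy]
  · rw [eP, eP, eta_mul hX.tw.add hy hu'.1, hu u hu', hu'.2 Q hQ]
  have Z : ∀ u : Qb, Fix (V.D ⊓ UM M) u → V.v (u - 1) < V.v p ^ (n + 1) →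
      u ≠ 0 ∧ ∀ g ∈ V.D ⊓ UM M, km (p ^ n) g u = 0 := fun u u1 u2 => by
    refine ⟨fun e => ?_, fun g hg => ?_⟩
    · rw [e, zero_sub, V.v.map_neg, map_one] at u2
      exact u2.not_ge (pow_le_one₀ p0 p1)
    · obtain ⟨w, hw⟩ := (H.POW p n V _ u hX.pp (inf_le_left.trans inf_le_left) u1 u2).2
      have := hw g hg
      rwa [hC.cyc g hg.2, sub_self, zero_mul] at this
  have f0 : Fix (V.D ⊓ UM M) (Th a (eta χ y Q)) := fun g hg => by
    rw [← (t2 g hg.2.1 _).1, hg.2.2 _ hM]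
  have tp := (div_ne_zero_iff.1 A0).1
  have tm := (div_ne_zero_iff.1 B0).1
  have e0 : eP χ a Q P y ≠ 0 := div_ne_zero tp tm
  have f3 : Fix (V.D ⊓ UM M) (eP χ a Q P y) := fun g hg => by rw [eP, map_div₀, f1 g hg, f2 g hg]
  have f4 : Fix (V.D ⊓ UM M) (β / eP χ a Q P y) := fun g hg => by rw [map_div₀, hβ g hg, f3 g hg]
  have f5 : Fix (V.D ⊓ UM M) (Th a (eta χ y Q + P) / Th a (eta χ y Q) *
      (Th a (eta χ y Q - P) / Th a (eta χ y Q))) := fun g hg => by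
    rw [map_mul, map_div₀, map_div₀, f0 g hg, f1 g hg, f2 g hg]
  obtain ⟨u1, u2⟩ := Z _ f4 (by rwa [div_sub_one e0, map_div₀, s9, div_one])
  obtain ⟨u3, u4⟩ := Z _ f5 (s6.trans_lt (r1.trans_le (pow_le_pow_of_le_one p0 p1 (by omega))))
  have L := (H.LIN R (cj j) (V.D ⊓ UM M)).1
  refine ((L _ _ 0).2.2.2 _ _ le_rfl (fun _ _ => rfl) fun g hg h hh => ?_).2
    ((L _ (fun _ _ => 0) (lamZ φ χ M y⁻¹)).2.1 ((L _ _ 0).2.1 b1 b2).2.1
      ⟨fun _ => 0, Lc.const _ _, by simp⟩).2.2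
  have hc := hC.cyc g hg.2
  have m1 := km_fix_mul hN' u1 e0 (f4 g hg) (f3 g hg) hc
  rw [div_mul_cancel₀ _ e0, u2 g hg, zero_add] at m1
  have m2 := km_fix_mul hN' e0 tm (f3 g hg) (f2 g hg) hc
  rw [eP, div_mul_cancel₀ _ tm, ← eP, ← m1] at m2
  have m3 := km_fix_mul hN' tp tm (f1 g hg) (f2 g hg) hc
  have m4 := km_fix_mul hN' u3 (mul_ne_zero s2 s2) (f5 g hg) (by rw [map_mul, f0 g hg]) hc
  rw [mul_mul_mul_comm, div_mul_cancel₀ _ s2, div_mul_cancel₀ _ s2, m3, u4 g hg, zero_add,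
    km_fix_mul hN' s2 s2 (f0 g hg) (f0 g hg) hc] at m4
  have m5 := hC.mul _ (GK.inv_mem hy) y hy
  rw [inv_mul_cancel, hC.one 1 (UM M).one_mem] at m5
  have m6 := congrArg j m2
  have m7 := congrArg j m4
  rw [map_add] at m6
  rw [map_add, map_add] at m7
  rw [k4 h hh.1, ← (t3 χ y hy Q).1]
  linear_combination (j (km (p ^ n) g β) * Ah φ M Q' h) * m5 -
    lamZ φ χ M y⁻¹ * lamZ φ χ M y * Ah φ M Q' h * m6 -
      lamZ φ χ M y⁻¹ * ic φ (M • Q') (bd χ P' h) * m7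

end Pool.Agent.MP_e23604_nt.W

end

section

/-!
The bound for the exponent at the primes other than three.
-/

set_option autoImplicit false

open Finset QuadraticAlgebra
open scoped Classical

namespace Pool.Agent.MP_e23604_nt.W

open B R S

theorem cop_XFIN {p w : ℕ} (hp : p.Prime) (h : ¬ p ∣ w) : IsCoprime (w : Zw) p :=
  (Nat.Coprime.cast ((Nat.Prime.coprime_iff_not_dvd hp).2 h)).symm

theorem exv_XFIN (r p n : ℕ) (hp : p.Prime) : ∃ v : ℕ, v ∣ 2 ∧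
    IsCoprime (1 + 9 * r * v : Zw) ((p : Zw) ^ n * (9 * r)) := by
  have key : ∀ v : ℕ, ¬ p ∣ 1 + 9 * r * v →
      IsCoprime (1 + 9 * r * v : Zw) ((p : Zw) ^ n * (9 * r)) := fun v h =>
    IsCoprime.mul_right (IsCoprime.pow_right (by simpa using cop_XFIN hp h)) ⟨1, -v, by ring⟩
  by_cases h : p ∣ 1 + 9 * r * 1
  · refine ⟨2, dvd_rfl, key 2 fun h' => hp.one_lt.ne' (Nat.dvd_one.1 ?_)⟩
    refine (Nat.dvd_add_right h').1 ?_
    rw [show 1 + 9 * r * 2 + 1 = (1 + 9 * r * 1) * 2 by ring]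
    exact h.mul_right 2
  · exact ⟨1, one_dvd _, key 1 h⟩

theorem dvd_XFIN (V : Plc) {b c : Zw} (h : b ∣ c) : V.v (io c) ≤ V.v (io b) := by
  obtain ⟨d, rfl⟩ := h
  rw [map_mul, map_mul]
  exact mul_le_of_le_one_right (V.v.nonneg _) (V.io_le d)

theorem KIL_pf (H : H5) (hES1 : ES1_st) (_hCOI : COI_st) (hCOJ : COJ_st) (hFXP : FXP_st)
    (hALG : ALG_st) (_hPFA : PFA_st) (hMUL : MUL_st) (hTRU : TRU_st) (hNZ : NZ_st) (hSTP : STP_st)
    (hZLB : ZLB_st) : KIL_st := by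
  intro χ r a tw hb ad
  obtain ⟨N, N0, hN⟩ := hMUL.1 r tw.r0
  obtain ⟨Q₀, hQ₀⟩ := (H.CYG _ tw.ne).1
  obtain ⟨BL, BL0, hBL⟩ := hALG _ (hNZ χ r a Q₀ tw hb ad hQ₀)
  obtain ⟨δ, δ0, hδ⟩ := hFXP χ tw.add tw.lc
  obtain ⟨Bd, Bd0, hBd⟩ := hALG δ δ0
  have B0 : 144 * r * nn N * BL * Bd ^ 2 ≠ 0 := by
    have := tw.r0
    have := (nn_pos N0).ne'
    positivity
  refine ⟨_, B0, ⟨8 * nn N * BL * Bd ^ 2, by ring⟩, ?_⟩
  intro p k n M ϖ Q' x pp p3 pa hn hM gen sel hk hϖ dv u hu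
  obtain ⟨w, hw, hB⟩ : ∃ w, ¬ p ∣ w ∧ 144 * r * nn N * BL * Bd ^ 2 =
      p ^ (144 * r * nn N * BL * Bd ^ 2).factorization p * w :=
    ⟨_, Nat.not_dvd_ordCompl pp B0, (Nat.ordProj_mul_ordCompl_eq_self _ _).symm⟩
  generalize (144 * r * nn N * BL * Bd ^ 2).factorization p = e at *
  have hBz : (144 * r * (N * star N) * BL * Bd ^ 2 : Zw) = (p : Zw) ^ e * w := by
    rw [mul_star_nn]
    exact_mod_cast hB
  have ap : IsCoprime a p := ad.pp.1.coprime_iff_not_dvd.2 fun h => pa (by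
    have := nn_dvd h
    rw [nn_nat] at this
    exact ((Nat.prime_dvd_prime_iff_eq ad.deg pp).1 (ad.deg.dvd_of_dvd_pow this)).symm)
  have a6 := ad.cop.of_mul_right_left
  set φ := Ideal.Quotient.mk (Ideal.span {ϖ ^ n})
  have hX : XD χ r p n n a M (ϖ ^ n) Q' φ := ⟨tw, pp, by omega, le_rfl, hM,
    hM ▸ a6.mul_right (ap.pow_right.mul_right (IsCoprime.mul_right
      (IsCoprime.of_isCoprime_of_dvd_right (a6.mul_right a6) ⟨4, by norm_num⟩)
      ad.cop.of_mul_right_right)), gen, qt_mk _, pow_dvd_pow_of_dvd dv n⟩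
  obtain ⟨j⟩ := hX.ex_j
  obtain ⟨V, hV⟩ := H.PLK.2.1 ϖ hϖ
  have hp : Ov V p := hV.dvd dv
  have p1 : V.v p < 1 := by simpa [Ov] using hp
  have hv : ∀ b : Zw, b ∣ 144 * r * (N * star N) * BL * Bd ^ 2 → V.v p ^ e ≤ V.v (io b) := by
    intro b h
    have := dvd_XFIN V h
    rwa [hBz, map_mul, map_mul, not_Ov.1 (hp.cop (cop_XFIN pp hw).symm), mul_one, map_pow, map_pow,
      map_natCast] at this
  have hL : V.v BL ≤ V.v (tr χ a (9 * r) ((p : Zw) ^ n • (p : Zw) ^ n • Q')) := by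
    obtain ⟨c, hc, e⟩ := hTRU χ r a Q₀ _ tw hX.a0 hQ₀ hX.gen0
    rw [e, map_mul, not_Ov.1 (not_Ov_unit V hc), one_mul]
    exact (hBL V).1
  obtain ⟨c, hc, hS⟩ := hSTP _ χ r p n k e a M ϖ N Q' φ V x hX p3 hϖ hV (by omega)
    (fun W P h1 h2 => hN χ W P tw.add h1 h2) ((hv (8 * N * BL) ⟨18 * r * star N * Bd ^ 2, by ring⟩).trans (by
      simp only [map_mul, map_natCast, map_ofNat]
      gcongr)) sel hk
  obtain ⟨v, ⟨v', hv2⟩, hc0⟩ := exv_XFIN r p n pp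
  have hv3 : (2 : Zw) = v * v' := by exact_mod_cast hv2
  obtain ⟨-, h1, h2⟩ := hCOJ χ r M tw hX.ne hX.dr
  obtain ⟨g, hg, h3, -⟩ := h1 (1 + 9 * r * v) ⟨v, by ring⟩ (hM ▸ hc0)
  have h4 : φ (9 * r * v) = rho j (lamZ φ χ M) g - 1 := by
    obtain ⟨d, hd⟩ := h3
    rw [h2 _ φ _ j hX.φM hX.dN g hg, eq_add_of_sub_eq hd, star_add, star_mul', hX.star, map_add,
      map_mul φ M, hX.φM]
    simp [star_ofNat]
  have h5 : V.v (io (p * Bd) * δ) ≤ V.v p := by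
    rw [map_mul io, map_natCast, map_natCast, mul_assoc, map_mul, map_mul, mul_comm (V.v Bd)]
    exact mul_le_of_le_one_right (V.v.nonneg _) (hBd V).2
  obtain ⟨P, e1, fx, hz⟩ := hδ V (p * Bd) (h5.trans_lt p1)
  obtain ⟨u', hu', h6⟩ := hZLB _ χ r p n e a M ϖ _ Q' P φ j V g hX p3 hϖ hV (by omega) hg h4 e1 fx
    (hz ▸ h5) (by
      have := hv (8 * (9 * r * v) * Bd * Bd * BL) ⟨v' * (N * star N), by
        linear_combination (72 * r * (N * star N) * BL * Bd ^ 2 : Zw) * hv3⟩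
      have k1 := (hBd V).1
      rw [hz, pow_succ]
      simp only [map_mul, map_natCast, map_ofNat] at this ⊢
      refine (mul_le_mul_of_nonneg_right this (V.v.nonneg _)).trans ?_
      calc _ = V.v 8 * (V.v 9 * V.v r * V.v v) * (V.v p * V.v Bd * V.v Bd) * V.v BL := by ring
        _ ≤ _ := by gcongr)
  obtain ⟨ch, -⟩ := hX.qt.chn hϖ (by omega)
  have h7 := hES1 _ p n j _ n M a _ _ _ ch (hX.es H.LZ j) hS g hg u hu u' hu'
  have hd : ∀ b : Zw, b ∣ 144 * r * (N * star N) * BL * Bd ^ 2 → φ b ∣ φ p ^ e := by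
    intro b h
    have h8 : IsUnit (φ w) := by
      obtain ⟨s, t, hst⟩ := (cop_XFIN pp hw).pow_right (n := n)
      exact IsUnit.of_mul_eq_one (φ s) (by
        rw [← map_one φ, ← hst, map_add, map_mul, map_mul, hX.φn, mul_zero, add_zero, mul_comm])
    have := map_dvd φ h
    rwa [hBz, map_mul, map_pow, h8.dvd_mul_right] at this
  obtain ⟨d1, hd1⟩ := hd (4 * (9 * r * v)) ⟨v' * 2 * (N * star N) * BL * Bd ^ 2, by
    linear_combination (72 * r * (N * star N) * BL * Bd ^ 2 : Zw) * hv3⟩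
  obtain ⟨d2, hd2⟩ := hd N ⟨144 * r * star N * BL * Bd ^ 2, by ring⟩
  obtain ⟨d3, hd3⟩ : zc j (UM M) (lamZ φ χ M) (Th a ((p : Zw) ^ n • Q')) u' ∣ φ p ^ e := by
    refine dvd_trans (ch.dvd_iff.2 ?_) (pow_dvd_pow_of_dvd (map_dvd φ dv) e)
    rw [ch.vl_pow, min_eq_right (by omega), ← Nat.lt_succ_iff, ← not_le]
    exact fun h => h6 ((le_vl (by omega)).1 h)
  refine (hX.qt.ker _).1 (hc.mul_right_eq_zero.1 ?_)
  rw [← h4, ic, ← map_natCast φ] at h7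
  rw [map_mul φ 4, map_ofNat] at hd1
  rw [map_mul, map_pow, show 4 * e = e + e + e + e by ring, pow_add, pow_add, pow_add]
  nth_rewrite 1 [hd1]
  nth_rewrite 1 [hd2]
  nth_rewrite 1 [hd3]
  linear_combination d1 * d2 * d3 * h7

theorem FINP_pf (H : H5) (_hCOI : COI_st) (hCOJ : COJ_st) (hPFA : PFA_st) (hKIL : KIL_st) :
    FINP_st := by
  intro χ r a tw hb ad
  obtain ⟨B, B0, hB, hK⟩ := hKIL χ r a tw hb ad
  refine ⟨B, B0, fun p pp p3 pa => ⟨5 * B.factorization p,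
    fun h => by rw [Nat.factorization_eq_zero_of_not_dvd h], fun k x hx hk => ?_⟩⟩
  have p0 : (p : Zw) ≠ 0 := Nat.cast_ne_zero.2 pp.ne_zero
  have hc : ∀ (i : ℕ) (P : Pt), p ^ i • P = (p : Zw) ^ i • P := fun i P => by
    rw [← Nat.cast_smul_eq_nsmul Zw, Nat.cast_pow]
  simp only [hc] at hk ⊢
  obtain ⟨n, hn⟩ : ∃ n, 2 * k + 2 * B.factorization p + 3 ≤ n := ⟨_, le_rfl⟩
  have M0 : (p : Zw) ^ n * (9 * r) ≠ 0 := mul_ne_zero (pow_ne_zero _ p0) tw.ne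
  obtain ⟨Q', gen⟩ := (H.CYG _ (mul_ne_zero (pow_ne_zero n p0) M0)).1
  have hG : Gen ((p : Zw) ^ n) (((p : Zw) ^ n * (9 * r)) • Q') :=
    Gen.smul (by rw [mul_comm]; exact gen) M0
  have hxn : ∀ g ∈ GK, (p : Zw) ^ n • x g = 0 := fun g hg =>
    dvd_smul (hk g hg) (pow_dvd_pow _ (by omega))
  obtain ⟨s, c, hcu, hs, h1, -⟩ := hPFA p pp p3
  have h2 : ∀ u ∈ UM ((p : Zw) ^ n * (9 * r)), (p : Zw) ^ (4 * B.factorization p) • x u = 0 := by
    intro u hu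
    rw [co_spec ((H.CYG _ (pow_ne_zero n p0)).2.1 _ hG _ (hxn u hu.1)), ← mul_smul, hG]
    nth_rewrite 1 [hs]
    rw [mul_pow, (hcu.pow n).mul_left_dvd, ← prod_pow]
    refine prod_dvd_of_coprime (fun ϖ h ϖ' h' ne => IsCoprime.pow
      ((h1 ϖ h).1.1.coprime_iff_not_dvd.2 fun e => ne ?_)) fun ϖ h =>
      hK p k n _ ϖ Q' x pp p3 pa hn rfl gen hx hk (h1 ϖ h).1.1
        (hs ▸ (dvd_prod_of_mem _ h).mul_left c) u hu
    exact H.PLK.2.2.2.2.2.2.2.1 ϖ ϖ' (h1 ϖ h).1 (h1 ϖ' h').1 e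
  obtain ⟨v, hv, hc0⟩ := exv_XFIN r p n pp
  obtain ⟨g₀, hg₀, -, h3⟩ := (hCOJ χ r _ tw M0 (dvd_mul_left _ _)).2.1 (1 + 9 * r * v)
    ⟨v, by ring⟩ hc0
  have hvB : 9 * r * v ∣ B := dvd_trans (by
    rw [show 18 * r = 9 * r * 2 by ring]
    exact Nat.mul_dvd_mul_left _ hv) hB
  obtain ⟨i, w, hw, e⟩ := Nat.exists_eq_pow_mul_and_not_dvd (ne_zero_of_dvd_ne_zero B0 hvB) p
    pp.ne_one
  have hi : i ≤ B.factorization p :=
    (pp.pow_dvd_iff_le_factorization B0).1 (dvd_trans ⟨w, e⟩ hvB)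
  have e' : (9 * r * v : Zw) = (p : Zw) ^ i * w := by exact_mod_cast e
  obtain ⟨s', t, hst⟩ := (cop_XFIN pp hw).pow_right (n := n)
  refine ⟨((p : Zw) ^ (B.factorization p - i) * s') • (p : Zw) ^ (4 * B.factorization p) • x g₀,
    fun g hg => ?_⟩
  have hu := ((H.PS _ M0).1 g hg).2.2.2.2.2.2.1 g₀ hg₀
  have h4 := hx.1.2 _ (GK.mul_mem hg hg₀) _ hu.1
  rw [mul_inv_cancel_left, hx.1.2 g₀ hg₀ g hg, hx.1.2 g hg g₀ hg₀,
    h3 _ (dvd_smul (hxn g hg) (dvd_mul_right _ _))] at h4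
  have h5 : (9 * r * v : Zw) • x g = eta χ g (x g₀) - x g₀ +
      eta χ (g * g₀) (x ((g * g₀)⁻¹ * (g₀ * g))) := by
    rw [add_smul, one_smul] at h4
    linear_combination (norm := abel1) h4
  have h6 := congrArg ((p : Zw) ^ (4 * B.factorization p) • ·) h5
  simp only [smul_add, ← eta_smul χ (GK.mul_mem hg hg₀), h2 _ hu, map_zero, add_zero] at h6
  rw [eta_smul χ hg, eta_smul χ hg, ← smul_sub, ← smul_sub, ← h6, ← mul_smul, ← mul_smul]
  refine smul_congr (hxn g hg) ⟨(p : Zw) ^ (5 * B.factorization p) * t, ?_⟩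
  have h7 : (p : Zw) ^ (5 * B.factorization p) =
      p ^ (B.factorization p - i) * p ^ (4 * B.factorization p) * p ^ i := by
    rw [← pow_add, ← pow_add]
    congr 1
    omega
  rw [e', h7]
  linear_combination (-(p : Zw) ^ (B.factorization p - i) * p ^ (4 * B.factorization p) * p ^ i) * hst

end Pool.Agent.MP_e23604_nt.W

end

section

/-!
The products over a finite subgroup as values of lattice functions.
-/

set_option autoImplicit false

open Finset QuadraticAlgebra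
open scoped Classical

namespace Pool.Agent.MP_e23604_nt.Un

open B R S W

/-- three numbers that are proportional to the squares of three numbers with sum zero -/
theorem st_eq {F : Type} [Field F] [CharZero F] {μ a b c : F} (hμ : μ ≠ 0) (hc : c ≠ 0)
    (h : a = c - b) : (μ * b ^ 2 - μ * a ^ 2 - μ * c ^ 2) / (2 * (μ * c ^ 2)) = -a / c ∧
      -(μ * c ^ 2 - μ * a ^ 2 - μ * b ^ 2) = -2 * μ * a * b := by
  subst h
  refine ⟨?_, by ring⟩
  field_simp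
  ring

variable {C : AddSubgroup Pt}

theorem ND.smul (h : ND C) {T : Pt} (hT : T ∈ C) : cd C • T = 0 := by
  have : Finite C := h.fin
  have e : Nat.card C = cd C := by
    rw [cd, els, dif_pos h.fin]
    exact Nat.card_eq_card_finite_toFinset h.fin
  exact congrArg Subtype.val (e ▸ card_nsmul_eq_zero' (x := (⟨T, hT⟩ : C)))

theorem ND.three (h : ND C) {T : Pt} (hT : T ∈ C) (e : 3 • T = 0) : T = 0 := by
  have a := h.smul hT
  have c := h.c3
  rw [← Nat.div_add_mod (cd C) 3, add_nsmul, mul_nsmul, e, nsmul_zero, zero_add] at a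
  obtain k | k : cd C % 3 = 1 ∨ cd C % 3 = 2 := by omega
  · rwa [k, one_nsmul] at a
  · rwa [succ_nsmul, ← k, a, zero_add] at e

theorem ND.pos (h : ND C) : cd C - 1 + 1 = cd C := by
  have := h.c3
  omega

theorem pw_pw (P : Pt) : pw • pw • P = -(3 • P) := by
  rw [← mul_smul, ← sq, pw_sq, neg_smul, ← Nat.cast_smul_eq_nsmul Zw, Nat.cast_ofNat]

theorem ND.pw (h : ND C) {T : Pt} (hT : T ∈ C) (e : pw • T = 0) : T = 0 :=
  h.three hT (by rw [← neg_eq_zero, ← pw_pw, e, smul_zero])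

/-- the logarithms of the elements -/
noncomputable def XC (C : AddSubgroup Pt) : Finset ℂ := (els C).image lg

theorem lg_inj : Function.Injective lg := fun _ _ e => lg_sub_mem.1 (by simp [e])

theorem card_XC (C : AddSubgroup Pt) : #(XC C) = cd C := card_image_of_injective _ lg_inj

/-- `L` is the lattice of `C` -/
def LC (C : AddSubgroup Pt) (L : PeriodPair) : Prop :=
  ∀ z, z ∈ L.lattice ↔ ∃ T ∈ C, ue z = iC T

theorem ND.ex_LC (h : ND C) : ∃ L, LC C L := by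
  obtain ⟨L, e⟩ := ex_pair L0 (((C.map iC).comap uE).toIntSubmodule)
    (fun z hz => ⟨0, zero_mem _, (map_zero _).trans (ue_eq_zero.2 hz).symm⟩) (N := cd C)
    (Nat.cast_ne_zero.2 fun e => h.c3 (e ▸ dvd_zero 3)) (by
      rintro z ⟨T, hT, e⟩
      rw [← ue_eq_zero, ← nsmul_eq_mul]
      change uE _ = 0
      rw [map_nsmul, ← e, ← map_nsmul, h.smul hT, map_zero])
  exact ⟨L, fun z => by rw [e]; exact ⟨fun ⟨T, a, b⟩ => ⟨T, a, b.symm⟩, fun ⟨T, a, b⟩ => ⟨T, a, b.symm⟩⟩⟩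

variable {L : PeriodPair}

theorem LC.lg (l : LC C L) {T : Pt} : lg T ∈ L.lattice ↔ T ∈ C := by
  rw [l, ue_lg]
  exact ⟨fun ⟨_, a, b⟩ => iC_inj b ▸ a, fun a => ⟨T, a, rfl⟩⟩

theorem LC.rep (l : LC C L) (h : ND C) : Rep L0 L (XC C) ∧ Cop L0 L := by
  refine ⟨⟨fun z hz => (l z).2 ⟨0, zero_mem _, (ue_eq_zero.2 hz).trans (map_zero _).symm⟩,
    fun x hx => ?_, fun y hy => ?_⟩, fun z hz e => ?_⟩
  · obtain ⟨T, hT, rfl⟩ := mem_image.1 hx
    exact l.lg.2 ((mem_els h.fin).1 hT)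
  · obtain ⟨T, hT, e⟩ := (l y).1 hy
    refine ⟨Un.lg T, ⟨mem_image_of_mem _ ((mem_els h.fin).2 hT), by rwa [← ue_eq, ue_lg]⟩, ?_⟩
    rintro _ ⟨a, b⟩
    obtain ⟨T', -, rfl⟩ := mem_image.1 a
    rw [← ue_eq, ue_lg, e] at b
    rw [iC_inj b]
  · obtain ⟨T, hT, a⟩ := (l z).1 hz
    rw [← ue_eq_zero, a, h.three hT (iC_inj ?_), map_zero]
    rw [map_nsmul, ← a, map_zero, ← ue_eq_zero.2 e]
    change _ • uE _ = uE _
    rw [← map_nsmul, nsmul_eq_mul, Nat.cast_ofNat]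

theorem prod_XC (F : ℂ → ℂ) :
    ∏ x ∈ XC C with x ∉ L0.lattice, F x = ∏ T ∈ (els C).erase 0, F (lg T) := by
  rw [XC, filter_image, prod_image lg_inj.injOn, ← filter_ne']
  simp only [lg_mem]

theorem kk_KP {ξ : Qb} {z : ℂ} (e : wp L0 z = eC ξ) : eC (kk C ξ) = KP L0 (XC C) z := by
  rw [KP, prod_XC, kk, map_prod]
  simp only [map_sub, lg_x, e]

/-- a point of order three -/
noncomputable def S0 : Pt := pt 0 1 (-1) w3

theorem on_S0 : On 0 1 (-1) w3 := on_iff.2 (by linear_combination w3_spec)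

theorem pw_S0 : pw • S0 = -T0 := by
  have hx : xc S0 ≠ 0 := by rw [S0, xc_pt on_S0]; norm_num
  obtain ⟨a, b⟩ := three_API S0 hx
  have h0 : pw • S0 ≠ 0 := fun e => hx ((two_API _).1 e)
  rw [(on_xy h0).2, a, b, S0, xc_pt on_S0, yc_pt on_S0, T0, neg_T G01,
    show w3 - w3 ^ 2 = -1 * (io pw * -1) by rw [io_pw]; linear_combination -w3_spec,
    mul_div_cancel_right₀ _ (mul_ne_zero io_pw_ne_API (by norm_num))]
  congr 1 <;> norm_num

theorem xc_wpow (k : ℕ) (P : Pt) : xc ((ω : Zw) ^ k • P) = w3 ^ k * xc P := by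
  induction k with
  | zero => simp
  | succ k ih => rw [pow_succ', mul_smul, (xc_w _).1, ih]; ring

theorem wpow_T0 (k : ℕ) : (ω : Zw) ^ k • T0 = T0 := by
  induction k with
  | zero => simp
  | succ k ih => rw [pow_succ', mul_smul, ih, w_T0]

/-- a point of order nine -/
noncomputable def U9 (k : ℕ) : Pt := (smul_onto pw_ne ((ω : Zw) ^ k • S0)).choose

theorem pw_U9 (k : ℕ) : pw • U9 k = (ω : Zw) ^ k • S0 := (smul_onto pw_ne _).choose_spec

theorem three_U9 (k : ℕ) : 3 • U9 k = T0 := by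
  rw [← neg_inj, ← pw_pw, pw_U9, smul_comm, pw_S0, smul_neg, wpow_T0]

theorem ue_nat (n : ℕ) (z : ℂ) : ue (n * z) = n • ue z := by
  change uE _ = n • uE _
  rw [← map_nsmul, nsmul_eq_mul]

theorem t_lg (k : ℕ) : 3 * lg (U9 k) - lg T0 ∈ L0.lattice := by
  rw [← ue_eq, ue_lg, ← three_U9 k, map_nsmul, ← ue_lg, ← ue_nat, Nat.cast_ofNat]

theorem t_val (k : ℕ) : wp L0 (3 * lg (U9 k)) = 0 ∧ wq L0 (3 * lg (U9 k)) = 1 ∧
    dA L0 (3 * lg (U9 k)) = 0 := by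
  obtain ⟨a, b⟩ := lg_xy T0_ne
  rw [← wp_per (t_lg k), add_sub_cancel, xc_T0.1, map_zero] at a
  rw [← wq_per (t_lg k), add_sub_cancel, xc_T0.2] at b
  exact ⟨a, by simpa using b, by simp [dA, a, L0_g2]⟩

theorem t_mem (k : ℕ) (P : Pt) : (lg P + 3 * lg (U9 k) ∈ L0.lattice ↔ P = -T0) ∧
    (lg P - 3 * lg (U9 k) ∈ L0.lattice ↔ P = T0) := by
  have e : ue (3 * lg (U9 k)) = iC T0 := by rw [← ue_lg, ue_eq]; exact t_lg k
  rw [← ue_eq_zero, ← ue_eq, ue_add, ue_lg, e, ← map_add, map_eq_zero_iff _ iC_inj, iC_inj.eq_iff,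
    add_eq_zero_iff_eq_neg]
  exact ⟨Iff.rfl, Iff.rfl⟩

theorem two0 (k : ℕ) : Two L0 (3 * lg (U9 k)) (lg S0) := by
  have hx : ¬ (S0 = 0 ∨ S0 = T0 ∨ S0 = -T0) := by rw [← one_API, S0, xc_pt on_S0]; norm_num
  have e : ∀ P : Pt, 3 • P = 0 → 3 * lg P ∈ L0.lattice := fun P h => by
    rw [← ue_eq_zero, ← Nat.cast_ofNat, ue_nat, ue_lg, ← map_nsmul, h, map_zero]
  refine ⟨?_, e _ (by rw [← neg_eq_zero, ← pw_pw, pw_S0, smul_neg, pw_T0, neg_zero]), fun a => ?_,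
    by rw [lg_mem]; tauto, by rw [(t_mem k _).1]; tauto, by rw [(t_mem k _).2]; tauto⟩
  · convert add_mem (L0.lattice.smul_mem 3 (t_lg k))
      (e T0 (by rw [← neg_eq_zero, ← pw_pw, pw_T0, smul_zero])) using 1
    simp only [zsmul_eq_mul]
    push_cast
    ring
  · exact T0_ne (lg_mem.1 (by simpa using sub_mem a (t_lg k)))

theorem s3_lg (k : ℕ) {P : Pt} (h : xc P ≠ 0) :
    s3 (wp L0) (3 * lg (U9 k)) (lg P) = -3 * eC (xc (pw • P)) := by
  have hx := (one_API P).not.1 h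
  have := s3_x (two0 k).P3 (two0 k).P0 (z := lg P) (by rw [lg_mem]; tauto)
    (by rw [(t_mem k _).1]; tauto) (by rw [(t_mem k _).2]; tauto)
  obtain ⟨a, b, c⟩ := t_val k
  have h' : eC (xc P) ≠ 0 := (map_ne_zero eC).2 h
  rw [dX, a, b, c, lg_x] at this
  rw [(three_API P h).1, map_div₀, map_add, map_mul, map_pow, map_pow, map_neg, map_one, map_ofNat]
  field_simp
  linear_combination this

theorem kk_KQ (h : ND C) (k : ℕ) {ξ : Qb} {z : ℂ}
    (e : s3 (wp L0) (3 * lg (U9 k)) z = -3 * eC ξ) :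
    (-3) ^ (cd C - 1) * eC (kk (mC pw C) ξ) = KQ L0 (3 * lg (U9 k)) (XC C) z := by
  have e1 : (els (mC pw C)).erase 0 = ((els C).erase 0).image (pw • ·) := by
    ext T
    simp only [mem_erase, mem_image, mem_els h.fin, mem_els (C := mC pw C) (h.fin.image _)]
    exact ⟨fun ⟨a, T', b, c⟩ => ⟨T', ⟨fun d => a (by simpa [d] using c.symm), b⟩, c⟩,
      fun ⟨T', ⟨a, b⟩, c⟩ => ⟨fun d => a (h.pw b (c.trans d)), T', b, c⟩⟩
  rw [KQ, prod_XC, kk, e1, prod_image fun T a T' b c => sub_eq_zero.1 (h.pw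
    (sub_mem ((mem_els h.fin).1 (mem_of_mem_erase a)) ((mem_els h.fin).1 (mem_of_mem_erase b)))
    (by rw [smul_sub, sub_eq_zero]; exact c)), map_prod, cd,
    ← card_erase_of_mem ((mem_els h.fin).2 (zero_mem _)), ← prod_const, ← prod_mul_distrib]
  refine prod_congr rfl fun T hT => ?_
  rw [e, s3_lg k fun a => (mem_erase.1 hT).1 (h.pw ((mem_els h.fin).1 (mem_erase.1 hT).2)
    ((two_API T).2 a)), map_sub]
  ring

theorem base (k : ℕ) : wp L0 (lg S0) = -1 ∧ wp L0 (lg S0 + 3 * lg (U9 k)) = -zc3 ∧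
    wp L0 (-lg S0 + 3 * lg (U9 k)) = -zc3 ^ 2 ∧
    s3 (wp L0) (3 * lg (U9 k)) (lg S0) = 0 ∧
    s3 (wp L0) (3 * lg (U9 k)) (lg (U9 k)) = 3 * zc3 ^ k ∧
    s3 (wp L0) (3 * lg (U9 k)) (lg (U9 k) - lg S0) = 3 * zc3 ^ (1 + k) ∧
    s3 (wp L0) (3 * lg (U9 k)) (lg (U9 k) - -lg S0) = 3 * zc3 ^ (2 + k) ∧
    oH L0 (lg (U9 k)) (lg S0) ^ 2 = zc3 ^ nj k * oD L0 (lg (U9 k)) (lg S0) ^ 2 ∧
    oH L0 (lg (U9 k)) (-lg S0) ^ 2 = zc3 ^ (nj k * 2) * oD L0 (lg (U9 k)) (lg S0) ^ 2 := by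
  have T := two0 k
  obtain ⟨a, b, c⟩ := t_val k
  obtain ⟨e, p⟩ := T.par
  obtain ⟨x, y⟩ := lg_xy (P := S0) fun e => T.Q0 (lg_mem.2 e)
  rw [S0, xc_pt on_S0, map_neg, map_one, ← S0] at x
  rw [S0, yc_pt on_S0, map_add, map_mul, map_one, map_ofNat, ← S0, ← zc3] at y
  have z := zc3_spec
  have x' : dX L0 (3 * lg (U9 k)) (lg S0) = -1 := by rw [dX, x, a, sub_zero]
  have b' : dB L0 (3 * lg (U9 k)) (lg S0) = -3 := by rw [dB, x', b, c]; norm_num
  obtain rfl : zc3 = e := by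
    have := p.yp
    rw [dY, y, x', b', b, c] at this
    linear_combination this
  have xp := p.xp
  have xm := p.xm
  obtain ⟨g1, g2, g3⟩ := T.gam p
  obtain ⟨h1, h2⟩ := T.oH_eq p
  have u0 : s3 (wp L0) (3 * lg (U9 k)) (lg (U9 k)) = 3 * zc3 ^ k := by
    rw [s3_lg k fun e => ?_, pw_U9, xc_wpow, S0, xc_pt on_S0, map_mul, map_pow, ← zc3]
    · simp
    · have := congrArg xc ((two_API _).2 e)
      rw [pw_U9, xc_wpow, S0, xc_pt on_S0] at this
      simp [w3_ne_zero] at this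
  simp only [Gam, a, b, c, u0] at g1 g2 g3
  rw [dX, a, b', c] at xp xm
  rw [x', b', c] at h1 h2
  have s0 := s3_x T.P3 T.P0 T.Q0 T.ad T.sb
  rw [x', a, b, c] at s0
  refine ⟨x, by linear_combination xp, ?_, by linear_combination s0, u0, ?_, ?_, ?_⟩
  · rw [neg_add_eq_sub, ← neg_sub, wp, L0.weierstrassP_neg, ← wp]
    linear_combination xm
  · linear_combination g3.2 - zc3 ^ 4 * g1.2 + 3 * zc3 * zc3 ^ k * zc3_cube
  · rw [sub_neg_eq_add]
    linear_combination g2.2 - zc3 ^ 2 * g1.2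
  · rw [oD, h1, h2, nj]
    obtain ⟨c3, c2⟩ := g1
    generalize oG L0 (3 * lg (U9 k)) (lg (U9 k)) = γ at *
    rw [← Nat.div_add_mod k 3, pow_add, pow_mul, zc3_cube, one_pow, one_mul] at c2
    obtain m | m | m : k % 3 = 0 ∨ k % 3 = 1 ∨ k % 3 = 2 := by omega
    · rw [if_pos (by omega)]; rw [m] at c2; clear * - z c2 c3; constructor <;> grind
    · rw [if_neg (by omega)]; rw [m] at c2; clear * - z c2 c3; constructor <;> grind
    · rw [if_neg (by omega)]; rw [m] at c2; clear * - z c2 c3; constructor <;> grind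

/-- the normalising factor -/
noncomputable def nN (k : ℕ) (C : AddSubgroup Pt) : ℂ :=
  (-3) ^ (cd C - 1) * oD L0 (lg (U9 k)) (lg S0) ^ (2 * cd C)

theorem nN_ne (k : ℕ) (C : AddSubgroup Pt) : nN k C ≠ 0 :=
  mul_ne_zero (pow_ne_zero _ (by norm_num)) (pow_ne_zero _ (two0 k).oD_ne)

theorem link (h : ND C) (k : ℕ) :
    nN k C * eC (nE k C 0) = oE L0 (lg (U9 k)) (lg S0) (XC C) ∧
    nN k C * eC (nE k C 1) = oF L0 (lg (U9 k)) (lg S0) (XC C) ∧
    nN k C * eC (nE k C 2) = oF L0 (lg (U9 k)) (-lg S0) (XC C) ∧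
    (-3) ^ (cd C - 1) * eC (nB C) =
      eC (cbr 3) ^ (2 * (cd C - 1)) * oB L0 (lg (U9 k)) (lg S0) (XC C) := by
  obtain ⟨a1, a2, a3, a4, a5, a6, a7, a8, a9⟩ := base k
  simp only [nN, nE, nB, oE, oF, oB, card_XC, map_mul, map_pow, pow_mul _ 2, a8, a9]
  rw [← kk_KP (ξ := -w3 ^ 0) (by simpa using a1), ← kk_KP (ξ := -w3 ^ 1) (by simpa [zc3] using a2),
    ← kk_KP (ξ := -w3 ^ 2) (by simpa [zc3] using a3), ← kk_KP (ξ := 0) (by simpa using (t_val k).1),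
    ← kk_KQ h k (ξ := -w3 ^ (0 + k)) (by simpa [zc3] using a5),
    ← kk_KQ h k (ξ := -w3 ^ (1 + k)) (by simpa [zc3] using a6),
    ← kk_KQ h k (ξ := -w3 ^ (2 + k)) (by simpa [zc3] using a7),
    ← kk_KQ h k (ξ := 0) (by simpa using a4), ← zc3]
  refine ⟨?_, ?_, ?_, ?_⟩ <;> ring

theorem base_prod (k : ℕ) : (oD L0 (lg (U9 k)) (lg S0) * oH L0 (lg (U9 k)) (lg S0) *
    oH L0 (lg (U9 k)) (-lg S0)) ^ 2 = oD L0 (lg (U9 k)) (lg S0) ^ 6 := by
  obtain ⟨-, -, -, -, -, -, -, a8, a9⟩ := base k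
  rw [mul_pow, mul_pow, a8, a9]
  linear_combination oD L0 (lg (U9 k)) (lg S0) ^ 6 * (by
    rw [mul_comm, pow_mul, zc3_cube, one_pow] : zc3 ^ (nj k * 3) = 1)

theorem th_cube : eC (cbr 3) ^ 3 = 3 := by rw [← map_pow, cbr_cube, Rat.cast_ofNat, map_ofNat]

theorem th_ne : eC (cbr 3) ≠ 0 := fun a => by
  have := th_cube
  rw [a] at this
  norm_num at this

theorem NON_pf : NON_st := fun k C h => by
  obtain ⟨L, l⟩ := h.ex_LC
  obtain ⟨r, c⟩ := l.rep h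
  have T := two0 k
  have T' := T.up r c
  obtain ⟨l0, l1, l2, l3⟩ := link h k
  obtain ⟨μ, m, m0, m1, m2⟩ := T.tr_all r c
  have n := nN_ne k C
  have n3 : (-3 : ℂ) ^ (cd C - 1) ≠ 0 := pow_ne_zero _ (by norm_num)
  obtain ⟨ν, rfl⟩ : ∃ ν, μ = nN k C * ν := ⟨_, (mul_div_cancel₀ μ n).symm⟩
  have ν0 := right_ne_zero_of_mul m
  have e0 := mul_left_cancel₀ n (l0.trans (m0.trans (mul_assoc _ _ _)))
  have e1 := mul_left_cancel₀ n (l1.trans (m1.trans (mul_assoc _ _ _)))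
  have e2 := mul_left_cancel₀ n (l2.trans (m2.trans (mul_assoc _ _ _)))
  have d0 := T'.oD_ne
  have d1 := T'.oH_ne
  have d2 := T'.negQ.oH_ne
  have b0 : eC (nB C) ≠ 0 := fun e => mul_ne_zero (pow_ne_zero _ th_ne) (T.oB_ne r c)
    (by rw [← l3, e, mul_zero])
  have pr : eC (nE k C 0) * eC (nE k C 1) * eC (nE k C 2) = eC (nB C) ^ 3 := by
    have a := T.tr_prod r c
    have b := congrArg (· ^ 3) l3
    rw [← l0, ← l1, ← l2, pow_mul, base_prod, card_XC] at a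
    simp only [mul_pow] at b
    rw [← pow_mul (eC _), mul_comm _ 3, pow_mul, th_cube, pow_mul (3 : ℂ)] at b
    refine mul_left_cancel₀ (pow_ne_zero 3 n) ?_
    rw [nN] at a ⊢
    norm_num at b
    linear_combination a - oD L0 (lg (U9 k)) (lg S0) ^ (6 * cd C) * b
  obtain ⟨s1, s2⟩ := st_eq ν0 d2 (show oD L (lg (U9 k)) (lg S0) = _ from rfl)
  have y : eC (nY k C) = -oD L (lg (U9 k)) (lg S0) / oH L (lg (U9 k)) (-lg S0) := by
    rw [nY, map_div₀, map_sub, map_sub, map_mul, map_ofNat, e0, e1, e2, s1]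
  have x : eC (nX k C) = -ν * oD L (lg (U9 k)) (lg S0) * oH L (lg (U9 k)) (lg S0) / eC (nB C) := by
    rw [nX, map_div₀, map_neg, map_sub, map_sub, map_mul, map_ofNat, e0, e1, e2, s2]
    field_simp
  have y1 : eC (nY k C) + 1 = oH L (lg (U9 k)) (lg S0) / oH L (lg (U9 k)) (-lg S0) := by
    rw [y, oD]; field_simp; ring
  have kn : ∀ C, ND C → ∀ z : Qb, z ^ 4 + z = 0 → kk C z ≠ 0 := fun C h z hz =>
    prod_ne_zero_iff.2 fun T hT e => (mem_erase.1 hT).1 (by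
      have a := (mem_els h.fin).1 (mem_erase.1 hT).2
      obtain rfl := sub_eq_zero.1 e
      by_cases x0 : xc T = 0
      · exact h.pw a ((two_API T).2 x0)
      · refine h.three a ?_
        rw [← neg_eq_zero, ← pw_pw, two_API, (three_API T x0).1,
          mul_left_cancel₀ x0 (show xc T * (xc T ^ 3 + 1) = xc T * 0 by linear_combination hz),
          zero_div])
  refine ⟨on_iff.2 (eC.injective ?_), kn C h, fun i => ?_, (map_ne_zero eC).1 b0,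
    (map_ne_zero eC).1 ?_, eC.injective (by simpa using pr), eC.injective ?_, eC.injective ?_⟩
  · rw [map_add, map_pow, map_pow, sq, ← mul_add_one, y1, y, x, div_pow, ← pr, e0, e1, e2]
    field_simp
  · have f : ∀ j : ℕ, (-w3 ^ j) ^ 4 + -w3 ^ j = 0 := fun j => by
      linear_combination w3 ^ j * (by rw [← pow_mul, mul_comm, pow_mul, w3_cube, one_pow] :
        (w3 ^ j) ^ 3 = 1)
    refine mul_ne_zero (mul_ne_zero (pow_ne_zero _ w3_ne_zero) (kn C h _ (f i))) fun e => ?_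
    have g : ∀ j, eC (nE k C j) ≠ 0 → w3 ^ (j + k) = w3 ^ (i + k) → False := fun j a b =>
      a (by rw [nE, b, e, mul_zero, map_zero])
    have g' : ∀ j, j % 3 = i % 3 → w3 ^ (j + k) = w3 ^ (i + k) := fun j a => by
      rw [pow_eq_pow_mod _ w3_cube, pow_eq_pow_mod (i + k) w3_cube, Nat.add_mod, a, ← Nat.add_mod]
    obtain m | m | m : i % 3 = 0 ∨ i % 3 = 1 ∨ i % 3 = 2 := by omega
    · exact g 0 (e0 ▸ mul_ne_zero ν0 (pow_ne_zero _ d0)) (g' _ m.symm)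
    · exact g 1 (e1 ▸ mul_ne_zero ν0 (pow_ne_zero _ d1)) (g' _ m.symm)
    · exact g 2 (e2 ▸ mul_ne_zero ν0 (pow_ne_zero _ d2)) (g' _ m.symm)
  · rw [x]
    exact div_ne_zero (mul_ne_zero (mul_ne_zero (neg_ne_zero.2 ν0) d0) d1) b0
  · rw [map_mul, map_pow, y, e0, e2]
    field_simp
  · rw [map_mul, map_pow, map_add, map_one, y1, e1, e2]
    field_simp

end Pool.Agent.MP_e23604_nt.Un

end
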