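import Pool.Agent.Mg.Fe23604m.G300596
import Pool.Agent.Mg.Fe23604m.G19f17f

set_option linter.all false

section

/-!
Limits along an ultrafilter of systems of cocycles: definitions, basic lemmas and statements.
-/

set_option autoImplicit false

open Finset Filter Matrix QuadraticAlgebra
open scoped Classical

namespace Pool.Agent.MP_e23604_nt.W

open B R S

/-- a non-principal ultrafilter -/
noncomputable abbrev uf : Filter ℕ := (hyperfilter ℕ : Filter ℕ)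

/-- a ring of power series over the completion at three, with limits of sequences -/
structure Lm (Λ : Type) [CommRing Λ] where
  ι : Zw →+* Λ
  T : Λ
  L : (ℕ → Λ) →+* Λ
  m : Ideal Λ
  m_eq : m = Ideal.span {ι pw, T}
  lim : ∀ (x : ℕ → Λ) (k : ℕ), ∀ᶠ n in uf, x n - L x ∈ m ^ k
  clo : ∀ (P : Ideal Λ) (x : Λ), (∀ k, x ∈ P ⊔ m ^ k) → x ∈ P
  fin : ∀ k, Finite (Λ ⧸ m ^ k)
  res : ∀ x : Λ, ∃ i : ℤ, x - i ∈ m
  unit : ∀ x, x ∉ m → IsUnit x
  ne : (1 : Λ) ∉ m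
  ppi : Prime (ι pw)
  pT : Prime T
  T3 : ¬ T ∣ 3
  piT : ¬ ι pw ∣ T
  sur : ∀ x k, ∃ c, x - ι c ∈ Ideal.span {T} ⊔ m ^ k
  inj : ∀ c k, ι c ∈ Ideal.span {T} ⊔ m ^ k → pw ^ k ∣ c

/-- `φ` maps onto a subring with field of fractions `k`, of characteristic not three -/
structure Fr {Λ k : Type} [CommRing Λ] [Field k] (φ : Λ →+* k) : Prop where
  fr : ∀ y : k, ∃ a d, φ d ≠ 0 ∧ φ d * y = φ a
  n3 : φ 3 ≠ 0

section defs

variable {Λ : Type} [CommRing Λ]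

/-- cocycles modulo `b` that vanish on `Rm` -/
def Zf (θ : GQ → Λ) (Rm : Set GQ) (b : Ideal Λ) (c : GQ → Λ) : Prop :=
  Co (fun g => Ideal.Quotient.mk b (θ g)) GK (fun g => Ideal.Quotient.mk b (c g)) ∧
    ∀ g ∈ Rm, c g ∈ b

/-- characters modulo `b` that are trivial on `U` -/
def Ch (b : Ideal Λ) (U : Subgroup GQ) (θ : GQ → Λ) : Prop :=
  (∀ g ∈ GK, ∀ h ∈ GK, θ (g * h) - θ g * θ h ∈ b) ∧ ∀ g ∈ U, θ g - 1 ∈ b

/-- solutions of the equations `Φ` are values of cocycles -/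
def Exi {S J : Type} [Fintype J] (b₀ : Ideal Λ) (θ : GQ → Λ) (Rm : Set GQ) (pt : J → GQ)
    (Φ : Matrix S J Λ) : Prop :=
  ∀ b, b₀ ≤ b → ∀ v : J → Λ, (∀ s, (Φ *ᵥ v) s ∈ b) → ∃ c, Zf θ Rm b c ∧ ∀ j, c (pt j) - v j ∈ b

/-- values of cocycles solve the equations `Φ` -/
def Rel {S J : Type} [Fintype J] (b₀ : Ideal Λ) (θ : GQ → Λ) (Rm : Set GQ) (pt : J → GQ)
    (Φ : Matrix S J Λ) : Prop :=
  ∀ c, Zf θ Rm b₀ c → ∀ s, (Φ *ᵥ fun j => c (pt j)) s ∈ b₀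

/-- a matrix with more columns -/
def bm {S J I : Type} (Φ : Matrix S J Λ) (Ψ : I → S → Λ) : Matrix S (J ⊕ I) Λ :=
  Matrix.of fun s => Sum.elim (Φ s) fun i => Ψ i s

/-- the data of a system -/
structure Dat (Λ S : Type) where
  U : ℕ → Subgroup GQ
  D : Subgroup GQ
  ρ : ℕ → GQ → Λ
  lam : ℕ → GQ → Λ
  A : Type
  σ : A → GQ
  τ : A → GQ
  nm : A → ℕ
  ok : ℕ → A → Prop
  Rm : Set A → Set GQ
  gen : ℕ → Fin 2 ⊕ S → GQ
  Φ : ℕ → Matrix S (Fin 2 ⊕ S) Λ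
  Vd : ℕ → ∀ r : ℕ, (Fin r → A) → (Fin r → S → Λ) → Prop
  y : Fin 4 → GQ
  g1 : ℕ → GQ
  c0 : Λ

variable {S : Type}

/-- admissible families of auxiliary primes -/
def Dat.Ad (Y : Dat Λ S) (n : ℕ) {I : Type} (Q : I → Y.A) : Prop :=
  (∀ i, Y.ok n (Q i)) ∧ Function.Injective fun i => Y.nm (Q i)

/-- the generators -/
def Dat.gq (Y : Dat Λ S) (n : ℕ) {I : Type} (Q : I → Y.A) : (Fin 2 ⊕ S) ⊕ I → GQ :=
  Sum.elim (Y.gen n) fun i => Y.τ (Q i)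

/-- `α` divides the constant modulo `b` -/
def Dat.Dv (Y : Dat Λ S) (b : Ideal Λ) (α : Λ) : Prop := ∃ t, α * t - Y.c0 ∈ b

/-- the properties of a system -/
structure Sys [Fintype S] (E : Lm Λ) (Y : Dat Λ S) : Prop where
  on : ∀ n, ON (Y.U n)
  le : ∀ n, Y.U n ≤ GK
  ab : ∀ n, ∀ g ∈ GK, ∀ h ∈ GK, (g * h)⁻¹ * (h * g) ∈ Y.U n
  dle : Y.D ≤ GK
  chρ : ∀ n, Ch (E.m ^ n) (Y.U n) (Y.ρ n)
  chl : ∀ n, Ch (E.m ^ n) (Y.U n) (Y.lam n)
  σU : ∀ n q, Y.ok n q → Y.σ q ∈ Y.U n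
  τU : ∀ n q, Y.ok n q → Y.τ q ∈ Y.U n
  genK : ∀ n j, Y.gen n j ∈ GK
  rmU : ∀ n, Y.Rm ∅ ⊆ Y.U n
  mono : ∀ F F', F ⊆ F' → Y.Rm F' ⊆ Y.Rm F
  new : ∀ n q F, Y.ok n q → (∀ q' ∈ F, Y.ok n q' ∧ Y.nm q' ≠ Y.nm q) → Y.τ q ∈ Y.Rm F
  drop : ∀ n θ b F c, Ch (E.m ^ n) (Y.U n) θ → E.m ^ n ≤ b → Zf θ (Y.Rm F) b c →
    (∀ q ∈ F, Y.ok n q ∧ c (Y.τ q) ∈ b) → Zf θ (Y.Rm ∅) b c
  vd0 : ∀ n Q Ψ, Y.Vd n 0 Q Ψ
  vd1 : ∀ n r Q Ψ q, Y.Vd n r Q Ψ → Y.Ad n (Fin.cons q Q : Fin (r + 1) → Y.A) →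
    ∃ a, Y.Vd n (r + 1) (Fin.cons q Q) (Fin.cons a Ψ)
  rel : ∀ n r Q Ψ, Y.Vd n r Q Ψ → Y.Ad n Q →
    Rel (E.m ^ n) (Y.ρ n) (Y.Rm (Set.range Q)) (Y.gq n Q) (bm (Y.Φ n) Ψ)
  exi : ∀ n r Q Ψ, Y.Vd n r Q Ψ → Y.Ad n Q →
    Exi (E.m ^ n) (Y.ρ n) (Y.Rm (Set.range Q)) (Y.gq n Q) (bm (Y.Φ n) Ψ)
  exl : ∀ n (I : Type) [Fintype I] (Q : I → Y.A), Y.Ad n Q →
    ∃ Φ : Matrix S ((Fin 2 ⊕ S) ⊕ I) Λ,
      Exi (E.m ^ n) (Y.lam n) (Y.Rm (Set.range Q)) (Y.gq n Q) Φ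
  rcp : ∀ n (I : Type) [Fintype I] (Q : I → Y.A) b c x, Y.Ad n Q → E.m ^ n ≤ b →
    Zf (Y.ρ n) (Y.Rm (Set.range Q)) b c → Zf (Y.lam n) (Y.Rm (Set.range Q)) b x →
    (∀ g ∈ Y.D, x g ∈ b) →
    3 * ∑ i, (c (Y.τ (Q i)) * x (Y.σ (Q i)) - c (Y.σ (Q i)) * x (Y.τ (Q i))) ∈ b
  chb : ∀ n N, ON N → ∀ u ∈ Y.U n, ∀ B : Finset ℕ, ∃ q, Y.ok n q ∧ Y.nm q ∉ B ∧
    ∃ j j' : ℕ, (u ^ j)⁻¹ * Y.σ q ∈ N ∧ (Y.σ q ^ j')⁻¹ * u ∈ N
  yD : ∀ i, Y.y i ∈ Y.D
  spn : ∀ n b x, E.m ^ n ≤ b → Zf (Y.lam n) ∅ b x → (∀ i, x (Y.y i) ∈ b) → ∀ g ∈ Y.D, x g ∈ b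
  obs : ∀ n b d, E.m ^ n ≤ b →
    (∀ v : Fin 4 → Λ, ∃ x, Zf (Y.lam n) ∅ b x ∧ ∀ i, x (Y.y i) - d * v i ∈ b) →
    ∀ g ∈ Y.D, d * (Y.ρ n g - 1) ∈ b
  g1D : ∀ n, Y.g1 n ∈ Y.D
  g1ρ : ∀ n, Y.Dv (E.m ^ n) (Y.ρ n (Y.g1 n) - 1)
  g1l : ∀ n, Y.Dv (E.m ^ n) (Y.lam n (Y.g1 n) - 1)
  c0 : ∃ i, Y.c0 ∣ 3 ^ i

/-- `z` is the bottom class of an Euler system with derived classes `κ` -/
structure Eul (E : Lm Λ) (Y : Dat Λ S) (z : ℕ → GQ → Λ)
    (κ : ℕ → ∀ r : ℕ, (Fin r → Y.A) → GQ → Λ) : Prop where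
  zf : ∀ n, Zf (Y.ρ n) (Y.Rm ∅) (E.m ^ n) (z n)
  kf : ∀ n r Q, Y.Ad n Q → Zf (Y.ρ n) (Y.Rm (Set.range Q)) (E.m ^ n) (κ n r Q)
  bot : ∀ n Q, ∀ u ∈ Y.U n, κ n 0 Q u - (Y.ρ n (Y.g1 n) - 1) * z n u ∈ E.m ^ n
  fs : ∀ n r Q q, Y.Ad n (Fin.cons q Q : Fin (r + 1) → Y.A) →
    κ n (r + 1) (Fin.cons q Q) (Y.τ q) + κ n r Q (Y.σ q) ∈ E.m ^ n

/-- sequences of group elements -/
abbrev GG : Type := ℕ → GQ

/-- sequences with values in given subgroups -/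
def In (H : ℕ → Subgroup GQ) (g : GG) : Prop := ∀ n, g n ∈ H n

/-- sequences with values in a fixed subgroup -/
def Inc (H : Subgroup GQ) (g : GG) : Prop := ∀ n, g n ∈ H

/-- the value of the limit function -/
def Lm.ev (E : Lm Λ) (c : ℕ → GQ → Λ) (g : GG) : Λ := E.L fun n => c n (g n)

/-- the limit of a sequence of matrices -/
def Lm.mt (E : Lm Λ) {S J : Type} (Φ : ℕ → Matrix S J Λ) : Matrix S J Λ :=
  Matrix.of fun s j => E.L fun n => Φ n s j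

/-- sequences of cocycles modulo `P` and growing powers of the maximal ideal -/
def LZ (E : Lm Λ) (P : Ideal Λ) (θ : ℕ → GQ → Λ) (Rm : ℕ → Set GQ) (c : ℕ → GQ → Λ) : Prop :=
  ∃ k : ℕ → ℕ, Tendsto k uf atTop ∧ ∀ n, k n ≤ n ∧ Zf (θ n) (Rm n) (P ⊔ E.m ^ k n) (c n)

/-- the elements on which cocycles unramified outside a family of sequences of primes vanish -/
def Dat.rg (Y : Dat Λ S) {I : Type} (Q : I → ℕ → Y.A) (n : ℕ) : Set GQ :=
  Y.Rm (Set.range fun i => Q i n)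

/-- admissible families of sequences of primes -/
def Dat.AD (Y : Dat Λ S) {I : Type} (Q : I → ℕ → Y.A) : Prop := ∀ n, Y.Ad n fun i => Q i n

/-- the Frobenius elements of a sequence of primes -/
def Dat.ss (Y : Dat Λ S) (q : ℕ → Y.A) : GG := fun n => Y.σ (q n)

/-- the inertia elements of a sequence of primes -/
def Dat.tt (Y : Dat Λ S) (q : ℕ → Y.A) : GG := fun n => Y.τ (q n)

/-- the generators as sequences -/
def Dat.gg (Y : Dat Λ S) {I : Type} (Q : I → ℕ → Y.A) (j : (Fin 2 ⊕ S) ⊕ I) : GG :=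
  fun n => Y.gq n (fun i => Q i n) j

/-- `f` is constant on the cosets of the groups `N` -/
def Cs {α : Type} (N : ℕ → Subgroup GQ) (f : GG → α) : Prop :=
  ∀ g h, Inc GK g → Inc GK h → (∀ n, (g n)⁻¹ * h n ∈ N n) → f g = f h

/-- states of the induction -/
structure Stt (Y : Dat Λ S) where
  r : ℕ
  Q : Fin r → ℕ → Y.A
  Ψ : ℕ → Fin r → S → Λ
  ad : Y.AD Q
  vd : ∀ n, Y.Vd n r (fun i => Q i n) (Ψ n)

/-- the matrix of a state -/
def Stt.mat {Y : Dat Λ S} (s : Stt Y) (E : Lm Λ) : Matrix S ((Fin 2 ⊕ S) ⊕ Fin s.r) Λ :=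
  E.mt fun n => bm (Y.Φ n) (s.Ψ n)

/-- the determinant of the tame block -/
noncomputable def Dat.dl [Fintype S] (Y : Dat Λ S) (E : Lm Λ) : Λ :=
  ((E.mt Y.Φ).submatrix id Sum.inr).det

/-- the value of `z` at the commutator of the first two generators -/
def Dat.ze (Y : Dat Λ S) (E : Lm Λ) (z : ℕ → GQ → Λ) : Λ :=
  (E.ev Y.ρ (fun n => Y.gen n (.inl 0)) - 1) * E.ev z (fun n => Y.gen n (.inl 1)) -
    (E.ev Y.ρ (fun n => Y.gen n (.inl 1)) - 1) * E.ev z (fun n => Y.gen n (.inl 0))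

/-! ### Basic lemmas -/

theorem zf_iff {θ : GQ → Λ} {Rm : Set GQ} {b : Ideal Λ} {c : GQ → Λ} : Zf θ Rm b c ↔
    (∃ N, ON N ∧ ∀ g ∈ GK, ∀ h ∈ GK, g⁻¹ * h ∈ N → c g - c h ∈ b) ∧
    (∀ g ∈ GK, ∀ h ∈ GK, c (g * h) - (c g + θ g * c h) ∈ b) ∧ ∀ g ∈ Rm, c g ∈ b := by
  simp only [Zf, Co, Lc, Cst, ← map_mul, ← map_add, Ideal.Quotient.eq, and_assoc]

theorem Zf.mono {θ : GQ → Λ} {Rm Rm' : Set GQ} {b b' : Ideal Λ} {c : GQ → Λ} (h : Zf θ Rm b c)
    (h1 : Rm' ⊆ Rm) (h2 : b ≤ b') : Zf θ Rm' b' c := by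
  obtain ⟨⟨N, a1, a2⟩, a3, a4⟩ := zf_iff.1 h
  exact zf_iff.2 ⟨⟨N, a1, fun g hg h hh e => h2 (a2 g hg h hh e)⟩,
    fun g hg h hh => h2 (a3 g hg h hh), fun g hg => h2 (a4 g (h1 hg))⟩

theorem Zf.zero (θ : GQ → Λ) (Rm : Set GQ) (b : Ideal Λ) : Zf θ Rm b 0 :=
  zf_iff.2 ⟨⟨GK, GK_on, by simp⟩, by simp, by simp⟩

theorem Zf.add {θ : GQ → Λ} {Rm : Set GQ} {b : Ideal Λ} {c c' : GQ → Λ} (h : Zf θ Rm b c)
    (h' : Zf θ Rm b c') : Zf θ Rm b (c + c') := by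
  obtain ⟨⟨N, a1, a2⟩, a3, a4⟩ := zf_iff.1 h
  obtain ⟨⟨N', b1, b2⟩, b3, b4⟩ := zf_iff.1 h'
  refine zf_iff.2 ⟨⟨N ⊓ N', a1.inf b1, fun g hg h hh e => ?_⟩, fun g hg h hh => ?_,
    fun g hg => b.add_mem (a4 g hg) (b4 g hg)⟩
  · convert b.add_mem (a2 g hg h hh e.1) (b2 g hg h hh e.2) using 1
    simp only [Pi.add_apply]
    ring
  · convert b.add_mem (a3 g hg h hh) (b3 g hg h hh) using 1
    simp only [Pi.add_apply]
    ring

theorem Zf.smul {θ : GQ → Λ} {Rm : Set GQ} {b : Ideal Λ} {c : GQ → Λ} (h : Zf θ Rm b c) (a : Λ) :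
    Zf θ Rm b (a • c) := by
  obtain ⟨⟨N, a1, a2⟩, a3, a4⟩ := zf_iff.1 h
  refine zf_iff.2 ⟨⟨N, a1, fun g hg h hh e => ?_⟩, fun g hg h hh => ?_,
    fun g hg => b.mul_mem_left a (a4 g hg)⟩
  · convert b.mul_mem_left a (a2 g hg h hh e) using 1
    simp only [Pi.smul_apply, smul_eq_mul]
    ring
  · convert b.mul_mem_left a (a3 g hg h hh) using 1
    simp only [Pi.smul_apply, smul_eq_mul]
    ring

theorem Zf.pow {θ : GQ → Λ} {Rm : Set GQ} {b : Ideal Λ} {c : GQ → Λ} (h : Zf θ Rm b c) {u : GQ}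
    (hu : u ∈ GK) (h1 : θ u - 1 ∈ b) (h0 : θ 1 - 1 ∈ b) (j : ℕ) : c (u ^ j) - j * c u ∈ b := by
  obtain ⟨-, a3, -⟩ := zf_iff.1 h
  induction j with
  | zero =>
    have := b.add_mem (a3 1 GK.one_mem 1 GK.one_mem) (b.mul_mem_right (c 1) h0)
    convert b.neg_mem this using 1
    simp only [mul_one, pow_zero, Nat.cast_zero]
    ring
  | succ j ih =>
    have := a3 u hu _ (GK.pow_mem hu j)
    rw [← pow_succ'] at this
    convert b.add_mem (b.add_mem this ih) (b.mul_mem_right (c (u ^ j)) h1) using 1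
    push_cast
    ring

theorem Ch.zf {b : Ideal Λ} {U : Subgroup GQ} {θ : GQ → Λ} (h : Ch b U θ) (hU : ON U)
    {Rm : Set GQ} (hR : Rm ⊆ U) : Zf θ Rm b fun g => θ g - 1 := by
  refine zf_iff.2 ⟨⟨U, hU, fun g hg h' hh e => ?_⟩, fun g hg h' hh => ?_, fun g hg => h.2 g (hR hg)⟩
  · have e1 := h.1 g hg _ (GK.mul_mem (GK.inv_mem hg) hh)
    rw [mul_inv_cancel_left] at e1
    convert b.neg_mem (b.add_mem e1 (b.mul_mem_left (θ g) (h.2 _ e))) using 1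
    ring
  · convert h.1 g hg h' hh using 1
    ring

theorem uf_le : uf ≤ atTop := Nat.hyperfilter_le_atTop

/-- the diagonal argument -/
theorem diag {G : ℕ → ℕ → Prop} (h0 : ∀ n, G n 0) (h : ∀ k, ∀ᶠ n in uf, G n k) :
    ∃ k : ℕ → ℕ, Tendsto k uf atTop ∧ ∀ n, k n ≤ n ∧ G n (k n) := by
  refine ⟨fun n => Nat.findGreatest (G n) n, tendsto_atTop.2 fun k => ?_, fun n =>
    ⟨Nat.findGreatest_le n, Nat.findGreatest_spec (Nat.zero_le n) (h0 n)⟩⟩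
  filter_upwards [h k, uf_le (eventually_ge_atTop k)] with n h1 h2
  exact Nat.le_findGreatest h2 h1

theorem tendsto_min {k k' : ℕ → ℕ} (h : Tendsto k uf atTop) (h' : Tendsto k' uf atTop) :
    Tendsto (fun n => min (k n) (k' n)) uf atTop := tendsto_atTop.2 fun j => by
  filter_upwards [tendsto_atTop.1 h j, tendsto_atTop.1 h' j] with n h1 h2 using le_min h1 h2

namespace Lm

variable (E : Lm Λ)

theorem sup_le (P : Ideal Λ) {i j : ℕ} (h : i ≤ j) : P ⊔ E.m ^ j ≤ P ⊔ E.m ^ i :=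
  sup_le_sup_left (Ideal.pow_le_pow_right h) P

theorem le_sup (P : Ideal Λ) {i j : ℕ} (h : i ≤ j) : E.m ^ j ≤ P ⊔ E.m ^ i :=
  le_sup_of_le_right (Ideal.pow_le_pow_right h)

theorem mem_iff (P : Ideal Λ) (x : ℕ → Λ) :
    E.L x ∈ P ↔ ∀ k, ∀ᶠ n in uf, x n ∈ P ⊔ E.m ^ k := by
  refine ⟨fun h k => ?_, fun h => E.clo P _ fun k => ?_⟩
  · filter_upwards [E.lim x k] with n h1
    simpa using (P ⊔ E.m ^ k).add_mem (Ideal.mem_sup_left h) (Ideal.mem_sup_right h1)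
  · obtain ⟨n, h1, h2⟩ := ((h k).and (E.lim x k)).exists
    simpa using (P ⊔ E.m ^ k).sub_mem h1 (Ideal.mem_sup_right h2)

theorem mem_of {P : Ideal Λ} {x : ℕ → Λ} {k : ℕ → ℕ} (hk : Tendsto k uf atTop)
    (h : ∀ n, x n ∈ P ⊔ E.m ^ k n) : E.L x ∈ P := (E.mem_iff P x).2 fun j => by
  filter_upwards [tendsto_atTop.1 hk j] with n h1 using E.sup_le P h1 (h n)

theorem eq_zero {x : ℕ → Λ} (h : ∀ n, x n ∈ E.m ^ n) : E.L x = 0 :=
  E.mem_of (P := ⊥) (k := id) uf_le fun n => Ideal.mem_sup_right (h n)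

theorem congr {x y : ℕ → Λ} (h : ∀ n, x n - y n ∈ E.m ^ n) : E.L x = E.L y := by
  rw [← sub_eq_zero, ← map_sub]
  exact E.eq_zero h

theorem const (a : Λ) : E.L (fun _ => a) = a := by
  rw [← sub_eq_zero]
  refine E.clo ⊥ _ fun k => ?_
  obtain ⟨n, h⟩ := (E.lim (fun _ => a) k).exists
  simpa using (E.m ^ k).neg_mem h

theorem L_add (x y : ℕ → Λ) : E.L (fun n => x n + y n) = E.L x + E.L y := map_add E.L x y

theorem L_sub (x y : ℕ → Λ) : E.L (fun n => x n - y n) = E.L x - E.L y := map_sub E.L x y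

theorem L_mul (x y : ℕ → Λ) : E.L (fun n => x n * y n) = E.L x * E.L y := map_mul E.L x y

theorem L_sum {I : Type} (s : Finset I) (x : I → ℕ → Λ) :
    E.L (fun n => ∑ i ∈ s, x i n) = ∑ i ∈ s, E.L (x i) := by
  rw [← map_sum]
  congr 1
  funext n
  rw [Finset.sum_apply]

theorem ev_add (c c' : ℕ → GQ → Λ) (g : GG) : E.ev (c + c') g = E.ev c g + E.ev c' g :=
  E.L_add _ _

theorem ev_smul (a : Λ) (c : ℕ → GQ → Λ) (g : GG) : E.ev (a • c) g = a * E.ev c g := by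
  rw [← E.const a, ev, ev, ← E.L_mul, E.const]
  rfl

theorem ev_zero (g : GG) : E.ev 0 g = 0 := map_zero E.L

theorem mt_mulVec {S J : Type} [Fintype J] (Φ : ℕ → Matrix S J Λ) (v : ℕ → J → Λ) (s : S) :
    (E.mt Φ *ᵥ fun j => E.L fun n => v n j) s = E.L fun n => (Φ n *ᵥ v n) s := by
  simp only [mulVec, dotProduct, mt, of_apply, E.L_sum, E.L_mul]

/-- a limit function that vanishes on all sequences vanishes at finite level -/
theorem van {P : Ideal Λ} {c : ℕ → GQ → Λ} {W : ℕ → Set GQ} (hW : ∀ n, (W n).Nonempty)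
    (h : ∀ g : GG, (∀ n, g n ∈ W n) → E.ev c g ∈ P) (k : ℕ) :
    ∀ᶠ n in uf, ∀ g ∈ W n, c n g ∈ P ⊔ E.m ^ k := by
  have : ∀ n, ∃ g ∈ W n, c n g ∈ P ⊔ E.m ^ k → ∀ g ∈ W n, c n g ∈ P ⊔ E.m ^ k := fun n => by
    by_cases e : ∀ g ∈ W n, c n g ∈ P ⊔ E.m ^ k
    · exact ⟨_, (hW n).some_mem, fun _ => e⟩
    · push Not at e
      obtain ⟨g, h1, h2⟩ := e
      exact ⟨g, h1, fun h3 => absurd h3 h2⟩
  choose g h1 h2 using this
  filter_upwards [(E.mem_iff P _).1 (h g h1) k] with n h3 using h2 n h3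

theorem three_mem : (3 : Λ) ∈ E.m := by
  have : (3 : Λ) = -(E.ι pw * E.ι pw) := by
    rw [← map_mul, ← map_neg, ← map_ofNat E.ι 3]
    congr 1
  rw [this, E.m_eq]
  exact neg_mem (Ideal.mul_mem_left _ _ (Ideal.subset_span (by simp)))

theorem ev_mul {U : ℕ → Subgroup GQ} {θ : ℕ → GQ → Λ} (h : ∀ n, Ch (E.m ^ n) (U n) (θ n))
    {g g' : GG} (hg : Inc GK g) (hg' : Inc GK g') : E.ev θ (g * g') = E.ev θ g * E.ev θ g' := by
  rw [ev, ev, ev, ← E.L_mul]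
  exact E.congr fun n => (h n).1 _ (hg n) _ (hg' n)

theorem ev_one {U : ℕ → Subgroup GQ} {θ : ℕ → GQ → Λ} (h : ∀ n, Ch (E.m ^ n) (U n) (θ n))
    {g : GG} (hg : In U g) : E.ev θ g = 1 :=
  (E.congr (y := fun _ => 1) fun n => (h n).2 _ (hg n)).trans (E.const 1)

end Lm

theorem LZ.of {E : Lm Λ} {θ : ℕ → GQ → Λ} {Rm : ℕ → Set GQ} {c : ℕ → GQ → Λ} (P : Ideal Λ)
    (h : ∀ n, Zf (θ n) (Rm n) (E.m ^ n) (c n)) : LZ E P θ Rm c :=
  ⟨id, uf_le, fun n => ⟨le_rfl, (h n).mono le_rfl le_sup_right⟩⟩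

theorem LZ.mono {E : Lm Λ} {P : Ideal Λ} {θ : ℕ → GQ → Λ} {Rm Rm' : ℕ → Set GQ}
    {c : ℕ → GQ → Λ} (h : LZ E P θ Rm c) (h' : ∀ n, Rm' n ⊆ Rm n) : LZ E P θ Rm' c :=
  h.imp fun _ h => ⟨h.1, fun n => ⟨(h.2 n).1, (h.2 n).2.mono (h' n) le_rfl⟩⟩

theorem LZ.add {E : Lm Λ} {P : Ideal Λ} {θ : ℕ → GQ → Λ} {Rm : ℕ → Set GQ} {c c' : ℕ → GQ → Λ}
    (h : LZ E P θ Rm c) (h' : LZ E P θ Rm c') : LZ E P θ Rm (c + c') := by
  obtain ⟨k, a1, a2⟩ := h
  obtain ⟨k', b1, b2⟩ := h'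
  exact ⟨_, tendsto_min a1 b1, fun n => ⟨(min_le_left _ _).trans (a2 n).1,
    ((a2 n).2.mono le_rfl (E.sup_le P (min_le_left _ _))).add
      ((b2 n).2.mono le_rfl (E.sup_le P (min_le_right _ _)))⟩⟩

theorem LZ.smul {E : Lm Λ} {P : Ideal Λ} {θ : ℕ → GQ → Λ} {Rm : ℕ → Set GQ} {c : ℕ → GQ → Λ}
    (h : LZ E P θ Rm c) (a : Λ) : LZ E P θ Rm (a • c) :=
  h.imp fun _ h => ⟨h.1, fun n => ⟨(h.2 n).1, (h.2 n).2.smul a⟩⟩

theorem LZ.coc {E : Lm Λ} {P : Ideal Λ} {θ : ℕ → GQ → Λ} {Rm : ℕ → Set GQ} {c : ℕ → GQ → Λ}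
    (h : LZ E P θ Rm c) {g g' : GG} (hg : Inc GK g) (hg' : Inc GK g') :
    E.ev c (g * g') - (E.ev c g + E.ev θ g * E.ev c g') ∈ P := by
  obtain ⟨k, a1, a2⟩ := h
  rw [Lm.ev, Lm.ev, Lm.ev, Lm.ev, ← E.L_mul, ← E.L_add, ← E.L_sub]
  exact E.mem_of a1 fun n => (zf_iff.1 (a2 n).2).2.1 _ (hg n) _ (hg' n)

theorem LZ.rm {E : Lm Λ} {P : Ideal Λ} {θ : ℕ → GQ → Λ} {Rm : ℕ → Set GQ} {c : ℕ → GQ → Λ}
    (h : LZ E P θ Rm c) {g : GG} (hg : ∀ n, g n ∈ Rm n) : E.ev c g ∈ P := by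
  obtain ⟨k, a1, a2⟩ := h
  exact E.mem_of a1 fun n => (a2 n).2.2 _ (hg n)

theorem LZ.cs {E : Lm Λ} {P : Ideal Λ} {θ : ℕ → GQ → Λ} {Rm : ℕ → Set GQ} {c : ℕ → GQ → Λ}
    (h : LZ E P θ Rm c) : ∃ N : ℕ → Subgroup GQ, (∀ n, ON (N n)) ∧
      Cs N fun g => Ideal.Quotient.mk P (E.ev c g) := by
  obtain ⟨k, a1, a2⟩ := h
  choose N h1 h2 using fun n => (zf_iff.1 (a2 n).2).1
  refine ⟨N, h1, fun g g' hg hg' e => Ideal.Quotient.eq.2 ?_⟩
  rw [Lm.ev, Lm.ev, ← E.L_sub]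
  exact E.mem_of a1 fun n => h2 n _ (hg n) _ (hg' n) (e n)

theorem LZ.pow {E : Lm Λ} {P : Ideal Λ} {U : ℕ → Subgroup GQ} {θ : ℕ → GQ → Λ} {Rm : ℕ → Set GQ}
    {c : ℕ → GQ → Λ} (h : LZ E P θ Rm c) (hθ : ∀ n, Ch (E.m ^ n) (U n) (θ n))
    (hU : ∀ n, U n ≤ GK) {u : GG} (hu : In U u) (j : ℕ → ℕ) :
    E.ev c (fun n => u n ^ j n) - (E.L fun n => (j n : Λ)) * E.ev c u ∈ P := by
  obtain ⟨k, a1, a2⟩ := h
  rw [Lm.ev, Lm.ev, ← E.L_mul, ← E.L_sub]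
  exact E.mem_of a1 fun n => (a2 n).2.pow (hU n (hu n))
    (E.le_sup P (a2 n).1 ((hθ n).2 _ (hu n))) (E.le_sup P (a2 n).1 ((hθ n).2 _ (U n).one_mem)) _

/-- a cocycle is determined up to coboundaries by its values on `U` -/
theorem sah {B : Type} [CommRing B] {U : ℕ → Subgroup GQ}
    (hU : ∀ n, ∀ g ∈ GK, ∀ h ∈ GK, (g * h)⁻¹ * (h * g) ∈ U n) {θ f : GG → B}
    (hf : ∀ g h, Inc GK g → Inc GK h → f (g * h) = f g + θ g * f h) {g h : GG} (hg : Inc GK g)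
    (hh : Inc GK h) : ∃ u, In U u ∧ (θ h - 1) * f g - (θ g - 1) * f h = θ (g * h) * f u := by
  have h1 : Inc GK (g * h) := fun n => GK.mul_mem (hg n) (hh n)
  have h2 := hf (g * h) ((g * h)⁻¹ * (h * g)) h1 fun n =>
    GK.mul_mem (GK.inv_mem (h1 n)) (GK.mul_mem (hh n) (hg n))
  rw [mul_inv_cancel_left, hf h g hh hg, hf g h hg hh] at h2
  exact ⟨_, fun n => hU n _ (hg n) _ (hh n), by linear_combination h2⟩

theorem Dat.Dv.dvd {E : Lm Λ} {Y : Dat Λ S} {α : ℕ → Λ} (h : ∀ n, Y.Dv (E.m ^ n) (α n)) :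
    E.L α ∣ Y.c0 := by
  choose t ht using h
  exact ⟨E.L t, ((E.congr ht).trans (E.const _)).symm.trans (E.L_mul α t)⟩

variable {k : Type} [Field k]

/-- limits of cocycles with values in the field `k` -/
def Zk (E : Lm Λ) {φ : Λ →+* k} (hφ : Fr φ) (θ : ℕ → GQ → Λ) (Rm : ℕ → Set GQ) :
    Submodule k (GG → k) where
  carrier := {f | ∃ d c, φ d ≠ 0 ∧ LZ E (RingHom.ker φ) θ Rm c ∧ ∀ g, φ d * f g = φ (E.ev c g)}
  zero_mem' := ⟨1, 0, by simp, LZ.of _ fun n => Zf.zero _ _ _, fun g => by simp [E.ev_zero]⟩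
  add_mem' := by
    rintro f f' ⟨d, c, a1, a2, a3⟩ ⟨d', c', b1, b2, b3⟩
    refine ⟨d * d', d' • c + d • c', by simp [a1, b1], (a2.smul d').add (b2.smul d), fun g => ?_⟩
    rw [E.ev_add, E.ev_smul, E.ev_smul, map_add, map_mul, map_mul, map_mul, ← a3, ← b3,
      Pi.add_apply]
    ring
  smul_mem' := by
    rintro t f ⟨d, c, a1, a2, a3⟩
    obtain ⟨a, d', b1, b2⟩ := hφ.fr t
    refine ⟨d * d', a • c, by simp [a1, b1], a2.smul a, fun g => ?_⟩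
    rw [E.ev_smul, map_mul, map_mul, ← a3, ← b2, Pi.smul_apply, smul_eq_mul]
    ring

theorem mem_Zk {E : Lm Λ} {φ : Λ →+* k} {hφ : Fr φ} {θ : ℕ → GQ → Λ} {Rm : ℕ → Set GQ}
    {f : GG → k} : f ∈ Zk E hφ θ Rm ↔
      ∃ d c, φ d ≠ 0 ∧ LZ E (RingHom.ker φ) θ Rm c ∧ ∀ g, φ d * f g = φ (E.ev c g) := Iff.rfl

theorem Zk.mono {E : Lm Λ} {φ : Λ →+* k} {hφ : Fr φ} {θ : ℕ → GQ → Λ} {Rm Rm' : ℕ → Set GQ}
    {f : GG → k} (h : f ∈ Zk E hφ θ Rm) (h' : ∀ n, Rm' n ⊆ Rm n) : f ∈ Zk E hφ θ Rm' := by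
  obtain ⟨d, c, a1, a2, a3⟩ := h
  exact ⟨d, c, a1, a2.mono h', a3⟩

theorem Zk.coc {E : Lm Λ} {φ : Λ →+* k} {hφ : Fr φ} {θ : ℕ → GQ → Λ} {Rm : ℕ → Set GQ}
    {f : GG → k} (h : f ∈ Zk E hφ θ Rm) (g g' : GG) (hg : Inc GK g) (hg' : Inc GK g') :
    f (g * g') = f g + φ (E.ev θ g) * f g' := by
  obtain ⟨d, c, a1, a2, a3⟩ := h
  have := (RingHom.mem_ker).1 (a2.coc hg hg')
  rw [map_sub, map_add, map_mul, ← a3, ← a3, ← a3] at this
  exact mul_left_cancel₀ a1 (by linear_combination this)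

theorem Zk.rm {E : Lm Λ} {φ : Λ →+* k} {hφ : Fr φ} {θ : ℕ → GQ → Λ} {Rm : ℕ → Set GQ}
    {f : GG → k} (h : f ∈ Zk E hφ θ Rm) {g : GG} (hg : ∀ n, g n ∈ Rm n) : f g = 0 := by
  obtain ⟨d, c, a1, a2, a3⟩ := h
  exact (mul_eq_zero.1 ((a3 g).trans (a2.rm hg))).resolve_left a1

theorem Zk.cs {E : Lm Λ} {φ : Λ →+* k} {hφ : Fr φ} {θ : ℕ → GQ → Λ} {Rm : ℕ → Set GQ}
    {f : GG → k} (h : f ∈ Zk E hφ θ Rm) : ∃ N : ℕ → Subgroup GQ, (∀ n, ON (N n)) ∧ Cs N f := by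
  obtain ⟨d, c, a1, a2, a3⟩ := h
  obtain ⟨N, h1, h2⟩ := a2.cs
  refine ⟨N, h1, fun g g' hg hg' e => mul_left_cancel₀ a1 ?_⟩
  rw [a3, a3, ← sub_eq_zero, ← map_sub]
  exact Ideal.Quotient.eq.1 (h2 g g' hg hg' e)

theorem Zk.pow {E : Lm Λ} {φ : Λ →+* k} {hφ : Fr φ} {U : ℕ → Subgroup GQ} {θ : ℕ → GQ → Λ}
    {Rm : ℕ → Set GQ} {f : GG → k} (h : f ∈ Zk E hφ θ Rm) (hθ : ∀ n, Ch (E.m ^ n) (U n) (θ n))
    (hU : ∀ n, U n ≤ GK) {u : GG} (hu : In U u) (j : ℕ → ℕ) :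
    f (fun n => u n ^ j n) = φ (E.L fun n => (j n : Λ)) * f u := by
  obtain ⟨d, c, a1, a2, a3⟩ := h
  have := (RingHom.mem_ker).1 (a2.pow hθ hU hu j)
  rw [map_sub, map_mul, ← a3, ← a3] at this
  exact mul_left_cancel₀ a1 (by linear_combination this)

theorem Fr.ne {φ : Λ →+* k} (hφ : Fr φ) {x : Λ} {i : ℕ} (h : x ∣ 3 ^ i) : φ x ≠ 0 := fun e => by
  obtain ⟨t, ht⟩ := h
  have := congrArg φ ht
  rw [map_mul, e, zero_mul, map_pow] at this
  exact pow_ne_zero i hφ.n3 this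

end defs

end Pool.Agent.MP_e23604_nt.W

end

section

/-!
Statements on limits of systems of cocycles.
-/

set_option autoImplicit false

open Finset Filter Matrix QuadraticAlgebra
open scoped Classical

namespace Pool.Agent.MP_e23604_nt.W

open B R S

/-- the completion at three -/
def O3_st : Prop := ∃ (O : Type) (_ : CommRing O) (_ : IsDomain O) (_ : IsPrincipalIdealRing O)
  (ι : Zw →+* O) (L : (ℕ → O) →+* O),
  (∀ (x : ℕ → O) (k : ℕ), ∀ᶠ n in uf, ι pw ^ k ∣ x n - L x) ∧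
  (∀ x k, ∃ c, ι pw ^ k ∣ x - ι c) ∧ (∀ c k, ι pw ^ k ∣ ι c → pw ^ k ∣ c) ∧
  ∀ x, ¬ ι pw ∣ x → IsUnit x

/-- the ring of power series -/
def LM_st : Prop := ∃ (Λ : Type) (_ : CommRing Λ) (_ : IsDomain Λ) (_ : IsNoetherianRing Λ)
  (_ : UniqueFactorizationMonoid Λ), Nonempty (Lm Λ)

/-- existence of limit cocycles -/
def KOK_st : Prop := ∀ (Λ k S J : Type) [CommRing Λ] [Field k] [Fintype S] [Fintype J] (E : Lm Λ)
  (φ : Λ →+* k) (hφ : Fr φ) (θ : ℕ → GQ → Λ) (Rm : ℕ → Set GQ) (pt : ℕ → J → GQ)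
  (Φ : ℕ → Matrix S J Λ), (∀ n, Exi (E.m ^ n) (θ n) (Rm n) (pt n) (Φ n)) →
  ∀ v : J → k, (E.mt Φ).map φ *ᵥ v = 0 → ∃ f ∈ Zk E hφ θ Rm, ∀ j, f (fun n => pt n j) = v j

/-- removal of primes -/
def DRP_st : Prop := ∀ (Λ k S I : Type) [CommRing Λ] [Field k] [Fintype S] [Fintype I] (E : Lm Λ)
  (Y : Dat Λ S) (φ : Λ →+* k) (hφ : Fr φ) (θ : ℕ → GQ → Λ) (Q : I → ℕ → Y.A) (f : GG → k),
  Sys E Y → (∀ n, Ch (E.m ^ n) (Y.U n) (θ n)) → Y.AD Q → f ∈ Zk E hφ θ (Y.rg Q) →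
  (∀ i, f (Y.tt (Q i)) = 0) → f ∈ Zk E hφ θ fun _ => Y.Rm ∅

/-- reciprocity in the limit -/
def RCK_st : Prop := ∀ (Λ k S I : Type) [CommRing Λ] [Field k] [Fintype S] [Fintype I] (E : Lm Λ)
  (Y : Dat Λ S) (φ : Λ →+* k) (hφ : Fr φ) (Q : I → ℕ → Y.A) (f x : GG → k),
  Sys E Y → Y.AD Q → f ∈ Zk E hφ Y.ρ (Y.rg Q) → x ∈ Zk E hφ Y.lam (Y.rg Q) →
  (∀ g, Inc Y.D g → x g = 0) →
  ∑ i, (f (Y.tt (Q i)) * x (Y.ss (Q i)) - f (Y.ss (Q i)) * x (Y.tt (Q i))) = 0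

/-- the local condition at three has codimension three -/
def LOK_st : Prop := ∀ (Λ k S : Type) [CommRing Λ] [Field k] [Fintype S] (E : Lm Λ)
  (Y : Dat Λ S) (φ : Λ →+* k) (hφ : Fr φ), Sys E Y →
  (∀ x ∈ Zk E hφ Y.lam fun _ => ∅, (∀ i, x (fun _ => Y.y i) = 0) → ∀ g, Inc Y.D g → x g = 0) ∧
  ∃ w : Fin 4 → k, w ≠ 0 ∧ ∀ x ∈ Zk E hφ Y.lam fun _ => ∅, ∑ i, w i * x (fun _ => Y.y i) = 0

/-- the choice of several primes -/
def CHM_st : Prop := ∀ (Λ k S I : Type) [CommRing Λ] [Field k] [Fintype S] [Fintype I] (E : Lm Λ)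
  (Y : Dat Λ S) (φ : Λ →+* k) (hφ : Fr φ) (Q : I → ℕ → Y.A) (N : ℕ → Subgroup GQ) (t : ℕ)
  (u : Fin t → GG), Sys E Y → Y.AD Q → (∀ n, ON (N n)) → (∀ j, In Y.U (u j)) →
  ∃ (P : Fin t → ℕ → Y.A) (e e' : Fin t → k), Y.AD (Sum.elim Q P) ∧
    ∀ θ Rm f, (∀ n, Ch (E.m ^ n) (Y.U n) (θ n)) → f ∈ Zk E hφ θ Rm → Cs N f → ∀ j,
      f (Y.ss (P j)) = e j * f (u j) ∧ f (u j) = e' j * f (Y.ss (P j))

/-- linear algebra -/
def LAL_st : Prop := ∀ (k : Type) [Field k],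
  (∀ (X : Type) (t : ℕ) (γ : X → Fin (t + 1) → k) (l : Fin (t + 1) → k),
    (∀ w : Fin (t + 1) → k, (∀ x, w ⬝ᵥ γ x = 0) → w ⬝ᵥ l = 0 → w = 0) →
    ∃ u : Fin t → X, LinearIndependent k fun j => γ (u j)) ∧
  (∀ (S J : Type) [Fintype S] [Fintype J] (Φ : Matrix S J k) (t : ℕ),
    Fintype.card J = Fintype.card S + t →
    (∃ v : Fin t → J → k, LinearIndependent k v ∧ ∀ i, Φ *ᵥ v i = 0) ∧
    (¬ Function.Surjective Φ.mulVec →
      ∃ v : Fin (t + 1) → J → k, LinearIndependent k v ∧ ∀ i, Φ *ᵥ v i = 0)) ∧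
  ∀ (r : ℕ) (a : Fin (4 + r) → Fin 4 → k) (b : Fin (4 + r) → Fin r → k) (w : Fin 4 → k), w ≠ 0 →
    (∀ i, w ⬝ᵥ a i = 0) → ∃ c : Fin (4 + r) → k, c ≠ 0 ∧ ∑ i, c i • a i = 0 ∧ ∑ i, c i • b i = 0

/-- existence of dual classes -/
def GWK_st : Prop := ∀ (Λ k S : Type) [CommRing Λ] [Field k] [Fintype S] (E : Lm Λ)
  (Y : Dat Λ S) (φ : Λ →+* k) (hφ : Fr φ) (s : Stt Y), Sys E Y →
  ¬ Function.Surjective ((s.mat E).map φ).mulVec →
  ∃ x ∈ Zk E hφ Y.lam fun _ => Y.Rm ∅, (∀ g, Inc Y.D g → x g = 0) ∧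
    (∀ i, x (Y.ss (s.Q i)) = 0) ∧ ∃ u, In Y.U u ∧ x u ≠ 0

/-- the induction on column spans -/
def FIT_st : Prop := ∀ (Λ S St : Type) [CommRing Λ] [IsNoetherianRing Λ] [Fintype S] (p : Λ)
  (N : St → Submodule Λ (S → Λ)) (b : St → ℕ) (F : Ideal Λ), Prime p →
  (∀ t d, ¬ p ∣ t → t * d ∈ F → d ∈ F) →
  (∀ s, (∃ v : S → Λ, ∀ t : Λ, ¬ p ∣ t → t • v ∉ N s) → ∃ (s' : St) (a : S → Λ) (i : ℕ) (t : Λ),
    N s' = N s ⊔ Submodule.span Λ {a} ∧ (∀ t' : Λ, ¬ p ∣ t' → t' • a ∉ N s) ∧ ¬ p ∣ t ∧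
      (t * p ^ i) • a ∈ N s ∧ i + b s' ≤ b s) →
  ∀ s, (∀ v : Matrix S S Λ, (∀ i, v i ∈ N s) → v.det ∈ F) → p ^ b s ∈ F

/-- the relation between the minors -/
def PLU_st : Prop := ∀ (Λ S : Type) [CommRing Λ] [Fintype S] (Φ : Matrix S (Fin 2 ⊕ S) Λ)
  (e z : Fin 2 ⊕ S → Λ) (I : Ideal Λ) (v : Matrix S S Λ), IsUnit (2 : Λ) → Φ *ᵥ e = 0 →
  Φ *ᵥ z = 0 → (∀ i j, e i * z j - e j * z i ∈ I) → (∀ i, ∃ y, v i = Φ *ᵥ y) →
  ∃ d ∈ I, (e (.inl 0) * z (.inl 1) - e (.inl 1) * z (.inl 0)) * v.det =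
    (Φ.submatrix id Sum.inr).det * d

/-- the derived class of a state -/
def Stt.kk {Λ S : Type} {Y : Dat Λ S} (s : Stt Y) (κ : ℕ → ∀ r : ℕ, (Fin r → Y.A) → GQ → Λ)
    (n : ℕ) : GQ → Λ := κ n s.r fun i => s.Q i n

/-- `p ^ b` is the exact power of `p` that divides the values of `c` on `U` -/
def Xp {Λ : Type} [CommRing Λ] (E : Lm Λ) (U : ℕ → Subgroup GQ) (p : Λ) (c : ℕ → GQ → Λ)
    (b : ℕ) : Prop :=
  (∀ u, In U u → p ^ b ∣ E.ev c u) ∧ ∃ u, In U u ∧ ¬ p ^ (b + 1) ∣ E.ev c u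

/-- one more prime -/
def STEP_st : Prop := ∀ (Λ k S : Type) [CommRing Λ] [IsDomain Λ] [IsNoetherianRing Λ] [Field k]
  [Fintype S] (E : Lm Λ) (Y : Dat Λ S) (φ : Λ →+* k) (p : Λ) (z : ℕ → GQ → Λ)
  (κ : ℕ → ∀ r : ℕ, (Fin r → Y.A) → GQ → Λ) (s : Stt Y) (b : ℕ), Sys E Y →
  Eul E Y z κ → Fr φ → Prime p → (∀ x, φ x = 0 ↔ p ∣ x) → Xp E Y.U p (s.kk κ) b →
  ¬ Function.Surjective ((s.mat E).map φ).mulVec →
  ∃ (s' : Stt Y) (b' : ℕ) (a : S → Λ) (i : ℕ) (t : Λ), Xp E Y.U p (s'.kk κ) b' ∧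
    LinearMap.range (s'.mat E).mulVecLin =
      LinearMap.range (s.mat E).mulVecLin ⊔ Submodule.span Λ {a} ∧
    (∀ t', ¬ p ∣ t' → t' • a ∉ LinearMap.range (s.mat E).mulVecLin) ∧ ¬ p ∣ t ∧
    (t * p ^ i) • a ∈ LinearMap.range (s.mat E).mulVecLin ∧ i + b' ≤ b

/-- the divisibility at one prime -/
def ESL_st : Prop := ∀ (Λ S : Type) [CommRing Λ] [IsDomain Λ] [IsNoetherianRing Λ] [Fintype S]
  (E : Lm Λ) (Y : Dat Λ S) (p : Λ) (z : ℕ → GQ → Λ) (κ : ℕ → ∀ r : ℕ, (Fin r → Y.A) → GQ → Λ),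
  Sys E Y → Eul E Y z κ → Prime p → ¬ p ∣ 3 →
  (Y.ze E z ≠ 0 → ∃ t, ¬ p ∣ t ∧ Y.dl E ∣ t * Y.ze E z) ∧
  ((∀ x, LZ E (Ideal.span {p}) Y.lam (fun _ => Y.Rm ∅) x → (∀ g, Inc Y.D g → p ∣ E.ev x g) →
      ∀ u, In Y.U u → p ∣ E.ev x u) →
    (∀ u, In Y.U u → p ∣ E.ev z u) → ∃ t, ¬ p ∣ t ∧ Y.dl E * p ∣ t * Y.ze E z)

/-- the comparison of the two sides -/
def FIN_st : Prop := ∀ (Λ : Type) [CommRing Λ] [IsDomain Λ] [UniqueFactorizationMonoid Λ]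
  (π Δ f f' e e' u : Λ) (i : ℕ), Prime π → π ^ 2 = -3 → (∀ x, π ∣ x → IsUnit (u + x)) →
  e' * f = e * f' → e - e' ∣ 3 ^ i → π ∣ f - u * (Δ * e) →
  ¬ π ∣ Δ * e → (∀ p, Prime p → ¬ p ∣ 3 → (f ≠ 0 → ∃ t, ¬ p ∣ t ∧ Δ ∣ t * f) ∧
    (f' ≠ 0 → ∃ t, ¬ p ∣ t ∧ Δ ∣ t * f')) → ∃ h, IsUnit h ∧ f = h * (Δ * e)

/-- the determinant of the tame block at finite level -/
noncomputable def Dat.dn {Λ S : Type} [CommRing Λ] [Fintype S] (Y : Dat Λ S) (n : ℕ) : Λ :=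
  ((Y.Φ n).submatrix id Sum.inr).det

/-- the value at the commutator at finite level -/
def Dat.zn {Λ S : Type} [CommRing Λ] (Y : Dat Λ S) (z : ℕ → GQ → Λ) (n : ℕ) : Λ :=
  (Y.ρ n (Y.gen n (.inl 0)) - 1) * z n (Y.gen n (.inl 1)) -
    (Y.ρ n (Y.gen n (.inl 1)) - 1) * z n (Y.gen n (.inl 0))

/-- the conclusion in the limit -/
def TOP_st : Prop := ∀ (Λ S : Type) [CommRing Λ] [IsDomain Λ] [IsNoetherianRing Λ]
  [UniqueFactorizationMonoid Λ] [Fintype S] (E : Lm Λ) (Y : Dat Λ S) (z z' : ℕ → GQ → Λ)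
  (κ κ' : ℕ → ∀ r : ℕ, (Fin r → Y.A) → GQ → Λ) (e e' : ℕ → Λ) (d c : ℕ), Sys E Y →
  Eul E Y z κ → Eul E Y z' κ' → (∀ n, e' n * Y.zn z n - e n * Y.zn z' n ∈ E.m ^ n) →
  (∀ n, Y.Dv (E.m ^ n) (e n - e' n)) → (∀ n, Y.Dv (Ideal.span {E.T} ⊔ E.m ^ n) (e n)) →
  (∀ n, ∃ u, u ∉ E.m ∧ Y.zn z n - u * (Y.dn n * e n) ∈ Ideal.span {E.ι pw} ⊔ E.m ^ n) →
  (∀ n, ∃ t, Y.dn n * e n * t - E.T ^ d ∈ Ideal.span {E.ι pw} ⊔ E.m ^ n) →
  (∀ n k x, k ≤ n → Zf (Y.lam n) (Y.Rm ∅) (Ideal.span {E.T} ⊔ E.m ^ k) x →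
    (∀ g ∈ Y.D, x g ∈ Ideal.span {E.T} ⊔ E.m ^ k) →
    ∀ u ∈ Y.U n, 3 ^ c * x u ∈ Ideal.span {E.T} ⊔ E.m ^ k) →
  ∃ u, In Y.U u ∧ ¬ E.T ∣ E.ev z u

/-- the choice of one prime -/
theorem Sys.chk {Λ S I : Type} [CommRing Λ] [Fintype S] [Fintype I] {E : Lm Λ} {Y : Dat Λ S}
    (h : Sys E Y) {N : ℕ → Subgroup GQ} (hN : ∀ n, ON (N n)) {u : GG} (hu : In Y.U u)
    (Q : I → ℕ → Y.A) : ∃ (q : ℕ → Y.A) (j j' : ℕ → ℕ), ∀ n, Y.ok n (q n) ∧
      (∀ i, Y.nm (Q i n) ≠ Y.nm (q n)) ∧ (u n ^ j n)⁻¹ * Y.σ (q n) ∈ N n ∧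
      (Y.σ (q n) ^ j' n)⁻¹ * u n ∈ N n := by
  choose q h1 h2 j j' h3 using fun n =>
    h.chb n (N n) (hN n) (u n) (hu n) (univ.image fun i => Y.nm (Q i n))
  exact ⟨q, j, j', fun n => ⟨h1 n, fun i e => h2 n (mem_image.2 ⟨i, mem_univ _, e⟩), h3 n⟩⟩

theorem ex_cs {I α : Type} [Fintype I] {f : I → GG → α}
    (h : ∀ i, ∃ N : ℕ → Subgroup GQ, (∀ n, ON (N n)) ∧ Cs N (f i)) :
    ∃ N : ℕ → Subgroup GQ, (∀ n, ON (N n)) ∧ ∀ i, Cs N (f i) := by
  choose N h1 h2 using h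
  refine ⟨fun n => ⨅ i, N i n, fun n => ⟨Subgroup.normal_iInf_normal fun i => (h1 i n).1, ?_⟩,
    fun i g g' hg hg' e => h2 i g g' hg hg' fun n => Subgroup.mem_iInf.1 (e n) i⟩
  rw [Subgroup.coe_iInf]
  exact isOpen_iInter_of_finite fun i => (h1 i n).2

theorem Sys.inc {Λ S I : Type} [CommRing Λ] [Fintype S] {E : Lm Λ} {Y : Dat Λ S} (h : Sys E Y)
    {Q : I → ℕ → Y.A} (hQ : Y.AD Q) : (∀ i, In Y.U (Y.ss (Q i)) ∧ In Y.U (Y.tt (Q i))) ∧
      (∀ j, Inc GK (Y.gg Q j)) ∧ (∀ u, In Y.U u → Inc GK u) ∧ Inc Y.D Y.g1 ∧ Inc GK Y.g1 :=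
  ⟨fun i => ⟨fun n => h.σU n _ ((hQ n).1 i), fun n => h.τU n _ ((hQ n).1 i)⟩,
    fun j n => by
      rcases j with j | i
      exacts [h.genK n j, h.le n (h.τU n _ ((hQ n).1 i))],
    fun _ hu n => h.le n (hu n), h.g1D, fun n => h.dle (h.g1D n)⟩

theorem Sys.dv {Λ S : Type} [CommRing Λ] [Fintype S] {E : Lm Λ} {Y : Dat Λ S} (h : Sys E Y)
    {α : ℕ → Λ} (hα : ∀ n, Y.Dv (E.m ^ n) (α n)) : ∃ i, E.L α ∣ 3 ^ i :=
  h.c0.imp fun _ e => (Dat.Dv.dvd hα).trans e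

theorem Sys.g1dv {Λ S : Type} [CommRing Λ] [Fintype S] {E : Lm Λ} {Y : Dat Λ S} (h : Sys E Y) :
    (∃ i, E.ev Y.ρ Y.g1 - 1 ∣ 3 ^ i) ∧ ∃ i, E.ev Y.lam Y.g1 - 1 ∣ 3 ^ i := by
  have h1 := h.dv h.g1ρ
  have h2 := h.dv h.g1l
  rw [E.L_sub, E.const] at h1 h2
  exact ⟨h1, h2⟩

theorem Lm.two {Λ : Type} [CommRing Λ] (E : Lm Λ) : IsUnit (2 : Λ) := E.unit _ fun h =>
  E.ne (by simpa [show (3 : Λ) - 2 = 1 by norm_num] using E.m.sub_mem E.three_mem h)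

/-- the residue field of a prime element -/
theorem ex_fr {Λ : Type} [CommRing Λ] {p : Λ} (hp : Prime p) (h3 : ¬ p ∣ 3) :
    ∃ (k : Type) (_ : Field k) (φ : Λ →+* k), Fr φ ∧ ∀ x, φ x = 0 ↔ p ∣ x := by
  have := (Ideal.span_singleton_prime hp.ne_zero).2 hp
  have e : ∀ x, (algebraMap (Λ ⧸ Ideal.span {p}) (FractionRing (Λ ⧸ Ideal.span {p}))).comp
      (Ideal.Quotient.mk _) x = 0 ↔ p ∣ x := fun x => by
    rw [RingHom.comp_apply, map_eq_zero_iff _ (IsFractionRing.injective _ _),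
      Ideal.Quotient.eq_zero_iff_mem, Ideal.mem_span_singleton]
  refine ⟨FractionRing (Λ ⧸ Ideal.span {p}), inferInstance, _, ⟨fun y => ?_, mt (e 3).1 h3⟩, e⟩
  obtain ⟨a, d, h1, rfl⟩ := IsFractionRing.div_surjective (A := Λ ⧸ Ideal.span {p}) y
  obtain ⟨a, rfl⟩ := Ideal.Quotient.mk_surjective a
  obtain ⟨d, rfl⟩ := Ideal.Quotient.mk_surjective d
  have h2 := IsFractionRing.to_map_ne_zero_of_mem_nonZeroDivisors
    (K := FractionRing (Λ ⧸ Ideal.span {p})) h1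
  exact ⟨a, d, h2, mul_div_cancel₀ _ h2⟩

end Pool.Agent.MP_e23604_nt.W

end

section

set_option autoImplicit false

open Finset Filter Matrix QuadraticAlgebra
open scoped Classical

namespace Pool.Agent.MP_e23604_nt.W

open B R S

theorem pick_CHM {A : Type} (nm : A → ℕ) (X : Finset ℕ) (t : ℕ) : ∀ G : Fin t → A → Prop,
    (∀ l (X : Finset ℕ), ∃ q, G l q ∧ nm q ∉ X) →
    ∃ P : Fin t → A, (∀ l, G l (P l) ∧ nm (P l) ∉ X) ∧ Function.Injective fun l => nm (P l) := by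
  induction t with
  | zero => exact fun _ _ => ⟨Fin.elim0, fun l => l.elim0, fun l => l.elim0⟩
  | succ t ih =>
    intro G h
    obtain ⟨P, h1, h2⟩ := ih (fun l => G l.succ) fun l => h l.succ
    obtain ⟨q, q1, q2⟩ := h 0 (X ∪ univ.image fun l => nm (P l))
    rw [mem_union, not_or] at q2
    have q3 : ∀ l, nm (P l) ≠ nm q := fun l e => q2.2 (mem_image.2 ⟨l, mem_univ _, e⟩)
    refine ⟨Fin.cons q P, fun l => Fin.cases ⟨q1, q2.1⟩ h1 l, fun l l' => ?_⟩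
    refine Fin.cases ?_ (fun l => ?_) l <;> refine Fin.cases ?_ (fun l' => ?_) l' <;> intro e
    · rfl
    · exact absurd e.symm (q3 l')
    · exact absurd e (q3 l)
    · exact congrArg Fin.succ (h2 e)

theorem CHM_pf : CHM_st := by
  intro Λ k S I _ _ _ _ E Y φ hφ Q N t u h hQ hN hu
  choose P h1 h2 using fun n => pick_CHM Y.nm (univ.image fun i => Y.nm (Q i n)) t
    (fun l q => Y.ok n q ∧ ∃ j j' : ℕ, (u l n ^ j)⁻¹ * Y.σ q ∈ N n ∧ (Y.σ q ^ j')⁻¹ * u l n ∈ N n)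
    fun l X => (h.chb n (N n) (hN n) (u l n) (hu l n) X).imp fun q e => ⟨⟨e.1, e.2.2⟩, e.2.1⟩
  choose j j' h3 using fun n l => (h1 n l).1.2
  have h4 : ∀ n i l, Y.nm (Q i n) ≠ Y.nm (P n l) := fun n i l e =>
    (h1 n l).2 (mem_image.2 ⟨i, mem_univ _, e⟩)
  refine ⟨fun l n => P n l, fun l => φ (E.L fun n => (j n l : Λ)),
    fun l => φ (E.L fun n => (j' n l : Λ)), fun n => ⟨?_, ?_⟩, fun θ Rm f hθ hf hc l => ?_⟩
  · rintro (i | l)
    exacts [(hQ n).1 i, (h1 n l).1.1]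
  · rintro (i | l) (i' | l') e
    · exact congrArg Sum.inl ((hQ n).2 e)
    · exact absurd e (h4 n i l')
    · exact absurd e.symm (h4 n i' l)
    · exact congrArg Sum.inr (h2 n e)
  have hs : In Y.U (Y.ss fun n => P n l) := fun n => h.σU n _ (h1 n l).1.1
  constructor
  · rw [← Zk.pow hf hθ h.le (hu l) fun n => j n l]
    exact (hc _ _ (fun n => GK.pow_mem (h.le n (hu l n)) _) (fun n => h.le n (hs n))
      fun n => (h3 n l).1).symm
  · rw [← Zk.pow hf hθ h.le hs fun n => j' n l]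
    exact (hc _ _ (fun n => GK.pow_mem (h.le n (hs n)) _) (fun n => h.le n (hu l n))
      fun n => (h3 n l).2).symm

end Pool.Agent.MP_e23604_nt.W

end

section

/-!
Removal of primes in the limit.
-/

set_option autoImplicit false

open Finset Filter Matrix QuadraticAlgebra
open scoped Classical

namespace Pool.Agent.MP_e23604_nt.W

open B R S

theorem DRP_pf : DRP_st := by
  intro Λ k S I _ _ _ _ E Y φ hφ θ Q f hS hθ hQ ⟨d, c, a1, ⟨k₁, a2, a3⟩, a4⟩ h0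
  have h1 : ∀ i, E.ev c (Y.tt (Q i)) ∈ RingHom.ker φ := fun i => by
    rw [RingHom.mem_ker, ← a4, h0, mul_zero]
  obtain ⟨k₂, b1, b2⟩ := diag
    (G := fun n j => ∀ i, c n (Y.τ (Q i n)) ∈ RingHom.ker φ ⊔ E.m ^ j) (fun n i => by simp)
    fun j => eventually_all.2 fun i => (E.mem_iff _ _).1 (h1 i) j
  refine ⟨d, c, a1, ⟨_, tendsto_min a2 b1, fun n => ?_⟩, a4⟩
  have h2 : min (k₁ n) (k₂ n) ≤ n := (min_le_left _ _).trans (a3 n).1
  refine ⟨h2, hS.drop n _ _ _ _ (hθ n) (E.le_sup _ h2)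
    ((a3 n).2.mono le_rfl (E.sup_le _ (min_le_left _ _))) ?_⟩
  rintro _ ⟨i, rfl⟩
  exact ⟨(hQ n).1 i, E.sup_le _ (min_le_right _ _) ((b2 n).2 i)⟩

end Pool.Agent.MP_e23604_nt.W

end

section

/-!
The divisibility at one prime.
-/

set_option autoImplicit false

open Finset Filter Matrix QuadraticAlgebra
open scoped Classical

namespace Pool.Agent.MP_e23604_nt.W

open B R S

theorem A_ESL {Λ k S J : Type} [CommRing Λ] [Field k] [Fintype S] [Fintype J] {φ : Λ →+* k}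
    (hφ : Fr φ) (Φ : Matrix S J Λ) (h : Function.Surjective (Φ.map φ).mulVec) :
    ∃ W : Matrix S S Λ, (∀ i, ∃ y, W i = Φ *ᵥ y) ∧ φ W.det ≠ 0 := by
  have key : ∀ y : J → k, ∃ (d : Λ) (a : J → Λ), φ d ≠ 0 ∧ φ ∘ a = φ d • y := fun y => by
    choose a d h1 h2 using fun j => hφ.fr (y j)
    refine ⟨∏ j, d j, fun j => a j * ∏ i ∈ univ.erase j, d i, ?_, funext fun j => ?_⟩
    · rw [map_prod]
      exact prod_ne_zero_iff.2 fun j _ => h1 j
    · rw [Function.comp_apply, map_mul, ← h2, Pi.smul_apply, smul_eq_mul,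
        ← mul_prod_erase univ d (mem_univ j), map_mul]
      ring
  choose y hy using fun i : S => h (Pi.single i 1)
  choose d a h1 h2 using fun i => key (y i)
  refine ⟨Matrix.of fun i => Φ *ᵥ a i, fun i => ⟨a i, rfl⟩, ?_⟩
  have e : φ.mapMatrix (Matrix.of fun i => Φ *ᵥ a i) = diagonal fun i => φ (d i) := by
    ext i s
    rw [RingHom.mapMatrix_apply, map_apply, of_apply, RingHom.map_mulVec, h2, mulVec_smul, hy,
      diagonal_apply, Pi.smul_apply, Pi.single_apply, smul_eq_mul, mul_ite, mul_one, mul_zero]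
    exact if_congr eq_comm rfl rfl
  rw [RingHom.map_det, e, det_diagonal]
  exact prod_ne_zero_iff.2 fun i _ => h1 i

theorem B_ESL {Λ S : Type} [CommRing Λ] [Fintype S] {N : Submodule Λ (S → Λ)} {W : Matrix S S Λ}
    (h : ∀ i, W i ∈ N) (v : S → Λ) : W.det • v ∈ N := by
  have e : (v ᵥ* W.adjugate) ᵥ* W = W.det • v := by
    rw [vecMul_vecMul, adjugate_mul, vecMul_smul, vecMul_one]
  rw [← e, vecMul_eq_sum]
  exact N.sum_mem fun i _ => N.smul_mem _ (h i)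

theorem bm_ESL {Λ S J : Type} [CommRing Λ] [Fintype J] (Φ : Matrix S J Λ) (Ψ : Fin 0 → S → Λ)
    (v : J ⊕ Fin 0 → Λ) : bm Φ Ψ *ᵥ v = Φ *ᵥ fun j => v (.inl j) := by
  funext s
  simp [mulVec, dotProduct, bm]

variable {Λ S : Type} [CommRing Λ] [Fintype S] {E : Lm Λ} {Y : Dat Λ S}

/-- the initial state -/
def s0_ESL (h : Sys E Y) : Stt Y :=
  ⟨0, Fin.elim0, fun _ => Fin.elim0, fun _ => ⟨fun i => i.elim0, fun i => i.elim0⟩,
    fun n => h.vd0 n _ _⟩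

theorem mat_ESL (h : Sys E Y) (v : (Fin 2 ⊕ S) ⊕ Fin 0 → Λ) :
    (s0_ESL h).mat E *ᵥ v = E.mt Y.Φ *ᵥ fun j => v (.inl j) := by
  rw [← bm_ESL (E.mt Y.Φ) Fin.elim0]
  congr 1
  ext s j
  rcases j with j | j
  exacts [rfl, j.elim0]

theorem kill_ESL (h : Sys E Y) {c : ℕ → GQ → Λ}
    (hc : ∀ n, Zf (Y.ρ n) (Y.Rm ∅) (E.m ^ n) (c n)) :
    (E.mt Y.Φ *ᵥ fun j => E.ev c fun n => Y.gen n j) = 0 := by
  funext s
  refine (E.mt_mulVec Y.Φ (fun n j => c n (Y.gen n j)) s).trans (E.eq_zero fun n => ?_)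
  have := h.rel n 0 _ _ ((s0_ESL h).vd n) ((s0_ESL h).ad n) (c n)
    ((hc n).mono (h.mono _ _ (Set.empty_subset _)) le_rfl) s
  rwa [bm_ESL] at this

theorem sah_ESL (h : Sys E Y) {z : ℕ → GQ → Λ}
    (hz : ∀ n, Zf (Y.ρ n) (Y.Rm ∅) (E.m ^ n) (z n)) {I : Ideal Λ}
    (hI : ∀ u, In Y.U u → E.ev z u ∈ I) (i j : Fin 2 ⊕ S) :
    (E.ev Y.ρ (fun n => Y.gen n i) - 1) * E.ev z (fun n => Y.gen n j) -
      (E.ev Y.ρ (fun n => Y.gen n j) - 1) * E.ev z (fun n => Y.gen n i) ∈ I := by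
  obtain ⟨u, h1, h2⟩ := sah h.ab (θ := E.ev Y.ρ) (f := E.ev z)
    (fun g g' hg hg' => sub_eq_zero.1 (Ideal.mem_bot.1 ((LZ.of ⊥ hz).coc hg hg')))
    (g := fun n => Y.gen n j) (h := fun n => Y.gen n i) (fun n => h.genK n j) fun n => h.genK n i
  exact h2 ▸ I.mul_mem_left _ (hI u h1)

theorem PL_ESL (hPLU : PLU_st) (h : Sys E Y) {z : ℕ → GQ → Λ}
    (hz : ∀ n, Zf (Y.ρ n) (Y.Rm ∅) (E.m ^ n) (z n)) {q : Λ}
    (hI : ∀ u, In Y.U u → q ∣ E.ev z u) {v : Matrix S S Λ}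
    (hv : ∀ i, ∃ y, v i = (s0_ESL h).mat E *ᵥ y) : Y.dl E * q ∣ Y.ze E z * v.det := by
  have h1 := kill_ESL h fun n => (h.chρ n).zf (h.on n) (h.rmU n)
  simp only [Lm.ev, E.L_sub, E.const] at h1
  obtain ⟨d, h2, h3⟩ := hPLU Λ S (E.mt Y.Φ) (fun j => E.ev Y.ρ (fun n => Y.gen n j) - 1)
    (fun j => E.ev z fun n => Y.gen n j) (Ideal.span {q}) v E.two h1 (kill_ESL h hz)
    (sah_ESL h hz fun u hu => Ideal.mem_span_singleton.2 (hI u hu))
    fun i => (hv i).elim fun y hy => ⟨_, hy.trans (mat_ESL h y)⟩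
  exact (show Y.ze E z * v.det = Y.dl E * d from h3) ▸
    mul_dvd_mul_left _ (Ideal.mem_span_singleton.1 h2)

theorem ESL_pf (hSTEP : STEP_st) (hGWK : GWK_st) (hFIT : FIT_st) (hPLU : PLU_st) : ESL_st := by
  intro Λ S _ _ _ _ E Y p z κ h hE hp h3
  obtain ⟨k, _, φ, hφ, hk⟩ := ex_fr hp h3
  refine ⟨fun h0 => ?_, fun hx hz => ?_⟩
  · have ha : ¬ p ∣ E.ev Y.ρ Y.g1 - 1 := fun e =>
      h.g1dv.1.elim fun _ e' => h3 (hp.dvd_of_dvd_pow (e.trans e'))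
    have hb : ∀ u, In Y.U u → E.ev ((s0_ESL h).kk κ) u = (E.ev Y.ρ Y.g1 - 1) * E.ev z u :=
      fun u hu => by
        refine (E.congr fun n => hE.bot n _ (u n) (hu n)).trans ?_
        rw [E.L_mul, E.L_sub, E.const]
        rfl
    have hex : ∃ b u, In Y.U u ∧ ¬ p ^ (b + 1) ∣ E.ev ((s0_ESL h).kk κ) u := by
      by_contra e
      refine h0 (Ideal.mem_bot.1 (sah_ESL h hE.zf (fun u hu => ?_) _ _))
      by_contra e'
      obtain ⟨b, e2⟩ := FiniteMultiplicity.of_prime_left hp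
        (b := (E.ev Y.ρ Y.g1 - 1) * E.ev z u)
        (mul_ne_zero (mt (fun e1 => e1.symm ▸ dvd_zero p) ha) (mt Ideal.mem_bot.2 e'))
      exact e ⟨b, u, hu, hb u hu ▸ e2⟩
    have hX : Xp E Y.U p ((s0_ESL h).kk κ) (Nat.find hex) := by
      refine ⟨fun u hu => ?_, Nat.find_spec hex⟩
      rcases e : Nat.find hex with _ | c
      · simp
      · by_contra e'
        exact Nat.find_min hex (show c < _ by omega) ⟨u, hu, e'⟩
    generalize Nat.find hex = b at hX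
    let F : Ideal Λ :=
      { carrier := {d | ∃ t, ¬ p ∣ t ∧ Y.dl E * p ^ b ∣ t * Y.ze E z * d}
        zero_mem' := ⟨1, hp.not_dvd_one, by simp⟩
        add_mem' := by
          rintro d d' ⟨t, a1, a2⟩ ⟨t', b1, b2⟩
          refine ⟨t * t', fun e => (hp.dvd_or_dvd e).elim a1 b1, ?_⟩
          have := dvd_add (a2.mul_right t') (b2.mul_right t)
          exact this.trans (dvd_of_eq (by ring))
        smul_mem' := by
          rintro c d ⟨t, a1, a2⟩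
          exact ⟨t, a1, (a2.mul_right c).trans (dvd_of_eq (by rw [smul_eq_mul]; ring))⟩ }
    obtain ⟨t, a1, a2⟩ := hFIT Λ S {x : Stt Y × ℕ // Xp E Y.U p (x.1.kk κ) x.2} p
      (fun x => LinearMap.range (x.1.1.mat E).mulVecLin) (fun x => x.1.2) F hp
      (by
        rintro t d a0 ⟨t', a1, a2⟩
        exact ⟨t' * t, fun e => (hp.dvd_or_dvd e).elim a1 a0, a2.trans (dvd_of_eq (by ring))⟩)
      (by
        rintro ⟨⟨s, c⟩, hs⟩ ⟨v, hv⟩
        obtain ⟨s', c', a, i, t, b1, b2⟩ := hSTEP Λ k S E Y φ p z κ s c h hE hφ hp hk hs fun e => by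
          obtain ⟨W, w1, w2⟩ := A_ESL hφ _ e
          exact hv _ (mt (hk _).2 w2) (B_ESL (fun i => (w1 i).imp fun _ e => e.symm) v)
        exact ⟨⟨⟨s', c'⟩, b1⟩, a, i, t, b2⟩)
      ⟨⟨s0_ESL h, b⟩, hX⟩ fun v hv => ⟨1, hp.not_dvd_one, by
        rw [one_mul]
        exact PL_ESL hPLU h hE.zf
          (fun u hu => hp.pow_dvd_of_dvd_mul_left b ha (hb u hu ▸ hX.1 u hu))
          fun i => (hv i).imp fun _ e => e.symm⟩
    exact ⟨t, a1, (mul_dvd_mul_iff_right (pow_ne_zero b hp.ne_zero)).1 a2⟩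
  · have hs : Function.Surjective (((s0_ESL h).mat E).map φ).mulVec := by
      by_contra e
      obtain ⟨x, ⟨d, c, a1, a2, a3⟩, a4, -, u, a5, a6⟩ := hGWK Λ k S E Y φ hφ _ h e
      have e1 : RingHom.ker φ = Ideal.span {p} := Ideal.ext fun x => by
        rw [RingHom.mem_ker, hk, Ideal.mem_span_singleton]
      refine mul_ne_zero a1 a6 ((a3 u).trans ((hk _).2 (hx c (e1 ▸ a2) (fun g hg => ?_) u a5)))
      rw [← hk, ← a3, a4 g hg, mul_zero]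
    obtain ⟨W, w1, w2⟩ := A_ESL hφ _ hs
    exact ⟨W.det, mt (hk _).2 w2, mul_comm (Y.ze E z) _ ▸ PL_ESL hPLU h hE.zf hz w1⟩

end Pool.Agent.MP_e23604_nt.W

end

section

set_option autoImplicit false

open Finset Filter Matrix QuadraticAlgebra
open scoped Classical

namespace Pool.Agent.MP_e23604_nt.W

open B R S

theorem le_FIN {Λ : Type} [CommRing Λ] [IsDomain Λ] {p Δ t f : Λ} (hp : Prime p) (ht : ¬ p ∣ t)
    (h : Δ ∣ t * f) : emultiplicity p Δ ≤ emultiplicity p f := by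
  have := emultiplicity_le_emultiplicity_of_dvd_right (a := p) h
  rwa [emultiplicity_mul hp, emultiplicity_eq_zero.2 ht, zero_add] at this

theorem FIN_pf : FIN_st := by
  intro Λ _ _ _ π Δ f f' e e' u i hπ h3 hu he hi hf hn hp
  have u0 : IsUnit u := by simpa using hu 0 (dvd_zero π)
  have f1 : ¬ π ∣ f := fun h => hn (u0.dvd_mul_left.1 (by simpa using dvd_sub h hf))
  have f0 : f ≠ 0 := fun h => f1 (h ▸ dvd_zero π)
  have d0 : Δ * e ≠ 0 := fun h => hn (h ▸ dvd_zero π)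
  obtain ⟨h, rfl⟩ : Δ * e ∣ f := by
    refine (UniqueFactorizationMonoid.dvd_iff_emultiplicity_le d0).2 fun p pp => ?_
    by_cases p3 : p ∣ 3
    · have h1 : p ∣ π := pp.dvd_of_dvd_pow (n := 2) (h3 ▸ p3.neg_right)
      rw [emultiplicity_eq_zero.2 fun h =>
        hn (((pp.associated_of_dvd hπ h1).dvd_iff_dvd_left).1 h)]
      exact zero_le
    rw [emultiplicity_mul pp]
    by_cases pe : p ∣ e
    · have e1 : ¬ p ∣ e' := fun h => p3 (pp.dvd_of_dvd_pow ((dvd_sub pe h).trans hi))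
      have f2 : f' ≠ 0 := fun h => mul_ne_zero (fun h' : e' = 0 => e1 (h' ▸ dvd_zero p)) f0
        (by rw [he, h, mul_zero])
      obtain ⟨t, t1, t2⟩ := (hp p pp p3).2 f2
      have h2 := congrArg (emultiplicity p) he
      rw [emultiplicity_mul pp, emultiplicity_mul pp, emultiplicity_eq_zero.2 e1, zero_add] at h2
      rw [h2, add_comm]
      exact add_le_add le_rfl (le_FIN pp t1 t2)
    · obtain ⟨t, t1, t2⟩ := (hp p pp p3).1 f0
      rw [emultiplicity_eq_zero.2 pe, add_zero]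
      exact le_FIN pp t1 t2
  rw [mul_comm _ h, ← sub_mul] at hf
  exact ⟨h, by simpa using hu _ ((hπ.dvd_or_dvd hf).resolve_right hn), mul_comm _ _⟩

end Pool.Agent.MP_e23604_nt.W

end

section

set_option autoImplicit false

open Finset Filter Matrix QuadraticAlgebra
open scoped Classical

namespace Pool.Agent.MP_e23604_nt.W

open B R S

section
variable {Λ S : Type} [CommRing Λ] [Fintype S] {N : Submodule Λ (S → Λ)} {a : S → Λ} {q : Λ}
  {G : Ideal Λ}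

lemma one_FIT (hq : q • a ∈ N) (hG : ∀ v : Matrix S S Λ, (∀ i, v i ∈ N) → v.det ∈ G)
    (v : Matrix S S Λ) (k : S) (hk : v k = a) (hv : ∀ i, v i ∈ N ⊔ Submodule.span Λ {a}) :
    q * v.det ∈ G := by
  choose n hn z hz e using fun i => Submodule.mem_sup.1 (hv i)
  choose c hc using fun i => Submodule.mem_span_singleton.1 (hz i)
  have h1 : v.det = (updateRow (Matrix.of n) k a).det := by
    refine det_eq_of_forall_row_eq_smul_add_const (Function.update c k 0) k (by simp) ?_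
    intro i j
    by_cases h : i = k
    · subst h; simp [hk]
    · rw [updateRow_self, updateRow_ne h, Function.update_of_ne h, ← e i, ← hc i]; rfl
  rw [h1, ← det_updateRow_smul]
  refine hG _ fun i => ?_
  by_cases h : i = k
  · subst h; rwa [updateRow_self]
  · rw [updateRow_ne h]; exact hn i

lemma all_FIT (hq : q • a ∈ N) (hG : ∀ v : Matrix S S Λ, (∀ i, v i ∈ N) → v.det ∈ G)
    (T : Finset S) : ∀ v : Matrix S S Λ, (∀ i, v i ∈ N ⊔ Submodule.span Λ {a}) →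
      (∀ i, i ∉ T → v i ∈ N) → q * v.det ∈ G := by
  induction T using Finset.induction_on with
  | empty => exact fun v _ h => G.mul_mem_left _ (hG v fun i => h i (by simp))
  | insert k T _ ih =>
    intro v hv h
    obtain ⟨n, hn, z, hz, e⟩ := Submodule.mem_sup.1 (hv k)
    obtain ⟨c, rfl⟩ := Submodule.mem_span_singleton.1 hz
    have u : ∀ x ∈ N ⊔ Submodule.span Λ {a}, ∀ i,
        updateRow v k x i ∈ N ⊔ Submodule.span Λ {a} := fun x hx i => by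
      by_cases h1 : i = k
      · subst h1; rwa [updateRow_self]
      · rw [updateRow_ne h1]; exact hv i
    rw [← updateRow_eq_self v k, ← e, det_updateRow_add, det_updateRow_smul, mul_add,
      mul_left_comm]
    refine G.add_mem (ih _ (u n (Submodule.mem_sup_left hn)) fun i hi => ?_) (G.mul_mem_left _
      (one_FIT hq hG _ k updateRow_self
        (u a (Submodule.mem_sup_right (Submodule.mem_span_singleton_self a)))))
    by_cases h1 : i = k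
    · subst h1; rwa [updateRow_self]
    · rw [updateRow_ne h1]; exact h i (by simp [h1, hi])

/-- the saturation away from `p` -/
def sat_FIT {p : Λ} (hp : Prime p) (N : Submodule Λ (S → Λ)) : Submodule Λ (S → Λ) where
  carrier := {v | ∃ t, ¬ p ∣ t ∧ t • v ∈ N}
  zero_mem' := ⟨1, hp.not_dvd_one, by simp⟩
  add_mem' := by
    rintro x y ⟨t, h1, h2⟩ ⟨u, h3, h4⟩
    refine ⟨t * u, fun h => (hp.dvd_or_dvd h).elim h1 h3, ?_⟩
    rw [smul_add]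
    exact N.add_mem (by rw [mul_comm, mul_smul]; exact N.smul_mem _ h2)
      (by rw [mul_smul]; exact N.smul_mem _ h4)
  smul_mem' := by
    rintro c x ⟨t, h1, h2⟩
    exact ⟨t, h1, by rw [smul_comm]; exact N.smul_mem _ h2⟩

end

theorem FIT_pf : FIT_st := by
  intro Λ S St _ _ _ p N b F hp hF hs s
  induction s using (InvImage.wf (fun s => sat_FIT hp (N s)) wellFounded_gt).induction
    generalizing F with
  | _ s ih =>
  intro hG
  by_cases h : ∃ v : S → Λ, ∀ t : Λ, ¬ p ∣ t → t • v ∉ N s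
  · obtain ⟨s', a, i, t, h1, h2, h3, h4, h5⟩ := hs s h
    have h6 := ih s' (by
      refine lt_of_le_of_ne (fun v ⟨u, u1, u2⟩ => ⟨u, u1, h1 ▸ Submodule.mem_sup_left u2⟩)
        fun e => ?_
      have : a ∈ sat_FIT hp (N s') := ⟨1, hp.not_dvd_one, by
        rw [one_smul, h1]
        exact Submodule.mem_sup_right (Submodule.mem_span_singleton_self a)⟩
      obtain ⟨u, u1, u2⟩ := e.ge this
      exact h2 u u1 u2) (Submodule.comap (LinearMap.mul Λ Λ (p ^ i)) F)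
      (fun u d u1 u2 => hF u _ u1 (by
        change u * (p ^ i * d) ∈ F
        rw [mul_left_comm]; exact u2))
      fun v hv => hF t _ h3 (by
        have := all_FIT h4 hG univ v (h1 ▸ hv) fun i hi => absurd (mem_univ i) hi
        rwa [mul_assoc] at this)
    obtain ⟨c, hc⟩ := Nat.exists_eq_add_of_le h5
    rw [hc, pow_add, pow_add]
    exact F.mul_mem_right _ h6
  · push Not at h
    choose t t1 t2 using fun i : S => h (Pi.single i 1)
    have h1 := hG (diagonal t) fun i => by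
      convert t2 i using 1
      ext j
      by_cases e : i = j
      · subst e; simp
      · simp [diagonal_apply_ne _ e, Pi.single_eq_of_ne' e]
    rw [det_diagonal, ← mul_one (∏ i, t i)] at h1
    have h2 := hF _ _ (fun e => by
      obtain ⟨i, -, hi⟩ := (Prime.dvd_finsetProd_iff hp _).1 e
      exact t1 i hi) h1
    rw [(Ideal.eq_top_iff_one F).2 h2]
    trivial

end Pool.Agent.MP_e23604_nt.W

end

section

/-!
Existence of dual classes in the limit.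
-/

set_option autoImplicit false

open Finset Filter Matrix QuadraticAlgebra
open scoped Classical

namespace Pool.Agent.MP_e23604_nt.W

open B R S

theorem van_GWK {Λ k S I J : Type} [CommRing Λ] [Field k] [Fintype S] [Fintype I] {E : Lm Λ}
    {Y : Dat Λ S} {φ : Λ →+* k} {hφ : Fr φ} {θ : ℕ → GQ → Λ} {Rm : ℕ → Set GQ} (h : Sys E Y)
    (hθ : ∃ i, E.ev θ Y.g1 - 1 ∣ 3 ^ i) {Q : J → ℕ → Y.A} (hQ : Y.AD Q) {f : I → GG → k}
    (hf : ∀ i, f i ∈ Zk E hφ θ Rm) (hv : LinearIndependent k fun i j => f i (Y.gg Q j))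
    {w : I → k} (h1 : ∀ u, In Y.U u → (∑ i, w i • f i) u = 0) (h2 : (∑ i, w i • f i) Y.g1 = 0) :
    w = 0 := by
  obtain ⟨-, a1, -, -, a2⟩ := h.inc hQ
  obtain ⟨i, hi⟩ := hθ
  have h3 := hφ.ne hi
  rw [map_sub, map_one] at h3
  refine funext (Fintype.linearIndependent_iff.1 hv w (funext fun j => ?_))
  obtain ⟨u, hu, e⟩ := sah h.ab (θ := fun g => φ (E.ev θ g))
    (Zk.coc (Submodule.sum_mem _ fun i _ => Submodule.smul_mem _ (w i) (hf i))) (a1 j) a2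
  rw [h1 u hu, h2, mul_zero, mul_zero, sub_zero] at e
  simpa using (mul_eq_zero.1 e).resolve_left h3

theorem GWK_pf (hKOK : KOK_st) (hDRP : DRP_st) (hRCK : RCK_st) (hLOK : LOK_st) (hCHM : CHM_st)
    (hLAL : LAL_st) : GWK_st := by
  intro Λ k S _ _ _ E Y φ hφ s h hns
  obtain ⟨L1, L2, L3⟩ := hLAL k
  obtain ⟨v, hv, hv0⟩ := (L2 S _ ((s.mat E).map φ) (2 + s.r) (by simp; omega)).2 hns
  choose f hf hfv using fun i => hKOK Λ k S _ E φ hφ Y.ρ (Y.rg s.Q)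
    (fun n => Y.gq n fun i => s.Q i n) (fun n => bm (Y.Φ n) (s.Ψ n))
    (fun n => h.exi n _ _ _ (s.vd n) (s.ad n)) (v i) (hv0 i)
  obtain rfl : (fun i j => f i (Y.gg s.Q j)) = v := funext fun i => funext (hfv i)
  obtain ⟨u, hu⟩ := L1 {u : GG // In Y.U u} (2 + s.r) (fun u i => f i u.1) (fun i => f i Y.g1)
    fun w h1 h2 => van_GWK h h.g1dv.1 s.ad hf hv
      (fun u hu => by simpa [dotProduct] using h1 ⟨u, hu⟩) (by simpa [dotProduct] using h2)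
  obtain ⟨N, hN, hNc⟩ := ex_cs fun i => Zk.cs (hf i)
  obtain ⟨P, e, e', hA, hP⟩ := hCHM Λ k S _ E Y φ hφ s.Q N (2 + s.r) (fun j => (u j).1) h s.ad hN
    fun j => (u j).2
  have he : ∀ j, e j ≠ 0 := fun j e0 => hu.ne_zero j (funext fun i => by
    obtain ⟨a1, a2⟩ := hP _ _ _ h.chρ (hf i) (hNc i) j
    rw [a1, e0, zero_mul, mul_zero] at a2
    exact a2)
  have hPa : Y.AD P := fun n =>
    ⟨fun i => (hA n).1 (.inr i), fun i j e => Sum.inr_injective ((hA n).2 e)⟩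
  choose Φ hΦ using fun n => h.exl n _ (fun i => P i n) (hPa n)
  obtain ⟨v', hv', hv1⟩ := (L2 S _ ((E.mt Φ).map φ) (4 + s.r) (by simp; omega)).1
  choose x hx hxv using fun i => hKOK Λ k S _ E φ hφ Y.lam (Y.rg P)
    (fun n => Y.gq n fun i => P i n) Φ hΦ (v' i) (hv1 i)
  obtain rfl : (fun i j => x i (Y.gg P j)) = v' := funext fun i => funext (hxv i)
  obtain ⟨K1, w, hw, K2⟩ := hLOK Λ k S E Y φ hφ h
  obtain ⟨c, hc, c1, c2⟩ := L3 s.r (fun i l => x i fun _ => Y.y l) (fun i l => x i (Y.ss (s.Q l)))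
    w hw fun i => K2 _ (Zk.mono (hx i) fun n => Set.empty_subset _)
  have hz := (Zk E hφ Y.lam (Y.rg P)).sum_mem (t := univ) fun i _ =>
    Submodule.smul_mem _ (c i) (hx i)
  have zD := K1 _ (Zk.mono hz fun n => Set.empty_subset _) fun l => by simpa using congrFun c1 l
  have zQ : ∀ l, (∑ i, c i • x i) (Y.ss (s.Q l)) = 0 := fun l => by simpa using congrFun c2 l
  have zt : ∀ l, (∑ i, c i • x i) (Y.tt (s.Q l)) = 0 := fun l => Zk.rm hz fun n =>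
    h.new n _ _ ((s.ad n).1 l) (by
      rintro _ ⟨j, rfl⟩
      exact ⟨(hPa n).1 j, fun e => Sum.inr_ne_inl ((hA n).2 e)⟩)
  have ft : ∀ i j, f i (Y.tt (P j)) = 0 := fun i j => Zk.rm (hf i) fun n =>
    h.new n _ _ ((hPa n).1 j) (by
      rintro _ ⟨l, rfl⟩
      exact ⟨(s.ad n).1 l, fun e => Sum.inl_ne_inr ((hA n).2 e)⟩)
  have zP := Fintype.linearIndependent_iff.1 hu (fun j => e j * (∑ i, c i • x i) (Y.tt (P j)))
    (funext fun i => by
      have := hRCK Λ k S _ E Y φ hφ _ _ _ h hA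
        (Zk.mono (hf i) fun n => h.mono _ _ (by rintro _ ⟨l, rfl⟩; exact ⟨.inl l, rfl⟩))
        (Zk.mono hz fun n => h.mono _ _ (by rintro _ ⟨l, rfl⟩; exact ⟨.inr l, rfl⟩)) zD
      simp only [Fintype.sum_sum_type, Sum.elim_inl, Sum.elim_inr, zQ, zt, ft, mul_zero, zero_mul,
        sub_zero, zero_sub, sum_const_zero, zero_add, sum_neg_distrib, neg_eq_zero,
        (hP _ _ _ h.chρ (hf i) (hNc i) _).1] at this
      rw [Finset.sum_apply, Pi.zero_apply, ← this]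
      exact sum_congr rfl fun j _ => by simp only [Pi.smul_apply, smul_eq_mul]; ring)
  refine ⟨_, hDRP Λ k S _ E Y φ hφ _ P _ h h.chl hPa hz fun j =>
    (mul_eq_zero.1 (zP j)).resolve_left (he j), zD, zQ, ?_⟩
  by_contra! h0
  exact hc (van_GWK h h.g1dv.2 hPa hx hv' h0 (zD _ h.g1D))

end Pool.Agent.MP_e23604_nt.W

end

section

set_option autoImplicit false

open Finset Filter Matrix QuadraticAlgebra
open scoped Classical

namespace Pool.Agent.MP_e23604_nt.W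

open B R S

theorem den_KOK {Λ k J : Type} [CommRing Λ] [Field k] [Fintype J] {φ : Λ →+* k} (hφ : Fr φ)
    (v : J → k) : ∃ (d : Λ) (a : J → Λ), φ d ≠ 0 ∧ ∀ j, φ d * v j = φ (a j) := by
  choose a d h1 h2 using fun j => hφ.fr (v j)
  refine ⟨∏ j, d j, fun j => (∏ i ∈ univ.erase j, d i) * a j, ?_, fun j => ?_⟩
  · rw [map_prod]
    exact prod_ne_zero_iff.2 fun j _ => h1 j
  · rw [← prod_erase_mul univ d (mem_univ j), map_mul, map_mul, mul_assoc, h2]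

theorem KOK_pf : KOK_st := by
  intro Λ k S J _ _ _ _ E φ hφ θ Rm pt Φ hE v hv
  obtain ⟨d, a, hd, ha⟩ := den_KOK hφ v
  have h1 : ∀ s, E.L (fun n => (Φ n *ᵥ a) s) ∈ RingHom.ker φ := fun s => by
    have e := E.mt_mulVec Φ (fun _ => a) s
    simp only [E.const] at e
    have e2 : φ ∘ a = φ d • v := funext fun j => (ha j).symm
    rw [RingHom.mem_ker, ← e, RingHom.map_mulVec, e2, mulVec_smul, hv, smul_zero, Pi.zero_apply]
  obtain ⟨κ, k1, k2⟩ := diag (G := fun n i => ∀ s, (Φ n *ᵥ a) s ∈ RingHom.ker φ ⊔ E.m ^ i)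
    (fun n s => by simp) fun i => eventually_all.2 fun s => (E.mem_iff _ _).1 (h1 s) i
  choose c c1 c2 using fun n => hE n _ (E.le_sup (RingHom.ker φ) (k2 n).1) a (k2 n).2
  refine ⟨fun g => φ (E.ev c g) / φ d, mem_Zk.2 ⟨d, c, hd, ⟨κ, k1, fun n => ⟨(k2 n).1, c1 n⟩⟩,
    fun g => mul_div_cancel₀ _ hd⟩, fun j => ?_⟩
  have h2 := E.mem_of k1 fun n => c2 n j
  rw [E.L_sub, E.const, RingHom.mem_ker, map_sub, sub_eq_zero, ← ha] at h2
  rw [div_eq_iff hd, mul_comm]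
  exact h2

end Pool.Agent.MP_e23604_nt.W

end

section

/-!
Linear algebra over a field.
-/

set_option autoImplicit false

open Finset Filter Matrix QuadraticAlgebra
open scoped Classical

namespace Pool.Agent.MP_e23604_nt.W

open B R S

theorem ker_LAL {k V W : Type} [Field k] [AddCommGroup V] [Module k V] [AddCommGroup W]
    [Module k W] [FiniteDimensional k V] [FiniteDimensional k W] (f : V →ₗ[k] W)
    (h : Module.finrank k W < Module.finrank k V) : ∃ v, v ≠ 0 ∧ f v = 0 := by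
  obtain ⟨v, h1, h2⟩ := (Submodule.ne_bot_iff _).1 (LinearMap.ker_ne_bot_of_finrank_lt (f := f) h)
  exact ⟨v, h2, h1⟩

theorem one_LAL {k X : Type} [Field k] {t : ℕ} (γ : X → Fin (t + 1) → k) (l : Fin (t + 1) → k)
    (h : ∀ w : Fin (t + 1) → k, (∀ x, w ⬝ᵥ γ x = 0) → w ⬝ᵥ l = 0 → w = 0) (n : ℕ) (hn : n ≤ t) :
    ∃ u : Fin n → X, LinearIndependent k fun j => γ (u j) := by
  induction n with
  | zero => exact ⟨Fin.elim0, linearIndependent_empty_type⟩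
  | succ n ih =>
    obtain ⟨u, hu⟩ := ih (by omega)
    obtain ⟨w, h0, h1⟩ := ker_LAL
      (Matrix.mulVecLin (Matrix.of (Fin.cons l fun j => γ (u j) : Fin (n + 1) → Fin (t + 1) → k)))
      (by simp; omega)
    obtain ⟨x, hx⟩ : ∃ x, γ x ∉ Submodule.span k (Set.range fun j => γ (u j)) := by
      by_contra! e
      refine h0 (h w (fun x => ?_) ?_)
      · refine Submodule.span_induction (p := fun y _ => w ⬝ᵥ y = 0) ?_ (dotProduct_zero w)
          (fun y z _ _ a b => by rw [dotProduct_add, a, b, add_zero])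
          (fun c y _ a => by rw [dotProduct_smul, a, smul_zero]) (e x)
        rintro _ ⟨j, rfl⟩
        rw [dotProduct_comm]
        exact congrFun h1 j.succ
      · rw [dotProduct_comm]
        exact congrFun h1 0
    refine ⟨Fin.cons x u, ?_⟩
    have e : (fun j => γ ((Fin.cons x u : Fin (n + 1) → X) j)) = Fin.cons (γ x) fun j => γ (u j) := by
      funext j
      refine Fin.cases rfl (fun _ => rfl) j
    rw [e]
    exact linearIndependent_finCons.2 ⟨hu, hx⟩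

theorem two_LAL {k S J : Type} [Field k] [Fintype S] [Fintype J] (Φ : Matrix S J k) {t : ℕ}
    (h : Module.finrank k (LinearMap.range Φ.mulVecLin) + t ≤ Fintype.card J) :
    ∃ v : Fin t → J → k, LinearIndependent k v ∧ ∀ i, Φ *ᵥ v i = 0 := by
  have h1 := LinearMap.finrank_range_add_finrank_ker Φ.mulVecLin
  rw [Module.finrank_fintype_fun_eq_card] at h1
  obtain ⟨v, hv⟩ := exists_linearIndependent_of_le_finrank (R := k)
    (M := LinearMap.ker Φ.mulVecLin) (n := t) (by omega)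
  exact ⟨fun i => v i, hv.map' _ (Submodule.ker_subtype _), fun i => (v i).2⟩

theorem LAL_pf : LAL_st := by
  intro k _
  refine ⟨fun X t γ l h => one_LAL γ l h t le_rfl, fun S J _ _ Φ t h => ⟨two_LAL Φ ?_,
    fun e => two_LAL Φ ?_⟩, fun r a b w h0 h => ?_⟩
  · have := Submodule.finrank_le (LinearMap.range Φ.mulVecLin)
    rw [Module.finrank_fintype_fun_eq_card] at this
    omega
  · have := Submodule.finrank_lt (s := LinearMap.range Φ.mulVecLin)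
      fun e' => e (LinearMap.range_eq_top.1 e')
    rw [Module.finrank_fintype_fun_eq_card] at this
    omega
  · obtain ⟨p, hp⟩ := Function.ne_iff.1 h0
    obtain ⟨c, h1, h2⟩ := ker_LAL (((LinearMap.funLeft k k p.succAbove).comp
      (Fintype.linearCombination k a)).prod (Fintype.linearCombination k b)) (by simp)
    rw [Prod.ext_iff] at h2
    refine ⟨c, h1, ?_, h2.2⟩
    have h3 : ∀ j, (∑ i, c i • a i) (p.succAbove j) = 0 := congrFun h2.1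
    have h4 : w ⬝ᵥ ∑ i, c i • a i = 0 := by
      rw [dotProduct_sum]
      exact sum_eq_zero fun i _ => by rw [dotProduct_smul, h, smul_zero]
    generalize ∑ i, c i • a i = z at h3 h4 ⊢
    rw [dotProduct, Fin.sum_univ_succAbove _ p,
      sum_eq_zero fun j _ => by rw [h3, mul_zero], add_zero] at h4
    funext j
    exact p.succAboveCases ((mul_eq_zero.1 h4).resolve_left hp) h3 j

end Pool.Agent.MP_e23604_nt.W

end

section

/-!
The ring of power series over the completion at three.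
-/

set_option autoImplicit false

open Finset Filter Matrix QuadraticAlgebra
open scoped Classical

namespace Pool.Agent.MP_e23604_nt.W

open B R S

theorem clo_LM {A : Type} [CommRing A] [IsNoetherianRing A] {m : Ideal A}
    (h1 : ∀ x, x ∉ m → IsUnit x) (h2 : (1 : A) ∉ m) (P : Ideal A) (x : A)
    (h : ∀ k, x ∈ P ⊔ m ^ k) : x ∈ P := by
  obtain ⟨r, hr⟩ := (m.mem_iInf_smul_pow_eq_bot_iff (M := A ⧸ P) (Ideal.Quotient.mk P x)).1
    ((Submodule.mem_iInf _).2 fun k => by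
      obtain ⟨p, hp, y, hy, rfl⟩ := Submodule.mem_sup.1 (h k)
      rw [map_add, Ideal.Quotient.eq_zero_iff_mem.2 hp, zero_add, ← mul_one y]
      exact Submodule.smul_mem_smul hy (Submodule.mem_top (x := Ideal.Quotient.mk P 1)))
  have h3 : x - r * x ∈ P := Ideal.Quotient.eq.1 hr.symm
  rw [← one_sub_mul] at h3
  exact (P.unit_mul_mem_iff_mem (h1 _ fun e => h2 (by simpa using m.add_mem e r.2))).1 h3

section
open PowerSeries

variable {O : Type} [CommRing O] {π : O}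

theorem memA_LM {k : ℕ} {f : O⟦X⟧} (h : ∀ i < k, π ^ k ∣ coeff i f) :
    f ∈ (Ideal.span {C π, X} : Ideal O⟦X⟧) ^ k := by
  choose! c hc using h
  obtain ⟨g, hg⟩ : (X : O⟦X⟧) ^ k ∣ f - C (π ^ k) * PowerSeries.mk c :=
    X_pow_dvd_iff.2 fun i hi => by rw [map_sub, coeff_C_mul, coeff_mk, hc i hi, sub_self]
  rw [sub_eq_iff_eq_add.1 hg, map_pow]
  exact Ideal.add_mem _ (Ideal.mul_mem_right _ _ (Ideal.pow_mem_pow (Ideal.subset_span (by simp)) k))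
    (Ideal.mul_mem_right _ _ (Ideal.pow_mem_pow (Ideal.subset_span (by simp)) k))

theorem memB_LM {k : ℕ} {f : O⟦X⟧} :
    f ∈ Ideal.span {X} ⊔ (Ideal.span {C π, X} : Ideal O⟦X⟧) ^ k ↔ π ^ k ∣ constantCoeff f := by
  constructor
  · intro h
    rw [← Ideal.mem_span_singleton, ← Ideal.span_singleton_pow, ← Ideal.mem_comap]
    revert f
    change _ ≤ Ideal.comap _ _
    refine sup_le ?_ ((Ideal.pow_right_mono ?_ k).trans (Ideal.le_comap_pow _ k))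
    · simp [Ideal.span_le]
    · simp [Ideal.span_le, Set.insert_subset_iff]
  · rintro ⟨c, hc⟩
    rw [eq_X_mul_shift_add_const f, hc, map_mul, map_pow]
    exact Ideal.add_mem _
      (Ideal.mem_sup_left (Ideal.mul_mem_right _ _ (Ideal.mem_span_singleton_self _)))
      (Ideal.mem_sup_right
        (Ideal.mul_mem_right _ _ (Ideal.pow_mem_pow (Ideal.subset_span (by simp)) k)))

theorem memC_LM {f : O⟦X⟧} : f ∈ (Ideal.span {C π, X} : Ideal O⟦X⟧) ↔ π ∣ constantCoeff f := by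
  have h := memB_LM (π := π) (k := 1) (f := f)
  rwa [pow_one, pow_one, sup_eq_right.2 (Ideal.span_mono (by simp))] at h

theorem dvd_LM {f : O⟦X⟧} : C π ∣ f ↔ map (Ideal.Quotient.mk (Ideal.span {π})) f = 0 := by
  simp only [PowerSeries.ext_iff, coeff_map, map_zero, Ideal.Quotient.eq_zero_iff_mem,
    Ideal.mem_span_singleton]
  constructor
  · rintro ⟨g, rfl⟩ i
    exact ⟨_, coeff_C_mul _ _ _⟩
  · intro h
    choose c hc using h
    exact ⟨mk c, PowerSeries.ext fun i => by rw [coeff_C_mul, coeff_mk, hc]⟩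

theorem prime_LM (h : Prime π) : Prime (C π : O⟦X⟧) := by
  have := (Ideal.span_singleton_prime h.ne_zero).2 h
  refine ⟨fun e => h.ne_zero (by simpa using congrArg constantCoeff e),
    fun e => h.not_isUnit (isUnit_iff_constantCoeff.1 e), fun a b e => ?_⟩
  rwa [dvd_LM, map_mul, mul_eq_zero, ← dvd_LM, ← dvd_LM] at e

/-- limits of the coefficients -/
noncomputable def lim_LM (L : (ℕ → O) →+* O) (h : ∀ c, L (fun _ => c) = c) :
    (ℕ → O⟦X⟧) →+* O⟦X⟧ where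
  toFun x := mk fun i => L fun n => coeff i (x n)
  map_one' := PowerSeries.ext fun i => by rw [coeff_mk]; exact h _
  map_zero' := PowerSeries.ext fun i => by rw [coeff_mk]; exact h _
  map_add' x y := PowerSeries.ext fun i => by
    simp only [coeff_mk, map_add (coeff i), Pi.add_apply]
    exact map_add L _ _
  map_mul' x y := PowerSeries.ext fun i => by
    simp only [coeff_mk, coeff_mul, Pi.mul_apply, ← map_mul L, ← map_sum L]
    congr 1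
    funext n
    rw [Finset.sum_apply]
    rfl

end

open PowerSeries in
theorem LM_pf (hO3 : O3_st) : LM_st := by
  obtain ⟨O, _, _, _, ι, L, h1, h2, h3, h4⟩ := hO3
  have p1 : ¬ ι pw ∣ 1 := fun e => pw_prime.not_dvd_one (by simpa using h3 1 1 (by simpa using e))
  have p0 : ι pw ≠ 0 := fun e => pw_prime.not_dvd_one
    ((mul_dvd_mul_iff_left pw_ne).1 (by simpa [sq] using h3 pw 2 (by simp [e])))
  have pp : Prime (ι pw) := ⟨p0, fun e => p1 e.dvd, fun a b e =>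
    or_iff_not_imp_left.2 fun ha => (h4 a ha).dvd_mul_left.1 e⟩
  have hL : ∀ c, L (fun _ => c) = c := fun c => by
    refine (sub_eq_zero.1 (clo_LM (m := Ideal.span {ι pw})
      (fun x hx => h4 x (mt Ideal.mem_span_singleton.2 hx)) (mt Ideal.mem_span_singleton.1 p1) ⊥ _
      fun k => Ideal.mem_sup_right ?_)).symm
    rw [Ideal.span_singleton_pow, Ideal.mem_span_singleton]
    exact (h1 (fun _ => c) k).exists.choose_spec
  have hu : ∀ x : O⟦X⟧, x ∉ Ideal.span {C (ι pw), X} → IsUnit x := fun x hx =>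
    isUnit_iff_constantCoeff.2 (h4 _ (mt memC_LM.2 hx))
  have hn : (1 : O⟦X⟧) ∉ Ideal.span {C (ι pw), X} := fun e => p1 (by simpa using memC_LM.1 e)
  have hr : ∀ x : O⟦X⟧, ∃ i : Fin 3, x - (((i : ℕ) - 1 : ℤ) : O⟦X⟧) ∈ Ideal.span {C (ι pw), X} := by
    intro x
    obtain ⟨c, hc⟩ := h2 (constantCoeff x) 1
    rw [pow_one] at hc
    rcases mod_pw c with e | e | e
    · exact ⟨1, memC_LM.2 (by simpa using dvd_add hc (map_dvd ι e))⟩
    · exact ⟨2, memC_LM.2 (by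
        have := dvd_add hc (map_dvd ι e)
        norm_num at this ⊢
        exact this)⟩
    · exact ⟨0, memC_LM.2 (by simpa [← add_assoc] using dvd_add hc (map_dvd ι e))⟩
  have hf : Finite (O⟦X⟧ ⧸ (Ideal.span {C (ι pw), X} : Ideal O⟦X⟧)) :=
    .of_surjective (fun i : Fin 3 => Ideal.Quotient.mk _ (((i : ℕ) - 1 : ℤ) : O⟦X⟧)) fun y => by
      obtain ⟨x, rfl⟩ := Ideal.Quotient.mk_surjective y
      exact (hr x).imp fun i hi => (Ideal.Quotient.eq.2 hi).symm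
  exact ⟨O⟦X⟧, inferInstance, inferInstance, inferInstance, inferInstance, ⟨
    { ι := C.comp ι
      T := X
      L := lim_LM L hL
      m := Ideal.span {C (ι pw), X}
      m_eq := rfl
      lim := fun x k => by
        filter_upwards [(eventually_all_finset (range k)).2
          fun i _ => h1 (fun n => coeff i (x n)) k] with n hn
        exact memA_LM fun i hi => by simpa [lim_LM] using hn i (mem_range.2 hi)
      clo := clo_LM hu hn
      fin := Ideal.finite_quotient_pow (IsNoetherian.noetherian _)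
      res := fun x => (hr x).elim fun _ h => ⟨_, h⟩
      unit := hu
      ne := hn
      ppi := prime_LM pp
      pT := X_prime
      T3 := fun e => p0 (pow_eq_zero_iff two_ne_zero |>.1 (by
        have e1 : (3 : O) = 0 := by simpa [map_ofNat] using X_dvd_iff.1 e
        rw [← map_pow, pw_sq, map_neg, map_ofNat, e1, neg_zero]))
      piT := fun ⟨g, e⟩ => p1 ⟨_, by simpa using congrArg (coeff 1) e⟩
      sur := fun x k => (h2 (constantCoeff x) k).imp fun c hc => memB_LM.2 (by simpa using hc)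
      inj := fun c k h => h3 c k (by simpa using memB_LM.1 h) }⟩⟩

end Pool.Agent.MP_e23604_nt.W

end

section

set_option autoImplicit false

open Finset Filter Matrix QuadraticAlgebra
open scoped Classical

namespace Pool.Agent.MP_e23604_nt.W

open B R S

theorem ev_LOK {Λ : Type} [CommRing Λ] {E : Lm Λ} {P : Ideal Λ} {θ : ℕ → GQ → Λ}
    {Rm : ℕ → Set GQ} {c : ℕ → GQ → Λ} (h : LZ E P θ Rm c) (j : ℕ) :
    ∀ᶠ n in uf, E.m ^ n ≤ P ⊔ E.m ^ j ∧ Zf (θ n) (Rm n) (P ⊔ E.m ^ j) (c n) := by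
  obtain ⟨k, a1, a2⟩ := h
  filter_upwards [tendsto_atTop.1 a1 j] with n h1
  exact ⟨E.le_sup P (h1.trans (a2 n).1), (a2 n).2.mono le_rfl (E.sup_le P h1)⟩

theorem sum_LOK {Λ I : Type} [CommRing Λ] {θ : GQ → Λ} {Rm : Set GQ} {b : Ideal Λ}
    {c : I → GQ → Λ} (h : ∀ i, Zf θ Rm b (c i)) (s : Finset I) : Zf θ Rm b (∑ i ∈ s, c i) :=
  Finset.sum_induction _ (Zf θ Rm b) (fun _ _ => Zf.add) (Zf.zero _ _ _) fun i _ => h i

theorem LOK_pf : LOK_st := by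
  intro Λ k S _ _ _ E Y φ hφ hS
  refine ⟨?_, ?_⟩
  · rintro x ⟨d, c, a1, a2, a3⟩ h0 g hg
    refine (mul_eq_zero.1 ((a3 g).trans ?_)).resolve_left a1
    refine (E.mem_iff (RingHom.ker φ) _).2 fun j => ?_
    have h1 : ∀ i, E.ev c (fun _ => Y.y i) ∈ RingHom.ker φ := fun i => by
      rw [RingHom.mem_ker, ← a3, h0, mul_zero]
    filter_upwards [ev_LOK a2 j, eventually_all.2 fun i => (E.mem_iff _ _).1 (h1 i) j]
      with n b1 b2
    exact hS.spn n _ _ b1.1 b1.2 b2 _ (hg n)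
  let F : (GG → k) →ₗ[k] (Fin 4 → k) := LinearMap.pi fun i => LinearMap.proj fun _ => Y.y i
  rcases (le_top (a := (Zk E hφ Y.lam fun _ => ∅).map F)).lt_or_eq with h | h
  · obtain ⟨f, f0, hf⟩ := Submodule.exists_le_ker_of_lt_top _ h
    refine ⟨fun i => f fun j => if i = j then 1 else 0, fun e => f0 (LinearMap.ext fun v => ?_),
      fun x hx => ?_⟩
    · rw [LinearMap.pi_apply_eq_sum_univ]
      exact sum_eq_zero fun i _ => by rw [show f _ = 0 from congrFun e i, smul_zero]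
    · have := LinearMap.mem_ker.1 (hf (Submodule.mem_map_of_mem hx))
      rw [LinearMap.pi_apply_eq_sum_univ] at this
      exact (sum_congr rfl fun i _ => mul_comm _ _).trans this
  exfalso
  have h1 : ∀ i : Fin 4, ∃ x ∈ Zk E hφ Y.lam fun _ => ∅, F x = fun l => if i = l then 1 else 0 :=
    fun i => Submodule.mem_map.1 (h ▸ Submodule.mem_top)
  choose x hx ex using h1
  choose d c a1 a2 a3 using fun i => mem_Zk.1 (hx i)
  have h2 : ∀ i l, E.L (fun n => ((∏ t ∈ univ.erase i, d t) • c i) n (Y.y l) -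
      (∏ t, d t) * if i = l then 1 else 0) ∈ RingHom.ker φ := fun i l => by
    have e1 := E.ev_smul (∏ t ∈ univ.erase i, d t) (c i) fun _ => Y.y l
    have e2 : x i (fun _ => Y.y l) = if i = l then 1 else 0 := congrFun (ex i) l
    rw [E.L_sub, E.const, RingHom.mem_ker, map_sub, show E.L _ = _ from e1, map_mul, ← a3, e2,
      ← mul_assoc, ← map_mul, prod_erase_mul _ _ (mem_univ i), map_mul, apply_ite φ, map_one,
      map_zero, sub_self]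
  have h3 : E.L (fun n => (∏ t, d t) * (Y.ρ n (Y.g1 n) - 1)) ∈ RingHom.ker φ := by
    refine (E.mem_iff _ _).2 fun j => ?_
    filter_upwards [eventually_all.2 fun i => ev_LOK ((a2 i).smul (∏ t ∈ univ.erase i, d t)) j,
      eventually_all.2 fun i => eventually_all.2 fun l => (E.mem_iff _ _).1 (h2 i l) j]
      with n b1 b2
    refine hS.obs n _ _ (b1 0).1 (fun v => ⟨_, sum_LOK (fun i => (b1 i).2.smul (v i)) univ,
      fun l => ?_⟩) _ (hS.g1D n)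
    have := Ideal.sum_mem _ fun i (_ : i ∈ univ) => Ideal.mul_mem_left _ (v i) (b2 i l)
    simp only [mul_sub, sum_sub_distrib, mul_ite, mul_one, mul_zero, sum_ite_eq', mem_univ,
      if_true] at this
    rwa [Finset.sum_apply, mul_comm]
  rw [E.L_mul, E.L_sub, E.const, E.const, RingHom.mem_ker, map_mul, map_prod] at h3
  obtain ⟨i, hi⟩ := hS.g1dv.1
  exact mul_ne_zero (prod_ne_zero_iff.2 fun t _ => a1 t) (hφ.ne hi) h3

end Pool.Agent.MP_e23604_nt.W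

end

section

set_option autoImplicit false

open Finset Filter Matrix QuadraticAlgebra
open scoped Classical

namespace Pool.Agent.MP_e23604_nt.W

open B R S

theorem PLU_pf : PLU_st := by
  intro Λ S _ _ Φ e z I v h2 he hz hI hv
  choose y hy using hv
  let W : (Fin 2 ⊕ S → Λ) → (Fin 2 ⊕ S → Λ) → Matrix (Fin 2 ⊕ S) (Fin 2 ⊕ S) Λ := fun a b =>
    Matrix.of fun j => Sum.elim ![a j, b j] fun i => y i j
  refine ⟨(W e z).det, ?_, ?_⟩
  · have h1 : W z e = (W e z).submatrix id (Equiv.swap (.inl 0) (.inl 1)) := by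
      ext j (k | k)
      · fin_cases k <;> simp [W]
      · simp [W, Equiv.swap_apply_of_ne_of_ne]
    have h3 : 2 * (W e z).det = (W e z).det - (W z e).det := by
      rw [h1, det_permute', Equiv.Perm.sign_swap (by simp)]
      simp [two_mul]
    rw [← I.unit_mul_mem_iff_mem h2, h3, det_apply', det_apply', ← sum_sub_distrib]
    refine I.sum_mem fun σ _ => ?_
    simp only [Fintype.prod_sum_type, Fin.prod_univ_two, W, of_apply, Sum.elim_inl, Sum.elim_inr,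
      cons_val_zero, cons_val_one]
    rw [← mul_sub, ← sub_mul, mul_comm (z _)]
    exact I.mul_mem_left _ (I.mul_mem_right _ (hI _ _))
  · have h1 : fromBlocks 1 0 (Φ.submatrix id Sum.inl) (Φ.submatrix id Sum.inr) * W e z =
        fromBlocks !![e (.inl 0), z (.inl 0); e (.inl 1), z (.inl 1)]
          (Matrix.of fun j i => y i (.inl j)) 0 vᵀ := by
      ext (j | j) (k | k)
      · fin_cases j <;> fin_cases k <;> simp [W, mul_apply]
      · simp [W, mul_apply, one_apply]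
      · fin_cases k
        · simpa [W, mul_apply, mulVec, dotProduct] using congrFun he j
        · simpa [W, mul_apply, mulVec, dotProduct] using congrFun hz j
      · simp [W, mul_apply, mulVec, dotProduct, hy]
    have h3 := congrArg det h1
    rw [det_mul, det_fromBlocks_zero₁₂, det_fromBlocks_zero₂₁, det_one, one_mul, det_transpose,
      det_fin_two_of] at h3
    rw [h3, mul_comm (z _)]

end Pool.Agent.MP_e23604_nt.W

end

section

/-!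
Reciprocity in the limit.
-/

set_option autoImplicit false

open Finset Filter Matrix QuadraticAlgebra
open scoped Classical

namespace Pool.Agent.MP_e23604_nt.W

open B R S

theorem RCK_pf : RCK_st := by
  intro Λ k S I _ _ _ _ E Y φ hφ Q f x hS hQ ⟨d, c, a1, ⟨k₁, a2, a3⟩, a4⟩
    ⟨d', c', b1, ⟨k₂, b2, b3⟩, b4⟩ h0
  obtain ⟨k₃, c1, c2⟩ := diag (G := fun n j => ∀ g ∈ Y.D, c' n g ∈ RingHom.ker φ ⊔ E.m ^ j)
    (fun n g _ => by simp) (E.van (W := fun _ => (Y.D : Set GQ)) (fun _ => ⟨1, Y.D.one_mem⟩)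
      fun g hg => by rw [RingHom.mem_ker, ← b4, h0 g hg, mul_zero])
  have h1 := E.mem_of (P := RingHom.ker φ) (tendsto_min (tendsto_min a2 b2) c1) fun n =>
    hS.rcp n I _ _ (c n) (c' n) (hQ n) (E.le_sup _ ((min_le_right _ _).trans (c2 n).1))
      ((a3 n).2.mono le_rfl (E.sup_le _ ((min_le_left _ _).trans (min_le_left _ _))))
      ((b3 n).2.mono le_rfl (E.sup_le _ ((min_le_left _ _).trans (min_le_right _ _))))
      fun g hg => E.sup_le _ (min_le_right _ _) ((c2 n).2 g hg)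
  rw [E.L_mul, E.const, E.L_sum, RingHom.mem_ker, map_mul, map_sum] at h1
  have h2 := (mul_eq_zero.1 h1).resolve_left hφ.n3
  refine (mul_eq_zero.1 ?_).resolve_left (mul_ne_zero a1 b1)
  rw [mul_sum, ← h2]
  refine sum_congr rfl fun i _ => ?_
  rw [E.L_sub, E.L_mul, E.L_mul, map_sub, map_mul, map_mul]
  have e1 := a4 (Y.tt (Q i))
  have e2 := a4 (Y.ss (Q i))
  have e3 := b4 (Y.tt (Q i))
  have e4 := b4 (Y.ss (Q i))
  simp only [Lm.ev, Dat.tt, Dat.ss] at e1 e2 e3 e4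
  rw [← e1, ← e2, ← e3, ← e4]
  ring

end Pool.Agent.MP_e23604_nt.W

end

section

/-!
The conclusion in the limit.
-/

set_option autoImplicit false

open Finset Filter Matrix QuadraticAlgebra
open scoped Classical

namespace Pool.Agent.MP_e23604_nt.W

open B R S

section

variable {Λ S : Type} [CommRing Λ] (E : Lm Λ) (Y : Dat Λ S)

theorem dl_TOP [Fintype S] : Y.dl E = E.L Y.dn := by
  have e : Y.dn = (Matrix.of fun s j : S => fun n => Y.Φ n s (.inr j)).det := funext fun n =>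
    ((Pi.evalRingHom (fun _ : ℕ => Λ) n).map_det
      (Matrix.of fun s j : S => fun n => Y.Φ n s (.inr j))).symm
  rw [e, E.L.map_det]
  rfl

theorem ze_TOP (z : ℕ → GQ → Λ) : Y.ze E z = E.L (Y.zn z) := by
  change _ = E.L fun n => (Y.ρ n (Y.gen n (.inl 0)) - 1) * z n (Y.gen n (.inl 1)) -
    (Y.ρ n (Y.gen n (.inl 1)) - 1) * z n (Y.gen n (.inl 0))
  rw [E.L_sub, E.L_mul, E.L_mul, E.L_sub, E.L_sub, E.const]
  rfl

theorem dvd_TOP {p : Λ} {x : ℕ → Λ} (h : ∀ n, x n ∈ Ideal.span {p} ⊔ E.m ^ n) : p ∣ E.L x :=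
  Ideal.mem_span_singleton.1 (E.mem_of (k := id) uf_le h)

end

theorem TOP_pf (hESL : ESL_st) (hFIN : FIN_st) : TOP_st := by
  intro Λ S _ _ _ _ _ E Y z z' κ κ' e e' d c hS hz hz' h1 h2 h3 h4 h5 h6
  by_contra hn
  have hT : ∀ u, In Y.U u → E.T ∣ E.ev z u := fun u hu => by_contra fun k => hn ⟨u, hu, k⟩
  have T3 : ∀ i : ℕ, ¬ E.T ∣ 3 ^ i := fun i k => E.T3 (E.pT.dvd_of_dvd_pow k)
  choose u u1 u2 using h4
  choose t t1 using h5
  choose t' t2 using h3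
  have k1 : ∀ x, E.ι pw ∣ x → IsUnit (E.L u + x) := by
    rintro _ ⟨x, rfl⟩
    refine E.unit _ fun k => ?_
    obtain ⟨n, hn⟩ := (E.lim u 1).exists
    rw [pow_one] at hn
    have k' : E.ι pw * x ∈ E.m :=
      E.m.mul_mem_right x (E.m_eq ▸ Ideal.subset_span (Set.mem_insert _ _))
    exact u1 n (by simpa using E.m.add_mem hn (E.m.sub_mem k k'))
  have k2 : E.L e' * Y.ze E z = E.L e * Y.ze E z' := by
    rw [ze_TOP, ze_TOP, ← E.L_mul, ← E.L_mul]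
    exact E.congr h1
  obtain ⟨i, k3⟩ := hS.dv h2
  rw [E.L_sub] at k3
  have k4 := dvd_TOP E u2
  rw [E.L_sub, E.L_mul, E.L_mul, ← dl_TOP, ← show Y.ze E z = E.L fun n => Y.zn z n from
    ze_TOP E Y z] at k4
  have k5 : ¬ E.ι pw ∣ Y.dl E * E.L e := fun k => by
    have := dvd_TOP E t1
    rw [E.L_sub, E.L_mul, E.L_mul, E.const, ← dl_TOP] at this
    exact E.piT (E.ppi.dvd_of_dvd_pow (n := d) (by
      simpa using dvd_sub (k.mul_right (E.L t)) this))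
  obtain ⟨h, hu, k6⟩ := hFIN Λ (E.ι pw) (Y.dl E) (Y.ze E z) (Y.ze E z') (E.L e) (E.L e') (E.L u) i
    E.ppi (by rw [← map_pow, pw_sq, map_neg, map_ofNat]) k1 k2 k3 k4 k5 fun p hp p3 =>
      ⟨(hESL Λ S E Y p z κ hS hz hp p3).1, (hESL Λ S E Y p z' κ' hS hz' hp p3).1⟩
  obtain ⟨s, s1, s2⟩ := (hESL Λ S E Y E.T z κ hS hz E.pT E.T3).2 (fun x hx hD v hv => by
    obtain ⟨k, a1, a2⟩ := hx
    obtain ⟨k', b1, b2⟩ := diag
      (G := fun n j => ∀ g ∈ Y.D, x n g ∈ Ideal.span {E.T} ⊔ E.m ^ j) (fun n g _ => by simp)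
      (E.van (W := fun _ => Y.D) (fun _ => ⟨1, Y.D.one_mem⟩)
        fun g hg => Ideal.mem_span_singleton.2 (hD g hg))
    have := E.mem_of (x := fun n => 3 ^ c * x n (v n)) (tendsto_min a1 b1) fun n =>
      h6 n _ (x n) ((min_le_left _ _).trans (a2 n).1)
        ((a2 n).2.mono subset_rfl (E.sup_le _ (min_le_left _ _)))
        (fun g hg => E.sup_le _ (min_le_right _ _) ((b2 n).2 g hg)) _ (hv n)
    rw [E.L_mul, E.const, Ideal.mem_span_singleton] at this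
    exact (E.pT.dvd_or_dvd this).resolve_left (T3 c)) hT
  have d0 : Y.dl E ≠ 0 := fun k => k5 (by rw [k, zero_mul]; exact dvd_zero _)
  rw [k6, show s * (h * (Y.dl E * E.L e)) = Y.dl E * (s * (h * E.L e)) by ring,
    mul_dvd_mul_iff_left d0] at s2
  have k7 : E.T ∣ E.L e := (E.pT.dvd_or_dvd ((E.pT.dvd_or_dvd s2).resolve_left s1)).resolve_left
    fun k => E.pT.not_isUnit (isUnit_of_dvd_unit k hu)
  have k8 := dvd_TOP E t2
  rw [E.L_sub, E.L_mul, E.const] at k8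
  obtain ⟨j, k9⟩ := hS.c0
  exact T3 j (Dvd.dvd.trans (by simpa using dvd_sub (k7.mul_right (E.L t')) k8) k9)

end Pool.Agent.MP_e23604_nt.W

end
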