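import Pool.Agent.Mg.Fe23604m.G9f00c9
import Pool.Agent.Mg.Fe23604m.Ge613ea
import Mathlib.Algebra.TrivSqZeroExt.Basic

set_option linter.all false

section

/-! Presentation matrices of modules of cocycles: definitions and statements. -/

set_option autoImplicit false

open Finset Matrix
open scoped Classical

namespace Pool.Agent.MP_e23604_nt.W

open B R S

/-- a prime, a place, a Frobenius element and an inertia element -/
structure Ax where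
  V : Plc
  w : Zw
  s : GQ
  t : GQ

/-- tame generators -/
structure Ax.Tm (q : Ax) : Prop where
  pp : PP q.w
  ov : Ov q.V q.w
  fr : FK q.V q.w q.s
  ine : q.t ∈ q.V.I
  km : km 3 q.t q.V.l ≠ 0

/-- the inertia elements outside three and the primes in `F` -/
def RmI (F : Set Ax) : Set GQ :=
  {g | ∃ W : Plc, W.l ≠ 3 ∧ (∀ q ∈ F, ¬ Ov W q.w) ∧ g ∈ W.I}

section
variable {Λ : Type} [CommRing Λ]

/-- the character is trivial at `q` modulo `b` -/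
structure Ax.Tr (q : Ax) (b : Ideal Λ) (θ : GQ → Λ) : Prop where
  tm : q.Tm
  one : ∀ g ∈ q.V.D, θ g - 1 ∈ b
  nrm : (nn q.w : Λ) - 1 ∈ b

/-- a universal formula for the value at `g` -/
def UF {J : Type} [Fintype J] (b : Ideal Λ) (θ : GQ → Λ) (Rm : Set GQ) (pt : J → GQ) (g : GQ)
    (w : J → Λ) : Prop :=
  ∀ (R : Type) [CommRing R] (π : Λ →+* R) (c : GQ → R), (∀ x ∈ b, π x = 0) →
    Co (fun g => π (θ g)) GK c → (∀ h ∈ Rm, c h = 0) → c g = ∑ j, π (w j) * c (pt j)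

/-- a chosen universal formula -/
noncomputable def wc {J : Type} [Fintype J] (b : Ideal Λ) (θ : GQ → Λ) (Rm : Set GQ) (pt : J → GQ)
    (g : GQ) : J → Λ := Classical.epsilon (UF b θ Rm pt g)

/-- the matrix of the tame relations -/
noncomputable def PhM {S J : Type} (θ : GQ → Λ) (p : S → Ax) (e : S → J) (w : S → J → Λ) :
    Matrix S J Λ := Matrix.of fun s j => (1 - θ (p s).t) * w s j +
      if j = e s then θ (p s).s - ∑ i ∈ range (nn (p s).w), θ (p s).t ^ i else 0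

/-- the generators -/
def gnM {S : Type} (x₁ x₂ : GQ) (p : S → Ax) : Fin 2 ⊕ S → GQ :=
  Sum.elim ![x₁, x₂] fun s => (p s).t

/-- the chosen matrix -/
noncomputable def PhC {S : Type} [Fintype S] (b : Ideal Λ) (θ : GQ → Λ) (x₁ x₂ : GQ) (p : S → Ax) :
    Matrix S (Fin 2 ⊕ S) Λ :=
  PhM θ p Sum.inr fun s => wc b θ (RmI (Set.range p)) (gnM x₁ x₂ p) (p s).s

/-- valid further columns -/
def VdM {S : Type} [Fintype S] (b : Ideal Λ) (θ : GQ → Λ) (x₁ x₂ : GQ) (p : S → Ax) (r : ℕ)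
    (Q : Fin r → Ax) (Ψ : Fin r → S → Λ) : Prop :=
  ∃ a : Fin r → S → Λ, (∀ i s, Ψ i s = (1 - θ (p s).t) * a i s) ∧ ∀ s,
    UF b θ (RmI (Set.range p ∪ Set.range Q)) (Sum.elim (gnM x₁ x₂ p) fun i => (Q i).t) (p s).s
      (Sum.elim (wc b θ (RmI (Set.range p)) (gnM x₁ x₂ p) (p s).s) fun i => a i s)

/-- the standing assumptions -/
structure MS {S : Type} (b : Ideal Λ) (θ : GQ → Λ) (x₁ x₂ : GQ) (p : S → Ax) : Prop where
  fin : Finite (Λ ⧸ b)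
  three : ∃ n, (3 : Λ) ^ n ∈ b
  mu : Mu GK fun g => Ideal.Quotient.mk b (θ g)
  nil : ∀ g ∈ GK, ∃ k, (θ g - 1) ^ k ∈ b
  unr : ∀ g ∈ RmI (Set.range p), θ g - 1 ∈ b
  k1 : x₁ ∈ GK
  k2 : x₂ ∈ GK
  c1 : cy 9 x₁ ≠ 1
  c2 : cy 9 x₂ = 1
  c3 : km 3 x₂ (io pw) ≠ 0
  tm : ∀ s, (p s).Tm
  inj : Function.Injective fun s => (p s).w

/-- admissible families of further primes -/
structure AdM {S I : Type} (b : Ideal Λ) (θ : GQ → Λ) (p : S → Ax) (Q : I → Ax) : Prop where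
  tr : ∀ i, (Q i).Tr b θ
  inj : Function.Injective fun i => (Q i).w
  ne : ∀ i s, (Q i).w ≠ (p s).w

end

/-- the presentation matrices -/
def MAT_st : Prop := ∀ (Λ S : Type) [CommRing Λ] [Fintype S] (b : Ideal Λ) (θ : GQ → Λ)
  (x₁ x₂ : GQ) (p : S → Ax), MS b θ x₁ x₂ p →
  (∀ Q Ψ, VdM b θ x₁ x₂ p 0 Q Ψ) ∧
  (∀ r Q Ψ q, VdM b θ x₁ x₂ p r Q Ψ → q.Tr b θ →
    ∃ a, VdM b θ x₁ x₂ p (r + 1) (Fin.cons q Q) (Fin.cons a Ψ)) ∧
  (∀ r Q Ψ, VdM b θ x₁ x₂ p r Q Ψ →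
    Rel b θ (RmI (Set.range p ∪ Set.range Q)) (Sum.elim (gnM x₁ x₂ p) fun i => (Q i).t)
      (bm (PhC b θ x₁ x₂ p) Ψ) ∧ (AdM b θ p Q →
    Exi b θ (RmI (Set.range p ∪ Set.range Q)) (Sum.elim (gnM x₁ x₂ p) fun i => (Q i).t)
      (bm (PhC b θ x₁ x₂ p) Ψ))) ∧
  ∀ (I : Type) [Fintype I] (Q : I → Ax), AdM b θ p Q → ∃ Φ : Matrix S ((Fin 2 ⊕ S) ⊕ I) Λ,
    Exi b θ (RmI (Set.range p ∪ Set.range Q)) (Sum.elim (gnM x₁ x₂ p) fun i => (Q i).t) Φ

/-- removal of primes -/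
def DRO_st : Prop := ∀ (Λ : Type) [CommRing Λ] (b : Ideal Λ) (θ c : GQ → Λ) (F F' : Set Ax),
  (∃ n, (3 : Λ) ^ n ∈ b) → (Mu GK fun g => Ideal.Quotient.mk b (θ g)) → Zf θ (RmI F) b c →
  (∀ q ∈ F, q ∈ F' ∨ q.Tm ∧ (∀ g ∈ q.V.D, θ g - 1 ∈ b) ∧ c q.t ∈ b) → Zf θ (RmI F') b c

/-- the local conditions at three -/
def LOCW_st : Prop := ∃ y : Fin 4 → GQ, (∀ i, y i ∈ V3.D) ∧ ∀ (Λ : Type) [CommRing Λ]
  (m b : Ideal Λ) (n N : ℕ) (ρ lam : GQ → Λ), (3 : Λ) ∈ m → m ^ n ≤ b → (3 : Λ) ^ N ∈ b →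
  (Mu GK fun g => Ideal.Quotient.mk b (lam g)) → (∀ g ∈ GK, lam g - 1 ∈ m) →
  (∀ g ∈ GK, ρ g * lam g - (cy (3 ^ N) g).val ∈ b) →
  (∀ x, Zf lam ∅ b x → (∀ i, x (y i) ∈ b) → ∀ g ∈ V3.D, x g ∈ b) ∧
  ∀ d, (∀ v : Fin 4 → Λ, ∃ x, Zf lam ∅ b x ∧ ∀ i, x (y i) - d * v i ∈ b) →
    ∀ g ∈ V3.D, d * (ρ g - 1) ∈ b

theorem RmI_mono {F F' : Set Ax} (h : F ⊆ F') : RmI F' ⊆ RmI F :=
  fun _ ⟨W, h1, h2, h3⟩ => ⟨W, h1, fun q hq => h2 q (h hq), h3⟩

theorem RmI_unr {A : Type} [Zero A] {F : Set Ax} {b : Zw} {c : GQ → A}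
    (h : ∀ W : Plc, Ov W b ↔ W.l = 3 ∨ ∃ q ∈ F, Ov W q.w) : (∀ g ∈ RmI F, c g = 0) ↔ Unr b c :=
  ⟨fun e W hW g hg => e g ⟨W, fun a => hW ((h W).2 (.inl a)),
    fun q hq a => hW ((h W).2 (.inr ⟨q, hq, a⟩)), hg⟩,
    fun e g ⟨W, h1, h2, h3⟩ => e W (fun a => ((h W).1 a).elim h1 fun ⟨q, hq, a⟩ => h2 q hq a) g h3⟩

theorem Ch.mu {Λ : Type} [CommRing Λ] {b b' : Ideal Λ} {U : Subgroup GQ} {θ : GQ → Λ}
    (h : Ch b U θ) (hU : ON U) (e : b ≤ b') : Mu GK fun g => Ideal.Quotient.mk b' (θ g) :=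
  ⟨by
    obtain ⟨N, h1, h2⟩ := (zf_iff.1 (h.zf hU (Rm := ∅) (Set.empty_subset _))).1
    exact ⟨N, h1, fun g hg k hk a => Ideal.Quotient.eq.2 (e (by simpa using h2 g hg k hk a))⟩,
    Ideal.Quotient.eq.2 (e (h.2 1 U.one_mem)),
    fun g hg k hk => by rw [← map_mul]; exact Ideal.Quotient.eq.2 (e (h.1 g hg k hk))⟩

end Pool.Agent.MP_e23604_nt.W

end

section

/-! Presentation matrices of modules of cocycles. -/

set_option autoImplicit false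

open Finset Matrix
open scoped Classical

namespace Pool.Agent.MP_e23604_nt.W

open B R S

theorem drop_MAT (hT : TPR_st) (hC : CNJ_st) {R : Type} [CommRing R] {θ c : GQ → R}
    {F F' : Set Ax} {n : ℕ} (h3 : (3 : R) ^ n = 0) (hθ : Mu GK θ) (hc : Co θ GK c)
    (h0 : ∀ g ∈ RmI F, c g = 0)
    (h : ∀ q ∈ F, q ∈ F' ∨ q.Tm ∧ (∀ g ∈ q.V.D, θ g = 1) ∧ c q.t = 0) : ∀ g ∈ RmI F', c g = 0 := by
  rintro g ⟨W, h1, h2, h4⟩
  by_cases e : ∃ q ∈ F, Ov W q.w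
  · obtain ⟨q, hq, e⟩ := e
    obtain ⟨a1, a2, a3⟩ := (h q hq).resolve_left fun a => h2 q a e
    have l3 := a1.pp.l_neK a1.ov
    refine (((hC R θ).2 q.V W q.w hθ a1.pp.1 a1.ov e).1 c hc).2
      (fun t ht => a2 t (q.V.I_le ht)) ?_ g h4
    exact ((hT 3 n R q.V q.w q.s q.t θ Nat.prime_three l3 l3 a1.pp.1 a1.ov a1.fr a1.ine a1.km
      (by exact_mod_cast h3) (hθ.monoK q.V.D_le) fun g hg => by rw [a2 g hg, one_pow]).1 c
      (hc.monoK q.V.D_le)).2.2 a3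
  · push Not at e
    exact h0 g ⟨W, h1, e, h4⟩

theorem DRO_pf (hT : TPR_st) (hC : CNJ_st) : DRO_st := by
  rintro Λ _ b θ c F F' ⟨n, h3⟩ hθ hc h
  refine ⟨hc.1, fun g hg => Ideal.Quotient.eq_zero_iff_mem.1 (drop_MAT hT hC (n := n) ?_ hθ hc.1
    (fun g hg => Ideal.Quotient.eq_zero_iff_mem.2 (hc.2 g hg)) (fun q hq => (h q hq).imp id
      fun e => ⟨e.1, fun g hg => Ideal.Quotient.eq.2 (e.2.1 g hg),
        Ideal.Quotient.eq_zero_iff_mem.2 e.2.2⟩) g hg)⟩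
  rw [← map_ofNat (Ideal.Quotient.mk b) 3, ← map_pow, Ideal.Quotient.eq_zero_iff_mem.2 h3]

theorem lc_pi_MAT {A : Type} [Finite A] {α : A → Type} {H : Subgroup GQ} {f : ∀ a, GQ → α a}
    (h : ∀ a, Lc H (f a)) : Lc H fun g a => f a g := by
  choose N h1 h2 using h
  refine ⟨⨅ a, N a, ⟨Subgroup.normal_iInf_normal fun a => (h1 a).1, ?_⟩, fun g hg k hk e =>
    funext fun a => h2 a g hg k hk (Subgroup.mem_iInf.1 e a)⟩
  rw [Subgroup.coe_iInf]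
  exact isOpen_iInter_of_finite fun a => (h1 a).2

variable {Λ : Type} [CommRing Λ] {b : Ideal Λ} {θ : GQ → Λ} {x₁ x₂ : GQ}

theorem ext1_MAT {J : Type} [Fintype J] {Rm Rm' : Set GQ} {pt : J → GQ}
    {g t : GQ} {w : J → Λ} (h : UF b θ Rm pt g w)
    (hd : ∀ (R : Type) [CommRing R] (π : Λ →+* R) (c : GQ → R), (∀ x ∈ b, π x = 0) →
      Co (fun g => π (θ g)) GK c → (∀ h ∈ Rm', c h = 0) → c t = 0 → ∀ h ∈ Rm, c h = 0)
    {P : Type} [CommRing P] (π : Λ →+* P) (c : GQ → P) (h1 : ∀ x ∈ b, π x = 0)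
    (h2 : Co (fun g => π (θ g)) GK c) (h3 : ∀ h ∈ Rm', c h = 0) :
    ∃ a, c g = ∑ j, π (w j) * c (pt j) + π a * c t := by
  let B : Subring (TrivSqZeroExt P P) := π.range.comap (TrivSqZeroExt.fstHom P P P).toRingHom
  let π₁ : Λ →+* B := ((TrivSqZeroExt.inlHom P P).comp π).codRestrict B fun x => ⟨x, rfl⟩
  let ι : P → B := fun y => ⟨.inr y, 0, map_zero _⟩
  have e1 : ∀ x, (π₁ x).1 = .inl (π x) := fun _ => rfl
  have e2 : ∀ y, (ι y).1 = .inr y := fun _ => rfl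
  have ι0 : ι 0 = 0 := Subtype.ext (TrivSqZeroExt.inr_zero P)
  have b1 : ∀ x ∈ b, π₁ x = 0 := fun x hx => Subtype.ext (by
    rw [e1, h1 x hx]
    exact TrivSqZeroExt.inl_zero P)
  have b2 : Co (fun g => π₁ (θ g)) GK fun g => ι (c g) := ⟨h2.1.map ι,
    fun g hg k hk => Subtype.ext (by
      rw [Subring.coe_add, Subring.coe_mul, e1, e2, e2, e2, h2.2 g hg k hk]
      ext <;> simp [mul_comm])⟩
  let I : Ideal B := Ideal.span {ι (c t)}
  have b3 : ∀ x ∈ b, (Ideal.Quotient.mk I).comp π₁ x = 0 := fun x hx => by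
    rw [RingHom.comp_apply, b1 x hx, map_zero]
  have b4 := b2.mapK (R' := B ⧸ I) (Ideal.Quotient.mk I)
  have := h (B ⧸ I) _ _ b3 b4 (hd (B ⧸ I) _ _ b3 b4 (fun k hk => by
    rw [h3 k hk, ι0, map_zero])
    (Ideal.Quotient.eq_zero_iff_mem.2 (Ideal.mem_span_singleton_self _)))
  simp only [RingHom.comp_apply, ← map_mul, ← map_sum] at this
  obtain ⟨⟨β, a, ha⟩, e⟩ := Ideal.mem_span_singleton'.1 (Ideal.Quotient.eq.1 this)
  have e' := congrArg (fun y : B => y.1.snd) e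
  have ha' : β.fst = π a := ha.symm
  refine ⟨a, sub_eq_iff_eq_add'.1 ?_⟩
  simpa [e1, e2, ha', TrivSqZeroExt.snd_sum, mul_comm] using e'.symm

/-- one more term in a universal formula -/
theorem ext_MAT {J : Type} [Fintype J] [Finite (Λ ⧸ b)] {Rm Rm' : Set GQ} {pt : J → GQ}
    {g t : GQ} {w : J → Λ} (h : UF b θ Rm pt g w)
    (hd : ∀ (R : Type) [CommRing R] (π : Λ →+* R) (c : GQ → R), (∀ x ∈ b, π x = 0) →
      Co (fun g => π (θ g)) GK c → (∀ h ∈ Rm', c h = 0) → c t = 0 → ∀ h ∈ Rm, c h = 0) :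
    ∃ a, ∀ (R : Type) [CommRing R] (π : Λ →+* R) (c : GQ → R), (∀ x ∈ b, π x = 0) →
      Co (fun g => π (θ g)) GK c → (∀ h ∈ Rm', c h = 0) →
      c g = ∑ j, π (w j) * c (pt j) + π a * c t := by
  by_contra hn
  push Not at hn
  choose R _ π c h1 h2 h3 h4 using fun a : Λ ⧸ b => hn a.out
  obtain ⟨a, ha⟩ := ext1_MAT h hd (RingHom.pi π) (fun g a => c a g)
    (fun x hx => funext fun a => h1 a x hx)
    ⟨lc_pi_MAT fun a => (h2 a).1, fun g hg k hk => funext fun a => (h2 a).2 g hg k hk⟩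
    fun k hk => funext fun a => h3 a k hk
  refine h4 (Ideal.Quotient.mk b a) ?_
  rw [sub_eq_zero.1 ((map_sub _ _ _).symm.trans (h1 _ _ (Ideal.Quotient.eq.1
    (Ideal.Quotient.mk_out (Ideal.Quotient.mk b a)))))]
  simpa using congrFun ha (Ideal.Quotient.mk b a)

theorem fam_MAT (hP : PLK_st) {K : Type} [Fintype K] {p : K → Ax} (h1 : ∀ k, (p k).Tm)
    (h2 : Function.Injective fun k => (p k).w) : ∃ (T : Finset Zw) (P : Zw → Ax),
    (∀ ϖ ∈ T, ∃ k, (p k).w = ϖ) ∧ (∀ k, (p k).w ∈ T ∧ P (p k).w = p k) ∧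
    Tm T (fun ϖ => (P ϖ).V) (fun ϖ => (P ϖ).s) (fun ϖ => (P ϖ).t) ∧
    ∀ W : Plc, Ov W (3 * ∏ ϖ ∈ T, ϖ) ↔ W.l = 3 ∨ ∃ q ∈ Set.range p, Ov W q.w := by
  have e := h2.extend_apply p fun _ => ⟨V3, 0, 1, 1⟩
  refine ⟨univ.image fun k => (p k).w, _, fun ϖ h => by simpa using h,
    fun k => ⟨mem_image_of_mem _ (mem_univ k), e k⟩, fun ϖ h => ?_, fun W => ⟨fun h => ?_, ?_⟩⟩
  · obtain ⟨k, -, rfl⟩ := mem_image.1 h
    simp only [e]
    exact ⟨(h1 k).pp, (h1 k).ov, (h1 k).fr, (h1 k).ine, (h1 k).km⟩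
  · refine or_iff_not_imp_left.2 fun hl => ?_
    obtain ⟨ϖ, a1, a2⟩ := koch_mem hP h hl
    obtain ⟨k, -, rfl⟩ := mem_image.1 a1
    exact ⟨_, ⟨k, rfl⟩, a2⟩
  · rintro (h | ⟨_, ⟨k, rfl⟩, h⟩)
    · exact Ov_mul.2 (.inl (by simpa [h] using Ov_l W))
    · exact Ov_mul.2 (.inr (h.dvd (dvd_prod_of_mem _ (mem_image_of_mem _ (mem_univ k)))))

theorem lin_MAT {J : Type} [Fintype J] (θ : GQ → Λ) (L : List (GQ × J)) : ∃ w : J → Λ,
    ∀ (R : Type) [CommRing R] (π : Λ →+* R) (v : J → R),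
      (L.map fun e => π (θ e.1) * v e.2).sum = ∑ j, π (w j) * v j := by
  induction L with
  | nil => exact ⟨0, by simp⟩
  | cons e L ih =>
    obtain ⟨w, h⟩ := ih
    refine ⟨Pi.single e.2 (θ e.1) + w, fun R _ π v => ?_⟩
    simp [h, add_mul, sum_add_distrib, Pi.single_apply, apply_ite π]

theorem mu_MAT (h : Mu GK fun g => Ideal.Quotient.mk b (θ g)) {R : Type} [CommRing R]
    {π : Λ →+* R} (hπ : ∀ x ∈ b, π x = 0) : Mu GK fun g => π (θ g) :=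
  h.mapK (Ideal.Quotient.lift b π hπ)

theorem three_MAT {n : ℕ} (h : (3 : Λ) ^ n ∈ b) {R : Type} [CommRing R]
    {π : Λ →+* R} (hπ : ∀ x ∈ b, π x = 0) : (3 : R) ^ n = 0 := by
  rw [← map_ofNat π 3, ← map_pow, hπ _ h]

theorem one_MAT {x : Λ} (h : x - 1 ∈ b) {R : Type} [CommRing R]
    {π : Λ →+* R} (hπ : ∀ x ∈ b, π x = 0) : π x = 1 := by
  rw [← sub_eq_zero, ← map_one π, ← map_sub, hπ _ h]

theorem nil_MAT {x : Λ} (h : ∃ k, (x - 1) ^ k ∈ b) {R : Type} [CommRing R]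
    {π : Λ →+* R} (hπ : ∀ x ∈ b, π x = 0) : IsNilpotent (π x - 1) :=
  h.imp fun k e => by rw [← map_one π, ← map_sub, ← map_pow, hπ _ e]

theorem mk_MAT {b' : Ideal Λ} (h : b ≤ b') : ∀ x ∈ b, Ideal.Quotient.mk b' x = 0 :=
  fun _ hx => Ideal.Quotient.eq_zero_iff_mem.2 (h hx)

/-- existence of universal formulas -/
theorem uf_MAT (hN : NUL_st) (hG : KGEN_st) (hP : PLK_st) {K J : Type} [Fintype K] [Fintype J]
    {p : K → Ax} (h : MS b θ x₁ x₂ p) {pt : J → GQ} (h0 : ∀ j, pt j ∈ GK) (h1 : ∃ j, pt j = x₁)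
    (h2 : ∃ j, pt j = x₂) (h3 : ∀ k, ∃ j, pt j = (p k).t) {g : GQ} (hg : g ∈ GK) :
    ∃ w, UF b θ (RmI (Set.range p)) pt g w := by
  obtain ⟨T, P, t1, t2, t3, t4⟩ := fam_MAT hP h.tm h.inj
  obtain ⟨n, hn⟩ := h.three
  have := h.fin
  obtain ⟨N, -, hu⟩ := koch_unip (Λ ⧸ b) ⟨n, three_MAT hn (mk_MAT le_rfl)⟩
  have g3 := koch_gn3 hG hP h.k1 h.k2 h.c1 h.c2 h.c3 t3
  obtain ⟨L, -, l2⟩ := hN J _ pt h.mu.kerK n g (mul_ne_zero (by decide)
    (prod_ne_zero_iff.2 fun ϖ e => (t3 ϖ e).1.1.ne_zero)) ⟨h0, fun a a1 a2 a3 a4 =>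
      g3.2 a a1 a2 a3 (by
        rintro ((_ | _) | ⟨ϖ, e⟩)
        · obtain ⟨j, e⟩ := h2
          exact e ▸ a4 j
        · obtain ⟨j, e⟩ := h1
          exact e ▸ a4 j
        · obtain ⟨k, rfl⟩ := t1 ϖ e
          obtain ⟨j, e⟩ := h3 k
          simpa only [gn, Sum.elim_inr, (t2 k).2, ← e] using a4 j)⟩ h.mu.kerK_open
    (fun _ e => e.1) h.mu.kerK_conj (fun k hk => ⟨N, pow_mem hk _,
      (h.mu.powK hk _).trans (hu _ (nil_MAT (h.nil k hk) (mk_MAT le_rfl)))⟩)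
    (fun W hW t ht => ⟨ht.2, sub_eq_zero.1 ((RmI_unr t4).1 (fun g hg => sub_eq_zero.2
      (one_MAT (h.unr g hg) (mk_MAT le_rfl))) W hW t ht)⟩) hg
  obtain ⟨w, hw⟩ := lin_MAT θ L
  exact ⟨w, fun R _ π c c1 c2 c3 => (l2 R _ c (three_MAT hn c1) (mu_MAT h.mu c1)
    (fun u hu => one_MAT (Ideal.Quotient.eq.1 hu.2) c1) c2 ((RmI_unr t4).1 c3)).trans
      (hw R π fun j => c (pt j))⟩

theorem PhM_mulVec {S J : Type} [Fintype J] (θ : GQ → Λ) (p : S → Ax) (e : S → J)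
    (w : S → J → Λ) (v : J → Λ) (s : S) : (PhM θ p e w *ᵥ v) s =
      (1 - θ (p s).t) * ∑ j, w s j * v j +
        (θ (p s).s - ∑ i ∈ range (nn (p s).w), θ (p s).t ^ i) * v (e s) := by
  simp [PhM, mulVec, dotProduct, add_mul, sum_add_distrib, mul_sum, mul_assoc]

theorem rel_MAT (hT : TPR_st) {S J : Type} [Fintype J] {p : S → Ax} (h : MS b θ x₁ x₂ p)
    {Rm : Set GQ} {pt : J → GQ} {e : S → J} {w : S → J → Λ} (h1 : ∀ s, pt (e s) = (p s).t)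
    (h2 : ∀ s, UF b θ Rm pt (p s).s (w s)) : Rel b θ Rm pt (PhM θ p e w) := fun c hc s => by
  have := h.fin
  obtain ⟨n, hn⟩ := h.three
  obtain ⟨N, n3, hu⟩ := koch_unip (Λ ⧸ b) ⟨n, three_MAT hn (mk_MAT le_rfl)⟩
  have a := h.tm s
  have l3 := a.pp.l_neK a.ov
  have := ((hT 3 N _ _ _ _ _ _ Nat.prime_three l3 l3 a.pp.1 a.ov a.fr a.ine a.km n3
    (h.mu.monoK (p s).V.D_le) fun g hg => hu _ (nil_MAT (h.nil g ((p s).V.D_le hg))
      (mk_MAT le_rfl))).1 _ (hc.1.monoK (p s).V.D_le)).1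
  rw [h2 s _ _ _ (mk_MAT le_rfl) hc.1 fun g hg => mk_MAT le_rfl _ (hc.2 g hg)] at this
  rw [PhM_mulVec, ← Ideal.Quotient.eq_zero_iff_mem, h1, ← this]
  simp

theorem exi_MAT (hK : KOCH_st) (hP : PLK_st) {K J : Type} [Fintype K] [Fintype J] {p : K → Ax}
    (h : MS b θ x₁ x₂ p) {pt : J → GQ} {e₁ e₂ : J} {e : K → J} {w : K → J → Λ} (h1 : pt e₁ = x₁)
    (h2 : pt e₂ = x₂) (h3 : ∀ k, pt (e k) = (p k).t) (h4 : ∀ j, j = e₁ ∨ j = e₂ ∨ ∃ k, j = e k)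
    (h5 : ∀ k, UF b θ (RmI (Set.range p)) pt (p k).s (w k)) :
    Exi b θ (RmI (Set.range p)) pt (PhM θ p e w) := fun b' hb v hv => by
  obtain ⟨T, P, t1, t2, t3, t4⟩ := fam_MAT hP h.tm h.inj
  obtain ⟨n, hn⟩ := h.three
  have := h.fin
  have : Finite (Λ ⧸ b') := .of_surjective _ (Ideal.Quotient.factor_surjective hb)
  have e1 := h.inj.extend_apply (fun k => Ideal.Quotient.mk b' (v (e k))) 0
  have e2 := h.inj.extend_apply (fun k => Ideal.Quotient.mk b' (∑ j, w k j * v j)) 0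
  have key : ∀ (R : Type) [CommRing R] (π : Λ ⧸ b' →+* R) (c : GQ → R),
      c x₁ = π (Ideal.Quotient.mk b' (v e₁)) → c x₂ = π (Ideal.Quotient.mk b' (v e₂)) →
      (∀ ϖ ∈ T, c (P ϖ).t = π (Function.extend (fun k => (p k).w)
        (fun k => Ideal.Quotient.mk b' (v (e k))) 0 ϖ)) →
      ∀ j, c (pt j) = π (Ideal.Quotient.mk b' (v j)) := fun R _ π c c1 c2 c3 j => by
    rcases h4 j with rfl | rfl | ⟨k, rfl⟩
    · rwa [h1]
    · rwa [h2]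
    · simpa only [h3, (t2 k).2, e1] using c3 _ (t2 k).1
  obtain ⟨c, c1, c2, c3, c4, c5⟩ := hK x₁ x₂ T _ _ _ h.k1 h.k2 h.c1 h.c2 h.c3 t3 (Λ ⧸ b')
    (fun g => Ideal.Quotient.mk b' (θ g)) (Ideal.Quotient.mk b' (v e₁))
    (Ideal.Quotient.mk b' (v e₂))
    (Function.extend (fun k => (p k).w) (fun k => Ideal.Quotient.mk b' (v (e k))) 0)
    (Function.extend (fun k => (p k).w) (fun k => Ideal.Quotient.mk b' (∑ j, w k j * v j)) 0)
    ⟨n, three_MAT hn (mk_MAT hb)⟩ (mu_MAT h.mu (mk_MAT hb))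
    (fun g hg => nil_MAT (h.nil g hg) (mk_MAT hb))
    ((RmI_unr t4).1 fun g hg => sub_eq_zero.2 (one_MAT (h.unr g hg) (mk_MAT hb)))
    (fun ϖ a => by
      obtain ⟨k, rfl⟩ := t1 ϖ a
      rw [e1, e2, (t2 k).2, ← Ideal.Quotient.eq_zero_iff_mem.2 (hv k), PhM_mulVec]
      simp)
    fun R _ π c c1 c2 c3 c4 c5 ϖ a => by
      obtain ⟨k, rfl⟩ := t1 ϖ a
      rw [e2, (t2 k).2, h5 k R (π.comp (Ideal.Quotient.mk b')) c
        (fun x hx => by simp [mk_MAT hb x hx]) c1 ((RmI_unr t4).2 c2)]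
      simp [key R π c c3 c4 c5]
  choose c' hc using fun g => Ideal.Quotient.mk_surjective (c g)
  refine ⟨c', ⟨by simpa only [hc] using c1, fun g hg => Ideal.Quotient.eq_zero_iff_mem.1
    ((hc g).trans ((RmI_unr t4).2 c2 g hg))⟩, fun j => Ideal.Quotient.eq.1 ?_⟩
  exact (hc _).trans (key _ (RingHom.id _) c c3 c4 c5 j)

theorem MS.sumM {S I : Type} {p : S → Ax} {Q : I → Ax} (h : MS b θ x₁ x₂ p) (h' : AdM b θ p Q) :
    MS b θ x₁ x₂ (Sum.elim p Q) :=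
  { h with
    unr := fun g hg => h.unr g (RmI_mono (by simp) hg)
    tm := by
      rintro (s | i)
      exacts [h.tm s, (h'.tr i).tm]
    inj := by
      rintro (s | i) (s' | i') e
      exacts [congrArg _ (h.inj e), absurd e.symm (h'.ne _ _), absurd e (h'.ne _ _),
        congrArg _ (h'.inj e)] }

theorem MS.gnK {S I : Type} {p : S → Ax} {Q : I → Ax} (h : MS b θ x₁ x₂ p)
    (h' : ∀ i, (Q i).Tm) (j : (Fin 2 ⊕ S) ⊕ I) :
    Sum.elim (gnM x₁ x₂ p) (fun i => (Q i).t) j ∈ GK := by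
  rcases j with (j | s) | i
  · fin_cases j
    exacts [h.k1, h.k2]
  exacts [(h.tm s).ine.2, (h' i).ine.2]

theorem uf2_MAT (hN : NUL_st) (hG : KGEN_st) (hP : PLK_st) {S I : Type} [Fintype S] [Fintype I]
    {p : S → Ax} {Q : I → Ax} (h : MS b θ x₁ x₂ p) (h' : AdM b θ p Q) {g : GQ} (hg : g ∈ GK) :
    ∃ w, UF b θ (RmI (Set.range p ∪ Set.range Q)) (Sum.elim (gnM x₁ x₂ p) fun i => (Q i).t) g w :=
  Set.Sum.elim_range p Q ▸ uf_MAT hN hG hP (h.sumM h') (h.gnK fun i => (h'.tr i).tm)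
    ⟨.inl (.inl 0), rfl⟩ ⟨.inl (.inl 1), rfl⟩ (by
      rintro (s | i)
      exacts [⟨.inl (.inr s), rfl⟩, ⟨.inr i, rfl⟩]) hg

theorem exi2_MAT (hK : KOCH_st) (hN : NUL_st) (hG : KGEN_st) (hP : PLK_st) {S I : Type}
    [Fintype S] [Fintype I] {p : S → Ax} {Q : I → Ax} (h : MS b θ x₁ x₂ p) (h' : AdM b θ p Q)
    {w : S → (Fin 2 ⊕ S) ⊕ I → Λ} (hw : ∀ s, UF b θ (RmI (Set.range p ∪ Set.range Q))
      (Sum.elim (gnM x₁ x₂ p) fun i => (Q i).t) (p s).s (w s)) :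
    Exi b θ (RmI (Set.range p ∪ Set.range Q)) (Sum.elim (gnM x₁ x₂ p) fun i => (Q i).t)
      (PhM θ p (fun s => .inl (.inr s)) w) := fun b' hb v hv => by
  choose w' hw' using fun i => uf2_MAT hN hG hP h h' (h'.tr i).tm.fr.1.2
  rw [← Set.Sum.elim_range] at hw hw' ⊢
  refine exi_MAT hK hP (h.sumM h') (e₁ := .inl (.inl 0)) (e₂ := .inl (.inl 1))
    (e := Sum.elim (fun s => .inl (.inr s)) .inr) (w := Sum.elim w w') rfl rfl
    (by rintro (s | i) <;> rfl) ?_ (by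
      rintro (s | i)
      exacts [hw s, hw' i]) b' hb v ?_
  · rintro ((j | s) | i)
    · fin_cases j
      exacts [.inl rfl, .inr (.inl rfl)]
    exacts [.inr (.inr ⟨.inl s, rfl⟩), .inr (.inr ⟨.inr i, rfl⟩)]
  · rintro (s | i)
    · exact hv s
    · have a := h'.tr i
      have := one_MAT a.nrm (mk_MAT hb)
      rw [map_natCast] at this
      rw [PhM_mulVec, ← Ideal.Quotient.eq_zero_iff_mem]
      simp [one_MAT (a.one _ a.tm.fr.1) (mk_MAT hb), this,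
        one_MAT (a.one _ ((Q i).V.I_le a.tm.ine)) (mk_MAT hb)]

theorem MAT_pf (hK : KOCH_st) (hN : NUL_st) (hG : KGEN_st) (hP : PLK_st) (hT : TPR_st)
    (hC : CNJ_st) : MAT_st := by
  intro Λ S _ _ b θ x₁ x₂ p h
  refine ⟨fun Q Ψ => ⟨Fin.elim0, fun i => i.elim0, fun s R _ π c c1 c2 c3 => ?_⟩, ?_, ?_,
    fun I _ Q h' => ?_⟩
  · have := Classical.epsilon_spec (uf_MAT hN hG hP h (pt := gnM x₁ x₂ p)
      (fun j => h.gnK (Q := Q) (fun i => i.elim0) (.inl j)) ⟨.inl 0, rfl⟩ ⟨.inl 1, rfl⟩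
      (fun s => ⟨.inr s, rfl⟩) (h.tm s).fr.1.2) R π c c1 c2 (by simpa using c3)
    rw [this, Fintype.sum_sum_type (α₂ := Fin 0)]
    simp [wc]
  · rintro r Q Ψ q ⟨a, a1, a2⟩ hq
    have := h.fin
    obtain ⟨n, hn⟩ := h.three
    choose a' ha using fun s => ext_MAT (t := q.t)
      (Rm' := RmI (Set.range p ∪ Set.range (Fin.cons q Q : Fin (r + 1) → Ax))) (a2 s)
      fun R _ π c c1 c2 c3 c4 => drop_MAT hT hC (three_MAT hn c1) (mu_MAT h.mu c1) c2 c3 (by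
        rintro q' (e | ⟨i, rfl⟩)
        · exact .inl (.inl e)
        · refine Fin.cases ?_ (fun i => ?_) i
          exacts [.inr ⟨hq.tm, fun g hg => one_MAT (hq.one g hg) c1, c4⟩, .inl (.inr ⟨i, rfl⟩)])
    refine ⟨fun s => (1 - θ (p s).t) * a' s, Fin.cons a' a, fun i s => ?_,
      fun s R _ π c c1 c2 c3 => ?_⟩
    · refine Fin.cases ?_ (fun i => ?_) i
      exacts [rfl, a1 i s]
    · rw [ha s R π c c1 c2 c3, Fintype.sum_sum_type, Fintype.sum_sum_type (α₂ := Fin (r + 1)),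
        Fin.sum_univ_succ]
      simp only [Sum.elim_inl, Sum.elim_inr, Fin.cons_zero, Fin.cons_succ]
      ring
  · rintro r Q Ψ ⟨a, a1, a2⟩
    have e : bm (PhC b θ x₁ x₂ p) Ψ = PhM θ p (fun s => .inl (.inr s)) fun s =>
        Sum.elim (wc b θ (RmI (Set.range p)) (gnM x₁ x₂ p) (p s).s) fun i => a i s := by
      ext s (j | i) <;> simp [bm, PhC, PhM, a1]
    rw [e]
    exact ⟨rel_MAT hT h (fun _ => rfl) a2, fun h' => exi2_MAT hK hN hG hP h h' a2⟩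
  · choose w hw using fun s => uf2_MAT hN hG hP h h' (h.tm s).fr.1.2
    exact ⟨_, exi2_MAT hK hN hG hP h h' hw⟩

end Pool.Agent.MP_e23604_nt.W

end

section

/-! The local conditions at three. -/

set_option autoImplicit false

open Finset
open scoped Classical

namespace Pool.Agent.MP_e23604_nt.W

open B R S

/-- cocycles that vanish at the four elements vanish -/
theorem spn_LOCW {y : Fin 4 → GQ} (hy : ∀ (A : Type) [AddCommGroup A] (a : GQ → A), Adt V3.D a →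
      Lc V3.D a → (∀ g ∈ V3.D, 3 • a g = 0) → (∀ i, a (y i) = 0) → ∀ g ∈ V3.D, a g = 0)
    {Λ : Type} [CommRing Λ] {m b : Ideal Λ} {n : ℕ} {lam x : GQ → Λ} (h3 : (3 : Λ) ∈ m)
    (hb : m ^ n ≤ b) (hl : ∀ g ∈ V3.D, lam g - 1 ∈ m)
    (h1 : Lc V3.D fun g => Ideal.Quotient.mk b (x g))
    (h2 : ∀ g ∈ V3.D, ∀ h ∈ V3.D, x (g * h) - (x g + lam g * x h) ∈ b) (h4 : ∀ i, x (y i) ∈ b) :
    ∀ g ∈ V3.D, x g ∈ b := by
  have : ∀ k, ∀ g ∈ V3.D, x g ∈ b ⊔ m ^ k := fun k => by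
    induction k with
    | zero => simp
    | succ k ih =>
      have e : ∀ t ∈ m, ∀ g ∈ V3.D, t * x g ∈ b ⊔ m ^ (k + 1) := fun t ht g hg => by
        obtain ⟨u, hu, v, hv, e⟩ := Submodule.mem_sup.1 (ih g hg)
        rw [← e, mul_add, pow_succ']
        exact Submodule.add_mem_sup (b.mul_mem_left _ hu) (Ideal.mul_mem_mul ht hv)
      refine fun g hg => Ideal.Quotient.eq_zero_iff_mem.1 (hy (Λ ⧸ b ⊔ m ^ (k + 1))
        (fun g => Ideal.Quotient.mk _ (x g)) (fun g hg h hh => ?_)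
        (h1.map (Ideal.Quotient.factor le_sup_left)) (fun g hg => ?_)
        (fun i => Ideal.Quotient.eq_zero_iff_mem.2 (Ideal.mem_sup_left (h4 i))) g hg)
      · rw [← map_add, Ideal.Quotient.eq]
        convert add_mem (Ideal.mem_sup_left (h2 g hg h hh)) (e _ (hl g hg) h hh) using 1
        ring
      · rw [← map_nsmul, Ideal.Quotient.eq_zero_iff_mem, nsmul_eq_mul]
        exact e _ (by exact_mod_cast h3) g hg
  exact fun g hg => sup_le le_rfl hb (this n g hg)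

theorem val_LOCW {Λ : Type} [CommRing Λ] {b : Ideal Λ} {N : ℕ} [NeZero N] (h : (N : Λ) ∈ b)
    (s t : ZMod N) : ((s + t).val : Λ) - (s.val + t.val) ∈ b ∧
      ((s * t).val : Λ) - s.val * t.val ∈ b := by
  have : ∀ i : ℕ, ((i % N : ℕ) : Λ) - i ∈ b := fun i => by
    conv => enter [2, 2]; rw [← Nat.mod_add_div i N]
    simpa using b.mul_mem_right _ h
  rw [ZMod.val_add, ZMod.val_mul]
  exact ⟨by simpa using this (s.val + t.val), by simpa using this (s.val * t.val)⟩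

theorem fun_LOCW (hF : FUN_st) {Λ : Type} [CommRing Λ] {J J₀ : Ideal Λ} (hJ : J₀ ≤ J)
    (h3 : ∀ x ∈ J, 3 * x ∈ J₀) {x₀ : Λ} (h1 : x₀ ∈ J) (h0 : x₀ ∉ J₀) : ∃ μ : Λ → ZMod 3, μ x₀ ≠ 0 ∧
      (∀ x ∈ J, ∀ x' ∈ J, ∀ z, z - (x + x') ∈ J₀ → μ z = μ x + μ x') ∧
      (∀ x x', x - x' ∈ J₀ → μ x = μ x') ∧ ∀ x ∈ J, ∀ i : ℕ, μ (i * x) = i * μ x := by
  let J' : Submodule Λ J := Submodule.comap (Submodule.subtype J) J₀
  obtain ⟨ℓ, hℓ⟩ := hF 3 (J ⧸ J') (J'.mkQ ⟨x₀, h1⟩) (by decide) (fun z => by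
    obtain ⟨z, rfl⟩ := J'.mkQ_surjective z
    rw [← map_nsmul]
    exact (Submodule.Quotient.mk_eq_zero _).2 (by simpa [J'] using h3 _ z.2))
    fun e => h0 ((Submodule.Quotient.mk_eq_zero J').1 e)
  refine ⟨fun x => if h : x ∈ J then ℓ (J'.mkQ ⟨x, h⟩) else 0, by simpa only [dif_pos h1],
    fun x hx x' hx' z e => ?_, fun x x' e => ?_, fun x hx i => ?_⟩
  · have hz : z ∈ J := by simpa using add_mem (hJ e) (add_mem hx hx')
    simp only [dif_pos hx, dif_pos hx', dif_pos hz, ← map_add]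
    exact congrArg ℓ ((Submodule.Quotient.eq J').2 e)
  · have : x ∈ J ↔ x' ∈ J := ⟨fun h => by simpa using sub_mem h (hJ e), fun h => by
      simpa using add_mem (hJ e) h⟩
    by_cases hx : x ∈ J
    · simp only [dif_pos hx, dif_pos (this.1 hx)]
      exact congrArg ℓ ((Submodule.Quotient.eq J').2 e)
    · simp only [dif_neg hx, dif_neg (mt this.2 hx)]
  · simp only [dif_pos hx, dif_pos (J.mul_mem_left _ hx)]
    rw [← nsmul_eq_mul i (ℓ _), ← map_nsmul, ← map_nsmul]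
    exact congrArg (fun z => ℓ (J'.mkQ z)) (Subtype.ext (nsmul_eq_mul i x).symm)

theorem LOCW_pf (hD : DM4_st) (hN : NDG_st) (hF : FUN_st) (hK : KM_st) : LOCW_st := by
  obtain ⟨y, y1, hy⟩ := hD
  refine ⟨y, y1, fun Λ _ m b n N ρ lam h3 hb hN3 hl hm hc => ⟨fun x hx h4 => spn_LOCW hy h3 hb
    (fun g hg => hm g (V3.D_le hg)) (hx.1.1.mono V3.D_le) (fun g hg h hh =>
      (zf_iff.1 hx).2.1 g (V3.D_le hg) h (V3.D_le hh)) h4, fun d hd => ?_⟩⟩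
  rcases N with _ | N
  · exact fun g _ => by simpa using b.mul_mem_left (d * (ρ g - 1)) hN3
  have N0 : 3 ^ (N + 1) ≠ 0 := by positivity
  have e3 : 3 ^ (N + 1) = 3 * 3 ^ N := pow_succ' 3 N
  have hv := val_LOCW (Λ := Λ) (b := b) (N := 3 ^ (N + 1)) (by exact_mod_cast hN3)
  set cy' : GQ → Λ := fun g => (cy (3 ^ (N + 1)) g).val with hcy
  have red : ∀ s : ZMod (3 * 3 ^ N), (s.val : ZMod 3) =
      ZMod.castHom (dvd_mul_right 3 _) (ZMod 3) s := fun s => by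
    rw [ZMod.castHom_apply, ZMod.natCast_val]
  have c1 : ∀ g ∈ GK, cy' g - 1 ∈ m := fun g hg => by
    have : (((cy (3 ^ (N + 1)) g).val : ℤ) : ZMod 3) = (1 : ℤ) := by
      rw [e3, Int.cast_natCast, red, ← cy_cast (by decide) (by positivity),
        ((hK 3 (by decide)).2.2.2.2.2.2.2.1 g hg).1, Int.cast_one]
    obtain ⟨t, ht⟩ := (ZMod.intCast_eq_intCast_iff_dvd_sub _ _ _).1 this.symm
    have := congrArg (Int.cast : ℤ → Λ) ht
    push_cast at this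
    rw [hcy, this]
    exact m.mul_mem_right _ h3
  let δ : GQ → Λ := fun g => d * (lam g - cy' g)
  let J : Ideal Λ := b ⊔ Ideal.span (δ '' V3.D)
  have hδ : ∀ g ∈ V3.D, δ g ∈ J := fun g hg =>
    Ideal.mem_sup_right (Ideal.subset_span ⟨g, hg, rfl⟩)
  have lm : ∀ g ∈ GK, ∀ h ∈ GK, lam (g * h) - lam g * lam h ∈ b := fun g hg h hh =>
    Ideal.Quotient.eq.1 ((hl.2.2 g hg h hh).trans (map_mul _ _ _).symm)
  have key : ∀ g ∈ V3.D, δ g ∈ b ⊔ m * J := fun g₀ hg₀ => by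
    by_contra hn
    obtain ⟨μ, hμ, μ1, μ2, μ3⟩ := fun_LOCW hF (J := J) (sup_le le_sup_left Ideal.mul_le_right)
      (fun x hx => Ideal.mem_sup_right (Ideal.mul_mem_mul h3 hx)) (hδ g₀ hg₀) hn
    have lc : ∀ f : GQ → Λ, Lc V3.D (fun g => Ideal.Quotient.mk b (f g)) →
        Lc V3.D fun g => μ (f g) := fun f h => h.imp fun _ h =>
      ⟨h.1, fun g hg k hk e => μ2 _ _ (Ideal.mem_sup_left (Ideal.Quotient.eq.1 (h.2 g hg k hk e)))⟩
    obtain ⟨u, u0, u1, hu⟩ := hN V3 (fun g => μ (δ g)) (fun g hg h hh => by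
      refine μ1 _ (hδ g hg) _ (hδ h hh) _ ?_
      convert add_mem (add_mem (Ideal.mem_sup_left (b.mul_mem_left d (sub_mem
        (lm g (V3.D_le hg) h (V3.D_le hh)) (hv (cy _ g) (cy _ h)).2)))
        (Ideal.mem_sup_right (Ideal.mul_mem_mul (hm g (V3.D_le hg)) (hδ h hh))))
        (Ideal.mem_sup_right (Ideal.mul_mem_mul (c1 h (V3.D_le hh)) (hδ g hg))) using 1
      simp only [δ, hcy, cy_mul N0]
      ring) (lc δ ((hl.1.mono V3.D_le).map₂ (cy_lc (3 ^ (N + 1)) _) fun s t =>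
        Ideal.Quotient.mk b d * (s - Ideal.Quotient.mk b t.val))) ⟨g₀, hg₀, hμ⟩
    set k : GQ → Λ := fun g => (km (3 ^ (N + 1)) g u).val with hk
    obtain ⟨x, x1, x2⟩ := hd fun i => k (y i)
    have lw : Lc V3.D fun g => Ideal.Quotient.mk b (x g - d * k g) :=
      (x1.1.1.mono V3.D_le).map₂ (km_lc (3 ^ (N + 1)) _ u) fun s t =>
        s - Ideal.Quotient.mk b (d * t.val)
    have cw : ∀ g ∈ V3.D, ∀ h ∈ V3.D, x (g * h) - d * k (g * h) -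
        (x g - d * k g + lam g * (x h - d * k h) + k h * δ g) ∈ b := fun g hg h hh => by
      convert sub_mem ((zf_iff.1 x1).2.1 g (V3.D_le hg) h (V3.D_le hh)) (b.mul_mem_left d (add_mem
        (hv (cy _ g * km _ h u) (km _ g u)).1 (hv (cy _ g) (km _ h u)).2)) using 1
      simp only [δ, hcy, hk, km_mul N0 g h u0, u1 h hh]
      ring
    have wJ := spn_LOCW hy (lam := lam) (b := J) h3 (hb.trans le_sup_left)
      (fun g hg => hm g (V3.D_le hg)) (lw.map (Ideal.Quotient.factor le_sup_left))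
      (fun g hg h hh => by
        convert add_mem (Ideal.mem_sup_left (cw g hg h hh)) (J.mul_mem_left (k h) (hδ g hg)) using 1
        ring)
      fun i => Ideal.mem_sup_left (x2 i)
    refine hu ⟨fun g => -μ (x g - d * k g), (lc _ lw).map Neg.neg, fun g hg h hh => ?_⟩
    have e1 := μ1 _ (add_mem (wJ g hg) (wJ h hh)) _ (J.mul_mem_left (k h) (hδ g hg))
      (x (g * h) - d * k (g * h)) (by
        convert add_mem (Ideal.mem_sup_left (cw g hg h hh))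
          (Ideal.mem_sup_right (Ideal.mul_mem_mul (hm g (V3.D_le hg)) (wJ h hh))) using 1
        ring)
    rw [μ1 _ (wJ g hg) _ (wJ h hh) (_ + _) (by rw [sub_self]; exact zero_mem _),
      show μ (k h * δ g) = _ from μ3 _ (hδ g hg) _] at e1
    have e2 : ((km (3 ^ (N + 1)) h u).val : ZMod 3) = km 3 h u := by
      rw [e3, red, ← km_cast (by decide) (by positivity) u0 (u1 h hh)
        ((hK 3 (by decide)).2.2.2.2.2.2.2.1 h (V3.D_le hh)).1]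
    simp only [e1, e2]
    ring
  have hJ : ∀ i, J ≤ b ⊔ m ^ i * J := fun i => by
    induction i with
    | zero => simp
    | succ i ih =>
      have : J ≤ b ⊔ m * J := sup_le le_sup_left (Ideal.span_le.2 (by
        rintro _ ⟨g, hg, rfl⟩
        exact key g hg))
      refine ih.trans (sup_le le_sup_left ((Ideal.mul_mono_right this).trans ?_))
      rw [Ideal.mul_sup, ← mul_assoc, ← pow_succ]
      exact sup_le_sup_right Ideal.mul_le_right _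
  intro g hg
  have hg' := V3.D_le hg
  have e1 : δ g ∈ b := sup_le le_rfl (Ideal.mul_le_left.trans hb) (hJ n (hδ g hg))
  have e2 := lm g hg' g⁻¹ (inv_mem hg')
  have e4 : lam 1 - 1 ∈ b := Ideal.Quotient.eq.1 hl.2.1
  rw [mul_inv_cancel] at e2
  convert add_mem (b.mul_mem_left (lam g⁻¹) (sub_mem (b.mul_mem_left d (hc g hg')) e1))
    (b.mul_mem_left (d * (ρ g - 1)) (sub_mem e2 e4)) using 1
  simp only [δ, hcy]
  ring

end Pool.Agent.MP_e23604_nt.W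

end
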