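import Pool.Agent.Mg.Fe23604m.Gc4cdb1

set_option linter.all false

set_option autoImplicit false

open NumberField IsDedekindDomain Module Filter Topology
open scoped Classical

namespace Pool.Agent.MP_e23604_nt.S

open B R Pool.Agent.MP_f3cd89_nt

theorem one_add_SLO3 {v : AbsoluteValue Qb ℝ} (hv : IsNonarchimedean v) {a u : Qb}
    (h : v u < v a) : v (a + u) = v a := by
  refine le_antisymm ((hv a u).trans (max_le le_rfl h.le)) ?_
  have h1 := hv (a + u) (-u)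
  rw [add_neg_cancel_right, v.map_neg] at h1
  rcases le_max_iff.1 h1 with h2 | h2
  · exact h2
  · exact absurd h (not_lt.2 h2)

theorem v3_SLO3 (γ : GQ) : nv 3 γ 3 = 1 / 3 := by
  have h := R.DIC_ok.2.2.1 3 γ 3 (by norm_num)
  have h1 : padicValRat 3 (3 : ℚ) = 1 := by
    simpa using padicValRat.self (p := 3) (by norm_num)
  rw [h1] at h
  simpa using h

theorem v2_SLO3 (γ : GQ) : nv 3 γ 2 = 1 := by
  have h := one_add_SLO3 (nv_na 3 γ) (a := -1) (u := 3) (by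
    rw [v3_SLO3, (nv 3 γ).map_neg, map_one]; norm_num)
  rw [(nv 3 γ).map_neg, map_one] at h
  rw [← h]
  norm_num

theorem vsq_SLO3 (γ : GQ) {x η : Qb} (hη : η ^ 3 = 1) (h : x ^ 2 = -3 * η) :
    nv 3 γ x ^ 2 = 1 / 3 := by
  rw [← map_pow, h, map_mul, (nv 3 γ).map_neg, v3_SLO3, BValA_root three_ne_zero hη, mul_one]

/-- values of elements fixed by inertia -/
theorem pow3_SLO3 (γ : GQ) {y : Qb} (h : Fix (Ine 3 γ) y) :
    (nv 3 γ y < 3 → nv 3 γ y ≤ 1) ∧ (nv 3 γ y < 1 → nv 3 γ y ≤ 1 / 3) := by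
  rcases eq_or_ne y 0 with rfl | hy
  · simp
  obtain ⟨k, hk⟩ := int_CVAL R.DIC_ok 3 γ hy h
  have h3 : (1 : ℝ) < 3 := by norm_num
  rw [hk]
  push_cast
  constructor
  · intro h1
    have h2 : -k < 1 := by
      rw [← zpow_lt_zpow_iff_right₀ h3]
      simpa using h1
    exact zpow_le_one_of_nonpos₀ h3.le (by omega)
  · intro h1
    have h2 : -k < 0 := by
      rw [← zpow_lt_zpow_iff_right₀ h3]
      simpa using h1
    have h4 : (3 : ℝ) ^ (-k) ≤ 3 ^ (-1 : ℤ) := zpow_le_zpow_right₀ h3.le (by omega)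
    simpa using h4

/-- the Kummer generator of norm one -/
theorem gen_SLO3 (γ c : GQ) (hc : c ∈ Ine 3 γ) (hc' : c ∉ GK) (a : GQ → ZMod 3)
    (ha : Adt (Dec (nv 3 γ)) a) (hl : Lc (Dec (nv 3 γ)) a) :
    ∃ y : Qb, y ≠ 0 ∧ (∀ g ∈ Dec (nv 3 γ) ⊓ GK, g y = w3 ^ (a g).val * y) ∧
      y ^ 3 * c (y ^ 3) = 1 ∧ nv 3 γ (y ^ 3 - 1) < 1 := by
  have hcG : c ∈ Dec (nv 3 γ) := Ine_le 3 γ hc
  obtain ⟨N, h1, h2⟩ := ((hl.mono (inf_le_left (b := GK))).map fun t => w3 ^ t.val).inf1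
    (fun g _ => pow_ne_zero _ w3_ne_zero)
  obtain ⟨y, h3, -, h4⟩ := R.H90_ok.1 N _ _ h1 h2 (fun g hg h hh => by
    rw [ha g hg.1 h hh.1, w3_add, map_pow, mem_GK'.1 hg.2])
  have a1 : a 1 = 0 := by
    have := ha 1 (one_mem _) 1 (one_mem _)
    rw [mul_one] at this
    simpa using this
  have hcy : c y ≠ 0 := (map_ne_zero _).2 h3
  have cube : ∀ t : ZMod 3, (w3 ^ t.val) ^ 3 = 1 := fun t => by
    rw [← pow_mul, mul_comm, pow_mul, w3_cube, one_pow]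
  have h5 : ∀ g ∈ Dec (nv 3 γ) ⊓ GK, g (c y / y) = w3 ^ (a g).val * (c y / y) := by
    intro g hg
    have hm : c⁻¹ * g * c ∈ Dec (nv 3 γ) ⊓ GK :=
      Subgroup.mem_inf.2 ⟨mul_mem (mul_mem (inv_mem hcG) hg.1) hcG, by
        simpa using GK_on.1.conj_mem g hg.2 c⁻¹⟩
    have e1 : a (c⁻¹ * g * c) = a g := by
      have e := ha c⁻¹ (inv_mem hcG) c hcG
      rw [inv_mul_cancel, a1] at e
      rw [ha _ (mul_mem (inv_mem hcG) hg.1) c hcG, ha _ (inv_mem hcG) g hg.1]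
      linear_combination -e
    have e2 : g (c y) = c ((c⁻¹ * g * c) y) := by
      rw [← AlgEquiv.mul_apply, ← AlgEquiv.mul_apply]
      congr 1
      group
    have e3 : c (w3 ^ (a g).val) = (w3 ^ (a g).val) ^ 2 := by
      rw [map_pow, not_mem_GK hc', ← pow_mul, ← pow_mul, mul_comm]
    have e4 : w3 ^ (a g).val ≠ 0 := pow_ne_zero _ w3_ne_zero
    rw [map_div₀, e2, h4 _ hm, h4 g hg, e1, map_mul, e3]
    field_simp
  have h6 : (c y / y) ^ 3 * c ((c y / y) ^ 3) = 1 := by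
    have e := h4 (c * c) ⟨mul_mem hcG hcG, GK_mul hc' hc'⟩
    rw [AlgEquiv.mul_apply] at e
    rw [map_pow, map_div₀, e, div_pow, div_pow, mul_pow, cube]
    field_simp
  have h0 : c y / y ≠ 0 := div_ne_zero hcy h3
  generalize c y / y = y1 at h5 h6 h0
  have h7 : nv 3 γ (y1 ^ 3) = 1 := by
    have e := congrArg (nv 3 γ) h6
    rw [map_mul, hcG, map_one] at e
    have := (nv 3 γ).nonneg (y1 ^ 3)
    nlinarith
  have h8 : nv 3 γ (y1 ^ 3 - 1) * nv 3 γ ((-y1) ^ 3 - 1) < 1 := by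
    have e := hc (y1 ^ 3) h7.le
    have e2 : (y1 ^ 3 - 1) * ((-y1) ^ 3 - 1) = y1 ^ 3 * (c (y1 ^ 3) - y1 ^ 3) := by
      linear_combination -h6
    rwa [← map_mul, e2, map_mul, h7, one_mul]
  by_cases h9 : nv 3 γ (y1 ^ 3 - 1) < 1
  · exact ⟨y1, h0, h5, h6, h9⟩
  · refine ⟨-y1, neg_ne_zero.2 h0, fun g hg => by rw [map_neg, h5 g hg, mul_neg], ?_, ?_⟩
    · rw [show (-y1) ^ 3 = -y1 ^ 3 by ring, map_neg, neg_mul_neg, h6]
    · by_contra h10
      rw [not_lt] at h9 h10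
      nlinarith

/-- an element of norm one is close to a cube root of unity -/
theorem near_SLO3 (γ c : GQ) (hc : c ∈ Ine 3 γ) (hc' : c ∉ GK) (x : Qb)
    (hx : Fix (Dec (nv 3 γ) ⊓ GK) x) (h1 : x * c x = 1) (h2 : nv 3 γ (x - 1) < 1) :
    ∃ j : ℕ, nv 3 γ (x - w3 ^ j) ≤ nv 3 γ (2 * w3 + 1) ^ 3 := by
  have hv := nv_na 3 γ
  have hcG : c ∈ Dec (nv 3 γ) := Ine_le 3 γ hc
  set π : Qb := 2 * w3 + 1 with hπ
  have p2 : nv 3 γ π ^ 2 = 1 / 3 :=
    vsq_SLO3 γ (η := 1) (one_pow 3) (by rw [hπ]; linear_combination 4 * w3_spec)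
  have p0 : 0 ≤ nv 3 γ π := (nv 3 γ).nonneg _
  have π0 : π ≠ 0 := by
    intro e
    rw [e] at p2
    norm_num at p2
  have cπ : c π = -π := by
    rw [hπ, map_add, map_mul, not_mem_GK hc', map_one, map_ofNat]
    linear_combination 2 * w3_spec
  have v1 : nv 3 γ (1 + x) = 1 := by
    have := one_add_SLO3 hv (a := 2) (u := x - 1) (by rwa [v2_SLO3])
    rw [v2_SLO3] at this
    rw [← this]
    congr 1
    ring
  have x1 : 1 + x ≠ 0 := by
    intro e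
    rw [e] at v1
    simp at v1
  have x0 : x ≠ 0 := by
    rintro rfl
    simp at h1
  have cx : c x = x⁻¹ := eq_inv_of_mul_eq_one_right h1
  obtain ⟨s, hs⟩ : ∃ s : Qb, s = (1 - x) / (1 + x) / π := ⟨_, rfl⟩
  have sH : Fix (Dec (nv 3 γ) ⊓ GK) s := fun g hg => by
    rw [hs, hπ]
    simp only [map_div₀, map_sub, map_add, map_mul, map_one, map_ofNat, hx g hg, mem_GK'.1 hg.2]
  have sc : c s = s := by
    have x2 : x + 1 ≠ 0 := by rwa [add_comm]
    rw [hs, map_div₀, map_div₀, map_sub, map_add, map_one, cx, cπ]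
    field_simp
    ring
  have sG : Fix (Dec (nv 3 γ)) s := fun g hg => by
    by_cases h : g ∈ GK
    · exact sH g ⟨hg, h⟩
    · have e := sH (c⁻¹ * g) (Subgroup.mem_inf.2
        ⟨mul_mem (inv_mem hcG) hg, GK_mul (by rwa [GK.inv_mem_iff]) h⟩)
      have e2 : g s = c ((c⁻¹ * g) s) := by
        rw [← AlgEquiv.mul_apply, mul_inv_cancel_left]
      rw [e2, e, sc]
  have e1 : s * π * (1 + x) = 1 - x := by
    rw [hs]
    field_simp
  have e2 : nv 3 γ (s * π) < 1 := by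
    have := congrArg (nv 3 γ) e1
    rw [map_mul, v1, mul_one, (nv 3 γ).map_sub] at this
    rwa [this]
  have fI : ∀ i : ℤ, Fix (Ine 3 γ) (s - i) := fun i g hg => by
    rw [map_sub, sG g (Ine_le 3 γ hg), map_intCast]
  have s1 : nv 3 γ s ≤ 1 := by
    have := (pow3_SLO3 γ (fI 0)).1
    rw [Int.cast_zero, sub_zero] at this
    refine this ?_
    by_contra h
    rw [not_lt] at h
    rw [map_mul] at e2
    nlinarith
  obtain ⟨φ, hφ⟩ := (R.FRO_ok 3 γ).1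
  have e3 := hφ.2 s s1
  rw [sG φ hφ.1] at e3
  have e4 : nv 3 γ (s - (0 : ℤ)) * nv 3 γ (s - (1 : ℤ)) * nv 3 γ (s - (-1 : ℤ)) < 1 := by
    rw [← map_mul, ← map_mul, ← (nv 3 γ).map_neg]
    convert e3 using 2
    push_cast
    ring
  have key : ∀ (i : ℤ) (j : ℕ), w3 ^ j * (1 + i * π) = 1 - i * π → nv 3 γ (s - i) < 1 →
      nv 3 γ (x - w3 ^ j) ≤ nv 3 γ π ^ 3 := by
    intro i j hj hi
    have f1 := (pow3_SLO3 γ (fI i)).2 hi
    have f2 : nv 3 γ (1 + s * π) = 1 := by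
      rw [one_add_SLO3 hv (by rwa [map_one]), map_one]
    have f3 : nv 3 γ (1 + i * π) = 1 := by
      have := int_le_CKUM 3 γ i
      have h0 := (nv 3 γ).nonneg (i : Qb)
      rw [one_add_SLO3 hv (by rw [map_one, map_mul]; nlinarith), map_one]
    have f4 : (x - w3 ^ j) * (1 + s * π) * (1 + i * π) = -(2 * ((s - i) * π)) := by
      linear_combination (1 + i * π) * e1 - (1 + s * π) * hj
    have f5 := congrArg (nv 3 γ) f4
    rw [map_mul, map_mul, f2, f3, mul_one, mul_one, (nv 3 γ).map_neg, map_mul, map_mul, v2_SLO3,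
      one_mul] at f5
    rw [f5, pow_succ, p2]
    exact mul_le_mul_of_nonneg_right f1 p0
  by_cases c0 : nv 3 γ (s - (0 : ℤ)) < 1
  · exact ⟨0, key 0 0 (by simp) c0⟩
  by_cases c1 : nv 3 γ (s - (1 : ℤ)) < 1
  · exact ⟨2, key 1 2 (by rw [hπ]; push_cast; linear_combination (2 * w3) * w3_spec) c1⟩
  refine ⟨1, key (-1) 1 (by rw [hπ]; push_cast; linear_combination (-2) * w3_spec) ?_⟩
  by_contra c2
  rw [not_lt] at c0 c1 c2
  have := one_le_mul_of_one_le_of_one_le (one_le_mul_of_one_le_of_one_le c0 c1) c2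
  linarith

/-- a cube root of an element close to one is fixed by inertia -/
theorem fix_SLO3 (γ τ : GQ) (hτ : τ ∈ Ine 3 γ) (hτ' : τ ∈ GK) (y η : Qb) (hη : η ^ 3 = 1)
    (hy : τ y = η * y) (h : nv 3 γ (y ^ 3 - 1) ≤ nv 3 γ (2 * w3 + 1) ^ 3) : η = 1 := by
  have hv := nv_na 3 γ
  set π : Qb := 2 * w3 + 1 with hπ
  have p2 : nv 3 γ π ^ 2 = 1 / 3 :=
    vsq_SLO3 γ (η := 1) (one_pow 3) (by rw [hπ]; linear_combination 4 * w3_spec)
  have p0 : 0 ≤ nv 3 γ π := (nv 3 γ).nonneg _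
  have π0 : π ≠ 0 := by
    intro e
    rw [e] at p2
    norm_num at p2
  have pp : 0 < nv 3 γ π := (nv 3 γ).pos π0
  have p1 : nv 3 γ π < 1 := by nlinarith
  have h1 : nv 3 γ (y - 1) ≤ nv 3 γ π := by
    by_contra hc
    rw [not_le] at hc
    have e : (y - 1) ^ 3 = (y ^ 3 - 1) + (-(3 * (y - 1) ^ 2) + -(3 * (y - 1))) := by ring
    have e1 := hv (y ^ 3 - 1) (-(3 * (y - 1) ^ 2) + -(3 * (y - 1)))
    have e2 := hv (-(3 * (y - 1) ^ 2)) (-(3 * (y - 1)))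
    rw [(nv 3 γ).map_neg, (nv 3 γ).map_neg, map_mul, map_mul, map_pow, v3_SLO3, ← p2] at e2
    rw [← e, map_pow] at e1
    generalize nv 3 γ (y - 1) = u at *
    generalize nv 3 γ π = p at *
    have u0 : 0 < u := pp.trans hc
    have a1 : p ^ 3 < u ^ 3 := pow_lt_pow_left₀ hc p0 three_ne_zero
    have a2 : p ^ 2 < u ^ 2 := pow_lt_pow_left₀ hc p0 two_ne_zero
    have a3 : p ^ 2 < u := by nlinarith
    have a4 : p ^ 2 * u ^ 2 < u ^ 3 := by nlinarith [pow_pos u0 2]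
    have a5 : p ^ 2 * u < u ^ 3 := by nlinarith
    exact absurd e1 (not_le.2 (max_lt (h.trans_lt a1) (e2.trans_lt (max_lt a4 a5))))
  have h2 : nv 3 γ y = 1 := by
    have := one_add_SLO3 hv (a := 1) (u := y - 1) (by rw [map_one]; exact h1.trans_lt p1)
    rwa [map_one, add_sub_cancel] at this
  have h3 := hτ ((y - 1) / π) (by rw [map_div₀, div_le_one pp]; exact h1)
  have h4 : τ ((y - 1) / π) - (y - 1) / π = (η - 1) * y / π := by
    have : τ π = π := by rw [hπ, map_add, map_mul, mem_GK'.1 hτ', map_one, map_ofNat]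
    rw [map_div₀, map_sub, map_one, hy, this]
    ring
  rw [h4, map_div₀, map_mul, h2, mul_one, div_lt_one pp] at h3
  by_contra hne
  have h5 : η ^ 2 + η + 1 = 0 := by
    have : (η - 1) * (η ^ 2 + η + 1) = 0 := by linear_combination hη
    exact (mul_eq_zero.1 this).resolve_left (sub_ne_zero.2 hne)
  have h6 := vsq_SLO3 γ (x := η - 1) hη (by linear_combination h5)
  have h7 := pow_lt_pow_left₀ h3 ((nv 3 γ).nonneg _) two_ne_zero
  rw [h6, p2] at h7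
  exact lt_irrefl _ h7

theorem key_SLO3 (γ c : GQ) (hc : c ∈ Ine 3 γ) (hc' : c ∉ GK) (z : Qb) (hz : z ^ 3 = w3)
    (a : GQ → ZMod 3) (ha : Adt (Dec (nv 3 γ)) a) (hl : Lc (Dec (nv 3 γ)) a) :
    ∃ j : ZMod 3, ∀ u ∈ Ine 3 γ, a u = j * lg ((u * u) z / z) := by
  obtain ⟨y, h0, h1, h2, h3⟩ := gen_SLO3 γ c hc hc' a ha hl
  have cube : ∀ t : ℕ, (w3 ^ t) ^ 3 = 1 := fun t => by
    rw [← pow_mul, mul_comm, pow_mul, w3_cube, one_pow]
  obtain ⟨j, hj⟩ := near_SLO3 γ c hc hc' (y ^ 3)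
    (fun g hg => by rw [map_pow, h1 g hg, mul_pow, cube, one_mul]) h2 h3
  have z0 : z ≠ 0 := by
    rintro rfl
    exact w3_ne_zero (by rw [← hz]; simp)
  refine ⟨-(j : ZMod 3), fun u hu => ?_⟩
  have hI : u * u ∈ Ine 3 γ := mul_mem hu hu
  have hK : u * u ∈ GK := by
    by_cases h : u ∈ GK
    exacts [mul_mem h h, GK_mul h h]
  have e0 := ha u (Ine_le 3 γ hu) u (Ine_le 3 γ hu)
  generalize u * u = τ at hI hK e0
  have e1 : (τ z / z) ^ 3 = 1 := by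
    rw [div_pow, ← map_pow, hz, mem_GK'.1 hK, div_self w3_ne_zero]
  have e2 := pow_lg e1
  have τz : τ z ≠ 0 := (map_ne_zero _).2 z0
  have e3 := fix_SLO3 γ τ hI hK (y / z ^ j) (w3 ^ (a τ).val / (τ z / z) ^ j)
    (by rw [div_pow, cube, ← pow_mul, mul_comm, pow_mul, e1, one_pow, div_one])
    (by
      rw [map_div₀, map_pow, h1 τ ⟨Ine_le 3 γ hI, hK⟩, div_pow]
      field_simp)
    (by
      have w0 : w3 ^ j ≠ 0 := pow_ne_zero _ w3_ne_zero
      rw [div_pow, ← pow_mul, mul_comm, pow_mul, hz, div_sub_one w0, map_div₀,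
        BValA_root three_ne_zero (cube j), div_one]
      exact hj)
  rw [div_eq_one_iff_eq (pow_ne_zero _ (div_ne_zero τz z0)), ← e2] at e3
  have e4 : ∀ (k : ℕ) (t : ZMod 3), (w3 ^ t.val) ^ k = w3 ^ ((k : ZMod 3) * t).val := by
    intro k t
    induction k with
    | zero => simp
    | succ k ih => rw [pow_succ, ih, Nat.cast_succ, add_mul, one_mul, w3_add]
  rw [e4] at e3
  have e5 := w3_inj e3
  have e6 : (3 : ZMod 3) = 0 := rfl
  linear_combination e0 - e5 + (a u) * e6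

theorem LO3_pf (hKUM : KUM_st) (hKAP : KAP_st) (hLOC : LOC_st) : LO3_st := by
  intro γ a ψ ha hla hψ hlψ ⟨τ, hτ, hne⟩
  obtain ⟨c, hc, hc'⟩ := hLOC.2.2.2 γ
  obtain ⟨z, hz⟩ := IsAlgClosed.exists_pow_nat_eq w3 three_pos
  obtain ⟨j, hj⟩ := key_SLO3 γ c hc hc' z hz a ha hla
  obtain ⟨k, hk⟩ := key_SLO3 γ c hc hc' z hz ψ hψ hlψ
  have k0 : k ≠ 0 := by
    rintro rfl
    exact hne (by rw [hk τ hτ, zero_mul])
  have k1 : k * k = 1 := by
    revert k0
    generalize k = t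
    revert t
    decide
  refine ⟨j * k, fun u hu => ?_⟩
  rw [hj u hu, hk u hu]
  linear_combination (-(j * lg ((u * u) z / z))) * k1

end Pool.Agent.MP_e23604_nt.S
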