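import Pool.Agent.Mg.Fe23604m.Gc4cdb1

set_option linter.all false

section

set_option autoImplicit false

open NumberField IsDedekindDomain Module Filter Topology
open scoped Classical

namespace Pool.Agent.MP_e23604_nt.S

open B R Pool.Agent.MP_f3cd89_nt

theorem ex_STAM (hKAP : KAP_st) (l : ℕ) [hl : Fact l.Prime] (γ : GQ) :
    ∃ τ ∈ Ine l γ, kum l τ ≠ 0 := by
  by_contra h
  push Not at h
  have hl0 : (l : ℚ) ≠ 0 := Nat.cast_ne_zero.2 hl.out.ne_zero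
  obtain ⟨x, hx, e⟩ := ram_a (v := nv l γ) ⊥ (nv_na l γ) hl.out (nv_lt l γ) (y := cbr l)
    fun τ _ hτ => by
      rw [(hKAP.1 l hl0).2.2 τ, h τ hτ, ZMod.val_zero, pow_zero, one_mul]
  obtain ⟨r, rfl⟩ := IntermediateField.mem_bot.1 hx
  have h0 : 0 < nv l γ l := (nv l γ).pos (Nat.cast_ne_zero.2 hl.out.ne_zero)
  have h1 : nv l γ (r : Qb) ^ 3 = nv l γ l := by
    rw [eq_ratCast] at e
    rw [e, ← map_pow, cbr_cube, Rat.cast_natCast]
  have hr : r ≠ 0 := by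
    rintro rfl
    rw [← h1] at h0
    simp at h0
  obtain ⟨m, hm⟩ := v_rat (nv_na l γ) hl.out (nv_lt l γ) hr
  rw [hm, ← zpow_natCast, ← zpow_mul] at h1
  have h2 := zpow_right_injective₀ h0 (nv_lt l γ).ne (h1.trans (zpow_one _).symm)
  omega

theorem adt_STAM (hKAP : KAP_st) {l : ℕ} [hl : Fact l.Prime] (γ : GQ) (h3 : l ≠ 3) :
    Adt (Ine l γ) (kum l) := fun g hg j _ => by
  rw [(hKAP.1 l (Nat.cast_ne_zero.2 hl.out.ne_zero)).1 g trivial j trivial,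
    ep_pos (Ine_GK γ h3 hg), one_mul]

theorem hom_STAM {l : ℕ} [hl : Fact l.Prime] {γ : GQ} (h2 : l ≠ 3) {M : Type} [AddCommGroup M]
    {b : GQ → M} {e : ℕ} {N : Subgroup GQ} (h1 : Adt (Ine l γ) b) (hc : Cst N (Ine l γ) b)
    (he : ∀ u ∈ Ine l γ, 3 ^ e • b u = 0) :
    ∃ F : (cen l γ).inertia GQ →* Multiplicative M, (∀ u, F u = Multiplicative.ofAdd (b u)) ∧
      (∀ u, F u ^ 3 ^ e = 1) ∧
      ∀ (u : (cen l γ).inertia GQ) (n : ℕ), (u : GQ) ^ l ^ n ∈ N → F u = 1 := by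
  let F : (cen l γ).inertia GQ →* Multiplicative M :=
    MonoidHom.mk' (fun u => Multiplicative.ofAdd (b u)) fun u v => by
      rw [← ofAdd_add, ← h1 _ (ine_iff.2 u.2) _ (ine_iff.2 v.2)]
      rfl
  have hF : ∀ u, F u = Multiplicative.ofAdd (b u) := fun _ => rfl
  have hp : ∀ u, F u ^ 3 ^ e = 1 := fun u => by
    rw [hF, ← ofAdd_nsmul, he _ (ine_iff.2 u.2), ofAdd_zero]
  refine ⟨F, hF, hp, fun u n hn => ?_⟩
  have h3 : F (u ^ l ^ n) = F 1 := by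
    rw [hF, hF]
    congr 1
    exact (hc _ (one_mem _) _ (ine_iff.2 (u ^ l ^ n).2) (by simpa using hn)).symm
  rw [map_pow, map_one] at h3
  exact MP_f68ac8_nt.eq_one_of_pow_of_coprime
    (Nat.Coprime.pow e n ((Nat.coprime_primes Nat.prime_three hl.out).2 h2.symm)) (hp u) h3

theorem TAM_pf (hKAP : KAP_st) : TAM_st := by
  intro l hl γ h2
  have hA := adt_STAM hKAP γ h2
  refine ⟨Ine_GK γ h2, ?_, fun τ hτ hk M _ a e ha hc he h0 u hu => ?_⟩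
  · obtain ⟨τ, hτ, hk⟩ := ex_STAM hKAP l γ
    rcases z3 (kum l τ) with h | h | h
    · exact absurd h hk
    · exact ⟨τ, hτ, h⟩
    · refine ⟨τ * τ, mul_mem hτ hτ, ?_⟩
      rw [hA τ hτ τ hτ, h]
      rfl
  obtain ⟨N, hN, hc⟩ := hc
  obtain ⟨N', hN', hc'⟩ := (hKAP.1 l (Nat.cast_ne_zero.2 hl.out.ne_zero)).2.1
  obtain ⟨F, hF, hp, hz⟩ := hom_STAM h2 ha hc he
  obtain ⟨K, hK, hq, hy⟩ := hom_STAM (e := 1) h2 hA
    (hc'.mono le_rfl le_top) fun v _ => by generalize kum l v = x; revert x; decide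
  obtain ⟨L, _, _, hL⟩ := MP_f68ac8_nt.exists_level ((hN.inf hN').2.mem_nhds (one_mem _))
  obtain ⟨C, _, _, Θ, h1, -⟩ := MP_f68ac8_nt.level_theta L (cen l γ) hl.out (cen_mem l γ)
  obtain ⟨⟨_, u₀, rfl⟩, h₀⟩ := IsCyclic.exists_generator (α := Θ.range)
  have key : ∀ v, ∃ n : ℤ, F v = F u₀ ^ n ∧ K v = K u₀ ^ n := fun v => by
    obtain ⟨n, hn⟩ := h₀ ⟨_, v, rfl⟩
    have hn' : Θ u₀ ^ n = Θ v := congrArg Subtype.val hn
    obtain ⟨c, hc⟩ := h1 (v * (u₀ ^ n)⁻¹) (by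
      rw [map_mul, map_inv, map_zpow, hn', mul_inv_cancel])
    have h3 := hL _ hc
    have h4 := hz _ c h3.1
    have h5 := hy _ c h3.2
    rw [map_mul, map_inv, map_zpow, mul_inv_eq_one] at h4 h5
    exact ⟨n, h4, h5⟩
  obtain ⟨j, hj, hj'⟩ := key ⟨τ, ine_iff.1 hτ⟩
  have hodd : ¬ (3 : ℤ) ∣ j := by
    rintro ⟨i, rfl⟩
    have h3 : K u₀ ^ (3 : ℤ) = 1 := by
      have := hq u₀
      rw [pow_one] at this
      exact_mod_cast this
    rw [hK, zpow_mul, h3, one_zpow] at hj'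
    exact hk hj'
  have h3 : F u₀ = 1 := by
    rw [hF] at hj
    change Multiplicative.ofAdd (a τ) = _ at hj
    rw [h0, ofAdd_zero] at hj
    refine MP_f68ac8_nt.eq_one_of_pow_of_coprime (n := j.natAbs)
      (Nat.Coprime.pow_left e ((Nat.Prime.coprime_iff_not_dvd Nat.prime_three).2 fun h =>
        hodd (Int.natCast_dvd.2 h))) (hp u₀) ?_
    exact pow_natAbs_eq_one.2 hj.symm
  obtain ⟨n, hn, -⟩ := key ⟨u, ine_iff.1 hu⟩
  rw [h3, one_zpow, hF] at hn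
  exact hn

end Pool.Agent.MP_e23604_nt.S

end

section

set_option autoImplicit false

open NumberField IsDedekindDomain Module Filter Topology
open scoped Classical

namespace Pool.Agent.MP_e23604_nt.S

open B R Pool.Agent.MP_f3cd89_nt

theorem root_SKUM (v : AbsoluteValue Qb ℝ) {z : Qb} (h : z ^ 3 = 1) (h1 : z ≠ 1) :
    v (z - 1) ^ 2 = v 3 := by
  have h2 : z ^ 2 + z + 1 = 0 := mul_left_cancel₀ (sub_ne_zero.2 h1) (by linear_combination h)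
  have h3 : v z = 1 := by
    refine (pow_eq_one_iff_of_nonneg (v.nonneg z) three_ne_zero).1 ?_
    rw [← map_pow, h, map_one]
  rw [← map_pow, show (z - 1) ^ 2 = -(3 * z) by linear_combination h2, v.map_neg, map_mul, h3,
    mul_one]

theorem one_SKUM (l : ℕ) [Fact l.Prime] (γ : GQ) (H : Subgroup GQ) (x : Qb)
    (hH : H ≤ Dec (nv l γ)) (hx : Fix H x) (hv : nv l γ (x - 1) ^ 2 < nv l γ 27) :
    ∃ s, s ^ 3 = x ∧ Fix H s := by
  have t1 : nv l γ 3 ≤ 1 := by simpa using int_le_CKUM l γ 3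
  have t0 := (nv l γ).nonneg 3
  obtain ⟨s, hs, h1⟩ : ∃ s, s ^ 3 = x ∧ nv l γ (s - 1) ^ 2 < nv l γ 3 := by
    by_contra hc
    push Not at hc
    obtain ⟨s, hs⟩ := IsAlgClosed.exists_pow_nat_eq x three_pos
    have a1 := hc s hs
    have a2 := hc (w3 * s) (by rw [mul_pow, w3_cube, one_mul, hs])
    have a3 := hc (w3 ^ 2 * s) (by
      rw [mul_pow, ← pow_mul, mul_comm 2, pow_mul, w3_cube, one_pow, one_mul, hs])
    have e : x - 1 = (s - 1) * (w3 * s - 1) * (w3 ^ 2 * s - 1) := by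
      linear_combination (-1 : Qb) * hs + (s ^ 2 - s ^ 3) * w3_cube + (s ^ 2 - s) * w3_spec
    rw [e, show (27 : Qb) = 3 * 3 * 3 by norm_num, map_mul, map_mul, map_mul, map_mul, mul_pow,
      mul_pow] at hv
    exact absurd hv (not_lt.2 (mul_le_mul (mul_le_mul a1 a2 t0 (sq_nonneg _)) a3 t0
      (by positivity)))
  refine ⟨s, hs, fun g hg => ?_⟩
  have h2 : nv l γ (s - 1) < 1 := by
    by_contra hc
    nlinarith [not_lt.1 hc]
  have h3 : 1 ≤ nv l γ s := by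
    have h4 := nv_na l γ s (-(s - 1))
    rw [(nv l γ).map_neg, show s + -(s - 1) = 1 by ring, map_one] at h4
    exact (le_max_iff.1 h4).resolve_right (not_le.2 h2)
  have h0 : s ≠ 0 := by
    rintro rfl
    rw [map_zero] at h3
    linarith
  by_contra hne
  have h5 := root_SKUM (nv l γ) (z := g s / s)
    (by rw [div_pow, ← map_pow, hs, hx g hg, ← hs, div_self (pow_ne_zero _ h0)])
    (fun e => hne ((div_eq_one_iff_eq h0).1 e))
  have h6 : nv l γ (g s - 1) = nv l γ (s - 1) := by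
    rw [← hH hg (s - 1), map_sub g, map_one g]
  have h7 := nv_na l γ (g s - 1) (-(s - 1))
  rw [(nv l γ).map_neg, h6, max_self,
    show g s - 1 + -(s - 1) = (g s / s - 1) * s by field_simp; ring, map_mul] at h7
  have h8 := (nv l γ).nonneg (g s / s - 1)
  have h9 : nv l γ (g s / s - 1) ≤ nv l γ (s - 1) := (le_mul_of_one_le_right h8 h3).trans h7
  exact absurd h1 (not_lt.2 (h5 ▸ pow_le_pow_left₀ h8 h9 2))

theorem two_SKUM (l : ℕ) [Fact l.Prime] (γ : GQ) (a : GQ → ZMod 3) (ha : Tdt (Dec (nv l γ)) a)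
    (hl : Lc (Dec (nv l γ)) a) : ∃ (r : ℚ) (ρ : Qb), r ≠ 0 ∧ ρ ^ 3 = r ∧
      ∀ g ∈ Dec (nv l γ), g ρ = w3 ^ (a g).val * ρ := by
  obtain ⟨N, n1, n2⟩ := (hl.map fun t => w3 ^ t.val).inf1 fun g _ => pow_ne_zero _ w3_ne_zero
  obtain ⟨y, h0, -, h2⟩ := R.H90_ok.1 N _ _ n1 n2 fun g hg h hh => by
    rw [ha g hg h hh, w3_add, act_w3]
  have h1 : Fix (Dec (nv l γ)) (y ^ 3) := fun g hg => by
    rw [map_pow, h2 g hg, mul_pow, ← pow_mul, mul_comm _ 3, pow_mul, w3_cube, one_pow, one_mul]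
  have hy : 0 < nv l γ (y ^ 3) := (nv l γ).pos (pow_ne_zero _ h0)
  have h4 : 0 < nv l γ 27 := (nv l γ).pos (by norm_num)
  have h41 : nv l γ 27 ≤ 1 := by simpa using int_le_CKUM l γ 27
  obtain ⟨z, h5, h6⟩ := R.DEN_ok l γ ⊤ (y ^ 3) (nv l γ 27 * nv l γ (y ^ 3)) isOpen_univ
    (fun g hg => h1 g hg.1) (mul_pos h4 hy)
  obtain ⟨r, rfl⟩ := rat_CKUM z h5
  have hr : r ≠ 0 := by
    rintro rfl
    rw [Rat.cast_zero, sub_zero] at h6
    nlinarith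
  have h7 : nv l γ ((r : Qb) / y ^ 3 - 1) < nv l γ 27 := by
    rw [div_sub_one (pow_ne_zero _ h0), map_div₀, div_lt_iff₀ hy, ← (nv l γ).map_neg, neg_sub]
    exact h6
  obtain ⟨s, s1, s2⟩ := one_SKUM l γ _ ((r : Qb) / y ^ 3) le_rfl
    (fun j hj => by rw [map_div₀, h1 j hj, h5 j trivial])
    (by nlinarith [(nv l γ).nonneg ((r : Qb) / y ^ 3 - 1)])
  refine ⟨r, s * y, hr, by rw [mul_pow, s1, div_mul_cancel₀ _ (pow_ne_zero _ h0)], fun g hg => ?_⟩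
  rw [map_mul, s2 g hg, h2 g hg, mul_left_comm]

theorem eq_SKUM (hKAP : KAP_st) {r r' : ℚ} (hr : r ≠ 0) (hr' : r' ≠ 0) {u : Qb}
    (hu : u ^ 3 * r' = r) {g : GQ} (hg : g ∈ GK) (h : g u = u) : kum r g = kum r' g := by
  obtain ⟨t, ht⟩ := hKAP.2.1 r (u * cbr r') hr (by rw [mul_pow, cbr_cube, hu])
  have h1 := ht g
  rw [ep_pos hg, sub_self, zero_mul, add_zero, map_mul, h, (hKAP.1 r' hr').2.2 g,
    mul_left_comm] at h1
  have h0 : u * cbr r' ≠ 0 := fun e => hr (by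
    have : ((r : ℚ) : Qb) = 0 := by rw [← hu, ← cbr_cube, ← mul_pow, e, zero_pow three_ne_zero]
    exact_mod_cast this)
  exact (w3_inj (mul_right_cancel₀ h0 h1)).symm

theorem res_SKUM (w : ℤ) (hw : ¬ 3 ∣ w) : ∃ j : ℕ, ∀ m : ℤ,
    (m % 9 = 2 ^ j % 9 ∨ (-m) % 9 = 2 ^ j % 9) →
      m ≠ 0 ∧ ∃ e k : ℤ, e ^ 2 = 1 ∧ e * (w * m ^ 2) - 1 = 9 * k := by
  obtain ⟨j, hj⟩ : ∃ j : ℕ, (2 : ℤ) ^ j % 9 = w % 9 := by
    have : w % 9 = 1 ∨ w % 9 = 2 ∨ w % 9 = 4 ∨ w % 9 = 8 ∨ w % 9 = 7 ∨ w % 9 = 5 := by omega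
    rcases this with h | h | h | h | h | h <;> rw [h]
    exacts [⟨0, rfl⟩, ⟨1, rfl⟩, ⟨2, rfl⟩, ⟨3, rfl⟩, ⟨4, rfl⟩, ⟨5, rfl⟩]
  refine ⟨j, fun m hm => ?_⟩
  rw [hj] at hm
  refine ⟨by omega, ?_⟩
  have h1 : (w * m ^ 2) % 9 = 1 ∨ (w * m ^ 2) % 9 = 8 := by
    rw [Int.mul_emod, pow_two, Int.mul_emod m m]
    have : w % 9 = 1 ∨ w % 9 = 2 ∨ w % 9 = 4 ∨ w % 9 = 8 ∨ w % 9 = 7 ∨ w % 9 = 5 := by omega
    have h2 : m % 9 = w % 9 ∨ m % 9 = 9 - w % 9 := by omega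
    rcases h2 with h2 | h2 <;> rw [h2] <;> rcases this with h | h | h | h | h | h <;> rw [h] <;>
      decide
  generalize w * m ^ 2 = n at h1
  rcases h1 with h | h
  · exact ⟨1, n / 9, rfl, by omega⟩
  · exact ⟨-1, -(n / 9) - 1, rfl, by omega⟩

theorem three_SKUM (hKAP : KAP_st) (γ : GQ) (r : ℚ) (hr : r ≠ 0) :
    ∃ i j : ℕ, ∀ m : ℤ, (m % 9 = 2 ^ j % 9 ∨ (-m) % 9 = 2 ^ j % 9) →
      ∀ g ∈ Dec (nv 3 γ) ⊓ GK, kum r g = kum (3 ^ i * m) g := by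
  have hn : r.num * r.den ^ 2 ≠ 0 :=
    mul_ne_zero (Rat.num_ne_zero.2 hr) (pow_ne_zero _ (by exact_mod_cast r.den_nz))
  obtain ⟨i, w, h1, h2⟩ := WfDvdMonoid.max_power_factor hn Int.prime_three.irreducible
  obtain ⟨j, hj⟩ := res_SKUM w h1
  refine ⟨i, j, fun m hm g hg => ?_⟩
  obtain ⟨m0, e, k, e1, e2⟩ := hj m hm
  have t0 : 0 < nv 3 γ 3 := (nv 3 γ).pos (by norm_num)
  have t1 : nv 3 γ 3 < 1 := by simpa using nv_lt 3 γ
  obtain ⟨s, s1, s2⟩ := one_SKUM 3 γ _ ((e * (w * m ^ 2) : ℤ) : Qb) le_rfl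
    (fun j _ => map_intCast j _) (by
      have e3 : ((e * (w * m ^ 2) : ℤ) : Qb) - 1 = 3 * 3 * (k : Qb) := by
        have := congrArg (Int.cast : ℤ → Qb) e2
        push_cast at this ⊢
        linear_combination this
      have h6 := int_le_CKUM 3 γ k
      have h7 := (nv 3 γ).nonneg (k : Qb)
      rw [e3, show (27 : Qb) = 3 * 3 * 3 by norm_num, map_mul, map_mul, map_mul, map_mul]
      generalize nv 3 γ 3 = t at *
      calc (t * t * nv 3 γ (k : Qb)) ^ 2 ≤ (t * t * 1) ^ 2 := by gcongr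
        _ = t * t * t * t := by ring
        _ < t * t * t := mul_lt_of_lt_one_right (by positivity) t1)
  have m1 : (m : Qb) ≠ 0 := by exact_mod_cast m0
  have d1 : (r.den : Qb) ≠ 0 := by exact_mod_cast r.den_nz
  refine eq_SKUM hKAP hr (mul_ne_zero (pow_ne_zero _ three_ne_zero) (by exact_mod_cast m0))
    (u := e * s / (m * r.den)) ?_ hg.2 ?_
  · have a1 := congrArg (Int.cast : ℤ → Qb) h2
    have a2 := congrArg (Int.cast : ℤ → Qb) e1
    have a3 : (r : Qb) * r.den = r.num := by exact_mod_cast Rat.mul_den_eq_num r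
    rw [div_pow, mul_pow, s1, div_mul_eq_mul_div, div_eq_iff (pow_ne_zero _ (mul_ne_zero m1 d1))]
    push_cast at a1 a2 ⊢
    linear_combination (3 ^ i * w * (m : Qb) ^ 3 * (e ^ 2 + 1)) * a2 - (m : Qb) ^ 3 * a1 -
      (m : Qb) ^ 3 * (r.den : Qb) ^ 2 * a3
  · rw [map_div₀, map_mul, map_mul, s2 g hg.1, map_intCast, map_intCast, map_natCast]

theorem KUM_pf (hKAP : KAP_st) : KUM_st :=
  ⟨fun l _ γ H x => one_SKUM l γ H x, fun l _ γ a => two_SKUM l γ a, three_SKUM hKAP⟩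

end Pool.Agent.MP_e23604_nt.S

end
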