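import Pool.Agent.Mg.Fe23604m.Gc4cdb1

set_option linter.all false

section

set_option autoImplicit false

open NumberField IsDedekindDomain Module Filter Topology
open scoped Classical

namespace Pool.Agent.MP_e23604_nt.S

open B R Pool.Agent.MP_f3cd89_nt

theorem cob_SAQW {H : Subgroup GQ} {c : GQ → GQ → ZMod 3} {β : GQ → ZMod 3} (h1 : Lc H β)
    (h2 : ∀ g ∈ H, ∀ h ∈ H, β g + ep g * β h = c g h + β (g * h)) :
    Cob H fun g h => w3 ^ (c g h).val :=
  cob_of_lc (β := fun g => w3 ^ (β g).val) (h1.map fun a => w3 ^ a.val)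
    (fun _ _ => pow_ne_zero _ w3_ne_zero) fun g hg h hh => by
      rw [act_w3, ← w3_add, ← w3_add, h2 g hg h hh]

theorem back_SAQW {H : Subgroup GQ} {c : GQ → GQ → ZMod 3} {β : GQ → Qb} (h1 : Lc H β)
    (h2 : ∀ g ∈ H, β g ^ 3 = 1) (h3 : Bd H (fun g h => w3 ^ (c g h).val) β) : Bd3 true H c :=
  ⟨fun g => lg (β g), h1.map lg, fun g hg h hh => w3_inj (by
    rw [w3_add, w3_add, sg_true, ← act_w3, pow_lg (h2 g hg), pow_lg (h2 h hh),
      pow_lg (h2 _ (H.mul_mem hg hh))]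
    exact h3 g hg h hh)⟩

theorem coc_SAQW {H : Subgroup GQ} {c : GQ → GQ → ZMod 3}
    (h : ∀ g ∈ H, ∀ h j, c g h + c (g * h) j = ep g * c h j + c g (h * j)) :
    Coc H fun g h => w3 ^ (c g h).val := fun g hg i _ j _ => by
  rw [act_w3, ← w3_add, ← w3_add, h g hg i j]

theorem inf_SAQW {N : Subgroup GQ} {c : GQ → GQ → ZMod 3} (h1 : ∀ g, Cst N ⊤ (c g))
    (h2 : ∀ h, Cst N ⊤ fun g => c g h) : Inf2 (N ⊓ GK) ⊤ fun g h => w3 ^ (c g h).val := by
  refine ⟨fun g _ x hx y hy e => ?_, fun g _ x hx y hy e => ?_, fun g _ h _ =>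
    ⟨pow_ne_zero _ w3_ne_zero, fun n hn => ?_⟩⟩
  · exact congrArg (fun a : ZMod 3 => w3 ^ a.val) (h1 g x hx y hy e.1)
  · exact congrArg (fun a : ZMod 3 => w3 ^ a.val) (h2 g x hx y hy e.1)
  · rw [map_pow, mem_GK'.1 hn.2]

theorem cube_SAQW (a : ZMod 3) : (w3 ^ a.val) ^ 3 = 1 := by
  rw [← pow_mul, mul_comm, pow_mul, w3_cube, one_pow]

theorem conj_SAQW {N H H' : Subgroup GQ} {c : GQ → GQ → ZMod 3} (g : GQ) (hN : ON N)
    (hc : ∀ g h j, c g h + c (g * h) j = c h j + c g (h * j)) (h1 : ∀ g, Cst N ⊤ (c g))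
    (h2 : ∀ h, Cst N ⊤ fun g => c g h) (h : ∀ x ∈ H', g * x * g⁻¹ ∈ H) (hb : Bd3 false H c) :
    Bd3 false H' c := by
  obtain ⟨β, b1, b2⟩ := hb
  refine ⟨fun x => β (g * x * g⁻¹) + c g x - c (g * x * g⁻¹) g,
    ((lc_CONJ b1 h).map₂ (Lc.mono ⟨N, hN, h1 g⟩ le_top) (· + ·)).map₂
      (lc_CONJ (H := ⊤) (g := g) ⟨N, hN, h2 g⟩ fun _ _ => trivial) (· - ·), fun x hx y hy => ?_⟩
  have k0 := b2 _ (h x hx) _ (h y hy)
  have k1 := hc g x y
  have k2 := hc (g * x * g⁻¹) g y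
  have k3 := hc (g * x * g⁻¹) (g * y * g⁻¹) g
  rw [inv_mul_cancel_right] at k2 k3
  rw [show g * x * g⁻¹ * (g * y * g⁻¹) = g * (x * y) * g⁻¹ by group] at k0 k3
  simp only [sg_false, one_mul] at k0 ⊢
  linear_combination k0 + k1 - k2 + k3

theorem tr_SAQW {N : Subgroup GQ} {c : GQ → GQ → ZMod 3} {β : GQ → ZMod 3} (hN : ON N)
    (hc : ∀ g h j, c g h + c (g * h) j = c h j + c g (h * j)) (h1 : ∀ g, Cst N ⊤ (c g))
    (h2 : ∀ h, Cst N ⊤ fun g => c g h) (b1 : Lc GK β)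
    (b2 : ∀ g ∈ GK, ∀ h ∈ GK, β g + β h = c g h + β (g * h)) : Bd3 false ⊤ c := by
  by_cases hs : ∀ s, s ∈ GK
  · exact ⟨β, b1.mono fun s _ => hs s, fun g _ h _ => by
      rw [sg_false, one_mul]
      exact b2 g (hs g) h (hs h)⟩
  obtain ⟨s, hs⟩ := not_forall.1 hs
  have hs' : s⁻¹ ∉ GK := by rwa [GK.inv_mem_iff]
  obtain ⟨r, r1, r2, r3⟩ : ∃ r : GQ → GQ, (∀ x, x * (r x)⁻¹ ∈ GK) ∧
      (∀ h ∈ GK, ∀ x, r (h * x) = r x) ∧ ∀ x y, x⁻¹ * y ∈ GK → r x = r y := by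
    refine ⟨fun x => if x ∈ GK then 1 else s, fun x => ?_, fun h hh x => ?_, fun x y e => ?_⟩
    · by_cases hx : x ∈ GK
      · simpa only [if_pos hx, inv_one, mul_one] using hx
      · simpa only [if_neg hx] using GK_mul hx hs'
    · simp only [GK.mul_mem_cancel_left hh]
    · have e1 : x ∈ GK ↔ y ∈ GK := by
        rw [← GK.mul_mem_cancel_right (y := x) e, mul_inv_cancel_left]
      simp only [e1]
  obtain ⟨P, p1, p2⟩ : ∃ P : GQ → ZMod 3, (∀ h ∈ GK, ∀ x, P (h * x) = β h + P x - c h x) ∧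
      ∃ M, ON M ∧ ∀ x y, x⁻¹ * y ∈ M → P x = P y := by
    obtain ⟨M, m1, m2⟩ := b1
    refine ⟨fun x => β (x * (r x)⁻¹) - c (x * (r x)⁻¹) (r x), fun h hh x => ?_,
      N ⊓ GK ⊓ M, (hN.inf GK_on).inf m1, fun x y e => ?_⟩
    · have k1 := b2 h hh _ (r1 x)
      have k2 := hc h (x * (r x)⁻¹) (r x)
      rw [inv_mul_cancel_right] at k2
      simp only [r2 h hh x, mul_assoc]
      linear_combination -k1 - k2
    · have e1 := r3 x y e.1.2
      have e2 : (x * (r x)⁻¹)⁻¹ * (y * (r y)⁻¹) = r x * (x⁻¹ * y) * (r x)⁻¹ := by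
        rw [← e1]
        group
      have k1 := m2 _ (r1 x) _ (r1 y) (by rw [e2]; exact m1.1.conj_mem _ e.2 _)
      have k2 : c (x * (r x)⁻¹) (r y) = c (y * (r y)⁻¹) (r y) :=
        h2 (r y) _ trivial _ trivial (by rw [e2]; exact hN.1.conj_mem _ e.1.1 _)
      simp only [k1]
      rw [← k2, e1]
  obtain ⟨M, m1, m2⟩ := p2
  have f1 : ∀ h ∈ GK, ∀ x g, c (h * x) g + P (h * x * g) - P (h * x) =
      c x g + P (x * g) - P x := fun h hh x g => by
    rw [mul_assoc, p1 h hh, p1 h hh]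
    linear_combination hc h x g
  have l1 : ∀ t, Lc ⊤ fun g => c t g + P (t * g) - P t := fun t =>
    (Lc.map₂ (f' := fun g => P (t * g)) ⟨N, hN, h1 t⟩ ⟨M, m1, fun x _ y _ e => m2 _ _ (by
      rwa [mul_inv_rev, mul_assoc, inv_mul_cancel_left])⟩ fun a b => a + b - P t)
  refine ⟨fun g => -((c 1 g + P (1 * g) - P 1) + (c s g + P (s * g) - P s)),
    (l1 1).map₂ (l1 s) fun a b => -(a + b), fun g _ j _ => ?_⟩
  have k1 := hc 1 g j
  have k2 := hc s g j
  have k3 : (3 : ZMod 3) = 0 := rfl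
  simp only [sg_false, one_mul] at k1 ⊢
  by_cases hg : g ∈ GK
  · have e1 := f1 g hg 1 j
    have e2 := f1 (s * g * s⁻¹) (GK_on.1.conj_mem g hg s) s j
    rw [inv_mul_cancel_right, mul_assoc] at e2
    simp only [mul_one, one_mul] at e1
    linear_combination e1 + e2 - k1 - k2 - c g j * k3
  · have e1 := f1 (g * s⁻¹) (GK_mul hg hs') s j
    have e2 := f1 (s * g) (GK_mul hs hg) 1 j
    rw [inv_mul_cancel_right] at e1
    simp only [mul_one, one_mul, mul_assoc] at e2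
    linear_combination e1 + e2 - k1 - k2 - c g j * k3

theorem AQW_pf (hAQ : AQ_st) : AQW_st := by
  intro b N c hN hc h1 h2 hl
  have hL : Lp 3 (N ⊓ GK) GK := hN.inf (Lp.self 3 GK_on)
  cases b
  · have hc' : ∀ g h j, c g h + c (g * h) j = c h j + c g (h * j) := fun g h j => by
      have := hc g h j
      rwa [sg_false, one_mul] at this
    obtain ⟨β, b1, b2, b3⟩ := hAQ.1 (N ⊓ GK) (fun g h => w3 ^ (c g h).val) hL inf_le_right
      (coc_SAQW fun g hg h j => by rw [ep_pos hg, one_mul, hc'])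
      ((inf_SAQW h1 h2).mono le_rfl le_top) (fun _ _ _ _ => cube_SAQW _) fun l _ γ => by
        refine (hl l).imp (fun h => ?_) fun h => le_inf (h γ) inf_le_right
        obtain ⟨β, b1, b2⟩ := conj_SAQW (H' := Dec (nv l γ)) γ hN.1 hc' h1 h2
          (fun x hx => (mem_Dec_conj l 1 γ x).1 (by rwa [one_mul])) h
        refine cob_SAQW (b1.mono inf_le_left) fun g hg j hj => ?_
        rw [ep_pos hg.2]
        exact b2 g hg.1 j hj.1
    obtain ⟨β', b4, b5⟩ := back_SAQW b1 b2 b3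
    refine tr_SAQW hN.1 hc' h1 h2 b4 fun g hg h hh => ?_
    have := b5 g hg h hh
    rwa [sg_pos _ hg, one_mul] at this
  · obtain ⟨β, b1, b2, b3⟩ := hAQ.2 (N ⊓ GK) (fun g h => w3 ^ (c g h).val) hL
      (coc_SAQW fun g _ h j => hc g h j) (inf_SAQW h1 h2) (fun _ _ => cube_SAQW _) fun l _ =>
        (hl l).imp (fun ⟨_, b1, b2⟩ => (cob_SAQW b1 b2).mono inf_le_left)
          fun h γ => le_inf (h γ) inf_le_right
    exact back_SAQW b1 (fun g _ => b2 g) b3

end Pool.Agent.MP_e23604_nt.S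

end

section

set_option autoImplicit false

open NumberField IsDedekindDomain Module Filter Topology
open scoped Classical

namespace Pool.Agent.MP_e23604_nt.S

open B R Pool.Agent.MP_f3cd89_nt

theorem three_SRC3 : (3 : ZMod 3) = 0 := rfl

theorem ker_SRC3 {b : Bool} {f : GQ → ZMod 3} (h : Tl b ⊤ f) :
    ∃ N, Lp 3 N GK ∧ Cst N ⊤ f ∧ ∀ g ∈ GK, f g = 0 → g ∈ N := by
  obtain ⟨N, h1, h2⟩ := h.ker
  refine ⟨N, ⟨h1, fun g hg => ⟨1, (h2 _).2 ⟨GK.pow_mem hg _, ?_⟩⟩⟩, fun g _ j _ e => ?_,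
    fun g hg e => (h2 g).2 ⟨hg, e⟩⟩
  · rw [pow_one, pow_succ, pow_two, h.1 _ trivial _ trivial, h.1 _ trivial _ trivial,
      sg_pos b hg, sg_pos b (GK.mul_mem hg hg)]
    linear_combination f g * three_SRC3
  · have := h.1 g trivial _ (trivial : g⁻¹ * j ∈ ⊤)
    rw [mul_inv_cancel_left, ((h2 _).1 e).2, mul_zero, add_zero] at this
    exact this.symm

/-- adding a cup product to a cocycle -/
theorem cup_SRC3 {N : Subgroup GQ} {c : GQ → GQ → ZMod 3} {ψ κ : GQ → ZMod 3} (hN : Lp 3 N GK)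
    (hc : ∀ g h j, c g h + c (g * h) j = ep g * c h j + c g (h * j)) (c1 : ∀ g, Cst N ⊤ (c g))
    (c2 : ∀ h, Cst N ⊤ fun g => c g h) (hψ : Tl false ⊤ ψ) (hκ : Tl true ⊤ κ) :
    ∃ M, Lp 3 M GK ∧ Coc ⊤ (fun g h => w3 ^ (c g h + ψ h * κ g).val) ∧
      Inf2 M ⊤ (fun g h => w3 ^ (c g h + ψ h * κ g).val) ∧
      ∀ g ∈ N, g ∈ GK → ψ g = 0 → κ g = 0 → g ∈ M := by
  obtain ⟨N1, a1, a2, a3⟩ := ker_SRC3 hψ
  obtain ⟨N2, b1, b2, b3⟩ := ker_SRC3 hκ
  refine ⟨N ⊓ N1 ⊓ N2 ⊓ GK, ((hN.inf a1).inf b1).inf (Lp.self 3 GK_on),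
    coc_SAQW (c := fun g h => c g h + ψ h * κ g) fun g _ h j => ?_,
    inf_SAQW (c := fun g h => c g h + ψ h * κ g) (fun g x _ y _ e => ?_) fun h x _ y _ e => ?_,
    fun g h1 h2 h3 h4 => ⟨⟨⟨h1, a3 g h2 h3⟩, b3 g h2 h4⟩, h2⟩⟩
  · rw [hψ.1 h trivial j trivial, hκ.1 g trivial h trivial, sg_true, sg_false]
    linear_combination hc g h j
  · simp only [c1 g x trivial y trivial e.1.1, a2 x trivial y trivial e.1.2]
  · have := c2 h x trivial y trivial e.1.1
    simp only at this ⊢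
    rw [this, b2 x trivial y trivial e.2]

/-- the cocycle of a cube root -/
theorem kc_SRC3 (hKAP : KAP_st) {r : ℚ} {z : Qb} {κ : GQ → ZMod 3} (hr : r ≠ 0) (hz : z ^ 3 = r)
    (hκ : ∀ g : GQ, g z = w3 ^ (κ g).val * z) : Tl true ⊤ κ ∧
      ∀ (q : ℕ) [Fact q.Prime] (γ : GQ), q ≠ 3 → padicValRat q r = 0 → ∀ τ ∈ Ine q γ, κ τ = 0 := by
  have z0 : z ≠ 0 := by
    rintro rfl
    rw [zero_pow three_ne_zero] at hz
    exact hr (by exact_mod_cast hz.symm)
  obtain ⟨t, ht⟩ := hKAP.2.1 r z hr hz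
  have e : ∀ g, κ g = kum r g + (ep g - 1) * t := fun g =>
    w3_inj (mul_right_cancel₀ z0 ((hκ g).symm.trans (ht g)))
  refine ⟨⟨fun g _ h _ => ?_, ?_⟩, fun q _ γ h3 hv τ hτ => ?_⟩
  · rw [e, e, e, (hKAP.1 r hr).1 g trivial h trivial, ep_mul, sg_true]
    ring
  · rw [funext e]
    exact (hKAP.1 r hr).2.1.map₂ ep_lc fun a b => a + (b - 1) * t
  · rw [e, hKAP.2.2.2.2.1 q γ r h3 hr τ hτ, hv, ep_pos (Ine_GK γ h3 hτ)]
    simp

theorem eq_SRC3 {l : ℕ} [Fact l.Prime] {γ φ : GQ} (hφ : Frob l γ φ) {a b : GQ → ZMod 3}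
    (a1 : Adt (Dec (nv l γ)) a) (a2 : Lc (Dec (nv l γ)) a) (a3 : ∀ τ ∈ Ine l γ, a τ = 0)
    (b1 : Adt (Dec (nv l γ)) b) (b2 : Lc (Dec (nv l γ)) b) (b3 : ∀ τ ∈ Ine l γ, b τ = 0)
    (t : ZMod 3) (e : a φ = t * b φ) : ∀ g ∈ Dec (nv l γ), a g = t * b g := fun g hg =>
  sub_eq_zero.1 (((R.FRO_ok l γ).2 φ hφ).2.2.2.2 (ZMod 3) (fun g => a g - t * b g)
    (fun x hx y hy => by simp only [a1 x hx y hy, b1 x hx y hy]; ring)
    (a2.map₂ b2 fun u v => u - t * v) (fun τ hτ => by simp only [a3 τ hτ, b3 τ hτ]; ring)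
    (sub_eq_zero.2 e) g hg)

theorem RC3_pf (hREC : REC_st) (hUNB : UNB_st) (hCK : CK_st) (hAX3 : AX3_st) (hKAP : KAP_st)
    (hLOC : LOC_st) : RC3_st := by
  intro R m N c y k γ φ s hR h3 hm hmR hy hk hN hc c1 c2 hun hloc
  obtain ⟨l, p, _, _, ψ, f, x, y0, Bl, Bp, hlp, l1, p1, ψa, ψl, ψu, f3, fp, hx, x3, hy0, y0l⟩ :=
    hAX3 m (R.sup id) (s 3 (φ 3)) hm
  have lR : l ∉ R := fun h => absurd (Finset.le_sup (f := id) h) (not_le.2 Bl)
  have pR : p ∉ R := fun h => absurd (Finset.le_sup (f := id) h) (not_le.2 Bp)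
  have pp : p.Prime := Fact.out
  have m0 : (m : ℚ) ≠ 0 := Nat.cast_ne_zero.2 hm
  have p0 : (p : ℚ) ≠ 0 := Nat.cast_ne_zero.2 pp.ne_zero
  have r0 : (p / m : ℚ) ≠ 0 := div_ne_zero p0 m0
  have m1 : (m : Qb) ≠ 0 := Nat.cast_ne_zero.2 hm
  have p2 : (p : Qb) ≠ 0 := Nat.cast_ne_zero.2 pp.ne_zero
  have yne : y ≠ 0 := by
    rintro rfl
    exact m1 (by rw [← hy, zero_pow three_ne_zero])
  have xne : x ≠ 0 := by
    rintro rfl
    exact p2 (by rw [← hx, zero_pow three_ne_zero])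
  have hz : (x / y) ^ 3 = ((p / m : ℚ) : Qb) := by
    rw [div_pow, hx, hy]
    push_cast
    rfl
  obtain ⟨κ, hκ⟩ : ∃ κ : GQ → ZMod 3, ∀ g : GQ, g (x / y) = w3 ^ (κ g).val * (x / y) :=
    (hKAP.2.1 _ _ r0 hz).elim fun t ht => ⟨_, ht⟩
  obtain ⟨k1, -⟩ := kc_SRC3 hKAP m0 (hy.trans (Rat.cast_natCast m).symm) hk
  obtain ⟨κ1, κ2⟩ := kc_SRC3 hKAP r0 hz hκ
  have ψ1 : Tl false ⊤ ψ := ⟨tc_false.2 ψa, ψl⟩
  have vm : ∀ q : ℕ, q.Prime → padicValRat q m = m.factorization q := fun q hq => by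
    rw [padicValRat.of_nat, Nat.factorization_def m hq]
  have vr : ∀ (q : ℕ) [Fact q.Prime], q ≠ p → padicValRat q (p / m) = -padicValRat q m :=
    fun q _ h => by
      rw [padicValRat.div p0 m0, padicValRat.of_nat, padicValNat_primes h]
      simp
  have v0 : ∀ q : ℕ, q.Prime → q ∉ R → padicValRat q m = 0 := fun q hq h => by
    rw [vm q hq, Finsupp.notMem_support_iff.1 fun e => h (hmR e), Nat.cast_zero]
  obtain ⟨M, M1, M2, M3, M4⟩ := cup_SRC3 hN hc c1 c2 ψ1 κ1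
  have F1 : ∀ (q : ℕ) [Fact q.Prime] (δ : GQ), ∃ φ, Frob q δ φ := fun q _ δ => (FRO_ok q δ).1
  obtain ⟨z, e⟩ := hREC M _ 3 1 (insert p (R.erase 3)) (fun q => if q = p then 1 else γ q)
    (fun q => if q = p then (f p).val / 3 else
      m.factorization q * (((s q (φ q)).val : ℚ) - (f q).val) / 3) M1 M2 M3 three_ne_zero
    (fun _ _ => cube_SAQW _) (fun q hq => by
      rcases Finset.mem_insert.1 hq with rfl | h
      · exact ⟨pp, by omega⟩
      · exact ⟨hR q (Finset.mem_of_mem_erase h), Finset.ne_of_mem_erase h⟩)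
    (fun q _ hq => by
      rw [pow_one]
      by_cases e : q = p
      · subst e
        obtain ⟨φ', hφ⟩ := F1 q 1
        have := hCK q 1 φ' _ _ κ ψ (fun g h => c g h + ψ h * κ g) hφ r0 hz (fun g _ => hκ g)
          (ψa.mono le_top) (ψl.mono le_top) (ψu q 1 hlp.symm).1 (by
            simpa only [add_sub_cancel_right] using
              hUNB q 1 N c (by omega) hN (hun q pR 1) hc c1 c2)
        rw [padicValRat.div p0 m0, v0 q pp pR, padicValRat.self pp.one_lt,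
          (ψu q 1 hlp.symm).2 φ' hφ] at this
        simpa only [if_true, sub_zero, Int.cast_one, one_mul] using this
      · have hq' := Finset.mem_of_mem_erase ((Finset.mem_insert.1 hq).resolve_left e)
        have ql : q ≠ l := fun h => lR (h ▸ hq')
        obtain ⟨s1, s2, s3, s4, s5⟩ := hloc q hq'
        obtain ⟨u, u1, u2, u3, u4⟩ := unr_CTQ FRO_ok q (γ q) (φ q) three_ne_zero s1
        have e1 := eq_SRC3 s1 s2 s3 s4 u1 u2 u3 (s q (φ q)) (by rw [u4, mul_one])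
        have e2 := eq_SRC3 s1 (ψa.mono le_top) (ψl.mono le_top) (ψu q _ ql).1 u1 u2 u3 (f q)
          (by rw [u4, mul_one, (ψu q _ ql).2 _ s1])
        have := hCK q (γ q) (φ q) (m ^ (s q (φ q)).val * (p / m) ^ (f q).val)
          (y ^ (s q (φ q)).val * (x / y) ^ (f q).val)
          (fun g => k g * s q (φ q) + κ g * f q) u (fun g h => c g h + ψ h * κ g) s1
          (mul_ne_zero (pow_ne_zero _ m0) (pow_ne_zero _ r0))
          (by
            rw [mul_pow, pow_right_comm, pow_right_comm (x / y), hy, hz]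
            push_cast
            rfl)
          (fun g _ => by
            rw [map_mul, map_pow, map_pow, hk, hκ, w3_add, ← pow_val_mul_INVQ w3_cube,
              ← pow_val_mul_INVQ w3_cube]
            ring) u1 u2 u3
          (s5.imp fun β hβ => ⟨hβ.1, fun g hg h hh => by
            rw [hβ.2 g hg h hh]
            simp only [e1 h hh, e2 h hh]
            ring⟩)
        rw [padicValRat.mul (pow_ne_zero _ m0) (pow_ne_zero _ r0), padicValRat.pow,
          padicValRat.pow, vr q e, vm q Fact.out, u4, ZMod.val_one] at this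
        simp only [if_neg e]
        convert this using 2
        push_cast
        ring)
    (fun q _ hq => by
      rw [Finset.mem_insert, not_or, Finset.mem_erase, not_and] at hq
      by_cases e3 : q = 3
      · subst e3
        obtain ⟨s1, s2, s3, s4, s5⟩ := hloc 3 h3
        have l3 : 3 ≠ l := by omega
        have e1 := eq_SRC3 s1 (ψa.mono le_top) (ψl.mono le_top) (ψu 3 _ l3).1 s2 s3 s4 1
          (by rw [one_mul, (ψu 3 _ l3).2 _ s1, f3])
        obtain ⟨M', a1, a2, a3, -⟩ := cup_SRC3 hN hc c1 c2 ψ1 k1.neg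
        obtain ⟨β, b1, b2⟩ := s5
        have := CONJ_ok.2 M' ⊤ _ 3 (γ 3) 1 a1.1 inferInstance a2 a3
          ((cob_SAQW (c := fun g h => c g h + ψ h * -k g) b1 fun g hg h hh => by
            have := b2 g hg h hh
            rw [sg_true] at this
            rw [this, e1 h hh]
            ring).mono inf_le_left)
        refine Or.inl ((this.mono (le_inf le_rfl le_top)).congr fun g hg h _ => ?_)
        have e2 : κ g + k g = 0 := w3_inj (mul_right_cancel₀ xne (by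
          have e4 := congrArg g (div_mul_cancel₀ x yne)
          rw [map_mul, hκ, hk, x3 g hg] at e4
          rw [w3_add, ZMod.val_zero, pow_zero, one_mul]
          linear_combination e4 -
            w3 ^ (κ g).val * w3 ^ (k g).val * div_mul_cancel₀ x yne))
        rw [eq_neg_of_add_eq_zero_left e2]
      have qR := hq.2 e3
      by_cases el : q = l
      · subst el
        obtain ⟨β, b1, b2⟩ := hUNB q 1 N c l1 hN (hun q qR 1) hc c1 c2
        refine Or.inl ((cob_SAQW b1 b2).congr fun g hg h _ => ?_)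
        have y1 : y0 ≠ 0 := by
          rintro rfl
          exact p2 (by rw [← hy0, zero_pow three_ne_zero, zero_mul])
        have e4 : g (x / y / y0) = x / y / y0 := hLOC.2.2.1 q 1 l1 hg _ (by
          rw [div_pow, div_pow, hx, hy, ← hy0]
          field_simp)
        rw [map_div₀, hκ, y0l g hg, div_left_inj' y1] at e4
        have e2 : κ g = 0 := w3_inj (mul_right_cancel₀ (div_ne_zero xne yne) (by
          rw [e4, ZMod.val_zero, pow_zero, one_mul]))
        rw [e2, mul_zero, add_zero]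
      · exact Or.inr ⟨e3, fun δ τ hτ => M4 τ (hun q qR δ hτ) (Ine_GK δ e3 hτ) ((ψu q δ el).1 τ hτ)
          (κ2 q δ e3 (by rw [vr q hq.1, v0 q Fact.out qR, neg_zero]) τ hτ)⟩)
  rw [Finset.sum_insert fun h => pR (Finset.mem_of_mem_erase h), if_pos rfl,
    Finset.sum_congr rfl fun q hq => if_neg fun (h : q = p) =>
      pR (h ▸ Finset.mem_of_mem_erase hq), ← Finset.sum_div, ← add_div,
    div_eq_iff three_ne_zero] at e
  have e2 : (((f p).val : ℤ) + ∑ q ∈ R.erase 3,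
      (m.factorization q : ℤ) * (((s q (φ q)).val : ℤ) - (f q).val)) = z * 3 := by
    exact_mod_cast e
  have e3 := congrArg (Int.cast : ℤ → ZMod 3) e2
  push_cast at e3
  simp only [ZMod.natCast_val, ZMod.cast_id', id_eq, mul_sub, Finset.sum_sub_distrib] at e3
  have e4 : f p = ∑ q ∈ R, (m.factorization q : ZMod 3) * f q := by
    rw [fp]
    refine Finset.sum_subset hmR fun q _ h => ?_
    rw [Finsupp.notMem_support_iff.1 h, Nat.cast_zero, zero_mul]
  rw [← Finset.add_sum_erase R _ h3, f3] at e4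
  rw [← Finset.add_sum_erase R _ h3]
  linear_combination e3 - e4 + z * three_SRC3

end Pool.Agent.MP_e23604_nt.S

end
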