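import Pool.Agent.Mg.Fe23604m.Gc4cdb1

set_option linter.all false

set_option autoImplicit false

open NumberField IsDedekindDomain Module Filter Topology
open scoped Classical

namespace Pool.Agent.MP_e23604_nt.S

open B R Pool.Agent.MP_f3cd89_nt

theorem three_SNCU (γ : GQ) : nv 3 γ 3 = 1 / 3 := by
  have h := R.DIC_ok.2.2.1 3 γ 3 (by norm_num)
  have e : padicValRat 3 (3 : ℚ) = 1 := by
    exact_mod_cast padicValRat.self (p := 3) (by norm_num)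
  rw [e] at h
  push_cast at h
  rw [h]
  norm_num

theorem pi_SNCU (γ : GQ) {π : Qb} (h : π ^ 2 = -3) : nv 3 γ π ^ 2 = 1 / 3 := by
  rw [← map_pow, h, AbsoluteValue.map_neg, three_SNCU]

theorem y_SNCU : (w3 - w3 ^ 2) ^ 2 = -3 := by
  linear_combination (w3 - 2) * w3_cube + w3_spec

theorem fy_SNCU {g : GQ} (hg : g ∈ GK) : g (w3 - w3 ^ 2) = w3 - w3 ^ 2 := by
  rw [map_sub, map_pow, mem_GK'.1 hg]

theorem inj_SNCU {a b : ℤ} (h : (3 : ℝ) ^ a = 3 ^ b) : a = b :=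
  zpow_right_injective₀ (by norm_num) (by norm_num) h

theorem c_SNCU (γ : GQ) : ∃ c ∈ Ine 3 γ, c ∉ GK := by
  by_contra h
  push Not at h
  have h0 : w3 - w3 ^ 2 ≠ 0 := fun e => by
    have := y_SNCU
    rw [e] at this
    norm_num at this
  obtain ⟨k, hk⟩ := int_CVAL R.DIC_ok 3 γ h0 fun τ hτ => fy_SNCU (h τ hτ)
  have h1 := pi_SNCU γ y_SNCU
  rw [hk] at h1
  push_cast at h1
  have h2 : (3 : ℝ) ^ (-k * 2) = 3 ^ (-1 : ℤ) := by
    rw [zpow_mul, zpow_ofNat, h1]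
    norm_num
  have := inj_SNCU h2
  omega

theorem B_SNCU (γ : GQ) {u : Qb} (h0 : u ≠ 0) (hu : Fix (Dec (nv 3 γ) ⊓ GK) u) :
    ∃ k : ℤ, nv 3 γ u ^ 2 = 3 ^ (-k) := by
  obtain ⟨c, hc, hc'⟩ := c_SNCU γ
  have hcD := Ine_le 3 γ hc
  have h1 : Fix (Ine 3 γ) (u * c u) := by
    intro τ hτ
    have hτD := Ine_le 3 γ hτ
    rw [map_mul]
    by_cases ht : τ ∈ GK
    · have e : (c⁻¹ * τ * c) u = u := by
        refine hu _ ⟨(Dec _).mul_mem ((Dec _).mul_mem ((Dec _).inv_mem hcD) hτD) hcD, ?_⟩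
        have := GK_on.1.conj_mem τ ht c⁻¹
        rwa [inv_inv] at this
      have e' := congrArg c e
      rw [← AlgEquiv.mul_apply, ← mul_assoc, mul_inv_cancel_left, AlgEquiv.mul_apply] at e'
      rw [hu τ ⟨hτD, ht⟩, e']
    · have e : (c⁻¹ * τ) u = u :=
        hu _ ⟨(Dec _).mul_mem ((Dec _).inv_mem hcD) hτD,
          GK_mul (fun h => hc' (GK.inv_mem_iff.1 h)) ht⟩
      have e' := congrArg c e
      rw [← AlgEquiv.mul_apply, mul_inv_cancel_left] at e'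
      have e2 : (τ * c) u = u := hu _ ⟨mul_mem hτD hcD, GK_mul ht hc'⟩
      rw [AlgEquiv.mul_apply] at e2
      rw [e', e2, mul_comm]
  obtain ⟨k, hk⟩ := int_CVAL R.DIC_ok 3 γ (mul_ne_zero h0 ((map_ne_zero c).2 h0)) h1
  refine ⟨k, ?_⟩
  rw [map_mul, mem_Dec.1 hcD u] at hk
  push_cast at hk
  rw [sq, hk]

theorem B2_SNCU (γ : GQ) {u : Qb} (hu : Fix (Dec (nv 3 γ) ⊓ GK) u) (h : nv 3 γ u < 1) :
    nv 3 γ u ^ 2 ≤ 1 / 3 := by
  rcases eq_or_ne u 0 with rfl | h0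
  · simp
  obtain ⟨k, hk⟩ := B_SNCU γ h0 hu
  have h1 : nv 3 γ u ^ 2 < 1 := pow_lt_one₀ ((nv 3 γ).nonneg u) h two_ne_zero
  rw [hk] at h1 ⊢
  have h2 : -k < 0 := (zpow_lt_one_iff_right₀ (by norm_num)).1 h1
  calc (3 : ℝ) ^ (-k) ≤ 3 ^ (-1 : ℤ) := zpow_le_zpow_right₀ (by norm_num) (by omega)
    _ = 1 / 3 := by norm_num

theorem C_SNCU (γ : GQ) {z : Qb} (hz : Fix (Dec (nv 3 γ) ⊓ GK) z) (h : nv 3 γ z ≤ 1) :
    nv 3 γ (z ^ 3 - z) ^ 2 ≤ 1 / 3 := by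
  obtain ⟨c, hc, hc'⟩ := c_SNCU γ
  obtain ⟨⟨φ, hφ⟩, hF⟩ := R.FRO_ok 3 γ
  obtain ⟨ψ, h1, h2⟩ : ∃ ψ, Frob 3 γ ψ ∧ ψ ∈ GK := by
    by_cases hg : φ ∈ GK
    · exact ⟨φ, hφ, hg⟩
    · exact ⟨φ * c, (hF φ hφ).2.1 c hc, GK_mul hg hc'⟩
  have h3 := h1.2 z h
  rw [hz ψ ⟨h1.1, h2⟩, AbsoluteValue.map_sub] at h3
  refine B2_SNCU γ (fun g hg => ?_) h3
  rw [map_sub, map_pow, hz g hg]

theorem key_SNCU (γ : GQ) {ρ : Qb} (hρ : Fix (Dec (nv 3 γ) ⊓ GK) ρ) (h : nv 3 γ ρ ≤ 1)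
    (h' : nv 3 γ (ρ ^ 3 - 1) < 1) : nv 3 γ (ρ ^ 3 - 1) ≤ 1 / 9 := by
  have hv := nv_na 3 γ
  obtain ⟨π, hπ, hπf⟩ : ∃ π : Qb, π ^ 2 = -3 ∧ ∀ g ∈ GK, g π = π :=
    ⟨_, y_SNCU, fun g hg => fy_SNCU hg⟩
  have hp := pi_SNCU γ hπ
  have h0 : π ≠ 0 := fun e => by
    rw [e] at hπ
    norm_num at hπ
  have hp0 : 0 < nv 3 γ π := (nv 3 γ).pos h0
  have h1 : nv 3 γ (ρ - 1) ≤ 1 := by
    have := hv ρ (-1)
    rw [AbsoluteValue.map_neg, map_one, ← sub_eq_add_neg] at this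
    exact this.trans (max_le h le_rfl)
  have h2 : nv 3 γ (ρ - 1) ^ 3 < 1 := by
    have := hv (ρ ^ 3 - 1) (-(3 * (ρ * (ρ - 1))))
    rw [show ρ ^ 3 - 1 + -(3 * (ρ * (ρ - 1))) = (ρ - 1) ^ 3 by ring, map_pow,
      AbsoluteValue.map_neg, map_mul, map_mul, three_SNCU] at this
    refine this.trans_lt (max_lt h' ?_)
    have := mul_le_one₀ h ((nv 3 γ).nonneg _) h1
    linarith
  have h3 : nv 3 γ (ρ - 1) ^ 2 ≤ 1 / 3 :=
    B2_SNCU γ (fun g hg => by rw [map_sub, map_one, hρ g hg])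
      ((pow_lt_one_iff_of_nonneg ((nv 3 γ).nonneg _) three_ne_zero).1 h2)
  obtain ⟨z, rfl⟩ : ∃ z, ρ = 1 + π * z := ⟨(ρ - 1) / π, by field_simp; ring⟩
  have hz : Fix (Dec (nv 3 γ) ⊓ GK) z := fun g hg => by
    have := hρ g hg
    rw [map_add, map_one, map_mul, hπf g hg.2] at this
    exact mul_left_cancel₀ h0 (add_left_cancel this)
  rw [add_sub_cancel_left, map_mul, mul_pow, hp] at h3
  have hz2 : nv 3 γ z ^ 2 ≤ 1 := by linarith
  have hz1 : nv 3 γ z ≤ 1 := (pow_le_one_iff_of_nonneg ((nv 3 γ).nonneg _) two_ne_zero).1 hz2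
  have h4 := C_SNCU γ hz hz1
  rw [← hp] at h4
  have h5 : nv 3 γ (z ^ 3 - z) ≤ nv 3 γ π :=
    (pow_le_pow_iff_left₀ ((nv 3 γ).nonneg _) hp0.le two_ne_zero).1 h4
  have h6 := hv (π ^ 3 * (z ^ 3 - z)) (-(π ^ 4 * z ^ 2))
  rw [show π ^ 3 * (z ^ 3 - z) + -(π ^ 4 * z ^ 2) = (1 + π * z) ^ 3 - 1 by
    linear_combination (-(π * z) - π ^ 2 * z ^ 2) * hπ, AbsoluteValue.map_neg, map_mul, map_mul,
    map_pow, map_pow, map_pow] at h6
  have h7 : nv 3 γ π ^ 4 = 1 / 9 := by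
    rw [show (4 : ℕ) = 2 * 2 from rfl, pow_mul, hp]
    norm_num
  refine h6.trans (max_le ?_ ?_)
  · rw [← h7, pow_succ _ 3]
    exact mul_le_mul_of_nonneg_left h5 (by positivity)
  · rw [h7]
    linarith

theorem int_SNCU (γ : GQ) {m : ℤ} {ρ : Qb} (hm : m % 3 = 1) (h : ρ ^ 3 = m)
    (hρ : Fix (Dec (nv 3 γ) ⊓ GK) ρ) : m % 9 = 1 := by
  have hv := nv_na 3 γ
  obtain ⟨a, rfl⟩ : ∃ a, m = 1 + 3 * a := ⟨m / 3, by omega⟩
  have h1 : nv 3 γ ρ ≤ 1 := by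
    refine (pow_le_one_iff_of_nonneg ((nv 3 γ).nonneg _) three_ne_zero).1 ?_
    rw [← map_pow, h]
    exact hv.apply_intCast_le_one
  have e : nv 3 γ (ρ ^ 3 - 1) = 1 / 3 * nv 3 γ a := by
    rw [h, ← three_SNCU γ, ← map_mul]
    congr 1
    push_cast
    ring
  have h2 : nv 3 γ a ≤ 1 := hv.apply_intCast_le_one
  have h3 := key_SNCU γ hρ h1 (by rw [e]; linarith)
  by_contra hne
  have h4 : nv 3 γ a = 1 := v_coprime hv Nat.prime_three (nv_lt 3 γ) (by omega)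
  rw [e, h4] at h3
  norm_num at h3

theorem one_SNCU (γ : GQ) {x : Qb} (h : nv 3 γ x < 1) : nv 3 γ (1 + x) = 1 := by
  have hv := nv_na 3 γ
  have h1 := hv 1 x
  have h2 := hv (1 + x) (-x)
  rw [map_one] at h1
  rw [add_neg_cancel_right, map_one, AbsoluteValue.map_neg] at h2
  refine le_antisymm (h1.trans (max_le le_rfl h.le)) ?_
  rcases le_max_iff.1 h2 with h3 | h3
  · exact h3
  · exact absurd h (not_lt.2 h3)

theorem NCU_pf (hKUM : KUM_st) : NCU_st := by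
  refine ⟨fun γ t π ρ hπ ht ht1 e hρ => ?_, fun γ i m ρ hm e hρ => ?_⟩
  · have hv := nv_na 3 γ
    have hp := pi_SNCU γ hπ
    have hp0 := (nv 3 γ).nonneg π
    have ht0 := (nv 3 γ).nonneg t
    have hp1 : nv 3 γ π < 1 :=
      (pow_lt_one_iff_of_nonneg hp0 two_ne_zero).1 (by rw [hp]; norm_num)
    have h1 : nv 3 γ (t * π) < 1 := by
      rw [map_mul]
      exact mul_lt_one_of_nonneg_of_lt_one_right ht1 hp0 hp1
    have h2 := one_SNCU γ h1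
    have h3 := one_SNCU γ (x := -(t * π)) (by rwa [AbsoluteValue.map_neg])
    have h4 : nv 3 γ ρ ^ 3 = 1 := by
      have := congrArg (nv 3 γ) e
      rwa [map_mul, h2, mul_one, map_pow, sub_eq_add_neg, h3] at this
    have h5 : nv 3 γ ρ ≤ 1 := (pow_le_one_iff_of_nonneg ((nv 3 γ).nonneg _) three_ne_zero).1 h4.le
    have h6 : nv 3 γ (ρ ^ 3 - 1) = nv 3 γ (t * π) := by
      have e' : (ρ ^ 3 - 1) * (1 + t * π) = ((-2 : ℤ) : Qb) * (t * π) := by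
        push_cast
        linear_combination e
      have := congrArg (nv 3 γ) e'
      rwa [map_mul, h2, mul_one, map_mul (nv 3 γ) ((-2 : ℤ) : Qb),
        v_coprime hv Nat.prime_three (nv_lt 3 γ) (by norm_num), one_mul] at this
    have h7 := key_SNCU γ hρ h5 (by rwa [h6])
    rw [h6, map_mul] at h7
    have h8 : nv 3 γ t ^ 2 ≤ 1 / 27 := by
      have := pow_le_pow_left₀ (mul_nonneg ht0 hp0) h7 2
      rw [mul_pow, hp] at this
      linarith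
    have h9 : nv 3 γ 9 = 1 / 9 := by
      rw [show (9 : Qb) = 3 * 3 by norm_num, map_mul, three_SNCU]
      norm_num
    rw [h9]
    rcases eq_or_ne t 0 with rfl | h0
    · simp
    obtain ⟨k, hk⟩ := int_CVAL R.DIC_ok 3 γ h0 fun τ hτ => ht τ (Ine_le 3 γ hτ)
    push_cast at hk
    rw [hk] at h8 ⊢
    have h10 : (3 : ℝ) ^ (-k * 2) ≤ 3 ^ (-3 : ℤ) := by
      rw [zpow_mul, zpow_ofNat]
      refine h8.trans ?_
      norm_num
    have h11 := (zpow_le_zpow_iff_right₀ (by norm_num)).1 h10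
    calc (3 : ℝ) ^ (-k) ≤ 3 ^ (-2 : ℤ) := zpow_le_zpow_right₀ (by norm_num) (by omega)
      _ = 1 / 9 := by norm_num
  · have hv := nv_na 3 γ
    have hm1 : nv 3 γ m = 1 := v_coprime hv Nat.prime_three (nv_lt 3 γ) hm
    have h1 : nv 3 γ ρ ^ 3 = 3 ^ (-i : ℤ) := by
      rw [← map_pow, e, map_mul, hm1, mul_one, map_pow, three_SNCU]
      simp
    have h0 : ρ ≠ 0 := by
      rintro rfl
      rw [map_zero, zero_pow three_ne_zero] at h1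
      exact (zpow_pos (by norm_num) _).ne h1
    obtain ⟨k, hk⟩ := B_SNCU γ h0 hρ
    have h2 : (3 : ℝ) ^ (-i * 2 : ℤ) = 3 ^ (-k * 3) := by
      rw [zpow_mul, zpow_mul, zpow_ofNat, zpow_ofNat, ← h1, ← hk]
      ring
    have h3 := inj_SNCU h2
    obtain ⟨j, rfl⟩ : 3 ∣ i := by omega
    refine ⟨dvd_mul_right _ _, ?_⟩
    have h4 : (ρ / 3 ^ j) ^ 3 = m := by
      rw [div_pow, e, ← pow_mul, mul_comm j 3]
      field_simp
    have h5 : Fix (Dec (nv 3 γ) ⊓ GK) (ρ / 3 ^ j) := fun g hg => by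
      rw [map_div₀, map_pow, hρ g hg, map_ofNat]
    by_cases h6 : m % 3 = 1
    · exact Or.inl (int_SNCU γ h6 h4 h5)
    · have := int_SNCU γ (m := -m) (ρ := -(ρ / 3 ^ j)) (by omega)
        (by push_cast; linear_combination -h4) fun g hg => by rw [map_neg, h5 g hg]
      omega

end Pool.Agent.MP_e23604_nt.S
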