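import Pool.Agent.Mg.Fe23604m.Gc4cdb1
import Pool.Agent.Mg.Fe23604m.G8de698
import Pool.Agent.Mg.Fe23604m.G0fbe18
import Pool.Agent.Mg.Fe23604m.G2ca470
import Pool.Agent.Mg.Fe23604m.G28cc75
import Pool.Agent.Mg.Fe23604m.G1f9ed0
import Pool.Agent.Mg.Fe23604m.G7bbf87
import Pool.Agent.MP_3e91a1_nt.WSB
import Pool.Agent.MP_3e91a1_nt.WRES
import Pool.Agent.MP_3e91a1_nt.WPLC
import Pool.Agent.MP_3e91a1_nt.WIND
import Pool.Agent.MP_3e91a1_nt.WCOR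
import Pool.Agent.MP_3e91a1_nt.WINF
import Pool.Agent.MP_3e91a1_nt.WL0
import Pool.Agent.MP_3e91a1_nt.WL1
import Pool.Agent.MP_3e91a1_nt.WLIX
import Pool.Agent.MP_3e91a1_nt.WVL
import Pool.Agent.MP_3e91a1_nt.WAH
import Pool.Agent.MP_3e91a1_nt.WHQ
import Pool.Agent.MP_3e91a1_nt.WSYM
import Pool.Agent.MP_3e91a1_nt.WHNF
import Pool.Agent.Mg.Fe23604m.Gdcbf1f
import Pool.Agent.Mg.Fe23604m.G300596
import Pool.Agent.Mg.Fe23604m.G8362cd
import Pool.Agent.Mg.Fe23604m.G19f17f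
import Pool.Agent.Mg.Fe23604m.G0a5d16

set_option linter.all false

section

set_option autoImplicit false

open NumberField IsDedekindDomain Module Filter Topology
open scoped Classical

namespace Pool.Agent.MP_e23604_nt.S

open B R Pool.Agent.MP_f3cd89_nt

theorem nat_SKUG (κ : ℚ → ZMod 3) (hκ : ∀ r r', r ≠ 0 → r' ≠ 0 → κ (r * r') = κ r + κ r')
    (n : ℕ) : n ≠ 0 → ∀ S : Finset ℕ, n.primeFactors ⊆ S →
      κ n = ∑ l ∈ S, (n.factorization l : ZMod 3) * κ l := by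
  induction n using Nat.recOnMul with
  | zero => exact fun h => absurd rfl h
  | one =>
    intro _ S _
    have := hκ 1 1 one_ne_zero one_ne_zero
    rw [mul_one] at this
    simpa using this
  | prime p hp =>
    intro _ S hS
    rw [Finset.sum_eq_single p]
    · rw [hp.factorization_self, Nat.cast_one, one_mul]
    · intro l _ hl
      rw [hp.factorization, Finsupp.single_eq_of_ne hl, Nat.cast_zero, zero_mul]
    · exact fun h => absurd (hS (by simp [hp])) h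
  | mul a b ha hb =>
    intro h S hS
    have ha0 := left_ne_zero_of_mul h
    have hb0 := right_ne_zero_of_mul h
    rw [Nat.primeFactors_mul ha0 hb0, Finset.union_subset_iff] at hS
    rw [Nat.cast_mul, hκ _ _ (by exact_mod_cast ha0) (by exact_mod_cast hb0), ha ha0 S hS.1,
      hb hb0 S hS.2, Nat.factorization_mul ha0 hb0, ← Finset.sum_add_distrib]
    exact Finset.sum_congr rfl fun l _ => by rw [Finsupp.add_apply, Nat.cast_add, add_mul]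

theorem rat_SKUG (κ : ℚ → ZMod 3) (hκ : ∀ r r', r ≠ 0 → r' ≠ 0 → κ (r * r') = κ r + κ r')
    (hn : ∀ r, r ≠ 0 → κ (-r) = κ r) (r : ℚ) (hr : r ≠ 0) (S : Finset ℕ)
    (h1 : r.num.natAbs.primeFactors ⊆ S) (h2 : r.den.primeFactors ⊆ S) :
    κ r = ∑ l ∈ S, ((r.num.natAbs.factorization l : ZMod 3) - r.den.factorization l) * κ l := by
  have h0 : r.num ≠ 0 := Rat.num_ne_zero.2 hr
  have e1 : κ (r.num.natAbs : ℕ) = κ r.num := by
    rw [Nat.cast_natAbs]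
    rcases abs_choice r.num with h | h <;> rw [h]
    rw [Int.cast_neg, hn _ (by exact_mod_cast h0)]
  have e2 := hκ r r.den hr (by exact_mod_cast r.den_nz)
  rw [Rat.mul_den_eq_num, ← e1, nat_SKUG κ hκ _ (Int.natAbs_ne_zero.2 h0) S h1,
    nat_SKUG κ hκ _ r.den_nz S h2] at e2
  simp only [sub_mul, Finset.sum_sub_distrib]
  exact (sub_eq_of_eq_add e2).symm

theorem KUG_pf (hKAP : KAP_st) (hTAM : TAM_st) : KUG_st := by
  intro a T ha hl _ hT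
  obtain ⟨N, n1, n2⟩ := (hl.map fun t => w3 ^ t.val).inf1 (fun g _ => pow_ne_zero _ w3_ne_zero)
  obtain ⟨y, h0, -, h2⟩ := R.H90_ok.1 N ⊤ _ n1 n2 (fun g hg h hh => by
    rw [ha g hg h hh, w3_add, act_w3])
  obtain ⟨r, hr⟩ := R.rat_CKUM (y ^ 3) fun g hg => by
    rw [map_pow, h2 g hg, mul_pow, ← pow_mul, mul_comm _ 3, pow_mul, w3_cube, one_pow, one_mul]
  have hr0 : r ≠ 0 := by
    rintro rfl
    exact pow_ne_zero 3 h0 (by simpa using hr.symm)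
  have h3 : ∀ g ∈ GK, a g = kum r g := fun g hg => by
    obtain ⟨t, ht⟩ := hKAP.2.1 r y hr0 hr.symm
    have := h2 g trivial
    rw [ht g, ep_pos hg, sub_self, zero_mul, add_zero] at this
    exact w3_inj (mul_right_cancel₀ h0 this).symm
  refine ⟨fun l => (r.num.natAbs.factorization l : ZMod 3) - r.den.factorization l,
    fun g hg => ?_⟩
  rw [h3 g hg, rat_SKUG (fun r => kum r g) (fun r r' h h' => by
      obtain ⟨t, ht⟩ := hKAP.2.2.1 r r' h h'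
      rw [ht g, ep_pos hg, sub_self, zero_mul, add_zero])
    (fun r h => (hKAP.2.2.2.1 r h g hg).2) r hr0
    (insert 3 T ∪ (r.num.natAbs.primeFactors ∪ r.den.primeFactors))
    (Finset.subset_union_left.trans Finset.subset_union_right)
    (Finset.subset_union_right.trans Finset.subset_union_right)]
  refine (Finset.sum_subset Finset.subset_union_left fun l h4 h5 => ?_).symm
  have hp : l.Prime := by
    rcases Finset.mem_union.1 ((Finset.mem_union.1 h4).resolve_left h5) with h | h <;>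
      exact Nat.prime_of_mem_primeFactors h
  have := Fact.mk hp
  rw [Finset.mem_insert, not_or] at h5
  obtain ⟨h6, ⟨τ, h7, h8⟩, -⟩ := hTAM l 1 h5.1
  have h9 := hT l h5.1 h5.2 τ h7
  rw [h3 τ (h6 h7), hKAP.2.2.2.2.1 l 1 r h5.1 hr0 τ h7, h8, mul_one, padicValRat_def,
    padicValInt, ← Nat.factorization_def _ hp, ← Nat.factorization_def _ hp] at h9
  push_cast at h9
  rw [h9, zero_mul]

end Pool.Agent.MP_e23604_nt.S

end

section

set_option autoImplicit false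

namespace Pool.Agent.MP_e23604_nt.S

theorem AMB_ok : AMB_st :=
  AMB_pf
theorem SIP_ok : SIP_st :=
  SIP_pf
theorem LOCN_ok : LOCN_st :=
  LOCN_pf
theorem HNT_ok : HNT_st :=
  HNT_pf AMB_ok SIP_ok LOCN_ok
theorem HNK_ok : HNK_st :=
  HNK_pf HNT_ok
theorem HNS_ok : HNS_st :=
  HNS_pf HNK_ok
theorem IND_ok : IND_st :=
  IND_pf
theorem ABHN_ok : ABHN_st :=
  ABHN_pf IND_ok HNS_ok
theorem VAL_ok : VAL_st :=
  VAL_pf
theorem CHI_ok : CHI_st :=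
  CHI_pf
theorem REC_ok : REC_st :=
  REC_pf ABHN_ok VAL_ok CHI_ok
theorem AQ_ok : AQ_st :=
  AQ_pf ABHN_ok
theorem AQW_ok : AQW_st :=
  AQW_pf AQ_ok
theorem KAP_ok : KAP_st :=
  KAP_pf
theorem TAM_ok : TAM_st :=
  TAM_pf KAP_ok
theorem PSI_ok : PSI_st :=
  PSI_pf
theorem TQ_ok : TQ_st :=
  TQ_pf TAM_ok KAP_ok
theorem HOMQ_ok : HOMQ_st :=
  HOMQ_pf TAM_ok KAP_ok
theorem INVQ_ok : INVQ_st :=
  INVQ_pf HOMQ_ok
theorem KUM_ok : KUM_st :=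
  KUM_pf KAP_ok
theorem KUG_ok : KUG_st :=
  KUG_pf KAP_ok TAM_ok
theorem LOC_ok : LOC_st :=
  LOC_pf TAM_ok KAP_ok
theorem LO3_ok : LO3_st :=
  LO3_pf KUM_ok KAP_ok LOC_ok
theorem NCU_ok : NCU_st :=
  NCU_pf KUM_ok
theorem DIM_ok : DIM_st :=
  DIM_pf KUM_ok KAP_ok LO3_ok PSI_ok
theorem KW_ok : KW_st :=
  KW_pf PSI_ok LO3_ok LOC_ok TAM_ok
theorem CHEB_ok : CHEB_st :=
  CHEB_pf
theorem INV3_ok : INV3_st :=
  INV3_pf KUM_ok KAP_ok
theorem UNB_ok : UNB_st :=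
  UNB_pf LOC_ok
theorem CK_ok : CK_st :=
  CK_pf
theorem AX3_ok : AX3_st :=
  AX3_pf PSI_ok CHEB_ok KUM_ok KAP_ok NCU_ok LOC_ok
theorem RC3_ok : RC3_st :=
  RC3_pf REC_ok UNB_ok CK_ok AX3_ok KAP_ok LOC_ok

end Pool.Agent.MP_e23604_nt.S

end

section

/-! Tools from local class field theory in prime degree. -/

set_option autoImplicit false

namespace Pool.Agent.MP_e23604_nt.W.Lib

open Pool.Agent.MP_3e91a1_nt

theorem SB : SB_st := SB_pf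
theorem KER : KER_st := KER_pf
theorem INF : INF_st := INF_pf
theorem KUQ : KUQ_st := KUQ_pf
theorem L0 : L0_st := L0_pf
theorem PLC : PLC_st := PLC_pf
theorem RES : RES_st := RES_pf
theorem IND : IND_st := IND_pf
theorem COR : COR_st := COR_pf
theorem L1 : L1_st := L1_pf (LIX_pf VL_pf AH_pf HQ_pf) L0 (APX_pf PLC) PLC RES SB
theorem L2 : L2_st := L2_pf SB KER KUQ L1 (SYM_pf SB KUQ)

end Pool.Agent.MP_e23604_nt.W.Lib

end

section

/-! Statements of the steps of the cohomological module. -/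

set_option autoImplicit false

open Finset
open scoped Classical

namespace Pool.Agent.MP_e23604_nt.W

open B R S
open MP_3e91a1_nt (Step IsN Loc)

/-! ### Over the rational numbers -/

/-- a cyclic character that is unramified outside `p` -/
structure Chp (p : ℕ) [Fact p.Prime] (n : ℕ) (U : Subgroup GQ) (χ : GQ → ZMod n)
    (f : ℕ → ZMod n) : Prop where
  two : 2 ≤ n
  on : ON U
  nr : NoReal U
  add : Adt ⊤ χ
  ker : ∀ g, g ∈ U ↔ χ g = 0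
  gen : ∃ s ∈ Dec (nv p 1), χ s = 1
  unr : ∀ (l : ℕ) [Fact l.Prime] (γ : GQ), l ≠ p → Ine l γ ≤ U
  fr : ∀ (l : ℕ) [Fact l.Prime] (γ φ : GQ), l ≠ p → Frob l γ φ → χ φ = f l
  sum : ∃ m : ℕ, ∀ (a : ℚ) (T : Finset ℕ), a ≠ 0 → nv p 1 ((a : Qb) - 1) ≤ nv p 1 p ^ m →
    (∀ l ∈ T, l.Prime ∧ l ≠ p) → (∀ l : ℕ, l.Prime → l ≠ p → padicValRat l a ≠ 0 → l ∈ T) →
    2 * ∑ l ∈ T, (padicValRat l a : ZMod n) * f l = 0

/-- such characters with large local degrees -/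
def ChE (p : ℕ) [Fact p.Prime] : Prop := ∀ k B : ℕ, ∃ (n : ℕ) (U : Subgroup GQ)
  (χ : GQ → ZMod n) (f : ℕ → ZMod n), Chp p n U χ f ∧
    ∀ l : ℕ, l.Prime → l ≠ p → l ≤ B → ∀ i : ℕ, (i : ZMod n) * f l = 0 → p ^ k ∣ i

/-- odd primes -/
def CHO_st : Prop := ∀ (p : ℕ) [Fact p.Prime], p ≠ 2 → ChE p

/-- all primes -/
def CHP_st : Prop := ∀ (p : ℕ) [Fact p.Prime], ChE p

/-- the local-global principle at any level -/
def ABG_st : Prop := ∀ (p k : ℕ) (N U : Subgroup GQ) (c : GQ → GQ → Qb), p.Prime → ON N → N ≤ U →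
  NoReal U → Coc U c → Inf2 N U c → (∀ g ∈ U, ∀ h ∈ U, c g h ^ p ^ k = 1) →
  (∀ (l : ℕ) [Fact l.Prime] (γ : GQ), Cob (Dec (nv l γ) ⊓ U) c) → ∃ β, Inf1 N U β ∧ Bd U c β

/-- the reciprocity law over the rational numbers -/
def RQ_st : Prop := ∀ (p k : ℕ) (N : Subgroup GQ) (c : GQ → GQ → Qb) (Q : Finset ℕ)
  (γ : ℕ → GQ) (r : ℕ → ℚ), p.Prime → ON N → Coc ⊤ c → Inf2 N ⊤ c → (∀ g h, c g h ^ p ^ k = 1) →
  (∀ l ∈ Q, l.Prime ∧ l ≠ p) → (∀ (l : ℕ) [Fact l.Prime], l ∈ Q → Iv l (γ l) c (p ^ k) (r l)) →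
  (∀ (l : ℕ) [Fact l.Prime], l ∉ Q → Cob (Dec (nv l 1)) c) → ∃ z : ℤ, 2 * ∑ l ∈ Q, r l = z

/-- the density theorem of Frobenius -/
def CHQ_st : Prop := ∀ (N : Subgroup GQ) (g : GQ) (B : ℕ), ON N →
  ∃ (q : ℕ) (_ : Fact q.Prime) (γ φ : GQ) (i j : ℕ), B < q ∧ Frob q γ φ ∧
    (∀ γ', Ine q γ' ≤ N) ∧ (g ^ i)⁻¹ * φ ∈ N ∧ (φ ^ j)⁻¹ * g ∈ N

/-- elements whose divisor is divisible by `n` outside a finite set -/
def SEL_st : Prop := ∀ (L : Type) [Field L] [NumberField L] (n : ℕ)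
  (T : Finset (MP_f3cd89_nt.Pr L)), n ≠ 0 → ∃ s : Finset L, ∀ x : L, x ≠ 0 →
    (∀ w, w ∉ T → (n : ℤ) ∣ MP_f3cd89_nt.ord w x) → ∃ r ∈ s, ∃ y : L, x = r * y ^ n

/-- finitely many characters of prime order with given ramification -/
def FI1_st : Prop := ∀ (p : ℕ) (U : Subgroup GQ) (B : Finset ℕ), p.Prime → IsOpen (U : Set GQ) →
  ∃ N, ON N ∧ N ≤ U ∧ ∀ a : GQ → ZMod p, Adt U a → Lc U a →
    (∀ (l : ℕ) [Fact l.Prime] (γ : GQ), l ∉ B → ∀ τ ∈ Ine l γ ⊓ U, a τ = 0) → ∀ g ∈ N, a g = 0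

/-- tame inertia is generated by one element -/
def TA0_st : Prop := ∀ (l : ℕ) [Fact l.Prime] (γ : GQ) (N : Subgroup GQ), ON N →
  ∃ τ ∈ Ine l γ, ∀ u ∈ Ine l γ, ∃ i : ℕ, ∀ (A : Type) [Group A] (π : GQ → A) (m : ℕ),
    (∀ g ∈ Ine l γ, ∀ h ∈ Ine l γ, π (g * h) = π g * π h) → Cst N (Ine l γ) π → ¬ l ∣ m →
    (∀ g ∈ Ine l γ, π g ^ m = 1) → π u = π τ ^ i

/-- elements close to one are powers -/
def PW0_st : Prop := ∀ (p n l : ℕ) [Fact l.Prime] (γ : GQ) (H : Subgroup GQ) (x : Qb), p.Prime →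
  H ≤ Dec (nv l γ) → Fix H x → nv l γ (x - 1) < nv l γ p ^ (n + 1) → ∃ y, y ^ p ^ n = x ∧ Fix H y

/-- the transfer for cocycles of roots of unity -/
def CMK_st : Prop := ∀ (p k : ℕ) (N M H U : Subgroup GQ) (c : GQ → GQ → Qb), p.Prime → ON N →
  ON M → M ⊓ U ≤ H → H ≤ U → ¬ p ∣ H.relIndex U → Coc U c → Inf2 N U c →
  (∀ g ∈ U, ∀ h ∈ U, c g h ^ p ^ k = 1) → Cob H c → Cob U c

/-- cyclic classes, for groups that need not be open -/
def CYG2_st : Prop := ∀ (n : ℕ) (N H H' : Subgroup GQ) (χ : GQ → ZMod n) (s : GQ)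
  (c : GQ → GQ → Qb), 2 ≤ n → ON N → Adt H' χ → Lc H' χ → (∀ g, g ∈ H ↔ g ∈ H' ∧ χ g = 0) →
  s ∈ H' → χ s = 1 → Coc H' c → Inf2 N H' c → Cob H c →
  ∃ a, a ≠ 0 ∧ Fix H' a ∧ Cob H' fun g h => c g h * a ^ car (χ g) (χ h)

/-! ### Kummer cocycles and places -/

/-- Kummer cocycles, algebraic part -/
def KMa_st : Prop := ∀ N : ℕ, N ≠ 0 →
  Mu ⊤ (cy N) ∧ (∀ θ : Qb, Lc ⊤ fun g => km N g θ) ∧
  (∀ (H : Subgroup GQ) (θ : Qb), θ ≠ 0 → Fix H θ → Co (cy N) H fun g => km N g θ) ∧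
  (∃ e : Qb → Qb → ZMod N, ∀ (g : GQ) (θ θ' : Qb), θ ≠ 0 → θ' ≠ 0 →
    km N g (θ * θ') = km N g θ + km N g θ' + cy N g * e θ θ' - e (g θ) (g θ')) ∧
  (∀ (ι : Type) (s : Finset ι) (θ : ι → Qb) (k : ι → ℤ), (∀ i ∈ s, θ i ≠ 0) →
    ∃ e : GQ → ZMod N, (∀ y y' : GQ, (∀ i ∈ s, y (θ i) = y' (θ i)) → e y = e y') ∧ ∀ g y : GQ,
      km N g (y (∏ i ∈ s, θ i ^ k i)) =
        ∑ i ∈ s, (k i : ZMod N) * km N g (y (θ i)) + cy N g * e y - e (g * y)) ∧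
  (∀ (g : GQ) (y : Qb), y ≠ 0 → g y = y → km N g (y ^ N) = (cy N g - 1) * lz N (rt N (y ^ N) / y))

/-- change of level, and the local part -/
def KMb_st : Prop := ∀ N : ℕ, N ≠ 0 →
  (∀ k : ℕ, k ≠ 0 → (∀ g, ZMod.castHom (Dvd.intro k rfl) (ZMod N) (cy (N * k) g) = cy N g) ∧
    ∃ e : Qb → ZMod N, ∀ (g : GQ) (θ : Qb), θ ≠ 0 →
      ZMod.castHom (Dvd.intro k rfl) (ZMod N) (km (N * k) g θ) =
        km N g θ + cy N g * e θ - e (g θ)) ∧
  (∀ g ∈ GK, cy 3 g = 1 ∧ (cy 9 g = 1 ↔ km 3 g w3 = 0)) ∧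
  ∀ V : Plc, ¬ V.l ∣ N →
    (∀ z z' : Qb, z ^ N = 1 → z' ^ N = 1 → V.v (z - z') < 1 → z = z') ∧
    (∀ τ ∈ Ine V.l V.γ, cy N τ = 1 ∧ ∀ (θ ϖ : Qb) (k : ℤ), ϖ ≠ 0 → τ θ = θ → τ ϖ = ϖ →
      V.v θ = V.v ϖ ^ k → km N τ θ = k * km N τ ϖ) ∧
    ∀ ϖ σ, FK V ϖ σ → cy N σ = nn ϖ

/-- arithmetic of the Eisenstein integers -/
def PLa_st : Prop :=
  (∀ ϖ ϖ' : Zw, PP ϖ → PP ϖ' → ϖ ∣ ϖ' → ϖ = ϖ') ∧ (∀ ϖ : Zw, PP ϖ → PP (star ϖ)) ∧
  (∀ u : Zw, IsUnit u → ∃ i j : ℕ, u = (-1) ^ i * QuadraticAlgebra.omega ^ j) ∧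
  (∀ u : Zw, Pry u → ∃ s : Multiset Zw, (∀ ϖ ∈ s, PP ϖ) ∧ s.prod = u) ∧
  ∀ b : Zw, b ≠ 0 → ∃ (u : Zw) (i : ℕ) (c : Zw), IsUnit u ∧ Pry c ∧ b = u * pw ^ i * c

/-- primes and places -/
def PLb_st : Prop :=
  (∀ V : Plc, ∃ ϖ : Zw, Prime ϖ ∧ Ov V ϖ ∧ (V.l = 3 → ϖ = pw) ∧ (V.l ≠ 3 → PP ϖ)) ∧
  (∀ ϖ : Zw, Prime ϖ → ∃ V, Ov V ϖ) ∧
  (∀ (V : Plc) (ϖ : Zw), Prime ϖ → Ov V ϖ → ∀ b, Ov V b ↔ ϖ ∣ b) ∧
  (∀ (V : Plc) (m : ℕ), Ov V m ↔ V.l ∣ m) ∧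
  (∀ V V' : Plc, (V.l = V'.l → ∃ g, V'.v = (V.mv g).v) ∧
    (V.v = V'.v → V.l = V'.l ∧ V.D = V'.D ∧ V.I = V'.I)) ∧
  ∀ (V : Plc) (g : GQ) (b : Zw), (g ∈ GK → (Ov (V.mv g) b ↔ Ov V b)) ∧
    (g ∉ GK → (Ov (V.mv g) b ↔ Ov V (star b)))

/-- the decomposition of primes -/
def PLc_st : Prop := ∀ (V : Plc) (ϖ : Zw), Prime ϖ → Ov V ϖ →
  (∀ V', Ov V' ϖ → V'.l = V.l ∧ ∃ g ∈ GK, V'.v = (V.mv g).v) ∧
  (V.l % 3 = 1 ∧ nn ϖ = V.l ∧ Dec V.v ≤ GK ∨ V.l % 3 = 2 ∧ nn ϖ = V.l ^ 2 ∨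
    V.l = 3 ∧ nn ϖ = 3) ∧
  (V.l ≠ 3 → V.v (io ϖ) = (V.l : ℝ)⁻¹ ∧ Ine V.l V.γ ≤ GK) ∧
  (V.l = 3 → V.v (io ϖ) ^ 2 = 3⁻¹) ∧
  ∀ (b : Zw) (k : ℕ), ϖ ^ k ∣ b ↔ V.v (io b) ≤ V.v (io ϖ) ^ k

/-- value groups and the fixed field -/
def PLd_st : Prop :=
  (∀ (V : Plc) (ϖ : Zw), Prime ϖ → Ov V ϖ →
    ∀ y : Qb, y ≠ 0 → Fix V.I y → ∃ k : ℤ, V.v y = V.v (io ϖ) ^ k) ∧
  ∀ x : Qb, Fix GK x → (∃ a b : Zw, b ≠ 0 ∧ x = io a / io b) ∧
    ((∀ V : Plc, V.v x ≤ 1) → ∃ a : Zw, x = io a)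

/-! ### Reciprocity -/

/-- transport along an inner automorphism -/
def CNG_st : Prop := ∀ (R : Type) [CommRing R] (θ : GQ → R),
  (∀ (H : Subgroup GQ) (f : GQ → GQ → R) (k : GQ), Mu H θ → Co2 θ H f → k ∈ H →
    Bo2 θ H fun g h => f g h - θ k * f (k⁻¹ * g * k) (k⁻¹ * h * k)) ∧
  (∀ (H H' : Subgroup GQ) (f : GQ → GQ → R) (k : GQ) (r : R), (∀ g, g ∈ H ↔ k⁻¹ * g * k ∈ H') →
    (∀ g ∈ H, θ (k⁻¹ * g * k) = θ g) → Bo2 θ H' f →
    Bo2 θ H fun g h => r * f (k⁻¹ * g * k) (k⁻¹ * h * k)) ∧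
  ∀ (G H H' : Subgroup GQ) (f : GQ → GQ → R) (k : GQ), Mu G θ → Co2 θ G f → k ∈ G → H ≤ G →
    (∀ g, g ∈ H ↔ k⁻¹ * g * k ∈ H') → Bo2 θ H' f → Bo2 θ H f

/-- additive and multiplicative cochains -/
def ADM_st : Prop := ∀ (N : ℕ) (H : Subgroup GQ) (f : GQ → GQ → ZMod N), N ≠ 0 →
  (Co2 (cy N) H f → ∃ M, ON M ∧ Coc H (fun g h => zt N ^ (f g h).val) ∧
    Inf2 M H fun g h => zt N ^ (f g h).val) ∧
  (Bo2 (cy N) H f ↔ Cob H fun g h => zt N ^ (f g h).val) ∧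
  ∀ (s : GQ → ZMod N) (x : Qb), x ≠ 0 → Fix H x → Adt H s → Lc H s →
    Cob H fun g h => zt N ^ (km N g x * s h).val * x ^ car (s g) (s h)

/-- `r` is twice the local invariant of `f` -/
def IvK (N : ℕ) (V : Plc) (f : GQ → GQ → ZMod N) (r : ZMod N) : Prop :=
  ∀ (s : GQ → ZMod N) (φ : GQ), Frob V.l V.γ φ → Adt V.D s → Lc V.D s → (∀ τ ∈ V.I, s τ = 0) →
    s φ = 1 → Bo2 (cy N) V.D fun g h => 2 * f g h - r * (km N g V.l * s h)

/-- the invariant of a biadditive function -/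
def IVK_st : Prop := ∀ (p n : ℕ) (V : Plc) (ϖ : Zw) (φ τ : GQ) (u : ZMod (p ^ n))
  (f b : GQ → GQ → ZMod (p ^ n)), p.Prime → 1 ≤ n → Sp (p ^ n) V ϖ φ → τ ∈ V.I →
  u * km (p ^ n) τ V.l = 1 → Bia V.D b → Co2 (cy (p ^ n)) V.D f →
  Bo2 (cy (p ^ n)) V.D (fun g h => f g h - b g h) → IvK (p ^ n) V f (2 * u * (b τ φ - b φ τ))

/-- formal properties of the invariant -/
def IVT_st : Prop := ∀ (N : ℕ) (V : Plc) (f : GQ → GQ → ZMod N) (r : ZMod N), N ≠ 0 →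
  V.l % 3 = 1 → N ∣ V.l - 1 → (Bo2 (cy N) V.D f → IvK N V f 0) ∧
  (∀ f' r' F, IvK N V f r → IvK N V f' r' → (∀ g ∈ V.D, ∀ h ∈ V.D, F g h = f g h + f' g h) →
    IvK N V F (r + r')) ∧
  (∀ k : GQ, IvK N (V.mv k) f r →
    IvK N V (fun g h => cy N k * f (k⁻¹ * g * k) (k⁻¹ * h * k)) r) ∧
  (∀ (V' : Plc) (ϖ : Zw), Prime ϖ → Ov V ϖ → Ov V' ϖ → Co2 (cy N) GK f → IvK N V' f r →
    IvK N V f r) ∧
  (IvK N V f r → Iv V.l V.γ (fun g h => zt N ^ (2 * f g h).val) N (r.val / N))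

/-- the transfer to the rational numbers -/
def TRF_st : Prop := ∀ (N : ℕ) (f : GQ → GQ → ZMod N) (c : GQ), N ≠ 0 → c ∉ GK →
  Co2 (cy N) GK f → ∃ F, Co2 (cy N) ⊤ F ∧
    (∀ g ∈ GK, ∀ h ∈ GK, F g h = f g h + cy N c * f (c⁻¹ * g * c) (c⁻¹ * h * c)) ∧
    ∀ V : Plc, Bo2 (cy N) V.D f → Bo2 (cy N) (V.mv c).D f → Bo2 (cy N) (Dec V.v) F

/-- the reciprocity law for the invariants -/
def RC1_st : Prop := ∀ (p n : ℕ) (f : GQ → GQ → ZMod (p ^ n)) (Q : Finset Zw) (V : Zw → Plc)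
  (r : Zw → ZMod (p ^ n)), p.Prime → 1 ≤ n → Co2 (cy (p ^ n)) GK f →
  (∀ ϖ ∈ Q, PP ϖ ∧ Ov (V ϖ) ϖ ∧ nn ϖ = (V ϖ).l ∧ p ^ n ∣ (V ϖ).l - 1 ∧
    IvK (p ^ n) (V ϖ) f (r ϖ)) →
  (∀ W : Plc, (∀ ϖ ∈ Q, ¬ Ov W ϖ) → Bo2 (cy (p ^ n)) W.D f) → 2 * ∑ ϖ ∈ Q, r ϖ = 0

/-! ### The place above three -/

/-- the layers -/
noncomputable def Uc (m : ℕ) : Subgroup GQ := MulAction.stabilizer GQ (zt (3 ^ (m + 1)))

/-- the tower -/
def CYM_st : Prop := Uc 0 = GK ∧ Antitone Uc ∧ (∀ g, g ∈ Uc 1 ↔ cy 9 g = 1) ∧ ∀ m, ON (Uc m) ∧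
  (∀ g, g ∈ Uc m ↔ g ∈ GK ∧ lA m g = 0) ∧ (∀ g ∈ GK, g ^ 3 ^ m ∈ Uc m) ∧
  (∃ (χ : GQ → ZMod 3) (s : GQ), Step 3 (Uc (m + 1)) (Uc m) χ s ∧ Lc (Uc m) χ ∧ s ∈ V3.I) ∧
  (∃ (χ : GQ → ZMod 9) (s : GQ), Adt (Uc m) χ ∧ Lc (Uc m) χ ∧ s ∈ V3.I ⊓ Uc m ∧ χ s = 1 ∧
    (∀ g, g ∈ Uc (m + 2) ↔ g ∈ Uc m ∧ χ g = 0) ∧
    ∀ g, g ∈ Uc (m + 1) ↔ g ∈ Uc m ∧ 3 * χ g = 0) ∧
  ∀ N, ON N → ∃ r, ¬ V3.D ⊓ N ≤ Uc r

/-- a local class dies in the tower -/
def LTa_st : Prop := ∀ (N : Subgroup GQ) (c : GQ → GQ → Qb), ON N → Coc V3.D c → Inf2 N V3.D c →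
  (∀ g ∈ V3.D, ∀ h ∈ V3.D, c g h ^ 3 = 1) → ∃ m, Cob (V3.D ⊓ Uc m) c

/-- descent in a cyclic extension of degree nine -/
def LTb_st : Prop := ∀ (l : ℕ) [Fact l.Prime] (γ : GQ) (N D₀ D₁ D₂ : Subgroup GQ)
  (χ : GQ → ZMod 9) (s : GQ) (c : GQ → GQ → Qb), Loc l γ D₀ → Adt D₀ χ → Lc D₀ χ → s ∈ D₀ →
  χ s = 1 → (∀ g, g ∈ D₂ ↔ g ∈ D₀ ∧ χ g = 0) → (∀ g, g ∈ D₁ ↔ g ∈ D₀ ∧ 3 * χ g = 0) → ON N →
  Coc D₀ c → Inf2 N D₀ c → (∀ g ∈ D₀, ∀ h ∈ D₀, c g h ^ 3 = 1) → Cob D₂ c → Cob D₁ c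

/-- a local class dies in the first layer -/
def LTc_st : Prop := ∀ (N : Subgroup GQ) (c : GQ → GQ → Qb), ON N → Coc V3.D c → Inf2 N V3.D c →
  (∀ g ∈ V3.D, ∀ h ∈ V3.D, c g h ^ 3 = 1) → Cob (V3.D ⊓ Uc 1) c

/-- the shape of elements with valuations divisible by three at the inert primes -/
def NLa_st : Prop := ∀ a : Qb, a ≠ 0 → Fix GK a →
  (∀ (V : Plc) (ϖ : Zw), PP ϖ → Ov V ϖ → nn ϖ % 9 ≠ 1 → ∃ k : ℤ, V.v a = V.v (io ϖ) ^ (3 * k)) →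
  ∃ (u z : Zw) (i : ℕ) (w : Qb), IsUnit u ∧ Pry z ∧ nn z % 9 = 1 ∧ w ≠ 0 ∧ Fix GK w ∧
    a = io (u * pw ^ i * z) * w ^ 3

/-- explicit local norms -/
def NLb_st : Prop := ∀ (χ : GQ → ZMod 3) (s : GQ) (u z : Zw) (i : ℕ),
  Step 3 (V3.D ⊓ Uc 1) V3.D χ s → IsUnit u → Pry z → nn z % 9 = 1 →
  IsN 3 (V3.D ⊓ Uc 1) s (io (u * pw ^ i * z))

/-- the local-global principle without a condition at three, first form -/
def R2g_st : Prop := ∀ f : GQ → GQ → ZMod 3, Co2 (fun _ => 1) GK f →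
  (∀ V : Plc, V.l ≠ 3 → Bo2 (fun _ => 1) V.D f) → Bo2 (fun _ => 1) GK f

/-- removal of ramification -/
def R2u_st : Prop := ∀ (f : GQ → GQ → ZMod 3) (b : Zw), pw ∣ b → Bo2 (fun _ => 1) GK f →
  f 1 1 = 0 → (∀ V : Plc, ¬ Ov V b → Un2 GK V.I f) →
  ∃ β, Lc GK β ∧ Unr b β ∧ ∀ g ∈ GK, ∀ h ∈ GK, f g h = β h - β (g * h) + β g

/-- global Kummer theory -/
def KUK_st : Prop := ∀ (a : GQ → ZMod 3) (T : Finset Zw), Adt GK a → Lc GK a → (∀ ϖ ∈ T, PP ϖ) →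
  (∀ ϖ, PP ϖ → ϖ ∉ T → ∃ V, Ov V ϖ ∧ ∀ τ ∈ V.I, a τ = 0) →
  ∃ (u i : ZMod 3) (e : Zw → ZMod 3), ∀ g ∈ GK,
    a g = u * km 3 g w3 + i * km 3 g (io pw) + ∑ ϖ ∈ T, e ϖ * km 3 g (io ϖ)

/-- two elements at three -/
def KG1_st : Prop := ∀ m : ℕ, ∃ x₁ ∈ V3.D, ∃ x₂ ∈ V3.D, lA m x₁ = 1 ∧ lA m x₂ = 0 ∧ cy 9 x₁ ≠ 1 ∧
  cy 9 x₂ = 1 ∧ km 3 x₂ (io pw) ≠ 0

/-- a bound for the order of a module over a chain ring -/
def MOD_st : Prop := ∀ (R : Type) [CommRing R] (t : R) (N d i : ℕ) (M : Type) [AddCommGroup M]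
  [Module R M], Chn t N → i ≤ N → {x : M | t • x = 0}.Finite →
  {x : M | t • x = 0}.ncard ≤ kp t ^ (d + 1) → (i < N → ∃ x : M, t ^ i • x = 0 ∧ ∀ y, x ≠ t • y) →
  Finite M ∧ Nat.card M ≤ kp t ^ (d * N + i)

/-! ### Approximation -/

/-- approximation by an integer -/
def APA_st : Prop := ∀ (U : Subgroup GQ) (B : Finset ℕ) (T : Plc → Qb) (ε : ℝ),
  IsOpen (U : Set GQ) → 0 < ε → (∀ W : Plc, W.l ∈ B → W.v (T W) ≤ 1 ∧
    ∀ (W' : Plc) (u : GQ), u ∈ U → W'.v = (W.mv u).v → u (T W') = T W) →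
  ∃ α : Qb, Fix U α ∧ (∀ W : Plc, W.v α ≤ 1) ∧ ∀ W : Plc, W.l ∈ B → W.v (α - T W) < ε

/-- the prime factors can be made to split completely -/
def APB_st : Prop := ∀ (U : Subgroup GQ) (B : Finset ℕ) (α₀ : Qb) (ε : ℝ), IsOpen (U : Set GQ) →
  0 < ε → Fix U α₀ → (∀ W : Plc, W.v α₀ ≤ 1) → (∀ l : ℕ, l.Prime → l ≤ U.index → l ∈ B) →
  ∃ α : Qb, α ≠ 0 ∧ Fix U α ∧ (∀ W : Plc, W.v α ≤ 1) ∧
    (∀ W : Plc, W.l ∈ B → W.v (α - α₀) < ε) ∧ ∀ W : Plc, W.l ∉ B → W.v α < 1 → Dec W.v ≤ U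

end Pool.Agent.MP_e23604_nt.W

end

section

/-! A local class dies in the cyclotomic tower. -/

set_option autoImplicit false

open Finset
open scoped Classical

namespace Pool.Agent.MP_e23604_nt.W

open B R S
open MP_3e91a1_nt (Step IsN Loc Nm Nrm Pl Ind)

theorem step_HLTa (hCYM : CYM_st) (hCYG2 : CYG2_st) {N H H' : Subgroup GQ} {c : GQ → GQ → Qb}
    {χ : GQ → ZMod 3} {s : GQ} {m : ℕ} (hN : ON N) (hc : Coc V3.D c) (hi : Inf2 N V3.D c)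
    (h1 : N ⊓ V3.D ≤ H) (h2 : H' ≤ V3.D) (hS : Step 3 H H' χ s) (hcob : Cob (H ⊓ Uc m) c) :
    ∃ m', Cob (H' ⊓ Uc m') c := by
  obtain ⟨z0, z1, -, z2⟩ := hCYM
  have hHH := (Lib.SB 3 H H' χ s hS).1
  have hgen := (Lib.SB 3 H H' χ s hS).2.2.2.2.2.2.2.1
  have hLc : Lc H' χ := ⟨N, hN, fun g hg h hh e => by
    have e0 := H'.mul_mem (H'.inv_mem hg) hh
    have e1 := hS.add g hg (g⁻¹ * h) e0
    rw [mul_inv_cancel_left, ((hS.ker _).1 (h1 ⟨e, h2 e0⟩)).2, add_zero] at e1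
    exact e1.symm⟩
  have alt : ∀ D : Subgroup GQ, D ≤ H' → D ≤ H ∨ ∃ t, Step 3 (D ⊓ H) D χ t := fun D hD => by
    by_cases h : D ≤ H
    · exact Or.inl h
    · obtain ⟨g, hg, hg'⟩ := SetLike.not_le_iff_exists.1 h
      obtain ⟨i, hi⟩ := hgen g (hD hg) hg'
      exact Or.inr ⟨_, hS.add.mono hD, fun g => ⟨fun h => ⟨h.1, ((hS.ker g).1 h.2).2⟩,
        fun h => ⟨h.1, (hS.ker g).2 ⟨hD h.1, h.2⟩⟩⟩, pow_mem hg i, hi⟩
  rcases alt (H' ⊓ Uc m) inf_le_left with h | ⟨t, S1⟩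
  · exact ⟨m, hcob.mono (le_inf h inf_le_right)⟩
  have k0 : H' ⊓ Uc m ≤ V3.D := inf_le_left.trans h2
  obtain ⟨a, a0, ha, hb⟩ := hCYG2 3 N _ _ χ t c (by norm_num) hN S1.add (hLc.mono inf_le_left)
    S1.ker S1.mem S1.one (hc.mono k0) (hi.mono le_rfl k0) (hcob.mono fun g hg => ⟨hg.2, hg.1.2⟩)
  have hN1 := hN.inf (z2 m).1
  have k1 : V3.D ⊓ (N ⊓ Uc m) ≤ H' ⊓ Uc m := fun g hg => ⟨hHH (h1 ⟨hg.2.1, hg.1⟩), hg.2.2⟩
  have hD : Loc 3 1 (H' ⊓ Uc m) := ⟨k0.trans inf_le_left, _, hN1, fun g hg =>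
    k1 ⟨⟨hg.1, z0 ▸ z1 (Nat.zero_le m) hg.2.2⟩, hg.2⟩⟩
  have ex : ∃ r, ¬ H' ⊓ Uc m ≤ Uc r :=
    ((z2 m).2.2.2.2.2 _ hN1).imp fun r hr h => hr (k1.trans h)
  have r1 := Nat.find_spec ex
  obtain ⟨r, hr⟩ : ∃ r, Nat.find ex = r + 1 := Nat.exists_eq_succ_of_ne_zero fun h => r1
    (h ▸ inf_le_right.trans (z1 (Nat.zero_le m)))
  have r3 : H' ⊓ Uc m ≤ Uc r := not_not.1 (Nat.find_min ex (by omega))
  rw [hr] at r1
  obtain ⟨χ', s', S3, L3, -⟩ := (z2 r).2.2.2.1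
  obtain ⟨u, hu, hu'⟩ := SetLike.not_le_iff_exists.1 r1
  obtain ⟨i, hi'⟩ := (Lib.SB 3 _ _ χ' s' S3).2.2.2.2.2.2.2.1 u (r3 hu) hu'
  refine ⟨m + (r + 1), Cob.mono (H := H' ⊓ Uc m ⊓ Uc (r + 1)) ?_ fun g hg =>
    ⟨⟨hg.1, z1 (Nat.le_add_right _ _) hg.2⟩, z1 (Nat.le_add_left _ _) hg.2⟩⟩
  rcases alt (H' ⊓ Uc m ⊓ Uc (r + 1)) (inf_le_left.trans inf_le_left) with h | ⟨t', S2⟩
  · exact hcob.mono fun g hg => ⟨h hg, hg.1.2⟩
  obtain ⟨μ, μ0, hμ, hμa⟩ := Lib.L2 3 3 1 w3 a _ (H' ⊓ Uc m ⊓ Uc (r + 1)) _ χ χ' t' (u ^ i)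
    (by norm_num) w3_prim hD
    (fun g hg => mem_GK'.1 (k0 hg).2) S1.add (hLc.mono inf_le_left) (L3.mono r3)
    ⟨S3.add.mono r3, fun g => ⟨fun h => ⟨h.1, ((S3.ker g).1 h.2).2⟩,
      fun h => ⟨h.1, (S3.ker g).2 ⟨r3 h.1, h.2⟩⟩⟩, pow_mem hu i, hi'⟩ S2 a0 ha
  obtain ⟨-, hd, -⟩ := (R.NRM_ok 3 _ _ χ t' (by norm_num) S2.add S2.ker S2.mem S2.one).1 μ hμ
  rw [show ∏ i ∈ range 3, (t' ^ i) μ = a from hμa] at hd
  have c1 := cob_of_lc ((hLc.mono (inf_le_left.trans inf_le_left)).map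
    fun x => ∏ i ∈ range x.val, (t' ^ i) μ)
    (fun g _ => prod_ne_zero_iff.2 fun i _ => (_root_.map_ne_zero _).2 μ0) hd
  refine ((hb.mono inf_le_left).mul c1.inv).congr fun g _ h _ => ?_
  rw [mul_inv_cancel_right₀ (pow_ne_zero _ a0)]

theorem LTa_pf (hCYM : CYM_st) (hCYG2 : CYG2_st) (hCMK : CMK_st) : LTa_st := by
  intro N c hN hc hi h3
  obtain ⟨i1, i2, i3, i4, -⟩ := Lib.IND 3
  have n1 : Nrm (N ⊓ V3.D) V3.D := fun g hg x hx =>
    ⟨hN.1.conj_mem x hx.1 g, V3.D.mul_mem (V3.D.mul_mem hg hx.2) (V3.D.inv_mem hg)⟩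
  have n2 : (N ⊓ V3.D).relIndex V3.D ≠ 0 := by
    rw [Subgroup.inf_relIndex_right]
    exact i4 _ _ hN.2
  obtain ⟨H, a1, a2, a3, a4⟩ := i2 _ _ inf_le_right n1 n2
  obtain ⟨m, hm⟩ := i1 _ _ H (fun H' => ∃ m, Cob (H' ⊓ Uc m) c) le_rfl a1
    (fun g hg => n1 g (a2 hg)) (fun e => n2 (Subgroup.relIndex_eq_zero_of_le_right a2 e)) a3
    ⟨0, cob_of_lc (Lc.const _ (c 1 1)) (fun _ _ => (hi.2.2 1 (one_mem _) 1 (one_mem _)).1)
      fun g hg h hh => by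
        rw [(hi.2.2 1 (one_mem _) 1 (one_mem _)).2 g hg.1.1,
          ← hi.1 g hg.1.2 1 (one_mem _) h hh.1.2 (by simpa using hh.1.1)]
        exact congrArg (· * c 1 1) (hi.2.1 1 (one_mem _) 1 (one_mem _) g hg.1.2
          (by simpa using hg.1.1))⟩
    fun H₁ H' χ s b1 b2 hS ⟨m, hm⟩ => step_HLTa hCYM hCYG2 hN hc hi b1 (b2.trans a2) hS hm
  obtain ⟨u1, -, u2, -⟩ := hCYM.2.2.2 m
  refine ⟨m, hCMK 3 1 N N (H ⊓ Uc m) _ c Nat.prime_three hN hN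
    (fun g hg => ⟨a1 ⟨hg.1, hg.2.1⟩, hg.2.2⟩)
    (inf_le_inf_right _ a2) ?_ (hc.mono inf_le_left) (hi.mono le_rfl inf_le_left)
    (fun g hg h hh => h3 g hg.1 h hh.1) hm⟩
  rwa [i3 H _ _ m a2 (fun g _ x hx => u1.1.conj_mem x hx g) (i4 _ _ u1.2)
    (fun g hg => u2 g hg.2) a4]

end Pool.Agent.MP_e23604_nt.W

end

section

set_option autoImplicit false

open Finset
open scoped Classical

namespace Pool.Agent.MP_e23604_nt.W

open B R S
open MP_3e91a1_nt (Step IsN Loc Nm Nrm Pl Ind)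

theorem glob_HR2g (hABG : ABG_st) (hCNG : CNG_st) (hPLK : PLK_st) {f : GQ → GQ → ZMod 3}
    {c : GQ → GQ → Qb} {M : Subgroup GQ} (hf : Co2 (fun _ => 1) GK f)
    (hl : ∀ V : Plc, V.l ≠ 3 → Bo2 (fun _ => 1) V.D f)
    (hb : ∀ H ≤ GK, Bo2 (fun _ => 1) H f ↔ Cob H c) (hM : ON M) (hc : Coc GK c)
    (hi : Inf2 M GK c) (h3 : ∀ g h, c g h ^ 3 = 1) {U : Subgroup GQ} (hU : ON U) (hK : U ≤ GK)
    (h : Cob (V3.D ⊓ U) c) : Cob U c := by
  have ov : ∀ V : Plc, V.l = 3 → Ov V pw := fun V e => by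
    obtain ⟨ϖ, -, h1, h2, -⟩ := hPLK.1 V
    exact h2 e ▸ h1
  obtain ⟨β, h1, h2⟩ := hABG 3 1 (M ⊓ U) U c Nat.prime_three (hM.inf hU) inf_le_right
    (GK_nr.imp fun x hx => ⟨fun g hg => hx.1 g (hK hg), hx.2⟩) (hc.mono hK)
    (hi.mono inf_le_left hK) (fun g _ h _ => h3 g h) fun l _ γ => by
      let V : Plc := ⟨l, γ⟩
      refine Cob.mono (H := V.D ⊓ U) ?_ fun g hg => ⟨⟨hg.1, hK hg.2⟩, hg.2⟩
      by_cases e : V.l = 3
      · obtain ⟨-, k, hk, e'⟩ := (hPLK.2.2.1 V3 pw pw_prime (ov V3 rfl)).2.1 V (ov V e)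
        rw [← hb _ (inf_le_right.trans hK)] at h ⊢
        refine (hCNG _ _).2.2 GK _ _ f k⁻¹ ⟨Lc.const _ _, rfl, fun _ _ _ _ => (mul_one _).symm⟩ hf
          (inv_mem hk) (inf_le_right.trans hK) (fun g => ?_) h
        rw [((hPLK.2.2.2.2.1 _ _).2 e').2.1, inv_inv]
        refine and_congr (V3.mv_D k g) ?_
        change g ∈ U ↔ k * g * k⁻¹ ∈ U
        rw [mul_assoc, hU.1.mem_comm_iff, inv_mul_cancel_right]
      · exact ((hb _ V.D_le).1 (hl V e)).mono inf_le_left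
  exact ⟨_, β, hM.inf hU, h1, h2⟩

theorem R2g_pf (hLTc : LTc_st) (hNLa : NLa_st) (hNLb : NLb_st) (hABG : ABG_st) (hCYG2 : CYG2_st) (hADM : ADM_st) (hCNG : CNG_st) (hCYM : CYM_st) (hPLK : PLK_st) (hFRK : FRK_st) (hKM : KM_st) (hLIN : LIN_st) : R2g_st := by
  intro f hf hl
  have : Fact (Nat.Prime 3) := ⟨Nat.prime_three⟩
  have cy3 : ∀ g ∈ GK, cy 3 g = 1 := fun g hg => ((hKM 3 three_ne_zero).2.2.2.2.2.2.2.1 g hg).1
  have hb : ∀ H ≤ GK, Bo2 (fun _ => 1) H f ↔ Cob H fun g h => zt 3 ^ (f g h).val := fun H hH => by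
    rw [← (hADM 3 H f three_ne_zero).2.1]
    refine exists_congr fun b => and_congr_right fun _ => forall₂_congr fun g hg => ?_
    rw [cy3 g (hH hg)]
  obtain ⟨M, hM, hc, hi⟩ := (hADM 3 GK f three_ne_zero).1
    ⟨hf.1, fun g hg => by rw [cy3 g hg]; exact hf.2 g hg⟩
  have hz := zt_prim three_ne_zero
  have h3 : ∀ g h, (zt 3 ^ (f g h).val) ^ 3 = 1 := fun g h => by
    rw [pow_right_comm, hz.pow_eq_one, one_pow]
  have h0 : ∀ g h, zt 3 ^ (f g h).val ≠ 0 := fun g h => pow_ne_zero _ (hz.ne_zero three_ne_zero)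
  obtain ⟨e0, han, h9, hm⟩ := hCYM
  obtain ⟨χ, s, hs, hχ, hsI⟩ := (hm 0).2.2.2.1
  rw [e0, zero_add] at hs
  rw [e0] at hχ
  have hK : Uc 1 ≤ GK := fun g hg => ((hs.ker g).1 hg).1
  have G := @glob_HR2g hABG hCNG hPLK f _ M hf hl hb hM hc hi h3
  obtain ⟨a, ha, haK, hca⟩ := hCYG2 3 M (Uc 1) GK χ s _ (by norm_num) hM hs.add hχ hs.ker hs.mem
    hs.one hc hi (G (hm 1).1 hK (hLTc M _ hM (hc.mono V3.D_le) (hi.mono le_rfl V3.D_le)
      fun g _ h _ => h3 g h))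
  have ker : ∀ (V : Plc) (g : GQ), g ∈ V.D ⊓ Uc 1 ↔ g ∈ V.D ∧ χ g = 0 := fun V g =>
    and_congr_right fun hg => (hs.ker g).trans (and_iff_right (V.D_le hg))
  obtain ⟨u, z, i, w, hu, hz, hz9, hw, hwK, e⟩ := hNLa a ha haK fun V ϖ hp ho hn => by
    have hV : V.l ≠ 3 := fun e => by
      obtain ⟨ϖ', -, h1, h2, -⟩ := hPLK.1 V
      exact hp.2.pw (((hPLK.2.2.1 V pw pw_prime (h2 e ▸ h1)).1 ϖ).1 ho)
    have k9 := (hKM 9 (by norm_num)).2.2.2.2.2.2.2.2 V fun e => hV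
      ((Nat.prime_dvd_prime_iff_eq V.hl.out Nat.prime_three).1
        (V.hl.out.dvd_of_dvd_pow (n := 2) e))
    obtain ⟨σ, hσ⟩ := (hFRK V ϖ hp.1 ho).1
    obtain ⟨j, hj⟩ := (Lib.SB 3 _ _ χ s hs).2.2.2.2.2.2.2.1 σ (V.D_le hσ.1) fun e => hn (by
      rw [h9, k9.2.2 ϖ σ hσ] at e
      exact (ZMod.natCast_eq_natCast_iff' (nn ϖ) 1 9).1 (by simpa using e))
    obtain ⟨y, hy, hyF, e⟩ := (R.NRM_ok 3 _ V.D χ _ (by norm_num) (hs.add.mono V.D_le) (ker V)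
      (pow_mem hσ.1 j) hj).2 a (div_CREC ((hb _ V.D_le).1 (hl V hV)) (hca.mono V.D_le) h0)
    obtain ⟨k, hk⟩ := (hPLK.2.2.1 V ϖ hp.1 ho).2.2.2.2.2.2 y hy fun g hg =>
      hyF g ⟨V.I_le hg, (h9 g).2 (k9.2.1 g hg.1).1⟩
    refine ⟨k, ?_⟩
    rw [← e, map_prod, prod_congr rfl fun n _ => (pow_mem (pow_mem hσ.1 j) n).1 y, prod_const,
      card_range, hk, ← zpow_natCast, ← zpow_mul, mul_comm]
    rfl
  have st : Step 3 (V3.D ⊓ Uc 1) V3.D χ s := ⟨hs.add.mono V3.D_le, ker V3, V3.I_le hsI, hs.one⟩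
  have sb := (Lib.SB 3 _ _ χ s st).2.2.2.2.2.2.2.2.2.2.2.2
  obtain ⟨y, hy, hyF, e'⟩ := (sb.1 _ _ (hNLb χ s u z i st hu hz hz9)
    (sb.2.2.1 w hw fun g hg => hwK g (V3.D_le hg)).1).1
  have hd := ((R.NRM_ok 3 _ V3.D χ s (by norm_num) st.add st.ker st.mem st.one).1 y hyF).2.1
  rw [← e, Nm] at e'
  rw [e'] at hd
  have h1 := cob_of_lc ((hχ.mono V3.D_le).map fun x => ∏ i ∈ range x.val, (s ^ i) y)
    (fun g _ => prod_ne_zero_iff.2 fun i _ => (map_ne_zero _).2 hy) hd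
  exact (hb _ le_rfl).2 (G GK_on le_rfl ((div_CREC h1 ((hca.mono V3.D_le).congr
    fun _ _ _ _ => mul_comm _ _) fun _ _ => pow_ne_zero _ ha).mono inf_le_left))

end Pool.Agent.MP_e23604_nt.W

end

section

set_option autoImplicit false

open Finset
open scoped Classical

namespace Pool.Agent.MP_e23604_nt.W

open B R S
open MP_3e91a1_nt (Step IsN Loc Nm Nrm Pl Ind)

/-- reduction modulo three -/
def f0_HLTb (x : ZMod 9) : ZMod 3 := (x.val : ZMod 3)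

/-- division by three -/
def f1_HLTb (x : ZMod 9) : ZMod 3 := ((x.val / 3 : ℕ) : ZMod 3)

theorem ar_HLTb : (∀ x y : ZMod 9, f0_HLTb (x + y) = f0_HLTb x + f0_HLTb y) ∧
    (∀ x : ZMod 9, 3 * x = 0 ↔ f0_HLTb x = 0) ∧ f0_HLTb 1 = 1 ∧
    (∀ x y : ZMod 9, 3 * x = 0 → 3 * y = 0 → f1_HLTb (x + y) = f1_HLTb x + f1_HLTb y ∧
      car x y = car (f1_HLTb x) (f1_HLTb y)) ∧
    (∀ x : ZMod 9, x = 0 ↔ 3 * x = 0 ∧ f1_HLTb x = 0) ∧ f1_HLTb (1 + 1 + 1) = 1 ∧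
    (3 : ZMod 9) * (1 + 1 + 1) = 0 := by
  decide

theorem Nm3_HLTb (s : GQ) (y : Qb) : Nm 3 s y = y * s y * s (s y) := by
  simp [Nm, prod_range_succ, pow_succ]

theorem cube_HLTb (s : GQ) (y : Qb) : (s ^ 3) y = s (s (s y)) := by
  simp [pow_succ]

theorem IsN_s_HLTb {D₀ D₂ : Subgroup GQ} {χ : GQ → ZMod 9} {s : GQ} (hχ : Adt D₀ χ) (hs : s ∈ D₀)
    (h2 : ∀ g, g ∈ D₂ ↔ g ∈ D₀ ∧ χ g = 0) {x : Qb} (hx : IsN 3 D₂ (s ^ 3) x) :
    IsN 3 D₂ (s ^ 3) (s x) := by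
  obtain ⟨z, z0, z1, rfl⟩ := hx
  refine ⟨s z, (map_ne_zero s).2 z0, fun g hg => ?_, ?_⟩
  · obtain ⟨g0, g1⟩ := (h2 g).1 hg
    have m : s⁻¹ * g * s ∈ D₀ := mul_mem (mul_mem (inv_mem hs) g0) hs
    have e := hχ s hs _ m
    rw [show s * (s⁻¹ * g * s) = g * s by group, hχ g g0 s hs, g1, zero_add] at e
    have := congrArg s (z1 _ ((h2 _).2 ⟨m, left_eq_add.1 e⟩))
    rwa [← AlgEquiv.mul_apply, show s * (s⁻¹ * g * s) = g * s by group, AlgEquiv.mul_apply] at this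
  · simp only [Nm3_HLTb, cube_HLTb, map_mul]

theorem LTb_pf (hCYG2 : CYG2_st) : LTb_st := by
  intro l _ γ N D₀ D₁ D₂ χ s c hL hχ hc hs hs1 h2 h1 hN hC hI h3 hB
  obtain ⟨r1, r2, r3, r4, r5, r6, r7⟩ := ar_HLTb
  obtain ⟨a, a0, aF, hA⟩ := hCYG2 9 N D₂ D₀ χ s c (by norm_num) hN hχ hc h2 hs hs1 hC hI hB
  have hA3 : Cob D₀ fun g h => (a ^ 3) ^ car (χ g) (χ h) :=
    ((hA.mul hA).mul hA).congr fun g hg j hj => by
      linear_combination (a ^ 3) ^ car (χ g) (χ j) * h3 g hg j hj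
  obtain ⟨y, y0, yF, hy⟩ := (R.NRM_ok 9 D₂ D₀ χ s (by norm_num) hχ h2 hs hs1).2 _ hA3
  have h10 : D₁ ≤ D₀ := fun g hg => ((h1 g).1 hg).1
  have S0 : Step 3 D₁ D₀ (fun g => f0_HLTb (χ g)) s :=
    ⟨fun g hg j hj => by rw [hχ g hg j hj, r1], fun g => by rw [h1, r2], hs, by rw [hs1, r3]⟩
  have hs3 : χ (s ^ 3) = 1 + 1 + 1 := by
    rw [pow_succ, pow_two, hχ _ (mul_mem hs hs) s hs, hχ s hs s hs, hs1]
  have S1 : Step 3 D₂ D₁ (fun g => f1_HLTb (χ g)) (s ^ 3) :=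
    ⟨fun g hg j hj => by
      rw [hχ g (h10 hg) j (h10 hj), (r4 _ _ ((h1 g).1 hg).2 ((h1 j).1 hj).2).1],
      fun g => by rw [h2, h1, r5, and_assoc], (h1 _).2 ⟨pow_mem hs 3, by rw [hs3, r7]⟩,
      by rw [hs3, r6]⟩
  have L0 : Lc D₀ fun g => f0_HLTb (χ g) := hc.map _
  have L1 : Lc D₁ fun g => f1_HLTb (χ g) := (hc.mono h10).map _
  obtain ⟨-, -, -, -, -, -, -, -, -, b1, -, -, -, -, -, -, -, b2⟩ := Lib.SB 3 _ _ _ _ S0
  obtain ⟨-, -, -, -, -, -, -, -, -, -, -, -, n1, n2, n3, -, -, -⟩ := Lib.SB 3 _ _ _ _ S1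
  have hy' : IsN 3 D₂ (s ^ 3) (Nm 3 (s ^ 3) y) := ⟨y, y0, yF, rfl⟩
  have sa : s a = a := aF s hs
  obtain ⟨w, w0, wF, hw⟩ := (Lib.KUQ 3).1 D₁ D₀ _ s (Nm 3 (s ^ 3) y / a) S0 L0
    (Fix.div_CYC (n2 _ hy').2.1 fun g hg => aF g (h10 hg)) (by
      simp only [prod_range_succ, range_zero, prod_empty, pow_succ, pow_zero, one_mul,
        AlgEquiv.mul_apply, AlgEquiv.one_apply] at hy
      simp only [Nm3_HLTb, cube_HLTb, map_mul, map_div₀, sa]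
      field_simp
      linear_combination hy)
  have hS := fun {x : Qb} => IsN_s_HLTb hχ hs h2 (x := x)
  have sw0 : s w ≠ 0 := (map_ne_zero s).2 w0
  have ssw0 : s (s w) ≠ 0 := (map_ne_zero s).2 sw0
  have w3 : s (s (s w)) = w := (cube_HLTb s w).symm.trans (wF _ S1.mem)
  have hw3 := (n3 w w0 wF).1
  have key : IsN 3 D₂ (s ^ 3) (s w / w) := by
    by_cases hn : IsN 3 D₂ (s ^ 3) w
    · exact (n1 _ _ (hS hn) hn).2
    obtain hn' | ⟨i, hi⟩ := (Lib.L1 3 l γ D₂ D₁ _ _ (by norm_num) (b2 l γ hL L0) L1 S1).1 w (s w)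
      w0 sw0 wF (b1 w wF s hs)
    · exact absurd hn' hn
    have h4 := (n1 _ _ hi ((n2 _ hw3).2.2 (i / 3))).1
    have e : s w / w ^ i * (w ^ 3) ^ (i / 3) = s w / w ^ (i % 3) := by
      conv_lhs => rw [← Nat.div_add_mod i 3, pow_add, pow_mul, Nat.div_add_mod]
      field_simp
    rw [e] at h4
    have h5 : i % 3 < 3 := Nat.mod_lt _ (by norm_num)
    generalize i % 3 = k at h4 h5
    interval_cases k
    · rw [pow_zero, div_one] at h4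
      exact absurd (w3 ▸ hS (hS h4)) hn
    · rwa [pow_one] at h4
    · have h6 := (n1 _ _ h4 hw3).1
      have h7 := (n1 _ _ hw3 (n1 _ _ (n1 _ _ h6 (hS (hS h6))).1 (hS h6)).2).2
      refine absurd (Eq.mp (congrArg _ ?_) h7) hn
      simp only [map_mul, map_div₀, map_pow, w3]
      field_simp
  have ha : IsN 3 D₂ (s ^ 3) a := by
    refine Eq.mp (congrArg _ ?_) (n1 _ _ hy' key).2
    have := (n2 _ hy').1
    rw [hw]
    field_simp
  obtain ⟨z, z0, zF, hz⟩ := ha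
  have hb := ((R.NRM_ok 3 D₂ D₁ _ _ (by norm_num) S1.add S1.ker S1.mem S1.one).1 z zF).2.1
  have hb' := cob_of_lc (L1.map fun x => ∏ i ∈ range x.val, ((s ^ 3) ^ i) z)
    (fun g _ => prod_ne_zero_iff.2 fun i _ => (map_ne_zero _).2 z0) hb
  refine ((hA.mono h10).mul hb'.inv).congr fun g hg j hj => ?_
  rw [show ∏ i ∈ range 3, ((s ^ 3) ^ i) z = a from hz,
    ← (r4 _ _ ((h1 g).1 hg).2 ((h1 j).1 hj).2).2, mul_inv_cancel_right₀ (pow_ne_zero _ a0)]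

theorem LTc_pf (hLTa : LTa_st) (hLTb : LTb_st) (hCYM : CYM_st) : LTc_st := by
  intro N c hN hC hI h3
  obtain ⟨m, hm⟩ := hLTa N c hN hC hI h3
  obtain ⟨-, anti, -, hU⟩ := hCYM
  have step : ∀ m, Cob (V3.D ⊓ Uc (m + 2)) c → Cob (V3.D ⊓ Uc (m + 1)) c := fun m h => by
    obtain ⟨u1, u2, -, -, ⟨χ, s, x1, x2, x3, x4, x5, x6⟩, -⟩ := hU m
    refine hLTb V3.l V3.γ N (V3.D ⊓ Uc m) _ _ χ s c
      ⟨inf_le_left.trans inf_le_left, Uc m, u1, fun g hg => ⟨⟨hg.1, ((u2 g).1 hg.2).1⟩, hg.2⟩⟩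
      (x1.mono inf_le_right) (x2.mono inf_le_right) ⟨V3.I_le x3.1, x3.2⟩ x4 (fun g => ?_)
      (fun g => ?_) hN (hC.mono inf_le_left) (hI.mono le_rfl inf_le_left)
      (fun g hg j hj => h3 g hg.1 j hj.1) h
    · rw [Subgroup.mem_inf, Subgroup.mem_inf, x5, and_assoc]
    · rw [Subgroup.mem_inf, Subgroup.mem_inf, x6, and_assoc]
  have all : ∀ m, Cob (V3.D ⊓ Uc (m + 1)) c → Cob (V3.D ⊓ Uc 1) c := fun m => by
    induction m with
    | zero => exact id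
    | succ m ih => exact fun h => ih (step m h)
  exact all m (hm.mono (inf_le_inf_left _ (anti (Nat.le_succ m))))

end Pool.Agent.MP_e23604_nt.W

end

section

set_option autoImplicit false

open Finset
open scoped Classical

namespace Pool.Agent.MP_e23604_nt.W

open B R S
open MP_3e91a1_nt (Step IsN Loc Nm Nrm Pl Ind)
open MP_f3cd89_nt (Pr ord val_eq_exp ord_finite wa)

theorem tr_HAPA {L : IntermediateField ℚ Qb} [NumberField L] {w : Pr L} {W : Plc} {t : ℝ}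
    (h : Pl L w W.l W.γ t) {n : ℤ} {x : L} (hx : w.valuation L x ≤ WithZero.exp n) :
    W.v x ≤ t ^ n := by
  rcases eq_or_ne x 0 with rfl | h0
  · simpa using (zpow_pos (one_pos.trans h.1) n).le
  · rw [val_eq_exp w h0, WithZero.exp_le_exp] at hx
    exact (h.2 x h0).trans_le (zpow_le_zpow_right₀ h.1.le hx)

theorem APA_pf : APA_st := by
  intro U B T ε hU hε h
  obtain ⟨L, _, hL, hL', -⟩ := Lib.RES U hU
  have h0 : ∀ w : Pr L, ∃ (W : Plc) (t : ℝ), Pl L w W.l W.γ t := fun w => by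
    obtain ⟨l, _, γ, t, e⟩ := R.DIC_ok.1 L w
    exact ⟨⟨l, γ⟩, t, e⟩
  choose P t hP using h0
  have hδ : 0 < min ε 1 := lt_min hε one_pos
  have h1 : ∀ w, ∃ a : L, (P w).l ∈ B → (P w).v (T (P w) - a) < min ε 1 := fun w => by
    by_cases e : (P w).l ∈ B
    · obtain ⟨y, y1, y2⟩ := R.DEN_ok (P w).l (P w).γ U (T (P w)) _ hU (fun u hu =>
        (h _ e).2 _ u hu.2 (AbsoluteValue.ext fun x => (hu.1 x).symm)) hδ
      exact ⟨⟨y, (hL y).2 y1⟩, fun _ => y2⟩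
    · exact ⟨0, fun e' => absurd e' e⟩
  choose a ha using h1
  have hS : {w | (P w).l ∈ B}.Finite :=
    (B.finite_toSet.biUnion fun l _ => ord_finite (l : L)).subset fun w hw =>
      Set.mem_biUnion hw fun e => by
        have e1 := (hP w).2 (P w).l (Nat.cast_ne_zero.2 (P w).hl.out.ne_zero)
        rw [e, neg_zero, zpow_zero] at e1
        exact (nv_lt (P w).l (P w).γ).ne (by simpa using e1)
  obtain ⟨k, hk⟩ := ((Filter.eventually_all_finset hS.toFinset).2 fun w _ =>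
    (tendsto_pow_atTop_nhds_zero_of_lt_one (inv_nonneg.2 (zero_le_one.trans (hP w).1.le))
      (inv_lt_one_of_one_lt₀ (hP w).1)).eventually (gt_mem_nhds hδ)).exists
  obtain ⟨α, -, a1, a2⟩ := wa hS.toFinset a (-k)
  have key : ∀ W : Plc, W.l ∈ B → W.v (α - T W) < min ε 1 := fun W hW => by
    obtain ⟨w, t', e⟩ := (Lib.PLC L).1 W.l W.γ
    obtain ⟨e1, -, u, hu, e2⟩ := ((Lib.PLC L).2 w _ _ _ (hP w)).1 W.l W.γ t' e
    rw [e1] at hW
    have e3 : W.v = ((P w).mv u).v := e2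
    have e4 := tr_HAPA (hP w) (a1 w (hS.mem_toFinset.2 hW))
    rw [zpow_neg, zpow_natCast, ← inv_pow] at e4
    rw [e3, Plc.mv_v, map_sub, hu _ α.2, (h _ hW).2 W u (hL' u hu) e3]
    simpa using bLocA_sub_lt (P w).na (e4.trans_lt (hk w (hS.mem_toFinset.2 hW))) (ha w hW)
  refine ⟨α, (hL _).1 α.2, fun W => ?_, fun W hW => (key W hW).trans_le (min_le_left _ _)⟩
  by_cases hW : W.l ∈ B
  · simpa using bLocA_add_le W.na ((key W hW).le.trans (min_le_right _ _)) (h W hW).1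
  · obtain ⟨w, t', e⟩ := (Lib.PLC L).1 W.l W.γ
    rw [(((Lib.PLC L).2 w _ _ _ (hP w)).1 W.l W.γ t' e).1] at hW
    simpa using tr_HAPA e (n := 0) (a2 w (mt hS.mem_toFinset.1 hW))

end Pool.Agent.MP_e23604_nt.W

end

section

set_option autoImplicit false

open Finset
open scoped Classical

namespace Pool.Agent.MP_e23604_nt.W

open B R S
open MP_3e91a1_nt (Step IsN Loc Nm Nrm Pl Ind)

/-- affine maps of the line -/
@[ext] structure Af_HTPR (R : Type) [CommRing R] where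
  a : Rˣ
  b : R

section
variable {R : Type} [CommRing R]

instance mul_HTPR : Mul (Af_HTPR R) := ⟨fun x y => ⟨x.a * y.a, x.b + x.a * y.b⟩⟩
instance one_HTPR : One (Af_HTPR R) := ⟨⟨1, 0⟩⟩
instance inv_HTPR : Inv (Af_HTPR R) := ⟨fun x => ⟨x.a⁻¹, -(x.a⁻¹ : Rˣ) * x.b⟩⟩

lemma ma_HTPR (x y : Af_HTPR R) : (x * y).a = x.a * y.a := rfl
lemma mb_HTPR (x y : Af_HTPR R) : (x * y).b = x.b + x.a * y.b := rfl

instance grp_HTPR : Group (Af_HTPR R) := Group.ofLeftAxioms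
  (fun x y z => Af_HTPR.ext (mul_assoc _ _ _) (by
    simp only [ma_HTPR, mb_HTPR, Units.val_mul]; ring))
  (fun x => Af_HTPR.ext (one_mul _) (by
    change 0 + ((1 : Rˣ) : R) * x.b = x.b
    simp))
  fun x => Af_HTPR.ext (inv_mul_cancel _) (by
    change -((x.a⁻¹ : Rˣ) : R) * x.b + (x.a⁻¹ : Rˣ) * x.b = 0
    ring)

lemma pa_HTPR (x : Af_HTPR R) (k : ℕ) : (x ^ k).a = x.a ^ k := by
  induction k with
  | zero => rw [pow_zero, pow_zero]; rfl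
  | succ k ih => rw [pow_succ, pow_succ, ma_HTPR, ih]

lemma pb_HTPR (x : Af_HTPR R) (k : ℕ) : (x ^ k).b = (∑ i ∈ range k, (x.a : R) ^ i) * x.b := by
  induction k with
  | zero => rw [pow_zero, sum_range_zero, zero_mul]; rfl
  | succ k ih => rw [pow_succ, mb_HTPR, ih, pa_HTPR, sum_range_succ, Units.val_pow_eq_pow_val]; ring

lemma ord_HTPR {p n : ℕ} (hp : (p : R) ^ n = 0) (x : Af_HTPR R) (h : x.a ^ p ^ n = 1) :
    x ^ p ^ (n + n) = 1 := by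
  rw [pow_add, pow_mul]
  refine Af_HTPR.ext ?_ ?_
  · rw [pa_HTPR, pa_HTPR, h, one_pow]; rfl
  · rw [pb_HTPR, pa_HTPR, h]
    change _ = (0 : R)
    simp [hp]

/-- an element as a unit -/
noncomputable def un_HTPR (r : R) : Rˣ := if h : IsUnit r then h.unit else 1

lemma un_val_HTPR {r : R} (h : IsUnit r) : (un_HTPR r : R) = r := by simp [un_HTPR, h]

end

theorem TPR_pf (hTPU : TPU_st) (hTPG : TPG_st) : TPR_st := by
  intro p n R _ V ϖ σ τ θ hp h1 h3 hϖ hV hσ hτ hk hR hθ hn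
  have hu : ∀ g ∈ V.D, (un_HTPR (θ g) : R) = θ g := fun g hg =>
    un_val_HTPR (IsUnit.of_pow_eq_one (hn g hg) (pow_ne_zero _ hp.ne_zero))
  have ho : ∀ g ∈ V.D, un_HTPR (θ g) ^ p ^ n = 1 := fun g hg => Units.ext (by
    rw [Units.val_pow_eq_pow_val, hu g hg, hn g hg, Units.val_one])
  have hτ' := V.I_le hτ
  have hm : ∀ c, Co θ V.D c → ∀ g ∈ V.D, ∀ h ∈ V.D,
      (⟨un_HTPR (θ (g * h)), c (g * h)⟩ : Af_HTPR R) =
        (⟨un_HTPR (θ g), c g⟩ : Af_HTPR R) * ⟨un_HTPR (θ h), c h⟩ := fun c hc g hg h hh =>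
    Af_HTPR.ext (Units.ext (by
      rw [ma_HTPR, Units.val_mul, hu g hg, hu h hh, hu _ (V.D.mul_mem hg hh), hθ.2.2 g hg h hh]))
      (by rw [mb_HTPR, hu g hg]; exact hc.2 g hg h hh)
  have hl : ∀ c, Co θ V.D c → Lc V.D fun g => (⟨un_HTPR (θ g), c g⟩ : Af_HTPR R) :=
    fun c hc => hθ.1.map₂ hc.1 fun a b => (⟨un_HTPR a, b⟩ : Af_HTPR R)
  have key := fun c hc => hTPU p (n + n) V ϖ σ τ _ (fun g => (⟨un_HTPR (θ g), c g⟩ : Af_HTPR R))
    hp h1 h3 hϖ hV hσ hτ hk (hm c hc) (hl c hc) fun g hg => ord_HTPR hR _ (ho g hg)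
  have h0 : Co θ V.D fun _ => 0 := ⟨Lc.const _ _, fun _ _ _ _ => by simp⟩
  have ha : un_HTPR (θ τ) ^ nn ϖ = un_HTPR (θ τ) := by
    have := congrArg Af_HTPR.a (key _ h0).1
    rw [ma_HTPR, ma_HTPR, pa_HTPR, mul_comm] at this
    exact (mul_right_cancel this).symm
  refine ⟨fun c hc => ?_, fun x y hxy => ?_⟩
  · obtain ⟨k1, k2, k3⟩ := key c hc
    refine ⟨?_, fun a1 a2 g hg => ?_, fun a2 g hg => ?_⟩
    · have := congrArg Af_HTPR.b k1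
      rw [mb_HTPR, mb_HTPR, pa_HTPR, pb_HTPR] at this
      dsimp only at this
      rw [ha, hu σ hσ.1, hu τ hτ'] at this
      linear_combination this
    · obtain ⟨i, k, e⟩ := k3 g hg
      have := congrArg Af_HTPR.b e
      rw [mb_HTPR, pb_HTPR, pb_HTPR] at this
      simpa [a1, a2] using this
    · obtain ⟨i, e⟩ := k2 g hg
      have := congrArg Af_HTPR.b e
      rw [pb_HTPR] at this
      simpa [a2] using this
  · obtain ⟨π, p1, p2, p3, p4, p5⟩ := hTPG p (n + n) V ϖ σ τ (Af_HTPR R) ⟨un_HTPR (θ σ), x⟩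
      ⟨un_HTPR (θ τ), y⟩ hp h1 h3 hϖ hV hσ hτ hk (ord_HTPR hR _ (ho σ hσ.1))
      (ord_HTPR hR _ (ho τ hτ')) (Af_HTPR.ext (by
        rw [ma_HTPR, ma_HTPR, pa_HTPR, ha, mul_comm]) (by
        rw [mb_HTPR, mb_HTPR, pa_HTPR, pb_HTPR]
        dsimp only
        rw [ha, hu σ hσ.1, hu τ hτ']
        linear_combination hxy))
    have k3 := (hTPU p (n + n) V ϖ σ τ _
      (fun g => (π g, (⟨un_HTPR (θ g), 0⟩ : Af_HTPR R))) hp h1 h3 hϖ hV hσ hτ hk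
      (fun g hg h hh => Prod.ext (p1 g hg h hh) (hm _ h0 g hg h hh))
      (p2.map₂ (hl _ h0) Prod.mk) fun g hg => Prod.ext (ord_HTPR hR (π g) (by
        obtain ⟨i, k, e⟩ := p5 g
        rw [e, ma_HTPR, pa_HTPR, pa_HTPR, mul_pow, ← pow_mul, ← pow_mul, pow_mul', pow_mul' _ k,
          ho τ hτ', ho σ hσ.1]
        simp)) (ord_HTPR hR _ (ho g hg))).2.2
    refine ⟨fun g => (π g).b, ⟨p2.map _, fun g hg h hh => ?_⟩, by simp only [p3], by simp only [p4]⟩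
    obtain ⟨i, k, e⟩ := k3 g hg
    have e1 := congrArg (fun z => z.1.a) e
    have e2 := congrArg (fun z => z.2.a) e
    simp only [Prod.fst_mul, Prod.snd_mul, Prod.pow_fst, Prod.pow_snd, ma_HTPR, pa_HTPR, p3,
      p4] at e1 e2
    simp only [p1 g hg h hh, mb_HTPR, e1, ← e2, hu g hg]

end Pool.Agent.MP_e23604_nt.W

end

section

set_option autoImplicit false

open Finset
open scoped Classical

namespace Pool.Agent.MP_e23604_nt.W

open B R S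
open MP_3e91a1_nt (Step IsN Loc Nm Nrm Pl Ind)

theorem nat_HTPG {A : Type} [Monoid A] {t : A} {N : ℕ} (h : t ^ N = 1) (n : ℕ) :
    t ^ (n : ZMod N).val = t ^ n := by
  rw [ZMod.val_natCast, ← pow_eq_pow_mod n h]

theorem add_HTPG {A : Type} [Monoid A] {t : A} {N : ℕ} (h0 : N ≠ 0) (h : t ^ N = 1)
    (a b : ZMod N) : t ^ (a + b).val = t ^ a.val * t ^ b.val := by
  have : NeZero N := ⟨h0⟩
  rw [← pow_add, ← nat_HTPG h (a.val + b.val), Nat.cast_add, ZMod.natCast_zmod_val,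
    ZMod.natCast_zmod_val]

theorem grp_HTPG {A : Type} [Group A] {s t : A} {N q : ℕ} (h0 : N ≠ 0) (hs : s ^ N = 1)
    (ht : t ^ N = 1) (hst : s * t = t ^ q * s) (u c : ZMod N) :
    ∃ (T : ZMod N → A) (r : A), (∀ a, T a = t ^ (u * a).val) ∧ (∀ a b, T (a + b) = T a * T b) ∧
      T c * r = s ∧ r ^ (N * N) = 1 ∧ (∀ (k : ℕ) a, r ^ k * T a = T (q ^ k * a) * r ^ k) ∧
      ∀ k : ℕ, ∃ b, r ^ k = T b * s ^ k := by
  have : NeZero N := ⟨h0⟩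
  obtain ⟨T, hT⟩ : ∃ T : ZMod N → A, ∀ a, T a = t ^ (u * a).val := ⟨_, fun _ => rfl⟩
  have hadd : ∀ a b, T (a + b) = T a * T b := fun a b => by
    rw [hT, hT, hT, mul_add, add_HTPG h0 ht]
  have hz : T 0 = 1 := by rw [hT, mul_zero, ZMod.val_zero, pow_zero]
  have h1 : ∀ a, s * T a = T (q * a) * s := fun a => by
    have e : s * t * s⁻¹ = t ^ q := by rw [hst, mul_inv_cancel_right]
    rw [hT, hT, ← mul_inv_eq_iff_eq_mul, ← conj_pow, e, ← pow_mul, ← nat_HTPG ht (q * _),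
      Nat.cast_mul, ZMod.natCast_zmod_val, mul_left_comm]
  have h2 : ∀ a, T (-c) * s * T a = T (q * a) * (T (-c) * s) := fun a => by
    rw [mul_assoc, h1, ← mul_assoc, ← mul_assoc, ← hadd, ← hadd, add_comm]
  have h3 : ∀ (k : ℕ) a, (T (-c) * s) ^ k * T a = T (q ^ k * a) * (T (-c) * s) ^ k := by
    intro k
    induction k with
    | zero => simp
    | succ k ih =>
      intro a
      rw [pow_succ, mul_assoc, h2, ← mul_assoc, ih, mul_assoc, pow_succ (q : ZMod N),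
        mul_assoc ((q : ZMod N) ^ k)]
  have h4 : ∀ k : ℕ, ∃ b, (T (-c) * s) ^ k = T b * s ^ k := by
    intro k
    induction k with
    | zero => exact ⟨0, by simp [hz]⟩
    | succ k ih =>
      obtain ⟨b, hb⟩ := ih
      exact ⟨-c + q * b, by
        rw [pow_succ', hb, mul_assoc, ← mul_assoc s, h1, hadd, pow_succ', mul_assoc, mul_assoc]⟩
  refine ⟨T, T (-c) * s, hT, hadd, by rw [← mul_assoc, ← hadd, add_neg_cancel, hz, one_mul], ?_,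
    h3, h4⟩
  obtain ⟨b, hb⟩ := h4 N
  rw [pow_mul, hb, hs, mul_one, hT, ← pow_mul, mul_comm, pow_mul, ht, one_pow]

theorem TPG_pf (hTAME : TAME_st) (hFRK : FRK_st) (hKM : KM_st) : TPG_st := by
  intro p e V ϖ σ τ A _ s t hp hl h3 hϖ hov hσ hτ hk hs ht hst
  have h0 : p ^ e ≠ 0 := pow_ne_zero _ hp.ne_zero
  have : NeZero (p ^ e) := ⟨h0⟩
  obtain ⟨-, -, k3, -, -, -, -, -, k9⟩ := hKM _ h0
  have hl0 : V.l.Prime := Fact.out
  obtain ⟨-, k10, k11⟩ := k9 V fun h =>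
    hl ((Nat.prime_dvd_prime_iff_eq hl0 hp).1 (hl0.dvd_of_dvd_pow h))
  obtain ⟨c1, c2⟩ := k3 V.D V.l (Nat.cast_ne_zero.2 hl0.ne_zero) fun g _ => map_natCast g _
  obtain ⟨u, hu⟩ := ((hTAME p e V hp hl h3).2.2.2.1 τ hτ hk).exists_left_inv
  obtain ⟨T, r, t1, t2, t3, t4, t5, t6⟩ := grp_HTPG h0 hs ht hst u (km (p ^ e) σ V.l)
  obtain ⟨-, -, -, f4⟩ := hFRK V ϖ hϖ hov
  obtain ⟨-, -, -, f5, -, f6⟩ := f4 σ hσ
  have hm : p ^ e * p ^ e * (p ^ e).totient ≠ 0 :=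
    mul_ne_zero (mul_ne_zero h0 h0) (Nat.totient_pos.2 (Nat.pos_of_ne_zero h0)).ne'
  obtain ⟨d, d1, d2, d3, d4⟩ := f6 _ hm
  have hr : r ^ (p ^ e * p ^ e * (p ^ e).totient) = 1 := by rw [pow_mul, t4, one_pow]
  have hq : (nn ϖ : ZMod (p ^ e)) ^ (p ^ e * p ^ e * (p ^ e).totient) = 1 := by
    obtain ⟨v, hv⟩ := IsUnit.of_mul_eq_one _ (cy_inv h0 σ)
    rw [← k11 ϖ σ hσ, ← hv, mul_comm, pow_mul, ← Units.val_pow_eq_pow_val, ZMod.pow_totient,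
      Units.val_one, one_pow]
  have hi : ∀ i : ℕ, cy (p ^ e) (σ ^ i) = (nn ϖ : ZMod (p ^ e)) ^ i ∧ d (σ ^ i) = i := by
    intro i
    induction i with
    | zero => exact ⟨by rw [pow_zero, pow_zero, cy_one h0],
        by rw [pow_zero, d3 1 V.I.one_mem, Nat.cast_zero]⟩
    | succ i ih =>
      exact ⟨by rw [pow_succ, pow_succ, cy_mul h0, ih.1, k11 ϖ σ hσ], by
        rw [pow_succ, d1 _ (V.D.pow_mem hσ.1 i) _ hσ.1, ih.2, d4, Nat.cast_succ]⟩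
  have hcy : ∀ g ∈ V.D, cy (p ^ e) g = (nn ϖ : ZMod (p ^ e)) ^ (d g).val := by
    intro g hg
    obtain ⟨M, m1, m2⟩ := (cy_lc (p ^ e) V.D).map₂ d2 Prod.mk
    obtain ⟨i, x, hx, hx'⟩ := f5 M m1 g hg
    have h1 := m2 _ (V.D.mul_mem (V.D.pow_mem hσ.1 i) (V.I_le hx)) g hg hx'
    obtain ⟨h2, h4⟩ := Prod.mk.inj h1
    rw [← h2, ← h4, cy_mul h0, d1 _ (V.D.pow_mem hσ.1 i) _ (V.I_le hx), (hi i).1, (hi i).2,
      (k10 x hx.1).1, d3 x hx, mul_one, add_zero, nat_HTPG hq]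
  refine ⟨fun g => T (km (p ^ e) g V.l) * r ^ (d g).val, fun g hg h hh => ?_,
    c1.map₂ d2 fun a b => T a * r ^ b.val, ?_, ?_, fun g => ?_⟩
  · simp only at c2 ⊢
    rw [c2 g hg h hh, d1 g hg h hh, add_HTPG hm hr, t2, hcy g hg, mul_assoc (T _),
      mul_assoc (T _), ← mul_assoc (r ^ (d g).val) (T _), t5, mul_assoc (T _)]
  · simp only
    rw [d4, ← Nat.cast_one, nat_HTPG hr, pow_one, t3]
  · simp only
    rw [d3 τ hτ, ZMod.val_zero, pow_zero, mul_one, t1, hu, ← Nat.cast_one, nat_HTPG ht, pow_one]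
  · obtain ⟨b, hb⟩ := t6 (d g).val
    exact ⟨_, _, by simp only; rw [hb, ← mul_assoc, ← t2, t1]⟩

end Pool.Agent.MP_e23604_nt.W

end

section

set_option autoImplicit false

open Finset
open scoped Classical

namespace Pool.Agent.MP_e23604_nt.W

open B R S
open MP_3e91a1_nt (Step IsN Loc Nm Nrm Pl Ind)

theorem FI1_pf (hSEL : SEL_st) : FI1_st := by
  intro p U B hp hU
  have : Fact p.Prime := ⟨hp⟩
  have p0 := hp.ne_zero
  have hζ := zt_prim p0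
  have hW : IsOpen ((U ⊓ MulAction.stabilizer GQ (zt p) : Subgroup GQ) : Set GQ) :=
    hU.inter (stabilizer_isOpen_of_isIntegral (K := ℚ) (zt p))
  have hWU : U ⊓ MulAction.stabilizer GQ (zt p) ≤ U := inf_le_left
  have hWζ : Fix (U ⊓ MulAction.stabilizer GQ (zt p)) (zt p) := fun g hg => hg.2
  generalize U ⊓ MulAction.stabilizer GQ (zt p) = W at *
  obtain ⟨L, _, l1, l2, -⟩ := Lib.RES W hW
  have hT : (⋃ l ∈ (B : Set ℕ), {w : MP_f3cd89_nt.Pr L | MP_f3cd89_nt.ord w (l : L) ≠ 0}).Finite :=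
    B.finite_toSet.biUnion fun l _ => MP_f3cd89_nt.ord_finite _
  obtain ⟨s, hs⟩ := hSEL L p hT.toFinset p0
  obtain ⟨N₁, n1, n2⟩ := ex_ON hW
  obtain ⟨N₂, n3, n4⟩ := exists_ON_fix (s.image fun r : L => rt p (r : Qb))
  refine ⟨N₁ ⊓ N₂, n1.inf n3, inf_le_left.trans (n2.trans hWU), fun a ha hl hr g hg => ?_⟩
  obtain ⟨α, a0, hα⟩ := ((Lib.KUQ p).2 (zt p) W hζ hWζ).1 a
    (fun g hg h hh => ha g (hWU hg) h (hWU hh)) (hl.mono hWU)
  have hx : α ^ p ∈ L := (l1 _).2 fun g hg => by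
    rw [map_pow, hα g hg, mul_pow, zt_val_pow p0, one_mul]
  have x0 : (⟨α ^ p, hx⟩ : L) ≠ 0 := fun e => pow_ne_zero p a0 (congrArg Subtype.val e)
  obtain ⟨r, r1, y, e⟩ := hs _ x0 fun w hw => by
    obtain ⟨l, _, γ, t, hP⟩ := R.DIC_ok.1 L w
    have hB : l ∉ B := fun hB => by
      have e1 : MP_f3cd89_nt.ord w (l : L) = 0 := by
        by_contra e1
        exact hw (hT.mem_toFinset.2 (Set.mem_iUnion₂.2 ⟨l, hB, e1⟩))
      have e2 := hP.2 (l : L) (Nat.cast_ne_zero.2 (Fact.out : l.Prime).ne_zero)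
      rw [e1, neg_zero, zpow_zero] at e2
      exact (nv_lt l γ).ne (by simpa using e2)
    obtain ⟨n, hn⟩ := ((Lib.PLC L).2 w l γ t hP).2.2.2.2.1 α a0 fun τ h1 h2 => by
      rw [hα τ (l2 τ h2), hr l γ hB τ ⟨h1, hWU (l2 τ h2)⟩, ZMod.val_zero, pow_zero, one_mul]
    have e3 := hP.2 _ x0
    rw [map_pow, hn, ← zpow_natCast, ← zpow_mul] at e3
    have e4 := zpow_right_injective₀ (zero_lt_one.trans hP.1) hP.1.ne' e3
    exact ⟨-n, by linear_combination e4⟩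
  have e1 : α ^ p = r * (y : Qb) ^ p := by simpa using congrArg Subtype.val e
  have e2 : rt p (r : Qb) * y ≠ 0 := fun k => pow_ne_zero p a0 (by
    rw [e1, ← rt_pow p0 (r : Qb), ← mul_pow, k, zero_pow p0])
  have e3 : (α / (rt p (r : Qb) * y)) ^ p = 1 := by
    rw [div_pow, mul_pow, rt_pow p0, ← e1, div_self (pow_ne_zero p a0)]
  have g1 := n2 hg.1
  have e4 : g α = α := by
    rw [← div_mul_cancel₀ α e2, ← zt_lz p0 e3, map_mul, map_mul, map_pow, hWζ g g1,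
      n4 _ (mem_image_of_mem _ r1) g hg.2, (l1 _).1 y.2 g g1]
  rw [hα g g1, mul_eq_right₀ a0] at e4
  exact zt_inj p0 (by simpa using e4)

end Pool.Agent.MP_e23604_nt.W

end

section

set_option autoImplicit false

open Finset
open scoped Classical

namespace Pool.Agent.MP_e23604_nt.W

open B R S
open MP_3e91a1_nt (Step IsN Loc Nm Nrm Pl Ind)

theorem pow_HIVK {A : Type} [CommRing A] {H : Subgroup GQ} {a : GQ → A} (h : Adt H a) {g : GQ}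
    (hg : g ∈ H) (i : ℕ) : a (g ^ i) = i * a g := by
  induction i with
  | zero =>
    have := h 1 H.one_mem 1 H.one_mem
    rw [mul_one] at this
    rw [pow_zero, Nat.cast_zero, zero_mul]
    linear_combination -this
  | succ i ih =>
    rw [pow_succ, h _ (H.pow_mem hg i) g hg, ih]
    push_cast
    ring

theorem van_HIVK {A : Type} [CommRing A] {D I : Subgroup GQ} {σ : GQ} {a : GQ → A}
    (gen : ∀ N, ON N → ∀ g ∈ D, ∃ (i : ℕ) (τ : GQ), τ ∈ I ∧ (σ ^ i * τ)⁻¹ * g ∈ N) (le : I ≤ D)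
    (hσ : σ ∈ D) (h : Adt D a) (hl : Lc D a) (h0 : ∀ τ ∈ I, a τ = 0) (h1 : a σ = 0) :
    ∀ g ∈ D, a g = 0 := fun g hg => by
  obtain ⟨N, hN, hc⟩ := hl
  obtain ⟨i, t, ht, e⟩ := gen N hN g hg
  rw [← hc _ (D.mul_mem (D.pow_mem hσ i) (le ht)) g hg e, h _ (D.pow_mem hσ i) _ (le ht),
    pow_HIVK h hσ, h1, h0 t ht, mul_zero, add_zero]

theorem IVK_pf (hTAME : TAME_st) (hFRK : FRK_st) (hPLK : PLK_st) (hKM : KM_st) (hLIN : LIN_st) : IVK_st := by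
  intro p n V ϖ φ τ u f b hp hn sp hτ hu hb hf hβ s φ' hφ' sa sl s0 s1
  have hN : p ^ n ≠ 0 := pow_ne_zero n hp.ne_zero
  have : NeZero (p ^ n) := ⟨hN⟩
  have l2 := V.hl.out.two_le
  have l3 : V.l % 3 = 1 := sp.deg ▸ nn_mod3 sp.pp.2.pw
  have lN : ¬ V.l ∣ p ^ n := fun e => by
    have := Nat.le_of_dvd (by omega) (e.trans sp.dvd)
    omega
  have lp : V.l ≠ p := fun e => lN (e ▸ dvd_pow_self _ (by omega))
  obtain ⟨-, -, hfk, hσ⟩ := hFRK V ϖ sp.pp.1 sp.ov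
  obtain ⟨-, k1, k2⟩ := (hKM _ hN).2.2.2.2.2.2.2.2 V lN
  have hl1 : ((V.l : ℕ) : ZMod (p ^ n)) = 1 := by
    have := (ZMod.natCast_eq_zero_iff _ _).2 sp.dvd
    rwa [Nat.cast_pred (by omega), sub_eq_zero] at this
  have c1 : ∀ g ∈ V.D, cy (p ^ n) g = 1 := fun g hg => by
    have := (hσ φ sp.fr).2.2.2.2.1 (MulAction.stabilizer GQ (zt (p ^ n)))
      (stabilizer_isOpen_of_isIntegral (K := ℚ) _)
      ((cy_eq_one hN).1 (by rw [k2 ϖ φ sp.fr, sp.deg, hl1]) _ (zt_prim hN).pow_eq_one)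
      (fun t ht => (cy_eq_one hN).1 (k1 t ht.1).1 _ (zt_prim hN).pow_eq_one) hg
    have e : g (zt (p ^ n)) = zt (p ^ n) := this
    rw [cy, e]
    exact cy_one hN
  set κ : GQ → ZMod (p ^ n) := fun g => km (p ^ n) g V.l with hκ
  have ka : Adt V.D κ := fun g hg h _ => by
    simp only [hκ]
    rw [km_mul hN g h (Nat.cast_ne_zero.2 (by omega)), c1 g hg, map_natCast, one_mul, add_comm]
  have kl : Lc V.D κ := km_lc _ _ _
  replace hu : u * κ τ = 1 := hu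
  have fk := (hfk l3 φ').2 hφ'
  obtain ⟨t, ht, kt⟩ : ∃ t ∈ V.I, κ t = 1 := ⟨τ ^ u.val, V.I.pow_mem hτ _, by
    rw [pow_HIVK ka (V.I_le hτ), ZMod.natCast_zmod_val, hu]⟩
  have tD := V.I_le ht
  obtain ⟨x, fx, kx, sx⟩ : ∃ x, FK V ϖ x ∧ κ x = 0 ∧ s x = 1 := by
    have h1 := V.I.pow_mem ht (-κ φ').val
    refine ⟨φ' * t ^ (-κ φ').val, ((hσ φ' fk).2.1 _ h1).1, ?_, ?_⟩
    · rw [ka _ fk.1 _ (V.I_le h1), pow_HIVK ka tD, ZMod.natCast_zmod_val, kt]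
      ring
    · rw [sa _ fk.1 _ (V.I_le h1), s0 _ h1, s1, add_zero]
  have xD := fx.1
  have key : ∀ a : GQ → ZMod (p ^ n), Adt V.D a → Lc V.D a → ∀ g ∈ V.D,
      a g = a t * κ g + a x * s g := fun a aa al g hg => by
    refine sub_eq_zero.1 (van_HIVK (a := fun g => a g - (a t * κ g + a x * s g))
      (hσ x fx).2.2.2.1 V.I_le xD (fun g hg h hh => ?_)
      (al.map₂ (kl.map₂ sl fun y z => a t * y + a x * z) fun y z => y - z) (fun y hy => ?_) ?_ g hg)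
    · simp only [aa g hg h hh, ka g hg h hh, sa g hg h hh]
      ring
    · have := (hTAME p n V hp lp (by omega)).2.2.2.2.2 _ a (aa.mono V.I_le) (al.mono V.I_le)
        (fun w _ => by rw [nsmul_eq_mul, ZMod.natCast_self, zero_mul]) t ht kt y hy
      rw [nsmul_eq_mul, ZMod.natCast_zmod_val] at this
      simp only [s0 y hy]
      linear_combination this
    · simp only [kx, sx]
      ring
  obtain ⟨⟨M, hM, f1, f2⟩, -⟩ := hf
  obtain ⟨β, ⟨M', hM', hc⟩, e⟩ := hβ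
  replace e : ∀ g ∈ V.D, ∀ h ∈ V.D, b g h = f g h - (β h - β (g * h) + β g) :=
    fun g hg h hh => by
      have := e g hg h hh
      rw [c1 g hg] at this
      linear_combination -this
  have b1 : ∀ g ∈ V.D, Lc V.D (b g) := fun g hg => ⟨M ⊓ M', hM.inf hM', fun h hh k hk w => by
    rw [e g hg h hh, e g hg k hk, f1 g hg h hh k hk w.1, hc h hh k hk w.2,
      hc _ (V.D.mul_mem hg hh) _ (V.D.mul_mem hg hk) (by
        rw [mul_inv_rev, mul_assoc, inv_mul_cancel_left]; exact w.2)]⟩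
  have b2 : ∀ h ∈ V.D, Lc V.D fun g => b g h := fun h hh => ⟨M ⊓ M', hM.inf hM',
    fun g hg k hk w => by
      have e1 : f g h = f k h := f2 h hh g hg k hk w.1
      have e2 : (g * h)⁻¹ * (k * h) ∈ M' := by
        have := hM'.1.conj_mem _ w.2 h⁻¹
        rwa [inv_inv, show h⁻¹ * (g⁻¹ * k) * h = (g * h)⁻¹ * (k * h) by group] at this
      show b g h = b k h
      rw [e g hg h hh, e k hk h hh, e1, hc g hg k hk w.2,
        hc _ (V.D.mul_mem hg hh) _ (V.D.mul_mem hk hh) e2]⟩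
  have bf : ∀ g ∈ V.D, ∀ h ∈ V.D, b g h = (b t t * κ g + b x t * s g) * κ h +
      (b t x * κ g + b x x * s g) * s h := fun g hg h hh => by
    rw [key _ (hb.1 g hg) (b1 g hg) h hh, ← key _ (hb.2 t tD) (b2 t tD) g hg,
      ← key _ (hb.2 x xD) (b2 x xD) g hg]
  have sφ : s φ = 1 := by
    have h1 := (hσ φ' fk).1 φ sp.fr
    rw [← mul_inv_cancel_left φ' φ, sa _ fk.1 _ (V.I_le h1), s0 _ h1, s1, add_zero]
  have hr : u * (b τ φ - b φ τ) = b t x - b x t := by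
    rw [bf τ (V.I_le hτ) φ sp.fr.1, bf φ sp.fr.1 τ (V.I_le hτ), s0 τ hτ, sφ]
    linear_combination (b t x - b x t) * hu
  refine ⟨fun g => 2 * β g - (b t t * κ g ^ 2 + 2 * b x t * κ g * s g + b x x * s g ^ 2),
    Lc.map₂ ⟨M', hM', hc⟩ (kl.map₂ sl fun y z => b t t * y ^ 2 + 2 * b x t * y * z + b x x * z ^ 2)
      fun y z => 2 * y - z, fun g hg h hh => ?_⟩
  have e1 := e g hg h hh
  rw [bf g hg h hh] at e1
  show 2 * f g h - 2 * u * (b τ φ - b φ τ) * (κ g * s h) = _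
  simp only [c1 g hg, ka g hg h hh, sa g hg h hh]
  linear_combination -2 * e1 - 2 * (κ g * s h) * hr

end Pool.Agent.MP_e23604_nt.W

end

section

set_option autoImplicit false

open Finset
open scoped Classical

namespace Pool.Agent.MP_e23604_nt.W

open B R S
open MP_3e91a1_nt (Step IsN Loc Nm Nrm Pl Ind)

theorem ne_HCYL (m : ℕ) : 3 ^ m ≠ 0 := pow_ne_zero m three_ne_zero

theorem inj_HCYL (m a b : ℕ) :
    (4 : ZMod (3 ^ (m + 1))) ^ a = 4 ^ b ↔ (a : ZMod (3 ^ m)) = b := by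
  have h : orderOf (4 : ZMod (3 ^ (m + 1))) = 3 ^ m := by
    rw [← ZMod.orderOf_one_add_prime Nat.prime_three (by decide) m]
    norm_num
  rw [(orderOf_ne_zero_iff.1 (h ▸ ne_HCYL m)).pow_eq_pow_iff_modEq, h, ZMod.natCast_eq_natCast_iff]

theorem sur_HCYL (m n : ℕ) (hn : n % 3 = 1) : ∃ a : ℕ, (4 : ZMod (3 ^ (m + 1))) ^ a = n := by
  have h1 : ∀ n : ℕ, n % 3 = 1 → (n : ZMod (3 ^ (m + 1))) ∈
      (range (3 ^ m)).image fun t : ℕ => ((1 + 3 * t : ℕ) : ZMod (3 ^ (m + 1))) := fun n hn => by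
    refine mem_image.2 ⟨n / 3 % 3 ^ m, mem_range.2 (Nat.mod_lt _ (Nat.pos_of_ne_zero (ne_HCYL m))),
      (ZMod.natCast_eq_natCast_iff _ _ _).2 ?_⟩
    have := ((Nat.mod_modEq (n / 3) (3 ^ m)).mul_left' 3).add_left 1
    rwa [← pow_succ', show 1 + 3 * (n / 3) = n by omega] at this
  have h2 := eq_of_subset_of_card_le
    (s := (range (3 ^ m)).image fun a : ℕ => (4 : ZMod (3 ^ (m + 1))) ^ a)
    (t := (range (3 ^ m)).image fun t : ℕ => ((1 + 3 * t : ℕ) : ZMod (3 ^ (m + 1)))) (fun x hx => by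
      obtain ⟨a, -, rfl⟩ := mem_image.1 hx
      simpa using h1 (4 ^ a) (by simp [Nat.pow_mod])) (by
      rw [card_image_of_injOn (f := fun a : ℕ => (4 : ZMod (3 ^ (m + 1))) ^ a) fun a ha b hb e =>
        ((ZMod.natCast_eq_natCast_iff _ _ _).1 ((inj_HCYL m a b).1 e)).eq_of_lt_of_lt
          (mem_range.1 ha) (mem_range.1 hb)]
      exact card_image_le)
  obtain ⟨a, -, e⟩ := mem_image.1 (h2 ▸ h1 n hn)
  exact ⟨a, e⟩

theorem cast_HCYL {N N' : ℕ} (h : N ∣ N') (h0 : N' ≠ 0) (g : GQ) :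
    ZMod.castHom h (ZMod N) (cy N' g) = cy N g := by
  obtain ⟨k, rfl⟩ := h
  exact (cy_cast (left_ne_zero_of_mul h0) (right_ne_zero_of_mul h0) g).symm

theorem spec_HCYL (m : ℕ) {g : GQ} (hg : g ∈ GK) :
    (4 : ZMod (3 ^ (m + 1))) ^ (lA m g).val = cy (3 ^ (m + 1)) g := by
  refine Classical.epsilon_spec
    (p := fun a : ZMod (3 ^ m) => (4 : ZMod (3 ^ (m + 1))) ^ a.val = cy (3 ^ (m + 1)) g) ?_
  have h := cast_HCYL (dvd_pow_self 3 m.succ_ne_zero) (ne_HCYL _) g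
  rw [(cy_eq_one three_ne_zero).2 hg, ZMod.castHom_apply, ZMod.cast_eq_val] at h
  obtain ⟨a, e⟩ := sur_HCYL m _ ((ZMod.natCast_eq_natCast_iff' _ 1 3).1 h)
  rw [ZMod.natCast_zmod_val] at e
  exact ⟨a, ((inj_HCYL m _ _).2 (ZMod.natCast_zmod_val _)).trans e⟩

theorem eq_HCYL {m a : ℕ} {g : GQ} (hg : g ∈ GK)
    (h : (4 : ZMod (3 ^ (m + 1))) ^ a = cy (3 ^ (m + 1)) g) : lA m g = a :=
  (ZMod.natCast_zmod_val _).symm.trans ((inj_HCYL m _ _).1 ((spec_HCYL m hg).trans h.symm))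

theorem CYL_pf (hKM : KM_st) (hPLK : PLK_st) : CYL_st := by
  intro m
  have z : ∀ g ∈ GK, cy (3 ^ (m + 1)) g = 1 → lA m g = 0 := fun g hg e =>
    (eq_HCYL (a := 0) hg (by rw [e, pow_zero])).trans Nat.cast_zero
  refine ⟨fun g hg h hh => ?_, (cy_lc (3 ^ (m + 1)) GK).map fun c => Classical.epsilon
    fun a : ZMod (3 ^ m) => (4 : ZMod (3 ^ (m + 1))) ^ a.val = c, fun V hV τ hτ => ?_,
    fun g hg => ⟨spec_HCYL m hg, ⟨fun e => ?_, z g hg⟩, fun k => ?_⟩, fun V hV => ?_⟩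
  · rw [eq_HCYL (a := (lA m g).val + (lA m h).val) (GK.mul_mem hg hh)
      (by rw [pow_add 4, spec_HCYL m hg, spec_HCYL m hh, cy_mul (ne_HCYL _)]), Nat.cast_add,
      ZMod.natCast_zmod_val, ZMod.natCast_zmod_val]
  · exact z τ hτ.2 (cy_ine V
      (by rw [Nat.cast_pow, map_pow, Nat.cast_ofNat, v_three hV, one_pow]) hτ.1)
  · rw [← spec_HCYL m hg, e, ZMod.val_zero, pow_zero]
  · rw [ZMod.castHom_apply, ZMod.cast_eq_val]
    refine (eq_HCYL hg ?_).symm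
    rw [← cast_HCYL (pow_dvd_pow 3 (by omega : m + 1 ≤ m + k + 1)) (ne_HCYL _),
      ← spec_HCYL (m + k) hg, map_pow, map_ofNat]
  · obtain ⟨l, γ⟩ := V
    obtain rfl : l = 3 := hV
    obtain ⟨τ, h1, h2⟩ := surj_SCHI (m + 1)
      (ZMod.unitOfCoprime 4 (Nat.Coprime.pow_right _ (by decide)))
    have h3 : cy (3 ^ (m + 1)) (γ⁻¹ * τ * γ) = 4 := by
      rw [cy_mul (ne_HCYL _), cy_mul (ne_HCYL _), mul_right_comm, mul_comm (cy _ γ⁻¹),
        cy_inv (ne_HCYL _), one_mul]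
      refine (lz_eq (ne_HCYL _)
        (MP_f68ac8_nt.cyc_spec _ τ (zt_prim (ne_HCYL _)).pow_eq_one).symm).trans ?_
      rw [h2, ZMod.coe_unitOfCoprime, Nat.cast_ofNat]
    have h4 : γ⁻¹ * τ * γ ∈ GK := (cy_eq_one three_ne_zero).1 (by
      rw [← cast_HCYL (dvd_pow_self 3 m.succ_ne_zero) (ne_HCYL _), h3, map_ofNat]
      rfl)
    refine ⟨γ⁻¹ * τ * γ, ⟨?_, h4⟩, (eq_HCYL (a := 1) h4 (by rw [h3, pow_one])).trans Nat.cast_one⟩
    have := (mem_Ine_conj 3 1 γ (γ⁻¹ * τ * γ)).2 (by simpa [mul_assoc] using h1)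
    rwa [one_mul] at this

end Pool.Agent.MP_e23604_nt.W

end

section

set_option autoImplicit false

open Finset
open scoped Classical

namespace Pool.Agent.MP_e23604_nt.W

open B R S
open MP_3e91a1_nt (Step IsN Loc Nm Nrm Pl Ind)

theorem ne_HCYM (m : ℕ) : 3 ^ m ≠ 0 := by positivity

theorem cy_HCYM {m : ℕ} {g : GQ} : g ∈ Uc m ↔ cy (3 ^ (m + 1)) g = 1 :=
  ⟨fun h => by
    rw [cy, show g (zt (3 ^ (m + 1))) = _ from h]
    exact cy_one (ne_HCYM _),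
  fun h => (cy_eq_one (ne_HCYM _)).1 h _ (zt_prim (ne_HCYM _)).pow_eq_one⟩

theorem anti_HCYM : Antitone Uc := fun m m' h g hg => by
  rw [cy_HCYM, cy_eq_one (ne_HCYM _)] at *
  intro z hz
  obtain ⟨c, hc⟩ := pow_dvd_pow 3 (Nat.succ_le_succ h)
  exact hg z (by rw [hc, pow_mul, hz, one_pow])

theorem zero_HCYM : Uc 0 = GK := Subgroup.ext fun _ => cy_HCYM.trans (cy_eq_one (ne_HCYM _))

theorem le_HCYM (m : ℕ) : Uc m ≤ GK := zero_HCYM ▸ anti_HCYM (Nat.zero_le m)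

theorem pow_HCYM {A : Type} [Ring A] {f : GQ → A} (h : Adt GK f) {g : GQ} (hg : g ∈ GK) (i : ℕ) :
    f (g ^ i) = i * f g := by
  induction i with
  | zero => simpa using h 1 GK.one_mem 1 GK.one_mem
  | succ i ih => rw [pow_succ, h _ (GK.pow_mem hg i) _ hg, ih, Nat.cast_succ, add_mul, one_mul]

theorem mem_HCYM (h : CYL_st) {m : ℕ} {g : GQ} : g ∈ Uc m ↔ g ∈ GK ∧ lA m g = 0 :=
  ⟨fun e => ⟨le_HCYM m e, ((h m).2.2.2.1 g (le_HCYM m e)).2.1.2 (cy_HCYM.1 e)⟩,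
    fun e => cy_HCYM.2 (((h m).2.2.2.1 g e.1).2.1.1 e.2)⟩

theorem dvd_HCYM (h : CYL_st) {j n : ℕ} (e : j ≤ n) {g : GQ} (hg : g ∈ GK) :
    g ∈ Uc j ↔ 3 ^ j ∣ (lA n g).val := by
  obtain ⟨k, rfl⟩ := Nat.exists_eq_add_of_le e
  have : NeZero (3 ^ (j + k)) := ⟨ne_HCYM _⟩
  rw [mem_HCYM h, and_iff_right hg, ← ((h j).2.2.2.1 g hg).2.2 k, ZMod.castHom_apply,
    ← ZMod.natCast_val, ZMod.natCast_eq_zero_iff]

theorem chi_HCYM (h : CYL_st) (m k K : ℕ) (hk : k ≠ 0) (hK : 3 ^ k = K) :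
    ∃ (a : GQ → ℕ) (s : GQ), Adt (Uc m) (fun g => (a g : ZMod K)) ∧
      Lc (Uc m) (fun g => (a g : ZMod K)) ∧ s ∈ V3.I ⊓ Uc m ∧ (a s : ZMod K) = 1 ∧
      ∀ j ≤ k, ∀ g, g ∈ Uc (m + j) ↔ g ∈ Uc m ∧ 3 ^ j ∣ a g := by
  subst hK
  have : NeZero (3 ^ (m + k)) := ⟨ne_HCYM _⟩
  have p : 0 < 3 ^ m := by positivity
  obtain ⟨h1, h2, -, -, h3⟩ := h (m + k)
  obtain ⟨x, x1, x2⟩ := h3 V3 rfl
  have x3 : (lA (m + k) (x ^ 3 ^ m)).val = 3 ^ m := by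
    rw [pow_HCYM h1 x1.2, x2, mul_one,
      ZMod.val_cast_of_lt (Nat.pow_lt_pow_right (by norm_num) (by omega))]
  have d : ∀ {g}, g ∈ Uc m → 3 ^ m ∣ (lA (m + k) g).val := fun hg =>
    (dvd_HCYM h (Nat.le_add_right m k) (le_HCYM m hg)).1 hg
  refine ⟨fun g => (lA (m + k) g).val / 3 ^ m, x ^ 3 ^ m, fun g hg g' hg' => ?_,
    (h2.mono (le_HCYM m)).map fun y => ((y.val / 3 ^ m : ℕ) : ZMod (3 ^ k)),
    ⟨V3.I.pow_mem x1 _, (dvd_HCYM h (Nat.le_add_right m k) (GK.pow_mem x1.2 _)).2 x3.symm.dvd⟩,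
    by simp only [x3, Nat.div_self p, Nat.cast_one], fun j hj g => ?_⟩
  · obtain ⟨a, ha⟩ := d hg
    obtain ⟨b, hb⟩ := d hg'
    simp only [h1 g (le_HCYM m hg) g' (le_HCYM m hg'), ZMod.val_add, ha, hb]
    rw [← mul_add, pow_add, Nat.mul_mod_mul_left, Nat.mul_div_cancel_left _ p,
      Nat.mul_div_cancel_left _ p, Nat.mul_div_cancel_left _ p, ZMod.natCast_mod, Nat.cast_add]
  · rw [← and_iff_right_of_imp (fun e => anti_HCYM (Nat.le_add_right m j) e : g ∈ Uc (m + j) → _)]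
    refine and_congr_right fun hg => ?_
    rw [dvd_HCYM h (Nat.add_le_add_left hj m) (le_HCYM m hg), Nat.dvd_div_iff_mul_dvd (d hg),
      pow_add]

theorem CYM_pf (hCYL : CYL_st) : CYM_st := by
  refine ⟨zero_HCYM, anti_HCYM, fun g => cy_HCYM, fun m => ⟨⟨⟨fun n hn g => ?_⟩,
    stabilizer_isOpen_of_isIntegral (K := ℚ) _⟩, fun g => mem_HCYM hCYL, fun g hg => ?_, ?_, ?_,
    fun N hN => ?_⟩⟩
  · rw [cy_HCYM] at *
    rw [cy_mul (ne_HCYM _), cy_mul (ne_HCYM _), hn, mul_one, cy_inv (ne_HCYM _)]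
  · refine (mem_HCYM hCYL).2 ⟨GK.pow_mem hg _, ?_⟩
    rw [pow_HCYM (hCYL m).1 hg, ZMod.natCast_self, zero_mul]
  · obtain ⟨a, s, h1, h2, h3, h4, h5⟩ := chi_HCYM hCYL m 1 3 one_ne_zero rfl
    exact ⟨_, s, ⟨h1, fun g => (h5 1 le_rfl g).trans
      (and_congr_right' (ZMod.natCast_eq_zero_iff _ 3).symm), h3.2, h4⟩, h2, h3.1⟩
  · obtain ⟨a, s, h1, h2, h3, h4, h5⟩ := chi_HCYM hCYL m 2 9 two_ne_zero rfl
    refine ⟨_, s, h1, h2, h3, h4, fun g => (h5 2 le_rfl g).trans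
      (and_congr_right' (ZMod.natCast_eq_zero_iff _ 9).symm),
      fun g => (h5 1 one_le_two g).trans (and_congr_right' ?_)⟩
    rw [show (3 : ZMod 9) = (3 : ℕ) from rfl, ← Nat.cast_mul, ZMod.natCast_eq_zero_iff]
    omega
  · have := hN.1
    have := hN.finite
    obtain ⟨x, x1, x2⟩ := (hCYL N.index).2.2.2.2 V3 rfl
    refine ⟨N.index, fun e => ?_⟩
    have h1 := ((mem_HCYM hCYL).1 (e ⟨V3.D.pow_mem (V3.I_le x1) _, N.pow_index_mem x⟩)).2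
    rw [pow_HCYM (hCYL _).1 x1.2, x2, mul_one, ZMod.natCast_eq_zero_iff] at h1
    exact (Nat.le_of_dvd (Nat.pos_of_ne_zero N.index_ne_zero_of_finite) h1).not_gt
      (Nat.lt_pow_self (by norm_num))

end Pool.Agent.MP_e23604_nt.W

end

section

set_option autoImplicit false

open Finset
open scoped Classical

namespace Pool.Agent.MP_e23604_nt.W

open B R S
open MP_3e91a1_nt (Step IsN Loc Nm Nrm Pl Ind)

theorem tame_HR2u (hTAME : TAME_st) (V : Plc) (h3 : V.l ≠ 3) {ϖ : Zw} (hϖ : Prime ϖ)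
    (hV : Ov V ϖ) {a : GQ → ZMod 3} (ha : Adt V.I a) (hl : Lc V.I a) :
    ∃ e : ZMod 3, ∀ u ∈ V.I, a u = e * km 3 u (io ϖ) := by
  obtain ⟨-, ⟨τ, t1, t2⟩, t3, -, -, t6⟩ := hTAME 3 1 V Nat.prime_three h3 h3
  refine ⟨a τ, fun u hu => ?_⟩
  have h1 : a u = (km 3 u V.l).val • a τ := t6 (ZMod 3) a ha hl (fun u _ => by
    rw [nsmul_eq_mul]
    exact mul_eq_zero_of_left rfl _) τ t1 t2 u hu
  have h2 : km 3 u (io ϖ) = km 3 u V.l := t3 ϖ hϖ hV u hu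
  rw [h1, h2, nsmul_eq_mul, ZMod.natCast_zmod_val, mul_comm]

theorem R2u_pf (hTAME : TAME_st) (hPLK : PLK_st) (hKM : KM_st) : R2u_st := by
  rintro f b hb ⟨β, ⟨N, hN, hc⟩, hβ⟩ h1 hU
  obtain ⟨p1, p2, p3, -, p5, p6, -, p8, -, -, p11, p12⟩ := hPLK
  have cy3 : ∀ g ∈ GK, cy 3 g = 1 := fun g hg => (cy_eq_one three_ne_zero).2 hg
  have b1 : β 1 = 0 := by
    have := hβ 1 (one_mem _) 1 (one_mem _)
    rw [h1, mul_one] at this
    linear_combination -this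
  have hG : ∀ {V : Plc} {τ : GQ}, τ ∈ V.I → τ ∈ GK := fun h => h.2
  have a1 : ∀ V : Plc, ¬ Ov V b → ∀ g ∈ GK, ∀ τ ∈ V.I,
      β (g * τ) = β g + β τ ∧ β (τ * g) = β g + β τ := fun V hV g hg τ hτ => by
    have e1 := (hU V hV g hg 1 (one_mem _) τ hτ).2
    have e2 := (hU V hV 1 (one_mem _) g hg τ hτ).1
    rw [one_mul, hβ g hg τ (hG hτ), hβ g hg 1 (one_mem _), mul_one] at e1
    rw [one_mul, hβ τ (hG hτ) g hg, hβ 1 (one_mem _) g hg, one_mul g] at e2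
    exact ⟨by linear_combination -e1 - b1, by linear_combination -e2 - b1⟩
  have n3 : ∀ V : Plc, ¬ Ov V b → ¬ Ov V 3 := fun V hV h => hV ((Ov_three.1 h).dvd hb)
  have l3 : ∀ V : Plc, ¬ Ov V b → V.l ≠ 3 := fun V hV h => n3 V hV (by
    have := Ov_l V
    rwa [h] at this)
  have key : ∀ ϖ, PP ϖ → ¬ ϖ ∣ b → ∃ e : ZMod 3, ∀ W, Ov W ϖ → ∀ u ∈ W.I,
      β u = e * km 3 u (io ϖ) := fun ϖ hϖ hn => by
    obtain ⟨V, hV⟩ := p2 ϖ hϖ.1
    obtain ⟨q1, q2, -⟩ := p3 V ϖ hϖ.1 hV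
    have hVb : ¬ Ov V b := fun h => hn ((q1 b).1 h)
    obtain ⟨e, he⟩ := tame_HR2u hTAME V (l3 V hVb) hϖ.1 hV
      (fun g hg τ hτ => (a1 V hVb g (hG hg) τ hτ).1) (Lc.mono ⟨N, hN, hc⟩ fun _ h => hG h)
    refine ⟨e, fun W hW u hu => ?_⟩
    obtain ⟨-, g, hg, e1⟩ := q2 W hW
    rw [((p5 W (V.mv g)).2 e1).2.2] at hu
    have hu' := (V.mv_I g u).1 hu
    have e2 := (a1 V hVb g hg _ hu').2
    rw [inv_mul_cancel_right, (a1 (V.mv g) (fun h => hVb (((p6 V g b).1 hg).1 h)) g hg u hu).1,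
      he _ hu'] at e2
    have e3 := km_conj three_ne_zero (y := g) (io_ne hϖ.1.ne_zero) (io_fix (hG hu) ϖ)
      (cy3 u (hG hu))
    rw [io_fix hg, cy3 g hg, one_mul] at e3
    rw [← e3]
    exact add_left_cancel e2
  choose! e he using key
  have hF := FINR_pf N hN
  obtain ⟨u₀, i, c, hu₀, hc', hn⟩ := p12 (∏ l ∈ hF.toFinset, (l : Zw))
    (prod_ne_zero_iff.2 fun l hl => by
      obtain ⟨h, -⟩ := hF.mem_toFinset.1 hl
      exact Nat.cast_ne_zero.2 h.out.ne_zero)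
  obtain ⟨s, hs, rfl⟩ := p11 c hc'
  refine ⟨fun g => β g - ∑ ϖ ∈ s.toFinset.filter fun ϖ => ¬ ϖ ∣ b, e ϖ * km 3 g (io ϖ),
    Lc.map₂ ⟨N, hN, hc⟩ (lc_sum _ fun ϖ _ => (km_lc 3 GK (io ϖ)).map (e ϖ * ·)) (· - ·),
    fun W hW u hu => ?_, fun g hg h hh => ?_⟩
  · obtain ⟨ϖ₀, r1, r2, -, r3⟩ := p1 W
    have r4 := r3 (l3 W hW)
    have q1 := (p3 W ϖ₀ r1 r2).1
    have hn0 : ¬ ϖ₀ ∣ b := fun h => hW ((q1 b).2 h)
    show β u - _ = 0
    rw [sum_eq_single ϖ₀ (fun ϖ hϖ hne => ?_) (fun h => ?_), he ϖ₀ r4 hn0 W r2 u hu, sub_self]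
    · have := hs ϖ (Multiset.mem_toFinset.1 (mem_filter.1 hϖ).1)
      rw [km_ine W (by simpa using v_three (n3 W hW)) hu.1
        (not_Ov.1 fun h => hne (p8 _ _ r4 this ((q1 ϖ).1 h)).symm) (io_fix (hG hu) ϖ), mul_zero]
    · rw [← he ϖ₀ r4 hn0 W r2 u hu, ← b1]
      refine (hc 1 (one_mem _) u (hG hu) ?_).symm
      rw [inv_one, one_mul]
      by_contra hu'
      have hl : W.l ∈ hF.toFinset := hF.mem_toFinset.2 ⟨W.hl, fun hle => hu' (by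
        have := hle ((mem_Ine_conj W.l 1 W.γ u).1 (by rw [one_mul]; exact hu.1))
        simpa [mul_assoc] using hN.1.conj_mem' _ this W.γ)⟩
      have hd := ((q1 _).1 (Ov_l W)).trans (dvd_prod_of_mem (fun l : ℕ => (l : Zw)) hl)
      rw [hn] at hd
      rcases r1.dvd_or_dvd hd with hd | hd
      · rcases r1.dvd_or_dvd hd with hd | hd
        · exact r1.not_isUnit (isUnit_of_dvd_unit hd hu₀)
        · exact hn0 ((r1.dvd_of_dvd_pow hd).trans hb)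
      · obtain ⟨ϖ, h2, h3⟩ := r1.exists_mem_multiset_dvd hd
        exact h (mem_filter.2 ⟨Multiset.mem_toFinset.2 (p8 _ _ r4 (hs ϖ h2) h3 ▸ h2), hn0⟩)
  · have : ∑ ϖ ∈ s.toFinset.filter fun ϖ => ¬ ϖ ∣ b, e ϖ * km 3 (g * h) (io ϖ) =
        ∑ ϖ ∈ s.toFinset.filter fun ϖ => ¬ ϖ ∣ b, e ϖ * km 3 h (io ϖ) +
          ∑ ϖ ∈ s.toFinset.filter fun ϖ => ¬ ϖ ∣ b, e ϖ * km 3 g (io ϖ) := by
      rw [← sum_add_distrib]
      refine sum_congr rfl fun ϖ hϖ => ?_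
      rw [km_mul three_ne_zero g h
        (io_ne (hs ϖ (Multiset.mem_toFinset.1 (mem_filter.1 hϖ).1)).1.ne_zero), cy3 g hg,
        io_fix hh, one_mul, mul_add]
    simp only [this, hβ g hg h hh]
    ring

end Pool.Agent.MP_e23604_nt.W

end

section

set_option autoImplicit false

open Finset
open scoped Classical

namespace Pool.Agent.MP_e23604_nt.W

open B R S
open MP_3e91a1_nt (Step IsN Loc Nm Nrm Pl Ind)

theorem BRN_pf : BRN_st := by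
  intro ι b x N hx hN hn hp hI
  have hW : ∀ L : List ι, (L.map x).prod ∈ GK := fun L =>
    GK.list_prod_mem fun y hy => by
      obtain ⟨i, -, rfl⟩ := List.mem_map.1 hy
      exact hx.1 i
  have hmul : ∀ g h : GQ, (∃ L : List ι, ((L.map x).prod)⁻¹ * g ∈ N) →
      (∃ L : List ι, ((L.map x).prod)⁻¹ * h ∈ N) →
      ∃ L : List ι, ((L.map x).prod)⁻¹ * (g * h) ∈ N := by
    rintro g h ⟨L, hL⟩ ⟨M, hM⟩
    refine ⟨L ++ M, ?_⟩
    have := N.mul_mem (hn _ (GK.inv_mem (hW M)) _ hL) hM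
    rw [List.map_append, List.prod_append, mul_inv_rev]
    simpa only [mul_assoc, inv_inv, mul_inv_cancel_left] using this
  have hin : ∀ g ∈ N, ∃ L : List ι, ((L.map x).prod)⁻¹ * g ∈ N := fun g hg =>
    ⟨[], by simpa using hg⟩
  have hpow : ∀ g : GQ, (∃ L : List ι, ((L.map x).prod)⁻¹ * g ∈ N) → ∀ j : ℕ,
      ∃ L : List ι, ((L.map x).prod)⁻¹ * g ^ j ∈ N := fun g hg j => by
    induction j with
    | zero => exact hin _ (by rw [pow_zero]; exact N.one_mem)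
    | succ j ih => rw [pow_succ]; exact hmul _ _ ih hg
  let H₀ : Subgroup GQ :=
    { carrier := {g | g ∈ GK ∧ ∃ L : List ι, ((L.map x).prod)⁻¹ * g ∈ N}
      one_mem' := ⟨GK.one_mem, hin _ N.one_mem⟩
      mul_mem' := fun ha hb => ⟨GK.mul_mem ha.1 hb.1, hmul _ _ ha.2 hb.2⟩
      inv_mem' := fun {g} hg => ⟨GK.inv_mem hg.1, by
        obtain ⟨k, hk⟩ := hp g hg.1
        obtain ⟨j, hj⟩ : ∃ j, 3 ^ k = j + 1 := Nat.exists_eq_add_one.2 (by positivity)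
        have := hmul _ _ (hpow g hg.2 j) (hin _ (N.inv_mem hk))
        rwa [hj, pow_succ', mul_inv_rev, mul_inv_cancel_left] at this⟩ }
  have hle : N ⊓ GK ≤ H₀ := fun g hg => ⟨hg.2, hin g hg.1⟩
  have : Fact (Nat.Prime 3) := ⟨Nat.prime_three⟩
  have hop : IsOpen ((N ⊓ GK : Subgroup GQ) : Set GQ) := hN.inter GK_on.2
  have key := (Lib.IND 3).1 (N ⊓ GK) H₀ GK
    (fun H' => H' = H₀ ∨ ∃ H χ s, H₀ ≤ H ∧ Step 3 H H' χ s) hle (fun g hg => hg.1)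
    (fun g hg n hn' => ⟨hn g hg n hn'.1, GK.mul_mem (GK.mul_mem hg hn'.2) (GK.inv_mem hg)⟩)
    ((Lib.IND 3).2.2.2.1 _ _ hop)
    (fun g hg => (hp g hg).imp fun k hk => ⟨hk, GK.pow_mem hg _⟩) (Or.inl rfl)
    fun H H' χ s h1 _ h2 _ => Or.inr ⟨H, χ, s, h1, h2⟩
  rcases key with e | ⟨H, χ, s, h1, h2⟩
  · intro g hg
    rw [e] at hg
    exact hg.2
  · have h0 : ∀ g ∈ H₀, χ g = 0 := fun g hg => ((h2.ker g).1 (h1 hg)).2
    have := hx.2 χ h2.add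
      (lc_of_open hop fun g hg u hu _ => by rw [h2.add g hg u hu.2, h0 u (hle hu), add_zero])
      (fun V hV τ hτ => h0 τ (hle ⟨hI V hV hτ, hτ.2⟩))
      (fun i => h0 _ ⟨hx.1 i, [i], by simp⟩) s h2.mem
    rw [h2.one] at this
    exact absurd this one_ne_zero

end Pool.Agent.MP_e23604_nt.W

end

section

set_option autoImplicit false

open Finset
open scoped Classical

namespace Pool.Agent.MP_e23604_nt.W

open B R S
open MP_3e91a1_nt (Step IsN Loc Nm Nrm Pl Ind)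

theorem nat_HUNB {A : Type} [CommRing A] (C : ℕ → ℕ → A) (k : A) (r : ℕ)
    (hC : ∀ a b d, k ^ a * C b d - C (a + b) d + C a (b + d) - C a b = 0)
    (hr : ∀ a, C (a + r) 1 = C a 1) : ∃ B : ℕ → A,
      (∀ a b, C a b = k ^ a * B b - B (a + b) + B a) ∧
        ∀ j a, B (a + r * j) = B a + j * (B r - B 0) := by
  obtain ⟨B, B0, B1⟩ : ∃ B : ℕ → A, B 0 = C 0 0 ∧ ∀ a, B (a + 1) = B a - C a 1 :=
    ⟨fun a => Nat.rec (C 0 0) (fun a r => r - C a 1) a, rfl, fun _ => rfl⟩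
  have h2 : ∀ a, B (a + r) = B a + (B r - B 0) := fun a => by
    induction a with
    | zero => simp
    | succ a ih =>
      rw [add_right_comm, B1, B1, ih, hr]
      ring
  refine ⟨B, fun a b => ?_, fun j a => ?_⟩
  · induction b with
    | zero =>
      have := hC a 0 0
      simp only [add_zero] at this ⊢
      rw [B0]
      linear_combination -this
    | succ b ih =>
      rw [← add_assoc, B1, B1]
      linear_combination ih + hC a b 1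
  · induction j with
    | zero => simp
    | succ j ih =>
      rw [mul_add, mul_one, ← add_assoc, h2, ih]
      push_cast
      ring

theorem UNB_pf (hPLK : PLK_st) (hFRK : FRK_st) : UNB_st := by
  intro R _ m κ V f hm h0 ⟨⟨N₀, k0, k1⟩, k2, k3⟩ k4 ⟨⟨N, hN, c1, c2⟩, hc⟩ hu
  obtain ⟨ϖ, p1, p2, -⟩ := hPLK.1 V
  obtain ⟨⟨σ, hσ⟩, -, -, hF⟩ := hFRK V ϖ p1 p2
  obtain ⟨-, -, -, a4, -, a5⟩ := hF σ hσ
  have := hN.1
  have := hN.finite
  have hn := mul_ne_zero N.index_ne_zero_of_finite hm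
  obtain ⟨s, s1, ⟨N', n1, n2⟩, s3, s4⟩ := a5 _ hn
  have hp := fun i : ℕ => V.D.pow_mem hσ.1 i
  have hk : ∀ i : ℕ, κ (σ ^ i) = κ σ ^ i ∧ s (σ ^ i) = i := fun i => by
    induction i with
    | zero => exact ⟨by rw [pow_zero, pow_zero, k2], by simpa using s3 1 V.I.one_mem⟩
    | succ i ih =>
      rw [pow_succ, k3 _ (hp i) _ hσ.1, s1 _ (hp i) _ hσ.1, ih.1, ih.2, s4, pow_succ, Nat.cast_succ]
      exact ⟨rfl, rfl⟩
  obtain ⟨B, b1, b2⟩ := nat_HUNB (fun a b => f (σ ^ a) (σ ^ b)) (κ σ) N.index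
    (fun a b d => by simpa only [pow_add, (hk a).1] using hc _ (hp a) _ (hp b) _ (hp d))
    fun a => (c2 _ (hp 1) _ (hp a) _ (hp _) (by simpa [pow_add] using N.pow_index_mem σ)).symm
  have b3 : ∀ i : ℕ, B (i : ZMod (N.index * m)).val = B i := fun i => by
    conv_rhs => rw [← Nat.mod_add_div i (N.index * m), mul_assoc, b2, Nat.cast_mul, h0]
    rw [ZMod.val_natCast, zero_mul, zero_mul, add_zero]
  refine ⟨fun g => B (s g).val, Lc.map ⟨N', n1, n2⟩ fun x => B x.val, fun g hg h hh => ?_⟩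
  obtain ⟨i, τ, t1, e1⟩ := a4 _ ((hN.inf k0).inf n1) g hg
  obtain ⟨j, τ', t2, e2⟩ := a4 _ (hN.inf n1) h hh
  have d1 := V.D.mul_mem (hp i) (V.I_le t1)
  have d2 := V.D.mul_mem (hp j) (V.I_le t2)
  simp only [s1 g hg h hh]
  rw [← n2 _ d1 g hg e1.2, ← n2 _ d2 h hh e2.2, ← k1 _ d1 g hg e1.1.2, ← c1 g hg _ d2 h hh e2.1,
    ← show f _ _ = f g _ from c2 _ d2 _ d1 g hg e1.1.1, (hu _ (hp i) _ d2 τ t1).1, (hu _ (hp i) _ (hp j) τ' t2).2,
    s1 _ (hp i) _ (V.I_le t1), s1 _ (hp j) _ (V.I_le t2), k3 _ (hp i) _ (V.I_le t1), s3 τ t1,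
    s3 τ' t2, k4 τ t1, add_zero, add_zero, mul_one, (hk i).1, (hk i).2, (hk j).2, ← Nat.cast_add,
    b3, b3, b3]
  exact b1 i j

end Pool.Agent.MP_e23604_nt.W

end

section

set_option autoImplicit false

open Finset
open scoped Classical

namespace Pool.Agent.MP_e23604_nt.W

open B R S
open MP_3e91a1_nt (Step IsN Loc Nm Nrm Pl Ind)

theorem vl_HTAME (V : Plc) : V.v V.l = (V.l : ℝ)⁻¹ := by
  rw [Plc.v, nv_apply, map_natCast, map_natCast,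
    ← map_natCast (algebraMap ℚ_[V.l] (PadicAlgCl V.l)), norm_algebraMap', Padic.norm_p]

theorem pow_HTAME {A : Type} [AddCommGroup A] {H : Subgroup GQ} {a : GQ → A} (h : Adt H a) {g : GQ}
    (hg : g ∈ H) (i : ℕ) : a (g ^ i) = i • a g := by
  induction i with
  | zero => simpa using h 1 H.one_mem 1 H.one_mem
  | succ i ih => rw [pow_succ, h _ (pow_mem hg i) g hg, ih, succ_nsmul]

theorem cast_HTAME {p N : ℕ} (hp : p ≠ 0) (hN : N ≠ 0) (h : p ∣ N) {g : GQ} {θ : Qb} (h0 : θ ≠ 0)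
    (hg : g θ = θ) (hc : cy p g = 1) : km p g θ = 0 ↔ p ∣ (km N g θ).val := by
  obtain ⟨k, rfl⟩ := h
  have : NeZero (p * k) := ⟨hN⟩
  rw [km_cast hp (right_ne_zero_of_mul hN) h0 hg hc, ZMod.castHom_apply, ← ZMod.natCast_val,
    ZMod.natCast_eq_zero_iff]

theorem TAME_pf (hTA0 : TA0_st) (hPLK : PLK_st) (hKM : KM_st) : TAME_st := by
  intro p n V hp hl h3
  have hN : p ^ n ≠ 0 := pow_ne_zero n hp.ne_zero
  have : NeZero (p ^ n) := ⟨hN⟩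
  have l0 : (V.l : Qb) ≠ 0 := Nat.cast_ne_zero.2 V.hl.out.ne_zero
  have hd : ∀ m, ¬ V.l ∣ p ^ m := fun m e =>
    hl ((Nat.prime_dvd_prime_iff_eq V.hl.out hp).1 (V.hl.out.dvd_of_dvd_pow e))
  have K := ((hKM _ hN).2.2.2.2.2.2.2.2 V (hd n)).2.1
  have c1 : ∀ τ ∈ V.I, cy p τ = 1 := fun τ hτ =>
    (((hKM _ hp.ne_zero).2.2.2.2.2.2.2.2 V (pow_one p ▸ hd 1)).2.1 τ hτ.1).1
  have ad : Adt V.I fun g => km (p ^ n) g V.l := fun g hg h _ => by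
    simp only [km_mul hN g h l0, (K g hg.1).1, one_mul, map_natCast, add_comm]
  have un : ∀ x : ZMod (p ^ n), IsUnit x ↔ x.val.Coprime (p ^ n) := fun x => by
    rw [← ZMod.isUnit_iff_coprime, ZMod.natCast_zmod_val]
  have cs : n ≠ 0 → ∀ τ ∈ V.I, km p τ V.l = 0 ↔ p ∣ (km (p ^ n) τ V.l).val := fun h τ hτ =>
    cast_HTAME hp.ne_zero hN (dvd_pow_self p h) l0 (map_natCast τ _) (c1 τ hτ)
  have h4 : ∀ τ ∈ V.I, km p τ V.l ≠ 0 → IsUnit (km (p ^ n) τ V.l) := fun τ hτ e => by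
    rw [un]
    rcases eq_or_ne n 0 with h | h
    · rw [Nat.coprime_comm, Nat.coprime_iff_gcd_eq_one]
      exact Nat.dvd_one.1 ((Nat.gcd_dvd_left _ _).trans (by rw [h, pow_zero]))
    · exact ((hp.coprime_iff_not_dvd.2 (mt (cs h τ hτ).2 e)).symm).pow_right n
  refine ⟨ad, ?_, fun ϖ h1 h2 τ hτ => ?_, h4, fun h τ hτ e e' => ?_,
    fun A _ a ha ⟨M, hM, hM'⟩ hpa τ hτ e u hu => ?_⟩
  · obtain ⟨τ, hτ, e⟩ : ∃ τ ∈ V.I, km p τ V.l ≠ 0 := by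
      by_contra! e
      obtain ⟨ϖ, h1, h2, -⟩ := hPLK.1 V
      obtain ⟨-, -, -, h5, -, -, h6⟩ := hPLK.2.2.1 V ϖ h1 h2
      obtain ⟨k, hk⟩ := h6 _ (rt_ne hp.ne_zero l0) fun τ hτ => by
        rw [km_spec hp.ne_zero τ l0, e τ hτ, ZMod.val_zero, pow_zero, one_mul, map_natCast]
      have h7 := congrArg V.v (rt_pow hp.ne_zero (V.l : Qb))
      rw [map_pow, hk, vl_HTAME, ← (h5 h3).1, ← zpow_natCast, ← zpow_mul] at h7
      have h8 : k * p = 1 := zpow_right_injective₀ (V.v.pos (io_ne h1.ne_zero)) h2.ne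
        (h7.trans (zpow_one _).symm)
      exact hp.not_dvd_one (Int.natCast_dvd_natCast.1 (Dvd.intro_left k h8))
    obtain ⟨w, hw⟩ := (h4 τ hτ e).exists_left_inv
    exact ⟨τ ^ w.val, pow_mem hτ _, by
      rw [pow_HTAME ad hτ, nsmul_eq_mul, ZMod.natCast_zmod_val, hw]⟩
  · simpa using (K τ hτ.1).2 (io ϖ) V.l 1 l0 (io_fix hτ.2 ϖ) (map_natCast τ _) (by
      rw [zpow_one, vl_HTAME, ((hPLK.2.2.1 V ϖ h1 h2).2.2.2.1 h3).1])
  · exact hp.one_lt.ne' (Nat.eq_one_of_dvd_coprimes ((un _).1 e) ((cs (by omega) τ hτ).1 e')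
      (dvd_pow_self p (by omega)))
  · obtain ⟨M', hN', hM''⟩ := km_lc (p ^ n) V.I V.l
    obtain ⟨t, htI, ht⟩ := hTA0 V.l V.γ _ (hM.inf hN')
    have eI : Ine V.l V.γ ≤ V.I := le_inf le_rfl (Ine_GK V.γ h3)
    have key : ∀ u ∈ V.I, ∃ i : ℕ, a u = i • a t ∧ km (p ^ n) u V.l = i • km (p ^ n) t V.l := by
      intro u hu
      obtain ⟨i, hi⟩ := ht u hu.1
      refine ⟨i, hi (Multiplicative A) a _ (ha.mono eI) (hM'.mono inf_le_left eI) (hd n)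
        fun g hg => hpa g (eI hg), hi (Multiplicative (ZMod (p ^ n))) (fun g => km (p ^ n) g V.l) _
          (ad.mono eI) (hM''.mono inf_le_right eI) (hd n) fun g _ => ?_⟩
      change p ^ n • km (p ^ n) g V.l = 0
      rw [nsmul_eq_mul, ZMod.natCast_self, zero_mul]
    obtain ⟨i, hi, hi'⟩ := key u hu
    obtain ⟨j, hj, hj'⟩ := key τ hτ
    rw [nsmul_eq_mul] at hi' hj'
    have e2 : ((km (p ^ n) u V.l).val * j) % p ^ n = i % p ^ n := by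
      rw [← ZMod.natCast_eq_natCast_iff', Nat.cast_mul, ZMod.natCast_zmod_val, hi', mul_assoc,
        mul_comm (km _ _ _), ← hj', e, mul_one]
    rw [hi, hj, ← mul_nsmul', nsmul_eq_mod_nsmul _ (hpa t (eI htI)), ← e2,
      ← nsmul_eq_mod_nsmul _ (hpa t (eI htI))]

end Pool.Agent.MP_e23604_nt.W

end

section

/-! Kummer cocycles: the collected statements. -/

set_option autoImplicit false

open Finset
open scoped Classical

namespace Pool.Agent.MP_e23604_nt.W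

open B R S
open MP_3e91a1_nt (Step IsN Loc Nm Nrm Pl Ind)

theorem zp_HKM (a : Qb) (N : ℕ) (k : ℤ) : (a ^ k) ^ N = (a ^ N) ^ k := by
  rw [← zpow_natCast, ← zpow_mul, mul_comm, zpow_mul, zpow_natCast]

theorem lz_HKM {N : ℕ} (h : N ≠ 0) {z : Qb} (hz : z ^ N = 1) (k : ℤ) :
    lz N (z ^ k) = k * lz N z := by
  have z0 : z ≠ 0 := fun e => by simp [e, h] at hz
  have e : ∀ k : ℤ, lz N (z ^ (k + 1)) = lz N (z ^ k) + lz N z := fun k => by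
    rw [zpow_add_one₀ z0, lz_mul h (by rw [zp_HKM, hz, one_zpow]) hz]
  induction k using Int.induction_on with
  | zero => simp [lz_one h]
  | succ i ih =>
    rw [e, ih]
    push_cast
    ring
  | pred i ih =>
    have := e (-(i : ℤ) - 1)
    rw [sub_add_cancel, ih] at this
    push_cast at this ⊢
    linear_combination -this

theorem KMa_pf : KMa_st := by
  intro N h
  refine ⟨⟨cy_lc N ⊤, cy_one h, fun g _ g' _ => cy_mul h g g'⟩, km_lc N ⊤,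
    fun H θ h0 hf => ⟨km_lc N H θ, fun g _ g' hg' => ?_⟩,
    ⟨fun a b => lz N (rt N (a * b) / (rt N a * rt N b)), fun g a b ha hb => km_two h g ha hb⟩,
    fun ι s θ k h0 => ⟨fun y => lz N (rt N (y (∏ i ∈ s, θ i ^ k i)) /
      ∏ i ∈ s, rt N (y (θ i)) ^ k i), fun y y' e => ?_, fun g y => ?_⟩, fun g y h0 hg => ?_⟩
  · exact (km_mul h g g' h0).trans (by rw [hf g' hg', add_comm])
  · simp only [map_prod, map_zpow₀]
    rw [prod_congr rfl fun i hi => congrArg (· ^ k i) (e i hi),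
      prod_congr rfl fun i hi => congrArg (rt N · ^ k i) (e i hi)]
  · have h1 : ∀ i ∈ s, y (θ i) ≠ 0 := fun i hi => (map_ne_zero y).2 (h0 i hi)
    rw [km_any h g ((map_ne_zero y).2 (prod_ne_zero_iff.2 fun i hi => zpow_ne_zero _ (h0 i hi)))
      (s := ∏ i ∈ s, rt N (y (θ i)) ^ k i) (s' := ∏ i ∈ s, rt N (g (y (θ i))) ^ k i)
      (by simp only [← prod_pow, zp_HKM, rt_pow h, map_prod, map_zpow₀])
      (by simp only [← prod_pow, zp_HKM, rt_pow h, map_prod, map_zpow₀]), map_prod g,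
      ← prod_div_distrib, lz_prod h s fun i hi => by
        rw [map_zpow₀, ← div_zpow, zp_HKM, km_root h g (h1 i hi), one_zpow],
      sum_congr rfl fun i hi => by
        rw [map_zpow₀, ← div_zpow, lz_HKM h (km_root h g (h1 i hi))]]
    rfl
  · rw [km_any h g (pow_ne_zero N h0) (s := y) (s' := y) rfl (by rw [map_pow, hg]), map_pow, hg,
      div_self h0, lz_one h]
    ring

theorem KMb_pf : KMb_st := by
  intro N h
  refine ⟨fun k hk => ⟨fun g => (cy_cast h hk g).symm,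
    fun θ => -lz N (rt N θ / rt (N * k) θ ^ k), fun g θ h0 => ?_⟩, fun g hg => ?_, fun V hV => ?_⟩
  · have e : ∀ x, (rt (N * k) x ^ k) ^ N = x := fun x => by
      rw [← pow_mul, mul_comm k, rt_pow (mul_ne_zero h hk)]
    rw [km_any h g h0 (e _) (e _), map_pow, ← div_pow,
      lz_cast h hk (km_root (mul_ne_zero h hk) g h0), km]
    ring
  · have r3 := rt_pow three_ne_zero w3
    have r0 := rt_ne three_ne_zero w3_ne_zero
    have r9 : rt 3 w3 ^ 3 ^ (1 + 1) = 1 := by rw [pow_succ 3, pow_mul, pow_one, r3, w3_cube]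
    refine ⟨(cy_eq_one three_ne_zero).2 hg, ?_⟩
    rw [km, lz_eq_zero three_ne_zero (km_root three_ne_zero g w3_ne_zero), mem_GK'.1 hg,
      div_eq_one_iff_eq r0, cy_eq_one (by norm_num)]
    refine ⟨fun e => e _ r9, fun e z hz => ?_⟩
    have hp : IsPrimitiveRoot (rt 3 w3) 9 := IsPrimitiveRoot.iff_orderOf.2
      (orderOf_eq_prime_pow (p := 3) (n := 1) (by rw [pow_one, r3]; exact w3_ne_one) r9)
    obtain ⟨i, -, rfl⟩ := hp.eq_pow_of_pow_eq_one hz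
    rw [map_pow, e]
  have hN : V.v N = 1 := by
    simpa using v_coprime V.na V.hl.out (nv_lt V.l V.γ) (n := N) (by exact_mod_cast hV)
  have hv : ∀ z : Qb, z ^ N = 1 → V.v z = 1 := fun z hz =>
    (pow_eq_one_iff_of_nonneg (V.v.nonneg z) h).1 (by rw [← map_pow, hz, map_one])
  have inj : ∀ z z' : Qb, z ^ N = 1 → z' ^ N = 1 → V.v (z - z') < 1 → z = z' := by
    intro z z' hz hz' e
    have z0 : z' ≠ 0 := fun e => by simp [e, h] at hz'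
    refine (div_eq_one_iff_eq z0).1 (root_one V hN (by rw [div_pow, hz, hz', div_one]) ?_)
    rwa [div_sub_one z0, map_div₀, hv z' hz', div_one]
  refine ⟨inj, fun τ hτ => ⟨cy_ine V hN hτ, fun θ ϖ k h0 e1 e2 e3 => ?_⟩, fun ϖ σ hσ => ?_⟩
  · have c := cy_ine V hN hτ
    have k0 := zpow_ne_zero k h0
    have k1 : τ (ϖ ^ k) = ϖ ^ k := by rw [map_zpow₀, e2]
    have u1 : V.v (θ / ϖ ^ k) = 1 := by
      rw [map_div₀, e3, map_zpow₀, div_self (zpow_ne_zero k (V.v.ne_zero h0))]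
    have u2 : τ (θ / ϖ ^ k) = θ / ϖ ^ k := by rw [map_div₀, e1, k1]
    rw [← div_mul_cancel₀ θ k0, km_fix_mul h (fun e => by simp [e] at u1) k0 u2 k1 c,
      km_ine V hN hτ u1 u2, zero_add, km_fix h k0 (s := rt N ϖ ^ k) (by rw [zp_HKM, rt_pow h]) k1 c,
      km_fix h h0 (rt_pow h ϖ) e2 c, map_zpow₀, ← div_zpow,
      lz_HKM h (by simpa only [e2] using km_root h τ h0)]
  · have z1 := (zt_prim h).pow_eq_one
    refine lz_eq h ?_
    rw [zt_nat h]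
    exact (inj _ _ (by rw [← map_pow, z1, map_one]) (zt_val_pow h _)
      (hσ.2 _ (hv _ z1).le)).symm

theorem KM_pf (hKMa : KMa_st) (hKMb : KMb_st) : KM_st := fun N h => by
  obtain ⟨a1, a2, a3, a4, a5, a6⟩ := hKMa N h
  exact ⟨a1, a2, a3, a4, a5, a6, hKMb N h⟩

end Pool.Agent.MP_e23604_nt.W

end

section

set_option autoImplicit false

open Finset
open scoped Classical

namespace Pool.Agent.MP_e23604_nt.W

open B R S
open MP_3e91a1_nt (Step IsN Loc Nm Nrm Pl Ind)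

theorem one_HPOW {v : AbsoluteValue Qb ℝ} (hv : IsNonarchimedean v) {x : Qb}
    (h : v (x - 1) < 1) : v x = 1 := by
  have h1 := hv x (-(x - 1))
  have h2 := hv (x - 1) 1
  rw [v.map_neg, show x + -(x - 1) = 1 by ring, map_one] at h1
  rw [sub_add_cancel, map_one, max_eq_right h.le] at h2
  exact h2.antisymm ((le_max_iff.1 h1).resolve_right (not_le.2 h))

/-- the root nearest to one -/
theorem root_HPOW {v : AbsoluteValue Qb ℝ} (hv : IsNonarchimedean v) {p : ℕ} (hp : p.Prime)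
    {x : Qb} (h : v (x - 1) < 1) : ∃ y, y ^ p = x ∧ v (y - 1) * v p ≤ v (x - 1) := by
  obtain ⟨y, hy, hm⟩ := Finset.exists_min_image (Polynomial.nthRoots p x).toFinset
    (fun y => v (y - 1)) ⟨rt p x, by
      rw [Multiset.mem_toFinset, Polynomial.mem_nthRoots hp.pos, rt_pow hp.ne_zero]⟩
  simp only [Multiset.mem_toFinset, Polynomial.mem_nthRoots hp.pos] at hy hm
  have hζ := zt_prim hp.ne_zero
  have hvy : v y = 1 := (pow_eq_one_iff_of_nonneg (v.nonneg y) hp.ne_zero).1 (by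
    rw [← map_pow, hy, one_HPOW hv h])
  refine ⟨y, hy, ?_⟩
  have e := congrArg (fun f => v (Polynomial.eval 1 f))
    (X_pow_sub_C_eq_prod hζ hp.pos hy)
  simp only [Polynomial.eval_sub, Polynomial.eval_pow, Polynomial.eval_X, Polynomial.eval_C,
    one_pow, Polynomial.eval_prod, map_prod] at e
  obtain ⟨n, rfl⟩ : ∃ n, p = n + 1 := ⟨p - 1, by have := hp.pos; omega⟩
  have e2 := congrArg v hζ.prod_one_sub_pow_eq_order
  rw [v.map_sub x, e, Finset.prod_range_succ', pow_zero, one_mul, v.map_sub y, mul_comm,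
    Nat.cast_succ, ← e2, map_prod]
  refine mul_le_mul_of_nonneg_right (Finset.prod_le_prod (fun _ _ => v.nonneg _) fun i _ => ?_)
    (v.nonneg _)
  have h1 := hm (zt (n + 1) ^ (i + 1) * y) (by rw [mul_pow, zt_val_pow hp.ne_zero, one_mul, hy])
  have h2 := hv (y - 1) (1 - zt (n + 1) ^ (i + 1) * y)
  rw [v.map_sub (_ * y)] at h1
  rwa [max_eq_right h1, show y - 1 + (1 - zt (n + 1) ^ (i + 1) * y) =
    (1 - zt (n + 1) ^ (i + 1)) * y by ring, map_mul, hvy, mul_one] at h2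

/-- a root close to one is fixed -/
theorem fix_HPOW {v : AbsoluteValue Qb ℝ} (hv : IsNonarchimedean v) {p : ℕ} (hp : p.Prime)
    {H : Subgroup GQ} (hD : H ≤ Dec v) {y : Qb} (hx : Fix H (y ^ p)) (h : v (y - 1) < v p) :
    Fix H y := by
  intro g hg
  have hvy := one_HPOW hv (h.trans_le hv.apply_natCast_le_one)
  have hy0 : y ≠ 0 := by
    rintro rfl
    simp at hvy
  by_contra hne
  have h2 : (g y / y) ^ p = 1 := by
    rw [div_pow, ← map_pow, hx g hg, div_self (pow_ne_zero _ hy0)]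
  have h3 := MP_3e91a1_nt.root_WL0 hv hp h2 fun e => hne ((div_eq_one_iff_eq hy0).1 e)
  have h4 := hv (g (y - 1)) (-(y - 1))
  rw [v.map_neg, hD hg, max_self, map_sub g, map_one g,
    show g y - 1 + -(y - 1) = (g y / y - 1) * y by field_simp; ring, map_mul, hvy, mul_one] at h4
  exact absurd (h3.trans h4) (not_le.2 h)

theorem PW0_pf : PW0_st := by
  intro p n l _ γ H x hp hD hx h
  have hv := nv_na l γ
  generalize nv l γ = v at *
  have h1 : v p ≤ 1 := hv.apply_natCast_le_one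
  have h0 : 0 < v p := v.pos (Nat.cast_ne_zero.2 hp.ne_zero)
  induction n generalizing x with
  | zero => exact ⟨x, by simp, hx⟩
  | succ n ih =>
    obtain ⟨y, rfl, hy⟩ := root_HPOW hv hp (h.trans_le (pow_le_one₀ h0.le h1))
    have h2 : v (y - 1) < v p ^ (n + 1) := lt_of_mul_lt_mul_right (by
      rw [← pow_succ]
      exact hy.trans_lt h) h0.le
    obtain ⟨z, rfl, hz⟩ := ih y
      (fix_HPOW hv hp hD hx (h2.trans_le (pow_le_of_le_one h0.le h1 n.succ_ne_zero))) h2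
    exact ⟨z, by rw [← pow_mul, ← pow_succ], hz⟩

theorem POW_pf (hPW0 : PW0_st) : POW_st := by
  intro p n V H u hp hD hu h
  obtain ⟨y, hy, hf⟩ := hPW0 p n V.l V.γ H u hp hD hu h
  refine ⟨⟨y, hy, hf⟩, lz (p ^ n) (rt (p ^ n) u / y), fun g hg => ?_⟩
  have hN : p ^ n ≠ 0 := pow_ne_zero n hp.ne_zero
  have h1 := one_HPOW V.na (h.trans_le (pow_le_one₀ (V.v.nonneg _) V.na.apply_natCast_le_one))
  have u0 : u ≠ 0 := by
    rintro rfl
    simp at h1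
  have y0 : y ≠ 0 := fun e => u0 (by rw [← hy, e, zero_pow hN])
  show km (p ^ n) g u = _
  rw [km_any hN g u0 hy (hy.trans (hu g hg).symm), hf g hg, hu g hg, div_self y0, lz_one hN]
  ring

end Pool.Agent.MP_e23604_nt.W

end

section

set_option autoImplicit false

open Finset
open scoped Classical

namespace Pool.Agent.MP_e23604_nt.W

open B R S
open MP_3e91a1_nt (Step IsN Loc Nm Nrm Pl Ind)

theorem unip_HGEN {R : Type} [CommRing R] {n : ℕ} (h3 : (3 : R) ^ n = 0) {y : R}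
    (hy : IsNilpotent (y - 1)) : ∃ k, y ^ 3 ^ k = 1 := by
  obtain ⟨j, hj⟩ := hy
  obtain ⟨r, hr⟩ := exists_add_pow_prime_pow_eq Nat.prime_three (y - 1) 1 j
  rw [pow_eq_zero_of_le (Nat.lt_pow_self (by norm_num)).le hj, sub_add_cancel, one_pow] at hr
  have h1 : ((3 : ℕ) : R) ∣ y ^ 3 ^ j - 1 := ⟨(y - 1) * 1 * r, by rw [hr]; ring⟩
  have h2 := dvd_sub_pow_of_dvd_sub h1 n
  rw [pow_succ, Nat.cast_ofNat, h3, zero_mul, zero_dvd_iff, one_pow, ← pow_mul, ← pow_add] at h2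
  exact ⟨_, sub_eq_zero.1 h2⟩

theorem GEN_pf (hKGEN : KGEN_st) (hBRN : BRN_st) (hTAME : TAME_st) (hPLK : PLK_st) : GEN_st := by
  intro b hb
  obtain ⟨-, p2, -, -, -, -, -, p8, -, -, p11, p12⟩ := hPLK
  obtain ⟨x₁, m₁, x₂, m₂, -, -, k1, k2, k3⟩ := hKGEN.1 0
  obtain ⟨u₀, i, c₀, hu₀, hc₀, hn⟩ := p12 (3 * b) (mul_ne_zero (by decide) hb)
  obtain ⟨s, hs, rfl⟩ := p11 c₀ hc₀
  have npw : ∀ ϖ, PP ϖ → ¬ pw ∣ ϖ := fun ϖ h e => pw_prime.not_isUnit (isUnit_of_dvd_one (by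
    simpa using dvd_sub e (pw_dvd3.trans h.2)))
  have hV : ∀ ϖ, PP ϖ → ∃ (V : Plc) (τ : GQ), Ov V ϖ ∧ τ ∈ V.I ∧ km 3 τ V.l ≠ 0 := fun ϖ h => by
    obtain ⟨V, hV⟩ := p2 ϖ h.1
    have l3 : V.l ≠ 3 := fun e => by
      have := Ov_l V
      rw [e] at this
      exact (Ov_three.1 this).cop (pw_prime.coprime_iff_not_dvd.2 (npw ϖ h)) hV
    obtain ⟨-, ⟨τ, t1, t2⟩, -⟩ := hTAME 3 1 V Nat.prime_three l3 l3
    have t3 : km 3 τ V.l = 1 := t2
    exact ⟨V, τ, hV, t1, by rw [t3]; decide⟩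
  have : Nonempty Plc := ⟨V3⟩
  choose! V τ hV using hV
  have hT : ∀ ϖ ∈ s.toFinset, PP ϖ := fun ϖ h => hs ϖ (Multiset.mem_toFinset.1 h)
  let x : Bool ⊕ s.toFinset → GQ := Sum.elim (fun i => cond i x₁ x₂) fun ϖ => τ ϖ
  have hx : ∀ i, x i ∈ GK := by
    rintro (⟨_ | _⟩ | ϖ)
    exacts [m₂.2, m₁.2, (hV _ (hT _ ϖ.2)).2.1.2]
  have hG : Gn3 (3 * b) x := ⟨hx, fun a a1 a2 a3 a4 =>
    (hKGEN.2 x₁ x₂ s.toFinset V τ m₁.2 m₂.2 k1 k2 k3 fun ϖ h => ⟨hT ϖ h, hV ϖ (hT ϖ h)⟩).1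
      (3 * b) a (fun ϖ h hd => by
        rw [hn] at hd
        rcases h.1.dvd_or_dvd hd with hd | hd
        · rcases h.1.dvd_or_dvd hd with hd | hd
          · exact absurd (isUnit_of_dvd_unit hd hu₀) h.1.not_isUnit
          · exact absurd ((h.1.irreducible.associated_of_dvd pw_prime.irreducible
              (h.1.dvd_of_dvd_pow hd)).symm.dvd) (npw ϖ h)
        · obtain ⟨ϖ', h2, h3⟩ := h.1.exists_mem_multiset_dvd hd
          exact Multiset.mem_toFinset.2 (p8 _ _ h (hs ϖ' h2) h3 ▸ h2))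
      a1 a2 a3 (a4 (.inl true)) (a4 (.inl false)) fun ϖ h => a4 (.inr ⟨ϖ, h⟩)⟩
  refine ⟨_, fun i => x ((Fintype.equivFin _).symm i), fun i => hx _,
    fun R _ t n θ c ht h3 hθ hd hU hc hU' he g hg => ?_⟩
  have he' : ∀ i, c (x i) = 0 := fun i => by simpa using he (Fintype.equivFin _ i)
  have c1 : c 1 = 0 := by simpa [hθ.2.1] using hc.2 1 (one_mem _) 1 (one_mem _)
  let N : Subgroup GQ :=
    { carrier := {g | g ∈ GK ∧ θ g = 1 ∧ c g = 0}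
      one_mem' := ⟨one_mem _, hθ.2.1, c1⟩
      mul_mem' := fun {a b} ha hb => ⟨mul_mem ha.1 hb.1, by
        rw [hθ.2.2 a ha.1 b hb.1, ha.2.1, hb.2.1, mul_one], by
        rw [hc.2 a ha.1 b hb.1, ha.2.2, hb.2.2, mul_zero, add_zero]⟩
      inv_mem' := fun {a} ha => ⟨inv_mem ha.1, by
        simpa [ha.2.1, hθ.2.1] using (hθ.2.2 a ha.1 _ (inv_mem ha.1)).symm, by
        simpa [ha.2.1, ha.2.2, c1] using (hc.2 a ha.1 _ (inv_mem ha.1)).symm⟩ }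
  obtain ⟨L, hL⟩ := hBRN _ (3 * b) x N hG (by
      obtain ⟨M, n1, n2⟩ := hθ.1.map₂ hc.1 Prod.mk
      refine Subgroup.isOpen_mono (H₁ := M ⊓ GK) (fun g hg => ?_) (n1.inf GK_on).2
      have := Prod.ext_iff.1 (n2 1 (one_mem _) g hg.2 (by simpa using hg.1))
      exact ⟨hg.2, this.1.symm.trans hθ.2.1, this.2.symm.trans c1⟩)
    (fun g hg u hu => ⟨mul_mem (mul_mem hg hu.1) (inv_mem hg), by
      rw [hθ.2.2 _ (mul_mem hg hu.1) _ (inv_mem hg), hθ.2.2 _ hg _ hu.1, hu.2.1, mul_one,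
        ← hθ.2.2 _ hg _ (inv_mem hg), mul_inv_cancel, hθ.2.1], by
      rw [hc.2 _ (mul_mem hg hu.1) _ (inv_mem hg), hθ.2.2 _ hg _ hu.1, hu.2.1, mul_one,
        hc.2 _ hg _ hu.1, hu.2.2, mul_zero, add_zero, ← hc.2 _ hg _ (inv_mem hg), mul_inv_cancel,
        c1]⟩)
    (fun g hg => by
      have hp : ∀ g ∈ GK, ∀ i : ℕ, θ (g ^ i) = θ g ^ i := fun g hg i => by
        induction i with
        | zero => simpa using hθ.2.1
        | succ i ih => rw [pow_succ, hθ.2.2 _ (pow_mem hg i) g hg, ih, pow_succ]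
      obtain ⟨r, hr⟩ := hd g hg
      obtain ⟨k, hk⟩ := unip_HGEN h3 (y := θ g) (hr ▸ (Commute.all _ _).isNilpotent_mul_right ht)
      rw [← hp g hg] at hk
      have hm := pow_mem hg (3 ^ k)
      have hq : ∀ i : ℕ, c ((g ^ 3 ^ k) ^ i) = i * c (g ^ 3 ^ k) := fun i => by
        induction i with
        | zero => simpa using c1
        | succ i ih =>
          rw [pow_succ, hc.2 _ (pow_mem hm i) _ hm, ih, hp _ hm, hk, one_pow]
          push_cast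
          ring
      refine ⟨k + n, pow_mem hg _, ?_, ?_⟩
      · rw [pow_add, pow_mul, hp _ hm, hk, one_pow]
      · rw [pow_add, pow_mul, hq, Nat.cast_pow, Nat.cast_ofNat, h3, zero_mul])
    (fun W hW u hu => ⟨hu.2, sub_eq_zero.1 (hU W hW u hu), hU' W hW u hu⟩) g hg
  have hP : ∀ L : List (Bool ⊕ s.toFinset), (L.map x).prod ∈ GK ∧ c (L.map x).prod = 0 :=
    fun L => by
      induction L with
      | nil => exact ⟨one_mem _, c1⟩
      | cons i L ih =>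
        rw [List.map_cons, List.prod_cons, hc.2 _ (hx i) _ ih.1, he', ih.2, mul_zero, add_zero]
        exact ⟨mul_mem (hx i) ih.1, rfl⟩
  have := hc.2 _ (hP L).1 _ hL.1
  rwa [mul_inv_cancel_left, (hP L).2, hL.2.2, mul_zero, add_zero] at this

end Pool.Agent.MP_e23604_nt.W

end

section

set_option autoImplicit false

open Finset
open scoped Classical

namespace Pool.Agent.MP_e23604_nt.W

open B R S
open MP_3e91a1_nt (Step IsN Loc Nm Nrm Pl Ind)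

theorem APXF_pf (hAPA : APA_st) (hAPB : APB_st) (hPLK : PLK_st) : APXF_st := by
  intro U B Q V t ε hU hK hε hQ ht
  have ov : ∀ (W : Plc), ∀ ϖ ∈ Q, ∀ y ∈ GK, ∀ b, W.v = ((V ϖ).mv y).v → (Ov W b ↔ Ov (V ϖ) b) :=
    fun W ϖ _ y hy b e => by rw [Ov, e, Plc.mv_v, io_fix hy, Ov]
  have wd : ∀ (W : Plc), ∀ ϖ ∈ Q, ∀ y ∈ GK, ∀ ϖ' ∈ Q, ∀ y' ∈ GK, W.v = ((V ϖ).mv y).v →
      W.v = ((V ϖ').mv y').v → y⁻¹ (t ϖ y) = y'⁻¹ (t ϖ' y') := by
    intro W ϖ h y hy ϖ' h' y' hy' e e'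
    obtain rfl : ϖ' = ϖ := (hQ ϖ' h').2.2 ϖ h
      (((hPLK.2.2.1 _ _ (hQ ϖ' h').1 (hQ ϖ' h').2.1).1 ϖ).1
        ((ov W ϖ' h' y' hy' ϖ e').1 ((ov W ϖ h y hy ϖ e).2 (hQ ϖ h).2.1)))
    have k : y' * y⁻¹ ∈ (V ϖ').D := (V ϖ').mem_D.2 ⟨fun x => by
      rw [AlgEquiv.mul_apply, ← Plc.mv_v, ← e', e, Plc.mv_v, ← AlgEquiv.mul_apply, mul_inv_cancel,
        AlgEquiv.one_apply], GK.mul_mem hy' (GK.inv_mem hy)⟩
    have := (ht ϖ' h y hy).2.1 _ k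
    rw [inv_mul_cancel_right] at this
    rw [this, ← AlgEquiv.mul_apply, inv_mul_cancel_left]
  have ex : ∀ W : Plc, ∃ z : Qb, (∀ ϖ ∈ Q, ∀ y ∈ GK, W.v = ((V ϖ).mv y).v → z = y⁻¹ (t ϖ y)) ∧
      ((¬ ∃ ϖ ∈ Q, ∃ y ∈ GK, W.v = ((V ϖ).mv y).v) → z = 1) := fun W => by
    by_cases h : ∃ ϖ ∈ Q, ∃ y ∈ GK, W.v = ((V ϖ).mv y).v
    · obtain ⟨ϖ, h1, y, h2, e⟩ := id h
      exact ⟨_, fun ϖ' h' y' hy' e' => wd W ϖ h1 y h2 ϖ' h' y' hy' e e', fun k => absurd h k⟩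
    · exact ⟨1, fun ϖ h1 y h2 e => absurd ⟨ϖ, h1, y, h2, e⟩ h, fun _ => rfl⟩
  choose T T1 T2 using ex
  have T3 : ∀ W : Plc, W.v (T W) = 1 := fun W => by
    by_cases h : ∃ ϖ ∈ Q, ∃ y ∈ GK, W.v = ((V ϖ).mv y).v
    · obtain ⟨ϖ, h1, y, h2, e⟩ := h
      rw [T1 W ϖ h1 y h2 e, e, Plc.mv_v, ← AlgEquiv.mul_apply, mul_inv_cancel, AlgEquiv.one_apply,
        (ht ϖ h1 y h2).1]
    · rw [T2 W h, map_one]
  have e0 : 0 < min ε 1 := lt_min hε one_pos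
  obtain ⟨α₀, a1, a2, a3⟩ := hAPA U (B ∪ Q.image (fun ϖ => (V ϖ).l) ∪ range (U.index + 1)) T _ hU
    e0 fun W _ => ⟨(T3 W).le, fun W' u hu e => by
      by_cases h : ∃ ϖ ∈ Q, ∃ y ∈ GK, W.v = ((V ϖ).mv y).v
      · obtain ⟨ϖ, h1, y, h2, k⟩ := h
        rw [T1 W ϖ h1 y h2 k, T1 W' ϖ h1 _ (GK.mul_mem h2 (hK hu)) (AbsoluteValue.ext fun x => by
          rw [e, Plc.mv_v, k]; rfl), (ht ϖ h1 y h2).2.2 u hu, ← AlgEquiv.mul_apply, mul_inv_rev,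
          mul_inv_cancel_left]
      · rw [T2 W h, T2 W' ?_, map_one]
        rintro ⟨ϖ, h1, y, h2, k⟩
        refine h ⟨ϖ, h1, _, GK.mul_mem h2 (GK.inv_mem (hK hu)), AbsoluteValue.ext fun x => ?_⟩
        rw [Plc.mv_v, AlgEquiv.mul_apply, ← Plc.mv_v, ← k, e, Plc.mv_v, ← AlgEquiv.mul_apply,
          mul_inv_cancel, AlgEquiv.one_apply]⟩
  obtain ⟨α, b0, b1, b2, b3, b4⟩ := hAPB U _ α₀ _ hU e0 a1 a2 fun l _ hl =>
    mem_union_right (B ∪ Q.image fun ϖ => (V ϖ).l) (mem_range.2 (Nat.lt_succ_of_le hl))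
  have c1 : ∀ W : Plc, W.l ∈ B ∪ Q.image (fun ϖ => (V ϖ).l) ∪ range (U.index + 1) →
      W.v (α - T W) < min ε 1 := fun W h => by
    have := bLocA_add_lt W.na (b3 W h) (a3 W h)
    rwa [sub_add_sub_cancel] at this
  refine ⟨α, b0, b1, b2, fun ϖ h y hy => ?_, fun W h h' => ?_, fun W h => ?_⟩
  · have := c1 ((V ϖ).mv y) (mem_union_left _ (mem_union_right _ (mem_image_of_mem _ h)))
    rw [T1 _ ϖ h y hy rfl, Plc.mv_v, map_sub, ← AlgEquiv.mul_apply, mul_inv_cancel,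
      AlgEquiv.one_apply] at this
    exact this.trans_le (min_le_left _ _)
  · have := c1 W (mem_union_left _ (mem_union_left _ h))
    rw [T2 W fun ⟨ϖ, h1, y, h2, k⟩ => h' ϖ h1 ((ov W ϖ h1 y h2 ϖ k).2 (hQ ϖ h1).2.1)] at this
    exact this.trans_le (min_le_left _ _)
  · have k : W.l ∉ B ∪ Q.image (fun ϖ => (V ϖ).l) ∪ range (U.index + 1) := fun k => by
      have := bLocA_sub_lt W.na h ((c1 W k).trans_le (min_le_right _ _))
      rw [sub_sub_cancel, T3] at this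
      exact lt_irrefl _ this
    refine ⟨b4 W k h, fun e => k (mem_union_left _ (mem_union_left _ e)), fun ϖ h1 e => k ?_⟩
    rw [((hPLK.2.2.1 _ _ (hQ ϖ h1).1 (hQ ϖ h1).2.1).2.1 W e).1]
    exact mem_union_left _ (mem_union_right _ (mem_image_of_mem _ h1))

end Pool.Agent.MP_e23604_nt.W

end

section

set_option autoImplicit false

open Finset
open scoped Classical

namespace Pool.Agent.MP_e23604_nt.W

open B R S
open MP_3e91a1_nt (Step IsN Loc Nm Nrm Pl Ind)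

/-- a submodule `T ≤ W` missing an element of `W` has index at least the residue cardinality -/
theorem prop_HMOD {R : Type} [CommRing R] {t : R} {N : ℕ} (h : Chn t N) {M : Type}
    [AddCommGroup M] [Module R M] (T W : Submodule R M) [Finite W] (hTW : T ≤ W) {x : M}
    (hx : x ∈ W) (hxT : x ∉ T) : kp t * Nat.card T ≤ Nat.card W := by
  rw [kp, ← Nat.card_prod]
  refine Nat.card_le_card_of_injective
    (fun p => (⟨p.1.out • x + p.2, W.add_mem (W.smul_mem _ hx) (hTW p.2.2)⟩ : W)) ?_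
  rintro ⟨a, y⟩ ⟨b, z⟩ e
  have e : a.out • x + (y : M) = b.out • x + (z : M) := congrArg Subtype.val e
  have hab : a = b := by
    by_contra hn
    have hu : IsUnit (a.out - b.out) := h.unit_iff.2 fun hd => hn (by
      rw [← Ideal.Quotient.mk_out a, ← Ideal.Quotient.mk_out b]
      exact Ideal.Quotient.eq.2 (Ideal.mem_span_singleton.2 hd))
    have hm : (a.out - b.out) • x ∈ T := by
      have : (a.out - b.out) • x = (z : M) - y := by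
        rw [sub_smul, sub_eq_sub_iff_add_eq_add, e, add_comm]
      rw [this]
      exact T.sub_mem z.2 y.2
    obtain ⟨u, hu⟩ := hu
    rw [← hu] at hm
    exact hxT (by simpa [smul_smul] using T.smul_mem (↑u⁻¹ : R) hm)
  subst hab
  exact Prod.ext rfl (Subtype.ext (add_left_cancel e))

/-- one step of the filtration by the submodules killed by the powers of `t` -/
theorem step_HMOD {R : Type} [CommRing R] (t : R) {M : Type} [AddCommGroup M] [Module R M]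
    (h1 : {x : M | t • x = 0}.Finite) (W : Submodule R M)
    (hT : Finite (W.map (LinearMap.lsmul R M t))) :
    Finite W ∧ Nat.card W ≤
      {x : M | t • x = 0}.ncard * Nat.card (W.map (LinearMap.lsmul R M t)) := by
  let f : W →ₗ[R] M := (LinearMap.lsmul R M t) ∘ₗ W.subtype
  have hr : LinearMap.range f = W.map (LinearMap.lsmul R M t) := by
    rw [LinearMap.range_comp, Submodule.range_subtype]
  have := h1.to_subtype
  let g : LinearMap.ker f → {x : M | t • x = 0} := fun y => ⟨y.1.1, y.2⟩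
  have hg : Function.Injective g := fun y z e =>
    Subtype.ext (Subtype.ext (show (g y).1 = (g z).1 from congrArg Subtype.val e))
  have hk : Finite (LinearMap.ker f) := Finite.of_injective g hg
  have hc : Nat.card W = Nat.card (LinearMap.ker f) * Nat.card (W.map (LinearMap.lsmul R M t)) := by
    rw [Submodule.card_eq_card_quotient_mul_card (LinearMap.ker f),
      Nat.card_congr f.quotKerEquivRange.toEquiv, hr]
  refine ⟨Nat.finite_of_card_ne_zero ?_, ?_⟩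
  · rw [hc]
    exact (Nat.mul_pos Nat.card_pos Nat.card_pos).ne'
  · rw [hc, ← Nat.card_coe_set_eq]
    exact Nat.mul_le_mul_right _ (Nat.card_le_card_of_injective g hg)

theorem MOD_pf : MOD_st := by
  intro R _ t N d i M _ _ h hi h1 hc hx
  let W : ℕ → Submodule R M := fun j => LinearMap.ker (LinearMap.lsmul R M (t ^ j))
  have hW : ∀ j y, y ∈ W j ↔ t ^ j • y = 0 := fun j y => Iff.rfl
  have key : ∀ j, j ≤ N → Finite (W j) ∧ Nat.card (W j) ≤ kp t ^ (d * j + min j i) := by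
    intro j
    induction j with
    | zero =>
      intro _
      have : Subsingleton (W 0) := ⟨fun a b => Subtype.ext (by
        have ha := (hW 0 _).1 a.2
        have hb := (hW 0 _).1 b.2
        rw [pow_zero, one_smul] at ha hb
        rw [ha, hb])⟩
      refine ⟨inferInstance, ?_⟩
      rw [Nat.card_of_subsingleton (0 : W 0)]
      simp
    | succ j ih =>
      intro hj
      obtain ⟨hf, hle⟩ := ih (by omega)
      have hTW : (W (j + 1)).map (LinearMap.lsmul R M t) ≤ W j := by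
        rintro _ ⟨y, hy, rfl⟩
        rw [hW, LinearMap.lsmul_apply, smul_smul, ← pow_succ]
        exact hy
      have hT : Finite ((W (j + 1)).map (LinearMap.lsmul R M t)) :=
        Finite.of_injective _ (Submodule.inclusion_injective hTW)
      obtain ⟨hf', hs⟩ := step_HMOD t h1 (W (j + 1)) hT
      refine ⟨hf', hs.trans ((Nat.mul_le_mul_right _ hc).trans ?_)⟩
      rcases lt_or_ge j i with hji | hji
      · have := (Nat.card_le_card_of_injective _ (Submodule.inclusion_injective hTW)).trans hle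
        refine (Nat.mul_le_mul_left _ this).trans (le_of_eq ?_)
        rw [← pow_add, min_eq_left hji.le, min_eq_left (show j + 1 ≤ i from hji)]
        congr 1
        ring
      · obtain ⟨x, hx0, hx1⟩ := hx (by omega)
        have hxW : x ∈ W j := by
          obtain ⟨k, rfl⟩ := Nat.exists_eq_add_of_le' hji
          rw [hW, pow_add, mul_smul, hx0, smul_zero]
        have := (prop_HMOD h _ _ hTW hxW (fun ⟨y, _, e⟩ => hx1 y e.symm)).trans hle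
        rw [pow_succ, mul_assoc]
        refine (Nat.mul_le_mul_left _ this).trans (le_of_eq ?_)
        rw [← pow_add, min_eq_right hji, min_eq_right (hji.trans j.le_succ)]
        congr 1
        ring
  obtain ⟨hf, hle⟩ := key N le_rfl
  have e : W N = ⊤ := eq_top_iff.2 fun y _ => by rw [hW, h.nil, zero_smul]
  rw [e] at hf hle
  rw [min_eq_right hi, Nat.card_congr Submodule.topEquiv.toEquiv] at hle
  exact ⟨Finite.of_equiv _ (Submodule.topEquiv (R := R) (M := M)).toEquiv, hle⟩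

end Pool.Agent.MP_e23604_nt.W

end

section

set_option autoImplicit false

open Finset
open scoped Classical

namespace Pool.Agent.MP_e23604_nt.W

open B R S
open MP_3e91a1_nt (Step IsN Loc Nm Nrm Pl Ind)

theorem lc_HCNJ {A : Type} {H H' : Subgroup GQ} {b : GQ → A} (k : GQ) (hb : Lc H' b)
    (h : ∀ g ∈ H, k⁻¹ * g * k ∈ H') : Lc H fun g => b (k⁻¹ * g * k) := by
  obtain ⟨N, hN, hc⟩ := hb
  refine ⟨N, hN, fun g hg j hj e => hc _ (h g hg) _ (h j hj) ?_⟩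
  have h1 := hN.1.conj_mem' _ e k
  have h2 : (k⁻¹ * g * k)⁻¹ * (k⁻¹ * j * k) = k⁻¹ * (g⁻¹ * j) * k := by group
  rwa [h2]

theorem inv_HCNJ {R : Type} [CommRing R] {θ : GQ → R} {H : Subgroup GQ} (h : Mu H θ) {k : GQ}
    (hk : k ∈ H) : θ k⁻¹ * θ k = 1 := by
  rw [← h.2.2 _ (H.inv_mem hk) _ hk, inv_mul_cancel, h.2.1]

theorem cj_HCNJ {R : Type} [CommRing R] {θ : GQ → R} {H : Subgroup GQ} (h : Mu H θ) {k g : GQ}
    (hk : k ∈ H) (hg : g ∈ H) : θ (k⁻¹ * g * k) = θ g := by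
  rw [h.2.2 _ (H.mul_mem (H.inv_mem hk) hg) _ hk, h.2.2 _ (H.inv_mem hk) _ hg]
  linear_combination θ g * inv_HCNJ h hk

theorem one_HCNJ {R : Type} [CommRing R] (θ : GQ → R) (H : Subgroup GQ) (f : GQ → GQ → R)
    (k : GQ) (hf : Co2 θ H f) (hk : k ∈ H) :
    Bo2 θ H fun g h => f g h - θ k * f (k⁻¹ * g * k) (k⁻¹ * h * k) := by
  obtain ⟨⟨N, hN, c1, c2⟩, hf⟩ := hf
  have hm : ∀ g ∈ H, k⁻¹ * g * k ∈ H := fun g hg => H.mul_mem (H.mul_mem (H.inv_mem hk) hg) hk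
  have l1 : Lc H fun g => f g k := ⟨N, hN, c2 k hk⟩
  have l2 : Lc H (f k) := ⟨N, hN, c1 k hk⟩
  refine ⟨fun g => f g k - f k (k⁻¹ * g * k), l1.map₂ (lc_HCNJ k l2 hm) fun a b => a - b,
    fun g hg h hh => ?_⟩
  have e1 := hf g hg h hh k hk
  have e2 := hf g hg k hk _ (hm h hh)
  have e3 := hf k hk _ (hm g hg) _ (hm h hh)
  rw [show k * (k⁻¹ * h * k) = h * k by group] at e2
  rw [show k * (k⁻¹ * g * k) = g * k by group,
    show k⁻¹ * g * k * (k⁻¹ * h * k) = k⁻¹ * (g * h) * k by group] at e3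
  linear_combination e2 - e1 - e3

theorem two_HCNJ {R : Type} [CommRing R] (θ : GQ → R) (H H' : Subgroup GQ) (f : GQ → GQ → R)
    (k : GQ) (r : R) (hH : ∀ g, g ∈ H ↔ k⁻¹ * g * k ∈ H') (hθ : ∀ g ∈ H, θ (k⁻¹ * g * k) = θ g)
    (hf : Bo2 θ H' f) : Bo2 θ H fun g h => r * f (k⁻¹ * g * k) (k⁻¹ * h * k) := by
  obtain ⟨b, hb, hf⟩ := hf
  refine ⟨fun g => r * b (k⁻¹ * g * k),
    (lc_HCNJ k hb fun g hg => (hH g).1 hg).map fun a => r * a, fun g hg h hh => ?_⟩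
  have e := hf _ ((hH g).1 hg) _ ((hH h).1 hh)
  rw [show k⁻¹ * g * k * (k⁻¹ * h * k) = k⁻¹ * (g * h) * k by group, hθ g hg] at e
  linear_combination r * e

theorem CNG_pf : CNG_st := by
  intro R _ θ
  refine ⟨fun H f k _ hf hk => one_HCNJ θ H f k hf hk, two_HCNJ θ, ?_⟩
  intro G H H' f k hθ hf hk hG hH hb
  obtain ⟨b, l1, e1⟩ := one_HCNJ θ G f k hf hk
  obtain ⟨b', l2, e2⟩ := two_HCNJ θ H H' f k (θ k) hH (fun g hg => cj_HCNJ hθ hk (hG hg)) hb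
  refine ⟨fun g => b g + b' g, (l1.mono hG).map₂ l2 fun a c => a + c, fun g hg h hh => ?_⟩
  have h1 := e1 g (hG hg) h (hG hh)
  have h2 := e2 g hg h hh
  simp only at h1 h2
  linear_combination h1 + h2

theorem co_HCNJ {R : Type} [CommRing R] {θ x : GQ → R} {H : Subgroup GQ} (h : Mu H θ)
    (hx : Co θ H x) {k g : GQ} (hk : k ∈ H) (hg : g ∈ H) :
    θ (k * g * k⁻¹) = θ g ∧ x g = θ k⁻¹ * (x (k * g * k⁻¹) + (θ g - 1) * x k) := by
  have h0 := cj_HCNJ h (H.inv_mem hk) hg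
  rw [inv_inv] at h0
  have h1 := hx.2 _ (H.mul_mem (H.mul_mem hk hg) (H.inv_mem hk)) _ hk
  rw [inv_mul_cancel_right, hx.2 _ hk _ hg, h0] at h1
  exact ⟨h0, by linear_combination θ k⁻¹ * h1 - x g * inv_HCNJ h hk⟩

theorem CNJ_pf (hCNG : CNG_st) (hPLK : PLK_st) : CNJ_st := by
  intro R _ θ
  refine ⟨(hCNG R θ).1, fun V V' ϖ hθ hϖ hV hV' => ?_⟩
  obtain ⟨-, k, hk, hv⟩ := (hPLK.2.2.1 V ϖ hϖ hV).2.1 V' hV'
  obtain ⟨-, hD, hI⟩ := (hPLK.2.2.2.2.1 V' (V.mv k)).2 hv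
  refine ⟨fun x hx => ⟨?_, fun h1 h0 τ hτ => ?_⟩, fun f hf hb => ?_⟩
  · rintro ⟨m, hm⟩
    refine ⟨θ k⁻¹ * (m + x k), fun g hg => ?_⟩
    obtain ⟨e1, e2⟩ := co_HCNJ hθ hx hk (V'.D_le hg)
    rw [e2, hm _ ((V.mv_D k g).1 (hD ▸ hg)), e1]
    ring
  · obtain ⟨e1, e2⟩ := co_HCNJ hθ hx hk (V'.D_le (V'.I_le hτ))
    have hτ' := (V.mv_I k τ).1 (hI ▸ hτ)
    rw [e2, h0 _ hτ', ← e1, h1 _ hτ']
    ring
  · refine (hCNG R θ).2.2 GK V'.D V.D f k⁻¹ hθ hf (GK.inv_mem hk) V'.D_le (fun g => ?_) hb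
    rw [inv_inv, hD, V.mv_D]

end Pool.Agent.MP_e23604_nt.W

end

section

set_option autoImplicit false

open Finset
open scoped Classical

namespace Pool.Agent.MP_e23604_nt.W

open B R S
open MP_3e91a1_nt (Step IsN Loc Nm Nrm Pl Ind)

section

variable {R : Type} [CommRing R] {θ : GQ → R} {H : Subgroup GQ} {f f' : GQ → GQ → R}

theorem co_HCUP (h : Co2 θ H f) (h' : Co2 θ H f') (a b : R) (F : GQ → GQ → R)
    (e : ∀ g h, F g h = a * f g h + b * f' g h) : Co2 θ H F := by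
  obtain ⟨⟨N, a1, a2, a3⟩, a4⟩ := h
  obtain ⟨⟨N', b1, b2, b3⟩, b4⟩ := h'
  refine ⟨⟨N ⊓ N', a1.inf b1, fun g hg x hx y hy k => ?_, fun g hg x hx y hy k => ?_⟩,
    fun g hg x hx y hy => ?_⟩
  · rw [e, e, a2 g hg x hx y hy k.1, b2 g hg x hx y hy k.2]
  · have k1 : f x g = f y g := a3 g hg x hx y hy k.1
    have k2 : f' x g = f' y g := b3 g hg x hx y hy k.2
    show F x g = F y g
    rw [e, e, k1, k2]
  · rw [e, e, e, e]
    linear_combination a * a4 g hg x hx y hy + b * b4 g hg x hx y hy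

theorem bo_HCUP (h : Bo2 θ H f) (h' : Bo2 θ H f') (a b : R) (F : GQ → GQ → R)
    (e : ∀ g h, F g h = a * f g h + b * f' g h) : Bo2 θ H F := by
  obtain ⟨u, a1, a2⟩ := h
  obtain ⟨v, b1, b2⟩ := h'
  refine ⟨_, a1.map₂ b1 fun s t => a * s + b * t, fun g hg x hx => ?_⟩
  rw [e, a2 g hg x hx, b2 g hg x hx]
  ring

theorem cb_HCUP (hθ : Mu H θ) (h : Bo2 θ H f) : Co2 θ H f := by
  obtain ⟨⟨N, a1, a2⟩, -, a3⟩ := hθ
  obtain ⟨u, ⟨N', b1, b2⟩, b3⟩ := h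
  refine ⟨⟨N ⊓ N', a1.inf b1, fun g hg x hx y hy k => ?_, fun g hg x hx y hy k => ?_⟩,
    fun g hg x hx y hy => ?_⟩
  · rw [b3 g hg x hx, b3 g hg y hy, b2 x hx y hy k.2, b2 _ (H.mul_mem hg hx) _ (H.mul_mem hg hy)
      (by rw [mul_inv_rev, mul_assoc, inv_mul_cancel_left]; exact k.2)]
  · show f x g = f y g
    rw [b3 x hx g hg, b3 y hy g hg, a2 x hx y hy k.1, b2 x hx y hy k.2,
      b2 _ (H.mul_mem hx hg) _ (H.mul_mem hy hg) (by
        have := b1.1.conj_mem' _ k.2 g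
        rwa [mul_inv_rev, ← mul_assoc, mul_assoc g⁻¹])]
  · rw [b3 x hx y hy, b3 _ (H.mul_mem hg hx) y hy, b3 g hg _ (H.mul_mem hx hy), b3 g hg x hx,
      a3 g hg x hx, mul_assoc g]
    ring

end

theorem LIN_pf : LIN_st := by
  intro R _ θ H
  refine ⟨fun f f' r => ⟨fun h h' => ⟨co_HCUP h h' 1 1 _ fun _ _ => by ring,
      co_HCUP h h' 1 (-1) _ fun _ _ => by ring, co_HCUP h h' r 0 _ fun _ _ => by ring⟩,
    fun h h' => ⟨bo_HCUP h h' 1 1 _ fun _ _ => by ring,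
      bo_HCUP h h' 1 (-1) _ fun _ _ => by ring, bo_HCUP h h' r 0 _ fun _ _ => by ring⟩,
    cb_HCUP, fun θ' H' le e1 e2 => ⟨?_, ?_⟩⟩, fun ι s f => ⟨?_, ?_⟩⟩
  · rintro ⟨⟨N, a1, a2, a3⟩, a4⟩
    refine ⟨⟨N, a1, fun g hg x hx y hy k => ?_, fun g hg x hx y hy k => ?_⟩,
      fun g hg x hx y hy => ?_⟩
    · rw [e2 g hg x hx, e2 g hg y hy, a2 g (le hg) x (le hx) y (le hy) k]
    · show f' x g = f' y g
      rw [e2 x hx g hg, e2 y hy g hg]
      exact a3 g (le hg) x (le hx) y (le hy) k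
    · rw [e1 g hg, e2 x hx y hy, e2 _ (H'.mul_mem hg hx) y hy, e2 g hg _ (H'.mul_mem hx hy),
        e2 g hg x hx]
      exact a4 g (le hg) x (le hx) y (le hy)
  · rintro ⟨u, a1, a2⟩
    refine ⟨u, a1.mono le, fun g hg x hx => ?_⟩
    rw [e1 g hg, e2 g hg x hx, a2 g (le hg) x (le hx)]
  · induction s using Finset.induction_on with
    | empty =>
      exact fun _ => ⟨⟨⊤, ON.top, fun _ _ _ _ _ _ _ => rfl, fun _ _ _ _ _ _ _ => rfl⟩, by simp⟩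
    | insert i s hi ih =>
      exact fun h => co_HCUP (h i (mem_insert_self _ _))
        (ih fun j hj => h j (mem_insert_of_mem hj)) 1 1 _ fun _ _ => by
          rw [sum_insert hi, one_mul, one_mul]
  · induction s using Finset.induction_on with
    | empty => exact fun _ => ⟨fun _ => 0, Lc.const _ _, by simp⟩
    | insert i s hi ih =>
      exact fun h => bo_HCUP (h i (mem_insert_self _ _))
        (ih fun j hj => h j (mem_insert_of_mem hj)) 1 1 _ fun _ _ => by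
          rw [sum_insert hi, one_mul, one_mul]

theorem CUP_pf : CUP_st := by
  intro R _ κ ρ lam c x H hρ hl hκ hc hx
  have h1 := hc.1.map₂ hl.1 (· * ·)
  refine ⟨⟨?_, fun g hg h hh k hk => ?_⟩, ?_, fun I le e g hg h hh τ hτ => ?_,
    fun e => ⟨fun g hg h hh k hk => ?_, fun k hk g hg h hh => ?_⟩⟩
  · obtain ⟨N, a1, a2⟩ := h1
    obtain ⟨N', b1, b2⟩ := hx.1
    exact ⟨N ⊓ N', a1.inf b1, fun g _ y hy z hz k => congrArg (c g * lam g * ·) (b2 y hy z hz k.2),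
      fun g _ y hy z hz k => congrArg (· * x g) (a2 y hy z hz k.1)⟩
  · simp only [cup]
    rw [hκ g hg, hc.2 g hg h hh, hl.2.2 g hg h hh, hx.2 h hh k hk]
    ring
  · rintro (⟨m, e⟩ | ⟨m, e⟩)
    · refine ⟨_, hx.1.map (m * ·), fun g hg h hh => ?_⟩
      rw [cup, hκ g hg, e g hg, hx.2 g hg h hh]
      ring
    · refine ⟨_, h1.map (-· * m), fun g hg h hh => ?_⟩
      rw [cup, hκ g hg, e h hh, hc.2 g hg h hh, hl.2.2 g hg h hh]
      ring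
  · obtain ⟨e1, e2, e3⟩ := e τ hτ
    simp only [cup]
    rw [hc.2 g hg τ (le hτ), hl.2.2 g hg τ (le hτ), hx.2 h hh τ (le hτ), e1, e2, e3]
    simp
  · simp only [cup]
    rw [hx.2 h hh k hk, (e h hh).2]
    ring
  · simp only [cup]
    rw [hc.2 g hg h hh, hl.2.2 g hg h hh, (e g hg).1, (e g hg).2, (e h hh).2]
    ring

end Pool.Agent.MP_e23604_nt.W

end

section

set_option autoImplicit false

open Finset
open scoped Classical

namespace Pool.Agent.MP_e23604_nt.W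

open B R S
open MP_3e91a1_nt (Step IsN Loc Nm Nrm Pl Ind)

theorem CHP_pf (hCHO : CHO_st) : CHP_st := by
  intro p _
  by_cases hp : p = 2
  swap
  · exact hCHO p hp
  subst hp
  intro k B
  obtain ⟨m, U, χ, f, h, hf⟩ := R.CHI_ok k B
  refine ⟨_, U, χ, f, ⟨?_, h.lev.1, h.nr, h.add, h.ker, h.two, h.unr, h.fr, m + 2,
    fun a T h0 h1 h2 h3 => ?_⟩, hf⟩
  · exact Nat.le_self_pow h.pos.ne' 2
  · have e : ∀ l : ℕ, l.Prime → padicValRat l (a ^ 2) = 2 * padicValRat l a := fun l hl => by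
      have := Fact.mk hl
      rw [padicValRat.pow a]
      rfl
    have h2' : nv 2 1 ((2 : ℕ) : Qb) ≤ 1 := (nv_lt 2 1).le
    have h4 : nv 2 1 ((a : Qb) + 1) ≤ 1 := by
      rw [show (a : Qb) + 1 = (a - 1) + ((2 : ℕ) : Qb) by push_cast; ring]
      exact bLocA_add_le (nv_na 2 1) (h1.trans (pow_le_one₀ ((nv 2 1).nonneg _) h2')) h2'
    have := h.sum (a ^ 2) T (by positivity) (by
      rw [show ((a ^ 2 : ℚ) : Qb) - 1 = (a - 1) * (a + 1) by push_cast; ring, map_mul]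
      refine (mul_le_of_le_one_right ((nv 2 1).nonneg _) h4).trans ?_
      exact_mod_cast h1) h2 fun l hl hl2 hv => h3 l hl hl2 fun e0 => hv (by
        rw [e l hl, e0, mul_zero])
    rw [← this, mul_sum]
    refine sum_congr rfl fun l hl => ?_
    rw [e l (h2 l hl).1]
    push_cast
    ring

end Pool.Agent.MP_e23604_nt.W

end

section

set_option autoImplicit false

open Finset
open scoped Classical

namespace Pool.Agent.MP_e23604_nt.W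

open B R S
open MP_3e91a1_nt (Step IsN Loc Nm Nrm Pl Ind)

theorem FUN_pf : FUN_st := by
  intro N A _ x hN hA hx
  have hq : (N : ℚ) ≠ 0 := Nat.cast_ne_zero.2 hN
  obtain ⟨c, hc⟩ := CharacterModule.exists_character_apply_ne_zero_of_ne_zero hx
  let ψ : ℤ →+ AddCircle (1 : ℚ) := zmultiplesHom _ (((N : ℚ)⁻¹ : ℚ) : AddCircle (1 : ℚ))
  have hψ : ∀ k : ℤ, ψ k = ((k * (N : ℚ)⁻¹ : ℚ) : AddCircle (1 : ℚ)) := fun k => by
    rw [← zsmul_eq_mul, AddCircle.coe_zsmul]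
    rfl
  have h0 : ∀ k : ℤ, ψ k = 0 ↔ (N : ℤ) ∣ k := fun k => by
    rw [hψ, AddCircle.coe_eq_zero_iff]
    constructor
    · rintro ⟨m, e⟩
      refine ⟨m, ?_⟩
      rw [zsmul_eq_mul, mul_one, eq_mul_inv_iff_mul_eq₀ hq] at e
      exact_mod_cast e.symm.trans (mul_comm _ _)
    · rintro ⟨m, rfl⟩
      refine ⟨m, ?_⟩
      rw [zsmul_eq_mul, mul_one, eq_mul_inv_iff_mul_eq₀ hq]
      push_cast
      ring
  let φ : ZMod N →+ AddCircle (1 : ℚ) := ZMod.lift N ⟨ψ, (h0 _).2 dvd_rfl⟩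
  have hφ : ∀ k : ℤ, φ k = ψ k := fun k => ZMod.lift_coe N _ k
  have hi : Function.Injective φ := (injective_iff_map_eq_zero φ).2 fun a e => by
    obtain ⟨k, rfl⟩ := ZMod.intCast_surjective a
    exact (ZMod.intCast_zmod_eq_zero_iff_dvd k N).2 ((h0 k).1 (hφ k ▸ e))
  have hs : ∀ y : A, ∃ k : ZMod N, φ k = c y := fun y => by
    have e : N • c y = 0 := by rw [← map_nsmul, hA, map_zero]
    obtain ⟨q, hq'⟩ := QuotientAddGroup.mk_surjective (c y)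
    rw [← hq'] at e ⊢
    obtain ⟨m, hm⟩ := (AddCircle.coe_eq_zero_iff (1 : ℚ)).1 ((AddCircle.coe_nsmul (1 : ℚ)).trans e)
    refine ⟨m, ?_⟩
    rw [hφ, hψ]
    congr 1
    rw [zsmul_eq_mul, mul_one, nsmul_eq_mul] at hm
    rw [hm]
    field_simp
  choose k hk using hs
  refine ⟨AddMonoidHom.mk' k fun a b => hi (by rw [map_add, hk, hk, hk, map_add]), fun e => hc ?_⟩
  rw [← hk, show k x = 0 from e, map_zero]

end Pool.Agent.MP_e23604_nt.W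

end

section

set_option autoImplicit false

open Finset
open scoped Classical

namespace Pool.Agent.MP_e23604_nt.W

open B R S
open MP_3e91a1_nt (Step IsN Loc Nm Nrm Pl Ind)

/-- the values of an additive function -/
def val_HFIH {U : Subgroup GQ} {A : Type} [AddCommGroup A] {a : GQ → A} (h : Adt U a) :
    AddSubgroup A where
  carrier := {x | ∃ u ∈ U, a u = x}
  zero_mem' := ⟨1, U.one_mem, by simpa using h 1 U.one_mem 1 U.one_mem⟩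
  add_mem' := by
    rintro _ _ ⟨u, hu, rfl⟩ ⟨v, hv, rfl⟩
    exact ⟨u * v, U.mul_mem hu hv, h u hu v hv⟩
  neg_mem' := by
    rintro _ ⟨u, hu, rfl⟩
    refine ⟨u⁻¹, U.inv_mem hu, eq_neg_of_add_eq_zero_left ?_⟩
    rw [← h _ (U.inv_mem hu) u hu, inv_mul_cancel]
    simpa using h 1 U.one_mem 1 U.one_mem

theorem FIH_pf (hFUN : FUN_st) (hFI1 : FI1_st) : FIH_st := by
  intro p e U b hp hb hU hK
  induction e generalizing U with
  | zero =>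
    obtain ⟨N, h1, h2⟩ := ex_ON hU
    exact ⟨N, h1, h2, fun A _ a _ _ h _ g hg => by simpa using h g (h2 hg)⟩
  | succ e ih =>
    obtain ⟨N₁, h1, h2, h3⟩ := hFI1 p U (nn b).primeFactors hp hU
    obtain ⟨N, k1, k2, k3⟩ := ih N₁ h1.2 (h2.trans hK)
    refine ⟨N, k1, k2.trans h2, fun A _ a a1 a2 a3 a4 => k3 A a (a1.mono h2) (a2.mono h2)
      (fun g hg => ?_) fun V hV τ hτ => a4 V hV τ ⟨hτ.1, h2 hτ.2⟩⟩
    let P : AddSubgroup (val_HFIH a1) := (nsmulAddMonoidHom p).range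
    let F : A → val_HFIH a1 ⧸ P := fun x =>
      if h : x ∈ val_HFIH a1 then QuotientAddGroup.mk ⟨x, h⟩ else 0
    have hF : ∀ u (hu : u ∈ U), F (a u) = QuotientAddGroup.mk ⟨a u, u, hu, rfl⟩ :=
      fun u hu => dif_pos _
    have h0 : F (a g) = 0 := by
      by_contra h0
      obtain ⟨ℓ, hℓ⟩ := hFUN p _ _ hp.ne_zero (fun y => by
        obtain ⟨y, rfl⟩ := QuotientAddGroup.mk_surjective y
        rw [← QuotientAddGroup.mk_nsmul]
        exact (QuotientAddGroup.eq_zero_iff _).2 ⟨y, rfl⟩) h0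
      refine hℓ (h3 (fun u => ℓ (F (a u))) (fun u hu v hv => ?_) (a2.map fun x => ℓ (F x))
        (fun l _ γ hl τ hτ => ?_) g hg)
      · beta_reduce
        rw [← map_add, hF u hu, hF v hv, hF _ (U.mul_mem hu hv), ← QuotientAddGroup.mk_add]
        exact congrArg (fun z => ℓ (QuotientAddGroup.mk z)) (Subtype.ext (a1 u hu v hv))
      · have hV : ¬ Ov ⟨l, γ⟩ b := fun k => hl (Nat.mem_primeFactors.2 ⟨Fact.out, by
          have k' := k.dvd (b := (nn b : Zw)) ⟨star b, (mul_star_nn b).symm⟩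
          rw [Ov, map_natCast, ← Int.cast_natCast] at k'
          exact Int.natCast_dvd_natCast.1 (by_contra fun c =>
            k'.ne (v_coprime (nv_na l γ) Fact.out (nv_lt l γ) c)), (nn_pos hb).ne'⟩)
        rw [a4 _ hV τ ⟨⟨hτ.1, hK hτ.2⟩, hτ.2⟩, show F 0 = 0 from dif_pos (zero_mem _), map_zero]
    rw [hF g (h2 hg), QuotientAddGroup.eq_zero_iff] at h0
    obtain ⟨⟨_, u, hu, rfl⟩, h4⟩ := h0
    rw [show a g = p • a u from (congrArg Subtype.val h4).symm, ← mul_smul, ← pow_succ, a3 u hu]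

end Pool.Agent.MP_e23604_nt.W

end

section

set_option autoImplicit false

open Finset
open scoped Classical

namespace Pool.Agent.MP_e23604_nt.W

open B R S
open MP_3e91a1_nt (Step IsN Loc Nm Nrm Pl Ind)

theorem div_HPLa {a c : Zw} (h : Pry a) (h' : Pry (a * c)) : Pry c := by
  unfold Pry at *
  convert dvd_sub h' (h.mul_right c) using 1
  ring

theorem fac_HPLa (a : Zw) : ∀ u : Zw, IsUnit u → Pry (u * a) →
    ∃ s : Multiset Zw, (∀ ϖ ∈ s, PP ϖ) ∧ s.prod = u * a := by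
  induction a using UniqueFactorizationMonoid.induction_on_prime with
  | h₁ => exact fun u _ h => absurd (mul_zero u) h.ne
  | h₂ a ha => exact fun u hu h => ⟨0, by simp, by rw [h.unit (hu.mul ha), Multiset.prod_zero]⟩
  | h₃ a q _ hq ih =>
    intro u hu h
    obtain ⟨w, hw, h1⟩ := ex_pry (a := q) fun e => h.pw ((e.mul_right a).mul_left u)
    obtain ⟨w, rfl⟩ := hw
    have e : u * (q * a) = (w * q) * ((u * ↑w⁻¹) * a) := by
      linear_combination (-(u * q * a)) * w.mul_inv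
    obtain ⟨s, hs, e'⟩ := ih _ (hu.mul w⁻¹.isUnit) (div_HPLa h1 (e ▸ h))
    refine ⟨(w * q) ::ₘ s, fun ϖ hϖ => ?_, by rw [Multiset.prod_cons, e', e]⟩
    rcases Multiset.mem_cons.1 hϖ with rfl | hϖ
    · exact ⟨(associated_unit_mul_right q w w.isUnit).prime hq, h1⟩
    · exact hs ϖ hϖ

theorem PLa_pf : PLa_st := by
  refine ⟨fun a b ha hb ⟨c, e⟩ => ?_, fun a ha => ⟨?_, ha.2.star⟩, fun u hu => ?_, fun u hu => ?_,
    fun b hb => ?_⟩
  · have hc : IsUnit c := (hb.1.irreducible.isUnit_or_isUnit e).resolve_left ha.1.not_isUnit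
    rw [e, (div_HPLa ha.2 (e ▸ hb.2)).unit hc, mul_one]
  · exact (MulEquiv.prime_iff (starRingAut (R := Zw)).toMulEquiv).2 ha.1
  · obtain ⟨i, e | e⟩ := unit6 hu
    · exact ⟨0, i, by rw [e, pow_zero, one_mul]⟩
    · exact ⟨1, i, by rw [e, pow_one, neg_one_mul]⟩
  · simpa using fac_HPLa u 1 isUnit_one (by rwa [one_mul])
  · obtain ⟨n, a, h1, rfl⟩ := WfDvdMonoid.max_power_factor hb pw_prime.irreducible
    obtain ⟨w, hw, h2⟩ := ex_pry h1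
    obtain ⟨w, rfl⟩ := hw
    exact ⟨↑w⁻¹, n, w * a, w⁻¹.isUnit, h2, by linear_combination (-(pw ^ n * a)) * w.mul_inv⟩

end Pool.Agent.MP_e23604_nt.W

end

section

set_option autoImplicit false

open Finset
open scoped Classical

namespace Pool.Agent.MP_e23604_nt.W

open B R S
open MP_3e91a1_nt (Step IsN Loc Nm Nrm Pl Ind)

theorem iff_HPLb (V : Plc) (ϖ : Zw) (h : Prime ϖ) (h' : Ov V ϖ) (b : Zw) : Ov V b ↔ ϖ ∣ b :=
  ⟨fun e => by_contra fun hn => h'.cop (h.coprime_iff_not_dvd.2 hn) e, h'.dvd⟩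

theorem nat_HPLb (V : Plc) (m : ℕ) : Ov V m ↔ V.l ∣ m := by
  refine ⟨fun h => by_contra fun hn => ?_, fun h => (Ov_l V).dvd (Nat.cast_dvd_cast h)⟩
  have := v_coprime V.na V.hl.out (nv_lt V.l V.γ) (n := m) (by exact_mod_cast hn)
  rw [Ov, map_natCast] at h
  rw [Int.cast_natCast] at this
  exact h.ne this

theorem ex_HPLb (V : Plc) (b : Zw) : b ≠ 0 → Ov V b → ∃ ϖ, Prime ϖ ∧ Ov V ϖ := by
  induction b using UniqueFactorizationMonoid.induction_on_prime with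
  | h₁ => exact fun h => absurd rfl h
  | h₂ a ha => exact fun _ h => absurd h (not_Ov_unit V ha)
  | h₃ a q ha hq ih => exact fun _ h => (Ov_mul.1 h).elim (fun e => ⟨q, hq, e⟩) (ih ha)

theorem mv_HPLb (V : Plc) (g : GQ) (b : Zw) : (g ∈ GK → (Ov (V.mv g) b ↔ Ov V b)) ∧
    (g ∉ GK → (Ov (V.mv g) b ↔ Ov V (star b))) :=
  ⟨fun h => by rw [Ov, Ov, Plc.mv_v, io_fix h], fun h => by rw [Ov, Ov, Plc.mv_v, io_star h]⟩

theorem PLb_pf (hPLa : PLa_st) : PLb_st := by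
  refine ⟨fun V => ?_, fun ϖ h => ?_, iff_HPLb, nat_HPLb, fun V V' => ⟨fun e => ?_, fun e => ?_⟩,
    mv_HPLb⟩
  · by_cases h3 : V.l = 3
    · refine ⟨pw, pw_prime, Ov_three.1 ?_, fun _ => rfl, fun h => absurd h3 h⟩
      simpa [h3] using Ov_l V
    · obtain ⟨ϖ, h1, h2⟩ := ex_HPLb V _ (Nat.cast_ne_zero.2 V.hl.out.ne_zero) (Ov_l V)
      obtain ⟨w, hw, h4⟩ := ex_pry (a := ϖ) fun e => h3 (by
        have h5 := Ov_three.2 (h2.dvd (pw_prime.associated_of_dvd h1 e).symm.dvd)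
        exact (Nat.prime_dvd_prime_iff_eq V.hl.out Nat.prime_three).1
          ((nat_HPLb V 3).1 (by simpa using h5)))
      have h5 := (associated_unit_mul_right ϖ w hw).prime h1
      exact ⟨w * ϖ, h5, h2.dvd (dvd_mul_left _ _), fun e => absurd e h3, fun _ => ⟨h5, h4⟩⟩
  · obtain ⟨l, hl, hd⟩ := Nat.exists_prime_and_dvd (mt nn_unit.2 h.not_isUnit)
    have := Fact.mk hl
    have h1 := (nat_HPLb ⟨l, 1⟩ _).2 hd
    rw [← mul_star_nn, Ov_mul] at h1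
    obtain ⟨c, hc⟩ := ex_SAQ
    exact h1.elim (fun e => ⟨_, e⟩) fun e => ⟨_, ((mv_HPLb _ c ϖ).2 hc).2 e⟩
  · obtain ⟨l, γ⟩ := V
    obtain ⟨l', γ'⟩ := V'
    obtain rfl : l = l' := e
    exact ⟨γ⁻¹ * γ', by simp [Plc.mv, Plc.v]⟩
  · refine ⟨?_, by rw [Plc.D, Plc.D, e], Subgroup.ext fun g => by rw [Plc.mem_I, Plc.mem_I, e]⟩
    have h1 := Ov_l V'
    rw [Ov, ← e] at h1
    exact (Nat.prime_dvd_prime_iff_eq V.hl.out V'.hl.out).1 ((nat_HPLb V _).1 h1)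

end Pool.Agent.MP_e23604_nt.W

end

section

set_option autoImplicit false

open Finset
open scoped Classical

namespace Pool.Agent.MP_e23604_nt.W

open B R S
open MP_3e91a1_nt (Step IsN Loc Nm Nrm Pl Ind)

theorem CHB_pf (hCHQ : CHQ_st) (hPLK : PLK_st) (hFRK : FRK_st) (hKM : KM_st) : CHB_st := by
  have h1 : ∀ (N : Subgroup GQ) (g : GQ) (m B : ℕ) (b : Zw), ON N → g ∈ GK → m ≠ 0 → cy m g = 1 →
      b ≠ 0 → ∃ (V : Plc) (ϖ : Zw) (φ : GQ) (i j : ℕ), Sp m V ϖ φ ∧ B < V.l ∧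
        IsCoprime (V.l : Zw) b ∧ (∀ W : Plc, W.l = V.l → W.I ≤ N) ∧ (g ^ i)⁻¹ * φ ∈ N ∧
        (φ ^ j)⁻¹ * g ∈ N := by
    intro N g m B b hN hg hm hc hb
    obtain ⟨M, m1, m2⟩ := ex_ON (stabilizer_isOpen_of_isIntegral (K := ℚ) (zt m))
    obtain ⟨q, hq, γ, φ, i, j, a1, a2, a3, a4, a5⟩ := hCHQ (N ⊓ (GK ⊓ M)) g (B + nn b + m + 3)
      (hN.inf (GK_on.inf m1))
    have b1 : φ ∈ GK := by simpa using GK.mul_mem (GK.pow_mem hg i) a4.2.1
    have b2 : φ ∈ MulAction.stabilizer GQ (zt m) := by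
      simpa using mul_mem (pow_mem (show g ∈ MulAction.stabilizer GQ (zt m) from
        (cy_eq_one hm).1 hc _ (zt_prim hm).pow_eq_one) i) (m2 a4.2.2)
    have b3 : q % 3 = 1 := by
      have : ¬ 3 ∣ q := fun e => by
        have := (Nat.prime_dvd_prime_iff_eq Nat.prime_three hq.out).1 e
        omega
      have : q % 3 ≠ 2 := fun e => S.LOC_ok.2.1 q γ φ e a2 b1
      omega
    obtain ⟨ϖ, c1, c2, -, c3⟩ := hPLK.1 ⟨q, γ⟩
    have c4 : nn ϖ = q := by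
      have := (hPLK.2.2.1 _ ϖ c1 c2).2.2.1
      dsimp only at this
      omega
    have c5 := ((hFRK _ ϖ c1 c2).2.2.1 b3 φ).2 a2
    have c6 := ((hKM m hm).2.2.2.2.2.2.2.2 ⟨q, γ⟩ fun e => by
      have := Nat.le_of_dvd (Nat.pos_of_ne_zero hm) e
      dsimp only at this
      omega).2.2 ϖ φ c5
    rw [show cy m φ = 1 from (congrArg (lz m) b2).trans (cy_one hm), c4, ← Nat.cast_one,
      ZMod.natCast_eq_natCast_iff, Nat.modEq_iff_dvd' hq.out.one_le] at c6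
    refine ⟨⟨q, γ⟩, ϖ, φ, i, j, ⟨c3 (by dsimp only; omega), c2, c4, c6, c5⟩, by dsimp only; omega,
      ?_, ?_, a4.1, a5.1⟩
    · have := Nat.isCoprime_iff_coprime.2 (Nat.coprime_of_lt_prime (nn_pos hb).ne'
        (by omega : nn b < q) hq.out)
      have := this.map (Int.castRingHom Zw)
      simp only [eq_intCast, Int.cast_natCast] at this
      rw [← mul_star_nn] at this
      exact this.of_mul_right_left
    · rintro ⟨l, γ'⟩ (rfl : l = q) τ hτ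
      exact (a3 γ' hτ.1).1
  refine ⟨h1, fun N U m B b A A' _ _ a a' T T' hN hU hG hm hc hb ha ⟨M, m1, m2⟩ ha' ⟨M', n1, n2⟩
    ⟨g₁, g1, e1⟩ ⟨g₂, g2, e2⟩ => ?_⟩
  obtain ⟨g, hg, e, e'⟩ : ∃ g ∈ U, a g ∉ T ∧ a' g ∉ T' := by
    by_cases k1 : a' g₁ ∈ T'
    · by_cases k2 : a g₂ ∈ T
      · refine ⟨g₁ * g₂, U.mul_mem g1 g2, ?_, ?_⟩
        · rwa [ha _ g1 _ g2, T.add_mem_cancel_right k2]
        · rwa [ha' _ g1 _ g2, T'.add_mem_cancel_left k1]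
      · exact ⟨g₂, g2, k2, e2⟩
    · exact ⟨g₁, g1, e1, k1⟩
  obtain ⟨U', u1, u2⟩ := ex_ON hU
  obtain ⟨V, ϖ, φ, i, j, a1, a2, a3, a4, a5, a6⟩ := h1 (N ⊓ U' ⊓ (M ⊓ M')) g m B b
    ((hN.inf u1).inf (m1.inf n1)) (hG hg) hm (hc g hg) hb
  have b1 : φ ∈ U := by simpa using U.mul_mem (U.pow_mem hg i) (u2 a5.1.2)
  refine ⟨V, ϖ, φ, a1, a2, a3, fun W hW τ hτ => ⟨(a4 W hW hτ).1.1, u2 (a4 W hW hτ).1.2⟩,
    ((hFRK V ϖ a1.pp.1 a1.ov).2.2.2 φ a1.fr).2.2.2.2.1 U hU b1 fun τ hτ => u2 (a4 V rfl hτ).1.2,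
    fun k => e ?_, fun k => e' ?_⟩
  · rw [← m2 _ (U.pow_mem b1 j) g hg a6.2.1, pow_CREC ha b1]
    exact T.nsmul_mem k j
  · rw [← n2 _ (U.pow_mem b1 j) g hg a6.2.2, pow_CREC ha' b1]
    exact T'.nsmul_mem k j

end Pool.Agent.MP_e23604_nt.W

end

section

set_option autoImplicit false

open Finset
open scoped Classical

namespace Pool.Agent.MP_e23604_nt.W

open B R S
open MP_3e91a1_nt (Step IsN Loc Nm Nrm Pl Ind)

theorem ADM_pf : ADM_st := by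
  intro N H f h0
  have : NeZero N := ⟨h0⟩
  refine ⟨fun ⟨⟨M, hM, h1, h2⟩, h3⟩ => ?_, ⟨fun ⟨b, h1, h2⟩ => ?_, fun h => ?_⟩,
    fun s x hx hf hs hl => ?_⟩
  · obtain ⟨M', hM', h4⟩ := exists_ON_fix {zt N}
    refine ⟨M ⊓ M', hM.inf hM', fun g hg h hh k hk => ?_, fun g hg a ha b hb e => ?_,
      fun g hg a ha b hb e => ?_, fun g _ h _ => ⟨pow_ne_zero _ (zt_ne h0), fun u hu => ?_⟩⟩
    · simp only
      rw [act_zt h0, ← zt_add h0, ← zt_add h0]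
      congr 2
      linear_combination -h3 g hg h hh k hk
    · simp only [h1 g hg a ha b hb e.1]
    · have := h2 g hg a ha b hb e.1
      simp only at this ⊢
      rw [this]
    · rw [map_pow, h4 _ (mem_singleton_self _) u hu.2]
  · refine cob_of_lc (β := fun g => zt N ^ (b g).val) (h1.map fun a => zt N ^ a.val)
      (fun g _ => pow_ne_zero _ (zt_ne h0)) fun g hg h hh => ?_
    simp only
    rw [act_zt h0, ← zt_add h0, ← zt_add h0]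
    congr 2
    linear_combination -h2 g hg h hh
  · obtain ⟨β, h1, h2, h3⟩ := R.H90_ok.2 H _ N h0 h fun g _ h _ => zt_val_pow h0 _
    refine ⟨fun g => lz N (β g), h1.map _, fun g hg h hh => ?_⟩
    have e := congrArg (lz N) (h3 g hg h hh)
    rw [lz_mul h0 (h2 g hg) (by rw [← map_pow, h2 h hh, map_one]), lz_act h0 g (h2 h hh),
      lz_mul h0 (zt_val_pow h0 _) (h2 _ (mul_mem hg hh)), lz_eq h0 rfl] at e
    linear_combination -e
  · refine cob_of_lc (β := fun g => rt N x ^ (s g).val) (hl.map fun a => rt N x ^ a.val)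
      (fun g _ => pow_ne_zero _ (rt_ne h0 hx)) fun g hg h hh => ?_
    have e : (s g).val + (s h).val = N * car (s g) (s h) + (s (g * h)).val := by
      rw [hs g hg h hh, ZMod.val_add, car, Nat.div_add_mod]
    simp only
    rw [map_pow, km_spec h0 g hx, hf g hg, mul_pow, zt_mul h0, mul_left_comm, ← pow_add, e,
      pow_add, pow_mul (rt N x), rt_pow h0, mul_assoc]

end Pool.Agent.MP_e23604_nt.W

end

section

set_option autoImplicit false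

open Finset
open scoped Classical

namespace Pool.Agent.MP_e23604_nt.W

open B R S
open MP_3e91a1_nt (Step IsN Loc Nm Nrm Pl Ind)

theorem mu_HRCC {R : Type} [CommRing R] {H H' : Subgroup GQ} {θ : GQ → R} (h : Mu H θ)
    (hle : H' ≤ H) : Mu H' θ :=
  ⟨h.1.mono hle, h.2.1, fun g hg k hk => h.2.2 g (hle hg) k (hle hk)⟩

theorem co_HRCC {R : Type} [CommRing R] {H H' : Subgroup GQ} {θ c : GQ → R} (h : Co θ H c)
    (hle : H' ≤ H) : Co θ H' c :=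
  ⟨h.1.mono hle, fun g hg k hk => h.2 g (hle hg) k (hle hk)⟩

theorem RCC_pf (hRCP : RCP_st) (hCUP : CUP_st) (hUNB : UNB_st) (hTAME : TAME_st) (hPLK : PLK_st) (hKM : KM_st) (hLIN : LIN_st) : RCC_st := by
  intro R _ p n j ρ lam c x hp hn hρ hlam hκ hc hx
  have hN : p ^ n ≠ 0 := pow_ne_zero _ hp.ne_zero
  have h0 : ((p ^ n : ℕ) : R) = 0 := by rw [← map_natCast j, ZMod.natCast_self, map_zero]
  have hC := fun W : Plc => hCUP R (cj j) ρ lam c x W.D (mu_HRCC hρ W.D_le) (mu_HRCC hlam W.D_le)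
    (fun g hg => (hκ g (W.D_le hg)).symm) (co_HRCC hc W.D_le) (co_HRCC hx W.D_le)
  have hM : ∀ W : Plc, Mu W.D (cj j) := fun W =>
    ⟨(cy_lc _ _).map j, by rw [cj, cy_one hN, map_one],
      fun g _ k _ => by rw [cj, cj, cj, cy_mul hN, map_mul]⟩
  have key : ∀ (Q : Finset Zw) (V : Zw → Plc) (φ τ : Zw → GQ) (u : Zw → ZMod (p ^ n)),
      (∀ ϖ ∈ Q, Sp (p ^ n) (V ϖ) ϖ (φ ϖ) ∧ τ ϖ ∈ (V ϖ).I ∧ u ϖ * km (p ^ n) (τ ϖ) (V ϖ).l = 1 ∧
        ∀ g ∈ (V ϖ).D, ρ g = 1 ∧ lam g = 1) →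
      (∀ W : Plc, (∀ ϖ ∈ Q, ¬ Ov W ϖ) → Bo ρ W.D c ∨ Bo lam W.D x ∨
        ∀ g ∈ W.I, ρ g = 1 ∧ lam g = 1 ∧ c g = 0 ∧ x g = 0) →
      4 * ∑ ϖ ∈ Q, j (u ϖ) * (c (τ ϖ) * x (φ ϖ) - c (φ ϖ) * x (τ ϖ)) = 0 := by
    intro Q V φ τ u hQ hW
    rw [← hRCP R p n j (cup lam c x) Q V φ τ u (fun _ => cup lam c x) hp hn
      (hCUP R (cj j) ρ lam c x GK hρ hlam (fun g hg => (hκ g hg).symm) hc hx).1
      (fun ϖ h => ⟨(hQ ϖ h).1, (hQ ϖ h).2.1, (hQ ϖ h).2.2.1, (hC _).2.2.2 (hQ ϖ h).2.2.2,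
        fun _ => 0, Lc.const _ _, fun g _ k _ => by simp⟩) fun W h => ?_]
    · refine congrArg _ (sum_congr rfl fun ϖ h => ?_)
      rw [cup, cup, ((hQ ϖ h).2.2.2 _ ((V ϖ).I_le (hQ ϖ h).2.1)).2,
        ((hQ ϖ h).2.2.2 _ (hQ ϖ h).1.fr.1).2, mul_one, mul_one]
    · rcases hW W h with h1 | h1 | h1
      · exact (hC W).2.1 (Or.inl h1)
      · exact (hC W).2.1 (Or.inr h1)
      · exact hUNB R (p ^ n) (cj j) W _ hN h0 (hM W)
          (fun τ hτ => by rw [← hκ τ (W.D_le (W.I_le hτ)), (h1 τ hτ).1, (h1 τ hτ).2.1, mul_one])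
          (hC W).1 ((hC W).2.2.1 W.I W.I_le fun τ hτ => (h1 τ hτ).2)
  refine ⟨key, fun V ϖ φ h1 h2 h3 h4 h5 h6 h7 τ hτ => ?_⟩
  have a1 : V.l % 3 = 1 ∧ nn ϖ = V.l := by
    rcases (hPLK.2.2.1 V ϖ h1.1 h3).2.2.1 with a | a | a
    · exact ⟨a.1, a.2.1⟩
    · rw [a.2] at h2
      exact absurd h2.eq_one_of_pow (by norm_num)
    · exact absurd (pw_dvd_iff.2 (a.2 ▸ dvd_rfl)) h1.2.pw
  have a2 : V.l ≠ 3 := fun e => by
    have := a1.1
    rw [e] at this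
    omega
  have a3 : p ^ n ∣ V.l - 1 := by
    have b := ((hKM (p ^ n) hN).2.2.2.2.2.2.2.2 V fun e =>
      h5 ((Nat.prime_dvd_prime_iff_eq V.hl.out hp).1 (V.hl.out.dvd_of_dvd_pow e))).2.2 ϖ φ h4
    rw [(h6 φ h4.1).2.2, a1.2, ← Nat.cast_one, ZMod.natCast_eq_natCast_iff] at b
    exact (Nat.modEq_iff_dvd' V.hl.out.one_le).1 b
  obtain ⟨-, ⟨τ₁, t1, t2⟩, -, -, -, hT⟩ := hTAME p n V hp h5 a2
  have b1 := key {ϖ} (fun _ => V) (fun _ => φ) (fun _ => τ₁) (fun _ => 1)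
    (fun ϖ' h => by
      rw [mem_singleton.1 h]
      exact ⟨⟨h1, h3, a1.2, a3, h4⟩, t1, by rw [t2, mul_one],
        fun g hg => ⟨(h6 g hg).1, (h6 g hg).2.1⟩⟩)
    fun W h => h7 W (h ϖ (mem_singleton_self ϖ))
  rw [sum_singleton, map_one, one_mul] at b1
  have hle : V.I ≤ GK := V.I_le.trans V.D_le
  have b2 := hT R c (fun g hg k hk => by
    rw [hc.2 g (hle hg) k (hle hk), (h6 g (V.I_le hg)).1, one_mul]) (hc.1.mono hle)
    (fun u _ => by rw [nsmul_eq_mul, h0, zero_mul]) τ₁ t1 t2 τ hτ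
  have b3 := hT R x (fun g hg k hk => by
    rw [hx.2 g (hle hg) k (hle hk), (h6 g (V.I_le hg)).2.1, one_mul]) (hx.1.mono hle)
    (fun u _ => by rw [nsmul_eq_mul, h0, zero_mul]) τ₁ t1 t2 τ hτ
  rw [b2, b3, nsmul_eq_mul, nsmul_eq_mul]
  linear_combination ((km (p ^ n) τ V.l).val : R) * b1

end Pool.Agent.MP_e23604_nt.W

end

section

set_option autoImplicit false

open Finset
open scoped Classical

namespace Pool.Agent.MP_e23604_nt.W

open B R S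
open MP_3e91a1_nt (Step IsN Loc Nm Nrm Pl Ind)

theorem val_HNLa (hPLK : PLK_st) {V : Plc} {ϖ : Zw} (hp : PP ϖ) (ho : Ov V ϖ) (s : Multiset Zw)
    (hs : ∀ x ∈ s, PP x) : V.v (io s.prod) = V.v (io ϖ) ^ s.count ϖ := by
  induction s using Multiset.induction_on with
  | empty => simp
  | cons x s ih =>
    rw [Multiset.prod_cons, map_mul, map_mul, ih fun y hy => hs y (Multiset.mem_cons_of_mem hy)]
    by_cases e : ϖ = x
    · rw [← e, Multiset.count_cons_self, pow_succ']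
    · rw [Multiset.count_cons_of_ne e, not_Ov.1 fun h => e (hPLK.2.2.2.2.2.2.2.1 ϖ x hp
        (hs x (Multiset.mem_cons_self _ _)) (((hPLK.2.2.1 V ϖ hp.1 ho).1 x).1 h)), one_mul]

theorem pr_HNLa (s : Multiset Zw) (hs : ∀ x ∈ s, Pry x ∧ nn x % 9 = 1) :
    Pry s.prod ∧ nn s.prod % 9 = 1 := by
  induction s using Multiset.induction_on with
  | empty => exact ⟨Pry.one, by rw [Multiset.prod_zero, nn_one]⟩
  | cons x s ih =>
    have h1 := ih fun y hy => hs y (Multiset.mem_cons_of_mem hy)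
    have h2 := hs x (Multiset.mem_cons_self _ _)
    rw [Multiset.prod_cons]
    exact ⟨h2.1.mul h1.1, by rw [nn_mul, Nat.mul_mod, h1.2, h2.2]⟩

theorem NLa_pf (hPLK : PLK_st) : NLa_st := by
  intro a ha hf hv
  obtain ⟨x, y, hy, e⟩ := (hPLK.2.2.2.2.2.2.1 a hf).1
  have hx : x ≠ 0 := by
    rintro rfl
    simp [e] at ha
  have y0 := io_ne hy
  obtain ⟨u, i, c, hu, hc, e1⟩ := hPLK.2.2.2.2.2.2.2.2.2.2.2 (x * y ^ 2)
    (mul_ne_zero hx (pow_ne_zero 2 hy))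
  obtain ⟨s, hs, rfl⟩ := hPLK.2.2.2.2.2.2.2.2.2.2.1 c hc
  have e2 : a * io y ^ 3 = io (u * pw ^ i * s.prod) := by
    rw [← e1, e, map_mul, map_pow]
    field_simp
  obtain ⟨t, ht⟩ := (s.filter fun z => ¬ nn z % 9 = 1).exists_smul_of_dvd_count (k := 3)
    fun ϖ hϖ => by
      obtain ⟨h1, h2⟩ := Multiset.mem_filter.1 hϖ
      have hp := hs ϖ h1
      obtain ⟨V, ho⟩ := hPLK.2.1 ϖ hp.1
      obtain ⟨k, hk⟩ := hv V ϖ hp ho h2
      obtain ⟨p1, -, -, -, -, -, p2⟩ := hPLK.2.2.1 V ϖ hp.1 ho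
      obtain ⟨j, hj⟩ := p2 _ y0 fun g hg => io_fix hg.2 y
      have h3 := congrArg V.v e2
      have v0 : 0 < V.v (io ϖ) := V.v.pos (io_ne hp.1.ne_zero)
      rw [map_mul, map_pow, hk, hj, map_mul, map_mul, map_mul, map_mul, map_pow, map_pow,
        not_Ov.1 (not_Ov_unit V hu), not_Ov.1 fun h => hp.2.pw
          (hp.1.irreducible.dvd_symm pw_prime.irreducible ((p1 pw).1 h)), val_HNLa hPLK hp ho s hs,
        one_pow, one_mul, one_mul, ← zpow_natCast, ← zpow_natCast, ← zpow_mul,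
        ← zpow_add₀ v0.ne'] at h3
      have h4 := zpow_right_injective₀ v0 (ne_of_lt ho) h3
      rw [Multiset.count_filter_of_pos (p := fun z => ¬ nn z % 9 = 1) h2]
      omega
  have h5 := pr_HNLa (s.filter fun z => nn z % 9 = 1) fun z hz =>
    ⟨(hs z (Multiset.mem_filter.1 hz).1).2, (Multiset.mem_filter.1 hz).2⟩
  have e3 : s.prod = (s.filter fun z => nn z % 9 = 1).prod * t.prod ^ 3 := by
    rw [← Multiset.prod_nsmul, ← ht, ← Multiset.prod_add, Multiset.filter_add_not]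
  have t0 : t.prod ≠ 0 := fun h => hc.ne (by rw [e3, h]; ring)
  refine ⟨u, _, i, io t.prod / io y, hu, h5.1, h5.2, div_ne_zero (io_ne t0) y0,
    fun g hg => by rw [map_div₀, io_fix hg, io_fix hg], ?_⟩
  rw [div_pow, ← mul_div_assoc, eq_div_iff (pow_ne_zero 3 y0), e2, ← map_pow, ← map_mul, mul_assoc,
    mul_assoc, mul_assoc, ← e3]

end Pool.Agent.MP_e23604_nt.W

end

section

set_option autoImplicit false

open Finset
open scoped Classical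

namespace Pool.Agent.MP_e23604_nt.W

open B R S
open MP_3e91a1_nt (Step IsN Loc Nm Nrm Pl Ind)

theorem R2_pf (hR2g : R2g_st) (hR2u : R2u_st) (hUNB : UNB_st) (hLIN : LIN_st) : R2_st := by
  intro k _ _ f b h3 hb hc h1 hu hl
  have : Fact (Nat.Prime 3) := ⟨Nat.prime_three⟩
  have h2 : ∀ V : Plc, V.l ≠ 3 → Bo2 (fun _ => 1) V.D f := fun V l3 => by
    by_cases o : Ov V b
    · exact hl V o l3
    · exact hUNB k 3 _ V f three_ne_zero (by exact_mod_cast h3)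
        ⟨Lc.const _ _, rfl, fun _ _ _ _ => (mul_one _).symm⟩ (fun _ _ => rfl)
        ((((hLIN k (fun _ => 1) GK).1 f f 1).2.2.2 _ V.D V.D_le (fun _ _ => rfl)
          fun _ _ _ _ => rfl).1 hc)
        fun g hg h hh => hu V o g (V.D_le hg) h (V.D_le hh)
  have key : ∀ ℓ : k →+ ZMod 3, ∃ β, Lc GK β ∧ Unr b β ∧
      ∀ g ∈ GK, ∀ h ∈ GK, ℓ (f g h) = β h - β (g * h) + β g := fun ℓ => by
    refine hR2u (fun g h => ℓ (f g h)) b hb (hR2g _ ?_ fun V l3 => ?_) (by rw [h1, map_zero])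
      fun V o g hg h hh τ hτ => ⟨congrArg ℓ (hu V o g hg h hh τ hτ).1,
        congrArg ℓ (hu V o g hg h hh τ hτ).2⟩
    · obtain ⟨⟨N, a1, a2, a3⟩, a4⟩ := hc
      refine ⟨⟨N, a1, fun g hg x hx y hy e => congrArg ℓ (a2 g hg x hx y hy e),
        fun g hg x hx y hy e => congrArg ℓ (a3 g hg x hx y hy e)⟩, fun g hg h hh j hj => ?_⟩
      simpa using congrArg ℓ (a4 g hg h hh j hj)
    · obtain ⟨β, a1, a2⟩ := h2 V l3
      exact ⟨fun g => ℓ (β g), a1.map ℓ, fun g hg h hh => by simpa using congrArg ℓ (a2 g hg h hh)⟩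
  let _ : Module (ZMod 3) k := AddCommGroup.zmodModule fun x => by
    rw [nsmul_eq_mul, Nat.cast_ofNat, h3, zero_mul]
  let e := Module.finBasis (ZMod 3) k
  choose β b1 b2 b3 using fun i => key (e.coord i).toAddMonoidHom
  refine ⟨fun g => ∑ i, β i g • e i, lc_sum _ fun i _ => (b1 i).map (· • e i),
    fun V o τ hτ => sum_eq_zero fun i _ => by rw [b2 i V o τ hτ, zero_smul], fun g hg h hh => ?_⟩
  rw [← e.sum_repr (f g h), ← sum_sub_distrib, ← sum_add_distrib]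
  exact sum_congr rfl fun i _ => by
    rw [← sub_smul, ← add_smul, ← b3 i g hg h hh]
    rfl

end Pool.Agent.MP_e23604_nt.W

end

section

set_option autoImplicit false

open Finset
open scoped Classical

namespace Pool.Agent.MP_e23604_nt.W

open B R S
open MP_3e91a1_nt (Step IsN Loc Nm Nrm Pl Ind)

theorem zero_HKGEN {V : Plc} (h3 : ¬ Ov V 3) {b : Zw} (hb : ¬ Ov V b) {τ : GQ} (hτ : τ ∈ V.I) :
    km 3 τ (io b) = 0 :=
  km_ine V (by simpa using v_three h3) hτ.1 (not_Ov.1 hb) (io_fix hτ.2 b)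

theorem two_HKGEN {V : Plc} (h3 : ¬ Ov V 3) {τ : GQ} (hτ : τ ∈ V.I) :
    km 3 τ w3 = 0 ∧ km 3 τ (io pw) = 0 :=
  ⟨io_w ▸ zero_HKGEN h3 (not_Ov_unit V w_unit) hτ, zero_HKGEN h3 (mt Ov_three.2 h3) hτ⟩

theorem add_HKGEN {b : Zw} (hb : b ≠ 0) {g h : GQ} (hg : g ∈ GK) (hh : h ∈ GK) :
    km 3 (g * h) (io b) = km 3 g (io b) + km 3 h (io b) := by
  rw [km_mul three_ne_zero g h (io_ne hb), io_fix hh, (cy_eq_one three_ne_zero).2 hg, one_mul,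
    add_comm]

theorem KGEN_pf (hKUK : KUK_st) (hKG1 : KG1_st) (hTAME : TAME_st) (hPLK : PLK_st) (hKM : KM_st) : KGEN_st := by
  refine ⟨hKG1, fun x₁ x₂ T V τ h1 h2 c1 c2 k2 hT => ?_⟩
  have : Fact (Nat.Prime 3) := ⟨Nat.prime_three⟩
  have k0 := (hKM 3 three_ne_zero).2.2.2.2.2.2.2.1
  have k1 : km 3 x₁ w3 ≠ 0 := mt (k0 x₁ h1).2.2 c1
  have k3 : km 3 x₂ w3 = 0 := (k0 x₂ h2).2.1 c2
  have n3 : ∀ ϖ ∈ T, ¬ Ov (V ϖ) 3 := fun ϖ h e => (Ov_three.1 e).cop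
    (pw_prime.coprime_iff_not_dvd.2 (hT ϖ h).1.2.pw) (hT ϖ h).2.1
  have t1 : ∀ ϖ ∈ T, km 3 (τ ϖ) (io ϖ) ≠ 0 := fun ϖ h => by
    have l3 : (V ϖ).l ≠ 3 := fun e => n3 ϖ h (by simpa [e] using Ov_l (V ϖ))
    have e : km 3 (τ ϖ) (io ϖ) = km 3 (τ ϖ) (V ϖ).l :=
      (hTAME 3 1 (V ϖ) Nat.prime_three l3 l3).2.2.1 ϖ (hT ϖ h).1.1 (hT ϖ h).2.1 _ (hT ϖ h).2.2.1
    exact e ▸ (hT ϖ h).2.2.2
  have t2 : ∀ (u i : ZMod 3) (e : Zw → ZMod 3), ∀ ϖ ∈ T, u * km 3 (τ ϖ) w3 +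
      i * km 3 (τ ϖ) (io pw) + ∑ ϖ' ∈ T, e ϖ' * km 3 (τ ϖ) (io ϖ') = e ϖ * km 3 (τ ϖ) (io ϖ) := by
    intro u i e ϖ h
    obtain ⟨p1, p2, p3, -⟩ := hT ϖ h
    rw [(two_HKGEN (n3 ϖ h) p3).1, (two_HKGEN (n3 ϖ h) p3).2, mul_zero, mul_zero, zero_add,
      zero_add, sum_eq_single_of_mem ϖ h fun ϖ' h' ne => ?_]
    rw [zero_HKGEN (n3 ϖ h) (fun o => ne (hPLK.2.2.2.2.2.2.2.1 ϖ ϖ' p1 (hT ϖ' h').1
      (((hPLK.2.2.1 _ ϖ p1.1 p2).1 ϖ').1 o)).symm) p3, mul_zero]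
  refine ⟨fun b a hb ha hl hu a1 a2 a3 => ?_, fun e₁ e₂ e => ?_⟩
  · obtain ⟨u, i, e, he⟩ := hKUK a T ha hl (fun ϖ h => (hT ϖ h).1) fun ϖ p h => by
      obtain ⟨W, hW⟩ := hPLK.2.1 ϖ p.1
      exact ⟨W, hW, hu W fun o => h (hb ϖ p (((hPLK.2.2.1 W ϖ p.1 hW).1 b).1 o))⟩
    have e0 : ∀ g, ∑ ϖ ∈ T, e ϖ * km 3 g (io ϖ) = 0 := fun g => sum_eq_zero fun ϖ h => by
      have := a3 ϖ h
      rw [he _ (hT ϖ h).2.2.1.2, t2 u i e ϖ h] at this
      rw [(mul_eq_zero.1 this).resolve_right (t1 ϖ h), zero_mul]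
    rw [he _ h2, k3, e0, mul_zero, zero_add, add_zero] at a2
    obtain rfl := (mul_eq_zero.1 a2).resolve_right k2
    rw [he _ h1, e0, zero_mul, add_zero, add_zero] at a1
    obtain rfl := (mul_eq_zero.1 a1).resolve_right k1
    intro g hg
    rw [he g hg, e0, zero_mul, zero_mul, add_zero, add_zero]
  · obtain ⟨e', he⟩ : ∃ e' : Zw → ZMod 3, ∀ ϖ ∈ T, e' ϖ * km 3 (τ ϖ) (io ϖ) = e ϖ :=
      ⟨fun ϖ => e ϖ / km 3 (τ ϖ) (io ϖ), fun ϖ h => div_mul_cancel₀ _ (t1 ϖ h)⟩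
    obtain ⟨i, hi⟩ : ∃ i, i * km 3 x₂ (io pw) = e₂ - ∑ ϖ ∈ T, e' ϖ * km 3 x₂ (io ϖ) :=
      ⟨_, div_mul_cancel₀ _ k2⟩
    obtain ⟨u, hu⟩ : ∃ u, u * km 3 x₁ w3 =
        e₁ - ∑ ϖ ∈ T, e' ϖ * km 3 x₁ (io ϖ) - i * km 3 x₁ (io pw) := ⟨_, div_mul_cancel₀ _ k1⟩
    refine ⟨fun g => u * km 3 g w3 + i * km 3 g (io pw) + ∑ ϖ ∈ T, e' ϖ * km 3 g (io ϖ),
      fun g hg h hh => ?_, ?_, fun W hW σ hσ => ?_, by linear_combination hu,
      by linear_combination hi + u * k3, fun ϖ h => (t2 u i e' ϖ h).trans (he ϖ h)⟩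
    · have a1 := add_HKGEN w_unit.ne_zero hg hh
      rw [io_w] at a1
      beta_reduce
      rw [a1, add_HKGEN pw_ne hg hh, sum_congr rfl fun ϖ h' => by
        rw [add_HKGEN (hT ϖ h').1.1.ne_zero hg hh, mul_add], sum_add_distrib]
      ring
    · exact ((km_lc 3 GK _).map₂ (km_lc 3 GK _) fun x y => u * x + i * y).map₂
        (lc_sum T fun ϖ _ => (km_lc 3 GK _).map (e' ϖ * ·)) (· + ·)
    · rw [Ov_mul, not_or] at hW
      beta_reduce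
      rw [(two_HKGEN hW.1 hσ).1, (two_HKGEN hW.1 hσ).2, mul_zero, mul_zero, zero_add, zero_add]
      exact sum_eq_zero fun ϖ h => by
        rw [zero_HKGEN hW.1 (fun o => hW.2 (o.dvd (dvd_prod_of_mem _ h))) hσ, mul_zero]

end Pool.Agent.MP_e23604_nt.W

end

section

set_option autoImplicit false

open Finset
open scoped Classical

namespace Pool.Agent.MP_e23604_nt.W

open B R S
open MP_3e91a1_nt (Step IsN Loc Nm Nrm Pl Ind)

theorem one_HNDG : ∀ x : ZMod 3, x ≠ 0 → x = 1 ∨ x + x = 1 := by decide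

theorem NDG_pf (hADM : ADM_st) (hLIN : LIN_st) : NDG_st := by
  intro V φ ha hl ⟨g₀, hg, h0⟩
  have : Fact (Nat.Prime 3) := ⟨Nat.prime_three⟩
  obtain ⟨H, hH⟩ := Lib.KER 3 V.D φ ha
  obtain ⟨s, hs, s1⟩ : ∃ s ∈ V.D, φ s = 1 := by
    rcases one_HNDG _ h0 with h | h
    · exact ⟨g₀, hg, h⟩
    · exact ⟨g₀ * g₀, V.D.mul_mem hg hg, (ha _ hg _ hg).trans h⟩
  obtain ⟨u, u0, u1, u2⟩ := (Lib.L1 3 V.l V.γ H V.D φ s (by decide)
    ⟨inf_le_left, GK, GK_on, le_rfl⟩ hl ⟨ha, hH, hs, s1⟩).2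
  refine ⟨u, u0, u1, fun ⟨b, b1, b2⟩ => u2 ?_⟩
  have hc : ∀ g ∈ V.D, cy 3 g = 1 := fun g hg => (cy_eq_one three_ne_zero).2 (V.D_le hg)
  have h1 : Bo2 (cy 3) V.D fun g h => km 3 g u * φ h := by
    refine ⟨fun g => -(φ g * km 3 g u) - b g,
      (hl.map₂ (km_lc 3 V.D u) fun x y => -(x * y)).map₂ b1 (· - ·), fun g hg h hh => ?_⟩
    have e := b2 g hg h hh
    simp only [km_mul three_ne_zero g h u0, u1 h hh, hc g hg, ha g hg h hh] at e ⊢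
    linear_combination -e
  obtain ⟨-, a1, a2⟩ := hADM 3 V.D (fun g h => km 3 g u * φ h) three_ne_zero
  exact (R.NRM_ok 3 H V.D φ s (by decide) ha hH hs s1).2 u
    (div_CREC (a1.1 h1) (a2 φ u u0 u1 ha hl) fun g j => pow_ne_zero _ (zt_ne three_ne_zero))

end Pool.Agent.MP_e23604_nt.W

end
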