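import Pool.Agent.Mg.Fe23604m.G0fbe18
import Pool.Agent.MP_e23604_nt.S.Res
import Pool.Agent.Mg.Fe23604m.G0a5d16
import Pool.Agent.MP_e23604_nt.Curve

set_option linter.all false

section

/-!
Selmer structures on modules with complex multiplication by the cube roots of unity.
-/

set_option autoImplicit false

open Module Filter Topology Finset
open scoped Classical

namespace Pool.Agent.MP_e23604_nt.S

open B R
open Q (Wn)

export R (dd)

/-! ### Cocycles with values in a group of order three -/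

/-- cocycles on `H` for the trivial or the cyclotomic action -/
def Tc (b : Bool) (H : Subgroup GQ) (f : GQ → ZMod 3) : Prop :=
  ∀ g ∈ H, ∀ h ∈ H, f (g * h) = f g + sg b g * f h

/-- locally constant cocycles -/
def Tl (b : Bool) (H : Subgroup GQ) (f : GQ → ZMod 3) : Prop := Tc b H f ∧ Lc H f

/-- `f` vanishes on the part of `H` that fixes the cube roots of unity -/
def Tv (H : Subgroup GQ) (f : GQ → ZMod 3) : Prop := ∀ g ∈ H, g ∈ GK → f g = 0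

/-- `f` vanishes on the inertia group -/
def Ur {α : Type} [Zero α] (l : ℕ) [Fact l.Prime] (f : GQ → α) : Prop := ∀ τ ∈ Ine l 1, f τ = 0

/-- the primes at which a global cocycle can ramify -/
def Ad (b : Bool) (l : ℕ) : Prop := b = true ∨ l % 3 ≠ 2

/-- `l` is a cube in the `q`-adic field -/
def Sk (l q : ℕ) : Prop := if q = 3 then l % 9 = 1 ∨ l % 9 = 8 else Cub q l

/-- the basic class at `l` is trivial at `q` -/
def Sy (b : Bool) (l q : ℕ) : Prop := if b then Sk l q else Sk q l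

/-- the primes that the auxiliary primes separate -/
def Ia (b : Bool) (n l₀ : ℕ) : Finset ℕ :=
  if b then n.primeFactors.erase l₀ else n.primeFactors.filter (· % 3 = 1)

/-- the number of prime factors that are inert in the third cyclotomic field -/
def d2 (n : ℕ) : ℕ := (n.primeFactors.filter (· % 3 = 2)).card

/-- a basis of the global cocycles -/
structure Bs (b : Bool) (κ : ℕ → GQ → ZMod 3) : Prop where
  coc : ∀ l, l.Prime → Ad b l → Tl b ⊤ (κ l)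
  unr : ∀ l, l.Prime → Ad b l → ∀ (q : ℕ) [Fact q.Prime] (γ : GQ), q ≠ 3 → q ≠ l →
    ∀ τ ∈ Ine q γ, κ l τ = 0
  ram : ∀ (l : ℕ) [Fact l.Prime], l ≠ 3 → Ad b l → ∀ τ ∈ Ine l 1, kum l τ ≠ 0 → κ l τ ≠ 0
  thr : ¬ Tv ⊤ (κ 3)
  gen : ∀ (a : GQ → ZMod 3) (T : Finset ℕ), Tl b ⊤ a → (∀ l ∈ T, l.Prime ∧ l ≠ 3 ∧ Ad b l) →
    (∀ (l : ℕ) [Fact l.Prime], l ≠ 3 → Ad b l → l ∉ T → Ur l a) →
    ∃ u : ℕ → ZMod 3, ∀ g ∈ GK, a g = ∑ l ∈ insert 3 T, u l * κ l g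
  loc : ∀ (l q : ℕ) [Fact q.Prime], l.Prime → Ad b l → l ≠ q →
    (Tv (Dec (nv q 1)) (κ l) ↔ Sy b l q)
  lo3 : ∀ (a : GQ → ZMod 3) (l : ℕ), Tl b (Dec (nv 3 1)) a → l.Prime → l ≠ 3 → Ad b l →
    ¬ Sy b l 3 → ∃ s t : ZMod 3, Tv (Dec (nv 3 1)) fun g => a g - (s * κ 3 g + t * κ l g)

section defs

variable {A : Type} [AddCommGroup A]

/-- multiplication by a square root of `-3` -/
def wo (J : A ≃ₗ[ℤ] A) : Module.End ℤ A := (J : A →ₗ[ℤ] A) - (J : A →ₗ[ℤ] A) ∘ₗ (J : A →ₗ[ℤ] A)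

/-- the twist by the quadratic character of the third cyclotomic field -/
noncomputable def tw (η : Act A) : Act A where
  toFun g := (if g ∈ GK then 1 else LinearEquiv.neg ℤ) * η g
  map_one' := by rw [if_pos GK.one_mem, map_one, mul_one]
  map_mul' g h := by
    ext u
    by_cases hg : g ∈ GK <;> by_cases hh : h ∈ GK
    · simp [hg, hh, GK.mul_mem hg hh]
    · simp [hg, hh, GK.mul_mem_cancel_left hg]
    · simp [hg, hh, GK.mul_mem_cancel_right hh]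
    · simp [hg, hh, GK_mul hg hh]

/-- a cocycle of order three as a function with values in `A` -/
def chT (χ : GQ → ZMod 3) (T : A) : GQ → A := fun g => (χ g).val • T

/-- the coordinate of a multiple of `T` -/
noncomputable def dg (T x : A) : ZMod 3 := if x = 0 then 0 else if x = T then 1 else 2

/-- the action on `T` -/
def Ty (η : Act A) (T : A) (b : Bool) : Prop := ∀ g, η g T = (sg b g).val • T

/-- unramified outside `3`, `n` and `Q` -/
def UnrO {α : Type} [Zero α] (n : ℕ) (Q : Finset ℕ) (ξ : GQ → α) : Prop :=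
  ∀ (l : ℕ) [Fact l.Prime] (γ : GQ), l ≠ 3 → ¬ l ∣ n → l ∉ Q → ∀ τ ∈ Ine l γ, ξ τ = 0

/-- coboundaries of points of finite level -/
def Cb (η : Act A) : AddSubgroup (GQ → A) where
  carrier := {ξ | ∃ T, (∃ k : ℕ, 3 ^ k • T = 0) ∧ ξ = dd η T}
  zero_mem' := ⟨0, ⟨0, by simp⟩, funext fun _ => by simp [dd]⟩
  add_mem' := by
    rintro _ _ ⟨T, ⟨k, h⟩, rfl⟩ ⟨T', ⟨k', h'⟩, rfl⟩
    refine ⟨T + T', ⟨k + k', ?_⟩, funext fun g => by simp only [Pi.add_apply, dd, map_add]; abel⟩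
    rw [smul_add, pow_add, mul_smul, mul_smul, h', smul_comm, h]
    simp
  neg_mem' := by
    rintro _ ⟨T, ⟨k, h⟩, rfl⟩
    exact ⟨-T, ⟨k, by rw [smul_neg, h, neg_zero]⟩, funext fun g => by
      simp only [Pi.neg_apply, dd, map_neg]; abel⟩

/-- `ℓ` independent local classes at three come from points -/
def Ind (η : Act A) (T : A) (ℓ : ℕ) : Prop :=
  ∃ a : Fin ℓ → GQ → ZMod 3, (∀ i, InL η (Dec (nv 3 1)) (chT (a i) T)) ∧
    ∀ c : Fin ℓ → ZMod 3, (Tv (Dec (nv 3 1)) fun g => ∑ i, c i * a i g) → c = 0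

/-- the local condition at three has index at most `3 ^ (2 - ℓ)` -/
def Cov (η : Act A) (T : A) (b : Bool) (ℓ : ℕ) : Prop :=
  ∃ (N : ℕ) (f : (GQ → ZMod 3) → Fin N), N * 3 ^ ℓ ≤ 9 ∧ ∀ a a', Tl b (Dec (nv 3 1)) a →
    Tl b (Dec (nv 3 1)) a' → f a = f a' → InL η (Dec (nv 3 1)) (chT (a - a') T)

/-- points that come from the cubic `x ^ 3 + y ^ 3 = D` -/
structure Fer (η : Act A) (T : A) (D : ℕ) (F : Qb → Qb → A) : Prop where
  gal : ∀ (g : GQ) (x y : Qb), x ^ 3 + y ^ 3 = D → η g (F x y) = F (g x) (g y)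
  rot : ∀ x y : Qb, x ^ 3 + y ^ 3 = D → F (w3 * x) (w3 ^ 2 * y) = F x y + T
  neg : ∀ x y : Qb, x ^ 3 + y ^ 3 = D → F y x = -F x y

variable (J : A ≃ₗ[ℤ] A)

/-- divisible modules over the Eisenstein integers of corank one -/
structure Cm3 : Prop where
  sq : ∀ u, J (J u) + J u + u = 0
  one : ∀ T ∈ Wn J 1, T ≠ 0 → ∀ u ∈ Wn J 1, u = 0 ∨ u = T ∨ u = -T
  surj : Function.Surjective (wo J)
  ex : ∃ u ∈ Wn J 1, u ≠ 0

/-- the Selmer group relaxed at `Q` -/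
def Sq (η : Act A) (n : ℕ) (Q : Finset ℕ) (m : ℕ) : AddSubgroup (GQ → A) where
  carrier := {ξ | Zc J η m ξ ∧ UnrO n Q ξ ∧ InL η (Dec (nv 3 1)) ξ ∧
    ∀ (l : ℕ) [Fact l.Prime], l ∣ n → InL η (Dec (nv l 1)) ξ}
  zero_mem' := ⟨Zc.zero η m, fun _ _ _ _ _ _ _ _ => rfl, InL.zero _ _, fun _ _ _ => InL.zero _ _⟩
  add_mem' := by
    rintro a b ⟨a1, a2, a3, a5⟩ ⟨b1, b2, b3, b5⟩
    exact ⟨a1.add b1, fun l _ γ h1 h2 h3 τ hτ => by
      rw [Pi.add_apply, a2 l γ h1 h2 h3 τ hτ, b2 l γ h1 h2 h3 τ hτ, add_zero],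
      a3.add b3, fun l _ h => (a5 l h).add (b5 l h)⟩
  neg_mem' := by
    rintro a ⟨a1, a2, a3, a5⟩
    exact ⟨a1.neg, fun l _ γ h1 h2 h3 τ hτ => by rw [Pi.neg_apply, a2 l γ h1 h2 h3 τ hτ, neg_zero],
      a3.neg, fun l _ h => (a5 l h).neg⟩

/-- Galois modules with good reduction outside `3 n` -/
structure Ga (n : ℕ) (η : Act A) : Prop where
  opn : ∀ u, Lc ⊤ fun g => η g u
  lin : ∀ g ∈ GK, ∀ u, η g (J u) = J (η g u)
  ant : ∀ g ∉ GK, ∀ u, η g (J u) = J (J (η g u))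
  fix : ∀ g ∈ GK, ∀ u ∈ Wn J 1, η g u = u
  unr : ∀ (l : ℕ) [Fact l.Prime] (γ : GQ), l ≠ 3 → ¬ l ∣ n → ∀ τ ∈ Ine l γ, ∀ R k,
    η τ R - R ∈ Wn J k → η τ R = R
  tam : ∀ (l : ℕ) [Fact l.Prime], l ∣ n → ∃ τ ∈ Ine l 1, kum l τ ≠ 0 ∧ ∀ k, ∀ u ∈ Wn J k,
    η τ u = J u

/-- one module -/
structure P1 (η : Act A) (n : ℕ) (T : A) (b : Bool) : Prop where
  cm : Cm3 J
  t0 : T ∈ Wn J 1 ∧ T ≠ 0
  ty : Ty η T b
  n3 : ¬ 3 ∣ n
  sf : Squarefree n
  g3 : ∃ l ∈ n.primeFactors, ¬ Cub l 3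
  g9 : ∃ l ∈ n.primeFactors, ¬ (l % 9 = 1 ∨ l % 9 = 8)
  ga : Ga J n η
  wp : ∀ K, ∃ e, Wp η (3 ^ K) e
  wq : ∀ K, ∃ e, Wp (tw η) (3 ^ K) e

/-- auxiliary primes -/
structure Qs (η : Act A) (n K : ℕ) (ζ : Qb) (l₀ : ℕ) (Q : Finset ℕ) (φ τ : ℕ → GQ) : Prop where
  one : 1 ≤ K
  zeta : IsPrimitiveRoot ζ (3 ^ (K + 1))
  base : l₀ ∈ n.primeFactors
  pri : ∀ q ∈ Q, q.Prime ∧ q % 9 = 1 ∧ ¬ q ∣ n ∧ Cub q 3
  tq : ∀ (q : ℕ) [Fact q.Prime], q ∈ Q → TQ (3 ^ (K + 1)) ζ q 1 (φ q) (τ q)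
  gk : ∀ (q : ℕ) [Fact q.Prime], q ∈ Q → Dec (nv q 1) ≤ GK
  triv : ∀ (q : ℕ) [Fact q.Prime], q ∈ Q → ∀ g ∈ Dec (nv q 1), ∀ u ∈ Wn J (2 * K + 1), η g u = u
  sep : ∀ b, ∀ l ∈ Ia b n l₀, ∃ q ∈ Q, ¬ Sy b l q ∧ ∀ l' ∈ Ia b n l₀, l' ≠ l → Sy b l' q

/-- a chain of subgroups -/
structure Ch {ι : Type} [Fintype ι] (V : ℕ → ℕ → AddSubgroup (ι → A × A)) (ℓ : ℕ → ℕ) (c M : ℕ) :
    Prop where
  cm : Cm3 J
  le : ∀ j m, V j m ≤ Hm J ι m
  mono : ∀ j m, V j m ≤ V j (m + 1)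
  map : ∀ j m, ∀ y ∈ V j (m + 1), onP (wo J) y ∈ V (j + 1) m
  lift : ∀ j m, m + 1 ≤ M → ∀ x ∈ V (j + 1) m, ∃ y ∈ V j (m + 1), onP (wo J) y = x
  low : ∀ j, 3 ^ (Fintype.card ι + ℓ j) ≤ 3 ^ c * Nat.card (V j 1)
  sum : ∀ j, ℓ j + ℓ (j + 1) = 2 * c

/-- the Selmer group has bounded exponent -/
def Bex (η : Act A) (n : ℕ) : Prop :=
  ∃ k₀ : ℕ, ∀ k, ∀ ξ ∈ Sq J η n ∅ (2 * k), 3 ^ k₀ • ξ ∈ Cb η

/-- the order of the Selmer group -/
noncomputable def Nk (η : Act A) (n k : ℕ) : ℕ := (Cb η).relIndex (Sq J η n ∅ (2 * k))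

end defs

/-! ### Elementary lemmas: cocycles of order three -/

theorem Ine_GK {l : ℕ} [hl : Fact l.Prime] (γ : GQ) (h3 : l ≠ 3) : Ine l γ ≤ GK := by
  intro τ hτ
  by_contra h
  have h1 : nv l γ w3 = 1 := by
    have := congrArg (nv l γ) w3_cube
    rw [map_pow, map_one] at this
    exact (pow_eq_one_iff_of_nonneg ((nv l γ).nonneg _) three_ne_zero).1 this
  have h2 := hτ w3 h1.le
  rw [not_mem_GK h] at h2
  have h4 : nv l γ 3 = 1 := by
    have := v_coprime (nv_na l γ) hl.out (nv_lt l γ) (n := 3) fun e =>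
      h3 ((Nat.prime_dvd_prime_iff_eq hl.out Nat.prime_three).1 (by exact_mod_cast e))
    simpa using this
  have h5 : nv l γ (w3 ^ 2 - w3) ^ 2 = 1 := by
    rw [← map_pow, show (w3 ^ 2 - w3) ^ 2 = -3 by
      linear_combination (w3 ^ 2 - 3 * w3 + 3) * w3_spec, AbsoluteValue.map_neg, h4]
  nlinarith [(nv l γ).nonneg (w3 ^ 2 - w3)]

theorem sg_sq (b : Bool) (g : GQ) : sg b g * sg b g = 1 := by
  cases b
  · exact mul_one _
  · rw [sg_true, ep]
    split_ifs <;> simp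

theorem sg_not (b : Bool) (g : GQ) : sg (!b) g = ep g * sg b g := by
  cases b
  · exact (mul_one _).symm
  · exact (sg_sq true g).symm

theorem tc_false {H : Subgroup GQ} {f : GQ → ZMod 3} : Tc false H f ↔ Adt H f := by
  simp only [Tc, Adt, sg_false, one_mul]

theorem tc_true {H : Subgroup GQ} {f : GQ → ZMod 3} : Tc true H f ↔ Tdt H f := Iff.rfl

theorem tc_gk {b : Bool} {H : Subgroup GQ} {f : GQ → ZMod 3} (hH : H ≤ GK) :
    Tc b H f ↔ Adt H f :=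
  forall₂_congr fun g hg => by simp only [sg_pos b (hH hg), one_mul]

theorem Tc.one {b : Bool} {H : Subgroup GQ} {f : GQ → ZMod 3} (h : Tc b H f) : f 1 = 0 := by
  have := h 1 H.one_mem 1 H.one_mem
  rw [mul_one, sg_pos b GK.one_mem, one_mul] at this
  exact left_eq_add.1 this

theorem Tc.inv {b : Bool} {H : Subgroup GQ} {f : GQ → ZMod 3} (h : Tc b H f) {g : GQ}
    (hg : g ∈ H) : f g⁻¹ = -(sg b g * f g) := by
  have := h g hg g⁻¹ (H.inv_mem hg)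
  rw [mul_inv_cancel, h.one] at this
  linear_combination -sg b g * this - f g⁻¹ * sg_sq b g

theorem Tc.conj {b : Bool} {H : Subgroup GQ} {f : GQ → ZMod 3} (h : Tc b H f) {g j : GQ}
    (hg : g ∈ H) (hk : g ∈ GK) (hj : j ∈ H) : f (j * g * j⁻¹) = sg b j * f g := by
  rw [h _ (H.mul_mem hj hg) _ (H.inv_mem hj), h j hj g hg, h.inv hj, sg_mul, sg_pos b hk]
  linear_combination -f j * sg_sq b j

/-- a cocycle of order three is determined by its restriction to the subgroup of index two -/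
theorem Tc.res {b : Bool} {H : Subgroup GQ} {a : GQ → ZMod 3} (h1 : Tc b H a) (h2 : Tv H a) :
    ∃ t : ZMod 3, ∀ g ∈ H, a g = sg b g * t - t := by
  by_cases e : ∃ c ∈ H, c ∉ GK
  · obtain ⟨c, hc, hk⟩ := e
    have e1 : ∀ g ∈ H, g ∉ GK → a c + sg b c * a g = 0 := fun g hg h' => by
      rw [← h1 c hc g hg, h2 _ (H.mul_mem hc hg) (GK_mul hk h')]
    refine ⟨a c, fun g hg => ?_⟩
    by_cases h' : g ∈ GK
    · rw [h2 g hg h', sg_pos b h', one_mul, sub_self]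
    · have e2 := e1 g hg h'
      have e3 := e1 c hc hk
      have e4 : (3 : ZMod 3) = 0 := rfl
      cases b
      · rw [sg_false] at e2 e3 ⊢
        linear_combination e2 + e3 - a c * e4
      · rw [sg_true, ep_neg hk] at e2
        rw [sg_true, ep_neg h']
        linear_combination -e2 + a c * e4
  · push Not at e
    exact ⟨0, fun g hg => by rw [h2 g hg (e g hg), mul_zero, sub_zero]⟩

section

variable {b : Bool} {H H' : Subgroup GQ} {f f' : GQ → ZMod 3}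

theorem Tl.mono (h : Tl b H f) (h' : H' ≤ H) : Tl b H' f :=
  ⟨fun g hg j hj => h.1 g (h' hg) j (h' hj), h.2.mono h'⟩

theorem Tl.zero (b : Bool) (H : Subgroup GQ) : Tl b H fun _ => 0 :=
  ⟨fun _ _ _ _ => by simp, Lc.const H 0⟩

theorem Tl.add (h : Tl b H f) (h' : Tl b H f') : Tl b H fun g => f g + f' g :=
  ⟨fun g hg j hj => by simp only [h.1 g hg j hj, h'.1 g hg j hj]; ring, h.2.map₂ h'.2 (· + ·)⟩

theorem Tl.mul (h : Tl b H f) (t : ZMod 3) : Tl b H fun g => t * f g :=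
  ⟨fun g hg j hj => by simp only [h.1 g hg j hj]; ring, h.2.map (t * ·)⟩

theorem Tl.neg (h : Tl b H f) : Tl b H fun g => -f g :=
  ⟨fun g hg j hj => by simp only [h.1 g hg j hj]; ring, h.2.map (- ·)⟩

theorem Tl.sub (h : Tl b H f) (h' : Tl b H f') : Tl b H fun g => f g - f' g :=
  ⟨fun g hg j hj => by simp only [h.1 g hg j hj, h'.1 g hg j hj]; ring, h.2.map₂ h'.2 (· - ·)⟩

theorem Tl.sum {ι : Type} (s : Finset ι) {a : ι → GQ → ZMod 3} (h : ∀ i ∈ s, Tl b H (a i)) :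
    Tl b H fun g => ∑ i ∈ s, a i g := by
  induction s using Finset.induction_on with
  | empty => exact Tl.zero b H
  | insert i s hi ih =>
    simp only [sum_insert hi]
    exact (h i (mem_insert_self _ _)).add (ih fun j hj => h j (mem_insert_of_mem hj))

theorem Tl.congr (h : Tl b H f) (e : ∀ g ∈ H, f' g = f g) : Tl b H f' :=
  ⟨fun g hg j hj => by rw [e g hg, e j hj, e _ (H.mul_mem hg hj), h.1 g hg j hj],
    h.2.imp fun _ hN => ⟨hN.1, fun g hg j hj x => by rw [e g hg, e j hj, hN.2 g hg j hj x]⟩⟩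

/-- the kernel of a global cocycle -/
theorem Tl.ker (h : Tl b ⊤ f) : ∃ N, ON N ∧ ∀ g, g ∈ N ↔ g ∈ GK ∧ f g = 0 := by
  let N : Subgroup GQ :=
    { carrier := {g | g ∈ GK ∧ f g = 0}
      one_mem' := ⟨GK.one_mem, h.1.one⟩
      mul_mem' := fun {x y} hx hy => ⟨GK.mul_mem hx.1 hy.1, by
        rw [h.1 x trivial y trivial, hx.2, hy.2, mul_zero, add_zero]⟩
      inv_mem' := fun {x} hx => ⟨GK.inv_mem hx.1, by
        rw [h.1.inv trivial, hx.2, mul_zero, neg_zero]⟩ }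
  obtain ⟨M, hM, hc⟩ := h.2
  refine ⟨N, ⟨⟨fun x hx g => ⟨GK_on.1.conj_mem x hx.1 g, by
    rw [h.1.conj trivial hx.1 trivial, hx.2, mul_zero]⟩⟩,
    Subgroup.isOpen_mono (H₁ := M ⊓ GK) (fun x hx => ⟨hx.2, ?_⟩) (hM.inf GK_on).2⟩,
    fun _ => Iff.rfl⟩
  rw [← h.1.one]
  exact (hc 1 trivial x trivial (by simpa using hx.1)).symm

end

theorem sy_not (b : Bool) (l q : ℕ) : Sy (!b) q l ↔ Sy b l q := by cases b <;> rfl

theorem cub_two {l : ℕ} (hl : l.Prime) (h : l % 3 = 2) (a : ℕ) : Cub l a := by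
  have := Fact.mk hl
  obtain ⟨k, hk⟩ : ∃ k, l = 3 * k + 2 := ⟨l / 3, by omega⟩
  refine ⟨(a : ZMod l) ^ (2 * k + 1), ?_⟩
  have h1 : (a : ZMod l) ^ (3 * k + 2) = a := by rw [← hk, ZMod.pow_card]
  rw [← pow_mul, show (2 * k + 1) * 3 = 3 * k + 2 + (3 * k + 1) by ring, pow_add, h1, ← pow_succ',
    h1]

theorem prime_mod {l : ℕ} (hl : l.Prime) (h : l ≠ 3) : l % 3 = 1 ∨ l % 3 = 2 := by
  have : ¬ 3 ∣ l := fun e => h ((Nat.prime_dvd_prime_iff_eq Nat.prime_three hl).1 e).symm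
  omega

theorem ad_three (b : Bool) : Ad b 3 := Or.inr (by norm_num)

theorem Ia_sub (b : Bool) (n l₀ : ℕ) : Ia b n l₀ ⊆ n.primeFactors := by
  cases b
  exacts [filter_subset _ _, erase_subset _ _]

theorem Ia_ad {b : Bool} {n l₀ l : ℕ} (h : l ∈ Ia b n l₀) : Ad b l := by
  cases b
  · have := (mem_filter.1 h).2
    exact Or.inr (by omega)
  · exact Or.inl rfl

/-! ### Elementary lemmas: modules -/

section lemmas

variable {A : Type} [AddCommGroup A] {J : A ≃ₗ[ℤ] A} {η : Act A}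

theorem wo_apply (J : A ≃ₗ[ℤ] A) (u : A) : wo J u = J u - J (J u) := rfl

theorem tw_pos (η : Act A) {g : GQ} (h : g ∈ GK) (u : A) : tw η g u = η g u := by
  simp [tw, h]

theorem tw_neg (η : Act A) {g : GQ} (h : g ∉ GK) (u : A) : tw η g u = -η g u := by
  simp [tw, h]

theorem tw_tw (η : Act A) : tw (tw η) = η := by
  ext g u
  by_cases h : g ∈ GK
  · rw [tw_pos _ h, tw_pos _ h]
  · rw [tw_neg _ h, tw_neg _ h, neg_neg]

theorem W_zero {u : A} : u ∈ Wn J 0 ↔ u = 0 := by simp [Wn]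

theorem W_succ {n : ℕ} {u : A} : J u - u ∈ Wn J n ↔ u ∈ Wn J (n + 1) := by
  simp only [Wn, LinearMap.mem_ker, pow_succ]
  rfl

theorem W_one {u : A} : u ∈ Wn J 1 ↔ J u = u := by rw [← W_succ, W_zero, sub_eq_zero]

theorem W_J {n : ℕ} {u : A} : J u ∈ Wn J n ↔ u ∈ Wn J n := by
  induction n generalizing u with
  | zero => rw [W_zero, W_zero, J.map_eq_zero_iff]
  | succ n ih => rw [← W_succ, ← W_succ, ← map_sub, ih]

theorem W_om {n : ℕ} {u : A} : wo J u ∈ Wn J n ↔ u ∈ Wn J (n + 1) := by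
  rw [← W_succ, ← W_J (u := J u - u), ← neg_mem_iff, wo_apply, map_sub, neg_sub]

theorem W_mono {a b : ℕ} (hab : a ≤ b) {u : A} (hu : u ∈ Wn J a) : u ∈ Wn J b := by
  induction hab with
  | refl => exact hu
  | step _ ih => exact W_succ.1 (sub_mem (W_J.2 ih) ih)

theorem J_cube (h : Cm3 J) (u : A) : J (J (J u)) = u := by
  have h1 := h.sq u
  have h2 := h.sq (J u)
  linear_combination (norm := abel) h2 - h1

theorem wo_wo (h : Cm3 J) (u : A) : wo J (wo J u) = -(3 • u) := by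
  have h1 := h.sq u
  simp only [wo_apply, map_sub, J_cube h]
  linear_combination (norm := abel) h1

theorem W_pow (h : Cm3 J) (k : ℕ) {n : ℕ} {u : A} : 3 ^ k • u ∈ Wn J n ↔ u ∈ Wn J (n + 2 * k) := by
  induction k generalizing u with
  | zero => simp
  | succ k ih =>
    rw [pow_succ, mul_smul, ih, ← neg_mem_iff, ← wo_wo h, W_om, W_om]
    rfl

theorem W_tor (h : Cm3 J) (k : ℕ) {u : A} : u ∈ Wn J (2 * k) ↔ u ∈ tor A (3 ^ k) := by
  rw [mem_tor, ← W_zero (J := J), W_pow h, zero_add]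

theorem W_kill (h : Cm3 J) {k : ℕ} {u : A} (hu : u ∈ Wn J k) : 3 ^ k • u = 0 :=
  (W_tor h k).1 (W_mono (by omega) hu)

theorem T_three (h : Cm3 J) {u : A} (hu : u ∈ Wn J 1) : 3 • u = 0 := by
  simpa using W_kill h hu

theorem three_surj (h : Cm3 J) (k : ℕ) (u : A) : ∃ v : A, 3 ^ k • v = u := by
  induction k generalizing u with
  | zero => exact ⟨u, by simp⟩
  | succ k ih =>
    obtain ⟨a, rfl⟩ := ih u
    obtain ⟨b, rfl⟩ := h.surj a
    obtain ⟨c, rfl⟩ := h.surj b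
    exact ⟨-c, by rw [wo_wo h, pow_succ, mul_smul, smul_neg 3]⟩

theorem W_ex (h : Cm3 J) (n : ℕ) : ∃ u ∈ Wn J (n + 1), u ∉ Wn J n := by
  induction n with
  | zero => simpa only [W_zero] using h.ex
  | succ n ih =>
    obtain ⟨u, h1, h2⟩ := ih
    obtain ⟨v, rfl⟩ := h.surj u
    exact ⟨v, W_om.1 h1, fun e => h2 (W_om.2 e)⟩

theorem W_three (h : Cm3 J) {n : ℕ} {x u : A} (h1 : x ∈ Wn J (n + 1)) (h2 : x ∉ Wn J n)
    (hu : u ∈ Wn J (n + 1)) : u ∈ Wn J n ∨ u - x ∈ Wn J n ∨ u + x ∈ Wn J n := by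
  induction n generalizing x u with
  | zero =>
    simp only [W_zero, sub_eq_zero, add_eq_zero_iff_eq_neg] at h2 ⊢
    exact h.one x h1 h2 u hu
  | succ n ih =>
    simpa only [← map_sub, ← map_add, W_om] using
      ih (W_om.2 h1) (fun e => h2 (W_om.1 e)) (W_om.2 hu)

theorem val_add (h : Cm3 J) {T : A} (hT : T ∈ Wn J 1) (a b : ZMod 3) :
    (a + b).val • T = a.val • T + b.val • T := by
  rw [ZMod.val_add, ← add_smul]
  conv_rhs => rw [← Nat.mod_add_div (a.val + b.val) 3, add_smul, mul_comm 3, mul_smul,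
    T_three h hT, smul_zero, add_zero]

theorem val_mul (h : Cm3 J) {T : A} (hT : T ∈ Wn J 1) (a b : ZMod 3) :
    (a * b).val • T = a.val • b.val • T := by
  rw [ZMod.val_mul, ← mul_smul]
  conv_rhs => rw [← Nat.mod_add_div (a.val * b.val) 3, add_smul, mul_comm 3, mul_smul,
    T_three h hT, smul_zero, add_zero]

theorem val_neg (h : Cm3 J) {T : A} (hT : T ∈ Wn J 1) (a : ZMod 3) :
    (-a).val • T = -(a.val • T) := by
  rw [eq_neg_iff_add_eq_zero, ← val_add h hT, neg_add_cancel, ZMod.val_zero, zero_smul]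

theorem val_sub (h : Cm3 J) {T : A} (hT : T ∈ Wn J 1) (a b : ZMod 3) :
    (a - b).val • T = a.val • T - b.val • T := by
  rw [sub_eq_add_neg, val_add h hT, val_neg h hT, sub_eq_add_neg]

theorem val_two (h : Cm3 J) {T : A} (hT : T ∈ Wn J 1) : (2 : ZMod 3).val • T = -T := by
  rw [show (2 : ZMod 3) = -1 from rfl, val_neg h hT, ZMod.val_one, one_smul]

theorem val_eq_zero (h : Cm3 J) {T : A} (hT : T ∈ Wn J 1 ∧ T ≠ 0) {a : ZMod 3} :
    a.val • T = 0 ↔ a = 0 := by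
  rcases z3 a with rfl | rfl | rfl
  · simp
  · simp [ZMod.val_one, hT.2]
  · rw [val_two h hT.1, neg_eq_zero]
    exact iff_of_false hT.2 (by decide)

theorem val_inj (h : Cm3 J) {T : A} (hT : T ∈ Wn J 1 ∧ T ≠ 0) {a b : ZMod 3}
    (e : a.val • T = b.val • T) : a = b := by
  rwa [← sub_eq_zero, ← val_sub h hT.1, val_eq_zero h hT, sub_eq_zero] at e

theorem val_dg (h : Cm3 J) {T : A} (hT : T ∈ Wn J 1 ∧ T ≠ 0) {x : A} (hx : x ∈ Wn J 1) :
    (dg T x).val • T = x := by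
  unfold dg
  split_ifs with h1 h2
  · simp [h1]
  · simp [h2, ZMod.val_one]
  · rw [val_two h hT.1]
    exact ((h.one T hT.1 hT.2 x hx).resolve_left h1 |>.resolve_left h2).symm

theorem W_card (h : Cm3 J) (n : ℕ) : Nat.card (Wn J n) = 3 ^ n := by
  obtain ⟨T, hT⟩ := h.ex
  have h1 : Nat.card (Wn J 1) = 3 := by
    rw [← Nat.card_congr (Equiv.ofBijective (fun a : ZMod 3 => (⟨a.val • T, nsmul_mem hT.1 _⟩ :
      Wn J 1)) ⟨fun a b e => val_inj h hT (congrArg Subtype.val e),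
        fun x => ⟨dg T x, Subtype.ext (val_dg h hT x.2)⟩⟩), Nat.card_zmod]
  induction n with
  | zero =>
    have : Wn J 0 = ⊥ := Submodule.ext fun _ => W_zero
    simp [this]
  | succ n ih =>
    let f : Wn J (n + 1) →+ Wn J n := AddMonoidHom.mk'
      (fun u => ⟨wo J u, W_om.2 u.2⟩) fun u v => Subtype.ext (map_add _ _ _)
    have hs : Function.Surjective f := fun y => by
      obtain ⟨v, hv⟩ := h.surj y
      exact ⟨⟨v, W_om.1 (hv ▸ y.2)⟩, Subtype.ext hv⟩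
    have hk : Nat.card f.ker = Nat.card (Wn J 1) := Nat.card_congr
      { toFun := fun u => ⟨u.1.1, W_om.1 (W_zero.2 (congrArg Subtype.val u.2))⟩
        invFun := fun u => ⟨⟨u.1, W_mono (by omega) u.2⟩, Subtype.ext (W_zero.1 (W_om.2 u.2))⟩
        left_inv := fun _ => rfl
        right_inv := fun _ => rfl }
    rw [← AddSubgroup.card_mul_index f.ker, AddSubgroup.index_ker, hk, h1,
      AddMonoidHom.range_eq_top.2 hs, AddSubgroup.card_top, ih, pow_succ']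

theorem W_fin (h : Cm3 J) (n : ℕ) : Finite (Wn J n) :=
  Nat.finite_of_card_ne_zero (by rw [W_card h]; positivity)

theorem wo_tw (h : Cm3 J) {n : ℕ} (hη : Ga J n η) (g : GQ) (u : A) :
    wo J (η g u) = tw η g (wo J u) := by
  by_cases hg : g ∈ GK
  · simp only [tw_pos _ hg, wo_apply, map_sub, hη.lin g hg]
  · simp only [tw_neg _ hg, wo_apply, map_sub, hη.ant g hg, J_cube h, neg_sub]

theorem W_act (h : Cm3 J) {n : ℕ} (hη : Ga J n η) (g : GQ) {m : ℕ} {u : A} :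
    η g u ∈ Wn J m ↔ u ∈ Wn J m := by
  induction m generalizing u with
  | zero => rw [W_zero, W_zero, (η g).map_eq_zero_iff]
  | succ m ih =>
    rw [← W_om, ← W_om, wo_tw h hη, ← ih (u := wo J u)]
    by_cases hg : g ∈ GK
    · rw [tw_pos _ hg]
    · rw [tw_neg _ hg, neg_mem_iff]

theorem W_step (h : Cm3 J) {n : ℕ} (hη : Ga J n η) {g : GQ} (hg : g ∈ GK) {m : ℕ} {u : A}
    (hu : u ∈ Wn J (m + 1)) : η g u - u ∈ Wn J m := by
  induction m generalizing u with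
  | zero => exact W_zero.2 (sub_eq_zero.2 (hη.fix g hg u hu))
  | succ m ih =>
    rw [← W_om, map_sub, wo_tw h hη, tw_pos _ hg]
    exact ih (W_om.2 hu)

theorem T_fix (h : Cm3 J) {T : A} (hT : T ∈ Wn J 1 ∧ T ≠ 0) {a : A ≃ₗ[ℤ] A} (ha : a T = T) {u : A}
    (hu : u ∈ Wn J 1) : a u = u := by
  rw [← val_dg h hT hu, map_nsmul, ha]

theorem W_odd (h : Cm3 J) {T : A} (hT : T ∈ Wn J 1 ∧ T ≠ 0) {a : A ≃ₗ[ℤ] A} (ha : a T = T)
    {K : ℕ} {u : A} (hu : u ∈ Wn J (2 * K + 1)) : a u - u ∈ Wn J (2 * K) := by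
  rw [W_tor h, mem_tor, smul_sub, ← map_nsmul, T_fix h hT ha ((W_pow h K).2 (by rwa [add_comm])),
    sub_self]

theorem Ga.unr' (h : Cm3 J) {n : ℕ} (hη : Ga J n η) {l : ℕ} [Fact l.Prime] {γ : GQ} (h3 : l ≠ 3)
    (hn : ¬ l ∣ n) {τ : GQ} (hτ : τ ∈ Ine l γ) {k : ℕ} {u : A} (hu : u ∈ Wn J k) : η τ u = u :=
  hη.unr l γ h3 hn τ hτ u k (sub_mem ((W_act h hη τ).2 hu) hu)

theorem Ga.tw {n : ℕ} (hη : Ga J n η) (h3 : ¬ 3 ∣ n) : Ga J n (tw η) := by
  refine ⟨fun u => ?_, fun g hg u => ?_, fun g hg u => ?_, fun g hg u hu => ?_,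
    fun l _ γ h1 h2 τ hτ R k => ?_, fun l _ hl => ?_⟩
  · have : (fun g => S.tw η g u) = fun g => if ep g = 1 then η g u else -η g u := funext fun g => by
      by_cases hg : g ∈ GK
      · rw [tw_pos _ hg, if_pos (ep_pos hg)]
      · rw [tw_neg _ hg, if_neg (by rw [ep_neg hg]; decide)]
    rw [this]
    exact ep_lc.map₂ (hη.opn u) fun a x => if a = 1 then x else -x
  · rw [tw_pos _ hg, tw_pos _ hg, hη.lin g hg]
  · rw [tw_neg _ hg, tw_neg _ hg, hη.ant g hg, map_neg, map_neg]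
  · rw [tw_pos _ hg, hη.fix g hg u hu]
  · rw [tw_pos _ (Ine_GK γ h1 hτ)]
    exact hη.unr l γ h1 h2 τ hτ R k
  · obtain ⟨τ, h1, h2, h4⟩ := hη.tam l hl
    exact ⟨τ, h1, h2, fun k u hu => by
      rw [tw_pos _ (Ine_GK 1 (by rintro rfl; exact h3 hl) h1), h4 k u hu]⟩

theorem Ty.tw (h : Cm3 J) {T : A} (hT : T ∈ Wn J 1) {b : Bool} (ht : Ty η T b) :
    Ty (tw η) T (!b) := fun g => by
  rw [sg_not]
  by_cases hg : g ∈ GK
  · rw [tw_pos _ hg, ep_pos hg, one_mul, ht]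
  · rw [tw_neg _ hg, ep_neg hg, neg_one_mul, val_neg h hT, ht]

theorem P1.tw {n : ℕ} {T : A} {b : Bool} (h : P1 J η n T b) : P1 J (tw η) n T (!b) :=
  ⟨h.cm, h.t0, h.ty.tw h.cm h.t0.1, h.n3, h.sf, h.g3, h.g9, h.ga.tw h.n3, h.wq,
    by rw [tw_tw]; exact h.wp⟩

theorem P1.ne {n : ℕ} {T : A} {b : Bool} (h : P1 J η n T b) {l : ℕ} (hl : l ∣ n) : l ≠ 3 := by
  rintro rfl
  exact h.n3 hl

theorem P1.gA {n : ℕ} {T : A} {b : Bool} (h : P1 J η n T b) (b' : Bool) :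
    ∃ l ∈ n.primeFactors, Ad b' l ∧ ¬ Sy b' l 3 := by
  cases b'
  · obtain ⟨l, h1, h2⟩ := h.g3
    refine ⟨l, h1, Or.inr fun e => h2 (cub_two (Nat.prime_of_mem_primeFactors h1) e 3), ?_⟩
    rwa [Sy, if_neg (by decide), Sk, if_neg (h.ne (Nat.dvd_of_mem_primeFactors h1))]
  · obtain ⟨l, h1, h2⟩ := h.g9
    exact ⟨l, h1, Or.inl rfl, by rwa [Sy, if_pos rfl, Sk, if_pos rfl]⟩

theorem P1.gB {n : ℕ} {T : A} {b : Bool} (h : P1 J η n T b) (b' : Bool) :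
    ∃ l ∈ n.primeFactors, ¬ Sy b' 3 l := by
  obtain ⟨l, h1, -, h2⟩ := h.gA (!b')
  exact ⟨l, h1, by rwa [← sy_not]⟩

theorem Qs.tw {n K l₀ : ℕ} {ζ : Qb} {Q : Finset ℕ} {φ τ : ℕ → GQ} (h : Qs J η n K ζ l₀ Q φ τ) :
    Qs J (tw η) n K ζ l₀ Q φ τ :=
  ⟨h.one, h.zeta, h.base, h.pri, h.tq, h.gk, fun q _ hq g hg u hu => by
    rw [tw_pos _ (h.gk q hq hg), h.triv q hq g hg u hu], h.sep⟩

theorem Qs.thr {n K l₀ : ℕ} {ζ : Qb} {Q : Finset ℕ} {φ τ : ℕ → GQ} (h : Qs J η n K ζ l₀ Q φ τ)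
    {q : ℕ} (hq : q ∈ Q) (b : Bool) : q ≠ 3 ∧ Ad b q ∧ Sy b 3 q ∧ Sy b q 3 := by
  obtain ⟨-, h1, -, h2⟩ := h.pri q hq
  have h3 : q ≠ 3 := by omega
  have h4 : Sk 3 q := by rwa [Sk, if_neg h3]
  have h5 : Sk q 3 := by
    rw [Sk, if_pos rfl]
    exact Or.inl h1
  refine ⟨h3, Or.inr (by omega), ?_⟩
  cases b
  exacts [⟨h5, h4⟩, ⟨h4, h5⟩]

theorem chT_add (h : Cm3 J) {T : A} (hT : T ∈ Wn J 1) (χ χ' : GQ → ZMod 3) :
    chT (χ + χ') T = chT χ T + chT χ' T := funext fun _ => val_add h hT _ _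

theorem chT_sub (h : Cm3 J) {T : A} (hT : T ∈ Wn J 1) (χ χ' : GQ → ZMod 3) :
    chT (χ - χ') T = chT χ T - chT χ' T := funext fun _ => val_sub h hT _ _

theorem chT_neg (h : Cm3 J) {T : A} (hT : T ∈ Wn J 1) (χ : GQ → ZMod 3) :
    chT (-χ) T = -chT χ T := funext fun _ => val_neg h hT _

theorem chT_mem {T : A} (hT : T ∈ Wn J 1) (χ : GQ → ZMod 3) (g : GQ) : chT χ T g ∈ Wn J 1 :=
  nsmul_mem hT _

theorem chT_eq_zero (h : Cm3 J) {T : A} (hT : T ∈ Wn J 1 ∧ T ≠ 0) {χ : GQ → ZMod 3} {g : GQ} :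
    chT χ T g = 0 ↔ χ g = 0 := val_eq_zero h hT

theorem act_val (h : Cm3 J) {T : A} (hT : T ∈ Wn J 1) {b : Bool} (ht : Ty η T b) (g : GQ)
    (a : ZMod 3) : η g (a.val • T) = (sg b g * a).val • T := by
  rw [map_nsmul, ht, val_mul h hT, smul_comm]

theorem chT_zc (h : Cm3 J) {T : A} (hT : T ∈ Wn J 1) {b : Bool} (ht : Ty η T b)
    {χ : GQ → ZMod 3} (h1 : Tl b ⊤ χ) : Zc J η 1 (chT χ T) :=
  ⟨h1.2.map fun a => a.val • T, fun g j => by
    simp only [chT, h1.1 g trivial j trivial, val_add h hT, act_val h hT ht], chT_mem hT χ⟩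

/-- cocycles of the first level -/
theorem ex_chT (h : Cm3 J) {T : A} (hT : T ∈ Wn J 1 ∧ T ≠ 0) {b : Bool} (ht : Ty η T b)
    {H : Subgroup GQ} {ξ : GQ → A} (h1 : Lc H ξ)
    (h2 : ∀ g ∈ H, ∀ j ∈ H, ξ (g * j) = ξ g + η g (ξ j)) (h3 : ∀ g ∈ H, ξ g ∈ Wn J 1) :
    ∃ a, Tl b H a ∧ ∀ g ∈ H, chT a T g = ξ g :=
  ⟨fun g => dg T (ξ g), ⟨fun g hg j hj => val_inj h hT (by
    rw [val_add h hT.1, ← act_val h hT.1 ht, val_dg h hT (h3 g hg), val_dg h hT (h3 j hj),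
      val_dg h hT (h3 _ (H.mul_mem hg hj)), h2 g hg j hj]), h1.map (dg T)⟩,
    fun g hg => val_dg h hT (h3 g hg)⟩

theorem res_one (h : Cm3 J) {T : A} (hT : T ∈ Wn J 1) {b : Bool} (ht : Ty η T b)
    {H : Subgroup GQ} {a : GQ → ZMod 3} (h1 : Tc b H a) (h2 : Tv H a) :
    ∃ w ∈ Wn J 1, ∀ g ∈ H, chT a T g = dd η w g := by
  obtain ⟨t, e⟩ := h1.res h2
  exact ⟨t.val • T, nsmul_mem hT _, fun g hg => by
    rw [chT, e g hg, val_sub h hT, dd, act_val h hT ht]⟩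

theorem InL_tv (h : Cm3 J) {T : A} (hT : T ∈ Wn J 1) {b : Bool} (ht : Ty η T b)
    {H : Subgroup GQ} {a : GQ → ZMod 3} (h1 : Tc b H a) (h2 : Tv H a) : InL η H (chT a T) :=
  (res_one h hT ht h1 h2).imp fun _ e => e.2

theorem InL_sub {H : Subgroup GQ} {a b : GQ → A} (ha : InL η H a) (hb : InL η H b) :
    InL η H (a - b) := by
  rw [sub_eq_add_neg]
  exact ha.add hb.neg

theorem Zc_mono {m m' : ℕ} (hm : m ≤ m') {ξ : GQ → A} (hξ : Zc J η m ξ) : Zc J η m' ξ :=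
  ⟨hξ.lc, hξ.coc, fun g => W_mono hm (hξ.lev g)⟩

theorem dd_lc {n : ℕ} (hη : Ga J n η) (R : A) : Lc ⊤ (dd η R) := (hη.opn R).map (· - R)

theorem dd_zc {n m : ℕ} (hη : Ga J n η) {R : A} (hR : ∀ g, dd η R g ∈ Wn J m) :
    Zc J η m (dd η R) := ⟨dd_lc hη R, dd_coc η R, hR⟩

theorem dd_sq {n m : ℕ} (hη : Ga J n η) (Q : Finset ℕ) {R : A} (hR : ∀ g, dd η R g ∈ Wn J m) :
    dd η R ∈ Sq J η n Q m :=
  ⟨dd_zc hη hR, fun l _ γ h1 h2 _ τ hτ => sub_eq_zero.2 (hη.unr l γ h1 h2 τ hτ R m (hR τ)),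
    ⟨R, fun _ _ => rfl⟩, fun _ _ _ => ⟨R, fun _ _ => rfl⟩⟩

theorem dd_mem (h : Cm3 J) {n m : ℕ} (hη : Ga J n η) {R : A} (hR : R ∈ Wn J m) (g : GQ) :
    dd η R g ∈ Wn J m := sub_mem ((W_act h hη g).2 hR) hR

theorem wo_dd (h : Cm3 J) {n : ℕ} (hη : Ga J n η) (R : A) (g : GQ) :
    wo J (dd η R g) = dd (tw η) (wo J R) g := by
  rw [dd, dd, map_sub, wo_tw h hη]

/-- the points of the second level give cocycles of the first level -/
theorem dd_two {n : ℕ} {T : A} {b : Bool} (h : P1 J η n T b) {R : A} (hR : R ∈ Wn J 2) {g : GQ}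
    (hg : b = true ∨ g ∈ GK) : dd η R g ∈ Wn J 1 := by
  rcases hg with rfl | hg
  · rw [← W_om, W_zero, wo_dd h.cm h.ga, dd, sub_eq_zero]
    exact T_fix h.cm h.t0 ((h.tw.ty g).trans (one_smul _ _)) (W_om.2 hR)
  · exact W_step h.cm h.ga hg hR

theorem Sq_mono {n m m' : ℕ} {Q Q' : Finset ℕ} (hm : m ≤ m') (hQ : Q ⊆ Q') :
    Sq J η n Q m ≤ Sq J η n Q' m' := fun _ hξ =>
  ⟨Zc_mono hm hξ.1, fun l _ γ h1 h2 h3 => hξ.2.1 l γ h1 h2 fun e => h3 (hQ e), hξ.2.2⟩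

/-- transport of Selmer cocycles along an equivariant map -/
theorem Sq_map {η' : Act A} {n m m' : ℕ} {Q : Finset ℕ} (f : A →+ A)
    (hf : ∀ g u, f (η g u) = η' g (f u)) (hm : ∀ u ∈ Wn J m, f u ∈ Wn J m') {ξ : GQ → A}
    (hξ : ξ ∈ Sq J η n Q m) : (fun g => f (ξ g)) ∈ Sq J η' n Q m' := by
  have key : ∀ H, InL η H ξ → InL η' H fun g => f (ξ g) := by
    rintro H ⟨R, hR⟩
    exact ⟨f R, fun g hg => by simp only [hR g hg, dd, map_sub, hf]⟩
  obtain ⟨h1, h2, h3, h5⟩ := hξ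
  exact ⟨⟨h1.lc.map f, fun g j => by simp only [h1.coc, map_add, hf], fun g => hm _ (h1.lev g)⟩,
    fun l _ γ a b c τ hτ => by simp only [h2 l γ a b c τ hτ, map_zero], key _ h3,
    fun l _ hl => key _ (h5 l hl)⟩

theorem Sq_wo (h : Cm3 J) {n m : ℕ} (hη : Ga J n η) {Q : Finset ℕ} {ξ : GQ → A}
    (hξ : ξ ∈ Sq J η n Q (m + 1)) : (fun g => wo J (ξ g)) ∈ Sq J (tw η) n Q m :=
  Sq_map (wo J).toAddMonoidHom (wo_tw h hη) (fun _ hu => W_om.2 hu) hξ

/-- the cup product of two classes that come from points -/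
theorem cob_InL {N : ℕ} {e : A → A → Qb} (he : Wp η N e) {H : Subgroup GQ} {a b : GQ → A}
    (ha : InL η H a) (hb : InL η H b) (h1 : ∀ g ∈ H, a g ∈ tor A N) (h2 : ∀ g ∈ H, b g ∈ tor A N) :
    Cob H (cup η e a b) := by
  obtain ⟨R, hR⟩ := ha
  obtain ⟨R', hR'⟩ := hb
  exact (he.iso H R R' (fun g hg => hR g hg ▸ h1 g hg) fun g hg => hR' g hg ▸ h2 g hg).congr
    fun g hg j hj => by simp only [cup, hR g hg, hR' j hj]

end lemmas

end Pool.Agent.MP_e23604_nt.S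

end

section

set_option autoImplicit false

open NumberField IsDedekindDomain Module Filter Topology
open scoped Classical

namespace Pool.Agent.MP_e23604_nt.S

open B R Pool.Agent.MP_f3cd89_nt

theorem ne_SKAP {r : ℚ} (h : r ≠ 0) {s : Qb} (hs : s ^ 3 = r) : s ≠ 0 := by
  rintro rfl
  exact h (by exact_mod_cast hs.symm.trans (zero_pow three_ne_zero))

theorem act_SKAP {r : ℚ} (h : r ≠ 0) (g : GQ) : g (cbr r) = w3 ^ (kum r g).val * cbr r := by
  have h0 := ne_SKAP h (cbr_cube r)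
  have h1 : (g (cbr r) / cbr r) ^ 3 = 1 := by
    rw [div_pow, ← map_pow, cbr_cube, map_ratCast, div_self (by exact_mod_cast h)]
  rw [kum, pow_lg h1, div_mul_cancel₀ _ h0]

theorem tdt_SKAP {r : ℚ} (h : r ≠ 0) : Tdt ⊤ (kum r) := by
  intro g _ j _
  refine w3_inj (mul_right_cancel₀ (ne_SKAP h (cbr_cube r)) ?_)
  rw [← act_SKAP h, AlgEquiv.mul_apply, act_SKAP h j, map_mul, act_w3, act_SKAP h g, w3_add]
  ring

theorem two_SKAP {r : ℚ} {s : Qb} (h : r ≠ 0) (hs : s ^ 3 = r) : ∃ t : ZMod 3, ∀ g : GQ,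
    g s = w3 ^ (kum r g + (ep g - 1) * t).val * s := by
  have h0 := ne_SKAP h (cbr_cube r)
  have h1 : (s / cbr r) ^ 3 = 1 := by
    rw [div_pow, hs, cbr_cube, div_self (by exact_mod_cast h)]
  have h2 : s = w3 ^ (lg (s / cbr r)).val * cbr r := by rw [pow_lg h1, div_mul_cancel₀ _ h0]
  refine ⟨lg (s / cbr r), fun g => ?_⟩
  generalize lg (s / cbr r) = t at h2
  rw [h2, map_mul, act_w3, act_SKAP h g, ← mul_assoc, ← mul_assoc, ← w3_add, ← w3_add]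
  congr 3
  ring

theorem mul_SKAP {r r' : ℚ} (h : r ≠ 0) (h' : r' ≠ 0) : ∃ t : ZMod 3, ∀ g,
    kum (r * r') g = kum r g + kum r' g + (ep g - 1) * t := by
  have h1 : (cbr r * cbr r') ^ 3 = ((r * r' : ℚ) : Qb) := by
    rw [mul_pow, cbr_cube, cbr_cube, Rat.cast_mul]
  obtain ⟨t, ht⟩ := two_SKAP (mul_ne_zero h h') h1
  refine ⟨-t, fun g => ?_⟩
  have h2 : kum (r * r') g + (ep g - 1) * t = kum r g + kum r' g := by
    refine w3_inj (mul_right_cancel₀ (ne_SKAP (mul_ne_zero h h') h1) ?_)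
    rw [← ht, map_mul, act_SKAP h g, act_SKAP h' g, w3_add]
    ring
  linear_combination h2

theorem gk_SKAP {r : ℚ} {s : Qb} (h : r ≠ 0) (hs : s ^ 3 = r) {g : GQ} (hg : g ∈ GK) :
    g s = w3 ^ (kum r g).val * s := by
  obtain ⟨t, ht⟩ := two_SKAP h hs
  rw [ht g, ep_pos hg, sub_self, zero_mul, add_zero]

theorem mgk_SKAP {r r' : ℚ} (h : r ≠ 0) (h' : r' ≠ 0) {g : GQ} (hg : g ∈ GK) :
    kum (r * r') g = kum r g + kum r' g := by
  obtain ⟨t, ht⟩ := mul_SKAP h h'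
  rw [ht g, ep_pos hg, sub_self, zero_mul, add_zero]

theorem cube_SKAP {r : ℚ} (h : r ≠ 0) {g : GQ} (hg : g ∈ GK) : kum (r ^ 3) g = 0 := by
  have h1 := gk_SKAP (pow_ne_zero 3 h) (s := r) (by push_cast; rfl) hg
  rw [map_ratCast] at h1
  refine w3_inj (mul_right_cancel₀ (show (r : Qb) ≠ 0 by exact_mod_cast h) ?_)
  rw [← h1, ZMod.val_zero, pow_zero, one_mul]

theorem neg_SKAP {r : ℚ} (h : r ≠ 0) {g : GQ} (hg : g ∈ GK) : kum (-r) g = kum r g := by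
  have h1 := gk_SKAP (neg_ne_zero.2 h) (s := -cbr r)
    (by rw [Odd.neg_pow (by decide), cbr_cube, Rat.cast_neg]) hg
  rw [map_neg, act_SKAP h g, mul_neg, neg_inj] at h1
  exact (w3_inj (mul_right_cancel₀ (ne_SKAP h (cbr_cube r)) h1)).symm

theorem zpow_SKAP {r : ℚ} (h : r ≠ 0) {g : GQ} (hg : g ∈ GK) (n : ℤ) :
    kum (r ^ n) g = n * kum r g := by
  induction n using Int.induction_on with
  | zero => simpa using cube_SKAP one_ne_zero hg
  | succ n ih =>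
    rw [zpow_add_one₀ h, mgk_SKAP (zpow_ne_zero _ h) h hg, ih]
    push_cast
    ring
  | pred n ih =>
    have h1 := mgk_SKAP (zpow_ne_zero (-(n : ℤ) - 1) h) h hg
    rw [← zpow_add_one₀ h, sub_add_cancel, ih] at h1
    rw [eq_sub_of_add_eq h1.symm]
    push_cast
    ring

variable {l : ℕ} [hl : Fact l.Prime] {γ : GQ}

theorem one_SKAP {s x : Qb} (h : s ^ 3 = x) (hx : nv l γ x = 1) : nv l γ s = 1 :=
  (pow_eq_one_iff_of_nonneg ((nv l γ).nonneg s) three_ne_zero).1 (by rw [← map_pow, h, hx])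

theorem root_SKAP (h3 : l ≠ 3) {a : ZMod 3} (h : nv l γ (w3 ^ a.val - 1) < 1) : a = 0 := by
  have h4 : nv l γ 3 = 1 := by
    have := v_coprime (nv_na l γ) hl.out (nv_lt l γ) (n := 3) fun e =>
      h3 ((Nat.prime_dvd_prime_iff_eq hl.out Nat.prime_three).1 (by exact_mod_cast e))
    simpa using this
  have h1 : nv l γ w3 = 1 := one_SKAP w3_cube (map_one _)
  have h5 : nv l γ (w3 - 1) ^ 2 = 1 := by
    rw [← map_pow, show (w3 - 1) ^ 2 = -(3 * w3) by linear_combination w3_spec,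
      AbsoluteValue.map_neg, map_mul, h4, h1, mul_one]
  have h6 : nv l γ (w3 ^ 2 - 1) ^ 2 = 1 := by
    rw [← map_pow, show (w3 ^ 2 - 1) ^ 2 = -(3 * w3 ^ 2) by
      linear_combination (w3 ^ 2 - w3 + 1) * w3_spec,
      AbsoluteValue.map_neg, map_mul, map_pow, h4, h1, one_pow, mul_one]
  rcases z3 a with rfl | rfl | rfl
  · rfl
  · rw [ZMod.val_one, pow_one] at h
    nlinarith [(nv l γ).nonneg (w3 - 1)]
  · rw [show (2 : ZMod 3).val = 2 from rfl] at h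
    nlinarith [(nv l γ).nonneg (w3 ^ 2 - 1)]

theorem ine_SKAP {r : ℚ} (h3 : l ≠ 3) (hr : r ≠ 0) {τ : GQ} (hτ : τ ∈ Ine l γ) :
    kum r τ = (padicValRat l r : ZMod 3) * kum l τ := by
  have hg := Ine_GK γ h3 hτ
  have h0 : (l : ℚ) ≠ 0 := by exact_mod_cast hl.out.ne_zero
  have h1 : (l : ℚ) ^ padicValRat l r ≠ 0 := zpow_ne_zero _ h0
  have hu : r / (l : ℚ) ^ padicValRat l r ≠ 0 := div_ne_zero hr h1
  have hv : padicValRat l (r / (l : ℚ) ^ padicValRat l r) = 0 := by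
    rw [padicValRat.div hr h1, padicValRat.zpow, padicValRat.self hl.out.one_lt, mul_one,
      sub_self]
  have hn := R.DIC_ok.2.2.1 l γ _ hu
  rw [hv, neg_zero, zpow_zero] at hn
  have hs1 := one_SKAP (cbr_cube (r / (l : ℚ) ^ padicValRat l r)) hn
  have hk : kum (r / (l : ℚ) ^ padicValRat l r) τ = 0 := by
    have h4 := hτ _ hs1.le
    rw [act_SKAP hu τ, ← sub_one_mul, map_mul, hs1, mul_one] at h4
    exact root_SKAP h3 h4
  have h5 := mgk_SKAP hu h1 hg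
  rwa [div_mul_cancel₀ _ h1, hk, zero_add, zpow_SKAP h0 hg] at h5

theorem cub_SKAP {e : ℕ} (he : l = 3 * e + 1) {a : ZMod l} (ha : a ≠ 0) :
    (∃ x : ZMod l, x ^ 3 = a) ↔ a ^ e = 1 := by
  have h1 : l - 1 = 3 * e := by omega
  constructor
  · rintro ⟨x, rfl⟩
    rw [← pow_mul, ← h1]
    exact ZMod.pow_card_sub_one_eq_one fun h => ha (by rw [h]; simp)
  · intro h
    obtain ⟨g, hg⟩ := IsCyclic.exists_monoid_generator (α := (ZMod l)ˣ)
    obtain ⟨n, hn⟩ := hg (Units.mk0 a ha)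
    have ho : orderOf g = 3 * e := by
      rw [orderOf_eq_card_of_forall_mem_powers hg, Nat.card_eq_fintype_card, ZMod.card_units, h1]
    have h2 : g ^ (n * e) = 1 := by
      have hn' : g ^ n = Units.mk0 a ha := hn
      rw [pow_mul, hn']
      exact Units.ext (by simpa using h)
    rw [← orderOf_dvd_iff_pow_eq_one, ho] at h2
    have he0 : 0 < e := by
      have := hl.out.two_le
      omega
    obtain ⟨k, rfl⟩ := Nat.dvd_of_mul_dvd_mul_right he0 h2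
    refine ⟨(g ^ k : (ZMod l)ˣ), ?_⟩
    have hn' : g ^ (3 * k) = Units.mk0 a ha := hn
    rw [← Units.val_pow_eq_pow_val, ← pow_mul, mul_comm, hn', Units.val_mk0]

theorem frob_SKAP {φ : GQ} {m : ℕ} (h1 : l % 3 = 1) (hφ : Frob l γ φ) (hm : ¬ l ∣ m) :
    kum m φ = 0 ↔ Cub l m := by
  have h3 : l ≠ 3 := by omega
  have he : l = 3 * (l / 3) + 1 := by omega
  have hm0 : (m : ℚ) ≠ 0 := by
    rintro h
    exact hm (by rw [show m = 0 by exact_mod_cast h]; exact dvd_zero _)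
  have hs : cbr m ^ 3 = (m : Qb) := by rw [cbr_cube, Rat.cast_natCast]
  have hn : nv l γ (m : Qb) = 1 := by
    simpa using v_coprime (nv_na l γ) hl.out (nv_lt l γ) (n := m) (by exact_mod_cast hm)
  have hs1 := one_SKAP hs hn
  have h2 := hφ.2 _ hs1.le
  have h4 : cbr m ^ l = (m : Qb) ^ (l / 3) * cbr m := by
    conv_lhs => rw [he]
    rw [pow_succ, pow_mul, hs]
  rw [act_SKAP hm0 φ, h4, ← sub_mul, map_mul, hs1, mul_one] at h2
  have h5 : ((m : ZMod l)) ^ (l / 3) = 1 ↔ (l : ℤ) ∣ (m : ℤ) ^ (l / 3) - 1 := by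
    rw [← ZMod.intCast_zmod_eq_zero_iff_dvd]
    push_cast
    exact sub_eq_zero.symm
  rw [Cub, cub_SKAP he (mt (ZMod.natCast_eq_zero_iff m l).1 hm), h5]
  constructor
  · intro h
    by_contra h6
    have h7 := v_coprime (nv_na l γ) hl.out (nv_lt l γ) h6
    rw [h, ZMod.val_zero, pow_zero, ← neg_sub, AbsoluteValue.map_neg] at h2
    push_cast at h7
    exact lt_irrefl _ (h7 ▸ h2)
  · rintro ⟨k, hk⟩
    have e : ((m : Qb) ^ (l / 3) - 1) = l * k := by exact_mod_cast hk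
    have h7 : nv l γ ((m : Qb) ^ (l / 3) - 1) < 1 := by
      have hk1 : nv l γ k ≤ 1 := (nv_na l γ).apply_intCast_le_one
      rw [e, map_mul]
      exact mul_lt_one_of_nonneg_of_lt_one_left ((nv l γ).nonneg _) (nv_lt l γ) hk1
    refine root_SKAP (γ := γ) h3 ?_
    rw [← sub_add_sub_cancel _ ((m : Qb) ^ (l / 3))]
    exact (nv_na l γ _ _).trans_lt (max_lt h2 h7)

theorem KAP_pf : KAP_st :=
  ⟨fun r h => ⟨tdt_SKAP h, (Lc.apply ⊤ (cbr r)).map fun y => lg (y / cbr r), act_SKAP h⟩,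
    fun _ _ => two_SKAP, fun _ _ => mul_SKAP,
    fun _ h _ hg => ⟨cube_SKAP h hg, neg_SKAP h hg⟩,
    fun _ _ _ _ h3 hr _ hτ => ine_SKAP h3 hr hτ, fun _ _ _ _ _ => frob_SKAP⟩

end Pool.Agent.MP_e23604_nt.S

end

section

set_option autoImplicit false

open NumberField IsDedekindDomain Module Filter Topology
open scoped Classical

namespace Pool.Agent.MP_e23604_nt.S

open B R Pool.Agent.MP_f3cd89_nt

theorem surj_SPSI (l n : ℕ) [hl : Fact l.Prime] [NeZero n]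
    (hn : ∀ q : ℕ, q.Prime → q ≠ l → q.Coprime n) (u : (ZMod n)ˣ) :
    ∃ τ ∈ Ine l 1, MP_f68ac8_nt.cyc n τ = u := by
  have h1 : (((cen l 1).inertia GQ).map (MP_f68ac8_nt.cyc n)).comap
      (MP_f68ac8_nt.cyc (Ω := Qb) n) = ⊤ := by
    refine MP_f68ac8_nt.eq_top_of_open _
      (Filter.mem_of_superset (MP_f68ac8_nt.cyc_nhds n) fun g hg => ?_) fun P' _ g hg => ?_
    · rw [SetLike.mem_coe, Subgroup.mem_comap, hg]
      exact one_mem _
    · rw [Subgroup.mem_comap]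
      obtain ⟨q, hq, h'⟩ := MP_f68ac8_nt.exists_prime_mem P'
      rcases eq_or_ne q l with rfl | h2
      · obtain ⟨a, ha⟩ := MP_f68ac8_nt.exists_conj hq (cen_mem q 1) h'
        refine ⟨_, ha g hg, ?_⟩
        rw [map_mul, map_mul, map_inv, mul_right_comm, inv_mul_cancel, one_mul]
      · rw [MP_f68ac8_nt.cyc_inertia (MP_f68ac8_nt.not_mem_of_coprime h' (hn q hq h2)) hg]
        exact one_mem _
  obtain ⟨g, rfl⟩ := MP_f68ac8_nt.cyc_surj (Ω := Qb) n u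
  have : g ∈ (((cen l 1).inertia GQ).map (MP_f68ac8_nt.cyc n)).comap
      (MP_f68ac8_nt.cyc (Ω := Qb) n) := h1 ▸ Subgroup.mem_top g
  obtain ⟨τ, h2, h3⟩ := this
  exact ⟨τ, ine_iff.2 h2, h3⟩

theorem cu_SPSI (l n : ℕ) [hl : Fact l.Prime] [NeZero n]
    (hn : ∀ q : ℕ, q.Prime → q ≠ l → q.Coprime n) (f : ZMod n → ZMod 3)
    (hf : ∀ u v : (ZMod n)ˣ, f (u * v) = f u + f v) (u : (ZMod n)ˣ) (hu : f u ≠ 0) :
    Cu l (fun g => f (MP_f68ac8_nt.cyc n g)) ∧ f 1 = 0 ∧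
      ∀ (q : ℕ) [Fact q.Prime] (γ φ : GQ), q ≠ l → Frob q γ φ →
        f (MP_f68ac8_nt.cyc n φ) = f q := by
  have h1 : f 1 = 0 := by simpa using hf 1 1
  refine ⟨⟨fun g _ h _ => by simp only [map_mul, Units.val_mul, hf], ?_, ?_,
    fun q hq γ h2 τ hτ => ?_⟩, h1, fun q hq γ φ h2 h => ?_⟩
  · obtain ⟨N, a, b⟩ := exists_ON (MP_f68ac8_nt.cyc_nhds (Ω := Qb) n)
    refine ⟨N, a, fun g _ j _ e => ?_⟩
    have := b _ e
    rw [Set.mem_ofPred_eq, map_mul, map_inv, inv_mul_eq_one] at this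
    simp only [this]
  · obtain ⟨τ, a, rfl⟩ := surj_SPSI l n hn u
    exact ⟨τ, a, hu⟩
  · rw [MP_f68ac8_nt.cyc_inertia (MP_f68ac8_nt.not_mem_of_coprime (cen_mem q γ) (hn q hq.out h2))
      (ine_iff.1 hτ), Units.val_one, h1]
  · rw [MP_f68ac8_nt.cyc_frob (MP_f68ac8_nt.not_mem_of_coprime (cen_mem q γ) (hn q hq.out h2))
      (frob_iff.1 h)]

theorem log_SPSI (l : ℕ) [hl : Fact l.Prime] (h : l % 3 = 1) :
    ∃ (f : ZMod l → ZMod 3) (u : (ZMod l)ˣ), f u ≠ 0 ∧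
      (∀ x y, x ≠ 0 → y ≠ 0 → f (x * y) = f x + f y) ∧
      ∀ x, x ≠ 0 → (f x = 0 ↔ ∃ y, y ^ 3 = x) := by
  have hd : 3 ∣ Nat.card (ZMod l)ˣ := by
    rw [Nat.card_eq_fintype_card, ZMod.card_units]
    omega
  let e := zmodCyclicMulEquiv (inferInstance : IsCyclic (ZMod l)ˣ)
  let π := ZMod.castHom hd (ZMod 3)
  let f : ZMod l → ZMod 3 := fun x => if h : x = 0 then 0 else π (e.symm (Units.mk0 x h)).toAdd
  have hf : ∀ u : (ZMod l)ˣ, f u = π (e.symm u).toAdd := fun u => by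
    simp only [f, dif_neg u.ne_zero, Units.mk0_val]
  have hm : ∀ x y, x ≠ 0 → y ≠ 0 → f (x * y) = f x + f y := fun x y hx hy => by
    lift x to (ZMod l)ˣ using hx.isUnit
    lift y to (ZMod l)ˣ using hy.isUnit
    rw [← Units.val_mul, hf, hf, hf, map_mul, toAdd_mul, map_add]
  refine ⟨f, e (Multiplicative.ofAdd 1), ?_, hm, fun x hx => ⟨fun h0 => ?_, ?_⟩⟩
  · rw [hf, e.symm_apply_apply, toAdd_ofAdd, map_one]
    decide
  · lift x to (ZMod l)ˣ using hx.isUnit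
    obtain ⟨a, rfl⟩ := e.surjective x
    obtain ⟨k, hk⟩ := ZMod.intCast_surjective a.toAdd
    rw [hf, e.symm_apply_apply, ← hk, map_intCast, ZMod.intCast_zmod_eq_zero_iff_dvd] at h0
    obtain ⟨m, rfl⟩ := h0
    refine ⟨e (Multiplicative.ofAdd (m : ZMod _)), ?_⟩
    rw [← Units.val_pow_eq_pow_val, ← map_pow, ← ofAdd_nsmul, ← ofAdd_toAdd a, ← hk]
    simp
  · rintro ⟨y, rfl⟩
    have hy : y ≠ 0 := fun h0 => hx (by rw [h0]; simp)
    rw [pow_three, hm _ _ hy (mul_ne_zero hy hy), hm _ _ hy hy]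
    generalize f y = t
    revert t
    decide

/-- the logarithm on the units modulo nine -/
def lm_SPSI (x : ZMod 9) : ZMod 3 :=
  if x = 2 ∨ x = 7 then 1 else if x = 4 ∨ x = 5 then 2 else 0

theorem lm_add_SPSI : ∀ x y x' y' : ZMod 9, x * x' = 1 → y * y' = 1 →
    lm_SPSI (x * y) = lm_SPSI x + lm_SPSI y := by
  intro x y x' y' hx hy
  have k : ∀ x x' : ZMod 9, x * x' = 1 → x ≠ 0 ∧ x ≠ 3 ∧ x ≠ 6 := by decide
  have := k x x' hx
  have := k y y' hy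
  clear hx hy
  revert x y
  decide

theorem PSI_pf : PSI_st := by
  refine ⟨fun l hl h => ?_, ?_⟩
  · obtain ⟨f, u, h1, h2, h3⟩ := log_SPSI l h
    obtain ⟨a, -, b⟩ := cu_SPSI l l (fun q hq e => (Nat.coprime_primes hq hl.out).2 e) f
      (fun u v => h2 _ _ u.ne_zero v.ne_zero) u h1
    exact ⟨_, f, a, h2, h3, b⟩
  · obtain ⟨a, c, b⟩ := cu_SPSI 3 9
      (fun q hq e => ((Nat.coprime_primes hq Nat.prime_three).2 e).pow_right 2) lm_SPSI
      (fun u v => lm_add_SPSI _ _ _ _ u.mul_inv v.mul_inv) ⟨2, 5, by decide, by decide⟩ (by decide)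
    refine ⟨_, a, fun g hg => ?_, fun q hq γ φ h3 h => ?_⟩
    · rw [MP_f68ac8_nt.cyc_eq 9 (k := 1)
        (by rw [pow_one]; exact hg _ (MP_f68ac8_nt.zeta_spec 9).pow_eq_one), Nat.cast_one, c]
    · rw [b q γ φ h3 h, ← ZMod.natCast_mod q 9]
      have h1 : ¬ 3 ∣ q := fun e => h3 ((Nat.prime_dvd_prime_iff_eq Nat.prime_three hq.out).1 e).symm
      have h2 : ¬ 3 ∣ q % 9 := by omega
      have h4 : q % 9 < 9 := Nat.mod_lt _ (by decide)
      generalize q % 9 = r at h2 h4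
      revert h2
      interval_cases r <;> decide

end Pool.Agent.MP_e23604_nt.S

end

section

set_option autoImplicit false

open NumberField IsDedekindDomain Module Filter Topology
open scoped Classical

namespace Pool.Agent.MP_e23604_nt.S

open B R Pool.Agent.MP_f3cd89_nt

theorem TQ_pf (hTAM : TAM_st) (hKAP : KAP_st) : TQ_st := by
  intro k ζ q hq γ hζ hd
  have h3 : q ≠ 3 := by
    rintro rfl
    exact absurd ((dvd_pow_self 3 k.succ_ne_zero).trans hd) (by norm_num)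
  have hn : ¬ q ∣ 3 ^ (k + 1) := fun h =>
    h3 ((Nat.prime_dvd_prime_iff_eq hq.out Nat.prime_three).1 (hq.out.dvd_of_dvd_pow h))
  obtain ⟨w, hw⟩ := IsAlgClosed.exists_pow_nat_eq (q : Qb) (n := 3 ^ (k + 1)) (by positivity)
  have q0 : (q : Qb) ≠ 0 := Nat.cast_ne_zero.2 hq.out.ne_zero
  have w0 : w ≠ 0 := by
    rintro rfl
    exact q0 (hw.symm.trans (zero_pow (by positivity)))
  have ex : ∀ g : GQ, ∃ j : ℕ, g w = ζ ^ j * w := fun g => by
    obtain ⟨j, -, hj⟩ := hζ.eq_pow_of_pow_eq_one (ξ := g w / w) (by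
      rw [div_pow, ← map_pow, hw, map_natCast, div_self q0])
    exact ⟨j, by rw [hj, div_mul_cancel₀ _ w0]⟩
  obtain ⟨hG, ⟨τ, hτ, hk⟩, -⟩ := hTAM q γ h3
  obtain ⟨⟨φ, hφ⟩, hF⟩ := R.FRO_ok q γ
  obtain ⟨-, a2, a3, -⟩ := hF φ hφ
  obtain ⟨j, hj⟩ := ex τ
  have t1 := root_CTQ hτ hn hζ.pow_eq_one
  have ho : ¬ 3 ∣ j := by
    rintro ⟨a, rfl⟩
    obtain ⟨t, ht⟩ := hKAP.2.1 (q : ℚ) (w ^ 3 ^ k) (Nat.cast_ne_zero.2 hq.out.ne_zero)
      (by rw [← pow_mul, ← pow_succ, hw, Rat.cast_natCast])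
    have h4 := ht τ
    rw [hk, ep_pos (hG hτ), sub_self, zero_mul, add_zero, map_pow, hj, mul_pow, ← pow_mul,
      show 3 * a * 3 ^ k = 3 ^ (k + 1) * a by ring, pow_mul, hζ.pow_eq_one, one_pow,
      ZMod.val_one, pow_one] at h4
    exact w3_ne_one (mul_right_cancel₀ (pow_ne_zero (3 ^ k) w0) h4).symm
  obtain ⟨i, -, hi⟩ := Nat.exists_mul_mod_eq_one_of_coprime
    (((Nat.Prime.coprime_iff_not_dvd Nat.prime_three).2 ho).symm.pow_right (k + 1))
    (Nat.one_lt_pow k.succ_ne_zero (by norm_num))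
  have t2 : (τ ^ i) w = ζ * w := by
    rw [tau_CTQ (by rw [map_pow, t1]) hj, ← pow_mul, ← Nat.div_add_mod (j * i) (3 ^ (k + 1)), hi,
      pow_add, pow_mul, hζ.pow_eq_one, one_pow, one_mul, pow_one]
  have t3 : τ ^ i ∈ Ine q γ := pow_mem hτ i
  have f1 : φ ζ = ζ := by
    obtain ⟨c, hc⟩ := hd
    rw [a3 _ ζ hn hζ.pow_eq_one, show q = 3 ^ (k + 1) * c + 1 by have := hq.out.pos; omega,
      pow_succ, pow_mul, hζ.pow_eq_one, one_pow, one_mul]
  obtain ⟨a, ha⟩ := ex φ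
  refine ⟨φ * (τ ^ i) ^ ((3 ^ (k + 1) - 1) * a), τ ^ i, hd, a2 _ (pow_mem t3 _), t3, w, hw, t2, ?_⟩
  rw [AlgEquiv.mul_apply, tau_CTQ (root_CTQ t3 hn hζ.pow_eq_one) t2, map_mul, map_pow, f1, ha,
    ← mul_assoc, ← pow_add, ← Nat.succ_mul, Nat.succ_eq_add_one,
    Nat.sub_add_cancel (Nat.one_le_pow _ _ three_pos), pow_mul, hζ.pow_eq_one, one_pow, one_mul]

end Pool.Agent.MP_e23604_nt.S

end

section

set_option autoImplicit false

open NumberField IsDedekindDomain Module Filter Topology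
open scoped Classical

namespace Pool.Agent.MP_e23604_nt.S

open B R Pool.Agent.MP_f3cd89_nt

theorem gk_SHOMQ {k : ℕ} {ζ : Qb} (hζ : IsPrimitiveRoot ζ (3 ^ (k + 1))) {g : GQ}
    (hg : g ζ = ζ) : g ∈ GK := by
  have h1 : IsPrimitiveRoot (ζ ^ 3 ^ k) 3 := hζ.pow (by positivity) (pow_succ 3 k)
  intro z hz
  obtain ⟨i, -, rfl⟩ := h1.eq_pow_of_pow_eq_one hz
  rw [map_pow, map_pow, hg]

theorem HOMQ_pf (hTAM : TAM_st) (hKAP : KAP_st) : HOMQ_st := by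
  intro k ζ q hqp γ φ τ A _ hζ hT
  have hp : q.Prime := Fact.out
  have hn : (3 : ℕ) ^ (k + 1) ≠ 0 := by positivity
  have h3n : 3 ∣ 3 ^ (k + 1) := dvd_pow_self 3 (by omega)
  have hq1 : q % 3 = 1 := by
    have h1 := h3n.trans hT.dvd
    have h2 := hp.two_le
    omega
  have hq3 : q ≠ 3 := by omega
  have hqn : ¬ q ∣ 3 ^ (k + 1) := fun e =>
    hq3 ((Nat.prime_dvd_prime_iff_eq hp Nat.prime_three).1 (hp.dvd_of_dvd_pow e))
  obtain ⟨ϖ, hϖ, hτϖ, hφϖ⟩ := hT.ex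
  have hϖ0 : ϖ ≠ 0 := by
    rintro rfl
    rw [zero_pow hn] at hϖ
    exact hp.ne_zero (by exact_mod_cast hϖ.symm)
  have hfix := fix_CHOMQ R.FRO_ok hζ.pow_eq_one hqn hT.dvd hT.fr
  have hGK : Dec (nv q γ) ≤ GK := fun g hg => gk_SHOMQ hζ (hfix g hg)
  have hkum : kum q τ ≠ 0 := by
    intro h0
    obtain ⟨t, ht⟩ := hKAP.2.1 q (ϖ ^ 3 ^ k) (Nat.cast_ne_zero.2 hp.ne_zero)
      (by rw [← pow_mul, ← pow_succ, hϖ, Rat.cast_natCast])
    have h1 := ht τ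
    rw [h0, ep_pos (hGK (Ine_le q γ hT.ine)), sub_self, zero_mul, add_zero, map_pow, hτϖ, mul_pow,
      ZMod.val_zero, pow_zero] at h1
    have h2 : ζ ^ 3 ^ k = 1 := mul_right_cancel₀ (pow_ne_zero _ hϖ0) h1
    have h3 := Nat.le_of_dvd (by positivity) (hζ.dvd_of_pow_eq_one _ h2)
    have h4 : 0 < 3 ^ k := by positivity
    rw [pow_succ] at h3
    omega
  refine ⟨hq1, hGK, hkum, fun x y hx hy => ?_, fun a e ha hl he hφ hτ => ?_⟩
  · obtain ⟨s, hs1, hs2, hs3, hs4⟩ := unr_CTQ R.FRO_ok q γ φ hn hT.fr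
    let L : Qb → ℕ := fun z => Classical.epsilon fun i => z = ζ ^ i * ϖ
    have hL : ∀ g : GQ, g ϖ = ζ ^ L (g ϖ) * ϖ := fun g => by
      refine Classical.epsilon_spec (p := fun i => g ϖ = ζ ^ i * ϖ) ?_
      have : NeZero (3 ^ (k + 1)) := ⟨hn⟩
      have h1 : (g ϖ / ϖ) ^ 3 ^ (k + 1) = 1 := by
        rw [div_pow, ← map_pow, hϖ, map_natCast, div_self]
        exact_mod_cast hp.ne_zero
      obtain ⟨i, -, hi⟩ := hζ.eq_pow_of_pow_eq_one h1
      exact ⟨i, by rw [hi, div_mul_cancel₀ _ hϖ0]⟩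
    have hLy : ∀ (g : GQ) (j : ℕ), g ϖ = ζ ^ j * ϖ → L (g ϖ) • y = j • y := fun g j h =>
      smul_CHOMQ hζ hn hy (mul_right_cancel₀ hϖ0 ((hL g).symm.trans h))
    have : NeZero (3 ^ (k + 1)) := ⟨hn⟩
    have : Fact (1 < 3 ^ (k + 1)) := ⟨Nat.one_lt_pow (by omega) (by norm_num)⟩
    refine ⟨fun g => (s g).val • x + L (g ϖ) • y, fun g hg h hh => ?_,
      hs2.map₂ (Lc.apply _ ϖ) fun u v => u.val • x + L v • y, ?_, ?_, fun g => ⟨_, _, rfl⟩⟩
    · have e1 : (s (g * h)).val • x = (s g).val • x + (s h).val • x := by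
        rw [hs1 g hg h hh, ZMod.val_add, ← nsmul_eq_mod_nsmul _ hx, add_nsmul]
      have e2 : L ((g * h) ϖ) • y = L (g ϖ) • y + L (h ϖ) • y := by
        rw [← add_nsmul]
        refine hLy _ _ ?_
        conv_lhs => rw [AlgEquiv.mul_apply, hL h, map_mul, map_pow, hfix g hg, hL g]
        rw [pow_add]
        ring
      simp only
      rw [e1, e2]
      abel
    · simp only
      rw [hs4, ZMod.val_one, hLy φ 0 (by rw [hφϖ, pow_zero, one_mul]), one_nsmul, zero_nsmul,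
        add_zero]
    · simp only
      rw [hs3 τ hT.ine, ZMod.val_zero, hLy τ 1 (by rw [hτϖ, pow_one]), one_nsmul, zero_nsmul,
        zero_add]
  · have hI := (hTAM q γ hq3).2.2 τ hT.ine hkum A a e (ha.mono (Ine_le q γ))
      (hl.mono (Ine_le q γ)) (fun u hu => he u (Ine_le q γ hu)) hτ
    exact ((R.FRO_ok q γ).2 φ hT.fr).2.2.2.2 A a ha hl hI hφ

end Pool.Agent.MP_e23604_nt.S

end

section

set_option autoImplicit false

open NumberField IsDedekindDomain Module Filter Topology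
open scoped Classical

namespace Pool.Agent.MP_e23604_nt.S

open B R Pool.Agent.MP_f3cd89_nt

theorem frob_SLOC {l : ℕ} [Fact l.Prime] {γ φ : GQ} (h3 : l % 3 ≠ 0) (h : Frob l γ φ) :
    φ w3 = w3 ^ (l % 3) := by
  have h1 : ¬ l ∣ 3 := fun e => h3 (by
    rw [(Nat.prime_dvd_prime_iff_eq Fact.out Nat.prime_three).1 e])
  rw [((R.FRO_ok l γ).2 φ h).2.2.1 3 w3 h1 w3_cube]
  conv_lhs => rw [← Nat.mod_add_div l 3, pow_add, pow_mul, w3_cube, one_pow, mul_one]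

theorem three_SLOC (γ : GQ) : ∃ c ∈ Ine 3 γ, c ∉ GK := by
  by_contra h
  push Not at h
  obtain ⟨x, hx, e⟩ := ram_a (v := nv 3 γ) ⊥ (nv_na 3 γ) Nat.prime_three (nv_lt 3 γ)
    (y := w3 - w3 ^ 2) fun τ _ hτ => by rw [map_sub, map_pow, mem_GK'.1 (h τ hτ)]
  obtain ⟨r, rfl⟩ := IntermediateField.mem_bot.1 hx
  have h0 : 0 < nv 3 γ (3 : ℕ) := (nv 3 γ).pos (Nat.cast_ne_zero.2 three_ne_zero)
  have h1 : nv 3 γ (r : Qb) ^ 2 = nv 3 γ (3 : ℕ) := by
    rw [eq_ratCast] at e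
    rw [e, ← map_pow, show (w3 - w3 ^ 2) ^ 2 = -((3 : ℕ) : Qb) by
      push_cast
      linear_combination w3_spec + (w3 - 2) * w3_cube, AbsoluteValue.map_neg]
  have hr : r ≠ 0 := by
    rintro rfl
    rw [← h1] at h0
    simp at h0
  obtain ⟨m, hm⟩ := v_rat (nv_na 3 γ) Nat.prime_three (nv_lt 3 γ) hr
  rw [hm, ← zpow_natCast, ← zpow_mul] at h1
  have h2 := zpow_right_injective₀ h0 (nv_lt 3 γ).ne (h1.trans (zpow_one _).symm)
  omega

theorem LOC_pf (hTAM : TAM_st) (hKAP : KAP_st) : LOC_st := by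
  refine ⟨fun l hl γ φ a h3 hφ hk ha hc he => ?_, fun l _ γ φ h2 hφ hk => ?_,
    fun l _ γ h1 g hg => ?_, three_SLOC⟩
  · obtain ⟨hI, ⟨τ₀, h0, h1⟩, h2⟩ := hTAM l γ h3
    obtain ⟨k1, k2, -⟩ := hKAP.1 l (Nat.cast_ne_zero.2 hl.out.ne_zero)
    have k3 : Adt (Ine l γ) (kum l) :=
      (tc_gk hI).1 fun g _ j _ => tc_true.2 k1 g trivial j trivial
    have h4 := h2 τ₀ h0 (by rw [h1]; decide) (ZMod 3) (fun g => a g - a τ₀ * kum l g) 1
      (fun g hg j hj => by simp only [ha g hg j hj, k3 g hg j hj]; ring)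
      (hc.map₂ (k2.mono le_top) fun x y => x - a τ₀ * y)
      (fun u _ => by
        generalize a u - a τ₀ * kum l u = x
        revert x
        decide) (by simp only [h1, mul_one, sub_self])
    have h5 := h4 _ (Ine_conj hφ h0)
    simp only [he τ₀ h0, (tc_true.2 k1).conj (g := τ₀) (j := φ) trivial (hI h0) trivial, sg_true,
      ep_neg hk, h1] at h5
    have h6 : a τ₀ = 0 := by
      revert h5
      generalize a τ₀ = x
      revert x
      decide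
    intro τ hτ
    simpa only [h6, zero_mul, sub_zero] using h4 τ hτ
  · have := frob_SLOC (by omega) hφ
    rw [h2, mem_GK'.1 hk] at this
    exact w3_sq_ne.2 this.symm
  · obtain ⟨⟨φ, hφ⟩, h2⟩ := R.FRO_ok l γ
    have h3 : φ ∈ GK := mem_GK'.2 (by rw [frob_SLOC (by omega) hφ, h1, pow_one])
    obtain ⟨i, τ, h4, h5⟩ := (h2 φ hφ).2.2.2.1 GK GK_on g hg
    rwa [GK.mul_mem_cancel_left (GK.inv_mem (GK.mul_mem (GK.pow_mem h3 i)
      (Ine_GK γ (by omega) h4)))] at h5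

end Pool.Agent.MP_e23604_nt.S

end

section

set_option autoImplicit false

open NumberField IsDedekindDomain Module Filter Topology
open scoped Classical

namespace Pool.Agent.MP_e23604_nt.S

open B R Pool.Agent.MP_f3cd89_nt

theorem rel_SDIM (s t : Fin 3 → ZMod 3) :
    ∃ c : Fin 3 → ZMod 3, c ≠ 0 ∧ ∑ i, c i * s i = 0 ∧ ∑ i, c i * t i = 0 := by
  obtain ⟨x, y, hxy, e⟩ := Fintype.exists_ne_map_eq_of_card_lt
    (fun c : Fin 3 → ZMod 3 => ((∑ i, c i * s i, ∑ i, c i * t i) : ZMod 3 × ZMod 3))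
    (by simp [ZMod.card])
  obtain ⟨e1, e2⟩ := Prod.ext_iff.1 e
  refine ⟨x - y, sub_ne_zero.2 hxy, ?_, ?_⟩
  · simp only [Pi.sub_apply, sub_mul, Finset.sum_sub_distrib]
    exact sub_eq_zero.2 e1
  · simp only [Pi.sub_apply, sub_mul, Finset.sum_sub_distrib]
    exact sub_eq_zero.2 e2

theorem kum_mul_SDIM (hKAP : KAP_st) {r r' : ℚ} (h : r ≠ 0) (h' : r' ≠ 0) {g : GQ} (hg : g ∈ GK) :
    kum (r * r') g = kum r g + kum r' g := by
  obtain ⟨t, ht⟩ := hKAP.2.2.1 r r' h h'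
  rw [ht, ep_pos hg, sub_self, zero_mul, add_zero]

theorem kum_pow_SDIM (hKAP : KAP_st) {r : ℚ} (h : r ≠ 0) {g : GQ} (hg : g ∈ GK) (i : ℕ) :
    kum (r ^ i) g = i * kum r g := by
  induction i with
  | zero =>
    have := (hKAP.2.2.2.1 1 one_ne_zero g hg).1
    rw [one_pow] at this
    rw [pow_zero, this, Nat.cast_zero, zero_mul]
  | succ i ih =>
    rw [pow_succ, kum_mul_SDIM hKAP (pow_ne_zero _ h) h hg, ih]
    push_cast
    ring

theorem DIM_pf (hKUM : KUM_st) (hKAP : KAP_st) (hLO3 : LO3_st) (hPSI : PSI_st) : DIM_st := by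
  refine ⟨fun a ha => ?_, fun a ha => ?_⟩
  · obtain ⟨ψ, hψ, -⟩ := hPSI.2
    obtain ⟨⟨φ, hφ⟩, hF⟩ := R.FRO_ok 3 1
    choose t ht using fun i => hLO3 1 (a i) ψ (ha i).1 (ha i).2 (hψ.add.mono le_top)
      (hψ.lc.mono le_top) hψ.ram
    obtain ⟨c, hc, h1, h2⟩ := rel_SDIM t fun i => a i φ
    refine ⟨c, hc, fun g hg => (hF φ hφ).2.2.2.2 (ZMod 3) (fun g => ∑ i, c i * a i g) ?_ ?_ ?_ h2
      g hg.1⟩
    · intro x hx y hy
      rw [← Finset.sum_add_distrib]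
      exact Finset.sum_congr rfl fun i _ => by rw [(ha i).1 x hx y hy, mul_add]
    · simp only [Fin.sum_univ_three]
      exact ((ha 0).2.map₂ (ha 1).2 fun x y => c 0 * x + c 1 * y).map₂ (ha 2).2
        fun x y => x + c 2 * y
    · intro τ hτ
      simp only [ht _ τ hτ, ← mul_assoc]
      rw [← Finset.sum_mul, h1, zero_mul]
  · have key : ∀ i, ∃ u v : ZMod 3, ∀ g ∈ Dec (nv 3 1) ⊓ GK,
        a i g = u * kum 3 g + v * kum 2 g := by
      intro i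
      obtain ⟨r, ρ, hr, hρ, h1⟩ := hKUM.2.1 3 1 (a i) (ha i).1 (ha i).2
      obtain ⟨t, h2⟩ := hKAP.2.1 r ρ hr hρ
      obtain ⟨u, v, h3⟩ := hKUM.2.2 1 r hr
      have hρ0 : ρ ≠ 0 := by
        rintro rfl
        rw [zero_pow three_ne_zero] at hρ
        exact hr (by exact_mod_cast hρ.symm)
      refine ⟨u, v, fun g hg => ?_⟩
      have h4 := w3_inj (mul_right_cancel₀ hρ0 ((h1 g hg.1).symm.trans (h2 g)))
      rw [ep_pos hg.2, sub_self, zero_mul, add_zero] at h4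
      rw [h4, h3 (2 ^ v) (Or.inl rfl) g hg]
      push_cast
      rw [kum_mul_SDIM hKAP (pow_ne_zero _ three_ne_zero) (pow_ne_zero _ two_ne_zero) hg.2,
        kum_pow_SDIM hKAP three_ne_zero hg.2, kum_pow_SDIM hKAP two_ne_zero hg.2]
    choose u v h using key
    obtain ⟨c, hc, h1, h2⟩ := rel_SDIM u v
    refine ⟨c, hc, fun g hg => ?_⟩
    simp only [h _ g hg, mul_add, ← mul_assoc, Finset.sum_add_distrib]
    rw [← Finset.sum_mul, ← Finset.sum_mul, h1, h2, zero_mul, zero_mul, add_zero]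

end Pool.Agent.MP_e23604_nt.S

end

section

set_option autoImplicit false

open NumberField IsDedekindDomain Module Filter Topology
open scoped Classical

namespace Pool.Agent.MP_e23604_nt.S

open B R Pool.Agent.MP_f3cd89_nt

theorem one_SKW {b : GQ → ZMod 3} (h : Adt ⊤ b) : b 1 = 0 := by
  have := h 1 trivial 1 trivial
  rw [mul_one] at this
  linear_combination -this

theorem inv_SKW {b : GQ → ZMod 3} (h : Adt ⊤ b) (g : GQ) : b g⁻¹ = -b g := by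
  have := h g trivial g⁻¹ trivial
  rw [mul_inv_cancel, one_SKW h] at this
  linear_combination -this

theorem conj_SKW {b : GQ → ZMod 3} (h : Adt ⊤ b) (g τ : GQ) : b (g * τ * g⁻¹) = b τ := by
  rw [h _ trivial _ trivial, h _ trivial _ trivial, inv_SKW h]
  ring

theorem three_SKW (x : ZMod 3) : 3 ^ 1 • x = 0 := by
  revert x
  decide

theorem top_SKW {b : GQ → ZMod 3} (h : Adt ⊤ b) (hc : Lc ⊤ b)
    (h0 : ∀ (l : ℕ) [Fact l.Prime], ∀ τ ∈ Ine l 1, b τ = 0) (g : GQ) : b g = 0 := by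
  let K : Subgroup GQ :=
    { carrier := {g | b g = 0}
      one_mem' := one_SKW h
      mul_mem' := fun {x y} hx hy => by
        change b (x * y) = 0
        rw [h _ trivial _ trivial, show b x = 0 from hx, show b y = 0 from hy, add_zero]
      inv_mem' := fun {x} hx => by
        change b x⁻¹ = 0
        rw [inv_SKW h, show b x = 0 from hx, neg_zero] }
  have hn : K.Normal := ⟨fun n hn g => (conj_SKW h g n).trans hn⟩
  have hK : K = ⊤ := by
    obtain ⟨N, h1, h2⟩ := hc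
    refine MP_f68ac8_nt.eq_top_of_open K
      (Filter.mem_of_superset (h1.2.mem_nhds (one_mem N)) fun x hx => ?_) fun P _ τ hτ => ?_
    · exact (h2 1 trivial x trivial (by simpa using hx)).symm.trans (one_SKW h)
    · obtain ⟨l, hl, h'⟩ := MP_f68ac8_nt.exists_prime_mem P
      have := Fact.mk hl
      obtain ⟨γ, rfl⟩ := exists_cen l P h'
      have h3 : τ ∈ Ine l (1 * γ) := by
        rw [one_mul]
        exact ine_iff.2 hτ
      exact (conj_SKW h γ τ).symm.trans (h0 l _ ((mem_Ine_conj l 1 γ τ).1 h3))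
  exact (hK ▸ Subgroup.mem_top g : g ∈ K)

theorem sum_SKW (S : Finset ℕ) (u : ℕ → ZMod 3) (ψ : ℕ → GQ → ZMod 3)
    (h : ∀ l ∈ S, Adt ⊤ (ψ l) ∧ Lc ⊤ (ψ l)) :
    Adt ⊤ (fun g => ∑ l ∈ S, u l * ψ l g) ∧ Lc ⊤ fun g => ∑ l ∈ S, u l * ψ l g := by
  refine ⟨fun g _ j _ => ?_, ?_⟩
  · rw [← Finset.sum_add_distrib]
    exact Finset.sum_congr rfl fun l hl => by rw [(h l hl).1 g trivial j trivial, mul_add]
  · induction S using Finset.induction_on with
    | empty => simpa using Lc.const ⊤ (0 : ZMod 3)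
    | insert l S hl ih =>
      simp only [Finset.sum_insert hl]
      exact (h l (Finset.mem_insert_self _ _)).2.map₂
        (ih fun q hq => h q (Finset.mem_insert_of_mem hq)) fun x y => u l * x + y

theorem tame_SKW (hTAM : TAM_st) (l : ℕ) [Fact l.Prime] (h3 : l ≠ 3) {a ψ : GQ → ZMod 3}
    (ha : Adt ⊤ a) (hc : Lc ⊤ a) (hψ : Cu l ψ) : ∃ t : ZMod 3, ∀ τ ∈ Ine l 1, a τ = t * ψ τ := by
  obtain ⟨-, ⟨τ0, h0, h1⟩, h2⟩ := hTAM l 1 h3
  have h4 := h2 τ0 h0 (h1 ▸ one_ne_zero) (ZMod 3)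
  have h5 : ψ τ0 ≠ 0 := fun e => by
    obtain ⟨τ, h6, h7⟩ := hψ.ram
    exact h7 (h4 ψ 1 (hψ.add.mono le_top) (hψ.lc.mono le_top) (fun u _ => three_SKW _) e τ h6)
  refine ⟨a τ0 / ψ τ0, fun τ hτ => sub_eq_zero.1 ?_⟩
  refine h4 (fun g => a g - a τ0 / ψ τ0 * ψ g) 1 (fun g _ j _ => ?_)
    ((hc.map₂ hψ.lc fun x y => x - a τ0 / ψ τ0 * y).mono le_top) (fun u _ => three_SKW _) ?_ τ hτ
  · simp only [ha g trivial j trivial, hψ.add g trivial j trivial]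
    ring
  · simp only [div_mul_cancel₀ _ h5, sub_self]

theorem KW_pf (hPSI : PSI_st) (hLO3 : LO3_st) (hLOC : LOC_st) (hTAM : TAM_st) : KW_st := by
  intro a T ψ ha hc hT hψ h0
  have hp : ∀ l ∈ insert 3 T, l.Prime := fun l hl => by
    rcases Finset.mem_insert.1 hl with rfl | hl
    exacts [Nat.prime_three, (hT l hl).1]
  have h1 : ∀ l : ℕ, ∃ t : ZMod 3, ∀ [Fact l.Prime], l ∈ insert 3 T →
      ∀ τ ∈ Ine l 1, a τ = t * ψ l τ := fun l => by
    by_cases hl : l ∈ insert 3 T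
    · have := Fact.mk (hp l hl)
      rcases eq_or_ne l 3 with rfl | h3
      · obtain ⟨t, ht⟩ := hLO3 1 a (ψ 3) (ha.mono le_top) (hc.mono le_top)
          ((hψ 3 hl).add.mono le_top) ((hψ 3 hl).lc.mono le_top) (hψ 3 hl).ram
        exact ⟨t, fun _ => ht⟩
      · obtain ⟨t, ht⟩ := tame_SKW hTAM l h3 ha hc (hψ l hl)
        exact ⟨t, fun _ => ht⟩
    · exact ⟨0, fun h => absurd h hl⟩
  choose u hu using h1
  obtain ⟨h2, h3⟩ := sum_SKW (insert 3 T) u ψ fun l hl =>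
    have := Fact.mk (hp l hl)
    ⟨(hψ l hl).add, (hψ l hl).lc⟩
  have hb : Adt ⊤ fun g => a g - ∑ l ∈ insert 3 T, u l * ψ l g := fun g _ j _ => by
    have := h2 g trivial j trivial
    simp only at this ⊢
    rw [this, ha g trivial j trivial]
    ring
  have hb' : Lc ⊤ fun g => a g - ∑ l ∈ insert 3 T, u l * ψ l g := hc.map₂ h3 fun x y => x - y
  refine ⟨u, fun g => sub_eq_zero.1 (top_SKW hb hb' (fun l hl τ hτ => ?_) g)⟩
  have h4 : ∀ q ∈ insert 3 T, q ≠ l → u q * ψ q τ = 0 := fun q hq e => by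
    have := Fact.mk (hp q hq)
    rw [(hψ q hq).unr l 1 e.symm τ hτ, mul_zero]
  by_cases h5 : l ∈ insert 3 T
  · change a τ - _ = 0
    rw [Finset.sum_eq_single_of_mem l h5 h4, hu l h5 τ hτ, sub_self]
  · have h6 : l ≠ 3 := fun e => h5 (e ▸ Finset.mem_insert_self _ _)
    have h7 : l % 3 ≠ 0 := fun e =>
      h6 ((Nat.prime_dvd_prime_iff_eq Nat.prime_three hl.out).1 (Nat.dvd_of_mod_eq_zero e)).symm
    rcases (show l % 3 = 1 ∨ l % 3 = 2 by omega) with e | e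
    · change a τ - _ = 0
      rw [Finset.sum_eq_zero fun q hq => h4 q hq fun e' => h5 (e' ▸ hq),
        h0 l e (fun h => h5 (Finset.mem_insert_of_mem h)) τ hτ, sub_self]
    · obtain ⟨φ, hφ⟩ := (R.FRO_ok l 1).1
      exact hLOC.1 l 1 φ _ h6 hφ.1 (hLOC.2.1 l 1 φ e hφ) (hb.mono le_top) (hb'.mono le_top)
        (fun σ _ => conj_SKW hb φ σ) τ hτ

end Pool.Agent.MP_e23604_nt.S

end

section

set_option autoImplicit false

open NumberField IsDedekindDomain Module Filter Topology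
open scoped Classical

namespace Pool.Agent.MP_e23604_nt.S

open B R Pool.Agent.MP_f3cd89_nt

theorem car_SINV3 (s : Qb) (a b : ZMod 3) :
    s ^ a.val * s ^ b.val = (s ^ 3) ^ car a b * s ^ (a + b).val := by
  rw [← pow_add, ← pow_mul, ← pow_add, ZMod.val_add, car, Nat.div_add_mod]

theorem bd_SINV3 (s : Qb) (a b c d e : ZMod 3) :
    s ^ (-a).val * w3 ^ (-a * c).val *
      ((w3 ^ c.val * s) ^ (-b).val * w3 ^ (e * (-b * d)).val) =
      w3 ^ (a * (e * d)).val * (s ^ 3) ^ car (-a) (-b) *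
        (s ^ (-(a + b)).val * w3 ^ (-(a + b) * (c + e * d)).val) := by
  have h1 : w3 ^ (-a * c).val * (w3 ^ (c * -b).val * w3 ^ (e * (-b * d)).val) =
      w3 ^ (a * (e * d)).val * w3 ^ (-(a + b) * (c + e * d)).val := by
    rw [← w3_add, ← w3_add, ← w3_add]
    congr 2
    ring
  have h2 := car_SINV3 s (-a) (-b)
  rw [← neg_add] at h2
  rw [mul_pow, pow_val_mul_INVQ w3_cube]
  linear_combination (s ^ (-a).val * s ^ (-b).val) * h1 +
    (w3 ^ (a * (e * d)).val * w3 ^ (-(a + b) * (c + e * d)).val) * h2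

theorem INV3_pf (hKUM : KUM_st) (hKAP : KAP_st) : INV3_st := by
  intro l _ γ φ u κ hl hφ hu hu' hu0 hu1 hκ hκ' ⟨τ, hτ, hτ1⟩
  obtain ⟨r, ρ, hr, hρ, hrκ⟩ := hKUM.2.1 l γ κ hκ hκ'
  have hs : ρ ≠ 0 := fun h => by
    rw [h, zero_pow three_ne_zero] at hρ
    exact hr (by exact_mod_cast hρ.symm)
  obtain ⟨t, ht⟩ := hKAP.2.1 r ρ hr hρ
  have h6 := hKAP.2.2.2.2.1 l γ r hl hr τ hτ
  have h7 : κ τ = kum r τ := by
    have h8 := (hrκ τ (Ine_le l γ hτ)).symm.trans (ht τ)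
    rw [ep_pos (Ine_GK γ hl hτ), sub_self, zero_mul, add_zero] at h8
    exact w3_inj (mul_right_cancel₀ hs h8)
  have hv : ¬ (3 : ℤ) ∣ padicValRat l r * ((-u φ).val : ℤ) := by
    intro h
    have h9 := (ZMod.intCast_zmod_eq_zero_iff_dvd _ 3).2 (by exact_mod_cast h)
    rw [Int.cast_mul, Int.cast_natCast, ZMod.natCast_zmod_val] at h9
    have : Fact (Nat.Prime 3) := ⟨Nat.prime_three⟩
    rcases mul_eq_zero.1 h9 with h | h
    · rw [h, zero_mul] at h6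
      exact hτ1 (h7.trans h6)
    · exact hu1 (neg_eq_zero.1 h)
  refine ⟨_, hv, fun g => -u g, r, φ, hr, hφ, fun g hg h hh => ?_, hu'.map fun a => -a,
    fun σ hσ => ?_, ?_, ?_⟩
  · simp only [hu g hg h hh, neg_add]
  · simp only [hu0 σ hσ, neg_zero]
  · push_cast
    rfl
  refine cob_of_lc (β := fun g => ρ ^ (-u g).val * w3 ^ (-u g * κ g).val)
    (hu'.map₂ hκ' fun a c => ρ ^ (-a).val * w3 ^ (-a * c).val)
    (fun g _ => mul_ne_zero (pow_ne_zero _ hs) (pow_ne_zero _ w3_ne_zero)) fun g hg h hh => ?_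
  beta_reduce
  rw [map_mul, act_w3, map_pow, hrκ g hg, hu g hg h hh, hκ g hg h hh, ← hρ]
  exact bd_SINV3 _ _ _ _ _ _

end Pool.Agent.MP_e23604_nt.S

end

section

set_option autoImplicit false

open NumberField IsDedekindDomain Module Filter Topology
open scoped Classical

namespace Pool.Agent.MP_e23604_nt.S

open B R Pool.Agent.MP_f3cd89_nt

theorem nat_SUNB (C : ℕ → ℕ → ZMod 3) (M : ℕ)
    (hC : ∀ a b d, C a b + C (a + b) d = C b d + C a (b + d)) (hM : ∀ a, C a M = C a 0) :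
    ∃ B : ℕ → ZMod 3, ∀ a b, B a + B b = C a b + B ((a + b) % (3 * M)) := by
  obtain ⟨B, B0, B1⟩ : ∃ B : ℕ → ZMod 3, B 0 = C 0 0 ∧ ∀ a, B (a + 1) = B a + C 0 0 - C a 1 :=
    ⟨fun a => Nat.rec (C 0 0) (fun a r => r + C 0 0 - C a 1) a, rfl, fun _ => rfl⟩
  have h0 : ∀ a, C a 0 = C 0 0 := fun a => by
    have := hC a 0 0
    simp only [add_zero] at this
    exact add_right_cancel this
  have h1 : ∀ a b, B a + B b = C a b + B (a + b) := fun a b => by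
    induction b with
    | zero => rw [B0, h0 a, add_zero, add_comm]
    | succ b ih =>
      rw [← add_assoc, B1, B1]
      linear_combination ih + hC a b 1
  have h2 : ∀ a, B (a + 3 * M) = B a := fun a => by
    have e1 := h1 a M
    have e2 := h1 (a + M) M
    have e3 := h1 (a + M + M) M
    rw [hM, h0] at e1 e2 e3
    have h3 : (3 : ZMod 3) = 0 := rfl
    rw [show a + 3 * M = a + M + M + M by ring]
    linear_combination (B M - C 0 0) * h3 - e1 - e2 - e3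
  have h3 : ∀ k a, B (a + 3 * M * k) = B a := fun k => by
    induction k with
    | zero => simp
    | succ k ih => intro a; rw [mul_add, mul_one, ← add_assoc, h2, ih]
  refine ⟨B, fun a b => ?_⟩
  rw [h1, ← h3 ((a + b) / (3 * M)) ((a + b) % (3 * M)), Nat.mod_add_div]

theorem pow_SUNB {m : ℕ} {H : Subgroup GQ} {s : GQ → ZMod m} {φ : GQ} (hs : Adt H s) (hφ : φ ∈ H)
    (h1 : s φ = 1) (i : ℕ) : s (φ ^ i) = i := by
  induction i with
  | zero =>
    have := hs 1 H.one_mem 1 H.one_mem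
    rw [mul_one] at this
    rw [pow_zero, Nat.cast_zero]
    exact left_eq_add.1 this
  | succ i ih => rw [pow_succ, hs _ (H.pow_mem hφ i) _ hφ, ih, h1, Nat.cast_succ]

theorem UNB_pf (hLOC : LOC_st) : UNB_st := by
  intro l _ γ N c hl hN hI hc c1 c2
  have hG := hLOC.2.2.1 l γ hl
  obtain ⟨⟨φ, hφ⟩, hF⟩ := R.FRO_ok l γ
  obtain ⟨-, -, -, a4, -⟩ := hF φ hφ
  obtain ⟨i, hi⟩ := hN.2 φ (hG hφ.1)
  have hm : 3 * 3 ^ i ≠ 0 := by positivity
  have : NeZero (3 * 3 ^ i) := ⟨hm⟩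
  obtain ⟨s, s1, s2, s3, s4⟩ := unr_CTQ R.FRO_ok l γ φ hm hφ
  obtain ⟨B, hB⟩ := nat_SUNB (fun a b => c (φ ^ a) (φ ^ b)) (3 ^ i) (fun a b d => by
    have := hc (φ ^ a) (φ ^ b) (φ ^ d)
    rwa [ep_pos (hG (pow_mem hφ.1 a)), one_mul, ← pow_add, ← pow_add] at this) fun a =>
    (c1 _ _ trivial _ trivial (by simpa using hi)).symm
  have key : ∀ g ∈ Dec (nv l γ), (φ ^ (s g).val)⁻¹ * g ∈ N := fun g hg => by
    obtain ⟨N', n1, n2⟩ := s2
    obtain ⟨j, τ, hτ, e⟩ := a4 _ (hN.1.inf n1) g hg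
    have hτ' := Ine_le l γ hτ
    have e1 := n2 _ (mul_mem (pow_mem hφ.1 j) hτ') g hg e.2
    rw [s1 _ (pow_mem hφ.1 j) _ hτ', s3 τ hτ, add_zero, pow_SUNB s1 hφ.1 s4] at e1
    have e2 : φ ^ j = φ ^ (s g).val * (φ ^ 3 ^ i) ^ (3 * (j / (3 * 3 ^ i))) := by
      rw [← e1, ZMod.val_natCast, ← pow_mul, ← pow_add]
      congr 1
      rw [← mul_assoc, mul_comm (3 ^ i) 3, Nat.mod_add_div]
    have e3 := N.mul_mem (N.mul_mem (N.pow_mem hi (3 * (j / (3 * 3 ^ i)))) (hI hτ)) e.1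
    rw [e2] at e3
    simpa only [mul_inv_rev, mul_assoc, mul_inv_cancel_left] using e3
  refine ⟨fun g => B (s g).val, s2.map fun x => B x.val, fun g hg h hh => ?_⟩
  have e1 : c (φ ^ (s g).val) (φ ^ (s h).val) = c g h :=
    (c1 _ _ trivial _ trivial (key h hh)).trans (c2 h _ trivial _ trivial (key g hg))
  simp only [sg_true, ep_pos (hG hg), one_mul, s1 g hg h hh, ZMod.val_add]
  rw [hB, e1]

end Pool.Agent.MP_e23604_nt.S

end

section

set_option autoImplicit false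

open NumberField IsDedekindDomain Module Filter Topology
open scoped Classical

namespace Pool.Agent.MP_e23604_nt.S

open B R Pool.Agent.MP_f3cd89_nt

theorem prime_SAX3 (hCHEB : CHEB_st) (hKAP : KAP_st) (hNCU : NCU_st) (hLOC : LOC_st) (B : ℕ) :
    ∃ l : ℕ, B < l ∧ l.Prime ∧ l % 3 = 1 ∧ ¬ Cub l 3 := by
  obtain ⟨k1, k2, k3⟩ := hKAP.1 3 three_ne_zero
  have hT : Tl true ⊤ (kum 3) := ⟨tc_true.2 k1, k2⟩
  obtain ⟨N, hN, hm⟩ := hT.ker
  obtain ⟨g, hg, h0⟩ : ∃ g ∈ GK, kum 3 g ≠ 0 := by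
    by_contra hc
    push Not at hc
    have := (hNCU.2 1 1 1 (cbr 3) (by norm_num) (by rw [cbr_cube]; norm_num) fun g hg => by
      rw [k3, hc g hg.2]
      simp).1
    norm_num at this
  have ha : ∀ a ∈ GK, ∀ b, kum 3 (a * b) = kum 3 a + kum 3 b := fun a h b => by
    rw [k1 a trivial b trivial, ep_pos h, one_mul]
  have hi : kum 3 g⁻¹ = -kum 3 g := by rw [hT.1.inv trivial, sg_pos _ hg, one_mul]
  have h3 : (3 : ZMod 3) = 0 := rfl
  have c1 : g ^ 3 ∈ N := by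
    refine (hm _).2 ⟨GK.pow_mem hg 3, ?_⟩
    rw [pow_succ', sq, ha g hg, ha g hg]
    linear_combination kum 3 g * h3
  have c2 : ∀ h : GQ, h * g * h⁻¹ * g⁻¹ ∈ N ∨ h * g * h⁻¹ * g ∈ N := fun h => by
    have e1 : h * g * h⁻¹ ∈ GK := GK_on.1.conj_mem g hg h
    have e2 := hT.1.conj (g := g) (j := h) trivial hg trivial
    by_cases hh : h ∈ GK
    · refine Or.inl ((hm _).2 ⟨GK.mul_mem e1 (GK.inv_mem hg), ?_⟩)
      rw [ha _ e1, e2, hi, sg_pos _ hh, one_mul, add_neg_cancel]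
    · refine Or.inr ((hm _).2 ⟨GK.mul_mem e1 hg, ?_⟩)
      rw [ha _ e1, e2, sg_true, ep_neg hh, neg_one_mul, neg_add_cancel]
  obtain ⟨l, hl, hp, φ, hφ, h1, -⟩ := (hCHEB N g hN (fun e => h0 ((hm g).1 e).2) c1 c2).2 (B + 3)
  have h2 : φ ∈ GK ∧ kum 3 φ ≠ 0 := by
    rcases h1 with e | e
    · obtain ⟨e1, e2⟩ := (hm _).1 e
      refine ⟨(GK.mul_mem_cancel_left (GK.inv_mem hg)).1 e1, fun e3 => h0 ?_⟩
      rw [ha _ (GK.inv_mem hg), hi, e3, add_zero] at e2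
      exact neg_eq_zero.1 e2
    · obtain ⟨e1, e2⟩ := (hm _).1 e
      refine ⟨(GK.mul_mem_cancel_left hg).1 e1, fun e3 => h0 ?_⟩
      rwa [ha _ hg, e3, add_zero] at e2
  have h4 : l % 3 = 1 := (prime_mod hp.out (by omega)).resolve_right fun e =>
    hLOC.2.1 l 1 φ e hφ h2.1
  refine ⟨l, by omega, hp.out, h4, fun e => h2.2 ?_⟩
  exact_mod_cast (hKAP.2.2.2.2.2 l 1 φ 3 h4 hφ fun e' => by
    have := Nat.le_of_dvd three_pos e'
    omega).2 e

theorem sum_SAX3 {l : ℕ} [Fact l.Prime] {f : ZMod l → ZMod 3}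
    (hf : ∀ x y, x ≠ 0 → y ≠ 0 → f (x * y) = f x + f y) (m : ℕ) (hm : ¬ l ∣ m) :
    f m = ∑ q ∈ m.primeFactors, (m.factorization q : ZMod 3) * f q := by
  have h1 : f 1 = 0 := by
    have := hf 1 1 one_ne_zero one_ne_zero
    rw [mul_one] at this
    exact left_eq_add.1 this
  have key : ∀ m : ℕ, ¬ l ∣ m → f m = m.factorization.sum fun q e => (e : ZMod 3) * f q := by
    intro m
    induction m using Nat.recOnMul with
    | zero => exact fun h => absurd (dvd_zero l) h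
    | one => intro _; simp [h1]
    | prime p hp => intro _; rw [hp.factorization]; simp
    | mul a b iha ihb =>
      intro h
      have ha : ¬ l ∣ a := fun e => h (e.mul_right b)
      have hb : ¬ l ∣ b := fun e => h (e.mul_left a)
      have ne_zero_of_not_dvd : ∀ {c : ℕ}, ¬ l ∣ c → c ≠ 0 := fun hc e => hc (e.symm ▸ dvd_zero l)
      rw [Nat.factorization_mul (ne_zero_of_not_dvd ha) (ne_zero_of_not_dvd hb),
        Finsupp.sum_add_index' (fun _ => by simp) (fun _ _ _ => by push_cast; ring), ← iha ha,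
        ← ihb hb, Nat.cast_mul, hf _ _ (mt (ZMod.natCast_eq_zero_iff _ _).1 ha)
          (mt (ZMod.natCast_eq_zero_iff _ _).1 hb)]
  rw [key m hm, Finsupp.sum, Nat.support_factorization]

theorem AX3_pf (hPSI : PSI_st) (hCHEB : CHEB_st) (hKUM : KUM_st) (hKAP : KAP_st) (hNCU : NCU_st)
    (hLOC : LOC_st) : AX3_st := by
  intro m B t hm
  obtain ⟨l, hl, hp, h1, h2⟩ := prime_SAX3 hCHEB hKAP hNCU hLOC (B + m + 3)
  have := Fact.mk hp
  obtain ⟨ψ, f, hc, hf, hz, hF⟩ := hPSI.1 l h1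
  have hl3 : ¬ l ∣ 3 := fun e => by
    have := Nat.le_of_dvd three_pos e
    omega
  have hlm : ¬ l ∣ m := fun e => by
    have := Nat.le_of_dvd (Nat.pos_of_ne_zero hm) e
    omega
  have h3 : f (3 : ℕ) ≠ 0 := fun e =>
    h2 ((hz _ (mt (ZMod.natCast_eq_zero_iff _ _).1 hl3)).1 e)
  have h4 : ∀ a : ZMod 3, a ≠ 0 → a * a = 1 := by decide
  have c3 : Nat.Coprime l 3 := (Nat.Prime.coprime_iff_not_dvd hp).2 hl3
  have c9 : Nat.Coprime 9 l := (Nat.Coprime.pow_right 2 c3).symm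
  obtain ⟨a, a1, a2⟩ := Nat.chineseRemainder c9 1 m
  have ca : a.Coprime (9 * l) := Nat.Coprime.mul_right
    (by rw [Nat.Coprime, a1.gcd_eq]; norm_num)
    (by rw [Nat.Coprime, a2.gcd_eq]; exact ((Nat.Prime.coprime_iff_not_dvd hp).2 hlm).symm)
  obtain ⟨p, p1, p2, p3⟩ := Nat.forall_exists_prime_gt_and_modEq (q := 9 * l) (B + l)
    (mul_ne_zero (by norm_num) hp.ne_zero) ca
  have p9 : p ≡ 1 [MOD 9] := (p3.of_mul_right l).trans a1
  have pl : p ≡ m [MOD l] := (p3.of_mul_left 9).trans a2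
  obtain ⟨x, x1, x2⟩ : ∃ x : Qb, x ^ 3 = p ∧ Fix (Dec (nv 3 1)) x := by
    refine hKUM.1 3 1 _ p le_rfl (fun g _ => map_natCast g p) ?_
    obtain ⟨k, hk⟩ := p9.symm.dvd
    have e : (p : Qb) - 1 = 3 ^ 2 * (k : Qb) := by exact_mod_cast congrArg (Int.cast : ℤ → Qb) hk
    have v1 : nv 3 1 3 < 1 := by exact_mod_cast nv_lt 3 1
    have v0 : 0 < nv 3 1 3 := (nv 3 1).pos three_ne_zero
    have v2 : nv 3 1 k ≤ 1 := (nv_na 3 1).apply_intCast_le_one
    rw [e, show (27 : Qb) = 3 ^ 3 by norm_num, map_mul, map_pow, map_pow]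
    calc _ ≤ (nv 3 1 3 ^ 2 * 1) ^ 2 := by gcongr
      _ = nv 3 1 3 ^ 3 * nv 3 1 3 := by ring
      _ < _ := mul_lt_of_lt_one_right (by positivity) v1
  have hm' : (m : Qb) ≠ 0 := Nat.cast_ne_zero.2 hm
  obtain ⟨y, y1, y2⟩ : ∃ y : Qb, y ^ 3 = p / m ∧ Fix (Dec (nv l 1)) y := by
    refine hKUM.1 l 1 _ (p / m) le_rfl (fun g _ => by rw [map_div₀, map_natCast, map_natCast]) ?_
    obtain ⟨k, hk⟩ := pl.symm.dvd
    have e0 : (p : Qb) - m = l * (k : Qb) := by exact_mod_cast congrArg (Int.cast : ℤ → Qb) hk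
    have e : (p : Qb) / m - 1 = l * (k : Qb) / m := by rw [← e0, sub_div, div_self hm']
    have v1 := nv_lt l 1
    have v2 : nv l 1 k ≤ 1 := (nv_na l 1).apply_intCast_le_one
    have v3 : nv l 1 m = 1 := by
      exact_mod_cast v_coprime (nv_na l 1) hp v1 (n := m) (by exact_mod_cast hlm)
    have v4 : nv l 1 3 = 1 := by
      exact_mod_cast v_coprime (nv_na l 1) hp v1 (n := 3) (by exact_mod_cast hl3)
    rw [e, show (27 : Qb) = 3 ^ 3 by norm_num, map_pow, v4, one_pow, map_div₀, v3, div_one,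
      map_mul]
    exact pow_lt_one₀ (by positivity)
      ((mul_le_of_le_one_right ((nv l 1).nonneg _) v2).trans_lt v1) two_ne_zero
  refine ⟨l, p, this, Fact.mk p2, fun g => t * f (3 : ℕ) * ψ g, fun q => t * f (3 : ℕ) * f q, x, y,
    by omega, by omega, by omega, h1, p9, fun g hg j hj => by
      simp only [hc.add g hg j hj, mul_add],
    hc.lc.map _, fun q _ γ hq => ⟨fun τ hτ => by simp only [hc.unr q γ hq τ hτ, mul_zero],
      fun φ hφ => by simp only [hF q γ φ hq hφ]⟩,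
    by simp only [mul_assoc, h4 _ h3, mul_one], ?_, x1, x2,
    by rw [y1, div_mul_cancel₀ _ hm'], y2⟩
  have e : (p : ZMod l) = m := (ZMod.natCast_eq_natCast_iff _ _ _).2 pl
  simp only [e, sum_SAX3 hf m hlm, Finset.mul_sum]
  exact Finset.sum_congr rfl fun _ _ => by ring

end Pool.Agent.MP_e23604_nt.S

end
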