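import Pool.Agent.Mg.Fe23604m.Ga474eb
import Pool.Agent.Mg.Fe23604m.G68d450
import Pool.Agent.Mg.Fe23604m.G9f00c9
import Pool.Agent.Mg.Fe23604m.G19f17f
import Pool.Agent.Mg.Fe23604m.Gc4cdb1

set_option linter.all false

section

/-!
Points in the kernel of reduction: sizes of multiples, division, fixed points.
-/

set_option autoImplicit false

open Finset QuadraticAlgebra
open scoped Classical

namespace Pool.Agent.MP_e23604_nt.W

open B R S

theorem step_XZEQ (H : H5) {V : Plc} {P : Pt} (h : E1 V.v P) (b : Zw) :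
    (V.v (zz P) ^ 3 < V.v (io b) → V.v (zz (b • P)) = V.v (io b) * V.v (zz P)) ∧
    (V.v (zz P) ^ 3 ≤ V.v (io b) → V.v (zz (b • P)) ≤ V.v (io b) * V.v (zz P)) := by
  have h1 := (H.FML V).2.1 b P h
  have e : zz (b • P) = io b * zz P + (zz (b • P) - io b * zz P) := by ring
  rw [pow_succ] at h1
  refine ⟨fun k => ?_, fun k => ?_⟩
  · by_cases h0 : zz P = 0
    · rw [(zz_zero_iff h).1 h0, smul_zero, zz_zero, map_zero, mul_zero]
    rw [e, bLocA_add_eq V.na, map_mul]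
    rw [map_mul]
    exact h1.trans_lt (mul_lt_mul_of_pos_right k (V.v.pos h0))
  · rw [e]
    exact bLocA_add_le V.na (map_mul V.v _ _).le
      (h1.trans (mul_le_mul_of_nonneg_right k (V.v.nonneg _)))

theorem pow_XZEQ (H : H5) {V : Plc} (b : Zw) (i : ℕ) : ∀ P : Pt, E1 V.v P →
    (V.v (zz P) ^ 3 < V.v (io b) → V.v (zz (b ^ i • P)) = V.v (io b) ^ i * V.v (zz P)) ∧
    (V.v (zz P) ^ 3 ≤ V.v (io b) → V.v (zz (b ^ i • P)) ≤ V.v (io b) ^ i * V.v (zz P)) := by
  induction i with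
  | zero => intro P _; simp
  | succ i ih =>
    intro P h
    have h1 := pow_le_pow_left₀ (V.v.nonneg _) (E1m h b).2.2 3
    have h2 := ih _ (E1m h b).1
    rw [pow_succ b, mul_smul, pow_succ (V.v (io b)), mul_assoc]
    refine ⟨fun k => ?_, fun k => (h2.2 (h1.trans k)).trans ?_⟩
    · rw [h2.1 (h1.trans_lt k), (step_XZEQ H h b).1 k]
    · exact mul_le_mul_of_nonneg_left ((step_XZEQ H h b).2 k) (pow_nonneg (V.v.nonneg _) _)

theorem ZEQ_pf (H : H5) : ZEQ_st := by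
  intro V ϖ P hϖ hV h
  have hP := H.PLK.2.2.1 V ϖ hϖ hV
  have key : ∀ s : Zw, s ≠ 0 → ∃ (i : ℕ) (Q : Pt), E1 V.v Q ∧ V.v (zz Q) = V.v (zz P) ∧
      s • P = ϖ ^ i • Q ∧ V.v (io s) = V.v (io ϖ) ^ i := fun s hs => by
    obtain ⟨i, a, ha, rfl⟩ := WfDvdMonoid.max_power_factor hs hϖ.irreducible
    have h1 := not_Ov.1 fun e => ha ((hP.1 a).1 e)
    refine ⟨i, a • P, (E1m h a).1, ?_, mul_smul _ _ _, by simp [h1]⟩
    rw [(step_XZEQ H h a).1, h1, one_mul]
    rw [h1]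
    exact pow_lt_one₀ (V.v.nonneg _) (zz_lt h) three_ne_zero
  refine ⟨fun k s => ?_, fun k s => ?_, fun χ hχ => ?_⟩
  · by_cases hs : s = 0
    · simp [hs, zz_zero]
    obtain ⟨i, Q, h1, h2, h3, h4⟩ := key s hs
    rw [h3, h4, ← h2]
    exact (pow_XZEQ H ϖ i Q h1).1 (h2 ▸ k)
  · by_cases hs : s = 0
    · simp [hs, zz_zero]
    obtain ⟨i, Q, h1, h2, h3, h4⟩ := key s hs
    rw [h3, h4, ← h2]
    exact (pow_XZEQ H ϖ i Q h1).2 (h2 ▸ k)
  · by_cases h0 : zz P = 0
    · simp [h0]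
    obtain ⟨k, hk⟩ := hP.2.2.2.2.2.2 (zz P ^ 3) (pow_ne_zero _ h0) fun g hg => by
      have := zz_eta (χ := χ) g P
      rw [hχ g (V.I_le hg)] at this
      conv_rhs => rw [this, mul_pow, ← pow_mul, mul_comm _ 3, pow_mul, w3_cube, one_pow, one_mul]
      exact map_pow g _ _
    have p0 := V.v.pos (io_ne hϖ.ne_zero)
    rw [map_pow] at hk
    have h1 := pow_lt_one₀ (V.v.nonneg _) (zz_lt h) three_ne_zero
    rw [hk, zpow_lt_one_iff_right_of_lt_one₀ p0 hV] at h1
    rw [hk]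
    simpa using zpow_le_zpow_right_of_le_one₀ p0 hV.le (show (1 : ℤ) ≤ k from h1)

theorem DVF_pf (H : H5) : DVF_st := by
  intro χ V b n s R hb h1 h2 h3 h4
  obtain ⟨R', ⟨k1, k2, k3⟩, hu⟩ := H.DIV V b n s R hb h1 h3 h4
  refine ⟨R', k1, fun g hg => hu _ ⟨(E1_eta hg k1).1, ?_, ?_⟩, k2, k3⟩
  · rw [← eta_smul χ hg.2, k2, h2 g hg]
  · rwa [(E1_eta hg k1).2]

theorem FXP_pf (H : H5) : FXP_st := by
  intro χ h1 h2
  obtain ⟨δ, h0, hδ⟩ := ((Lib.KUQ 3).2 w3 GK w3_prim fun g hg => mem_GK'.1 hg).1 (fun g => -χ g)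
    (fun g hg g' hg' => by simp only [h1 g hg g' hg', neg_add])
    (h2.imp fun N hN => ⟨hN.1, fun g hg g' hg' e => congrArg Neg.neg (hN.2 g hg g' hg' e)⟩)
  refine ⟨δ, h0, fun V b hb => ?_⟩
  obtain ⟨P, ⟨k1, k2⟩, hu⟩ := (H.FML V).2.2 _ hb
  refine ⟨P, k1, fun g hg => hu _ ⟨(E1_eta hg k1).1, ?_⟩, k2⟩
  rw [zz_eta, k2, map_mul, io_fix hg.2, hδ g hg.2, mul_left_comm, ← mul_assoc (w3 ^ _), ← w3_add,
    add_neg_cancel, ZMod.val_zero, pow_zero, one_mul]

theorem den_XZEQ (x : Qb) : ∃ B : ℕ, B ≠ 0 ∧ ∀ V : Plc, V.v x * V.v B ≤ 1 := by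
  obtain ⟨y, h0, hy⟩ := ((IsFractionRing.isAlgebraic_iff ℤ ℚ Qb).2
    (Algebra.IsAlgebraic.isAlgebraic x)).exists_integral_multiple
  refine ⟨y.natAbs, Int.natAbs_ne_zero.2 h0, fun V => ?_⟩
  have := v_int V.na hy
  rw [zsmul_eq_mul, map_mul, mul_comm] at this
  rw [Nat.cast_natAbs]
  rcases abs_choice y with e | e <;> rw [e]
  · exact this
  · rwa [Int.cast_neg, V.v.map_neg]

theorem ALG_pf : ALG_st := by
  intro x hx
  obtain ⟨B, h0, h⟩ := den_XZEQ x
  obtain ⟨B', h0', h'⟩ := den_XZEQ x⁻¹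
  refine ⟨B * B', mul_ne_zero h0 h0', fun V => ⟨?_, ?_⟩⟩
  · have := h' V
    rw [map_inv₀, inv_mul_le_iff₀ (V.v.pos hx), mul_one] at this
    rw [Nat.cast_mul]
    exact (bLocA_mul_le (bLocA_nat V.na B)).trans this
  · rw [Nat.cast_mul, map_mul, ← mul_assoc]
    exact mul_le_one₀ (h V) (V.v.nonneg _) (bLocA_nat V.na B')

end Pool.Agent.MP_e23604_nt.W

end

section

/-!
The point attached to three squares whose roots add up to zero.
-/

set_option autoImplicit false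

open Finset QuadraticAlgebra
open scoped Classical

namespace Pool.Agent.MP_e23604_nt.Un

open B R S W

/-- the point attached to `a`, `b`, `c` and a cube root of their product -/
noncomputable def tp (a b c d : Qb) : Pt :=
  pt 0 1 (-(c - a - b) / (2 * d)) ((b - a - c) / (2 * c))

/-- three squares whose roots add up to zero -/
structure Ok (a b c d : Qb) : Prop where
  ne : d ≠ 0
  pr : a * b * c = d ^ 3
  qd : a ^ 2 + b ^ 2 + c ^ 2 = 2 * (a * b + b * c + c * a)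

section

variable {a b c d : Qb}

theorem Ok.rot (h : Ok a b c d) : Ok c a b d :=
  ⟨h.ne, by linear_combination h.pr, by linear_combination h.qd⟩

theorem Ok.swap (h : Ok a b c d) : Ok b a c d :=
  ⟨h.ne, by linear_combination h.pr, by linear_combination h.qd⟩

theorem Ok.n3 (h : Ok a b c d) : c ≠ 0 := fun e => pow_ne_zero 3 h.ne (by rw [← h.pr, e, mul_zero])

theorem Ok.on (h : Ok a b c d) : On 0 1 (-(c - a - b) / (2 * d)) ((b - a - c) / (2 * c)) := by
  have h1 := h.n3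
  have h2 := h.rot.n3
  have h3 := h.rot.rot.n3
  rw [on_iff, div_pow _ _ 3, mul_pow, ← h.pr, eq_div_iff (by simp [h1, h2, h3])]
  have : (b - a - c) / (2 * c) * (2 * c) = b - a - c := div_mul_cancel₀ _ (by simp [h1])
  generalize (b - a - c) / (2 * c) = y at this
  apply mul_left_cancel₀ h1
  linear_combination 2 * a * b * (y * (2 * c) + (b - a - c) + 2 * c) * this +
    (2 * a * b - c * (a + b - c)) * h.qd

theorem Ok.neg (h : Ok a b c d) : -tp a b c d = tp b a c d := by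
  have h1 := h.n3
  rw [tp, pt_neg G01 h.on, tp]
  congr 1
  · ring
  · field_simp
    push_cast
    ring

theorem Ok.add (h : Ok a b c d) : tp a b c d + T0 = tp c a b d := by
  have h1 := h.n3
  have h2 := h.rot.n3
  have h3 := h.rot.rot.n3
  have h4 := h.ne
  have h5 : a + b - c ≠ 0 := fun e => mul_ne_zero h3 h2 (by
    linear_combination (a + b - c) / 4 * e - h.qd / 4)
  refine (pt_add_ne G01 (l := d * (b + c - a) / (2 * b * c)) h.on on_T ?_ ?_ ?_ ?_).2
  · exact div_ne_zero (fun e => h5 (by linear_combination e)) (by simp [h4])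
  · field_simp
    linear_combination -h.qd
  · field_simp
    push_cast
    linear_combination (b + c - a) ^ 2 * h.pr - a * b * c * h.qd
  · field_simp
    push_cast
    ring

theorem w_pow_pt_T {x y : Qb} (h : On 0 1 x y) (i : ℕ) :
    On 0 1 (w3 ^ i * x) y ∧ (ω : Zw) ^ i • pt 0 1 x y = pt 0 1 (w3 ^ i * x) y := by
  induction i with
  | zero => simpa using h
  | succ i ih =>
    rw [pow_succ', pow_succ', mul_smul, ih.2, w_pt ih.1, mul_assoc]
    exact ⟨on_w ih.1, rfl⟩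

theorem Ok.scale (h : Ok a b c d) {u d' : Qb} {i : ℕ} (hu : u ≠ 0) (e : u * d = w3 ^ i * d') :
    tp (u * a) (u * b) (u * c) d' = (ω : Zw) ^ i • tp a b c d := by
  have h1 := h.n3
  have h4 := h.ne
  have h5 : d' ≠ 0 := fun e' => mul_ne_zero hu h4 (by rw [e, e', mul_zero])
  rw [tp, tp, (w_pow_pt_T h.on i).2]
  congr 1
  · field_simp
    linear_combination -(c - a - b) * e
  · field_simp

theorem Ok.gal (h : Ok a b c d) (g : GQ) : gal g (tp a b c d) = tp (g a) (g b) (g c) (g d) := by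
  rw [tp, gal_pt g h.on, tp]
  simp only [map_div₀, map_neg, map_sub, map_mul, map_ofNat]

end

theorem w_pow_T0 (i : ℕ) : (ω : Zw) ^ i • T0 = T0 := by
  induction i with
  | zero => simp
  | succ i ih => rw [pow_succ, mul_smul, w_T0, ih]

theorem w3_mod_T {i j : ℕ} (h : i % 3 = j % 3) : w3 ^ i = w3 ^ j := by
  rw [pow_eq_pow_mod i w3_cube, h, ← pow_eq_pow_mod j w3_cube]

theorem ny_eq (k : ℕ) (C : AddSubgroup Pt) :
    ny k C = tp (nE k C 0) (nE k C 1) (nE k C 2) (nB C) := rfl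

theorem ok_of (h : NON_st) (k : ℕ) {C : AddSubgroup Pt} (hC : ND C) :
    Ok (nE k C 0) (nE k C 1) (nE k C 2) (nB C) := by
  obtain ⟨-, -, h1, h2, -, h3, h4, -⟩ := h k C hC
  refine ⟨h2, h3, ?_⟩
  have : nY k C * (2 * nE k C 2) = nE k C 1 - nE k C 0 - nE k C 2 :=
    div_mul_cancel₀ _ (by simp [h1])
  linear_combination 4 * nE k C 2 * h4 -
    (nY k C * (2 * nE k C 2) + (nE k C 1 - nE k C 0 - nE k C 2)) * this

theorem nE_add (k : ℕ) (C : AddSubgroup Pt) (i : ℕ) : nE k C (i + 3) = nE k C i := by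
  rw [nE, nE, w3_mod_T (i := i + 3) (j := i) (by omega),
    w3_mod_T (i := i + 3 + k) (j := i + k) (by omega), mul_add,
    w3_mod_T (i := _ + _ * 3) (j := nj k * cd C * i) (by omega)]

theorem nj_two (k : ℕ) : nj (2 * k) = nj k := by
  simp only [nj, show 3 ∣ 2 * k ↔ 3 ∣ k by omega]

/-! ### Images of subgroups -/

section

variable {C : AddSubgroup Pt} {f : Pt →+ Pt}

theorem els_map (h : (C : Set Pt).Finite) (f : Pt →+ Pt) :
    (C.map f : Set Pt).Finite ∧ els (C.map f) = (els C).image f := by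
  have h1 : (C.map f : Set Pt).Finite := h.image f
  refine ⟨h1, Finset.ext fun T => ?_⟩
  simp only [mem_els h1, mem_image, mem_els h, AddSubgroup.mem_map]

theorem map_nd (h : ND C) (hf : ∀ T ∈ C, f T = 0 → T = 0) :
    ND (C.map f) ∧ cd (C.map f) = cd C ∧
      ∀ z, kk (C.map f) z = ∏ T ∈ (els C).erase 0, (z - xc (f T)) := by
  have hi : Set.InjOn f (els C) := fun S hS T hT e => sub_eq_zero.1 (hf _
    (C.sub_mem ((mem_els h.fin).1 hS) ((mem_els h.fin).1 hT)) (by rw [map_sub, e, sub_self]))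
  have h2 : cd (C.map f) = cd C := by rw [cd, (els_map h.fin f).2, card_image_of_injOn hi, cd]
  refine ⟨⟨(els_map h.fin f).1, h2 ▸ h.c3⟩, h2, fun z => ?_⟩
  have : (els (C.map f)).erase 0 = ((els C).erase 0).image f := by
    ext T
    simp only [(els_map h.fin f).2, mem_erase, mem_image, mem_els h.fin]
    exact ⟨fun ⟨h0, S, hS, e⟩ => ⟨S, ⟨fun e' => h0 (by rw [← e, e', map_zero]), hS⟩, e⟩,
      fun ⟨S, hS, e⟩ => ⟨fun e' => hS.1 (hf S hS.2 (e.trans e')), S, hS.2, e⟩⟩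
  rw [kk, this, prod_image (hi.mono (by simp))]

theorem card_erase (h : ND C) : ((els C).erase 0).card = cd C - 1 :=
  card_erase_of_mem ((mem_els h.fin).2 C.zero_mem)

theorem cd_smul_T (h : ND C) {T : Pt} (hT : T ∈ C) : cd C • T = 0 := by
  have : Finite C := h.fin
  have e : cd C = Nat.card C := by
    rw [cd, els, dif_pos h.fin, ← Set.ncard_eq_toFinset_card _ h.fin]
    rfl
  exact e ▸ congrArg Subtype.val (card_nsmul_eq_zero' (x := (⟨T, hT⟩ : C)))

theorem ex_third (h : ND C) : ∃ m : ℕ, ∀ T ∈ C, (3 * m) • T = T := by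
  have := h.c3
  obtain ⟨m, j, e⟩ : ∃ m j, 3 * m = j * cd C + 1 := by
    rcases (by omega : cd C % 3 = 1 ∨ cd C % 3 = 2) with h1 | h1
    · exact ⟨(2 * cd C + 1) / 3, 2, by omega⟩
    · exact ⟨(cd C + 1) / 3, 1, by omega⟩
  exact ⟨m, fun T hT => by rw [e, add_smul, mul_smul, cd_smul_T h hT, smul_zero, zero_add, one_smul]⟩

theorem pw_pw_T (T : Pt) : pw • pw • T = -((3 : ℕ) • T) := by
  rw [← mul_smul, ← sq, pw_sq, neg_smul, ← Nat.cast_smul_eq_nsmul Zw]
  rfl

theorem pw_nd_T (h : ND C) : ND (mC pw C) ∧ cd (mC pw C) = cd C ∧ mC pw (mC pw C) = C := by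
  obtain ⟨m, hm⟩ := ex_third h
  have := map_nd (f := DistribSMul.toAddMonoidHom Pt pw) h fun T hT e => by
    have e1 : pw • pw • T = 0 := by rw [show pw • T = 0 from e, smul_zero]
    rw [pw_pw_T, neg_eq_zero] at e1
    rw [← hm T hT, mul_comm, mul_smul, e1, smul_zero]
  refine ⟨this.1, this.2.1, AddSubgroup.ext fun T => ⟨?_, fun hT => ?_⟩⟩
  · rintro ⟨_, ⟨S, hS, rfl⟩, rfl⟩
    change pw • pw • S ∈ C
    rw [pw_pw_T]
    exact C.neg_mem (C.nsmul_mem hS _)
  · refine ⟨_, ⟨-(m • T), C.neg_mem (C.nsmul_mem hT _), rfl⟩, ?_⟩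
    change pw • pw • -(m • T) = T
    rw [pw_pw_T, smul_neg, neg_neg, ← mul_smul, hm T hT]

end

end Pool.Agent.MP_e23604_nt.Un

end

section

set_option autoImplicit false

open Finset QuadraticAlgebra
open scoped Classical

namespace Pool.Agent.MP_e23604_nt.Un

open B R S W

theorem gal_nd (g : GQ) {C : AddSubgroup Pt} (h : ND C) :
    ND (C.map (gal g)) ∧ cd (C.map (gal g)) = cd C ∧
      ∀ z, g (kk C z) = kk (C.map (gal g)) (g z) := by
  obtain ⟨h1, h2, h3⟩ := map_nd (f := gal g) h fun T _ e => (gal_ne g).1 e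
  refine ⟨h1, h2, fun z => ?_⟩
  rw [h3, kk, map_prod]
  exact prod_congr rfl fun T _ => by rw [map_sub, (xc_gal g T).1]

theorem gal_pw (g : GQ) (C : AddSubgroup Pt) :
    (mC pw C).map (gal g) = mC pw (C.map (gal g)) := by
  by_cases hg : g ∈ GK
  · simp only [mC, AddSubgroup.map_map]
    congr 1
    ext P
    exact gal_smul hg pw P
  have e : ∀ P, gal g (pw • P) = pw • gal g (-P) := fun P => by
    rw [gal_star hg, show star pw = -pw by decide, map_neg, neg_smul, smul_neg]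
  refine AddSubgroup.ext fun T => ⟨?_, ?_⟩
  · rintro ⟨_, ⟨S, hS, rfl⟩, rfl⟩
    exact ⟨_, ⟨-S, C.neg_mem hS, rfl⟩, (e S).symm⟩
  · rintro ⟨_, ⟨S, hS, rfl⟩, rfl⟩
    exact ⟨_, ⟨-S, C.neg_mem hS, rfl⟩, (e (-S)).trans (by rw [neg_neg]; rfl)⟩

theorem NGAL_of (h : NON_st) : NGAL_st := fun k C g hC => by
  obtain ⟨h1, h2, h3⟩ := gal_nd g hC
  have h4 := (gal_nd g (pw_nd_T hC).1).2.2
  rw [gal_pw] at h4
  have eB : 1 * nB (C.map (gal g)) = w3 ^ ((cd C - 1) * (kum 3 g).val) * g (nB C) := by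
    rw [nB, nB, map_mul, map_mul, map_pow, h3, h4, map_zero, h2, act_SKAP three_ne_zero, mul_pow,
      ← pow_mul, ← mul_assoc, ← mul_assoc, ← mul_assoc, ← mul_assoc, ← mul_assoc, ← pow_add,
      w3_mod_T (i := _ + _) (j := 0) (by
        rw [mul_left_comm, mul_comm (kum 3 g).val]
        omega), pow_zero]
  refine ⟨h1, h2, fun hg => ?_, fun hg => ?_⟩
  · have e : ∀ i, g (nE k C i) = 1 * nE k (C.map (gal g)) i := fun i => by
      simp only [nE, map_mul, map_neg, map_pow, h3, h4, mem_GK'.1 hg, h2, one_mul]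
    rw [ny_eq, (ok_of h k hC).gal, e, e, e, (ok_of h k h1).scale one_ne_zero eB, ny_eq]
  · have e : ∀ i, g (nE k C i) = 1 * nE (2 * k) (C.map (gal g)) (2 * i) := fun i => by
      simp only [nE, map_mul, map_neg, map_pow, h3, h4, not_mem_GK hg, h2, one_mul, nj_two,
        ← pow_mul, mul_add, mul_left_comm 2]
    have o := ok_of h (2 * k) h1
    rw [ny_eq, (ok_of h k hC).gal, e, e, e, show 2 * 2 = 1 + 3 from rfl, nE_add,
      o.rot.swap.scale one_ne_zero eB, ← o.rot.neg, ← o.add, ny_eq, smul_neg, smul_add, w_pow_T0]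

end Pool.Agent.MP_e23604_nt.Un

end

section

set_option autoImplicit false

open Finset QuadraticAlgebra
open scoped Classical

namespace Pool.Agent.MP_e23604_nt.Un

open B R S W

theorem mC_comm (a b : Zw) (C : AddSubgroup Pt) : mC a (mC b C) = mC b (mC a C) := by
  simp only [mC, AddSubgroup.map_map]
  congr 1
  ext P
  exact smul_comm a b P

theorem w_nd {C : AddSubgroup Pt} (h : ND C) : ND (mC ω C) ∧ cd (mC ω C) = cd C ∧
    ∀ z, kk (mC ω C) (w3 * z) = w3 ^ (cd C - 1) * kk C z := by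
  obtain ⟨h1, h2, h3⟩ := map_nd (f := DistribSMul.toAddMonoidHom Pt (ω : Zw)) h fun T _ e =>
    (unit_smul (IsUnit.of_pow_eq_one www three_ne_zero)).1 e
  refine ⟨h1, h2, fun z => (h3 _).trans ?_⟩
  rw [kk, ← card_erase h, ← prod_const, ← prod_mul_distrib]
  exact prod_congr rfl fun T _ => by rw [mul_sub, ← (xc_w T).1]; rfl

theorem NORI_of (h : NON_st) : NORI_st := fun k C hC => by
  obtain ⟨h1, h2, h3⟩ := w_nd hC
  obtain ⟨h4, h5, -⟩ := pw_nd_T hC
  have h6 := (w_nd h4).2.2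
  rw [h5, ← mC_comm] at h6
  refine ⟨h1, h2, ?_⟩
  have e : ∀ i, nE k (mC ω C) (i + 1) =
      w3 ^ (nj k * cd C + 2 * (cd C - 1)) * nE k C i := fun i => by
    have e1 := h3 (-w3 ^ i)
    have e2 := h6 (-w3 ^ (i + k))
    rw [mul_neg, ← pow_succ'] at e1 e2
    rw [nE, nE, h2, e1, add_right_comm, e2]
    ring
  have o := ok_of h k hC
  rw [ny_eq, ny_eq, ← nE_add k _ 0, e 2, e 0, e 1, o.rot.scale (i := nj k * cd C)
    (pow_ne_zero _ w3_ne_zero), ← o.add, smul_add, w_pow_T0]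
  have e1 := h3 0
  have e2 := h6 0
  rw [mul_zero] at e1 e2
  rw [nB, nB, h2, e1, e2]
  ring

end Pool.Agent.MP_e23604_nt.Un

end
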