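import Pool.Agent.Mg.Fe23604m.G300596
import Mathlib

set_option linter.all false

section

/-!
The statement on the derived classes of the Euler system.
-/

set_option autoImplicit false

open Finset QuadraticAlgebra
open scoped Classical

namespace Pool.Agent.MP_e23604_nt.W

open B R S

/-- auxiliary primes of degree one, prime to `b`, that split in the field of `M`-torsion -/
structure KP (b M : Zw) (V : Plc) (ϖ : Zw) : Prop where
  pp : PP ϖ
  deg : (nn ϖ).Prime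
  ov : Ov V ϖ
  cop : IsCoprime ϖ b
  dec : V.D ≤ UM M

/-- the derived classes -/
def KOL_st : Prop := ∀ (R : Type) [CommRing R] (p n : ℕ) (j : ZMod (p ^ n) →+* R) (M a : Zw)
  (Q : Pt) (lam : GQ → R) (g₀ : GQ) (ι : Type) (V : ι → Plc) (ϖ : ι → Zw),
  ES p n j M a Q lam → g₀ ∈ GK → ∃ kap : Finset ι → GQ → R,
    (∀ g ∈ GK, kap ∅ g = (rho j lam g₀ - 1) * zc j (UM M) lam (Th a Q) g) ∧
    ∀ S : Finset ι, (∀ i ∈ S, KP (a * M) M (V i) (ϖ i)) → Set.InjOn ϖ S →
      Co (rho j lam) GK (kap S) ∧ Unr (M * ∏ i ∈ S, ϖ i) (kap S) ∧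
      ∀ i ∈ S, ∀ s, FK (V i) (ϖ i) s → ∀ τ ∈ (V i).I,
        kap S τ = -j (km (p ^ n) τ (V i).l) * kap (S.erase i) s

end Pool.Agent.MP_e23604_nt.W

end

section

/-!
Principal minors of an infinite matrix along a graph of finite sets: definitions and statements.
-/

set_option autoImplicit false

open Finset
open scoped Classical

namespace Pool.Agent.MP_e23604_nt.V

section defs

variable {J R : Type} [CommRing R]

/-- the linear form with coefficients `f` -/
noncomputable def ev (f : J → R) : (J →₀ R) →ₗ[R] R := Finsupp.linearCombination R f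

/-- principal minors -/
noncomputable def dt (w : J → J → R) (m : Finset J) : R := (Matrix.of fun i j : m => w i j).det

/-- vectors with support in `A` that are killed by the rows in `m` -/
def Kr (w : J → J → R) (m A : Finset J) (x : J →₀ R) : Prop :=
  x.support ⊆ A ∧ ∀ i ∈ m, ev (w i) x = 0

/-- vertices -/
def Vx (m₀ : Finset J) (L : Set J) (m : Finset J) : Prop := m₀ ⊆ m ∧ ∀ j ∈ m, j ∉ m₀ → j ∈ L

/-- edges -/
def Ed (m₀ : Finset J) (L : Set J) (m : Finset J) (l : J) : Prop := Vx m₀ L m ∧ l ∈ L ∧ l ∉ m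

/-- the sum of the local terms -/
noncomputable def rsum (w : J → J → R) (u : J → R) (B : Finset J) (x y : J →₀ R) : R :=
  ∑ l ∈ B, u l * (ev (w l) x * y l + x l * ev (w l) y)

/-- reciprocity -/
def RC (w : J → J → R) (m₀ : Finset J) (L : Set J) (u : J → R) : Prop :=
  ∀ A x y, Vx m₀ L A → Kr w m₀ A x → Kr w m₀ A y → rsum w u (A \ m₀) x y = 0

/-- new indices detect finitely many vectors -/
def CH (w : Bool → J → J → R) (r : Bool → Finset J) (m₀ : Finset J) (L : Set J) : Prop :=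
  ∀ (A : Finset J) (s : Finset (Bool × (J →₀ R))), Vx m₀ L A →
    (∀ p ∈ s, p.2 ≠ 0 ∧ Kr (w p.1) (r p.1) A p.2) → ∃ l ∈ L, l ∉ A ∧ ∀ p ∈ s, ev (w p.1 l) p.2 ≠ 0

/-- the side changes along the edges -/
def Sd (L : Set J) (s : Finset J → Bool) : Prop := ∀ m, ∀ l ∈ L, l ∉ m → s (insert l m) = !s m

/-- systems of matrices -/
structure Sy (w : Bool → J → J → R) (m₀ : Finset J) (L : Set J) (u : Bool → J → R)
    (s : Finset J → Bool) : Prop where
  un : ∀ ε, ∀ l ∈ L, IsUnit (u ε l)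
  rc : ∀ ε, RC (w ε) m₀ L (u ε)
  ch : CH w (fun _ => m₀) m₀ L
  sd : Sd L s

/-- the value at an edge -/
noncomputable def ae (w : Bool → J → J → R) (s : Finset J → Bool) (κ : Finset J → J →₀ R)
    (m : Finset J) (l : J) : R := ev (w (s m) l) (κ m)

/-- the product of the minors at an edge -/
noncomputable def De (w : Bool → J → J → R) (s : Finset J → Bool) (m : Finset J) (l : J) : R :=
  dt (w (s m)) (insert l m) * dt (w (!s m)) m

/-- systems of classes -/
structure Cl (w : Bool → J → J → R) (m₀ : Finset J) (L : Set J) (s : Finset J → Bool)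
    (κ : Finset J → J →₀ R) : Prop where
  ker : ∀ m, Vx m₀ L m → Kr (w (s m)) m m (κ m)
  fs : ∀ m l, Ed m₀ L m l → Associated (κ (insert l m) l) (ae w s κ m l)

/-- the kernel has rank at most one -/
def D1 (w : J → J → R) (m : Finset J) : Prop := ∀ x y, Kr w m m x → Kr w m m y → x ≠ 0 →
  ∃ α β : R, α ≠ 0 ∧ α • y = β • x

/-- the kernel at `insert q m` is spanned by `b` -/
def T3 (w : J → J → R) (m : Finset J) (q : J) (b : J →₀ R) : Prop :=
  ∀ x, Kr w (insert q m) (insert q m) x → x q = 0 ∧ ∃ α β : R, α ≠ 0 ∧ α • x = β • b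

/-- a pencil of conditions in the rows `i₁`, `i₂` of the side `e` -/
noncomputable def wj (w : Bool → J → J → R) (e : Bool) (i₁ i₂ : J) (F : Fin 4 → J → R) (ξ ζ : R)
    (ε : Bool) : J → J → R :=
  if ε = e then Function.update (Function.update (w e) i₁ (ζ • F 1 - ξ • F 0)) i₂
    (ζ • F 3 - ξ • F 2) else w ε

/-- the symmetric form on the four coordinates -/
noncomputable def bt (F : Fin 4 → J → R) (x y : J →₀ R) : R :=
  ev (F 0) x * ev (F 3) y + ev (F 3) x * ev (F 0) y - ev (F 1) x * ev (F 2) y -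
    ev (F 2) x * ev (F 1) y

/-- the data of the pencil -/
structure Pen (w : Bool → J → J → R) (m₀ : Finset J) (L : Set J) (u : Bool → J → R)
    (s : Finset J → Bool) (e : Bool) (i₁ i₂ : J) (F : Fin 4 → J → R) : Prop where
  ne : i₁ ≠ i₂
  m1 : i₁ ∈ m₀
  m2 : i₂ ∈ m₀
  un : ∀ ε, ∀ l ∈ L, IsUnit (u ε l)
  sd : Sd L s
  rc : RC (w (!e)) m₀ L (u (!e))
  rb : ∀ A x y, Vx m₀ L A → Kr (w e) (m₀ \ {i₁, i₂}) A x → Kr (w e) (m₀ \ {i₁, i₂}) A y →
    bt F x y = 0 → rsum (w e) (u e) (A \ m₀) x y = 0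
  iso : ∀ m x y, Vx m₀ L m → Kr (w e) (m \ {i₁, i₂}) m x → Kr (w e) (m \ {i₁, i₂}) m y →
    bt F x y = 0
  ch : CH w (fun ε => if ε = e then m₀ \ {i₁, i₂} else m₀) m₀ L

/-- two systems of classes that span a pencil -/
structure Pcl (w : Bool → J → J → R) (m₀ : Finset J) (L : Set J) (s : Finset J → Bool) (e : Bool)
    (i₁ i₂ : J) (F : Fin 4 → J → R) (κ d : Finset J → J →₀ R) : Prop where
  k9 : ∀ m, Vx m₀ L m → s m = e → Kr (w e) (m \ {i₁, i₂}) m (κ m) ∧ Kr (w e) (m \ {i₁, i₂}) m (d m) ∧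
    ev (F 0) (d m) = 0 ∧ ev (F 2) (d m) = 0 ∧ ev (F 1) (κ m) = 0 ∧ ev (F 3) (κ m) = 0 ∧
    ev (F 1) (d m) = ev (F 0) (κ m) ∧ ev (F 3) (d m) = ev (F 2) (κ m)
  k3 : ∀ m, Vx m₀ L m → s m = !e → Kr (w (!e)) m m (κ m) ∧ Kr (w (!e)) m m (d m)
  fs : ∀ m l, Ed m₀ L m l → ∃ v : R, IsUnit v ∧ κ (insert l m) l = v * ae w s κ m l ∧
    d (insert l m) l = v * ae w s d m l

theorem ev_apply (f : J → R) (x : J →₀ R) {A : Finset J} (h : x.support ⊆ A) :
    ev f x = ∑ j ∈ A, f j * x j := by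
  rw [ev, Finsupp.linearCombination_apply, Finsupp.sum_of_support_subset _ h _ (by simp)]
  simp [mul_comm]

theorem ev_single (f : J → R) (j : J) (a : R) : ev f (Finsupp.single j a) = a * f j := by
  simp [ev]

theorem ev_coord (j : J) (x : J →₀ R) : ev (Pi.single j 1) x = x j := by
  rw [ev_apply _ x (subset_insert j _)]
  simp [Pi.single_apply]

theorem ev_add (f g : J → R) (x : J →₀ R) : ev (f + g) x = ev f x + ev g x := by
  simp [ev_apply _ x subset_rfl, add_mul, sum_add_distrib]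

theorem ev_sub (f g : J → R) (x : J →₀ R) : ev (f - g) x = ev f x - ev g x := by
  simp [ev_apply _ x subset_rfl, sub_mul]

theorem ev_smul (c : R) (f : J → R) (x : J →₀ R) : ev (c • f) x = c * ev f x := by
  simp [ev_apply _ x subset_rfl, mul_sum, mul_assoc]

theorem ev_map {R' : Type} [CommRing R'] (ϑ : R →+* R') (f : J → R) (x : J →₀ R) :
    ev (fun j => ϑ (f j)) (x.mapRange ϑ (map_zero ϑ)) = ϑ (ev f x) := by
  rw [ev_apply _ _ Finsupp.support_mapRange, ev_apply _ x subset_rfl]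
  simp [map_sum]

theorem dt_map {R' : Type} [CommRing R'] (ϑ : R →+* R') (w : J → J → R) (m : Finset J) :
    dt (fun i j => ϑ (w i j)) m = ϑ (dt w m) := by
  rw [dt, dt, RingHom.map_det]
  rfl

theorem Kr.mono {w : J → J → R} {m m' A A' : Finset J} {x : J →₀ R} (h : Kr w m A x)
    (h1 : m' ⊆ m) (h2 : A ⊆ A') : Kr w m' A' x := ⟨h.1.trans h2, fun i hi => h.2 i (h1 hi)⟩

theorem Kr.add {w : J → J → R} {m A : Finset J} {x y : J →₀ R} (h : Kr w m A x)
    (h' : Kr w m A y) : Kr w m A (x + y) :=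
  ⟨Finsupp.support_add.trans (union_subset h.1 h'.1), fun i hi => by
    rw [map_add, h.2 i hi, h'.2 i hi, add_zero]⟩

theorem Kr.smul {w : J → J → R} {m A : Finset J} {x : J →₀ R} (h : Kr w m A x) (c : R) :
    Kr w m A (c • x) :=
  ⟨Finsupp.support_smul.trans h.1, fun i hi => by rw [map_smul, h.2 i hi, smul_zero]⟩

theorem Kr.sub {w : J → J → R} {m A : Finset J} {x y : J →₀ R} (h : Kr w m A x)
    (h' : Kr w m A y) : Kr w m A (x - y) := by
  rw [sub_eq_add_neg, ← neg_one_smul R y]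
  exact h.add (h'.smul _)

theorem Kr.out {w : J → J → R} {m A : Finset J} {x : J →₀ R} (h : Kr w m A x) {j : J}
    (hj : j ∉ A) : x j = 0 := Finsupp.notMem_support_iff.1 fun e => hj (h.1 e)

theorem Kr.erase {w : J → J → R} {m A : Finset J} {x : J →₀ R} {l : J}
    (h : Kr w m (insert l A) x) (h0 : x l = 0) : Kr w m A x :=
  ⟨fun j hj => (mem_insert.1 (h.1 hj)).resolve_left fun e =>
    Finsupp.mem_support_iff.1 hj (e ▸ h0), h.2⟩

theorem Vx.refl (m₀ : Finset J) (L : Set J) : Vx m₀ L m₀ := ⟨subset_rfl, fun _ h h' => absurd h h'⟩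

theorem Vx.insert {m₀ m : Finset J} {L : Set J} {l : J} (h : Vx m₀ L m) (hl : l ∈ L) :
    Vx m₀ L (insert l m) :=
  ⟨h.1.trans (subset_insert _ _), fun j hj h' => (mem_insert.1 hj).elim (· ▸ hl) (h.2 j · h')⟩

theorem Vx.union {m₀ m m' : Finset J} {L : Set J} (h : Vx m₀ L m) (h' : Vx m₀ L m') :
    Vx m₀ L (m ∪ m') :=
  ⟨h.1.trans subset_union_left, fun j hj e => (mem_union.1 hj).elim (h.2 j · e) (h'.2 j · e)⟩

/-- the terms at the rows that kill both vectors vanish -/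
theorem RC.rel {w : J → J → R} {m₀ m A : Finset J} {L : Set J} {u : J → R} (h : RC w m₀ L u)
    (hA : Vx m₀ L A) (h0 : m₀ ⊆ m) (h1 : m ⊆ A) {x y : J →₀ R} (hx : Kr w m A x)
    (hy : Kr w m A y) : rsum w u (A \ m) x y = 0 := by
  rw [← h A x y hA (hx.mono h0 subset_rfl) (hy.mono h0 subset_rfl), rsum, rsum]
  refine sum_subset (sdiff_subset_sdiff subset_rfl h0) fun l hl hl' => ?_
  have : l ∈ m := by
    by_contra e
    exact hl' (mem_sdiff.2 ⟨(mem_sdiff.1 hl).1, e⟩)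
  rw [hx.2 l this, hy.2 l this]
  ring

/-- a smaller graph -/
theorem RC.sub {w : J → J → R} {m₀ m₁ : Finset J} {L L' : Set J} {u : J → R} (h : RC w m₀ L u)
    (h1 : Vx m₀ L m₁) (h2 : L' ⊆ L) : RC w m₁ L' u := fun A _ _ hA hx hy =>
  h.rel ⟨h1.1.trans hA.1, fun j hj e => by
    by_cases e' : j ∈ m₁
    exacts [h1.2 j e' e, h2 (hA.2 j hj e')]⟩ h1.1 hA.1 hx hy

end defs

/-! ### Linear algebra -/

/-- the vector of cofactors -/
def CRV_st : Prop := ∀ (J R : Type) [CommRing R] (w : J → J → R) (m : Finset J) (l : J), l ∉ m →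
  ∃ x, Kr w m (insert l m) x ∧ x l = dt w m ∧ ev (w l) x = dt w (insert l m) ∧
    ∀ g, ev g x = dt (Function.update w l g) (insert l m)

/-- singular matrices -/
def KER_st : Prop := ∀ (J R : Type) [CommRing R] [IsDomain R] (w : J → J → R) (m : Finset J),
  dt w m = 0 ↔ ∃ x, x ≠ 0 ∧ Kr w m m x

/-- the identities at a vertex -/
def ADJ_st : Prop := ∀ (J R : Type) [CommRing R] (w : J → J → R) (m₀ m : Finset J) (L : Set J)
  (u : J → R) (l : J), RC w m₀ L u → Ed m₀ L m l →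
  2 * u l * (dt w m * dt w (insert l m)) = 0 ∧ ∀ l' x, l' ∈ L → l' ∉ insert l m →
    (Kr w m m x → u l * ev (w l) x ^ 2 * dt w (insert l' m) =
      u l' * ev (w l') x ^ 2 * dt w (insert l m)) ∧
    (Kr w (insert l m) (insert l m) x → u l * x l ^ 2 * dt w (insert l' (insert l m)) =
      u l' * ev (w l') x ^ 2 * dt w m)

/-- one step -/
def STEP_st : Prop := ∀ (J R : Type) [CommRing R] [IsDomain R] (w : J → J → R) (m : Finset J)
  (l : J), l ∉ m → (dt w (insert l m) ≠ 0 → D1 w m) ∧ (dt w m ≠ 0 → D1 w (insert l m)) ∧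
  ∀ (m₀ : Finset J) (L : Set J) (u : J → R) (x : J →₀ R), RC w m₀ L u → Ed m₀ L m l → u l ≠ 0 →
    Kr w m m x → ev (w l) x ≠ 0 →
    (∀ v, Kr w m (insert l m) v → Kr w m m v) ∧ (D1 w m → dt w (insert l m) ≠ 0)

/-- a class that does not vanish kills the kernel of the other side -/
def GOOD_st : Prop := ∀ (J R : Type) [CommRing R] [IsDomain R] (w : Bool → J → J → R)
  (m₀ : Finset J) (L : Set J) (u : Bool → J → R) (s : Finset J → Bool) (κ : Finset J → J →₀ R),
  Sy w m₀ L u s → Cl w m₀ L s κ → (∀ m, Vx m₀ L m → κ m ≠ 0 → dt (w (!s m)) m ≠ 0) ∧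
    ∀ m l, Ed m₀ L m l → ae w s κ m l ≠ 0 → De w s m l ≠ 0

/-- two steps towards a given index, together with a step from a second vertex -/
def MOVE_st : Prop := ∀ (J R : Type) [CommRing R] [IsDomain R] (w : Bool → J → J → R)
  (m₀ : Finset J) (L : Set J) (u : Bool → J → R) (s : Finset J → Bool), (2 : R) ≠ 0 →
  Sy w m₀ L u s → ∀ m l m' l', Ed m₀ L m l → De w s m l ≠ 0 → Ed m₀ L m' l' → De w s m' l' ≠ 0 →
  ∀ n n' : Finset J, n = m ∨ n = insert l m → n' = m' ∨ n' = insert l' m' → ∀ i ∈ L, i ∉ n →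
  ∃ k ∈ L, k ∉ insert i (n ∪ n') ∧ k ≠ l ∧ k ≠ l' ∧ De w s n k ≠ 0 ∧ De w s n' k ≠ 0 ∧
    De w s (insert k n) i ≠ 0

/-- the invariant of the good edges -/
def CONN_st : Prop := ∀ (J R : Type) [CommRing R] [IsDomain R] (w : Bool → J → J → R)
  (m₀ : Finset J) (L : Set J) (u : Bool → J → R) (s : Finset J → Bool) (κ : Finset J → J →₀ R),
  (2 : R) ≠ 0 → Sy w m₀ L u s → Cl w m₀ L s κ → ∀ m l m' l', Ed m₀ L m l → De w s m l ≠ 0 →
  Ed m₀ L m' l' → De w s m' l' ≠ 0 →
  Associated (ae w s κ m l ^ 2 * De w s m' l') (ae w s κ m' l' ^ 2 * De w s m l)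

/-- good edges that contain given indices -/
def REACH_st : Prop := ∀ (J R : Type) [CommRing R] [IsDomain R] (w : Bool → J → J → R)
  (m₀ : Finset J) (L : Set J) (u : Bool → J → R) (s : Finset J → Bool), (2 : R) ≠ 0 →
  Sy w m₀ L u s → ∀ m l (B : Finset J), Ed m₀ L m l → De w s m l ≠ 0 → ↑B ⊆ L →
  ∃ m' l', Ed m₀ L m' l' ∧ De w s m' l' ≠ 0 ∧ B ⊆ m' ∧ l' ∉ B

/-- edges that are good modulo a prime -/
def WALK_st : Prop := ∀ (J R R' : Type) [CommRing R] [IsDomain R] [IsNoetherianRing R]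
  [CommRing R'] [IsDomain R'] (ϑ : R →+* R') (P : R) (w : Bool → J → J → R) (m₀ : Finset J)
  (L : Set J) (u : Bool → J → R) (s : Finset J → Bool), (2 : R) ≠ 0 → (∀ a, ϑ a = 0 ↔ P ∣ a) →
  Sy w m₀ L u s → Sy (fun ε i j => ϑ (w ε i j)) m₀ L (fun ε l => ϑ (u ε l)) s →
  ∀ m l, Ed m₀ L m l → De w s m l ≠ 0 → ∃ m' l', Ed m₀ L m' l' ∧ ¬ P ∣ De w s m' l'

/-- the members of a pencil are systems -/
def PEN_st : Prop := ∀ (J R : Type) [CommRing R] [IsDomain R] (w : Bool → J → J → R)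
  (m₀ : Finset J) (L : Set J) (u : Bool → J → R) (s : Finset J → Bool) (e : Bool) (i₁ i₂ : J)
  (F : Fin 4 → J → R), Pen w m₀ L u s e i₁ i₂ F → ∀ ξ ζ : R,
  (ξ ≠ 0 ∨ ζ ≠ 0 → Sy (wj w e i₁ i₂ F ξ ζ) m₀ L u s) ∧ ∀ κ d, Pcl w m₀ L s e i₁ i₂ F κ d →
    Cl (wj w e i₁ i₂ F ξ ζ) m₀ L s (fun m => ζ • κ m + ξ • d m) ∧ ∀ m l, Ed m₀ L m l →
      ae (wj w e i₁ i₂ F ξ ζ) s (fun m => ζ • κ m + ξ • d m) m l =
        ζ * ae w s κ m l + ξ * ae w s d m l

/-- the minor is the square of a linear form on the pencil -/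
def SQR_st : Prop := ∀ (J R : Type) [CommRing R] [IsDomain R] (w : Bool → J → J → R)
  (m₀ : Finset J) (L : Set J) (u : Bool → J → R) (s : Finset J → Bool) (e : Bool) (i₁ i₂ : J)
  (F : Fin 4 → J → R), (2 : R) ≠ 0 → Pen w m₀ L u s e i₁ i₂ F → ∀ m, Vx m₀ L m →
  dt (wj w e i₁ i₂ F 1 0 e) m ≠ 0 → ∃ (ξ₀ : R) (x y : J →₀ R),
    (∀ ξ ζ, dt (wj w e i₁ i₂ F ξ ζ e) m * dt (wj w e i₁ i₂ F 1 0 e) m =
      (ζ * ξ₀ - ξ * dt (wj w e i₁ i₂ F 1 0 e) m) ^ 2) ∧
    Kr (wj w e i₁ i₂ F ξ₀ (dt (wj w e i₁ i₂ F 1 0 e) m) e) m m x ∧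
    Kr (wj w e i₁ i₂ F ξ₀ (dt (wj w e i₁ i₂ F 1 0 e) m) e) m m y ∧
    ev (F 0) x = dt (wj w e i₁ i₂ F 1 0 e) m ∧ ev (F 2) x = 0 ∧ ev (F 0) y = 0 ∧
    ev (F 2) y = dt (wj w e i₁ i₂ F 1 0 e) m ∧ ∀ z, Kr (w e) (m \ {i₁, i₂}) m z →
      dt (wj w e i₁ i₂ F 1 0 e) m • z = ev (F 0) z • x + ev (F 2) z • y

/-- the invariant does not depend on the member of the pencil -/
def JT_st : Prop := ∀ (J R : Type) [CommRing R] [IsDomain R] (w : Bool → J → J → R)
  (m₀ : Finset J) (L : Set J) (u : Bool → J → R) (s : Finset J → Bool) (e : Bool) (i₁ i₂ : J)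
  (F : Fin 4 → J → R) (κ d : Finset J → J →₀ R) (j : R), (2 : R) ≠ 0 →
  Pen w m₀ L u s e i₁ i₂ F → Pcl w m₀ L s e i₁ i₂ F κ d → ∀ m l, Ed m₀ L m l →
  De (wj w e i₁ i₂ F 1 0) s m l ≠ 0 → ∃ m' l', Ed m₀ L m' l' ∧
    De (wj w e i₁ i₂ F 1 0) s m' l' ≠ 0 ∧ De (wj w e i₁ i₂ F j 1) s m' l' ≠ 0 ∧
    Associated ((ae w s κ m' l' + j * ae w s d m' l') ^ 2 * De (wj w e i₁ i₂ F 1 0) s m' l')
      (ae w s d m' l' ^ 2 * De (wj w e i₁ i₂ F j 1) s m' l')

/-- rows with one entry -/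
def EUL_st : Prop := ∀ (J R : Type) [CommRing R] (w : J → J → R) (m S : Finset J) (c : J → R),
  Disjoint m S → (∀ i ∈ S, ∀ j, w i j = if j = i then c i else 0) →
  dt w (m ∪ S) = (∏ i ∈ S, c i) * dt w m

/-! ### Power series -/

open PowerSeries in
/-- a lower bound for the order of a minor -/
def ORD_st : Prop := ∀ (J k : Type) [Field k] (w : J → J → k⟦X⟧) (m : Finset J) (x y : J →₀ k),
  Kr (fun i j => constantCoeff (w i j)) m m x → Kr (fun i j => constantCoeff (w i j)) m m y →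
  (∀ α β : k, α • x + β • y = 0 → α = 0 ∧ β = 0) → X ^ 2 ∣ dt w m

open PowerSeries in
/-- an upper bound for the order of a minor -/
def TOPA_st : Prop := ∀ (J O : Type) [CommRing O] [IsDomain O] (w : J → J → O⟦X⟧) (m : Finset J)
  (q : J) (b : J →₀ O⟦X⟧), q ∉ m → Kr w (insert q m) (insert q m) b → b q = X →
  b.mapRange constantCoeff (map_zero _) ≠ 0 →
  (∀ (n : ℕ) (v : J →₀ O⟦X⟧), v.support ⊆ m → (∀ i ∈ m, X ^ (n + 1) ∣ ev (w i) v) →
    X ^ n ∣ ev (w q) v) →
  T3 (fun i j => constantCoeff (w i j)) m q (b.mapRange constantCoeff (map_zero _)) →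
  ¬ X ^ 3 ∣ dt w m

/-- the kernels at the origin -/
def TOPB_st : Prop := ∀ (J O : Type) [CommRing O] [IsDomain O] (w : J → J → O) (m₀ : Finset J)
  (L : Set J) (u : J → O) (q : J) (b : J →₀ O), (2 : O) ≠ 0 → q ∉ m₀ → u q ≠ 0 →
  RC w m₀ (insert q L) u → Kr w (insert q m₀) m₀ b → b ≠ 0 →
  ((∀ x y z, Kr w m₀ m₀ x → Kr w m₀ m₀ y → Kr w m₀ m₀ z →
      ∃ α β γ : O, (α ≠ 0 ∨ β ≠ 0 ∨ γ ≠ 0) ∧ α • x + β • y + γ • z = 0) →
    ∀ ξ, Kr w m₀ m₀ ξ → ev (w q) ξ ≠ 0 → T3 w m₀ q b) ∧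
  (D1 w m₀ → ∀ l ξ, l ∈ L → l ∉ insert q m₀ → u l ≠ 0 → ev (w l) b = 0 →
    Kr w m₀ (insert q m₀) ξ → ξ q ≠ 0 → ev (w l) ξ ≠ 0 → T3 w (insert l m₀) q b)

open PowerSeries in
/-- the order at the origin -/
def IWA_st : Prop := ∀ (O k : Type) [CommRing O] [IsDomain O] [IsPrincipalIdealRing O] [Field k]
  (ϖ : O) (red : O →+* k) (a D : O⟦X⟧), Prime ϖ → (∀ x, red x = 0 ↔ ϖ ∣ x) →
  (∀ x, ¬ ϖ ∣ x → IsUnit x) → D ≠ 0 →
  (∀ P : O⟦X⟧, Prime P → ¬ P ∣ X → ¬ P ∣ C ϖ →
    ∃ a' D', ¬ P ∣ D' ∧ Associated (a ^ 2 * D') (a' ^ 2 * D)) →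
  (∃ (a' D' : O⟦X⟧) (i : ℕ), Associated (a ^ 2 * D') ((C ϖ ^ i * a') ^ 2 * D) ∧
    map red a' ≠ 0 ∧ map red D' ≠ 0 ∧ map red a' ^ 2 ∣ map red D') →
  ∀ n : ℕ, X ^ n ∣ a → X ^ (2 * n) ∣ D

end Pool.Agent.MP_e23604_nt.V

end

section

set_option autoImplicit false

open Finset
open scoped Classical

namespace Pool.Agent.MP_e23604_nt.V

section
variable {J R : Type} [CommRing R]

theorem upd_LTOPA (f : J → R) (j : J) (a : R) (y : J →₀ R) :
    ev (Function.update f j a) y = ev f (y.erase j) + y j * a := by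
  conv_lhs => rw [← Finsupp.erase_add_single j y, map_add, ev_single, Function.update_self]
  rw [ev_apply _ _ subset_rfl, ev_apply _ _ subset_rfl]
  congr 1
  refine sum_congr rfl fun i hi => ?_
  rw [Function.update_of_ne (by rintro rfl; simp at hi)]

theorem col_LTOPA (w : J → J → R) {m : Finset J} {j : J} (hj : j ∈ m) {v : J →₀ R}
    (hv : v.support ⊆ m) (a : R) (g : J → R) (hg : ∀ i ∈ m, ev (w i) v = a * g i) :
    a * dt (fun i => Function.update (w i) j (g i)) m = v j * dt w m := by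
  have h1 := Matrix.det_updateCol_sum (Matrix.of fun i k : m => w i k) ⟨j, hj⟩ fun k => v k
  have h2 := Matrix.det_updateCol_smul (Matrix.of fun i k : m => w i k) ⟨j, hj⟩ a fun i => g i
  rw [dt, dt, ← smul_eq_mul (v j), ← h1]
  refine Eq.trans ?_ (h2.symm.trans ?_)
  · congr 2
    ext i k
    simp [Matrix.updateCol_apply, Function.update_apply, Subtype.ext_iff]
  · congr 2
    funext i
    rw [Pi.smul_apply, smul_eq_mul, ← hg i i.2, ev_apply _ _ hv, ← sum_coe_sort m]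
    simp [mul_comm]

end

open PowerSeries

variable {J O : Type} [CommRing O] [IsDomain O]

/-- constant terms -/
noncomputable abbrev c0_LTOPA (x : J →₀ O⟦X⟧) : J →₀ O := x.mapRange constantCoeff (map_zero _)

/-- constant vectors -/
noncomputable abbrev lf_LTOPA (y : J →₀ O) : J →₀ O⟦X⟧ := y.mapRange C (map_zero _)

omit [IsDomain O] in
theorem dvd_LTOPA (f : J → O⟦X⟧) (x : J →₀ O⟦X⟧) :
    X ∣ ev f x ↔ ev (fun j => constantCoeff (f j)) (c0_LTOPA x) = 0 := by
  rw [ev_map, X_dvd_iff]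

omit [IsDomain O] in
theorem dvd2_LTOPA (f : J → O⟦X⟧) (y : J →₀ O) :
    X ∣ ev f (lf_LTOPA y) ↔ ev (fun j => constantCoeff (f j)) y = 0 := by
  rw [dvd_LTOPA, show c0_LTOPA (lf_LTOPA y) = y by ext; simp]

theorem step_LTOPA (w : J → J → O⟦X⟧) {m : Finset J} {j : J} (hj : j ∈ m) {v : J →₀ O⟦X⟧}
    (hv : v.support ⊆ m) {n k : ℕ} (h : ∀ i ∈ m, X ^ n ∣ ev (w i) v) (hd : X ^ (n + k) ∣ dt w m) :
    ∃ w' : J → J → O⟦X⟧, X ^ k ∣ dt w' m ∧
      ∀ i ∈ m, ∀ y, X ^ n * ev (w' i) y = X ^ n * ev (w i) (y.erase j) + y j * ev (w i) v := by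
  choose! g hg using h
  refine ⟨fun i => Function.update (w i) j (g i), ?_, fun i hi y => ?_⟩
  · rw [← mul_dvd_mul_iff_left (pow_ne_zero n X_ne_zero), col_LTOPA w hj hv _ g hg, ← pow_add]
    exact hd.mul_left _
  · rw [upd_LTOPA, hg i hi]
    ring

theorem ker_LTOPA (hKER : KER_st) {w : J → J → O⟦X⟧} {m : Finset J} (h : X ^ 1 ∣ dt w m) :
    ∃ y : J →₀ O, y ≠ 0 ∧ y.support ⊆ m ∧ ∀ i ∈ m, X ∣ ev (w i) (lf_LTOPA y) := by
  obtain ⟨y, h1, h2⟩ := (hKER J O (fun i j => constantCoeff (w i j)) m).1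
    (by rw [dt_map, ← X_dvd_iff, ← pow_one X]; exact h)
  exact ⟨y, h1, h2.1, fun i hi => (dvd2_LTOPA _ _).2 (h2.2 i hi)⟩

theorem up_LTOPA (hKER : KER_st) {w : J → J → O⟦X⟧} {m : Finset J} {j : J} (hj : j ∈ m)
    (hK : ∀ y, Kr (fun i j => constantCoeff (w i j)) m m y → y j = 0 → y = 0) {n : ℕ}
    (hd : X ^ (n + 1) ∣ dt w m)
    (h : ∃ v : J →₀ O⟦X⟧, v.support ⊆ m ∧ constantCoeff (v j) ≠ 0 ∧ ∀ i ∈ m, X ^ n ∣ ev (w i) v) :
    ∃ v : J →₀ O⟦X⟧, v.support ⊆ m ∧ constantCoeff (v j) ≠ 0 ∧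
      ∀ i ∈ m, X ^ (n + 1) ∣ ev (w i) v := by
  obtain ⟨v, hv, h0, h⟩ := h
  obtain ⟨w', h1, h2⟩ := step_LTOPA w hj hv h hd
  obtain ⟨y, h3, h4, h5⟩ := ker_LTOPA hKER h1
  have h6 : y j ≠ 0 := fun e => h3 (hK y ⟨h4, fun i hi => by
    have h7 := h2 i hi (lf_LTOPA y)
    rw [Finsupp.erase_of_notMem_support (by simp [e]), Finsupp.mapRange_apply, e, map_zero,
      zero_mul, add_zero] at h7
    rw [← dvd2_LTOPA, ← mul_left_cancel₀ (pow_ne_zero n X_ne_zero) h7]
    exact h5 i hi⟩ e)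
  refine ⟨(X ^ n : O⟦X⟧) • (lf_LTOPA y).erase j + lf_LTOPA y j • v,
    Finsupp.support_add.trans (union_subset (Finsupp.support_smul.trans ?_)
      (Finsupp.support_smul.trans hv)), by simp [h0, h6], fun i hi => ?_⟩
  · rw [Finsupp.support_erase]
    exact (erase_subset _ _).trans (Finsupp.support_mapRange.trans h4)
  · rw [map_add, map_smul, map_smul, smul_eq_mul, smul_eq_mul, ← h2 i hi, pow_succ]
    exact mul_dvd_mul_left _ (h5 i hi)

theorem out_LTOPA {w : J → J → O⟦X⟧} {m : Finset J} {q : J} {b : J →₀ O⟦X⟧} (hq : q ∉ m)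
    (hb : Kr w (insert q m) (insert q m) b) (hX : b q = X)
    (hT : T3 (fun i j => constantCoeff (w i j)) m q (c0_LTOPA b)) {v : J →₀ O⟦X⟧}
    (hv : v.support ⊆ m) (h0 : c0_LTOPA v ≠ 0) (h : ∀ i ∈ insert q m, X ∣ ev (w i) v) :
    ∃ x : J →₀ O, x.support ⊆ insert q m ∧ x q ≠ 0 ∧ ∀ i ∈ insert q m, X ^ 2 ∣ ev (w i) v →
      ev (fun j => constantCoeff (w i j)) x = 0 := by
  have hv' := hv.trans (subset_insert q m)
  obtain ⟨-, α, β, h1, h2⟩ := hT (c0_LTOPA v)
    ⟨Finsupp.support_mapRange.trans hv', fun i hi => (dvd_LTOPA _ _).1 (h i hi)⟩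
  have h3 : β ≠ 0 := by
    rintro rfl
    rw [zero_smul] at h2
    exact h0 ((smul_eq_zero.1 h2).resolve_left h1)
  obtain ⟨z, hz⟩ : ∃ z : J →₀ O⟦X⟧, z = (C β : O⟦X⟧) • b - (C α : O⟦X⟧) • v := ⟨_, rfl⟩
  obtain ⟨x, hx, hs⟩ : ∃ x : J →₀ O⟦X⟧, z = (X : O⟦X⟧) • x ∧ x.support ⊆ z.support := by
    refine ⟨z.mapRange (fun a => mk fun p => coeff (p + 1) a) (by ext; simp), ?_,
      Finsupp.support_mapRange⟩
    ext1 j
    have h4 : constantCoeff (z j) = 0 := by
      have := DFunLike.congr_fun h2 j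
      simp only [Finsupp.smul_apply, Finsupp.mapRange_apply, smul_eq_mul] at this
      simp [hz, this]
    have h5 := eq_X_mul_shift_add_const (z j)
    rwa [h4, map_zero, add_zero] at h5
  refine ⟨c0_LTOPA x, Finsupp.support_mapRange.trans (hs.trans ?_), ?_, fun i hi h4 => ?_⟩
  · rw [hz]
    exact Finsupp.support_sub.trans (union_subset (Finsupp.support_smul.trans hb.1)
      (Finsupp.support_smul.trans hv'))
  · have h4 := DFunLike.congr_fun (hx.symm.trans hz) q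
    have h5 : v q = 0 := Finsupp.notMem_support_iff.1 fun e => hq (hv e)
    simp only [Finsupp.smul_apply, Finsupp.sub_apply, smul_eq_mul, hX, h5, mul_zero, sub_zero,
      mul_comm (C β)] at h4
    rw [Finsupp.mapRange_apply, mul_left_cancel₀ X_ne_zero h4, constantCoeff_C]
    exact h3
  · have h5 := congrArg (ev (w i)) (hx.symm.trans hz)
    rw [map_smul, map_sub, map_smul, map_smul, hb.2 i hi, smul_zero, zero_sub, smul_eq_mul,
      smul_eq_mul] at h5
    rw [← dvd_LTOPA, ← mul_dvd_mul_iff_left (X_ne_zero (R := O)), h5, ← pow_two]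
    exact (h4.mul_left _).neg_right

theorem TOPA_pf (hKER : KER_st) : TOPA_st := by
  intro J O _ _ w m q b hq hb hX hb0 hn hT hd
  have hB : Kr (fun i j => constantCoeff (w i j)) (insert q m) m (c0_LTOPA b) :=
    Kr.erase ⟨Finsupp.support_mapRange.trans hb.1, fun i hi => by
      rw [ev_map, hb.2 i hi, map_zero]⟩ (by simp [hX])
  obtain ⟨j, hj⟩ := Finsupp.support_nonempty_iff.2 hb0
  have hjm := hB.1 hj
  have hj0 := Finsupp.mem_support_iff.1 hj
  have hK : ∀ y, Kr (fun i j => constantCoeff (w i j)) m m y →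
      ev (fun j => constantCoeff (w q j)) y = 0 → y j = 0 → y = 0 := by
    intro y hy h1 h2
    obtain ⟨-, α, β, h3, h4⟩ := hT y ⟨hy.1.trans (subset_insert _ _),
      (forall_mem_insert _ _ _).2 ⟨h1, hy.2⟩⟩
    have h5 := DFunLike.congr_fun h4 j
    rw [Finsupp.smul_apply, Finsupp.smul_apply, h2, smul_zero, smul_eq_mul] at h5
    rw [(mul_eq_zero.1 h5.symm).resolve_right hj0, zero_smul] at h4
    exact (smul_eq_zero.1 h4).resolve_left h3
  have hB1 : ∀ i ∈ m, X ^ 1 ∣ ev (w i) (lf_LTOPA (c0_LTOPA b)) := fun i hi => by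
    rw [pow_one, dvd2_LTOPA]
    exact hB.2 i (mem_insert_of_mem hi)
  have hB2 := (Finsupp.support_mapRange (f := (C : O → O⟦X⟧)) (hf := map_zero _)).trans hB.1
  by_cases hξ : ∀ y, Kr (fun i j => constantCoeff (w i j)) m m y →
      ev (fun j => constantCoeff (w q j)) y = 0
  · have hK' := fun y hy => hK y hy (hξ y hy)
    obtain ⟨v, h1, h2, h3⟩ := up_LTOPA hKER hjm hK' hd (up_LTOPA hKER hjm hK'
      ((pow_dvd_pow X (by omega)).trans hd) ⟨_, hB2, by simpa using hj0, hB1⟩)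
    have h4 : ∀ i ∈ insert q m, X ^ 2 ∣ ev (w i) v := (forall_mem_insert _ _ _).2
      ⟨hn 2 v h1 h3, fun i hi => (pow_dvd_pow X (by omega)).trans (h3 i hi)⟩
    obtain ⟨x, h5, h6, h7⟩ := out_LTOPA hq hb hX hT h1
      (fun e => h2 (DFunLike.congr_fun e j)) fun i hi => (dvd_pow_self X two_ne_zero).trans (h4 i hi)
    exact h6 (hT x ⟨h5, fun i hi => h7 i hi (h4 i hi)⟩).1
  push Not at hξ
  obtain ⟨ξ₀, hξ1, hξ2⟩ := hξ
  obtain ⟨ξ, k1, k2, k3⟩ : ∃ ξ, Kr (fun i j => constantCoeff (w i j)) m m ξ ∧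
      ev (fun j => constantCoeff (w q j)) ξ ≠ 0 ∧ ξ j = 0 := by
    refine ⟨c0_LTOPA b j • ξ₀ - ξ₀ j • c0_LTOPA b,
      (hξ1.smul _).sub ((hB.mono (subset_insert _ _) subset_rfl).smul _), ?_, by simp [mul_comm]⟩
    rw [map_sub, map_smul, map_smul, hB.2 q (mem_insert_self _ _), smul_zero, sub_zero]
    exact mul_ne_zero hj0 hξ2
  obtain ⟨j', hj'⟩ := Finsupp.support_nonempty_iff.2
    (show ξ ≠ 0 by rintro rfl; exact k2 (map_zero _))
  have hj1 := Finsupp.mem_support_iff.1 hj'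
  have hne : j ≠ j' := by rintro rfl; exact hj1 k3
  obtain ⟨w', d1, e1⟩ := step_LTOPA w hjm hB2 (k := 2) hB1 hd
  have e2 : ∀ i ∈ m, ev (w' i) (lf_LTOPA ξ) = ev (w i) (lf_LTOPA ξ) := fun i hi => by
    have h1 := e1 i hi (lf_LTOPA ξ)
    rw [Finsupp.erase_of_notMem_support (by simp [k3]), Finsupp.mapRange_apply, k3, map_zero,
      zero_mul, add_zero] at h1
    exact mul_left_cancel₀ (pow_ne_zero 1 X_ne_zero) h1
  have hξ3 := (Finsupp.support_mapRange (f := (C : O → O⟦X⟧)) (hf := map_zero _)).trans k1.1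
  obtain ⟨w'', d2, e3⟩ := step_LTOPA w' (k1.1 hj') hξ3 (n := 1) (k := 1)
    (fun i hi => by rw [e2 i hi, pow_one, dvd2_LTOPA]; exact k1.2 i hi) d1
  obtain ⟨y, y0, y1, y2⟩ := ker_LTOPA hKER d2
  obtain ⟨v, hv⟩ : ∃ v : J →₀ O⟦X⟧, v = (X : O⟦X⟧) • ((lf_LTOPA y).erase j').erase j +
      (C (y j) : O⟦X⟧) • lf_LTOPA (c0_LTOPA b) + (C (y j') : O⟦X⟧) • lf_LTOPA ξ := ⟨_, rfl⟩
  have v1 : v.support ⊆ m := by
    rw [hv]
    refine Finsupp.support_add.trans (union_subset (Finsupp.support_add.trans (union_subset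
      (Finsupp.support_smul.trans ?_) (Finsupp.support_smul.trans hB2)))
      (Finsupp.support_smul.trans hξ3))
    rw [Finsupp.support_erase, Finsupp.support_erase]
    exact (erase_subset _ _).trans ((erase_subset _ _).trans (Finsupp.support_mapRange.trans y1))
  have v2 : ∀ i ∈ m, X ^ (1 + 1) ∣ ev (w i) v := fun i hi => by
    have h1 := e3 i hi (lf_LTOPA y)
    rw [e1 i hi, e2 i hi, Finsupp.erase_ne hne, Finsupp.mapRange_apply, Finsupp.mapRange_apply,
      pow_one] at h1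
    simp only [hv, map_add, map_smul, smul_eq_mul]
    rw [← h1, pow_add, pow_one]
    exact mul_dvd_mul_left _ (y2 i hi)
  have v3 : c0_LTOPA v ≠ 0 := by
    intro e
    have h1 : y j = 0 := by
      have := DFunLike.congr_fun e j
      simpa [hv, k3, show constantCoeff (b j) ≠ 0 from hj0] using this
    have h2 : y j' = 0 := by
      have := DFunLike.congr_fun e j'
      simpa [hv, h1, hj1] using this
    have h3 : Kr (fun i j => constantCoeff (w i j)) m m y := ⟨y1, fun i hi => by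
      have h4 := v2 i hi
      rw [hv, h1, h2, map_zero, zero_smul, zero_smul, add_zero, add_zero,
        Finsupp.erase_of_notMem_support (f := lf_LTOPA y) (by simp [h2]),
        Finsupp.erase_of_notMem_support (by simp [h1]), map_smul, smul_eq_mul, pow_add, pow_one,
        mul_dvd_mul_iff_left X_ne_zero] at h4
      exact (dvd2_LTOPA _ _).1 h4⟩
    have h4 := hK _ ((h3.smul (ev (fun j => constantCoeff (w q j)) ξ)).sub
      (k1.smul (ev (fun j => constantCoeff (w q j)) y))) (by simp [mul_comm]) (by simp [h1, k3])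
    have h5 := DFunLike.congr_fun h4 j'
    simp only [Finsupp.sub_apply, Finsupp.smul_apply, h2, smul_eq_mul, mul_zero, zero_sub,
      Finsupp.zero_apply, neg_eq_zero, mul_eq_zero, hj1, or_false] at h5
    exact y0 (hK y h3 h5 h1)
  obtain ⟨x, h5, h6, h7⟩ := out_LTOPA hq hb hX hT v1 v3 ((forall_mem_insert _ _ _).2
    ⟨by simpa using hn 1 v v1 v2, fun i hi => (dvd_pow_self X two_ne_zero).trans (v2 i hi)⟩)
  have h8 : Kr (fun i j => constantCoeff (w i j)) m (insert q m) _ :=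
    (Kr.smul ⟨h5, fun i hi => h7 i (mem_insert_of_mem hi) (v2 i hi)⟩
      (ev (fun j => constantCoeff (w q j)) ξ)).sub ((k1.mono subset_rfl (subset_insert q m)).smul
        (ev (fun j => constantCoeff (w q j)) x))
  have h9 := (hT _ ⟨h8.1, (forall_mem_insert _ _ _).2 ⟨by simp [mul_comm], h8.2⟩⟩).1
  simp [k1.out hq, k2, h6] at h9

end Pool.Agent.MP_e23604_nt.V

end

section

set_option autoImplicit false

open Finset
open scoped Classical

namespace Pool.Agent.MP_e23604_nt.V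

section aux

variable {J R : Type} [CommRing R] [IsDomain R]

/-- there are no `a` independent vectors in the kernel -/
def Bd_LWALK (w : J → J → R) (n : Finset J) (a : ℕ) : Prop :=
  ∀ v : Fin a → J →₀ R, (∀ i, Kr w n n (v i)) → ¬ LinearIndependent R v

theorem ex_LWALK (w : J → J → R) (n : Finset J) : ∃ a, Bd_LWALK w n a := by
  refine ⟨Fintype.card ((fun j => Finsupp.single j (1 : R)) '' (n : Set J)) + 1, fun v hv h => ?_⟩
  have h1 := linearIndependent_le_span' v h ((fun j => Finsupp.single j (1 : R)) '' (n : Set J))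
    (by
      rintro _ ⟨i, rfl⟩
      rw [← Finsupp.supported_eq_span_single]
      exact (hv i).1)
  rw [Cardinal.mk_fin, Nat.cast_le] at h1
  omega

omit [IsDomain R] in
theorem pos_LWALK {w : J → J → R} {n : Finset J} {a : ℕ} (h : Bd_LWALK w n a) :
    ∃ b, a = b + 1 := by
  rcases a with _ | b
  · exact absurd linearIndependent_empty_type (h Fin.elim0 fun i => i.elim0)
  · exact ⟨b, rfl⟩

theorem two_LWALK {w : J → J → R} {n : Finset J} (h : D1 w n) : Bd_LWALK w n 2 := fun v hv hi => by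
  obtain ⟨α, β, h1, h2⟩ := h (v 0) (v 1) (hv 0) (hv 1) (hi.ne_zero 0)
  have e : v = ![v 0, v 1] := by
    funext i
    fin_cases i <;> rfl
  rw [e, LinearIndependent.pair_iff] at hi
  exact h1 (hi (-β) α (by rw [h2, neg_smul, neg_add_cancel])).2

theorem d1_LWALK {w : J → J → R} {n : Finset J} {a : ℕ} (h : Bd_LWALK w n a) (ha : a ≤ 2) :
    D1 w n := fun x y hx hy h0 => by
  by_contra hc
  have hi : LinearIndependent R ![x, y] := LinearIndependent.pair_iff.2 fun c d e => by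
    have hd : d = 0 := by_contra fun hd => hc ⟨d, -c, hd, by
      rw [neg_smul]; exact eq_neg_of_add_eq_zero_right e⟩
    rw [hd, zero_smul, add_zero] at e
    exact ⟨(smul_eq_zero.1 e).resolve_right h0, hd⟩
  refine h _ (fun i => ?_) (hi.comp (Fin.castLE ha) (Fin.castLE_injective ha))
  have : ∀ j, Kr w n n (![x, y] j) := fun j => by fin_cases j <;> assumption
  exact this _

theorem drop_LWALK (hSTEP : STEP_st) {w : J → J → R} {m₀ n : Finset J} {L : Set J} {u : J → R}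
    {k : J} {z : J →₀ R} {a : ℕ} (hr : RC w m₀ L u) (he : Ed m₀ L n k) (hu : u k ≠ 0)
    (hz : Kr w n n z) (h0 : ev (w k) z ≠ 0) (h : Bd_LWALK w n (a + 1)) :
    Bd_LWALK w (insert k n) a := fun v hv hi => by
  have h1 := ((hSTEP J R w n k he.2.2).2.2 m₀ L u z hr he hu hz h0).1
  refine h (Fin.cons z v) (fun i => ?_) (hi.finCons' z v fun c y hy e => ?_)
  · refine Fin.cases hz (fun i => ?_) i
    exact h1 _ ((hv i).mono (subset_insert _ _) subset_rfl)
  · have h2 : y ∈ LinearMap.ker (ev (w k)) := by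
      refine Submodule.span_le.2 ?_ hy
      rintro _ ⟨i, rfl⟩
      exact (hv i).2 k (mem_insert_self _ _)
    have h3 := congrArg (ev (w k)) e
    rw [map_add, map_smul, LinearMap.mem_ker.1 h2, add_zero, map_zero, smul_eq_mul] at h3
    exact (mul_eq_zero.1 h3).resolve_right h0

theorem div_LWALK [IsNoetherianRing R] {P : R} (h0 : P ≠ 0) (h1 : ¬ IsUnit P) {w : J → J → R}
    {n : Finset J} (j : J) (a : R) : ∀ x, Kr w n n x → x j = a → a ≠ 0 →
      ∃ y, Kr w n n y ∧ ∃ i, ¬ P ∣ y i := by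
  induction a using (wellFounded_dvdNotUnit (α := R)).induction with
  | _ a ih =>
    intro x hx e ha
    by_contra hc
    have h2 : ∀ i, P ∣ x i := fun i => by_contra fun hi => hc ⟨x, hx, i, hi⟩
    choose c hc' using h2
    have h3 : ∀ i, c i ≠ 0 → i ∈ x.support := fun i hi =>
      Finsupp.mem_support_iff.2 (by rw [hc']; exact mul_ne_zero h0 hi)
    have h4 : x = P • Finsupp.onFinset x.support c h3 := Finsupp.ext fun i => hc' i
    have h5 : c j ≠ 0 := fun h => ha (by rw [← e, hc', h, mul_zero])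
    refine hc (ih (c j) ⟨h5, P, h1, by rw [← e, hc', mul_comm]⟩ (Finsupp.onFinset x.support c h3)
      ⟨Finsupp.support_onFinset_subset.trans hx.1, fun i hi => ?_⟩ rfl h5)
    have h6 := hx.2 i hi
    rw [h4, map_smul, smul_eq_mul] at h6
    exact (mul_eq_zero.1 h6).resolve_left h0

/-- good vertices -/
def Gd_LWALK (w : Bool → J → J → R) (s : Finset J → Bool) (n : Finset J) : Prop :=
  dt (w (!s n)) n ≠ 0 ∧ D1 (w (s n)) n ∧ ∃ x, x ≠ 0 ∧ Kr (w (s n)) n n x

theorem good_LWALK (hKER : KER_st) (hADJ : ADJ_st) (hSTEP : STEP_st) {w : Bool → J → J → R}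
    {m₀ n : Finset J} {L : Set J} {u : Bool → J → R} {s : Finset J → Bool} {k : J}
    (h2 : (2 : R) ≠ 0) (hS : Sy w m₀ L u s) (he : Ed m₀ L n k) (h : De w s n k ≠ 0) :
    Gd_LWALK w s n ∧ Gd_LWALK w s (insert k n) := by
  obtain ⟨h3, h4⟩ := mul_ne_zero_iff.1 h
  have key : ∀ ε, dt (w ε) n = 0 ∨ dt (w ε) (insert k n) = 0 := fun ε =>
    mul_eq_zero.1 ((mul_eq_zero.1 (hADJ J R (w ε) m₀ n L (u ε) k (hS.rc ε) he).1).resolve_left
      (mul_ne_zero h2 (hS.un ε k he.2.1).ne_zero))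
  refine ⟨⟨h4, (hSTEP J R _ n k he.2.2).1 h3, (hKER J R _ n).1 ((key _).resolve_right h3)⟩, ?_⟩
  unfold Gd_LWALK
  rw [hS.sd n k he.2.1 he.2.2, Bool.not_not]
  exact ⟨h3, (hSTEP J R _ n k he.2.2).2.1 h4, (hKER J R _ _).1 ((key _).resolve_left h4)⟩

end aux

theorem WALK_pf (hKER : KER_st) (hADJ : ADJ_st) (hSTEP : STEP_st) : WALK_st := by
  intro J R R' _ _ _ _ _ ϑ P w m₀ L u s h2 hP hS hS' m l he hD
  by_cases h0 : P = 0
  · exact ⟨m, l, he, fun h => hD (zero_dvd_iff.1 (h0 ▸ h))⟩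
  have h1 : ¬ IsUnit P := fun h => one_ne_zero ((map_one ϑ).symm.trans ((hP 1).2 h.dvd))
  have key : ∀ (t : ℕ) (n : Finset J) (a b : ℕ), Vx m₀ L n → Gd_LWALK w s n →
      Bd_LWALK (fun i j => ϑ (w (s n) i j)) n a → Bd_LWALK (fun i j => ϑ (w (!s n) i j)) n b →
      2 * (a + b) + (if b ≤ 1 then 1 else 0) < t →
      ∃ m' l', Ed m₀ L m' l' ∧ ¬ P ∣ De w s m' l' := by
    intro t
    induction t with
    | zero => exact fun _ _ _ _ _ _ _ h => absurd h (Nat.not_lt_zero _)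
    | succ t ih =>
      intro n a b hn hg ha hb ht
      obtain ⟨g1, g2, x₀, g3, g4⟩ := hg
      obtain ⟨j, hj⟩ := Finsupp.ne_iff.1 g3
      obtain ⟨x, hx, i, hi⟩ := div_LWALK h0 h1 j _ x₀ g4 rfl hj
      have x1 : x.mapRange ϑ (map_zero ϑ) ≠ 0 := fun e => hi ((hP _).1 (DFunLike.congr_fun e i))
      have x2 : Kr (fun i j => ϑ (w (s n) i j)) n n (x.mapRange ϑ (map_zero ϑ)) :=
        ⟨Finsupp.support_mapRange.trans hx.1, fun i hi => by rw [ev_map, hx.2 i hi, map_zero]⟩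
      obtain ⟨a, rfl⟩ := pos_LWALK ha
      obtain ⟨b, rfl⟩ := pos_LWALK hb
      have nxt : ∀ k, Ed m₀ L n k → ev (fun j => ϑ (w (s n) k j)) (x.mapRange ϑ (map_zero ϑ)) ≠ 0 →
          ∀ c, Bd_LWALK (fun i j => ϑ (w (!s n) i j)) (insert k n) c →
          2 * (c + a) + (if a ≤ 1 then 1 else 0) < t →
          ∃ m' l', Ed m₀ L m' l' ∧ ¬ P ∣ De w s m' l' := fun k hk e c hc hlt => by
        have e1 : ev (w (s n) k) x ≠ 0 := fun h => e (by rw [ev_map, h, map_zero])
        have e2 := ((hSTEP J R _ n k hk.2.2).2.2 m₀ L _ x (hS.rc _) hk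
          (hS.un _ k hk.2.1).ne_zero hx e1).2 g2
        have e3 := hS.sd n k hk.2.1 hk.2.2
        refine ih (insert k n) c a (hn.insert hk.2.1)
          (good_LWALK hKER hADJ hSTEP h2 hS hk (mul_ne_zero e2 g1)).2 (by rwa [e3]) ?_ hlt
        rw [e3, Bool.not_not]
        exact drop_LWALK hSTEP (hS'.rc _) hk (hS'.un _ k hk.2.1).ne_zero x2 e ha
      by_cases hd : dt (fun i j => ϑ (w (!s n) i j)) n = 0
      · obtain ⟨y, y1, y2⟩ := (hKER J R' _ n).1 hd
        obtain ⟨k, k1, k2, k3⟩ := hS'.ch n {(s n, x.mapRange ϑ (map_zero ϑ)), (!s n, y)} hn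
          fun p hp => by
            rcases mem_insert.1 hp with rfl | hp
            · exact ⟨x1, x2.mono hn.1 subset_rfl⟩
            · rw [mem_singleton.1 hp]
              exact ⟨y1, y2.mono hn.1 subset_rfl⟩
        have hk : Ed m₀ L n k := ⟨hn, k1, k2⟩
        refine nxt k hk (k3 _ (mem_insert_self _ _)) b
          (drop_LWALK hSTEP (hS'.rc _) hk (hS'.un _ k k1).ne_zero y2
            (k3 (!s n, y) (mem_insert_of_mem (mem_singleton_self _))) hb) ?_
        split_ifs at ht ⊢ <;> omega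
      · obtain ⟨k, k1, k2, k3⟩ := hS'.ch n {(s n, x.mapRange ϑ (map_zero ϑ))} hn fun p hp => by
          rw [mem_singleton.1 hp]
          exact ⟨x1, x2.mono hn.1 subset_rfl⟩
        have hk : Ed m₀ L n k := ⟨hn, k1, k2⟩
        have k4 := k3 _ (mem_singleton_self _)
        by_cases h3 : a ≤ 1
        · refine ⟨n, k, hk, fun h => ?_⟩
          have e := (hP _).2 h
          rw [De, map_mul, ← dt_map, ← dt_map] at e
          exact mul_ne_zero (((hSTEP J R' _ n k k2).2.2 m₀ L _ _ (hS'.rc _) hk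
            (hS'.un _ k k1).ne_zero x2 k4).2 (d1_LWALK ha (by omega))) hd e
        · refine nxt k hk k4 2 (two_LWALK ((hSTEP J R' _ n k k2).2.1 hd)) ?_
          split_ifs at ht ⊢ <;> omega
  obtain ⟨a, ha⟩ := ex_LWALK (fun i j => ϑ (w (s m) i j)) m
  obtain ⟨b, hb⟩ := ex_LWALK (fun i j => ϑ (w (!s m) i j)) m
  exact key _ m a b he.1 (good_LWALK hKER hADJ hSTEP h2 hS he hD).1 ha hb (Nat.lt_succ_self _)

end Pool.Agent.MP_e23604_nt.V

end

section

set_option autoImplicit false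

open Finset
open scoped Classical

namespace Pool.Agent.MP_e23604_nt.V

theorem canc_LIWA {R : Type} [CommRing R] [IsDomain R] {π A B : R} (h0 : π ≠ 0) (hA : ¬ π ∣ A)
    (hB : ¬ π ∣ B) {p q : ℕ} (h : π ^ p * A = π ^ q * B) : A = B := by
  wlog hle : p ≤ q generalizing p q A B
  · exact (this hB hA h.symm (by omega)).symm
  obtain ⟨r, rfl⟩ := Nat.exists_eq_add_of_le hle
  rw [pow_add, mul_assoc, mul_right_inj' (pow_ne_zero _ h0)] at h
  cases r with
  | zero => simpa using h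
  | succ r => exact absurd ⟨π ^ r * B, by rw [h]; ring⟩ hA

theorem split_LIWA {R : Type} [CommRing R] [WfDvdMonoid R] {x π a : R} (hx : ¬ IsUnit x)
    (hπ : ¬ IsUnit π) (ha : a ≠ 0) :
    ∃ (s j : ℕ) (b : R), ¬ x ∣ π ^ j * b ∧ ¬ π ∣ b ∧ a = x ^ s * (π ^ j * b) := by
  obtain ⟨s, a₀, h1, rfl⟩ := WfDvdMonoid.max_power_factor' ha hx
  obtain ⟨j, b, h2, rfl⟩ := WfDvdMonoid.max_power_factor' (right_ne_zero_of_mul ha) hπ
  exact ⟨s, j, b, h1, h2, rfl⟩

theorem main_LIWA {R S : Type} [CommRing R] [IsDomain R] [UniqueFactorizationMonoid R]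
    [CommRing S] [IsDomain S] (φ : R →+* S) {x π a D : R} (hx : Prime x) (h0 : π ≠ 0)
    (hk : ∀ f, φ f = 0 ↔ π ∣ f) (hx0 : φ x ≠ 0) (hx1 : ¬ IsUnit (φ x)) (hD : D ≠ 0)
    (hP : ∀ P : R, Prime P → ¬ P ∣ x → ¬ P ∣ π →
      ∃ a' D', ¬ P ∣ D' ∧ Associated (a ^ 2 * D') (a' ^ 2 * D))
    {a' D' : R} {i : ℕ} (hA : Associated (a ^ 2 * D') ((π ^ i * a') ^ 2 * D)) (h1 : φ a' ≠ 0)
    (h2 : φ D' ≠ 0) (h3 : φ a' ^ 2 ∣ φ D') (n : ℕ) (hn : x ^ n ∣ a) : x ^ (2 * n) ∣ D := by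
  have hπ0 : φ π = 0 := (hk π).2 dvd_rfl
  have hπ : Prime π := by
    refine ⟨h0, fun h => ?_, fun f g h => ?_⟩
    · exact not_isUnit_zero (hπ0 ▸ h.map φ)
    · rw [← hk, map_mul, mul_eq_zero, hk, hk] at h
      exact h
  have ha' : a' ≠ 0 := fun e => h1 (by rw [e, map_zero])
  have ha : a ≠ 0 := fun e => by
    rw [e, zero_pow two_ne_zero, zero_mul] at hA
    exact mul_ne_zero (pow_ne_zero _ (mul_ne_zero (pow_ne_zero _ h0) ha')) hD
      ((associated_zero_iff_eq_zero _).1 hA.symm)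
  obtain ⟨s, j, b, hb1, hb2, rfl⟩ := split_LIWA hx.not_isUnit hπ.not_isUnit ha
  obtain ⟨t, m, E, hE1, hE2, rfl⟩ := split_LIWA hx.not_isUnit hπ.not_isUnit hD
  have hE : E ≠ 0 := right_ne_zero_of_mul (right_ne_zero_of_mul hD)
  have hd : E ∣ b ^ 2 := by
    refine (UniqueFactorizationMonoid.dvd_iff_emultiplicity_le hE).2 fun P hp =>
      emultiplicity_le_emultiplicity_iff.2 fun r hr => ?_
    cases r with
    | zero => simp
    | succ r =>
      have hPE : P ∣ E := (dvd_pow_self P r.succ_ne_zero).trans hr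
      have p1 : ¬ P ∣ x := fun h =>
        hE1 (((hp.associated_of_dvd hx h).symm.dvd.trans hPE).mul_left _)
      have p2 : ¬ P ∣ π := fun h => hE2 ((hp.associated_of_dvd hπ h).symm.dvd.trans hPE)
      obtain ⟨a₁, D₁, q1, q2⟩ := hP P hp p1 p2
      have q3 := hp.pow_dvd_of_dvd_mul_right _ q1
        ((((hr.mul_left _).mul_left _).mul_left _).trans q2.symm.dvd)
      rw [mul_pow, mul_pow] at q3
      exact hp.pow_dvd_of_dvd_mul_left _ (fun h => p2 (hp.dvd_of_dvd_pow (hp.dvd_of_dvd_pow h)))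
        (hp.pow_dvd_of_dvd_mul_left _ (fun h => p1 (hp.dvd_of_dvd_pow (hp.dvd_of_dvd_pow h))) q3)
  obtain ⟨c, hc⟩ := hd
  obtain ⟨u, hu⟩ := hA
  obtain ⟨e, he⟩ := h3
  have hb : φ b ≠ 0 := fun h => hb2 ((hk b).1 h)
  have hc0 : φ c ≠ 0 := fun h => pow_ne_zero 2 hb (by rw [← map_pow, hc, map_mul, h, mul_zero])
  have hu0 : φ (u : R) ≠ 0 := (u.isUnit.map φ).ne_zero
  have e1 : π ^ (2 * j) * (x ^ (2 * s) * (c * D' * u)) =
      π ^ (2 * i + m) * (a' ^ 2 * x ^ t) := by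
    refine mul_left_cancel₀ hE ?_
    linear_combination hu - x ^ (2 * s) * π ^ (2 * j) * D' * u * hc
  have e2 := congrArg φ (canc_LIWA h0 (by
      rw [← hk, map_mul, map_mul, map_mul, map_pow]
      exact mul_ne_zero (pow_ne_zero _ hx0) (mul_ne_zero (mul_ne_zero hc0 h2) hu0)) (by
      rw [← hk, map_mul, map_pow, map_pow]
      exact mul_ne_zero (pow_ne_zero _ h1) (pow_ne_zero _ hx0)) e1)
  rw [map_mul, map_mul, map_mul, map_mul, map_pow, map_pow, map_pow, he] at e2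
  have e3 : φ x ^ (2 * s) ∣ φ x ^ t := ⟨φ c * e * φ (u : R), by
    refine mul_left_cancel₀ (pow_ne_zero 2 h1) ?_
    linear_combination -e2⟩
  have e4 := (pow_dvd_pow_iff hx0 hx1).1 e3
  have e5 := (pow_dvd_pow_iff hx.ne_zero hx.not_isUnit).1 (hx.pow_dvd_of_dvd_mul_right n hb1 hn)
  exact (pow_dvd_pow x (by omega)).mul_right _

theorem IWA_pf : IWA_st := by
  intro O k _ _ _ _ ϖ red a D hϖ hred _ hD hP ⟨a', D', i, hA, h1, h2, h3⟩ n hn
  refine main_LIWA (PowerSeries.map red) PowerSeries.X_prime ?_ (fun f => ⟨fun h => ?_, ?_⟩) ?_ ?_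
    hD hP hA h1 h2 h3 n hn
  · exact fun h => hϖ.ne_zero (by simpa using congrArg PowerSeries.constantCoeff h)
  · have h' : ∀ r, ϖ ∣ PowerSeries.coeff r f := fun r => (hred _).1 (by
      rw [← PowerSeries.coeff_map, h, map_zero])
    choose g hg using h'
    refine ⟨PowerSeries.mk g, PowerSeries.ext fun r => ?_⟩
    rw [PowerSeries.coeff_C_mul, PowerSeries.coeff_mk, hg]
  · rintro ⟨g, rfl⟩
    rw [map_mul, PowerSeries.map_C, (hred ϖ).2 dvd_rfl, map_zero, zero_mul]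
  · rw [PowerSeries.map_X]
    exact PowerSeries.X_ne_zero
  · rw [PowerSeries.map_X]
    exact PowerSeries.X_prime.not_isUnit

end Pool.Agent.MP_e23604_nt.V

end

section

set_option autoImplicit false

open Finset
open scoped Classical

namespace Pool.Agent.MP_e23604_nt.V

section
variable {J R : Type} [CommRing R]

theorem row_LADJ {n : Type} [Fintype n] [DecidableEq n] (N : Matrix n n R) (i : n) (h : n → R) :
    (N.updateRow i h).det = ∑ j, h j * N.adjugate j i := by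
  rw [← Matrix.cramer_transpose_apply, Matrix.cramer_eq_adjugate_mulVec,
    ← Matrix.adjugate_transpose]
  simp [Matrix.mulVec, dotProduct, mul_comm]

theorem upd_LADJ (w : J → J → R) (A : Finset J) (i : A) (g : J → R) :
    dt (Function.update w i g) A =
      ∑ j : A, g j * (Matrix.of fun i j : A => w i j).adjugate j i := by
  rw [dt, ← row_LADJ (Matrix.of fun i j : A => w i j) i fun j => g j]
  refine congrArg Matrix.det (Matrix.ext fun a b => ?_)
  by_cases e : a = i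
  · subst e
    simp
  · have : (a : J) ≠ i := fun e' => e (Subtype.ext e')
    simp [Matrix.updateRow_ne e, Function.update_of_ne this]

theorem sing_LADJ (w : J → J → R) {m : Finset J} {l : J} (hl : l ∉ m) :
    dt (Function.update w l (Pi.single l 1)) (insert l m) = dt w m := by
  have key : ∀ i : ↥(insert l m), ¬ (i : J) ∈ m → (i : J) = l := fun i hi =>
    (mem_insert.1 i.2).resolve_right hi
  rw [dt, Matrix.twoBlockTriangular_det _ fun i : ↥(insert l m) => (i : J) ∈ m]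
  · have : Subsingleton {i : ↥(insert l m) // ¬ (i : J) ∈ m} :=
      ⟨fun a b => Subtype.ext (Subtype.ext ((key _ a.2).trans (key _ b.2).symm))⟩
    rw [Matrix.det_eq_elem_of_subsingleton (n := {i : ↥(insert l m) // ¬ (i : J) ∈ m}) _
      ⟨⟨l, mem_insert_self l m⟩, hl⟩, dt, ← Matrix.det_submatrix_equiv_self
        (Equiv.subtypeSubtypeEquivSubtype (p := (· ∈ insert l m)) (q := (· ∈ m))
          fun h => mem_insert_of_mem h) (Matrix.of fun i j : m => w i j)]
    simp only [Matrix.toSquareBlockProp_def, Matrix.of_apply, Function.update_self,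
      Pi.single_eq_same, mul_one]
    refine congrArg Matrix.det (Matrix.ext fun a b => ?_)
    have : (a.1 : J) ≠ l := fun e => hl (e ▸ a.2)
    rw [Matrix.of_apply, Function.update_of_ne this]
    rfl
  · intro i hi j hj
    have : (j : J) ≠ l := fun e => hl (e ▸ hj)
    rw [Matrix.of_apply, key i hi, Function.update_self, Pi.single_eq_of_ne this]

theorem pl_LADJ (w : J → J → R) {A : Finset J} {x : J →₀ R} (hx : x.support ⊆ A) (h : J → R) :
    dt w A * ev h x = ∑ i ∈ A, ev (w i) x * dt (Function.update w i h) A := by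
  have h1 : ∀ f : J → R, ev f x = ∑ j : A, f j * x j := fun f => by
    rw [ev_apply f x hx, ← sum_coe_sort]
  have h2 : ∀ j k : A, ∑ i : A, (Matrix.of fun i j : A => w i j).adjugate j i * w i k =
      if j = k then dt w A else 0 := fun j k => by
    have := congrFun (congrFun (Matrix.adjugate_mul (Matrix.of fun i j : A => w i j)) j) k
    simpa [Matrix.mul_apply, Matrix.one_apply, dt] using this
  rw [← sum_coe_sort A]
  simp only [upd_LADJ, h1]
  symm
  calc ∑ i : A, (∑ k : A, w i k * x k) *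
        ∑ j : A, h j * (Matrix.of fun i j : A => w i j).adjugate j i
      = ∑ j : A, ∑ k : A, h j * x k *
          ∑ i : A, (Matrix.of fun i j : A => w i j).adjugate j i * w i k := by
        simp only [mul_sum, sum_mul]
        rw [sum_comm]
        refine sum_congr rfl fun j _ => ?_
        rw [sum_comm]
        exact sum_congr rfl fun k _ => sum_congr rfl fun i _ => by ring
    _ = _ := by
        simp only [h2, mul_ite, mul_zero, sum_ite_eq, mem_univ, if_true, mul_sum]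
        exact sum_congr rfl fun j _ => by ring

theorem pl2_LADJ {w : J → J → R} {m : Finset J} {l l' : J} (hl : l ∉ m) (hl' : l' ∉ insert l m)
    {x : J →₀ R} (hx : Kr w m (insert l' (insert l m)) x) (f g h : J → R) :
    dt (Function.update (Function.update w l f) l' g) (insert l' (insert l m)) * ev h x =
      ev f x * dt (Function.update (Function.update w l h) l' g) (insert l' (insert l m)) +
      ev g x * dt (Function.update (Function.update w l f) l' h) (insert l' (insert l m)) := by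
  have ne : l ≠ l' := fun e => hl' (e ▸ mem_insert_self l m)
  rw [pl_LADJ _ hx.1, sum_insert hl', sum_insert hl, sum_eq_zero, Function.update_self,
    Function.update_idem, Function.update_of_ne ne, Function.update_self,
    Function.update_comm ne.symm, Function.update_idem]
  · ring
  · intro i hi
    have a : i ≠ l := fun e => hl (e ▸ hi)
    have b : i ≠ l' := fun e => hl' (e ▸ mem_insert_of_mem hi)
    rw [Function.update_of_ne b, Function.update_of_ne a, hx.2 i hi, zero_mul]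

end

theorem CRV_pf : CRV_st := by
  intro J R _ w m l hl
  let i₀ : ↥(insert l m) := ⟨l, mem_insert_self l m⟩
  let x : J →₀ R := ∑ j : ↥(insert l m),
    Finsupp.single j.1 ((Matrix.of fun i j : ↥(insert l m) => w i j).adjugate j i₀)
  have h1 : ∀ g, ev g x = dt (Function.update w l g) (insert l m) := fun g => by
    rw [show l = i₀.1 from rfl, upd_LADJ, map_sum]
    exact sum_congr rfl fun j _ => by rw [ev_single, mul_comm]
  refine ⟨x, ⟨?_, fun i hi => ?_⟩, ?_, ?_, h1⟩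
  · refine Finsupp.support_finsetSum.trans (biUnion_subset.2 fun j _ => ?_)
    exact Finsupp.support_single_subset.trans (singleton_subset_iff.2 j.2)
  · have a : i ≠ l := fun e => hl (e ▸ hi)
    rw [h1, dt]
    refine Matrix.det_zero_of_row_eq (i := i₀) (j := ⟨i, mem_insert_of_mem hi⟩)
      (fun e => a (congrArg Subtype.val e).symm) (funext fun b => ?_)
    simp [i₀, Function.update_of_ne a]
  · rw [← ev_coord, h1, sing_LADJ w hl]
  · rw [h1, Function.update_eq_self]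

theorem ADJ_pf (hCRV : CRV_st) : ADJ_st := by
  intro J R _ w m₀ m L u l hR hE
  obtain ⟨hV, hL, hl⟩ := hE
  refine ⟨?_, fun l' x hL' hl' => ?_⟩
  · obtain ⟨x, hx, h1, h2, -⟩ := hCRV J R w m l hl
    have := hR.rel (hV.insert hL) hV.1 (subset_insert l m) hx hx
    rw [insert_sdiff_of_notMem _ hl, sdiff_self, rsum] at this
    simp only [bot_eq_empty, insert_empty_eq, sum_singleton, h1, h2] at this
    linear_combination this
  have ne : l ≠ l' := fun e => hl' (e ▸ mem_insert_self l m)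
  have hm' : l' ∉ m := fun e => hl' (mem_insert_of_mem e)
  have hl2 : l ∉ insert l' m := fun e => (mem_insert.1 e).elim ne hl
  obtain ⟨y, hy, y1, y2, y3⟩ := hCRV J R w (insert l' m) l hl2
  rw [insert_comm] at hy y2 y3
  have main : Kr w m (insert l m) x → ∃ D : R,
      u l * (ev (w l) x * dt w (insert l' m) + x l * dt w (insert l' (insert l m))) =
        u l' * ev (w l') x * D ∧ D * ev (w l) x = ev (w l') x * dt w (insert l m) ∧
      D * x l = ev (w l') x * dt w m := fun hx => by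
    have x0 : x l' = 0 := hx.out hl'
    have hx' := hx.mono subset_rfl (subset_insert l' _)
    have r := hR.rel ((hV.insert hL).insert hL') hV.1
      ((subset_insert l m).trans (subset_insert l' _)) hx'
      (hy.mono (subset_insert l' m) subset_rfl)
    rw [insert_sdiff_of_notMem _ hm', insert_sdiff_of_notMem _ hl, sdiff_self, rsum,
      sum_insert (by simpa using ne.symm), sum_insert (by simp), x0, y1, y2] at r
    have a := pl2_LADJ hl hl' hx' (w l') (w l') (Pi.single l' 1)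
    have b := pl2_LADJ hl hl' hx' (w l') (Pi.single l' 1) (w l)
    have c := pl2_LADJ hl hl' hx' (w l') (Pi.single l' 1) (Pi.single l 1)
    have e : Function.update (Function.update w l (Pi.single l' 1)) l' (w l') =
        Function.update w l (Pi.single l' 1) := by
      rw [Function.update_comm ne, Function.update_eq_self]
    rw [e, ← y3, ev_coord, ev_coord, x0] at a
    rw [Function.update_eq_self, ev_coord, x0, sing_LADJ w hl'] at b
    rw [ev_coord, ev_coord, x0, sing_LADJ (Function.update w l (Pi.single l 1)) hl',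
      sing_LADJ w hl] at c
    simp only [bot_eq_empty, sum_empty] at r
    exact ⟨dt (Function.update (Function.update w l (w l')) l' (Pi.single l' 1))
      (insert l' (insert l m)), by linear_combination r + u l' * a, by linear_combination b,
      by linear_combination c⟩
  refine ⟨fun hx => ?_, fun hx => ?_⟩
  · obtain ⟨D, h1, h2, -⟩ := main (hx.mono subset_rfl (subset_insert l m))
    rw [hx.out hl] at h1
    linear_combination ev (w l) x * h1 + u l' * ev (w l') x * h2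
  · obtain ⟨D, h1, -, h3⟩ := main (hx.mono (subset_insert l m) subset_rfl)
    rw [hx.2 l (mem_insert_self l m)] at h1
    linear_combination x l * h1 + u l' * ev (w l') x * h3

end Pool.Agent.MP_e23604_nt.V

end

section

set_option autoImplicit false

open Finset
open scoped Classical

namespace Pool.Agent.MP_e23604_nt.V

theorem mulVec_LSTEP {J R : Type} [CommRing R] (w : J → J → R) (m : Finset J) (x : J →₀ R)
    (h : x.support ⊆ m) (i : m) :
    (Matrix.of fun i j : m => w i j).mulVec (fun j : m => x j) i = ev (w i) x := by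
  rw [ev_apply _ x h, ← sum_coe_sort m]
  simp [Matrix.mulVec, dotProduct]

theorem KER_pf : KER_st := by
  intro J R _ _ w m
  rw [dt, ← Matrix.exists_mulVec_eq_zero_iff]
  constructor
  · rintro ⟨v, hv, h⟩
    let x : J →₀ R := Finsupp.onFinset m (fun j => if e : j ∈ m then v ⟨j, e⟩ else 0) fun j hj => by
      by_contra e
      exact hj (dif_neg e)
    have hx : (fun j : m => x j) = v := by
      funext j
      simp [x]
    have hs : x.support ⊆ m := Finsupp.support_onFinset_subset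
    refine ⟨x, fun e => hv ?_, hs, fun i hi => ?_⟩
    · rw [← hx, e]
      rfl
    · rw [← mulVec_LSTEP w m x hs ⟨i, hi⟩, hx, h]
      rfl
  · rintro ⟨x, hx, h⟩
    refine ⟨fun j : m => x j, fun e => hx ?_, ?_⟩
    · ext j
      by_cases hj : j ∈ m
      · exact congrFun e ⟨j, hj⟩
      · exact h.out hj
    · funext i
      rw [mulVec_LSTEP w m x h.1 i, h.2 i i.2]
      rfl

theorem ins_LSTEP {J R : Type} [CommRing R] {w : J → J → R} {m A : Finset J} {l : J}
    {x : J →₀ R} (h : Kr w m A x) (h0 : ev (w l) x = 0) : Kr w (insert l m) A x :=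
  ⟨h.1, fun i hi => (mem_insert.1 hi).elim (fun e => e ▸ h0) (h.2 i)⟩

theorem STEP_pf (hKER : KER_st) : STEP_st := by
  intro J R _ _ w m l hl
  refine ⟨fun hd x y hx hy hx0 => ?_, fun hd x y hx hy hx0 => ?_,
    fun m₀ L u x hrc he hu hx hx0 => ?_⟩
  · have key : ∀ z, Kr w m m z → ev (w l) z = 0 → z = 0 := fun z hz h0 => by
      by_contra e
      exact hd ((hKER J R w _).2
        ⟨z, e, ins_LSTEP (hz.mono subset_rfl (subset_insert _ _)) h0⟩)
    refine ⟨ev (w l) x, ev (w l) y, fun e => hx0 (key x hx e), sub_eq_zero.1 (key _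
      ((hy.smul _).sub (hx.smul _)) ?_)⟩
    rw [map_sub, map_smul, map_smul, smul_eq_mul, smul_eq_mul]
    ring
  · have key : ∀ z, Kr w (insert l m) (insert l m) z → z l = 0 → z = 0 := fun z hz h0 => by
      by_contra e
      exact hd ((hKER J R w _).2 ⟨z, e, (hz.mono (subset_insert _ _) subset_rfl).erase h0⟩)
    refine ⟨x l, y l, fun e => hx0 (key x hx e), sub_eq_zero.1 (key _
      ((hy.smul _).sub (hx.smul _)) ?_)⟩
    simp [mul_comm]
  · have key : ∀ v, Kr w m (insert l m) v → Kr w m m v := fun v hv => by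
      have h := hrc.rel (he.1.insert he.2.1) he.1.1 (subset_insert _ _)
        (hx.mono subset_rfl (subset_insert _ _)) hv
      rw [insert_sdiff_of_notMem _ hl, Finset.sdiff_self, rsum] at h
      simp only [insert_empty_eq, sum_singleton, hx.out hl, zero_mul, add_zero, mul_eq_zero, hu,
        hx0, false_or] at h
      exact hv.erase h
    refine ⟨key, fun h1 hd => ?_⟩
    obtain ⟨v, hv0, hv⟩ := (hKER J R w _).1 hd
    obtain ⟨α, β, hα, h⟩ := h1 x v hx (key v (hv.mono (subset_insert _ _) subset_rfl))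
      (fun e => hx0 (by rw [e, map_zero]))
    have h2 := congrArg (ev (w l)) h
    rw [map_smul, map_smul, hv.2 l (mem_insert_self _ _), smul_zero, smul_eq_mul, eq_comm,
      mul_eq_zero] at h2
    rw [h2.resolve_right hx0, zero_smul, smul_eq_zero] at h
    exact h.elim hα hv0

theorem GOOD_pf (hKER : KER_st) (hSTEP : STEP_st) : GOOD_st := by
  intro J R _ _ w m₀ L u s κ hS hC
  have key : ∀ m, Vx m₀ L m → κ m ≠ 0 → dt (w (!s m)) m ≠ 0 := fun m hm h0 hd => by
    obtain ⟨y, hy0, hy⟩ := (hKER J R _ _).1 hd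
    obtain ⟨l, hL, hl, h⟩ := hS.ch m {(s m, κ m), (!s m, y)} hm (fun p hp => by
      rcases mem_insert.1 hp with rfl | hp
      · exact ⟨h0, (hC.ker m hm).mono hm.1 subset_rfl⟩
      · rw [mem_singleton.1 hp]
        exact ⟨hy0, hy.mono hm.1 subset_rfl⟩)
    have he : Ed m₀ L m l := ⟨hm, hL, hl⟩
    have h1 : ae w s κ m l ≠ 0 := h _ (mem_insert_self _ _)
    have h2 : ev (w (!s m) l) y ≠ 0 := h (!s m, y) (mem_insert_of_mem (mem_singleton_self _))
    have h3 := hC.ker _ (hm.insert hL)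
    rw [hS.sd m l hL hl] at h3
    have h4 := ((hSTEP J R (w (!s m)) m l hl).2.2 m₀ L (u (!s m)) y (hS.rc _) he
      (hS.un _ l hL).ne_zero hy h2).1 _ (h3.mono (subset_insert _ _) subset_rfl)
    exact h1 ((hC.fs m l he).eq_zero_iff.1 (h4.out hl))
  refine ⟨key, fun m l he h0 => mul_ne_zero ?_ (key m he.1 fun e => h0 ?_)⟩
  · have h := key _ (he.1.insert he.2.1) fun e =>
      h0 ((hC.fs m l he).eq_zero_iff.1 (by rw [e]; rfl))
    rwa [hS.sd m l he.2.1 he.2.2, Bool.not_not] at h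
  · rw [ae, e, map_zero]

end Pool.Agent.MP_e23604_nt.V

end

section

set_option autoImplicit false

open Finset
open scoped Classical

namespace Pool.Agent.MP_e23604_nt.V

theorem adj_LMOVE (hADJ : ADJ_st) {J R : Type} [CommRing R] [IsDomain R] {w : Bool → J → J → R}
    {m₀ : Finset J} {L : Set J} {u : Bool → J → R} {s : Finset J → Bool} (h2 : (2 : R) ≠ 0)
    (hS : Sy w m₀ L u s) {m : Finset J} {l : J} (he : Ed m₀ L m l) (ε : Bool) :
    dt (w ε) m = 0 ∨ dt (w ε) (insert l m) = 0 := by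
  have h := (hADJ J R (w ε) m₀ m L (u ε) l (hS.rc ε) he).1
  exact mul_eq_zero.1 ((mul_eq_zero.1 h).resolve_left
    (mul_ne_zero h2 (hS.un ε l he.2.1).ne_zero))

theorem endp_LMOVE (hKER : KER_st) (hADJ : ADJ_st) (hSTEP : STEP_st) {J R : Type} [CommRing R]
    [IsDomain R] {w : Bool → J → J → R} {m₀ : Finset J} {L : Set J} {u : Bool → J → R}
    {s : Finset J → Bool} (h2 : (2 : R) ≠ 0) (hS : Sy w m₀ L u s) {m : Finset J} {l : J}
    (he : Ed m₀ L m l) (hD : De w s m l ≠ 0) {n : Finset J} (hn : n = m ∨ n = insert l m) :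
    Vx m₀ L n ∧ dt (w (!s n)) n ≠ 0 ∧ D1 (w (s n)) n ∧ ∃ x, x ≠ 0 ∧ Kr (w (s n)) n n x := by
  have h1 : dt (w (s m)) (insert l m) ≠ 0 := left_ne_zero_of_mul hD
  have h3 : dt (w (!s m)) m ≠ 0 := right_ne_zero_of_mul hD
  rcases hn with rfl | rfl
  · exact ⟨he.1, h3, (hSTEP J R _ _ l he.2.2).1 h1,
      (hKER J R _ _).1 ((adj_LMOVE hADJ h2 hS he _).resolve_right h1)⟩
  · rw [hS.sd m l he.2.1 he.2.2, Bool.not_not]
    exact ⟨he.1.insert he.2.1, h1, (hSTEP J R _ _ l he.2.2).2.1 h3,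
      (hKER J R _ _).1 ((adj_LMOVE hADJ h2 hS he _).resolve_left h3)⟩

theorem MOVE_pf (hCRV : CRV_st) (hKER : KER_st) (hADJ : ADJ_st) (hSTEP : STEP_st) : MOVE_st := by
  intro J R _ _ w m₀ L u s h2 hS m l m' l' he hD he' hD' n n' hn hn' i hi hin
  obtain ⟨hV, hd, hD1, x, hx0, hx⟩ := endp_LMOVE hKER hADJ hSTEP h2 hS he hD hn
  obtain ⟨hV', hd', hD1', x', hx0', hx'⟩ := endp_LMOVE hKER hADJ hSTEP h2 hS he' hD' hn'
  obtain ⟨v, hv, hvi, hve, -⟩ := hCRV J R (w (!s n)) n i hin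
  have hni : Ed m₀ L n i := ⟨hV, hi, hin⟩
  have hz : dt (w (!s n)) (insert i n) = 0 := (adj_LMOVE hADJ h2 hS hni _).resolve_left hd
  have hv2 : Kr (w (!s n)) (insert i n) (insert i n) v := ⟨hv.1, fun j hj => by
    rcases mem_insert.1 hj with rfl | hj
    · rw [hve, hz]
    · exact hv.2 j hj⟩
  have hv0 : v ≠ 0 := fun e => hd (by rw [← hvi, e]; rfl)
  have hDv : D1 (w (!s n)) (insert i n) := (hSTEP J R _ _ i hin).2.1 hd
  have hA : Vx m₀ L (insert i (insert l (insert l' (n ∪ n')))) :=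
    (((hV.union hV').insert he'.2.1).insert he.2.1).insert hi
  have s1 : n ⊆ insert i (insert l (insert l' (n ∪ n'))) := fun j hj => by simp [hj]
  have s2 : n' ⊆ insert i (insert l (insert l' (n ∪ n'))) := fun j hj => by simp [hj]
  have s3 : insert i n ⊆ insert i (insert l (insert l' (n ∪ n'))) :=
    insert_subset (mem_insert_self _ _) s1
  obtain ⟨k, hk, hkA, hev⟩ := hS.ch _ {(s n, x), (s n', x'), (!s n, v)} hA (by
    intro p hp
    simp only [mem_insert, mem_singleton] at hp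
    rcases hp with rfl | rfl | rfl
    · exact ⟨hx0, hx.mono hV.1 s1⟩
    · exact ⟨hx0', hx'.mono hV'.1 s2⟩
    · exact ⟨hv0, hv.mono hV.1 s3⟩)
  have e1 := hev (s n, x) (by simp)
  have e2 := hev (s n', x') (by simp)
  have e3 := hev (!s n, v) (by simp)
  have k1 : k ∉ n := fun e => hkA (s1 e)
  have k2 : k ∉ n' := fun e => hkA (s2 e)
  have k3 : k ∉ insert i n := fun e => hkA (s3 e)
  have d1 : dt (w (s n)) (insert k n) ≠ 0 :=
    ((hSTEP J R _ n k k1).2.2 m₀ L _ x (hS.rc _) ⟨hV, hk, k1⟩ (hS.un _ k hk).ne_zero hx e1).2 hD1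
  have d2 : dt (w (s n')) (insert k n') ≠ 0 :=
    ((hSTEP J R _ n' k k2).2.2 m₀ L _ x' (hS.rc _) ⟨hV', hk, k2⟩ (hS.un _ k hk).ne_zero hx'
      e2).2 hD1'
  have d3 : dt (w (!s n)) (insert k (insert i n)) ≠ 0 :=
    ((hSTEP J R _ _ k k3).2.2 m₀ L _ v (hS.rc _) ⟨hV.insert hi, hk, k3⟩ (hS.un _ k hk).ne_zero hv2
      e3).2 hDv
  refine ⟨k, hk, fun e => hkA ?_, fun e => hkA (by simp [e]), fun e => hkA (by simp [e]),
    mul_ne_zero d1 hd, mul_ne_zero d2 hd', ?_⟩
  · rcases mem_insert.1 e with rfl | e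
    · exact mem_insert_self _ _
    · exact (mem_union.1 e).elim (s1 ·) (s2 ·)
  · rw [De, hS.sd n k hk k1, Bool.not_not, insert_comm]
    exact mul_ne_zero d3 d1

theorem REACH_pf (hMOVE : MOVE_st) : REACH_st := by
  intro J R _ _ w m₀ L u s h2 hS m l B he hD hB
  suffices h : ∃ m' l', Ed m₀ L m' l' ∧ De w s m' l' ≠ 0 ∧ B ⊆ m' by
    obtain ⟨m', l', a, b, c⟩ := h
    exact ⟨m', l', a, b, c, fun e => a.2.2 (c e)⟩
  induction B using Finset.induction_on with
  | empty => exact ⟨m, l, he, hD, empty_subset _⟩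
  | insert i B _ ih =>
    have hi : i ∈ L := hB (by simp)
    obtain ⟨m', l', a, b, c⟩ := ih fun j hj => hB (by simp [mem_coe.1 hj])
    by_cases him : i ∈ m'
    · exact ⟨m', l', a, b, insert_subset him c⟩
    obtain ⟨k, hk, hk', -, -, -, -, hg⟩ := hMOVE J R w m₀ L u s h2 hS m' l' m' l' a b a b m' m'
      (Or.inl rfl) (Or.inl rfl) i hi him
    have a' : Ed m₀ L (insert k m') i := ⟨a.1.insert hk, hi, fun e => by
      rcases mem_insert.1 e with rfl | e
      · exact hk' (mem_insert_self _ _)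
      · exact him e⟩
    have hV := a'.1.insert hi
    obtain ⟨i', hi', hi'', -⟩ := hS.ch _ ∅ hV (by simp)
    obtain ⟨k', hk1, hk2, -, -, hg', -⟩ := hMOVE J R w m₀ L u s h2 hS _ _ _ _ a' hg a' hg _ _
      (Or.inr rfl) (Or.inr rfl) i' hi' hi''
    refine ⟨_, k', ⟨hV, hk1, fun e => hk2 (mem_insert_of_mem (mem_union_left _ e))⟩, hg', ?_⟩
    exact insert_subset_insert _ (c.trans (subset_insert _ _))

end Pool.Agent.MP_e23604_nt.V

end

section

set_option autoImplicit false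

open Finset
open scoped Classical

namespace Pool.Agent.MP_e23604_nt.V

section aux

variable {J R : Type} [CommRing R] [IsDomain R] {w : Bool → J → J → R} {m₀ : Finset J} {L : Set J}
  {u : Bool → J → R} {s : Finset J → Bool} {κ : Finset J → J →₀ R}

/-- the relation between two edges -/
def Rel_LCONN (w : Bool → J → J → R) (s : Finset J → Bool) (κ : Finset J → J →₀ R) (m : Finset J)
    (l : J) (m' : Finset J) (l' : J) : Prop :=
  Associated (ae w s κ m l ^ 2 * De w s m' l') (ae w s κ m' l' ^ 2 * De w s m l)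

theorem tr_LCONN {m m' m'' : Finset J} {l l' l'' : J} (h1 : Rel_LCONN w s κ m l m' l')
    (h0 : De w s m' l' ≠ 0) (h2 : Rel_LCONN w s κ m' l' m'' l'') : Rel_LCONN w s κ m l m'' l'' := by
  refine Associated.of_mul_right ?_ (Associated.refl _) h0
  have e1 := h1.mul_right (De w s m'' l'')
  have e2 := h2.mul_right (De w s m l)
  rw [mul_right_comm] at e1 e2
  rw [mul_right_comm _ (De w s m l) (De w s m' l')]
  exact e1.trans e2

omit [IsDomain R] in
theorem un_LCONN {a b x y : R} (ha : IsUnit a) (hb : IsUnit b) (h : a * x = b * y) :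
    Associated x y :=
  (associated_unit_mul_right x a ha).trans
    ((Associated.of_eq h).trans (associated_unit_mul_left y b hb))

omit [IsDomain R] in
theorem vx_LCONN {m n : Finset J} {l : J} (h : Ed m₀ L m l) (hn : n = m ∨ n = insert l m) :
    Vx m₀ L n := by
  rcases hn with rfl | rfl
  exacts [h.1, h.1.insert h.2.1]

omit [IsDomain R] in
theorem adj_LCONN (hADJ : ADJ_st) (hS : Sy w m₀ L u s) (hC : Cl w m₀ L s κ) {m n : Finset J}
    {l k : J} (h : Ed m₀ L m l) (hn : n = m ∨ n = insert l m) (hk : k ∈ L) (hk' : k ∉ n) :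
    Rel_LCONN w s κ m l n k := by
  rcases hn with rfl | rfl
  · by_cases e : k = l
    · rw [e]
      exact Associated.refl _
    have h1 := ((hADJ J R (w (s n)) m₀ n L (u (s n)) l (hS.rc _) h).2 k (κ n) hk
      fun h' => (mem_insert.1 h').elim e hk').1 (hC.ker n h.1)
    refine un_LCONN (hS.un (s n) l h.2.1) (hS.un (s n) k hk) ?_
    unfold ae De
    linear_combination dt (w (!s n)) n * h1
  · have e := hS.sd m l h.2.1 h.2.2
    have h1 := ((hADJ J R (w (s (insert l m))) m₀ m L (u (s (insert l m))) l (hS.rc _) h).2 k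
      (κ (insert l m)) hk hk').2 (hC.ker _ (h.1.insert h.2.1))
    refine (((hC.fs m l h).symm.pow_pow (n := 2)).mul_right _).trans
      (un_LCONN (hS.un (s (insert l m)) l h.2.1) (hS.un (s (insert l m)) k hk) ?_)
    unfold ae De
    rw [e] at h1 ⊢
    rw [Bool.not_not]
    linear_combination dt (w (s m)) (insert l m) * h1

end aux

theorem CONN_pf (hADJ : ADJ_st) (hMOVE : MOVE_st) : CONN_st := by
  intro J R _ _ w m₀ L u s κ h2 hS hC
  have key : ∀ N : ℕ, ∀ m l m' l', Ed m₀ L m l → De w s m l ≠ 0 → Ed m₀ L m' l' →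
      De w s m' l' ≠ 0 → ∀ n n' : Finset J, n = m ∨ n = insert l m → n' = m' ∨ n' = insert l' m' →
      (n \ n').card + (n' \ n).card = N → Rel_LCONN w s κ m l m' l' := by
    intro N
    induction N using Nat.strong_induction_on with
    | _ N ih =>
      have step : ∀ m l m' l', Ed m₀ L m l → De w s m l ≠ 0 → Ed m₀ L m' l' →
          De w s m' l' ≠ 0 → ∀ n n' : Finset J, n = m ∨ n = insert l m →
          n' = m' ∨ n' = insert l' m' → (n \ n').card + (n' \ n).card = N →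
          ∀ i ∈ n', i ∉ n → Rel_LCONN w s κ m l m' l' := by
        intro m l m' l' e g e' g' n n' hn hn' hN i hi hi'
        have v := vx_LCONN e hn
        have v' := vx_LCONN e' hn'
        have iL : i ∈ L := v'.2 i hi fun h => hi' (v.1 h)
        obtain ⟨k, kL, k1, -, -, g1, g2, g3⟩ :=
          hMOVE J R w m₀ L u s h2 hS m l m' l' e g e' g' n n' hn hn' i iL hi'
        simp only [mem_insert, mem_union, not_or] at k1
        have i1 : i ∉ insert k n := fun h => (mem_insert.1 h).elim (fun h => k1.1 h.symm) hi'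
        have c1 : (insert i (insert k n) \ insert k n').card ≤ (n \ n').card :=
          card_le_card fun x hx => by
            simp only [mem_sdiff, mem_insert, not_or] at hx ⊢
            obtain ⟨a | a | a, b, c⟩ := hx
            exacts [absurd (a ▸ hi) c, absurd a b, ⟨a, c⟩]
        have c2 : (insert k n' \ insert i (insert k n)).card < (n' \ n).card := by
          refine card_lt_card ((ssubset_iff_of_subset fun x hx => ?_).2
            ⟨i, mem_sdiff.2 ⟨hi, hi'⟩, fun h => (mem_sdiff.1 h).2 (mem_insert_self _ _)⟩)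
          simp only [mem_sdiff, mem_insert, not_or] at hx ⊢
          exact ⟨hx.1.resolve_left hx.2.2.1, hx.2.2.2⟩
        have r := ih _ (by omega) (insert k n) i n' k ⟨v.insert kL, iL, i1⟩ g3 ⟨v', kL, k1.2.2⟩ g2
          _ _ (Or.inr rfl) (Or.inr rfl) rfl
        exact tr_LCONN (tr_LCONN (tr_LCONN (adj_LCONN hADJ hS hC e hn kL k1.2.1) g1
          (adj_LCONN hADJ hS hC ⟨v, kL, k1.2.1⟩ (Or.inr rfl) iL i1)) g3 r) g2
          (adj_LCONN hADJ hS hC e' hn' kL k1.2.2).symm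
      intro m l m' l' e g e' g' n n' hn hn' hN
      by_cases h1 : n' ⊆ n
      · by_cases h3 : n ⊆ n'
        · obtain rfl := Subset.antisymm h1 h3
          obtain ⟨i, iL, hi, -⟩ := hS.ch n' ∅ (vx_LCONN e hn) fun p hp => absurd hp (notMem_empty p)
          obtain ⟨k, kL, k1, -, -, g1, -, -⟩ :=
            hMOVE J R w m₀ L u s h2 hS m l m' l' e g e' g' n' n' hn hn' i iL hi
          simp only [mem_insert, mem_union, not_or] at k1
          exact tr_LCONN (adj_LCONN hADJ hS hC e hn kL k1.2.1) g1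
            (adj_LCONN hADJ hS hC e' hn' kL k1.2.1).symm
        · obtain ⟨i, hi, hi'⟩ := not_subset.1 h3
          exact (step m' l' m l e' g' e g n' n hn' hn (by omega) i hi hi').symm
      · obtain ⟨i, hi, hi'⟩ := not_subset.1 h1
        exact step m l m' l' e g e' g' n n' hn hn' hN i hi hi'
  intro m l m' l' e g e' g'
  exact key _ m l m' l' e g e' g' m m' (Or.inl rfl) (Or.inl rfl) rfl

end Pool.Agent.MP_e23604_nt.V

end

section

set_option autoImplicit false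

open Finset
open scoped Classical

namespace Pool.Agent.MP_e23604_nt.V

theorem sd1_LTOPB {J : Type} {m : Finset J} {q : J} (h : q ∉ m) : insert q m \ m = {q} := by
  ext j
  simp only [mem_sdiff, mem_insert, mem_singleton]
  constructor
  · rintro ⟨h1 | h1, h2⟩
    · exact h1
    · exact absurd h1 h2
  · rintro rfl
    exact ⟨Or.inl rfl, h⟩

theorem sd2_LTOPB {J : Type} {m : Finset J} {q l : J} (h : q ∉ m) (h' : l ∉ m) :
    insert q (insert l m) \ m = {q, l} := by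
  ext j
  simp only [mem_sdiff, mem_insert, mem_singleton]
  constructor
  · rintro ⟨h1 | h1 | h1, h2⟩
    · exact Or.inl h1
    · exact Or.inr h1
    · exact absurd h1 h2
  · rintro (rfl | rfl)
    · exact ⟨Or.inl rfl, h⟩
    · exact ⟨Or.inr (Or.inl rfl), h'⟩

theorem TOPB_pf : TOPB_st := by
  intro J O _ _ w m₀ L u q b h2 hq hu hrc hb hb0
  have hV : Vx m₀ (insert q L) (insert q m₀) := (Vx.refl m₀ _).insert (Set.mem_insert _ _)
  have hbk : Kr w m₀ m₀ b := hb.mono (subset_insert _ _) subset_rfl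
  have hbq : ev (w q) b = 0 := hb.2 q (mem_insert_self _ _)
  refine ⟨fun hdep ξ hξ hξq x hx => ?_, fun hD l ξ hl hl' hul hlb hξ hξq hξl x hx => ?_⟩
  · have hxq : ev (w q) x = 0 := hx.2 q (mem_insert_self _ _)
    have hx' : Kr w m₀ (insert q m₀) x := hx.mono (subset_insert _ _) subset_rfl
    have h1 := hrc _ x ξ hV hx' (hξ.mono subset_rfl (subset_insert _ _))
    rw [sd1_LTOPB hq, rsum, sum_singleton, hxq, zero_mul, zero_add] at h1
    have h0 : x q = 0 :=
      (mul_eq_zero.1 ((mul_eq_zero.1 h1).resolve_left hu)).resolve_right hξq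
    refine ⟨h0, ?_⟩
    obtain ⟨α, β, γ, hne, hsum⟩ := hdep x b ξ (hx'.erase h0) hbk hξ
    have h3 := congrArg (ev (w q)) hsum
    simp only [map_add, map_smul, hxq, hbq, smul_eq_mul, mul_zero, zero_add, map_zero] at h3
    have hγ : γ = 0 := (mul_eq_zero.1 h3).resolve_right hξq
    rw [hγ, zero_smul, add_zero] at hsum
    refine ⟨α, -β, fun hα => ?_, by rw [neg_smul]; exact eq_neg_of_add_eq_zero_left hsum⟩
    rw [hα, zero_smul, zero_add] at hsum
    rcases hne with h | h | h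
    · exact h hα
    · exact hb0 ((smul_eq_zero.1 hsum).resolve_left h)
    · exact h hγ
  · have hlq : l ≠ q := fun e => hl' (e ▸ mem_insert_self _ _)
    have hlm : l ∉ m₀ := fun e => hl' (mem_insert_of_mem e)
    have h1 := hrc _ ξ ξ hV hξ hξ
    rw [sd1_LTOPB hq, rsum, sum_singleton] at h1
    have h1' : (2 * u q * ξ q) * ev (w q) ξ = 0 := by rw [← h1]; ring
    have hq0 : ev (w q) ξ = 0 :=
      (mul_eq_zero.1 h1').resolve_left (mul_ne_zero (mul_ne_zero h2 hu) hξq)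
    have hV2 : Vx m₀ (insert q L) (insert q (insert l m₀)) :=
      ((Vx.refl m₀ _).insert (Set.mem_insert_of_mem _ hl)).insert (Set.mem_insert _ _)
    have hxq : ev (w q) x = 0 := hx.2 q (mem_insert_self _ _)
    have hxl : ev (w l) x = 0 := hx.2 l (mem_insert_of_mem (mem_insert_self _ _))
    have hx' : Kr w m₀ (insert q (insert l m₀)) x :=
      hx.mono ((subset_insert _ _).trans (subset_insert _ _)) subset_rfl
    have hξ' : Kr w m₀ (insert q (insert l m₀)) ξ :=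
      hξ.mono subset_rfl (insert_subset_insert _ (subset_insert _ _))
    have h3 := hrc _ x ξ hV2 hx' hξ'
    rw [sd2_LTOPB hq hlm, rsum, sum_pair hlq.symm, hxq, hq0, hxl] at h3
    have h3' : (u l * ev (w l) ξ) * x l = 0 := by rw [← h3]; ring
    have hl0 : x l = 0 := (mul_eq_zero.1 h3').resolve_left (mul_ne_zero hul hξl)
    have hy : Kr w m₀ m₀ (ξ q • x - x q • ξ) := by
      refine (((hx'.smul (ξ q)).sub (hξ'.smul (x q))).erase ?_).erase ?_
      · simp [mul_comm]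
      · simp [hl0, hξ.out hl']
    obtain ⟨α, β, hα, hsum⟩ := hD b _ hbk hy hb0
    have h4 := congrArg (ev (w l)) hsum
    simp only [map_sub, map_smul, hxl, hlb, smul_eq_mul, mul_zero, zero_sub] at h4
    have h4' : (α * ev (w l) ξ) * x q = 0 := by linear_combination -h4
    have h0 : x q = 0 := (mul_eq_zero.1 h4').resolve_left (mul_ne_zero hα hξl)
    refine ⟨h0, α * ξ q, β, mul_ne_zero hα hξq, ?_⟩
    rw [← hsum, h0, zero_smul, sub_zero, smul_smul]

theorem EUL_pf : EUL_st := by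
  intro J R _ w m S c hd hw
  rw [dt, ← Matrix.det_submatrix_equiv_self (Equiv.Finset.union m S hd)]
  have e : (Matrix.of fun i j : ↥(m ∪ S) => w i j).submatrix (Equiv.Finset.union m S hd)
      (Equiv.Finset.union m S hd) = Matrix.fromBlocks (Matrix.of fun i j : m => w i j)
        (Matrix.of fun (i : m) (j : S) => w i j) 0 (Matrix.diagonal fun i : S => c i) := by
    ext i j
    rcases i with i | i <;> rcases j with j | j
    · rfl
    · rfl
    · change w i j = 0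
      rw [hw i i.2, if_neg]
      intro e
      exact disjoint_left.1 hd j.2 (e ▸ i.2)
    · change w i j = Matrix.diagonal (fun i : S => c i) i j
      rw [hw i i.2, Matrix.diagonal_apply]
      by_cases e : i = j
      · subst e
        simp
      · rw [if_neg e, if_neg]
        intro e'
        exact e (Subtype.ext e'.symm)
  rw [e, Matrix.det_fromBlocks_zero₂₁, Matrix.det_diagonal, Finset.prod_coe_sort S c, mul_comm]
  rfl

open PowerSeries in
theorem col_LTOPB {J k : Type} [Field k] (w : J → J → k⟦X⟧) (m : Finset J) (x : J →₀ k)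
    (hx : Kr (fun i j => constantCoeff (w i j)) m m x) :
    ∃ v : m → k⟦X⟧, (fun i : m => ∑ j : m, (C (x j) : k⟦X⟧) • w i j) = (X : k⟦X⟧) • v := by
  have h : ∀ i : m, (X : k⟦X⟧) ∣ ∑ j : m, (C (x j) : k⟦X⟧) • w i j := by
    intro i
    rw [X_dvd_iff, map_sum]
    have h1 := hx.2 i i.2
    rw [ev_apply _ x hx.1, ← Finset.sum_coe_sort] at h1
    rw [← h1]
    refine sum_congr rfl fun j _ => ?_
    simp [mul_comm]
  choose v hv using h
  exact ⟨v, funext fun i => by rw [hv i]; rfl⟩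

open PowerSeries in
theorem ORD_pf (hKER : KER_st) : ORD_st := by
  intro J k _ w m x y hx hy hind
  have hx0 : x ≠ 0 := fun e => one_ne_zero (hind 1 0 (by simp [e])).1
  obtain ⟨j1, hj1⟩ := Finsupp.support_nonempty_iff.2 hx0
  have hx1 : x j1 ≠ 0 := Finsupp.mem_support_iff.1 hj1
  have hz : Kr (fun i j => constantCoeff (w i j)) m m (x j1 • y - y j1 • x) :=
    (hy.smul _).sub (hx.smul _)
  have hz0 : x j1 • y - y j1 • x ≠ 0 := fun e =>
    hx1 (hind (-y j1) (x j1) (by rw [← e, neg_smul]; abel)).2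
  have hz1 : (x j1 • y - y j1 • x) j1 = 0 := by simp [mul_comm]
  generalize x j1 • y - y j1 • x = z at hz hz0 hz1
  obtain ⟨j2, hj2⟩ := Finsupp.support_nonempty_iff.2 hz0
  have hz2 : z j2 ≠ 0 := Finsupp.mem_support_iff.1 hj2
  have hne : j1 ≠ j2 := fun e => hz2 (e ▸ hz1)
  obtain ⟨a, ha⟩ : ∃ a : m, (a : J) = j1 := ⟨⟨j1, hx.1 hj1⟩, rfl⟩
  obtain ⟨b, hb⟩ : ∃ b : m, (b : J) = j2 := ⟨⟨j2, hz.1 hj2⟩, rfl⟩
  subst ha hb
  have hab : a ≠ b := fun e => hne (e ▸ rfl)
  obtain ⟨v, hv⟩ := col_LTOPB w m x hx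
  obtain ⟨v', hv'⟩ := col_LTOPB w m z hz
  obtain ⟨M, hM⟩ : ∃ M : Matrix m m k⟦X⟧, M = Matrix.of fun i j : m => w i j := ⟨_, rfl⟩
  have e1 := Matrix.det_updateCol_sum M a (fun j : m => (C (x j) : k⟦X⟧))
  have hv1 : (fun i : m => ∑ j : m, (C (x j) : k⟦X⟧) • M i j) = (X : k⟦X⟧) • v := by
    rw [← hv, hM]
    rfl
  rw [hv1] at e1
  have e2 := Matrix.det_updateCol_sum (M.updateCol a ((X : k⟦X⟧) • v)) b
    (fun j : m => (C (z j) : k⟦X⟧))
  have hv2 : (fun i : m => ∑ j : m, (C (z j) : k⟦X⟧) • (M.updateCol a ((X : k⟦X⟧) • v)) i j) =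
      (X : k⟦X⟧) • v' := by
    rw [← hv', hM]
    funext i
    refine sum_congr rfl fun j _ => ?_
    by_cases e : j = a
    · rw [e, hz1, map_zero, zero_smul, zero_smul]
    · rw [Matrix.updateCol_ne e]
      rfl
  rw [hv2, e1, Matrix.det_updateCol_smul, Matrix.updateCol_comm _ hab,
    Matrix.det_updateCol_smul] at e2
  have hu : IsUnit (C (z b * x a) : k⟦X⟧) :=
    (isUnit_iff_ne_zero.2 (mul_ne_zero hz2 hx1)).map C
  have hd : (X : k⟦X⟧) ^ 2 ∣ C (z b * x a) * dt w m := by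
    refine ⟨((M.updateCol b v').updateCol a v).det, ?_⟩
    rw [dt, ← hM, map_mul, mul_assoc, sq, mul_assoc, e2]
    rfl
  exact (hu.dvd_mul_left).1 hd

end Pool.Agent.MP_e23604_nt.V

end

section

set_option autoImplicit false

open Finset
open scoped Classical

namespace Pool.Agent.MP_e23604_nt.V

section
variable {J R : Type} [CommRing R] {w : Bool → J → J → R} {e : Bool} {i₁ i₂ : J}
  {F : Fin 4 → J → R} {ξ ζ : R}

theorem ne_LSQR {l : J} (h1 : l ≠ i₁) (h2 : l ≠ i₂) (ε : Bool) :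
    wj w e i₁ i₂ F ξ ζ ε l = w ε l := by
  unfold wj
  split_ifs with h
  · rw [Function.update_of_ne h2, Function.update_of_ne h1, h]
  · rfl

theorem out_LSQR {l : J} {m : Finset J} (h1 : i₁ ∈ m) (h2 : i₂ ∈ m) (hl : l ∉ m) (ε : Bool) :
    wj w e i₁ i₂ F ξ ζ ε l = w ε l :=
  ne_LSQR (ne_of_mem_of_not_mem h1 hl).symm (ne_of_mem_of_not_mem h2 hl).symm ε

theorem not_LSQR : wj w e i₁ i₂ F ξ ζ (!e) = w (!e) := if_neg (by simp)

theorem kr_LSQR (hne : i₁ ≠ i₂) {m A : Finset J} (h1 : i₁ ∈ m) (h2 : i₂ ∈ m) {x : J →₀ R} :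
    Kr (wj w e i₁ i₂ F ξ ζ e) m A x ↔ Kr (w e) (m \ {i₁, i₂}) A x ∧
      ζ * ev (F 1) x - ξ * ev (F 0) x = 0 ∧ ζ * ev (F 3) x - ξ * ev (F 2) x = 0 := by
  have e1 : ev (wj w e i₁ i₂ F ξ ζ e i₁) x = ζ * ev (F 1) x - ξ * ev (F 0) x := by
    rw [wj, if_pos rfl, Function.update_of_ne hne, Function.update_self, ev_sub, ev_smul, ev_smul]
  have e2 : ev (wj w e i₁ i₂ F ξ ζ e i₂) x = ζ * ev (F 3) x - ξ * ev (F 2) x := by
    rw [wj, if_pos rfl, Function.update_self, ev_sub, ev_smul, ev_smul]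
  refine ⟨fun h => ⟨⟨h.1, fun i hi => ?_⟩, e1 ▸ h.2 _ h1, e2 ▸ h.2 _ h2⟩,
    fun h => ⟨h.1.1, fun i hi => ?_⟩⟩
  · simp only [mem_sdiff, mem_insert, mem_singleton, not_or] at hi
    rw [← ne_LSQR (w := w) (e := e) (F := F) (ξ := ξ) (ζ := ζ) hi.2.1 hi.2.2]
    exact h.2 i hi.1
  · by_cases a : i = i₁
    · rw [a, e1, h.2.1]
    by_cases b : i = i₂
    · rw [b, e2, h.2.2]
    rw [ne_LSQR a b]
    exact h.1.2 i (by simp [hi, a, b])

theorem side_LSQR (ε e : Bool) : ε = e ∨ ε = !e := by cases ε <;> cases e <;> simp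

end

theorem PEN_pf : PEN_st := by
  intro J R _ _ w m₀ L u s e i₁ i₂ F h ξ ζ
  refine ⟨fun h0 => ⟨h.un, fun ε => ?_, fun A t hA ht => ?_, h.sd⟩, fun κ d hp => ?_⟩
  · rcases side_LSQR ε e with rfl | rfl
    · intro A x y hA hx hy
      rw [kr_LSQR h.ne h.m1 h.m2] at hx hy
      obtain ⟨hx, a1, a2⟩ := hx
      obtain ⟨hy, b1, b2⟩ := hy
      have hb : bt F x y = 0 := by
        rcases h0 with h0 | h0 <;> refine (mul_eq_zero.1 ?_).resolve_left h0 <;> unfold bt
        · linear_combination -ev (F 3) y * a1 - ev (F 3) x * b1 + ev (F 1) x * b2 +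
            ev (F 1) y * a2
        · linear_combination ev (F 0) x * b2 + ev (F 0) y * a2 - ev (F 2) y * a1 -
            ev (F 2) x * b1
      rw [← h.rb A x y hA hx hy hb, rsum, rsum]
      exact sum_congr rfl fun l hl => by rw [out_LSQR h.m1 h.m2 (mem_sdiff.1 hl).2]
    · rw [not_LSQR]
      exact h.rc
  · obtain ⟨l, h1, h2, h3⟩ := h.ch A t hA fun p hp => ⟨(ht p hp).1, by
      have a := (ht p hp).2
      rcases side_LSQR p.1 e with b | b <;> rw [b] at a ⊢
      · simpa using ((kr_LSQR h.ne h.m1 h.m2).1 a).1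
      · rw [not_LSQR] at a
        simpa using a⟩
    exact ⟨l, h1, h2, fun p hp => by
      rw [out_LSQR (hA.1 h.m1) (hA.1 h.m2) h2]
      exact h3 p hp⟩
  · have hae : ∀ m l, Ed m₀ L m l → ae (wj w e i₁ i₂ F ξ ζ) s (fun m => ζ • κ m + ξ • d m) m l =
        ζ * ae w s κ m l + ξ * ae w s d m l := fun m l hm => by
      unfold ae
      rw [out_LSQR (hm.1.1 h.m1) (hm.1.1 h.m2) hm.2.2, map_add, map_smul, map_smul, smul_eq_mul,
        smul_eq_mul]
    refine ⟨⟨fun m hm => ?_, fun m l hm => ?_⟩, hae⟩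
    · rcases side_LSQR (s m) e with b | b
      · obtain ⟨k1, k2, k3, k4, k5, k6, k7, k8⟩ := hp.k9 m hm b
        rw [b, kr_LSQR h.ne (hm.1 h.m1) (hm.1 h.m2)]
        refine ⟨(k1.smul ζ).add (k2.smul ξ), ?_, ?_⟩ <;>
          simp only [map_add, map_smul, smul_eq_mul, k3, k4, k5, k6, k7, k8] <;> ring
      · obtain ⟨k1, k2⟩ := hp.k3 m hm b
        rw [b, not_LSQR]
        exact (k1.smul ζ).add (k2.smul ξ)
    · obtain ⟨v, hv, k1, k2⟩ := hp.fs m l hm
      rw [hae m l hm]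
      have : (ζ • κ (insert l m) + ξ • d (insert l m)) l =
          v * (ζ * ae w s κ m l + ξ * ae w s d m l) := by
        rw [Finsupp.add_apply, Finsupp.smul_apply, Finsupp.smul_apply, k1, k2, smul_eq_mul,
          smul_eq_mul]
        ring
      rw [this]
      exact associated_unit_mul_left _ _ hv

theorem SQR_pf (hCRV : CRV_st) (hKER : KER_st) : SQR_st := by
  intro J R _ _ w m₀ L u s e i₁ i₂ F h2 h m hm hΔ
  have m1 := hm.1 h.m1
  have m2 := hm.1 h.m2
  obtain ⟨D, hD⟩ : ∃ D : (J → R) → (J → R) → R, ∀ f g,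
      D f g = dt (Function.update (Function.update (w e) i₁ f) i₂ g) m := ⟨_, fun _ _ => rfl⟩
  have hW : ∀ f, ∃ x, Kr (w e) (m \ {i₁, i₂}) m x ∧ ev f x = 0 ∧ ∀ g, ev g x = D f g := by
    intro f
    obtain ⟨x, k1, -, -, k2⟩ := hCRV J R (Function.update (w e) i₁ f) (m.erase i₂) i₂
      (notMem_erase _ _)
    rw [insert_erase m2] at k1 k2
    refine ⟨x, ⟨k1.1, fun i hi => ?_⟩, ?_, fun g => by rw [k2, hD]⟩
    · simp only [mem_sdiff, mem_insert, mem_singleton, not_or] at hi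
      have := k1.2 i (mem_erase.2 ⟨hi.2.2, hi.1⟩)
      rwa [Function.update_of_ne hi.2.1] at this
    · have := k1.2 i₁ (mem_erase.2 ⟨h.ne, m1⟩)
      rwa [Function.update_self] at this
  have hW' : ∀ g, ∃ x, ∀ f, ev f x = D f g := by
    intro g
    obtain ⟨x, -, -, -, k2⟩ := hCRV J R (Function.update (w e) i₂ g) (m.erase i₁) i₁
      (notMem_erase _ _)
    rw [insert_erase m1] at k2
    exact ⟨x, fun f => by rw [k2, hD, Function.update_comm h.ne]⟩
  choose W w1 w2 w3 using hW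
  choose W' w4 using hW'
  have d0 : ∀ f, D f f = 0 := fun f => by rw [← w3, w2]
  have d1 : ∀ f g, D g f = -D f g := fun f g => by
    have a := d0 (f + g)
    rw [← w3, ev_add, w3, w3, ← w4, ← w4, ev_add, ev_add, w4, w4, w4, w4, d0, d0] at a
    linear_combination a
  have dj : ∀ ξ ζ, dt (wj w e i₁ i₂ F ξ ζ e) m = ζ * (ζ * D (F 1) (F 3) - ξ * D (F 0) (F 3)) -
      ξ * (ζ * D (F 1) (F 2) - ξ * D (F 0) (F 2)) := fun ξ ζ => by
    rw [wj, if_pos rfl, ← hD, ← w3, ev_sub, ev_smul, ev_smul, w3, w3, ← w4, ← w4, ev_sub, ev_sub,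
      ev_smul, ev_smul, ev_smul, ev_smul, w4, w4, w4, w4]
  have hd : dt (wj w e i₁ i₂ F 1 0 e) m = D (F 0) (F 2) := by rw [dj]; ring
  have hx : Kr (w e) (m \ {i₁, i₂}) m ((-1 : R) • W (F 2)) := (w1 _).smul _
  have ex : ∀ g, ev g ((-1 : R) • W (F 2)) = D g (F 2) := fun g => by
    rw [map_smul, w3, d1, smul_eq_mul]; ring
  have i1 := h.iso m _ _ hm hx hx
  have i2 := h.iso m _ _ hm (w1 (F 0)) (w1 (F 0))
  have i3 := h.iso m _ _ hm hx (w1 (F 0))
  simp only [bt, ex, w3, d0] at i1 i2 i3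
  have hz : ∀ z, Kr (w e) (m \ {i₁, i₂}) m z →
      D (F 0) (F 2) • z = ev (F 0) z • (-1 : R) • W (F 2) + ev (F 2) z • W (F 0) := by
    intro z hz
    by_contra a
    refine hΔ ((hKER J R _ m).2 ⟨_, sub_ne_zero.2 a, (kr_LSQR h.ne m1 m2).2
      ⟨(hz.smul _).sub ((hx.smul _).add ((w1 _).smul _)), ?_, ?_⟩⟩) <;>
      simp only [map_sub, map_add, map_smul _ (D _ _), map_smul _ (ev _ z), ex, w3, d0,
        smul_eq_mul] <;> ring
  rw [hd] at hΔ ⊢
  have a1 : D (F 3) (F 2) = 0 := (mul_eq_zero.1 (by linear_combination i1)).resolve_left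
    (mul_ne_zero h2 hΔ)
  have a2 : D (F 0) (F 1) = 0 := (mul_eq_zero.1 (by linear_combination -i2)).resolve_left
    (mul_ne_zero h2 hΔ)
  have a3 : D (F 0) (F 3) = D (F 1) (F 2) := mul_left_cancel₀ hΔ (by linear_combination i3)
  have a4 := congrArg (ev (F 3)) (hz _ (w1 (F 1)))
  simp only [map_add, map_smul _ (D _ _), ex, w3, smul_eq_mul, a1, a3] at a4
  refine ⟨D (F 1) (F 2), (-1 : R) • W (F 2), W (F 0), fun ξ ζ => ?_,
    (kr_LSQR h.ne m1 m2).2 ⟨hx, ?_, ?_⟩, (kr_LSQR h.ne m1 m2).2 ⟨w1 _, ?_, ?_⟩, ex _,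
    by rw [ex, d0], w2 _, w3 _ _, hz⟩
  · rw [dj, a3]
    linear_combination ζ ^ 2 * a4
  all_goals simp only [ex, w3, d0, a1, a2, a3]
  all_goals ring

end Pool.Agent.MP_e23604_nt.V

end

section

set_option autoImplicit false

open Finset
open scoped Classical

namespace Pool.Agent.MP_e23604_nt.V

section aux

variable {J R : Type} [CommRing R] {w : Bool → J → J → R} {e : Bool} {i₁ i₂ : J}
  {F : Fin 4 → J → R}

theorem not_LJT (ξ ζ : R) : wj w e i₁ i₂ F ξ ζ (!e) = w (!e) := if_neg (by cases e <;> simp)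

theorem row_LJT (ξ ζ : R) {l : J} (h1 : l ≠ i₁) (h2 : l ≠ i₂) :
    wj w e i₁ i₂ F ξ ζ e l = w e l := by
  rw [wj, if_pos rfl, Function.update_of_ne h2, Function.update_of_ne h1]

theorem ker_LJT (hne : i₁ ≠ i₂) {ξ ζ : R} {m A : Finset J} (h1 : i₁ ∈ m) (h2 : i₂ ∈ m)
    {x : J →₀ R} : Kr (wj w e i₁ i₂ F ξ ζ e) m A x ↔ Kr (w e) (m \ {i₁, i₂}) A x ∧
      ζ * ev (F 1) x - ξ * ev (F 0) x = 0 ∧ ζ * ev (F 3) x - ξ * ev (F 2) x = 0 := by
  have e1 : ev (wj w e i₁ i₂ F ξ ζ e i₁) x = ζ * ev (F 1) x - ξ * ev (F 0) x := by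
    rw [wj, if_pos rfl, Function.update_of_ne hne, Function.update_self, ev_sub, ev_smul, ev_smul]
  have e2 : ev (wj w e i₁ i₂ F ξ ζ e i₂) x = ζ * ev (F 3) x - ξ * ev (F 2) x := by
    rw [wj, if_pos rfl, Function.update_self, ev_sub, ev_smul, ev_smul]
  refine ⟨fun h => ⟨⟨h.1, fun i hi => ?_⟩, e1 ▸ h.2 _ h1, e2 ▸ h.2 _ h2⟩,
    fun h => ⟨h.1.1, fun i hi => ?_⟩⟩
  · simp only [mem_sdiff, mem_insert, mem_singleton, not_or] at hi
    rw [← row_LJT (w := w) (e := e) (F := F) ξ ζ hi.2.1 hi.2.2]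
    exact h.2 i hi.1
  · by_cases a1 : i = i₁
    · rw [a1, e1, h.2.1]
    by_cases a2 : i = i₂
    · rw [a2, e2, h.2.2]
    rw [row_LJT ξ ζ a1 a2]
    exact h.1.2 i (by simp [hi, a1, a2])

theorem edge_LJT {m₀ m : Finset J} {L : Set J} {s : Finset J → Bool} {l : J} (hs : Sd L s)
    (h : Ed m₀ L m l) : ∃ n n', Vx m₀ L n ∧ s n = (!e) ∧
      (n = m ∧ n' = insert l m ∨ n = insert l m ∧ n' = m) ∧ ∀ ξ ζ,
        De (wj w e i₁ i₂ F ξ ζ) s m l = dt (wj w e i₁ i₂ F ξ ζ e) n * dt (w (!e)) n' := by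
  by_cases a : s m = e
  · exact ⟨_, _, h.1.insert h.2.1, by rw [hs m l h.2.1 h.2.2, a], Or.inr ⟨rfl, rfl⟩,
      fun ξ ζ => by rw [De, a, not_LJT]⟩
  · have a' : s m = !e := Bool.eq_not_iff.2 a
    exact ⟨_, _, h.1, a', Or.inl ⟨rfl, rfl⟩,
      fun ξ ζ => by rw [De, a', not_LJT, Bool.not_not, mul_comm]⟩

end aux

theorem JT_pf (hPEN : PEN_st) (hSQR : SQR_st) (hGOOD : GOOD_st) (hSTEP : STEP_st) (hADJ : ADJ_st) (hKER : KER_st) (hCRV : CRV_st) : JT_st := by
  intro J R _ _ w m₀ L u s e i₁ i₂ F κ d j two hP hC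
  have key : ∀ m l, Ed m₀ L m l → De (wj w e i₁ i₂ F 1 0) s m l ≠ 0 →
      Associated ((ae w s κ m l + j * ae w s d m l) ^ 2 * De (wj w e i₁ i₂ F 1 0) s m l)
        (ae w s d m l ^ 2 * De (wj w e i₁ i₂ F j 1) s m l) := fun m l hE h0 => by
    obtain ⟨n, n', hn, -, -, hD⟩ := edge_LJT (w := w) (e := e) (i₁ := i₁) (i₂ := i₂) (F := F)
      hP.sd hE
    rw [hD] at h0
    have hΔ := left_ne_zero_of_mul h0
    obtain ⟨ξ₀, x, y, h1, -⟩ := hSQR J R w m₀ L u s e i₁ i₂ F two hP n hn hΔ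
    obtain ⟨h2, h3⟩ := hPEN J R w m₀ L u s e i₁ i₂ F hP ξ₀ (dt (wj w e i₁ i₂ F 1 0 e) n)
    obtain ⟨h4, h5⟩ := h3 κ d hC
    have h6 := mt ((hGOOD J R _ m₀ L u s _ (h2 (Or.inr hΔ)) h4).2 m l hE) (not_not.2 (by
      rw [hD, (mul_eq_zero.1 ((h1 _ _).trans (by ring))).resolve_right hΔ, zero_mul]))
    rw [not_not, h5 m l hE] at h6
    refine Associated.of_eq (mul_right_cancel₀ hΔ ?_)
    rw [hD, hD]
    linear_combination (-ae w s d m l ^ 2 * dt (w (!e)) n') * h1 j 1 + dt (w (!e)) n' *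
      (dt (wj w e i₁ i₂ F 1 0 e) n * (ae w s κ m l + 2 * j * ae w s d m l) -
        ξ₀ * ae w s d m l) * h6
  intro m l hE h0
  obtain ⟨n, n', hn, hs, hnn, hD⟩ := edge_LJT (w := w) (e := e) (i₁ := i₁) (i₂ := i₂) (F := F)
    hP.sd hE
  have h0' := h0
  rw [hD] at h0'
  have hΔ := left_ne_zero_of_mul h0'
  have hc := right_ne_zero_of_mul h0'
  by_cases hj : dt (wj w e i₁ i₂ F j 1 e) n = 0
  swap
  · exact ⟨m, l, hE, h0, by rw [hD]; exact mul_ne_zero hj hc, key m l hE h0⟩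
  obtain ⟨ξ₀, x, y, h1, hx, hy, x0, x2, y0, y2, hsp⟩ :=
    hSQR J R w m₀ L u s e i₁ i₂ F two hP n hn hΔ
  generalize hΔ' : dt (wj w e i₁ i₂ F 1 0 e) n = Δ at hΔ h1 hx hy x0 y2 hsp
  have hξ : ξ₀ = j * Δ := by
    have := h1 j 1
    rw [hj, zero_mul, one_mul, eq_comm, sq_eq_zero_iff, sub_eq_zero] at this
    exact this
  have m1 := hn.1 hP.m1
  have m2 := hn.1 hP.m2
  have cn : ∀ v, Kr (wj w e i₁ i₂ F ξ₀ Δ e) n n v → Kr (wj w e i₁ i₂ F j 1 e) n n v := by
    intro v hv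
    rw [ker_LJT hP.ne m1 m2] at hv ⊢
    refine ⟨hv.1, mul_left_cancel₀ hΔ ?_, mul_left_cancel₀ hΔ ?_⟩
    · linear_combination hv.2.1 + ev (F 0) v * hξ
    · linear_combination hv.2.2 + ev (F 2) v * hξ
  replace hx := cn x hx
  replace hy := cn y hy
  have un : ∀ ε, ∀ l ∈ L, u ε l ≠ 0 := fun ε l hl => (hP.un ε l hl).ne_zero
  have adj : ∀ (v : J → J → R) ε m l, RC v m₀ L (u ε) → Ed m₀ L m l →
      dt v m = 0 ∨ dt v (insert l m) = 0 := fun v ε m l h h' => mul_eq_zero.1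
    ((mul_eq_zero.1 (hADJ J R v m₀ m L _ l h h').1).resolve_left (mul_ne_zero two (un ε l h'.2.1)))
  have hz : dt (w (!e)) n = 0 ∧ D1 (w (!e)) n := by
    have a1 := adj _ _ m l hP.rc hE
    have a2 := hSTEP J R (w (!e)) m l hE.2.2
    rcases hnn with ⟨rfl, rfl⟩ | ⟨rfl, rfl⟩
    exacts [⟨a1.resolve_right hc, a2.1 hc⟩, ⟨a1.resolve_left hc, a2.2.1 hc⟩]
  obtain ⟨z, z0, z1⟩ := (hKER J R _ n).1 hz.1
  have dn : ∀ {ξ ζ : R} {A : Finset J} {v : J →₀ R}, n ⊆ A → Kr (wj w e i₁ i₂ F ξ ζ e) A A v →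
      Kr (w e) (m₀ \ {i₁, i₂}) A v := fun hA hv =>
    ((ker_LJT hP.ne (hA m1) (hA m2)).1 hv).1.mono
      (sdiff_subset_sdiff (hn.1.trans hA) subset_rfl) subset_rfl
  obtain ⟨k, kL, kn, hk⟩ := hP.ch n {(!e, z), (e, x)} hn (by
    simp only [mem_insert, mem_singleton, forall_eq_or_imp, forall_eq, if_true]
    refine ⟨⟨z0, ?_⟩, fun a => hΔ (by rw [← x0, a, map_zero]), dn subset_rfl hx⟩
    rw [if_neg (by cases e <;> simp)]
    exact z1.mono hn.1 subset_rfl)
  simp only [mem_insert, mem_singleton, forall_eq_or_imp, forall_eq] at hk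
  have E1 : Ed m₀ L n k := ⟨hn, kL, kn⟩
  have c1 := ((hSTEP J R (w (!e)) n k kn).2.2 m₀ L _ z hP.rc E1 (un _ k kL) z1 hk.1).2 hz.2
  have rw1 : ∀ ξ ζ, wj w e i₁ i₂ F ξ ζ e k = w e k := fun ξ ζ =>
    row_LJT ξ ζ (fun a => kn (a ▸ m1)) fun a => kn (a ▸ m2)
  have Sj := ((hPEN J R w m₀ L u s e i₁ i₂ F hP j 1).1 (Or.inr one_ne_zero)).rc e
  have S0 := ((hPEN J R w m₀ L u s e i₁ i₂ F hP 1 0).1 (Or.inl one_ne_zero)).rc e
  have red := ((hSTEP J R _ n k kn).2.2 m₀ L _ x Sj E1 (un _ k kL) hx (by rw [rw1]; exact hk.2)).1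
  obtain ⟨x', hx'⟩ : ∃ x', x' = ev (w e k) x • y - ev (w e k) y • x := ⟨_, rfl⟩
  have p1 : Kr (wj w e i₁ i₂ F j 1 e) (insert k n) (insert k n) x' := by
    have a := (hy.smul (ev (w e k) x)).sub (hx.smul (ev (w e k) y))
    rw [← hx'] at a
    refine ⟨a.1.trans (subset_insert _ _), fun i hi => (mem_insert.1 hi).elim (fun b => ?_) (a.2 i)⟩
    rw [b, rw1, hx', map_sub, map_smul, map_smul, smul_eq_mul, smul_eq_mul, mul_comm, sub_self]
  have p2 : x' ≠ 0 := fun a => mul_ne_zero hk.2 hΔ (by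
    have b := congrArg (ev (F 2)) (hx'.symm.trans a)
    rwa [map_sub, map_smul, map_smul, x2, y2, smul_zero, sub_zero, map_zero] at b)
  have p3 : ∀ v, Kr (wj w e i₁ i₂ F j 1 e) (insert k n) (insert k n) v →
      (ev (w e k) x * Δ) • v = ev (F 2) v • x' := fun v hv => by
    have a := hsp v ((ker_LJT hP.ne m1 m2).1 (red v (hv.mono (subset_insert _ _) subset_rfl))).1
    have b := congrArg (ev (w e k)) a
    have c := hv.2 k (mem_insert_self _ _)
    rw [rw1] at c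
    rw [map_smul, c, smul_zero, map_add, map_smul, map_smul, smul_eq_mul, smul_eq_mul] at b
    rw [mul_smul, a, hx']
    linear_combination (norm := module) -(b • x)
  have p4 : D1 (wj w e i₁ i₂ F j 1 e) (insert k n) := fun v v' hv hv' v0 => by
    have a := mul_ne_zero hk.2 hΔ
    refine ⟨ev (F 2) v * (ev (w e k) x * Δ), ev (F 2) v' * (ev (w e k) x * Δ),
      mul_ne_zero (fun b => smul_ne_zero a v0 (by rw [p3 v hv, b, zero_smul])) a, ?_⟩
    rw [mul_smul, p3 v' hv', mul_smul (ev (F 2) v'), p3 v hv, smul_comm]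
  have q0 : dt (wj w e i₁ i₂ F 1 0 e) n ≠ 0 := hΔ' ▸ hΔ
  obtain ⟨v, v0, v1⟩ := (hKER J R _ _).1 ((adj _ _ n k S0 E1).resolve_left q0)
  obtain ⟨k', kL', kn', hk'⟩ := hP.ch (insert k n) {(e, x'), (e, v)} (hn.insert kL) (by
    simp only [mem_insert, mem_singleton, forall_eq_or_imp, forall_eq, if_true]
    exact ⟨⟨p2, dn (subset_insert _ _) p1⟩, v0, dn (subset_insert _ _) v1⟩)
  simp only [mem_insert, mem_singleton, forall_eq_or_imp, forall_eq] at hk'
  have E2 : Ed m₀ L (insert k n) k' := ⟨hn.insert kL, kL', kn'⟩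
  have rw2 : ∀ ξ ζ, wj w e i₁ i₂ F ξ ζ e k' = w e k' := fun ξ ζ =>
    row_LJT ξ ζ (fun a => kn' (a ▸ mem_insert_of_mem m1)) fun a => kn' (a ▸ mem_insert_of_mem m2)
  have s1 : s (insert k n) = e := by rw [hP.sd n k kL kn, hs, Bool.not_not]
  have g0 : De (wj w e i₁ i₂ F 1 0) s (insert k n) k' ≠ 0 := by
    rw [De, s1, not_LJT]
    exact mul_ne_zero (((hSTEP J R _ _ k' kn').2.2 m₀ L _ v S0 E2 (un _ k' kL') v1
      (by rw [rw2]; exact hk'.2)).2 ((hSTEP J R _ n k kn).2.1 q0)) c1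
  refine ⟨_, _, E2, g0, ?_, key _ _ E2 g0⟩
  rw [De, s1, not_LJT]
  exact mul_ne_zero (((hSTEP J R _ _ k' kn').2.2 m₀ L _ x' Sj E2 (un _ k' kL') p1
    (by rw [rw2]; exact hk'.1)).2 p4) c1

end Pool.Agent.MP_e23604_nt.V

end

section

set_option autoImplicit false

namespace Pool.Agent.MP_e23604_nt.V

theorem KER_ok : KER_st := KER_pf
theorem TOPA_ok : TOPA_st := TOPA_pf KER_ok
theorem CRV_ok : CRV_st := CRV_pf
theorem ADJ_ok : ADJ_st := ADJ_pf CRV_ok
theorem STEP_ok : STEP_st := STEP_pf KER_ok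
theorem WALK_ok : WALK_st := WALK_pf KER_ok ADJ_ok STEP_ok
theorem IWA_ok : IWA_st := IWA_pf
theorem GOOD_ok : GOOD_st := GOOD_pf KER_ok STEP_ok
theorem MOVE_ok : MOVE_st := MOVE_pf CRV_ok KER_ok ADJ_ok STEP_ok
theorem REACH_ok : REACH_st := REACH_pf MOVE_ok
theorem CONN_ok : CONN_st := CONN_pf ADJ_ok MOVE_ok
theorem TOPB_ok : TOPB_st := TOPB_pf
theorem EUL_ok : EUL_st := EUL_pf
theorem ORD_ok : ORD_st := ORD_pf KER_ok
theorem PEN_ok : PEN_st := PEN_pf
theorem SQR_ok : SQR_st := SQR_pf CRV_ok KER_ok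
theorem JT_ok : JT_st := JT_pf PEN_ok SQR_ok GOOD_ok STEP_ok ADJ_ok KER_ok CRV_ok

end Pool.Agent.MP_e23604_nt.V

end

section

/-! The parity of the vertices with a minor that does not vanish. -/

set_option autoImplicit false

open Finset
open scoped Classical

namespace Pool.Agent.MP_e23604_nt.V

/-- parity -/
def PAR_st : Prop := ∀ (J R : Type) [CommRing R] [IsDomain R] (w : Bool → J → J → R)
  (m₀ : Finset J) (L : Set J) (u : Bool → J → R) (s : Finset J → Bool), (2 : R) ≠ 0 →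
  Sy w m₀ L u s →
  (∀ ε m m', Vx m₀ L m → Vx m₀ L m' → dt (w ε) m ≠ 0 → dt (w ε) m' ≠ 0 → s m = s m') ∧
    ∀ m l, Ed m₀ L m l → De w s m l ≠ 0 → ∀ n, Vx m₀ L n → dt (w (s n)) n = 0

open PowerSeries in
/-- a vector at the origin that is ramified at `q` -/
def XI_st : Prop := ∀ (J O : Type) [CommRing O] [IsDomain O] (w : J → J → O⟦X⟧) (m : Finset J)
  (q : J) (b : J →₀ O⟦X⟧), q ∉ m → Kr w m (insert q m) b → b q = X →
  b.mapRange constantCoeff (map_zero _) ≠ 0 → dt w m = 0 →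
  D1 (fun i j => constantCoeff (w i j)) m →
  ∃ ξ : J →₀ O, Kr (fun i j => constantCoeff (w i j)) m (insert q m) ξ ∧ ξ q ≠ 0

section aux

variable {J R : Type} [CommRing R] [IsDomain R] {w : Bool → J → J → R} {m₀ : Finset J} {L : Set J}
  {u : Bool → J → R} {s : Finset J → Bool} {ε : Bool}

theorem adj_LPAR (hADJ : ADJ_st) (h2 : (2 : R) ≠ 0) (hS : Sy w m₀ L u s) {m : Finset J} {i : J}
    (e : Ed m₀ L m i) (h : dt (w ε) m ≠ 0) : dt (w ε) (insert i m) = 0 :=
  (mul_eq_zero.1 ((mul_eq_zero.1 (hADJ J R (w ε) m₀ m L (u ε) i (hS.rc ε) e).1).resolve_left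
    (mul_ne_zero h2 (hS.un ε i e.2.1).ne_zero))).resolve_left h

theorem one_LPAR (hCRV : CRV_st) (hADJ : ADJ_st) (h2 : (2 : R) ≠ 0) (hS : Sy w m₀ L u s)
    {m : Finset J} {i : J} (e : Ed m₀ L m i) (h : dt (w ε) m ≠ 0) :
    ∃ x, x ≠ 0 ∧ Kr (w ε) m₀ (insert i m) x ∧ ∀ k ∈ L, k ∉ insert i m → ev (w ε k) x ≠ 0 →
      dt (w ε) (insert k (insert i m)) ≠ 0 := by
  obtain ⟨x, x1, x2, x3, -⟩ := hCRV J R (w ε) m i e.2.2
  have x4 : Kr (w ε) (insert i m) (insert i m) x := ⟨x1.1, fun j hj => by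
    rcases mem_insert.1 hj with rfl | hj
    · rw [x3, adj_LPAR hADJ h2 hS e h]
    · exact x1.2 j hj⟩
  refine ⟨x, fun e' => h (by rw [← x2, e']; rfl), x1.mono e.1.1 subset_rfl, fun k k1 k2 k3 k4 => ?_⟩
  have := ((hADJ J R (w ε) m₀ m L (u ε) i (hS.rc ε) e).2 k x k1 k2).2 x4
  rw [k4, mul_zero] at this
  exact mul_ne_zero (mul_ne_zero (hS.un ε k k1).ne_zero (pow_ne_zero 2 k3)) h this.symm

theorem two_LPAR (hCRV : CRV_st) (hADJ : ADJ_st) (h2 : (2 : R) ≠ 0) (hS : Sy w m₀ L u s)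
    {m m' A : Finset J} {i i' : J} (e : Ed m₀ L m i) (h : dt (w ε) m ≠ 0) (e' : Ed m₀ L m' i')
    (h' : dt (w ε) m' ≠ 0) (hA : Vx m₀ L A) (a : insert i m ⊆ A) (a' : insert i' m' ⊆ A) :
    ∃ k ∈ L, k ∉ A ∧ dt (w ε) (insert k (insert i m)) ≠ 0 ∧
      dt (w ε) (insert k (insert i' m')) ≠ 0 := by
  obtain ⟨x, x1, x2, x3⟩ := one_LPAR hCRV hADJ h2 hS e h
  obtain ⟨y, y1, y2, y3⟩ := one_LPAR hCRV hADJ h2 hS e' h'
  obtain ⟨k, k1, k2, k3⟩ := hS.ch A {(ε, x), (ε, y)} hA fun p hp => by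
    rcases mem_insert.1 hp with rfl | hp
    · exact ⟨x1, x2.mono subset_rfl a⟩
    · rw [mem_singleton.1 hp]
      exact ⟨y1, y2.mono subset_rfl a'⟩
  exact ⟨k, k1, k2, x3 k k1 (fun c => k2 (a c)) (k3 (ε, x) (by simp)),
    y3 k k1 (fun c => k2 (a' c)) (k3 (ε, y) (by simp))⟩

omit [IsDomain R] in
theorem sd_LPAR (hS : Sy w m₀ L u s) {m : Finset J} {i k : J} (e : Ed m₀ L m i) (k1 : k ∈ L)
    (k2 : k ∉ insert i m) : s (insert k (insert i m)) = s m := by
  rw [hS.sd _ k k1 k2, hS.sd _ i e.2.1 e.2.2, Bool.not_not]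

theorem red_LPAR (hCRV : CRV_st) (hADJ : ADJ_st) (h2 : (2 : R) ≠ 0) (hS : Sy w m₀ L u s)
    {m m' : Finset J} {i i' : J} (v : Vx m₀ L m) (h : dt (w ε) m ≠ 0) (v' : Vx m₀ L m')
    (h' : dt (w ε) m' ≠ 0) (i1 : i ∈ m') (i2 : i ∉ m) (i3 : i' ∈ m) (i4 : i' ∉ m') :
    ∃ n n', Vx m₀ L n ∧ dt (w ε) n ≠ 0 ∧ Vx m₀ L n' ∧ dt (w ε) n' ≠ 0 ∧ s n = s m ∧ s n' = s m' ∧
      (n \ n').card + (n' \ n).card < (m \ m').card + (m' \ m).card := by
  have e : Ed m₀ L m i := ⟨v, v'.2 i i1 fun c => i2 (v.1 c), i2⟩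
  have e' : Ed m₀ L m' i' := ⟨v', v.2 i' i3 fun c => i4 (v'.1 c), i4⟩
  have a : insert i m ⊆ m ∪ m' := insert_subset (mem_union_right _ i1) subset_union_left
  have a' : insert i' m' ⊆ m ∪ m' := insert_subset (mem_union_left _ i3) subset_union_right
  obtain ⟨k, k1, k2, k3, k4⟩ := two_LPAR hCRV hADJ h2 hS e h e' h' (v.union v') a a'
  refine ⟨_, _, (v.insert e.2.1).insert k1, k3, (v'.insert e'.2.1).insert k1, k4,
    sd_LPAR hS e k1 fun c => k2 (a c), sd_LPAR hS e' k1 fun c => k2 (a' c),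
    add_lt_add_of_lt_of_le (card_lt_card ⟨fun j hj => ?_, fun c => ?_⟩)
      (card_le_card fun j hj => ?_)⟩
  · simp only [mem_sdiff, mem_insert, not_or] at hj ⊢
    obtain ⟨rfl | rfl | hj, h3, -, h4⟩ := hj
    exacts [absurd rfl h3, absurd i1 h4, ⟨hj, h4⟩]
  · simpa using c (mem_sdiff.2 ⟨i3, i4⟩)
  · simp only [mem_sdiff, mem_insert, not_or] at hj ⊢
    obtain ⟨rfl | rfl | hj, h3, -, h4⟩ := hj
    exacts [absurd rfl h3, absurd i3 h4, ⟨hj, h4⟩]

theorem sub_LPAR (hCRV : CRV_st) (hADJ : ADJ_st) (h2 : (2 : R) ≠ 0) (hS : Sy w m₀ L u s)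
    {m m' : Finset J} {i : J} (v : Vx m₀ L m) (h : dt (w ε) m ≠ 0) (v' : Vx m₀ L m')
    (h' : dt (w ε) m' ≠ 0) (i1 : i ∈ m') (i2 : i ∉ m) (c : m ⊆ m') :
    ∃ n n', Vx m₀ L n ∧ dt (w ε) n ≠ 0 ∧ Vx m₀ L n' ∧ dt (w ε) n' ≠ 0 ∧ s n = s m ∧ s n' = s m' ∧
      (n \ n').card + (n' \ n).card < (m \ m').card + (m' \ m).card := by
  have e : Ed m₀ L m i := ⟨v, v'.2 i i1 fun c => i2 (v.1 c), i2⟩
  have a : insert i m ⊆ m' := insert_subset i1 c
  obtain ⟨k, k1, k2, k3, -⟩ := two_LPAR hCRV hADJ h2 hS e h e h v' a a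
  by_cases c' : m' ⊆ insert i m
  · rw [subset_antisymm c' a, adj_LPAR hADJ h2 hS e h] at h'
    exact absurd rfl h'
  obtain ⟨j, j1, j2⟩ := not_subset.1 c'
  obtain ⟨n, n', n1, n2, n3, n4, n5, n6, n7⟩ := red_LPAR hCRV hADJ h2 hS
    ((v.insert e.2.1).insert k1) k3 v' h' j1 (fun t => (mem_insert.1 t).elim
      (fun t => k2 (t ▸ j1)) j2) (mem_insert_self k _) k2
  refine ⟨n, n', n1, n2, n3, n4, n5.trans (sd_LPAR hS e k1 fun t => k2 (a t)), n6,
    n7.trans_le ?_⟩
  have b1 : (insert k (insert i m) \ m').card ≤ 1 := by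
    rw [← card_singleton k]
    refine card_le_card fun t ht => ?_
    obtain ⟨t1, t2⟩ := mem_sdiff.1 ht
    exact mem_singleton.2 ((mem_insert.1 t1).resolve_right fun t3 => t2 (a t3))
  have b2 : (m' \ insert k (insert i m)).card < (m' \ m).card :=
    card_lt_card ⟨sdiff_subset_sdiff subset_rfl ((subset_insert _ _).trans (subset_insert _ _)),
      fun t => by simpa using t (mem_sdiff.2 ⟨i1, i2⟩)⟩
  omega

end aux

theorem PAR_pf (hCRV : CRV_st) (hADJ : ADJ_st) : PAR_st := by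
  intro J R _ _ w m₀ L u s h2 hS
  have key : ∀ ε N, ∀ m m', Vx m₀ L m → Vx m₀ L m' → dt (w ε) m ≠ 0 → dt (w ε) m' ≠ 0 →
      (m \ m').card + (m' \ m).card = N → s m = s m' := fun ε N => by
    induction N using Nat.strong_induction_on with
    | _ N ih =>
      intro m m' v v' h h' hN
      by_cases c : m ⊆ m'
      · by_cases c' : m' ⊆ m
        · rw [subset_antisymm c c']
        obtain ⟨i, i1, i2⟩ := not_subset.1 c'
        obtain ⟨n, n', n1, n2, n3, n4, n5, n6, n7⟩ := sub_LPAR hCRV hADJ h2 hS v h v' h' i1 i2 c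
        rw [← n5, ← n6]
        exact ih _ (hN ▸ n7) n n' n1 n3 n2 n4 rfl
      obtain ⟨i', i3, i4⟩ := not_subset.1 c
      by_cases c' : m' ⊆ m
      · obtain ⟨n, n', n1, n2, n3, n4, n5, n6, n7⟩ := sub_LPAR hCRV hADJ h2 hS v' h' v h i3 i4 c'
        rw [← n5, ← n6]
        exact (ih _ (by omega) n n' n1 n3 n2 n4 rfl).symm
      obtain ⟨i, i1, i2⟩ := not_subset.1 c'
      obtain ⟨n, n', n1, n2, n3, n4, n5, n6, n7⟩ := red_LPAR hCRV hADJ h2 hS v h v' h' i1 i2 i3 i4
      rw [← n5, ← n6]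
      exact ih _ (hN ▸ n7) n n' n1 n3 n2 n4 rfl
  refine ⟨fun ε m m' v v' h h' => key ε _ m m' v v' h h' rfl, fun m l e g n v => ?_⟩
  by_contra h
  by_cases c : s n = s m
  · have := key _ _ n _ v (e.1.insert e.2.1) h (c ▸ left_ne_zero_of_mul g) rfl
    rw [hS.sd m l e.2.1 e.2.2, c] at this
    exact absurd this (by cases s m <;> decide)
  · have c' : s n = !s m := by
      revert c
      cases s n <;> cases s m <;> decide
    exact c (key _ _ n m v e.1 h (c' ▸ right_ne_zero_of_mul g) rfl)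

section series

open PowerSeries

variable {J O : Type} [CommRing O] [IsDomain O]

theorem div_LPAR {w : J → J → O⟦X⟧} {m A : Finset J} {v : J →₀ O⟦X⟧} (h : Kr w m A v)
    (h0 : v.mapRange constantCoeff (map_zero _) = 0) : ∃ v', Kr w m A v' ∧ v = (X : O⟦X⟧) • v' := by
  have h1 : ∀ j, ∃ c, v j = X * c := fun j => X_dvd_iff.2 (by
    simpa using DFunLike.congr_fun h0 j)
  choose c hc using h1
  have h2 : ∀ j, c j ≠ 0 → j ∈ v.support := fun j e =>
    Finsupp.mem_support_iff.2 (hc j ▸ mul_ne_zero X_ne_zero e)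
  have h3 : v = (X : O⟦X⟧) • Finsupp.onFinset v.support c h2 := by
    ext1 j
    simpa using hc j
  refine ⟨_, ⟨Finsupp.support_onFinset_subset.trans h.1, fun i hi => ?_⟩, h3⟩
  have := h.2 i hi
  rw [h3, map_smul, smul_eq_mul] at this
  exact (mul_eq_zero.1 this).resolve_left X_ne_zero

omit [IsDomain O] in
theorem red0_LPAR {w : J → J → O⟦X⟧} {m A : Finset J} {v : J →₀ O⟦X⟧} (h : Kr w m A v) :
    Kr (fun i j => constantCoeff (w i j)) m A (v.mapRange constantCoeff (map_zero _)) :=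
  ⟨Finsupp.support_mapRange.trans h.1, fun i hi => by
    rw [ev_map constantCoeff (w i) v, h.2 i hi, map_zero]⟩

theorem prim_LPAR {w : J → J → O⟦X⟧} {m A : Finset J} {v : J →₀ O⟦X⟧} (h : Kr w m A v)
    (h0 : v ≠ 0) : ∃ v', Kr w m A v' ∧ v'.mapRange constantCoeff (map_zero _) ≠ 0 := by
  obtain ⟨j, hj⟩ : ∃ j, v j ≠ 0 := by
    by_contra c
    exact h0 (Finsupp.ext fun j => by simpa using fun e => c ⟨j, e⟩)
  obtain ⟨n, hn⟩ : ∃ n, coeff n (v j) ≠ 0 := by
    by_contra c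
    exact hj (PowerSeries.ext fun n => by simpa using fun e => c ⟨n, e⟩)
  clear hj h0
  induction n generalizing v with
  | zero =>
    exact ⟨v, h, fun e => hn (by simpa using DFunLike.congr_fun e j)⟩
  | succ n ih =>
    by_cases e : v.mapRange constantCoeff (map_zero _) = 0
    · obtain ⟨v', h1, rfl⟩ := div_LPAR h e
      exact ih h1 (by simpa [coeff_succ_X_mul] using hn)
    · exact ⟨v, h, e⟩

end series

open PowerSeries in
theorem XI_pf (hKER : KER_st) : XI_st := by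
  intro J O _ _ w m q b hq hb bq b0 hd h1
  obtain ⟨v, v1, v2⟩ := (hKER J _ w m).1 hd
  obtain ⟨v, v2, v1⟩ := prim_LPAR v2 v1
  obtain ⟨α, β, a0, e⟩ := h1 _ _ ((red0_LPAR hb).erase (by simp [bq])) (red0_LPAR v2) b0
  have b1 : β ≠ 0 := fun c => v1 ((smul_eq_zero.1 (by rw [e, c, zero_smul])).resolve_left a0)
  obtain ⟨z, z1, z2⟩ := div_LPAR (((v2.mono subset_rfl (subset_insert q m)).smul (C α)).sub
    (hb.smul (C β))) (by
      ext j
      simpa [sub_eq_zero] using DFunLike.congr_fun e j)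
  refine ⟨_, red0_LPAR z1, ?_⟩
  have := DFunLike.congr_fun z2 q
  simp only [Finsupp.sub_apply, Finsupp.smul_apply, smul_eq_mul, v2.out hq, bq, mul_zero,
    zero_sub] at this
  have : z q = -C β := mul_left_cancel₀ X_ne_zero (by rw [← this]; ring)
  simpa [this] using b1

end Pool.Agent.MP_e23604_nt.V

end

section

/-!
The mean value of a periodic function on a commutative group.
-/

set_option autoImplicit false

open Finset
open scoped Classical BigOperators

namespace Pool.Agent.MP_e23604_nt.Z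

variable {A B : Type} [AddCommGroup A] [AddCommGroup B]

/-- the periods -/
def St (f : A → ℂ) : AddSubgroup A where
  carrier := {h | ∀ x, f (x + h) = f x}
  zero_mem' x := by rw [add_zero]
  add_mem' ha hb x := by rw [← add_assoc, hb, ha]
  neg_mem' {a} ha x := by rw [← ha, neg_add_cancel_right]

/-- periodic functions -/
def AP (f : A → ℂ) : Prop := (St f).FiniteIndex

/-- the mean value -/
noncomputable def Mn (f : A → ℂ) : ℂ := (∑ᶠ q : A ⧸ St f, f q.out) / (St f).index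

theorem AP.of_le {f : A → ℂ} (H : AddSubgroup A) [H.FiniteIndex] (h : H ≤ St f) : AP f :=
  AddSubgroup.finiteIndex_of_le h

theorem AP.const (c : ℂ) : AP fun _ : A => c := AP.of_le ⊤ fun _ _ _ => rfl

theorem AP.map₂ {f g : A → ℂ} (hf : AP f) (hg : AP g) (Φ : ℂ → ℂ → ℂ) :
    AP fun x => Φ (f x) (g x) := by
  have : (St f).FiniteIndex := hf
  have : (St g).FiniteIndex := hg
  exact AP.of_le (St f ⊓ St g) fun h hh x => by rw [hh.1 x, hh.2 x]

theorem AP.map {f : A → ℂ} (hf : AP f) (Φ : ℂ → ℂ) : AP fun x => Φ (f x) :=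
  hf.map₂ hf fun a _ => Φ a

theorem AP.mul {f g : A → ℂ} (hf : AP f) (hg : AP g) : AP fun x => f x * g x := hf.map₂ hg _

theorem AP.add {f g : A → ℂ} (hf : AP f) (hg : AP g) : AP fun x => f x + g x := hf.map₂ hg _

theorem AP.sum {ι : Type} {s : Finset ι} {f : ι → A → ℂ} (h : ∀ i ∈ s, AP (f i)) :
    AP fun x => ∑ i ∈ s, f i x := by
  induction s using Finset.induction_on with
  | empty => simpa using AP.const 0
  | insert i s hi ih =>
    simp only [sum_insert hi]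
    exact (h i (by simp)).add (ih fun j hj => h j (by simp [hj]))

theorem fi_comap (H : AddSubgroup B) [H.FiniteIndex] (φ : A →+ B) : (H.comap φ).FiniteIndex :=
  ⟨by
    rw [AddSubgroup.index_comap]
    exact (inferInstance : (H.addSubgroupOf φ.range).FiniteIndex).1⟩

theorem AP.comp {g : B → ℂ} (hg : AP g) (φ : A →+ B) : AP fun x => g (φ x) := by
  have : (St g).FiniteIndex := hg
  have := fi_comap (St g) φ
  exact AP.of_le ((St g).comap φ) fun h hh x => by rw [map_add, hh]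

end Pool.Agent.MP_e23604_nt.Z

end

section

/-!
Theta series of the Eisenstein integers and systems of weights: definitions.
-/

set_option autoImplicit false

open Finset QuadraticAlgebra Filter Topology
open scoped Classical BigOperators

namespace Pool.Agent.MP_e23604_nt.Z

open W

/-- the exponential -/
noncomputable def ex (x : ℂ) : ℂ := Complex.exp (2 * Real.pi * Complex.I * x)

/-- the trace -/
def trw (z : Zw) : ℤ := 2 * z.re - z.im

/-- the character modulo three -/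
def et (n : ℤ) : ℤ := if n % 3 = 1 then 1 else if n % 3 = 2 then -1 else 0

/-- periodic modulo `N / π` -/
def PN (N : ℕ) (g : Zw → ℂ) : Prop := ∀ x z, (N : Zw) ∣ pw * z → g (x + z) = g x

/-- the Fourier transform -/
noncomputable def Fo (N : ℕ) (g : Zw → ℂ) (x : Zw) : ℂ :=
  N / (Real.sqrt 3 : ℝ) * Mn fun y => g y * ex (trw (x * star y) / N)

/-- systems of weights -/
structure Sys (N j : ℕ) (X X₁ : Zw → ℤ → ℤ → ℂ) : Prop where
  pos : N ≠ 0
  dvd : 3 ∣ N
  pa : ∀ c d, PN N (fun a => X a c d) ∧ PN N fun a => X₁ a c d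
  pc : ∀ a c d, X a (c + N) d = X a c d ∧ X₁ a (c + N) d = X₁ a c d
  pd : ∀ a c d, X a c (d + N) = X a c d ∧ X₁ a c (d + N) = X₁ a c d
  odd : ∀ a c d, X a (-c) (-d) = -X a c d ∧ X₁ a (-c) (-d) = -X₁ a c d
  lawT : ∀ a c d, ex (1 / 3) * X a c (d + c) = ex (nw a / N) * X a c d
  lawS : ∀ a c d, Fo N (fun y => X y (-d) c) a = Complex.I * X₁ a c d
  lawU : ∀ a c d, ex (j / 3) * X₁ a c (d + 3 * c) = ex (3 * nw a / N) * X₁ a c d
  zero : ∀ a d, X₁ a 0 d = 0

theorem PN.per {N : ℕ} {g : Zw → ℂ} (h : PN N g) (x y : Zw) : g (x + N * y) = g x :=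
  h x _ ⟨pw * y, by ring⟩

end Pool.Agent.MP_e23604_nt.Z

end
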