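import Pool.Agent.Mg.Fe23604m.Ge613ea
import Pool.Agent.Mg.Fe23604m.G13e833
import Pool.Agent.Mg.Fe23604m.G5395e9
import Pool.Agent.Mg.Fe23604m.G8362cd
import Pool.Agent.Mg.Fe23604m.G19f17f

set_option linter.all false

section

/-!
The system of cocycles in the cyclotomic tower at three: definitions and statements.
-/

set_option autoImplicit false

open Finset Filter Matrix QuadraticAlgebra
open scoped Classical

namespace Pool.Agent.MP_e23604_nt.W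

open B R S

/-- the inertia groups outside three, the primes `p s` and the primes in `F` -/
abbrev Rp {S : Type} (p : S → Ax) (F : Set Ax) : Set GQ := RmI (Set.range p ∪ F)

/-- the two generators at three -/
structure X2 (n : ℕ) (x₁ x₂ : GQ) : Prop where
  k1 : x₁ ∈ GK
  k2 : x₂ ∈ GK
  c1 : cy 9 x₁ ≠ 1
  c2 : cy 9 x₂ = 1
  c3 : km 3 x₂ (io pw) ≠ 0
  l1 : lA n x₁ = 1
  l2 : lA n x₂ = 0

section defs

variable {Λ : Type} [CommRing Λ]

/-- the level -/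
def ML (r n : ℕ) : Zw := 3 ^ (n + 1) * (9 * r)

/-- the universal character of the cyclotomic tower -/
noncomputable def bt (E : Lm Λ) (n : ℕ) (g : GQ) : Λ := (1 + E.T) ^ (lA n g).val

/-- the deformation of the character of the twisted action -/
noncomputable def lm (E : Lm Λ) (χ : GQ → ZMod 3) (r n : ℕ) (g : GQ) : Λ :=
  E.ι (ω ^ (χ g).val * ps (ML r n) g) * bt E n g⁻¹

/-- the dual character -/
noncomputable def rh (E : Lm Λ) (χ : GQ → ZMod 3) (r n : ℕ) (g : GQ) : Λ :=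
  ((cy (3 ^ (n + 1)) g).val : Λ) * lm E χ r n g⁻¹

/-- a lift of the twisted norm -/
noncomputable def zL (N : ℕ) (U : Subgroup GQ) (lam : GQ → Λ) (θ : Qb) (g : GQ) : Λ :=
  ∑ y ∈ Xs U GK, lam (g * y)⁻¹ * ((km N g (y θ)).val : Λ)

/-- the bottom classes -/
noncomputable def zb (E : Lm Λ) (χ : GQ → ZMod 3) (r : ℕ) (a : Zw) (Q : ℕ → Pt) (n : ℕ) :
    GQ → Λ := zL (3 ^ (n + 1)) (UM (ML r n)) (lm E χ r n) (Th a (Q n))

/-- an element that acts as `a` -/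
noncomputable def sa (M a : Zw) : GQ :=
  Classical.epsilon fun s => s ∈ GK ∧ ∀ P : Pt, M • P = 0 → gal s P = a • P

/-- the factor that belongs to the auxiliary number -/
noncomputable def ee (E : Lm Λ) (χ : GQ → ZMod 3) (r : ℕ) (a : Zw) (n : ℕ) : Λ :=
  lm E χ r n (sa (ML r n) a) - nn a

/-- the constant -/
def cz (a : Zw) : Zw := (a ^ 3 - star a ^ 3) * (1 - star a ^ 3)

/-- auxiliary primes of level `n` -/
structure Aok (r : ℕ) (a : Zw) (n : ℕ) (q : Ax) : Prop where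
  sp : Sp (3 ^ (n + 1)) q.V q.w q.s
  cop : IsCoprime q.w (a * star a * ML r n)
  dec : q.V.D ≤ UM (ML r n)
  ine : q.t ∈ q.V.I
  one : km (3 ^ (n + 1)) q.t q.V.l = 1

/-- the choices -/
structure Cho (S : Type) where
  x₁ : ℕ → GQ
  x₂ : ℕ → GQ
  p : S → Ax
  y : Fin 4 → GQ
  g1 : ℕ → GQ

/-- the family `p` lists the primary prime factors of `r` -/
structure Pr {S : Type} (r : ℕ) (p : S → Ax) : Prop where
  tm : ∀ s, (p s).Tm
  inj : Function.Injective fun s => (p s).w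
  all : ∀ ϖ, PP ϖ ∧ ϖ ∣ r ↔ ∃ s, (p s).w = ϖ

variable {S : Type} [Fintype S]

/-- the data -/
noncomputable def dat (E : Lm Λ) (χ : GQ → ZMod 3) (r : ℕ) (a : Zw) (C : Cho S) : Dat Λ S where
  U n := UM (ML r n)
  D := V3.D
  ρ := rh E χ r
  lam := lm E χ r
  A := Ax
  σ := Ax.s
  τ := Ax.t
  nm q := q.V.l
  ok := Aok r a
  Rm := Rp C.p
  gen n := gnM (C.x₁ n) (C.x₂ n) C.p
  Φ n := PhC (E.m ^ n) (rh E χ r n) (C.x₁ n) (C.x₂ n) C.p
  Vd n := VdM (E.m ^ n) (rh E χ r n) (C.x₁ n) (C.x₂ n) C.p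
  y := C.y
  g1 := C.g1
  c0 := E.ι (cz a)

/-- good choices -/
structure Cok (E : Lm Λ) (χ : GQ → ZMod 3) (r : ℕ) (a : Zw) (C : Cho S) : Prop where
  tw : Tw χ r
  adm : Adm r a
  x2 : ∀ n, X2 n (C.x₁ n) (C.x₂ n)
  pr : Pr r C.p
  yD : ∀ i, C.y i ∈ V3.D
  spn : ∀ n b x, E.m ^ n ≤ b → Zf (lm E χ r n) ∅ b x → (∀ i, x (C.y i) ∈ b) →
    ∀ g ∈ V3.D, x g ∈ b
  obs : ∀ n b d, E.m ^ n ≤ b →
    (∀ v : Fin 4 → Λ, ∃ x, Zf (lm E χ r n) ∅ b x ∧ ∀ i, x (C.y i) - d * v i ∈ b) →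
    ∀ g ∈ V3.D, d * (rh E χ r n g - 1) ∈ b
  g1D : ∀ n, C.g1 n ∈ V3.D
  g1ρ : ∀ n, ∃ t, (rh E χ r n (C.g1 n) - 1) * t - E.ι (cz a) ∈ E.m ^ n
  g1l : ∀ n, ∃ t, (lm E χ r n (C.g1 n) - 1) * t - E.ι (cz a) ∈ E.m ^ n

end defs

/-! ### Cocycles -/

/-- cocycles at the ramified primes -/
def RAM_st : Prop := ∀ (χ : GQ → ZMod 3) (r : ℕ) (V : Plc) (R : Type) [CommRing R] [Finite R]
  (φ : Zw →+* R) (θ x : GQ → R), Tw χ r → Ov V r → IsNilpotent (3 : R) → Mu V.D θ →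
  (∀ g ∈ V.D, IsNilpotent (θ g - 1)) → (∀ τ ∈ V.I, θ τ = φ (ω ^ (χ τ).val)) → Co θ V.D x →
  Bo θ V.D fun g => 3 * x g

/-! ### The system -/

/-- the characters -/
def CHR_st : Prop := ∀ (Λ : Type) [CommRing Λ] (E : Lm Λ) (χ : GQ → ZMod 3) (r n : ℕ), Tw χ r →
  ON (UM (ML r n)) ∧ (∀ g ∈ GK, ∀ h ∈ GK, (g * h)⁻¹ * (h * g) ∈ UM (ML r n)) ∧
  Ch (E.m ^ n) (UM (3 ^ (n + 1))) (bt E n) ∧ Ch (E.m ^ n) (UM (ML r n)) (lm E χ r n) ∧
  Ch (E.m ^ n) (UM (ML r n)) (rh E χ r n) ∧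
  (∀ g ∈ GK, lm E χ r n g - 1 ∈ E.m ∧ rh E χ r n g - 1 ∈ E.m ∧
    E.ι pw ∣ lm E χ r n g - bt E n g⁻¹ ∧ E.ι pw ∣ rh E χ r n g - bt E n g ∧
    rh E χ r n g * lm E χ r n g - (cy (3 ^ (n + 1)) g).val ∈ E.m ^ n) ∧
  (∀ V : Plc, V.l ≠ 3 → ∀ τ ∈ V.I, bt E n τ = 1 ∧ lm E χ r n τ - E.ι (ω ^ (χ τ).val) ∈ E.m ^ n) ∧
  (∀ M : Zw, M ≠ 0 → 3 ^ (n + 1) ∣ M → (∀ u ∈ UM M, cy (3 ^ (n + 1)) u = 1) ∧
    ∀ s ∈ GK, ∀ c : Zw, (∀ P : Pt, M • P = 0 → gal s P = c • P) → cy (3 ^ (n + 1)) s = nn c) ∧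
  ∀ b, E.m ^ n ≤ b → Finite (Λ ⧸ b) ∧ Nonempty (ZMod (3 ^ (n + 1)) →+* Λ ⧸ b) ∧
    (∀ x ∈ E.m, IsNilpotent (Ideal.Quotient.mk b x)) ∧ ∀ j : ZMod (3 ^ (n + 1)) →+* Λ ⧸ b,
      Chr j (UM (ML r n)) fun g => Ideal.Quotient.mk b (lm E χ r n g)

/-- a good element of the decomposition group at three -/
def GON_st : Prop := ∀ (Λ : Type) [CommRing Λ] (E : Lm Λ) (χ : GQ → ZMod 3) (r n : ℕ) (a : Zw),
  Tw χ r → Adm r a → ∃ g ∈ V3.D, (∃ t, (rh E χ r n g - 1) * t - E.ι (cz a) ∈ E.m ^ n) ∧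
    ∃ t, (lm E χ r n g - 1) * t - E.ι (cz a) ∈ E.m ^ n

/-- existence of good choices -/
def PCK_st : Prop := ∀ (Λ : Type) [CommRing Λ] (E : Lm Λ) (χ : GQ → ZMod 3) (r : ℕ) (a : Zw),
  Tw χ r → Adm r a → ∃ (S : Type) (_ : Fintype S) (C : Cho S), Cok E χ r a C

/-- auxiliary primes -/
def AUX_st : Prop := ∀ (S : Type) (χ : GQ → ZMod 3) (r n : ℕ) (a : Zw) (p : S → Ax), Tw χ r →
  Adm r a → Pr r p →
  (∀ V : Plc, Ov V (3 * r) ↔ V.l = 3 ∨ ∃ q ∈ Set.range p ∪ ∅, Ov V q.w) ∧ Rp p ∅ ⊆ UM (ML r n) ∧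
  (∀ q, Aok r a n q → q.Tm ∧ q.s ∈ UM (ML r n) ∧ q.t ∈ UM (ML r n) ∧ ¬ Ov q.V (3 * r) ∧
    KP (a * ML r n) (ML r n) q.V q.w ∧ KP (star a * ML r n) (ML r n) q.V q.w ∧
    ∀ F : Set Ax, (∀ q' ∈ F, Aok r a n q' ∧ q'.V.l ≠ q.V.l) → q.t ∈ Rp p F) ∧
  (∀ N, ON N → ∀ u ∈ UM (ML r n), ∀ B : Finset ℕ, ∃ q, Aok r a n q ∧ q.V.l ∉ B ∧
    ∃ j j' : ℕ, (u ^ j)⁻¹ * q.s ∈ N ∧ (q.s ^ j')⁻¹ * u ∈ N) ∧
  ∀ (Λ : Type) [CommRing Λ] (E : Lm Λ) (θ : GQ → Λ), Ch (E.m ^ n) (UM (ML r n)) θ →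
    (∀ g ∈ GK, θ g - 1 ∈ E.m) → (∀ x₁ x₂, X2 n x₁ x₂ → MS (E.m ^ n) θ x₁ x₂ p) ∧
    (∀ q, Aok r a n q → q.Tr (E.m ^ n) θ) ∧ ∀ (I : Type) (Q : I → Ax), (∀ i, Aok r a n (Q i)) →
      Function.Injective (fun i => (Q i).V.l) → AdM (E.m ^ n) θ p Q

/-- reciprocity -/
def RCS_st : Prop := ∀ (Λ S I : Type) [CommRing Λ] [Fintype I] (E : Lm Λ) (χ : GQ → ZMod 3)
  (r n : ℕ) (a : Zw) (p : S → Ax) (Q : I → Ax) (b : Ideal Λ) (c x : GQ → Λ), Tw χ r → Adm r a →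
  Pr r p → (∀ i, Aok r a n (Q i)) → Function.Injective (fun i => (Q i).V.l) → E.m ^ n ≤ b →
  Zf (rh E χ r n) (Rp p (Set.range Q)) b c → Zf (lm E χ r n) (Rp p (Set.range Q)) b x →
  (∀ g ∈ V3.D, x g ∈ b) → 3 * ∑ i, (c (Q i).t * x (Q i).s - c (Q i).s * x (Q i).t) ∈ b

/-- the data form a system -/
def SYS_st : Prop := ∀ (Λ S : Type) [CommRing Λ] [Fintype S] (E : Lm Λ) (χ : GQ → ZMod 3) (r : ℕ)
  (a : Zw) (C : Cho S), Cok E χ r a C → Sys E (dat E χ r a C)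

/-- the Euler system -/
def EUL_st : Prop := ∀ (Λ S : Type) [CommRing Λ] [Fintype S] (E : Lm Λ) (χ : GQ → ZMod 3) (r : ℕ)
  (a a' : Zw) (C : Cho S) (Q : ℕ → Pt), Cok E χ r a C → a' = a ∨ a' = star a →
  (∀ n, Gen (ML r n) (Q n)) → ∃ κ, Eul E (dat E χ r a C) (zb E χ r a' Q) κ

/-- the change of the auxiliary number -/
def IDZ_st : Prop := ∀ (Λ S : Type) [CommRing Λ] [Fintype S] (E : Lm Λ) (χ : GQ → ZMod 3) (r : ℕ)
  (a : Zw) (C : Cho S) (Q : ℕ → Pt) (n : ℕ), Cok E χ r a C → Gen (ML r n) (Q n) →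
  ee E χ r (star a) n * (dat E χ r a C).zn (zb E χ r a Q) n -
      ee E χ r a n * (dat E χ r a C).zn (zb E χ r (star a) Q) n ∈ E.m ^ n ∧
    (dat E χ r a C).Dv (E.m ^ n) (ee E χ r a n - ee E χ r (star a) n) ∧
    (dat E χ r a C).Dv (Ideal.span {E.T} ⊔ E.m ^ n) (ee E χ r a n)

/-! ### The reduction modulo the prime over three -/

/-- relative norms -/
def RNM_st : Prop := ∀ (A : Type) [AddCommMonoid A] (F : Pt → A) (b M : Zw) (Q : Pt)
  (X : Finset GQ), b ≠ 0 → M ≠ 0 → 3 ∣ M → Gen (b * M) Q → Trv (UM (b * M)) (UM M) X →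
  ∑ y ∈ X, F (gal y Q) = ∑ T ∈ (tor b).filter fun T => Gen (b * M) (Q + T), F (Q + T)

/-- removal of one prime from the level -/
def SRP_st : Prop := ∀ (R : Type) [CommRing R] (N : ℕ) (j : ZMod N →+* R) (lam : GQ → R)
  (a M : Zw) (Q : Pt) (q : Ax), q.Tm → M ≠ 0 → 3 ∣ M → IsCoprime q.w M →
  IsCoprime a (6 * (q.w * M)) → Gen (q.w * M) Q → Chr j (UM M) lam →
  Bo (rho j lam) GK fun g => lam q.s * zc j (UM (q.w * M)) lam (Th a Q) g -
    (lam q.s - 1) * zc j (UM M) lam (Th a (q.w • Q)) g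

/-- removal of all primes other than three -/
def ZST_st : Prop := ∀ (R S : Type) [CommRing R] [Fintype S] (N r : ℕ) (j : ZMod N →+* R)
  (lam : GQ → R) (a M : Zw) (Q : Pt) (p : S → Ax), Squarefree r → ¬ 3 ∣ r → Pr r p → M ≠ 0 →
  3 ∣ M → IsCoprime (r : Zw) M → IsCoprime a (6 * (M * r)) → Gen (M * r) Q → Chr j (UM M) lam →
  ∃ Q', Gen M Q' ∧ Bo (rho j lam) GK fun g =>
    (∏ s, lam (p s).s) * zc j (UM (M * r)) lam (Th a Q) g -
      (∏ s, (lam (p s).s - 1)) * zc j (UM M) lam (Th a Q') g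

/-- the bottom of the tower -/
def BOT_st : Prop := ∀ (R : Type) [CommRing R] (n k : ℕ) (j : ZMod (3 ^ (n + 1)) →+* R) (a : Zw)
  (Q : Pt) (x : GQ), (3 : R) = 0 → IsCoprime a 6 → nn a % 9 ≠ 1 → n ≤ k → Gen (3 ^ (k + 1)) Q →
  x ∈ GK → cy 9 x = 1 → km 3 x (io pw) ≠ 0 →
  IsUnit (zc j (UM (3 ^ (k + 1))) (fun _ => 1) (Th a Q) x)

/-- binomials in characteristic three -/
def BIN_st : Prop :=
  (∀ (R : Type) [CommRing R] (t : R) (A k : ℕ), (3 : R) = 0 → IsNilpotent t →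
    (¬ 3 ∣ A → ∃ u, IsUnit u ∧ (1 + t) ^ A - 1 = t * u) ∧
    (¬ 3 ^ (k + 1) ∣ A → (1 + t) ^ A - 1 ∣ t ^ 3 ^ k)) ∧
  ∀ (n k c : ℕ), ∀ g ∈ GK, k ≤ n → cy (3 ^ (n + 1)) g = c →
    3 ^ k ∣ (lA n g).val ∨ 3 ^ k ∣ (lA n g⁻¹).val → c % 3 ^ (k + 1) = 1

/-- the comparison modulo the prime over three -/
def LAM_st : Prop := ∀ (Λ S : Type) [CommRing Λ] [Fintype S] (E : Lm Λ) (χ : GQ → ZMod 3) (r : ℕ)
  (a : Zw) (C : Cho S), Cok E χ r a C →
  (∀ (Q : ℕ → Pt) (n : ℕ), Gen (ML r n) (Q n) → ∃ u, u ∉ E.m ∧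
    (dat E χ r a C).zn (zb E χ r a Q) n - u * ((dat E χ r a C).dn n * ee E χ r a n) ∈
      Ideal.span {E.ι pw} ⊔ E.m ^ n) ∧
  ∃ d : ℕ, ∀ n, ∃ t, (dat E χ r a C).dn n * ee E χ r a n * t - E.T ^ d ∈
    Ideal.span {E.ι pw} ⊔ E.m ^ n

/-- the bound for the Selmer group in terms of rings -/
def HBR_st : Prop := ∀ (χ : GQ → ZMod 3) (r : ℕ), Tw χ r → HB χ r → ∃ c : ℕ,
  ∀ (R : Type) [CommRing R] (φ : Zw →+* R) (k : ℕ) (M : Zw) (x : GQ → R), Qt φ (pw ^ k) → M ≠ 0 →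
    (9 * r : Zw) ∣ M → 3 ^ k ∣ M → Co (lamZ φ χ M) GK x → Unr (3 * r) x →
    (∀ g ∈ V3.D, x g = 0) → ∀ u ∈ UM M, 3 ^ c * x u = 0

/-! ### Basic lemmas -/

section basic

variable {Λ R : Type} [CommRing Λ] [CommRing R]

theorem j_val {N : ℕ} (h : N ≠ 0) (j : ZMod N →+* R) (x : ZMod N) : j x = (x.val : R) := by
  have : NeZero N := ⟨h⟩
  rw [← map_natCast j, ZMod.natCast_zmod_val]

theorem zL_map {N : ℕ} (h : N ≠ 0) (π : Λ →+* R) (j : ZMod N →+* R) (U : Subgroup GQ)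
    (lam : GQ → Λ) (θ : Qb) (g : GQ) :
    π (zL N U lam θ g) = zc j U (fun g => π (lam g)) θ g := by
  simp only [zL, zc, map_sum, map_mul, map_natCast, j_val h]

theorem zc_map {N : ℕ} (π : Λ →+* R) (j : ZMod N →+* Λ) (U : Subgroup GQ) (lam : GQ → Λ) (θ : Qb)
    (g : GQ) : π (zc j U lam θ g) = zc (π.comp j) U (fun g => π (lam g)) θ g := by
  simp only [zc, map_sum, map_mul, RingHom.comp_apply]

theorem rh_map (E : Lm Λ) (χ : GQ → ZMod 3) (r n : ℕ) (π : Λ →+* R)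
    (j : ZMod (3 ^ (n + 1)) →+* R) (g : GQ) :
    π (rh E χ r n g) = rho j (fun g => π (lm E χ r n g)) g := by
  simp only [rh, rho, map_mul, map_natCast, j_val (pow_ne_zero _ three_ne_zero)]

theorem Ch.mono {b b' : Ideal Λ} {U U' : Subgroup GQ} {θ : GQ → Λ} (h : Ch b U θ) (h1 : b ≤ b')
    (h2 : U' ≤ U) : Ch b' U' θ :=
  ⟨fun g hg k hk => h1 (h.1 g hg k hk), fun g hg => h1 (h.2 g (h2 hg))⟩

theorem ML_ne {r : ℕ} (h : r ≠ 0) (n : ℕ) : ML r n ≠ 0 :=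
  mul_ne_zero (pow_ne_zero _ (by decide)) (mul_ne_zero (by decide) (Nat.cast_ne_zero.2 h))

theorem ML_eq (r n : ℕ) : ML r n = 3 ^ (n + 2 + 1) * r := by rw [ML]; ring

theorem pow3_mem {m : Ideal Λ} (h3 : 3 ∈ m) {x : Λ} (h : x - 1 ∈ m) (k : ℕ) :
    x ^ 3 ^ k - 1 ∈ m ^ (k + 1) := by
  induction k with
  | zero => simpa using h
  | succ k ih =>
    rw [show x ^ 3 ^ (k + 1) - 1 = (x ^ 3 ^ k - 1) * (3 + (x ^ 3 ^ k - 1) * (x ^ 3 ^ k + 2)) by
      ring, pow_succ _ (k + 1)]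
    exact Ideal.mul_mem_mul ih (add_mem h3 (Ideal.mul_mem_right _ _
      (Ideal.pow_le_self (by omega) ih)))

theorem Adm.star {r : ℕ} {a : Zw} (h : Adm r a) : Adm r (star a) :=
  ⟨⟨prime_of_nn (nn_star a ▸ h.deg), h.pp.2.star⟩, nn_star a ▸ h.deg,
    by simpa [starRingEnd_apply] using h.cop.map (starRingEnd Zw), nn_star a ▸ h.nine⟩

theorem Adm.ne_star {r : ℕ} {a : Zw} (h : Adm r a) : ¬ a ∣ Star.star a := by
  rintro ⟨u, e⟩
  have h1 : IsUnit u := nn_unit.2 (by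
    have := congrArg nn e
    rw [nn_star, nn_mul] at this
    exact (Nat.mul_eq_left h.deg.ne_zero).1 this.symm)
  have h2 : u = 1 := Pry.unit (by
    have := dvd_sub h.pp.2.star (h.pp.2.mul_right u)
    rw [e] at this
    exact (by convert this using 1; ring : (3 : Zw) ∣ u - 1)) h1
  rw [h2, mul_one] at e
  have h3 : a.im = 0 := by
    have := congrArg QuadraticAlgebra.im e
    simp at this
    omega
  have h4 : nn a = a.re.natAbs * a.re.natAbs := by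
    simp [nn, nw, QuadraticAlgebra.norm_def, h3, Int.natAbs_mul]
  rcases Nat.prime_mul_iff.1 (h4 ▸ h.deg) with k | k <;> exact k.1.one_lt.ne' k.2

theorem Adm.cop_star {r : ℕ} {a : Zw} (h : Adm r a) : IsCoprime a (Star.star a) :=
  h.pp.1.coprime_iff_not_dvd.2 h.ne_star

theorem Adm.cz_ne {r : ℕ} {a : Zw} (h : Adm r a) : cz a ≠ 0 :=
  mul_ne_zero (fun e => h.ne_star (h.pp.1.dvd_of_dvd_pow (n := 3)
    (sub_eq_zero.1 e ▸ dvd_pow_self a three_ne_zero))) fun e =>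
    h.star.pp.1.not_isUnit (IsUnit.of_pow_eq_one (sub_eq_zero.1 e).symm three_ne_zero)

theorem Adm.copM {r : ℕ} {a : Zw} (h : Adm r a) (n : ℕ) : IsCoprime a (6 * ML r n) := by
  have h3 : IsCoprime a 3 := h.cop.of_isCoprime_of_dvd_right ⟨2 * r, by ring⟩
  rw [ML_eq, mul_left_comm]
  exact h3.pow_right.mul_right h.cop

theorem Lm.unit_ι (E : Lm Λ) {c : Zw} (h : ¬ pw ∣ c) : IsUnit (E.ι c) :=
  E.unit _ fun e => h (by simpa using E.inj c 1 (Ideal.mem_sup_right (by simpa using e)))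

theorem zc_congr {N : ℕ} (j : ZMod N →+* R) {U : Subgroup GQ} (h : IsOpen (U : Set GQ))
    (hle : U ≤ GK) {lam lam' : GQ → R} (e : ∀ g ∈ GK, lam g = lam' g) (θ : Qb) {g : GQ}
    (hg : g ∈ GK) : zc j U lam θ g = zc j U lam' θ g :=
  sum_congr rfl fun y hy => by rw [e _ (inv_mem (mul_mem hg ((Xs_trv h hle).1 y hy)))]

theorem Chr.down (hP : PS_st) {N : ℕ} {j : ZMod N →+* R} {U : Subgroup GQ} {lam : GQ → R}
    (h : Chr j U lam) {M : Zw} (h0 : M ≠ 0) (e : UM M ≤ U) : Chr j (UM M) lam :=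
  ⟨h.pos, UM_open h0, UM_le M, fun g hg => ((hP M h0).1 g hg).2.2.2.2.2.2.1, h.mul,
    fun g hg => h.one g (e hg), fun g hg => h.cyc g (e hg)⟩

theorem sa_spec (h : SURJ_st) {M a : Zw} (h0 : M ≠ 0) (h1 : Pry a) (h2 : IsCoprime a M) :
    sa M a ∈ GK ∧ ∀ P : Pt, M • P = 0 → gal (sa M a) P = a • P :=
  Classical.epsilon_spec (h M a h0 h1 h2)

end basic

end Pool.Agent.MP_e23604_nt.W

end

section

/-!
The comparison modulo the prime over three.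
-/

set_option autoImplicit false

open Finset Filter Matrix QuadraticAlgebra
open scoped Classical

namespace Pool.Agent.MP_e23604_nt.W

open B R S

variable {Λ : Type} [CommRing Λ]

/-- the ideal -/
abbrev bb_LAM (E : Lm Λ) (n : ℕ) : Ideal Λ := Ideal.span {E.ι pw} ⊔ E.m ^ n

/-- the reduction -/
abbrev pi_LAM (E : Lm Λ) (n : ℕ) : Λ →+* Λ ⧸ bb_LAM E n := Ideal.Quotient.mk _

theorem T_LAM (E : Lm Λ) : E.T ∈ E.m := E.m_eq ▸ Ideal.subset_span (by simp)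

theorem dvd_LAM (E : Lm Λ) (n : ℕ) {x y : Λ} (h : E.ι pw ∣ x - y) :
    pi_LAM E n x = pi_LAM E n y :=
  Ideal.Quotient.eq.2 (Ideal.mem_sup_left (Ideal.mem_span_singleton.2 h))

theorem mem_LAM (E : Lm Λ) (n : ℕ) {x y : Λ} (h : x - y ∈ E.m ^ n) :
    pi_LAM E n x = pi_LAM E n y := Ideal.Quotient.eq.2 (Ideal.mem_sup_right h)

theorem three_LAM (E : Lm Λ) (n : ℕ) : (3 : Λ ⧸ bb_LAM E n) = 0 := by
  have h : E.ι pw ∣ 3 - 0 := by simpa only [map_ofNat, sub_zero] using map_dvd E.ι pw_dvd3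
  simpa only [map_ofNat, map_zero] using dvd_LAM E n h

theorem nn_LAM {R : Type} [CommRing R] (h3 : (3 : R) = 0) {w : Zw} (h : Pry w) : (nn w : R) = 1 := by
  rw [← Nat.div_add_mod (nn w) 3, nn_mod3 h.pw]
  simp [h3]

theorem bt_LAM (E : Lm Λ) (n : ℕ) (g : GQ) :
    pi_LAM E n (bt E n g) = (1 + pi_LAM E n E.T) ^ (lA n g).val := by
  rw [bt, map_pow, map_add, map_one]

variable {S : Type} [Fintype S] {E : Lm Λ} {χ : GQ → ZMod 3} {r : ℕ} {a : Zw} {C : Cho S}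

theorem dn_LAM (hCHR : CHR_st) (h : Cok E χ r a C) (n : ℕ) :
    pi_LAM E n ((dat E χ r a C).dn n) = ∏ s, (pi_LAM E n (bt E n (C.p s).s) - 1) := by
  obtain ⟨-, -, -, -, -, c6, c7, -⟩ := hCHR Λ E χ r n h.tw
  rw [Dat.dn, RingHom.map_det, ← det_diagonal]
  congr 1
  ext s s'
  have tm := h.pr.tm s
  have e : pi_LAM E n (rh E χ r n (C.p s).t) = 1 := by
    rw [dvd_LAM E n (c6 _ tm.ine.2).2.2.2.1, (c7 _ (tm.pp.l_neK tm.ov) _ tm.ine).1, map_one]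
  simp only [dat, PhC, PhM, RingHom.mapMatrix_apply, map_apply, submatrix_apply, of_apply, id,
    map_add, map_mul, map_sub, map_one, e, sub_self, zero_mul, zero_add, Sum.inr.injEq,
    diagonal_apply, apply_ite (pi_LAM E n), map_zero, map_sum, map_pow, one_pow, sum_const,
    card_range, nsmul_eq_mul, mul_one, nn_LAM (three_LAM E n) tm.pp.2,
    dvd_LAM E n (c6 _ tm.fr.1.2).2.2.2.1, eq_comm (a := s')]

omit [Fintype S] in
theorem ee_LAM (hBIN : BIN_st) (hCHR : CHR_st) (hSURJ : SURJ_st) (h : Cok E χ r a C) {n : ℕ}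
    (hn : 1 ≤ n) : ∃ u, IsUnit u ∧ pi_LAM E n (ee E χ r a n) = pi_LAM E n E.T * u := by
  obtain ⟨-, -, -, -, -, c6, -, c8, c9⟩ := hCHR Λ E χ r n h.tw
  have h0 := ML_ne h.tw.sf.ne_zero n
  obtain ⟨s1, s2⟩ := sa_spec hSURJ h0 h.adm.pp.2 (h.adm.copM n).of_mul_right_right
  rw [ee, map_sub, map_natCast, nn_LAM (three_LAM E n) h.adm.pp.2, dvd_LAM E n (c6 _ s1).2.2.1,
    bt_LAM]
  refine (hBIN.1 _ _ _ 0 (three_LAM E n) ((c9 _ le_sup_right).2.2.1 _ (T_LAM E))).1 fun e => ?_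
  exact h.adm.nine (hBIN.2 n 1 _ _ s1 hn ((c8 _ h0 (dvd_mul_right _ _)).2 _ s1 a s2)
    (Or.inr (by rwa [pow_one])))

theorem zn_LAM (hZST : ZST_st) (hBOT : BOT_st) (hCHR : CHR_st) (hPS : PS_st) (h : Cok E χ r a C)
    {n : ℕ} (hn : 1 ≤ n) {Q : ℕ → Pt} (hQ : Gen (ML r n) (Q n)) : ∃ u, IsUnit u ∧
      pi_LAM E n ((dat E χ r a C).zn (zb E χ r a Q) n) =
        pi_LAM E n E.T * u * pi_LAM E n ((dat E χ r a C).dn n) := by
  obtain ⟨-, -, c3, -, -, c6, -, c8, c9⟩ := hCHR Λ E χ r n h.tw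
  obtain ⟨-, ⟨j⟩, nil, chr⟩ := c9 (bb_LAM E n) le_sup_right
  have x := h.x2 n
  have p0 : 3 ^ (n + 1) ≠ 0 := pow_ne_zero _ three_ne_zero
  have M0 : (3 : Zw) ^ (n + 2 + 1) ≠ 0 := pow_ne_zero _ (by decide)
  have d3 : (3 : Zw) ^ (n + 1) ∣ 3 ^ (n + 2 + 1) := pow_dvd_pow _ (by omega)
  have l1 : ∀ g ∈ GK, pi_LAM E n (lm E χ r n g) = pi_LAM E n (bt E n g⁻¹) := fun g hg =>
    dvd_LAM E n (c6 g hg).2.2.1
  have e1 : pi_LAM E n (rh E χ r n (C.x₁ n)) = 1 + pi_LAM E n E.T := by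
    rw [dvd_LAM E n (c6 _ x.k1).2.2.2.1, bt_LAM, x.l1,
      ZMod.val_one'' (Nat.one_lt_pow (by omega) (by norm_num)).ne', pow_one]
  have e2 : pi_LAM E n (rh E χ r n (C.x₂ n)) = 1 := by
    rw [dvd_LAM E n (c6 _ x.k2).2.2.2.1, bt_LAM, x.l2, ZMod.val_zero, pow_zero]
  have ch : Chr j (UM (3 ^ (n + 2 + 1))) fun g => pi_LAM E n (lm E χ r n g) :=
    ⟨p0, UM_open M0, UM_le _, fun g hg => ((hPS _ M0).1 g hg).2.2.2.2.2.2.1, (chr j).mul,
      fun g hg => by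
        rw [l1 g hg.1, mem_LAM E n (c3.2 _ (UM_mono d3 (inv_mem hg))), map_one],
      (c8 _ M0 d3).1⟩
  have cr : IsCoprime (r : Zw) (3 ^ (n + 2 + 1)) := IsCoprime.pow_right (by
    simpa using (((Nat.prime_three.coprime_iff_not_dvd.2 h.tw.n3).symm).cast (R := Zw)))
  obtain ⟨Q', g', m, hm⟩ := hZST _ S _ r j _ a _ (Q n) C.p h.tw.sf h.tw.n3 h.pr M0
    (dvd_pow_self _ (by omega)) cr (ML_eq r n ▸ h.adm.copM n) (ML_eq r n ▸ hQ) ch
  have e3 := hm _ x.k2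
  rw [← rh_map, e2, sub_self, zero_mul, sub_eq_zero, ← ML_eq] at e3
  have u0 : IsUnit (zc j (UM (3 ^ (n + 2 + 1))) (fun g => pi_LAM E n (lm E χ r n g)) (Th a Q')
      (C.x₂ n)) := by
    obtain ⟨k, hk⟩ := nil _ (T_LAM E)
    have t0 : Ideal.Quotient.mk (Ideal.span {pi_LAM E n E.T}) (pi_LAM E n E.T) = 0 :=
      Ideal.Quotient.eq_zero_iff_mem.2 (Ideal.mem_span_singleton_self _)
    rw [← IsNilpotent.isUnit_quotient_mk_iff (I := Ideal.span {pi_LAM E n E.T})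
      ⟨k, by rw [Ideal.span_singleton_pow, hk, Ideal.span_singleton_zero]; rfl⟩, zc_map,
      zc_congr _ (UM_open M0) (UM_le _) (lam' := fun _ => 1) (fun g hg => by
        rw [l1 g hg, bt_LAM, map_pow, map_add, map_one, t0, add_zero, one_pow]) _ x.k2]
    exact hBOT _ n (n + 2) _ a Q' _ (by
      rw [← map_ofNat (Ideal.Quotient.mk (Ideal.span {pi_LAM E n E.T})), three_LAM, map_zero])
      h.adm.cop.of_mul_right_left h.adm.nine (by omega) g' x.k2 x.c2 x.c3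
  have e4 : ∀ s, pi_LAM E n (lm E χ r n (C.p s).s) * pi_LAM E n (bt E n (C.p s).s) = 1 := fun s => by
    have k := (h.pr.tm s).fr.1.2
    rw [l1 _ k, ← map_mul, ← mem_LAM E n (c3.1 _ (inv_mem k) _ k), inv_mul_cancel,
      mem_LAM E n (c3.2 _ (one_mem _)), map_one]
  have e5 := congrArg (· * ∏ s, pi_LAM E n (bt E n (C.p s).s)) e3
  simp only [mul_right_comm _ _ (∏ s, pi_LAM E n (bt E n (C.p s).s)), ← prod_mul_distrib, sub_mul,
    e4, prod_const_one, one_mul, ← neg_sub (pi_LAM E n _) 1, prod_neg] at e5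
  refine ⟨_, (isUnit_one.neg.pow #(univ : Finset S)).mul u0, ?_⟩
  rw [dn_LAM hCHR h]
  change pi_LAM E n ((rh E χ r n (C.x₁ n) - 1) * zb E χ r a Q n (C.x₂ n) -
    (rh E χ r n (C.x₂ n) - 1) * zb E χ r a Q n (C.x₁ n)) = _
  rw [map_sub, map_mul, map_mul, map_sub, map_sub, e1, e2, map_one, sub_self, zero_mul, zb,
    zL_map p0 _ j, e5]
  ring

theorem LAM_pf (hZST : ZST_st) (hBOT : BOT_st) (hBIN : BIN_st) (hCHR : CHR_st) (hKM : KM_st)
    (hSURJ : SURJ_st) (hPS : PS_st) (hPLK : PLK_st) (hCYL : CYL_st) : LAM_st := by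
  intro Λ S _ _ E χ r a C h
  refine ⟨fun Q n hQ => ?_, ?_⟩
  · rcases Nat.eq_zero_or_pos n with rfl | hn
    · exact ⟨1, E.ne, Ideal.mem_sup_right (by simp)⟩
    obtain ⟨u, hu, e⟩ := zn_LAM hZST hBOT hCHR hPS h hn hQ
    obtain ⟨u', hu', e'⟩ := ee_LAM hBIN hCHR hSURJ h hn
    obtain ⟨v, hv⟩ := hu'.exists_left_inv
    obtain ⟨v', hv'⟩ := hu.exists_right_inv
    obtain ⟨w, hw⟩ := Ideal.Quotient.mk_surjective (u * v)
    obtain ⟨w', hw'⟩ := Ideal.Quotient.mk_surjective (u' * v')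
    refine ⟨w, fun k => E.ne ?_, Ideal.Quotient.eq.1 ?_⟩
    · have le : bb_LAM E n ≤ E.m := sup_le ((Ideal.span_singleton_le_iff_mem _).2
        (E.m_eq ▸ Ideal.subset_span (by simp))) (Ideal.pow_le_self hn.ne')
      have : w * w' - 1 ∈ bb_LAM E n := Ideal.Quotient.eq.1 (by
        rw [map_mul, hw, hw', map_one]
        linear_combination u * v' * hv + hv')
      simpa using E.m.sub_mem (E.m.mul_mem_right w' k) (le this)
    · rw [map_mul, map_mul, hw]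
      linear_combination e - u * v * pi_LAM E n ((dat E χ r a C).dn n) * e' -
        pi_LAM E n E.T * u * pi_LAM E n ((dat E χ r a C).dn n) * hv
  obtain ⟨k, hk⟩ : ∃ k, ∀ s, nn (C.p s).w ≤ k :=
    ⟨univ.sup fun s => nn (C.p s).w, fun s => le_sup (f := fun s => nn (C.p s).w) (mem_univ s)⟩
  refine ⟨3 ^ k * #(univ : Finset S) + 1 + k, fun n => ?_⟩
  rcases le_or_gt n k with hn | hn
  · refine ⟨0, Ideal.mem_sup_right ?_⟩
    rw [mul_zero, zero_sub]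
    exact neg_mem (Ideal.pow_le_pow_right (by omega) (Ideal.pow_mem_pow (T_LAM E) _))
  obtain ⟨u', hu', e'⟩ := ee_LAM hBIN hCHR hSURJ h (n := n) (by omega)
  have nil := ((hCHR Λ E χ r n h.tw).2.2.2.2.2.2.2.2 (bb_LAM E n) le_sup_right).2.2.1 _ (T_LAM E)
  have d1 : ∀ s, pi_LAM E n (bt E n (C.p s).s) - 1 ∣ pi_LAM E n E.T ^ 3 ^ k := fun s => by
    have tm := h.pr.tm s
    rw [bt_LAM]
    refine (hBIN.1 _ _ _ k (three_LAM E n) nil).2 fun e => tm.pp.1.not_isUnit (nn_unit.2 ?_)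
    have c := ((hKM (3 ^ (n + 1)) (by positivity)).2.2.2.2.2.2.2.2 (C.p s).V fun e =>
      tm.pp.l_neK tm.ov ((Nat.prime_dvd_prime_iff_eq (C.p s).V.hl.out Nat.prime_three).1
        ((C.p s).V.hl.out.dvd_of_dvd_pow e))).2.2 _ _ tm.fr
    rw [← hBIN.2 n (k + 1) _ _ tm.fr.1.2 hn c (Or.inl e), Nat.mod_eq_of_lt]
    exact (hk s).trans_lt ((Nat.lt_pow_self (by norm_num)).trans_le
      (Nat.pow_le_pow_right (by norm_num) (by omega)))
  have d2 : pi_LAM E n ((dat E χ r a C).dn n * ee E χ r a n) ∣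
      pi_LAM E n (E.T ^ (3 ^ k * #(univ : Finset S) + 1 + k)) := by
    rw [map_mul, dn_LAM hCHR h, e', map_pow, pow_add, pow_succ, pow_mul, ← prod_const]
    exact (mul_dvd_mul (prod_dvd_prod_of_dvd _ _ fun s _ => d1 s)
      (hu'.mul_right_dvd.2 dvd_rfl)).mul_right _
  obtain ⟨y, hy⟩ := d2
  obtain ⟨y, rfl⟩ := Ideal.Quotient.mk_surjective y
  exact ⟨y, Ideal.Quotient.eq.1 (by rw [map_mul]; exact hy.symm)⟩

end Pool.Agent.MP_e23604_nt.W

end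

section

/-!
The bound for the Selmer group in terms of cocycles with values in a ring.
-/

set_option autoImplicit false

open Finset Filter Matrix QuadraticAlgebra
open scoped Classical

namespace Pool.Agent.MP_e23604_nt.W

open B R S

theorem i_HBR {R : Type} [CommRing R] {φ : Zw →+* R} {b : Zw} {G : Pt} (h : Qt φ b)
    (hG : Gen b G) : ∃ i : R →+ Pt, (∀ u y, i (φ u * y) = u • i y) ∧ (∀ y, b • i y = 0) ∧
      ∀ y, i y = 0 → y = 0 := by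
  have k : ∀ u, Function.surjInv h.sur (φ u) • G = u • G := fun u =>
    smul_congr hG.zero ((h.ker _).1 (by rw [map_sub, Function.surjInv_eq h.sur, sub_self]))
  refine ⟨AddMonoidHom.mk' (fun y => Function.surjInv h.sur y • G) fun y z => ?_, fun u y => ?_,
    fun y => ?_, fun y e => ?_⟩
  · obtain ⟨y, rfl⟩ := h.sur y
    obtain ⟨z, rfl⟩ := h.sur z
    rw [← map_add, k, k, k, add_smul]
  · obtain ⟨y, rfl⟩ := h.sur y
    rw [← map_mul, AddMonoidHom.mk'_apply, k, k, mul_smul]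
  · rw [AddMonoidHom.mk'_apply, smul_comm, hG.zero, smul_zero]
  · rw [← Function.surjInv_eq h.sur y]
    exact (h.ker _).2 ((hG _).1 e)

theorem nine_HBR (hSURJ : SURJ_st) {χ : GQ → ZMod 3} {P : Pt} {e : ℕ}
    (he : (3 : Zw) ^ e • P = 0) (h : ∀ g ∈ GK, eta χ g P = P) : (9 : Zw) • P = 0 := by
  obtain ⟨g, hg, e1⟩ := hSURJ (3 ^ e) 4 (pow_ne_zero _ (by decide)) ⟨1, by decide⟩
    (IsCoprime.pow_right ⟨1, -1, by decide⟩)
  have h1 := h g hg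
  rw [eta_apply, e1 P he, ← mul_smul] at h1
  have h2 : ((ω : Zw) ^ (χ g).val * 4 - 1) • P = 0 := by rw [sub_smul, h1, one_smul, sub_self]
  have h3 := dvd_smul h2 (sub_one_dvd_pow_sub_one _ 3)
  rw [mul_pow, ← pow_mul, mul_comm _ 3, pow_mul, www, one_pow,
    show (1 * 4 ^ 3 - 1 : Zw) = 7 * 9 by decide, mul_smul] at h3
  exact cop_smul (a := 7) (b := 3 ^ e) (IsCoprime.pow_right ⟨1, -2, by decide⟩) h3
    (by rw [smul_comm, he, smul_zero])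

theorem HBR_pf (hLZ : LZ_st) (hRAM : RAM_st) (hCNJ : CNJ_st) (hCYG : CYG_st) (hSURJ : SURJ_st)
    (hINE : INE_st) (hPS : PS_st) (hPLK : PLK_st) : HBR_st := by
  intro χ r tw ⟨k₀, hB⟩
  refine ⟨k₀ + 3, fun R _ φ k M x hφ hM h9 h3 hx hu hD u hU => ?_⟩
  have p0 : pw ^ k ≠ 0 := pow_ne_zero k pw_ne
  have p3 : pw ^ k ∣ 3 ^ k := pow_dvd_pow_of_dvd pw_dvd3 k
  have pM := p3.trans h3
  have M3 : (3 : Zw) ∣ M := dvd_trans ⟨3 * r, by ring⟩ h9
  obtain ⟨l1, l2, l3⟩ := hLZ χ r M tw hM h9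
  obtain ⟨j⟩ := ex_j (R := R) (n := 3 ^ k) (by
    rw [← map_natCast φ, hφ.ker, Nat.cast_pow, Nat.cast_ofNat]; exact p3)
  have mu := (ZC_pf R _ j _ _ ((l3 R φ ((hφ.ker _).2 pM)).1 _ j (by
    rw [Nat.cast_pow, Nat.cast_ofNat]; exact h3)).1).1.1
  have : Finite R := Nat.finite_of_card_ne_zero (hφ.card ▸ (nn_pos p0).ne')
  have nil : ∀ y : Zw, pw ∣ y → IsNilpotent (φ y) := fun y hy =>
    ⟨k, by rw [← map_pow, hφ.ker]; exact pow_dvd_pow_of_dvd hy k⟩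
  obtain ⟨G, hG⟩ := (hCYG _ p0).1
  obtain ⟨i, i1, i2, i3⟩ := i_HBR hφ hG
  have i4 : ∀ g ∈ GK, ∀ y, i (lamZ φ χ M g * y) = eta χ g (i y) := fun g hg y => by
    rw [lamZ, i1, l2 g hg _ (dvd_smul (i2 y) pM)]
  have bo : ∀ V : Plc, Ov V (3 * r) → Bo (lamZ φ χ M) V.D fun g => 3 * x g := fun V hV => by
    by_cases h : Ov V 3
    · obtain ⟨m, hm⟩ := (((hCNJ R _).2 V3 V pw mu pw_prime (Ov_three.1 V3_three)
        (Ov_three.1 h)).1 x hx).1 ⟨0, fun g hg => by rw [hD g hg, mul_zero]⟩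
      exact ⟨3 * m, fun g hg => by linear_combination 3 * hm g hg⟩
    refine hRAM χ r V R φ _ x tw ((Ov_mul.1 hV).resolve_left h)
      (map_ofNat φ 3 ▸ nil 3 pw_dvd3) ⟨mu.1.mono V.D_le, mu.2.1, fun g hg g' hg' =>
        mu.2.2 g (V.D_le hg) g' (V.D_le hg')⟩ (fun g hg => ?_) (fun τ hτ => ?_)
      ⟨hx.1.mono V.D_le, fun g hg g' hg' => hx.2 g (V.D_le hg) g' (V.D_le hg')⟩
    · rw [lamZ, ← map_one φ, ← map_sub]
      refine nil _ ?_
      have a1 := pw_dvd3.trans (((hPS M hM).1 g (V.D_le hg)).2.2.1 M3)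
      have a2 := pw_w.trans (sub_one_dvd_pow_sub_one (ω : Zw) (χ g).val)
      convert dvd_add (a1.mul_left (ω ^ (χ g).val)) a2 using 1
      ring
    · obtain ⟨-, -, -, a1, -, -, -, -, a2⟩ := (hPS _ p0).1 τ (V.D_le (V.I_le hτ))
      have a3 := dvd_add (a2 M hM pM) (a1.1 ((hINE V h τ hτ).2.2 _ fun e =>
        h (Ov_three.2 (Ov_pow e))))
      rw [sub_add_sub_cancel, ← hφ.ker, map_sub, map_one, sub_eq_zero] at a3
      rw [lamZ, map_mul, a3, mul_one]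
  obtain ⟨P, ⟨e, he⟩, hP⟩ := hB k (fun g => i (3 * x g))
    ⟨⟨hx.1.map fun y => i (3 * y), fun g hg g' hg' => by
      rw [← i4 g hg, ← map_add]
      exact congrArg i (by linear_combination 3 * hx.2 g hg g' hg')⟩,
      fun V hV τ hτ => by simp only [hu V hV τ hτ, mul_zero, map_zero], fun V hV => by
      obtain ⟨m, hm⟩ := bo V hV
      exact ⟨i m, fun g hg => by
        rw [← i4 g (V.D_le hg), ← map_sub]
        exact congrArg i (by linear_combination hm g hg)⟩⟩ fun g _ => by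
      rw [← Nat.cast_smul_eq_nsmul Zw, Nat.cast_pow, Nat.cast_ofNat]
      exact dvd_smul (i2 _) p3
  rw [← Nat.cast_smul_eq_nsmul Zw, Nat.cast_pow, Nat.cast_ofNat] at he
  have n9 := nine_HBR hSURJ (χ := χ) (P := pw ^ k • P) (e := e)
    (by rw [smul_comm, he, smul_zero]) fun g hg => by
      rw [eta_smul χ hg, ← sub_eq_zero, ← smul_sub, ← hP g hg, smul_comm, i2, smul_zero]
  rw [smul_comm] at n9
  have f1 := hU.2 _ (dvd_smul n9 pM)
  have f2 : (9 : Zw) • (eta χ u P - P) = 0 := by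
    rw [smul_sub, ← eta_smul χ hU.1, eta_apply, l1 u hU, ZMod.val_zero, pow_zero, one_smul, f1,
      sub_self]
  rw [← hP u hU.1, ← Nat.cast_smul_eq_nsmul Zw, ← i1, ← i1, map_natCast, map_ofNat] at f2
  rw [← i3 _ f2]
  push_cast
  ring

end Pool.Agent.MP_e23604_nt.W

end

section

/-!
Removal of one prime from the level.
-/

set_option autoImplicit false

open Finset Filter Matrix QuadraticAlgebra
open scoped Classical

namespace Pool.Agent.MP_e23604_nt.W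

open B R S

theorem th_SRP (hTHI : THI_st) {a M : Zw} {Q : Pt} (h6 : IsCoprime a 6) (hM : IsCoprime a M)
    (h3 : 3 ∣ M) (hQ : Gen M Q) : Th a Q ≠ 0 ∧ Fix (UM M) (Th a Q) :=
  ⟨(hTHI a (cop6_ne h6)).2.2.2 h6 Q fun e => pw_prime.not_isUnit
      (isUnit_of_dvd_unit (pw_dvd3.trans h3) (hM.symm.isUnit_of_dvd ((hQ a).1 e))),
    fun g hg => by rw [← ((hTHI a (cop6_ne h6)).2.1 g hg.1 Q).1, hg.2 Q hQ.zero]⟩

theorem gen_SRP {w M : Zw} {Q T T' : Pt} (hw : Prime w) (h0 : M ≠ 0) (hc : IsCoprime w M)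
    (hQ : Gen (w * M) Q) (hT : w • T = 0) (hT' : w • T' = 0) (h : M • (Q + T') = 0) :
    Gen (w * M) (Q + T) ↔ T ≠ T' := by
  refine ⟨fun k e => hw.not_dvd_one ?_, fun k b => ⟨fun e => ?_, fun e => ?_⟩⟩
  · rw [← mul_dvd_mul_iff_right h0, one_mul]
    exact (k M).1 (e ▸ h)
  · have h1 : M ∣ b := (hQ.smul hw.ne_zero b).1 (by
      have := congrArg (w • ·) e
      simp only [smul_comm w b, smul_add, hT, smul_zero, add_zero] at this
      exact this)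
    refine hc.mul_dvd (by_contra fun h2 => k (sub_eq_zero.1 ?_)) h1
    refine cop_smul (hw.coprime_iff_not_dvd.2 h2) (by rw [smul_sub, hT, hT', sub_self]) ?_
    rw [← add_sub_add_left_eq_sub T T' Q, smul_sub, e, dvd_smul h h1, sub_self]
  · rw [smul_add, (hQ b).2 e, dvd_smul hT ((dvd_mul_right w M).trans e), add_zero]

theorem SRP_pf (hRNM : RNM_st) (hNRM1 : NRM1_st) (hTHI : THI_st) (hFRB : FRB_st) (hPS : PS_st)
    (hCYG : CYG_st) : SRP_st := by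
  intro R _ N j lam a M Q q hq h0 h3 hc ha hQ hχ
  have hw := hq.pp.1
  have w0 := hw.ne_zero
  have a6 := ha.of_mul_right_left
  have aM := ha.of_mul_right_right
  have hle : UM (q.w * M) ≤ UM M := UM_mono (dvd_mul_left _ _)
  have hU := UM_open (mul_ne_zero w0 h0)
  have hχ' := hχ.down hPS (mul_ne_zero w0 h0) hle
  obtain ⟨c, d, e⟩ := id hc
  have G1 := hQ.smul w0
  have e1 : Q + -(d * M) • Q = c • q.w • Q := by
    rw [← mul_smul, eq_sub_iff_add_eq.2 e, sub_smul, one_smul, neg_smul, sub_eq_add_neg]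
  have G2 : Gen M (Q + -(d * M) • Q) := e1 ▸ G1.cop ⟨q.w, d, by rw [← e, mul_comm]⟩
  have hT : q.w • -(d * M) • Q = 0 := by
    rw [← mul_smul]
    exact (hQ _).2 ⟨-d, by ring⟩
  generalize -(d * M) • Q = T' at G2 hT
  obtain ⟨t0, f0⟩ := th_SRP hTHI a6 aM (h3.mul_left _) hQ
  obtain ⟨t1, f1⟩ := th_SRP hTHI a6 aM.of_mul_right_right h3 G1
  obtain ⟨t2, f2⟩ := th_SRP hTHI a6 aM.of_mul_right_right h3 G2
  have hX := Xs_trv hU hle
  have n1 : ∏ y ∈ Xs (UM (q.w * M)) (UM M), y (Th a Q) =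
      ∏ T ∈ (tor q.w).erase T', Th a (Q + T) := by
    rw [prod_congr rfl fun y hy => ((hTHI a (cop6_ne a6)).2.1 y (hX.1 y hy).1 Q).1.symm]
    refine (hRNM (Additive Qb) (Th a) q.w M Q _ w0 h0 h3 hQ hX).trans ?_
    rw [filter_congr fun T k => gen_SRP hw h0 hc hQ ((mem_tor w0).1 k) hT G2.zero, filter_ne']
    rfl
  have n2 : Th a (Q + T') * ∏ T ∈ (tor q.w).erase T', Th a (Q + T) = Th a (q.w • Q) := by
    rw [mul_prod_erase _ (fun T => Th a (Q + T)) ((mem_tor w0).2 hT)]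
    refine hNRM1 a q.w Q a6 aM.of_mul_right_left fun k => two_pw ?_
    rw [mul_smul] at k
    exact (pw_dvd3.trans h3).trans ((G1 2).1 k)
  have hs := q.V.D_le hq.fr.1
  have n3 : q.s (Th a (Q + T')) = Th a (q.w • Q) := by
    rw [← ((hTHI a (cop6_ne a6)).2.1 _ hs _).1,
      ((hFRB q.V q.w hq.pp hq.ov).2 _ hq.fr).2 M _ (hq.ov.cop hc) G2.zero, smul_add, hT, add_zero]
  obtain ⟨m1, b1⟩ := ((ZC_pf R N j _ lam hχ').2 _ t0 f0).2.2.2.2 _ hle hχ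
  rw [n1] at b1
  generalize ∏ T ∈ (tor q.w).erase T', Th a (Q + T) = ν at b1 n2
  have z := (ZC_pf R N j _ lam hχ).2 _ t2 f2
  obtain ⟨m2, b2⟩ := z.2.1 ν (fun k => t1 (by rw [← n2, k, mul_zero])) fun g hg =>
    mul_left_cancel₀ t2 (by rw [n2, ← f1 g hg, ← n2, map_mul, f2 g hg])
  refine ⟨lam q.s * (m1 - m2), fun g hg => ?_⟩
  have b3 := z.2.2.1 _ hs g hg
  have b1 := b1 g hg
  have b2 := b2 g hg
  rw [n3] at b3
  rw [n2] at b2
  linear_combination lam q.s * b1 - lam q.s * b2 + b3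

end Pool.Agent.MP_e23604_nt.W

end

section

/-!
The characters of the cyclotomic deformation.
-/

set_option autoImplicit false

open Finset Filter Matrix QuadraticAlgebra
open scoped Classical

namespace Pool.Agent.MP_e23604_nt.W

open B R S

theorem nn_CHR {N : ℕ} {u v : Zw} (h : (N : Zw) ∣ u - v) : (nn u : ZMod N) = nn v := by
  obtain ⟨c, hc⟩ := h
  rw [eq_add_of_sub_eq hc, ← Int.cast_natCast, ← Int.cast_natCast (nn v), nn_cast, nn_cast, nw_def,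
    nw_def]
  simp

theorem pow_CHR {R : Type} [CommRing R] {N : ℕ} (hN : N ≠ 0) {x : R} (h : x ^ N = 1)
    (a b : ZMod N) : x ^ (a + b).val = x ^ a.val * x ^ b.val := by
  have : NeZero N := ⟨hN⟩
  rw [ZMod.val_add, ← pow_eq_pow_mod _ h, pow_add]

theorem CHR_pf (hPS : PS_st) (hCYL : CYL_st) (hCYC1 : CYC1_st) (hINE : INE_st) (hPLK : PLK_st) :
    CHR_st := by
  intro Λ _ E χ r n hT
  have M0 := ML_ne hT.sf.ne_zero n
  have hd : (3 : Zw) ^ (n + 1) ∣ ML r n := dvd_mul_right _ _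
  have N0 : 3 ^ (n + 1) ≠ 0 := pow_ne_zero _ three_ne_zero
  have p0 : (3 : Zw) ^ (n + 1) ≠ 0 := pow_ne_zero _ (by decide)
  have hc : ((3 ^ (n + 1) : ℕ) : Zw) = 3 ^ (n + 1) := by rw [Nat.cast_pow, Nat.cast_ofNat]
  have hP := (hPS _ M0).1
  have hL := hCYL n
  have P8 : ∀ M : Zw, M ≠ 0 → 3 ^ (n + 1) ∣ M → (∀ u ∈ UM M, cy (3 ^ (n + 1)) u = 1) ∧
      ∀ s ∈ GK, ∀ c : Zw, (∀ P : Pt, M • P = 0 → gal s P = c • P) →
        cy (3 ^ (n + 1)) s = nn c := fun M h0 h1 => by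
    have k : ∀ s ∈ GK, ∀ c : Zw, (∀ P : Pt, M • P = 0 → gal s P = c • P) →
        cy (3 ^ (n + 1)) s = nn c := fun s hs c h =>
      (hCYC1 _ M h0 (hc ▸ h1) s hs).trans
        (nn_CHR (hc ▸ h1.trans ((((hPS M h0).1 s hs).2.2.2.2.1 c).1 h)))
    exact ⟨fun u hu => by
      rw [k u hu.1 1 fun P e => by rw [hu.2 P e, one_smul], nn_one, Nat.cast_one], k⟩
  have hTm : E.T ∈ E.m := E.m_eq ▸ Ideal.subset_span (by simp)
  have hpw : E.ι pw ∈ E.m := E.m_eq ▸ Ideal.subset_span (by simp)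
  have h3n : (3 : Λ) ^ (n + 1) ∈ E.m ^ n :=
    Ideal.pow_le_pow_right (Nat.le_succ n) (Ideal.pow_mem_pow E.three_mem _)
  have hι : ∀ x : Zw, 3 ^ (n + 1) ∣ x → E.ι x ∈ E.m ^ n := by
    rintro _ ⟨c, rfl⟩
    rw [map_mul, map_pow, map_ofNat]
    exact Ideal.mul_mem_right _ _ h3n
  have hx : Ideal.Quotient.mk (E.m ^ n) (1 + E.T) ^ 3 ^ n = 1 := by
    rw [← map_pow]
    exact Ideal.Quotient.eq.2 (Ideal.pow_le_pow_right (Nat.le_succ n)
      (pow3_mem E.three_mem (by simpa using hTm) n))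
  have b1 : ∀ g ∈ GK, ∀ h ∈ GK, Ideal.Quotient.mk (E.m ^ n) (bt E n (g * h)) =
      Ideal.Quotient.mk (E.m ^ n) (bt E n g * bt E n h) := fun g hg h hh => by
    simp only [bt, map_mul, map_pow, hL.1 g hg h hh]
    exact pow_CHR (pow_ne_zero _ three_ne_zero) hx _ _
  have b2 : ∀ u ∈ UM (3 ^ (n + 1)), bt E n u = 1 := fun u hu => by
    rw [bt, (hL.2.2.2.1 u hu.1).2.1.2 ((P8 _ p0 dvd_rfl).1 u hu), ZMod.val_zero, pow_zero]
  have cl : Ch (E.m ^ n) (UM (ML r n)) (lm E χ r n) := by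
    refine ⟨fun g hg h hh => Ideal.Quotient.eq.1 ?_, fun u hu => ?_⟩
    · have e : Ideal.Quotient.mk (E.m ^ n) (E.ι (ps (ML r n) (g * h))) =
          Ideal.Quotient.mk (E.m ^ n) (E.ι (ps (ML r n) g * ps (ML r n) h)) :=
        Ideal.Quotient.eq.2 (map_sub E.ι _ _ ▸ hι _ (hd.trans ((hP g hg).2.2.2.2.2.1 h hh)))
      simp only [lm, map_mul, _root_.mul_inv_rev, b1 _ (inv_mem hh) _ (inv_mem hg),
        hT.add g hg h hh, w_add, e]
      ring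
    · rw [lm, b2 _ (inv_mem (UM_mono hd hu)), hT.fac u (UM_mono (dvd_mul_left _ _) hu),
        ZMod.val_zero, pow_zero, one_mul, mul_one, ← map_one E.ι, ← map_sub]
      exact hι _ (hd.trans ((hP u hu.1).2.2.2.1.1 hu))
  have P9 : ∀ b, E.m ^ n ≤ b → Finite (Λ ⧸ b) ∧ Nonempty (ZMod (3 ^ (n + 1)) →+* Λ ⧸ b) ∧
      (∀ x ∈ E.m, IsNilpotent (Ideal.Quotient.mk b x)) ∧ ∀ j : ZMod (3 ^ (n + 1)) →+* Λ ⧸ b,
        Chr j (UM (ML r n)) fun g => Ideal.Quotient.mk b (lm E χ r n g) := fun b hb => by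
    have := E.fin n
    have e : ((3 ^ (n + 1) : ℕ) : Λ ⧸ b) = 0 := by
      rw [← map_natCast (Ideal.Quotient.mk b), Nat.cast_pow, Nat.cast_ofNat]
      exact Ideal.Quotient.eq_zero_iff_mem.2 (hb h3n)
    exact ⟨Finite.of_surjective _ (Ideal.Quotient.factor_surjective hb),
      ⟨ZMod.castHom (ringChar.dvd e) _⟩,
      fun x hx => ⟨n, by
        rw [← map_pow]
        exact Ideal.Quotient.eq_zero_iff_mem.2 (hb (Ideal.pow_mem_pow hx n))⟩,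
      fun j => ⟨N0, UM_open M0, UM_le _, fun g hg => (hP g hg).2.2.2.2.2.2.1,
        fun g hg h hh => Ideal.Quotient.eq.2 (hb (cl.1 g hg h hh)),
        fun g hg => Ideal.Quotient.eq.2 (hb (cl.2 g hg)), (P8 _ M0 hd).1⟩⟩
  obtain ⟨-, ⟨j⟩, -, hj⟩ := P9 _ le_rfl
  obtain ⟨-, z1, z2, z3⟩ := (ZC_pf _ _ j _ _ (hj j)).1
  have d1 : ∀ g ∈ GK, E.ι pw ∣ lm E χ r n g - bt E n g⁻¹ := fun g hg => by
    have e : pw ∣ ω ^ (χ g).val * ps (ML r n) g - 1 := by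
      convert dvd_add ((pw_dvd3.trans ((hP g hg).2.2.1
        ((dvd_pow_self 3 n.succ_ne_zero).trans hd))).mul_left (ω ^ (χ g).val))
        (pw_w.trans (sub_one_dvd_pow_sub_one ω (χ g).val)) using 1
      ring
    have e' := (map_dvd E.ι e).mul_right (bt E n g⁻¹)
    rwa [map_sub, map_one, sub_mul, one_mul] at e'
  have d2 : ∀ g ∈ GK, E.ι pw ∣ rh E χ r n g - bt E n g := fun g hg => by
    have e : (cy (3 ^ (n + 1)) g).val % 3 = 1 := by
      rw [← (hL.2.2.2.1 g hg).1, ← Nat.cast_ofNat (n := 4), ← Nat.cast_pow, ZMod.val_natCast,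
        Nat.mod_mod_of_dvd _ (dvd_pow_self 3 n.succ_ne_zero), Nat.pow_mod]
      exact congrArg (· % 3) (one_pow _)
    have e1 : E.ι pw ∣ ((cy (3 ^ (n + 1)) g).val : Λ) - 1 := by
      rw [← Nat.div_add_mod (cy (3 ^ (n + 1)) g).val 3, e, Nat.cast_add, Nat.cast_one,
        add_sub_cancel_right, Nat.cast_mul, Nat.cast_ofNat, ← map_ofNat E.ι 3]
      exact (map_dvd E.ι pw_dvd3).mul_right _
    have e2 := d1 _ (inv_mem hg)
    rw [inv_inv] at e2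
    convert dvd_add (e2.mul_left (cy (3 ^ (n + 1)) g).val) (e1.mul_right (bt E n g)) using 1
    rw [rh]
    ring
  have d3 : ∀ x g, E.ι pw ∣ x - bt E n g → x - 1 ∈ E.m := fun x g h => by
    have e := sub_one_dvd_pow_sub_one (1 + E.T) (lA n g).val
    rw [add_sub_cancel_left] at e
    simpa [bt] using add_mem (E.m.mem_of_dvd h hpw) (E.m.mem_of_dvd e hTm)
  refine ⟨(hPS _ M0).2 (by simp [ML]), fun g hg => (hP g hg).2.2.2.2.2.2.1,
    ⟨fun g hg h hh => Ideal.Quotient.eq.1 (b1 g hg h hh), fun u hu => by simp [b2 u hu]⟩, cl,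
    ⟨fun g hg h hh => Ideal.Quotient.eq.1 ?_, fun u hu => Ideal.Quotient.eq.1 ?_⟩,
    fun g hg => ⟨d3 _ _ (d1 g hg), d3 _ _ (d2 g hg), d1 g hg, d2 g hg, Ideal.Quotient.eq.1 ?_⟩,
    fun V hV τ hτ => ?_, P8, P9⟩
  · rw [map_mul, rh_map _ _ _ _ _ j, rh_map _ _ _ _ _ j, rh_map _ _ _ _ _ j]
    exact z1.2.2 g hg h hh
  · rw [rh_map _ _ _ _ _ j, map_one]
    exact z3 u hu
  · rw [map_mul, rh_map _ _ _ _ _ j, map_natCast, ← j_val N0 j]
    exact z2 g hg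
  · have h3 : ¬ Ov V 3 := fun e => hV ((Nat.prime_dvd_prime_iff_eq V.hl.out Nat.prime_three).1
      ((hPLK.2.2.2.1 V 3).1 (by simpa using e)))
    have hU := (hINE V h3 τ hτ).2.2 (3 ^ (n + 1)) fun e => h3 (Ov_pow e)
    have k := (hPS _ p0).1 τ hU.1
    refine ⟨b2 τ hU, ?_⟩
    rw [lm, b2 _ (inv_mem hU), mul_one, ← map_sub, ← mul_sub_one]
    refine hι _ (Dvd.dvd.mul_left ?_ _)
    simpa using dvd_add (k.2.2.2.2.2.2.2.2 _ M0 hd) (k.2.2.2.1.1 hU)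

end Pool.Agent.MP_e23604_nt.W

end

section

set_option autoImplicit false

open Finset Filter Matrix QuadraticAlgebra
open scoped Classical

namespace Pool.Agent.MP_e23604_nt.W

open B R S

theorem ndvd_BOT : ¬ (3 : Zw) ∣ pw ∧ ¬ (3 : Zw) ∣ 2 :=
  ⟨fun h => absurd (nn_dvd h) (by decide), fun h => absurd (nn_dvd h) (by decide)⟩

theorem gen_BOT {k : ℕ} {P : Pt} (h : Gen 3 ((3 : Zw) ^ k • P)) : Gen (3 ^ k * 3) P := fun u => by
  have h0 : ((3 : Zw) ^ k * 3) • P = 0 := by rw [mul_comm, mul_smul, h.zero]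
  refine ⟨fun hu => by_contra fun hn => ?_, dvd_smul h0⟩
  have e : Associated ((3 : Zw) ^ k * 3) (pw ^ (2 * (k + 1))) := pow_succ (3 : Zw) k ▸ pw_three _
  obtain ⟨i, v, hv, rfl⟩ := WfDvdMonoid.max_power_factor (fun e : u = 0 => hn (e ▸ dvd_zero _))
    pw_prime.irreducible
  have hi : i ≤ 2 * k + 1 := by
    by_contra hi
    exact hn (e.dvd.trans ((pow_dvd_pow _ (by omega)).mul_right _))
  obtain ⟨c, d, hc⟩ : IsCoprime (pw ^ (2 * (k + 1))) v :=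
    (pw_prime.coprime_iff_not_dvd.2 hv).pow_left
  have h1 : pw ^ i • P = 0 := by
    rw [← one_mul (pw ^ i), ← hc, add_mul, add_smul, mul_assoc d, mul_comm v, mul_smul d, hu,
      dvd_smul h0 ((e.dvd.mul_left c).mul_right _), smul_zero, add_zero]
  refine ndvd_BOT.1 ((h pw).1 ?_)
  rw [← mul_smul]
  exact dvd_smul h1 ((pow_dvd_pow _ hi).trans (pow_succ' pw _ ▸
    mul_dvd_mul_left pw (pw_three k).symm.dvd))

theorem red_BOT (hKM : KM_st) {R : Type} [CommRing R] (h3 : (3 : R) = 0) {k : ℕ} (hk : k ≠ 0)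
    (j : ZMod (3 * k) →+* R) {U : Subgroup GQ} (hU : IsOpen (U : Set GQ)) (hle : U ≤ GK) {θ : Qb}
    (h0 : θ ≠ 0) (hf : Fix U θ) {x : GQ} (hx : x ∈ GK)
    (h : km 3 x (∏ y ∈ Xs U GK, y θ) ≠ 0) : IsUnit (zc j U (fun _ => 1) θ x) := by
  obtain ⟨j3⟩ := ex_j (R := R) (n := 3) (by simpa using h3)
  obtain ⟨-, -, -, -, -, -, k7, k8, -⟩ := hKM 3 three_ne_zero
  obtain ⟨e, he⟩ := (k7 k hk).2
  have hX := Xs_trv hU hle
  have hc := (k8 x hx).1
  have hy : ∀ y : GQ, y θ ≠ 0 := fun y => (map_ne_zero y).2 h0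
  have hs : ∀ {A : Type} (F : Qb → A), ∀ g ∈ GK, ∀ u ∈ U, F ((g * u) θ) = F (g θ) :=
    fun F g _ u hu => by rw [AlgEquiv.mul_apply, hf u hu]
  have e1 : ∑ y ∈ Xs U GK, e (x (y θ)) = ∑ y ∈ Xs U GK, e (y θ) :=
    hX.sum_mul (F := fun y => e (y θ)) (hs e) hx
  have e2 : ∏ y ∈ Xs U GK, x (y θ) = ∏ y ∈ Xs U GK, y θ :=
    hX.prod_mul (F := fun y => y θ) (hs id) hx
  have e3 : ∏ y ∈ Xs U GK, rt 3 (x (y θ)) = ∏ y ∈ Xs U GK, rt 3 (y θ) :=
    hX.prod_mul (F := fun y => rt 3 (y θ)) (hs (rt 3)) hx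
  rw [km_prod three_ne_zero x _ fun y _ => hy y, df, df, e2, e3, hc, one_mul,
    add_sub_cancel_right] at h
  have e4 : zc j U (fun _ => 1) θ x = j3 (∑ y ∈ Xs U GK, km 3 x (y θ)) := by
    rw [RingHom.ext_zmod j (j3.comp (ZMod.castHom (Dvd.intro k rfl) (ZMod 3))), zc]
    simp only [one_mul, RingHom.comp_apply, he x _ (hy _), ← map_sum, hc]
    rw [sum_sub_distrib, sum_add_distrib, e1, add_sub_cancel_right]
  rw [e4]
  exact (IsUnit.mk0 _ h).map j3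

theorem BOT_pf (hRNM : RNM_st) (hNRM1 : NRM1_st) (hTH0 : TH0_st) (hTHI : THI_st) (hKM : KM_st)
    (hPI : PI_st) (hPS : PS_st) : BOT_st := by
  intro R _ n k j a Q x h3 ha h9 _ hQ hx c9 hk
  revert j
  rw [pow_succ' 3 n]
  intro j
  rw [pow_succ] at hQ ⊢
  have n3 : (3 : Zw) ≠ 0 := by decide
  have nk : (3 : Zw) ^ k ≠ 0 := pow_ne_zero _ n3
  have hp := (cop6.1 ha).2
  obtain ⟨-, t2, -, t4⟩ := hTHI a (cop6_ne ha)
  have hU : UM 3 = GK := le_antisymm (UM_le _) fun g hg => ⟨hg, hPI.2.2.2.2 g hg⟩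
  have hR := hQ.smul nk
  refine red_BOT hKM h3 (pow_ne_zero _ three_ne_zero) j (UM_open (mul_ne_zero nk n3)) (UM_le _)
    (t4 ha Q fun e => hp (pw_dvd3.trans ((dvd_mul_left _ _).trans ((hQ a).1 e))))
    (fun g hg => by rw [← (t2 g hg.1 Q).1, hg.2 Q hQ.zero]) hx ?_
  have hX := Xs_trv (UM_open (mul_ne_zero nk n3)) (UM_le _)
  have e1 : ∏ y ∈ Xs (UM (3 ^ k * 3)) GK, Th a (gal y Q) =
      ∏ T ∈ (tor (3 ^ k)).filter fun T => Gen (3 ^ k * 3) (Q + T), Th a (Q + T) :=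
    hRNM (Additive Qb) (Th a) (3 ^ k) 3 Q _ nk n3 dvd_rfl hQ (hU.symm ▸ hX)
  obtain ⟨u, hu, e2⟩ := (hTH0 a ha).2 _ hR.zero fun e => ndvd_BOT.1 ((hR pw).1 e)
  rw [filter_true_of_mem fun T hT => gen_BOT (by rwa [smul_add, (mem_tor nk).1 hT, add_zero]),
    hNRM1 a _ Q ha (ha.of_isCoprime_of_dvd_right ⟨2, by norm_num⟩ : IsCoprime a 3).pow_right
      fun e => ndvd_BOT.2 ((hR 2).1 (by rwa [← mul_smul])), e2] at e1
  obtain ⟨c3, c4⟩ := (hKM 3 three_ne_zero).2.2.2.2.2.2.2.1 x hx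
  have hw : ∀ i : ℕ, km 3 x (io (ω ^ i)) = 0 := fun i => by
    rw [map_pow, km_fix_pow three_ne_zero (io_ne w_unit.ne_zero) (io_fix hx _) c3, io_w, c4.1 c9,
      mul_zero]
  have hu0 : km 3 x (io u) = 0 := by
    obtain ⟨i, rfl | rfl⟩ := unit6 hu
    · exact hw i
    · rw [show io (-ω ^ i) = (-1) ^ 3 * io (ω ^ i) by rw [map_neg]; ring,
        km_fix_mul three_ne_zero (by norm_num) (io_ne (w_unit.pow i).ne_zero) (by simp)
          (io_fix hx _) c3, hw, km_fix_pow three_ne_zero (by norm_num) (by simp) c3, add_zero]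
      exact mul_eq_zero_of_left rfl _
  rw [← prod_congr rfl fun y hy => (t2 y (hX.1 y hy) Q).1, e1, map_mul,
    km_fix_mul three_ne_zero (io_ne hu.ne_zero) (io_ne (pow_ne_zero _ pw_ne)) (io_fix hx _)
      (io_fix hx _) c3, hu0, zero_add, map_pow,
    km_fix_pow three_ne_zero (io_ne pw_ne) (io_fix hx _) c3]
  refine mul_ne_zero (fun e => ?_) hk
  have := (ZMod.natCast_eq_zero_iff _ _).1 e
  have := nn_mod3 hp
  omega

end Pool.Agent.MP_e23604_nt.W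

end

section

/-!
The change of the auxiliary prime in the tower.
-/

set_option autoImplicit false

open Finset Filter Matrix QuadraticAlgebra
open scoped Classical

namespace Pool.Agent.MP_e23604_nt.W

open B R S

theorem rel_IDZ {R : Type} [CommRing R] {N : ℕ} {j : ZMod N →+* R} {U : Subgroup GQ}
    {lam : GQ → R} (h : Chr j U lam) {θ θ' : Qb} (h0 : θ ≠ 0) (hθ : Fix U θ) (h0' : θ' ≠ 0)
    (hθ' : Fix U θ') {s : GQ} (hs : s ∈ GK) (k : ℕ) : Bo (rho j lam) GK fun g =>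
      zc j U lam (s θ * θ' ^ k) g - lam s * zc j U lam θ g - k * zc j U lam θ' g := by
  have Z := (ZC_pf R N j U lam h).2
  induction k with
  | zero => exact ⟨0, fun g hg => by simp [(Z θ h0 hθ).2.2.1 s hs g hg]⟩
  | succ k ih =>
    obtain ⟨m, hm⟩ := ih
    obtain ⟨m', hm'⟩ := (Z (s θ * θ' ^ k) (mul_ne_zero ((map_ne_zero s).2 h0) (pow_ne_zero _ h0'))
      fun u hu => by rw [map_mul, map_pow, h.fix hθ hs u hu, hθ' u hu]).2.1 θ' h0' hθ'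
    refine ⟨m + m', fun g hg => ?_⟩
    have e := hm g hg
    have e' := hm' g hg
    simp only [pow_succ, ← mul_assoc] at e e' ⊢
    push_cast
    linear_combination e + e'

theorem IDZ_pf (hIDN : IDN_st) (hTHI : THI_st) (hSURJ : SURJ_st) (hPS : PS_st) (hCHR : CHR_st) :
    IDZ_st := by
  intro Λ S _ _ E χ r a C Q n h hQ
  have M0 := ML_ne h.tw.sf.ne_zero n
  obtain ⟨-, -, cb, -, -, -, -, cc, cq⟩ := hCHR Λ E χ r n h.tw
  obtain ⟨-, ⟨j⟩, -, ch⟩ := cq _ le_rfl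
  have d3 : (3 : Zw) ^ (n + 1) ∣ ML r n := dvd_mul_right _ _
  have Q0 : Q n ≠ 0 := fun e => pw_prime.not_dvd_one ((pw_dvd3.trans (dvd_pow_self 3
    n.succ_ne_zero)).trans (d3.trans ((hQ 1).1 (by rw [e, smul_zero]))))
  have key : ∀ b, Adm r b → sa (ML r n) b ∈ GK ∧ b • Q n = gal (sa (ML r n) b) (Q n) ∧
      b • Q n ≠ 0 ∧ IsCoprime b 6 ∧ Th b (Q n) ≠ 0 ∧ Fix (UM (ML r n)) (Th b (Q n)) ∧
      cy (3 ^ (n + 1)) (sa (ML r n) b) = nn b ∧
      E.ι (ps (ML r n) (sa (ML r n) b)) - E.ι b ∈ E.m ^ n := fun b hb => by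
    obtain ⟨a1, a2⟩ := sa_spec hSURJ M0 hb.pp.2 (hb.copM n).of_mul_right_right
    have a3 := (a2 _ hQ.zero).symm
    have a4 : b • Q n ≠ 0 := fun e => Q0 ((gal_ne _).1 (a3 ▸ e))
    have a5 := (hb.copM n).of_mul_right_left
    have T := hTHI b hb.pp.2.ne
    refine ⟨a1, a3, a4, a5, T.2.2.2 a5 _ a4, fun u hu => by
      rw [← (T.2.1 u hu.1 _).1, hu.2 _ hQ.zero], (cc _ M0 d3).2 _ a1 b a2, ?_⟩
    obtain ⟨c, hc⟩ := d3.trans ((((hPS _ M0).1 _ a1).2.2.2.2.1 b).1 a2)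
    rw [← map_sub, hc, map_mul, map_pow, map_ofNat, pow_succ, mul_assoc]
    exact Ideal.mul_mem_right _ _ (Ideal.pow_mem_pow E.three_mem n)
  obtain ⟨a1, a2, a3, a4, a5, a6, a7, a8⟩ := key a h.adm
  obtain ⟨b1, b2, b3, b4, b5, b6, b7, b8⟩ := key _ h.adm.star
  simp only [ee]
  generalize sa (ML r n) a = s at *
  generalize sa (ML r n) (star a) = s' at *
  have w3' : ∀ i : ℕ, E.ι (ω ^ i) ^ 3 = 1 := fun i => by
    rw [← map_pow, ← pow_mul, mul_comm, pow_mul, www, one_pow, map_one]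
  refine ⟨?_, ?_, ?_⟩
  · have I := hIDN a (star a) (Q n) a4 b4 h.adm.cop_star a3 b3
    rw [b2, a2, ((hTHI a h.adm.pp.2.ne).2.1 _ b1 _).1,
      ((hTHI _ h.adm.star.pp.2.ne).2.1 _ a1 _).1] at I
    obtain ⟨m, hm⟩ := rel_IDZ (ch j) a5 a6 b5 b6 b1 (nn a)
    obtain ⟨m', hm'⟩ := rel_IDZ (ch j) b5 b6 a5 a6 a1 (nn (star a))
    rw [I] at hm
    have e1 := hm _ (h.x2 n).k1
    have e2 := hm _ (h.x2 n).k2
    have e3 := hm' _ (h.x2 n).k1
    have e4 := hm' _ (h.x2 n).k2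
    rw [← Ideal.Quotient.eq_zero_iff_mem]
    simp only [Dat.zn, dat, gnM, Sum.elim_inl, cons_val_zero, cons_val_one, zb, map_sub, map_mul,
      map_one, map_natCast, zL_map (pow_ne_zero _ three_ne_zero) _ j, rh_map E χ r n _ j]
    simp only at e1 e2 e3 e4
    linear_combination (rho j (fun g => Ideal.Quotient.mk (E.m ^ n) (lm E χ r n g)) (C.x₁ n) - 1) *
      (e4 - e2) - (rho j (fun g => Ideal.Quotient.mk (E.m ^ n) (lm E χ r n g)) (C.x₂ n) - 1) *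
      (e3 - e1)
  · have N0 : 3 ^ (n + 1) ≠ 0 := pow_ne_zero _ three_ne_zero
    have c : cy (3 ^ (n + 1)) s'⁻¹ = cy (3 ^ (n + 1)) s⁻¹ := by
      have k := cy_inv N0 s
      have k' := cy_inv N0 s'
      rw [b7, nn_star, ← a7] at k'
      linear_combination cy (3 ^ (n + 1)) s⁻¹ * k' - cy (3 ^ (n + 1)) s'⁻¹ * k
    have c' : bt E n s'⁻¹ = bt E n s⁻¹ := by rw [bt, bt, lA, lA, c]
    have k1 := cb.1 _ (GK.inv_mem a1) _ a1
    have k2 := cb.2 _ (one_mem _)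
    rw [inv_mul_cancel] at k1
    have u := w3' (χ s).val
    have u' := w3' (χ s').val
    simp only [Dat.Dv, dat, lm, cz, c', nn_star, map_mul E.ι, map_sub E.ι, map_pow E.ι a,
      map_pow E.ι (star a), map_one]
    generalize E.ι (ω ^ (χ s).val) = x at *
    generalize E.ι (ω ^ (χ s').val) = y at *
    obtain ⟨t, ht⟩ : ∃ t, t = ((x * E.ι a) ^ 2 + x * E.ι a * (y * E.ι (star a)) +
      (y * E.ι (star a)) ^ 2) * (1 - E.ι (star a) ^ 3) := ⟨_, rfl⟩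
    refine ⟨bt E n s * t, ?_⟩
    convert add_mem (Ideal.mul_mem_left _ (bt E n s⁻¹ * bt E n s * t) (sub_mem
      (Ideal.mul_mem_left _ x a8) (Ideal.mul_mem_left _ y b8))) (Ideal.mul_mem_left _
        ((x * E.ι a - y * E.ι (star a)) * t) (sub_mem k2 k1)) using 1
    linear_combination (x * E.ι a - y * E.ι (star a)) * ht +
      (1 - E.ι (star a) ^ 3) * (E.ι a ^ 3 * u - E.ι (star a) ^ 3 * u')
  · obtain ⟨v, hv⟩ := (E.unit_ι h.adm.pp.2.pw).exists_right_inv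
    obtain ⟨d, hd⟩ : E.T ∣ bt E n s⁻¹ - 1 := by
      simpa [bt] using sub_dvd_pow_sub_pow (1 + E.T) 1 (lA n s⁻¹).val
    have e := congrArg E.ι (mul_star_nn a)
    have u := w3' (χ s).val
    rw [map_mul, map_natCast] at e
    simp only [Dat.Dv, dat, lm, cz, ← e, map_mul E.ι, map_sub E.ι, map_pow E.ι a,
      map_pow E.ι (star a), map_one]
    generalize E.ι (ω ^ (χ s).val) = x at *
    obtain ⟨t, ht⟩ : ∃ t, t = v * (x ^ 2 + x * E.ι (star a) + E.ι (star a) ^ 2) *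
      (E.ι a ^ 3 - E.ι (star a) ^ 3) := ⟨_, rfl⟩
    refine ⟨t, ?_⟩
    convert add_mem (Ideal.mem_sup_left (Ideal.mem_span_singleton.2 (dvd_mul_right E.T
      (d * x * E.ι (ps (ML r n) s) * t)))) (Ideal.mem_sup_right
        (Ideal.mul_mem_left _ (x * t) a8)) using 1
    linear_combination x * E.ι (ps (ML r n) s) * t * hd + E.ι a * (x - E.ι (star a)) * ht +
      (E.ι a ^ 3 - E.ι (star a) ^ 3) * ((x ^ 3 - E.ι (star a) ^ 3) * hv + u)

end Pool.Agent.MP_e23604_nt.W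

end

section

/-!
The Euler system in the tower.
-/

set_option autoImplicit false

open Finset Filter Matrix QuadraticAlgebra
open scoped Classical

namespace Pool.Agent.MP_e23604_nt.W

open B R S

theorem img_EUL {α : Type} {k : ℕ} (q : α) (F : Fin k → α) (h : ∀ i, F i ≠ q) :
    (univ.image (Fin.cons q F : Fin (k + 1) → α)).erase q = univ.image F := by
  ext x
  simp only [mem_erase, mem_image, mem_univ, true_and, Fin.exists_fin_succ, Fin.cons_zero,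
    Fin.cons_succ]
  exact ⟨fun e => e.2.resolve_left e.1.symm, fun ⟨i, e⟩ => ⟨e ▸ h i, Or.inr ⟨i, e⟩⟩⟩

theorem EUL_pf (hKOL : KOL_st) (hTHI : THI_st) (hUNIT : UNIT_st) (hCYG : CYG_st) (hCHR : CHR_st)
    (hAUX : AUX_st) : EUL_st := by
  intro Λ S _ _ E χ r a a' C Q hC ha hQ
  have ha' : Adm r a' := by
    rcases ha with rfl | rfl
    exacts [hC.adm, hC.adm.star]
  suffices key : ∀ n, ∃ κ : ∀ k : ℕ, (Fin k → Ax) → GQ → Λ,
      Zf (rh E χ r n) (Rp C.p ∅) (E.m ^ n) (zb E χ r a' Q n) ∧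
      (∀ k F, (dat E χ r a C).Ad n F → Zf (rh E χ r n) (Rp C.p (Set.range F)) (E.m ^ n) (κ k F)) ∧
      (∀ F, ∀ u ∈ UM (ML r n),
        κ 0 F u - (rh E χ r n (C.g1 n) - 1) * zb E χ r a' Q n u ∈ E.m ^ n) ∧
      ∀ k F (q : Ax), (dat E χ r a C).Ad n (Fin.cons q F : Fin (k + 1) → Ax) →
        κ (k + 1) (Fin.cons q F) q.t + κ k F q.s ∈ E.m ^ n by
    choose κ h1 h2 h3 h4 using key
    exact ⟨κ, h1, h2, h3, h4⟩
  intro n
  have M0 := ML_ne hC.tw.sf.ne_zero n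
  obtain ⟨-, ⟨j⟩, -, hchr⟩ := (hCHR Λ E χ r n hC.tw).2.2.2.2.2.2.2.2 _ le_rfl
  replace hchr := hchr j
  obtain ⟨x1, x2, x3, -⟩ := hAUX S χ r n a C.p hC.tw hC.adm hC.pr
  set π := Ideal.Quotient.mk (E.m ^ n)
  obtain ⟨kap, k1, k2⟩ := hKOL _ 3 (n + 1) j _ a' (Q n) _ (C.g1 n) Ax Ax.V Ax.w
    ⟨Nat.prime_three, by omega, hchr, ha'.copM n, M0, by simp [ML], ⟨3 ^ (n + 1) * r, by
      rw [ML]; ring⟩, hQ n⟩ (hC.g1D n).2
  obtain ⟨l, hl⟩ := (Ideal.Quotient.mk_surjective (I := E.m ^ n)).hasRightInverse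
  have e1 : (fun g => π (rh E χ r n g)) = rho j fun g => π (lm E χ r n g) :=
    funext (rh_map E χ r n π j)
  have e2 : ∀ g, π (zb E χ r a' Q n g) =
      zc j (UM (ML r n)) (fun g => π (lm E χ r n g)) (Th a' (Q n)) g :=
    zL_map (pow_ne_zero _ three_ne_zero) π j _ _ _
  have nov : ∀ (F : Set Ax) (W : Plc), W.l ≠ 3 → (∀ q ∈ Set.range C.p ∪ F, ¬ Ov W q.w) →
      ¬ Ov W (3 * r) := fun F W h1 h2 e => ((x1 W).1 e).elim h1 fun ⟨q, hq, e⟩ =>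
    h2 q (Set.union_subset_union_right _ (Set.empty_subset _) hq) e
  have kp : ∀ k (F : Fin k → Ax), (dat E χ r a C).Ad n F →
      (∀ q ∈ univ.image F, KP (a' * ML r n) (ML r n) q.V q.w) ∧
        Set.InjOn Ax.w (univ.image F : Finset Ax) := fun k F hF => by
    refine ⟨fun q hq => ?_, fun q hq q' hq' e => ?_⟩
    · obtain ⟨i, -, rfl⟩ := mem_image.1 hq
      rcases ha with rfl | rfl
      exacts [(x3 _ (hF.1 i)).2.2.2.2.1, (x3 _ (hF.1 i)).2.2.2.2.2.1]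
    · obtain ⟨i, -, rfl⟩ := mem_image.1 hq
      obtain ⟨i', -, rfl⟩ := mem_image.1 hq'
      exact congrArg F (hF.2 ((hF.1 i).sp.deg.symm.trans
        ((congrArg nn e).trans (hF.1 i').sp.deg)))
  refine ⟨fun k F g => l (kap (univ.image F) g), ?_, fun k F hF => ?_, fun F u hu => ?_,
    fun k F q hF => ?_⟩
  · have h6 : IsCoprime a' 6 := (ha'.copM n).of_mul_right_left
    obtain ⟨-, t2, -, t4⟩ := hTHI a' (cop6_ne h6)
    obtain ⟨c, hc⟩ := (hCYG _ M0).2.1 _ (hQ n) T0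
      (dvd_smul three_T0 ⟨3 ^ n * (9 * r), by rw [ML]; ring⟩)
    have gd : Gd (Q n) := ⟨c, hc.symm⟩
    obtain ⟨z1, -, -, z2, -⟩ := (ZC_pf _ _ j _ _ hchr).2 (Th a' (Q n))
      (t4 h6 _ (gd.smul (cop6.1 h6).2).ne)
      fun u hu => by rw [← (t2 u hu.1 _).1, hu.2 _ (hQ n).zero]
    refine ⟨by rwa [e1, funext e2], fun g ⟨W, w1, w2, w3⟩ => ?_⟩
    have w4 : ¬ Ov W 3 := fun e => nov _ W w1 w2 (Ov_mul.2 (Or.inl e))
    rw [← Ideal.Quotient.eq_zero_iff_mem, e2]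
    refine z2 W (by rw [Nat.cast_pow, map_pow, Nat.cast_ofNat, v_three w4, one_pow])
      (fun τ hτ => x2 ⟨W, w1, w2, hτ⟩) (fun y hy => ?_) g w3
    rw [← (t2 y hy _).1]
    exact (hUNIT a' W _ h6 w4).2 (gd.gal hy)
  · obtain ⟨z1, z2, -⟩ := k2 _ (kp k F hF).1 (kp k F hF).2
    refine ⟨by rwa [e1, funext fun g => hl _], fun g ⟨W, w1, w2, w3⟩ => ?_⟩
    rw [← Ideal.Quotient.eq_zero_iff_mem, hl]
    refine z2 W (fun e => (Ov_mul.1 e).elim (fun e => nov _ W w1 w2 (Ov_pow (n := n + 2 + 1)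
      (e.dvd ?_))) (not_Ov.2 ?_)) g w3
    · rw [ML_eq, mul_pow]
      exact mul_dvd_mul_left _ (dvd_pow_self _ (by omega))
    · rw [map_prod, map_prod]
      refine prod_eq_one fun q hq => not_Ov.1 (w2 q (Or.inr ?_))
      obtain ⟨i, -, rfl⟩ := mem_image.1 hq
      exact ⟨i, rfl⟩
  · rw [← Ideal.Quotient.eq, hl, univ_eq_empty, image_empty, k1 u hu.1, map_mul, map_sub, map_one,
      e2, rh_map E χ r n π j]
  · have ok : Aok r a n q := hF.1 0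
    have := (k2 _ (kp _ _ hF).1 (kp _ _ hF).2).2.2 q (mem_image.2 ⟨0, mem_univ _, rfl⟩) q.s
      ok.sp.fr q.t ok.ine
    rw [ok.one, map_one, img_EUL q F fun i e => Fin.succ_ne_zero i
      (hF.2 (congrArg (fun q : Ax => q.V.l) e))] at this
    rw [← Ideal.Quotient.eq_zero_iff_mem, map_add, hl, hl, this, neg_one_mul, neg_add_cancel]

end Pool.Agent.MP_e23604_nt.W

end

section

set_option autoImplicit false

open Finset Filter Matrix QuadraticAlgebra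
open scoped Classical

namespace Pool.Agent.MP_e23604_nt.W

open B R S

theorem RCS_pf (hRCC : RCC_st) (hRAM : RAM_st) (hCNJ : CNJ_st) (hCHR : CHR_st) (hAUX : AUX_st)
    (hPLK : PLK_st) : RCS_st := by
  intro Λ S I _ _ E χ r n a p Q b c x hT hA hP hQ hinj hb hc hx h3
  rcases isEmpty_or_nonempty I with hI | hI
  · simp
  obtain ⟨-, -, -, -, -, c6, c7, -, c9⟩ := hCHR Λ E χ r n hT
  obtain ⟨hfin, ⟨j⟩, hnil, hchr⟩ := c9 b hb
  obtain ⟨-, a2, -⟩ := hAUX S χ r n a p hT hA hP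
  set π := Ideal.Quotient.mk b with hπ
  obtain ⟨z1, z2, z3, z4⟩ := (ZC_pf _ _ j _ _ (hchr j)).1
  have e : (fun g => π (rh E χ r n g)) = rho j fun g => π (lm E χ r n g) :=
    funext (rh_map E χ r n π j)
  have hc1 : Co (rho j fun g => π (lm E χ r n g)) GK fun g => π (c g) := e ▸ hc.1
  have hx1 : Co (fun g => π (lm E χ r n g)) GK fun g => 3 * π (x g) :=
    ⟨hx.1.1.map (3 * ·), fun g hg h hh => by
      have := hx.1.2 g hg h hh
      simp only at this ⊢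
      rw [this]
      ring⟩
  have hw : Function.Injective fun i => (Q i).w := fun i k h => hinj (by
    simp only at h ⊢
    rw [← (hQ i).sp.deg, ← (hQ k).sp.deg, h])
  have hiv : ∀ i, Function.invFun (fun i => (Q i).w) (Q i).w = i := Function.leftInverse_invFun hw
  generalize Function.invFun (fun i => (Q i).w) = f at hiv
  have key := (hRCC _ 3 (n + 1) j _ _ _ _ Nat.prime_three (by omega) z2 z1 z3 hc1 hx1).1
    (univ.image fun i => (Q i).w) (fun ϖ => (Q (f ϖ)).V) (fun ϖ => (Q (f ϖ)).s)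
    (fun ϖ => (Q (f ϖ)).t) (fun _ => 1) (fun ϖ hϖ => by
      obtain ⟨i, -, rfl⟩ := mem_image.1 hϖ
      simp only [hiv]
      exact ⟨(hQ i).sp, (hQ i).ine, by rw [one_mul, (hQ i).one], fun g hg =>
        ⟨z4 g ((hQ i).dec hg), (hchr j).one g ((hQ i).dec hg)⟩⟩) fun W hW => by
      by_cases h : W.l = 3
      · have h1 : Ov W 3 := by simpa [h] using Ov_l W
        refine .inr (.inl (((hCNJ _ _).2 V3 W pw z1 pw_prime (Ov_three.1 V3_three)
          (Ov_three.1 h1)).1 _ hx1 |>.1 ⟨0, fun g hg => ?_⟩))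
        simp only
        rw [mul_zero, Ideal.Quotient.eq_zero_iff_mem.2 (h3 g hg), mul_zero]
      by_cases h' : Ov W r
      · refine .inr (.inl (hRAM χ r W _ (π.comp E.ι) _ _ hT h' ?_ (z1.monoK W.D_le)
          (fun g hg => ?_) (fun τ hτ => ?_) (hx.1.monoK W.D_le)))
        · simpa only [map_ofNat] using hnil 3 E.three_mem
        · simpa only [map_sub, map_one] using hnil _ (c6 g (W.D_le hg)).1
        · exact Ideal.Quotient.eq.2 (hb (c7 W h τ hτ).2)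
      refine .inr (.inr fun g hg => ?_)
      have h1 : g ∈ Rp p (Set.range Q) := ⟨W, h, by
        rintro _ (⟨s, rfl⟩ | ⟨i, rfl⟩)
        · exact fun k => h' (k.dvd ((hP.all _).2 ⟨s, rfl⟩).2)
        · exact hW _ (mem_image_of_mem _ (mem_univ i)), hg⟩
      have h2 := a2 (RmI_mono (by simp) h1)
      exact ⟨z4 g h2, (hchr j).one g h2, Ideal.Quotient.eq_zero_iff_mem.2 (hc.2 g h1), by
        rw [Ideal.Quotient.eq_zero_iff_mem.2 (hx.2 g h1), mul_zero]⟩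
  rw [sum_image fun i _ k _ h => hw h] at key
  simp only [hiv, map_one, one_mul] at key
  have h4 : IsUnit (4 : Λ) := E.unit _ fun k => E.ne (by
    have := E.m.sub_mem k E.three_mem
    rwa [show (4 : Λ) - 3 = 1 by norm_num] at this)
  have h5 := h4.map π
  rw [map_ofNat] at h5
  rw [← Ideal.Quotient.eq_zero_iff_mem, ← h5.mul_right_eq_zero, ← key, map_mul, map_sum, mul_sum,
    map_ofNat]
  refine congrArg _ (sum_congr rfl fun i _ => ?_)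
  simp only [map_sub, map_mul]
  ring

end Pool.Agent.MP_e23604_nt.W

end

section

/-!
An element of the decomposition group at three with prescribed action.
-/

set_option autoImplicit false

open Finset Filter Matrix QuadraticAlgebra
open scoped Classical

namespace Pool.Agent.MP_e23604_nt.W

open B R S

theorem act_GON {N c : Zw} {g : GQ} (hg : g ∈ GK) (h : ∀ P : Pt, N • P = 0 → gal g P = c • P)
    (i : ℕ) (P : Pt) (e : N • P = 0) : gal (g ^ i) P = c ^ i • P := by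
  induction i with
  | zero => rw [pow_zero, pow_zero, gal_one, one_smul]
  | succ i ih => rw [pow_succ', gal_mul, ih, gal_smul hg, h P e, smul_smul, pow_succ]

theorem wrd_GON (hBRN : BRN_st) (hKGEN : KGEN_st) (hPS : PS_st) (hINE : INE_st) (n : ℕ) {g : GQ}
    (hg : g ∈ GK) : ∃ x ∈ V3.D, x⁻¹ * g ∈ UM (3 ^ (n + 1)) := by
  have N0 : (3 : Zw) ^ (n + 1) ≠ 0 := pow_ne_zero _ (by decide)
  obtain ⟨x₁, d1, x₂, d2, -, -, c1, c2, c3⟩ := hKGEN.1 0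
  have p1 := (hPS _ N0).1
  obtain ⟨L, hL⟩ := hBRN Bool 3 (fun i => cond i x₁ x₂) (UM (3 ^ (n + 1)))
    ⟨fun i => by cases i; exacts [d2.2, d1.2], fun b b1 b2 b3 b4 =>
      (hKGEN.2 x₁ x₂ ∅ (fun _ => V3) (fun _ => 1) d1.2 d2.2 c1 c2 c3 (by simp)).1 3 b
        (fun ϖ h e => absurd (h.1.irreducible.dvd_symm pw_prime.irreducible
          (h.1.dvd_of_dvd_pow (n := 2) (pw_sq ▸ dvd_neg.2 e))) h.2.pw)
        b1 b2 b3 (b4 true) (b4 false) (by simp)⟩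
    (UM_open N0) (fun g hg => (p1 g hg).2.2.2.2.2.2.2.1)
    (fun g hg => ⟨n, pow_mem hg _, fun P e => by
      rw [act_GON hg (p1 g hg).1 _ P e, smul_congr (b := 1) e, one_smul]
      rw [← Ideal.mem_span_singleton, ← Ideal.span_singleton_pow]
      exact pow3_mem (Ideal.mem_span_singleton_self _) (Ideal.mem_span_singleton.2
        ((p1 g hg).2.2.1 (dvd_pow_self _ n.succ_ne_zero))) n⟩)
    (fun V hV τ hτ => (hINE V hV τ hτ).2.2 _ fun e => hV (Ov_pow e)) g hg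
  refine ⟨_, list_prod_mem fun y hy => ?_, hL⟩
  obtain ⟨i, -, rfl⟩ := List.mem_map.1 hy
  cases i
  exacts [d2, d1]

theorem GON_pf (hCHR : CHR_st) (hBRN : BRN_st) (hKGEN : KGEN_st) (hSURJ : SURJ_st) (hPS : PS_st)
    (hINE : INE_st) : GON_st := by
  intro Λ _ E χ r n a tw ad
  have N0 : (3 : Zw) ^ (n + 1) ≠ 0 := pow_ne_zero _ (by decide)
  have n0 : 3 ^ (n + 1) ≠ 0 := pow_ne_zero _ three_ne_zero
  have cop : ∀ b, Adm r b → IsCoprime b (3 ^ (n + 1)) := fun b h =>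
    (h.cop.of_isCoprime_of_dvd_right ⟨2 * r, by ring⟩ : IsCoprime b 3).pow_right
  obtain ⟨s₁, k1, a1⟩ := hSURJ _ a N0 ad.pp.2 (cop a ad)
  obtain ⟨s₂, k2, a2⟩ := hSURJ _ (star a) N0 ad.star.pp.2 (cop _ ad.star)
  have k3 := mul_mem k1 (inv_mem k2)
  obtain ⟨x, xD, hx⟩ := wrd_GON hBRN hKGEN hPS hINE n k3
  have xK : x ∈ GK := xD.2
  obtain ⟨-, -, h3, -, -, h6, -, h8, -⟩ := hCHR Λ E χ r n tw
  obtain ⟨h8, h9⟩ := h8 _ N0 dvd_rfl
  have c1 : cy (3 ^ (n + 1)) x = 1 := by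
    have e := h8 _ hx
    rw [cy_mul n0, cy_mul n0, h9 _ k1 _ a1, ← nn_star, ← h9 _ k2 _ a2, cy_inv n0, mul_one] at e
    rw [← cy_inv n0 x, e, mul_one]
  have c3 : cy (3 ^ (n + 1)) (x ^ 3) = 1 := by
    rw [pow_three, cy_mul n0, cy_mul n0, c1, mul_one, mul_one]
  have c4 : bt E n (x ^ 3)⁻¹ = bt E n 1 := by
    have e := cy_inv n0 (x ^ 3)
    rw [c3, one_mul, ← cy_one n0] at e
    simp only [bt, lA, e]
  have p1 := (hPS _ N0).1
  let π : Zw →+* Λ ⧸ E.m ^ n := (Ideal.Quotient.mk _).comp E.ι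
  have π0 : ∀ {y z : Zw}, 3 ^ (n + 1) ∣ y - z → π y = π z := by
    rintro y z ⟨c, e⟩
    rw [← sub_eq_zero, ← map_sub, e, map_mul, pow_succ, map_mul, map_pow, map_ofNat,
      ← map_ofNat (Ideal.Quotient.mk (E.m ^ n)), ← map_pow,
      Ideal.Quotient.eq_zero_iff_mem.2 (Ideal.pow_mem_pow E.three_mem n), zero_mul, zero_mul]
  have tm := fun g hg h hh => (π0 ((p1 g hg).2.2.2.2.2.1 h hh)).trans (map_mul π _ _)
  have e1 : π (ps (3 ^ (n + 1)) x) * π (star a) = π a := by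
    have e := tm x xK _ hx.1
    rw [mul_inv_cancel_left, π0 ((p1 _ hx.1).2.2.2.1.1 hx), map_one, mul_one] at e
    rw [← e, ← π0 (((p1 _ k2).2.2.2.2.1 _).1 a2), ← tm _ k3 _ k2, inv_mul_cancel_right,
      π0 (((p1 _ k1).2.2.2.2.1 _).1 a1)]
  have x3 := pow_mem xK 3
  have e2 : Ideal.Quotient.mk (E.m ^ n) (lm E χ r n (x ^ 3)) = π (ps (3 ^ (n + 1)) x) ^ 3 := by
    have : χ (x ^ 3) = 0 := by
      rw [pow_three, tw.add x xK _ (mul_mem xK xK), tw.add x xK x xK]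
      generalize χ x = y
      revert y
      decide
    rw [lm, this, c4, map_mul, Ideal.Quotient.eq.2 (h3.2 1 (one_mem _)), map_one, mul_one,
      ZMod.val_zero, pow_zero, one_mul]
    refine (π0 ((p1 _ x3).2.2.2.2.2.2.2.2 _ (ML_ne tw.sf.ne_zero n) (dvd_mul_right _ _))).trans ?_
    rw [pow_three, pow_three, tm x xK _ (mul_mem xK xK), tm x xK x xK]
  have e3 := Ideal.Quotient.eq.2 (h6 _ x3).2.2.2.2
  have : Fact (1 < 3 ^ (n + 1)) := ⟨Nat.one_lt_pow n.succ_ne_zero (by norm_num)⟩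
  rw [c3, ZMod.val_one, Nat.cast_one, map_one, map_mul, e2] at e3
  refine ⟨x ^ 3, pow_mem xD 3, ⟨E.ι (-a ^ 3 * (1 - star a ^ 3)), Ideal.Quotient.eq.1 ?_⟩,
    E.ι (star a ^ 3 * (1 - star a ^ 3)), Ideal.Quotient.eq.1 ?_⟩
  · rw [map_mul, map_sub, map_one]
    change _ * π _ = π _
    simp only [cz, map_mul, map_sub, map_pow, map_neg, map_one, ← e1]
    linear_combination -π (star a) ^ 3 * (1 - π (star a) ^ 3) * e3
  · rw [map_mul, map_sub, map_one, e2]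
    change _ * π _ = π _
    simp only [cz, map_mul, map_sub, map_pow, map_one, ← e1]
    ring

end Pool.Agent.MP_e23604_nt.W

end

section

set_option autoImplicit false

open Finset Filter Matrix QuadraticAlgebra
open scoped Classical

namespace Pool.Agent.MP_e23604_nt.W

open B R S

theorem nn_AUX {N : ℕ} {u : Zw} (h : (N : Zw) ∣ u - 1) : (nn u : ZMod N) = 1 := by
  obtain ⟨c, hc⟩ := h
  obtain rfl : u = 1 + N * c := by linear_combination hc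
  have e : ((nn (1 + N * c) : ℕ) : Zw) = 1 + N * (c + star c + N * (c * star c)) := by
    rw [← mul_star_nn, star_add, star_one, star_mul', star_natCast]
    ring
  have e' := congrArg (fun z : Zw => (z.re : ZMod N)) e
  simpa using e'

theorem three_AUX {V : Plc} (hPLK : PLK_st) : Ov V 3 ↔ V.l = 3 :=
  ⟨fun h => (Nat.prime_dvd_prime_iff_eq V.hl.out Nat.prime_three).1
    ((hPLK.2.2.2.1 V 3).1 (by simpa using h)), fun h => by simpa [h] using Ov_l V⟩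

theorem ML_AUX {V : Plc} {r n : ℕ} (h : Ov V (ML r n)) : Ov V (3 * r) := by
  rw [ML_eq, Ov_mul] at h
  exact Ov_mul.2 (h.imp_left Ov_pow)

theorem AUX_pf (hPLK : PLK_st) (hINE : INE_st) (hTAME : TAME_st) (hCHB : CHB_st) (hFRK : FRK_st)
    (hPS : PS_st) (hCYC1 : CYC1_st) : AUX_st := by
  intro S χ r n a p htw had hp
  have hM : ML r n ≠ 0 := ML_ne htw.sf.ne_zero n
  have hU : ON (UM (ML r n)) := (hPS _ hM).2 (by
    rw [ML_eq, star_mul', star_pow, star_natCast, star_ofNat])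
  have hd : (3 * r : Zw) ∣ ML r n := ⟨3 ^ (n + 2), by rw [ML_eq]; ring⟩
  have h1 : ∀ V : Plc, Ov V (3 * r) ↔ V.l = 3 ∨ ∃ q ∈ Set.range p ∪ ∅, Ov V q.w := fun V => by
    rw [Set.union_empty]
    constructor
    · intro h
      by_cases h3 : V.l = 3
      · exact Or.inl h3
      · obtain ⟨ϖ, k1, k2, -, k4⟩ := hPLK.1 V
        obtain ⟨s, e⟩ := (hp.all ϖ).1 ⟨k4 h3, ((hPLK.2.2.1 V ϖ k1 k2).1 _).1
          ((Ov_mul.1 h).resolve_left (mt (three_AUX hPLK).1 h3))⟩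
        exact Or.inr ⟨_, ⟨s, rfl⟩, e ▸ k2⟩
    · rintro (h | ⟨_, ⟨s, rfl⟩, h⟩)
      · exact Ov_mul.2 (Or.inl ((three_AUX hPLK).2 h))
      · exact Ov_mul.2 (Or.inr (h.dvd ((hp.all _).2 ⟨s, rfl⟩).2))
  have h2 : Rp p ∅ ⊆ UM (ML r n) := by
    rintro g ⟨V, k1, k2, k3⟩
    have k : ¬ Ov V (3 * r) := fun e => ((h1 V).1 e).elim k1 fun ⟨q, hq, e⟩ => k2 q hq e
    exact (hINE V (mt (three_AUX hPLK).1 k1) g k3).2.2 _ (mt ML_AUX k)
  have h3 : ∀ q, Aok r a n q → q.Tm ∧ ¬ Ov q.V (3 * r) := fun q hq => by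
    have k := hq.sp.pp.l_neK hq.sp.ov
    refine ⟨⟨hq.sp.pp, hq.sp.ov, hq.sp.fr, hq.ine, (hTAME 3 (n + 1) q.V Nat.prime_three k
      k).2.2.2.2.1 (by omega) _ hq.ine (hq.one ▸ isUnit_one)⟩, hq.sp.ov.cop ?_⟩
    exact hq.cop.of_isCoprime_of_dvd_right (hd.mul_left _)
  have h4 : ∀ q, Aok r a n q → ∀ s, ¬ Ov q.V (p s).w := fun q hq s e =>
    (h3 q hq).2 ((h1 _).2 (Or.inr ⟨_, Or.inl ⟨s, rfl⟩, e⟩))
  refine ⟨h1, h2, fun q hq => ?_, fun N hN u hu B => ?_, fun Λ _ E θ hc hm => ?_⟩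
  · have k : (nn q.w).Prime := hq.sp.deg ▸ q.V.hl.out
    refine ⟨(h3 q hq).1, hq.dec hq.sp.fr.1, hq.dec (q.V.I_le hq.ine), (h3 q hq).2,
      ⟨hq.sp.pp, k, hq.sp.ov, hq.cop.of_isCoprime_of_dvd_right ⟨star a, by ring⟩, hq.dec⟩,
      ⟨hq.sp.pp, k, hq.sp.ov, hq.cop.of_isCoprime_of_dvd_right ⟨a, by ring⟩, hq.dec⟩,
      fun F hF => ⟨q.V, hq.sp.pp.l_neK hq.sp.ov, ?_, hq.ine⟩⟩
    rintro q' (⟨s, rfl⟩ | hq')
    · exact h4 q hq s
    · exact fun e => (hF q' hq').2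
        ((hPLK.2.2.1 _ _ (hF q' hq').1.sp.pp.1 (hF q' hq').1.sp.ov).2.1 _ e).1.symm
  · have k0 : ((3 ^ (n + 1) : ℕ) : Zw) ∣ ML r n := ⟨9 * r, by rw [ML]; push_cast; rfl⟩
    have k1 : cy (3 ^ (n + 1)) u = 1 := by
      rw [hCYC1 _ _ hM k0 u hu.1]
      exact nn_AUX (k0.trans (((hPS _ hM).1 u hu.1).2.2.2.1.1 hu))
    obtain ⟨V, ϖ, φ, i, j, k2, k3, k4, k5, k6, k7⟩ := hCHB.1 _ u _ (B.sup id)
      (a * star a * ML r n) (hN.inf hU) hu.1 (pow_ne_zero _ three_ne_zero) k1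
      (mul_ne_zero (mul_ne_zero had.pp.1.ne_zero had.star.pp.1.ne_zero) hM)
    have k8 := k2.pp.l_neK k2.ov
    obtain ⟨τ, k9, k10⟩ := (hTAME 3 (n + 1) V Nat.prime_three k8 k8).2.1
    have k11 : φ ∈ UM (ML r n) := by simpa using mul_mem (pow_mem hu i) k6.2
    refine ⟨⟨V, ϖ, φ, τ⟩, ⟨k2, k4.of_isCoprime_of_dvd_left
      (((hPLK.2.2.1 V ϖ k2.pp.1 k2.ov).1 _).1 (Ov_l V)), ?_, k9, k10⟩,
      fun e => k3.not_ge (le_sup (f := id) e), i, j, k6.1, k7.1⟩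
    exact ((hFRK V ϖ k2.pp.1 k2.ov).2.2.2 φ k2.fr).2.2.2.2.1 _ hU.2 k11
      ((k5 V rfl).trans inf_le_right)
  · have k : ∀ q, Aok r a n q → q.Tr (E.m ^ n) θ := fun q hq => by
      refine ⟨(h3 q hq).1, fun g hg => hc.2 g (hq.dec hg), ?_⟩
      obtain ⟨c, e⟩ := hq.sp.dvd
      have e' : q.V.l = 3 ^ (n + 1) * c + 1 := by have := q.V.hl.out.pos; omega
      rw [hq.sp.deg, e']
      push_cast
      rw [add_sub_cancel_right, pow_succ, mul_assoc]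
      exact Ideal.mul_mem_right _ _ (Ideal.pow_mem_pow E.three_mem n)
    refine ⟨fun x₁ x₂ hx => ⟨E.fin n, ⟨n, Ideal.pow_mem_pow E.three_mem n⟩, hc.mu hU le_rfl,
      fun g hg => ⟨n, Ideal.pow_mem_pow (hm g hg) n⟩, fun g hg => hc.2 g (h2 ?_), hx.k1, hx.k2,
      hx.c1, hx.c2, hx.c3, hp.tm, hp.inj⟩, k, fun I Q hQ hi => ⟨fun i => k _ (hQ i),
      fun i j e => hi ?_, fun i s e => h4 _ (hQ i) s (e ▸ (hQ i).sp.ov)⟩⟩
    · rwa [Rp, Set.union_empty]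
    · exact (hQ i).sp.deg.symm.trans ((congrArg nn e).trans (hQ j).sp.deg)

end Pool.Agent.MP_e23604_nt.W

end

section

set_option autoImplicit false

open Finset Filter Matrix QuadraticAlgebra
open scoped Classical

namespace Pool.Agent.MP_e23604_nt.W

open B R S

theorem sq_ZST (hPLK : PLK_st) {r : ℕ} (hr : Squarefree r) (h3 : ¬ 3 ∣ r) {q : Ax} (h : q.Tm) :
    ¬ q.w ^ 2 ∣ r := fun e => by
  obtain ⟨-, -, -, a1, -, a2, -⟩ := hPLK.2.2.1 q.V q.w h.pp.1 h.ov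
  obtain ⟨c, hc⟩ := (hPLK.2.2.2.1 q.V r).1 (h.ov.dvd ((dvd_pow_self _ two_ne_zero).trans e))
  have h1 : ¬ Ov q.V c := fun k => q.V.hl.out.not_isUnit
    (hr _ (hc ▸ mul_dvd_mul_left _ ((hPLK.2.2.2.1 q.V c).1 k)))
  have h2 : q.V.v q.V.l = (q.V.l : ℝ)⁻¹ := by
    rw [Plc.v, nv_apply, map_natCast, map_natCast,
      ← map_natCast (algebraMap ℚ_[q.V.l] (PadicAlgCl q.V.l)), norm_algebraMap', Padic.norm_p]
  have h4 := (a2 r 2).1 e
  rw [(a1 fun k => h3 (hc ▸ k ▸ dvd_mul_right _ _)).1, hc, Nat.cast_mul, map_mul, map_mul,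
    not_Ov.1 h1, map_natCast, h2, mul_one] at h4
  have h5 : (1 : ℝ) < q.V.l := by exact_mod_cast q.V.hl.out.one_lt
  have := inv_lt_one_of_one_lt₀ h5
  have := inv_pos.2 (zero_lt_one.trans h5)
  nlinarith

theorem ZST_pf (hSRP : SRP_st) (hPLK : PLK_st) (hPS : PS_st) : ZST_st := by
  intro R S _ _ N r j lam a M Q p hr h3 hp M0 M3 hc ha hQ hl
  have h1 : ∀ s, (p s).w ∣ r := fun s => ((hp.all _).2 ⟨s, rfl⟩).2
  have h2 : ∀ s s', s ≠ s' → IsCoprime (p s).w (p s').w := fun s s' e =>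
    (hp.tm s).pp.1.coprime_iff_not_dvd.2 fun k =>
      e (hp.inj (hPLK.2.2.2.2.2.2.2.1 _ _ (hp.tm s).pp (hp.tm s').pp k))
  have h4 : ∀ t : Finset S, ∏ s ∈ t, (p s).w ∣ r := fun t =>
    prod_dvd_of_coprime (fun s _ s' _ e => h2 s s' e) fun s _ => h1 s
  have r0 : (r : Zw) ≠ 0 := Nat.cast_ne_zero.2 hr.ne_zero
  have h5 : (r : Zw) ∣ ∏ s, (p s).w := by
    obtain ⟨c, e⟩ := h4 univ
    refine e ▸ IsUnit.mul_right_dvd (by_contra fun k => ?_) |>.2 dvd_rfl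
    obtain ⟨ϖ, a1, a2⟩ := WfDvdMonoid.exists_irreducible_factor k (right_ne_zero_of_mul (e ▸ r0))
    obtain ⟨u, a3, a4⟩ := ex_pry (a := ϖ) fun k => h3 (by
      have := pw_dvd_iff.1 (k.trans (e ▸ a2.mul_left _ : ϖ ∣ r))
      rw [nn_nat] at this
      exact Nat.prime_three.dvd_of_dvd_pow this)
    have a5 := a3.mul_left_dvd.2 a2
    obtain ⟨s, hs⟩ := (hp.all (u * ϖ)).1 ⟨⟨(associated_unit_mul_left ϖ u a3).symm.prime a1.prime,
      a4⟩, e ▸ a5.mul_left _⟩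
    exact sq_ZST hPLK hr h3 (hp.tm s) (by
      rw [e, sq]
      exact mul_dvd_mul (dvd_prod_of_mem _ (mem_univ s)) (hs ▸ a5))
  have key : ∀ (t : Finset S) (Q : Pt), Gen ((∏ s ∈ t, (p s).w) * M) Q →
      ∃ Q', Gen M Q' ∧ Bo (rho j lam) GK fun g =>
        (∏ s ∈ t, lam (p s).s) * zc j (UM ((∏ s ∈ t, (p s).w) * M)) lam (Th a Q) g -
          (∏ s ∈ t, (lam (p s).s - 1)) * zc j (UM M) lam (Th a Q') g := fun t => by
    induction t using Finset.induction_on with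
    | empty => exact fun Q h => ⟨Q, by simpa using h, 0, by simp⟩
    | insert s t hs ih =>
      intro Q h
      simp only [prod_insert hs, mul_assoc] at h ⊢
      have t0 := mul_ne_zero (ne_zero_of_dvd_ne_zero r0 (h4 t)) M0
      obtain ⟨Q', b1, m, b2⟩ := ih _ (h.smul (hp.tm s).pp.1.ne_zero)
      obtain ⟨m', b3⟩ := hSRP R N j lam a _ Q (p s) (hp.tm s) t0 (M3.mul_left _)
        ((IsCoprime.prod_right fun s' e => h2 s s' fun k => hs (k ▸ e)).mul_right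
          (hc.of_isCoprime_of_dvd_left (h1 s)))
        (ha.of_isCoprime_of_dvd_right (mul_dvd_mul_left _ (by
          rw [← mul_assoc, ← prod_insert (f := fun s => (p s).w) hs, mul_comm]
          exact mul_dvd_mul_left _ (h4 _)))) h (hl.down hPS t0 (UM_mono (dvd_mul_left _ _)))
      refine ⟨Q', b1, (∏ s ∈ t, lam (p s).s) * m' + (lam (p s).s - 1) * m, fun g hg => ?_⟩
      linear_combination (∏ s ∈ t, lam (p s).s) * b3 g hg + (lam (p s).s - 1) * b2 g hg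
  have e1 : (∏ s, (p s).w) * M ∣ M * r := mul_comm M _ ▸ mul_dvd_mul_left _ (h4 _)
  have e2 : M * r ∣ (∏ s, (p s).w) * M := (mul_dvd_mul_left _ h5).trans (mul_comm _ _).dvd
  rw [(UM_mono e1).antisymm (UM_mono e2)]
  exact key _ Q fun b => (hQ b).trans ⟨e1.trans, e2.trans⟩

end Pool.Agent.MP_e23604_nt.W

end

section

/-!
The data form a system.
-/

set_option autoImplicit false

open Finset Filter Matrix QuadraticAlgebra
open scoped Classical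

namespace Pool.Agent.MP_e23604_nt.W

open B R S

theorem SYS_pf (hCHR : CHR_st) (hAUX : AUX_st) (hMAT : MAT_st) (hDRO : DRO_st) (hRCS : RCS_st)
    (hPLK : PLK_st) : SYS_st := by
  intro Λ S _ _ E χ r a C h
  have H := fun n => hCHR Λ E χ r n h.tw
  have A := fun n => hAUX S χ r n a C.p h.tw h.adm h.pr
  have Aρ := fun n => (A n).2.2.2.2 Λ E _ (H n).2.2.2.2.1 fun g hg => ((H n).2.2.2.2.2.1 g hg).2.1
  have Al := fun n => (A n).2.2.2.2 Λ E _ (H n).2.2.2.1 fun g hg => ((H n).2.2.2.2.2.1 g hg).1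
  have Mρ := fun n => hMAT Λ S _ _ _ _ _ ((Aρ n).1 _ _ (h.x2 n))
  have Ml := fun n => hMAT Λ S _ _ _ _ _ ((Al n).1 _ _ (h.x2 n))
  refine ⟨fun n => (H n).1, fun n => UM_le _, fun n => (H n).2.1, V3.D_le,
    fun n => (H n).2.2.2.2.1, fun n => (H n).2.2.2.1, fun n q e => ((A n).2.2.1 q e).2.1,
    fun n q e => ((A n).2.2.1 q e).2.2.1, fun n j => ?_, fun n => (A n).2.1,
    fun F F' e => RmI_mono (Set.union_subset_union_right _ e),
    fun n q F e => ((A n).2.2.1 q e).2.2.2.2.2.2 F, fun n θ b F c h1 h2 h3 h4 => ?_,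
    fun n => (Mρ n).1, fun n k Q Ψ q h1 h2 => (Mρ n).2.1 k Q Ψ q h1 ((Aρ n).2.1 q (h2.1 0)),
    fun n k Q Ψ h1 _ => ((Mρ n).2.2.1 k Q Ψ h1).1,
    fun n k Q Ψ h1 h2 => ((Mρ n).2.2.1 k Q Ψ h1).2 ((Aρ n).2.2 _ Q h2.1 h2.2),
    fun n I _ Q h2 => (Ml n).2.2.2 I Q ((Al n).2.2 _ Q h2.1 h2.2),
    fun n I _ Q b c x h1 => hRCS Λ S I E χ r n a C.p Q b c x h.tw h.adm h.pr h1.1 h1.2,
    fun n => (A n).2.2.2.1, h.yD, h.spn, h.obs, h.g1D, h.g1ρ, h.g1l, ?_⟩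
  · rcases j with j | s
    · fin_cases j
      exacts [(h.x2 n).k1, (h.x2 n).k2]
    · exact (h.pr.tm s).ine.2
  · refine hDRO Λ b θ c _ _ ⟨n, h2 (Ideal.pow_mem_pow E.three_mem n)⟩ (h1.mu (H n).1 h2) h3
      fun q hq => hq.elim (fun e => .inl (.inl e)) fun e => .inr ⟨((A n).2.2.1 q (h4 q e).1).1,
        fun g hg => h2 (h1.2 g ((h4 q e).1.dec hg)), (h4 q e).2⟩
  · obtain ⟨u, i, c, h1, h2, h3⟩ := hPLK.2.2.2.2.2.2.2.2.2.2.2 _ h.adm.cz_ne
    refine ⟨i, ?_⟩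
    change E.ι (cz a) ∣ _
    rw [h3, map_mul, map_mul, (E.unit_ι h2.pw).mul_right_dvd, (h1.map E.ι).mul_left_dvd, map_pow]
    exact pow_dvd_pow_of_dvd (map_ofNat E.ι 3 ▸ map_dvd E.ι pw_dvd3) i

end Pool.Agent.MP_e23604_nt.W

end

section

/-!
Cocycles at the primes where the twist ramifies.
-/

set_option autoImplicit false

open Finset Filter Matrix QuadraticAlgebra
open scoped Classical

namespace Pool.Agent.MP_e23604_nt.W

open B R S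

theorem sum_RAM {R : Type} [CommRing R] {ζ : R} (h : ζ ^ 2 + ζ + 1 = 0) (m : ℕ) :
    ∑ i ∈ range (3 * m + 1), ζ ^ i = 1 := by
  induction m with
  | zero => simp
  | succ m ih =>
    rw [show 3 * (m + 1) + 1 = 3 * m + 1 + 1 + 1 + 1 by ring, sum_range_succ, sum_range_succ,
      sum_range_succ, ih]
    linear_combination ζ ^ (3 * m + 1) * h

theorem RAM_pf (hTPR : TPR_st) (hTAME : TAME_st) (hPLK : PLK_st) (hFRK : FRK_st) : RAM_st := by
  intro χ r V R _ _ φ θ x tw ov h3 mu un hθ co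
  have l3 : V.l ≠ 3 := fun e => tw.n3 (e ▸ (hPLK.2.2.2.1 V r).1 ov)
  obtain ⟨ϖ, p1, p2, -, p3⟩ := hPLK.1 V
  obtain ⟨σ, fk⟩ := (hFRK V ϖ p1 p2).1
  obtain ⟨τ, t1, t2⟩ := tw.ram V ov
  have k1 : km 3 τ V.l ≠ 0 := fun e => t2 (by
    obtain ⟨-, ⟨τ₀, a1, a2⟩, -, -, -, a3⟩ := hTAME 3 1 V Nat.prime_three l3 l3
    have le : V.I ≤ GK := V.I_le.trans V.D_le
    have := a3 _ χ (tw.add.mono le) (tw.lc.mono le) (fun u _ => by
      generalize χ u = z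
      revert z
      decide) τ₀ a1 a2 τ t1
    rw [this, show km (3 ^ 1) τ V.l = 0 from e, ZMod.val_zero, zero_smul])
  have hz : θ τ ^ 2 + θ τ + 1 = 0 := by
    have : ∀ z : ZMod 3, z ≠ 0 → ((ω : Zw) ^ z.val) ^ 2 + ω ^ z.val + 1 = 0 := by decide
    simpa only [map_add, map_pow φ _ 2, map_one, map_zero, ← hθ τ t1] using congrArg φ (this _ t2)
  obtain ⟨n, n1, n2⟩ := koch_unip R h3
  have T := (hTPR 3 n R V ϖ σ τ θ Nat.prime_three l3 l3 p1 p2 fk t1 k1 n1 mu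
    fun g hg => n2 _ (un g hg)).1
  have e1 := (T x co).1
  rw [show nn ϖ = 3 * (nn ϖ / 3) + 1 by have := nn_mod3 (p3 l3).2.pw; omega, sum_RAM hz] at e1
  have e2 := (T (fun g => (θ τ - 1) * x g - (θ g - 1) * x τ)
    ⟨co.1.map₂ mu.1 fun a b => (θ τ - 1) * a - (b - 1) * x τ, fun g hg k hk => by
      simp only [co.2 g hg k hk, mu.2.2 g hg k hk]
      ring⟩).2.1 (by linear_combination -e1) (sub_self _)
  exact ⟨(θ τ ^ 2 - 1) * x τ, fun g hg => by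
    linear_combination (θ τ ^ 2 - 1) * e2 g hg - (θ τ - 2) * x g * hz⟩

end Pool.Agent.MP_e23604_nt.W

end

section

/-!
Relative norms of torsion points.
-/

set_option autoImplicit false

open Finset Filter Matrix QuadraticAlgebra
open scoped Classical

namespace Pool.Agent.MP_e23604_nt.W

open B R S

theorem RNM_pf (hCYG : CYG_st) (hSURJ : SURJ_st) : RNM_st := by
  intro A _ F b M Q X hb hM h3 hQ hX
  have hbM := mul_ne_zero hb hM
  have hc := (hCYG _ hbM).2.1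
  have h0 : M • b • Q = 0 := by rw [← mul_smul, mul_comm, hQ.zero]
  refine sum_bij (fun y _ => gal y Q - Q) (fun y hy => ?_) (fun y hy y' hy' e => ?_)
    (fun T hT => ?_) fun y _ => by rw [add_sub_cancel]
  · have h1 := hX.1 y hy
    refine mem_filter.2 ⟨(mem_tor hb).2 ?_, ?_⟩
    · rw [smul_sub, ← gal_smul h1.1, h1.2 _ h0, sub_self]
    · rw [add_sub_cancel]
      exact hQ.gal h1.1
  · have h1 := (UM M).mul_mem ((UM M).inv_mem (hX.1 y hy)) (hX.1 y' hy')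
    refine hX.uniq hy hy' ⟨h1.1, fun P hP => ?_⟩
    obtain ⟨u, rfl⟩ := hc Q hQ P hP
    rw [gal_smul h1.1, gal_mul, ← sub_left_injective e, ← gal_mul, inv_mul_cancel, gal_one]
  · obtain ⟨h1, h2⟩ := mem_filter.1 hT
    rw [mem_tor hb] at h1
    obtain ⟨u, hu⟩ := hc Q hQ _ h2.zero
    obtain ⟨v, hv⟩ := hc _ h2 Q hQ.zero
    obtain ⟨c, h4⟩ := (hQ (1 - v * u)).1 (by rw [sub_smul, one_smul, mul_smul, ← hu, ← hv, sub_self])
    have h5 : M ∣ u - 1 := (mul_dvd_mul_iff_left hb).1 ((hQ _).1 (by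
      rw [mul_smul, sub_smul, ← hu, one_smul, add_sub_cancel_left, h1]))
    obtain ⟨g, hg, h6⟩ := hSURJ (b * M) u hbM (h3.trans h5) ⟨v, c, by linear_combination -h4⟩
    obtain ⟨y, ⟨h7, h8⟩, -⟩ := hX.2 g ⟨hg, fun P hP => by
      rw [h6 P (by rw [mul_smul, hP, smul_zero]), smul_congr hP h5, one_smul]⟩
    refine ⟨y, h7, ?_⟩
    have h9 := congrArg (gal y) (h8.2 Q hQ.zero)
    rw [← gal_mul, mul_inv_cancel_left, h6 Q hQ.zero, ← hu] at h9
    rw [← h9, add_sub_cancel_left]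

end Pool.Agent.MP_e23604_nt.W

end

section

/-!
Binomials in characteristic three.
-/

set_option autoImplicit false

open Finset Filter Matrix QuadraticAlgebra
open scoped Classical

namespace Pool.Agent.MP_e23604_nt.W

open B R S

theorem exp_BIN {R : Type} [CommRing R] (t : R) (A : ℕ) :
    ∃ s : R, (1 + t) ^ A - 1 = t * (A + t * s) := by
  induction A with
  | zero => exact ⟨0, by simp⟩
  | succ A ih =>
    obtain ⟨s, hs⟩ := ih
    refine ⟨A + s + t * s, ?_⟩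
    rw [pow_succ, show (1 + t) ^ A = 1 + t * (A + t * s) by rw [← hs]; ring]
    push_cast
    ring

theorem one_BIN {R : Type} [CommRing R] {t : R} {A : ℕ} (h3 : (3 : R) = 0) (ht : IsNilpotent t)
    (hA : ¬ 3 ∣ A) : ∃ u, IsUnit u ∧ (1 + t) ^ A - 1 = t * u := by
  obtain ⟨s, hs⟩ := exp_BIN t A
  refine ⟨_, ?_, hs⟩
  have hu : IsUnit (A : R) := by
    obtain ⟨m, rfl | rfl⟩ : ∃ m, A = 3 * m + 1 ∨ A = 3 * m + 2 := ⟨A / 3, by omega⟩
    · refine IsUnit.of_mul_eq_one 1 ?_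
      push_cast
      linear_combination (m : R) * h3
    · refine IsUnit.of_mul_eq_one (-1) ?_
      push_cast
      linear_combination (-(m : R) - 1) * h3
  exact ((Commute.all t s).isNilpotent_mul_right ht).isUnit_add_left_of_commute hu (Commute.all _ _)

theorem two_BIN {R : Type} [CommRing R] (h3 : (3 : R) = 0) (k : ℕ) : ∀ (t : R) (A : ℕ),
    IsNilpotent t → ¬ 3 ^ (k + 1) ∣ A → (1 + t) ^ A - 1 ∣ t ^ 3 ^ k := by
  have h0 : ∀ (t : R) (A : ℕ), IsNilpotent t → ¬ 3 ∣ A → (1 + t) ^ A - 1 ∣ t := by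
    intro t A ht hA
    obtain ⟨u, hu, h⟩ := one_BIN h3 ht hA
    rw [h]
    exact (hu.mul_right_dvd).2 dvd_rfl
  induction k with
  | zero => intro t A ht hA; simpa using h0 t A ht (by simpa using hA)
  | succ k ih =>
    intro t A ht hA
    by_cases h : 3 ∣ A
    · obtain ⟨B, rfl⟩ := h
      have e : (1 + t) ^ 3 = 1 + t ^ 3 := by linear_combination (t + t ^ 2) * h3
      rw [pow_mul, e, pow_succ' 3 k, pow_mul]
      refine ih _ _ (ht.pow_succ 2) fun hB => hA ?_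
      rw [pow_succ' 3 (k + 1)]
      exact Nat.mul_dvd_mul_left 3 hB
    · exact (h0 t A ht h).trans (dvd_pow_self t (by positivity))

theorem four_BIN {k A : ℕ} (h : 3 ^ k ∣ A) : (4 : ZMod (3 ^ (k + 1))) ^ A = 1 := by
  obtain ⟨B, rfl⟩ := h
  have h1 := pow3_mem (Λ := ℤ) (m := Ideal.span {3}) (Ideal.mem_span_singleton_self _) (x := 4)
    (by norm_num) k
  rw [Ideal.span_singleton_pow, Ideal.mem_span_singleton] at h1
  have h2 := (ZMod.intCast_zmod_eq_zero_iff_dvd _ (3 ^ (k + 1))).2 (by exact_mod_cast h1)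
  push_cast at h2
  rw [pow_mul, sub_eq_zero.1 h2, one_pow]

theorem BIN_pf (hCYL : CYL_st) : BIN_st := by
  refine ⟨fun R _ t A k h3 ht => ⟨one_BIN h3 ht, two_BIN h3 k t A ht⟩, ?_⟩
  intro n k c g hg hk hc h
  have hd : 3 ^ (k + 1) ∣ 3 ^ (n + 1) := pow_dvd_pow 3 (by omega)
  have key : ∀ x ∈ GK, 3 ^ k ∣ (lA n x).val →
      ZMod.castHom hd (ZMod (3 ^ (k + 1))) (cy (3 ^ (n + 1)) x) = 1 := by
    intro x hx hdv
    rw [← ((hCYL n).2.2.2.1 x hx).1, map_pow, map_ofNat, four_BIN hdv]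
  have h1 : ZMod.castHom hd (ZMod (3 ^ (k + 1))) (cy (3 ^ (n + 1)) g) = 1 := by
    rcases h with h | h
    · exact key g hg h
    · have h2 := congrArg (ZMod.castHom hd (ZMod (3 ^ (k + 1))))
        (cy_inv (N := 3 ^ (n + 1)) (by positivity) g)
      rwa [map_mul, key _ (GK.inv_mem hg) h, mul_one, map_one] at h2
  rw [hc, map_natCast, ← Nat.cast_one (R := ZMod (3 ^ (k + 1))), ZMod.natCast_eq_natCast_iff'] at h1
  rw [h1]
  exact Nat.mod_eq_of_lt (Nat.one_lt_pow (by omega) (by norm_num))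

end Pool.Agent.MP_e23604_nt.W

end

section

set_option autoImplicit false

open Finset Filter Matrix QuadraticAlgebra
open scoped Classical

namespace Pool.Agent.MP_e23604_nt.W

open B R S

theorem PCK_pf (hKGEN : KGEN_st) (hPLK : PLK_st) (hFRK : FRK_st) (hTAME : TAME_st)
    (hLOCW : LOCW_st) (hGON : GON_st) (hCHR : CHR_st) : PCK_st := by
  intro Λ _ E χ r a htw had
  obtain ⟨T, t1, -⟩ := ex_primes_LOW hPLK (b := r) (Nat.cast_ne_zero.2 htw.sf.ne_zero)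
  have : Nonempty Plc := ⟨V3⟩
  choose! V hV using fun ϖ (h : ϖ ∈ T) => hPLK.2.1 ϖ ((t1 ϖ).1 h).1.1
  obtain ⟨σ, τ, hm⟩ := ex_tame_LOW hFRK hTAME (V := V) fun ϖ h => ⟨((t1 ϖ).1 h).1, hV ϖ h⟩
  choose x₁ a1 x₂ a2 a3 a4 a5 a6 a7 using hKGEN.1
  obtain ⟨y, y1, y2⟩ := hLOCW
  choose g g1 g2 g3 using fun n => hGON Λ E χ r n a htw had
  have k := fun n b (h : E.m ^ n ≤ b) => y2 Λ E.m b n (n + 1) (rh E χ r n) (lm E χ r n)
    E.three_mem h (h (Ideal.pow_le_pow_right n.le_succ (Ideal.pow_mem_pow E.three_mem _)))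
    ((hCHR Λ E χ r n htw).2.2.2.1.mu (hCHR Λ E χ r n htw).1 h)
    (fun g hg => ((hCHR Λ E χ r n htw).2.2.2.2.2.1 g hg).1)
    fun g hg => h ((hCHR Λ E χ r n htw).2.2.2.2.2.1 g hg).2.2.2.2
  exact ⟨T, inferInstance, ⟨x₁, x₂, fun s => ⟨V s, s, σ s, τ s⟩, y, g⟩, htw, had,
    fun n => ⟨(a1 n).2, (a2 n).2, a5 n, a6 n, a7 n, a3 n, a4 n⟩,
    ⟨fun s => ⟨(hm s s.2).1, (hm s s.2).2.1, (hm s s.2).2.2.1, (hm s s.2).2.2.2.1,
      (hm s s.2).2.2.2.2⟩, Subtype.val_injective,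
      fun ϖ => (t1 ϖ).symm.trans ⟨fun h => ⟨⟨ϖ, h⟩, rfl⟩, fun ⟨s, e⟩ => e ▸ s.2⟩⟩, y1,
    fun n b x h => (k n b h).1 x, fun n b d h => (k n b h).2 d, g1, g2, g3⟩

end Pool.Agent.MP_e23604_nt.W

end

section

/-!
The bottom class of the Euler system is not too divisible.
-/

set_option autoImplicit false

open Finset Filter Matrix QuadraticAlgebra
open scoped Classical

namespace Pool.Agent.MP_e23604_nt.W

open B R S

theorem lm_NT {Λ : Type} [CommRing Λ] (E : Lm Λ) (χ : GQ → ZMod 3) (r n k : ℕ) (g : GQ) :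
    Ideal.Quotient.mk (Ideal.span {E.T} ⊔ E.m ^ k) (lm E χ r n g) =
      lamZ ((Ideal.Quotient.mk _).comp E.ι) χ (ML r n) g := by
  rw [lm, bt, map_mul, map_pow, map_add, Ideal.Quotient.eq_zero_iff_mem.2
    (Ideal.mem_sup_left (Ideal.mem_span_singleton_self _)), add_zero, map_one, one_pow, mul_one]
  rfl

theorem qt_NT {Λ : Type} [CommRing Λ] (E : Lm Λ) (k : ℕ) :
    Qt ((Ideal.Quotient.mk (Ideal.span {E.T} ⊔ E.m ^ k)).comp E.ι) (pw ^ k) := by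
  refine ⟨fun x => ?_, fun x => ⟨fun h => E.inj x k (Ideal.Quotient.eq_zero_iff_mem.1 h), ?_⟩⟩
  · obtain ⟨x, rfl⟩ := Ideal.Quotient.mk_surjective x
    exact (E.sur x k).imp fun c h => (Ideal.Quotient.eq.2 h).symm
  · rintro ⟨c, rfl⟩
    refine Ideal.Quotient.eq_zero_iff_mem.2 (Ideal.mem_sup_right ?_)
    rw [map_mul, map_pow]
    exact Ideal.mul_mem_right _ _ (Ideal.pow_mem_pow (E.m_eq ▸ Ideal.subset_span (by simp)) k)

theorem NT_pf (hLM : LM_st) (hPCK : PCK_st) (hSYS : SYS_st) (hEUL : EUL_st) (hIDZ : IDZ_st)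
    (hLAM : LAM_st) (hHBR : HBR_st) (hTOP : TOP_st) (hAUX : AUX_st) (hCYG : CYG_st) : NT_st := by
  intro χ r a tw hb adm
  obtain ⟨Λ, _, _, _, _, ⟨E⟩⟩ := hLM
  obtain ⟨S, _, C, hC⟩ := hPCK Λ E χ r a tw adm
  have hM := ML_ne tw.sf.ne_zero
  by_contra hn
  push Not at hn
  obtain ⟨k, k1, k2⟩ := diag (G := fun n c => ∃ Q, Gen (ML r n) Q ∧ ∀ u ∈ UM (ML r n),
      zb E χ r a (fun _ => Q) n u ∈ Ideal.span {E.T} ⊔ E.m ^ c)
    (fun n => (hCYG _ (hM n)).1.imp fun Q h => ⟨h, by simp⟩) fun c => by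
      obtain ⟨n₀, h⟩ := hn c 0
      filter_upwards [uf_le (eventually_ge_atTop (max n₀ c))] with n e
      obtain ⟨R, _, φ, j, _, Q, h1, rfl, h2, h3⟩ := h (n + 1) (by omega)
      refine ⟨Q, h2, fun u hu => Ideal.Quotient.eq_zero_iff_mem.1 ?_⟩
      have q := qt_NT E c
      have h4 : pw ^ c ∣ 3 ^ c := pow_dvd_pow_of_dvd pw_dvd3 c
      let ψ := φ.liftOfSurjective h1.sur ⟨_, fun x hx => (q.ker x).2
        (h4.trans ((pow_dvd_pow 3 (by omega)).trans ((h1.ker x).1 hx)))⟩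
      have e1 : ∀ x, ψ (φ x) = _ := φ.liftOfSurjective_comp_apply h1.sur _
      obtain ⟨t, ht⟩ := h3 u hu
      have e2 := zc_map ψ j (UM (ML r n)) (lamZ φ χ (ML r n)) (Th a Q) u
      rw [zb, zL_map (pow_ne_zero _ three_ne_zero) _ (ψ.comp j), funext (lm_NT E χ r n c),
        show lamZ _ χ (ML r n) = fun g => ψ (lamZ φ χ (ML r n) g) from funext fun g => (e1 _).symm,
        ← e2]
      refine (congrArg ψ ht).trans ?_
      rw [map_mul, ← map_ofNat φ 3, ← map_pow, e1]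
      exact mul_eq_zero_of_left ((q.ker _).2 h4) _
  choose Q q1 q2 using fun n => (k2 n).2
  obtain ⟨κ, hκ⟩ := hEUL Λ S E χ r a a C Q hC (.inl rfl) q1
  obtain ⟨κ', hκ'⟩ := hEUL Λ S E χ r a _ C Q hC (.inr rfl) q1
  obtain ⟨l1, d, l2⟩ := hLAM Λ S E χ r a C hC
  obtain ⟨c, hc⟩ := hHBR χ r tw hb
  have hI := fun n => hIDZ Λ S E χ r a C Q n hC (q1 n)
  obtain ⟨u, h1, h2⟩ := hTOP Λ S E _ _ _ κ κ' _ _ d c (hSYS Λ S E χ r a C hC) hκ hκ'
    (fun n => (hI n).1) (fun n => (hI n).2.1) (fun n => (hI n).2.2) (fun n => l1 Q n (q1 n)) l2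
    fun n i x e hx hD u hu => Ideal.Quotient.eq_zero_iff_mem.1 (by
      rw [map_mul, map_pow, map_ofNat]
      exact hc _ _ i _ (fun g => Ideal.Quotient.mk _ (x g)) (qt_NT E i) (hM n) (dvd_mul_left _ _)
        ((pow_dvd_pow 3 (by omega)).mul_right _) (funext (lm_NT E χ r n i) ▸ hx.1)
        ((RmI_unr (hAUX S χ r n a C.p tw adm hC.pr).1).1 fun g hg =>
          Ideal.Quotient.eq_zero_iff_mem.2 (hx.2 g hg))
        (fun g hg => Ideal.Quotient.eq_zero_iff_mem.2 (hD g hg)) u hu)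
  exact h2 (Ideal.mem_span_singleton.1 (E.mem_of k1 fun n => q2 n _ (h1 n)))

end Pool.Agent.MP_e23604_nt.W

end
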