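import Pool.Agent.Mg.Fe23604m.G19f17f
import Pool.Agent.Mg.Fe23604m.G8362cd
import Pool.Agent.Mg.Fe23604m.Gdcbf1f
import Pool.Agent.Mg.Fe23604m.G300596

set_option linter.all false

section

/-!
Statements of the steps of the explicit reciprocity law and of its two applications.
-/

set_option autoImplicit false

open Finset QuadraticAlgebra
open scoped Classical

namespace Pool.Agent.MP_e23604_nt.W

open B R S

/-- the coordinate of a torsion point, read in `R` -/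
noncomputable def ic {R : Type} [CommRing R] (φ : Zw →+* R) (G T : Pt) : R := φ (co G T)

/-- the boundary of a point -/
noncomputable def bd (χ : GQ → ZMod 3) (P : Pt) (g : GQ) : Pt := eta χ g P - P

/-- points fixed by the twisted action -/
def Fx (χ : GQ → ZMod 3) (H : Subgroup GQ) (P : Pt) : Prop := ∀ g ∈ H, eta χ g P = P

/-- the action on a point of higher level -/
noncomputable def Ah {R : Type} [CommRing R] (φ : Zw →+* R) (M : Zw) (Q' : Pt) (u : GQ) : R :=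
  ic φ (M • Q') (gal u Q' - Q')

/-- the product of the theta function over a translated orbit -/
noncomputable def Gth (χ : GQ → ZMod 3) (a M : Zw) (Q P : Pt) : Qb :=
  ∏ y ∈ Xs (UM M) GK, Th a (eta χ y Q + P)

/-- the local target -/
noncomputable def eP (χ : GQ → ZMod 3) (a : Zw) (Q P : Pt) (y : GQ) : Qb :=
  Th a (eta χ y Q + P) / Th a (eta χ y Q - P)

/-- the global data -/
structure XD {R : Type} [CommRing R] (χ : GQ → ZMod 3) (r p n m : ℕ) (a M b : Zw) (Q' : Pt)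
    (φ : Zw →+* R) : Prop where
  tw : Tw χ r
  pp : p.Prime
  n2 : 2 ≤ n
  nm : n ≤ m
  hM : M = (p : Zw) ^ m * (9 * r)
  cop : IsCoprime a (6 * M)
  gen : Gen ((p : Zw) ^ n * M) Q'
  qt : Qt φ b
  bp : b ∣ (p : Zw) ^ n

/-- a deep fixed point in the kernel of reduction -/
structure LP (χ : GQ → ZMod 3) (p n : ℕ) (V : Plc) (P : Pt) : Prop where
  ov : Ov V p
  e1 : E1 V.v P
  fx : Fx χ V.D P
  sm : V.v (zz P) ^ 2 < V.v p ^ (n + 2) * V.v 81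

/-- the local data -/
structure RD {R : Type} [CommRing R] (χ : GQ → ZMod 3) (p n : ℕ) (j : ZMod (p ^ n) →+* R)
    (φ : Zw →+* R) (a M : Zw) (Q' : Pt) (V : Plc) (ϖ : Zw) (P' : Pt) (y : GQ → R) (s : R) :
    Prop where
  pr : Prime ϖ
  dv : ϖ ∣ p
  ov : Ov V ϖ
  lp : LP χ p n V ((p : Zw) ^ n • P')
  co : Co (lamZ φ χ M) GK y
  loc : Bo2 (cj j) V.D (cup (lamZ φ χ M) (zc j (UM M) (lamZ φ χ M) (Th a ((p : Zw) ^ n • Q')))
    fun g => y g - s * ic φ (M • Q') (bd χ P' g))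
  str : ∀ W : Plc, Ov W M → ¬ Ov W ϖ → Bo (lamZ φ χ M) W.D y

/-- the data at three -/
structure D3 {R : Type} [CommRing R] (r n : ℕ) (M : Zw) (G : Pt) (φ : Zw →+* R) : Prop where
  pos : 1 ≤ n
  ne : M ≠ 0
  dr : (9 * r : Zw) ∣ M
  dn : (3 : Zw) ^ n ∣ M
  gen : Gen (3 ^ n) G
  qt : Qt φ (3 ^ n)

/-- the facts that are used from the other parts -/
structure H5 : Prop where
  CARD : CARD_st
  QUO : QUO_st
  CYG : CYG_st
  PI : PI_st
  PS : PS_st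
  THI : THI_st
  NRM1 : NRM1_st
  UNIT : UNIT_st
  CLO : CLO_st
  CONG : CONG_st
  TAY : TAY_st
  FML : FML_st
  DIV : DIV_st
  FRB : FRB_st
  INE : INE_st
  SURJ : SURJ_st
  CYC1 : CYC1_st
  ORB : ORB_st
  DIST : DIST_st
  KM : KM_st
  PLK : PLK_st
  FRK : FRK_st
  CHB : CHB_st
  TAME : TAME_st
  TPR : TPR_st
  CNJ : CNJ_st
  LIN : LIN_st
  CUP : CUP_st
  UNB : UNB_st
  GRP : GRP_st
  RCP : RCP_st
  LOC3 : LOC3_st
  POW : POW_st
  APXF : APXF_st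
  ZC : ZC_st
  LZ : LZ_st
  LOW : LOW_st
  GEN : GEN_st

/-! ### Elementary consequences of the data -/

section basic

variable {R : Type} [CommRing R] {χ : GQ → ZMod 3} {r p n m : ℕ} {a M b : Zw} {Q' : Pt}
  {φ : Zw →+* R}

theorem Tw.r0 (h : Tw χ r) : r ≠ 0 := h.sf.ne_zero

theorem Tw.ne (h : Tw χ r) : (9 * r : Zw) ≠ 0 :=
  mul_ne_zero (by decide) (Nat.cast_ne_zero.2 h.r0)

theorem XD.p0 (h : XD χ r p n m a M b Q' φ) : (p : Zw) ≠ 0 := Nat.cast_ne_zero.2 h.pp.ne_zero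

theorem XD.ne (h : XD χ r p n m a M b Q' φ) : M ≠ 0 :=
  h.hM ▸ mul_ne_zero (pow_ne_zero _ h.p0) h.tw.ne

theorem XD.dr (h : XD χ r p n m a M b Q' φ) : (9 * r : Zw) ∣ M := h.hM ▸ dvd_mul_left _ _

theorem XD.dn (h : XD χ r p n m a M b Q' φ) : (p : Zw) ^ n ∣ M :=
  h.hM ▸ (pow_dvd_pow _ h.nm).mul_right _

theorem XD.dN (h : XD χ r p n m a M b Q' φ) : ((p ^ n : ℕ) : Zw) ∣ M := by simpa using h.dn

theorem XD.dp (h : XD χ r p n m a M b Q' φ) : (p : Zw) ∣ M :=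
  (dvd_pow_self _ (by have := h.n2; omega)).trans h.dn

theorem XD.nine (h : XD χ r p n m a M b Q' φ) : 9 ∣ M := (dvd_mul_right _ _).trans h.dr

theorem XD.three (h : XD χ r p n m a M b Q' φ) : 3 ∣ M := dvd_trans ⟨3, by norm_num⟩ h.nine

theorem XD.star (h : XD χ r p n m a M b Q' φ) : star M = M := by
  rw [h.hM, star_mul', star_mul', star_pow, star_natCast, star_natCast, star_ofNat]

theorem XD.genQ (h : XD χ r p n m a M b Q' φ) : Gen M ((p : Zw) ^ n • Q') :=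
  h.gen.smul (pow_ne_zero _ h.p0)

theorem XD.genG (h : XD χ r p n m a M b Q' φ) : Gen ((p : Zw) ^ n) (M • Q') :=
  Gen.smul (by rw [mul_comm]; exact h.gen) h.ne

theorem XD.gen0 (h : XD χ r p n m a M b Q' φ) :
    Gen (9 * r) ((p : Zw) ^ m • (p : Zw) ^ n • Q') :=
  Gen.smul (h.hM ▸ h.genQ) (pow_ne_zero _ h.p0)

theorem XD.φn (h : XD χ r p n m a M b Q' φ) : φ ((p : Zw) ^ n) = 0 := (h.qt.ker _).2 h.bp

theorem XD.φM (h : XD χ r p n m a M b Q' φ) : φ M = 0 := (h.qt.ker _).2 (h.bp.trans h.dn)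

theorem XD.pn (h : XD χ r p n m a M b Q' φ) : (p : R) ^ n = 0 := by simpa using h.φn

theorem XD.ex_j (h : XD χ r p n m a M b Q' φ) : Nonempty (ZMod (p ^ n) →+* R) :=
  W.ex_j (by simpa using h.φn)

theorem XD.a6 (h : XD χ r p n m a M b Q' φ) : IsCoprime a 6 := h.cop.of_mul_right_left

theorem XD.aM (h : XD χ r p n m a M b Q' φ) : IsCoprime a M := h.cop.of_mul_right_right

theorem XD.a0 (h : XD χ r p n m a M b Q' φ) : a ≠ 0 := cop6_ne h.a6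

theorem XD.chr (h : XD χ r p n m a M b Q' φ) (hl : LZ_st) (j : ZMod (p ^ n) →+* R) :
    Chr j (UM M) (lamZ φ χ M) := (((hl χ r M h.tw h.ne h.dr).2.2 R φ h.φM).1 _ j h.dN).1

theorem XD.es (h : XD χ r p n m a M b Q' φ) (hl : LZ_st) (j : ZMod (p ^ n) →+* R) :
    ES p n j M a ((p : Zw) ^ n • Q') (lamZ φ χ M) :=
  ⟨h.pp, by have := h.n2; omega, h.chr hl j, h.cop, h.ne, h.dn, h.nine, h.genQ⟩

theorem Gen.gd {Q : Pt} (h : Gen M Q) (hc : CYG_st) (h0 : M ≠ 0) (h3 : 3 ∣ M) : Gd Q := by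
  obtain ⟨u, e⟩ := (hc M h0).2.1 Q h T0 (dvd_smul three_T0 h3)
  exact ⟨u, e.symm⟩

theorem XD.gd (h : XD χ r p n m a M b Q' φ) (hc : CYG_st) : Gd ((p : Zw) ^ n • Q') :=
  h.genQ.gd hc h.ne h.three

theorem XD.th (h : XD χ r p n m a M b Q' φ) (hc : CYG_st) (ht : THI_st) :
    Th a ((p : Zw) ^ n • Q') ≠ 0 ∧ Fix (UM M) (Th a ((p : Zw) ^ n • Q')) :=
  ⟨(ht a h.a0).2.2.2 h.a6 _ ((h.gd hc).smul (cop6.1 h.a6).2).ne, fun g hg => by
    rw [← ((ht a h.a0).2.1 g hg.1 _).1, hg.2 _ h.genQ.zero]⟩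

theorem Fx.smul {H : Subgroup GQ} {P : Pt} (h : Fx χ H P) (hH : H ≤ GK) (c : Zw) :
    Fx χ H (c • P) := fun g hg => by rw [eta_smul χ (hH hg), h g hg]

theorem Fx.sub {H : Subgroup GQ} {P P' : Pt} (h : Fx χ H P) (h' : Fx χ H P') :
    Fx χ H (P - P') := fun g hg => by rw [map_sub, h g hg, h' g hg]

theorem bd_smul {g : GQ} (hg : g ∈ GK) (c : Zw) (P : Pt) : bd χ (c • P) g = c • bd χ P g := by
  rw [bd, bd, eta_smul χ hg, smul_sub]

theorem bd_add (g : GQ) (P P' : Pt) : bd χ (P + P') g = bd χ P g + bd χ P' g := by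
  rw [bd, bd, bd, map_add, add_sub_add_comm]

theorem bd_sub (g : GQ) (P P' : Pt) : bd χ (P - P') g = bd χ P g - bd χ P' g := by
  rw [bd, bd, bd, map_sub, sub_sub_sub_comm]

theorem zz_eta (g : GQ) (P : Pt) : zz (eta χ g P) = w3 ^ (χ g).val * g (zz P) := by
  rw [eta_apply, ← zz_gal]
  induction (χ g).val with
  | zero => simp
  | succ i ih => rw [pow_succ', mul_smul, zz_w, ih, pow_succ', mul_assoc]

theorem E1_eta {V : Plc} {g : GQ} (hg : g ∈ V.D) {P : Pt} (h : E1 V.v P) :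
    E1 V.v (eta χ g P) ∧ V.v (zz (eta χ g P)) = V.v (zz P) :=
  ⟨(E1m ((E1_dec hg.1).2 h) _).1, by rw [zz_eta, map_mul, map_pow, v_w3, one_pow, one_mul, hg.1]⟩

end basic

/-! ### Coordinates -/

/-- coordinates of torsion points -/
def COI_st : Prop := ∀ (R : Type) [CommRing R] (φ : Zw →+* R) (N : Zw) (G : Pt), N ≠ 0 →
  Gen N G → φ N = 0 → (∀ c : Zw, ic φ G (c • G) = φ c) ∧
  (∀ T : Pt, N • T = 0 → T = co G T • G ∧ (∀ c : Zw, ic φ G (c • T) = φ c * ic φ G T) ∧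
    (Qt φ N → ic φ G T = 0 → T = 0) ∧ ∀ T' : Pt, N • T' = 0 →
      ic φ G (T + T') = ic φ G T + ic φ G T' ∧ ic φ G (T - T') = ic φ G T - ic φ G T') ∧
  ∀ (χ : GQ → ZMod 3) (r : ℕ) (M : Zw), Tw χ r → M ≠ 0 → (9 * r : Zw) ∣ M → N ∣ M →
    (∀ g ∈ GK, ∀ T : Pt, N • T = 0 → ic φ G (eta χ g T) = lamZ φ χ M g * ic φ G T ∧
      ic φ G (bd χ T g) = (lamZ φ χ M g - 1) * ic φ G T) ∧
    ∀ H : Subgroup GQ, H ≤ GK →
      (∀ x, Cz χ H x → (∀ g ∈ H, N • x g = 0) → Co (lamZ φ χ M) H fun g => ic φ G (x g)) ∧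
      (∀ P : Pt, Fx χ H (N • P) → (∀ g ∈ H, N • bd χ P g = 0) ∧
        Co (lamZ φ χ M) H fun g => ic φ G (bd χ P g)) ∧
      ∀ y, Qt φ N → Co (lamZ φ χ M) H y →
        ∃ x, Cz χ H x ∧ ∀ g, N • x g = 0 ∧ ic φ G (x g) = y g

/-- the values of the character of the twisted action -/
def COJ_st : Prop := ∀ (χ : GQ → ZMod 3) (r : ℕ) (M : Zw), Tw χ r → M ≠ 0 → (9 * r : Zw) ∣ M →
  (∀ g ∈ GK, pw ∣ ω ^ (χ g).val * ps M g - 1) ∧
  (∀ u : Zw, (9 * r : Zw) ∣ u - 1 → IsCoprime u M → ∃ g ∈ GK, M ∣ ω ^ (χ g).val * ps M g - u ∧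
    ∀ P : Pt, M • P = 0 → eta χ g P = u • P) ∧
  ∀ (R : Type) [CommRing R] (φ : Zw →+* R) (N : ℕ) (j : ZMod N →+* R), φ M = 0 → (N : Zw) ∣ M →
    ∀ g ∈ GK, rho j (lamZ φ χ M) g = φ (star (ω ^ (χ g).val * ps M g))

/-- the action on a point of higher level is additive -/
def AHM_st : Prop := ∀ (R : Type) [CommRing R] (φ : Zw →+* R) (N M : Zw) (Q' : Pt), N ≠ 0 →
  M ≠ 0 → N ∣ M → Gen (N * M) Q' → φ N = 0 →
  Adt (UM M) (Ah φ M Q') ∧ Lc (UM M) (Ah φ M Q') ∧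
  (∀ g ∈ GK, ∀ u ∈ UM M, Ah φ M Q' (g⁻¹ * u * g) = Ah φ M Q' u) ∧
  (∀ u ∈ UM (N * M), Ah φ M Q' u = 0) ∧
  (∀ (u : GQ) (ν : Zw), gal u Q' = (1 + M * ν) • Q' → Ah φ M Q' u = φ ν) ∧
  ∀ (χ : GQ → ZMod 3), ∀ y ∈ GK, ∀ u ∈ UM M, N • (gal u (eta χ y Q') - eta χ y Q') = 0 ∧
    ic φ (M • Q') (gal u (eta χ y Q') - eta χ y Q') = lamZ φ χ M y * Ah φ M Q' u

/-! ### Local points -/

/-- the size of multiples -/
def ZEQ_st : Prop := ∀ (V : Plc) (ϖ : Zw) (P : Pt), Prime ϖ → Ov V ϖ → E1 V.v P →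
  (V.v (zz P) ^ 3 < V.v (io ϖ) → ∀ s : Zw, V.v (zz (s • P)) = V.v (io s) * V.v (zz P)) ∧
  (V.v (zz P) ^ 3 ≤ V.v (io ϖ) → ∀ s : Zw, V.v (zz (s • P)) ≤ V.v (io s) * V.v (zz P)) ∧
  ∀ χ : GQ → ZMod 3, Fx χ V.D P → V.v (zz P) ^ 3 ≤ V.v (io ϖ)

/-- division of fixed points -/
def DVF_st : Prop := ∀ (χ : GQ → ZMod 3) (V : Plc) (b : Zw) (n : ℕ) (s : ℝ) (R : Pt), b ≠ 0 →
  E1 V.v R → Fx χ V.D R → V.v (zz R) ≤ V.v (io b) ^ n * s → s ^ 3 < V.v (io b) →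
  ∃ R' : Pt, E1 V.v R' ∧ Fx χ V.D R' ∧ b ^ n • R' = R ∧ V.v (zz R') ≤ s

/-- fixed points with a given parameter -/
def FXP_st : Prop := ∀ χ : GQ → ZMod 3, Adt GK χ → Lc GK χ → ∃ δ : Qb, δ ≠ 0 ∧
  ∀ (V : Plc) (b : Zw), V.v (io b * δ) < 1 → ∃ P : Pt, E1 V.v P ∧ Fx χ V.D P ∧ zz P = io b * δ

/-- bounds for the absolute values of an algebraic number -/
def ALG_st : Prop := ∀ x : Qb, x ≠ 0 → ∃ B : ℕ, B ≠ 0 ∧
  ∀ V : Plc, V.v B ≤ V.v x ∧ V.v x * V.v B ≤ 1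

/-- the kernel of reduction has finite index at three -/
def PIG_st : Prop := ∃ N : Zw, N ≠ 0 ∧ ∀ (χ : GQ → ZMod 3) (V : Plc) (P : Pt), Adt GK χ →
  Ov V 3 → Fx χ V.D P → E1 V.v (N • P)

/-- the prime factors of a rational prime are not anomalous -/
def PFA_st : Prop := ∀ p : ℕ, p.Prime → p ≠ 3 → ∃ (s : Finset Zw) (u : Zw), IsUnit u ∧
  (p : Zw) = u * ∏ ϖ ∈ s, ϖ ∧ (∀ ϖ ∈ s, PP ϖ ∧ ∀ ϖ' ∈ s, ∀ i : ℕ, ¬ ϖ ∣ ϖ' - ω ^ i) ∧
  ∀ ϖ : Zw, Prime ϖ → ϖ ∣ p → ∃ c, (p : Zw) = ϖ * c ∧ IsCoprime ϖ c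

/-- multiples in the kernel of reduction -/
def MUL_st : Prop :=
  (∀ r : ℕ, r ≠ 0 → ∃ N : Zw, N ≠ 0 ∧ ∀ (χ : GQ → ZMod 3) (V : Plc) (P : Pt), Adt GK χ →
    Ov V (3 * r) → Fx χ V.D P → E1 V.v (N • P)) ∧
  ∀ p : ℕ, p.Prime → p ≠ 3 → ∃ N : Zw, IsCoprime N p ∧ ∀ (χ : GQ → ZMod 3) (V : Plc) (P : Pt),
    Adt GK χ → Ov V p → Fx χ V.D P → E1 V.v (N • P)

/-! ### The norm of the local targets -/

/-- the distribution relations -/
def NRS_st : Prop := ∀ (χ : GQ → ZMod 3) (r : ℕ) (a b m : Zw) (Q : Pt), Tw χ r → b ≠ 0 → m ≠ 0 →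
  (9 * r : Zw) ∣ m → IsCoprime a (6 * b) → Gen (b * m) Q →
  (∀ k : ℕ, b ∣ m ^ k → ∀ (V : Plc) (P : Pt), E1 V.v P →
    Gth χ a (b * m) Q P = Gth χ a m (b • Q) (b • P)) ∧
  (PP b → ¬ b ∣ m → ∃ i : ℕ, ∀ (V : Plc) (P : Pt), E1 V.v P →
    Gth χ a (b * m) Q P * Gth χ a m (b • Q) ((ω : Zw) ^ i • P) = Gth χ a m (b • Q) (b • P))

/-- the estimate -/
def NRE_st : Prop := ∀ (χ : GQ → ZMod 3) (r p n m : ℕ) (a M : Zw) (Q P : Pt) (V : Plc), Tw χ r →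
  p.Prime → 2 ≤ m → M = (p : Zw) ^ m * (9 * r) → IsCoprime a (6 * M) → Gen M Q → LP χ p n V P →
  ∃ c : Qb, V.v (io M) ≤ V.v c * V.v p ∧
    V.v (∏ y ∈ Xs (UM M) GK, eP χ a Q P y - 1 -
      2 * c * zz P * tr χ a (9 * r) ((p : Zw) ^ m • Q)) ≤ V.v (io M) * V.v p ^ n

/-- the change of the generator -/
def TRU_st : Prop := ∀ (χ : GQ → ZMod 3) (r : ℕ) (a : Zw) (Q Q₁ : Pt), Tw χ r → a ≠ 0 →
  Gen (9 * r) Q → Gen (9 * r) Q₁ → ∃ u : Zw, IsUnit u ∧ tr χ a (9 * r) Q₁ = io u * tr χ a (9 * r) Q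

/-! ### The reciprocity law -/

/-- the transfer of a cup product -/
def TFR_st : Prop := ∀ (R : Type) [CommRing R] (N : ℕ) (j : ZMod N →+* R) (U : Subgroup GQ)
  (lam A : GQ → R) (α : Qb), Chr j U lam → Adt U A → Lc U A →
  (∀ g ∈ GK, ∀ u ∈ U, A (g⁻¹ * u * g) = A u) → α ≠ 0 → Fix U α →
  ∃ f : GQ → GQ → R, Co2 (cj j) GK f ∧
    (∀ (H : Subgroup GQ) (θ : Qb) (κ : GQ → R), H ≤ GK → θ ≠ 0 → Fix U θ → Co lam H κ →
      (∀ y ∈ GK, Bo2 (cj j) (H ⊓ U) fun g h =>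
        j (km N g (y α)) * A h + lam y⁻¹ * j (km N g (y θ)) * κ h) →
      Bo2 (cj j) H fun g h => f g h + cup lam (zc j U lam θ) κ g h) ∧
    (∀ H : Subgroup GQ, H ≤ GK → (∀ y ∈ GK, ∀ g ∈ H ⊓ U, km N g (y α) = 0) → Bo2 (cj j) H f) ∧
    (∀ g ∈ U, ∀ h ∈ U, f g h = j (km N g (∏ y ∈ Xs U GK, y α)) * A h) ∧
    ∀ W : Plc, W.v N = 1 → W.I ≤ U → (∀ τ ∈ W.I, A τ = 0) → (∀ y ∈ GK, W.v (y α) = 1) →
      Un2 W.D W.I f

/-- universal norms pair trivially -/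
def NMZ_st : Prop := ∀ (R : Type) [CommRing R] (N : ℕ) (j : ZMod N →+* R) (φ : Zw →+* R)
  (H : Subgroup GQ) (a : Zw) (G Y : Pt), N ≠ 0 → Gen N G → IsCoprime a (6 * N) → H ≤ UM N →
  (∀ g ∈ H, cy N g = 1) → (2 * N : Zw) • Y ≠ 0 → a • (N : Zw) • Y ≠ 0 →
  (∀ g ∈ H, gal g ((N : Zw) • Y) = (N : Zw) • Y) →
  Bo2 (cj j) H fun g h => j (km N g (Th a ((N : Zw) • Y))) * ic φ G (gal h Y - Y)

/-- the local computation over `p` -/
def LCP_st : Prop := ∀ (R : Type) [CommRing R] (χ : GQ → ZMod 3) (r p n m : ℕ) (a M b : Zw)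
  (Q' P' : Pt) (φ : Zw →+* R) (j : ZMod (p ^ n) →+* R) (V : Plc), XD χ r p n m a M b Q' φ →
  LP χ p n V ((p : Zw) ^ n • P') → ∀ y ∈ GK,
  V.v (eP χ a ((p : Zw) ^ n • Q') ((p : Zw) ^ n • P') y - 1) < V.v p ^ 2 ∧
  (∀ h ∈ V.D, eP χ a ((p : Zw) ^ n • Q') ((p : Zw) ^ n • P') (h * y) =
    h (eP χ a ((p : Zw) ^ n • Q') ((p : Zw) ^ n • P') y)) ∧
  (∀ u ∈ UM M, eP χ a ((p : Zw) ^ n • Q') ((p : Zw) ^ n • P') (y * u) =
    eP χ a ((p : Zw) ^ n • Q') ((p : Zw) ^ n • P') y) ∧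
  ∀ β : Qb, Fix (V.D ⊓ UM M) β →
    V.v (β - eP χ a ((p : Zw) ^ n • Q') ((p : Zw) ^ n • P') y) < V.v p ^ (n + 1) →
    Bo2 (cj j) (V.D ⊓ UM M) fun g h => j (km (p ^ n) g β) * Ah φ M Q' h +
      lamZ φ χ M y⁻¹ * j (km (p ^ n) g (y (Th a ((p : Zw) ^ n • Q')))) *
        (2 * ic φ (M • Q') (bd χ P' h))

/-- the invariants at the prime factors of a norm -/
def NFA_st : Prop := ∀ (R : Type) [CommRing R] (p n : ℕ) (j : ZMod (p ^ n) →+* R) (φ : Zw →+* R)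
  (M c : Zw) (Q' : Pt), p.Prime → 1 ≤ n → M ≠ 0 → 3 ∣ M → (p : Zw) ^ n ∣ M →
  (∀ g ∈ UM M, cy (p ^ n) g = 1) → Gen ((p : Zw) ^ n * M) Q' → Pry c →
  (∀ W : Plc, Ov W c → Dec W.v ≤ UM M ∧ ¬ Ov W M) →
  ∃ (ν : Zw) (S : Finset Zw) (W : Zw → Plc) (σ τ : Zw → GQ), c = 1 + M * ν ∧
    (∀ q ∈ S, Sp (p ^ n) (W q) q (σ q) ∧ q ∣ c ∧ τ q ∈ (W q).I ∧ km (p ^ n) (τ q) (W q).l = 1) ∧
    (∀ V : Plc, Ov V c → ∃ q ∈ S, Ov V q) ∧
    ∑ q ∈ S, (j (km (p ^ n) (τ q) (io c)) * Ah φ M Q' (σ q) -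
      j (km (p ^ n) (σ q) (io c)) * Ah φ M Q' (τ q)) = φ ν

/-- the explicit reciprocity law -/
def EXR_st : Prop := ∀ (R : Type) [CommRing R] (χ : GQ → ZMod 3) (r p n m : ℕ) (a M b ϖ : Zw)
  (Q' P' : Pt) (φ : Zw →+* R) (j : ZMod (p ^ n) →+* R) (V : Plc) (y : GQ → R) (s : R)
  (T : Finset Zw) (W : Zw → Plc) (σ τ : Zw → GQ) (ε : ℝ), XD χ r p n m a M b Q' φ →
  RD χ p n j φ a M Q' V ϖ P' y s → Unr (M * ∏ q ∈ T, q) y →
  (∀ q ∈ T, Sp (p ^ n) (W q) q (σ q) ∧ (W q).D ≤ UM M ∧ ¬ Ov (W q) M ∧ τ q ∈ (W q).I ∧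
    km (p ^ n) (τ q) (W q).l = 1) → 0 < ε →
  ∃ ν : Zw, V.v (io (1 + M * ν) -
      ∏ x ∈ Xs (UM M) GK, eP χ a ((p : Zw) ^ n • Q') ((p : Zw) ^ n • P') x) < ε ∧
    4 * (s * φ ν) =
      8 * ∑ q ∈ T, zc j (UM M) (lamZ φ χ M) (Th a ((p : Zw) ^ n • Q')) (σ q) * y (τ q)

/-- the first consequence -/
def EXA_st : Prop := ∀ (R : Type) [CommRing R] (χ : GQ → ZMod 3) (r p n m : ℕ) (a M b ϖ s : Zw)
  (Q' P' : Pt) (φ : Zw →+* R) (j : ZMod (p ^ n) →+* R) (V : Plc) (y : GQ → R),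
  XD χ r p n m a M b Q' φ → RD χ p n j φ a M Q' V ϖ P' y (φ s) → Unr M y →
  V.v (8 * io s * zz ((p : Zw) ^ n • P') * tr χ a (9 * r) ((p : Zw) ^ m • (p : Zw) ^ n • Q')) ≤
    V.v (io b) * V.v p

/-- the second consequence -/
def EXB_st : Prop := ∀ (R : Type) [CommRing R] (χ : GQ → ZMod 3) (r n m : ℕ) (a M q : Zw)
  (Q' P' : Pt) (φ : Zw →+* R) (j : ZMod (3 ^ n) →+* R) (W : Plc) (σ τ : GQ) (y : GQ → R) (s : R),
  XD χ r 3 n m a M (3 ^ n) Q' φ → RD χ 3 n j φ a M Q' V3 pw P' y s → Unr (M * q) y →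
  Sp (3 ^ n) W q σ → W.D ≤ UM M → ¬ Ov W M → τ ∈ W.I → km (3 ^ n) τ W.l = 1 →
  tr χ a (9 * r) (((3 : ℕ) : Zw) ^ m • ((3 : ℕ) : Zw) ^ n • Q') = 0 →
  8 * (zc j (UM M) (lamZ φ χ M) (Th a (((3 : ℕ) : Zw) ^ n • Q')) σ * y τ) = 0

/-! ### Local conditions -/

/-- local triviality away from the modulus -/
def STR_st : Prop := ∀ (R : Type) [CommRing R] (φ : Zw →+* R) (χ : GQ → ZMod 3) (r : ℕ)
  (M b c N : Zw) (G : Pt) (V : Plc) (x : GQ → Pt), Tw χ r → M ≠ 0 → (9 * r : Zw) ∣ M →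
  b * c ∣ M → IsCoprime b c → Gen (b * c) G → φ b = 0 → ¬ Ov V b → Bz χ V.D x →
  (∀ g ∈ V.D, (b * c) • x g = 0) → (∀ P : Pt, Fx χ V.D P → E1 V.v (N • P)) →
  Bo (lamZ φ χ M) V.D fun g => φ N * ic φ G (x g)

/-- locally trivial classes are unramified, and conjugate places give the same condition -/
def BZC_st : Prop := ∀ (χ : GQ → ZMod 3) (x : GQ → Pt), Adt GK χ →
  (∀ (b N : Zw) (V : Plc), Unr b χ → ¬ Ov V (3 * b * N) → Bz χ V.D x → (∀ g ∈ V.D, N • x g = 0) →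
    ∀ τ ∈ V.I, x τ = 0) ∧
  ∀ (V V' : Plc) (ϖ : Zw), Cz χ GK x → Prime ϖ → Ov V ϖ → Ov V' ϖ → Bz χ V.D x → Bz χ V'.D x

/-- the places where the twist is ramified -/
def RST_st : Prop := ∀ (R : Type) [CommRing R] (φ : Zw →+* R) (χ : GQ → ZMod 3) (r n : ℕ)
  (M : Zw) (V : Plc) (y : GQ → R), Tw χ r → 1 ≤ n → M ≠ 0 → (9 * r : Zw) ∣ M → (3 : Zw) ^ n ∣ M →
  (3 : R) ^ n = 0 → Ov V r → Co (lamZ φ χ M) V.D y → Bo (lamZ φ χ M) V.D fun g => 3 * y g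

/-! ### The trace does not vanish -/

/-- the decomposition group at three moves the torsion points -/
def DPI_st : Prop := ∀ (χ : GQ → ZMod 3) (r : ℕ), Tw χ r → ∃ c : ℕ, ∀ M : Zw, M ≠ 0 →
  (9 * r : Zw) ∣ M → (3 : Zw) ^ c ∣ M → ∃ h ∈ V3.D, ¬ (3 : Zw) ^ c ∣ ω ^ (χ h).val * ps M h - 1

/-- the size of the local condition -/
def LOCI_st : Prop := ∀ (χ : GQ → ZMod 3) (r : ℕ) (P : Pt), Tw χ r → E1 V3.v P → P ≠ 0 →
  V3.v (zz P) ^ 3 < V3.v (io pw) → Fx χ V3.D P → ∃ C n₀ : ℕ, ∀ (R : Type) [CommRing R] (n : ℕ)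
    (M : Zw) (G P' : Pt) (φ : Zw →+* R), n₀ ≤ n → D3 r n M G φ → (3 : Zw) ^ n • P' = P →
    Nat.card R ^ 2 ≤ C * (rs V3.D fun y : GQ → R => ∃ s w : R, ∀ g ∈ V3.D,
      y g = s * ic φ G (bd χ P' g) + (lamZ φ χ M g - 1) * w).ncard

/-- the number of classes without new ramification -/
def KER_st : Prop := ∀ (χ : GQ → ZMod 3) (r : ℕ), Tw χ r → HB χ r → ∃ C : ℕ,
  ∀ (R : Type) [CommRing R] (n : ℕ) (M : Zw) (G : Pt) (φ : Zw →+* R), D3 r n M G φ →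
    (rs GK fun y : GQ → R => Co (lamZ φ χ M) GK y ∧ Unr (3 * r) y ∧ ∃ P : Pt,
      Fx χ V3.D ((3 : Zw) ^ n • P) ∧ ∀ g ∈ V3.D, y g = ic φ G (bd χ P g)).encard ≤
      ((C * Nat.card R : ℕ) : ℕ∞)

/-- a class with large ramification -/
def CNT_st : Prop := ∀ (χ : GQ → ZMod 3) (r : ℕ) (P : Pt), Tw χ r → HB χ r → E1 V3.v P → P ≠ 0 →
  V3.v (zz P) ^ 3 < V3.v (io pw) → Fx χ V3.D P → ∃ c n₀ : ℕ, ∀ (R : Type) [CommRing R] (n : ℕ)
    (M q : Zw) (G P' : Pt) (φ : Zw →+* R) (W : Plc) (τ : GQ), n₀ ≤ n → D3 r n M G φ →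
    (3 : Zw) ^ n • P' = P → PP q → Ov W q → W.D ≤ UM M → ¬ Ov W M → τ ∈ W.I →
    km (3 ^ n) τ W.l = 1 → ∃ (y : GQ → R) (s w : R), Co (lamZ φ χ M) GK y ∧ Unr (3 * (r * q)) y ∧
      (∀ g ∈ V3.D, y g = s * ic φ G (bd χ P' g) + (lamZ φ χ M g - 1) * w) ∧ ¬ φ pw ^ c ∣ y τ

/-- the trace does not vanish -/
def NZ_st : Prop := ∀ (χ : GQ → ZMod 3) (r : ℕ) (a : Zw) (Q : Pt), Tw χ r → HB χ r → Adm r a →
  Gen (9 * r) Q → tr χ a (9 * r) Q ≠ 0

/-! ### The primes other than three -/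

/-- a multiple of a Selmer class is strict -/
def STP_st : Prop := ∀ (R : Type) [CommRing R] (χ : GQ → ZMod 3) (r p n k e : ℕ) (a M ϖ N : Zw)
  (Q' : Pt) (φ : Zw →+* R) (V : Plc) (x : GQ → Pt), XD χ r p n n a M (ϖ ^ n) Q' φ → p ≠ 3 →
  Prime ϖ → Ov V ϖ → 2 * k + 2 ≤ n →
  (∀ (W : Plc) (P : Pt), Ov W (3 * r) → Fx χ W.D P → E1 W.v (N • P)) →
  V.v p ^ e ≤ V.v (8 * io N * tr χ a (9 * r) ((p : Zw) ^ n • (p : Zw) ^ n • Q')) →
  SelK χ x → (∀ g ∈ GK, (p : Zw) ^ k • x g = 0) →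
  ∃ u : R, IsUnit u ∧ Str (lamZ φ χ M) M fun g => u * (p ^ e * φ N) * ic φ (M • Q') (x g)

/-- the bottom class is not too divisible -/
def ZLB_st : Prop := ∀ (R : Type) [CommRing R] (χ : GQ → ZMod 3) (r p n e : ℕ) (a M ϖ a₁ : Zw)
  (Q' P : Pt) (φ : Zw →+* R) (j : ZMod (p ^ n) →+* R) (V : Plc) (g₀ : GQ),
  XD χ r p n n a M (ϖ ^ n) Q' φ → p ≠ 3 → Prime ϖ → Ov V ϖ → 2 * e + 3 ≤ n → g₀ ∈ GK →
  φ a₁ = rho j (lamZ φ χ M) g₀ - 1 → E1 V.v P → Fx χ V.D P → V.v (zz P) ≤ V.v p →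
  V.v p ^ (e + 1) ≤ V.v (8 * io a₁ * zz P * tr χ a (9 * r) ((p : Zw) ^ n • (p : Zw) ^ n • Q')) →
  ∃ u ∈ UM M, ¬ φ ϖ ^ (e + 1) ∣ zc j (UM M) (lamZ φ χ M) (Th a ((p : Zw) ^ n • Q')) u

/-- a multiple of a Selmer class vanishes on the open subgroup -/
def KIL_st : Prop := ∀ (χ : GQ → ZMod 3) (r : ℕ) (a : Zw), Tw χ r → HB χ r → Adm r a →
  ∃ B : ℕ, B ≠ 0 ∧ 18 * r ∣ B ∧ ∀ (p k n : ℕ) (M ϖ : Zw) (Q' : Pt) (x : GQ → Pt), p.Prime →
    p ≠ 3 → p ≠ nn a → 2 * k + 2 * B.factorization p + 3 ≤ n → M = (p : Zw) ^ n * (9 * r) →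
    Gen ((p : Zw) ^ n * M) Q' → SelK χ x → (∀ g ∈ GK, (p : Zw) ^ k • x g = 0) → Prime ϖ →
    ϖ ∣ p → ∀ u ∈ UM M, ϖ ^ n ∣ (p : Zw) ^ (4 * B.factorization p) * co (M • Q') (x u)

end Pool.Agent.MP_e23604_nt.W

end

section

/-!
Coordinates of torsion points.
-/

set_option autoImplicit false

open Finset QuadraticAlgebra
open scoped Classical

namespace Pool.Agent.MP_e23604_nt.W

open B R S

theorem congr_XCOI {R : Type} [CommRing R] {φ : Zw →+* R} {N a b : Zw} (h : φ N = 0)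
    (e : N ∣ a - b) : φ a = φ b := by
  obtain ⟨c, e⟩ := e
  rw [← sub_eq_zero, ← map_sub, e, map_mul, h, zero_mul]

theorem cz_bd_XCOI {χ : GQ → ZMod 3} {r : ℕ} (h : Tw χ r) {H : Subgroup GQ} (hH : H ≤ GK)
    (P : Pt) : Cz χ H (bd χ P) := by
  refine ⟨(h.lc.mono hH).map₂ ((gal_lc P).mono le_top)
    fun a Q => (ω : Zw) ^ a.val • Q - P, fun g hg k hk => ?_⟩
  rw [bd, bd, bd, eta_mul h.add (hH hg) (hH hk), map_sub]
  abel

theorem COI_pf (H : H5) : COI_st := by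
  intro R _ φ N G hN hG hφ
  have h1 : ∀ c : Zw, ic φ G (c • G) = φ c := fun c =>
    (congr_XCOI hφ (hG.congr.1 (co_spec ⟨c, rfl⟩))).symm
  have h2 := (H.CYG N hN).2.1 G hG
  have hs : ∀ T : Pt, N • T = 0 → ∀ c : Zw, ic φ G (c • T) = φ c * ic φ G T := by
    intro T hT c
    obtain ⟨u, rfl⟩ := h2 T hT
    rw [← mul_smul, h1, h1, map_mul]
  have hz : ∀ T : Pt, N • T = 0 → Qt φ N → ic φ G T = 0 → T = 0 := by
    intro T hT hq h0
    obtain ⟨u, rfl⟩ := h2 T hT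
    rw [h1] at h0
    exact (hG u).2 ((hq.ker u).1 h0)
  have ha : ∀ T : Pt, N • T = 0 → ∀ T' : Pt, N • T' = 0 →
      ic φ G (T + T') = ic φ G T + ic φ G T' ∧ ic φ G (T - T') = ic φ G T - ic φ G T' := by
    intro T hT T' hT'
    obtain ⟨u, rfl⟩ := h2 T hT
    obtain ⟨u', rfl⟩ := h2 T' hT'
    rw [← add_smul, ← sub_smul, h1, h1, h1, h1, map_add, map_sub]
    exact ⟨rfl, rfl⟩
  refine ⟨h1, fun T hT => ⟨co_spec (h2 T hT), hs T hT, hz T hT, ha T hT⟩, ?_⟩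
  intro χ r M hχ hM hr hNM
  have h0 : ∀ g ∈ GK, ∀ T : Pt, N • T = 0 → N • eta χ g T = 0 := fun g hg T hT => by
    rw [← eta_smul χ hg, hT, map_zero]
  have he : ∀ g ∈ GK, ∀ T : Pt, N • T = 0 → ic φ G (eta χ g T) = lamZ φ χ M g * ic φ G T :=
    fun g hg T hT => by
      rw [(H.LZ χ r M hχ hM hr).2.1 g hg T (dvd_smul hT hNM), hs T hT, lamZ]
  refine ⟨fun g hg T hT => ⟨he g hg T hT, ?_⟩, fun K hK => ?_⟩
  · rw [bd, (ha _ (h0 g hg T hT) T hT).2, he g hg T hT, sub_mul, one_mul]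
  have hc : ∀ x, Cz χ K x → (∀ g ∈ K, N • x g = 0) →
      Co (lamZ φ χ M) K fun g => ic φ G (x g) := fun x hx hx0 =>
    ⟨hx.1.map _, fun g hg k hk => by
      beta_reduce
      rw [hx.2 g hg k hk, (ha _ (hx0 g hg) _ (h0 g (hK hg) _ (hx0 k hk))).1,
        he g (hK hg) _ (hx0 k hk)]⟩
  refine ⟨hc, fun P hP => ?_, fun y hq hy => ?_⟩
  · have h3 : ∀ g ∈ K, N • bd χ P g = 0 := fun g hg => by
      rw [← bd_smul (hK hg), bd, hP g hg, sub_self]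
    exact ⟨h3, hc _ (cz_bd_XCOI hχ hK P) h3⟩
  · have h3 : ∀ z : R, N • Function.surjInv hq.sur z • G = 0 := fun z => by
      rw [smul_comm, hG.zero, smul_zero]
    have h4 : ∀ z : R, ic φ G (Function.surjInv hq.sur z • G) = z := fun z => by
      rw [h1, Function.surjInv_eq hq.sur]
    refine ⟨fun g => Function.surjInv hq.sur (y g) • G,
      ⟨hy.1.map fun z => Function.surjInv hq.sur z • G, fun g hg k hk => ?_⟩,
      fun g => ⟨h3 _, h4 _⟩⟩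
    have h5 := h0 g (hK hg) _ (h3 (y k))
    have h6 : N • (Function.surjInv hq.sur (y g) • G +
        eta χ g (Function.surjInv hq.sur (y k) • G)) = 0 := by rw [smul_add, h3, h5, add_zero]
    refine sub_eq_zero.1 (hz _ (by rw [smul_sub, h3, h6, sub_zero]) hq ?_)
    rw [(ha _ (h3 _) _ h6).2, (ha _ (h3 _) _ h5).1, he g (hK hg) _ (h3 _), h4, h4, h4,
      hy.2 g hg k hk, sub_self]

theorem COJ_pf (H : H5) : COJ_st := by
  intro χ r M hχ hM hr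
  have h39 : (3 : Zw) ∣ 9 * r := Dvd.dvd.mul_right ⟨3, by norm_num⟩ _
  have hP := (H.PS M hM).1
  refine ⟨fun g hg => ?_, fun u hu hc => ?_, fun R _ φ N j hφ hN g hg => ?_⟩
  · have h1 : pw ∣ ps M g - 1 := pw_dvd3.trans ((hP g hg).2.2.1 (h39.trans hr))
    have h2 : pw ∣ (ω : Zw) ^ (χ g).val - 1 := pw_w.trans (sub_one_dvd_pow_sub_one _ _)
    rw [show (ω : Zw) ^ (χ g).val * ps M g - 1 =
      ω ^ (χ g).val * (ps M g - 1) + (ω ^ (χ g).val - 1) by ring]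
    exact dvd_add (h1.mul_left _) h2
  · obtain ⟨g, hg, h1⟩ := H.SURJ M u hM (h39.trans hu) hc
    have h2 : χ g = 0 := hχ.fac g ⟨hg, fun P e => by
      rw [h1 P (dvd_smul e hr), smul_congr e hu, one_smul]⟩
    refine ⟨g, hg, ?_, fun P e => ?_⟩
    · rw [h2, ZMod.val_zero, pow_zero, one_mul]
      exact ((hP g hg).2.2.2.2.1 u).1 h1
    · rw [eta_apply, h2, ZMod.val_zero, pow_zero, one_smul, h1 P e]
  · obtain ⟨h1, h2⟩ := ((H.LZ χ r M hχ hM hr).2.2 R φ hφ).1 N j hN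
    have h3 : lamZ φ χ M g * lamZ φ χ M g⁻¹ = 1 := by
      rw [← h1.mul g hg _ (GK.inv_mem hg), mul_inv_cancel, h1.one 1 (one_mem _)]
    have h4 : (nn (ps M g) : R) = lamZ φ χ M g * φ (star (ω ^ (χ g).val * ps M g)) := by
      rw [lamZ, ← map_mul, mul_star_nn, nn_mul, nn_pow, nn_w, one_pow, one_mul, map_natCast]
    rw [rho, h2 g hg, map_natCast, h4, mul_right_comm, h3, one_mul]

theorem AHM_pf (H : H5) (hCOI : COI_st) : AHM_st := by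
  intro R _ φ N M Q' hN hM hNM hQ hφ
  have hG : Gen N (M • Q') := Gen.smul (by rw [mul_comm]; exact hQ) hM
  obtain ⟨h1, h2, -⟩ := hCOI R φ N _ hN hG hφ
  have hP := (H.PS (N * M) (mul_ne_zero hN hM)).1
  have h0 : ∀ u ∈ UM M, N • (gal u Q' - Q') = 0 := fun u hu => by
    rw [smul_sub, ← gal_smul hu.1, hu.2 _ (by rw [← mul_smul, mul_comm, hQ.zero]), sub_self]
  refine ⟨fun u hu v hv => ?_, ((gal_lc Q').mono le_top).map fun P => ic φ (M • Q') (P - Q'),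
    fun g hg u hu => ?_, fun u hu => ?_, fun u ν e => ?_, fun χ y hy u hu => ?_⟩
  · have e : gal (u * v) Q' - Q' = gal u Q' - Q' + (gal v Q' - Q') := by
      rw [← hu.2 _ (dvd_smul (h0 v hv) hNM), map_sub, gal_mul]
      abel
    rw [Ah, Ah, Ah, e, ((h2 _ (h0 u hu)).2.2.2 _ (h0 v hv)).1]
  · have e : g⁻¹ * u * g = u * ((g * u)⁻¹ * (u * g)) := by group
    rw [Ah, Ah, e, gal_mul, ((hP g hg).2.2.2.2.2.2.1 u hu.1).2 _ hQ.zero]
  · rw [Ah, hu.2 _ hQ.zero, sub_self, ← zero_smul Zw (M • Q'), h1, map_zero]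
  · rw [Ah, e, add_smul, one_smul, add_sub_cancel_left, mul_comm, mul_smul, h1]
  · have e : gal u (eta χ y Q') - eta χ y Q' =
        ((ω : Zw) ^ (χ y).val * ps (N * M) y) • (gal u Q' - Q') := by
      rw [eta_apply, (hP y hy).1 _ hQ.zero, ← mul_smul, gal_smul hu.1, smul_sub]
    rw [e]
    refine ⟨by rw [smul_comm, h0 u hu, smul_zero], ?_⟩
    rw [(h2 _ (h0 u hu)).2.1, Ah, lamZ, map_mul, map_mul, congr_XCOI hφ (hNM.trans
      (((H.PS M hM).1 y hy).2.2.2.2.2.2.2.2 (N * M) (mul_ne_zero hN hM) (dvd_mul_left _ _)))]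

end Pool.Agent.MP_e23604_nt.W

end

section

/-!
The kernel of reduction has finite index at three.
-/

set_option autoImplicit false

open Finset QuadraticAlgebra
open scoped Classical

namespace Pool.Agent.MP_e23604_nt.W

open B R S

/-- fixed by the kernel of the character in the decomposition group -/
def Fd_XPIG (χ : GQ → ZMod 3) (V : Plc) (x : Qb) : Prop := ∀ g ∈ V.D, χ g = 0 → g x = x

section

variable {χ : GQ → ZMod 3} {V : Plc} {x y : Qb}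

theorem sub_XPIG (h : Fd_XPIG χ V x) (h' : Fd_XPIG χ V y) : Fd_XPIG χ V (x - y) :=
  fun g hg e => by rw [map_sub, h g hg e, h' g hg e]

theorem div_XPIG (h : Fd_XPIG χ V x) (h' : Fd_XPIG χ V y) : Fd_XPIG χ V (x / y) :=
  fun g hg e => by rw [map_div₀, h g hg e, h' g hg e]

theorem one_XPIG (hχ : Adt V.D χ) : χ 1 = 0 := by
  have := hχ 1 V.D.one_mem 1 V.D.one_mem
  rw [mul_one] at this
  exact left_eq_add.1 this

theorem same_XPIG (hχ : Adt V.D χ) (h : Fd_XPIG χ V x) {g g' : GQ} (hg : g ∈ V.D)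
    (hg' : g' ∈ V.D) (e : χ g = χ g') : g x = g' x := by
  have m := V.D.mul_mem (V.D.inv_mem hg') hg
  have k := hχ g' hg' _ m
  rw [mul_inv_cancel_left, e] at k
  have := congrArg g' (h _ m (left_eq_add.1 k))
  rwa [← AlgEquiv.mul_apply, mul_inv_cancel_left] at this

theorem pi_XPIG (hV : Ov V 3) : 0 < V.v (io pw) ∧ V.v (io pw) < 1 :=
  ⟨V.v.pos (io_ne pw_ne), Ov_three.1 hV⟩

/-- the value group -/
theorem val_XPIG (H : H5) (hχ : Adt V.D χ) (hV : Ov V 3) (h : Fd_XPIG χ V x) (h0 : x ≠ 0) :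
    ∃ k : ℤ, V.v x ^ 3 = V.v (io pw) ^ k := by
  have K := (H.PLK.2.2.1 V pw pw_prime (Ov_three.1 hV)).2.2.2.2.2.2
  by_cases hz : ∀ g ∈ V.D, χ g = 0
  · obtain ⟨k, e⟩ := K x h0 fun g hg => h g (V.I_le hg) (hz g (V.I_le hg))
    exact ⟨k * (3 : ℕ), by rw [zpow_mul, zpow_natCast, e]⟩
  · push Not at hz
    obtain ⟨τ, hτ, hne⟩ := hz
    have hs : ∀ c : ZMod 3, ∃ g ∈ V.D, χ g = c := fun c => by
      have : ∀ t c : ZMod 3, t ≠ 0 → c = 0 ∨ c = t ∨ c = t + t := by decide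
      rcases this _ c hne with rfl | rfl | rfl
      · exact ⟨1, V.D.one_mem, one_XPIG hχ⟩
      · exact ⟨τ, hτ, rfl⟩
      · exact ⟨τ * τ, V.D.mul_mem hτ hτ, hχ τ hτ τ hτ⟩
    choose s hs1 hs2 using hs
    obtain ⟨k, e⟩ := K (∏ c, s c x) (prod_ne_zero_iff.2 fun c _ => (map_ne_zero _).2 h0)
      fun u hu => by
        have hu' := V.I_le hu
        rw [map_prod, ← Equiv.prod_comp (Equiv.addLeft (χ u)) fun c => s c x]
        refine prod_congr rfl fun c _ => ?_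
        rw [← AlgEquiv.mul_apply]
        exact same_XPIG hχ h (V.D.mul_mem hu' (hs1 c)) (hs1 _)
          (by rw [hχ u hu' _ (hs1 c), hs2, hs2, Equiv.coe_addLeft])
    refine ⟨k, ?_⟩
    rw [← e, map_prod, prod_congr rfl fun c _ => (hs1 c).1 x, prod_const, card_univ, ZMod.card]

theorem step_XPIG (H : H5) (hχ : Adt V.D χ) (hV : Ov V 3) (h : Fd_XPIG χ V x) {i : ℕ}
    (e : V.v x ^ 3 < V.v (io pw) ^ i) : V.v x ^ 3 ≤ V.v (io pw) ^ (i + 1) := by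
  obtain ⟨p0, p1⟩ := pi_XPIG hV
  by_cases h0 : x = 0
  · rw [h0, map_zero, zero_pow three_ne_zero]
    exact (pow_pos p0 _).le
  · obtain ⟨k, hk⟩ := val_XPIG H hχ hV h h0
    rw [hk, ← zpow_natCast] at e ⊢
    have := (zpow_lt_zpow_iff_right_of_lt_one₀ p0 p1).1 e
    exact zpow_le_zpow_right_of_le_one₀ p0 p1.le (by push_cast; omega)

/-- the residue field -/
theorem frob_XPIG (H : H5) (hχ : Adt V.D χ) (hV : Ov V 3) (h : Fd_XPIG χ V x) (h1 : V.v x ≤ 1) :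
    V.v (x ^ 3 ^ 3 - x) < 1 := by
  obtain ⟨σ, hσ, hf⟩ := (H.FRK V pw pw_prime (Ov_three.1 hV)).1
  rw [nn_pw] at hf
  have k : ∀ n : ℕ, V.v ((σ ^ n) x - x ^ 3 ^ n) < 1 := fun n => by
    induction n with
    | zero => simp
    | succ n ih =>
      have a := hf (x ^ 3 ^ n) (by rw [map_pow]; exact pow_le_one₀ (V.v.nonneg _) h1)
      rw [← hσ.1] at ih
      have b := bLocA_add_lt V.na ih a
      rwa [map_sub, sub_add_sub_cancel, ← AlgEquiv.mul_apply, ← pow_succ', ← pow_mul,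
        ← pow_succ] at b
  have k3 := k 3
  have e : χ (σ ^ 3) = 0 := by
    have : ∀ t : ZMod 3, t + t + t = 0 := by decide
    rw [pow_succ, sq, hχ _ (V.D.mul_mem hσ hσ) _ hσ, hχ _ hσ _ hσ, this]
  rwa [h _ (V.D.pow_mem hσ 3) e, V.v.map_sub] at k3

end

theorem root_XPIG (n : ℕ) (hn : 1 < n) :
    ∃ s : Finset Qb, ∀ (V : Plc) (x : Qb), V.v (x ^ n - x) < 1 → ∃ z ∈ s, V.v (x - z) < 1 := by
  have hm : (Polynomial.X ^ n - Polynomial.X : Polynomial Qb).Monic :=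
    Polynomial.monic_X_pow_sub (by rw [Polynomial.degree_X]; exact_mod_cast hn)
  refine ⟨(Polynomial.X ^ n - Polynomial.X : Polynomial Qb).roots.toFinset, fun V x h => ?_⟩
  have e := (IsAlgClosed.splits _).eval_eq_prod_roots_of_monic hm x
  rw [Polynomial.eval_sub, Polynomial.eval_pow, Polynomial.eval_X] at e
  by_contra hc
  push Not at hc
  rw [e, map_multiset_prod] at h
  refine h.not_ge (Multiset.prod_induction (1 ≤ ·) _ (fun a b => one_le_mul_of_one_le_of_one_le)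
    le_rfl fun a ha => ?_)
  rw [Multiset.map_map, Multiset.mem_map] at ha
  obtain ⟨z, hz, rfl⟩ := ha
  exact hc z (Multiset.mem_toFinset.2 hz)

/-- a colouring of the integers by residue classes -/
theorem col_XPIG (H : H5) : ∃ (T : Type) (_ : Finite T) (_ : Nonempty T),
    ∀ (χ : GQ → ZMod 3) (V : Plc), Adt V.D χ → Ov V 3 → ∃ f : Qb → T, ∀ x y, Fd_XPIG χ V x →
      Fd_XPIG χ V y → V.v x ≤ 1 → V.v y ≤ 1 → f x = f y → V.v (x - y) < 1 := by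
  obtain ⟨s, hs⟩ := root_XPIG (3 ^ 3) (by norm_num)
  refine ⟨Option s, inferInstance, inferInstance, fun χ V hχ hV => ?_⟩
  have k : ∀ x : Qb, ∃ o : Option s, Fd_XPIG χ V x → V.v x ≤ 1 →
      ∃ z : s, o = some z ∧ V.v (x - z) < 1 := fun x => by
    by_cases h : Fd_XPIG χ V x ∧ V.v x ≤ 1
    · obtain ⟨z, hz, e⟩ := hs V x (frob_XPIG H hχ hV h.1 h.2)
      exact ⟨some ⟨z, hz⟩, fun _ _ => ⟨_, rfl, e⟩⟩
    · exact ⟨none, fun a b => absurd ⟨a, b⟩ h⟩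
  choose f hf using k
  refine ⟨f, fun x y hx hy h1 h2 e => ?_⟩
  obtain ⟨z, a1, a2⟩ := hf x hx h1
  obtain ⟨z', b1, b2⟩ := hf y hy h2
  obtain rfl : z = z' := Option.some_injective _ (a1.symm.trans (e.trans b1))
  simpa using bLocA_sub_lt V.na a2 b2

theorem lev_XPIG (H : H5) (i : ℕ) : ∃ (T : Type) (_ : Finite T),
    ∀ (χ : GQ → ZMod 3) (V : Plc), Adt V.D χ → Ov V 3 → ∃ f : Qb → T, ∀ x y, Fd_XPIG χ V x →
      Fd_XPIG χ V y → V.v x ≤ 1 → V.v y ≤ 1 → f x = f y →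
        V.v (x - y) ^ 3 ≤ V.v (io pw) ^ i := by
  induction i with
  | zero =>
    refine ⟨Unit, inferInstance, fun χ V _ _ => ⟨fun _ => (), fun x y _ _ h1 h2 _ => ?_⟩⟩
    rw [pow_zero]
    exact pow_le_one₀ (V.v.nonneg _) (bLocA_sub_le V.na h1 h2)
  | succ i ih =>
    obtain ⟨T, _, hT⟩ := ih
    obtain ⟨Z, _, ⟨z₀⟩, hZ⟩ := col_XPIG H
    refine ⟨T × Z, inferInstance, fun χ V hχ hV => ?_⟩
    obtain ⟨f, hf⟩ := hT χ V hχ hV
    obtain ⟨c, hc⟩ := hZ χ V hχ hV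
    have p := pow_pos (pi_XPIG hV).1 i
    by_cases ht : ∃ t, Fd_XPIG χ V t ∧ V.v t ^ 3 = V.v (io pw) ^ i
    · obtain ⟨t, t1, t2⟩ := ht
      have t3 : 0 < V.v t := (V.v.nonneg t).lt_of_ne fun e => by
        rw [← e, zero_pow three_ne_zero] at t2
        exact p.ne t2
      have k : ∀ a : T, ∃ b : Qb, ∀ x, Fd_XPIG χ V x → V.v x ≤ 1 → f x = a →
          Fd_XPIG χ V ((x - b) / t) ∧ V.v ((x - b) / t) ≤ 1 := fun a => by
        by_cases h : ∃ b, Fd_XPIG χ V b ∧ V.v b ≤ 1 ∧ f b = a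
        · obtain ⟨b, b1, b2, b3⟩ := h
          refine ⟨b, fun x x1 x2 x3 => ⟨div_XPIG (sub_XPIG x1 b1) t1, ?_⟩⟩
          rw [map_div₀, div_le_one t3]
          exact le_of_pow_le_pow_left₀ three_ne_zero t3.le
            (t2 ▸ hf x b x1 b1 x2 b2 (x3.trans b3.symm))
        · exact ⟨0, fun x x1 x2 x3 => absurd ⟨x, x1, x2, x3⟩ h⟩
      choose b hb using k
      refine ⟨fun x => (f x, c ((x - b (f x)) / t)), fun x y x1 y1 x2 y2 e => ?_⟩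
      obtain ⟨e1, e2⟩ := Prod.mk.inj e
      obtain ⟨a1, a2⟩ := hb _ x x1 x2 rfl
      obtain ⟨b1, b2⟩ := hb _ y y1 y2 rfl
      have q := hc _ _ a1 b1 a2 b2 e2
      rw [e1, ← sub_div, sub_sub_sub_cancel_right, map_div₀, div_lt_one t3] at q
      exact step_XPIG H hχ hV (sub_XPIG x1 y1)
        (t2 ▸ pow_lt_pow_left₀ q (V.v.nonneg _) three_ne_zero)
    · refine ⟨fun x => (f x, z₀), fun x y x1 y1 x2 y2 e => ?_⟩
      exact step_XPIG H hχ hV (sub_XPIG x1 y1) (lt_of_le_of_ne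
        (hf x y x1 y1 x2 y2 (Prod.mk.inj e).1) fun q => ht ⟨_, sub_XPIG x1 y1, q⟩)

theorem PIG_pf (H : H5) : PIG_st := by
  obtain ⟨T, _, hT⟩ := lev_XPIG H 7
  have := Fintype.ofFinite T
  obtain ⟨C, hC⟩ : ∃ C, C = Fintype.card (T × T) := ⟨_, rfl⟩
  refine ⟨((C + 1).factorial : ℕ), Nat.cast_ne_zero.2 (Nat.factorial_ne_zero _),
    fun χ V P hχ hV hP => ?_⟩
  obtain ⟨f, hf⟩ := hT χ V (hχ.mono V.D_le) hV
  obtain ⟨p0, p1⟩ := pi_XPIG hV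
  have k1 : ∀ d : ℕ, 0 < d → d ≤ C + 1 → E1 V.v ((d : Zw) • P) →
      E1 V.v ((((C + 1).factorial : ℕ) : Zw) • P) := fun d d0 d1 e => by
    obtain ⟨c, hc⟩ := Nat.dvd_factorial d0 d1
    rw [hc, mul_comm, Nat.cast_mul, mul_smul]
    exact (E1m e _).1
  have k2 : ∀ d : Zw, Fd_XPIG χ V (xc (d • P)) ∧ Fd_XPIG χ V (yc (d • P)) := fun d => by
    have : ∀ g ∈ V.D, χ g = 0 → gal g (d • P) = d • P := fun g hg e => by
      have := hP.smul V.D_le d g hg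
      rwa [eta_apply, e, ZMod.val_zero, pow_zero, one_smul] at this
    exact ⟨fun g hg e => by rw [← (xc_gal g _).1, this g hg e],
      fun g hg e => by rw [← (xc_gal g _).2, this g hg e]⟩
  have k3 : ∀ x y, Fd_XPIG χ V x → Fd_XPIG χ V y → V.v x ≤ 1 → V.v y ≤ 1 → f x = f y →
      V.v (x - y) < V.v 3 := fun x y x1 y1 x2 y2 e => by
    have e3 : V.v 3 = V.v (io pw) ^ 2 := by rw [← map_pow, io_pw_sq, V.v.map_neg]
    refine lt_of_pow_lt_pow_left₀ 3 (V.v.nonneg _) ((hf x y x1 y1 x2 y2 e).trans_lt ?_)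
    rw [e3, ← pow_mul]
    exact pow_lt_pow_right_of_lt_one₀ p0 p1 (by norm_num)
  by_contra hn
  have k4 : ∀ i : Fin (C + 1), ¬ E1 V.v (((i + 1 : ℕ) : Zw) • P) := fun i e =>
    hn (k1 _ (Nat.succ_pos _) i.2 e)
  have k5 : ∀ i i' : Fin (C + 1), i < i' →
      f (xc (((i + 1 : ℕ) : Zw) • P)) = f (xc (((i' + 1 : ℕ) : Zw) • P)) →
      f (yc (((i + 1 : ℕ) : Zw) • P)) = f (yc (((i' + 1 : ℕ) : Zw) • P)) → False :=
    fun i i' hi e1 e2 => by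
      have a := (not_E1.1 (k4 i)).2
      have b := (not_E1.1 (k4 i')).2
      have q := H.CLO V _ _ (k4 i') (k4 i) (k3 _ _ (k2 _).1 (k2 _).1 b a e1.symm)
        (k3 _ _ (k2 _).2 (k2 _).2 (yc_le b) (yc_le a) e2.symm)
      have hi' : (i : ℕ) < i' := hi
      rw [← sub_smul, ← Nat.cast_sub (by omega)] at q
      exact hn (k1 _ (by omega) (by omega) q)
  obtain ⟨i, i', hne, e⟩ := Fintype.exists_ne_map_eq_of_card_lt
    (fun i : Fin (C + 1) => (f (xc (((i + 1 : ℕ) : Zw) • P)), f (yc (((i + 1 : ℕ) : Zw) • P))))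
    (by rw [Fintype.card_fin, ← hC]; exact Nat.lt_succ_self C)
  obtain ⟨e1, e2⟩ := Prod.mk.inj e
  rcases lt_or_gt_of_ne hne with h | h
  · exact k5 i i' h e1 e2
  · exact k5 i' i h e1.symm e2.symm

end Pool.Agent.MP_e23604_nt.W

end

section

set_option autoImplicit false

open Finset QuadraticAlgebra
open scoped Classical

namespace Pool.Agent.MP_e23604_nt.W

open B R S

lemma ano_XMUL {p : ℕ} (hp : 2 < p) {a b : Zw} (ha : PP a) (hb : PP b) (na : nn a = p)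
    (nb : nn b = p) (i : ℕ) : ¬ a ∣ b - ω ^ i := by
  intro h
  have h1 : pw ∣ b - ω ^ i := by
    have := dvd_sub (pw_dvd3.trans hb.2) (pw_w.trans (sub_one_dvd_pow_sub_one (ω : Zw) i))
    rwa [sub_sub_sub_cancel_right] at this
  have h2 := nn_dvd ((pw_prime.coprime_iff_not_dvd.2 ha.2.pw).mul_dvd h1 h)
  have h3 : b - ω ^ i ≠ 0 := fun e => hb.1.not_isUnit (sub_eq_zero.1 e ▸ w_unit.pow i)
  have h4 := Nat.le_of_dvd (nn_pos h3) h2
  have h5 : nn ((ω : Zw) ^ i) = 1 := nn_unit.1 (w_unit.pow i)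
  generalize (ω : Zw) ^ i = u at h4 h5
  rw [nn_mul, nn_pw, na] at h4
  have e1 := nn_cast (b - u)
  have e2 := nn_cast b
  have e3 := nn_cast u
  have e4 := nw_nonneg (b + u)
  rw [nw_def] at e1 e2 e3 e4
  simp only [re_sub, im_sub, re_add, im_add] at e1 e4
  have : (nn (b - u) : ℤ) ≤ 2 * nn b + 2 * nn u := by nlinarith
  omega

lemma fac_XMUL (H : H5) {a b ϖ : Zw} (ha : PP a) (hb : PP b) (hab : a ≠ b) (h : Prime ϖ)
    (e : ϖ ∣ a) : ∃ c, a * b = ϖ * c ∧ IsCoprime ϖ c := by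
  obtain ⟨d, rfl⟩ := e
  have hd := (ha.1.irreducible.isUnit_or_isUnit rfl).resolve_left h.not_isUnit
  refine ⟨d * b, by ring, h.coprime_iff_not_dvd.2 fun e => hab ?_⟩
  obtain ⟨-, -, -, -, -, -, -, h1, -⟩ := H.PLK
  exact h1 _ _ ha hb (hd.mul_right_dvd.2 (hd.dvd_mul_left.1 e))

theorem PFA_pf (H : H5) : PFA_st := by
  intro p hp h3
  have h0 : p % 3 ≠ 0 := fun e =>
    h3 ((Nat.prime_dvd_prime_iff_eq Nat.prime_three hp).1 (Nat.dvd_of_mod_eq_zero e)).symm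
  by_cases h2 : p % 3 = 2
  · have hq := inert_prime hp h2
    refine ⟨{-(p : Zw)}, -1, isUnit_one.neg, by simp, ?_, ?_⟩
    · simp only [mem_singleton, forall_eq]
      refine ⟨⟨hq.neg, ⟨-((p / 3 : ℕ) + 1), ?_⟩⟩, fun i e => hq.neg.not_isUnit ?_⟩
      · have : (p : Zw) = 3 * ((p / 3 : ℕ) : Zw) + 2 := by
          exact_mod_cast congrArg (Nat.cast : ℕ → Zw) (by omega : p = 3 * (p / 3) + 2)
        linear_combination -this
      · exact isUnit_of_dvd_unit ((dvd_sub_self_left).1 e) (w_unit.pow i)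
    · rintro ϖ h ⟨c, e⟩
      have hc := (hq.irreducible.isUnit_or_isUnit e).resolve_left h.not_isUnit
      exact ⟨c, e, h.coprime_iff_not_dvd.2 fun e' => h.not_isUnit (isUnit_of_dvd_unit e' hc)⟩
  have : Fact p.Prime := ⟨hp⟩
  obtain ⟨k1, -, k2, -, -, -, -, -, k3, -⟩ := H.PLK
  obtain ⟨a, a1, a2, -, a3⟩ := k1 ⟨p, 1⟩
  have ha : PP a := a3 h3
  have hb := k3 a ha
  have na : nn a = p := by
    have := (k2 _ a a1 a2).2.2.1
    simp only at this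
    omega
  have nb : nn (star a) = p := (nn_star a).trans na
  have e : (p : Zw) = a * star a := by rw [mul_star_nn, na]
  have hab : a ≠ star a := by
    intro e1
    have e2 := congrArg QuadraticAlgebra.im e1
    have e3 := nn_cast a
    rw [im_star] at e2
    rw [nw_def, na, show a.im = 0 by omega] at e3
    refine (Nat.prime_iff_prime_int.1 hp).irreducible.not_isSquare ⟨a.re, ?_⟩
    linear_combination e3
  have hp2 : 2 < p := by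
    have := hp.two_le
    omega
  refine ⟨{a, star a}, 1, isUnit_one, by rw [prod_pair hab, one_mul, e], ?_, fun ϖ h hd => ?_⟩
  · have k : ∀ x ∈ ({a, star a} : Finset Zw), PP x ∧ nn x = p := by
      simp only [mem_insert, mem_singleton, forall_eq_or_imp, forall_eq]
      exact ⟨⟨ha, na⟩, hb, nb⟩
    exact fun x hx => ⟨(k x hx).1, fun y hy =>
      ano_XMUL hp2 (k x hx).1 (k y hy).1 (k x hx).2 (k y hy).2⟩
  · rw [e] at hd ⊢
    rcases h.dvd_or_dvd hd with h1 | h1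
    · exact fac_XMUL H ha hb hab h h1
    · rw [mul_comm]
      exact fac_XMUL H hb ha hab.symm h h1

lemma fr_XMUL (H : H5) {V : Plc} {ϖ N : Zw} (h : PP ϖ) (hV : Ov V ϖ) {χ : GQ → ZMod 3} {P : Pt}
    (hP : Fx χ V.D P) (hN : ϖ ^ 3 - 1 ∣ N) : E1 V.v (N • P) := by
  obtain ⟨σ, hσ⟩ := (H.FRK V ϖ h.1 hV).1
  have h1 := ((H.FRB V ϖ h hV).2 σ hσ).1 P
  have h2 := hP σ hσ.1
  rw [eta_apply] at h2
  have h3 : ((ω : Zw) ^ (χ σ).val) ^ 3 = 1 := by rw [← pow_mul, mul_comm, pow_mul, www, one_pow]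
  generalize (ω : Zw) ^ (χ σ).val = u at h2 h3
  obtain ⟨c, rfl⟩ := hN
  have h4 := (E1m (E1m h1 u).1 (-c * ((u * ϖ) ^ 2 + u * ϖ + 1))).1
  rw [smul_sub u, h2, ← mul_smul, ← one_smul Zw P, ← mul_smul, ← sub_smul, ← mul_smul] at h4
  convert h4 using 2
  linear_combination -c * ϖ ^ 3 * h3

theorem MUL_pf (H : H5) (hPIG : PIG_st) (hPFA : PFA_st) : MUL_st := by
  obtain ⟨k1, -, k2, k3, -, -, -, k4, -, -, k5, k6⟩ := H.PLK
  refine ⟨fun r hr => ?_, fun p hp h3 => ?_⟩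
  · obtain ⟨N, h0, hN⟩ := hPIG
    obtain ⟨u, i, c, hu, hc, e⟩ := k6 r (Nat.cast_ne_zero.2 hr)
    obtain ⟨s, hs, rfl⟩ := k5 c hc
    refine ⟨(s.map fun x => x ^ 3 - 1).prod * N, mul_ne_zero (Multiset.prod_ne_zero fun h => ?_) h0,
      fun χ V P hχ hV hP => ?_⟩
    · obtain ⟨x, hx, e⟩ := Multiset.mem_map.1 h
      exact (hs x hx).1.not_isUnit (IsUnit.of_pow_eq_one (sub_eq_zero.1 e) three_ne_zero)
    by_cases h3 : Ov V 3
    · rw [mul_smul]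
      exact (E1m (hN χ V P hχ h3 hP) _).1
    obtain ⟨ϖ, a1, a2, -, a3⟩ := k1 V
    have ha := a3 fun e => h3 (by simpa [e] using Ov_l V)
    have h1 := (Ov_mul.1 hV).resolve_left h3
    rw [e, Ov_mul, Ov_mul] at h1
    have h2 := h1.resolve_left fun h =>
      h.elim (not_Ov_unit V hu) fun h => h3 (Ov_three.2 (Ov_pow h))
    obtain ⟨x, hx, e'⟩ := a1.exists_mem_multiset_dvd (((k2 V ϖ a1 a2).1 _).1 h2)
    obtain rfl := k4 ϖ x ha (hs x hx) e'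
    exact fr_XMUL H ha a2 hP
      ((Multiset.dvd_prod (Multiset.mem_map_of_mem (fun x => x ^ 3 - 1) hx)).mul_right _)
  · obtain ⟨s, u, hu, e, hs, -⟩ := hPFA p hp h3
    refine ⟨∏ x ∈ s, (x ^ 3 - 1), ?_, fun χ V P _ hV hP => ?_⟩
    · rw [e, isCoprime_mul_unit_left_right hu]
      refine IsCoprime.prod_left fun y hy => IsCoprime.prod_right fun x hx => ?_
      obtain ⟨hx1, hx2⟩ := hs x hx
      refine (hx1.1.coprime_iff_not_dvd.2 fun h => ?_).symm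
      rw [show y ^ 3 - 1 = (y - ω ^ 0) * ((y - ω ^ 1) * (y - ω ^ 2)) by
        linear_combination (y ^ 2 - ω * y) * ww + www] at h
      exact (hx1.1.dvd_or_dvd h).elim (hx2 y hy 0) fun h =>
        (hx1.1.dvd_or_dvd h).elim (hx2 y hy 1) (hx2 y hy 2)
    · obtain ⟨ϖ, a1, a2, -, a3⟩ := k1 V
      have ha := a3 fun e' => h3
        (((Nat.prime_dvd_prime_iff_eq V.hl.out hp).1 ((k3 V p).1 hV)).symm.trans e')
      rw [e, Ov_mul] at hV
      obtain ⟨x, hx, e'⟩ := (a1.dvd_finsetProd_iff fun x => x).1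
        (((k2 V ϖ a1 a2).1 _).1 (hV.resolve_left (not_Ov_unit V hu)))
      obtain rfl := k4 ϖ x ha (hs x hx).1 e'
      exact fr_XMUL H ha a2 hP (dvd_prod_of_mem (fun x => x ^ 3 - 1) hx)

end Pool.Agent.MP_e23604_nt.W

end

section

set_option autoImplicit false

open Finset QuadraticAlgebra
open scoped Classical

namespace Pool.Agent.MP_e23604_nt.W

open B R S

variable {χ : GQ → ZMod 3} {r : ℕ}

theorem key_XNRS (H : H5) (h : Tw χ r) {m u : Zw} (hm : m ≠ 0) (hr : (9 * r : Zw) ∣ m) {Q : Pt}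
    (hQ : m • Q = 0) (hu : Pry u) (hc : IsCoprime u m) : ∃ c : ℕ, ∀ (A : Type) [AddCommMonoid A]
      (F : Pt → A), ∑ y ∈ Xs (UM m) GK, F ((ω : Zw) ^ c • u • eta χ y Q) =
        ∑ y ∈ Xs (UM m) GK, F (eta χ y Q) := by
  obtain ⟨g, hg, e⟩ := H.SURJ m u hm hu hc
  have hX := Xs_trv (UM_open hm) (UM_le m)
  refine ⟨(χ g).val, fun A _ F => ?_⟩
  rw [← hX.sum_mul_right (F := fun y => F (eta χ y Q)) (fun k hk v hv => by
    simpa using ((H.PS m hm).1 k⁻¹ (GK.inv_mem hk)).2.2.2.2.2.2.2.1 v hv) (fun k hk v hv => by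
    rw [eta_mul h.add hk hv.1, eta_apply χ v, h.fac v (UM_mono hr hv), hv.2 Q hQ, ZMod.val_zero,
      pow_zero, one_smul]) hg]
  refine sum_congr rfl fun y hy => ?_
  rw [eta_mul h.add (hX.1 y hy) hg, eta_apply χ g, e Q hQ, eta_smul χ (hX.1 y hy),
    eta_smul χ (hX.1 y hy)]

theorem three_XNRS (r : ℕ) : (3 : Zw) ∣ 9 * r := Dvd.dvd.mul_right ⟨3, by norm_num⟩ _

theorem orb_XNRS (H : H5) (h : Tw χ r) {m : Zw} (hm : m ≠ 0) (hr : (9 * r : Zw) ∣ m) {Q : Pt}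
    (hQ : Gen m Q) (F : Pt → Qb) : ∏ y ∈ Xs (UM m) GK, F (eta χ y Q) =
      ∏ P ∈ Orb {u | u ∈ Wc χ (9 * r) ∧ IsCoprime u m} m Q, F P :=
  H.ORB.prod F h.add h.fac (three_XNRS r) hr hm hQ (Xs_trv (UM_open hm) (UM_le m))

theorem NRS_pf (H : H5) : NRS_st := by
  intro χ r a b m Q h hb hm hr ha hQ
  have h1 := hQ.smul hb
  have h3 := (three_XNRS r).trans hr
  have hs := (Wc_sat χ hr).cop dvd_rfl
  have e1 := fun P => orb_XNRS H h (mul_ne_zero hb hm) (hr.mul_left b) hQ fun Y => Th a (Y + P)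
  have d1 : ∀ (V : Plc) (P : Pt), E1 V.v P → Gth χ a m (b • Q) (b • P) =
      ∏ Y ∈ Orb {u | u ∈ Wc χ (9 * r) ∧ IsCoprime u m} (b * m) Q, Th a (Y + P) := fun V P hP => by
    rw [Gth, orb_XNRS H h hm hr h1 fun Y => Th a (Y + b • P)]
    refine ((H.DIST.prod (fun Y => Th a (Y + P)) _ hb hm hQ hs).1 fun Y hY => ?_).symm
    obtain ⟨u, hu, rfl⟩ := (mem_filter.1 hY).2
    rw [← smul_add, ← H.NRM1 a b _ ha.of_mul_right_left ha.of_mul_right_right (Gd.two_add (by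
      rw [smul_comm]
      exact (h1.gd H.CYG hm h3).smul fun e =>
        pw_prime.not_isUnit (hu.2.isUnit_of_dvd' e (pw_dvd3.trans h3))) hP)]
    exact prod_congr rfl fun T _ => by rw [add_right_comm]
  refine ⟨fun k hk V P hP => ?_, fun hp hn => ?_⟩
  · rw [d1 V P hP, Gth, e1]
    congr 2
    ext u
    exact and_congr_right fun _ => ⟨fun e => e.of_mul_right_right,
      fun e => (e.pow_right.of_isCoprime_of_dvd_right hk).mul_right e⟩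
  have hc := hp.1.coprime_iff_not_dvd.2 hn
  obtain ⟨c, hk⟩ := key_XNRS H h hm hr h1.zero hp.2 hc
  obtain ⟨b', t, e⟩ := hc
  have e2 : m ∣ b * b' - 1 := ⟨-t, by linear_combination e⟩
  refine ⟨2 * c, fun V P hP => ?_⟩
  rw [d1 V P hP, ← (H.DIST.prod (fun Y => Th a (Y + P)) (fun _ => 1) hb hm hQ hs).2 b' e2, Gth, e1]
  congr 1
  · congr 2
    ext u
    simp only [Set.mem_ofPred_eq, IsCoprime.mul_right_iff, isCoprime_comm (x := u) (y := b),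
      hp.1.coprime_iff_not_dvd]
    tauto
  rw [← orb_XNRS H h hm hr h1 fun Y => Th a (b' • Y + P)]
  refine Eq.trans (prod_congr rfl fun y hy => ?_)
    (hk (Additive Qb) fun Y => Th a (b' • Y + P))
  have h2 := (h1.eta χ ((Xs_trv (UM_open hm) (UM_le m)).1 y hy)).zero
  change _ = Th a _
  rw [smul_comm b', ← mul_smul b', mul_comm b', smul_congr h2 e2, one_smul,
    ← ((H.THI a (cop6_ne ha.of_mul_right_left)).1 _ _ (w_unit.pow c)).1, smul_add,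
    ← mul_smul _ _ P, ← pow_add, show c + 2 * c = 3 * c by ring, pow_mul, www, one_pow, one_smul]

theorem TRU_pf (H : H5) : TRU_st := by
  intro χ r a Q Q₁ h ha hQ h1
  obtain ⟨u, rfl⟩ := (H.CYG _ h.ne).2.1 Q hQ Q₁ h1.zero
  obtain ⟨u', e⟩ := (H.CYG _ h.ne).2.1 _ h1 Q hQ.zero
  have hc : IsCoprime u (9 * r) := by
    obtain ⟨t, ht⟩ := hQ.congr.1 ((one_smul Zw Q).trans (e.trans (mul_smul _ _ _).symm))
    exact ⟨u', t, by linear_combination -ht⟩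
  obtain ⟨ε, e1, e2⟩ := ex_pry (a := u) fun k =>
    pw_prime.not_isUnit (hc.isUnit_of_dvd' k (pw_dvd3.trans (three_XNRS r)))
  obtain ⟨c, hk⟩ := key_XNRS H h h.ne dvd_rfl hQ.zero e2
    ((isCoprime_mul_unit_left_left e1 _ _).2 hc)
  refine ⟨ω ^ c * ε, (w_unit.pow c).mul e1, ?_⟩
  rw [tr, tr, ← hk Qb (de a), mul_sum]
  refine sum_congr rfl fun y hy => ?_
  have hy' := (Xs_trv (UM_open h.ne) (UM_le _)).1 y hy
  rw [mul_smul, ← mul_smul, ← eta_smul χ hy' u]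
  exact (((H.THI a ha).1 _ _ ((w_unit.pow c).mul e1)).2
    ((h1.eta χ hy').gd H.CYG h.ne (three_XNRS r)).ne).symm

end Pool.Agent.MP_e23604_nt.W

end

section

set_option autoImplicit false

open Finset QuadraticAlgebra
open scoped Classical

namespace Pool.Agent.MP_e23604_nt.W

open B R S

section
variable {R : Type} [CommRing R] {N : ℕ} {j : ZMod N →+* R} {U H : Subgroup GQ} {lam : GQ → R}

/-- the hypotheses of the transfer -/
def Tr_XTFR (κ : GQ → R) (U H : Subgroup GQ) (c : GQ → GQ → GQ → R) : Prop :=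
  (∀ g ∈ H, ∀ h ∈ H, ∀ y ∈ GK, ∀ u ∈ U, c g h (y * u) = c g h y) ∧
  (∃ N, ON N ∧ ∀ y ∈ GK,
    (∀ g ∈ H, Cst N H fun h => c g h y) ∧ ∀ h ∈ H, Cst N H fun g => c g h y) ∧
  ∀ g ∈ H, ∀ h ∈ H, ∀ k ∈ H, ∀ y ∈ GK,
    κ g * c h k y - c (g * h) k y + c g (h * k) y - c g h (k * y) = 0

theorem add_XTFR {κ : GQ → R} {c c' : GQ → GQ → GQ → R} (h : Tr_XTFR κ U H c)
    (h' : Tr_XTFR κ U H c') : Tr_XTFR κ U H fun g h y => c g h y + c' g h y := by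
  obtain ⟨a1, ⟨M, a2, a3⟩, a4⟩ := h
  obtain ⟨b1, ⟨M', b2, b3⟩, b4⟩ := h'
  refine ⟨fun g hg k hk y hy u hu => ?_, ⟨M ⊓ M', a2.inf b2, fun y hy =>
    ⟨fun g hg k hk k' hk' e => ?_, fun g hg k hk k' hk' e => ?_⟩⟩,
    fun g hg k hk l hl y hy => ?_⟩
  · simp only [a1 g hg k hk y hy u hu, b1 g hg k hk y hy u hu]
  · exact congrArg₂ (· + ·) ((a3 y hy).1 g hg k hk k' hk' e.1) ((b3 y hy).1 g hg k hk k' hk' e.2)
  · exact congrArg₂ (· + ·) ((a3 y hy).2 g hg k hk k' hk' e.1) ((b3 y hy).2 g hg k hk k' hk' e.2)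
  · linear_combination a4 g hg k hk l hl y hy + b4 g hg k hk l hl y hy

theorem grp_XTFR (hG : GRP_st) (h : Chr j U lam) (hH : H ≤ GK) {c : GQ → GQ → GQ → R}
    (hc : Tr_XTFR (cj j) U H c) : Co2 (cj j) H (fun g h => ∑ y ∈ Xs U GK, c g h y) ∧
    ((∀ y ∈ GK, Bo2 (cj j) (H ⊓ U) fun g h => c g h y) →
      Bo2 (cj j) H fun g h => ∑ y ∈ Xs U GK, c g h y) := by
  obtain ⟨a1, ⟨M, a2, a3⟩, a4⟩ := hc
  exact hG R (cj j) U GK H M c h.opn (fun _ a _ b => h.nrm a b) a2 h.le hH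
    ⟨(cy_lc N H).map j, by rw [cj, cy_one h.pos, map_one],
      fun g _ k _ => by rw [cj, cy_mul h.pos, map_mul, cj, cj]⟩ a1 a3 a4

theorem mid_XTFR (h : Chr j U lam) {β : Qb} (hβ : Fix U β) (g : GQ) {y u : GQ} (hy : y ∈ GK)
    (hu : u ∈ U) : (g * u * y) β = (g * y) β := by
  simp only [AlgEquiv.mul_apply, h.fix hβ hy u hu]

theorem gen_XTFR (h : Chr j U lam) (hH : H ≤ GK) {β : Qb} (h0 : β ≠ 0) (hβ : Fix U β)
    {s : GQ → GQ → R} (s1 : ∀ g ∈ H, ∀ k ∈ H, ∀ y ∈ GK, s (g * k) y = s g (k * y) + s k y)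
    (s2 : ∀ k ∈ H, ∀ y ∈ GK, ∀ u ∈ U, s k (y * u) = s k y) {M : Subgroup GQ} (hM : ON M)
    (s3 : ∀ y ∈ GK, ∀ k ∈ H, ∀ u ∈ U, u ∈ M → k * u ∈ H → s (k * u) y = s k y) :
    Tr_XTFR (cj j) U H fun g k y => j (km N g ((k * y) β)) * s k y := by
  obtain ⟨N1, a1, a2⟩ := ex_ON h.opn
  obtain ⟨N2, b1, b2⟩ := exists_ON_fix ((Xs U GK).image fun z => rt N (z β))
  refine ⟨fun g _ k hk y hy u hu => ?_, ⟨N1 ⊓ N2 ⊓ M, (a1.inf b1).inf hM, fun y hy =>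
    ⟨fun g _ k hk k' hk' e => ?_, fun k hk g _ g' _ e => ?_⟩⟩, fun g _ k hk l hl y hy => ?_⟩
  · simp only [s2 k hk y hy u hu, AlgEquiv.mul_apply, hβ u hu]
  · have e1 := s3 y hy k hk _ (a2 e.1.1) e.2 (by rwa [mul_inv_cancel_left])
    have e2 := mid_XTFR h hβ k hy (a2 e.1.1)
    rw [mul_inv_cancel_left] at e1 e2
    simp only [e1, e2]
  · obtain ⟨z, ⟨z1, z2⟩, -⟩ := h.trv.2 _ (GK.mul_mem (hH hk) hy)
    have e1 : (k * y) β = z β := by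
      rw [← mul_inv_cancel_left z (k * y), AlgEquiv.mul_apply, hβ _ z2]
    have e2 := b2 _ (mem_image_of_mem _ z1) _ e.1.2
    have e3 := h.fix hβ (h.trv.1 z z1) _ (a2 e.1.1)
    beta_reduce
    rw [e1, ← mul_inv_cancel_left g g', km, km, AlgEquiv.mul_apply g, AlgEquiv.mul_apply g, e2, e3]
  · beta_reduce
    rw [km_mul h.pos g k ((map_ne_zero _).2 h0), s1 k hk l hl y hy, mul_assoc k l,
      ← AlgEquiv.mul_apply, map_add, map_mul, cj]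
    ring

theorem bo_XTFR {κ : GQ → R} {f f' : GQ → GQ → R} (h : Bo2 κ H f)
    (e : ∀ g ∈ H, ∀ k ∈ H, f' g k = f g k) : Bo2 κ H f' :=
  h.imp fun _ hb => ⟨hb.1, fun g hg k hk => (e g hg k hk).trans (hb.2 g hg k hk)⟩

theorem ext_XTFR (h : Chr j U lam) {A : GQ → R} (hA : Adt U A) :
    ∃ T : GQ → R, ∀ g ∈ GK, ∀ u ∈ U, T (g * u) = T g + A u := by
  have : ∀ g, ∃ z, g ∈ GK → z ∈ Xs U GK ∧ z⁻¹ * g ∈ U := fun g => by
    by_cases hg : g ∈ GK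
    · exact (h.trv.2 g hg).exists.imp fun _ e _ => e
    · exact ⟨1, fun e => absurd e hg⟩
  choose r hr using this
  refine ⟨fun g => A ((r g)⁻¹ * g), fun g hg u hu => ?_⟩
  have h1 := GK.mul_mem hg (h.le hu)
  have e : r (g * u) = r g := (h.trv.2 _ h1).unique (hr _ h1)
    ⟨(hr g hg).1, by rw [← mul_assoc]; exact U.mul_mem (hr g hg).2 hu⟩
  simp only [e]
  rw [← mul_assoc, hA _ (hr g hg).2 u hu]

end

theorem TFR_pf (H : H5) : TFR_st := by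
  intro R _ N j U lam A α h hA ⟨M, hM, lA⟩ cA h0 hα
  have hT := h.trv
  obtain ⟨T, t1⟩ := ext_XTFR h hA
  have t2 : ∀ g ∈ GK, ∀ y ∈ GK, ∀ u ∈ U, T (g * u * y) = T (g * y) + A u := by
    intro g hg y hy u hu
    rw [← cA y hy u hu, ← t1 _ (GK.mul_mem hg hy) _ (h.nrm hy hu)]
    congr 1
    group
  have t3 : ∀ y ∈ GK, ∀ u ∈ U, T (u * y) - T y = A u := fun y hy u hu => by
    have := t2 1 GK.one_mem y hy u hu
    rw [one_mul, one_mul] at this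
    rw [this, add_sub_cancel_left]
  have t4 : ∀ y ∈ GK, ∀ u ∈ U, ∀ β : Qb, Fix U β → (u * y) β = y β := fun y hy u hu β hβ =>
    h.fix hβ hy u hu
  have A1 : A 1 = 0 := by simpa using hA 1 U.one_mem 1 U.one_mem
  have c1 : ∀ K ≤ GK, Tr_XTFR (cj j) U K
      fun g k y => j (km N g ((k * y) α)) * (T (k * y) - T y) := fun K hK =>
    gen_XTFR h hK h0 hα (s := fun k y => T (k * y) - T y)
      (fun g _ k _ y _ => by rw [mul_assoc]; ring)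
      (fun k hk y hy u hu => by
        rw [← mul_assoc, t1 _ (GK.mul_mem (hK hk) hy) u hu, t1 y hy u hu]; ring) hM
      fun y hy k hk u hu hu' _ => by
        rw [t2 k (hK hk) y hy u hu, ← lA 1 U.one_mem u hu (by simpa using hu'), A1, add_zero]
  have li : ∀ g ∈ GK, lam g⁻¹ * lam g = 1 := fun g hg => by
    rw [← h.mul _ (GK.inv_mem hg) g hg, inv_mul_cancel, h.one 1 U.one_mem]
  refine ⟨fun g k => ∑ y ∈ Xs U GK, j (km N g ((k * y) α)) * (T (k * y) - T y),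
    (grp_XTFR H.GRP h le_rfl (c1 _ le_rfl)).1, fun K θ κ hK θ0 hθ ⟨⟨M', hM', lκ⟩, hκ⟩ hb => ?_,
    fun K hK hz => (grp_XTFR H.GRP h hK (c1 K hK)).2 fun y hy =>
      ⟨fun _ => 0, Lc.const _ _, fun g hg k hk => ?_⟩, fun g hg k hk => ?_,
    fun W hN hI hz hv g hg k hk τ hτ => ⟨sum_congr rfl fun y hy => ?_,
      sum_congr rfl fun y hy => ?_⟩⟩
  · have c2 := gen_XTFR h hK θ0 hθ (s := fun k y => lam (k * y)⁻¹ * κ k)
      (fun g hg k hk y hy => by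
        rw [hκ g hg k hk, mul_assoc, h.inv_mul (hK hg) (GK.mul_mem (hK hk) hy)]
        linear_combination lam (k * y)⁻¹ * κ k * li g (hK hg))
      (fun k hk y hy u hu => by rw [← mul_assoc, h.mul_U (GK.mul_mem (hK hk) hy) hu]) hM'
      fun y hy k hk u hu hu' hk' => by
        rw [h.inv_mul (hK hk') hy, h.mul_U (hK hk) hu, h.inv_mul (hK hk) hy,
          lκ k hk _ hk' (by rwa [inv_mul_cancel_left])]
    refine bo_XTFR ((grp_XTFR H.GRP h hK (add_XTFR (c1 K hK) c2)).2 fun y hy =>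
      bo_XTFR (hb y hy) fun g _ k hk => ?_) fun g hg k hk => ?_
    · rw [t3 y hy k hk.2, t4 y hy k hk.2 α hα, t4 y hy k hk.2 θ hθ, h.inv_mul (hK hk.1) hy,
        h.one _ (U.inv_mem hk.2)]
      ring
    · rw [sum_add_distrib, hT.sum_mul (F := fun y => j (km N g (y θ)) * (lam y⁻¹ * κ k))
        (fun y hy u hu => by simp only [h.mul_U hy hu, AlgEquiv.mul_apply, hθ u hu]) (hK hk),
        cup, zc, sum_mul, sum_mul]
      refine congrArg _ (sum_congr rfl fun y hy => ?_)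
      rw [h.inv_mul (hK hg) (hT.1 y hy)]
      linear_combination lam y⁻¹ * j (km N g (y θ)) * κ k * li g (hK hg)
  · beta_reduce
    rw [hz _ (GK.mul_mem (hK hk.1) hy) g hg]
    simp
  · beta_reduce
    rw [km_prod h.pos g _ fun y _ => (map_ne_zero y).2 h0, h.cyc g hg, one_mul,
      show df N (Xs U GK) (fun y => g (y α)) = df N (Xs U GK) fun y => y α by
        rw [df, df, prod_congr rfl fun y hy => h.fix hα (hT.1 y hy) g hg,
          prod_congr rfl fun y hy => congrArg (rt N) (h.fix hα (hT.1 y hy) g hg)],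
      add_sub_cancel_right, map_sum, sum_mul]
    exact sum_congr rfl fun y hy => by
      rw [t3 y (hT.1 y hy) k hk, t4 y (hT.1 y hy) k hk α hα]
  · have h1 := GK.mul_mem (W.D_le hk) (hT.1 y hy)
    have h2 := h.fix hα h1 τ (hI hτ)
    rw [km_mul h.pos g τ ((map_ne_zero _).2 h0), km_ine W hN hτ.1 (hv _ h1) h2, h2, mul_zero,
      zero_add]
  · rw [mid_XTFR h hα k (hT.1 y hy) (hI hτ), t2 k (W.D_le hk) y (hT.1 y hy) τ (hI hτ), hz τ hτ,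
      add_zero]

end Pool.Agent.MP_e23604_nt.W

end

section

/-!
Two consequences of the explicit reciprocity law.
-/

set_option autoImplicit false

open Finset QuadraticAlgebra
open scoped Classical

namespace Pool.Agent.MP_e23604_nt.W

open B R S

theorem key_XEXA (hNRE : NRE_st) {R : Type} [CommRing R] {χ : GQ → ZMod 3} {r p n m : ℕ}
    {a M b ν : Zw} {Q' P : Pt} {φ : Zw →+* R} {V : Plc} (hX : XD χ r p n m a M b Q' φ)
    (hP : LP χ p n V P)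
    (h : V.v (io (1 + M * ν) - ∏ x ∈ Xs (UM M) GK, eP χ a ((p : Zw) ^ n • Q') P x) <
      V.v (io M) * V.v p ^ n) :
    ∃ c : Qb, V.v (io M) ≤ V.v c * V.v p ∧ V.v (io M * io ν -
      2 * c * zz P * tr χ a (9 * r) ((p : Zw) ^ m • (p : Zw) ^ n • Q')) ≤ V.v (io M) * V.v p ^ n := by
  obtain ⟨c, h1, h2⟩ := hNRE χ r p n m a M _ P V hX.tw hX.pp (hX.n2.trans hX.nm) hX.hM hX.cop
    hX.genQ hP
  refine ⟨c, h1, ?_⟩
  have := bLocA_add_le V.na h.le h2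
  rw [map_add io, map_one io, map_mul io] at this
  convert this using 2
  ring

theorem pos_XEXA {R : Type} [CommRing R] {χ : GQ → ZMod 3} {r p n m : ℕ} {a M b : Zw} {Q' : Pt}
    {φ : Zw →+* R} (hX : XD χ r p n m a M b Q' φ) (V : Plc) :
    0 < V.v (io M) ∧ 0 < V.v p :=
  ⟨V.v.pos (io_ne hX.ne), V.v.pos (Nat.cast_ne_zero.2 hX.pp.ne_zero)⟩

theorem dvd_XEXA (V : Plc) {b c : Zw} (h : b ∣ c) : V.v (io c) ≤ V.v (io b) := by
  obtain ⟨d, rfl⟩ := h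
  rw [map_mul, map_mul]
  exact mul_le_of_le_one_right (V.v.nonneg _) (V.io_le d)

theorem EXA_pf (_H : H5) (hNRE : NRE_st) (hEXR : EXR_st) : EXA_st := by
  intro R _ χ r p n m a M b ϖ s Q' P' φ j V y hX hR hU
  obtain ⟨m0, p0⟩ := pos_XEXA hX V
  obtain ⟨ν, h1, h2⟩ := hEXR R χ r p n m a M b ϖ Q' P' φ j V y (φ s) ∅ (fun _ => V) (fun _ => 1)
    (fun _ => 1) _ hX hR (by simpa using hU) (by simp) (mul_pos m0 (pow_pos p0 n))
  obtain ⟨c, h3, h4⟩ := key_XEXA hNRE hX hR.lp h1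
  have h5 : V.v (io (4 * (s * ν))) ≤ V.v (io b) :=
    dvd_XEXA V ((hX.qt.ker _).1 (by simpa [map_ofNat] using h2))
  have h6 : V.v p ^ n ≤ V.v (io b) := by simpa using dvd_XEXA V hX.bp
  set z := zz ((p : Zw) ^ n • P')
  set L := tr χ a (9 * r) ((p : Zw) ^ m • (p : Zw) ^ n • Q')
  have h7 : V.v (c * (8 * io s * z * L)) ≤ V.v (io M) * V.v (io b) := by
    have e : c * (8 * io s * z * L) =
        io M * io (4 * (s * ν)) - io (4 * s) * (io M * io ν - 2 * c * z * L) := by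
      simp only [map_mul, map_ofNat]
      ring
    rw [e]
    refine bLocA_sub_le V.na ?_ ?_
    · rw [map_mul]
      exact mul_le_mul_of_nonneg_left h5 m0.le
    · exact (bLocA_mul_le (V.io_le _)).trans (h4.trans (mul_le_mul_of_nonneg_left h6 m0.le))
  rw [map_mul] at h7
  refine le_of_mul_le_mul_left ?_ m0
  calc V.v (io M) * V.v (8 * io s * z * L) ≤ V.v c * V.v p * V.v (8 * io s * z * L) :=
        mul_le_mul_of_nonneg_right h3 (V.v.nonneg _)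
    _ = V.v c * V.v (8 * io s * z * L) * V.v p := by ring
    _ ≤ V.v (io M) * V.v (io b) * V.v p := mul_le_mul_of_nonneg_right h7 p0.le
    _ = _ := mul_assoc _ _ _

theorem EXB_pf (H : H5) (hNRE : NRE_st) (hEXR : EXR_st) : EXB_st := by
  intro R _ χ r n m a M q Q' P' φ j W σ τ y s hX hR hU h1 h2 h3 h4 h5 hL
  obtain ⟨m0, p0⟩ := pos_XEXA hX V3
  obtain ⟨ν, h6, h7⟩ := hEXR R χ r 3 n m a M _ pw Q' P' φ j V3 y s {q} (fun _ => W) (fun _ => σ)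
    (fun _ => τ) _ hX hR (by simpa using hU)
    (fun q' hq => by rw [mem_singleton.1 hq]; exact ⟨h1, h2, h3, h4, h5⟩) (mul_pos m0 (pow_pos p0 n))
  obtain ⟨c, -, h8⟩ := key_XEXA hNRE hX hR.lp h6
  rw [hL, mul_zero, sub_zero, map_mul] at h8
  have h9 : pw ^ (2 * n) ∣ ν := by
    refine ((H.PLK.2.2.1 V3 pw pw_prime hR.ov).2.2.2.2.2.1 ν _).2
      ((le_of_mul_le_mul_left h8 m0).trans_eq ?_)
    rw [pow_mul, ← map_pow V3.v (io pw), io_pw_sq, V3.v.map_neg, Nat.cast_ofNat]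
  rw [(hX.qt.ker ν).2 ((pw_three n).dvd.trans h9), mul_zero, mul_zero, sum_singleton] at h7
  exact h7.symm

end Pool.Agent.MP_e23604_nt.W

end

section

set_option autoImplicit false

open Finset QuadraticAlgebra
open scoped Classical

namespace Pool.Agent.MP_e23604_nt.W

open B R S

theorem STR_pf (H : H5) (hCOI : COI_st) (hDVF : DVF_st) : STR_st := by
  intro R _ φ χ r M b c N G V x tw hM hr hbc cop gen hφ hV hx hk hE
  obtain ⟨P, hP⟩ := hx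
  obtain ⟨d, c', e⟩ := cop
  have f0 : Fx χ V.D ((b * c) • P) := fun g hg => by
    have h1 := hk g hg
    rwa [hP g hg, smul_sub, sub_eq_zero, ← eta_smul χ (V.D_le hg)] at h1
  have e1 : E1 V.v (c' • N • (b * c) • P) := (E1m (hE _ f0) c').1
  have hb := not_Ov.1 hV
  obtain ⟨R', -, f1, h1, -⟩ := hDVF χ V b 1 _ _ (ne_of_not_Ov hV) e1
    ((f0.smul V.D_le N).smul V.D_le c') (by rw [hb, one_pow, one_mul])
    (by rw [hb]; exact pow_lt_one₀ (V.v.nonneg _) (zz_lt e1) three_ne_zero)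
  have hT : (b * c) • ((c' * c * N) • P - R') = 0 := by
    refine dvd_smul (a := b) ?_ (dvd_mul_right _ _)
    rw [pow_one] at h1
    rw [smul_sub, h1, smul_smul, smul_smul, smul_smul, ← sub_smul]
    convert zero_smul Zw P using 2
    ring
  obtain ⟨-, c1, c2⟩ := hCOI R φ (b * c) G (ne_zero_of_dvd_ne_zero hM hbc) gen
    (by rw [map_mul, hφ, zero_mul])
  have he : φ (c' * c) = 1 := by
    have := congrArg φ e
    rwa [map_add, map_mul φ d, hφ, mul_zero, zero_add, map_one] at this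
  refine ⟨ic φ G ((c' * c * N) • P - R'), fun g hg => ?_⟩
  have h2 : bd χ ((c' * c * N) • P - R') g = (c' * c * N) • x g := by
    rw [bd_sub, bd_smul (V.D_le hg), hP g hg, bd, bd, f1 g hg, sub_self, sub_zero]
  rw [← ((c2 χ r M tw hM hr hbc).1 g (V.D_le hg) _ hT).2, h2, (c1 _ (hk g hg)).2.1, map_mul, he,
    one_mul]

theorem BZC_pf (H : H5) : BZC_st := by
  intro χ x hχ
  refine ⟨fun b N V hu hV hx hN τ hτ => ?_, fun V V' ϖ hc hϖ hV hV' hx => ?_⟩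
  · obtain ⟨P, hP⟩ := hx
    rw [Ov_mul, Ov_mul, not_or, not_or] at hV
    refine E1_tor (V := V) ?_ hV.2 (hN τ (V.I_le hτ))
    rw [hP τ (V.I_le hτ), eta_apply, hu V hV.1.2 τ hτ, ZMod.val_zero, pow_zero, one_smul]
    exact (H.INE V hV.1.1 τ hτ).1 P
  · obtain ⟨P, hP⟩ := hx
    obtain ⟨-, k, hk, hv⟩ := (H.PLK.2.2.1 V ϖ hϖ hV).2.1 V' hV'
    obtain ⟨-, hD, -⟩ := (H.PLK.2.2.2.2.1 V' (V.mv k)).2 hv
    refine ⟨eta χ k⁻¹ (P + x k), fun s hs => ?_⟩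
    have hs' := V'.D_le hs
    have hg : k * s * k⁻¹ ∈ V.D := (V.mv_D k s).1 (hD ▸ hs)
    have h1 := hc.2 _ (V.D_le hg) _ hk
    rw [inv_mul_cancel_right, hc.2 _ hk _ hs', hP _ hg] at h1
    have h2 : eta χ k (x s) = eta χ (k * s * k⁻¹) (P + x k) - (P + x k) := by
      rw [map_add, eq_sub_of_add_eq' h1]
      abel
    have h3 := congrArg (eta χ k⁻¹) h2
    rwa [map_sub, ← eta_mul hχ (GK.inv_mem hk) hk, inv_mul_cancel, eta_one hχ,
      ← eta_mul hχ (GK.inv_mem hk) (V.D_le hg), mul_assoc k, inv_mul_cancel_left,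
      eta_mul hχ hs' (GK.inv_mem hk)] at h3

theorem co_XSTR {R : Type} [CommRing R] {θ y : GQ → R} {D : Subgroup GQ} (hθ : Mu D θ)
    (hy : Co θ D y) (a t : R) : Co θ D fun g => a * y g + (θ g - 1) * t :=
  ⟨hy.1.map₂ hθ.1 fun u v => a * u + (v - 1) * t, fun g hg h hh => by
    simp only [hy.2 g hg h hh, hθ.2.2 g hg h hh]
    ring⟩

theorem RST_pf (H : H5) : RST_st := by
  intro R _ φ χ r n M V y tw hn hM hr h3 h0 hV hy
  have l3 : V.l ≠ 3 := fun e => tw.n3 (e ▸ (H.PLK.2.2.2.1 V r).1 hV)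
  have n3 : ¬ Ov V 3 := fun e => l3 ((Nat.prime_dvd_prime_iff_eq V.hl.out Nat.prime_three).1
    ((H.PLK.2.2.2.1 V 3).1 (by simpa using e)))
  obtain ⟨ϖ, hϖ, ho, -⟩ := H.PLK.1 V
  obtain ⟨σ, hσ⟩ := (H.FRK V ϖ hϖ ho).1
  obtain ⟨τ, hτ, hχ⟩ := tw.ram V hV
  have hI : V.I ≤ GK := V.I_le.trans V.D_le
  have hk : km 3 τ V.l ≠ 0 := fun e => by
    obtain ⟨-, ⟨τ₀, h1, h2⟩, -, -, -, h4⟩ := H.TAME 3 1 V Nat.prime_three l3 l3
    have h5 := h4 (ZMod 3) χ (tw.add.mono hI) (tw.lc.mono hI)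
      (fun u _ => by rw [nsmul_eq_mul]; exact mul_eq_zero_of_left rfl _) τ₀ h1 h2 τ hτ
    have e' : km (3 ^ 1) τ V.l = 0 := e
    rw [e', ZMod.val_zero, zero_smul] at h5
    exact hχ h5
  have φn : φ (3 ^ n) = 0 := by rw [map_pow, map_ofNat, h0]
  have φd : ∀ a : Zw, 3 ^ n ∣ a → φ a = 0 := by
    rintro _ ⟨c, rfl⟩
    rw [map_mul, φn, zero_mul]
  obtain ⟨j⟩ := ex_j (R := R) (n := 3 ^ n) (by simpa using h0)
  have mu : Mu GK (lamZ φ χ M) := (H.ZC R _ j _ _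
    (((H.LZ χ r M tw hM hr).2.2 R φ (φd M h3)).1 _ j (by simpa using h3)).1).1.1
  have mu' : Mu V.D (lamZ φ χ M) :=
    ⟨mu.1.mono V.D_le, mu.2.1, fun g hg h hh => mu.2.2 g (V.D_le hg) h (V.D_le hh)⟩
  have hp : ∀ g ∈ V.D, lamZ φ χ M g ^ 3 ^ n = 1 := fun g hg => by
    have h1 : Pry (ps M g) := ((H.PS M hM).1 g (V.D_le hg)).2.2.1
      ((dvd_pow_self _ (by omega)).trans h3)
    have h2 := dvd_sub_pow_of_dvd_sub (p := 3) (a := ps M g) (b := 1) h1 n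
    have h4 := φd _ ((pow_dvd_pow _ n.le_succ).trans (by simpa using h2))
    obtain ⟨m, rfl⟩ := Nat.exists_eq_add_of_le' hn
    rw [map_sub, map_one, sub_eq_zero] at h4
    rw [lamZ, ← map_pow, mul_pow, map_mul, h4, mul_one, ← pow_mul, mul_comm, pow_mul, pow_succ',
      pow_mul, www, one_pow, one_pow, map_one]
  have hq : lamZ φ χ M τ ^ 2 + lamZ φ χ M τ + 1 = 0 := by
    have n0 : (3 : Zw) ^ n ≠ 0 := ne_zero_of_dvd_ne_zero hM h3
    obtain ⟨-, -, -, p1, -, -, -, -, p2⟩ := (H.PS _ n0).1 τ (hI hτ)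
    have h1 := φd _ (dvd_add (p2 M hM h3)
      (p1.1 ((H.INE V n3 τ hτ).2.2 _ fun e => n3 (Ov_pow e))))
    rw [sub_add_sub_cancel, map_sub, map_one, sub_eq_zero] at h1
    have h2 : φ ω ^ 2 + φ ω + 1 = 0 := by simpa using congrArg φ ww
    rw [lamZ, map_mul, h1, mul_one, map_pow]
    rcases z3 (χ τ) with e | e | e
    · exact absurd e hχ
    · rw [e, show (1 : ZMod 3).val = 1 from rfl, pow_one, h2]
    · rw [e, show (2 : ZMod 3).val = 2 from rfl]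
      linear_combination (φ ω ^ 2 - φ ω + 1) * h2
  have T := (H.TPR 3 n R V ϖ σ τ (lamZ φ χ M) Nat.prime_three l3 l3 hϖ ho hσ hτ hk
    (by simpa using h0) mu' hp).1
  have t1 := (T _ (co_XSTR mu' hy (1 - lamZ φ χ M τ) (y τ))).1
  have t2 := (T _ (co_XSTR mu' hy ((1 - lamZ φ χ M τ) ^ 2) ((1 - lamZ φ χ M τ) * y τ))).2.1
    (by linear_combination t1) (by ring)
  refine ⟨lamZ φ χ M τ ^ 2 * (1 - lamZ φ χ M τ) * y τ, fun g hg => ?_⟩
  linear_combination (-lamZ φ χ M τ ^ 2) * t2 g hg +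
    y g * (lamZ φ χ M τ ^ 2 - 3 * lamZ φ χ M τ + 3) * hq

end Pool.Agent.MP_e23604_nt.W

end

section

/-!
The number of classes without new ramification.
-/

set_option autoImplicit false

open Finset QuadraticAlgebra
open scoped Classical

namespace Pool.Agent.MP_e23604_nt.W

open B R S

theorem count_XKER {X W A : Type} [AddCommGroup A] [Finite W] [Finite A] {d : ℕ} (S : Set X)
    (P : X → W → Prop) (ev : X → Fin d → A) (T : A → Prop) (h1 : ∀ s ∈ S, ∃ w, P s w)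
    (h2 : ∀ s ∈ S, ∀ s' ∈ S, ∀ w, P s w → P s' w → ∀ i, T (ev s i - ev s' i))
    (h3 : ∀ s ∈ S, ∀ s' ∈ S, ev s = ev s' → s = s') :
    S.encard ≤ ((Nat.card {x // T x} ^ d * Nat.card W : ℕ) : ℕ∞) := by
  choose wf hw using h1
  have hb : ∀ s : S, ∃ s' ∈ S, P s' (wf s.1 s.2) := fun s => ⟨s.1, s.2, hw s.1 s.2⟩
  let bs : ∀ w : W, (∃ s' ∈ S, P s' w) → X := fun w h => h.choose
  have hbs : ∀ w h, bs w h ∈ S ∧ P (bs w h) w := fun w h => h.choose_spec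
  let F : S → (Fin d → {x // T x}) × W := fun s =>
    (fun i => ⟨ev s.1 i - ev (bs _ (hb s)) i,
      h2 _ s.2 _ (hbs _ _).1 _ (hw s.1 s.2) (hbs _ _).2 i⟩, wf s.1 s.2)
  have hF : Function.Injective F := fun s s' e => by
    have e2 : wf s.1 s.2 = wf s'.1 s'.2 := congrArg Prod.snd e
    have e3 : bs _ (hb s) = bs _ (hb s') := by
      have key : ∀ (w w' : W) (h : ∃ s' ∈ S, P s' w) (h' : ∃ s' ∈ S, P s' w'), w = w' →
          bs w h = bs w' h' := fun w w' h h' e => by subst e; rfl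
      exact key _ _ _ _ e2
    refine Subtype.ext (h3 _ s.2 _ s'.2 (funext fun i => ?_))
    have e4 : ev s.1 i - ev (bs _ (hb s)) i = ev s'.1 i - ev (bs _ (hb s')) i :=
      congrArg Subtype.val (congrFun (congrArg Prod.fst e) i)
    rw [e3] at e4
    exact sub_left_injective e4
  have := ENat.card_le_card_of_injective hF
  rw [ENat.card_eq_coe_natCard ((Fin d → {x // T x}) × W), Nat.card_prod, Nat.card_fun,
    Nat.card_eq_fintype_card (α := Fin d), Fintype.card_fin] at this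
  exact this

theorem ann_XKER {R : Type} [CommRing R] {φ : Zw →+* R} {n : ℕ} (h : Qt φ (3 ^ n)) (hn : 0 < n)
    (k : ℕ) : Nat.card {x : R // (3 : R) ^ k * x = 0} ≤ 9 ^ k := by
  obtain ⟨hc, hk⟩ := h.chn3 hn
  have e : (3 : R) ^ k = (-1) ^ k * φ pw ^ (2 * k) := by
    rw [pow_mul, ← map_pow, pw_sq, map_neg, map_ofNat, ← mul_pow]
    norm_num
  rw [hc.card_ann, hk, e, vl_unit (isUnit_one.neg.pow k), hc.vl_pow, show (9 : ℕ) = 3 ^ 2 by norm_num,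
    ← pow_mul]
  exact Nat.pow_le_pow_right (by norm_num) (min_le_right _ _)

theorem tors_XKER (hCOJ : COJ_st) {χ : GQ → ZMod 3} {r i n : ℕ} (tw : Tw χ r) {P : Pt}
    (hi : (3 : Zw) ^ i • P = 0) (h : ∀ g ∈ GK, (3 : Zw) ^ n • bd χ P g = 0) :
    (3 : Zw) ^ n • (9 : Zw) • P = 0 := by
  have h0 : (3 : Zw) ^ i * (9 * r) ≠ 0 := mul_ne_zero (pow_ne_zero _ (by decide)) tw.ne
  have c1 : IsCoprime (1 + 9 * r : Zw) 3 := ⟨1, -(3 * r), by ring⟩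
  have c2 : IsCoprime (1 + 9 * r : Zw) (9 * r) := ⟨1, -1, by ring⟩
  obtain ⟨g, hg, -, e⟩ := (hCOJ χ r _ tw h0 (dvd_mul_left _ _)).2.1 (1 + 9 * r) (by simp)
    (c1.pow_right.mul_right c2)
  have e1 := h g hg
  rw [bd, e P (dvd_smul hi (dvd_mul_right _ _)), add_smul, one_smul, add_sub_cancel_left] at e1
  have c3 : IsCoprime (r : Zw) 3 := by
    have := Nat.Coprime.cast (R := Zw) ((Nat.Prime.coprime_iff_not_dvd Nat.prime_three).2 tw.n3).symm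
    simpa using this
  refine cop_smul (c3.pow_right (n := i)) ?_ ?_
  · rw [← e1, ← mul_smul, ← mul_smul, ← mul_smul]
    congr 1
    ring
  · rw [smul_comm, smul_comm ((3 : Zw) ^ i), hi, smul_zero, smul_zero]

theorem step_XKER (hCOI : COI_st) (hCOJ : COJ_st) (hBZC : BZC_st) (hRST : RST_st)
    {χ : GQ → ZMod 3} {r k₀ : ℕ} (tw : Tw χ r)
    (hk : ∀ (k : ℕ) (x : GQ → Pt), SelU χ r x → (∀ g ∈ GK, 3 ^ k • x g = 0) →
      ∃ P : Pt, (∃ i : ℕ, 3 ^ i • P = 0) ∧ ∀ g ∈ GK, 3 ^ k₀ • x g = eta χ g P - P)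
    {R : Type} [CommRing R] {n : ℕ} {M : Zw} {G : Pt} {φ : Zw →+* R} (D : D3 r n M G φ)
    {y : GQ → R} (hc : Co (lamZ φ χ M) GK y) (hu : Unr (3 * r) y) {P : Pt}
    (hP : Fx χ V3.D ((3 : Zw) ^ n • P)) (hy : ∀ g ∈ V3.D, y g = ic φ G (bd χ P g)) :
    ∃ w : R, ∀ g ∈ GK, (3 : R) ^ (k₀ + 3) * y g = (lamZ φ χ M g - 1) * w := by
  have hN : (3 : Zw) ^ n ≠ 0 := pow_ne_zero _ (by decide)
  have hφ : φ (3 ^ n) = 0 := (D.qt.ker _).2 dvd_rfl
  have h3n : (3 : R) ^ n = 0 := by simpa [map_ofNat] using hφ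
  have nsm : ∀ (k : ℕ) (T : Pt), 3 ^ k • T = (3 : Zw) ^ k • T := fun k T => by
    rw [← Nat.cast_smul_eq_nsmul Zw]
    simp
  obtain ⟨h1, h2, h3⟩ := hCOI R φ _ G hN D.gen hφ
  obtain ⟨h4, h5⟩ := h3 χ r M tw D.ne D.dr D.dn
  obtain ⟨X, hX, hX'⟩ := (h5 GK le_rfl).2.2 y D.qt hc
  have inj : ∀ T T' : Pt, (3 : Zw) ^ n • T = 0 → (3 : Zw) ^ n • T' = 0 → ic φ G T = ic φ G T' →
      T = T' := fun T T' a b e => by
    rw [← sub_eq_zero]
    refine (h2 _ (by rw [smul_sub, a, b, sub_zero])).2.2.1 D.qt ?_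
    rw [((h2 T a).2.2.2 T' b).2, e, sub_self]
  have k3 : ∀ g, (3 : Zw) ^ n • (3 : Zw) • X g = 0 := fun g => by
    rw [smul_comm, (hX' g).1, smul_zero]
  have cz : Cz χ GK fun g => (3 : Zw) • X g :=
    ⟨hX.1.map fun T => (3 : Zw) • T, fun g hg h hh => by
      simp only [hX.2 g hg h hh, smul_add, eta_smul χ hg]⟩
  have sel : SelU χ r fun g => (3 : Zw) • X g := by
    refine ⟨cz, fun V hV τ hτ => ?_, fun V hV => ?_⟩
    · have : X τ = 0 := (h2 _ (hX' τ).1).2.2.1 D.qt ((hX' τ).2.trans (hu V hV τ hτ))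
      simp only [this, smul_zero]
    · rcases Ov_mul.1 hV with hV | hV
      · refine (hBZC χ _ tw.add).2 V3 V pw cz pw_prime (Ov_three.1 V3_three) (Ov_three.1 hV)
          ⟨(3 : Zw) • P, fun g hg => ?_⟩
        have e : X g = bd χ P g := inj _ _ (hX' g).1
          (((h5 V3.D V3.D_le).2.1 P hP).1 g hg) ((hX' g).2.trans (hy g hg))
        change (3 : Zw) • X g = bd χ ((3 : Zw) • P) g
        rw [e, bd_smul (V3.D_le hg)]
      · obtain ⟨m, hm⟩ := hRST R φ χ r n M V y tw D.pos D.ne D.dr D.dn h3n hV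
          ⟨hc.1.mono V.D_le, fun g hg h hh => hc.2 g (V.D_le hg) h (V.D_le hh)⟩
        obtain ⟨m', rfl⟩ := D.qt.sur m
        have z : (3 : Zw) ^ n • m' • G = 0 := by rw [smul_comm, D.gen.zero, smul_zero]
        refine ⟨m' • G, fun g hg => ?_⟩
        change (3 : Zw) • X g = bd χ (m' • G) g
        refine inj _ _ (k3 g) ?_ ?_
        · rw [← bd_smul (V.D_le hg), z, bd, map_zero, sub_zero]
        · rw [(h4 g (V.D_le hg) _ z).2, h1, (h2 _ (hX' g).1).2.1, (hX' g).2, map_ofNat]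
          exact hm g hg
  obtain ⟨Q, ⟨i, hi⟩, hQ⟩ := hk n _ sel fun g _ => (nsm n _).trans (k3 g)
  have hQ' : ∀ g ∈ GK, bd χ Q g = (3 : Zw) ^ k₀ • (3 : Zw) • X g := fun g hg => by
    rw [← nsm]
    exact (hQ g hg).symm
  have z := tors_XKER hCOJ tw (n := n) ((nsm i Q).symm.trans hi) fun g hg => by
    rw [hQ' g hg, smul_comm, k3, smul_zero]
  refine ⟨ic φ G ((9 : Zw) • Q), fun g hg => ?_⟩
  rw [← (h4 g hg _ z).2, bd_smul hg, hQ' g hg, ← mul_smul, ← mul_smul, (h2 _ (hX' g).1).2.1,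
    (hX' g).2]
  simp only [map_mul, map_pow, map_ofNat]
  ring

theorem KER_pf (H : H5) (hCOI : COI_st) (hCOJ : COJ_st) (hBZC : BZC_st) (hRST : RST_st) :
    KER_st := by
  intro χ r tw ⟨k₀, hk⟩
  obtain ⟨d, e, he, hgen⟩ := H.GEN r (Nat.cast_ne_zero.2 tw.r0)
  refine ⟨(9 ^ (k₀ + 3)) ^ d, fun R _ n M G φ D => ?_⟩
  obtain ⟨hc, -⟩ := D.qt.chn3 D.pos
  have := hc.fin
  have hφ : φ (3 ^ n) = 0 := (D.qt.ker _).2 dvd_rfl
  have h3n : (3 : R) ^ n = 0 := by simpa [map_ofNat] using hφ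
  have hM : φ M = 0 := (D.qt.ker _).2 D.dn
  obtain ⟨j⟩ := ex_j (R := R) (n := 3 ^ n) (by simpa using h3n)
  obtain ⟨l1, l2⟩ := (H.LZ χ r M tw D.ne D.dr).2.2 R φ hM
  have mu : Mu GK (lamZ φ χ M) :=
    (H.ZC R _ j _ _ (l1 _ j (by simpa using D.dn)).1).1.1
  have td : ∀ g ∈ GK, φ pw ∣ lamZ φ χ M g - 1 := fun g hg => by
    have := map_dvd φ ((hCOJ χ r M tw D.ne D.dr).1 g hg)
    rwa [map_sub, map_one] at this
  have un : Unr (3 * r) fun g => lamZ φ χ M g - 1 := fun V hV =>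
    l2 _ D.dn hφ V fun h => hV ((Ov_mul.1 h).elim id fun h' => Ov_mul.2 (Or.inl (Ov_pow h')))
  refine (count_XKER (W := R) (A := R) _
    (fun s w => ∀ g : GK, (3 : R) ^ (k₀ + 3) * s g = (lamZ φ χ M g - 1) * w)
    (fun s i => s ⟨e i, he i⟩) (fun x => (3 : R) ^ (k₀ + 3) * x = 0) ?_ ?_ ?_).trans ?_
  · rintro s ⟨y, ⟨c, u, P, f, v⟩, hs⟩
    obtain ⟨w, hw⟩ := step_XKER hCOI hCOJ hBZC hRST tw hk D c u f v
    exact ⟨w, fun g => by rw [hs g]; exact hw g g.2⟩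
  · intro s _ s' _ w a b i
    rw [mul_sub, a, b, sub_self]
  · rintro s ⟨y, ⟨c, u, -⟩, hs⟩ s' ⟨y', ⟨c', u', -⟩, hs'⟩ ee
    have z := hgen R (φ pw) n (lamZ φ χ M) (fun g => y g - y' g) hc.nilp h3n mu td un
      ⟨c.1.map₂ c'.1 fun a b => a - b, fun g hg h hh => by
        simp only [c.2 g hg h hh, c'.2 g hg h hh]
        ring⟩
      (fun V hV τ hτ => by simp only [u V hV τ hτ, u' V hV τ hτ, sub_zero])
      fun i => by
        have := congrFun ee i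
        simp only [hs, hs'] at this
        exact sub_eq_zero.2 this
    funext g
    rw [hs, hs']
    exact sub_eq_zero.1 (z g g.2)
  · exact Nat.cast_le.2 (Nat.mul_le_mul_right _ (Nat.pow_le_pow_left (ann_XKER D.qt D.pos _) d))

end Pool.Agent.MP_e23604_nt.W

end

section

set_option autoImplicit false
open Finset QuadraticAlgebra
open scoped Classical
namespace Pool.Agent.MP_e23604_nt.W
open B R S

theorem cnt_XCNT {G B C : Type} [AddCommGroup G] [AddCommGroup B] [AddCommGroup C]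
    (A : AddSubgroup G) (f : G →+ B) (g : G →+ C) (S Z : AddSubgroup B) (I : AddSubgroup C)
    [Finite Z] [Finite I] (K : Set G) {k m : ℕ} (hSZ : S ≤ Z) (hZ : ∀ a ∈ A, f a ∈ Z)
    (hI : ∀ a ∈ A, f a ∈ S → g a ∈ I) (hK : ∀ a ∈ A, f a ∈ S → g a = 0 → a ∈ K)
    (hk : K.encard ≤ k) (hm : (m : ℕ∞) ≤ (A : Set G).encard) :
    m * Nat.card S ≤ k * Nat.card I * Nat.card Z := by
  set Y := A ⊓ S.comap f with hY
  have s0 : ((Y ⊓ g.ker : AddSubgroup G) : Set G) ⊆ K := fun a ha => hK a ha.1.1 ha.1.2 ha.2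
  have f0 : K.Finite := Set.finite_of_encard_le_coe hk
  have : Finite (Y ⊓ g.ker : AddSubgroup G) := (f0.subset s0).to_subtype
  have c0 : Nat.card (Y ⊓ g.ker : AddSubgroup G) ≤ k := by
    have h1 := (Set.encard_le_encard s0).trans hk
    rw [← (f0.subset s0).cast_ncard_eq, Nat.cast_le] at h1
    exact h1
  have s1 : Y.map g ≤ I := by
    rintro _ ⟨a, ha, rfl⟩
    exact hI a ha.1 ha.2
  have : Finite (Y.map g) := Finite.of_injective _ (AddSubgroup.inclusion_injective s1)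
  have e1 : (Y ⊓ g.ker).relIndex Y = Nat.card (Y.map g) := by
    rw [AddSubgroup.inf_relIndex_left, AddSubgroup.relIndex_ker]
  have s2 : A.map f ≤ Z := by
    rintro _ ⟨a, ha, rfl⟩
    exact hZ a ha
  have e2 : Y.relIndex A = S.relIndex (A.map f) := by
    rw [hY, AddSubgroup.inf_relIndex_left, AddSubgroup.relIndex_comap]
  have e3 : Nat.card S * S.relIndex Z = Nat.card Z := by
    rw [← AddSubgroup.relIndex_bot_left, AddSubgroup.relIndex_mul_relIndex _ _ _ bot_le hSZ,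
      AddSubgroup.relIndex_bot_left]
  have n3 : S.relIndex Z ≠ 0 := fun e => Nat.card_pos.ne' (by rw [← e3, e, mul_zero])
  have e4 : Nat.card A = Nat.card (Y ⊓ g.ker : AddSubgroup G) * Nat.card (Y.map g) *
      S.relIndex (A.map f) := by
    rw [← e1, ← e2, ← AddSubgroup.relIndex_bot_left (Y ⊓ g.ker),
      AddSubgroup.relIndex_mul_relIndex _ _ _ bot_le inf_le_left,
      AddSubgroup.relIndex_mul_relIndex _ _ _ bot_le inf_le_left, AddSubgroup.relIndex_bot_left]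
  have : Finite A := Nat.finite_of_card_ne_zero (e4 ▸ mul_ne_zero
    (mul_ne_zero Nat.card_pos.ne' Nat.card_pos.ne')
    fun e => n3 (AddSubgroup.relIndex_eq_zero_of_le_right s2 e))
  have c4 : m ≤ Nat.card A := by
    rw [← (Set.toFinite (A : Set G)).cast_ncard_eq, Nat.cast_le] at hm
    exact hm
  have c5 := AddSubgroup.relIndex_le_of_le_right s2 n3
  have c6 := AddSubgroup.card_le_of_le s1
  calc m * Nat.card S ≤ k * Nat.card I * S.relIndex Z * Nat.card S := by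
        refine Nat.mul_le_mul_right _ (c4.trans ?_)
        rw [e4]
        exact Nat.mul_le_mul (Nat.mul_le_mul c0 c6) c5
    _ = _ := by rw [← e3]; ring

theorem sub_XCNT {R : Type} [CommRing R] (H : Subgroup GQ) (P : (GQ → R) → Prop)
    (h0 : P fun _ => 0) (hs : ∀ x y, P x → P y → P fun g => x g - y g) :
    ∃ A : AddSubgroup (H → R), (A : Set (H → R)) = rs H P :=
  ⟨AddSubgroup.ofSub (rs H P) ⟨0, _, h0, fun _ => rfl⟩ (by
    rintro a ⟨x, h1, h2⟩ b ⟨y, h3, h4⟩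
    exact ⟨_, hs x y h1 h3, fun g => by simp [h2, h4, sub_eq_add_neg]⟩), rfl⟩

theorem co0_XCNT {R : Type} [CommRing R] (θ : GQ → R) (H : Subgroup GQ) : Co θ H fun _ => 0 :=
  ⟨Lc.const _ _, fun _ _ _ _ => by simp⟩

theorem cos_XCNT {R : Type} [CommRing R] {θ x y : GQ → R} {H : Subgroup GQ} (hx : Co θ H x)
    (hy : Co θ H y) : Co θ H fun g => x g - y g :=
  ⟨hx.1.map₂ hy.1 (· - ·), fun g hg h hh => by
    simp only [hx.2 g hg h hh, hy.2 g hg h hh]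
    ring⟩

theorem com_XCNT {R : Type} [CommRing R] {θ x : GQ → R} {H H' : Subgroup GQ} (hx : Co θ H x)
    (h : H' ≤ H) : Co θ H' x := ⟨hx.1.mono h, fun g hg k hk => hx.2 g (h hg) k (h hk)⟩

theorem vl_XCNT {R : Type} [CommRing R] {φ : Zw →+* R} {n c : ℕ} {l : Zw} {u : R}
    (hq : Qt φ (3 ^ n)) (hc : c ≤ n) (hu : IsUnit u) (hl : ¬ (3 : Zw) ^ c ∣ l - 1) :
    vl (φ pw) (2 * n) (u - φ (star l) * u) ≤ 2 * c := by
  rw [show u - φ (star l) * u = u * (1 - φ (star l)) by ring, vl_unit hu]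
  refine not_lt.1 fun h => hl ?_
  obtain ⟨x, hx⟩ := (le_vl (by omega)).1 h.le
  obtain ⟨x, rfl⟩ := hq.sur x
  have h1 : (3 : Zw) ^ n ∣ 1 - star l - pw ^ (2 * c) * x :=
    (hq.ker _).1 (by rw [map_sub, map_sub, map_one, hx, map_mul, map_pow, sub_self])
  obtain ⟨z, hz⟩ : (3 : Zw) ^ c ∣ 1 - star l := by
    simpa using dvd_add ((pow_dvd_pow _ hc).trans h1) ((pw_three c).dvd.mul_right x)
  have h2 := congrArg star hz
  rw [star_sub, star_one, star_star, star_mul', star_pow, star_ofNat] at h2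
  exact ⟨-star z, by linear_combination -h2⟩

theorem CNT_pf (H : H5) (hCOI : COI_st) (hCOJ : COJ_st) (hDPI : DPI_st) (hLOCI : LOCI_st)
    (hKER : KER_st) : CNT_st := by
  intro χ r P tw hb e1 p0 sm fx
  obtain ⟨c₂, h₂⟩ := hDPI χ r tw
  obtain ⟨C₁, n₁, h₁⟩ := hLOCI χ r P tw e1 p0 sm fx
  obtain ⟨C₃, h₃⟩ := hKER χ r tw hb
  obtain ⟨c, hc⟩ : ∃ c, C₁ * C₃ * 3 ^ (2 * c₂) < 3 ^ c := ⟨_, Nat.lt_pow_self (by norm_num)⟩
  refine ⟨c, n₁ + c₂ + c, fun R _ n M q G P' φ W τ hn d hP pq oq hW nW hτ kτ => ?_⟩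
  by_contra hcon
  obtain ⟨chn, kp3⟩ := d.qt.chn3 d.pos
  have := chn.fin
  have φn : φ (3 ^ n) = 0 := (d.qt.ker _).2 dvd_rfl
  have φM : φ M = 0 := (d.qt.ker _).2 d.dn
  have r3 : (3 : R) ^ n = 0 := by simpa [map_ofNat] using φn
  have dN : ((3 ^ n : ℕ) : Zw) ∣ M := by simpa using d.dn
  obtain ⟨j⟩ := ex_j (R := R) (n := 3 ^ n) (by simpa using r3)
  obtain ⟨lz1, lz2⟩ := (H.LZ χ r M tw d.ne d.dr).2.2 R φ φM
  have chr := (lz1 _ j dN).1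
  obtain ⟨mu, -, cje, -⟩ := (H.ZC R _ j _ _ chr).1
  obtain ⟨j1, -, j3⟩ := hCOJ χ r M tw d.ne d.dr
  obtain ⟨i1, i2, i3⟩ := hCOI R φ (3 ^ n) G (pow_ne_zero _ (by decide)) d.gen φn
  obtain ⟨i3, i4⟩ := i3 χ r M tw d.ne d.dr d.dn
  have i5 := ((i4 V3.D V3.D_le).2.1 P' (hP ▸ fx))
  have k₁ := h₁ R n M G P' φ (by omega) d hP
  have k₃ := h₃ R n M G φ d
  obtain ⟨h, hh, hl⟩ := h₂ M d.ne d.dr ((pow_dvd_pow _ (by omega)).trans d.dn)
  have td : ∀ g ∈ GK, φ pw ∣ lamZ φ χ M g - 1 := fun g hg => by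
    simpa [lamZ] using map_dvd φ (j1 g hg)
  have unr := lz2 _ d.dn φn
  have j4 := j3 R φ _ j φM dN h (V3.D_le hh)
  generalize lamZ φ χ M = lam at *
  have hu : IsUnit (lam h) := .of_mul_eq_one (lam h⁻¹) (by
    rw [← mu.2.2 _ (V3.D_le hh) _ (GK.inv_mem (V3.D_le hh)), mul_inv_cancel, mu.2.1])
  obtain ⟨z1, z2⟩ := H.LOC3 R n _ j _ lam h chn ⟨mu.1.mono V3.D_le, mu.2.1,
    fun g hg k hk => mu.2.2 g (V3.D_le hg) k (V3.D_le hk)⟩ (fun g hg => td g (V3.D_le hg)) hh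
  rw [kp3, ← cje h (V3.D_le hh), j4] at z2
  have z3 := z2.trans (Nat.mul_le_mul_left _
    (Nat.pow_le_pow_right three_pos (vl_XCNT d.qt (by omega) hu hl)))
  have low := H.LOW R _ _ n lam (r * q) {q} chn r3 mu td
    (mul_ne_zero (Nat.cast_ne_zero.2 tw.r0) pq.1.ne_zero)
    (fun V hV => unr V fun e => hV (by
      rw [Ov_mul, Ov_mul] at e ⊢
      rcases e with (e | e) | e
      exacts [Or.inl e, Or.inr (Or.inl e), Or.inl (Ov_pow e)]))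
    (fun ϖ e => by
      rw [mem_singleton.1 e]
      exact ⟨pq, dvd_mul_left _ _, W, oq, fun g hg => ⟨chr.one g (hW hg), chr.cyc g (hW hg)⟩⟩)
  obtain ⟨A, hA⟩ := sub_XCNT GK (fun c => Co lam GK c ∧ Unr (3 * (r * q)) c)
    ⟨co0_XCNT _ _, fun _ _ _ _ => rfl⟩ fun x y hx hy => ⟨cos_XCNT hx.1 hy.1,
      fun V hV σ hσ => sub_eq_zero.2 ((hx.2 V hV σ hσ).trans (hy.2 V hV σ hσ).symm)⟩
  obtain ⟨Z, hZ⟩ := sub_XCNT V3.D (Co lam V3.D) (co0_XCNT _ _) fun _ _ => cos_XCNT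
  obtain ⟨S, hS⟩ := sub_XCNT V3.D (fun y : GQ → R => ∃ s w : R, ∀ g ∈ V3.D,
      y g = s * ic φ G (bd χ P' g) + (lam g - 1) * w) ⟨0, 0, fun _ _ => by simp⟩ (by
    rintro x y ⟨s, w, hx⟩ ⟨s', w', hy⟩
    exact ⟨s - s', w - w', fun g hg => by linear_combination hx g hg - hy g hg⟩)
  have : Finite Z := (hZ ▸ z1 : (Z : Set (V3.D → R)).Finite).to_subtype
  have hτ' : τ ∈ GK := W.D_le (W.I_le hτ)
  have mA : ∀ a, a ∈ A ↔ a ∈ rs GK fun c => Co lam GK c ∧ Unr (3 * (r * q)) c :=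
    fun a => hA ▸ Iff.rfl
  have mZ : ∀ a, a ∈ Z ↔ a ∈ rs V3.D (Co lam V3.D) := fun a => hZ ▸ Iff.rfl
  have mS : ∀ a, a ∈ S ↔ a ∈ rs V3.D fun y : GQ → R => ∃ s w : R, ∀ g ∈ V3.D,
      y g = s * ic φ G (bd χ P' g) + (lam g - 1) * w := fun a => hS ▸ Iff.rfl
  have key := cnt_XCNT A (⟨⟨fun y g => y ⟨g, V3.D_le g.2⟩, rfl⟩, fun _ _ => rfl⟩ :
    (GK → R) →+ (V3.D → R)) (Pi.evalAddMonoidHom (fun _ => R) ⟨τ, hτ'⟩) S Z
    (Ideal.span {φ pw ^ c}).toAddSubgroup _ ?_ ?_ ?_ ?_ k₃ (hA ▸ low)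
  · have c1 : Nat.card (Ideal.span {φ pw ^ c}).toAddSubgroup = 3 ^ (2 * n - c) :=
      kp3 ▸ chn.card_span (by omega)
    have c2 : Nat.card R = 3 ^ (2 * n - c) * 3 ^ c := by
      rw [chn.card_eq, kp3, ← pow_add, Nat.sub_add_cancel (by omega)]
    have c3 : Nat.card Z ≤ Nat.card R ^ 3 * 3 ^ (2 * c₂) := by
      rw [← hZ] at z3
      exact z3
    have c4 : Nat.card R ^ 2 ≤ C₁ * Nat.card S := by
      rw [← hS] at k₁
      exact k₁
    rw [c1, card_singleton] at key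
    have c5 : 0 < Nat.card R ^ 4 * 3 ^ (2 * n - c) := by
      have := Nat.card_pos (α := R)
      positivity
    refine absurd (Nat.le_of_mul_le_mul_left ?_ c5) (not_le.2 hc)
    calc Nat.card R ^ 4 * 3 ^ (2 * n - c) * 3 ^ c = Nat.card R ^ (2 + 1) * Nat.card R ^ 2 := by
          rw [mul_assoc, ← c2]; ring
      _ ≤ Nat.card R ^ (2 + 1) * (C₁ * Nat.card S) := Nat.mul_le_mul_left _ c4
      _ = C₁ * (Nat.card R ^ (2 + 1) * Nat.card S) := by ring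
      _ ≤ C₁ * (C₃ * Nat.card R * 3 ^ (2 * n - c) * (Nat.card R ^ 3 * 3 ^ (2 * c₂))) :=
          Nat.mul_le_mul_left _ (key.trans (Nat.mul_le_mul_left _ c3))
      _ = _ := by ring
  · intro a ha
    obtain ⟨x, ⟨s, w, hx⟩, e⟩ := (mS a).1 ha
    refine (mZ a).2 ⟨fun g => s * ic φ G (bd χ P' g) + (lam g - 1) * w,
      ⟨i5.2.1.map₂ (mu.1.mono V3.D_le) fun a b => s * a + (b - 1) * w, fun g hg k hk => ?_⟩,
      fun g => (e g).trans (hx g g.2)⟩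
    have := i5.2.2 g hg k hk
    simp only [this, mu.2.2 g (V3.D_le hg) k (V3.D_le hk)]
    ring
  · intro a ha
    obtain ⟨x, hx, e⟩ := (mA a).1 ha
    exact (mZ _).2 ⟨x, com_XCNT hx.1 V3.D_le, fun g => e _⟩
  · intro a ha hs
    obtain ⟨x, hx, e⟩ := (mA a).1 ha
    obtain ⟨x', ⟨s, w, hx'⟩, e'⟩ := (mS _).1 hs
    refine Ideal.mem_span_singleton.2 (by_contra fun hd => hcon ⟨x, s, w, hx.1, hx.2,
      fun g hg => ?_, fun hd' => hd ?_⟩)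
    · exact ((e ⟨g, V3.D_le hg⟩).symm.trans (e' ⟨g, hg⟩)).trans (hx' g hg)
    · exact hd'.trans (dvd_of_eq (e ⟨τ, hτ'⟩).symm)
  · intro a ha hs h0
    obtain ⟨x, hx, e⟩ := (mA a).1 ha
    obtain ⟨x', ⟨s, w, hx'⟩, e'⟩ := (mS _).1 hs
    obtain ⟨s, rfl⟩ := d.qt.sur s
    obtain ⟨w, rfl⟩ := d.qt.sur w
    have x0 : x τ = 0 := (e ⟨τ, hτ'⟩).symm.trans h0
    have l3 : W.l ≠ 3 := fun e => nW ((Ov_l W).dvd (by
      rw [e]
      exact (dvd_pow_self _ (by have := d.pos; omega)).trans d.dn))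
    have l1 : ∀ u ∈ W.I, lam u = 1 := fun u hu => chr.one u (hW (W.I_le hu))
    have wI : W.I ≤ GK := W.I_le.trans W.D_le
    have xI : ∀ u ∈ W.I, x u = 0 := fun u hu => by
      rw [(H.TAME 3 n W Nat.prime_three l3 l3).2.2.2.2.2 R x (fun g hg k hk => by
        rw [hx.1.2 g (wI hg) k (wI hk), l1 g hg, one_mul]) (hx.1.1.mono wI)
        (fun u _ => by simp [r3]) τ hτ kτ u hu, x0, smul_zero]
    have wG : (3 : Zw) ^ n • w • G = 0 := by rw [smul_comm, d.gen.zero, smul_zero]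
    refine ⟨x, ⟨hx.1, fun V hV => ?_, s • P' + w • G, ?_, fun g hg => ?_⟩, e⟩
    · by_cases hq : Ov V q
      · exact (((H.CNJ R lam).2 W V q mu pq.1 oq hq).1 x hx.1).2 l1 xI
      · exact hx.2 V fun e => by
          rw [← mul_assoc, Ov_mul] at e
          exact e.elim hV hq
    · rw [smul_add, wG, add_zero, smul_comm, hP]
      exact fx.smul V3.D_le s
    · have hg' := V3.D_le hg
      have b1 := i5.1 g hg
      rw [← e ⟨g, hg'⟩, bd_add, bd_smul hg', ((i2 _ (by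
        rw [smul_comm, b1, smul_zero])).2.2.2 _ (by
        rw [← bd_smul hg', wG, bd, map_zero, sub_zero])).1, (i2 _ b1).2.1, (i3 g hg' _ wG).2, i1,
        ← hx' g hg]
      exact e' ⟨g, hg⟩

end Pool.Agent.MP_e23604_nt.W

end

section

/-!
The trace does not vanish.
-/

set_option autoImplicit false

open Finset QuadraticAlgebra
open scoped Classical

namespace Pool.Agent.MP_e23604_nt.W

open B R S

section

variable {R : Type} [CommRing R] {θ c : GQ → R} {H H' : Subgroup GQ}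

theorem mu_XNZ (h : Mu H θ) (e : H' ≤ H) : Mu H' θ :=
  ⟨h.1.mono e, h.2.1, fun g hg k hk => h.2.2 g (e hg) k (e hk)⟩

theorem co_XNZ (h : Co θ H c) (e : H' ≤ H) : Co θ H' c :=
  ⟨h.1.mono e, fun g hg k hk => h.2 g (e hg) k (e hk)⟩

theorem bo_XNZ (h : Mu H θ) (e : Bo θ H c) : Co θ H c := by
  obtain ⟨m, e⟩ := e
  obtain ⟨N, h1, h2⟩ := h.1
  refine ⟨⟨N, h1, fun g hg k hk d => by rw [e g hg, e k hk, h2 g hg k hk d]⟩, fun g hg k hk => ?_⟩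
  rw [e g hg, e k hk, e _ (H.mul_mem hg hk), h.2.2 g hg k hk]
  ring

theorem fin_XNZ {t x y : R} {n c c' k : ℕ} (h : Chn t (2 * n)) (h3 : (3 : R) = -t ^ 2)
    (hx : ¬ 3 ^ c ∣ x) (hy : ¬ t ^ c' ∣ y) (e : 8 * (x * (3 ^ k * (3 * y))) = 0)
    (hn : 2 * c + c' + 2 * k + 2 ≤ 2 * n) : False := by
  have h8 : IsUnit (8 : R) := by
    have h1 := (h.nilp.pow_of_pos (n := 4) (by norm_num)).isUnit_one_sub.neg
    rwa [show -(1 - t ^ 4) = 8 by linear_combination (t ^ 2 - 3) * h3] at h1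
  have h1 : vl t (2 * n) x < 2 * c := not_le.1 fun d => hx (by
    refine dvd_trans ⟨(-1) ^ c, ?_⟩ ((le_vl (by omega)).1 d)
    rw [← mul_pow, h3, pow_mul]
    simp)
  have h2 : vl t (2 * n) y < c' := not_le.1 fun d => hy ((le_vl (by omega)).1 d)
  rw [h8.mul_right_eq_zero, h.mul_eq_zero, show (3 : R) ^ k * (3 * y) =
    (-1) ^ (k + 1) * (t ^ (2 * k + 2) * y) by rw [h3, neg_pow]; ring,
    vl_unit (isUnit_one.neg.pow _), h.vl_mul, h.vl_pow] at e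
  omega

end

theorem v3_XNZ : V3.v 3 = V3.v (io pw) ^ 2 ∧ 0 < V3.v (io pw) ∧ V3.v (io pw) < 1 :=
  ⟨by rw [← map_pow, io_pw_sq, V3.v.map_neg], V3.v.pos (io_ne pw_ne), Ov_three.1 V3_three⟩

theorem pt_XNZ (hFXP : FXP_st) (hALG : ALG_st) {χ : GQ → ZMod 3} {r : ℕ} (h : Tw χ r) :
    ∃ P : Pt, E1 V3.v P ∧ Fx χ V3.D P ∧ P ≠ 0 ∧ V3.v (zz P) ≤ V3.v 3 ∧
      V3.v (zz P) ^ 3 < V3.v (io pw) := by
  obtain ⟨δ, d0, hδ⟩ := hFXP χ h.add h.lc
  obtain ⟨B, b0, hB⟩ := hALG δ d0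
  obtain ⟨e1, e2, e3⟩ := v3_XNZ
  have h1 : V3.v (io (3 * B) * δ) ≤ V3.v 3 := by
    rw [map_mul io, map_ofNat, map_natCast, map_mul, map_mul, mul_assoc, mul_comm _ (V3.v δ)]
    exact mul_le_of_le_one_right (V3.v.nonneg _) (hB V3).2
  obtain ⟨P, p1, p2, p3⟩ := hδ V3 (3 * B) (h1.trans_lt (e1 ▸ pow_lt_one₀ e2.le e3 two_ne_zero))
  refine ⟨P, p1, p2, fun e => ?_, p3 ▸ h1, ?_⟩
  · exact mul_ne_zero (io_ne (mul_ne_zero (by decide) (Nat.cast_ne_zero.2 b0))) d0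
      (p3.symm.trans ((zz_zero_iff p1).2 e))
  · refine (pow_le_pow_left₀ (V3.v.nonneg _) (p3 ▸ h1) 3).trans_lt ?_
    rw [e1, ← pow_mul]
    simpa using pow_lt_pow_right_of_lt_one₀ e2 e3 (show 1 < 2 * 3 by norm_num)

theorem lp_XNZ (hZEQ : ZEQ_st) {χ : GQ → ZMod 3} {P : Pt} {n k : ℕ} (p1 : E1 V3.v P)
    (p2 : Fx χ V3.D P) (p4 : V3.v (zz P) ≤ V3.v 3) (p5 : V3.v (zz P) ^ 3 < V3.v (io pw))
    (hk : n + 6 ≤ 2 * k) : LP χ 3 n V3 ((3 : Zw) ^ k • P) := by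
  obtain ⟨e1, e2, e3⟩ := v3_XNZ
  refine ⟨V3_three, (E1m p1 _).1, p2.smul V3.D_le _, ?_⟩
  have h0 : 0 < V3.v 3 := e1 ▸ pow_pos e2 2
  have h1 : V3.v 3 < 1 := e1 ▸ pow_lt_one₀ e2.le e3 two_ne_zero
  rw [(hZEQ V3 pw P pw_prime e3 p1).1 p5, map_pow, map_pow, map_ofNat, Nat.cast_ofNat,
    show (81 : Qb) = 3 ^ 4 by norm_num, map_pow, ← pow_add]
  refine (pow_le_pow_left₀ (by positivity) (mul_le_mul_of_nonneg_left p4 (by positivity))
    2).trans_lt ?_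
  rw [← pow_succ, ← pow_mul]
  exact pow_lt_pow_right_of_lt_one₀ h0 h1 (by omega)

theorem NZ_pf (H : H5) (hNT : NT_st) (hCOI : COI_st) (hZEQ : ZEQ_st) (hFXP : FXP_st)
    (hALG : ALG_st) (hTRU : TRU_st) (hEXB : EXB_st) (hRST : RST_st) (hCNT : CNT_st) : NZ_st := by
  intro χ r a Q tw hb ad hQ htr
  obtain ⟨P, p1, p2, p3, p4, p5⟩ := pt_XNZ hFXP hALG tw
  obtain ⟨c, m, h1⟩ := hNT χ r a tw hb ad
  obtain ⟨c', n₁, h2⟩ := hCNT χ r P tw hb p1 p3 p5 p2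
  obtain ⟨n, hn, h1⟩ := h1 (n₁ + 2 * c + c' + 20)
  obtain ⟨R, _, φ, qt⟩ : ∃ (R : Type) (_ : CommRing R) (φ : Zw →+* R), Qt φ (3 ^ n) :=
    ⟨_, inferInstance, _, qt_mk _⟩
  obtain ⟨M, hM⟩ : ∃ M : Zw, M = 3 ^ (n + m) * (9 * r) := ⟨_, rfl⟩
  have t0 : ∀ i, (3 : Zw) ^ i ≠ 0 := fun i => pow_ne_zero i (by decide)
  have M0 : M ≠ 0 := hM ▸ mul_ne_zero (t0 _) tw.ne
  obtain ⟨Q', hQ'⟩ := (H.CYG _ (mul_ne_zero (t0 n) M0)).1
  have a3 : IsCoprime a 3 := ad.cop.of_mul_right_left.of_isCoprime_of_dvd_right ⟨2, by norm_num⟩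
  have xd : XD χ r 3 n (n + m) a M (3 ^ n) Q' φ := ⟨tw, Nat.prime_three, by omega, by omega, hM,
    ad.cop.of_mul_right_left.mul_right (hM ▸ a3.pow_right.mul_right (IsCoprime.mul_right
      (by rw [show (9 : Zw) = 3 ^ 2 by norm_num]; exact a3.pow_right) ad.cop.of_mul_right_right)),
    hQ', qt, dvd_rfl⟩
  obtain ⟨j⟩ := xd.ex_j
  obtain ⟨u, hu, h1⟩ := h1 R φ j M _ qt hM xd.genQ
  have ch := xd.chr H.LZ j
  obtain ⟨⟨z1, z2, z3, z4⟩, z5⟩ := H.ZC R _ j _ _ ch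
  have z6 := (z5 _ (xd.th H.CYG H.THI).1 (xd.th H.CYG H.THI).2).1
  have z7 : Adt (UM M) (zc j (UM M) (lamZ φ χ M) (Th a (((3 : ℕ) : Zw) ^ n • Q'))) :=
    fun g hg k hk => by rw [z6.2 g hg.1 k hk.1, z4 g hg, one_mul]
  have z8 : ∃ g ∈ UM M, zc j (UM M) (lamZ φ χ M) (Th a (((3 : ℕ) : Zw) ^ n • Q')) g ∉
      (Ideal.span {(3 : R) ^ c}).toAddSubgroup :=
    ⟨u, hu, fun e => h1 (Ideal.mem_span_singleton.1 e)⟩
  obtain ⟨W, q, σ, sp, -, w1, -, w2, w3, -⟩ := H.CHB.2 ⊤ (UM M) (3 ^ n) 0 M R R _ _ _ _ ON.top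
    ch.opn ch.le ch.pos ch.cyc M0 z7 (z6.1.mono ch.le) z7 (z6.1.mono ch.le) z8 z8
  have w4 : ¬ Ov W M := (Ov_l W).cop w1
  have w5 : W.l ≠ 3 := fun e => w4 (Ov.dvd (e ▸ Ov_l W) xd.dp)
  obtain ⟨τ, hτ, w6⟩ := (H.TAME 3 n W Nat.prime_three w5 w5).2.1
  obtain ⟨P', hP'⟩ := smul_onto (t0 n) P
  obtain ⟨y, s, w, y1, y2, y3, y4⟩ := h2 R n M q (M • Q') P' φ W τ (by omega)
    ⟨by omega, M0, xd.dr, xd.dn, xd.genG, qt⟩ hP' sp.pp sp.ov w2 w4 hτ w6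
  obtain ⟨-, c2, c3⟩ := hCOI R φ (3 ^ n) (M • Q') (t0 n) xd.genG xd.φn
  have c4 := (((c3 χ r M tw M0 xd.dr xd.dn).2 V3.D V3.D_le).2.1 P' (hP' ▸ p2)).1
  obtain ⟨k, k1, k2⟩ : ∃ k, n + 6 ≤ 2 * k ∧ 2 * k ≤ n + 8 := ⟨n / 2 + 4, by omega, by omega⟩
  have b1 : Bo (lamZ φ χ M) V3.D fun g =>
      3 ^ k * (3 * y g) - 3 * s * ic φ (M • Q') (bd χ ((3 : Zw) ^ k • P') g) :=
    ⟨3 ^ k * (3 * w), fun g hg => by
      simp only [bd_smul (V3.D_le hg), (c2 _ (c4 g hg)).2.1, y3 g hg, map_pow, map_ofNat]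
      ring⟩
  refine fin_XNZ (k := k) (qt.chn3 (by omega)).1
    (by rw [← map_pow, pw_sq, map_neg, map_ofNat, neg_neg])
    (fun e => w3 (Ideal.mem_span_singleton.2 e)) y4 ?_ (by omega)
  refine hEXB R χ r n (n + m) a M q Q' ((3 : Zw) ^ k • P') φ j W σ τ (fun g => 3 ^ k * (3 * y g))
    (3 * s) xd ⟨pw_prime, pw_dvd3, v3_XNZ.2.2, ?_, ⟨y1.1.map fun x => 3 ^ k * (3 * x), fun g hg h hh => ?_⟩, ?_,
      fun V v1 v2 => ?_⟩ (fun V v1 g hg => ?_) sp w2 w4 hτ w6 ?_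
  · rw [Nat.cast_ofNat, smul_comm, hP']
    exact lp_XNZ hZEQ p1 p2 p4 p5 k1
  · simp only [y1.2 g hg h hh]
    ring
  · exact (H.CUP R _ _ _ _ _ V3.D (mu_XNZ z2 V3.D_le) (mu_XNZ z1 V3.D_le)
      (fun g hg => (z3 g (V3.D_le hg)).symm) (co_XNZ z6 V3.D_le)
      (bo_XNZ (mu_XNZ z1 V3.D_le) b1)).2.1 (Or.inr b1)
  · have v3 : Ov V r := by
      rw [hM, show (9 : Zw) = 3 ^ 2 by norm_num, ← mul_assoc, ← pow_add, Ov_mul] at v1
      exact v1.resolve_left fun e => v2 (Ov_three.1 (Ov_pow e))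
    obtain ⟨d, hd⟩ := hRST R φ χ r n M V y tw (by omega) M0 xd.dr xd.dn (by simpa using xd.pn) v3
      (co_XNZ y1 V.D_le)
    refine ⟨3 ^ k * d, fun g hg => ?_⟩
    simp only [show 3 * y g = _ from hd g hg]
    ring
  · have v2 : (3 * (r * q) : Zw) ∣ M * q := by
      obtain ⟨d, hd⟩ := xd.dr
      exact ⟨3 * d, by rw [hd]; ring⟩
    simp only [y2 V (fun e => v1 (e.dvd v2)) g hg, mul_zero]
  · obtain ⟨v, -, e⟩ := hTRU χ r a Q _ tw xd.a0 hQ xd.gen0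
    rw [e, htr, mul_zero]

end Pool.Agent.MP_e23604_nt.W

end

section

set_option autoImplicit false

open Finset QuadraticAlgebra
open scoped Classical

namespace Pool.Agent.MP_e23604_nt.W

open B R S

theorem mu_XSTP {R : Type} [CommRing R] {N : ℕ} {j : ZMod N →+* R} {U : Subgroup GQ}
    {lam : GQ → R} (h : Chr j U lam) : Mu GK lam := by
  obtain ⟨N', n1, n2⟩ := ex_ON h.opn
  refine ⟨⟨N', n1, fun g hg k hk e => ?_⟩, h.one 1 U.one_mem, h.mul⟩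
  have := h.mul g hg _ (h.le (n2 e))
  rw [mul_inv_cancel_left, h.one _ (n2 e), mul_one] at this
  exact this.symm

theorem co_XSTP {R : Type} [CommRing R] {θ c : GQ → R} {H : Subgroup GQ} (h : Co θ H c) (s : R) :
    Co θ H fun g => s * c g :=
  ⟨h.1.map (s * ·), fun g hg k hk => by simp only [h.2 g hg k hk]; ring⟩

theorem STP_pf (H : H5) (hCOI : COI_st) (hZEQ : ZEQ_st) (hDVF : DVF_st) (hPFA : PFA_st)
    (hMUL : MUL_st) (hEXA : EXA_st) (hSTR : STR_st) (hBZC : BZC_st) : STP_st := by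
  intro R _ χ r p n k e a M ϖ N Q' φ V x h p3 hϖ hV hk hN he hx hxk
  have dv : ϖ ∣ (p : Zw) := hϖ.dvd_of_dvd_pow ((dvd_pow_self ϖ (by omega)).trans h.bp)
  obtain ⟨-, -, -, -, -, hc⟩ := hPFA p h.pp p3
  obtain ⟨c0, e0, cop0⟩ := hc ϖ hϖ dv
  have iop : io (p : Zw) = p := map_natCast _ _
  have vp : V.v p = V.v (io ϖ) := by
    rw [← iop, e0, map_mul, map_mul, not_Ov.1 (hV.cop cop0), mul_one]
  have ovp : Ov V p := hV.dvd dv
  have p1 : V.v p < 1 := vp ▸ hV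
  have p0 : 0 < V.v p := V.v.pos (Nat.cast_ne_zero.2 h.pp.ne_zero)
  have n3 : ¬ Ov V 3 := ovp.cop (by
    simpa using ((Nat.coprime_primes h.pp Nat.prime_three).2 p3).cast (R := Zw))
  have v81 : V.v 81 = 1 := by
    rw [show (81 : Qb) = 9 * 9 by norm_num, map_mul, v_nine n3, mul_one]
  obtain ⟨N1, cN1, hN1⟩ := hMUL.2 p h.pp p3
  have hu : IsUnit (φ N1) := by
    have := (cN1.pow_right (n := n)).map φ
    rwa [h.φn, isCoprime_zero_right] at this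
  obtain ⟨c1, c2, c3⟩ := hCOI R φ (p ^ n) (M • Q') (pow_ne_zero _ h.p0) h.genG h.φn
  obtain ⟨c4, c5⟩ := c3 χ r M h.tw h.ne h.dr h.dn
  have xn : ∀ g ∈ GK, (p : Zw) ^ n • x g = 0 := fun g hg =>
    dvd_smul (hxk g hg) (pow_dvd_pow _ (by omega))
  have cx := (c5 GK le_rfl).1 x hx.1 xn
  have en : (p : Zw) ^ n = ϖ ^ n * c0 ^ n := by rw [e0, mul_pow]
  have str : ∀ W : Plc, Ov W M → ¬ Ov W ϖ →
      Bo (lamZ φ χ M) W.D fun g => φ (N1 * N) * ic φ (M • Q') (x g) := fun W w1 w2 => by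
    refine hSTR R φ χ r M (ϖ ^ n) (c0 ^ n) (N1 * N) (M • Q') W x h.tw h.ne h.dr (en ▸ h.dn)
      cop0.pow (en ▸ h.genG) ((h.qt.ker _).2 dvd_rfl) (fun e => w2 (Ov_pow e)) (hx.2 W)
      (fun g hg => en ▸ xn g (W.D_le hg)) fun P hP => ?_
    rw [h.hM, Ov_mul] at w1
    rcases w1 with w1 | w1
    · rw [mul_comm, mul_smul]
      exact (E1m (hN1 χ W P h.tw.add (Ov_pow w1) hP) N).1
    · rw [mul_smul]
      refine (E1m (hN W P ?_ hP) N1).1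
      rw [show (9 * r : Zw) = 3 * (3 * r) by ring, Ov_mul] at w1
      exact w1.elim (fun e => e.dvd (dvd_mul_right _ _)) id
  have unr : ∀ W : Plc, ¬ Ov W M → ∀ τ ∈ W.I, ic φ (M • Q') (x τ) = 0 := fun W w τ hτ => by
    rw [(hBZC χ x h.tw.add).1 (3 * r) (p ^ n) W h.tw.unr (fun e => w (e.dvd ?_)) (hx.2 W)
      (fun g hg => xn g (W.D_le hg)) τ hτ]
    · simpa using c1 0
    · rw [h.hM]
      exact ⟨1, by ring⟩
  obtain ⟨P1, hP1⟩ := hx.2 V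
  have f1 : Fx χ V.D ((p : Zw) ^ k • P1) := fun g hg => by
    have := hxk g (V.D_le hg)
    rw [hP1 g hg, smul_sub, sub_eq_zero] at this
    rw [eta_smul χ (V.D_le hg), this]
  have e1 := hN1 χ V _ h.tw.add ovp f1
  have f2 := f1.smul V.D_le N1
  have z3 := (hZEQ V ϖ _ hϖ hV e1).2.2 χ f2
  have eP : (p : Zw) ^ n • N1 • P1 = (p : Zw) ^ (n - k) • N1 • (p : Zw) ^ k • P1 := by
    rw [smul_smul, smul_smul, smul_smul, show n = n - k + k by omega, pow_add,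
      Nat.add_sub_cancel]
    congr 1
    ring
  have e2 : E1 V.v ((p : Zw) ^ n • N1 • P1) := eP ▸ (E1m e1 _).1
  have f3 : Fx χ V.D ((p : Zw) ^ n • N1 • P1) := eP ▸ f2.smul V.D_le _
  have z1 := (hZEQ V ϖ _ hϖ hV e1).2.1 z3 ((p : Zw) ^ (n - k))
  rw [← eP, map_pow, map_pow, iop] at z1
  have lp : LP χ p n V ((p : Zw) ^ n • N1 • P1) := by
    refine ⟨ovp, e2, f3, ?_⟩
    rw [v81, mul_one]
    have a1 := zz_lt e1
    have a2 := V.v.nonneg (zz (N1 • (p : Zw) ^ k • P1))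
    have a3 : 0 < V.v p ^ (n - k) := pow_pos p0 _
    have a4 : V.v (zz ((p : Zw) ^ n • N1 • P1)) < V.v p ^ (n - k) := by nlinarith
    calc _ < (V.v p ^ (n - k)) ^ 2 := pow_lt_pow_left₀ a4 (V.v.nonneg _) two_ne_zero
      _ ≤ _ := by
        rw [← pow_mul]
        exact pow_le_pow_of_le_one p0.le p1.le (by omega)
  have bx : ∀ g ∈ V.D, bd χ (N1 • P1) g = N1 • x g := fun g hg => by
    rw [bd_smul (V.D_le hg), hP1 g hg, bd]
  obtain ⟨j⟩ := h.ex_j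
  have ex := hEXA R χ r p n n a M (ϖ ^ n) ϖ N Q' (N1 • P1) φ j V
    (fun g => φ (N1 * N) * ic φ (M • Q') (x g)) h
    ⟨hϖ, dv, hV, lp, co_XSTP cx _, ⟨fun _ => 0, Lc.const _ _, fun g _ g' hg' => by
      rw [cup, bx g' hg', (c2 _ (xn g' (V.D_le hg'))).2.1, map_mul]
      ring⟩, str⟩ fun W w τ hτ => by simp only [unr W w τ hτ, mul_zero]
  have z4 : V.v (zz ((p : Zw) ^ e • (p : Zw) ^ n • N1 • P1)) ≤ V.v (io p) ^ n * V.v p := by
    have a1 := (hZEQ V ϖ _ hϖ hV e2).2.1 ((hZEQ V ϖ _ hϖ hV e2).2.2 χ f3) ((p : Zw) ^ e)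
    rw [map_pow, map_pow, iop] at a1
    rw [map_pow, map_pow, ← vp, mul_right_comm, map_mul] at ex
    rw [iop]
    exact a1.trans ((mul_le_mul_of_nonneg_right he (V.v.nonneg _)).trans ex)
  obtain ⟨R', -, f4, r4, -⟩ := hDVF χ V p n (V.v p) _ h.p0 (E1m e2 _).1 (f3.smul V.D_le _) z4
    (by rw [iop]; exact pow_lt_self_of_lt_one₀ p0 p1 (by norm_num))
  have hT : (p : Zw) ^ n • ((p : Zw) ^ e • N1 • P1 - R') = 0 := by
    rw [smul_sub, r4, smul_comm, sub_self]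
  have cz := co_XSTP cx (φ N1 * (p ^ e * φ N))
  have bo : Bo (lamZ φ χ M) V.D fun g => φ N1 * (p ^ e * φ N) * ic φ (M • Q') (x g) := by
    refine ⟨φ N * ic φ (M • Q') ((p : Zw) ^ e • N1 • P1 - R'), fun g hg => ?_⟩
    have a1 := (c4 g (V.D_le hg) _ hT).2
    rw [bd_sub, bd_smul (V.D_le hg), bx g hg, bd, f4 g hg, sub_self, sub_zero, smul_smul,
      (c2 _ (xn g (V.D_le hg))).2.1, map_mul, map_pow, map_natCast] at a1
    linear_combination φ N * a1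
  refine ⟨φ N1, hu, cz, fun W w τ hτ => by simp only [unr W w τ hτ, mul_zero], fun W w => ?_⟩
  by_cases w2 : Ov W ϖ
  · exact (((H.CNJ R _).2 V W ϖ (mu_XSTP (h.chr H.LZ j)) hϖ hV w2).1 _ cz).1 bo
  · obtain ⟨m, hm⟩ := str W w w2
    refine ⟨p ^ e * m, fun g hg => ?_⟩
    have := hm g hg
    rw [map_mul] at this
    linear_combination (p : R) ^ e * this

end Pool.Agent.MP_e23604_nt.W

end

section

set_option autoImplicit false

open Finset QuadraticAlgebra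
open scoped Classical

namespace Pool.Agent.MP_e23604_nt.W

open B R S

theorem ZLB_pf (H : H5) (hCOI : COI_st) (hZEQ : ZEQ_st) (hPFA : PFA_st) (hEXA : EXA_st) :
    ZLB_st := by
  intro R _ χ r p n e a M ϖ a₁ Q' P φ j V g₀ h hp3 hϖ hV hn hg₀ ha₁ hE hF hz hb
  by_contra hcon
  have hdv : ∀ u ∈ UM M, φ ϖ ^ (e + 1) ∣ zc j (UM M) (lamZ φ χ M) (Th a ((p : Zw) ^ n • Q')) u :=
    fun u hu => by_contra fun k => hcon ⟨u, hu, k⟩
  obtain ⟨k, rfl⟩ : ∃ k, n = k + (e + 1) := ⟨n - (e + 1), by omega⟩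
  have d1 : ϖ ∣ p := hϖ.dvd_of_dvd_pow ((dvd_pow_self ϖ (by omega)).trans h.bp)
  have o1 : Ov V p := hV.dvd d1
  have v1 : V.v (io ϖ) = V.v p := by
    obtain ⟨-, -, -, -, -, hc⟩ := hPFA p h.pp hp3
    obtain ⟨c, e1, e2⟩ := hc ϖ hϖ d1
    rw [← map_natCast io p, e1, map_mul, map_mul, not_Ov.1 (hV.cop e2), mul_one]
  have v2 : V.v p < 1 := v1 ▸ hV
  have v3 : 0 < V.v p := V.v.pos (Nat.cast_ne_zero.2 h.pp.ne_zero)
  have v4 : V.v 81 = 1 := by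
    have : ¬ Ov V 3 := o1.cop (by
      simpa using ((Nat.coprime_primes h.pp Nat.prime_three).2 hp3).cast (R := Zw))
    rw [show (81 : Qb) = 9 ^ 2 by norm_num, map_pow, v_nine this, one_pow]
  obtain ⟨P₀, hP₀⟩ := smul_onto (pow_ne_zero (k + (e + 1)) h.p0) P
  have e1 : (p : Zw) ^ (k + (e + 1)) • (p : Zw) ^ k • P₀ = (p : Zw) ^ k • P := by
    rw [smul_comm, hP₀]
  have z1 : V.v (zz ((p : Zw) ^ k • P)) = V.v p ^ k * V.v (zz P) := by
    rw [(hZEQ V ϖ P hϖ hV hE).1 ?_, map_pow, map_pow, map_natCast]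
    rw [v1]
    exact (pow_le_pow_left₀ (V.v.nonneg _) hz 3).trans_lt
      (pow_lt_self_of_lt_one₀ v3 v2 (by norm_num))
  have f1 := hF.smul V.D_le ((p : Zw) ^ k)
  obtain ⟨-, C2, C3⟩ := hCOI R φ _ _ (pow_ne_zero _ h.p0) h.genG h.φn
  have C4 := ((C3 χ r M h.tw h.ne h.dr h.dn).2 V.D V.D_le).2.1
  have hc := h.chr H.LZ j
  obtain ⟨⟨m1, m2, m3, -⟩, Z⟩ := H.ZC R _ j _ _ hc
  have hZ := (Z _ (h.th H.CYG H.THI).1 (h.th H.CYG H.THI).2).1
  obtain ⟨z, hzd⟩ : ∃ z, z = zc j (UM M) (lamZ φ χ M) (Th a ((p : Zw) ^ (k + (e + 1)) • Q')) :=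
    ⟨_, rfl⟩
  have k1 : ∀ g ∈ V.D,
      φ ϖ ^ (e + 1) * ic φ (M • Q') (bd χ ((p : Zw) ^ k • P₀) g) = 0 := fun g hg => by
    rw [bd_smul (V.D_le hg), (C2 _ ((C4 P₀ (hP₀ ▸ hF)).1 g hg)).2.1, ← mul_assoc, ← map_pow,
      ← map_mul, (h.qt.ker _).2 (by
        rw [pow_add ϖ k, mul_comm]
        exact mul_dvd_mul_left _ (pow_dvd_pow_of_dvd d1 k)), zero_mul]
  have key := hEXA R χ r p _ _ a M _ ϖ a₁ Q' ((p : Zw) ^ k • P₀) φ j V (fun _ => 0) h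
    ⟨hϖ, d1, hV, ⟨o1, e1 ▸ (E1m hE _).1, e1 ▸ f1, ?_⟩, ⟨Lc.const _ _, fun _ _ _ _ => by simp⟩, ?_,
      fun _ _ _ => ⟨0, fun _ _ => by simp⟩⟩ fun _ _ _ _ => rfl
  · rw [e1, map_mul, map_mul, z1, map_pow, map_pow, v1] at key
    rw [map_mul, map_mul] at hb
    have h1 := mul_le_mul_of_nonneg_left hb (pow_pos v3 k).le
    have h2 := mul_lt_mul_of_pos_left v2 (pow_pos v3 (k + (e + 1)))
    rw [← pow_add] at h1
    linarith
  · rw [e1, z1, v4, mul_one]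
    refine (pow_le_pow_left₀ (mul_nonneg (pow_pos v3 k).le (V.v.nonneg _))
      (mul_le_mul_of_nonneg_left hz (pow_pos v3 k).le) 2).trans_lt ?_
    rw [← pow_succ, ← pow_mul]
    exact pow_lt_pow_right_of_lt_one₀ v3 v2 (by omega)
  · rw [← hzd] at hdv hZ ⊢
    obtain ⟨β, b1, b2⟩ := (H.CUP R (cj j) (rho j (lamZ φ χ M)) (lamZ φ χ M)
      (fun g => (rho j (lamZ φ χ M) g - 1) * -z g₀)
      (fun g => ic φ (M • Q') (bd χ ((p : Zw) ^ k • P₀) g)) V.D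
      ⟨m2.1.mono V.D_le, m2.2.1, fun g hg g' hg' => m2.2.2 g (V.D_le hg) g' (V.D_le hg')⟩
      ⟨m1.1.mono V.D_le, m1.2.1, fun g hg g' hg' => m1.2.2 g (V.D_le hg) g' (V.D_le hg')⟩
      (fun g hg => (m3 g (V.D_le hg)).symm)
      ⟨(m2.1.mono V.D_le).map fun t => (t - 1) * -z g₀, fun g hg g' hg' => by
        simp only [m2.2.2 g (V.D_le hg) g' (V.D_le hg')]
        ring⟩
      (C4 _ (e1 ▸ f1)).2).2.1 (Or.inl ⟨_, fun _ _ => rfl⟩)
    refine ⟨β, b1, fun g hg g' hg' => Eq.trans ?_ (b2 g hg g' hg')⟩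
    have g1 := V.D_le hg
    have u1 := hc.ab g g1 g₀ hg₀
    obtain ⟨w, hw⟩ := hdv _ u1
    have q1 := hZ.2 _ (GK.mul_mem g1 hg₀) _ (hc.le u1)
    rw [mul_inv_cancel_left, hZ.2 g₀ hg₀ g g1, hZ.2 g g1 g₀ hg₀, hw] at q1
    have q2 := k1 g' hg'
    simp only [cup, ha₁]
    linear_combination (-(lamZ φ χ M g) * ic φ (M • Q') (bd χ ((p : Zw) ^ k • P₀) g')) * q1 -
      lamZ φ χ M g * rho j (lamZ φ χ M) (g * g₀) * w * q2

end Pool.Agent.MP_e23604_nt.W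

end
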