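import Pool.Agent.Mg.Fe23604m.Ga6f63b

set_option linter.all false

section

set_option autoImplicit false
open Finset QuadraticAlgebra Polynomial
open scoped Classical
namespace Pool.Agent.MP_e23604_nt.W
open B R S

theorem nn_APSTEP (g : Zw) : nn (g + 1) + nn (g - 1) = 2 * nn g + 2 := by
  have h : (nn (g + 1) : ℤ) + nn (g - 1) = 2 * nn g + 2 := by
    rw [nn_cast, nn_cast, nn_cast, nw_def, nw_def, nw_def]
    simp only [re_add, im_add, re_sub, im_sub, re_one, im_one]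
    ring
  exact_mod_cast h

section

variable {g : Zw} {A B A₁ B₁ : Qb[X]}

theorem pt_APSTEP (h₀ : Rep (g - 1) A B) (h₁ : Rep g A₁ B₁) {P : Pt} (hP : P ≠ 0) :
    ∃ e : Qb, e ≠ 0 ∧
      BDivU EQ (A₁.eval (xc P) * xc P) (A₁.eval (xc P) + xc P * B₁.eval (xc P)) (B₁.eval (xc P)) =
        e * (A.eval (xc P) * ((g + 1) • P).xRep 0) ∧
      BDivV EQ (A₁.eval (xc P) * xc P) (A₁.eval (xc P) + xc P * B₁.eval (xc P)) (B₁.eval (xc P)) =
        e * (A.eval (xc P) * ((g + 1) • P).xRep 1 + ((g + 1) • P).xRep 0 * B.eval (xc P)) ∧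
      BDivW (A₁.eval (xc P) * xc P) (A₁.eval (xc P) + xc P * B₁.eval (xc P)) (B₁.eval (xc P)) =
        e * (B.eval (xc P) * ((g + 1) • P).xRep 1) := by
  obtain ⟨c₀, hc₀, e₀⟩ := h₀.pt P hP
  obtain ⟨c₁, hc₁, e₁⟩ := h₁.pt P hP
  obtain ⟨c, hc, e⟩ := addSub (W := EQ) (g • P) P
  have a₁ : g • P + P = (g + 1) • P := by rw [add_smul, one_smul]
  have a₂ : g • P - P = (g - 1) • P := by rw [sub_smul, one_smul]
  rw [a₁, a₂] at e
  simp only [WeierstrassCurve.Affine.Point.sym2x, e₀, e₁, xRep_eq hP] at e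
  rw [BDiv_eval] at e
  generalize ((g + 1) • P).xRep = r at *
  have f₀ := congrFun e 0
  have f₁ := congrFun e 1
  have f₂ := congrFun e 2
  generalize EQ = W at *
  simp [BDivU, BDivV, BDivW] at f₀ f₁ f₂
  refine ⟨c * c₀ / c₁ ^ 2, div_ne_zero (mul_ne_zero hc hc₀) (pow_ne_zero _ hc₁), ?_, ?_, ?_⟩
  · unfold BDivU; field_simp; linear_combination f₀
  · unfold BDivV; field_simp; linear_combination f₁
  · unfold BDivW; field_simp; linear_combination f₂

theorem core_APSTEP {A' B' : Qb[X]} (h₀ : Rep (g - 1) A B) (h₁ : Rep g A₁ B₁)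
    (hU : A * A' = BDivU (EQ.map C) (A₁ * X) (A₁ + X * B₁) B₁)
    (hV : A * B' + A' * B = BDivV (EQ.map C) (A₁ * X) (A₁ + X * B₁) B₁)
    (hW : B * B' = BDivW (A₁ * X) (A₁ + X * B₁) B₁) :
    (∀ P : Pt, P ≠ 0 → ∃ c : Qb, c ≠ 0 ∧
      ((g + 1) • P).xRep = c • ![A'.eval (xc P), B'.eval (xc P)]) ∧
    ∀ V : Plc, ¬ Ov V 3 → ∀ x : Qb,
      max (V.v (A'.eval x)) (V.v (B'.eval x)) = max 1 (V.v x) ^ nn (g + 1) := by
  have eU := fun x => congrArg (eval x) hU
  have eV := fun x => congrArg (eval x) hV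
  have eW := fun x => congrArg (eval x) hW
  simp only [BDiv_evU, BDiv_evV, BDiv_evW, eval_add, eval_mul, eval_X] at eU eV eW
  constructor
  · intro P hP
    obtain ⟨e, he, f₀, f₁, f₂⟩ := pt_APSTEP h₀ h₁ hP
    rw [← eU] at f₀
    rw [← eV] at f₁
    rw [← eW] at f₂
    generalize ((g + 1) • P).xRep = r at *
    generalize xc P = x at *
    have : A'.eval x = e * r 0 ∧ B'.eval x = e * r 1 := by
      rcases h₀.cop x with hA | hB
      · have k : A'.eval x = e * r 0 := mul_left_cancel₀ hA (by linear_combination f₀)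
        exact ⟨k, mul_left_cancel₀ hA (by linear_combination f₁ - B.eval x * k)⟩
      · have k : B'.eval x = e * r 1 := mul_left_cancel₀ hB (by linear_combination f₂)
        exact ⟨mul_left_cancel₀ hB (by linear_combination f₁ - A.eval x * k), k⟩
    refine ⟨e⁻¹, inv_ne_zero he, ?_⟩
    rw [this.1, this.2]
    ext i; fin_cases i <;> simp [he]
  · intro V hV x
    have g₁ := BDiv_ht EQ V.v V.na (intg_EQ _) (v_Δ hV) (A₁.eval x * x)
      (A₁.eval x + x * B₁.eval x) (B₁.eval x)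
    have g₂ := BDiv_gauss V.v V.na (A₁.eval x) (B₁.eval x) x 1
    rw [mul_one, mul_one, map_one, h₁.ht V hV x, max_comm (V.v x)] at g₂
    rw [g₂, ← eU, ← eV, ← eW, BDiv_gauss V.v V.na, h₀.ht V hV x] at g₁
    have hp : (0 : ℝ) < max 1 (V.v x) := lt_max_of_lt_left one_pos
    refine mul_left_cancel₀ (pow_pos hp (nn (g - 1))).ne' ?_
    rw [g₁, ← pow_add, add_comm (nn (g - 1)), nn_APSTEP]
    ring

theorem split_APSTEP (h₀ : Rep (g - 1) A B) (h₁ : Rep g A₁ B₁) (hA : A ≠ 0) (hB : B ≠ 0) :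
    ∃ A' B', A * A' = BDivU (EQ.map C) (A₁ * X) (A₁ + X * B₁) B₁ ∧
      A * B' + A' * B = BDivV (EQ.map C) (A₁ * X) (A₁ + X * B₁) B₁ ∧
      B * B' = BDivW (A₁ * X) (A₁ + X * B₁) B₁ := by
  have hid : BDivW (A₁ * X) (A₁ + X * B₁) B₁ * A ^ 2
      - BDivV (EQ.map C) (A₁ * X) (A₁ + X * B₁) B₁ * A * B
      + BDivU (EQ.map C) (A₁ * X) (A₁ + X * B₁) B₁ * B ^ 2 = 0 := by
    apply Polynomial.funext
    intro x
    obtain ⟨P, hP, rfl⟩ := ex_pt x
    obtain ⟨e, -, f₀, f₁, f₂⟩ := pt_APSTEP h₀ h₁ hP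
    simp only [BDiv_evU, BDiv_evV, BDiv_evW, eval_add, eval_sub, eval_mul, eval_pow, eval_X,
      eval_zero, f₀, f₁, f₂]
    ring
  have hco : IsCoprime A B := (Polynomial.isCoprime_iff_aeval_ne_zero_of_isAlgClosed Qb Qb A B).2
    fun x => by simpa using h₀.cop x
  generalize BDivW (A₁ * X) (A₁ + X * B₁) B₁ = w at *
  generalize BDivV (EQ.map C) (A₁ * X) (A₁ + X * B₁) B₁ = V at *
  generalize BDivU (EQ.map C) (A₁ * X) (A₁ + X * B₁) B₁ = U at *
  obtain ⟨A', rfl⟩ : A ∣ U := (hco.pow_right (n := 2)).dvd_of_dvd_mul_right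
    ⟨V * B - w * A, by linear_combination hid⟩
  obtain ⟨B', rfl⟩ : B ∣ w := (hco.symm.pow_right (n := 2)).dvd_of_dvd_mul_right
    ⟨V * A - A * A' * B, by linear_combination hid⟩
  exact ⟨A', B', rfl, mul_left_cancel₀ (mul_ne_zero hA hB) (by linear_combination hid), rfl⟩

end

theorem PSTEP_pf : PSTEP_st := by
  intro g A B A₁ B₁ g₀ g₁ g₂ h₀ h₁
  have hn' := io_ne g₀
  have hn₂ := io_ne g₂
  have hB : B ≠ 0 := h₀.ne g₀
  obtain ⟨A', B', hU, hV, hW⟩ := split_APSTEP h₀ h₁ h₀.mon.ne_zero hB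
  obtain ⟨k₁, k₂⟩ := core_APSTEP h₀ h₁ hU hV hW
  obtain ⟨a₁, a₂, a₃, a₄, a₅, -, -⟩ := h₀
  obtain ⟨b₁, b₂, b₃, b₄, -, -, -⟩ := h₁
  have q₁ := nn_APSTEP g
  have p₀ := nn_pos g₀
  have p₂ := nn_pos g₂
  obtain ⟨m, hm⟩ : ∃ m, nn g = m + 1 := ⟨nn g - 1, by have := nn_pos g₁; omega⟩
  rw [hm] at b₂ b₃ q₁
  rw [Nat.add_sub_cancel] at b₃
  generalize EQ = W at hU hV
  have hs : (A₁ * X).Monic := b₁.mul monic_X
  have ds : (A₁ * X).natDegree = m + 2 := by rw [natDegree_mul_X b₁.ne_zero, b₂]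
  have dX : (X * B₁).natDegree ≤ m + 1 :=
    natDegree_mul_le.trans (by rw [natDegree_X, b₃]; omega)
  have dt : (A₁ + X * B₁).natDegree ≤ m + 1 :=
    (natDegree_add_le _ _).trans (max_le b₂.le dX)
  have dr : (C W.b₄ * (A₁ * X) * B₁ + C W.b₆ * (A₁ + X * B₁) * B₁ + C W.b₈ * B₁ ^ 2).natDegree
      ≤ 2 * m + 2 := by
    refine (natDegree_add_le _ _).trans (max_le ((natDegree_add_le _ _).trans (max_le ?_ ?_)) ?_)
    · refine natDegree_mul_le.trans ?_
      have := natDegree_C_mul_le W.b₄ (A₁ * X)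
      omega
    · refine natDegree_mul_le.trans ?_
      have := natDegree_C_mul_le W.b₆ (A₁ + X * B₁)
      omega
    · refine (natDegree_C_mul_le _ _).trans (natDegree_pow_le.trans ?_)
      omega
  have d2 : ((A₁ * X) ^ 2).natDegree = 2 * m + 4 := by rw [hs.natDegree_pow, ds]; ring
  have eU : A * A' = (A₁ * X) ^ 2 -
      (C W.b₄ * (A₁ * X) * B₁ + C W.b₆ * (A₁ + X * B₁) * B₁ + C W.b₈ * B₁ ^ 2) := by
    rw [hU]
    simp only [BDivU, WeierstrassCurve.map_b₄, WeierstrassCurve.map_b₆, WeierstrassCurve.map_b₈]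
    ring
  have mU : (A * A').Monic := by
    rw [eU]
    exact (hs.pow 2).sub_of_left (degree_lt_degree (by omega))
  have dU : (A * A').natDegree = 2 * m + 4 := by
    rw [eU, natDegree_sub_eq_left_of_natDegree_lt (by omega), d2]
  have mA' : A'.Monic := a₁.of_mul_monic_left mU
  rw [a₁.natDegree_mul mA', a₂] at dU
  have eW : B * B' = (A₁ - X * B₁) ^ 2 := by rw [hW, BDivW]; ring
  have cD : (A₁ - X * B₁).coeff (m + 1) = -(io (g - 1) * io (g + 1)) := by
    rw [coeff_sub, coeff_X_mul, ← b₂, b₁.coeff_natDegree, ← b₃, coeff_natDegree, b₄, map_sub,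
      map_add, map_one]
    ring
  have cD0 : (A₁ - X * B₁).coeff (m + 1) ≠ 0 := cD ▸ neg_ne_zero.2 (mul_ne_zero hn' hn₂)
  have dD : (A₁ - X * B₁).natDegree = m + 1 :=
    natDegree_eq_of_le_of_coeff_ne_zero ((natDegree_sub_le _ _).trans (max_le b₂.le dX)) cD0
  have lD : (A₁ - X * B₁).leadingCoeff = -(io (g - 1) * io (g + 1)) := by
    rw [leadingCoeff, dD, cD]
  have lB : B'.leadingCoeff = io (g + 1) ^ 2 := by
    have := congrArg leadingCoeff eW
    rw [leadingCoeff_mul, leadingCoeff_pow, a₄, lD] at this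
    exact mul_left_cancel₀ (pow_ne_zero 2 hn') (by linear_combination this)
  have hB' : B' ≠ 0 := leadingCoeff_ne_zero.1 (lB ▸ pow_ne_zero 2 hn₂)
  have dB := congrArg natDegree eW
  rw [natDegree_mul hB hB', natDegree_pow, a₃, dD] at dB
  refine ⟨A', B', mA', by omega, by omega, lB, fun ho => ?_, k₁, k₂⟩
  obtain ⟨D, hD⟩ := a₅ fun hd => ho (by
    rw [show g + 1 = g - 1 + 2 by ring]
    exact dvd_add hd dvd_rfl)
  obtain ⟨E, hE⟩ : D ∣ A₁ - X * B₁ := (IsIntegrallyClosed.pow_dvd_pow_iff two_ne_zero).1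
    ⟨B', by rw [← eW, hD]; ring⟩
  exact ⟨E, mul_left_cancel₀ hB (by rw [eW, hE, hD]; ring)⟩

end Pool.Agent.MP_e23604_nt.W

end

section

/-!
The square of a prime is a cube up to powers of three in the field of its torsion points.
-/

set_option autoImplicit false

open Finset QuadraticAlgebra Polynomial
open scoped Classical

namespace Pool.Agent.MP_e23604_nt.W

open B R S

theorem rat_ACUL {r : ℚ} (h0 : r ≠ 0) (h : ∀ p : ℕ, p.Prime → p ≠ 3 → padicValRat p r = 0) :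
    ∃ m : ℤ, r = 3 ^ m ∨ r = -3 ^ m := by
  have hn : r.num.natAbs ≠ 0 := by simpa using h0
  have key : ∀ p : ℕ, p.Prime → p ≠ 3 → padicValNat p r.num.natAbs = padicValNat p r.den :=
    fun p hp h3 => by
      have := h p hp h3
      rw [padicValRat, padicValInt] at this
      omega
  have h1 : r.num.natAbs = 3 ^ _ := Nat.eq_prime_pow_of_unique_prime_dvd hn fun {p} hp e => by
    by_contra h3
    have : Fact p.Prime := ⟨hp⟩
    have k1 := one_le_padicValNat_of_dvd hn e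
    rw [key p hp h3] at k1
    exact hp.ne_one (Nat.eq_one_of_dvd_coprimes r.reduced e (dvd_of_one_le_padicValNat k1))
  have h2 : r.den = 3 ^ _ := Nat.eq_prime_pow_of_unique_prime_dvd r.den_nz fun {p} hp e => by
    by_contra h3
    have : Fact p.Prime := ⟨hp⟩
    have k1 := one_le_padicValNat_of_dvd r.den_nz e
    rw [← key p hp h3] at k1
    exact hp.ne_one (Nat.eq_one_of_dvd_coprimes r.reduced (dvd_of_one_le_padicValNat k1) e)
  generalize r.num.natAbs.primeFactorsList.length = a at h1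
  generalize r.den.primeFactorsList.length = b at h2
  refine ⟨(a : ℤ) - b, ?_⟩
  rw [zpow_sub₀ three_ne_zero, zpow_natCast, zpow_natCast]
  have e := Rat.num_div_den r
  rw [h2] at e
  rcases Int.natAbs_eq r.num with k | k <;> rw [h1] at k <;> rw [k] at e <;> push_cast at e
  · exact Or.inl e.symm
  · exact Or.inr (by rw [← e, neg_div])

theorem orb_ACUL (f : Pt → Qb) (hf : ∀ S, f ((ω : Zw) • S) = w3 * f S) (A : Finset Pt) :
    (∀ S ∈ A, (ω : Zw) • S ∈ A ∧ (ω : Zw) • S ≠ S) →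
      ∃ A' ⊆ A, ∏ S ∈ A, f S = (∏ S ∈ A', f S) ^ 3 := by
  induction A using Finset.strongInduction with
  | H A ih =>
  intro hA
  rcases A.eq_empty_or_nonempty with rfl | ⟨S, hS⟩
  · exact ⟨∅, Subset.rfl, by simp⟩
  have c3 : ∀ T : Pt, (ω : Zw) • (ω : Zw) • (ω : Zw) • T = T := fun T => by
    rw [← mul_smul, ← mul_smul, show (ω : Zw) * ω * ω = 1 by decide, one_smul]
  have inj : ∀ T U : Pt, (ω : Zw) • T = (ω : Zw) • U → T = U := fun T U e => by
    rw [← c3 T, e, c3]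
  have h1 := hA S hS
  have h2 := hA _ h1.1
  have h3 : (ω : Zw) • (ω : Zw) • S ≠ S := fun e => h1.2 (by
    conv_lhs => rw [← e]
    exact c3 S)
  have hsub : ({S, (ω : Zw) • S, (ω : Zw) • (ω : Zw) • S} : Finset Pt) ⊆ A := by
    intro T hT
    simp only [mem_insert, mem_singleton] at hT
    rcases hT with rfl | rfl | rfl
    exacts [hS, h1.1, h2.1]
  obtain ⟨A', k1, k2⟩ := ih (A \ {S, (ω : Zw) • S, (ω : Zw) • (ω : Zw) • S})
    (sdiff_ssubset hsub (insert_nonempty _ _)) fun T hT => by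
      rw [mem_sdiff] at hT ⊢
      refine ⟨⟨(hA T hT.1).1, fun e => hT.2 ?_⟩, (hA T hT.1).2⟩
      simp only [mem_insert, mem_singleton] at e ⊢
      rcases e with e | e | e
      · exact Or.inr (Or.inr (inj _ _ (e.trans (c3 S).symm)))
      · exact Or.inl (inj _ _ e)
      · exact Or.inr (Or.inl (inj _ _ e))
  have hS' : S ∉ A' := fun e => (mem_sdiff.1 (k1 e)).2 (mem_insert_self _ _)
  refine ⟨insert S A', insert_subset hS (k1.trans sdiff_subset), ?_⟩
  rw [← prod_sdiff hsub, k2, prod_insert hS', prod_insert (by simp [h1.2.symm, h3.symm]),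
    prod_insert (by simpa using h2.2.symm), prod_singleton, hf (ω • S), hf S]
  linear_combination (∏ S ∈ A', f S) ^ 3 * f S ^ 3 * w3_cube

theorem two_ACUL {g : GQ} (hg : g ∈ UM 2) : ∃ ξ : Qb, ξ ^ 3 = 2 ^ 2 ∧ g ξ = ξ := by
  obtain ⟨x, hx⟩ := IsAlgClosed.exists_pow_nat_eq (-1 / 4 : Qb) three_pos
  obtain ⟨P, h0, rfl⟩ := ex_pt x
  have hy : yc P = -1 / 2 := by
    have : (yc P + 1 / 2) ^ 2 = 0 := by linear_combination xy_eq P + hx
    linear_combination pow_eq_zero_iff two_ne_zero |>.1 this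
  have h1 : -P = P := pt_ext (neg_ne_zero.2 h0) h0 (xc_neg P).1 (by
    rw [(xc_neg P).2 h0, hy]
    norm_num)
  have h2 : (2 : Zw) • P = 0 := by
    rw [two_smul]
    exact neg_eq_iff_add_eq_zero.1 h1
  have h3 := (xc_gal g P).1
  rw [hg.2 P h2] at h3
  refine ⟨-(xc P)⁻¹, ?_, by rw [map_neg, map_inv₀, ← h3]⟩
  rw [neg_pow, inv_pow, hx]
  norm_num

theorem CUL_pf (hU : UNIT_st) : CUL_st := by
  intro l hl h3 g hg
  by_cases h2 : l = 2
  · subst h2
    obtain ⟨ξ, e1, e2⟩ := two_ACUL (g := g) (by simpa using hg)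
    exact ⟨ξ, 0, by simpa using e1, e2⟩
  have nd : ∀ p : ℕ, p.Prime → l ≠ p → ¬ p ∣ nn (l : Zw) := fun p hp e k => by
    rw [nn_nat] at k
    exact e ((Nat.prime_dvd_prime_iff_eq hp hl).1 (hp.dvd_of_dvd_pow k)).symm
  have hc : IsCoprime (l : Zw) 6 := cop6.2 ⟨fun e => nd 2 Nat.prime_two h2 (two_dvd_iff.1 e),
    fun e => nd 3 Nat.prime_three h3 (pw_dvd_iff.1 e)⟩
  have h0 := cop6_ne hc
  have hpw := (cop6.1 hc).2
  obtain ⟨A', k1, k2⟩ := orb_ACUL (fun S => xc T0 - xc S)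
    (fun S => by rw [(xc_w S).1, xc_T0.1]; ring) ((tor l).erase 0) fun S hS => by
      rw [mem_tor0 h0] at hS ⊢
      refine ⟨⟨fun e => hS.1 ((unit_smul w_unit).1 e), by rw [smul_comm, hS.2, smul_zero]⟩,
        fun e => hS.1 (cop_smul (pw_prime.coprime_iff_not_dvd.2 hpw) ?_ hS.2)⟩
      exact dvd_smul (a := ω - 1) (by rw [sub_smul, e, one_smul, sub_self]) ⟨-ω, by decide⟩
  have hF : Fa l T0 = (l : Qb) ^ 2 * (∏ S ∈ A', (xc T0 - xc S)) ^ 3 := by
    rw [Fa, k2, map_natCast]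
  have hη : g (∏ S ∈ A', (xc T0 - xc S)) = ∏ S ∈ A', (xc T0 - xc S) := by
    rw [map_prod]
    refine prod_congr rfl fun S hS => ?_
    rw [map_sub, ← (xc_gal g S).1, ← (xc_gal g T0).1, gal_T0, hg.2 S ((mem_tor0 h0).1 (k1 hS)).2]
  generalize ∏ S ∈ A', (xc T0 - xc S) = η at hF hη
  obtain ⟨r, hr⟩ := fixed_rat (x := Fa l T0) fun σ => by
    rw [Fa, map_mul, map_natCast, map_pow, map_natCast, map_prod,
      ← prod_tor0 h0 (gal σ) (fun S e => ?_) (fun S _ e => (gal_ne σ).1 e) fun S => xc T0 - xc S]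
    · congr 1
      refine prod_congr rfl fun S _ => ?_
      rw [map_sub, ← (xc_gal σ S).1, ← (xc_gal σ T0).1, gal_T0]
    · rw [Nat.cast_smul_eq_nsmul] at e ⊢
      rw [← map_nsmul, e, map_zero]
  have hv : ∀ V : Plc, ¬ Ov V 3 → V.v (r : Qb) = 1 := fun V hV => by
    rw [← hr]
    refine ((hU l V T0 hc hV).1 ?_).1
    rcases smul_T0 hpw with e | e <;> rw [e]
    · exact T0_E1 V
    · exact fun k => T0_E1 V (by simpa using E1n k)
  have r0 : r ≠ 0 := fun e => by simpa [e] using hv V2 V2_three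
  obtain ⟨m, hm⟩ := rat_ACUL r0 fun p hp e => by
    have : Fact p.Prime := ⟨hp⟩
    have e1 := hv ⟨p, 1⟩ ((Ov_l ⟨p, 1⟩).cop (by
      have := Nat.isCoprime_iff_coprime.2 ((Nat.coprime_primes hp Nat.prime_three).2 e)
      simpa using this.map (Int.castRingHom Zw)))
    have e2 := R.DIC_ok.2.2.1 p 1 r r0
    have e3 : (p : ℝ) ^ (-padicValRat p r) = 1 := e2.symm.trans e1
    rw [zpow_eq_one_iff_right₀ (by positivity) (by exact_mod_cast hp.ne_one)] at e3
    exact neg_eq_zero.1 e3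
  rw [hr] at hF
  have η0 : η ≠ 0 := fun e => r0 (by simpa [e] using hF)
  have t0 : (3 : Qb) ^ m ≠ 0 := zpow_ne_zero _ three_ne_zero
  rcases hm with rfl | rfl <;> push_cast at hF
  · refine ⟨η⁻¹, -m, ?_, by rw [map_inv₀, hη]⟩
    rw [zpow_neg]
    field_simp
    linear_combination hF
  · refine ⟨-η⁻¹, -m, ?_, by rw [map_neg, map_inv₀, hη]⟩
    rw [zpow_neg]
    field_simp
    linear_combination hF

end Pool.Agent.MP_e23604_nt.W

end
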