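import Pool.Agent.Mg.Fe23604m.Ga6f63b

set_option linter.all false

section

/-!
Change of the auxiliary number in the theta function.
-/

set_option autoImplicit false

open Finset QuadraticAlgebra Polynomial
open scoped Classical

namespace Pool.Agent.MP_e23604_nt.W

open B R S

theorem er_AIDN {c : Zw} (hc : c ≠ 0) (x : Qb) :
    ∏ U ∈ (tor c).erase 0, (x - xc U) = ∏ U ∈ tor c, (if U = 0 then 1 else x - xc U) := by
  rw [← mul_prod_erase _ _ (zero_tor hc), if_pos rfl, one_mul]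
  exact prod_congr rfl fun U hU => by rw [if_neg (mem_erase.1 hU).1]

theorem card_AIDN (hC : CARD_st) {c : Zw} (hc : c ≠ 0) : ((tor c).erase 0).card = nn c - 1 := by
  rw [card_erase_of_mem (zero_tor hc), hC c hc]

theorem fa_AIDN (hP : POLY_st) (hM : MAST_st) (hR : BPR_st) (hC : CARD_st) {a b : Zw} {P : Pt}
    (ha : IsCoprime a 6) (hb : IsCoprime b 6) (h : b • P ≠ 0) :
    Fa a (b • P) * Fa b P ^ nn a = Fa (a * b) P := by
  have ha0 := cop6_ne ha
  have hb0 := cop6_ne hb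
  obtain ⟨A, B, hAB⟩ := hP b hb0
  have hB := (hR b A B hAB (cop6.1 hb).1).2 P
  choose q' hq' using smul_onto hb0
  obtain ⟨q, hq, hq0⟩ : ∃ q : Pt → Pt, (∀ S, b • q S = S) ∧ q 0 = 0 := by
    refine ⟨fun S => if S = 0 then 0 else q' S, fun S => ?_, if_pos rfl⟩
    by_cases e : S = 0
    · simp [e]
    · simp [e, hq']
  have h2 : IsCoprime a 2 := by
    have e : (6 : Zw) = 2 * 3 := by norm_num
    rw [e] at ha
    exact ha.of_mul_right_left
  have key : ∀ S ∈ (tor a).erase 0,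
      ∏ T ∈ tor b, (if q S + T = 0 then 1 else xc P - xc (q S + T)) =
        Fa b P * (xc (b • P) - xc S) := fun S hS => by
    rw [mem_tor0 ha0] at hS
    have h3 : (2 * b) • q S ≠ 0 := by
      rw [mul_smul, hq]
      exact fun e => hS.1 (cop_smul h2 hS.2 e)
    have h4 := congrArg (eval (xc P)) (hM b A B (q S) hAB h3)
    rw [eval_prod, eval_sub, eval_mul, eval_C, hq, hAB.val h, hB] at h4
    rw [mul_sub, mul_comm (Fa b P), mul_comm (Fa b P), ← h4]
    refine prod_congr rfl fun T hT => ?_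
    rw [if_neg, eval_sub, eval_X, eval_C]
    intro e
    have := congrArg (b • ·) e
    simp only [smul_add, hq, (mem_tor hb0).1 hT, add_zero, smul_zero] at this
    exact hS.1 this
  have e1 : Fa (a * b) P = io a ^ 2 * (Fa b P * ∏ S ∈ (tor a).erase 0,
      (Fa b P * (xc (b • P) - xc S))) := by
    rw [Fa, er_AIDN (mul_ne_zero ha0 hb0), prod_tor_mul ha0 hb0 q hq,
      ← mul_prod_erase _ _ (zero_tor ha0), prod_congr rfl key, hq0]
    simp only [zero_add]
    rw [← er_AIDN hb0, map_mul, mul_pow, mul_assoc, ← mul_assoc (io b ^ 2)]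
    rfl
  have e2 : nn a = nn a - 1 + 1 := by
    have := nn_pos ha0
    omega
  rw [e1, prod_mul_distrib, prod_const, card_AIDN hC ha0, Fa]
  conv_lhs => rw [e2, pow_succ]
  ring

theorem cc_AIDN (hP : POLY_st) (hR : BPR_st) (hC : CARD_st) (hN : NRF_st) {a b : Zw}
    (ha : IsCoprime a 6) (hb : IsCoprime b 6) (h : IsCoprime a b) :
    cc a ^ (nn b - 1) = io a ^ (2 * (nn b - 1)) * io b ^ (2 * (nn a - 1)) *
      ∏ S ∈ (tor a).erase 0, ∏ T ∈ (tor b).erase 0, (xc S - xc T) := by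
  have ha0 := cop6_ne ha
  have hb0 := cop6_ne hb
  obtain ⟨A, B, hAB⟩ := hP b hb0
  have hB := (hR b A B hAB (cop6.1 hb).1).2
  rw [(hN a b A B ha h hb0 hAB).2.1, Cb, prod_congr rfl fun S _ => hB S]
  simp only [Fa]
  rw [prod_mul_distrib, prod_const, card_AIDN hC ha0, ← pow_mul, mul_assoc, Nat.mul_sub 2 (nn b)]

theorem IDN_pf (hP : POLY_st) (hM : MAST_st) (hR : BPR_st) (hC : CARD_st) (hN : NRF_st) :
    IDN_st := by
  intro a b P ha hb h haP hbP
  have ha0 := cop6_ne ha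
  have hb0 := cop6_ne hb
  have e1 : cc a ^ (nn b - 1) = cc b ^ (nn a - 1) := by
    rw [cc_AIDN hP hR hC hN ha hb h, cc_AIDN hP hR hC hN hb ha h.symm, mul_comm (io b ^ _),
      prod_comm]
    congr 1
    refine prod_congr rfl fun T _ => ?_
    have e : ∀ S ∈ (tor a).erase 0, xc S - xc T = -1 * (xc T - xc S) := fun S _ => by ring
    rw [prod_congr rfl e, prod_mul_distrib, prod_const, card_AIDN hC ha0,
      (Nat.Odd.sub_odd (cop6_odd ha) odd_one).neg_one_pow, one_mul]
  have e2 : nn a = nn a - 1 + 1 := by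
    have := nn_pos ha0
    omega
  have e3 : nn b = nn b - 1 + 1 := by
    have := nn_pos hb0
    omega
  have e4 : cc a * cc b ^ nn a = cc b * cc a ^ nn b := by
    rw [e2, e3, pow_succ, pow_succ, e1]
    ring
  simp only [Th]
  rw [div_pow, div_pow, div_mul_div_comm, div_mul_div_comm, fa_AIDN hP hM hR hC ha hb hbP,
    fa_AIDN hP hM hR hC hb ha haP, mul_comm b a, e4]

end Pool.Agent.MP_e23604_nt.W

end

section

set_option autoImplicit false
open Finset QuadraticAlgebra Polynomial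
open scoped Classical
namespace Pool.Agent.MP_e23604_nt.W
open B R S

theorem mem_ADIST {W : Set Zw} {M : Zw} {Q P : Pt} (hM : M ≠ 0) (h : M • Q = 0) :
    P ∈ Orb W M Q ↔ ∃ u ∈ W, P = u • Q := by
  rw [Orb, mem_filter, mem_tor hM, and_iff_right_iff_imp]
  rintro ⟨u, -, rfl⟩
  rw [smul_comm, h, smul_zero]

theorem key_ADIST (hG : CYG_st) {W : Set Zw} {b m : Zw} {Q : Pt} (hb : b ≠ 0) (hm : m ≠ 0)
    (hQ : Gen (b * m) Q) (hW : Sat W m) {P : Pt} :
    P ∈ Orb W (b * m) Q ↔ b • P ∈ Orb W m (b • Q) := by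
  rw [mem_ADIST (mul_ne_zero hb hm) hQ.zero, mem_ADIST hm (hQ.smul hb).zero]
  refine ⟨?_, ?_⟩
  · rintro ⟨u, hu, rfl⟩
    exact ⟨u, hu, smul_comm _ _ _⟩
  · rintro ⟨u, hu, e⟩
    have h1 : b • (P - u • Q) = 0 := by rw [smul_sub, e, smul_comm, sub_self]
    obtain ⟨c, hc⟩ := (hG _ (mul_ne_zero hb hm)).2.1 Q hQ _ (dvd_smul h1 (dvd_mul_right b m))
    rw [hc, smul_comm, hQ.smul hb] at h1
    exact ⟨u + c, hW u hu _ (by simpa using h1), by rw [add_smul, ← hc, add_sub_cancel]⟩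

theorem DIST_pf (hG : CYG_st) : DIST_st := by
  intro A _ F F' W b m Q hb hm hQ hW
  have hbm := mul_ne_zero hb hm
  have hQ' := hQ.smul hb
  refine ⟨fun h => ?_, fun b' hb' => ?_⟩
  · rw [← sum_fiberwise_of_maps_to (g := fun P : Pt => b • P)
      fun P hP => (key_ADIST hG hb hm hQ hW).1 hP]
    refine sum_congr rfl fun P' hP' => ?_
    obtain ⟨u, hu, rfl⟩ := (mem_ADIST hm hQ'.zero).1 hP'
    rw [smul_comm u b Q] at hP' ⊢
    rw [← h _ ((key_ADIST hG hb hm hQ hW).2 hP')]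
    refine (sum_nbij' (u • Q + ·) (· - u • Q) (fun T hT => ?_) (fun U hU => ?_) (by simp) (by simp)
      fun _ _ => rfl).symm
    · rw [mem_tor hb] at hT
      rw [mem_filter, key_ADIST hG hb hm hQ hW, smul_add, hT, add_zero]
      exact ⟨hP', rfl⟩
    · rw [mem_tor hb, smul_sub, (mem_filter.1 hU).2, sub_self]
  · have e : Orb W (b * m) Q = Orb {u | u ∈ W ∧ ¬ b ∣ u} (b * m) Q ∪
        (Orb W m (b • Q)).image fun P => b' • P := by
      ext P
      simp only [mem_union, mem_image, mem_ADIST hbm hQ.zero, mem_ADIST hm hQ'.zero]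
      constructor
      · rintro ⟨u, hu, rfl⟩
        by_cases h : b ∣ u
        · obtain ⟨t, rfl⟩ := h
          refine Or.inr ⟨_, ⟨_, hu, rfl⟩, ?_⟩
          rw [← mul_smul b', mul_comm b t, mul_smul t b Q]
          refine smul_congr hQ'.zero ?_
          convert hb'.mul_left t using 1
          ring
        · exact Or.inl ⟨u, ⟨hu, h⟩, rfl⟩
      · rintro (⟨u, hu, rfl⟩ | ⟨_, ⟨u, hu, rfl⟩, rfl⟩)
        · exact ⟨u, hu.1, rfl⟩
        · refine ⟨b' * (u * b), hW u hu _ ?_, by rw [mul_smul, mul_smul]⟩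
          convert hb'.mul_left u using 1
          ring
    have hi : ∀ P ∈ Orb W m (b • Q), b • b' • P = P := fun P hP => by
      rw [← mul_smul, smul_congr ((mem_tor hm).1 (mem_filter.1 hP).1) hb', one_smul]
    rw [e, sum_union, sum_image fun P hP P' hP' h => by rw [← hi P hP, ← hi P' hP', h]]
    refine disjoint_left.2 fun P h1 h2 => ?_
    obtain ⟨u, hu, rfl⟩ := (mem_ADIST hbm hQ.zero).1 h1
    obtain ⟨P', h3, h4⟩ := mem_image.1 h2
    obtain ⟨u', -, rfl⟩ := (mem_ADIST hm hQ'.zero).1 h3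
    rw [← mul_smul, ← mul_smul, hQ.congr] at h4
    exact hu.2 (by simpa using dvd_sub (dvd_mul_left b (b' * u')) ((dvd_mul_right b m).trans h4))

end Pool.Agent.MP_e23604_nt.W

end
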