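import Pool.Agent.Mg.Fe23604m.Gc4cdb1
import Pool.Agent.MP_e23604_nt.S.Res
import Pool.Agent.Mg.Fe23604m.G4d6502
import Pool.Agent.Mg.Fe23604m.Ga3c24f
import Pool.Agent.Mg.Fe23604m.G0a5d16
import Pool.Agent.Mg.Fe23604m.G5224b9

set_option linter.all false

section

/-!
The statements of the steps of the parity theorem at the prime three.
-/

set_option autoImplicit false

open Module Filter Topology Finset
open scoped Classical

namespace Pool.Agent.MP_e23604_nt.S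

open B R
open Q (Wn)

/-! ### Cocycles of order three -/

/-- local cocycles -/
def LU_st : Prop :=
  (∀ (b : Bool) (q : ℕ) [Fact q.Prime] (φ : GQ) (a : GQ → ZMod 3), Frob q 1 φ →
    Tl b (Dec (nv q 1)) a → Ur q a → a φ = 0 → ∀ g ∈ Dec (nv q 1), a g = 0) ∧
  (∀ (q : ℕ) [Fact q.Prime] (a : GQ → ZMod 3), q % 3 = 2 → Tl true (Dec (nv q 1)) a → Ur q a →
    Tv (Dec (nv q 1)) a) ∧
  (∀ (b : Bool) (q : ℕ) [Fact q.Prime] (a a' : GQ → ZMod 3), Tl b (Dec (nv q 1)) a →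
    Tl b (Dec (nv q 1)) a' → Ur q a → Ur q a' → ¬ Tv (Dec (nv q 1)) a' →
    ∃ t, ∀ g ∈ Dec (nv q 1), a g = t * a' g) ∧
  (∀ (l : ℕ) [Fact l.Prime] (a a' : GQ → ZMod 3), l ≠ 3 → Adt (Ine l 1) a → Lc (Ine l 1) a →
    Adt (Ine l 1) a' → Lc (Ine l 1) a' → ¬ Ur l a' →
    (∀ τ ∈ Ine l 1, kum l τ ≠ 0 → a' τ ≠ 0) ∧ ∃ t, ∀ τ ∈ Ine l 1, a τ = t * a' τ) ∧
  ∀ (l : ℕ) [Fact l.Prime] (a : GQ → ZMod 3), l % 3 = 2 → Tl false (Dec (nv l 1)) a → Ur l a

/-- the Kummer cocycles of the primes -/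
def BSM_st : Prop := Bs true fun l => kum l

/-- the cubic characters -/
def BSZ_st : Prop := ∃ κ, Bs false κ

/-- both cases -/
def BS_st : Prop := ∀ b, ∃ κ, Bs b κ

theorem BS_of (h1 : BSM_st) (h2 : BSZ_st) : BS_st := fun b => by
  cases b
  exacts [h2, ⟨_, h1⟩]

/-! ### Modules -/

/-- statements about all modules -/
def AllP (S : ∀ (A : Type) [AddCommGroup A], (A ≃ₗ[ℤ] A) → Act A → ℕ → A → Bool → Prop) : Prop :=
  ∀ (A : Type) [AddCommGroup A] (J : A ≃ₗ[ℤ] A) (η : Act A) (n : ℕ) (T : A) (b : Bool),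
    P1 J η n T b → S A J η n T b

/-- statements about all modules with auxiliary primes -/
def AllQ (S : ∀ (A : Type) [AddCommGroup A], (A ≃ₗ[ℤ] A) → Act A → ℕ → A → Bool → ℕ → ℕ →
    Finset ℕ → (ℕ → GQ) → (ℕ → GQ) → Prop) : Prop :=
  AllP fun A _ J η n T b => ∀ K ζ l₀ Q φ τ, Qs J η n K ζ l₀ Q φ τ → S A J η n T b K l₀ Q φ τ

/-- the kernel of the affine action -/
def LEV_st : Prop := ∀ (A : Type) [AddCommGroup A] (J : A ≃ₗ[ℤ] A) (η : Act A) (n m : ℕ)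
  (X : Set (GQ → A)), Cm3 J → Ga J n η → X.Finite → (∀ ξ ∈ X, Zc J η m ξ) →
  ∃ N, Lp 3 N GK ∧ ∀ g, g ∈ N ↔ Kr J η m X g

/-- pairings and levels -/
def PAI_st : Prop := ∀ (A : Type) [AddCommGroup A] (J : A ≃ₗ[ℤ] A) (K : ℕ) (e : A → A → Qb),
  Cm3 J → Pai (3 ^ K) e → 1 ≤ K →
  (∀ T, T ∈ Wn J 1 ∧ T ≠ 0 → ∀ y ∈ Wn J (2 * K),
    e T y ^ 3 = 1 ∧ (e T y = 1 ↔ y ∈ Wn J (2 * K - 1))) ∧
  (∀ a b, a + b ≤ 2 * K → ∀ x ∈ Wn J a, ∀ y ∈ Wn J b, e x y = 1) ∧
  ∀ x ∈ Wn J (2 * K), ∀ y ∈ Wn J (2 * K), e x y * e y x = 1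

/-- reciprocity for cup products -/
def CUP_st : Prop := AllP fun A _ J η n _ _ => ∀ (K k : ℕ) (e : A → A → Qb) (a b : GQ → A)
  (S : Finset ℕ) (r : ℕ → ℚ), Wp η (3 ^ K) e → Zc J η (2 * K) a → Zc J η (2 * K) b →
  (∀ l ∈ S, l.Prime ∧ l ≠ 3) →
  (∀ (l : ℕ) [Fact l.Prime], l ∈ S → Iv l 1 (cup η e a b) (3 ^ k) (r l)) →
  (∀ (l : ℕ) [Fact l.Prime], l ∉ S → Cob (Dec (nv l 1)) (cup η e a b) ∨
    (l ≠ 3 ∧ ¬ l ∣ n ∧ ∀ γ, ∀ τ ∈ Ine l γ, a τ = 0 ∧ b τ = 0)) →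
  ∃ z : ℤ, ∑ l ∈ S, r l = z

/-- the invariant of the product of an unramified character and the class of a torsion point -/
def INVU_st : Prop := AllP fun A _ J η n T _ => ∀ (K : ℕ) (e : A → A → Qb) (l : ℕ) [Fact l.Prime]
  (R : A) (u : GQ → ZMod 3), 1 ≤ K → Wp η (3 ^ K) e → l ∣ n → R ∈ Wn J (2 * K + 1) →
  R ∉ Wn J (2 * K) → (∀ g ∈ Dec (nv l 1), η g T = T) → Adt (Dec (nv l 1)) u →
  Lc (Dec (nv l 1)) u → Ur l u → ¬ Tv (Dec (nv l 1)) u →
  ∃ v : ℤ, ¬ 3 ∣ v ∧ Iv l 1 (cup η e (chT u T) (dd η R)) 3 (v / 3)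

/-- the unramified class does not come from a point -/
def UPB_st : Prop := AllP fun _ _ _ η n T b => ∀ (l : ℕ) [Fact l.Prime] (u : GQ → ZMod 3), l ∣ n →
  Tl b (Dec (nv l 1)) u → Ur l u → InL η (Dec (nv l 1)) (chT u T) → Tv (Dec (nv l 1)) u

/-- local classes are unramified modulo points -/
def UNL_st : Prop := AllP fun _ _ _ η n T b => ∀ (l : ℕ) [Fact l.Prime] (χ : GQ → ZMod 3), l ∣ n →
  Tl b (Dec (nv l 1)) χ →
  ∃ u, Tl b (Dec (nv l 1)) u ∧ Ur l u ∧ InL η (Dec (nv l 1)) (chT (χ - u) T)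

/-- the condition at the remaining primes -/
def LAST_st : Prop := AllQ fun A _ J η n T b K l₀ Q _ _ => ∀ (l : ℕ) [Fact l.Prime] (ξ : GQ → A)
  (u : GQ → ZMod 3), l ∣ n → l ∉ Ia (!b) n l₀ → Zc J η (2 * K) ξ → UnrO n Q ξ →
  InL η (Dec (nv 3 1)) ξ →
  (∀ (l' : ℕ) [Fact l'.Prime], l' ∈ Ia (!b) n l₀ → InL η (Dec (nv l' 1)) ξ) →
  Tl b (Dec (nv l 1)) u → Ur l u → InL η (Dec (nv l 1)) (ξ + chT u T) → Tv (Dec (nv l 1)) u

/-- the local classes at the bad primes -/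
def CLS_st : Prop := AllQ fun _ _ J η n T b _ l₀ Q _ _ =>
  ∃ cl : (GQ → ZMod 3) → ℕ → ZMod 3, ∀ a a', Tl b ⊤ a → Tl b ⊤ a' → UnrO n Q a → UnrO n Q a' →
    InL η (Dec (nv 3 1)) (chT (a - a') T) → (∀ l ∈ Ia (!b) n l₀, cl a l = cl a' l) →
    chT (a - a') T ∈ Sq J η n Q 1

/-- correction by auxiliary primes -/
def COR_st : Prop := AllQ fun A _ J η n T b K _ Q _ _ => ∀ (m : ℕ) (ξ : GQ → A), 1 ≤ m →
  m ≤ 2 * K → Zc J η m ξ → UnrO n Q ξ → InL η (Dec (nv 3 1)) ξ →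
  (∀ (l : ℕ) [Fact l.Prime], l ∣ n →
    ∃ χ, Tl b (Dec (nv l 1)) χ ∧ InL η (Dec (nv l 1)) (ξ + chT χ T)) →
  ∃ a, ξ + chT a T ∈ Sq J η n Q m

/-- lifting of cocycles -/
def LIF0_st : Prop := AllQ fun _ _ J η n _ _ K _ Q _ _ => ∀ m : ℕ, m + 1 ≤ 2 * K →
  ∀ ξ' ∈ Sq J (tw η) n Q m, ∃ ξ, Zc J η (m + 1) ξ ∧ ∀ g, wo J (ξ g) = ξ' g

/-- removal of ramification -/
def RAM_st : Prop := AllP fun A _ J η n T b => ∀ (Q : Finset ℕ) (m : ℕ) (ξ : GQ → A), Zc J η m ξ →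
  (∀ (l : ℕ) [Fact l.Prime], l ≠ 3 → ¬ l ∣ n → l ∉ Q → ∀ τ ∈ Ine l 1, ξ τ ∈ Wn J 1) →
  ∃ a, Tl b ⊤ a ∧ UnrO n Q (ξ + chT a T)

/-- lifting of Selmer cocycles -/
def LIFT_st : Prop := AllQ fun _ _ J η n _ _ K _ Q _ _ => ∀ m : ℕ, m + 1 ≤ 2 * K →
  ∀ ξ' ∈ Sq J (tw η) n Q m, ∃ ξ ∈ Sq J η n Q (m + 1), ∀ g, wo J (ξ g) = ξ' g

/-- the image of the relaxed Selmer group is isotropic -/
def ISOT_st : Prop := AllQ fun A _ J η n _ _ K _ Q φ τ => ∀ e : A → A → Qb, Wp η (3 ^ K) e →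
  ∀ a ∈ Sq J η n Q (2 * K), ∀ b ∈ Sq J η n Q (2 * K),
  ∏ q : Q, e (a (φ q)) (b (τ q)) * e (b (φ q)) (a (τ q)) = 1

/-- the kernel of restriction on the first level -/
def KER1_st : Prop := AllQ fun _ _ J η n _ _ _ _ Q φ τ => ∀ ξ ∈ Sq J η n Q 1,
  res Q φ τ ξ = 0 → ∃ T' ∈ Wn J 2, ξ = dd η T'

/-- the same in coordinates -/
def LOWK_st : Prop := AllQ fun _ _ J η n T b _ _ Q φ τ => ∃ a₀ : GQ → ZMod 3,
  (b = false → a₀ = 0) ∧ ∀ a, chT a T ∈ Sq J η n Q 1 → res Q φ τ (chT a T) = 0 →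
    ∃ t : ZMod 3, ∀ g ∈ GK, a g = t * a₀ g

/-- the lower bound on the first level -/
def LOW_st : Prop := AllQ fun _ _ J η n T b _ _ Q φ τ => ∀ ℓ, Cov η T b ℓ →
  3 ^ (Q.card + if b then 2 * d2 n + ℓ else ℓ + 2) ≤
    3 ^ (d2 n + 2) * Nat.card ((Sq J η n Q 1).map (res Q φ τ))

/-- the kernel of restriction -/
def KER_st : Prop := AllQ fun _ _ J η n _ _ K _ Q φ τ => ∀ m, m ≤ 2 * K → ∀ ξ ∈ Sq J η n Q m,
  res Q φ τ ξ = 0 → ∃ T' ∈ Wn J (m + 1), ξ = dd η T'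

/-- one auxiliary prime -/
def QE1_st : Prop := AllP fun _ _ J η n _ _ => ∀ (K l₀ : ℕ) (b' : Bool) (l : ℕ), 1 ≤ K →
  l₀ ∈ n.primeFactors → l ∈ Ia b' n l₀ → ∃ (q : ℕ) (_ : Fact q.Prime), 3 ^ (K + 1) ∣ q - 1 ∧
    ¬ q ∣ n ∧ Cub q 3 ∧ (∀ g ∈ Dec (nv q 1), ∀ u ∈ Wn J (2 * K + 1), η g u = u) ∧ ¬ Sy b' l q ∧
    ∀ l' ∈ Ia b' n l₀, l' ≠ l → Sy b' l' q

/-- existence of auxiliary primes -/
def QEX_st : Prop := AllP fun _ _ J η n _ _ => ∀ K, 1 ≤ K →
  ∃ ζ l₀ Q φ τ, Qs J η n K ζ l₀ Q φ τ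

/-- the sizes in a chain -/
def LIN1_st : Prop := ∀ (A : Type) [AddCommGroup A] (J : A ≃ₗ[ℤ] A) (ι : Type) [Fintype ι]
  (V : ℕ → ℕ → AddSubgroup (ι → A × A)) (ℓ : ℕ → ℕ) (c M k : ℕ), Ch J V ℓ c M → 2 * k ≤ M →
  Nat.card (V 0 (2 * k)) ≤ 3 ^ (2 * k * Fintype.card ι) →
  Nat.card (V 0 (2 * k)) = 3 ^ (2 * k * Fintype.card ι) ∧
    ∃ s, Nat.card ↥(V 0 (2 * k) ⊓ Hm J ι k) = 3 ^ s ∧
      Even (s + k * Fintype.card ι + k * (ℓ 0 + c))

/-- the parity in a chain -/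
def LIN_st : Prop := ∀ (A : Type) [AddCommGroup A] (J : A ≃ₗ[ℤ] A) (ι : Type) [Fintype ι]
  (V : ℕ → ℕ → AddSubgroup (ι → A × A)) (ℓ : ℕ → ℕ) (c k : ℕ) (e : A → A → Qb),
  Ch J V ℓ c (2 * k) → 1 ≤ k → Pai (3 ^ k) e →
  (∀ x ∈ V 0 (2 * k), ∀ y ∈ V 0 (2 * k), ∏ q, e (x q).1 (y q).2 * e (y q).1 (x q).2 = 1) →
  IsSquare (Nat.card ↥(V 0 (2 * k) ⊓ B0 A ι) * 3 ^ (k * (ℓ 0 + c)))

/-- the parity theorem -/
def PAR_st : Prop := ∀ (A : Type) [AddCommGroup A] (J : A ≃ₗ[ℤ] A) (η : Act A) (n : ℕ) (T : A)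
  (a a' : ℕ), P1 J η n T true → Cov η T true a → Cov (tw η) T false a' → a + a' = 2 →
  ∀ k, 1 ≤ k → IsSquare (Nk J η n k * 3 ^ (k * (a + d2 n)))

/-- small groups of square order have bounded exponent -/
def FIN_st : Prop := AllP fun _ _ J η n _ _ =>
  (∃ C : ℕ, ∀ k, Nk J η n k ≠ 0 ∧ Nk J η n k ≤ C * 3 ^ k) →
  (∀ k, 1 ≤ k → IsSquare (Nk J η n k)) → Bex J η n

/-- the Selmer groups are finite -/
def FSQ_st : Prop := AllP fun _ _ J η n _ _ => ∀ m, Finite (Sq J η n ∅ m)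

/-- Frobenius minus one is onto -/
def SURJ_st : Prop := AllP fun _ _ J η _ _ _ => ∀ (l : ℕ) [Fact l.Prime] (φ : GQ),
  l ≠ 3 → Frob l 1 φ → ∀ k, ∀ x ∈ Wn J k, ∃ m, ∃ R ∈ Wn J m, η φ R - R = x

/-- unramified cocycles come from points -/
def UNR_st : Prop := AllP fun A _ J η n _ _ => ∀ (m : ℕ) (ξ : GQ → A) (l : ℕ) [Fact l.Prime],
  Zc J η m ξ → l ≠ 3 → ¬ l ∣ n → Ur l ξ → InL η (Dec (nv l 1)) ξ

/-- the index of the local condition at three -/
def COV_st : Prop := AllP fun _ _ _ η _ T b => ∀ ℓ, Ind η T ℓ → Cov η T b ℓ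

/-- the dimension of the local condition at three -/
def aM (D : ℕ) : ℕ := if D % 9 = 1 ∨ D % 9 = 8 then 0 else if D % 9 = 3 ∨ D % 9 = 6 then 2 else 1

/-- statements about all cubics -/
def AllF (S : ∀ (A : Type) [AddCommGroup A], Act A → A → ℕ → Prop) : Prop :=
  ∀ (A : Type) [AddCommGroup A] (J : A ≃ₗ[ℤ] A) (η : Act A) (T : A) (D : ℕ) (F : Qb → Qb → A),
    Cm3 J → T ∈ Wn J 1 ∧ T ≠ 0 → Fer η T D F → D ≠ 0 → S A η T D

/-- the local points of the cubic -/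
def TABM_st : Prop := AllF fun _ _ η T D => ¬ 27 ∣ D → Ind η T (aM D)

/-- local points of the twist -/
def ZPT_st : Prop := AllF fun _ _ η T D => ∀ s N : Qb, Fix (Dec (nv 3 1)) s →
  Fix (Dec (nv 3 1)) N → N ≠ 0 → (D : Qb) ^ 2 + 3 * s ^ 2 = 4 * N ^ 3 →
  ∃ (a : GQ → ZMod 3) (ρ : Qb), InL (tw η) (Dec (nv 3 1)) (chT a T) ∧ ρ ≠ 0 ∧
    ρ ^ 3 * (D + s * (w3 - w3 ^ 2)) = D - s * (w3 - w3 ^ 2) ∧
    ∀ g ∈ Dec (nv 3 1), g ∈ GK → g ρ = w3 ^ (a g).val * ρ

/-- the local condition for the twist -/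
def TABZ_st : Prop := AllF fun _ _ η T D => ¬ 27 ∣ D → Ind (tw η) T (2 - aM D)

/-- the Weil pairing -/
def WEIL_st : Prop := AllT fun A _ _ _ _ η τ o => ∀ K : ℕ, (∀ P : A, ∃ P' : A, 3 • P' = P) →
  (∀ T : A, ∃ T' : A, 3 • T' = 0 ∧ T' ≠ 0 ∧ T' ≠ T ∧ T' ≠ -T) → Finite (tor A (3 ^ K)) →
  ∃ e : A → A → Qb, Pai (3 ^ K) e ∧ IsW τ o (3 ^ K) e ∧
    ∀ g : GQ, ∀ x ∈ tor A (3 ^ K), ∀ y ∈ tor A (3 ^ K), g (e x y) = e (η g x) (η g y)

/-! ### Curves -/

/-- `ψ` identifies the module with the points of `W` -/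
def Eqv {A : Type} [AddCommGroup A] (W : WeierstrassCurve ℚ) (η : Act A) (ψ : A ≃+ Pts W Qb) :
    Prop := ∀ g R, ψ (η g R) = galQ W g (ψ R)

/-- the action on the points of a curve -/
noncomputable def gA (W : WeierstrassCurve ℚ) : Act (Pts W Qb) where
  toFun g := AddEquiv.toIntLinearEquiv
    { toFun := galQ W g
      invFun := galQ W g⁻¹
      left_inv := fun P => by rw [← BSel_gal_mul, inv_mul_cancel, BSel_gal_one]
      right_inv := fun P => by rw [← BSel_gal_mul, mul_inv_cancel, BSel_gal_one]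
      map_add' := map_add _ }
  map_one' := LinearEquiv.ext (BSel_gal_one W)
  map_mul' g h := LinearEquiv.ext (BSel_gal_mul W g h)

theorem gA_apply (W : WeierstrassCurve ℚ) (g : GQ) (P : Pts W Qb) : gA W g P = galQ W g P := rfl

/-- the curve `y ^ 2 = x ^ 3 + c` -/
def EK (c : ℤ) : WeierstrassCurve ℚ := ⟨0, 0, 0, 0, c⟩

theorem EK_ell {c : ℤ} (hc : c ≠ 0) : (EK c).IsElliptic := ⟨by
  have : (EK c).Δ = -432 * c ^ 2 := by
    simp only [EK, WeierstrassCurve.Δ, WeierstrassCurve.b₂, WeierstrassCurve.b₄,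
      WeierstrassCurve.b₆, WeierstrassCurve.b₈]
    ring
  rw [this]
  exact (mul_ne_zero (by norm_num) (pow_ne_zero _ (Int.cast_ne_zero.2 hc))).isUnit⟩

theorem good_D {D : ℕ} (hD : D ≠ 0) : Good 0 D :=
  ⟨Nat.cast_ne_zero.2 hD, by simpa using hD⟩

theorem E3_ell {D : ℕ} (hD : D ≠ 0) : (E3 0 D).IsElliptic :=
  ⟨by rw [E3_Δ]; exact (mul_ne_zero (pow_ne_zero _ (good_D hD).hb) (good_D hD).hM).isUnit⟩

/-- complex multiplication on `y ^ 2 + D y = x ^ 3` -/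
def Jm (D : ℕ) (J : Pts (E3 0 D) Qb ≃ₗ[ℤ] Pts (E3 0 D) Qb) : Prop :=
  ∀ x y : Qb, On 0 D x y → J (pt 0 D x y) = pt 0 D (w3 * x) y

/-- Selmer cocycles killed by `3 ^ k` -/
def Sel3 (W : WeierstrassCurve ℚ) (k : ℕ) (ξ : GQ → Pts W Qb) : Prop :=
  ξ ∈ cocycles W ∧ (∀ g, 3 ^ k • ξ g = 0) ∧ ∀ (q : ℕ) [Fact q.Prime], LocTriv W ℚ_[q] ξ

/-- the counting function -/
noncomputable def Cn (W : WeierstrassCurve ℚ) (k : ℕ) : ℕ∞ :=
  (shaTors W (3 ^ k)).encard * 3 ^ (k * finrank ℤ W.toAffine.Point)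

/-- rank plus corank is at most one -/
def Cork3 (W : WeierstrassCurve ℚ) : Prop := ∃ C : ℕ, ∀ k : ℕ, Cn W k ≤ C * 3 ^ k

/-- finite generation -/
def Fg3 (W : WeierstrassCurve ℚ) : Prop := AddGroup.FG W.toAffine.Point

/-- finiteness of the group of points and of the three-primary part -/
def Fin3 (W : WeierstrassCurve ℚ) : Prop :=
  Finite W.toAffine.Point ∧ {c | c ∈ Sha W ∧ ∃ k : ℕ, 3 ^ k • c = 0}.Finite

/-- pairings on modules that come from curves -/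
def WP_st : Prop := ∀ (A : Type) [AddCommGroup A] (J : A ≃ₗ[ℤ] A) (η : Act A)
  (W : WeierstrassCurve ℚ) (ψ : A ≃+ Pts W Qb), W.IsElliptic → Cm3 J →
  (∀ u, Lc ⊤ fun g => η g u) → Eqv W η ψ → ∀ K, ∃ e, Wp η (3 ^ K) e

/-- existence of the complex multiplication -/
def JEX_st : Prop := ∀ D : ℕ, D ≠ 0 → ∃ J, Jm D J ∧ Cm3 J ∧
  (T 0 D Qb ∈ Wn J 1 ∧ T 0 D Qb ≠ 0) ∧ Ty (gA (E3 0 D)) (T 0 D Qb) false

/-- the Galois module -/
def GA_st : Prop := ∀ (D n : ℕ) (J : Pts (E3 0 D) Qb ≃ₗ[ℤ] Pts (E3 0 D) Qb), D ≠ 0 → Jm D J →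
  Cm3 J → (∀ l : ℕ, l.Prime → (l ∣ n ↔ l ≠ 3 ∧ ¬ 3 ∣ D.factorization l)) →
  Ga J n (gA (E3 0 D))

/-- the points of the cubic -/
def FER_st : Prop := ∀ D j D₀ : ℕ, D ≠ 0 → D = 27 ^ j * D₀ →
  ∃ F, Fer (tw (gA (E3 0 D))) (T 0 D Qb) D₀ F

/-- the twisted module is the module of the Weierstrass model of the cubic -/
def ISM_st : Prop := ∀ D : ℕ, D ≠ 0 →
  ∃ ψ, Eqv (EK (-432 * D ^ 2)) (tw (gA (E3 0 D))) ψ

/-- invariant points are rational -/
def FXP_st : Prop := ∀ (W : WeierstrassCurve ℚ) (F : Type) [Field F] [CharZero F]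
  (P : Pts W (AlgebraicClosure F)),
  (∀ σ : AlgebraicClosure F ≃ₐ[F] AlgebraicClosure F,
    act W (σ : AlgebraicClosure F →+* AlgebraicClosure F) P = P) →
  ∃ P₀ : Pts W F, act W (algebraMap F (AlgebraicClosure F)) P₀ = P

/-- local points near the origin are divisible -/
def DIVL_st : Prop := ∀ (c : ℤ) (l : ℕ) [Fact l.Prime] (k : ℕ), c ≠ 0 → ∃ M : ℝ,
  ∀ (x y : ℚ_[l]) (h : ((EK c).baseChange ℚ_[l]).toAffine.Nonsingular x y), M < ‖x‖ →
    ∃ S : Pts (EK c) ℚ_[l], 3 ^ k • S = .some x y h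

/-- approximation of local points by algebraic points -/
def APX0_st : Prop := ∀ (c : ℤ) (l : ℕ) [Fact l.Prime] (k : ℕ) (P : Pts (EK c) ℚ_[l]), c ≠ 0 →
  ∃ (P₁ : Pts (EK c) Qb) (S : Pts (EK c) ℚ_[l]),
    act (EK c) (algebraMap ℚ_[l] (AlgebraicClosure ℚ_[l])) (P - 3 ^ k • S) =
      act (EK c) (emb ℚ_[l]) P₁

/-- locally trivial cocycles are coboundaries of algebraic points -/
def APX_st : Prop := ∀ (c : ℤ) (k : ℕ) (ξ : GQ → Pts (EK c) Qb) (l : ℕ) [Fact l.Prime], c ≠ 0 →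
  Sel3 (EK c) k ξ → ∃ R : Pts (EK c) Qb, ∀ g ∈ Dec (nv l 1), ξ g = galQ (EK c) g R - R

/-- statements about all modules that come from a curve -/
def AllW (S : ∀ (A : Type) [AddCommGroup A], (A ≃ₗ[ℤ] A) → Act A → ℕ →
    ∀ W : WeierstrassCurve ℚ, (A ≃+ Pts W Qb) → Prop) : Prop :=
  AllP fun A _ J η n _ _ => ∀ (c : ℤ) (ψ : A ≃+ Pts (EK c) Qb), c ≠ 0 → Eqv (EK c) η ψ →
    S A J η n (EK c) ψ

/-- Selmer cocycles of the curve -/
def SEL_st : Prop := AllW fun _ _ J η n W ψ => ∀ (k : ℕ) (ξ : GQ → Pts W Qb), Sel3 W k ξ →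
  (fun g => ψ.symm (ξ g)) ∈ Sq J η n ∅ (2 * k)

/-- bounded exponent gives finiteness -/
def RED_st : Prop := AllW fun _ _ J η n W _ => Bex J η n → Cork3 W → Fg3 W → Fin3 W

/-- the bound for the Selmer groups -/
def SHA_st : Prop := AllW fun _ _ J η n W _ => Fg3 W → ∀ k, (Nk J η n k : ℕ∞) ≤ Cn W k

/-- finite generation -/
def FG_st : Prop := AllW fun _ _ _ _ _ W _ => Fg3 W

/-- the counting function -/
def CNT_st : Prop := ∀ W : WeierstrassCurve ℚ, Fg3 W →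
  (Fin3 W → ∃ C : ℕ, ∀ k : ℕ, 1 ≤ Cn W k ∧ Cn W k ≤ C) ∧ (¬ Fin3 W → ∀ k : ℕ, 3 ^ k ≤ Cn W k)

/-- two prime factors in general position -/
def Gen (D : ℕ) : Prop :=
  (∃ l : ℕ, l.Prime ∧ l ≠ 3 ∧ ¬ 3 ∣ D.factorization l ∧ ¬ Cub l 3) ∧
    ∃ l : ℕ, l.Prime ∧ l ≠ 3 ∧ ¬ 3 ∣ D.factorization l ∧ ¬ (l % 9 = 1 ∨ l % 9 = 8)

/-- the module of a cubic -/
def INST_st : Prop := ∀ D : ℕ, D ≠ 0 → Gen D →
  ∃ (A : Type) (_ : AddCommGroup A) (J : A ≃ₗ[ℤ] A) (η : Act A) (n : ℕ) (T : A) (a : ℕ)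
    (ψ : A ≃+ Pts (EK (-432 * D ^ 2)) Qb), P1 J η n T true ∧ Eqv (EK (-432 * D ^ 2)) η ψ ∧
    Ind η T a ∧ Ind (tw η) T (2 - a) ∧ a ≤ 2 ∧ (a + d2 n) % 2 = par3 D

/-- the parity theorem for the cubics -/
def ALL_st : Prop := ∀ D : ℕ, D ≠ 0 → Gen D → Cork3 (EK (-432 * D ^ 2)) →
  ∃ C : ℕ, ∀ k : ℕ, 3 ^ (k * par3 D) ≤ Cn (EK (-432 * D ^ 2)) k ∧
    Cn (EK (-432 * D ^ 2)) k ≤ C * 3 ^ (k * par3 D)

/-! ### Densities -/

/-- almost all numbers have a simple prime factor in a set with divergent sum of inverses -/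
def SIEVE_st : Prop := ∀ S : ℕ → Prop, (¬ Summable fun l : ℕ => if S l then (1 / l : ℝ) else 0) →
  (∀ l, S l → l.Prime) → Tendsto (fun X : ℕ =>
    ({D : ℕ | 1 ≤ D ∧ D ≤ X ∧ ¬ ∃ l, S l ∧ D.factorization l = 1}.ncard : ℝ) / X) atTop (𝓝 0)

/-- almost all numbers are in general position -/
def DGEN_st : Prop :=
  Tendsto (fun X : ℕ => ({D : ℕ | 1 ≤ D ∧ D ≤ X ∧ ¬ Gen D}.ncard : ℝ) / X) atTop (𝓝 0)

end Pool.Agent.MP_e23604_nt.S

end

section

/-!
The companion of opposite parity.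
-/

set_option autoImplicit false

open Finset

namespace Pool.Agent.MP_e23604_nt

/-- the product of the primes other than three whose exponent in `D` is not a multiple of three -/
def rad3 (D : ℕ) : ℕ := ∏ l ∈ D.primeFactors with l ≠ 3 ∧ ¬ 3 ∣ D.factorization l, l

theorem rad3_sf (D : ℕ) : Squarefree (rad3 D) := by
  refine Finset.squarefree_prod_of_pairwise_isCoprime (fun a ha b hb e => ?_) fun l hl =>
    (Nat.prime_of_mem_primeFactors (mem_filter.1 hl).1).squarefree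
  exact Nat.coprime_iff_isRelPrime.1 ((Nat.coprime_primes
    (Nat.prime_of_mem_primeFactors (mem_filter.1 ha).1)
    (Nat.prime_of_mem_primeFactors (mem_filter.1 hb).1)).2 e)

theorem dvd_rad3 {D l : ℕ} (hl : l.Prime) : l ∣ rad3 D ↔ l ≠ 3 ∧ ¬ 3 ∣ D.factorization l := by
  rw [rad3, hl.prime.dvd_finsetProd_iff]
  refine ⟨fun ⟨m, hm, e⟩ => ?_, fun h => ⟨l, mem_filter.2 ⟨?_, h⟩, dvd_rfl⟩⟩
  · rw [(Nat.prime_dvd_prime_iff_eq hl (Nat.prime_of_mem_primeFactors (mem_filter.1 hm).1)).1 e]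
    exact (mem_filter.1 hm).2
  · rw [← Nat.support_factorization, Finsupp.mem_support_iff]
    exact fun e => h.2 (e ▸ dvd_zero 3)

theorem eq_rad3 {D r : ℕ} (hsf : Squarefree r)
    (h : ∀ l : ℕ, l.Prime → (l ∣ r ↔ l ≠ 3 ∧ ¬ 3 ∣ D.factorization l)) : r = rad3 D :=
  (Nat.Squarefree.ext_iff hsf (rad3_sf D)).2 fun l hl => (h l hl).trans (dvd_rad3 hl).symm

theorem fac_pow {D : ℕ} (hD : D ≠ 0) (j i l : ℕ) :
    (3 ^ j * D ^ i).factorization l = (if l = 3 then j else 0) + i * D.factorization l := by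
  rw [Nat.factorization_mul (by positivity) (pow_ne_zero _ hD), Nat.factorization_pow,
    Nat.factorization_pow, Nat.prime_three.factorization]
  simp [Finsupp.single_apply, eq_comm]

theorem fac_iff {D : ℕ} (hD : D ≠ 0) (j : ℕ) {i l : ℕ} (hi : i = 1 ∨ i = 2) (h : l ≠ 3) :
    3 ∣ (3 ^ j * D ^ i).factorization l ↔ 3 ∣ D.factorization l := by
  rw [fac_pow hD, if_neg h]
  rcases hi with rfl | rfl <;> omega

theorem rad3_pow {D : ℕ} (hD : D ≠ 0) (j : ℕ) {i : ℕ} (hi : i = 1 ∨ i = 2) :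
    rad3 (3 ^ j * D ^ i) = rad3 D :=
  eq_rad3 (rad3_sf _) fun _ hl => (dvd_rad3 hl).trans
    (and_congr_right fun h => (fac_iff hD j hi h).not)

theorem gen_pow {D : ℕ} (hD : D ≠ 0) (j : ℕ) {i : ℕ} (hi : i = 1 ∨ i = 2) (h : S.Gen D) :
    S.Gen (3 ^ j * D ^ i) :=
  ⟨h.1.imp fun _ a => ⟨a.1, a.2.1, (fac_iff hD j hi a.2.1).not.2 a.2.2.1, a.2.2.2⟩,
    h.2.imp fun _ a => ⟨a.1, a.2.1, (fac_iff hD j hi a.2.1).not.2 a.2.2.1, a.2.2.2⟩⟩

theorem par3_eq {D : ℕ} (v u : ℕ) (h : D = 3 ^ v * u) (hv : D.factorization 3 = v) :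
    par3 D = (((rad3 D).primeFactors.filter fun l => l % 3 = 2).card +
      if 3 ^ (v % 3) * u % 9 ∈ ({1, 3, 6, 8} : Finset ℕ) then 0 else 1) % 2 := by
  have e1 : D / 27 ^ (v / 3) = 3 ^ (v % 3) * u := by
    refine Nat.div_eq_of_eq_mul_right (by positivity) ?_
    rw [h, ← mul_assoc, show 27 = 3 ^ 3 from rfl, ← pow_mul, ← pow_add, Nat.div_add_mod]
  rw [par3, hv, e1]
  congr 3
  ext l
  simp only [mem_filter, ← Nat.support_factorization D, Finsupp.mem_support_iff,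
    Nat.mem_primeFactors]
  refine ⟨fun a => ?_, fun a => ?_⟩
  · have hl : l.Prime := by_contra fun e => a.1 (Nat.factorization_eq_zero_of_not_prime _ e)
    exact ⟨⟨hl, (dvd_rad3 hl).2 ⟨by omega, a.2.2⟩, (rad3_sf D).ne_zero⟩, a.2.1⟩
  · have := (dvd_rad3 a.1.1).1 a.1.2.1
    exact ⟨fun e => this.2 (e ▸ dvd_zero 3), a.2, this.2⟩

end Pool.Agent.MP_e23604_nt

end

section

set_option autoImplicit false

open Module Filter Topology Finset
open scoped Classical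

namespace Pool.Agent.MP_e23604_nt.S

open B R
open Q (Wn)

theorem ex_n_SINST (D : ℕ) : ∃ n : ℕ, Squarefree n ∧
    n.primeFactors = D.primeFactors.filter fun l => l ≠ 3 ∧ ¬ 3 ∣ D.factorization l := by
  have hp : ∀ l ∈ D.primeFactors.filter fun l => l ≠ 3 ∧ ¬ 3 ∣ D.factorization l, l.Prime :=
    fun l hl => Nat.prime_of_mem_primeFactors (mem_filter.1 hl).1
  refine ⟨∏ l ∈ D.primeFactors.filter fun l => l ≠ 3 ∧ ¬ 3 ∣ D.factorization l, l, ?_,
    Nat.primeFactors_prod hp⟩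
  refine Squarefree.squarefree_of_dvd (prod_dvd_prod_of_subset _ _ _ (filter_subset _ _)) ?_
  rw [← Nat.radical_eq_prod_primeFactors]
  exact UniqueFactorizationMonoid.squarefree_radical

theorem split_SINST (D : ℕ) (hD : D ≠ 0) :
    D = 27 ^ (D.factorization 3 / 3) * (D / 27 ^ (D.factorization 3 / 3)) ∧
      ¬ 27 ∣ D / 27 ^ (D.factorization 3 / 3) := by
  have h1 : ∀ j, 27 ^ j ∣ D ↔ 3 * j ≤ D.factorization 3 := fun j => by
    rw [← Nat.prime_three.pow_dvd_iff_le_factorization hD, pow_mul]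
    rfl
  have h2 := (Nat.mul_div_cancel' ((h1 (D.factorization 3 / 3)).2 (by omega))).symm
  refine ⟨h2, fun h => ?_⟩
  have h3 : 27 ^ (D.factorization 3 / 3 + 1) ∣ D := by
    rw [pow_succ]
    exact (mul_dvd_mul_left _ h).trans h2.symm.dvd
  have := (h1 _).1 h3
  omega

theorem INST_pf (hJEX : JEX_st) (hGA : GA_st) (hWP : WP_st) (hFER : FER_st) (hISM : ISM_st)
    (hTABM : TABM_st) (hTABZ : TABZ_st) : INST_st := by
  intro D hD hG
  obtain ⟨J, hJ, hcm, hT, hty⟩ := hJEX D hD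
  obtain ⟨n, hsf, hn⟩ := ex_n_SINST D
  have h1 : ∀ l : ℕ, l.Prime → (l ∣ n ↔ l ≠ 3 ∧ ¬ 3 ∣ D.factorization l) := fun l hl => by
    have e : l ∣ n ↔ l ∈ n.primeFactors := by simp [hl, hsf.ne_zero]
    rw [e, hn, mem_filter]
    refine and_iff_right_of_imp fun h => ?_
    rw [← Nat.support_factorization, Finsupp.mem_support_iff]
    intro e'
    exact h.2 (e' ▸ dvd_zero 3)
  have h2 : ∀ l : ℕ, l.Prime → l ≠ 3 → ¬ 3 ∣ D.factorization l → l ∈ n.primeFactors :=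
    fun l hl h h' => Nat.mem_primeFactors.2 ⟨hl, (h1 l hl).2 ⟨h, h'⟩, hsf.ne_zero⟩
  have n3 : ¬ 3 ∣ n := fun h => ((h1 3 Nat.prime_three).1 h).1 rfl
  have hga := hGA D n J hD hJ hcm h1
  obtain ⟨ψ, hψ⟩ := hISM D hD
  obtain ⟨e1, e2⟩ := split_SINST D hD
  set D₀ := D / 27 ^ (D.factorization 3 / 3) with hD₀
  have h0 : D₀ ≠ 0 := fun e => hD (by rw [e1, e, mul_zero])
  obtain ⟨F, hF⟩ := hFER D _ D₀ hD e1
  have hc : (-432 * (D : ℤ) ^ 2) ≠ 0 :=
    mul_ne_zero (by norm_num) (pow_ne_zero _ (Nat.cast_ne_zero.2 hD))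
  obtain ⟨⟨l, a1, a2, a3, a4⟩, l', b1, b2, b3, b4⟩ := hG
  refine ⟨_, inferInstance, J, tw (gA (E3 0 D)), n, T 0 D Qb, aM D₀, ψ,
    ⟨hcm, hT, hty.tw hcm hT.1, n3, hsf, ⟨l, h2 l a1 a2 a3, a4⟩, ⟨l', h2 l' b1 b2 b3, b4⟩,
      hga.tw n3, hWP _ J _ _ ψ (EK_ell hc) hcm (hga.tw n3).opn hψ, ?_⟩, hψ,
    hTABM _ J _ _ _ F hcm hT hF h0 e2, hTABZ _ J _ _ _ F hcm hT hF h0 e2, ?_, ?_⟩
  · rw [tw_tw]
    exact hWP _ J _ _ (AddEquiv.refl _) (E3_ell hD) hcm hga.opn fun _ _ => rfl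
  · unfold aM
    split_ifs <;> omega
  · have e3 : d2 n = (D.primeFactors.filter fun l => l % 3 = 2 ∧ ¬ 3 ∣ D.factorization l).card := by
      rw [d2, hn, filter_filter]
      refine congrArg card (filter_congr fun l _ => ⟨fun h => ⟨h.2, h.1.2⟩, fun h =>
        ⟨⟨by omega, h.2⟩, h.1⟩⟩)
    rw [par3, ← e3, ← hD₀, aM]
    simp only [mem_insert, mem_singleton]
    split_ifs <;> omega

end Pool.Agent.MP_e23604_nt.S

end

section

set_option autoImplicit false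

open Module Filter Topology Finset
open scoped Classical

namespace Pool.Agent.MP_e23604_nt.S

open B R
open Q (Wn)

theorem sq_val_SALL {a t : ℕ} (ha : a ≠ 0) (h : IsSquare (a * 3 ^ t)) :
    Even (padicValNat 3 a + t) := by
  have : Fact (Nat.Prime 3) := ⟨Nat.prime_three⟩
  obtain ⟨r, hr⟩ := h
  have h0 : r ≠ 0 := by
    rintro rfl
    exact mul_ne_zero ha (by positivity) hr
  have := congrArg (padicValNat 3) hr
  rw [padicValNat.mul ha (by positivity), padicValNat.prime_pow, padicValNat.mul h0 h0] at this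
  exact ⟨_, this⟩

theorem odd_seq_SALL {a : ℕ → ℕ} {C ℓ : ℕ} (h0 : ∀ k, a k ≠ 0) (h1 : ∀ k, a k ≤ C)
    (h2 : ∀ k, a k ≤ a (k + 1)) (h3 : ∀ k, 1 ≤ k → IsSquare (a k * 3 ^ (k * ℓ))) : Even ℓ := by
  by_contra hn
  have h4 : ∀ k, k ≤ a (k + 1) := fun k => by
    induction k with
    | zero => exact Nat.zero_le _
    | succ k ih =>
      refine (h2 _).eq_or_lt.elim (fun e => absurd ?_ hn) fun e => ih.trans_lt e
      have e1 := sq_val_SALL (h0 _) (h3 (k + 1) (by omega))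
      have e2 := sq_val_SALL (h0 _) (h3 (k + 1 + 1) (by omega))
      rw [← e, add_mul (k + 1), one_mul, ← add_assoc, Nat.even_add] at e2
      exact e2.1 e1
  have := (h4 (C + 1)).trans (h1 _)
  omega

theorem sq_rem_SALL {a t : ℕ} (h : IsSquare (a * 3 ^ (2 * t))) : IsSquare a := by
  obtain ⟨r, hr⟩ := h
  have h1 : (3 ^ t) ^ 2 ∣ r ^ 2 := ⟨a, by rw [← pow_mul, mul_comm t, sq r, ← hr, mul_comm]⟩
  obtain ⟨s, rfl⟩ := (Nat.pow_dvd_pow_iff (by norm_num)).1 h1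
  refine ⟨s, Nat.eq_of_mul_eq_mul_right (m := 3 ^ (2 * t)) (by positivity) ?_⟩
  rw [hr]
  ring

theorem ALL_pf (hINST : INST_st) (hCOV : COV_st) (hPAR : PAR_st) (hFIN : FIN_st) (hFSQ : FSQ_st)
    (hSHA : SHA_st) (hRED : RED_st) (hFG : FG_st) (hCNT : CNT_st) : ALL_st := by
  intro D hD hG hC
  obtain ⟨A, _, J, η, n, T, a, ψ, hP, hE, hi, hi', ha, hp⟩ := hINST D hD hG
  have hc : (-432 * (D : ℤ) ^ 2) ≠ 0 :=
    mul_ne_zero (by norm_num) (pow_ne_zero _ (Int.natCast_ne_zero.2 hD))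
  have hF := hFG A J η n T true hP _ ψ hc hE
  have hS := hSHA A J η n T true hP _ ψ hc hE hF
  have hQ := hPAR A J η n T a (2 - a) hP (hCOV A J η n T true hP a hi)
    (hCOV A J (tw η) n T false hP.tw _ hi') (by omega)
  have h0 : ∀ k, Nk J η n k ≠ 0 := fun k => by
    have := hFSQ A J η n T true hP (2 * k)
    exact AddSubgroup.index_ne_zero_of_finite
  have hm : ∀ k, Nk J η n k ≤ Nk J η n (k + 1) := fun k =>
    AddSubgroup.relIndex_le_of_le_right (Sq_mono (by omega) subset_rfl) (h0 (k + 1))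
  have hN := hCNT _ hF
  rcases Nat.mod_two_eq_zero_or_one (a + d2 n) with e | e
  · rw [← hp, e]
    obtain ⟨t, ht⟩ := Nat.dvd_of_mod_eq_zero e
    obtain ⟨C, hC'⟩ := id hC
    have hB := hFIN A J η n T true hP ⟨C, fun k => ⟨h0 k, by
      have := (hS k).trans (hC' k)
      exact_mod_cast this⟩⟩ fun k hk => sq_rem_SALL (t := k * t) (by
        have := hQ k hk
        rwa [ht, mul_left_comm] at this)
    obtain ⟨C', h⟩ := hN.1 (hRED A J η n T true hP _ ψ hc hE hB hC hF)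
    exact ⟨C', fun k => by simpa only [mul_zero, pow_zero, mul_one] using h k⟩
  · rw [← hp, e]
    have hf : ¬ Fin3 (EK (-432 * D ^ 2)) := fun hf => by
      obtain ⟨C', h⟩ := hN.1 hf
      have := odd_seq_SALL (C := C') h0 (fun k => by
        have := (hS k).trans (h k).2
        exact_mod_cast this) hm hQ
      rw [Nat.even_iff] at this
      omega
    obtain ⟨C, hC'⟩ := hC
    exact ⟨C, fun k => by
      rw [mul_one]
      exact ⟨hN.2 hf k, hC' k⟩⟩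

end Pool.Agent.MP_e23604_nt.S

end

section

set_option autoImplicit false

open Module Filter Topology Finset
open scoped Classical

namespace Pool.Agent.MP_e23604_nt.S

open B R
open Q (Wn)

theorem act_SDIVL (W : WeierstrassCurve ℚ) (q : ℕ) [Fact q.Prime]
    (σ : PadicAlgCl q ≃ₐ[ℚ_[q]] PadicAlgCl q) (D : Pts W (PadicAlgCl q))
    (h : E1 (NormedField.toAbsoluteValue (PadicAlgCl q)) D) :
    E1 (NormedField.toAbsoluteValue (PadicAlgCl q))
      (act W (σ : PadicAlgCl q →+* PadicAlgCl q) D) ∧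
    ‖zz (act W (σ : PadicAlgCl q →+* PadicAlgCl q) D)‖ = ‖zz D‖ := by
  rcases D with _ | ⟨x, y, hxy⟩
  · exact ⟨trivial, rfl⟩
  · constructor
    · change 1 < ‖σ x‖
      rw [norm_gal]
      exact h
    · change ‖-(σ x) / σ y‖ = ‖-x / y‖
      rw [norm_div, norm_div, norm_neg, norm_neg, norm_gal, norm_gal]

theorem intg_SDIVL (c : ℤ) (q : ℕ) [Fact q.Prime] :
    Intg (NormedField.toAbsoluteValue (PadicAlgCl q)) ((EK c).baseChange (PadicAlgCl q)) := by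
  have hw : ∀ x, NormedField.toAbsoluteValue (PadicAlgCl q) x = ‖x‖ := fun _ => rfl
  refine ⟨?_, ?_, ?_, ?_, ?_⟩
  all_goals simp [WeierstrassCurve.baseChange, EK, hw]
  exact IsUltrametricDist.norm_intCast_le_one _ c

theorem DIVL_pf (hFXP : FXP_st) : DIVL_st := by
  intro c l _ k hc
  have := EK_ell hc
  have : ((EK c).baseChange (PadicAlgCl l)).IsElliptic :=
    inferInstanceAs ((EK c).map (algebraMap ℚ (PadicAlgCl l))).IsElliptic
  have hv : IsNonarchimedean (NormedField.toAbsoluteValue (PadicAlgCl l)) :=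
    fun x y => IsUltrametricDist.norm_add_le_max x y
  have hW := intg_SDIVL c l
  obtain ⟨t, ht⟩ : ∃ t, t = NormedField.toAbsoluteValue (PadicAlgCl l) ((3 ^ k : ℕ) : _) := ⟨_, rfl⟩
  have t0 : 0 < t := by
    rw [ht]
    exact AbsoluteValue.pos _ (Nat.cast_ne_zero.2 (by positivity))
  refine ⟨max 1 (1 / t ^ 4), fun x y h hx => ?_⟩
  obtain ⟨h', e⟩ := BSel_act_some (EK c) (algebraMap ℚ_[l] (PadicAlgCl l)) h
  have hn : NormedField.toAbsoluteValue (PadicAlgCl l) (algebraMap ℚ_[l] (PadicAlgCl l) x) = ‖x‖ :=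
    norm_algebraMap' (PadicAlgCl l) x
  have s1 : E1 (NormedField.toAbsoluteValue (PadicAlgCl l))
      (WeierstrassCurve.Affine.Point.some _ _ h') := by
    rw [E1_some, hn]
    exact (le_max_left _ _).trans_lt hx
  have s2 := btors_xz hv hW (WeierstrassCurve.Affine.Point.some_ne_zero h') s1
  simp only [WeierstrassCurve.Affine.Point.xRep_some, Matrix.cons_val_zero] at s2
  rw [hn] at s2
  have s3 : NormedField.toAbsoluteValue (PadicAlgCl l)
      (zz (WeierstrassCurve.Affine.Point.some _ _ h')) < t ^ 2 := by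
    have h1 := (div_lt_iff₀ (pow_pos t0 4)).1 ((le_max_right _ _).trans_lt hx)
    generalize NormedField.toAbsoluteValue (PadicAlgCl l)
      (zz (WeierstrassCurve.Affine.Point.some _ _ h')) = z at s2
    by_contra h2
    have h3 := pow_le_pow_left₀ (sq_nonneg t) (not_lt.1 h2) 2
    have h4 := mul_le_mul_of_nonneg_left h3 (norm_nonneg x)
    nlinarith
  rw [ht] at s3
  obtain ⟨D, ⟨d1, d2, d3⟩, hD⟩ := L.div_st (PadicAlgCl l) _ ((EK c).baseChange (PadicAlgCl l))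
    (3 ^ k) _ hv hW (by positivity) s1 s3
  obtain ⟨S, hS⟩ := hFXP (EK c) ℚ_[l] D fun σ => by
    obtain ⟨c1, c2⟩ := act_SDIVL (EK c) l σ D d2
    refine hD _ ⟨?_, c1, c2.trans_lt d3⟩
    rw [← map_nsmul, d1, ← e, BSel_act_act]
    congr 2
    exact RingHom.ext σ.commutes
  refine ⟨S, BSel_act_inj (EK c) (algebraMap ℚ_[l] (PadicAlgCl l)) ?_⟩
  rw [map_nsmul, e, ← d1]
  exact congrArg _ hS

end Pool.Agent.MP_e23604_nt.S

end

section

set_option autoImplicit false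

open Module Filter Topology Finset
open scoped Classical

namespace Pool.Agent.MP_e23604_nt.S

open B R
open Q (Wn)

theorem APX_pf (hAPX0 : APX0_st) (hFXP : FXP_st) : APX_st := by
  intro D k ξ l _ hD hξ
  have ell := EK_ell hD
  have e1 : ((EK D).baseChange Qb).IsElliptic :=
    inferInstanceAs ((EK D).map _).IsElliptic
  obtain ⟨Z, hR⟩ := hξ.2.2 l
  obtain ⟨T, hT⟩ := hFXP (EK D) ℚ_[l] (3 ^ k • Z) fun σ => by
    obtain ⟨τ, hτ⟩ := exists_res ℚ_[l] σ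
    have h := congrArg (fun z => 3 ^ k • z) (hR σ τ hτ)
    simp only [← map_nsmul, hξ.2.1 τ, map_zero, smul_sub] at h
    exact (sub_eq_zero.1 h.symm)
  obtain ⟨T₁, S, hS⟩ := hAPX0 D l k T hD
  obtain ⟨R₁, hR₁⟩ : ∃ R₁ : Pts (EK D) Qb, 3 ^ k • R₁ = T₁ :=
    B.smul_surj (W := (EK D).baseChange Qb) (by positivity) T₁
  obtain ⟨U, -, hU⟩ := Q.tors_XStc (EK D) (emb ℚ_[l]) (n := 3 ^ k) (by positivity)
    (Z - act (EK D) (algebraMap ℚ_[l] (AlgebraicClosure ℚ_[l])) S -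
      act (EK D) (emb ℚ_[l]) R₁) (by
      rw [nsmul_sub, nsmul_sub, ← hT, ← map_nsmul, ← map_nsmul, ← map_sub, hS, hR₁, sub_self])
  have h1 : act (EK D) (emb ℚ_[l]) (R₁ + U) =
      Z - act (EK D) (algebraMap ℚ_[l] (AlgebraicClosure ℚ_[l])) S := by
    rw [map_add, hU]; abel
  refine ⟨R₁ + U, fun g hg => sub_eq_zero.1 ?_⟩
  have hc : ξ - B.BSel_dd (EK D) (R₁ + U) ∈ cocycles (EK D) :=
    sub_mem hξ.1 (B.BSel_dd_mem _ _)
  obtain ⟨X, hX⟩ := B.BSel_finset hc.1 g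
  obtain ⟨σ, τ, hσ, h2⟩ := (R.DL_pf l g hg).1 X
  refine (hX τ h2).symm.trans (B.BSel_act_inj (EK D) (emb ℚ_[l]) ?_)
  change act (EK D) (emb ℚ_[l]) (ξ τ - (galQ (EK D) τ (R₁ + U) - (R₁ + U))) = _
  rw [map_zero, map_sub, map_sub, hR σ τ hσ, Q.gal_XStc _ hσ, h1, map_sub, Q.fix_XStc]
  abel

end Pool.Agent.MP_e23604_nt.S

end

section

set_option autoImplicit false

open Module Filter Topology Finset
open scoped Classical

namespace Pool.Agent.MP_e23604_nt.S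

open B R
open Q (Wn)

theorem all_SBSZ {H : Subgroup GQ} {a : GQ → ZMod 3} (h1 : Tc false H a) (h2 : Tv H a) :
    ∀ g ∈ H, a g = 0 := by
  obtain ⟨t, ht⟩ := h1.res h2
  intro g hg
  rw [ht g hg, sg_false, one_mul, sub_self]

theorem sq_SBSZ : ∀ c : ZMod 3, c ≠ 0 → c * c = 1 := by decide

theorem ex_SBSZ (hPSI : PSI_st) (l : ℕ) : ∃ ψ : GQ → ZMod 3, ∀ [Fact l.Prime], Ad false l →
    Cu l ψ ∧ ∀ (q : ℕ) [Fact q.Prime] (φ : GQ), q ≠ l → Frob q 1 φ → (ψ φ = 0 ↔ Sk q l) := by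
  by_cases h3 : l = 3
  · subst h3
    obtain ⟨ψ, h1, -, h2⟩ := hPSI.2
    refine ⟨ψ, fun _ => ⟨h1, fun q _ φ hq hφ => ?_⟩⟩
    rw [Sk, if_pos rfl]
    exact h2 q 1 φ hq hφ
  by_cases h : l.Prime ∧ l % 3 = 1
  · have := Fact.mk h.1
    obtain ⟨ψ, f, h1, -, h2, h4⟩ := hPSI.1 l h.2
    refine ⟨ψ, fun _ => ⟨h1, fun q hq' φ hq hφ => ?_⟩⟩
    rw [Sk, if_neg h3, h4 q 1 φ hq hφ]
    refine h2 _ fun e => hq ?_
    exact ((Nat.prime_dvd_prime_iff_eq h.1 hq'.out).1 ((ZMod.natCast_eq_zero_iff q l).1 e)).symm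
  · refine ⟨0, ?_⟩
    intro hl ha
    have h1 : l % 3 ≠ 2 := ha.resolve_left (by decide)
    exact absurd ⟨hl.out, (prime_mod hl.out h3).resolve_right h1⟩ h

theorem BSZ_pf (hPSI : PSI_st) (hKW : KW_st) (hDIM : DIM_st) (hLU : LU_st) (hTAM : TAM_st)
    (hLOC : LOC_st) : BSZ_st := by
  choose κ hκ using ex_SBSZ hPSI
  have coc : ∀ l, l.Prime → Ad false l → Tl false ⊤ (κ l) := fun l hl ha =>
    have := Fact.mk hl
    ⟨tc_false.2 (hκ l ha).1.add, (hκ l ha).1.lc⟩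
  have unr : ∀ l, l.Prime → Ad false l → ∀ (q : ℕ) [Fact q.Prime] (γ : GQ), q ≠ l →
      ∀ τ ∈ Ine q γ, κ l τ = 0 := fun l hl ha =>
    have := Fact.mk hl
    (hκ l ha).1.unr
  have loc : ∀ (l q : ℕ) [Fact q.Prime], l.Prime → Ad false l → l ≠ q →
      (Tv (Dec (nv q 1)) (κ l) ↔ Sy false l q) := by
    intro l q _ hl ha hne
    have := Fact.mk hl
    obtain ⟨φ, hφ⟩ := (R.FRO_ok q 1).1
    have h1 := (coc l hl ha).mono (le_top (a := Dec (nv q 1)))
    refine Iff.trans ⟨fun h => all_SBSZ h1.1 h φ hφ.1, fun h g hg _ => ?_⟩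
      ((hκ l ha).2 q φ hne.symm hφ)
    exact hLU.1 false q φ (κ l) hφ h1 (unr l hl ha q 1 hne.symm) h g hg
  obtain ⟨τ, hτ, hτ'⟩ := (hκ 3 (ad_three false)).1.ram
  have c3 := coc 3 Nat.prime_three (ad_three false)
  refine ⟨κ, coc, fun l hl ha q _ γ _ => unr l hl ha q γ, fun l hl h3 ha => ?_,
    fun h => hτ' (all_SBSZ c3.1 h τ trivial), fun a T ha hT hu => ?_, loc,
    fun a l ha hl h3 hd hs => ?_⟩
  · have h1 := (hκ l ha).1
    obtain ⟨u, hu, hu'⟩ := h1.ram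
    exact (hLU.2.2.2.1 l (κ l) (κ l) h3 (h1.add.mono le_top) (h1.lc.mono le_top)
      (h1.add.mono le_top) (h1.lc.mono le_top) fun e => hu' (e u hu)).1
  · obtain ⟨u, h⟩ := hKW a T κ (tc_false.1 ha.1) ha.2
      (fun l hl => ⟨(hT l hl).1, (prime_mod (hT l hl).1 (hT l hl).2.1).resolve_right
        ((hT l hl).2.2.resolve_left (by decide))⟩)
      (fun l _ hl => (hκ l (by
        rcases mem_insert.1 hl with rfl | h
        exacts [ad_three false, (hT l h).2.2])).1)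
      fun l _ h1 h2 => hu l (by omega) (Or.inr (by omega)) h2
    exact ⟨u, fun g _ => h g⟩
  · have d3 := c3.mono (le_top (a := Dec (nv 3 1)))
    have dl := (coc l hl hd).mono (le_top (a := Dec (nv 3 1)))
    obtain ⟨c, hc, h⟩ := hDIM.1 ![a, κ 3, κ l] fun i => by
      fin_cases i
      exacts [⟨tc_false.1 ha.1, ha.2⟩, ⟨tc_false.1 d3.1, d3.2⟩, ⟨tc_false.1 dl.1, dl.2⟩]
    have h1 : ∀ g ∈ Dec (nv 3 1), g ∈ GK → c 0 * a g + c 1 * κ 3 g + c 2 * κ l g = 0 := by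
      intro g hg hk
      have := h g ⟨hg, hk⟩
      rwa [Fin.sum_univ_three] at this
    by_cases h0 : c 0 = 0
    · exfalso
      have h2 := all_SBSZ ((d3.mul (c 1)).add (dl.mul (c 2))).1 fun g hg hk => by
        have := h1 g hg hk
        rwa [h0, zero_mul, zero_add] at this
      have h4 : c 1 = 0 := by
        have := h2 τ (Ine_le 3 1 hτ)
        rw [unr l hl hd 3 1 h3.symm τ hτ, mul_zero, add_zero] at this
        exact (mul_eq_zero.1 this).resolve_right hτ'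
      have h5 : c 2 ≠ 0 := fun e => hc (funext fun i => by
        fin_cases i
        exacts [h0, h4, e])
      refine hs ((loc l 3 hl hd h3).1 fun g hg _ => ?_)
      have := h2 g hg
      rw [h4, zero_mul, zero_add] at this
      exact (mul_eq_zero.1 this).resolve_left h5
    · refine ⟨-(c 0 * c 1), -(c 0 * c 2), fun g hg hk => ?_⟩
      linear_combination c 0 * h1 g hg hk - a g * sq_SBSZ _ h0

end Pool.Agent.MP_e23604_nt.S

end

section

set_option autoImplicit false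

open Module Filter Topology Finset
open scoped Classical

namespace Pool.Agent.MP_e23604_nt.S

open B R
open Q (Wn)

section aux

variable {A : Type} [AddCommGroup A] {J : A ≃ₗ[ℤ] A} {n : ℕ} {e : A → A → Qb} {M : AddSubgroup A}

theorem zl_SPAI (h : Bil M n e) (hn : n ≠ 0) {y : A} (hy : y ∈ M) : e 0 y = 1 := by
  rw [← zero_smul ℕ y, left_EPAI h hn hy hy, pow_zero]

theorem zr_SPAI (h : Bil M n e) (hn : n ≠ 0) {x : A} (hx : x ∈ M) : e x 0 = 1 := by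
  rw [← zero_smul ℕ x, right_EPAI h hn hx hx, pow_zero]

theorem cube_SPAI (hJ : Cm3 J) (h : Bil M n e) (hn : n ≠ 0) {T y : A} (hT : T ∈ Wn J 1)
    (h1 : T ∈ M) (hy : y ∈ M) : e T y ^ 3 = 1 := by
  rw [← left_EPAI h hn h1 hy, T_three hJ hT, zl_SPAI h hn hy]

theorem core_SPAI (hJ : Cm3 J) {k : ℕ} (h : Pai (3 ^ (k + 1)) e) {T y : A} (hT : T ∈ Wn J 1)
    (hy : y ∈ Wn J (2 * k + 1)) : e T y = 1 := by
  have hn : 3 ^ (k + 1) ≠ 0 := by positivity
  have h1 : T ∈ tor A (3 ^ (k + 1)) := (W_tor hJ _).1 (W_mono (by omega) hT)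
  have h2 : y ∈ tor A (3 ^ (k + 1)) := (W_tor hJ _).1 (W_mono (by omega) hy)
  by_cases h0 : T = 0
  · rw [h0, zl_SPAI h.bil hn h2]
  have hu : 3 ^ k • y ∈ Wn J (0 + 1) := (W_pow hJ k).2 (by rwa [zero_add, add_comm])
  have hy1 : e (3 ^ k • y) y = 1 := by rw [left_EPAI h.bil hn h2 h2, h.alt y h2, one_pow]
  rcases W_three hJ (n := 0) hT (fun e => h0 (W_zero.1 e)) hu with h3 | h3 | h3
  · obtain ⟨z, rfl⟩ := three_surj hJ 1 y
    have h4 : z ∈ tor A (3 ^ (k + 1)) := by rw [mem_tor, pow_add, mul_smul, W_zero.1 h3]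
    rw [right_EPAI h.bil hn h1 h4, pow_one, cube_SPAI hJ h.bil hn hT h1 h4]
  · rw [← sub_eq_zero.1 (W_zero.1 h3), hy1]
  · have h5 := h.bil.addl _ (nsmul_mem h2 (3 ^ k)) T h1 y h2
    rw [W_zero.1 h3, zl_SPAI h.bil hn h2, hy1, one_mul] at h5
    exact h5.symm

end aux

theorem PAI_pf : PAI_st := by
  intro A _ J K e hJ h hK
  obtain ⟨k, rfl⟩ : ∃ k, K = k + 1 := ⟨K - 1, by omega⟩
  have hn : 3 ^ (k + 1) ≠ 0 := by positivity
  have ht : ∀ {m : ℕ} {u : A}, m ≤ 2 * (k + 1) → u ∈ Wn J m → u ∈ tor A (3 ^ (k + 1)) :=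
    fun hm hu => (W_tor hJ _).1 (W_mono hm hu)
  refine ⟨fun T hT y hy => ?_, fun a b hab x hx y hy => ?_,
    fun x hx y hy => alt_EPAI h (ht le_rfl hx) (ht le_rfl hy)⟩
  · rw [show 2 * (k + 1) - 1 = 2 * k + 1 by omega]
    have h1 := ht (by omega) hT.1
    have hy' := ht le_rfl hy
    refine ⟨cube_SPAI hJ h.bil hn hT.1 h1 hy', fun h2 => ?_, core_SPAI hJ h hT.1⟩
    by_contra h0
    refine hT.2 (h.nd T h1 fun z hz => ?_)
    have h3 := alt_EPAI h h1 hz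
    have h4 : e T z = 1 := by
      rcases W_three hJ (n := 2 * k + 1) hy h0 ((W_tor hJ (k + 1)).2 hz) with h5 | h5 | h5
      · exact core_SPAI hJ h hT.1 h5
      · have h6 := h.bil.addr T h1 _ (sub_mem hz hy') y hy'
        rwa [sub_add_cancel, core_SPAI hJ h hT.1 h5, h2, mul_one] at h6
      · have h6 := core_SPAI hJ h hT.1 h5
        rwa [h.bil.addr T h1 z hz y hy', h2, mul_one] at h6
    rwa [h4, one_mul] at h3
  · obtain ⟨z, rfl⟩ := three_surj hJ (b / 2) x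
    have h1 := (W_pow hJ _).1 hx
    have h2 := ht (by omega) h1
    have h3 := ht (by omega) hy
    have h4 : 3 ^ (b / 2) • y ∈ Wn J (b % 2) := (W_pow hJ _).2 (by rwa [Nat.mod_add_div])
    rw [left_EPAI h.bil hn h2 h3, ← right_EPAI h.bil hn h2 h3]
    rcases Nat.mod_two_eq_zero_or_one b with h5 | h5 <;> rw [h5] at h4
    · rw [W_zero.1 h4, zr_SPAI h.bil hn h2]
    · have h6 := alt_EPAI h h2 (nsmul_mem h3 (3 ^ (b / 2)))
      rwa [core_SPAI hJ h h4 (W_mono (by omega) h1), mul_one] at h6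

end Pool.Agent.MP_e23604_nt.S

end

section

set_option autoImplicit false

open Module Filter Topology Finset
open scoped Classical

namespace Pool.Agent.MP_e23604_nt.S

open B R
open Q (Wn)

theorem CUP_pf (hREC : REC_st) (hLEV : LEV_st) : CUP_st := by
  intro A _ J η n T b₀ hP K k e a b S r he ha hb hS hI hO
  have h0 : Cm3 J := hP.cm
  obtain ⟨N, hN, hK⟩ := hLEV A J η n (2 * K) {a, b} hP.cm hP.ga (Set.toFinite _) (by
    rintro ξ (rfl | rfl)
    · exact ha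
    · exact hb)
  have ta : ∀ g, a g ∈ tor A (3 ^ K) := fun g => (W_tor h0 K).1 (ha.lev g)
  have tb : ∀ g, b g ∈ tor A (3 ^ K) := fun g => (W_tor h0 K).1 (hb.lev g)
  have na : ∀ g ∈ N, a g = 0 := fun g hg => ((hK g).1 hg).2 a (Or.inl rfl)
  have nb : ∀ g ∈ N, b g = 0 := fun g hg => ((hK g).1 hg).2 b (Or.inr rfl)
  have nf : ∀ g ∈ N, ∀ u ∈ tor A (3 ^ K), η g u = u := fun g hg u hu =>
    ((hK g).1 hg).1 u ((W_tor h0 K).2 hu)
  have hn : (3 : ℕ) ^ K ≠ 0 := by positivity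
  have hp : ∀ g h, cup η e a b g h ^ 3 ^ K = 1 := fun g h =>
    he.bil.pow _ (ta g) _ (tor_act_CUP η g (tb h))
  refine hREC N (cup η e a b) (3 ^ K) k S (fun _ => 1) r hN (coc_CUP he ha.coc hb.coc ta tb)
    ⟨fun g _ h _ j _ hj => ?_, fun j _ g _ h _ hh => ?_, fun g _ h _ => ⟨fun h1 => ?_,
      fun ν hν => ?_⟩⟩ hn hp hS hI fun l _ hl => ?_
  · simp only [cup, cst_CUP hb.coc (nb _ hj)]
  · have e1 : η h (b j) = η g (b j) := by
      rw [← mul_inv_cancel_left g h, R.act_mul, nf _ hh _ (tb j)]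
    simp only [cup, cst_CUP ha.coc (na _ hh), e1]
  · have := hp g h
    rw [h1, zero_pow hn] at this
    exact zero_ne_one this
  · have t1 := tor_act_CUP η g (tb h)
    simp only [cup]
    rw [he.eqv ν _ (ta g) _ t1, nf ν hν _ (ta g), nf ν hν _ t1]
  · rcases hO l hl with h3 | ⟨h2, h3, h4⟩
    · exact Or.inl h3
    · refine Or.inr ⟨h2, fun γ τ hτ => (hK τ).2 ⟨fun u hu =>
        hP.ga.unr l γ h2 h3 τ hτ u (2 * K) ?_, ?_⟩⟩
      · exact sub_mem ((W_tor h0 K).2 (tor_act_CUP η τ ((W_tor h0 K).1 hu))) hu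
      · rintro ξ (rfl | rfl)
        · exact (h4 γ τ hτ).1
        · exact (h4 γ τ hτ).2

end Pool.Agent.MP_e23604_nt.S

end

section

set_option autoImplicit false

open Module Filter Topology Finset
open scoped Classical

namespace Pool.Agent.MP_e23604_nt.S

open B R
open Q (Wn)

theorem UPB_pf (hINVU : INVU_st) (hVAL : VAL_st) (hLU : LU_st) (hLOC : LOC_st) : UPB_st := by
  intro A _ J η n T b hP l hl' u hl h1 h2 h3
  have hl3 : l ≠ 3 := hP.ne hl
  by_cases hb : b = true ∧ l % 3 = 2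
  · obtain ⟨rfl, hb⟩ := hb
    exact hLU.2.1 l u hb h1 h2
  have hsg : ∀ g ∈ Dec (nv l 1), sg b g = 1 := by
    intro g hg
    cases b
    · rfl
    · have h4 : l % 3 = 1 := (prime_mod hl'.out hl3).resolve_right fun e => hb ⟨rfl, e⟩
      exact sg_pos _ (hLOC.2.2.1 l 1 h4 hg)
  have hfix : ∀ g ∈ Dec (nv l 1), η g T = T := fun g hg => by
    rw [hP.ty g, hsg g hg, ZMod.val_one, one_smul]
  have hadt : Adt (Dec (nv l 1)) u := fun g hg h hh => by
    rw [h1.1 g hg h hh, hsg g hg, one_mul]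
  by_contra hT
  obtain ⟨e, he⟩ := hP.wp 1
  obtain ⟨R, a1, a2⟩ := W_ex hP.cm 2
  obtain ⟨v, c1, c2⟩ := hINVU A J η n T b hP 1 e l R u le_rfl he hl a1 a2 hfix hadt h1.2 h2 hT
  have hcob : Cob (Dec (nv l 1)) (cup η e (chT u T) (dd η R)) :=
    cob_InL he h3 ⟨R, fun _ _ => rfl⟩
      (fun g _ => (W_tor hP.cm 1).1 (W_mono one_le_two (chT_mem hP.t0.1 u g)))
      fun g hg => (W_tor hP.cm 1).1 (W_odd hP.cm hP.t0 (hfix g hg) (K := 1) a1)
  obtain ⟨k, hk⟩ := hVAL.1 l 1 _ 3 3 _ _ three_ne_zero three_ne_zero c2 (hVAL.2 l 1 _ 3 hcob)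
  have hv : v = 3 * k := by
    have : (v : ℚ) = 3 * k := by linarith
    exact_mod_cast this
  exact c1 ⟨k, hv⟩

end Pool.Agent.MP_e23604_nt.S

end

section

set_option autoImplicit false

open Module Filter Topology Finset
open scoped Classical

namespace Pool.Agent.MP_e23604_nt.S

open B R
open Q (Wn)

theorem LAST_pf (hCUP : CUP_st) (hINVU : INVU_st) (hLU : LU_st) (hPAI : PAI_st) (hVAL : VAL_st)
    : LAST_st := by
  intro A _ J η n T b hP K ζ l₀ Q φ τ hQ l hl' ξ u hln hl hξ hun h3 hI u1 u2 hR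
  have l3 : l ≠ 3 := hP.ne hln
  have lmem : l ∈ n.primeFactors := Nat.mem_primeFactors.2 ⟨hl'.out, hln, hP.sf.ne_zero⟩
  cases b with
  | true =>
    refine hLU.2.1 l u ?_ u1 u2
    refine (prime_mod hl'.out l3).resolve_left fun e => hl ?_
    exact mem_filter.2 ⟨lmem, e⟩
  | false =>
    have hl0 : l = l₀ := by
      by_contra e
      exact hl (mem_erase.2 ⟨e, lmem⟩)
    by_contra hu
    have h0 := hP.cm
    have hT : ∀ g, η g T = T := fun g => (hP.ty g).trans (one_smul _ _)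
    obtain ⟨e, he⟩ := hP.wp K
    obtain ⟨-, p2, -⟩ := hPAI A J K e h0 he.toPai hQ.one
    obtain ⟨R, t1, t2⟩ := W_ex h0 (2 * K)
    have hz : Zc J η (2 * K) (dd η R) := dd_zc hP.ga fun g => W_odd h0 hP.t0 (hT g) t1
    have hz' : ∀ H, InL η H (dd η R) := fun H => ⟨R, fun _ _ => rfl⟩
    have lQ : l ∉ Q := fun h => (hQ.pri _ h).2.2.1 hln
    have hK := hQ.one
    have lev : ∀ g j, η g (dd η R j) ∈ tor A (3 ^ K) := fun g j =>
      (W_tor h0 K).1 ((W_act h0 hP.ga g).2 (hz.lev j))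
    have c1 : ∀ (χ : GQ → ZMod 3) g, chT χ T g ∈ Wn J (2 * K) := fun χ g =>
      W_mono (by omega) (chT_mem hP.t0.1 χ g)
    obtain ⟨v, v1, v2⟩ := hINVU A J η n T false hP K e l R (-u) hK he hln t1 t2 (fun g _ => hT g)
      (tc_false.1 u1.neg.1) u1.neg.2 (fun τ' hτ => by rw [Pi.neg_apply, u2 τ' hτ, neg_zero])
      fun h => hu fun g hg hk => neg_eq_zero.1 (h g hg hk)
    have i0 : Iv l 1 (cup η e ξ (dd η R)) (3 ^ 1) (v / 3) := by
      refine (Iv.cob_mul (cob_InL he hR (hz' _)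
        (fun g _ => (W_tor h0 K).1 (add_mem (hξ.lev g) (c1 u g)))
        fun g _ => (W_tor h0 K).1 (hz.lev g)) v2).congr fun g _ j _ => ?_
      simp only [cup]
      rw [← he.bil.addl (((ξ + chT u T : GQ → A)) g) ((W_tor h0 K).1 (add_mem (hξ.lev g) (c1 u g))) _
        ((W_tor h0 K).1 (c1 (-u) g)) _ (lev g j), chT_neg h0 hP.t0.1, Pi.add_apply, Pi.neg_apply,
        add_neg_cancel_right]
    obtain ⟨k, hk⟩ := hCUP A J η n T false hP K 1 e ξ (dd η R) (insert l Q)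
      (fun q => if q = l then v / 3 else 0) he hξ hz (fun q hq => by
        rcases mem_insert.1 hq with rfl | h
        · exact ⟨hl'.out, l3⟩
        · exact ⟨(hQ.pri q h).1, (hQ.thr h true).1⟩) (fun q _ hq => by
        rcases mem_insert.1 hq with rfl | h
        · rw [if_pos rfl]
          exact i0
        · rw [if_neg (ne_of_mem_of_not_mem h lQ)]
          refine hVAL.2 q 1 _ _ ((Cob.one _).congr fun g _ j hj => ?_)
          rw [cup, dd, hQ.triv q h j hj R t1, sub_self, map_zero]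
          exact (p2 (2 * K) 0 le_rfl _ (hξ.lev g) 0 (zero_mem _)).symm) (fun q hq a2 => by
        rw [mem_insert, not_or] at a2
        have key : InL η (Dec (nv q 1)) ξ → Cob (Dec (nv q 1)) (cup η e ξ (dd η R)) := fun h =>
          cob_InL he h (hz' _) (fun g _ => (W_tor h0 K).1 (hξ.lev g))
            fun g _ => (W_tor h0 K).1 (hz.lev g)
        by_cases a1 : q = 3
        · subst a1
          exact Or.inl (key h3)
        by_cases a3 : q ∣ n
        · exact Or.inl (key (hI q (mem_erase.2 ⟨hl0 ▸ a2.1,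
            Nat.mem_primeFactors.2 ⟨hq.out, a3, hP.sf.ne_zero⟩⟩)))
        · exact Or.inr ⟨a1, a3, fun γ τ' hτ => ⟨hun q γ a1 a3 a2.2 τ' hτ,
            sub_eq_zero.2 (hP.ga.unr' h0 a1 a3 hτ t1)⟩⟩)
    rw [sum_insert lQ, if_pos rfl, sum_eq_zero fun q h => if_neg (ne_of_mem_of_not_mem h lQ),
      add_zero, div_eq_iff three_ne_zero] at hk
    have : v = k * 3 := by exact_mod_cast hk
    exact v1 ⟨k, by omega⟩

end Pool.Agent.MP_e23604_nt.S

end

section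

set_option autoImplicit false

open Module Filter Topology Finset
open scoped Classical

namespace Pool.Agent.MP_e23604_nt.S

open B R
open Q (Wn)

/-- the class at one prime -/
theorem loc_SCLS (hUNL : UNL_st) (hLU : LU_st) {A : Type} [AddCommGroup A] {J : A ≃ₗ[ℤ] A}
    {η : Act A} {n : ℕ} {T : A} {b : Bool} (h : P1 J η n T b) (l : ℕ) :
    ∃ c : (GQ → ZMod 3) → ZMod 3, ∀ [Fact l.Prime], l ∣ n → ∀ a a', Tl b (Dec (nv l 1)) a →
      Tl b (Dec (nv l 1)) a' → c a = c a' → InL η (Dec (nv l 1)) (chT (a - a') T) := by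
  by_cases hl : l.Prime ∧ l ∣ n
  swap
  · exact ⟨fun _ => 0, fun {hp} hn => absurd ⟨hp.out, hn⟩ hl⟩
  have := Fact.mk hl.1
  obtain ⟨φ, hφ⟩ := (R.FRO_ok l 1).1
  have key : ∀ a : GQ → ZMod 3, ∃ u : GQ → ZMod 3, Tl b (Dec (nv l 1)) a →
      Tl b (Dec (nv l 1)) u ∧ Ur l u ∧ InL η (Dec (nv l 1)) (chT (a - u) T) := fun a => by
    by_cases ha : Tl b (Dec (nv l 1)) a
    · exact (hUNL A J η n T b h l a hl.2 ha).imp fun _ e _ => e
    · exact ⟨0, fun e => absurd e ha⟩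
  choose u hu using key
  refine ⟨fun a => u a φ, fun {_} _ a a' ha ha' e => ?_⟩
  obtain ⟨h1, h2, h3⟩ := hu a ha
  obtain ⟨h4, h5, h6⟩ := hu a' ha'
  have h7 := hLU.1 b l φ (fun g => u a g - u a' g) hφ (h1.sub h4)
    (fun τ hτ => by simp only [h2 τ hτ, h5 τ hτ, sub_zero]) (sub_eq_zero.2 e)
  refine (InL_sub h3 h6).congr fun g hg => ?_
  rw [← chT_sub h.cm h.t0.1]
  have h8 : a g - a' g = a g - u a g - (a' g - u a' g) := by linear_combination h7 g hg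
  simp only [chT, Pi.sub_apply, ← h8]

theorem CLS_pf (hUNL : UNL_st) (hLAST : LAST_st) (hLU : LU_st) : CLS_st := by
  intro A _ J η n T b h K ζ l₀ Q φ τ hQ
  choose c hc using loc_SCLS hUNL hLU h
  refine ⟨fun a l => c l a, fun a a' ha ha' hu hu' h3 hI => ?_⟩
  have hd : Tl b ⊤ (a - a') := ha.sub ha'
  have hz : Zc J η 1 (chT (a - a') T) := chT_zc h.cm h.t0.1 h.ty hd
  have hU : UnrO n Q (chT (a - a') T) := fun l _ γ e1 e2 e3 t ht => by
    simp only [chT, Pi.sub_apply, hu l γ e1 e2 e3 t ht, hu' l γ e1 e2 e3 t ht, sub_zero,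
      ZMod.val_zero, zero_smul]
  have hL : ∀ (l : ℕ) [Fact l.Prime], l ∈ Ia (!b) n l₀ →
      InL η (Dec (nv l 1)) (chT (a - a') T) := fun l _ hl =>
    hc l (Nat.dvd_of_mem_primeFactors (Ia_sub _ _ _ hl)) a a' (ha.mono le_top) (ha'.mono le_top)
      (hI l hl)
  refine ⟨hz, hU, h3, fun l _ hl => ?_⟩
  by_cases e : l ∈ Ia (!b) n l₀
  · exact hL l e
  obtain ⟨u, h1, h2, h4⟩ := hUNL A J η n T b h l (a - a') hl (hd.mono le_top)
  have h5 : Tv (Dec (nv l 1)) fun g => -u g := by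
    refine hLAST A J η n T b h K ζ l₀ Q φ τ hQ l (chT (a - a') T) _ hl e
      (Zc_mono (by have := hQ.one; omega) hz) hU h3 hL h1.neg
      (fun t ht => by simp only [h2 t ht, neg_zero]) (h4.congr fun g _ => ?_)
    rw [← chT_add h.cm h.t0.1]
    simp only [chT, Pi.add_apply, Pi.sub_apply, sub_eq_add_neg]
  have h6 : Tv (Dec (nv l 1)) u := fun g hg hk => neg_eq_zero.1 (h5 g hg hk)
  refine (h4.add (InL_tv h.cm h.t0.1 h.ty h1.1 h6)).congr fun g _ => ?_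
  rw [← chT_add h.cm h.t0.1, sub_add_cancel]

end Pool.Agent.MP_e23604_nt.S

end

section

set_option autoImplicit false

open Module Filter Topology Finset
open scoped Classical

namespace Pool.Agent.MP_e23604_nt.S

open B R
open Q (Wn)

theorem COR_pf (hUNL : UNL_st) (hLAST : LAST_st) (hLU : LU_st) (hBS : BS_st) : COR_st := by
  intro A _ J η n T b hP K ζ l₀ Q φ τ hQ m ξ hm1 hm2 hZ hU h3 hl
  obtain ⟨κ, hκ⟩ := hBS b
  have h0 := hP.cm
  have hT := hP.t0.1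
  have hu : ∀ l : ℕ, ∃ u : GQ → ZMod 3, ∀ [Fact l.Prime], l ∣ n → Tl b (Dec (nv l 1)) u ∧
      Ur l u ∧ InL η (Dec (nv l 1)) (ξ + chT u T) := by
    intro l
    by_cases h : l.Prime ∧ l ∣ n
    · have := Fact.mk h.1
      obtain ⟨χ, a, c⟩ := hl l h.2
      obtain ⟨u, u1, u2, u3⟩ := hUNL A J η n T b hP l χ h.2 a
      refine ⟨u, fun _ => ⟨u1, u2, (InL_sub c u3).congr fun g _ => ?_⟩⟩
      rw [chT_sub h0 hT]
      simp only [Pi.add_apply, Pi.sub_apply]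
      abel
    · exact ⟨0, fun h' => absurd ⟨Fact.out, h'⟩ h⟩
  choose u hu using hu
  choose! q hq1 hq2 hq3 using hQ.sep (!b)
  have hdv : ∀ l ∈ Ia (!b) n l₀, l ∣ n := fun l h => Nat.dvd_of_mem_primeFactors (Ia_sub _ _ _ h)
  have hpr : ∀ l ∈ Ia (!b) n l₀, (q l).Prime := fun l h => (hQ.pri _ (hq1 l h)).1
  have had : ∀ l ∈ Ia (!b) n l₀, Ad b (q l) := fun l h => (hQ.thr (hq1 l h) b).2.1
  have hne : ∀ l ∈ Ia (!b) n l₀, ∀ l', l' ∣ n → q l ≠ l' := fun l h l' h' e =>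
    (hQ.pri _ (hq1 l h)).2.2.1 (e ▸ h')
  have hco : ∀ l ∈ Ia (!b) n l₀, Tl b ⊤ (κ (q l)) := fun l h => hκ.coc _ (hpr l h) (had l h)
  have ht : ∀ l : ℕ, ∃ t : ZMod 3, ∀ [Fact l.Prime], l ∈ Ia (!b) n l₀ →
      ∀ g ∈ Dec (nv l 1), u l g = t * κ (q l) g := by
    intro l
    by_cases h : l.Prime ∧ l ∈ Ia (!b) n l₀
    · have := Fact.mk h.1
      have h1 := hdv l h.2
      obtain ⟨t, ht⟩ := hLU.2.2.1 b l (u l) (κ (q l)) (hu l h1).1 ((hco l h.2).mono le_top)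
        (hu l h1).2.1
        (hκ.unr _ (hpr l h.2) (had l h.2) l 1 (hP.ne h1) (hne l h.2 l h1).symm)
        fun e => hq2 l h.2 ((sy_not b _ _).2
          ((hκ.loc _ l (hpr l h.2) (had l h.2) (hne l h.2 l h1)).1 e))
      exact ⟨t, fun _ => ht⟩
    · exact ⟨0, fun h' => absurd ⟨Fact.out, h'⟩ h⟩
  choose t ht using ht
  obtain ⟨a, ha⟩ : ∃ a : GQ → ZMod 3, a = fun g => ∑ l ∈ Ia (!b) n l₀, t l * κ (q l) g :=
    ⟨_, rfl⟩
  have a1 : Tl b ⊤ a := ha ▸ Tl.sum _ fun l h => (hco l h).mul (t l)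
  have a2 : ∀ (l : ℕ) [Fact l.Prime] (γ : GQ), l ≠ 3 → l ∉ Q → ∀ σ ∈ Ine l γ, a σ = 0 := by
    intro l _ γ h1 h2 σ hσ
    rw [ha]
    exact sum_eq_zero fun l' h => by
      rw [hκ.unr _ (hpr l' h) (had l' h) l γ h1 (fun e => h2 (e ▸ hq1 l' h)) σ hσ, mul_zero]
  have key : ∀ (l : ℕ) [Fact l.Prime], l ∣ n → (Tv (Dec (nv l 1)) fun g => u l g - a g) →
      InL η (Dec (nv l 1)) (ξ + chT a T) := by
    intro l _ h1 h2
    refine (InL_sub (hu l h1).2.2
      (InL_tv h0 hT hP.ty ((hu l h1).1.sub (a1.mono le_top)).1 h2)).congr fun g _ => ?_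
    simp only [Pi.add_apply, Pi.sub_apply, chT, val_sub h0 hT]
    abel
  have b1 : Zc J η m (ξ + chT a T) := hZ.add (Zc_mono hm1 (chT_zc h0 hT hP.ty a1))
  have b2 : UnrO n Q (ξ + chT a T) := fun l _ γ h1 h2 h4 σ hσ => by
    rw [Pi.add_apply, hU l γ h1 h2 h4 σ hσ, (chT_eq_zero h0 hP.t0).2 (a2 l γ h1 h4 σ hσ), add_zero]
  have b3 : InL η (Dec (nv 3 1)) (ξ + chT a T) := by
    refine h3.add (InL_tv h0 hT hP.ty (a1.mono le_top).1 fun g hg hk => ?_)
    rw [ha]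
    exact sum_eq_zero fun l h => by
      rw [(hκ.loc _ 3 (hpr l h) (had l h) (hQ.thr (hq1 l h) b).1).2 (hQ.thr (hq1 l h) b).2.2.2
        g hg hk, mul_zero]
  have b5 : ∀ (l : ℕ) [Fact l.Prime], l ∈ Ia (!b) n l₀ →
      InL η (Dec (nv l 1)) (ξ + chT a T) := by
    intro l _ h
    refine key l (hdv l h) fun g hg hk => ?_
    rw [ha, sub_eq_zero, ht l h g hg]
    refine (sum_eq_single_of_mem (f := fun l => t l * κ (q l) g) l h fun l' h' e => ?_).symm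
    rw [(hκ.loc _ l (hpr l' h') (had l' h') (hne l' h' l (hdv l h))).2
      ((sy_not b _ _).1 (hq3 l' h' l h e.symm)) g hg hk, mul_zero]
  refine ⟨a, b1, b2, b3, fun l _ h1 => ?_⟩
  by_cases h : l ∈ Ia (!b) n l₀
  · exact b5 l h
  · refine key l h1 (hLAST A J η n T b hP K ζ l₀ Q φ τ hQ l _ _ h1 h (Zc_mono hm2 b1) b2 b3 b5
      ((hu l h1).1.sub (a1.mono le_top)) (fun σ hσ => ?_) ((hu l h1).2.2.congr fun g _ => ?_))
    · rw [(hu l h1).2.1 σ hσ, a2 l 1 (hP.ne h1) (fun e => (hQ.pri l e).2.2.1 h1) σ hσ, sub_zero]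
    · simp only [Pi.add_apply, chT, val_sub h0 hT]
      abel

end Pool.Agent.MP_e23604_nt.S

end

section

set_option autoImplicit false

open Module Filter Topology Finset
open scoped Classical

namespace Pool.Agent.MP_e23604_nt.S

open B R
open Q (Wn)

theorem prod_SISOT {ζ : Qb} (h : ζ ≠ 0) (s : Finset ℕ) (m : ℕ → ℤ) :
    ∏ q ∈ s, ζ ^ m q = ζ ^ ∑ q ∈ s, m q := by
  induction s using Finset.induction_on with
  | empty => simp
  | insert a s ha ih => rw [prod_insert ha, sum_insert ha, ih, zpow_add₀ h]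

theorem ISOT_pf (hCUP : CUP_st) (hINVQ : INVQ_st) (hPAI : PAI_st) : ISOT_st := by
  intro A _ J η n T b₀ hP K ζ l₀ Q φ τ hQ e he a ha b hb
  have h0 := hP.cm
  have hbil : Bil (tor A (3 ^ K)) (3 ^ (K + 1)) e :=
    ⟨he.bil.addl, he.bil.addr, fun x hx y hy => by
      rw [pow_succ 3 K, pow_mul, he.bil.pow x hx y hy, one_pow]⟩
  have ta : ∀ g, a g ∈ tor A (3 ^ K) := fun g => (W_tor h0 K).1 (ha.1.lev g)
  have tb : ∀ g, b g ∈ tor A (3 ^ K) := fun g => (W_tor h0 K).1 (hb.1.lev g)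
  have key : ∀ q : ℕ, ∃ m : ℤ, ∀ [Fact q.Prime], q ∈ Q →
      ζ ^ m * e (a (φ q)) (b (τ q)) = e (a (τ q)) (b (φ q)) ∧
        Iv q 1 (cup η e a b) (3 ^ (K + 1)) (m / 3 ^ (K + 1)) := by
    intro q
    by_cases hq : q ∈ Q
    · have : Fact q.Prime := ⟨(hQ.pri q hq).1⟩
      have tr : ∀ g ∈ Dec (nv q 1), ∀ u ∈ Wn J (2 * K), η g u = u := fun g hg u hu =>
        hQ.triv q hq g hg u (W_mono (Nat.le_succ _) hu)
      have ad : ∀ ξ : GQ → A, Zc J η (2 * K) ξ → Adt (Dec (nv q 1)) ξ := fun ξ hξ g hg j _ => by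
        rw [hξ.coc, tr g hg _ (hξ.lev j)]
      obtain ⟨m, h1, h2⟩ := hINVQ K ζ q 1 (φ q) (τ q) A (tor A (3 ^ K)) e a b hQ.zeta (hQ.tq q hq)
        hbil (fun x hx => by rw [pow_succ', mul_smul, mem_tor.1 hx, smul_zero]) (ad a ha.1)
        (ad b hb.1) (ha.1.lc.mono le_top) (hb.1.lc.mono le_top) fun g _ => ⟨ta g, tb g⟩
      exact ⟨m, fun _ => ⟨h1, h2.congr fun g hg j _ => by rw [cup, tr g hg _ (hb.1.lev j)]⟩⟩
    · exact ⟨0, fun h => absurd h hq⟩
  choose m hm using key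
  obtain ⟨k, hk⟩ := hCUP A J η n T b₀ hP K (K + 1) e a b Q (fun q => m q / 3 ^ (K + 1)) he ha.1 hb.1
    (fun l hl => ⟨(hQ.pri l hl).1, (hQ.thr hl true).1⟩)
    (fun l _ hl => (hm l hl).2) fun l _ hl => by
      by_cases h3 : l = 3
      · subst h3
        exact Or.inl (cob_InL he ha.2.2.1 hb.2.2.1 (fun g _ => ta g) fun g _ => tb g)
      by_cases h : l ∣ n
      · exact Or.inl (cob_InL he (ha.2.2.2 l h) (hb.2.2.2 l h) (fun g _ => ta g) fun g _ => tb g)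
      · exact Or.inr ⟨h3, h, fun γ t ht => ⟨ha.2.1 l γ h3 h hl t ht, hb.2.1 l γ h3 h hl t ht⟩⟩
  have h1 : ∑ q ∈ Q, m q = (3 ^ (K + 1) : ℕ) * k := by
    rw [← sum_div, div_eq_iff (by positivity), mul_comm] at hk
    exact_mod_cast hk
  have z0 : ζ ≠ 0 := hQ.zeta.ne_zero (by positivity)
  have h2 : ∏ q ∈ Q, ζ ^ m q = 1 := by
    rw [prod_SISOT z0, h1, zpow_mul, zpow_natCast, hQ.zeta.pow_eq_one, one_zpow]
  have h3 : ∏ q ∈ Q, ζ ^ m q * (e (a (φ q)) (b (τ q)) * e (b (φ q)) (a (τ q))) = 1 :=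
    prod_eq_one fun q hq => by
      have : Fact q.Prime := ⟨(hQ.pri q hq).1⟩
      rw [← mul_assoc, (hm q hq).1]
      exact (hPAI A J K e hP.cm he.toPai hQ.one).2.2 _ (ha.1.lev _) _ (hb.1.lev _)
  rw [prod_mul_distrib, h2, one_mul] at h3
  rw [prod_coe_sort Q fun q => e (a (φ q)) (b (τ q)) * e (b (φ q)) (a (τ q)), h3]

end Pool.Agent.MP_e23604_nt.S

end

section

set_option autoImplicit false

open Module Filter Topology Finset
open scoped Classical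

namespace Pool.Agent.MP_e23604_nt.S

open B R
open Q (Wn)

theorem core_SKER1 (hUPB : UPB_st) (hBS : BS_st) {A : Type} [AddCommGroup A] {J : A ≃ₗ[ℤ] A}
    {η : Act A} {n K l₀ : ℕ} {T : A} {b : Bool} {ζ : Qb} {Q : Finset ℕ} {φ τ : ℕ → GQ}
    (hP : P1 J η n T b) (hQ : Qs J η n K ζ l₀ Q φ τ) {a : GQ → ZMod 3} (ha : Tl b ⊤ a)
    (hl : ∀ (l : ℕ) [Fact l.Prime], l ∣ n → InL η (Dec (nv l 1)) (chT a T))
    (hz : ∀ (q : ℕ) [Fact q.Prime], q ∈ Q → ∀ g ∈ Dec (nv q 1), a g = 0)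
    (hu : ∀ (l : ℕ) [Fact l.Prime], l ≠ 3 → Ad b l → l ∉ Ia b n l₀ → Ur l a) : Tv ⊤ a := by
  obtain ⟨κ, hκ⟩ := hBS b
  have hI : ∀ l ∈ Ia b n l₀, l.Prime ∧ l ∣ n := fun l h =>
    ⟨Nat.prime_of_mem_primeFactors (Ia_sub b n l₀ h), Nat.dvd_of_mem_primeFactors (Ia_sub b n l₀ h)⟩
  obtain ⟨u, hg⟩ := hκ.gen a (Ia b n l₀) ha
    (fun l h => ⟨(hI l h).1, hP.ne (hI l h).2, Ia_ad h⟩) hu
  have h1 : ∀ l ∈ Ia b n l₀, u l = 0 := by
    intro l h
    obtain ⟨q, hq, s1, s2⟩ := hQ.sep b l h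
    have := Fact.mk (hQ.pri q hq).1
    have hne : ∀ l' ∈ Ia b n l₀, l' ≠ q := fun l' h' e => (hQ.pri q hq).2.2.1 (e ▸ (hI l' h').2)
    have h2 := mt (hκ.loc l q (hI l h).1 (Ia_ad h) (hne l h)).1 s1
    unfold Tv at h2
    push Not at h2
    obtain ⟨g, g1, g2, g3⟩ := h2
    have h3 := hg g g2
    rw [hz q hq g g1, sum_eq_single_of_mem l (mem_insert_of_mem h) fun l' h' e => ?_] at h3
    · exact (mul_eq_zero.1 h3.symm).resolve_right g3
    · rcases mem_insert.1 h' with rfl | h'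
      · rw [(hκ.loc 3 q Nat.prime_three (ad_three b) (hQ.thr hq b).1.symm).2 (hQ.thr hq b).2.2.1
          g g1 g2, mul_zero]
      · rw [(hκ.loc l' q (hI l' h').1 (Ia_ad h') (hne l' h')).2 (s2 l' h' e) g g1 g2, mul_zero]
  have h2 : ∀ g ∈ GK, a g = u 3 * κ 3 g := fun g h => by
    rw [hg g h, sum_eq_single_of_mem 3 (mem_insert_self _ _) fun l' h' e => by
      rw [h1 l' ((mem_insert.1 h').resolve_left e), zero_mul]]
  obtain ⟨l, l1, l2⟩ := hP.gB b
  have := Fact.mk (Nat.prime_of_mem_primeFactors l1)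
  have l3 := Nat.dvd_of_mem_primeFactors l1
  have l4 := hP.ne l3
  have h3 := hUPB A J η n T b hP l a l3 (ha.mono le_top) (fun t ht => by
    rw [h2 t (Ine_GK 1 l4 ht), hκ.unr 3 Nat.prime_three (ad_three b) l 1 l4 l4 t ht, mul_zero])
    (hl l l3)
  have h4 := mt (hκ.loc 3 l Nat.prime_three (ad_three b) l4.symm).1 l2
  unfold Tv at h4
  push Not at h4
  obtain ⟨g, g1, g2, g3⟩ := h4
  have h5 : u 3 = 0 := (mul_eq_zero.1 ((h2 g g2).symm.trans (h3 g g1 g2))).resolve_right g3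
  intro x _ hx
  rw [h2 x hx, h5, zero_mul]

theorem KER1_pf (hUPB : UPB_st) (hBS : BS_st) (hLU : LU_st) (hTAM : TAM_st) (hHOMQ : HOMQ_st)
    : KER1_st := by
  intro A _ J η n T b hP K ζ l₀ Q φ τ hQ ξ hξ hr
  obtain ⟨a, ha, e⟩ := ex_chT hP.cm hP.t0 hP.ty (H := ⊤) hξ.1.lc (fun g _ j _ => hξ.1.coc g j)
    fun g _ => hξ.1.lev g
  obtain rfl : chT a T = ξ := funext fun g => e g trivial
  have hn : n ≠ 0 := hP.sf.ne_zero
  have hz : ∀ (q : ℕ) [Fact q.Prime], q ∈ Q → ∀ g ∈ Dec (nv q 1), a g = 0 := by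
    intro q _ hq
    have h1 := congrFun hr ⟨q, hq⟩
    exact (hHOMQ K ζ q 1 (φ q) (τ q) (ZMod 3) hQ.zeta (hQ.tq q hq)).2.2.2.2 a 1
      ((tc_gk (hQ.gk q hq)).1 (ha.mono le_top).1) (ha.2.mono le_top)
      (fun g _ => by rw [pow_one, nsmul_eq_mul, ZMod.natCast_self, zero_mul])
      ((chT_eq_zero hP.cm hP.t0).1 (congrArg Prod.fst h1))
      ((chT_eq_zero hP.cm hP.t0).1 (congrArg Prod.snd h1))
  have hur : ∀ (l : ℕ) [Fact l.Prime], l ≠ 3 → ¬ l ∣ n → Ur l a := by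
    intro l _ h3 hl t ht
    by_cases hq : l ∈ Q
    · exact hz l hq t (Ine_le l 1 ht)
    · exact (chT_eq_zero hP.cm hP.t0).1 (hξ.2.1 l 1 h3 hl hq t ht)
  cases b
  · have h1 := core_SKER1 hUPB hBS hP hQ ha hξ.2.2.2 hz fun l hl h3 hA hI =>
      hur l h3 fun hd => hI (mem_filter.2 ⟨Nat.mem_primeFactors.2 ⟨hl.out, hd, hn⟩,
        (prime_mod hl.out h3).resolve_right (hA.resolve_left Bool.false_ne_true)⟩)
    obtain ⟨w, hw, e1⟩ := res_one hP.cm hP.t0.1 hP.ty ha.1 h1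
    exact ⟨w, W_mono one_le_two hw, funext fun g => e1 g trivial⟩
  · obtain ⟨R, hR, hR1⟩ := W_ex hP.cm 1
    obtain ⟨a0, ha0, e0⟩ := ex_chT hP.cm hP.t0 hP.ty (H := ⊤) (dd_lc hP.ga R)
      (fun g _ j _ => dd_coc η R g j) fun g _ => dd_two hP hR (Or.inl rfl)
    have z0 : ∀ g, a0 g = 0 ↔ η g R = R := fun g => by
      rw [← chT_eq_zero hP.cm hP.t0, e0 g trivial, dd, sub_eq_zero]
    have := Fact.mk (Nat.prime_of_mem_primeFactors hQ.base)
    have l3 := Nat.dvd_of_mem_primeFactors hQ.base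
    have l4 := hP.ne l3
    obtain ⟨-, t, ht⟩ := hLU.2.2.2.1 l₀ a a0 l4 ((tc_gk (Ine_GK 1 l4)).1 (ha.mono le_top).1)
      (ha.2.mono le_top) ((tc_gk (Ine_GK 1 l4)).1 (ha0.mono le_top).1) (ha0.2.mono le_top)
      fun h => by
        obtain ⟨s, s1, -, s2⟩ := hP.ga.tam l₀ l3
        exact hR1 (W_one.2 ((s2 2 R hR).symm.trans ((z0 s).1 (h s s1))))
    have e1 : chT (fun g => a g - t * a0 g) T = chT a T - dd η (t.val • R) := funext fun g => by
      have e2 : (a0 g).val • T = η g R - R := e0 g trivial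
      simp only [chT, Pi.sub_apply, dd]
      rw [val_sub hP.cm hP.t0.1, val_mul hP.cm hP.t0.1, e2, map_nsmul, smul_sub]
    have h1 := core_SKER1 hUPB hBS hP hQ (ha.sub (ha0.mul t))
      (fun l _ hl => e1 ▸ InL_sub (hξ.2.2.2 l hl) ⟨t.val • R, fun _ _ => rfl⟩)
      (fun q _ hq g hg => by
        rw [hz q hq g hg, (z0 g).2 (hQ.triv q hq g hg R (W_mono (by have := hQ.one; omega) hR)),
          mul_zero, sub_zero])
      fun l hl h3 _ hI s hs => by
        by_cases h0 : l = l₀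
        · subst h0
          exact sub_eq_zero.2 (ht s hs)
        · have hd : ¬ l ∣ n := fun hd =>
            hI (mem_erase.2 ⟨h0, Nat.mem_primeFactors.2 ⟨hl.out, hd, hn⟩⟩)
          show a s - t * a0 s = 0
          rw [hur l h3 hd s hs, (z0 s).2 (Ga.unr' hP.cm hP.ga h3 hd hs hR), mul_zero, sub_zero]
    obtain ⟨w, hw, e2⟩ := res_one hP.cm hP.t0.1 hP.ty (ha.sub (ha0.mul t)).1 h1
    refine ⟨w + t.val • R, add_mem (W_mono one_le_two hw) (nsmul_mem hR _), funext fun g => ?_⟩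
    have e3 := e2 g trivial
    rw [e1, Pi.sub_apply, sub_eq_iff_eq_add] at e3
    rw [e3]
    simp only [dd, map_add]
    abel

end Pool.Agent.MP_e23604_nt.S

end

section

set_option autoImplicit false

open Module Filter Topology Finset
open scoped Classical

namespace Pool.Agent.MP_e23604_nt.S

open B R
open Q (Wn)

theorem LOWK_pf (hKER1 : KER1_st) (hLOC : LOC_st) : LOWK_st := by
  intro A _ J η n T b h K ζ l₀ Q φ τ hQ
  have z1 : ∀ u ∈ Wn J 1, ∀ g ∈ GK, dd η u g = 0 := fun u hu g hg =>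
    sub_eq_zero.2 (h.ga.fix g hg u hu)
  cases b
  · refine ⟨0, fun _ => rfl, fun a ha hr => ⟨0, fun g hg => ?_⟩⟩
    obtain ⟨T', h1, h2⟩ := hKER1 A J η n T false h K ζ l₀ Q φ τ hQ _ ha hr
    obtain ⟨c, -, hc⟩ := hLOC.2.2.2 1
    have h3 : wo J T' ∈ Wn J 1 := W_om.2 h1
    have h4 : dd (tw η) (wo J T') c = 0 := by
      rw [← wo_dd h.cm h.ga, ← h2]
      exact W_zero.1 (W_om.2 (chT_mem h.t0.1 a c))
    have h5 : tw η c (wo J T') = -wo J T' := by
      rw [← val_dg h.cm h.t0 h3, act_val h.cm h.t0.1 h.tw.ty, Bool.not_false, sg_true, ep_neg hc,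
        neg_one_mul, val_neg h.cm h.t0.1]
    have h6 := T_three h.cm h3
    rw [dd, h5] at h4
    have h7 : wo J T' = 0 := by linear_combination (norm := abel) h6 + h4
    rw [zero_mul, ← chT_eq_zero h.cm h.t0, h2]
    exact z1 T' (W_om.1 (W_zero.2 h7)) g hg
  · obtain ⟨R, hR, hR'⟩ := W_ex h.cm 1
    refine ⟨fun g => dg T (dd η R g), fun e => absurd e (by decide), fun a ha hr => ?_⟩
    obtain ⟨T', h1, h2⟩ := hKER1 A J η n T true h K ζ l₀ Q φ τ hQ _ ha hr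
    have h3 : ∀ g, (dg T (dd η R g)).val • T = dd η R g := fun g =>
      val_dg h.cm h.t0 (dd_two h hR (Or.inl rfl))
    have h4 : ∀ g, (a g).val • T = dd η T' g := fun g => congrFun h2 g
    rcases W_three h.cm hR hR' h1 with e | e | e
    · refine ⟨0, fun g hg => ?_⟩
      rw [zero_mul, ← chT_eq_zero h.cm h.t0, h2]
      exact z1 T' e g hg
    · refine ⟨1, fun g hg => val_inj h.cm h.t0 ?_⟩
      have h5 := z1 _ e g hg
      rw [one_mul, h3, h4]
      simp only [dd, map_sub] at h5 ⊢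
      linear_combination (norm := abel) h5
    · refine ⟨-1, fun g hg => val_inj h.cm h.t0 ?_⟩
      have h5 := z1 _ e g hg
      rw [neg_one_mul, val_neg h.cm h.t0.1, h3, h4]
      simp only [dd, map_add] at h5 ⊢
      linear_combination (norm := abel) h5

end Pool.Agent.MP_e23604_nt.S

end

section

set_option autoImplicit false

open Module Filter Topology Finset
open scoped Classical

namespace Pool.Agent.MP_e23604_nt.S

open B R
open Q (Wn)

theorem cnt_SLOW {U Y G Z : Type} [Fintype U] [Nonempty U] [Fintype Y] [AddCommGroup G]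
    [Nonempty Z] (c : U → Y) (R : U → G) (S : Finset G) (W : Finset Z) (P : U → U → Z → Prop)
    (h1 : ∀ u u', c u = c u' → R u - R u' ∈ S)
    (h2 : ∀ u u', c u = c u' → R u = R u' → ∃ t ∈ W, P u u' t)
    (h3 : ∀ u u' v t, P u v t → P u' v t → u = u') :
    Fintype.card U ≤ W.card * (Fintype.card Y * S.card) := by
  rw [← card_univ, ← card_univ (α := Y), ← card_product]
  refine card_le_mul_card_image_of_maps_to
    (f := fun u => (c u, R u - R (Function.invFun c (c u))))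
    (fun u _ => mem_product.2 ⟨mem_univ _, h1 _ _ (Function.invFun_eq ⟨u, rfl⟩).symm⟩) _
    fun y _ => ?_
  rcases (univ.filter fun u => (c u, R u - R (Function.invFun c (c u))) = y).eq_empty_or_nonempty
    with h | ⟨v, hv⟩
  · rw [h]
    exact Nat.zero_le _
  have key : ∀ u ∈ univ.filter fun u => (c u, R u - R (Function.invFun c (c u))) = y,
      ∃ t ∈ W, P u v t := fun u hu => by
    obtain ⟨e1, e2⟩ := Prod.mk.inj ((mem_filter.1 hu).2.trans (mem_filter.1 hv).2.symm)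
    rw [e1] at e2
    exact h2 u v e1 (sub_left_injective e2)
  choose! t ht1 ht2 using key
  exact card_le_card_of_injOn t ht1 fun u hu u' hu' e => h3 u u' v _ (ht2 u hu) (e ▸ ht2 u' hu')

theorem inj_SLOW (hTAM : TAM_st) {b : Bool} {κ : ℕ → GQ → ZMod 3} (hκ : Bs b κ) {I : Finset ℕ}
    (hI : ∀ l ∈ I, l.Prime ∧ Ad b l) (w : I → ZMod 3)
    (h : ∀ g ∈ GK, ∑ l : I, w l * κ l g = 0) : w = 0 := by
  have h1 : ∀ l : I, l.1 ≠ 3 → w l = 0 := fun l h3 => by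
    have := Fact.mk (hI l l.2).1
    obtain ⟨k1, ⟨τ, hτ, k2⟩, -⟩ := hTAM l 1 h3
    have e := h τ (k1 hτ)
    rw [sum_eq_single l (fun l' _ hl => by
      rw [hκ.unr l' (hI l' l'.2).1 (hI l' l'.2).2 l 1 h3 (fun e => hl (Subtype.ext e.symm)) τ hτ,
        mul_zero]) fun e => absurd (mem_univ _) e] at e
    exact (mul_eq_zero.1 e).resolve_right
      (hκ.ram l h3 (hI l l.2).2 τ hτ (by rw [k2]; exact one_ne_zero))
  funext l
  by_cases h3 : l.1 = 3
  · by_contra h4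
    refine hκ.thr fun g _ hg => ?_
    have e := h g hg
    rw [sum_eq_single l (fun l' _ hl => by
      rw [h1 l' fun e => hl (Subtype.ext (e.trans h3.symm)), zero_mul])
      fun e => absurd (mem_univ _) e, h3] at e
    exact (mul_eq_zero.1 e).resolve_left h4
  · exact h1 l h3

theorem LOW_pf (hCLS : CLS_st) (hLOWK : LOWK_st) (hBS : BS_st) (hTAM : TAM_st) (hHOMQ : HOMQ_st)
    : LOW_st := by
  intro A _ J η n T b h K ζ l₀ Q φ τ hQ ℓ ⟨N, f, hN, hf⟩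
  obtain ⟨κ, hκ⟩ := hBS b
  obtain ⟨cl, hcl⟩ := hCLS A J η n T b h K ζ l₀ Q φ τ hQ
  obtain ⟨a₀, ha0, ha1⟩ := hLOWK A J η n T b h K ζ l₀ Q φ τ hQ
  set I : Finset ℕ := insert 3 (n.primeFactors.filter (Ad b) ∪ Q) with hId
  have hI : ∀ l ∈ I, l.Prime ∧ Ad b l := fun l hl => by
    rcases mem_insert.1 hl with rfl | e
    · exact ⟨Nat.prime_three, ad_three b⟩
    rcases mem_union.1 e with e | e
    · exact ⟨Nat.prime_of_mem_primeFactors (mem_filter.1 e).1, (mem_filter.1 e).2⟩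
    · exact ⟨(hQ.pri l e).1, (hQ.thr e b).2.1⟩
  have hc : I.card = (n.primeFactors.filter (Ad b)).card + Q.card + 1 := by
    rw [hId, card_insert_of_notMem, card_union_of_disjoint]
    · exact disjoint_left.2 fun l hl hq =>
        (hQ.pri l hq).2.2.1 (Nat.dvd_of_mem_primeFactors (mem_filter.1 hl).1)
    · intro e
      rcases mem_union.1 e with e | e
      · exact h.n3 (Nat.dvd_of_mem_primeFactors (mem_filter.1 e).1)
      · exact (hQ.thr e b).1 rfl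
  set a : (I → ZMod 3) → GQ → ZMod 3 := fun u g => ∑ l : I, u l * κ l g with had
  have hT : ∀ u, Tl b ⊤ (a u) := fun u =>
    Tl.sum univ fun l _ => (hκ.coc l (hI l l.2).1 (hI l l.2).2).mul _
  have hU : ∀ u, UnrO n Q (a u) := fun u l _ γ c1 c2 c3 σ hσ => sum_eq_zero fun l' _ => by
    rw [hκ.unr l' (hI l' l'.2).1 (hI l' l'.2).2 l γ c1 (fun e => ?_) σ hσ, mul_zero]
    rcases mem_insert.1 l'.2 with e' | e'
    · exact c1 (e.trans e')
    rcases mem_union.1 e' with e' | e'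
    · exact c2 (e ▸ Nat.dvd_of_mem_primeFactors (mem_filter.1 e').1)
    · exact c3 (e ▸ e')
  have fin := W_fin h.cm 1
  have hfin : (((Sq J η n Q 1).map (res Q φ τ) : AddSubgroup _) : Set (Q → A × A)).Finite := by
    refine (Set.Finite.pi' fun _ : Q =>
      (Set.toFinite (Wn J 1 : Set A)).prod (Set.toFinite (Wn J 1 : Set A))).subset ?_
    rintro _ ⟨ξ, hξ, rfl⟩ q
    exact ⟨hξ.1.lev _, hξ.1.lev _⟩
  have hS : ∀ u u' : I → ZMod 3, (f (a u), fun l : Ia (!b) n l₀ => cl (a u) l) =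
      (f (a u'), fun l : Ia (!b) n l₀ => cl (a u') l) → chT (a u - a u') T ∈ Sq J η n Q 1 :=
    fun u u' e => hcl _ _ (hT u) (hT u') (hU u) (hU u')
      (hf _ _ ((hT u).mono le_top) ((hT u').mono le_top) (Prod.mk.inj e).1)
      fun l hl => congrFun (Prod.mk.inj e).2 ⟨l, hl⟩
  have hR : ∀ u u', res Q φ τ (chT (a u) T) - res Q φ τ (chT (a u') T) =
      res Q φ τ (chT (a u - a u') T) := fun u u' => by rw [chT_sub h.cm h.t0.1, map_sub]
  have cnt := cnt_SLOW (fun u : I → ZMod 3 => (f (a u), fun l : Ia (!b) n l₀ => cl (a u) l))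
    (fun u => res Q φ τ (chT (a u) T)) hfin.toFinset (if b then univ else {0} : Finset (ZMod 3))
    (fun u v t => ∀ g ∈ GK, a u g - a v g = t * a₀ g)
    (fun u u' e => hfin.mem_toFinset.2 ⟨_, hS u u' e, (hR u u').symm⟩)
    (fun u u' e e' => by
      obtain ⟨t, ht⟩ := ha1 _ (hS u u' e) ((hR u u').symm.trans (sub_eq_zero.2 e'))
      cases b
      · refine ⟨0, mem_singleton_self _, fun g hg => (ht g hg).trans ?_⟩
        rw [ha0 rfl, Pi.zero_apply, mul_zero, mul_zero]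
      · exact ⟨t, mem_univ _, ht⟩)
    fun u u' v t e e' => sub_eq_zero.1 (inj_SLOW hTAM hκ hI (u - u') fun g hg => by
      simp only [Pi.sub_apply, sub_mul, sum_sub_distrib]
      exact sub_eq_zero.2 (sub_left_injective ((e g hg).trans (e' g hg).symm)))
  rw [← Nat.card_eq_card_finite_toFinset hfin, Fintype.card_prod, Fintype.card_fin,
    Fintype.card_fun, Fintype.card_fun, ZMod.card, Fintype.card_coe, Fintype.card_coe, hc] at cnt
  change _ ≤ _ * (_ * Nat.card ((Sq J η n Q 1).map (res Q φ τ))) at cnt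
  generalize Nat.card ((Sq J η n Q 1).map (res Q φ τ)) = C at cnt ⊢
  have hm : ∀ l ∈ n.primeFactors, l % 3 = 1 ∨ l % 3 = 2 := fun l hl =>
    prime_mod (Nat.prime_of_mem_primeFactors hl) (h.ne (Nat.dvd_of_mem_primeFactors hl))
  have hw : (n.primeFactors.filter (· % 3 = 1)).card + d2 n = n.primeFactors.card := by
    rw [d2, ← card_filter_add_card_filter_not (s := n.primeFactors) (· % 3 = 1)]
    congr 2
    exact filter_congr fun l hl => by have := hm l hl; omega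
  generalize hd : (n.primeFactors.filter (· % 3 = 1)).card = d at hw
  cases b
  · have e1 : (n.primeFactors.filter (Ad false)).card = d := by
      rw [← hd]
      congr 1
      exact filter_congr fun l hl => by
        have := hm l hl
        simp only [Ad, Bool.false_eq_true, false_or]
        omega
    have e2 : (Ia (!false) n l₀).card + 1 = d + d2 n := by
      rw [hw]
      exact card_erase_add_one hQ.base
    rw [e1, if_neg Bool.false_ne_true, card_singleton, one_mul] at cnt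
    rw [if_neg Bool.false_ne_true]
    generalize (Ia (!false) n l₀).card = i at e2 cnt
    refine Nat.le_of_mul_le_mul_left (c := 3 ^ d) ?_ (by positivity)
    calc 3 ^ d * 3 ^ (Q.card + (ℓ + 2)) = 3 ^ (d + Q.card + 1) * (3 ^ ℓ * 3) := by ring
      _ ≤ N * 3 ^ i * C * (3 ^ ℓ * 3) := Nat.mul_le_mul_right _ cnt
      _ = N * 3 ^ ℓ * (3 ^ (i + 1) * C) := by ring
      _ ≤ 9 * (3 ^ (i + 1) * C) := Nat.mul_le_mul_right _ hN
      _ = _ := by rw [e2]; ring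
  · have e1 : (n.primeFactors.filter (Ad true)).card = d + d2 n := by
      rw [hw, filter_true_of_mem (p := Ad true) fun _ _ => Or.inl rfl]
    have e2 : (Ia (!true) n l₀).card = d := hd
    rw [e1, e2, if_pos rfl, card_univ, ZMod.card] at cnt
    rw [if_pos rfl]
    refine Nat.le_of_mul_le_mul_left (c := 3 ^ (d + 1)) ?_ (by positivity)
    calc 3 ^ (d + 1) * 3 ^ (Q.card + (2 * d2 n + ℓ))
        = 3 ^ (d + d2 n + Q.card + 1) * (3 ^ ℓ * 3 ^ d2 n) := by ring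
      _ ≤ 3 * (N * 3 ^ d * C) * (3 ^ ℓ * 3 ^ d2 n) := Nat.mul_le_mul_right _ cnt
      _ = N * 3 ^ ℓ * (3 ^ (d + 1) * 3 ^ d2 n * C) := by ring
      _ ≤ 9 * (3 ^ (d + 1) * 3 ^ d2 n * C) := Nat.mul_le_mul_right _ hN
      _ = _ := by ring

end Pool.Agent.MP_e23604_nt.S

end

section

set_option autoImplicit false

open Module Filter Topology Finset
open scoped Classical

namespace Pool.Agent.MP_e23604_nt.S

open B R
open Q (Wn)

theorem KER_pf (hKER1 : KER1_st) : KER_st := by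
  intro A _ J η n T b hP K ζ l₀ Q φ τ hQ m
  induction m generalizing η b with
  | zero =>
    intro _ ξ hξ _
    exact ⟨0, zero_mem _, funext fun g => by simp [dd, W_zero.1 (hξ.1.lev g)]⟩
  | succ m ih =>
    intro hm ξ hξ hr
    have r1 : ∀ q : Q, ξ (φ q) = 0 ∧ ξ (τ q) = 0 := fun q => Prod.ext_iff.1 (congrFun hr q)
    obtain ⟨T₂, h2, e2⟩ := ih (tw η) (!b) hP.tw hQ.tw (by omega) _ (Sq_wo hP.cm hP.ga hξ)
      (funext fun q => Prod.ext (by simp [res, (r1 q).1]) (by simp [res, (r1 q).2]))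
    obtain ⟨T₁, rfl⟩ := hP.cm.surj T₂
    have h1 := W_om.1 h2
    have s0 : ∀ g, ξ g - dd η T₁ g ∈ Wn J 1 := fun g => W_om.1 (W_zero.2 (by
      rw [map_sub, wo_dd hP.cm hP.ga, ← congrFun e2 g, sub_self]))
    have s1 := sub_mem hξ (dd_sq hP.ga Q (R := T₁) fun g => by
      have := sub_mem (hξ.1.lev g) (W_mono (by omega) (s0 g))
      rwa [sub_sub_cancel] at this)
    have s2 : ξ - dd η T₁ ∈ Sq J η n Q 1 := ⟨⟨s1.1.lc, s1.1.coc, s0⟩, s1.2⟩
    obtain ⟨T₀, h0, e0⟩ := hKER1 A J η n T b hP K ζ l₀ Q φ τ hQ _ s2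
      (funext fun q => by
        have : Fact (q : ℕ).Prime := ⟨(hQ.pri q q.2).1⟩
        have t1 := hQ.tq q q.2
        have t2 := fun g hg => hQ.triv q q.2 g hg T₁ (W_mono (by omega) h1)
        exact Prod.ext (by simp [res, dd, (r1 q).1, t2 _ t1.fr.1])
          (by simp [res, dd, (r1 q).2, t2 _ (Ine_le _ _ t1.ine)]))
    refine ⟨T₁ + T₀, add_mem h1 (W_mono (by omega) h0), funext fun g => ?_⟩
    have := congrFun e0 g
    simp only [Pi.sub_apply, dd] at this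
    simp only [dd, map_add]
    rw [sub_eq_iff_eq_add.1 this]
    abel

end Pool.Agent.MP_e23604_nt.S

end

section

set_option autoImplicit false

open Module Filter Topology Finset
open scoped Classical

namespace Pool.Agent.MP_e23604_nt.S

open B R
open Q (Wn)

theorem card_split_SLIN1 {G : Type} [AddCommGroup G] (f : G →+ G) (K : AddSubgroup G) :
    Nat.card K = Nat.card (K.map f) * Nat.card ↥(K ⊓ f.ker) := by
  have h1 := AddSubgroup.card_mul_index (f.ker.addSubgroupOf K)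
  have h2 : (f.ker.addSubgroupOf K).index = Nat.card (K.map f) := AddSubgroup.relIndex_ker K f
  have h3 : Nat.card (f.ker.addSubgroupOf K) = Nat.card ↥(K ⊓ f.ker) := by
    rw [← AddSubgroup.inf_addSubgroupOf_left]
    exact Nat.card_congr (AddSubgroup.addSubgroupOfEquivOfLe inf_le_left).toEquiv
  rw [← h1, h2, h3, mul_comm]

theorem chain_SLIN1 {G : Type} [AddCommGroup G] (f : G →+ G) (H : ℕ → AddSubgroup G)
    (V : ℕ → ℕ → AddSubgroup G) (M : ℕ) (h0 : H 0 = ⊥) (hf : ∀ m x, f x ∈ H m ↔ x ∈ H (m + 1))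
    (h1 : ∀ m, H 1 ≤ H (m + 1))
    (hmap : ∀ j m, ∀ y ∈ V j (m + 1), f y ∈ V (j + 1) m)
    (hl : ∀ j m, m + 1 ≤ M → ∀ x ∈ V (j + 1) m, ∃ y ∈ V j (m + 1), f y = x) (s : ℕ) :
    ∀ j m, s ≤ m → m ≤ M →
      Nat.card ↥(V j m ⊓ H s) = ∏ t ∈ range s, Nat.card ↥(V (j + t) (m - t) ⊓ H 1) := by
  induction s with
  | zero =>
    intro j m _ _
    rw [h0, inf_bot_eq]
    simp
  | succ s ih =>
    intro j m hs hm
    obtain ⟨m, rfl⟩ : ∃ m', m = m' + 1 := ⟨m - 1, by omega⟩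
    have hk : f.ker = H 1 := by
      ext x
      rw [AddMonoidHom.mem_ker, ← hf 0 x, h0, AddSubgroup.mem_bot]
    have e1 : (V j (m + 1) ⊓ H (s + 1)).map f = V (j + 1) m ⊓ H s := by
      ext x
      constructor
      · rintro ⟨y, ⟨hy1, hy2⟩, rfl⟩
        exact ⟨hmap j m y hy1, (hf s y).2 hy2⟩
      · rintro ⟨hx1, hx2⟩
        obtain ⟨y, hy, rfl⟩ := hl j m hm x hx1
        exact ⟨y, ⟨hy, (hf s y).1 hx2⟩, rfl⟩
    have e2 : V j (m + 1) ⊓ H (s + 1) ⊓ H 1 = V j (m + 1) ⊓ H 1 := by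
      rw [inf_assoc, inf_eq_right.2 (h1 s)]
    rw [card_split_SLIN1 f, e1, hk, e2, ih (j + 1) m (by omega) (by omega), prod_range_succ']
    congr 1
    refine prod_congr rfl fun t _ => ?_
    rw [show j + 1 + t = j + (t + 1) by ring, show m + 1 - (t + 1) = m - t by omega]

theorem sum_SLIN1 {ℓ : ℕ → ℕ} {c : ℕ} (h : ∀ j, ℓ j + ℓ (j + 1) = 2 * c) (k : ℕ) :
    ∑ t ∈ range (2 * k), ℓ t = c * (2 * k) := by
  induction k with
  | zero => simp
  | succ k ih =>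
    rw [show 2 * (k + 1) = 2 * k + 1 + 1 by ring, sum_range_succ, sum_range_succ, ih]
    have := h (2 * k)
    rw [mul_add c, mul_add c (2 * k), mul_one]
    omega

theorem par_SLIN1 {ℓ : ℕ → ℕ} {c : ℕ} (h : ∀ j, ℓ j + ℓ (j + 1) = 2 * c) (k : ℕ) :
    Even (∑ t ∈ range k, ℓ t + k * ℓ 0) := by
  have h1 : ∀ j, ℓ j % 2 = ℓ 0 % 2 := by
    intro j
    induction j with
    | zero => rfl
    | succ j ih => have := h j; omega
  induction k with
  | zero => simp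
  | succ k ih =>
    rw [sum_range_succ, add_mul, one_mul]
    rw [Nat.even_iff] at ih ⊢
    have := h1 k
    omega

theorem fin_SLIN1 {A : Type} [AddCommGroup A] {J : A ≃ₗ[ℤ] A} (h : Cm3 J) (ι : Type) [Fintype ι]
    (m : ℕ) : Finite (Hm J ι m) := by
  have : Finite (Wn J m) := S.W_fin h m
  refine Finite.of_injective
    (fun x : Hm J ι m => fun q : ι =>
      ((⟨(x.1 q).1, (x.2 q).1⟩, ⟨(x.1 q).2, (x.2 q).2⟩) : Wn J m × Wn J m)) ?_
  intro x y hxy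
  refine Subtype.ext (funext fun q => ?_)
  have := congrFun hxy q
  simp only [Prod.mk.injEq, Subtype.mk.injEq] at this
  exact Prod.ext this.1 this.2

theorem LIN1_pf : LIN1_st := by
  intro A _ J ι _ V ℓ c M k hc hk hle
  let f : (ι → A × A) →+ (ι → A × A) :=
    { toFun := onP (S.wo J)
      map_zero' := funext fun q => by simp [onP]
      map_add' := fun x y => funext fun q => by simp [onP] }
  have hH0 : Hm J ι 0 = ⊥ := by
    rw [eq_bot_iff]
    intro x hx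
    exact funext fun q => Prod.ext (S.W_zero.1 (hx q).1) (S.W_zero.1 (hx q).2)
  have hf : ∀ m x, f x ∈ Hm J ι m ↔ x ∈ Hm J ι (m + 1) := fun m x =>
    forall_congr' fun q => and_congr S.W_om S.W_om
  have h1 : ∀ m, Hm J ι 1 ≤ Hm J ι (m + 1) := fun m x hx q =>
    ⟨S.W_mono (by omega) (hx q).1, S.W_mono (by omega) (hx q).2⟩
  have key := chain_SLIN1 f (Hm J ι) V M hH0 hf h1 hc.map hc.lift
  have hmono : ∀ j, Monotone (V j) := fun j => monotone_nat_of_le_succ (hc.mono j)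
  set r := Fintype.card ι with hr
  set b : ℕ → ℕ := fun t => Nat.card ↥(V t (2 * k - t) ⊓ Hm J ι 1) with hb
  have hlow : ∀ t ∈ range (2 * k), 3 ^ (r + ℓ t) ≤ 3 ^ c * b t := by
    intro t ht
    have := fin_SLIN1 hc.cm ι 1
    have : Finite ↥(V t (2 * k - t) ⊓ Hm J ι 1) :=
      Finite.of_injective _ (AddSubgroup.inclusion_injective inf_le_right)
    refine (hc.low t).trans (Nat.mul_le_mul_left _ (AddSubgroup.card_le_of_le ?_))
    exact le_inf (hmono t (by have := mem_range.1 ht; omega)) (hc.le t 1)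
  have k1 : Nat.card (V 0 (2 * k)) = ∏ t ∈ range (2 * k), b t := by
    have := key (2 * k) 0 (2 * k) le_rfl hk
    rw [inf_eq_left.2 (hc.le 0 (2 * k))] at this
    simpa only [zero_add] using this
  have k2 : Nat.card ↥(V 0 (2 * k) ⊓ Hm J ι k) = ∏ t ∈ range k, b t := by
    simpa only [zero_add] using key k 0 (2 * k) (by omega) hk
  have p1 : ∀ n, ∏ t ∈ range n, 3 ^ (r + ℓ t) = 3 ^ (n * r + ∑ t ∈ range n, ℓ t) := by
    intro n
    rw [prod_pow_eq_pow_sum, sum_add_distrib, sum_const, card_range, smul_eq_mul]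
  have p2 : ∀ n, ∏ t ∈ range n, 3 ^ c * b t = 3 ^ (c * n) * ∏ t ∈ range n, b t := by
    intro n
    rw [prod_mul_distrib, prod_const, card_range, pow_mul]
  have p3 : ∏ t ∈ range (2 * k), 3 ^ c * b t ≤ ∏ t ∈ range (2 * k), 3 ^ (r + ℓ t) := by
    rw [p1, p2, sum_SLIN1 hc.sum, ← k1, add_comm, pow_add]
    exact Nat.mul_le_mul_left _ hle
  have heq : ∀ t ∈ range (2 * k), 3 ^ (r + ℓ t) = 3 ^ c * b t := by
    intro t ht
    by_contra hne
    exact absurd p3 (not_le.2 (prod_lt_prod (fun i _ => by positivity) hlow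
      ⟨t, ht, lt_of_le_of_ne (hlow t ht) hne⟩))
  constructor
  · have := prod_congr rfl heq
    rw [p1, p2, sum_SLIN1 hc.sum, ← k1, add_comm, pow_add] at this
    exact (Nat.eq_of_mul_eq_mul_left (by positivity) this).symm
  · have e := prod_congr rfl fun t (ht : t ∈ range k) =>
      heq t (mem_range.2 (by have := mem_range.1 ht; omega))
    rw [p1, p2, ← k2] at e
    obtain ⟨s, -, hs⟩ := (Nat.dvd_prime_pow Nat.prime_three).1 (Dvd.intro_left _ e.symm)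
    refine ⟨s, hs, ?_⟩
    rw [hs, ← pow_add] at e
    have e' := Nat.pow_right_injective (by norm_num : 2 ≤ 3) e
    have := par_SLIN1 hc.sum k
    rw [mul_add, mul_comm k c]
    rw [Nat.even_iff] at this ⊢
    omega

end Pool.Agent.MP_e23604_nt.S

end

section

set_option autoImplicit false

open Module Filter Topology Finset
open scoped Classical

namespace Pool.Agent.MP_e23604_nt.S

open B R
open Q (Wn)

theorem pow9_SFIN {G : Type} [AddCommGroup G] (C S : AddSubgroup G) (k : ℕ)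
    (h : ∀ x ∈ S, 3 ^ k • x = 0) (h0 : C.relIndex S ≠ 0) (hs : IsSquare (C.relIndex S)) :
    ∃ f, C.relIndex S = 9 ^ f := by
  haveI : Finite (S ⧸ C.addSubgroupOf S) := Nat.finite_of_card_ne_zero h0
  have h1 : ∀ {q : ℕ}, q.Prime → q ∣ C.relIndex S → q = 3 := by
    intro q hq hd
    haveI := Fact.mk hq
    obtain ⟨x, hx⟩ := exists_prime_addOrderOf_dvd_card' (G := S ⧸ C.addSubgroupOf S) q hd
    have h2 : 3 ^ k • x = 0 := by
      induction x using QuotientAddGroup.induction_on with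
      | H y =>
        rw [← QuotientAddGroup.mk_nsmul, show 3 ^ k • y = 0 from Subtype.ext (h y y.2)]
        rfl
    have h3 := addOrderOf_dvd_of_nsmul_eq_zero h2
    rw [hx] at h3
    exact (Nat.prime_dvd_prime_iff_eq hq Nat.prime_three).1 (hq.dvd_of_dvd_pow h3)
  obtain ⟨r, hr⟩ := hs
  have h4 : r = 3 ^ r.primeFactorsList.length :=
    Nat.eq_prime_pow_of_unique_prime_dvd (fun e => h0 (by rw [hr, e])) fun hq hd =>
      h1 hq (hr ▸ hd.mul_right r)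
  exact ⟨r.primeFactorsList.length, by
    rw [hr, show (9 : ℕ) = 3 * 3 from rfl, mul_pow, ← h4]⟩

theorem stab_SFIN (a : ℕ → ℕ) (c : ℕ) (h1 : ∀ k, a k ≤ a (k + 1)) (h2 : ∀ k, a k ≤ c * 3 ^ k)
    (h3 : ∀ k, 1 ≤ k → ∃ f, a k = 9 ^ f) : ∃ k, a k = a (k + 1) := by
  by_contra hn
  push Not at hn
  have h4 : ∀ k, 9 ^ k ≤ a (k + 1) := by
    intro k
    induction k with
    | zero =>
      obtain ⟨f, hf⟩ := h3 1 le_rfl
      rw [hf]
      exact Nat.pow_le_pow_right (by norm_num) (Nat.zero_le f)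
    | succ k ih =>
      obtain ⟨f, hf⟩ := h3 (k + 1) (by omega)
      obtain ⟨f', hf'⟩ := h3 (k + 2) (by omega)
      have h5 := lt_of_le_of_ne (h1 (k + 1)) (hn (k + 1))
      rw [hf] at ih
      rw [hf, hf'] at h5
      rw [hf']
      have := (Nat.pow_le_pow_iff_right (by norm_num)).1 ih
      have := (Nat.pow_lt_pow_iff_right (by norm_num)).1 h5
      exact Nat.pow_le_pow_right (by norm_num) (by omega)
  have h6 := (h4 (3 * c)).trans (h2 _)
  have h7 : 3 * c < 3 ^ (3 * c) := Nat.lt_pow_self (by norm_num)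
  rw [show (9 : ℕ) = 3 * 3 from rfl, mul_pow, pow_succ] at h6
  have h8 : 0 < 3 ^ (3 * c) := by positivity
  nlinarith

theorem le_SFIN {G : Type} [AddCommGroup G] (C S S' : AddSubgroup G) (h : S ≤ S')
    (h0 : C.relIndex S ≠ 0) (e : C.relIndex S = C.relIndex S') : S' ≤ S ⊔ C := by
  have h1 := AddSubgroup.relIndex_mul_relIndex C (S ⊔ C) (S' ⊔ C) le_sup_right
    (sup_le_sup_right h C)
  rw [AddSubgroup.relIndex_sup_right, AddSubgroup.relIndex_sup_right, ← e] at h1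
  exact le_sup_left.trans (AddSubgroup.relIndex_eq_one.1 ((Nat.mul_eq_left h0).1 h1))

theorem step_SFIN {A : Type} [AddCommGroup A] {J : A ≃ₗ[ℤ] A} {η : Act A} {n : ℕ}
    (h0 : Cm3 J) (hη : Ga J n η) (k : ℕ)
    (h : Sq J η n ∅ (2 * (k + 1)) ≤ Sq J η n ∅ (2 * k) ⊔ Cb η) :
    Sq J η n ∅ (2 * (k + 2)) ≤ Sq J η n ∅ (2 * (k + 1)) ⊔ Cb η := by
  intro ξ hξ
  have h1 : 3 ^ 1 • ξ ∈ Sq J η n ∅ (2 * (k + 1)) := by
    have := nsmul_mem hξ (3 ^ 1)
    exact ⟨⟨this.1.lc, this.1.coc, fun g => (W_pow h0 1).2 (hξ.1.lev g)⟩, this.2⟩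
  obtain ⟨s, hs, _, ⟨T, ⟨j, hj⟩, rfl⟩, e⟩ := AddSubgroup.mem_sup.1 (h h1)
  obtain ⟨T', rfl⟩ := three_surj h0 1 T
  have hT : 3 ^ (j + 1) • T' = 0 := by rw [pow_add, mul_smul, hj]
  have h2 : ξ - dd η T' ∈ Sq J η n ∅ (2 * (k + 2) + 2 * (j + 1)) :=
    sub_mem (Sq_mono (by omega) Subset.rfl hξ)
      (dd_sq hη ∅ (dd_mem h0 hη (W_mono (by omega) ((W_tor h0 (j + 1)).2 hT))))
  refine AddSubgroup.mem_sup.2 ⟨ξ - dd η T', ⟨⟨h2.1.lc, h2.1.coc, fun g => ?_⟩, h2.2⟩, dd η T',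
    ⟨T', ⟨j + 1, hT⟩, rfl⟩, sub_add_cancel _ _⟩
  refine (W_pow h0 1 (n := 2 * k)).1 ?_
  have e1 := congrFun e g
  simp only [Pi.add_apply, Pi.smul_apply, dd, map_nsmul] at e1
  have e2 : 3 ^ 1 • (ξ - dd η T') g = s g := by
    rw [Pi.sub_apply, smul_sub, ← e1, dd, smul_sub]
    abel
  rw [e2]
  exact hs.1.lev g

theorem FIN_pf : FIN_st := by
  rintro A _ J η n T b hP ⟨c, hc⟩ hs
  have h0 := hP.cm
  have mono : ∀ {k k'}, k ≤ k' → Sq J η n ∅ (2 * k) ≤ Sq J η n ∅ (2 * k') := fun h =>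
    Sq_mono (by omega) Subset.rfl
  have kill : ∀ k, ∀ ξ ∈ Sq J η n ∅ (2 * k), 3 ^ k • ξ = 0 := fun k ξ hξ =>
    funext fun g => (W_tor h0 k).1 (hξ.1.lev g)
  obtain ⟨k₀, hk⟩ := stab_SFIN (fun k => (Cb η).relIndex (Sq J η n ∅ (2 * k))) c
    (fun k => AddSubgroup.relIndex_le_of_le_right (mono (Nat.le_succ k)) (hc _).1)
    (fun k => (hc k).2) fun k h => pow9_SFIN _ _ k (kill k) (hc k).1 (hs k h)
  have h1 : ∀ i, Sq J η n ∅ (2 * (k₀ + i + 1)) ≤ Sq J η n ∅ (2 * (k₀ + i)) ⊔ Cb η := by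
    intro i
    induction i with
    | zero => exact le_SFIN _ _ _ (mono (Nat.le_succ _)) (hc _).1 hk
    | succ i ih => exact step_SFIN hP.cm hP.ga _ ih
  have h2 : ∀ i, Sq J η n ∅ (2 * (k₀ + i)) ≤ Sq J η n ∅ (2 * k₀) ⊔ Cb η := by
    intro i
    induction i with
    | zero => exact le_sup_left
    | succ i ih => exact (h1 i).trans (sup_le ih le_sup_right)
  refine ⟨k₀, fun k ξ hξ => ?_⟩
  obtain ⟨s, hs, t, ht, rfl⟩ := AddSubgroup.mem_sup.1 (h2 k (mono (Nat.le_add_left k k₀) hξ))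
  rw [smul_add, kill k₀ s hs, zero_add]
  exact nsmul_mem ht _

end Pool.Agent.MP_e23604_nt.S

end

section

set_option autoImplicit false

open Module Filter Topology Finset
open scoped Classical

namespace Pool.Agent.MP_e23604_nt.S

open B R
open Q (Wn)

theorem fin_SFSQ (hBS : BS_st) (b : Bool) {n : ℕ} (hn : n ≠ 0) :
    {a : GQ → ZMod 3 | Tl b ⊤ a ∧
      ∀ (l : ℕ) [Fact l.Prime], l ≠ 3 → ¬ l ∣ n → Ur l a}.Finite := by
  obtain ⟨κ, hκ⟩ := hBS b
  obtain ⟨T, hT⟩ : ∃ T : Finset ℕ, T = n.primeFactors.filter fun l => l ≠ 3 ∧ Ad b l := ⟨_, rfl⟩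
  have h1 : ∀ l ∈ T, l.Prime ∧ l ≠ 3 ∧ Ad b l := fun l hl => by
    rw [hT, mem_filter] at hl
    exact ⟨Nat.prime_of_mem_primeFactors hl.1, hl.2⟩
  refine (Set.finite_range fun p : (↥(insert 3 T) → ZMod 3) × ZMod 3 => fun g =>
    ∑ l : ↥(insert 3 T), p.1 l * κ l g + (sg b g * p.2 - p.2)).subset ?_
  rintro a ⟨h2, h3⟩
  obtain ⟨u, hu⟩ := hκ.gen a T h2 h1 fun l hl e1 e2 e3 => h3 l e1 fun e =>
    e3 (hT ▸ mem_filter.2 ⟨Nat.mem_primeFactors.2 ⟨hl.out, e, hn⟩, e1, e2⟩)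
  have h4 : Tl b ⊤ fun g => ∑ l ∈ insert 3 T, u l * κ l g := Tl.sum _ fun l hl => by
    refine Tl.mul ?_ _
    rcases mem_insert.1 hl with rfl | hl
    · exact hκ.coc 3 Nat.prime_three (Or.inr (by norm_num))
    · exact hκ.coc l (h1 l hl).1 (h1 l hl).2.2
  obtain ⟨t, ht⟩ := (h2.sub h4).1.res fun g _ hg => sub_eq_zero.2 (hu g hg)
  refine ⟨(fun l => u l, t), funext fun g => ?_⟩
  have h5 := ht g trivial
  beta_reduce at h5 ⊢
  rw [sum_coe_sort (insert 3 T) fun l => u l * κ l g, ← h5, add_sub_cancel]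

theorem FSQ_pf (hBS : BS_st) : FSQ_st := by
  intro A _ J η n T b h m
  change Set.Finite (Sq J η n ∅ m : Set (GQ → A))
  induction m generalizing η b with
  | zero => exact (Set.finite_singleton 0).subset fun ξ hξ => funext fun g => W_zero.1 (hξ.1.lev g)
  | succ m ih =>
    refine Set.Finite.of_finite_fibers (fun ξ g => wo J (ξ g)) ((ih _ _ h.tw).subset ?_) ?_
    · rintro _ ⟨ξ, hξ, rfl⟩
      exact Sq_wo h.cm h.ga hξ
    · rintro _ ⟨ξ₀, h0, rfl⟩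
      refine ((fin_SFSQ hBS b h.sf.ne_zero).image fun a => ξ₀ + chT a T).subset ?_
      rintro ξ ⟨h1, h2⟩
      have h3 := (Sq J η n ∅ (m + 1)).sub_mem h1 h0
      obtain ⟨a, h4, h5⟩ := ex_chT h.cm h.t0 h.ty h3.1.lc (fun g _ j _ => h3.1.coc g j)
        fun g _ => W_om.1 (W_zero.2 (by
          rw [Pi.sub_apply, map_sub, sub_eq_zero]
          exact congrFun h2 g))
      refine ⟨a, ⟨h4, fun l _ e1 e2 τ hτ => (chT_eq_zero h.cm h.t0).1 ?_⟩, funext fun g => ?_⟩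
      · rw [h5 τ trivial]
        exact h3.2.1 l 1 e1 e2 (notMem_empty l) τ hτ
      · beta_reduce
        rw [Pi.add_apply, h5 g trivial, Pi.sub_apply, add_sub_cancel]

end Pool.Agent.MP_e23604_nt.S

end

section

set_option autoImplicit false

open Module Filter Topology Finset
open scoped Classical

namespace Pool.Agent.MP_e23604_nt.S

open B R
open Q (Wn)

theorem on_SJEX {D : ℕ} {x y : Qb} (h : On 0 D x y) : On 0 D (w3 * x) y := by
  unfold On at *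
  rw [Rat.cast_zero] at *
  linear_combination h - x ^ 3 * w3_cube

theorem ex_SJEX {D : ℕ} (hD : D ≠ 0) : ∃ J, Jm D J := by
  let C : WeierstrassCurve.VariableChange Qb := ⟨Units.mk0 w3 w3_ne_zero, 0, 0, 0⟩
  have hC : C • (E3 0 D).baseChange Qb = (E3 0 D).baseChange Qb := by
    ext <;> simp [C, E3, WeierstrassCurve.baseChange, WeierstrassCurve.variableChange_a₁,
      WeierstrassCurve.variableChange_a₂, WeierstrassCurve.variableChange_a₃,
      WeierstrassCurve.variableChange_a₄, WeierstrassCurve.variableChange_a₆, w3_cube]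
  obtain ⟨Ψ, hΨ⟩ := vc_equiv _ _ C hC
  refine ⟨Ψ.toIntLinearEquiv, fun x y h => ?_⟩
  obtain ⟨h', e⟩ := hΨ x y ((ns_iff (good_D hD) x y).2 h)
  rw [pt_eq (good_D hD) h, pt_eq (good_D hD) (on_SJEX h)]
  refine e.trans ?_
  have e1 : (x - C.r) / (C.u : Qb) ^ 2 = w3 * x := by
    simp only [C, sub_zero, Units.val_mk0]
    rw [div_eq_iff (pow_ne_zero _ w3_ne_zero)]
    linear_combination -x * w3_cube
  have e2 : (y - C.s * (x - C.r) - C.t) / (C.u : Qb) ^ 3 = y := by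
    simp only [C, sub_zero, Units.val_mk0, zero_mul, w3_cube, div_one]
  simp only [e1, e2]

theorem zero_SJEX {D : ℕ} (hD : D ≠ 0) {y : Qb} (h : On 0 D 0 y) :
    pt 0 D 0 y = T 0 D Qb ∨ pt 0 D 0 y = -T 0 D Qb := by
  have : y * (y + (D : ℚ)) = 0 := by unfold On at h; linear_combination h
  rcases mul_eq_zero.1 this with h1 | h1
  · exact Or.inl (by rw [h1]; rfl)
  · exact Or.inr (by rw [neg_T (good_D hD), eq_neg_of_add_eq_zero_left h1])

theorem JEX_pf : JEX_st := by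
  intro D hD
  obtain ⟨J, hJ⟩ := ex_SJEX hD
  have hG := good_D hD
  have hT : J (T 0 D Qb) = T 0 D Qb := by rw [T, hJ _ _ on_T, mul_zero]
  have h3 : T 0 D Qb + T 0 D Qb + T 0 D Qb = 0 := by rw [T_add_T hG, neg_add_cancel]
  have hsq : ∀ u, J (J u) + J u + u = 0 := fun u => by
    rcases pt_cases hG u with rfl | ⟨x, y, h, rfl⟩
    · simp
    by_cases hx : x = 0
    · subst hx
      rcases zero_SJEX hD h with e | e <;> rw [e]
      · rw [hT, hT, h3]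
      · rw [map_neg, hT, map_neg, hT, ← neg_add, ← neg_add, h3, neg_zero]
    rw [hJ _ _ h, hJ _ _ (on_SJEX h), add_eq_zero_iff_eq_neg, pt_neg hG h]
    refine (pt_add_ne hG (l := 0) (on_SJEX (on_SJEX h)) (on_SJEX h) (fun e => ?_) (by ring) ?_
      (by ring)).2
    · exact mul_ne_zero (sub_ne_zero.2 w3_ne_one) (mul_ne_zero w3_ne_zero hx)
        (by linear_combination e)
    · linear_combination x * w3_spec
  have h1 : ∀ u ∈ Wn J 1, u = 0 ∨ u = T 0 D Qb ∨ u = -T 0 D Qb := fun u hu => by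
    rcases pt_cases hG u with rfl | ⟨x, y, h, rfl⟩
    · exact Or.inl rfl
    rw [W_one, hJ _ _ h] at hu
    have hx : x = 0 := (mul_eq_zero.1 (show (w3 - 1) * x = 0 by
      linear_combination (pt_inj hG (on_SJEX h) h hu).1)).resolve_left (sub_ne_zero.2 w3_ne_one)
    subst hx
    exact Or.inr (zero_SJEX hD h)
  refine ⟨J, hJ, ⟨hsq, fun S hS h0 u hu => ?_, fun v => ?_, _, W_one.2 hT, T_ne_zero hG⟩,
    ⟨W_one.2 hT, T_ne_zero hG⟩, fun g => ?_⟩
  · rcases h1 S hS with e | rfl | rfl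
    · exact absurd e h0
    · exact h1 u hu
    · rw [neg_neg, or_comm (a := u = -_)]
      exact h1 u hu
  · have := E3_ell hD
    have : ((E3 0 D).baseChange Qb).IsElliptic := inferInstanceAs ((E3 0 D).map _).IsElliptic
    obtain ⟨u, rfl⟩ := smul_surj (W := (E3 0 D).baseChange Qb) three_pos v
    refine ⟨-wo J u, ?_⟩
    have e1 := hsq u
    have e2 := hsq (J u)
    have e3 := hsq (J (J u))
    simp only [wo_apply, map_sub, map_neg]
    linear_combination (norm := abel) -e3 + 3 • e2 - 3 • e1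
  · rw [sg_false, show (1 : ZMod 3).val = 1 from rfl, one_smul]
    exact act_T hG _

end Pool.Agent.MP_e23604_nt.S

end

section

set_option autoImplicit false

open Module Filter Topology Finset
open scoped Classical

namespace Pool.Agent.MP_e23604_nt.S

open B R
open Q (Wn)

theorem FER_pf : FER_st := by
  intro D j D₀ hD e
  have h := good_D hD
  have t : ∀ x y : Qb, x ^ 3 + y ^ 3 = D₀ → Tr 0 D (3 ^ j * (w3 ^ 2 * x + w3 * y))
      (3 ^ j * (w3 * x + w3 ^ 2 * y)) (3 ^ j * (x + y)) := fun x y hxy => by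
    refine ⟨by push_cast; linear_combination 3 ^ j * (x + y) * w3_spec, ?_⟩
    have e1 : (((D : ℚ)) : Qb) = (3 ^ j) ^ 3 * (x ^ 3 + y ^ 3) := by
      rw [hxy, e, pow_right_comm]
      push_cast
      norm_num
    rw [e1]
    linear_combination (3 ^ j) ^ 3 * (x + y) * ((x ^ 2 + w3 * x * y + y ^ 2) * w3_cube +
      x * y * w3_spec)
  refine ⟨fun x y => V 0 D (3 ^ j * (w3 ^ 2 * x + w3 * y)) (3 ^ j * (w3 * x + w3 ^ 2 * y)),
    fun g x y hxy => ?_, fun x y hxy => ?_, fun x y hxy => ?_⟩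
  · have e1 := act_V h (g : Qb →+* Qb) (t x y hxy)
    simp only [RingHom.coe_coe, map_mul, map_add, map_pow, map_ofNat] at e1
    by_cases hg : g ∈ GK
    · rw [mem_GK'.1 hg] at e1
      rw [tw_pos _ hg]
      exact e1
    · have e2 := neg_V h (t (g x) (g y) (by
        simpa only [map_add, map_pow, map_natCast] using congrArg g hxy))
      rw [not_mem_GK hg, show (w3 ^ 2) ^ 2 = w3 by linear_combination w3 * w3_cube, ← e2] at e1
      rw [tw_neg _ hg]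
      exact neg_eq_iff_eq_neg.2 e1
  · rw [V_add_T h (t x y hxy)]
    congr 1
    · linear_combination 3 ^ j * (x + y) * w3_cube
    · linear_combination 3 ^ j * w3 * y * w3_cube
  · rw [neg_V h (t x y hxy), add_comm (w3 ^ 2 * y), add_comm (w3 * y)]

end Pool.Agent.MP_e23604_nt.S

end

section

set_option autoImplicit false

open Module Filter Topology Finset
open scoped Classical

namespace Pool.Agent.MP_e23604_nt.S

open B R
open Q (Wn)

theorem act_SISM (W : WeierstrassCurve ℚ) (g : GQ) {x y : Qb}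
    (h : (W.baseChange Qb).toAffine.Nonsingular x y) :
    ∃ h', galQ W g (.some x y h) = .some (g x) (g y) h' := ⟨_, rfl⟩

theorem ISM_pf : ISM_st := by
  intro D hD
  obtain ⟨π, hπ⟩ : ∃ π : Qb, π = w3 - w3 ^ 2 := ⟨_, rfl⟩
  have h2 : π ^ 2 = -3 := by
    rw [hπ]
    linear_combination w3_spec + (w3 - 2) * w3_cube
  have h0 : π ≠ 0 := by
    rintro rfl
    norm_num at h2
  have h0' : (2 * π)⁻¹ ≠ 0 := inv_ne_zero (mul_ne_zero two_ne_zero h0)
  have hG : Good 0 (D : ℚ) := ⟨Nat.cast_ne_zero.2 hD, by simpa using hD⟩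
  obtain ⟨Ψ, hΨ⟩ := vc_equiv ((E3 0 D).baseChange Qb) ((EK (-432 * D ^ 2)).baseChange Qb)
    ⟨Units.mk0 (2 * π)⁻¹ h0', 0, 0, -(D : Qb) / 2⟩ (by
      have h6 : (2 * π) ^ 6 = -1728 := by
        rw [show (2 * π) ^ 6 = 64 * (π ^ 2) ^ 3 by ring, h2]
        norm_num
      ext <;> simp [WeierstrassCurve.variableChange_def, E3, EK, WeierstrassCurve.baseChange]
      · ring_nf
        simp
      · rw [h6]
        ring)
  have key : ∀ x y : Qb, On 0 D x y →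
      ∃ h', Ψ (pt 0 D x y) = .some (-12 * x) ((2 * π) ^ 3 * (y + D / 2)) h' := by
    intro x y hxy
    obtain ⟨h', e⟩ := hΨ x y ((ns_iff hG x y).2 hxy)
    have e1 : (x - 0) / ((Units.mk0 (2 * π)⁻¹ h0' : Qbˣ) : Qb) ^ 2 = -12 * x := by
      rw [Units.val_mk0, inv_pow, div_inv_eq_mul, mul_pow, h2]
      ring
    have e2 : (y - 0 * (x - 0) - -(D : Qb) / 2) / ((Units.mk0 (2 * π)⁻¹ h0' : Qbˣ) : Qb) ^ 3 =
        (2 * π) ^ 3 * (y + D / 2) := by
      rw [Units.val_mk0, inv_pow, div_inv_eq_mul]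
      ring
    simp only [e1, e2] at h'
    refine ⟨h', ?_⟩
    rw [pt_eq hG hxy, e]
    simp only [e1, e2]
  refine ⟨Ψ, fun g R => ?_⟩
  rcases pt_cases hG R with rfl | ⟨x, y, hxy, rfl⟩
  · simp
  obtain ⟨h1, e1⟩ := key x y hxy
  obtain ⟨h3, e3⟩ := act_SISM _ g h1
  have hm : On 0 D (g x) (g y) := hxy.map (g : Qb →+* Qb)
  have ha : gA (E3 0 D) g (pt 0 D x y) = pt 0 D (g x) (g y) := act_pt hG (g : Qb →+* Qb) hxy
  rw [e1, e3]
  by_cases hg : g ∈ GK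
  · have hgπ : g π = π := by rw [hπ, map_sub, map_pow, mem_GK'.1 hg]
    obtain ⟨h4, e4⟩ := key _ _ hm
    rw [tw_pos _ hg, ha, e4, WeierstrassCurve.Affine.Point.some.injEq]
    simp [hgπ, map_ofNat]
  · have hgπ : g π = -π := by
      rw [hπ, map_sub, map_pow, not_mem_GK hg]
      linear_combination -w3 * w3_cube
    obtain ⟨h4, e4⟩ := key _ _ hm.neg
    rw [tw_neg _ hg, ha, pt_neg hG hm, e4, WeierstrassCurve.Affine.Point.some.injEq]
    simp [hgπ, map_ofNat]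
    ring

end Pool.Agent.MP_e23604_nt.S

end

section

set_option autoImplicit false

open Module Filter Topology Finset
open scoped Classical

namespace Pool.Agent.MP_e23604_nt.S

open B R
open Q (Wn)

theorem FXP_pf : FXP_st := by
  intro W F _ _ P hP
  rcases P with _ | ⟨x, y, h⟩
  · exact ⟨0, rfl⟩
  obtain ⟨a, rfl⟩ := (InfiniteGalois.mem_range_algebraMap_iff_fixed (k := F) x).2 fun σ =>
    (WeierstrassCurve.Affine.Point.some.inj (hP σ)).1
  obtain ⟨b, rfl⟩ := (InfiniteGalois.mem_range_algebraMap_iff_fixed (k := F) y).2 fun σ =>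
    (WeierstrassCurve.Affine.Point.some.inj (hP σ)).2
  exact ⟨.some a b ((W.toAffine.baseChange_nonsingular
    (f := (algebraMap F (AlgebraicClosure F)).toRatAlgHom)
    (algebraMap F (AlgebraicClosure F)).injective a b).1 h), rfl⟩

end Pool.Agent.MP_e23604_nt.S

end

section

set_option autoImplicit false

open Module Filter Topology Finset
open scoped Classical

namespace Pool.Agent.MP_e23604_nt.S

open B R
open Q (Wn)

theorem SEL_pf (hAPX : APX_st) : SEL_st := by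
  intro A _ J η n T b hP c ψ hc hψ k ξ hξ
  have h2 : ∀ g R, η g (ψ.symm R) = ψ.symm (galQ (EK c) g R) := fun g R =>
    ψ.injective (by rw [hψ, ψ.apply_symm_apply, ψ.apply_symm_apply])
  have hz : Zc J η (2 * k) fun g => ψ.symm (ξ g) :=
    ⟨(lc_iff.1 hξ.1.1).map ψ.symm, fun g h => by rw [hξ.1.2 g h, map_add, h2], fun g => by
      rw [W_tor hP.cm, mem_tor, ← map_nsmul, hξ.2.1, map_zero]⟩
  have hl : ∀ (l : ℕ) [Fact l.Prime], InL η (Dec (nv l 1)) fun g => ψ.symm (ξ g) := fun l _ => by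
    obtain ⟨R, hR⟩ := hAPX c k ξ l hc hξ
    exact ⟨ψ.symm R, fun g hg => by rw [dd, h2, ← map_sub, ← hR g hg]⟩
  refine ⟨hz, fun l _ γ h3 hn _ => unr_conj hz (fun τ hτ u hu => hP.ga.unr' hP.cm h3 hn hτ hu)
    (fun τ hτ => ?_) γ, hl 3, fun l _ _ => hl l⟩
  obtain ⟨R, hR⟩ := hl l
  have h4 : ψ.symm (ξ τ) = η τ R - R := hR τ (Ine_le l 1 hτ)
  have h5 := hz.lev τ
  rw [h4] at h5 ⊢
  exact sub_eq_zero.2 (hP.ga.unr l 1 h3 hn τ hτ R _ h5)

end Pool.Agent.MP_e23604_nt.S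

end

section

set_option autoImplicit false

open Module Filter Topology Finset
open scoped Classical

namespace Pool.Agent.MP_e23604_nt.S

open B R
open Q (Wn)

lemma grow_SCNT {G : Type*} [AddCommGroup G] (S : AddSubgroup G)
    (h : {c | c ∈ S ∧ ∃ k : ℕ, 3 ^ k • c = 0}.Infinite) (k : ℕ) :
    3 ^ k ≤ {c | c ∈ S ∧ 3 ^ k • c = 0}.encard := by
  induction k with
  | zero => exact Set.one_le_encard_iff_nonempty.2 ⟨0, S.zero_mem, smul_zero _⟩
  | succ k ih =>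
    have hs : ∀ c : G, 3 ^ k • c = 0 → 3 ^ (k + 1) • c = 0 := fun c hc => by
      rw [pow_succ', mul_smul, hc, smul_zero]
    by_cases hc : ∃ c ∈ S, 3 ^ (k + 1) • c = 0 ∧ 3 ^ k • c ≠ 0
    · obtain ⟨c, c1, c2, c3⟩ := hc
      set T := {x | x ∈ S ∧ 3 ^ k • x = 0} with hT
      have hd : ∀ a b : G, 3 ^ k • a ≠ 3 ^ k • b → Disjoint ((a + ·) '' T) ((b + ·) '' T) := by
        intro a b hab
        rw [Set.disjoint_left]
        rintro _ ⟨y, h1, rfl⟩ ⟨z, h2, e⟩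
        have := congrArg (fun x : G => 3 ^ k • x) e
        simp only [smul_add, h1.2, h2.2, add_zero] at this
        exact hab this.symm
      have hm : ∀ a ∈ S, 3 ^ (k + 1) • a = 0 →
          (a + ·) '' T ⊆ {x | x ∈ S ∧ 3 ^ (k + 1) • x = 0} := by
        rintro a a1 a2 _ ⟨y, h2, rfl⟩
        exact ⟨S.add_mem a1 h2.1, by rw [smul_add, a2, hs y h2.2, add_zero]⟩
      have c4 : 3 ^ k • c ≠ 3 ^ k • (-c) := fun e => c3 (by
        rw [pow_succ', mul_smul, succ_nsmul, two_nsmul] at c2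
        rw [smul_neg] at e
        nth_rw 1 [e] at c2
        rwa [neg_add_cancel, zero_add] at c2)
      refine le_trans ?_ (Set.encard_le_encard (Set.union_subset (Set.union_subset
        (hm c c1 c2) (hm (-c) (S.neg_mem c1) (by rw [smul_neg, c2, neg_zero])))
        (hm 0 S.zero_mem (smul_zero _))))
      rw [Set.encard_union_eq (Set.disjoint_union_left.2 ⟨hd _ _ (by rwa [smul_zero]),
        hd _ _ (by rwa [smul_zero, smul_neg, neg_ne_zero])⟩), Set.encard_union_eq (hd _ _ c4),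
        (add_right_injective _).encard_image, (add_right_injective _).encard_image,
        (add_right_injective _).encard_image, pow_succ,
        show (3 : ℕ∞) ^ k * 3 = 3 ^ k + 3 ^ k + 3 ^ k by ring]
      exact add_le_add (add_le_add ih ih) ih
    · push Not at hc
      have key : ∀ j : ℕ, ∀ c ∈ S, 3 ^ j • c = 0 → 3 ^ (k + 1) • c = 0 := by
        intro j
        induction j with
        | zero => exact fun c _ e => by rw [pow_zero, one_smul] at e; rw [e, smul_zero]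
        | succ j ihj =>
          intro c c1 e
          rw [pow_succ, mul_smul] at e
          rw [pow_succ, mul_smul]
          exact hc _ (S.nsmul_mem c1 3) (ihj _ (S.nsmul_mem c1 3) e)
      have hi : {c | c ∈ S ∧ 3 ^ (k + 1) • c = 0}.Infinite := by
        refine h.mono ?_
        rintro c ⟨c1, j, e⟩
        exact ⟨c1, key j c c1 e⟩
      rw [hi.encard_eq]
      exact le_top

theorem CNT_pf : CNT_st := by
  intro W hF
  have h1 : ∀ k : ℕ, 1 ≤ (shaTors W (3 ^ k)).encard := fun k =>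
    Set.one_le_encard_iff_nonempty.2 ⟨0, zero_mem _, smul_zero _⟩
  unfold Cn
  refine ⟨fun h => ?_, fun h k => ?_⟩
  · have := h.1
    have h0 : finrank ℤ W.toAffine.Point = 0 :=
      Module.finrank_eq_zero_iff_isTorsion.2 fun x => ⟨⟨Nat.card W.toAffine.Point,
        mem_nonZeroDivisors_of_ne_zero (Nat.cast_ne_zero.2 Nat.card_pos.ne')⟩,
        (natCast_zsmul x _).trans card_nsmul_eq_zero'⟩
    refine ⟨h.2.toFinset.card, fun k => ?_⟩
    rw [h0, mul_zero, pow_zero, mul_one, ← h.2.encard_eq_coe_toFinset_card]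
    exact ⟨h1 k, Set.encard_le_encard fun c hc => ⟨hc.1, k, hc.2⟩⟩
  · by_cases h0 : finrank ℤ W.toAffine.Point = 0
    · rw [h0, mul_zero, pow_zero, mul_one]
      exact grow_SCNT _ (fun h2 => h ⟨rk_FCNT rfl _ _ hF h0, h2⟩) k
    · refine le_trans ?_ (mul_le_mul_left (h1 k) _)
      rw [one_mul]
      exact pow_le_pow_right₀ (by norm_num) (Nat.le_mul_of_pos_right k (Nat.pos_of_ne_zero h0))

end Pool.Agent.MP_e23604_nt.S

end

section

set_option autoImplicit false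

open Module Filter Topology Finset
open scoped Classical

namespace Pool.Agent.MP_e23604_nt.S

open B R
open Q (Wn)

theorem div_SDGEN (hCHEB : CHEB_st) (hBS : BS_st) (b : Bool) :
    ¬ Summable fun q : ℕ => if q.Prime ∧ q ≠ 3 ∧ ¬ Sy b 3 q then (1 / q : ℝ) else 0 := by
  intro hs
  obtain ⟨κ, B⟩ := hBS b
  have hc := B.coc 3 Nat.prime_three (ad_three b)
  obtain ⟨N, hN, hk⟩ := hc.ker
  obtain ⟨g, hg, h0⟩ : ∃ g ∈ GK, κ 3 g ≠ 0 := by
    by_contra h
    push Not at h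
    exact B.thr fun g _ hg => h g hg
  have add : ∀ x ∈ GK, ∀ y, κ 3 (x * y) = κ 3 x + κ 3 y := fun x hx y => by
    rw [hc.1 x trivial y trivial, sg_pos b hx, one_mul]
  have inv : κ 3 g⁻¹ = -κ 3 g := by rw [hc.1.inv trivial, sg_pos b hg, one_mul]
  refine (hCHEB N g hN (fun h => h0 ((hk g).1 h).2) ((hk _).2 ⟨GK.pow_mem hg 3, ?_⟩)
    fun h => ?_).1 ?_
  · rw [pow_three, add g hg, add g hg]
    generalize κ 3 g = t
    revert t
    decide
  · have h1 : h * g * h⁻¹ ∈ GK := GK_on.1.conj_mem g hg h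
    have h2 : ∀ s : ZMod 3, s * s = 1 → s = 1 ∨ s = -1 := by decide
    rcases h2 _ (sg_sq b h) with e | e
    · refine Or.inl ((hk _).2 ⟨GK.mul_mem h1 (GK.inv_mem hg), ?_⟩)
      rw [add _ h1, hc.1.conj trivial hg trivial, e, inv, one_mul, add_neg_cancel]
    · refine Or.inr ((hk _).2 ⟨GK.mul_mem h1 hg, ?_⟩)
      rw [add _ h1, hc.1.conj trivial hg trivial, e, neg_one_mul, neg_add_cancel]
  · refine Summable.of_nonneg_of_le (fun q => by split_ifs <;> positivity) (fun q => ?_)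
      (hs.add (hasSum_ite_eq 3 (1 / 3 : ℝ)).summable)
    by_cases hF : Fq N g q
    · rw [if_pos hF]
      by_cases h3 : q = 3
      · subst h3
        simp
      obtain ⟨hq, φ, h1, h2, -⟩ := hF
      have h4 : φ ∈ GK ∧ κ 3 φ ≠ 0 := by
        rcases h2 with h | h <;> obtain ⟨h5, h6⟩ := (hk _).1 h
        · refine ⟨(GK.mul_mem_cancel_left (GK.inv_mem hg)).1 h5, fun h7 => h0 ?_⟩
          rwa [add _ (GK.inv_mem hg), h7, add_zero, inv, neg_eq_zero] at h6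
        · refine ⟨(GK.mul_mem_cancel_left hg).1 h5, fun h7 => h0 ?_⟩
          rwa [add _ hg, h7, add_zero] at h6
      rw [if_pos ⟨hq.out, h3, fun h => h4.2 ((B.loc 3 q Nat.prime_three (ad_three b)
        (Ne.symm h3)).2 h φ h1.1 h4.1)⟩, if_neg h3, add_zero]
    · rw [if_neg hF]
      split_ifs <;> positivity

theorem DGEN_pf (hSIEVE : SIEVE_st) (hCHEB : CHEB_st) (hBS : BS_st) : DGEN_st := by
  have h := fun b => hSIEVE (fun q => q.Prime ∧ q ≠ 3 ∧ ¬ Sy b 3 q)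
    (by convert div_SDGEN hCHEB hBS b) fun _ h => h.1
  have h1 := (h true).add (h false)
  rw [add_zero] at h1
  refine squeeze_zero (fun X => by positivity) (fun X => ?_) h1
  rw [← add_div, ← Nat.cast_add]
  refine div_le_div_of_nonneg_right (Nat.cast_le.2 (le_trans (Set.ncard_le_ncard ?_ ?_)
    (Set.ncard_union_le _ _))) (Nat.cast_nonneg _)
  · rintro D ⟨d1, d2, d3⟩
    by_contra hc
    simp only [Set.mem_union, Set.mem_ofPred_eq, d1, d2, true_and, not_or, not_not] at hc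
    obtain ⟨⟨l, ⟨a1, a2, a3⟩, a4⟩, l', ⟨b1, b2, b3⟩, b4⟩ := hc
    refine d3 ⟨⟨l, a1, a2, by rw [a4]; decide, fun h => a3 ?_⟩,
      l', b1, b2, by rw [b4]; decide, fun h => b3 ?_⟩
    · simpa only [Sy, Sk, if_true, if_neg a2] using h
    · simpa [Sy, Sk] using h
  · exact (Set.finite_Iic X).subset (by rintro D (h | h) <;> exact h.2.1)

end Pool.Agent.MP_e23604_nt.S

end
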