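import Pool.Agent.Mg.Fe23604m.Ga6f63b

set_option linter.all false

section

set_option autoImplicit false
open Finset QuadraticAlgebra Polynomial
open scoped Classical
namespace Pool.Agent.MP_e23604_nt.W
open B R S

open WeierstrassCurve in
theorem line_AFML {F : Type} [Field F] [DecidableEq F] {v : AbsoluteValue F ℝ}
    {W : WeierstrassCurve F} (hv : IsNonarchimedean v) (hW : Intg v W) (a1 : W.a₁ = 0)
    (a2 : W.a₂ = 0) (a3 : W.a₃ = 1) (a4 : W.a₄ = 0) (a6 : W.a₆ = 0) {x₁ y₁ x₂ y₂ : F}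
    (h₁ : W.toAffine.Nonsingular x₁ y₁) (h₂ : W.toAffine.Nonsingular x₂ y₂) (hx : 1 < v x₁)
    (hle : v x₁ ≤ v x₂) (h0 : Affine.Point.some _ _ h₁ + Affine.Point.some _ _ h₂ ≠ 0) :
      v (zz (-(Affine.Point.some _ _ h₁ + Affine.Point.some _ _ h₂)) + -x₁ / y₁ + -x₂ / y₂) ≤
        v (-x₁ / y₁) ^ 4 := by
  have hx₂ : 1 < v x₂ := hx.trans_le hle
  have q₁ := E1_xy hv hW h₁.1 hx
  have q₂ := E1_xy hv hW h₂.1 hx₂
  have g₁ := bLocA_lt hx (v.nonneg _) q₁
  have g₂ := bLocA_lt hx₂ (v.nonneg _) q₂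
  have r₁ : v (-x₁ / y₁) ^ 2 = 1 / v x₁ := by
    rw [map_div₀, v.map_neg, div_pow, q₁]
    field_simp
  have hxy : ¬ (x₁ = x₂ ∧ y₁ = W.toAffine.negY x₂ y₂) := fun hxy =>
    h0 (Affine.Point.add_of_Y_eq hxy.1 hxy.2)
  have hp := Affine.addPolynomial_slope h₁.1 h₂.1 hxy
  rw [Affine.addPolynomial_eq, neg_inj, Cubic.prod_X_sub_C_eq, Cubic.toPoly_injective,
    Cubic.ext_iff] at hp
  obtain ⟨-, e₁, e₂, e₃⟩ := hp
  dsimp only at e₁ e₂ e₃
  have hy₂ : y₂ = W.toAffine.slope x₁ x₂ y₁ y₂ * (x₂ - x₁) + y₁ := by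
    by_cases h : x₁ = x₂
    · rw [← Affine.Y_eq_of_Y_ne h₁.1 h₂.1 h fun h' => hxy ⟨h, h'⟩, h]
      ring
    · have := sub_ne_zero.2 h
      rw [Affine.slope_of_X_ne h]
      field_simp
      ring
  have h₃ : W.toAffine.Nonsingular _ (_ * (_ - x₁) + y₁) := Affine.nonsingular_negAdd h₁ h₂ hxy
  have hs : Affine.Point.some _ _ h₁ + Affine.Point.some _ _ h₂ = -Affine.Point.some _ _ h₃ :=
    Affine.Point.add_some hxy
  rw [hs, neg_neg, zz_some]
  clear hs h0 h₃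
  generalize W.toAffine.slope x₁ x₂ y₁ y₂ = l at *
  generalize W.toAffine.addX x₁ x₂ l = x₃ at *
  obtain ⟨m, rfl⟩ : ∃ m, y₁ = l * x₁ + m := ⟨y₁ - l * x₁, by ring⟩
  obtain rfl : y₂ = l * x₂ + m := by rw [hy₂]; ring
  have e₂' : x₁ * x₂ + x₁ * x₃ + x₂ * x₃ = W.a₄ - 2 * (l * m) - W.a₁ * m - W.a₃ * l := by
    linear_combination -e₂
  have e₃' : x₁ * x₂ * x₃ = m ^ 2 + W.a₃ * m - W.a₆ := by linear_combination e₃
  have e₁' : x₁ + x₂ + x₃ = l ^ 2 + W.a₁ * l - W.a₂ := by linear_combination e₁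
  obtain ⟨k₁, k₂⟩ := bLocA_line hv hW.1 hW.2.2.1 hW.2.2.2.1 hW.2.2.2.2 e₂' e₃' hx hle q₁ q₂
  have m0 : 0 < v m := by linarith
  have k₃ : v (l / m) ≤ v (-x₁ / (l * x₁ + m)) ^ 2 := by
    rw [r₁, map_div₀, div_le_div_iff₀ m0 (by linarith), one_mul]
    exact k₂
  have hm : m ≠ 0 := v.pos_iff.1 m0
  rw [a1, a2] at e₁'
  rw [a1, a3, a4] at e₂'
  rw [a3, a6] at e₃'
  have ey : l * (x₃ - x₁) + (l * x₁ + m) = l * x₃ + m := by ring
  have p₁ : (l * x₁ + m) * (l * x₂ + m) * (l * x₃ + m) = m ^ 3 := by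
    linear_combination l ^ 3 * e₃' + l ^ 2 * m * e₂' + l * m ^ 2 * e₁'
  have p₂ : x₃ * (l * x₁ + m) * (l * x₂ + m) + x₁ * (l * x₂ + m) * (l * x₃ + m) +
      x₂ * (l * x₁ + m) * (l * x₃ + m) = l ^ 2 * m := by
    linear_combination 3 * l ^ 2 * e₃' + 2 * l * m * e₂' + m ^ 2 * e₁'
  have p₃ : (l * x₁ + m) * (l * x₂ + m) * (l * x₃ + m) ≠ 0 := by
    rw [p₁]
    exact pow_ne_zero _ hm
  have y₁ := left_ne_zero_of_mul (left_ne_zero_of_mul p₃)
  have y₂ := right_ne_zero_of_mul (left_ne_zero_of_mul p₃)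
  have y₃ := right_ne_zero_of_mul p₃
  have k₄ : -x₃ / (l * x₃ + m) + -x₁ / (l * x₁ + m) + -x₂ / (l * x₂ + m) =
      -((x₃ * (l * x₁ + m) * (l * x₂ + m) + x₁ * (l * x₂ + m) * (l * x₃ + m) +
      x₂ * (l * x₁ + m) * (l * x₃ + m)) / ((l * x₁ + m) * (l * x₂ + m) * (l * x₃ + m))) := by
    generalize l * x₁ + m = u₁ at *
    generalize l * x₂ + m = u₂ at *
    generalize l * x₃ + m = u₃ at *
    field_simp
    ring
  have k₅ : l ^ 2 * m / m ^ 3 = (l / m) ^ 2 := by field_simp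
  rw [ey, k₄, p₁, p₂, k₅, v.map_neg, map_pow, show 4 = 2 * 2 from rfl, pow_mul]
  exact pow_le_pow_left₀ (v.nonneg _) k₃ 2

variable {V : Plc} {P Q : Pt}

theorem y_AFML (h : E1 V.v P) (h0 : P ≠ 0) : 1 < V.v (yc P) := by
  have h1 := (E1_xz h h0).2
  have h2 := pow_lt_one₀ (V.v.nonneg _) (zz_lt h) three_ne_zero
  by_contra hc
  have := mul_le_mul_of_nonneg_right (not_lt.1 hc) (pow_nonneg (V.v.nonneg (zz P)) 3)
  linarith

theorem neg_AFML (h : E1 V.v P) : V.v (zz (-P) + zz P) ≤ V.v (zz P) ^ 4 := by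
  by_cases h0 : P = 0
  · simp [h0]
  have h2 := (E1_xz h h0).2
  have hy := y_AFML h h0
  have k : V.v (yc P + 1) = V.v (yc P) := bLocA_add_eq V.na (by rwa [map_one])
  have y0 : yc P ≠ 0 := V.v.pos_iff.1 (by linarith)
  have y1 : yc P + 1 ≠ 0 := V.v.pos_iff.1 (by linarith)
  have e : zz (-P) + zz P = zz P / (yc P + 1) := by
    rw [zz_eq, zz_eq, (xc_neg P).1, (xc_neg P).2 h0,
      show -yc P - 1 = -(yc P + 1) by ring]
    field_simp
    ring
  rw [e, map_div₀, k, div_le_iff₀ (by linarith)]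
  refine le_of_eq ?_
  linear_combination -V.v (zz P) * h2

theorem tri_AFML (h : E1 V.v P) (h' : E1 V.v Q) (h0 : P + Q ≠ 0) :
    V.v (zz (-(P + Q)) + zz P + zz Q) ≤ max (V.v (zz P)) (V.v (zz Q)) ^ 4 := by
  rcases P with _ | ⟨x₁, y₁, h₁⟩
  · rw [← WeierstrassCurve.Affine.Point.zero_def, zero_add, zz_zero, add_zero]
    exact (neg_AFML h').trans (pow_le_pow_left₀ (V.v.nonneg _) (le_max_right _ _) 4)
  rcases Q with _ | ⟨x₂, y₂, h₂⟩
  · rw [← WeierstrassCurve.Affine.Point.zero_def, add_zero, zz_zero, add_zero]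
    exact (neg_AFML h).trans (pow_le_pow_left₀ (V.v.nonneg _) (le_max_left _ _) 4)
  have a : EQ.a₁ = 0 ∧ EQ.a₂ = 0 ∧ EQ.a₃ = 1 ∧ EQ.a₄ = 0 ∧ EQ.a₆ = 0 := by
    simp [E3, WeierstrassCurve.baseChange]
  obtain ⟨a1, a2, a3, a4, a6⟩ := a
  rcases le_total (V.v x₁) (V.v x₂) with hle | hle
  · exact (line_AFML V.na (intg_EQ _) a1 a2 a3 a4 a6 h₁ h₂ h hle h0).trans
      (pow_le_pow_left₀ (V.v.nonneg _) (le_max_left _ _) 4)
  · rw [add_comm] at h0
    rw [add_comm (WeierstrassCurve.Affine.Point.some _ _ h₁), add_right_comm]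
    exact (line_AFML V.na (intg_EQ _) a1 a2 a3 a4 a6 h₂ h₁ h' hle h0).trans
      (pow_le_pow_left₀ (V.v.nonneg _) (le_max_right _ _) 4)

theorem add_AFML (h : E1 V.v P) (h' : E1 V.v Q) :
    V.v (zz (P + Q) - zz P - zz Q) ≤ max (V.v (zz P)) (V.v (zz Q)) ^ 4 := by
  by_cases h0 : P + Q = 0
  · rw [h0, zz_zero, eq_neg_of_add_eq_zero_left h0, zero_sub, ← neg_add', V.v.map_neg]
    exact (neg_AFML h').trans (pow_le_pow_left₀ (V.v.nonneg _) (le_max_right _ _) 4)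
  have h1 := (neg_AFML (E1a h h')).trans (pow_le_pow_left₀ (V.v.nonneg _)
    (zz_add_le h h' (le_max_left _ _) (le_max_right _ _)) 4)
  have h2 := bLocA_sub_le V.na h1 (tri_AFML h h' h0)
  rwa [show zz (-(P + Q)) + zz (P + Q) - (zz (-(P + Q)) + zz P + zz Q) =
    zz (P + Q) - zz P - zz Q by ring] at h2

theorem add2_AFML {s : ℝ} (h : E1 V.v P) (h' : E1 V.v Q) (e : V.v (zz P) ≤ s)
    (e' : V.v (zz Q) ≤ s) {a b : Qb} (k : V.v (zz P - a) ≤ s ^ 4) (k' : V.v (zz Q - b) ≤ s ^ 4) :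
    V.v (zz (P + Q) - (a + b)) ≤ s ^ 4 := by
  have h1 := (add_AFML h h').trans
    (pow_le_pow_left₀ (le_max_of_le_left (V.v.nonneg _)) (max_le e e') 4)
  have h2 := bLocA_add_le V.na (bLocA_add_le V.na h1 k) k'
  rwa [show zz (P + Q) - zz P - zz Q + (zz P - a) + (zz Q - b) = zz (P + Q) - (a + b) by ring] at h2

theorem int_AFML (h : E1 V.v P) (n : ℤ) : E1 V.v (n • P) ∧ V.v (zz (n • P)) ≤ V.v (zz P) := by
  have := E1m h (n : Zw)
  rw [Int.cast_smul_eq_zsmul] at this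
  exact ⟨this.1, this.2.2⟩

theorem zs_AFML (h : E1 V.v P) (n : ℤ) : V.v (zz (n • P) - n * zz P) ≤ V.v (zz P) ^ 4 := by
  induction n using Int.induction_on with
  | zero => simp
  | succ n ih =>
    have := add2_AFML (int_AFML h n).1 h (int_AFML h n).2 le_rfl ih (b := zz P) (by simp)
    rwa [add_zsmul, one_zsmul, Int.cast_add, Int.cast_one, add_mul, one_mul]
  | pred n ih =>
    have k := int_AFML h (-1)
    rw [neg_one_zsmul] at k
    have := add2_AFML (int_AFML h _).1 k.1 (int_AFML h _).2 k.2 ih (b := -zz P)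
      (by rw [sub_neg_eq_add]; exact neg_AFML h)
    rwa [sub_zsmul, one_zsmul, Int.cast_sub, Int.cast_one, sub_mul, one_mul, sub_eq_add_neg _ (zz P)]

theorem root_AFML (V : Plc) {t : Qb} (ht : V.v t < 1) :
    ∃ s : Qb, s * (1 - s) = t ^ 3 ∧ V.v s < 1 := by
  obtain ⟨r, hr⟩ := IsAlgClosed.exists_pow_nat_eq (1 - 4 * t ^ 3 : Qb) two_pos
  have e : (1 + r) / 2 * (1 - (1 + r) / 2) = t ^ 3 := by linear_combination (-1 / 4) * hr
  by_cases h : V.v ((1 + r) / 2) < 1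
  · exact ⟨_, e, h⟩
  refine ⟨1 - (1 + r) / 2, by linear_combination e, ?_⟩
  have h1 := congrArg V.v e
  rw [map_mul, map_pow] at h1
  have h2 := pow_lt_one₀ (V.v.nonneg _) ht three_ne_zero
  have h3 := mul_le_mul_of_nonneg_right (not_lt.1 h) (V.v.nonneg (1 - (1 + r) / 2))
  linarith

theorem uniq_AFML (h : E1 V.v P) (h' : E1 V.v Q) (e : zz P = zz Q) : P = Q := by
  by_cases h0 : P = 0
  · rw [h0] at e ⊢
    exact ((zz_zero_iff h').1 e.symm).symm
  have h0' : Q ≠ 0 := fun k => h0 ((zz_zero_iff h).1 (by rw [e, k]; rfl))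
  have hy := y_AFML h h0
  have hy' := y_AFML h' h0'
  have y0 : yc P ≠ 0 := V.v.pos_iff.1 (by linarith)
  have y0' : yc Q ≠ 0 := V.v.pos_iff.1 (by linarith)
  have x1 : xc P = -zz Q * yc P := by rw [← e, zz_eq]; field_simp
  have x2 : xc Q = -zz Q * yc Q := by rw [zz_eq]; field_simp
  have o1 := on_iff.1 (on_xy h0).1
  have o2 := on_iff.1 (on_xy h0').1
  rw [x1] at o1
  rw [x2] at o2
  have k : yc P * yc Q * ((yc P - yc Q) * (yc P * yc Q + (yc P + yc Q))) = 0 := by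
    linear_combination yc P ^ 3 * o2 - yc Q ^ 3 * o1
  have k1 : V.v (yc P * yc Q + (yc P + yc Q)) = V.v (yc P * yc Q) :=
    bLocA_add_eq V.na (by
      rw [map_mul]
      exact bLocA_add_lt V.na (by nlinarith) (by nlinarith))
  have k2 : yc P * yc Q + (yc P + yc Q) ≠ 0 :=
    V.v.pos_iff.1 (by rw [k1, map_mul]; nlinarith)
  have k3 : yc P = yc Q := sub_eq_zero.1 ((mul_eq_zero.1
    ((mul_eq_zero.1 k).resolve_left (mul_ne_zero y0 y0'))).resolve_right k2)
  exact pt_ext h0 h0' (by rw [x1, x2, k3]) k3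

theorem FML_pf : FML_st := by
  intro V
  refine ⟨fun P Q h h' => add_AFML h h', fun b P h => ?_, fun t ht => ?_⟩
  · have hw : V.v (zz ((ω : Zw) • P)) = V.v (zz P) := by rw [zz_w, map_mul, v_w3, one_mul]
    have := add2_AFML (int_AFML h b.re).1 (int_AFML (E1w h) b.im).1 (int_AFML h b.re).2
      ((int_AFML (E1w h) b.im).2.trans hw.le) (zs_AFML h b.re) (hw ▸ zs_AFML (E1w h) b.im)
    rw [smul_def, ← w_smul, io_apply]
    rwa [zz_w, ← mul_assoc, ← add_mul] at this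
  refine existsUnique_of_exists_of_unique ?_ fun P Q h h' =>
    uniq_AFML h.1 h'.1 (h.2.trans h'.2.symm)
  by_cases t0 : t = 0
  · exact ⟨0, trivial, t0.symm⟩
  obtain ⟨s, hs, hs1⟩ := root_AFML V ht
  have s0 : s ≠ 0 := fun k => pow_ne_zero 3 t0 (by rw [← hs, k, zero_mul])
  have k : V.v (1 + -s) = 1 := by
    rw [bLocA_add_eq V.na (by rwa [V.v.map_neg, map_one]), map_one]
  have k1 : V.v s = V.v t ^ 3 := by
    rw [← map_pow, ← hs, map_mul, sub_eq_add_neg, k, mul_one]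
  have tp : 0 < V.v t := V.v.pos t0
  have o : On 0 1 (t / s) (-1 / s) := by
    rw [on_iff, div_pow, div_pow, ← hs]
    field_simp
    ring
  refine ⟨pt 0 1 (t / s) (-1 / s), (E1_iff _ _).2 (Or.inr ?_), ?_⟩
  · rw [xc_pt o, map_div₀, k1, one_lt_div (by positivity)]
    have := pow_lt_pow_right_of_lt_one₀ tp ht (show 1 < 3 by norm_num)
    rwa [pow_one] at this
  · rw [zz_eq, xc_pt o, yc_pt o]
    field_simp

end Pool.Agent.MP_e23604_nt.W

end

section

/-!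
Small multipliers and the existence of the division polynomials.
-/

set_option autoImplicit false

open Finset QuadraticAlgebra Polynomial
open scoped Classical

namespace Pool.Agent.MP_e23604_nt.W

open B R S

theorem one_APBASE : Rep 1 X 1 where
  mon := monic_X
  dA := by rw [nn_one, natDegree_X]
  dB := by rw [nn_one, natDegree_one]
  lc := by simp
  sq _ := IsSquare.one
  pt P hP := ⟨1, one_ne_zero, by rw [one_smul, one_smul, xRep_eq hP, eval_X, eval_one]⟩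
  ht V _ x := by rw [nn_one, eval_X, eval_one, map_one, pow_one, max_comm]

theorem core_APBASE : BDivPt EQ 2 (X ^ 4 - C 2 * X) (C 4 * X ^ 3 + 1) ∧
    BDivHt EQ 2 (X ^ 4 - C 2 * X) (C 4 * X ^ 3 + 1) := by
  have h := BDiv_one EQ
  have b2 : EQ.b₂ = 0 := by simp [E3, WeierstrassCurve.baseChange, WeierstrassCurve.b₂]
  have b4 : EQ.b₄ = 0 := by simp [E3, WeierstrassCurve.baseChange, WeierstrassCurve.b₄]
  have b6 : EQ.b₆ = 1 := by simp [E3, WeierstrassCurve.baseChange, WeierstrassCurve.b₆]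
  have b8 : EQ.b₈ = 0 := by simp [E3, WeierstrassCurve.baseChange, WeierstrassCurve.b₈]
  exact BDiv_core EQ (n := 0) (A := 1) (B := 0) (A₁ := X) (B₁ := 1)
    (fun x y h => ⟨1, one_ne_zero, by simp⟩) h.2.2.2.2.2.1 (fun v _ _ _ x => by simp)
    h.2.2.2.2.2.2 (by simp [BDivU, map_ofNat, b4, b6, b8]; ring)
    (by simp [BDivV, map_ofNat, b2, b4, b6]; ring) (by simp [BDivW]; ring)

theorem two_APBASE : Rep 2 (X ^ 4 - C 2 * X) (C 4 * X ^ 3 + 1) := by
  have d : (C 4 * X ^ 3 + 1 : Qb[X]).natDegree = 3 := by compute_degree!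
  refine ⟨by monicity!, by rw [nn_two]; compute_degree!, by rw [nn_two, d], ?_,
    fun h => absurd dvd_rfl h, fun P hP => ?_, fun V hV x => ?_⟩
  · rw [leadingCoeff, d, map_ofNat io]
    simp [coeff_one]
    norm_num
  · rcases P with _ | ⟨x, y, h⟩
    · exact absurd rfl hP
    · obtain ⟨c, hc, e⟩ := core_APBASE.1 x y h
      refine ⟨c, hc, Eq.trans ?_ e⟩
      rw [two_smul, two_smul]
  · rw [nn_two]
    exact core_APBASE.2 V.v V.na (intg_EQ _) (v_Δ hV) x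

theorem xc_APBASE {u : Zw} (hu : IsUnit u) (Q : Pt) : xc (u • Q) * io u ^ 2 = xc Q := by
  have k : ∀ i : ℕ, xc ((ω : Zw) ^ i • Q) * io (ω ^ i) ^ 2 = xc Q := fun i => by
    induction i with
    | zero => simp
    | succ i ih =>
      rw [pow_succ' ω i, mul_smul, (xc_w _).1, map_mul, io_w]
      linear_combination ih + xc ((ω : Zw) ^ i • Q) * io (ω ^ i) ^ 2 * w3_cube
  obtain ⟨i, rfl | rfl⟩ := unit6 hu
  · exact k i
  · rw [neg_smul, (xc_neg _).1, map_neg, neg_sq]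
    exact k i

theorem unit_APBASE {b u : Zw} {A B : Qb[X]} (hu : IsUnit u) (h : Rep b A B) :
    Rep (u * b) A (C (io u ^ 2) * B) := by
  have e : nn (u * b) = nn b := by rw [nn_mul, nn_unit.1 hu, one_mul]
  have u0 : io u ^ 2 ≠ 0 := pow_ne_zero 2 (io_ne hu.ne_zero)
  refine ⟨h.mon, by rw [e, h.dA], by rw [e, natDegree_C_mul u0, h.dB], ?_, fun h2 => ?_,
    fun P hP => ?_, fun V hV x => ?_⟩
  · rw [leadingCoeff_mul, leadingCoeff_C, h.lc, map_mul, mul_pow]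
  · obtain ⟨D, hD⟩ := h.sq fun k => h2 (k.mul_left u)
    exact ⟨C (io u) * D, by rw [hD, map_pow]; ring⟩
  · obtain ⟨c, hc, k⟩ := h.pt P hP
    have k0 := congrFun k 0
    have k1 := congrFun k 1
    rw [mul_smul]
    by_cases h0 : b • P = 0
    · rw [h0] at k0 k1
      refine ⟨c, hc, ?_⟩
      rw [h0, smul_zero]
      simp only [WeierstrassCurve.Affine.Point.xRep_zero, Matrix.cons_val_zero, Pi.smul_apply,
        smul_eq_mul, Matrix.cons_val_one] at k0 k1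
      ext i
      fin_cases i
      · simpa using k0
      · simp only [WeierstrassCurve.Affine.Point.xRep_zero, Fin.mk_one, Matrix.cons_val_one,
          Matrix.cons_val_zero, Pi.smul_apply, smul_eq_mul, eval_mul, eval_C]
        linear_combination io u ^ 2 * k1
    · refine ⟨c / io u ^ 2, div_ne_zero hc u0, ?_⟩
      rw [xRep_eq h0] at k0 k1
      rw [xRep_eq fun k => h0 ((unit_smul hu).1 k)]
      simp only [Matrix.cons_val_zero, Pi.smul_apply, smul_eq_mul, Matrix.cons_val_one] at k0 k1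
      have k2 := xc_APBASE hu (b • P)
      ext i
      fin_cases i
      · simp only [Fin.zero_eta, Matrix.cons_val_zero, Pi.smul_apply, smul_eq_mul]
        rw [div_mul_eq_mul_div, eq_div_iff u0, k2, k0]
      · simp only [Fin.mk_one, Matrix.cons_val_one, Matrix.cons_val_zero, Pi.smul_apply,
          smul_eq_mul, eval_mul, eval_C]
        rw [← mul_assoc, div_mul_cancel₀ _ u0, k1]
  · rw [e, eval_mul, eval_C, map_mul, map_pow, not_Ov.1 (not_Ov_unit V hu), one_pow, one_mul]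
    exact h.ht V hV x

theorem PBASE_pf : PBASE_st := ⟨one_APBASE, two_APBASE, fun _ _ _ _ => unit_APBASE⟩

theorem rot_APBASE {b : Zw} (h0 : b ≠ 0) (h1 : ¬ IsUnit b) :
    ∃ u : Zw, IsUnit u ∧ 3 ≤ 2 * (u * b).re - (u * b).im := by
  by_contra h
  simp only [not_exists, not_and, not_le] at h
  have a1 := h 1 isUnit_one
  have a2 := h (-1) isUnit_one.neg
  have a3 := h ω w_unit
  have a4 := h (-ω) w_unit.neg
  have a5 := h (ω * ω) (w_unit.mul w_unit)
  have a6 := h (-(ω * ω)) (w_unit.mul w_unit).neg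
  obtain ⟨x, y⟩ := b
  simp at a1 a2 a3 a4 a5 a6
  rw [nn_unit] at h1
  have hx1 : x ≤ 1 := by omega
  have hx2 : -1 ≤ x := by omega
  have hy1 : y ≤ 1 := by omega
  have hy2 : -1 ≤ y := by omega
  interval_cases x <;> interval_cases y <;>
    first | omega | exact h0 rfl | exact h1 (by decide)

theorem POLY_pf (hS : PSTEP_st) : POLY_st := by
  intro b
  induction hn : nn b using Nat.strong_induction_on generalizing b with
  | _ n ih =>
  intro h0
  by_cases h1 : IsUnit b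
  · exact ⟨_, _, by simpa only [mul_one] using unit_APBASE h1 one_APBASE⟩
  obtain ⟨u, hu, h3⟩ := rot_APBASE h0 h1
  have e : nn (u * b) = n := by rw [nn_mul, nn_unit.1 hu, one_mul, hn]
  have key : ∃ A B, Rep (u * b) A B := by
    have g0 : u * b ≠ 0 := mul_ne_zero hu.ne_zero h0
    generalize u * b = β at *
    by_cases h2 : β = 2
    · exact ⟨_, _, h2 ▸ two_APBASE⟩
    have g1 : β - 1 ≠ 0 := fun k => by
      rw [sub_eq_zero.1 k] at h3
      exact absurd h3 (by decide)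
    have g2 : β - 1 - 1 ≠ 0 := fun k => h2 (by linear_combination k)
    have n0 := nn_cast β
    have n1 := nn_cast (β - 1)
    have n2 := nn_cast (β - 1 - 1)
    rw [nw_def] at n0 n1 n2
    simp only [re_sub, im_sub, re_one, im_one] at n1 n2
    obtain ⟨A₀, B₀, r₀⟩ := ih (nn (β - 1 - 1)) (by nlinarith) _ rfl g2
    obtain ⟨A₁, B₁, r₁⟩ := ih (nn (β - 1)) (by nlinarith) _ rfl g1
    simpa only [sub_add_cancel] using
      hS (β - 1) A₀ B₀ A₁ B₁ g2 g1 (by rwa [sub_add_cancel]) r₀ r₁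
  obtain ⟨A, B, r⟩ := key
  obtain ⟨u', hu'⟩ := hu.exists_left_inv
  have := unit_APBASE (IsUnit.of_mul_eq_one u hu') r
  rw [← mul_assoc, hu', one_mul] at this
  exact ⟨_, _, this⟩

end Pool.Agent.MP_e23604_nt.W

end
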