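import Pool.Agent.Mg.Fe23604m.Ga6f63b
import Pool.Agent.Mg.Fe23604m.G9bf290
import Pool.Agent.Mg.Fe23604m.G5224b9
import Pool.Agent.Mg.Fe23604m.G071751
import Pool.Agent.Mg.Fe23604m.Gefc020
import Pool.Agent.Mg.Fe23604m.G6b20b6
import Pool.Agent.Mg.Fe23604m.G9f00c9
import Pool.Agent.Mg.Fe23604m.Gc4cdb1

set_option linter.all false

section

set_option autoImplicit false
open Finset QuadraticAlgebra Polynomial
open scoped Classical
namespace Pool.Agent.MP_e23604_nt.W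
open B R S

theorem alg_AEXP {x y z u l X w : Qb} (hz : z ≠ 0) (hu0 : u ≠ 0) (hE : y ^ 2 + y = x ^ 3)
    (hu : u = 1 + u ^ 2 * z ^ 3) (hX : X * u * z ^ 2 = 1) (hw : w = 1 - x * u * z ^ 2)
    (hl : l * z * w = -(1 + y * u * z ^ 3)) :
    (l ^ 2 - x - X - x) * w ^ 2 =
      z * ((2 * y + 1) * u + 3 * x ^ 2 * u * z - (x ^ 3 + y) * u ^ 2 * z ^ 3) := by
  refine mul_left_cancel₀ (mul_ne_zero hu0 (pow_ne_zero 2 hz)) ?_
  subst hw
  linear_combination u * (l * z * (1 - x * u * z ^ 2) - (1 + y * u * z ^ 3)) * hl -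
    (1 - x * u * z ^ 2) ^ 2 * hX + hu + u ^ 3 * z ^ 6 * hE

theorem le_AEXP (V : Plc) {a w z c : Qb} {m n : ℕ} (hw : V.v w = 1) (hc : c ∈ blocBO V.na)
    (h : a * w ^ m = z ^ n * c) : V.v a ≤ V.v z ^ n := by
  have h1 := congrArg V.v h
  rw [map_mul, map_mul, map_pow, map_pow, hw, one_pow, mul_one] at h1
  rw [h1]
  exact mul_le_of_le_one_right (pow_nonneg (V.v.nonneg _) _) hc

theorem main_AEXP (V : Plc) (Y P : Pt) (hY : ¬ E1 V.v Y) (hP : E1 V.v P) :
    V.v (xc (Y + P) - xc Y - (2 * yc Y + 1) * zz P - 3 * xc Y ^ 2 * zz P ^ 2) ≤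
      V.v (zz P) ^ 3 ∧
    V.v (xc (Y + P) - xc Y) ≤ V.v (zz P) ∧ V.v (yc (Y + P) - yc Y) ≤ V.v (zz P) := by
  by_cases h0 : P = 0
  · subst h0
    simp
  obtain ⟨hY0, hx⟩ := not_E1.1 hY
  have hy := yc_le hx
  obtain ⟨k1, k2⟩ := E1_xz hP h0
  have hX1 : 1 < V.v (xc P) := ((E1_iff _ _).1 hP).resolve_left h0
  have hz1 := zz_lt hP
  have hz : zz P ≠ 0 := fun e => h0 ((zz_zero_iff hP).1 e)
  have hne : xc Y ≠ xc P := fun e => by rw [e] at hx; linarith
  have hY' : yc P ≠ 0 := fun e => by simp [e] at k2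
  have ez : zz P * yc P = -xc P := by rw [zz_eq, div_mul_cancel₀ _ hY']
  obtain ⟨l, hl0⟩ : ∃ l, l * (xc Y - xc P) = yc Y - yc P :=
    ⟨_, div_mul_cancel₀ _ (sub_ne_zero.2 hne)⟩
  obtain ⟨a1, a2⟩ := pt_add_ne G01 (on_xy hY0).1 (on_xy h0).1 hne hl0 rfl rfl
  rw [← (on_xy hY0).2, ← (on_xy h0).2] at a2
  have ex : xc (Y + P) = l ^ 2 - xc Y - xc P := by
    rw [a2, xc_pt a1]
    simp
  have ey : yc (Y + P) = -(l * (l ^ 2 - xc Y - xc P - xc Y) + yc Y) - 1 := by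
    rw [a2, yc_pt a1]
    simp
  have hE := xy_eq Y
  have hE' := xy_eq P
  rw [ex, ey]
  generalize xc Y = x at *
  generalize yc Y = y at *
  generalize xc P = X at *
  generalize yc P = Y' at *
  generalize zz P = z at *
  obtain ⟨u, eu⟩ : ∃ u, u * (Y' * z ^ 3) = -1 :=
    ⟨_, div_mul_cancel₀ _ (mul_ne_zero hY' (pow_ne_zero 3 hz))⟩
  have vu : V.v u = 1 := by
    have := congrArg V.v eu
    rwa [map_mul, map_mul, map_pow, k2, mul_one, V.v.map_neg, map_one] at this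
  have hu0 : u ≠ 0 := fun e => by simp [e] at vu
  have hX : X * u * z ^ 2 = 1 := by linear_combination u * z ^ 2 * ez - eu
  have hu : u = 1 + u ^ 2 * z ^ 3 := by
    linear_combination u ^ 3 * z ^ 6 * hE' - (u ^ 2 * Y' * z ^ 3 - u + u ^ 2 * z ^ 3) * eu +
      ((X * u * z ^ 2) ^ 2 + X * u * z ^ 2 + 1) * hX
  obtain ⟨w, hw⟩ : ∃ w, w = 1 - x * u * z ^ 2 := ⟨_, rfl⟩
  have vw : V.v w = 1 := by
    rw [hw, sub_eq_add_neg, bLocA_add_eq V.na, map_one]
    rw [V.v.map_neg, map_one, mul_assoc]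
    refine (bLocA_mul_le hx).trans_lt ?_
    rw [map_mul, vu, one_mul, map_pow]
    exact pow_lt_one₀ (V.v.nonneg _) hz1 two_ne_zero
  have hl : l * z * w = -(1 + y * u * z ^ 3) := by
    rw [hw]
    linear_combination -u * z ^ 3 * hl0 - l * z * hX + eu
  have A := alg_AEXP hz hu0 hE hu hX hw hl
  have mx : x ∈ blocBO V.na := hx
  have my : y ∈ blocBO V.na := hy
  have mz : z ∈ blocBO V.na := hz1.le
  have mu : u ∈ blocBO V.na := vu.le
  have m2 : (2 : Qb) ∈ blocBO V.na := ofNat_mem _ 2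
  have m3 : (3 : Qb) ∈ blocBO V.na := ofNat_mem _ 3
  refine ⟨le_AEXP V (m := 2) (c := ((2 * y + 1) + 3 * x ^ 2 * z) *
      (u ^ 2 * z + 2 * x * u - x ^ 2 * u ^ 2 * z ^ 2) - (x ^ 3 + y) * u ^ 2 * z) vw ?_ ?_,
    (le_AEXP V (m := 2) (n := 1) (c := (2 * y + 1) * u + 3 * x ^ 2 * u * z -
      (x ^ 3 + y) * u ^ 2 * z ^ 3) vw ?_ ?_).trans_eq (pow_one _),
    (le_AEXP V (m := 3) (n := 1) (c := (2 * y + 1) * (u ^ 2 * z ^ 2 + 3 * x * u * z -
      3 * x ^ 2 * u ^ 2 * z ^ 3 + x ^ 3 * u ^ 3 * z ^ 5) + 3 * x ^ 2 * u -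
      (x ^ 3 + y) * u ^ 2 * z ^ 2 + y * u * z ^ 2 * ((2 * y + 1) * u + 3 * x ^ 2 * u * z -
      (x ^ 3 + y) * u ^ 2 * z ^ 3)) vw ?_ ?_).trans_eq (pow_one _)⟩
  · repeat first
      | with_reducible assumption
      | with_reducible exact one_mem _
      | with_reducible apply add_mem
      | with_reducible apply sub_mem
      | with_reducible apply mul_mem
      | with_reducible apply pow_mem
  · subst hw
    linear_combination A + ((2 * y + 1) * z + 3 * x ^ 2 * z ^ 2) * hu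
  · repeat first
      | with_reducible assumption
      | with_reducible exact one_mem _
      | with_reducible apply add_mem
      | with_reducible apply sub_mem
      | with_reducible apply mul_mem
      | with_reducible apply pow_mem
  · linear_combination A
  · repeat first
      | with_reducible assumption
      | with_reducible exact one_mem _
      | with_reducible apply add_mem
      | with_reducible apply sub_mem
      | with_reducible apply mul_mem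
      | with_reducible apply pow_mem
  · subst hw
    linear_combination (-l * (1 - x * u * z ^ 2)) * A - ((2 * y + 1) * u + 3 * x ^ 2 * u * z -
      (x ^ 3 + y) * u ^ 2 * z ^ 3) * hl + (2 * y + 1) * hu

theorem EXP_pf : EXP_st := fun V Y P hY hP => by
  obtain ⟨h1, h2, h3⟩ := main_AEXP V Y P hY hP
  refine ⟨h1, ?_, h2, h3⟩
  have h4 := (main_AEXP V (-Y) P (fun e => hY (neg_neg Y ▸ E1n e)) hP).1
  rw [(xc_neg Y).1, (xc_neg Y).2 (not_E1.1 hY).1, ← (xc_neg (-Y + P)).1, neg_add, neg_neg,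
    ← sub_eq_add_neg] at h4
  convert h4 using 2
  ring

end Pool.Agent.MP_e23604_nt.W

end

section

set_option autoImplicit false

open Module Filter Topology Finset
open scoped Classical

namespace Pool.Agent.MP_e23604_nt.S

open B R
open Q (Wn)

theorem good_SGA : Good 0 1 := ⟨one_ne_zero, by norm_num⟩

theorem on_SGA {b : ℚ} {x y : Qb} (h : On 0 b x y) : On 0 b (w3 * x) y := by
  unfold On at h ⊢
  push_cast at h ⊢
  linear_combination h - x ^ 3 * w3_cube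

theorem gal_SGA {b : ℚ} (hb : Good 0 b) (g : GQ) {x y : Qb} (h : On 0 b x y) :
    On 0 b (g x) (g y) ∧ galQ (E3 0 b) g (pt 0 b x y) = pt 0 b (g x) (g y) :=
  ⟨h.map (g : Qb →+* Qb), act_pt hb (g : Qb →+* Qb) h⟩

theorem psi_SGA {b : ℚ} (hb : Good 0 b) {u : Qb} (hu : u ^ 3 = b) :
    ∃ Ψ : Pts (E3 0 b) Qb ≃+ Pts (E3 0 1) Qb, ∀ x y, On 0 b x y →
      On 0 1 (x / u ^ 2) (y / u ^ 3) ∧ Ψ (pt 0 b x y) = pt 0 1 (x / u ^ 2) (y / u ^ 3) := by
  have h0 : u ≠ 0 := by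
    rintro rfl
    exact hb.bF (F := Qb) (by rw [← hu, zero_pow three_ne_zero])
  obtain ⟨Ψ, hΨ⟩ := vc_equiv ((E3 0 b).baseChange Qb) ((E3 0 1).baseChange Qb)
    ⟨Units.mk0 u h0, 0, 0, 0⟩ (by
      ext <;> simp [E3, WeierstrassCurve.baseChange, WeierstrassCurve.variableChange_a₁,
        WeierstrassCurve.variableChange_a₂, WeierstrassCurve.variableChange_a₃,
        WeierstrassCurve.variableChange_a₄, WeierstrassCurve.variableChange_a₆]
      rw [← hu, inv_mul_cancel₀ (pow_ne_zero _ h0)])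
  refine ⟨Ψ, fun x y h => ?_⟩
  obtain ⟨h', e⟩ := hΨ x y ((ns_iff hb x y).2 h)
  simp only [sub_zero, zero_mul, Units.val_mk0] at h' e
  have h1 := (ns_iff good_SGA _ _).1 h'
  exact ⟨h1, by rw [pt_eq hb h, pt_eq good_SGA h1]; exact e⟩

theorem tors_SGA {l : ℕ} [hl : Fact l.Prime] {γ g : GQ} (h3 : l ≠ 3) (hg : g ∈ Ine l γ) {k : ℕ}
    {P : Pts (E3 0 1) Qb} (hP : 3 ^ k • (galQ (E3 0 1) g P - P) = 0) : galQ (E3 0 1) g P = P := by
  have h4 : nv l γ 3 = 1 := by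
    exact_mod_cast v_coprime (nv_na l γ) hl.out (nv_lt l γ) (n := 3) fun e =>
      h3 ((Nat.prime_dvd_prime_iff_eq hl.out Nat.prime_three).1 (by exact_mod_cast e))
  have hW : Intg (nv l γ) ((E3 0 1).baseChange Qb) := by
    simp [Intg, E3, WeierstrassCurve.baseChange]
  have hΔ : nv l γ ((E3 0 1).baseChange Qb).Δ = 1 := by
    have : ((E3 0 1).baseChange Qb).Δ = -3 ^ 3 := by
      have e : ((E3 0 1).baseChange Qb).Δ = ((E3 0 1).Δ : Qb) := by
        simp [WeierstrassCurve.baseChange]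
      rw [e, E3_Δ]
      norm_num
    rw [this, (nv l γ).map_neg, map_pow, h4, one_pow]
  refine sub_eq_zero.1 (E1_tors (nv_na l γ) hW (inr_E1 _ (nv_na l γ) hW hΔ hg P)
    (n := (3 ^ k : ℕ)) ?_ ?_)
  · push_cast
    rw [map_pow, h4, one_pow]
  · rw [natCast_zsmul, hP]

theorem GA_pf (hKAP : KAP_st) (hTAM : TAM_st) : GA_st := by
  intro D n J hD hJ hC hn
  have hb := good_D hD
  have hD' : (D : ℚ) ≠ 0 := hb.hb
  have hu := cbr_cube (D : ℚ)
  have h0 : cbr (D : ℚ) ≠ 0 := fun e => hb.bF (F := Qb) (by rw [← hu, e, zero_pow three_ne_zero])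
  obtain ⟨Ψ, hΨ⟩ := psi_SGA hb hu
  have hk : ∀ (l : ℕ) [Fact l.Prime] (γ : GQ), l ≠ 3 → ∀ τ ∈ Ine l γ,
      kum D τ = (D.factorization l : ZMod 3) * kum l τ := fun l hl γ h3 τ hτ => by
    rw [hKAP.2.2.2.2.1 l γ D h3 hD' τ hτ, padicValRat.of_nat, Nat.factorization_def D hl.out,
      Int.cast_natCast]
  refine ⟨fun u => ?_, fun g hg u => ?_, fun g hg u => ?_, fun g _ u hu' => ?_,
    fun l hl γ h3 hn' τ hτ R k hR => ?_, fun l hl hn' => ?_⟩
  · simp only [gA_apply]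
    rcases pt_cases hb u with rfl | ⟨x, y, h, rfl⟩
    · simp only [map_zero]
      exact Lc.const ⊤ 0
    · simp only [fun g => (gal_SGA hb g h).2]
      exact (Lc.apply ⊤ x).map₂ (Lc.apply ⊤ y) (pt 0 D)
  · simp only [gA_apply]
    rcases pt_cases hb u with rfl | ⟨x, y, h, rfl⟩
    · simp only [map_zero]
    · rw [hJ x y h, (gal_SGA hb g (on_SGA h)).2, (gal_SGA hb g h).2, hJ _ _ (gal_SGA hb g h).1,
        map_mul, mem_GK'.1 hg]
  · simp only [gA_apply]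
    rcases pt_cases hb u with rfl | ⟨x, y, h, rfl⟩
    · simp only [map_zero]
    · rw [hJ x y h, (gal_SGA hb g (on_SGA h)).2, (gal_SGA hb g h).2, hJ _ _ (gal_SGA hb g h).1,
        hJ _ _ (on_SGA (gal_SGA hb g h).1), map_mul, not_mem_GK hg, sq, mul_assoc]
  · have hT : T 0 D Qb ∈ Wn J 1 := W_one.2 (by rw [T, hJ 0 0 on_T, mul_zero])
    exact InT.act_self hb (g : Qb →+* Qb) (hC.one _ hT (T_ne_zero hb) u hu')
  · rw [gA_apply] at hR ⊢
    have h1 : 3 ∣ D.factorization l := by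
      by_contra e
      exact hn' ((hn l hl.out).2 ⟨h3, e⟩)
    have h2 : τ (cbr D) = cbr D := by
      rw [(hKAP.1 D hD').2.2 τ, hk l γ h3 τ hτ, (ZMod.natCast_eq_zero_iff _ 3).2 h1, zero_mul,
        ZMod.val_zero, pow_zero, one_mul]
    have h4 : Ψ (galQ (E3 0 D) τ R) = galQ (E3 0 1) τ (Ψ R) := by
      rcases pt_cases hb R with rfl | ⟨x, y, h, rfl⟩
      · simp only [map_zero]
      · rw [(gal_SGA hb τ h).2, (hΨ _ _ (gal_SGA hb τ h).1).2, (hΨ x y h).2,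
          (gal_SGA good_SGA τ (hΨ x y h).1).2, map_div₀, map_div₀, map_pow, map_pow, h2]
    refine Ψ.injective ?_
    rw [h4]
    refine tors_SGA h3 hτ (k := k) ?_
    rw [← h4, ← map_sub, ← map_nsmul, W_kill hC hR, map_zero]
  · obtain ⟨h3, h1⟩ := (hn l hl.out).1 hn'
    obtain ⟨hG, ⟨σ, hσ, hs⟩, -⟩ := hTAM l 1 h3
    have hl0 : (l : ℚ) ≠ 0 := Nat.cast_ne_zero.2 hl.out.ne_zero
    obtain ⟨τ, hτ, h2, h4⟩ : ∃ τ ∈ Ine l 1, kum l τ ≠ 0 ∧ kum D τ = 2 := by
      rcases z3 (D.factorization l : ZMod 3) with e | e | e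
      · exact absurd ((ZMod.natCast_eq_zero_iff _ 3).1 e) h1
      · have e2 : kum l (σ * σ) = 2 := by
          rw [(hKAP.1 l hl0).1 σ trivial σ trivial, ep_pos (hG hσ), hs]
          rfl
        refine ⟨σ * σ, mul_mem hσ hσ, by rw [e2]; decide, ?_⟩
        rw [hk l 1 h3 _ (mul_mem hσ hσ), e, e2, one_mul]
      · exact ⟨σ, hσ, by rw [hs]; decide, by rw [hk l 1 h3 _ hσ, e, hs, mul_one]⟩
    have h5 : τ (cbr D) = w3 ^ 2 * cbr D := by
      rw [(hKAP.1 D hD').2.2 τ, h4]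
      rfl
    refine ⟨τ, hτ, h2, fun k R hR => ?_⟩
    rw [gA_apply]
    rcases pt_cases hb R with rfl | ⟨x, y, h, rfl⟩
    · simp only [map_zero]
    · have h6 : galQ (E3 0 1) τ (Ψ (pt 0 D x y)) = Ψ (pt 0 D x y) := by
        refine tors_SGA h3 hτ (k := k) ?_
        rw [smul_sub, ← map_nsmul, ← map_nsmul, W_kill hC hR, map_zero, map_zero, sub_zero]
      rw [(hΨ x y h).2, (gal_SGA good_SGA τ (hΨ x y h).1).2] at h6
      obtain ⟨e1, e2⟩ := pt_inj good_SGA (gal_SGA good_SGA τ (hΨ x y h).1).1 (hΨ x y h).1 h6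
      have h7 := mul_ne_zero (pow_ne_zero 2 w3_ne_zero) h0
      rw [map_div₀, map_pow, h5, div_eq_div_iff (pow_ne_zero _ h7) (pow_ne_zero _ h0)] at e1 e2
      have e3 : τ x = w3 * x := mul_right_cancel₀ (pow_ne_zero 2 h0) (by
        linear_combination e1 + x * w3 * cbr D ^ 2 * w3_cube)
      have e4 : τ y = y := mul_right_cancel₀ (pow_ne_zero 3 h0) (by
        linear_combination e2 + y * (w3 ^ 3 + 1) * cbr D ^ 3 * w3_cube)
      rw [(gal_SGA hb τ h).2, hJ x y h, e3, e4]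

end Pool.Agent.MP_e23604_nt.S

end

section

set_option autoImplicit false

open Finset QuadraticAlgebra Polynomial
open scoped Classical

namespace Pool.Agent.MP_e23604_nt.W

open B R S

theorem CU3_pf (hPI : PI_st) : CU3_st := by
  intro g hg
  obtain ⟨-, p2, p3, p4, -⟩ := hPI
  obtain ⟨z, hz⟩ := IsAlgClosed.exists_pow_nat_eq w3 three_pos
  have h : z ^ 6 + z ^ 3 + 1 = 0 := by linear_combination w3_spec + (z ^ 3 + w3 + 1) * hz
  obtain ⟨x, hx⟩ : ∃ x, x = 1 - z ^ 4 - z ^ 5 := ⟨_, rfl⟩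
  obtain ⟨y, hy⟩ : ∃ y, y = 1 + z - z ^ 2 - z ^ 4 - 2 * z ^ 5 := ⟨_, rfl⟩
  have e1 : y ^ 2 + y = x ^ 3 := by
    subst hx hy
    linear_combination (1 + 3 * z - 2 * z ^ 2 - 3 * z ^ 3 - 2 * z ^ 4 - 3 * z ^ 5 + 3 * z ^ 7 +
      3 * z ^ 8 + z ^ 9) * h
  have e2 : x ^ 3 - 3 * x ^ 2 + 1 = 0 := by
    subst hx
    linear_combination (-1 + z ^ 3 + 3 * z ^ 4 + 3 * z ^ 5 - 3 * z ^ 7 - 3 * z ^ 8 - z ^ 9) * h
  have e3 : y - w3 ^ 2 = (1 + 2 * w3) * x * z ^ 7 := by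
    subst hx hy
    rw [← hz]
    linear_combination (1 + z - z ^ 2 - z ^ 3 - 2 * z ^ 4 - z ^ 5 - z ^ 6 + 2 * z ^ 8 +
      2 * z ^ 9) * h
  have e4 : y * ((1 - z) ^ 2 * (1 + z)) ^ 3 = 3 := by
    subst hy
    linear_combination (-2 - 2 * z - 4 * z ^ 2 + 13 * z ^ 3 + 3 * z ^ 4 - 15 * z ^ 5 + 3 * z ^ 6 +
      5 * z ^ 7 - 2 * z ^ 8) * h
  have e5 : (z ^ 7) ^ 4 = z := by linear_combination z * (z ^ 18 + z ^ 9 + 1) * (z ^ 3 - 1) * h
  have x0 : x ≠ 0 := by rintro rfl; simp at e2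
  have hP := on_iff.2 e1
  obtain ⟨P', hP'⟩ := smul_onto pw_ne (pt 0 1 x y)
  have k1 : (3 : Zw) • pw • pt 0 1 x y = 0 := by
    rw [p4, (p3 _ (by rwa [xc_pt hP])).1, xc_pt hP]
    right
    rw [show (x ^ 3 + 1) / (-3 * x ^ 2) = -1 by field_simp; linear_combination -e2]
    norm_num
  have k2 : gal g P' = P' := hg.2 _ (by
    rw [show (9 : Zw) = -1 * (3 * (pw * pw)) by decide, mul_smul, mul_smul, mul_smul, hP', k1,
      smul_zero])
  have k3 : gal g (pt 0 1 x y) = pt 0 1 x y := by rw [← hP', gal_smul hg.1, k2]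
  have f : ∀ P, gal g P = P → g (xc P) = xc P ∧ g (yc P) = yc P := fun P e => by
    rw [← (xc_gal g P).1, ← (xc_gal g P).2, e]
    exact ⟨rfl, rfl⟩
  have fw := mem_GK'.1 hg.1
  have f' : ∀ P, gal g P = P → g ((yc P - w3 ^ 2) / (io pw * xc P)) =
      (yc P - w3 ^ 2) / (io pw * xc P) := fun P e => by
    rw [map_div₀, map_sub, map_pow, map_mul, fw, (f P e).1, (f P e).2, io_fix hg.1]
  have k4 : g z = z := by
    have := f' _ k3
    rw [xc_pt hP, yc_pt hP, e3, ← io_pw,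
      mul_div_cancel_left₀ _ (mul_ne_zero (io_ne pw_ne) x0)] at this
    rw [← e5, map_pow, this]
  have k5 := (p3 P' fun e => pt_ne_zero G01 hP (hP' ▸ (p2 P').2 e)).2
  rw [hP', yc_pt hP] at k5
  refine ⟨(yc P' - w3 ^ 2) / (io pw * xc P') * ((1 - z) ^ 2 * (1 + z)), by
    rw [mul_pow, ← k5, e4], ?_⟩
  simp only [map_mul, f' P' k2, map_pow, map_sub, map_add, map_one, k4]

theorem FAC_pf (h3 : CU3_st) (hL : CUL_st) : FAC_st := by
  intro D r hD hr h g hg
  let Cu : Qb → Prop := fun t => ∃ ξ, ξ ^ 3 = t ∧ g ξ = ξ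
  have mul : ∀ s t, Cu s → Cu t → Cu (s * t) := by
    rintro _ _ ⟨a, rfl, ha⟩ ⟨b, rfl, hb⟩
    exact ⟨a * b, mul_pow _ _ _, by rw [map_mul, ha, hb]⟩
  have zp : ∀ s (k : ℤ), Cu s → Cu (s ^ k) := by
    rintro _ k ⟨a, rfl, ha⟩
    exact ⟨a ^ k, by rw [← zpow_natCast, ← zpow_mul, mul_comm, zpow_mul, zpow_natCast],
      by rw [map_zpow₀, ha]⟩
  have c3 : Cu 3 := h3 g (UM_mono (dvd_mul_right _ _) hg)
  have cl : ∀ l : ℕ, l.Prime → l ≠ 3 → l ∣ r → Cu l := fun l hl l3 e => by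
    obtain ⟨ξ, k, e1, e2⟩ := hL l hl l3 g
      (UM_mono ((Nat.cast_dvd_cast e).trans (dvd_mul_left _ _)) hg)
    have l0 : (l : Qb) ≠ 0 := Nat.cast_ne_zero.2 hl.ne_zero
    have k1 : Cu ((l : Qb) ^ 2) := by
      have := mul _ _ ⟨ξ, e1, e2⟩ (zp 3 (-k) c3)
      rwa [mul_assoc, ← zpow_add₀ three_ne_zero, add_neg_cancel, zpow_zero, mul_one] at this
    have := mul _ _ (mul _ _ k1 k1) ⟨(l : Qb)⁻¹, rfl, by simp⟩
    convert this using 1
    field_simp
  have cD : Cu (D : ℚ) := by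
    rw [Rat.cast_natCast, ← Nat.prod_factorization_pow_eq_self hD, Finsupp.prod, Nat.cast_prod]
    refine prod_induction _ Cu mul ⟨1, by simp⟩ fun l hl => ?_
    have hp := Nat.prime_of_mem_primeFactors hl
    rw [Nat.cast_pow]
    by_cases l3 : l = 3
    · subst l3
      exact_mod_cast zp 3 (D.factorization 3) c3
    by_cases e : 3 ∣ D.factorization l
    · obtain ⟨k, hk⟩ := e
      exact ⟨l ^ k, by rw [hk, ← pow_mul, mul_comm], by simp⟩
    · exact_mod_cast zp l (D.factorization l) (cl l hp l3 (h l hp l3 e))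
  obtain ⟨ξ, e1, e2⟩ := cD
  have D0 : ((D : ℚ) : Qb) ≠ 0 := by exact_mod_cast hD
  have x0 : ξ ≠ 0 := fun e => D0 (by rw [← e1, e, zero_pow three_ne_zero])
  have c0 : cbr D ≠ 0 := fun e => D0 (by rw [← cbr_cube, e, zero_pow three_ne_zero])
  have := hg.1 (cbr D / ξ) (by rw [div_pow, cbr_cube, e1, div_self D0])
  rw [map_div₀, e2, div_left_inj' x0] at this
  rw [kum, this, div_self c0, lg, if_pos rfl]

theorem wpow_AFAC (i : ℕ) {x y : Qb} (h : On 0 1 x y) :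
    On 0 1 (w3 ^ i * x) y ∧ (ω : Zw) ^ i • pt 0 1 x y = pt 0 1 (w3 ^ i * x) y := by
  induction i with
  | zero => simpa using h
  | succ i ih =>
    rw [pow_succ', pow_succ', mul_smul, ih.2, w_pt ih.1, mul_assoc]
    exact ⟨on_w ih.1, rfl⟩

theorem ISO_pf : ISO_st := by
  intro D hD
  have D0 : ((D : ℚ) : Qb) ≠ 0 := by exact_mod_cast hD
  have hG : Good 0 D := ⟨by exact_mod_cast hD, by simpa using hD⟩
  have c0 : cbr D ≠ 0 := fun e => D0 (by rw [← cbr_cube, e, zero_pow three_ne_zero])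
  obtain ⟨Ψ, hΨ⟩ := psi_SGA hG (cbr_cube D)
  simp only [cbr_cube, Rat.cast_natCast] at hΨ
  refine ⟨Ψ, hΨ, fun g hg P => ?_⟩
  rcases pt_cases hG P with rfl | ⟨x, y, h, rfl⟩
  · simp
  have e : g (cbr D) = w3 ^ (kum D g).val * cbr D := by
    rw [kum, pow_lg (by rw [div_pow, ← map_pow, cbr_cube, map_ratCast, div_self D0]),
      div_mul_cancel₀ _ c0]
  have e' : ∀ k : ZMod 3, w3 ^ (2 * k).val = (w3 ^ k.val) ^ 2 := fun k => by
    rw [← pow_mul, pow_eq_pow_mod (k.val * 2) w3_cube]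
    congr 1
    revert k
    decide
  rw [(gal_SGA hG g h).2, (hΨ _ _ (gal_SGA hG g h).1).2, (hΨ _ _ h).2, eta_apply,
    gal_pt g (hΨ _ _ h).1, (wpow_AFAC _ (x := g _) (y := g _)
      ((hΨ _ _ h).1.map (g : Qb →+* Qb))).2, e']
  congr 1
  · simp only [map_div₀, map_pow, e]
    have := w3_ne_zero
    field_simp
  · simp

end Pool.Agent.MP_e23604_nt.W

end

section

/-!
The statements on complex multiplication, collected.
-/

set_option autoImplicit false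

namespace Pool.Agent.MP_e23604_nt.W

theorem POLY_ok : POLY_st := POLY_pf PSTEP_pf
theorem CARD_ok : CARD_st := CARD_pf POLY_ok
theorem QUO_ok : QUO_st := QUO_pf
theorem MAST_ok : MAST_st := MAST_pf CARD_ok
theorem BPR_ok : BPR_st := BPR_pf CARD_ok
theorem CYG_ok : CYG_st := CYG_pf CARD_ok
theorem PI_ok : PI_st := PI_pf
theorem PS_ok : PS_st := PS_pf CYG_ok PI_ok
theorem THI_ok : THI_st := THI_pf
theorem NRF_ok : NRF_st := NRF_pf POLY_ok PBASE_pf MAST_ok BPR_ok CARD_ok PI_ok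
theorem NRM1_ok : NRM1_st := NRM1_pf POLY_ok CARD_ok NRF_ok
theorem TH0_ok : TH0_st := TH0_pf PBASE_pf CARD_ok PI_ok NRM1_ok THI_ok
theorem IDN_ok : IDN_st := IDN_pf POLY_ok MAST_ok BPR_ok CARD_ok NRF_ok
theorem UNIT_ok : UNIT_st := UNIT_pf POLY_ok BPR_ok TH0_ok
theorem CLO_ok : CLO_st := CLO_pf
theorem SEP_ok : SEP_st := SEP_pf
theorem EXP_ok : EXP_st := EXP_pf
theorem TAY_ok : TAY_st := TAY_pf SEP_ok EXP_ok THI_ok
theorem CONG_ok : CONG_st := CONG_pf TAY_ok UNIT_ok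
theorem FML_ok : FML_st := FML_pf
theorem DIV_ok : DIV_st := DIV_pf (NXT_pf POLY_ok MAST_ok CARD_ok) FML_ok
theorem FRB_ok : FRB_st := FRB_pf POLY_ok MAST_ok CARD_ok CYG_ok PI_ok EXP_ok CLO_ok
theorem INE_ok : INE_st := INE_pf
theorem DIST_ok : DIST_st := DIST_pf CYG_ok
theorem FAC_ok : FAC_st := FAC_pf (CU3_pf PI_ok) (CUL_pf UNIT_ok)
theorem ISO_ok : ISO_st := ISO_pf
theorem SURJ_of (hK : PLK_st) (hR : FRK_st) : SURJ_st := SURJ_pf FRB_ok hK hR
theorem ORB_of (hK : PLK_st) (hR : FRK_st) : ORB_st := ORB_pf CYG_ok PS_ok (SURJ_of hK hR)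
theorem RAMQ_of (hK : PLK_st) : RAMQ_st := RAMQ_pf CARD_ok CYG_ok UNIT_ok FRB_ok hK
theorem CYC1_of (hH : CHB_st) (hM : KM_st) : CYC1_st := CYC1_pf PS_ok FRB_ok hH hM
theorem LZ_of (hH : CHB_st) (hM : KM_st) : LZ_st := LZ_pf PS_ok (CYC1_of hH hM) INE_ok

end Pool.Agent.MP_e23604_nt.W

end

section

/-!
The congruence relation for the second family of Heegner points.
-/

set_option autoImplicit false

open Finset QuadraticAlgebra
open scoped Classical

namespace Pool.Agent.MP_e23604_nt.Un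

open B R S W

/-- the congruence relation at an inert prime -/
def NCONG_st : Prop := ∀ (V : Plc) (f : GQ) (k : ℕ) (C : AddSubgroup Pt) (R : Pt),
  V.l % 3 = 2 → Frob V.l V.γ f → ND C → ¬ V.l ∣ cd C → (V.l : Zw) • R = 0 → R ≠ 0 →
  ND (C ⊔ AddSubgroup.zmultiples R) ∧ cd (C ⊔ AddSubgroup.zmultiples R) = V.l * cd C ∧
    E1 V.v (ny k (C ⊔ AddSubgroup.zmultiples R) - (ω : Zw) ^ (kum 3 f).val • gal f (ny k C))

namespace NC

/-- congruent integral elements -/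
def Cg (V : Plc) (a b : Qb) : Prop := V.v a ≤ 1 ∧ V.v b ≤ 1 ∧ V.v (a - b) < 1

namespace Cg

variable {V : Plc} {a b c d : Qb}

theorem mk' (h : V.v b ≤ 1) (e : V.v (a - b) < 1) : Cg V a b :=
  ⟨by simpa using bLocA_add_le V.na e.le h, h, e⟩

theorem rfl' (h : V.v a ≤ 1) : Cg V a a := ⟨h, h, by simp⟩

theorem symm (h : Cg V a b) : Cg V b a := ⟨h.2.1, h.1, by rw [V.v.map_sub]; exact h.2.2⟩

theorem trans (h : Cg V a b) (h' : Cg V b c) : Cg V a c :=
  ⟨h.1, h'.2.1, by simpa using bLocA_add_lt V.na h.2.2 h'.2.2⟩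

theorem add (h : Cg V a b) (h' : Cg V c d) : Cg V (a + c) (b + d) :=
  ⟨bLocA_add_le V.na h.1 h'.1, bLocA_add_le V.na h.2.1 h'.2.1, by
    convert bLocA_add_lt V.na h.2.2 h'.2.2 using 2; ring⟩

theorem mul (h : Cg V a b) (h' : Cg V c d) : Cg V (a * c) (b * d) :=
  ⟨bLocA_mul_one h.1 h'.1, bLocA_mul_one h.2.1 h'.2.1, by
    convert bLocA_add_lt V.na ((bLocA_mul_le h.1).trans_lt h'.2.2)
      ((bLocA_mul_le h'.2.1).trans_lt h.2.2) using 2; ring⟩

theorem one : Cg V 1 1 := rfl' (by simp)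

theorem prod {ι : Type} {s : Finset ι} {f g : ι → Qb} (h : ∀ i ∈ s, Cg V (f i) (g i)) :
    Cg V (∏ i ∈ s, f i) (∏ i ∈ s, g i) := by
  induction s using Finset.induction_on with
  | empty => simpa using one
  | insert i s hi ih =>
    rw [prod_insert hi, prod_insert hi]
    exact (h i (mem_insert_self _ _)).mul (ih fun j hj => h j (mem_insert_of_mem hj))

theorem pow (h : Cg V a b) (n : ℕ) : Cg V (a ^ n) (b ^ n) := by
  simpa using prod (s := range n) (f := fun _ => a) (g := fun _ => b) fun _ _ => h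

theorem unit (h : Cg V a b) (e : V.v b = 1) : V.v a = 1 := by
  have := bLocA_add_eq V.na (a := b) (b := a - b) (e ▸ h.2.2)
  rwa [add_sub_cancel, e] at this

theorem inv (h : Cg V a b) (e : V.v b = 1) : Cg V a⁻¹ b⁻¹ := by
  have e' := h.unit e
  have a0 : a ≠ 0 := fun x => by simp [x] at e'
  have b0 : b ≠ 0 := fun x => by simp [x] at e
  refine ⟨by simp [e'], by simp [e], ?_⟩
  rw [inv_sub_inv a0 b0, map_div₀, map_mul, e, e', V.v.map_sub]
  simpa using h.2.2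

theorem div (h : Cg V a b) (h' : Cg V c d) (e : V.v d = 1) : Cg V (a / c) (b / d) := by
  simpa only [div_eq_mul_inv] using h.mul (h'.inv e)

theorem root (h : Cg V (a ^ 2) (b ^ 2)) (h' : Cg V ((a + 1) ^ 2) ((b + 1) ^ 2)) : Cg V a b := by
  have k : ∀ x : Qb, V.v (x ^ 2) ≤ 1 → V.v x ≤ 1 := fun x e => by
    rw [map_pow] at e
    exact (pow_le_one_iff_of_nonneg (V.v.nonneg _) two_ne_zero).1 e
  refine ⟨k _ h.1, k _ h.2.1, lt_of_not_ge fun e => ?_⟩
  have k2 : ∀ x : Qb, V.v ((a - b) * x) < 1 → V.v x < 1 := fun x e' => by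
    rw [map_mul] at e'
    nlinarith [V.v.nonneg x]
  have h1 := k2 (a + b) (by convert h.2.2 using 2; ring)
  have h2 := k2 (a + b + 2) (by convert h'.2.2 using 2; ring)
  have h3 : V.v (b * 2) < 1 :=
    (bLocA_mul_le (k _ h.2.1)).trans_lt (by simpa using bLocA_sub_lt V.na h2 h1)
  exact absurd (bLocA_sub_lt V.na h1 h3) (by rw [show a + b - b * 2 = a - b by ring]; exact not_lt.2 e)

end Cg

section

variable {V : Plc} {C : AddSubgroup Pt} {R : Pt}

theorem cd_eq (h : (C : Set Pt).Finite) : cd C = Nat.card C := by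
  rw [cd, els, dif_pos h]
  exact (Set.ncard_eq_toFinset_card _ h).symm

theorem cd_smul (h : (C : Set Pt).Finite) {T : Pt} (hT : T ∈ C) : (cd C : Zw) • T = 0 := by
  rw [Nat.cast_smul_eq_nsmul, cd_eq h]
  exact congrArg Subtype.val (card_nsmul_eq_zero' (G := C) (x := ⟨T, hT⟩))

theorem E1_l (h3 : V.l % 3 = 2) (hR : (V.l : Zw) • R = 0) : E1 V.v R := by
  refine (FRB_ok V (-V.l) ⟨(inert_prime V.hl.out h3).neg, ⟨-((V.l / 3 : ℕ) + 1), ?_⟩⟩
    ((Ov_l V).dvd (dvd_neg.2 dvd_rfl))).1 R (by rw [neg_smul, hR, neg_zero])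
  have : (V.l : Zw) = (3 * (V.l / 3) + 2 : ℕ) := by rw [← h3, Nat.div_add_mod]
  rw [this]
  push_cast
  ring

theorem not_Ov_nat {n : ℕ} (h : ¬ V.l ∣ n) : ¬ Ov V n :=
  (Ov_l V).cop (Nat.Coprime.cast ((Nat.Prime.coprime_iff_not_dvd V.hl.out).2 h))

theorem card_line {l : ℕ} (hl : l.Prime) (hR : (l : Zw) • R = 0) (h0 : R ≠ 0) :
    ((AddSubgroup.zmultiples R : AddSubgroup Pt) : Set Pt).Finite ∧
      cd (AddSubgroup.zmultiples R) = l := by
  rw [Nat.cast_smul_eq_nsmul] at hR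
  have := Fact.mk hl
  have e : Nat.card (AddSubgroup.zmultiples R) = l := by
    rw [Nat.card_zmultiples, addOrderOf_eq_prime hR h0]
  have f : Finite (AddSubgroup.zmultiples R) := Nat.finite_of_card_ne_zero (e ▸ hl.ne_zero)
  exact ⟨f, (cd_eq f).trans e⟩

/-- products over a direct sum of subgroups -/
theorem els_sup {L : AddSubgroup Pt} (h : (C : Set Pt).Finite) (h' : (L : Set Pt).Finite)
    (d : ∀ T ∈ C, T ∈ L → T = 0) : ((C ⊔ L : AddSubgroup Pt) : Set Pt).Finite ∧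
    ∀ (A : Type) [CommMonoid A] (F : Pt → A),
      ∏ T ∈ els (C ⊔ L), F T = ∏ T ∈ els C, ∏ S ∈ els L, F (T + S) := by
  have f : ((C ⊔ L : AddSubgroup Pt) : Set Pt).Finite :=
    (h.image2 (· + ·) h').subset fun T hT => by
      obtain ⟨a, ha, b, hb, e⟩ := AddSubgroup.mem_sup.1 hT
      exact ⟨a, ha, b, hb, e⟩
  refine ⟨f, fun A _ F => ?_⟩
  rw [← prod_product']
  refine (prod_nbij (fun p : Pt × Pt => p.1 + p.2) (fun p hp => ?_) (fun p hp q hq e => ?_)
    (fun T hT => ?_) fun _ _ => rfl).symm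
  · rw [mem_product, mem_els h, mem_els h'] at hp
    exact (mem_els f).2 (AddSubgroup.add_mem_sup hp.1 hp.2)
  · rw [mem_coe, mem_product, mem_els h, mem_els h'] at hp hq
    have e1 : p.1 - q.1 = q.2 - p.2 := by
      rw [sub_eq_sub_iff_add_eq_add, add_comm q.2]; exact e
    have e2 := d _ (sub_mem hp.1 hq.1) (e1 ▸ sub_mem hq.2 hp.2)
    exact Prod.ext (sub_eq_zero.1 e2) (sub_eq_zero.1 (e1 ▸ e2)).symm
  · obtain ⟨a, ha, b, hb, e⟩ := AddSubgroup.mem_sup.1 ((mem_els f).1 hT)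
    exact ⟨(a, b), mem_coe.2 (mem_product.2 ⟨(mem_els h).2 ha, (mem_els h').2 hb⟩), e⟩

theorem cd_sup {L : AddSubgroup Pt} (h : (C : Set Pt).Finite) (h' : (L : Set Pt).Finite)
    (d : ∀ T ∈ C, T ∈ L → T = 0) : cd (C ⊔ L) = cd L * cd C := by
  have := (els_sup h h' d).2 ℕ fun _ => 2
  rw [prod_const, prod_const, prod_const, ← pow_mul] at this
  exact Nat.pow_right_injective le_rfl this

theorem kk_eq (h : (C : Set Pt).Finite) (z : Qb) :
    kk C z = ∏ T ∈ els C, if T = 0 then 1 else z - xc T := by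
  rw [← mul_prod_erase _ _ ((mem_els h).2 C.zero_mem), if_pos rfl, one_mul]
  exact prod_congr rfl fun T hT => (if_neg (ne_of_mem_erase hT)).symm

theorem kk_sup {L : AddSubgroup Pt} (h : (C : Set Pt).Finite) (h' : (L : Set Pt).Finite)
    (d : ∀ T ∈ C, T ∈ L → T = 0) (z : Qb) :
    kk (C ⊔ L) z = kk L z * ∏ T ∈ (els C).erase 0, ∏ S ∈ els L, (z - xc (T + S)) := by
  rw [kk_eq (els_sup h h' d).1, (els_sup h h' d).2,
    ← mul_prod_erase _ _ ((mem_els h).2 C.zero_mem), kk_eq h']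
  simp only [zero_add]
  congr 1
  refine prod_congr rfl fun T hT => prod_congr rfl fun S hS => if_neg fun e => ?_
  rw [mem_erase, mem_els h] at hT
  exact hT.1 (d T hT.2 (eq_neg_of_add_eq_zero_left e ▸ neg_mem ((mem_els h').1 hS)))

/-- the data of the congruence -/
structure CD (V : Plc) (C : AddSubgroup Pt) (R : Pt) : Prop where
  l3 : V.l % 3 = 2
  nd : ND C
  nl : ¬ V.l ∣ cd C
  lR : (V.l : Zw) • R = 0
  R0 : R ≠ 0

theorem CD.three (h : CD V C R) : ¬ Ov V 3 :=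
  not_Ov_nat (n := 3) fun e => by
    have := (Nat.prime_dvd_prime_iff_eq V.hl.out Nat.prime_three).1 e
    have := h.l3
    omega

theorem CD.line (h : CD V C R) {S : Pt} (hS : S ∈ AddSubgroup.zmultiples R) : E1 V.v S := by
  obtain ⟨n, rfl⟩ := AddSubgroup.mem_zmultiples_iff.1 hS
  exact (E1_zsmul V.na (intg_EQ _) (E1_l h.l3 h.lR) n).1

theorem CD.nE1 (h : CD V C R) {T : Pt} (hT : T ∈ C) (e : E1 V.v T) : T = 0 :=
  E1_tor e (not_Ov_nat h.nl) (cd_smul h.nd.fin hT)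

theorem CD.dis (h : CD V C R) : ∀ T ∈ C, T ∈ AddSubgroup.zmultiples R → T = 0 :=
  fun _ hT e => h.nE1 hT (h.line e)

theorem CD.sup (h : CD V C R) : ND (C ⊔ AddSubgroup.zmultiples R) ∧
    cd (C ⊔ AddSubgroup.zmultiples R) = V.l * cd C := by
  obtain ⟨f, e⟩ := card_line V.hl.out h.lR h.R0
  have k := cd_sup h.nd.fin f h.dis
  rw [e] at k
  refine ⟨⟨(els_sup h.nd.fin f h.dis).1, fun d => ?_⟩, k⟩
  rcases (Nat.prime_three.dvd_mul).1 (k ▸ d) with d | d
  · have := h.l3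
    omega
  · exact h.nd.c3 d

theorem CD.pi (h : CD V C R) : CD V (mC pw C) (pw • R) := by
  have f : ((mC pw C : AddSubgroup Pt) : Set Pt).Finite := h.nd.fin.image _
  have d : cd (mC pw C) ∣ cd C := by
    rw [cd_eq f, cd_eq h.nd.fin]
    exact AddSubgroup.card_map_dvd _ _
  exact ⟨h.l3, ⟨f, fun e => h.nd.c3 (e.trans d)⟩, fun e => h.nl (e.trans d),
    by rw [smul_comm, h.lR, smul_zero],
    fun e => h.R0 (E1_tor (E1_l h.l3 h.lR) (fun k => h.three (Ov_three.2 k)) e)⟩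

theorem CD.kk0 (h : CD V C R) : V.v (kk C 0) = 1 := by
  rw [kk, map_prod]
  refine prod_eq_one fun T hT => ?_
  rw [mem_erase, mem_els h.nd.fin] at hT
  have := SEP_ok (cd C) V T0 T (fun e => h.nd.c3 (Nat.prime_three.dvd_of_dvd_pow
    (nn_nat _ ▸ pw_dvd_iff.1 e))) (not_Ov_nat h.nl) Gd_T0 (cd_smul h.nd.fin hT.2) hT.1
  rw [v_nine h.three, xc_T0.1] at this
  exact le_antisymm this.2 this.1

theorem CD.kkL (h : CD V C R) {z : Qb} (hz : V.v z ≤ 1) : kk (AddSubgroup.zmultiples R) 0 ≠ 0 ∧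
    Cg V (kk (C ⊔ AddSubgroup.zmultiples R) z / kk (AddSubgroup.zmultiples R) 0)
      (kk C z ^ V.l) ∧ V.v (kk C z) ≤ 1 := by
  obtain ⟨f, e⟩ := card_line V.hl.out h.lR h.R0
  have k : ∀ S ∈ (els (AddSubgroup.zmultiples R)).erase 0, 1 < V.v (0 - xc S) := fun S hS => by
    rw [mem_erase, mem_els f] at hS
    rw [zero_sub, V.v.map_neg]
    exact ((E1_iff _ _).1 (h.line hS.2)).resolve_left hS.1
  have k0 : ∀ S ∈ (els (AddSubgroup.zmultiples R)).erase 0, 0 - xc S ≠ 0 := fun S hS e => by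
    have := k S hS
    rw [e, map_zero] at this
    linarith
  have k1 : Cg V (kk (AddSubgroup.zmultiples R) z / kk (AddSubgroup.zmultiples R) 0) 1 := by
    rw [kk, kk, ← prod_div_distrib]
    refine prod_const_one (M := Qb) ▸ Cg.prod (g := fun _ => 1) fun S hS => Cg.mk' (by simp) ?_
    rw [div_sub_one (k0 S hS), map_div₀, div_lt_one (one_pos.trans (k S hS))]
    exact lt_of_le_of_lt (by simpa using hz) (k S hS)
  have k2 : ∀ T ∈ (els C).erase 0, ¬ E1 V.v T := fun T hT e => by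
    rw [mem_erase, mem_els h.nd.fin] at hT
    exact hT.1 (h.nE1 hT.2 e)
  have k3 : ∀ T ∈ (els C).erase 0, V.v (z - xc T) ≤ 1 := fun T hT =>
    bLocA_sub_le V.na hz (not_E1.1 (k2 T hT)).2
  refine ⟨prod_ne_zero_iff.2 k0, ?_, (Cg.prod fun T hT => Cg.rfl' (k3 T hT)).1⟩
  rw [kk_sup h.nd.fin f h.dis, mul_div_right_comm, ← one_mul (kk C z ^ V.l),
    show kk C z ^ V.l = _ from (prod_pow _ _ _).symm]
  refine k1.mul (Cg.prod fun T hT => ?_)
  rw [← e, cd, ← prod_const]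
  refine Cg.prod fun S hS => Cg.mk' (k3 T hT) ?_
  have hS' := h.line ((mem_els f).1 hS)
  rw [sub_sub_sub_cancel_left, V.v.map_sub]
  exact (EXP_ok V T S (k2 T hT) hS').2.2.1.trans_lt (zz_lt hS')

theorem nX_eq {k : ℕ} (h : nB C ≠ 0) (h0 : nY k C ^ 2 * nE k C 2 = nE k C 0)
    (h1 : (nY k C + 1) ^ 2 * nE k C 2 = nE k C 1) :
    nX k C = nY k C * (nY k C + 1) * (nE k C 2 / nB C) := by
  rw [nX, ← h0, ← h1]
  field_simp
  ring

theorem w_pow_pt {x y : Qb} (h : On 0 1 x y) (j : ℕ) :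
    On 0 1 (w3 ^ j * x) y ∧ (ω : Zw) ^ j • pt 0 1 x y = pt 0 1 (w3 ^ j * x) y := by
  induction j with
  | zero => simpa using h
  | succ j ih =>
    rw [pow_succ', pow_succ', mul_assoc, mul_smul, ih.2, w_pt ih.1]
    exact ⟨on_w ih.1, rfl⟩

end

end NC

open NC

theorem NCONG_of (H : NON_st) : NCONG_st := by
  intro V f k C R h3 hf hC hl hR h0
  have h : CD V C R := ⟨h3, hC, hl, hR, h0⟩
  refine ⟨h.sup.1, h.sup.2, ?_⟩
  have fr : ∀ {x : Qb}, V.v x ≤ 1 → Cg V (x ^ V.l) (f x) := fun {x} e =>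
    (Cg.mk' (by rw [map_pow]; exact pow_le_one₀ (V.v.nonneg _) e) (hf.2 x e)).symm
  have fv : ∀ x : Qb, V.v (f x) = V.v x := hf.1
  have vw : ∀ i : ℕ, V.v (w3 ^ i) = 1 := fun i => by rw [map_pow, v_w3, one_pow]
  have vw' : ∀ i : ℕ, V.v (-w3 ^ i) ≤ 1 := fun i => by rw [V.v.map_neg, vw]
  have v0 : V.v 0 ≤ 1 := by simp
  have vt : V.v (cbr 3) = 1 := by
    have := congrArg V.v (cbr_cube 3)
    rw [map_pow, Rat.cast_ofNat, v_three h.three] at this
    exact (pow_eq_one_iff_of_nonneg (V.v.nonneg _) three_ne_zero).1 this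
  have hm : mC pw (C ⊔ AddSubgroup.zmultiples R) = mC pw C ⊔ AddSubgroup.zmultiples (pw • R) := by
    rw [mC, AddSubgroup.map_sup, AddMonoidHom.map_zmultiples]
    rfl
  obtain ⟨o, -, -, b0, -, pr, y0, y1⟩ := H k C hC
  obtain ⟨o', -, e0', b0', -, -, y0', y1'⟩ := H k _ h.sup.1
  set C' := C ⊔ AddSubgroup.zmultiples R with hC'
  set lam := kk (AddSubgroup.zmultiples R) 0 * kk (AddSubgroup.zmultiples (pw • R)) 0 with hlam
  have l0 : lam ≠ 0 := mul_ne_zero (h.kkL v0).1 (h.pi.kkL v0).1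
  have vB : V.v (nB C) = 1 := by
    rw [nB, map_mul, map_mul, map_pow, vt, h.kk0, h.pi.kk0]
    simp
  have vE : ∀ i, V.v (nE k C i) ≤ 1 := fun i =>
    bLocA_mul_one (bLocA_mul_one (vw _).le (h.kkL (vw' _)).2.2) (h.pi.kkL (vw' _)).2.2
  have vE2 : V.v (nE k C 2) = 1 := by
    refine le_antisymm (vE 2) ?_
    have := congrArg V.v pr
    rw [map_pow, vB, one_pow] at this
    exact this ▸ bLocA_mul_le (bLocA_mul_one (vE 0) (vE 1))
  have e2 : nE k C 2 ≠ 0 := fun e => by simp [e] at vE2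
  have cE : ∀ i, Cg V (nE k C' i / lam) (f (nE k C i)) := fun i => by
    refine Cg.trans ?_ (fr (vE i))
    have := ((Cg.rfl' (vw (nj k * cd C * i * V.l)).le).mul (h.kkL (vw' i)).2.1).mul
      (h.pi.kkL (vw' (i + k))).2.1
    convert this using 1
    · rw [nE, h.sup.2, hm, hlam]
      ring
    · rw [nE]
      ring
  have ft := act_SKAP (r := 3) three_ne_zero f
  set j := (kum 3 f).val
  have cB : Cg V (nB C' / lam) (w3 ^ (2 * j) * f (nB C)) := by
    have c1 : Cg V (cbr 3 ^ (V.l - 1)) (w3 ^ j) := by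
      have t0 : cbr 3 ≠ 0 := fun e => by simp [e] at vt
      have := (fr vt.le).div (Cg.rfl' vt.le) vt
      rwa [ft, mul_div_cancel_right₀ _ t0, ← Nat.sub_add_cancel V.hl.out.one_le, pow_succ,
        mul_div_cancel_right₀ _ t0] at this
    refine Cg.trans ?_ ((pow_mul' w3 2 j ▸ c1.pow 2).mul (fr vB.le))
    have c0 : 0 < cd C := Nat.pos_of_ne_zero fun e => hC.c3 (e ▸ dvd_zero 3)
    have := ((Cg.rfl' (a := cbr 3 ^ (2 * (V.l * cd C - 1)))
      (by rw [map_pow, vt, one_pow])).mul (h.kkL v0).2.1).mul (h.pi.kkL v0).2.1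
    convert this using 1
    · rw [nB, h.sup.2, hm, hlam]
      ring
    · obtain ⟨a, ha⟩ := Nat.exists_eq_add_of_le' c0
      obtain ⟨b, hb⟩ := Nat.exists_eq_add_of_le' V.hl.out.one_le
      rw [nB, ha, hb, show (b + 1) * (a + 1) - 1 = b * a + b + a by
        rw [show (b + 1) * (a + 1) = b * a + b + a + 1 by ring, Nat.add_sub_cancel]]
      simp only [Nat.add_sub_cancel]
      ring
  have f2 : V.v (f (nE k C 2)) = 1 := (fv _).trans vE2
  have dv : ∀ {y : Qb} {y' : Qb} {i : ℕ}, y ^ 2 * nE k C 2 = nE k C i →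
      y' ^ 2 * nE k C' 2 = nE k C' i → Cg V (y' ^ 2) (f y ^ 2) := fun {y y' i} e e' => by
    have := (cE i).div (cE 2) f2
    rwa [div_div_div_cancel_right₀ l0, ← map_div₀, ← e, ← e', mul_div_cancel_right₀ _ e2,
      mul_div_cancel_right₀ _ (e0' 2), map_pow] at this
  have cY : Cg V (nY k C') (f (nY k C)) :=
    Cg.root (dv y0 y0') (by simpa only [map_add, map_one] using dv y1 y1')
  have cX : Cg V (nX k C') (w3 ^ j * f (nX k C)) := by
    have := (cY.mul (cY.add Cg.one)).mul ((cE 2).div cB (by rw [map_mul, vw, fv, vB, one_mul]))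
    convert this using 1
    · rw [nX_eq b0' y0' y1', div_div_div_cancel_right₀ l0]
    · have : w3 ^ j * w3 ^ (2 * j) = 1 := by
        rw [← pow_add, show j + 2 * j = 3 * j by ring, pow_mul, w3_cube, one_pow]
      rw [nX_eq b0 y0 y1, eq_inv_of_mul_eq_one_left this]
      simp only [map_mul, map_add, map_one, map_div₀]
      ring
  have o1 : On 0 1 (f (nX k C)) (f (nY k C)) := o.map (f : Qb →+* Qb)
  obtain ⟨o2, e3⟩ := w_pow_pt o1 j
  have ne : ∀ {x y : Qb}, On 0 1 x y → V.v x ≤ 1 → ¬ E1 V.v (pt 0 1 x y) := fun {x y} o e => by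
    rw [pt_eq G01 o]
    exact not_lt.2 e
  rw [ny, ny, gal_pt f o, e3]
  refine CLO_ok V _ _ (ne o' cX.1) (ne o2 cX.2.1) ?_ ?_
  · rw [xc_pt o', xc_pt o2, v_three h.three]
    exact cX.2.2
  · rw [yc_pt o', yc_pt o2, v_three h.three]
    exact cY.2.2

/-- the same for a generator of the points killed by `l` -/
theorem NCONG_gen (H : NCONG_st) (V : Plc) (f : GQ) (h3 : V.l % 3 = 2) (hf : Frob V.l V.γ f) :
    ∃ u : Zw, IsUnit u ∧ ∀ (k : ℕ) (C : AddSubgroup Pt), ND C → ¬ V.l ∣ Nat.card C →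
      ∀ T, Gen V.l T → E1 V.v (ny k (C ⊔ AddSubgroup.zmultiples T) - u • gal f (ny k C)) :=
  ⟨_, w_unit.pow _, fun k C hC hl T hT => (H V f k C T h3 hf hC (cd_eq hC.fin ▸ hl) hT.zero
    fun e => (inert_prime V.hl.out h3).not_isUnit
      (isUnit_of_dvd_one ((hT 1).1 (by rw [e, smul_zero])))).2.2⟩

end Pool.Agent.MP_e23604_nt.Un

end

section

/-!
Preimages of finite subgroups and the product over the neighbours of a subgroup.
-/

set_option autoImplicit false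

open Finset QuadraticAlgebra
open scoped Classical

namespace Pool.Agent.MP_e23604_nt.Un

open B R S W

variable {b : Zw} {C : AddSubgroup Pt}

theorem mem_qC {T : Pt} : T ∈ qC b C ↔ b • T ∈ C := Iff.rfl

theorem mem_mC {T : Pt} : T ∈ mC b C ↔ ∃ U ∈ C, b • U = T := Iff.rfl

theorem cd_card (h : (C : Set Pt).Finite) : cd C = Nat.card C := by
  rw [cd, els, dif_pos h, ← Set.ncard_eq_toFinset_card _ h]
  rfl

theorem cd_pos (h : (C : Set Pt).Finite) : 0 < cd C :=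
  card_pos.2 ⟨0, (mem_els h).2 C.zero_mem⟩

theorem cd_nsmul (h : (C : Set Pt).Finite) {T : Pt} (hT : T ∈ C) : cd C • T = 0 := by
  rw [cd_card h]
  exact congrArg Subtype.val (card_nsmul_eq_zero' (x := (⟨T, hT⟩ : C)))

theorem qC_fin (hb : b ≠ 0) (h : (C : Set Pt).Finite) : (qC b C : Set Pt).Finite := by
  refine Set.Finite.preimage' (f := fun T : Pt => b • T) h fun U _ => ?_
  obtain ⟨Q, rfl⟩ := smul_onto hb U
  refine ((fin_tor hb).image (Q + ·)).subset fun T hT => ⟨T - Q, ?_, by simp⟩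
  exact (smul_sub b T Q).trans (sub_eq_zero.2 hT)

theorem qC_sum {A : Type} [AddCommMonoid A] (hb : b ≠ 0) (h : (C : Set Pt).Finite) (q : Pt → Pt)
    (hq : ∀ U, b • q U = U) (F : Pt → A) :
    ∑ T ∈ els (qC b C), F T = ∑ U ∈ els C, ∑ T ∈ tor b, F (q U + T) := by
  have h' := qC_fin hb h
  rw [← sum_fiberwise_of_maps_to (g := fun T : Pt => b • T) (t := els C)
    fun T hT => (mem_els h).2 ((mem_els h').1 hT)]
  refine sum_congr rfl fun U hU => ?_
  refine (sum_nbij' (q U + ·) (· - q U) (fun T hT => ?_) (fun T hT => ?_) (by simp) (by simp)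
    fun _ _ => rfl).symm
  · rw [mem_tor hb] at hT
    rw [mem_filter, mem_els h', mem_qC, smul_add, hT, add_zero, hq]
    exact ⟨(mem_els h).1 hU, rfl⟩
  · rw [mem_tor hb, smul_sub, (mem_filter.1 hT).2, hq, sub_self]

theorem qC_cd (hb : b ≠ 0) (h : (C : Set Pt).Finite) : cd (qC b C) = nn b * cd C := by
  choose q hq using smul_onto hb
  rw [cd, card_eq_sum_ones, qC_sum hb h q hq]
  simp [CARD_ok b hb, cd, mul_comm]

theorem sup_cd (h : (C : Set Pt).Finite) {l : ℕ} (hl : l.Prime) {R : Pt} (h1 : l • R ∈ C)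
    (h2 : R ∉ C) : Nat.card (C ⊔ AddSubgroup.zmultiples R : AddSubgroup Pt) = l * cd C := by
  have : Fact l.Prime := ⟨hl⟩
  have e : ((C ⊔ AddSubgroup.zmultiples R : AddSubgroup Pt) : Set Pt) =
      QuotientAddGroup.mk ⁻¹' (AddSubgroup.zmultiples (R : Pt ⧸ C) : Set (Pt ⧸ C)) := by
    rw [← QuotientAddGroup.mk'_apply, ← AddMonoidHom.map_zmultiples,
      ← QuotientAddGroup.comap_map_mk']
    rfl
  have o : addOrderOf (R : Pt ⧸ C) = l := addOrderOf_eq_prime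
    (by rw [← QuotientAddGroup.mk_nsmul, QuotientAddGroup.eq_zero_iff]; exact h1)
    (by rwa [Ne, QuotientAddGroup.eq_zero_iff])
  have := Nat.card_congr (QuotientAddGroup.preimageMkEquivAddSubgroupProdSet C
    (AddSubgroup.zmultiples (R : Pt ⧸ C) : Set (Pt ⧸ C)))
  rw [← e, Nat.card_prod] at this
  rw [cd_card h, mul_comm, ← o, ← Nat.card_zmultiples]
  exact this

theorem kk_split {D : AddSubgroup Pt} (hD : (D : Set Pt).Finite) (h : C ≤ D) (z : Qb) :
    kk D z = kk C z * ∏ T ∈ els D \ els C, (z - xc T) := by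
  have hC : (C : Set Pt).Finite := hD.subset h
  rw [kk, kk, ← prod_union (disjoint_left.2 fun T a c => (mem_sdiff.1 c).2 (mem_of_mem_erase a))]
  congr 1
  ext T
  simp only [mem_union, mem_erase, mem_sdiff, mem_els hC, mem_els hD]
  refine ⟨fun a => (em (T ∈ C)).imp (fun c => ⟨a.1, c⟩) fun c => ⟨a.2, c⟩, ?_⟩
  rintro (a | a)
  exacts [⟨a.1, h a.2⟩, ⟨fun c => a.2 (c ▸ C.zero_mem), a.1⟩]

theorem NPR_pf : NPR_st := by
  intro C l X hC hl h3 hX
  have l0 : (l : Zw) ≠ 0 := Nat.cast_ne_zero.2 hl.ne_zero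
  have n0 := cd_pos hC.fin
  have hQ := qC_fin l0 hC.fin
  have mq : ∀ T, T ∈ qC l C ↔ l • T ∈ C := fun T => by rw [mem_qC, Nat.cast_smul_eq_nsmul]
  have le : ∀ R ∈ X, C ⊔ AddSubgroup.zmultiples R ≤ qC l C := fun R hR =>
    sup_le (fun T hT => (mq T).2 (nsmul_mem hT l))
      (AddSubgroup.zmultiples_le_of_mem ((mq R).2 (hX.1 R hR).1))
  have fin : ∀ R ∈ X, ((C ⊔ AddSubgroup.zmultiples R : AddSubgroup Pt) : Set Pt).Finite :=
    fun R hR => hQ.subset (le R hR)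
  have cr : ∀ R ∈ X, cd (C ⊔ AddSubgroup.zmultiples R) = l * cd C := fun R hR =>
    (cd_card (fin R hR)).trans (sup_cd hC.fin hl (hX.1 R hR).1 (hX.1 R hR).2)
  have un : els (qC l C) \ els C =
      X.biUnion fun R => els (C ⊔ AddSubgroup.zmultiples R) \ els C := by
    ext T
    simp only [mem_biUnion, mem_sdiff, mem_els hQ, mem_els hC.fin]
    refine ⟨fun a => ?_, fun ⟨R, hR, a, c⟩ => ⟨le R hR ((mem_els (fin R hR)).1 a), c⟩⟩
    obtain ⟨R, a1, a2⟩ := (hX.2 T ((mq T).1 a.1) a.2).exists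
    exact ⟨R, a1, (mem_els (fin R a1)).2 a2, a.2⟩
  have dj : (X : Set Pt).PairwiseDisjoint
      fun R => els (C ⊔ AddSubgroup.zmultiples R) \ els C := fun R hR R' hR' ne =>
    disjoint_left.2 fun T a c => by
      rw [mem_sdiff, mem_els (fin _ (by assumption)), mem_els hC.fin] at a c
      exact ne ((hX.2 T ((mq T).1 (le R hR a.1)) a.2).unique ⟨hR, a.1⟩ ⟨hR', c.1⟩)
  have sub : ∀ D : AddSubgroup Pt, (D : Set Pt).Finite → C ≤ D →
      (els D \ els C).card + cd C = cd D := fun D hD e =>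
    card_sdiff_add_card_eq_card fun T hT => (mem_els hD).2 (e ((mem_els hC.fin).1 hT))
  have cX : X.card = l + 1 := by
    obtain ⟨m, rfl⟩ : ∃ m, l = m + 1 := ⟨l - 1, by have := hl.pos; omega⟩
    have a := sub _ hQ fun T hT => (mq T).2 (nsmul_mem hT _)
    rw [un, card_biUnion dj, qC_cd l0 hC.fin, nn_nat, sum_const_nat (m := m * cd C) fun R hR => by
      have := sub _ (fin R hR) le_sup_left
      rw [cr R hR] at this
      linarith] at a
    have m0 : 0 < m * cd C := Nat.mul_pos (by have := hl.two_le; omega) n0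
    exact Nat.eq_of_mul_eq_mul_right m0 (by linarith)
  refine ⟨cX, fun R hR => ⟨⟨fin R hR, fun e => ?_⟩, cr R hR⟩, fun z => ?_⟩
  · rw [cr R hR, Nat.prime_three.dvd_mul, Nat.prime_dvd_prime_iff_eq Nat.prime_three hl] at e
    exact e.elim (fun e => h3 e.symm) hC.c3
  · rw [prod_congr rfl fun R hR => kk_split (fin R hR) le_sup_left z, prod_mul_distrib, prod_const,
      cX, kk_split hQ fun T hT => (mq T).2 (nsmul_mem hT _), un, prod_biUnion dj, pow_succ,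
      mul_assoc]

end Pool.Agent.MP_e23604_nt.Un

end
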