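import Pool.Agent.Mg.Fe23604m.G68d450
import Pool.Agent.MP_14ad9d_nt.FrobD
import Pool.Agent.Mg.Fe23604m.G9f00c9

set_option linter.all false

section

set_option autoImplicit false

open Finset
open scoped Classical

namespace Pool.Agent.MP_e23604_nt.W

open B R S
open MP_3e91a1_nt (Step IsN Loc Nm Nrm Pl Ind)

theorem cst_HRQ {p n : ℕ} [Fact p.Prime] {U : Subgroup GQ} {χ : GQ → ZMod n}
    {f : ℕ → ZMod n} (h : Chp p n U χ f) (g j : GQ) (e : g⁻¹ * j ∈ U) : χ g = χ j := by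
  have := h.add g trivial (g⁻¹ * j) trivial
  rw [mul_inv_cancel_left, (h.ker _).1 e, add_zero] at this
  exact this.symm

/-- a local class dies in a large unramified extension -/
theorem loc_HRQ {l : ℕ} [Fact l.Prime] {γ : GQ} {c : GQ → GQ → Qb} {p k : ℕ} {r : ℚ}
    [Fact p.Prime] (h : Iv l γ c (p ^ k) r) (h2 : l ≠ p) {n : ℕ} {U : Subgroup GQ}
    {χ : GQ → ZMod n} {f : ℕ → ZMod n} (hχ : Chp p n U χ f)
    (hf : ∀ i : ℕ, (i : ZMod n) * f l = 0 → p ^ k ∣ i) :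
    Cob (Dec (nv l γ) ⊓ U) c := by
  obtain ⟨s, a, φ, -, hφ, hs, ⟨N, hN, hc⟩, hi, -, hb⟩ := h
  have h0 : ∀ g ∈ Dec (nv l γ) ⊓ U, s g = 0 := fun g hg => by
    obtain ⟨i, τ, hτ, e⟩ := ((R.FRO_ok l γ).2 φ hφ).2.2.2.1 (N ⊓ U) (hN.inf hχ.on) g hg.1
    have hp := (Dec (nv l γ)).pow_mem hφ.1 i
    have e1 := cst_HRQ hχ _ _ e.2
    rw [(hχ.ker g).1 hg.2, hχ.add _ trivial _ trivial, (hχ.ker τ).1 (hχ.unr l γ h2 hτ), add_zero,
      pow_CREC hχ.add trivial, hχ.fr l γ φ h2 hφ, nsmul_eq_mul] at e1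
    rw [← hc _ (mul_mem hp (Ine_le l γ hτ)) g hg.1 e.1, hs _ hp _ (Ine_le l γ hτ), hi τ hτ,
      add_zero, pow_CREC hs hφ.1, nsmul_eq_mul, (ZMod.natCast_eq_zero_iff _ _).2 (hf i e1),
      zero_mul]
  refine (hb.mono inf_le_left).congr fun g hg j hj => ?_
  rw [h0 g hg, h0 j hj, car_zero_CREC, pow_zero, mul_one]

/-- the class is cyclic, with a rational number close to one at the prime `p` -/
theorem glob_HRQ {p n : ℕ} [Fact p.Prime] (m : ℕ) {N U : Subgroup GQ} {χ : GQ → ZMod n}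
    {f : ℕ → ZMod n} (hχ : Chp p n U χ f) {c : GQ → GQ → Qb}
    {β : GQ → Qb} (hN : ON N) (hU : N ≤ U) (hc : Coc ⊤ c) (hi : Inf2 N ⊤ c) (h1 : Inf1 N U β)
    (hb : Bd U c β) (h2 : Cob (Dec (nv p 1)) c) :
    ∃ (a : ℚ) (β' : GQ → Qb), a ≠ 0 ∧ nv p 1 ((a : Qb) - 1) ≤ nv p 1 p ^ m ∧
      Inf1 N ⊤ β' ∧ Bd ⊤ (fun g h => c g h * (a : Qb) ^ car (χ g) (χ h)) β' := by
  obtain ⟨s, hs, hs1⟩ := hχ.gen
  have hm : 2 ≤ n := hχ.two
  have hk : ∀ g, g ∈ U ↔ g ∈ (⊤ : Subgroup GQ) ∧ χ g = 0 := fun g => by simp [hχ.ker g]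
  obtain ⟨a, β', -, ha, h3, h4⟩ :=
    R.CYC_ok _ N U ⊤ χ s c β hm hN hU hχ.add hk trivial hs1 hc hi h1 hb
  have h5 : Cob (Dec (nv p 1)) fun g h => a ^ car (χ g) (χ h) :=
    div_CREC h2 (Cob.mono ⟨N, β', hN, h3, h4⟩ le_top) fun g j => (hi.2.2 g trivial j trivial).1
  obtain ⟨y, hy0, hy, hya⟩ := (R.NRM_ok _ (Dec (nv p 1) ⊓ U) (Dec (nv p 1)) χ s hm
    (hχ.add.mono le_top) (fun g => by rw [Subgroup.mem_inf, hχ.ker g]) hs hs1).2 a h5
  set v := nv p 1 with hv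
  have hna : IsNonarchimedean v := nv_na p 1
  have hδ0 : 0 < v p ^ m := pow_pos (v.pos (Nat.cast_ne_zero.2 (Fact.out : p.Prime).ne_zero)) _
  have hδ1 : v p ^ m ≤ 1 := pow_le_one₀ (v.nonneg _) (nv_lt p 1).le
  have hvy := v.pos hy0
  obtain ⟨y0, h6, h7⟩ := R.DEN_ok p 1 U y (v y * v p ^ m) hχ.on.2 hy (mul_pos hvy hδ0)
  have h8 : v y ≤ v y0 := by
    have e : y = (y - y0) + y0 := by ring
    have h9 := hna (y - y0) y0
    rw [← e] at h9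
    rcases le_max_iff.1 h9 with h | h
    · exact absurd (h7.trans_le (mul_le_of_le_one_right hvy.le hδ1)) (not_lt.2 h)
    · exact h
  have hvy0 := hvy.trans_le h8
  have hy00 : y0 ≠ 0 := v.pos_iff.1 hvy0
  have h9 : v (y / y0 - 1) ≤ v p ^ m := by
    rw [div_sub_one hy00, map_div₀, div_le_iff₀ hvy0, mul_comm]
    exact h7.le.trans (mul_le_mul_of_nonneg_right h8 hδ0.le)
  obtain ⟨h10, h11, h12⟩ := (R.NRM_ok _ U ⊤ χ s hm hχ.add hk trivial hs1).1 y0 h6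
  have hne : ∀ (z : Qb) (j : ℕ), z ≠ 0 → ∏ i ∈ Finset.range j, (s ^ i) z ≠ 0 := fun z j hz =>
    Finset.prod_ne_zero_iff.2 fun i _ => (map_ne_zero _).2 hz
  obtain ⟨q, hq⟩ := (InfiniteGalois.mem_range_algebraMap_iff_fixed (k := ℚ)
    (a / ∏ i ∈ Finset.range n, (s ^ i) y0)).2 fun g => by
      rw [map_div₀, ha g trivial, h10 g trivial]
  rw [eq_ratCast] at hq
  have hq' : (q : Qb) = ∏ i ∈ Finset.range n, (s ^ i) (y / y0) := by
    rw [hq, ← hya, ← Finset.prod_div_distrib]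
    simp only [map_div₀]
  refine ⟨q, fun g => β' g / ∏ i ∈ Finset.range (χ g).val, (s ^ i) y0, fun h0 => ?_, ?_,
    ⟨fun g _ j _ e => ?_, fun g _ => ⟨div_ne_zero (h3.2 g trivial).1 (hne _ _ hy00),
      fun x hx => ?_⟩⟩, fun g _ j _ => ?_⟩
  · rw [h0, Rat.cast_zero] at hq'
    exact hne _ _ (div_ne_zero hy0 hy00) hq'.symm
  · rw [hq']
    refine prod_CREC hna hδ0.le hδ1 _ (fun i => ?_) _
    rw [← map_one (s ^ i), ← map_sub, (Dec v).pow_mem hs i]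
    exact h9
  · simp only [h3.1 g trivial j trivial e, cst_HRQ hχ g j (hU e)]
  · rw [map_div₀, (h3.2 g trivial).2 x hx, h12 g x (hU hx)]
  · have e1 := h4 g trivial j trivial
    have e2 := h11 g trivial j trivial
    have n1 := hne y0 (χ (g * j)).val hy00
    have n2 := hne y0 n hy00
    simp only at e1 e2 ⊢
    rw [map_div₀, div_mul_div_comm, e1, e2, hq, div_pow]
    field_simp

theorem int_HRQ {n : ℕ} (hn : n ≠ 0) (z : ℤ) (h : (z : ZMod n) = 0) :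
    (z : ℚ) / (n : ℚ) ∈ (Int.castRingHom ℚ).range := by
  obtain ⟨k, rfl⟩ := (ZMod.intCast_zmod_eq_zero_iff_dvd _ _).1 h
  refine ⟨k, ?_⟩
  rw [eq_intCast, Int.cast_mul, Int.cast_natCast, mul_div_cancel_left₀]
  exact Nat.cast_ne_zero.2 hn

theorem RQ_pf (hABG : ABG_st) (hCHP : CHP_st) : RQ_st := by
  intro p k N c Q γ r hp hN hc hi hcn hQ hinv hout
  have := Fact.mk hp
  have hVAL := S.VAL_ok
  obtain ⟨n, U, χ, f, hχ, hf⟩ := hCHP p k (Q.sup id)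
  obtain ⟨m, hsum⟩ := hχ.sum
  have hn0 : n ≠ 0 := by have := hχ.two; omega
  have : NeZero n := ⟨hn0⟩
  have hNU : ON (N ⊓ U) := hN.inf hχ.on
  obtain ⟨β, h1, h2⟩ := hABG p k (N ⊓ U) U c hp hNU inf_le_right hχ.nr (hc.mono le_top)
    (hi.mono inf_le_left le_top) (fun g _ j _ => hcn g j) fun l _ γ' => by
      by_cases hl : l ∈ Q
      · exact R.CONJ_ok.2 N U c l (γ l) γ' hN hχ.on.1 hc hi
          (loc_HRQ (hinv l hl) (hQ l hl).2 hχ
            (hf l (hQ l hl).1 (hQ l hl).2 (Finset.le_sup (f := id) hl)))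
      · exact R.CONJ_ok.2 N U c l 1 γ' hN hχ.on.1 hc hi ((hout l hl).mono inf_le_left)
  have h3 : Cob (Dec (nv p 1)) c :=
    hout p fun h => (hQ p h).2 rfl
  obtain ⟨a, β', ha0, ha1, h4, h5⟩ := glob_HRQ m hχ hNU inf_le_right hc
    (hi.mono inf_le_left le_rfl) h1 h2 h3
  have h6 : Cob ⊤ fun g h => c g h * (a : Qb) ^ car (χ g) (χ h) := ⟨_, β', hNU, h4, h5⟩
  have hlc : ∀ H, Lc H χ := fun H => ⟨U, hχ.on, fun g _ j _ e => cst_HRQ hχ g j e⟩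
  set t : ℕ → ℚ := fun l => ((padicValRat l a * (f l).val : ℤ) : ℚ) / (n : ℚ)
    with ht
  have h7 : ∀ (l : ℕ) [Fact l.Prime] (γ' : GQ), l ≠ p → Iv l γ' c n (t l) :=
    fun l _ γ' hl => by
      obtain ⟨φ, hφ⟩ := (R.FRO_ok l γ').1
      refine ⟨χ, a, φ, ha0, hφ, hχ.add.mono le_top, hlc _,
        fun τ hτ => (hχ.ker τ).1 (hχ.unr l γ' hl hτ), ?_, h6.mono le_top⟩
      rw [hχ.fr l γ' φ hl hφ, ht]
      simp only [Int.cast_mul, Int.cast_natCast]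
  have hcast : ∀ l, ((padicValRat l a * (f l).val : ℤ) : ZMod n) =
      (padicValRat l a : ZMod n) * f l := fun l => by
    rw [Int.cast_mul, Int.cast_natCast, ZMod.natCast_zmod_val]
  have h8 : ∀ l : ℕ, l.Prime → l ≠ p → l ∉ Q → t l ∈ (Int.castRingHom ℚ).range := by
    intro l hp hl hlQ
    have := Fact.mk hp
    obtain ⟨k, hk⟩ := hVAL.1 l 1 c _ _ _ _ hn0 hn0 (h7 l 1 hl) (hVAL.2 l 1 c _ (hout l hlQ))
    exact ⟨k, by rw [eq_intCast, ← hk, sub_zero]⟩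
  set T := Q ∪ (a.num.natAbs * a.den).primeFactors.erase p with hT
  have hTp : ∀ l ∈ T, l.Prime ∧ l ≠ p := fun l hl => by
    rcases Finset.mem_union.1 hl with h | h
    · exact hQ l h
    · exact ⟨Nat.prime_of_mem_primeFactors (Finset.mem_erase.1 h).2, (Finset.mem_erase.1 h).1⟩
  have h9 := hsum a T ha0 ha1 hTp fun l hp hl hv => by
    refine Finset.mem_union_right _ (Finset.mem_erase.2 ⟨hl, Nat.mem_primeFactors.2
      ⟨hp, ?_, mul_ne_zero (Int.natAbs_ne_zero.2 (Rat.num_ne_zero.2 ha0)) a.den_nz⟩⟩)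
    by_contra h
    rw [hp.dvd_mul, not_or] at h
    rw [padicValRat, padicValInt, padicValNat.eq_zero_of_not_dvd h.1,
      padicValNat.eq_zero_of_not_dvd h.2] at hv
    exact hv rfl
  have h10 : 2 * ∑ l ∈ T, t l ∈ (Int.castRingHom ℚ).range := by
    have e : 2 * ∑ l ∈ T, t l =
        ((2 * ∑ l ∈ T, padicValRat l a * (f l).val : ℤ) : ℚ) / (n : ℚ) := by
      rw [ht, ← Finset.sum_div, ← Int.cast_sum, Int.cast_mul, Int.cast_ofNat, mul_div_assoc]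
    rw [e]
    refine int_HRQ hn0 _ ?_
    rw [Int.cast_mul, Int.cast_ofNat, Int.cast_sum, ← h9]
    exact congrArg _ (Finset.sum_congr rfl fun l _ => hcast l)
  have h11 : ∑ l ∈ T \ Q, t l ∈ (Int.castRingHom ℚ).range := sum_mem fun l hl =>
    h8 l (hTp l (Finset.mem_sdiff.1 hl).1).1 (hTp l (Finset.mem_sdiff.1 hl).1).2
      (Finset.mem_sdiff.1 hl).2
  have h12 : ∑ l ∈ Q, (r l - t l) ∈ (Int.castRingHom ℚ).range := sum_mem fun l hl => by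
    have := Fact.mk (hQ l hl).1
    obtain ⟨k, hk⟩ := hVAL.1 l (γ l) c _ _ _ _ (pow_ne_zero _ hp.ne_zero) hn0 (hinv l hl)
      (h7 l (γ l) (hQ l hl).2)
    exact ⟨k, hk.symm⟩
  obtain ⟨z1, e1⟩ := h10
  obtain ⟨z2, e2⟩ := h11
  obtain ⟨z3, e3⟩ := h12
  rw [eq_intCast] at e1 e2 e3
  rw [← Finset.sum_sdiff (Finset.subset_union_left : Q ⊆ T)] at e1
  rw [Finset.sum_sub_distrib] at e3
  refine ⟨2 * z3 + z1 - 2 * z2, ?_⟩
  push_cast
  rw [e1, e2, e3]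
  ring

end Pool.Agent.MP_e23604_nt.W

end

section

set_option autoImplicit false

open Finset
open scoped Classical

namespace Pool.Agent.MP_e23604_nt.W

open B R S NumberField Pool.Agent.MP_f3cd89_nt
open MP_3e91a1_nt (Step IsN Loc Nm Nrm Pl Ind)

theorem log_HCHO {p : ℕ} (hp : p.Prime) (h2 : p ≠ 2) (m : ℕ) :
    Nonempty ((ZMod (p ^ (m + 1)))ˣ ≃* Multiplicative (ZMod (p ^ m * (p - 1)))) := by
  have := ZMod.isCyclic_units_of_prime_pow p hp h2 (m + 1)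
  have : NeZero (p ^ (m + 1)) := ⟨pow_ne_zero _ hp.ne_zero⟩
  refine ⟨mulEquivOfCyclicCardEq ?_⟩
  rw [Nat.card_eq_fintype_card, ZMod.card_units_eq_totient, Nat.totient_prime_pow_succ hp]
  exact (Nat.card_zmod _).symm

theorem sum_HCHO {n p : ℕ} {M : Type} [CommRing M] (F : ZMod n → M)
    (hF : ∀ a b : ℕ, ¬ p ∣ a → ¬ p ∣ b → F (a * b : ℕ) = F a + F b) (T : Finset ℕ)
    (hT : ∀ l ∈ T, l.Prime) (N : ℕ) (hN : ¬ p ∣ N) (h : N.primeFactors ⊆ T) :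
    F N = ∑ l ∈ T, (padicValNat l N : M) * F l := by
  induction N using induction_on_primes with
  | zero => simp at hN
  | one =>
    have := hF 1 1 hN hN
    simp only [mul_one, left_eq_add] at this
    rw [this]
    simp
  | prime_mul q a hp ih =>
    have h1 : ¬ p ∣ q := fun e => hN (e.mul_right _)
    have h2 : ¬ p ∣ a := fun e => hN (e.mul_left _)
    have ha : a ≠ 0 := fun e => h2 (e ▸ dvd_zero p)
    rw [Nat.primeFactors_mul hp.ne_zero ha, union_subset_iff, hp.primeFactors,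
      singleton_subset_iff] at h
    rw [hF q a h1 h2, ih h2 h.2]
    have : ∀ l ∈ T, (padicValNat l (q * a) : M) * F l =
        (if l = q then F l else 0) + (padicValNat l a : M) * F l := fun l hl => by
      have := Fact.mk (hT l hl)
      have := Fact.mk hp
      rw [padicValNat.mul hp.ne_zero ha, Nat.cast_add, add_mul]
      split_ifs with e
      · rw [e, padicValNat_self, Nat.cast_one, one_mul]
      · rw [padicValNat_primes e, Nat.cast_zero, zero_mul]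
    rw [sum_congr rfl this, sum_add_distrib, sum_ite_eq', if_pos h.1]

theorem rat_HCHO {M : Type} [CommRing M] {p : ℕ} [hp : Fact p.Prime] (k : ℕ)
    (F : ZMod (p ^ (k + 1)) → M)
    (hF : ∀ a b : ℕ, ¬ p ∣ a → ¬ p ∣ b → F (a * b : ℕ) = F a + F b)
    (hF' : ∀ a : ℕ, ¬ p ∣ a → 2 * F (-a) = 2 * F a) (a : ℚ) (T : Finset ℕ)
    (h1 : a - 1 ≠ 0 → ((k + 1 : ℕ) : ℤ) ≤ padicValRat p (a - 1))
    (hT : ∀ l ∈ T, l.Prime ∧ l ≠ p)
    (h2 : ∀ l : ℕ, l.Prime → l ≠ p → padicValRat l a ≠ 0 → l ∈ T) :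
    2 * ∑ l ∈ T, (padicValRat l a : M) * F l = 0 := by
  have hd : (p : ℤ) ^ (k + 1) ∣ a.num - a.den := by
    rcases eq_or_ne (a - 1) 0 with h | h
    · rw [sub_eq_zero.1 h]
      simp
    have e : (a - 1) * (a.den : ℚ) = ((a.num - a.den : ℤ) : ℚ) := by
      push_cast
      rw [sub_mul, Rat.mul_den_eq_num, one_mul]
    have e2 := congrArg (padicValRat p) e
    rw [padicValRat.mul h (by exact_mod_cast a.den_nz), padicValRat.of_int, padicValRat.of_nat] at e2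
    have := h1 h
    exact (padicValInt_dvd_iff (p := p) (k + 1) (a.num - a.den)).2 (Or.inr (by omega))
  obtain ⟨N, hN⟩ : ∃ N, N = a.num.natAbs := ⟨_, rfl⟩
  have hc : N.Coprime a.den := hN ▸ a.reduced
  have h3 : (p : ℤ) ∣ a.num - a.den := (dvd_pow_self _ (by omega)).trans hd
  have h4 : ¬ p ∣ N ∧ ¬ p ∣ a.den := by
    have h5 : p ∣ N ↔ p ∣ a.den := by
      rw [hN, ← Int.natCast_dvd, ← Int.natCast_dvd_natCast]
      exact dvd_iff_dvd_of_dvd_sub h3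
    have : ¬ p ∣ N := fun h => hp.out.one_lt.ne' (Nat.eq_one_of_dvd_coprimes hc h (h5.1 h))
    exact ⟨this, mt h5.2 this⟩
  have h5 : 2 * F N = 2 * F (a.den : ℕ) := by
    have e := (ZMod.intCast_zmod_eq_zero_iff_dvd (a.num - a.den) (p ^ (k + 1))).2
      (by exact_mod_cast hd)
    rw [Int.cast_sub, sub_eq_zero, Int.cast_natCast] at e
    rw [← e]
    rcases Int.natAbs_eq a.num with h | h
    · rw [h, ← hN, Int.cast_natCast]
    · rw [h, ← hN, Int.cast_neg, Int.cast_natCast, hF' N h4.1]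
  have h6 : ∀ l ∈ T ∪ (N.primeFactors ∪ a.den.primeFactors), l.Prime ∧ l ≠ p := by
    intro l hl
    simp only [mem_union, Nat.mem_primeFactors] at hl
    rcases hl with h | h | h
    · exact hT l h
    · exact ⟨h.1, fun e => h4.1 (e ▸ h.2.1)⟩
    · exact ⟨h.1, fun e => h4.2 (e ▸ h.2.1)⟩
  rw [sum_subset (subset_union_left (s₂ := N.primeFactors ∪ a.den.primeFactors))
    fun l hl hl' => by
      rw [not_not.1 fun h => hl' (h2 l (h6 l hl).1 (h6 l hl).2 h), Int.cast_zero, zero_mul]]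
  have h7 := sum_HCHO F hF _ (fun l hl => (h6 l hl).1) N h4.1
    (subset_union_left.trans subset_union_right)
  have h8 := sum_HCHO F hF _ (fun l hl => (h6 l hl).1) a.den h4.2
    (subset_union_right.trans subset_union_right)
  rw [h7, h8, ← sub_eq_zero, ← mul_sub, ← sum_sub_distrib] at h5
  rw [← h5]
  refine congrArg _ (sum_congr rfl fun l _ => ?_)
  rw [padicValRat, padicValInt, ← hN, Int.cast_sub, Int.cast_natCast, Int.cast_natCast]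
  ring

theorem val_HCHO {p l i k B : ℕ} [hp : Fact p.Prime] (ho : p ≠ 2) (hl : l.Prime) (h2 : l ≠ p)
    (hB : l ≤ B) (h : p ^ (k + B ^ (p - 1) + 1) ∣ (l ^ (p - 1)) ^ i - 1) : p ^ k ∣ i := by
  rcases eq_or_ne i 0 with rfl | hi
  · simp
  have h3 := (Nat.coprime_primes hl hp.out).2 h2
  have h8 : 1 < l ^ (p - 1) := Nat.one_lt_pow (Nat.sub_ne_zero_of_lt hp.out.one_lt) hl.one_lt
  have h7 := Nat.ModEq.pow_totient h3
  rw [Nat.totient_prime hp.out] at h7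
  have h4 := padicValNat.pow_sub_pow (p := p) (x := l ^ (p - 1)) (y := 1)
    (hp.out.odd_of_ne_two ho) h8 ((Nat.modEq_iff_dvd' h8.le).1 h7.symm)
    ((Nat.Prime.coprime_iff_not_dvd hp.out).1 (h3.symm.pow_right _)) hi
  have h5 : padicValNat p (l ^ (p - 1) - 1) ≤ l ^ (p - 1) - 1 :=
    (padicValNat_le_nat_log _).trans (Nat.log_le_self _ _)
  have h6 : (l ^ (p - 1)) ^ i - 1 ≠ 0 := Nat.sub_ne_zero_of_lt (Nat.one_lt_pow hi h8)
  have h9 : l ^ (p - 1) ≤ B ^ (p - 1) := Nat.pow_le_pow_left hB _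
  rw [padicValNat_dvd_iff_le h6] at h
  rw [one_pow] at h4
  rw [padicValNat_dvd_iff_le hi]
  omega

theorem not_mem_HCHO {p l : ℕ} (hp : p.Prime) (hl : l.Prime) (h2 : l ≠ p) {P : Ideal (𝓞 Qb)}
    [P.IsMaximal] (h : (l : 𝓞 Qb) ∈ P) (k : ℕ) : ((p ^ k : ℕ) : 𝓞 Qb) ∉ P :=
  MP_f68ac8_nt.not_mem_of_coprime h (((Nat.coprime_primes hl hp).2 h2).pow_right k)

theorem surj_HCHO (p k : ℕ) [hp : Fact p.Prime] (u : (ZMod (p ^ k))ˣ) :
    ∃ τ ∈ Ine p 1, MP_f68ac8_nt.cyc (p ^ k) τ = u := by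
  have h1 : (((cen p 1).inertia GQ).map (MP_f68ac8_nt.cyc (p ^ k))).comap
      (MP_f68ac8_nt.cyc (Ω := Qb) (p ^ k)) = ⊤ := by
    refine MP_f68ac8_nt.eq_top_of_open _
      (Filter.mem_of_superset (MP_f68ac8_nt.cyc_nhds (p ^ k)) fun g hg => ?_) fun P' _ g hg => ?_
    · rw [SetLike.mem_coe, Subgroup.mem_comap, hg]
      exact one_mem _
    · rw [Subgroup.mem_comap]
      obtain ⟨l, hl, h'⟩ := MP_f68ac8_nt.exists_prime_mem P'
      rcases eq_or_ne l p with rfl | h2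
      · obtain ⟨a, ha⟩ := MP_f68ac8_nt.exists_conj hl (cen_mem l 1) h'
        refine ⟨_, ha g hg, ?_⟩
        rw [map_mul, map_mul, map_inv, mul_right_comm, inv_mul_cancel, one_mul]
      · rw [MP_f68ac8_nt.cyc_inertia (not_mem_HCHO hp.out hl h2 h' k) hg]
        exact one_mem _
  obtain ⟨g, rfl⟩ := MP_f68ac8_nt.cyc_surj (Ω := Qb) (p ^ k) u
  have : g ∈ (((cen p 1).inertia GQ).map (MP_f68ac8_nt.cyc (p ^ k))).comap
      (MP_f68ac8_nt.cyc (Ω := Qb) (p ^ k)) := h1 ▸ Subgroup.mem_top g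
  obtain ⟨τ, h2, h3⟩ := this
  exact ⟨τ, ine_iff.2 h2, h3⟩

theorem CHO_pf : CHO_st := by
  intro p hp ho k B
  have h3p : 3 ≤ p := lt_of_le_of_ne hp.out.two_le ho.symm
  obtain ⟨m, hm⟩ : ∃ m, m = k + B ^ (p - 1) := ⟨_, rfl⟩
  obtain ⟨L⟩ := log_HCHO hp.out ho m
  let X : GQ →* Multiplicative (ZMod (p ^ m * (p - 1))) :=
    L.toMonoidHom.comp (MP_f68ac8_nt.cyc (Ω := Qb) (p ^ (m + 1)))
  let F : ZMod (p ^ (m + 1)) → ZMod (p ^ m * (p - 1)) := fun x =>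
    if h : IsUnit x then (L h.unit).toAdd else 0
  have hF : ∀ u : (ZMod (p ^ (m + 1)))ˣ, F u = (L u).toAdd := fun u => by
    simp only [F, dif_pos u.isUnit, IsUnit.unit_of_val_units]
  have hu : ∀ a : ℕ, ¬ p ∣ a → ∃ u : (ZMod (p ^ (m + 1)))ˣ, (u : ZMod (p ^ (m + 1))) = a :=
    fun a ha => (ZMod.isUnit_iff_coprime a _).2
      (((Nat.Prime.coprime_iff_not_dvd hp.out).2 ha).symm.pow_right _)
  have hz := MP_f68ac8_nt.zeta_spec (Ω := Qb) (p ^ (m + 1))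
  have hb : 2 < p ^ (m + 1) := h3p.trans (Nat.le_self_pow (by omega) p)
  refine ⟨_, X.ker, fun g => (X g).toAdd, fun l => F l,
    ⟨le_mul_of_one_le_of_le (Nat.one_le_pow _ _ hp.out.pos) (by omega), ⟨inferInstance, ?_⟩,
    ⟨_, fun g hg => ?_, im_CCHI hb hz⟩, fun g _ h _ => by rw [map_mul, toAdd_mul],
    fun g => Iff.rfl, ?_, fun l hl γ h2 g hg => ?_, fun l hl γ φ h2 h => ?_, m + 1,
    fun a T h0 h1 h2 h3 => ?_⟩, fun l hl h2 hB i hi => ?_⟩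
  · refine Subgroup.isOpen_of_mem_nhds _ (Filter.mem_of_superset
      (MP_f68ac8_nt.cyc_nhds (p ^ (m + 1))) fun g hg => ?_)
    change L _ = 1
    rw [hg, map_one]
  · have h1 : MP_f68ac8_nt.cyc (p ^ (m + 1)) g = 1 := L.map_eq_one_iff.1 hg
    have : Fact (1 < p ^ (m + 1)) := ⟨by omega⟩
    rw [map_sub, map_inv₀, MP_f68ac8_nt.cyc_spec (p ^ (m + 1)) g hz.pow_eq_one, h1,
      Units.val_one, ZMod.val_one, pow_one]
  · obtain ⟨u, h1⟩ := L.surjective (Multiplicative.ofAdd 1)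
    obtain ⟨τ, h2, rfl⟩ := surj_HCHO p (m + 1) u
    exact ⟨τ, Ine_le p 1 h2, congrArg Multiplicative.toAdd h1⟩
  · change L _ = 1
    rw [MP_f68ac8_nt.cyc_inertia (not_mem_HCHO hp.out hl.out h2 (cen_mem l γ) _) (ine_iff.1 hg),
      map_one]
  · rw [← MP_f68ac8_nt.cyc_frob (not_mem_HCHO hp.out hl.out h2 (cen_mem l γ) (m + 1))
      (frob_iff.1 h), hF]
    rfl
  · refine rat_HCHO m F (fun a b ha hb => ?_) (fun a ha => ?_) a T (fun h => ?_) h2 h3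
    · obtain ⟨u, e1⟩ := hu a ha
      obtain ⟨v, e2⟩ := hu b hb
      rw [Nat.cast_mul, ← e1, ← e2, ← Units.val_mul, hF, hF, hF, map_mul, toAdd_mul]
    · obtain ⟨u, e1⟩ := hu a ha
      rw [← e1, ← Units.val_neg, hF, hF, two_mul (Multiplicative.toAdd _),
        two_mul (Multiplicative.toAdd _), ← toAdd_mul, ← toAdd_mul, ← map_mul,
        ← map_mul, neg_mul_neg]
    · have e1 := R.DIC_ok.2.2.1 p 1 (a - 1) h
      have e2 := R.DIC_ok.2.2.1 p 1 p (Nat.cast_ne_zero.2 hp.out.ne_zero)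
      rw [padicValRat.self hp.out.one_lt] at e2
      push_cast at e1 e2
      rw [e1, e2, ← zpow_natCast, ← zpow_mul,
        zpow_le_zpow_iff_right₀ (Nat.one_lt_cast.2 hp.out.one_lt)] at h1
      omega
  · obtain ⟨u, e1⟩ := hu l fun e => h2 ((Nat.prime_dvd_prime_iff_eq hp.out hl).1 e).symm
    have h3 : L (u ^ i) = 1 := by
      apply Multiplicative.toAdd.injective
      rw [map_pow, toAdd_pow, nsmul_eq_mul, ← hF, e1]
      exact hi
    have h4 := congrArg Units.val (L.map_eq_one_iff.1 h3)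
    rw [Units.val_pow_eq_pow_val, e1, Units.val_one] at h4
    refine val_HCHO ho hl h2 hB ?_
    rw [← hm, ← ZMod.natCast_eq_zero_iff,
      Nat.cast_sub (Nat.one_le_pow _ _ (pow_pos hl.pos _)), Nat.cast_pow, Nat.cast_pow,
      pow_right_comm, h4, one_pow, Nat.cast_one, sub_self]

end Pool.Agent.MP_e23604_nt.W

end

section

set_option autoImplicit false

open Finset
open scoped Classical

namespace Pool.Agent.MP_e23604_nt.W

open B R S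
open MP_3e91a1_nt (Step IsN Loc Nm Nrm Pl Ind)

/-- base points of the orbits and paths from the base points -/
theorem sel_HGRP (U G H : Subgroup GQ) : ∃ bs tt : GQ → GQ,
    (∀ y ∈ G, bs y ∈ G ∧ tt y ∈ H ∧ (tt y * bs y)⁻¹ * y ∈ U) ∧
    (∀ g ∈ H, ∀ y, bs (g * y) = bs y) ∧
    ∀ y, ∀ u ∈ U, bs (y * u) = bs y ∧ tt (y * u) = tt y := by
  let bs : GQ → GQ := fun y => Classical.epsilon fun b => b ∈ G ∧ ∃ h ∈ H, (h * b)⁻¹ * y ∈ U
  have h3 : ∀ y, ∀ u ∈ U, bs (y * u) = bs y := fun y u hu => by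
    simp only [bs, ← mul_assoc, U.mul_mem_cancel_right hu]
  refine ⟨bs, fun y => Classical.epsilon fun h => h ∈ H ∧ (h * bs y)⁻¹ * y ∈ U, fun y hy => ?_,
    fun g hg y => ?_, fun y u hu => ⟨h3 y u hu, ?_⟩⟩
  · have h1 : bs y ∈ G ∧ ∃ h ∈ H, (h * bs y)⁻¹ * y ∈ U :=
      Classical.epsilon_spec (p := fun b => b ∈ G ∧ ∃ h ∈ H, (h * b)⁻¹ * y ∈ U)
        ⟨y, hy, 1, H.one_mem, by simp⟩
    exact ⟨h1.1, Classical.epsilon_spec h1.2⟩
  · refine congrArg Classical.epsilon (funext fun b => propext (and_congr_right fun _ => ?_))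
    refine ⟨fun ⟨h, h1, h2⟩ => ⟨g⁻¹ * h, H.mul_mem (H.inv_mem hg) h1, ?_⟩,
      fun ⟨h, h1, h2⟩ => ⟨g * h, H.mul_mem hg h1, ?_⟩⟩
    · simpa [mul_assoc] using h2
    · simpa [mul_assoc] using h2
  · simp only [h3 y u hu, ← mul_assoc, U.mul_mem_cancel_right hu]

theorem GRP_pf (hLIN : LIN_st) : GRP_st := by
  intro R _ κ U G H N c hU hn hN hUG hHG hκ hc hC hI
  have hX := Xs_trv hU hUG
  refine ⟨⟨⟨N, hN, fun g hg h hh k hk e => ?_, fun g hg h hh k hk e => ?_⟩,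
    fun g hg h hh k hk => ?_⟩, fun hB => ?_⟩
  · exact sum_congr rfl fun y hy => (hC y (hX.1 y hy)).1 g hg h hh k hk e
  · exact sum_congr rfl fun y hy => (hC y (hX.1 y hy)).2 g hg h hh k hk e
  · beta_reduce
    rw [← hX.sum_mul (hc g hg h hh) (hHG hk), mul_sum, ← sum_sub_distrib, ← sum_add_distrib,
      ← sum_sub_distrib]
    exact sum_eq_zero fun y hy => hI g hg h hh k hk y (hX.1 y hy)
  obtain ⟨bs, tt, s1, s2, s3⟩ := sel_HGRP U G H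
  choose! β b1 b2 using hB
  have k1 : ∀ g ∈ H, ∀ y ∈ G, (tt (g * y))⁻¹ * g * tt y ∈ H ⊓ U := fun g hg y hy => by
    obtain ⟨e1, e2, e3⟩ := s1 y hy
    obtain ⟨-, e4, e5⟩ := s1 _ (G.mul_mem (hHG hg) hy)
    refine ⟨H.mul_mem (H.mul_mem (H.inv_mem e4) hg) e2, ?_⟩
    rw [s2 g hg] at e5
    simpa [mul_assoc] using hn _ (G.inv_mem e1) _ (U.mul_mem e5 (U.inv_mem e3))
  let F : GQ → GQ → R := fun g y => c g (tt y) (bs y) -
    c (tt (g * y)) ((tt (g * y))⁻¹ * g * tt y) (bs y) +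
      κ (tt (g * y)) * β (bs y) ((tt (g * y))⁻¹ * g * tt y)
  have k2 : ∀ g, ∀ y ∈ G, ∀ u ∈ U, F g (y * u) = F g y := fun g y _ u hu => by
    simp only [F, ← mul_assoc, (s3 _ u hu).1, (s3 _ u hu).2]
  have k3 : ∀ y ∈ G, Lc H fun g => F g y := fun y hy => by
    obtain ⟨e1, e2, -⟩ := s1 y hy
    obtain ⟨N₁, n1, n2⟩ := ex_ON hU
    obtain ⟨N₂, n3, n4⟩ := b1 _ e1
    refine ⟨N ⊓ N₁ ⊓ N₂, (hN.inf n1).inf n3, fun g hg g' hg' e => ?_⟩
    have e3 : tt (g' * y) = tt (g * y) := by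
      rw [← (s3 (g * y) _ (hn y hy _ (n2 e.1.2))).2]
      congr 1
      group
    have e4 := k1 g hg y hy
    have e5 := k1 g' hg' y hy
    have e6 : ((tt (g * y))⁻¹ * g * tt y)⁻¹ * ((tt (g * y))⁻¹ * g' * tt y) =
        (tt y)⁻¹ * (g⁻¹ * g') * tt y := by group
    simp only [F]
    rw [e3] at e5 ⊢
    have e7 := (hC _ e1).2 _ e2 g hg g' hg' e.1.1
    have e8 := (hC _ e1).1 _ (s1 _ (G.mul_mem (hHG hg) hy)).2.1 _ e4.1 _ e5.1
      (e6 ▸ hN.1.conj_mem' _ e.1.1 _)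
    beta_reduce at e7 e8
    rw [e7, e8, n4 _ e4 _ e5 (e6 ▸ n3.1.conj_mem' _ e.2 _)]
  have k4 : ∀ g ∈ H, ∀ h ∈ H, ∀ y ∈ G, c g h y = κ g * F h y - F (g * h) y + F g (h * y) := by
    intro g hg h hh y hy
    have hy' := G.mul_mem (hHG hh) hy
    obtain ⟨e1, e2, e3⟩ := s1 y hy
    have e4 := (s1 _ hy').2.1
    have e5 := (s1 _ (G.mul_mem (hHG hg) hy')).2.1
    have a1 := k1 h hh y hy
    have a2 := k1 g hg _ hy'
    simp only [F, s2 h hh, mul_assoc g h y]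
    generalize tt (g * (h * y)) = t₂ at *
    generalize tt (h * y) = t₁ at *
    generalize tt y = t₀ at *
    generalize bs y = b at *
    have a3 : ∀ x ∈ H, ∀ x' ∈ H, c x x' (t₁⁻¹ * h * t₀ * b) = c x x' b := fun x hx x' hx' => by
      rw [← hc x hx x' hx' b e1 _ (hn b e1 _ a1.2)]
      congr 1
      group
    have i1 := hI g hg h hh t₀ e2 b e1
    have i2 := hI g hg t₁ e4 _ a1.1 b e1
    have i3 := hI t₂ e5 _ a2.1 _ a1.1 b e1
    have i4 := b2 b e1 _ a2 _ a1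
    have i5 := hκ.2.2 g hg t₁ e4
    have i6 := hκ.2.2 t₂ e5 _ a2.1
    rw [← hc g hg h hh _ (G.mul_mem (hHG e2) e1) _ e3, mul_inv_cancel_left] at i1
    rw [a3 g hg t₁ e4, show t₁ * (t₁⁻¹ * h * t₀) = h * t₀ by group] at i2
    rw [a3 t₂ e5 _ a2.1] at i3
    rw [show t₂ * (t₂⁻¹ * g * t₁) = g * t₁ by group] at i3 i6
    rw [show t₂⁻¹ * g * t₁ * (t₁⁻¹ * h * t₀) = t₂⁻¹ * (g * h) * t₀ by group] at i3 i4
    linear_combination -i1 + i2 - i3 + κ t₂ * i4 + β b (t₁⁻¹ * h * t₀) * (i5 - i6)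
  refine ⟨fun g => ∑ y ∈ Xs U G, F g y, lc_sum _ fun y hy => k3 y (hX.1 y hy), fun g hg h hh => ?_⟩
  beta_reduce
  rw [← hX.sum_mul (k2 g) (hHG hh), mul_sum, ← sum_sub_distrib, ← sum_add_distrib]
  exact sum_congr rfl fun y hy => k4 g hg h hh y (hX.1 y hy)

end Pool.Agent.MP_e23604_nt.W

end

section

set_option autoImplicit false

open Finset
open scoped Classical

namespace Pool.Agent.MP_e23604_nt.W

open B R S
open MP_3e91a1_nt (Step IsN Loc Nm Nrm Pl Ind)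

theorem avoid_HAPB {ι : Type} (X : Finset ι) {q : ℕ} (hq : X.card < q) (p : ι → ℕ → Prop)
    (h : ∀ y ∈ X, ∀ a < q, ∀ b < q, p y a → p y b → a = b) : ∃ b, ∀ y ∈ X, ¬ p y b := by
  by_contra! e
  choose f h1 h2 using e
  have := card_le_card_of_injOn (s := range q) (t := X) f (fun b _ => h1 b) fun a ha b hb k =>
    h _ (h1 a) a (mem_range.1 ha) b (mem_range.1 hb) (h2 a) (k ▸ h2 b)
  rw [card_range] at this
  omega

theorem one_HAPB (W : Plc) {n : ℤ} (h : ¬ (W.l : ℤ) ∣ n) : W.v n = 1 :=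
  v_coprime W.na W.hl.out (nv_lt _ _) h

theorem lt_HAPB (W : Plc) {n : ℤ} (h : (W.l : ℤ) ∣ n) : W.v n < 1 := by
  obtain ⟨c, rfl⟩ := h
  rw [mul_comm, Int.cast_mul, Int.cast_natCast]
  exact (bLocA_mul_le W.na.apply_intCast_le_one).trans_lt (nv_lt _ _)

theorem M_HAPB (B : Finset ℕ) {ε : ℝ} (hε : 0 < ε) : ∃ M : ℕ, M ≠ 0 ∧
    (∀ W : Plc, W.l ∈ B → W.v M < ε) ∧ ∀ W : Plc, W.l ∉ B → W.v M = 1 := by
  have h : ∀ l : ℕ, ∃ k : ℕ, ∀ W : Plc, W.l = l → W.v ((l : Qb) ^ k) < ε := fun l => by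
    by_cases hl : l.Prime
    · have := Fact.mk hl
      obtain ⟨k, hk⟩ := exists_pow_lt_of_lt_one hε (nv_lt l 1)
      refine ⟨k, fun W e => ?_⟩
      obtain ⟨l', γ⟩ := W
      obtain rfl : l' = l := e
      rw [map_pow]
      refine lt_of_eq_of_lt ?_ hk
      simp only [Plc.v, nv_apply, map_natCast]
    · exact ⟨0, fun W e => absurd (e ▸ W.hl.out) hl⟩
  choose k hk using h
  refine ⟨∏ l ∈ B.filter Nat.Prime, l ^ k l, prod_ne_zero_iff.2 fun l hl =>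
    pow_ne_zero _ (mem_filter.1 hl).2.ne_zero, fun W hW => ?_, fun W hW => ?_⟩
  · rw [← prod_erase_mul _ _ (mem_filter.2 ⟨hW, W.hl.out⟩), Nat.cast_mul, Nat.cast_pow]
    exact (bLocA_mul_le (bLocA_nat W.na _)).trans_lt (hk _ W rfl)
  · rw [← Int.cast_natCast]
    refine one_HAPB W fun e => hW ?_
    obtain ⟨l, h1, h2⟩ := (W.hl.out.prime.dvd_finsetProd_iff _).1 (Int.natCast_dvd_natCast.1 e)
    rw [(Nat.prime_dvd_prime_iff_eq W.hl.out (mem_filter.1 h1).2).1 (W.hl.out.dvd_of_dvd_pow h2)]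
    exact (mem_filter.1 h1).1

theorem theta_HAPB {U : Subgroup GQ} (hU : IsOpen (U : Set GQ)) : ∃ θ : Qb, Fix U θ ∧
    (∀ W : Plc, W.v θ ≤ 1) ∧ ∀ g : GQ, g θ = θ → g ∈ U := by
  obtain ⟨L, _, h1, h2, -⟩ := Lib.RES U hU
  obtain ⟨α, hα⟩ := Field.exists_primitive_element ℚ L
  obtain ⟨y, hy, h3⟩ := ((IsFractionRing.isAlgebraic_iff ℤ ℚ Qb).2
    (Algebra.IsAlgebraic.isAlgebraic (α : Qb))).exists_integral_multiple
  refine ⟨y • (α : Qb), fun g hg => by rw [map_zsmul, (h1 _).1 α.2 g hg],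
    fun W => v_int W.na h3, fun g hg => h2 g fun x hx => ?_⟩
  rw [map_zsmul] at hg
  have h4 : g α = α := smul_right_injective Qb hy hg
  have h5 : (⟨x, hx⟩ : L) ∈ IntermediateField.adjoin ℚ {α} := hα ▸ IntermediateField.mem_top
  refine IntermediateField.adjoin_induction ℚ (p := fun z _ => g (z : L) = (z : L)) ?_ ?_ ?_ ?_ ?_ h5
  · rintro _ rfl
    exact h4
  · exact fun q => g.commutes q
  · intro a b _ _ ha hb
    rw [IntermediateField.coe_add, map_add, ha, hb]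
  · intro a _ ha
    rw [IntermediateField.coe_inv, map_inv₀, ha]
  · intro a b _ _ ha hb
    rw [IntermediateField.coe_mul, map_mul, ha, hb]

theorem APB_pf : APB_st := by
  intro U B α₀ ε hU hε h0 h1 hB
  have hX := Xs_trv hU (le_top (a := U))
  have hc := hX.card
  rw [Subgroup.relIndex_top_right] at hc
  generalize Xs U ⊤ = X at hX hc
  obtain ⟨M, M0, M1, M2⟩ := M_HAPB B hε
  obtain ⟨θ, t0, t1, t2⟩ := theta_HAPB hU
  have M0' : (M : Qb) ≠ 0 := Nat.cast_ne_zero.2 M0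
  obtain ⟨j, hj⟩ := avoid_HAPB X (Nat.lt_succ_self _)
    (fun y j => y ∉ U ∧ y (α₀ + M * (j * θ)) = α₀ + M * (j * θ)) fun y _ a _ b _ ha hb => by
      have e1 := ha.2
      have e2 := hb.2
      simp only [map_add, map_mul, map_natCast] at e1 e2
      have e : (M : Qb) * (y θ - θ) * (a - b) = 0 := by linear_combination e1 - e2
      exact_mod_cast sub_eq_zero.1 ((mul_eq_zero.1 e).resolve_left
        (mul_ne_zero M0' (sub_ne_zero.2 fun k => ha.1 (t2 y k))))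
  have a0 : Fix U (α₀ + M * (j * θ)) := fun g hg => by
    simp only [map_add, map_mul, map_natCast, h0 g hg, t0 g hg]
  have a2 : ∀ W : Plc, W.v (j * θ) ≤ 1 := fun W => bLocA_mul_one (bLocA_nat W.na _) (t1 W)
  have a1 : ∀ W : Plc, W.v (α₀ + M * (j * θ)) ≤ 1 := fun W =>
    bLocA_add_le W.na (h1 W) (bLocA_mul_one (bLocA_nat W.na _) (a2 W))
  have a3 : ∀ (b : ℕ) (W : Plc), W.l ∈ B → W.v (α₀ + M * (j * θ) + M * b - α₀) < ε := fun b W h => by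
    rw [show α₀ + M * (j * θ) + M * b - α₀ = (j * θ + b) * M by ring]
    exact (bLocA_mul_le (bLocA_add_le W.na (a2 W) (bLocA_nat W.na _))).trans_lt (M1 W h)
  generalize α₀ + M * (j * θ) = α₁ at hj a0 a1 a3
  have dec : ∀ g : GQ, ∃ y ∈ X, y⁻¹ * g ∈ U ∧ ∀ b : ℕ, g (α₁ + M * b) = y α₁ + M * b := fun g => by
    obtain ⟨y, ⟨y1, y2⟩, -⟩ := hX.2 g trivial
    refine ⟨y, y1, y2, fun b => ?_⟩
    rw [map_add, map_mul, map_natCast, map_natCast, ← mul_inv_cancel_left y g, AlgEquiv.mul_apply,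
      a0 _ y2]
  obtain ⟨n, n0, hn⟩ := unit_away (c := ∏ y ∈ X.filter (· ∉ U), (y α₁ - α₁))
    (prod_ne_zero_iff.2 fun y hy => sub_ne_zero.2 fun e =>
      hj y (mem_filter.1 hy).1 ⟨(mem_filter.1 hy).2, e⟩)
  have hb : ∀ q : ℕ, ∃ b : ℕ, ∀ W : Plc, W.l = q → q ∉ B → 1 ≤ W.v (α₁ + M * b) := fun q => by
    by_cases hq : q.Prime ∧ q ∉ B
    · have := Fact.mk hq.1
      let W₀ : Plc := ⟨q, 1⟩
      obtain ⟨b, hb⟩ := avoid_HAPB X (q := q) (hc ▸ not_le.1 fun e => hq.2 (hB q hq.1 e))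
        (fun y b => W₀.v (y α₁ + M * b) < 1) fun y _ a ha b hb e1 e2 => by
          have e := bLocA_sub_lt W₀.na e1 e2
          rw [show y α₁ + M * a - (y α₁ + M * b) = M * ((a - b : ℤ) : Qb) by push_cast; ring,
            map_mul, M2 W₀ hq.2, one_mul] at e
          have e3 : (q : ℤ) ∣ (a - b : ℤ) := by_contra fun k => e.ne (one_HAPB W₀ k)
          have := Int.eq_zero_of_abs_lt_dvd e3 (abs_lt.2 ⟨by omega, by omega⟩)
          omega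
      refine ⟨b, fun W e _ => ?_⟩
      obtain ⟨l', γ⟩ := W
      obtain rfl : l' = q := e
      obtain ⟨y, y1, -, y2⟩ := dec γ
      have := not_lt.1 (hb y y1)
      rwa [← y2 b] at this
    · exact ⟨0, fun W e k => absurd ⟨e ▸ W.hl.out, k⟩ hq⟩
  choose β hβ using hb
  obtain ⟨b, b0, b1⟩ : ∃ b : ℕ, α₁ + M * b ≠ 0 ∧ ∀ q ∈ n.primeFactors, b ≡ β q [MOD q] := by
    obtain ⟨b, hb⟩ := Nat.chineseRemainderOfFinset β id n.primeFactors
      (fun q hq => (Nat.prime_of_mem_primeFactors hq).ne_zero) fun p hp q hq e =>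
        (Nat.coprime_primes (Nat.prime_of_mem_primeFactors hp)
          (Nat.prime_of_mem_primeFactors hq)).2 e
    by_cases e : α₁ + M * b = 0
    · refine ⟨b + n, ?_, fun q hq => ?_⟩
      · rw [Nat.cast_add, mul_add, ← add_assoc, e, zero_add]
        exact mul_ne_zero M0' (Nat.cast_ne_zero.2 n0)
      · exact (hb q hq).add (Nat.modEq_zero_iff_dvd.2 (Nat.dvd_of_mem_primeFactors hq))
    · exact ⟨b, e, hb⟩
  refine ⟨α₁ + M * b, b0, fun g hg => by simp only [map_add, map_mul, map_natCast, a0 g hg],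
    fun W => bLocA_add_le W.na (a1 W) (bLocA_mul_one (bLocA_nat W.na _) (bLocA_nat W.na _)),
    a3 b, fun W hW h g hg => ?_⟩
  have k1 : W.v n = 1 := by
    rw [← Int.cast_natCast]
    refine one_HAPB W fun e => (hβ _ W rfl hW).not_gt ?_
    have := lt_HAPB W (b1 _ (Nat.mem_primeFactors.2
      ⟨W.hl.out, Int.natCast_dvd_natCast.1 e, n0⟩)).dvd
    rw [show α₁ + M * β W.l = α₁ + M * b + M * ((β W.l - b : ℤ) : Qb) by push_cast; ring]
    exact bLocA_add_lt W.na h ((bLocA_mul_le (bLocA_nat W.na _)).trans_lt this)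
  obtain ⟨y, y1, y2, y3⟩ := dec g
  by_cases hy : y ∈ U
  · exact mul_inv_cancel_left y g ▸ U.mul_mem hy y2
  have k2 := hn _ W.na k1
  have k3 := bLocA_sub_lt W.na ((hg _).trans_lt h) h
  rw [y3, add_sub_add_right_eq_sub] at k3
  rw [← prod_erase_mul _ _ (mem_filter.2 ⟨y1, hy⟩)] at k2
  refine absurd k2 ((bLocA_mul_le ?_).trans_lt k3).ne
  rw [map_prod]
  exact prod_le_one (fun _ _ => W.v.nonneg _) fun z _ => bLocA_sub_le W.na (a1 (W.mv z)) (a1 W)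

end Pool.Agent.MP_e23604_nt.W

end

section

set_option autoImplicit false

open Finset
open scoped Classical

namespace Pool.Agent.MP_e23604_nt.W

open B R S
open MP_3e91a1_nt (Step IsN Loc Nm Nrm Pl Ind)

theorem conj_HFRK (V : Plc) {g τ : GQ} (hg : g ∈ V.D) (hτ : τ ∈ V.I) : g * τ * g⁻¹ ∈ V.I :=
  ⟨Ine_conj hg.1 hτ.1, (Plc.cj_GK g τ).1 hτ.2⟩

theorem pw_HFRK (V : Plc) {σ τ : GQ} (hσ : σ ∈ V.D) (hτ : τ ∈ V.I) (i : ℕ) :
    ∃ τ' ∈ V.I, (σ * τ) ^ i = σ ^ i * τ' := by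
  induction i with
  | zero => exact ⟨1, V.I.one_mem, by simp⟩
  | succ i ih =>
    obtain ⟨t, h1, h2⟩ := ih
    refine ⟨σ⁻¹ * t * σ⁻¹⁻¹ * τ, V.I.mul_mem (conj_HFRK V (V.D.inv_mem hσ) h1) hτ, ?_⟩
    rw [pow_succ, h2, pow_succ]
    group

theorem quo_HFRK {V : Plc} {ϖ : Zw} {σ σ' : GQ} (h : FK V ϖ σ) (h' : FK V ϖ σ') :
    σ⁻¹ * σ' ∈ V.I := by
  refine V.mem_I.2 ⟨fun x hx => ?_, (V.D.mul_mem (V.D.inv_mem h.1) h'.1).2⟩
  rw [← (V.mem_D.1 h.1).1, map_sub, ← AlgEquiv.mul_apply, mul_inv_cancel_left,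
    ← sub_sub_sub_cancel_right _ _ (x ^ nn ϖ)]
  exact bLocA_sub_lt V.na (h'.2 x hx) (h.2 x hx)

theorem base_HFRK (hPLK : PLK_st) (V : Plc) (ϖ : Zw) (hp : Prime ϖ) (hV : Ov V ϖ) :
    ∃ σ, FK V ϖ σ ∧ ∀ N, ON N → ∀ g ∈ V.D, ∃ (i : ℕ) (τ : GQ), τ ∈ V.I ∧
      (σ ^ i * τ)⁻¹ * g ∈ N := by
  obtain ⟨⟨φ, hφ⟩, hF⟩ := R.FRO_ok V.l V.γ
  obtain ⟨-, -, h1, h2, -⟩ := hPLK.2.2.1 V ϖ hp hV
  have hK : ∀ {N : Subgroup GQ} {a g : GQ}, g ∈ V.D → a⁻¹ * g ∈ N ⊓ GK → a ∈ GK :=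
    fun hg e => GK.inv_mem_iff.1 ((GK.mul_mem_cancel_right hg.2).1 e.2)
  have key : ∀ σ, Frob V.l V.γ σ → σ ∈ GK → nn ϖ = V.l →
      FK V ϖ σ ∧ ∀ N, ON N → ∀ g ∈ V.D, ∃ (i : ℕ) (τ : GQ), τ ∈ V.I ∧
        (σ ^ i * τ)⁻¹ * g ∈ N := fun σ a1 a2 a3 => by
    refine ⟨⟨⟨a1.1, a2⟩, a3 ▸ a1.2⟩, fun N hN g hg => ?_⟩
    obtain ⟨i, τ, b1, b2⟩ := (hF σ a1).2.2.2.1 _ (hN.inf GK_on) g hg.1
    exact ⟨i, τ, ⟨b1, (GK.mul_mem_cancel_left (GK.pow_mem a2 i)).1 (hK hg b2)⟩, b2.1⟩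
  rcases h1 with ⟨-, a1, a2⟩ | ⟨a1, a2⟩ | ⟨a1, a2⟩
  · exact ⟨φ, key φ hφ (a2 hφ.1) a1⟩
  · have h3 := S.LOC_ok.2.1 V.l V.γ φ a1 hφ
    have h4 := GK_mul h3 h3
    refine ⟨φ * φ, ⟨⟨(Dec _).mul_mem hφ.1 hφ.1, h4⟩, fun x hx => ?_⟩, fun N hN g hg => ?_⟩
    · have e : (φ * φ) x - x ^ nn ϖ = φ (φ x - x ^ V.l) + (φ (x ^ V.l) - (x ^ V.l) ^ V.l) := by
        rw [a2, map_sub, AlgEquiv.mul_apply, ← pow_mul, sq]
        ring
      rw [e]
      refine bLocA_add_lt V.na ((hφ.1 _).trans_lt (hφ.2 x hx)) (hφ.2 _ ?_)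
      rw [map_pow]
      exact pow_le_one₀ (V.v.nonneg x) hx
    · obtain ⟨i, τ, b1, b2⟩ := (hF φ hφ).2.2.2.1 _ (hN.inf GK_on) g hg.1
      have b3 := (h2 (by omega)).2 b1
      have b4 := (GK.mul_mem_cancel_right b3).1 (hK hg b2)
      rcases Nat.even_or_odd' i with ⟨j, rfl | rfl⟩
      · exact ⟨j, τ, ⟨b1, b3⟩, by rw [← sq, ← pow_mul]; exact b2.1⟩
      · rw [pow_succ, pow_mul, sq] at b4
        exact absurd ((GK.mul_mem_cancel_left (GK.pow_mem h4 j)).1 b4) h3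
  · by_cases h3 : φ ∈ GK
    · exact ⟨φ, key φ hφ h3 (a2.trans a1.symm)⟩
    · obtain ⟨c, b1, b2⟩ : ∃ c ∈ Ine V.l V.γ, c ∉ GK := by
        obtain ⟨l, γ⟩ := V
        subst a1
        exact S.LOC_ok.2.2.2 γ
      exact ⟨φ * c, key _ ((hF φ hφ).2.1 c b1) (GK_mul h3 b2) (a2.trans a1.symm)⟩

theorem FRK_pf (hPLK : PLK_st) (hKM : KM_st) : FRK_st := by
  intro V ϖ hp hV
  obtain ⟨σ₀, h0, hg0⟩ := base_HFRK hPLK V ϖ hp hV
  obtain ⟨-, -, h1, -⟩ := hPLK.2.2.1 V ϖ hp hV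
  refine ⟨⟨σ₀, h0⟩, fun g hg τ hτ => conj_HFRK V hg hτ, fun e φ => ?_, fun σ hσ => ?_⟩
  · obtain ⟨-, a1, a2⟩ := h1.resolve_right (by omega)
    rw [FK, a1]
    exact ⟨fun h => ⟨h.1.1, h.2⟩, fun h => ⟨⟨h.1, a2 h.1⟩, h.2⟩⟩
  have hv := (V.mem_D.1 hσ.1).1
  have gen : ∀ N, ON N → ∀ g ∈ V.D, ∃ (i : ℕ) (τ : GQ), τ ∈ V.I ∧ (σ ^ i * τ)⁻¹ * g ∈ N :=
    fun N hN g hg => by
      obtain ⟨i, τ, b1, b2⟩ := hg0 N hN g hg
      obtain ⟨t, c1, c2⟩ := pw_HFRK V hσ.1 (quo_HFRK hσ h0) i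
      rw [mul_inv_cancel_left] at c2
      exact ⟨i, t * τ, V.I.mul_mem c1 b1, by rwa [← mul_assoc, ← c2]⟩
  refine ⟨fun σ' h' => quo_HFRK hσ h', fun τ hτ => ⟨⟨V.D.mul_mem hσ.1 (V.I_le hτ), fun x hx => ?_⟩,
    V.D.mul_mem (V.I_le hτ) hσ.1, fun x hx => ?_⟩, fun g ϖ' e => ⟨?_, fun x hx => ?_⟩, gen,
    fun W hW a1 a2 g hg => ?_, fun n hn => ?_⟩
  · rw [AlgEquiv.mul_apply, ← sub_add_sub_cancel _ (σ x), ← map_sub]
    exact bLocA_add_lt V.na ((hv _).trans_lt (hτ.1 x hx)) (hσ.2 x hx)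
  · rw [AlgEquiv.mul_apply, ← sub_add_sub_cancel _ (σ x)]
    exact bLocA_add_lt V.na (hτ.1 _ ((hv x).trans_le hx)) (hσ.2 x hx)
  · rw [V.mv_D]
    simpa [mul_assoc] using hσ.1
  · rw [V.mv_v, map_sub, map_pow, ← AlgEquiv.mul_apply, mul_assoc, mul_inv_cancel_left, e]
    exact hσ.2 _ hx
  · obtain ⟨N, b1, b2⟩ := ex_ON hW
    obtain ⟨i, τ, c1, c2⟩ := gen N b1 g hg
    exact (W.mul_mem_cancel_left (W.inv_mem (W.mul_mem (W.pow_mem a1 i) (a2 c1)))).1 (b2 c2)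
  · have hl : V.l ∣ nn ϖ := by
      rcases h1 with ⟨-, a, -⟩ | ⟨-, a⟩ | ⟨a, b⟩
      exacts [a ▸ dvd_rfl, a ▸ dvd_pow_self _ two_ne_zero, a ▸ b ▸ dvd_rfl]
    have h2 : 2 ≤ nn ϖ := V.hl.out.two_le.trans (Nat.le_of_dvd (nn_pos hp.ne_zero) hl)
    have h3 := Nat.one_lt_pow hn h2
    have hm : nn ϖ ^ n - 1 ≠ 0 := by omega
    have hd : ¬ V.l ∣ nn ϖ ^ n - 1 := fun h => by
      have h4 := Nat.dvd_sub (hl.trans (dvd_pow_self _ hn)) h
      rw [Nat.sub_sub_self h3.le] at h4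
      exact V.hl.out.one_lt.ne' (Nat.dvd_one.1 h4)
    have hz := zt_prim hm
    have hf : σ (zt (nn ϖ ^ n - 1)) = zt (nn ϖ ^ n - 1) ^ nn ϖ := by
      rw [cy_spec hm, ((hKM _ hm).2.2.2.2.2.2.2.2 V hd).2.2 ϖ σ hσ, zt_nat hm]
    generalize zt (nn ϖ ^ n - 1) = z at hz hf
    generalize nn ϖ = q at h2 hz hf hd
    obtain ⟨N, hN, hx⟩ := exists_ON_fix {z}
    have ex : ∀ g ∈ V.D, ∃ i : ℕ, g z = z ^ q ^ i := fun g hg => by
      obtain ⟨i, τ, hτ, e⟩ := gen N hN g hg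
      have := congrArg (σ ^ i * τ) (hx z (mem_singleton_self z) _ e)
      rw [← AlgEquiv.mul_apply, mul_inv_cancel_left, AlgEquiv.mul_apply,
        root_CTQ hτ.1 hd hz.pow_eq_one, pow_CTQ hf] at this
      exact ⟨i, this⟩
    let F : Qb → ZMod n := fun y => ((Classical.epsilon fun i : ℕ => y = z ^ q ^ i : ℕ) : ZMod n)
    have hF : ∀ i : ℕ, F (z ^ q ^ i) = i := fun i =>
      (log_CTQ h2 hn hz hf (Classical.epsilon_spec (p := fun j : ℕ => z ^ q ^ i = z ^ q ^ j)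
        ⟨i, rfl⟩)).symm
    refine ⟨fun g => F (g z), fun g hg h hh => ?_, (Lc.apply _ z).map F, fun τ hτ => ?_, ?_⟩
    · obtain ⟨i, hi⟩ := ex g hg
      obtain ⟨j, hj⟩ := ex h hh
      simp only [AlgEquiv.mul_apply]
      rw [hj, map_pow, hi, ← pow_mul, ← pow_add, hF, hF, hF, Nat.cast_add]
    · have := hF 0
      rw [pow_zero, pow_one, Nat.cast_zero] at this
      simp only [root_CTQ hτ.1 hd hz.pow_eq_one, this]
    · have := hF 1
      rw [pow_one, Nat.cast_one] at this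
      simp only [hf, this]

end Pool.Agent.MP_e23604_nt.W

end

section

set_option autoImplicit false

open Finset
open scoped Classical

namespace Pool.Agent.MP_e23604_nt.W

open B R S
open MP_3e91a1_nt (Step IsN Loc Nm Nrm Pl Ind)

theorem root_HPLc {l : ℕ} (hl : l.Prime) (h3 : l % 3 = 1) : ∃ a : ℤ, (l : ℤ) ∣ a ^ 2 + a + 1 := by
  have := Fact.mk hl
  have := Fact.mk Nat.prime_three
  have h1 : 3 ∣ Fintype.card (ZMod l)ˣ := by
    rw [ZMod.card_units]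
    have := hl.two_le
    omega
  obtain ⟨u, hu⟩ := exists_prime_orderOf_dvd_card 3 h1
  have h2 : (u : ZMod l) ^ 3 = 1 := by
    rw [← Units.val_pow_eq_pow_val, ← hu, pow_orderOf_eq_one, Units.val_one]
  have h4 : (u : ZMod l) - 1 ≠ 0 := fun e => by
    have : u = 1 := Units.ext (sub_eq_zero.1 e)
    rw [this, orderOf_one] at hu
    omega
  refine ⟨((u : ZMod l).val : ℤ), (ZMod.intCast_zmod_eq_zero_iff_dvd _ l).1 ?_⟩
  push_cast
  rw [ZMod.natCast_zmod_val]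
  apply mul_left_cancel₀ h4
  linear_combination h2

theorem im_HPLc {l : ℕ} {z : Zw} (h : (l : Zw) ∣ z) : (l : ℤ) ∣ z.im := by
  obtain ⟨c, rfl⟩ := h
  exact ⟨c.im, by simp⟩

theorem split_HPLc {l : ℕ} (hl : l.Prime) (h3 : l % 3 = 1) : ¬ Prime (l : Zw) := fun hp => by
  obtain ⟨a, c, hc⟩ := root_HPLc hl h3
  have h1 : (l : Zw) ∣ ((a : Zw) - QuadraticAlgebra.omega) * ((a : Zw) + 1 + QuadraticAlgebra.omega) := by
    refine ⟨(c : Zw), ?_⟩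
    have e : ((a ^ 2 + a + 1 : ℤ) : Zw) = ((l * c : ℤ) : Zw) := by rw [hc]
    push_cast at e
    linear_combination e - ww
  have h2 : ¬ (l : ℤ) ∣ 1 := fun e => hl.ne_one (by exact_mod_cast Int.eq_one_of_dvd_one (by positivity) e)
  rcases hp.dvd_or_dvd h1 with h | h
  · exact h2 (by simpa using im_HPLc h)
  · exact h2 (by simpa [QuadraticAlgebra.im_one] using im_HPLc h)

theorem int_HPLc {l : ℕ} (hl : l.Prime) {ϖ : Zw} (hn : nn ϖ = l) {n : ℤ} (h : ϖ ∣ (n : Zw)) :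
    (l : ℤ) ∣ n := by
  have h1 : (l : ℤ) ∣ n ^ 2 := by
    have := Int.natCast_dvd_natCast.2 (nn_dvd h)
    rw [hn, nn_cast, nw_def] at this
    simpa using this
  exact (Nat.prime_iff_prime_int.1 hl).dvd_of_dvd_pow h1

theorem star_HPLc {l : ℕ} (hl : l.Prime) (h3 : l ≠ 3) {ϖ : Zw} (hp : Prime ϖ) (hn : nn ϖ = l) :
    ¬ ϖ ∣ star ϖ := fun h => by
  have e : ϖ - star ϖ = (ϖ.im : Zw) * pw := by
    rw [show pw = ⟨1, 2⟩ by decide]
    ext
    · simp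
    · simp
      ring
  have h1 : ϖ ∣ (ϖ.im : Zw) * pw := e ▸ dvd_sub dvd_rfl h
  rcases hp.dvd_or_dvd h1 with h2 | h2
  · have h4 : ϖ ∣ (ϖ.re : Zw) := by
      have := dvd_sub (dvd_refl ϖ) (h2.mul_right QuadraticAlgebra.omega)
      rwa [show ϖ - (ϖ.im : Zw) * QuadraticAlgebra.omega = (ϖ.re : Zw) by
        linear_combination Zw_eq ϖ] at this
    obtain ⟨x, hx⟩ := int_HPLc hl hn h2
    obtain ⟨y, hy⟩ := int_HPLc hl hn h4
    have h5 : (l : Zw) ∣ ϖ := ⟨(y : Zw) + (x : Zw) * QuadraticAlgebra.omega, by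
      rw [Zw_eq ϖ, hx, hy]
      push_cast
      ring⟩
    have h6 := nn_dvd h5
    rw [nn_nat, hn] at h6
    have := Nat.le_of_dvd hl.pos h6
    have := hl.two_le
    nlinarith
  · have h4 := nn_dvd h2
    rw [hn, nn_pw] at h4
    exact h3 ((Nat.prime_dvd_prime_iff_eq hl Nat.prime_three).1 h4)

theorem vl_HPLc (V : Plc) : V.v (V.l : Qb) = (V.l : ℝ)⁻¹ := by
  have h := R.DIC_ok.2.2.1 V.l V.γ (V.l : ℚ) (Nat.cast_ne_zero.2 V.hl.out.ne_zero)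
  rw [padicValRat.self V.hl.out.one_lt] at h
  simpa [Plc.v] using h

theorem PLc_pf (hPLa : PLa_st) (hPLb : PLb_st) : PLc_st := by
  intro V ϖ hp ho
  obtain ⟨-, -, b3, b4, b5, b6⟩ := hPLb
  have hl := V.hl.out
  have hd : ϖ ∣ (V.l : Zw) := (b3 V ϖ hp ho _).1 (Ov_l V)
  have hn1 : nn ϖ ≠ 1 := fun e => hp.not_isUnit (nn_unit.2 e)
  have hn : nn ϖ = V.l ∨ nn ϖ = V.l ^ 2 := by
    have h := nn_dvd hd
    rw [nn_nat] at h
    obtain ⟨i, hi, e⟩ := (Nat.dvd_prime_pow hl).1 h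
    interval_cases i
    · exact absurd e hn1
    · exact Or.inl (by simpa using e)
    · exact Or.inr e
  have hu : nn ϖ = V.l ^ 2 → ∃ c, IsUnit c ∧ (V.l : Zw) = ϖ * c := fun e => by
    obtain ⟨c, hc⟩ := hd
    refine ⟨c, nn_unit.2 ?_, hc⟩
    have h := congrArg nn hc
    rw [nn_nat, nn_mul, e] at h
    have h0 : 0 < V.l ^ 2 := pow_pos hl.pos 2
    exact Nat.eq_of_mul_eq_mul_left h0 (by omega)
  have k1 : V.l % 3 = 1 → nn ϖ = V.l := fun h3 => hn.resolve_right fun e => by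
    obtain ⟨c, hc, e'⟩ := hu e
    exact split_HPLc hl h3 (e' ▸ (associated_mul_unit_right ϖ c hc).prime hp)
  have k2 : V.l % 3 = 2 → nn ϖ = V.l ^ 2 := fun h3 => hn.resolve_left fun e => by
    have := nn_mod3 (a := ϖ) fun h => by
      have := pw_dvd_iff.1 h
      omega
    omega
  have k3 : V.l = 3 → ϖ ∣ pw := fun h3 => by
    refine hp.dvd_of_dvd_pow (n := 2) ?_
    rw [pw_sq, dvd_neg]
    simpa [h3] using hd
  have k0 : V.l % 3 = 1 ∨ V.l % 3 = 2 ∨ V.l = 3 := by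
    by_cases h : 3 ∣ V.l
    · exact Or.inr (Or.inr ((Nat.prime_dvd_prime_iff_eq Nat.prime_three hl).1 h).symm)
    · omega
  have k4 : V.l ≠ 3 → nn ϖ = V.l → ¬ Ov V (star ϖ) := fun h3 e h =>
    star_HPLc hl h3 hp e ((b3 V ϖ hp ho _).1 h)
  refine ⟨fun V' ho' => ?_, ?_, fun h3 => ⟨?_, Ine_GK _ h3⟩, fun h3 => ?_, fun b k => ?_⟩
  · have e : V'.l = V.l :=
      (Nat.prime_dvd_prime_iff_eq V'.hl.out hl).1 ((b4 V' _).1 (ho'.dvd hd))
    obtain ⟨g, hg⟩ := (b5 V V').1 e.symm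
    refine ⟨e, ?_⟩
    by_cases h : g ∈ GK
    · exact ⟨g, h, hg⟩
    have h1 : Ov V (star ϖ) := ((b6 V g ϖ).2 h).1 (by rwa [Ov, ← hg])
    obtain ⟨c, c1, c2⟩ : ∃ c ∈ Dec V.v, c ∉ GK := by
      rcases k0 with h3 | h3 | h3
      · exact absurd h1 (k4 (by omega) (k1 h3))
      · obtain ⟨φ, hφ⟩ := (R.FRO_ok V.l V.γ).1
        exact ⟨φ, hφ.1, S.LOC_ok.2.1 V.l V.γ φ h3 hφ⟩
      · obtain ⟨l, γ⟩ := V
        obtain rfl : l = 3 := h3
        obtain ⟨c, c1, c2⟩ := S.LOC_ok.2.2.2 γ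
        exact ⟨c, Ine_le _ _ c1, c2⟩
    refine ⟨c * g, GK_mul c2 h, hg.trans (AbsoluteValue.ext fun x => ?_)⟩
    rw [Plc.mv_v, Plc.mv_v, AlgEquiv.mul_apply, c1]
  · rcases k0 with h3 | h3 | h3
    · exact Or.inl ⟨h3, k1 h3, S.LOC_ok.2.2.1 V.l V.γ h3⟩
    · exact Or.inr (Or.inl ⟨h3, k2 h3⟩)
    · refine Or.inr (Or.inr ⟨h3, ?_⟩)
      have h := nn_dvd (k3 h3)
      rw [nn_pw] at h
      exact ((Nat.dvd_prime Nat.prime_three).1 h).resolve_left hn1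
  · rw [← vl_HPLc, ← map_natCast io]
    rcases hn with e | e
    · rw [← e, ← mul_star_nn, map_mul, map_mul, not_Ov.1 (k4 h3 e), mul_one]
    · obtain ⟨c, hc, e'⟩ := hu e
      rw [e', map_mul, map_mul, not_Ov.1 (not_Ov_unit V hc), mul_one]
  · obtain ⟨c, hc⟩ := k3 h3
    have h1 : IsUnit c := (pw_prime.irreducible.isUnit_or_isUnit hc).resolve_left hp.not_isUnit
    have h2 := vl_HPLc V
    have h4 := congrArg V.v io_pw_sq
    rw [hc, map_mul, map_pow, map_mul, not_Ov.1 (not_Ov_unit V h1), mul_one, AbsoluteValue.map_neg] at h4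
    rw [h3] at h2
    rw [h4]
    exact_mod_cast h2
  · have h0 : 0 < V.v (io ϖ) := V.v.pos (io_ne hp.ne_zero)
    constructor
    · rintro ⟨c, rfl⟩
      rw [map_mul, map_mul, map_pow, map_pow]
      exact mul_le_of_le_one_right (pow_pos h0 k).le (V.io_le c)
    · intro h
      by_cases hb : b = 0
      · exact hb ▸ dvd_zero _
      obtain ⟨j, c, hc, rfl⟩ := WfDvdMonoid.max_power_factor hb hp.irreducible
      have h1 : ¬ Ov V c := fun e => hc ((b3 V ϖ hp ho c).1 e)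
      rw [map_mul, map_mul, map_pow, map_pow, not_Ov.1 h1, mul_one] at h
      exact (pow_dvd_pow ϖ ((pow_le_pow_iff_right_of_lt_one₀ h0 ho).1 h)).mul_right c

end Pool.Agent.MP_e23604_nt.W

end

section

set_option autoImplicit false

open Finset
open scoped Classical

namespace Pool.Agent.MP_e23604_nt.W

open B R S
open MP_3e91a1_nt (Step IsN Loc Nm Nrm Pl Ind)

section
variable {R : Type} [CommRing R]

/-- the module of restricted cocycles -/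
def cm_HLOC3 (θ : GQ → R) (H : Subgroup GQ) : Submodule R (H → R) where
  carrier := rs H (Co θ H)
  add_mem' := fun ⟨x, hx, e⟩ ⟨x', hx', e'⟩ => ⟨fun g => x g + x' g, ⟨hx.1.map₂ hx'.1 (· + ·),
    fun g hg h hh => by
      simp only [hx.2 g hg h hh, hx'.2 g hg h hh]
      ring⟩, fun g => by rw [Pi.add_apply, e, e']⟩
  zero_mem' := ⟨fun _ => 0, ⟨Lc.const _ _, fun _ _ _ _ => by simp⟩, fun _ => rfl⟩
  smul_mem' := fun c _ ⟨x, hx, e⟩ => ⟨fun g => c * x g, ⟨hx.1.map (c * ·), fun g hg h hh => by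
      simp only [hx.2 g hg h hh]
      ring⟩, fun g => by rw [Pi.smul_apply, e, smul_eq_mul]⟩

theorem kill_HLOC3 {t a b : R} (h : t * a = 0) (e : t ∣ b) : b * a = 0 := by
  obtain ⟨c, rfl⟩ := e
  rw [mul_comm t, mul_assoc, h, mul_zero]

theorem red_HLOC3 {k : ℕ} (hk : k ≠ 0) (j : ZMod (3 * k) →+* R) (z : ZMod (3 * k)) :
    3 ∣ j z - (ZMod.castHom (dvd_mul_right 3 k) (ZMod 3) z).val := by
  have : NeZero (3 * k) := ⟨mul_ne_zero three_ne_zero hk⟩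
  rw [← ZMod.natCast_zmod_val z, map_natCast, map_natCast, ZMod.val_natCast]
  refine ⟨(z.val / 3 : ℕ), ?_⟩
  rw [sub_eq_iff_eq_add]
  exact_mod_cast congrArg (Nat.cast : ℕ → R) (Nat.div_add_mod z.val 3).symm

theorem fun_HLOC3 (hFUN : FUN_st) {t x : R} (h3 : t ∣ 3) (hx : t * x = 0) (h0 : x ≠ 0) :
    ∃ ℓ : R → ZMod 3, ℓ x ≠ 0 ∧ (∀ a b, t * a = 0 → t * b = 0 → ℓ (a + b) = ℓ a + ℓ b) ∧
      ∀ (m : ℕ) a, t * a = 0 → ℓ (m * a) = m * ℓ a := by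
  obtain ⟨ℓ, hℓ⟩ := hFUN 3 (Submodule.torsionBy R R t) ⟨x, hx⟩ three_ne_zero
    (fun y => Subtype.ext (by simpa using kill_HLOC3 y.2 h3)) fun e => h0 (congrArg Subtype.val e)
  obtain ⟨L, hL⟩ : ∃ L : R → ZMod 3, ∀ (r : R) (h : t * r = 0), L r = ℓ ⟨r, h⟩ :=
    ⟨fun r => if h : t * r = 0 then ℓ ⟨r, h⟩ else 0, fun _ h => dif_pos h⟩
  refine ⟨L, by rwa [hL x hx], fun a b ha hb => ?_, fun m a ha => ?_⟩
  · rw [hL a ha, hL b hb, hL _ (by rw [mul_add, ha, hb, add_zero]), ← map_add]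
    rfl
  · rw [hL a ha, hL _ (by rw [mul_left_comm, ha, mul_zero]), ← nsmul_eq_mul m (ℓ _), ← map_nsmul]
    exact congrArg ℓ (Subtype.ext (by simp))

theorem soc_HLOC3 (hDM4 : DM4_st) {t : R} {N : ℕ} (h : Chn t N) (h3 : t ∣ 3) {θ : GQ → R}
    (hθ : ∀ g ∈ V3.D, t ∣ θ g - 1) : {x : cm_HLOC3 θ V3.D | t • x = 0}.Finite ∧
      {x : cm_HLOC3 θ V3.D | t • x = 0}.ncard ≤ kp t ^ (3 + 1) := by
  obtain ⟨y, hy, hD⟩ := hDM4
  have := h.fin
  let f : {x : cm_HLOC3 θ V3.D | t • x = 0} → Fin 4 → {r : R // t * r = 0} :=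
    fun x i => ⟨x.1.1 ⟨y i, hy i⟩, congrFun (congrArg Subtype.val x.2) ⟨y i, hy i⟩⟩
  have hf : Function.Injective f := by
    intro x x' e
    obtain ⟨c, hc, ec⟩ := (x.1 - x'.1).2
    have h1 : t • (x.1 - x'.1) = 0 := by rw [smul_sub, x.2, x'.2, sub_zero]
    have h2 : ∀ g ∈ V3.D, t * c g = 0 := fun g hg => by
      rw [← ec ⟨g, hg⟩]
      exact congrFun (congrArg Subtype.val h1) ⟨g, hg⟩
    refine Subtype.ext (sub_eq_zero.1 (Subtype.ext (funext fun g => (ec g).trans ?_)))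
    refine hD R c (fun g hg k hk => ?_) hc.1 (fun g hg => ?_) (fun i => ?_) g g.2
    · linear_combination hc.2 g hg k hk + kill_HLOC3 (h2 k hk) (hθ g hg)
    · simpa using kill_HLOC3 (h2 g hg) h3
    · rw [← ec ⟨y i, hy i⟩]
      exact sub_eq_zero.2 (congrArg Subtype.val (congrFun e i))
  refine ⟨Set.finite_coe_iff.1 (Finite.of_injective f hf), ?_⟩
  have h4 := h.vl_pow 1
  rw [pow_one, min_eq_right h.pos] at h4
  rw [← Nat.card_coe_set_eq]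
  refine (Nat.card_le_card_of_injective f hf).trans_eq ?_
  rw [Nat.card_fun, h.card_ann, h4, pow_one, Nat.card_eq_fintype_card, Fintype.card_fin]

theorem gen_HLOC3 (hNDG : NDG_st) (hFUN : FUN_st) (hKM : KM_st) {k : ℕ} (hk : k ≠ 0)
    (j : ZMod (3 * k) →+* R) {t : R} {θ : GQ → R} (h3 : t ∣ 3) (hM : Mu V3.D θ)
    (hθ : ∀ g ∈ V3.D, t ∣ θ g - 1) {T : R} (hT : ∀ g ∈ V3.D, t * (T * (cj j g - θ g)) = 0)
    {g₁ : GQ} (hg₁ : g₁ ∈ V3.D) (h1 : T * (cj j g₁ - θ g₁) ≠ 0) :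
    ∃ x : cm_HLOC3 θ V3.D, (∀ g, t * T ∣ x.1 g) ∧ ∀ y, x ≠ t • y := by
  have hK : 3 * k ≠ 0 := mul_ne_zero three_ne_zero hk
  have c3 : ∀ g ∈ V3.D, cy 3 g = 1 := fun g hg =>
    ((hKM 3 three_ne_zero).2.2.2.2.2.2.2.1 g (V3.D_le hg)).1
  have hκ : ∀ g ∈ V3.D, t ∣ cj j g - 1 := fun g hg => by
    have := red_HLOC3 hk j (cy (3 * k) g)
    rw [← cy_cast three_ne_zero hk, c3 g hg] at this
    exact h3.trans (by simpa [ZMod.val_one, cj] using this)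
  have κm : ∀ g h, cj j (g * h) = cj j g * cj j h := fun g h => by
    rw [cj, cy_mul hK, map_mul, cj, cj]
  obtain ⟨ℓ, l0, l1, l2⟩ := fun_HLOC3 hFUN h3 (hT g₁ hg₁) h1
  obtain ⟨u, u0, u1, u2⟩ := hNDG V3 (fun g => ℓ (T * (cj j g - θ g))) (fun g hg h hh => by
      beta_reduce
      rw [← l1 _ _ (hT g hg) (hT h hh), κm, hM.2.2 g hg h hh]
      congr 1
      linear_combination kill_HLOC3 (hT h hh) (hκ g hg) + kill_HLOC3 (hT g hg) (hθ h hh))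
    ((cy_lc _ _).map₂ hM.1 fun a b => ℓ (T * (j a - b))) ⟨g₁, hg₁, l0⟩
  have kk : ∀ g, ∀ h ∈ V3.D, j (km (3 * k) (g * h) u) =
      cj j g * j (km (3 * k) h u) + j (km (3 * k) g u) := fun g h hh => by
    rw [km_mul hK g h u0, u1 h hh, map_add, map_mul, cj]
  refine ⟨⟨fun g => t * T * j (km (3 * k) g u), fun g => t * T * j (km (3 * k) g u),
    ⟨(km_lc _ _ u).map fun a => t * T * j a, fun g hg h hh => ?_⟩, fun _ => rfl⟩,
    fun g => dvd_mul_right _ _, fun y e => u2 ?_⟩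
  · beta_reduce
    rw [kk g h hh]
    linear_combination j (km (3 * k) h u) * hT g hg
  obtain ⟨c, hc, ec⟩ := y.2
  have hβ : ∀ g ∈ V3.D, t * (c g - T * j (km (3 * k) g u)) = 0 := fun g hg => by
    have h2 : t * T * j (km (3 * k) g u) = t * y.1 ⟨g, hg⟩ :=
      congrFun (congrArg Subtype.val e) ⟨g, hg⟩
    rw [ec] at h2
    linear_combination -h2
  refine ⟨fun g => ℓ (c g - T * j (km (3 * k) g u)),
    hc.1.map₂ (km_lc _ _ u) fun a b => ℓ (a - T * j b), fun g hg h hh => ?_⟩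
  have h2 := red_HLOC3 hk j (km (3 * k) h u)
  rw [← km_cast three_ne_zero hk u0 (u1 h hh) (c3 h hh)] at h2
  have h4 := l2 (km 3 h u).val _ (hT g hg)
  have h5 := l1 _ _ (hβ _ (V3.D.mul_mem hg hh)) (show t * (((km 3 h u).val : R) *
    (T * (cj j g - θ g))) = 0 by rw [mul_left_comm, hT g hg, mul_zero])
  rw [h4, ZMod.natCast_zmod_val, show c (g * h) - T * j (km (3 * k) (g * h) u) +
      ((km 3 h u).val : R) * (T * (cj j g - θ g)) =
      c g - T * j (km (3 * k) g u) + (c h - T * j (km (3 * k) h u)) by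
    rw [hc.2 g hg h hh, kk g h hh]
    linear_combination kill_HLOC3 (hβ h hh) (hθ g hg) - kill_HLOC3 (hT g hg) (h3.trans h2),
    l1 _ _ (hβ g hg) (hβ h hh)] at h5
  linear_combination -h5

theorem fin_HLOC3 (hMOD : MOD_st) {t : R} {N i : ℕ} (h : Chn t N) {θ : GQ → R} {H : Subgroup GQ}
    (hi : i ≤ N) (h1 : {x : cm_HLOC3 θ H | t • x = 0}.Finite ∧
      {x : cm_HLOC3 θ H | t • x = 0}.ncard ≤ kp t ^ (3 + 1))
    (h2 : i < N → ∃ x : cm_HLOC3 θ H, (∀ g, t ^ (N - i) ∣ x.1 g) ∧ ∀ y, x ≠ t • y) :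
    (rs H (Co θ H)).Finite ∧ (rs H (Co θ H)).ncard ≤ Nat.card R ^ 3 * kp t ^ i := by
  have h3 : i < N → ∃ x : cm_HLOC3 θ H, t ^ i • x = 0 ∧ ∀ y, x ≠ t • y := fun hi' => by
    obtain ⟨x, x1, x2⟩ := h2 hi'
    exact ⟨x, Subtype.ext (funext fun g => h.pow_mul_eq_zero.2 (x1 g)), x2⟩
  have f := hMOD R t N 3 i (cm_HLOC3 θ H) h hi h1.1 h1.2 h3
  refine ⟨Set.finite_coe_iff.1 f.1, ?_⟩
  rw [← Nat.card_coe_set_eq, h.card_eq, ← pow_mul, ← pow_add, mul_comm N]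
  exact f.2

end

theorem LOC3_pf (hMOD : MOD_st) (hDM4 : DM4_st) (hNDG : NDG_st) (hFUN : FUN_st) (hKM : KM_st) : LOC3_st := by
  intro R _ n N j t θ g₀ h hM hθ hg₀
  have h0 : (3 : R) ^ n = 0 := by exact_mod_cast j_zero j
  have h3 : t ∣ 3 := by
    have := h.nontriv
    exact by_contra fun e => ((h.unit_iff.2 e).pow n).ne_zero h0
  obtain ⟨k, hk⟩ : 3 ∣ 3 ^ n := dvd_pow_self 3 fun e => h.ne (by
    rw [e, pow_zero] at h0
    rw [← mul_one (t ^ _), h0, mul_zero])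
  have k0 : k ≠ 0 := fun e => (pow_pos three_pos n).ne' (by rw [hk, e, mul_zero])
  generalize 3 ^ n = K at j hk
  subst hk
  obtain ⟨g₁, hg₁, hm⟩ := h.ex_min (S := V3.D) ⟨g₀, hg₀⟩ fun g => θ g - cj j g
  have hv := vl_dvd t N (θ g₁ - cj j g₁)
  have hl : ∀ m, m ≤ N → t ^ m ∣ θ g₁ - cj j g₁ → m ≤ vl t N (θ g₁ - cj j g₁) :=
    fun m h1 => (le_vl h1).2
  have hb := vl_mono (t := t) (N := N) (hm g₀ hg₀)
  have hN := vl_le t N (θ g₁ - cj j g₁)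
  generalize vl t N (θ g₁ - cj j g₁) = i at hv hl hb hN
  refine (fin_HLOC3 hMOD h hN (soc_HLOC3 hDM4 h h3 hθ) fun hi => ?_).imp id fun f =>
    f.trans (Nat.mul_le_mul_left _ (Nat.pow_le_pow_right (by have := h.two_le; omega) hb))
  have e : t * t ^ (N - 1 - i) = t ^ (N - i) := by
    rw [← pow_succ']
    congr 1
    omega
  rw [← e]
  refine gen_HLOC3 hNDG hFUN hKM k0 j h3 hM hθ (fun g hg => ?_) hg₁ fun e' => ?_
  · rw [← mul_assoc, e, h.pow_mul_eq_zero, Nat.sub_sub_self hi.le, ← neg_sub, dvd_neg]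
    exact hv.trans (hm g hg)
  · rw [h.pow_mul_eq_zero, ← neg_sub, dvd_neg] at e'
    have := hl _ (Nat.sub_le _ _) e'
    omega

end Pool.Agent.MP_e23604_nt.W

end

section

set_option autoImplicit false

open Finset
open scoped Classical

namespace Pool.Agent.MP_e23604_nt.W

open B R S
open MP_3e91a1_nt (Step IsN Loc Nm Nrm Pl Ind)

/-- two points detect a family in which any three functions are dependent -/
theorem pts_HDM4 (H : Subgroup GQ) (P : (GQ → ZMod 3) → Prop)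
    (h : ∀ a : Fin 3 → GQ → ZMod 3, (∀ i, P (a i)) →
      ∃ c : Fin 3 → ZMod 3, c ≠ 0 ∧ ∀ g ∈ H, ∑ i, c i * a i g = 0) :
    ∃ y ∈ H, ∃ z ∈ H, ∀ f, P f → f y = 0 → f z = 0 → ∀ g ∈ H, f g = 0 := by
  have : Fact (Nat.Prime 3) := ⟨Nat.prime_three⟩
  by_cases h0 : ∀ f, P f → ∀ g ∈ H, f g = 0
  · exact ⟨1, H.one_mem, 1, H.one_mem, fun f hf _ _ => h0 f hf⟩
  push Not at h0
  obtain ⟨f0, p0, y, hy, e0⟩ := h0
  by_cases h1 : ∀ f, P f → f y = 0 → ∀ g ∈ H, f g = 0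
  · exact ⟨y, hy, y, hy, fun f hf e _ => h1 f hf e⟩
  push Not at h1
  obtain ⟨f1, p1, e1, z, hz, e2⟩ := h1
  refine ⟨y, hy, z, hz, fun f hf e3 e4 g hg => ?_⟩
  obtain ⟨c, hc, hs⟩ := h ![f0, f1, f] (fun i => by fin_cases i <;> assumption)
  simp only [Fin.sum_univ_three, Matrix.cons_val_zero, Matrix.cons_val_one, Matrix.cons_val_two,
    Matrix.head_cons, Matrix.tail_cons] at hs
  have a0 := hs y hy
  rw [e1, e3, mul_zero, mul_zero, add_zero, add_zero, mul_eq_zero] at a0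
  have c0 : c 0 = 0 := a0.resolve_right e0
  have a1 := hs z hz
  rw [c0, e4, zero_mul, mul_zero, add_zero, zero_add, mul_eq_zero] at a1
  have c1 : c 1 = 0 := a1.resolve_right e2
  have a2 := hs g hg
  rw [c0, c1, zero_mul, zero_mul, add_zero, zero_add, mul_eq_zero] at a2
  refine a2.resolve_left fun c2 => hc ?_
  funext i
  fin_cases i
  · exact c0
  · exact c1
  · exact c2

theorem cj_HDM4 {D : Subgroup GQ} {c g : GQ} (hc : c ∈ D) (hg : g ∈ D ⊓ GK) :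
    c * g * c⁻¹ ∈ D ⊓ GK :=
  ⟨D.mul_mem (D.mul_mem hc hg.1) (D.inv_mem hc), GK_on.1.conj_mem _ hg.2 c⟩

/-- extension of an eigenfunction to the whole group -/
theorem ext_HDM4 {D : Subgroup GQ} {c : GQ} (hc : c ∈ D) (hn : c ∉ GK) (s : ZMod 3)
    (b : GQ → ZMod 3) (ha : Adt (D ⊓ GK) b) (hl : Lc (D ⊓ GK) b)
    (hs : ∀ g ∈ D ⊓ GK, b (c * g * c⁻¹) = s * b g) :
    ∃ f : GQ → ZMod 3, Lc D f ∧ (∀ g ∈ GK, f g = b g) ∧
      ∀ g ∈ D, ∀ h ∈ D, f (g * h) = f g + (if g ∈ GK then 1 else s) * f h := by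
  have hi : c⁻¹ ∉ GK := by rwa [GK.inv_mem_iff]
  have h1 : ∀ g ∈ D, g ∉ GK → g * c⁻¹ ∈ D ⊓ GK := fun g hg e =>
    ⟨D.mul_mem hg (D.inv_mem hc), GK_mul e hi⟩
  have h2 : c * c ∈ D ⊓ GK := ⟨D.mul_mem hc hc, GK_mul hn hn⟩
  refine ⟨fun g => if g ∈ GK then b g else b (g * c⁻¹) + 2 * b (c * c), ?_,
    fun g hg => if_pos hg, fun g hg h hh => ?_⟩
  · obtain ⟨N, n1, n2⟩ := hl
    refine ⟨N ⊓ GK, n1.inf GK_on, fun g hg h hh e => ?_⟩
    by_cases e1 : g ∈ GK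
    · have e2 : h ∈ GK := by simpa using GK.mul_mem e1 e.2
      simp only [if_pos e1, if_pos e2]
      exact n2 g ⟨hg, e1⟩ h ⟨hh, e2⟩ e.1
    · have e2 : h ∉ GK := fun e2 => e1 (by simpa using GK.mul_mem e2 (GK.inv_mem e.2))
      simp only [if_neg e1, if_neg e2]
      rw [n2 _ (h1 g hg e1) _ (h1 h hh e2) ?_]
      have := n1.1.conj_mem _ e.1 c
      convert this using 1
      group
  · by_cases e1 : g ∈ GK <;> by_cases e2 : h ∈ GK
    · simp only [if_pos e1, if_pos e2, if_pos (GK.mul_mem e1 e2), one_mul]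
      exact ha g ⟨hg, e1⟩ h ⟨hh, e2⟩
    · have e3 : g * h ∉ GK := by rwa [GK.mul_mem_cancel_left e1]
      simp only [if_pos e1, if_neg e2, if_neg e3, one_mul]
      rw [mul_assoc, ha g ⟨hg, e1⟩ _ (h1 h hh e2), add_assoc]
    · have e3 : g * h ∉ GK := by rwa [GK.mul_mem_cancel_right e2]
      simp only [if_neg e1, if_pos e2, if_neg e3]
      have e4 : g * h * c⁻¹ = g * c⁻¹ * (c * h * c⁻¹) := by group
      rw [e4, ha _ (h1 g hg e1) _ (cj_HDM4 hc ⟨hh, e2⟩), hs h ⟨hh, e2⟩]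
      ring
    · simp only [if_neg e1, if_neg e2, if_pos (GK_mul e1 e2)]
      have e4 : g * h = g * c⁻¹ * (c * (h * c⁻¹) * c⁻¹) * (c * c) := by group
      have e5 := hs _ h2
      rw [show c * (c * c) * c⁻¹ = c * c by group] at e5
      rw [e4, ha _ ((D ⊓ GK).mul_mem (h1 g hg e1) (cj_HDM4 hc (h1 h hh e2))) _ h2,
        ha _ (h1 g hg e1) _ (cj_HDM4 hc (h1 h hh e2)), hs _ (h1 h hh e2)]
      have e6 : (3 : ZMod 3) = 0 := rfl
      linear_combination 2 * e5 - b (c * c) * e6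

/-- the eigencomponents of an additive function -/
theorem eig_HDM4 {D : Subgroup GQ} {c : GQ} (hc : c ∈ D) (hn : c ∉ GK) (s : ZMod 3)
    (h2 : s * s = 1) (a : GQ → ZMod 3) (ha : Adt (D ⊓ GK) a) (hl : Lc (D ⊓ GK) a) :
    Adt (D ⊓ GK) (fun g => a g + s * a (c * g * c⁻¹)) ∧
      Lc (D ⊓ GK) (fun g => a g + s * a (c * g * c⁻¹)) ∧
      ∀ g ∈ D ⊓ GK, a (c * g * c⁻¹) + s * a (c * (c * g * c⁻¹) * c⁻¹) =
        s * (a g + s * a (c * g * c⁻¹)) := by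
  refine ⟨fun g hg h hh => ?_, ?_, fun g hg => ?_⟩
  · have e : c * (g * h) * c⁻¹ = c * g * c⁻¹ * (c * h * c⁻¹) := by group
    simp only
    rw [e, ha g hg h hh, ha _ (cj_HDM4 hc hg) _ (cj_HDM4 hc hh)]
    ring
  · refine hl.map₂ (f' := fun g => a (c * g * c⁻¹)) ?_ fun x y => x + s * y
    obtain ⟨N, n1, n2⟩ := hl
    refine ⟨N, n1, fun g hg h hh e => n2 _ (cj_HDM4 hc hg) _ (cj_HDM4 hc hh) ?_⟩
    have := n1.1.conj_mem _ e c
    convert this using 1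
    group
  · have h3 : c * c ∈ D ⊓ GK := ⟨D.mul_mem hc hc, GK_mul hn hn⟩
    have e : c * (c * g * c⁻¹) * c⁻¹ * (c * c) = c * c * g := by group
    have e1 := ha _ (cj_HDM4 hc (cj_HDM4 hc hg)) _ h3
    rw [e, ha _ h3 g hg] at e1
    linear_combination (-s) * e1 - a (c * g * c⁻¹) * h2

theorem three_HDM4 : ∃ y : Fin 4 → GQ, (∀ i, y i ∈ V3.D) ∧ ∀ a : GQ → ZMod 3, Adt V3.D a →
    Lc V3.D a → (∀ i, a (y i) = 0) → ∀ g ∈ V3.D, a g = 0 := by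
  obtain ⟨c, hc, hn⟩ := S.LOC_ok.2.2.2 1
  replace hc : c ∈ Dec (nv 3 1) := Ine_le _ _ hc
  let P : ZMod 3 → (GQ → ZMod 3) → Prop := fun s b => Adt (Dec (nv 3 1) ⊓ GK) b ∧
    Lc (Dec (nv 3 1) ⊓ GK) b ∧ ∀ g ∈ Dec (nv 3 1) ⊓ GK, b (c * g * c⁻¹) = s * b g
  obtain ⟨y0, m0, y1, m1, k1⟩ := pts_HDM4 (Dec (nv 3 1) ⊓ GK) (P 1) fun a ha => by
    choose f f1 f2 f3 using fun i => ext_HDM4 hc hn 1 (a i) (ha i).1 (ha i).2.1 (ha i).2.2
    obtain ⟨u, u1, u2⟩ := S.DIM_ok.1 f fun i => ⟨fun g hg h hh => by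
      rw [f3 i g hg h hh, ite_self, one_mul], f1 i⟩
    exact ⟨u, u1, fun g hg => by simpa only [fun i => f2 i g hg.2] using u2 g hg⟩
  obtain ⟨y2, m2, y3, m3, k2⟩ := pts_HDM4 (Dec (nv 3 1) ⊓ GK) (P (-1)) fun a ha => by
    choose f f1 f2 f3 using fun i => ext_HDM4 hc hn (-1) (a i) (ha i).1 (ha i).2.1 (ha i).2.2
    obtain ⟨u, u1, u2⟩ := S.DIM_ok.2 f fun i => ⟨f3 i, f1 i⟩
    exact ⟨u, u1, fun g hg => by simpa only [fun i => f2 i g hg.2] using u2 g hg⟩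
  have p1 : ∀ y ∈ Dec (nv 3 1) ⊓ GK, y * (c * y * c⁻¹) ∈ V3.D := fun y hy =>
    (Dec (nv 3 1) ⊓ GK).mul_mem hy (cj_HDM4 hc hy)
  have p2 : ∀ y ∈ Dec (nv 3 1) ⊓ GK, y * (c * y * c⁻¹)⁻¹ ∈ V3.D := fun y hy =>
    (Dec (nv 3 1) ⊓ GK).mul_mem hy ((Dec (nv 3 1) ⊓ GK).inv_mem (cj_HDM4 hc hy))
  refine ⟨![y0 * (c * y0 * c⁻¹), y1 * (c * y1 * c⁻¹), y2 * (c * y2 * c⁻¹)⁻¹,
    y3 * (c * y3 * c⁻¹)⁻¹], fun i => ?_, fun a ha hl hz g hg => ?_⟩
  · fin_cases i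
    · exact p1 _ m0
    · exact p1 _ m1
    · exact p2 _ m2
    · exact p2 _ m3
  replace ha : Adt (Dec (nv 3 1) ⊓ GK) a := ha
  replace hl : Lc (Dec (nv 3 1) ⊓ GK) a := hl
  have q1 : ∀ y ∈ Dec (nv 3 1) ⊓ GK, a (y * (c * y * c⁻¹)) = 0 →
      a y + 1 * a (c * y * c⁻¹) = 0 := fun y hy e => by
    rw [one_mul, ← ha y hy _ (cj_HDM4 hc hy), e]
  have q2 : ∀ y ∈ Dec (nv 3 1) ⊓ GK, a (y * (c * y * c⁻¹)⁻¹) = 0 →
      a y + -1 * a (c * y * c⁻¹) = 0 := fun y hy e => by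
    have := ha _ (p2 y hy) _ (cj_HDM4 hc hy)
    rw [inv_mul_cancel_right, e] at this
    rw [this]
    ring
  have r1 := k1 _ (eig_HDM4 hc hn 1 (by ring) a ha hl) (q1 _ m0 (hz 0)) (q1 _ m1 (hz 1)) g hg
  have r2 := k2 _ (eig_HDM4 hc hn (-1) (by ring) a ha hl) (q2 _ m2 (hz 2)) (q2 _ m3 (hz 3)) g hg
  have e6 : (3 : ZMod 3) = 0 := rfl
  linear_combination a g * e6 - r1 - r2

theorem DM4_pf (hFUN : FUN_st) : DM4_st := by
  obtain ⟨y, hy, h⟩ := three_HDM4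
  refine ⟨y, hy, fun A _ a ha hl h3 hz g hg => ?_⟩
  by_contra hne
  let T : AddSubgroup A := (nsmulAddMonoidHom 3 : A →+ A).ker
  have hT : ∀ g ∈ V3.D, a g ∈ T := h3
  obtain ⟨l, hl0⟩ := hFUN 3 T ⟨a g, hT g hg⟩ three_ne_zero (fun x => Subtype.ext x.2)
    fun e => hne (congrArg Subtype.val e)
  let F : A → ZMod 3 := fun x => if e : x ∈ T then l ⟨x, e⟩ else 0
  have hF : ∀ g (hg : g ∈ V3.D), F (a g) = l ⟨a g, hT g hg⟩ := fun g hg => dif_pos _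
  refine hl0 ((hF g hg).symm.trans (h (fun g => F (a g)) (fun u hu v hv => ?_) (hl.map F)
    (fun i => ?_) g hg))
  · simp only
    rw [hF _ (V3.D.mul_mem hu hv), hF u hu, hF v hv, ← map_add]
    exact congrArg l (Subtype.ext (ha u hu v hv))
  · rw [hF _ (hy i), ← map_zero l]
    exact congrArg l (Subtype.ext (hz i))

end Pool.Agent.MP_e23604_nt.W

end

section

set_option autoImplicit false

open Finset
open scoped Classical

namespace Pool.Agent.MP_e23604_nt.W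

open B R S
open MP_3e91a1_nt (Step IsN Loc Nm Nrm Pl Ind)

theorem res_HNLb {z E : Zw} (hz : Pry z) (h9 : nn z % 9 = 1) (hE : E = ⟨-5, -3⟩ ∨ E = ⟨-2, 3⟩) :
    9 ∣ z - 1 ∨ 9 ∣ z - E ∨ 9 ∣ z - E * E := by
  have k : ∀ A : Zw, 9 ∣ A.re ∧ 9 ∣ A.im → 9 ∣ A := fun A ⟨⟨a, ha⟩, ⟨b, hb⟩⟩ =>
    ⟨⟨a, b⟩, by rw [show (9 : Zw) = ⟨9, 0⟩ from rfl]; ext <;> simp [ha, hb]⟩
  obtain ⟨⟨p, q⟩, e⟩ := hz
  rw [show (3 : Zw) = ⟨3, 0⟩ from rfl, show (1 : Zw) = ⟨1, 0⟩ from rfl] at e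
  have h1 : z.re = 1 + 3 * p := by simpa [sub_eq_iff_eq_add'] using congrArg (·.re) e
  have h2 : z.im = 3 * q := by simpa using congrArg (·.im) e
  have h3 : (nn z : ℤ) = 1 + 6 * p - 3 * q + 9 * (p ^ 2 - p * q + q ^ 2) := by
    rw [nn_cast, nw_def, h1, h2]
    ring
  generalize p ^ 2 - p * q + q ^ 2 = t at h3
  refine Or.imp (k _) (Or.imp (k _) (k _)) ?_
  rw [show (1 : Zw) = ⟨1, 0⟩ from rfl]
  obtain ⟨m, rfl⟩ : ∃ m, q = 2 * p + 3 * m := ⟨(q - 2 * p) / 3, by omega⟩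
  obtain ⟨n, rfl | rfl | rfl⟩ : ∃ n, p = 3 * n ∨ p = 3 * n + 1 ∨ p = 3 * n + 2 := ⟨p / 3, by omega⟩
  all_goals rcases hE with rfl | rfl <;> simp [h1, h2] <;> omega

theorem NLb_pf (hCYM : CYM_st) : NLb_st := by
  intro χ s u z i st hu hz h9
  have : Fact (Nat.Prime 3) := ⟨Nat.prime_three⟩
  obtain ⟨-, -, hs, -, -, -, -, -, -, -, -, -, mul, pow, cub, -⟩ := Lib.SB 3 _ _ χ s st
  have hK : s ∈ GK := V3.D_le st.mem
  have fx : ∀ a : Zw, Fix V3.D (io a) := fun a g hg => io_fix (V3.D_le hg) a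
  have hp := zt_prim (N := 9) (by norm_num)
  have h0 := hp.ne_zero (by norm_num)
  have h1 : (zt 9 ^ 3) ^ 3 = 1 := by rw [← pow_mul, hp.pow_eq_one]
  obtain ⟨W, hW, hW'⟩ : ∃ W : Zw, io W = zt 9 ^ 3 ∧ (W = ⟨0, 1⟩ ∨ W = ⟨-1, -1⟩) := by
    rcases cube_one h1 with e | e | e
    · exact absurd e (hp.pow_ne_one_of_pos_of_lt (by norm_num) (by norm_num))
    · exact ⟨_, by simp [io_apply, e], Or.inl rfl⟩
    · exact ⟨_, by simp only [io_apply, e]; push_cast; linear_combination -w3_spec, Or.inr rfl⟩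
  obtain ⟨w, hw⟩ : ∃ w, s (zt 9) = w * zt 9 := ⟨_, (div_mul_cancel₀ _ h0).symm⟩
  have h2 : w ^ 3 = 1 := mul_right_cancel₀ (pow_ne_zero 3 h0) (by
    rw [← mul_pow, ← hw, ← map_pow, hK _ h1, one_mul])
  have h3 : w ^ 2 + w + 1 = 0 := mul_left_cancel₀ (sub_ne_zero.2 fun e : w = 1 =>
    hs ⟨st.mem, show s (zt 9) = zt 9 by rw [hw, e, one_mul]⟩) (by linear_combination h2)
  let P : Zw → Prop := fun A => IsN 3 (V3.D ⊓ Uc 1) s (io A)
  have pm : ∀ A B, P A → P B → P (A * B) := fun A B hA hB => by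
    simpa only [P, map_mul] using (mul _ _ hA hB).1
  have pp : ∀ A (n : ℕ), P A → P (A ^ n) := fun A n hA => by
    simpa only [P, map_pow] using (pow _ hA).2.2 n
  have pn : ∀ a b : ℤ, a ^ 3 + b ^ 3 * W ≠ 0 → P (a ^ 3 + b ^ 3 * W) := fun a b h => by
    have e : Nm 3 s (a + b * zt 9) = io (a ^ 3 + b ^ 3 * W) := by
      simp only [Nm, prod_range_succ, prod_range_zero, pow_succ s, pow_zero, one_mul,
        AlgEquiv.mul_apply, AlgEquiv.one_apply, map_add, map_mul, map_pow, map_intCast, hw, hW,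
        hK _ h2]
      linear_combination (a ^ 2 * b * zt 9 + a * b ^ 2 * zt 9 ^ 2 * w) * h3 + b ^ 3 * zt 9 ^ 3 * h2
    refine ⟨_, fun e' => io_ne h ?_, fun g hg => ?_, e⟩
    · rw [← e, e', Nm, prod_range_succ, map_zero, mul_zero]
    · rw [map_add, map_mul, map_intCast, map_intCast, show g (zt 9) = zt 9 from hg.2]
  have pc : ∀ A B, 9 ∣ A - B → ¬ pw ∣ B → P B → P A := fun A B ⟨c, hc⟩ hB h => by
    have v1 := not_Ov.1 (V3_not hB)
    have b0 : io B ≠ 0 := fun e => by simp [e] at v1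
    have v3 : V3.v 3 < 1 := by simpa [Ov, map_ofNat] using V3_three
    have v0 : 0 < V3.v 3 := V3.v.pos three_ne_zero
    have v2 : V3.v (io A / io B - 1) ≤ V3.v 3 ^ 2 := by
      rw [div_sub_one b0, map_div₀, v1, div_one, ← map_sub, hc, map_mul, map_mul, map_ofNat,
        show (9 : Qb) = 3 ^ 2 by norm_num, map_pow]
      exact mul_le_of_le_one_right (by positivity) (V3.io_le c)
    obtain ⟨y, hy, hyF⟩ := S.KUM_ok.1 3 1 V3.D (io A / io B) inf_le_left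
      (fun g hg => by rw [map_div₀, fx A g hg, fx B g hg]) (by
        refine (pow_le_pow_left₀ (V3.v.nonneg _) v2 2).trans_lt ?_
        rw [show (27 : Qb) = 3 ^ 3 by norm_num, map_pow, ← pow_mul]
        exact pow_lt_pow_right_of_lt_one₀ v0 v3 (by norm_num))
    have y0 : y ≠ 0 := fun e => by
      rw [← hy, e] at v2
      simp at v2
      exact absurd v2 (not_le.2 (by rwa [abs_of_pos v0]))
    have := (mul _ _ (cub y y0 hyF).1 h).1
    rwa [hy, div_mul_cancel₀ _ b0] at this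
  have p1 : P (-1) := by simpa [Odd.neg_one_pow (by decide : Odd 3)] using pn (-1) 0 (by simp)
  have pW : P W := by simpa using pn 0 1 (by rcases hW' with rfl | rfl <;> decide)
  have pw1 : P QuadraticAlgebra.omega := by
    rcases hW' with rfl | rfl
    · exact pW
    · exact (by decide : (⟨-1, -1⟩ * ⟨-1, -1⟩ : Zw) = QuadraticAlgebra.omega) ▸ pm _ _ pW pW
  have pu : ∀ u, IsUnit u → P u := fun u hu => by
    obtain ⟨j, e | e⟩ := unit6 hu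
    · exact e ▸ pp _ j pw1
    · simpa only [e, neg_one_mul] using pm _ _ p1 (pp _ j pw1)
  have p2 := pn (-1) 1 (by rcases hW' with rfl | rfl <;> decide)
  have p3 := pn 2 1 (by rcases hW' with rfl | rfl <;> decide)
  have pπ : P pw := by
    rcases hW' with rfl | rfl
    · convert pm _ _ (pu ⟨0, -1⟩ (nn_unit.2 (by decide))) p2 using 1
      decide
    · convert pm _ _ (pu ⟨-1, -1⟩ (nn_unit.2 (by decide))) p2 using 1
      decide
  obtain ⟨E, hE, e⟩ : ∃ E : Zw, (E = ⟨-5, -3⟩ ∨ E = ⟨-2, 3⟩) ∧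
      ((2 : ℤ) : Zw) ^ 3 + ((1 : ℤ) : Zw) ^ 3 * W = E * (((-1 : ℤ) : Zw) ^ 3 + ((1 : ℤ) : Zw) ^ 3 * W) := by
    rcases hW' with rfl | rfl
    · exact ⟨_, Or.inl rfl, by decide⟩
    · exact ⟨_, Or.inr rfl, by decide⟩
  have pE : P E := by
    have := (mul _ _ p3 p2).2
    rwa [e, map_mul, mul_div_cancel_right₀ _ (pow _ p2).1] at this
  have nE : ¬ pw ∣ E := by
    rw [pw_dvd_iff]
    rcases hE with rfl | rfl <;> decide
  refine pm _ _ (pm _ _ (pu u hu) (pp _ i pπ)) ?_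
  rcases res_HNLb hz h9 hE with h | h | h
  · exact pc _ _ h Pry.one.pw (pu 1 isUnit_one)
  · exact pc _ _ h nE pE
  · exact pc _ _ h (fun k => (pw_prime.dvd_or_dvd k).elim nE nE) (pm _ _ pE pE)

end Pool.Agent.MP_e23604_nt.W

end

section

/-! The density theorem of Frobenius for the absolute Galois group. -/

set_option autoImplicit false

open Finset
open scoped Classical

namespace Pool.Agent.MP_e23604_nt.W

open B R S
open MP_3e91a1_nt (Step IsN Loc Nm Nrm Pl Ind)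

open NumberField in
theorem unr_HCHQ (L : Type) [Field L] [NumberField L] [IsGalois ℚ L] : ∃ C : ℕ, ∀ q : ℕ,
    q.Prime → C < q → ∀ I : Ideal (𝓞 L), I.IsPrime → (q : 𝓞 L) ∈ I →
      I.inertia (L ≃ₐ[ℚ] L) = ⊥ := by
  obtain ⟨C, hC⟩ := ((unr_CHEB L).image fun w => Ideal.absNorm w.asIdeal).bddAbove
  refine ⟨C, fun q hq h I hI hm => by_contra fun e => h.not_ge ?_⟩
  have h0 : I ≠ ⊥ := fun e => by
    rw [e, Ideal.mem_bot, Nat.cast_eq_zero] at hm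
    exact hq.ne_zero hm
  refine le_trans (Nat.le_of_dvd (Nat.pos_of_ne_zero (Ideal.absNorm_eq_zero_iff.not.2 h0)) ?_)
    (hC ⟨⟨I, hI, h0⟩, e, rfl⟩)
  exact Int.natCast_dvd_natCast.1 ((BValB_int I hq hm _).1 (by simpa using Ideal.absNorm_mem I))

open NumberField in
theorem CHQ_pf : CHQ_st := by
  intro N g B hN
  have hn := hN.1
  have hfix := InfiniteGalois.fixingSubgroup_fixedField ⟨N, N.isClosed_of_isOpen hN.2⟩
  set L := IntermediateField.fixedField N with hL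
  change L.fixingSubgroup = N at hfix
  obtain ⟨h1, h3⟩ := (InfiniteGalois.isOpen_and_normal_iff_finite_and_isGalois L).mp
    (by rw [hfix]; exact ⟨hN.2, hn⟩)
  have : FiniteDimensional ℚ L := h1
  have : IsGalois ℚ L := h3
  have : NumberField L := {}
  have hres : ∀ x : GQ, MP_f68ac8_nt.res L x = 1 ↔ x ∈ N := fun x => by
    rw [MP_f68ac8_nt.res_eq_one, ← hfix, IntermediateField.mem_fixingSubgroup_iff]
  obtain ⟨C, hC⟩ := unr_HCHQ L
  obtain ⟨q, ⟨hq, Q, ⟨q1, q2⟩, σ, s1, s2⟩, hS⟩ :=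
    (MP_14ad9d_nt.frob_dens (MP_f68ac8_nt.res L g)).exists_notMem (range (max B C + 1))
  rw [mem_range, not_lt, Nat.succ_le_iff, max_lt_iff] at hS
  have hf : Fact q.Prime := ⟨hq⟩
  have hm : ∀ γ, (q : 𝓞 L) ∈ (cen q γ).under (𝓞 L) := fun γ => by
    rw [Ideal.mem_comap, map_natCast]
    exact cen_mem _ _
  have hQ : (q : 𝓞 L) ∈ Q := by
    simpa using (Ideal.mem_of_liesOver Q (Ideal.span {(q : ℤ)}) q).1
      (Ideal.mem_span_singleton_self _)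
  have : Q.IsMaximal := q1.isMaximal fun e => by
    rw [e, Ideal.mem_bot, Nat.cast_eq_zero] at hQ
    exact hq.ne_zero hQ
  obtain ⟨P, p1, p2⟩ := Ideal.exists_maximal_ideal_liesOver_of_isIntegral (S := 𝓞 Qb) Q
  obtain ⟨γ, rfl⟩ := exists_cen q P (by simpa using (Ideal.mem_of_liesOver P Q q).1 hQ)
  obtain ⟨φ, hφ⟩ := MP_f68ac8_nt.exists_frob (cen q γ) hq (cen_mem q γ)
  have e : MP_f68ac8_nt.res L φ = σ := by
    rw [← mul_inv_eq_one, ← Subgroup.mem_bot, ← hC q hq hS.2 Q q1 hQ]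
    intro x
    have a1 := s1 (σ⁻¹ • x)
    rw [← q2.over, Int.card_ideal_quot] at a1
    have a2 : MP_f68ac8_nt.res L φ • (σ⁻¹ • x) - (σ⁻¹ • x) ^ q ∈ Q := by
      rw [p2.over, Ideal.mem_comap, map_sub, map_pow, MP_f68ac8_nt.res_smul]
      exact hφ _
    have a3 := Q.sub_mem a2 a1
    rw [sub_sub_sub_cancel_right, ← mul_smul] at a3
    change _ - σ • σ⁻¹ • x ∈ Q at a3
    rwa [smul_inv_smul] at a3
  obtain ⟨i, hi⟩ := mem_powers_iff_mem_zpowers.2 (s2.le (Subgroup.mem_zpowers σ))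
  obtain ⟨j, hj⟩ := mem_powers_iff_mem_zpowers.2 (s2.ge (Subgroup.mem_zpowers _))
  refine ⟨q, hf, γ, φ, i, j, hS.1, frob_iff.2 hφ, fun γ' τ hτ => ?_, ?_, ?_⟩
  · have := MP_f68ac8_nt.res_inertia L (ine_iff.1 hτ)
    rw [hC q hq hS.2 _ inferInstance (hm γ'), Subgroup.mem_bot] at this
    exact (hres τ).1 this
  · rw [← hres, map_mul, map_inv, map_pow, e, inv_mul_eq_one]
    exact hi
  · rw [← hres, map_mul, map_inv, map_pow, e, inv_mul_eq_one]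
    exact hj

end Pool.Agent.MP_e23604_nt.W

end

section

set_option autoImplicit false

open Finset
open scoped Classical

namespace Pool.Agent.MP_e23604_nt.W

open B R S NumberField Pool.Agent.MP_f3cd89_nt
open MP_3e91a1_nt (Step IsN Loc Nm Nrm Pl Ind)

theorem SEL_pf : SEL_st := by
  intro L _ _ n T hn
  have : NeZero n := ⟨hn⟩
  obtain ⟨cl, hcl⟩ := cls_fin (E := L)
  have : Group.FG (𝓞 L)ˣ := Group.fg_iff_monoid_fg.2 inferInstance
  have := Subgroup.finiteIndex_range_powMonoidHom_of_fg (𝓞 L)ˣ hn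
  let P : (T → ZMod n) × ClassGroup (𝓞 L) → L → Prop := fun k x =>
    x ≠ 0 ∧ (∀ w, w ∉ T → (n : ℤ) ∣ ord w x) ∧ (fun w : T => (ord w.1 x : ZMod n)) = k.1 ∧
      cl ((dv x).mapRange (· / n) (Int.zero_ediv _)) = k.2
  refine ⟨(Set.finite_range fun k : _ × (𝓞 L)ˣ ⧸ (powMonoidHom (α := (𝓞 L)ˣ) n).range =>
    Classical.epsilon (P k.1) * ((k.2.out : 𝓞 L) : L)).toFinset, fun x x0 hx => ?_⟩
  obtain ⟨k, hk⟩ : ∃ k, P k x := ⟨(_, _), x0, hx, rfl, rfl⟩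
  obtain ⟨y0, hy, e1, e2⟩ := Classical.epsilon_spec ⟨x, hk⟩
  obtain ⟨z, z0, hz⟩ := hcl _ _ (hk.2.2.2.trans e2.symm)
  have h0 := mul_ne_zero y0 (pow_ne_zero n z0)
  obtain ⟨u, hu⟩ := exists_unit (div_ne_zero x0 h0) fun w => by
    have h1 : ord w x % n = ord w (Classical.epsilon (P k)) % n := by
      by_cases h : w ∈ T
      · exact (ZMod.intCast_eq_intCast_iff' _ _ n).1 (congrFun (hk.2.2.1.trans e1.symm) ⟨w, h⟩)
      · rw [Int.emod_eq_zero_of_dvd (hx w h), Int.emod_eq_zero_of_dvd (hy w h)]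
    rw [ord_div w x0 h0, ord_mul w y0 (pow_ne_zero n z0), ord_pow, ← hz w]
    simp only [Finsupp.mapRange_apply, dv_apply]
    linear_combination h1 - Int.emod_add_mul_ediv (ord w x) n +
      Int.emod_add_mul_ediv (ord w (Classical.epsilon (P k))) n
  obtain ⟨v, hv⟩ := QuotientGroup.eq.1 (QuotientGroup.out_eq'
    (u : (𝓞 L)ˣ ⧸ (powMonoidHom (α := (𝓞 L)ˣ) n).range))
  refine ⟨_, (Set.Finite.mem_toFinset _).2 ⟨(k, u), rfl⟩, ((v : 𝓞 L) : L) * z, ?_⟩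
  have h2 := congrArg (fun t : (𝓞 L)ˣ => ((t : 𝓞 L) : L)) (eq_inv_mul_iff_mul_eq.1 hv)
  simp only [powMonoidHom_apply, Units.val_mul, Units.val_pow_eq_pow_val, map_mul, map_pow] at h2
  rw [hu, eq_div_iff h0] at h2
  linear_combination -h2

end Pool.Agent.MP_e23604_nt.W

end

section

set_option autoImplicit false

open Finset
open scoped Classical

namespace Pool.Agent.MP_e23604_nt.W

open B R S
open MP_3e91a1_nt (Step IsN Loc Nm Nrm Pl Ind)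

theorem star_HRC1 {ϖ : Zw} (h : (nn ϖ).Prime) : ϖ ≠ star ϖ := fun e => by
  have h1 : ϖ.im = 0 := by
    have := congrArg QuadraticAlgebra.im e
    rw [QuadraticAlgebra.im_star] at this
    omega
  have h2 := nn_cast ϖ
  rw [nw_def, h1] at h2
  have h3 : nn ϖ = ϖ.re.natAbs ^ 2 := by
    zify
    rw [h2, sq_abs]
    ring
  rw [h3] at h
  exact absurd h.eq_one_of_pow (by norm_num)

theorem RC1_pf (hRQ : RQ_st) (hTRF : TRF_st) (hIVT : IVT_st) (hADM : ADM_st) (hPLK : PLK_st) (hLIN : LIN_st) : RC1_st := by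
  intro p n f Q V r hp hn hf hQ hB
  have hN : p ^ n ≠ 0 := pow_ne_zero _ hp.ne_zero
  obtain ⟨c, hc⟩ := ex_SAQ
  obtain ⟨F, F1, F2, F3⟩ := hTRF (p ^ n) f c hN hc hf
  obtain ⟨P1, -, P3, P4, -, P6, -, P8, P9, -⟩ := hPLK
  obtain ⟨M, M1, M2, M3⟩ := (hADM (p ^ n) ⊤ (fun g h => 2 * F g h) hN).1
    (((hLIN _ (cy (p ^ n)) ⊤).1 F F 2).1 F1 F1).2.2
  have hl : ∀ ϖ ∈ Q, ∀ W : Plc, Ov W ϖ → nn ϖ = W.l := fun ϖ h W hW =>
    (hQ ϖ h).2.2.1.trans ((P3 (V ϖ) ϖ (hQ ϖ h).1.1 (hQ ϖ h).2.1).2.1 W hW).1.symm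
  have hA : ∀ W : Plc, W.l % 3 = 1 → p ^ n ∣ W.l - 1 →
      IvK (p ^ n) W f (∑ ϖ ∈ Q, if Ov W ϖ then r ϖ else 0) := fun W h3 hd => by
    by_cases h : ∃ ϖ ∈ Q, Ov W ϖ
    · obtain ⟨ϖ, h1, h2⟩ := h
      rw [sum_eq_single_of_mem ϖ h1 fun ϖ' h' hne => if_neg fun e => hne
        (P8 ϖ ϖ' (hQ ϖ h1).1 (hQ ϖ' h').1 (((P3 W ϖ (hQ ϖ h1).1.1 h2).1 ϖ').1 e)).symm, if_pos h2]
      exact (hIVT (p ^ n) W f (r ϖ) hN h3 hd).2.2.2.1 (V ϖ) ϖ (hQ ϖ h1).1.1 h2 (hQ ϖ h1).2.1 hf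
        (hQ ϖ h1).2.2.2.2
    · rw [sum_eq_zero fun ϖ h' => if_neg fun e => h ⟨ϖ, h', e⟩]
      exact (hIVT (p ^ n) W f 0 hN h3 hd).1 (hB W fun ϖ h' e => h ⟨ϖ, h', e⟩)
  have hS : ∀ W : Plc, ((∑ ϖ ∈ Q, if Ov W ϖ then r ϖ else 0) +
      ∑ ϖ ∈ Q, if Ov (W.mv c) ϖ then r ϖ else 0) = ∑ ϖ ∈ Q with nn ϖ = W.l, r ϖ := fun W => by
    rw [← sum_add_distrib, sum_filter]
    refine sum_congr rfl fun ϖ h => ?_
    have e := (P6 W c ϖ).2 hc
    by_cases h1 : Ov W ϖ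
    · rw [if_pos h1, if_pos (hl ϖ h W h1), if_neg, add_zero]
      exact fun h2 => star_HRC1 (hl ϖ h W h1 ▸ W.hl.out) (P8 ϖ _ (hQ ϖ h).1 (P9 ϖ (hQ ϖ h).1)
        (((P3 W ϖ (hQ ϖ h).1.1 h1).1 _).1 (e.1 h2)))
    · rw [if_neg h1, zero_add]
      refine if_congr ⟨hl ϖ h (W.mv c), fun h2 => e.2 ?_⟩ rfl rfl
      obtain ⟨ϖ₀, a1, a2, -⟩ := P1 W
      have a3 := (P3 W ϖ₀ a1 a2).1
      have a4 : ϖ₀ ∣ ϖ * star ϖ := by
        rw [mul_star_nn, h2]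
        exact (a3 _).1 ((P4 W W.l).2 dvd_rfl)
      exact (a3 _).2 ((a1.dvd_or_dvd a4).resolve_left fun a5 => h1 ((a3 _).2 a5))
  obtain ⟨z, hz⟩ := hRQ p n M (fun g h => zt (p ^ n) ^ (2 * F g h).val) (Q.image nn) (fun _ => 1)
    (fun l => ((∑ ϖ ∈ Q with nn ϖ = l, r ϖ).val : ℚ) / (p ^ n : ℕ)) hp M1 M2 M3
    (fun g h => zt_val_pow hN _) (fun l h => by
      obtain ⟨ϖ, h1, rfl⟩ := mem_image.1 h
      obtain ⟨-, -, a1, a2, -⟩ := hQ ϖ h1
      have a3 := (V ϖ).hl.out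
      rw [a1]
      refine ⟨a3, fun e => ?_⟩
      have a4 := Nat.le_of_dvd (Nat.sub_pos_of_lt a3.one_lt)
        ((dvd_pow_self p (by omega)).trans a2)
      have a5 := a3.one_lt
      omega) (fun l _ h => by
      obtain ⟨ϖ, h1, h2⟩ := mem_image.1 h
      obtain ⟨a0, -, a1, a2, -⟩ := hQ ϖ h1
      have a3 : l % 3 = 1 := h2 ▸ nn_mod3 a0.2.pw
      have a4 : p ^ n ∣ l - 1 := by rw [← h2, a1]; exact a2
      have b1 := hA ⟨l, 1⟩ a3 a4
      have b2 := (hIVT (p ^ n) ⟨l, 1⟩ f _ hN a3 a4).2.2.1 c (hA (Plc.mv ⟨l, 1⟩ c) a3 a4)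
      have b3 := (hIVT (p ^ n) ⟨l, 1⟩ f _ hN a3 a4).2.1 _ _ F b1 b2
        fun g hg h hh => F2 g (Plc.D_le _ hg) h (Plc.D_le _ hh)
      rw [hS] at b3
      exact (hIVT (p ^ n) ⟨l, 1⟩ F _ hN a3 a4).2.2.2.2 b3) (fun l _ h => by
      have b := F3 ⟨l, 1⟩
        (hB _ fun ϖ h' e => h (mem_image.2 ⟨ϖ, h', hl ϖ h' _ e⟩))
        (hB _ fun ϖ h' e => h (mem_image.2 ⟨ϖ, h', hl ϖ h' _ e⟩))
      exact (hADM (p ^ n) _ (fun g h => 2 * F g h) hN).2.1.1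
        (((hLIN _ (cy (p ^ n)) _).1 F F 2).2.1 b b).2.2)
  have : NeZero (p ^ n) := ⟨hN⟩
  rw [← sum_div, ← mul_div_assoc, div_eq_iff (Nat.cast_ne_zero.2 hN)] at hz
  have h1 : (2 * ∑ l ∈ Q.image nn, ((∑ ϖ ∈ Q with nn ϖ = l, r ϖ).val : ℤ) : ℤ) =
      z * (p ^ n : ℕ) := by exact_mod_cast hz
  have h2 := congrArg (Int.cast : ℤ → ZMod (p ^ n)) h1
  rw [Int.cast_mul, Int.cast_mul, Int.cast_natCast, ZMod.natCast_self, mul_zero, Int.cast_sum,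
    Int.cast_ofNat] at h2
  simp only [Int.cast_natCast, ZMod.natCast_zmod_val] at h2
  rwa [sum_fiberwise_of_maps_to fun ϖ h => mem_image_of_mem nn h] at h2

end Pool.Agent.MP_e23604_nt.W

end

section

set_option autoImplicit false

open Finset
open scoped Classical

namespace Pool.Agent.MP_e23604_nt.W

open B R S
open MP_3e91a1_nt (Step IsN Loc Nm Nrm Pl Ind)

theorem congr_HIVT {R : Type} [CommRing R] {θ : GQ → R} {H : Subgroup GQ} {f f' : GQ → GQ → R}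
    (h : Bo2 θ H f) (e : ∀ g ∈ H, ∀ h ∈ H, f' g h = f g h) : Bo2 θ H f' :=
  h.imp fun _ h => ⟨h.1, fun g hg j hj => (e g hg j hj).trans (h.2 g hg j hj)⟩

theorem cy_HIVT (hFRK : FRK_st) (hPLK : PLK_st) (hKM : KM_st) {N : ℕ} {V : Plc} (h0 : N ≠ 0)
    (h3 : V.l % 3 = 1) (hN : N ∣ V.l - 1) {g : GQ} (hg : g ∈ V.D) : cy N g = 1 := by
  obtain ⟨ϖ, a1, a2, -⟩ := hPLK.1 V
  obtain ⟨⟨σ, hσ⟩, -, -, h⟩ := hFRK V ϖ a1 a2
  have h2 := V.hl.out.two_le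
  obtain ⟨-, b1, b2⟩ := (hKM N h0).2.2.2.2.2.2.2.2 V fun e => by
    have := Nat.le_of_dvd (by omega) (e.trans hN)
    omega
  have key : ∀ g, g ∈ MulAction.stabilizer GQ (zt N) ↔ cy N g = 1 := fun g =>
    ⟨fun e => (congrArg (lz N) e).trans (cy_one h0), fun e => (cy_eq_one h0).1 e _
      (zt_prim h0).pow_eq_one⟩
  refine (key g).1 ((h σ hσ).2.2.2.2.1 _ (stabilizer_isOpen_of_isIntegral _) ((key σ).2 ?_)
    (fun τ hτ => (key τ).2 (b1 τ hτ.1).1) hg)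
  have e : nn ϖ = V.l := by
    have := (hPLK.2.2.1 V ϖ a1 a2).2.2.1
    omega
  rw [b2 ϖ σ hσ, e, ← Nat.sub_add_cancel (by omega : 1 ≤ V.l), Nat.cast_add,
    (ZMod.natCast_eq_zero_iff _ _).2 hN, zero_add, Nat.cast_one]

theorem pow_HIVT {H : Subgroup GQ} {c : GQ → GQ → Qb} (h : Cob H c) (i : ℕ) :
    Cob H fun g j => c g j ^ i := by
  induction i with
  | zero => simpa using Cob.one H
  | succ i ih => simpa only [pow_succ] using ih.mul h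

theorem IVT_pf (hCNG : CNG_st) (hADM : ADM_st) (hFRK : FRK_st) (hPLK : PLK_st) (hKM : KM_st) (hLIN : LIN_st) : IVT_st := by
  intro N V f r h0 h3 hN
  have hL := (hLIN _ (cy N) V.D).1
  have l0 : (V.l : Qb) ≠ 0 := Nat.cast_ne_zero.2 V.hl.out.ne_zero
  have h1 : ∀ k : GQ, IvK N (V.mv k) f r →
      IvK N V (fun g h => cy N k * f (k⁻¹ * g * k) (k⁻¹ * h * k)) r := by
    intro k h s φ a1 a2 a3 a4 a5
    have e : ∀ g : GQ, k * (k⁻¹ * g * k) * k⁻¹ = g := fun g => by group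
    have hD : ∀ g, g ∈ V.D ↔ k⁻¹ * g * k ∈ (V.mv k).D := fun g => by rw [Plc.mv_D, e]
    refine congr_HIVT ((hCNG _ (cy N)).2.1 V.D _ _ k (cy N k) hD (fun g _ => ?_)
      (h (fun x => s (k * x * k⁻¹)) (k⁻¹ * φ * k) ⟨(mem_Dec_conj _ _ k _).2 (by
        rw [e]; exact a1.1), fun x hx => ?_⟩ (fun g hg j hj => ?_) ?_
        (fun τ hτ => a4 _ ((V.mv_I k τ).1 hτ)) (by rw [e, a5]))) fun g hg j _ => ?_
    · rw [cy_mul h0, cy_mul h0, mul_right_comm, mul_comm (cy N k⁻¹), cy_inv h0, one_mul]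
    · have := a1.2 (k x) hx
      change V.v (k _) < 1
      rwa [map_sub, map_pow, ← AlgEquiv.mul_apply, ← mul_assoc, mul_inv_cancel_left,
        AlgEquiv.mul_apply]
    · rw [← a2 _ ((V.mv_D k g).1 hg) _ ((V.mv_D k j).1 hj)]
      exact congrArg s (by group)
    · obtain ⟨M, b1, b2⟩ := a3
      exact ⟨M, b1, fun g hg j hj e => b2 _ ((V.mv_D k g).1 hg) _ ((V.mv_D k j).1 hj) (by
        convert b1.1.conj_mem _ e k using 1; group)⟩
    · have := km_conj h0 (y := k) l0 (map_natCast (k⁻¹ * g * k) _)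
        (cy_HIVT hFRK hPLK hKM (V := V.mv k) h0 h3 hN ((hD g).1 hg))
      rw [e, map_natCast] at this
      simp only [e, this]
      change _ = _ * (_ - _ * (km N _ V.l * _))
      ring
  refine ⟨fun h s φ _ _ _ _ _ => by simpa using ((hL f f 2).2.1 h h).2.2,
    fun f' r' F h h' e s φ a1 a2 a3 a4 a5 => congr_HIVT ((hL _ _ 0).2.1 (h s φ a1 a2 a3 a4 a5)
      (h' s φ a1 a2 a3 a4 a5)).1 fun g hg j hj => by rw [e g hg j hj]; ring, h1,
    fun V' ϖ a1 a2 a3 hf h => ?_, fun h => ?_⟩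
  · obtain ⟨e1, k, hk, e2⟩ := (hPLK.2.2.1 V ϖ a1 a2).2.1 V' a3
    obtain ⟨-, e3, e4⟩ := (hPLK.2.2.2.2.1 _ _).2 e2
    have h2 : IvK N (V.mv k) f r := by
      obtain ⟨l, γ⟩ := V
      obtain ⟨l', γ'⟩ := V'
      obtain rfl : l' = l := e1
      intro s φ b1
      rw [← e3, ← e4]
      refine h s φ ?_
      have e5 : nv l' γ' = nv l' (γ * k) := e2
      unfold Frob at b1 ⊢
      exact e5 ▸ b1
    intro s φ b1 b2 b3 b4 b5
    obtain ⟨β, c1, c2⟩ := (hCNG _ (cy N)).1 GK f k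
      ⟨cy_lc N _, cy_one h0, fun g _ j _ => cy_mul h0 g j⟩ hf hk
    have c3 : Bo2 (cy N) V.D fun g h => f g h - cy N k * f (k⁻¹ * g * k) (k⁻¹ * h * k) :=
      ⟨β, c1.mono V.D_le, fun g hg j hj => c2 g (V.D_le hg) j (V.D_le hj)⟩
    exact congr_HIVT ((hL _ _ 0).2.1 (h1 k h2 s φ b1 b2 b3 b4 b5) ((hL _ _ 2).2.1 c3 c3).2.2).1
      fun g _ j _ => by ring
  obtain ⟨ϖ, a1, a2, -⟩ := hPLK.1 V
  obtain ⟨⟨σ, hσ⟩, -, a3, a4⟩ := hFRK V ϖ a1 a2
  obtain ⟨s, b1, b2, b3, b4⟩ := (a4 σ hσ).2.2.2.2.2 N h0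
  have hG := S.LOC_ok.2.2.1 V.l V.γ h3
  have hD : V.D = Dec (nv V.l V.γ) := inf_eq_left.2 hG
  have hσ' := (a3 h3 σ).1 hσ
  have c1 := (hADM N V.D _ h0).2.1.1 (h s σ hσ' b1 b2 b3 b4)
  have c2 := pow_HIVT ((hADM N V.D f h0).2.2 s V.l l0 (fun g _ => map_natCast g _) b1 b2) r.val
  refine ⟨s, V.l ^ r.val, σ, pow_ne_zero _ (Nat.cast_ne_zero.2 V.hl.out.ne_zero), hσ', hD ▸ b1,
    hD ▸ b2, fun τ hτ => b3 τ ⟨hτ, hG (Ine_le _ _ hτ)⟩, ?_,
    hD ▸ (c1.mul c2).congr fun g _ j _ => ?_⟩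
  · rw [padicValRat.pow, padicValRat.self V.hl.out.one_lt, b4]
    rcases eq_or_ne N 1 with rfl | e
    · rw [Subsingleton.elim r 0]
      simp
    · rw [ZMod.val_one'' e]
      simp
  · rw [mul_pow, ← zt_mul h0, ← mul_assoc, ← zt_add h0, mul_comm r, sub_add_cancel, ← pow_mul,
      mul_comm (car _ _), pow_mul]
    push_cast
    rfl

end Pool.Agent.MP_e23604_nt.W

end

section

set_option autoImplicit false

open Finset
open scoped Classical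

namespace Pool.Agent.MP_e23604_nt.W

open B R S
open MP_3e91a1_nt (Step IsN Loc Nm Nrm Pl Ind)

theorem coord_HPLd {x : Qb} (hx : Fix GK x) : ∃ r s : ℚ, x = r + s * w3 := by
  by_cases hc : ∃ c, c ∉ GK
  swap
  · obtain ⟨r, rfl⟩ := rat_CKUM x fun g _ => hx g (by_contra fun e => hc ⟨g, e⟩)
    exact ⟨r, 0, by simp⟩
  obtain ⟨c, hc⟩ := hc
  have k0 : ∀ g, g ∉ GK → ∀ h, h ∉ GK → g * h ∈ GK := fun g hg h hh => mem_GK'.2 (by
    rw [AlgEquiv.mul_apply, not_mem_GK hh, map_pow, not_mem_GK hg]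
    linear_combination w3 * w3_cube)
  have k1 : ∀ g ∈ GK, g (c x) = c x := fun g hg => by
    have := congrArg c (hx _ (GK_on.1.conj_mem' g hg c))
    rwa [← AlgEquiv.mul_apply, ← mul_assoc, mul_inv_cancel_left] at this
  have k2 : ∀ g, g ∉ GK → g (c x) = x ∧ g x = c x := fun g hg => ⟨hx _ (k0 g hg c hc), by
    have := congrArg c (hx _ (k0 c⁻¹ (fun e => hc (inv_mem_iff.1 e)) g hg))
    rwa [← AlgEquiv.mul_apply, mul_inv_cancel_left] at this⟩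
  have w0 : w3 - w3 ^ 2 ≠ 0 := sub_ne_zero.2 w3_sq_ne.2.symm
  obtain ⟨r, hr⟩ := rat_CKUM (x + c x) fun g _ => by
    by_cases hg : g ∈ GK
    · rw [map_add, hx g hg, k1 g hg]
    · rw [map_add, (k2 g hg).1, (k2 g hg).2, add_comm]
  obtain ⟨s, hs⟩ := rat_CKUM ((x - c x) / (w3 - w3 ^ 2)) fun g _ => by
    rw [map_div₀, map_sub, map_sub, map_pow]
    by_cases hg : g ∈ GK
    · rw [hx g hg, k1 g hg, mem_GK'.1 hg]
    · rw [(k2 g hg).1, (k2 g hg).2, not_mem_GK hg, ← neg_div_neg_eq, neg_sub, neg_sub]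
      congr 1
      linear_combination w3 * w3_cube
  refine ⟨(r + s) / 2, s, ?_⟩
  rw [eq_div_iff w0] at hs
  push_cast
  linear_combination -hr / 2 - hs / 2 - (s : Qb) / 2 * w3_spec

theorem frac_HPLd {x : Qb} (hx : Fix GK x) : ∃ a b : Zw, b ≠ 0 ∧ x = io a / io b := by
  obtain ⟨r, s, rfl⟩ := coord_HPLd hx
  refine ⟨(r.num : Zw) * (s.den : Zw) + (s.num : Zw) * (r.den : Zw) * (QuadraticAlgebra.omega : Zw),
    (r.den : Zw) * (s.den : Zw),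
    mul_ne_zero (Nat.cast_ne_zero.2 r.den_nz) (Nat.cast_ne_zero.2 s.den_nz), ?_⟩
  have h1 : (r.den : Qb) ≠ 0 := Nat.cast_ne_zero.2 r.den_nz
  have h2 : (s.den : Qb) ≠ 0 := Nat.cast_ne_zero.2 s.den_nz
  simp only [map_add, map_mul, map_intCast, map_natCast, io_w]
  rw [Rat.cast_def r, Rat.cast_def s]
  field_simp

theorem PLd_pf (hPLb : PLb_st) (hPLc : PLc_st) : PLd_st := by
  refine ⟨fun V ϖ hϖ hV y y0 hy => ?_, fun x hx => ⟨frac_HPLd hx, fun h => ?_⟩⟩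
  · have k : ∀ a : Zw, a ≠ 0 → ∃ n : ℕ, V.v (io a) = V.v (io ϖ) ^ n := fun a ha => by
      obtain ⟨n, b, h1, rfl⟩ := WfDvdMonoid.max_power_factor ha hϖ.irreducible
      exact ⟨n, by rw [map_mul, map_mul, map_pow, map_pow,
        not_Ov.1 fun e => h1 ((hPLb.2.2.1 V ϖ hϖ hV b).1 e), mul_one]⟩
    obtain ⟨L, _, l1, l2, -⟩ := Lib.RES GK GK_on.2
    obtain ⟨x, h1, h2⟩ := ram_a L V.na V.hl.out (nv_lt V.l V.γ) (y := y)
      fun τ e1 e2 => hy τ ⟨e2, l2 τ e1⟩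
    obtain ⟨a, b, b0, rfl⟩ := frac_HPLd ((l1 x).1 h1)
    have a0 : a ≠ 0 := by
      rintro rfl
      exact y0 (V.v.eq_zero.1 (by simpa using h2.symm))
    obtain ⟨i, hi⟩ := k a a0
    obtain ⟨j, hj⟩ := k b b0
    exact ⟨i - j, by rw [← h2, map_div₀, hi, hj, zpow_sub₀ (V.v.pos (io_ne hϖ.ne_zero)).ne',
      zpow_natCast, zpow_natCast]⟩
  · obtain ⟨a, b, b0, rfl⟩ := frac_HPLd hx
    obtain ⟨a, b, c, h1, rfl, rfl⟩ := UniqueFactorizationMonoid.exists_reduced_factors' a b b0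
    have c0 := io_ne (left_ne_zero_of_mul b0)
    have b1 := right_ne_zero_of_mul b0
    simp only [map_mul io, mul_div_mul_left _ _ c0] at h ⊢
    by_cases hb : IsUnit b
    · obtain ⟨d, hd⟩ := hb.dvd (a := a)
      exact ⟨d, by rw [hd, map_mul, mul_div_cancel_left₀ _ (io_ne b1)]⟩
    obtain ⟨ϖ, h2, h3⟩ := WfDvdMonoid.exists_irreducible_factor hb b1
    obtain ⟨V, hV⟩ := hPLb.2.1 ϖ h2.prime
    have h4 := h V
    rw [map_div₀, not_Ov.1 fun e => h2.not_isUnit (h1 ((hPLb.2.2.1 V ϖ h2.prime hV a).1 e) h3),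
      div_le_one (V.v.pos (io_ne b1))] at h4
    exact absurd (hV.dvd h3) (not_lt.2 h4)

theorem PLK_pf (hPLa : PLa_st) (hPLb : PLb_st) (hPLc : PLc_st) (hPLd : PLd_st) : PLK_st :=
  ⟨hPLb.1, hPLb.2.1, fun V ϖ h hV => ⟨hPLb.2.2.1 V ϖ h hV, (hPLc V ϖ h hV).1, (hPLc V ϖ h hV).2.1,
    (hPLc V ϖ h hV).2.2.1, (hPLc V ϖ h hV).2.2.2.1, (hPLc V ϖ h hV).2.2.2.2, hPLd.1 V ϖ h hV⟩,
    hPLb.2.2.2.1, hPLb.2.2.2.2.1, hPLb.2.2.2.2.2, hPLd.2, hPLa⟩

end Pool.Agent.MP_e23604_nt.W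

end

section

set_option autoImplicit false

open Finset
open scoped Classical

namespace Pool.Agent.MP_e23604_nt.W

open B R S
open MP_3e91a1_nt (Step IsN Loc Nm Nrm Pl Ind)

theorem TPU_pf (hTA0 : TA0_st) (hTAME : TAME_st) (hFRK : FRK_st) (hKM : KM_st) : TPU_st := by
  intro p e V ϖ σ τ A _ π hp h1 h3 hϖ hV hσ hτ hk hm hl ho
  have hN : p ^ e ≠ 0 := pow_ne_zero _ hp.ne_zero
  have : NeZero (p ^ e) := ⟨hN⟩
  have hd : ¬ V.l ∣ p ^ e := fun h =>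
    h1 ((Nat.prime_dvd_prime_iff_eq V.hl.out hp).1 (V.hl.out.dvd_of_dvd_pow h))
  have hI : ∀ g ∈ Ine V.l V.γ, g ∈ V.I := fun g hg => ⟨hg, Ine_GK V.γ h3 hg⟩
  obtain ⟨t1, -, -, t4, -⟩ := hTAME p e V hp h1 h3
  obtain ⟨-, f2, -, f4⟩ := hFRK V ϖ hϖ hV
  obtain ⟨-, k2, k3⟩ := (hKM _ hN).2.2.2.2.2.2.2.2 V hd
  obtain ⟨M, hM, hc⟩ := hl.map₂ (km_lc (p ^ e) V.D V.l) fun a b => (a, Multiplicative.ofAdd b)
  obtain ⟨τ0, h0, h4⟩ := hTA0 V.l V.γ M hM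
  have h5 : ∀ u ∈ V.I, ∃ i : ℕ, π u = π τ0 ^ i ∧
      km (p ^ e) u V.l = i * km (p ^ e) τ0 V.l := fun u hu => by
    obtain ⟨i, hi⟩ := h4 u hu.1
    have := hi _ (fun g => (π g, Multiplicative.ofAdd (km (p ^ e) g V.l))) (p ^ e)
      (fun g hg h hh => Prod.ext (hm g (V.I_le (hI g hg)) h (V.I_le (hI h hh)))
        (congrArg Multiplicative.ofAdd (t1 g (hI g hg) h (hI h hh))))
      (hc.mono le_rfl fun g hg => V.I_le (hI g hg)) hd fun g hg =>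
        Prod.ext (ho g (V.I_le (hI g hg))) (by
          rw [Prod.pow_snd, ← ofAdd_nsmul, nsmul_eq_mul, ZMod.natCast_self, zero_mul]; rfl)
    refine ⟨i, congrArg Prod.fst this, ?_⟩
    have h6 := congrArg Prod.snd this
    rw [Prod.pow_snd, ← ofAdd_nsmul, nsmul_eq_mul] at h6
    exact h6
  have hu := t4 τ hτ hk
  have key : ∀ u ∈ V.I, ∀ j : ℕ, km (p ^ e) u V.l = j * km (p ^ e) τ V.l → π u = π τ ^ j := by
    intro u hu' j hj
    obtain ⟨i, i1, i2⟩ := h5 u hu'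
    obtain ⟨a, a1, a2⟩ := h5 τ hτ
    rw [i2, a2, ← mul_assoc] at hj
    rw [a2] at hu
    have h7 := (isUnit_of_mul_isUnit_right hu).mul_right_cancel hj
    rw [← Nat.cast_mul, ZMod.natCast_eq_natCast_iff] at h7
    rw [i1, a1, ← pow_mul, mul_comm]
    exact pow_eq_pow_of_modEq h7 (ho τ0 (V.I_le (hI τ0 h0)))
  have c2 : ∀ u ∈ V.I, ∃ i : ℕ, π u = π τ ^ i := fun u hu' =>
    ⟨_, key u hu' (km (p ^ e) u V.l * hu.unit⁻¹).val (by
      rw [ZMod.natCast_zmod_val, mul_assoc, IsUnit.val_inv_mul, mul_one])⟩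
  have cj : ∀ g ∈ V.D, ∀ u ∈ V.I, π g * π u = π (g * u * g⁻¹) * π g := fun g hg u hu' => by
    rw [← hm g hg u (V.I_le hu'), ← hm _ (V.I_le (f2 g hg u hu')) g hg, inv_mul_cancel_right]
  refine ⟨?_, c2, fun g hg => ?_⟩
  · rw [cj σ hσ.1 τ hτ, key _ (f2 σ hσ.1 τ hτ) (nn ϖ)]
    have := km_conj hN (g := τ) (y := σ) (θ := V.l) (Nat.cast_ne_zero.2 V.hl.out.ne_zero)
      (map_natCast τ _) (k2 τ hτ.1).1
    rwa [map_natCast, k3 ϖ σ hσ] at this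
  · obtain ⟨k, u, u1, u2⟩ := (f4 σ hσ).2.2.2.1 M hM g hg
    have hs := V.D.pow_mem hσ.1 k
    have h6 := congrArg Prod.fst (hc _ (V.D.mul_mem hs (V.I_le u1)) g hg u2)
    obtain ⟨i, hi⟩ := c2 _ (f2 _ hs u u1)
    have h7 : ∀ k : ℕ, π (σ ^ k) = π σ ^ k := fun k => by
      induction k with
      | zero =>
        have := hm 1 V.D.one_mem 1 V.D.one_mem
        rw [mul_one] at this
        rw [pow_zero, pow_zero]
        exact left_eq_mul.1 this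
      | succ k ih => rw [pow_succ, pow_succ, hm _ (V.D.pow_mem hσ.1 k) σ hσ.1, ih]
    refine ⟨i, k, ?_⟩
    rw [← hi, ← h7, ← cj _ hs u u1, ← hm _ hs u (V.I_le u1)]
    exact h6.symm

end Pool.Agent.MP_e23604_nt.W

end

section

set_option autoImplicit false

open Finset
open scoped Classical

namespace Pool.Agent.MP_e23604_nt.W

open B R S
open MP_3e91a1_nt (Step IsN Loc Nm Nrm Pl Ind)

theorem cy3_HKUK {g : GQ} (hg : g ∈ GK) : cy 3 g = 1 := (cy_eq_one three_ne_zero).2 hg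

theorem mul_HKUK {g : GQ} (hg : g ∈ GK) {a b : Zw} (ha : a ≠ 0) (hb : b ≠ 0) :
    km 3 g (io (a * b)) = km 3 g (io a) + km 3 g (io b) := by
  rw [map_mul, km_fix_mul three_ne_zero (io_ne ha) (io_ne hb) (io_fix hg a) (io_fix hg b)
    (cy3_HKUK hg)]

theorem cube_HKUK {g : GQ} (hg : g ∈ GK) {x : Qb} (h0 : x ≠ 0) (hx : g x = x) :
    km 3 g (x ^ 3) = 0 := by
  rw [km_fix_pow three_ne_zero h0 hx (cy3_HKUK hg), show ((3 : ℕ) : ZMod 3) = 0 from rfl, zero_mul]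

theorem unit_HKUK {u : Zw} (h : IsUnit u) :
    ∃ i : ZMod 3, ∀ g ∈ GK, km 3 g (io u) = i * km 3 g w3 := by
  have w0 : w3 ≠ 0 := io_w ▸ io_ne w_unit.ne_zero
  obtain ⟨i, e⟩ := unit6 h
  refine ⟨i, fun g hg => ?_⟩
  have e1 : km 3 g (io (QuadraticAlgebra.omega ^ i)) = i * km 3 g w3 := by
    rw [map_pow, io_w, km_fix_pow three_ne_zero w0 (io_w ▸ io_fix hg _) (cy3_HKUK hg)]
  rcases e with rfl | rfl
  · exact e1
  · rw [← neg_one_mul (QuadraticAlgebra.omega ^ i : Zw), mul_HKUK hg (by simp) (w_unit.pow i).ne_zero, e1, map_neg, map_one,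
      show (-1 : Qb) = (-1) ^ 3 by norm_num, cube_HKUK hg (by simp) (by simp), zero_add]

theorem fac_HKUK (C : Zw) : C ≠ 0 → ∃ (u i : ZMod 3) (s : Multiset Zw), (∀ ϖ ∈ s, PP ϖ) ∧
    ∀ g ∈ GK, km 3 g (io C) =
      u * km 3 g w3 + i * km 3 g (io pw) + (s.map fun ϖ => km 3 g (io ϖ)).sum := by
  induction C using UniqueFactorizationMonoid.induction_on_prime with
  | h₁ => exact fun h => absurd rfl h
  | h₂ x hx =>
    obtain ⟨i, e⟩ := unit_HKUK hx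
    exact fun _ => ⟨i, 0, 0, by simp, fun g hg => by simp [e g hg]⟩
  | h₃ a p ha hp ih =>
    obtain ⟨u, i, s, h1, h2⟩ := ih ha
    intro _
    by_cases h : pw ∣ p
    · obtain ⟨v, rfl⟩ := h
      have hv : IsUnit v := (hp.irreducible.isUnit_or_isUnit rfl).resolve_left pw_prime.not_isUnit
      obtain ⟨k, e⟩ := unit_HKUK hv
      refine ⟨u + k, i + 1, s, h1, fun g hg => ?_⟩
      rw [mul_HKUK hg hp.ne_zero ha, mul_HKUK hg pw_ne hv.ne_zero, e g hg, h2 g hg]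
      ring
    · obtain ⟨v, hv, e0⟩ := ex_pry h
      obtain ⟨k, e⟩ := unit_HKUK hv
      refine ⟨u - k, i, (v * p) ::ₘ s, fun ϖ hϖ => ?_, fun g hg => ?_⟩
      · rcases Multiset.mem_cons.1 hϖ with rfl | h'
        · exact ⟨(prime_isUnit_mul hv).2 hp, e0⟩
        · exact h1 ϖ h'
      · rw [mul_HKUK hg hp.ne_zero ha, Multiset.map_cons, Multiset.sum_cons,
          mul_HKUK hg hv.ne_zero hp.ne_zero, e g hg, h2 g hg]
        ring

theorem eq_HKUK {a b : Zw} (ha : PP a) (hb : PP b) (h : a ∣ b) : a = b := by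
  obtain ⟨v, rfl⟩ := h
  have hv : IsUnit v := (hb.1.irreducible.isUnit_or_isUnit rfl).resolve_left ha.1.not_isUnit
  have : Pry v := by
    have := dvd_sub hb.2 (ha.2.mul_left v)
    unfold Pry
    convert this using 1
    ring
  rw [this.unit hv, mul_one]

theorem KUK_pf (hPLK : PLK_st) (hTAME : TAME_st) (hKM : KM_st) : KUK_st := by
  intro a T ha hl hT hu
  have : Fact (Nat.Prime 3) := ⟨Nat.prime_three⟩
  have z3 := (zt_prim three_ne_zero).pow_eq_one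
  obtain ⟨α, α0, hα⟩ := ((Lib.KUQ 3).2 (zt 3) GK (zt_prim three_ne_zero)
    fun g hg => hg _ z3).1 a ha hl
  have fx : Fix GK (α ^ 3) := fun g hg => by
    rw [map_pow, hα g hg, mul_pow, zt_val_pow three_ne_zero, one_mul]
  have x0 : α ^ 3 ≠ 0 := pow_ne_zero 3 α0
  obtain ⟨A, B, B0, e⟩ := (hPLK.2.2.2.2.2.2.1 _ fx).1
  have A0 : A ≠ 0 := fun h => x0 (by rw [e, h, map_zero, zero_div])
  have C0 : A * B ^ 2 ≠ 0 := mul_ne_zero A0 (pow_ne_zero 2 B0)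
  obtain ⟨u, i, s, h1, h2⟩ := fac_HKUK _ C0
  have key : ∀ g ∈ GK, a g = u * km 3 g w3 + i * km 3 g (io pw) +
      ∑ ϖ ∈ s.toFinset, (s.count ϖ : ZMod 3) * km 3 g (io ϖ) := fun g hg => by
    have e1 : km 3 g (α ^ 3) = a g := by
      rw [km_fix three_ne_zero x0 rfl (fx g hg) (cy3_HKUK hg)]
      exact lz_eq three_ne_zero (by rw [hα g hg, mul_div_cancel_right₀ _ α0])
    have e2 : io (A * B ^ 2) = α ^ 3 * io B ^ 3 := by
      have := io_ne B0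
      rw [e, map_mul, map_pow]
      field_simp
    have e3 := h2 g hg
    rw [e2, km_fix_mul three_ne_zero x0 (pow_ne_zero 3 (io_ne B0)) (fx g hg)
      (by rw [map_pow, io_fix hg]) (cy3_HKUK hg), cube_HKUK hg (io_ne B0) (io_fix hg B), add_zero,
      e1, sum_multiset_map_count] at e3
    simpa only [nsmul_eq_mul] using e3
  have zero : ∀ ϖ ∈ s, ϖ ∉ T → (s.count ϖ : ZMod 3) = 0 := fun ϖ hs hn => by
    have hp := h1 ϖ hs
    obtain ⟨V, hV, h0⟩ := hu ϖ hp hn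
    have n1 : ¬ Ov V pw := fun h => hp.2.pw (((hPLK.2.2.1 V pw pw_prime h).1 ϖ).1 hV)
    have n3 : ¬ Ov V 3 := fun h => n1 (Ov_three.1 h)
    have l3 : V.l ≠ 3 := fun h => n3 (by simpa [h] using Ov_l V)
    obtain ⟨-, ⟨τ, hτ, t1⟩, t2, -⟩ := hTAME 3 1 V Nat.prime_three l3 l3
    have t3 : km 3 τ (io ϖ) = 1 := (t2 ϖ hp.1 hV τ hτ).trans t1
    have v3 : V.v ((3 : ℕ) : Qb) = 1 := by simpa using v_three n3
    have hk : ∀ b : Zw, ¬ Ov V b → km 3 τ (io b) = 0 := fun b hb =>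
      km_ine V v3 hτ.1 (not_Ov.1 hb) (io_fix hτ.2 b)
    have k1 := key τ hτ.2
    rw [h0 τ hτ, ← io_w, hk _ (not_Ov_unit V w_unit), hk _ n1,
      sum_eq_single_of_mem ϖ (Multiset.mem_toFinset.2 hs) fun b hb hne => by
        rw [hk b fun h => hne (eq_HKUK hp (h1 b (Multiset.mem_toFinset.1 hb))
          (((hPLK.2.2.1 V ϖ hp.1 hV).1 b).1 h)).symm, mul_zero], t3] at k1
    simpa using k1.symm
  refine ⟨u, i, fun ϖ => s.count ϖ, fun g hg => ?_⟩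
  rw [key g hg, sum_subset (subset_union_left (s₂ := T)) fun x _ hx => by
      rw [Multiset.count_eq_zero.2 fun h => hx (Multiset.mem_toFinset.2 h), Nat.cast_zero, zero_mul],
    ← sum_subset (subset_union_right (s₁ := s.toFinset)) fun x h hx => by
      rw [zero x (Multiset.mem_toFinset.1 ((mem_union.1 h).resolve_right hx)) hx, zero_mul]]

end Pool.Agent.MP_e23604_nt.W

end

section

set_option autoImplicit false

open Finset
open scoped Classical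

namespace Pool.Agent.MP_e23604_nt.W

open B R S
open MP_3e91a1_nt (Step IsN Loc Nm Nrm Pl Ind)

theorem CMK_pf : CMK_st := by
  rintro p k N M₀ H U c hp oN oM hM hU hd hc hI hpw ⟨N', β, h1, h2, h3⟩
  rcases Nat.eq_zero_or_pos k with rfl | hk
  · exact (Cob.one U).congr fun g hg h hh => by rw [← hpw g hg h hh, pow_zero, pow_one]
  have m1 : ON (N ⊓ M₀ ⊓ N') := (oN.inf oM).inf h1
  set M := N ⊓ M₀ ⊓ N' ⊓ U with hMd
  have m2 : ∀ g ∈ M, (g ∈ N ∧ g ∈ H) ∧ g ∈ N' := fun g h =>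
    ⟨⟨h.1.1.1, hM ⟨h.1.1.2, h.2⟩⟩, h.1.2⟩
  let u : Qb → Additive Qbˣ := fun x => Additive.ofMul (if h : x = 0 then 1 else Units.mk0 x h)
  let v : Additive Qbˣ → Qb := fun x => (Additive.toMul x : Qbˣ)
  have vu : ∀ x, x ≠ 0 → v (u x) = x := fun x h => by simp [u, v, h]
  have vi : Function.Injective v := fun _ _ h => Additive.toMul.injective (Units.ext h)
  have v0 : ∀ x, v x ≠ 0 := fun x => Units.ne_zero _
  have va : ∀ x y, v (x + y) = v x * v y := fun _ _ => rfl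
  obtain ⟨ρ, vs⟩ : ∃ ρ : GQ → Additive Qbˣ →+ Additive Qbˣ, ∀ g x, v (ρ g x) = g (v x) :=
    ⟨fun g => MP_f3cd89_nt.sA g, fun _ _ => rfl⟩
  have vn : ∀ (n : ℕ) x, v (n • x) = v x ^ n := fun n x => by simp [v]
  have hI' := hI.mono (N' := M) (fun g h => (m2 g h).1.1) le_rfl
  obtain ⟨b, b1, b2⟩ := Lib.COR _ ρ M H U (fun g h => u (c g h)) (fun g => u (β g))
    (fun g h => (m2 g h).1.2) hU
    (fun g hg n hn => ⟨m1.1.conj_mem n hn.1 g, U.mul_mem (U.mul_mem hg hn.2) (U.inv_mem hg)⟩)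
    (fun h => hd (h ▸ dvd_zero p)) (fun _ _ _ _ _ => vi (by rw [vs, vs, vs]; rfl))
    (fun g hg h hh j hj => by
      rw [sub_eq_zero, sub_add_eq_add_sub, sub_eq_iff_eq_add]
      refine vi ?_
      rw [va, va, vs, vu _ (hI.2.2 _ hh _ hj).1, vu _ (hI.2.2 _ hg _ (U.mul_mem hh hj)).1,
        vu _ (hI.2.2 _ hg _ hh).1, vu _ (hI.2.2 _ (U.mul_mem hg hh) _ hj).1, hc g hg h hh j hj])
    ⟨fun g hg h hh j hj e => congrArg u (hI'.1 g hg h hh j hj e),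
      fun g hg h hh j hj e => congrArg u (hI'.2.1 g hg h hh j hj e)⟩
    (fun g hg h hh e => congrArg u (h2.1 g hg h hh (m2 _ e).2))
    (fun g hg h hh => by
      rw [sub_add_eq_add_sub, eq_sub_iff_add_eq]
      refine vi ?_
      rw [va, va, vs, vu _ (hI.2.2 _ (hU hg) _ (hU hh)).1, vu _ (h2.2 _ hg).1, vu _ (h2.2 _ hh).1,
        vu _ (h2.2 _ (H.mul_mem hg hh)).1, ← h3 g hg h hh, mul_comm])
  obtain ⟨m, -, hm⟩ := Nat.exists_mul_mod_eq_one_of_coprime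
    (((Nat.Prime.coprime_iff_not_dvd hp).2 hd).symm.pow_right k) (Nat.one_lt_pow hk.ne' hp.one_lt)
  refine cob_of_lc (β := fun g => v (b g) ^ m)
    (Lc.map ⟨_, m1, fun g hg h hh e => b1 g hg h hh ⟨e, U.mul_mem (U.inv_mem hg) hh⟩⟩ fun x => v x ^ m)
    (fun g _ => pow_ne_zero _ (v0 _)) fun g hg h hh => ?_
  have e := b2 g hg h hh
  rw [sub_add_eq_add_sub, eq_sub_iff_add_eq] at e
  have e' := congrArg v e
  rw [va, va, vs, vn, vu _ (hI.2.2 _ hg _ hh).1] at e'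
  simp only
  rw [map_pow, ← mul_pow, mul_comm (v (b g)), ← e', mul_pow, ← pow_mul,
    ← Nat.div_add_mod (_ * m) (p ^ k), hm, pow_succ, pow_mul, hpw g hg h hh, one_pow, one_mul]

theorem ABG_pf (hCMK : CMK_st) : ABG_st := by
  intro p k N U c hp hN hU ⟨x, hx, hx'⟩ hc hI hpw hl
  have := Fact.mk hp
  have hn : Nrm N U := fun g _ n hn => hN.1.conj_mem n hn g
  obtain ⟨H, h1, h2, h3, h4⟩ := (Lib.IND p).2.1 N U hU hn ((Lib.IND p).2.2.2.1 N U hN.2)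
  obtain ⟨β, h5, h6⟩ := S.ABHN_ok p N H c hp ⟨hN, h3⟩ h1 ⟨x, fun g hg => hx g (h2 hg), hx'⟩
    (hc.mono h2) (hI.mono le_rfl h2) fun l _ γ => Or.inl ((hl l γ).mono (inf_le_inf_left _ h2))
  exact Lib.INF N U c hU hn hc hI (hCMK p k N N H U c hp hN hN (inf_le_left.trans h1) h2 h4 hc hI
    hpw ⟨N, β, hN, h5, h6⟩)

end Pool.Agent.MP_e23604_nt.W

end

section

set_option autoImplicit false

open Finset
open scoped Classical

namespace Pool.Agent.MP_e23604_nt.W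

open B R S
open MP_3e91a1_nt (Step IsN Loc Nm Nrm Pl Ind)

/-- the chosen representative -/
noncomputable def t_HTRF (c y : GQ) : GQ := if y ∈ GK then 1 else c

/-- the component in the subgroup -/
noncomputable def a_HTRF (c g y : GQ) : GQ := (t_HTRF c (g * y))⁻¹ * g * t_HTRF c y

theorem te_HTRF (c : GQ) {y y' : GQ} (h : y⁻¹ * y' ∈ GK) : t_HTRF c y = t_HTRF c y' :=
  if_congr ⟨fun e => by simpa using GK.mul_mem e h,
    fun e => GK.inv_mem_iff.1 ((GK.mul_mem_cancel_right e).1 h)⟩ rfl rfl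

theorem ae_HTRF (c g : GQ) {y y' : GQ} (h : y⁻¹ * y' ∈ GK) : a_HTRF c g y = a_HTRF c g y' := by
  rw [a_HTRF, a_HTRF, te_HTRF c h, te_HTRF c (y := g * y) (y' := g * y') (by simpa [mul_assoc])]

theorem tm_HTRF {c : GQ} (hc : c ∉ GK) (y : GQ) : (t_HTRF c y)⁻¹ * y ∈ GK := by
  unfold t_HTRF
  split_ifs with h
  · simpa using h
  · exact GK_mul (by rwa [GK.inv_mem_iff]) h

theorem am_HTRF {c : GQ} (hc : c ∉ GK) (g y : GQ) : a_HTRF c g y ∈ GK := by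
  simpa [a_HTRF, mul_assoc] using GK.mul_mem (tm_HTRF hc (g * y)) (GK.inv_mem (tm_HTRF hc y))

theorem mul_HTRF (c g h y : GQ) : a_HTRF c (g * h) y = a_HTRF c g (h * y) * a_HTRF c h y := by
  simp [a_HTRF, mul_assoc]

theorem cj_HTRF {M : Subgroup GQ} (hM : M.Normal) {g g' : GQ} (h : g⁻¹ * g' ∈ M) (y : GQ) :
    (g * y)⁻¹ * (g' * y) ∈ M := by simpa [mul_assoc] using hM.conj_mem _ h y⁻¹

theorem an_HTRF (c : GQ) {M : Subgroup GQ} (hM : M.Normal) {g g' : GQ} (h : g⁻¹ * g' ∈ M ⊓ GK)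
    (y : GQ) : (a_HTRF c g y)⁻¹ * a_HTRF c g' y ∈ M := by
  rw [a_HTRF, a_HTRF, te_HTRF c (cj_HTRF GK_on.1 h.2 y)]
  simpa [mul_assoc] using cj_HTRF hM h.1 (t_HTRF c y)

theorem ak_HTRF (c : GQ) {g : GQ} (hg : g ∈ GK) (y : GQ) : t_HTRF c (g * y) = t_HTRF c y :=
  te_HTRF c (by simpa using cj_HTRF GK_on.1 (g := g) (g' := 1) (by simpa using hg) y)

theorem TRF_pf (hGRP : GRP_st) (hCNG : CNG_st) (hLIN : LIN_st) : TRF_st := by
  intro N f c hN hc ⟨⟨M, m1, m2, m3⟩, hf⟩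
  let C : GQ → GQ → GQ → ZMod N := fun g h y =>
    cy N (t_HTRF c (g * (h * y))) * f (a_HTRF c g (h * y)) (a_HTRF c h y)
  have hu : ∀ g h y, ∀ u ∈ GK, C g h (y * u) = C g h y := fun g h y u hu => by
    simp only [C]
    rw [te_HTRF c (y := g * (h * y)) (y' := g * (h * (y * u))) (by simpa [mul_assoc]),
      ae_HTRF c g (y := h * y) (y' := h * (y * u)) (by simpa [mul_assoc]),
      ae_HTRF c h (y := y) (y' := y * u) (by simpa)]
  have hK : ∀ g ∈ GK, ∀ h ∈ GK, ∀ y, C g h y = cy N (t_HTRF c y) *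
      f ((t_HTRF c y)⁻¹ * g * t_HTRF c y) ((t_HTRF c y)⁻¹ * h * t_HTRF c y) :=
    fun g hg h hh y => by simp only [C, a_HTRF, ak_HTRF c hg, ak_HTRF c hh]
  have key := fun H : Subgroup GQ => hGRP _ (cy N) GK ⊤ H (M ⊓ GK) C GK_on.2
    (fun g _ u hu => by simpa using GK_on.1.conj_mem u hu g⁻¹) (m1.inf GK_on) le_top le_top
    ⟨cy_lc N H, cy_one hN, fun g _ h _ => cy_mul hN g h⟩ (fun g _ h _ y _ => hu g h y)
    (fun y _ => ⟨fun g _ h _ h' _ e => by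
      have e1 := cj_HTRF GK_on.1 e.2 y
      simp only [C]
      rw [te_HTRF c (y := g * (h * y)) (y' := g * (h' * y)) (by simpa [mul_assoc] using e1),
        ae_HTRF c g e1, m2 _ (am_HTRF hc _ _) _ (am_HTRF hc _ _) _ (am_HTRF hc _ _)
          (an_HTRF c m1.1 e y)], fun h _ g _ g' _ e => by
      simp only [C]
      rw [te_HTRF c (cj_HTRF GK_on.1 e.2 (h * y))]
      exact congrArg _ (m3 _ (am_HTRF hc _ _) _ (am_HTRF hc _ _) _ (am_HTRF hc _ _)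
        (an_HTRF c m1.1 e _))⟩)
    fun g _ h _ k _ y _ => by
      have e1 := hf _ (am_HTRF hc g (h * (k * y))) _ (am_HTRF hc h (k * y)) _ (am_HTRF hc k y)
      have e2 : cy N g * cy N (t_HTRF c (h * (k * y))) =
          cy N (t_HTRF c (g * (h * (k * y)))) * cy N (a_HTRF c g (h * (k * y))) := by
        rw [← cy_mul hN, ← cy_mul hN, a_HTRF, mul_assoc, mul_inv_cancel_left]
      simp only [C, mul_HTRF, mul_assoc]
      linear_combination cy N (t_HTRF c (g * (h * (k * y)))) * e1 +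
        f (a_HTRF c h (k * y)) (a_HTRF c k y) * e2
  have h1 : 1 ≠ c := fun e => hc (e ▸ GK.one_mem)
  have hT : Trv GK ⊤ {1, c} := by
    refine ⟨fun _ _ => trivial, fun g _ => ⟨t_HTRF c g, ⟨?_, tm_HTRF hc g⟩, fun y hy => ?_⟩⟩
    · unfold t_HTRF
      split_ifs <;> simp
    · rw [← te_HTRF c hy.2]
      rcases mem_insert.1 hy.1 with rfl | e
      · exact (if_pos GK.one_mem).symm
      · rw [mem_singleton.1 e]
        exact (if_neg hc).symm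
  refine ⟨_, (key ⊤).1, fun g hg h hh => ?_, fun V b1 b2 => (key _).2 fun y _ => ?_⟩
  · rw [(Xs_trv GK_on.2 le_top).sum_eq hT fun y _ => hu g h y, sum_pair h1, hK g hg h hh,
      hK g hg h hh, t_HTRF, t_HTRF, if_pos GK.one_mem, if_neg hc, cy_one hN]
    simp
  · by_cases hy : y ∈ GK
    · obtain ⟨b, c1, c2⟩ := b1
      refine ⟨b, c1, fun g hg h hh => Eq.trans ?_ (c2 g hg h hh)⟩
      simp only [hK g hg.2 h hh.2, t_HTRF, if_pos hy, cy_one hN]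
      simp
    · obtain ⟨b, c1, c2⟩ := (hCNG _ (cy N)).2.1 V.D _ f c (cy N c)
        (fun g => by rw [V.mv_D]; simp [mul_assoc]) (fun g _ => by
          rw [cy_mul hN, cy_mul hN, mul_right_comm, mul_comm _ (cy N c), cy_inv hN, one_mul]) b2
      refine ⟨b, c1, fun g hg h hh => Eq.trans ?_ (c2 g hg h hh)⟩
      simp only [hK g hg.2 h hh.2, t_HTRF, if_neg hy]

end Pool.Agent.MP_e23604_nt.W

end

section

set_option autoImplicit false

open Finset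
open scoped Classical

namespace Pool.Agent.MP_e23604_nt.W

open B R S
open MP_3e91a1_nt (Step IsN Loc Nm Nrm Pl Ind)

theorem cyc_HCYG2 (n : ℕ) (N H H' : Subgroup GQ) (χ : GQ → ZMod n) (s : GQ) (c : GQ → GQ → Qb)
    (β : GQ → Qb) (hn : 2 ≤ n) (hN : ON N) (hNH : Cst N H' χ) (hχ : Adt H' χ)
    (hH : ∀ g, g ∈ H ↔ g ∈ H' ∧ χ g = 0) (hs : s ∈ H') (hs1 : χ s = 1) (hc : Coc H' c)
    (hI : Inf2 N H' c) (hβ : Inf1 N H β) (hB : Bd H c β) :
    ∃ (a : Qb) (β' : GQ → Qb), a ≠ 0 ∧ Fix H' a ∧ Inf1 N H' β' ∧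
      Bd H' (fun g h => c g h * a ^ car (χ g) (χ h)) β' := by
  have : NeZero n := ⟨by omega⟩
  let D : DtCYC := ⟨H', c, hc, fun g hg h hh => (hI.2.2 g hg h hh).1⟩
  have hle : ∀ {g}, g ∈ H → g ∈ H' := fun hg => ((hH _).1 hg).1
  have χ1 : χ 1 = 0 := ((hH 1).1 (one_mem _)).2
  have χinv : ∀ g ∈ H', χ g⁻¹ = -χ g := fun g hg => by
    have := hχ g hg g⁻¹ (inv_mem hg)
    rw [mul_inv_cancel, χ1] at this
    linear_combination -this
  have χpow : ∀ i : ℕ, χ (s ^ i) = i := fun i => by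
    induction i with
    | zero => rw [pow_zero, χ1, Nat.cast_zero]
    | succ i ih => rw [pow_succ, hχ _ (pow_mem hs i) s hs, ih, hs1, Nat.cast_succ]
  have hcj : ∀ t ∈ H', ∀ h ∈ H, t⁻¹ * h * t ∈ H := fun t ht h hh => by
    refine (hH _).2 ⟨mul_mem (mul_mem (inv_mem ht) (hle hh)) ht, ?_⟩
    rw [hχ _ (mul_mem (inv_mem ht) (hle hh)) t ht, hχ _ (inv_mem ht) h (hle hh), χinv t ht,
      ((hH h).1 hh).2]
    ring
  -- the section on `H`
  let σ : H → ExCYC D := fun h => ⟨β h, ⟨h, hle h.2⟩⟩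
  have σ0 : ∀ h, (σ h).x ≠ 0 := fun h => (hβ.2 h h.2).1
  have σmul : ∀ h k, σ h * σ k = σ (h * k) := fun h k => by
    refine ExCYC.ext ?_ rfl
    show β h * (h : GQ) (β k) / c h k = β (h * k)
    rw [hB h h.2 k k.2, mul_div_cancel_left₀ _ (hI.2.2 _ (hle h.2) _ (hle k.2)).1]
  have good : ∀ p q : ExCYC D, Fix N p.x → Fix N q.x → Fix N (p * q).x := fun p q hp hq =>
    (hp.mul_CYC (hq.apply_CYC hN _)).div_CYC (hI.2.2 _ p.g.2 _ q.g.2).2
  let cq : H → H := fun h => ⟨s⁻¹ * h * s, hcj s hs h h.2⟩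
  have cjmul : ∀ h k, cq (h * k) = cq h * cq k := fun h k => Subtype.ext (by
    simp only [cq, Subgroup.coe_mul]; group)
  let S : ExCYC D := ⟨1, ⟨s, hs⟩⟩
  have S0 : S.x ≠ 0 := one_ne_zero
  have hg : ∀ h, (S * σ (cq h)).g = (σ h * S).g := fun h => Subtype.ext (by
    show s * (s⁻¹ * h * s) = h * s
    group)
  obtain ⟨φ, φd⟩ : ∃ φ : GQ → Qb,
      ∀ h, φ h = s (β (s⁻¹ * h * s)) / c s (s⁻¹ * h * s) / (β h / c h s) := ⟨_, fun _ => rfl⟩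
  have hφ : ∀ h : H, S * σ (cq h) = ExCYC.sm (φ h) (σ h * S) := fun h => by
    refine (ExCYC.eq_sm (ExCYC.mul_ne (σ0 h) S0) (hg h)).trans ?_
    congr 1
    simp only [ExCYC.mul_x, S, σ, cq, φd, D, one_mul, map_one, mul_one]
  have hco : ∀ g h : H, φ (g * h : H) = φ g * (g : GQ) (φ h) := fun g h => by
    refine ExCYC.sm_cancel (ExCYC.mul_ne (σ0 (g * h)) S0) ?_
    rw [← hφ, cjmul, ← σmul, ← mul_assoc, hφ, ExCYC.sm_mul, mul_assoc, hφ, ExCYC.mul_sm,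
      ExCYC.sm_sm, ← mul_assoc, σmul]
  obtain ⟨y, y0, yN, hy⟩ := R.H90_ok.1 N H φ hN ⟨fun g hg h hh e => by
      have e' : (s⁻¹ * g * s)⁻¹ * (s⁻¹ * h * s) ∈ N := by
        have := hN.1.conj_mem' _ e s
        convert this using 1
        group
      rw [φd, φd, hβ.1 g hg h hh e, hβ.1 _ (hcj s hs g hg) _ (hcj s hs h hh) e',
        hI.1 s hs _ (hle (hcj s hs g hg)) _ (hle (hcj s hs h hh)) e']
      exact congrArg (fun t => _ / (β h / t)) (hI.2.1 s hs g (hle hg) h (hle hh) e),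
    fun g hg => by
      have h1 := hβ.2 _ (hcj s hs g hg)
      have h2 := hI.2.2 s hs _ (hle (hcj s hs g hg))
      have h3 := hβ.2 g hg
      have h4 := hI.2.2 g (hle hg) s hs
      rw [φd]
      exact ⟨div_ne_zero (div_ne_zero ((map_ne_zero _).2 h1.1) h2.1) (div_ne_zero h3.1 h4.1),
        ((h1.2.apply_CYC hN s).div_CYC h2.2).div_CYC (h3.2.div_CYC h4.2)⟩⟩
    (fun g hg h hh => hco ⟨g, hg⟩ ⟨h, hh⟩)
  -- the corrected lift normalises the section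
  obtain ⟨T, T0, TN, Tg, hT⟩ : ∃ T : ExCYC D, T.x ≠ 0 ∧ Fix N T.x ∧ (T.g : GQ) = s ∧
      ∀ h, T * σ (cq h) = σ h * T := by
    refine ⟨ExCYC.sm y S, mul_ne_zero y0 S0, yN.mul_CYC fun ν _ => map_one ν, rfl, fun h => ?_⟩
    rw [ExCYC.sm_mul, hφ, ExCYC.sm_sm, ExCYC.mul_sm, mul_comm y, ← hy h h.2]
  have Tp : ∀ i : ℕ, (T ^ i).x ≠ 0 ∧ Fix N (T ^ i).x := fun i => by
    induction i with
    | zero => rw [pow_zero]; exact hI.2.2 1 (one_mem _) 1 (one_mem _)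
    | succ i ih => rw [pow_succ]; exact ⟨ExCYC.mul_ne ih.1 T0, good _ _ ih.2 TN⟩
  have Tpg : ∀ i : ℕ, ((T ^ i).g : GQ) = s ^ i := fun i => by
    rw [ExCYC.pow_g, SubgroupClass.coe_pow, Tg]
  have hTp : ∀ (i : ℕ) (h k : H), (h : GQ) * s ^ i = s ^ i * k → T ^ i * σ k = σ h * T ^ i := by
    intro i
    induction i with
    | zero =>
      intro h k e
      rw [pow_zero, mul_one, one_mul] at e
      rw [pow_zero, mul_one, one_mul, Subtype.ext e]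
    | succ i ih =>
      intro h k e
      rw [pow_succ', mul_assoc, ih (cq h) k (by
        show s⁻¹ * h * s * s ^ i = s ^ i * k
        rw [mul_assoc, mul_assoc, ← pow_succ', e, pow_succ', mul_assoc, inv_mul_cancel_left]),
        ← mul_assoc, hT, mul_assoc]
  have hsn : ∀ r : ℕ, s ^ (n * r) ∈ H := fun r =>
    (hH _).2 ⟨pow_mem hs _, by rw [χpow, Nat.cast_mul, ZMod.natCast_self, zero_mul]⟩
  obtain ⟨u, hu⟩ : ∃ u : H, (u : GQ) = s ^ n := ⟨⟨s ^ n, by simpa using hsn 1⟩, rfl⟩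
  obtain ⟨a, a0, ha⟩ : ∃ a : Qb, a ≠ 0 ∧ T ^ n = ExCYC.sm a (σ u) :=
    ⟨_, div_ne_zero (Tp n).1 (σ0 u), ExCYC.eq_sm (σ0 u) (Subtype.ext ((Tpg n).trans hu.symm))⟩
  have aH : ∀ h : H, (h : GQ) a = a := fun h => by
    have e := hTp n h (u⁻¹ * h * u) (by
      rw [← hu, Subgroup.coe_mul, Subgroup.coe_mul, Subgroup.coe_inv]; group)
    rw [ha, ExCYC.sm_mul, ExCYC.mul_sm, σmul, σmul, ← mul_assoc, mul_inv_cancel_left] at e
    exact (ExCYC.sm_cancel (σ0 _) e).symm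
  have aσ : ∀ h : H, ((σ h).g : GQ) a = a := aH
  have as : s a = a := by
    have e : T * T ^ n = T ^ n * T := by rw [← pow_succ, ← pow_succ']
    have e2 := hTp 1 u u (by rw [hu, pow_one, ← pow_succ, ← pow_succ'])
    rw [pow_one] at e2
    rw [ha, ExCYC.sm_mul, ExCYC.mul_sm, e2, Tg] at e
    exact ExCYC.sm_cancel (ExCYC.mul_ne (σ0 u) T0) e
  have asp : ∀ i : ℕ, (s ^ i) a = a := fun i => by
    induction i with
    | zero => rfl
    | succ i ih => rw [pow_succ, AlgEquiv.mul_apply, as, ih]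
  have hTn : ∀ r : ℕ, T ^ (n * r) = ExCYC.sm (a ^ r) (σ (u ^ r)) := fun r => by
    induction r with
    | zero =>
      rw [mul_zero, pow_zero, pow_zero, pow_zero, ExCYC.one_sm]
      refine ExCYC.ext ?_ rfl
      have := hB 1 (one_mem _) 1 (one_mem _)
      rw [mul_one, AlgEquiv.one_apply] at this
      exact (mul_right_cancel₀ (hβ.2 1 (one_mem _)).1 this).symm
    | succ r ih =>
      rw [Nat.mul_succ, pow_add, ih, ha, ExCYC.sm_mul, ExCYC.mul_sm, ExCYC.sm_sm, σmul, pow_succ,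
        pow_succ]
      exact congrArg (fun t => ExCYC.sm (a ^ r * t) _) (aH (u ^ r))
  have hdec : ∀ g ∈ H', g * (s ^ (χ g).val)⁻¹ ∈ H := fun g hg =>
    (hH _).2 ⟨mul_mem hg (inv_mem (pow_mem hs _)), by
      rw [hχ g hg _ (inv_mem (pow_mem hs _)), χinv _ (pow_mem hs _), χpow, ZMod.natCast_zmod_val,
        add_neg_cancel]⟩
  let V : H' → ExCYC D := fun g => σ ⟨_, hdec g g.2⟩ * T ^ (χ g).val
  have Vg : ∀ g, (V g).g = g := fun g => Subtype.ext (by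
    show (g : GQ) * (s ^ (χ g).val)⁻¹ * ((T ^ (χ g).val).g : GQ) = g
    rw [Tpg, inv_mul_cancel_right])
  have Vmul : ∀ g k : H', V g * V k = ExCYC.sm (a ^ car (χ g) (χ k)) (V (g * k)) := fun g k => by
    have e : (χ g).val + (χ k).val = n * car (χ g) (χ k) + (χ (g * k : H')).val := by
      rw [Subgroup.coe_mul, hχ g g.2 k k.2, ZMod.val_add, car, Nat.div_add_mod]
    have m1 : s ^ (χ g).val * (k * (s ^ (χ k).val)⁻¹) * (s ^ (χ g).val)⁻¹ ∈ H := by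
      simpa only [inv_inv] using hcj _ (inv_mem (pow_mem hs (χ g).val)) _ (hdec k k.2)
    simp only [V]
    rw [mul_assoc, ← mul_assoc (T ^ _), hTp _ ⟨_, m1⟩ ⟨_, hdec k k.2⟩ (inv_mul_cancel_right _ _),
      mul_assoc, ← pow_add, e, pow_add, hTn, ← mul_assoc, σmul, ← mul_assoc, ExCYC.mul_sm, σmul,
      ExCYC.sm_mul, map_pow]
    congr 2
    · exact aσ _
    · congr 1
      refine Subtype.ext ?_
      simp only [Subgroup.coe_mul, SubgroupClass.coe_pow, hu]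
      rw [Subgroup.coe_mul] at e
      rw [← pow_mul, eq_mul_inv_iff_mul_eq, mul_assoc, ← pow_add, ← e, add_comm, pow_add]
      group
  refine ⟨a, fun g => if hg : g ∈ H' then (V ⟨g, hg⟩).x else 1, a0, fun g hg => ?_,
    ⟨fun g hg h hh e => ?_, fun g hg => ?_⟩, fun g hg h hh => ?_⟩
  · have := aH ⟨_, hdec g hg⟩
    rw [← asp (χ g).val, ← AlgEquiv.mul_apply, inv_mul_cancel_right, asp] at this
    exact this
  · have e1 : χ g = χ h := hNH g hg h hh e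
    have e2 : (g * (s ^ (χ g).val)⁻¹)⁻¹ * (h * (s ^ (χ h).val)⁻¹) ∈ N := by
      have := hN.1.conj_mem _ e (s ^ (χ g).val)
      rw [← e1]
      convert this using 1
      group
    simp only [dif_pos hg, dif_pos hh, V, ExCYC.mul_x, σ, D]
    rw [hβ.1 _ (hdec g hg) _ (hdec h hh) e2, (Tp _).2.eq_CYC e2,
      show c (g * (s ^ (χ g).val)⁻¹) (T ^ (χ g).val).g = c (h * (s ^ (χ h).val)⁻¹) (T ^ (χ g).val).g
        from hI.2.1 _ (T ^ (χ g).val).g.2 _ (hle (hdec g hg)) _ (hle (hdec h hh)) e2, e1]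
  · simp only [dif_pos hg]
    exact ⟨ExCYC.mul_ne (σ0 _) (Tp _).1, good _ _ (hβ.2 _ (hdec g hg)).2 (Tp _).2⟩
  · simp only [dif_pos hg, dif_pos hh, dif_pos (mul_mem hg hh)]
    have := congrArg ExCYC.x (Vmul ⟨g, hg⟩ ⟨h, hh⟩)
    rw [ExCYC.mul_x, Vg, Vg, div_eq_iff (hI.2.2 g hg h hh).1] at this
    rw [this, mul_assoc, mul_comm (c g h)]
    rfl

theorem CYG2_pf : CYG2_st := by
  intro n N H H' χ s c hn hN hχ ⟨N2, hN2, h2⟩ hH hs hs1 hc hI ⟨N1, β, hN1, hβ, hB⟩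
  obtain ⟨a, β', h3, h4, h5, h6⟩ := cyc_HCYG2 n (N ⊓ N1 ⊓ N2) H H' χ s c β hn
    ((hN.inf hN1).inf hN2) (h2.mono inf_le_right le_rfl) hχ hH hs hs1 hc
    (hI.mono (inf_le_left.trans inf_le_left) le_rfl)
    (hβ.mono (inf_le_left.trans inf_le_right) le_rfl) hB
  exact ⟨a, h3, h4, _, β', (hN.inf hN1).inf hN2, h5, h6⟩

end Pool.Agent.MP_e23604_nt.W

end

section

set_option autoImplicit false

open Finset
open scoped Classical

namespace Pool.Agent.MP_e23604_nt.W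

open B R S
open MP_3e91a1_nt (Step IsN Loc Nm Nrm Pl Ind)

theorem TA0_pf : TA0_st := by
  intro l hl γ N hN
  obtain ⟨L, _, _, hL⟩ := MP_f68ac8_nt.exists_level (hN.2.mem_nhds (one_mem _))
  obtain ⟨C, _, _, Θ, h1, -⟩ := MP_f68ac8_nt.level_theta L (cen l γ) hl.out (cen_mem l γ)
  obtain ⟨⟨_, u₀, rfl⟩, h₀⟩ := IsCyclic.exists_generator (α := Θ.range)
  refine ⟨u₀, ine_iff.2 u₀.2, fun u hu => ?_⟩
  obtain ⟨n, hn⟩ := h₀ ⟨_, ⟨u, ine_iff.1 hu⟩, rfl⟩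
  have hn' : Θ u₀ ^ n = Θ ⟨u, ine_iff.1 hu⟩ := congrArg Subtype.val hn
  obtain ⟨c, hc⟩ := h1 (⟨u, ine_iff.1 hu⟩ * (u₀ ^ n)⁻¹) (by
    rw [map_mul, map_inv, map_zpow, hn', mul_inv_cancel])
  have h3 := hL _ hc
  have := hN.finite
  have := hN.1
  have hM : N.index ≠ 0 := Subgroup.index_ne_zero_of_finite
  refine ⟨(n % N.index).toNat, fun A _ π m hπ hc hm hp => ?_⟩
  let F : (cen l γ).inertia GQ →* A :=
    MonoidHom.mk' (fun u => π u) fun u v => hπ _ (ine_iff.2 u.2) _ (ine_iff.2 v.2)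
  have hF : ∀ u, F u = π u := fun _ => rfl
  have hz : ∀ v : (cen l γ).inertia GQ, (v : GQ) ∈ N → F v = 1 := fun v hv => by
    rw [← F.map_one, hF, hF]
    exact (hc _ (one_mem _) _ (ine_iff.2 v.2) (by simpa using hv)).symm
  have h4 := hz ((⟨u, ine_iff.1 hu⟩ * (u₀ ^ n)⁻¹) ^ l ^ c) h3
  rw [map_pow] at h4
  have hq : ∀ v, F v ^ m = 1 := fun v => hp _ (ine_iff.2 v.2)
  have h5 := MP_f68ac8_nt.eq_one_of_pow_of_coprime
    (((Nat.Prime.coprime_iff_not_dvd hl.out).2 hm).symm.pow_right c) (hq _) h4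
  rw [map_mul, map_inv, map_zpow, mul_inv_eq_one] at h5
  have h6 := hz (u₀ ^ N.index) (N.pow_index_mem _)
  rw [map_pow, ← zpow_natCast] at h6
  rw [← hF u₀, ← zpow_natCast, Int.toNat_of_nonneg (Int.emod_nonneg _ (Nat.cast_ne_zero.2 hM)),
    ← zpow_eq_zpow_emod n h6]
  exact h5

end Pool.Agent.MP_e23604_nt.W

end

section

set_option autoImplicit false

open Finset
open scoped Classical

namespace Pool.Agent.MP_e23604_nt.W

open B R S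
open MP_3e91a1_nt (Step IsN Loc Nm Nrm Pl Ind)

theorem lin_HRCP {R : Type} [CommRing R] {N : ℕ} (hN : N ≠ 0) (j : ZMod N →+* R)
    (l : R →+ ZMod N) (a : ZMod N) (y : R) : l (j a * y) = a * l y := by
  have : NeZero N := ⟨hN⟩
  obtain ⟨k, rfl⟩ := ZMod.natCast_zmod_surjective a
  rw [map_natCast, ← nsmul_eq_mul, map_nsmul, nsmul_eq_mul]

theorem co_HRCP {R : Type} [CommRing R] {N : ℕ} (hN : N ≠ 0) (j : ZMod N →+* R)
    (l : R →+ ZMod N) {H H' : Subgroup GQ} (hH : H' ≤ H) {f : GQ → GQ → R}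
    (h : Co2 (cj j) H f) : Co2 (cy N) H' fun g h => l (f g h) := by
  obtain ⟨⟨M, hM, c1, c2⟩, e⟩ := h
  refine ⟨⟨M, hM, fun g hg a ha b hb hab => congrArg l (c1 g (hH hg) a (hH ha) b (hH hb) hab),
    fun g hg a ha b hb hab => congrArg l (c2 g (hH hg) a (hH ha) b (hH hb) hab)⟩,
    fun g hg h hh k hk => ?_⟩
  have h1 := congrArg l (e g (hH hg) h (hH hh) k (hH hk))
  rwa [map_sub, map_add, map_sub, cj, lin_HRCP hN, map_zero] at h1

theorem bo_HRCP {R : Type} [CommRing R] {N : ℕ} (hN : N ≠ 0) (j : ZMod N →+* R)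
    (l : R →+ ZMod N) {H : Subgroup GQ} {f : GQ → GQ → R}
    (h : Bo2 (cj j) H f) : Bo2 (cy N) H fun g h => l (f g h) := by
  obtain ⟨b, hb, e⟩ := h
  refine ⟨fun g => l (b g), hb.map l, fun g hg h hh => ?_⟩
  have h1 := congrArg l (e g hg h hh)
  rwa [map_add, map_sub, cj, lin_HRCP hN] at h1

theorem RCP_pf (hRC1 : RC1_st) (hIVK : IVK_st) (hFUN : FUN_st) : RCP_st := by
  intro R _ p n j f Q V φ τ u b hp hn hf hQ hW
  have hN : p ^ n ≠ 0 := pow_ne_zero _ hp.ne_zero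
  by_contra hx
  obtain ⟨l, hl⟩ := hFUN (p ^ n) R _ hN (fun y => by rw [nsmul_eq_mul, j_zero j, zero_mul]) hx
  have h1 := hRC1 p n (fun g h => l (f g h)) Q V
    (fun ϖ => 2 * u ϖ * (l (b ϖ (τ ϖ) (φ ϖ)) - l (b ϖ (φ ϖ) (τ ϖ)))) hp hn
    (co_HRCP hN j l le_rfl hf) (fun ϖ hϖ => ?_) fun W h => bo_HRCP hN j l (hW W h)
  · refine hl ?_
    rw [show (4 : R) = j 4 from (map_ofNat j 4).symm, lin_HRCP hN, map_sum, ← h1, mul_sum,
      mul_sum]
    refine sum_congr rfl fun ϖ _ => ?_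
    rw [lin_HRCP hN, map_sub]
    ring
  · obtain ⟨hs, hτ, hu, hb, ho⟩ := hQ ϖ hϖ
    refine ⟨hs.pp, hs.ov, hs.deg, hs.dvd, hIVK p n (V ϖ) ϖ (φ ϖ) (τ ϖ) (u ϖ) _
      (fun g h => l (b ϖ g h)) hp hn hs hτ hu ⟨fun g hg a ha c hc => ?_, fun g hg a ha c hc => ?_⟩
      (co_HRCP hN j l (V ϖ).D_le hf) ?_⟩
    · simp only [hb.1 g hg a ha c hc, map_add]
    · have := hb.2 g hg a ha c hc
      simp only at this
      simp only [this, map_add]
    · simpa only [map_sub] using bo_HRCP hN j l ho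

end Pool.Agent.MP_e23604_nt.W

end

section

set_option autoImplicit false

open Finset
open scoped Classical

namespace Pool.Agent.MP_e23604_nt.W

open B R S
open MP_3e91a1_nt (Step IsN Loc Nm Nrm Pl Ind)

theorem pow_HKG1 {A : Type} [Ring A] {f : GQ → A} (h : Adt GK f) {x : GQ} (hx : x ∈ GK) (j : ℕ) :
    f (x ^ j) = j * f x := by
  induction j with
  | zero => simpa using h 1 (one_mem _) 1 (one_mem _)
  | succ j ih => rw [pow_succ, h _ (pow_mem hx j) _ hx, ih, Nat.cast_succ, add_mul, one_mul]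

theorem KG1_pf (hCYL : CYL_st) (hKM : KM_st) (hPLK : PLK_st) : KG1_st := by
  intro m
  have k3 := (hKM 3 three_ne_zero).2.2.2.2.2.2.2.1
  have c1 : ∀ n a k, n = a + k → ∀ g ∈ GK, ∀ i : ℕ, lA n g = i → lA a g = i := by
    rintro _ a k rfl g hg i h
    rw [← ((hCYL a).2.2.2.1 g hg).2.2 k, h, map_natCast]
  have c2 : ∀ g ∈ GK, lA 1 g = 0 ↔ cy 9 g = 1 := fun g hg => ((hCYL 1).2.2.2.1 g hg).2.1
  have c3 : ∀ θ : Qb, θ ≠ 0 → Fix GK θ → Adt GK fun g => km 3 g θ := fun θ h0 h g hg g' hg' => by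
    simp only [km_mul three_ne_zero g g' h0, (k3 g hg).1, h g' hg', one_mul, add_comm]
  obtain ⟨x, hx, h1⟩ := (hCYL (m + 1)).2.2.2.2 V3 rfl
  have h2 : cy 9 x ≠ 1 := fun e => by
    have := c1 (m + 1) 1 m (add_comm _ _) x hx.2 1 (by simpa using h1)
    rw [(c2 x hx.2).2 e] at this
    exact absurd this (by decide)
  have c4 : ∀ g ∈ GK, lA (m + 1) g = 0 → cy 9 g = 1 := fun g hg e =>
    (c2 g hg).1 (by simpa using c1 (m + 1) 1 m (add_comm _ _) g hg 0 (by simpa using e))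
  suffices h : ∃ y ∈ V3.I, lA (m + 1) y = 0 ∧ km 3 y (io pw) ≠ 0 by
    obtain ⟨y, hy, h3, h4⟩ := h
    exact ⟨x, V3.I_le hx, y, V3.I_le hy, by simpa using c1 _ m 1 rfl x hx.2 1 (by simpa using h1),
      by simpa using c1 _ m 1 rfl y hy.2 0 (by simpa using h3), h2, c4 y hy.2 h3, h4⟩
  by_contra h
  push Not at h
  have p0 := io_ne pw_ne
  have a1 := c3 _ p0 fun g hg => io_fix hg pw
  have a2 := c3 _ w3_ne_zero fun g hg => mem_GK'.1 hg
  obtain ⟨t, ht⟩ : ∃ t : ℕ, km 3 x (io pw) + t * km 3 x w3 = 0 := by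
    have h3 : km 3 x w3 ≠ 0 := fun e => h2 ((k3 x hx.2).2.2 e)
    have h4 : ∀ a b : ZMod 3, b ≠ 0 → a + ((-a * b).val : ℕ) * b = 0 := by decide
    exact ⟨_, h4 _ _ h3⟩
  have t0 : io pw * w3 ^ t ≠ 0 := mul_ne_zero p0 (pow_ne_zero _ w3_ne_zero)
  have a3 : Fix V3.I (rt 3 (io pw * w3 ^ t)) := fun g hg => by
    obtain ⟨j, hj⟩ : ∃ j : ℕ, lA (m + 1) g + j = 0 := ⟨(-lA (m + 1) g).val, by simp⟩
    have b1 : g * x ^ j ∈ V3.I := mul_mem hg (pow_mem hx j)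
    have b2 : lA (m + 1) (g * x ^ j) = 0 := by
      rw [(hCYL _).1 g hg.2 _ (pow_mem hx.2 j), pow_HKG1 (hCYL _).1 hx.2, h1, mul_one, hj]
    have b3 := (a1 g hg.2 _ (pow_mem hx.2 j)).symm.trans (h _ b1 b2)
    have b4 := (a2 g hg.2 _ (pow_mem hx.2 j)).symm.trans ((k3 _ b1.2).2.1 (c4 _ b1.2 b2))
    simp only [pow_HKG1 a1 hx.2, pow_HKG1 a2 hx.2] at b3 b4
    have b5 := mem_GK'.1 hg.2
    have b6 : g (w3 ^ t) = w3 ^ t := by rw [map_pow, b5]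
    have b7 : km 3 g (io pw * w3 ^ t) = 0 := by
      rw [km_fix_mul three_ne_zero p0 (pow_ne_zero _ w3_ne_zero) (io_fix hg.2 pw) b6 (k3 g hg.2).1,
        km_fix_pow three_ne_zero w3_ne_zero b5 (k3 g hg.2).1]
      linear_combination b3 + t * b4 - j * ht
    rw [km_spec three_ne_zero g t0, b7, map_mul, io_fix hg.2, b6, ZMod.val_zero, pow_zero, one_mul]
  obtain ⟨ϖ, q1, q2, q3, -⟩ := hPLK.1 V3
  obtain rfl := q3 rfl
  obtain ⟨k, hk⟩ := (hPLK.2.2.1 V3 pw q1 q2).2.2.2.2.2.2 _ (rt_ne three_ne_zero t0) a3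
  have d1 : V3.v w3 = 1 := by
    have := congrArg V3.v w3_cube
    rw [map_pow, map_one] at this
    exact (pow_eq_one_iff_of_nonneg (V3.v.nonneg _) three_ne_zero).1 this
  have d2 := congrArg V3.v (rt_pow three_ne_zero (io pw * w3 ^ t))
  rw [map_pow, hk, map_mul, map_pow, d1, one_pow, mul_one, ← zpow_natCast, ← zpow_mul] at d2
  have d3 := zpow_right_injective₀ (V3.v.pos p0) (ne_of_lt q2) (d2.trans (zpow_one _).symm)
  omega

end Pool.Agent.MP_e23604_nt.W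

end

section

set_option autoImplicit false

namespace Pool.Agent.MP_e23604_nt.W

theorem CMK_ok : CMK_st := CMK_pf
theorem ABG_ok : ABG_st := ABG_pf CMK_ok
theorem CHO_ok : CHO_st := CHO_pf
theorem CHP_ok : CHP_st := CHP_pf CHO_ok
theorem RQ_ok : RQ_st := RQ_pf ABG_ok CHP_ok
theorem LIN_ok : LIN_st := LIN_pf
theorem GRP_ok : GRP_st := GRP_pf LIN_ok
theorem KMa_ok : KMa_st := KMa_pf
theorem KMb_ok : KMb_st := KMb_pf
theorem KM_ok : KM_st := KM_pf KMa_ok KMb_ok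
theorem PLa_ok : PLa_st := PLa_pf
theorem PLb_ok : PLb_st := PLb_pf PLa_ok
theorem PLc_ok : PLc_st := PLc_pf PLa_ok PLb_ok
theorem PLd_ok : PLd_st := PLd_pf PLb_ok PLc_ok
theorem PLK_ok : PLK_st := PLK_pf PLa_ok PLb_ok PLc_ok PLd_ok
theorem CYL_ok : CYL_st := CYL_pf KM_ok PLK_ok
theorem CYM_ok : CYM_st := CYM_pf CYL_ok
theorem CYG2_ok : CYG2_st := CYG2_pf
theorem LTa_ok : LTa_st := LTa_pf CYM_ok CYG2_ok CMK_ok
theorem LTb_ok : LTb_st := LTb_pf CYG2_ok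
theorem LTc_ok : LTc_st := LTc_pf LTa_ok LTb_ok CYM_ok
theorem NLa_ok : NLa_st := NLa_pf PLK_ok
theorem NLb_ok : NLb_st := NLb_pf CYM_ok
theorem ADM_ok : ADM_st := ADM_pf
theorem CNG_ok : CNG_st := CNG_pf
theorem FRK_ok : FRK_st := FRK_pf PLK_ok KM_ok
theorem R2g_ok : R2g_st := R2g_pf LTc_ok NLa_ok NLb_ok ABG_ok CYG2_ok ADM_ok CNG_ok CYM_ok PLK_ok FRK_ok KM_ok LIN_ok
theorem APB_ok : APB_st := APB_pf
theorem APA_ok : APA_st := APA_pf
theorem MOD_ok : MOD_st := MOD_pf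
theorem FUN_ok : FUN_st := FUN_pf
theorem DM4_ok : DM4_st := DM4_pf FUN_ok
theorem NDG_ok : NDG_st := NDG_pf ADM_ok LIN_ok
theorem LOC3_ok : LOC3_st := LOC3_pf MOD_ok DM4_ok NDG_ok FUN_ok KM_ok
theorem TA0_ok : TA0_st := TA0_pf
theorem TAME_ok : TAME_st := TAME_pf TA0_ok PLK_ok KM_ok
theorem TPU_ok : TPU_st := TPU_pf TA0_ok TAME_ok FRK_ok KM_ok
theorem TPG_ok : TPG_st := TPG_pf TAME_ok FRK_ok KM_ok
theorem TPR_ok : TPR_st := TPR_pf TPU_ok TPG_ok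
theorem CHQ_ok : CHQ_st := CHQ_pf
theorem SEL_ok : SEL_st := SEL_pf
theorem FI1_ok : FI1_st := FI1_pf SEL_ok
theorem TRF_ok : TRF_st := TRF_pf GRP_ok CNG_ok LIN_ok
theorem IVT_ok : IVT_st := IVT_pf CNG_ok ADM_ok FRK_ok PLK_ok KM_ok LIN_ok
theorem RC1_ok : RC1_st := RC1_pf RQ_ok TRF_ok IVT_ok ADM_ok PLK_ok LIN_ok
theorem IVK_ok : IVK_st := IVK_pf TAME_ok FRK_ok PLK_ok KM_ok LIN_ok
theorem R2u_ok : R2u_st := R2u_pf TAME_ok PLK_ok KM_ok
theorem BRN_ok : BRN_st := BRN_pf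
theorem UNB_ok : UNB_st := UNB_pf PLK_ok FRK_ok
theorem KUK_ok : KUK_st := KUK_pf PLK_ok TAME_ok KM_ok
theorem PW0_ok : PW0_st := PW0_pf
theorem POW_ok : POW_st := POW_pf PW0_ok
theorem KG1_ok : KG1_st := KG1_pf CYL_ok KM_ok PLK_ok
theorem KGEN_ok : KGEN_st := KGEN_pf KUK_ok KG1_ok TAME_ok PLK_ok KM_ok
theorem GEN_ok : GEN_st := GEN_pf KGEN_ok BRN_ok TAME_ok PLK_ok
theorem APXF_ok : APXF_st := APXF_pf APA_ok APB_ok PLK_ok
theorem CNJ_ok : CNJ_st := CNJ_pf CNG_ok PLK_ok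
theorem CUP_ok : CUP_st := CUP_pf
theorem FIH_ok : FIH_st := FIH_pf FUN_ok FI1_ok
theorem CHB_ok : CHB_st := CHB_pf CHQ_ok PLK_ok FRK_ok KM_ok
theorem RCP_ok : RCP_st := RCP_pf RC1_ok IVK_ok FUN_ok
theorem RCC_ok : RCC_st := RCC_pf RCP_ok CUP_ok UNB_ok TAME_ok PLK_ok KM_ok LIN_ok
theorem R2_ok : R2_st := R2_pf R2g_ok R2u_ok UNB_ok LIN_ok
theorem NUL_ok : NUL_st := NUL_pf BRN_ok FIH_ok PLK_ok

end Pool.Agent.MP_e23604_nt.W

end
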