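import Pool.Agent.Mg.Fe23604m.G39a49e
import Pool.Agent.Mg.Fe23604m.Ge613ea
import Pool.Agent.Mg.Fe23604m.G19f17f
import Pool.Agent.Mg.Fe23604m.Ga474eb
import Pool.Agent.Mg.Fe23604m.G68d450
import Pool.Agent.Mg.Fe23604m.G81b338
import Pool.Agent.Mg.Fe23604m.G26a658
import Pool.Agent.Mg.Fe23604m.Gad4bd4
import Pool.Agent.Mg.Fe23604m.Gbeef41
import Pool.Agent.Mg.Fe23604m.G5395e9
import Pool.Agent.Mg.Fe23604m.G87c243

set_option linter.all false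

section

/-!
The Euler system: assembly.
-/

set_option autoImplicit false

namespace Pool.Agent.MP_e23604_nt.W

theorem KOL_of (h1 : THI_st) (h2 : NRM1_st) (h3 : UNIT_st) (h4 : CONG_st) (h5 : FRB_st)
    (h6 : INE_st) (h7 : CYG_st) (h8 : CARD_st) (h9 : RAMQ_st) (hF : FRK_st) (hM : TAME_st) :
    KOL_st := KOL_pf (KOL0_pf h1 h2 h3 h4 h5 h6 h7 hF NR_pf FS_pf) (TAU_pf h8 h9) hM

end Pool.Agent.MP_e23604_nt.W

end

section

/-!
The completion of the Eisenstein integers at three.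
-/

set_option autoImplicit false

open Finset Filter Matrix QuadraticAlgebra
open scoped Classical

namespace Pool.Agent.MP_e23604_nt.W

open B R S

theorem lim_O3 : ∃ L : (ℕ → ℤ_[3]) →+* ℤ_[3],
    ∀ (x : ℕ → ℤ_[3]) (k : ℕ), ∀ᶠ n in uf, (3 : ℤ_[3]) ^ k ∣ x n - L x := by
  have h : ∀ x : ℕ → ℤ_[3], ∃ a, Tendsto x uf (nhds a) := fun x =>
    ⟨_, (Ultrafilter.map x (hyperfilter ℕ)).le_nhds_lim⟩
  choose L hL using h
  refine ⟨⟨⟨⟨L, ?_⟩, fun x y => ?_⟩, ?_, fun x y => ?_⟩, fun x k => ?_⟩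
  · exact tendsto_nhds_unique (hL 1) tendsto_const_nhds
  · exact tendsto_nhds_unique (hL _) ((hL x).mul (hL y))
  · exact tendsto_nhds_unique (hL 0) tendsto_const_nhds
  · exact tendsto_nhds_unique (hL _) ((hL x).add (hL y))
  · filter_upwards [Metric.tendsto_nhds.1 (hL x) (((3 : ℕ) : ℝ) ^ (-k : ℤ)) (by positivity)]
      with n hn
    rw [dist_eq_norm] at hn
    exact Ideal.mem_span_singleton.1 ((PadicInt.norm_le_pow_iff_mem_span_pow _ k).1 hn.le)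

theorem dvd_O3 {K : Type} [CommRing K] (x : QuadraticAlgebra K (-1) (-1)) :
    (⟨1, 2⟩ : QuadraticAlgebra K (-1) (-1)) ∣ x ↔ 3 ∣ x.re + x.im := by
  refine ⟨fun ⟨c, e⟩ => ⟨c.re - c.im, by rw [e]; simp; ring⟩, fun ⟨m, e⟩ =>
    ⟨⟨2 * m - x.re, m - x.re⟩, ?_⟩⟩
  ext
  · simp; ring
  · simp; linear_combination e

theorem co_O3 {K : Type} [CommRing K] (x : QuadraticAlgebra K (-1) (-1)) (k : ℕ) :
    (⟨1, 2⟩ : QuadraticAlgebra K (-1) (-1)) ^ (2 * k) ∣ x ↔ 3 ^ k ∣ x.re ∧ 3 ^ k ∣ x.im := by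
  have e : (⟨1, 2⟩ : QuadraticAlgebra K (-1) (-1)) ^ 2 = -1 * algebraMap K _ 3 := by
    ext <;> simp [sq] <;> norm_num
  rw [pow_mul, e, mul_pow, (isUnit_one.neg.pow k).mul_left_dvd, ← map_pow]
  refine ⟨fun ⟨c, e⟩ => ⟨⟨c.re, by rw [e]; simp [-map_pow]⟩, ⟨c.im, by rw [e]; simp [-map_pow]⟩⟩,
    fun ⟨⟨a, ha⟩, ⟨b, hb⟩⟩ => ⟨⟨a, b⟩, ?_⟩⟩
  ext <;> simp [-map_pow, ha, hb]

theorem unit_O3 (x : QuadraticAlgebra ℤ_[3] (-1) (-1)) (h : ¬ ⟨1, 2⟩ ∣ x) : IsUnit x := by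
  have hp : Prime (3 : ℤ_[3]) := PadicInt.prime_p
  rw [dvd_O3] at h
  rw [isUnit_iff_norm_isUnit, PadicInt.isUnit_iff]
  refine (PadicInt.norm_le_one _).eq_of_not_lt fun e => h (hp.dvd_of_dvd_pow (n := 2) ?_)
  obtain ⟨c, hc⟩ := (PadicInt.norm_lt_one_iff_dvd _).1 e
  rw [QuadraticAlgebra.norm_def] at hc
  exact ⟨c + x.re * x.im, by push_cast at hc; linear_combination hc⟩

theorem fac_O3 {x : QuadraticAlgebra ℤ_[3] (-1) (-1)} (h : x ≠ 0) :
    ∃ n : ℕ, Associated (⟨1, 2⟩ ^ n) x := by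
  have hp : Prime (3 : ℤ_[3]) := PadicInt.prime_p
  have e : ∃ n : ℕ, ¬ (⟨1, 2⟩ : QuadraticAlgebra ℤ_[3] (-1) (-1)) ^ (n + 1) ∣ x := by
    by_contra! e
    have k : ∀ a : ℤ_[3], (∀ n, 3 ^ (n + 1) ∣ a) → a = 0 := fun a ha => by_contra fun h0 =>
      (FiniteMultiplicity.of_not_isUnit hp.not_isUnit h0).elim fun n hn => hn (ha n)
    have k2 := fun n => (co_O3 x (n + 1)).1 (e (2 * n + 1))
    exact h (QuadraticAlgebra.ext (k _ fun n => (k2 n).1) (k _ fun n => (k2 n).2))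
  obtain ⟨y, hy⟩ : (⟨1, 2⟩ : QuadraticAlgebra ℤ_[3] (-1) (-1)) ^ Nat.find e ∣ x := by
    rcases h0 : Nat.find e with _ | n
    · simp
    · exact not_not.1 (Nat.find_min e (by omega))
  have hu := unit_O3 y fun k => Nat.find_spec e (by
    rw [pow_succ]
    conv_rhs => rw [hy]
    exact mul_dvd_mul_left _ k)
  exact ⟨_, hu.unit, hy.symm⟩

theorem dom_O3 : IsDomain (QuadraticAlgebra ℤ_[3] (-1) (-1)) := by
  have hp : Prime (3 : ℤ_[3]) := PadicInt.prime_p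
  have e : (⟨1, 2⟩ : QuadraticAlgebra ℤ_[3] (-1) (-1)) ∈ nonZeroDivisors _ := by
    rw [← norm_mem_nonZeroDivisors_iff, mem_nonZeroDivisors_iff_ne_zero, QuadraticAlgebra.norm_def]
    convert hp.ne_zero
    norm_num
  have : NoZeroDivisors (QuadraticAlgebra ℤ_[3] (-1) (-1)) := ⟨fun {a b} h => by
    refine or_iff_not_imp_left.2 fun ha => ?_
    obtain ⟨n, u, rfl⟩ := fac_O3 ha
    exact (mul_mem (pow_mem e n) u.isUnit.mem_nonZeroDivisors).1 b h⟩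
  exact NoZeroDivisors.to_isDomain _

theorem O3_pf : O3_st := by
  have := dom_O3
  have hp : Prime (3 : ℤ_[3]) := PadicInt.prime_p
  obtain ⟨L, hL⟩ := lim_O3
  have hn : ¬ IsUnit (⟨1, 2⟩ : QuadraticAlgebra ℤ_[3] (-1) (-1)) := fun e =>
    hp.not_isUnit (isUnit_of_dvd_one (by simpa using (dvd_O3 1).1 e.dvd))
  have h0 : (⟨1, 2⟩ : QuadraticAlgebra ℤ_[3] (-1) (-1)) ≠ 0 := fun e => by
    simpa using congrArg QuadraticAlgebra.re e
  have hi : Irreducible (⟨1, 2⟩ : QuadraticAlgebra ℤ_[3] (-1) (-1)) := by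
    refine ⟨hn, fun a b e => or_iff_not_imp_left.2 fun ha => ?_⟩
    obtain ⟨c, hc⟩ := not_not.1 fun k => ha (unit_O3 a k)
    refine IsUnit.of_mul_eq_one_right c (mul_left_cancel₀ h0 ?_)
    rw [← mul_assoc, ← hc, ← e, mul_one]
  have := IsDiscreteValuationRing.ofHasUnitMulPowIrreducibleFactorization ⟨_, hi, fac_O3⟩
  let ι : Zw →+* QuadraticAlgebra ℤ_[3] (-1) (-1) :=
    { toFun := fun c => ⟨c.re, c.im⟩
      map_one' := by ext <;> simp
      map_mul' := fun a b => by ext <;> simp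
      map_zero' := by ext <;> simp
      map_add' := fun a b => by ext <;> simp }
  let M : (ℕ → QuadraticAlgebra ℤ_[3] (-1) (-1)) →+* QuadraticAlgebra ℤ_[3] (-1) (-1) :=
    { toFun := fun x => ⟨L fun n => (x n).re, L fun n => (x n).im⟩
      map_one' := QuadraticAlgebra.ext (map_one L) (map_zero L)
      map_mul' := fun a b => by
        ext
        · simp only [re_mul, neg_mul, one_mul, ← map_mul, ← map_neg, ← map_add]
          congr 1
          ext n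
          simp
        · simp only [im_mul, neg_mul, one_mul, ← map_mul, ← map_neg, ← map_add]
          congr 1
          ext n
          simp
      map_zero' := QuadraticAlgebra.ext (map_zero L) (map_zero L)
      map_add' := fun a b => QuadraticAlgebra.ext (map_add L _ _) (map_add L _ _) }
  have e1 : pw = ⟨1, 2⟩ := by decide
  have e2 : ι pw = ⟨1, 2⟩ := by rw [e1]; ext <;> simp [ι]
  have e3 : ∀ k (x : QuadraticAlgebra ℤ_[3] (-1) (-1)), 3 ^ k ∣ x.re → 3 ^ k ∣ x.im →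
      ι pw ^ k ∣ x := fun k x h h' =>
    e2 ▸ (pow_dvd_pow _ (by omega)).trans ((co_O3 x k).2 ⟨h, h'⟩)
  refine ⟨_, inferInstance, inferInstance, inferInstance, ι, M, fun x k => ?_, fun x k => ?_,
    fun c k => ?_, fun x h => unit_O3 x (e2 ▸ h)⟩
  · filter_upwards [hL (fun n => (x n).re) k, hL (fun n => (x n).im) k] with n h h'
    exact e3 k _ h h'
  · refine ⟨⟨x.re.appr k, x.im.appr k⟩, e3 k _ ?_ ?_⟩
    · simpa [ι] using Ideal.mem_span_singleton.1 (x.re.appr_spec k)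
    · simpa [ι] using Ideal.mem_span_singleton.1 (x.im.appr_spec k)
  · induction k generalizing c with
    | zero => simp
    | succ k ih =>
      intro h
      have h1 := (dvd_O3 _).1 (e2 ▸ (dvd_pow_self _ k.succ_ne_zero).trans h)
      obtain ⟨d, rfl⟩ : pw ∣ c := by
        rw [e1, dvd_O3]
        have := (PadicInt.pow_p_dvd_int_iff (p := 3) 1 (c.re + c.im)).1 (by simpa [ι] using h1)
        simpa using this
      rw [map_mul, pow_succ', mul_dvd_mul_iff_left (e2 ▸ h0)] at h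
      rw [pow_succ']
      exact mul_dvd_mul_left _ (ih d h)

end Pool.Agent.MP_e23604_nt.W

end

section

/-!
One more prime in the limit.
-/

set_option autoImplicit false

open Finset Filter Matrix QuadraticAlgebra
open scoped Classical

namespace Pool.Agent.MP_e23604_nt.W

open B R S

/-- the choice of the new prime -/
theorem pick_STEP {Λ k S : Type} [CommRing Λ] [Field k] [Fintype S] {E : Lm Λ} {Y : Dat Λ S}
    {φ : Λ →+* k} {hφ : Fr φ} (h : Sys E Y) {I : Type} [Fintype I] (Q : I → ℕ → Y.A)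
    {K : ℕ → GQ → Λ} {Rm Rm' : ℕ → Set GQ} (hK : LZ E ⊥ Y.ρ Rm K) {x : GG → k}
    (hx : x ∈ Zk E hφ Y.lam Rm') {d : Λ} {u1 u2 : GG} (h1 : In Y.U u1) (h2 : In Y.U u2)
    (e1 : x u1 ≠ 0) (e2 : ¬ d ∣ E.ev K u2) :
    ∃ q : ℕ → Y.A, (∀ n, Y.ok n (q n) ∧ ∀ i, Y.nm (Q i n) ≠ Y.nm (q n)) ∧ x (Y.ss q) ≠ 0 ∧
      ¬ d ∣ E.ev K (Y.ss q) := by
  have gk : ∀ u, In Y.U u → Inc GK u := fun u hu n => h.le n (hu n)
  obtain ⟨u, hu, e3, e4⟩ : ∃ u, In Y.U u ∧ x u ≠ 0 ∧ ¬ d ∣ E.ev K u := by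
    by_cases a1 : d ∣ E.ev K u1
    · by_cases a2 : x u2 = 0
      · refine ⟨u1 * u2, fun n => (Y.U n).mul_mem (h1 n) (h2 n), ?_, fun a3 => e2 ?_⟩
        · rwa [Zk.coc hx u1 u2 (gk _ h1) (gk _ h2), a2, mul_zero, add_zero]
        · have := hK.coc (gk _ h1) (gk _ h2)
          rw [Ideal.mem_bot, E.ev_one h.chρ h1, one_mul, sub_eq_zero] at this
          rw [this] at a3
          exact (dvd_add_right a1).1 a3
      · exact ⟨u2, h2, a2, e2⟩
    · exact ⟨u1, h1, e1, a1⟩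
  obtain ⟨N1, n1, c1⟩ := Zk.cs hx
  obtain ⟨N2, n2, c2⟩ := hK.cs
  obtain ⟨q, j, j', hq⟩ := h.chk (N := fun n => N1 n ⊓ N2 n) (fun n => (n1 n).inf (n2 n)) hu Q
  have s1 : In Y.U (Y.ss q) := fun n => h.σU n _ (hq n).1
  have s2 : Inc GK fun n => Y.ss q n ^ j' n := fun n => GK.pow_mem (gk _ s1 n) _
  refine ⟨q, fun n => ⟨(hq n).1, (hq n).2.1⟩, fun a => e3 ?_, fun a => e4 ?_⟩
  · rw [← c1 _ u s2 (gk u hu) fun n => (hq n).2.2.2.1, Zk.pow hx h.chl h.le s1, a, mul_zero]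
  · have a1 := Ideal.Quotient.eq.1 (c2 _ u s2 (gk u hu) fun n => (hq n).2.2.2.2)
    have a2 := hK.pow h.chρ h.le s1 j'
    rw [Ideal.mem_bot, sub_eq_zero] at a1 a2
    rw [← a1, a2]
    exact a.mul_left _

/-- the matrix with one more column -/
theorem mat_STEP {Λ S J : Type} [CommRing Λ] [Fintype J] (E : Lm Λ) {r : ℕ}
    (Φ : ℕ → Matrix S J Λ) (Ψ : ℕ → Fin r → S → Λ) (a : ℕ → S → Λ) (w : J ⊕ Fin (r + 1) → Λ) :
    (E.mt fun n => bm (Φ n) (Fin.cons (a n) (Ψ n) : Fin (r + 1) → S → Λ)) *ᵥ w =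
      (E.mt fun n => bm (Φ n) (Ψ n)) *ᵥ
        (Sum.elim (fun j => w (.inl j)) fun i => w (.inr i.succ)) +
        w (.inr 0) • fun s => E.L fun n => a n s := by
  funext s
  simp only [mulVec, dotProduct, Lm.mt, bm, Fintype.sum_sum_type, Fin.sum_univ_succ, of_apply,
    Sum.elim_inl, Sum.elim_inr, Fin.cons_zero, Fin.cons_succ, Pi.add_apply, Pi.smul_apply,
    smul_eq_mul]
  ring

/-- the limit matrix kills the values of cocycles -/
theorem rel_STEP {Λ S : Type} [CommRing Λ] [Fintype S] {E : Lm Λ} {Y : Dat Λ S} (h : Sys E Y)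
    (s : Stt Y) {c : ℕ → GQ → Λ} (hc : ∀ n, Zf (Y.ρ n) (Y.rg s.Q n) (E.m ^ n) (c n)) :
    (s.mat E *ᵥ fun j => E.ev c (Y.gg s.Q j)) = 0 := by
  funext t
  exact (E.mt_mulVec _ (fun n j => c n (Y.gg s.Q j n)) t).trans
    (E.eq_zero fun n => h.rel n _ _ _ (s.vd n) (s.ad n) _ (hc n) t)

/-- a vector in the kernel of the limit matrix, divided by a power of `p` -/
theorem ker_STEP {Λ S : Type} [CommRing Λ] [IsDomain Λ] [Fintype S] {E : Lm Λ} {Y : Dat Λ S}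
    (h : Sys E Y) (s : Stt Y) {c : ℕ → GQ → Λ}
    (hc : ∀ n, Zf (Y.ρ n) (Y.rg s.Q n) (E.m ^ n) (c n)) {d : Λ} (hd : d ≠ 0)
    (hU : ∀ u, In Y.U u → d ∣ E.ev c u) : ∃ w, s.mat E *ᵥ w = 0 ∧
      ∀ i, d * w (.inr i) = (E.ev Y.ρ Y.g1 - 1) * E.ev c (Y.tt (s.Q i)) := by
  obtain ⟨i1, i2, -, -, i3⟩ := h.inc s.ad
  have co : ∀ g g', Inc GK g → Inc GK g' → E.ev c (g * g') = E.ev c g + E.ev Y.ρ g * E.ev c g' :=
    fun g g' hg hg' => sub_eq_zero.1 (Ideal.mem_bot.1 ((LZ.of ⊥ hc).coc hg hg'))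
  have : ∀ j, ∃ w, (E.ev Y.ρ Y.g1 - 1) * E.ev c (Y.gg s.Q j) -
      (E.ev Y.ρ (Y.gg s.Q j) - 1) * E.ev c Y.g1 = d * w := fun j => by
    obtain ⟨u, hu, e⟩ := sah h.ab co (i2 j) i3
    rw [e]
    exact (hU u hu).mul_left _
  choose w hw using this
  have r1 := rel_STEP h s hc
  have r2 := rel_STEP h s (c := fun n g => Y.ρ n g - 1) fun n =>
    (h.chρ n).zf (h.on n) ((h.mono _ _ (Set.empty_subset _)).trans (h.rmU n))
  replace r2 : (s.mat E *ᵥ fun j => E.ev Y.ρ (Y.gg s.Q j) - 1) = 0 := by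
    simpa only [Lm.ev, E.L_sub, E.const] using r2
  refine ⟨w, ?_, fun i => ?_⟩
  · have : d • w = (E.ev Y.ρ Y.g1 - 1) • (fun j => E.ev c (Y.gg s.Q j)) -
        E.ev c Y.g1 • fun j => E.ev Y.ρ (Y.gg s.Q j) - 1 := by
      funext j
      simp only [Pi.smul_apply, Pi.sub_apply, smul_eq_mul, ← hw]
      ring
    have e := congrArg (s.mat E *ᵥ ·) this
    simp only [mulVec_sub, mulVec_smul, r1, r2, smul_zero, sub_zero] at e
    exact (smul_eq_zero.1 e).resolve_left hd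
  · rw [← hw]
    change _ * E.ev c (Y.tt (s.Q i)) - (E.ev Y.ρ (Y.tt (s.Q i)) - 1) * _ = _
    rw [E.ev_one h.chρ (i1 i).2, sub_self, zero_mul, sub_zero]

theorem STEP_pf (hGWK : GWK_st) (hKOK : KOK_st) (hRCK : RCK_st) : STEP_st := by
  intro Λ k S _ _ _ _ _ E Y φ p z κ s b h eu hφ hp hφp hX hns
  obtain ⟨x, hx, xD, xs, u1, h1, e1⟩ := hGWK Λ k S E Y φ hφ s h hns
  obtain ⟨xb, u2, h2, e2⟩ := hX
  obtain ⟨q, hq, xq, Kq⟩ := pick_STEP h s.Q (K := s.kk κ)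
    (LZ.of ⊥ fun n => eu.kf n _ _ (s.ad n)) hx h1 h2 e1 e2
  have ad : ∀ n, Y.Ad n (Fin.cons (q n) (fun i => s.Q i n) : Fin (s.r + 1) → Y.A) := fun n => by
    refine ⟨fun i => Fin.cases (hq n).1 (s.ad n).1 i, ?_⟩
    have : (fun i => Y.nm ((Fin.cons (q n) (fun i => s.Q i n) : Fin (s.r + 1) → Y.A) i)) =
        Fin.cons (Y.nm (q n)) fun i => Y.nm (s.Q i n) := by
      funext i
      cases i using Fin.cases <;> rfl
    rw [this, Fin.cons_injective_iff]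
    exact ⟨fun ⟨i, e⟩ => (hq n).2 i e, (s.ad n).2⟩
  choose a ha using fun n => h.vd1 n s.r _ _ (q n) (s.vd n) (ad n)
  let s' : Stt Y := ⟨s.r + 1, fun i n => (Fin.cons (q n) (fun i => s.Q i n) : Fin (s.r + 1) → Y.A) i,
    fun n => Fin.cons (a n) (s.Ψ n), ad, ha⟩
  set α : S → Λ := fun t => E.L fun n => a n t
  have fm : ∀ w : (Fin 2 ⊕ S) ⊕ Fin (s.r + 1) → Λ, s'.mat E *ᵥ w =
      s.mat E *ᵥ (Sum.elim (fun j => w (.inl j)) fun i => w (.inr i.succ)) + w (.inr 0) • α :=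
    mat_STEP E Y.Φ s.Ψ a
  have fm' : ∀ (y : (Fin 2 ⊕ S) ⊕ Fin s.r → Λ) (t : Λ), s'.mat E *ᵥ
      (Sum.elim (fun j => y (.inl j)) (Fin.cons t fun i => y (.inr i))) = s.mat E *ᵥ y + t • α :=
    fun y t => by
      rw [fm]
      congr 2
      funext j
      cases j <;> rfl
  have fs : E.ev (s'.kk κ) (Y.tt q) = -E.ev (s.kk κ) (Y.ss q) := by
    rw [eq_neg_iff_add_eq_zero, Lm.ev, Lm.ev, ← E.L_add]
    exact E.eq_zero fun n => eu.fs n _ _ _ (ad n)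
  have tq : In Y.U (Y.tt q) := fun n => h.τU n _ (hq n).1
  have ex : ∃ u, In Y.U u ∧ ¬ p ^ (b + 1) ∣ E.ev (s'.kk κ) u := ⟨_, tq, by rwa [fs, dvd_neg]⟩
  have ex' : ∃ b', ∃ u, In Y.U u ∧ ¬ p ^ (b' + 1) ∣ E.ev (s'.kk κ) u := ⟨b, ex⟩
  have hb : Nat.find ex' ≤ b := Nat.find_min' ex' ex
  have X' : Xp E Y.U p (s'.kk κ) (Nat.find ex') := by
    refine ⟨fun u hu => ?_, Nat.find_spec ex'⟩
    rcases Nat.eq_zero_or_eq_succ_pred (Nat.find ex') with e | e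
    · rw [e, pow_zero]
      exact one_dvd _
    · by_contra e'
      exact Nat.find_min ex' (m := (Nat.find ex').pred) (by omega) ⟨u, hu, by rwa [e] at e'⟩
  obtain ⟨c, hc⟩ := xb (Y.ss q) fun n => h.σU n _ (hq n).1
  obtain ⟨w, w0, hw⟩ := ker_STEP h s' (fun n => eu.kf n _ _ (ad n))
    (pow_ne_zero _ hp.ne_zero) X'.1
  refine ⟨s', Nat.find ex', α, b - Nat.find ex', (E.ev Y.ρ Y.g1 - 1) * c, X', ?_, ?_, ?_, ?_,
    by omega⟩
  · refine le_antisymm ?_ (sup_le ?_ ?_)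
    · rintro _ ⟨v, rfl⟩
      rw [mulVecLin_apply, fm]
      exact Submodule.add_mem_sup ⟨_, rfl⟩
        (Submodule.smul_mem _ _ (Submodule.mem_span_singleton_self α))
    · rintro _ ⟨y, rfl⟩
      exact ⟨_, (fm' y 0).trans (by rw [zero_smul, add_zero, mulVecLin_apply])⟩
    · rw [Submodule.span_singleton_le_iff_mem]
      exact ⟨_, (fm' 0 1).trans (by rw [one_smul, mulVec_zero, zero_add])⟩
  · rintro t' ht' ⟨y, hy⟩
    have k0 := fm' y (-t')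
    rw [neg_smul, ← hy, mulVecLin_apply, add_neg_cancel] at k0
    obtain ⟨f, hf, fv⟩ := hKOK Λ k S _ E φ hφ Y.ρ (Y.rg s'.Q) (fun n => Y.gq n fun i => s'.Q i n) _
      (fun n => h.exi n _ _ _ (s'.vd n) (s'.ad n)) _
      (funext fun t => (RingHom.map_mulVec φ _ _ t).symm.trans
        ((congrArg (fun v => φ (v t)) k0).trans (map_zero φ)))
    have r := hRCK Λ k S _ E Y φ hφ s'.Q f x h s'.ad hf
      (Zk.mono hx fun n => h.mono _ _ (Set.empty_subset _)) xD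
    have xt : ∀ i, x (Y.tt (s'.Q i)) = 0 := fun i =>
      Zk.rm hx fun n => h.new n _ ∅ ((ad n).1 i) (by simp)
    simp only [xt, mul_zero, sub_zero] at r
    have xs' : ∀ i : Fin s.r, x (Y.ss (s'.Q i.succ)) = 0 := xs
    rw [Fin.sum_univ_succ, Finset.sum_eq_zero fun i _ => mul_eq_zero_of_right _ (xs' i),
      add_zero] at r
    have f0 : f (Y.tt q) = φ (-t') := fv (.inr 0)
    exact ht' (dvd_neg.1 ((hφp _).1 (f0.symm.trans ((mul_eq_zero.1 r).resolve_right xq))))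
  · intro e
    rcases hp.dvd_or_dvd e with e | e
    · obtain ⟨i, hi⟩ := h.g1dv.1
      exact hφ.ne hi ((hφp _).2 e)
    · exact Kq (by rw [hc, pow_succ]; exact mul_dvd_mul_left _ e)
  · have e0 : p ^ Nat.find ex' * w (.inr 0) = (E.ev Y.ρ Y.g1 - 1) * E.ev (s'.kk κ) (Y.tt q) := hw 0
    have e1 : w (.inr 0) = -((E.ev Y.ρ Y.g1 - 1) * c * p ^ (b - Nat.find ex')) := by
      refine mul_left_cancel₀ (pow_ne_zero (Nat.find ex') hp.ne_zero) ?_
      rw [e0, fs, hc, ← pow_mul_pow_sub p hb]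
      ring
    rw [fm, e1, neg_smul, add_neg_eq_zero] at w0
    exact ⟨_, w0⟩

end Pool.Agent.MP_e23604_nt.W

end

section

/-!
Limits of systems of cocycles: assembly.
-/

set_option autoImplicit false

namespace Pool.Agent.MP_e23604_nt.W

theorem LM_ok : LM_st := LM_pf O3_pf
theorem GWK_ok : GWK_st := GWK_pf KOK_pf DRP_pf RCK_pf LOK_pf CHM_pf LAL_pf
theorem TOP_ok : TOP_st :=
  TOP_pf (ESL_pf (STEP_pf GWK_ok KOK_pf RCK_pf) GWK_ok FIT_pf PLU_pf) FIN_pf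

end Pool.Agent.MP_e23604_nt.W

end

section

set_option autoImplicit false

open Finset QuadraticAlgebra
open scoped Classical

namespace Pool.Agent.MP_e23604_nt.W

open B R S

theorem km_XNFA {N : ℕ} (hN : N ≠ 0) {τ : GQ} (hτ : τ ∈ GK) (hc : cy N τ = 1) (q : Zw)
    (h : ∀ q', PP q' → km N τ (io q') = if q = q' then 1 else 0) (s : Multiset Zw)
    (hs : ∀ q' ∈ s, PP q') : km N τ (io s.prod) = s.count q := by
  induction s using Multiset.induction_on with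
  | empty =>
    simpa using km_fix_pow hN one_ne_zero (map_one τ) hc 0
  | cons a s ih =>
    have h1 := hs a (Multiset.mem_cons_self a s)
    have h2 := fun q' e => hs q' (Multiset.mem_cons_of_mem e)
    rw [Multiset.prod_cons, map_mul, km_fix_mul hN (io_ne h1.1.ne_zero)
      (io_ne (Multiset.prod_ne_zero fun e => (h2 0 e).1.ne_zero rfl)) (io_fix hτ _) (io_fix hτ _) hc,
      ih h2, h a h1, Multiset.count_cons, add_comm]
    split_ifs <;> simp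

theorem prod_XNFA {R : Type} [CommRing R] {φ : Zw →+* R} {M : Zw} (hM : φ M = 0) (ν : Zw → Zw)
    (s : Multiset Zw) (hs : ∀ q ∈ s, q = 1 + M * ν q) :
    ∃ a, s.prod = 1 + M * a ∧ φ a = (s.map fun q => φ (ν q)).sum := by
  induction s using Multiset.induction_on with
  | empty => exact ⟨0, by simp, by simp⟩
  | cons q s ih =>
    obtain ⟨a, h1, h2⟩ := ih fun q' e => hs q' (Multiset.mem_cons_of_mem e)
    refine ⟨ν q + a + M * (ν q * a), ?_, ?_⟩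
    · rw [Multiset.prod_cons, h1]
      linear_combination (1 + M * a) * hs q (Multiset.mem_cons_self q s)
    · rw [Multiset.map_cons, Multiset.sum_cons, map_add, map_add, map_mul, hM, h2, zero_mul,
        add_zero]

theorem NFA_pf (H : H5) (hAHM : AHM_st) : NFA_st := by
  intro R _ p n j φ M c Q' hp hn hM h3 hd hcy hQ hc hW
  obtain ⟨k1, k2, k3, -, -, -, -, k8, -, -, k11, -⟩ := H.PLK
  have p0 : (p : Zw) ^ n ≠ 0 := pow_ne_zero _ (Nat.cast_ne_zero.2 hp.ne_zero)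
  have hN : p ^ n ≠ 0 := pow_ne_zero _ hp.ne_zero
  have hφ : φ ((p : Zw) ^ n) = 0 := by rw [← Nat.cast_pow, map_natCast, j_zero j]
  obtain ⟨-, -, -, a4, a5, -⟩ := hAHM R φ _ M Q' p0 hM hd hQ hφ
  have key : ∀ q, PP q → q ∣ c → ∃ (W : Plc) (σ τ : GQ) (ν : Zw), Sp (p ^ n) W q σ ∧ τ ∈ W.I ∧
      km (p ^ n) τ W.l = 1 ∧ q = 1 + M * ν ∧ Ah φ M Q' σ = φ ν ∧ Ah φ M Q' τ = 0 ∧
      cy (p ^ n) τ = 1 ∧ ∀ q', PP q' → km (p ^ n) τ (io q') = if q = q' then 1 else 0 := by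
    intro q hq e
    obtain ⟨W, w1⟩ := k2 q hq.1
    obtain ⟨w2, w3⟩ := hW W (w1.dvd e)
    have w4 : ¬ Ov W ((p : Zw) ^ n) := fun e => w3 (e.dvd hd)
    have w5 : ¬ Ov W 3 := fun e => w3 (e.dvd h3)
    have w6 : ¬ Ov W ((p : Zw) ^ n * M) := fun e => (Ov_mul.1 e).elim w4 w3
    have lp : W.l ≠ p := fun e => w4 ((e ▸ Ov_l W : Ov W p).dvd (dvd_pow_self _ (by omega)))
    have l3 : W.l ≠ 3 := fun e => w5 (by simpa [e] using Ov_l W)
    have ld : ¬ W.l ∣ p ^ n := fun e =>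
      lp ((Nat.prime_dvd_prime_iff_eq W.hl.out hp).1 (W.hl.out.dvd_of_dvd_pow e))
    obtain ⟨b1, -, b3, -⟩ := k3 W q hq.1 w1
    have deg : nn q = W.l := by
      rcases b3 with h | h | h
      · exact h.2.1
      · obtain ⟨f, hf⟩ := (FRO_ok W.l W.γ).1
        exact absurd (w2 hf.1).1 (S.LOC_ok.2.1 W.l W.γ f h.1 hf)
      · exact absurd h.1 l3
    obtain ⟨σ, hσ⟩ := (H.FRK W q hq.1 w1).1
    obtain ⟨-, ⟨τ, t1, t2⟩, t3, -⟩ := H.TAME p n W hp lp l3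
    have s1 := w2 hσ.1.1
    have s2 := ((H.KM _ hN).2.2.2.2.2.2.2.2 W ld).2.2 q σ hσ
    rw [hcy σ s1, deg, ← Nat.cast_one, ZMod.natCast_eq_natCast_iff,
      Nat.modEq_iff_dvd' W.hl.out.one_le] at s2
    have s3 := ((H.FRB W q hq w1).2 σ hσ).2 _ Q' w6 hQ.zero
    have g := hQ.smul p0
    obtain ⟨ν, hν⟩ : M ∣ q - 1 := g.congr.1 (by
      rw [one_smul, smul_comm, ← s3, ← gal_smul s1.1, s1.2 _ g.zero])
    have e1 : q = 1 + M * ν := by linear_combination hν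
    refine ⟨W, σ, τ, ν, ⟨hq, w1, deg, s2, hσ⟩, t1, t2, e1, a5 σ ν (e1 ▸ s3),
      a4 τ ((H.INE W w5 τ t1).2.2 _ w6), hcy τ (w2 (W.I_le t1).1), fun q' hq' => ?_⟩
    split_ifs with e2
    · rw [← e2, t3 q hq.1 w1 τ t1, t2]
    · refine km_ine W ?_ t1.1 (not_Ov.1 fun e => e2 (k8 q q' hq hq' ((b1 q').1 e))) (io_fix t1.2 _)
      simpa using not_Ov.1 w4
  have : Nonempty Plc := ⟨V3⟩
  choose! W σ τ ν c1 c2 c3 c4 c5 c6 c7 c8 using key
  obtain ⟨s, hs, rfl⟩ := k11 c hc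
  obtain ⟨c', hc'⟩ := hd
  obtain ⟨a, h1, h2⟩ := prod_XNFA (φ := φ) (by rw [hc', map_mul, hφ, zero_mul]) ν s
    fun q e => c4 q (hs q e) (Multiset.dvd_prod e)
  refine ⟨a, s.toFinset, W, σ, τ, h1, fun q e => ?_, fun V hV => ?_, ?_⟩
  · rw [Multiset.mem_toFinset] at e
    have e' := Multiset.dvd_prod e
    exact ⟨c1 q (hs q e) e', e', c2 q (hs q e) e', c3 q (hs q e) e'⟩
  · obtain ⟨ϖ, v1, v2, -⟩ := k1 V
    obtain ⟨q, v3, v4⟩ := v1.exists_mem_multiset_dvd (((k3 V ϖ v1 v2).1 _).1 hV)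
    exact ⟨q, Multiset.mem_toFinset.2 v3, v2.dvd v4⟩
  · rw [h2, sum_multiset_map_count]
    refine sum_congr rfl fun q e => ?_
    rw [Multiset.mem_toFinset] at e
    have e' := Multiset.dvd_prod e
    rw [km_XNFA hN (c2 q (hs q e) e').2 (c7 q (hs q e) e') q (c8 q (hs q e) e') s hs,
      c5 q (hs q e) e', c6 q (hs q e) e', mul_zero, sub_zero, map_natCast, nsmul_eq_mul]

end Pool.Agent.MP_e23604_nt.W

end

section

/-!
The explicit reciprocity law and its applications, assembled.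
-/

set_option autoImplicit false

namespace Pool.Agent.MP_e23604_nt.W

theorem FINP_of (H : H5) (hES1 : ES1_st) (hNT : NT_st) : FINP_st := by
  have coi := COI_pf H
  have coj := COJ_pf H
  have ahm := AHM_pf H coi
  have zeq := ZEQ_pf H
  have dvf := DVF_pf H
  have fxp := FXP_pf H
  have pig := PIG_pf H
  have pfa := PFA_pf H
  have mul := MUL_pf H pig pfa
  have tru := TRU_pf H
  have nre := NRE_pf H zeq pfa (NRS_pf H)
  have exr := EXR_pf H coi ahm (TFR_pf H) (LCP_pf H coi ahm (NMZ_pf H coi)) (NFA_pf H ahm)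
  have exa := EXA_pf H nre exr
  have bzc := BZC_pf H
  have rst := RST_pf H
  have dpi := DPI_pf H zeq pig
  have cnt := CNT_pf H coi coj dpi (LOCI_pf H coi zeq pig dpi) (KER_pf H coi coj bzc rst)
  have nz := NZ_pf H hNT coi zeq fxp ALG_pf tru (EXB_pf H nre exr) rst cnt
  exact FINP_pf H coi coj pfa (KIL_pf H hES1 coi coj fxp ALG_pf pfa mul tru nz
    (STP_pf H coi zeq dvf pfa mul exa (STR_pf H coi dvf) bzc) (ZLB_pf H coi zeq pfa exa))

end Pool.Agent.MP_e23604_nt.W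

end

section

/-!
The bound for the exponent of the Selmer groups, assembled.
-/

set_option autoImplicit false

namespace Pool.Agent.MP_e23604_nt.W

theorem FINP_fin : FINP_st := by
  have surj := SURJ_of PLK_ok FRK_ok
  have cyc := CYC1_of CHB_ok KM_ok
  have lz := LZ_of CHB_ok KM_ok
  have kol := KOL_of THI_ok NRM1_ok UNIT_ok CONG_ok FRB_ok INE_ok CYG_ok CARD_ok (RAMQ_of PLK_ok)
    FRK_ok TAME_ok
  have koch := KOCH_pf TPR_ok R2_ok KGEN_ok CNJ_ok PLK_ok LIN_ok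
  have chr := CHR_pf PS_ok CYL_ok cyc INE_ok PLK_ok
  have aux := AUX_pf PLK_ok INE_ok TAME_ok CHB_ok FRK_ok PS_ok cyc
  have ram := RAM_pf TPR_ok TAME_ok PLK_ok FRK_ok
  have rnm := RNM_pf CYG_ok surj
  have nt := NT_pf LM_ok
    (PCK_pf KGEN_ok PLK_ok FRK_ok TAME_ok (LOCW_pf DM4_ok NDG_ok FUN_ok KM_ok)
      (GON_pf chr BRN_ok KGEN_ok surj PS_ok INE_ok) chr)
    (SYS_pf chr aux (MAT_pf koch NUL_ok KGEN_ok PLK_ok TPR_ok CNJ_ok) (DRO_pf TPR_ok CNJ_ok)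
      (RCS_pf RCC_ok ram CNJ_ok chr aux PLK_ok) PLK_ok)
    (EUL_pf kol THI_ok UNIT_ok CYG_ok chr aux) (IDZ_pf IDN_ok THI_ok surj PS_ok chr)
    (LAM_pf (ZST_pf (SRP_pf rnm NRM1_ok THI_ok FRB_ok PS_ok CYG_ok) PLK_ok PS_ok)
      (BOT_pf rnm NRM1_ok TH0_ok THI_ok KM_ok PI_ok PS_ok) (BIN_pf CYL_ok) chr KM_ok surj PS_ok
      PLK_ok CYL_ok)
    (HBR_pf lz ram CNJ_ok CYG_ok surj INE_ok PS_ok PLK_ok) TOP_ok aux CYG_ok
  exact FINP_of ⟨CARD_ok, QUO_ok, CYG_ok, PI_ok, PS_ok, THI_ok, NRM1_ok, UNIT_ok, CLO_ok, CONG_ok,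
    TAY_ok, FML_ok, DIV_ok, FRB_ok, INE_ok, surj, cyc, ORB_of PLK_ok FRK_ok, DIST_ok, KM_ok, PLK_ok,
    FRK_ok, CHB_ok, TAME_ok, TPR_ok, CNJ_ok, LIN_ok, CUP_ok, UNB_ok, GRP_ok, RCP_ok, LOC3_ok, POW_ok,
    APXF_ok, ZC_pf, lz,
    LOW_pf (PRES_pf koch NUL_ok KGEN_ok PLK_ok) KGEN_ok PLK_ok FRK_ok TAME_ok KM_ok, GEN_ok⟩
    (ES1_pf kol INE_ok CHB_ok TAME_ok RCC_ok) nt

end Pool.Agent.MP_e23604_nt.W

end
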