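import Pool.Agent.Mg.Fe23604m.Gd767a4

set_option linter.all false

section

/-! The local cocycles at three and the rows that cut out their span. -/

set_option autoImplicit false

open Finset Filter QuadraticAlgebra
open scoped Classical

namespace Pool.Agent.MP_e23604_nt.V

open B R S W

theorem gq_MLOA {M : Zw} (h : M ≠ 0) : W.Gen M (N.gq M) :=
  Classical.epsilon_spec (CYG_ok M h).1

theorem dv_MLOA {M : Zw} (h : M ≠ 0) (P : Pt) : M • N.dv M P = P :=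
  Classical.epsilon_spec (smul_onto h P)

theorem three_MLOA {Λ R : Type} [CommRing Λ] [CommRing R] (Z : Dt Λ) (ε : Bool) {n : ℕ}
    {π : Λ →+* R} (h : ∀ a ∈ Z.E.m ^ n, π a = 0) : π.comp (Z.ph ε) (3 ^ (n + 1)) = 0 := by
  rw [RingHom.comp_apply, map_pow, map_ofNat, pow_succ]
  exact h _ (Ideal.mul_mem_right _ _ (Ideal.pow_mem_pow Z.E.three_mem n))

/-- Kummer cocycles at three -/
theorem co_MLOA (hTHB : THB_st) {Λ R : Type} [CommRing Λ] [CommRing R] {Z : Dt Λ} (hZ : Z.Ok)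
    (ε : Bool) {n : ℕ} {π : Λ →+* R} (h : ∀ a ∈ Z.E.m ^ n, π a = 0) {P : Pt}
    (hP : Fx (Z.χ ε) V3.D ((3 ^ (n + 1) : Zw) • P)) :
    (∀ g ∈ V3.D, (3 ^ (n + 1) : Zw) • bd (Z.χ ε) P g = 0) ∧ Co (fun g => π (Z.th ε n g)) V3.D
      fun g => ic (π.comp (Z.ph ε)) (N.gq (3 ^ (n + 1))) (bd (Z.χ ε) P g) := by
  have h0 : (3 ^ (n + 1) : Zw) ≠ 0 := pow_ne_zero _ (by decide)
  obtain ⟨a1, a2, a3⟩ := (((COI_ok R _ _ _ h0 (gq_MLOA h0) (three_MLOA Z ε h)).2.2 _ _ _ (hZ.tw ε)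
    (ML_ne (hZ.tw ε).sf.ne_zero n) (dvd_mul_left _ _) (dvd_mul_right _ _)).2 _ V3.D_le).2.1 P hP
  refine ⟨a1, a2, fun g hg k hk => ?_⟩
  beta_reduce
  rw [((hTHB Λ Z n hZ).2.2.2.2.2 ε).2.2.2.2.2 g hg]
  exact a3 g hg k hk

theorem LOA_pf (hY : HY) (hTHA : THA_st) (hTHB : THB_st) : LOA_st := by
  intro Λ _ Z ε n R _ π hZ h
  refine ⟨fun i => (co_MLOA hTHB hZ.toOk ε h (P := N.dv _ (Z.P ε i)) ?_).2, fun f hf h0 g hg => ?_⟩
  · rw [dv_MLOA (pow_ne_zero _ (by decide))]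
    exact (hZ.lb ε).fx i
  · refine spn_LOCW hZ.dm (m := Z.E.m.map π) (b := ⊥) (n := n) (lam := fun g => π (Z.th ε n g))
      (x := f) (map_ofNat π 3 ▸ Ideal.mem_map_of_mem π Z.E.three_mem) ?_ (fun g hg => ?_)
      (hf.1.map _) (fun g hg k hk => sub_eq_zero.2 (hf.2 g hg k hk)) h0 g hg
    · rw [← Ideal.map_pow, Ideal.map_le_iff_le_comap]
      exact h
    · simpa using Ideal.mem_map_of_mem π
        (((hTHA Λ Z.toDt n hZ.toOk).2.2.2.2.2.1 ε).2.2.1 g (V3.D_le hg)).1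

/-- two independent vectors are cut out by two rows -/
theorem lin_MLOA {Λ : Type} [CommRing Λ] {m : Ideal Λ} (hu : ∀ x, x ∉ m → IsUnit x) (h1 : 1 ∉ m)
    (L : Fin 2 → Fin 4 → Λ) (h : ∀ a : Fin 2 → Λ, (∀ k, ∑ i, a i * L i k ∈ m) → ∀ i, a i ∈ m) :
    ∃ F : Bool → Fin 4 → Λ, (∀ t i, ∑ k, F t k * L i k = 0) ∧ ∀ (b : Ideal Λ) (v : Fin 4 → Λ),
      (∀ t, ∑ k, F t k * v k ∈ b) → ∃ a : Fin 2 → Λ, ∀ k, v k - ∑ i, a i * L i k ∈ b := by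
  obtain ⟨k₀, k₁, hD⟩ : ∃ k₀ k₁, L 0 k₀ * L 1 k₁ - L 0 k₁ * L 1 k₀ ∉ m := by
    by_contra hc
    push Not at hc
    refine h1 (h ![1, 0] (fun k => ?_) 0)
    have := h ![-L 1 k, L 0 k] (fun k' => by
      convert hc k k' using 1
      simp only [Fin.sum_univ_two, Matrix.cons_val_zero, Matrix.cons_val_one]
      ring) 1
    simpa using this
  obtain ⟨e, he⟩ := (hu _ hD).exists_right_inv
  obtain ⟨c, hc⟩ : ∃ c : Bool → Fin 4, ∀ k, k = k₀ ∨ k = k₁ ∨ k = c true ∨ k = c false := by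
    have : k₀ ≠ k₁ := fun e => hD (by simp [e])
    revert this
    generalize k₀ = a
    generalize k₁ = b
    have : ∀ a b : Fin 4, a ≠ b → ∃ c d, ∀ k, k = a ∨ k = b ∨ k = c ∨ k = d := by decide
    intro hab
    obtain ⟨c, d, e⟩ := this a b hab
    exact ⟨fun t => if t then c else d, e⟩
  let F : Bool → Fin 4 → Λ := fun t => Pi.single (c t) 1 -
    Pi.single k₀ (e * (L 1 k₁ * L 0 (c t) - L 0 k₁ * L 1 (c t))) -
    Pi.single k₁ (e * (L 0 k₀ * L 1 (c t) - L 1 k₀ * L 0 (c t)))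
  have hF : ∀ t (v : Fin 4 → Λ), ∑ k, F t k * v k = v (c t) -
      (e * (v k₀ * L 1 k₁ - v k₁ * L 1 k₀) * L 0 (c t) +
        e * (L 0 k₀ * v k₁ - L 0 k₁ * v k₀) * L 1 (c t)) := fun t v => by
    simp only [F, Pi.sub_apply, sub_mul, sum_sub_distrib, Pi.single_apply, ite_mul, zero_mul,
      sum_ite_eq', mem_univ, if_true]
    ring
  refine ⟨F, fun t i => ?_, fun b v hv => ⟨![e * (v k₀ * L 1 k₁ - v k₁ * L 1 k₀),
    e * (L 0 k₀ * v k₁ - L 0 k₁ * v k₀)], fun k => ?_⟩⟩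
  · rw [hF]
    fin_cases i
    · simp only [Fin.zero_eta]
      linear_combination (-L 0 (c t)) * he
    · simp only [Fin.mk_one]
      linear_combination (-L 1 (c t)) * he
  · simp only [Fin.sum_univ_two, Matrix.cons_val_zero, Matrix.cons_val_one]
    rcases hc k with rfl | rfl | rfl | rfl
    · convert b.zero_mem using 1
      linear_combination (-v k) * he
    · convert b.zero_mem using 1
      linear_combination (-v k) * he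
    · exact hF true v ▸ hv true
    · exact hF false v ▸ hv false

theorem LOB_pf (hY : HY) (hTHA : THA_st) (hTHB : THB_st) (hLOA : LOA_st) : LOB_st := by
  intro Λ _ Z hZ ε n
  rcases n.eq_zero_or_pos with rfl | hn
  · refine ⟨0, by simp, fun b hb v _ => ⟨0, fun k => hb (by simp)⟩⟩
  suffices h : ∀ a : Fin 2 → Λ, (∀ k, ∑ i, a i * Z.lo ε n i (Z.y k) ∈ Z.E.m) → ∀ i, a i ∈ Z.E.m by
    obtain ⟨F, h1, h2⟩ := lin_MLOA Z.E.unit Z.E.ne (fun i k => Z.lo ε n i (Z.y k)) h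
    exact ⟨F, fun t i => h1 t i ▸ zero_mem _, fun b _ => h2 b⟩
  intro a ha
  choose z hz using fun i => Z.E.res (a i)
  let π := Ideal.Quotient.mk Z.E.m
  have hπ : ∀ a ∈ Z.E.m ^ n, π a = 0 := fun a h =>
    Ideal.Quotient.eq_zero_iff_mem.2 (Ideal.pow_le_self hn.ne' h)
  have h0 : (3 ^ (n + 1) : Zw) ≠ 0 := pow_ne_zero _ (by decide)
  have hl := hZ.lb ε
  let P' : Fin 2 → Pt := fun i => N.dv (3 ^ (n + 1)) (Z.P ε i)
  have e1 : (3 ^ (n + 1) : Zw) • ∑ i, (z i : Zw) • P' i = ∑ i, (z i : Zw) • Z.P ε i := by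
    rw [smul_sum]
    exact sum_congr rfl fun i _ => by rw [smul_comm, dv_MLOA h0]
  obtain ⟨b1, b2⟩ := co_MLOA hTHB hZ.toOk ε hπ (P := ∑ i, (z i : Zw) • P' i) fun g hg => by
    rw [e1, map_sum]
    exact sum_congr rfl fun i _ => by rw [eta_smul _ (V3.D_le hg), hl.fx i g hg]
  have b3 : ∀ i, ∀ g ∈ V3.D, (3 ^ (n + 1) : Zw) • bd (Z.χ ε) (P' i) g = 0 := fun i =>
    (co_MLOA hTHB hZ.toOk ε hπ (P := P' i) (by rw [dv_MLOA h0]; exact hl.fx i)).1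
  have hc := (COI_ok _ _ _ _ h0 (gq_MLOA h0) (three_MLOA Z.toDt ε hπ)).2.1
  have b4 := (hLOA Λ Z ε n _ π hZ hπ).2 _ b2 fun k => by
    have hg := hZ.yD k
    have e2 : bd (Z.χ ε) (∑ i, (z i : Zw) • P' i) (Z.y k) =
        (z 0 : Zw) • bd (Z.χ ε) (P' 0) (Z.y k) + (z 1 : Zw) • bd (Z.χ ε) (P' 1) (Z.y k) := by
      simp only [bd, Fin.sum_univ_two, map_add, eta_smul _ (V3.D_le hg), smul_sub]
      abel
    have e3 : ∀ i, (3 ^ (n + 1) : Zw) • (z i : Zw) • bd (Z.χ ε) (P' i) (Z.y k) = 0 := fun i => by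
      rw [smul_comm, b3 i _ hg, smul_zero]
    have e4 := Ideal.Quotient.eq_zero_iff_mem.2 (ha k)
    rw [e2, ((hc _ (e3 0)).2.2.2 _ (e3 1)).1, (hc _ (b3 0 _ hg)).2.1, (hc _ (b3 1 _ hg)).2.1,
      map_intCast, map_intCast, ← e4, Fin.sum_univ_two, map_add, map_mul, map_mul,
      Ideal.Quotient.eq.2 (hz 0), Ideal.Quotient.eq.2 (hz 1), map_intCast, map_intCast]
    rfl
  have e5 : pw * (-pw * 3 ^ n) = 3 ^ (n + 1) := by linear_combination (-3 ^ n) * pw_sq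
  have b5 := hl.ind (fun i => z i) ((-pw * 3 ^ n) • ∑ i, (z i : Zw) • P' i) (fun g hg => by
    obtain ⟨c, e⟩ := ((((hTHA Λ Z.toDt n hZ.toOk).2.2.2.2.2.1 ε).2.2.2.2.2.2.2 1 hn).ker _).1
      (Ideal.Quotient.eq_zero_iff_mem.2 (Ideal.mem_sup_right (by
        rw [pow_one]
        exact Ideal.Quotient.eq_zero_iff_mem.1 (b4 g hg))))
    have e6 := (hc _ (b1 g hg)).1
    rw [e, pow_one] at e6
    rw [eta_smul _ (V3.D_le hg), ← sub_eq_zero, ← smul_sub]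
    change _ • bd _ _ _ = 0
    rw [e6, ← mul_smul, (gq_MLOA h0 _).2 ⟨c, by rw [← e5]; ring⟩]) (by rw [← mul_smul, e5, e1])
  intro i
  obtain ⟨t, ht⟩ := b5 i
  have : (z i : Λ) ∈ Z.E.m := by
    rw [← map_intCast Z.E.ι, ht, map_mul, Z.E.m_eq]
    exact Ideal.mul_mem_right _ _ (Ideal.subset_span (by simp))
  simpa using add_mem (hz i) this

end Pool.Agent.MP_e23604_nt.V

end

section

/-!
The coboundary, the relation at `q`, and the cocycles at the origin.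
-/

set_option autoImplicit false

open Finset Filter QuadraticAlgebra
open scoped Classical

namespace Pool.Agent.MP_e23604_nt.V

open B R S W

theorem tr_MBV {r : ℕ} (hr : r ≠ 0) (ϖ : Zw) : ϖ ∈ Tr r ↔ PP ϖ ∧ ϖ ∣ r := by
  refine Classical.epsilon_spec (p := fun T : Finset Zw => ∀ ϖ, ϖ ∈ T ↔ PP ϖ ∧ ϖ ∣ r) ?_ ϖ
  obtain ⟨-, -, -, -, -, -, -, p1, -, -, p2, p3⟩ := PLK_ok
  obtain ⟨u, i, c, hu, hc, e⟩ := p3 r (Nat.cast_ne_zero.2 hr)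
  obtain ⟨s, hs, rfl⟩ := p2 c hc
  refine ⟨s.toFinset, fun a => ⟨fun h => ?_, fun h => ?_⟩⟩
  · rw [Multiset.mem_toFinset] at h
    exact ⟨hs a h, e ▸ (Multiset.dvd_prod h).mul_left _⟩
  · rcases h.1.1.dvd_or_dvd (e ▸ h.2) with k | k
    · exact absurd (h.1.1.associated_of_dvd pw_prime (h.1.1.dvd_of_dvd_pow
        (hu.dvd_mul_left.1 k))).symm.dvd h.1.2.pw
    · obtain ⟨b, h1, h2⟩ := h.1.1.exists_mem_multiset_dvd k
      exact Multiset.mem_toFinset.2 (p1 a b h.1 (hs b h1) h2 ▸ h1)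

theorem ov_MBV {W : Plc} {T : Finset Zw} (h : Ov W (∏ ϖ ∈ T, ϖ)) : ∃ ϖ ∈ T, Ov W ϖ := by
  obtain ⟨a, h1, h2, -⟩ := PLK_ok.1 W
  have h3 := (PLK_ok.2.2.1 W a h1 h2).1
  obtain ⟨b, k1, k2⟩ := h1.exists_mem_finset_dvd ((h3 _).1 h)
  exact ⟨b, k1, (h3 _).2 k2⟩

section

variable {Λ : Type} [CommRing Λ]

theorem zf_MBV (θ : GQ → Λ) (Rm : Set GQ) (P m : Ideal Λ) (f : GQ → Λ) :
    Zf θ Rm (P ⊔ m ^ 0) f := zf_iff.2 ⟨⟨GK, GK_on, by simp⟩, by simp, by simp⟩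

theorem co_MBV {J : Type} [DecidableEq J] (j : J) (x : J →₀ Λ) : ev (Pi.single j 1) x = x j := by
  rw [ev_apply _ x (subset_insert j _)]
  simp [Pi.single_apply]

theorem ev_MBV (E : Lm Λ) (θ : ℕ → GQ → Λ) (g : GG) :
    E.ev (fun n g => θ n g - 1) g = E.ev θ g - 1 := by
  rw [Lm.ev, E.L_sub, E.const]
  rfl

theorem rn_MBV {Z : Mx Λ} {A : Finset JJ} {n : ℕ} (hr : Z.r ≠ 0) (h : Z.Gd A n) {W : Plc}
    (hW : Ov W (3 * (Z.r * Z.q n : ℕ))) : Ov W (3 * ∏ ϖ ∈ Tn A n, ϖ) := by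
  by_cases h3 : W.l = 3
  · exact Ov_mul.2 (Or.inl (by simpa [h3] using Ov_l W))
  refine Ov_mul.2 ((Ov_mul.1 hW).imp_right fun k => ?_)
  rw [Nat.cast_mul, Ov_mul] at k
  rcases k with k | k
  · obtain ⟨a, h1, h2, -, h4⟩ := PLK_ok.1 W
    exact h2.dvd (dvd_prod_of_mem _ (h.sub (mem_insert_of_mem ((tr_MBV hr a).2
      ⟨h4 h3, ((PLK_ok.2.2.1 W a h1 h2).1 _).1 k⟩))))
  · exact k.dvd (neg_dvd.1 (dvd_prod_of_mem _ (h.sub (mem_insert_self _ _))))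

theorem tn_MBV {Z : Mx Λ} {n : ℕ} (h : Z.Gd (insert Z.qg Z.m0) n) {a : Zw}
    (ha : a ∈ Tn (insert Z.qg Z.m0) n) : a = -(Z.q n : Zw) ∨ a ∈ Tr Z.r := by
  obtain ⟨b, h1, rfl⟩ := mem_image.1 ha
  rcases mem_insert.1 (mem_toRight.1 h1) with e | e
  · exact Or.inl (Sum.inr.inj ((congrArg (jn n) e).trans h.q))
  · rcases mem_union.1 e with e | e
    · simp [m1] at e
    · obtain ⟨c, h2, e⟩ := mem_image.1 e
      have e' : sq b n = c := Sum.inr.inj ((congrArg (jn n) e).symm.trans (h.cs c h2))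
      exact Or.inr (e' ▸ h2)

theorem rel_MBV [IsDomain Λ] (hROW : ROW_st) {Z : Mx Λ} (h : Z.Ok0) (ε : Bool) {P : Ideal Λ}
    {x : JJ →₀ Λ} {j : JJ} (hj : j ∈ Z.Sg ∪ Z.Bg) (e : ev (Z.w ε j) x ∈ P) :
    ev (Z.rel ε j) x ∈ P := by
  obtain ⟨-, -, -, -, r5, r6, -⟩ := hROW Λ Z ε h
  rcases mem_union.1 hj with k | k
  · obtain ⟨a, h1, rfl⟩ := mem_image.1 k
    exact (r6 a h1).1 ▸ e
  · rw [(r5 j k).2.1, ev_smul]
    exact P.mul_mem_left _ e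

end

theorem BV_pf (hY : HY) (hTHA : THA_st) (hTHB : THB_st) (hGER : GER_st) (hROW : ROW_st) (hVAL : VAL_st) (hLOK : LOK_st) : BV_st := by
  intro Λ _ _ Z ε hZ
  have h0 := hZ.toOk0
  have hr : Z.r ≠ 0 := (h0.tw ε).sf.ne_zero
  obtain ⟨⟨-, -, -, g4, g5, -⟩, g6, -, -, -, -, -, -, g7⟩ := hGER Λ Z h0
  obtain ⟨r1, r2, r3, r4, r5, r6, -⟩ := hROW Λ Z ε h0
  have a1 : ∀ A, Z.Ad A → Z.LS ε ⊥ A (fun n g => Z.th ε n g - 1) ∧
      Z.Rv ⊥ A (Z.bv ε) fun n g => Z.th ε n g - 1 := fun A hA => by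
    refine ⟨diag (G := fun n k => Zf (Z.th ε n) (Rn A n) (⊥ ⊔ Z.E.m ^ k) (fun g => Z.th ε n g - 1) ∧
      Z.Kl ε n (⊥ ⊔ Z.E.m ^ k) fun g => Z.th ε n g - 1) (fun n => ⟨zf_MBV _ _ _ _ _,
        (hLOK Λ Z ε n _ 0 h0 (Z.E.le_sup ⊥ n.zero_le)).2⟩) fun k => ?_,
      (Z.vec_supp _ _).trans hA.1, fun j hj => ?_⟩
    · filter_upwards [g6 A hA, uf_le (eventually_ge_atTop k)] with n h1 h2
      obtain ⟨-, t1, -, -, -, t2, -⟩ := hTHA Λ Z.toDt n h0.toOk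
      refine ⟨((t2 ε).1.zf t1 ?_).mono le_rfl (Z.E.le_sup ⊥ h2),
        (hLOK Λ Z ε n _ 0 h0 (Z.E.le_sup ⊥ h2)).2⟩
      rintro g ⟨W, k1, k2⟩
      exact (hTHB Λ Z.toDt n h0.toOk).2.2.1 W (fun e => k1 (rn_MBV hr h1 e)) k2
    · rw [Mx.bv, Z.vec_apply]
      split_ifs with e
      · simp
      · rw [ev_MBV, zero_sub, neg_sub]
        exact (r2 j (hA.2 j hj e)).1
  have hA : Z.Ad (insert Z.qg Z.m0) := Vx.refl _ _
  obtain ⟨v1, v2, v3⟩ := hVAL Λ Z ε ⊥ _ _ _ hZ hA (a1 _ hA).1.lc (a1 _ hA).2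
  have a2 : ∀ j, j ∈ Z.L ∨ j = Z.qg → ev (Z.w ε j) (Z.bv ε) = 0 := fun j hj => by
    have := v1 _ (g7 j).2
    rwa [ev_MBV, (r1 j hj).2, sub_self, sub_zero, ← (r1 j hj).1] at this
  refine ⟨a1, ?_, fun j hj => ?_, ?_⟩
  · rw [Mx.bv, Z.vec_apply, if_pos (mem_insert_self _ _), ev_MBV, ← neg_sub, ← Mx.mu, r3, neg_neg]
  · rcases hj with hj | hj
    · rcases mem_insert.1 hj with e | e
      · exact a2 j (Or.inr e)
      rw [g4, union_assoc] at e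
      rcases mem_union.1 e with e | e
      · obtain ⟨t, rfl⟩ : ∃ t, j = .inl t := by
          rcases mem_insert.1 e with e | e
          exacts [⟨_, e⟩, ⟨_, mem_singleton.1 e⟩]
        exact v3 (a1 _ hA).1 t
      have k := v2 j hj (disjoint_right.1 g5 e)
      rcases mem_union.1 e with e' | e'
      · obtain ⟨a, h1, rfl⟩ := mem_image.1 e'
        exact (r6 a h1).1 ▸ k
      · rw [(r5 j e').2.1, ev_smul] at k
        exact (mul_eq_zero.1 k).resolve_left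
          (ne_zero_of_dvd_ne_zero (fun e3 : (3 : Λ) = 0 => Z.E.T3 (e3 ▸ dvd_zero _)) (r4 j e).1)
    · exact a2 j (Or.inl hj)
  · by_contra hc
    push Not at hc
    choose g k1 k2 using fun n => ((hTHA Λ Z.toDt n h0.toOk).2.2.2.2.2.1 ε).2.2.2.2.2.1
    have k3 : Z.E.T ∣ Z.E.ev (Z.th ε) g - 1 := by
      rw [← ev_MBV, ← sub_eq_zero.1 (v1 g k1), ev_apply _ _ subset_rfl]
      exact dvd_sum fun j _ => (hc j).mul_left _
    have k4 := Z.E.mem_of (P := Ideal.span {Z.E.T}) (k := id) uf_le k2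
    rw [Z.E.L_sub, Z.E.const] at k4
    have k5 : Z.E.ι (9 * Z.r : ℕ) ∈ Ideal.span {Z.E.T} := by
      have := Ideal.sub_mem _ (Ideal.mem_span_singleton.2 k3) k4
      rw [map_natCast]
      convert this using 1
      rw [Lm.ev]
      push_cast
      ring
    have k6 := nn_dvd (Z.E.inj _ (nn (9 * Z.r : ℕ)) (Ideal.mem_sup_left k5))
    rw [nn_pow, nn_pw] at k6
    exact (Nat.le_of_dvd (nn_pos (Nat.cast_ne_zero.2 (by omega))) k6).not_gt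
      (Nat.lt_pow_self (by norm_num))

theorem QRL_pf (hY : HY) (hGER : GER_st) (hROW : ROW_st) (hVAL : VAL_st) (hEXS : EXS_st) : QRL_st := by
  intro Λ _ _ Z ε m n v hZ hm hv h
  have h0 := hZ.toOk0
  obtain ⟨⟨g1, g2, -, g4, -⟩, -, g6, -⟩ := hGER Λ Z h0
  obtain ⟨r1, -, r3, -⟩ := hROW Λ Z ε h0
  have hA := g6 m (Or.inl hm)
  rw [union_eq_left.2 hm.1] at hA
  have hq : v Z.qg = 0 := Finsupp.notMem_support_iff.1 fun e => g2 (hm.2 _ (hv e) g1)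
  have k : ∀ j ∈ m1 ∪ (Z.Sg ∪ Z.Bg), ev (Z.w ε j) v ∈ Ideal.span {Z.E.T ^ (n + 1)} := fun j hj =>
    Ideal.mem_span_singleton.2 (h j (hm.1 (by rwa [g4, union_assoc])))
  obtain ⟨f, f1, f2⟩ := hEXS Λ Z ε (Ideal.span {Z.E.T ^ (n + 1)}) _ v hZ hA
    (hv.trans (subset_insert _ _)) (Or.inl (hq ▸ zero_mem _))
    (fun t => k _ (mem_union_left _ (by cases t <;> simp [m1])))
    fun j hj => rel_MBV hROW h0 ε hj (k j (mem_union_right _ hj))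
  have e := (hVAL Λ Z ε _ _ v f hZ hA f1.lc f2).2.1 _ (mem_insert_self _ _) (by simp [m1, Mx.qg])
  rw [Mx.rel, ev_add, ev_smul, ev_smul, co_MBV, hq, mul_zero, add_zero, r3,
    ← (r1 _ (Or.inr rfl)).1, Ideal.mem_span_singleton, neg_mul, dvd_neg, pow_succ'] at e
  exact (mul_dvd_mul_iff_left Z.E.pT.ne_zero).1 e

theorem ORI_pf (hY : HY) (hTRM : TRM_st) (hTHA : THA_st) (hTHB : THB_st) (hGER : GER_st) (hROW : ROW_st) (hEXS : EXS_st) : ORI_st := by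
  intro Λ R _ _ _ Z ϑ ε x hZ hϑ hx
  have h0 := hZ.toOk0
  have hr : Z.r ≠ 0 := (h0.tw ε).sf.ne_zero
  obtain ⟨⟨g1, -, -, g4, -⟩, g6, -⟩ := hGER Λ Z h0
  obtain ⟨y, rfl, y2⟩ := ex_vt hϑ.sur x
  have hy : y.support ⊆ Z.m0 := y2 ▸ hx.1
  have hA : Z.Ad (insert Z.qg Z.m0) := Vx.refl _ _
  have k0 : ∀ j ∈ m1 ∪ (Z.Sg ∪ Z.Bg), ev (Z.w ε j) y ∈ Ideal.span {Z.E.T} := fun j hj =>
    Ideal.mem_span_singleton.2 ((hϑ.ker _).1
      ((ev_vt ϑ _ y).symm.trans (hx.2 j (by rwa [g4, union_assoc]))))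
  obtain ⟨f, ⟨k, k1, k2⟩, f2⟩ := hEXS Λ Z ε (Ideal.span {Z.E.T}) _ y hZ hA
    (hy.trans (subset_insert _ _)) (Or.inr (Ideal.mem_span_singleton_self _))
    (fun t => k0 _ (mem_union_left _ (by cases t <;> simp [m1])))
    fun j hj => rel_MBV hROW h0 ε hj (k0 j (mem_union_right _ hj))
  have hq := f2.2 _ (mem_insert_self _ _)
  rw [Finsupp.notMem_support_iff.1 fun e => g1 (hy e), zero_sub, neg_mem_iff] at hq
  refine ⟨f, (diag (G := fun n i => Zf (Z.th ε n) (Ru (3 * Z.r)) (Z.tn i) (f n) ∧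
    Z.Kl ε n (Z.tn i) (f n)) (fun n => ⟨zf_MBV _ _ _ _ _, 0, by simp [Dt.tn]⟩)
    fun i => ?_).imp fun _ e => ⟨e.1, fun j hj => ?_, e.2⟩⟩
  swap
  · rw [vt, Finsupp.mapRange_apply, ← sub_eq_zero, ← map_sub]
    exact (hϑ.ker _).2 (Ideal.mem_span_singleton.1 (f2.2 j (mem_insert_of_mem hj)))
  filter_upwards [g6 _ hA, tendsto_atTop.1 k1 i, (Z.E.mem_iff _ _).1 hq i] with n h1 h2 h3
  obtain ⟨a1, a2, a, a3⟩ := k2 n
  have b1 := Z.E.sup_le (Ideal.span {Z.E.T}) h2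
  have b2 := a2.mono le_rfl b1
  refine ⟨⟨b2.1, ?_⟩, a, fun g hg => b1 (a3 g hg)⟩
  rintro g ⟨W, w1, w2⟩
  by_cases e : Ov W (-(Z.q n : Zw))
  · obtain ⟨c1, -, c2, c3⟩ := (hTHB Λ Z.toDt n h0.toOk).2.2.2.1 _ (h0.qp n) (h0.qd n)
    obtain ⟨d1, d2, d3, d4⟩ := h0.pk.tm _ c2
    have d5 := (h0.pk.ine _ (h0.qp n) c1).1
    obtain ⟨-, t1, -, t2, -⟩ := (hTHA Λ Z.toDt n h0.toOk).2.2.2.2.2.1 ε
    have hi := h2.trans a1
    have m1 := t1 _ (Ideal.Quotient.mk (Z.tn i)) fun b hb =>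
      Ideal.Quotient.eq_zero_iff_mem.2 (Z.E.le_sup _ hi hb)
    have m2 : ∀ u ∈ (Z.K.V (-(Z.q n : Zw))).D, Ideal.Quotient.mk (Z.tn i) (Z.th ε n u) = 1 :=
      fun u hu => by
        rw [← map_one (Ideal.Quotient.mk (Z.tn i)), Ideal.Quotient.eq]
        exact Z.E.sup_le _ hi (t2 u ((c3 _ d5).1 hu)).2
    have m3 : ((3 : ℕ) : Λ ⧸ Z.tn i) ^ i = 0 := by
      rw [← map_natCast (Ideal.Quotient.mk (Z.tn i)), ← map_pow, Ideal.Quotient.eq_zero_iff_mem]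
      exact Ideal.mem_sup_right (Ideal.pow_mem_pow (by exact_mod_cast Z.E.three_mem) i)
    have m4 := ((TPR_ok 3 i _ _ _ _ _ _ Nat.prime_three (c2.l_neK d1) (c2.l_neK d1) c2.1 d1 d2 d3
      d4 m3 (m1.monoK (Plc.D_le _)) fun u hu => by rw [m2 u hu, one_pow]).1 _
      (b2.1.monoK (Plc.D_le _))).2.2 (Ideal.Quotient.eq_zero_iff_mem.2 (by
        simpa only [Mx.gj, h1.q, Mx.gen, Sum.elim_inr] using h3))
    exact Ideal.Quotient.eq_zero_iff_mem.1 ((((CNJ_ok _ _).2 _ W _ m1 c2.1 d1 e).1 _ b2.1).2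
      (fun u hu => m2 u (Plc.I_le _ hu)) m4 g w2)
  · refine b2.2 g ⟨W, fun e' => w1 (Ov_mul.2 ((Ov_mul.1 e').imp_right fun e'' => ?_)), w2⟩
    obtain ⟨b, p1, p2⟩ := ov_MBV e''
    rcases tn_MBV h1 p1 with rfl | p3
    · exact absurd p2 e
    · exact p2.dvd ((tr_MBV hr b).1 p3).2

end Pool.Agent.MP_e23604_nt.V

end
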