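import Mathlib
import Pool.Agent.Mg.Fe23604m.G85b98f
import Pool.Agent.Mg.Fe23604m.G02a399

set_option linter.all false

section

namespace Pool.Agent.MP_f68ac8_nt.Zk

open Ev Pv Sv Zv
open scoped commutatorElement
open Filter Topology

section
variable {p : ℕ} [hp : Fact p.Prime]

theorem ok_ZmCh {l : ℕ} (h : P1 p l) : ChOk p l (ch p l) := by
  have : Fact l.Prime := ⟨h.1⟩
  obtain ⟨P, hP, hl⟩ := exists_maximal_mem (Ω := Qb) h.1
  obtain ⟨σ, hσ⟩ := exists_frob P h.1 hl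
  obtain ⟨φ, hφ, -⟩ := exists_psi (p := p) (Ω := Qb) (n := 0) (q := Fin.elim0)
    (hq := fun j => j.elim0) (α := Fin.elim0) (fun j => j.elim0) h.2 (fun j => j.elim0) hl hσ
  exact Classical.epsilon_spec (p := ChOk p l) ⟨φ.comp (cyc l), inferInstance, φ, hφ, fun _ => rfl⟩

theorem nhds_ZmCh {l : ℕ} (h : P1 p l) : ((ch p l).ker : Set GQ) ∈ 𝓝 1 := by
  obtain ⟨_, ψ, -, hψ⟩ := ok_ZmCh h
  refine mem_of_superset (cyc_nhds (Ω := Qb) l) fun g hg => ?_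
  have e : cyc l g = 1 := hg
  show ch p l g = 1
  rw [hψ, e, map_one]

theorem unr_ZmCh {l : ℕ} (h : P1 p l) {P : Ideal OQ} (hl : (l : OQ) ∉ P) {g : GQ}
    (hg : g ∈ P.inertia GQ) : ch p l g = 1 := by
  obtain ⟨_, ψ, -, hψ⟩ := ok_ZmCh h
  rw [hψ, cyc_inertia hl hg, map_one]

theorem nm_ZmCh {l m : ℕ} (hl : l.Prime) (hm : m.Prime) (h : m ≠ l) {P : Ideal OQ}
    (hP : P.IsMaximal) (hlP : (l : OQ) ∈ P) : (m : OQ) ∉ P :=
  not_mem_of_coprime hlP ((Nat.coprime_primes hl hm).2 h.symm)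

theorem tau_ZmCh {l : ℕ} (h : P1 p l) {P : Ideal OQ} (hP : P.IsMaximal) (hl : (l : OQ) ∈ P) :
    ∃ τ ∈ P.inertia GQ, (ch p l τ).toAdd = 1 := by
  have : Fact l.Prime := ⟨h.1⟩
  obtain ⟨_, ψ, hs, hψ⟩ := ok_ZmCh h
  obtain ⟨u, hu⟩ := hs (Multiplicative.ofAdd 1)
  obtain ⟨τ, h1, h2⟩ := cyc_inertia_surj hl u
  exact ⟨τ, h1, by rw [hψ, h2, hu, toAdd_ofAdd]⟩

theorem lk_ZmCh {l m : ℕ} (hl : l.Prime) (hm : P1 p m) (h : m ≠ l) {P : Ideal OQ}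
    (hP : P.IsMaximal) (hlP : (l : OQ) ∈ P) {σ : GQ} (hσ : IsFrob l P σ) :
    (ch p m σ).toAdd = lk p l m := by
  obtain ⟨_, ψ, -, hψ⟩ := ok_ZmCh hm
  obtain ⟨P', hP', hl', hσ'⟩ := Classical.epsilon_spec
    (p := fun σ : GQ => ∃ P : Ideal OQ, P.IsMaximal ∧ (l : OQ) ∈ P ∧ IsFrob l P σ)
    ⟨σ, P, hP, hlP, hσ⟩
  rw [lk, hψ, hψ, Units.ext ((cyc_frob (nm_ZmCh hl hm.1 h hP hlP) hσ).trans
    (cyc_frob (nm_ZmCh hl hm.1 h hP' hl') hσ').symm)]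

theorem prop_ZmCh {G : Type} [Group G] [IsCyclic G] {ψ φ : G →* Cp p}
    (hψ : Function.Surjective ψ) (hφ : Function.Surjective φ) :
    ∃ κ : ZMod p, κ ≠ 0 ∧ ∀ u, (ψ u).toAdd = κ * (φ u).toAdd := by
  obtain ⟨g, hg⟩ := IsCyclic.exists_generator (α := G)
  have h1 : ∀ (f : G →* Cp p) (n : ℤ), (f (g ^ n)).toAdd = n * (f g).toAdd := fun f n => by
    rw [map_zpow, toAdd_zpow, zsmul_eq_mul]
  have h2 : ∀ f : G →* Cp p, Function.Surjective f → (f g).toAdd ≠ 0 := fun f hf e => by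
    obtain ⟨u, hu⟩ := hf (Multiplicative.ofAdd 1)
    obtain ⟨n, rfl⟩ := Subgroup.mem_zpowers_iff.1 (hg u)
    have := h1 f n
    rw [hu, e, mul_zero, toAdd_ofAdd] at this
    exact one_ne_zero this
  refine ⟨(ψ g).toAdd / (φ g).toAdd, div_ne_zero (h2 ψ hψ) (h2 φ hφ), fun u => ?_⟩
  obtain ⟨n, rfl⟩ := Subgroup.mem_zpowers_iff.1 (hg u)
  rw [h1, h1, mul_left_comm, div_mul_cancel₀ _ (h2 φ hφ)]

theorem pair_ZmCh {l : ℕ} (h : P1 p l) {P : Ideal OQ} (hP : P.IsMaximal) (hl : (l : OQ) ∈ P)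
    {σ : GQ} (hσ : IsFrob l P σ) {n : ℕ} (q : Fin n → ℕ) (hq : ∀ j, (q j).Prime)
    (hql : ∀ j, q j ≠ l) : ∃ κ : ZMod p, κ ≠ 0 ∧ ∀ j, lk p (q j) l = κ * KK p (q j) σ := by
  have : Fact l.Prime := ⟨h.1⟩
  obtain ⟨_, ψ, hs, hψ⟩ := ok_ZmCh h
  obtain ⟨φ, hφ, h1⟩ := exists_psi (p := p) (Ω := Qb) (q := q) (hq := fun j => ⟨hq j⟩)
    (α := fun j => proot p (q j)) (fun j => proot_pow p _) h.2 hql hl hσ
  obtain ⟨κ, h0, hκ⟩ := prop_ZmCh hs hφ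
  refine ⟨κ, h0, fun j => ?_⟩
  obtain ⟨Q, hQ, hm⟩ := exists_maximal_mem (Ω := Qb) (hq j)
  obtain ⟨s, hs'⟩ := exists_frob Q (hq j) hm
  rw [← lk_ZmCh (hq j) h (hql j).symm hQ hm hs', hψ, hκ,
    h1 j _ (cyc_frob (nm_ZmCh (hq j) h.1 (hql j).symm hQ hm) hs')]
  rfl

theorem kap_ZmCh {l : ℕ} (h : P1 p l) {P : Ideal OQ} (hP : P.IsMaximal) (hl : (l : OQ) ∈ P)
    {σ : GQ} (hσ : IsFrob l P σ) :
    ∃ κ : ZMod p, κ ≠ 0 ∧ ∀ m, P1 p m → m ≠ l → lk p m l = κ * KK p m σ := by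
  by_cases h0 : ∃ m₀, P1 p m₀ ∧ m₀ ≠ l ∧ KK p m₀ σ ≠ 0
  · obtain ⟨m₀, a1, a2, a3⟩ := h0
    obtain ⟨κ, hκ, h1⟩ := pair_ZmCh h hP hl hσ (fun _ : Fin 1 => m₀) (fun _ => a1.1) fun _ => a2
    refine ⟨κ, hκ, fun m b1 b2 => ?_⟩
    obtain ⟨κ', -, h2⟩ := pair_ZmCh h hP hl hσ ![m₀, m] (Fin.forall_fin_two.2 ⟨a1.1, b1.1⟩)
      (Fin.forall_fin_two.2 ⟨a2, b2⟩)
    have e : κ = κ' := mul_right_cancel₀ a3 ((h1 0).symm.trans (h2 0))
    rw [e]
    exact h2 1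
  · refine ⟨1, one_ne_zero, fun m b1 b2 => ?_⟩
    obtain ⟨κ, -, h1⟩ := pair_ZmCh h hP hl hσ (fun _ : Fin 1 => m) (fun _ => b1.1) fun _ => b2
    have e : KK p m σ = 0 := by
      by_contra e
      exact h0 ⟨m, b1, b2, e⟩
    rw [h1 0, e, mul_zero, mul_zero]

theorem ne_ZmCh {l : ℕ} (h : P1 p l) : l ≠ p := by
  rintro rfl
  have := (Nat.modEq_iff_dvd' h.1.one_le).1 h.2.symm
  exact absurd (Nat.le_of_dvd (Nat.sub_pos_of_lt h.1.one_lt) this)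
    (not_le.2 (Nat.sub_one_lt h.1.ne_zero))

variable {d : ℕ} {l : Fin d → ℕ}

theorem chA_ZmCh (a : Fin d → (ZMod p)ˣ) (g : GQ) :
    (chA l a g).toAdd = ∑ j, (ch p (l j) g).toAdd * (a j : ZMod p) := by
  rw [chA, MonoidHom.finsetProd_apply, toAdd_prod]
  refine Finset.sum_congr rfl fun j _ => ?_
  rw [MonoidHom.pow_apply, toAdd_pow, nsmul_eq_mul, ZMod.natCast_zmod_val, mul_comm]

theorem single_ZmCh (hinj : Function.Injective l) (h : ∀ j, P1 p (l j)) (a : Fin d → ZMod p)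
    (j : Fin d) {g : GQ} (hg : InertiaAt (l j) g) :
    ∑ i, (ch p (l i) g).toAdd * a i = (ch p (l j) g).toAdd * a j := by
  obtain ⟨P, hP, hl, hg⟩ := hg
  refine Finset.sum_eq_single j (fun i _ hi => ?_) fun e => absurd (Finset.mem_univ j) e
  rw [unr_ZmCh (h i) (nm_ZmCh (h j).1 (h i).1 (hinj.ne hi) hP hl) hg, toAdd_one, zero_mul]

theorem eval_ZmCh (hinj : Function.Injective l) (h : ∀ j, P1 p (l j)) (j : Fin d) :
    ∃ τ, InertiaAt (l j) τ ∧ ∀ a : Fin d → (ZMod p)ˣ, (chA l a τ).toAdd = a j := by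
  obtain ⟨P, hP, hl⟩ := exists_maximal_mem (Ω := Qb) (h j).1
  obtain ⟨τ, h1, h2⟩ := tau_ZmCh (h j) hP hl
  refine ⟨τ, ⟨P, hP, hl, h1⟩, fun a => ?_⟩
  rw [chA_ZmCh, single_ZmCh hinj h _ j ⟨P, hP, hl, h1⟩, h2, one_mul]

theorem mem_ZmCh (hinj : Function.Injective l) (h : ∀ j, P1 p (l j)) (a : Fin d → (ZMod p)ˣ) :
    chA l a ∈ CycCh p (Set.range l) := by
  refine ⟨Subgroup.isOpen_of_mem_nhds _ (g := 1) ?_, fun m hm => ⟨?_, ?_⟩⟩
  · refine mem_of_superset (eventually_all.2 fun j => nhds_ZmCh (h j)) fun g hg => ?_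
    show chA l a g = 1
    rw [← toAdd_eq_zero, chA_ZmCh]
    refine Finset.sum_eq_zero fun j _ => ?_
    have e : ch p (l j) g = 1 := hg j
    rw [e, toAdd_one, zero_mul]
  · rintro ⟨j, rfl⟩
    obtain ⟨τ, h1, h2⟩ := eval_ZmCh hinj h j
    refine ⟨τ, h1, fun e => (a j).ne_zero ?_⟩
    rw [← h2 a, e, toAdd_one]
  · rintro ⟨g, ⟨P, hP, hl, hg⟩, h1⟩
    by_contra h2
    refine h1 ?_
    rw [← toAdd_eq_zero, chA_ZmCh]
    refine Finset.sum_eq_zero fun j _ => ?_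
    rw [unr_ZmCh (h j) (nm_ZmCh hm (h j).1 (fun e => h2 ⟨j, e⟩) hP hl) hg, toAdd_one, zero_mul]

theorem sub_ZmCh (hinj : Function.Injective l) (h : ∀ j, P1 p (l j)) {χ : GQ →* Cp p}
    (hχ : χ ∈ CycCh p (Set.range l)) : ∃ a, chA l a = χ := by
  have : ∀ j, Fact (l j).Prime := fun j => ⟨(h j).1⟩
  choose _ ψ _ hψ using fun j => ok_ZmCh (h j)
  choose P hP hl using fun j => exists_maximal_mem (Ω := Qb) (h j).1
  choose τ h1 h2 using fun j => tau_ZmCh (h j) (hP j) (hl j)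
  have key : ∀ g, (χ g).toAdd = ∑ j, (ch p (l j) g).toAdd * (χ (τ j)).toAdd := fun g => by
    simp only [hψ] at h2 ⊢
    exact add_structure (V := ZMod p) l hinj (fun j => ne_ZmCh (h j)) ψ P hl τ h1 h2
      (fun g => (χ g).toAdd) (fun g h => by rw [map_mul, toAdd_mul])
      (hχ.1.mem_nhds χ.ker.one_mem) (fun m Q hm hQ hmQ hc u hu => by
        by_contra e
        obtain ⟨j, hj⟩ := (hχ.2 m hm).2 ⟨u, ⟨Q, hQ, hmQ, hu⟩, e⟩
        rcases hc with hc | hc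
        · exact ne_ZmCh (h j) (hj.trans hc)
        · exact hc.2 j hj) g
  have h0 : ∀ j, (χ (τ j)).toAdd ≠ 0 := fun j e => by
    obtain ⟨g, hg, h3⟩ := (hχ.2 _ (h j).1).1 ⟨j, rfl⟩
    refine h3 ?_
    rw [← toAdd_eq_zero, key, single_ZmCh hinj h _ j hg, e, mul_zero]
  refine ⟨fun j => Units.mk0 _ (h0 j), MonoidHom.ext fun g => Multiplicative.toAdd.injective ?_⟩
  rw [chA_ZmCh, key]
  rfl

theorem ind_ZmCh (hp2 : 2 < p) {F : IntermediateField ℚ Qb}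
    (hF : ∀ g, g ∈ F.fixingSubgroup ↔ cyc p g = 1) (hinj : Function.Injective l)
    (h : ∀ j, P1 p (l j)) :
    Ind F 1 (Sum.elim (fun j g => (ch p (l j) g).toAdd) fun j => KK p (l j)) := by
  classical
  obtain ⟨-, -, -, k4, -, -, k7, -⟩ := kk_stmt p
  have hne : ∀ j, (l j : Qb) ≠ 0 := fun j => Nat.cast_ne_zero.2 (h j).1.ne_zero
  refine ⟨?_, ?_, fun b g _ => by rw [one_mul, inv_one, mul_one], fun c hc => ?_⟩
  · rintro (j | j) g hg g' _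
    · exact (congrArg _ (map_mul _ g g')).trans (toAdd_mul _ _)
    · exact k4 _ g g' (hne j) (map_natCast g _) (map_natCast g' _) ((hF g).1 hg)
  · rintro (j | j)
    · filter_upwards [nhds_ZmCh (h j)] with g hg _
      exact toAdd_eq_zero.2 hg
    · filter_upwards [k7 _ (hne j)] with g hg _
      exact hg
  · have : ∀ j, Fact (l j).Prime := fun j => ⟨(h j).1⟩
    choose _ ψ hs hψ using fun j => ok_ZmCh (h j)
    funext b
    obtain ⟨w, hw⟩ : ∃ w : Fin d ⊕ Fin d → ZMod p, w = Pi.single b 1 := ⟨_, rfl⟩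
    obtain ⟨g, h1, h2⟩ := dat_surj (Ω := Qb) ψ (α := fun j => proot p (l j))
      (fun j => proot_pow p _) hp2.ne' hinj (fun j => ne_ZmCh (h j)) hs
      (0, fun j => w (.inl j), fun j => w (.inr j))
    have e : ∀ x, Sum.elim (fun j g => (ch p (l j) g).toAdd) (fun j => KK p (l j)) x g = w x := by
      rintro (j | j)
      · exact (congrArg Multiplicative.toAdd (hψ j g)).trans
          (congrFun (congrArg (fun v => v.2.1) h2) j)
      · exact congrFun (congrArg (fun v => v.2.2) h2) j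
    have := hc g ((hF g).2 h1)
    simp only [e] at this
    rw [hw, Finset.sum_eq_single b (fun x _ hx => by rw [Pi.single_eq_of_ne hx, mul_zero])
      (fun e => absurd (Finset.mem_univ b) e), Pi.single_eq_same, mul_one] at this
    exact this

end

theorem ch_stmt (p : ℕ) [Fact p.Prime] (H : Core p) (hP : PrimStmt p) (hR : Zv.RestrStmt p) :
    ChStmt p := by
  intro K F _ _ hB hK hF
  have hT := (hP K F hB hK hF).1
  refine ⟨fun l h => ⟨ok_ZmCh h, nhds_ZmCh h, fun P _ hl g hg => unr_ZmCh h hl hg⟩,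
    fun c hc h => ⟨fun e => ?_, fun m hm hne => ⟨lk_ZmCh hc.prime hm hne hc.max hc.mem hc.frob,
      unr_ZmCh hm (nm_ZmCh hc.prime hm.1 hne hc.max hc.mem) hc.inert⟩,
      kap_ZmCh h hc.max hc.mem hc.frob⟩,
    fun d l hinj h => ⟨ind_ZmCh hB.two hF hinj h, ?_, fun a a' e => ?_⟩⟩
  · obtain ⟨τ, h1, h2⟩ := tau_ZmCh h hc.max hc.mem
    have k₀ : Subtype.val ⁻¹' ((ch p c.l).ker : Set GQ) ∈ 𝓝 (1 : GK K) :=
      continuous_subtype_val.continuousAt.preimage_mem_nhds (nhds_ZmCh h)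
    have k := (hR K F hB c hc ((ch p c.l).comp K.fixingSubgroup.subtype).ker inferInstance k₀
      (fun g _ => ⟨1, by
        rw [MonoidHom.mem_ker, map_pow, pow_one, ← toAdd_eq_zero, toAdd_pow, nsmul_eq_mul,
          ZMod.natCast_self, zero_mul]⟩)).2
      (by
        show ch p c.l (toK K c.τ).1 = 1
        rw [hT, e]) c.P (toK K τ) (by
        rw [hT]
        exact ⟨hc.max, h1, hc.unr h1⟩) rfl
    have k' : ch p c.l (toK K τ).1 = 1 := k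
    rw [hT] at k'
    rw [k', toAdd_one] at h2
    exact zero_ne_one h2
  · refine Set.Subset.antisymm (fun χ hχ => sub_ZmCh hinj h hχ) ?_
    rintro _ ⟨a, rfl⟩
    exact mem_ZmCh hinj h a
  · funext j
    obtain ⟨τ, -, h2⟩ := eval_ZmCh hinj h j
    exact Units.ext (by rw [← h2 a, ← h2 a', e])

end Pool.Agent.MP_f68ac8_nt.Zk

end

section

namespace Pool.Agent.MP_f68ac8_nt.Zk

open Ev Pv Sv Zv
open scoped commutatorElement

section
variable {p : ℕ} [Fact p.Prime]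

theorem cp_pow_ZmSol (g : Cp p) (n : ℕ) : g ^ n = Multiplicative.ofAdd ((n : ZMod p) * g.toAdd) := by
  rw [← nsmul_eq_mul, ofAdd_nsmul, ofAdd_toAdd]

theorem cp_val_ZmSol (g : Cp p) (c : ZMod p) :
    g ^ c.val = Multiplicative.ofAdd (c * g.toAdd) := by
  rw [cp_pow_ZmSol, ZMod.natCast_zmod_val]

theorem cp_p_ZmSol (g : Cp p) : g ^ p = 1 := by
  rw [cp_pow_ZmSol, ZMod.natCast_self, zero_mul, ofAdd_zero]

theorem adm_ZmSol {K : IntermediateField ℚ Qb} {H Λ : Type} [Group H]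
    (hH : ∀ g : H, ∃ k, g ^ p ^ k = 1) {x : Λ → Co}
    (key : ∀ u (Q : Ideal OQ), Q.IsMaximal → ((x u).l : OQ) ∈ Q →
      Q.under (NumberField.RingOfIntegers K) = pr K (x u))
    {θ : GQ →* H} (h1 : (θ.ker : Set GQ) ∈ nhds 1)
    (h2 : ∀ Q : Ideal OQ, Q.IsMaximal → (∀ u, ((x u).l : OQ) ∉ Q) → ∀ g ∈ Q.inertia GQ, θ g = 1) :
    AdmP p (Set.range fun y => pr K (x y)) (θ.comp K.fixingSubgroup.subtype).ker :=
  ⟨inferInstance, (continuous_subtype_val.continuousAt (x := (1 : GK K))).preimage_mem_nhds h1,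
     fun g => by
    obtain ⟨k, hk⟩ := hH (θ g.1)
    exact ⟨k, by rw [MonoidHom.mem_ker, map_pow]; exact hk⟩,
    fun Q g hQ hg hn => h2 Q hQ (fun u hu => hn ⟨u, (key u Q hQ hu).symm⟩) g.1 hg⟩

theorem eq_ZmSol {G H : Type} [Group G] [Group H] {θ : G →* H} {N : Subgroup G} (h : N ≤ θ.ker)
    {g g' : G} (hg : g⁻¹ * g' ∈ N) : θ g = θ g' := by
  have := h hg
  rwa [MonoidHom.mem_ker, map_mul, map_inv, inv_mul_eq_one] at this

end

end Pool.Agent.MP_f68ac8_nt.Zk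

end
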