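import Mathlib
import Pool.Agent.Mg.Fe23604m.G3360bb
import Pool.Agent.Mg.Fe23604m.G9a9246

set_option linter.all false

section

namespace Pool.Agent.MP_f68ac8_nt.Nd

open Zq Ev Pv Sv Zv Zk NumberField Finset Filter
open scoped Topology BigOperators commutatorElement

theorem norm_NdTw (τ : ℝ) (l : ℕ) : ‖tw τ l‖ = 1 := by
  unfold tw
  have h : Complex.I * τ * Real.log l = ((τ * Real.log l : ℝ) : ℂ) * Complex.I := by
    rw [Complex.ofReal_mul]
    ring
  rw [h, Complex.norm_exp_ofReal_mul_I]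

theorem exp_NdTw {Λ : Finset ℕ} (hΛ : ∀ l ∈ Λ, l.Prime) {d : ℕ} (q : Fin d → Λ) (τ : ℝ) :
    Complex.exp (Complex.I * τ * (Real.log (np q) : ℝ)) = ∏ j, tw τ (q j) := by
  have h : Real.log (np q) = ∑ j, Real.log ((q j : ℕ) : ℝ) := by
    unfold np
    rw [Nat.cast_prod, Real.log_prod]
    intro j _
    exact Nat.cast_ne_zero.2 (hΛ _ (q j).2).ne_zero
  rw [h, Complex.ofReal_sum, Finset.mul_sum, Complex.exp_sum]
  rfl

theorem twN (hK : KerStmt) : TwN := by
  intro c hc Λ hΛ d w y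
  obtain ⟨h1, -, h3⟩ := hK c hc
  have key : ∀ (F : (Fin d → Λ) → ℂ) (b : ℝ),
      (∀ τ : ℝ, |τ| ≤ c → ‖Ex (U := fun _ => Λ) w fun q => (∏ j, tw τ (q j)) * F q‖ ≤ b) →
      ‖Ex (U := fun _ => Λ) w fun q => (kap c y q : ℂ) * F q‖ ≤ b := by
    intro F b hb
    have h := h3 (Fin d → Λ) univ (fun q => ((∏ j, w j (q j) : ℝ) : ℂ) * F q)
      (fun q => Real.log (np q)) y b fun τ hτ => by
        refine le_of_eq_of_le (congrArg _ ?_) (hb τ hτ)
        unfold Ex
        refine Finset.sum_congr rfl fun q _ => ?_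
        rw [exp_NdTw hΛ, Complex.real_smul]
        ring
    refine le_of_eq_of_le (congrArg _ ?_) h
    unfold Ex
    refine Finset.sum_congr rfl fun q _ => ?_
    rw [Complex.real_smul]
    unfold kap
    ring
  refine ⟨⟨fun q => (h1 _).1, fun F b hb => key F b fun τ _ => ?_⟩, key⟩
  exact hb (fun _ u => tw τ u) fun _ u => (norm_NdTw τ u).le

theorem wmN : WmN := by
  intro p c n r D η h
  refine ⟨(h.nn 1 0).trans (h.wle 1 0 (by decide)), fun d μ => ?_⟩
  have hpos : ∀ m, 0 < ms p.Λ p.W m := fun m => by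
    by_cases hm : m = 0
    · rw [hm]; exact h.pos
    · exact lt_of_lt_of_le one_pos (h.one m hm)
  refine ⟨⟨fun j u => div_nonneg (h.nn _ _) (hpos _).le, fun j => ?_⟩, ?_, fun j u hj => ?_,
    fun j u hu => ?_, fun c' y f => ?_⟩
  · unfold wm
    rw [← Finset.sum_div, Finset.sum_coe_sort p.Λ (fun l => p.W (μ j) l)]
    exact div_self (hpos _).ne'
  · rw [Finset.disjoint_left]
    intro j h1 h3
    have e1 := (Finset.mem_filter.1 h1).2
    have e3 := (Finset.mem_filter.1 h3).2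
    rw [e1] at e3
    exact absurd e3 (by decide)
  · have h1 : wm p.Λ p.W μ j u ≤ p.W (μ j) u := div_le_self (h.nn _ _) (h.one _ hj)
    exact ⟨h1, h1.trans (h.wle _ _ hj)⟩
  · have h1 : p.W (μ j) u ≠ 0 := fun e => hu (by unfold wm; rw [e, zero_div])
    refine ⟨fun e => ?_, fun e => ?_⟩
    · rw [e] at h1
      by_contra hn
      exact h1 (if_neg hn)
    · rw [e] at h1
      by_contra hn
      exact h1 (if_neg hn)
  · unfold nu Ex
    simp only [Finset.sum_mul]
    rw [Finset.sum_comm]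
    refine Finset.sum_congr rfl fun q _ => ?_
    simp only [smul_eq_mul, mul_assoc]
    rw [← Finset.mul_sum]
    refine congrArg _ ?_
    by_cases hq : Function.Injective q
    · rw [if_pos hq, Finset.sum_eq_single (lk2 (vl q))]
      · rw [if_pos ⟨hq, rfl⟩]
      · intro r' _ hr
        rw [if_neg fun e => hr e.2.symm, zero_mul]
      · intro hn
        exact absurd (Finset.mem_univ _) hn
    · rw [if_neg hq]
      refine Finset.sum_eq_zero fun r' _ => ?_
      rw [if_neg fun e => hq e.1, zero_mul]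

end Pool.Agent.MP_f68ac8_nt.Nd

end

section

namespace Pool.Agent.MP_f68ac8_nt.Nd

open Zq Ev Pv Sv Zv Zk NumberField Finset Filter
open scoped Topology BigOperators commutatorElement

theorem norm_tw_NdOsc (τ : ℝ) (l : ℕ) : ‖tw τ l‖ = 1 := by
  have e : Complex.I * τ * Real.log l = ((τ * Real.log l : ℝ) : ℂ) * Complex.I := by
    push_cast
    ring
  rw [tw, e, Complex.norm_exp_ofReal_mul_I]

theorem norm_sg_NdOsc (x : ZMod 2) : ‖(Zq.sg x : ℂ)‖ = 1 := by
  unfold Zq.sg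
  split_ifs <;> simp

theorem sg_add_NdOsc (x y : ZMod 2) : Zq.sg (x + y) = Zq.sg x * Zq.sg y := by
  have h : ∀ x y : ZMod 2, (x + y = 0 ↔ (x = 0 ↔ y = 0)) := by decide
  unfold Zq.sg
  by_cases hx : x = 0 <;> by_cases hy : y = 0 <;> simp [h, hx, hy]

theorem two_NdOsc (x : ZMod 2) (h : x ≠ 1) : x = 0 := by
  revert x
  decide

section
variable {Λ : Finset ℕ} {d : ℕ}

theorem ex_le_NdOsc {w : Fin d → Λ → ℝ} (hw : Prob (U := fun _ => Λ) w) (G : (Fin d → Λ) → ℂ)
    (b : ℝ) (h : ∀ q, (∀ j, w j (q j) ≠ 0) → ‖G q‖ ≤ b) : ‖Ex (U := fun _ => Λ) w G‖ ≤ b := by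
  unfold Ex
  refine (norm_sum_le _ _).trans ?_
  have e : ∑ q : Fin d → Λ, (∏ j, w j (q j)) * b = b := by
    rw [← sum_mul, wt_sum_ZaGcs (U := fun _ => Λ) hw, one_mul]
  refine le_trans (sum_le_sum fun q _ => ?_) e.le
  have h0 := wt_nonneg_ZaGcs (U := fun _ => Λ) hw q
  rw [norm_smul, Real.norm_of_nonneg h0]
  by_cases hq : ∀ j, w j (q j) ≠ 0
  · exact mul_le_mul_of_nonneg_left (h q hq) h0
  · push Not at hq
    obtain ⟨j, hj⟩ := hq
    rw [prod_eq_zero (mem_univ j) hj, zero_mul, zero_mul]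

/-- injective away from one index -/
def Ij_NdOsc (i : Fin d) (q : Fin d → Λ) : Prop := ∀ k l, k ≠ i → l ≠ i → q k = q l → k = l

theorem inj_update_NdOsc (i : Fin d) (q : Fin d → Λ) (u : Λ) :
    Function.Injective (Function.update q i u) ↔ Ij_NdOsc i q ∧ ∀ k, k ≠ i → q k ≠ u := by
  constructor
  · intro h
    refine ⟨fun k l hk hl e => h ?_, fun k hk e => hk (h ?_)⟩
    · rwa [Function.update_of_ne hk, Function.update_of_ne hl]
    · rwa [Function.update_of_ne hk, Function.update_self]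
  · rintro ⟨h1, h2⟩ k l e
    by_cases hk : k = i <;> by_cases hl : l = i
    · rw [hk, hl]
    · rw [hk, Function.update_self, Function.update_of_ne hl] at e
      exact absurd e.symm (h2 l hl)
    · rw [hl, Function.update_self, Function.update_of_ne hk] at e
      exact absurd e (h2 k hk)
    · rw [Function.update_of_ne hk, Function.update_of_ne hl] at e
      exact h1 k l hk hl e

open Classical in
/-- the test function -/
noncomputable def Ft_NdOsc (i : Fin d) (a : Fin d → ZMod 2) (h : Mx d → ℝ) (q : Fin d → Λ) : ℂ :=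
  if Function.Injective q then ((h (lk2 (vl q)) * Zq.sg (∑ j, a j * lk2 (vl q) i j) : ℝ) : ℂ) else 0

open Classical in
/-- the factor that does not depend on the index `i` -/
noncomputable def ga_NdOsc (τ : ℝ) (i : Fin d) (h : Mx d → ℝ) (q : Fin d → Λ) : ℂ :=
  (∏ k ∈ univ.erase i, tw τ (q k)) * if Ij_NdOsc i q then (h (lk2 (vl q)) : ℂ) else 0

open Classical in
/-- the factor that depends on the index `i` -/
noncomputable def rh_NdOsc (τ : ℝ) (b : ZMod 2) (a : Fin d → ZMod 2) (S : Finset (Fin d))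
    (q : Fin d → Λ) (u : Λ) : ℂ :=
  if ∀ k ∈ S, q k ≠ u then tw τ u * Zq.sg (b * Zq.eps u + ∑ k ∈ S, a k * lk 2 u (q k)) else 0

theorem norm_ga_NdOsc (τ : ℝ) (i : Fin d) {h : Mx d → ℝ} (hh : ∀ r, |h r| ≤ 1) (q : Fin d → Λ) :
    ‖ga_NdOsc τ i h q‖ ≤ 1 := by
  unfold ga_NdOsc
  rw [norm_mul, norm_prod, prod_eq_one fun k _ => norm_tw_NdOsc τ _, one_mul]
  split_ifs
  · rw [Complex.norm_real]
    exact hh _
  · simp

theorem norm_rh_NdOsc (τ : ℝ) (b : ZMod 2) (a : Fin d → ZMod 2) (S : Finset (Fin d))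
    (q : Fin d → Λ) (u : Λ) : ‖rh_NdOsc τ b a S q u‖ ≤ 1 := by
  unfold rh_NdOsc
  split_ifs
  · rw [norm_mul, norm_tw_NdOsc, norm_sg_NdOsc, one_mul]
  · simp

theorem factor_NdOsc (τ : ℝ) (i : Fin d) (a : Fin d → ZMod 2) {h : Mx d → ℝ} (hh : Off i h)
    (q : Fin d → Λ) (u : Λ) :
    (∏ j, tw τ (Function.update q i u j)) * Ft_NdOsc i a h (Function.update q i u) =
      ga_NdOsc τ i h q * rh_NdOsc τ (a i) a (univ.erase i) q u := by
  have e1 : ∏ j, tw τ (Function.update q i u j) = tw τ u * ∏ k ∈ univ.erase i, tw τ (q k) := by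
    rw [← mul_prod_erase univ _ (mem_univ i), Function.update_self]
    exact congrArg _ (prod_congr rfl fun k hk => by
      rw [Function.update_of_ne (ne_of_mem_erase hk)])
  have e2 : h (lk2 (vl (Function.update q i u))) = h (lk2 (vl q)) := hh _ _ fun j k hj hk => by
    simp only [lk2, vl, Function.update_of_ne hj, Function.update_of_ne hk]
  have e3 : ∑ j, a j * lk2 (vl (Function.update q i u)) i j =
      a i * Zq.eps u + ∑ k ∈ univ.erase i, a k * lk 2 u (q k) := by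
    rw [← add_sum_erase univ _ (mem_univ i)]
    refine congrArg₂ _ ?_ (sum_congr rfl fun k hk => ?_)
    · simp only [lk2, vl, Function.update_self, if_true]
    · have hk' := ne_of_mem_erase hk
      simp only [lk2, vl, Function.update_self, Function.update_of_ne hk', if_neg hk'.symm]
  have e4 : (∀ k ∈ univ.erase i, q k ≠ u) ↔ ∀ k, k ≠ i → q k ≠ u := by simp
  unfold Ft_NdOsc ga_NdOsc rh_NdOsc
  rw [e1, e2, e3]
  by_cases h1 : Ij_NdOsc i q
  · by_cases h2 : ∀ k, k ≠ i → q k ≠ u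
    · rw [if_pos ((inj_update_NdOsc i q u).2 ⟨h1, h2⟩), if_pos h1, if_pos (e4.2 h2)]
      push_cast
      ring
    · rw [if_neg fun h3 => h2 ((inj_update_NdOsc i q u).1 h3).2, if_neg fun h3 => h2 (e4.1 h3),
        mul_zero, mul_zero]
  · rw [if_neg fun h3 => h1 ((inj_update_NdOsc i q u).1 h3).1, if_neg h1, mul_zero, mul_zero,
      zero_mul]

theorem jac_NdOsc (hJ : JacN) (hΛ : ∀ l ∈ Λ, l.Prime ∧ Odd l) (τ : ℝ) (b : ZMod 2)
    (a : Fin d → ZMod 2) (S : Finset (Fin d)) (j : Fin d) (hj : j ∈ S) (ha : a j = 1)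
    (q : Fin d → Λ) (u v : Λ) :
    rh_NdOsc τ b a S (Function.update q j v) u =
      rh_NdOsc τ b a (S.erase j) q u * (jacobiSym (u : ℕ) v : ℤ) := by
  have e1 : ∑ k ∈ S, a k * lk 2 u (Function.update q j v k) =
      ∑ k ∈ S.erase j, a k * lk 2 u (q k) + lk 2 u v := by
    rw [← add_sum_erase S _ hj, Function.update_self, ha, one_mul, add_comm]
    exact congrArg (· + _) (sum_congr rfl fun k hk => by
      rw [Function.update_of_ne (ne_of_mem_erase hk)])
  have e2 : (∀ k ∈ S, Function.update q j v k ≠ u) ↔ (∀ k ∈ S.erase j, q k ≠ u) ∧ v ≠ u := by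
    constructor
    · intro h
      refine ⟨fun k hk => ?_, ?_⟩
      · have h1 := h k (mem_of_mem_erase hk)
        rwa [Function.update_of_ne (ne_of_mem_erase hk)] at h1
      · have h1 := h j hj
        rwa [Function.update_self] at h1
    · rintro ⟨h1, h2⟩ k hk
      by_cases hkj : k = j
      · rwa [hkj, Function.update_self]
      · rw [Function.update_of_ne hkj]
        exact h1 k (mem_erase.2 ⟨hkj, hk⟩)
  unfold rh_NdOsc
  by_cases h1 : ∀ k ∈ S.erase j, q k ≠ u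
  · by_cases h2 : v = u
    · have h3 : jacobiSym (u : ℕ) v = 0 := by
        have : NeZero (u : ℕ) := ⟨(hΛ u u.2).1.ne_zero⟩
        rw [h2, jacobiSym.eq_zero_iff_not_coprime]
        simpa using (hΛ u u.2).1.ne_one
      rw [if_neg fun h4 => (e2.1 h4).2 h2, h3, Int.cast_zero, mul_zero]
    · have h3 := hJ u v (hΛ u u.2).1 (hΛ u u.2).2 (hΛ v v.2).1 (hΛ v v.2).2
        fun e => h2 (Subtype.ext e.symm)
      rw [if_pos (e2.2 ⟨h1, h2⟩), if_pos h1, e1, ← add_assoc, sg_add_NdOsc, h3]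
      push_cast
      ring
  · rw [if_neg fun h4 => h1 (e2.1 h4).1, if_neg h1, zero_mul]

end

theorem bil_NdOsc {p : Par} {c : ℝ} {n r : ℕ} {D η : ℝ} (hp : p.Ok c n r D η) (m m' : Fin 4)
    (hm : m ≠ 0) (hm' : m' ≠ 0) (A B : p.Λ → ℂ) (hA : ∀ u, ‖A u‖ ≤ p.W m u)
    (hB : ∀ u, ‖B u‖ ≤ p.W m' u) :
    ‖∑ u, ∑ v, A u * B v * (jacobiSym (u : ℕ) v : ℤ)‖ ≤ η := by
  have h := hp.bil m m' (fun l => if h : l ∈ p.Λ then A ⟨l, h⟩ else 0)
    (fun l => if h : l ∈ p.Λ then B ⟨l, h⟩ else 0) hm hm'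
    (fun l hl => by rw [dif_pos hl]; exact hA _) fun l hl => by rw [dif_pos hl]; exact hB _
  rw [← sum_coe_sort] at h
  refine le_trans (le_of_eq (congrArg _ (sum_congr rfl fun u _ => ?_))) h
  rw [← sum_coe_sort p.Λ]
  exact sum_congr rfl fun v _ => by rw [dif_pos u.2, dif_pos v.2]

theorem tiny_NdOsc (hY : TinyN) {p : Par} {c : ℝ} {n r : ℕ} {D η : ℝ} (hp : p.Ok c n r D η)
    (hη : 0 ≤ η) {d : ℕ} (hd : (d : ℝ) ≤ D) {τ : ℝ} (hτ : |τ| ≤ c) (i : Fin d)
    (a : Fin d → ZMod 2) (ha : a ≠ 0) (q : Fin d → p.Λ) (hq : Ij_NdOsc i q)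
    (hti : ∀ k, k ≠ i → a k = 1 → (q k).1 ∈ p.ti) (ω : p.Λ → ℝ)
    (hω : ∀ u, ω u = p.W 3 u / ms p.Λ p.W 3) (hω' : ∀ u, ω u ≤ η) :
    ‖∑ u, ω u • rh_NdOsc τ (a i) a (univ.erase i) q u‖ ≤ (d + 1) * η := by
  classical
  have hms : 1 ≤ ms p.Λ p.W 3 := hp.one 3 (by decide)
  have hω0 : ∀ u, 0 ≤ ω u := fun u => by
    rw [hω]
    exact div_nonneg (hp.nn 3 u) (by linarith)
  set T := (univ.erase i).filter fun k => a k = 1 with hT
  have hT' : ∀ k, k ∈ T ↔ k ≠ i ∧ a k = 1 := fun k => by simp [hT]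
  have e1 : ∀ u : ℕ, ∑ k ∈ univ.erase i, a k * lk 2 u (q k) = ∑ m ∈ T.image (vl q), lk 2 u m := by
    intro u
    rw [sum_image (g := vl q) fun k hk l hl e =>
      hq k l ((hT' k).1 hk).1 ((hT' l).1 hl).1 (Subtype.ext e), hT, sum_filter]
    refine sum_congr rfl fun k _ => ?_
    split_ifs with hk
    · rw [hk, one_mul, vl]
    · rw [two_NdOsc _ hk, zero_mul]
  have h1 := hY p c n r D η hp τ hτ (T.image (vl q)) (fun m hm => by
      obtain ⟨k, hk, rfl⟩ := mem_image.1 hm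
      exact hti k ((hT' k).1 hk).1 ((hT' k).1 hk).2)
    (le_trans (by
      exact_mod_cast card_image_le.trans ((card_le_univ T).trans (Fintype.card_fin d).le)) hd)
    (a i) (by
      by_cases hi : a i = 0
      · left
        by_contra h2
        refine ha (funext fun k => ?_)
        by_cases hk : k = i
        · rw [hk, hi, Pi.zero_apply]
        · exact two_NdOsc _ fun h3 => h2 ⟨_, mem_image_of_mem _ ((hT' k).2 ⟨hk, h3⟩)⟩
      · exact Or.inr hi)
  set φ : ℕ → ℂ := fun l => tw τ l * Zq.sg (a i * Zq.eps l + ∑ m ∈ T.image (vl q), lk 2 l m) with hφ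
  have hφ1 : ∀ l, ‖φ l‖ = 1 := fun l => by
    rw [hφ, norm_mul, norm_tw_NdOsc, norm_sg_NdOsc, one_mul]
  have h2 : ‖∑ u : p.Λ, ω u • φ u‖ ≤ η := by
    have e2 : ∑ u : p.Λ, ω u • φ u = (ms p.Λ p.W 3)⁻¹ • ∑ l ∈ p.Λ, (p.W 3 l : ℂ) * tw τ l *
        Zq.sg (a i * Zq.eps l + ∑ m ∈ T.image (vl q), lk 2 l m) := by
      rw [← sum_coe_sort p.Λ, smul_sum]
      refine sum_congr rfl fun u _ => ?_
      rw [hω, div_eq_inv_mul, mul_smul, mul_assoc, Complex.real_smul (x := p.W 3 u)]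
    rw [e2, norm_smul, Real.norm_of_nonneg (inv_nonneg.2 (by linarith))]
    exact (mul_le_mul (inv_le_one_of_one_le₀ hms) h1 (norm_nonneg _) zero_le_one).trans
      (one_mul η).le
  have h3 : ‖∑ u : p.Λ, ω u • (rh_NdOsc τ (a i) a (univ.erase i) q u - φ u)‖ ≤ d * η := by
    refine (norm_sum_le _ _).trans ?_
    have h4 : ∀ u : p.Λ, ‖ω u • (rh_NdOsc τ (a i) a (univ.erase i) q u - φ u)‖ ≤
        if u ∈ univ.image q then η else 0 := by
      intro u
      unfold rh_NdOsc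
      by_cases h5 : ∀ k ∈ univ.erase i, q k ≠ u
      · rw [if_pos h5, e1, sub_self, smul_zero, norm_zero]
        split_ifs
        · exact hη
        · exact le_rfl
      · rw [if_neg h5, zero_sub, norm_smul, norm_neg, hφ1, mul_one, Real.norm_of_nonneg (hω0 u),
          if_pos]
        · exact hω' u
        · push Not at h5
          obtain ⟨k, -, hk⟩ := h5
          exact mem_image.2 ⟨k, mem_univ k, hk⟩
    refine (sum_le_sum fun u _ => h4 u).trans ?_
    rw [sum_ite_mem, univ_inter, sum_const, nsmul_eq_mul]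
    refine mul_le_mul_of_nonneg_right ?_ hη
    exact_mod_cast card_image_le.trans (by simp)
  have e3 : ∑ u, ω u • rh_NdOsc τ (a i) a (univ.erase i) q u =
      ∑ u : p.Λ, ω u • (rh_NdOsc τ (a i) a (univ.erase i) q u - φ u) + ∑ u : p.Λ, ω u • φ u := by
    rw [← sum_add_distrib]
    exact sum_congr rfl fun u _ => by rw [← smul_add, sub_add_cancel]
  rw [e3]
  refine (norm_add_le _ _).trans ?_
  linarith

theorem twist_NdOsc (hJ : JacN) (hY : TinyN) (hW : WmN) {p : Par} {c : ℝ} {n r : ℕ} {D η : ℝ}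
    (hp : p.Ok c n r D η) {d : ℕ} (μ : Fin d → Fin 4) (hd : (d : ℝ) ≤ D) (i : Fin d)
    (hi : μ i = 3) (a : Fin d → ZMod 2) (ha : a ≠ 0) {h : Mx d → ℝ} (hh : ∀ r, |h r| ≤ 1)
    (ho : Off i h) {τ : ℝ} (hτ : |τ| ≤ c) :
    ‖Ex (U := fun _ => p.Λ) (wm p.Λ p.W μ) fun q => (∏ j, tw τ (q j)) * Ft_NdOsc i a h q‖ ≤
      (d + 1) * η := by
  obtain ⟨hη, hW⟩ := hW p c n r D η hp
  obtain ⟨hw, -, hle, hti, -⟩ := hW d μ
  have hi0 : μ i ≠ 0 := by
    rw [hi]
    decide
  have e1 : (Ex (U := fun _ => p.Λ) (wm p.Λ p.W μ) fun q =>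
      (∏ j, tw τ (q j)) * Ft_NdOsc i a h q) = Ex (U := fun _ => p.Λ) (wm p.Λ p.W μ) fun q =>
        ga_NdOsc τ i h q * ∑ u, wm p.Λ p.W μ i u • rh_NdOsc τ (a i) a (univ.erase i) q u := by
    rw [resample_ZaGcs hw i]
    refine congrArg _ (funext fun q => ?_)
    rw [mul_sum]
    exact sum_congr rfl fun u _ => by rw [factor_NdOsc τ i a ho, mul_smul_comm]
  rw [e1]
  by_cases hA : ∃ j, j ≠ i ∧ a j = 1 ∧ μ j ≠ 0
  · obtain ⟨j, hji, haj, hj0⟩ := hA
    rw [resample_ZaGcs hw j]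
    refine ex_le_NdOsc hw _ _ fun q _ => ?_
    have h1 := bil_NdOsc hp (μ i) (μ j) hi0 hj0
      (fun u => wm p.Λ p.W μ i u • rh_NdOsc τ (a i) a ((univ.erase i).erase j) q u)
      (fun v => wm p.Λ p.W μ j v • ga_NdOsc τ i h (Function.update q j v))
      (fun u => by
        rw [norm_smul, Real.norm_of_nonneg (hw.1 i u)]
        exact (mul_le_of_le_one_right (hw.1 i u) (norm_rh_NdOsc _ _ _ _ _ _)).trans
          (hle i u hi0).1)
      fun v => by
        rw [norm_smul, Real.norm_of_nonneg (hw.1 j v)]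
        exact (mul_le_of_le_one_right (hw.1 j v) (norm_ga_NdOsc _ _ hh _)).trans (hle j v hj0).1
    rw [sum_comm] at h1
    refine le_trans (le_trans (le_of_eq (congrArg _ (sum_congr rfl fun v _ => ?_))) h1) ?_
    · rw [mul_sum, smul_sum]
      refine sum_congr rfl fun u _ => ?_
      rw [jac_NdOsc hJ hp.pri τ (a i) a _ j (mem_erase.2 ⟨hji, mem_univ j⟩) haj]
      simp only [Complex.real_smul]
      ring
    · nlinarith [mul_nonneg (Nat.cast_nonneg (α := ℝ) d) hη]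
  · refine ex_le_NdOsc hw _ _ fun q hq => ?_
    by_cases hI : Ij_NdOsc i q
    · rw [norm_mul]
      refine (mul_le_of_le_one_left (norm_nonneg _) (norm_ga_NdOsc τ i hh q)).trans ?_
      refine tiny_NdOsc hY hp hη hd hτ i a ha q hI (fun k hk hak => (hti k _ (hq k)).1 ?_) _
        (fun u => by rw [wm, hi]) fun u => (hle i u hi0).2
      by_contra h1
      exact hA ⟨k, hk, hak, h1⟩
    · rw [ga_NdOsc, if_neg hI, mul_zero, zero_mul, norm_zero]
      positivity

theorem oscN (hQ : QrStmt) (hJ : JacN) (hY : TinyN) (hT : TwN) (hW : WmN) : OscN := by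
  intro p c n r D η hc hp y d μ hd
  obtain ⟨hη, hW'⟩ := hW p c n r D η hp
  obtain ⟨hw, -, -, -, hnu⟩ := hW' d μ
  obtain ⟨hk, hT⟩ := hT c hc p.Λ (fun l hl => (hp.pri l hl).1) d (wm p.Λ p.W μ) y
  refine ⟨by positivity, fun r => ?_, fun r hr => ?_, fun i hi a ha h hh ho => ?_⟩
  · refine sum_nonneg fun q _ => smul_nonneg (wt_nonneg_ZaGcs hw q) ?_
    dsimp only
    split_ifs
    · exact hk.1 q
    · exact le_rfl
  · obtain ⟨q, -, hq⟩ := exists_ne_zero_of_sum_ne_zero hr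
    have h1 : Function.Injective q ∧ lk2 (vl q) = r := by
      by_contra h2
      exact hq (by beta_reduce; rw [if_neg h2, smul_zero])
    have hP : ∀ j, Zk.P1 2 (vl q j) := fun j =>
      ⟨(hp.pri _ (q j).2).1, Nat.odd_iff.1 (hp.pri _ (q j).2).2⟩
    obtain ⟨h2, rfl⟩ := h1
    intro i j hij
    simp only [lk2, if_true, if_neg hij, if_neg hij.symm]
    rw [hQ.1 _ _ (hP j) (hP i) fun e => hij (h2 (Subtype.ext e.symm)), mul_comm]
  · rw [hnu c y fun r => h r * Zq.sg (∑ j, a j * r i j), ← Real.norm_eq_abs, ← Complex.norm_real]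
    refine le_trans (le_of_eq (congrArg _ ?_)) (hT (Ft_NdOsc i a h) _ fun τ hτ =>
      twist_NdOsc hJ hY hW hp μ hd i (mem_filter.1 hi).2 a ha hh ho hτ)
    unfold Ex
    rw [Complex.ofReal_sum]
    refine sum_congr rfl fun q _ => ?_
    rw [smul_eq_mul, Complex.ofReal_mul, Complex.real_smul]
    refine congrArg _ ?_
    unfold Ft_NdOsc
    beta_reduce
    by_cases hq : Function.Injective q
    · rw [if_pos hq, if_pos hq, Complex.ofReal_mul]
    · rw [if_neg hq, if_neg hq, mul_zero, Complex.ofReal_zero]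

end Pool.Agent.MP_f68ac8_nt.Nd

end
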