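import Mathlib
import Pool.Agent.Mg.Fe23604m.Ga53936

set_option linter.all false

namespace Pool.Agent.MP_f68ac8_nt.Nd
open Finset Filter
open Zv (Ex Prob)
open scoped BigOperators

lemma rpow_lb_NeMlo {l y : ℝ} (hl : 1 ≤ l) (hly : l ≤ y) (hy : 1 < y) :
    1 / l ≤ 3 * l ^ (-(1 + 1 / Real.log y)) := by
  have hl0 : 0 < l := by linarith
  have hlog : 0 < Real.log y := Real.log_pos hy
  have h1 : l ^ (1 / Real.log y) ≤ 3 := by
    rw [Real.rpow_def_of_pos hl0]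
    have : Real.log l * (1 / Real.log y) ≤ 1 := by
      rw [mul_one_div, div_le_one hlog]; exact Real.log_le_log hl0 hly
    calc Real.exp _ ≤ Real.exp 1 := Real.exp_le_exp.2 this
      _ ≤ 3 := by have := Real.exp_one_lt_d9; linarith
  have h2 : l ^ (-(1 + 1 / Real.log y)) = 1 / l * (l ^ (1 / Real.log y))⁻¹ := by
    rw [Real.rpow_neg hl0.le, Real.rpow_add hl0, Real.rpow_one, mul_inv, one_div l]
  rw [h2]
  have h3 : 0 < l ^ (1 / Real.log y) := Real.rpow_pos_of_pos hl0 _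
  have h4 : 1 ≤ 3 * (l ^ (1 / Real.log y))⁻¹ := by
    rw [← div_eq_mul_inv, le_div_iff₀ h3]; linarith
  have h5 : 0 < 1 / l := by positivity
  nlinarith

lemma up_NeMlo (hM : MertStmt) {y : ℝ} (hy : 1 < y) (A : Finset ℕ)
    (hA : ∀ l ∈ A, l.Prime ∧ (l : ℝ) ≤ y) :
    ∑ l ∈ A, (1 : ℝ) / l ≤ 3 * Real.log (1 + Real.log y) := by
  have hlog : 0 < Real.log y := Real.log_pos hy
  have h := hM.2 (1 / Real.log y) A (by positivity) fun l hl => (hA l hl).1
  rw [one_div_one_div] at h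
  calc ∑ l ∈ A, (1 : ℝ) / l ≤ ∑ l ∈ A, 3 * (l : ℝ) ^ (-(1 + 1 / Real.log y)) := by
        refine sum_le_sum fun l hl => rpow_lb_NeMlo ?_ (hA l hl).2 hy
        exact_mod_cast (hA l hl).1.one_le
    _ = 3 * ∑ l ∈ A, (l : ℝ) ^ (-(1 + 1 / Real.log y)) := by rw [mul_sum]
    _ ≤ _ := by linarith

/-- primes of an interval outside a finite set -/
noncomputable def S_NeMlo (a b : ℝ) (F : Finset ℕ) : Finset ℕ :=
  (range (⌊b⌋₊ + 1)).filter fun l => l.Prime ∧ a < l ∧ l ∉ F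

lemma mem_S_NeMlo {a b : ℝ} {F : Finset ℕ} {l : ℕ} (hb : 0 ≤ b) (h : l ∈ S_NeMlo a b F) :
    l.Prime ∧ a < l ∧ (l : ℝ) ≤ b ∧ l ∉ F := by
  simp only [S_NeMlo, mem_filter, mem_range] at h
  refine ⟨h.2.1, h.2.2.1, ?_, h.2.2.2⟩
  have : l ≤ ⌊b⌋₊ := by omega
  exact (Nat.le_floor_iff hb).1 this

lemma union_le_NeMlo (f : ℕ → ℝ) (hf : ∀ l, 0 ≤ f l) (s t : Finset ℕ) :
    ∑ l ∈ s ∪ t, f l ≤ ∑ l ∈ s, f l + ∑ l ∈ t, f l := by
  have h := sum_union_inter (s₁ := s) (s₂ := t) (f := f)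
  have h2 : 0 ≤ ∑ l ∈ s ∩ t, f l := sum_nonneg fun l _ => hf l
  linarith

lemma low_NeMlo (hM : MertStmt) {a b : ℝ} (ha : 1 < a) (hb : 2 ≤ b) (F : Finset ℕ) :
    Real.log (Real.log b) - 1 - 3 * Real.log (1 + Real.log a) - F.card ≤
      ∑ l ∈ S_NeMlo a b F, (1 : ℝ) / l := by
  have h1 := hM.1 b hb
  set Q := (range (⌊b⌋₊ + 1)).filter Nat.Prime with hQ
  have hf : ∀ l : ℕ, 0 ≤ (1 : ℝ) / l := fun l => by positivity
  have hsub : Q ⊆ S_NeMlo a b F ∪ (Q.filter (fun l : ℕ => (l : ℝ) ≤ a) ∪ F) := by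
    intro l hl
    have hl' := hl
    simp only [hQ, mem_filter] at hl'
    by_cases h2 : l ∈ F
    · exact mem_union_right _ (mem_union_right _ h2)
    by_cases h3 : (l : ℝ) ≤ a
    · exact mem_union_right _ (mem_union_left _ (mem_filter.2 ⟨hl, h3⟩))
    · exact mem_union_left _ (mem_filter.2 ⟨hl'.1, hl'.2, not_le.1 h3, h2⟩)
  have h2 := sum_le_sum_of_subset_of_nonneg hsub (f := fun l : ℕ => (1 : ℝ) / l)
    fun l _ _ => hf l
  have h3 := union_le_NeMlo (fun l : ℕ => (1 : ℝ) / l) hf (S_NeMlo a b F)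
    (Q.filter (fun l : ℕ => (l : ℝ) ≤ a) ∪ F)
  have h4 := union_le_NeMlo (fun l : ℕ => (1 : ℝ) / l) hf (Q.filter (fun l : ℕ => (l : ℝ) ≤ a)) F
  have h5 := up_NeMlo hM ha (Q.filter (fun l : ℕ => (l : ℝ) ≤ a)) fun l hl => by
    simp only [hQ, mem_filter] at hl
    exact ⟨hl.1.2, hl.2⟩
  have h6 : ∑ l ∈ F, (1 : ℝ) / l ≤ F.card := by
    calc ∑ l ∈ F, (1 : ℝ) / l ≤ ∑ l ∈ F, (1 : ℝ) := by
          refine sum_le_sum fun l _ => ?_
          rcases Nat.eq_zero_or_pos l with h | h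
          · simp [h]
          · rw [div_le_one (by exact_mod_cast h)]; exact_mod_cast h
      _ = F.card := by simp
  linarith

lemma mass_NeMlo (Λ S : Finset ℕ) (w : ℕ → ℝ) (c : ℝ) (hS : S ⊆ Λ) (hw : ∀ l ∈ Λ, 0 ≤ w l)
    (hc : ∀ l ∈ S, c * (1 / l) ≤ w l) : c * ∑ l ∈ S, (1 : ℝ) / l ≤ ∑ l ∈ Λ, w l := by
  rw [mul_sum]
  exact (sum_le_sum hc).trans (sum_le_sum_of_subset_of_nonneg hS fun l hl _ => hw l hl)

lemma wl_bd_NeMlo (s h : ℝ) (k l : ℕ) (hh : 0 ≤ h) (hl : l.Prime) :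
    0 ≤ wl s h k l ∧ wl s h k l ≤ (l : ℝ) ^ (-s) * (1 - (l : ℝ) ^ (-h)) := by
  have hl1 : (1 : ℝ) ≤ l := by exact_mod_cast hl.one_le
  have hx0 : 0 ≤ (l : ℝ) ^ (-h) := by positivity
  have hx1 : (l : ℝ) ^ (-h) ≤ 1 := Real.rpow_le_one_of_one_le_of_nonpos hl1 (by linarith)
  have hs : 0 ≤ (l : ℝ) ^ (-s) := by positivity
  simp only [wl, if_pos hl]
  refine ⟨mul_nonneg hs (pow_nonneg (by linarith) _), mul_le_mul_of_nonneg_left ?_ hs⟩
  rw [pow_succ]
  have : (1 - (l : ℝ) ^ (-h)) ^ k ≤ 1 := pow_le_one₀ (by linarith) (by linarith)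
  nlinarith

lemma log_one_add_NeMlo {x : ℝ} (hx : 0 ≤ x) : Real.log (1 + Real.exp x) ≤ 1 + x := by
  have h1 : 1 ≤ Real.exp x := Real.one_le_exp hx
  have h2 : 1 + Real.exp x ≤ Real.exp (1 + x) := by
    rw [Real.exp_add]
    have := Real.add_one_le_exp (1 : ℝ)
    nlinarith
  calc Real.log (1 + Real.exp x) ≤ Real.log (Real.exp (1 + x)) :=
        Real.log_le_log (by linarith) h2
    _ = 1 + x := Real.log_exp _

lemma log_lin_NeMlo {y M : ℝ} (hy : 0 < y) (hM : 0 < M) :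
    Real.log y ≤ Real.log M + y / M := by
  have h := Real.log_le_sub_one_of_pos (div_pos hy hM)
  rw [Real.log_div hy.ne' hM.ne'] at h
  linarith

lemma LL_tendsto_NeMlo : Tendsto LL atTop atTop :=
  Real.tendsto_log_atTop.comp (Real.tendsto_log_atTop.comp tendsto_natCast_atTop_atTop)

theorem mlo_stmt (hM : MertStmt) : MloStmt := by
  intro δ A k r hδ hδ1 hA
  set M : ℝ := 96 * A / δ with hMdef
  have hM0 : 0 < M := by positivity
  filter_upwards [eventually_ge_atTop 5, LL_tendsto_NeMlo.eventually_ge_atTop 5,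
    LL_tendsto_NeMlo.eventually_ge_atTop (128 * A / δ ^ 2),
    LL_tendsto_NeMlo.eventually_ge_atTop (32 / δ * (2 + r + 3 * Real.log M + 3 / M)),
    LL_tendsto_NeMlo.eventually_ge_atTop (48 / δ),
    LL_tendsto_NeMlo.eventually_ge_atTop (2 * (5 + 3 * 2 ^ (k + 1)))]
    with X hX hL5 hLZ hLs hLm hLl
  intro E p₀ X' hE hX' p
  have hX5 : (5 : ℝ) ≤ X := by exact_mod_cast hX
  have hXX' : (X : ℝ) ≤ X' := by exact_mod_cast hX'
  set T := Real.log X with hT
  have hT0 : 0 < T := Real.log_pos (by linarith)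
  set L := LL X with hL
  have hLT : L = Real.log T := rfl
  have hTL : T = Real.exp L := by rw [hLT, Real.exp_log hT0]
  have hXT : (X : ℝ) = Real.exp T := by rw [hT, Real.exp_log (by linarith)]
  have hpow : ∀ a : ℝ, T ^ a = Real.exp (a * L) := fun a => by
    rw [Real.rpow_def_of_pos hT0, hLT, mul_comm]
  have hps : p.s = 1 + 1 / Real.log X := rfl
  have hph : p.h = Real.exp (-δ * L) := hpow _
  have hpZ : p.Z = Real.exp (A * L) := hpow _
  have hpY : p.Y = Real.exp (Real.exp (δ / 8 * L)) := by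
    rw [← hpow]; rfl
  have hpE : p.E = E := rfl
  have hpk : p.k = k := rfl
  have hΛ : ∀ l, l ∈ p.Λ ↔ l < X' + 1 ∧ l.Prime ∧ Odd l ∧ l ≠ p₀ := fun l => by
    show l ∈ (range (X' + 1)).filter (fun l => l.Prime ∧ Odd l ∧ l ≠ p₀) ↔ _
    rw [mem_filter, mem_range]
  set V := Real.exp (Real.exp (δ * L)) with hV
  have hδL : 48 ≤ δ * L := by
    rw [div_le_iff₀ hδ] at hLm; linarith
  have hZ5 : 5 ≤ p.Z := by
    rw [hpZ]
    have := Real.add_one_le_exp (A * L)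
    nlinarith
  have hZY : p.Z ≤ p.Y := by
    rw [hpZ, hpY, Real.exp_le_exp]
    have h1 := Real.quadratic_le_exp_of_nonneg (x := δ / 8 * L) (by positivity)
    rw [div_le_iff₀ (by positivity)] at hLZ
    have h2 : 128 * A * L ≤ L * δ ^ 2 * L := mul_le_mul_of_nonneg_right hLZ (by linarith)
    nlinarith
  have hYV : p.Y ≤ V := by
    rw [hpY, hV, Real.exp_le_exp, Real.exp_le_exp]; linarith
  have hVX : V ≤ X := by
    rw [hXT, hTL, hV, Real.exp_le_exp, Real.exp_le_exp]; nlinarith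
  have hmem : ∀ l : ℕ, l.Prime → p.Z < l → (l : ℝ) ≤ X → l ≠ p₀ → l ∈ p.Λ := by
    intro l hl h1 h2 h3
    have h4 : l ≤ X' := by exact_mod_cast h2.trans hXX'
    have h5 : 2 < l := by exact_mod_cast (show ((2 : ℕ) : ℝ) < l by push_cast; linarith)
    exact (hΛ l).2 ⟨by omega, hl, hl.odd_of_ne_two (by omega), h3⟩
  have hsl : ∀ l : ℕ, l.Prime → (l : ℝ) ≤ X → 1 / (l : ℝ) ≤ 3 * (l : ℝ) ^ (-p.s) := by
    intro l hl h2
    rw [hps]
    exact rpow_lb_NeMlo (by exact_mod_cast hl.one_le) h2 (by linarith)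
  have hh0 : 0 ≤ p.h := by rw [hph]; positivity
  have hVh : V ^ (-p.h) = Real.exp (-1) := by
    rw [hV, ← Real.exp_mul, hph, mul_neg, ← Real.exp_add]; simp
  have he1 : 1 / 3 ≤ Real.exp (-1) := by
    rw [Real.exp_neg, one_div]
    exact inv_anti₀ (Real.exp_pos 1) (by have := Real.exp_one_lt_d9; linarith)
  have he2 : Real.exp (-1) ≤ 1 / 2 := by
    rw [Real.exp_neg, one_div]
    exact inv_anti₀ (by norm_num) (by have := Real.add_one_le_exp (1 : ℝ); linarith)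
  have hsmX : ∀ l ∈ p.sm, (l : ℝ) ≤ X := fun l hl =>
    (mem_filter.1 hl).2.2.1.trans (hYV.trans hVX)
  have hsmall : δ * L / 16 ≤ ∑ l ∈ p.sm, (1 : ℝ) / l := by
    have h1 := low_NeMlo hM (a := p.Z) (b := p.Y) (by linarith) (by linarith) (insert p₀ E)
    have h2 : S_NeMlo p.Z p.Y (insert p₀ E) ⊆ p.sm := by
      intro l hl
      obtain ⟨a1, a2, a3, a4⟩ := mem_S_NeMlo (by linarith) hl
      rw [mem_insert, not_or] at a4
      exact mem_filter.2 ⟨hmem l a1 a2 (a3.trans (hYV.trans hVX)) a4.1, a2, a3, a4.2⟩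
    have h3 := sum_le_sum_of_subset_of_nonneg h2 (f := fun l : ℕ => (1 : ℝ) / l)
      fun l _ _ => by positivity
    have h4 : ((insert p₀ E).card : ℝ) ≤ r + 1 := by
      exact_mod_cast (card_insert_le p₀ E).trans (by omega)
    have h5 : Real.log (Real.log p.Y) = δ / 8 * L := by rw [hpY, Real.log_exp, Real.log_exp]
    have h6 : Real.log p.Z = A * L := by rw [hpZ, Real.log_exp]
    have h7 := log_lin_NeMlo (y := 1 + A * L) (by positivity) hM0
    have h8 : (1 + A * L) / M = 1 / M + δ * L / 96 := by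
      rw [hMdef]; field_simp
    have h9 : 2 + r + 3 * Real.log M + 3 / M ≤ δ * L / 32 := by
      have := mul_le_mul_of_nonneg_left hLs (show 0 ≤ δ / 32 by positivity)
      have e : δ / 32 * (32 / δ * (2 + r + 3 * Real.log M + 3 / M)) =
          2 + r + 3 * Real.log M + 3 / M := by field_simp
      linarith
    have h10 : 3 / M = 3 * (1 / M) := by ring
    rw [h5, h6] at h1
    linarith
  refine ⟨?_, ?_, fun l hl => by exact_mod_cast hsmX l hl, hsmall⟩
  · have hex : ∃ l, l ∈ p.ti := by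
      by_cases h3 : p₀ = 3
      · refine ⟨5, mem_filter.2 ⟨(hΛ 5).2 ⟨by omega, by norm_num, by decide, by omega⟩, ?_⟩⟩
        push_cast; linarith
      · refine ⟨3, mem_filter.2 ⟨(hΛ 3).2 ⟨by omega, by norm_num, by decide, by omega⟩, ?_⟩⟩
        push_cast; linarith
    obtain ⟨l, hl⟩ := hex
    have hlΛ : l ∈ p.Λ := (mem_filter.1 hl).1
    refine sum_pos' (fun l _ => ?_) ⟨l, hlΛ, ?_⟩
    · show 0 ≤ if l ∈ p.ti then (l : ℝ) ^ (-p.s) else 0
      split_ifs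
      · positivity
      · exact le_rfl
    · show 0 < if l ∈ p.ti then (l : ℝ) ^ (-p.s) else 0
      rw [if_pos hl]
      exact Real.rpow_pos_of_pos (by exact_mod_cast ((hΛ l).1 hlΛ).2.1.pos) _
  · intro m hm
    match m, hm with
    | 0, hm => exact absurd rfl hm
    | 1, _ =>
      have h1 := mass_NeMlo p.Λ p.sm (p.W 1) (1 / 3) (filter_subset _ _) (fun l _ => by
        show 0 ≤ if l ∈ p.sm then (l : ℝ) ^ (-p.s) else 0
        split_ifs
        · positivity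
        · exact le_rfl) (fun l hl => by
        show _ ≤ if l ∈ p.sm then (l : ℝ) ^ (-p.s) else 0
        rw [if_pos hl]
        have := hsl l ((hΛ l).1 (mem_filter.1 hl).1).2.1 (hsmX l hl)
        linarith)
      show 1 ≤ ∑ l ∈ p.Λ, p.W 1 l
      linarith
    | 2, _ =>
      have hS : ∀ l ∈ S_NeMlo p.Y V {p₀}, l.Prime ∧ p.Y < l ∧ (l : ℝ) ≤ V ∧ l ∈ p.Λ := by
        intro l hl
        obtain ⟨a1, a2, a3, a4⟩ := mem_S_NeMlo (by linarith) hl
        exact ⟨a1, a2, a3, hmem l a1 (by linarith) (a3.trans hVX) (by simpa using a4)⟩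
      have h1 := mass_NeMlo p.Λ (S_NeMlo p.Y V {p₀}) (p.W 2) (1 / 9)
        (fun l hl => (hS l hl).2.2.2) (fun l hl => by
        show 0 ≤ if l ∈ p.ti ∨ l ∈ p.sm ∨ l ∉ p.Λ then 0 else
          if l ∈ p.lg then (l : ℝ) ^ (-p.s) - wl p.s p.h p.k l else (l : ℝ) ^ (-p.s)
        have hl1 := ((hΛ l).1 hl).2.1
        have h2 := (wl_bd_NeMlo p.s p.h p.k l hh0 hl1).2
        have h3 : 0 ≤ (l : ℝ) ^ (-p.s) * (l : ℝ) ^ (-p.h) := by positivity
        split_ifs
        · exact le_rfl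
        · linarith
        · positivity) (fun l hl => by
        show _ ≤ if l ∈ p.ti ∨ l ∈ p.sm ∨ l ∉ p.Λ then 0 else
          if l ∈ p.lg then (l : ℝ) ^ (-p.s) - wl p.s p.h p.k l else (l : ℝ) ^ (-p.s)
        obtain ⟨a1, a2, a3, a4⟩ := hS l hl
        have b1 : ¬(l ∈ p.ti ∨ l ∈ p.sm ∨ l ∉ p.Λ) := by
          rintro (h | h | h)
          · have := (mem_filter.1 h).2; linarith
          · have := (mem_filter.1 h).2.2.1; linarith
          · exact h a4
        have b2 : l ∈ p.lg := mem_filter.2 ⟨a4, a2⟩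
        rw [if_neg b1, if_pos b2]
        have h2 := (wl_bd_NeMlo p.s p.h p.k l hh0 a1).2
        have h3 := hsl l a1 (a3.trans hVX)
        have h4 : V ^ (-p.h) ≤ (l : ℝ) ^ (-p.h) :=
          Real.rpow_le_rpow_of_nonpos (by linarith) a3 (by linarith)
        have h5 : 0 ≤ (l : ℝ) ^ (-p.s) := by positivity
        have h6 : (l : ℝ) ^ (-p.s) * (1 / 3) ≤ (l : ℝ) ^ (-p.s) * (l : ℝ) ^ (-p.h) :=
          mul_le_mul_of_nonneg_left (by linarith) h5
        linarith)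
      have h2 := low_NeMlo hM (a := p.Y) (b := V) (by linarith) (by linarith) {p₀}
      have h5 : Real.log (Real.log V) = δ * L := by rw [hV, Real.log_exp, Real.log_exp]
      have h6 : Real.log p.Y = Real.exp (δ / 8 * L) := by rw [hpY, Real.log_exp]
      have h7 := log_one_add_NeMlo (x := δ / 8 * L) (by positivity)
      rw [h5, h6, card_singleton] at h2
      show 1 ≤ ∑ l ∈ p.Λ, p.W 2 l
      push_cast at h2
      linarith
    | 3, _ =>
      have hS : ∀ l ∈ S_NeMlo V X {p₀}, l.Prime ∧ V < l ∧ (l : ℝ) ≤ X ∧ l ∈ p.Λ := by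
        intro l hl
        obtain ⟨a1, a2, a3, a4⟩ := mem_S_NeMlo (by linarith) hl
        exact ⟨a1, a2, a3, hmem l a1 (by linarith) a3 (by simpa using a4)⟩
      have h1 := mass_NeMlo p.Λ (S_NeMlo V X {p₀}) (p.W 3) (1 / 3 * (1 / 2) ^ (k + 1))
        (fun l hl => (hS l hl).2.2.2) (fun l hl => by
        show 0 ≤ if l ∈ p.lg then wl p.s p.h p.k l else 0
        split_ifs
        · exact (wl_bd_NeMlo p.s p.h p.k l hh0 ((hΛ l).1 hl).2.1).1
        · exact le_rfl) (fun l hl => by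
        show _ ≤ if l ∈ p.lg then wl p.s p.h p.k l else 0
        obtain ⟨a1, a2, a3, a4⟩ := hS l hl
        have b2 : l ∈ p.lg := mem_filter.2 ⟨a4, by linarith⟩
        rw [if_pos b2, wl, if_pos a1, hpk]
        have h3 := hsl l a1 a3
        have h4 : (l : ℝ) ^ (-p.h) ≤ V ^ (-p.h) :=
          Real.rpow_le_rpow_of_nonpos (by linarith) a2.le (by linarith)
        have h5 : (1 / 2 : ℝ) ^ (k + 1) ≤ (1 - (l : ℝ) ^ (-p.h)) ^ (k + 1) :=
          pow_le_pow_left₀ (by norm_num) (by linarith) _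
        have h6 : 0 ≤ (l : ℝ) ^ (-p.s) := by positivity
        have h7 : 0 ≤ (1 / 2 : ℝ) ^ (k + 1) := by positivity
        calc 1 / 3 * (1 / 2 : ℝ) ^ (k + 1) * (1 / l) = (1 / 3 * (1 / l)) * (1 / 2) ^ (k + 1) := by
              ring
          _ ≤ (l : ℝ) ^ (-p.s) * (1 / 2) ^ (k + 1) :=
              mul_le_mul_of_nonneg_right (by linarith) h7
          _ ≤ _ := mul_le_mul_of_nonneg_left h5 h6)
      have h2 := low_NeMlo hM (a := V) (b := X) (by linarith) (by linarith) {p₀}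
      have h5 : Real.log (Real.log X) = L := rfl
      have h6 : Real.log V = Real.exp (δ * L) := by rw [hV, Real.log_exp]
      have h7 := log_one_add_NeMlo (x := δ * L) (by positivity)
      rw [h5, h6, card_singleton] at h2
      show 1 ≤ ∑ l ∈ p.Λ, p.W 3 l
      push_cast at h2
      have h8 : δ * L ≤ 1 / 100 * L := mul_le_mul_of_nonneg_right hδ1 (by linarith)
      have h9 : 3 * 2 ^ (k + 1) ≤ ∑ l ∈ S_NeMlo V X {p₀}, (1 : ℝ) / l := by linarith
      have h10 := mul_le_mul_of_nonneg_left h9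
        (show 0 ≤ 1 / 3 * (1 / 2 : ℝ) ^ (k + 1) by positivity)
      have h11 : 1 / 3 * (1 / 2 : ℝ) ^ (k + 1) * (3 * 2 ^ (k + 1)) = 1 := by
        rw [one_div_pow]; field_simp
      linarith

end Pool.Agent.MP_f68ac8_nt.Nd
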