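import Mathlib
import Pool.Agent.Mg.Fe23604m.G170b11
import Pool.Agent.Mg.Fe23604m.G200097
import Pool.Agent.MP_f68ac8_nt.NaAux

set_option linter.all false

section

/-! The error terms are small, with some equations removed. -/

namespace Pool.Agent.MP_f68ac8_nt.Zq

open Zv Zk Matrix Finset
open scoped commutatorElement
open scoped BigOperators

section
variable {d : ℕ} {U : Fin d → Type} {P : Type} [Group P]

theorem Yw_dr_ZqErr (J : Finset (Fin d)) (y : (Σ j, U j) → FreeGroup (Σ j, U j)) (q : ∀ j, U j)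
    (x : Fin d → P) (j : Fin d) : Yw (dr J y) q x j = if j ∈ J then 1 else Yw y q x j := by
  unfold Yw dr
  split_ifs with h
  · exact map_one _
  · rfl

theorem rr_dr_ZqErr (J : Finset (Fin d)) (y : (Σ j, U j) → FreeGroup (Σ j, U j)) (q : ∀ j, U j)
    (p : ℕ) (j k : Fin d) : rr (dr J y) q p j k = if j ∈ J then 0 else rr y q p j k := by
  unfold rr dr
  split_ifs with h
  · rw [map_one, toAdd_one]
  · rfl

theorem datEq_dr_ZqErr {p : ℕ} (J : Finset (Fin d)) {S : Finset (Fin d)} {x : Fin d → P}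
    {y g : (Σ j, U j) → FreeGroup (Σ j, U j)} {q q' : ∀ j, U j} (h : DatEq p S x y g q q') :
    DatEq p S x (dr J y) g q q' := by
  refine ⟨fun i K hK => ⟨?_, (h.1 i K hK).2⟩, funext fun j => funext fun k => ?_⟩
  · rw [Yw_dr_ZqErr, Yw_dr_ZqErr, (h.1 i K hK).1]
  · rw [rr_dr_ZqErr, rr_dr_ZqErr, h.2]

theorem Ob_dr_ZqErr {p : ℕ} (D : Gd p P) {J : Finset (Fin d)}
    (y : (Σ j, U j) → FreeGroup (Σ j, U j)) (q : ∀ j, U j) (l : ℕ) (x : Fin d → P)
    {z : Fin d → V p (D.k (l + 1 + 1))} (hz : ∀ j ∈ J, z j = 0) :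
    Ob (dr J y) q D l x z = Ob y q D l x z := by
  unfold Ob
  refine sum_congr rfl fun j _ => ?_
  by_cases h : j ∈ J
  · rw [hz j h, zero_dotProduct, zero_dotProduct]
  · rw [Yw_dr_ZqErr, if_neg h]

theorem Yw_conj_dr_ZqErr {J : Finset (Fin d)} (y g : (Σ j, U j) → FreeGroup (Σ j, U j))
    (q : ∀ j, U j) (x : Fin d → P) {t : Fin d} (ht : t ∉ J) :
    Yw (g * dr J y * g⁻¹) q x t = Yw (g * y * g⁻¹) q x t := by
  unfold Yw
  simp only [Pi.mul_apply, dr, if_neg ht]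

end

open Classical in
theorem err_gen_ZqErr (p : ℕ) [Fact p.Prime] (hB : BoxStmt) (hM : MomStmt) (hU : UnifStmt)
    (hS : SpanStmt p) (hL : Zk.LcStmt p) (hT : Zk.ShiftStmt p) :
    AllP p fun P _ _ T D La L l => ∀ (d : ℕ) (ε : ℝ), 0 < ε → ∃ η, 0 < η ∧
    ∀ (U : Fin d → Type) [∀ j, Fintype (U j)] (w : ∀ j, U j → ℝ) (Y : Type) [Fintype Y]
      [Nonempty Y] (y : (Σ j, U j) → Y → FreeGroup (Σ j, U j)), Prob w → (∀ j u, w j u ≤ η) →
      EQ p P w y η → ∀ i (x : Fin d → P) z (C : (Fin d → Fin d → ZMod p) → Prop)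
      (J : (Fin d → Fin d → ZMod p) → Finset (Fin d)), l ≤ i →
      i + p + 1 ≤ L → Cand T i x → (∀ j, z j ∈ La i (tyOf D x j)) → Rich (tyOf D x) (i + 1) z →
      (∀ r, C r → ∀ j ∈ J r, z j = 0) →
      ‖𝔼 a : (Σ j, U j) → Y, Ex w fun q =>
        if C (rr (fun u => y u (a u)) q p) ∧
          Eqs (dr (J (rr (fun u => y u (a u)) q p)) (fun u => y u (a u))) q T i x then
          (ZMod.stdAddChar (Ob (fun u => y u (a u)) q D i x z) : ℂ) else 0‖ ≤ ε := by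
  intro P _ _ T D La L l n h d ε hε
  have hp : (1 : ℝ) ≤ p := by exact_mod_cast (Fact.out : p.Prime).one_le
  have hC1 : (1 : ℝ) ≤ (p : ℝ) ^ Fintype.card (Ix_ZkErr d P p) := one_le_pow₀ hp
  have hε' : 0 < ε / p := by positivity
  obtain ⟨η, hη0, hη⟩ := eta_ZaErr d hC1 hε'
  refine ⟨η, hη0, ?_⟩
  intro U _ w Y _ _ y hw hwη hE i x z C J hli hiL hx hz hR hJ
  have hi : 1 ≤ i := h.ts.pos.trans hli
  obtain ⟨t, s, ψ, hψ, s1, s2, s3, a1, a2, a3⟩ := sel_ZkErr hS h hli hiL hx hz hR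
  have hzt : z t ≠ 0 := fun h0 => a3 (by rw [hψ, h0, zero_dotProduct])
  obtain ⟨φ, hφ⟩ := ext_ZkErr _ ψ a1
  obtain ⟨𝓡, _, _, σ, hσ⟩ := bx_ZkErr (p := p) (U := U) (P := P) hM hU
  have hc : s.toFinset.card = i + 1 := by rw [List.toFinset_card_of_nodup s1, s2]
  have hlt : ∀ j ∈ s.toFinset, j < t := fun j hj => (s3 j (List.mem_toFinset.1 hj)).1
  have ht : t ∉ s.toFinset := fun h => lt_irrefl _ (hlt t h)
  have hb := hσ y hw hwη hη0.le hE x φ hlt fun q₀ q₁ hq =>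
    hT P T L l n h.ts d U x s ψ φ s1 (List.ne_nil_of_length_eq_add_one s2) (s2 ▸ a1) (s2 ▸ a2)
      (s2 ▸ hφ) a3 q₀ q₁ fun j hj => hq j (List.mem_toFinset.2 hj)
  have key : ∀ (y g : (Σ j, U j) → FreeGroup (Σ j, U j)) (q : ∀ j, U j),
      (if C (rr y q p) ∧ Eqs (dr (J (rr y q p)) y) q T i x then
          (ZMod.stdAddChar (Ob y q D i x z) : ℂ) else 0) =
      ∑ c : ZMod p, if C (rr y q p) ∧ Eqs (dr (J (rr y q p)) y) q T i x ∧
        Ob y q D i x z - φ (Yw (g * y * g⁻¹) q (msk s.toFinset x) t) = c then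
        ZMod.stdAddChar (c + φ (Yw (g * y * g⁻¹) q (msk s.toFinset x) t)) else 0 := by
    intro y g q
    split_ifs with h1
    · simp only [h1.1, h1.2, true_and, sum_ite_eq, mem_univ, if_true, sub_add_cancel]
    · exact (sum_eq_zero fun c _ => if_neg fun h2 => h1 ⟨h2.1, h2.2.1⟩).symm
  rw [expect_fst_ZkErr (R := 𝓡), expect_congr rfl fun (a : (Σ j, U j) → Y × 𝓡) _ =>
    (congrArg (Ex w) (funext (key _ fun u => σ (a u).2))).trans (Ex_sum_ZkErr w _),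
    expect_sum_comm]
  refine (norm_sum_le _ _).trans ((sum_le_card_nsmul _ _ (ε / p) fun c _ => ?_).trans_eq ?_)
  · refine (pow_le_pow_iff_left₀ (norm_nonneg _) hε'.le
      (pow_pos two_pos (s.toFinset.card + 1)).ne').1 ((jensen_ZaErr _ _).trans ?_)
    refine (expect_le_expect fun a _ => box_ZkErr hB hw ht (by omega) x (fun u => y u (a u).1)
      (fun u => σ (a u).2) _ c _ fun q q' hq hQ => ?_).trans ?_
    · have hJ0 := hJ _ hQ.1
      have htJ : t ∉ J (rr (fun u => y u (a u).1) q p) := fun h0 => hzt (hJ0 t h0)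
      obtain ⟨k1, k2⟩ := hL P T L l n h.ts D h.gd d U i _ t x z φ hi hc ht
        (fun j hj => (s3 j (List.mem_toFinset.1 hj)).2) (fun c hc g => by rw [hφ c hc, hψ])
        _ _ q q' (datEq_dr_ZqErr _ hq) hQ.2.1
      rw [Ob_dr_ZqErr D _ _ _ _ hJ0, Ob_dr_ZqErr D _ _ _ _ hJ0, Yw_conj_dr_ZqErr _ _ _ _ htJ,
        Yw_conj_dr_ZqErr _ _ _ _ htJ] at k2
      exact ⟨hq.2 ▸ hQ.1, hq.2 ▸ k1, k2 ▸ hQ.2.2⟩
    · rw [← mul_expect]
      exact le_trans (mul_le_mul_of_nonneg_left hb (by positivity))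
        (hη _ ((card_le_univ _).trans_eq (Fintype.card_fin d)))
  · rw [card_univ, ZMod.card, nsmul_eq_mul, mul_div_cancel₀ _ (by positivity)]

theorem err_stmt (hB : BoxStmt) (hM : MomStmt) (hU : UnifStmt) (hS : SpanStmt 2)
    (hL : Zk.LcStmt 2) (hT : Zk.ShiftStmt 2) : ErrStmt :=
  err_gen_ZqErr 2 hB hM hU hS hL hT

end Pool.Agent.MP_f68ac8_nt.Zq

end

section

/-! The error terms are small, with explicit constants. -/

namespace Pool.Agent.MP_f68ac8_nt.Nd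

open Zq Zv Zk Matrix Finset
open scoped commutatorElement
open scoped BigOperators

section
variable {d : ℕ} {P : Type} [Group P]

theorem sel_NcErr [Fintype P] (hS : SpanStmt 2) {T : Fil 2 P} {D : Gd 2 P} {La : LaT D}
    {L l n i : ℕ} (h : Pk T D La L l n) (hl : l ≤ i) (hL : i + 2 + 1 ≤ L) {x : Fin d → P}
    {z : Fin d → V 2 (D.k (i + 1 + 1))} (hx : Cand T i x) (hz : ∀ j, z j ∈ La i (tyOf D x j))
    {Sm Lg : Finset (Fin d)} (hR : RichS Sm Lg (tyOf D x) (i + 1) z) :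
    ∃ t ∈ Lg, ∃ (s : List (Fin d)) (ψ : P → ZMod 2),
      (∀ c, ψ c = z t ⬝ᵥ D.b (i + 1) (tyOf D x t) (D.e (i + 1) c)) ∧ s.Nodup ∧
      s.length = i + 1 ∧ (∀ j ∈ s, j ∈ Sm ∧ z j = 0) ∧
      (∀ g ∈ T.F (i + 1), ∀ h ∈ T.F (i + 1), ψ (g * h) = ψ g + ψ h) ∧
      (∀ g ∈ T.F (i + 1 + 1), ψ g = 0) ∧ ψ (brL (s.map x)) ≠ 0 := by
  classical
  obtain ⟨t, htL, ht, hR⟩ := hR
  have hi : 1 ≤ i := h.ts.pos.trans hl
  have h1 : ∀ g : P, g ∈ T.F 1 := fun g => h.ts.one ▸ Subgroup.mem_top g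
  have h2 : ∀ g g' : P, D.e 1 g' = D.e 1 g + D.e 1 (g⁻¹ * g') := fun g g' => by
    rw [← h.gd.add 1 le_rfl _ (h1 _) _ (h1 _), mul_inv_cancel_left]
  obtain ⟨ψ, hψ⟩ : ∃ ψ : P → ZMod 2, ∀ c,
      ψ c = z t ⬝ᵥ D.b (i + 1) (tyOf D x t) (D.e (i + 1) c) := ⟨_, fun _ => rfl⟩
  have a1 : ∀ g ∈ T.F (i + 1), ∀ h ∈ T.F (i + 1), ψ (g * h) = ψ g + ψ h := fun g hg g' hg' => by
    rw [hψ, hψ, hψ, h.gd.add _ (by omega) g hg g' hg', map_add, dotProduct_add]
  have a0 : T.F (i + 1 + 1) ≤ T.F (i + 1) := h.ts.ns.anti _ _ (by omega) (by omega)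
  have a2 : ∀ g ∈ T.F (i + 1 + 1), ψ g = 0 := fun g hg => by
    rw [hψ, (h.gd.zero _ (by omega) g (a0 hg)).2 hg, map_zero, dotProduct_zero]
  have a3 : ∃ g ∈ T.F (i + 1), ψ g ≠ 0 := by
    by_contra h3
    push Not at h3
    obtain ⟨x₀, h4, h5⟩ := hx.1 t
    have h6 : tyOf D x t ∈ (lnOf T D La i).ty := ⟨x₀, h4, by
      rw [tyOf, h2 x₀ (x t), (h.gd.zero 1 le_rfl _ (h1 _)).2
        (h.ts.ns.anti _ _ (by omega) (by omega) h5), add_zero]⟩
    refine ht ((h.ln i hi hL).dual _ h6 _ (hz t) fun v _ => ?_)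
    obtain ⟨g, hg, rfl⟩ := h.gd.surj (i + 1) (by omega) v
    exact (hψ g).symm.trans (h3 g hg)
  obtain ⟨b1, b2⟩ := hS P T.F h.ts.ns h.ts.one
  obtain ⟨l₀, c1, c2, c3⟩ := b2 (i + 1) (by omega) (h.ts.v3 _ (by omega)) _ hx.2 ψ a1 a2 a3
  obtain ⟨s, s1, s2, s3⟩ := pick_ZkErr (fun j => j ∈ Sm ∧ z j = 0)
    (fun g j => g⁻¹ * x j ∈ T.F 2) (i + 1) l₀ c1.le fun g hg => by
      obtain ⟨j₀, rfl⟩ := c2 g hg
      refine ⟨_, hR j₀, fun j hj => ?_⟩
      obtain ⟨k1, k2, k3⟩ := mem_filter.1 hj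
      refine ⟨⟨k1, k3⟩, (h.gd.zero 1 le_rfl _ (h1 _)).1 ?_⟩
      exact left_eq_add.1 (k2.symm.trans (h2 (x j₀) (x j)))
  obtain ⟨d1, d2⟩ := b1 l₀ (s.map x) (List.ne_nil_of_length_eq_add_one c1)
    (List.forall₂_map_right_iff.2 s3)
  rw [c1] at d1 d2
  refine ⟨t, htL, s, ψ, hψ, s1, s3.length_eq.symm.trans c1, s2, a1, a2, ?_⟩
  rw [← mul_inv_cancel_left (brL l₀) (brL (s.map x)), a1 _ d1 _ (a0 d2), a2 _ d2, add_zero]
  exact c3

theorem bx_NcErr [Fintype P] {Λ : Type} [Fintype Λ] (hM : MomStmt) (hN : MomN) (hU : UnifStmt) :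
    ∃ (𝓡 : Type) (_ : Fintype 𝓡) (_ : Nonempty 𝓡) (σ : 𝓡 → FreeGroup (Lr d Λ)),
    ∀ {w : Fin d → Λ → ℝ} {Y : Type} [Fintype Y] [Nonempty Y] [Fintype (Lr d Λ → Y × 𝓡)]
    (y : Lr d Λ → Y → FreeGroup (Lr d Λ)) {η : ℝ} {Sm Lg : Finset (Fin d)} {L : ℕ},
    Prob (U := fun _ => Λ) w → (∀ j ∈ Sm ∪ Lg, ∀ u, w j u ≤ η) → 0 ≤ η →
    EQN Sm Lg P w y L η → ∀ (x : Fin d → P) {S : Finset (Fin d)} {t : Fin d} (φ : P → ZMod 2),
    t ∈ Lg → S ⊆ Sm → S.card ≤ L → t ∉ S → (∀ q₀ q₁ : Fin d → Λ, (∀ i ∈ S, q₀ i ≠ q₁ i) →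
      Shf (piV (Wc S x q₀ q₁)).range fun h => ∑ ω ∈ S.powerset, (-1) ^ ω.card * φ (h ω)) →
    𝔼 a : Lr d Λ → Y × 𝓡, Bx (U := fun _ => Λ) ZMod.stdAddChar w S t (fun q =>
        φ (Yw (U := fun _ => Λ) ((fun u => σ (a u).2) * (fun u => y u (a u).1) *
          (fun u => σ (a u).2)⁻¹) q (msk S x) t)) ≤ η ^ 2 + η + 3 * S.card ^ 2 * η := by
  obtain ⟨𝓡, _, _, σ, -, hσ⟩ := hU (Lr d Λ) P ⊤
  refine ⟨𝓡, inferInstance, inferInstance, σ, ?_⟩
  intro w Y _ _ _ y η Sm Lg L hw hη hη0 hE x S t φ htL hSm hSL ht hS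
  unfold Bx
  simp only [expect_Ex_ZaErr, alt_ZkErr (U := fun _ => Λ) _ x ht]
  have hn : ∀ z : ZMod 2, ‖(ZMod.stdAddChar z : ℂ)‖ = 1 := fun z => AddChar.norm_apply _ z
  refine hN d Λ w η (η ^ 2 + η) S hw (fun j hj => hη j (mem_union_left _ (hSm hj)))
    (by positivity) _ (fun q₀ q₁ => ?_) fun q₀ q₁ hq0 hq => ?_
  · refine le_trans (expect_le univ_nonempty fun a _ => ?_)
      (le_add_of_nonneg_right (by positivity))
    refine pow_le_one₀ (norm_nonneg _) ((norm_sum_le _ _).trans (le_of_eq ?_))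
    rw [← hw.2 t]
    refine sum_congr rfl fun u _ => ?_
    rw [norm_smul, hn, mul_one, Real.norm_of_nonneg (hw.1 t u)]
  · have h1 := mom_ZaErr hM (fun u : Λ => (⟨t, u⟩ : Lr d Λ)) (w t) η
      (fun u (b : Y × 𝓡) => ZMod.stdAddChar (∑ ω ∈ S.powerset, (-1) ^ ω.card *
        φ (piV (Wc S x q₀ q₁) (σ b.2 * y ⟨t, u⟩ b.1 * (σ b.2)⁻¹) ω)))
      (sigma_mk_injective (β := fun _ : Fin d => Λ)) (hw.1 t) (hw.2 t)
      (hη t (mem_union_right _ htL)) fun u b => (hn _).le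
    have h2 := hE t htL S hSm hSL x q₀ q₁ _ hq0 hq
      (hS q₀ q₁ fun i hi => (hq i hi i hi).1)
    refine h1.trans (add_le_add_left (pow_le_pow_left₀ (norm_nonneg _)
      (le_of_eq_of_le ?_ h2) 2) η)
    refine congrArg _ (sum_congr rfl fun u _ => congrArg _ ?_)
    rw [← univ_product_univ, expect_product]
    refine expect_congr rfl fun b _ => ?_
    unfold Av
    rw [MonoidHom.range_eq_map, ← hσ]
    simp only [map_mul, map_inv]

variable {U : Fin d → Type}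

theorem rr_congr_NcErr (y : (Σ j, U j) → FreeGroup (Σ j, U j)) {q q' : ∀ j, U j} {i j : Fin d}
    (hi : q i = q' i) (hj : q j = q' j) : rr y q 2 i j = rr y q' 2 i j := by
  unfold rr
  rw [hi, hj]

theorem datN_symm_NcErr {S : Finset (Fin d)} {x : Fin d → P}
    {y g : (Σ j, U j) → FreeGroup (Σ j, U j)} {q q' : ∀ j, U j} (h : DatN S x y g q q') :
    DatN S x y g q' q := fun i J h1 h2 => ⟨(h i J h1 h2).1.symm, (h i J h1 h2).2.symm⟩

theorem datN_dr_NcErr (J : Finset (Fin d)) {S : Finset (Fin d)} {x : Fin d → P}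
    {y g : (Σ j, U j) → FreeGroup (Σ j, U j)} {q q' : ∀ j, U j} (h : DatN S x y g q q') :
    DatN S x (dr J y) g q q' := by
  refine fun i K h1 h2 => ⟨?_, (h i K h1 h2).2⟩
  rw [Yw_dr_ZqErr, Yw_dr_ZqErr, (h i K h1 h2).1]

/-- the sets of indices that are used -/
def jj_NcErr (S K : Finset (Fin d)) (b : Bool) : Finset (Fin d) := if b then K else K ∪ Sᶜ

theorem jj_ex_NcErr {S J : Finset (Fin d)} (h : J ⊆ S ∨ Sᶜ ⊆ J) :
    ∃ K ∈ S.powerset, ∃ b, jj_NcErr S K b = J := by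
  rcases h with h | h
  · exact ⟨J, mem_powerset.2 h, true, rfl⟩
  · refine ⟨J ∩ S, mem_powerset.2 inter_subset_right, false, ?_⟩
    ext j
    simp only [jj_NcErr, Bool.false_eq_true, if_false, mem_union, mem_inter, mem_compl]
    constructor
    · rintro (h1 | h1)
      · exact h1.1
      · exact h (mem_compl.2 h1)
    · intro h1
      by_cases h2 : j ∈ S
      · exact Or.inl ⟨h1, h2⟩
      · exact Or.inr h2

theorem box_NcErr [Fintype P] (hB : BoxN) [∀ j, Fintype (U j)] {w : ∀ j, U j → ℝ}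
    (hw : Prob w) {S : Finset (Fin d)} {t : Fin d} (ht : t ∉ S) (h2 : 2 ≤ S.card) (x : Fin d → P)
    (y g : (Σ j, U j) → FreeGroup (Σ j, U j)) (G : (∀ j, U j) → ZMod 2) (Θ : (∀ j, U j) → ℂ)
    (ζ : ∀ j, U j → ℂ) (hΘ : ∀ q, ‖Θ q‖ ≤ 1) (hζ : ∀ j u, ‖ζ j u‖ ≤ 1)
    (hQ : ∀ q q', DatN (insert t S) x y g q q' → rr y q 2 = rr y q' 2 → Θ q = Θ q') :
    ‖Ex w fun q => (∏ j, ζ j (q j)) * (Θ q * ZMod.stdAddChar (G q))‖ ^ 2 ^ (S.card + 1) ≤
      (((Fintype.card P : ℝ) * 2) ^ (d * (2 ^ (S.card + 1 + 2) + 2 * (S.card + 1)))) ^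
        2 ^ (S.card + 1) * Bx ZMod.stdAddChar w S t G := by
  classical
  have hc : (insert t S).card = S.card + 1 := card_insert_of_notMem ht
  have key := hB d U w hw S t ht (card_pos.1 (by omega))
    ((Fin d × ({K // K ∈ (insert t S).powerset} × Bool) × Bool) ⊕
      (Fin d × {s // s ∈ insert t S} × Bool))
    (P × ZMod 2)
    (Sum.elim (fun z q => if ∃ s ∈ insert t S, s ∉ jj_NcErr (insert t S) z.2.1.1 z.2.1.2 ∧ s ≠ z.1
        then (Yw (if z.2.2 then y else g) q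
          (msk (jj_NcErr (insert t S) z.2.1.1 z.2.1.2) x) z.1, 0) else (1, 0))
      fun z q => (1, if z.2.2 then rr y q 2 z.1 z.2.1 else rr y q 2 z.2.1 z.1)) Θ G ζ ?_ hΘ
    (fun q q' h0 h => hQ q q' ?_ ?_) hζ
  · refine key.trans (le_of_eq ?_)
    have e1 : Fintype.card ((Fin d × ({K // K ∈ (insert t S).powerset} × Bool) × Bool) ⊕
        (Fin d × {s // s ∈ insert t S} × Bool)) =
        d * (2 ^ (S.card + 1 + 2) + 2 * (S.card + 1)) := by
      simp only [Fintype.card_sum, Fintype.card_prod, Fintype.card_fin, Fintype.card_coe,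
        card_powerset, Fintype.card_bool, hc]
      ring
    rw [e1, Fintype.card_prod, ZMod.card, Nat.cast_mul, Nat.cast_ofNat]
  · rintro (⟨j, ⟨K, b⟩, c⟩ | ⟨j, j', c⟩)
    · by_cases hz : ∃ s ∈ insert t S, s ∉ jj_NcErr (insert t S) K b ∧ s ≠ j
      · obtain ⟨s, h1, h3, h4⟩ := hz
        refine ⟨s, h1, fun q u => ?_⟩
        simp only [Sum.elim_inl, Yw_update_ZkErr _ q x h3 h4]
      · refine ⟨t, mem_insert_self _ _, fun q u => ?_⟩
        simp only [Sum.elim_inl, if_neg hz]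
    · have h3 : ({j, j'.1} : Finset (Fin d)).card < (insert t S).card := by
        have := card_le_two (a := j) (b := j'.1)
        omega
      obtain ⟨s, h1, h4⟩ := exists_mem_notMem_of_card_lt_card h3
      rw [mem_insert, mem_singleton, not_or] at h4
      refine ⟨s, h1, fun q u => ?_⟩
      simp only [Sum.elim_inr, rr_update_ZkErr y q 2 h4.1 h4.2, rr_update_ZkErr y q 2 h4.2 h4.1]
  · intro j J hJ hz
    obtain ⟨K, hK, b, rfl⟩ := jj_ex_NcErr hJ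
    have h1 : ∀ c : Bool, Yw (if c then y else g) q (msk (jj_NcErr (insert t S) K b) x) j =
        Yw (if c then y else g) q' (msk (jj_NcErr (insert t S) K b) x) j := fun c => by
      have h3 := h (.inl (j, (⟨K, hK⟩, b), c))
      simp only [Sum.elim_inl, if_pos hz] at h3
      exact congrArg Prod.fst h3
    exact ⟨h1 true, h1 false⟩
  · funext j j'
    by_cases hj' : j' ∈ insert t S
    · exact congrArg Prod.snd (h (.inr (j, ⟨j', hj'⟩, true)))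
    · by_cases hj : j ∈ insert t S
      · exact congrArg Prod.snd (h (.inr (j', ⟨j, hj⟩, false)))
      · exact rr_congr_NcErr y (h0 j hj) (h0 j' hj')

end

theorem num_NcErr {c ξ : ℝ} {d L m : ℕ} (hc : 1 ≤ c) (h0 : 0 ≤ ξ) (h1 : ξ ≤ 1) (hm : m + 1 ≤ L) :
    (c ^ (d * (2 ^ (m + 1 + 2) + 2 * (m + 1)))) ^ 2 ^ (m + 1) *
      ((ξ ^ 2 ^ L) ^ 2 + ξ ^ 2 ^ L + 3 * (m : ℝ) ^ 2 * ξ ^ 2 ^ L) ≤
    ((c ^ (2 ^ (L + 2) + 2 * L) * (2 + 3 * (L : ℝ) ^ 2)) ^ (d + 1) * ξ) ^ 2 ^ (m + 1) := by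
  have e0 : 0 ≤ ξ ^ 2 ^ L := pow_nonneg h0 _
  have e1 : ξ ^ 2 ^ L ≤ 1 := pow_le_one₀ h0 h1
  have e2 : ξ ^ 2 ^ L ≤ ξ ^ 2 ^ (m + 1) :=
    pow_le_pow_of_le_one h0 h1 (Nat.pow_le_pow_right two_pos hm)
  have e3 : (m : ℝ) ≤ L := by exact_mod_cast (by omega : m ≤ L)
  have e4 : (m : ℝ) ^ 2 ≤ (L : ℝ) ^ 2 := pow_le_pow_left₀ (Nat.cast_nonneg m) e3 2
  have e5 : (1 : ℝ) ≤ 2 + 3 * (L : ℝ) ^ 2 := by nlinarith [sq_nonneg (L : ℝ)]
  have e6 : (ξ ^ 2 ^ L) ^ 2 + ξ ^ 2 ^ L + 3 * (m : ℝ) ^ 2 * ξ ^ 2 ^ L ≤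
      (2 + 3 * (L : ℝ) ^ 2) * ξ ^ 2 ^ L := by
    have := mul_le_mul_of_nonneg_right e4 e0
    nlinarith
  have e7 : (2 + 3 * (L : ℝ) ^ 2) * ξ ^ 2 ^ L ≤ ((2 + 3 * (L : ℝ) ^ 2) * ξ) ^ 2 ^ (m + 1) := by
    rw [mul_pow]
    exact mul_le_mul (le_self_pow₀ e5 (pow_pos two_pos _).ne') e2 e0 (by positivity)
  have e8 : 2 ^ (m + 1 + 2) + 2 * (m + 1) ≤ 2 ^ (L + 2) + 2 * L :=
    add_le_add (Nat.pow_le_pow_right two_pos (by omega)) (by omega)
  have e9 : c ^ (d * (2 ^ (m + 1 + 2) + 2 * (m + 1))) * (2 + 3 * (L : ℝ) ^ 2) ≤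
      (c ^ (2 ^ (L + 2) + 2 * L) * (2 + 3 * (L : ℝ) ^ 2)) ^ (d + 1) := by
    rw [mul_pow, ← pow_mul]
    refine mul_le_mul (pow_le_pow_right₀ hc ?_) (le_self_pow₀ e5 d.succ_ne_zero) (by positivity)
      (by positivity)
    rw [mul_comm]
    exact Nat.mul_le_mul e8 d.le_succ
  refine (mul_le_mul_of_nonneg_left (e6.trans e7) (by positivity)).trans ?_
  rw [← mul_pow, ← mul_assoc]
  exact pow_le_pow_left₀ (by positivity) (mul_le_mul_of_nonneg_right e9 h0) _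

theorem errN (hB : BoxN) (hM : MomStmt) (hN : MomN) (hU : UnifStmt) (hS : SpanStmt 2) (hL : LcN)
    (hT : Zk.ShiftStmt 2) : ErrN := by
  classical
  intro P _ _ T D La L l n h
  have hc1 : (1 : ℝ) ≤ (Fintype.card P : ℝ) * 2 := by
    have : (1 : ℝ) ≤ Fintype.card P := by exact_mod_cast Fintype.card_pos
    linarith
  have hL1 : (1 : ℝ) ≤ 2 + 3 * (L : ℝ) ^ 2 := by nlinarith [sq_nonneg (L : ℝ)]
  refine ⟨((Fintype.card P : ℝ) * 2) ^ (2 ^ (L + 2) + 2 * L) * (2 + 3 * (L : ℝ) ^ 2),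
    one_le_mul_of_one_le_of_one_le (one_le_pow₀ hc1) hL1, ?_⟩
  intro d Λ _ w Y _ _ _ y Sm Lg ξ hξ0 hξ1 hw hdis hwη hE i x z A J ζ hli hiL hx hz hR hJ hζ
  have hi : 1 ≤ i := h.ts.pos.trans hli
  obtain ⟨t, htL, s, ψ, hψ, s1, s2, s3, a1, a2, a3⟩ := sel_NcErr hS h hli hiL hx hz hR
  have hzt : z t ≠ 0 := fun h0 => a3 (by rw [hψ, h0, zero_dotProduct])
  obtain ⟨φ, hφ⟩ := ext_ZkErr _ ψ a1
  obtain ⟨𝓡, _, _, σ, hσ⟩ := bx_NcErr (d := d) (P := P) (Λ := Λ) hM hN hU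
  have hc : s.toFinset.card = i + 1 := by rw [List.toFinset_card_of_nodup s1, s2]
  have hSm : s.toFinset ⊆ Sm := fun j hj => (s3 j (List.mem_toFinset.1 hj)).1
  have ht : t ∉ s.toFinset := fun h0 => disjoint_left.1 hdis (hSm h0) htL
  have hb := hσ y hw hwη (pow_nonneg hξ0 _) hE x φ htL hSm (by omega) ht fun q₀ q₁ hq =>
    hT P T L l n h.ts d (fun _ => Λ) x s ψ φ s1 (List.ne_nil_of_length_eq_add_one s2) (s2 ▸ a1)
      (s2 ▸ a2) (s2 ▸ hφ) a3 q₀ q₁ fun j hj => hq j (List.mem_toFinset.2 hj)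
  have key : ∀ (y g : Lr d Λ → FreeGroup (Lr d Λ)) (q : Fin d → Λ),
      Tq (U := fun _ => Λ) T D y q A J i x z =
      (if A (rr (U := fun _ => Λ) y q 2) ∧
          Eqs (U := fun _ => Λ) (dr (J (rr (U := fun _ => Λ) y q 2)) y) q T i x then
        (ZMod.stdAddChar (Ob (U := fun _ => Λ) y q D i x z -
          φ (Yw (U := fun _ => Λ) (g * y * g⁻¹) q (msk s.toFinset x) t)) : ℂ) else 0) *
        ZMod.stdAddChar (φ (Yw (U := fun _ => Λ) (g * y * g⁻¹) q (msk s.toFinset x) t)) := by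
    intro y g q
    unfold Tq
    split_ifs with h1
    · rw [← AddChar.map_add_eq_mul, sub_add_cancel]
    · rw [zero_mul]
  have hn : ∀ z : ZMod 2, ‖(ZMod.stdAddChar z : ℂ)‖ = 1 := fun z => AddChar.norm_apply _ z
  rw [expect_fst_ZkErr (R := 𝓡), expect_congr rfl fun (a : Lr d Λ → Y × 𝓡) _ =>
    congrArg (Ex (U := fun _ => Λ) w) (funext fun q =>
      congrArg (fun v => (∏ j, ζ j (q j)) * v) (key _ (fun u => σ (a u).2) q))]
  refine (pow_le_pow_iff_left₀ (norm_nonneg _) (by positivity)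
    (pow_pos two_pos (s.toFinset.card + 1)).ne').1 ((jensen_ZaErr _ _).trans ?_)
  refine (expect_le_expect fun a _ => box_NcErr (U := fun _ => Λ) hB hw ht (by omega) x
    (fun u => y u (a u).1) (fun u => σ (a u).2) _ _ ζ (fun q => ?_) hζ
    fun q q' hq hr => ?_).trans ?_
  · split_ifs
    · exact (hn _).le
    · rw [norm_zero]
      exact zero_le_one
  · have k0 : ∀ q q' : Fin d → Λ, DatN (U := fun _ => Λ) (insert t s.toFinset) x
        (fun u => y u (a u).1) (fun u => σ (a u).2) q q' → ∀ r, A r →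
        Eqs (U := fun _ => Λ) (dr (J r) fun u => y u (a u).1) q T i x →
        Eqs (U := fun _ => Λ) (dr (J r) fun u => y u (a u).1) q' T i x ∧
        Ob (U := fun _ => Λ) (fun u => y u (a u).1) q D i x z -
          φ (Yw (U := fun _ => Λ) ((fun u => σ (a u).2) * (fun u => y u (a u).1) *
            (fun u => σ (a u).2)⁻¹) q (msk s.toFinset x) t) =
        Ob (U := fun _ => Λ) (fun u => y u (a u).1) q' D i x z -
          φ (Yw (U := fun _ => Λ) ((fun u => σ (a u).2) * (fun u => y u (a u).1) *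
            (fun u => σ (a u).2)⁻¹) q' (msk s.toFinset x) t) := by
      intro q q' hq r hA hQ
      have hJ0 := hJ _ hA
      have htJ : t ∉ J r := fun h0 => hzt (hJ0 t h0)
      obtain ⟨k1, k2⟩ := hL P T L l n h.ts D h.gd d (fun _ => Λ) i _ t x z φ hi hc ht
        (fun j hj => (s3 j (List.mem_toFinset.1 hj)).2) (fun c hc g => by rw [hφ c hc, hψ])
        _ _ q q' (datN_dr_NcErr _ hq) hQ
      rw [Ob_dr_ZqErr D _ _ _ _ hJ0, Ob_dr_ZqErr D _ _ _ _ hJ0, Yw_conj_dr_ZqErr _ _ _ _ htJ,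
        Yw_conj_dr_ZqErr _ _ _ _ htJ] at k2
      exact ⟨k1, k2⟩
    rw [← hr]
    by_cases h1 : A (rr (U := fun _ => Λ) (fun u => y u (a u).1) q 2) ∧
        Eqs (U := fun _ => Λ) (dr (J (rr (U := fun _ => Λ) (fun u => y u (a u).1) q 2))
          fun u => y u (a u).1) q T i x
    · obtain ⟨k1, k2⟩ := k0 q q' hq _ h1.1 h1.2
      rw [if_pos h1, if_pos ⟨h1.1, k1⟩, k2]
    · rw [if_neg h1, if_neg fun h2 => h1 ⟨h2.1, (k0 q' q (datN_symm_NcErr hq) _ h2.1 h2.2).1⟩]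
  · rw [← mul_expect]
    exact le_trans (mul_le_mul_of_nonneg_left hb (by positivity))
      (num_NcErr hc1 hξ0 hξ1 (by omega))

end Pool.Agent.MP_f68ac8_nt.Nd

end

section

namespace Pool.Agent.MP_f68ac8_nt.Nd

open NumberField NumberField.InfinitePlace NumberField.mixedEmbedding NumberField.Units
  NumberField.Units.dirichletUnitTheorem MeasureTheory
open MP_14ad9d_nt.Full MP_14ad9d_nt.Full.EDAux MP_d64882_nt
open scoped Classical

theorem re_inv_NaFree (w : ℂ) : (1 / w).re = w.re / (w.re ^ 2 + w.im ^ 2) := by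
  rw [one_div, Complex.inv_re, Complex.normSq_apply]
  congr 1
  ring

theorem sum_nonneg_NaFree (s : ℂ) (hs : 1 < s.re) (Z : Multiset ℂ) (hZ : ∀ z ∈ Z, z.re ≤ 1) :
    0 ≤ ((Z.map fun z => 1 / (s - z)).sum).re := by
  induction Z using Multiset.induction_on with
  | empty => simp
  | cons a Z ih =>
    rw [Multiset.map_cons, Multiset.sum_cons, Complex.add_re]
    have h1 := ih fun z hz => hZ z (Multiset.mem_cons_of_mem hz)
    have h2 := hZ a (Multiset.mem_cons_self a Z)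
    have h3 : 0 ≤ (1 / (s - a)).re := by
      rw [re_inv_NaFree]
      refine div_nonneg ?_ (by positivity)
      rw [Complex.sub_re]
      linarith
    linarith

theorem le_sum_NaFree (s : ℂ) (hs : 1 < s.re) (Z : Multiset ℂ) (hZ : ∀ z ∈ Z, z.re ≤ 1)
    (z : ℂ) (hz : z ∈ Z) : (1 / (s - z)).re ≤ ((Z.map fun z => 1 / (s - z)).sum).re := by
  obtain ⟨Y, rfl⟩ := Multiset.exists_cons_of_mem hz
  rw [Multiset.map_cons, Multiset.sum_cons, Complex.add_re]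
  have h1 := sum_nonneg_NaFree s hs Y fun z hz => hZ z (Multiset.mem_cons_of_mem hz)
  linarith

theorem norm_sum_NaFree (s : ℂ) (δ : ℝ) (hδ : 0 < δ) (Z : Multiset ℂ)
    (hZ : ∀ z ∈ Z, δ ≤ ‖s - z‖) :
    ‖(Z.map fun z => 1 / (s - z)).sum‖ ≤ Multiset.card Z * (1 / δ) := by
  induction Z using Multiset.induction_on with
  | empty => simp
  | cons a Z ih =>
    rw [Multiset.map_cons, Multiset.sum_cons, Multiset.card_cons]
    have h1 := ih fun z hz => hZ z (Multiset.mem_cons_of_mem hz)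
    have h2 := hZ a (Multiset.mem_cons_self a Z)
    have h3 : ‖1 / (s - a)‖ ≤ 1 / δ := by
      rw [norm_div, norm_one]
      exact one_div_le_one_div_of_le hδ h2
    have h4 := norm_add_le (1 / (s - a)) (Z.map fun z => 1 / (s - z)).sum
    push_cast
    linarith

theorem claim_NaFree (L : ℂ → ℂ) (Z : Multiset ℂ) (r ρ K : ℝ) (hρ : 0 < ρ)
    (hK : 8 * K * ρ ≤ 1) (hZ : ∀ z ∈ Z, z.re ≤ 1)
    (hL : ∀ s ∈ Metric.ball (1 : ℂ) r, 1 < s.re →
      ‖L s - 1 / (s - 1) + (Z.map fun z => 1 / (s - z)).sum‖ ≤ K)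
    (h341 : ∀ σ : ℝ, 1 < σ → ∀ t : ℝ, 0 ≤ 3 * (L σ).re + 4 * (L (σ + t * Complex.I)).re +
      (L (σ + 2 * t * Complex.I)).re)
    (z : ℂ) (hz : z ∈ Z) (h1 : ρ < ‖z - 1‖) (h2 : ‖z - 1‖ < r / 4) : ρ / 100 ≤ 1 - z.re := by
  have hβ := hZ z hz
  have h3 : ‖z - 1‖ ≤ 1 - z.re + |z.im| := by
    have := Complex.norm_le_abs_re_add_abs_im (z - 1)
    rw [Complex.sub_re, Complex.sub_im, Complex.one_re, Complex.one_im, sub_zero,
      abs_of_nonpos (by linarith)] at this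
    linarith
  have h4 : |z.im| < r / 4 := by
    have := Complex.abs_im_le_norm (z - 1)
    rw [Complex.sub_im, Complex.one_im, sub_zero] at this
    linarith
  by_cases hγ : |z.im| < ρ / 4
  · linarith
  have hγ' : ρ / 4 ≤ |z.im| := not_lt.1 hγ
  have hsq : ρ ^ 2 / 16 ≤ z.im ^ 2 := by
    rw [← sq_abs z.im]
    nlinarith
  have key : ∀ t : ℝ, |t| < r / 2 →
      (L (((1 + ρ / 20 : ℝ) : ℂ) + t * Complex.I)).re ≤ ρ / 20 / ((ρ / 20) ^ 2 + t ^ 2) -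
        ((Z.map fun z => 1 / ((((1 + ρ / 20 : ℝ) : ℂ) + t * Complex.I) - z)).sum).re + K := by
    intro t ht
    set s : ℂ := ((1 + ρ / 20 : ℝ) : ℂ) + t * Complex.I with hs
    have e1 : (s - 1).re = ρ / 20 := by simp [hs]
    have e2 : (s - 1).im = t := by simp [hs]
    have hb : s ∈ Metric.ball (1 : ℂ) r := by
      rw [Metric.mem_ball, dist_eq_norm]
      have := Complex.norm_le_abs_re_add_abs_im (s - 1)
      rw [e1, e2, abs_of_pos (by positivity)] at this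
      linarith
    have hre : 1 < s.re := by
      rw [Complex.sub_re, Complex.one_re] at e1
      linarith
    have h5 := (Complex.re_le_norm _).trans (hL s hb hre)
    rw [Complex.add_re, Complex.sub_re, re_inv_NaFree, e1, e2] at h5
    linarith
  have hre : ∀ t : ℝ, 1 < (((1 + ρ / 20 : ℝ) : ℂ) + t * Complex.I).re := by
    intro t
    simp [hρ]
  have k0 := key 0 (by rw [abs_zero]; linarith)
  have k1 := key z.im (by linarith [abs_nonneg z.im])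
  have k2 := key (2 * z.im) (by rw [abs_mul, abs_two]; linarith)
  have n0 := sum_nonneg_NaFree _ (hre 0) Z hZ
  have n1 := le_sum_NaFree _ (hre z.im) Z hZ z hz
  have n2 := sum_nonneg_NaFree _ (hre (2 * z.im)) Z hZ
  have h6 := h341 (1 + ρ / 20) (by linarith) z.im
  have e0 : ((1 + ρ / 20 : ℝ) : ℂ) + (0 : ℝ) * Complex.I = ((1 + ρ / 20 : ℝ) : ℂ) := by simp
  have e2 : ((1 + ρ / 20 : ℝ) : ℂ) + (2 * z.im : ℝ) * Complex.I =
      ((1 + ρ / 20 : ℝ) : ℂ) + 2 * (z.im : ℝ) * Complex.I := by push_cast; ring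
  have hd : 0 < 1 + ρ / 20 - z.re := by linarith
  have e1 : (1 / (((1 + ρ / 20 : ℝ) : ℂ) + (z.im : ℝ) * Complex.I - z)).re =
      1 / (1 + ρ / 20 - z.re) := by
    have a1 : (((1 + ρ / 20 : ℝ) : ℂ) + (z.im : ℝ) * Complex.I - z).re = 1 + ρ / 20 - z.re := by
      simp
    have a2 : (((1 + ρ / 20 : ℝ) : ℂ) + (z.im : ℝ) * Complex.I - z).im = 0 := by simp
    rw [re_inv_NaFree, a1, a2, div_eq_div_iff (by positivity) hd.ne']
    ring
  rw [e1] at n1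
  have b0 : ρ / 20 / ((ρ / 20) ^ 2 + 0 ^ 2) = 20 / ρ := by
    field_simp
    ring
  have b1 : ρ / 20 / ((ρ / 20) ^ 2 + z.im ^ 2) ≤ 4 / 5 / ρ := by
    rw [div_le_div_iff₀ (by positivity) hρ]
    nlinarith
  have b2 : ρ / 20 / ((ρ / 20) ^ 2 + (2 * z.im) ^ 2) ≤ 4 / 5 / ρ := by
    rw [div_le_div_iff₀ (by positivity) hρ]
    nlinarith
  have b3 : 8 * K ≤ 1 / ρ := by
    rw [le_div_iff₀ hρ]
    exact hK
  rw [b0] at k0
  have k0' : (L ((1 + ρ / 20 : ℝ) : ℂ)).re ≤ 20 / ρ + K := by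
    rw [← e0]
    linarith
  have k2' : (L (((1 + ρ / 20 : ℝ) : ℂ) + 2 * (z.im : ℝ) * Complex.I)).re ≤ 4 / 5 / ρ + K := by
    rw [← e2]
    linarith
  have h7 : 4 / (1 + ρ / 20 - z.re) ≤ 65 / ρ := by
    have c1 : 4 / (1 + ρ / 20 - z.re) = 4 * (1 / (1 + ρ / 20 - z.re)) := by ring
    have c2 : 65 / ρ = 3 * (20 / ρ) + 5 * (4 / 5 / ρ) + 1 / ρ := by ring
    rw [c1, c2]
    linarith
  rw [div_le_div_iff₀ hd hρ] at h7
  linarith

theorem free_stmt (hE : EulStmt) (hL : LocStmt) : FreeStmt := by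
  intro N
  obtain ⟨r, C, hr, hr8, hC, H⟩ := hL N
  obtain ⟨C', -, HE⟩ := hE N
  obtain ⟨c, hc, hc1, hc2, hc3⟩ : ∃ c : ℝ, 0 < c ∧ c ≤ r / 32 ∧ c ≤ 1 / 200 ∧ 8 * C * c ≤ 1 := by
    refine ⟨min (r / 32) (min (1 / 200) (1 / (8 * C))), by positivity, min_le_left _ _,
      (min_le_right _ _).trans (min_le_left _ _), ?_⟩
    have h : min (r / 32) (min (1 / 200) (1 / (8 * C))) ≤ 1 / (8 * C) :=
      (min_le_right _ _).trans (min_le_right _ _)
    rw [le_div_iff₀ (by positivity)] at h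
    linarith
  refine ⟨c, 201 * C, hc, by linarith, by positivity, ?_⟩
  intro E _ _ hN M ρ hM hB hρ hρc hG τ hτ
  obtain ⟨hd, Z, hcard, hZ, hs⟩ := H E hN M hM hB
  obtain ⟨-, h341, -⟩ := HE E hN
  rw [le_div_iff₀ (by linarith)] at hρc
  have hρ1 : ρ ≤ c := by nlinarith
  have hball : ∀ s ∈ Metric.ball (1 + τ * Complex.I) (c * ρ),
      ‖s - 1‖ ≤ r / 16 ∧ 1 - ρ / 200 ≤ s.re := by
    intro s hs
    rw [Metric.mem_ball, dist_eq_norm] at hs
    have h1 : c * ρ ≤ ρ / 200 := by nlinarith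
    constructor
    · have h2 : s - 1 = s - (1 + τ * Complex.I) + τ * Complex.I := by ring
      have h3 := norm_add_le (s - (1 + τ * Complex.I)) (τ * Complex.I)
      rw [← h2, norm_mul, Complex.norm_I, mul_one, Complex.norm_real, Real.norm_eq_abs] at h3
      linarith
    · have h2 := Complex.abs_re_le_norm (s - (1 + τ * Complex.I))
      have h3 : (s - (1 + τ * Complex.I)).re = s.re - 1 := by simp
      rw [h3] at h2
      linarith [neg_abs_le (s.re - 1)]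
  have hsub : Metric.ball (1 + τ * Complex.I) (c * ρ) ⊆ Metric.ball (1 : ℂ) r := by
    intro s hs
    rw [Metric.mem_ball, dist_eq_norm]
    linarith [(hball s hs).1]
  refine ⟨hd.mono hsub, fun s hsb => ?_⟩
  have hfar : ∀ z ∈ Z, ρ / 200 ≤ ‖s - z‖ := by
    intro z hz
    by_cases h : ‖z - 1‖ < r / 4
    · have h1 : ρ < ‖z - 1‖ := by
        by_contra h1
        exact hG z (not_lt.1 h1) (hZ z hz).1
      have h2 := claim_NaFree (LE E) Z r ρ (C * M) hρ (by nlinarith)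
        (fun z hz => (hZ z hz).2) (fun s hs' => (hs s hs').2.2)
        (fun σ hσ => (h341 σ hσ).2.2) z hz h1 h
      have h3 := Complex.re_le_norm (s - z)
      rw [Complex.sub_re] at h3
      linarith [(hball s hsb).2]
    · have h1 : z - 1 = s - 1 - (s - z) := by ring
      have h2 := norm_sub_le (s - 1) (s - z)
      rw [← h1] at h2
      linarith [(hball s hsb).1, not_lt.1 h]
  have hne : FE E s ≠ 0 := by
    intro h0
    have := hfar s ((hs s (hsub hsb)).1 h0)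
    rw [sub_self, norm_zero] at this
    linarith
  refine ⟨hne, ?_⟩
  have h1 := (hs s (hsub hsb)).2.1 hne
  have h2 := norm_sum_NaFree s (ρ / 200) (by positivity) Z hfar
  have h3 := norm_add_le (logDeriv (FE E) s - (Z.map fun z => 1 / (s - z)).sum)
    (Z.map fun z => 1 / (s - z)).sum
  rw [sub_add_cancel] at h3
  have h4 : (Multiset.card Z : ℝ) * (1 / (ρ / 200)) ≤ C * M * (1 / (ρ / 200)) :=
    mul_le_mul_of_nonneg_right hcard (by positivity)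
  have h5 : C * M ≤ C * M / ρ := by
    rw [le_div_iff₀ hρ]
    have : 0 < C * M := by positivity
    nlinarith
  have h6 : 201 * C * M / ρ = C * M * (1 / (ρ / 200)) + C * M / ρ := by
    field_simp
    ring
  rw [h6]
  linarith

end Pool.Agent.MP_f68ac8_nt.Nd

end
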