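import Mathlib
import Pool.Agent.Mg.Fe23604m.G8fa719
import Pool.Agent.Mg.Fe23604m.G200097
import Pool.Agent.MP_f68ac8_nt.Kum
import Pool.Agent.Mg.Fe23604m.Ga53936
import Pool.Agent.Mg.Fe23604m.G937cae
import Pool.Agent.MP_f68ac8_nt.NaCnt
import Pool.Agent.MP_f68ac8_nt.NaCont
import Pool.Agent.MP_f68ac8_nt.NaCov
import Pool.Agent.MP_f68ac8_nt.NaDiff
import Pool.Agent.MP_f68ac8_nt.NaEulB
import Pool.Agent.Mg.Fe23604m.Gcb31cd
import Pool.Agent.Mg.Fe23604m.Gf45a26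
import Pool.Agent.MP_f68ac8_nt.NaPack
import Pool.Agent.MP_f68ac8_nt.NaPsum
import Pool.Agent.MP_f68ac8_nt.NaReg
import Pool.Agent.MP_f68ac8_nt.NaRiem
import Pool.Agent.MP_f68ac8_nt.NaScale
import Pool.Agent.MP_f68ac8_nt.NaTest
import Pool.Agent.MP_f68ac8_nt.NaUnf

set_option linter.all false

section

namespace Pool.Agent.MP_f68ac8_nt.Nd
open NumberField Finset Filter
open MP_d64882_nt (cnt)
open Zv (Ex Prob)
open scoped Topology BigOperators commutatorElement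

section grp
variable {G : Type} [Group G] {p : ℕ} [Fact p.Prime] {κ : G →* (ZMod p)ˣ} {Ψ : G → ZMod p}

theorem one_NhOff (ha : ∀ g ∈ κ.ker, ∀ h ∈ κ.ker, Ψ (g * h) = Ψ g + Ψ h) : Ψ 1 = 0 := by
  have h := ha 1 κ.ker.one_mem 1 κ.ker.one_mem
  rw [mul_one] at h
  exact left_eq_add.1 h

theorem inv_NhOff (ha : ∀ g ∈ κ.ker, ∀ h ∈ κ.ker, Ψ (g * h) = Ψ g + Ψ h) {g : G}
    (hg : g ∈ κ.ker) : Ψ g⁻¹ = -Ψ g := by
  have h := ha g⁻¹ (κ.ker.inv_mem hg) g hg
  rw [inv_mul_cancel, one_NhOff ha] at h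
  exact eq_neg_of_add_eq_zero_left h.symm

theorem pow_NhOff (ha : ∀ g ∈ κ.ker, ∀ h ∈ κ.ker, Ψ (g * h) = Ψ g + Ψ h) {g : G}
    (hg : g ∈ κ.ker) (m : ℕ) : Ψ (g ^ m) = m * Ψ g := by
  induction m with
  | zero => rw [pow_zero, one_NhOff ha]; simp
  | succ m ih => rw [pow_succ, ha _ (κ.ker.pow_mem hg m) _ hg, ih]; push_cast; ring

theorem exH_NhOff (ha : ∀ g ∈ κ.ker, ∀ h ∈ κ.ker, Ψ (g * h) = Ψ g + Ψ h) :
    ∃ H : Subgroup G, ∀ g, g ∈ H ↔ g ∈ κ.ker ∧ Ψ g = 0 :=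
  ⟨{ carrier := {g | g ∈ κ.ker ∧ Ψ g = 0}
     mul_mem' := fun {a b} h1 h2 =>
       ⟨κ.ker.mul_mem h1.1 h2.1, by rw [ha a h1.1 b h2.1, h1.2, h2.2, add_zero]⟩
     one_mem' := ⟨κ.ker.one_mem, one_NhOff ha⟩
     inv_mem' := fun {a} h1 => ⟨κ.ker.inv_mem h1.1, by rw [inv_NhOff ha h1.1, h1.2, neg_zero]⟩ },
   fun _ => Iff.rfl⟩

theorem fix_NhOff (H : Subgroup G) (σ a : G) :
    σ • (a : G ⧸ H) = a ↔ a⁻¹ * σ * a ∈ H := by
  rw [MulAction.Quotient.smul_mk, eq_comm, QuotientGroup.eq, smul_eq_mul, mul_assoc]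

theorem perm_zero_NhOff {H : Subgroup G} (hH : ∀ g, g ∈ H ↔ g ∈ κ.ker ∧ Ψ g = 0) {σ : G}
    (hσ : σ ∉ κ.ker) : perm H σ = 0 := by
  unfold perm
  have : IsEmpty {x : G ⧸ H // σ • x = x} := by
    refine ⟨fun x => ?_⟩
    obtain ⟨x, hx⟩ := x
    obtain ⟨a, rfl⟩ := QuotientGroup.mk_surjective x
    have h := ((hH _).1 ((fix_NhOff H σ a).1 hx)).1
    rw [MonoidHom.mem_ker, map_mul, map_mul, map_inv, inv_mul_cancel_comm] at h
    exact hσ h
  exact Nat.card_of_isEmpty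

theorem perm_eq_NhOff (ha : ∀ g ∈ κ.ker, ∀ h ∈ κ.ker, Ψ (g * h) = Ψ g + Ψ h)
    (hg : ∃ g ∈ κ.ker, Ψ g ≠ 0) {H : Subgroup G} (hH : ∀ g, g ∈ H ↔ g ∈ κ.ker ∧ Ψ g = 0)
    {t : (ZMod p)ˣ → G} (ht : ∀ j, κ (t j) = j) {σ : G} (hσ : σ ∈ κ.ker) :
    perm H σ = ∑ j : (ZMod p)ˣ, if Ψ (t j * σ * (t j)⁻¹) = 0 then p else 0 := by
  obtain ⟨g, hg, hg0⟩ := hg
  have hy : ∀ c : ZMod p, ∃ y ∈ κ.ker, Ψ y = c := fun c =>
    ⟨g ^ (c * (Ψ g)⁻¹).val, κ.ker.pow_mem hg _, by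
      rw [pow_NhOff ha hg, ZMod.natCast_zmod_val, inv_mul_cancel_right₀ hg0]⟩
  choose y hy1 hy2 using hy
  let f : (ZMod p)ˣ × ZMod p → G ⧸ H := fun x => (((t x.1)⁻¹ * y x.2 : G) : G ⧸ H)
  have hf : Function.Bijective f := by
    constructor
    · rintro ⟨j, c⟩ ⟨j', c'⟩ h
      have h1 := (hH _).1 (QuotientGroup.eq.1 h)
      have h2 := h1.1
      have e1 : κ (y c) = 1 := hy1 c
      have e2 : κ (y c') = 1 := hy1 c'
      simp only [MonoidHom.mem_ker, map_mul, map_inv, ht, e1, e2, mul_one, inv_inv] at h2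
      have h3 : j = j' := mul_inv_eq_one.1 h2
      subst h3
      have h4 := h1.2
      have h5 : ((t j)⁻¹ * y c)⁻¹ * ((t j)⁻¹ * y c') = (y c)⁻¹ * y c' := by group
      simp only [h5] at h4
      rw [ha _ (κ.ker.inv_mem (hy1 c)) _ (hy1 c'), inv_NhOff ha (hy1 c), hy2, hy2] at h4
      rw [neg_add_eq_zero.1 h4]
    · intro x
      obtain ⟨a, rfl⟩ := QuotientGroup.mk_surjective x
      have hu : t (κ a)⁻¹ * a ∈ κ.ker := by
        rw [MonoidHom.mem_ker, map_mul, ht, inv_mul_cancel]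
      refine ⟨((κ a)⁻¹, Ψ (t (κ a)⁻¹ * a)), QuotientGroup.eq.2 ((hH _).2 ?_)⟩
      have h5 : ((t (κ a)⁻¹)⁻¹ * y (Ψ (t (κ a)⁻¹ * a)))⁻¹ * a =
          (y (Ψ (t (κ a)⁻¹ * a)))⁻¹ * (t (κ a)⁻¹ * a) := by group
      simp only [h5]
      refine ⟨κ.ker.mul_mem (κ.ker.inv_mem (hy1 _)) hu, ?_⟩
      rw [ha _ (κ.ker.inv_mem (hy1 _)) _ hu, inv_NhOff ha (hy1 _), hy2, neg_add_cancel]
  have hfix : ∀ x : (ZMod p)ˣ × ZMod p, Ψ (t x.1 * σ * (t x.1)⁻¹) = 0 ↔
      σ • (Equiv.ofBijective f hf x) = Equiv.ofBijective f hf x := by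
    rintro ⟨j, c⟩
    have hu : t j * σ * (t j)⁻¹ ∈ κ.ker := (MonoidHom.normal_ker κ).conj_mem σ hσ _
    have h5 : ((t j)⁻¹ * y c)⁻¹ * σ * ((t j)⁻¹ * y c) =
        (y c)⁻¹ * (t j * σ * (t j)⁻¹) * y c := by group
    have h6 := κ.ker.mul_mem (κ.ker.inv_mem (hy1 c)) hu
    show _ ↔ σ • (((t j)⁻¹ * y c : G) : G ⧸ H) = (((t j)⁻¹ * y c : G) : G ⧸ H)
    rw [fix_NhOff, hH, h5, ha _ h6 _ (hy1 c), ha _ (κ.ker.inv_mem (hy1 c)) _ hu,
      inv_NhOff ha (hy1 c), neg_add_cancel_comm]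
    exact ⟨fun h => ⟨κ.ker.mul_mem h6 (hy1 c), h⟩, fun h => h.2⟩
  unfold perm
  rw [← Nat.card_congr ((Equiv.ofBijective f hf).subtypeEquiv hfix), Nat.card_eq_fintype_card,
    Fintype.card_subtype, Finset.card_filter, Fintype.sum_prod_type]
  refine Finset.sum_congr rfl fun j _ => ?_
  simp only [Finset.sum_const, Finset.card_univ, ZMod.card, smul_eq_mul]
  split_ifs <;> simp

theorem chr_NhOff (x : ZMod p) :
    ∑ j : (ZMod p)ˣ, ZMod.stdAddChar ((j : ZMod p) * x) =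
      ((if x = 0 then p else 0 : ℕ) : ℂ) - 1 := by
  have h1 := AddChar.sum_mulShift x (ZMod.isPrimitive_stdAddChar p)
  rw [Fintype.sum_eq_add_sum_subtype_ne _ (0 : ZMod p), zero_mul, AddChar.map_zero_eq_one,
    ZMod.card] at h1
  have h2 : ∑ j : (ZMod p)ˣ, ZMod.stdAddChar ((j : ZMod p) * x) =
      ∑ i : {i : ZMod p // i ≠ 0}, ZMod.stdAddChar ((i : ZMod p) * x) :=
    Fintype.sum_equiv unitsEquivNeZero _ _ fun _ => rfl
  rw [h2, ← h1]
  ring

theorem sum_NhOff (x : (ZMod p)ˣ → ZMod p) :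
    ∑ j : (ZMod p)ˣ × (ZMod p)ˣ, ZMod.stdAddChar ((j.1 : ZMod p) * x j.2) =
      ((∑ j : (ZMod p)ˣ, if x j = 0 then p else 0 : ℕ) : ℂ) - ((p : ℂ) - 1) := by
  rw [Fintype.sum_prod_type_right]
  simp only [chr_NhOff]
  rw [Finset.sum_sub_distrib, Finset.sum_const, Finset.card_univ, ZMod.card_units, Nat.cast_sum,
    nsmul_eq_mul, mul_one, Nat.cast_sub (Fact.out : p.Prime).one_le, Nat.cast_one]

theorem norm_NhOff (x : (ZMod p)ˣ → ZMod p) :
    ‖∑ j : (ZMod p)ˣ × (ZMod p)ˣ, ZMod.stdAddChar ((j.1 : ZMod p) * x j.2)‖ ≤ (p : ℝ) ^ 2 := by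
  refine (norm_sum_le _ _).trans ?_
  simp only [AddChar.norm_apply, Finset.sum_const, Finset.card_univ, Fintype.card_prod,
    ZMod.card_units, nsmul_eq_mul, mul_one]
  rw [sq]
  exact_mod_cast Nat.mul_le_mul (Nat.sub_le p 1) (Nat.sub_le p 1)

end grp

end Pool.Agent.MP_f68ac8_nt.Nd

end

section

namespace Pool.Agent.MP_f68ac8_nt.Nd
open NumberField Finset Filter
open MP_d64882_nt (cnt)
open Zv (Ex Prob)
open scoped Topology BigOperators commutatorElement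

lemma goodN_mono_NhSel {N : Subgroup GQ} {ρ ρ' : ℝ} (h : GoodN N ρ) (hρ : ρ' ≤ ρ) :
    GoodN N ρ' := fun E _ hE => good_mono_NbSel (h E hE) hρ

lemma sup_top_NhSel {n : ℕ} {R R₀ : Finset ℕ} {N N₀ : Subgroup GQ} (h : Ad0 n R N)
    (h₀ : Ad0 n R₀ N₀) (hd : Disjoint R R₀) : N ⊔ N₀ = ⊤ := by
  have := h.nrm
  have := h₀.nrm
  refine eq_top_of_open (N ⊔ N₀) (mem_of_superset h.nhds (le_sup_left : N ≤ N ⊔ N₀)) ?_
  intro P hP g hg
  by_cases hR : ∀ l ∈ R, (l : 𝓞 Qa) ∉ P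
  · exact (le_sup_left : N ≤ N ⊔ N₀) (h.unr P hP hR g hg)
  · simp only [not_forall, not_not] at hR
    obtain ⟨l, hl, hlP⟩ := hR
    refine (le_sup_right : N₀ ≤ N ⊔ N₀) (h₀.unr P hP (fun l' hl' => ?_) g hg)
    refine not_mem_of_coprime hlP ((Nat.coprime_primes (h.pri l hl) (h₀.pri l' hl')).2 ?_)
    rintro rfl
    exact Finset.disjoint_left.1 hd hl hl'

lemma theta_NhSel (n p : ℕ) : ∃ θ : ℝ, 0 < θ ∧ θ < 1 / 2 ∧ θ * (n + 2 * p + 2) < 1 := by
  have h1 : (0 : ℝ) ≤ n := Nat.cast_nonneg n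
  have h2 : (0 : ℝ) ≤ p := Nat.cast_nonneg p
  refine ⟨1 / (2 * (n + 2 * p + 2)), by positivity,
    one_div_lt_one_div_of_lt (by norm_num) (by linarith), ?_⟩
  rw [div_mul_eq_mul_div, one_mul, div_lt_one (by positivity)]
  linarith

lemma div_sq_le_NhSel {c M : ℝ} (hc : 0 ≤ c) (hM : 1 ≤ M) : c / M ^ 2 ≤ c :=
  div_le_self hc (one_le_pow₀ hM)

lemma key_NhSel (p : ℕ) [Fact p.Prime] (hI : DichP) (hG : GrpP p)
    (F : IntermediateField ℚ Qa) [NumberField F] (hF : F.fixingSubgroup = Gz p) {ρF : ℝ}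
    (hρ : 0 < ρF) (hg : Good F ρF) (n : ℕ) :
    ∃ c : ℝ, 0 < c ∧ c ≤ ρF ∧ ∀ R N, Ad0 n R N → N ≤ Gz p → (∀ g ∈ Gz p, ∃ k, g ^ p ^ k ∈ N) →
      ∀ M : ℝ, sz R ≤ M → ∀ A B : Subgroup GQ, N ≤ A → N ≤ B → A ≤ Gz p → B ≤ Gz p →
      (∀ x ∈ Gz p, ∃ a ∈ A, ∃ b ∈ B, a * b = x) → GoodN A (c / M ^ 2) ∨ GoodN B (c / M ^ 2) := by
  obtain ⟨θ, h0, h1, h2⟩ := theta_NhSel n p
  obtain ⟨c, hc, hcc, hI⟩ := hI n θ ρF h0 h1 hρ
  refine ⟨c, hc, hcc, fun R N h hle hpg M hM A B hA hB hA' hB' hx => ?_⟩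
  obtain ⟨σ, w, hw, hs, hd, hE⟩ := hI R N h M hM
  obtain ⟨g1, g2⟩ := hG GQ N n h.nrm h.idx.1 h.idx.2 σ w θ hw hs h0.le h2 hd
  have hbad : ∀ A : Subgroup GQ, N ≤ A → ¬ GoodN A (c / M ^ 2) → Sw σ w A ≤ θ := by
    intro A hA hb
    by_contra hn
    refine hb fun E _ hAE => ?_
    by_contra hE'
    exact hn (g1 A _ hA hAE ((hE E (hA.trans hAE)).1 hE'))
  by_contra hcon
  rw [not_or] at hcon
  have h3 := (g2 (Gz p) hle hpg).1 A B hA hB hA' hB' hx (hbad A hA hcon.1) (hbad B hB hcon.2)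
  rw [← hF] at h3 hle
  exact (hE F hle).2 h3
    (good_mono_NbSel hg (div_sq_le_NhSel hρ.le ((one_le_sz_NbRep R).trans hM)))

lemma prod_NhSel {G : Type} [Group G] {N N₀ K : Subgroup G} [N₀.Normal] {p : ℕ} (hp : p.Prime)
    (ht : N ⊔ N₀ = ⊤) (hpg : ∀ g : G, ∃ k, g ^ p ^ k ∈ N₀) (hK : ∀ g : G, g ^ (p - 1) ∈ K) :
    ∀ x ∈ K, ∃ a ∈ N ⊓ K, ∃ b ∈ N₀ ⊓ K, a * b = x := by
  intro x hx
  obtain ⟨u, hu, v, hv, rfl⟩ :=
    Subgroup.mem_sup_of_normal_right.1 (ht ▸ Subgroup.mem_top x : x ∈ N ⊔ N₀)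
  obtain ⟨k, hk⟩ := hpg u
  have hco : (p ^ k).Coprime (p - 1) :=
    Nat.Coprime.pow_left k ((Nat.coprime_self_sub_right hp.one_le).2 (Nat.coprime_one_right p))
  obtain ⟨m, hm1, hm2⟩ := Nat.chineseRemainder hco 1 0
  obtain ⟨j, rfl⟩ := Nat.modEq_zero_iff_dvd.1 hm2
  have ha : u ^ ((p - 1) * j) ∈ K := by
    rw [pow_mul]
    exact K.pow_mem (hK u) j
  refine ⟨u ^ ((p - 1) * j), ⟨N.pow_mem hu _, ha⟩, (u ^ ((p - 1) * j))⁻¹ * (u * v),
    ⟨?_, K.mul_mem (K.inv_mem ha) hx⟩, mul_inv_cancel_left _ _⟩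
  have h1 : (u : G ⧸ N₀) ^ p ^ k = 1 := by
    rw [← QuotientGroup.mk_pow, QuotientGroup.eq_one_iff]
    exact hk
  refine QuotientGroup.eq.1 ?_
  rw [QuotientGroup.mk_pow, pow_eq_pow_of_modEq hm1 h1, pow_one, QuotientGroup.mk_mul,
    (QuotientGroup.eq_one_iff v).2 hv, mul_one]

lemma prod2_NhSel {G : Type} [Group G] {N M K : Subgroup G} [N.Normal] {p : ℕ} (hp : p.Prime)
    (hN : N ≤ K) (hM : M ≤ K) (hi : M.relIndex K = p) (hn : ¬ N ≤ M) :
    ∀ x ∈ K, ∃ a ∈ N, ∃ b ∈ M, a * b = x := by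
  intro x hx
  have h1 := Subgroup.relIndex_mul_relIndex M (N ⊔ M) K le_sup_right (sup_le hN hM)
  rw [hi] at h1
  rcases (Nat.prime_mul_iff.1 (h1 ▸ hp)) with h2 | h2
  · exact Subgroup.mem_sup_of_normal_left.1 (Subgroup.relIndex_eq_one.1 h2.2 hx)
  · exact absurd (le_sup_left.trans (Subgroup.relIndex_eq_one.1 h2.2)) hn

lemma conj_NhSel {l : ℕ} {P : Ideal (𝓞 Qa)} [P.IsMaximal] (hl : (l : 𝓞 Qa) ∈ P) {u : GQ}
    (h : u ∈ P.inertia GQ) (g : GQ) :
    ∃ P' : Ideal (𝓞 Qa), P'.IsMaximal ∧ (l : 𝓞 Qa) ∈ P' ∧ g * u * g⁻¹ ∈ P'.inertia GQ := by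
  refine ⟨P.comap (MulSemiringAction.toRingHom _ _ g⁻¹), Ideal.comap_isMaximal_of_surjective _
    fun x => ⟨g • x, by simp⟩, by simpa using hl, fun x => ?_⟩
  simpa [smul_sub, mul_smul] using h (g⁻¹ • x)

lemma core_NhSel {n p₁ : ℕ} {R : Finset ℕ} {N M : Subgroup GQ} (h : Ad0 n R N) (hM : N ≤ M)
    (hne : ¬ ∃ p₀ : ℕ, p₁ ≤ p₀ ∧ p₀.Prime ∧ ∃ P : Ideal (𝓞 Qa), P.IsMaximal ∧
      (p₀ : 𝓞 Qa) ∈ P ∧ ∃ g ∈ P.inertia GQ, g ∉ M) :
    Ad0 n (R.filter (· < p₁)) M.normalCore := by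
  have := h.nrm
  have hle : N ≤ M.normalCore := Subgroup.normal_le_normalCore.2 hM
  have hdv := Subgroup.index_dvd_of_le hle
  refine ⟨fun l hl => h.pri l (mem_filter.1 hl).1, inferInstance, mem_of_superset h.nhds hle,
    ⟨ne_zero_of_dvd_ne_zero h.idx.1 hdv,
      (Nat.le_of_dvd (Nat.pos_of_ne_zero h.idx.1) hdv).trans h.idx.2⟩, fun P hP hl g hg => ?_⟩
  by_cases hR : ∀ l ∈ R, (l : 𝓞 Qa) ∉ P
  · exact hle (h.unr P hP hR g hg)
  · simp only [not_forall, not_not] at hR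
    obtain ⟨l, hlR, hlP⟩ := hR
    intro b
    obtain ⟨P', hP', hl', hb⟩ := conj_NhSel hlP hg b
    by_contra hbM
    exact hne ⟨l, not_lt.1 fun hlt => hl l (mem_filter.2 ⟨hlR, hlt⟩) hlP, h.pri l hlR, P', hP',
      hl', _, hb, hbM⟩

lemma four_NhSel (c M : ℝ) : c / (2 * M) ^ 2 = c / 4 / M ^ 2 := by
  rw [mul_pow, div_div]
  norm_num

theorem selP (p : ℕ) [Fact p.Prime] (hD : DiscP) (hC : CountP) (hE : ExcStmt) (hI : DichP)
    (hG : GrpP p) (hZ : GzP p) : SelP p := by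
  have hp : p.Prime := Fact.out
  obtain ⟨hZ0, hZp, -, -, hinf, -, F, hFn, hF, -, -⟩ := hZ
  obtain ⟨ρF, hρF, hgF⟩ := hE (Real.log (Bd F))
  have key := key_NhSel p hI hG F hF hρF (hgF F le_rfl)
  refine ⟨fun n => ?_, ?_⟩
  · obtain ⟨c, hc, -, hK⟩ := key (n * n * p)
    refine ⟨c / 4, by positivity, fun M ρ r hρ => ?_⟩
    by_cases hbad : ∃ R₀ N₀, AdQ p n R₀ N₀ ∧ R₀.card ≤ r ∧ sz (insert p R₀) ≤ M ∧
        ¬ GoodN (N₀ ⊓ Gz p) ρ
    · obtain ⟨R₀, N₀, h₀, hr, hM, hb⟩ := hbad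
      refine ⟨R₀, hr, fun R N h _ hs hd => ?_⟩
      have := h₀.nrm
      have hA := hinf _ _ _ _ _ _ (hinf _ _ _ _ _ _ h.toAd0 h₀.toAd0) hZ0
      have hsz : sz (R ∪ R₀ ∪ {p}) ≤ 2 * M := by
        have e : R ∪ R₀ ∪ {p} = insert p R ∪ insert p R₀ := by
          ext x
          simp only [mem_union, mem_singleton, mem_insert]
          tauto
        have := sz_union_NbRep (insert p R) (insert p R₀)
        rw [e]
        linarith
      have hpg : ∀ g ∈ Gz p, ∃ k, g ^ p ^ k ∈ N ⊓ N₀ ⊓ Gz p := fun g hg => by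
        obtain ⟨k, hk⟩ := h.pg g
        obtain ⟨k', hk'⟩ := h₀.pg g
        refine ⟨k + k', ⟨?_, ?_⟩, (Gz p).pow_mem hg _⟩
        · rw [pow_add, pow_mul]
          exact N.pow_mem hk _
        · rw [add_comm, pow_add, pow_mul]
          exact N₀.pow_mem hk' _
      have h3 := hK _ _ hA inf_le_right hpg _ hsz (N ⊓ Gz p) (N₀ ⊓ Gz p)
        (inf_le_inf_right _ inf_le_left) (inf_le_inf_right _ inf_le_right) inf_le_right
        inf_le_right (prod_NhSel hp (sup_top_NhSel h.toAd0 h₀.toAd0 hd) h₀.pg hZp)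
      rw [four_NhSel] at h3
      exact goodN_mono_NhSel (h3.resolve_right fun h4 => hb (goodN_mono_NhSel h4 hρ)) hρ
    · refine ⟨∅, by simp, fun R N h hr hs _ => ?_⟩
      by_contra hb
      exact hbad ⟨R, N, h, hr, hs, hb⟩
  · obtain ⟨c₂, hc₂, hc₂F, hK⟩ := key (p ^ 3 * p ^ 3)
    obtain ⟨θ, h0, h1, h2⟩ := theta_NhSel (p ^ 3) p
    obtain ⟨c₁, hc₁, hc₁₂, hI⟩ := hI (p ^ 3) θ (c₂ / 4) h0 h1 (by positivity)
    obtain ⟨C, hC1, hD⟩ := hD (p ^ 3)
    refine ⟨c₁, hc₁, fun p₁ => ?_⟩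
    obtain ⟨ρ₁, hρ₁, hE⟩ := hE (C * sz (range p₁))
    obtain ⟨M₁, hM₁, hM₁'⟩ : ∃ M₁ : ℝ, 1 ≤ M₁ ∧ c₂ / 4 / M₁ ^ 2 ≤ ρ₁ := by
      refine ⟨max 1 (c₂ / 4 / ρ₁), le_max_left _ _, ?_⟩
      have h3 := le_max_left 1 (c₂ / 4 / ρ₁)
      have h4 := (div_le_iff₀ hρ₁).1 (le_max_right 1 (c₂ / 4 / ρ₁))
      rw [div_le_iff₀ (by positivity)]
      nlinarith [mul_le_mul_of_nonneg_left h3 (mul_nonneg hρ₁.le (zero_le_one.trans h3))]
    refine ⟨c₁ / M₁ ^ 2, by positivity, fun M ρ hρ hρ' => ?_⟩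
    by_cases hbad : ∃ R₀ N₀, AdE p R₀ N₀ ∧ sz R₀ ≤ M ∧ ¬ GoodN N₀ ρ
    · obtain ⟨R₀, N₀, h₀, hM, hb⟩ := hbad
      obtain ⟨M', hM1, hM2, hM3⟩ : ∃ M' : ℝ, M ≤ M' ∧ M₁ ≤ M' ∧ ρ ≤ c₁ / M' ^ 2 := by
        rcases le_total M M₁ with h | h
        · exact ⟨M₁, h, le_rfl, hρ'⟩
        · exact ⟨M, le_rfl, h, hρ⟩
      obtain ⟨σ, w, hw, hs, hd, hdi⟩ := hI R₀ N₀ h₀.toAd0 M' (hM.trans hM1)
      obtain ⟨g1, g2⟩ := hG GQ N₀ (p ^ 3) h₀.nrm h₀.idx.1 h₀.idx.2 σ w θ hw hs h0.le h2 hd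
      have hb0 : Sw σ w N₀ ≤ θ := by
        by_contra hn
        refine hb fun E _ hAE => good_mono_NbSel ?_ hM3
        by_contra hE'
        exact hn (g1 N₀ _ le_rfl hAE ((hdi E hAE).1 hE'))
      have hnb : ¬ Sw σ w (Gz p) ≤ θ := fun h3 => by
        have hle := h₀.le
        rw [← hF] at h3 hle
        refine (hdi F hle).2 h3 (good_mono_NbSel (hgF F le_rfl) ?_)
        exact (div_sq_le_NhSel (by positivity) (hM₁.trans hM2)).trans (by linarith)
      obtain ⟨M₀, hN₀, hM₀, hidx, hb₀⟩ :=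
        (g2 (Gz p) h₀.le fun g hg => ⟨1, by rw [pow_one]; exact h₀.pw g hg⟩).2 h₀.pw h₀.cm hnb
          N₀ le_rfl h₀.le hb0
      obtain ⟨E₀, hE₀n, hE₀⟩ := (hC _ _ _ h₀.toAd0).1 M₀ hN₀
      have hng : ¬ Good E₀ (c₂ / 4 / M' ^ 2) :=
        (hdi E₀ (hN₀.trans hE₀.ge)).2 (by rw [hE₀]; exact hb₀)
      have hex : ∃ p₀ : ℕ, p₁ ≤ p₀ ∧ p₀.Prime ∧ ∃ P : Ideal (𝓞 Qa), P.IsMaximal ∧
          (p₀ : 𝓞 Qa) ∈ P ∧ ∃ g ∈ P.inertia GQ, g ∉ M₀ := by
        by_contra hne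
        have hA := core_NhSel h₀.toAd0 hN₀ hne
        refine hng (good_mono_NbSel (hE E₀ ((hD _ _ hA E₀
          (M₀.normalCore_le.trans hE₀.ge)).2.trans ?_)) (le_trans ?_ hM₁'))
        · exact mul_le_mul_of_nonneg_left (sz_le_NbSel _ p₁ fun l hl => (mem_filter.1 hl).2)
            (by linarith)
        · gcongr
      obtain ⟨p₀, hp₀, hpp, P, hP, hpP, g, hg, hgN⟩ := hex
      refine ⟨p₀, hp₀, fun R N h hs' hp₀' => ?_⟩
      have hgN' : g ∈ N := by
        refine h.unr P hP (fun l hl => ?_) g hg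
        refine not_mem_of_coprime hpP ((Nat.coprime_primes hpp (h.pri l hl)).2 ?_)
        rintro rfl
        exact hp₀' hl
      have := h.nrm
      have hsz : sz (R ∪ R₀) ≤ 2 * M' := by
        have := sz_union_NbRep R R₀
        linarith
      have h3 := hK _ _ (hinf _ _ _ _ _ _ h.toAd0 h₀.toAd0) (inf_le_left.trans h.le)
        (fun x hx => ⟨1, by rw [pow_one]; exact ⟨h.pw x hx, h₀.pw x hx⟩⟩) _ hsz N M₀ inf_le_left
        (inf_le_right.trans hN₀) h.le hM₀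
        (prod2_NhSel hp h.le hM₀ hidx fun hle => hgN (hle hgN'))
      rw [four_NhSel] at h3
      refine goodN_mono_NhSel (h3.resolve_right fun h4 => hng (h4 E₀ hE₀.ge)) (hM3.trans ?_)
      gcongr
    · refine ⟨p₁, le_rfl, fun R N h hs _ => ?_⟩
      by_contra hb
      exact hbad ⟨R, N, h, hs, hb⟩

end Pool.Agent.MP_f68ac8_nt.Nd

end

section

namespace Pool.Agent.MP_f68ac8_nt.Nd
open NumberField Finset Filter
open MP_d64882_nt (cnt)
open Zv (Ex Prob)
open scoped Topology BigOperators commutatorElement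

theorem artinP : ArtinP := by
  classical
  refine fun n => ⟨2 ^ 2 ^ n, by positivity, fun G _ N hN h0 hn e φ hφ => ?_⟩
  have : Finite (G ⧸ N) := Nat.finite_of_card_ne_zero h0
  have := Fintype.ofFinite (G ⧸ N)
  have hπ := QuotientGroup.mk'_surjective N
  let φ' : G ⧸ N → ℂ := fun q => φ q.out
  have e1 : ∀ g : G, φ' (QuotientGroup.mk' N g) = φ g := fun g => by
    obtain ⟨m, hm⟩ := QuotientGroup.mk_out_eq_mul N g
    change φ (g : G ⧸ N).out = φ g
    rw [hm, ← hφ.inv _ (hN.conj_mem _ m.2 g) g, inv_mul_cancel_right]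
  have e2 : ∀ x : G ⧸ N, x ^ e = 1 := fun x => by
    obtain ⟨g, rfl⟩ := hπ x
    rw [← map_pow]
    exact (QuotientGroup.eq_one_iff _).2 (hφ.pow g)
  have e3 : ∑ x, φ' x = 0 := by
    obtain ⟨z, k, hk, hz⟩ := hφ.sh
    have h1 : ∑ i ∈ range k, ∑ x, φ' x = 0 := by
      rw [sum_congr rfl fun i _ =>
        (Equiv.sum_comp (Equiv.mulLeft (QuotientGroup.mk' N (z ^ i))) φ').symm, sum_comm]
      refine sum_eq_zero fun x _ => ?_
      obtain ⟨g, rfl⟩ := hπ x
      refine Eq.trans (sum_congr rfl fun i _ => ?_) (hz g)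
      change φ' (QuotientGroup.mk' N (z ^ i) * QuotientGroup.mk' N g) = _
      rw [← map_mul, e1]
    rw [sum_const, card_range, nsmul_eq_mul] at h1
    exact (mul_eq_zero.1 h1).resolve_left (Nat.cast_ne_zero.2 hk.ne')
  obtain ⟨c, c1, c2, c3⟩ := fin_NbArtin (ψ := fun x => 𝔼 a : Exm e, φ' (x ^ (a.1 : ℕ)))
    (fun _ => norm_NbArtin fun _ => hφ.le _)
    (fun x g => expect_congr rfl fun a _ => by
      obtain ⟨x, rfl⟩ := hπ x
      obtain ⟨g, rfl⟩ := hπ g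
      rw [← map_inv, ← map_mul, ← map_mul, ← map_pow, ← map_pow, e1, e1,
        ← hφ.cls x⁻¹ (g ^ (a.1 : ℕ)), ← conj_pow, inv_inv])
    (fun _ _ h => gen_NbArtin hφ.pos e2 h) (zero_NbArtin hφ.pos e2 e3)
  refine ⟨univ.map ⟨Subgroup.comap (QuotientGroup.mk' N), Subgroup.comap_injective hπ⟩,
    fun H => c (H.map (QuotientGroup.mk' N)), fun H hH => ?_, ?_, ?_, fun g => ?_⟩
  · obtain ⟨K, -, rfl⟩ := mem_map.1 hH
    exact QuotientGroup.le_comap_mk' N K
  · simp only [sum_map, Function.Embedding.coeFn_mk, Subgroup.map_comap_eq_self_of_surjective hπ]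
    exact c1.trans (pow_le_pow_right₀ one_le_two (Nat.pow_le_pow_right two_pos hn))
  · simpa only [sum_map, Function.Embedding.coeFn_mk,
      Subgroup.map_comap_eq_self_of_surjective hπ] using c2
  · simp only [sum_map, Function.Embedding.coeFn_mk, Subgroup.map_comap_eq_self_of_surjective hπ,
      comap_NbArtin _ hπ, ← c3, ← map_pow, e1]

theorem chebP (hP : PsumStmt) (hW : WinStmt) (hD : DiscP) (hC : CountP) (hA : ArtinP) :
    ChebP := by
  intro n
  obtain ⟨Cd, hd1, hD⟩ := hD n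
  obtain ⟨cw, hcw, hW⟩ := hW n
  obtain ⟨Ca, hCa, hA⟩ := hA n
  have hd0 : 0 < Cd := one_pos.trans_le hd1
  refine ⟨cw / Cd, div_pos hcw hd0, fun k => ?_⟩
  obtain ⟨Cw, hCw, hW⟩ := hW k
  have hn : (0 : ℝ) ≤ n := n.cast_nonneg
  refine ⟨Ca * (Cw * Cd + n) + Cw, by positivity,
    fun R N hN M ρ h s τ η hM hρ hρ' hG hh hCh hs hs' hτ A σ hσ hη e φ hφ => ?_⟩
  obtain ⟨T, c, hT, hc, hc0, hφ⟩ := hA GQ N hN.nrm hN.idx.1 hN.idx.2 e φ hφ
  obtain ⟨h1, h2⟩ := hC n R N hN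
  have hM1 : 1 ≤ M := le_trans
    (le_add_of_nonneg_right (sum_nonneg fun l _ => Real.log_natCast_nonneg l)) hM
  have hw0 := fun l => (hP.2.1 s h k l hh.le).1
  have hw : Summable fun l => wl s h k l :=
    (hP.1 s hs).1.of_nonneg_of_le hw0 fun l => (hP.2.1 s h k l hh.le).2
  have hη0 : 0 ≤ η := by linarith [hw.sum_le_tsum A fun l _ => hw0 l]
  obtain ⟨E', _, hE'⟩ := h1 ⊤ le_top
  have hN' : N ≤ E'.fixingSubgroup := hE' ▸ le_top
  have hB : ∀ H ∈ T, ‖∑ l ∈ A, ((perm H (σ l) : ℂ) - cnt E' l) * (wl s h k l : ℝ) * tw τ l‖ ≤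
      Cw * (Cd * M) * (h / ρ) ^ (k + 1) + n * η := fun H hH => by
    obtain ⟨E, _, rfl⟩ := h1 H (hT H hH)
    have hE := hT _ hH
    rw [sum_congr rfl fun l hl => by rw [← h2 E hE l (hσ l hl).1 (hσ l hl).2.1 _ (hσ l hl).2.2]]
    refine (tail_NbCheb hn hw (fun l => ?_) A hη).trans (add_le_add_left (hW E E' (hD R N hN E hE).1
      (hD R N hN E' hN').1 _ ρ h s τ (one_le_mul_of_one_le_of_one_le hd1 hM1)
      ((hD R N hN E hE).2.trans (by gcongr)) ((hD R N hN E' hN').2.trans (by gcongr)) hρ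
      (by rwa [← div_div]) (hG E hE) (hG E' hN') hh (le_trans (by
        gcongr
        exact le_add_of_nonneg_left (by positivity)) hCh) hs hs'
      (hτ.trans (div_le_self hcw.le hd1))) _)
    rw [norm_mul, norm_mul, tw_NbCheb, mul_one, Complex.norm_real, Real.norm_of_nonneg (hw0 l)]
    by_cases hl : l.Prime
    · exact mul_le_mul_of_nonneg_right (sub_NbCheb (((hP.2.2 E).1 l hl).trans (hD R N hN E hE).1)
        (((hP.2.2 E').1 l hl).trans (hD R N hN E' hN').1)) (hw0 l)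
    · rw [wl, if_neg hl, mul_zero, mul_zero]
  have he : ∑ l ∈ A, (wl s h k l : ℝ) * tw τ l * 𝔼 a : Exm e, φ (σ l ^ (a.1 : ℕ)) =
      ∑ H ∈ T, c H * ∑ l ∈ A, ((perm H (σ l) : ℂ) - cnt E' l) * (wl s h k l : ℝ) * tw τ l := by
    simp only [mul_sum]
    rw [sum_comm]
    refine sum_congr rfl fun l _ => ?_
    rw [hφ, ← sub_zero (∑ H ∈ T, _), ← zero_mul (cnt E' l : ℂ), ← hc0, sum_mul,
      ← sum_sub_distrib, mul_sum]
    exact sum_congr rfl fun H _ => by ring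
  have hq : 0 ≤ M * (h / ρ) ^ (k + 1) := by positivity
  rw [he]
  refine (norm_sum_le_of_le _ fun H hH => norm_mul_le_of_le le_rfl (hB H hH)).trans ?_
  rw [← sum_mul]
  refine (mul_le_mul_of_nonneg_right hc (by positivity)).trans ?_
  rw [mul_assoc Cw, mul_assoc Cd]
  generalize M * (h / ρ) ^ (k + 1) = q at hq
  have : 0 ≤ Ca * (Cw * Cd * η + n * q) + Cw * (q + η) := by positivity
  linarith

theorem chZ (p : ℕ) [Fact p.Prime] (hC : ChebP) (hG : GzP p) : ChZ p := by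
  intro n
  obtain ⟨c, hc, hC⟩ := hC n
  refine ⟨c, hc, fun k => ?_⟩
  obtain ⟨C, hC0, hC⟩ := hC k
  refine ⟨C, hC0, fun R N hN hp hle M ρ h s τ η hM hρ hρ' hg hh hCh hs hs' hτ A σ hA hσ hη e φ hφ
    h0 => ?_⟩
  have h1 : ∀ l, ∃ σ' : GQ, (l ≡ 1 [MOD p] → σ' = σ l) ∧ (l ∈ A → Fr l σ') := fun l => by
    by_cases h2 : l ≡ 1 [MOD p]
    · exact ⟨σ l, fun _ => rfl, fun hl => hσ l hl h2⟩
    · by_cases hl : l ∈ A
      · obtain ⟨σ', h3⟩ := hG.2.2.2.1 l (hA l hl).1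
        exact ⟨σ', fun h4 => absurd h4 h2, fun _ => h3⟩
      · exact ⟨1, fun h4 => absurd h4 h2, fun h4 => absurd h4 hl⟩
  choose σ' h2 h3 using h1
  refine le_of_eq_of_le (congrArg norm ?_) (hC R N hN M ρ h s τ η hM hρ hρ' hg hh hCh hs hs' hτ A σ'
    (fun l hl => ⟨(hA l hl).1, (hA l hl).2, h3 l hl⟩) hη e φ hφ)
  rw [sum_filter]
  refine sum_congr rfl fun l hl => ?_
  by_cases h4 : l ≡ 1 [MOD p]
  · rw [if_pos h4, h2 l h4]
  · rw [if_neg h4, expect_eq_zero fun a _ => h0 _ fun h5 => h4 ?_, mul_zero]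
    refine (hG.2.2.1 l _ (hA l hl).1 (fun e => (hA l hl).2 (e ▸ hp)) (h3 l hl)).1 ?_
    have h6 : cyc (Ω := Qa) p (σ' l ^ (a.1 : ℕ)) = 1 := h5
    have h7 : cyc (Ω := Qa) p (σ' l ^ e) = 1 := hle (hφ.pow _)
    rw [map_pow] at h6 h7
    have h8 := pow_gcd_eq_one.2 ⟨h6, h7⟩
    rwa [a.2, pow_one] at h8

open Classical in
theorem tf_NhCheb {G : Type} [Group G] {N H : Subgroup G} (hH : H.Normal) {p e : ℕ}
    (hp : p.Prime) (h1 : ∀ g : G, g ^ (p - 1) ∈ H) (h2 : ∀ g : G, ∃ k, g ^ p ^ k ∈ N)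
    {φ : G → ℂ} (hφ : Tf N e φ) (he : p - 1 ∣ e) :
    Tf0 (N ⊓ H) e fun g => if g ∈ H then φ g else 0 := by
  have h3 : ∀ (g : G) (m : ℕ), p - 1 ∣ m → g ^ m ∈ H := by
    rintro g _ ⟨m, rfl⟩
    rw [pow_mul]
    exact H.pow_mem (h1 g) m
  refine ⟨hφ.pos, fun g => ⟨hφ.pow g, h3 g e he⟩, fun g => ?_, fun n hn g => ?_, fun s g => ?_, ?_⟩
  · split_ifs
    exacts [hφ.le g, norm_zero.trans_le zero_le_one]
  · simp only [H.mul_mem_cancel_left hn.2, hφ.inv n hn.1]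
  · have h4 : s * g * s⁻¹ ∈ H ↔ g ∈ H :=
      ⟨fun h => by simpa [mul_assoc] using hH.conj_mem _ h s⁻¹, fun h => hH.conj_mem _ h s⟩
    simp only [h4, hφ.cls]
  obtain ⟨z, ε, hε, hz⟩ := hφ.sh
  obtain ⟨k, hk⟩ := h2 z
  obtain ⟨m, hm1, hm2⟩ := Nat.chineseRemainder (Nat.Coprime.pow_left k
    ((Nat.coprime_self_sub_right hp.one_le).2 (Nat.coprime_one_right p))) 1 0
  have h4 : ∀ (i : ℕ) g, φ (z ^ i * g) = ε ^ i * φ g := fun i g => by
    induction i with
    | zero => rw [pow_zero, pow_zero, one_mul, one_mul]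
    | succ i ih => rw [pow_succ', mul_assoc, hz, ih, pow_succ', mul_assoc]
  refine ⟨z ^ m, p ^ k, pow_pos hp.pos k, fun g => ?_⟩
  simp only [fun i => H.mul_mem_cancel_left (y := g)
    (H.pow_mem (h3 z m (Nat.modEq_zero_iff_dvd.1 hm2)) i)]
  by_cases hg : g ∈ H
  · simp only [hg, if_true, ← pow_mul z, h4, pow_mul ε, ← sum_mul]
    refine mul_eq_zero.2 (or_iff_not_imp_right.2 fun h5 => ?_)
    have h6 : ε ^ p ^ k = 1 := mul_right_cancel₀ h5 (by rw [← h4, hφ.inv _ hk, one_mul])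
    rw [pow_eq_pow_of_modEq hm1 h6, pow_one, geom_sum_eq hε, h6, sub_self, zero_div]
  · simp only [hg, if_false, sum_const_zero]

theorem chQ (p : ℕ) [Fact p.Prime] (hZ : ChZ p) (hG : GzP p) : ChQ p := by
  classical
  intro n
  obtain ⟨c, hc, hZ⟩ := hZ (n * p)
  refine ⟨c, hc, fun k => ?_⟩
  obtain ⟨C, hC0, hZ⟩ := hZ k
  refine ⟨C, hC0, fun R N hN M ρ h s τ η hM hρ hρ' hg hh hCh hs hs' hτ A σ hA hσ hη e φ hφ he => ?_⟩
  have h1 := hG.2.2.2.2.1 _ _ _ _ _ _ hN.toAd0 hG.1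
  rw [union_comm, ← insert_eq] at h1
  refine le_of_eq_of_le (congrArg norm (sum_congr rfl fun l hl => ?_)) (hZ _ _ h1
    (mem_insert_self p R) inf_le_right M ρ h s τ η hM hρ hρ' hg hh hCh hs hs' hτ A σ hA hσ hη e _
    (tf_NhCheb hG.1.nrm Fact.out hG.2.1 hN.pg hφ he) fun g hg => if_neg hg)
  obtain ⟨h2, h3⟩ := mem_filter.1 hl
  have h4 := (hG.2.2.1 l _ (hA l h2).1 (fun e => (hA l h2).2 (e ▸ mem_insert_self _ R))
    (hσ l h2 h3)).2 h3
  exact congrArg _ (expect_congr rfl fun a _ => (if_pos ((Gz p).pow_mem h4 _)).symm)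

end Pool.Agent.MP_f68ac8_nt.Nd

end

section

/-! The power mean step for bilinear sums and the choice of the exponents. -/

namespace Pool.Agent.MP_f68ac8_nt.Nd

open NumberField Finset Filter
open MP_d64882_nt (cnt)
open Zv (Ex Prob)
open scoped Topology BigOperators commutatorElement

theorem pm_NhHol (B : Finset ℕ) (w z : ℕ → ℝ) (n : ℕ) (hw : ∀ i ∈ B, 0 ≤ w i)
    (hz : ∀ i ∈ B, 0 ≤ z i) :
    (∑ i ∈ B, w i * z i) ^ (n + 1) ≤ (∑ i ∈ B, w i) ^ n * ∑ i ∈ B, w i * z i ^ (n + 1) := by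
  rcases (sum_nonneg hw).eq_or_lt with h0 | h0
  · have h1 : ∀ i ∈ B, w i = 0 := (sum_eq_zero_iff_of_nonneg hw).mp h0.symm
    have h2 : ∑ i ∈ B, w i * z i = 0 := sum_eq_zero fun i hi => by rw [h1 i hi, zero_mul]
    rw [h2, zero_pow (Nat.succ_ne_zero n)]
    exact mul_nonneg (pow_nonneg (sum_nonneg hw) _)
      (sum_nonneg fun i hi => mul_nonneg (hw i hi) (pow_nonneg (hz i hi) _))
  set W := ∑ i ∈ B, w i with hW
  have h := Real.pow_arith_mean_le_arith_mean_pow B (fun i => w i / W) z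
    (fun i hi => div_nonneg (hw i hi) h0.le) (by rw [← sum_div, div_self h0.ne']) hz (n + 1)
  simp only [div_mul_eq_mul_div, ← sum_div] at h
  rw [div_pow, div_le_div_iff₀ (by positivity) h0] at h
  refine le_of_mul_le_mul_right ?_ h0
  calc _ ≤ _ := h
    _ = _ := by ring

theorem holP : HolP := by
  intro ι A B a ω b γ K T hK ha hT
  obtain ⟨n, rfl⟩ : ∃ n, K = n + 1 := ⟨K - 1, by omega⟩
  have hω : ∀ x : A, 0 ≤ ω x := fun x => (norm_nonneg _).trans (ha x x.2)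
  let U : ℕ → ℂ := fun m => ∑ x : A, a x * γ m x
  choose u hu1 hu2 using fun m => Complex.exists_norm_eq_mul_self (U m ^ (n + 1))
  let β : ℕ → ℂ := fun m => (‖b m‖ : ℝ) * u m
  have hβ : ∀ m, ‖β m‖ ≤ ‖b m‖ := fun m => by simp [β, hu1]
  let g : (Fin (n + 1) → A) → ℂ := fun x => ∑ m ∈ B, β m * ∏ i, γ m (x i)
  have hg : ∑ x : Fin (n + 1) → A, (∏ i, ω (x i)) * ‖g x‖ ^ 2 ≤ T := hT β hβ
  set X := ‖∑ x ∈ A, ∑ m ∈ B, a x * b m * γ m x‖ with hX
  set Y := ∑ m ∈ B, ‖b m‖ * ‖U m‖ ^ (n + 1) with hY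
  have hX0 : 0 ≤ X := norm_nonneg _
  have hY0 : 0 ≤ Y := sum_nonneg fun _ _ => by positivity
  have s1 : X ≤ ∑ m ∈ B, ‖b m‖ * ‖U m‖ := by
    rw [hX, sum_comm]
    refine (norm_sum_le _ _).trans (sum_le_sum fun m _ => le_of_eq ?_)
    rw [← norm_mul, mul_sum, ← sum_coe_sort A]
    congr 1
    exact sum_congr rfl fun l _ => by ring
  have s2 : X ^ (n + 1) ≤ (∑ m ∈ B, ‖b m‖) ^ n * Y :=
    (pow_le_pow_left₀ hX0 s1 _).trans
      (pm_NhHol B _ _ n (fun _ _ => norm_nonneg _) fun _ _ => norm_nonneg _)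
  have e : (Y : ℂ) = ∑ x : Fin (n + 1) → A, (∏ i, a (x i)) * g x := by
    have e1 : (Y : ℂ) = ∑ m ∈ B, β m * U m ^ (n + 1) := by
      rw [hY, Complex.ofReal_sum]
      refine sum_congr rfl fun m _ => ?_
      rw [Complex.ofReal_mul, ← norm_pow, hu2, mul_assoc]
    rw [e1]
    simp only [U, g, Fintype.sum_pow, mul_sum]
    rw [sum_comm]
    refine sum_congr rfl fun x _ => sum_congr rfl fun m _ => ?_
    rw [prod_mul_distrib]
    ring
  have s3 : Y ≤ ∑ x : Fin (n + 1) → A, (∏ i, ω (x i)) * ‖g x‖ := by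
    refine (le_abs_self _).trans ?_
    rw [← Real.norm_eq_abs, ← Complex.norm_real, e]
    refine (norm_sum_le _ _).trans (sum_le_sum fun x _ => ?_)
    rw [norm_mul, norm_prod]
    exact mul_le_mul_of_nonneg_right (prod_le_prod (fun _ _ => norm_nonneg _)
      fun i _ => ha _ (x i).2) (norm_nonneg _)
  have hp : ∀ x : Fin (n + 1) → A, 0 ≤ ∏ i, ω (x i) := fun x => prod_nonneg fun i _ => hω _
  have s4 : Y ^ 2 ≤ (∑ x ∈ A, ω x) ^ (n + 1) * T := by
    have c := sum_sq_le_sum_mul_sum_of_sq_le_mul (univ : Finset (Fin (n + 1) → A))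
      (r := fun x => (∏ i, ω (x i)) * ‖g x‖) (f := fun x => ∏ i, ω (x i))
      (g := fun x => (∏ i, ω (x i)) * ‖g x‖ ^ 2) (fun x _ => hp x)
      (fun x _ => mul_nonneg (hp x) (sq_nonneg _)) fun _ _ => le_of_eq (by ring)
    refine ((pow_le_pow_left₀ hY0 s3 2).trans c).trans ?_
    rw [← sum_coe_sort A, Fintype.sum_pow]
    exact mul_le_mul_of_nonneg_left hg (sum_nonneg fun x _ => hp x)
  have hW : 0 ≤ ∑ m ∈ B, ‖b m‖ := sum_nonneg fun _ _ => norm_nonneg _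
  calc X ^ (2 * (n + 1)) = (X ^ (n + 1)) ^ 2 := by ring
    _ ≤ ((∑ m ∈ B, ‖b m‖) ^ n * Y) ^ 2 := pow_le_pow_left₀ (by positivity) s2 2
    _ = (∑ m ∈ B, ‖b m‖) ^ (2 * n) * Y ^ 2 := by ring
    _ ≤ (∑ m ∈ B, ‖b m‖) ^ (2 * n) * ((∑ x ∈ A, ω x) ^ (n + 1) * T) :=
        mul_le_mul_of_nonneg_left s4 (by positivity)
    _ = _ := by rw [show 2 * (n + 1) - 2 = 2 * n by omega, mul_assoc]

theorem numP : NumP := by
  intro C r hC hr
  obtain ⟨δ, hδ⟩ : ∃ δ, δ = r / (2 * C + 4) := ⟨_, rfl⟩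
  have d0 : 0 < δ := by rw [hδ]; positivity
  have p0 : 0 ≤ 120 * (4 * C + 8) / δ ^ 5 := by positivity
  refine ⟨((8 + 120 * (4 * C + 8) / δ ^ 5) ^ 2) ^ 2, fun x hx => ?_⟩
  have hy : 8 + 120 * (4 * C + 8) / δ ^ 5 ≤ √(√x) :=
    Real.le_sqrt_of_sq_le (Real.le_sqrt_of_sq_le hx)
  have hx0 : 0 ≤ x := le_trans (by positivity) hx
  have e2 : √(√x) ^ 2 = √x := Real.sq_sqrt (Real.sqrt_nonneg x)
  have e4 : √(√x) ^ 4 = x := by
    rw [show 4 = 2 * 2 by norm_num, pow_mul, e2, Real.sq_sqrt hx0]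
  obtain ⟨y, hy'⟩ : ∃ y, y = √(√x) := ⟨_, rfl⟩
  rw [← hy'] at hy e2 e4
  have y8 : 8 ≤ y := by linarith
  have x1 : 1 ≤ x := by
    rw [← e4]
    exact one_le_pow₀ (by linarith)
  have k1 : 2 * (C + 1) * x ≤ (⌈2 * (C + 1) * x⌉₊ : ℝ) := Nat.le_ceil _
  have k2 : (⌈2 * (C + 1) * x⌉₊ : ℝ) < 2 * (C + 1) * x + 1 := Nat.ceil_lt_add_one (by positivity)
  have K1 : y ≤ (⌈y⌉₊ : ℝ) := Nat.le_ceil _
  have K2 : (⌈y⌉₊ : ℝ) < y + 1 := Nat.ceil_lt_add_one (by linarith)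
  refine ⟨⌈2 * (C + 1) * x⌉₊, ⌈y⌉₊, Nat.one_le_ceil_iff.2 (by linarith), ?_⟩
  generalize ⌈2 * (C + 1) * x⌉₊ = k at k1 k2 ⊢
  generalize ⌈y⌉₊ = K at K1 K2 ⊢
  have k0 : (0 : ℝ) ≤ k := Nat.cast_nonneg k
  refine ⟨?_, ?_, ?_⟩
  · have h1 : (2 : ℝ) ^ k = Real.exp (k * Real.log 2) := by
      rw [Real.exp_nat_mul, Real.exp_log (by norm_num)]
    rw [h1, ← Real.exp_sub]
    refine Real.exp_le_exp.2 ?_
    have h2 : (k : ℝ) * (1 / 2) ≤ k * Real.log 2 :=
      mul_le_mul_of_nonneg_left (by linarith [Real.log_two_gt_d9]) k0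
    linarith
  · have h1 : δ ≤ r / (k + 1) * x := by
      rw [hδ, div_mul_eq_mul_div, div_le_div_iff₀ (by positivity) (by positivity), mul_assoc]
      exact mul_le_mul_of_nonneg_left (by linarith) hr.le
    have h2 : y * δ ≤ K * (r / (k + 1)) * x := by
      rw [mul_assoc]
      exact mul_le_mul K1 h1 d0.le (Nat.cast_nonneg K)
    have h3 : (4 * C + 8) * x ≤ Real.exp (y * δ) := by
      refine le_trans ?_ (Real.pow_div_factorial_le_exp (y * δ) (by positivity) 5)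
      have h4 : 120 * (4 * C + 8) ≤ y * δ ^ 5 := by
        rw [← div_le_iff₀ (by positivity)]
        linarith
      have h5 := mul_le_mul_of_nonneg_right h4 (show 0 ≤ y ^ 4 by positivity)
      rw [← e4, le_div_iff₀ (by positivity)]
      norm_num [Nat.factorial]
      linarith
    obtain ⟨t, ht⟩ : ∃ t, t = Real.exp (-(K * (r / (k + 1)) * x)) := ⟨_, rfl⟩
    have t0 : 0 < t := by rw [ht]; exact Real.exp_pos _
    have t1 : t * ((4 * C + 8) * x) ≤ 1 := by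
      refine (mul_le_mul_of_nonneg_left h3 t0.le).trans ?_
      rw [ht, ← Real.exp_add]
      exact Real.exp_le_one_iff.2 (by linarith)
    have t2 : t * (2 * (k + 1)) ≤ 1 :=
      (mul_le_mul_of_nonneg_left (by linarith) t0.le).trans t1
    have t3 := mul_nonneg t0.le k0
    have h6 := one_add_mul_le_pow (a := -t) (by linarith) (k + 1)
    rw [← ht, sub_eq_add_neg]
    push_cast at h6
    linarith
  · have K0 : (0 : ℝ) ≤ K := Nat.cast_nonneg K
    have h1 : (K.factorial : ℝ) ≤ Real.exp (K * K) := by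
      rw [Real.exp_nat_mul]
      refine le_trans ?_ (pow_le_pow_left₀ K0 (by linarith [Real.add_one_le_exp (K : ℝ)]) K)
      exact_mod_cast Nat.factorial_le_pow K
    refine (mul_le_mul_of_nonneg_right h1 (Real.exp_pos _).le).trans ?_
    rw [← Real.exp_add, ← Real.exp_nat_mul, ← e2, ← e4]
    refine Real.exp_le_exp.2 ?_
    have h2 : (K : ℝ) ≤ 2 * y := by linarith
    have h3 : (K : ℝ) * K ≤ 2 * y * (2 * y) := mul_le_mul h2 h2 K0 (by linarith)
    have h4 : (K : ℝ) * y ^ 2 ≤ 2 * y * y ^ 2 := mul_le_mul_of_nonneg_right h2 (sq_nonneg y)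
    have h5 : 8 * y ^ 2 ≤ y * y ^ 2 := mul_le_mul_of_nonneg_right y8 (sq_nonneg y)
    have h6 : 8 * y ^ 3 ≤ y * y ^ 3 := mul_le_mul_of_nonneg_right y8 (by positivity)
    have h7 := sq_nonneg y
    push_cast
    linarith

end Pool.Agent.MP_f68ac8_nt.Nd

end

section

namespace Pool.Agent.MP_f68ac8_nt.Nd
open NumberField Finset Filter
open MP_d64882_nt (cnt)
open Zv (Ex Prob)
open scoped Topology BigOperators commutatorElement

theorem pt_NhKer {c : ℝ} (hc : 0 < c) (s y : ℝ) (hs : 1 ≤ s) (n j : ℕ) (h0 : 2 ^ j ≤ n)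
    (h1 : n < 2 ^ (j + 1)) :
    (n : ℝ) ^ (-s) * Kc c (Real.log n - y) ≤ ((2 : ℝ) ^ j)⁻¹ * (9 * (1 + 4 / c ^ 2) / Real.log 2 *
      (Real.arctan ((j + 1 : ℕ) * Real.log 2 - y) - Real.arctan (j * Real.log 2 - y))) := by
  have l0 : 0 < Real.log 2 := Real.log_pos one_lt_two
  have l1 : Real.log 2 ≤ 1 := by linarith [Real.log_le_sub_one_of_pos (two_pos (α := ℝ))]
  have a0 : (2 : ℝ) ^ j ≤ n := by exact_mod_cast h0
  have a1 : (n : ℝ) ≤ 2 ^ (j + 1) := by exact_mod_cast h1.le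
  have p0 : (0 : ℝ) < 2 ^ j := by positivity
  have n1 : (1 : ℝ) ≤ n := (one_le_pow₀ one_le_two).trans a0
  have h2 : (n : ℝ) ^ (-s) ≤ ((2 : ℝ) ^ j)⁻¹ := by
    refine le_trans ?_ (inv_anti₀ p0 a0)
    rw [← Real.rpow_neg_one]
    exact Real.rpow_le_rpow_of_exponent_le n1 (by linarith)
  have b0 := Real.log_le_log p0 a0
  have b1 := Real.log_le_log (by linarith) a1
  rw [Real.log_pow] at b0 b1
  push_cast at b1 ⊢
  have h7 := arc_NeKer (j * Real.log 2 - y) ((j + 1) * Real.log 2 - y) (by linarith) (by linarith)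
  refine mul_le_mul h2 ((maj_NeKer hc _).trans (le_trans ?_
    (mul_le_mul_of_nonneg_left h7 (by positivity)))) (sq_nonneg _) (by positivity)
  rw [show 9 * (1 + 4 / c ^ 2) / Real.log 2 * (((j + 1) * Real.log 2 - y - (j * Real.log 2 - y)) /
    (3 * (1 + (j * Real.log 2 - y) ^ 2))) =
      (1 + 4 / c ^ 2) / ((1 + (j * Real.log 2 - y) ^ 2) / 3) by field_simp; ring]
  refine div_le_div_of_nonneg_left (by positivity) (by positivity) ?_
  have h3 : 0 ≤ Real.log n - j * Real.log 2 := by linarith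
  have h4 : Real.log n - j * Real.log 2 ≤ 1 := by linarith
  nlinarith [sq_nonneg (2 * (Real.log n - y) - (j * Real.log 2 - y)),
    sq_nonneg (Real.log n - y + (Real.log n - j * Real.log 2)), mul_le_mul h4 h4 h3 zero_le_one]

theorem kerP : KerP := by
  intro c C₁ hc
  have l0 : 0 < Real.log 2 := Real.log_pos one_lt_two
  obtain ⟨D, hD⟩ : ∃ D : ℝ, D = 9 * (1 + 4 / c ^ 2) / Real.log 2 := ⟨_, rfl⟩
  have D0 : 0 < D := by rw [hD]; positivity
  refine ⟨2 * (|C₁| + 1) * D * Real.pi, by positivity, fun g hg s y A hs => ?_⟩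
  obtain ⟨N, hN⟩ := A.exists_nat_subset_range
  rw [← sum_erase A (a := 0) (by simp [Real.zero_rpow (show -s ≠ 0 by linarith)]),
    ← sum_fiberwise_of_maps_to (t := range N) (g := Nat.log 2) fun n hn =>
      mem_range.2 ((Nat.log_le_self 2 n).trans_lt (mem_range.1 (hN (mem_of_mem_erase hn))))]
  have h1 : ∀ j ∈ range N, ∑ n ∈ A.erase 0 with Nat.log 2 n = j,
      g n * (n : ℝ) ^ (-s) * Kc c (Real.log n - y) ≤ 2 * (|C₁| + 1) * D *
      (Real.arctan ((j + 1 : ℕ) * Real.log 2 - y) - Real.arctan (j * Real.log 2 - y)) := by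
    intro j _
    have d0 : 0 ≤ Real.arctan ((j + 1 : ℕ) * Real.log 2 - y) - Real.arctan (j * Real.log 2 - y) :=
      sub_nonneg.2 (Real.arctan_strictMono.monotone (by push_cast; linarith))
    have m : ∀ n ∈ (A.erase 0).filter fun n => Nat.log 2 n = j, 2 ^ j ≤ n ∧ n < 2 ^ (j + 1) := by
      intro n hn
      obtain ⟨h1, rfl⟩ := mem_filter.1 hn
      exact ⟨Nat.pow_log_le_self 2 (ne_of_mem_erase h1), Nat.lt_pow_succ_log_self one_lt_two n⟩
    refine (sum_le_sum fun n hn => (mul_assoc _ _ _).trans_le (mul_le_mul_of_nonneg_left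
      (pt_NhKer hc s y hs n j (m n hn).1 (m n hn).2) (hg.1 n))).trans ?_
    rw [← sum_mul, ← hD]
    have h2 : ∑ n ∈ A.erase 0 with Nat.log 2 n = j, g n ≤ (|C₁| + 1) * 2 ^ (j + 1) := by
      refine (sum_le_sum_of_subset_of_nonneg (t := Icc 1 (2 ^ (j + 1))) (fun n hn => mem_Icc.2
        ⟨(Nat.one_le_two_pow).trans (m n hn).1, (m n hn).2.le⟩) fun n _ _ => hg.1 n).trans
        ((hg.2 _).trans ?_)
      push_cast
      exact mul_le_mul_of_nonneg_right (by linarith [le_abs_self C₁]) (by positivity)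
    refine (mul_le_mul_of_nonneg_right h2 (by positivity)).trans_eq ?_
    field_simp
    ring
  refine (sum_le_sum h1).trans ?_
  rw [← mul_sum, sum_range_sub fun n : ℕ => Real.arctan (n * Real.log 2 - y)]
  have h : ∀ a b : ℝ, Real.arctan a - Real.arctan b ≤ Real.pi := fun a b => by
    linarith [Real.arctan_lt_pi_div_two a, Real.neg_pi_div_two_lt_arctan b]
  exact mul_le_mul_of_nonneg_left (h _ _) (by positivity)

theorem wndP (hK : KerStmt) : WndP := by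
  intro c C₁ ε hc hε
  have hK := (hK c hc).1
  obtain ⟨δ, hδ⟩ : ∃ δ : ℝ, δ = ε / (2 * (|C₁| + 1)) := ⟨_, rfl⟩
  have δ0 : 0 < δ := by rw [hδ]; positivity
  obtain ⟨J, hJ⟩ := exists_nat_gt (max 0 (c * -Real.log δ))
  have J0 : (0 : ℝ) < J := (le_max_left _ _).trans_lt hJ
  have J1 : c * -Real.log δ < J := (le_max_right _ _).trans_lt hJ
  refine ⟨ε / (8 * Real.exp 1 * J), by positivity, fun g b hg hb X A hX hA h => ?_⟩
  have X1 : (1 : ℝ) < X := by exact_mod_cast (by omega : 1 < X)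
  have X0 : (0 : ℝ) < X := by linarith
  have L0 := Real.log_pos X1
  have e0 : 4 * Real.exp 1 * X * ((X : ℝ) ^ (-(1 + 1 / Real.log X)) * (1 / 4)) = 1 := by
    rw [Real.rpow_def_of_pos X0, show Real.log X * -(1 + 1 / Real.log X) = -Real.log X + -1 by
      field_simp; ring, Real.exp_add, Real.exp_neg, Real.exp_neg, Real.exp_log X0]
    field_simp
  have h1 : ∀ n ∈ A, (1 : ℝ) ≤ (if (n : ℝ) ≤ δ * X then 1 else 0) + 4 * Real.exp 1 * X *
      ∑ j ∈ range J, (n : ℝ) ^ (-(1 + 1 / Real.log X)) *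
        Kc c (Real.log n - (Real.log X - j / c)) := by
    intro n hn
    have h0 : ∀ j ∈ range J, 0 ≤ (n : ℝ) ^ (-(1 + 1 / Real.log X)) *
        Kc c (Real.log n - (Real.log X - j / c)) := fun j _ =>
      mul_nonneg (by positivity) (hK _).1
    split_ifs with b
    · exact le_add_of_nonneg_right (mul_nonneg (by positivity) (sum_nonneg h0))
    obtain ⟨n1, n2⟩ := mem_Icc.1 (hA hn)
    have n0 : (0 : ℝ) < n := by exact_mod_cast n1
    have n3 : (n : ℝ) ≤ X := by exact_mod_cast n2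
    have t0 : 0 ≤ c * (Real.log X - Real.log n) :=
      mul_nonneg hc.le (sub_nonneg.2 (Real.log_le_log n0 n3))
    have t1 : c * (Real.log X - Real.log n) < J := by
      have := Real.log_lt_log (by positivity) (not_le.1 b)
      rw [Real.log_mul (by positivity) X0.ne'] at this
      exact (mul_lt_mul_of_pos_left (by linarith) hc).trans J1
    rw [zero_add]
    refine e0.ge.trans (mul_le_mul_of_nonneg_left (le_trans ?_ (single_le_sum h0
      (mem_range.2 ((Nat.floor_lt t0).2 t1)))) (by positivity))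
    refine mul_le_mul (Real.rpow_le_rpow_of_nonpos n0 n3 (neg_nonpos.2 (by positivity)))
      ((hK _).2.2 ?_) (by norm_num) (by positivity)
    have a1 := Nat.floor_le t0
    have a2 := Nat.lt_floor_add_one (c * (Real.log X - Real.log n))
    generalize (⌊c * (Real.log X - Real.log n)⌋₊ : ℝ) = j at a1 a2
    rw [show c * (Real.log n - (Real.log X - j / c)) = j - c * (Real.log X - Real.log n) by
      field_simp; ring, abs_le]
    constructor <;> linarith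
  have h1' : ∀ n ∈ A, b n ≤ (if (n : ℝ) ≤ δ * X then g n else 0) + 4 * Real.exp 1 * X *
      ∑ j ∈ range J, b n * (n : ℝ) ^ (-(1 + 1 / Real.log X)) *
        Kc c (Real.log n - (Real.log X - j / c)) := by
    intro n hn
    have := mul_le_mul_of_nonneg_left (h1 n hn) (hb n).1
    rw [mul_one, mul_add, mul_left_comm, mul_sum] at this
    simp only [mul_assoc (b n)]
    refine this.trans (add_le_add ?_ le_rfl)
    split_ifs
    · rw [mul_one]; exact (hb n).2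
    · rw [mul_zero]
  have h2 := sum_le_sum h1'
  rw [sum_add_distrib, ← mul_sum, sum_comm, ← sum_filter] at h2
  have h3 : ∑ n ∈ A.filter fun n : ℕ => (n : ℝ) ≤ δ * X, g n ≤ ε / 2 * X := by
    have : (A.filter fun n : ℕ => (n : ℝ) ≤ δ * X) ⊆ Icc 1 ⌊δ * X⌋₊ := fun n hn =>
      mem_Icc.2 ⟨(mem_Icc.1 (hA (mem_filter.1 hn).1)).1, Nat.le_floor (mem_filter.1 hn).2⟩
    refine (sum_le_sum_of_subset_of_nonneg this fun n _ _ => hg.1 n).trans ((hg.2 _).trans ?_)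
    refine (mul_le_mul (show C₁ ≤ |C₁| + 1 by linarith [le_abs_self C₁])
      (Nat.floor_le (by positivity)) (by positivity) (by positivity)).trans_eq ?_
    rw [hδ]
    field_simp
  have h4 := sum_le_card_nsmul (range J) _ _ fun j _ => h (Real.log X - j / c)
  rw [card_range, nsmul_eq_mul] at h4
  have h5 := mul_le_mul_of_nonneg_left h4 (by positivity : 0 ≤ 4 * Real.exp 1 * X)
  rw [show 4 * Real.exp 1 * X * (J * (ε / (8 * Real.exp 1 * J))) = ε / 2 * X by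
    field_simp; ring] at h5
  linarith

end Pool.Agent.MP_f68ac8_nt.Nd

end

section

namespace Pool.Agent.MP_f68ac8_nt.Nd
open NumberField Finset Filter
open MP_d64882_nt (cnt)
open Zv (Ex Prob)
open scoped Topology BigOperators commutatorElement

theorem blocks_NhMert (K : ℕ) : ∀ s : Finset ℕ,
    (∀ p ∈ s, p.Prime ∧ (p : ℝ) ≤ 2 ^ K) →
    ∑ p ∈ s, Real.log p / p ≤ 2 * Real.log 4 * K := by
  induction K with
  | zero =>
    intro s hs
    rw [sum_eq_zero fun p hp => absurd (hs p hp).2 (by simpa using (hs p hp).1.one_lt)]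
    simp
  | succ K ih =>
    intro s hs
    have hw : (0 : ℝ) < 2 ^ K := by positivity
    rw [← sum_filter_add_sum_filter_not s fun p : ℕ => (p : ℝ) ≤ 2 ^ K]
    have a1 := ih (s.filter fun p : ℕ => (p : ℝ) ≤ 2 ^ K) fun p hp =>
      ⟨(hs p (mem_filter.1 hp).1).1, (mem_filter.1 hp).2⟩
    have a2 : ∑ p ∈ s.filter (fun p : ℕ => ¬(p : ℝ) ≤ 2 ^ K), Real.log p / p ≤
        Chebyshev.theta (2 ^ (K + 1)) / (2 ^ K) := by
      rw [Chebyshev.theta, sum_div]
      calc _ ≤ ∑ p ∈ s.filter (fun p : ℕ => ¬(p : ℝ) ≤ 2 ^ K),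
            Real.log p / (2 ^ K) :=
            sum_le_sum fun p hp => div_le_div_of_nonneg_left (Real.log_natCast_nonneg p) hw
              (not_le.1 (mem_filter.1 hp).2).le
        _ ≤ _ := by
            refine sum_le_sum_of_subset_of_nonneg (fun p hp => ?_) fun p _ _ =>
              div_nonneg (Real.log_natCast_nonneg p) hw.le
            obtain ⟨b1, b3⟩ := hs p (mem_filter.1 hp).1
            exact mem_filter.2 ⟨mem_Ioc.2 ⟨b1.pos, Nat.le_floor b3⟩, b1⟩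
    have a3 : Chebyshev.theta (2 ^ (K + 1)) / (2 ^ K) ≤ 2 * Real.log 4 := by
      rw [div_le_iff₀ hw]
      refine (Chebyshev.theta_le_log4_mul_x (by positivity)).trans (le_of_eq (by ring))
    push_cast
    linarith

theorem cheb_NhMert (z : ℝ) (hz : 2 ≤ z) (s : Finset ℕ) (hs : ∀ p ∈ s, p.Prime ∧ (p : ℝ) ≤ z) :
    ∑ p ∈ s, Real.log p / p ≤ 8 * Real.log z := by
  have l2 : 0 < Real.log 2 := Real.log_pos one_lt_two
  have l3 : Real.log 2 ≤ Real.log z := Real.log_le_log two_pos hz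
  have l4 : Real.log 4 = 2 * Real.log 2 := by
    rw [show (4 : ℝ) = 2 ^ 2 by norm_num, Real.log_pow]; norm_num
  have a1 := Nat.le_ceil (Real.log z / Real.log 2)
  have a2 := Nat.ceil_lt_add_one (div_nonneg (l2.le.trans l3) l2.le)
  set K := ⌈Real.log z / Real.log 2⌉₊
  rw [div_le_iff₀ l2] at a1
  rw [div_add_one l2.ne', lt_div_iff₀ l2] at a2
  have a3 : z ≤ 2 ^ K := by
    rw [← Real.log_le_log_iff (by linarith) (by positivity), Real.log_pow]; exact a1
  have := blocks_NhMert K s fun p hp => ⟨(hs p hp).1, by linarith [(hs p hp).2]⟩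
  rw [l4] at this
  linarith

theorem pw_NhMert (s : ℝ) (l : ℕ) :
    pw s l = ((if l.Prime then (l : ℝ) ^ (-s) else 0 : ℝ) : ℂ) := by
  unfold pw
  split_ifs with h
  · rw [Complex.ofReal_cpow l.cast_nonneg]; simp
  · simp

theorem npw_NhMert (s : ℝ) (l : ℕ) : ‖pw s l‖ = if l.Prime then (l : ℝ) ^ (-s) else 0 := by
  rw [pw_NhMert, Complex.norm_real, Real.norm_of_nonneg]
  split_ifs
  · positivity
  · exact le_rfl

theorem one_NhMert {l u : ℝ} (hl : 1 ≤ l) : 1 / l - l ^ (-(1 + u)) ≤ u * (Real.log l / l) := by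
  have hl0 : 0 < l := by linarith
  have h1 : l ^ (-(1 + u)) = 1 / l * Real.exp (-(u * Real.log l)) := by
    rw [neg_add, Real.rpow_add hl0, Real.rpow_neg_one, Real.rpow_def_of_pos hl0, one_div]
    congr 2; ring
  have h2 := Real.add_one_le_exp (-(u * Real.log l))
  have h3 : 0 < 1 / l := by positivity
  have h4 := mul_le_mul_of_nonneg_left h2 h3.le
  rw [h1]
  have h5 : u * (Real.log l / l) = 1 / l * (u * Real.log l) := by ring
  rw [h5]
  linarith

theorem low_NhMert (hP : PsumStmt) {y P : ℝ} (hy : 2 ≤ y) (a : ℕ → ℝ)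
    (ha : ∀ l, 0 ≤ a l ∧ a l ≤ P) (ha0 : ∀ l, ¬ l.Prime → a l = 0) :
    Summable (fun l : ℕ => a l * ‖pw ((1 + 1 / Real.log y : ℝ) : ℂ) l‖) ∧
    ∑ l ∈ range (⌊y⌋₊ + 1), a l / l - 8 * P ≤
      ∑' l : ℕ, a l * ‖pw ((1 + 1 / Real.log y : ℝ) : ℂ) l‖ := by
  have hlog : 0 < Real.log y := Real.log_pos (by linarith)
  have hu : 0 < 1 / Real.log y := by positivity
  set u := 1 / Real.log y with hu'
  have hP0 : 0 ≤ P := (ha 0).1.trans (ha 0).2
  have hs := (hP.1 ((1 + u : ℝ) : ℂ) (by simpa using hu)).1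
  have hs' : Summable (fun l : ℕ => a l * ‖pw ((1 + u : ℝ) : ℂ) l‖) :=
    Summable.of_nonneg_of_le (fun l => mul_nonneg (ha l).1 (norm_nonneg _))
      (fun l => mul_le_mul_of_nonneg_right (ha l).2 (norm_nonneg _)) (hs.mul_left P)
  refine ⟨hs', ?_⟩
  have h1 := hs'.sum_le_tsum (range (⌊y⌋₊ + 1)) fun l _ => mul_nonneg (ha l).1 (norm_nonneg _)
  have h2 := cheb_NhMert y hy ((range (⌊y⌋₊ + 1)).filter Nat.Prime) fun l hl => by
    rw [mem_filter, mem_range] at hl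
    exact ⟨hl.2, (Nat.le_floor_iff (by linarith)).1 (by omega)⟩
  have h3 : ∑ l ∈ range (⌊y⌋₊ + 1), (a l / l - a l * ‖pw ((1 + u : ℝ) : ℂ) l‖) ≤
      P * u * ∑ l ∈ (range (⌊y⌋₊ + 1)).filter Nat.Prime, Real.log l / l := by
    rw [mul_sum, sum_filter]
    refine sum_le_sum fun l _ => ?_
    rw [npw_NhMert]
    split_ifs with h
    · have b1 : (1 : ℝ) ≤ l := by exact_mod_cast h.one_le
      have b2 := one_NhMert (u := u) b1
      have b3 : 0 ≤ u * (Real.log l / l) :=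
        mul_nonneg hu.le (div_nonneg (Real.log_natCast_nonneg l) l.cast_nonneg)
      calc a l / l - a l * (l : ℝ) ^ (-(1 + u)) = a l * (1 / l - (l : ℝ) ^ (-(1 + u))) := by ring
        _ ≤ a l * (u * (Real.log l / l)) := mul_le_mul_of_nonneg_left b2 (ha l).1
        _ ≤ P * (u * (Real.log l / l)) := mul_le_mul_of_nonneg_right (ha l).2 b3
        _ = _ := by ring
    · simp [ha0 l h]
  rw [sum_sub_distrib] at h3
  have h4 : P * u * (8 * Real.log y) = 8 * P := by rw [hu']; field_simp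
  have h5 := mul_le_mul_of_nonneg_left h2 (mul_nonneg hP0 hu.le)
  linarith

theorem cmp_NhMert (hP : PsumStmt) (hM : MertStmt) {y P : ℝ} (hy : 2 ≤ y) (a : ℕ → ℝ)
    (ha : ∀ l, 0 ≤ a l ∧ a l ≤ P) (ha0 : ∀ l, ¬ l.Prime → a l = 0) :
    |∑ l ∈ range (⌊y⌋₊ + 1), a l / l -
      ∑' l : ℕ, a l * ‖pw ((1 + 1 / Real.log y : ℝ) : ℂ) l‖| ≤ 11 * P := by
  have hlog : 0 < Real.log y := Real.log_pos (by linarith)
  have hu : 0 < 1 / Real.log y := by positivity
  have hP0 : 0 ≤ P := (ha 0).1.trans (ha 0).2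
  obtain ⟨s1, h1⟩ := low_NhMert hP hy a ha ha0
  obtain ⟨s2, h2⟩ := low_NhMert hP (P := P) hy (fun l => if l.Prime then P - a l else 0)
    (fun l => by
      split_ifs
      · exact ⟨by linarith [(ha l).2], by linarith [(ha l).1]⟩
      · exact ⟨le_rfl, hP0⟩) fun l hl => if_neg hl
  set u := 1 / Real.log y with hu'
  have hs := (hP.1 ((1 + u : ℝ) : ℂ) (by simpa using hu)).1
  have e1 : ∑' l : ℕ, (if l.Prime then P - a l else 0) * ‖pw ((1 + u : ℝ) : ℂ) l‖ =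
      P * ∑' l : ℕ, ‖pw ((1 + u : ℝ) : ℂ) l‖ - ∑' l : ℕ, a l * ‖pw ((1 + u : ℝ) : ℂ) l‖ := by
    rw [← tsum_mul_left, ← (hs.mul_left P).tsum_sub s1]
    refine tsum_congr fun l => ?_
    rw [npw_NhMert]
    split_ifs
    · ring
    · simp
  have e2 : ∑ l ∈ range (⌊y⌋₊ + 1), (if l.Prime then P - a l else 0) / l =
      P * ∑ l ∈ (range (⌊y⌋₊ + 1)).filter Nat.Prime, (1 : ℝ) / l -
        ∑ l ∈ range (⌊y⌋₊ + 1), a l / l := by
    rw [sum_filter, mul_sum, ← sum_sub_distrib]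
    refine sum_congr rfl fun l _ => ?_
    split_ifs with h
    · ring
    · simp [ha0 l h]
  have h3 : ∑' l : ℕ, ‖pw ((1 + u : ℝ) : ℂ) l‖ ≤ Real.log (1 + 1 / u) := by
    refine hs.tsum_le_of_sum_le fun A => ?_
    have := hM.2 u (A.filter Nat.Prime) hu fun l hl => (mem_filter.1 hl).2
    rw [sum_filter] at this
    simpa only [npw_NhMert] using this
  have h4 := hM.1 y hy
  have h5 : Real.log (1 + 1 / u) ≤ Real.log (Real.log y) + 2 := by
    have b1 : 1 + 1 / u = Real.log y * (1 + u) := by rw [hu']; field_simp; ring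
    have b2 := Real.log_le_sub_one_of_pos (show 0 < 1 + u by linarith)
    have b3 : u ≤ 2 := by
      rw [hu', div_le_iff₀ hlog]
      have := Real.log_le_log two_pos hy
      have := Real.log_two_gt_d9
      linarith
    rw [b1, Real.log_mul hlog.ne' (by linarith)]
    linarith
  have h6 := mul_le_mul_of_nonneg_left (show ∑' l : ℕ, ‖pw ((1 + u : ℝ) : ℂ) l‖ -
    ∑ l ∈ (range (⌊y⌋₊ + 1)).filter Nat.Prime, (1 : ℝ) / l ≤ 3 by linarith) hP0
  rw [e1, e2] at h2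
  rw [abs_le]
  constructor <;> linarith

theorem fq_NhMert (p : ℕ) (hp : p.Prime) (l : ℕ) : 0 ≤ fq p l ∧ fq p l ≤ p := by
  have : (1 : ℝ) ≤ p := by exact_mod_cast hp.one_le
  unfold fq
  split_ifs
  · constructor <;> linarith
  · constructor <;> linarith

theorem mertP (p : ℕ) [Fact p.Prime] (hP : PsumStmt) (hM : MertStmt) (hZ : GzP p) (hL : LogP) :
    MertP p := by
  have hp : p.Prime := Fact.out
  have hp0 : (0 : ℝ) ≤ p := p.cast_nonneg
  obtain ⟨-, -, -, -, -, -, F, hF, -, hd, hc⟩ := hZ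
  obtain ⟨r, C, hr, hC⟩ := hL F
  set Y := Real.exp (1 / r) with hY
  have hY0 : 0 < Y := Real.exp_pos _
  refine ⟨|C| + 12 * p + (p * (Y + 1) + Y + 1), fun y hy => ?_⟩
  have hlog : 0 < Real.log y := Real.log_pos (by linarith)
  have hC0 := abs_nonneg C
  have hq : 0 ≤ p * (Y + 1) := by positivity
  rcases le_total y Y with h | h
  · have h1 : 0 ≤ ∑ l ∈ range (⌊y⌋₊ + 1), fq p l / l :=
      sum_nonneg fun l _ => div_nonneg (fq_NhMert p hp l).1 l.cast_nonneg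
    have h2 : ∑ l ∈ range (⌊y⌋₊ + 1), fq p l / l ≤ ∑ l ∈ range (⌊y⌋₊ + 1), (p : ℝ) := by
      refine sum_le_sum fun l _ => ?_
      rcases Nat.eq_zero_or_pos l with h0 | h0
      · simp [h0]
      · exact (div_le_self (fq_NhMert p hp l).1 (by exact_mod_cast h0)).trans
          (fq_NhMert p hp l).2
    rw [sum_const, card_range, nsmul_eq_mul] at h2
    have h3 : ((⌊y⌋₊ + 1 : ℕ) : ℝ) ≤ Y + 1 := by
      have := Nat.floor_le (show 0 ≤ y by linarith)
      push_cast; linarith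
    have h4 := mul_le_mul_of_nonneg_right h3 hp0
    have h5 := Real.log_le_sub_one_of_pos hlog
    have h6 := Real.log_le_sub_one_of_pos (show 0 < y by linarith)
    have h7 : -1 ≤ Real.log (Real.log y) := by
      have b1 := Real.one_sub_inv_le_log_of_pos hlog
      have b2 : (Real.log y)⁻¹ ≤ 2 := by
        rw [inv_le_comm₀ hlog two_pos]
        have := Real.log_le_log two_pos hy
        have := Real.log_two_gt_d9
        linarith
      linarith
    rw [abs_le]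
    constructor <;> linarith
  · have hu : 0 < 1 / Real.log y := by positivity
    have hur : 1 / Real.log y ≤ r := by
      have := Real.log_le_log hY0 h
      rw [hY, Real.log_exp, div_le_iff₀ hr] at this
      rw [div_le_iff₀ hlog]; linarith
    have h1 := hC (1 + 1 / Real.log y) (by linarith) (by linarith)
    have hcnt : ∀ l : ℕ, l.Prime → (cnt F l : ℝ) ≤ p := fun l hl => by
      exact_mod_cast ((hP.2.2 F).1 l hl).trans hd
    have hb : ∀ l : ℕ, 0 ≤ (if l.Prime then (cnt F l : ℝ) else 0) ∧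
        (if l.Prime then (cnt F l : ℝ) else 0) ≤ p := fun l => by
      split_ifs with h
      · exact ⟨Nat.cast_nonneg _, hcnt l h⟩
      · exact ⟨le_rfl, hp0⟩
    have h2 := cmp_NhMert hP hM (P := p) hy (fun l => if l.Prime then (cnt F l : ℝ) else 0) hb
      fun l hl => if_neg hl
    have e1 : (P0 F ((1 + 1 / Real.log y : ℝ) : ℂ)).re = ∑' l : ℕ,
        (if l.Prime then (cnt F l : ℝ) else 0) * ‖pw ((1 + 1 / Real.log y : ℝ) : ℂ) l‖ := by
      rw [← Complex.ofReal_re (∑' l : ℕ, _), Complex.ofReal_tsum, P0]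
      congr 1
      refine tsum_congr fun l => ?_
      rw [npw_NhMert, pw_NhMert]
      split_ifs <;> simp
    have e2 : Real.log (1 + 1 / Real.log y - 1) = -Real.log (Real.log y) := by
      rw [add_sub_cancel_left, one_div, Real.log_inv]
    rw [e1, e2] at h1
    have h3 : |∑ l ∈ range (⌊y⌋₊ + 1), fq p l / l -
        ∑ l ∈ range (⌊y⌋₊ + 1), (if l.Prime then (cnt F l : ℝ) else 0) / l| ≤ p := by
      rw [← sum_sub_distrib]
      refine (abs_sum_le_sum_abs _ _).trans ?_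
      calc _ ≤ ∑ l ∈ range (⌊y⌋₊ + 1), (if l = p then (p : ℝ) else 0) := by
            refine sum_le_sum fun l _ => ?_
            by_cases h1 : l = p
            · rw [if_pos h1, ← sub_div, abs_div, Nat.abs_cast]
              have b1 : (1 : ℝ) ≤ l := by rw [h1]; exact_mod_cast hp.one_le
              refine (div_le_self (abs_nonneg _) b1).trans ?_
              have b2 := fq_NhMert p hp l
              have b3 := hb l
              rw [abs_le]
              constructor <;> linarith [b2.1, b2.2, b3.1, b3.2]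
            · rw [if_neg h1]
              by_cases h2 : l.Prime
              · rw [if_pos h2, hc l h2 h1]; simp
              · have : fq p l = 0 := if_neg fun h => h2 h.1
                rw [if_neg h2, this]; simp
        _ ≤ p := by
            rw [sum_ite_eq']
            split_ifs
            · exact le_rfl
            · exact hp0
    have h4 := le_abs_self C
    rw [abs_le] at h1 h2 h3 ⊢
    constructor <;> linarith [h1.1, h1.2, h2.1, h2.2, h3.1, h3.2]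

theorem eul_NhMert (f : ℕ → ℝ) (X : ℕ) (hf : ∀ l, 0 ≤ f l) :
    ∑ n ∈ Icc 1 X with Squarefree n, (∏ l ∈ n.primeFactors, f l) / n ≤
      Real.exp (∑ l ∈ (range (X + 1)).filter Nat.Prime, f l / l) := by
  have hg : ∀ l : ℕ, 0 ≤ f l / l := fun l => div_nonneg (hf l) l.cast_nonneg
  calc ∑ n ∈ Icc 1 X with Squarefree n, (∏ l ∈ n.primeFactors, f l) / n
      = ∑ n ∈ Icc 1 X with Squarefree n, ∏ l ∈ n.primeFactors, f l / l := by
        refine sum_congr rfl fun n hn => ?_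
        rw [prod_div_distrib, ← Nat.cast_prod,
          Nat.prod_primeFactors_of_squarefree (mem_filter.1 hn).2]
    _ = ∑ t ∈ ((Icc 1 X).filter Squarefree).image Nat.primeFactors, ∏ l ∈ t, f l / l := by
        rw [sum_image]
        intro a ha b hb hab
        rw [← Nat.prod_primeFactors_of_squarefree (mem_filter.1 (mem_coe.1 ha)).2,
          ← Nat.prod_primeFactors_of_squarefree (mem_filter.1 (mem_coe.1 hb)).2, hab]
    _ ≤ ∑ t ∈ ((range (X + 1)).filter Nat.Prime).powerset, ∏ l ∈ t, f l / l := by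
        refine sum_le_sum_of_subset_of_nonneg (fun t ht => ?_) fun t _ _ =>
          prod_nonneg fun l _ => hg l
        obtain ⟨n, hn, rfl⟩ := mem_image.1 ht
        refine mem_powerset.2 fun l hl => ?_
        have b1 := Nat.le_of_mem_primeFactors hl
        have b2 := (mem_Icc.1 (mem_filter.1 hn).1).2
        exact mem_filter.2 ⟨mem_range.2 (by omega), Nat.prime_of_mem_primeFactors hl⟩
    _ = ∏ l ∈ (range (X + 1)).filter Nat.Prime, (1 + f l / l) := (prod_one_add _).symm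
    _ ≤ _ := by
        rw [Real.exp_sum]
        exact prod_le_prod (fun l _ => by linarith [hg l]) fun l _ => by
          linarith [Real.add_one_le_exp (f l / l)]

theorem log_NhMert (f : ℕ → ℝ) (k : ℝ) (X : ℕ) (hf : ∀ l, 0 ≤ f l ∧ f l ≤ k) :
    ∑ n ∈ Icc 1 X with Squarefree n, (∏ l ∈ n.primeFactors, f l) * Real.log n ≤
      2 * k * X * ∑ n ∈ Icc 1 X with Squarefree n, (∏ l ∈ n.primeFactors, f l) / n := by
  have hk : 0 ≤ k := (hf 0).1.trans (hf 0).2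
  set S := (Icc 1 X).filter Squarefree with hS
  set F : ℕ → ℝ := fun n => ∏ l ∈ n.primeFactors, f l with hF
  have hF0 : ∀ n, 0 ≤ F n := fun n => prod_nonneg fun l _ => (hf l).1
  set T : ℕ → Finset ℕ := fun m => (Ioc 0 ⌊(X : ℝ) / m⌋₊).filter Nat.Prime with hT
  have hg : ∀ x : (_ : ℕ) × ℕ, 0 ≤ F x.1 * (k * Real.log x.2) := fun x =>
    mul_nonneg (hF0 _) (mul_nonneg hk (Real.log_natCast_nonneg _))
  calc ∑ n ∈ S, F n * Real.log n
      ≤ ∑ n ∈ S, ∑ l ∈ n.primeFactors, F (n / l) * (k * Real.log l) := by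
        refine sum_le_sum fun n hn => ?_
        have hsq : Squarefree n := (mem_filter.1 hn).2
        have e : Real.log n = ∑ l ∈ n.primeFactors, Real.log l := by
          conv_lhs => rw [← Nat.prod_primeFactors_of_squarefree hsq, Nat.cast_prod]
          rw [Real.log_prod]
          intro l hl
          exact_mod_cast (Nat.prime_of_mem_primeFactors hl).ne_zero
        rw [e, mul_sum]
        refine sum_le_sum fun l hl => ?_
        have hl' := Nat.prime_of_mem_primeFactors hl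
        have hd := Nat.dvd_of_mem_primeFactors hl
        have e2 : l * (n / l) = n := Nat.mul_div_cancel' hd
        have hco : l.Coprime (n / l) := Nat.coprime_of_squarefree_mul (by rw [e2]; exact hsq)
        have e3 : F n = f l * F (n / l) := by
          simp only [hF]
          conv_lhs => rw [← e2, hco.primeFactors_mul]
          rw [prod_union hco.disjoint_primeFactors, hl'.primeFactors, prod_singleton]
        rw [e3]
        have := mul_le_mul_of_nonneg_right (hf l).2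
          (mul_nonneg (hF0 (n / l)) (Real.log_natCast_nonneg l))
        linarith
    _ = ∑ x ∈ S.sigma fun n => n.primeFactors, F (x.1 / x.2) * (k * Real.log x.2) :=
        (sum_sigma S (fun n => n.primeFactors)
          fun x => F (x.1 / x.2) * (k * Real.log x.2)).symm
    _ = ∑ x ∈ (S.sigma fun n => n.primeFactors).image
          (fun x => (⟨x.1 / x.2, x.2⟩ : (_ : ℕ) × ℕ)), F x.1 * (k * Real.log x.2) := by
        rw [sum_image]
        rintro ⟨a, l⟩ ha ⟨b, l'⟩ hb hab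
        simp only [Sigma.mk.injEq, heq_eq_eq] at hab
        obtain ⟨h1, rfl⟩ := hab
        have b1 := Nat.mul_div_cancel' (Nat.dvd_of_mem_primeFactors (mem_sigma.1 (mem_coe.1 ha)).2)
        have b2 := Nat.mul_div_cancel' (Nat.dvd_of_mem_primeFactors (mem_sigma.1 (mem_coe.1 hb)).2)
        simp only at b1 b2
        have : a = b := by rw [← b1, ← b2, h1]
        rw [this]
    _ ≤ ∑ x ∈ S.sigma T, F x.1 * (k * Real.log x.2) := by
        refine sum_le_sum_of_subset_of_nonneg (fun x hx => ?_) fun x _ _ => hg x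
        obtain ⟨⟨n, l⟩, hn, rfl⟩ := mem_image.1 hx
        obtain ⟨h1, h2⟩ := mem_sigma.1 hn
        simp only at h1 h2
        obtain ⟨h3, h4⟩ := mem_filter.1 h1
        obtain ⟨h5, h6⟩ := mem_Icc.1 h3
        have hl' := Nat.prime_of_mem_primeFactors h2
        have hd := Nat.dvd_of_mem_primeFactors h2
        have e2 : l * (n / l) = n := Nat.mul_div_cancel' hd
        have h7 : 0 < n / l := Nat.div_pos (Nat.le_of_dvd h5 hd) hl'.pos
        refine mem_sigma.2 ⟨mem_filter.2 ⟨mem_Icc.2 ⟨h7, (Nat.div_le_self _ _).trans h6⟩,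
          h4.squarefree_of_dvd (Nat.div_dvd_of_dvd hd)⟩,
          mem_filter.2 ⟨mem_Ioc.2 ⟨hl'.pos, Nat.le_floor ?_⟩, hl'⟩⟩
        rw [le_div_iff₀ (by exact_mod_cast h7)]
        exact_mod_cast e2.le.trans h6
    _ = ∑ m ∈ S, ∑ l ∈ T m, F m * (k * Real.log l) :=
        sum_sigma S T fun x => F x.1 * (k * Real.log x.2)
    _ ≤ _ := by
        rw [mul_sum]
        refine sum_le_sum fun m _ => ?_
        rw [← mul_sum, ← mul_sum]
        have b0 : 0 ≤ (X : ℝ) / m := by positivity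
        have b1 := Chebyshev.theta_le_log4_mul_x b0
        have b2 : Real.log 4 ≤ 2 := by
          rw [show (4 : ℝ) = 2 ^ 2 by norm_num, Real.log_pow]
          have := Real.log_two_lt_d9
          push_cast; linarith
        have b3 : ∑ l ∈ T m, Real.log l ≤ 2 * (X / m) :=
          b1.trans (mul_le_mul_of_nonneg_right b2 b0)
        calc F m * (k * ∑ l ∈ T m, Real.log l) ≤ F m * (k * (2 * (X / m))) :=
              mul_le_mul_of_nonneg_left (mul_le_mul_of_nonneg_left b3 hk) (hF0 m)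
          _ = _ := by ring

theorem htP : HtP := by
  intro f k X hf
  have hk : 0 ≤ k := (hf 0).1.trans (hf 0).2
  have h1 := eul_NhMert f X fun l => (hf l).1
  have h2 := log_NhMert f k X hf
  have h3 : Real.log X * ∑ n ∈ Icc 1 X with Squarefree n, ∏ l ∈ n.primeFactors, f l ≤
      ∑ n ∈ Icc 1 X with Squarefree n, (∏ l ∈ n.primeFactors, f l) * Real.log n +
      X * ∑ n ∈ Icc 1 X with Squarefree n, (∏ l ∈ n.primeFactors, f l) / n := by
    rw [mul_sum, mul_sum, ← sum_add_distrib]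
    refine sum_le_sum fun n hn => ?_
    obtain ⟨h5, h6⟩ := mem_Icc.1 (mem_filter.1 hn).1
    have b0 : (0 : ℝ) < n := by exact_mod_cast h5
    have b1 : (0 : ℝ) < X := by exact_mod_cast h5.trans h6
    have b2 := log_lin_NeMlo b1 b0
    have b3 : 0 ≤ ∏ l ∈ n.primeFactors, f l := prod_nonneg fun l _ => (hf l).1
    have b4 := mul_le_mul_of_nonneg_right b2 b3
    calc _ ≤ _ := b4
      _ = _ := by ring
  have h4 := mul_le_mul_of_nonneg_left h1 (show 0 ≤ (2 * k + 1) * X by positivity)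
  linarith

end Pool.Agent.MP_f68ac8_nt.Nd

end

section

namespace Pool.Agent.MP_f68ac8_nt.Nd
open NumberField Finset Filter
open MP_d64882_nt (cnt)
open Zv (Ex Prob)
open scoped Topology BigOperators commutatorElement

theorem bd_NhOff (E : Type) [Field E] [NumberField E] : 2 ≤ Bd E := by
  have h : (1 : ℤ) ≤ |discr E| := Int.one_le_abs (discr_ne_zero E)
  have h' : (1 : ℝ) ≤ |(discr E : ℝ)| := by exact_mod_cast h
  unfold Bd
  linarith

theorem pwle_NhOff {z : ℂ} (hz : 0 ≤ z.re) (l : ℕ) : ‖pw z l‖ ≤ 1 := by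
  unfold pw
  split_ifs with h
  · rw [Complex.norm_natCast_cpow_of_pos h.pos, Complex.neg_re]
    exact Real.rpow_le_one_of_one_le_of_nonpos (by exact_mod_cast h.one_le) (by linarith)
  · simp

theorem pwd_NhOff (l : ℕ) : Differentiable ℂ fun z => pw z l := by
  unfold pw
  split_ifs with h
  · exact differentiable_neg.const_cpow (Or.inl (by exact_mod_cast h.ne_zero))
  · exact differentiable_const _

theorem card_NhOff {R : Finset ℕ} (hR : ∀ l ∈ R, l.Prime) : (R.card : ℝ) ≤ 2 * sz R := by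
  have h1 : ∑ _l ∈ R, (1 / 2 : ℝ) ≤ ∑ l ∈ R, Real.log l := by
    refine Finset.sum_le_sum fun l hl => ?_
    have h2 : Real.log 2 ≤ Real.log l :=
      Real.log_le_log (by norm_num) (by exact_mod_cast (hR l hl).two_le)
    have := Real.log_two_gt_d9
    linarith
  rw [Finset.sum_const, nsmul_eq_mul] at h1
  unfold sz
  linarith

theorem summ_NhOff (hP : PsumStmt) (E : Type) [Field E] [NumberField E] {z : ℂ} (hz : 1 < z.re) :
    Summable fun l : ℕ => (cnt E l : ℂ) * pw z l := by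
  refine Summable.of_norm_bounded ((hP.1 z hz).1.mul_left (dE E : ℝ)) fun l => ?_
  by_cases h : l.Prime
  · rw [norm_mul, Complex.norm_natCast]
    exact mul_le_mul_of_nonneg_right (by exact_mod_cast (hP.2.2 E).1 l h) (norm_nonneg _)
  · simp [pw, h]

theorem split_NhOff (hP : PsumStmt) (E F : Type) [Field E] [NumberField E] [Field F]
    [NumberField F] (c : ℕ → ℂ) (R : Finset ℕ)
    (hc : ∀ l : ℕ, l.Prime → l ∉ R → c l = cnt E l - cnt F l) {z : ℂ} (hz : 1 < z.re) :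
    ∑' l, c l * pw z l =
      P0 E z - P0 F z + ∑ l ∈ R, (c l - (cnt E l - cnt F l)) * pw z l := by
  have h0 : ∀ l ∉ R, (c l - (cnt E l - cnt F l)) * pw z l = 0 := fun l hl => by
    by_cases h : l.Prime
    · rw [hc l h hl, sub_self, zero_mul]
    · simp [pw, h]
  have h1 := (((summ_NhOff hP E hz).hasSum.sub (summ_NhOff hP F hz).hasSum).add
    (hasSum_sum_of_ne_finset_zero h0)).tsum_eq
  rw [P0, P0, ← h1]
  exact tsum_congr fun l => by ring

theorem ana_NhOff (hF : FdStmt) (f g : ℂ → ℂ) (ρ B s : ℝ) (k : ℕ) (hρ : 0 < ρ)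
    (hg : DifferentiableOn ℂ g (Metric.ball 1 ρ)) (hB : ∀ z ∈ Metric.ball (1 : ℂ) ρ, ‖g z‖ ≤ B)
    (hf : ∀ z ∈ Metric.ball (1 : ℂ) ρ, 1 < z.re → f z = g z) (h1 : 1 < s) (h2 : s ≤ 1 + ρ / 32) :
    ‖(fwdDiff ((ρ / 32 / (k + 1) : ℝ) : ℂ))^[k + 1] f s‖ ≤ B / 2 ^ k := by
  set h : ℝ := ρ / 32 / (k + 1) with hh
  have hk : (0 : ℝ) < k + 1 := by positivity
  have hh0 : 0 < h := by positivity
  have hkh : (k + 1) * h = ρ / 32 := by rw [hh]; field_simp
  have hB0 : 0 ≤ B := (norm_nonneg _).trans (hB 1 (Metric.mem_ball_self hρ))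
  have hs1 : dist (s : ℂ) 1 ≤ ρ / 32 := by
    rw [dist_eq_norm, ← Complex.ofReal_one, ← Complex.ofReal_sub, Complex.norm_real,
      Real.norm_eq_abs, abs_of_pos (by linarith)]
    linarith
  have he : (fwdDiff (h : ℂ))^[k + 1] f s = (fwdDiff (h : ℂ))^[k + 1] g s := by
    rw [fwdDiff_iter_eq_sum_shift, fwdDiff_iter_eq_sum_shift]
    refine Finset.sum_congr rfl fun i hi => ?_
    have hi' : (i : ℝ) ≤ k + 1 := by exact_mod_cast Nat.lt_succ_iff.1 (Finset.mem_range.1 hi)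
    have hi2 : (i : ℝ) * h ≤ ρ / 32 := hkh ▸ mul_le_mul_of_nonneg_right hi' hh0.le
    have hi3 : 0 ≤ (i : ℝ) * h := by positivity
    have e : (s : ℂ) + i • (h : ℂ) = ((s + i * h : ℝ) : ℂ) := by
      rw [nsmul_eq_mul]; push_cast; rfl
    rw [e, hf]
    · rw [Metric.mem_ball, dist_eq_norm, ← Complex.ofReal_one, ← Complex.ofReal_sub,
        Complex.norm_real, Real.norm_eq_abs, abs_of_pos (by linarith)]
      linarith
    · rw [Complex.ofReal_re]; linarith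
  have hsub : ∀ w ∈ Metric.ball (s : ℂ) (ρ / 4),
      Metric.closedBall w (ρ / 4) ⊆ Metric.ball (1 : ℂ) ρ := fun w hw z hz => by
    have a := Metric.mem_ball.1 hw
    have b := Metric.mem_closedBall.1 hz
    have c := dist_triangle4 z w s 1
    rw [Metric.mem_ball]
    linarith
  have hd : ∀ w ∈ Metric.ball (s : ℂ) (ρ / 4), ‖deriv g w‖ ≤ B / (ρ / 4) := fun w hw =>
    Complex.norm_deriv_le_of_forall_mem_sphere_norm_le (by positivity)
      (hg.diffContOnCl_ball (hsub w hw))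
      fun z hz => hB z (hsub w hw (Metric.sphere_subset_closedBall hz))
  have h3 := hF g s (ρ / 4) h (B / (ρ / 4)) k hh0 (by rw [mul_assoc, hkh]; linarith)
    (hg.mono fun w hw => hsub w hw (Metric.mem_closedBall_self (by positivity))) hd
  rw [he]
  refine h3.trans ?_
  have h4 : 4 * ((k : ℝ) + 1) * h / (ρ / 4) = 1 / 2 := by
    rw [mul_assoc, hkh]; field_simp; norm_num
  have h5 : h ≤ ρ / 4 := by
    have : 0 ≤ (k : ℝ) * h := by positivity
    linarith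
  have h6 : B / (ρ / 4) * h ≤ B := by
    rw [div_mul_eq_mul_div, div_le_iff₀ (by positivity)]
    exact mul_le_mul_of_nonneg_left h5 hB0
  rw [h4, one_div, inv_pow, ← div_eq_mul_inv]
  exact div_le_div_of_nonneg_right h6 (by positivity)

theorem offP (p : ℕ) [Fact p.Prime] (hP : PsumStmt) (hF : FdStmt) (hD : DiscP) (hC : CountP)
    (hZ : GzP p) (hQ : QuoP) : OffP p := by
  intro n
  obtain ⟨-, -, hz1, hz2, -, -, F, _, -, hF1, hF2⟩ := hZ
  obtain ⟨ρ, CQ, hρ, hρ8, hq⟩ := hQ F n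
  obtain ⟨CD, hCD, hd⟩ := hD n
  set D : ℝ := (p : ℝ) ^ 2 + n + p with hDd
  have hD0 : 0 ≤ D := by positivity
  refine ⟨ρ / 32, CQ * CD + 2 * D + 1, by positivity, by linarith, by positivity, ?_⟩
  intro R N hN hpR Ψ hΨ hg σ t hσ ht k s hs1 hs2
  obtain ⟨H, hH⟩ := exH_NhOff (κ := cyc (Ω := Qa) p) hΨ.add
  have hNH : N ≤ H := fun g hg => (hH g).2 ⟨hΨ.le hg, hΨ.ker g hg⟩
  obtain ⟨hc1, hc2⟩ := hC n R N hN
  obtain ⟨E, _, hE⟩ := hc1 H hNH
  have hNE : N ≤ E.fixingSubgroup := hE ▸ hNH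
  obtain ⟨hE1, hE2⟩ := hd R N hN E hNE
  obtain ⟨g, hg1, hg2⟩ := hq E hE1
  have hcl : ∀ l : ℕ, l.Prime → l ∉ R → cP Ψ σ t l = cnt E l - cnt F l := by
    intro l hl hlR
    have hlp : l ≠ p := fun h => hlR (h ▸ hpR)
    have h1 := hF2 l hl hlp
    unfold cP
    split_ifs with h
    · have h2 := hσ l hl h
      have h3 : (cnt F l : ℂ) = p - 1 := by
        rw [fq, if_pos ⟨hl, Or.inl h⟩] at h1
        exact_mod_cast congrArg (fun x : ℝ => (x : ℂ)) h1
      rw [sum_NhOff fun j => Ψ (t j * σ l * (t j)⁻¹), hc2 E hNE l hl hlR _ h2, hE,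
        perm_eq_NhOff hΨ.add hg hH ht ((hz1 l _ hl hlp h2).2 h), h3]
    · obtain ⟨τ, hτ⟩ := hz2 l hl
      have h3 : cnt F l = 0 := by
        rw [fq, if_neg fun h' => h'.2.elim h hlp] at h1
        exact_mod_cast h1
      rw [hc2 E hNE l hl hlR _ hτ, hE,
        perm_zero_NhOff hH fun h' => h ((hz1 l _ hl hlp hτ).1 h'), h3]
      simp
  have hdl : ∀ l ∈ R, ‖cP Ψ σ t l - (cnt E l - cnt F l)‖ ≤ D := by
    intro l hl
    have h1 : ‖cP Ψ σ t l‖ ≤ (p : ℝ) ^ 2 := by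
      unfold cP
      split_ifs
      · exact norm_NhOff fun j => Ψ (t j * σ l * (t j)⁻¹)
      · rw [norm_zero]; positivity
    have h2 : (cnt E l : ℝ) ≤ n := by
      exact_mod_cast ((hP.2.2 E).1 l (hN.pri l hl)).trans hE1
    have h3 : (cnt F l : ℝ) ≤ p := by
      exact_mod_cast ((hP.2.2 F).1 l (hN.pri l hl)).trans hF1
    have h4 := norm_sub_le (cP Ψ σ t l) (cnt E l - cnt F l)
    have h5 := norm_sub_le (cnt E l : ℂ) (cnt F l)
    rw [Complex.norm_natCast, Complex.norm_natCast] at h5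
    linarith
  have hsz : 1 ≤ sz R := by
    have : 0 ≤ ∑ l ∈ R, Real.log l := Finset.sum_nonneg fun l _ => Real.log_natCast_nonneg l
    unfold sz
    linarith
  refine ana_NhOff hF _
    (fun z => g z * Complex.exp (∑ l ∈ R, (cP Ψ σ t l - (cnt E l - cnt F l)) * pw z l))
    ρ _ s k hρ ?_ ?_ ?_ hs1 hs2
  · refine hg1.mul (Differentiable.differentiableOn (Differentiable.cexp ?_))
    exact Differentiable.fun_sum fun l _ => (pwd_NhOff l).const_mul _
  · intro z hz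
    have hre : 0 ≤ z.re := by
      have a := Complex.abs_re_le_norm (z - 1)
      have b : ‖z - 1‖ < ρ := by rwa [Metric.mem_ball, dist_eq_norm] at hz
      rw [Complex.sub_re, Complex.one_re] at a
      have := (abs_le.1 a).1
      linarith
    have h1 : ‖∑ l ∈ R, (cP Ψ σ t l - (cnt E l - cnt F l)) * pw z l‖ ≤ 2 * D * sz R := by
      refine (norm_sum_le _ _).trans ?_
      have h2 : ∑ l ∈ R, ‖(cP Ψ σ t l - (cnt E l - cnt F l)) * pw z l‖ ≤ ∑ _l ∈ R, D :=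
        Finset.sum_le_sum fun l hl => by
          rw [norm_mul]
          exact (mul_le_mul (hdl l hl) (pwle_NhOff hre l) (norm_nonneg _) hD0).trans_eq (mul_one D)
      rw [Finset.sum_const, nsmul_eq_mul] at h2
      have h3 := mul_le_mul_of_nonneg_right (card_NhOff hN.pri) hD0
      linarith
    have hb : 0 < Bd E := lt_of_lt_of_le (by norm_num) (bd_NhOff E)
    have h2 : ‖g z‖ ≤ Real.exp (CQ * CD * sz R) := by
      refine (hg2 z hz).1.trans ?_
      rw [← Real.exp_log hb, ← Real.exp_nat_mul, mul_assoc]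
      exact Real.exp_le_exp.2 (mul_le_mul_of_nonneg_left hE2 (Nat.cast_nonneg _))
    have h3 := (Complex.norm_exp_le_exp_norm _).trans (Real.exp_le_exp.2 h1)
    rw [norm_mul]
    refine (mul_le_mul h2 h3 (norm_nonneg _) (Real.exp_pos _).le).trans ?_
    rw [← Real.exp_add]
    exact Real.exp_le_exp.2 (by linarith)
  · intro z hz h1
    rw [split_NhOff hP E F _ R hcl h1, Complex.exp_add, (hg2 z hz).2 h1]

end Pool.Agent.MP_f68ac8_nt.Nd

end

section

namespace Pool.Agent.MP_f68ac8_nt.Nd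
open NumberField Finset Filter
open MP_d64882_nt (cnt)
open Zv (Ex Prob)
open scoped Topology BigOperators commutatorElement

theorem markov_NhPois (Λ : Finset ℕ) (hΛ : ∀ l ∈ Λ, l.Prime) (G : ℕ → ℝ) (C₀ : ℝ) (K : ℕ → ℝ)
    (hK : ∀ a : ℕ, a ≠ 0 → ∀ A : Finset ℕ, ∑ n ∈ A, G n * K (a * n) ≤ C₀)
    (V : ℕ → ℝ) (hV : ∀ l, 0 ≤ V l) (A : Finset ℕ) (hA : ∀ n ∈ A, n.primeFactors ⊆ Λ) :
    ∑ n ∈ A, ∑ l ∈ n.primeFactors, V l * G (n / l) * K n ≤ C₀ * ∑ l ∈ Λ, V l := by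
  have e1 : ∑ n ∈ A, ∑ l ∈ n.primeFactors, V l * G (n / l) * K n =
      ∑ n ∈ A, ∑ l ∈ Λ, if l ∈ n.primeFactors then V l * G (n / l) * K n else 0 := by
    refine sum_congr rfl fun n hn => ?_
    rw [← sum_filter, filter_mem_eq_inter, inter_eq_right.mpr (hA n hn)]
  rw [e1, sum_comm, mul_sum]
  refine sum_le_sum fun l hl => ?_
  have hl0 : l ≠ 0 := (hΛ l hl).ne_zero
  rw [← sum_filter]
  have h := hK l hl0 ((A.filter fun n => l ∈ n.primeFactors).image fun n => n / l)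
  rw [sum_image] at h
  · have e2 : ∑ n ∈ A.filter (fun n => l ∈ n.primeFactors), V l * G (n / l) * K n =
        V l * ∑ n ∈ A.filter (fun n => l ∈ n.primeFactors), G (n / l) * K (l * (n / l)) := by
      rw [mul_sum]
      refine sum_congr rfl fun n hn => ?_
      rw [Nat.mul_div_cancel' (Nat.dvd_of_mem_primeFactors (mem_filter.mp hn).2), mul_assoc]
    rw [e2, mul_comm C₀]
    exact mul_le_mul_of_nonneg_left h (hV l)
  · intro a ha b hb hab
    have ha' := Nat.dvd_of_mem_primeFactors (mem_filter.mp (mem_coe.mp ha)).2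
    have hb' := Nat.dvd_of_mem_primeFactors (mem_filter.mp (mem_coe.mp hb)).2
    have hab' : a / l = b / l := hab
    rw [← Nat.mul_div_cancel' ha', ← Nat.mul_div_cancel' hb', hab']

theorem gprod_NhPois {G : ℕ → ℝ} (h1 : G 1 = 1)
    (hm : ∀ a b, a ≠ 0 → b ≠ 0 → G (a * b) = G a * G b) {ι : Type} [DecidableEq ι]
    (T : Finset ι) (f : ι → ℕ) (hf : ∀ i, f i ≠ 0) : G (∏ i ∈ T, f i) = ∏ i ∈ T, G (f i) := by
  induction T using Finset.induction_on with
  | empty => rw [prod_empty, prod_empty, h1]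
  | insert a s ha ih =>
    rw [prod_insert ha, prod_insert ha, hm _ _ (hf a) (prod_ne_zero_iff.mpr fun i _ => hf i), ih]

theorem expand_NhPois {Λ : Finset ℕ} (hΛ : ∀ l ∈ Λ, l.Prime) {W : Fin 4 → ℕ → ℝ} {G : ℕ → ℝ}
    (h1 : G 1 = 1) (hm : ∀ a b, a ≠ 0 → b ≠ 0 → G (a * b) = G a * G b)
    (hs : ∀ l ∈ Λ, ∑ m, W m l = G l) {d : ℕ} (q : Fin d → Λ) :
    ∑ μ : Fin d → Fin 4, ∏ j, W (μ j) (q j) = G (np q) := by
  rw [np, gprod_NhPois h1 hm _ _ (fun j => (hΛ _ (q j).2).ne_zero), ← Fintype.piFinset_univ,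
    ← prod_univ_sum (fun _ : Fin d => (univ : Finset (Fin 4))) (fun j m => W m (q j))]
  exact prod_congr rfl fun j _ => hs _ (q j).2

theorem kmu_NhPois {Λ : Finset ℕ} {W : Fin 4 → ℕ → ℝ} {G : ℕ → ℝ}
    (hs : ∀ l ∈ Λ, ∑ m, W m l = G l) {d : ℕ} (q : Fin d → Λ) :
    ∑ μ : Fin d → Fin 4, ((univ.filter fun j => μ j ≠ 3).card : ℝ) * ∏ j, W (μ j) (q j) =
      ∑ j, (∑ m with m ≠ 3, W m (q j)) * ∏ i ∈ univ.erase j, G (q i) := by
  have e1 : ∀ μ : Fin d → Fin 4, ((univ.filter fun j => μ j ≠ 3).card : ℝ) * ∏ j, W (μ j) (q j) =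
      ∑ j, ∏ i, (if i = j ∧ μ i = 3 then 0 else W (μ i) (q i)) := by
    intro μ
    rw [card_filter, Nat.cast_sum, sum_mul]
    refine sum_congr rfl fun j _ => ?_
    by_cases h : μ j = 3
    · rw [if_neg (not_not.mpr h), Nat.cast_zero, zero_mul]
      symm
      refine prod_eq_zero (mem_univ j) ?_
      rw [if_pos ⟨rfl, h⟩]
    · rw [if_pos h, Nat.cast_one, one_mul]
      refine prod_congr rfl fun i _ => ?_
      rw [if_neg]
      rintro ⟨rfl, h'⟩
      exact h h'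
  rw [sum_congr rfl fun μ _ => e1 μ, sum_comm]
  refine sum_congr rfl fun j _ => ?_
  rw [← Fintype.piFinset_univ, ← prod_univ_sum (fun _ : Fin d => (univ : Finset (Fin 4)))
    (fun i m => if i = j ∧ m = 3 then (0 : ℝ) else W m (q i)), ← mul_prod_erase _ _ (mem_univ j)]
  congr 1
  · rw [sum_filter]
    refine sum_congr rfl fun m _ => ?_
    by_cases h : m = 3
    · rw [if_pos ⟨rfl, h⟩, if_neg (not_not.mpr h)]
    · rw [if_neg (fun h' => h h'.2), if_pos h]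
  · refine prod_congr rfl fun i hi => ?_
    rw [← hs _ (q i).2]
    refine sum_congr rfl fun m _ => ?_
    rw [if_neg (fun h' => (mem_erase.mp hi).1 h'.1)]

theorem kmu2_NhPois {Λ : Finset ℕ} (hΛ : ∀ l ∈ Λ, l.Prime) (V : ℕ → ℝ) {G : ℕ → ℝ}
    (h1 : G 1 = 1) (hm : ∀ a b, a ≠ 0 → b ≠ 0 → G (a * b) = G a * G b) {d : ℕ}
    (q : Fin d → Λ) (hq : Function.Injective q)
    (hpf : (np q).primeFactors = univ.image fun j => (q j : ℕ)) :
    ∑ j, V (q j) * ∏ i ∈ univ.erase j, G (q i) =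
      ∑ l ∈ (np q).primeFactors, V l * G (np q / l) := by
  rw [hpf, sum_image (fun a _ b _ h => hq (Subtype.ext h))]
  refine sum_congr rfl fun j _ => ?_
  rw [np, ← mul_prod_erase _ _ (mem_univ j), Nat.mul_div_cancel_left _ (hΛ _ (q j).2).pos,
    gprod_NhPois h1 hm _ _ (fun j => (hΛ _ (q j).2).ne_zero)]

open Classical in
theorem point_NhPois {Λ S : Finset ℕ} {W : Fin 4 → ℕ → ℝ} {G : ℕ → ℝ} {δ : ℝ} {d₀ m₀ d : ℕ}
    (hΛ : ∀ l ∈ Λ, l.Prime) (hW : ∀ m l, 0 ≤ W m l) (h1 : G 1 = 1)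
    (hG : ∀ a b, a ≠ 0 → b ≠ 0 → G (a * b) = G a * G b) (hs : ∀ l ∈ Λ, ∑ m, W m l = G l)
    (hS : ∀ l ∈ S, ∀ m, m ≠ 1 → W m l = 0) (hδ : 0 < δ) (hδ1 : δ ≤ 1) (hd0 : 0 < d₀)
    (hm : 2 * m₀ ≤ d₀) (hd : d₀ ≤ d) (q : Fin d → Λ) (hq : Function.Injective q)
    (hpf : (np q).primeFactors = univ.image fun j => (q j : ℕ))
    (hqS : m₀ ≤ ((np q).primeFactors ∩ S).card) :
    G (np q) ≤
      (∑ μ : Fin d → Fin 4 with Thin δ m₀ (mk μ 1) (mk μ 3), ∏ j, W (μ j) (q j)) +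
      2 / (δ * d₀) * ∑ l ∈ (np q).primeFactors, (∑ m with m ≠ 3, W m l) * G (np q / l) := by
  rw [← kmu2_NhPois hΛ (fun l => ∑ m with m ≠ 3, W m l) h1 hG q hq hpf, ← kmu_NhPois hs q,
    ← expand_NhPois hΛ h1 hG hs q, sum_filter, mul_sum, ← sum_add_distrib]
  refine sum_le_sum fun μ _ => ?_
  have hP : 0 ≤ ∏ j, W (μ j) (q j) := prod_nonneg fun j _ => hW _ _
  have hdd : 0 < δ * d₀ := mul_pos hδ (by exact_mod_cast hd0)
  have h0 : 0 ≤ 2 / (δ * d₀) *
      (((univ.filter fun j => μ j ≠ 3).card : ℝ) * ∏ j, W (μ j) (q j)) := by positivity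
  by_cases hth : Thin δ m₀ (mk μ 1) (mk μ 3)
  · rw [if_pos hth]
    linarith
  · rw [if_neg hth, zero_add]
    by_cases hne : ∏ j, W (μ j) (q j) = 0
    · rw [hne] at h0 ⊢
      exact h0
    · have hk : δ * d₀ / 2 < ((univ.filter fun j => μ j ≠ 3).card : ℝ) := by
        by_contra hk
        exact hth (thin_NePois hS hδ hδ1 hm hd q μ (hpf ▸ hqS) (not_lt.mp hk) hne)
      rw [← mul_assoc]
      refine le_mul_of_one_le_left hP ?_
      rw [div_mul_eq_mul_div, le_div_iff₀ hdd]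
      linarith

open Classical in
theorem level_NhPois {Λ : Finset ℕ} {W : Fin 4 → ℕ → ℝ} {ε C ξ δ : ℝ} {m₀ d : ℕ}
    {G K β : ℕ → ℝ} (hΛ : ∀ l ∈ Λ, l.Prime) (hW : ∀ m l, 0 ≤ W m l) (h1 : G 1 = 1)
    (hG : ∀ a b, a ≠ 0 → b ≠ 0 → G (a * b) = G a * G b) (hs : ∀ l ∈ Λ, ∑ m, W m l = G l)
    (hms : ∀ m, 0 < ms Λ W m) (hK : ∀ n, 0 ≤ K n) (hβ : ∀ n, 0 ≤ β n) (hε : 0 ≤ ε) (hC : 0 ≤ C)
    (hξ : 0 ≤ ξ)
    (hE : ∀ μ : Fin d → Fin 4, Thin δ m₀ (mk μ 1) (mk μ 3) →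
      (Ex (U := fun _ => Λ) (wm Λ W μ) fun q =>
        if Function.Injective q then β (np q) * K (np q) else 0) ≤
      ε * (Ex (U := fun _ => Λ) (wm Λ W μ) fun q => K (np q)) + C ^ (d + 1) * ξ)
    (A : Finset ℕ) :
    ∑ n ∈ A, (∑ q : Fin d → Λ with (Function.Injective q ∧ np q = n),
      ∑ μ : Fin d → Fin 4 with Thin δ m₀ (mk μ 1) (mk μ 3), ∏ j, W (μ j) (q j)) * (β n * K n) ≤
      ε * (∑ q : Fin d → Λ, G (np q) * K (np q)) + C * ξ * (C * ∑ m, ms Λ W m) ^ d := by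
  have hP : ∀ (μ : Fin d → Fin 4) (q : Fin d → Λ), 0 ≤ ∏ j, W (μ j) (q j) := fun μ q =>
    prod_nonneg fun j _ => hW _ _
  have hM : ∀ μ : Fin d → Fin 4, 0 ≤ ∏ j, ms Λ W (μ j) := fun μ =>
    prod_nonneg fun j _ => (hms _).le
  calc _ = ∑ q : Fin d → Λ, ∑ n ∈ A, (if Function.Injective q ∧ np q = n then
          (∑ μ : Fin d → Fin 4 with Thin δ m₀ (mk μ 1) (mk μ 3), ∏ j, W (μ j) (q j)) *
            (β n * K n) else 0) := by
        rw [sum_comm]
        refine sum_congr rfl fun n _ => ?_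
        rw [sum_mul, sum_filter]
    _ ≤ ∑ q : Fin d → Λ,
          (∑ μ : Fin d → Fin 4 with Thin δ m₀ (mk μ 1) (mk μ 3), ∏ j, W (μ j) (q j)) *
            (if Function.Injective q then β (np q) * K (np q) else 0) := by
        refine sum_le_sum fun q _ => ?_
        have hG : 0 ≤ ∑ μ : Fin d → Fin 4 with Thin δ m₀ (mk μ 1) (mk μ 3), ∏ j, W (μ j) (q j) :=
          sum_nonneg fun μ _ => hP μ q
        by_cases hq : Function.Injective q ∧ np q ∈ A
        · rw [sum_eq_single (np q), if_pos ⟨hq.1, rfl⟩, if_pos hq.1]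
          · intro n _ hn
            exact if_neg fun h => hn h.2.symm
          · intro h
            exact absurd hq.2 h
        · rw [sum_eq_zero]
          · refine mul_nonneg hG ?_
            split_ifs
            · exact mul_nonneg (hβ _) (hK _)
            · exact le_rfl
          · intro n hn
            rw [if_neg]
            rintro ⟨h1, h2⟩
            exact hq ⟨h1, h2 ▸ hn⟩
    _ = ∑ μ : Fin d → Fin 4 with Thin δ m₀ (mk μ 1) (mk μ 3), (∏ j, ms Λ W (μ j)) *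
          Ex (U := fun _ => Λ) (wm Λ W μ) fun q =>
            if Function.Injective q then β (np q) * K (np q) else 0 := by
        rw [sum_congr rfl fun q _ => sum_mul _ _ _, sum_comm]
        exact sum_congr rfl fun μ _ => (ex_NePois hms μ _).symm
    _ ≤ ∑ μ : Fin d → Fin 4 with Thin δ m₀ (mk μ 1) (mk μ 3), (∏ j, ms Λ W (μ j)) *
          (ε * (Ex (U := fun _ => Λ) (wm Λ W μ) fun q => K (np q)) + C ^ (d + 1) * ξ) :=
        sum_le_sum fun μ hμ => mul_le_mul_of_nonneg_left (hE μ (mem_filter.mp hμ).2) (hM μ)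
    _ = ∑ μ : Fin d → Fin 4 with Thin δ m₀ (mk μ 1) (mk μ 3),
          (ε * ∑ q : Fin d → Λ, (∏ j, W (μ j) (q j)) * K (np q) +
            (∏ j, ms Λ W (μ j)) * (C ^ (d + 1) * ξ)) := by
        refine sum_congr rfl fun μ _ => ?_
        rw [mul_add, mul_left_comm, ex_NePois hms]
    _ ≤ ∑ μ : Fin d → Fin 4, (ε * ∑ q : Fin d → Λ, (∏ j, W (μ j) (q j)) * K (np q) +
            (∏ j, ms Λ W (μ j)) * (C ^ (d + 1) * ξ)) := by
        refine sum_le_sum_of_subset_of_nonneg (filter_subset _ _) fun μ _ _ => ?_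
        have h1 : 0 ≤ ∑ q : Fin d → Λ, (∏ j, W (μ j) (q j)) * K (np q) :=
          sum_nonneg fun q _ => mul_nonneg (hP μ q) (hK _)
        have h2 := hM μ
        positivity
    _ = _ := by
        rw [sum_add_distrib, ← mul_sum, ← sum_mul, sum_comm]
        congr 1
        · congr 1
          refine sum_congr rfl fun q _ => ?_
          rw [← sum_mul, expand_NhPois hΛ h1 hG hs]
        · rw [← Fintype.piFinset_univ,
            ← prod_univ_sum (fun _ : Fin d => (univ : Finset (Fin 4))) (fun _ m => ms Λ W m),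
            prod_const, card_univ, Fintype.card_fin, mul_pow]
          ring

open Classical in
theorem poisP (hT : TupN) : PoisP := by
  intro Λ S W C₀ ε C ξ δ D d₀ m₀ G K β hΛ hW hG1 hG0 hG hs hms hS hK hβ hKC hε hC hξ hδ hδ1 hD
    hd0 hm hE A hA
  obtain ⟨hT1, hT2, hT3⟩ := hT Λ hΛ
  have hM : ∑ m, ms Λ W m = ∑ l ∈ Λ, G l := by
    simp only [ms]
    rw [sum_comm]
    exact sum_congr rfl hs
  have hM3 : ∑ m with m ≠ 3, ms Λ W m = ∑ l ∈ Λ, ∑ m with m ≠ 3, W m l := by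
    simp only [ms]
    rw [sum_comm]
  have hM0 : 0 ≤ ∑ m, ms Λ W m := sum_nonneg fun m _ => (hms m).le
  have hdd : 0 < δ * d₀ := mul_pos hδ (by exact_mod_cast hd0)
  have hβK : ∀ n, 0 ≤ β n * K n := fun n => mul_nonneg (hβ n).1 (hK n)
  have hβK' : ∀ n, β n * K n ≤ K n := fun n => mul_le_of_le_one_left (hK n) (hβ n).2
  set H : ℕ → ℕ → ℝ := fun d n => ∑ q : Fin d → Λ with (Function.Injective q ∧ np q = n),
      ∑ μ : Fin d → Fin 4 with Thin δ m₀ (mk μ 1) (mk μ 3), ∏ j, W (μ j) (q j) with hH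
  set T : ℕ → ℝ := fun n => ∑ l ∈ n.primeFactors, (∑ m with m ≠ 3, W m l) * G (n / l) with hTd
  have hT0 : ∀ n, 0 ≤ T n := fun n =>
    sum_nonneg fun l _ => mul_nonneg (sum_nonneg fun m _ => hW m l) (hG0 _)
  have ha : ∑ n ∈ A.filter (fun n => ¬ ((n.primeFactors.card : ℝ) ≤ D)), G n * β n * K n ≤
      C₀ * (∑ m, ms Λ W m) / D := by
    have h := markov_NhPois Λ hΛ G C₀ K hKC G hG0
      (A.filter (fun n => ¬ ((n.primeFactors.card : ℝ) ≤ D)))
      (fun n hn => (hA n (mem_filter.mp hn).1).2.1)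
    rw [le_div_iff₀ hD, hM, sum_mul]
    refine le_trans (sum_le_sum fun n hn => ?_) h
    have hn0 : n ≠ 0 := (hA n (mem_filter.mp hn).1).1.ne_zero
    have e : ∑ l ∈ n.primeFactors, G l * G (n / l) * K n = G n * K n * n.primeFactors.card := by
      rw [sum_congr rfl (g := fun _ => G n * K n), sum_const, nsmul_eq_mul, mul_comm]
      intro l hl
      have hd := Nat.mul_div_cancel' (Nat.dvd_of_mem_primeFactors hl)
      rw [← hG l (n / l) (Nat.prime_of_mem_primeFactors hl).ne_zero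
        (fun h0 => hn0 (by rw [← hd, h0, mul_zero])), hd]
    rw [e, mul_assoc (G n)]
    exact mul_le_mul (mul_le_mul_of_nonneg_left (hβK' n) (hG0 n))
      (not_le.mp (mem_filter.mp hn).2).le hD.le (mul_nonneg (hG0 n) (hK n))
  have hpt : ∀ n ∈ A, G n ≤
      H n.primeFactors.card n / n.primeFactors.card.factorial + 2 / (δ * d₀) * T n := by
    intro n hn
    obtain ⟨h1, h2, h4, h5⟩ := hA n hn
    have hf : (0 : ℝ) < n.primeFactors.card.factorial := by exact_mod_cast Nat.factorial_pos _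
    rw [← sub_le_iff_le_add, le_div_iff₀ hf, ← hT2 n h1 h2, mul_comm, ← nsmul_eq_mul, ← sum_const]
    refine sum_le_sum fun q hq => ?_
    obtain ⟨hq1, hq2⟩ := (mem_filter.mp hq).2
    have := point_NhPois hΛ hW hG1 hG hs hS hδ hδ1 hd0 hm h4 q hq1 (hT1 _ q hq1).2
      (hq2.symm ▸ h5)
    rw [hq2] at this
    rw [sub_le_iff_le_add]
    exact this
  set A₁ := A.filter (fun n => (n.primeFactors.card : ℝ) ≤ D) with hA₁
  have hb1 : ∑ n ∈ A₁, 2 / (δ * d₀) * T n * K n ≤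
      2 * C₀ * (∑ m with m ≠ 3, ms Λ W m) / (δ * d₀) := by
    have h := markov_NhPois Λ hΛ G C₀ K hKC (fun l => ∑ m with m ≠ 3, W m l)
      (fun l => sum_nonneg fun m _ => hW m l) A₁ (fun n hn => (hA n (mem_filter.mp hn).1).2.1)
    have e : ∑ n ∈ A₁, 2 / (δ * d₀) * T n * K n = 2 / (δ * d₀) * ∑ n ∈ A₁, ∑ l ∈ n.primeFactors,
        (∑ m with m ≠ 3, W m l) * G (n / l) * K n := by
      rw [mul_sum]
      refine sum_congr rfl fun n _ => ?_
      rw [mul_assoc, hTd, sum_mul]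
    rw [e, hM3]
    refine (mul_le_mul_of_nonneg_left h (by positivity)).trans (le_of_eq ?_)
    ring
  have hb2 : ∑ n ∈ A₁, H n.primeFactors.card n / n.primeFactors.card.factorial * (β n * K n) ≤
      ε * C₀ + C * ξ * Real.exp (C * ∑ m, ms Λ W m) := by
    have hmap : ∀ n ∈ A₁, n.primeFactors.card ∈ range (⌊D⌋₊ + 1) := fun n hn =>
      mem_range.mpr (Nat.lt_succ_of_le (Nat.le_floor (mem_filter.mp hn).2))
    rw [← sum_fiberwise_of_maps_to hmap]
    have h3 := hT3 (fun n => G n * K n) C₀ (⌊D⌋₊ + 1) (fun n => mul_nonneg (hG0 n) (hK n))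
      (fun A' => by simpa only [one_mul] using hKC 1 one_ne_zero A')
    have h4 := Real.sum_le_exp_of_nonneg (mul_nonneg hC hM0) (⌊D⌋₊ + 1)
    refine le_trans ?_ (add_le_add (mul_le_mul_of_nonneg_left h3 hε)
      (mul_le_mul_of_nonneg_left h4 (mul_nonneg hC hξ)))
    rw [mul_sum, mul_sum, ← sum_add_distrib]
    refine sum_le_sum fun d hd => ?_
    have hdD : (d : ℝ) ≤ D :=
      (Nat.le_floor_iff hD.le).mp (Nat.lt_succ_iff.mp (mem_range.mp hd))
    have hf : (0 : ℝ) < d.factorial := by exact_mod_cast Nat.factorial_pos _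
    have h5 := level_NhPois hΛ hW hG1 hG hs hms hK (fun n => (hβ n).1) hε hC hξ
      (fun μ hμ => hE d μ hdD hμ) (A₁.filter fun n => n.primeFactors.card = d)
    have e : ∑ n ∈ A₁.filter (fun n => n.primeFactors.card = d),
        H n.primeFactors.card n / n.primeFactors.card.factorial * (β n * K n) =
        (∑ n ∈ A₁.filter (fun n => n.primeFactors.card = d), H d n * (β n * K n)) /
          d.factorial := by
      rw [sum_div]
      refine sum_congr rfl fun n hn => ?_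
      rw [(mem_filter.mp hn).2]
      ring
    rw [e, ← mul_div_assoc, ← mul_div_assoc, ← add_div]
    exact div_le_div_of_nonneg_right h5 hf.le
  have hb : ∑ n ∈ A₁, G n * β n * K n ≤
      ∑ n ∈ A₁, H n.primeFactors.card n / n.primeFactors.card.factorial * (β n * K n) +
        ∑ n ∈ A₁, 2 / (δ * d₀) * T n * K n := by
    rw [← sum_add_distrib]
    refine sum_le_sum fun n hn => ?_
    have a1 := mul_le_mul_of_nonneg_right (hpt n (mem_filter.mp hn).1) (hβK n)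
    have a2 : 2 / (δ * d₀) * T n * (β n * K n) ≤ 2 / (δ * d₀) * T n * K n :=
      mul_le_mul_of_nonneg_left (hβK' n) (mul_nonneg (by positivity) (hT0 n))
    rw [add_mul] at a1
    rw [mul_assoc]
    linarith
  rw [← sum_filter_add_sum_filter_not A (fun n => (n.primeFactors.card : ℝ) ≤ D)]
  linarith

end Pool.Agent.MP_f68ac8_nt.Nd

end

section

namespace Pool.Agent.MP_f68ac8_nt.Nd
open NumberField Finset Filter
open MP_d64882_nt (cnt)
open Zv (Ex Prob)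
open scoped Topology BigOperators commutatorElement

lemma binom_NhPsd (k : ℕ) (U : ℂ) :
    ∑ i ∈ range (k + 2), (-1) ^ i * ((k + 1).choose i : ℂ) * U ^ i = (1 - U) ^ (k + 1) := by
  rw [show (1 - U) = -U + 1 by ring, add_pow]
  refine sum_congr rfl fun i _ => ?_
  rw [neg_pow U, one_pow]; ring

lemma expc_NhPsd (z : ℂ) : HasSum (fun K : ℕ => z ^ K / K.factorial) (Complex.exp z) := by
  rw [Complex.exp_eq_exp_ℂ]
  exact NormedSpace.expSeries_div_hasSum_exp z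

lemma expr_NhPsd (z : ℝ) : HasSum (fun K : ℕ => z ^ K / K.factorial) (Real.exp z) := by
  rw [Real.exp_eq_exp_ℝ]
  exact NormedSpace.expSeries_div_hasSum_exp z

/-- the alternating sum of exponentials -/
noncomputable def dd_NhPsd (k : ℕ) (F : ℕ → ℂ) : ℂ :=
  ∑ i ∈ range (k + 2), (-1) ^ i * ((k + 1).choose i : ℂ) * Complex.exp (F i)

lemma hs_NhPsd {ι : Type} (T : Finset ι) (c : ι → ℂ) (a u : ι → ℝ) (k : ℕ) :
    HasSum (fun K : ℕ => (∑ X ∈ Fintype.piFinset (fun _ : Fin K => T), (∏ j, c (X j)) *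
        (((∏ j, a (X j)) * (1 - ∏ j, u (X j)) ^ (k + 1) : ℝ) : ℂ)) / K.factorial)
      (dd_NhPsd k fun i => ∑ x ∈ T, c x * ((a x * u x ^ i : ℝ) : ℂ)) := by
  have h1 : ∀ i ∈ range (k + 2), HasSum (fun K : ℕ => (-1) ^ i * ((k + 1).choose i : ℂ) *
      ((∑ x ∈ T, c x * ((a x * u x ^ i : ℝ) : ℂ)) ^ K / K.factorial))
      ((-1) ^ i * ((k + 1).choose i : ℂ) *
        Complex.exp (∑ x ∈ T, c x * ((a x * u x ^ i : ℝ) : ℂ))) :=
    fun i _ => (expc_NhPsd _).mul_left _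
  have h2 := hasSum_sum h1
  unfold dd_NhPsd
  refine h2.congr_fun fun K => ?_
  simp only [← mul_div_assoc]
  rw [← sum_div]
  congr 1
  simp only [sum_pow', mul_sum]
  rw [sum_comm]
  refine sum_congr rfl fun X _ => ?_
  push_cast
  rw [← binom_NhPsd, mul_sum, mul_sum]
  refine sum_congr rfl fun i _ => ?_
  rw [prod_mul_distrib, prod_mul_distrib, prod_pow]
  ring

lemma abs_NhPsd {ι : Type} (T : Finset ι) (B : Finset ℕ) (γ : ℕ → ι → ℂ) (b : ℕ → ℂ)
    (a u : ι → ℝ) (k K : ℕ) (hγ : ∀ m x, ‖γ m x‖ ≤ 1) (ha : ∀ x, 0 ≤ a x)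
    (hu : ∀ x, 0 ≤ u x ∧ u x ≤ 1) :
    ∑ X ∈ Fintype.piFinset (fun _ : Fin K => T), (∏ j, a (X j)) * (1 - ∏ j, u (X j)) ^ (k + 1) *
        ‖∑ m ∈ B, b m * ∏ j, γ m (X j)‖ ^ 2 ≤
      K.factorial * ((∑ m ∈ B, ‖b m‖ ^ 2) * Real.exp (∑ x ∈ T, a x) +
        ∑ m ∈ B, ∑ m' ∈ B, if m = m' then 0 else ‖b m‖ * ‖b m'‖ *
          ‖dd_NhPsd k fun i => ∑ x ∈ T, (γ m x * (starRingEnd ℂ) (γ m' x)) *
            ((a x * u x ^ i : ℝ) : ℂ)‖) := by
  set D : ℕ → ℕ → ℂ := fun m m' => dd_NhPsd k fun i => ∑ x ∈ T,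
    (γ m x * (starRingEnd ℂ) (γ m' x)) * ((a x * u x ^ i : ℝ) : ℂ) with hD
  set w : (K : ℕ) → (Fin K → ι) → ℝ := fun K X =>
    (∏ j, a (X j)) * (1 - ∏ j, u (X j)) ^ (k + 1) with hw
  have hU : ∀ (K : ℕ) (X : Fin K → ι), 0 ≤ ∏ j, u (X j) ∧ ∏ j, u (X j) ≤ 1 := fun K X =>
    ⟨prod_nonneg fun j _ => (hu _).1, prod_le_one (fun j _ => (hu _).1) fun j _ => (hu _).2⟩
  have hw0 : ∀ K X, 0 ≤ w K X := fun K X =>
    mul_nonneg (prod_nonneg fun j _ => ha _) (pow_nonneg (by linarith [(hU K X).2]) _)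
  have hw1 : ∀ K X, w K X ≤ ∏ j, a (X j) := fun K X =>
    mul_le_of_le_one_right (prod_nonneg fun j _ => ha _)
      (pow_le_one₀ (by linarith [(hU K X).2]) (by linarith [(hU K X).1]))
  have hs : ∀ m m', HasSum (fun K : ℕ => (∑ X ∈ Fintype.piFinset (fun _ : Fin K => T),
      (∏ j, (γ m (X j) * (starRingEnd ℂ) (γ m' (X j)))) * (w K X : ℂ)) / K.factorial) (D m m') :=
    fun m m' => hs_NhPsd T (fun x => γ m x * (starRingEnd ℂ) (γ m' x)) a u k
  have hdiag : ∀ m m', ‖D m m'‖ ≤ Real.exp (∑ x ∈ T, a x) := by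
    intro m m'
    refine (hs m m').norm_le_of_bounded (expr_NhPsd _) fun K => ?_
    rw [norm_div, Complex.norm_natCast, sum_pow']
    refine div_le_div_of_nonneg_right ?_ (Nat.cast_nonneg _)
    refine norm_sum_le_of_le _ fun X _ => ?_
    rw [norm_mul, Complex.norm_real, Real.norm_of_nonneg (hw0 K X), norm_prod]
    refine (mul_le_of_le_one_left (hw0 K X) ?_).trans (hw1 K X)
    refine prod_le_one (fun j _ => norm_nonneg _) fun j _ => ?_
    rw [norm_mul, Complex.norm_conj]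
    exact mul_le_one₀ (hγ _ _) (norm_nonneg _) (hγ _ _)
  set t : ℕ → ℝ := fun K => (∑ X ∈ Fintype.piFinset (fun _ : Fin K => T),
    w K X * ‖∑ m ∈ B, b m * ∏ j, γ m (X j)‖ ^ 2) / K.factorial with ht
  have ht0 : ∀ K, 0 ≤ t K := fun K =>
    div_nonneg (sum_nonneg fun X _ => mul_nonneg (hw0 K X) (sq_nonneg _)) (Nat.cast_nonneg _)
  have hS : HasSum (fun K => (t K : ℂ))
      (∑ m ∈ B, ∑ m' ∈ B, b m * (starRingEnd ℂ) (b m') * D m m') := by
    have h1 := hasSum_sum (s := B) fun m _ => hasSum_sum (s := B) fun m' _ =>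
      (hs m m').mul_left (b m * (starRingEnd ℂ) (b m'))
    refine h1.congr_fun fun K => ?_
    simp only [ht, ← mul_div_assoc, ← sum_div]
    push_cast
    congr 1
    simp only [mul_sum]
    refine Eq.trans ?_ (sum_congr rfl fun m _ => sum_comm)
    rw [sum_comm]
    refine sum_congr rfl fun X _ => ?_
    rw [← Complex.mul_conj', map_sum, sum_mul_sum, mul_sum]
    refine sum_congr rfl fun m _ => ?_
    rw [mul_sum]
    refine sum_congr rfl fun m' _ => ?_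
    rw [prod_mul_distrib, map_mul, map_prod]
    ring
  have hR : HasSum t (∑ m ∈ B, ∑ m' ∈ B, b m * (starRingEnd ℂ) (b m') * D m m').re := by
    simpa using Complex.hasSum_re hS
  have h1 : t K ≤ (∑ m ∈ B, ∑ m' ∈ B, b m * (starRingEnd ℂ) (b m') * D m m').re :=
    le_hasSum hR K fun j _ => ht0 j
  have h2 : (∑ m ∈ B, ∑ m' ∈ B, b m * (starRingEnd ℂ) (b m') * D m m').re ≤
      (∑ m ∈ B, ‖b m‖ ^ 2) * Real.exp (∑ x ∈ T, a x) +
        ∑ m ∈ B, ∑ m' ∈ B, if m = m' then 0 else ‖b m‖ * ‖b m'‖ * ‖D m m'‖ := by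
    refine (Complex.re_le_norm _).trans ?_
    rw [sum_mul, ← sum_add_distrib]
    refine norm_sum_le_of_le _ fun m hm => ?_
    have h3 : ‖b m‖ ^ 2 * Real.exp (∑ x ∈ T, a x) =
        ∑ m' ∈ B, if m = m' then ‖b m‖ ^ 2 * Real.exp (∑ x ∈ T, a x) else 0 := by
      rw [sum_ite_eq, if_pos hm]
    rw [h3, ← sum_add_distrib]
    refine norm_sum_le_of_le _ fun m' _ => ?_
    rw [norm_mul, norm_mul, Complex.norm_conj]
    split_ifs with h
    · subst h
      rw [add_zero, ← sq]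
      exact mul_le_mul_of_nonneg_left (hdiag m m) (sq_nonneg _)
    · rw [zero_add]
  have h3 := h1.trans h2
  have hK : (0 : ℝ) < K.factorial := Nat.cast_pos.2 K.factorial_pos
  rw [ht, div_le_iff₀ hK, mul_comm] at h3
  exact h3

lemma pw_NhPsd (s h : ℝ) (i l : ℕ) :
    pw ((s : ℂ) + i • (h : ℂ)) l = ((‖pw s l‖ * ((l : ℝ) ^ (-h)) ^ i : ℝ) : ℂ) := by
  unfold pw
  split_ifs with hl
  · have hl0 : (0 : ℝ) < l := Nat.cast_pos.2 hl.pos
    have e1 : (l : ℂ) ^ (-(s : ℂ)) = (((l : ℝ) ^ (-s) : ℝ) : ℂ) := by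
      rw [Complex.ofReal_cpow hl0.le]; push_cast; rfl
    rw [e1, Complex.norm_real, Real.norm_of_nonneg (Real.rpow_nonneg hl0.le _),
      ← Real.rpow_natCast, ← Real.rpow_mul hl0.le, ← Real.rpow_add hl0,
      Complex.ofReal_cpow hl0.le]
    push_cast
    congr 1
    rw [nsmul_eq_mul]; ring
  · simp

lemma npw_NhPsd (s : ℝ) (l : ℕ) (hl : l.Prime) : ‖pw s l‖ = (l : ℝ) ^ (-s) := by
  unfold pw
  have hl0 : (0 : ℝ) < l := Nat.cast_pos.2 hl.pos
  have e1 : (l : ℂ) ^ (-(s : ℂ)) = (((l : ℝ) ^ (-s) : ℝ) : ℂ) := by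
    rw [Complex.ofReal_cpow hl0.le]; push_cast; rfl
  rw [if_pos hl, e1, Complex.norm_real, Real.norm_of_nonneg (Real.rpow_nonneg hl0.le _)]

lemma fwd_NhPsd (F : ℂ → ℂ) (s h : ℂ) (k : ℕ) :
    ‖dd_NhPsd k fun i => F (s + i • h)‖ =
      ‖(fwdDiff h)^[k + 1] (fun z => Complex.exp (F z)) s‖ := by
  have h1 : (dd_NhPsd k fun i => F (s + i • h)) =
      (-1) ^ (k + 1) * (fwdDiff h)^[k + 1] (fun z => Complex.exp (F z)) s := by
    rw [fwdDiff_iter_eq_sum_shift, mul_sum, dd_NhPsd]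
    refine sum_congr rfl fun i hi => ?_
    have hi' : i ≤ k + 1 := Nat.lt_succ_iff.1 (mem_range.1 hi)
    obtain ⟨j, hj⟩ := Nat.exists_eq_add_of_le hi'
    have e1 : k + 1 - i = j := by omega
    have e2 : ((-1 : ℂ)) ^ (k + 1) * (-1) ^ j = (-1) ^ i := by
      rw [hj, pow_add, mul_assoc, ← mul_pow]; simp
    rw [e1, zsmul_eq_mul, ← e2]
    push_cast
    ring
  rw [h1, norm_mul, norm_pow, norm_neg, norm_one, one_pow, one_mul]

theorem psdP (hP : PsumStmt) : PsdP := by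
  intro J _ B γ b s h L δ k K A hγ hs hh hL hδ hA hD
  classical
  set a : ℕ × J → ℝ := fun x => ‖pw s x.1‖ with ha
  set u : ℕ × J → ℝ := fun x => (x.1 : ℝ) ^ (-h) with hu
  have ha0 : ∀ x, 0 ≤ a x := fun x => norm_nonneg _
  have hu0 : ∀ x, 0 ≤ u x ∧ u x ≤ 1 := by
    intro x
    refine ⟨Real.rpow_nonneg (Nat.cast_nonneg _) _, ?_⟩
    rcases Nat.eq_zero_or_pos x.1 with h0 | h0
    · simp only [hu, h0, Nat.cast_zero]
      rw [Real.zero_rpow (by linarith)]; exact zero_le_one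
    · exact Real.rpow_le_one_of_one_le_of_nonpos (by exact_mod_cast h0) (by linarith)
  have hsum : Summable fun l : ℕ => ‖pw s l‖ := (hP.1 s (by simpa using hs)).1
  set c : ℕ → ℕ → ℕ → ℂ := fun m m' l => ∑ j, γ m l j * (starRingEnd ℂ) (γ m' l j) with hc
  have hc1 : ∀ m m' l, ‖c m m' l‖ ≤ Fintype.card J := by
    intro m m' l
    refine (norm_sum_le_of_le (n := fun _ => (1 : ℝ)) _ fun j _ => ?_).trans (by simp)
    rw [norm_mul, Complex.norm_conj]
    exact mul_le_one₀ (hγ _ _ _) (norm_nonneg _) (hγ _ _ _)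
  set Dn : ℕ → ℕ → ℕ → ℂ := fun n m m' => dd_NhPsd k fun i =>
    ∑ l ∈ range n, c m m' l * pw ((s : ℂ) + i • (h : ℂ)) l with hDn
  set D : ℕ → ℕ → ℂ := fun m m' => dd_NhPsd k fun i =>
    ∑' l, c m m' l * pw ((s : ℂ) + i • (h : ℂ)) l with hD'
  have hlim : ∀ m m', Tendsto (fun n => Dn n m m') atTop (𝓝 (D m m')) := by
    intro m m'
    refine tendsto_finsetSum _ fun i _ => Tendsto.const_mul _ ?_
    refine (Complex.continuous_exp.tendsto _).comp ?_
    refine Summable.tendsto_sum_tsum_nat ?_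
    have h1 : 1 < ((s : ℂ) + i • (h : ℂ)).re := by
      have : (0 : ℝ) ≤ i * h := by positivity
      simp only [nsmul_eq_mul, Complex.add_re, Complex.ofReal_re, Complex.mul_re,
        Complex.natCast_re, Complex.natCast_im, Complex.ofReal_im, mul_zero, sub_zero]
      linarith
    refine Summable.of_norm_bounded (((hP.1 _ h1).1).mul_left (Fintype.card J : ℝ)) fun l => ?_
    rw [norm_mul]
    exact mul_le_mul_of_nonneg_right (hc1 _ _ _) (norm_nonneg _)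
  have hDδ : ∀ m ∈ B, ∀ m' ∈ B, m ≠ m' → ‖D m m'‖ ≤ δ := by
    intro m hm m' hm' hne
    have := fwd_NhPsd (fun z => ∑' l, c m m' l * pw z l) s h k
    exact this.le.trans (hD m hm m' hm' hne)
  set E : ℝ := (∑ m ∈ B, ‖b m‖ ^ 2) * Real.exp (Fintype.card J * ∑' l, ‖pw s l‖) with hE
  have hK : (0 : ℝ) ≤ K.factorial := Nat.cast_nonneg _
  have hT : Tendsto (fun n => (K.factorial : ℝ) * (E + ∑ m ∈ B, ∑ m' ∈ B,
      if m = m' then 0 else ‖b m‖ * ‖b m'‖ * ‖Dn n m m'‖)) atTop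
      (𝓝 (K.factorial * (E + ∑ m ∈ B, ∑ m' ∈ B,
        if m = m' then 0 else ‖b m‖ * ‖b m'‖ * ‖D m m'‖))) := by
    refine Tendsto.const_mul _ (Tendsto.const_add _ ?_)
    refine tendsto_finsetSum _ fun m _ => tendsto_finsetSum _ fun m' _ => ?_
    split_ifs
    · exact tendsto_const_nhds
    · exact Tendsto.const_mul _ (hlim m m').norm
  refine le_trans (ge_of_tendsto hT ?_) ?_
  · filter_upwards [eventually_gt_atTop (A.sup Prod.fst)] with n hn
    have hsub : A ⊆ range n ×ˢ univ := fun x hx =>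
      mem_product.2 ⟨mem_range.2 ((le_sup (f := Prod.fst) hx).trans_lt hn), mem_univ _⟩
    have h1 := abs_NhPsd (range n ×ˢ (univ : Finset J)) B (fun m x => γ m x.1 x.2) b a u k K
      (fun m x => hγ _ _ _) ha0 hu0
    refine le_trans ?_ (h1.trans (mul_le_mul_of_nonneg_left (add_le_add ?_ (le_of_eq ?_)) hK))
    · have hinj : Function.Injective fun (x : Fin K → A) (i : Fin K) => (x i).1 :=
        fun x y hxy => funext fun i => Subtype.ext (congrFun hxy i)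
      have hnn : ∀ X : Fin K → ℕ × J, 0 ≤ (∏ j, a (X j)) * (1 - ∏ j, u (X j)) ^ (k + 1) *
          ‖∑ m ∈ B, b m * ∏ j, γ m (X j).1 (X j).2‖ ^ 2 := fun X =>
        mul_nonneg (mul_nonneg (prod_nonneg fun j _ => ha0 _) (pow_nonneg (sub_nonneg.2
          (prod_le_one (fun j _ => (hu0 _).1) fun j _ => (hu0 _).2)) _)) (sq_nonneg _)
      refine le_trans ?_ (sum_le_sum_of_subset_of_nonneg
        (s := univ.map ⟨_, hinj⟩) ?_ fun X _ _ => hnn X)
      · rw [sum_map, mul_sum]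
        refine sum_le_sum fun x _ => ?_
        simp only [Function.Embedding.coeFn_mk]
        have e1 : ∏ j, a (x j).1 = ∏ i, ((x i).1.1 : ℝ) ^ (-s) :=
          prod_congr rfl fun j _ => npw_NhPsd s _ (hA _ (x j).2).1
        rw [e1, ← mul_assoc, mul_comm (_ ^ (k + 1))]
        refine mul_le_mul_of_nonneg_right (mul_le_mul_of_nonneg_left ?_
          (prod_nonneg fun j _ => Real.rpow_nonneg (Nat.cast_nonneg _) _)) (sq_nonneg _)
        have hL0 : 0 < L := by linarith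
        refine pow_le_pow_left₀ (sub_nonneg.2 (Real.rpow_le_one_of_one_le_of_nonpos hL
          (neg_nonpos.2 (by positivity)))) (sub_le_sub_left ?_ _) _
        have e2 : L ^ (-(K * h)) = ∏ _j : Fin K, L ^ (-h) := by
          rw [prod_const, card_univ, Fintype.card_fin, ← Real.rpow_natCast,
            ← Real.rpow_mul hL0.le]
          congr 1; ring
        rw [e2]
        refine prod_le_prod (fun j _ => (hu0 _).1) fun j _ => ?_
        exact Real.rpow_le_rpow_of_nonpos hL0 (hA _ (x j).2).2 (by linarith)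
      · intro X hX
        obtain ⟨x, _, rfl⟩ := mem_map.1 hX
        exact Fintype.mem_piFinset.2 fun i => hsub (x i).2
    · refine mul_le_mul_of_nonneg_left (Real.exp_le_exp.2 ?_) (sum_nonneg fun _ _ => sq_nonneg _)
      rw [sum_product]
      simp only [ha, sum_const, card_univ, nsmul_eq_mul]
      rw [← mul_sum]
      exact mul_le_mul_of_nonneg_left (hsum.sum_le_tsum _ fun _ _ => norm_nonneg _)
        (Nat.cast_nonneg _)
    · refine sum_congr rfl fun m _ => sum_congr rfl fun m' _ => ?_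
      have e3 : ∀ i : ℕ, ∑ x ∈ range n ×ˢ (univ : Finset J),
          (γ m x.1 x.2 * (starRingEnd ℂ) (γ m' x.1 x.2)) * ((a x * u x ^ i : ℝ) : ℂ) =
          ∑ l ∈ range n, c m m' l * pw ((s : ℂ) + i • (h : ℂ)) l := by
        intro i
        rw [sum_product]
        refine sum_congr rfl fun l _ => ?_
        rw [pw_NhPsd, hc, sum_mul]
      simp only [e3, hDn]
  · refine mul_le_mul_of_nonneg_left (add_le_add le_rfl ?_) hK
    rw [sq, sum_mul_sum, sum_mul]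
    refine sum_le_sum fun m hm => ?_
    rw [sum_mul]
    refine sum_le_sum fun m' hm' => ?_
    split_ifs with hne
    · positivity
    · exact mul_le_mul_of_nonneg_left (hDδ m hm m' hm' hne) (by positivity)

end Pool.Agent.MP_f68ac8_nt.Nd

end

section

/-! The analytic statements for an odd prime. -/

namespace Pool.Agent.MP_f68ac8_nt.Nd

theorem cont_all : ContStmt := by
  have hI := int_stmt
  have hU := unf_stmt psi_stmt
  have hG := reg_stmt pack_stmt cov_stmt test_stmt psi_stmt hU cnt_stmt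
  exact cont_stmt (scale_stmt test_stmt hI) cnt_stmt
    (diff_stmt pack_stmt cov_stmt (riem_stmt hI) test_stmt psi_stmt hU cnt_stmt hG)

theorem ana_all (p : ℕ) [Fact p.Prime] :
    GzP p ∧ ChZ p ∧ ChQ p ∧ SelP p ∧ Bil1P p ∧ MertP p ∧ GpP p ∧ TkP p ∧ LowP p := by
  have hC := cont_all
  have hL := loc_stmt hC eul_stmtB landau_stmt
  have hW := win_stmt hC eul_stmtB psum_stmt fd_stmt (free_stmt eul_stmtB hL)
  have z := gzP p discP countP
  have c := chZ p (chebP psum_stmt hW discP countP artinP) z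
  have x := expP hC eul_stmtB psum_stmt
  have m := mertP p psum_stmt mert_stmt z (logP hC x)
  have g := gpP p m htP
  exact ⟨z, c, chQ p c z, selP p discP countP (exc_stmt hC)
    (dichP psum_stmt (one_stmt eul_stmtB hL) discP countP) (grpP p) z,
    bil1P p psum_stmt mert_stmt z (offP p psum_stmt fd_stmt discP countP z (quoP hC x))
      (psdP psum_stmt) holP numP, m, g, tkP p m htP g, lowP p z g idP hsP⟩

end Pool.Agent.MP_f68ac8_nt.Nd

end
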