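import Mathlib
import Pool.Agent.Mg.Fe23604m.Gc7c2d8
import Pool.Agent.Mg.Fe23604m.G773521
import Pool.Agent.Mg.Fe23604m.G65b452
import Pool.Agent.Mg.Fe23604m.Gbee0b1
import Pool.Agent.Mg.Fe23604m.Ga53936

set_option linter.all false

section

namespace Pool.Agent.MP_f68ac8_nt.Nd

open Ev Pv Sv Zv Zk NumberField Finset Filter
open scoped Topology BigOperators commutatorElement

theorem avg_NjOsc {d : ℕ} {G : Type} [Fintype G] [Nonempty G] (i : Fin d)
    (f : (Fin d → G) × (Fin d → G) → ℂ) :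
    𝔼 x, f x = 𝔼 x : (Fin d → G) × (Fin d → G), 𝔼 s : G × G,
      f (Function.update x.1 i s.1, Function.update x.2 i s.2) := by
  have hinv : Function.Involutive fun z : ((Fin d → G) × (Fin d → G)) × (G × G) =>
      ((Function.update z.1.1 i z.2.1, Function.update z.1.2 i z.2.2), (z.1.1 i, z.1.2 i)) := by
    intro z
    simp
  have e := Fintype.expect_bijective _ hinv.bijective
    (fun z : ((Fin d → G) × (Fin d → G)) × (G × G) =>
      f (Function.update z.1.1 i z.2.1, Function.update z.1.2 i z.2.2)) (fun z => f z.1)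
    fun _ => rfl
  rw [← univ_product_univ, expect_product, expect_product] at e
  rw [e]
  exact expect_congr rfl fun x _ => (Fintype.expect_const _).symm

theorem fib_NjOsc {d : ℕ} {R : Type} [CommRing R] (J : Finset (Fin d)) (g : Fin d → ℕ)
    (c : Fin d → R) (hc : ∀ j, j ∉ J → c j = 0) (f : ℕ → R) :
    ∑ m ∈ J.image g, (∑ j ∈ J with g j = m, c j) * f m = ∑ j, c j * f (g j) := by
  rw [← sum_subset (subset_univ J) fun j _ hj => by rw [hc j hj, zero_mul],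
    ← sum_fiberwise_of_maps_to (s := J) (t := J.image g) (g := g) fun j hj => mem_image_of_mem g hj]
  refine sum_congr rfl fun m _ => ?_
  rw [sum_mul]
  exact sum_congr rfl fun j hj => by rw [(mem_filter.1 hj).2]

section
variable {Λ : Finset ℕ} {d : ℕ}

theorem swap_NjOsc {X : Type} [Fintype X] [Nonempty X] (w : Fin d → Λ → ℝ)
    (T : (Fin d → Λ) → ℂ) (G : (Fin d → Λ) → X → ℂ) (b : ℝ)
    (h : ∀ x, ‖Ex (U := fun _ => Λ) w fun q => T q * G q x‖ ≤ b) :
    ‖Ex (U := fun _ => Λ) w fun q => T q * 𝔼 x, G q x‖ ≤ b := by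
  have e : (Ex (U := fun _ => Λ) w fun q => T q * 𝔼 x, G q x) =
      𝔼 x, Ex (U := fun _ => Λ) w fun q => T q * G q x := by
    unfold Ex
    rw [expect_sum_comm]
    refine sum_congr rfl fun q _ => ?_
    simp only [Complex.real_smul]
    rw [mul_expect, mul_expect]
  rw [e]
  refine (RCLike.norm_expect_le (K := ℂ)).trans ?_
  exact expect_le univ_nonempty fun x _ => h x

open Classical in
/-- the factor that does not depend on the index `i` -/
noncomputable def ga_NjOsc (τ : ℝ) (i : Fin d) (H : (Fin d → Λ) → ℂ) (q : Fin d → Λ) : ℂ :=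
  (∏ k ∈ univ.erase i, tw τ (q k)) * if Ij_NdOsc i q then H q else 0

theorem norm_ga_NjOsc (τ : ℝ) (i : Fin d) {H : (Fin d → Λ) → ℂ} (hH : ∀ q, ‖H q‖ ≤ 1)
    (q : Fin d → Λ) : ‖ga_NjOsc τ i H q‖ ≤ 1 := by
  unfold ga_NjOsc
  rw [norm_mul, norm_prod, prod_eq_one fun k _ => norm_tw_NdOsc τ _, one_mul]
  split_ifs
  · exact hH _
  · simp

theorem split_NjOsc {w : Fin d → Λ → ℝ} (hw : Prob (U := fun _ => Λ) w) (τ : ℝ) (i : Fin d)
    (H : (Fin d → Λ) → ℂ) (Φ : (Fin d → Λ) → Λ → ℂ)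
    (hH : ∀ q v, H (Function.update q i v) = H q)
    (hΦ : ∀ q v v', Φ (Function.update q i v) v' = Φ q v') :
    (Ex (U := fun _ => Λ) w fun q => (∏ j, tw τ (q j)) *
      if Function.Injective q then H q * Φ q (q i) else 0) =
    Ex (U := fun _ => Λ) w fun q => ga_NjOsc τ i H q *
      ∑ v, w i v • if ∀ k, k ≠ i → q k ≠ v then tw τ v * Φ q v else 0 := by
  rw [resample_ZaGcs hw i]
  refine congrArg _ (funext fun q => ?_)
  rw [mul_sum]
  refine sum_congr rfl fun v _ => ?_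
  rw [mul_smul_comm]
  refine congrArg _ ?_
  have e1 : ∏ j, tw τ (Function.update q i v j) = tw τ v * ∏ k ∈ univ.erase i, tw τ (q k) := by
    rw [← mul_prod_erase univ _ (mem_univ i), Function.update_self]
    exact congrArg _ (prod_congr rfl fun k hk => by
      rw [Function.update_of_ne (ne_of_mem_erase hk)])
  unfold ga_NjOsc
  rw [e1, hH, hΦ, Function.update_self]
  by_cases h1 : Ij_NdOsc i q
  · by_cases h2 : ∀ k, k ≠ i → q k ≠ v
    · rw [if_pos ((inj_update_NdOsc i q v).2 ⟨h1, h2⟩), if_pos h1, if_pos h2]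
      ring
    · rw [if_neg fun h3 => h2 ((inj_update_NdOsc i q v).1 h3).2, if_neg h2, mul_zero, mul_zero]
  · rw [if_neg fun h3 => h1 ((inj_update_NdOsc i q v).1 h3).1, if_neg h1, mul_zero, mul_zero,
      zero_mul]

theorem excl_NjOsc (i : Fin d) (q : Fin d → Λ) (ω : Λ → ℝ) (φ : Λ → ℂ) {η : ℝ} (hη : 0 ≤ η)
    (h0 : ∀ u, 0 ≤ ω u) (h1 : ∀ u, ω u ≤ η) (hφ : ∀ u, ‖φ u‖ ≤ 1) (h2 : ‖∑ u, ω u • φ u‖ ≤ η) :
    ‖∑ u, ω u • if ∀ k, k ≠ i → q k ≠ u then φ u else 0‖ ≤ (d + 1) * η := by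
  have h3 : ‖∑ u, ω u • ((if ∀ k, k ≠ i → q k ≠ u then φ u else 0) - φ u)‖ ≤ d * η := by
    refine (norm_sum_le _ _).trans ?_
    have h4 : ∀ u : Λ, ‖ω u • ((if ∀ k, k ≠ i → q k ≠ u then φ u else 0) - φ u)‖ ≤
        if u ∈ univ.image q then η else 0 := by
      intro u
      by_cases h5 : ∀ k, k ≠ i → q k ≠ u
      · rw [if_pos h5, sub_self, smul_zero, norm_zero]
        split_ifs
        · exact hη
        · exact le_rfl
      · rw [if_neg h5, zero_sub, norm_smul, norm_neg, Real.norm_of_nonneg (h0 u), if_pos]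
        · exact (mul_le_of_le_one_right (h0 u) (hφ u)).trans (h1 u)
        · push Not at h5
          obtain ⟨k, -, hk⟩ := h5
          exact mem_image.2 ⟨k, mem_univ k, hk⟩
    refine (sum_le_sum fun u _ => h4 u).trans ?_
    rw [sum_ite_mem, univ_inter, sum_const, nsmul_eq_mul]
    refine mul_le_mul_of_nonneg_right ?_ hη
    exact_mod_cast card_image_le.trans (by simp)
  have e3 : (∑ u, ω u • if ∀ k, k ≠ i → q k ≠ u then φ u else 0) =
      ∑ u, ω u • ((if ∀ k, k ≠ i → q k ≠ u then φ u else 0) - φ u) + ∑ u, ω u • φ u := by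
    rw [← sum_add_distrib]
    exact sum_congr rfl fun u _ => by rw [← smul_add, sub_add_cancel]
  rw [e3]
  refine (norm_add_le _ _).trans ?_
  linarith

end

section
variable {p : ℕ} [Fact p.Prime]

theorem norm_psi_NjOsc (x : ZMod p) : ‖ZMod.stdAddChar x‖ = 1 := AddChar.norm_apply _ _

theorem norm_fP_NjOsc (x : ZMod p) : ‖fP x‖ ≤ 1 :=
  (RCLike.norm_expect_le (K := ℂ)).trans
    (expect_le univ_nonempty fun _ _ => (norm_psi_NjOsc _).le)

theorem bil_NjOsc {Q : Par} {c : ℝ} {n r : ℕ} {D η : ℝ} (hp : OkP p Q c n r D η) (m m' : Fin 4)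
    (hm : m ≠ 0) (hm' : m' ≠ 0) (A B : Q.Λ → ℂ) (s t : ZMod p) (hst : s ≠ 0 ∨ t ≠ 0)
    (hA : ∀ u, ‖A u‖ ≤ Q.W m u) (hB : ∀ u, ‖B u‖ ≤ Q.W m' u) :
    ‖∑ u, ∑ v, if u = v then 0 else
      A u * B v * ZMod.stdAddChar (s * lk p u v + t * lk p v u)‖ ≤ η := by
  have h := hp.bil m m' (fun l => if h : l ∈ Q.Λ then A ⟨l, h⟩ else 0)
    (fun l => if h : l ∈ Q.Λ then B ⟨l, h⟩ else 0) s t hm hm' hst
    (fun l hl => by rw [dif_pos hl]; exact hA _) fun l hl => by rw [dif_pos hl]; exact hB _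
  rw [← sum_coe_sort] at h
  refine le_trans (le_of_eq (congrArg _ (sum_congr rfl fun u _ => ?_))) h
  rw [← sum_coe_sort Q.Λ]
  refine sum_congr rfl fun v _ => ?_
  by_cases e : u = v
  · rw [if_pos e, if_pos (congrArg Subtype.val e)]
  · rw [if_neg e, if_neg fun e' => e (Subtype.ext e'), dif_pos u.2, dif_pos v.2]

theorem one_NjOsc {Q : Par} {c : ℝ} {n r : ℕ} {D η : ℝ} (hp : OkP p Q c n r D η) {d : ℕ}
    {w : Fin d → Q.Λ → ℝ} (hw : Prob (U := fun _ => Q.Λ) w) {i j : Fin d} (hji : j ≠ i)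
    {m m' : Fin 4} (hm : m ≠ 0) (hm' : m' ≠ 0) (hi : ∀ u, w i u ≤ Q.W m u)
    (hj : ∀ u, w j u ≤ Q.W m' u) (hi' : ∀ u, w i u ≠ 0 → u.1 ≠ p)
    (hj' : ∀ u, w j u ≠ 0 → u.1 ≠ p) {L : ℕ → ℕ → ZMod p}
    (hL : ∀ l m : ℕ, m ≠ p → L l m = lk p l m) (A B : Fin d → ZMod p) (hAB : A j ≠ 0 ∨ B j ≠ 0)
    {G : (Fin d → Q.Λ) → ℂ} (hG : ∀ q, ‖G q‖ ≤ 1) (τ : ℝ) :
    ‖Ex (U := fun _ => Q.Λ) w fun q => G q * ∑ v, w i v • if ∀ k, k ≠ i → q k ≠ v then
      tw τ v * ZMod.stdAddChar (∑ k, (A k * L v (q k) + B k * L (q k) v)) else 0‖ ≤ η := by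
  rw [resample_ZaGcs hw j]
  refine ex_le_NdOsc hw _ _ fun q _ => ?_
  have h1 := bil_NjOsc hp m m' hm hm'
    (fun v => w i v • if ∀ k, k ≠ i → k ≠ j → q k ≠ v then tw τ v *
      ZMod.stdAddChar (∑ k ∈ univ.erase j, (A k * L v (q k) + B k * L (q k) v)) else 0)
    (fun v => w j v • G (Function.update q j v)) (A j) (B j) hAB
    (fun u => by
      rw [norm_smul, Real.norm_of_nonneg (hw.1 i u)]
      refine (mul_le_of_le_one_right (hw.1 i u) ?_).trans (hi u)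
      split_ifs
      · rw [norm_mul, norm_tw_NdOsc, norm_psi_NjOsc, one_mul]
      · simp)
    fun v => by
      rw [norm_smul, Real.norm_of_nonneg (hw.1 j v)]
      exact (mul_le_of_le_one_right (hw.1 j v) (hG _)).trans (hj v)
  rw [sum_comm] at h1
  refine le_trans (le_of_eq (congrArg _ (sum_congr rfl fun v _ => ?_))) h1
  rw [mul_sum, smul_sum]
  refine sum_congr rfl fun u _ => ?_
  by_cases hu : w i u = 0
  · simp [hu]
  by_cases hv : w j v = 0
  · simp [hv]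
  by_cases e : u = v
  · rw [if_pos e, if_neg fun h => h j hji (by rw [Function.update_self, e])]
    simp
  rw [if_neg e]
  by_cases h2 : ∀ k, k ≠ i → k ≠ j → q k ≠ u
  · have e1 : ∑ k, (A k * L u (Function.update q j v k) + B k * L (Function.update q j v k) u) =
        ∑ k ∈ univ.erase j, (A k * L u (q k) + B k * L (q k) u) +
          (A j * lk p u v + B j * lk p v u) := by
      rw [← add_sum_erase univ _ (mem_univ j), Function.update_self, hL _ _ (hj' v hv),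
        hL _ _ (hi' u hu), add_comm]
      exact congrArg (· + _) (sum_congr rfl fun k hk => by
        rw [Function.update_of_ne (ne_of_mem_erase hk)])
    rw [if_pos h2, if_pos, e1, AddChar.map_add_eq_mul]
    · simp only [Complex.real_smul]
      ring
    · intro k hk
      by_cases hkj : k = j
      · rw [hkj, Function.update_self]
        exact fun h => e h.symm
      · rw [Function.update_of_ne hkj]
        exact h2 k hk hkj
  · rw [if_neg h2, if_neg fun h => h2 fun k hk hkj => by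
      have := h k hk
      rwa [Function.update_of_ne hkj] at this]
    simp

theorem mean_NjOsc {d : ℕ} (χ₀ : GQ →* Cp p) (l : Fin d → ℕ) (i : Fin d) (α β : Fin d → ZMod p)
    (hα : α i = 0) (hβ : β i = 0) {h : MP p d → ℂ} (ho : OfP i h) :
    𝔼 x : (Fin d → (ZMod p)ˣ) × (Fin d → (ZMod p)ˣ), h (lkq χ₀ l x.1 x.2) *
      ZMod.stdAddChar (∑ j, (α j * lkq χ₀ l x.1 x.2 i j + β j * lkq χ₀ l x.1 x.2 j i)) =
    𝔼 x : (Fin d → (ZMod p)ˣ) × (Fin d → (ZMod p)ˣ), h (lkq χ₀ l x.1 x.2) *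
      (fP (∑ k, α k * (x.2 k : ZMod p) * lq χ₀ (l i) (l k)) * fP (∑ k, β k * (x.1 k : ZMod p) * lq χ₀ (l k) (l i))) := by
  rw [avg_NjOsc i]
  refine expect_congr rfl fun x _ => ?_
  unfold fP
  rw [expect_mul_expect, ← expect_product', univ_product_univ, mul_expect]
  refine expect_congr rfl fun s _ => ?_
  rw [← AddChar.map_add_eq_mul, mul_sum, mul_sum, ← sum_add_distrib]
  refine congrArg₂ _ (ho _ _ fun j k hj hk => ?_) (congrArg _ (sum_congr rfl fun k _ => ?_))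
  · simp only [lkq, Function.update_of_ne hj, Function.update_of_ne hk]
  · by_cases hk : k = i
    · rw [hk, hα, hβ]
      simp
    · simp only [lkq, Function.update_of_ne hk, Function.update_self]
      ring

end

end Pool.Agent.MP_f68ac8_nt.Nd

end

section

namespace Pool.Agent.MP_f68ac8_nt.Nd
open Ev Pv Sv Zv Zk NumberField Finset Filter
open scoped Topology BigOperators commutatorElement

section
variable {p : ℕ} [hp : Fact p.Prime]

theorem kap_NjKum {l : ℕ} (h : Zk.P1 p l) {P : Ideal OQ} (hP : P.IsMaximal) (hl : (l : OQ) ∈ P)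
    {σ : GQ} (hσ : IsFrob l P σ) :
    ∃ κ : ZMod p, κ ≠ 0 ∧ ∀ m : ℕ, m.Prime → m ≠ l → lk p m l = κ * KK p m σ := by
  by_cases h0 : ∃ m₀ : ℕ, m₀.Prime ∧ m₀ ≠ l ∧ KK p m₀ σ ≠ 0
  · obtain ⟨m₀, a1, a2, a3⟩ := h0
    obtain ⟨κ, hκ, h1⟩ := pair_ZmCh h hP hl hσ (fun _ : Fin 1 => m₀) (fun _ => a1) fun _ => a2
    refine ⟨κ, hκ, fun m b1 b2 => ?_⟩
    obtain ⟨κ', -, h2⟩ := pair_ZmCh h hP hl hσ ![m₀, m] (Fin.forall_fin_two.2 ⟨a1, b1⟩)
      (Fin.forall_fin_two.2 ⟨a2, b2⟩)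
    have e : κ = κ' := mul_right_cancel₀ a3 ((h1 0).symm.trans (h2 0))
    rw [e]
    exact h2 1
  · refine ⟨1, one_ne_zero, fun m b1 b2 => ?_⟩
    obtain ⟨κ, -, h1⟩ := pair_ZmCh h hP hl hσ (fun _ : Fin 1 => m) (fun _ => b1) fun _ => b2
    have e : KK p m σ = 0 := by
      by_contra e
      exact h0 ⟨m, b1, b2, e⟩
    rw [h1 0, e, mul_zero, mul_zero]

theorem conj_NjKum {m : ℕ} (hm : m.Prime) (t : GQ) {g : GQ} (hg : g ∈ Gz p) :
    KK p m (t * g * t⁻¹) = cyc (Ω := Qa) p t * KK p m g := by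
  obtain ⟨-, -, -, -, k5, -⟩ := kk_stmt p
  have h := k5 m t g (Nat.cast_ne_zero.2 hm.ne_zero) (by rw [map_natCast, map_natCast]) hg
  rwa [map_natCast] at h

theorem first_NjKum (l : ℕ) (h : Zk.P1 p l) :
    ∃ σ, Fr l σ ∧ ∀ m : ℕ, m.Prime → m ≠ l → lk p m l = KK p m σ := by
  obtain ⟨P, hP, hl⟩ := exists_maximal_mem (Ω := Qb) h.1
  obtain ⟨σ, hσ⟩ := exists_frob P h.1 hl
  obtain ⟨κ, h0, hκ⟩ := kap_NjKum h hP hl hσ
  have hz : σ ∈ Gz p := by
    have h1 := cyc_frob (nm_ZmCh h.1 hp.out (ne_ZmCh h).symm hP hl) hσ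
    rw [(ZMod.natCast_eq_natCast_iff l 1 p).2 h.2, Nat.cast_one] at h1
    exact Units.ext h1
  obtain ⟨t, ht⟩ := cyc_surj (Ω := Qa) p (Units.mk0 κ h0)
  refine ⟨t * σ * t⁻¹, ?_, fun m hm hml => ?_⟩
  · have h1 := hσ.conj hl t⁻¹
    rwa [inv_inv] at h1
  · rw [conj_NjKum hm t hz, ht, hκ m hm hml, Units.val_mk0]

theorem unr_NjKum {m : ℕ} (hm : m.Prime) {P : Ideal OQ} (hP : P.IsMaximal) (h1 : (p : OQ) ∉ P)
    (h2 : (m : OQ) ∉ P) {g : GQ} (hg : g ∈ P.inertia GQ) : KK p m g = 0 := by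
  obtain ⟨-, -, -, -, -, k6, -⟩ := kk_stmt p
  have hm0 : (m : Qb) ≠ 0 := Nat.cast_ne_zero.2 hm.ne_zero
  have hy := proot_pow p (m : Qb)
  have hy0 : proot p (m : Qb) ≠ 0 := fun e => by
    rw [e, zero_pow hp.out.ne_zero] at hy
    exact hm0 hy.symm
  have hs := kap_spec (p := p) hy0 (g := g) (by rw [hy, map_natCast])
  set ζ := (zeta Qb (p ^ 2) ^ p) ^ (Pool.Agent.MP_f68ac8_nt.kap p (proot p (m : Qb)) g).val
    with hζ
  have hζ1 : ζ ^ p = 1 := by rw [hζ, pow_right_comm, xi_spec.pow_eq_one, one_pow]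
  have hint : IsIntegral ℤ (proot p (m : Qb)) :=
    IsIntegral.of_pow hp.out.pos (by rw [hy]; exact isIntegral_natCast m)
  let Y : OQ := ⟨_, hint⟩
  let Z : OQ := ⟨ζ, isIntegral_of_pow_eq_one hζ1⟩
  have hY : Y ^ p = m := RingOfIntegers.ext (by simpa [Y] using hy)
  have hZ : Z ^ p = 1 := RingOfIntegers.ext (by simpa [Z] using hζ1)
  have e : g • Y = Z * Y := RingOfIntegers.ext hs
  have h3 : (Z - 1) * Y ∈ P := by
    have := hg Y
    rw [e] at this
    rwa [sub_mul, one_mul]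
  have h4 : Z - 1 ∈ P := (hP.isPrime.mem_or_mem h3).resolve_right fun h =>
    h2 (hY ▸ P.pow_mem_of_mem h p hp.out.pos)
  have h5 : ζ = 1 := congrArg (fun x : OQ => (x : Qb))
    (root_eq_of_sub_mem h1 hZ (one_pow p) h4)
  refine (k6 m g hm0 (map_natCast g m)).2 ?_
  rw [hs, h5, one_mul]

theorem cm_NjKum {G : Type} [Group G] {κ : G →* (ZMod p)ˣ} {Ψ : G → ZMod p}
    (ha : ∀ g ∈ κ.ker, ∀ h ∈ κ.ker, Ψ (g * h) = Ψ g + Ψ h) {g h : G} (hg : g ∈ κ.ker)
    (hh : h ∈ κ.ker) : Ψ ⁅g, h⁆ = 0 := by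
  have a := κ.ker.mul_mem hg hh
  rw [commutatorElement_def, ha _ (κ.ker.mul_mem a (κ.ker.inv_mem hg)) _ (κ.ker.inv_mem hh),
    ha _ a _ (κ.ker.inv_mem hg), ha _ hg _ hh, inv_NhOff ha hg, inv_NhOff ha hh]
  ring

theorem idx_NjKum {G : Type} [Group G] {κ : G →* (ZMod p)ˣ} {A B : G → ZMod p}
    (ha : ∀ g ∈ κ.ker, ∀ h ∈ κ.ker, A (g * h) = A g + A h)
    (hb : ∀ g ∈ κ.ker, ∀ h ∈ κ.ker, B (g * h) = B g + B h) :
    ∃ N : Subgroup G, (∀ g, g ∈ N ↔ g ∈ κ.ker ∧ A g = 0 ∧ B g = 0) ∧ N.index ≠ 0 ∧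
      N.index ≤ p ^ 3 := by
  let f : κ.ker →* Multiplicative (ZMod p × ZMod p) := MonoidHom.mk'
    (fun g => Multiplicative.ofAdd (A g, B g)) fun g h => by
      rw [← ofAdd_add, Prod.mk_add_mk, Subgroup.coe_mul, ha _ g.2 _ h.2, hb _ g.2 _ h.2]
  have hf : ∀ g : κ.ker, g ∈ f.ker ↔ A g = 0 ∧ B g = 0 := fun g => by
    rw [MonoidHom.mem_ker]
    exact ofAdd_eq_one.trans Prod.mk_eq_zero
  refine ⟨f.ker.map κ.ker.subtype, fun g => ⟨?_, fun h => ⟨⟨g, h.1⟩, (hf _).2 h.2, rfl⟩⟩, ?_⟩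
  · rintro ⟨x, hx, rfl⟩
    exact ⟨x.2, (hf x).1 hx⟩
  · have h1 := Subgroup.relIndex_mul_index (Subgroup.map_subtype_le f.ker)
    have h2 : (f.ker.map κ.ker.subtype).relIndex κ.ker = Nat.card f.range := by
      rw [Subgroup.relIndex, Subgroup.subgroupOf,
        Subgroup.comap_map_eq_self_of_injective κ.ker.subtype_injective, Subgroup.index_ker]
    have h3 : Nat.card f.range ≤ p * p := by
      refine (Subgroup.card_le_card_group _).trans_eq ?_
      rw [Nat.card_congr Multiplicative.toAdd, Nat.card_prod, Nat.card_zmod]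
    have h4 : Nat.card κ.range ≤ p := by
      refine (Subgroup.card_le_card_group _).trans ?_
      exact (Nat.card_le_card_of_injective _ Units.val_injective).trans_eq (Nat.card_zmod p)
    rw [← h1, h2, Subgroup.index_ker]
    refine ⟨mul_ne_zero Nat.card_pos.ne' Nat.card_pos.ne', ?_⟩
    exact (Nat.mul_le_mul h3 h4).trans_eq (by ring)

theorem ind_NjKum {R : Finset ℕ} (hR : ∀ m ∈ R, m.Prime) {y : ℕ → ZMod p}
    (h : ∀ g ∈ Gz p, Bq R y g = 0) {m : ℕ} (hm : m ∈ R) : y m = 0 := by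
  have h1 := kummer_indep (p := p) (Ω := Qb) (q := fun j => (R.equivFin.symm j : ℕ))
    (hq := fun j => ⟨hR _ (R.equivFin.symm j).2⟩)
    (α := fun j => proot p ((R.equivFin.symm j : ℕ) : Qb)) (fun j => proot_pow p _)
    (Subtype.val_injective.comp R.equivFin.symm.injective) (fun j => y (R.equivFin.symm j))
    (fun g hg => by
      rw [← h g hg, Bq, ← Finset.sum_coe_sort R]
      exact R.equivFin.symm.sum_comp fun m : R => y m * KK p (m : ℕ) g) (R.equivFin ⟨m, hm⟩)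
  simpa using h1

end

theorem kumJ (p : ℕ) [Fact p.Prime] (hp : 2 < p) (hL : LocJ p) : KumJ p := by
  refine ⟨first_NjKum, fun χ₀ hχ R x y hR => ?_⟩
  obtain ⟨-, -, -, k4, -, -, k7, -⟩ := kk_stmt p
  obtain ⟨l1, -, -, l4⟩ := hL χ₀ hχ
  have hne : ∀ m ∈ R, (m : Qb) ≠ 0 := fun m hm => Nat.cast_ne_zero.2 (hR m hm).1.ne_zero
  have hA : ∀ g h, Aq χ₀ R x (g * h) = Aq χ₀ R x g + Aq χ₀ R x h := fun g h => by
    simp only [Aq, map_mul, toAdd_mul, mul_add, Finset.sum_add_distrib]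
  have hB : ∀ g ∈ Gz p, ∀ h, Bq R y (g * h) = Bq R y g + Bq R y h := fun g hg h => by
    rw [Bq, Bq, Bq, ← Finset.sum_add_distrib]
    refine Finset.sum_congr rfl fun m hm => ?_
    rw [k4 m g h (hne m hm) (map_natCast g m) (map_natCast h m) hg, mul_add]
  have hC : ∀ t, ∀ g ∈ Gz p, Bq R y (t * g * t⁻¹) = cyc (Ω := Qa) p t * Bq R y g :=
    fun t g hg => by
      rw [Bq, Bq, Finset.mul_sum]
      refine Finset.sum_congr rfl fun m hm => ?_
      rw [conj_NjKum (hR m hm).1 t hg, mul_left_comm]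
  have hAc : ∀ t g, Aq χ₀ R x (t * g * t⁻¹) = Aq χ₀ R x g := fun t g => by
    have h1 := hA (t * g * t⁻¹) t
    rw [inv_mul_cancel_right, hA, add_comm] at h1
    exact (add_right_cancel h1).symm
  have ha : ∀ g ∈ (cyc (Ω := Qa) p).ker, ∀ h ∈ (cyc (Ω := Qa) p).ker,
      Aq χ₀ R x (g * h) = Aq χ₀ R x g + Aq χ₀ R x h := fun g _ h _ => hA g h
  have hb : ∀ g ∈ (cyc (Ω := Qa) p).ker, ∀ h ∈ (cyc (Ω := Qa) p).ker,
      Bq R y (g * h) = Bq R y g + Bq R y h := fun g hg h _ => hB g hg h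
  have hcj : ∀ t, ∀ g ∈ Gz p, t * g * t⁻¹ ∈ Gz p := fun t g hg =>
    (MonoidHom.normal_ker _).conj_mem g hg t
  refine ⟨hA, hB, hC, ?_, ?_⟩
  · obtain ⟨N, hN, hi⟩ := idx_NjKum ha hb
    refine ⟨N, ⟨⟨fun l hl => ?_, ⟨fun g hg t => ?_⟩, ?_, hi, fun P hP h1 g hg => ?_⟩,
      fun g hg => ((hN g).1 hg).1, fun g hg => ?_, fun g hg h hh => ?_⟩, hN⟩
    · rcases Finset.mem_insert.1 hl with rfl | h
      · exact Fact.out
      · exact (hR l h).1
    · obtain ⟨a, b, c⟩ := (hN g).1 hg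
      exact (hN _).2 ⟨hcj t g a, by rw [hAc, b], by rw [hC t g a, c, mul_zero]⟩
    · filter_upwards [cyc_nhds (Ω := Qa) p,
        (eventually_all_finset R).2 fun m hm => (l1 m (hR m hm)).1,
        (eventually_all_finset R).2 fun m hm => k7 m (hne m hm)] with g a b c
      refine (hN g).2 ⟨a, Finset.sum_eq_zero fun m hm => ?_, Finset.sum_eq_zero fun m hm => ?_⟩
      · have e : cq χ₀ m g = 1 := b m hm
        rw [e, toAdd_one, mul_zero]
      · rw [c m hm, mul_zero]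
    · have h2 := h1 p (Finset.mem_insert_self p R)
      refine (hN g).2 ⟨cyc_inertia h2 hg, Finset.sum_eq_zero fun m hm => ?_,
        Finset.sum_eq_zero fun m hm => ?_⟩
      · rw [(l1 m (hR m hm)).2 P hP (h1 m (Finset.mem_insert_of_mem hm)) g hg, toAdd_one,
          mul_zero]
      · rw [unr_NjKum (hR m hm).1 hP h2 (h1 m (Finset.mem_insert_of_mem hm)) hg, mul_zero]
    · exact (hN _).2 ⟨(Gz p).pow_mem hg p,
        by rw [pow_NhOff ha hg, ZMod.natCast_self, zero_mul],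
        by rw [pow_NhOff hb hg, ZMod.natCast_self, zero_mul]⟩
    · refine (hN _).2 ⟨?_, cm_NjKum ha hg hh, cm_NjKum hb hg hh⟩
      rw [commutatorElement_def]
      exact (Gz p).mul_mem (hcj g h hh) ((Gz p).inv_mem hh)
  · rintro ⟨m, hm, hxy⟩
    by_cases h0 : ∀ g ∈ Gz p, Bq R y g = 0
    · have hx : x m ≠ 0 := hxy.resolve_right fun h => h (ind_NjKum (fun l hl => (hR l hl).1) h0 hm)
      obtain ⟨σ, τ, ⟨P, hP, hmP, -, hτ⟩, hr⟩ := l4 m (hR m hm)
      have hz : τ ^ (p - 1) ∈ Gz p := by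
        show cyc (Ω := Qa) p (τ ^ (p - 1)) = 1
        rw [map_pow, ZMod.units_pow_card_sub_one_eq_one]
      refine ⟨_, hz, Or.inl ⟨?_, h0 _ hz⟩⟩
      rw [Aq, Finset.sum_eq_single_of_mem m hm fun l hl hlm => by
        rw [map_pow, (l1 l (hR l hl)).2 P hP (nm_ZmCh (hR m hm).1 (hR l hl).1 hlm hP hmP) τ hτ,
          one_pow, toAdd_one, mul_zero], map_pow, toAdd_pow, nsmul_eq_mul,
        Nat.cast_sub (by omega), ZMod.natCast_self, Nat.cast_one, zero_sub]
      exact mul_ne_zero hx (mul_ne_zero (neg_ne_zero.2 one_ne_zero)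
        fun e => hr (toAdd_eq_zero.1 e))
    · push Not at h0
      obtain ⟨g, hg, hg0⟩ := h0
      obtain ⟨t, ht⟩ := cyc_surj (Ω := Qa) p (-1)
      have : Fact (2 < p) := ⟨hp⟩
      refine ⟨t * g * t⁻¹ * g⁻¹, (Gz p).mul_mem (hcj t g hg) ((Gz p).inv_mem hg), Or.inr ⟨?_, ?_⟩⟩
      · rw [hA, hAc, inv_NhOff ha hg, add_neg_cancel]
      · rw [hB _ (hcj t g hg), hC t g hg, inv_NhOff hb hg, ht, ← sub_eq_add_neg, ← sub_one_mul]
        refine mul_ne_zero (sub_ne_zero.2 ?_) hg0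
        rw [Units.val_neg, Units.val_one]
        exact ZMod.neg_one_ne_one

end Pool.Agent.MP_f68ac8_nt.Nd

end

section

namespace Pool.Agent.MP_f68ac8_nt.Nd
open Ev Pv Sv Zv Zk NumberField Finset Filter
open scoped Topology BigOperators commutatorElement

theorem wmJ (p : ℕ) [Fact p.Prime] : WmJ p := by
  intro Q c n r D η h
  refine ⟨(h.nn 1 0).trans (h.wle 1 0 (by decide)), fun l hl => ?_, fun d μ => ?_⟩
  · have h1 : Q.Y < l := (Finset.mem_filter.1 hl).2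
    have h2 : l ∉ Q.ti := fun h' => by
      have h3 : (l : ℝ) ≤ Q.Z := (Finset.mem_filter.1 h').2
      linarith [h.le]
    obtain ⟨h3, h4⟩ := h.pri l (Finset.mem_filter.1 hl).1
    exact ⟨⟨h3, h4.resolve_right fun e => h2 (e ▸ h.mem)⟩, h2⟩
  have hpos : ∀ m, 0 < ms Q.Λ Q.W m := fun m => by
    by_cases hm : m = 0
    · rw [hm]; exact h.pos
    · exact lt_of_lt_of_le one_pos (h.one m hm)
  refine ⟨⟨fun j u => div_nonneg (h.nn _ _) (hpos _).le, fun j => ?_⟩, ?_, fun j u hj => ?_,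
    fun j u hu => ?_, fun χ₀ c' y => ⟨fun f => ?_, fun f => ?_⟩⟩
  · unfold wm
    rw [← Finset.sum_div, Finset.sum_coe_sort Q.Λ (fun l => Q.W (μ j) l)]
    exact div_self (hpos _).ne'
  · rw [Finset.disjoint_left]
    intro j h1 h3
    have e1 := (Finset.mem_filter.1 h1).2
    have e3 := (Finset.mem_filter.1 h3).2
    rw [e1] at e3
    exact absurd e3 (by decide)
  · have h1 : wm Q.Λ Q.W μ j u ≤ Q.W (μ j) u := div_le_self (h.nn _ _) (h.one _ hj)
    exact ⟨h1, h1.trans (h.wle _ _ hj)⟩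
  · have h1 : Q.W (μ j) u ≠ 0 := fun e => hu (by unfold wm; rw [e, zero_div])
    refine ⟨fun e => ?_, fun e => ?_, fun e e' => ?_⟩
    · rw [e] at h1
      by_contra hn
      exact h1 (if_neg hn)
    · rw [e] at h1
      by_contra hn
      exact h1 (if_neg hn)
    · exact h1 (ti_NePar Q h.le e (e' ▸ h.mem))
  · unfold nuP
    simp only [Finset.expect_mul]
    rw [← Finset.expect_sum_comm]
    refine Finset.expect_congr rfl fun x _ => ?_
    unfold Ex
    simp only [Finset.sum_mul]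
    rw [Finset.sum_comm]
    refine Finset.sum_congr rfl fun q _ => ?_
    simp only [smul_eq_mul, mul_assoc]
    rw [← Finset.mul_sum]
    refine congrArg _ ?_
    by_cases hq : Function.Injective q
    · rw [if_pos hq, Finset.sum_eq_single (lkq χ₀ (vl q) x.1 x.2)]
      · rw [if_pos ⟨hq, rfl⟩]
      · intro r' _ hr
        rw [if_neg fun e => hr e.2.symm, zero_mul]
      · intro hn
        exact absurd (Finset.mem_univ _) hn
    · rw [if_neg hq]
      refine Finset.sum_eq_zero fun r' _ => ?_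
      rw [if_neg fun e => hq e.1, zero_mul]
  · unfold nuP
    simp only [Complex.ofReal_expect, Finset.expect_mul]
    rw [← Finset.expect_sum_comm]
    unfold Ex
    simp only [Finset.mul_expect, Finset.smul_expect]
    rw [← Finset.expect_sum_comm]
    refine Finset.expect_congr rfl fun x _ => ?_
    simp only [Complex.ofReal_sum, Finset.sum_mul]
    rw [Finset.sum_comm]
    refine Finset.sum_congr rfl fun q _ => ?_
    simp only [smul_eq_mul, Complex.real_smul, Complex.ofReal_mul, mul_assoc]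
    rw [← Finset.mul_sum]
    refine congrArg _ ?_
    by_cases hq : Function.Injective q
    · rw [if_pos hq, Finset.sum_eq_single (lkq χ₀ (vl q) x.1 x.2)]
      · rw [if_pos ⟨hq, rfl⟩]
      · intro r' _ hr
        rw [if_neg fun e => hr e.2.symm, Complex.ofReal_zero, zero_mul]
      · intro hn
        exact absurd (Finset.mem_univ _) hn
    · rw [if_neg hq, mul_zero]
      refine Finset.sum_eq_zero fun r' _ => ?_
      rw [if_neg fun e => hq e.1, Complex.ofReal_zero, zero_mul]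

section
variable {p : ℕ} [Fact p.Prime]

theorem unit_NjWm (u : (ZMod p)ˣ) (x : ZMod p) : fP ((u : ZMod p) * x) = fP x := by
  unfold fP
  refine Fintype.expect_equiv (Equiv.mulRight u) _ _ fun v => ?_
  rw [Equiv.coe_mulRight, Units.val_mul, mul_assoc]

theorem nat_NjWm {a : ℕ} (ha : a.Coprime p) (x : ZMod p) : fP ((a : ZMod p) * x) = fP x := by
  rw [← unit_NjWm (ZMod.unitOfCoprime a ha) x, ZMod.coe_unitOfCoprime]

theorem norm_NjWm (x : ZMod p) : ‖fP x‖ ≤ 1 := by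
  unfold fP
  refine (RCLike.norm_expect_le (K := ℂ)).trans ?_
  refine Finset.expect_le Finset.univ_nonempty fun u _ => ?_
  rw [ZMod.stdAddChar_apply, Circle.norm_coe]

theorem range_NjWm (F : ZMod p → ℂ) : ∑ i ∈ range p, F (i : ZMod p) = ∑ i : ZMod p, F i := by
  refine Finset.sum_bij' (fun i _ => (i : ZMod p)) (fun i _ => i.val) (fun _ _ => Finset.mem_univ _)
    (fun i _ => Finset.mem_range.2 (ZMod.val_lt i)) (fun i hi => ?_) (fun i _ => ?_)
    fun _ _ => rfl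
  · exact ZMod.val_cast_of_lt (Finset.mem_range.1 hi)
  · exact ZMod.natCast_zmod_val i

theorem zero_NjWm {w : ZMod p} (hw : w ≠ 0) (x : ZMod p) :
    ∑ i ∈ range p, fP ((i : ZMod p) * w + x) = 0 := by
  rw [range_NjWm fun i => fP (i * w + x)]
  unfold fP
  rw [← Finset.expect_sum_comm]
  refine Finset.expect_eq_zero fun u _ => ?_
  have e : ∀ i : ZMod p, ZMod.stdAddChar ((u : ZMod p) * (i * w + x)) =
      ZMod.stdAddChar (i * ((u : ZMod p) * w)) * ZMod.stdAddChar ((u : ZMod p) * x) := fun i => by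
    rw [← AddChar.map_add_eq_mul]
    refine congrArg _ ?_
    ring
  simp only [e]
  rw [← Finset.sum_mul, AddChar.sum_mulShift _ (ZMod.isPrimitive_stdAddChar p),
    if_neg (mul_ne_zero u.ne_zero hw), Nat.cast_zero, zero_mul]

theorem pow_NjWm {F : GQ → ZMod p} {z : GQ} (h : ∀ g, F (z * g) = F z + F g) (i : ℕ) (g : GQ) :
    F (z ^ i * g) = (i : ZMod p) * F z + F g := by
  induction i with
  | zero => rw [pow_zero, one_mul, Nat.cast_zero, zero_mul, zero_add]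
  | succ i ih =>
    rw [pow_succ', mul_assoc, h, ih, Nat.cast_succ]
    ring

theorem one_NjWm {F : GQ → ZMod p} (h : F (1 * 1) = F 1 + F 1) : F 1 = 0 := by
  rw [mul_one] at h
  exact left_eq_add.1 h

open Classical in
/-- the test function -/
noncomputable def phi_NjWm (A B : GQ → ZMod p) (g : GQ) : ℂ :=
  if g ∈ Gz p then fP (A g) * fP (B g) else 0

theorem tf_NjWm {A B : GQ → ZMod p} {N : Subgroup GQ} (hA : ∀ g h, A (g * h) = A g + A h)
    (hB : ∀ g ∈ Gz p, ∀ h, B (g * h) = B g + B h)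
    (hC : ∀ t, ∀ g ∈ Gz p, B (t * g * t⁻¹) = cyc (Ω := Qa) p t * B g)
    (hN : ∀ g, g ∈ N ↔ g ∈ Gz p ∧ A g = 0 ∧ B g = 0) (hp : ∀ g ∈ Gz p, g ^ p ∈ N)
    (hq : ∀ g : GQ, g ^ (p - 1) ∈ Gz p) {z : GQ} (hz : z ∈ Gz p)
    (hz' : (A z ≠ 0 ∧ B z = 0) ∨ (A z = 0 ∧ B z ≠ 0)) :
    Tf0 N (p * (p - 1)) (phi_NjWm A B) := by
  have hp1 := (Fact.out : p.Prime).one_lt
  have hn : (Gz p).Normal := MonoidHom.normal_ker _
  refine ⟨Nat.mul_pos (by omega) (by omega), fun g => ?_, fun g => ?_, fun n hn g => ?_,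
    fun s g => ?_, z, p, by omega, fun g => ?_⟩
  · rw [mul_comm, pow_mul]
    exact hp _ (hq g)
  · unfold phi_NjWm
    split_ifs
    · rw [norm_mul]
      exact mul_le_one₀ (norm_NjWm _) (norm_nonneg _) (norm_NjWm _)
    · rw [norm_zero]
      exact zero_le_one
  · obtain ⟨h1, h2, h3⟩ := (hN n).1 hn
    unfold phi_NjWm
    by_cases hg : g ∈ Gz p
    · rw [if_pos hg, if_pos (mul_mem h1 hg), hA, hB n h1, h2, h3, zero_add, zero_add]
    · rw [if_neg hg, if_neg fun h => hg ((Subgroup.mul_mem_cancel_left _ h1).1 h)]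
  · unfold phi_NjWm
    by_cases hg : g ∈ Gz p
    · have h1 : A (s * g * s⁻¹) = A g := by
        have h2 := hA s s⁻¹
        rw [mul_inv_cancel, one_NjWm (hA 1 1)] at h2
        rw [hA, hA, add_right_comm, ← h2, zero_add]
      rw [if_pos hg, if_pos (hn.conj_mem g hg s), h1, hC s g hg, unit_NjWm]
    · rw [if_neg hg, if_neg fun h => hg ?_]
      have h1 := hn.conj_mem _ h s⁻¹
      rwa [inv_inv, ← mul_assoc, ← mul_assoc, inv_mul_cancel, one_mul, inv_mul_cancel_right] at h1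
  · by_cases hg : g ∈ Gz p
    · have e : ∀ i : ℕ, phi_NjWm A B (z ^ i * g) =
          fP ((i : ZMod p) * A z + A g) * fP ((i : ZMod p) * B z + B g) := fun i => by
        unfold phi_NjWm
        rw [if_pos (mul_mem (pow_mem hz i) hg), pow_NjWm (hA z), pow_NjWm (hB z hz)]
      simp only [e]
      rcases hz' with ⟨h1, h2⟩ | ⟨h1, h2⟩
      · simp only [h2, mul_zero, zero_add]
        rw [← Finset.sum_mul, zero_NjWm h1, zero_mul]
      · simp only [h1, mul_zero, zero_add]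
        rw [← Finset.mul_sum, zero_NjWm h2, mul_zero]
    · refine Finset.sum_eq_zero fun i _ => ?_
      unfold phi_NjWm
      rw [if_neg fun h => hg ((Subgroup.mul_mem_cancel_left _ (pow_mem hz i)).1 h)]

theorem avg_NjWm {A B : GQ → ZMod p} (hA : ∀ g h, A (g * h) = A g + A h)
    (hB : ∀ g ∈ Gz p, ∀ h, B (g * h) = B g + B h) {σ : GQ} (hσ : σ ∈ Gz p) :
    𝔼 a : Exm (p * (p - 1)), phi_NjWm A B (σ ^ (a.1 : ℕ)) = fP (A σ) * fP (B σ) := by
  have hp2 := (Fact.out : p.Prime).two_le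
  have h1 : 1 < p * (p - 1) := lt_of_lt_of_le hp2 (Nat.le_mul_of_pos_right p (by omega))
  have e : ∀ a : Exm (p * (p - 1)), phi_NjWm A B (σ ^ (a.1 : ℕ)) = fP (A σ) * fP (B σ) := by
    intro a
    have ha : (a.1 : ℕ).Coprime p := Nat.Coprime.coprime_mul_right_right a.2
    have e1 := pow_NjWm (hA σ) a.1 1
    have e2 := pow_NjWm (hB σ hσ) a.1 1
    rw [mul_one, one_NjWm (hA 1 1), add_zero] at e1
    rw [mul_one, one_NjWm (hB 1 (one_mem _) 1), add_zero] at e2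
    unfold phi_NjWm
    rw [if_pos (pow_mem hσ _), e1, e2, nat_NjWm ha, nat_NjWm ha]
  simp only [e]
  exact Finset.expect_const ⟨⟨⟨1, h1⟩, Nat.coprime_one_left _⟩, Finset.mem_univ _⟩ _

end

theorem tinyJ (p : ℕ) [Fact p.Prime] (hL : LocJ p) (hK : KumJ p) (hZ : GzP p) (hW : WmJ p) :
    TinyJ p := by
  intro χ₀ hχ Q c n r D η hQ τ hτ R hR hD x y hxy
  obtain ⟨-, hlg, -⟩ := hW Q c n r D η hQ
  obtain ⟨-, hL2, hL3, -⟩ := hL χ₀ hχ
  have hRq : ∀ m ∈ R, Pq p m := fun m hm => hQ.pri m (Finset.mem_filter.1 (hR hm)).1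
  obtain ⟨hA, hB, hC, ⟨N, hN, hN'⟩, hz⟩ := hK.2 χ₀ hχ R x y hRq
  obtain ⟨z, hz, hz'⟩ := hz hxy
  have hex : ∀ l : ℕ, ∃ σ : GQ, Zk.P1 p l →
      Fr l σ ∧ ∀ m : ℕ, m.Prime → m ≠ l → lk p m l = KK p m σ := fun l => by
    by_cases hl : Zk.P1 p l
    · obtain ⟨σ, hσ⟩ := hK.1 l hl
      exact ⟨σ, fun _ => hσ⟩
    · exact ⟨1, fun h => absurd h hl⟩
  choose σ hσ using hex
  have key := hQ.eqt R hR hD N hN τ hτ σ (fun l hl => (hσ l (hlg l hl).1).1) (p * (p - 1))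
    (phi_NjWm (Aq χ₀ R x) (Bq R y))
    ⟨tf_NjWm hA hB hC hN' hN.pw hZ.2.1 hz hz', fun g hg => if_neg hg⟩
  refine le_of_eq_of_le (congrArg _ ?_) key
  rw [Par.lg, Finset.sum_filter]
  refine Finset.sum_congr rfl fun l hl => ?_
  have hW3 : Q.W 3 l = if l ∈ Q.lg then wl Q.s Q.h Q.k l else 0 := rfl
  by_cases h : Q.Y < l
  · have hl' : l ∈ Q.lg := Finset.mem_filter.2 ⟨hl, h⟩
    obtain ⟨h1, h2⟩ := hlg l hl'
    obtain ⟨h3, h4⟩ := hσ l h1
    have hlp : l ≠ p := fun e => h2 (e ▸ hQ.mem)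
    have hne : ∀ m ∈ R, l ≠ m := fun m hm e => h2 (e ▸ hR hm)
    have hG : σ l ∈ Gz p := (hZ.2.2.1 l (σ l) h1.1 hlp h3).2 h1.2
    have eA : Aq χ₀ R x (σ l) = ∑ m ∈ R, x m * lq χ₀ l m :=
      Finset.sum_congr rfl fun m hm => by rw [hL2 l m h1.1 (hRq m hm) (hne m hm) _ h3]
    have eB : Bq R y (σ l) = ∑ m ∈ R, y m * lq χ₀ m l :=
      Finset.sum_congr rfl fun m hm => by
        rw [hL3 m l hlp, h4 m (hRq m hm).1 (hne m hm).symm]
    rw [if_pos h, hW3, if_pos hl', avg_NjWm hA hB hG, eA, eB]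
  · have hl' : l ∉ Q.lg := fun h' => h (Finset.mem_filter.1 h').2
    rw [if_neg h, hW3, if_neg hl', Complex.ofReal_zero, zero_mul, zero_mul]

end Pool.Agent.MP_f68ac8_nt.Nd

end
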