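import Pool.Agent.Mg.Fe23604m.G9b4e87
import Pool.Agent.Mg.Fe23604m.G318bc4
import Pool.Agent.Mg.Fe23604m.Ga53936

set_option linter.all false

section

namespace Pool.Agent.MP_e23604_nt.TN

open NumberField Finset Filter
open MP_f68ac8_nt MP_f68ac8_nt.Nd
open T (P0 rh lm9)
open scoped Topology BigOperators

theorem bilB (hK : KumT) (hB : Bil1P 3) : BilB := by
  classical
  obtain ⟨r, C, e, hr, hr1, hC, h⟩ := hB 27
  have hK1 : ∀ l, ∃ σ, Zk.P1 3 l →
      Fr l σ ∧ ∀ m : ℕ, m.Prime → m ≠ l → Zk.lk 3 m l = Ev.KK 3 m σ := fun l => by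
    by_cases hl : Zk.P1 3 l
    · obtain ⟨σ, hσ⟩ := first_NjKum l hl
      exact ⟨σ, fun _ => hσ⟩
    · exact ⟨1, fun k => absurd k hl⟩
  choose σ hσ using hK1
  refine ⟨r, C, e, hr, hr1, hC, ?_⟩
  intro s L A B a b u hs1 hs2 hL hu hA hBB hd
  have hN : ∀ l : ℕ, ∃ N, l.Prime → Ad0 27 {3, l} N ∧ AdZ 3 N (Bq {l} fun _ => u) := fun l => by
    by_cases hl : l.Prime
    · obtain ⟨k1, -, ⟨N, k3, -, k4⟩, -⟩ := hK {l} (fun _ => u)
        fun n hn => by rw [mem_singleton.1 hn]; exact hl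
      exact ⟨N, fun _ => ⟨k3.toAd0, k3.le, fun g hg g' _ => k1 g hg g',
        fun g hg => ((k4 g).1 hg).2⟩⟩
    · exact ⟨⊤, fun k => absurd k hl⟩
  choose N hN using hN
  have h1 := h s L B A b a σ N (fun l => Bq {l} fun _ => u) hs1 hs2 hL
    (fun m hm => ⟨(hBB m hm).1.1, (hBB m hm).1.2, (hσ m (hBB m hm).1).1, (hBB m hm).2⟩)
    (fun l hl => ⟨(hA l hl).1, (hA l hl).2.1, (hA l hl).2.2.1, (hA l hl).2.2.2,
      hN l (hA l hl).1⟩) fun l hl l' hl' hne => by
      obtain ⟨-, -, -, k⟩ := hK {l, l'} (fun n => if n = l then u else -u) fun n hn => by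
        rcases mem_insert.1 hn with rfl | hn
        · exact (hA n hl).1
        · rw [mem_singleton.1 hn]
          exact (hA l' hl').1
      obtain ⟨z, hz, k1⟩ := k ⟨l, mem_insert_self _ _, by simpa using hu⟩
      refine ⟨z, hz, fun e1 => k1 ?_⟩
      simp only [Bq, sum_singleton, sum_pair hne, if_true, if_neg hne.symm] at e1 ⊢
      linear_combination e1
  rw [sum_comm]
  refine le_of_eq_of_le (congrArg norm (sum_congr rfl fun m hm => sum_congr rfl fun l hl => ?_)) h1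
  have hne : l ≠ m := fun k => disjoint_left.1 hd hl (k ▸ hm)
  rw [Bq, sum_singleton, (hσ m (hBB m hm).1).2 l (hA l hl).1 hne, mul_comm (a l)]

end Pool.Agent.MP_e23604_nt.TN

end

section

namespace Pool.Agent.MP_e23604_nt.TN

open NumberField Finset Filter
open MP_f68ac8_nt MP_f68ac8_nt.Nd
open T (P0 rh lm9)
open scoped Topology BigOperators

theorem xKm_zero : fP (0 : ZMod 3) = 1 := by
  unfold fP
  simp only [mul_zero, AddChar.map_zero_eq_one]
  exact Finset.expect_const Finset.univ_nonempty _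

theorem kmT (hK : KumT) (hZ : GzP 3) : KmT := by
  intro Λ R w x a τ η hR hΛ hxa H
  have h3 : 3 ∉ R := fun h => (hR 3 h).2 rfl
  have hy : ∀ m ∈ R, (if m = 3 then a else x m) = x m := fun m hm => if_neg (hR m hm).2
  obtain ⟨hB, hC, ⟨N, hN, hp, hN'⟩, hz⟩ := hK (insert 3 R) (fun m => if m = 3 then a else x m)
    fun m hm => (mem_insert.1 hm).elim (fun e => e ▸ Nat.prime_three) fun h => (hR m h).1
  obtain ⟨z, hz, hz'⟩ := hz (hxa.elim
    (fun ⟨k, hk, e⟩ => ⟨k, mem_insert_of_mem hk, by rwa [hy k hk]⟩)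
    fun e => ⟨3, mem_insert_self _ _, by rwa [if_pos rfl]⟩)
  rw [insert_idem] at hN
  have hex : ∀ l : ℕ, ∃ σ : GQ, Zk.P1 3 l →
      Fr l σ ∧ ∀ m : ℕ, m.Prime → m ≠ l → Zk.lk 3 m l = Ev.KK 3 m σ := fun l => by
    by_cases hl : Zk.P1 3 l
    · obtain ⟨σ, hσ⟩ := first_NjKum l hl
      exact ⟨σ, fun _ => hσ⟩
    · exact ⟨1, fun h => absurd h hl⟩
  choose σ hσ using hex
  generalize hBq : Bq (insert 3 R) (fun m => if m = 3 then a else x m) = B at hB hC hN' hz'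
  have hA : ∀ g h : GQ, (fun _ => (0 : ZMod 3)) (g * h) =
      (fun _ => (0 : ZMod 3)) g + (fun _ => (0 : ZMod 3)) h := fun _ _ => (add_zero _).symm
  have key := H N hN σ (fun l hl => (hσ l (hΛ l hl).1).1) (3 * (3 - 1))
    (phi_NjWm (fun _ => 0) B)
    ⟨tf_NjWm hA hB hC (fun g => (hN' g).trans (by simp)) hp hZ.2.1 hz (Or.inr ⟨rfl, hz'⟩),
      z, hz, 3, three_pos, fun g => ?_⟩
  · refine le_of_eq_of_le (congrArg _ (Finset.sum_congr rfl fun l hl => ?_)) key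
    obtain ⟨h1, h2⟩ := hΛ l hl
    obtain ⟨h4, h5⟩ := hσ l h1
    have hl3 : l ≠ 3 := Zk.ne_ZmCh h1
    have hm : l % 3 = 1 := h1.2
    have hG : σ l ∈ Gz 3 := (hZ.2.2.1 l (σ l) h1.1 hl3 h4).2 h1.2
    have eB : B (σ l) = ∑ k ∈ R, x k * rh k l + a * rh 3 l := by
      rw [← hBq, Bq, sum_insert h3, if_pos rfl, add_comm, rh, if_pos hm,
        h5 3 Nat.prime_three hl3.symm]
      refine congrArg (· + _) (Finset.sum_congr rfl fun m hm' => ?_)
      rw [hy m hm', rh, if_pos hm, h5 m (hR m hm').1 fun e => h2 (e ▸ hm')]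
    rw [avg_NjWm hA hB hG, eB, xKm_zero, one_mul]
  · by_cases hg : g ∈ Gz 3
    · have e : ∀ i : ℕ, phi_NjWm (fun _ => 0) B (z ^ i * g) = fP ((i : ZMod 3) * B z + B g) :=
        fun i => by
          unfold phi_NjWm
          rw [if_pos (mul_mem (pow_mem hz i) hg), pow_NjWm (hB z hz), xKm_zero, one_mul]
      simp only [e]
      exact zero_NjWm hz' _
    · refine Finset.sum_eq_zero fun i _ => ?_
      unfold phi_NjWm
      rw [if_neg fun h => hg ((Subgroup.mul_mem_cancel_left _ (pow_mem hz i)).1 h)]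

end Pool.Agent.MP_e23604_nt.TN

end

section

namespace Pool.Agent.MP_e23604_nt.TN
open NumberField Finset Filter
open MP_f68ac8_nt MP_f68ac8_nt.Nd
open T (P0 rh lm9)
open scoped Topology BigOperators

theorem xPt_expand {M : Type} [Fintype M] {Λ : Finset ℕ} {W : M → ℕ → ℝ} {s : ℝ}
    (hs : ∀ l ∈ Λ, ∑ m, W m l = (l : ℝ) ^ (-s)) {d : ℕ} (q : Fin d → Λ) :
    ∑ μ : Fin d → M, ∏ j, W (μ j) (q j) = (np q : ℝ) ^ (-s) := by
  classical
  rw [np, cast_prod_NePois, ← Fintype.piFinset_univ,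
    ← prod_univ_sum (fun _ : Fin d => (univ : Finset M)) (fun j m => W m (q j))]
  exact prod_congr rfl fun j _ => hs _ (q j).2

open Classical in
theorem xPt_kmu {M : Type} [Fintype M] {Λ : Finset ℕ} {W : M → ℕ → ℝ} {s : ℝ}
    (hs : ∀ l ∈ Λ, ∑ m, W m l = (l : ℝ) ^ (-s)) {d : ℕ} (q : Fin d → Λ) (j : Fin d) (m : M) :
    ∑ μ : Fin d → M, (if μ j ≠ m then ∏ i, W (μ i) (q i) else 0) =
      (((q j : ℕ) : ℝ) ^ (-s) - W m (q j)) * ∏ i ∈ univ.erase j, ((q i : ℕ) : ℝ) ^ (-s) := by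
  have e1 : ∀ μ : Fin d → M, (if μ j ≠ m then ∏ i, W (μ i) (q i) else 0) =
      ∏ i, (if i = j ∧ μ i = m then 0 else W (μ i) (q i)) := by
    intro μ
    by_cases h : μ j = m
    · rw [if_neg (not_not.mpr h)]
      symm
      refine prod_eq_zero (mem_univ j) ?_
      rw [if_pos ⟨rfl, h⟩]
    · rw [if_pos h]
      refine prod_congr rfl fun i _ => ?_
      rw [if_neg]
      rintro ⟨rfl, h'⟩
      exact h h'
  rw [sum_congr rfl fun μ _ => e1 μ, ← Fintype.piFinset_univ,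
    ← prod_univ_sum (fun _ : Fin d => (univ : Finset M))
    (fun i m' => if i = j ∧ m' = m then (0 : ℝ) else W m' (q i)), ← mul_prod_erase _ _ (mem_univ j)]
  congr 1
  · rw [← hs _ (q j).2, ← sum_erase_eq_sub (mem_univ m), ← add_sum_erase _ _ (mem_univ m),
      if_pos ⟨rfl, rfl⟩, zero_add]
    exact sum_congr rfl fun m' hm' => if_neg fun h' => (mem_erase.mp hm').1 h'.2
  · refine prod_congr rfl fun i hi => ?_
    rw [← hs _ (q i).2]
    refine sum_congr rfl fun m _ => ?_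
    rw [if_neg (fun h' => (mem_erase.mp hi).1 h'.1)]

open Classical in
theorem ptT (hT : TupN) : PtT := by
  intro M _ Λ W S s d T q hΛ hW hs hq hF
  rw [← kmu2_NePois hΛ (fun l => ∑ m with l ∈ S m, ((l : ℝ) ^ (-s) - W m l)) s q hq
    ((hT Λ hΛ).1 d q hq).2, ← xPt_expand hs q, sum_filter]
  have e : ∑ j, (∑ m with (q j : ℕ) ∈ S m, (((q j : ℕ) : ℝ) ^ (-s) - W m (q j))) *
      ∏ i ∈ univ.erase j, ((q i : ℕ) : ℝ) ^ (-s) = ∑ μ : Fin d → M, ∑ j,
        ∑ m with (q j : ℕ) ∈ S m, (if μ j ≠ m then ∏ i, W (μ i) (q i) else 0) := by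
    rw [sum_comm]
    refine sum_congr rfl fun j _ => ?_
    rw [sum_comm, sum_mul]
    exact sum_congr rfl fun m _ => (xPt_kmu hs q j m).symm
  rw [e, ← sum_add_distrib]
  refine sum_le_sum fun μ _ => ?_
  have hP : 0 ≤ ∏ j, W (μ j) (q j) := prod_nonneg fun j _ => hW _ _
  have h0 : ∀ (j : Fin d) (m : M), 0 ≤ (if μ j ≠ m then ∏ i, W (μ i) (q i) else 0) := fun j m => by
    split_ifs
    exacts [hP, le_rfl]
  have h1 : ∀ j : Fin d, 0 ≤ ∑ m with (q j : ℕ) ∈ S m,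
      (if μ j ≠ m then ∏ i, W (μ i) (q i) else 0) := fun j => sum_nonneg fun m _ => h0 j m
  have h2 := sum_nonneg fun j (_ : j ∈ univ) => h1 j
  by_cases hth : T μ
  · rw [if_pos hth]
    linarith
  · rw [if_neg hth, zero_add]
    by_cases hne : ∏ j, W (μ j) (q j) = 0
    · exact hne.le.trans h2
    · have hf : ∃ j m, (q j : ℕ) ∈ S m ∧ μ j ≠ m := by
        by_contra hc
        push Not at hc
        exact hth (hF μ fun j => ⟨prod_ne_zero_iff.1 hne j (mem_univ j), hc j⟩)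
      obtain ⟨j, m, h3, h4⟩ := hf
      refine le_trans ?_ (single_le_sum (fun j _ => h1 j) (mem_univ j))
      refine le_trans ?_ (single_le_sum (fun m _ => h0 j m) (mem_filter.2 ⟨mem_univ m, h3⟩))
      rw [if_pos h4]

end Pool.Agent.MP_e23604_nt.TN

end

section

namespace Pool.Agent.MP_e23604_nt.TN

open NumberField Finset Filter
open MP_f68ac8_nt MP_f68ac8_nt.Nd
open T (P0 rh lm9)
open scoped Topology BigOperators

theorem wlT : WlT := by
  intro s h h' k l h0 h1 hl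
  have hh : 0 ≤ h := h0.le.trans h1
  have e0 : (0 : ℝ) ≤ (l : ℝ) ^ (-s) := by positivity
  obtain ⟨a, b, c⟩ := x_NeMup hl hh
  obtain ⟨a', -, -⟩ := x_NeMup hl h0.le
  obtain ⟨-, w2, w3⟩ := wl_NeMup s hh k l
  refine ⟨(wl_NeMup s h0.le k l).1, ?_, w2, w3, ?_, ?_⟩
  · rw [wl, wl, if_pos hl, if_pos hl]
    refine mul_le_mul_of_nonneg_left (pow_le_pow_left₀ a' (sub_le_sub_left ?_ 1) _) e0
    exact Real.rpow_le_rpow_of_exponent_le (Nat.one_le_cast.2 hl.one_le) (neg_le_neg h1)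
  · rw [wl, if_pos hl]
    exact mul_le_mul_of_nonneg_left ((pow_le_of_le_one a b k.succ_ne_zero).trans c) e0
  · rw [wl, if_pos hl, ← mul_one_sub]
    refine mul_le_mul_of_nonneg_left ?_ e0
    rw [exp_NeMup hl h] at a ⊢
    have h2 := one_add_mul_le_pow (a := -Real.exp (-(h * Real.log l))) (by linarith) (k + 1)
    push_cast at h2
    rw [← sub_eq_add_neg] at h2
    linarith

end Pool.Agent.MP_e23604_nt.TN

end
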