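import Pool.Agent.Mg.Fe23604m.Gd29cd8
import Pool.Agent.Mg.Fe23604m.G0311cb
import Pool.Agent.Mg.Fe23604m.Ge4cc4e

set_option linter.all false

section

/-!
Cancellation in sums twisted by a symbol whose modulus depends on two variables.
-/

open Finset
open scoped Classical

noncomputable section

namespace Pool.Agent.MP_e23604_nt.U.CSJ

/-- The numerator: a linear form times a power of a second one. -/
def nu (α β α' β' : ℤ) (ε : ℕ) (y n : ℤ) : ℤ := (α * y - β * n) * (α' * y - β' * n) ^ ε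

theorem nu_per (α β α' β' : ℤ) (ε : ℕ) (y n : ℤ) {m : ℕ} {d e : ℤ} (hd : (m : ℤ) ∣ d)
    (he : (m : ℤ) ∣ e) :
    jacobiSym (nu α β α' β' ε (y + d) (n + e)) m = jacobiSym (nu α β α' β' ε y n) m := by
  have h1 : y + d ≡ y [ZMOD m] := (Int.modEq_iff_dvd.2 (by simpa using hd)).symm
  have h2 : n + e ≡ n [ZMOD m] := (Int.modEq_iff_dvd.2 (by simpa using he)).symm
  exact jacobiSym.mod_left' (((h1.mul_left α).sub (h2.mul_left β)).mul
    (((h1.mul_left α').sub (h2.mul_left β')).pow ε))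

theorem abs_jac (x : ℤ) (m : ℕ) : |(jacobiSym x m : ℝ)| ≤ 1 := by
  rcases jacobiSym.trichotomy x m with h | h | h <;> rw [h] <;> simp

theorem four_sum {Y N M p s m1 m2 m3 ε : ℕ} {α β α' β' γ δ γ' δ' : ℤ} (hp : p.Prime) (h2 : p ≠ 2)
    (hs : s ≠ 0) (hd : ¬ (p : ℤ) ∣ (s * m1 * m2 * m3 : ℕ) * (α * β' - β * α')) (b0 : s * p ≤ M)
    (b1 : m1 ≤ M) (b2 : m2 ≤ M) (b3 : m3 ≤ M) (b4 : |α'| ≤ M) (b5 : |β'| ≤ M) :
    |∑ y ∈ II Y, ∑ n ∈ II N, (jacobiSym (nu α β α' β' ε y n) (s * p) : ℝ) *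
      jacobiSym (nu α β α' β' ε y n) m1 * jacobiSym (nu γ δ γ' δ' ε y n) m2 *
      jacobiSym (nu γ δ γ' δ' ε y n) m3| ≤ 2 * (M : ℝ) ^ 5 * (Y + N) := by
  obtain ⟨D, hD⟩ : ∃ D : ℕ, D = s * m1 * m2 * m3 := ⟨_, rfl⟩
  rw [← hD] at hd
  have bD : ∀ t ∈ range p, ∀ x : ℤ, |x| ≤ M → |(t : ℤ) * D * x| ≤ (M ^ 5 : ℕ) := fun t ht x hx => by
    have h1 : t * D ≤ M ^ 4 := by
      calc t * D ≤ p * D := Nat.mul_le_mul_right _ (mem_range.1 ht).le
        _ = s * p * m1 * m2 * m3 := by rw [hD]; ring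
        _ ≤ M * M * M * M := by gcongr
        _ = M ^ 4 := by ring
    have h3 : (t : ℤ) * D ≤ (M : ℤ) ^ 4 := by exact_mod_cast h1
    rw [abs_mul, abs_of_nonneg (by positivity), Nat.cast_pow, pow_succ]
    exact mul_le_mul h3 hx (abs_nonneg _) (by positivity)
  have key := shift2 (range p) (fun y n => (jacobiSym (nu α β α' β' ε y n) (s * p) : ℝ) *
      jacobiSym (nu α β α' β' ε y n) m1 * jacobiSym (nu γ δ γ' δ' ε y n) m2 *
      jacobiSym (nu γ δ γ' δ' ε y n) m3) (fun y n => by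
        simp only [abs_mul]
        exact mul_le_one₀ (mul_le_one₀ (mul_le_one₀ (abs_jac _ _) (abs_nonneg _) (abs_jac _ _))
          (abs_nonneg _) (abs_jac _ _)) (abs_nonneg _) (abs_jac _ _))
    Y (N + 1) Y N (M ^ 5) (M ^ 5) (fun t => t * D * β') (fun t => t * D * α')
    (fun t ht => bD t ht _ b5) fun t ht => bD t ht _ b4
  have e1 : Ioc (Y : ℤ) (Y + Y) = II Y := by rw [II, two_mul]
  have e2 : Ico ((N : ℤ) + 1) (N + 1 + N) = II N := by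
    ext x
    simp only [II, mem_Ico, mem_Ioc]
    omega
  have dv : ∀ (m : ℕ) (t : ℕ) (x : ℤ), m ∣ D → (m : ℤ) ∣ t * D * x := fun m t x h =>
    ((Int.natCast_dvd_natCast.2 h).mul_left _).mul_right _
  rw [e1, e2, sum_eq_zero (s := II Y) (f := fun x => ∑ y ∈ II N, |∑ i ∈ range p, _|), zero_add,
    card_range] at key
  · have p0 : (0 : ℝ) < p := by exact_mod_cast hp.pos
    refine (le_of_mul_le_mul_left key p0).trans (le_of_eq ?_)
    push_cast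
    ring
  intro y _
  refine sum_eq_zero fun n _ => abs_eq_zero.2 ?_
  have d0 : s ∣ D := ⟨m1 * m2 * m3, by rw [hD]; ring⟩
  have d1 : m1 ∣ D := ⟨s * m2 * m3, by rw [hD]; ring⟩
  have d2 : m2 ∣ D := ⟨s * m1 * m3, by rw [hD]; ring⟩
  have d3 : m3 ∣ D := ⟨s * m1 * m2, by rw [hD]; ring⟩
  have e3 : ∀ t : ℕ, nu α β α' β' ε (y + t * D * β') (n + t * D * α') =
      (α * y - β * n + t * (D * (α * β' - β * α'))) * (α' * y - β' * n) ^ ε := fun t => by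
    rw [nu]
    congr 1
    · ring
    · congr 1
      ring
  simp only [jacobiSym.mul_right' _ hs hp.ne_zero, nu_per _ _ _ _ _ _ _ (dv _ _ _ d0) (dv _ _ _ d0),
    nu_per _ _ _ _ _ _ _ (dv _ _ _ d1) (dv _ _ _ d1), nu_per _ _ _ _ _ _ _ (dv _ _ _ d2) (dv _ _ _ d2),
    nu_per _ _ _ _ _ _ _ (dv _ _ _ d3) (dv _ _ _ d3)]
  simp only [e3, jacobiSym.mul_left, Int.cast_mul]
  rw [← sum_mul, ← sum_mul, ← sum_mul, ← mul_sum, ← sum_mul, leg_sum hp h2 _ hd]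
  simp

theorem bad_card (SA SB : Finset ℤ) (m : ℤ → ℤ → ℕ)
    (hm : ∀ a ∈ SA, ∀ b ∈ SB, ∀ b' ∈ SB, m a b = m a b' → b = b') (x y : ℝ) (hx : 0 ≤ x)
    (hy : 0 ≤ y) :
    ∑ a0 ∈ SA, ∑ a1 ∈ SA, ∑ b0 ∈ SB, ∑ b1 ∈ SB,
      (if a0 = a1 ∨ b0 = b1 ∨ m a1 b1 = m a0 b0 then x else y) ≤
      (SA.card * SB.card ^ 2 + 2 * SA.card ^ 2 * SB.card) * x +
        SA.card ^ 2 * SB.card ^ 2 * y := by
  have h1 : ∀ a0 ∈ SA, ∀ a1 ∈ SA, ∀ b0 ∈ SB,
      ∑ b1 ∈ SB, (if a0 = a1 ∨ b0 = b1 ∨ m a1 b1 = m a0 b0 then x else y) ≤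
        (if a0 = a1 then SB.card * x else 0) + (2 * x + SB.card * y) := fun a0 _ a1 h1 b0 _ => by
    have t : ∀ b1 ∈ SB, (if a0 = a1 ∨ b0 = b1 ∨ m a1 b1 = m a0 b0 then x else y) ≤
        (if a0 = a1 then x else 0) + ((if b0 = b1 then x else 0) +
          (if m a1 b1 = m a0 b0 then x else 0) + y) := fun b1 _ => by
      split_ifs <;> first | linarith | tauto
    refine (sum_le_sum t).trans ?_
    have u1 : ∑ b1 ∈ SB, (if b0 = b1 then x else 0) ≤ x := by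
      rw [sum_ite_eq]
      split_ifs <;> linarith
    have u2 : ∑ b1 ∈ SB, (if m a1 b1 = m a0 b0 then x else 0) ≤ x := by
      rw [← sum_filter, sum_const, nsmul_eq_mul]
      refine mul_le_of_le_one_left hx (Nat.cast_le_one.2 (card_le_one.2 fun b hb b' hb' => ?_))
      exact hm a1 h1 b (mem_filter.1 hb).1 b' (mem_filter.1 hb').1
        ((mem_filter.1 hb).2.trans (mem_filter.1 hb').2.symm)
    simp only [sum_add_distrib, sum_const, nsmul_eq_mul, mul_ite, mul_zero]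
    linarith
  refine (sum_le_sum fun a0 h0 => sum_le_sum fun a1 h2 => sum_le_sum fun b0 h3 =>
    h1 a0 h0 a1 h2 b0 h3).trans (le_of_eq ?_)
  simp only [sum_add_distrib, sum_const, nsmul_eq_mul, mul_ite, mul_zero, sum_ite_eq]
  rw [sum_congr rfl fun a ha => if_pos ha, sum_const, nsmul_eq_mul]
  ring

theorem spin0 {Y N A B M ε : ℕ} {ρ : ℝ} (G1 G2 : ℤ × ℤ → ℤ → ℝ) (H : ℤ → ℤ → ℝ) (m : ℤ → ℤ → ℕ)
    (α β α' β' : ℤ → ℤ) (h1 : ∀ o a, |G1 o a| ≤ 1) (h2 : ∀ o a, |G2 o a| ≤ 1)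
    (h3 : ∀ a b, |H a b| ≤ 1) (hρ : 0 < ρ) (hA : 4 * ρ ^ 4 ≤ A) (hB : 4 * ρ ^ 4 ≤ B)
    (hY : 8 * ρ ^ 4 * M ^ 5 * (Y + N) ≤ Y * N)
    (hm : ∀ a ∈ II A, ∀ b ∈ II B, ∀ b' ∈ II B, m a b = m a b' → b = b')
    (hM : ∀ a ∈ II A, |α' a| ≤ M ∧ |β' a| ≤ M ∧ ∀ b ∈ II B, m a b ≤ M)
    (hP : ∀ a0 ∈ II A, ∀ a1 ∈ II A, ∀ b0 ∈ II B, ∀ b1 ∈ II B, H a0 b0 ≠ 0 → H a0 b1 ≠ 0 →
      H a1 b0 ≠ 0 → H a1 b1 ≠ 0 → a0 ≠ a1 → b0 ≠ b1 → m a1 b1 ≠ m a0 b0 → ∃ p s : ℕ, p.Prime ∧ p ≠ 2 ∧ s ≠ 0 ∧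
        m a0 b0 = s * p ∧ ¬ (p : ℤ) ∣ (s * m a0 b1 * m a1 b0 * m a1 b1 : ℕ) *
          (α a0 * β' a0 - β a0 * α' a0)) :
    |∑ o ∈ II Y ×ˢ II N, ∑ a ∈ II A, ∑ b ∈ II B, G1 o a * G2 o b * H a b *
      (jacobiSym (nu (α a) (β a) (α' a) (β' a) ε o.1 o.2) (m a b) : ℝ)| ≤ Y * N * (A * B * ρ⁻¹) := by
  obtain ⟨Φ, hΦ⟩ : ∃ Φ : ℤ × ℤ → ℤ → ℤ → ℝ, ∀ o a b, Φ o a b = if H a b = 0 then 0 else
    (jacobiSym (nu (α a) (β a) (α' a) (β' a) ε o.1 o.2) (m a b) : ℝ) := ⟨_, fun _ _ _ => rfl⟩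
  have p1 : ∀ o a b, |Φ o a b| ≤ 1 := fun o a b => by
    rw [hΦ]
    split_ifs
    · simp
    · exact abs_jac _ _
  have key := LCS2_pf _ _ _ (II Y ×ˢ II N) (II A) (II B) (fun o a => (G1 o a : ℂ))
    (fun o b => (G2 o b : ℂ)) (fun a b => (H a b : ℂ)) (fun o a b => (Φ o a b : ℂ))
    (fun o a => by simpa using h1 o a) (fun o a => by simpa using h2 o a)
    (fun o a => by simpa using h3 o a)
  simp only [Complex.conj_ofReal, ← Complex.ofReal_mul, ← Complex.ofReal_sum, Complex.norm_real,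
    Real.norm_eq_abs, card_product, card_II, Nat.cast_mul] at key
  have e : ∀ o a b, G1 o a * G2 o b * H a b * Φ o a b = G1 o a * G2 o b * H a b *
      (jacobiSym (nu (α a) (β a) (α' a) (β' a) ε o.1 o.2) (m a b) : ℝ) := fun o a b => by
    rw [hΦ]
    split_ifs with h
    · rw [h, mul_zero, mul_zero, zero_mul]
    · rfl
  simp only [e] at key
  have q : ∀ a0 ∈ II A, ∀ a1 ∈ II A, ∀ b0 ∈ II B, ∀ b1 ∈ II B,
      |∑ o ∈ II Y ×ˢ II N, Φ o a0 b0 * Φ o a0 b1 * Φ o a1 b0 * Φ o a1 b1| ≤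
        if a0 = a1 ∨ b0 = b1 ∨ m a1 b1 = m a0 b0 then (Y * N : ℝ) else
          2 * (M : ℝ) ^ 5 * (Y + N) := fun a0 i0 a1 i1 b0 j0 b1 j1 => by
    split_ifs with c
    · refine (abs_sum_le_sum_abs _ _).trans ((sum_le_card_nsmul _ _ 1 fun o _ => ?_).trans ?_)
      · simp only [abs_mul]
        exact mul_le_one₀ (mul_le_one₀ (mul_le_one₀ (p1 _ _ _) (abs_nonneg _) (p1 _ _ _))
          (abs_nonneg _) (p1 _ _ _)) (abs_nonneg _) (p1 _ _ _)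
      · simp [card_II]
    · by_cases z : H a0 b0 = 0 ∨ H a0 b1 = 0 ∨ H a1 b0 = 0 ∨ H a1 b1 = 0
      · rw [sum_eq_zero, abs_zero]
        · positivity
        · intro o _
          rcases z with z | z | z | z <;> simp [hΦ, z]
      · simp only [not_or] at c z
        obtain ⟨p, s, r1, r2, r3, r4, r5⟩ := hP a0 i0 a1 i1 b0 j0 b1 j1 z.1 z.2.1 z.2.2.1 z.2.2.2
          c.1 c.2.1 c.2.2
        simp only [hΦ, if_neg z.1, if_neg z.2.1, if_neg z.2.2.1, if_neg z.2.2.2, r4]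
        rw [sum_product]
        exact four_sum r1 r2 r3 r5 (r4 ▸ (hM a0 i0).2.2 b0 j0) ((hM a0 i0).2.2 b1 j1)
          ((hM a1 i1).2.2 b0 j0) ((hM a1 i1).2.2 b1 j1) (hM a0 i0).1 (hM a0 i0).2.1
  have q2 := (sum_le_sum fun a0 i0 => sum_le_sum fun a1 i1 => sum_le_sum fun b0 j0 =>
    sum_le_sum fun b1 j1 => q a0 i0 a1 i1 b0 j0 b1 j1).trans
    (bad_card (II A) (II B) m hm _ _ (by positivity) (by positivity))
  rw [card_II, card_II] at q2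
  refine le_of_pow_le_pow_left₀ (n := 4) (by norm_num) (by positivity)
    (key.trans ((mul_le_mul_of_nonneg_left q2 (by positivity)).trans ?_))
  have r4 : 0 < ρ ^ 4 := by positivity
  have q3 : ((A : ℝ) * B ^ 2 + 2 * A ^ 2 * B) * (Y * N) + A ^ 2 * B ^ 2 * (2 * M ^ 5 * (Y + N)) ≤
      A ^ 2 * B ^ 2 * (Y * N) / ρ ^ 4 := by
    rw [le_div_iff₀ r4]
    have u1 := mul_le_mul_of_nonneg_right hA (show (0 : ℝ) ≤ A * B ^ 2 * (Y * N) by positivity)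
    have u2 := mul_le_mul_of_nonneg_right hB (show (0 : ℝ) ≤ A ^ 2 * B * (Y * N) by positivity)
    have u3 := mul_le_mul_of_nonneg_right hY (show (0 : ℝ) ≤ A ^ 2 * B ^ 2 by positivity)
    nlinarith
  refine (mul_le_mul_of_nonneg_left q3 (by positivity)).trans (le_of_eq ?_)
  field_simp

theorem spin_core {Y N A B M K ε : ℕ} {ρ : ℝ} (g : ℤ → ℤ → ℤ → ℤ → ℝ) (G1 G2 : ℤ → ℤ → ℤ → ℝ)
    (H : ℤ → ℤ → ℝ) (m : ℤ → ℤ → ℕ) (α β α' β' : ℤ → ℤ) (hK : 1 ≤ K)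
    (g1 : ∀ y n a b, |g y n a b| ≤ 1)
    (g2 : ∀ y n a b y' n' a' b' : ℤ, y % K = y' % K → n % K = n' % K → a % K = a' % K →
      b % K = b' % K → g y n a b = g y' n' a' b')
    (h1 : ∀ y n a, |G1 y n a| ≤ 1) (h2 : ∀ y n a, |G2 y n a| ≤ 1)
    (h3 : ∀ a b, |H a b| ≤ 1) (hρ : 0 < ρ) (hA : 4 * ρ ^ 4 ≤ A) (hB : 4 * ρ ^ 4 ≤ B)
    (hY : 8 * ρ ^ 4 * M ^ 5 * (Y + N) ≤ Y * N)
    (hm : ∀ a ∈ II A, ∀ b ∈ II B, ∀ b' ∈ II B, m a b = m a b' → b = b')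
    (hM : ∀ a ∈ II A, |α' a| ≤ M ∧ |β' a| ≤ M ∧ ∀ b ∈ II B, m a b ≤ M)
    (hP : ∀ a0 ∈ II A, ∀ a1 ∈ II A, ∀ b0 ∈ II B, ∀ b1 ∈ II B, H a0 b0 ≠ 0 → H a0 b1 ≠ 0 →
      H a1 b0 ≠ 0 → H a1 b1 ≠ 0 → a0 ≠ a1 → b0 ≠ b1 → m a1 b1 ≠ m a0 b0 → ∃ p s : ℕ, p.Prime ∧ p ≠ 2 ∧ s ≠ 0 ∧
        m a0 b0 = s * p ∧ ¬ (p : ℤ) ∣ (s * m a0 b1 * m a1 b0 * m a1 b1 : ℕ) *
          (α a0 * β' a0 - β a0 * α' a0)) :
    |∑ y ∈ II Y, ∑ n ∈ II N, ∑ a ∈ II A, ∑ b ∈ II B, g y n a b * (G1 y n a * G2 y n b * H a b *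
      (jacobiSym (nu (α a) (β a) (α' a) (β' a) ε y n) (m a b) : ℝ))| ≤
      Y * N * (A * B * (K ^ 4 * ρ⁻¹)) := by
  have K0 : (0 : ℤ) < K := by exact_mod_cast hK
  have mI : ∀ x : ℤ, x % K ∈ Ico (0 : ℤ) K := fun x =>
    mem_Ico.2 ⟨Int.emod_nonneg _ K0.ne', Int.emod_lt_of_pos _ K0⟩
  have := split_cl ((II Y ×ˢ II N) ×ˢ (II A ×ˢ II B))
    ((Ico (0 : ℤ) K ×ˢ Ico (0 : ℤ) K) ×ˢ (Ico (0 : ℤ) K ×ˢ Ico (0 : ℤ) K))
    (fun z => ((z.1.1 % K, z.1.2 % K), (z.2.1 % K, z.2.2 % K)))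
    (fun z => g z.1.1 z.1.2 z.2.1 z.2.2) (fun z => G1 z.1.1 z.1.2 z.2.1 * G2 z.1.1 z.1.2 z.2.2 *
      H z.2.1 z.2.2 * (jacobiSym (nu (α z.2.1) (β z.2.1) (α' z.2.1) (β' z.2.1) ε z.1.1 z.1.2)
        (m z.2.1 z.2.2) : ℝ)) (B := Y * N * (A * B * ρ⁻¹))
    (fun z _ => mem_product.2 ⟨mem_product.2 ⟨mI _, mI _⟩, mem_product.2 ⟨mI _, mI _⟩⟩)
    (fun z => g1 _ _ _ _) (fun z z' e => by
      simp only [Prod.mk.injEq] at e
      exact g2 _ _ _ _ _ _ _ _ e.1.1 e.1.2 e.2.1 e.2.2) fun k _ => by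
      refine le_trans (le_of_eq (congrArg _ ?_)) (spin0 (ε := ε)
        (fun o a => if (o.1 % K, o.2 % K) = k.1 ∧ a % K = k.2.1 then G1 o.1 o.2 a else 0)
        (fun o b => if b % K = k.2.2 then G2 o.1 o.2 b else 0) H m α β α' β'
        (fun o a => by split_ifs <;> simp [h1]) (fun o a => by split_ifs <;> simp [h2]) h3 hρ hA hB
        hY hm hM hP)
      rw [sum_product]
      refine sum_congr rfl fun o _ => ?_
      rw [sum_product]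
      refine sum_congr rfl fun a _ => sum_congr rfl fun b _ => ?_
      obtain ⟨k1, k2, k3⟩ := k
      by_cases c1 : (o.1 % K, o.2 % K) = k1 <;> by_cases c2 : a % K = k2 <;>
        by_cases c3 : b % K = k3 <;> simp [c1, c2, c3]
  simp only [sum_product, card_product, Int.card_Ico, sub_zero, Int.toNat_natCast,
    Nat.cast_mul] at this
  refine this.trans (le_of_eq ?_)
  ring

/-- The function does not see the coordinate `i`. -/
def Ig {β : Type} (i : Fin 10) (F : V10 → β) : Prop := ∀ v t, F (Function.update v i t) = F v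

theorem Ig.c1 {β : Type} {i : Fin 10} {F : V10 → β} (h : Ig i F) {v v' : V10}
    (e : ∀ k, k ≠ i → v k = v' k) : F v = F v' := by
  rw [← h v (v' i)]
  congr 1
  funext k
  by_cases hk : k = i
  · rw [hk, Function.update_self]
  · rw [Function.update_of_ne hk, e k hk]

theorem Ig.c2 {β : Type} {i j : Fin 10} {F : V10 → β} (h : Ig i F) (h' : Ig j F) {v v' : V10}
    (e : ∀ k, k ≠ i → k ≠ j → v k = v' k) : F v = F v' := by
  rw [← h v (v' i)]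
  refine h'.c1 fun k hk => ?_
  by_cases hi : k = i
  · rw [hi, Function.update_self]
  · rw [Function.update_of_ne hi, e k hi hk]

theorem Ig.c3 {β : Type} {i j l : Fin 10} {F : V10 → β} (h : Ig i F) (h' : Ig j F) (h'' : Ig l F)
    {v v' : V10} (e : ∀ k, k ≠ i → k ≠ j → k ≠ l → v k = v' k) : F v = F v' := by
  rw [← h v (v' i)]
  refine h'.c2 h'' fun k hk hl => ?_
  by_cases hi : k = i
  · rw [hi, Function.update_self]
  · rw [Function.update_of_ne hi, e k hi hk hl]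

theorem spin_box {X : Fin 10 → ℕ} {i j : Fin 10} {K M ε s : ℕ} {ρ : ℝ} (g G1 G2 H : V10 → ℝ)
    (m : V10 → ℕ) (α β α' β' : V10 → ℤ) (ne : i ≠ 0 ∧ i ≠ 1 ∧ j ≠ 0 ∧ j ≠ 1 ∧ i ≠ j)
    (h0 : ∀ i, 0 < X i) (hK : 1 ≤ K) (g1 : ∀ v, |g v| ≤ 1)
    (g2 : ∀ v v' : V10, (∀ i, (K : ℤ) ∣ v i - v' i) → g v = g v') (h1 : ∀ v, |G1 v| ≤ 1)
    (h2 : ∀ v, |G2 v| ≤ 1) (h3 : ∀ v, |H v| ≤ 1) (i1 : Ig j G1) (i2 : Ig i G2)
    (i3 : Ig 0 H ∧ Ig 1 H) (i4 : Ig 0 m ∧ Ig 1 m)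
    (i5 : ∀ k, k = 0 ∨ k = 1 ∨ k = j → Ig k α ∧ Ig k β ∧ Ig k α' ∧ Ig k β') (hρ : 0 < ρ)
    (hA : 4 * ρ ^ 4 ≤ X i) (hB : 4 * ρ ^ 4 ≤ X j)
    (hY : 8 * ρ ^ 4 * M ^ 5 * (X 0 + X 1) ≤ X 0 * X 1)
    (hm : ∀ k, k = i ∨ k = j → ∀ v ∈ Box X, ∀ v' ∈ Box X, (∀ l, l ≠ k → v l = v' l) →
      m v = m v' → v k = v' k)
    (hM : ∀ v ∈ Box X, |α' v| ≤ M ∧ |β' v| ≤ M ∧ m v ≤ M) (hs : s ≠ 0)
    (hP : ∀ v ∈ Box X, H v ≠ 0 → ∃ p : ℕ, p.Prime ∧ p ≠ 2 ∧ m v = s * p ∧ ¬ p ∣ s ∧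
      ¬ (p : ℤ) ∣ α v * β' v - β v * α' v) :
    |∑ v ∈ Box X, g v * (G1 v * G2 v * H v *
      (jacobiSym (nu (α v) (β v) (α' v) (β' v) ε (v 0) (v 1)) (m v) : ℝ))| ≤
      Vol X * (K ^ 4 * ρ⁻¹) := by
  obtain ⟨n1, n2, n3, n4, n5⟩ := ne
  refine box_four X 0 1 i j _ h0 fun v hv => ?_
  obtain ⟨u, hu⟩ : ∃ u : ℤ → ℤ → V10, ∀ a b, u a b =
    Function.update (Function.update v i a) j b := ⟨_, fun _ _ => rfl⟩
  have um : ∀ a ∈ II (X i), ∀ b ∈ II (X j), u a b ∈ Box X := fun a ha b hb =>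
    hu a b ▸ upd_mem (upd_mem hv ha) hb
  have ui : ∀ a b, u a b i = a := fun a b => by simp [hu, n5]
  have uj : ∀ a b, u a b j = b := fun a b => by simp [hu]
  have ma : ∀ a ∈ II (X i), ∀ a' ∈ II (X i), ∀ b ∈ II (X j), m (u a b) = m (u a' b) → a = a' :=
    fun a ha a' ha' b hb e => by
      have := hm i (Or.inl rfl) _ (um a ha b hb) _ (um a' ha' b hb) (fun l hl => by
        by_cases h : l = j <;> simp [hu, hl, h]) e
      rwa [ui, ui] at this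
  have mb : ∀ a ∈ II (X i), ∀ b ∈ II (X j), ∀ b' ∈ II (X j), m (u a b) = m (u a b') → b = b' :=
    fun a ha b hb b' hb' e => by
      have := hm j (Or.inr rfl) _ (um a ha b hb) _ (um a ha b' hb') (fun l hl => by
        simp [hu, hl]) e
      rwa [uj, uj] at this
  have cj : ∀ {F : V10 → ℤ}, Ig j F → ∀ a b, F (u a b) = F (Function.update v i a) :=
    fun h a b => by rw [hu, h]
  obtain ⟨a0, b0, c0, d0⟩ := i5 0 (Or.inl rfl)
  obtain ⟨a1, b1, c1, d1⟩ := i5 1 (Or.inr (Or.inl rfl))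
  obtain ⟨a2, b2, c2, d2⟩ := i5 j (Or.inr (Or.inr rfl))
  refine le_trans (le_of_eq (congrArg _ ?_)) (spin_core (ε := ε) (M := M)
    (fun y n a b => g (Function.update (Function.update (Function.update
      (Function.update v 0 y) 1 n) i a) j b))
    (fun y n a => G1 (Function.update (Function.update (Function.update v 0 y) 1 n) i a))
    (fun y n b => G2 (Function.update (Function.update (Function.update v 0 y) 1 n) j b))
    (fun a b => H (u a b)) (fun a b => m (u a b)) (fun a => α (Function.update v i a))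
    (fun a => β (Function.update v i a)) (fun a => α' (Function.update v i a))
    (fun a => β' (Function.update v i a)) hK (fun _ _ _ _ => g1 _)
    (fun y n a b y' n' a' b' e1 e2 e3 e4 => g2 _ _ fun k => ?_) (fun _ _ _ => h1 _)
    (fun _ _ _ => h2 _) (fun _ _ => h3 _) hρ hA hB hY mb
    (fun a ha => ⟨(hM _ (upd_mem hv ha)).1, (hM _ (upd_mem hv ha)).2.1,
      fun b hb => (hM _ (um a ha b hb)).2.2⟩) ?_)
  · refine sum_congr rfl fun y _ => sum_congr rfl fun n _ => sum_congr rfl fun a _ =>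
      sum_congr rfl fun b _ => ?_
    obtain ⟨w, hw⟩ : ∃ w, w = Function.update (Function.update (Function.update
      (Function.update v 0 y) 1 n) i a) j b := ⟨_, rfl⟩
    have t1 : ∀ k, k ≠ 0 → k ≠ 1 → w k = u a b k := fun k k0 k1 => by
      by_cases h : k = j <;> by_cases h' : k = i <;> simp [hw, hu, h, h', k0, k1, n5]
    have t2 : ∀ k, k ≠ 0 → k ≠ 1 → k ≠ j → w k = Function.update v i a k := fun k k0 k1 k2 => by
      rw [t1 k k0 k1, hu, Function.update_of_ne k2]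
    have t3 : G2 w = G2 (Function.update (Function.update (Function.update v 0 y) 1 n) j b) :=
      i2.c1 fun k hk => by by_cases h : k = j <;> simp [hw, h, hk]
    have t4 : w 0 = y := by simp [hw, n1.symm, n3.symm]
    have t5 : w 1 = n := by simp [hw, n2.symm, n4.symm]
    rw [i1, ← hw, t3, i3.1.c2 i3.2 t1, i4.1.c2 i4.2 t1, a0.c3 a1 a2 t2, b0.c3 b1 b2 t2,
      c0.c3 c1 c2 t2, d0.c3 d1 d2 t2, t4, t5]
  · simp only [Function.update_apply]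
    split_ifs
    exacts [Int.ModEq.dvd e4.symm, Int.ModEq.dvd e3.symm, Int.ModEq.dvd e2.symm,
      Int.ModEq.dvd e1.symm, by simp]
  · intro a ha a' ha' b hb b' hb' z0 z1 z2 z3 k1 k2 k3
    obtain ⟨p, p1, p2, p3, p4, p5⟩ := hP _ (um a ha b hb) z0
    have nd : ∀ a' ∈ II (X i), ∀ b' ∈ II (X j), H (u a' b') ≠ 0 → m (u a' b') ≠ m (u a b) →
        ¬ p ∣ m (u a' b') := fun a' ha' b' hb' z ne h => by
      obtain ⟨q, q1, -, q3, -⟩ := hP _ (um a' ha' b' hb') z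
      rw [q3, p1.dvd_mul, Nat.prime_dvd_prime_iff_eq p1 q1] at h
      exact ne (by rw [q3, p3, h.resolve_left p4])
    refine ⟨p, s, p1, p2, hs, p3, fun h => ?_⟩
    rcases (Nat.prime_iff_prime_int.1 p1).dvd_or_dvd h with h | h
    · simp only [Int.natCast_dvd_natCast, p1.dvd_mul] at h
      rcases h with ((h | h) | h) | h
      exacts [p4 h, nd a ha b' hb' z1 (fun e => k2 (mb a ha _ hb' _ hb e).symm) h,
        nd a' ha' b hb z2 (fun e => k1 (ma _ ha' _ ha b hb e).symm) h, nd a' ha' b' hb' z3 k3 h]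
    · rw [cj a2, cj b2, cj c2, cj d2] at p5
      exact p5 h

theorem bil_box : ∃ C : ℕ, ∀ (X : Fin 10 → ℕ) (i j : Fin 10) (K : ℕ) (g A B : V10 → ℝ), i ≠ j →
    (∀ i, 0 < X i) → 1 ≤ K → (∀ v, |g v| ≤ 1) →
    (∀ v v' : V10, (∀ i, (K : ℤ) ∣ v i - v' i) → g v = g v') → (∀ v, |A v| ≤ 1) →
    (∀ v, |B v| ≤ 1) → Ig j A → Ig i B →
    (∀ v ∈ Box X, A v ≠ 0 → Squarefree (v i).toNat ∧ v i % 2 = 1) →
    (∀ v ∈ Box X, B v ≠ 0 → Squarefree (v j).toNat ∧ v j % 2 = 1) →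
    |∑ v ∈ Box X, g v * (A v * B v * (jacobiSym (v i) (v j).toNat : ℝ))| ≤
      Vol X * (K ^ 2 * (2 + Real.log (X i * X j)) ^ C / (min (X i : ℝ) (X j)) ^ (1 / 8 : ℝ)) := by
  obtain ⟨C, hC⟩ := bil_core
  refine ⟨C, fun X i j K g A B ne h0 hK g1 g2 a1 b1 a2 b2 a3 b3 => ?_⟩
  refine box_two X i j _ (h0 i) (h0 j) fun v hv => ?_
  refine le_trans (le_of_eq (congrArg _ ?_)) ((hC (X i) (X j) K
    (fun x y => g (Function.update (Function.update v i x) j y))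
    (fun x => A (Function.update v i x)) (fun y => B (Function.update v j y)) (h0 i) (h0 j) hK
    (fun _ _ => g1 _) (fun x y x' y' e1 e2 => g2 _ _ fun k => ?_) (fun _ => a1 _) (fun _ => b1 _)
    (fun x hx h => by simpa using a3 _ (upd_mem hv hx) h)
    (fun x hx h => by simpa using b3 _ (upd_mem hv hx) h)).trans (le_of_eq (by ring)))
  · refine sum_congr rfl fun x _ => sum_congr rfl fun y _ => ?_
    rw [a2, Function.update_self, Function.update_of_ne ne, Function.update_self,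
      Function.update_comm ne, b2]
  · simp only [Function.update_apply]
    split_ifs
    exacts [Int.ModEq.dvd e2.symm, Int.ModEq.dvd e1.symm, by simp]

end Pool.Agent.MP_e23604_nt.U.CSJ

end
end

section

/-!
Removal of the four symbols between long sites.
-/

open Finset
open scoped Classical

noncomputable section

namespace Pool.Agent.MP_e23604_nt.U.CSJ

open P (lam)

def bit (e f : Fin 10) (v : V10) : ℝ := (1 + (jacobiSym (v e) (v f).toNat : ℝ)) / 2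

def bits (T : Finset (Fin 10 × Fin 10)) (v : V10) : ℝ := ∏ p ∈ T, bit p.1 p.2 v

/-- The fifteen pairs. -/
def PR : Finset (Fin 10 × Fin 10) := univ.filter fun p => p.1 < p.2 ∧ p.2.val < 6

def cp (v : V10) : ℝ := if Cop v then 1 else 0

def lams (T : Finset (Fin 12)) (s : S12) (v : V10) : ℝ := ∏ σ ∈ T, lam (qq s v σ)

def F1 (s : S12) (v : V10) : ℝ := cp v * bits PR v * lams univ s v

/-- The normalized weight of a prime. -/
def lt (L : ℝ) (n : ℤ) : ℝ := min (lam n / L) 1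

theorem lam_nn (n : ℤ) : 0 ≤ lam n := by
  unfold lam
  split_ifs
  · exact Real.log_intCast_nonneg n
  · exact le_rfl

theorem abs_lt {L : ℝ} (hL : 0 ≤ L) (n : ℤ) : |lt L n| ≤ 1 :=
  abs_le.2 ⟨le_min (by linarith [div_nonneg (lam_nn n) hL]) (by norm_num), min_le_right _ _⟩

theorem abs_half (x : ℤ) (m : ℕ) {c : ℝ} (hc : |c| ≤ 1) :
    |(1 + c * (jacobiSym x m : ℝ)) / 2| ≤ 1 := by
  have := abs_le.1 ((abs_mul _ _).trans_le (mul_le_one₀ hc (abs_nonneg _) (abs_jac x m)))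
  rw [abs_le]
  constructor <;> linarith [this.1, this.2]

theorem abs_prod1 {ι : Type} (T : Finset ι) (f : ι → ℝ) (h : ∀ i, |f i| ≤ 1) :
    |∏ i ∈ T, f i| ≤ 1 := by
  rw [abs_prod]
  exact prod_le_one (fun _ _ => abs_nonneg _) fun i _ => h i

theorem abs_mul1 {x y : ℝ} (hx : |x| ≤ 1) (hy : |y| ≤ 1) : |x * y| ≤ 1 :=
  (abs_mul _ _).trans_le (mul_le_one₀ hx (abs_nonneg _) hy)

theorem abs_bits (T : Finset (Fin 10 × Fin 10)) (v : V10) : |bits T v| ≤ 1 :=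
  abs_prod1 _ _ fun p => by
    simpa only [one_mul, bit] using abs_half (v p.1) (v p.2).toNat abs_one.le

theorem ig_bits {T : Finset (Fin 10 × Fin 10)} {i : Fin 10} (h : ∀ p ∈ T, p.1 ≠ i ∧ p.2 ≠ i) :
    Ig i (bits T) := fun v t => prod_congr rfl fun p hp => by
  rw [bit, bit, Function.update_of_ne (h p hp).1, Function.update_of_ne (h p hp).2]

theorem ig_qq {i : Fin 10} {σ : Fin 12} (h : Ig i fun v => site v σ) (s : S12) (v : V10) (t : ℤ) :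
    qq s (Function.update v i t) σ = qq s v σ := congrArg (· / (s σ : ℤ)) (h v t)

theorem SS_le {X : Fin 10 → ℕ} {Z : ℕ} {F : S12 → V10 → ℝ} {B : ℝ} (hB : 0 ≤ B)
    (h : ∀ s ∈ SSet Z, |∑ v ∈ Box X, GG s v * F s v| ≤ B) : |SS X Z F| ≤ Z ^ 12 * B := by
  refine (abs_sum_le_sum_abs _ _).trans ((sum_le_card_nsmul _ _ _ h).trans ?_)
  rw [nsmul_eq_mul]
  refine mul_le_mul_of_nonneg_right ?_ hB
  have : (SSet Z).card ≤ Z ^ 12 := (card_filter_le _ _).trans (by simp)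
  exact_mod_cast this

theorem lam_eq (hSz : DSz) {X : Fin 10 → ℕ} {Z : ℕ} (hR : Reg X Z) {v : V10} (hv : v ∈ Box X)
    (hL : 0 < Real.log (X 0)) (s : S12) (σ : Fin 12) :
    lam (qq s v σ) = 20 * Real.log (X 0) * lt (20 * Real.log (X 0)) (qq s v σ) := by
  obtain ⟨-, h1, h2, -⟩ := hSz X Z hR v hv
  have h0 : 0 ≤ site v σ := (sq_nonneg _).trans (h1.1 σ).le
  have : lam (qq s v σ) ≤ 20 * Real.log (X 0) := by
    unfold lam
    split_ifs with hp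
    · have h3 : 0 < qq s v σ := Int.lt_toNat.1 hp.pos
      have h4 : qq s v σ ≤ (X 0 : ℤ) ^ 20 := (Int.ediv_le_self _ h0).trans (h2 σ)
      have h5 := Real.log_pow (X 0 : ℝ) 20
      rw [Nat.cast_ofNat] at h5
      rw [← h5]
      exact Real.log_le_log (by exact_mod_cast h3) (by exact_mod_cast h4)
    · positivity
  rw [lt, min_eq_left ((div_le_one (by positivity)).2 this)]
  field_simp

/-- The conditions on the short sites that are kept. -/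
def Cd (s : S12) (v : V10) : Prop :=
  Cop v ∧ 4 * site v 2 = v 2 * v 4 * v 6 ^ 2 - v 5 * v 3 * v 7 ^ 2 ∧
    ∀ τ : Fin 12, τ = 2 ∨ τ = 3 ∨ τ = 9 → (s τ : ℤ) ∣ site v τ ∧ (qq s v τ).toNat.Prime

theorem fac1 {Z : ℕ} {v : V10} {s : S12} (hS : Sep Z v) (hs : s ∈ SSet Z) {τ : Fin 12}
    (h1 : (s τ : ℤ) ∣ site v τ) (h2 : (qq s v τ).toNat.Prime) :
    site v τ = (s τ * (qq s v τ).toNat : ℕ) ∧ Z < (qq s v τ).toNat ∧ 1 ≤ s τ ∧ s τ ≤ Z := by
  obtain ⟨h4, h5⟩ := mem_Icc.1 (Fintype.mem_piFinset.1 (mem_filter.1 hs).1 τ)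
  have h6 : qq s v τ = ((qq s v τ).toNat : ℤ) := by
    have := h2.two_le
    omega
  have h7 : site v τ = (s τ * (qq s v τ).toNat : ℕ) := by
    rw [Nat.cast_mul, ← h6, qq, Int.mul_ediv_cancel' h1]
  refine ⟨h7, ?_, h4, h5⟩
  have h8 := hS.1 τ
  rw [h7] at h8
  have h9 : Z ^ 2 < s τ * (qq s v τ).toNat := by exact_mod_cast h8
  by_contra h10
  have h11 := Nat.mul_le_mul h5 (not_lt.1 h10)
  rw [← sq] at h11
  omega

theorem fac2 {Z : ℕ} {v : V10} {s : S12} (hS : Sep Z v) (hs : s ∈ SSet Z) {τ σ : Fin 12}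
    (h1 : (s τ : ℤ) ∣ site v τ) (h2 : (qq s v τ).toNat.Prime) (h3 : (s σ : ℤ) ∣ site v σ)
    (h4 : (qq s v σ).toNat.Prime) (ne : τ ≠ σ) : ¬ ((qq s v σ).toNat : ℤ) ∣ site v τ := by
  obtain ⟨a1, a2, a3, a4⟩ := fac1 hS hs h1 h2
  obtain ⟨b1, b2, b3, b4⟩ := fac1 hS hs h3 h4
  intro h
  rw [a1, Int.natCast_dvd_natCast, h4.dvd_mul, Nat.prime_dvd_prime_iff_eq h4 h2] at h
  rcases h with h | h
  · have := Nat.le_of_dvd a3 h
    omega
  · rw [h] at b1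
    have key : ∀ x y p : ℕ, 1 ≤ x → y ≤ Z → ¬ (Z : ℤ) * (x * p : ℕ) < (y * p : ℕ) :=
      fun x y p hx hy => by
        have : y * p ≤ Z * (x * p) := Nat.mul_le_mul hy (Nat.le_mul_of_pos_left _ hx)
        exact not_lt.2 (by exact_mod_cast this)
    rcases hS.2 τ σ ne with e | e <;> rw [a1, b1] at e
    exacts [key _ _ _ a3 b4 e, key _ _ _ b3 a4 e]

theorem ig_Cd (s : S12) {i : Fin 10} (hi : i = 0 ∨ i = 1) : Ig i (Cd s) := fun v t => by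
  have e1 : ∀ k : Fin 10, 2 ≤ k.val → Function.update v i t k = v k := fun k hk =>
    Function.update_of_ne (by rcases hi with rfl | rfl <;> rintro rfl <;> simp at hk) _ _
  have e2 : ∀ τ : Fin 12, τ = 2 ∨ τ = 3 ∨ τ = 9 → site (Function.update v i t) τ = site v τ := by
    rcases hi with rfl | rfl <;> rintro τ (rfl | rfl | rfl) <;> simp [site]
  have e3 : Cop (Function.update v i t) ↔ Cop v :=
    forall₂_congr fun a b => forall₂_congr fun ha hb => by rw [e1 a (by omega), e1 b (by omega)]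
  rw [Cd, Cd, e3, e2 2 (Or.inl rfl), e1 2 (by decide), e1 3 (by decide), e1 4 (by decide),
    e1 5 (by decide), e1 6 (by decide), e1 7 (by decide), eq_iff_iff]
  exact and_congr_right' (and_congr_right' (forall₂_congr fun τ hτ => by rw [qq, qq, e2 τ hτ]))

theorem sizes {X : Fin 10 → ℕ} {Z : ℕ} (hR : Reg X Z) : ∃ x : ℕ, 1 ≤ x ∧
    (∀ k : Fin 10, 2 ≤ k.val → 2 * X k ≤ x) ∧ (∀ k, 4 * ((Z : ℝ) ^ 200) ^ 4 ≤ X k) ∧
    8 * ((Z : ℝ) ^ 200) ^ 4 * ((4 * x ^ 4 : ℕ) : ℝ) ^ 5 * (X 0 + X 1) ≤ X 0 * X 1 := by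
  obtain ⟨h1, h2, h3, -⟩ := hR.sizes
  obtain ⟨k, hk, hm⟩ := exists_max_image (univ.filter fun k : Fin 10 => 2 ≤ k.val) X
    ⟨2, by decide⟩
  have z2 := hR.z2
  have a1 : 4 * (Z ^ 200) ^ 4 ≤ Z ^ 1000 := by
    rw [show 1000 = 2 + 198 + 200 * 4 by norm_num, pow_add, pow_add, pow_mul]
    exact Nat.mul_le_mul_right _ ((Nat.pow_le_pow_left z2 2).trans
      (Nat.le_mul_of_pos_right _ (by positivity)))
  have a2 := a1.trans (h1 k)
  have a3 := h2 k (mem_filter.1 hk).2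
  have a4 : 2 ≤ X k := by
    have : 0 < (Z ^ 200) ^ 4 := by positivity
    omega
  refine ⟨2 * X k, by omega, fun l hl => Nat.mul_le_mul_left _ (hm l (by simpa using hl)),
    fun l => by exact_mod_cast a1.trans (h1 l), ?_⟩
  have a5 : 8 * (Z ^ 200) ^ 4 * (4 * (2 * X k) ^ 4) ^ 5 * (X 0 + X 1) ≤ X 0 * X 1 := by
    generalize (Z ^ 200) ^ 4 = r at a2
    generalize X k = x at a2 a3 a4
    calc 8 * r * (4 * (2 * x) ^ 4) ^ 5 * (X 0 + X 1)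
        ≤ (2 * x) * (4 * (2 * x) ^ 4) ^ 5 * (2 * X 1) :=
          Nat.mul_le_mul (Nat.mul_le_mul_right _ (by omega)) (by omega)
      _ = 2 ^ 32 * x ^ 21 * X 1 := by ring
      _ ≤ x ^ 32 * x ^ 21 * X 1 := by gcongr
      _ ≤ X 0 * X 1 := by
        rw [← pow_add]
        exact Nat.mul_le_mul_right _ ((Nat.pow_le_pow_right (by omega) (by norm_num)).trans a3)
  exact_mod_cast a5

theorem spinG (hSz : DSz) (σ a b : Fin 12) (i j : Fin 10) (T1 T2 : Finset (Fin 12))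
    (α β α' β' : V10 → ℤ) (hσ : σ = 2 ∨ σ = 3 ∨ σ = 9) (ne : 6 ≤ i.val ∧ 6 ≤ j.val ∧ i ≠ j)
    (hT : ∀ f : Fin 12 → ℝ, ∏ τ, f τ = (∏ τ ∈ T1, f τ) * (∏ τ ∈ T2, f τ) * f σ)
    (t1 : ∀ τ ∈ T1, Ig j fun v => site v τ) (t2 : ∀ τ ∈ T2, Ig i fun v => site v τ)
    (t3 : (Ig 0 fun v => site v σ) ∧ Ig 1 fun v => site v σ)
    (ha : ∀ v, site v a = α v * v 0 - β v * v 1) (hb : ∀ v, site v b = α' v * v 0 - β' v * v 1)
    (i5 : ∀ k, k = 0 ∨ k = 1 ∨ k = j → Ig k α ∧ Ig k β ∧ Ig k α' ∧ Ig k β')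
    (hm : ∀ k, k = i ∨ k = j → ∀ v v' : V10, (∀ l, 2 ≤ v l ∧ 2 ≤ v' l) → (∀ l, l ≠ k → v l = v' l) →
      site v σ = site v' σ → v k = v' k)
    (hM : ∀ (v : V10) (x : ℤ), (∀ k : Fin 10, 2 ≤ k.val → 1 ≤ v k ∧ v k ≤ x) →
      |α' v| ≤ 4 * x ^ 4 ∧ |β' v| ≤ 4 * x ^ 4 ∧ site v σ ≤ 4 * x ^ 4)
    (hd : ∀ (v : V10) (p : ℤ), Prime p → ¬ p ∣ 2 → Cop v →
      4 * site v 2 = v 2 * v 4 * v 6 ^ 2 - v 5 * v 3 * v 7 ^ 2 → p ∣ site v σ →
      (∀ τ, τ = 2 ∨ τ = 3 ∨ τ = 9 → τ ≠ σ → ¬ p ∣ site v τ) → ¬ p ∣ α v * β' v - β v * α' v) :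
    ∃ X1 : ℕ, ∀ (X : Fin 10 → ℕ) (Z : ℕ), Reg X Z → X1 ≤ X 0 → ∀ (E1 E2 : S12 → V10 → ℝ) (ε : ℕ),
      (∀ s v, |E1 s v| ≤ 1) → (∀ s v, |E2 s v| ≤ 1) → (∀ s, Ig j (E1 s)) → (∀ s, Ig i (E2 s)) →
      |SS X Z fun s v => F1 s v * (E1 s v * E2 s v *
        (jacobiSym (site v a * site v b ^ ε) (site v σ).toNat : ℝ))| ≤ Vol X / Z ^ 2 := by
  obtain ⟨X1, hX⟩ := Reg.log_le 80
  refine ⟨X1, fun X Z hR h1 E1 E2 ε e1 e2 e3 e4 => ?_⟩
  obtain ⟨l1, -, l3⟩ := hX X Z hR h1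
  obtain ⟨x, x1, x2, x3, x4⟩ := sizes hR
  have z2 := hR.z2
  have z0 : (0 : ℝ) < Z := by exact_mod_cast (by omega : 0 < Z)
  have big : ∀ k, 2 ≤ X k := fun k => (z2.trans (Nat.le_self_pow (by norm_num) Z)).trans
    (hR.sizes.1 k)
  obtain ⟨L, hL⟩ : ∃ L, L = Real.log (X 0) := ⟨_, rfl⟩
  rw [← hL, Nat.cast_ofNat] at l3
  rw [← hL] at l1
  have L0 : 0 < L := by linarith
  have V0 : 0 ≤ Vol X := card_Box X ▸ Nat.cast_nonneg _
  have bx : ∀ v ∈ Box X, ∀ k, (X k : ℤ) < v k ∧ v k ≤ 2 * X k := fun v hv k =>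
    mem_Ioc.1 (Fintype.mem_piFinset.1 hv k)
  refine (SS_le (B := (20 * L) ^ 12 * (Vol X * ((80 * Z) ^ 4 * ((Z : ℝ) ^ 200)⁻¹))) (by positivity)
    fun s hs => ?_).trans ?_
  swap
  · have a1 : (20 * L) ^ 12 * 80 ^ 4 ≤ Z := by
      calc (20 * L) ^ 12 * 80 ^ 4 ≤ (L * L) ^ 12 * L ^ 4 := by gcongr; linarith
        _ = L ^ 28 := by ring
        _ ≤ L ^ 80 := pow_le_pow_right₀ (by linarith) (by norm_num)
        _ ≤ Z := l1
    have a2 : (Z : ℝ) ^ 19 ≤ Z ^ 200 :=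
      pow_le_pow_right₀ (by exact_mod_cast (by omega : 1 ≤ Z)) (by norm_num)
    calc _ = Vol X * ((20 * L) ^ 12 * 80 ^ 4 * Z ^ 16 / Z ^ 200) := by ring
      _ ≤ Vol X * (Z * Z ^ 16 / Z ^ 19) := by gcongr
      _ = _ := by field_simp
  obtain ⟨ok, sZ⟩ := mem_SSet.1 hs
  have K1 : 1 ≤ KK s := by
    have := (ok.pos 0).trans (le_SP ok 0)
    unfold KK
    omega
  have K2 : (KK s : ℝ) ≤ 80 * Z := by exact_mod_cast Nat.mul_le_mul_left 80 sZ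
  have key := spin_box (X := X) (i := i) (j := j) (K := KK s) (M := 4 * x ^ 4) (ε := ε) (s := s σ)
    (ρ := (Z : ℝ) ^ 200) (GG s)
    (fun v => bits PR v * (∏ τ ∈ T1, lt (20 * L) (qq s v τ)) * E1 s v)
    (fun v => (∏ τ ∈ T2, lt (20 * L) (qq s v τ)) * E2 s v)
    (fun v => if Cd s v then lt (20 * L) (qq s v σ) else 0) (fun v => (site v σ).toNat) α β α' β'
    (by refine ⟨?_, ?_, ?_, ?_, ne.2.2⟩ <;> rintro rfl <;> simp at ne)
    (fun k => by have := big k; omega) K1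
    (fun v => by rcases GG_01 s v with h | h <;> simp [h]) (GG_per10 ok)
    (fun v => abs_mul1 (abs_mul1 (abs_bits _ _) (abs_prod1 _ _ fun _ => abs_lt (by positivity) _))
      (e1 _ _))
    (fun v => abs_mul1 (abs_prod1 _ _ fun _ => abs_lt (by positivity) _) (e2 _ _))
    (fun v => by
      split_ifs
      exacts [abs_lt (by positivity) _, by simp])
    (fun v t => by
      beta_reduce
      rw [ig_bits (fun p hp => by
        have := (mem_filter.1 hp).2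
        constructor <;> rintro rfl <;> omega) v t, e3 s v t]
      exact congrArg (_ * · * _) (prod_congr rfl fun τ hτ => by rw [ig_qq (t1 τ hτ)]))
    (fun v t => by
      beta_reduce
      rw [e4 s v t]
      exact congrArg (· * _) (prod_congr rfl fun τ hτ => by rw [ig_qq (t2 τ hτ)]))
    ⟨fun v t => by simp only [ig_Cd s (Or.inl rfl) v t, ig_qq t3.1],
      fun v t => by simp only [ig_Cd s (Or.inr rfl) v t, ig_qq t3.2]⟩
    ⟨fun v t => congrArg Int.toNat (t3.1 v t), fun v t => congrArg Int.toNat (t3.2 v t)⟩ i5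
    (by positivity) (x3 i) (x3 j) x4
    (fun k hk v hv v' hv' h e => hm k hk v v' (fun l => by
        have := bx v hv l
        have := bx v' hv' l
        have := big l
        omega) h (by
      have u1 := (sq_nonneg _).trans_lt ((hSz X Z hR v hv).2.1.1 σ)
      have u2 := (sq_nonneg _).trans_lt ((hSz X Z hR v' hv').2.1.1 σ)
      omega))
    (fun v hv => by
      obtain ⟨u1, u2, u3⟩ := hM v x fun k hk => by
        have := bx v hv k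
        have := x2 k hk
        omega
      exact ⟨by exact_mod_cast u1, by exact_mod_cast u2, Int.toNat_le.2 (by exact_mod_cast u3)⟩)
    (Nat.one_le_iff_ne_zero.1 (ok.pos σ)) fun v hv h => by
      have c : Cd s v := by_contra fun c => h (if_neg c)
      have sp := (hSz X Z hR v hv).2.1
      obtain ⟨c1, c2⟩ := c.2.2 σ hσ
      obtain ⟨u1, u2, u3, u4⟩ := fac1 sp hs c1 c2
      refine ⟨_, c2, by omega, by rw [u1, Int.toNat_natCast],
        fun h => by have := Nat.le_of_dvd u3 h; omega, hd v _ (Nat.prime_iff_prime_int.1 c2)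
          (fun h => by have := Int.le_of_dvd two_pos h; omega) c.1 c.2.1 ?_
          fun τ hτ ne => fac2 sp hs (c.2.2 τ hτ).1 (c.2.2 τ hτ).2 c1 c2 ne⟩
      rw [u1, Nat.cast_mul]
      exact dvd_mul_left _ _
  refine le_trans (le_of_eq ?_) (mul_le_mul_of_nonneg_left (key.trans ?_) (by positivity))
  swap
  · gcongr
  rw [← abs_of_nonneg (show 0 ≤ (20 * L) ^ 12 by positivity), ← abs_mul, mul_sum]
  refine congrArg _ (sum_congr rfl fun v hv => ?_)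
  rcases GG_01 s v with h | ⟨h, hc⟩
  · rw [h, zero_mul, zero_mul, mul_zero]
  rw [nu, ← ha, ← hb, F1, cp]
  by_cases c : Cd s v
  · have e : lams univ s v = (20 * L) ^ 12 * ∏ τ, lt (20 * L) (qq s v τ) := by
      rw [lams, prod_congr rfl fun τ _ => lam_eq hSz hR hv (hL ▸ L0) s τ, prod_mul_distrib, hL]
      simp
    rw [if_pos c, if_pos c.1, e, hT]
    ring
  · rw [if_neg c]
    by_cases c' : Cop v
    · obtain ⟨τ, hτ⟩ : ∃ τ, ¬ (qq s v τ).toNat.Prime := by_contra fun n => c ⟨c', hc.four,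
        fun τ _ => ⟨hc.dvd ok τ, by_contra fun m => n ⟨τ, m⟩⟩⟩
      rw [lams, prod_eq_zero (mem_univ τ) (if_neg hτ)]
      ring
    · rw [if_neg c']
      ring

end Pool.Agent.MP_e23604_nt.U.CSJ

end
end

section

/-!
The first steps of the count in one box.
-/

open Finset
open scoped Classical

noncomputable section

namespace Pool.Agent.MP_e23604_nt.U.CSJ

open P (lam)

theorem sq_inj {c x y : ℤ} (hc : 1 ≤ c) (hx : 2 ≤ x) (hy : 2 ≤ y) (h1 : c * x ^ 2 - c * y ^ 2 ≤ 3)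
    (h2 : c * y ^ 2 - c * x ^ 2 ≤ 3) : x = y := by
  have key : ∀ x y : ℤ, 2 ≤ y → y < x → 3 < c * x ^ 2 - c * y ^ 2 := fun x y hy h => by
    have : 5 ≤ x ^ 2 - y ^ 2 := by nlinarith
    nlinarith
  rcases lt_trichotomy x y with h | h | h
  · exact absurd h2 (not_le.2 (key y x hx h))
  · exact h
  · exact absurd h1 (not_le.2 (key x y hy h))

theorem mon3 {a b x : ℤ} (ha : 1 ≤ a ∧ a ≤ x) (hb : 1 ≤ b ∧ b ≤ x) :
    0 ≤ a * b ^ 2 ∧ a * b ^ 2 ≤ x ^ 4 := by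
  obtain ⟨a1, a2⟩ := ha
  obtain ⟨b1, b2⟩ := hb
  refine ⟨by positivity, ?_⟩
  calc a * b ^ 2 ≤ x * x ^ 2 := by gcongr; omega
    _ = x ^ 3 := by ring
    _ ≤ x ^ 4 := pow_le_pow_right₀ (by omega) (by norm_num)

theorem mon4 {a b c x : ℤ} (ha : 1 ≤ a ∧ a ≤ x) (hb : 1 ≤ b ∧ b ≤ x) (hc : 1 ≤ c ∧ c ≤ x) :
    0 ≤ a * b * c ^ 2 ∧ a * b * c ^ 2 ≤ x ^ 4 := by
  obtain ⟨a1, a2⟩ := ha
  obtain ⟨b1, b2⟩ := hb
  obtain ⟨c1, c2⟩ := hc
  have : 0 ≤ x := by omega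
  refine ⟨by positivity, ?_⟩
  calc a * b * c ^ 2 ≤ x * x * x ^ 2 := by gcongr
    _ = x ^ 4 := by ring

theorem pos2 {a b : ℤ} (ha : 2 ≤ a) (hb : 2 ≤ b) : 1 ≤ a * b := by nlinarith

theorem inj2 (k : Fin 10) (hk : k = 6 ∨ k = 7) (v v' : V10) (h : ∀ l, 2 ≤ v l ∧ 2 ≤ v' l)
    (e : ∀ l, l ≠ k → v l = v' l) (hs : site v 2 = site v' 2) : v k = v' k := by
  change (v 2 * v 4 * v 6 ^ 2 - v 5 * v 3 * v 7 ^ 2) / 4 =
    (v' 2 * v' 4 * v' 6 ^ 2 - v' 5 * v' 3 * v' 7 ^ 2) / 4 at hs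
  rcases hk with rfl | rfl
  · rw [← e 2 (by decide), ← e 3 (by decide), ← e 4 (by decide), ← e 5 (by decide),
      ← e 7 (by decide)] at hs
    exact sq_inj (pos2 (h 2).1 (h 4).1) (h 6).1 (h 6).2 (by omega) (by omega)
  · rw [← e 2 (by decide), ← e 3 (by decide), ← e 4 (by decide), ← e 5 (by decide),
      ← e 6 (by decide)] at hs
    exact sq_inj (pos2 (h 5).1 (h 3).1) (h 7).1 (h 7).2 (by omega) (by omega)

theorem inj3 (k : Fin 10) (hk : k = 8 ∨ k = 9) (v v' : V10) (h : ∀ l, 2 ≤ v l ∧ 2 ≤ v' l)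
    (e : ∀ l, l ≠ k → v l = v' l) (hs : site v 3 = site v' 3) : v k = v' k := by
  change v 2 * v 5 * v 8 ^ 2 - v 4 * v 3 * v 9 ^ 2 =
    v' 2 * v' 5 * v' 8 ^ 2 - v' 4 * v' 3 * v' 9 ^ 2 at hs
  rcases hk with rfl | rfl
  · rw [← e 2 (by decide), ← e 3 (by decide), ← e 4 (by decide), ← e 5 (by decide),
      ← e 9 (by decide)] at hs
    exact sq_inj (pos2 (h 2).1 (h 5).1) (h 8).1 (h 8).2 (by omega) (by omega)
  · rw [← e 2 (by decide), ← e 3 (by decide), ← e 4 (by decide), ← e 5 (by decide),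
      ← e 8 (by decide)] at hs
    exact sq_inj (pos2 (h 4).1 (h 3).1) (h 9).1 (h 9).2 (by omega) (by omega)

theorem det0 {p a b c d u w S : ℤ} (hp : Prime p) (h2 : ¬ p ∣ 2) (h : p ∣ a * u ^ 2 - b * c * w ^ 2)
    (hb : IsCoprime b u) (hc : ¬ p ∣ c) (hw : IsCoprime u w) (hS : ¬ p ∣ S) (k : ℕ)
    (hd : d = 2 ^ k * u ^ 2 * S ∨ d = -(2 ^ k * u ^ 2 * S)) : ¬ p ∣ d := by
  have hu : ¬ p ∣ u := fun hu => by
    have h1 : p ∣ b * c * w ^ 2 := by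
      simpa using dvd_sub ((dvd_pow hu two_ne_zero).mul_left a) h
    rcases hp.dvd_or_dvd h1 with h1 | h1
    · exact (hp.dvd_or_dvd h1).elim (fun h1 => hp.not_isUnit (hb.isUnit_of_dvd' h1 hu)) hc
    · exact hp.not_isUnit (hw.isUnit_of_dvd' hu (hp.dvd_of_dvd_pow h1))
  have : ¬ p ∣ 2 ^ k * u ^ 2 * S := fun h1 => (hp.dvd_or_dvd h1).elim (fun h1 =>
    (hp.dvd_or_dvd h1).elim (fun h1 => h2 (hp.dvd_of_dvd_pow h1))
      fun h1 => hu (hp.dvd_of_dvd_pow h1)) hS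
  rcases hd with rfl | rfl
  exacts [this, fun h => this (dvd_neg.1 h)]

theorem hT2 (f : Fin 12 → ℝ) : ∏ τ, f τ = (∏ τ ∈ {0, 1, 3, 4, 5, 6, 8, 9, 10}, f τ) *
    (∏ τ ∈ {7, 11}, f τ) * f 2 := by
  rw [← prod_singleton f 2, ← prod_union (by decide), ← prod_union (by decide)]
  exact prod_congr (by decide) fun _ _ => rfl

theorem hT3 (f : Fin 12 → ℝ) : ∏ τ, f τ = (∏ τ ∈ {0, 1, 2, 4, 5, 7, 8, 9, 10}, f τ) *
    (∏ τ ∈ {6, 11}, f τ) * f 3 := by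
  rw [← prod_singleton f 3, ← prod_union (by decide), ← prod_union (by decide)]
  exact prod_congr (by decide) fun _ _ => rfl

/-- The bound for one term. -/
def Sp (σ a b : Fin 12) (i j : Fin 10) : Prop :=
  ∃ X1 : ℕ, ∀ (X : Fin 10 → ℕ) (Z : ℕ), Reg X Z → X1 ≤ X 0 → ∀ (E1 E2 : S12 → V10 → ℝ) (ε : ℕ),
    (∀ s v, |E1 s v| ≤ 1) → (∀ s v, |E2 s v| ≤ 1) → (∀ s, Ig j (E1 s)) → (∀ s, Ig i (E2 s)) →
    |SS X Z fun s v => F1 s v * (E1 s v * E2 s v *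
      (jacobiSym (site v a * site v b ^ ε) (site v σ).toNat : ℝ))| ≤ Vol X / Z ^ 2

theorem sz2 (v : V10) (x : ℤ) (h : ∀ k : Fin 10, 2 ≤ k.val → 1 ≤ v k ∧ v k ≤ x) :
    site v 2 ≤ 4 * x ^ 4 := by
  have h1 := mon4 (h 2 (by decide)) (h 4 (by decide)) (h 6 (by decide))
  have h2 := mon4 (h 5 (by decide)) (h 3 (by decide)) (h 7 (by decide))
  change (v 2 * v 4 * v 6 ^ 2 - v 5 * v 3 * v 7 ^ 2) / 4 ≤ _
  omega

theorem sz3 (v : V10) (x : ℤ) (h : ∀ k : Fin 10, 2 ≤ k.val → 1 ≤ v k ∧ v k ≤ x) :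
    site v 3 ≤ 4 * x ^ 4 := by
  have h1 := mon4 (h 2 (by decide)) (h 5 (by decide)) (h 8 (by decide))
  have h2 := mon4 (h 4 (by decide)) (h 3 (by decide)) (h 9 (by decide))
  change v 2 * v 5 * v 8 ^ 2 - v 4 * v 3 * v 9 ^ 2 ≤ _
  omega

theorem szc (v : V10) (x : ℤ) (h : ∀ k : Fin 10, 2 ≤ k.val → 1 ≤ v k ∧ v k ≤ x) (a b : Fin 10)
    (c : ℤ) (ha : 2 ≤ a.val ∧ 2 ≤ b.val ∧ -4 ≤ c ∧ c ≤ 4) : |c * (v a * v b ^ 2)| ≤ 4 * x ^ 4 := by
  obtain ⟨h1, h2⟩ := mon3 (h a ha.1) (h b ha.2.1)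
  rw [abs_mul, abs_of_nonneg h1]
  exact mul_le_mul (abs_le.2 ha.2.2) h2 h1 (by norm_num)

theorem spins (hSz : DSz) : Sp 2 6 10 6 7 ∧ Sp 2 10 6 6 7 ∧ Sp 3 7 10 8 9 ∧ Sp 3 10 7 8 9 := by
  have i7 : ∀ τ ∈ ({0, 1, 3, 4, 5, 6, 8, 9, 10} : Finset (Fin 12)), Ig 7 fun v => site v τ := by
    simp only [mem_insert, mem_singleton]
    rintro τ (rfl | rfl | rfl | rfl | rfl | rfl | rfl | rfl | rfl) v t <;> simp [site]
  have i6 : ∀ τ ∈ ({7, 11} : Finset (Fin 12)), Ig 6 fun v => site v τ := by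
    simp only [mem_insert, mem_singleton]
    rintro τ (rfl | rfl) v t <;> simp [site]
  have i9 : ∀ τ ∈ ({0, 1, 2, 4, 5, 7, 8, 9, 10} : Finset (Fin 12)), Ig 9 fun v => site v τ := by
    simp only [mem_insert, mem_singleton]
    rintro τ (rfl | rfl | rfl | rfl | rfl | rfl | rfl | rfl | rfl) v t <;> simp [site]
  have i8 : ∀ τ ∈ ({6, 11} : Finset (Fin 12)), Ig 8 fun v => site v τ := by
    simp only [mem_insert, mem_singleton]
    rintro τ (rfl | rfl) v t <;> simp [site]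
  have j2 : (Ig 0 fun v => site v 2) ∧ Ig 1 fun v => site v 2 := by
    constructor <;> intro v t <;> simp [site]
  have j3 : (Ig 0 fun v => site v 3) ∧ Ig 1 fun v => site v 3 := by
    constructor <;> intro v t <;> simp [site]
  have s6 : ∀ v : V10, site v 6 = 1 * (v 2 * v 6 ^ 2) * v 0 - 4 * (v 3 * v 9 ^ 2) * v 1 :=
    fun v => by simp only [site, Matrix.cons_val]; ring
  have s7 : ∀ v : V10, site v 7 = -1 * (v 3 * v 7 ^ 2) * v 0 - -4 * (v 2 * v 8 ^ 2) * v 1 :=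
    fun v => by simp only [site, Matrix.cons_val]; ring
  have s10 : ∀ v : V10, site v 10 = 1 * (v 4 * v 6 ^ 2) * v 0 - 4 * (v 5 * v 8 ^ 2) * v 1 :=
    fun v => by simp only [site, Matrix.cons_val]; ring
  have s3 : ∀ v : V10, site v 3 = v 2 * v 5 * v 8 ^ 2 - v 4 * v 3 * v 9 ^ 2 := fun v => rfl
  refine ⟨spinG hSz 2 6 10 6 7 _ _ _ _ _ _ (Or.inl rfl) (by decide) hT2 i7 i6 j2 s6 s10 ?_ inj2
      (fun v x h => ⟨szc v x h 4 6 1 (by decide), szc v x h 5 8 4 (by decide), sz2 v x h⟩) ?_,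
    spinG hSz 2 10 6 6 7 _ _ _ _ _ _ (Or.inl rfl) (by decide) hT2 i7 i6 j2 s10 s6 ?_ inj2
      (fun v x h => ⟨szc v x h 2 6 1 (by decide), szc v x h 3 9 4 (by decide), sz2 v x h⟩) ?_,
    spinG hSz 3 7 10 8 9 _ _ _ _ _ _ (Or.inr (Or.inl rfl)) (by decide) hT3 i9 i8 j3 s7 s10 ?_ inj3
      (fun v x h => ⟨szc v x h 4 6 1 (by decide), szc v x h 5 8 4 (by decide), sz3 v x h⟩) ?_,
    spinG hSz 3 10 7 8 9 _ _ _ _ _ _ (Or.inr (Or.inl rfl)) (by decide) hT3 i9 i8 j3 s10 s7 ?_ inj3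
      (fun v x h => ⟨szc v x h 3 7 (-1) (by decide), szc v x h 2 8 (-4) (by decide),
        sz3 v x h⟩) ?_⟩
  iterate 2
    · rintro k (rfl | rfl | rfl) <;> refine ⟨?_, ?_, ?_, ?_⟩ <;> intro v t <;> simp
    · intro v p hp h2 c e h hn
      refine det0 hp h2 (e ▸ h.mul_left 4) (c 5 6 (by decide) (by decide) (by decide))
        (hn 9 (by decide) (by decide)) (c 6 7 (by decide) (by decide) (by decide))
        (hn 3 (by decide) (by decide)) 2 ?_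
      rw [s3]
      first
      | (left; ring1)
      | (right; ring1)
  iterate 2
    · rintro k (rfl | rfl | rfl) <;> refine ⟨?_, ?_, ?_, ?_⟩ <;> intro v t <;> simp
    · intro v p hp h2 c e h hn
      refine det0 hp h2 (s3 v ▸ h) (c 4 8 (by decide) (by decide) (by decide))
        (hn 9 (by decide) (by decide)) (c 8 9 (by decide) (by decide) (by decide))
        (hn 2 (by decide) (by decide)) 4 ?_
      first
      | (left; linear_combination -4 * v 8 ^ 2 * e)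
      | (right; linear_combination 4 * v 8 ^ 2 * e)

theorem ind_eq {x c : ℤ} (hx : x = 1 ∨ x = -1) (hc : c = 1 ∨ c = -1) :
    (1 + (c : ℝ) * x) / 2 = if x = c then 1 else 0 := by
  rcases hx with rfl | rfl <;> rcases hc with rfl | rfl <;> norm_num

theorem jac_pm {v : V10} (h0 : ∀ σ, 0 < site v σ) (h : Squarefree (∏ σ, site v σ)) {σ τ : Fin 12}
    (ne : σ ≠ τ) : jacobiSym (site v σ) (site v τ).toNat = 1 ∨
      jacobiSym (site v σ) (site v τ).toNat = -1 := by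
  refine jacobiSym.eq_one_or_neg_one ?_
  rw [Int.toNat_of_nonneg (h0 τ).le, ← Int.isCoprime_iff_gcd_eq_one]
  have : site v σ * site v τ ∣ ∏ σ, site v σ := by
    rw [← prod_pair ne]
    exact prod_dvd_prod_of_subset _ _ _ (subset_univ _)
  exact (squarefree_mul_iff.1 (h.squarefree_of_dvd this)).1.isCoprime

/-- One of the four symbols. -/
def jr (v : V10) (a σ : Fin 12) : ℝ := jacobiSym (site v a) (site v σ).toNat

theorem F0_eq (hSz : DSz) {X : Fin 10 → ℕ} {Z : ℕ} (hR : Reg X Z) {s : S12} (hs : s ∈ SSet Z)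
    {v : V10} (hv : v ∈ Box X) : GG s v * F0 s v = GG s v * (F1 s v * ((1 + 1 * jr v 7 3) / 2 *
      ((1 + 1 * jr v 10 3) / 2) * ((1 + 1 * jr v 6 2) / 2) *
      ((1 + (-1) ^ (PS s).card * jr v 10 2) / 2))) := by
  rcases GG_01 s v with h | ⟨-, hc⟩
  · rw [h, zero_mul, zero_mul]
  congr 1
  by_cases hp : ∀ σ, (qq s v σ).toNat.Prime
  swap
  · obtain ⟨τ, hτ⟩ := not_forall.1 hp
    rw [F0, F1, lams, prod_eq_zero (mem_univ τ) (if_neg hτ)]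
    simp
  have sp := (hSz X Z hR v hv).2.1
  have h0 : ∀ σ, 0 < site v σ := fun σ => (sq_nonneg _).trans_lt (sp.1 σ)
  have sq := (dSq Z v s sp hs hc hp).1
  have o : (1 : ℤ) = 1 ∨ (1 : ℤ) = -1 := Or.inl rfl
  have e1 := ind_eq (jac_pm h0 sq (show (7 : Fin 12) ≠ 3 by decide)) o
  have e2 := ind_eq (jac_pm h0 sq (show (10 : Fin 12) ≠ 3 by decide)) o
  have e3 := ind_eq (jac_pm h0 sq (show (6 : Fin 12) ≠ 2 by decide)) o
  have e4 := ind_eq (jac_pm h0 sq (show (10 : Fin 12) ≠ 2 by decide))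
    (neg_one_pow_eq_or ℤ (PS s).card)
  have e5 : bits PR v =
      if ∀ e f : Fin 10, e < f → f.val < 6 → jacobiSym (v e) (v f).toNat = 1 then 1 else 0 := by
    let ix : Fin 10 → Fin 12 := ![0, 1, 8, 9, 4, 5, 0, 0, 0, 0]
    have k1 : ∀ e : Fin 10, e.val < 6 → v e = site v (ix e) := fun e he => by
      have : ∀ e : Fin 10, e.val < 6 → e = 0 ∨ e = 1 ∨ e = 2 ∨ e = 3 ∨ e = 4 ∨ e = 5 := by decide
      rcases this e he with rfl | rfl | rfl | rfl | rfl | rfl <;> rfl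
    have k2 : ∀ e f : Fin 10, e < f → f.val < 6 → e.val < 6 ∧ ix e ≠ ix f := by decide
    have k3 : ∀ p ∈ PR, bit p.1 p.2 v = if jacobiSym (v p.1) (v p.2).toNat = 1 then 1 else 0 :=
      fun p hp => by
        obtain ⟨a, b⟩ := (mem_filter.1 hp).2
        have := ind_eq (jac_pm h0 sq (k2 _ _ a b).2) o
        rw [← k1 _ b, ← k1 _ (k2 _ _ a b).1, Int.cast_one, one_mul] at this
        exact this
    rw [bits, prod_congr rfl k3, prod_ite_zero, prod_const_one]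
    simp only [PR, mem_filter, mem_univ, true_and, Prod.forall, and_imp]
  push_cast at e1 e2 e3 e4
  rw [F0, F1, jr, jr, jr, jr, e1, e2, e3, e4, e5, cp, lams, Bits]
  simp only [ite_and, ite_mul, mul_ite, one_mul, zero_mul, mul_one, mul_zero]
  split_ifs <;> first | rfl | tauto

theorem SS_add (X : Fin 10 → ℕ) (Z : ℕ) (F G : S12 → V10 → ℝ) :
    (SS X Z fun s v => F s v + G s v) = SS X Z F + SS X Z G := by
  simp only [SS, mul_add, sum_add_distrib]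

theorem SS_mul (X : Fin 10 → ℕ) (Z : ℕ) (c : ℝ) (F : S12 → V10 → ℝ) :
    (SS X Z fun s v => c * F s v) = c * SS X Z F := by
  simp only [SS, mul_sum, mul_left_comm]

/-- Steps C0 and C1. -/
theorem spin (hSz : DSz) : ∃ X1 : ℕ, ∀ (X : Fin 10 → ℕ) (Z : ℕ), Reg X Z → X1 ≤ X 0 →
    |SS X Z F0 - SS X Z F1 / 16| ≤ Vol X / Z := by
  obtain ⟨⟨X1, h1⟩, ⟨X2, h2⟩, ⟨X3, h3⟩, X4, h4⟩ := spins hSz
  refine ⟨X1 + X2 + X3 + X4, fun X Z hR hX => ?_⟩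
  have one : ∀ (s : S12) (v : V10), |(1 : ℝ)| ≤ 1 := fun _ _ => abs_one.le
  have ig1 : ∀ i (s : S12), Ig i fun _ => (1 : ℝ) := fun _ _ _ _ => rfl
  have hc : ∀ s : S12, |(-1 : ℝ) ^ (PS s).card| ≤ 1 := fun s => by simp
  have b1 : ∀ (s : S12) (v : V10), |(1 + 1 * jr v 7 3) / 2| ≤ 1 := fun s v => abs_half _ _ abs_one.le
  have b2 : ∀ (s : S12) (v : V10), |(1 + 1 * jr v 10 3) / 2| ≤ 1 := fun s v =>
    abs_half _ _ abs_one.le
  have g1 : ∀ s : S12, Ig 6 fun v => (1 + 1 * jr v 7 3) / 2 := fun s v t => by simp [jr, site]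
  have g2 : ∀ s : S12, Ig 7 fun v => (1 + 1 * jr v 10 3) / 2 := fun s v t => by simp [jr, site]
  have g3 : ∀ s : S12, Ig 7 fun v => (-1) ^ (PS s).card * ((1 + 1 * jr v 10 3) / 2) :=
    fun s v t => congrArg _ (g2 s v t)
  have a1 := h3 X Z hR (by omega) _ _ 0 one one (ig1 _) (ig1 _)
  have a2 := h4 X Z hR (by omega) _ _ 0 one one (ig1 _) (ig1 _)
  have a3 := h3 X Z hR (by omega) _ _ 1 one one (ig1 _) (ig1 _)
  have a4 := h1 X Z hR (by omega) _ _ 0 b2 b1 g2 g1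
  have a5 := h2 X Z hR (by omega) _ _ 0 (fun s v => abs_mul1 (hc s) (b2 s v)) b1 g3 g1
  have a6 := h1 X Z hR (by omega) _ _ 1 (fun s v => abs_mul1 (hc s) (b2 s v)) b1 g3 g1
  rw [abs_le] at a1 a2 a3 a4 a5 a6
  have e : SS X Z F0 = SS X Z fun s v => 1 / 16 * F1 s v +
      (1 / 16 * (F1 s v * (1 * 1 * (jacobiSym (site v 7 * site v 10 ^ 0) (site v 3).toNat : ℝ))) +
      (1 / 16 * (F1 s v * (1 * 1 * (jacobiSym (site v 10 * site v 7 ^ 0) (site v 3).toNat : ℝ))) +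
      (1 / 16 * (F1 s v * (1 * 1 * (jacobiSym (site v 7 * site v 10 ^ 1) (site v 3).toNat : ℝ))) +
      (1 / 4 * (F1 s v * ((1 + 1 * jr v 10 3) / 2 * ((1 + 1 * jr v 7 3) / 2) *
        (jacobiSym (site v 6 * site v 10 ^ 0) (site v 2).toNat : ℝ))) +
      (1 / 4 * (F1 s v * ((-1) ^ (PS s).card * ((1 + 1 * jr v 10 3) / 2) * ((1 + 1 * jr v 7 3) / 2) *
        (jacobiSym (site v 10 * site v 6 ^ 0) (site v 2).toNat : ℝ))) +
      1 / 4 * (F1 s v * ((-1) ^ (PS s).card * ((1 + 1 * jr v 10 3) / 2) * ((1 + 1 * jr v 7 3) / 2) *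
        (jacobiSym (site v 6 * site v 10 ^ 1) (site v 2).toNat : ℝ)))))))) := by
    refine sum_congr rfl fun s hs => sum_congr rfl fun v hv => ?_
    rw [F0_eq hSz hR hs hv]
    simp only [pow_zero, pow_one, mul_one, jacobiSym.mul_left, Int.cast_mul, jr]
    ring
  simp only [SS_add, SS_mul] at e
  have z2 : (2 : ℝ) ≤ Z := by exact_mod_cast hR.z2
  have V0 : 0 ≤ Vol X := card_Box X ▸ Nat.cast_nonneg _
  have z3 : Vol X / Z ^ 2 ≤ Vol X / Z :=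
    div_le_div_of_nonneg_left V0 (by linarith) (by nlinarith)
  have z4 : 0 ≤ Vol X / Z ^ 2 := by positivity
  rw [e, abs_le]
  constructor <;> linarith [a1.1, a1.2, a2.1, a2.2, a3.1, a3.2, a4.1, a4.2, a5.1, a5.2, a6.1, a6.2]

end Pool.Agent.MP_e23604_nt.U.CSJ

end
end
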