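import Mathlib
import Pool.Agent.MP_f68ac8_nt.NaAux

set_option linter.all false

section

namespace Pool.Agent.MP_f68ac8_nt.Nd

open NumberField NumberField.InfinitePlace NumberField.mixedEmbedding NumberField.Units
  NumberField.Units.dirichletUnitTheorem MeasureTheory
open MP_14ad9d_nt.Full MP_14ad9d_nt.Full.EDAux MP_d64882_nt
open scoped Classical

theorem re_inv_nonneg_NaOne (w : ℂ) (h : 0 ≤ w.re) : 0 ≤ (1 / w).re := by
  rw [one_div, Complex.inv_re]
  exact div_nonneg h (Complex.normSq_nonneg w)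

theorem re_inv_lower_NaOne (w : ℂ) (a b : ℝ) (ha : 0 < a) (h1 : a ≤ w.re) (h2 : ‖w‖ ≤ b) :
    a / b ^ 2 ≤ (1 / w).re := by
  have hw : 0 < ‖w‖ := lt_of_lt_of_le (lt_of_lt_of_le ha h1) (Complex.re_le_norm w)
  rw [one_div, Complex.inv_re, Complex.normSq_eq_norm_sq]
  exact div_le_div₀ (le_trans ha.le h1) h1 (pow_pos hw 2) (pow_le_pow_left₀ hw.le h2 2)

theorem sum_re_lower_NaOne (f : ℂ → ℂ) (m : ℝ) (Z : Multiset ℂ)
    (h : ∀ z ∈ Z, m ≤ (f z).re) : (Multiset.card Z : ℝ) * m ≤ ((Z.map f).sum).re := by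
  induction Z using Multiset.induction_on with
  | empty => simp
  | cons a s ih =>
    have h1 := h a (Multiset.mem_cons_self a s)
    have h2 := ih fun z hz => h z (Multiset.mem_cons_of_mem hz)
    rw [Multiset.map_cons, Multiset.sum_cons, Multiset.card_cons, Complex.add_re]
    push_cast
    linarith

theorem norm_sum_le_NaOne (f : ℂ → ℂ) (B : ℝ) (Z : Multiset ℂ)
    (h : ∀ z ∈ Z, ‖f z‖ ≤ B) : ‖(Z.map f).sum‖ ≤ (Multiset.card Z : ℝ) * B := by
  induction Z using Multiset.induction_on with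
  | empty => simp
  | cons a s ih =>
    have h1 := h a (Multiset.mem_cons_self a s)
    have h2 := ih fun z hz => h z (Multiset.mem_cons_of_mem hz)
    rw [Multiset.map_cons, Multiset.sum_cons, Multiset.card_cons]
    have h3 := norm_add_le (f a) (s.map f).sum
    push_cast
    linarith

theorem norm_far_NaOne (σ : ℝ) (z : ℂ) (hσ : 1 ≤ σ) (hz : z.re ≤ 1) :
    ‖z - 1‖ ≤ ‖(σ : ℂ) - z‖ := by
  refine (pow_le_pow_iff_left₀ (norm_nonneg _) (norm_nonneg _) two_ne_zero).1 ?_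
  rw [← Complex.normSq_eq_norm_sq, ← Complex.normSq_eq_norm_sq, Complex.normSq_apply,
    Complex.normSq_apply]
  simp only [Complex.sub_re, Complex.sub_im, Complex.one_re, Complex.one_im, Complex.ofReal_re,
    Complex.ofReal_im]
  nlinarith [mul_nonneg (sub_nonneg.2 hσ) (sub_nonneg.2 hz), sq_nonneg (σ - 1)]

theorem mem_ball_NaOne (σ r : ℝ) (h1 : 1 < σ) (h2 : σ - 1 < r) :
    (σ : ℂ) ∈ Metric.ball (1 : ℂ) r := by
  rw [Metric.mem_ball, dist_eq_norm, ← Complex.ofReal_one, ← Complex.ofReal_sub,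
    Complex.norm_real, Real.norm_eq_abs, abs_of_pos (sub_pos.2 h1)]
  exact h2

/-- at most one element of `Z` lies near one -/
theorem card_le_NaOne (c C M : ℝ) (L : ℂ) (Z₀ Z₁ : Multiset ℂ) (hc : 0 < c) (hM : 1 ≤ M)
    (hcC : 20 * c * C ≤ 1) (h0 : ∀ z ∈ Z₀, z.re ≤ 1 ∧ ‖z - 1‖ ≤ c / M) (h1 : ∀ z ∈ Z₁, z.re ≤ 1)
    (hL : 0 ≤ L.re)
    (hb : ‖L - 1 / (((1 + 10 * c / M : ℝ) : ℂ) - 1) +
      ((Z₀ + Z₁).map fun z => 1 / (((1 + 10 * c / M : ℝ) : ℂ) - z)).sum‖ ≤ C * M) :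
    Multiset.card Z₀ ≤ 1 := by
  by_contra hcard
  have hcard2 : (2 : ℝ) ≤ Multiset.card Z₀ := by exact_mod_cast (show 2 ≤ Multiset.card Z₀ by omega)
  have hM0 : 0 < M := lt_of_lt_of_le one_pos hM
  have ha : 0 < 10 * c / M := by positivity
  set σ : ℝ := 1 + 10 * c / M with hσ
  have e0 : (Multiset.card Z₀ : ℝ) * ((10 * c / M) / (11 * c / M) ^ 2) ≤
      ((Z₀.map fun z => 1 / ((σ : ℂ) - z)).sum).re := by
    refine sum_re_lower_NaOne _ _ _ fun z hz => re_inv_lower_NaOne _ _ _ ha ?_ ?_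
    · rw [Complex.sub_re, Complex.ofReal_re]
      linarith [(h0 z hz).1]
    · have e : (σ : ℂ) - z = ((10 * c / M : ℝ) : ℂ) - (z - 1) := by
        rw [hσ, Complex.ofReal_add, Complex.ofReal_one]; ring
      rw [e]
      refine le_trans (norm_sub_le _ _) ?_
      rw [Complex.norm_real, Real.norm_eq_abs, abs_of_pos ha]
      have e2 : 11 * c / M = 10 * c / M + c / M := by ring
      linarith [(h0 z hz).2]
  have e1 : (Multiset.card Z₁ : ℝ) * 0 ≤ ((Z₁.map fun z => 1 / ((σ : ℂ) - z)).sum).re := by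
    refine sum_re_lower_NaOne _ _ _ fun z hz => re_inv_nonneg_NaOne _ ?_
    rw [Complex.sub_re, Complex.ofReal_re]
    linarith [h1 z hz]
  have e2 : (1 / ((σ : ℂ) - 1)).re = M / (10 * c) := by
    have e : (σ : ℂ) - 1 = ((10 * c / M : ℝ) : ℂ) := by
      rw [hσ, Complex.ofReal_add, Complex.ofReal_one]; ring
    rw [e, ← Complex.ofReal_one, ← Complex.ofReal_div, Complex.ofReal_re, one_div_div]
  have e3 := le_trans (Complex.re_le_norm _) hb
  rw [Multiset.map_add, Multiset.sum_add, Complex.add_re, Complex.add_re, Complex.sub_re, e2] at e3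
  have e4 : (10 * c / M) / (11 * c / M) ^ 2 = (10 / 121) * (M / c) := by
    field_simp
    norm_num
  have e5 : M / (10 * c) = (1 / 10) * (M / c) := by
    field_simp
  have e6 : C * M ≤ (1 / 20) * (M / c) := by
    have : C * M = (c * C) * (M / c) := by field_simp
    rw [this]
    exact mul_le_mul_of_nonneg_right (by linarith) (by positivity)
  have hq : 0 < M / c := by positivity
  rw [e4] at e0
  rw [e5] at e3
  nlinarith [mul_le_mul_of_nonneg_right hcard2 hq.le]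

/-- the main estimate, with the near part `S` kept -/
theorem est_NaOne (c C C' M σ : ℝ) (L P R S : ℂ) (Z₁ : Multiset ℂ) (hc : 0 < c) (hC : 0 < C)
    (hC' : 0 < C') (hM : 1 ≤ M) (hσ : 1 < σ) (hcard : (Multiset.card Z₁ : ℝ) ≤ C * M)
    (h1 : ∀ z ∈ Z₁, z.re ≤ 1 ∧ c / M < ‖z - 1‖) (hR : ‖R‖ ≤ C') (hLP : L = P + R)
    (hb : ‖L - 1 / ((σ : ℂ) - 1) + (S + (Z₁.map fun z => 1 / ((σ : ℂ) - z)).sum)‖ ≤ C * M) :
    ‖((σ : ℂ) - 1) * P - 1 + ((σ : ℂ) - 1) * S‖ ≤ (C + C' + C / c) * (σ - 1) * M ^ 2 := by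
  have hM0 : 0 < M := lt_of_lt_of_le one_pos hM
  have hs : 0 < σ - 1 := sub_pos.2 hσ
  have hne : (σ : ℂ) - 1 ≠ 0 := by
    rw [← Complex.ofReal_one, ← Complex.ofReal_sub]
    exact Complex.ofReal_ne_zero.2 hs.ne'
  have hn : ‖(σ : ℂ) - 1‖ = σ - 1 := by
    rw [← Complex.ofReal_one, ← Complex.ofReal_sub, Complex.norm_real, Real.norm_eq_abs,
      abs_of_pos hs]
  have e1 : ‖(Z₁.map fun z => 1 / ((σ : ℂ) - z)).sum‖ ≤ (Multiset.card Z₁ : ℝ) * (M / c) := by
    refine norm_sum_le_NaOne _ _ _ fun z hz => ?_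
    have h2 := lt_of_lt_of_le (h1 z hz).2 (norm_far_NaOne σ z hσ.le (h1 z hz).1)
    rw [norm_div, norm_one, ← one_div_div c M]
    exact one_div_le_one_div_of_le (by positivity) h2.le
  have e2 : ‖(Z₁.map fun z => 1 / ((σ : ℂ) - z)).sum‖ ≤ C / c * M ^ 2 := by
    refine le_trans e1 (le_trans (mul_le_mul_of_nonneg_right hcard (by positivity)) (le_of_eq ?_))
    ring
  set T := (Z₁.map fun z => 1 / ((σ : ℂ) - z)).sum with hT
  have e3 : ((σ : ℂ) - 1) * P - 1 + ((σ : ℂ) - 1) * S =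
      ((σ : ℂ) - 1) * ((L - 1 / ((σ : ℂ) - 1) + (S + T)) - R - T) := by
    rw [hLP]
    field_simp
    ring
  have e4 : ‖(L - 1 / ((σ : ℂ) - 1) + (S + T)) - R - T‖ ≤ (C + C' + C / c) * M ^ 2 := by
    have a1 := norm_sub_le ((L - 1 / ((σ : ℂ) - 1) + (S + T)) - R) T
    have a2 := norm_sub_le (L - 1 / ((σ : ℂ) - 1) + (S + T)) R
    have a3 : M ≤ M ^ 2 := by nlinarith
    have a4 : 1 ≤ M ^ 2 := le_trans hM a3
    have a5 := mul_le_mul_of_nonneg_left a3 hC.le
    have a6 := mul_le_mul_of_nonneg_left a4 hC'.le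
    nlinarith
  rw [e3, norm_mul, hn]
  refine le_trans (mul_le_mul_of_nonneg_left e4 hs.le) (le_of_eq ?_)
  ring

theorem one_stmt (hE : EulStmt) (hL : LocStmt) : OneStmt := by
  intro N
  obtain ⟨r, C, hr, -, hC, hL⟩ := hL N
  obtain ⟨C', hC', hE⟩ := hE N
  obtain ⟨c, hc, hcr, hcC⟩ : ∃ c : ℝ, 0 < c ∧ 11 * c < r ∧ 20 * c * C ≤ 1 := by
    refine ⟨min (r / 12) (1 / (20 * C)), lt_min (by positivity) (by positivity), ?_, ?_⟩
    · linarith [min_le_left (r / 12) (1 / (20 * C))]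
    · have h1 := min_le_right (r / 12) (1 / (20 * C))
      rw [le_div_iff₀ (by positivity)] at h1
      linarith
  refine ⟨c, C + C' + C / c + 1, hc, by positivity, fun E _ _ hN M hM hB => ?_⟩
  obtain ⟨-, Z, hcard, hZ, hloc⟩ := hL E hN M hM hB
  obtain ⟨-, hpos, R, -, hR, hLP⟩ := hE E hN
  have hM0 : 0 < M := lt_of_lt_of_le one_pos hM
  have hcM : c / M ≤ c := div_le_self hc.le hM
  obtain ⟨Z₀, Z₁, hsplit, h0, h1⟩ : ∃ Z₀ Z₁ : Multiset ℂ, Z₀ + Z₁ = Z ∧
      (∀ z ∈ Z₀, ‖z - 1‖ ≤ c / M) ∧ ∀ z ∈ Z₁, c / M < ‖z - 1‖ :=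
    ⟨Z.filter fun z => ‖z - 1‖ ≤ c / M, Z.filter fun z => ¬ ‖z - 1‖ ≤ c / M,
      Multiset.filter_add_not _ _, fun z hz => (Multiset.mem_filter.1 hz).2,
      fun z hz => not_le.1 (Multiset.mem_filter.1 hz).2⟩
  subst hsplit
  have hZ0 : ∀ z ∈ Z₀, FE E z = 0 ∧ z.re ≤ 1 := fun z hz =>
    hZ z (Multiset.mem_add.2 (Or.inl hz))
  have hZ1 : ∀ z ∈ Z₁, z.re ≤ 1 := fun z hz => (hZ z (Multiset.mem_add.2 (Or.inr hz))).2
  have hle : Multiset.card Z₀ ≤ 1 := by
    have ha : 0 < 10 * c / M := by positivity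
    have hb : 10 * c / M ≤ 10 * c := div_le_self (by positivity) hM
    have hσ : (1 : ℝ) < 1 + 10 * c / M := by linarith
    refine card_le_NaOne c C M (LE E ((1 + 10 * c / M : ℝ) : ℂ)) Z₀ Z₁ hc hM hcC
      (fun z hz => ⟨(hZ0 z hz).2, h0 z hz⟩) hZ1 (hpos _ hσ).2.1 ?_
    exact (hloc _ (mem_ball_NaOne _ r hσ (by linarith))).2.2 (by rwa [Complex.ofReal_re])
  have hzero : ∀ s : ℂ, ‖s - 1‖ ≤ c / M → FE E s = 0 → s ∈ Z₀ := by
    intro s hs hF
    have hb : s ∈ Metric.ball (1 : ℂ) r := by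
      rw [Metric.mem_ball, dist_eq_norm]
      linarith
    rcases Multiset.mem_add.1 ((hloc s hb).1 hF) with h | h
    · exact h
    · exact absurd hs (not_le.2 (h1 s h))
  have hest : ∀ σ : ℝ, 1 < σ → σ ≤ 1 + c →
      ‖((σ : ℂ) - 1) * P1 E σ - 1 + ((σ : ℂ) - 1) * (Z₀.map fun z => 1 / ((σ : ℂ) - z)).sum‖ ≤
        (C + C' + C / c) * (σ - 1) * M ^ 2 := by
    intro σ hσ hσc
    have hre : 1 < (σ : ℂ).re := by rwa [Complex.ofReal_re]
    have hb := (hloc _ (mem_ball_NaOne σ r hσ (by linarith))).2.2 hre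
    rw [Multiset.map_add, Multiset.sum_add] at hb
    refine est_NaOne c C C' M σ (LE E σ) (P1 E σ) (R σ) _ Z₁ hc hC hC' hM hσ ?_
      (fun z hz => ⟨hZ1 z hz, h1 z hz⟩) (hR _ (by linarith)) (hLP _ hre) hb
    refine le_trans ?_ hcard
    rw [Multiset.card_add]
    exact_mod_cast Nat.le_add_left _ _
  have hM2 : 1 ≤ M ^ 2 := by nlinarith
  rcases Nat.le_one_iff_eq_zero_or_eq_one.1 hle with h | h
  · rw [Multiset.card_eq_zero] at h
    subst h
    refine ⟨0, by simp, Or.inl rfl, fun s hs hF => absurd (hzero s hs hF) (by simp),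
      fun σ hσ hσc => ?_⟩
    have e1 := hest σ hσ hσc
    rw [Multiset.map_zero, Multiset.sum_zero, mul_zero, add_zero] at e1
    have hs : 0 < σ - 1 := sub_pos.2 hσ
    have e2 : ‖((σ : ℂ) - 1) / ((σ : ℂ) - 0)‖ ≤ σ - 1 := by
      rw [sub_zero, ← Complex.ofReal_one, ← Complex.ofReal_sub, ← Complex.ofReal_div,
        Complex.norm_real, Real.norm_eq_abs, abs_of_pos (div_pos hs (by linarith))]
      exact div_le_self hs.le hσ.le
    refine le_trans (norm_add_le _ _) ?_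
    nlinarith [mul_le_mul_of_nonneg_left hM2 hs.le]
  · obtain ⟨z, rfl⟩ := Multiset.card_eq_one.1 h
    have hz := hZ0 z (Multiset.mem_singleton_self z)
    refine ⟨z, hz.2, Or.inr hz.1, fun s hs hF => Multiset.mem_singleton.1 (hzero s hs hF),
      fun σ hσ hσc => ?_⟩
    have e1 := hest σ hσ hσc
    rw [Multiset.map_singleton, Multiset.sum_singleton, mul_one_div] at e1
    have hs : 0 < σ - 1 := sub_pos.2 hσ
    nlinarith [mul_le_mul_of_nonneg_left hM2 hs.le]

end Pool.Agent.MP_f68ac8_nt.Nd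

end

section

namespace Pool.Agent.MP_f68ac8_nt.Nd
open NumberField NumberField.InfinitePlace NumberField.mixedEmbedding NumberField.Units
  NumberField.Units.dirichletUnitTheorem MeasureTheory
open MP_14ad9d_nt.Full MP_14ad9d_nt.Full.EDAux MP_d64882_nt
open scoped Classical

theorem key_NaWin (hD : FdStmt) {G D : ℂ → ℂ} {a z : ℂ} {r h M : ℝ} {k : ℕ}
    (hG : DifferentiableOn ℂ G (Metric.ball a (2 * r)))
    (hM : ∀ s ∈ Metric.ball a (2 * r), ‖G s‖ ≤ M)
    (hd : ∀ s ∈ Metric.ball a (2 * r), 1 < s.re → HasDerivAt D (G s) s)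
    (h0 : 0 < h) (hr : 4 * (k + 1) * h ≤ r) (hz : ‖z - a‖ ≤ r) (hz1 : 1 < z.re) :
    ‖(fwdDiff (h : ℂ))^[k + 1] D z‖ ≤ M * h * (4 * (k + 1) * h / r) ^ k := by
  obtain ⟨g, hg⟩ := hG.isExactOn_ball
  have hk : (0 : ℝ) < (k + 1) * h := by positivity
  have hsub : Metric.ball z r ⊆ Metric.ball a (2 * r) :=
    Metric.ball_subset_ball' (by rw [dist_eq_norm]; linarith)
  have h1 := hD g z r h M k h0 hr
    (fun s hs => (hg s (hsub hs)).differentiableAt.differentiableWithinAt)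
    fun s hs => by rw [(hg s (hsub hs)).deriv]; exact hM s (hsub hs)
  have ho : IsOpen (Metric.ball a (2 * r) ∩ {s : ℂ | 1 < s.re}) :=
    Metric.isOpen_ball.inter (isOpen_lt continuous_const Complex.continuous_re)
  obtain ⟨c, hc⟩ := ho.exists_eq_add_of_deriv_eq (f := g) (g := D)
    ((convex_ball _ _).inter (convex_halfSpace_re_gt 1)).isPreconnected
    (fun s hs => (hg s hs.1).differentiableAt.differentiableWithinAt)
    (fun s hs => (hd s hs.1 hs.2).differentiableAt.differentiableWithinAt)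
    fun s hs => by rw [(hg s hs.1).deriv, (hd s hs.1 hs.2).deriv]
  have e1 : (fwdDiff (h : ℂ))^[k + 1] g z = (fwdDiff (h : ℂ))^[k + 1] (D + fun _ => c) z := by
    rw [fwdDiff_iter_eq_sum_shift, fwdDiff_iter_eq_sum_shift]
    refine Finset.sum_congr rfl fun j hj => congrArg _ (hc ⟨hsub ?_, ?_⟩)
    · have hj' : (j : ℝ) ≤ k + 1 := by exact_mod_cast Nat.lt_succ_iff.1 (Finset.mem_range.1 hj)
      rw [mem_ball_iff_norm, add_sub_cancel_left, nsmul_eq_mul, norm_mul, Complex.norm_natCast,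
        Complex.norm_real, Real.norm_of_nonneg h0.le]
      have := mul_le_mul_of_nonneg_right hj' h0.le
      linarith
    · have : (0 : ℝ) ≤ j * h := by positivity
      simp only [Set.mem_ofPred_eq, nsmul_eq_mul, Complex.add_re, Complex.mul_re, Complex.natCast_re,
        Complex.ofReal_re, Complex.natCast_im, Complex.ofReal_im, mul_zero, sub_zero]
      linarith
  have e2 : (fwdDiff (h : ℂ))^[k + 1] (fun _ : ℂ => c) = fun _ => 0 := by
    rw [Function.iterate_succ_apply, fwdDiff_const]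
    exact Function.iterate_fixed (fwdDiff_const _ _) k
  rwa [e1, fwdDiff_iter_add, e2, Pi.add_apply, add_zero] at h1

theorem sum_NaWin {s : ℂ} (hS : Summable fun l : ℕ => ‖pw s l‖) {a : ℕ → ℂ} {A : ℝ}
    (ha : ∀ l, l.Prime → ‖a l‖ ≤ A) : Summable fun l => a l * pw s l := by
  refine Summable.of_norm_bounded (hS.mul_left A) fun l => ?_
  rw [norm_mul]
  by_cases h : l.Prime
  · exact mul_le_mul_of_nonneg_right (ha l h) (norm_nonneg _)
  · simp [pw, h]

theorem ser_NaWin (hS : ∀ s : ℂ, 1 < s.re → Summable fun l : ℕ => ‖pw s l‖) {h A : ℝ}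
    (h0 : 0 < h) {z : ℂ} (hz : 1 < z.re) (n : ℕ) : ∀ (a : ℕ → ℂ) (D : ℂ → ℂ),
    (∀ l, l.Prime → ‖a l‖ ≤ A) → (∀ s : ℂ, 1 < s.re → D s = ∑' l, a l * pw s l) →
    (fwdDiff (h : ℂ))^[n] D z = ∑' l, a l * (((l : ℝ) ^ (-h) - 1 : ℝ) : ℂ) ^ n * pw z l := by
  induction n with
  | zero =>
    intro a D _ hD
    simpa using hD z hz
  | succ n ih =>
    intro a D ha hD
    rw [Function.iterate_succ_apply, ih (fun l => a l * (((l : ℝ) ^ (-h) - 1 : ℝ) : ℂ)) _
      (fun l hl => ?_) fun s hs => ?_]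
    · exact tsum_congr fun l => by ring
    · have h1 : (1 : ℝ) ≤ l := by exact_mod_cast hl.one_le
      have h2 := Real.rpow_le_one_of_one_le_of_nonpos h1 (neg_nonpos.2 h0.le)
      have h3 := Real.rpow_nonneg (zero_le_one.trans h1) (-h)
      rw [norm_mul, Complex.norm_real, Real.norm_eq_abs]
      exact (mul_le_of_le_one_right (norm_nonneg _) (abs_le.2 ⟨by linarith, by linarith⟩)).trans
        (ha l hl)
    · have hs' : 1 < (s + h).re := by
        rw [Complex.add_re, Complex.ofReal_re]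
        linarith
      rw [fwdDiff, hD _ hs', hD _ hs, ← (sum_NaWin (hS _ hs') ha).tsum_sub (sum_NaWin (hS _ hs) ha)]
      refine tsum_congr fun l => ?_
      by_cases hl : l.Prime
      · have h1 : (l : ℂ) ≠ 0 := by exact_mod_cast hl.ne_zero
        simp only [pw, if_pos hl]
        rw [neg_add, Complex.cpow_add _ _ h1, Complex.ofReal_sub,
          Complex.ofReal_cpow l.cast_nonneg, Complex.ofReal_natCast, Complex.ofReal_neg,
          Complex.ofReal_one]
        ring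
      · simp [pw, hl]

theorem term_NaWin (s h τ : ℝ) (k l : ℕ) :
    (((l : ℝ) ^ (-h) - 1 : ℝ) : ℂ) ^ (k + 1) * pw (s + (-τ : ℝ) * Complex.I) l =
      (-1) ^ (k + 1) * ((wl s h k l : ℝ) * tw τ l) := by
  by_cases hl : l.Prime
  · have h1 : (l : ℂ) ≠ 0 := by exact_mod_cast hl.ne_zero
    have e : (l : ℂ) ^ (-((-τ : ℝ) * Complex.I)) = tw τ l := by
      rw [tw, Complex.cpow_def_of_ne_zero h1, Complex.natCast_log]
      congr 1
      push_cast
      ring
    simp only [pw, wl, if_pos hl]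
    rw [neg_add, Complex.cpow_add _ _ h1, e, Complex.ofReal_mul, Complex.ofReal_pow,
      Complex.ofReal_cpow l.cast_nonneg (-s), Complex.ofReal_natCast, Complex.ofReal_neg,
      ← neg_sub 1 ((l : ℝ) ^ (-h)), Complex.ofReal_neg, neg_pow]
    ring
  · simp [pw, wl, hl]

theorem ld_NaWin {F Z : ℂ → ℂ} {s : ℂ} (hs : 1 < s.re)
    (h : ∀ s : ℂ, 1 < s.re → F s = (1 - Complex.exp (1 - s)) * Z s) (h0 : F s ≠ 0)
    (hZ : DifferentiableAt ℂ Z s) :
    logDeriv F s = logDeriv (fun s => 1 - Complex.exp (1 - s)) s + logDeriv Z s := by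
  have e : F =ᶠ[nhds s] fun s => (1 - Complex.exp (1 - s)) * Z s :=
    Filter.eventually_of_mem ((isOpen_lt continuous_const Complex.continuous_re).mem_nhds hs) h
  rw [h s hs] at h0
  rw [(logDeriv_congr_nhds e).eq_of_nhds]
  exact logDeriv_mul s (left_ne_zero_of_mul h0) (right_ne_zero_of_mul h0) (by fun_prop) hZ

theorem win_stmt (hC : ContStmt) (hE : EulStmt) (hP : PsumStmt) (hD : FdStmt) (hF : FreeStmt) :
    WinStmt := by
  intro N
  obtain ⟨_, hC⟩ := hC N
  obtain ⟨C₀, p0, hE⟩ := hE N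
  obtain ⟨c, C₁, pc, c8, p1, hF⟩ := hF N
  obtain ⟨hS, -, hP⟩ := hP
  refine ⟨c, pc, fun k => ⟨8 * (k + 1) / c + (2 * C₁ + 2 * C₀) * (8 * (k + 1) / c) ^ k,
    by positivity, ?_⟩⟩
  intro E E' _ _ _ _ hN hN' M ρ h s τ hM hB hB' hρ hρc hg hg' h0 hh hs hs' hτ
  have hτ' : |-τ| ≤ c := by rwa [abs_neg]
  obtain ⟨d1, f1⟩ := hF E hN M ρ hM hB hρ hρc hg (-τ) hτ'
  obtain ⟨d2, f2⟩ := hF E' hN' M ρ hM hB' hρ hρc hg' (-τ) hτ'
  obtain ⟨z1, -, R, r1, r2, r3⟩ := hE E hN
  obtain ⟨z2, -, R', r1', r2', r3'⟩ := hE E' hN'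
  have hρ1 : ρ ≤ c := hρc.trans (div_le_self pc.le hM)
  have hk : (0 : ℝ) ≤ k := k.cast_nonneg
  have hr : 4 * (k + 1) * h ≤ c * ρ / 2 := by
    have h1 : 8 * (k + 1) / c * h ≤ ρ :=
      (mul_le_mul_of_nonneg_right (le_add_of_nonneg_right (by positivity)) h0.le).trans hh
    rw [div_mul_eq_mul_div, div_le_iff₀ pc] at h1
    linarith
  have hsub : ∀ w ∈ Metric.ball (1 + ((-τ : ℝ) : ℂ) * Complex.I) (c * ρ), 3 / 4 < w.re := by
    intro w hw
    have h1 := (Complex.abs_re_le_norm _).trans_lt (mem_ball_iff_norm.1 hw)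
    simp only [Complex.sub_re, Complex.add_re, Complex.one_re, Complex.mul_re, Complex.ofReal_re,
      Complex.I_re, mul_zero, Complex.ofReal_im, Complex.I_im, mul_one, sub_self, add_zero] at h1
    have h2 : c * ρ ≤ 1 / 8 := by nlinarith
    linarith [(abs_lt.1 h1).1]
  have hz : 1 < ((s : ℂ) + (-τ : ℝ) * Complex.I).re := by simpa using hs
  have e2 : 2 * (c * ρ / 2) = c * ρ := by ring
  have key := key_NaWin hD (G := fun w => logDeriv (FE E) w - logDeriv (FE E') w + R w - R' w)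
    (D := fun w => P0 E w - P0 E' w) (a := 1 + ((-τ : ℝ) : ℂ) * Complex.I)
    (z := s + (-τ : ℝ) * Complex.I) (r := c * ρ / 2) (h := h) (M := (2 * C₁ + 2 * C₀) * M / ρ)
    (k := k) (by
      rw [e2]
      exact ((((d1.deriv Metric.isOpen_ball).div d1 fun w hw => (f1 w hw).1).sub
        ((d2.deriv Metric.isOpen_ball).div d2 fun w hw => (f2 w hw).1)).add
          (r1.mono hsub)).sub (r1'.mono hsub))
    (by
      rw [e2]
      intro w hw
      have h1 : C₀ ≤ C₀ * M / ρ := by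
        rw [le_div_iff₀ hρ]
        exact mul_le_mul_of_nonneg_left (by linarith) p0.le
      have h2 := (norm_sub_le _ _).trans (add_le_add ((norm_add_le _ _).trans (add_le_add
        ((norm_sub_le _ _).trans (add_le_add (f1 w hw).2 (f2 w hw).2))
        ((r2 w (hsub w hw)).trans h1))) ((r2' w (hsub w hw)).trans h1))
      refine h2.trans (le_of_eq ?_)
      ring)
    (by
      rw [e2]
      intro w hw hw1
      have a1 := ld_NaWin hw1 (hC E hN).2.2.1 (f1 w hw).1 (z1 w hw1).2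
      have a2 := ld_NaWin hw1 (hC E' hN').2.2.1 (f2 w hw).1 (z2 w hw1).2
      have a3 := r3 w hw1
      have a4 := r3' w hw1
      rw [LE] at a3 a4
      have e : logDeriv (FE E) w - logDeriv (FE E') w + R w - R' w = -P1 E w - -P1 E' w := by
        linear_combination a1 - a2 - a3 + a4
      rw [e]
      exact ((hP E).2.2 w hw1).sub ((hP E').2.2 w hw1))
    h0 hr (by
      rw [add_sub_add_right_eq_sub, ← Complex.ofReal_one, ← Complex.ofReal_sub, Complex.norm_real,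
        Real.norm_of_nonneg (by linarith)]
      nlinarith) hz
  have b1 : ∀ l, l.Prime → ‖(cnt E l : ℂ)‖ ≤ N := fun l hl => by
    rw [Complex.norm_natCast]
    exact_mod_cast ((hP E).1 l hl).trans hN
  have b2 : ∀ l, l.Prime → ‖(cnt E' l : ℂ)‖ ≤ N := fun l hl => by
    rw [Complex.norm_natCast]
    exact_mod_cast ((hP E').1 l hl).trans hN'
  rw [ser_NaWin (fun s hs => (hS s hs).1) (A := N + N) h0 hz (k + 1)
    (fun l => (cnt E l : ℂ) - cnt E' l) _
    (fun l hl => (norm_sub_le _ _).trans (add_le_add (b1 l hl) (b2 l hl))) fun w hw => by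
      rw [P0, P0, ← (sum_NaWin (hS w hw).1 b1).tsum_sub (sum_NaWin (hS w hw).1 b2)]
      exact tsum_congr fun l => (sub_mul _ _ _).symm] at key
  have e3 : ∀ l : ℕ, ((cnt E l : ℂ) - cnt E' l) * (((l : ℝ) ^ (-h) - 1 : ℝ) : ℂ) ^ (k + 1) *
      pw (s + (-τ : ℝ) * Complex.I) l =
      (-1) ^ (k + 1) * (((cnt E l : ℂ) - cnt E' l) * (wl s h k l : ℝ) * tw τ l) := fun l => by
    rw [mul_assoc, term_NaWin]
    ring
  rw [tsum_congr e3, tsum_mul_left, norm_mul, norm_pow, norm_neg, norm_one, one_pow,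
    one_mul] at key
  refine key.trans ?_
  have e4 : 4 * (k + 1) * h / (c * ρ / 2) = 8 * (k + 1) / c * (h / ρ) := by
    field_simp
    ring
  rw [e4, mul_pow]
  calc _ = (2 * C₁ + 2 * C₀) * (8 * (k + 1) / c) ^ k * M * (h / ρ) ^ (k + 1) := by ring
    _ ≤ _ := mul_le_mul_of_nonneg_right (mul_le_mul_of_nonneg_right
      (le_add_of_nonneg_left (by positivity)) (by linarith)) (by positivity)

end Pool.Agent.MP_f68ac8_nt.Nd

end

section

namespace Pool.Agent.MP_f68ac8_nt.Nd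
open NumberField NumberField.InfinitePlace NumberField.mixedEmbedding NumberField.Units
  NumberField.Units.dirichletUnitTheorem MeasureTheory
open MP_14ad9d_nt.Full MP_14ad9d_nt.Full.EDAux MP_d64882_nt
open scoped Classical

theorem prod_NaLandau (Z : Multiset ℂ) {s s₀ : ℂ} (h : ∀ z ∈ Z, 2 * ‖s₀ - z‖ ≤ ‖s - z‖) :
    2 ^ Multiset.card Z * ‖(Z.map fun z => s₀ - z).prod‖ ≤ ‖(Z.map fun z => s - z).prod‖ := by
  induction Z using Multiset.induction_on with
  | empty => simp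
  | cons a Z ih =>
    simp only [Multiset.map_cons, Multiset.prod_cons, Multiset.card_cons, norm_mul]
    have h1 := ih fun z hz => h z (Multiset.mem_cons_of_mem hz)
    have h2 := h a (Multiset.mem_cons_self a Z)
    calc _ = 2 * ‖s₀ - a‖ * (2 ^ Multiset.card Z * ‖(Z.map fun z => s₀ - z).prod‖) := by ring
      _ ≤ _ := mul_le_mul h2 h1 (by positivity) (norm_nonneg _)

theorem diff_NaLandau (Z : Multiset ℂ) :
    Differentiable ℂ fun s : ℂ => (Z.map fun z => s - z).prod := by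
  induction Z using Multiset.induction_on with
  | empty => simp
  | cons a Z ih =>
    simp only [Multiset.map_cons, Multiset.prod_cons]
    exact (differentiable_id.sub_const a).mul ih

theorem log_NaLandau (Z : Multiset ℂ) {s : ℂ} (h : (Z.map fun z => s - z).prod ≠ 0) :
    logDeriv (fun s : ℂ => (Z.map fun z => s - z).prod) s = (Z.map fun z => 1 / (s - z)).sum := by
  induction Z using Multiset.induction_on with
  | empty => simp
  | cons a Z ih =>
    simp only [Multiset.map_cons, Multiset.prod_cons, Multiset.sum_cons] at h ⊢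
    rw [logDeriv_mul (f := fun s : ℂ => s - a) s (left_ne_zero_of_mul h) (right_ne_zero_of_mul h)
      (by fun_prop) (diff_NaLandau Z s), ih (right_ne_zero_of_mul h), logDeriv_apply]
    simp

theorem stage_NaLandau {f g : ℂ → ℂ} {s₀ : ℂ} {R M : ℝ} (hR : 0 < R) (h0 : f s₀ ≠ 0)
    (hb : ∀ s ∈ Metric.ball s₀ R, ‖f s‖ ≤ Real.exp M * ‖f s₀‖) {Z : Multiset ℂ}
    (hg : DifferentiableOn ℂ g (Metric.ball s₀ R)) (hZ : ∀ z ∈ Z, ‖z - s₀‖ < R / 4)
    (hf : ∀ s ∈ Metric.ball s₀ R, f s = (Z.map fun z => s - z).prod * g s) :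
    ∀ s ∈ Metric.closedBall s₀ (3 * R / 4),
      2 ^ Multiset.card Z * ‖g s‖ ≤ Real.exp M * ‖g s₀‖ := by
  intro s hs
  have hsub : Metric.closedBall s₀ (3 * R / 4) ⊆ Metric.ball s₀ R :=
    Metric.closedBall_subset_ball (by linarith)
  have hne : 3 * R / 4 ≠ 0 := by positivity
  have e0 := hf s₀ (Metric.mem_ball_self hR)
  have hp : 0 < ‖(Z.map fun z => s₀ - z).prod‖ :=
    norm_pos_iff.2 (left_ne_zero_of_mul (e0 ▸ h0))
  rw [← le_div_iff₀' (by positivity)]
  refine Complex.norm_le_of_forall_mem_frontier_norm_le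
    (U := Metric.ball s₀ (3 * R / 4)) Metric.isBounded_ball
    (hg.diffContOnCl_ball hsub) (fun w hw => ?_) (by rwa [closure_ball _ hne])
  rw [frontier_ball _ hne] at hw
  have hw' := hsub (Metric.sphere_subset_closedBall hw)
  have h1 := hb w hw'
  rw [hf w hw', e0, norm_mul, norm_mul] at h1
  have h2 := prod_NaLandau Z (s := w) (s₀ := s₀) fun z hz => by
    have a1 := hZ z hz
    have a2 := norm_sub_le_norm_sub_add_norm_sub w z s₀
    rw [mem_sphere_iff_norm.1 hw] at a2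
    rw [norm_sub_rev]
    linarith
  rw [le_div_iff₀' (by positivity)]
  refine le_of_mul_le_mul_left ?_ hp
  calc _ = 2 ^ Multiset.card Z * ‖(Z.map fun z => s₀ - z).prod‖ * ‖g w‖ := by ring
    _ ≤ ‖(Z.map fun z => w - z).prod‖ * ‖g w‖ := mul_le_mul_of_nonneg_right h2 (norm_nonneg _)
    _ ≤ _ := h1.trans_eq (by ring)

theorem bound_NaLandau {g : ℂ → ℂ} {s₀ : ℂ} {ρ M : ℝ} (hρ : 0 < ρ) (hM : 0 < M)
    (hg : DifferentiableOn ℂ g (Metric.ball s₀ ρ)) (h0 : ∀ s ∈ Metric.ball s₀ ρ, g s ≠ 0)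
    (hb : ∀ s ∈ Metric.ball s₀ ρ, ‖g s‖ ≤ Real.exp M * ‖g s₀‖) :
    ∀ s ∈ Metric.ball s₀ (ρ / 2), ‖logDeriv g s‖ ≤ 24 * M / ρ := by
  have ho : IsOpen (Metric.ball s₀ ρ) := Metric.isOpen_ball
  have hc := Metric.mem_ball_self (x := s₀) hρ
  obtain ⟨H, hH0, hH⟩ := (((hg.deriv ho).div hg h0).isExactOn_ball).with_val_at s₀ 0
  have hHd : DifferentiableOn ℂ H (Metric.ball s₀ ρ) := fun s hs =>
    (hH s hs).differentiableAt.differentiableWithinAt
  have hd : ∀ s ∈ Metric.ball s₀ ρ, HasDerivAt (fun s => g s * Complex.exp (-H s)) 0 s :=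
    fun s hs => by
      have a := (hg.differentiableAt (ho.mem_nhds hs)).hasDerivAt.fun_mul (hH s hs).fun_neg.cexp
      refine a.congr_deriv ?_
      have := h0 s hs
      simp only [Pi.div_apply]
      field_simp
      ring
  have hre : ∀ s ∈ Metric.ball s₀ ρ, (H s).re ≤ M := fun s hs => by
    have a := ho.is_const_of_deriv_eq_zero (convex_ball s₀ ρ).isPreconnected
      (fun s hs => (hd s hs).differentiableAt.differentiableWithinAt)
      (fun s hs => (hd s hs).deriv) hs hc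
    rw [hH0, neg_zero, Complex.exp_zero, mul_one] at a
    have b := hb s hs
    rw [← a, norm_mul, Complex.norm_exp, mul_left_comm, ← Real.exp_add] at b
    have c := (le_mul_iff_one_le_right (norm_pos_iff.2 (h0 s hs))).1 b
    rw [Real.one_le_exp_iff, Complex.neg_re] at c
    linarith
  have hm : ∀ z ∈ Metric.ball (0 : ℂ) ρ, s₀ + z ∈ Metric.ball s₀ ρ := fun z hz => by
    simpa using hz
  have hH6 : ∀ w : ℂ, ‖w - s₀‖ ≤ 3 * ρ / 4 → ‖H w‖ ≤ 6 * M := fun w hw => by
    have a := Complex.borelCaratheodory_zero (f := fun z => H (s₀ + z)) (z := w - s₀) hM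
      (hHd.comp (by fun_prop) hm) (fun z hz => hre _ (hm z hz)) hρ
      (mem_ball_zero_iff.2 (by linarith)) (by simpa using hH0)
    rw [add_sub_cancel] at a
    refine a.trans ?_
    rw [div_le_iff₀ (by linarith)]
    nlinarith
  intro s hs
  have hs' : ‖s - s₀‖ < ρ / 2 := mem_ball_iff_norm.1 hs
  have hsub : Metric.closedBall s (ρ / 4) ⊆ Metric.ball s₀ ρ :=
    Metric.closedBall_subset_ball' (by rw [dist_eq_norm]; linarith)
  have a := Complex.norm_deriv_le_of_forall_mem_sphere_norm_le (c := s) (R := ρ / 4) (C := 6 * M)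
    (by positivity) (hHd.diffContOnCl_ball hsub) fun w hw => hH6 w (by
      have b := norm_sub_le_norm_sub_add_norm_sub w s s₀
      rw [mem_sphere_iff_norm.1 hw] at b
      linarith)
  rw [(hH s (Metric.ball_subset_ball (by linarith) hs)).deriv] at a
  exact a.trans_eq (by field_simp; norm_num)

theorem landau_stmt : LandauStmt := by
  refine ⟨96, by norm_num, fun f s₀ R M hR hM hf h0 hb => ?_⟩
  have hc := Metric.mem_ball_self (x := s₀) hR
  have hcard : ∀ {Z : Multiset ℂ} {g : ℂ → ℂ}, DifferentiableOn ℂ g (Metric.ball s₀ R) →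
      (∀ z ∈ Z, ‖z - s₀‖ < R / 4) →
      (∀ s ∈ Metric.ball s₀ R, f s = (Z.map fun z => s - z).prod * g s) →
      (Multiset.card Z : ℝ) ≤ 2 * M := fun {Z g} hg hZ he => by
    have a := stage_NaLandau hR h0 hb hg hZ he s₀ (Metric.mem_closedBall_self (by positivity))
    have b := le_of_mul_le_mul_right a (norm_pos_iff.2 (right_ne_zero_of_mul (he s₀ hc ▸ h0)))
    have c := Real.log_le_log (by positivity) b
    rw [Real.log_pow, Real.log_exp] at c
    nlinarith [Real.log_two_gt_d9, Nat.cast_nonneg (α := ℝ) (Multiset.card Z)]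
  obtain ⟨Z, g, hg, hZ, he, hn⟩ : ∃ (Z : Multiset ℂ) (g : ℂ → ℂ),
      DifferentiableOn ℂ g (Metric.ball s₀ R) ∧ (∀ z ∈ Z, ‖z - s₀‖ < R / 4) ∧
      (∀ s ∈ Metric.ball s₀ R, f s = (Z.map fun z => s - z).prod * g s) ∧
      ∀ s ∈ Metric.ball s₀ (R / 4), g s ≠ 0 := by
    by_contra hcon
    have key : ∀ n : ℕ, ∃ (Z : Multiset ℂ) (g : ℂ → ℂ), Multiset.card Z = n ∧
        DifferentiableOn ℂ g (Metric.ball s₀ R) ∧ (∀ z ∈ Z, ‖z - s₀‖ < R / 4) ∧
        ∀ s ∈ Metric.ball s₀ R, f s = (Z.map fun z => s - z).prod * g s := fun n => by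
      induction n with
      | zero => exact ⟨0, f, rfl, hf, by simp, by simp⟩
      | succ n ih =>
        obtain ⟨Z, g, h1, h2, h3, h4⟩ := ih
        obtain ⟨z, hz, hz0⟩ : ∃ z ∈ Metric.ball s₀ (R / 4), g z = 0 := by
          by_contra h
          exact hcon ⟨Z, g, h2, h3, h4, fun s hs e => h ⟨s, hs, e⟩⟩
        refine ⟨z ::ₘ Z, dslope g z, by rw [Multiset.card_cons, h1],
          (Complex.differentiableOn_dslope (Metric.isOpen_ball.mem_nhds
            (Metric.ball_subset_ball (by linarith) hz))).2 h2, fun w hw => ?_, fun s hs => ?_⟩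
        · rcases Multiset.mem_cons.1 hw with rfl | hw
          · exact mem_ball_iff_norm.1 hz
          · exact h3 w hw
        · have e := sub_smul_dslope g z s
          rw [hz0, sub_zero, smul_eq_mul] at e
          rw [h4 s hs, Multiset.map_cons, Multiset.prod_cons, ← e]
          ring
    obtain ⟨n, hn⟩ := exists_nat_gt (2 * M)
    obtain ⟨Z, g, h1, h2, h3, h4⟩ := key n
    exact absurd (h1 ▸ hcard h2 h3 h4) (not_le.2 hn)
  have h4 : Metric.ball s₀ (R / 4) ⊆ Metric.ball s₀ R := Metric.ball_subset_ball (by linarith)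
  have h8 : Metric.ball s₀ (R / 8) ⊆ Metric.ball s₀ (R / 4) :=
    Metric.ball_subset_ball (by linarith)
  refine ⟨Z, by linarith [hcard hg hZ he], fun z hz => ?_, fun s hs => ⟨fun e => ?_, fun e => ?_⟩⟩
  · rw [he z (h4 (mem_ball_iff_norm.2 (hZ z hz))),
      Multiset.prod_eq_zero (Multiset.mem_map.2 ⟨z, hz, sub_self z⟩), zero_mul]
  · rw [he s (h4 (h8 hs))] at e
    obtain ⟨z, hz, e'⟩ := Multiset.mem_map.1
      (Multiset.prod_eq_zero_iff.1 ((mul_eq_zero.1 e).resolve_right (hn s (h8 hs))))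
    exact sub_eq_zero.1 e' ▸ hz
  · have a := bound_NaLandau (ρ := R / 4) (M := M) (by positivity) (by linarith) (hg.mono h4) hn
      (fun w hw => le_trans (le_mul_of_one_le_left (norm_nonneg _) (one_le_pow₀ one_le_two))
        (stage_NaLandau hR h0 hb hg hZ he w (Metric.ball_subset_closedBall
          (Metric.ball_subset_ball (by linarith) hw)))) s (by rwa [div_div, show (4 * 2 : ℝ) = 8 by norm_num])
    have ev : f =ᶠ[nhds s] fun s => (Z.map fun z => s - z).prod * g s :=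
      Filter.eventually_of_mem (Metric.isOpen_ball.mem_nhds (h4 (h8 hs))) he
    have e1 : logDeriv f s = logDeriv (fun s => (Z.map fun z => s - z).prod * g s) s := by
      rw [logDeriv_apply, logDeriv_apply, ev.deriv_eq, ev.eq_of_nhds]
    rw [he s (h4 (h8 hs))] at e
    rw [e1, logDeriv_mul s (left_ne_zero_of_mul e) (right_ne_zero_of_mul e) (diff_NaLandau Z s)
      (hg.differentiableAt (Metric.isOpen_ball.mem_nhds (h4 (h8 hs)))),
      log_NaLandau Z (left_ne_zero_of_mul e), add_sub_cancel_left]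
    exact a.trans_eq (by field_simp; norm_num)

end Pool.Agent.MP_f68ac8_nt.Nd

end

section

/-! The logarithmic derivative near one. -/

namespace Pool.Agent.MP_f68ac8_nt.Nd
open NumberField NumberField.InfinitePlace NumberField.mixedEmbedding NumberField.Units
  NumberField.Units.dirichletUnitTheorem MeasureTheory
open MP_14ad9d_nt.Full MP_14ad9d_nt.Full.EDAux MP_d64882_nt
open scoped Classical

lemma inv_NaLoc {u : ℂ} (h0 : u ≠ 0) (h : ‖u‖ ≤ 1 / 2) :
    ‖1 / (Complex.exp u - 1) - 1 / u‖ ≤ 2 := by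
  have h1 := Complex.norm_exp_sub_one_sub_id_le (x := u) (by linarith)
  have h2 : 0 < ‖u‖ := norm_pos_iff.2 h0
  have h3 : ‖u‖ / 2 ≤ ‖Complex.exp u - 1‖ := by
    have := norm_sub_norm_le u (Complex.exp u - 1)
    rw [norm_sub_rev u] at this
    nlinarith
  have h4 : Complex.exp u - 1 ≠ 0 := norm_pos_iff.1 (by linarith)
  rw [div_sub_div _ _ h4 h0, norm_div, norm_mul, one_mul, mul_one, norm_sub_rev,
    div_le_iff₀ (mul_pos (by linarith) h2)]
  nlinarith

lemma ne_NaLoc {s : ℂ} (hs : 1 < s.re) : 1 - Complex.exp (1 - s) ≠ 0 := by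
  intro h
  have h1 := congrArg norm (sub_eq_zero.1 h)
  rw [norm_one, Complex.norm_exp, Complex.sub_re, Complex.one_re] at h1
  exact (Real.exp_lt_one_iff.2 (by linarith)).ne h1.symm

lemma log_NaLoc {F Z : ℂ → ℂ} (hF : ∀ s : ℂ, 1 < s.re → F s = (1 - Complex.exp (1 - s)) * Z s)
    {s : ℂ} (hs : 1 < s.re) (h0 : Z s ≠ 0) (hZ : DifferentiableAt ℂ Z s) :
    logDeriv F s = 1 / (Complex.exp (s - 1) - 1) + logDeriv Z s := by
  have e : F =ᶠ[nhds s] fun s => (1 - Complex.exp (1 - s)) * Z s :=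
    Filter.eventually_of_mem ((isOpen_lt continuous_const Complex.continuous_re).mem_nhds hs) hF
  have hd : HasDerivAt (fun s : ℂ => 1 - Complex.exp (1 - s)) (Complex.exp (1 - s)) s := by
    simpa using (((hasDerivAt_id s).const_sub 1).cexp).const_sub 1
  have h1 := ne_NaLoc hs
  rw [(logDeriv_congr_nhds e).eq_of_nhds,
    logDeriv_mul (f := fun s => 1 - Complex.exp (1 - s)) s h1 h0 hd.differentiableAt hZ,
    logDeriv_apply, hd.deriv]
  have h2 : Complex.exp (s - 1) * Complex.exp (1 - s) = 1 := by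
    rw [← Complex.exp_add, sub_add_sub_cancel, sub_self, Complex.exp_zero]
  have h3 : Complex.exp (s - 1) - 1 = Complex.exp (s - 1) * (1 - Complex.exp (1 - s)) := by
    rw [mul_sub, h2, mul_one]
  rw [h3, ← div_div, one_div (Complex.exp (s - 1)), inv_eq_of_mul_eq_one_right h2]

theorem loc_stmt (hC : ContStmt) (hE : EulStmt) (hL : LandauStmt) : LocStmt := by
  intro N
  rcases Nat.eq_zero_or_pos N with rfl | hN
  · exact ⟨1 / 8, 1, by norm_num, le_rfl, one_pos, fun E _ _ h =>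
      absurd h (Module.finrank_pos (R := ℚ) (M := E)).not_ge⟩
  obtain ⟨C₁, hC⟩ := hC N
  obtain ⟨C₀, -, hE⟩ := hE N
  obtain ⟨C₂, c0, hL⟩ := hL
  have hN' : (1 : ℝ) ≤ N := by exact_mod_cast hN
  obtain ⟨R, R0, R1, R2, R3⟩ : ∃ R : ℝ, 0 < R ∧ R ≤ 1 / 4 ∧ 1 / (N : ℝ) = 4 * R ∧
      1 / (2 * N : ℝ) = 2 * R :=
    ⟨1 / (4 * N), by positivity, one_div_le_one_div_of_le (by norm_num) (by linarith),
      by field_simp, by field_simp; norm_num⟩
  obtain ⟨η, hη⟩ : ∃ η : ℝ, η = 1 - Real.exp (-(R / 16)) := ⟨_, rfl⟩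
  have η0 : 0 < η := by
    rw [hη, sub_pos]
    exact Real.exp_lt_one_iff.2 (by linarith)
  obtain ⟨A, hA⟩ : ∃ A : ℝ, A = C₁ + 1 + |Real.log η| := ⟨_, rfl⟩
  have A1 : 1 ≤ A := by
    rw [hA]
    linarith [abs_nonneg (Real.log η), Nat.cast_nonneg (α := ℝ) C₁]
  have p1 : 0 < C₂ * A := by positivity
  have p2 : 0 < C₂ * A / R := by positivity
  refine ⟨R / 16, C₂ * A / R + C₂ * A + 2, by positivity, by linarith, by positivity,
    fun E _ _ hd M M1 hM => ?_⟩
  obtain ⟨c1, c2, c3, -⟩ := hC E hd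
  obtain ⟨e1, e2, -⟩ := hE E hd
  rw [R2] at c1
  rw [R3] at c2
  obtain ⟨s₀, hs₀⟩ : ∃ s₀ : ℂ, s₀ = ((1 + R / 16 : ℝ) : ℂ) := ⟨_, rfl⟩
  have b1 : ∀ s ∈ Metric.ball s₀ R, 1 - 2 * R ≤ s.re ∧ ‖s‖ ≤ 2 := fun s hs => by
    rw [Metric.mem_ball, dist_eq_norm] at hs
    have a1 := (abs_le.1 ((Complex.abs_re_le_norm _).trans hs.le)).1
    have a2 := norm_sub_norm_le s s₀
    rw [hs₀, Complex.sub_re, Complex.ofReal_re] at a1
    rw [hs₀, Complex.norm_real, Real.norm_of_nonneg (by positivity), ← hs₀] at a2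
    constructor <;> linarith
  have b2 : Metric.ball (1 : ℂ) (R / 16) ⊆ Metric.ball s₀ (R / 8) := by
    refine Metric.ball_subset (le_of_eq ?_)
    rw [hs₀, dist_comm, dist_eq_norm, ← Complex.ofReal_one, ← Complex.ofReal_sub, Complex.norm_real,
      add_sub_cancel_left, Real.norm_of_nonneg (by positivity)]
    ring
  have b3 : DifferentiableOn ℂ (FE E) (Metric.ball s₀ R) :=
    c1.mono fun s hs => lt_of_lt_of_le (by linarith) (b1 s hs).1
  have b4 : η ≤ ‖FE E s₀‖ := by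
    have a1 : 1 - Complex.exp (1 - s₀) = (η : ℂ) := by
      rw [hη, hs₀]
      push_cast
      congr 2
      ring
    rw [c3 s₀ (by rw [hs₀, Complex.ofReal_re]; linarith), a1, norm_mul, Complex.norm_real,
      Real.norm_of_nonneg η0.le, hs₀]
    exact le_mul_of_one_le_right η0.le (e2 _ (by linarith)).1
  have b5 : Bd E ^ C₁ ≤ Real.exp (A * M) * η := by
    have a1 : Bd E ≤ Real.exp M := (Real.le_exp_log _).trans (Real.exp_le_exp.2 hM)
    refine (pow_le_pow_left₀ (by unfold Bd; positivity) a1 _).trans ?_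
    rw [← Real.exp_nat_mul, ← Real.exp_log η0, ← Real.exp_add, Real.exp_le_exp, hA]
    nlinarith [neg_abs_le (Real.log η), abs_nonneg (Real.log η)]
  obtain ⟨Z, z1, z2, z3⟩ := hL (FE E) s₀ R (A * M) R0 (one_le_mul_of_one_le_of_one_le A1 M1) b3
    (norm_pos_iff.1 (η0.trans_le b4)) fun s hs => (c2 s (b1 s hs).1 (b1 s hs).2).trans
      (b5.trans (mul_le_mul_of_nonneg_left b4 (Real.exp_pos _).le))
  have b6 : ∀ s : ℂ, 1 < s.re → FE E s ≠ 0 := fun s hs => by
    rw [c3 s hs]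
    exact mul_ne_zero (ne_NaLoc hs) (e1 s hs).1
  have q1 : C₂ * (A * M) / R = C₂ * A / R * M := by ring
  have q2 := mul_pos p1 (one_pos.trans_le M1)
  have q3 := mul_pos p2 (one_pos.trans_le M1)
  refine ⟨b3.mono (b2.trans (Metric.ball_subset_ball (by linarith))), Z, by nlinarith,
    fun z hz => ⟨z2 z hz, not_lt.1 fun h => b6 z h (z2 z hz)⟩, fun s hs =>
      ⟨(z3 s (b2 hs)).1, fun h => ((z3 s (b2 hs)).2 h).trans (by nlinarith), fun h => ?_⟩⟩
  have a1 := (z3 s (b2 hs)).2 (b6 s h)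
  rw [Metric.mem_ball, dist_eq_norm] at hs
  have a2 := inv_NaLoc (u := s - 1) (fun h' => by simp [sub_eq_zero.1 h'] at h) (by linarith)
  have a3 := norm_sub_le (1 / (Complex.exp (s - 1) - 1) - 1 / (s - 1))
    (logDeriv (FE E) s - (Z.map fun z => 1 / (s - z)).sum)
  rw [show LE E s - 1 / (s - 1) + (Z.map fun z => 1 / (s - z)).sum =
    1 / (Complex.exp (s - 1) - 1) - 1 / (s - 1) -
      (logDeriv (FE E) s - (Z.map fun z => 1 / (s - z)).sum) by
    rw [log_NaLoc c3 h (e1 s h).1 (e1 s h).2, LE]; ring]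
  nlinarith

end Pool.Agent.MP_f68ac8_nt.Nd

end
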