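import Pool.Agent.Mg.Fe23604m.G9b4e87
import Pool.Agent.Mg.Fe23604m.Gbee0b1
import Pool.Agent.Mg.Fe23604m.Gf45a26

set_option linter.all false

section

namespace Pool.Agent.MP_e23604_nt.TN

open NumberField Finset Filter
open MP_f68ac8_nt MP_f68ac8_nt.Nd
open scoped Topology BigOperators

theorem xSelK_sup {n : ℕ} {R R₀ : Finset ℕ} {N N₀ : Subgroup GQ} (h : AdK n R N)
    (h₀ : AdK n R₀ N₀) : AdK n R₀ (N ⊔ N₀) := by
  have := h.nrm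
  have := h₀.nrm
  have hdv := Subgroup.index_dvd_of_le (le_sup_right : N₀ ≤ N ⊔ N₀)
  refine ⟨⟨h₀.pri, inferInstance, mem_of_superset h.nhds (le_sup_left : N ≤ N ⊔ N₀),
    ⟨ne_zero_of_dvd_ne_zero h₀.idx.1 hdv,
      (Nat.le_of_dvd (Nat.pos_of_ne_zero h₀.idx.1) hdv).trans h₀.idx.2⟩,
    fun P hP hF g hg => (le_sup_right : N₀ ≤ N ⊔ N₀) (h₀.unr P hP hF g hg)⟩,
    sup_le h.le h₀.le, fun g hg => ?_⟩
  obtain ⟨k, hk⟩ := h.pg g hg
  exact ⟨k, (le_sup_left : N ≤ N ⊔ N₀) hk⟩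

theorem xSelK_step (hC : CountP) (hI : DichT) (hG : GrpP 3) (hZ : GzP 3) (n : ℕ) {c' : ℝ}
    (hc' : 0 < c') : ∃ c : ℝ, 0 < c ∧ c ≤ c' ∧ ∀ (M : ℝ) R N R₀ N₀, AdK n R N → AdK n R₀ N₀ →
      sz R ≤ M → sz R₀ ≤ M → ¬ GoodN N (c / qM M) → ¬ GoodN N₀ (c / qM M) →
      ¬ GoodN (N ⊔ N₀) (c' / qM M) := by
  obtain ⟨-, -, -, -, hinf, -⟩ := hZ
  obtain ⟨θ, t0, t1, t2⟩ := theta_NhSel (n * n) 3
  obtain ⟨c, hc, hcc, hI⟩ := hI (n * n) θ c' t0 t1 hc'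
  refine ⟨c / 4, by positivity, by linarith, fun M R N R₀ N₀ h h₀ hs hM hb hb₀ => ?_⟩
  have := h₀.nrm
  have hM1 : 1 ≤ M := (one_le_sz_NbRep _).trans hM
  have hA := hinf _ _ _ _ _ _ h.toAd0 h₀.toAd0
  have hK := xSelK_sup h h₀
  have hsz : sz (R ∪ R₀) ≤ 2 * M := by
    have := sz_union_NbRep R R₀
    linarith
  have hq1 : 1 ≤ qM M := hM1.trans (le_qM hM1)
  have hq : qM M ≤ qM (2 * M) := qM_mono hM1 (by linarith)
  have hρ' : c / 4 / qM M ≤ c / qM (2 * M) := by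
    rw [div_div]
    refine div_le_div_of_nonneg_left hc.le (by linarith) ((qM_mul one_le_two hM1).trans ?_)
    norm_num
  obtain ⟨σ, w, hw, hs, hdi, hfi⟩ := hI _ _ hA _ hsz
  obtain ⟨g1, g2⟩ := hG GQ _ (n * n) hA.nrm hA.idx.1 hA.idx.2 σ w θ hw hs t0.le
    (by exact_mod_cast t2) hdi
  have hsm : ∀ A : Subgroup GQ, N ⊓ N₀ ≤ A → ¬ GoodN A (c / 4 / qM M) → Sw σ w A ≤ θ := by
    intro A hA hb
    by_contra hn
    refine hb fun E _ hAE => good_mono_NbSel ?_ hρ'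
    by_contra hE'
    exact hn (g1 A _ hA hAE ((hfi E (hA.trans hAE)).1 hE'))
  have hle : N ⊓ N₀ ≤ N ⊔ N₀ := inf_le_left.trans le_sup_left
  have h3 := (g2 (N ⊔ N₀) hle fun g hg => by
      obtain ⟨k, hk⟩ := h.pg g (hK.le hg)
      obtain ⟨k', hk'⟩ := h₀.pg g (hK.le hg)
      refine ⟨k + k', ?_, ?_⟩
      · rw [pow_add, pow_mul]
        exact N.pow_mem hk _
      · rw [add_comm, pow_add, pow_mul]
        exact N₀.pow_mem hk' _).1 N N₀ inf_le_left inf_le_right le_sup_left le_sup_right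
    (fun x hx => Subgroup.mem_sup_of_normal_right.1 hx) (hsm N inf_le_left hb)
    (hsm N₀ inf_le_right hb₀)
  obtain ⟨E, _, hEK⟩ := (hC _ _ _ hK.toAd0).1 _ le_rfl
  intro hg
  have h4 := hg E hEK.ge
  rw [← hEK] at h3 hle
  exact (hfi E hle).2 h3 (good_mono_NbSel h4
    (div_le_div_of_nonneg_left hc'.le (by linarith) hq))

theorem xSelK_max (hC : CountP) (hI : DichT) (hG : GrpP 3) (hZ : GzP 3) (n k : ℕ) :
    ∃ c : ℝ, 0 < c ∧ c ≤ 1 ∧ ∀ (M : ℝ) R₁ N₁, AdK n R₁ N₁ → sz R₁ ≤ M → N₁.index ≤ k →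
      ¬ GoodN N₁ (c / qM M) → ∃ R₀ N₀, AdK n R₀ N₀ ∧ ¬ GoodN N₀ (1 / qM M) ∧
        ∀ R N, AdK n R N → sz R ≤ M → ¬ GoodN N (c / qM M) → N ≤ N₀ := by
  induction k with
  | zero => exact ⟨1, one_pos, le_rfl, fun M R N h _ hk => absurd (Nat.le_zero.1 hk) h.idx.1⟩
  | succ k ih =>
    obtain ⟨c₁, p1, q1, ih⟩ := ih
    obtain ⟨c, p, q, hs⟩ := xSelK_step hC hI hG hZ n p1
    refine ⟨c, p, q.trans q1, fun M R₁ N₁ h₁ hM hk hb => ?_⟩
    have hM1 : 1 ≤ M := (one_le_sz_NbRep _).trans hM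
    have hq : 0 ≤ qM M := by linarith [le_qM hM1]
    have mono : ∀ {N : Subgroup GQ} {x y : ℝ}, x ≤ y → ¬ GoodN N (x / qM M) →
        ¬ GoodN N (y / qM M) := fun hxy h1 h2 =>
      h1 (goodN_mono_NhSel h2 (div_le_div_of_nonneg_right hxy hq))
    by_cases hex : ∃ R N, AdK n R N ∧ sz R ≤ M ∧ N.index ≤ k ∧ ¬ GoodN N (c₁ / qM M)
    · obtain ⟨R, N, a1, a2, a3, a4⟩ := hex
      obtain ⟨R₀, N₀, b1, b2, b3⟩ := ih M R N a1 a2 a3 a4
      exact ⟨R₀, N₀, b1, b2, fun R N c1 c2 c3 => b3 R N c1 c2 (mono q c3)⟩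
    · refine ⟨R₁, N₁, h₁, mono (q.trans q1) hb, fun R N c1 c2 c3 => ?_⟩
      have a1 := xSelK_sup c1 h₁
      have a2 : k + 1 ≤ (N ⊔ N₁).index := by
        by_contra a2
        exact hex ⟨R₁, _, a1, hM, by omega, hs M R N R₁ N₁ c1 h₁ c2 hM c3 hb⟩
      have a3 := Subgroup.relIndex_mul_index (le_sup_right : N₁ ≤ N ⊔ N₁)
      have a4 : N₁.relIndex (N ⊔ N₁) = 1 := by
        have a5 := h₁.idx.1
        rw [← a3] at a5 hk
        have a6 := Nat.pos_of_ne_zero (left_ne_zero_of_mul a5)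
        by_contra a7
        have a8 : 2 ≤ N₁.relIndex (N ⊔ N₁) := by omega
        nlinarith
      exact le_sup_left.trans (Subgroup.relIndex_eq_one.1 a4)

theorem selK (hD : DiscP) (hC : CountP) (hE : ExcStmt) (hI : DichT) (hG : GrpP 3) (hZ : GzP 3) :
    SelK := by
  intro n
  obtain ⟨c, hc, -, hm⟩ := xSelK_max hC hI hG hZ n n
  obtain ⟨C, hC1, hD⟩ := hD n
  refine ⟨c, hc, fun p₁ => ?_⟩
  obtain ⟨ρ₁, hρ₁, hE⟩ := hE (C * sz (range p₁))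
  obtain ⟨M₁, hM₁, hM₁'⟩ : ∃ M₁ : ℝ, 1 ≤ M₁ ∧ 1 / ρ₁ ≤ M₁ :=
    ⟨max 1 (1 / ρ₁), le_max_left _ _, le_max_right _ _⟩
  have hq₁ := le_qM hM₁
  refine ⟨c / qM M₁, div_pos hc (by linarith), fun M ρ hρ hρ' => ?_⟩
  by_cases hbad : ∃ R N, AdK n R N ∧ sz R ≤ M ∧ ¬ GoodN N ρ
  swap
  · refine ⟨p₁, le_rfl, fun R N h hs _ => ?_⟩
    by_contra hb
    exact hbad ⟨R, N, h, hs, hb⟩
  obtain ⟨R₁, N₁, h₁, hM, hb⟩ := hbad
  obtain ⟨M', hM1, hM2, hM3⟩ : ∃ M' : ℝ, M ≤ M' ∧ M₁ ≤ M' ∧ ρ ≤ c / qM M' := by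
    rcases le_total M M₁ with h | h
    · exact ⟨M₁, h, le_rfl, hρ'⟩
    · exact ⟨M, le_rfl, h, hρ⟩
  obtain ⟨R₀, N₀, h₀, hb₀, hmax⟩ := hm M' R₁ N₁ h₁ (hM.trans hM1) h₁.idx.2
    fun h => hb (goodN_mono_NhSel h hM3)
  have hex : ∃ p₀ : ℕ, p₁ ≤ p₀ ∧ p₀.Prime ∧ ∃ P : Ideal (𝓞 Qa), P.IsMaximal ∧
      (p₀ : 𝓞 Qa) ∈ P ∧ ∃ g ∈ P.inertia GQ, g ∉ N₀ := by
    by_contra hne
    have hA := core_NhSel h₀.toAd0 le_rfl hne
    refine hb₀ fun E _ hE₀ => good_mono_NbSel (hE E ((hD _ _ hA E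
      (N₀.normalCore_le.trans hE₀)).2.trans ?_)) ?_
    · exact mul_le_mul_of_nonneg_left (sz_le_NbSel _ p₁ fun l hl => (mem_filter.1 hl).2)
        (by linarith)
    · have a1 := le_qM (hM₁.trans hM2)
      exact (one_div_le (by linarith) hρ₁).2 (by linarith)
  obtain ⟨p₀, hp₀, hpp, P, hP, hpP, g, hg, hgN⟩ := hex
  refine ⟨p₀, hp₀, fun R N h hs' hp₀' => ?_⟩
  by_contra hb'
  refine hgN (hmax R N h (hs'.trans hM1) (fun h' => hb' (goodN_mono_NhSel h' hM3))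
    (h.unr P hP (fun l hl => ?_) g hg))
  refine not_mem_of_coprime hpP ((Nat.coprime_primes hpp (h.pri l hl)).2 ?_)
  rintro rfl
  exact hp₀' hl

end Pool.Agent.MP_e23604_nt.TN

end

section

namespace Pool.Agent.MP_e23604_nt.TN

open NumberField Finset Filter
open MP_f68ac8_nt MP_f68ac8_nt.Nd
open T (P0 rh lm9)
open scoped Topology BigOperators

theorem xWin_lf (hC : ConT) (hE : EuT) : ∃ A : ℝ, 1 ≤ A ∧ ∀ (χ : ℕ → ℂ) (M : ℝ), TN.Cm χ →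
    1 ≤ M → Bs χ (Real.exp M) → ∃ F, Lf χ F (Real.exp (A * M)) := by
  obtain ⟨C₁, p1, hC⟩ := hC
  obtain ⟨C₂, hE⟩ := hE
  have q1 : 0 ≤ Real.log C₁ := Real.log_nonneg p1
  have q2 : 0 ≤ |C₂| := abs_nonneg _
  refine ⟨1 + Real.log C₁ + |C₂|, by linarith, fun χ M hχ hM hB => ?_⟩
  obtain ⟨F, f1, f2, f3⟩ := hC χ _ hχ.le hB
  obtain ⟨R, r1, r2, r3⟩ := hE χ hχ
  refine ⟨fun s => F s * Complex.exp (-R s), f1.mul r1.neg.cexp, fun s hs => ?_, fun s hs => ?_⟩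
  · have h1 : ‖Complex.exp (-R s)‖ ≤ Real.exp |C₂| := by
      rw [Complex.norm_exp, Real.exp_le_exp]
      exact (Complex.re_le_norm _).trans
        ((norm_neg (R s)).le.trans ((r2 s hs).trans (le_abs_self _)))
    rw [norm_mul]
    refine (mul_le_mul (f2 s hs) h1 (norm_nonneg _) (by positivity)).trans ?_
    have h2 : C₁ * Real.exp M * Real.exp |C₂| = Real.exp (Real.log C₁ + M + |C₂|) := by
      rw [Real.exp_add, Real.exp_add, Real.exp_log (by linarith)]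
    rw [h2, Real.exp_le_exp]
    nlinarith
  · rw [f3 s hs, r3 s hs, ← Complex.exp_add, add_neg_cancel_right]

theorem xWin_sq {χ : ℕ → ℂ} (h : TN.Cm χ) : TN.Cm fun n => χ n ^ 2 :=
  ⟨by simp only [h.one, one_pow], fun a b => by simp only [h.mul, mul_pow], fun n => by
    rw [norm_pow]
    exact pow_le_one₀ (norm_nonneg _) (h.le n)⟩

theorem xWin_ld {χ : ℕ → ℂ} {F : ℂ → ℂ} {Q : ℝ} (hF : Lf χ F Q) {w d : ℂ} (hw : 1 < w.re)
    (hd : HasDerivAt (Pc χ) d w) : logDeriv F w = d := by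
  have e : F =ᶠ[nhds w] fun s => Complex.exp (Pc χ s) :=
    Filter.eventually_of_mem ((isOpen_lt continuous_const Complex.continuous_re).mem_nhds hw) hF.eq
  rw [(logDeriv_congr_nhds e).eq_of_nhds, logDeriv_apply, hd.cexp.deriv,
    mul_div_cancel_left₀ _ (Complex.exp_ne_zero _)]

theorem winD (hC : ConT) (hE : EuT) (hF : FreeD) (hD : DerT) (hP : PsumStmt) (hd : FdStmt) :
    WinD := by
  obtain ⟨A, pA, hL⟩ := xWin_lf hC hE
  obtain ⟨c, C₁, pc, c8, p1, hF⟩ := hF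
  obtain ⟨hS, -, -⟩ := hP
  have A0 : 0 < A := by linarith
  refine ⟨c / A, by positivity, fun k => ⟨8 * (k + 1) / c + C₁ * A * (8 * (k + 1) / c) ^ k,
    by positivity, ?_⟩⟩
  intro χ M ρ h s τ hχ hM hB hB' hρ hρc h0 hh hs hs' hτ
  have hτ' : |-τ| ≤ c := by
    rw [abs_neg]
    exact hτ.trans (div_le_self pc.le pA)
  obtain ⟨F, hF1⟩ := hL χ M hχ hM hB
  obtain ⟨F', hF2⟩ := hL _ M (xWin_sq hχ) hM hB'
  obtain ⟨d1, f1⟩ := hF χ F F' (A * M) ρ (-τ) hχ.le (by nlinarith) hF1 hF2 hρ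
    (by rwa [← div_div]) hτ'
  have hk : (0 : ℝ) ≤ k := k.cast_nonneg
  have hr : 4 * (k + 1) * h ≤ c * ρ / 2 := by
    have h1 : 8 * (k + 1) / c * h ≤ ρ :=
      (mul_le_mul_of_nonneg_right (le_add_of_nonneg_right (by positivity)) h0.le).trans hh
    rw [div_mul_eq_mul_div, div_le_iff₀ pc] at h1
    linarith
  have hz : 1 < ((s : ℂ) + (-τ : ℝ) * Complex.I).re := by simpa using hs
  have e2 : 2 * (c * ρ / 2) = c * ρ := by ring
  have key := key_NaWin hd (G := logDeriv F) (D := Pc χ) (a := 1 + ((-τ : ℝ) : ℂ) * Complex.I)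
    (z := s + (-τ : ℝ) * Complex.I) (r := c * ρ / 2) (h := h) (M := C₁ * (A * M) / ρ)
    (k := k) (by
      rw [e2]
      exact (d1.deriv Metric.isOpen_ball).div d1 fun w hw => (f1 w hw).1)
    (by
      rw [e2]
      exact fun w hw => (f1 w hw).2)
    (fun w _ hw1 => by
      have a1 := (hD χ hχ.le).1 w hw1
      rwa [xWin_ld hF1 hw1 a1])
    h0 hr (by
      rw [add_sub_add_right_eq_sub, ← Complex.ofReal_one, ← Complex.ofReal_sub, Complex.norm_real,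
        Real.norm_of_nonneg (by linarith)]
      nlinarith) hz
  rw [ser_NaWin (fun s hs => (hS s hs).1) (A := 1) h0 hz (k + 1) χ (Pc χ) (fun l _ => hχ.le l)
    fun w _ => rfl] at key
  have e3 : ∀ l : ℕ, χ l * (((l : ℝ) ^ (-h) - 1 : ℝ) : ℂ) ^ (k + 1) *
      pw (s + (-τ : ℝ) * Complex.I) l =
      (-1) ^ (k + 1) * (χ l * (wl s h k l : ℝ) * tw τ l) := fun l => by
    rw [mul_assoc, term_NaWin]
    ring
  rw [tsum_congr e3, tsum_mul_left, norm_mul, norm_pow, norm_neg, norm_one, one_pow,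
    one_mul] at key
  refine key.trans ?_
  have e4 : 4 * (k + 1) * h / (c * ρ / 2) = 8 * (k + 1) / c * (h / ρ) := by
    field_simp
    ring
  rw [e4, mul_pow]
  calc _ = C₁ * A * (8 * (k + 1) / c) ^ k * M * (h / ρ) ^ (k + 1) := by ring
    _ ≤ _ := mul_le_mul_of_nonneg_right (mul_le_mul_of_nonneg_right
      (le_add_of_nonneg_left (by positivity)) (by linarith)) (by positivity)

end Pool.Agent.MP_e23604_nt.TN

end
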