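import Pool.Agent.Mg.Fe23604m.Gf509f6

set_option linter.all false

section

/-!
Neighbours of prime index, scaling and the involution.
-/

set_option autoImplicit false

open Finset
open scoped Classical

namespace Pool.Agent.MP_e23604_nt.Un

variable {L L' : PeriodPair} {c t t' z z' s s' u u' R R' : ℂ} {l : ℕ}

namespace Sc

variable (h : Sc c L L')

include h

theorem p' (e : c * z - z' ∈ L'.lattice) : wp L' z' = c⁻¹ ^ 2 * wp L z := by
  rw [← wp_per e, add_sub_cancel, h.wp_mul, inv_pow]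

theorem q' (e : c * z - z' ∈ L'.lattice) : wq L' z' = c⁻¹ ^ 3 * wq L z := by
  rw [← wq_per e, add_sub_cancel, h.wq_mul, inv_pow]

theorem dA' (e : c * t - t' ∈ L'.lattice) : dA L' t' = c⁻¹ * dA L t := by
  have := h.1
  rw [dA, dA, h.p' e, h.q' e, h.g₂]
  by_cases a : wq L t = 0
  · simp [a]
  · field_simp

theorem dX' (e : c * t - t' ∈ L'.lattice) (e' : c * z - z' ∈ L'.lattice) :
    dX L' t' z' = c⁻¹ ^ 2 * dX L t z := by rw [dX, dX, h.p' e, h.p' e']; ring

theorem dY' (e : c * t - t' ∈ L'.lattice) (e' : c * z - z' ∈ L'.lattice) :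
    dY L' t' z' = c⁻¹ ^ 3 * dY L t z := by
  rw [dY, dY, h.p' e, h.p' e', h.q' e, h.q' e', h.dA' e]; ring

theorem dB' (e : c * t - t' ∈ L'.lattice) (e' : c * z - z' ∈ L'.lattice) :
    dB L' t' z' = c⁻¹ * dB L t z := by
  have := h.1
  rw [dB, dB, h.dA' e, h.q' e, h.dX' e e']
  by_cases a : dX L t z = 0
  · simp [a]
  · field_simp

theorem s3' (e : c * t - t' ∈ L'.lattice) (e' : c * z - z' ∈ L'.lattice) :
    s3 (wp L') t' z' = c⁻¹ ^ 2 * s3 (wp L) t z := by
  rw [s3, s3, h.p' e', h.p' (z := z + t) (by convert add_mem e' e using 1; ring),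
    h.p' (z := z - t) (by convert sub_mem e' e using 1; ring)]
  ring

theorem nm (e : c * z - z' ∈ L'.lattice) : z' ∈ L'.lattice ↔ z ∈ L.lattice := by
  rw [← h.2, ← L'.lattice.add_mem_iff_left e, add_sub_cancel]

end Sc

theorem s3_shift (h3 : 3 * t ∈ L.lattice) (k : ℤ) (z : ℂ) :
    s3 (wp L) t (z + k * t) = s3 (wp L) t z := by
  have a : ∀ z, s3 (wp L) t (z + t) = s3 (wp L) t z := fun z => by
    rw [s3, s3, add_sub_cancel_right, show z + t + t = z - t + 3 * t by ring, wp_per h3]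
    ring
  induction k using Int.induction_on with
  | zero => simp
  | succ k ih => rw [← ih, ← a (z + (k : ℤ) * t)]; congr 1; push_cast; ring
  | pred k ih => rw [← ih, ← a]; congr 1; push_cast; ring

/-- the multiples of `R` -/
noncomputable def nb (l : ℕ) (R : ℂ) : Finset ℂ := (range l).image fun k : ℕ => k * R

/-- `R` has order `l` -/
structure Ord (L : PeriodPair) (l : ℕ) (R : ℂ) : Prop where
  pr : l.Prime
  mem : l * R ∈ L.lattice
  nm : R ∉ L.lattice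

namespace Ord

variable (o : Ord L l R)

include o

theorem dvd {k : ℤ} : k * R ∈ L.lattice ↔ (l : ℤ) ∣ k := by
  refine ⟨fun a => by_contra fun n => o.nm ?_, fun ⟨j, e⟩ => ?_⟩
  · obtain ⟨x, y, e⟩ := (Nat.prime_iff_prime_int.1 o.pr).irreducible.coprime_iff_not_dvd.2 n
    convert add_mem (L.lattice.smul_mem x o.mem) (L.lattice.smul_mem y a) using 1
    simp only [zsmul_eq_mul]
    linear_combination -R * (by exact_mod_cast e : (x * l + y * k : ℂ) = 1)
  · convert L.lattice.smul_mem j o.mem using 1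
    simp only [zsmul_eq_mul, e]
    push_cast
    ring

theorem inj {i j : ℕ} (hi : i < l) (hj : j < l) (e : i * R - j * R ∈ L.lattice) : i = j := by
  have := o.dvd.1 (show ((i - j : ℤ) : ℂ) * R ∈ _ by push_cast; rwa [sub_mul])
  have := Int.eq_zero_of_abs_lt_dvd this (by rw [abs_lt]; omega)
  omega

theorem inj' : Set.InjOn (fun k : ℕ => k * R) (range l : Set ℕ) := fun i hi j hj e =>
  o.inj (by simpa using hi) (by simpa using hj) (by simp [show i * R = j * R from e])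

theorem card : #(nb l R) = l := by rw [nb, card_image_of_injOn o.inj', card_range]

theorem prod (F : ℂ → ℂ) :
    ∏ x ∈ nb l R with x ∉ L.lattice, F x = ∏ k ∈ Ico 1 l, F (k * R) := by
  rw [nb, filter_image, prod_image (o.inj'.mono fun x hx => by simpa using (mem_filter.1 hx).1)]
  refine prod_congr ?_ fun _ _ => rfl
  ext k
  simp only [mem_filter, mem_range, mem_Ico]
  exact ⟨fun ⟨a, b⟩ => ⟨Nat.pos_of_ne_zero fun e => b (by simp [e]), a⟩, fun ⟨a, b⟩ =>
    ⟨b, fun e => by have := o.inj b o.pr.pos (by simpa using e); omega⟩⟩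

theorem rep (e : ∀ z, z ∈ L'.lattice ↔ ∃ k : ℤ, z - k * R ∈ L.lattice) : Rep L L' (nb l R) := by
  refine ⟨fun z hz => (e z).2 ⟨0, by simpa using hz⟩, fun x hx => ?_, fun y hy => ?_⟩
  · obtain ⟨k, -, rfl⟩ := mem_image.1 hx
    exact (e _).2 ⟨k, by simp⟩
  · obtain ⟨k, hk⟩ := (e y).1 hy
    have l0 : (0 : ℤ) < l := by exact_mod_cast o.pr.pos
    obtain ⟨i, hi⟩ := Int.eq_ofNat_of_zero_le (Int.emod_nonneg k l0.ne')
    have il : i < l := by exact_mod_cast hi ▸ Int.emod_lt_of_pos k l0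
    have m : y - i * R ∈ L.lattice := by
      convert add_mem hk ((o.dvd (k := k - i)).2 (hi ▸ Int.dvd_self_sub_emod)) using 1
      push_cast
      ring
    refine ⟨_, ⟨mem_image_of_mem _ (mem_range.2 il), m⟩, ?_⟩
    rintro _ ⟨a, b⟩
    obtain ⟨j, hj, rfl⟩ := mem_image.1 a
    rw [o.inj il (mem_range.1 hj) (by convert sub_mem b m using 1; ring)]

theorem cop (l3 : l ≠ 3) (e : ∀ z, z ∈ L'.lattice ↔ ∃ k : ℤ, z - k * R ∈ L.lattice) :
    Cop L L' := fun z hz a => by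
  obtain ⟨k, hk⟩ := (e z).1 hz
  have : (l : ℤ) ∣ 3 * k := o.dvd.1 (by
    convert sub_mem a (L.lattice.smul_mem 3 hk) using 1
    simp only [zsmul_eq_mul]
    push_cast
    ring)
  have := ((Nat.prime_iff_prime_int.1 o.pr).dvd_or_dvd this).resolve_left fun d =>
    l3 ((Nat.prime_dvd_prime_iff_eq o.pr Nat.prime_three).1 (by exact_mod_cast d))
  simpa using add_mem hk (o.dvd.2 this)

theorem ex : ∃ L' : PeriodPair, ∀ z, z ∈ L'.lattice ↔ ∃ k : ℤ, z - k * R ∈ L.lattice := by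
  obtain ⟨L', e⟩ := ex_pair L (L.lattice ⊔ Submodule.span ℤ {R}) le_sup_left (N := l)
    (by exact_mod_cast o.pr.ne_zero) (fun z hz => by
      obtain ⟨x, hx, y, hy, rfl⟩ := Submodule.mem_sup.1 hz
      obtain ⟨i, rfl⟩ := Submodule.mem_span_singleton.1 hy
      convert add_mem (L.lattice.smul_mem l hx) (L.lattice.smul_mem i o.mem) using 1
      simp only [zsmul_eq_mul]
      push_cast
      ring)
  refine ⟨L', fun z => ?_⟩
  simp only [e, Submodule.mem_sup, Submodule.mem_span_singleton, zsmul_eq_mul]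
  exact ⟨fun ⟨x, a, _, ⟨k, rfl⟩, b⟩ => ⟨k, by simpa [← b] using a⟩,
    fun ⟨k, a⟩ => ⟨_, a, _, ⟨k, rfl⟩, by simp⟩⟩

theorem gen {j : ℤ} (hj : ¬ (l : ℤ) ∣ j) : Ord L l (j * R) ∧
    ∀ F : ℂ → ℂ, (∀ z, ∀ y ∈ L.lattice, F (z + y) = F z) →
      ∏ x ∈ nb l (j * R) with x ∉ L.lattice, F x = ∏ x ∈ nb l R with x ∉ L.lattice, F x := by
  have o' : Ord L l (j * R) := ⟨o.pr, by
    simpa [mul_left_comm] using L.lattice.smul_mem j o.mem, o.dvd.not.2 hj⟩
  refine ⟨o', fun F p => ?_⟩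
  obtain ⟨L', e⟩ := o.ex
  rw [← (o.rep e).prod_smul p j fun z hz a => ?_, o.prod, o'.prod]
  · simp only [mul_left_comm]
  · obtain ⟨k, hk⟩ := (e z).1 hz
    have : (l : ℤ) ∣ j * k := o.dvd.1 (by
      convert sub_mem a (L.lattice.smul_mem j hk) using 1
      simp only [zsmul_eq_mul]
      push_cast
      ring)
    simpa using add_mem hk
      (o.dvd.2 (((Nat.prime_iff_prime_int.1 o.pr).dvd_or_dvd this).resolve_left hj))

theorem sc (h : Sc c L L') (e : c * R - R' ∈ L'.lattice) : Ord L' l R' :=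
  ⟨o.pr, (h.nm (z := l * R) (by
    convert L'.lattice.smul_mem l e using 1
    simp only [zsmul_eq_mul]
    push_cast
    ring)).2 o.mem, (h.nm e).not.2 o.nm⟩

theorem tr (o' : Ord L' l R') {F F' : ℂ → ℂ} {κ : ℂ} (e : ∀ k : ℕ, F' (k * R') = κ * F (k * R)) :
    ∏ x ∈ nb l R' with x ∉ L'.lattice, F' x =
      κ ^ (l - 1) * ∏ x ∈ nb l R with x ∉ L.lattice, F x := by
  simp only [o.prod, o'.prod, e, prod_mul_distrib, prod_const, Nat.card_Ico]

end Ord

/-- the second coordinate of a neighbour -/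
noncomputable def hY (L : PeriodPair) (u s : ℂ) (l : ℕ) (R : ℂ) : ℂ :=
  (oF L u s (nb l R) - oE L u s (nb l R) - oF L u (-s) (nb l R)) / (2 * oF L u (-s) (nb l R))

/-- the first coordinate of a neighbour times that of the base point -/
noncomputable def hZ (L : PeriodPair) (u s : ℂ) (l : ℕ) (R : ℂ) : ℂ :=
  -(oF L u (-s) (nb l R) - oE L u s (nb l R) - oF L u s (nb l R)) /
    (2 * (oD L u s * oH L u s * oH L u (-s)) ^ (2 * l / 3) * oD L u s * oB L u s (nb l R))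

/-- the cube of the first coordinate of the base point -/
noncomputable def oX (L : PeriodPair) (u s : ℂ) : ℂ := oH L u s * oH L u (-s) / oD L u s ^ 2

theorem hYZ_of {κ ν : ℂ} (l3 : l % 3 = 2) (κ0 : κ ≠ 0) (ν0 : ν ≠ 0) (o : #(nb l R) = l)
    (o' : #(nb l R') = l) (h1 : oH L' u' s' = κ * oH L u s) (h2 : oH L' u' (-s') = κ * oH L u (-s))
    (k0 : KP L' (nb l R') s' * KQ L' (3 * u') (nb l R') u' =
      ν * (KP L (nb l R) s * KQ L (3 * u) (nb l R) u))
    (k1 : KP L' (nb l R') (s' + 3 * u') * KQ L' (3 * u') (nb l R') (u' - s') =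
      ν * (KP L (nb l R) (s + 3 * u) * KQ L (3 * u) (nb l R) (u - s)))
    (k2 : KP L' (nb l R') (-s' + 3 * u') * KQ L' (3 * u') (nb l R') (u' - -s') =
      ν * (KP L (nb l R) (-s + 3 * u) * KQ L (3 * u) (nb l R) (u - -s)))
    (k3 : oB L' u' s' (nb l R') = ν * oB L u s (nb l R)) :
    hY L' u' s' l R' = hY L u s l R ∧ hZ L' u' s' l R' = hZ L u s l R := by
  have h0 : oD L' u' s' = κ * oD L u s := by rw [oD, oD, h1, h2, mul_sub]
  have m : κ ^ (2 * l) * ν ≠ 0 := mul_ne_zero (pow_ne_zero _ κ0) ν0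
  have e0 : oE L' u' s' (nb l R') = κ ^ (2 * l) * ν * oE L u s (nb l R) := by
    rw [oE, oE, o, o', h0, mul_assoc, k0]; ring
  have e1 : oF L' u' s' (nb l R') = κ ^ (2 * l) * ν * oF L u s (nb l R) := by
    rw [oF, oF, o, o', h1, mul_assoc, k1]; ring
  have e2 : oF L' u' (-s') (nb l R') = κ ^ (2 * l) * ν * oF L u (-s) (nb l R) := by
    rw [oF, oF, o, o', h2, mul_assoc, k2]; ring
  rw [hY, hY, hZ, hZ, e0, e1, e2, k3, h0, h1, h2]
  refine ⟨?_, ?_⟩
  · rw [← mul_div_mul_left _ (2 * oF L u (-s) (nb l R)) m]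
    congr 1 <;> ring
  · rw [← mul_div_mul_left _ (_ * oB L u s (nb l R)) m]
    obtain ⟨k, rfl⟩ : ∃ k, l = 3 * k + 2 := ⟨l / 3, by omega⟩
    rw [show 2 * (3 * k + 2) / 3 = 2 * k + 1 by omega]
    congr 1 <;> ring

/-- isomorphic data -/
structure Iso (c : ℂ) (L L' : PeriodPair) (u s u' s' : ℂ) : Prop where
  sc : Sc c L L'
  two : Two L (3 * u) s
  es : c * s - s' ∈ L'.lattice
  eu : ∃ k : ℤ, c * (u + k * (3 * u)) - u' ∈ L'.lattice

namespace Iso

variable (h : Iso c L L' u s u' s')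

include h

theorem et : c * (3 * u) - 3 * u' ∈ L'.lattice := by
  obtain ⟨k, e⟩ := h.eu
  convert sub_mem (L'.lattice.smul_mem 3 e) (L'.lattice.smul_mem k ((h.sc.2 _).2 h.two.P3)) using 1
  simp only [zsmul_eq_mul]
  push_cast
  ring

theorem trans {c' u'' s'' : ℂ} {L'' : PeriodPair} (h' : Iso c' L' L'' u' s' u'' s'') :
    Iso (c' * c) L L'' u s u'' s'' := by
  obtain ⟨k, e⟩ := h.eu
  obtain ⟨j, f⟩ := h'.eu
  refine ⟨h.sc.trans h'.sc, h.two, ?_, k + j + 3 * k * j, ?_⟩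
  · convert add_mem ((h'.sc.2 _).2 h.es) h'.es using 1
    ring
  · convert add_mem ((h'.sc.2 _).2 (L'.lattice.smul_mem (1 + 3 * j) e)) f using 1
    simp only [zsmul_eq_mul]
    push_cast
    ring

theorem neg : Iso c L L' u (-s) u' (-s') :=
  ⟨h.sc, h.two.negQ, by convert neg_mem h.es using 1; ring, h.eu⟩

theorem s3u (e : c * z - z' ∈ L'.lattice) :
    s3 (wp L') (3 * u') (u' + z') = c⁻¹ ^ 2 * s3 (wp L) (3 * u) (u + z) := by
  obtain ⟨k, a⟩ := h.eu
  rw [← s3_shift h.two.P3 k, h.sc.s3' (z := u + z + k * (3 * u)) h.et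
    (by convert add_mem a e using 1; ring)]

theorem g : oG L' (3 * u') u' = c⁻¹ * oG L (3 * u) u := by
  have := h.s3u (z := 0) (z' := 0) (by simp)
  rw [add_zero, add_zero] at this
  have c0 := pow_ne_zero 3 (inv_ne_zero h.sc.1)
  rw [oG, oG, this, h.sc.dA' h.et, h.sc.q' h.et, h.sc.p' h.et, ← mul_div_assoc,
    ← mul_div_mul_left _ (dA L (3 * u) ^ 3 - _) c0]
  congr 1 <;> ring

theorem H : oH L' u' s' = c⁻¹ ^ 2 * oH L u s := by
  have c0 := pow_ne_zero 2 (inv_ne_zero h.sc.1)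
  rw [oH, oH, dF, dF, h.g, h.sc.dX' h.et h.es, h.sc.dY' h.et h.neg.es, ← mul_div_assoc,
    ← mul_div_mul_left _ (dX L (3 * u) s) c0]
  congr 1
  ring

theorem X : oX L' u' s' = oX L u s := by
  have c0 := pow_ne_zero 4 (inv_ne_zero h.sc.1)
  rw [oX, oX, oD, oD, h.H, h.neg.H, ← mul_div_mul_left _ ((oH L u (-s) - _) ^ 2) c0]
  congr 1 <;> ring

theorem YZ (l3 : l % 3 = 2) (o : Ord L l R) (e : c * R - R' ∈ L'.lattice) :
    hY L' u' s' l R' = hY L u s l R ∧ hZ L' u' s' l R' = hZ L u s l R := by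
  have o' := o.sc h.sc e
  have ek : ∀ k : ℕ, c * (k * R) - k * R' ∈ L'.lattice := fun k => by
    convert L'.lattice.smul_mem k e using 1
    simp only [zsmul_eq_mul]
    push_cast
    ring
  have kp : ∀ {z z'}, c * z - z' ∈ L'.lattice →
      KP L' (nb l R') z' = (c⁻¹ ^ 2) ^ (l - 1) * KP L (nb l R) z := fun a =>
    o.tr o' fun k => by rw [h.sc.p' a, h.sc.p' (ek k), mul_sub]
  have kq : ∀ {z z'}, s3 (wp L') (3 * u') z' = c⁻¹ ^ 2 * s3 (wp L) (3 * u) z →
      KQ L' (3 * u') (nb l R') z' = (c⁻¹ ^ 2) ^ (l - 1) * KQ L (3 * u) (nb l R) z := fun a =>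
    o.tr o' fun k => by rw [a, h.sc.s3' h.et (ek k), mul_sub]
  have c0 := pow_ne_zero 2 (inv_ne_zero h.sc.1)
  refine hYZ_of (ν := ((c⁻¹ ^ 2) ^ (l - 1)) ^ 2) l3 c0 (pow_ne_zero _ (pow_ne_zero _ c0)) o.card
    o'.card h.H h.neg.H ?_ ?_ ?_ ?_
  · rw [kp h.es, kq (z := u) (by simpa using h.s3u (z := 0) (z' := 0) (by simp))]; ring
  · rw [kp (z := s + 3 * u) (by convert add_mem h.es h.et using 1; ring),
      kq (z := u - s) (by simpa only [sub_eq_add_neg] using h.s3u h.neg.es)]; ring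
  · rw [kp (z := -s + 3 * u) (by convert add_mem h.neg.es h.et using 1; ring),
      kq (z := u - -s) (by simpa only [sub_neg_eq_add] using h.s3u h.es)]; ring
  · rw [oB, oB, kp h.et, kq (h.sc.s3' h.et h.es)]; ring

end Iso

theorem YZ_gen (l3 : l % 3 = 2) (o : Ord L l R) {j : ℤ} (hj : ¬ (l : ℤ) ∣ j) (u s : ℂ) :
    hY L u s l (j * R) = hY L u s l R ∧ hZ L u s l (j * R) = hZ L u s l R := by
  obtain ⟨o', e⟩ := o.gen hj
  have kp : ∀ z, KP L (nb l (j * R)) z = KP L (nb l R) z := fun z =>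
    e _ fun w y hy => by rw [wp_per hy]
  have kq : ∀ z, KQ L (3 * u) (nb l (j * R)) z = KQ L (3 * u) (nb l R) z := fun z =>
    e _ fun w y hy => by
      rw [(Sc.of_eq rfl).s3' (t := 3 * u) (z := w) (z' := w + y) (by simp)
        (by simpa using neg_mem hy)]; simp
  exact hYZ_of l3 one_ne_zero one_ne_zero o.card o'.card
    (one_mul _).symm (one_mul _).symm (by rw [kp, kq, one_mul]) (by rw [kp, kq, one_mul])
    (by rw [kp, kq, one_mul]) (by rw [oB, oB, kp, kq, one_mul])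

theorem Two.YZ (h : Two L (3 * u) s) (l3 : l % 3 = 2) (o : Ord L l R) :
    oF L u (-s) (nb l R) ≠ 0 ∧ oB L u s (nb l R) ≠ 0 ∧ hY L u s l R ≠ 0 ∧ hY L u s l R + 1 ≠ 0 ∧
      hZ L u s l R ^ 3 = 9 ^ (l - 1) * oX L u s * (hY L u s l R * (hY L u s l R + 1)) := by
  obtain ⟨L', e⟩ := o.ex
  have r := o.rep e
  have c := o.cop (by omega) e
  have T := h.up r c
  obtain ⟨μ, m, m0, m1, m2⟩ := h.tr_all r c
  have pr := h.tr_prod r c
  have b := h.oB_ne r c
  have d0 := T.oD_ne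
  have d1 := T.oH_ne
  have d2 := T.negQ.oH_ne
  have f0 := h.oD_ne
  have f1 := h.oH_ne
  have f2 := h.negQ.oH_ne
  have y : hY L u s l R = -oD L' u s / oH L' u (-s) := by
    rw [hY, m0, m1, m2, oD]; field_simp; ring
  have y1 : hY L u s l R + 1 = oH L' u s / oH L' u (-s) := by rw [y, oD]; field_simp; ring
  refine ⟨m2 ▸ mul_ne_zero m (pow_ne_zero _ d2), b, y ▸ div_ne_zero (neg_ne_zero.2 d0) d2,
    y1 ▸ div_ne_zero d1 d2, ?_⟩
  rw [o.card, m0, m1, m2] at pr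
  rw [y1, y, hZ, m0, m1, m2, show -(μ * oH L' u (-s) ^ 2 - μ * oD L' u s ^ 2 - μ * oH L' u s ^ 2) =
    -2 * μ * oD L' u s * oH L' u s by rw [oD]; ring, oX]
  obtain ⟨k, rfl⟩ : ∃ k, l = 3 * k + 2 := ⟨l / 3, by omega⟩
  rw [show 2 * (3 * k + 2) / 3 = 2 * k + 1 by omega]
  rw [show 2 * (3 * k + 2) = (2 * k + 1) * 3 + 1 by ring, pow_succ (oD L u s * _ * _),
    pow_mul (oD L u s * _ * _)] at pr
  have := pow_ne_zero (2 * k + 1) (mul_ne_zero (mul_ne_zero f0 f1) f2)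
  generalize (oD L u s * oH L u s * oH L u (-s)) ^ (2 * k + 1) = P at *
  field_simp
  linear_combination -pr

/-- the involution -/
theorem Two.flp (h : Two L (3 * u) s) (r : Rep L L' {0, 3 * u, -(3 * u)}) :
    Two L' (3 * (-s / 3)) u ∧ (∃ θ : ℂ, θ ^ 2 = -3 ∧ dA L' (3 * (-s / 3)) = θ * dA L (3 * u) ∧
      dB L' (3 * (-s / 3)) u = θ * (3 * oG L (3 * u) u) ∧
      3 * oG L' (3 * (-s / 3)) (-s / 3) = θ * dB L (3 * u) s) ∧
    ∀ l R, l % 3 = 2 → Ord L l R → Ord L' l R ∧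
      hY L' (-s / 3) u l R = hY L u s l R ∧ hZ L' (-s / 3) u l R = hZ L u s l R := by
  obtain ⟨e, p⟩ := h.par
  obtain ⟨T, a1, w, g1, γ, b1, p1, g, -⟩ := flip h p r
  obtain rfl := g.eq h
  have he := p.he
  have th : (e ^ 2 - e) ^ 2 = -3 := by linear_combination (e ^ 2 - 3 * e + 3) * he
  have e3 : 3 * (-s / 3) = -s := by ring
  have T' : Two L' (3 * (-s / 3)) u := e3.symm ▸ T.negP
  have a2 : dA L' (3 * (-s / 3)) = (e ^ 2 - e) * dA L (3 * u) := by rw [e3, dA_neg, a1]; ring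
  have x2 : ∀ z, dX L' (3 * (-s / 3)) z = dX L' s z := fun z => by
    simp only [e3, dX, wp, L'.weierstrassP_neg]
  have b2 : dB L' (3 * (-s / 3)) u = 3 * (e ^ 2 - e) * oG L (3 * u) u := by
    rw [dB] at b1
    rw [dB, x2, e3, dA_neg, wq, L'.derivWeierstrassP_neg]
    linear_combination -b1
  have g2 : oG L' (3 * (-s / 3)) (-s / 3) = (e ^ 2 - e) * dB L (3 * u) s / 3 :=
    (e3.symm ▸ g1 : Gam L' (3 * (-s / 3)) _ _).eq T'
  refine ⟨T', ⟨_, th, a2, by rw [b2]; ring, by rw [g2]; ring⟩, fun l R l3 o => ?_⟩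
  have o' : Ord L' l R := ⟨o.pr, r.le o.mem, fun a => by
    have := o.dvd.1 (show ((3 : ℤ) : ℂ) * R ∈ _ by simpa using rep3_three r h.P3 a)
    have := (Nat.prime_dvd_prime_iff_eq o.pr Nat.prime_three).1 (by exact_mod_cast this)
    omega⟩
  have y2 : ∀ z, dY L' (3 * (-s / 3)) z = -dY L' s (-z) := fun z => by
    simp only [e3, dY, dA_neg, wp, wq, L'.weierstrassP_neg, L'.derivWeierstrassP_neg]; ring
  have x0 := T.x_ne
  obtain ⟨h1, h2⟩ := h.oH_eq p
  have d := (ex_der r h.P3 h.P0).1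
  obtain ⟨L2, e2⟩ := o.ex
  have kp : ∀ z, KP L' (nb l R) z = KQ L (3 * u) (nb l R) z := fun z => by
    simpa [KP, KQ] using o.tr o' (κ := 1) (F' := fun x => wp L' z - wp L' x)
      (F := fun x => s3 (wp L) (3 * u) z - s3 (wp L) (3 * u) x) fun k => by rw [d, d]; ring
  have kq : ∀ z, KQ L' (3 * (-s / 3)) (nb l R) z = 9 ^ (l - 1) * KP L (nb l R) (3 * z) :=
    fun z => by
      rw [KP, ← (o.rep e2).prod_smul (F := fun x => wp L (3 * z) - wp L x)
        (fun z l hl => by rw [wp_per hl]) 3 (by simpa [Cop] using o.cop (by omega) e2)]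
      refine o.tr o' fun k => ?_
      rw [e3, s3_neg, s3_neg]
      push_cast
      linear_combination w z - w (k * R)
  have kn : ∀ z z', z + z' ∈ L.lattice → KP L (nb l R) z = KP L (nb l R) z' := fun z z' a => by
    rw [← KP_neg, KP, KP, ← wp_per a, neg_add_cancel_left]
  refine ⟨o', hYZ_of (κ := -3) (ν := 9 ^ (l - 1)) l3 (by norm_num)
    (pow_ne_zero _ (by norm_num)) o.card o.card
    ?_ ?_ ?_ ?_ ?_ ?_⟩
  · rw [oH, dF, x2, y2, neg_neg, p1.yp, g2, div_eq_iff x0, h1, h.x_eq.1, T.x_eq.1, a1, b1]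
    clear * - he
    grind
  · rw [oH, dF, x2, dX_neg, y2, neg_neg, p1.ym, g2, div_eq_iff x0, h2, h.x_eq.1, T.x_eq.1, a1, b1]
    clear * - he
    grind
  · rw [kp, kq, kn _ s (by simp [e3])]; ring
  · rw [kp, kq, kn _ (s + 3 * u) (by simp [mul_sub, e3]), e3, ← sub_eq_add_neg]; ring
  · rw [kp, kq, kn _ (s - 3 * u) (by simp [mul_add, e3]), ← KP_neg, ← KQ_neg, e3]; ring_nf
  · rw [oB, oB, kp, kq, e3, KQ_neg]; ring

end Pool.Agent.MP_e23604_nt.Un

end

section

/-!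
The Hesse coordinates of the curve of a lattice and a root of unity of order nine.
-/

set_option autoImplicit false

open Finset
open scoped Classical

namespace Pool.Agent.MP_e23604_nt.M.Hs

open Un

variable {L L' M M' : PeriodPair} {t s u v w z e : ℂ} {X : Finset ℂ}

/-- the first Hesse coordinate -/
noncomputable def eX (L : PeriodPair) (t s z : ℂ) : ℂ := -dB L t s * dX L t z

/-- the second Hesse coordinate -/
noncomputable def eY (L : PeriodPair) (t e z : ℂ) : ℂ :=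
  wq L t + e * dY L t z + e ^ 2 * dY L t (-z)

theorem wq_UV (L : PeriodPair) (t z : ℂ) : wq L z = dY L t z - dY L t (-z) := by
  linear_combination wq_dY L t z + dY_neg L t z

theorem hes_t (he : e ^ 2 + e + 1 = 0) (h3 : 3 * t ∈ L.lattice) (h : t ∉ L.lattice)
    (hz : z ∉ L.lattice) (hs : z + t ∉ L.lattice) (hd : z - t ∉ L.lattice) :
    dX L t (z + t) * dY L t (-z) = wq L t * dX L t z ∧
    eY L t e (z + t) * dY L t (-z) = wq L t * (e * eY L t e z) ∧
    eY L t e (-(z + t)) * dY L t (-z) = wq L t * (e ^ 2 * eY L t e (-z)) := by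
  obtain ⟨a, b, c⟩ := trP h3 h hz hs hd
  simp only [eY, neg_neg]
  exact ⟨a, by linear_combination e * b + e ^ 2 * c - wq L t * dY L t (-z) * (e - 1) * he,
    by linear_combination e * c + e ^ 2 * b -
      wq L t * (e - 1) * (dY L t (-z) + e * dY L t z) * he⟩

theorem hes_s (h : Two L t s) (p : Par L t s e) (hz : z ∉ L.lattice) (hs : z + s ∉ L.lattice)
    (hd : z - s ∉ L.lattice) :
    eX L t s (z + s) * dY L s (-z) = wq L s * eY L t e (-z) ∧
    eY L t e (z + s) * dY L s (-z) = wq L s * eX L t s z ∧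
    eY L t e (-(z + s)) * dY L s (-z) = wq L s * eY L t e z := by
  obtain ⟨a, b, c⟩ := trP h.Q3 h.Q0 hz hs hd
  have he := p.he
  have e1 : ∀ w, dX L t w = dX L s w + dX L t s := fun w => by simp only [dX]; ring
  have e2 : ∀ w, eY L t e w = (3 * wq L t + dA L t * dX L t w -
      (e ^ 2 - e) * (dY L s w - dY L s (-w))) / 2 := fun w => by
    rw [eY, ← wq_UV]
    linear_combination -(1 / 2) * dY_neg L t w + (e ^ 2 - e) / 2 * wq_UV L t w +
      (dY L t w + dY L t (-w)) / 2 * he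
  have n := dY_neg L s z
  obtain ⟨x1, x2⟩ := h.x_eq
  have q0 := p.q0
  have aq := p.aq
  simp only [eX, e2, neg_neg, dX_neg, e1 (z + s), e1 z]
  generalize dX L s (z + s) = x' at *
  generalize dY L s (z + s) = U' at *
  generalize dY L s (-(z + s)) = V' at *
  generalize dY L s (-z) = V at *
  generalize dY L s z = U at *
  generalize dX L s z = x at *
  generalize dX L t s = x0 at *
  generalize wq L s = Ws at *
  generalize wq L t = W at *
  generalize dA L s = a' at *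
  generalize dA L t = A at *
  generalize dB L t s = B at *
  obtain rfl : W = (B - A) * x0 / 3 := by linear_combination x2 / 3
  refine ⟨?_, ?_, ?_⟩
  · rw [show -B * (x' + x0) * V = -B * (x' * V + x0 * V) by ring, a, n, aq, q0, x1]
    clear * - he
    grind
  · rw [show (3 * ((B - A) * x0 / 3) + A * (x' + x0) - (e ^ 2 - e) * (U' - V')) / 2 * V =
      (B * x0 * V + A * (x' * V) - (e ^ 2 - e) * (U' * V - V' * V)) / 2 by ring, a, b, c, n, aq, q0,
      x1]
    clear * - he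
    grind
  · rw [show (3 * ((B - A) * x0 / 3) + A * (x' + x0) - (e ^ 2 - e) * (V' - U')) / 2 * V =
      (B * x0 * V + A * (x' * V) + (e ^ 2 - e) * (U' * V - V' * V)) / 2 by ring, a, b, c, n, aq, q0,
      x1]
    clear * - he
    grind

theorem hes_sum (h : Two L t s) (he : e ^ 2 + e + 1 = 0) (z : ℂ) :
    eX L t s z + eY L t e z + eY L t e (-z) = (dA L t - dB L t s) * dX L s z := by
  have e1 : dX L s z = dX L t z - dX L t s := by simp only [dX]; ring
  simp only [eX, eY, neg_neg, e1]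
  linear_combination h.x_eq.2 - dY_neg L t z + (dY L t z + dY L t (-z)) * he

theorem ab_ne (h : Two L t s) : dA L t - dB L t s ≠ 0 := fun a =>
  a3_ne h.P3 h.P0 (by linear_combination h.x_eq.2 / 3 - dX L t s / 3 * a)

/-- the data of the isogenous lattice -/
theorem flp2 (h : Two L (3 * u) s) (p : Par L (3 * u) s e) (r : Rep L M {0, 3 * u, -(3 * u)}) :
    Two M (3 * (-s / 3)) u ∧ Par M (3 * (-s / 3)) u e ∧
    dA M (3 * (-s / 3)) = (e ^ 2 - e) * dA L (3 * u) ∧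
    dB M (3 * (-s / 3)) u = (e ^ 2 - e) * (3 * oG L (3 * u) u) ∧
    3 * oG M (3 * (-s / 3)) (-s / 3) = (e ^ 2 - e) * dB L (3 * u) s ∧
    s3 (wq L) (3 * u) u = oG L (3 * u) u * (dA L (3 * u) ^ 2 +
      dA L (3 * u) * (3 * oG L (3 * u) u) + (3 * oG L (3 * u) u) ^ 2) ∧
    ∀ z z', s3 (wp M) (3 * (-s / 3)) z - s3 (wp M) (3 * (-s / 3)) z' =
      9 * (wp L (3 * z) - wp L (3 * z')) := by
  obtain ⟨T, a1, w, g1, γ, b1, p1, g, -⟩ := flip h p r
  obtain rfl := g.eq h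
  have he := p.he
  have e3 : 3 * (-s / 3) = -s := by ring
  have T' : Two M (3 * (-s / 3)) u := e3.symm ▸ T.negP
  have x2 : ∀ z, dX M (3 * (-s / 3)) z = dX M s z := fun z => by
    simp only [e3, dX, wp, M.weierstrassP_neg]
  have b2 : dB M (3 * (-s / 3)) u = -dB M s u := by
    rw [dB, dB, x2, e3, dA_neg, wq, M.derivWeierstrassP_neg]
    ring
  obtain ⟨e', p'⟩ := T'.par
  obtain rfl : e' = e := by
    have a := p'.q0
    rw [p1.q0, x2, b2] at a
    have := mul_right_cancel₀ (mul_ne_zero T.x_ne T.b_ne)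
      (show (e' ^ 2 - e') * (dX M s u * dB M s u) = (e ^ 2 - e) * (dX M s u * dB M s u) by
        linear_combination -3 * a - dX M s u * dB M s u * (e ^ 2 - e) * he)
    linear_combination -this / 2 + p'.he / 2 - he / 2
  refine ⟨T', p', by rw [e3, dA_neg, a1]; ring, by rw [b2, b1]; ring, ?_, ?_, fun z z' => ?_⟩
  · rw [(show Gam M (3 * (-s / 3)) (-s / 3) _ by rw [e3]; exact g1).eq T']
    ring
  · rw [← (ex_der r h.P3 h.P0).2.1, p1.q0, T.x_eq.1, a1, b1]
    clear * - he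
    grind
  · rw [e3, s3_neg, s3_neg]
    linear_combination w z - w z'

/-- the ratio of the Hesse coordinates at `u` -/
noncomputable def mp (L : PeriodPair) (u s : ℂ) : ℂ :=
  dX L s u * dX L (3 * u) (u - s) / (dX L (3 * u) u * dX L s (u - s))

section

variable (h : Two L (3 * u) s)

include h

theorem nn9 (i j : ℤ) : u + i * s + j * (3 * u) ∉ L.lattice := (h.nine (by
  convert add_mem (L.lattice.smul_mem i h.Q3) (L.lattice.smul_mem j h.P3) using 1
  simp only [zsmul_eq_mul]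
  ring)).1

theorem x_u : dX L (3 * u) u ≠ 0 := dX_ne h.P0 h.nu.1 h.nu.2.1 h.nu.2.2

theorem n_us : u - s ∉ L.lattice ∧ u - s + s ∉ L.lattice ∧ u - s - s ∉ L.lattice :=
  ⟨by convert nn9 h (-1) 0 using 2; push_cast; ring, by simpa using h.nu.1,
    by convert nn9 h (-2) 0 using 2; push_cast; ring⟩

theorem x_us : dX L s (u - s) ≠ 0 := dX_ne h.Q0 (n_us h).1 (n_us h).2.1 (n_us h).2.2

theorem x_s : dX L s u ≠ 0 := dX_ne h.Q0 h.nu.1 h.nus.1 (n_us h).1

theorem x_ts : dX L (3 * u) (u - s) ≠ 0 := dX_ne h.P0 (n_us h).1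
  (by convert nn9 h (-1) 1 using 2; push_cast; ring)
  (by convert nn9 h (-1) (-1) using 2; push_cast; ring)

theorem mp_ne : mp L u s ≠ 0 :=
  div_ne_zero (mul_ne_zero (x_s h) (x_ts h)) (mul_ne_zero (x_u h) (x_us h))

theorem V_us : dY L s (-(u - s)) ≠ 0 := fun a => pow_ne_zero 3 (x_us h) (by
  linear_combination nrm h.Q3 h.Q0 (n_us h).1 - dY L s (u - s) * a)

theorem mp_eq (p : Par L (3 * u) s e) : mp L u s * eX L (3 * u) s u = eY L (3 * u) e u := by
  obtain ⟨a, b, c⟩ := hes_s h p (n_us h).1 (n_us h).2.1 (n_us h).2.2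
  rw [sub_add_cancel] at a b c
  have s1 := hes_sum h p.he u
  have s2 := hes_sum h p.he (u - s)
  have k : dX L s u * dY L s (-(u - s)) = wq L s * dX L s (u - s) :=
    mul_left_cancel₀ (ab_ne h) (by
      linear_combination a + b + c + wq L s * s2 - dY L s (-(u - s)) * s1)
  rw [mp, div_mul_eq_mul_div, div_eq_iff (mul_ne_zero (x_u h) (x_us h))]
  refine mul_left_cancel₀ (a3_ne h.Q3 h.Q0) ?_
  simp only [eX] at b ⊢
  linear_combination dX L (3 * u) u * (eY L (3 * u) e u * k - dX L s u * b)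

/-- the Hesse coordinates of `u` -/
theorem val_u (p : Par L (3 * u) s e) {a c x N : ℂ} (ha : a = dA L (3 * u))
    (hc : c = 3 * oG L (3 * u) u) (hx : x = dX L (3 * u) u) (hN : N = a ^ 2 + a * c + c ^ 2) :
    eY L (3 * u) e u * eY L (3 * u) e (-u) = x ^ 2 * N ∧
      eY L (3 * u) e u ^ 3 = x ^ 3 * N * (e ^ 2 * c - a) := by
  obtain ⟨M, r⟩ := ex_rep3 h.P3 h.P0
  have q := (flp2 h p r).2.2.2.2.2.1
  obtain ⟨n0, n1, n2⟩ := h.nu
  have k := s3_x h.P3 h.P0 n0 n1 n2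
  rw [(h.gam p).1.2] at k
  obtain ⟨-, t1, t2⟩ := trP h.P3 h.P0 n0 n1 n2
  obtain ⟨-, m1, m2⟩ := trM h.P3 h.P0 n0 n1 n2
  have n := nrm h.P3 h.P0 n0
  have n' := dY_neg L (3 * u) u
  have g := h.g_cube
  have he := p.he
  rw [s3, wq_UV L (3 * u) u, wq_UV L (3 * u) (u + 3 * u), wq_UV L (3 * u) (u - 3 * u)] at q
  simp only [eY, neg_neg]
  rw [← ha, ← hx] at *
  rw [← hc, ← hN] at q
  rw [show oG L (3 * u) u = c / 3 by linear_combination -hc / 3] at k g q
  generalize dY L (3 * u) u = U at *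
  generalize dY L (3 * u) (-u) = V at *
  generalize wq L (3 * u) = W at *
  have e1 : (W + e * U + e ^ 2 * V) * (W + e * V + e ^ 2 * U) = x ^ 2 * N := by
    linear_combination -x ^ 2 * hN - 3 * k - 3 * n + (U + V - 2 * W - a * x) * n' +
      (W * (U + V) + (e - 1) * (U ^ 2 + V ^ 2) + (e ^ 2 - e + 1) * U * V) * he
  have e2 : (U - V) * (W - U) * (W - V) = -(c / 3 * N * x ^ 3) := by
    linear_combination U * V * q - U * t1 + U * t2 - V * m2 + V * m1 + c / 3 * N * n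
  refine ⟨e1, ?_⟩
  have e3 : 2 * (W + e * U + e ^ 2 * V) ^ 3 = -3 * (e ^ 2 - e) * ((U - V) * (W - U) * (W - V)) +
      27 * (U * V) * W - (U + V + W) ^ 3 +
      3 * (U + V + W) * ((W + e * U + e ^ 2 * V) * (W + e * V + e ^ 2 * U)) := by
    clear * - he
    grind
  rw [e1, e2, n, show U + V + W = -a * x by linear_combination n'] at e3
  linear_combination e3 / 2 + 27 / 2 * x ^ 3 * g - (a - c) * x ^ 3 / 2 * hN -
    c * N * x ^ 3 / 2 * he

/-- the ratio satisfies two equations -/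
theorem mp_val (p : Par L (3 * u) s e) {a c : ℂ} (ha : a = dA L (3 * u))
    (hc : c = 3 * oG L (3 * u) u) : mp L u s ^ 3 * (a - c) = a - e ^ 2 * c := by
  have y := (val_u h p ha hc rfl rfl).2
  have k := h.abc
  rw [← ha, ← hc] at k
  have N0 : a ^ 2 + a * c + c ^ 2 ≠ 0 := fun n =>
    pow_ne_zero 3 h.b_ne (by linear_combination -k + (a - c) * n)
  rw [← mp_eq h p, eX] at y
  refine mul_left_cancel₀ (mul_ne_zero (pow_ne_zero 3 (x_u h)) N0) ?_
  linear_combination -y + (mp L u s * dX L (3 * u) u) ^ 3 * k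

end

/-- the line through two points -/
noncomputable def ln (L : PeriodPair) (v w z : ℂ) : ℂ :=
  (wq L z - wq L v) / 2 - (wq L w - wq L v) / (2 * (wp L w - wp L v)) * (wp L z - wp L v)

theorem ln_v (L : PeriodPair) (v w : ℂ) : ln L v w v = 0 := by simp [ln]

theorem ln_w (h : wp L w - wp L v ≠ 0) : ln L v w w = 0 := by
  rw [ln]
  field_simp
  ring

theorem pole_ln (L : PeriodPair) (v w : ℂ) : Pole L 3 (ln L v w) (-1) :=
  (((pole_q L).lin (pole_p L).up (1 / 2) (-((wq L w - wq L v) / (2 * (wp L w - wp L v))))).lin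
    (Pole.const (L := L) 1).up.up.up 1 ((wq L w - wq L v) / (2 * (wp L w - wp L v)) * wp L v -
      wq L v / 2)).congr (fun z => by rw [ln]; ring) (by ring)

theorem prod_ln (r : Rep L L' X) (hv : v ∉ L'.lattice) (hw : w ∉ L'.lattice)
    (h : wp L w - wp L v ≠ 0) (h' : wp L' w - wp L' v ≠ 0) (hz : z ∉ L'.lattice) :
    ∏ x ∈ X, ln L v w (z + x) = (∏ x ∈ X with x ∉ L.lattice, ln L v w x) * ln L' v w z := by
  have p := pole_ln L v w
  obtain ⟨b, c, hc⟩ := (r.pole p).three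
  have a1 := hc v hv
  have a2 := hc w hw
  rw [r.split p.per, ln_v, zero_mul] at a1
  rw [r.split p.per, ln_w h, zero_mul] at a2
  rw [hc z hz, ln]
  field_simp
  linear_combination -2 * (wp L' w - wp L' z) * a1 - 2 * (wp L' z - wp L' v) * a2

/-- the intercept of a line through two points of order nine -/
noncomputable def mY (L : PeriodPair) (u s : ℂ) : ℂ :=
  -ln L (u + s + 3 * u) (u - s + 3 * u) (3 * u) / wq L (3 * u)

section

variable (h : Two L (3 * u) s)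

include h

theorem ln_ne : u + s + 3 * u ∉ L.lattice ∧ u - s + 3 * u ∉ L.lattice ∧
    wp L (u - s + 3 * u) - wp L (u + s + 3 * u) ≠ 0 := by
  have a : u + s + 3 * u ∉ L.lattice := by convert nn9 h 1 1 using 2; push_cast; ring
  have b : u - s + 3 * u ∉ L.lattice := by convert nn9 h (-1) 1 using 2; push_cast; ring
  refine ⟨a, b, fun e => ?_⟩
  rcases wp_eq b a (sub_eq_zero.1 e) with e | e
  · exact two_not h.Q3 h.Q0 (by convert e using 1; ring)
  · exact h.nu.1 (by convert sub_mem h.P3 e using 1; ring)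

theorem ln_eq : ∃ m, ∀ z, ln L (u + s + 3 * u) (u - s + 3 * u) z =
    dY L (3 * u) z - m * dX L (3 * u) z - mY L u s * wq L (3 * u) := by
  refine ⟨(wq L (u - s + 3 * u) - wq L (u + s + 3 * u)) /
    (2 * (wp L (u - s + 3 * u) - wp L (u + s + 3 * u))) - dA L (3 * u) / 2, fun z => ?_⟩
  rw [mY, div_mul_cancel₀ _ (a3_ne h.P3 h.P0), ln, ln, dY, dX]
  ring

theorem mY_eq (p : Par L (3 * u) s e) {a b c : ℂ} (ha : a = dA L (3 * u))
    (hb : b = dB L (3 * u) s) (hc : c = 3 * oG L (3 * u) u) :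
    (mY L u s - e ^ 2) * (a ^ 2 + a * c + c ^ 2 - b * (a - e ^ 2 * c)) =
      (mY L u s - e) * (mp L u s * (e * b * (a - e ^ 2 * c - b))) := by
  obtain ⟨m, hm⟩ := ln_eq h
  obtain ⟨n1, n2, n3⟩ := ln_ne h
  have he := p.he
  have k : ∀ z, 3 * b * ln L (u + s + 3 * u) (u - s + 3 * u) z =
      (a * (1 - mY L u s) + 3 * m) * eX L (3 * u) s z + b * (e ^ 2 - mY L u s) * eY L (3 * u) e z +
        b * (e - mY L u s) * eY L (3 * u) e (-z) := fun z => by
    rw [hm, eX, eY, eY, neg_neg, dY_neg, ← ha, ← hb]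
    clear * - he
    grind
  have k1 := k (u + s + 3 * u)
  have k2 := k (u - s + 3 * u)
  rw [ln_v] at k1
  rw [ln_w n3] at k2
  obtain ⟨a1, a2, a3⟩ := hes_t he h.P3 h.P0 h.nus.1 n1 h.nus.2.2
  obtain ⟨b1, b2, b3⟩ := hes_t he h.P3 h.P0 (n_us h).1 n2
    (by convert nn9 h (-1) (-1) using 2; push_cast; ring)
  obtain ⟨c1, c2, c3⟩ := hes_s h p h.nu.1 h.nus.1 (n_us h).1
  obtain ⟨d1, d2, d3⟩ := hes_s h p (n_us h).1 (n_us h).2.1 (n_us h).2.2
  rw [sub_add_cancel] at d1 d2 d3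
  obtain ⟨v1, v2⟩ := val_u h p ha hc rfl rfl
  have y := mp_eq h p
  have W0 := a3_ne h.P3 h.P0
  set α := a * (1 - mY L u s) + 3 * m
  have l1 : α * eY L (3 * u) e (-u) + b * (e ^ 2 - mY L u s) * (e * eX L (3 * u) s u) +
      b * (e - mY L u s) * (e ^ 2 * eY L (3 * u) e u) = 0 :=
    mul_left_cancel₀ (mul_ne_zero W0 (a3_ne h.Q3 h.Q0)) (by
      simp only [eX] at *
      linear_combination -dY L (3 * u) (-(u + s)) * dY L s (-u) * k1 - dY L s (-u) *
        (-α * dB L (3 * u) s * a1 + b * (e ^ 2 - mY L u s) * a2 + b * (e - mY L u s) * a3) -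
        wq L (3 * u) * (α * c1 + b * (e ^ 2 - mY L u s) * e * c2 + b * (e - mY L u s) * e ^ 2 * c3))
  have l2 : α * eY L (3 * u) e u + b * (e ^ 2 - mY L u s) * (e * eY L (3 * u) e (-u)) +
      b * (e - mY L u s) * (e ^ 2 * eX L (3 * u) s u) = 0 :=
    mul_left_cancel₀ (mul_ne_zero W0 (V_us h)) (by
      simp only [eX] at *
      linear_combination -dY L (3 * u) (-(u - s)) * wq L s * k2 - wq L s *
        (-α * dB L (3 * u) s * b1 + b * (e ^ 2 - mY L u s) * b2 + b * (e - mY L u s) * b3) +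
        wq L (3 * u) * (α * d2 + b * (e ^ 2 - mY L u s) * e * d3 + b * (e - mY L u s) * e ^ 2 * d1))
  have kk := h.abc
  rw [← ha, ← hb, ← hc] at kk
  have b0 : b ≠ 0 := hb ▸ h.b_ne
  have N0 : a ^ 2 + a * c + c ^ 2 ≠ 0 := fun n =>
    pow_ne_zero 3 b0 (by linear_combination -kk + (a - c) * n)
  have e0 : e ≠ 0 := fun n => by simp [n] at he
  rw [eX, ← hb] at y l1 l2
  have x0 := x_u h
  generalize dX L (3 * u) u = x at *
  generalize eY L (3 * u) e u = Y at *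
  generalize eY L (3 * u) e (-u) = Z at *
  refine mul_left_cancel₀ (mul_ne_zero (mul_ne_zero b0 e0) (mul_ne_zero (pow_ne_zero 4 x0) N0)) ?_
  linear_combination -Y ^ 2 * (Z * l2 - Y * l1) + b * (e ^ 2 - mY L u s) * e *
    ((Y * Z + x ^ 2 * (a ^ 2 + a * c + c ^ 2)) * v1 + b * x * v2) + b * (e - mY L u s) * e ^ 2 *
    (Y * (-b * x * v1 - v2) - x ^ 3 * (a ^ 2 + a * c + c ^ 2) * (a - e ^ 2 * c - b) * y)

end

/-- the root of unity of order nine -/
noncomputable def mz (L M : PeriodPair) (u s : ℂ) : ℂ :=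
  mp L u s * mp M (-s / 3) u * oD L u s / oH L u s

theorem alg_rel {a b c p p' y y' H ζ : ℂ} (he : e ^ 2 + e + 1 = 0) (k : a ^ 3 = b ^ 3 + c ^ 3)
    (b0 : b ≠ 0) (c0 : c ≠ 0) (p0 : p ≠ 0) (p0' : p' ≠ 0) (H0 : H ≠ 0)
    (hH : H = a ^ 2 + b ^ 2 + c ^ 2 + a * b + a * c - e ^ 2 * b * c)
    (hζ : ζ * H = p * p' * ((e ^ 2 - e) * b * c))
    (p3 : p ^ 3 * (a - c) = a - e ^ 2 * c) (p3' : p' ^ 3 * (a - b) = a - e ^ 2 * b)
    (r : (y - e ^ 2) * (a ^ 2 + a * c + c ^ 2 - b * (a - e ^ 2 * c)) =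
      (y - e) * (p * (e * b * (a - e ^ 2 * c - b))))
    (r' : (y' - e ^ 2) * (a ^ 2 + a * b + b ^ 2 - c * (a - e ^ 2 * b)) =
      (y' - e) * (p' * (e * c * (a - e ^ 2 * b - c)))) :
    ζ ^ 3 = e ∧ (y - e ^ 2) * (y' - e ^ 2) = e * ζ * ((y - e) * (y' - e)) := by
  have ac : a - c ≠ 0 := fun n => pow_ne_zero 3 b0 (by
    linear_combination -k + (a ^ 2 + a * c + c ^ 2) * n)
  have ab : a - b ≠ 0 := fun n => pow_ne_zero 3 c0 (by
    linear_combination -k + (a ^ 2 + a * b + b ^ 2) * n)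
  have i1 : (a - e ^ 2 * c) * (a - e ^ 2 * b) * ((e ^ 2 - e) * b * c) ^ 3 =
      e * H ^ 3 * ((a - c) * (a - b)) := by
    rw [hH]
    clear * - he k
    grind
  have i2 : H * (e * b * (a - e ^ 2 * c - b)) * (e * c * (a - e ^ 2 * b - c)) =
      e * ((e ^ 2 - e) * b * c) * (a ^ 2 + a * c + c ^ 2 - b * (a - e ^ 2 * c)) *
        (a ^ 2 + a * b + b ^ 2 - c * (a - e ^ 2 * b)) := by
    rw [hH]
    clear * - he k
    grind
  have nd : ∀ {b c : ℂ}, b ≠ 0 → c ≠ 0 → a ^ 3 = b ^ 3 + c ^ 3 →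
      e * b * (a - e ^ 2 * c - b) = 0 → a ^ 2 + a * c + c ^ 2 - b * (a - e ^ 2 * c) ≠ 0 :=
    fun b0 c0 k n1 n2 => by
      clear * - he b0 c0 k n1 n2
      grind
  refine ⟨mul_right_cancel₀ (mul_ne_zero (pow_ne_zero 3 H0) (mul_ne_zero ac ab)) ?_, ?_⟩
  · linear_combination i1 + (a - c) * (a - b) * ((ζ * H) ^ 2 + ζ * H * (p * p' * ((e ^ 2 - e) * b *
      c)) + (p * p' * ((e ^ 2 - e) * b * c)) ^ 2) * hζ + ((e ^ 2 - e) * b * c) ^ 3 *
        (p' ^ 3 * (a - b) * p3 + (a - e ^ 2 * c) * p3')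
  have n1 := nd b0 c0 k
  have n2 := nd c0 b0 (k.trans (add_comm _ _))
  clear nd
  generalize a ^ 2 + a * c + c ^ 2 - b * (a - e ^ 2 * c) = A at *
  generalize a ^ 2 + a * b + b ^ 2 - c * (a - e ^ 2 * b) = A' at *
  generalize e * b * (a - e ^ 2 * c - b) = B at *
  generalize e * c * (a - e ^ 2 * b - c) = B' at *
  have i3 : p * p' * B * B' = e * ζ * A * A' :=
    mul_left_cancel₀ H0 (by linear_combination p * p' * i2 - e * A * A' * hζ)
  by_cases z1 : A = 0
  · have y1 : y - e = 0 := (mul_eq_zero.1 (r.symm.trans (by rw [z1, mul_zero]))).resolve_right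
      (mul_ne_zero p0 fun n => n1 n z1)
    have z2 : B' = 0 := (mul_eq_zero.1 (i3.trans (by rw [z1]; ring))).resolve_left
      (mul_ne_zero (mul_ne_zero p0 p0') fun n => n1 n z1)
    rw [y1, (mul_eq_zero.1 (r'.trans (by rw [z2]; ring))).resolve_right (n2 z2)]
    ring
  by_cases z2 : A' = 0
  · have y1 : y' - e = 0 := (mul_eq_zero.1 (r'.symm.trans (by rw [z2, mul_zero]))).resolve_right
      (mul_ne_zero p0' fun n => n2 n z2)
    have z3 : B = 0 := (mul_eq_zero.1 (show p * p' * B' * B = 0 by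
      linear_combination i3 + e * ζ * A * z2)).resolve_left
      (mul_ne_zero (mul_ne_zero p0 p0') fun n => n2 n z2)
    rw [y1, (mul_eq_zero.1 (r.trans (by rw [z3]; ring))).resolve_right z1]
    ring
  refine mul_right_cancel₀ (mul_ne_zero z1 z2) ?_
  linear_combination (y' - e ^ 2) * A' * r + (y - e) * (p * B) * r' + (y - e) * (y' - e) * i3

/-- the relation between the two intercepts -/
theorem mz_rel (h : Two L (3 * u) s) (p : Par L (3 * u) s e)
    (r : Rep L M {0, 3 * u, -(3 * u)}) : mz L M u s ^ 3 = e ∧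
    (mY L u s - e ^ 2) * (mY M (-s / 3) u - e ^ 2) =
      e * mz L M u s * ((mY L u s - e) * (mY M (-s / 3) u - e)) := by
  obtain ⟨T, p', a1, a2, a3, -⟩ := flp2 h p r
  have he := p.he
  have t0 : e ^ 2 - e ≠ 0 := fun n => by grind
  have f1 := mp_val T p' a1.symm a3.symm
  have f2 := mY_eq T p' a1.symm a2.symm a3.symm
  refine alg_rel (H := -9 * oH L u s) he h.abc h.b_ne (mul_ne_zero three_ne_zero h.g_ne) (mp_ne h)
    (mp_ne T) (mul_ne_zero (by norm_num) h.oH_ne) ?_ ?_ (mp_val h p rfl rfl)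
    (mul_left_cancel₀ t0 (by linear_combination f1)) (mY_eq h p rfl rfl rfl)
    (mul_left_cancel₀ (pow_ne_zero 2 t0) (by linear_combination f2))
  · rw [(h.oH_eq p).1, h.x_eq.1]
    ring
  · have := h.oH_ne
    rw [mz, oD, (h.oH_eq p).2]
    field_simp
    rw [(h.oH_eq p).1]
    ring

/-! ### Transport -/

theorem dif_tr (r : Rep L L' X) (h3 : 3 * w ∈ L.lattice) (hw : w ∉ L'.lattice)
    (hv : v ∉ L'.lattice) (h1 : v + w ∉ L'.lattice) (h2 : v - w ∉ L'.lattice) :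
    dX L' w v ^ 2 * KP L X v ^ 2 * KP L X w ^ 2 =
      dX L w v ^ (2 * #X) * KP L X (v + w) * KP L X (v - w) := by
  have k : ∀ {z}, z ∉ L'.lattice → z ∉ L.lattice := fun a e => a (r.le e)
  have pe : ∀ z, ∀ l ∈ L.lattice, wp L v - wp L (z + l) = wp L v - wp L z := fun z l hl => by
    rw [wp_per hl]
  have a := r.prod_p' hw hv
  rw [r.split (F := fun z => wp L v - wp L z) pe] at a
  have b : (∏ x ∈ X with x ∉ L.lattice, (wp L v - wp L (w + x))) ^ 2 * KP L X w ^ 2 =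
      (dX L w v ^ 2) ^ #{x ∈ X | x ∉ L.lattice} * KP L X (v + w) * KP L X (v - w) := by
    rw [r.prod_sq fun z l hl => by rw [← add_assoc, wp_per hl], ← prod_const]
    simp only [KP, ← prod_pow, ← prod_mul_distrib]
    refine prod_congr rfl fun x hx => ?_
    obtain ⟨x1, x2⟩ := mem_filter.1 hx
    have c := prod3 h3 (k hw) x2 (r.nz x1 hw).1 (r.nz x1 hw).2 (k hv) (k h1) (k h2)
    have d := prod3 h3 (k hw) (k hv) (k h1) (k h2) x2 (r.nz x1 hw).1 (r.nz x1 hw).2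
    rw [show w + -x = -(x - w) by ring, wp, L.weierstrassP_neg, add_comm w, dX]
    refine mul_left_cancel₀ (dX_ne (k hv) x2 (r.nz x1 hv).1 (r.nz x1 hv).2) ?_
    rw [dX]
    linear_combination (wp L w - wp L x) ^ 2 * c + (wp L v - wp L w) ^ 2 * d
  rw [pow_mul, r.card_nz, pow_succ]
  simp only [dX] at b ⊢
  linear_combination (wp L v - wp L w) ^ 2 * b - KP L X w ^ 2 * (KP L X v * (wp L' v - wp L' w) +
    (wp L v - wp L w) * ∏ x ∈ X with x ∉ L.lattice, (wp L v - wp L (w + x))) * a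

theorem KP_per (X : Finset ℂ) (h : w - z ∈ L.lattice) : KP L X w = KP L X z := by
  rw [KP, KP, ← wp_per (z := z) h, add_sub_cancel]

theorem mp_tr (h : Two L (3 * u) s) (r : Rep L L' X) (c : Cop L L') :
    mp L' u s ^ 2 * KQ L (3 * u) X u = mp L u s ^ (2 * #X) * KQ L (3 * u) X (u - s) := by
  have T := h.up r c
  have n1 : u - s + 3 * u ∉ L'.lattice := by convert nn9 T (-1) 1 using 2; push_cast; ring
  have n2 : u - s - 3 * u ∉ L'.lattice := by convert nn9 T (-1) (-1) using 2; push_cast; ring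
  have k : ∀ {z}, z ∉ L'.lattice → z ∉ L.lattice := fun a e => a (r.le e)
  have d1 := dif_tr r h.Q3 T.Q0 T.nu.1 T.nus.1 (n_us T).1
  have d2 := dif_tr r h.P3 T.P0 (n_us T).1 n1 n2
  have d3 := dif_tr r h.P3 T.P0 T.nu.1 T.nu.2.1 T.nu.2.2
  have d4 := dif_tr r h.Q3 T.Q0 (n_us T).1 (n_us T).2.1 (n_us T).2.2
  rw [sub_add_cancel, KP_per (w := u - s - s) (z := u + s) X
    (by convert neg_mem h.Q3 using 1; ring)] at d4
  have q1 := r.KQ_eq h.P3 T.P0 h.nu.1 h.nu.2.1 h.nu.2.2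
  have q2 := r.KQ_eq h.P3 T.P0 (n_us h).1 (k n1) (k n2)
  have m1 : mp L' u s * (dX L' (3 * u) u * dX L' s (u - s)) = _ :=
    div_mul_cancel₀ _ (mul_ne_zero (x_u T) (x_us T))
  have m2 : mp L u s * (dX L (3 * u) u * dX L s (u - s)) = _ :=
    div_mul_cancel₀ _ (mul_ne_zero (x_u h) (x_us h))
  have m3 := congrArg (· ^ 2) m1
  have m4 := congrArg (· ^ (2 * #X)) m2
  simp only [mul_pow] at m3 m4
  refine mul_right_cancel₀ (mul_ne_zero (mul_ne_zero (pow_ne_zero 2 (r.KP_ne T.P0))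
    (r.KP_ne T.nus.1)) (mul_ne_zero (pow_ne_zero (2 * #X) (x_u h)) (pow_ne_zero (2 * #X) (x_us h)))) ?_
  calc _ = mp L' u s ^ 2 * (dX L (3 * u) u ^ (2 * #X) * KP L X (u + 3 * u) * KP L X (u - 3 * u)) *
        (dX L s (u - s) ^ (2 * #X) * KP L X u * KP L X (u + s)) := by
        linear_combination mp L' u s ^ 2 * KP L X (u + s) *
          (dX L (3 * u) u ^ (2 * #X) * dX L s (u - s) ^ (2 * #X)) * q1
    _ = (dX L' s u ^ 2 * KP L X u ^ 2 * KP L X s ^ 2) *
        (dX L' (3 * u) (u - s) ^ 2 * KP L X (u - s) ^ 2 * KP L X (3 * u) ^ 2) := by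
        rw [← d3, ← d4]
        linear_combination KP L X u ^ 2 * KP L X s ^ 2 * KP L X (u - s) ^ 2 * KP L X (3 * u) ^ 2 * m3
    _ = _ := by
        rw [d1, d2]
        linear_combination -(KP L X (u + s) * KP L X (u - s) * KP L X (u - s + 3 * u) *
          KP L X (u - s - 3 * u)) * m4 - mp L u s ^ (2 * #X) * KP L X (u + s) *
          (dX L (3 * u) u ^ (2 * #X) * dX L s (u - s) ^ (2 * #X)) * q2

theorem rep_up (r : Rep L L' X) (c : Cop L L') (h3 : 3 * t ∈ L.lattice) (m : Rep L M {0, t, -t})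
    (m' : Rep L' M' {0, t, -t}) :
    Rep M M' X ∧ Cop M M' ∧ ∀ z ∈ L'.lattice, (z ∈ M.lattice ↔ z ∈ L.lattice) := by
  have k : ∀ z ∈ L'.lattice, (z ∈ M.lattice ↔ z ∈ L.lattice) := fun z hz =>
    ⟨fun a => c z hz (rep3_three m h3 a), fun a => m.le a⟩
  have ht := m.mem t (by simp)
  have dec : ∀ y ∈ M'.lattice, ∃ j ∈ M.lattice, y - j ∈ L'.lattice := fun y hy => by
    rcases (rep3_mem m').1 hy with a | a | a
    exacts [⟨0, zero_mem _, by simpa using a⟩, ⟨t, ht, a⟩, ⟨-t, neg_mem ht, by simpa using a⟩]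
  refine ⟨⟨fun z hz => (rep3_mem m').2 (((rep3_mem m).1 hz).imp (fun a => r.le a)
    (Or.imp (fun a => r.le a) fun a => r.le a)), fun x hx => m'.le (r.mem x hx), fun y hy => ?_⟩,
    fun z hz a => ?_, k⟩
  · obtain ⟨j, j1, j2⟩ := dec y hy
    obtain ⟨x, ⟨x1, x2⟩, -⟩ := r.uni _ j2
    have x3 : y - x ∈ M.lattice := by convert add_mem (m.le x2) j1 using 1; ring
    exact ⟨x, ⟨x1, x3⟩, fun x' ⟨a, b⟩ => r.inj a x1 ((k _ (sub_mem (r.mem _ a) (r.mem _ x1))).1
      (by convert sub_mem x3 b using 1; ring))⟩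
  · obtain ⟨j, j1, j2⟩ := dec z hz
    have b : 3 * (z - j) ∈ L.lattice := (k _ (by simpa using L'.lattice.smul_mem 3 j2)).1 (by
      simpa [mul_sub] using sub_mem a (M.lattice.smul_mem 3 j1))
    simpa using add_mem (m.le (c _ j2 b)) j1

theorem mz_tr (h : Two L (3 * u) s) (r : Rep L L' X) (c : Cop L L')
    (m : Rep L M {0, 3 * u, -(3 * u)}) (m' : Rep L' M' {0, 3 * u, -(3 * u)}) :
    mz L' M' u s = mz L M u s ^ #X := by
  have T := h.up r c
  obtain ⟨e, p⟩ := h.par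
  obtain ⟨e', p'⟩ := T.par
  obtain ⟨R, C, k⟩ := rep_up r c h.P3 m m'
  obtain ⟨S, -, -, -, -, -, w⟩ := flp2 h p m
  have kq : ∀ z, KQ M (3 * (-s / 3)) X z = 9 ^ #{x ∈ X | x ∉ L.lattice} * KP L X (3 * z) :=
    fun z => by
      rw [KP, ← r.prod_smul (F := fun x => wp L (3 * z) - wp L x) (fun z l hl => by rw [wp_per hl])
        3 (by simpa [Cop] using c), ← prod_const, ← prod_mul_distrib, KQ,
        filter_congr fun x hx => (k x (r.mem x hx)).not]
      exact prod_congr rfl fun x _ => by rw [w]; push_cast; rfl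
  have a1 := mp_tr h r c
  have a2 := mp_tr S R C
  rw [kq, kq, show 3 * (-s / 3) = -s by ring, show 3 * (-s / 3 - u) = -(s + 3 * u) by ring, KP_neg,
    KP_neg] at a2
  obtain ⟨μ, m0, m1, m2, -⟩ := h.tr_all r c
  rw [oE] at m1
  rw [oF] at m2
  have z1 : mz L M u s * oH L u s = _ := div_mul_cancel₀ _ h.oH_ne
  have z2 : mz L' M' u s * oH L' u s = _ := div_mul_cancel₀ _ T.oH_ne
  have z3 := congrArg (· ^ (2 * #X)) z1
  have z4 := congrArg (· ^ 2) z2
  simp only [mul_pow] at z3 z4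
  have sq : mz L' M' u s ^ 2 = mz L M u s ^ (2 * #X) := by
    refine mul_right_cancel₀ (mul_ne_zero (mul_ne_zero m0 (pow_ne_zero 2 T.oH_ne))
      (pow_ne_zero #{x ∈ X | x ∉ L.lattice} (by norm_num : (9 : ℂ) ≠ 0))) ?_
    calc _ = (mp L' u s ^ 2 * KQ L (3 * u) X u) * (mp M' (-s / 3) u ^ 2 *
          (9 ^ #{x ∈ X | x ∉ L.lattice} * KP L X s)) * oD L u s ^ (2 * #X) := by
          linear_combination μ * 9 ^ #{x ∈ X | x ∉ L.lattice} * z4 - mp L' u s ^ 2 *
            mp M' (-s / 3) u ^ 2 * 9 ^ #{x ∈ X | x ∉ L.lattice} * m1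
      _ = _ := by
          rw [a1, a2]
          linear_combination 9 ^ #{x ∈ X | x ∉ L.lattice} * mz L M u s ^ (2 * #X) * m2 -
            9 ^ #{x ∈ X | x ∉ L.lattice} * KP L X (s + 3 * u) * KQ L (3 * u) X (u - s) * z3
  have n1 : mz L M u s ^ 9 = 1 := by
    rw [show 9 = 3 * 3 from rfl, pow_mul, (mz_rel h p m).1]
    linear_combination (e - 1) * p.he
  have n2 : mz L' M' u s ^ 9 = 1 := by
    rw [show 9 = 3 * 3 from rfl, pow_mul, (mz_rel T p' m').1]
    linear_combination (e' - 1) * p'.he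
  calc _ = (mz L' M' u s ^ 2) ^ 5 := by linear_combination -mz L' M' u s * n2
    _ = (mz L M u s ^ 9) ^ #X * mz L M u s ^ #X := by rw [sq]; ring
    _ = _ := by rw [n1, one_pow, one_mul]

end Pool.Agent.MP_e23604_nt.M.Hs

end
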