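import Pool.Agent.Mg.Fe23604m.G160902
import Pool.Agent.Mg.Fe23604m.G81b338
import Pool.Agent.Mg.Fe23604m.Gad4bd4
import Pool.Agent.Mg.Fe23604m.G6a03de
import Pool.Agent.Mg.Fe23604m.G26a658

set_option linter.all false

section

/-!
Formal properties of the third family of points.
-/

set_option autoImplicit false

open Finset QuadraticAlgebra
open scoped Classical

namespace Pool.Agent.MP_e23604_nt.M

open B R S W Un

section

variable {a b c d : Qb}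

theorem Z3.rot (h : Z3 a b c d) : Z3 c a b d :=
  ⟨h.ne, by linear_combination h.pr, by linear_combination h.sm⟩

theorem Z3.n3 (h : Z3 a b c d) : c ≠ 0 := fun e =>
  pow_ne_zero 3 h.ne (neg_eq_zero.1 (by rw [← h.pr, e, mul_zero]))

theorem Z3.on (h : Z3 a b c d) : On 0 1 (d / c) (a / c) := by
  have := h.n3
  rw [on_iff]
  field_simp
  linear_combination a * c * h.sm - h.pr

end

theorem TQ_pf : TQ_st := fun a b c d h => by
  have h1 := h.n3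
  have h2 := h.rot.n3
  have h3 := h.rot.rot.n3
  have h4 := h.ne
  have o := h.on
  refine ⟨o, xc_pt o, yc_pt o, (xc_pt o).trans_ne (div_ne_zero h4 h1), h3, h2, h1, ?_, ?_,
    fun g => ?_, fun u d' i hu e => ?_⟩
  · refine (pt_add_ne G01 (l := a / d) o on_T (div_ne_zero h4 h1) (by field_simp; ring) ?_ ?_).2
    · field_simp
      push_cast
      linear_combination -a * h.pr + d ^ 3 * h.sm
    · field_simp
      push_cast
      linear_combination c * h.sm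
  · rw [tq, pt_neg G01 o, tq]
    congr 1
    field_simp
    push_cast
    linear_combination -h.sm
  · rw [tq, gal_pt g o, tq, map_div₀, map_div₀]
  · rw [tq, tq, (w_pow_pt_T o i).2, e]
    congr 1 <;> field_simp

section

variable {C : AddSubgroup Pt}

theorem prod_TQ (h : ND C) {f : Pt →+ Pt} (hf : ∀ T ∈ C, f T = 0 → T = 0) (F : Pt → Qb) :
    ∏ T ∈ (els (C.map f)).erase 0, F T = ∏ T ∈ (els C).erase 0, F (f T) := by
  have : (els (C.map f)).erase 0 = ((els C).erase 0).image f := by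
    ext T
    simp only [(els_map h.fin f).2, mem_erase, mem_image, mem_els h.fin]
    exact ⟨fun ⟨h0, S, hS, e⟩ => ⟨S, ⟨fun e' => h0 (by rw [← e, e', map_zero]), hS⟩, e⟩,
      fun ⟨S, hS, e⟩ => ⟨fun e' => hS.1 (hf S hS.2 (e.trans e')), S, hS.2, e⟩⟩
  rw [this, prod_image fun S hS T hT e => sub_eq_zero.1 (hf _ (C.sub_mem
    ((mem_els h.fin).1 (mem_of_mem_erase hS)) ((mem_els h.fin).1 (mem_of_mem_erase hT)))
    (by rw [map_sub, e, sub_self]))]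

theorem inj_TQ (h : ND C) : ∀ T ∈ C, pw • T = 0 → T = 0 := fun T hT e => by
  obtain ⟨m, hm⟩ := ex_third h
  have e1 : pw • pw • T = 0 := by rw [e, smul_zero]
  rw [pw_pw_T, neg_eq_zero] at e1
  rw [← hm T hT, mul_comm, mul_smul, e1, smul_zero]

theorem pw_TQ (h : ND C) (F : Pt → Qb) :
    ∏ T ∈ (els (mC pw C)).erase 0, F T = ∏ T ∈ (els C).erase 0, F (pw • T) :=
  prod_TQ h (f := DistribSMul.toAddMonoidHom Pt pw) (inj_TQ h) F

theorem xne_TQ (h : ND C) {T : Pt} (hT : T ∈ (els C).erase 0) : xc T ≠ 0 := fun e =>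
  ne_of_mem_erase hT (inj_TQ h T ((mem_els h.fin).1 (mem_of_mem_erase hT)) ((PI_ok.2.1 T).2 e))

theorem neg_TQ (h : ND C) (z : Qb) : gy C (-z - 1) = (-1) ^ (cd C - 1) * gy C z := by
  rw [gy, gy, ← card_erase h, ← prod_const, ← prod_mul_distrib]
  refine prod_equiv (Equiv.neg Pt) (fun T => by simp [mem_els h.fin]) fun T hT => ?_
  rw [Equiv.neg_apply, (xc_neg T).2 (ne_of_mem_erase hT)]
  ring

theorem neg2_TQ (h : ND C) (z : Qb) :
    gy C (-z - 1) * gy (mC pw C) (-z - 1) = gy C z * gy (mC pw C) z := by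
  rw [neg_TQ h, neg_TQ (pw_nd_T h).1, (pw_nd_T h).2.1, mul_mul_mul_comm, ← mul_pow, neg_mul_neg,
    one_mul, one_pow, one_mul]

/-- the product of the first coordinates -/
noncomputable def kx (C : AddSubgroup Pt) : Qb := ∏ T ∈ (els C).erase 0, xc T

theorem sq_TQ (h : ND C) : gy C w3 ^ 2 = 3 ^ (cd C - 1) * kx C ^ 2 * kx (mC pw C) := by
  refine mul_left_cancel₀ (pow_ne_zero (cd C - 1) (neg_ne_zero.2 one_ne_zero)) ?_
  rw [sq, ← mul_assoc, ← neg_TQ h, ← mul_assoc, ← mul_assoc, ← mul_pow, kx, kx, pw_TQ h,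
    ← card_erase h, ← prod_const, ← prod_pow, gy, gy, ← prod_mul_distrib, ← prod_mul_distrib,
    ← prod_mul_distrib]
  refine prod_congr rfl fun T hT => ?_
  have := xne_TQ h hT
  rw [(PI_ok.2.2.1 T this).1]
  field_simp
  linear_combination xy_eq T - w3_spec

theorem cub_TQ (hV : VV_st) (h : ND C) {P : Pt} (hP : G9 P) :
    gy C (yc P) * gy C (yc (4 • P)) * gy C (yc (7 • P)) =
      (W.io pw ^ 3) ^ (cd C - 1) * kx C ^ 3 * gy (mC pw C) (yc (pw • P)) := by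
  rw [gy, gy, gy, gy, kx, pw_TQ h, ← card_erase h, ← prod_const, ← prod_pow, ← prod_mul_distrib,
    ← prod_mul_distrib, ← prod_mul_distrib, ← prod_mul_distrib]
  refine prod_congr rfl fun T hT => ?_
  have := xne_TQ h hT
  have := io_ne pw_ne
  rw [(hV.2 P hP).2.2.2.2.2.2.2.2.2.2.2.2.2.2.2, (PI_ok.2.2.1 T ‹_›).2, xy_eq]
  field_simp

end

theorem MPR_of (hV : VV_st) : MPR_st := fun C P h hP => by
  obtain ⟨h1, h2, h3⟩ := pw_nd_T h
  obtain ⟨-, -, -, -, -, -, -, -, -, v1, -, -, -, v2, v3, -⟩ := hV.2 P hP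
  have a1 := sq_TQ h
  have a2 := sq_TQ h1
  have b1 := cub_TQ hV h hP
  have b2 := cub_TQ hV h1 hP
  rw [h2, h3] at a2 b2
  have e : gy C (yc (pw • P)) * gy (mC pw C) (yc (pw • P)) = gy C w3 * gy (mC pw C) w3 := by
    rcases v3 with e | e
    · rw [e]
    · rw [e, show w3 ^ 2 = -w3 - 1 by linear_combination w3_spec, neg2_TQ h]
  have k : ∀ {C : AddSubgroup Pt}, ND C → kx C ≠ 0 := fun h => prod_ne_zero_iff.2 fun _ => xne_TQ h
  have g : ∀ {C : AddSubgroup Pt}, ND C → gy C w3 ≠ 0 := fun h e => mul_ne_zero (mul_ne_zero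
    (pow_ne_zero _ three_ne_zero) (pow_ne_zero 2 (k h))) (k (pw_nd_T h).1)
    (by rw [← sq_TQ h, e, zero_pow two_ne_zero])
  refine ⟨mul_ne_zero (mul_ne_zero (pow_ne_zero _ (neg_ne_zero.2
    (ne_SKAP three_ne_zero (cbr_cube 3)))) (g h)) (g h1), ?_⟩
  obtain ⟨m, hm⟩ : ∃ m, cd C = m + 1 := Nat.exists_eq_add_one_of_ne_zero fun e => h.c3 (e ▸ dvd_zero 3)
  have c1 : ((-cbr 3) ^ (cd C + 1)) ^ 3 = 9 * (-3) ^ m := by
    rw [← pow_mul, mul_comm, pow_mul, Odd.neg_pow (by decide), cbr_cube, hm]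
    push_cast
    ring
  have c2 : (W.io pw ^ 3) ^ m * (W.io pw ^ 3) ^ m = (-3) ^ m * (3 ^ m * 3 ^ m) := by
    simp only [← mul_pow]
    congr 1
    linear_combination (W.io pw ^ 4 - 3 * W.io pw ^ 2 + 9) * io_pw_sq
  have c3 : vv P ^ (2 * cd C) * vv (4 • P) ^ (2 * cd C) * vv (7 • P) ^ (2 * cd C) = 1 := by
    rw [← mul_pow, ← mul_pow, v1, pow_mul, neg_one_sq, one_pow]
  rw [hm, Nat.add_sub_cancel] at a1 a2 b1 b2
  calc _ = (dd (cd C) P * dd (cd C) (4 • P) * dd (cd C) (7 • P)) *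
        (vv P ^ (2 * cd C) * vv (4 • P) ^ (2 * cd C) * vv (7 • P) ^ (2 * cd C)) *
        (gy C (yc P) * gy C (yc (4 • P)) * gy C (yc (7 • P))) *
        (gy (mC pw C) (yc P) * gy (mC pw C) (yc (4 • P)) * gy (mC pw C) (yc (7 • P))) := by
        simp only [mE]
        ring
    _ = -9 * ((W.io pw ^ 3) ^ m * (W.io pw ^ 3) ^ m) * (kx C ^ 3 * kx (mC pw C) ^ 3) *
        (gy C (yc (pw • P)) * gy (mC pw C) (yc (pw • P))) := by
        rw [(v2 _ h.c3).1, c3, b1, b2]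
        ring
    _ = -(((-cbr 3) ^ (cd C + 1)) ^ 3 * gy C w3 ^ 2 * gy (mC pw C) w3 ^ 2 *
        (gy C w3 * gy (mC pw C) w3)) := by
        rw [c1, c2, e, a1, a2]
        ring
    _ = _ := by
        rw [mD]
        ring

theorem vvn_TQ (P : Pt) : vv (-P) = vv P := by
  by_cases h : P = 0
  · rw [h, neg_zero]
  · rw [vv, vv, (xc_neg P).2 h]
    congr 1 <;> ring

theorem vvw_TQ (P : Pt) : vv ((ω : Zw) • P) = vv P := by rw [vv, vv, (xc_w P).2]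

theorem gyw_TQ {C : AddSubgroup Pt} (h : ND C) : gy (mC ω C) = gy C := funext fun z =>
  (prod_TQ h (f := DistribSMul.toAddMonoidHom Pt (ω : Zw)) (fun _ _ e =>
    (unit_smul w_unit).1 e) _).trans (prod_congr rfl fun T _ => by rw [← (xc_w T).2]; rfl)

theorem gyg_TQ (g : GQ) {C : AddSubgroup Pt} (h : ND C) (z : Qb) :
    g (gy C z) = gy (C.map (gal g)) (g z) := by
  rw [gy, gy, prod_TQ h fun T _ e => (gal_ne g).1 e, map_prod]
  exact prod_congr rfl fun T _ => by rw [map_sub, (xc_gal g T).2]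

theorem vvg_TQ (g : GQ) (P : Pt) : g (vv P) = vv (gal g P) := by
  simp only [vv, (xc_gal g P).2, map_div₀, map_add, map_pow, map_mul, map_one, map_ofNat]

theorem mEg_TQ (g : GQ) {C : AddSubgroup Pt} (h : ND C) (P : Pt) :
    g (mE C P) = mE (C.map (gal g)) (gal g P) := by
  simp only [mE, dd, map_mul, map_sub, map_pow, vvg_TQ, map_nsmul, gyg_TQ g h,
    gyg_TQ g (pw_nd_T h).1, gal_pw, (gal_nd g h).2.1, (xc_gal g P).2]

theorem mEn_TQ {C : AddSubgroup Pt} (h : ND C) {P : Pt} (h0 : P ≠ 0) : mE C (-P) = mE C P := by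
  rw [mE, mE, dd, dd, smul_neg, smul_neg, vvn_TQ, vvn_TQ, vvn_TQ, (xc_neg P).2 h0, mul_assoc,
    neg2_TQ h, ← mul_assoc]

theorem mEw_TQ (C : AddSubgroup Pt) (P : Pt) : mE C ((ω : Zw) • P) = mE C P := by
  rw [mE, mE, dd, dd, smul_comm _ (ω : Zw), smul_comm _ (ω : Zw), vvw_TQ, vvw_TQ, vvw_TQ,
    (xc_w P).2]

theorem MGAL_of (hV : VV_st) (hM : MON_st) : MGAL_st := by
  have z : ∀ C P, ND C → G9 P → Z3 (mE C P) (mE C (4 • P)) (mE C (7 • P)) (mD C) :=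
    fun C P h hP => ⟨(MPR_of hV C P h hP).1, (MPR_of hV C P h hP).2, hM C P h hP⟩
  intro C P h hP
  obtain ⟨h1, h2, h3⟩ := pw_nd_T h
  obtain ⟨-, v1, v2, -⟩ := hV.2 P hP
  have n0 : ∀ {Q}, G9 Q → Q ≠ 0 := fun {Q} hQ e =>
    pw_prime.not_dvd_one ((dvd_mul_left _ _).trans ((hQ 1).1 (by rw [e, smul_zero])))
  refine ⟨z C P h hP, ?_, ?_, ?_, ?_, ?_, fun g hg => ?_⟩
  · rw [mq, mq, eq_sub_iff_add_eq, ← mul_smul, show 7 * 4 = 1 + 3 * 9 from rfl, add_smul, one_smul,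
      mul_smul, v2, smul_zero, add_zero]
    exact (TQ_pf _ _ _ _ (z C P h hP).rot.rot).2.2.2.2.2.2.2.1
  · rw [mq, mq, smul_neg, mEn_TQ h (n0 hP), mEn_TQ h (n0 (v1 7 (by decide)))]
  · rw [mq, mq, smul_comm, mEw_TQ, mEw_TQ]
  · simp only [mq, mE, mD, mC_comm pw ω, gyw_TQ h, gyw_TQ h1, (w_nd h).2.1]
  · simp only [mq, mE, mD, h2, h3, mul_right_comm _ (gy (mC pw C) _) (gy C _)]
  · obtain ⟨g1, g2, -⟩ := gal_nd g h
    rw [mq, (TQ_pf _ _ _ _ (z C P h hP)).2.2.2.2.2.2.2.2.2.1, mEg_TQ g h, mEg_TQ g h, map_nsmul,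
      mq, ← (TQ_pf _ _ _ _ (z _ _ g1 (hP.gal hg))).2.2.2.2.2.2.2.2.2.2 1 (g (mD C)) _ one_ne_zero,
      one_mul, one_mul]
    rw [mD, mD, map_mul, map_mul, map_pow, map_neg, act_SKAP three_ne_zero, gyg_TQ g h,
      gyg_TQ g h1, gal_pw, mem_GK'.1 hg, g2, ← mul_neg, mul_pow, ← pow_mul]
    ring

end Pool.Agent.MP_e23604_nt.M

end

section

/-!
The points of order nine.
-/

set_option autoImplicit false

open Finset QuadraticAlgebra
open scoped Classical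

namespace Pool.Agent.MP_e23604_nt.M

open B R S W Un

theorem a1_VV {K : Type} [Field K] [CharZero K] {y b c u v w : K} (h0 : y ≠ 0) (h1 : y + 1 ≠ 0)
    (hb : b = -1 / (y + 1)) (hc : c = -1 / (b + 1)) (hu : u = (y ^ 2 + y + 1) / (3 * (y ^ 2 + y)))
    (hv : v = (b ^ 2 + b + 1) / (3 * (b ^ 2 + b))) (hw : w = (c ^ 2 + c + 1) / (3 * (c ^ 2 + c)))
    (h : y ^ 3 - 3 * y ^ 2 - 6 * y - 1 = 0) :
    u ^ 3 - 3 * u + 1 = 0 ∧ u + v + w = 0 ∧ v = u ^ 2 - 2 ∧ y * u = w ∧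
      ∀ z, (z - y) * (z - b) * (z - c) = z ^ 3 - 3 * z ^ 2 - 6 * z - 1 := by
  have e1 : b = y ^ 2 - 4 * y - 2 := by grind
  have e2 : c = -y ^ 2 + 3 * y + 5 := by
    have : b + 1 ≠ 0 := by grind
    grind
  have e3 : u = (2 * y ^ 2 - 7 * y - 7) / 3 := by
    have : y ^ 2 + y ≠ 0 := by grind
    grind
  have e4 : v = -(y ^ 2 - 2 * y - 5) / 3 := by
    have : b ^ 2 + b ≠ 0 := by grind
    grind
  have e5 : w = (-y ^ 2 + 5 * y + 2) / 3 := by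
    have : c ^ 2 + c ≠ 0 := by grind
    grind
  clear hb hc hu hv hw
  subst e1 e2 e3 e4 e5
  exact ⟨by grind, by grind, by grind, by grind, fun z => by grind⟩

theorem a2_VV {K : Type} [Field K] [CharZero K] {y b c u v w : K} (h0 : y ≠ 0) (h1 : y + 1 ≠ 0)
    (hb : b = -1 / (y + 1)) (hc : c = -1 / (b + 1)) (hu : u = (y ^ 2 + y + 1) / (3 * (y ^ 2 + y)))
    (hv : v = (b ^ 2 + b + 1) / (3 * (b ^ 2 + b))) (hw : w = (c ^ 2 + c + 1) / (3 * (c ^ 2 + c)))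
    (h : y ^ 3 + 6 * y ^ 2 + 3 * y - 1 = 0) :
    u ^ 3 - 3 * u + 1 = 0 ∧ u + w + v = 0 ∧ w = u ^ 2 - 2 ∧ y * u = w ∧
      ∀ z, (z - y) * (z - c) * (z - b) = z ^ 3 + 6 * z ^ 2 + 3 * z - 1 := by
  have e1 : b = y ^ 2 + 5 * y - 2 := by grind
  have e2 : c = -y ^ 2 - 6 * y - 4 := by
    have : b + 1 ≠ 0 := by grind
    grind
  have e3 : u = (2 * y ^ 2 + 11 * y + 2) / 3 := by
    have : y ^ 2 + y ≠ 0 := by grind
    grind
  have e4 : v = -(y ^ 2 + 7 * y + 4) / 3 := by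
    have : b ^ 2 + b ≠ 0 := by grind
    grind
  have e5 : w = (-y ^ 2 - 4 * y + 2) / 3 := by
    have : c ^ 2 + c ≠ 0 := by grind
    grind
  clear hb hc hu hv hw
  subst e1 e2 e3 e4 e5
  exact ⟨by grind, by grind, by grind, by grind, fun z => by grind⟩

theorem add_VV {P : Pt} (h : xc P ≠ 0) : yc P ≠ 0 ∧ yc P + 1 ≠ 0 ∧ xc (P + T0) ≠ 0 ∧
    yc (P + T0) = -1 / (yc P + 1) := by
  have e := xy_eq P
  have h0 : yc P ≠ 0 := fun a => pow_ne_zero 3 h (by rw [← e, a]; ring)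
  have h1 : yc P + 1 ≠ 0 := fun a => pow_ne_zero 3 h (by linear_combination yc P * a - e)
  obtain ⟨o, e'⟩ := on_xy (P := P) fun a => h (a ▸ rfl)
  obtain ⟨o2, e2⟩ := pt_add_ne G01 (l := yc P / xc P) (x₃ := -yc P / xc P ^ 2)
    (y₃ := -1 / (yc P + 1)) o on_T h (by field_simp; ring) (by
      push_cast
      field_simp
      linear_combination -e) (by
      push_cast
      field_simp
      linear_combination -yc P * e)
  rw [← e'] at e2
  rw [T0, T, e2, xc_pt o2, yc_pt o2]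
  exact ⟨h0, h1, div_ne_zero (neg_ne_zero.2 h0) (pow_ne_zero 2 h), rfl⟩

theorem vv_VV (P : Pt) : vv P = (xc P ^ 3 + 1) / (3 * xc P ^ 3) := by rw [vv, xy_eq]

theorem neg_VV (P : Pt) : vv (-P) = vv P := by rw [vv_VV, vv_VV, (xc_neg P).1]

theorem w_VV (P : Pt) : vv ((ω : Zw) • P) = vv P := by
  rw [vv_VV, vv_VV, (xc_w P).1, mul_pow, w3_cube, one_mul]

theorem un_VV {u : Zw} (h : IsUnit u) (P : Pt) : vv (u • P) = vv P := by
  have : ∀ i : ℕ, vv ((ω : Zw) ^ i • P) = vv P := fun i => by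
    induction i with
    | zero => simp
    | succ i ih => rw [pow_succ', mul_smul, w_VV, ih]
  obtain ⟨i, rfl | rfl⟩ := unit6 h
  exacts [this i, by rw [neg_smul, neg_VV, this]]

theorem cop_VV {P : Pt} (h : G9 P) {u : Zw} (hu : ¬ pw ∣ u) : G9 (u • P) := by
  have := (pw_prime.coprime_iff_not_dvd.2 hu).symm
  exact Gen.cop h (by
    rw [show 3 * pw = -pw ^ 3 by decide]
    exact this.pow_right.neg_right)

theorem nat_VV {P : Pt} (h : G9 P) {n : ℕ} (hn : ¬ 3 ∣ n) : G9 (n • P) := by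
  rw [← Nat.cast_smul_eq_nsmul Zw]
  exact cop_VV h fun e => hn (Nat.prime_three.dvd_of_dvd_pow (nn_nat n ▸ pw_dvd_iff.1 e))

theorem nine_VV {P : Pt} (h : G9 P) : 9 • P = 0 := by
  rw [← Nat.cast_smul_eq_nsmul Zw]
  exact (h _).2 ⟨-pw, by decide⟩

theorem core_VV {P : Pt} (h : G9 P) : (3 • P = T0 ∨ 3 • P = -T0) ∧ xc P ≠ 0 ∧ xc P ^ 3 + 1 ≠ 0 ∧
    vv P ^ 3 - 3 * vv P + 1 = 0 ∧ vv P + vv (4 • P) + vv (7 • P) = 0 ∧ vv (4 • P) = vv P ^ 2 - 2 ∧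
    (yc P * vv P = vv (4 • P) ∨ yc P * vv P = vv (7 • P)) ∧
    (yc (pw • P) = w3 ∨ yc (pw • P) = w3 ^ 2) ∧ ∀ z : Qb,
    (z - yc P) * (z - yc (4 • P)) * (z - yc (7 • P)) =
      (z - w3 ^ 2) ^ 3 - yc (pw • P) * W.io pw ^ 3 * (z ^ 2 + z) := by
  obtain ⟨p1, p2, p3, p4, -⟩ := PI_ok
  have e3 : 3 • P = -(pw • pw • P) := by
    rw [← mul_smul, ← sq, pw_sq, neg_smul, neg_neg, ← Nat.cast_smul_eq_nsmul Zw, Nat.cast_ofNat]
  have n1 : pw • pw • P ≠ 0 := fun e => absurd (nn_dvd ((h _).1 ((mul_smul _ _ _).trans e))) (by decide)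
  have x1 : xc (pw • P) ≠ 0 := fun e => n1 ((p2 _).2 e)
  have x0 : xc P ≠ 0 := fun e => (smul_ne n1).2 ((p2 _).2 e)
  have x3 : xc (pw • P) ^ 3 = -1 := ((p4 _).1 ((mul_smul _ _ _).symm.trans h.zero)).resolve_left x1
  have pn : W.io pw ≠ 0 := io_ne pw_ne
  have cu : yc (pw • P) * W.io pw ^ 3 * (yc P ^ 2 + yc P) = (yc P - w3 ^ 2) ^ 3 := by
    rw [(p3 P x0).2, xy_eq]
    field_simp
  have y2 : yc (pw • pw • P) * W.io pw ^ 3 = -(yc (pw • P) - w3 ^ 2) ^ 3 := by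
    rw [(p3 _ x1).2, div_pow, mul_pow, x3]
    field_simp
  have tt : pw • pw • P = T0 ∨ pw • pw • P = -T0 := ((p1 _).1 (by
    rw [← mul_smul, ← mul_smul]
    exact (h _).2 ⟨-1, by decide⟩)).resolve_left n1
  have p3' : W.io pw ^ 3 = -3 * (1 + 2 * w3) := by rw [pow_succ, io_pw_sq, io_pw]
  have tt2 : T0 + T0 = -T0 := T_add_T G01
  obtain ⟨h0, h1, x4, hb⟩ := add_VV x0
  have hc := (add_VV x4).2.2.2
  have n3 : xc P ^ 3 + 1 ≠ 0 := fun e => x1 (by rw [(p3 P x0).1, e, zero_div])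
  have yU : (yc (pw • P) - w3) * (yc (pw • P) - w3 ^ 2) = 0 := by
    linear_combination xy_eq (pw • P) + x3 - (yc (pw • P) + 1 - w3) * w3_spec
  have e4 : 4 • P = P + 3 • P := succ_nsmul' P 3
  have e7 : 7 • P = P + 3 • P + 3 • P := by abel
  rcases mul_eq_zero.1 yU with e | e <;> rw [sub_eq_zero] at e <;> rw [e, p3'] at cu y2 ⊢
  · have k : 3 • P = T0 := by
      rw [e3, tt.resolve_left fun a => ?_, neg_neg]
      rw [a, xc_T0.2] at y2
      exact pow_ne_zero 3 pn (by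
        linear_combination p3' + y2 + (w3 ^ 4 - 4 * w3 ^ 3 + 6 * w3 ^ 2 - 3 * w3 - 3) * w3_spec)
    rw [e4, e7, k]
    obtain ⟨a, b, c, d, f⟩ := a1_VV h0 h1 hb hc rfl rfl rfl (by
      linear_combination -cu + (w3 ^ 4 - w3 ^ 3 + w3 - 1 - 3 * yc P ^ 2 -
        3 * yc P * (w3 ^ 2 - w3 + 2)) * w3_spec)
    exact ⟨.inl rfl, x0, n3, a, b, c, .inr d, .inl rfl, fun z => by
      linear_combination f z + (w3 ^ 4 - w3 ^ 3 + w3 - 1 - 3 * z ^ 2 -
        3 * z * (w3 ^ 2 - w3 + 2)) * w3_spec⟩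
  · have k : 3 • P = -T0 := by
      rw [e3, tt.resolve_right fun a => ?_]
      rw [a, (xc_neg T0).2 T0_ne, xc_T0.2] at y2
      exact pow_ne_zero 3 pn (by linear_combination p3' - y2)
    rw [e4, e7, k, add_assoc P (-T0), ← neg_add, tt2, neg_neg, ← tt2, ← add_assoc]
    obtain ⟨a, b, c, d, f⟩ := a2_VV h0 h1 hb hc rfl rfl rfl (by
      linear_combination -cu + (w3 ^ 4 - w3 ^ 3 + w3 - 1 - 6 * yc P ^ 2 * (w3 - 1) -
        3 * yc P * (w3 ^ 2 + w3 - 1)) * w3_spec)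
    exact ⟨.inr rfl, x0, n3, a, b, c, .inl d, .inr rfl, fun z => by
      linear_combination f z + (w3 ^ 4 - w3 ^ 3 + w3 - 1 - 6 * z ^ 2 * (w3 - 1) -
        3 * z * (w3 ^ 2 + w3 - 1)) * w3_spec⟩

theorem VV_pf : VV_st := by
  refine ⟨(CYG_ok _ (by decide)).1, fun P h => ?_⟩
  obtain ⟨a1, a2, a3, a4, a5, a6, a7, a8⟩ := core_VV h
  refine ⟨fun u hu => ⟨cop_VV h hu, ?_⟩, fun n => nat_VV h, nine_VV h, a1, neg_VV P, w_VV P, a2, a3,
    a4, by grind, a5, a6, a7, fun n hn => ?_, a8⟩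
  · obtain ⟨e, he, c, hc⟩ := ex_pry hu
    rw [← un_VV he (u • P), ← mul_smul]
    simp only [← Nat.cast_smul_eq_nsmul Zw (4 ^ _)]
    rcases mod_pw c with ⟨d, a⟩ | ⟨d, a⟩ | ⟨d, a⟩
    · exact ⟨0, congrArg vv (smul_congr h.zero ⟨d, by push_cast; linear_combination hc + 3 * a⟩)⟩
    · exact ⟨1, congrArg vv (smul_congr h.zero ⟨d, by push_cast; linear_combination hc + 3 * a⟩)⟩
    · exact ⟨2, congrArg vv (smul_congr h.zero
        ⟨d + 2 * pw, by push_cast; linear_combination hc + 3 * a - 6 * pw_sq⟩)⟩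
  · have g := nat_VV h (n := n ^ 2) fun e => hn (Nat.prime_three.dvd_of_dvd_pow e)
    obtain ⟨-, -, -, b4, b5, b6, -⟩ := core_VV g
    have n9 := nine_VV g
    simp only [dd, mul_nsmul', smul_comm (n ^ 2)]
    generalize n ^ 2 • P = Q at *
    rw [show 7 • 4 • Q = Q + 3 • 9 • Q by abel, show 7 • 7 • Q = 4 • Q + 5 • 9 • Q by abel, n9,
      smul_zero, smul_zero, add_zero, add_zero]
    exact ⟨by grind, by ring⟩

end Pool.Agent.MP_e23604_nt.M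

end

section

/-!
The linear relation between the three elliptic units.
-/

set_option autoImplicit false

open Finset QuadraticAlgebra
open scoped Classical

namespace Pool.Agent.MP_e23604_nt.M.Hs

open B R S W Un

variable {L L' M : PeriodPair} {C : AddSubgroup Pt} {P Q : Pt} {z c u s : ℂ}

theorem mY_sc (h : Sc c L L') (T : Two L (3 * u) s) : mY L' (c * u) (c * s) = mY L u s := by
  have c0 := h.1
  have a := (ln_ne T).2.2
  have b := a3_ne T.P3 T.P0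
  rw [mY, mY, ln, ln, show c * u + c * s + 3 * (c * u) = c * (u + s + 3 * u) by ring,
    show c * u - c * s + 3 * (c * u) = c * (u - s + 3 * u) by ring,
    show 3 * (c * u) = c * (3 * u) by ring]
  simp only [h.wp_mul, h.wq_mul, ← mul_sub]
  field_simp

theorem wq_MON (h0 : Q ≠ 0) (h : lg Q - z ∈ L0.lattice) : wq L0 z = 2 * eC (yc Q) + 1 := by
  rw [← wq_per (z := z) h, add_sub_cancel, (lg_xy h0).2, map_add, map_mul, map_ofNat, map_one]

theorem mem_MON (h : G9 P) (b : Zw) : iz b * lg P ∈ L0.lattice ↔ 3 * pw ∣ b := by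
  rw [← h b, ← lg_mem, ← L0.lattice.add_mem_iff_left (lg_smul b P), add_sub_cancel]

theorem pi_sq : iz pw * iz pw = -3 := by rw [← map_mul, ← sq, pw_sq, map_neg, map_ofNat]

theorem two_MON (h : G9 P) : Two L0 (3 * lg P) (iz pw * lg P) := by
  have k : ∀ (b : Zw) (z : ℂ), z = iz b * lg P → ¬ 27 ∣ nn b → z ∉ L0.lattice := fun b z e n a =>
    n (nn_dvd ((mem_MON h b).1 (e ▸ a)))
  refine ⟨?_, ?_, k 3 _ (by rw [map_ofNat]) (by decide), k pw _ rfl (by decide),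
    k (pw + 3) _ (by rw [map_add, map_ofNat]; ring) (by decide),
    k (pw - 3) _ (by rw [map_sub, map_ofNat]; ring) (by decide)⟩
  · convert (mem_MON h 9).2 ⟨-pw, by decide⟩ using 1
    rw [map_ofNat]
    ring
  · convert (mem_MON h (3 * pw)).2 dvd_rfl using 1
    rw [map_mul, map_ofNat]
    ring

theorem ne_MON (h : G9 P) : P ≠ 0 := fun e => (core_VV h).2.1 (e ▸ rfl)

theorem ln_MON (h : G9 P) (z : ℂ) :
    ln L0 (lg P + iz pw * lg P + 3 * lg P) (lg P - iz pw * lg P + 3 * lg P) z =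
      (wq L0 z - 1) / 2 - eC (yc P) := by
  have k : ∀ b c : Zw, IsUnit b → yc (b • P) = yc P → 3 * pw ∣ b - c →
      wq L0 (iz c * lg P) = 2 * eC (yc P) + 1 := fun b c hb e d => by
    rw [← e]
    refine wq_MON (fun a => ne_MON h (hb.smul_eq_zero.1 a)) ?_
    convert add_mem (lg_smul b P) ((mem_MON h _).2 d) using 1
    rw [map_sub]
    ring
  have a := k (ω * ω) (1 + pw + 3) (w_unit.mul w_unit)
    (by rw [mul_smul, (xc_w _).2, (xc_w _).2]) ⟨ω, by decide⟩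
  have b := k ω (1 - pw + 3) w_unit (xc_w _).2 ⟨-ω * ω, by decide⟩
  simp only [map_add, map_sub, map_one, map_ofNat, add_mul, sub_mul, one_mul] at a b
  rw [ln, a, b]
  ring

theorem t_MON (h3 : 3 • P = T0) : lg T0 - 3 * lg P ∈ L0.lattice := by
  have := lg_smul 3 P
  rwa [map_ofNat, show (3 : Zw) • P = T0 by
    rw [← h3, ← Nat.cast_smul_eq_nsmul Zw, Nat.cast_ofNat]] at this

theorem y_MON (h : G9 P) (h3 : 3 • P = T0) : yc P * (yc (7 • P) + 1) = -1 ∧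
    yc (4 • P) * (yc P + 1) = -1 := by
  obtain ⟨-, a, -, b⟩ := add_VV (core_VV h).2.1
  obtain ⟨-, c, -, d⟩ := add_VV (core_VV (nat_VV h (n := 7) (by decide))).2.1
  rw [← h3, ← add_nsmul, succ_nsmul, nine_VV h, zero_add] at d
  rw [← h3, ← succ_nsmul'] at b
  exact ⟨by rw [d, div_mul_cancel₀ _ c], by rw [b, div_mul_cancel₀ _ a]⟩

/-- the intercept in terms of products over the subgroup -/
theorem link_MON (h : G9 P) (h3 : 3 • P = T0) (hC : ND C) (l : LC C L) :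
    eC (gy C (yc P)) * mY L (lg P) (iz pw * lg P) = eC (yc P ^ cd C * gy C (yc (7 • P))) ∧
    eC (gy C (yc P)) * (mY L (lg P) (iz pw * lg P) + 1) =
      -eC ((-(yc P + 1)) ^ cd C * gy C (yc (4 • P))) := by
  obtain ⟨r, c⟩ := l.rep hC
  have T := two_MON h
  have T' := T.up r c
  obtain ⟨y7, y4⟩ := y_MON h h3
  have t := t_MON h3
  have t1 : wq L0 (3 * lg P) = 1 := by rw [wq_MON T0_ne t, xc_T0.2]; simp
  have t2 : wp L0 (3 * lg P) = 0 := by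
    rw [← wp_per t, add_sub_cancel, lg_x, xc_T0.1, map_zero]
  have n0 : ∀ T ∈ (els C).erase 0, T ≠ 0 := fun T => ne_of_mem_erase
  have η := (r.tr_y T.P3 T'.P0).1
  rw [t1, one_pow, prod_XC, prod_congr rfl fun T hT => show dY L0 (3 * lg P) (lg T) =
    eC (yc T - 0) by rw [dY, dA, t1, t2, L0_g2, wq_MON (n0 T hT) (by simp)]; simp,
    ← map_prod, ← gy] at η
  have k : ∀ z, z ∉ L.lattice → ((wq L0 z - 1) / 2 - eC (yc P)) *
      ∏ T ∈ (els C).erase 0, ((wq L0 (z + lg T) - 1) / 2 - eC (yc P)) =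
      eC (gy C (yc P)) * ln L _ _ z := fun z hz => by
    have := prod_ln r (ln_ne T').1 (ln_ne T').2.1 (ln_ne T).2.2 (ln_ne T').2.2 hz
    rw [r.split (pole_ln _ _ _).per, prod_XC, prod_XC] at this
    simp only [ln_MON h] at this
    rw [this, gy, map_prod]
    congr 1
    exact prod_congr rfl fun T hT => by rw [wq_MON (n0 T hT) (by simp), map_sub]; ring
  obtain ⟨m, hm⟩ := ln_eq T'
  have k1 := k _ T'.P0
  have k2 := k (-(3 * lg P)) (by simpa using T'.P0)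
  rw [hm, dY_self, dX, t1, prod_congr rfl fun T hT => show _ = eC (yc (T + T0) - yc P) by
    rw [wq_MON (Q := T + T0) (fun a => (add_VV (xne_TQ hC hT)).2.2.1 (a ▸ rfl))
      (by convert add_mem (lg_add T T0) t using 1; ring), map_sub]; ring, ← map_prod] at k1
  have x1 : ∀ T ∈ (els C).erase 0, xc (-T) ≠ 0 := fun T hT => (xc_neg T).1 ▸ xne_TQ hC hT
  have x2 : ∀ T ∈ (els C).erase 0, -T + T0 ≠ 0 := fun T hT a => (add_VV (x1 T hT)).2.2.1 (a ▸ rfl)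
  rw [hm, dY_negP, dX_neg, dX, wq, L0.derivWeierstrassP_neg, ← wq, t1,
    prod_congr rfl fun T hT => show _ = eC (yc (-(-T + T0)) - yc P) by
    rw [wq_MON (Q := -(-T + T0)) (neg_ne_zero.2 (x2 T hT)) (by
      have := lg_add (-(-T + T0)) T0
      rw [show -(-T + T0) + T0 = T by abel] at this
      convert sub_mem (neg_mem this) t using 1; ring), map_sub]; ring, ← map_prod] at k2
  have A : gy C 0 * ∏ T ∈ (els C).erase 0, (yc (T + T0) - yc P) =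
      yc P ^ (cd C - 1) * gy C (yc (7 • P)) := by
    have := neg_TQ hC (-1)
    rw [neg_neg, sub_self] at this
    rw [this, gy, gy, ← card_erase hC, ← prod_const, ← prod_const]
    simp only [← prod_mul_distrib]
    refine prod_congr rfl fun T hT => ?_
    obtain ⟨-, a, -, b⟩ := add_VV (xne_TQ hC hT)
    linear_combination y7 - (eq_div_iff a).1 b
  have B : gy C 0 * ∏ T ∈ (els C).erase 0, (yc (-(-T + T0)) - yc P) =
      (-(yc P + 1)) ^ (cd C - 1) * gy C (yc (4 • P)) := by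
    rw [gy, gy, ← card_erase hC, ← prod_const]
    simp only [← prod_mul_distrib]
    refine prod_congr rfl fun T hT => ?_
    obtain ⟨-, a, -, b⟩ := add_VV (x1 T hT)
    rw [eq_div_iff a, (xc_neg _).2 (n0 T hT)] at b
    rw [(xc_neg _).2 (x2 T hT)]
    linear_combination b - y4
  have A' := congrArg eC A
  have B' := congrArg eC B
  rw [← hC.pos, pow_succ, pow_succ]
  simp only [map_mul, map_neg, map_add, map_one] at A' B' ⊢
  refine ⟨?_, ?_⟩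
  · linear_combination eC (yc P) * A' + eC (gy C 0) * k1 -
      eC (gy C (yc P)) * mY L (lg P) (iz pw * lg P) * η
  · linear_combination (eC (yc P) + 1) * B' + eC (gy C 0) * k2 -
      eC (gy C (yc P)) * (mY L (lg P) (iz pw * lg P) + 1) * η

/-- the lattice of the multiple of the subgroup -/
theorem sc_MON (h3 : 3 • P = T0) (l : LC C L) (l' : LC (mC pw C) L')
    (r : Rep L M {0, 3 * lg P, -(3 * lg P)}) : Sc (iz pw) M L' := by
  have t := t_MON h3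
  have le : L0.lattice ≤ L.lattice := fun z hz =>
    (l z).2 ⟨0, zero_mem _, (ue_eq_zero.2 hz).trans (map_zero _).symm⟩
  have ht := r.mem (3 * lg P) (by simp)
  refine ⟨(map_ne_zero_iff _ iz_inj).2 pw_ne, fun z => ⟨fun a => ?_, fun a => ?_⟩⟩
  · obtain ⟨_, ⟨T, hT, rfl⟩, e⟩ := (l' _).1 a
    change _ = iC (pw • T) at e
    rw [← ue_smul, ue_eq, ← mul_sub] at e
    obtain ⟨Q, -, q⟩ := ex_lg three_pos (z := z - lg T) (by
      convert neg_mem (L0_mul pw e) using 1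
      linear_combination (z - lg T) * pi_sq)
    have q1 : pw • Q = 0 := lg_mem.1 (by
      convert add_mem (add_mem (lg_smul pw Q) (L0_mul pw q)) e using 1; ring)
    have q2 : lg Q ∈ M.lattice := by
      rcases (one_API Q).1 ((two_API Q).1 q1) with rfl | rfl | rfl
      · exact r.le (le (lg_mem.2 rfl))
      · simpa using add_mem (r.le (le t)) ht
      · have := lg_add T0 (-T0)
        rw [add_neg_cancel] at this
        convert sub_mem (sub_mem (sub_mem (r.le (le (lg_mem.2 rfl))) (r.le (le this)))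
          (r.le (le t))) ht using 1
        ring
    convert add_mem (sub_mem q2 (r.le (le q))) (r.le (l.lg.2 hT)) using 1
    ring
  · have k : ∀ w ∈ L.lattice, iz pw * w ∈ L'.lattice := fun w hw => by
      obtain ⟨T, hT, e⟩ := (l w).1 hw
      refine (l' _).2 ⟨pw • T, ⟨T, hT, rfl⟩, ?_⟩
      rw [← ue_lg, ue_eq] at e
      rw [← ue_smul, ue_eq, ← mul_sub]
      exact L0_mul pw e
    have k0 : iz pw * (3 * lg P) ∈ L'.lattice := (l' _).2 ⟨0, zero_mem _, by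
      rw [map_zero, ue_eq_zero]
      have := lg_smul pw T0
      rw [pw_T0] at this
      convert sub_mem (sub_mem (lg_mem.2 rfl) this) (L0_mul pw t) using 1
      ring⟩
    rcases (rep3_mem r).1 a with a | a | a
    · exact k _ a
    · simpa [mul_sub] using add_mem (k _ a) k0
    · simpa [mul_add] using sub_mem (k _ a) k0

theorem rel_MON (h : G9 P) (h3 : 3 • P = T0) : ∃ ζ : ℂ, ∀ C, ND C → ∃ Y Y' : ℂ,
    (eC (gy C (yc P)) * Y = eC (yc P ^ cd C * gy C (yc (7 • P))) ∧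
      eC (gy C (yc P)) * (Y + 1) = -eC ((-(yc P + 1)) ^ cd C * gy C (yc (4 • P)))) ∧
    (eC (gy (mC pw C) (yc P)) * Y' = eC (yc P ^ cd C * gy (mC pw C) (yc (7 • P))) ∧
      eC (gy (mC pw C) (yc P)) * (Y' + 1) =
        -eC ((-(yc P + 1)) ^ cd C * gy (mC pw C) (yc (4 • P)))) ∧
    (ζ ^ cd C) ^ 6 + (ζ ^ cd C) ^ 3 + 1 = 0 ∧ (Y - (ζ ^ cd C) ^ 6) * (Y' - (ζ ^ cd C) ^ 6) =
      (ζ ^ cd C) ^ 4 * ((Y - (ζ ^ cd C) ^ 3) * (Y' - (ζ ^ cd C) ^ 3)) := by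
  have T := two_MON h
  obtain ⟨M0, m0⟩ := ex_rep3 T.P3 T.P0
  refine ⟨mz L0 M0 (lg P) (iz pw * lg P), fun C hC => ?_⟩
  obtain ⟨L, l⟩ := hC.ex_LC
  obtain ⟨h1, h2, -⟩ := pw_nd_T hC
  obtain ⟨L', l'⟩ := h1.ex_LC
  obtain ⟨r, c⟩ := l.rep hC
  have T' := T.up r c
  obtain ⟨M, m⟩ := ex_rep3 T'.P3 T'.P0
  obtain ⟨e, p⟩ := T'.par
  obtain ⟨a, b⟩ := mz_rel T' p m
  rw [← mY_sc (sc_MON h3 l l' m) (flp2 T' p m).1,
    show iz pw * (-(iz pw * lg P) / 3) = lg P by linear_combination -lg P / 3 * pi_sq] at b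
  rw [mz_tr T r c m0 m, card_XC] at a b
  have he := p.he
  subst a
  exact ⟨_, _, link_MON h h3 hC l, h2 ▸ link_MON h h3 h1 l', by linear_combination he,
    by linear_combination b⟩

theorem base_MON {ζ y v : ℂ} (h : ζ ^ 6 + ζ ^ 3 + 1 = 0) (y0 : y ^ 2 + y ≠ 0)
    (e : (y - ζ ^ 6) * (y - ζ ^ 6) = ζ ^ 4 * ((y - ζ ^ 3) * (y - ζ ^ 3)))
    (hv : v = (y ^ 2 + y + 1) / (3 * (y ^ 2 + y))) (c : v ^ 3 - 3 * v + 1 = 0) : v = ζ + ζ ^ 8 := by
  have hv' : v * (3 * (y ^ 2 + y)) = y ^ 2 + y + 1 := by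
    rw [hv, div_mul_cancel₀ _ (mul_ne_zero three_ne_zero y0)]
  clear hv
  rcases mul_eq_zero.1 (show (y - ζ ^ 6 - ζ ^ 2 * (y - ζ ^ 3)) * (y - ζ ^ 6 + ζ ^ 2 * (y - ζ ^ 3)) = 0
    by linear_combination e) with a | a
  · obtain rfl : y = -1 + ζ - ζ ^ 2 - ζ ^ 5 := by
      linear_combination (1 / 3 + 1 / 3 * ζ + 1 / 3 * ζ ^ 2 - 1 / 3 * ζ ^ 3 + 2 / 3 * ζ ^ 4 - 1 / 3 * ζ ^ 5) * a +
        ((1 - ζ + ζ ^ 2 - ζ ^ 3 + ζ ^ 4 - 1 / 3 * ζ ^ 5) - y * (-2 / 3 + 1 / 3 * ζ)) * h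
    obtain rfl : v = -1 / 3 * ζ + 1 / 3 * ζ ^ 2 - 2 / 3 * ζ ^ 4 - 1 / 3 * ζ ^ 5 := by
      linear_combination (-1 - ζ + ζ ^ 2 - 2 * ζ ^ 4 - ζ ^ 5) / 3 * hv' +
        (1 / 3 - v) * (-1 + ζ - ζ ^ 2 + 2 * ζ ^ 4 - ζ ^ 5 - 2 * ζ ^ 8 - ζ ^ 9) * h
    refine absurd ?_ (one_ne_zero (α := ℂ))
    linear_combination (-3 + 3 * ζ - 3 * ζ ^ 2 + 3 / 2 * ζ ^ 4 - 3 / 2 * ζ ^ 5) * c -
      (-4 + 3 * ζ ^ 2 - 17 / 9 * ζ ^ 3 - 35 / 18 * ζ ^ 4 + 7 / 9 * ζ ^ 5 - 2 / 9 * ζ ^ 6 - 5 / 6 * ζ ^ 7 + ζ ^ 8 + 17 / 18 * ζ ^ 9 - 1 / 2 * ζ ^ 10 - 1 / 3 * ζ ^ 11 + 1 / 3 * ζ ^ 12 + 5 / 18 * ζ ^ 13 + 1 / 18 * ζ ^ 14) * h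
  · obtain rfl : y = 1 + ζ - ζ ^ 2 + 2 * ζ ^ 4 + ζ ^ 5 := by
      linear_combination (1 - ζ - ζ ^ 2 + ζ ^ 3 - ζ ^ 5) * a +
        ((-1 - ζ + ζ ^ 2 + ζ ^ 3 - ζ ^ 4 - ζ ^ 5) - y * (-ζ)) * h
    linear_combination (-1 + 3 * ζ - 3 * ζ ^ 2 - 3 * ζ ^ 5) / 3 * hv' +
      ((1 / 3 - v) * (-3 + 3 * ζ + 5 * ζ ^ 2 - 10 * ζ ^ 3 - 10 * ζ ^ 4 + 9 * ζ ^ 5 + 6 * ζ ^ 6 - 12 * ζ ^ 7 - 12 * ζ ^ 8 - 3 * ζ ^ 9) - ζ ^ 2) * h

theorem sq_MON (h : G9 P) {ζ : ℂ} (z : ζ ^ 6 + ζ ^ 3 + 1 = 0) (v : eC (vv P) = ζ + ζ ^ 8) {m k : ℕ}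
    (hm : ¬ 3 ∣ m) (hk : k % 9 = m ^ 2 % 9) : eC (vv (k • P)) = ζ ^ m + (ζ ^ m) ^ 8 := by
  obtain ⟨-, -, -, -, v1, v2, -⟩ := core_VV h
  have z9 : ζ ^ 9 = 1 := by linear_combination (ζ ^ 3 - 1) * z
  have v4 : eC (vv (4 • P)) = ζ ^ 2 + ζ ^ 7 := by
    rw [v2, map_sub, map_pow, map_ofNat, v]
    grind
  have v7 : eC (vv (7 • P)) = ζ ^ 4 + ζ ^ 5 := by
    have := congrArg eC v1
    rw [map_add, map_add, map_zero, v, v4] at this
    grind
  rw [nsmul_eq_mod_nsmul k (nine_VV h), hk, Nat.pow_mod, pow_eq_pow_mod m z9]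
  have : m % 9 < 9 := Nat.mod_lt _ (by norm_num)
  have : m % 9 % 3 ≠ 0 := by omega
  generalize m % 9 = j at *
  interval_cases j <;> norm_num at * <;> grind

theorem _root_.Pool.Agent.MP_e23604_nt.M.MON_pf : MON_st := by
  suffices k : ∀ C P, ND C → G9 P → 3 • P = T0 → mE C P + mE C (4 • P) + mE C (7 • P) = 0 by
    intro C P hC h
    rcases (core_VV h).1 with e | e
    · exact k C P hC h e
    · have h' : G9 (-P) := by simpa using cop_VV h (u := -1) (by simpa using pw_prime.not_dvd_one)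
      have := k C (-P) hC h' (by rw [smul_neg, e, neg_neg])
      rwa [smul_neg, smul_neg, mEn_TQ hC (ne_MON h), mEn_TQ hC (ne_MON (nat_VV h (by decide))),
        mEn_TQ hC (ne_MON (nat_VV h (by decide)))] at this
  intro C P hC h h3
  obtain ⟨ζ, hζ⟩ := rel_MON h h3
  have eb : els (⊥ : AddSubgroup Pt) = {0} := by
    ext T
    rw [mem_els (by simp), mem_singleton, AddSubgroup.mem_bot]
  have cb : cd ⊥ = 1 := by rw [cd, eb, card_singleton]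
  obtain ⟨Y, Y', ⟨a1, -⟩, ⟨a2, -⟩, z, a3⟩ := hζ ⊥ ⟨by simp, by rw [cb]; decide⟩
  simp only [mC, AddSubgroup.map_bot, gy, eb, erase_singleton, prod_empty, cb, pow_one, map_one,
    one_mul, mul_one] at a1 a2 a3 z
  obtain ⟨y0, y1, -⟩ := add_VV (core_VV h).2.1
  obtain ⟨y7, y4⟩ := y_MON h h3
  have y2 : yc P ^ 2 + yc P ≠ 0 := by rw [sq, ← mul_add_one]; exact mul_ne_zero y0 y1
  have v := base_MON (v := eC (vv P)) z (by simpa using (map_ne_zero eC).2 y2) (a1 ▸ a2 ▸ a3)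
    (by simp [vv, map_ofNat]) (by simpa [map_ofNat] using congrArg eC (core_VV h).2.2.2.1)
  have v7 : vv (7 • P) = yc P * vv P := by
    rw [vv, vv, show yc (7 • P) = -(yc P + 1) / yc P by field_simp; linear_combination y7]
    field_simp
    ring
  have v4 : vv (4 • P) = -(yc P + 1) * vv P := by
    linear_combination (core_VV h).2.2.2.2.1 - v7
  obtain ⟨Y, Y', ⟨b1, b2⟩, ⟨b3, b4⟩, z', b5⟩ := hζ C hC
  have n3 := hC.c3
  have d1 := sq_MON h z v n3 (k := cd C ^ 2) rfl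
  have d2 := sq_MON h z v (m := 2 * cd C) (k := 4 * cd C ^ 2) (by omega) (by rw [mul_pow]; rfl)
  have d4 := sq_MON h z v (m := 4 * cd C) (k := 7 * cd C ^ 2) (by omega) (by rw [mul_pow]; omega)
  have e1 : ∀ j k : ℕ, j % 9 = k % 9 → vv (j • P) = vv (k • P) := fun j k e => by
    rw [nsmul_eq_mod_nsmul j (nine_VV h), e, ← nsmul_eq_mod_nsmul k (nine_VV h)]
  refine eC.injective ?_
  simp only [mE, dd, ← mul_nsmul', v4, v7]
  rw [e1 (7 * cd C ^ 2 * 4) (cd C ^ 2) (by omega), e1 (cd C ^ 2 * 4) (4 * cd C ^ 2) (by omega),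
    e1 (7 * cd C ^ 2 * 7) (4 * cd C ^ 2) (by omega), e1 (cd C ^ 2 * 7) (7 * cd C ^ 2) (by omega)]
  simp only [map_add, map_mul, map_sub, map_pow, map_zero, mul_pow, pow_mul', d1, d2, d4]
    at b1 b2 b3 b4 ⊢
  generalize ζ ^ cd C = ξ at *
  have k : ξ ^ 4 + (ξ ^ 4) ^ 8 - (ξ + ξ ^ 8) + (ξ + ξ ^ 8 - (ξ ^ 2 + (ξ ^ 2) ^ 8)) * (Y + 1) * (Y' + 1) +
      (ξ ^ 2 + (ξ ^ 2) ^ 8 - (ξ ^ 4 + (ξ ^ 4) ^ 8)) * Y * Y' = 0 := by
    clear * - z' b5
    grind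
  linear_combination (eC (vv P) ^ cd C) ^ 2 * (eC (gy C (yc P)) * eC (gy (mC pw C) (yc P)) * k -
    (ξ + ξ ^ 8 - (ξ ^ 2 + (ξ ^ 2) ^ 8)) * congrArg₂ (· * ·) b2 b4 -
    (ξ ^ 2 + (ξ ^ 2) ^ 8 - (ξ ^ 4 + (ξ ^ 4) ^ 8)) * congrArg₂ (· * ·) b1 b3)

end Pool.Agent.MP_e23604_nt.M.Hs

end
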