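import Pool.Agent.Mg.Fe23604m.G7a6e34
import Pool.Agent.Mg.Fe23604m.Gc426ef

set_option linter.all false

/-!
The elliptic units of the third family as values of lattice functions.
-/

set_option autoImplicit false

open Filter Topology Asymptotics Finset QuadraticAlgebra
open scoped MatrixGroups Classical

namespace Pool.Agent.MP_e23604_nt.M

open B R S W Un

variable {L L' M M' : PeriodPair} {X : Finset ℂ} {c t p q z p' q' z' : ℂ} {C : AddSubgroup Pt}
  {P Q : Pt}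

theorem sc_TKL (h : Sc c L L') (a : c * p - p' ∈ L'.lattice) (b : c * q - q' ∈ L'.lattice)
    (e : c * z - z' ∈ L'.lattice) : ln L' p' q' z' = c⁻¹ ^ 3 * ln L p q z := by
  have := inv_ne_zero h.1
  rw [ln, ln, h.p' a, h.p' b, h.p' e, h.q' a, h.q' b, h.q' e, ← mul_sub, ← mul_sub, ← mul_sub,
    ← mul_sub]
  by_cases x : wp L q - wp L p = 0
  · simp [x, mul_div_assoc]
  · field_simp

theorem up_TKL (r : Rep L L' X) (k : Cop L L') (m : Rep L M {0, t, -t}) (m' : Rep L' M' {0, t, -t})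
    (h3 : 3 * t ∈ L.lattice) : Rep M M' X ∧ ∀ F : ℂ → ℂ,
      ∏ x ∈ X with x ∉ M.lattice, F x = ∏ x ∈ X with x ∉ L.lattice, F x := by
  have a : ∀ z ∈ L'.lattice, z ∈ M.lattice → z ∈ L.lattice := fun z a b =>
    k z a (rep3_three m h3 b)
  have ht := m.mem t (by simp)
  refine ⟨⟨fun z hz => ?_, fun x hx => m'.le (r.mem x hx), fun y hy => ?_⟩, fun F =>
    prod_congr (filter_congr fun x hx => ⟨fun b e => b (m.le e), fun b e => b (a x (r.mem x hx) e)⟩)
      fun _ _ => rfl⟩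
  · rw [rep3_mem m']
    exact ((rep3_mem m).1 hz).imp (r.le ·) (.imp (r.le ·) (r.le ·))
  · refine existsUnique_of_exists_of_unique ?_ fun x x' b b' => r.inj b.1 b'.1
      (a _ (sub_mem (r.mem _ b.1) (r.mem _ b'.1)) (by simpa using sub_mem b'.2 b.2))
    rcases (rep3_mem m').1 hy with e | e | e <;> obtain ⟨x, ⟨b, d⟩, -⟩ := r.uni _ e
    · exact ⟨x, b, m.le d⟩
    · exact ⟨x, b, by convert add_mem (m.le d) ht using 1; ring⟩
    · exact ⟨x, b, by convert sub_mem (m.le d) ht using 1; ring⟩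

theorem pi_TKL : iz pw = 1 + 2 * zc3 ∧ iz pw ^ 2 = -3 ∧ iz pw ≠ 0 := by
  have a : iz pw ^ 2 = -3 := by rw [← map_pow, pw_sq, map_neg, map_ofNat]
  exact ⟨by rw [pw, map_add, map_mul, map_one, map_ofNat, iz_w], a,
    fun e => by rw [e] at a; norm_num at a⟩

theorem z_TKL (P : Pt) : iz pw * zP P = lg P := mul_div_cancel₀ _ pi_TKL.2.2

theorem mem_TKL (h : G9 P) (b : Zw) : iz b * (iz pw * lg P) ∈ L0.lattice ↔ 3 ∣ b := by
  rw [← mul_dvd_mul_iff_right pw_ne, ← h, ← lg_mem, ← mul_assoc, ← map_mul]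
  exact ⟨fun a => by simpa using add_mem (lg_smul (b * pw) P) a,
    fun a => by simpa using sub_mem a (lg_smul (b * pw) P)⟩

theorem b9_TKL (h : G9 P) : B9 L0 (zP P) (zc3 * zP P) := by
  obtain ⟨a, b, -⟩ := pi_TKL
  have e : ∀ u : Zw, ∀ w : ℂ, w = iz u * (-3 * zP P) → (w ∈ L0.lattice ↔ 3 ∣ u) := fun u w e => by
    rw [← mem_TKL h, e, ← z_TKL P, ← b, sq, mul_assoc]
  have n : ∀ u : Zw, (3 : Zw) ∣ u → (3 : ℤ) ∣ u.re ∧ (3 : ℤ) ∣ u.im := by
    rintro _ ⟨u, rfl⟩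
    simp
  refine ⟨(e (-3) _ ?_).2 (by simp), (e (-3 * ω) _ ?_).2 (by simp),
    (e (-1) _ (by simp)).not.2 fun d => by simpa using (n _ d).1,
    (e (-ω) _ ?_).not.2 fun d => by simpa using (n _ d).2,
    (e (-ω - 1) _ ?_).not.2 fun d => by simpa using (n _ d).1,
    (e (1 - ω) _ ?_).not.2 fun d => by simpa using (n _ d).1⟩ <;>
  simp only [map_mul, map_neg, map_sub, map_one, map_ofNat, iz_w] <;> ring

theorem pq_TKL (P : Pt) : pu (zP P) (zc3 * zP P) = lg P ∧ qu (zP P) (zc3 * zP P) = zc3 * lg P := by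
  rw [pu, qu, ← z_TKL P, pi_TKL.1]
  exact ⟨by ring, by linear_combination -2 * zP P * zc3_spec⟩

theorem m0_TKL (h : G9 P) (f : Cf L0 (lg P) (zc3 * lg P))
    (m : Rep L0 M {0, 3 * lg P, -(3 * lg P)}) : Sc (iz pw) M L0 := by
  obtain ⟨a, b, d⟩ := pi_TKL
  have k : iz pw * (3 * lg P) ∈ L0.lattice := by
    convert (mem_TKL h 3).2 dvd_rfl using 1
    rw [map_ofNat]; ring
  refine ⟨d, fun z => ⟨fun hz => ?_, fun hz => ?_⟩⟩
  · obtain ⟨i, j, e⟩ := Two.gen f (z := z) (by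
      convert neg_mem (L0_mul pw hz) using 1
      linear_combination z * b)
    have o : Ord L0 3 (iz pw * (lg P - zc3 * lg P)) := ⟨Nat.prime_three, by
      convert L0_mul pw f.Q3 using 1; push_cast; ring, fun x => f.P0 (by
        convert L0_mul (-ω) x using 1
        rw [map_neg, iz_w, a]
        linear_combination (3 - 2 * zc3) * lg P * zc3_spec)⟩
    obtain ⟨j, rfl⟩ := (o.dvd (k := j)).1 (by
      convert sub_mem (sub_mem hz (L0.lattice.smul_mem i k)) (L0_mul pw e) using 1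
      simp only [zsmul_eq_mul]
      ring)
    convert add_mem (add_mem (m.le e) (M.lattice.smul_mem i (m.mem (3 * lg P) (by simp))))
      (m.le (L0.lattice.smul_mem j f.Q3)) using 1
    simp only [zsmul_eq_mul]
    push_cast
    ring
  · rcases (rep3_mem m).1 hz with e | e | e
    · exact L0_mul pw e
    · convert add_mem (L0_mul pw e) k using 1; ring
    · convert sub_mem (L0_mul pw e) k using 1; ring

theorem wq_TKL (h : Q ≠ 0) (a : p - lg Q ∈ L0.lattice) : wq L0 p = eC (2 * yc Q + 1) := by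
  rw [← (lg_xy h).2, ← wq_per (z := lg Q) a, add_sub_cancel]

theorem ln_TKL (h : Q ≠ 0) (a : p - lg Q ∈ L0.lattice) (b : q - zc3 * lg Q ∈ L0.lattice) (z : ℂ) :
    ln L0 p q z = (wq L0 z - wq L0 p) / 2 := by
  rw [ln, show wq L0 q = wq L0 p by
    rw [wq_TKL h a, ← (lg_xy h).2, ← wq_w (lg Q), ← wq_per (z := zc3 * lg Q) b, add_sub_cancel]]
  simp

theorem ga_TKL (h : Q ≠ 0) (a : p - lg Q ∈ L0.lattice) (b : q - zc3 * lg Q ∈ L0.lattice) :
    ∏ x ∈ XC C with x ∉ L0.lattice, ln L0 p q x = eC (gy C (yc Q)) := by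
  rw [prod_XC, gy, map_prod]
  refine prod_congr rfl fun T hT => ?_
  rw [ln_TKL h a b, wq_TKL h a, (lg_xy (ne_of_mem_erase hT)).2]
  simp only [map_add, map_mul, map_sub, map_ofNat, map_one]
  ring

theorem gb_TKL (hC : ND C) (s : Sc (iz pw) M L0) (h : Q ≠ 0) (a : iz pw * p - lg Q ∈ L0.lattice)
    (b : iz pw * q - zc3 * lg Q ∈ L0.lattice) : ∏ x ∈ XC C with x ∉ L0.lattice, ln M p q x =
      (iz pw ^ 3) ^ (cd C - 1) * eC (gy (mC pw C) (yc Q)) := by
  have := pi_TKL.2.2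
  rw [prod_XC, gy, pw_TQ hC, map_prod, ← card_erase hC, ← prod_const, ← prod_mul_distrib]
  refine prod_congr rfl fun T hT => ?_
  have e := sc_TKL s (p := p) (q := q) (z := lg T) (by rw [sub_self]; exact zero_mem _)
    (by rw [sub_self]; exact zero_mem _) (by simpa using neg_mem (lg_smul pw T))
  rw [ln_TKL h a b, wq_TKL h a, (lg_xy fun e => ne_of_mem_erase hT (hC.pw
    ((mem_els hC.fin).1 (mem_of_mem_erase hT)) e)).2] at e
  simp only [map_add, map_mul, map_sub, map_ofNat, map_one] at e ⊢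
  field_simp at e
  linear_combination -e / 2

theorem vv_TKL (h : G9 Q) (a : p - lg Q ∈ L0.lattice) (b : q - zc3 * lg Q ∈ L0.lattice) :
    eC (vv Q) = (rr L0 p q ^ 2 + rr L0 p q + 1) / (3 * (rr L0 p q ^ 2 + rr L0 p q)) := by
  obtain ⟨-, -, -, t3, -, -, x0, -⟩ := VV_pf.2 Q h
  have h0 : Q ≠ 0 := fun e => x0 (by rw [e, xc_zero])
  have k : 3 * p - Un.lg (3 • Q) ∈ L0.lattice := by
    convert sub_mem (L0.lattice.smul_mem 3 a) (lg_smul 3 Q) using 1
    rw [← Nat.cast_smul_eq_nsmul Zw, zsmul_eq_mul, map_ofNat]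
    push_cast
    ring
  have w : wq L0 (3 * p) ^ 2 = 1 := by
    rcases t3 with e | e <;> rw [e] at k
    · rw [wq_TKL T0_ne k, xc_T0.2]; simp
    · rw [wq_TKL (neg_ne_zero.2 T0_ne) k, (xc_neg _).2 T0_ne, xc_T0.2]; norm_num
  have w0 : wq L0 (3 * p) ≠ 0 := fun e => by rw [e] at w; norm_num at w
  have : rr L0 p q ^ 2 + rr L0 p q = eC (yc Q) ^ 2 + eC (yc Q) := by
    rw [rr, ln_TKL h0 a b, wq_TKL h0 a, wq, L0.derivWeierstrassP_neg, ← wq]
    simp only [map_add, map_mul, map_ofNat, map_one]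
    field_simp
    linear_combination (-1 - 4 * eC (yc Q) - 4 * eC (yc Q) ^ 2) * w
  rw [this, vv]
  simp [map_ofNat]

theorem sh_TKL (f : Cf L p q) (i : ℕ) : Cf L (p + i * (3 * p)) (q + i * (3 * p)) := by
  have e : 3 * (p + i * (3 * p)) - 3 * p ∈ L.lattice := by
    convert L.lattice.smul_mem i f.P3 using 1
    simp only [zsmul_eq_mul]
    push_cast
    ring
  rw [Cf, add_sub_add_right_eq_sub]
  refine ⟨?_, f.Q3, fun a => f.P0 ?_, f.Q0, fun a => f.ad ?_, fun a => f.sb ?_⟩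
  · convert add_mem (L.lattice.smul_mem 3 e) f.P3 using 1
    simp only [zsmul_eq_mul]
    push_cast
    ring
  · simpa using sub_mem a e
  · convert sub_mem a e using 1; ring
  · convert add_mem a e using 1; ring

/-- the three points -/
noncomputable def pi3 (P : Pt) : Fin 3 → Pt := ![P, 4 • P, 7 • P]

theorem pt_TKL (h : G9 P) (i : Fin 3) : G9 (pi3 P i) ∧
    lg P + (i : ℕ) * (3 * lg P) - lg (pi3 P i) ∈ L0.lattice ∧
    zc3 * lg P + (i : ℕ) * (3 * lg P) - zc3 * lg (pi3 P i) ∈ L0.lattice := by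
  have e : pi3 P i = ((1 + 3 * i : ℕ) : Zw) • P := by
    rw [Nat.cast_smul_eq_nsmul]
    fin_cases i <;> simp [pi3]
  have a : lg P + (i : ℕ) * (3 * lg P) - lg (pi3 P i) ∈ L0.lattice := by
    convert neg_mem (lg_smul (1 + 3 * i : ℕ) P) using 1
    rw [e, map_natCast]
    push_cast
    ring
  refine ⟨by rw [e, Nat.cast_smul_eq_nsmul]; exact nat_VV h (by omega), a, ?_⟩
  convert add_mem (L0_mul ω a) ((mem_TKL h (3 * (((i : ℕ) : Zw) * ω ^ 2))).2 (dvd_mul_right _ _))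
    using 1
  rw [map_mul, map_mul, map_pow, map_natCast, map_ofNat, iz_w, pi_TKL.1]
  linear_combination -3 * (i : ℕ) * lg P * (2 * zc3 - 1) * zc3_spec

theorem be_TKL (hZ : LZ_st) (hF : LF_st) (h : G9 P) (f : Cf L0 (lg P) (zc3 * lg P)) (i : Fin 3) :
    eC (vv (pi3 P i)) = be (rr L0 (lg P) (zc3 * lg P)) i * eC (vv P) := by
  obtain ⟨T, r0, r1, -, k, -⟩ := hF _ _ _ f
  obtain ⟨a, b, c⟩ := pt_TKL h i
  obtain ⟨-, k0, k1, k2⟩ := k _ _ i (sh_TKL f i)
    (((hZ _ _ _ (T i)).2.1 _ (T i).p0).2 (Or.inl (by simp)))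
    (((hZ _ _ _ (T i)).2.1 _ (T i).q0).2 (Or.inr (Or.inl (by simp))))
  rw [vv_TKL a b c, vv_TKL h (p := lg P) (q := zc3 * lg P) (by simp) (by simp)]
  generalize rr L0 (lg P) (zc3 * lg P) = r at *
  have : r ^ 2 + r ≠ 0 := by rw [sq, ← mul_add_one]; exact mul_ne_zero r0 r1
  fin_cases i
  · rw [k0 rfl]; simp [be]
  · rw [k1 rfl, show (-(r + 1) / r) ^ 2 + -(r + 1) / r = (r + 1) / r ^ 2 by field_simp; ring]
    simp only [be, Fin.mk_one, Matrix.cons_val_one, Matrix.cons_val_zero]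
    field_simp
    ring
  · rw [k2 rfl, show (-1 / (r + 1)) ^ 2 + -1 / (r + 1) = -r / (r + 1) ^ 2 by field_simp; ring]
    simp only [be, Fin.reduceFinMk, Matrix.cons_val]
    field_simp
    ring

theorem KL_pf (hZ : LZ_st) (hF : LF_st) (hT : LT_st) (hB : LB_st) (hN : KN_st) : KL_st := by
  intro C P L hC hP hL
  obtain ⟨ep, eq⟩ := pq_TKL P
  obtain ⟨π1, π2, π0⟩ := pi_TKL
  have b0 := b9_TKL hP
  obtain ⟨f0, m0, g0, -⟩ := hB _ _ _ b0
  have f0' := f0
  have m0' := m0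
  rw [ep, eq] at f0'
  rw [ep] at m0'
  have s0 := m0_TKL hP f0' m0'
  have nz : ∀ {Q}, G9 Q → Q ≠ 0 := fun h e => (core_VV h).2.1 (by rw [e, xc_zero])
  have up : ∀ {C L}, ND C → LC C L → B9 L (zP P) (zc3 * zP P) := fun a b =>
    Two.up b0 (b.rep a).1 (b.rep a).2
  have p0 : pw • P ≠ 0 := fun e => (core_VV hP).2.1 ((two_API P).1 e)
  have pl : iz pw * lg P - lg (pw • P) ∈ L0.lattice := by simpa using neg_mem (lg_smul pw P)
  have r0 : rr (MM L0 (zP P) (zc3 * zP P)) (zP P) (zc3 * zP P) = rr L0 (lg P) (zc3 * lg P) := by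
    have := inv_ne_zero π0
    rw [rr, rr, sc_TKL s0 (p := zP P) (q := zc3 * zP P) (z := -(3 * zP P))
      (by simp [z_TKL]) (by simp [mul_left_comm, z_TKL]) (by simp [mul_left_comm, z_TKL]),
      s0.q' (z := 3 * zP P) (by simp [mul_left_comm, z_TKL]),
      mul_div_mul_left _ _ (pow_ne_zero 3 this)]
  have key : ∀ {C}, ND C → (∀ i : Fin 3, (iz pw ^ 3) ^ (cd C - 1) * mC3 C P i = Dc (cd C) P i *
      ((be (rr L0 (lg P) (zc3 * lg P)) i * eC (vv P)) ^ (2 * cd C) *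
        (∏ x ∈ XC C with x ∉ L0.lattice, li L0 (lg P) (zc3 * lg P) i x) *
        ∏ x ∈ XC C with x ∉ L0.lattice, li (MM L0 (zP P) (zc3 * zP P)) (zP P) (zc3 * zP P) i x)) ∧
      (iz pw ^ 3) ^ (cd C - 1) * eC (mD C) = (-eC (cbr 3)) ^ (cd C + 1) *
        (∏ x ∈ XC C with x ∉ L0.lattice, ln L0 (-3 * zP P) (-3 * (zc3 * zP P)) x) *
        ∏ x ∈ XC C with x ∉ L0.lattice,
          ln (MM L0 (zP P) (zc3 * zP P)) (lg P) (zc3 * lg P) x := fun {C} hC => ⟨fun i => by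
    obtain ⟨a, b, c⟩ := pt_TKL hP i
    rw [li, li, ga_TKL (nz a) b c, gb_TKL hC s0 (nz a) (by convert b using 2; rw [← z_TKL P]; ring)
      (by convert c using 2; rw [← z_TKL P]; ring), ← be_TKL hZ hF hP f0' i]
    fin_cases i <;> simp [mC3, Dc, pi3, mE] <;> ring, by
    have a : -3 * zP P = iz pw * lg P := by rw [← z_TKL P, ← π2]; ring
    have b : iz pw * (zc3 * lg P) - zc3 * lg (pw • P) ∈ L0.lattice := by
      convert L0_mul ω pl using 1; rw [iz_w]; ring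
    have e : gy C (yc (pw • P)) * gy (mC pw C) (yc (pw • P)) = gy C w3 * gy (mC pw C) w3 := by
      rcases (VV_pf.2 P hP).2.2.2.2.2.2.2.2.2.2.2.2.2.2.1 with e | e <;> rw [e]
      rw [← neg2_TQ hC w3, show -w3 - 1 = w3 ^ 2 by linear_combination -w3_spec]
    rw [ga_TKL p0 (a ▸ pl) (by rwa [mul_left_comm, a, mul_left_comm]), gb_TKL hC s0 p0 pl b, mD,
      mul_assoc, ← e]
    simp only [map_mul, map_pow, map_neg]
    ring⟩
  obtain ⟨r, k⟩ := hL.rep hC
  have b1 := up hC hL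
  obtain ⟨f1, m1, g1, -, -, -, -, o1⟩ := hB _ _ _ b1
  obtain ⟨R, eR⟩ := up_TKL r k m0 m1 f0.P3
  have K : Cop (MM L0 (zP P) (zc3 * zP P)) (MM L (zP P) (zc3 * zP P)) := fun z hz a => by
    obtain ⟨x, ⟨b, d⟩, -⟩ := R.uni z hz
    have e := rep3_three m0 f0.P3 (z := 3 * x) (by
      convert sub_mem a (Submodule.smul_mem _ (3 : ℤ) d) using 1
      simp only [zsmul_eq_mul]
      push_cast
      ring)
    have := k x (r.mem x b) (k _ (by simpa using L.lattice.smul_mem 3 (r.mem x b)) e)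
    simpa using add_mem d (m0.le this)
  have ta := ((hT _ _ _ _ _ r).2 k f0).2
  have tb := ((hT _ _ _ _ _ R).2 K g0).2
  simp only [eR, r0, card_XC] at tb
  have ra : rA L (zP P) (zc3 * zP P) = rr L (lg P) (zc3 * lg P) := by rw [rA, ep, eq]
  rw [← rB] at tb
  rw [card_XC, ep, eq, ← ra] at ta
  have v0 : eC (vv P) ≠ 0 := (map_ne_zero eC).2 fun e => by
    have := (VV_pf.2 P hP).2.2.2.2.2.2.2.2.1
    rw [e] at this
    norm_num at this
  have ne : ∀ {A A' : PeriodPair} {p q : ℂ}, Rep A A' (XC C) → Cf A p q → Cf A' p q →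
      ∏ x ∈ XC C with x ∉ A.lattice, li A p q 0 x ≠ 0 := fun {A A' p q} a b c =>
    prod_ne_zero_iff.2 fun x hx e => by
      have T := (hF _ _ _ c).1 0
      have := a.mem x (mem_filter.1 hx).1
      rcases ((hZ _ _ _ ((hF _ _ _ b).1 0)).2.1 x (mem_filter.1 hx).2).1 e with e | e | e
      · exact T.p0 (by simpa using sub_mem this (a.le e))
      · exact T.q0 (by simpa using sub_mem this (a.le e))
      · exact T.ad (by simpa [add_assoc] using sub_mem (a.le e) this)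
  have na := ne r f0 f1
  have nb := ne R g0 g1
  rw [ep, eq] at na
  rw [eR] at nb
  obtain ⟨k1, k2⟩ := key hC
  have π3 := fun n => pow_ne_zero n (pow_ne_zero 3 π0)
  have G0 := mul_ne_zero (mul_ne_zero (pow_ne_zero (2 * cd C) v0) na) nb
  refine ⟨b1, _, div_ne_zero G0 (π3 (cd C - 1)), fun i => ?_, fun l S pr l3 h1 h2 => ?_⟩
  · rw [div_mul_eq_mul_div, eq_div_iff (π3 _), mul_comm, k1]
    linear_combination Dc (cd C) P i * eC (vv P) ^ (2 * cd C) * congrArg₂ (· * ·) (ta i) (tb i)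
  obtain ⟨hC', cd', o, lc⟩ := (hN C L l hC hL pr l3).2 S h1 h2
  obtain ⟨L', e'⟩ := o.ex
  have hL' := (lc L').2 e'
  obtain ⟨r', k'⟩ := hL'.rep hC'
  obtain ⟨f2, m2, g2, u2, w2, -⟩ := hB _ _ _ (up hC' hL')
  obtain ⟨R', eR'⟩ := up_TKL r' k' m0 m2 f0.P3
  obtain ⟨R'', -⟩ := up_TKL (o.rep e') (o.cop l3 e') m1 m2 f1.P3
  have dn : ∀ {A A' : PeriodPair} {p q : ℂ}, A.lattice ≤ A'.lattice → Tri A' p q → Tri A p q :=
    fun a T => ⟨fun e => T.p0 (a e), fun e => T.q0 (a e), fun e => T.ad (a e), fun e => T.sb (a e),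
      fun e => T.h1 (a e), fun e => T.h2 (a e)⟩
  have xa := fun p q T => ((hT _ _ _ p q r).1 (dn (o.rep e').le T)).2 _ _ _ (o.rep e') r' T
  have xb := fun p q T => ((hT _ _ _ p q R).1 (dn R''.le T)).2 _ _ _ R'' R' T
  simp only [o.card, o.prod] at xa
  simp only [o.card, (o1 l _ l3 o).1.prod, eR, eR'] at xb
  obtain ⟨k3, k4⟩ := key hC'
  rw [cd'] at k3 k4
  refine ⟨o, _, div_ne_zero (pow_ne_zero l G0) (π3 (l * cd C - 1)), fun i => ?_, ?_⟩
  · have a := xa _ _ ((hF _ _ _ f2).1 i)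
    have b := xb _ _ ((hF _ _ _ g2).1 i)
    rw [div_mul_eq_mul_div, eq_div_iff (π3 _), mul_comm, k3, bA, bB, NS, NS]
    simp only [li, ep, eq] at a b ta tb ⊢
    rw [a, b]
    linear_combination Dc (l * cd C) P i * eC (vv P) ^ (2 * cd C * l) * (∏ k ∈ Ico 1 l, ln L _ _
      (k * lg S)) * (∏ k ∈ Ico 1 l, ln (MM L _ _) _ _ (k * lg S)) *
        congrArg (· ^ l) (congrArg₂ (· * ·) (ta i) (tb i))
  · have a := xa _ _ u2
    have b := xb _ _ w2
    rw [ep, eq] at b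
    rw [a, b] at k4
    rw [div_div_eq_mul_div, mul_comm (eC (mD C)) (_ ^ _), k2, div_pow, div_mul_div_cancel₀',
      div_mul_eq_mul_div, eq_div_iff (π3 _), nD, NS, NS, ep, eq]
    · obtain ⟨j, rfl⟩ := Nat.exists_eq_add_one_of_ne_zero pr.ne_zero
      rw [Nat.add_sub_cancel]
      linear_combination (-eC (cbr 3)) ^ j * k4
    · exact pow_ne_zero l G0

end Pool.Agent.MP_e23604_nt.M
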