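import Pool.Agent.Mg.Fe23604m.Gad4bd4
import Pool.Agent.Mg.Fe23604m.Gbeef41

set_option linter.all false

section

/-!
Cohomology classes attached to a system of points indexed by finite subgroups: definitions.
-/

set_option autoImplicit false

open Finset QuadraticAlgebra
open scoped Classical

namespace Pool.Agent.MP_e23604_nt.N

open B R S W

/-! ### Lines -/

/-- the number of primitive lines in the points killed by `l` -/
def ml (l : ℕ) : ℕ := (if l % 3 = 2 then l else l - 2) + 1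

instance ml_ne (l : ℕ) : NeZero (ml l) := ⟨Nat.succ_ne_zero _⟩

/-- the image of a subgroup under multiplication by `b` -/
noncomputable def sm (b : Zw) (C : AddSubgroup Pt) : AddSubgroup Pt :=
  C.map (DistribSMul.toAddMonoidHom Pt b)

/-- the image of a subgroup under an automorphism -/
noncomputable def ga (g : GQ) (C : AddSubgroup Pt) : AddSubgroup Pt := C.map (gal g)

/-- a numbering of the primitive lines -/
structure Kit (l : ℕ) (L : ZMod (ml l) → AddSubgroup Pt) (a : Zw → ZMod (ml l)) : Prop where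
  gen : ∀ i, ∃ T, Gen l T ∧ L i = AddSubgroup.zmultiples T
  inj : Function.Injective L
  all : ∀ T, Gen l T → ∃ i, T ∈ L i
  act : ∀ u : Zw, IsCoprime u l → ∀ i, sm u (L i) = L (i + a u)
  bar : ∀ u : Zw, IsCoprime u l → a (star u) = -a u
  sur : ∀ i, ∃ u : Zw, IsCoprime u l ∧ a u = i

/-- a chosen numbering -/
noncomputable def kit (l : ℕ) : (ZMod (ml l) → AddSubgroup Pt) × (Zw → ZMod (ml l)) :=
  Classical.epsilon fun k => Kit l k.1 k.2

/-- the lines -/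
noncomputable def Ln (l : ℕ) : ZMod (ml l) → AddSubgroup Pt := (kit l).1

/-- the logarithm -/
noncomputable def lu (l : ℕ) : Zw → ZMod (ml l) := (kit l).2

/-- the ring class character of conductor `l` -/
noncomputable def Al (l : ℕ) (g : GQ) : ZMod (ml l) := lu l (ps l g)

/-- families of numbers of lines -/
abbrev JJ : Type := ∀ l : ℕ, ZMod (ml l)

/-- all ring class characters -/
noncomputable def Av (g : GQ) : JJ := fun l => Al l g

/-- the logarithms of a number -/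
noncomputable def Lu (u : Zw) : JJ := fun l => lu l u

/-- the families with support in `n` -/
def Jg (n : Finset ℕ) : AddSubgroup JJ where
  carrier := {i | ∀ l, l ∉ n → i l = 0}
  zero_mem' _ _ := rfl
  add_mem' h h' l hl := by rw [Pi.add_apply, h l hl, h' l hl, add_zero]
  neg_mem' h l hl := by rw [Pi.neg_apply, h l hl, neg_zero]

instance Jg_fin (n : Finset ℕ) : Finite (Jg n) :=
  Finite.of_injective (fun (i : Jg n) (l : n) => i.1 l) fun i j e => Subtype.ext (funext fun l => by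
    by_cases h : l ∈ n
    exacts [congrFun e ⟨l, h⟩, (i.2 l h).trans (j.2 l h).symm])

noncomputable instance Jg_ft (n : Finset ℕ) : Fintype (Jg n) := Fintype.ofFinite _

/-- the subgroup generated by the lines -/
noncomputable def Cn (n : Finset ℕ) (i : JJ) : AddSubgroup Pt := n.sup fun l => Ln l (i l)

/-- sets of primes other than three -/
def Pn (n : Finset ℕ) : Prop := ∀ l ∈ n, l.Prime ∧ l ≠ 3

/-- the product of the primes modulo three -/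
def sd (n : Finset ℕ) : ZMod 3 := ∏ l ∈ n, (l : ZMod 3)

/-- finite subgroups whose order is `ε` modulo three -/
def Fo (ε : ZMod 3) (C : AddSubgroup Pt) : Prop := ε ≠ 0 ∧ (Nat.card C : ZMod 3) = ε

/-! ### Systems of points -/

/-- points indexed by finite subgroups of order prime to three -/
structure HS where
  y : AddSubgroup Pt → Pt
  χ : ZMod 3 → GQ → ZMod 3
  j : ZMod 3 → ZMod 3
  io : ZMod 3
  add : ∀ ε, Adt GK (χ ε)
  fac : ∀ ε, ∀ g ∈ UM 9, χ ε g = 0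
  anti : ∀ ε c, c ∉ GK → ∀ g ∈ GK, χ ε (c * g * c⁻¹) = -χ ε g
  act : ∀ ε C, Fo ε C → ∀ g ∈ GK, eta (χ ε) g (y C) = y (ga g C)
  ori : ∀ ε C, Fo ε C → y (sm ω C) = (ω : Zw) ^ (j ε).val • y C + io.val • T0
  tl : ∀ ε C (l : ℕ), Fo ε C → l.Prime → l % 3 = 2 → ¬ l ∣ Nat.card C →
    pw • ∑ i, y (C ⊔ Ln l i) = 0
  cong : ∀ ε (V : Plc) (f : GQ), V.l % 3 = 2 → Frob V.l V.γ f → ∃ u : Zw, IsUnit u ∧
    ∀ C, Fo ε C → ¬ V.l ∣ Nat.card C → ∀ i, E1 V.v (y (C ⊔ Ln V.l i) - u • gal f (y C))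

/-- the residual properties of the first system -/
structure HS.N1 (H : HS) : Prop where
  x0 : ∀ ε C, Fo ε C → xc (H.y C) ≠ 0
  j0 : ∀ ε, ε ≠ 0 → H.j ε ≠ 0
  jn : H.j 2 = -H.j 1
  io1 : H.io = 1
  c1 : ∀ g ∈ GK, H.χ 1 g = 0
  c2 : ∀ g ∈ GK, H.χ 2 g = 2 * kum 3 g
  spl : ∀ ε C (ϖ : Zw), Fo ε C → PP ϖ → (nn ϖ).Prime → ¬ nn ϖ ∣ Nat.card C →
    ((∏ i, yc (H.y (C ⊔ Ln (nn ϖ) i))) * yc (H.y (sm ϖ C)) * yc (H.y (sm (star ϖ) C))) ^ 6 =
      (yc (H.y C) ^ (nn ϖ + 1)) ^ 6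

/-! ### Classes -/

/-- a chosen division point -/
noncomputable def dv (M : Zw) (P : Pt) : Pt := Classical.epsilon fun P' => M • P' = P

/-- a chosen generator of the points killed by `M` -/
noncomputable def gq (M : Zw) : Pt := Classical.epsilon (Gen M)

/-- weights -/
abbrev Wt (R : Type) : Type := ∀ l : ℕ, ZMod (ml l) → R

section

variable {R : Type} [CommRing R]

/-- the product of the weights -/
def wp (w : Wt R) (n : Finset ℕ) (i : JJ) : R := ∏ l ∈ n, w l (i l)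

/-- the Kummer cocycle of a fixed point -/
noncomputable def dl (φ : Zw →+* R) (M : Zw) (χ : GQ → ZMod 3) (h : GQ) (P : Pt) : R :=
  φ (co (gq M) (eta χ h (dv M P) - dv M P))

/-- combinations of Kummer cocycles of points that are fixed by `D` -/
def Kum (φ : Zw →+* R) (M : Zw) (χ : GQ → ZMod 3) (D : Subgroup GQ) (c : GQ → R) : Prop :=
  ∃ (ι : Type) (_ : Fintype ι) (r : ι → R) (P : ι → Pt), (∀ t, ∀ g ∈ D, eta χ g (P t) = P t) ∧
    ∃ m, ∀ g ∈ D, c g = ∑ t, r t * dl φ M χ g (P t) + (lamZ φ χ M g - 1) * m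

/-- the conjugate homomorphism -/
def cf (φ : Zw →+* R) : Zw →+* R := φ.comp (starRingEnd Zw)

/-- the Kummer cochain of one point -/
noncomputable def HS.F (H : HS) (φ : Zw →+* R) (M : Zw) (ε : ZMod 3) (h : GQ)
    (C : AddSubgroup Pt) : R :=
  φ (co (gq M) (eta (H.χ ε) h (dv M (H.y C)) - dv M (H.y (ga h C))))

/-- the weighted sum of the Kummer cochains -/
noncomputable def HS.kt (H : HS) (φ : Zw →+* R) (M : Zw) (w : Wt R) (n : Finset ℕ) (h : GQ) : R :=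
  ∑ i : Jg n, wp w n (i.1 + Av h) * H.F φ M (sd n) h (Cn n i.1)

/-- the derived class -/
noncomputable def HS.kc (H : HS) (φ : Zw →+* R) (M : Zw) (w : Wt R) (n : Finset ℕ) (g₀ g : GQ) :
    R := H.kt φ M w n (g₀ * g * g₀⁻¹ * g⁻¹)

/-- multiplicative weights -/
def Mt (n : Finset ℕ) (u : Wt R) : Prop :=
  ∀ l ∈ n, u l 0 = 1 ∧ ∀ a b, u l (a + b) = u l a * u l b

/-- the weights are multiplicative up to constants, and exactly so at the split primes -/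
structure Af (n : Finset ℕ) (w u : Wt R) : Prop where
  mul : Mt n u
  aff : ∀ l ∈ n, ∀ a, ∃ c, (l % 3 ≠ 2 → c = 0) ∧ ∀ i, w l (i + a) = u l a * w l i + c

/-- the character of the class -/
noncomputable def HS.rho (H : HS) (φ : Zw →+* R) (M : Zw) (u : Wt R) (n : Finset ℕ) (g : GQ) : R :=
  lamZ φ (H.χ (sd n)) M g * wp u n (Av g)

/-- translated weights -/
def sh (w : Wt R) (b : JJ) : Wt R := fun l i => w l (i + b l)

/-- the elements that fix the lines and, in the twisted action, the points killed by `M` -/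
def HS.H0 (H : HS) (M : Zw) (n : Finset ℕ) (g : GQ) : Prop :=
  g ∈ GK ∧ (∀ P : Pt, M • P = 0 → eta (H.χ (sd n)) g P = P) ∧ ∀ l ∈ n, Al l g = 0

/-- translation of the weights multiplies the sum -/
structure HS.Sh (H : HS) (φ : Zw →+* R) (M : Zw) (w u : Wt R) (n : Finset ℕ) : Prop where
  mul : Mt n u
  shf : ∀ h, H.H0 (pw * M) n h → ∀ b, H.kt φ M (sh w b) n h = wp u n b * H.kt φ M w n h

end

/-- the first third of a weight -/
def th {R : Type} [Zero R] {q : ℕ} (v : ZMod (ml q) → R) (i : ZMod (ml q)) : R :=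
  if i.val < ml q / 3 then v i else 0

/-- the elements that fix the lines and the points killed by `9 M` -/
def H1 (M : Zw) (n : Finset ℕ) (g : GQ) : Prop := g ∈ UM (9 * M) ∧ ∀ l ∈ n, Al l g = 0

end Pool.Agent.MP_e23604_nt.N

end

section

/-!
Cohomology classes attached to a system of points indexed by finite subgroups: statements.
-/

set_option autoImplicit false

open Finset QuadraticAlgebra
open scoped Classical

namespace Pool.Agent.MP_e23604_nt.N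

open B R S W

/-! ### Lines -/

/-- the numbering exists -/
def KIT_st : Prop := ∀ l : ℕ, l.Prime → l ≠ 3 → Kit l (Ln l) (lu l)

/-- the logarithm -/
def LU_st : Prop := ∀ l : ℕ, l.Prime → l ≠ 3 → 3 ∣ ml l ∧
  (∀ u v : Zw, IsCoprime u l → IsCoprime v l → lu l (u * v) = lu l u + lu l v) ∧
  (∀ u v : Zw, IsCoprime u l → (l : Zw) ∣ u - v → lu l u = lu l v) ∧
  (∀ u : Zw, IsCoprime u l → (lu l u = 0 ↔ ∃ k : ℤ, (l : Zw) ∣ u - k)) ∧
  ((lu l ω).val = ml l / 3 ∨ (lu l ω).val = 2 * (ml l / 3)) ∧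
  (∀ i, Nat.card (Ln l i) = l ∧ ∀ T ∈ Ln l i, (l : Zw) • T = 0) ∧
  (l % 3 = 2 → ∀ T : Pt, (l : Zw) • T = 0 → T ≠ 0 → ∃! i, T ∈ Ln l i) ∧
  ∀ ϖ, PP ϖ → nn ϖ = l → (∀ T : Pt, (l : Zw) • T = 0 → ϖ • T ≠ 0 → star ϖ • T ≠ 0 →
    ∃! i, T ∈ Ln l i) ∧ ∀ i, ∀ T ∈ Ln l i, T ≠ 0 → ϖ • T ≠ 0 ∧ star ϖ • T ≠ 0

/-- the ring class characters -/
def AL_st : Prop := ∀ l : ℕ, l.Prime → l ≠ 3 →
  Adt GK (Al l) ∧ Lc GK (Al l) ∧ (∀ g ∈ UM l, Al l g = 0) ∧
  (∀ g ∈ GK, (∀ i, ga g (Ln l i) = Ln l (i + Al l g)) ∧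
    (∀ u : Zw, (∀ P : Pt, (l : Zw) • P = 0 → gal g P = u • P) → Al l g = lu l u) ∧
    ∀ c, c ∉ GK → Al l (c * g * c⁻¹) = -Al l g) ∧
  (∀ c, c ∉ GK → Al l (c * c) = 0) ∧
  (∀ V : Plc, V.l ≠ l → V.l ≠ 3 → (∀ τ ∈ V.I, Al l τ = 0) ∧
    (∀ ϖ σ, PP ϖ → Ov V ϖ → FK V ϖ σ → Al l σ = lu l ϖ) ∧
    (V.l % 3 = 2 → ∀ g ∈ V.D, Al l g = 0)) ∧
  ∀ i, ∀ M : Zw, M ≠ 0 → IsCoprime M l → ∃ g ∈ UM M, Al l g = i

/-- total ramification -/
def RAM_st : Prop := ∀ V : Plc, V.l ≠ 3 → ∃ τ ∈ V.I, Al V.l τ = 1 ∧ km 3 τ V.l ≠ 0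

/-- Frobenius elements at inert primes -/
def FRI_st : Prop := ∀ V : Plc, V.l % 3 = 2 → PP (-V.l) ∧ Ov V (-V.l) ∧ nn (-V.l) = V.l ^ 2 ∧
  (∃ f, Frob V.l V.γ f) ∧ ∀ f, Frob V.l V.γ f → f ∉ GK ∧ FK V (-V.l) (f * f) ∧
    (∀ P : Pt, E1 V.v P → E1 V.v (gal f P)) ∧ (∀ P : Pt, E1 V.v (gal (f * f) P + (V.l : Zw) • P)) ∧
    ∀ (M : Zw) (P : Pt), ¬ Ov V M → M • P = 0 → E1 V.v P → P = 0

/-- sums of lines -/
def CN_st : Prop := ∀ (n : Finset ℕ) (i : JJ), Pn n →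
  Nat.card (Cn n i) = ∏ l ∈ n, l ∧ Fo (sd n) (Cn n i) ∧
  (∀ l : ℕ, l.Prime → l ∉ n → ¬ l ∣ Nat.card (Cn n i)) ∧
  (∀ g ∈ GK, ga g (Cn n i) = Cn n (i + Av g)) ∧
  ∀ u : Zw, (∀ l ∈ n, IsCoprime u l) → sm u (Cn n i) = Cn n (i + Lu u)

/-- sums over families -/
def SUM_st : Prop := ∀ (A : Type) [AddCommMonoid A] (n : Finset ℕ) (Φ : JJ → A),
  (∀ l, l ∉ n → ∑ i : Jg (insert l n), Φ i.1 = ∑ i : Jg n, ∑ a, Φ (Function.update i.1 l a)) ∧
  ((∀ i i', (∀ l ∈ n, i l = i' l) → Φ i = Φ i') → ∀ b, ∑ i : Jg n, Φ (i.1 + b) = ∑ i : Jg n, Φ i.1) ∧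
  ∀ B : AddSubgroup (Jg n), ∃ T : Finset (Jg n),
    ∑ i : Jg n, Φ i.1 = ∑ t ∈ T, ∑ b : B, Φ (t.1 + b.1.1)

/-- the cubic ring class characters are Kummer characters -/
def AKU_st : Prop := ∀ l : ℕ, l.Prime → l ≠ 3 → ∃ κ : ZMod 3, κ ≠ 0 ∧
  (∀ g ∈ GK, kum l g = κ * ((Al l g).val : ZMod 3)) ∧
  κ * ((lu l ω).val : ZMod 3) = (((l ^ 2 - 1) / 3 : ℕ) : ZMod 3)

/-! ### Kummer cocycles -/

/-- formal properties -/
def DL_st : Prop := ∀ (R : Type) [CommRing R] (φ : Zw →+* R) (M : Zw), M ≠ 0 → φ M = 0 →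
  Gen M (gq M) ∧ (∀ P, M • dv M P = P) ∧
  (∀ S T : Pt, M • S = 0 → M • T = 0 →
    φ (co (gq M) (S + T)) = φ (co (gq M) S) + φ (co (gq M) T) ∧
    φ (co (gq M) (S - T)) = φ (co (gq M) S) - φ (co (gq M) T)) ∧
  (∀ (b : Zw) (S : Pt), M • S = 0 → φ (co (gq M) (b • S)) = φ b * φ (co (gq M) S)) ∧
  φ (co (gq M) 0) = 0 ∧
  (∀ (ι : Type) (s : Finset ι) (S : ι → Pt), (∀ i ∈ s, M • S i = 0) →
    φ (co (gq M) (∑ i ∈ s, S i)) = ∑ i ∈ s, φ (co (gq M) (S i))) ∧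
  (M ∣ star M → cf φ M = 0 ∧ ∀ c, c ∉ GK → (∀ (b : Zw) (P : Pt), gal c (b • P) = star b • gal c P) ∧
    ∃ v, IsUnit v ∧ ∀ S : Pt, M • S = 0 → M • gal c S = 0 ∧
      φ (co (gq M) (gal c S)) = v * cf φ (co (gq M) S)) ∧
  (∀ M' : Zw, M' ≠ 0 → ∃ v, IsUnit v ∧ ∀ S : Pt, (M' * M) • S = 0 →
    φ (co (gq (M' * M)) S) = v * φ (co (gq M) (M' • S))) ∧
  ∀ χ : GQ → ZMod 3, ∀ g ∈ GK,
    (∀ S : Pt, M • S = 0 → φ (co (gq M) (eta χ g S)) = lamZ φ χ M g * φ (co (gq M) S)) ∧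
    (∀ P, eta χ g P = P → M • (eta χ g (dv M P) - dv M P) = 0) ∧
    ((∀ S : Pt, M • S = 0 → eta χ g S = S) → lamZ φ χ M g = 1 ∧
      (∀ P P', eta χ g P = P → M • P' = P →
        dl φ M χ g P = φ (co (gq M) (eta χ g P' - P'))) ∧
      (∀ P P', eta χ g P = P → eta χ g P' = P' →
        dl φ M χ g (P + P') = dl φ M χ g P + dl φ M χ g P' ∧
        dl φ M χ g (P - P') = dl φ M χ g P - dl φ M χ g P') ∧
      (∀ (b : Zw) P, eta χ g P = P → dl φ M χ g (b • P) = φ b * dl φ M χ g P) ∧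
      ∀ (ι : Type) (s : Finset ι) (P : ι → Pt), (∀ i ∈ s, eta χ g (P i) = P i) →
        dl φ M χ g (∑ i ∈ s, P i) = ∑ i ∈ s, dl φ M χ g (P i))

/-! ### Classes -/

/-- the Hecke relation is exact -/
def TL0_st : Prop := ∀ (H : HS) (ε : ZMod 3) (C : AddSubgroup Pt) (l : ℕ), Fo ε C → l.Prime →
  l % 3 = 2 → ¬ l ∣ Nat.card C → ∑ i, H.y (C ⊔ Ln l i) = 0

/-- statements about all systems, rings and levels -/
def AllK (S : HS → ∀ (R : Type) [CommRing R], (Zw →+* R) → Zw → Wt R → Finset ℕ → Prop) : Prop :=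
  ∀ (H : HS) (R : Type) [CommRing R] (φ : Zw →+* R) (M : Zw) (w : Wt R) (n : Finset ℕ), M ≠ 0 →
    φ M = 0 → Pn n → S H R φ M w n

/-- the cochains -/
def KT_st : Prop := AllK fun H R _ φ M w n => Lc GK (H.kt φ M w n) ∧
  (∀ C, Fo (sd n) C → ∀ g ∈ GK,
    M • (eta (H.χ (sd n)) g (dv M (H.y C)) - dv M (H.y (ga g C))) = 0 ∧ Fo (sd n) (ga g C) ∧
    ∀ h ∈ GK, H.F φ M (sd n) (g * h) C =
      H.F φ M (sd n) g (ga h C) + lamZ φ (H.χ (sd n)) M g * H.F φ M (sd n) h C) ∧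
  (∀ g ∈ GK, ∀ h ∈ GK, H.kt φ M w n (g * h) = H.kt φ M w n g +
    lamZ φ (H.χ (sd n)) M g * H.kt φ M (sh w (Av g)) n h) ∧
  (∀ u : Wt R, Mt n u → Mu GK (H.rho φ M u n) ∧ ∀ h, H.H0 M n h → H.rho φ M u n h = 1) ∧
  (∀ h, H1 M n h → H.H0 (pw * M) n h ∧ H.χ (sd n) h = 0) ∧
  (∀ M' h, H.H0 (M' * M) n h → H.H0 M n h) ∧
  (∀ g ∈ GK, ∀ h ∈ GK, H1 M n (g * h * g⁻¹ * h⁻¹)) ∧
  (∀ g ∈ GK, ∀ h, H.H0 M n h → H.H0 M n (g * h * g⁻¹) ∧ H.H0 M n h⁻¹) ∧
  ∀ h, H.H0 M n h → (∀ i, eta (H.χ (sd n)) h (H.y (Cn n i)) = H.y (Cn n i)) ∧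
    H.kt φ M w n h = ∑ i : Jg n, wp w n i.1 * dl φ M (H.χ (sd n)) h (H.y (Cn n i.1)) ∧
    ∀ h', H.H0 M n h' →
      H.H0 M n (h * h') ∧ H.kt φ M w n (h * h') = H.kt φ M w n h + H.kt φ M w n h'

/-- dependence on one weight -/
def SLOT_st : Prop := AllK fun H R _ φ M w n => ∀ h, H.H0 M n h → ∀ l ∈ n,
  (∀ (v v' : ZMod (ml l) → R) (a a' : R), (∀ i, w l i = a * v i + a' * v' i) →
    H.kt φ M w n h = a * H.kt φ M (Function.update w l v) n h +
      a' * H.kt φ M (Function.update w l v') n h) ∧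
  (l % 3 = 2 → ∀ (v : ZMod (ml l) → R) (a c : R), (∀ i, w l i = a * v i + c) →
    H.kt φ M w n h = a * H.kt φ M (Function.update w l v) n h)

/-- translation of affine weights -/
def SHF_st : Prop := AllK fun H R _ φ M w n => ∀ h, H.H0 M n h → ∀ (u : Wt R) (b : JJ)
  (s : Finset ℕ), s ⊆ n → Af s w u →
  H.kt φ M (fun l i => if l ∈ s then w l (i + b l) else w l i) n h = wp u s b * H.kt φ M w n h

/-- translation of the weights that are cut at one prime -/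
def SHC_st : Prop := AllK fun H R _ φ M w n => ∀ u : Wt R, (Af n w u → H.Sh φ M w u n) ∧
  ∀ q ∈ n, Af (n.erase q) w u → Mt n u → wp u n (Lu ω) * φ (ω ^ (H.j (sd n)).val) = 1 →
    (w q = th (u q) → H.Sh φ M w u n) ∧ (w q = u q → ∀ h, H.H0 (pw * M) n h →
      H.kt φ M w n h = 3 * H.kt φ M (Function.update w q (th (u q))) n h)

/-- the derived classes -/
def KC_st : Prop := AllK fun H R _ φ M w n => ∀ u : Wt R, H.Sh φ M w u n →
  (∀ g ∈ GK, ∀ h, H.H0 (pw * M) n h →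
    H.kt φ M w n (g * h * g⁻¹) = H.rho φ M u n g * H.kt φ M w n h) ∧
  ∀ g₀ ∈ GK, Co (H.rho φ M u n) GK (H.kc φ M w n g₀) ∧ H.kc φ M w n g₀ g₀ = 0 ∧
    (∀ g ∈ GK, H.kc φ M w n g₀ g = -H.kc φ M w n g g₀) ∧
    ∀ h, H.H0 (pw * M) n h → H.kc φ M w n g₀ h = (H.rho φ M u n g₀ - 1) * H.kt φ M w n h

/-- ramification -/
def UNR_st : Prop := AllK fun H _ _ φ M w n => ∀ V : Plc, ¬ Ov V (3 * M) → V.l ∉ n →
  ∀ τ ∈ V.I, H1 M n τ ∧ H.kt φ M w n τ = 0

/-- the value at the Frobenius element of a prime of the conductor -/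
def TRS_st : Prop := AllK fun H _ _ φ M w n => ∀ (V : Plc) (f : GQ), V.l % 3 = 2 →
  Frob V.l V.γ f → (∀ M' : Zw, M' ∣ V.l + 1 → H.H0 M' n (f * f)) ∧
    (M ∣ V.l + 1 → V.l ∈ n → ∑ i, w V.l i = 0 → H.kt φ M w n (f * f) = 0)

/-- the finite-singular relation -/
def FS_st : Prop := AllK fun H R _ φ M w n => ∀ (V : Plc) (f τ : GQ) (c : R), M ∣ star M →
  V.l % 3 = 2 → V.l ∉ n → Frob V.l V.γ f → M ∣ V.l + 1 → τ ∈ V.I → Al V.l τ = 1 →
  (∀ i, w V.l (i + 1) = w V.l i + c) → ∃ v, IsUnit v ∧ ∀ g₀ ∈ GK, Al V.l g₀ = 0 →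
    H.kc φ M w (insert V.l n) g₀ τ = v * c * (lamZ φ (H.χ (sd (insert V.l n))) M g₀ *
      H.kt (cf φ) M (sh w (Av g₀)) n (f * f) - H.kt (cf φ) M w n (f * f))

/-- the local condition -/
def LOC_st : Prop := AllK fun H _ _ φ M w n => ∀ (D : Subgroup GQ) (k : GQ → ZMod 3), D ≤ GK →
  (∀ g ∈ D, ∀ l ∈ n, Al l g = (k g).val • lu l ω) → ∀ τ ∈ UM (9 * M),
  Kum φ M (fun g => H.χ (sd n) g - H.j (sd n) * k g) D (H.kc φ M w n τ)

/-- the transfer from a subgroup of index at most two -/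
def TRF_st : Prop := ∀ (R : Type) [CommRing R] (φ : Zw →+* R) (M : Zw) (χ : GQ → ZMod 3)
  (D D' : Subgroup GQ) (c : GQ → R), M ≠ 0 → φ M = 0 → IsUnit (2 : R) → Adt GK χ → D ≤ GK →
  D' ≤ D → (∀ g ∈ D, ∀ h ∈ D, g ∉ D' → h ∉ D' → g * h ∈ D') →
  (∀ g ∈ D, ∀ h ∈ D, c (g * h) = c g + lamZ φ χ M g * c h) → Kum φ M χ D' c → Kum φ M χ D c

/-- change of the level -/
def LEV_st : Prop := ∀ (R : Type) [CommRing R] (φ : Zw →+* R) (M M' : Zw), M ≠ 0 → M' ≠ 0 →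
  φ M = 0 → ∃ v, IsUnit v ∧ ∀ (H : HS) (w : Wt R) (n : Finset ℕ), Pn n → ∀ h,
    H.H0 (M' * M) n h → H.kt φ (M' * M) w n h = v * H.kt φ M w n h

/-- the relation at a split prime -/
def SPL_st : Prop := ∀ (H : HS) (R : Type) [CommRing R] (φ : Zw →+* R) (w u : Wt R)
  (n : Finset ℕ) (ϖ : Zw), H.N1 → φ pw = 0 → Pn n → H.Sh φ pw w u n → PP ϖ → (nn ϖ).Prime →
  nn ϖ ≠ 3 → nn ϖ ∉ n → (∀ i, w (nn ϖ) i = 1) → ∀ h, H1 pw (insert (nn ϖ) n) h →
  H.kt φ pw w (insert (nn ϖ) n) h = (2 - wp u n (Lu ϖ) - wp u n (-Lu ϖ)) * H.kt φ pw w n h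

/-- the class of prime conductor -/
def BAS_st : Prop := ∀ (H : HS) (R : Type) [CommRing R] (φ : Zw →+* R) (w : Wt R) (V : Plc)
  (τ : GQ), H.N1 → φ pw = 0 → V.l % 3 = 2 → τ ∈ V.I → Al V.l τ = 1 → w V.l = th (fun _ => 1) →
  ∃ v, IsUnit v ∧ ∀ g ∈ GK, Al V.l g = 0 → H.kc φ pw w {V.l} τ g = v * ((kum 3 g).val : R)

end Pool.Agent.MP_e23604_nt.N

end

section

/-!
Sums of lines and sums over families of lines.
-/

set_option autoImplicit false

open Finset QuadraticAlgebra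
open scoped Classical

namespace Pool.Agent.MP_e23604_nt.N

open B R S W

theorem sup_CN {G : Type} [AddCommGroup G] (A C : AddSubgroup G)
    (h : (Nat.card A).Coprime (Nat.card C)) : Nat.card ↥(A ⊔ C) = Nat.card A * Nat.card C := by
  have d : ∀ {x : G}, x ∈ A → x ∈ C → x = 0 :=
    AddSubgroup.disjoint_def.1 (AddSubgroup.disjoint_of_coprime_natCard h)
  rw [← Nat.card_prod]
  refine (Nat.card_eq_of_bijective (fun x : A × C => (⟨x.1 + x.2,
    AddSubgroup.add_mem_sup x.1.2 x.2.2⟩ : ↥(A ⊔ C))) ⟨fun x y e => ?_, fun z => ?_⟩).symm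
  · have e1 : (x.1 : G) + x.2 = y.1 + y.2 := congrArg Subtype.val e
    have e2 : (x.1 : G) - y.1 = y.2 - x.2 := by
      rw [sub_eq_sub_iff_add_eq_add, e1, add_comm]
    have e3 : (x.1 : G) - y.1 = 0 := d (A.sub_mem x.1.2 y.1.2) (e2 ▸ C.sub_mem y.2.2 x.2.2)
    exact Prod.ext (Subtype.ext (sub_eq_zero.1 e3))
      (Subtype.ext (sub_eq_zero.1 (e2.symm.trans e3)).symm)
  · obtain ⟨a, ha, c, hc, e⟩ := AddSubgroup.mem_sup.1 z.2
    exact ⟨(⟨a, ha⟩, ⟨c, hc⟩), Subtype.ext e⟩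

theorem map_CN (f : Pt →+ Pt) (n : Finset ℕ) (i j : JJ)
    (h : ∀ l ∈ n, (Ln l (i l)).map f = Ln l (j l)) : (Cn n i).map f = Cn n j := by
  unfold Cn
  induction n using Finset.induction_on with
  | empty => exact AddSubgroup.map_bot f
  | insert a s ha ih =>
    rw [sup_insert, sup_insert, AddSubgroup.map_sup, h a (mem_insert_self _ _),
      ih fun l hl => h l (mem_insert_of_mem hl)]

theorem cop_CN {n : Finset ℕ} (hn : Pn n) {l : ℕ} (hl : l.Prime) (h : l ∉ n) :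
    l.Coprime (∏ k ∈ n, k) :=
  Nat.Coprime.prod_right fun k hk =>
    (Nat.coprime_primes hl (hn k hk).1).2 fun e => h (e ▸ hk)

theorem card_CN (hLU : LU_st) (n : Finset ℕ) (i : JJ) (hn : Pn n) :
    Nat.card (Cn n i) = ∏ l ∈ n, l := by
  unfold Cn
  induction n using Finset.induction_on with
  | empty => simp
  | insert a s ha ih =>
    have hs : Pn s := fun l hl => hn l (mem_insert_of_mem hl)
    have h1 := hn a (mem_insert_self _ _)
    have h2 := ((hLU a h1.1 h1.2).2.2.2.2.2.1 (i a)).1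
    rw [sup_insert, prod_insert ha, sup_CN _ _ (by rw [h2, ih hs]; exact cop_CN hs h1.1 ha), h2,
      ih hs]

theorem CN_pf (hK : KIT_st) (hLU : LU_st) (hAL : AL_st) : CN_st := by
  intro n i hn
  have h1 := card_CN hLU n i hn
  refine ⟨h1, ⟨?_, ?_⟩, fun l hl h => ?_, fun g hg => ?_, fun u hu => ?_⟩
  · have : Fact (Nat.Prime 3) := ⟨Nat.prime_three⟩
    refine prod_ne_zero_iff.2 fun l hl e => (hn l hl).2 ?_
    exact ((Nat.prime_dvd_prime_iff_eq Nat.prime_three (hn l hl).1).1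
      ((ZMod.natCast_eq_zero_iff l 3).1 e)).symm
  · rw [h1, Nat.cast_prod, sd]
  · rw [h1]
    exact (Nat.Prime.coprime_iff_not_dvd hl).1 (cop_CN hn hl h)
  · exact map_CN _ n i _ fun l hl => ((hAL l (hn l hl).1 (hn l hl).2).2.2.2.1 g hg).1 (i l)
  · exact map_CN _ n i _ fun l hl => (hK l (hn l hl).1 (hn l hl).2).act u (hu l hl) (i l)

theorem SUM_pf : SUM_st := by
  intro A _ n Φ
  refine ⟨fun l hl => ?_, fun h b => ?_, fun B => ?_⟩
  · rw [← Fintype.sum_prod_type' (fun (i : Jg n) (a : ZMod (ml l)) => Φ (Function.update i.1 l a))]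
    symm
    refine Fintype.sum_bijective (fun x : Jg n × ZMod (ml l) =>
      (⟨Function.update x.1.1 l x.2, fun k hk => ?_⟩ : Jg (insert l n)))
      ⟨fun x y e => ?_, fun z => ?_⟩ _ _ fun _ => rfl
    · rw [mem_insert, not_or] at hk
      rw [Function.update_of_ne hk.1]
      exact x.1.2 k hk.2
    · have e1 : Function.update x.1.1 l x.2 = Function.update y.1.1 l y.2 := congrArg Subtype.val e
      refine Prod.ext (Subtype.ext (funext fun k => ?_)) ?_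
      · by_cases hk : k = l
        · rw [hk, x.1.2 l hl, y.1.2 l hl]
        · have := congrFun e1 k
          rwa [Function.update_of_ne hk, Function.update_of_ne hk] at this
      · have := congrFun e1 l
        rwa [Function.update_self, Function.update_self] at this
    · refine ⟨(⟨Function.update z.1 l 0, fun k hk => ?_⟩, z.1 l), Subtype.ext ?_⟩
      · by_cases e : k = l
        · rw [e, Function.update_self]
        · rw [Function.update_of_ne e]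
          exact z.2 k fun h => (mem_insert.1 h).elim e hk
      · simp
  · let b' : Jg n := ⟨fun l => if l ∈ n then b l else 0, fun l hl => if_neg hl⟩
    refine Fintype.sum_equiv (Equiv.addRight b') _ _ fun i => h _ _ fun l hl => ?_
    show i.1 l + b l = i.1 l + if l ∈ n then b l else 0
    rw [if_pos hl]
  · refine ⟨(univ : Finset (Jg n ⧸ B)).image Quotient.out, ?_⟩
    rw [sum_image fun q _ q' _ e => Quotient.out_injective e]
    refine Eq.trans (Eq.symm ?_)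
      (sum_product' _ _ (fun (q : Jg n ⧸ B) (b : B) => Φ (q.out.1 + b.1.1)))
    refine sum_bijective (fun x : (Jg n ⧸ B) × B => x.1.out + x.2.1)
      ⟨fun x y e => ?_, fun z => ?_⟩ (fun _ => by simp) fun _ _ => rfl
    · have e1 : x.1 = y.1 := by
        have := congrArg (QuotientAddGroup.mk (s := B)) e
        simpa using this
      refine Prod.ext e1 (Subtype.ext ?_)
      have e2 : x.1.out + x.2.1 = y.1.out + y.2.1 := e
      rw [e1] at e2
      exact add_left_cancel e2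
    · obtain ⟨c, hc⟩ := QuotientAddGroup.mk_out_eq_add B z
      refine ⟨((z : Jg n ⧸ B), -c), ?_⟩
      show (z : Jg n ⧸ B).out + (-c).1 = z
      rw [hc]
      simp

end Pool.Agent.MP_e23604_nt.N

end

section

/-!
The Hecke relation, and the formal properties of the cochains.
-/

set_option autoImplicit false

open Finset QuadraticAlgebra
open scoped Classical

namespace Pool.Agent.MP_e23604_nt.N

open B R S W

theorem one_KT {A : Type} [AddGroup A] {f : GQ → A} (h : Adt GK f) : f 1 = 0 := by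
  have := h 1 GK.one_mem 1 GK.one_mem
  rwa [mul_one, left_eq_add] at this

theorem inv_KT {A : Type} [AddGroup A] {f : GQ → A} (h : Adt GK f) {g : GQ} (hg : g ∈ GK) :
    f g⁻¹ = -f g := by
  have := h g hg _ (GK.inv_mem hg)
  rw [mul_inv_cancel, one_KT h] at this
  exact (neg_eq_of_add_eq_zero_right this.symm).symm

theorem card_KT (g : GQ) (C : AddSubgroup Pt) : Nat.card (ga g C) = Nat.card C :=
  AddSubgroup.card_map_of_injective (gal_inj g)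

theorem ga_KT (g h : GQ) (C : AddSubgroup Pt) : ga (g * h) C = ga g (ga h C) := by
  rw [ga, ga, ga, AddSubgroup.map_map]
  exact congrArg (C.map ·) (AddMonoidHom.ext fun P => gal_mul g h P)

theorem sum_KT {V : Plc} {ι : Type} (s : Finset ι) {P : ι → Pt} (h : ∀ i ∈ s, E1 V.v (P i)) :
    E1 V.v (∑ i ∈ s, P i) :=
  sum_induction P (E1 V.v) (fun _ _ => E1a) ((E1_iff _ _).2 (Or.inl rfl)) h

theorem pi_KT {ι : Type} (s : Finset ι) {α : ι → Type} {f : ∀ i, GQ → α i}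
    (h : ∀ i ∈ s, Lc GK (f i)) : ∃ N, ON N ∧ ∀ i ∈ s, Cst N GK (f i) := by
  induction s using Finset.induction_on with
  | empty => exact ⟨⊤, ON.top, by simp⟩
  | insert i s _ ih =>
    obtain ⟨N, h1, h2⟩ := ih fun j hj => h j (mem_insert_of_mem hj)
    obtain ⟨N', h3, h4⟩ := h i (mem_insert_self _ _)
    refine ⟨N ⊓ N', h1.inf h3, fun j hj => ?_⟩
    rcases mem_insert.1 hj with rfl | hj
    exacts [h4.mono inf_le_right le_rfl, (h2 j hj).mono inf_le_left le_rfl]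

theorem Cn_KT {n : Finset ℕ} {i i' : JJ} (h : ∀ l ∈ n, i l = i' l) : Cn n i = Cn n i' :=
  sup_congr rfl fun l hl => by rw [h l hl]

theorem wp_KT {R : Type} [CommRing R] {n : Finset ℕ} {w w' : Wt R} {i i' : JJ}
    (h : ∀ l ∈ n, w l (i l) = w' l (i' l)) : wp w n i = wp w' n i' := prod_congr rfl h

theorem TL0_pf (hLU : LU_st) (hF : FRI_st) (hAL : AL_st) : TL0_st := by
  intro H ε C l hC hl l3 hd
  obtain ⟨V, rfl⟩ : ∃ V : Plc, V.l = l := ⟨@Plc.mk l ⟨hl⟩ 1, rfl⟩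
  obtain ⟨hp, hV, -, ⟨f, hf⟩, h⟩ := hF V l3
  obtain ⟨a1, a2, a3, a4, -⟩ := h f hf
  obtain ⟨u, -, hu⟩ := H.cong ε V f l3 hf
  have hσ : f * f ∈ GK := a2.1.2
  have c0 : Nat.card C ≠ 0 := fun e => hC.1 (by rw [← hC.2, e, Nat.cast_zero])
  have : Finite C := Nat.finite_of_card_ne_zero c0
  have b1 : H.χ ε (f * f) = 0 := by
    have e := H.anti ε f a1 _ hσ
    rw [show f * (f * f) * f⁻¹ = f * f by group] at e
    generalize H.χ ε (f * f) = x at e
    revert x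
    decide
  have b2 : ga (f * f) C = C := by
    refine AddSubgroup.eq_of_le_of_card_ge ?_ (card_KT _ C).ge
    rintro _ ⟨P, hP, rfl⟩
    have e : ((Nat.card C : ℕ) : Zw) • P = 0 := by
      rw [Nat.cast_smul_eq_nsmul]
      exact congrArg Subtype.val (card_nsmul_eq_zero' (x := (⟨P, hP⟩ : C)))
    rw [((FRB_ok V _ hp hV).2 _ a2).2 _ P (fun e => hd ((PLK_ok.2.2.2.1 V _).1 e)) e, neg_smul,
      Nat.cast_smul_eq_nsmul]
    exact C.neg_mem (C.nsmul_mem hP _)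
  have b3 : gal (f * f) (H.y C) = H.y C := by
    have e := H.act ε C hC _ hσ
    rwa [b2, eta_apply, b1, ZMod.val_zero, pow_zero, one_smul] at e
  have b4 := (E1m (a3 _ (a4 (H.y C))) u).1
  rw [b3, Nat.cast_smul_eq_nsmul, ← succ_nsmul', map_nsmul, smul_comm] at b4
  have b5 := sum_KT univ fun i _ => hu C hC hd i
  rw [show V.l + 1 = ml V.l by rw [ml, if_pos l3]] at b4
  rw [sum_sub_distrib, sum_const, card_univ, ZMod.card] at b5
  have b6 := E1a b5 b4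
  rw [sub_add_cancel] at b6
  refine E1_tor b6 (fun e => ?_) (H.tl ε C V.l hC hl l3 hd)
  have := (PLK_ok.2.2.2.1 V 3).1 (by rw [Nat.cast_ofNat]; exact Ov_three.2 e)
  have := (Nat.prime_dvd_prime_iff_eq hl Nat.prime_three).1 this
  omega

theorem KT_pf (hDL : DL_st) (hAL : AL_st) (hCN : CN_st) (hS : SUM_st) : KT_st := by
  intro H R _ φ M w n hM hφ hn
  have hA := H.add (sd n)
  obtain ⟨d1, d2, d3, -, -, -, -, -, d9⟩ := hDL R φ M hM hφ
  have aA : ∀ l ∈ n, Adt GK (Al l) := fun l hl => (hAL l (hn l hl).1 (hn l hl).2).1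
  have hG : ∀ g ∈ GK, ∀ i, ga g (Cn n i) = Cn n (i + Av g) := fun g hg i =>
    (hCN n i hn).2.2.2.1 g hg
  have hO : ∀ i, Fo (sd n) (Cn n i) := fun i => (hCN n i hn).2.1
  have lχ : Lc GK (H.χ (sd n)) := lc_of_open (UM_open (M := 9) (by norm_num)) fun g hg u hu _ => by
    rw [hA g hg u hu.1, H.fac _ u hu, add_zero]
  have lη : ∀ P : Pt, Lc GK fun g => eta (H.χ (sd n)) g P := fun P =>
    lχ.map₂ ((gal_lc P).mono le_top) fun a Q => (ω : Zw) ^ a.val • Q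
  obtain ⟨N₁, n1, n2⟩ := pi_KT n (f := Al) fun l hl => (hAL l (hn l hl).1 (hn l hl).2).2.1
  have k1 : ∀ C, Fo (sd n) C → ∀ g ∈ GK,
      M • (eta (H.χ (sd n)) g (dv M (H.y C)) - dv M (H.y (ga g C))) = 0 := fun C hC g hg => by
    rw [smul_sub, ← eta_smul _ hg, d2, d2, H.act _ C hC g hg, sub_self]
  have k2 : ∀ C, Fo (sd n) C → ∀ g, Fo (sd n) (ga g C) := fun C hC g =>
    ⟨hC.1, by rw [card_KT, hC.2]⟩
  have tη : ∀ g ∈ GK, ∀ P : Pt, M • P = 0 → M • eta (H.χ (sd n)) g P = 0 := fun g hg P e => by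
    rw [← eta_smul _ hg, e, map_zero]
  have k3 : ∀ C, Fo (sd n) C → ∀ g ∈ GK, ∀ h ∈ GK, H.F φ M (sd n) (g * h) C =
      H.F φ M (sd n) g (ga h C) + lamZ φ (H.χ (sd n)) M g * H.F φ M (sd n) h C := by
    intro C hC g hg h hh
    rw [HS.F, HS.F, HS.F, ← (d9 _ g hg).1 _ (k1 C hC h hh),
      ← (d3 _ _ (k1 _ (k2 C hC h) g hg) (tη g hg _ (k1 C hC h hh))).1, eta_mul hA hg hh, map_sub,
      ga_KT]
    congr 2
    abel
  have k4 : ∀ w : Wt R, ∀ g ∈ GK, ∀ h ∈ GK, H.kt φ M w n (g * h) = H.kt φ M w n g +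
      lamZ φ (H.χ (sd n)) M g * H.kt φ M (sh w (Av g)) n h := by
    intro w g hg h hh
    rw [HS.kt, HS.kt, HS.kt, mul_sum, ← (hS R n fun i => wp w n (i + Av g) *
      H.F φ M (sd n) g (Cn n i)).2.1 (fun i i' e => by
        rw [Cn_KT e, wp_KT (w' := w) (i' := i' + Av g) fun l hl => by
          rw [Pi.add_apply, Pi.add_apply, e l hl]]) (Av h), ← sum_add_distrib]
    refine sum_congr rfl fun i _ => ?_
    have e : ∀ l ∈ n, (i.1 + Av (g * h)) l = (i.1 + Av h + Av g) l := fun l hl => by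
      change i.1 l + Al l (g * h) = i.1 l + Al l h + Al l g
      rw [aA l hl g hg h hh]
      ring
    rw [k3 _ (hO _) g hg h hh, hG h hh, mul_add,
      wp_KT (w' := w) (i' := i.1 + Av h + Av g) fun l hl => by rw [e l hl], mul_left_comm]
    rfl
  have g0 := d1.zero
  have c1 : φ (co (gq M) (gq M)) = 1 := by
    have e := co_spec (Q := gq M) (P := gq M) ⟨1, (one_smul _ _).symm⟩
    obtain ⟨c, hc⟩ := d1.congr.1 (e.symm.trans (one_smul _ _).symm)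
    have := congrArg φ hc
    rwa [map_mul, hφ, zero_mul, map_sub, map_one, sub_eq_zero] at this
  have c2 : ∀ g ∈ GK, lamZ φ (H.χ (sd n)) M g = φ (co (gq M) (eta (H.χ (sd n)) g (gq M))) :=
    fun g hg => by rw [(d9 _ g hg).1 _ g0, c1, mul_one]
  have k5 : ∀ h, H.H0 M n h → lamZ φ (H.χ (sd n)) M h = 1 := fun h hh =>
    ((d9 _ h hh.1).2.2 hh.2.1).1
  have k6 : ∀ h, H.H0 M n h → ∀ i, ga h (Cn n i) = Cn n i := fun h hh i =>
    (hG h hh.1 i).trans (Cn_KT fun l hl => by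
      change i l + Al l h = i l
      rw [hh.2.2 l hl, add_zero])
  refine ⟨?_, fun C hC g hg => ⟨k1 C hC g hg, k2 C hC g, k3 C hC g hg⟩, k4 w,
    fun u hu => ⟨⟨?_, ?_, fun g hg h hh => ?_⟩, fun h hh => ?_⟩, fun h hh => ?_,
    fun M' h hh => ⟨hh.1, fun P e => hh.2.1 P (by rw [mul_smul, e, smul_zero]), hh.2.2⟩,
    fun g hg h hh => ⟨?_, fun l hl => ?_⟩, fun g hg h hh => ⟨⟨?_, fun P e => ?_, fun l hl => ?_⟩,
      GK.inv_mem hh.1, fun P e => ?_, fun l hl => ?_⟩,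
    fun h hh => ⟨fun i => ?_, ?_, fun h' hh' => ⟨⟨GK.mul_mem hh.1 hh'.1, fun P e => ?_,
      fun l hl => ?_⟩, ?_⟩⟩⟩
  · obtain ⟨N₂, n3, n4⟩ := pi_KT (univ : Finset (Jg n)) fun i _ => lη (dv M (H.y (Cn n i.1)))
    refine ⟨N₁ ⊓ N₂, n1.inf n3, fun g hg h hh e => sum_congr rfl fun i _ => ?_⟩
    have e1 : ∀ l ∈ n, (i.1 + Av g) l = (i.1 + Av h) l := fun l hl =>
      congrArg (i.1 l + ·) (n2 l hl g hg h hh e.1)
    have e2 : eta (H.χ (sd n)) g (dv M (H.y (Cn n i.1))) = eta (H.χ (sd n)) h _ :=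
      n4 i (mem_univ _) g hg h hh e.2
    rw [HS.F, HS.F, hG g hg, hG h hh, Cn_KT e1, e2,
      wp_KT (w' := w) (i' := i.1 + Av h) fun l hl => by rw [e1 l hl]]
  · obtain ⟨N₂, n3, n4⟩ := lη (gq M)
    refine ⟨N₁ ⊓ N₂, n1.inf n3, fun g hg h hh e => ?_⟩
    have e2 : eta (H.χ (sd n)) g (gq M) = eta (H.χ (sd n)) h (gq M) := n4 g hg h hh e.2
    rw [HS.rho, HS.rho, c2 g hg, c2 h hh, e2,
      wp_KT (w' := u) (i := Av g) (i' := Av h) fun l hl => congrArg (u l) (n2 l hl g hg h hh e.1)]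
  · rw [HS.rho, c2 1 GK.one_mem, eta_one hA, c1, one_mul]
    exact prod_eq_one fun l hl => (congrArg (u l) (one_KT (aA l hl))).trans (hu l hl).1
  · rw [HS.rho, HS.rho, HS.rho, c2 _ (GK.mul_mem hg hh), eta_mul hA hg hh,
      (d9 _ g hg).1 _ (tη h hh _ g0), ← c2 h hh, mul_mul_mul_comm, wp, wp, wp, ← prod_mul_distrib]
    exact congrArg _ (prod_congr rfl fun l hl =>
      (congrArg (u l) (aA l hl g hg h hh)).trans ((hu l hl).2 _ _))
  · rw [HS.rho, k5 h hh, one_mul]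
    exact prod_eq_one fun l hl => (congrArg (u l) (hh.2.2 l hl)).trans (hu l hl).1
  · have e := H.fac (sd n) h (UM_mono (dvd_mul_right 9 M) hh.1)
    refine ⟨⟨hh.1.1, fun P hP => ?_, hh.2⟩, e⟩
    rw [eta_apply, e, ZMod.val_zero, pow_zero, one_smul]
    exact hh.1.2 P (dvd_smul hP (mul_dvd_mul_right (pw_dvd3.trans ⟨3, by norm_num⟩) M))
  · have := ((PS_ok (9 * M) (mul_ne_zero (by norm_num) hM)).1 _ (GK.inv_mem hh)).2.2.2.2.2.2.1 _
      (GK.inv_mem hg)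
    rwa [mul_inv_rev, inv_inv, inv_inv, ← mul_assoc] at this
  · have a := aA l hl
    rw [a _ (GK.mul_mem (GK.mul_mem hg hh) (GK.inv_mem hg)) _ (GK.inv_mem hh),
      a _ (GK.mul_mem hg hh) _ (GK.inv_mem hg), a g hg h hh, inv_KT a hg, inv_KT a hh]
    ring
  · exact (Plc.cj_GK g h).1 hh.1
  · rw [eta_mul hA (GK.mul_mem hg hh.1) (GK.inv_mem hg), eta_mul hA hg hh.1,
      hh.2.1 _ (tη _ (GK.inv_mem hg) P e), ← eta_mul hA hg (GK.inv_mem hg), mul_inv_cancel,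
      eta_one hA]
  · have a := aA l hl
    rw [a _ (GK.mul_mem hg hh.1) _ (GK.inv_mem hg), a g hg h hh.1, inv_KT a hg, hh.2.2 l hl,
      add_zero, add_neg_cancel]
  · conv_lhs => rw [← hh.2.1 P e, ← eta_mul hA (GK.inv_mem hh.1) hh.1, inv_mul_cancel, eta_one hA]
  · rw [inv_KT (aA l hl) hh.1, hh.2.2 l hl, neg_zero]
  · rw [H.act _ _ (hO i) h hh.1, k6 h hh]
  · refine sum_congr rfl fun i _ => ?_
    rw [HS.F, k6 h hh, wp_KT (w' := w) (i' := i.1) fun l hl => by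
      change w l (i.1 l + Al l h) = _
      rw [hh.2.2 l hl, add_zero]]
    rfl
  · rw [eta_mul hA hh.1 hh'.1, hh'.2.1 P e, hh.2.1 P e]
  · rw [aA l hl h hh.1 h' hh'.1, hh.2.2 l hl, hh'.2.2 l hl, add_zero]
  · rw [k4 w h hh.1 h' hh'.1, k5 h hh, one_mul]
    refine congrArg _ (sum_congr rfl fun i _ => ?_)
    rw [wp_KT (w' := w) (i' := i.1 + Av h') fun l hl => by
      change w l ((i.1 + Av h') l + Al l h) = _
      rw [hh.2.2 l hl, add_zero]]

end Pool.Agent.MP_e23604_nt.N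

end

section

/-!
The derived classes: cocycle property, ramification, and the value at a Frobenius element.
-/

set_option autoImplicit false

open Finset QuadraticAlgebra
open scoped Classical

namespace Pool.Agent.MP_e23604_nt.N

open B R S W

theorem sh_KC (H : HS) {R : Type} [CommRing R] (φ : Zw →+* R) (M : Zw) (w : Wt R) {n : Finset ℕ}
    {k : GQ} (hk : ∀ l ∈ n, Al l k = 0) (g : GQ) :
    H.kt φ M (sh w (Av k)) n g = H.kt φ M w n g := by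
  refine sum_congr rfl fun i _ => ?_
  congr 1
  refine prod_congr rfl fun l hl => ?_
  change w l (_ + Al l k) = _
  rw [hk l hl, add_zero]

theorem KC_pf (hKT : KT_st) : KC_st := by
  intro H R _ φ M w n hM hφ hn u hS
  obtain ⟨⟨N, hN, hc⟩, -, k3, k4, k5, k6, k7, k8, k9⟩ := hKT H R φ M w n hM hφ hn
  obtain ⟨-, -, -, -, -, -, -, k8', -⟩ := hKT H R φ (pw * M) w n (mul_ne_zero pw_ne hM)
    (by rw [map_mul, hφ, mul_zero]) hn
  have add : ∀ h h', H.H0 M n h → H.H0 M n h' →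
      H.kt φ M w n (h * h') = H.kt φ M w n h + H.kt φ M w n h' :=
    fun h h' a b => ((k9 h a).2.2 h' b).2
  have cm : ∀ g ∈ GK, ∀ h ∈ GK, H.H0 (pw * M) n (g * h * g⁻¹ * h⁻¹) :=
    fun g a h b => (k5 _ (k7 g a h b)).1
  have one : H.H0 M n 1 := by simpa using k6 _ _ (cm 1 GK.one_mem 1 GK.one_mem)
  have kt1 : H.kt φ M w n 1 = 0 := by
    have := add 1 1 one one
    rw [mul_one] at this
    linear_combination -this
  have cj : ∀ g ∈ GK, ∀ h, H.H0 (pw * M) n h →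
      H.kt φ M w n (g * h * g⁻¹) = H.rho φ M u n g * H.kt φ M w n h := fun g hg h hh => by
    have h1 := k6 _ _ (k8' g hg h hh).1
    have h2 := (k4 (fun _ _ => 1) fun l _ => ⟨rfl, fun _ _ => (mul_one _).symm⟩).2 _ h1
    rw [HS.rho, wp, prod_const_one, mul_one] at h2
    have h3 := k3 _ h1.1 g hg
    rw [h2, one_mul, sh_KC H φ M w h1.2.2, inv_mul_cancel_right, k3 g hg h hh.1,
      hS.shf h hh] at h3
    rw [HS.rho]
    linear_combination -h3
  refine ⟨cj, fun g₀ h0 => ⟨⟨⟨N, hN, fun g hg h hh e => ?_⟩, fun g hg h hh => ?_⟩, ?_,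
    fun g hg => ?_, fun h hh => ?_⟩⟩
  · refine hc _ (cm g₀ h0 g hg).1 _ (cm g₀ h0 h hh).1 ?_
    have := N.mul_mem (hN.1.conj_mem _ e (g * g₀)) (hN.1.conj_mem _ (N.inv_mem e) g)
    convert this using 1
    group
  · have e : g₀ * (g * h) * g₀⁻¹ * (g * h)⁻¹ =
        g₀ * g * g₀⁻¹ * g⁻¹ * (g * (g₀ * h * g₀⁻¹ * h⁻¹) * g⁻¹) := by group
    rw [HS.kc, e, add _ _ (k6 _ _ (cm g₀ h0 g hg)) (k8 g hg _ (k6 _ _ (cm g₀ h0 h hh))).1,
      cj g hg _ (cm g₀ h0 h hh)]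
    rfl
  · rw [HS.kc, mul_inv_cancel_right, mul_inv_cancel, kt1]
  · have e : g₀ * g * g₀⁻¹ * g⁻¹ * (g * g₀ * g⁻¹ * g₀⁻¹) = 1 := by group
    have := add _ _ (k6 _ _ (cm g₀ h0 g hg)) (k6 _ _ (cm g hg g₀ h0))
    rw [e, kt1] at this
    exact eq_neg_of_add_eq_zero_left this.symm
  · have h1 := k8 g₀ h0 h (k6 _ _ hh)
    have h2 := add _ _ (k6 _ _ hh) h1.2
    rw [mul_inv_cancel, kt1] at h2
    rw [HS.kc, add _ _ h1.1 h1.2, cj g₀ h0 h hh]
    linear_combination -h2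

theorem eta_KC {χ : GQ → ZMod 3} {g : GQ} (h : χ g = 0) (P : Pt) : eta χ g P = gal g P := by
  rw [eta_apply, h, ZMod.val_zero, pow_zero, one_smul]

theorem UNR_pf (hDL : DL_st) (hAL : AL_st) (hKT : KT_st) : UNR_st := by
  intro H R _ φ M w n hM hφ hn V hV hl τ hτ
  obtain ⟨-, -, -, -, k5, k6, -, -, k9⟩ := hKT H R φ M w n hM hφ hn
  obtain ⟨-, -, -, -, d5, -, -, -, d9⟩ := hDL R φ M hM hφ
  rw [Ov_mul, not_or] at hV
  obtain ⟨i1, -, i3⟩ := INE_ok V hV.1 τ hτ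
  have h3 : V.l ≠ 3 := fun e => hV.1 (by simpa [e] using Ov_l V)
  have h1 : H1 M n τ := by
    refine ⟨i3 _ ?_, fun l a => ?_⟩
    · rw [show (9 : Zw) = 3 * 3 by norm_num, Ov_mul, Ov_mul]
      tauto
    · exact ((hAL l (hn l a).1 (hn l a).2).2.2.2.2.2.1 V (fun e => hl (e ▸ a)) h3).1 τ hτ
  refine ⟨h1, ?_⟩
  obtain ⟨h2, h4⟩ := k5 τ h1
  obtain ⟨a1, a2, -⟩ := k9 τ (k6 _ _ h2)
  rw [a2]
  refine sum_eq_zero fun i _ => ?_
  have h5 := (d9 (H.χ (sd n)) τ h2.1).2.1 _ (a1 i.1)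
  rw [dl, E1_tor (V := V) (by rw [eta_KC h4]; exact i1 _) hV.2 h5, d5, mul_zero]

theorem TRS_pf (hDL : DL_st) (hAL : AL_st) (hF : FRI_st) (hKT : KT_st) (hCN : CN_st)
    (hS : SUM_st) : TRS_st := by
  intro H R _ φ M w n hM hφ hn V f h3 hf
  obtain ⟨f1, f2, -, f4, -⟩ := (hF V h3).2.2.2.2 f hf
  have hσ : f * f ∈ GK := V.D_le f2.1
  have hχ : ∀ ε, H.χ ε (f * f) = 0 := fun ε => by
    have h1 := H.anti ε f f1 _ hσ
    rw [← mul_assoc, mul_inv_cancel_right] at h1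
    exact (by decide : ∀ x : ZMod 3, x = -x → x = 0) _ h1
  have hov : ∀ M' : Zw, M' ∣ V.l + 1 → ¬ Ov V M' := fun M' a b =>
    (Ov_l V).cop ⟨-1, 1, by ring⟩ (b.dvd a)
  have h0 : ∀ M' : Zw, M' ∣ V.l + 1 → H.H0 M' n (f * f) := fun M' a => by
    refine ⟨hσ, fun P hP => ?_, fun l b => (hAL l (hn l b).1 (hn l b).2).2.2.2.2.1 f f1⟩
    rw [eta_KC (hχ _), ← sub_eq_zero]
    refine E1_tor (V := V) ?_ (hov M' a) (by rw [smul_sub, ← gal_smul hσ, hP, map_zero, sub_zero])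
    have h1 := dvd_smul hP a
    rw [add_smul, one_smul, ← eq_neg_iff_add_eq_zero] at h1
    rw [sub_eq_add_neg, ← h1]
    exact f4 P
  refine ⟨h0, fun hd hl hw => ?_⟩
  obtain ⟨-, d2, -, -, -, -, -, -, d9⟩ := hDL R φ M hM hφ
  obtain ⟨a1, a2, -⟩ := (hKT H R φ M w n hM hφ hn).2.2.2.2.2.2.2.2 _ (h0 M hd)
  obtain ⟨n', hn', rfl⟩ : ∃ n', V.l ∉ n' ∧ n = insert V.l n' :=
    ⟨n.erase V.l, notMem_erase _ _, (insert_erase hl).symm⟩
  rw [a2, (hS R n' fun i => wp w (insert V.l n') i *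
    dl φ M (H.χ (sd (insert V.l n'))) (f * f) (H.y (Cn (insert V.l n') i))).1 V.l hn']
  refine sum_eq_zero fun i _ => ?_
  have e1 : ∀ a, wp w (insert V.l n') (Function.update i.1 V.l a) = w V.l a * wp w n' i.1 :=
    fun a => by
      rw [wp, prod_insert hn', Function.update_self]
      congr 1
      exact prod_congr rfl fun l b => by rw [Function.update_of_ne (ne_of_mem_of_not_mem b hn')]
  have e2 : ∀ a, Cn (insert V.l n') (Function.update i.1 V.l a) = Cn n' i.1 ⊔ Ln V.l a :=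
    fun a => by
      rw [Cn, sup_insert, Function.update_self, sup_comm]
      congr 1
      exact sup_congr rfl fun l b => by rw [Function.update_of_ne (ne_of_mem_of_not_mem b hn')]
  obtain ⟨-, c2, c3, -⟩ := hCN n' i.1 fun l b => hn l (mem_insert_of_mem b)
  obtain ⟨u, -, hu⟩ := H.cong (sd n') V f h3 hf
  obtain ⟨b, hb⟩ := hd
  have e3 : ∀ a, E1 V.v (eta (H.χ (sd (insert V.l n'))) (f * f)
      (dv M (H.y (Cn n' i.1 ⊔ Ln V.l a))) - dv M (H.y (Cn n' i.1 ⊔ Ln V.l a)) +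
        b • u • gal f (H.y (Cn n' i.1))) := fun a => by
    have h1 := E1s (f4 (dv M (H.y (Cn n' i.1 ⊔ Ln V.l a))))
      (E1m (hu _ c2 (c3 _ V.hl.out hn') a) b).1
    have h2 : ((V.l : Zw) + 1) • dv M (H.y (Cn n' i.1 ⊔ Ln V.l a)) =
        b • H.y (Cn n' i.1 ⊔ Ln V.l a) := by rw [hb, mul_comm, mul_smul, d2]
    rw [smul_sub, ← h2, add_smul, one_smul] at h1
    rw [eta_KC (hχ _)]
    convert h1 using 1
    abel
  have e4 : ∀ a, M • (eta (H.χ (sd (insert V.l n'))) (f * f)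
      (dv M (H.y (Cn n' i.1 ⊔ Ln V.l a))) - dv M (H.y (Cn n' i.1 ⊔ Ln V.l a))) = 0 := fun a =>
    (d9 _ _ hσ).2.1 _ (e2 a ▸ a1 _)
  have e5 : ∀ a, dl φ M (H.χ (sd (insert V.l n'))) (f * f) (H.y (Cn n' i.1 ⊔ Ln V.l a)) =
      dl φ M (H.χ (sd (insert V.l n'))) (f * f) (H.y (Cn n' i.1 ⊔ Ln V.l 0)) := fun a => by
    have h1 := E1s (e3 a) (e3 0)
    rw [add_sub_add_right_eq_sub] at h1
    rw [dl, dl, sub_eq_zero.1
      (E1_tor h1 (hov M ⟨b, hb⟩) (by rw [smul_sub, e4, e4, sub_zero]))]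
  simp only [e1, e2, e5, ← sum_mul, hw, zero_mul]

end Pool.Agent.MP_e23604_nt.N

end
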