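import Pool.Agent.Mg.Fe23604m.Ga474eb
import Pool.Agent.Mg.Fe23604m.G68d450
import Pool.Agent.Mg.Fe23604m.G9bf290
import Pool.Agent.Mg.Fe23604m.G5a860c
import Pool.Agent.Mg.Fe23604m.G9f00c9

set_option linter.all false

section

/-!
Inert primes, lines of torsion points, systems of points, and the statements of the descent.
-/

set_option autoImplicit false

open Finset QuadraticAlgebra
open scoped Classical

namespace Pool.Agent.MP_e23604_nt.Y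

open B R S W

/-- a place over an inert prime and a Frobenius element over the rational numbers -/
structure In (V : Plc) (φ : GQ) : Prop where
  l3 : V.l % 3 = 2
  fr : Frob V.l V.γ φ

/-- an involution that moves the cube roots of unity -/
structure Cj (c : GQ) : Prop where
  nk : c ∉ GK
  sq : c * c = 1

/-- characters that change sign under conjugation -/
def Anti {A : Type} [Neg A] (χ : GQ → A) : Prop := ∀ c ∉ GK, ∀ g ∈ GK, χ (c * g * c⁻¹) = -χ g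

/-- the subgroups of order `l` -/
noncomputable def lines (l : ℕ) : Finset (AddSubgroup Pt) :=
  ((tor l).erase 0).image AddSubgroup.zmultiples

/-- a primitive root modulo `l` -/
noncomputable def gl (l : ℕ) : Zw := Classical.epsilon fun u =>
  ¬ (l : Zw) ∣ u ∧ ∀ v : Zw, ¬ (l : Zw) ∣ v → ∃ i : ℕ, (l : Zw) ∣ v - u ^ i

/-- the logarithm modulo `l + 1` -/
noncomputable def lg (l : ℕ) (v : Zw) : ZMod (l + 1) :=
  Classical.epsilon fun a => (l : Zw) ∣ v ^ (l - 1) - (gl l ^ (l - 1)) ^ a.val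

/-- the action of the Galois group on the subgroups of order `l` -/
noncomputable def Al (l : ℕ) (g : GQ) : ZMod (l + 1) := lg l (ps l g)

/-- a point of order `l` -/
noncomputable def tl (l : ℕ) : Pt := Classical.epsilon (Gen l)

/-- the list of the subgroups of order `l` -/
noncomputable def ln (l : ℕ) (i : ZMod (l + 1)) : AddSubgroup Pt :=
  AddSubgroup.zmultiples (gl l ^ i.val • tl l)

/-- auxiliary primes -/
structure Kp (r B l : ℕ) : Prop where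
  pr : l.Prime
  gt : B < l
  dv : 9 * r ∣ l + 1

/-- systems of points -/
structure HS (χ χ' : GQ → ZMod 3) (r B : ℕ) (y₀ : Pt) (y₁ : AddSubgroup Pt → Pt)
    (y₂ : AddSubgroup Pt → AddSubgroup Pt → Pt) : Prop where
  g0 : Fx χ GK y₀
  g1 : ∀ l, Kp r B l → ∀ L ∈ lines l, ∀ g ∈ GK, y₁ (L.map (gal g)) = eta χ' g (y₁ L)
  g2 : ∀ l l', Kp r B l → Kp r B l' → l ≠ l' → ∀ L ∈ lines l, ∀ L' ∈ lines l', ∀ g ∈ GK,
    y₂ (L.map (gal g)) (L'.map (gal g)) = eta χ g (y₂ L L')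
  t1 : ∀ l, Kp r B l → (3 : Zw) • ∑ L ∈ lines l, y₁ L = 0
  t2 : ∀ l l', Kp r B l → Kp r B l' → l ≠ l' →
    (∀ L ∈ lines l, (3 : Zw) • ∑ L' ∈ lines l', y₂ L L' = 0) ∧
    ∀ L' ∈ lines l', (3 : Zw) • ∑ L ∈ lines l, y₂ L L' = 0
  c1 : ∀ (V : Plc) (φ : GQ), Kp r B V.l → In V φ →
    ∃ u : Zw, IsUnit u ∧ ∀ L ∈ lines V.l, E1 V.v (y₁ L - u • gal φ y₀)
  c2 : ∀ (l : ℕ) (V : Plc) (φ : GQ), Kp r B l → Kp r B V.l → l ≠ V.l → In V φ →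
    ∃ u : Zw, IsUnit u ∧ ∀ L ∈ lines l, ∀ L' ∈ lines V.l, E1 V.v (y₂ L L' - u • gal φ (y₁ L))

/-- the twisted action comes from a curve over the rational numbers -/
def Mdl (χ : GQ → ZMod 3) : Prop := ∃ (E : WeierstrassCurve ℚ) (_ : E.IsElliptic)
  (Ψ : Pts E Qb ≃+ Pt), ∀ g ∈ GK, ∀ P, Ψ (galQ E g P) = eta χ g (Ψ P)

/-! ### Inert primes -/

/-- places over inert primes -/
def INF_st : Prop := (∃ c, Cj c) ∧ (∀ V : Plc, V.l % 3 = 2 → ∃ φ, In V φ) ∧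
  ∀ (V : Plc) (φ : GQ), In V φ → PP (-V.l) ∧ Ov V (-V.l) ∧ nn (-V.l) = V.l ^ 2 ∧ φ ∉ GK ∧
    FK V (-V.l) (φ ^ 2) ∧ (∀ g, g ∈ V.D ↔ φ * g * φ⁻¹ ∈ V.D) ∧
    (∀ g, g ∈ V.I ↔ φ * g * φ⁻¹ ∈ V.I) ∧ Ine V.l V.γ ≤ GK ∧
    (∀ W : Plc, Ov W V.l ↔ W.l = V.l) ∧
    (∀ P : Pt, E1 V.v (gal (φ ^ 2) P + (V.l : Zw) • P)) ∧
    (∀ M : Zw, M ≠ 0 → ¬ Ov V M → (φ ^ 2 ∈ UM M ↔ M ∣ V.l + 1) ∧ (M ∣ V.l + 1 → V.D ≤ UM M)) ∧
    ∀ N : ℕ, N ∣ V.l + 1 → (∀ g ∈ V.D, W.cy N g = 1) ∧ W.cy N φ = -1 ∧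
      ∀ τ ∈ V.I, km N (φ * τ * φ⁻¹) V.l = -km N τ V.l

/-- total ramification -/
def RAMI_st : Prop := ∀ (V : Plc) (T T' : Pt), V.l % 3 = 2 → (V.l : Zw) • T = 0 →
  (V.l : Zw) • T' = 0 → T ≠ 0 → T' ≠ 0 → ∃ τ ∈ V.I, gal τ T = T'

/-- the logarithm -/
def LG_st : Prop := ∀ l : ℕ, l.Prime → l % 3 = 2 → ¬ (l : Zw) ∣ gl l ∧
  (∀ u v : Zw, (l : Zw) ∣ u - v → lg l u = lg l v) ∧
  (∀ u v : Zw, ¬ (l : Zw) ∣ u → ¬ (l : Zw) ∣ v → lg l (u * v) = lg l u + lg l v) ∧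
  (∀ u : Zw, ¬ (l : Zw) ∣ u → (lg l u = 0 ↔ ∃ k : ℤ, (l : Zw) ∣ u - k) ∧
    lg l (star u) = -lg l u) ∧
  ∀ i : ℕ, lg l (gl l ^ i) = i

/-- the action on the lines -/
def AL_st : Prop := ∀ l : ℕ, l.Prime → l % 3 = 2 →
  Gen l (tl l) ∧ Adt GK (Al l) ∧ Lc GK (Al l) ∧ Anti (Al l) ∧ (∀ g ∈ UM l, Al l g = 0) ∧
  (∀ (g : GQ) (u : Zw), g ∈ GK → (∀ P : Pt, (l : Zw) • P = 0 → gal g P = u • P) →
    Al l g = lg l u) ∧
  Unr (3 * l) (Al l) ∧ (∀ V : Plc, V.l = l → ∀ a, ∃ τ ∈ V.I, Al l τ = a) ∧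
  (∀ V : Plc, V.l % 3 = 2 → V.l ≠ l → ∀ g ∈ V.D, Al l g = 0) ∧
  Function.Injective (ln l) ∧ univ.image (ln l) = lines l ∧
  (∀ g ∈ GK, ∀ i, (ln l i).map (gal g) = ln l (i + Al l g)) ∧
  (∀ b : Zw, ¬ (l : Zw) ∣ b → ∀ i,
    (ln l i).map (DistribSMul.toAddMonoidHom Pt b) = ln l (i + lg l b)) ∧
  ∀ (p n : ℕ) (V : Plc), p.Prime → 1 ≤ n → V.l = l → p ^ n ∣ l + 1 → ∀ τ ∈ V.I, Al l τ = 1 →
    IsUnit (km (p ^ n) τ l)

/-- inert primes with prescribed Frobenius elements -/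
def CHI_st : Prop :=
  (∀ (N : Subgroup GQ) (g : GQ) (B : ℕ), ON N → g ∉ GK → ∃ (V : Plc) (φ : GQ) (i j : ℕ), In V φ ∧
    B < V.l ∧ (∀ W : Plc, W.l = V.l → W.I ≤ N) ∧ (g ^ i)⁻¹ * φ ∈ N ∧ (φ ^ j)⁻¹ * g ∈ N) ∧
  ∀ (U : Subgroup GQ) (c : GQ) (B : ℕ) (A A' : Type) [AddCommGroup A] [AddCommGroup A']
    (a : GQ → A) (a' : GQ → A') (T : AddSubgroup A) (T' : AddSubgroup A'), ON U → U ≤ GK → Cj c →
    Adt U a → Lc U a → Adt U a' → Lc U a' → (∃ u ∈ U, a (c * u * c) + a u ∉ T) →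
    (∃ u ∈ U, a' (c * u * c) + a' u ∉ T') →
    ∃ (V : Plc) (φ : GQ), In V φ ∧ B < V.l ∧ c * φ ∈ U ∧ (∀ W : Plc, W.l = V.l → W.D ≤ U) ∧
      a (φ ^ 2) ∉ T ∧ a' (φ ^ 2) ∉ T'

/-- the reciprocity law at inert primes -/
def RCI_st : Prop := ∀ (R : Type) [CommRing R] (p n : ℕ) (j : ZMod (p ^ n) →+* R)
  (f : GQ → GQ → R) (Q : Finset ℕ) (V : ℕ → Plc) (φ τ : ℕ → GQ) (u : ℕ → ZMod (p ^ n))
  (b : ℕ → GQ → GQ → R), p.Prime → 1 ≤ n → Co2 (cj j) GK f →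
  (∀ l ∈ Q, (V l).l = l ∧ In (V l) (φ l) ∧ p ^ n ∣ l + 1 ∧ τ l ∈ (V l).I ∧
    u l * km (p ^ n) (τ l) l = 1 ∧ Bia (V l).D (b l) ∧
    Bo2 (cj j) (V l).D fun g h => f g h - b l g h) →
  (∀ W : Plc, W.l ∉ Q → Bo2 (cj j) W.D f) →
  8 * ∑ l ∈ Q, j (u l) * (b l (τ l) (φ l ^ 2) - b l (φ l ^ 2) (τ l)) = 0

/-- the reciprocity law for conjugate self-dual characters -/
def RCS_st : Prop := ∀ (R : Type) [CommRing R] (p n : ℕ) (j : ZMod (p ^ n) →+* R) (c : GQ)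
  (lam x y : GQ → R), p.Prime → 1 ≤ n → Cj c → Mu GK lam →
  (∀ g ∈ GK, lam (c * g * c) * lam g = cj j g) → Co lam GK x → Co lam GK y →
  (Mu GK (fun g => lam (c * g * c)) ∧ Co (fun g => lam (c * g * c)) GK (fun g => x (c * g * c)) ∧
    ∀ W : Plc, (Bo lam (W.mv c).D x ∨ Bo lam W.D y ∨ ∀ τ ∈ W.I, lam τ = 1 ∧ lam (c * τ * c) = 1 ∧
      x (c * τ * c) = 0 ∧ y τ = 0) → Bo2 (cj j) W.D (cup lam (fun g => x (c * g * c)) y)) ∧
  (∀ (Q : Finset ℕ) (V : ℕ → Plc) (φ τ : ℕ → GQ) (u : ℕ → ZMod (p ^ n)),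
    (∀ l ∈ Q, (V l).l = l ∧ In (V l) (φ l) ∧ p ^ n ∣ l + 1 ∧ τ l ∈ (V l).I ∧
      u l * km (p ^ n) (τ l) l = 1 ∧ ∀ g ∈ (V l).D, lam g = 1) →
    (∀ W : Plc, W.l ∉ Q → Bo2 (cj j) W.D (cup lam (fun g => x (c * g * c)) y)) →
    8 * ∑ l ∈ Q, j (u l) * lam (c * (φ l)⁻¹) *
      (x (τ l) * y (φ l ^ 2) + x (φ l ^ 2) * y (τ l)) = 0) ∧
  ∀ (V : Plc) (φ : GQ), In V φ → p ^ n ∣ V.l + 1 → (∀ g ∈ V.D, lam g = 1) →
    (∀ W : Plc, W.l ≠ V.l → Bo2 (cj j) W.D (cup lam (fun g => x (c * g * c)) y)) →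
    ∀ τ ∈ V.I, 8 * (x τ * y (φ ^ 2) + x (φ ^ 2) * y τ) = 0

/-- the images of points are isotropic -/
def ISK_st : Prop := ∀ (χ : GQ → ZMod 3) (N : ℕ) (G : Pt) (R : Type) [CommRing R]
  (j : ZMod N →+* R) (φ : Zw →+* R) (H : Subgroup GQ) (P Q : Pt), Mdl χ → N ≠ 0 → Gen N G →
  H ≤ GK → Fx χ H ((N : Zw) • P) → Fx χ H ((N : Zw) • Q) →
  Bo2 (cj j) H fun g h => φ (star (co G (bd χ P g))) * ic φ G (eta χ g (bd χ Q h))

/-- conjugation of the twisted action -/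
def CJ_st : Prop := ∀ c, Cj c → (∀ g, g ∈ GK ↔ c * g * c ∈ GK) ∧
  (∀ (V : Plc) (g : GQ), (g ∈ V.D ↔ c * g * c ∈ (V.mv c).D) ∧ (g ∈ V.I ↔ c * g * c ∈ (V.mv c).I)) ∧
  (∀ χ : GQ → ZMod 3, Anti χ → ∀ g ∈ GK, ∀ P : Pt,
    eta χ (c * g * c) P = gal c (eta χ g (gal c P)) ∧
    bd χ P (c * g * c) = gal c (bd χ (gal c P) g)) ∧
  (∀ (χ : GQ → ZMod 3) (r N : ℕ) (M : Zw) (R : Type) [CommRing R] (φ : Zw →+* R)
    (j : ZMod N →+* R), Tw χ r → Anti χ → M ≠ 0 → star M = M → (9 * r : Zw) ∣ M → (N : Zw) ∣ M →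
    φ M = 0 → Mu GK (lamZ φ χ M) ∧ ∀ g ∈ GK, lamZ φ χ M (c * g * c) * lamZ φ χ M g = cj j g) ∧
  ∀ (N : ℕ) (G : Pt) (g : GQ), N ≠ 0 → Gen N G → g ∉ GK → ∃ e : Zw, IsCoprime e N ∧
    ∀ T : Pt, (N : Zw) • T = 0 → (N : Zw) ∣ co G (gal g T) - e * star (co G T)

/-! ### The descent -/

/-- the derived classes -/
structure Cl (χ : GQ → ZMod 3) (q : ℕ) (S : Finset ℕ) (P : Pt) (c : GQ → Pt) : Prop where
  cz : Cz χ GK c
  tor : ∀ g ∈ GK, (q : Zw) • c g = 0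
  ku : ∀ g ∈ GK, (∀ l ∈ S, Al l g = 0) → c g = bd χ P g

/-- the ramified value of `c'` is the unramified value of `c` -/
def Fs (V : Plc) (φ : GQ) (c c' : GQ → Pt) : Prop :=
  ∃ τ ∈ V.I, ∃ u : Zw, IsUnit u ∧ c' τ = u • gal φ (c (φ ^ 2))

/-- existence of the derived classes -/
def CLS_st : Prop := ∀ (χ χ' : GQ → ZMod 3) (r B q : ℕ) (y₀ P₀ : Pt) (y₁ : AddSubgroup Pt → Pt)
  (y₂ : AddSubgroup Pt → AddSubgroup Pt → Pt) (V : Plc) (φ : GQ), Tw χ r → Tw χ' r →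
  HS χ χ' r B y₀ y₁ y₂ → 2 ≤ q → (q : Zw) • P₀ = (3 : Zw) • y₀ → In V φ → Kp r B V.l →
  q ∣ V.l + 1 →
  ∃ (P₁ : Pt) (c₁ : GQ → Pt), Cl χ' q {V.l} P₁ c₁ ∧ Fs V φ (bd χ P₀) c₁ ∧
    ∀ (V' : Plc) (φ' : GQ), In V' φ' → Kp r B V'.l → q ∣ V'.l + 1 → V.l ≠ V'.l →
      ∃ (P₂ : Pt) (c₂ : GQ → Pt), Cl χ q {V.l, V'.l} P₂ c₂ ∧ Fs V' φ' c₁ c₂

/-- the point is not too divisible -/
def Nd (χ : GQ → ZMod 3) (y : Pt) : Prop :=
  ∃ b : Zw, b ≠ 0 ∧ ∀ (a d : Zw) (z : Pt), Fx χ GK z → d • z = a • y → d ∣ a * b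

/-- the bound for the exponent at the primes other than three -/
def KOY_st : Prop := ∀ (χ χ' : GQ → ZMod 3) (r B : ℕ) (y₀ : Pt) (y₁ : AddSubgroup Pt → Pt)
  (y₂ : AddSubgroup Pt → AddSubgroup Pt → Pt), Tw χ r → Tw χ' r → Anti χ → Mdl χ →
  HS χ χ' r B y₀ y₁ y₂ → Nd χ y₀ → ∃ N : ℕ, N ≠ 0 ∧ ∀ (p k : ℕ) (x : GQ → Pt), p.Prime → p ≠ 3 →
    SelK χ x → (∀ g ∈ GK, p ^ k • x g = 0) → Bz χ GK fun g => N • x g

/-- the theorem of this part -/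
def FINY_st : Prop := ∀ (D : ℕ) (χ χ' : GQ → ZMod 3) (r B : ℕ) (y₀ : Pt)
  (y₁ : AddSubgroup Pt → Pt) (y₂ : AddSubgroup Pt → AddSubgroup Pt → Pt), D ≠ 0 → S.Gen D →
  Cork3 (EK (-432 * D ^ 2)) → (∀ g ∈ GK, χ g = 2 * kum D g) → Tw χ r → Tw χ' r →
  HS χ χ' r B y₀ y₁ y₂ → (∀ n : ℕ, n ≠ 0 → n • y₀ ≠ 0) →
  Module.finrank ℤ (EK (-432 * D ^ 2)).toAffine.Point = 1 ∧ Finite (Sha (EK (-432 * D ^ 2)))

end Pool.Agent.MP_e23604_nt.Y

end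

section

/-!
Local facts at three, cubic characters on lines, and the interfaces between the parts.
-/

set_option autoImplicit false

open Finset QuadraticAlgebra Filter Topology
open scoped Classical

namespace Pool.Agent.MP_e23604_nt.X

open B R S W

/-- the cubic character of the twist by `D` -/
noncomputable def ch (D : ℕ) (g : GQ) : ZMod 3 := 2 * kum D g

/-- the cubic Kummer character with respect to the chosen cube root of unity -/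
noncomputable def kw (x : Qb) (g : GQ) : ZMod 3 := S.lg (g (rt 3 x) / rt 3 x)

/-- the cocycles that vanish on the decomposition group at three have bounded exponent -/
def HT (χ : GQ → ZMod 3) (r : ℕ) : Prop :=
  ∃ k₀ : ℕ, ∀ (k : ℕ) (x : GQ → Pt), Cz χ GK x → Unr (3 * r) x → (∀ g ∈ V3.D, x g = 0) →
    (∀ g ∈ GK, 3 ^ k • x g = 0) → ∀ g ∈ GK, 3 ^ k₀ • x g = 0

/-- the class of `D` : remove all factors `27` and reduce modulo `27` -/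
def cls3 (D : ℕ) : ℕ := D / 27 ^ (D.factorization 3 / 3) % 27

/-! ### Cubic characters -/

/-- formal properties -/
def KW_st : Prop :=
  (∀ (H : Subgroup GQ) (x : Qb), H ≤ GK → x ≠ 0 → Fix H x → Adt H (kw x) ∧ Lc H (kw x) ∧
    (∀ s, s ^ 3 = x → ∀ g ∈ H, g s = w3 ^ (kw x g).val * s) ∧
    ((∀ g ∈ H, kw x g = 0) ↔ ∃ s, s ^ 3 = x ∧ Fix H s) ∧ (∀ g ∈ H, kw (-x) g = kw x g) ∧
    ∀ y, y ≠ 0 → Fix H y → ∀ g ∈ H, kw (x * y) g = kw x g + kw y g ∧ kw (y ^ 3) g = 0) ∧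
  (∀ r : ℚ, r ≠ 0 → (∀ g ∈ GK, kw r g = kum r g) ∧ Y.Anti (kum r)) ∧
  (∀ D : ℕ, D ≠ 0 → Y.Anti (ch D) ∧ Y.Mdl (ch D)) ∧
  (∃ e : ZMod 3, e * e = 1 ∧ ∀ g ∈ GK, ∀ x : Qb, x ≠ 0 → g x = x → km 3 g x = e * kw x g) ∧
  ∀ c, c ∉ GK → ∀ g ∈ GK, ∀ x : Qb, x ≠ 0 → Fix GK x → kw (c x) (c * g * c⁻¹) = -kw x g

/-- the Kummer character of a point for the square root of `-3` -/
def KPI_st : Prop := ∀ (χ : GQ → ZMod 3) (g : GQ) (S : Pt), g ∈ GK →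
  eta χ g (pw • S) = pw • S →
  (pw • S = T0 → eta χ g S - S = (-χ g).val • T0) ∧
  (pw • S ≠ 0 → pw • S ≠ T0 → eta χ g S - S = (χ g - kw (yc (pw • S)) g).val • T0)

/-- the Kummer character of a prime on elements that act on the lines through units -/
def FACS_st : Prop := ∀ l : ℕ, l.Prime → l ≠ 3 → ∀ g ∈ GK, ∀ (a : ℤ) (i : ℕ),
  (∀ P : Pt, (l : Zw) • P = 0 → gal g P = ((a : Zw) * ω ^ i) • P) →
  kum l g = ((l ^ 2 - 1) / 3 * i : ℕ)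

/-- the Kummer character of a prime is a ring class character -/
def FACN_st : Prop := ∀ l : ℕ, l.Prime → l ≠ 3 → ∃ f : ZMod (N.ml l) →+ ZMod 3,
  (∀ g ∈ GK, kum l g = f (N.Al l g)) ∧ f (N.lu l ω) = ((l ^ 2 - 1) / 3 : ℕ) ∧ f 1 ≠ 0

/-- logarithms and Kummer characters -/
def LGK_st : Prop := ∀ (p j : ℕ) (V : Plc) (φ : GQ) (b : Zw), p.Prime → p ≠ 2 → Y.In V φ →
  p ^ j ∣ V.l + 1 → ¬ (V.l : Zw) ∣ b →
  (km (p ^ j) (φ ^ 2) (W.io b / W.io (star b)) = 0 ↔ p ^ j ∣ (N.lu V.l b).val)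

/-! ### The place over three -/

/-- the action of the decomposition group on torsion points of order prime to three -/
def DPI_st : Prop := ∃ s : GQ → ZMod 2, Adt V3.D s ∧ Lc V3.D s ∧ (∀ τ ∈ V3.I, s τ = 0) ∧
  (∃ σ ∈ V3.D, s σ = 1) ∧ ∀ n : ℕ, ¬ 3 ∣ n → ∀ g ∈ V3.D, ∃ a : ℤ, ∀ P : Pt, (n : Zw) • P = 0 →
    gal g P = ((a : Zw) * ω ^ (kum 2 g).val * pw ^ (s g).val) • P

/-- local units -/
def UN3_st : Prop :=
  (∀ x : Qb, Fix V3.D x → V3.v x ≤ 1 → ∀ k : ℕ, ∃ a : Zw, V3.v (x - W.io a) ≤ V3.v (W.io pw) ^ k) ∧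
  (∀ x : Qb, Fix V3.D x → V3.v (x - 1) < V3.v (W.io pw) ^ 3 → ∀ g ∈ V3.D, kw x g = 0) ∧
  (∀ x : Qb, Fix V3.D x → V3.v (x - 1) ≤ V3.v (W.io pw) ^ 3 → ∃ a : ZMod 3,
    (V3.v (x - 1) = V3.v (W.io pw) ^ 3 → a ≠ 0) ∧ ∀ g ∈ V3.D, kw x g = a * kw (W.io (1 + 3 * pw)) g) ∧
  (∀ x : Qb, Fix V3.D x → V3.v (x - 1) ≤ V3.v 3 → ∃ a b : ZMod 3,
    ∀ g ∈ V3.D, kw x g = a * kum 2 g + b * kw (W.io (1 + 3 * pw)) g) ∧
  ∀ m : ℕ, ¬ 3 ∣ m → ∀ g ∈ V3.D, kum m g = ((m ^ 2 - 1) / 3 : ℕ) * kum 2 g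

/-- four independent characters -/
def IND_st : Prop := ∀ a b c d : ZMod 3, (∀ g ∈ V3.D,
  a * kw w3 g + b * kum 3 g + c * kum 2 g + d * kw (W.io (1 + 3 * pw)) g = 0) →
  a = 0 ∧ b = 0 ∧ c = 0 ∧ d = 0

/-- the local points: `T0` and `P₀` generate, and `κ` is the character of `P₀` -/
def Lk (χ κ : GQ → ZMod 3) : Prop := ∃ P₀ : Pt, Fx χ V3.D P₀ ∧
  (∀ S : Pt, pw • S = P₀ → ∀ g ∈ V3.D, eta χ g S - S = (κ g).val • T0) ∧
  ∀ P, Fx χ V3.D P → ∃ (a b : Zw) (P' : Pt), Fx χ V3.D P' ∧ P = a • T0 + b • P₀ + pw • P'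

/-! ### Selmer classes of large order -/

/-- unbounded Selmer groups -/
def NHB_st : Prop := ∀ D : ℕ, D ≠ 0 → S.Gen D →
  (∀ k : ℕ, 3 ^ k ≤ S.Cn (EK (-432 * D ^ 2)) k) → ¬ HB (ch D) (rad3 D)

/-- classes whose restrictions have large order -/
def XI_st : Prop := ∀ (χ : GQ → ZMod 3) (r : ℕ), Tw χ r → ¬ HB χ r → ∀ (n : ℕ) (M : Zw), M ≠ 0 →
  (9 * r : Zw) ∣ M → 3 ^ (n + 2) ∣ M → ∃ x, SelU χ r x ∧ (∀ g ∈ GK, 3 ^ (n + 2) • x g = 0) ∧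
    ∃ u ∈ UM M, 3 ^ n • x u ≠ 0

/-! ### Interfaces -/

/-- a system of points with a point of infinite order at the bottom -/
def Heeg (D : ℕ) : Prop := ∃ (χ' : GQ → ZMod 3) (B : ℕ) (y₀ : Pt) (y₁ : AddSubgroup Pt → Pt)
  (y₂ : AddSubgroup Pt → AddSubgroup Pt → Pt), Tw χ' (rad3 D) ∧
    Y.HS (ch D) χ' (rad3 D) B y₀ y₁ y₂ ∧ ∀ n : ℕ, n ≠ 0 → n • y₀ ≠ 0

/-- additive functionals on the numbers of lines -/
abbrev Fn : Type := ∀ l : ℕ, ZMod (N.ml l) →+ ZMod 3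

/-- their sum -/
def fs (f : Fn) (n : Finset ℕ) (i : N.JJ) : ZMod 3 := ∑ l ∈ n, f l (i l)

/-- the twisted trace -/
noncomputable def yT (H : N.HS) (n : Finset ℕ) (f : Fn) (C : AddSubgroup Pt) : Pt :=
  ∑ i : N.Jg n, (ω : Zw) ^ (fs f n i.1).val • H.y (N.Cn n i.1 ⊔ C)

/-- the twisted traces form a system -/
def YHS_st : Prop := ∀ (H : N.HS) (r : ℕ) (f : Fn) (χ χ' : GQ → ZMod 3), Squarefree r → ¬ 3 ∣ r →
  (∀ g ∈ GK, χ g = H.χ r g + fs f r.primeFactors (N.Av g)) →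
  (∀ g ∈ GK, χ' g = H.χ (-r) g - fs f r.primeFactors (N.Av g)) →
  Y.HS χ χ' r r (yT H r.primeFactors f ⊥) (yT H r.primeFactors (-f))
    fun L L' => yT H r.primeFactors f (L ⊔ L')

/-- what is known about a pair of twists -/
structure Pair (χ χ' : GQ → ZMod 3) (r : ℕ) : Prop where
  tw : Tw χ r
  tw' : Tw χ' r
  an : Y.Anti χ
  an' : Y.Anti χ'
  md : Y.Mdl χ
  md' : Y.Mdl χ'
  ht : HT χ r
  ht' : HT χ' r
  nb : ¬ HB χ r
  hb : HB χ' r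
  ne : r ≠ 1

/-- the point of the first system has infinite order -/
def ENDN_st : Prop := ∀ (H : N.HS) (r : ℕ) (f : Fn) (χ χ' : GQ → ZMod 3), H.N1 → Pair χ χ' r →
  (∀ g ∈ GK, χ g = H.χ r g + fs f r.primeFactors (N.Av g)) →
  (∀ g ∈ GK, χ' g = H.χ (-r) g - fs f r.primeFactors (N.Av g)) →
  fs f r.primeFactors (N.Lu ω) + H.j r = 0 →
  ∀ n : ℕ, n ≠ 0 → n • yT H r.primeFactors f ⊥ ≠ 0

/-- the first systems exist -/
def HSN_st : Prop := ∀ e : ZMod 3, e ≠ 0 → ∃ H : N.HS, H.N1 ∧ H.j 1 = e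

/-- the classes that the first system covers -/
def SN : Finset ℕ := {2, 4, 5, 6, 7, 11, 12, 13, 14, 15, 16, 20, 21, 22, 23, 25}

end Pool.Agent.MP_e23604_nt.X

end

section

/-!
The ring class characters, their ramification, and Frobenius elements at inert primes.
-/

set_option autoImplicit false

open Finset QuadraticAlgebra
open scoped Classical

namespace Pool.Agent.MP_e23604_nt.N

open B R S W

/-- the kernel of an additive function -/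
def ker_AL {A : Type} [AddCommGroup A] {a : GQ → A} (h : Adt GK a) : Subgroup GQ where
  carrier := {g | g ∈ GK ∧ a g = 0}
  one_mem' := ⟨GK.one_mem, by simpa using h 1 GK.one_mem 1 GK.one_mem⟩
  mul_mem' {g k} hg hk := ⟨GK.mul_mem hg.1 hk.1, by rw [h g hg.1 k hk.1, hg.2, hk.2, add_zero]⟩
  inv_mem' {g} hg := ⟨GK.inv_mem hg.1, by
    have h1 : a 1 = 0 := by simpa using h 1 GK.one_mem 1 GK.one_mem
    have h2 := h g hg.1 _ (GK.inv_mem hg.1)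
    rwa [mul_inv_cancel, h1, hg.2, zero_add, eq_comm] at h2⟩

theorem int_AL {ϖ : Zw} (h : IsCoprime ϖ (star ϖ)) (w : Zw) : ∃ k : ℤ, star ϖ ∣ k - w := by
  obtain ⟨a, b, e⟩ := h
  have h1 : ∀ z : Zw, ((2 * z.re - z.im : ℤ) : Zw) = z + star z := fun z => by
    ext
    · simp
      ring
    · simp
  refine ⟨2 * (a * ϖ * w).re - (a * ϖ * w).im, star a * star w - b * w, ?_⟩
  rw [h1, star_mul', star_mul']
  linear_combination w * e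

theorem one_AL {l : ℕ} (hl : l.Prime) {Q : Pt} (h : W.Gen l Q) : Q ≠ 0 := fun e => by
  have := nn_dvd ((h 1).1 (by rw [e, smul_zero]))
  rw [nn_nat, nn_one, Nat.dvd_one, Nat.pow_eq_one] at this
  have := hl.two_le
  omega

theorem AL_pf (hK : KIT_st) (hLU : LU_st) : AL_st := by
  intro l hl h3
  obtain ⟨-, U1, U2, U3, -⟩ := hLU l hl h3
  have K := hK l hl h3
  have h0 : (l : Zw) ≠ 0 := Nat.cast_ne_zero.2 hl.ne_zero
  obtain ⟨PS, PO⟩ := PS_ok l h0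
  have op := (PO (by simp)).2
  have cop := fun g hg => (PS g hg).2.1
  have act : ∀ g ∈ GK, ∀ u : Zw, (∀ P : Pt, (l : Zw) • P = 0 → gal g P = u • P) →
      Al l g = lu l u := fun g hg u h => U2 _ _ (cop g hg) (((PS g hg).2.2.2.2.1 u).1 h)
  have int : ∀ g ∈ GK, ∀ k : ℤ, (∀ P : Pt, (l : Zw) • P = 0 → gal g P = (k : Zw) • P) →
      Al l g = 0 := fun g hg k h => (U3 _ (cop g hg)).2 ⟨k, ((PS g hg).2.2.2.2.1 k).1 h⟩
  have ad : Adt GK (Al l) := fun g hg h hh =>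
    (U2 _ _ (cop _ (GK.mul_mem hg hh)) ((PS g hg).2.2.2.2.2.1 h hh)).trans
      (U1 _ _ (cop g hg) (cop h hh))
  have um : ∀ g ∈ UM l, Al l g = 0 := fun g hg =>
    int g hg.1 1 fun P hP => by rw [hg.2 P hP, Int.cast_one, one_smul]
  have st : ∀ c, c ∉ GK → ∀ P : Pt, (l : Zw) • P = 0 → (l : Zw) • gal c P = 0 := fun c hc P hP => by
    rw [← star_natCast l, ← gal_star hc, hP, map_zero]
  refine ⟨ad, lc_of_open op fun g hg u hu _ => by rw [ad g hg u hu.1, um u hu, add_zero], um,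
    fun g hg => ⟨fun i => ?_, act g hg, fun c hc => ?_⟩, fun c hc => ?_, fun V hne hV3 => ?_,
    fun i M hM hc => ?_⟩
  · obtain ⟨T, hT, e⟩ := K.gen i
    rw [Al, ← K.act _ (cop g hg), e, ga, sm, AddMonoidHom.map_zmultiples,
      AddMonoidHom.map_zmultiples, (PS g hg).1 T hT.zero]
    rfl
  · rw [act _ (GK_on.1.conj_mem g hg c) (star (ps l g)) fun P hP => ?_]
    · exact K.bar _ (cop g hg)
    rw [W.gal_mul, W.gal_mul, (PS g hg).1 _ (st _ (by rwa [GK.inv_mem_iff]) P hP), gal_star hc,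
      ← W.gal_mul, mul_inv_cancel, W.gal_one]
  · obtain ⟨⟨Q, hQ⟩, cy, -⟩ := CYG_ok l h0
    obtain ⟨e, he⟩ := cy Q hQ _ (st c hc Q hQ.zero)
    refine int _ (GK_mul hc hc) (nn e) fun P hP => ?_
    obtain ⟨b, rfl⟩ := cy Q hQ P hP
    rw [W.gal_mul, gal_star hc, gal_star hc, star_star, he, gal_star hc, he, Int.cast_natCast,
      ← mul_star_nn, smul_comm _ b, mul_comm, mul_smul]
  · have n1 : ¬ Ov V l := fun h =>
      hne ((Nat.prime_dvd_prime_iff_eq V.hl.out hl).1 ((PLK_ok.2.2.2.1 V l).1 h))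
    have n3 : ¬ Ov V 3 := fun h =>
      hV3 ((Nat.prime_dvd_prime_iff_eq V.hl.out Nat.prime_three).1 ((PLK_ok.2.2.2.1 V 3).1 h))
    have ine : ∀ τ ∈ V.I, Al l τ = 0 := fun τ hτ => um τ ((INE_ok V n3 τ hτ).2.2 l n1)
    refine ⟨ine, fun ϖ σ pp ov fk => act σ (V.D_le fk.1) ϖ fun P hP =>
      ((FRB_ok V ϖ pp ov).2 σ fk).2 l P n1 hP, fun hV g hg => ?_⟩
    have pp : PP (-V.l) := ⟨(inert_prime V.hl.out hV).neg, -((V.l / 3 : ℕ) + 1), by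
      have : ((3 * (V.l / 3) + 2 : ℕ) : Zw) = V.l := congrArg Nat.cast (by omega)
      push_cast at this
      linear_combination this⟩
    have ov : Ov V (-V.l) := (Ov_l V).dvd (dvd_neg.2 dvd_rfl)
    obtain ⟨⟨σ, fk⟩, -, -, F⟩ := FRK_ok V _ pp.1 ov
    exact ((F σ fk).2.2.2.2.1 (ker_AL ad)
      (Subgroup.isOpen_mono (H₁ := UM l) (fun u hu => ⟨hu.1, um u hu⟩) op)
      ⟨V.D_le fk.1, int σ (V.D_le fk.1) (-V.l) fun P hP => by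
        simpa using ((FRB_ok V _ pp ov).2 σ fk).2 l P n1 hP⟩
      (fun τ hτ => ⟨hτ.2, ine τ hτ⟩) hg).2
  · obtain ⟨u, hu, rfl⟩ := K.sur i
    have c3 : IsCoprime (3 : Zw) l := by
      simpa using (Nat.isCoprime_iff_coprime.2 ((Nat.coprime_primes Nat.prime_three hl).2
        h3.symm)).map (Int.castRingHom Zw)
    obtain ⟨a, b, e⟩ := c3.mul_left hc
    have e1 : 3 * M ∣ u * a * (3 * M) + b * l - 1 := ⟨u * a - a, by linear_combination e⟩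
    have e2 : (l : Zw) ∣ u * a * (3 * M) + b * l - u := ⟨b - u * b, by linear_combination u * e⟩
    obtain ⟨g, hg, h⟩ := SURJ_of PLK_ok FRK_ok (M * l) (u * a * (3 * M) + b * l) (mul_ne_zero hM h0)
      (dvd_of_mul_right_dvd e1) (IsCoprime.mul_right
        ⟨1, -3 * (u * a - a), by linear_combination e⟩ (by
          obtain ⟨x, y, e3⟩ := hu
          exact ⟨x, y - x * (b - u * b), by linear_combination e3 + x * u * e⟩))
    refine ⟨g, ⟨hg, fun P hP => ?_⟩, act g hg u fun P hP => ?_⟩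
    · rw [h P (dvd_smul hP (dvd_mul_right _ _)), smul_congr hP (dvd_of_mul_left_dvd e1), one_smul]
    · rw [h P (dvd_smul hP (dvd_mul_left _ _)), smul_congr hP e2]

theorem RAM_pf (hK : KIT_st) (hLU : LU_st) (hAL : AL_st) (hAKU : AKU_st) (hR : Y.RAMI_st)
    (hW : X.KW_st) : RAM_st := by
  intro V h3
  have hl := V.hl.out
  obtain ⟨U0, U1, -, U3, -⟩ := hLU _ hl h3
  have h0 : (V.l : Zw) ≠ 0 := Nat.cast_ne_zero.2 hl.ne_zero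
  obtain ⟨⟨Q, hQ⟩, cy, -⟩ := CYG_ok _ h0
  have act : ∀ g ∈ GK, ∀ u : Zw, gal g Q = u • Q → Al V.l g = lu V.l u := fun g hg u e =>
    ((hAL _ hl h3).2.2.2.1 g hg).2.1 u fun P hP => by
      obtain ⟨b, rfl⟩ := cy Q hQ P hP
      rw [gal_smul hg, e, smul_comm]
  obtain ⟨u, hu, e⟩ := (hK _ hl h3).sur 1
  obtain ⟨τ, hτ, h1⟩ : ∃ τ ∈ V.I, Al V.l τ = 1 := by
    obtain ⟨ϖ, pr, ov, -, pp⟩ := PLK_ok.1 V
    obtain ⟨k1, -, ⟨-, k2, -⟩ | ⟨k2, -⟩ | ⟨k2, -⟩, -⟩ := PLK_ok.2.2.1 V ϖ pr ov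
    · have ns := star_HPLc hl h3 pr k2
      have co : IsCoprime ϖ (star ϖ) := pr.coprime_iff_not_dvd.2 ns
      have fa : ϖ * star ϖ = V.l := by rw [mul_star_nn, k2]
      obtain ⟨w, y, hw⟩ := hu
      obtain ⟨k, z, hk⟩ := int_AL co w
      have c1 : star ϖ ∣ k * u - 1 :=
        ⟨z * u - y * ϖ, by linear_combination u * hk + hw + y * fa⟩
      have c2 : IsCoprime (k : Zw) (star ϖ) := by
        obtain ⟨x, hx⟩ := c1
        exact ⟨u, -x, by linear_combination hx⟩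
      have c3 : IsCoprime (k : Zw) V.l := by
        rw [← fa]
        exact IsCoprime.mul_right (by simpa [starRingEnd_apply] using c2.map (starRingEnd Zw)) c2
      have c4 := c3.mul_left ⟨w, y, hw⟩
      have t1 : ϖ • star ϖ • Q = 0 := by rw [← mul_smul, fa, hQ.zero]
      have t2 : star ϖ • ϖ • Q = 0 := by rw [smul_comm, t1]
      have t3 : ∀ T : Pt, W.Gen V.l T → star ϖ • T ≠ 0 := fun T hT h =>
        ns ((Dvd.intro _ fa).trans ((hT _).1 h))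
      obtain ⟨τ, hτ, h1⟩ := RAMQ_of PLK_ok V ϖ (star ϖ • Q) (star ϖ • (k * u) • Q) (pp h3)
        (k2 ▸ hl) ov t1 (by rw [smul_comm (star ϖ), smul_comm ϖ, t1, smul_zero]) (t3 Q hQ)
        (t3 _ (hQ.cop c4))
      have n3 : ¬ Ov V 3 := fun h =>
        h3 ((Nat.prime_dvd_prime_iff_eq hl Nat.prime_three).1 ((PLK_ok.2.2.2.1 V 3).1 h))
      have h2 := (INE_ok V n3 τ hτ).2.1 _ _ (fun h => ns ((k1 _).1 h)) t2
      refine ⟨τ, hτ, (act τ hτ.2 (k * u) ?_).trans ?_⟩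
      · obtain ⟨a, b, e1⟩ := co
        have h4 := smul_congr t2 c1
        rw [one_smul] at h4
        have h5 : ∀ T : Pt, T = a • ϖ • T + b • star ϖ • T := fun T => by
          rw [← mul_smul, ← mul_smul, ← add_smul, e1, one_smul]
        rw [h5 ((k * u) • Q), smul_comm ϖ, h4, ← h1]
        conv_lhs => rw [h5 Q, map_add, gal_smul hτ.2, gal_smul hτ.2 b, h2]
      · rw [U1 _ _ c3 ⟨w, y, hw⟩, e, (U3 _ c3).2 ⟨k, by simp⟩, zero_add]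
    · obtain ⟨τ, hτ, h1⟩ := hR V Q (u • Q) k2 hQ.zero (hQ.cop hu).zero (one_AL hl hQ)
        (one_AL hl (hQ.cop hu))
      exact ⟨τ, hτ, (act τ hτ.2 u h1).trans e⟩
    · exact absurd k2 h3
  obtain ⟨κ, k0, k1, -⟩ := hAKU _ hl h3
  obtain ⟨ε, e1, e2⟩ := hW.2.2.2.1
  have e3 := (hW.2.1 (V.l : ℚ) (Nat.cast_ne_zero.2 hl.ne_zero)).1 τ hτ.2
  have : Fact (1 < ml V.l) :=
    ⟨lt_of_lt_of_le (by norm_num) (Nat.le_of_dvd (NeZero.pos (ml V.l)) U0)⟩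
  rw [Rat.cast_natCast] at e3
  refine ⟨τ, hτ, h1, ?_⟩
  rw [e2 τ hτ.2 _ (Nat.cast_ne_zero.2 hl.ne_zero) (map_natCast τ _), e3, k1 τ hτ.2, h1,
    ZMod.val_one, Nat.cast_one, mul_one]
  exact fun h => k0 (by linear_combination ε * h - κ * e1)

theorem FRI_pf (hI : Y.INF_st) : FRI_st := by
  intro V hV
  obtain ⟨φ, hφ⟩ := hI.2.1 V hV
  obtain ⟨a1, a2, a3, -⟩ := hI.2.2 V φ hφ
  refine ⟨a1, a2, a3, ⟨φ, hφ.fr⟩, fun f hf => ?_⟩
  obtain ⟨-, -, -, b1, b2, -, -, -, -, b3, -⟩ := hI.2.2 V f ⟨hV, hf⟩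
  rw [sq] at b2 b3
  exact ⟨b1, b2, fun P hP => (E1_dec hf.1).2 hP, b3, fun M P hM e h => E1_tor h hM e⟩

end Pool.Agent.MP_e23604_nt.N

end

section

/-!
A third family of Heegner points on `y ^ 2 + y = x ^ 3`: definitions and statements.
-/

set_option autoImplicit false

open Finset QuadraticAlgebra
open scoped Classical

namespace Pool.Agent.MP_e23604_nt.M

open B R S W Un

/-- the product of the differences of second coordinates -/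
noncomputable def gy (C : AddSubgroup Pt) (z : Qb) : Qb := ∏ T ∈ (els C).erase 0, (yc T - z)

/-- a cyclotomic unit attached to a point of order nine -/
noncomputable def vv (P : Pt) : Qb := (yc P ^ 2 + yc P + 1) / (3 * (yc P ^ 2 + yc P))

/-- the difference of two conjugates -/
noncomputable def dd (n : ℕ) (P : Pt) : Qb := vv ((7 * n ^ 2) • P) - vv ((n ^ 2) • P)

/-- the elliptic units -/
noncomputable def mE (C : AddSubgroup Pt) (P : Pt) : Qb :=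
  dd (cd C) P * vv P ^ (2 * cd C) * gy C (yc P) * gy (mC pw C) (yc P)

/-- a cube root of the negative of their product -/
noncomputable def mD (C : AddSubgroup Pt) : Qb :=
  (-cbr 3) ^ (cd C + 1) * gy C w3 * gy (mC pw C) w3

/-- the point attached to three numbers with sum zero -/
noncomputable def tq (a c d : Qb) : Pt := pt 0 1 (d / c) (a / c)

/-- the Heegner point -/
noncomputable def mq (P : Pt) (C : AddSubgroup Pt) : Pt := tq (mE C P) (mE C (7 • P)) (mD C)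

/-- generators of the points killed by the cube of `pw` -/
def G9 (P : Pt) : Prop := Gen (3 * pw) P

/-- three numbers with sum zero and a cube root of the negative of their product -/
structure Z3 (a b c d : Qb) : Prop where
  ne : d ≠ 0
  pr : a * b * c = -d ^ 3
  sm : a + b + c = 0

/-- the points of order nine -/
def VV_st : Prop := (∃ P, G9 P) ∧ ∀ P, G9 P →
  (∀ u : Zw, ¬ pw ∣ u → G9 (u • P) ∧ ∃ i : ℕ, vv (u • P) = vv (4 ^ i • P)) ∧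
  (∀ n : ℕ, ¬ 3 ∣ n → G9 (n • P)) ∧ (9 • P = 0) ∧ (3 • P = T0 ∨ 3 • P = -T0) ∧
  vv (-P) = vv P ∧ vv ((ω : Zw) • P) = vv P ∧ xc P ≠ 0 ∧ xc P ^ 3 + 1 ≠ 0 ∧
  vv P ^ 3 - 3 * vv P + 1 = 0 ∧ vv P * vv (4 • P) * vv (7 • P) = -1 ∧
  vv P + vv (4 • P) + vv (7 • P) = 0 ∧ vv (4 • P) = vv P ^ 2 - 2 ∧
  (yc P * vv P = vv (4 • P) ∨ yc P * vv P = vv (7 • P)) ∧
  (∀ n : ℕ, ¬ 3 ∣ n → dd n P * dd n (4 • P) * dd n (7 • P) = -9 ∧
    dd n P + dd n (4 • P) + dd n (7 • P) = 0) ∧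
  (yc (pw • P) = w3 ∨ yc (pw • P) = w3 ^ 2) ∧ ∀ z : Qb,
    (z - yc P) * (z - yc (4 • P)) * (z - yc (7 • P)) =
      (z - w3 ^ 2) ^ 3 - yc (pw • P) * W.io pw ^ 3 * (z ^ 2 + z)

/-- the linear relation -/
def MON_st : Prop := ∀ (C : AddSubgroup Pt) (P : Pt), ND C → G9 P →
  mE C P + mE C (4 • P) + mE C (7 • P) = 0

/-- the product -/
def MPR_st : Prop := ∀ (C : AddSubgroup Pt) (P : Pt), ND C → G9 P →
  mD C ≠ 0 ∧ mE C P * mE C (4 • P) * mE C (7 • P) = -mD C ^ 3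

/-- formal properties of the points -/
def TQ_st : Prop := ∀ a b c d : Qb, Z3 a b c d → On 0 1 (d / c) (a / c) ∧
  xc (tq a c d) = d / c ∧ yc (tq a c d) = a / c ∧ xc (tq a c d) ≠ 0 ∧ a ≠ 0 ∧ b ≠ 0 ∧ c ≠ 0 ∧
  tq a c d + T0 = tq c b d ∧ -tq a c d = tq b c d ∧
  (∀ g : GQ, gal g (tq a c d) = tq (g a) (g c) (g d)) ∧
  ∀ (u d' : Qb) (i : ℕ), u ≠ 0 → d' = w3 ^ i * u * d →
    tq (u * a) (u * c) d' = (ω : Zw) ^ i • tq a c d

/-- the Galois action and the symmetries -/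
def MGAL_st : Prop := ∀ (C : AddSubgroup Pt) (P : Pt), ND C → G9 P →
  Z3 (mE C P) (mE C (4 • P)) (mE C (7 • P)) (mD C) ∧
  mq (4 • P) C = mq P C - T0 ∧ mq (-P) C = mq P C ∧ mq ((ω : Zw) • P) C = mq P C ∧
  mq P (mC ω C) = mq P C ∧ mq P (mC pw C) = mq P C ∧
  ∀ g ∈ GK, gal g (mq P C) =
    (ω : Zw) ^ ((cd C + 1) * (kum 3 g).val) • mq (gal g P) (C.map (gal g))

/-- the congruence relation at an inert prime -/
def MCONG_st : Prop := ∀ (P : Pt) (V : Plc) (f : GQ), G9 P → V.l % 3 = 2 → Frob V.l V.γ f →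
  ∀ ε : ZMod 3, ∃ u : Zw, IsUnit u ∧ ∀ C : AddSubgroup Pt, ND C → (cd C : ZMod 3) = ε →
    ¬ V.l ∣ cd C → ∀ S : Pt, Gen V.l S →
      E1 V.v (mq P (C ⊔ AddSubgroup.zmultiples S) - u • gal f (mq P C))

/-- the product over the neighbours -/
def GPR_st : Prop := ∀ (C : AddSubgroup Pt) (l : ℕ) (X : Finset Pt), ND C → l.Prime → l ≠ 3 →
  Nbs C l X → ∀ z : Qb, ∏ S ∈ X, gy (C ⊔ AddSubgroup.zmultiples S) z = gy C z ^ l * gy (qC l C) z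

/-- complex multiplication -/
def GMUL_st : Prop := ∀ (b : Zw) (C : AddSubgroup Pt) (P : Pt), Pry b → ND C → b • P ≠ 0 →
  gy (qC b C) (yc P) = gy (qC b ⊥) (yc P) ^ cd C * W.io b ^ (3 * (cd C - 1)) * gy C (yc (b • P)) ∧
  ∃ s : Qb, gy (qC b ⊥) (yc P) = s ^ 3 ∧ ∀ g ∈ GK, gal g P = P → g s = s

/-- the Kummer characters of the second coordinates -/
def MKW_st : Prop := ∀ (P : Pt) (h : GQ), G9 P → h ∈ UM 9 →
  (∀ (b : Zw) (C : AddSubgroup Pt), Pry b → ND C → C.map (gal h) = C →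
    km 3 h (yc (mq P (qC b C))) = km 3 h (yc (mq P C))) ∧
  ∀ (C : AddSubgroup Pt) (l : ℕ) (X : Finset Pt), ND C → l.Prime → l % 3 = 1 → Nbs C l X →
    C.map (gal h) = C →
    (∀ S ∈ X, (C ⊔ AddSubgroup.zmultiples S).map (gal h) = C ⊔ AddSubgroup.zmultiples S) →
    ∑ S ∈ X, km 3 h (yc (mq P (C ⊔ AddSubgroup.zmultiples S))) = 2 * km 3 h (yc (mq P C))

/-- the Hecke relation at an inert prime -/
def MTL_st : Prop := ∀ (P : Pt) (C : AddSubgroup Pt) (l : ℕ) (X : Finset Pt), G9 P → ND C →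
  l.Prime → l % 3 = 2 → ¬ l ∣ cd C → Nbs C l X →
    pw • ∑ S ∈ X, mq P (C ⊔ AddSubgroup.zmultiples S) = 0

end Pool.Agent.MP_e23604_nt.M

end
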