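import Pool.Agent.Mg.Fe23604m.G6a03de
import Pool.Agent.Mg.Fe23604m.Gf509f6
import Pool.Agent.Mg.Fe23604m.G26a658
import Pool.Agent.Mg.Fe23604m.Gad4bd4
import Pool.Agent.Mg.Fe23604m.G160902

set_option linter.all false

section

/-!
The Hecke relation for the third family: lattice functions, families and statements.
-/

set_option autoImplicit false

open Filter Topology Asymptotics Finset QuadraticAlgebra
open scoped MatrixGroups Classical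

namespace Pool.Agent.MP_e23604_nt.M

open B R S W Un

/-- the line through `p` and `q` -/
noncomputable def ln (L : PeriodPair) (p q z : ℂ) : ℂ :=
  (wq L z - wq L p) / 2 - (wq L q - wq L p) / (2 * (wp L q - wp L p)) * (wp L z - wp L p)

/-- `p`, `q`, `-p - q` are different from zero and from each other -/
structure Tri (L : PeriodPair) (p q : ℂ) : Prop where
  p0 : p ∉ L.lattice
  q0 : q ∉ L.lattice
  ad : p + q ∉ L.lattice
  sb : p - q ∉ L.lattice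
  h1 : 2 * p + q ∉ L.lattice
  h2 : p + 2 * q ∉ L.lattice

/-- `z` is one of the three points -/
def Eq3 (L : PeriodPair) (p q z : ℂ) : Prop :=
  z - p ∈ L.lattice ∨ z - q ∈ L.lattice ∨ z + p + q ∈ L.lattice

/-- two points of order nine with the same triple -/
def Cf (L : PeriodPair) (p q : ℂ) : Prop := Two L (3 * p) (p - q)

/-- the translated lines -/
noncomputable def li (L : PeriodPair) (p q : ℂ) (i : ℕ) : ℂ → ℂ :=
  ln L (p + i * (3 * p)) (q + i * (3 * p))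

/-- the parameter of the line -/
noncomputable def rr (L : PeriodPair) (p q : ℂ) : ℂ := ln L p q (-(3 * p)) / wq L (3 * p)

/-- three numbers with sum zero -/
def be (r : ℂ) : Fin 3 → ℂ := ![1, r, -1 - r]

/-- the cubic that vanishes at three of the cusps -/
def cu (r : ℂ) : ℂ := r ^ 3 + 3 * r ^ 2 - 1

/-- the lattice generated by `L` and `t` -/
noncomputable def Mq (L : PeriodPair) (t : ℂ) : PeriodPair :=
  if h : ∃ M, Rep L M {0, t, -t} then h.choose else L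

/-- the product over the multiples of `s` -/
noncomputable def NS (l : ℕ) (s : ℂ) (f : ℂ → ℂ) : ℂ := ∏ k ∈ Ico 1 l, f (k * s)

/-- `pw` times the first point -/
def pu (x y : ℂ) : ℂ := x + 2 * y

/-- `pw` times the second point -/
def qu (x y : ℂ) : ℂ := -2 * x - y

/-- a basis of the points of order nine -/
def B9 (L : PeriodPair) (x y : ℂ) : Prop := Two L (3 * x) (3 * y)

/-- the isogenous lattice -/
noncomputable def MM (L : PeriodPair) (x y : ℂ) : PeriodPair := Mq L (3 * pu x y)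

/-- the parameter on `L` -/
noncomputable def rA (L : PeriodPair) (x y : ℂ) : ℂ := rr L (pu x y) (qu x y)

/-- the parameter on the isogenous lattice -/
noncomputable def rB (L : PeriodPair) (x y : ℂ) : ℂ := rr (MM L x y) x y

/-- the product of the six units -/
noncomputable def oP (L : PeriodPair) (x y : ℂ) : ℂ :=
  rA L x y * (rA L x y + 1) * (rB L x y * (rB L x y + 1))

/-- the first factor for a neighbour -/
noncomputable def bA (L : PeriodPair) (x y : ℂ) (l : ℕ) (s : ℂ) (i : Fin 3) : ℂ :=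
  be (rA L x y) i ^ l * NS l s (li L (pu x y) (qu x y) i)

/-- the second factor for a neighbour -/
noncomputable def bB (L : PeriodPair) (x y : ℂ) (l : ℕ) (s : ℂ) (i : Fin 3) : ℂ :=
  be (rB L x y) i ^ l * NS l s (li (MM L x y) x y i)

/-- the factor for the first coordinate -/
noncomputable def nD (L : PeriodPair) (x y : ℂ) (l : ℕ) (s : ℂ) : ℂ :=
  NS l s (ln L (-3 * x) (-3 * y)) * NS l s (ln (MM L x y) (pu x y) (qu x y))

/-- the second coordinate of a neighbour, up to a constant -/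
noncomputable def oY (L : PeriodPair) (x y : ℂ) (l : ℕ) (s : ℂ) : ℂ :=
  bA L x y l s 0 * bB L x y l s 0 / (bA L x y l s 2 * bB L x y l s 2)

/-- the rational factor of the first coordinate of a neighbour -/
noncomputable def oR (L : PeriodPair) (x y : ℂ) (l : ℕ) (s : ℂ) : ℂ :=
  nD L x y l s / (bA L x y l s 2 * bB L x y l s 2)

/-- the same lines -/
structure Cg (L : PeriodPair) (x y x' y' : ℂ) : Prop where
  hp : Eq3 L (pu x y) (qu x y) (pu x' y')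
  hq : Eq3 L (pu x y) (qu x y) (qu x' y')
  hx : Eq3 (MM L x y) x y x'
  hy : Eq3 (MM L x y) x y y'

/-- the same values -/
structure Sm (κ : ℂ) (L L' : PeriodPair) (x y x' y' : ℂ) (l : ℕ) (s s' : ℂ) : Prop where
  a : ∀ i, bA L' x' y' l s' i = κ * bA L x y l s i
  b : ∀ i, bB L' x' y' l s' i = κ * bB L x y l s i
  d : nD L' x' y' l s' = κ ^ 2 * nD L x y l s

/-- the constants -/
structure Cs (D : Fin 3 → ℂ) : Prop where
  sm : D 0 + D 1 + D 2 = 0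
  pr : D 0 * D 1 * D 2 = -9
  cb : D 0 ^ 2 * D 1 + D 2 ^ 2 * D 0 + D 1 ^ 2 * D 2 = 0

/-- the relations at a lattice -/
structure Lv (D E : Fin 3 → ℂ) (K : ℂ) (l : ℕ) (L : PeriodPair) (x y : ℂ) : Prop where
  b9 : B9 L x y
  f0 : ∑ i, D i * (be (rA L x y) i * be (rB L x y) i) = 0
  f2 : ∀ s, Ord L l s → ∑ i, E i * (bA L x y l s i * bB L x y l s i) = 0
  f3 : ∀ s, Ord L l s →
    ∏ i, bA L x y l s i * bB L x y l s i = K * oP L x y ^ l * nD L x y l s ^ 3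

/-! ### lattice statements -/

/-- the zeros of a line -/
def LZ_st : Prop := ∀ (L : PeriodPair) (p q : ℂ), Tri L p q →
  Pole L 3 (ln L p q) (-1) ∧ (∀ z, z ∉ L.lattice → (ln L p q z = 0 ↔ Eq3 L p q z)) ∧
  ∀ p' q', Tri L p' q' → ln L p q p' = 0 → ln L p q q' = 0 → ln L p' q' = ln L p q

/-- configurations -/
def LF_st : Prop := ∀ (L : PeriodPair) (p q : ℂ), Cf L p q →
  (∀ i : ℕ, Tri L (p + i * (3 * p)) (q + i * (3 * p))) ∧ rr L p q ≠ 0 ∧ rr L p q + 1 ≠ 0 ∧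
  (∀ i : ℕ, li L p q (i + 3) = li L p q i) ∧
  (∀ (p' q' : ℂ) (k : ℕ), Cf L p' q' → li L p q k p' = 0 → li L p q k q' = 0 →
    (∀ i : ℕ, li L p' q' i = li L p q (i + k)) ∧ (k = 0 → rr L p' q' = rr L p q) ∧
      (k = 1 → rr L p' q' = -(rr L p q + 1) / rr L p q) ∧
      (k = 2 → rr L p' q' = -1 / (rr L p q + 1))) ∧
  cu (rr L p q) ^ 3 * wq L (3 * p) =
    (dA L (3 * p) ^ 3 - 27 * wq L (3 * p)) * (rr L p q * (rr L p q + 1)) ^ 3 ∧
  ∀ ζ : ℂ, ζ ^ 2 + ζ + 1 = 0 → Sc ζ L L → dA L (3 * p) = 0 →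
    (rr L p q ^ 2 + rr L p q + 1 ≠ 0 → li L p q 0 (ζ * p) = 0 ∧ li L p q 0 (ζ * q) = 0) ∧
    (rr L p q = ζ → li L p q 1 (ζ * p) = 0 ∧ li L p q 1 (ζ * q) = 0) ∧
    (rr L p q = ζ ^ 2 → li L p q 2 (ζ * p) = 0 ∧ li L p q 2 (ζ * q) = 0)

/-- transport along an isogeny -/
def LT_st : Prop := ∀ (L L' : PeriodPair) (X : Finset ℂ) (p q : ℂ), Rep L L' X →
  (Tri L' p q → (∀ z, z ∉ L'.lattice → ∏ x ∈ X, ln L p q (z + x) =
      (∏ x ∈ X with x ∉ L.lattice, ln L p q x) * ln L' p q z) ∧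
    ∀ (L'' : PeriodPair) (Y Z : Finset ℂ), Rep L' L'' Y → Rep L L'' Z → Tri L'' p q →
      ∏ x ∈ Z with x ∉ L.lattice, ln L p q x = (∏ x ∈ X with x ∉ L.lattice, ln L p q x) ^ #Y *
        ∏ y ∈ Y with y ∉ L'.lattice, ln L' p q y) ∧
  (Cop L L' → Cf L p q → Cf L' p q ∧ ∀ i : Fin 3,
    be (rr L p q) i ^ #X * ∏ x ∈ X with x ∉ L.lattice, li L p q i x =
      (∏ x ∈ X with x ∉ L.lattice, li L p q 0 x) * be (rr L' p q) i)

/-- the data attached to a basis -/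
def LB_st : Prop := ∀ (L : PeriodPair) (x y : ℂ), B9 L x y →
  Cf L (pu x y) (qu x y) ∧ Rep L (MM L x y) {0, 3 * pu x y, -(3 * pu x y)} ∧ Cf (MM L x y) x y ∧
  Tri L (-3 * x) (-3 * y) ∧ Tri (MM L x y) (pu x y) (qu x y) ∧ oP L x y ≠ 0 ∧
  cu (rA L x y) ≠ 0 ∧
  ∀ (l : ℕ) (s : ℂ), l ≠ 3 → Ord L l s → Ord (MM L x y) l s ∧ (∀ i, bA L x y l s i ≠ 0) ∧
    (∀ i, bB L x y l s i ≠ 0) ∧ nD L x y l s ≠ 0 ∧ ∑ i, bA L x y l s i = 0 ∧
    ∑ i, bB L x y l s i = 0 ∧ ∀ j : ℤ, ¬ (l : ℤ) ∣ j → Sm 1 L L x y x y l s (j * s)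

/-- scaling, congruences and the shift -/
def LS_st : Prop := ∀ (L : PeriodPair) (x y : ℂ), B9 L x y →
  (∀ (c : ℂ) (L' : PeriodPair) (x' y' : ℂ), Sc c L L' → c * x - x' ∈ L'.lattice →
    c * y - y' ∈ L'.lattice → B9 L' x' y' ∧ Sc c (MM L x y) (MM L' x' y') ∧
      rA L' x' y' = rA L x y ∧ rB L' x' y' = rB L x y ∧
      ∀ (l : ℕ) (s s' : ℂ), c * s - s' ∈ L'.lattice →
        Sm (c⁻¹ ^ (3 * (l - 1))) L L' x y x' y' l s s') ∧
  (∀ x' y' : ℂ, B9 L x' y' → Cg L x y x' y' → 3 * pu x' y' - 3 * pu x y ∈ L.lattice ∧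
    rA L x' y' = rA L x y ∧ rB L x' y' = rB L x y ∧ ∀ (l : ℕ) (s : ℂ), Sm 1 L L x y x' y' l s s) ∧
  B9 L (-2 * x) (-6 * x + 4 * y) ∧
  3 * pu (-2 * x) (-6 * x + 4 * y) - 3 * pu x y ∈ L.lattice ∧
  (∀ i : ℕ, li L (pu (-2 * x) (-6 * x + 4 * y)) (qu (-2 * x) (-6 * x + 4 * y)) i =
    li L (pu x y) (qu x y) (i + 1)) ∧
  (∀ i : ℕ, li (MM L (-2 * x) (-6 * x + 4 * y)) (-2 * x) (-6 * x + 4 * y) i =
    li (MM L x y) x y (i + 2)) ∧
  rA L (-2 * x) (-6 * x + 4 * y) = -(rA L x y + 1) / rA L x y ∧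
  rB L (-2 * x) (-6 * x + 4 * y) = -1 / (rB L x y + 1) ∧ ∀ (l : ℕ) (s : ℂ),
    (∀ i, be (rA L x y) 1 ^ l * bA L (-2 * x) (-6 * x + 4 * y) l s i = bA L x y l s (i + 1)) ∧
    (∀ i, be (rB L x y) 2 ^ l * bB L (-2 * x) (-6 * x + 4 * y) l s i = bB L x y l s (i + 2)) ∧
    nD L (-2 * x) (-6 * x + 4 * y) l s = nD L x y l s

/-- the relations are preserved -/
def LV_st : Prop := ∀ (D E : Fin 3 → ℂ) (K : ℂ) (l : ℕ) (L : PeriodPair) (x y : ℂ), Cs D → Cs E →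
  l ≠ 3 → Lv D E K l L x y →
  Lv D E K l L (-2 * x) (-6 * x + 4 * y) ∧
  (∀ (c : ℂ) (L' : PeriodPair) (x' y' : ℂ), Sc c L L' → c * x - x' ∈ L'.lattice →
    c * y - y' ∈ L'.lattice → Lv D E K l L' x' y') ∧
  D 2 - D 0 * rA L x y ≠ 0 ∧
  oP L x y * (D 2 - D 0 * rA L x y) ^ 3 = -9 * (rA L x y * (rA L x y + 1) * cu (rA L x y)) ∧
  (rA L x y ^ 2 + rA L x y + 1 = 0 → rB L x y = rA L x y ^ 2) ∧
  (rA L x y ^ 2 + rA L x y + 1 ≠ 0 → rB L x y ^ 2 + rB L x y + 1 ≠ 0) ∧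
  ∀ s, Ord L l s → E 0 / E 2 * oY L x y l s ≠ 0 ∧ E 0 / E 2 * oY L x y l s + 1 ≠ 0 ∧
    oR L x y l s ≠ 0 ∧ E 0 / E 2 * oY L x y l s * (E 0 / E 2 * oY L x y l s + 1) =
      9 * K / E 2 ^ 3 * oP L x y ^ l * oR L x y l s ^ 3

/-- hexagonal lattices -/
def LH_st : Prop := ∀ (L : PeriodPair) (x y ζ : ℂ), B9 L x y → ζ ^ 2 + ζ + 1 = 0 → Sc ζ L L →
  dA L (3 * pu x y) = 0 →
  (rA L x y ^ 2 + rA L x y + 1 ≠ 0 → rB L x y ^ 2 + rB L x y + 1 ≠ 0 →
    Cg L x y (ζ * x) (ζ * y)) ∧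
  (rA L x y = ζ → rB L x y = ζ ^ 2 → Cg L (-2 * x) (-6 * x + 4 * y) (ζ * x) (ζ * y))

/-! ### families -/

/-- level structures -/
abbrev Vv : Type := (ℤ × ℤ) × ℤ × ℤ

/-- the first point -/
noncomputable def vx (v : Vv) (τ : ℂ) : ℂ := lin v.1 τ / 9

/-- the second point -/
noncomputable def vy (v : Vv) (τ : ℂ) : ℂ := lin v.2 τ / 9

/-- the action of the modular group -/
def av (γ : SL(2, ℤ)) (v : Vv) : Vv := (Un.act γ v.1, Un.act γ v.2)

/-- the shift -/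
def sv (v : Vv) : Vv := ((-2 : ℤ) • v.1, (-6 : ℤ) • v.1 + (4 : ℤ) • v.2)

/-- a basis at every point -/
def FB (v : Vv) : Prop := ∀ τ ∈ HH, B9 (Lt τ) (vx v τ) (vy v τ)

/-- the same lines at every point -/
def FC (v v' : Vv) : Prop := ∀ τ ∈ HH, Cg (Lt τ) (vx v τ) (vy v τ) (vx v' τ) (vy v' τ)

/-- the relations at every point -/
def Gd (D E : Fin 3 → ℂ) (K : ℂ) (l : ℕ) (v : Vv) : Prop :=
  ∀ τ ∈ HH, Lv D E K l (Lt τ) (vx v τ) (vy v τ)

/-- the non-zero vectors modulo `l` -/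
noncomputable def Il (l : ℕ) : Finset (ℤ × ℤ) := (Ico (0 : ℤ) l ×ˢ Ico (0 : ℤ) l).erase 0

/-- not divisible by `l` -/
def Nz (l : ℕ) (ρ : ℤ × ℤ) : Prop := ¬ ((l : ℤ) ∣ ρ.1 ∧ (l : ℤ) ∣ ρ.2)

/-- a lattice function on the family -/
noncomputable def fm (F : PeriodPair → ℂ → ℂ → ℂ) (v : Vv) (τ : ℂ) : ℂ :=
  F (Lt τ) (vx v τ) (vy v τ)

/-- a function of a neighbour on the family -/
noncomputable def fn (F : PeriodPair → ℂ → ℂ → ℕ → ℂ → ℂ) (l : ℕ) (v : Vv) (ρ : ℤ × ℤ) (τ : ℂ) :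
    ℂ := F (Lt τ) (vx v τ) (vy v τ) l (lin ρ τ / l)

/-- the first coefficient -/
noncomputable def oa (L : PeriodPair) (x y : ℂ) : ℂ := dA L (3 * pu x y)

/-- the first factor of the discriminant -/
noncomputable def oW (L : PeriodPair) (x y : ℂ) : ℂ := wq L (3 * pu x y)

/-- the second factor of the discriminant -/
noncomputable def oV (L : PeriodPair) (x y : ℂ) : ℂ := oa L x y ^ 3 - 27 * oW L x y

/-- a term of the differential -/
noncomputable def fT (l : ℕ) (v : Vv) (ρ : ℤ × ℤ) (τ : ℂ) : ℂ :=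
  deriv (fn oY l v ρ) τ / fn oR l v ρ τ ^ 2

/-- the sum over the neighbours -/
noncomputable def fS (l : ℕ) (v : Vv) (τ : ℂ) : ℂ := ∑ ρ ∈ Il l, fT l v ρ τ

/-- the translation by `n` -/
def Tn (n : ℤ) : SL(2, ℤ) := ⟨!![1, n; 0, 1], by simp⟩

/-- sums over the non-zero vectors -/
def SU_st : Prop := ∀ (l : ℕ) (T : ℤ × ℤ → ℂ), l.Prime → (∀ ρ ∈ Il l, Nz l ρ) ∧
  ((∀ ρ ρ', Nz l ρ → (l : ℤ) ∣ ρ.1 - ρ'.1 → (l : ℤ) ∣ ρ.2 - ρ'.2 → T ρ = T ρ') →
    (∀ γ : SL(2, ℤ), ∑ ρ ∈ Il l, T (Un.act γ ρ) = ∑ ρ ∈ Il l, T ρ) ∧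
    ∀ (X : Finset Pt) (f : Pt → ℤ × ℤ), (∀ (ρ : ℤ × ℤ) (j : ℤ), Nz l ρ → ¬ (l : ℤ) ∣ j →
      T (j • ρ) = T ρ) → (∀ S ∈ X, Nz l (f S)) →
      (∀ ρ, Nz l ρ → ∃! S, S ∈ X ∧ ∃ j : ℤ, ¬ Nz l (ρ - j • f S)) →
      ∑ ρ ∈ Il l, T ρ = (l - 1) * ∑ S ∈ X, T (f S))

/-- a relation between three derivatives -/
def DE_st : Prop := ∀ (A B : Fin 3 → ℂ → ℂ) (E : Fin 3 → ℂ), Cs E →
  (∀ i, DifferentiableOn ℂ (A i) HH) → (∀ i, DifferentiableOn ℂ (B i) HH) →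
  (∀ τ ∈ HH, (∀ i, A i τ ≠ 0) ∧ (∀ i, B i τ ≠ 0) ∧ ∑ i, A i τ = 0 ∧ ∑ i, B i τ = 0 ∧
    ∑ i, E i * (A i τ * B i τ) = 0) → ∀ τ ∈ HH,
  deriv (fun σ => A 0 σ * B 0 σ / (A 2 σ * B 2 σ)) τ * (A 2 τ * B 2 τ) ^ 2 +
    deriv (fun σ => A 1 σ * B 2 σ / (A 0 σ * B 1 σ)) τ * (A 0 τ * B 1 τ) ^ 2 +
    deriv (fun σ => A 2 σ * B 1 σ / (A 1 σ * B 0 σ)) τ * (A 1 τ * B 0 τ) ^ 2 = 0

/-- orders at the cusp -/
def OR_st : Prop := ∀ (h : ℝ) (F : ℂ → ℂ), 0 < h →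
  (∀ w : ℝ, 0 < w → Mr h F → Cus w F → Mr w F) ∧
  (Mr h F → (∀ τ ∈ HH, F τ ≠ 0) → ∃ k : ℤ, F =Θ[Ii] fun τ => qq h τ ^ k) ∧
  (∀ n : ℤ, Cus h F → (fun τ => F τ ^ 3) =Θ[Ii] (fun τ => qq h τ ^ n) → 3 ∣ n) ∧
  (Mr h F → (∀ τ ∈ HH, F τ ≠ 0 ∧ F τ + 1 ≠ 0 ∧ cu (F τ) ≠ 0) →
    ((fun τ => (cu (F τ) / (F τ * (F τ + 1))) ^ 3) =Θ[Ii] (fun τ => qq h τ ^ 3) ∨
      (fun τ => (F τ * (F τ + 1) / cu (F τ)) ^ 3) =Θ[Ii] fun τ => qq h τ ^ 3) →
    ∃ k : ℤ, (fun τ => F τ * (F τ + 1) * cu (F τ)) =Θ[Ii] fun τ => qq h τ ^ (3 * k + 1)) ∧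
  ∀ (G : ℂ → ℂ) (k : ℤ), Cus h F → G =Θ[Ii] (fun τ => qq h τ ^ (3 * k + 1)) →
    Tendsto (fun τ => F τ ^ 3 / G τ) Ii (𝓝 0) →
      (fun τ => F τ ^ 3 / G τ) =O[Ii] fun τ => qq h τ ^ 2

/-- holomorphy -/
def AN_st : Prop := ∀ v : Vv, FB v → Mr 9 (fm rA v) ∧ Mr 9 (fm rB v) ∧ Mr 9 (fm oa v) ∧
  Mr 9 (fm oW v) ∧ ∀ (l : ℕ) (ρ : ℤ × ℤ), l.Prime → l ≠ 3 → Nz l ρ →
    (∀ τ ∈ HH, Ord (Lt τ) l (lin ρ τ / l)) ∧ (∀ i, Mr (9 * l : ℕ) (fn (bA · · · · · i) l v ρ)) ∧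
    (∀ i, Mr (9 * l : ℕ) (fn (bB · · · · · i) l v ρ)) ∧ Mr (9 * l : ℕ) (fn nD l v ρ) ∧
    Mr (9 * l : ℕ) (fn oY l v ρ) ∧ Mr (9 * l : ℕ) (fn oR l v ρ)

/-- from one point to all points -/
def PT_st : Prop := ∀ (v v' : Vv) (σ : ℂ), σ ∈ HH → B9 (Lt σ) (vx v σ) (vy v σ) → FB v ∧
  (Cg (Lt σ) (vx v σ) (vy v σ) (vx v' σ) (vy v' σ) → FC v v') ∧
  ∀ γ ∈ CongruenceSubgroup.Gamma 9, FC v (av γ v)

/-- the width of the cusp -/
def CW_st : Prop := ∀ v : Vv, FB v → (∀ τ ∈ HH, fm oW v τ ≠ 0 ∧ fm oV v τ ≠ 0) ∧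
  Bd (fun τ => (fm oa v τ)⁻¹) ∧ (∀ᶠ τ in Ii, fm oa v τ ≠ 0) ∧
  ∃ w : ℕ, w ≠ 0 ∧ (∀ n : ℕ, FC v (av (Tn (w * n : ℕ)) v)) ∧
    (fun τ => fm oV v τ * fm oW v τ) =Θ[Ii] (fun τ => qq w τ ^ 3) ∧
    ((fun τ => fm oV v τ / fm oW v τ) =Θ[Ii] (fun τ => qq w τ ^ 3) ∨
      (fun τ => fm oW v τ / fm oV v τ) =Θ[Ii] fun τ => qq w τ ^ 3)

/-- the transformation laws -/
def EQ_st : Prop := ∀ (v : Vv) (l : ℕ), FB v → l.Prime → l ≠ 3 →
  (∀ γ : SL(2, ℤ), FB (av γ v) ∧ ∀ τ ∈ HH, fm rA v (mob γ τ) = fm rA (av γ v) τ ∧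
    fm rB v (mob γ τ) = fm rB (av γ v) τ ∧ fm oP v (mob γ τ) = fm oP (av γ v) τ ∧
    fm oa v (mob γ τ) = (γ 1 0 * τ + γ 1 1) * fm oa (av γ v) τ ∧
    fm oW v (mob γ τ) = (γ 1 0 * τ + γ 1 1) ^ 3 * fm oW (av γ v) τ ∧
    fm oV v (mob γ τ) = (γ 1 0 * τ + γ 1 1) ^ 3 * fm oV (av γ v) τ ∧
    fS l v (mob γ τ) = (γ 1 0 * τ + γ 1 1) ^ 2 * fS l (av γ v) τ ∧ ∀ ρ, Nz l ρ →
      fn oY l v ρ (mob γ τ) = fn oY l (av γ v) (Un.act γ ρ) τ ∧
      fn oR l v ρ (mob γ τ) = fn oR l (av γ v) (Un.act γ ρ) τ) ∧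
  (∀ v', FB v' → FC v v' → ∀ τ ∈ HH, fm rA v' τ = fm rA v τ ∧ fm rB v' τ = fm rB v τ ∧
    fm oP v' τ = fm oP v τ ∧ fm oa v' τ = fm oa v τ ∧ fm oW v' τ = fm oW v τ ∧
    fm oV v' τ = fm oV v τ ∧ fS l v' τ = fS l v τ ∧
    ∀ ρ, fn oY l v' ρ τ = fn oY l v ρ τ ∧ fn oR l v' ρ τ = fn oR l v ρ τ) ∧
  ∀ ρ, Nz l ρ → ∀ τ ∈ HH, (∀ ρ', (l : ℤ) ∣ ρ.1 - ρ'.1 → (l : ℤ) ∣ ρ.2 - ρ'.2 →
    fn oY l v ρ τ = fn oY l v ρ' τ ∧ fn oR l v ρ τ = fn oR l v ρ' τ ∧ fT l v ρ τ = fT l v ρ' τ) ∧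
    ∀ j : ℤ, ¬ (l : ℤ) ∣ j → fT l v (j • ρ) τ = fT l v ρ τ

/-- the standing assumptions -/
structure St (D E : Fin 3 → ℂ) (K : ℂ) (l : ℕ) (v : Vv) : Prop where
  cD : Cs D
  cE : Cs E
  K0 : K ≠ 0
  pr : l.Prime
  l3 : l % 3 = 2
  gd : Gd D E K l v

/-- the shift and the zeros of the first coefficient -/
def HX_st : Prop := ∀ (D E : Fin 3 → ℂ) (K : ℂ) (l : ℕ) (v : Vv), St D E K l v →
  St D E K l (sv v) ∧ (∀ γ, St D E K l (av γ v)) ∧ ∀ τ ∈ HH, fm oa v τ = 0 → fS l v τ = 0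

/-- the growth at the cusp -/
def GR_st : Prop := ∀ (D E : Fin 3 → ℂ) (K : ℂ) (l : ℕ) (v : Vv), St D E K l v →
  DifferentiableOn ℂ (fS l v) HH ∧
  Bd (fun τ => fS l v τ ^ 9 / (fm oP v τ ^ (6 * l) * (fm oV v τ * fm oW v τ) ^ 2)) ∧
  ∃ w : ℕ, (∀ ρ, Nz l ρ → ∀ τ ∈ HH, fn oY l v ρ (τ + (w * l : ℕ)) = fn oY l v ρ τ ∧
    fn oR l v ρ (τ + (w * l : ℕ)) = fn oR l v ρ τ) ∧ ∀ δ : ℂ → ℂ, DifferentiableOn ℂ δ HH →
      (∀ τ ∈ HH, δ τ ^ 3 = 9 * fm oP v τ) →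
      ∃ ζ : ℂ, ζ ^ 2 + ζ + 1 = 0 ∧ ∀ τ ∈ HH, δ (τ + (w * l : ℕ)) = ζ * δ τ

/-- the differential vanishes -/
def VA_st : Prop := ∀ (D E : Fin 3 → ℂ) (K : ℂ) (l : ℕ) (v : Vv), St D E K l v →
  ∀ τ ∈ HH, fS l v τ = 0

/-! ### the link with the points -/

/-- a quotient of the logarithm -/
noncomputable def zP (P : Pt) : ℂ := lg P / iz pw

/-- the constants attached to `P` -/
noncomputable def Dc (n : ℕ) (P : Pt) : Fin 3 → ℂ :=
  ![eC (dd n P), eC (dd n (4 • P)), eC (dd n (7 • P))]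

/-- the three units -/
noncomputable def mC3 (C : AddSubgroup Pt) (P : Pt) : Fin 3 → ℂ :=
  ![eC (mE C P), eC (mE C (4 • P)), eC (mE C (7 • P))]

/-- the constants -/
def KC_st : Prop := ∀ (P : Pt) (n : ℕ), G9 P → ¬ 3 ∣ n →
  Cs (Dc n P) ∧ ∀ m : ℕ, m % 9 = 1 → Dc (m * n) P = Dc n P

/-- the units as lattice functions -/
def KL_st : Prop := ∀ (C : AddSubgroup Pt) (P : Pt) (L : PeriodPair), ND C → G9 P → LC C L →
  B9 L (zP P) (zc3 * zP P) ∧ ∃ μ : ℂ, μ ≠ 0 ∧ (∀ i, mC3 C P i = μ * (Dc (cd C) P i *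
    (be (rA L (zP P) (zc3 * zP P)) i * be (rB L (zP P) (zc3 * zP P)) i))) ∧
  ∀ (l : ℕ) (S : Pt), l.Prime → l ≠ 3 → l • S ∈ C → S ∉ C → Ord L l (lg S) ∧ ∃ ν : ℂ, ν ≠ 0 ∧
    (∀ i, mC3 (C ⊔ AddSubgroup.zmultiples S) P i = ν * (Dc (l * cd C) P i *
      (bA L (zP P) (zc3 * zP P) l (lg S) i * bB L (zP P) (zc3 * zP P) l (lg S) i))) ∧
    eC (mD (C ⊔ AddSubgroup.zmultiples S)) * (-eC (cbr 3)) ^ (l - 1) =
      ν * (eC (mD C) / μ) ^ l * nD L (zP P) (zc3 * zP P) l (lg S)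

/-- neighbours of a subgroup -/
def KN_st : Prop := ∀ (C : AddSubgroup Pt) (L : PeriodPair) (l : ℕ), ND C → LC C L → l.Prime →
  l ≠ 3 → (∀ s, Ord L l s → ∃ S : Pt, l • S ∈ C ∧ S ∉ C ∧ lg S - s ∈ L.lattice) ∧
  ∀ S : Pt, l • S ∈ C → S ∉ C → ND (C ⊔ AddSubgroup.zmultiples S) ∧
    cd (C ⊔ AddSubgroup.zmultiples S) = l * cd C ∧ Ord L l (lg S) ∧
    ∀ L' : PeriodPair, LC (C ⊔ AddSubgroup.zmultiples S) L' ↔
      ∀ z, z ∈ L'.lattice ↔ ∃ k : ℤ, z - k * lg S ∈ L.lattice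

/-- the constant in the product formula -/
noncomputable def Kl (l : ℕ) : ℂ := 9 ^ (l - 1) / (-3) ^ (l - 1)

/-- the relations hold at the lattice of a subgroup -/
def KV_st : Prop := ∀ (C : AddSubgroup Pt) (P : Pt) (L : PeriodPair) (l : ℕ), ND C → G9 P →
  LC C L → l.Prime → l ≠ 3 →
    Lv (Dc (cd C) P) (Dc (l * cd C) P) (Kl l) l L (zP P) (zc3 * zP P)

/-- the relations hold on the family -/
def KD_st : Prop := ∀ (C : AddSubgroup Pt) (P : Pt) (L : PeriodPair) (l : ℕ), ND C → G9 P →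
  LC C L → l.Prime → l ≠ 3 → ∃ (σ c : ℂ) (v : Vv), σ ∈ HH ∧ Sc c (Lt σ) L ∧
    c * vx v σ - zP P ∈ L.lattice ∧ c * vy v σ - zc3 * zP P ∈ L.lattice ∧
    Gd (Dc (cd C) P) (Dc (l * cd C) P) (Kl l) l v

end Pool.Agent.MP_e23604_nt.M

end

section

/-!
The zeros of a line.
-/

set_option autoImplicit false

open Filter Topology Asymptotics Finset QuadraticAlgebra
open scoped MatrixGroups Classical

namespace Pool.Agent.MP_e23604_nt.M

open B R S W Un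

variable {L : PeriodPair} {p q z : ℂ}

theorem ne_TLZ (T : Tri L p q) : wp L q - wp L p ≠ 0 := fun e =>
  (wp_eq T.q0 T.p0 (sub_eq_zero.1 e)).elim T.sb T.ad

theorem pole_TLZ (L : PeriodPair) (p q : ℂ) : Pole L 3 (ln L p q) (-1) :=
  (((pole_q L).lin (pole_p L).up (1 / 2) (-((wq L q - wq L p) / (2 * (wp L q - wp L p))))).lin
    (Pole.const (L := L) 1).up.up.up 1
    ((wq L q - wq L p) / (2 * (wp L q - wp L p)) * wp L p - wq L p / 2)).congr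
      (fun z => by rw [ln]; ring) (by ring)

theorem zero_TLZ (T : Tri L p q) : ln L p q p = 0 ∧ ln L p q q = 0 ∧ ln L p q (-(p + q)) = 0 := by
  have := ne_TLZ T
  refine ⟨by simp [ln], by rw [ln]; field_simp; ring, ?_⟩
  rw [ln, wp, wq, L.weierstrassP_neg, L.derivWeierstrassP_neg, ← wp, ← wq]
  field_simp
  linear_combination (add_thm T.p0 T.q0 T.ad).2

theorem cub_TLZ {a b c x y z w : ℂ} (hx : x ^ 3 + a * x ^ 2 + b * x + c = 0)
    (hy : y ^ 3 + a * y ^ 2 + b * y + c = 0) (hz : z ^ 3 + a * z ^ 2 + b * z + c = 0)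
    (hw : w ^ 3 + a * w ^ 2 + b * w + c = 0) (h1 : y - x ≠ 0) (h2 : z - x ≠ 0) (h3 : z - y ≠ 0) :
    w = x ∨ w = y ∨ w = z := by
  have e1 : y ^ 2 + x * y + x ^ 2 + a * (y + x) + b = 0 :=
    mul_left_cancel₀ h1 (by linear_combination hy - hx)
  have e2 : z ^ 2 + x * z + x ^ 2 + a * (z + x) + b = 0 :=
    mul_left_cancel₀ h2 (by linear_combination hz - hx)
  have e3 : x + y + z + a = 0 := mul_left_cancel₀ h3 (by linear_combination e2 - e1)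
  have : (w - x) * ((w - y) * (w - z)) = 0 := by
    linear_combination hw - hx - (w - x) * e1 - (w - x) * (w - y) * e3
  simpa only [mul_eq_zero, sub_eq_zero] using this

theorem LZ_pf : LZ_st := fun L p q T => by
  obtain ⟨z1, z2, z3⟩ := zero_TLZ T
  have n3 : -(p + q) ∉ L.lattice := by simpa only [neg_mem_iff] using T.ad
  refine ⟨pole_TLZ L p q, fun z hz => ⟨fun e => ?_, ?_⟩, fun p' q' T' a b => ?_⟩
  · set m := (wq L q - wq L p) / (2 * (wp L q - wp L p)) with hm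
    have k : ∀ w, w ∉ L.lattice → ln L p q w = 0 → wp L w ^ 3 + -m ^ 2 * wp L w ^ 2 +
        (-L.g₂ / 4 - m * (wq L p - 2 * m * wp L p)) * wp L w +
          (-L.g₃ / 4 - (wq L p / 2 - m * wp L p) ^ 2) = 0 := fun w hw e => by
      rw [ln, ← hm] at e
      linear_combination -wq_sq hw / 4 + (wq L w / 2 + wq L p / 2 + m * (wp L w - wp L p)) * e
    have i : ∀ w, w ∉ L.lattice → ln L p q w = 0 → wp L z = wp L w → z - w ∈ L.lattice :=
      fun w hw a b => inj hw hz b.symm (by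
        rw [ln] at a e
        rw [b] at e
        linear_combination 2 * a - 2 * e)
    rcases cub_TLZ (k _ T.p0 z1) (k _ T.q0 z2) (k _ n3 z3) (k _ hz e) (ne_TLZ T)
      (fun a => (wp_eq n3 T.p0 (sub_eq_zero.1 a)).elim
        (fun b => T.h1 (by rwa [show p - -(p + q) = 2 * p + q by ring] at b))
        fun b => T.q0 (by simpa using b))
      (fun a => (wp_eq n3 T.q0 (sub_eq_zero.1 a)).elim
        (fun b => T.h2 (by rwa [show q - -(p + q) = p + 2 * q by ring] at b))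
        fun b => T.p0 (by simpa using b)) with a | a | a
    · exact Or.inl (i _ T.p0 z1 a)
    · exact Or.inr (Or.inl (i _ T.q0 z2 a))
    · exact Or.inr (Or.inr (by simpa only [sub_neg_eq_add, add_assoc] using i _ n3 z3 a))
  · have k : ∀ w, z - w ∈ L.lattice → ln L p q z = ln L p q w := fun w a => by
      rw [← (pole_TLZ L p q).per w _ a, add_sub_cancel]
    rintro (a | a | a)
    exacts [(k _ a).trans z1, (k _ a).trans z2,
      (k _ (by simpa only [sub_neg_eq_add, add_assoc] using a)).trans z3]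
  · funext z
    have := ne_TLZ T'
    rw [ln] at a b
    rw [ln, ln, show (wq L q' - wq L p') / (2 * (wp L q' - wp L p')) =
      (wq L q - wq L p) / (2 * (wp L q - wp L p)) by
        rw [div_eq_iff (mul_ne_zero two_ne_zero this)]
        linear_combination 2 * b - 2 * a]
    linear_combination -a

end Pool.Agent.MP_e23604_nt.M

end

section

/-!
Transport of lines along an isogeny.
-/

set_option autoImplicit false

open Filter Topology Asymptotics Finset QuadraticAlgebra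
open scoped MatrixGroups Classical

namespace Pool.Agent.MP_e23604_nt.M

open B R S W Un

variable {L L' : PeriodPair} {p q z : ℂ} {X : Finset ℂ}

theorem ne_TLT (h : Tri L p q) : wp L q - wp L p ≠ 0 := fun e => by
  rcases wp_eq h.q0 h.p0 (sub_eq_zero.1 e) with a | a
  exacts [h.sb a, h.ad a]

theorem two_TLT (h : Tri L p q) {k b c : ℂ} (h1 : k / 2 * wq L p + b * wp L p + c = 0)
    (h2 : k / 2 * wq L q + b * wp L q + c = 0) (z : ℂ) :
    k / 2 * wq L z + b * wp L z + c = k * ln L p q z := by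
  have := ne_TLT h
  rw [ln]
  field_simp
  linear_combination 2 * (wp L q - wp L z) * h1 + 2 * (wp L z - wp L p) * h2

theorem zero_TLT (h : Tri L p q) : ln L p q p = 0 ∧ ln L p q q = 0 := by
  have := ne_TLT h
  refine ⟨by simp [ln], ?_⟩
  rw [ln]
  field_simp
  ring

theorem down_TLT (r : Rep L L' X) (h : Tri L' p q) : Tri L p q :=
  ⟨fun e => h.p0 (r.le e), fun e => h.q0 (r.le e), fun e => h.ad (r.le e), fun e => h.sb (r.le e),
    fun e => h.h1 (r.le e), fun e => h.h2 (r.le e)⟩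

theorem prod_TLT (hZ : LZ_st) (r : Rep L L' X) (h : Tri L' p q) (hz : z ∉ L'.lattice) :
    ∏ x ∈ X, ln L p q (z + x) = (∏ x ∈ X with x ∉ L.lattice, ln L p q x) * ln L' p q z := by
  have h0 := down_TLT r h
  have P := (hZ L p q h0).1
  obtain ⟨b, c, e⟩ := (r.pole P).three
  have e1 := e p h.p0
  have e2 := e q h.q0
  rw [r.split P.per, (zero_TLT h0).1, zero_mul] at e1
  rw [r.split P.per, (zero_TLT h0).2, zero_mul] at e2
  rw [e z hz, ← two_TLT h (b := b) (c := c) (by linear_combination -e1)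
    (by linear_combination -e2)]
  ring

theorem shift_TLT (hF : LF_st) (h : Cf L p q) (hz : z ∉ L.lattice) (h1 : z + 3 * p ∉ L.lattice)
    (h2 : z - 3 * p ∉ L.lattice) : li L p q 0 (-(3 * p) + z) * dY L (3 * p) z =
      li L p q 0 (-(3 * p)) * li L p q 1 z := by
  have T := (hF L p q h).1
  have T0 := T 0
  have T1 := T 1
  have T2 := T 2
  simp only [li, Nat.cast_zero, Nat.cast_one, zero_mul, one_mul, add_zero, Nat.cast_ofNat] at *
  set t := 3 * p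
  obtain ⟨Λ, e⟩ : ∃ Λ, ∀ w, ln L p q w = -dY L t (-w) + Λ * dX L t w + ln L p q (-t) :=
    ⟨-(wq L q - wq L p) / (2 * (wp L q - wp L p)) - dA L t / 2, fun w => by
      simp only [ln, dY, dX, wp, wq, L.weierstrassP_neg, L.derivWeierstrassP_neg]
      ring⟩
  have k : ∀ w, w ∉ L.lattice → w + t ∉ L.lattice → w - t ∉ L.lattice →
      ln L p q (w - t) * dY L t w = ln L p q (-t) / 2 * wq L w +
        (Λ * wq L t - ln L p q (-t) * dA L t / 2) * wp L w + (-wq L t ^ 2 - Λ * wq L t * wp L t +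
          ln L p q (-t) * (dA L t * wp L t - wq L t) / 2) := fun w a b c => by
    obtain ⟨m1, m2, -⟩ := trM h.P3 h.P0 a b c
    rw [e (w - t)]
    linear_combination Λ * m1 - m2 + Λ * wq L t * (dX.eq_1 L t w) + ln L p q (-t) * dY.eq_1 L t w
  have k1 := k (p + t) T1.p0 (by convert T2.p0 using 2; ring) (by simpa using T0.p0)
  have k2 := k (q + t) T1.q0 (by convert T2.q0 using 2; ring) (by simpa using T0.q0)
  rw [add_sub_cancel_right, (zero_TLT T0).1, zero_mul] at k1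
  rw [add_sub_cancel_right, (zero_TLT T0).2, zero_mul] at k2
  rw [neg_add_eq_sub, k z hz h1 h2, two_TLT T1 k1.symm k2.symm]

theorem one_TLT (hZ : LZ_st) (hF : LF_st) (r : Rep L L' X) (h : Cf L p q) (h' : Cf L' p q) :
    rr L p q ^ #X * ∏ x ∈ X with x ∉ L.lattice, li L p q 1 x =
      (∏ x ∈ X with x ∉ L.lattice, li L p q 0 x) * rr L' p q := by
  have T := (hF L' p q h').1 0
  have e := prod_TLT hZ r T (z := -(3 * p)) (by simpa using h'.P0)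
  rw [r.split (hZ L _ _ (down_TLT r T)).1.per] at e
  have e1 : ∏ x ∈ X with x ∉ L.lattice, li L p q 0 (-(3 * p) + x) * dY L (3 * p) x =
      ∏ x ∈ X with x ∉ L.lattice, li L p q 0 (-(3 * p)) * li L p q 1 x :=
    prod_congr rfl fun x hx => shift_TLT hF h (mem_filter.1 hx).2
      (r.nz (mem_filter.1 hx).1 h'.P0).1 (r.nz (mem_filter.1 hx).1 h'.P0).2
  have e2 := (r.tr_y h.P3 h'.P0).1
  have w0 := a3_ne h.P3 h.P0
  have w1 := a3_ne h'.P3 h'.P0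
  have a : li L p q 0 (-(3 * p)) = rr L p q * wq L (3 * p) := by
    simp [li, rr, div_mul_cancel₀ _ w0]
  have a' : li L' p q 0 (-(3 * p)) = rr L' p q * wq L' (3 * p) := by
    simp [li, rr, div_mul_cancel₀ _ w1]
  change li L p q 0 _ * ∏ x ∈ _, li L p q 0 _ = (∏ x ∈ _, li L p q 0 _) * li L' p q 0 _ at e
  rw [prod_mul_distrib, prod_mul_distrib, prod_const, a] at e1
  rw [a, a'] at e
  rw [r.card_nz] at e2 ⊢
  refine mul_left_cancel₀ (pow_ne_zero (#{x ∈ X | x ∉ L.lattice} + 1) w0) ?_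
  linear_combination -(rr L p q * wq L (3 * p)) * e1 +
    (∏ x ∈ X with x ∉ L.lattice, dY L (3 * p) x) * e +
    (∏ x ∈ X with x ∉ L.lattice, li L p q 0 x) * rr L' p q * e2

theorem cf_TLT (h : Cf L p q) : Cf L (p + (2 : ℕ) * (3 * p)) (q + (2 : ℕ) * (3 * p)) := by
  have m : 6 * (3 * p) ∈ L.lattice := by
    convert add_mem h.P3 h.P3 using 1
    ring
  have e : 3 * (p + (2 : ℕ) * (3 * p)) = 3 * p + 6 * (3 * p) := by push_cast; ring
  rw [Cf, e, add_sub_add_right_eq_sub]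
  exact ⟨by rw [mul_add]; exact add_mem h.P3 (by simpa using L.lattice.smul_mem (3 : ℤ) m), h.Q3,
    fun a => h.P0 ((L.lattice.add_mem_iff_left m).1 a), h.Q0,
    fun a => h.ad ((L.lattice.add_mem_iff_left m).1 (by rwa [add_assoc])),
    fun a => h.sb ((L.lattice.sub_mem_iff_left m).1 (by rwa [sub_sub]))⟩

theorem LT_pf (hZ : LZ_st) (hF : LF_st) : LT_st := by
  intro L L' X p q r
  refine ⟨fun h => ⟨fun z hz => prod_TLT hZ r h hz, fun L'' Y Z r' r'' h'' => ?_⟩,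
    fun c h => ⟨Two.up h r c, fun i => ?_⟩⟩
  · have P := (hZ L p q (down_TLT r h)).1.per
    have k : ∀ w, ∀ l ∈ L.lattice, (if w + l ∉ L.lattice then ln L p q (w + l) else 1) =
        if w ∉ L.lattice then ln L p q w else 1 := fun w l hl => by
      simp only [P w l hl, L.lattice.add_mem_iff_left hl]
    rw [prod_filter, r.prod_tr (F := fun w => if w ∉ L.lattice then ln L p q w else 1) r' r'' k,
      prod_filter, prod_filter, ← prod_const, ← prod_mul_distrib]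
    refine prod_congr rfl fun y hy => ?_
    by_cases a : y ∈ L'.lattice
    · simpa [a] using r.prod_per (F := fun w => if w ∉ L.lattice then ln L p q w else 1) k 0 a
    · rw [if_pos a, ← prod_filter (p := fun x => x ∉ L.lattice), ← prod_TLT hZ r h a]
      exact prod_congr rfl fun x hx => if_pos (r.notMem a hx)
  have h' : Cf L' p q := Two.up h r c
  fin_cases i
  · simp [be]
  · exact one_TLT hZ hF r h h'
  · have e := one_TLT hZ hF r (cf_TLT h) (cf_TLT h')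
    obtain ⟨a1, -, a2, a3, a4, -⟩ := hF L p q h
    obtain ⟨b1, -, b2, -, b4, -⟩ := hF L' p q h'
    obtain ⟨c1, -, -, c2⟩ := a4 _ _ 2 (cf_TLT h) (zero_TLT (a1 2)).1 (zero_TLT (a1 2)).2
    rw [c1, c1, c2 rfl, (b4 _ _ 2 (cf_TLT h') (zero_TLT (b1 2)).1 (zero_TLT (b1 2)).2).2.2.2 rfl,
      a3 0] at e
    change (-1 - rr L p q) ^ _ * ∏ x ∈ _, li L p q 2 x = _ * (-1 - rr L' p q)
    have u : (-1 - rr L p q) ^ #X * (-1 / (rr L p q + 1)) ^ #X = 1 := by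
      rw [← mul_pow, show (-1 - rr L p q) * (-1 / (rr L p q + 1)) = 1 by field_simp; ring, one_pow]
    have u' : -1 / (rr L' p q + 1) * (-1 - rr L' p q) = 1 := by field_simp; ring
    linear_combination -((-1 - rr L p q) ^ #X * (-1 - rr L' p q)) * e +
      (∏ x ∈ X with x ∉ L.lattice, li L p q 0 x) * (-1 - rr L' p q) * u -
      (-1 - rr L p q) ^ #X * (∏ x ∈ X with x ∉ L.lattice, li L p q 2 x) * u'

end Pool.Agent.MP_e23604_nt.M

end

section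

/-!
Scaling, congruences and the shift.
-/

set_option autoImplicit false

open Filter Topology Asymptotics Finset QuadraticAlgebra
open scoped MatrixGroups Classical

namespace Pool.Agent.MP_e23604_nt.M

open B R S W Un

variable {L L' N N' : PeriodPair} {c p q z p' q' z' t t' x y x' y' : ℂ}

theorem lc_TLS {A : Submodule ℤ ℂ} {u v : ℂ} (hu : u ∈ A) (hv : v ∈ A) (a b : ℤ)
    (e : z = a * u + b * v) : z ∈ A := by
  simpa only [e, zsmul_eq_mul] using add_mem (A.smul_mem a hu) (A.smul_mem b hv)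

theorem ln_TLS (h : Sc c L L') (a : c * p - p' ∈ L'.lattice) (b : c * q - q' ∈ L'.lattice)
    (e : c * z - z' ∈ L'.lattice) : ln L' p' q' z' = c⁻¹ ^ 3 * ln L p q z := by
  have := h.1
  rw [ln, ln, h.p' a, h.p' b, h.p' e, h.q' a, h.q' b, h.q' e, ← mul_sub, ← mul_sub, ← mul_sub,
    ← mul_sub]
  by_cases k : wp L q - wp L p = 0
  · simp [k, mul_div_assoc]
  · field_simp

theorem li_TLS (h : Sc c L L') (a : c * p - p' ∈ L'.lattice) (b : c * q - q' ∈ L'.lattice)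
    (i : ℕ) (e : c * z - z' ∈ L'.lattice) : li L' p' q' i z' = c⁻¹ ^ 3 * li L p q i z :=
  ln_TLS h (lc_TLS a b (1 + 3 * i) 0 (by push_cast [pu, qu]; ring)) (lc_TLS a b (3 * i) 1 (by push_cast [pu, qu]; ring)) e

theorem rr_TLS (h : Sc c L L') (a : c * p - p' ∈ L'.lattice) (b : c * q - q' ∈ L'.lattice) :
    rr L' p' q' = rr L p q := by
  rw [rr, rr, ln_TLS (z := -(3 * p)) h a b (lc_TLS a b (-3) 0 (by push_cast [pu, qu]; ring)), h.q' (z := 3 * p) (lc_TLS a b 3 0 (by push_cast [pu, qu]; ring)),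
    mul_div_mul_left _ _ (pow_ne_zero 3 (inv_ne_zero h.1))]

theorem NS_TLS {f f' : ℂ → ℂ} {A : Submodule ℤ ℂ} (l : ℕ) (e : c * z - z' ∈ A)
    (h : ∀ w w', c * w - w' ∈ A → f' w' = c⁻¹ ^ 3 * f w) :
    NS l z' f' = c⁻¹ ^ (3 * (l - 1)) * NS l z f := by
  rw [NS, NS, prod_congr rfl fun (k : ℕ) _ => h (k * z) (k * z') (lc_TLS e e k 0 (by push_cast [pu, qu]; ring)), prod_mul_distrib, prod_const,
    Nat.card_Ico, pow_mul]

theorem two_TLS (h : Sc c L L') (a : c * p - p' ∈ L'.lattice) (b : c * q - q' ∈ L'.lattice)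
    (T : Two L p q) : Two L' p' q' :=
  ⟨(h.nm (lc_TLS a b 3 0 (by push_cast [pu, qu]; ring))).2 T.1, (h.nm (lc_TLS a b 0 3 (by push_cast [pu, qu]; ring))).2 T.2, (h.nm a).not.2 T.3,
    (h.nm b).not.2 T.4, (h.nm (lc_TLS a b 1 1 (by push_cast [pu, qu]; ring))).not.2 T.5, (h.nm (lc_TLS a b (-1) 1 (by push_cast [pu, qu]; ring))).not.2 T.6⟩

theorem up_TLS (h : Sc c L L') (r : Rep L N {0, t, -t}) (r' : Rep L' N' {0, t', -t'})
    (e : c * t - t' ∈ L'.lattice) : Sc c N N' := ⟨h.1, fun z => by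
  rw [rep3_mem r, rep3_mem r', h.2, h.nm (z := z - t) (lc_TLS e e (-1) 0 (by push_cast [pu, qu]; ring)),
    h.nm (z := z + t) (lc_TLS e e 1 0 (by push_cast [pu, qu]; ring))]⟩

theorem Mq_TLS (r : Rep L N {0, t, -t}) (r' : Rep L N' {0, t', -t'}) (e : t' - t ∈ L.lattice) :
    Mq L t' = Mq L t := by
  have k : ∀ {N A : PeriodPair} {t : ℂ}, Rep L N {0, t, -t} →
      (Rep L A {0, t, -t} ↔ A.lattice = N.lattice) := fun r =>
    ⟨fun h => by ext z; rw [rep3_mem h, rep3_mem r], fun e => ⟨e ▸ r.1, e ▸ r.2, e ▸ r.3⟩⟩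
  have e' : N'.lattice = N.lattice := by
    ext z
    simpa using ((up_TLS (Sc.of_eq rfl) r' r (by simpa using e)).2 z).symm
  exact congrArg (fun P : PeriodPair → Prop => if h : ∃ M, P M then h.choose else L)
    (funext fun A => propext (by rw [k r, k r', e']))

theorem eq_TLS (hZ : LZ_st) (T : Tri L p q) (T' : Tri L p' q') (a : Eq3 L p q p')
    (b : Eq3 L p q q') : ln L p' q' = ln L p q :=
  (hZ L p q T).2.2 _ _ T' (((hZ L p q T).2.1 _ T'.p0).2 a) (((hZ L p q T).2.1 _ T'.q0).2 b)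

theorem sh_TLS (hZ : LZ_st) (hF : LF_st) (T : Cf L p q) (T' : Cf L p' q') (k : ℕ)
    (a : Eq3 L (p + k * (3 * p)) (q + k * (3 * p)) p')
    (b : Eq3 L (p + k * (3 * p)) (q + k * (3 * p)) q') :
    (∀ i : ℕ, li L p' q' i = li L p q (i + k)) ∧ (k = 0 → rr L p' q' = rr L p q) ∧
      (k = 1 → rr L p' q' = -(rr L p q + 1) / rr L p q) ∧
      (k = 2 → rr L p' q' = -1 / (rr L p q + 1)) := by
  have h := (hZ L _ _ ((hF L p q T).1 k)).2.1
  have h' := (hF L p' q' T').1 0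
  exact (hF L p q T).2.2.2.2.1 p' q' k T' ((h _ (by simpa using h'.p0)).2 a)
    ((h _ (by simpa using h'.q0)).2 b)

theorem LS_pf (hZ : LZ_st) (hF : LF_st) (hB : LB_st) : LS_st := fun L x y h => by
  obtain ⟨c1, r, c2, t1, t2, -⟩ := hB L x y h
  have h1 := h.1
  have h2 := h.2
  refine ⟨fun c L' x' y' s a b => ?_, fun x' y' h' g => ?_, ?_⟩
  · have h' : B9 L' x' y' := two_TLS s (lc_TLS a b 3 0 (by push_cast [pu, qu]; ring)) (lc_TLS a b 0 3 (by push_cast [pu, qu]; ring)) h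
    have r' := (hB L' x' y' h').2.1
    have s' := up_TLS s r r' (lc_TLS a b 3 6 (by push_cast [pu, qu]; ring))
    have a1 : c * pu x y - pu x' y' ∈ L'.lattice := lc_TLS a b 1 2 (by push_cast [pu, qu]; ring)
    have a2 : c * qu x y - qu x' y' ∈ L'.lattice := lc_TLS a b (-2) (-1) (by push_cast [pu, qu]; ring)
    have e1 : rA L' x' y' = rA L x y := rr_TLS s a1 a2
    have e2 : rB L' x' y' = rB L x y := rr_TLS s' (r'.le a) (r'.le b)
    refine ⟨h', s', e1, e2, fun l z z' e => ⟨fun i => ?_, fun i => ?_, ?_⟩⟩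
    · rw [bA, bA, e1, NS_TLS l e fun _ _ => li_TLS s a1 a2 i, mul_left_comm]
    · rw [bB, bB, e2, NS_TLS l (r'.le e) fun _ _ => li_TLS s' (r'.le a) (r'.le b) i, mul_left_comm]
    · rw [nD, nD, NS_TLS l (r'.le e) fun _ _ => ln_TLS s' (r'.le a1) (r'.le a2), NS_TLS l e
        fun _ _ => ln_TLS (p := -3 * x) (q := -3 * y) s (lc_TLS a b (-3) 0 (by push_cast [pu, qu]; ring)) (lc_TLS a b 0 (-3) (by push_cast [pu, qu]; ring))]
      ring
  · obtain ⟨d1, r', d2, u1, u2, -⟩ := hB L x' y' h'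
    have e : 3 * pu x' y' - 3 * pu x y ∈ L.lattice := by
      rcases g.hp with k | k | k
      exacts [lc_TLS k k 3 0 (by push_cast [pu, qu]; ring), lc_TLS k (add_mem h1 h2) 3 (-1) (by push_cast [pu, qu]; ring), lc_TLS k h2 3 (-1) (by push_cast [pu, qu]; ring)]
    have m : MM L x' y' = MM L x y := Mq_TLS r r' e
    rw [m] at d2 u2
    have k : ∀ {z}, Eq3 (MM L x y) x y z → Eq3 L (-3 * x) (-3 * y) (-3 * z) := fun k =>
      k.imp (fun k => lc_TLS (rep3_three r c1.1 k) h1 (-1) 0 (by push_cast [pu, qu]; ring)) fun k => k.imp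
        (fun k => lc_TLS (rep3_three r c1.1 k) h1 (-1) 0 (by push_cast [pu, qu]; ring))
        fun k => lc_TLS (rep3_three r c1.1 k) h1 (-1) 0 (by push_cast [pu, qu]; ring)
    have k' : ∀ {z}, Eq3 L (pu x y) (qu x y) z → Eq3 (MM L x y) (pu x y) (qu x y) z := fun k =>
      k.imp (r.le ·) fun k => k.imp (r.le ·) (r.le ·)
    obtain ⟨f1, f2, -⟩ := sh_TLS hZ hF c1 d1 0 (by simpa using g.hp) (by simpa using g.hq)
    obtain ⟨f3, f4, -⟩ := sh_TLS hZ hF c2 d2 0 (by simpa using g.hx) (by simpa using g.hy)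
    have e1 : rA L x' y' = rA L x y := f2 rfl
    have e2 : rB L x' y' = rB L x y := by rw [rB, m, f4 rfl, rB]
    refine ⟨e, e1, e2, fun l s => ⟨fun i => ?_, fun i => ?_, ?_⟩⟩
    · rw [bA, e1, f1, one_mul, bA, add_zero]
    · rw [bB, e2, m, f3, one_mul, bB, add_zero]
    · rw [nD, m, eq_TLS hZ t1 u1 (k g.hx) (k g.hy), eq_TLS hZ t2 u2 (k' g.hp) (k' g.hq), one_pow,
        one_mul, nD]
  · have h' : B9 L (-2 * x) (-6 * x + 4 * y) :=
      two_TLS (Sc.of_eq rfl) (lc_TLS h1 h2 1 0 (by push_cast [pu, qu]; ring)) (lc_TLS h1 h2 2 (-1) (by push_cast [pu, qu]; ring)) h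
    obtain ⟨d1, r', d2, u1, u2, -⟩ := hB L _ _ h'
    have e : 3 * pu (-2 * x) (-6 * x + 4 * y) - 3 * pu x y ∈ L.lattice := lc_TLS h1 h2 (-5) 2 (by push_cast [pu, qu]; ring)
    have m : MM L (-2 * x) (-6 * x + 4 * y) = MM L x y := Mq_TLS r r' e
    have t := r.mem (3 * pu x y) (by simp)
    rw [m] at d2 u2
    obtain ⟨f1, -, f2, -⟩ := sh_TLS hZ hF c1 d1 1 (.inl (lc_TLS h1 h2 (-2) 0 (by push_cast [pu, qu]; ring)))
      (.inr (.inl (lc_TLS h1 h2 1 (-1) (by push_cast [pu, qu]; ring))))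
    obtain ⟨f3, -, -, f4⟩ := sh_TLS hZ hF c2 d2 2 (.inl (r.le (lc_TLS h1 h2 (-1) 0 (by push_cast [pu, qu]; ring))))
      (.inr (.inl (lc_TLS (r.le (sub_mem h2 h1)) t 1 (-1) (by push_cast [pu, qu]; ring))))
    have e1 : rA L (-2 * x) (-6 * x + 4 * y) = -(rA L x y + 1) / rA L x y := f2 rfl
    have e2 : rB L (-2 * x) (-6 * x + 4 * y) = -1 / (rB L x y + 1) := by rw [rB, m, f4 rfl, rB]
    obtain ⟨-, n1 : rA L x y ≠ 0, -, p1, -⟩ := hF _ _ _ c1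
    obtain ⟨-, -, n2 : rB L x y + 1 ≠ 0, p2, -⟩ := hF _ _ _ c2
    refine ⟨h', e, f1, m ▸ f3, e1, e2, fun l s => ⟨fun i => ?_, fun i => ?_, ?_⟩⟩
    · rw [bA, bA, ← mul_assoc, ← mul_pow, e1, f1]
      congr 2
      · fin_cases i <;> simp [be] <;> field_simp <;> ring
      · fin_cases i
        exacts [rfl, rfl, p1 0]
    · rw [bB, bB, ← mul_assoc, ← mul_pow, e2, m, f3]
      congr 2
      · fin_cases i <;> simp [be] <;> field_simp <;> ring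
      · fin_cases i
        exacts [rfl, p2 0, p2 1]
    · rw [nD, m, eq_TLS hZ t1 u1 (.inl (lc_TLS h1 h2 1 0 (by push_cast [pu, qu]; ring))) (.inr (.inl (lc_TLS h1 h2 2 (-1) (by push_cast [pu, qu]; ring)))),
        eq_TLS hZ t2 u2 (.inl (lc_TLS (r.le h1) t (-2) 1 (by push_cast [pu, qu]; ring)))
          (.inr (.inl (lc_TLS (r.le (sub_mem h1 h2)) t 1 1 (by push_cast [pu, qu]; ring)))), nD]

end Pool.Agent.MP_e23604_nt.M

end

section

/-!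
The relations are preserved; hexagonal lattices.
-/

set_option autoImplicit false

open Filter Topology Asymptotics Finset QuadraticAlgebra
open scoped MatrixGroups Classical

namespace Pool.Agent.MP_e23604_nt.M

open B R S W Un

theorem sh_TLV {E A B : Fin 3 → ℂ} (e : Cs E) (a : ∑ i, A i = 0) (b : ∑ i, B i = 0) :
    ∑ i, E i * (A (i + 1) * B (i + 2)) = ∑ i, E i * (A i * B i) ∧
      ∏ i, A (i + 1) * B (i + 2) = ∏ i, A i * B i := by
  have s := e.sm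
  simp only [Fin.sum_univ_three, Fin.prod_univ_three, Fin.reduceAdd] at *
  rw [show E 2 = -E 0 - E 1 by linear_combination s, show A 2 = -A 0 - A 1 by linear_combination a,
    show B 2 = -B 0 - B 1 by linear_combination b]
  exact ⟨by ring, by ring⟩

theorem LV_pf (hB : LB_st) (hS : LS_st) : LV_st := by
  intro D E K l L x y cD cE l3 h
  obtain ⟨-, -, -, -, -, p0, c0, hb⟩ := hB L x y h.b9
  obtain ⟨sc, -, b9, -, -, -, ra, rb, sh⟩ := hS L x y h.b9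
  have f0 := h.f0
  have s := cD.sm
  have pr := cD.pr
  have cb := cD.cb
  simp only [oP, mul_ne_zero_iff] at p0
  obtain ⟨⟨r0, r1⟩, r2, r3⟩ := p0
  simp only [Fin.sum_univ_three, be, Matrix.cons_val] at f0
  have a1 : rB L x y * (D 2 - D 0 * rA L x y) = D 1 - D 2 * rA L x y := by
    linear_combination f0 - (1 + rA L x y * rB L x y) * s
  have id : (D 1 - D 2 * rA L x y) * (D 1 * rA L x y - D 0) * (D 2 - D 0 * rA L x y) =
      -9 * cu (rA L x y) := by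
    rw [cu, ← pr]
    linear_combination (rA L x y + rA L x y ^ 2) * cb -
      rA L x y ^ 2 * (D 0 * D 1 + D 1 * D 2 + D 2 * D 0) * s
  have A0 : D 2 - D 0 * rA L x y ≠ 0 := fun e => c0 (by rw [e] at id; linear_combination id / 9)
  refine ⟨⟨b9, ?_, fun t o => ?_, fun t o => ?_⟩, fun c L' x' y' S ex ey => ?_, A0, ?_, fun e => ?_,
    fun e k => e ?_, fun t o => ?_⟩
  · simp only [Fin.sum_univ_three, be, Matrix.cons_val, ra, rb]
    field_simp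
    linear_combination -a1 + rA L x y * s
  · obtain ⟨-, -, -, -, sa, sb, -⟩ := hb l t l3 o
    obtain ⟨u1, u2, -⟩ := sh l t
    refine mul_left_cancel₀ (mul_ne_zero (pow_ne_zero l r0)
      (pow_ne_zero l (show -1 - rB L x y ≠ 0 from fun e => r3 (by linear_combination -e)))) ?_
    rw [mul_zero, ← h.f2 t o, ← (sh_TLV cE sa sb).1, mul_sum]
    exact sum_congr rfl fun i _ => by rw [← u1, ← u2]; simp only [be, Matrix.cons_val]; ring
  · obtain ⟨-, -, -, -, sa, sb, -⟩ := hb l t l3 o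
    obtain ⟨u1, u2, u3⟩ := sh l t
    have n : rA L x y * (-1 - rB L x y) ≠ 0 :=
      mul_ne_zero r0 fun e => r3 (by linear_combination -e)
    have f := h.f3 t o
    rw [← (sh_TLV cE sa sb).2, show oP L x y = (rA L x y * (-1 - rB L x y)) ^ 3 *
      oP L (-2 * x) (-6 * x + 4 * y) by rw [oP, oP, ra, rb]; field_simp; ring] at f
    simp only [← u1, ← u2, ← u3, be, Matrix.cons_val, Fin.prod_univ_three] at f ⊢
    refine mul_left_cancel₀ (pow_ne_zero l (pow_ne_zero 3 n)) ?_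
    generalize -1 - rB L x y = w at f
    linear_combination f
  · obtain ⟨b, -, ea, eb, sm⟩ := sc c L' x' y' S ex ey
    have k : ∀ t, Ord L' l t → Ord L l (c⁻¹ * t) ∧ Sm (c⁻¹ ^ (3 * (l - 1))) L L' x y x' y' l
        (c⁻¹ * t) t := fun t o => ⟨⟨o.pr, mul_left_comm c⁻¹ l t ▸ (S.symm.2 _).2 o.mem,
      fun e => o.nm ((S.symm.2 _).1 e)⟩, sm l _ _ (by simp [mul_inv_cancel_left₀ S.1])⟩
    refine ⟨b, by rw [ea, eb]; exact h.f0, fun t o => ?_, fun t o => ?_⟩ <;>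
      obtain ⟨o', m⟩ := k t o
    · have := h.f2 _ o'
      simp only [m.a, m.b, Fin.sum_univ_three] at this ⊢
      linear_combination (c⁻¹ ^ (3 * (l - 1))) ^ 2 * this
    · have := h.f3 _ o'
      simp only [m.a, m.b, m.d, oP, ea, eb, Fin.prod_univ_three] at this ⊢
      linear_combination (c⁻¹ ^ (3 * (l - 1))) ^ 6 * this
  · have a2 : (rB L x y + 1) * (D 2 - D 0 * rA L x y) = D 1 * rA L x y - D 0 := by
      linear_combination a1 + (1 - rA L x y) * s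
    rw [← a1, ← a2] at id
    rw [oP]
    linear_combination rA L x y * (rA L x y + 1) * id
  · refine mul_right_cancel₀ A0 ?_
    linear_combination a1 + s + (D 0 * (rA L x y - 1) - D 2) * e
  · have q : D 0 ^ 2 + D 0 * D 1 + D 1 ^ 2 ≠ 0 := fun q => by
      have : D 0 ^ 2 * D 1 = 0 := by
        linear_combination cb / 3 - (D 0 - D 1) / 3 * q -
          (D 0 * D 2 - D 0 ^ 2 - D 0 * D 1 + D 1 ^ 2) / 3 * s
      have : (81 : ℂ) = 0 := by
        linear_combination D 1 * D 2 ^ 2 * this - (D 0 * D 1 * D 2 - 9) * pr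
      norm_num at this
    refine mul_left_cancel₀ q ?_
    rw [show D 2 = -D 0 - D 1 by linear_combination s] at a1
    linear_combination (-D 0 - D 1 - D 0 * rA L x y) ^ 2 * k -
      ((rB L x y + 1) * (-D 0 - D 1 - D 0 * rA L x y) + (D 1 - (-D 0 - D 1) * rA L x y)) * a1
  · obtain ⟨-, na, nb, nd, -⟩ := hb l t l3 o
    have f2 := h.f2 t o
    have f3 := h.f3 t o
    have pe := cE.pr
    have ne : E 0 * E 1 * E 2 ≠ 0 := by rw [pe]; norm_num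
    simp only [mul_ne_zero_iff] at ne
    obtain ⟨⟨e0, e1⟩, e2⟩ := ne
    simp only [Fin.sum_univ_three, Fin.prod_univ_three] at f2 f3
    have n0 := mul_ne_zero (na 0) (nb 0)
    have n1 := mul_ne_zero (na 1) (nb 1)
    have n2 := mul_ne_zero (na 2) (nb 2)
    rw [oY, oR]
    generalize bA L x y l t 0 * bB L x y l t 0 = u0 at *
    generalize bA L x y l t 1 * bB L x y l t 1 = u1 at *
    generalize bA L x y l t 2 * bB L x y l t 2 = u2 at *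
    have y1 : E 0 / E 2 * (u0 / u2) + 1 = -(E 1 * u1) / (E 2 * u2) := by
      field_simp
      linear_combination f2
    rw [y1]
    refine ⟨by positivity, by simp [*], div_ne_zero nd n2, ?_⟩
    field_simp
    linear_combination 9 * f3 - u0 * u1 * u2 * pe

theorem LH_pf (hZ : LZ_st) (hF : LF_st) (hB : LB_st) (hS : LS_st) : LH_st := by
  intro L x y ζ b hζ S a0
  have E : ∀ {L : PeriodPair} {p q z : ℂ}, Cf L p q → z ∉ L.lattice → li L p q 0 z = 0 →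
      Eq3 L p q z := fun h hz e => by
    simpa using ((hZ _ _ _ ((hF _ _ _ h).1 0)).2.1 _ hz).1 e
  obtain ⟨c, r, c', -⟩ := hB L x y b
  obtain ⟨-, -, b', -, l1, l2, -⟩ := hS L x y b
  obtain ⟨d, r', d', -⟩ := hB L _ _ b'
  have T := (hF _ _ _ c).1 0
  have p0 : ζ * pu x y ∉ L.lattice := fun e => T.p0 (by simpa using (S.2 _).1 e)
  have q0 : ζ * qu x y ∉ L.lattice := fun e => T.q0 (by simpa using (S.2 _).1 e)
  have N : ∀ {M : PeriodPair} {t z : ℂ}, Rep L M {0, t, -t} → 3 * t ∈ L.lattice →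
      3 * z ∉ L.lattice → ζ * z ∉ M.lattice := fun r h n e =>
    n ((S.2 _).1 (mul_left_comm 3 ζ _ ▸ rep3_three r h e))
  have tM := r.mem (3 * pu x y) (by simp)
  have zt : ζ * (3 * pu x y) ∈ (MM L x y).lattice := by
    have w : wp L (3 * pu x y) = 0 := by
      linear_combination -flex c.P3 c.P0 / 12 + dA L (3 * pu x y) / 12 * a0
    exact (rep3_mem r).2 (Or.inr (wp_eq c.P0 (fun e => c.P0 ((S.2 _).1 e))
      (by rw [S.wp_mul, w, mul_zero])))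
  have m : ∀ z ∈ (MM L x y).lattice, ζ * z ∈ (MM L x y).lattice := fun z hz => by
    rcases (rep3_mem r).1 hz with a | a | a
    · exact r.le ((S.2 _).2 a)
    · simpa [mul_sub] using add_mem (r.le ((S.2 _).2 a)) zt
    · simpa [mul_add] using sub_mem (r.le ((S.2 _).2 a)) zt
  have S' : Sc ζ (MM L x y) (MM L x y) := ⟨S.1, fun z => ⟨fun h => by
    convert m _ (m _ h) using 1
    linear_combination -z * (ζ - 1) * hζ, m z⟩⟩
  have a1 : dA (MM L x y) (3 * x) = 0 := by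
    obtain ⟨e, p⟩ := c.par
    rw [(Sc.of_eq rfl).dA' (t := -(pu x y - qu x y)) (by
      convert sub_mem (sub_mem tM (r.le b.P3)) (r.le b.Q3) using 1
      rw [pu, qu]; ring), dA_neg, (flip c p r).2.1, a0]
    ring
  obtain ⟨f0, f1, -⟩ := (hF _ _ _ c).2.2.2.2.2.2 ζ hζ S a0
  obtain ⟨g0, -, g2⟩ := (hF _ _ _ c').2.2.2.2.2.2 ζ hζ S' a1
  have ep : pu (ζ * x) (ζ * y) = ζ * pu x y := by rw [pu, pu]; ring
  have eq : qu (ζ * x) (ζ * y) = ζ * qu x y := by rw [qu, qu]; ring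
  exact ⟨fun u v => ⟨ep ▸ E c p0 (f0 u).1, eq ▸ E c q0 (f0 u).2,
    E c' (N r c.P3 b.P0) (g0 v).1, E c' (N r c.P3 b.Q0) (g0 v).2⟩,
    fun u v => ⟨ep ▸ E d p0 (l1 0 ▸ (f1 u).1), eq ▸ E d q0 (l1 0 ▸ (f1 u).2),
      E d' (N r' d.P3 b.P0) (l2 0 ▸ (g2 v).1), E d' (N r' d.P3 b.Q0) (l2 0 ▸ (g2 v).2)⟩⟩

end Pool.Agent.MP_e23604_nt.M

end

section

/-!
Sums over the non-zero vectors modulo a prime, and a relation between three derivatives.
-/

set_option autoImplicit false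

open Filter Topology Asymptotics Finset QuadraticAlgebra
open scoped MatrixGroups Classical

namespace Pool.Agent.MP_e23604_nt.M

open B R S W Un

theorem mem_TSU {l : ℕ} {ρ : ℤ × ℤ} :
    ρ ∈ Il l ↔ ρ ≠ 0 ∧ (0 ≤ ρ.1 ∧ ρ.1 < l) ∧ 0 ≤ ρ.2 ∧ ρ.2 < l := by
  simp [Il]

theorem nz_TSU {l : ℕ} {ρ : ℤ × ℤ} : ¬ Nz l ρ ↔ (l : ℤ) ∣ ρ.1 ∧ (l : ℤ) ∣ ρ.2 := not_not

theorem eq_TSU {l : ℕ} {a b : ℤ} (ha : 0 ≤ a ∧ a < l) (hb : 0 ≤ b ∧ b < l) (h : (l : ℤ) ∣ a - b) :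
    a = b := sub_eq_zero.1 (Int.eq_zero_of_abs_lt_dvd h (abs_lt.2 ⟨by omega, by omega⟩))

theorem red_TSU {l : ℕ} (hl : l ≠ 0) {ρ : ℤ × ℤ} (h : Nz l ρ) :
    (ρ.1 % l, ρ.2 % l) ∈ Il l ∧ (l : ℤ) ∣ ρ.1 - ρ.1 % l ∧ (l : ℤ) ∣ ρ.2 - ρ.2 % l := by
  have h0 : (l : ℤ) ≠ 0 := Nat.cast_ne_zero.2 hl
  have h1 : (0 : ℤ) < l := by omega
  exact ⟨mem_TSU.2 ⟨fun e => h ⟨Int.dvd_of_emod_eq_zero (congrArg Prod.fst e),
    Int.dvd_of_emod_eq_zero (congrArg Prod.snd e)⟩,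
    ⟨Int.emod_nonneg _ h0, Int.emod_lt_of_pos _ h1⟩, Int.emod_nonneg _ h0, Int.emod_lt_of_pos _ h1⟩,
    Int.dvd_self_sub_of_emod_eq rfl, Int.dvd_self_sub_of_emod_eq rfl⟩

theorem il_TSU {l : ℕ} {ρ : ℤ × ℤ} (h : ρ ∈ Il l) : Nz l ρ := fun e => by
  obtain ⟨a, b, c⟩ := mem_TSU.1 h
  exact a (Prod.ext (eq_TSU b ⟨le_rfl, b.1.trans_lt b.2⟩ (by simpa using e.1))
    (eq_TSU c ⟨le_rfl, b.1.trans_lt b.2⟩ (by simpa using e.2)))

theorem bij_TSU {l : ℕ} (hl : l ≠ 0) {T : ℤ × ℤ → ℂ}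
    (hT : ∀ ρ ρ', Nz l ρ → (l : ℤ) ∣ ρ.1 - ρ'.1 → (l : ℤ) ∣ ρ.2 - ρ'.2 → T ρ = T ρ') {α : Type}
    (A : Finset α) (φ : α → ℤ × ℤ) (h1 : ∀ a ∈ A, Nz l (φ a))
    (h2 : ∀ a ∈ A, ∀ b ∈ A, ¬ Nz l (φ a - φ b) → a = b)
    (h3 : ∀ ρ, Nz l ρ → ∃ a ∈ A, ¬ Nz l (ρ - φ a)) : ∑ a ∈ A, T (φ a) = ∑ ρ ∈ Il l, T ρ := by
  refine sum_bij (fun a _ => ((φ a).1 % l, (φ a).2 % l)) (fun a ha => (red_TSU hl (h1 a ha)).1)
    (fun a ha b hb e => h2 a ha b hb (nz_TSU.2 ⟨?_, ?_⟩)) (fun ρ hρ => ?_)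
    fun a ha => hT _ _ (h1 a ha) (red_TSU hl (h1 a ha)).2.1 (red_TSU hl (h1 a ha)).2.2
  · exact Int.ModEq.dvd (congrArg Prod.fst e).symm
  · exact Int.ModEq.dvd (congrArg Prod.snd e).symm
  · obtain ⟨a, ha, e⟩ := h3 ρ (il_TSU hρ)
    obtain ⟨e1, e2⟩ := nz_TSU.1 e
    obtain ⟨k0, k1, k2⟩ := red_TSU hl (h1 a ha)
    obtain ⟨-, k3, k4⟩ := mem_TSU.1 k0
    obtain ⟨-, k5, k6⟩ := mem_TSU.1 hρ
    refine ⟨a, ha, Prod.ext (eq_TSU k5 k3 ?_).symm (eq_TSU k6 k4 ?_).symm⟩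
    · simpa using dvd_add e1 k1
    · simpa using dvd_add e2 k2

theorem act_TSU {l : ℕ} (γ : SL(2, ℤ)) {p q : ℤ × ℤ} (h : ¬ Nz l (p - q)) :
    ¬ Nz l (Un.act γ p - Un.act γ q) := by
  obtain ⟨a, b⟩ := nz_TSU.1 h
  refine nz_TSU.2 ⟨?_, ?_⟩
  · refine (dvd_add (a.mul_right (γ 0 0)) (b.mul_right (γ 1 0))).trans (Eq.dvd ?_)
    simp only [Un.act, Prod.fst_sub, Prod.snd_sub]
    ring
  · refine (dvd_add (a.mul_right (γ 0 1)) (b.mul_right (γ 1 1))).trans (Eq.dvd ?_)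
    simp only [Un.act, Prod.fst_sub, Prod.snd_sub]
    ring

theorem SU_pf : SU_st := by
  intro l T hl
  have hp := Nat.prime_iff_prime_int.1 hl
  refine ⟨fun ρ => il_TSU, fun hT => ⟨fun γ => ?_, fun X f hj hX hU => ?_⟩⟩
  · have i : ∀ p, Un.act γ⁻¹ (Un.act γ p) = p := fun p => by simpa using act_inv γ⁻¹ p
    have z : ∀ (δ : SL(2, ℤ)) p, ¬ Nz l p → ¬ Nz l (Un.act δ p) := fun δ p h => by
      simpa [show Un.act δ 0 = 0 by simp [Un.act]] using act_TSU δ (q := 0) (by rwa [sub_zero])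
    refine bij_TSU hl.ne_zero hT _ _ (fun a ha => by_contra fun e => z γ⁻¹ _ e ((i a).symm ▸ il_TSU ha))
      (fun a ha b hb e => ?_) fun ρ h => ?_
    · have k := act_TSU γ⁻¹ e
      rw [i, i, nz_TSU] at k
      exact Prod.ext (eq_TSU (mem_TSU.1 ha).2.1 (mem_TSU.1 hb).2.1 k.1)
        (eq_TSU (mem_TSU.1 ha).2.2 (mem_TSU.1 hb).2.2 k.2)
    · obtain ⟨k0, k⟩ := red_TSU hl.ne_zero (ρ := Un.act γ⁻¹ ρ)
        (by_contra fun e => z γ _ e ((act_inv γ ρ).symm ▸ h))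
      have := act_TSU γ (p := Un.act γ⁻¹ ρ) (q := (_, _)) (nz_TSU.2 k)
      exact ⟨_, k0, by rwa [act_inv] at this⟩
  have nd : ∀ j ∈ Ico (1 : ℤ) l, ¬ (l : ℤ) ∣ j := fun j h e => by
    have := Int.le_of_dvd (mem_Ico.1 h).1 e
    have := (mem_Ico.1 h).2
    omega
  have nz : ∀ (j : ℤ) ρ, Nz l ρ → ¬ Nz l (j • ρ) → (l : ℤ) ∣ j := fun j ρ h e => by_contra fun k =>
    h ⟨(hp.dvd_or_dvd (nz_TSU.1 e).1).resolve_left k, (hp.dvd_or_dvd (nz_TSU.1 e).2).resolve_left k⟩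
  have h1 : ∀ a ∈ X ×ˢ Ico (1 : ℤ) l, Nz l (a.2 • f a.1) := fun a ha => by_contra fun e =>
    nd _ (mem_product.1 ha).2 (nz _ _ (hX _ (mem_product.1 ha).1) e)
  rw [← bij_TSU hl.ne_zero hT (X ×ˢ Ico (1 : ℤ) l) (fun a => a.2 • f a.1) h1
    (fun a ha b hb e => ?_) fun ρ h => ?_, sum_product, mul_sum]
  · refine sum_congr rfl fun S hS => ?_
    rw [sum_congr rfl fun j h => hj _ j (hX S hS) (nd j h), sum_const, Int.card_Ico, nsmul_eq_mul,
      show ((l : ℤ) - 1).toNat = l - 1 by omega, Nat.cast_pred hl.pos]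
  · obtain ⟨a1, a2⟩ := mem_product.1 ha
    obtain ⟨b1, b2⟩ := mem_product.1 hb
    have k : a.1 = b.1 := (hU _ (h1 a ha)).unique ⟨a1, a.2, by simp [nz_TSU]⟩ ⟨b1, b.2, e⟩
    rw [mem_Ico] at a2 b2
    refine Prod.ext k (eq_TSU ⟨by omega, a2.2⟩ ⟨by omega, b2.2⟩ (nz _ _ (hX _ a1) ?_))
    rwa [← k, ← sub_smul] at e
  · obtain ⟨S, ⟨hS, j, e⟩, -⟩ := hU ρ h
    obtain ⟨e1, e2⟩ := nz_TSU.1 e
    have h0 : (l : ℤ) ≠ 0 := hp.ne_zero
    have d : (l : ℤ) ∣ j - j % l := Int.dvd_self_sub_of_emod_eq rfl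
    have k : ¬ Nz l (ρ - (j % l) • f S) := nz_TSU.2 ⟨(dvd_add e1 (d.mul_right (f S).1)).trans
      (Eq.dvd (by simp only [Prod.fst_sub, Prod.smul_fst, smul_eq_mul]; ring)),
      (dvd_add e2 (d.mul_right (f S).2)).trans
      (Eq.dvd (by simp only [Prod.snd_sub, Prod.smul_snd, smul_eq_mul]; ring))⟩
    refine ⟨(S, j % l), mem_product.2 ⟨hS, mem_Ico.2 ⟨?_, Int.emod_lt_of_pos _ (by omega)⟩⟩, k⟩
    refine (Int.emod_nonneg j h0).lt_of_ne fun e => k ?_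
    rwa [← e, zero_smul, sub_zero]

theorem DE_pf : DE_st := by
  intro A B E hE hA hB h τ hτ
  have n := HH_open.mem_nhds hτ
  have a := fun i => ((hA i).differentiableAt n).hasDerivAt
  have b := fun i => ((hB i).differentiableAt n).hasDerivAt
  have z : ∀ {F : ℂ → ℂ} {d : ℂ}, HasDerivAt F d τ → (∀ σ ∈ HH, F σ = 0) → d = 0 := fun k e =>
    k.unique ((hasDerivAt_const τ 0).congr_of_eventuallyEq (eventually_of_mem n e))
  simp only [Fin.sum_univ_three] at h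
  have d1 := z (((a 0).fun_add (a 1)).fun_add (a 2)) fun σ k => (h σ k).2.2.1
  have d2 := z (((b 0).fun_add (b 1)).fun_add (b 2)) fun σ k => (h σ k).2.2.2.1
  have d3 := z (((((a 0).fun_mul (b 0)).const_mul (E 0)).fun_add
    (((a 1).fun_mul (b 1)).const_mul (E 1))).fun_add (((a 2).fun_mul (b 2)).const_mul (E 2)))
    fun σ k => (h σ k).2.2.2.2
  obtain ⟨a0, b0, s1, s2, s3⟩ := h τ hτ
  have q : ∀ i j k m, deriv (fun σ => A i σ * B j σ / (A k σ * B m σ)) τ * (A k τ * B m τ) ^ 2 =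
      (deriv (A i) τ * B j τ + A i τ * deriv (B j) τ) * (A k τ * B m τ) -
        A i τ * B j τ * (deriv (A k) τ * B m τ + A k τ * deriv (B m) τ) := fun i j k m => by
    have t := mul_ne_zero (a0 k) (b0 m)
    rw [(((a i).fun_mul (b j)).fun_div ((a k).fun_mul (b m)) t).deriv,
      div_mul_cancel₀ _ (pow_ne_zero 2 t)]
  obtain ⟨e1, e2, e3⟩ := hE
  rw [q, q, q]
  rw [add_eq_zero_iff_neg_eq] at d1 d2 s1 s2 e1
  rw [← d1, ← d2, ← s1, ← s2, ← e1] at d3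
  rw [← s1, ← s2, ← e1] at s3
  rw [← e1] at e2 e3
  rw [← d1, ← d2, ← s1, ← s2]
  have a1 := a0 0
  have b1 := b0 0
  generalize A 0 τ = x at *
  generalize A 1 τ = y at *
  generalize B 0 τ = u at *
  generalize B 1 τ = v at *
  generalize deriv (A 0) τ = x' at *
  generalize deriv (A 1) τ = y' at *
  generalize deriv (B 0) τ = u' at *
  generalize deriv (B 1) τ = v' at *
  generalize E 0 = s at *
  generalize E 1 = t at *
  have hα : -(s + t) * x - s * y ≠ 0 := fun e => by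
    have k1 : t * x + (s + t) * y = 0 := mul_left_cancel₀ b1 (by linear_combination v * e - s3)
    have k2 : s ^ 2 + s * t + t ^ 2 = 0 :=
      mul_left_cancel₀ a1 (by linear_combination -(s + t) * e - s * k1)
    have k3 : (s * t * -(s + t)) ^ 2 = 0 := by
      linear_combination (t * (s + t) ^ 2 / 3) * (e3 - (s - t) * k2)
    rw [e2] at k3
    norm_num at k3
  refine mul_left_cancel₀ (pow_ne_zero 2 hα) ?_
  linear_combination (-(x * y' - y * x') * ((-(s + t) * x - s * y) * (u + v) +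
    u * (t * x + (s + t) * y)) + (x ^ 2 + x * y + y ^ 2) * (u * (-(s + t) * x' - s * y') +
      (-(s + t) * x - s * y) * u')) * s3 - (x ^ 2 + x * y + y ^ 2) * (-(s + t) * x - s * y) * u * d3

end Pool.Agent.MP_e23604_nt.M

end

section

/-!
Orders at the cusp.
-/

set_option autoImplicit false

open Filter Topology Asymptotics Finset QuadraticAlgebra
open scoped MatrixGroups Classical

namespace Pool.Agent.MP_e23604_nt.M

open B R S W Un

section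

variable {h : ℝ} {F G : ℂ → ℂ} {a b : ℤ}

/-- the order is `k` -/
abbrev Th_TOR (h : ℝ) (F : ℂ → ℂ) (k : ℤ) : Prop := F =Θ[Ii] fun τ => qq h τ ^ k

theorem big_TOR (hh : 0 < h) (e : b ≤ a) : (fun τ => qq h τ ^ a) =O[Ii] fun τ => qq h τ ^ b :=
  IsBigO.of_bound' (ev_HH.mono fun τ hτ => by
    rw [norm_zpow, norm_zpow]
    exact zpow_le_zpow_right_of_le_one₀ (norm_pos_iff.2 (qq_ne h τ))
      (Function.Periodic.norm_qParam_lt_one hh hτ).le e)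

theorem zero_TOR (hh : 0 < h) (t : F =O[Ii] fun τ => qq h τ ^ a) (e : 0 < a) :
    Tendsto F Ii (𝓝 0) :=
  (t.trans (big_TOR hh (b := 1) e)).trans_tendsto (by simpa using qq_zero hh)

theorem le_TOR (hh : 0 < h) (t : (fun τ => qq h τ ^ a) =O[Ii] fun τ => qq h τ ^ b) : b ≤ a := by
  by_contra e
  have := zero_TOR hh (F := fun _ => 1) (a := b - a)
    ((t.mul (isBigO_refl (fun τ => (qq h τ ^ a)⁻¹) Ii)).congr
      (fun τ => mul_inv_cancel₀ (zpow_ne_zero _ (qq_ne h τ)))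
      fun τ => by rw [zpow_sub₀ (qq_ne h τ), div_eq_mul_inv]) (by omega)
  exact one_ne_zero (tendsto_nhds_unique tendsto_const_nhds this)

theorem eq_TOR (hh : 0 < h) (t : Th_TOR h F a) (t' : Th_TOR h F b) : a = b :=
  le_antisymm (le_TOR hh (t'.2.trans t.1)) (le_TOR hh (t.2.trans t'.1))

theorem mul_TOR (t : Th_TOR h F a) (t' : Th_TOR h G b) :
    Th_TOR h (fun τ => F τ * G τ) (a + b) :=
  (t.mul t').trans_eventuallyEq (.of_forall fun τ => (zpow_add₀ (qq_ne h τ) a b).symm)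

theorem div_TOR (t : Th_TOR h F a) (t' : Th_TOR h G b) :
    Th_TOR h (fun τ => F τ / G τ) (a - b) :=
  (t.div t').trans_eventuallyEq (.of_forall fun τ => (zpow_sub₀ (qq_ne h τ) a b).symm)

theorem cube_TOR (t : Th_TOR h F a) : Th_TOR h (fun τ => F τ ^ 3) (3 * a) :=
  (t.pow 3).trans_eventuallyEq (.of_forall fun τ => by
    simp only [mul_comm 3 a, zpow_mul, zpow_ofNat])

theorem bd_TOR (hh : 0 < h) (t : Th_TOR h F a) (e : Bd F) : 0 ≤ a :=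
  le_TOR hh (t.2.trans (e.trans (IsBigO.of_bound' (.of_forall fun τ => by simp))))

theorem lim_TOR (hh : 0 < h) (t : Th_TOR h F a) {c : ℂ} (e : Tendsto F Ii (𝓝 c)) (hc : c ≠ 0) :
    a = 0 := ((bd_TOR hh t (.of_tendsto e)).eq_or_lt.resolve_right fun k =>
  hc (tendsto_nhds_unique e (zero_TOR hh t.1 k))).symm

theorem ord_TOR (hh : 0 < h) (m : Mr h F) : (∃ k, Th_TOR h F k) ∨ ∀ᶠ τ in Ii, F τ = 0 := by
  obtain ⟨φ, m, e⟩ := m.mer
  have t := Function.Periodic.qParam_tendsto hh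
  by_cases a : meromorphicOrderAt φ 0 = ⊤
  · right
    filter_upwards [e, t.eventually (meromorphicOrderAt_eq_top_iff.1 a)] with τ a b using a.trans b
  obtain ⟨k, hk⟩ := WithTop.ne_top_iff_exists.1 a
  obtain ⟨g, a, g0, e'⟩ := (meromorphicOrderAt_eq_int_iff m).1 hk.symm
  refine Or.inl ⟨k, (isTheta_of_div_tendsto_nhds_ne_zero
    ((a.continuousAt.tendsto.comp (qq_zero hh)).congr' ?_) g0).symm⟩
  filter_upwards [e, t.eventually e'] with τ a b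
  rw [a, b, sub_zero, smul_eq_mul, mul_div_cancel_left₀ _ (zpow_ne_zero _ (qq_ne h τ))]
  rfl

theorem two_TOR (hh : 0 < h) (m : Mr h F) (n : ∀ τ ∈ HH, F τ ≠ 0) : ∃ k, Th_TOR h F k :=
  (ord_TOR hh m).resolve_right fun e => by
    obtain ⟨τ, a, b⟩ := (e.and ev_HH).exists
    exact n τ b a

theorem ex_TOR (hh : 0 < h) (c : Cus h F) (t : (fun τ => F τ ^ 3) =O[Ii] fun τ => qq h τ ^ a) :
    (∃ k, Th_TOR h F k) ∨ ∀ᶠ τ in Ii, F τ = 0 := by
  have n : ∀ τ, qq h τ ^ (a / 3) ≠ 0 := fun τ => zpow_ne_zero _ (qq_ne h τ)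
  have q := Cus.qp hh.ne'
  have b : Bd fun τ => F τ / qq h τ ^ (a / 3) := Bd.of_pow three_ne_zero
    ((Bd.div (t.trans (big_TOR hh (b := a / 3 * 3) (by omega)))).congr fun τ _ => by
      rw [div_pow, zpow_mul, zpow_ofNat])
  refine (ord_TOR hh (.of_bd hh (c.div ⟨q.hol.zpow (Or.inl fun τ _ => qq_ne h τ),
    fun τ hτ => by rw [q.per τ hτ]⟩ fun τ _ => n τ) b)).imp (fun ⟨k, e⟩ => ⟨k + a / 3, ?_⟩)
    fun e => e.mono fun τ e => (div_eq_zero_iff.1 e).resolve_right (n τ)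
  simpa only [div_mul_cancel₀ _ (n _)] using mul_TOR (b := a / 3) e (isTheta_refl _ _)

end

theorem OR_pf : OR_st := by
  intro h F hh
  refine ⟨fun w hw m c => ?_, two_TOR hh, fun n c t => ?_, fun m n t => ?_, fun G k c t z => ?_⟩
  · obtain ⟨k, t⟩ : ∃ k : ℤ, F =O[Ii] fun τ => qq h τ ^ k :=
      (ord_TOR hh m).elim (fun ⟨k, t⟩ => ⟨k, t.1⟩) fun e =>
        ⟨0, (isBigO_zero _ _).congr' (e.mono fun _ e => e.symm) EventuallyEq.rfl⟩
    obtain ⟨n, hn⟩ := exists_nat_ge (-(k / h) * w)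
    have q := (Mr.of_bd hw (Cus.qp hw.ne') (.of_tendsto (qq_zero hw))).pow n
    have b : Bd fun τ => F τ * qq w τ ^ n := (t.mul (isBigO_refl _ _)).trans
      (IsBigO.of_bound' (ev_HH.mono fun τ (hτ : 0 < τ.im) => by
        rw [norm_mul, norm_zpow, norm_pow, Function.Periodic.norm_qParam,
          Function.Periodic.norm_qParam, ← Real.rpow_intCast, ← Real.exp_mul, ← Real.exp_nat_mul,
          ← Real.exp_add, Pi.one_apply, NormOneClass.norm_one, Real.exp_le_one_iff]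
        have : 0 ≤ k / h + n / w := by
          have := (le_div_iff₀ hw).2 hn
          linarith
        have := mul_nonneg (mul_pos Real.pi_pos hτ).le this
        calc _ = -2 * (Real.pi * τ.im * (k / h + n / w)) := by ring
          _ ≤ 0 := by linarith))
    exact ((Mr.of_bd hw (c.mul q.cus) b).div q fun τ _ => pow_ne_zero _ (qq_ne w τ)).congr
      fun τ _ => (mul_div_cancel_right₀ _ (pow_ne_zero _ (qq_ne w τ))).symm
  · rcases ex_TOR hh c t.1 with ⟨k, e⟩ | e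
    · exact ⟨k, eq_TOR hh t (cube_TOR e)⟩
    · obtain ⟨τ, a, b⟩ := (e.and t.eq_zero_iff).exists
      exact absurd (b.1 (by rw [a, zero_pow three_ne_zero])) (zpow_ne_zero _ (qq_ne h τ))
  · obtain ⟨a, t0⟩ := two_TOR hh m fun τ hτ => (n τ hτ).1
    obtain ⟨b, t1⟩ := two_TOR hh (m.add (.cst 1)) fun τ hτ => (n τ hτ).2.1
    obtain ⟨c, t2⟩ := two_TOR hh (F := fun τ => cu (F τ))
      (((m.pow 3).add ((Mr.cst 3).mul (m.pow 2))).sub (.cst 1)) fun τ hτ => (n τ hτ).2.2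
    have cc : Continuous cu := by
      unfold cu
      fun_prop
    have e : 3 * (c - (a + b)) = 3 ∨ 3 * (a + b - c) = 3 := t.imp
      (fun t => eq_TOR hh (cube_TOR (div_TOR t2 (mul_TOR t0 t1))) (by simpa only [zpow_ofNat]))
      fun t => eq_TOR hh (cube_TOR (div_TOR (mul_TOR t0 t1) t2)) (by simpa only [zpow_ofNat])
    suffices (a + b + c) % 3 = 1 from ⟨(a + b + c) / 3, by
      rw [show 3 * ((a + b + c) / 3) + 1 = a + b + c by omega]
      exact mul_TOR (mul_TOR t0 t1) t2⟩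
    rcases lt_trichotomy a 0 with a0 | rfl | a0
    · have z : Tendsto (fun τ => 1 / F τ) Ii (𝓝 0) := zero_TOR hh (div_TOR (F := fun _ => 1) (a := 0)
        (by simpa only [Th_TOR, zpow_zero] using isTheta_refl _ _) t0).1 (by omega)
      have e1 := lim_TOR hh (div_TOR t1 t0) (c := 1 + 0) ((z.const_add 1).congr'
        (ev_HH.mono fun τ hτ => by have := (n τ hτ).1; field_simp)) (by simp)
      have e2 := lim_TOR hh (div_TOR t2 (cube_TOR t0)) (c := 1 + 3 * 0 - 0 ^ 3)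
        ((((z.const_mul 3).const_add 1).sub (z.pow 3)).congr'
          (ev_HH.mono fun τ hτ => by have := (n τ hτ).1; simp only [cu]; field_simp)) (by simp)
      omega
    · have b0 : Bd F := t0.1.trans (IsBigO.of_bound' (.of_forall fun τ => by simp))
      have e2 := bd_TOR hh t2 (((b0.pow 3).add ((Bd.cst 3).mul (b0.pow 2))).add (Bd.cst (-1)) |>.congr
        (fun τ => by simp [cu, sub_eq_add_neg]) fun _ => rfl)
      rcases (bd_TOR hh t1 (b0.add (Bd.cst 1))).eq_or_lt with b1 | b1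
      · omega
      · have z : Tendsto F Ii (𝓝 (0 - 1)) :=
          ((zero_TOR hh t1.1 b1).sub_const 1).congr fun τ => add_sub_cancel_right _ _
        have := lim_TOR hh t2 ((cc.tendsto _).comp z) (by norm_num [cu])
        omega
    · have z := zero_TOR hh t0.1 a0
      have e1 := lim_TOR hh t1 (z.add_const 1) (by simp)
      have e2 := lim_TOR hh t2 ((cc.tendsto _).comp z) (by simp [cu])
      omega
  · have b := Bd.of_tendsto z
    have t1 : (fun τ => F τ ^ 3) =O[Ii] fun τ => qq h τ ^ (3 * k + 1) :=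
      ((IsBigO.mul b t.1.norm_right).congr' (t.eq_zero_iff.mono fun τ e => div_mul_cancel₀ _
        fun e' => zpow_ne_zero _ (qq_ne h τ) (e.1 e')) (.of_forall fun τ => one_mul _)).of_norm_right
    rcases ex_TOR hh c t1 with ⟨m, e⟩ | e
    · have d := div_TOR (cube_TOR e) t
      have := bd_TOR hh d b
      simpa only [zpow_ofNat] using d.1.trans (big_TOR hh (b := 2) (by omega))
    · exact (isBigO_zero _ _).congr' (e.mono fun τ e => by simp [e]) EventuallyEq.rfl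

end Pool.Agent.MP_e23604_nt.M

end

section

/-!
Holomorphy on the family, and the passage from one point to all points.
-/

set_option autoImplicit false

open Filter Topology Asymptotics Finset QuadraticAlgebra
open scoped MatrixGroups Classical

namespace Pool.Agent.MP_e23604_nt.M

open B R S W Un

/-- families of lattices with meromorphic values at torsion sections -/
def Fm_TAN (N : ℕ) (La : ℂ → PeriodPair) : Prop :=
  ∀ z, Pn N z → (∀ τ ∈ HH, z τ ∉ (La τ).lattice) →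
    Mr N (fun τ => wp (La τ) (z τ)) ∧ Mr N fun τ => wq (La τ) (z τ)

variable {N l : ℕ} {La : ℂ → PeriodPair} {p q z s t : ℂ → ℂ}

theorem mul_TAN (a : Pn N z) (n : ℤ) {c : ℂ} (e : c = n) : Pn N fun τ => c * z τ := by
  obtain ⟨p, a⟩ := a
  exact ⟨n • p, fun τ => by simp only [a, e, lin_smul, mul_div_assoc]⟩

theorem three_TAN (a : Pn N z) : Pn N fun τ => 3 * z τ := mul_TAN a 3 (by norm_num)

theorem pu_TAN (a : Pn N p) (b : Pn N q) : Pn N fun τ => pu (p τ) (q τ) :=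
  a.add (mul_TAN b 2 (by norm_num))

theorem qu_TAN (a : Pn N p) (b : Pn N q) : Pn N fun τ => qu (p τ) (q τ) :=
  (mul_TAN a (-2) (by norm_num)).sub b

theorem Lt_TAN (hN : N ≠ 0) : Fm_TAN N Lt := fun _ a n => ⟨(a.wp hN n).1, (a.wq hN).1⟩

theorem rep_TAN (hN : N ≠ 0) (a : Pn N t) (r : ∀ τ ∈ HH, Rep (Lt τ) (La τ) {0, t τ, -t τ})
    (h3 : ∀ τ ∈ HH, 3 * t τ ∈ (Lt τ).lattice) (h0 : ∀ τ ∈ HH, t τ ∉ (Lt τ).lattice) :
    Fm_TAN N La := fun z b n => by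
  have m := fun τ h => not_or.1 ((rep3_mem (r τ h)).not.1 (n τ h))
  exact ⟨((((b.wp hN fun τ h => (m τ h).1).1.add ((b.add a).wp hN fun τ h =>
    (not_or.1 (m τ h).2).2).1).add ((b.sub a).wp hN fun τ h => (not_or.1 (m τ h).2).1).1).sub
      ((Mr.cst 2).mul (a.wp hN h0).1)).congr fun τ h => (ex_der (r τ h) (h3 τ h) (h0 τ h)).1 _,
    (((b.wq hN).1.add ((b.add a).wq hN).1).add ((b.sub a).wq hN).1).congr fun τ h =>
      (ex_der (r τ h) (h3 τ h) (h0 τ h)).2.1 _⟩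

theorem ln_TAN (F : Fm_TAN N La) (a : Pn N p) (b : Pn N q) (c : Pn N z)
    (T : ∀ τ ∈ HH, Tri (La τ) (p τ) (q τ)) (n : ∀ τ ∈ HH, z τ ∉ (La τ).lattice) :
    Mr N fun τ => ln (La τ) (p τ) (q τ) (z τ) := by
  have P := F p a fun τ h => (T τ h).p0
  have Q := F q b fun τ h => (T τ h).q0
  have Z := F z c n
  exact ((Z.2.sub P.2).div (.cst 2) fun _ _ => two_ne_zero).sub (((Q.2.sub P.2).div
    ((Mr.cst 2).mul (Q.1.sub P.1)) fun τ h => mul_ne_zero two_ne_zero fun e =>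
      (wp_eq (T τ h).q0 (T τ h).p0 (sub_eq_zero.1 e)).elim (T τ h).sb (T τ h).ad).mul (Z.1.sub P.1))

theorem NS_TAN (F : Fm_TAN N La) (a : Pn N p) (b : Pn N q) (c : Pn N s)
    (T : ∀ τ ∈ HH, Tri (La τ) (p τ) (q τ)) (o : ∀ τ ∈ HH, Ord (La τ) l (s τ)) :
    Mr N fun τ => NS l (s τ) (ln (La τ) (p τ) (q τ)) :=
  Mr.prod (f := fun (k : ℕ) τ => ln (La τ) (p τ) (q τ) (k * s τ)) fun k hk =>
    ln_TAN F a b (c.nat k) T fun τ h e => by
      have := Int.natCast_dvd_natCast.1 ((o τ h).dvd.1 (show ((k : ℤ) : ℂ) * _ ∈ _ by simpa using e))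
      have k1 := mem_Ico.1 hk
      exact absurd (Nat.le_of_dvd k1.1 this) (not_le.2 k1.2)

theorem rr_TAN (hF : LF_st) (F : Fm_TAN N La) (a : Pn N p) (b : Pn N q)
    (C : ∀ τ ∈ HH, Cf (La τ) (p τ) (q τ)) : Mr N fun τ => rr (La τ) (p τ) (q τ) :=
  (ln_TAN F a b (three_TAN a).neg (fun τ h => by simpa using (hF _ _ _ (C τ h)).1 0)
    fun τ h e => (C τ h).P0 (by simpa using e)).div (F _ (three_TAN a) fun τ h => (C τ h).P0).2
      fun τ h => a3_ne (C τ h).P3 (C τ h).P0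

theorem b_TAN (hF : LF_st) (F : Fm_TAN N La) (a : Pn N p) (b : Pn N q) (c : Pn N s)
    (C : ∀ τ ∈ HH, Cf (La τ) (p τ) (q τ)) (o : ∀ τ ∈ HH, Ord (La τ) l (s τ)) (i : Fin 3) :
    Mr N fun τ => be (rr (La τ) (p τ) (q τ)) i ^ l * NS l (s τ) (li (La τ) (p τ) (q τ) i) := by
  have r := rr_TAN hF F a b C
  refine (Mr.pow ?_ l).mul (NS_TAN F (a.add ((three_TAN a).nat i)) (b.add ((three_TAN a).nat i)) c
    (fun τ h => (hF _ _ _ (C τ h)).1 i) o)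
  fin_cases i
  exacts [.cst 1, r, (Mr.cst (-1)).sub r]

theorem v_TAN (v : Vv) {k : ℕ} (hk : k ≠ 0) (e : N = 9 * k) : Pn N (vx v) ∧ Pn N (vy v) :=
  ⟨Pn.of v.1 hk e, Pn.of v.2 hk e⟩

theorem MM_TAN (hB : LB_st) {v : Vv} (hv : FB v) (hN : N ≠ 0) (x : Pn N (vx v))
    (y : Pn N (vy v)) : Fm_TAN N fun τ => MM (Lt τ) (vx v τ) (vy v τ) :=
  rep_TAN hN (three_TAN (pu_TAN x y)) (fun τ h => (hB _ _ _ (hv τ h)).2.1)
    (fun τ h => (hB _ _ _ (hv τ h)).1.P3) fun τ h => (hB _ _ _ (hv τ h)).1.P0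

theorem AN_pf (hZ : LZ_st) (hF : LF_st) (hB : LB_st) : AN_st := by
  intro v hv
  have _ := hZ
  have H := fun τ h => hB _ _ _ (hv τ h)
  have n9 : (9 : ℕ) ≠ 0 := by norm_num
  obtain ⟨x, y⟩ := v_TAN (N := 9) v one_ne_zero rfl
  have W := (Lt_TAN n9 _ (three_TAN (pu_TAN x y)) fun τ h => (H τ h).1.P0)
  have c9 : (9 : ℝ) = (9 : ℕ) := by norm_num
  refine ⟨c9 ▸ rr_TAN hF (Lt_TAN n9) (pu_TAN x y) (qu_TAN x y) fun τ h => (H τ h).1,
    c9 ▸ rr_TAN hF (MM_TAN hB hv n9 x y) x y fun τ h => (H τ h).2.2.1,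
    c9 ▸ (((Mr.cst 6).mul (W.1.pow 2)).sub ((g2_Mr n9).div (.cst 2) fun _ _ => two_ne_zero)).div W.2
      fun τ h => a3_ne (H τ h).1.P3 (H τ h).1.P0, c9 ▸ W.2, fun l ρ hl h3 hρ => ?_⟩
  have nN : 9 * l ≠ 0 := mul_ne_zero n9 hl.ne_zero
  obtain ⟨x, y⟩ := v_TAN (N := 9 * l) v hl.ne_zero rfl
  have c : Pn (9 * l) fun τ => lin ρ τ / l := Pn.of ρ n9 (mul_comm _ _)
  have o : ∀ τ ∈ HH, Ord (Lt τ) l (lin ρ τ / l) := fun τ h => ⟨hl, by
    rw [mul_div_cancel₀ _ (Nat.cast_ne_zero.2 hl.ne_zero)]; exact lin_mem h ρ, fun e =>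
      hρ ((lin_div_mem h (Nat.cast_ne_zero.2 hl.ne_zero)).1 (by simpa using e))⟩
  have G := fun τ h => (H τ h).2.2.2.2.2.2.2 l _ h3 (o τ h)
  have F := MM_TAN hB hv nN x y
  have A := b_TAN hF (Lt_TAN nN) (pu_TAN x y) (qu_TAN x y) c (fun τ h => (H τ h).1) o
  have B := b_TAN hF F x y c (fun τ h => (H τ h).2.2.1) fun τ h => (G τ h).1
  have D := (NS_TAN (Lt_TAN nN) (mul_TAN x (-3) (by norm_num : (-3 : ℂ) = _))
    (mul_TAN y (-3) (by norm_num : (-3 : ℂ) = _)) c (fun τ h => (H τ h).2.2.2.1) o).mul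
      (NS_TAN F (pu_TAN x y) (qu_TAN x y) c (fun τ h => (H τ h).2.2.2.2.1) fun τ h => (G τ h).1)
  have n := fun τ h => mul_ne_zero ((G τ h).2.1 2) ((G τ h).2.2.1 2)
  exact ⟨o, A, B, D, ((A 0).mul (B 0)).div ((A 2).mul (B 2)) n, D.div ((A 2).mul (B 2)) n⟩

theorem pt_TAN {σ τ : ℂ} (hσ : σ ∈ HH) (hτ : τ ∈ HH) (a : Pn 9 z) (e : z σ ∈ (Lt σ).lattice) :
    z τ ∈ (Lt τ).lattice := by
  obtain ⟨p, a⟩ := a
  rw [a, lin_div_mem (by assumption) (by norm_num)] at e ⊢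
  exact e

theorem eq3_TAN {σ τ : ℂ} (k : ∀ z, Pn 9 z → z σ ∈ (La σ).lattice → z τ ∈ (La τ).lattice)
    (a : Pn 9 p) (b : Pn 9 q) (c : Pn 9 z) (e : Eq3 (La σ) (p σ) (q σ) (z σ)) :
    Eq3 (La τ) (p τ) (q τ) (z τ) :=
  e.imp (k _ (c.sub a)) (Or.imp (k _ (c.sub b)) (k _ ((c.add a).add b)))

theorem gam_TAN {γ : SL(2, ℤ)} (g : γ ∈ CongruenceSubgroup.Gamma 9) {τ : ℂ} (h : τ ∈ HH)
    (p : ℤ × ℤ) : lin (Un.act γ p) τ / 9 - lin p τ / 9 ∈ (Lt τ).lattice := by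
  obtain ⟨a, b, c, d⟩ := CongruenceSubgroup.Gamma_mem.1 g
  convert (lin_div_mem (p := Un.act γ p + -p) (N := (9 : ℕ)) h (by norm_num)).2
    ⟨(ZMod.intCast_zmod_eq_zero_iff_dvd _ 9).1 ?_, (ZMod.intCast_zmod_eq_zero_iff_dvd _ 9).1 ?_⟩
    using 1
  · rw [lin_add, lin_neg]
    push_cast
    ring
  · simp only [Un.act, Prod.fst_add, Prod.fst_neg]
    push_cast
    rw [a, c]
    ring
  · simp only [Un.act, Prod.snd_add, Prod.snd_neg]
    push_cast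
    rw [b, d]
    ring

theorem PT_pf (hB : LB_st) : PT_st := by
  intro v v' σ hσ b
  obtain ⟨x, y⟩ := v_TAN (N := 9) v one_ne_zero rfl
  obtain ⟨x', y'⟩ := v_TAN (N := 9) v' one_ne_zero rfl
  have X := three_TAN x
  have Y := three_TAN y
  have hv : FB v := fun τ h => ⟨pt_TAN hσ h (three_TAN X) b.P3, pt_TAN hσ h (three_TAN Y) b.Q3,
    fun e => b.P0 (pt_TAN h hσ X e), fun e => b.Q0 (pt_TAN h hσ Y e),
    fun e => b.ad (pt_TAN h hσ (Y.add X) e), fun e => b.sb (pt_TAN h hσ (Y.sub X) e)⟩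
  refine ⟨hv, fun c τ h => ?_, fun γ g τ h => ?_⟩
  · have k : ∀ z, Pn 9 z → z σ ∈ (MM (Lt σ) (vx v σ) (vy v σ)).lattice →
        z τ ∈ (MM (Lt τ) (vx v τ) (vy v τ)).lattice := fun z a e => by
      have t := three_TAN (pu_TAN x y)
      exact (rep3_mem (hB _ _ _ (hv τ h)).2.1).2 (((rep3_mem (hB _ _ _ b).2.1).1 e).imp
        (pt_TAN hσ h a) (Or.imp (pt_TAN hσ h (a.sub t)) (pt_TAN hσ h (a.add t))))
    have k0 := fun z => pt_TAN (z := z) hσ h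
    exact ⟨eq3_TAN k0 (pu_TAN x y) (qu_TAN x y) (pu_TAN x' y') c.hp,
      eq3_TAN k0 (pu_TAN x y) (qu_TAN x y) (qu_TAN x' y') c.hq,
      eq3_TAN (La := fun τ => MM (Lt τ) (vx v τ) (vy v τ)) k x y x' c.hx,
      eq3_TAN (La := fun τ => MM (Lt τ) (vx v τ) (vy v τ)) k x y y' c.hy⟩
  · have a : vx (av γ v) τ - vx v τ ∈ (Lt τ).lattice := gam_TAN g h v.1
    have b : vy (av γ v) τ - vy v τ ∈ (Lt τ).lattice := gam_TAN g h v.2
    have r := (hB _ _ _ (hv τ h)).2.1.le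
    refine ⟨.inl ?_, .inr (.inl ?_), .inl (r a), .inr (.inl (r b))⟩
    · convert add_mem a (add_mem b b) using 1
      simp only [pu]
      ring
    · convert neg_mem (add_mem b (add_mem a a)) using 1
      simp only [qu]
      ring

end Pool.Agent.MP_e23604_nt.M

end

section

/-!
The transformation laws on the family.
-/

set_option autoImplicit false

open Filter Topology Asymptotics Finset QuadraticAlgebra
open scoped MatrixGroups Classical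

namespace Pool.Agent.MP_e23604_nt.M

open B R S W Un

theorem sm_TEQ {κ : ℂ} {L L' : PeriodPair} {x y x' y' s s' : ℂ} {l : ℕ}
    (h : Sm κ L L' x y x' y' l s s') (h0 : κ ≠ 0) :
    oY L' x' y' l s' = oY L x y l s ∧ oR L' x' y' l s' = oR L x y l s := by
  simp only [oY, oR, h.a, h.b, h.d, mul_mul_mul_comm κ _ κ, sq,
    mul_div_mul_left _ _ (mul_ne_zero h0 h0), and_self]

theorem der_TEQ {F G : ℂ → ℂ} (e : ∀ τ ∈ HH, F τ = G τ) {τ : ℂ} (h : τ ∈ HH) :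
    deriv F τ = deriv G τ :=
  EventuallyEq.deriv_eq (eventually_of_mem (HH_open.mem_nhds h) e)

theorem fT_TEQ {l : ℕ} {v v' : Vv} {ρ ρ' : ℤ × ℤ}
    (e : ∀ τ ∈ HH, fn oY l v ρ τ = fn oY l v' ρ' τ ∧ fn oR l v ρ τ = fn oR l v' ρ' τ) {τ : ℂ}
    (h : τ ∈ HH) : fT l v ρ τ = fT l v' ρ' τ := by
  rw [fT, fT, (e τ h).2, der_TEQ (fun τ h => (e τ h).1) h]

theorem EQ_pf (hB : LB_st) (hS : LS_st) (hU : SU_st) (hA : AN_st) : EQ_st := by
  intro v l hv hl h3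
  have p3 : ∀ v, FB v → ∀ ρ ρ' : ℤ × ℤ, (l : ℤ) ∣ ρ.1 - ρ'.1 → (l : ℤ) ∣ ρ.2 - ρ'.2 → ∀ τ ∈ HH,
      fn oY l v ρ τ = fn oY l v ρ' τ ∧ fn oR l v ρ τ = fn oR l v ρ' τ := fun v hv ρ ρ' a b τ h => by
    have := sm_TEQ (((hS _ _ _ (hv τ h)).1 1 _ (vx v τ) (vy v τ) (Sc.of_eq rfl) (by simp)
      (by simp)).2.2.2.2 l (lin ρ τ / l) (lin ρ' τ / l) (by
        convert (lin_div_mem (p := ρ + -ρ') h (Nat.cast_ne_zero.2 hl.ne_zero)).2 ⟨a, b⟩ using 1
        rw [lin_add, lin_neg, Int.cast_natCast]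
        ring)) (by simp)
    exact ⟨this.1.symm, this.2.symm⟩
  refine ⟨fun γ => ?_, fun v' hv' hc => ?_, fun ρ hρ τ h => ⟨fun ρ' a b =>
    ⟨(p3 v hv ρ ρ' a b τ h).1, (p3 v hv ρ ρ' a b τ h).2, fT_TEQ (p3 v hv ρ ρ' a b) h⟩,
      fun j hj => fT_TEQ (fun τ h => ?_) h⟩⟩
  · have ex : ∀ τ ∈ HH, (γ 1 0 * τ + γ 1 1) * vx v (mob γ τ) = vx (av γ v) τ := fun τ h => by
      rw [vx, ← mul_div_assoc, lin_mob γ h]; rfl
    have ey : ∀ τ ∈ HH, (γ 1 0 * τ + γ 1 1) * vy v (mob γ τ) = vy (av γ v) τ := fun τ h => by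
      rw [vy, ← mul_div_assoc, lin_mob γ h]; rfl
    have k := fun τ h => (hS _ _ _ (hv _ (mob_HH γ h))).1 _ _ (vx (av γ v) τ) (vy (av γ v) τ)
      (Lt_sc γ h) (by rw [ex τ h, sub_self]; exact zero_mem _)
      (by rw [ey τ h, sub_self]; exact zero_mem _)
    have hv' : FB (av γ v) := fun τ h => (k τ h).1
    have k2 : ∀ ρ, ∀ τ ∈ HH, fn oY l v ρ (mob γ τ) = fn oY l (av γ v) (Un.act γ ρ) τ ∧
        fn oR l v ρ (mob γ τ) = fn oR l (av γ v) (Un.act γ ρ) τ := fun ρ τ h => by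
      have := sm_TEQ ((k τ h).2.2.2.2 l (lin ρ (mob γ τ) / l) (lin (Un.act γ ρ) τ / l) (by
        rw [← mul_div_assoc, lin_mob γ h, sub_self]; exact zero_mem _))
        (pow_ne_zero _ (inv_ne_zero (den_ne γ h)))
      exact ⟨this.1.symm, this.2.symm⟩
    refine ⟨hv', fun τ h => ?_⟩
    have j0 := den_ne γ h
    have e : (γ 1 0 * τ + γ 1 1) * (3 * pu (vx v (mob γ τ)) (vy v (mob γ τ))) -
        3 * pu (vx (av γ v) τ) (vy (av γ v) τ) ∈ (Lt τ).lattice := by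
      convert (Lt τ).lattice.zero_mem using 1
      rw [← ex τ h, ← ey τ h, pu, pu]
      ring
    have a1 : fm oa v (mob γ τ) = (γ 1 0 * τ + γ 1 1) * fm oa (av γ v) τ := by
      rw [fm, fm, oa, oa, (Lt_sc γ h).dA' e, mul_inv_cancel_left₀ j0]
    have a2 : fm oW v (mob γ τ) = (γ 1 0 * τ + γ 1 1) ^ 3 * fm oW (av γ v) τ := by
      rw [fm, fm, oW, oW, (Lt_sc γ h).q' e, inv_pow, mul_inv_cancel_left₀ (pow_ne_zero _ j0)]
    refine ⟨(k τ h).2.2.1.symm, (k τ h).2.2.2.1.symm, ?_, a1, a2, ?_, ?_, fun ρ _ => k2 ρ τ h⟩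
    · rw [fm, fm, oP, oP, (k τ h).2.2.1, (k τ h).2.2.2.1]
    · change fm oa v _ ^ 3 - 27 * fm oW v _ = _ * (fm oa _ τ ^ 3 - 27 * fm oW _ τ)
      rw [a1, a2]
      ring
    · rw [fS, fS, ← ((hU l (fun ρ => fT l (av γ v) ρ τ) hl).2 fun ρ ρ' _ a b =>
        fT_TEQ (p3 _ hv' ρ ρ' a b) h).1 γ, mul_sum]
      refine sum_congr rfl fun ρ hρ => ?_
      have d := (((hA v hv).2.2.2.2 l ρ hl h3 ((hU l 0 hl).1 ρ hρ)).2.2.2.2.1.cus.hol.differentiableAt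
        (HH_open.mem_nhds (mob_HH γ h))).hasDerivAt.comp τ (mob_der γ h)
      rw [fT, fT, ← der_TEQ (F := fn oY l v ρ ∘ mob γ) (fun τ h => (k2 ρ τ h).1) h, d.deriv,
        (k2 ρ τ h).2, ← mul_div_assoc, mul_left_comm, mul_inv_cancel₀ (pow_ne_zero _ j0), mul_one]
  · have k := fun τ h => (hS _ _ _ (hv τ h)).2.1 _ _ (hv' τ h) (hc τ h)
    have k2 : ∀ ρ, ∀ τ ∈ HH, fn oY l v' ρ τ = fn oY l v ρ τ ∧ fn oR l v' ρ τ = fn oR l v ρ τ :=
      fun ρ τ h => sm_TEQ ((k τ h).2.2.2 l _) one_ne_zero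
    intro τ h
    have e := (one_mul (3 * pu (vx v' τ) (vy v' τ))).symm ▸ (k τ h).1
    have a1 : fm oa v' τ = fm oa v τ := by
      rw [fm, fm, oa, oa, (Sc.of_eq rfl).dA' e, inv_one, one_mul]
    have a2 : fm oW v' τ = fm oW v τ := by
      rw [fm, fm, oW, oW, (Sc.of_eq rfl).q' e, inv_one, one_pow, one_mul]
    refine ⟨(k τ h).2.1, (k τ h).2.2.1, ?_, a1, a2, ?_,
      sum_congr rfl fun ρ _ => fT_TEQ (k2 ρ) h, fun ρ => k2 ρ τ h⟩
    · rw [fm, fm, oP, oP, (k τ h).2.1, (k τ h).2.2.1]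
    · change fm oa v' τ ^ 3 - 27 * fm oW v' τ = fm oa v τ ^ 3 - 27 * fm oW v τ
      rw [a1, a2]
  · simp only [fn, lin_smul, mul_div_assoc]
    exact sm_TEQ (((hB _ _ _ (hv τ h)).2.2.2.2.2.2.2 l _ h3
      (((hA v hv).2.2.2.2 l ρ hl h3 hρ).1 τ h)).2.2.2.2.2.2 j hj) one_ne_zero

end Pool.Agent.MP_e23604_nt.M

end

section

/-!
The sum over the neighbours vanishes at the hexagonal points.
-/

set_option autoImplicit false

open Filter Topology Asymptotics Finset QuadraticAlgebra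
open scoped MatrixGroups Classical

namespace Pool.Agent.MP_e23604_nt.M

open B R S W Un

variable {D E : Fin 3 → ℂ} {K : ℂ} {l : ℕ} {v : Vv} {τ : ℂ} {ρ : ℤ × ℤ}

theorem sv_THX (v : Vv) (τ : ℂ) :
    vx (sv v) τ = -2 * vx v τ ∧ vy (sv v) τ = -6 * vx v τ + 4 * vy v τ := by
  simp only [vx, vy, sv, lin_add, lin_smul]
  push_cast
  constructor <;> ring

theorem av_THX (γ : SL(2, ℤ)) (v : Vv) (hτ : τ ∈ HH) :
    (γ 1 0 * τ + γ 1 1 : ℂ) * vx v (mob γ τ) = vx (av γ v) τ ∧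
      (γ 1 0 * τ + γ 1 1 : ℂ) * vy v (mob γ τ) = vy (av γ v) τ := by
  simp only [vx, vy, av, ← lin_mob γ hτ, mul_div_assoc, and_self]

theorem nz_THX (h : ρ ∈ Il l) : Nz l ρ := fun ⟨a, b⟩ => by
  simp only [Il, mem_erase, mem_product, mem_Ico] at h
  exact h.1 (Prod.ext (Int.eq_zero_of_dvd_of_nonneg_of_lt h.2.1.1 h.2.1.2 a)
    (Int.eq_zero_of_dvd_of_nonneg_of_lt h.2.2.1 h.2.2.2 b))

theorem St.fb (h : St D E K l v) : FB v := fun τ hτ => (h.gd τ hτ).b9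

theorem St.ne3 (h : St D E K l v) : l ≠ 3 := by have := h.l3; omega

theorem St.sv_THX (hV : LV_st) (h : St D E K l v) : St D E K l (sv v) :=
  ⟨h.cD, h.cE, h.K0, h.pr, h.l3, fun τ hτ => by
    rw [(M.sv_THX v τ).1, (M.sv_THX v τ).2]
    exact (hV D E K l _ _ _ h.cD h.cE h.ne3 (h.gd τ hτ)).1⟩

/-- the effect of the shift on the factors -/
theorem sh_THX (hS : LS_st) (h : FB v) (hτ : τ ∈ HH) :
    (∀ i, be (fm rA v τ) 1 ^ l * fn (bA · · · · · i) l (sv v) ρ τ =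
      fn (bA · · · · · (i + 1)) l v ρ τ) ∧
    (∀ i, be (fm rB v τ) 2 ^ l * fn (bB · · · · · i) l (sv v) ρ τ =
      fn (bB · · · · · (i + 2)) l v ρ τ) ∧ fn nD l (sv v) ρ τ = fn nD l v ρ τ := by
  simp only [fm, fn, (sv_THX v τ).1, (sv_THX v τ).2]
  exact (hS _ _ _ (h τ hτ)).2.2.2.2.2.2.2.2 l _

/-- a Wronskian -/
noncomputable def Wr (A B : Fin 3 → ℂ → ℂ) (i j : Fin 3) (τ : ℂ) : ℂ :=
  deriv (fun σ => A i σ * B j σ / (A (i + 2) σ * B (j + 2) σ)) τ * (A (i + 2) τ * B (j + 2) τ) ^ 2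

theorem Wr_THX {A B A' B' : Fin 3 → ℂ → ℂ} {α β : ℂ → ℂ}
    (a : ∀ σ ∈ HH, ∀ i, α σ * A' i σ = A (i + 1) σ) (b : ∀ σ ∈ HH, ∀ i, β σ * B' i σ = B (i + 2) σ)
    (n : ∀ σ ∈ HH, α σ * β σ ≠ 0) (hτ : τ ∈ HH) (i j : Fin 3) :
    (α τ * β τ) ^ 2 * Wr A' B' i j τ = Wr A B (i + 1) (j + 2) τ := by
  rw [Wr, Wr, add_right_comm i, ← a τ hτ, ← b τ hτ (j + 2), EventuallyEq.deriv_eq
    (f := fun σ => A (i + 1) σ * B (j + 2) σ / (A (i + 2 + 1) σ * B (j + 2 + 2) σ))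
    (eventually_of_mem (HH_open.mem_nhds hτ) fun σ hσ => ?_)]
  · ring
  · rw [← mul_div_mul_left _ _ (n σ hσ)]
    simp only [← a σ hσ, ← b σ hσ]
    congr 1 <;> ring

theorem three_THX (hB : LB_st) (hS : LS_st) (hV : LV_st) (hD : DE_st) (hA : AN_st)
    (h : St D E K l v) (hρ : Nz l ρ) (hτ : τ ∈ HH) :
    fT l v ρ τ + (be (fm rA v τ) 1 * be (fm rB v τ) 2) ^ (2 * l) * (fT l (sv v) ρ τ +
      (be (fm rA (sv v) τ) 1 * be (fm rB (sv v) τ) 2) ^ (2 * l) * fT l (sv (sv v)) ρ τ) = 0 := by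
  obtain ⟨o, a, b, -⟩ := (hA v h.fb).2.2.2.2 l ρ h.pr h.ne3 hρ
  have n := fun w (h : St D E K l w) σ hσ =>
    (hB _ _ _ (h.fb σ hσ)).2.2.2.2.2.2.2 l _ h.ne3 (o σ hσ)
  have d := hD (fun i => fn (bA · · · · · i) l v ρ) (fun i => fn (bB · · · · · i) l v ρ) E h.cE
    (fun i => (a i).cus.hol) (fun i => (b i).cus.hol) (fun σ hσ => ⟨(n v h σ hσ).2.1,
      (n v h σ hσ).2.2.1, (n v h σ hσ).2.2.2.2.1, (n v h σ hσ).2.2.2.2.2.1,
      (h.gd σ hσ).f2 _ (o σ hσ)⟩) τ hτ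
  have s := fun w (h : St D E K l w) => Wr_THX (A := fun i => fn (bA · · · · · i) l w ρ)
    (B := fun i => fn (bB · · · · · i) l w ρ) (fun σ hσ => (sh_THX hS h.fb hσ).1)
    (fun σ hσ => (sh_THX hS h.fb hσ).2.1) (fun σ hσ => mul_ne_zero
      (left_ne_zero_of_mul (((sh_THX hS h.fb hσ).1 0).trans_ne ((n w h σ hσ).2.1 _)))
      (left_ne_zero_of_mul (((sh_THX hS h.fb hσ).2.1 0).trans_ne ((n w h σ hσ).2.2.1 _)))) hτ
  have t : ∀ w, St D E K l w → fT l w ρ τ * fn nD l w ρ τ ^ 2 =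
      Wr (fun i => fn (bA · · · · · i) l w ρ) (fun i => fn (bB · · · · · i) l w ρ) 0 0 τ :=
    fun w h => by
      have := (n w h τ hτ).2.2.2.1
      change deriv (fn oY l w ρ) τ / (nD _ _ _ _ _ / _) ^ 2 * nD _ _ _ _ _ ^ 2 =
        deriv (fn oY l w ρ) τ * (bA _ _ _ _ _ 2 * bB _ _ _ _ _ 2) ^ 2
      rw [div_pow, div_div_eq_mul_div, div_mul_cancel₀ _ (pow_ne_zero 2 this)]
  have h1 := h.sv_THX hV
  have t1 := t _ h1
  have t2 := t _ (h1.sv_THX hV)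
  rw [(sh_THX hS h1.fb hτ).2.2] at t2
  rw [(sh_THX hS h.fb hτ).2.2] at t1 t2
  refine mul_right_cancel₀ (pow_ne_zero 2 (show fn nD l v ρ τ ≠ 0 from (n v h τ hτ).2.2.2.1)) ?_
  change Wr (fun i => fn (bA · · · · · i) l v ρ) (fun i => fn (bB · · · · · i) l v ρ) 0 0 τ +
    Wr (fun i => fn (bA · · · · · i) l v ρ) (fun i => fn (bB · · · · · i) l v ρ) (0 + 1) (0 + 2) τ +
    Wr (fun i => fn (bA · · · · · i) l v ρ) (fun i => fn (bB · · · · · i) l v ρ) (0 + 1 + 1)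
      (0 + 2 + 2) τ = 0 at d
  rw [← s v h, ← s v h, ← s _ h1, ← t v h, ← t1, ← t2] at d
  linear_combination d

theorem HX_pf (hB : LB_st) (hS : LS_st) (hV : LV_st) (hH : LH_st) (hD : DE_st) (hA : AN_st)
    (hP : PT_st) (hE : EQ_st) : HX_st := fun D E K l v h => by
  refine ⟨h.sv_THX hV, fun γ => ⟨h.cD, h.cE, h.K0, h.pr, h.l3, fun τ hτ =>
    (hV D E K l _ _ _ h.cD h.cE h.ne3 (h.gd _ (mob_HH γ hτ))).2.1 _ _ _ _ (Lt_sc γ hτ)
      (by rw [(av_THX γ v hτ).1, sub_self]; exact zero_mem _)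
      (by rw [(av_THX γ v hτ).2, sub_self]; exact zero_mem _)⟩, fun τ hτ a0 => ?_⟩
  have g : (Lt τ).g₂ = 0 := by
    have T := (hB _ _ _ (h.fb τ hτ)).1
    have a := g2_eq T.P3 T.P0
    have b := flex T.P3 T.P0
    change dA _ (3 * pu (vx v τ) (vy v τ)) = 0 at a0
    rw [a0] at a b
    linear_combination a - wp (Lt τ) (3 * pu (vx v τ) (vy v τ)) * b
  have key : ∀ ζ : ℂ, ζ ^ 2 + ζ + 1 = 0 → ∀ w w', FB w → FB w' →
      Cg (Lt τ) (vx w' τ) (vy w' τ) (ζ * vx w τ) (ζ * vy w τ) → fS l w τ = ζ ^ 2 * fS l w' τ :=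
    fun ζ hζ w w' f f' c => by
      obtain ⟨γ, e1, e2⟩ := fix_Ell hζ hτ g
      obtain ⟨f1, f2⟩ := (hE w l f h.pr h.ne3).1 γ
      have a := av_THX γ w hτ
      have b := (f2 τ hτ).2.2.2.2.2.2.1
      rw [e1, e2] at a b
      rw [b, ((hE w' l f' h.pr h.ne3).2.1 _ f1 ((hP w' _ τ hτ (f' τ hτ)).2.1 (a.1 ▸ a.2 ▸ c))
        τ hτ).2.2.2.2.2.2.1]
  have V := fun w (h : St D E K l w) => (hV D E K l _ _ _ h.cD h.cE h.ne3 (h.gd τ hτ)).2.2.2.2
  by_cases r0 : fm rA v τ ^ 2 + fm rA v τ + 1 = 0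
  · have h1 := h.sv_THX hV
    have sc := sc_Ell r0 g
    have n0 : fm rA v τ ≠ 0 := sc.1
    have st : ∀ w, St D E K l w → fm oa w τ = 0 → fm rA w τ = fm rA v τ →
        fm oa (sv w) τ = 0 ∧ fm rA (sv w) τ = fm rA v τ ∧
        (be (fm rA w τ) 1 * be (fm rB w τ) 2) ^ (2 * l) = fm rA v τ ^ 2 ∧
        fS l w τ = fm rA v τ ^ 2 * fS l (sv w) τ := fun w k a r => by
      have r' : fm rB w τ = fm rA v τ ^ 2 := r ▸ (V w k).1 (by rwa [← r] at r0)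
      obtain ⟨-, -, -, s1, -, -, s2, -⟩ := hS _ _ _ (k.fb τ hτ)
      refine ⟨?_, ?_, ?_, key _ r0 _ _ k.fb (k.sv_THX hV).fb ?_⟩
      · simp only [fm, oa, (sv_THX w τ).1, (sv_THX w τ).2] at a ⊢
        rw [(Sc.of_eq rfl).dA' (t := 3 * pu (vx w τ) (vy w τ)) (by simpa using neg_mem s1), a,
          mul_zero]
      · rw [fm, (sv_THX w τ).1, (sv_THX w τ).2, s2]
        change -(fm rA w τ + 1) / fm rA w τ = _
        rw [r, div_eq_iff n0]
        linear_combination -r0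
      · obtain ⟨m, hm⟩ : ∃ m, l = 3 * m + 2 := ⟨l / 3, by have := h.l3; omega⟩
        have c3 : fm rA v τ ^ 3 = 1 := by linear_combination (fm rA v τ - 1) * r0
        rw [r, r', show be (fm rA v τ) 1 * be (fm rA v τ ^ 2) 2 = fm rA v τ ^ 2 by
          change fm rA v τ * (-1 - _) = _; linear_combination -fm rA v τ * r0,
          ← pow_mul, hm, show 2 * (2 * (3 * m + 2)) = 3 * (4 * m + 2) + 2 by ring, pow_add, pow_mul,
          c3, one_pow, one_mul]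
      · rw [(sv_THX w τ).1, (sv_THX w τ).2]
        exact (hH _ _ _ _ (k.fb τ hτ) r0 sc a).2 r r'
    obtain ⟨a1, r1, b1, c1⟩ := st v h a0 rfl
    obtain ⟨-, -, b2, c2⟩ := st _ h1 a1 r1
    have := sum_eq_zero fun ρ hρ => three_THX hB hS hV hD hA h (nz_THX hρ) hτ
    simp only [sum_add_distrib, ← mul_sum, b1, b2] at this
    change fS l v τ + _ * (fS l (sv v) τ + _ * fS l (sv (sv v)) τ) = 0 at this
    linear_combination this / 3 + 2 / 3 * c1 + fm rA v τ ^ 2 / 3 * c2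
  · have := key _ zc3_spec v v h.fb h.fb
      ((hH _ _ _ _ (h.fb τ hτ) zc3_spec (sc_Ell zc3_spec g) a0).1 r0 ((V v h).2.1 r0))
    linear_combination (2 + zc3 ^ 2) / 3 * this + fS l v τ * (zc3 ^ 2 - zc3 + 1) / 3 * zc3_spec

end Pool.Agent.MP_e23604_nt.M

end

section

/-!
The growth of the differential at the cusp.
-/

set_option autoImplicit false

open Filter Topology Asymptotics Finset QuadraticAlgebra
open scoped MatrixGroups Classical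

namespace Pool.Agent.MP_e23604_nt.M

open B R S W Un

theorem mob_TGR (n : ℕ) (τ : ℂ) : mob (Tn n) τ = τ + n ∧ (Tn n 1 0 * τ + Tn n 1 1 : ℂ) = 1 := by
  simp [mob, Tn]

theorem per_TGR (hE : EQ_st) {v : Vv} {l : ℕ} (fb : FB v) (lp : l.Prime) (l3 : l ≠ 3) {n : ℕ}
    (fc : FC v (av (Tn n) v)) {τ : ℂ} (hτ : τ ∈ HH) :
    fm rA v (τ + n) = fm rA v τ ∧ fm oP v (τ + n) = fm oP v τ ∧ fS l v (τ + n) = fS l v τ ∧
      (l ∣ n → ∀ ρ, Nz l ρ → fn oY l v ρ (τ + n) = fn oY l v ρ τ ∧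
        fn oR l v ρ (τ + n) = fn oR l v ρ τ) := by
  obtain ⟨e1, e2, e3⟩ := hE v l fb lp l3
  obtain ⟨f1, f2⟩ := e1 (Tn n)
  obtain ⟨a1, -, a3, -, -, -, a7, a8⟩ := f2 τ hτ
  obtain ⟨b1, -, b3, -, -, -, b7, b8⟩ := e2 _ f1 fc τ hτ
  rw [(mob_TGR n τ).1] at a1 a3 a7 a8
  rw [(mob_TGR n τ).2, one_pow, one_mul] at a7
  refine ⟨a1.trans b1, a3.trans b3, a7.trans b7, fun h ρ hρ => ?_⟩
  obtain ⟨c1, c2, -⟩ := (e3 ρ hρ τ hτ).1 (Un.act (Tn n) ρ) (by simp [Un.act, Tn])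
    (by simpa [Un.act, Tn] using (Int.natCast_dvd_natCast.2 h).mul_left _)
  exact ⟨(a8 ρ hρ).1.trans ((b8 _).1.trans c1.symm), (a8 ρ hρ).2.trans ((b8 _).2.trans c2.symm)⟩

theorem GR_pf (hB : LB_st) (hF : LF_st) (hV : LV_st) (hU : SU_st) (hO : OR_st) (hA : AN_st)
    (hC : CW_st) (hE : EQ_st) : GR_st := by
  intro D E K l v st
  have fb : FB v := fun τ hτ => (st.gd τ hτ).b9
  have l3 : l ≠ 3 := fun e => by have := st.l3; omega
  obtain ⟨nz, -, -, w, w0, fc, t1, t2⟩ := hC v fb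
  have w1 : (0 : ℝ) < w := by positivity
  have l1 : (0 : ℝ) < (9 * l : ℕ) := by have := st.pr.pos; positivity
  have per := fun n τ hτ => per_TGR hE fb st.pr l3 (fc n) (τ := τ) hτ
  have p1 := per 1
  rw [mul_one] at p1
  obtain ⟨m1, m2, -, -, m3⟩ := hA v fb
  have B := fun τ hτ => hB _ _ _ (fb τ hτ)
  have F := fun τ hτ => hF _ _ _ (B τ hτ).1
  have V := fun τ hτ => (hV D E K l _ _ _ st.cD st.cE l3 (st.gd τ hτ)).2.2
  have n0 : ∀ τ ∈ HH, fm oP v τ ≠ 0 := fun τ hτ => (B τ hτ).2.2.2.2.2.1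
  have n1 : ∀ τ ∈ HH, fm rA v τ ≠ 0 ∧ fm rA v τ + 1 ≠ 0 ∧ cu (fm rA v τ) ≠ 0 := fun τ hτ =>
    ⟨(F τ hτ).2.1, (F τ hτ).2.2.1, (B τ hτ).2.2.2.2.2.2.1⟩
  have e1 : ∀ τ ∈ HH, cu (fm rA v τ) ^ 3 * fm oW v τ =
      fm oV v τ * (fm rA v τ * (fm rA v τ + 1)) ^ 3 := fun τ hτ => (F τ hτ).2.2.2.2.2.1
  have mr : Mr w (fm rA v) := (hO 9 _ (by norm_num)).1 w w1 m1 ⟨m1.cus.hol, fun τ hτ => (p1 τ hτ).1⟩
  have cP : Cus w (fm oP v) := ⟨((m1.mul (m1.add (.cst 1))).mul (m2.mul (m2.add (.cst 1)))).cus.hol,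
    fun τ hτ => (p1 τ hτ).2.1⟩
  obtain ⟨k, tk⟩ := (hO w _ w1).2.2.2.1 mr n1 (t2.imp (fun t => EventuallyEq.trans_isTheta (by
      filter_upwards [ev_HH] with τ hτ
      obtain ⟨a, b, c⟩ := n1 τ hτ
      rw [div_pow, div_eq_div_iff (by simp [a, b]) (nz τ hτ).1, e1 τ hτ]) t)
    fun t => EventuallyEq.trans_isTheta (by
      filter_upwards [ev_HH] with τ hτ
      obtain ⟨a, b, c⟩ := n1 τ hτ
      rw [div_pow, div_eq_div_iff (by simp [c]) (nz τ hτ).2, mul_comm (fm oW v τ), e1 τ hτ,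
        mul_comm]) t)
  obtain ⟨a, ta⟩ := (hO w _ w1).2.1 ((Mr.cst (D 2)).sub ((Mr.cst (D 0)).mul mr))
    fun τ hτ => (V τ hτ).1
  have tP : fm oP v =Θ[Ii] fun τ => qq w τ ^ (3 * (k - a) + 1) := by
    refine (EventuallyEq.trans_isTheta ?_ (((isTheta_const_mul_left (c := (-9 : ℂ))
      (by norm_num)).2 tk).div (ta.pow 3))).trans_eventuallyEq (.of_forall fun τ => ?_)
    · filter_upwards [ev_HH] with τ hτ
      exact eq_div_of_mul_eq (pow_ne_zero 3 (V τ hτ).1) (V τ hτ).2.1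
    · simp only [← zpow_natCast, ← zpow_mul, ← zpow_sub₀ (qq_ne w τ)]
      congr 1
      push_cast
      ring
  obtain ⟨i, rfl⟩ : ∃ i, l = 3 * i + 2 := ⟨l / 3, by have := st.l3; omega⟩
  choose δ hδ using fun τ => IsAlgClosed.exists_pow_nat_eq (fm oP v τ) three_pos
  have T : ∀ ρ ∈ Il (3 * i + 2), DifferentiableOn ℂ (fT (3 * i + 2) v ρ) HH ∧
      Tendsto (fun τ => fT (3 * i + 2) v ρ τ / (fm oP v τ ^ (2 * i + 1) * δ τ)) Ii (𝓝 0) := by
    intro ρ hρ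
    obtain ⟨o, -, -, -, mY, mR⟩ := m3 _ ρ st.pr l3 ((hU _ 0 st.pr).1 ρ hρ)
    have Y := fun τ hτ => (V τ hτ).2.2.2.2 _ (o τ hτ)
    refine ⟨mY.cus.deriv.hol.div (mR.cus.hol.pow 2) fun τ hτ => pow_ne_zero 2 (Y τ hτ).2.2.1, ?_⟩
    have E0 : E 0 ≠ 0 ∧ E 2 ≠ 0 := ⟨fun e => by simpa [e] using st.cE.pr,
      fun e => by simpa [e] using st.cE.pr⟩
    have := (((Mr.cst (E 0 / E 2)).mul mY).ld l1 (fun τ hτ => (Y τ hτ).1)
      fun τ hτ => (Y τ hτ).2.1).const_mul ((9 * K / E 2 ^ 3) ^ 2 / (E 0 / E 2) ^ 3)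
    rw [mul_zero, ← isLittleO_one_iff ℂ] at this
    rw [← isLittleO_one_iff ℂ]
    refine IsLittleO.of_pow (n := 3) (this.congr' ?_ (.of_forall fun _ => by simp)) three_ne_zero
    filter_upwards [ev_HH] with τ hτ
    have y : E 0 / E 2 * fn oY _ v ρ τ * (E 0 / E 2 * fn oY _ v ρ τ + 1) = 9 * K / E 2 ^ 3 *
      fm oP v τ ^ (3 * i + 2) * fn oR _ v ρ τ ^ 3 := (Y τ hτ).2.2.2
    have r : fn oR _ v ρ τ ≠ 0 := (Y τ hτ).2.2.1
    have := n0 τ hτ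
    have := st.K0
    have := E0.1
    have := E0.2
    simp only [deriv_const_mul_field', Pi.pow_apply, y, fT, div_pow, mul_pow, hδ]
    field_simp
    ring
  have dS : DifferentiableOn ℂ (fS (3 * i + 2) v) HH := .fun_sum fun ρ hρ => (T ρ hρ).1
  refine ⟨dS, ?_, w, fun ρ hρ τ hτ => (per _ τ hτ).2.2.2 (dvd_mul_left _ _) ρ hρ, fun d dd hd => ?_⟩
  · have := (tendsto_finsetSum _ fun ρ hρ => (T ρ hρ).2).pow 3
    have := (hO w _ w1).2.2.2.2 _ _ (Cus.div ⟨dS, fun τ hτ => (p1 τ hτ).2.2.1⟩ (cP.pow (2 * i + 1))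
      fun τ hτ => pow_ne_zero _ (n0 τ hτ)) tP (by
        simpa only [sum_const_zero, zero_pow three_ne_zero, ← sum_div, div_pow, mul_pow, hδ,
          div_div, fS] using this)
    refine (Bd.div (((this.pow 3).congr_right fun τ => pow_right_comm _ _ _).trans
      (t1.pow 2).symm.isBigO)).congr fun τ _ => ?_
    simp only [div_pow, div_div]
    ring
  · have d0 : ∀ τ ∈ HH, d τ ≠ 0 := fun τ hτ e => n0 τ hτ (by
      have := hd τ hτ
      rw [e] at this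
      linear_combination -this / 9)
    obtain ⟨ζ, z, hz⟩ := root_shift (w := (w * (3 * i + 2) : ℕ)) dd d0 fun τ hτ => by
      rw [hd τ hτ, hd _ (add_HH hτ _)]
      exact congrArg _ (per _ τ hτ).2.1
    refine ⟨ζ, mul_left_cancel₀ (sub_ne_zero.2 fun e : ζ = 1 => ?_) (by linear_combination z), hz⟩
    have := (hO (w * (3 * i + 2) : ℕ) d (by positivity)).2.2.1 ((3 * i + 2 : ℕ) * (3 * (k - a) + 1))
      ⟨dd, by simpa [e] using hz⟩ ((EventuallyEq.trans_isTheta (ev_HH.mono hd)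
        ((isTheta_const_mul_left (by norm_num)).2 tP)).trans_eventuallyEq (.of_forall fun τ => by
          simp only [zpow_mul, zpow_natCast]
          rw [Nat.cast_mul, mul_comm (w : ℝ), qq_pow w1.ne' (by omega)]))
    rw [show ((3 * i + 2 : ℕ) : ℤ) * (3 * (k - a) + 1) = 3 * ((3 * i + 2) * (k - a) + i) + 2 by
      push_cast; ring] at this
    omega

end Pool.Agent.MP_e23604_nt.M

end

section

set_option autoImplicit false

open Filter Topology Asymptotics Finset QuadraticAlgebra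
open scoped MatrixGroups Classical

namespace Pool.Agent.MP_e23604_nt.M

open B R S W Un

theorem mod_TKC {P : Pt} (h : 9 • P = 0) {a b : ℕ} (e : a % 9 = b % 9) : a • P = b • P := by
  rw [nsmul_eq_mod_nsmul a h, e, ← nsmul_eq_mod_nsmul b h]

theorem KC_pf (hV : VV_st) : KC_st := by
  intro P n hP hn
  obtain ⟨-, g, h9, -⟩ := hV.2 P hP
  refine ⟨?_, fun m hm => ?_⟩
  · obtain ⟨-, -, q9, -, -, -, -, -, v1, -, v2, v3, -⟩ :=
      hV.2 _ (g (n ^ 2) fun e => hn (Nat.prime_three.dvd_of_dvd_pow e))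
    have e : ∀ a b : ℕ, (a * n ^ 2) • b • P = (a * b) • (n ^ 2) • P := fun a b => by
      rw [smul_smul, smul_smul]; congr 1; ring
    have d0 : dd n P = vv (7 • (n ^ 2) • P) - vv ((n ^ 2) • P) := by rw [dd, mul_smul]
    have d1 : dd n (4 • P) = vv ((n ^ 2) • P) - vv (4 • (n ^ 2) • P) := by
      rw [dd, e, mod_TKC q9 (a := 7 * 4) (b := 1) rfl, one_smul, smul_comm (n ^ 2)]
    have d2 : dd n (7 • P) = vv (4 • (n ^ 2) • P) - vv (7 • (n ^ 2) • P) := by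
      rw [dd, e, mod_TKC q9 (a := 7 * 7) (b := 4) rfl, smul_comm (n ^ 2)]
    have v4 : vv (7 • (n ^ 2) • P) = 2 - vv ((n ^ 2) • P) - vv ((n ^ 2) • P) ^ 2 := by
      linear_combination v2 - v3
    have v5 := congrArg eC v1
    rw [v4] at d0 d2
    rw [v3] at d1 d2
    generalize vv ((n ^ 2) • P) = x at *
    simp only [map_add, map_sub, map_mul, map_pow, map_ofNat, map_one, map_zero] at v5
    constructor <;> simp only [Dc, d0, d1, d2, map_sub, map_pow, map_ofNat, Matrix.cons_val]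
    · ring
    · linear_combination (2 * eC x ^ 3 + 3 * eC x ^ 2 - 9 * eC x - 7) * v5
    · linear_combination (-3 * eC x ^ 3 - 18 * eC x ^ 2 + 24) * v5
  · have e : ∀ R : Pt, 9 • R = 0 → dd (m * n) R = dd n R := fun R h => by
      have e2 : (m * n) ^ 2 % 9 = n ^ 2 % 9 := by
        rw [Nat.pow_mod, Nat.mul_mod, hm, one_mul, Nat.mod_mod, ← Nat.pow_mod]
      rw [dd, dd, mod_TKC h e2, mod_TKC h (a := 7 * _) (b := 7 * n ^ 2) (by omega)]
    rw [Dc, Dc, e P h9, e _ (by rw [smul_comm, h9, smul_zero]),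
      e _ (by rw [smul_comm, h9, smul_zero])]

theorem sub_TKC (z : ℂ) (k : ℤ) (P : Pt) : ue (z - k * lg P) = ue z - iC (k • P) := by
  rw [map_zsmul, ← ue_lg, ← zsmul_eq_mul]
  exact (map_sub uE _ _).trans (congrArg _ (map_zsmul uE _ _))

theorem KN_pf : KN_st := by
  intro C L l h a hl l3
  refine ⟨fun s o => ?_, fun S h1 h2 => ?_⟩
  · obtain ⟨T, hT, e⟩ := (a _).1 o.mem
    obtain ⟨S, -, b⟩ := ex_lg (n := cd C * l) (z := s) (Nat.mul_pos (cd_pos h.fin) hl.pos) (by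
      rw [← ue_eq_zero, Nat.cast_mul, mul_assoc, ue_nat, e, ← map_nsmul, h.smul hT, map_zero])
    have c : iC S = ue s := by rw [← ue_lg, ue_eq]; exact b
    refine ⟨S, ?_, fun k => o.nm ((a s).2 ⟨S, k, c.symm⟩), (a.rep h).1.le b⟩
    rwa [iC_inj (a₁ := l • S) (a₂ := T) (by rw [map_nsmul, c, ← ue_nat, e])]
  · have c := sup_cd h.fin hl h1 h2
    have f : ((C ⊔ AddSubgroup.zmultiples S : AddSubgroup Pt) : Set Pt).Finite :=
      Nat.finite_of_card_ne_zero (c ▸ (Nat.mul_pos hl.pos (cd_pos h.fin)).ne')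
    rw [← cd_card f] at c
    refine ⟨⟨f, fun e => ?_⟩, c, ⟨hl, (a _).2 ⟨_, h1, by rw [ue_nat, ue_lg, map_nsmul]⟩,
      a.lg.not.2 h2⟩, fun L' => forall_congr' fun z => iff_congr Iff.rfl ?_⟩
    · rw [c, Nat.prime_three.dvd_mul, Nat.prime_dvd_prime_iff_eq Nat.prime_three hl] at e
      exact e.elim (fun e => l3 e.symm) h.c3
    · simp only [a (z - _), sub_TKC, AddSubgroup.mem_sup, sub_eq_iff_eq_add, ← map_add]
      exact ⟨fun ⟨_, ⟨T, b, _, ⟨j, rfl⟩, rfl⟩, e⟩ => ⟨j, T, b, e⟩,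
        fun ⟨j, T, b, e⟩ => ⟨_, ⟨T, b, _, ⟨j, rfl⟩, rfl⟩, e⟩⟩

theorem z3_TKC (hG : MGAL_st) {C : AddSubgroup Pt} {P : Pt} (h : ND C) (hP : G9 P) {D f : Fin 3 → ℂ}
    {μ : ℂ} (c : Cs D) (m0 : μ ≠ 0) (e : ∀ i, mC3 C P i = μ * (D i * f i)) :
    ∑ i, D i * f i = 0 ∧ eC (mD C) ^ 3 = 9 * μ ^ 3 * ∏ i, f i := by
  obtain ⟨-, a, b⟩ := (hG C P h hP).1
  replace a := congrArg eC a
  replace b := congrArg eC b
  have e0 : eC (mE C P) = _ := e 0
  have e1 : eC (mE C (4 • P)) = _ := e 1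
  have e2 : eC (mE C (7 • P)) = _ := e 2
  simp only [map_add, map_mul, map_neg, map_pow, map_zero, e0, e1, e2] at a b
  rw [Fin.sum_univ_three, Fin.prod_univ_three]
  exact ⟨mul_left_cancel₀ m0 (by linear_combination b),
    by linear_combination a - μ ^ 3 * (f 0 * f 1 * f 2) * c.pr⟩

theorem KV_pf (hV : VV_st) (hG : MGAL_st) (hS : LS_st) (hC : KC_st) (hL : KL_st) (hN : KN_st) :
    KV_st := by
  intro C P L l h hP a hl l3
  obtain ⟨b9, μ, m0, e1, e2⟩ := hL C P L h hP a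
  obtain ⟨n1, n2⟩ := hN C L l h a hl l3
  obtain ⟨f0, p0⟩ := z3_TKC hG h hP (hC P _ hP h.c3).1 m0 e1
  have p1 : (eC (mD C) / μ) ^ 3 = 9 * oP L (zP P) (zc3 * zP P) := by
    rw [div_pow, p0, Fin.prod_univ_three, oP, div_eq_iff (pow_ne_zero _ m0)]
    simp only [be, Matrix.cons_val]
    ring
  have key : ∀ s, Ord L l s → ∑ i, Dc (l * cd C) P i *
      (bA L (zP P) (zc3 * zP P) l s i * bB L (zP P) (zc3 * zP P) l s i) = 0 ∧
      ∏ i, bA L (zP P) (zc3 * zP P) l s i * bB L (zP P) (zc3 * zP P) l s i =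
        Kl l * oP L (zP P) (zc3 * zP P) ^ l * nD L (zP P) (zc3 * zP P) l s ^ 3 := fun s o => by
    obtain ⟨S, h1, h2, h3⟩ := n1 s o
    obtain ⟨s1, s2, s3⟩ := ((hS L _ _ b9).1 1 L (zP P) (zc3 * zP P) (Sc.of_eq rfl) (by simp)
      (by simp)).2.2.2.2 l (lg S) s (by rwa [one_mul])
    obtain ⟨h', c', -⟩ := n2 S h1 h2
    obtain ⟨-, ν, n0, e3, e4⟩ := e2 l S hl l3 h1 h2
    obtain ⟨f2, p2⟩ := z3_TKC hG h' hP (hC P _ hP (c' ▸ h'.c3)).1 n0 e3
    simp only [inv_one, one_pow, one_mul] at s1 s2 s3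
    simp only [s1, s2, s3]
    refine ⟨f2, ?_⟩
    have e5 := congrArg (· ^ 3) e4
    simp only [mul_pow] at e5
    rw [pow_right_comm, pow_right_comm _ l, p1, p2, Odd.neg_pow (by decide : Odd 3), th_cube,
      mul_pow] at e5
    obtain ⟨m, rfl⟩ := Nat.exists_eq_add_one.2 hl.pos
    have t : (-3 : ℂ) ^ (m + 1 - 1) ≠ 0 := pow_ne_zero _ (by norm_num)
    rw [Kl, div_mul_eq_mul_div, div_mul_eq_mul_div, eq_div_iff t]
    refine mul_left_cancel₀ (mul_ne_zero (by norm_num : (9 : ℂ) ≠ 0) (pow_ne_zero 3 n0)) ?_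
    rw [Nat.add_sub_cancel, pow_succ (9 : ℂ)] at *
    linear_combination e5
  exact ⟨b9, f0, fun s o => (key s o).1, fun s o => (key s o).2⟩

end Pool.Agent.MP_e23604_nt.M

end
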