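import Pool.Agent.Mg.Fe23604m.G5be499
import Pool.Agent.Mg.Fe23604m.Gf509f6
import Pool.Agent.Mg.Fe23604m.G26a658
import Pool.Agent.Mg.Fe23604m.Gad4bd4
import Pool.Agent.Mg.Fe23604m.G7a6e34

set_option linter.all false

section

/-!
The Hecke relation at an inert prime.
-/

set_option autoImplicit false

open Finset QuadraticAlgebra
open scoped Classical

namespace Pool.Agent.MP_e23604_nt.Un

open B R S W

variable {L L' L'' : PeriodPair} {c u s z τ : ℂ} {l : ℕ} {p q r r' : ℤ × ℤ} {X Y Z : Finset ℂ}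
  {C : AddSubgroup Pt}

theorem ex_tau (L : PeriodPair) : ∃ τ ∈ HH, ∃ c, Sc c (Lt τ) L := by
  have i := LinearIndependent.pair_iff.1 L.indep
  have n : L.ω₂ ≠ 0 := fun e => one_ne_zero (i 0 1 (by simp [e])).2
  have k : ∀ ε : ℤ, ε * ε = 1 → ε * L.ω₁ / L.ω₂ ∈ HH → ∃ τ ∈ HH, ∃ c, Sc c (Lt τ) L :=
    fun ε e h => ⟨_, h, L.ω₂, n, fun z => by
      have e' : (ε * ε : ℂ) = 1 := by exact_mod_cast e
      rw [mem_Lt h, PeriodPair.mem_lattice]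
      refine ⟨fun ⟨a, b, f⟩ => ⟨(a * ε, b), mul_left_cancel₀ n ?_⟩,
        fun ⟨x, f⟩ => ⟨x.1 * ε, x.2, ?_⟩⟩ <;> simp only [← f, lin] <;> push_cast <;> field_simp
      linear_combination a * L.ω₁ * e'⟩
  rcases lt_trichotomy (L.ω₁ / L.ω₂).im 0 with a | a | a
  · exact k (-1) rfl (by simpa [neg_div] using a)
  · refine absurd (i 1 (-(L.ω₁ / L.ω₂).re) ?_).1 one_ne_zero
    have : ((L.ω₁ / L.ω₂).re : ℂ) = L.ω₁ / L.ω₂ := Complex.ext rfl a.symm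
    simp only [Complex.real_smul, Complex.ofReal_neg, this]
    simp [n]
  · exact k 1 rfl (by simpa using a)

theorem ex_sec (a : Sc c (Lt τ) L) (h : τ ∈ HH) (hl : l ≠ 0) (e : l * z ∈ L.lattice) :
    ∃ p, c * sec l p τ = z := by
  have := a.1
  obtain ⟨p, e⟩ := (mem_Lt h).1 ((a.2 (l * z / c)).1 (by rwa [mul_div_cancel₀ _ this]))
  exact ⟨p, mul_left_cancel₀ (Nat.cast_ne_zero.2 hl) (by
    rw [mul_left_comm, sec_mul hl, e, mul_div_cancel₀ _ this])⟩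

theorem ex_frame (T : Two L (3 * u) s) : ∃ τ ∈ HH, ∃ δ c, δ * δ = 1 ∧
    Iso c (Lt τ) L (sec 9 (3 * 0, 1) τ) (sec 3 (δ, 0) τ) u s := by
  obtain ⟨τ, h, c, a⟩ := ex_tau L
  obtain ⟨p, rfl⟩ := ex_sec a h three_ne_zero T.Q3
  obtain ⟨q, rfl⟩ := ex_sec (l := 9) (z := u) a h (by norm_num) (by convert T.P3 using 1; ring)
  rw [mul_left_comm] at T
  have T' : Two (Lt τ) (3 * sec 9 q τ) (sec 3 p τ) :=
    ⟨(a.2 _).1 (mul_left_comm 3 c _ ▸ T.P3), (a.2 _).1 (mul_left_comm 3 c _ ▸ T.Q3),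
      (a.2 _).not.1 T.P0, (a.2 _).not.1 T.Q0, (a.2 _).not.1 (mul_add c _ _ ▸ T.ad),
      (a.2 _).not.1 (mul_sub c _ _ ▸ T.sb)⟩
  have i : Iso c _ L _ _ (c * sec 9 q τ) (c * sec 3 p τ) := ⟨a, T', by simp, 0, by simp⟩
  obtain ⟨δ, d, e⟩ : ∃ δ, δ * δ = 1 ∧ 3 ∣ dt p q - δ := by
    have := (two_iff h).1 T'
    by_cases m : dt p q % 3 = 1
    exacts [⟨1, rfl, by omega⟩, ⟨-1, rfl, by omega⟩]
  obtain ⟨j, ε, n, e, k | k⟩ := orbit d e
  · exact ⟨_, mob_HH _ (mob_HH _ h), δ, _, d, ((iso_mob (sl 1 0 (3 * j) 1 (by simp)) (gA d 0 0)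
      (by simpa [act_sl] using Cg.rfl) (mob_HH _ h)).trans (iso_mob _ (gA d 0 j) k h)).trans i⟩
  · exact ⟨_, mob_HH _ (mob_HH _ h), δ, _, d, ((iso_mob (sl (δ * j) δ (-δ) 0 (by simpa using d))
      (gA d 0 0) (by simpa [act_sl, ← mul_assoc, d] using Cg.rfl) (mob_HH _ h)).trans
        (iso_mob _ (gB d j) k h)).trans i⟩

theorem Two.tr3 (T : Two L'' (3 * u) s) (h3 : 3 * (3 * u) ∈ L.lattice) (a : Rep L L' X)
    (b : Rep L' L'' Y) (e : Rep L L'' Z) (k : #Z = #Y * #X) :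
    oE L u s Z * oD L' u s ^ (2 * #Y) = oE L u s X ^ #Y * oE L' u s Y ∧
    oF L u s Z * oH L' u s ^ (2 * #Y) = oF L u s X ^ #Y * oF L' u s Y ∧
    oB L u s Z = oB L u s X ^ #Y * oB L' u s Y := by
  have n := T.negQ.nus
  rw [← sub_eq_add_neg] at n
  simp only [oE, oF, oB, k, a.KP_tr b e T.Q0, a.KP_tr b e T.ad, a.KP_tr b e T.P0,
    a.KQ_tr b e h3 T.P0 T.nu.1 T.nu.2.1 T.nu.2.2, a.KQ_tr b e h3 T.P0 n.1 n.2.1 n.2.2,
    a.KQ_tr b e h3 T.P0 T.Q0 T.ad T.sb]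
  refine ⟨?_, ?_, ?_⟩ <;> ring

theorem nb_link (h : ND C) (a : LC C L) (k l : ℕ) : ∃ ν, ∀ C' L' R, ND C' → cd C' = l * cd C →
    LC C' L' → Rep L L' (nb l R) → #(nb l R) = l →
      eC (nY k C') = hY L (lg (U9 k)) (lg S0) l R ∧
        eC (nX k C') = ν * hZ L (lg (U9 k)) (lg S0) l R := by
  obtain ⟨r, c⟩ := a.rep h
  have T := two0 k
  have T1 := T.up r c
  obtain ⟨μ, m, m0, m1, m2⟩ := T.tr_all r c
  have d0 := T1.oD_ne
  have d1 := T1.oH_ne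
  have d2 := T1.negQ.oH_ne
  have d3 := T.oD_ne
  have d4 := T.oB_ne r c
  have d5 := th_ne
  refine ⟨μ ^ l * (oD L (lg (U9 k)) (lg S0) * oH L (lg (U9 k)) (lg S0) *
    oH L (lg (U9 k)) (-lg S0)) ^ (2 * l / 3) * oD L (lg (U9 k)) (lg S0) /
      (oD L0 (lg (U9 k)) (lg S0) ^ (2 * (l * cd C)) * eC (cbr 3) ^ (2 * (l * cd C - 1)) *
        oB L0 (lg (U9 k)) (lg S0) (XC C) ^ l), fun C' L' R h' e a' b o => ?_⟩
  obtain ⟨r', c'⟩ := a'.rep h'
  have T2 := T.up r' c'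
  have kc : #(XC C') = #(nb l R) * #(XC C) := by rw [card_XC, card_XC, e, o]
  obtain ⟨t0, t1, t3⟩ := T2.tr3 T.P3 r b r' kc
  obtain ⟨-, t2, -⟩ := T2.negQ.tr3 T.P3 r b r' kc
  obtain ⟨l0, l1, l2, l3⟩ := link h' k
  have n := nN_ne k C'
  have f : ∀ {x y w v : ℂ}, v ≠ 0 → nN k C' * x = y → y * v ^ (2 * l) = (μ * v ^ 2) ^ l * w →
      x = μ ^ l / nN k C' * w := fun v0 a b => by
    rw [div_mul_eq_mul_div, eq_div_iff n, mul_comm, a]
    exact mul_right_cancel₀ (pow_ne_zero (2 * l) v0) (by rw [b]; ring)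
  rw [o] at t0 t1 t2 t3
  have n3 : (-3 : ℂ) ^ (cd C' - 1) ≠ 0 := pow_ne_zero _ (by norm_num)
  simp only [nY, nX, map_div₀, map_sub, map_mul, map_ofNat, map_neg, f d0 l0 (m0 ▸ t0),
    f d1 l1 (m1 ▸ t1), f d2 l2 (m2 ▸ t2), (eq_inv_mul_iff_mul_eq₀ n3).2 l3, t3, hY, hZ]
  rw [nN, ← e]
  constructor <;> field_simp

theorem T_gen (hl : l.Prime) (l3 : l % 3 = 2) (g : ¬ 3 ∣ dt p q) (h : τ ∈ HH) {j : ℤ}
    (hj : ¬ (l : ℤ) ∣ j) (n : ¬ dv l r) (e : dv l (j • r - r')) :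
    fT l p q r' τ = fT l p q r τ := by
  have k : ∀ σ ∈ HH, 1 * (j * sec l r σ) - sec l r' σ ∈ (Lt σ).lattice := fun σ h => by
    rwa [one_mul, ← sec_smul, ← sec_sub, sec_mem h hl.ne_zero]
  refine (T_of (M := id) hl l3 g h h (hasDerivAt_id τ) (iff_of_false (fun a =>
    ((ord_sec hl n h).gen hj).1.nm ?_) n) fun _ σ h => ?_).trans (one_mul _)
  · simpa using add_mem (k τ h) ((sec_mem h hl.ne_zero).2 a)
  · obtain ⟨a, b⟩ := YZ_gen l3 (ord_sec hl n h) hj (sec 9 q σ) (sec 3 p σ)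
    obtain ⟨a', b'⟩ := Iso.YZ ⟨.of_eq rfl, (two_iff h).2 g, (by simp : 1 * _ - sec 3 p σ ∈ _), 0,
      (by simp : _ - sec 9 q σ ∈ _)⟩ l3 ((ord_sec hl n h).gen hj).1 (k σ h)
    exact ⟨a'.trans a, b'.trans b⟩

theorem sum_T [NeZero l] (hl : l.Prime) (l3 : l % 3 = 2) (g : ¬ 3 ∣ dt p q) (h : τ ∈ HH)
    {X : Finset Pt} {r : Pt → ℤ × ℤ} (n : ∀ R ∈ X, ¬ dv l (r R)) (cX : #X = l + 1)
    (i : ∀ R ∈ X, ∀ R' ∈ X, ∀ a ∈ Ico 1 l, ∀ b ∈ Ico 1 l,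
      dv l ((a : ℤ) • r R - (b : ℤ) • r R') → R = R' ∧ a = b) :
    fG l p q τ = (l - 1 : ℕ) * ∑ R ∈ X, fT l p q (r R) τ := by
  have j : Set.InjOn (fun x : Pt × ℕ => red l ((x.2 : ℤ) • r x.1)) (X ×ˢ Ico 1 l : Finset _) :=
    fun x a y b e => Prod.ext_iff.2 (i _ (mem_product.1 a).1 _ (mem_product.1 b).1 _
      (mem_product.1 a).2 _ (mem_product.1 b).2 (red_eq.1 e.symm))
  have nd : ∀ a ∈ Ico 1 l, ¬ (l : ℤ) ∣ a := fun a ha e => by
    have := Nat.le_of_dvd (mem_Ico.1 ha).1 (by exact_mod_cast e)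
    have := (mem_Ico.1 ha).2
    omega
  have e : (X ×ˢ Ico 1 l).image (fun x : Pt × ℕ => red l ((x.2 : ℤ) • r x.1)) = univ.erase 0 :=
    eq_of_subset_of_card_le (fun ρ a => by
      obtain ⟨x, b, rfl⟩ := mem_image.1 a
      refine mem_erase.2 ⟨fun e => ?_, mem_univ _⟩
      have i : Complex.I ∈ HH := by simp
      have := (sec_mem i hl.ne_zero).2 (red_eq.1
        ((show red l 0 = 0 by simp [red]).trans e.symm))
      rw [sub_zero, sec_smul] at this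
      exact nd _ (mem_product.1 b).2 ((ord_sec hl (n _ (mem_product.1 b).1) i).dvd.1 this)) (by
        rw [card_image_of_injOn j, card_erase_of_mem (mem_univ _), card_product, cX]
        obtain ⟨m, rfl⟩ := Nat.exists_eq_add_one.2 hl.pos
        simp
        ring_nf
        omega)
  rw [fG, ← add_sum_erase _ _ (mem_univ 0), fT, if_pos (by simp [lft, dv]), zero_add, ← e,
    sum_image j, sum_product, mul_sum]
  refine sum_congr rfl fun R hR => (sum_congr rfl fun a ha => T_gen hl l3 g h (nd a ha) (n R hR)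
    (red_eq.1 (red_lft _))).trans (by simp)

theorem ue_sub (z : ℂ) (k : ℤ) (P : Pt) : ue (z - k * lg P) = ue z - iC (k • P) := by
  rw [map_zsmul, ← ue_lg, ← zsmul_eq_mul]
  exact (map_sub uE _ _).trans (congrArg _ (map_zsmul uE _ _))

theorem LC.comb (a : LC C L) (i j : ℤ) (P Q : Pt) :
    i * Un.lg P - j * Un.lg Q ∈ L.lattice ↔ i • P - j • Q ∈ C := by
  have : ue (i * Un.lg P) = iC (i • P) := by
    rw [map_zsmul, ← ue_lg, ← zsmul_eq_mul]; exact map_zsmul uE _ _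
  rw [a, ue_sub, this, ← map_sub]
  exact ⟨fun ⟨_, a, b⟩ => iC_inj b ▸ a, fun a => ⟨_, a, rfl⟩⟩

theorem wpow_pt {x y : Qb} (h : On 0 1 x y) (m : ℕ) : On 0 1 (w3 ^ m * x) y ∧
    (ω : Zw) ^ m • pt 0 1 x y = pt 0 1 (w3 ^ m * x) y := by
  induction m with
  | zero => simpa using h
  | succ m ih => rw [pow_succ', pow_succ', mul_smul, ih.2, mul_assoc]; exact ⟨on_w ih.1, w_pt ih.1⟩

theorem NTL_pf : NTL_st := fun k C l X h hl l3 hX => by
  have : NeZero l := ⟨hl.ne_zero⟩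
  obtain ⟨cX, hN, -⟩ := NPR_pf C l X h hl (by omega) hX
  obtain ⟨L, a⟩ := h.ex_LC
  obtain ⟨τ, hτ, δ, c, d, i⟩ := ex_frame ((two0 k).up (a.rep h).1 (a.rep h).2)
  have g := gA d 0 0
  have o : ∀ R ∈ X, Ord L l (lg R) := fun R hR => ⟨hl, by
    simpa using (a.comb l 0 R 0).2 (by simpa using (hX.1 R hR).1), a.lg.not.2 (hX.1 R hR).2⟩
  choose! r hr using fun R hR => ex_sec i.sc hτ hl.ne_zero (o R hR).mem
  have n : ∀ R ∈ X, ¬ dv l (r R) := fun R hR e => (o R hR).nm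
    (hr R hR ▸ (i.sc.2 _).2 ((sec_mem hτ hl.ne_zero).2 e))
  have s : ∀ σ ∈ HH, ∑ R ∈ X, fT l (δ, 0) (3 * 0, 1) (r R) σ = 0 := fun σ hσ => by
    refine (mul_eq_zero.1 ((sum_T hl l3 g hσ n cX fun R hR R' hR' m hm m' hm' e => ?_).symm.trans
      (G_zero d hl l3 hσ))).resolve_left (Nat.cast_ne_zero.2 (by omega))
    have e1 := (i.sc.2 _).2 ((sec_mem hτ hl.ne_zero).2 e)
    rw [sec_sub, sec_smul, sec_smul, mul_sub, mul_left_comm, mul_left_comm c, hr R hR,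
      hr R' hR'] at e1
    obtain rfl : R = R' := (hX.2 ((m : ℤ) • R) (by
      rw [smul_comm]; exact zsmul_mem (hX.1 R hR).1 _) fun e => by
        have := Nat.le_of_dvd (mem_Ico.1 hm).1 (Int.natCast_dvd_natCast.1 ((o R hR).dvd.1
          (by simpa using (a.comb m 0 R 0).2 (by simpa using e))))
        have := (mem_Ico.1 hm).2
        omega).unique ⟨hR, AddSubgroup.mem_sup_right ⟨m, rfl⟩⟩ ⟨hR', AddSubgroup.mem_sup.2
          ⟨_, (a.comb _ _ _ _).1 e1, _, ⟨m', rfl⟩, sub_add_cancel _ _⟩⟩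
    exact ⟨rfl, (o R hR).inj (mem_Ico.1 hm).2 (mem_Ico.1 hm').2 (by simpa using e1)⟩
  obtain ⟨ν, hν⟩ := nb_link h a k l
  obtain ⟨X0, x0, x1, ζ, z3, z1, x2⟩ := root_X d 0
  have xn : ∀ σ ∈ HH, X0 σ ≠ 0 := fun σ h e => (X_eq g h).2.1 (by rw [← x1, e]; ring)
  have v : ∀ R ∈ X, eC (nY k (C ⊔ AddSubgroup.zmultiples R)) = fY l (δ, 0) (3 * 0, 1) (r R) τ ∧
      eC (nX k (C ⊔ AddSubgroup.zmultiples R)) = ν * fZ l (δ, 0) (3 * 0, 1) (r R) τ := by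
    intro R hR
    obtain ⟨L', a'⟩ := (hN R hR).1.ex_LC
    obtain ⟨y, z⟩ := i.YZ l3 (ord_sec hl (n R hR) hτ) (R' := lg R) (by simp [hr R hR])
    rw [fY, fZ, ← y, ← z]
    refine hν _ L' _ (hN R hR).1 (hN R hR).2 a' ((o R hR).rep fun z => ?_) (o R hR).card
    simp only [a z, a' z, a (z - _), ue_sub, AddSubgroup.mem_sup, sub_eq_iff_eq_add, ← map_add]
    exact ⟨fun ⟨_, ⟨T, b, _, ⟨j, rfl⟩, rfl⟩, e⟩ => ⟨j, T, b, e⟩,
      fun ⟨j, T, b, e⟩ => ⟨_, ⟨T, b, _, ⟨j, rfl⟩, rfl⟩, e⟩⟩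
  have y := fun R hR σ hσ => ((two_iff (τ := σ) hσ).2 g).YZ l3 (ord_sec hl (n R hR) hσ)
  have on := fun R hR => (NON_pf k _ (hN R hR).1).1
  have e : ∀ R ∈ X, ∀ σ ∈ HH, fY l (δ, 0) (3 * 0, 1) (r R) σ ^ 2 + fY l (δ, 0) (3 * 0, 1) (r R) σ =
      (ν * X0 τ * fZ l (δ, 0) (3 * 0, 1) (r R) σ / X0 σ) ^ 3 := fun R hR σ hσ => by
    have e0 := onC.1 ((on R hR).map eC)
    obtain ⟨-, -, y0, y1, y2⟩ := y R hR τ hτ
    rw [(v R hR).1, (v R hR).2, mul_pow, fZ, y2, fY] at e0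
    have e1 : ν ^ 3 * (9 ^ (l - 1) * fX (δ, 0) (3 * 0, 1) τ) = 1 :=
      mul_right_cancel₀ (mul_ne_zero y0 y1) (by rw [fX]; linear_combination -e0)
    rw [div_pow, mul_pow, mul_pow, fZ, (y R hR σ hσ).2.2.2.2, x1, x1,
      eq_div_iff (X_eq g hσ).2.1, fY, fX]
    linear_combination -oX _ _ _ * (hY _ _ _ _ _ * (hY _ _ _ _ _ + 1)) * e1
  have m : ∀ R ∈ X, ∀ σ ∈ HH, ν * X0 τ * fZ l (δ, 0) (3 * 0, 1) (r R) σ / X0 σ ≠ 0 :=
    fun R hR σ hσ b => mul_ne_zero (y R hR σ hσ).2.2.1 (y R hR σ hσ).2.2.2.1 (by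
      have := e R hR σ hσ
      rw [b, fY] at this
      linear_combination this)
  have hs : ∀ n : ℕ, τ + ((3 * n : ℤ) : ℂ) ∈ HH := fun n => by simpa using hτ
  have K := loc_const (fun R hR => ((YZ_mr hl l3 g (n R hR)).2.cus.hol.const_mul _).fun_div x0 xn)
    (fun R hR => (YZ_mr hl l3 g (n R hR)).1.cus.hol) m e (fun σ hσ => by
      rw [← mul_zero (ν * X0 τ / X0 σ), ← s σ hσ, mul_sum]
      refine sum_congr rfl fun R hR => ?_
      have := m R hR σ hσ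
      rw [fT, if_neg (n R hR), mul_add_one, ← sq, e R hR σ hσ, ← mul_div_assoc,
        div_eq_div_iff (pow_ne_zero _ this) (pow_ne_zero _ this)]
      ring) (hs l) hτ
  have x3 : ∀ n : ℕ, X0 (τ + ((3 * n : ℤ) : ℂ)) = ζ ^ n * X0 τ := fun n => by
    induction n with
    | zero => simp
    | succ n ih => rw [pow_succ', mul_assoc, ← ih, ← x2 _ (hs n)]; congr 1; push_cast; ring
  obtain ⟨j, rfl, hj⟩ : ∃ j, ζ = zc3 ^ j ∧ w3 ^ j ≠ 1 := by
    have : (ζ - zc3 ^ 1) * (ζ - zc3 ^ 2) = 0 := mul_left_cancel₀ (sub_ne_zero.2 z1) (by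
      linear_combination z3 + (ζ - ζ ^ 2) * zc3_spec + (ζ - 1) * zc3_cube)
    rcases mul_eq_zero.1 this with b | b
    exacts [⟨1, sub_eq_zero.1 b, by simpa using w3_ne_one⟩, ⟨2, sub_eq_zero.1 b, w3_sq_ne.1⟩]
  have f : iC ((ω : Zw) ^ j • ∑ R ∈ X, ny k (C ⊔ AddSubgroup.zmultiples R)) =
      iC (∑ R ∈ X, ny k (C ⊔ AddSubgroup.zmultiples R)) := by
    rw [smul_sum, map_sum, map_sum]
    refine (sum_congr rfl fun R hR => ?_).trans (K.trans (sum_congr rfl fun R hR => ?_))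
    · obtain ⟨b1, b2⟩ := YZ_mob (r' := r R) hl l3 (up (ε := 1) rfl (3 * l)) g
        (p' := (δ, 0)) (q' := (3 * 0, 1)) ⟨by simp [up, act_sl, dv, mul_left_comm δ], 0,
          by simp [up, act_sl, dv]⟩ (by simp [up, act_sl, dv, ← mul_assoc]) (n R hR) hτ
      rw [(mob_up _ _ τ).1] at b1 b2
      rw [ny, (wpow_pt (on R hR) j).2, iC_pt (wpow_pt (on R hR) j).1, ← b1, ← b2, x3, map_mul,
        map_pow, (v R hR).1, (v R hR).2, ← zc3]
      congr 1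
      have := xn τ hτ
      have := zc3_ne
      rw [← Nat.div_add_mod l 3, pow_add, pow_mul, z3, l3]
      field_simp
      linear_combination ν * fZ _ _ _ _ _ * z3
    · have := xn τ hτ
      rw [ny, iC_pt (on R hR), (v R hR).1, (v R hR).2]
      congr 1
      field_simp
  have := congrArg xc (iC_inj f)
  rw [xc_wpow] at this
  exact (two_API _).2 ((mul_eq_zero.1 (by linear_combination this :
    (w3 ^ j - 1) * xc _ = 0)).resolve_left (sub_ne_zero.2 hj))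

end Pool.Agent.MP_e23604_nt.Un

end

section

/-!
The relations hold on the whole family.
-/

set_option autoImplicit false

open Filter Topology Asymptotics Finset QuadraticAlgebra
open scoped MatrixGroups Classical

namespace Pool.Agent.MP_e23604_nt.M

open B R S W Un

theorem mem_TKD {c τ z : ℂ} {L : PeriodPair} (a : Sc c (Lt τ) L) (h : τ ∈ HH) :
    z ∈ L.lattice ↔ ∃ i j : ℤ, z = c * (i * τ + j) := by
  have := a.1
  rw [← mul_div_cancel₀ z this, a.2, mem_Lt h]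
  exact ⟨fun ⟨p, e⟩ => ⟨p.1, p.2, by rw [← e, lin]⟩,
    fun ⟨i, j, e⟩ => ⟨(i, j), (mul_left_cancel₀ this e).symm⟩⟩

theorem nb_TKD (hN : KN_st) {C : AddSubgroup Pt} {L L' : PeriodPair} {m : ℕ} {c τ : ℂ}
    (ρ : ℤ × ℤ) (d : ND C) (e : LC C L) (p : m.Prime) (m3 : m ≠ 3) (a : Sc c (Lt τ) L)
    (h : τ ∈ HH) (z : Nz m ρ)
    (k : ∀ z, z ∈ L'.lattice ↔ ∃ k i j : ℤ, z - k * (c * (lin ρ τ / m)) = c * (i * τ + j)) :
    ∃ C', ND C' ∧ cd C' = m * cd C ∧ LC C' L' := by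
  have m0 : (m : ℂ) ≠ 0 := Nat.cast_ne_zero.2 p.ne_zero
  obtain ⟨n1, n2⟩ := hN C L m d e p m3
  obtain ⟨S, s1, s2, s3⟩ := n1 (c * (lin ρ τ / m)) ⟨p, by
    rw [mul_left_comm, mul_div_cancel₀ _ m0, a.2]; exact lin_mem h ρ, by
    rw [a.2]; exact (lin_div_mem (N := m) h (Nat.cast_ne_zero.2 p.ne_zero)).not.2 z⟩
  obtain ⟨b1, b2, -, b3⟩ := n2 S s1 s2
  refine ⟨_, b1, b2, (b3 L').2 fun w => (k w).trans (exists_congr fun t => ?_)⟩
  rw [← mem_TKD a h, ← L.lattice.sub_mem_iff_left (L.lattice.smul_mem t s3), zsmul_eq_mul]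
  exact iff_of_eq (by congr 1; ring)

theorem id_TKD {σ : ℂ} (h : σ ∈ HH) {F G : ℂ → ℂ} (f : DifferentiableOn ℂ F HH)
    (g : DifferentiableOn ℂ G HH)
    (e : ∀ m : ℕ, m.Prime → m % 9 = 1 → F (σ + 9 / m) = G (σ + 9 / m)) : ∀ τ ∈ HH, F τ = G τ := by
  refine (f.analyticOnNhd HH_open).eqOn_of_preconnected_of_frequently_eq
    (g.analyticOnNhd HH_open) HH_conn h (Tendsto.frequently (f := fun m : ℕ => σ + 9 / m)
      (l₁ := atTop) (tendsto_nhdsWithin_iff.2 ⟨?_, ?_⟩) (frequently_atTop.2 fun n => ?_))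
  · simpa using (tendsto_const_div_atTop_nhds_zero_nat (9 : ℂ)).const_add σ
  · filter_upwards [eventually_ne_atTop 0] with n hn using by simpa using hn
  · obtain ⟨m, p, a, b⟩ := Nat.exists_prime_gt_modEq_one (k := 9) n (by norm_num)
    exact ⟨m, a.le, e m p b⟩

theorem KD_pf (hB : LB_st) (hV : LV_st) (hA : AN_st) (hP : PT_st) (hC : KC_st) (hL : KL_st)
    (hN : KN_st) (hK : KV_st) : KD_st := by
  intro C P L l d g e p l3
  obtain ⟨σ, h, c, a⟩ := ex_tau L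
  have c0 := a.1
  have nl : ¬ 3 ∣ l * cd C := fun k => (Nat.prime_three.dvd_mul.1 k).elim
    (fun k => l3 ((Nat.prime_dvd_prime_iff_eq Nat.prime_three p).1 k).symm) d.c3
  obtain ⟨cD, eD⟩ := hC P _ g d.c3
  obtain ⟨cE, eE⟩ := hC P _ g nl
  have v0 := hK C P L l d g e p l3
  obtain ⟨i, j, ex⟩ := (mem_TKD a h).1 v0.b9.P3
  obtain ⟨i', j', ey⟩ := (mem_TKD a h).1 v0.b9.Q3
  set v : Vv := ((i, j), i', j')
  have fx : c * vx v σ = zP P := by simp only [vx, lin, v]; linear_combination -ex / 9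
  have fy : c * vy v σ = zc3 * zP P := by simp only [vy, lin, v]; linear_combination -ey / 9
  have fb : FB v := (hP v v σ h ((hV _ _ _ _ _ _ _ cD cE l3 v0).2.1 _ _ _ _ a.symm
    (by simp [← fx, c0]) (by rw [← fy]; simp [c0])).b9).1
  have hm : ∀ m : ℕ, σ + 9 / m ∈ HH := fun m => by simpa using add_HH h (9 / m)
  have key : ∀ m : ℕ, m.Prime → m % 9 = 1 → Lv (Dc (cd C) P) (Dc (l * cd C) P) (Kl l) l
      (Lt (σ + 9 / m)) (vx v (σ + 9 / m)) (vy v (σ + 9 / m)) := fun m q m9 => by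
    have m0 : (m : ℂ) ≠ 0 := Nat.cast_ne_zero.2 q.ne_zero
    have m3 : m ≠ 3 := by omega
    have h1 : m * σ ∈ HH := by simpa using mul_pos (Nat.cast_pos.2 q.pos) h
    have a1 := scl_sc _ (div_ne_zero c0 m0) (Lt (m * σ))
    have a2 := scl_sc _ (div_ne_zero c0 m0) (Lt (σ + 9 / m))
    obtain ⟨C1, d1, n1, e1⟩ := nb_TKD hN (0, 1) d e q m3 a h
      (fun k => q.ne_one (by exact_mod_cast Int.eq_one_of_dvd_one (by simp) k.2)) fun z => by
        rw [mem_TKD a1 h1]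
        exact ⟨fun ⟨x, y, k⟩ => ⟨y, x, 0, by simp only [k, lin]; push_cast; field_simp; ring⟩,
          fun ⟨t, x, y, k⟩ => ⟨x, t + m * y, by
            simp only [sub_eq_iff_eq_add.1 k, lin]; push_cast; field_simp; ring⟩⟩
    obtain ⟨C2, d2, n2, e2⟩ := nb_TKD hN (1, 9) d1 e1 q m3 a1 h1
      (fun k => q.ne_one (by exact_mod_cast Int.eq_one_of_dvd_one (by simp) k.1)) fun z => by
        rw [mem_TKD a2 (hm m)]
        exact ⟨fun ⟨x, y, k⟩ => ⟨x, 0, y, by simp only [k, lin]; push_cast; field_simp; ring⟩,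
          fun ⟨t, x, y, k⟩ => ⟨t + m * x, y - 9 * x, by
            simp only [sub_eq_iff_eq_add.1 k, lin]; push_cast; field_simp; ring⟩⟩
    have v2 := hK C2 P _ l d2 g e2 p l3
    have mm : m * m % 9 = 1 := by rw [Nat.mul_mod, m9]
    rw [n2, n1, ← mul_assoc m, mul_left_comm l, eD _ mm, eE _ mm] at v2
    obtain ⟨t, ht⟩ : ∃ t : ℤ, (m : ℂ) = 9 * t + 1 :=
      ⟨(m / 9 : ℕ), by exact_mod_cast (show m = 9 * (m / 9) + 1 by omega)⟩
    have k : ∀ r : ℤ × ℤ, (c / m)⁻¹ * (c * (lin r σ / 9)) - lin r (σ + 9 / m) / 9 ∈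
        (Lt (σ + 9 / m)).lattice := fun r => (mem_Lt (hm m)).2 ⟨(t * r.1, t * r.2 - r.1), by
      simp only [lin]; push_cast; field_simp; rw [ht]; ring⟩
    exact (hV _ _ _ _ _ _ _ cD cE l3 v2).2.1 _ _ _ _ a2.symm (fx ▸ k v.1) (fy ▸ k v.2)
  obtain ⟨rA', rB', -, -, an⟩ := hA v fb
  have hb : ∀ {F : ℂ → ℂ}, DifferentiableOn ℂ F HH → ∀ i,
      DifferentiableOn ℂ (fun τ => be (F τ) i) HH := fun f i => by
    fin_cases i <;> simp [be] <;> fun_prop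
  have od : ∀ τ ∈ HH, ∀ s, Ord (Lt τ) l s → ∃ ρ, Nz l ρ ∧ s = lin ρ τ / l := fun τ t s o => by
    obtain ⟨ρ, k⟩ := (mem_Lt t).1 o.mem
    have k' : s = lin ρ τ / l := by
      rw [k, mul_div_cancel_left₀ _ (Nat.cast_ne_zero.2 p.ne_zero)]
    exact ⟨ρ, (lin_div_mem (N := l) t (Nat.cast_ne_zero.2 p.ne_zero)).not.1 (k' ▸ o.nm), k'⟩
  refine ⟨σ, c, v, h, a, by simp [fx], by simp [fy], fun τ t => ⟨fb τ t, id_TKD h
    (.fun_sum fun i _ => ((hb rA'.cus.hol i).mul (hb rB'.cus.hol i)).const_mul _)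
    (differentiableOn_const 0) (fun m q m9 => (key m q m9).f0) τ t, fun s o => ?_, fun s o => ?_⟩⟩
  all_goals
    obtain ⟨ρ, z, rfl⟩ := od τ t s o
    obtain ⟨o', ba, bb, nd, -⟩ := an l ρ p l3 z
  · exact id_TKD h (.fun_sum fun i _ => ((ba i).cus.hol.mul (bb i).cus.hol).const_mul _)
      (differentiableOn_const 0) (fun m q m9 => (key m q m9).f2 _ (o' _ (hm m))) τ t
  · exact id_TKD h (.fun_finsetProd fun i _ => (ba i).cus.hol.mul (bb i).cus.hol)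
      (((((rA'.cus.hol.mul (rA'.cus.hol.add_const 1)).mul
        (rB'.cus.hol.mul (rB'.cus.hol.add_const 1))).pow l).const_mul _).mul (nd.cus.hol.pow 3))
      (fun m q m9 => (key m q m9).f3 _ (o' _ (hm m))) τ t

end Pool.Agent.MP_e23604_nt.M

end
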