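import Pool.Agent.Mg.Fe23604m.G8e6715
import Pool.Agent.Mg.Fe23604m.Gad4bd4

set_option linter.all false

section

/-!
The abscissae on the quotient curve as values of lattice functions.
-/

set_option autoImplicit false

open Finset QuadraticAlgebra
open scoped Classical

namespace Pool.Agent.MP_e23604_nt.Z

open B R S W Un

section link

variable {C : AddSubgroup Pt} {L : PeriodPair} {P Q T : Pt} {z w t : ℂ}

theorem ex_LC (h : (C : Set Pt).Finite) : ∃ L, LC C L := by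
  obtain ⟨L, e⟩ := ex_pair L0 (((C.map iC).comap uE).toIntSubmodule)
    (fun z hz => ⟨0, zero_mem _, (map_zero _).trans (ue_eq_zero.2 hz).symm⟩) (N := cd C)
    (Nat.cast_ne_zero.2 (cd_pos h).ne') (by
      rintro z ⟨T, hT, e⟩
      rw [← ue_eq_zero, ← nsmul_eq_mul]
      change uE _ = 0
      rw [map_nsmul, ← e, ← map_nsmul, cd_nsmul h hT, map_zero])
  exact ⟨L, fun z => by
    rw [e]; exact ⟨fun ⟨T, a, b⟩ => ⟨T, a, b.symm⟩, fun ⟨T, a, b⟩ => ⟨T, a, b.symm⟩⟩⟩

theorem LC_rep (l : LC C L) (h : (C : Set Pt).Finite) : Rep L0 L (XC C) := by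
  refine ⟨fun z hz => (l z).2 ⟨0, zero_mem _, (ue_eq_zero.2 hz).trans (map_zero _).symm⟩,
    fun x hx => ?_, fun y hy => ?_⟩
  · obtain ⟨T, hT, rfl⟩ := mem_image.1 hx
    exact l.lg.2 ((mem_els h).1 hT)
  · obtain ⟨T, hT, e⟩ := (l y).1 hy
    refine ⟨lg T, ⟨mem_image_of_mem _ ((mem_els h).2 hT), by rwa [← ue_eq, ue_lg]⟩, ?_⟩
    rintro _ ⟨a, b⟩
    obtain ⟨T', -, rfl⟩ := mem_image.1 a
    rw [← ue_eq, ue_lg, e] at b
    rw [iC_inj b]

theorem LC_mem (l : LC C L) (e : ue z = iC P) : z ∈ L.lattice ↔ P ∈ C := by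
  rw [l, e]
  exact ⟨fun ⟨_, a, b⟩ => iC_inj b ▸ a, fun a => ⟨P, a, rfl⟩⟩

theorem wp_ue (e : ue z = iC P) : wp L0 z = eC (xc P) := by
  rw [← lg_x, ← wp_per (ue_eq.1 ((ue_lg P).trans e.symm)), add_sub_cancel]

theorem ue_plus (e : ue z = iC P) (e' : ue w = iC Q) : ue (z + w) = iC (P + Q) := by
  rw [ue_add, e, e', map_add]

theorem ue_minus (e : ue z = iC P) (e' : ue w = iC Q) : ue (z - w) = iC (P - Q) := by
  rw [map_sub, ← e, ← e']
  exact map_sub uE z w

theorem ue_three (e : ue z = iC P) : ue (3 * z) = iC (3 • P) := by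
  rw [map_nsmul, ← e, ← ue_nat, Nat.cast_ofNat]

/-- the link between the sums and the lattice functions -/
theorem link_vX (l : LC C L) (h : (C : Set Pt).Finite) (et : ue t = iC T) (e : ue z = iC P) :
    eC (vX C T P) = wp L z - wp L t := by
  have r := LC_rep l h
  rw [r.wp_eq z, r.wp_eq t, XC, sum_image lg_inj.injOn, sum_image lg_inj.injOn, vX, map_sub,
    map_sum, map_sum, ← sum_sub_distrib, ← sum_sub_distrib]
  refine sum_congr rfl fun c _ => ?_
  rw [wp_ue (ue_plus e (ue_lg c)), wp_ue (ue_plus et (ue_lg c))]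
  ring

end link

section val

variable {L : PeriodPair} {u s : ℂ} {x y z v : Qb}

/-- the values of the symmetric functions -/
theorem val_of (h : Two L (3 * u) s) (hx : eC x = dX L (3 * u) s)
    (hy : eC y = dX L (3 * u) (s + 3 * u)) (hz : eC z = dX L (3 * u) (s - 3 * u))
    (hv : eC v = s3 (wp L) (3 * u) u - 3 * wp L (3 * u)) :
    eC (fa x y z) = wq L (3 * u) * dA L (3 * u) ∧ eC (fb x y z) = wq L (3 * u) * dB L (3 * u) s ∧
    eC (fc x y z v) = wq L (3 * u) * (3 * oG L (3 * u) u) ∧ Rel x y z v ∧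
    iC (fp x y z v) = pt 0 1 (cX L u s) (cY L u s) ∧ On 0 1 (cX L u s) (cY L u s) := by
  obtain ⟨e, p⟩ := h.par
  obtain ⟨g3, g2⟩ := (h.gam p).1
  obtain ⟨ex, e3⟩ := h.x_eq
  have he := p.he
  have ey := p.xp
  have ez := p.xm
  have abc := h.abc
  have b0 := h.b_ne
  have g0 := h.g_ne
  have w := zc3_spec
  rw [cX, cY]
  rw [← hv] at g2
  rw [← hx] at ex e3
  rw [← hy] at ey
  rw [← hz] at ez
  rw [← g3] at *
  generalize dA L (3 * u) = a at *
  generalize dB L (3 * u) s = b at *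
  generalize oG L (3 * u) u = γ at *
  have q0 : γ ^ 3 ≠ 0 := pow_ne_zero 3 g0
  have ba : b - a ≠ 0 := fun k => q0 (by rw [k] at e3; linear_combination e3 / 3)
  have yz : 3 * eC y * eC z = γ ^ 3 * (a - b) := by
    rw [ey, ez]; clear * - he abc; grind
  have e1 : eC x + eC y + eC z = -a ^ 2 / 3 := by
    rw [ex, ey, ez]; linear_combination -(b - a) * b / 9 * he
  have A : eC (fa x y z) = γ ^ 3 * a := by
    simp only [fa, map_add, map_mul]
    rw [ex, ey, ez]; clear * - he abc; grind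
  have B : eC (fb x y z) = γ ^ 3 * b := by
    simp only [fb, map_sub, map_mul, map_ofNat, A]
    linear_combination -yz
  have N : eC x * eC y * eC z = -(γ ^ 3) ^ 2 := mul_left_cancel₀ ba (by
    linear_combination (b - a) * eC x / 3 * yz + γ ^ 3 * (b - a) / 3 * e3)
  have U : eC x + eC y + eC z - eC v = -(a ^ 2 + a * (3 * γ) + (3 * γ) ^ 2) / 3 := by
    linear_combination e1 - g2
  have U0 : a ^ 2 + a * (3 * γ) + (3 * γ) ^ 2 ≠ 0 := fun k => pow_ne_zero 3 b0 (by
    linear_combination (a - 3 * γ) * k - abc)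
  have C : eC (fc x y z v) = γ ^ 3 * (3 * γ) := by
    simp only [fc, map_sub, map_mul, map_div₀, map_pow, map_ofNat, map_add, A, B, N, U]
    rw [sub_eq_iff_eq_add, ← sub_eq_iff_eq_add', eq_div_iff (mul_ne_zero (mul_ne_zero three_ne_zero
      (neg_ne_zero.2 (pow_ne_zero 2 q0))) (div_ne_zero (neg_ne_zero.2 U0) three_ne_zero))]
    linear_combination (γ ^ 3) ^ 3 * abc
  have O : On 0 1 (3 * γ / (b - a)) ((zc3 ^ 2 * b - zc3 * a) / (b - a)) := by
    rw [onC]
    field_simp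
    clear * - w abc
    grind
  have X : eC (fc x y z v / (fb x y z - fa x y z)) = 3 * γ / (b - a) := by
    rw [map_div₀, map_sub, A, B, C, ← mul_sub, mul_div_mul_left _ _ q0]
  have Y : eC ((w3 ^ 2 * fb x y z - w3 * fa x y z) / (fb x y z - fa x y z)) =
      (zc3 ^ 2 * b - zc3 * a) / (b - a) := by
    rw [map_div₀, map_sub, map_sub, map_mul, map_mul, map_pow, A, B, ← zc3]
    field_simp
  have O' : On 0 1 (fc x y z v / (fb x y z - fa x y z))
      ((w3 ^ 2 * fb x y z - w3 * fa x y z) / (fb x y z - fa x y z)) :=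
    on_iff.2 (eC.injective (by rw [map_add, map_pow, map_pow, X, Y]; exact onC.1 O))
  have N0 : x * y * z ≠ 0 := fun k => by
    rw [← map_mul, ← map_mul, k, map_zero] at N
    exact pow_ne_zero 2 q0 (neg_eq_zero.1 N.symm)
  refine ⟨A, B, C, ⟨left_ne_zero_of_mul (left_ne_zero_of_mul N0),
    right_ne_zero_of_mul (left_ne_zero_of_mul N0), right_ne_zero_of_mul N0, fun k => U0 ?_,
    eC.injective ?_, eC.injective ?_, eC.injective ?_, eC.injective ?_, O'⟩, ?_, O⟩
  · rw [← map_add, ← map_add, ← map_sub, k, map_zero] at U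
    linear_combination 3 * U
  · simp only [map_mul, map_pow, map_add, map_ofNat, A, N, e1]
    ring
  · simp only [map_mul, map_pow, map_sub, map_neg, map_ofNat, B, N]
    rw [ex, ey, ez]; clear * - he abc; grind
  · simp only [map_mul, map_pow, map_ofNat, C, N]
    ring
  · simp only [map_add, map_pow, A, B, C]
    linear_combination (γ ^ 3) ^ 3 * abc
  · rw [fp, fm, iC_pt O', X, Y]

end val

section on

variable {C : AddSubgroup Pt} {L : PeriodPair} {S R : Pt} {u s : ℂ}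

theorem DD.two (d : DD C S R) (l : LC C L) (eu : ue u = iC R) (es : ue s = iC S) :
    Two L (3 * u) s :=
  ⟨(LC_mem l (ue_three (ue_three eu))).2 (by rw [← mul_nsmul']; exact d.r9),
    (LC_mem l (ue_three es)).2 d.s3, (LC_mem l (ue_three eu)).not.2 d.r3, (LC_mem l es).not.2 d.s0,
    (LC_mem l (ue_plus es (ue_three eu))).not.2 d.s1,
    (LC_mem l (ue_minus es (ue_three eu))).not.2 d.s2⟩

/-- the point as a value of lattice functions -/
theorem DD.link (d : DD C S R) (l : LC C L) (eu : ue u = iC R) (es : ue s = iC S) :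
    Rel (vX C (3 • R) S) (vX C (3 • R) (S + 3 • R)) (vX C (3 • R) (S - 3 • R))
      (vX C (3 • R) R + vX C (3 • R) (R + 3 • R) + vX C (3 • R) (R - 3 • R)) ∧
    iC (Hp C S R) = pt 0 1 (cX L u s) (cY L u s) ∧ On 0 1 (cX L u s) (cY L u s) := by
  have t := ue_three eu
  refine (val_of (d.two l eu es) (link_vX l d.fin t es) (link_vX l d.fin t (ue_plus es t))
    (link_vX l d.fin t (ue_minus es t)) ?_).2.2.2
  rw [map_add, map_add, link_vX l d.fin t eu, link_vX l d.fin t (ue_plus eu t),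
    link_vX l d.fin t (ue_minus eu t), Un.s3]
  ring

theorem HON_pf : HON_st := fun _ S R d =>
  (d.link (ex_LC d.fin).choose_spec (ue_lg R) (ue_lg S)).1

theorem DD.ne (d : DD C S R) : Hp C S R ≠ 0 := pt_ne_zero G01 (HON_pf C S R d).on

theorem DD.xy (d : DD C S R) (l : LC C L) (eu : ue u = iC R) (es : ue s = iC S) :
    eC (xc (Hp C S R)) = cX L u s ∧ eC (yc (Hp C S R)) = cY L u s := by
  obtain ⟨-, a, b⟩ := d.link l eu es
  rw [(on_xy d.ne).2, iC_pt (on_xy d.ne).1] at a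
  exact pt_inj G01 ((on_xy d.ne).1.map eC) b a

end on

/-! ### The Galois action -/

theorem els_map {C : AddSubgroup Pt} (h : (C : Set Pt).Finite) (g : GQ) :
    els (C.map (gal g)) = (els C).image (gal g) := by
  ext T
  simp only [mem_image, mem_els h, mem_els (C := C.map (gal g)) (h.image _), AddSubgroup.mem_map]

theorem HGB_pf : HGB_st := fun C g h => by
  have v : ∀ T P, g (vX C T P) = vX (C.map (gal g)) (gal g T) (gal g P) := fun T P => by
    simp only [vX, els_map h, sum_image (gal_inj g).injOn, map_sub, map_sum, ← map_add,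
      (xc_gal g _).1]
  refine ⟨v, fun S R d => ?_⟩
  have m : ∀ P, gal g P ∈ C.map (gal g) ↔ P ∈ C := fun P =>
    AddSubgroup.mem_map_iff_mem (gal_inj g)
  have d' : DD (C.map (gal g)) (gal g S) (gal g R) := by
    refine ⟨h.image _, ?_, ?_, ?_, ?_, ?_, ?_⟩ <;>
      simp only [← map_nsmul, ← map_add, ← map_sub, m]
    exacts [d.r9, d.s3, d.r3, d.s0, d.s1, d.s2]
  have o := (HON_pf _ _ _ d).on
  have o' := (HON_pf _ _ _ d').on
  have ne : ∀ x y z, y ≠ 0 → z ≠ 0 → fb x y z - fa x y z ≠ 0 := fun x y z a b k =>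
    mul_ne_zero (mul_ne_zero three_ne_zero a) b (by rw [fb] at k; linear_combination -k)
  have n := ne (vX (C.map (gal g)) (3 • gal g R) (gal g S)) _ _ (HON_pf _ _ _ d').y0
    (HON_pf _ _ _ d').z0
  rw [Hp, Hp, fp, fp, fm, fm, gal_pt g o, pt_neg G01 o']
  simp only [← map_nsmul, ← map_add, ← map_sub, ← v] at n ⊢
  generalize vX C (3 • R) S = x at *
  generalize vX C (3 • R) (S + 3 • R) = y at *
  generalize vX C (3 • R) (S - 3 • R) = z at *
  generalize vX C (3 • R) R + vX C (3 • R) (R + 3 • R) + vX C (3 • R) (R - 3 • R) = u at *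
  have a : g (fa x y z) = fa (g x) (g y) (g z) := by simp [fa]
  have b : g (fb x y z) = fb (g x) (g y) (g z) := by simp [fb, a, map_ofNat]
  have c : g (fc x y z u) = fc (g x) (g y) (g z) (g u) := by simp [fc, a, b, map_ofNat]
  simp only [map_div₀, map_sub, map_mul, map_pow, a, b, c]
  refine ⟨d', fun k => by rw [mem_GK'.1 k], fun k => ?_⟩
  rw [not_mem_GK k]
  congr 1
  push_cast
  field_simp
  linear_combination ((w3 ^ 2 - w3 + 1) * fb (g x) (g y) (g z) - fa (g x) (g y) (g z)) * w3_spec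

theorem HGA_pf : HGA_st := fun C S R d g k =>
  ⟨((HGB_pf C g d.fin).2 S R d).1, ((HGB_pf C g d.fin).2 S R d).2.1 k⟩

end Pool.Agent.MP_e23604_nt.Z

end

section

/-!
The Hecke relation follows from its lattice form.
-/

set_option autoImplicit false

open Finset QuadraticAlgebra
open scoped Classical

namespace Pool.Agent.MP_e23604_nt.Z

open B R S W Un

variable {C D : AddSubgroup Pt} {S R T P : Pt} {l : ℕ}

theorem DD.up (d : DD C S R) (hD : (D : Set Pt).Finite) (le : C ≤ D) (l3 : l % 3 = 2)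
    (h : ∀ P ∈ D, l • P ∈ C) : DD D S R := by
  have k : ∀ P, 3 • P ∈ C → P ∉ C → P ∉ D := fun P a b c => b (by
    have := sub_mem (nsmul_mem a (l / 3 + 1)) (h P c)
    rwa [← mul_nsmul, show 3 * (l / 3 + 1) = l + 1 by omega, succ_nsmul, add_sub_cancel_left] at this)
  have r : 3 • 3 • R ∈ C := by rw [← mul_nsmul']; exact d.r9
  exact ⟨hD, le d.r9, le d.s3, k _ r d.r3, k _ d.s3 d.s0,
    k _ (by rw [nsmul_add]; exact add_mem d.s3 r) d.s1,
    k _ (by rw [nsmul_sub]; exact sub_mem d.s3 r) d.s2⟩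

theorem mem_lines (hl : l.Prime) {L : AddSubgroup Pt} :
    L ∈ Y.lines l ↔ ∃ T, l • T = 0 ∧ T ≠ 0 ∧ AddSubgroup.zmultiples T = L := by
  simp only [Y.lines, mem_image, mem_erase, mem_tor (Nat.cast_ne_zero.2 hl.ne_zero),
    Nat.cast_smul_eq_nsmul]
  exact ⟨fun ⟨T, ⟨a, b⟩, c⟩ => ⟨T, b, a, c⟩, fun ⟨T, b, a, c⟩ => ⟨T, ⟨a, b⟩, c⟩⟩

theorem mem_sup_line : P ∈ C ⊔ AddSubgroup.zmultiples T ↔ ∃ k : ℤ, P - k • T ∈ C := by
  rw [AddSubgroup.mem_sup]
  refine ⟨?_, fun ⟨k, a⟩ => ⟨_, a, _, ⟨k, rfl⟩, sub_add_cancel _ _⟩⟩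
  rintro ⟨c, a, _, ⟨k, rfl⟩, rfl⟩
  exact ⟨k, by simpa using a⟩

theorem DD.line (d : DD C S R) (hl : l.Prime) (l3 : l % 3 = 2) {L : AddSubgroup Pt}
    (h : L ∈ Y.lines l) : DD (C ⊔ L) S R := by
  obtain ⟨T, a, b, rfl⟩ := (mem_lines hl).1 h
  refine d.up ((d.fin.image2 (· + ·) (NC.card_line hl
    (by rwa [Nat.cast_smul_eq_nsmul]) b).1).subset fun P hP => ?_) le_sup_left l3 fun P hP => ?_
  · obtain ⟨x, hx, y, hy, e⟩ := AddSubgroup.mem_sup.1 hP
    exact ⟨x, hx, y, hy, e⟩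
  · obtain ⟨k, e⟩ := mem_sup_line.1 hP
    have := nsmul_mem e l
    rwa [nsmul_sub, smul_comm, a, smul_zero, sub_zero] at this

theorem line_eq (hl : l.Prime) {T' : Pt} (a : l • T = 0) (b : T ≠ 0) (a' : l • T' = 0)
    (b' : T' ≠ 0) (h : T ∈ AddSubgroup.zmultiples T') :
    AddSubgroup.zmultiples T' = AddSubgroup.zmultiples T := by
  have := Fact.mk hl
  have c : ∀ T : Pt, l • T = 0 → T ≠ 0 → Nat.card (AddSubgroup.zmultiples T) = l := fun T a b => by
    rw [Nat.card_zmultiples, addOrderOf_eq_prime a b]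
  have : Finite (AddSubgroup.zmultiples T') :=
    Nat.finite_of_card_ne_zero (c _ a' b' ▸ hl.ne_zero)
  exact (AddSubgroup.eq_of_le_of_card_ge (AddSubgroup.zmultiples_le_of_mem h)
    (by rw [c _ a b, c _ a' b'])).symm

theorem ue_int {z : ℂ} (e : ue z = iC P) (k : ℤ) : ue (k * z) = iC (k • P) := by
  rw [map_zsmul, ← e, ← zsmul_eq_mul]
  exact map_zsmul uE k z

theorem nbs_lines {L : PeriodPair} {M : AddSubgroup Pt → PeriodPair} (h : (C : Set Pt).Finite)
    (hl : l.Prime) (nl : ¬ l ∣ cd C) (c : LC C L) (m : ∀ D ∈ Y.lines l, LC (C ⊔ D) (M D)) :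
    Nbs L l (Y.lines l) M := by
  obtain ⟨i, j, ij⟩ : IsCoprime (cd C : ℤ) l :=
    Nat.isCoprime_iff_coprime.2 ((Nat.Prime.coprime_iff_not_dvd hl).2 nl).symm
  have dec : ∀ P : Pt, P - i • cd C • P = j • l • P := fun P => by
    rw [sub_eq_iff_eq_add, ← natCast_zsmul, ← natCast_zsmul, ← mul_zsmul, ← mul_zsmul, ← add_zsmul,
      add_comm, ij, one_zsmul]
  have un : ∀ {z : ℂ} {P : Pt}, ue z = iC P → ue (l * z) = iC (l • P) := fun e => by
    rw [ue_nat, e, map_nsmul]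
  refine ⟨fun D hD => ?_, fun z o => ?_⟩
  · obtain ⟨T, a, b, rfl⟩ := (mem_lines hl).1 hD
    refine ⟨lg T, ⟨hl, (LC_mem c (un (ue_lg T))).2 (a ▸ zero_mem _), fun e => b ?_⟩, fun z => ?_⟩
    · simpa [a, cd_nsmul h (c.lg.1 e)] using dec T
    · rw [m _ hD]
      refine ⟨fun ⟨P, p, e⟩ => ?_, fun ⟨k, e⟩ => ?_⟩
      · obtain ⟨k, p⟩ := mem_sup_line.1 p
        exact ⟨k, (LC_mem c (ue_minus e (ue_int (ue_lg T) k))).2 p⟩
      · obtain ⟨P, p, e⟩ := (c _).1 e
        exact ⟨P + k • T, mem_sup_line.2 ⟨k, by simpa using p⟩, by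
          simpa using ue_plus e (ue_int (ue_lg T) k)⟩
  · obtain ⟨Q, q, e⟩ := (c _).1 o.mem
    obtain ⟨P, -, p⟩ := ex_lg (z := z) (Nat.mul_pos (cd_pos h) hl.pos) (by
      rw [← ue_eq_zero, Nat.cast_mul, mul_assoc, ue_nat, e, ← map_nsmul, cd_nsmul h q, map_zero])
    have p' : ue z = iC P := by rw [← ue_lg, ue_eq.2 p]
    have lP : l • P ∈ C := (LC_mem c (un p')).1 o.mem
    have a : l • cd C • P = 0 := by rw [smul_comm, cd_nsmul h lP]
    have s : P ∈ C ⊔ AddSubgroup.zmultiples (cd C • P) :=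
      mem_sup_line.2 ⟨i, dec P ▸ zsmul_mem lP j⟩
    have b : cd C • P ≠ 0 := fun k => o.nm ((LC_mem c p').2 (by simpa [k] using s))
    have hD := (mem_lines hl).2 ⟨_, a, b, rfl⟩
    refine ⟨_, ⟨hD, (LC_mem (m _ hD) p').2 s⟩, fun D ⟨hD', s'⟩ => ?_⟩
    obtain ⟨k, t⟩ := by
      have := (LC_mem (m _ hD') p').1 s'
      exact AddSubgroup.mem_sup.1 this
    obtain ⟨T, a', b', rfl⟩ := (mem_lines hl).1 hD'
    obtain ⟨x, y, hy, rfl⟩ := t
    refine line_eq hl a b a' b' ?_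
    rw [nsmul_add, cd_nsmul h x, zero_add]
    exact nsmul_mem hy _

theorem HTL_of (H : LAT_st) : HTL_st := fun C S R l d hl l3 nl => by
  obtain ⟨L, c⟩ := ex_LC d.fin
  have : ∀ D, ∃ M, D ∈ Y.lines l → LC (C ⊔ D) M := fun D => by
    by_cases h : D ∈ Y.lines l
    · exact (ex_LC (d.line hl l3 h).fin).imp fun _ a _ => a
    · exact ⟨L, fun a => absurd a h⟩
  choose M m using this
  have e := H _ L l _ M (lg R) (lg S) hl l3 (d.two c (ue_lg R) (ue_lg S))
    (nbs_lines d.fin hl nl c m)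
  have w : (ω : Zw) • ∑ D ∈ Y.lines l, Hp (C ⊔ D) S R = ∑ D ∈ Y.lines l, Hp (C ⊔ D) S R := by
    refine iC_inj ?_
    rw [smul_sum, map_sum, map_sum]
    refine (sum_congr rfl fun D hD => ?_).trans (e.trans (sum_congr rfl fun D hD =>
      ((d.line hl l3 hD).link (m D hD) (ue_lg R) (ue_lg S)).2.1.symm))
    obtain ⟨o, a⟩ := on_xy (d.line hl l3 hD).ne
    obtain ⟨x, y⟩ := (d.line hl l3 hD).xy (m D hD) (ue_lg R) (ue_lg S)
    rw [a, w_pt o, iC_pt (on_w o), map_mul, x, y, zc3]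
  generalize ∑ D ∈ Y.lines l, Hp (C ⊔ D) S R = P at w
  rw [show pw = ω * ω + ω + 1 + (ω - ω * ω) by rw [pw]; decide, add_smul, sub_smul, mul_smul, w, w,
    sub_self, add_zero, show (ω * ω + ω + 1 : Zw) = 0 by decide, zero_smul]

end Pool.Agent.MP_e23604_nt.Z

end
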