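import Mathlib
import Pool.Agent.Mg.Fe23604m.G06f121

set_option linter.all false

/-! Cubic twists: the estimate for a fixed exponent function. -/

namespace Pool.Agent.MP_e23604_nt.T

open Finset Filter NumberField
open MP_f68ac8_nt (cyc IsFrob)
open MP_f68ac8_nt.Zv (Ex Prob piV Unf Bx)
open MP_f68ac8_nt.Zk (NS brL lk msk Av)
open MP_f68ac8_nt.Nd (Lr Fr Gz Exm fP kap np OKp)
open Q (Wn Pre rot0)
open scoped BigOperators Topology

theorem sp_mono_XMainT {B B' : ℕ → Prop} {ε : ℝ}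
    (h : ∀ n, ¬ 3 ∣ n → Squarefree n → B n → B' n) (hs : Sp B' ε) : Sp B ε := by
  classical
  unfold Sp at hs ⊢
  filter_upwards [hs] with X hX
  refine le_trans ?_ hX
  refine Nat.cast_le.2 (Finset.card_le_card ?_)
  intro n hn
  rw [Finset.mem_filter] at hn ⊢
  exact ⟨hn.1, hn.2.1, hn.2.2.1, h n hn.2.1 hn.2.2.1 hn.2.2.2⟩

open Classical in
/-- the restriction of an automorphism along an embedding, when it exists -/
noncomputable def res_XMainT {A V : Type} [AddCommGroup A] [AddCommGroup V] (ι : V →ₗ[ℤ] A)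
    (a : A ≃ₗ[ℤ] A) : V ≃ₗ[ℤ] V :=
  if h : ∃ b : V ≃ₗ[ℤ] V, ∀ y, ι (b y) = a (ι y) then h.choose else LinearEquiv.refl ℤ V

theorem res_eq_XMainT {A V : Type} [AddCommGroup A] [AddCommGroup V] {ι : V →ₗ[ℤ] A}
    (hι : Function.Injective ι) {a : A ≃ₗ[ℤ] A} {b : V ≃ₗ[ℤ] V} (hb : ∀ y, ι (b y) = a (ι y)) :
    b = res_XMainT ι a := by
  have h : ∃ b : V ≃ₗ[ℤ] V, ∀ y, ι (b y) = a (ι y) := ⟨b, hb⟩
  unfold res_XMainT
  rw [dif_pos h]
  ext y
  exact hι ((hb y).trans (h.choose_spec y).symm)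

end Pool.Agent.MP_e23604_nt.T
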