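import Mathlib
import Pool.Agent.Mg.Fe23604m.G06f121

set_option linter.all false

namespace Pool.Agent.MP_e23604_nt.T

open Finset Filter NumberField
open MP_f68ac8_nt (cyc IsFrob)
open MP_f68ac8_nt.Zv (Ex Prob piV Unf Bx)
open MP_f68ac8_nt.Zk (NS brL lk msk Av)
open MP_f68ac8_nt.Nd (Lr Fr Gz Exm fP kap np OKp)
open Q (Wn Pre rot0)
open scoped BigOperators Topology

theorem cover_XFinT {ι : Type} (I : Finset ι) (A : ι → Finset ℕ) (g : ι → ℕ → ℕ) (S E : Set ℕ)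
    (hE : E.Finite) (c : ℝ) (hA : ∀ i ∈ I, ((A i).card : ℝ) ≤ c)
    (h : ∀ D ∈ S, D ∉ E → ∃ i ∈ I, ∃ n ∈ A i, g i n = D) :
    (S.ncard : ℝ) ≤ E.ncard + I.card * c := by
  classical
  have h1 : S ⊆ E ∪ (I.biUnion fun i => (A i).image (g i) : Finset ℕ) := fun D hD => by
    by_cases hD' : D ∈ E
    · exact Or.inl hD'
    · obtain ⟨i, hi, n, hn, e⟩ := h D hD hD'
      exact Or.inr (mem_coe.2 (mem_biUnion.2 ⟨i, hi, mem_image.2 ⟨n, hn, e⟩⟩))
  have h2 := (Set.ncard_le_ncard h1 (hE.union (Finset.finite_toSet _))).trans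
    (Set.ncard_union_le _ _)
  rw [Set.ncard_coe_finset] at h2
  have h3 : (I.biUnion fun i => (A i).image (g i)).card ≤ ∑ i ∈ I, (A i).card :=
    card_biUnion_le.trans (sum_le_sum fun i _ => card_image_le)
  have h4 : ((∑ i ∈ I, (A i).card : ℕ) : ℝ) ≤ I.card * c := by
    rw [Nat.cast_sum, ← nsmul_eq_mul]
    exact sum_le_card_nsmul _ _ _ hA
  have h5 : (S.ncard : ℝ) ≤ ((E.ncard + ∑ i ∈ I, (A i).card : ℕ) : ℝ) :=
    Nat.cast_le.2 (h2.trans (Nat.add_le_add_left h3 _))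
  rw [Nat.cast_add] at h5
  linarith

end Pool.Agent.MP_e23604_nt.T
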