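import Mathlib
import Pool.Agent.Mg.Fe23604m.Gd7623c
import Pool.Agent.Mg.Fe23604m.G8de698
import Pool.Agent.Mg.Fe23604m.G02a399

set_option linter.all false

/-! The decomposition group at three and Kummer characters. -/

namespace Pool.Agent.MP_e23604_nt.T.Cv

open Finset Filter NumberField Polynomial B
open MP_f68ac8_nt
open MP_f68ac8_nt.Nd (Gz)
open MP_f68ac8_nt.Ev (KK proot proot_pow)
open scoped BigOperators Topology

theorem mem_P3 : ((3 : ℕ) : 𝓞 Qb) ∈ P3 := CS.cen_mem 3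

theorem max_P3 : P3.IsMaximal := CS.cen_max 3

theorem dp_nv {g : GQ} (hg : g ∈ DP P3) (x : Qb) : nv 3 1 (g x) = nv 3 1 x :=
  (CS.dc_iff 3 g).1 hg x

theorem inertia_le_DP {P : Ideal (𝓞 Qb)} {g : GQ} (hg : g ∈ P.inertia GQ) : g ∈ DP P := fun x =>
  ⟨fun h => by simpa using P.sub_mem h (hg x), fun h => by simpa using P.add_mem (hg x) h⟩

theorem inr_of_mem {P : Ideal (𝓞 Qb)} (hP : P.IsMaximal) (l : ℕ) [Fact l.Prime]
    (h : (l : 𝓞 Qb) ∈ P) : ∃ ρ : GQ, ∀ τ ∈ P.inertia GQ, Inr (nv l ρ) τ :=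
  CS.ex_inr l P hP h

theorem fix_loc {τ : GQ} (hτ : τ ∈ DP P3) {c : Qb} {a : ℚ_[3]}
    (h : emb ℚ_[3] c = algebraMap ℚ_[3] (PadicAlgCl 3) a) : τ c = c :=
  CS.dc_fix (l := 3) hτ h

theorem hensel3 {t u a : ℤ} (hu : ¬ 3 ∣ u) (ha : ¬ 3 ∣ a) (h : (3 : ℤ) ^ 3 ∣ u * a ^ 3 - t) :
    ∃ z : ℤ_[3], (u : ℤ_[3]) * z ^ 3 = t := by
  have h1 : ‖aeval (a : ℤ_[3]) (C u * X ^ 3 - C t : ℤ[X])‖ ≤ ((3 : ℕ) : ℝ) ^ (-(3 : ℕ) : ℤ) := by
    have h2 := (PadicInt.norm_int_le_pow_iff_dvd (p := 3) (n := 3)).2 h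
    simpa using h2
  have h2 : ‖aeval (a : ℤ_[3]) (derivative (C u * X ^ 3 - C t : ℤ[X]))‖ =
      ((3 : ℕ) : ℝ) ^ (-(1 : ℕ) : ℤ) := by
    have h3 : aeval (a : ℤ_[3]) (derivative (C u * X ^ 3 - C t : ℤ[X])) =
        ((3 : ℕ) : ℤ_[3]) ^ 1 * ((u * a ^ 2 : ℤ) : ℤ_[3]) := by
      rw [derivative_sub, derivative_C_mul_X_pow, derivative_C]
      simp [map_ofNat]
      ring
    rw [h3, norm_mul, PadicInt.norm_p_pow, PadicInt.norm_intCast_eq_one_iff.2, mul_one]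
    refine (Int.prime_three.coprime_iff_not_dvd.2 fun e => ?_).symm
    rcases Int.prime_three.dvd_or_dvd e with e | e
    exacts [hu e, ha (Int.prime_three.dvd_of_dvd_pow e)]
  obtain ⟨z, hz, -⟩ := hensels_lemma (F := (C u * X ^ 3 - C t : ℤ[X])) (a := (a : ℤ_[3]))
    (by rw [h2]; exact h1.trans_lt (by norm_num))
  exact ⟨z, sub_eq_zero.1 (by simpa using hz)⟩

theorem cube_loc {t u : ℤ} (hu : ¬ 3 ∣ u) (h : 9 ∣ t - u ∨ 9 ∣ t + u) :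
    ∃ c : Qb, c ^ 3 * u = t ∧ ∀ g ∈ DP P3, g c = c := by
  obtain ⟨z, hz⟩ : ∃ z : ℤ_[3], (u : ℤ_[3]) * z ^ 3 = t := by
    have h1 : ∃ a : ℤ, ¬ 3 ∣ a ∧ (3 : ℤ) ^ 3 ∣ u * a ^ 3 - t := by
      obtain ⟨w, hw⟩ : 3 ∣ u ^ 2 - 1 := by
        obtain ⟨j, rfl | rfl⟩ : ∃ j, u = 3 * j + 1 ∨ u = 3 * j + 2 := ⟨u / 3, by omega⟩
        exacts [⟨3 * j ^ 2 + 2 * j, by ring⟩, ⟨3 * j ^ 2 + 4 * j + 1, by ring⟩]
      rcases h with ⟨k, hk⟩ | ⟨k, hk⟩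
      · exact ⟨1 + 3 * (u * k), by omega, w * k + u ^ 3 * k ^ 2 + u ^ 4 * k ^ 3,
          by linear_combination 9 * k * hw - hk⟩
      · exact ⟨-1 + 3 * (u * k), by omega, w * k - u ^ 3 * k ^ 2 + u ^ 4 * k ^ 3,
          by linear_combination 9 * k * hw - hk⟩
    obtain ⟨a, a1, a2⟩ := h1
    exact hensel3 hu a1 a2
  have hz' : (u : ℚ_[3]) * (z : ℚ_[3]) ^ 3 = t := by
    exact_mod_cast congrArg (fun x : ℤ_[3] => (x : ℚ_[3])) hz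
  have hb : (u : PadicAlgCl 3) * algebraMap ℚ_[3] (PadicAlgCl 3) z ^ 3 = t := by
    simpa using congrArg (algebraMap ℚ_[3] (PadicAlgCl 3)) hz'
  have ht0 : (t : ℚ) ≠ 0 := Int.cast_ne_zero.2 fun h => by omega
  obtain ⟨c, hc⟩ := BLift_root 3 (g := C (u : ℚ) * X ^ 3 - C (t : ℚ))
    (fun h => ht0 (by simpa using congrArg (eval 0) h))
    (b := algebraMap ℚ_[3] (PadicAlgCl 3) z) (by simpa using sub_eq_zero.2 hb)
  refine ⟨c, (emb ℚ_[3]).injective ?_, fun g hg => fix_loc hg hc⟩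
  rw [map_mul, map_pow, hc, map_intCast, map_intCast, mul_comm]
  exact hb

theorem log9 (R : Finset ℕ) (e : ℕ → ZMod 3) (hR : ∀ l ∈ R, P0 l) :
    ((∏ l ∈ R, l ^ (e l).val : ℕ) : ZMod 9) = 2 ^ (∑ l ∈ R, e l * lm9 l).val ∨
    ((∏ l ∈ R, l ^ (e l).val : ℕ) : ZMod 9) = -2 ^ (∑ l ∈ R, e l * lm9 l).val := by
  have k1 : ∀ (x y : ZMod 9) (a c : ZMod 3), x * 3 ≠ 0 → (y = 2 ^ c.val ∨ y = -2 ^ c.val) →
      x ^ a.val * y = 2 ^ (a * lm9 x + c).val ∨ x ^ a.val * y = -2 ^ (a * lm9 x + c).val := by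
    decide
  induction R using Finset.induction_on with
  | empty => exact Or.inl (by simp)
  | insert l R hl ih =>
    rw [prod_insert hl, sum_insert hl, Nat.cast_mul, Nat.cast_pow]
    refine k1 _ _ _ _ (fun h => ?_) (ih fun m hm => hR m (mem_insert_of_mem hm))
    obtain ⟨h1, h2⟩ := hR l (mem_insert_self _ _)
    have h3 : 9 ∣ l * 3 := (ZMod.natCast_eq_zero_iff _ _).1 (by exact_mod_cast h)
    exact h2 ((Nat.prime_dvd_prime_iff_eq Nat.prime_three h1).1 (by omega)).symm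

theorem kk_unr {m : ℕ} {P : Ideal (𝓞 Qb)} (hP : P.IsMaximal) (h1 : ((3 : ℕ) : 𝓞 Qb) ∉ P ∨ m = 3)
    (h2 : (m : 𝓞 Qb) ∉ P) {g : GQ} (hg : g ∈ P.inertia GQ) : kk m g = 0 := by
  have h1 : ((3 : ℕ) : 𝓞 Qb) ∉ P := h1.elim id fun e => e ▸ h2
  have hm0 : (m : Qb) ≠ 0 := Nat.cast_ne_zero.2 fun e => h2 (by simp [e])
  have hy := proot_pow 3 (m : Qb)
  have hs := Ev.spec_EvKK (p := 3) hm0 (g := g) (map_natCast g m)
  have hζ1 : (Ev.xi 3 ^ (KK 3 m g).val) ^ 3 = 1 := by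
    rw [pow_right_comm, xi_spec.pow_eq_one, one_pow]
  let Y : 𝓞 Qb := ⟨_, IsIntegral.of_pow three_pos (by rw [hy]; exact isIntegral_natCast m)⟩
  let Z : 𝓞 Qb := ⟨_, isIntegral_of_pow_eq_one hζ1⟩
  have hY : Y ^ 3 = m := RingOfIntegers.ext (by simpa [Y] using hy)
  have hZ : Z ^ 3 = 1 := RingOfIntegers.ext (by simpa [Z] using hζ1)
  have e : g • Y = Z * Y := RingOfIntegers.ext hs
  have h3 : (Z - 1) * Y ∈ P := by
    have := hg Y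
    rw [e] at this
    rwa [sub_mul, one_mul]
  have h4 : Z - 1 ∈ P := (hP.isPrime.mem_or_mem h3).resolve_right fun h =>
    h2 (hY ▸ P.pow_mem_of_mem h 3 three_pos)
  have h5 := congrArg (fun z : 𝓞 Qb => (z : Qb)) (root_eq_of_sub_mem h1 hZ (one_pow 3) h4)
  exact ex_inj (p := 3) xi_spec (h5.trans (pow_zero _).symm)

theorem kd_spec (R : Finset ℕ) (e : ℕ → ZMod 3) (β : ZMod 3) (hR : ∀ l ∈ R, P0 l) {δ : Qb}
    (hδ : δ ^ 3 = (3 ^ β.val * ∏ l ∈ R, l ^ (e l).val : ℕ)) {g : GQ} (hg : g ∈ Gz 3) :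
    g δ / δ = Ev.xi 3 ^ (kD R e β g).val := by
  have k1 : ∀ (l : ℕ) (a : ZMod 3), l ≠ 0 → KK 3 ((l ^ a.val : ℕ) : Qb) g = a * kk l g :=
    fun l a hl => by
      have := Ev.zpow_EvKK (p := 3) (Nat.cast_ne_zero.2 hl) (map_natCast g l) hg a.val
      rwa [zpow_natCast, Int.cast_natCast, ZMod.natCast_zmod_val, ← Nat.cast_pow] at this
  have k2 : ∀ a b : ℕ, a ≠ 0 → b ≠ 0 → KK 3 ((a * b : ℕ) : Qb) g = KK 3 a g + KK 3 b g :=
    fun a b ha hb => by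
      rw [Nat.cast_mul]
      exact Ev.mul_EvKK (Nat.cast_ne_zero.2 ha) (Nat.cast_ne_zero.2 hb) (map_natCast g a)
        (map_natCast g b) hg
  have k3 : ∀ S : Finset ℕ, (∀ l ∈ S, P0 l) → ∏ l ∈ S, l ^ (e l).val ≠ 0 := fun S hS =>
    prod_ne_zero_iff.2 fun l hl => pow_ne_zero _ (hS l hl).1.ne_zero
  have k4 : ∀ S : Finset ℕ, (∀ l ∈ S, P0 l) →
      KK 3 ((∏ l ∈ S, l ^ (e l).val : ℕ) : Qb) g = ∑ l ∈ S, e l * kk l g := fun S hS => by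
    induction S using Finset.induction_on with
    | empty => simpa using Ev.unit_EvKK (p := 3) hg
    | insert l S hl ih =>
      have a := fun m hm => hS m (mem_insert_of_mem hm)
      have b := (hS l (mem_insert_self _ _)).1.ne_zero
      rw [prod_insert hl, sum_insert hl, k2 _ _ (pow_ne_zero _ b) (k3 S a), k1 _ _ b, ih a]
  have h0 : 3 ^ β.val * ∏ l ∈ R, l ^ (e l).val ≠ 0 := mul_ne_zero (by positivity) (k3 R hR)
  have h1 := Ev.root_ne_EvKK (p := 3) (Nat.cast_ne_zero.2 h0) hδ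
  rw [kap_spec (p := 3) h1 (by rw [hδ, map_natCast]), mul_div_cancel_right₀ _ h1,
    Ev.one_EvKK (Nat.cast_ne_zero.2 h0) hδ hg, k2 _ _ (by positivity) (k3 R hR),
    k1 _ _ three_ne_zero, k4 R hR, kD]

theorem nine_move : ∃ g ∈ P3.inertia GQ, ∀ z : Qb, z ^ 9 = 1 → g z = z ^ 4 := by
  have := max_P3
  have h1 : ((P3.inertia GQ).map (cyc 9)).comap (cyc (Ω := Qb) 9) = ⊤ := by
    refine eq_top_of_open _ (Filter.mem_of_superset (cyc_nhds 9) fun g hg => ?_) fun P' _ g hg => ?_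
    · rw [SetLike.mem_coe, Subgroup.mem_comap, hg]
      exact one_mem _
    · rw [Subgroup.mem_comap]
      by_cases h' : ((3 : ℕ) : 𝓞 Qb) ∈ P'
      · obtain ⟨a, ha⟩ := exists_conj Nat.prime_three mem_P3 h'
        refine ⟨_, ha g hg, ?_⟩
        rw [map_mul, map_mul, map_inv, mul_right_comm, inv_mul_cancel, one_mul]
      · rw [cyc_inertia (n := 9) (fun e => h' (‹P'.IsMaximal›.isPrime.mem_of_pow_mem 2
          (by rwa [← Nat.cast_pow]))) hg]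
        exact one_mem _
  obtain ⟨g, hg⟩ := cyc_surj (Ω := Qb) 9 (ZMod.unitOfCoprime 4 (by norm_num))
  obtain ⟨τ, t1, t2⟩ : g ∈ ((P3.inertia GQ).map (cyc 9)).comap (cyc (Ω := Qb) 9) :=
    h1 ▸ Subgroup.mem_top g
  refine ⟨τ, t1, fun z hz => ?_⟩
  rw [cyc_spec 9 τ hz, t2, hg]
  rfl

end Pool.Agent.MP_e23604_nt.T.Cv
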