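import Pool.Agent.Mg.Fe23604m.G8de698
import Pool.Agent.MP_e23604_nt.Curve
import Pool.Agent.Mg.Fe23604m.Gd7623c

set_option linter.all false

section

/-!
The cubic twists over the algebraic closure.
-/

open WeierstrassCurve
open scoped Classical

namespace Pool.Agent.MP_e23604_nt.T.CS

open B

theorem tw_equiv {c n : ℕ} (hc : c ≠ 0) (hn : n ≠ 0) {δ θ : Qb} (hδ : δ ^ 3 = n) (hθ : θ ^ 2 = -3)
    (η : GQ → Pts (E3 0 1) Qb → Pts (E3 0 1) Qb) (h0 : ∀ g, η g 0 = 0)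
    (hη : ∀ (g : GQ) (x y : Qb) (h : ((E3 0 1).baseChange Qb).toAffine.Nonsingular x y), ∃ h',
      η g (.some x y h) = .some ((g δ / δ) ^ 2 * g x) (g y) h') :
    ∃ ψ : Pts (EC (c ^ 3 * n)) Qb ≃+ Pts (E3 0 1) Qb, ∀ (g : GQ) R,
      (g θ = θ → ψ (galQ _ g R) = η g (ψ R)) ∧ (g θ = -θ → ψ (galQ _ g R) = -η g (ψ R)) := by
  have c0 : (c : Qb) ≠ 0 := Nat.cast_ne_zero.2 hc
  have n0 : (n : Qb) ≠ 0 := Nat.cast_ne_zero.2 hn
  have d0 : δ ≠ 0 := fun e => n0 (by rw [← hδ, e, zero_pow three_ne_zero])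
  have t0 : θ ≠ 0 := fun e => by
    rw [e] at hθ
    norm_num at hθ
  have u0 : -2 * θ * c * δ ≠ 0 := by simp [c0, d0, t0]
  have u2 : ∀ {t d : Qb}, t ^ 2 = -3 → (-2 * t * c * d) ^ 2 = -12 * c ^ 2 * d ^ 2 := fun h => by
    rw [mul_pow, mul_pow, mul_pow, h]
    norm_num
  have u3 : ∀ {t d : Qb}, t ^ 2 = -3 → d ^ 3 = n → (-2 * t * c * d) ^ 3 = 24 * t * c ^ 3 * n :=
    fun {t d} h h' => by
      rw [mul_pow, mul_pow, mul_pow, h', pow_succ t 2, h]
      ring
  obtain ⟨ψ, hψ⟩ := vc_equiv ((EC (c ^ 3 * n)).baseChange Qb) ((E3 0 1).baseChange Qb)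
    ⟨Units.mk0 _ u0, 0, 0, 12 * θ * c ^ 3 * n⟩ (by
      ext
      · simp [EC, E3, baseChange, variableChange_a₁]
      · simp [EC, E3, baseChange, variableChange_a₂]
      · simp only [EC, E3, baseChange, variableChange_a₃, map_a₁, map_a₃, Units.val_inv_eq_inv_val,
          Units.val_mk0, inv_pow, u3 hθ hδ, map_zero, map_one]
        field_simp
        ring
      · simp [EC, E3, baseChange, variableChange_a₄]
      · simp only [EC, E3, baseChange, variableChange_a₆, map_a₁, map_a₂, map_a₃, map_a₄, map_a₆,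
          map_zero, map_mul, map_pow, map_neg, map_ofNat, map_natCast, Nat.cast_mul, Nat.cast_pow]
        refine mul_eq_zero_of_right _ ?_
        linear_combination (-144 * (c : Qb) ^ 6 * n ^ 2) * hθ)
  refine ⟨ψ, fun g R => ?_⟩
  rcases R with _ | ⟨x, y, h⟩
  · change (_ → ψ (galQ _ g 0) = η g (ψ 0)) ∧ (_ → ψ (galQ _ g 0) = -η g (ψ 0))
    simp only [map_zero, h0, neg_zero, implies_true, and_self]
  obtain ⟨h1, e1⟩ := hψ x y h
  obtain ⟨h2, e2⟩ := BSel_act_some (EC (c ^ 3 * n)) (g : Qb →+* Qb) h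
  obtain ⟨h3, e3⟩ := hψ _ _ h2
  obtain ⟨h4, e4⟩ := hη g _ _ h1
  have g0 : g δ ≠ 0 := (map_ne_zero g).2 d0
  rw [galQ, e1, e2, e3, e4, Affine.Point.neg_some, Affine.Point.some.injEq,
    Affine.Point.some.injEq]
  simp only [Units.val_mk0, u2 hθ, u3 hθ hδ, map_div₀, map_sub, map_mul,
    map_pow, map_neg, map_ofNat, map_natCast, map_zero, RingHom.coe_coe, Affine.negY, E3,
    baseChange, map_a₁, map_a₃, map_one]
  refine ⟨fun e => ⟨?_, ?_⟩, fun e => ⟨?_, ?_⟩⟩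
  · field_simp
  · rw [e]
  · field_simp
  · rw [e]
    field_simp
    ring

end Pool.Agent.MP_e23604_nt.T.CS

end

section

/-!
Finitely many strict cocycles bound the Selmer group of the cubic twist.
-/

open WeierstrassCurve NumberField Finset
open scoped Classical

namespace Pool.Agent.MP_e23604_nt.T.CS

open B
open MP_f68ac8_nt (cyc cyc_spec cyc_eq zeta zeta_spec exists_prime_mem)
open MP_f68ac8_nt.Nd (Gz)
open Q (Wn)

section
variable {A : Type} [AddCommGroup A] {J : A ≃ₗ[ℤ] A} {T : A}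

theorem j_cube (h : Cm0 J T) (u : A) : J (J (J u)) = u := by
  linear_combination (norm := abel) h.sq (J u) - h.sq u

theorem om_sq (h : Cm0 J T) (u : A) : Q.om J (Q.om J u) = -(3 • J u) := by
  change J (J u - u) - (J u - u) = _
  rw [map_sub]
  linear_combination (norm := abel) h.sq u

theorem wn_succ {n : ℕ} {u : A} : u ∈ Wn J (n + 1) ↔ Q.om J u ∈ Wn J n := by
  simp only [Wn, LinearMap.mem_ker, pow_succ, Module.End.mul_apply]

theorem wn_zero {u : A} : u ∈ Wn J 0 ↔ u = 0 := by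
  simp only [Wn, LinearMap.mem_ker, pow_zero, Module.End.one_apply]

theorem wn_tors (h : Cm0 J T) (k : ℕ) : ∀ u : A, 3 ^ k • u = 0 → u ∈ Wn J (2 * k) := by
  induction k with
  | zero => exact fun u hu => wn_zero.2 (by simpa using hu)
  | succ k ih =>
    intro u hu
    rw [show 2 * (k + 1) = 2 * k + 1 + 1 by ring, wn_succ, wn_succ, om_sq h]
    refine ih _ ?_
    rw [smul_neg, smul_smul, ← pow_succ, ← map_nsmul, hu, map_zero, neg_zero]

theorem t_add (h : Cm0 J T) : T + T = -T := by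
  have := h.sq T
  rw [h.fix, h.fix] at this
  exact eq_neg_of_add_eq_zero_left this

theorem t_ne (h : Cm0 J T) : -T ≠ T := fun e => h.ne (by
  have := t_add h
  rw [e] at this
  exact left_eq_add.1 this.symm)

/-- the character of the first level -/
noncomputable def chi (T : A) (w : Qb) (u : A) : Qb :=
  if u = 0 then 1 else if u = T then w else w ^ 2

theorem chi_val (h : Cm0 J T) (w : Qb) : chi T w 0 = 1 ∧ chi T w T = w ∧ chi T w (-T) = w ^ 2 :=
  ⟨if_pos rfl, by rw [chi, if_neg h.ne, if_pos rfl],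
    by rw [chi, if_neg (neg_ne_zero.2 h.ne), if_neg (t_ne h)]⟩

theorem chi_add (h : Cm0 J T) {w : Qb} (hw : w ^ 3 = 1) {u v : A} (hu : u ∈ Wn J 1)
    (hv : v ∈ Wn J 1) : chi T w (u + v) = chi T w u * chi T w v := by
  obtain ⟨c0, c1, c2⟩ := chi_val h w
  have e : -T + -T = T := by rw [← neg_add, t_add h, neg_neg]
  rcases h.one u hu with a | a | a <;> rcases h.one v hv with b | b | b <;> rw [a, b] <;>
    simp only [add_zero, zero_add, add_neg_cancel, neg_add_cancel, t_add h, e, c0, c1, c2, mul_one,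
      one_mul]
  · ring
  · linear_combination -hw
  · linear_combination -hw
  · linear_combination -w * hw

theorem chi_inj (h : Cm0 J T) {w : Qb} (hw : IsPrimitiveRoot w 3) {u v : A} (hu : u ∈ Wn J 1)
    (hv : v ∈ Wn J 1) (e : chi T w u = chi T w v) : u = v := by
  obtain ⟨c0, c1, c2⟩ := chi_val h w
  have k : ∀ i j, i < 3 → j < 3 → w ^ i = w ^ j → i = j := fun i j hi hj => hw.pow_inj hi hj
  have k01 := k 0 1 (by norm_num) (by norm_num)
  have k02 := k 0 2 (by norm_num) (by norm_num)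
  have k12 := k 1 2 (by norm_num) (by norm_num)
  rw [pow_zero] at k01 k02
  rw [pow_one] at k01 k12
  rcases h.one u hu with a | a | a <;> rcases h.one v hv with b | b | b <;> rw [a, b] at e ⊢ <;>
    simp only [c0, c1, c2] at e
  exacts [absurd (k01 e) (by norm_num), absurd (k02 e) (by norm_num),
    absurd (k01 e.symm) (by norm_num), absurd (k12 e) (by norm_num),
    absurd (k02 e.symm) (by norm_num), absurd (k12 e.symm) (by norm_num)]

end

theorem gz_pos {g : GQ} (hg : g ∈ Gz 3) : g (zeta Qb 3) = zeta Qb 3 := by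
  have h : cyc (Ω := Qb) 3 g = 1 := hg
  rw [cyc_spec 3 g (zeta_spec 3).pow_eq_one, h]
  exact pow_one _

theorem gz_neg {g : GQ} (hg : g ∉ Gz 3) : g (zeta Qb 3) = zeta Qb 3 ^ 2 := by
  have h : cyc (Ω := Qb) 3 g ≠ 1 := hg
  have k : ∀ u : (ZMod 3)ˣ, u ≠ 1 → (u : ZMod 3).val = 2 := by decide
  rw [cyc_spec 3 g (zeta_spec 3).pow_eq_one, k _ h]

theorem str_abs {A : Type} [AddCommGroup A] {J : A ≃ₗ[ℤ] A} {T : A} {η : GQ →* (A ≃ₗ[ℤ] A)}
    {R : Finset ℕ} {e : ℕ → ZMod 3} {β : ZMod 3} {τ : ℕ → GQ} (hC : Cm0 J T)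
    (hG : Gm0 J T η R e β τ) {W : WeierstrassCurve ℚ} (ψ : Pts W Qb ≃+ A)
    (h1 : ∀ g ∈ Gz 3, ∀ P, ψ (galQ W g P) = η g (ψ P))
    (h2 : ∀ g ∉ Gz 3, ∀ P, ψ (galQ W g P) = -η g (ψ P))
    (hu : ∀ k ξ, Sel W 3 k ξ → ∀ (l : ℕ) [Fact l.Prime], l ≠ 3 → l ∉ R → ∀ γ g : GQ,
      Inr (nv l γ) g → ξ g = 0) (hfin : (St J η R).Finite) : (Str W 3).Finite := by
  let θ : A →+ A := AddMonoidHom.mk' (fun u => J (Q.om J u)) fun u v => by rw [map_add, map_add]
  have θd : ∀ u, θ u = J (J u) - J u := fun u => map_sub J _ _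
  have θc : ∀ (g : GQ) P, θ (ψ (galQ W g P)) = η g (θ (ψ P)) := fun g P => by
    by_cases hg : g ∈ Gz 3
    · rw [h1 g hg, θd, θd, map_sub, hG.lin g hg, hG.lin g hg]
    · rw [h2 g hg, θd, θd, map_sub, hG.ant g hg, hG.ant g hg, j_cube hC, map_neg, map_neg]
      abel
  have θk : ∀ u, θ u = 0 → u ∈ Wn J 1 := fun u h =>
    wn_succ.2 (wn_zero.2 (J.map_eq_zero_iff.1 h))
  have fix : ∀ g, ∀ u ∈ Wn J 1, η g u = u := fun g u h => by
    rcases hC.one u h with a | a | a <;> rw [a]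
    exacts [map_zero _, hG.fix g, by rw [map_neg, hG.fix g]]
  have hw := zeta_spec (Ω := Qb) 3
  obtain ⟨c0, c1, c2⟩ := chi_val hC (zeta Qb 3)
  refine Set.Finite.of_finite_fibers (fun ξ g => θ (ψ (ξ g))) (hfin.subset ?_) ?_
  · rintro _ ⟨ξ, ⟨⟨k, hk⟩, h0⟩, rfl⟩
    refine ⟨hk.1.1.comp fun P => θ (ψ P), fun g h => ?_, ⟨2 * k, fun g => ?_⟩,
      fun P hP g hg => ?_, fun g hg => ?_⟩
    · simp only
      rw [hk.1.2 g h, map_add, map_add, θc]
    · exact wn_tors hC k _ (by rw [← map_nsmul, ← map_nsmul, hk.2.1, map_zero, map_zero])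
    · obtain ⟨hmax, p3, pR⟩ := hP
      obtain ⟨l, hl, hlP⟩ := exists_prime_mem (Ω := Qb) P
      have := Fact.mk hl
      obtain ⟨γ, hγ⟩ := ex_inr l P hmax hlP
      simp only
      rw [hu k ξ hk l (fun a => p3 (a ▸ hlP)) (fun a => pR l a hlP) γ g (hγ g hg), map_zero,
        map_zero]
    · simp only
      rw [h0 g hg, map_zero, map_zero]
  · rintro _ ⟨ξ₀, ⟨⟨k₀, hk₀⟩, -⟩, rfl⟩
    have lev : ∀ ξ : GQ → Pts W Qb, (fun g => θ (ψ (ξ g))) = (fun g => θ (ψ (ξ₀ g))) →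
        ∀ g, ψ (ξ g - ξ₀ g) ∈ Wn J 1 := fun ξ h g =>
      θk _ (by rw [map_sub, map_sub, sub_eq_zero]; exact congrFun h g)
    refine Set.Finite.of_finite_image (f := fun ξ g => chi T (zeta Qb 3) (ψ (ξ g - ξ₀ g)))
      ((mu_fin (insert 3 R)).subset ?_) ?_
    · rintro _ ⟨ξ, ⟨⟨⟨k, hk⟩, -⟩, hξ⟩, rfl⟩
      have lv := lev ξ hξ
      refine ⟨fun g => ?_, (hk.1.1.sub hk₀.1.1).comp fun P => chi T (zeta Qb 3) (ψ P),
        fun g h => ?_, fun l _ hl g hg => ?_⟩
      · simp only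
        rcases hC.one _ (lv g) with a | a | a <;> rw [a]
        · rw [c0, one_pow]
        · rw [c1, hw.pow_eq_one]
        · rw [c2, pow_right_comm, hw.pow_eq_one, one_pow]
      · have a1 : ξ (g * h) - ξ₀ (g * h) = ξ g - ξ₀ g + galQ W g (ξ h - ξ₀ h) := by
          rw [hk.1.2 g h, hk₀.1.2 g h, map_sub]
          abel
        simp only
        rw [a1, map_add]
        by_cases hg : g ∈ Gz 3
        · rw [h1 g hg, fix g _ (lv h), chi_add hC hw.pow_eq_one (lv g) (lv h)]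
          congr 1
          rcases hC.one _ (lv h) with a | a | a <;> rw [a]
          · rw [c0, map_one]
          · rw [c1, gz_pos hg]
          · rw [c2, map_pow, gz_pos hg]
        · rw [h2 g hg, fix g _ (lv h), chi_add hC hw.pow_eq_one (lv g) (neg_mem (lv h))]
          congr 1
          rcases hC.one _ (lv h) with a | a | a <;> rw [a]
          · rw [neg_zero, c0, map_one]
          · rw [c1, c2, gz_neg hg]
          · rw [neg_neg, c1, c2, map_pow, gz_neg hg]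
            linear_combination -zeta Qb 3 * hw.pow_eq_one
      · rw [mem_insert, not_or] at hl
        simp only
        rw [hu k ξ hk l hl.1 hl.2 1 g hg, hu k₀ ξ₀ hk₀ l hl.1 hl.2 1 g hg, sub_zero, map_zero, c0]
    · rintro ξ ⟨-, hξ⟩ ξ' ⟨-, hξ'⟩ a
      exact funext fun g => sub_left_injective
        (ψ.injective (chi_inj hC hw (lev ξ hξ g) (lev ξ' hξ' g) (congrFun a g)))

end Pool.Agent.MP_e23604_nt.T.CS

namespace Pool.Agent.MP_e23604_nt.T

open CS
open MP_f68ac8_nt (zeta zeta_spec)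

/-- finitely many strict cocycles bound the rank and the corank -/
theorem stCork {J : Pts (E3 0 1) Qb ≃ₗ[ℤ] Pts (E3 0 1) Qb} {T : Pts (E3 0 1) Qb}
    {η : GQ →* (Pts (E3 0 1) Qb ≃ₗ[ℤ] Pts (E3 0 1) Qb)} {R : Finset ℕ} {e : ℕ → ZMod 3}
    {β : ZMod 3} {τ : ℕ → GQ} (hC : Cm0 J T) (hG : Gm0 J T η R e β τ) (hR : ∀ l ∈ R, P0 l)
    {δ : Qb} (hδ : δ ^ 3 = ((3 ^ β.val * ∏ l ∈ R, l ^ (e l).val : ℕ) : Qb))
    (hη : ∀ (g : GQ) (x y : Qb) (h : ((E3 0 1).baseChange Qb).toAffine.Nonsingular x y), ∃ h',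
      η g (.some x y h) = .some ((g δ / δ) ^ 2 * g x) (g y) h')
    (hfin : (St J η R).Finite) {D : ℕ} (hD : D ≠ 0) (hc : Cls D R e β) :
    Cork (EC D) ∧ AddGroup.FG (EC D).toAffine.Point := by
  obtain ⟨c, rfl⟩ := hc
  have hc : c ≠ 0 := by
    rintro rfl
    simp at hD
  have hw := zeta_spec (Ω := Qb) 3
  have hw1 : zeta Qb 3 ^ 2 + zeta Qb 3 + 1 = 0 := by
    have := hw.geom_sum_eq_zero (by norm_num)
    simp only [sum_range_succ, sum_range_zero] at this
    linear_combination this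
  obtain ⟨ψ, hψ⟩ := tw_equiv hc (right_ne_zero_of_mul hD) hδ (θ := zeta Qb 3 - zeta Qb 3 ^ 2)
    (by linear_combination (zeta Qb 3 ^ 2 - 3 * zeta Qb 3 + 3) * hw1) (fun g => η g)
    (fun g => map_zero _) hη
  have := ec_ell hD
  refine sel3 _ (str_abs hC hG ψ (fun g hg P => (hψ g P).1 ?_) (fun g hg P => (hψ g P).2 ?_)
    (fun k ξ hξ l hl h3 hl' γ g hg => ec_unr hc hξ l h3 (fun a => ?_) γ hg) hfin) _
  · rw [map_sub, map_pow, gz_pos hg]
  · rw [map_sub, map_pow, gz_neg hg]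
    linear_combination -zeta Qb 3 * hw.pow_eq_one
  · rcases (Nat.Prime.dvd_mul hl.out).1 a with a | a
    · exact h3 ((Nat.prime_dvd_prime_iff_eq hl.out Nat.prime_three).1 (hl.out.dvd_of_dvd_pow a))
    · obtain ⟨l', a1, a2⟩ := (Prime.dvd_finsetProd_iff hl.out.prime _).1 a
      exact hl' (((Nat.prime_dvd_prime_iff_eq hl.out (hR l' a1).1).1
        (hl.out.dvd_of_dvd_pow a2)) ▸ a1)

end Pool.Agent.MP_e23604_nt.T

end
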