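import Mathlib
import Pool.Agent.Mg.Fe23604m.Gd7623c
import Pool.Agent.Mg.Fe23604m.G5224b9
import Pool.Agent.MP_e23604_nt.BSel

set_option linter.all false

/-! The base curve and its complex multiplication. -/

namespace Pool.Agent.MP_e23604_nt.T.Cv

open WeierstrassCurve
open Q (Wn)
open scoped Classical

/-- the points of the base curve -/
abbrev A3 : Type := Pts (E3 0 1) Qb

/-- the cube root of unity -/
noncomputable abbrev xi : Qb := MP_f68ac8_nt.Ev.xi 3

/-- the rational point of order three -/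
noncomputable abbrev T0 : A3 := Pool.Agent.MP_e23604_nt.T 0 1 Qb

/-- scaling of the first coordinate -/
noncomputable def sc (u : Qb) (R : A3) : A3 := if R = 0 then 0 else pt 0 1 (u ^ 2 * cx R) (cy R)

theorem gd : Good 0 1 := ⟨one_ne_zero, by norm_num⟩

theorem on_iff {x y : Qb} : On 0 1 x y ↔ y ^ 2 + y = x ^ 3 := by simp [On]

theorem xi_prim : IsPrimitiveRoot xi 3 := MP_f68ac8_nt.xi_spec

theorem xi_cube : xi ^ 3 = 1 := xi_prim.pow_eq_one

theorem xi_sq : xi ^ 2 + xi + 1 = 0 := by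
  have h := xi_prim.geom_sum_eq_zero (by norm_num)
  simp only [Finset.sum_range_succ, Finset.range_zero, Finset.sum_empty] at h
  linear_combination h

theorem on_sc {u x y : Qb} (hu : u ^ 3 = 1) (h : On 0 1 x y) : On 0 1 (u ^ 2 * x) y := by
  rw [on_iff] at *
  linear_combination h - (u ^ 3 + 1) * x ^ 3 * hu

theorem sc_zero (u : Qb) : sc u 0 = 0 := by rw [sc, if_pos rfl]

theorem sc_pt (u : Qb) {x y : Qb} (h : On 0 1 x y) : sc u (pt 0 1 x y) = pt 0 1 (u ^ 2 * x) y := by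
  rw [sc, if_neg (pt_ne_zero gd h), cx_pt gd h, cy_pt gd h]

theorem sc_add {u : Qb} (hu : u ^ 3 = 1) (R R' : A3) : sc u (R + R') = sc u R + sc u R' := by
  have h0 : u ≠ 0 := by
    rintro rfl
    norm_num at hu
  let C : VariableChange Qb := ⟨Units.mk0 (u ^ 2) (pow_ne_zero _ h0), 0, 0, 0⟩
  have hC : C • (E3 0 1).baseChange Qb = (E3 0 1).baseChange Qb := by
    have e : ((u ^ 2)⁻¹) ^ 3 = 1 := by
      rw [inv_pow, ← pow_mul, mul_comm, pow_mul, hu, one_pow, inv_one]
    ext <;> simp [C, E3, baseChange, variableChange_a₁, variableChange_a₂, variableChange_a₃,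
      variableChange_a₄, variableChange_a₆, e]
  obtain ⟨Ψ, hΨ⟩ := B.vc_equiv _ _ C hC
  have key : ∀ R : A3, sc u R = Ψ R := fun R => by
    rcases pt_cases gd R with rfl | ⟨x, y, h, rfl⟩
    · rw [sc_zero, map_zero]
    · obtain ⟨h', e⟩ := hΨ x y ((ns_iff gd x y).2 h)
      rw [sc_pt u h, pt_eq gd h, e, pt_eq gd (on_sc hu h)]
      congr 1
      · simp only [C, Units.val_mk0, sub_zero]
        rw [eq_div_iff (by positivity)]
        linear_combination (u ^ 3 + 1) * x * hu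
      · simp only [C, Units.val_mk0, sub_zero, zero_mul]
        rw [eq_div_iff (by positivity)]
        linear_combination (u ^ 3 + 1) * y * hu
  rw [key, key, key, map_add]

theorem sc_sc {u : Qb} (hu : u ^ 3 = 1) (u' : Qb) (R : A3) : sc u' (sc u R) = sc (u' * u) R := by
  rcases pt_cases gd R with rfl | ⟨x, y, h, rfl⟩
  · rw [sc_zero, sc_zero, sc_zero]
  · rw [sc_pt u h, sc_pt u' (on_sc hu h), sc_pt _ h]
    congr 1
    ring

theorem sc_one (R : A3) : sc 1 R = R := by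
  rcases pt_cases gd R with rfl | ⟨x, y, h, rfl⟩
  · rw [sc_zero]
  · rw [sc_pt _ h, one_pow, one_mul]

theorem gal_pt (g : GQ) {x y : Qb} (h : On 0 1 x y) :
    galQ (E3 0 1) g (pt 0 1 x y) = pt 0 1 (g x) (g y) := act_pt gd (g : Qb →+* Qb) h

theorem on_gal (g : GQ) {x y : Qb} (h : On 0 1 x y) : On 0 1 (g x) (g y) :=
  h.map (g : Qb →+* Qb)

theorem gal_sc {u : Qb} (hu : u ^ 3 = 1) (g : GQ) (R : A3) :
    galQ (E3 0 1) g (sc u R) = sc (g u) (galQ (E3 0 1) g R) := by
  rcases pt_cases gd R with rfl | ⟨x, y, h, rfl⟩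
  · rw [sc_zero, map_zero, sc_zero]
  · rw [sc_pt u h, gal_pt g (on_sc hu h), gal_pt g h, sc_pt _ (on_gal g h), map_mul, map_pow]

theorem sc_T (u : Qb) : sc u T0 = T0 := by
  rw [T0, Pool.Agent.MP_e23604_nt.T, sc_pt u on_T, mul_zero]

/-- complex multiplication -/
noncomputable def J3 : A3 ≃ₗ[ℤ] A3 :=
  AddEquiv.toIntLinearEquiv
    { toFun := sc xi
      invFun := sc (xi ^ 2)
      left_inv := fun R => by rw [sc_sc xi_cube, ← pow_succ, xi_cube, sc_one]
      right_inv := fun R => by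
        rw [sc_sc (by rw [pow_right_comm, xi_cube, one_pow]), ← pow_succ', xi_cube, sc_one]
      map_add' := sc_add xi_cube }

theorem J3_apply (R : A3) : J3 R = sc xi R := rfl

theorem J3_pow (k : ℕ) (R : A3) : (J3 ^ k) R = sc (xi ^ k) R := by
  induction k with
  | zero => rw [pow_zero, pow_zero, sc_one]; rfl
  | succ k ih =>
    rw [pow_succ', LinearEquiv.mul_apply, ih, J3_apply,
      sc_sc (by rw [pow_right_comm, xi_cube, one_pow]), ← pow_succ']

section
variable {V : Type} [AddCommGroup V] {J : V ≃ₗ[ℤ] V}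

theorem om_apply (u : V) : Q.om J u = J u - u := rfl

theorem W_zero {u : V} : u ∈ Wn J 0 ↔ u = 0 := by
  rw [Wn, pow_zero, LinearMap.mem_ker]
  rfl

theorem W_om {n : ℕ} {u : V} : Q.om J u ∈ Wn J n ↔ u ∈ Wn J (n + 1) := by
  rw [Wn, Wn, pow_succ, LinearMap.mem_ker, LinearMap.mem_ker]
  rfl

theorem W_one {u : V} : u ∈ Wn J 1 ↔ J u = u := by
  rw [← W_om, W_zero, om_apply, sub_eq_zero]

theorem W_J {n : ℕ} {u : V} : J u ∈ Wn J n ↔ u ∈ Wn J n := by
  induction n generalizing u with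
  | zero => rw [W_zero, W_zero, J.map_eq_zero_iff]
  | succ n ih => rw [← W_om, ← W_om, ← ih (u := Q.om J u), om_apply, om_apply, map_sub]

theorem W_mono {m n : ℕ} (h : m ≤ n) {u : V} (hu : u ∈ Wn J m) : u ∈ Wn J n := by
  obtain ⟨k, rfl⟩ := Nat.exists_eq_add_of_le' h
  rw [Wn, LinearMap.mem_ker] at *
  rw [pow_add, Module.End.mul_apply, hu, map_zero]

variable (h : ∀ u, J (J u) + J u + u = 0)
include h

theorem om_om (u : V) : Q.om J (Q.om J u) = -J (3 • u) := by
  have h1 := h u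
  simp only [om_apply, map_sub, map_nsmul]
  linear_combination (norm := abel) h1

theorem W_pow (k : ℕ) {n : ℕ} {u : V} : 3 ^ k • u ∈ Wn J n ↔ u ∈ Wn J (n + 2 * k) := by
  induction k generalizing u with
  | zero => simp
  | succ k ih =>
    rw [pow_succ, mul_smul, ih, ← W_J, ← neg_mem_iff, ← om_om h, W_om, W_om]
    rfl

theorem W_tor (k : ℕ) {u : V} : u ∈ Wn J (2 * k) ↔ 3 ^ k • u = 0 := by
  rw [← W_zero (J := J), W_pow h, zero_add]

theorem W_kill {k : ℕ} {u : V} (hu : u ∈ Wn J k) : 3 ^ k • u = 0 :=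
  (W_tor h k).1 (W_mono (by omega) hu)

end

theorem J3_fix {R : A3} : J3 R = R ↔ InT R := by
  constructor
  · intro e
    rcases pt_cases gd R with rfl | ⟨x, y, h, rfl⟩
    · exact Or.inl rfl
    rw [J3_apply, sc_pt _ h] at e
    have e1 := (pt_inj gd (on_sc xi_cube h) h e).1
    have e2 : x = 0 := by linear_combination (-(xi ^ 2 + 2) / 3) * e1 + (x * (xi ^ 2 - xi + 1) / 3) * xi_sq
    subst e2
    have e3 : y * (y + 1) = 0 := by linear_combination on_iff.1 h
    rcases mul_eq_zero.1 e3 with e4 | e4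
    · subst e4
      exact Or.inr (Or.inl rfl)
    · refine Or.inr (Or.inr ?_)
      rw [neg_T gd, eq_neg_of_add_eq_zero_left e4, Rat.cast_one]
  · have e : J3 T0 = T0 := sc_T xi
    rintro (rfl | rfl | rfl)
    · exact map_zero _
    · exact e
    · rw [map_neg, e]

theorem J3_sq (R : A3) : J3 (J3 R) + J3 R + R = 0 := by
  by_cases hR : InT R
  · have e := J3_fix.2 hR
    rw [e, e, ← hR.three gd]
    abel
  rcases pt_cases gd R with rfl | ⟨x, y, h, rfl⟩
  · exact absurd InT.zero hR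
  have hx : xi ^ 2 * x ≠ x := fun e => hR (J3_fix.1 (by rw [J3_apply, sc_pt _ h, e]))
  have h1 := on_sc xi_cube h
  rw [add_assoc, J3_apply (pt _ _ _ _), sc_pt _ h, J3_apply, sc_pt _ h1,
    (pt_add_ne gd (l := 0) (x₃ := xi ^ 2 * (xi ^ 2 * x)) h1 h hx (by ring) ?_ rfl).2,
    add_eq_zero_iff_neg_eq, pt_neg gd (on_sc xi_cube h1)]
  · congr 1
    ring
  · linear_combination x * (xi ^ 2 - xi + 1) * xi_sq

theorem cmI : CmI J3 T0 := by
  refine ⟨⟨J3_sq, T_ne_zero gd, sc_T xi, fun u hu => J3_fix.1 (W_one.1 hu)⟩, fun u => ?_⟩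
  obtain ⟨R, hR⟩ := exists_third gd (J3.symm (-u))
  exact ⟨Q.om J3 R, by rw [om_om J3_sq, hR, J3.apply_symm_apply, neg_neg]⟩

end Pool.Agent.MP_e23604_nt.T.Cv
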