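import Mathlib
import Pool.Agent.Mg.Fe23604m.Ge6027d
import Pool.Agent.Mg.Fe23604m.G9a088c
import Pool.Agent.Mg.Fe23604m.Gd10305

set_option linter.all false

section

/-! The twisted Galois action on the base curve. -/

namespace Pool.Agent.MP_e23604_nt.T.Cv

open Finset Filter NumberField B
open MP_f68ac8_nt
open MP_f68ac8_nt.Nd (Gz)
open Q (Wn)
open scoped Classical BigOperators Topology

/-- the twisted action -/
def Eta (δ : Qb) (η : GQ →* (A3 ≃ₗ[ℤ] A3)) : Prop :=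
  ∀ g R, η g R = sc (g δ / δ) (galQ (E3 0 1) g R)

theorem root_ne {δ : Qb} {D : ℕ} (hD : D ≠ 0) (hδ : δ ^ 3 = D) : δ ≠ 0 := by
  rintro rfl
  exact hD (by exact_mod_cast (hδ.symm.trans (zero_pow three_ne_zero)))

theorem quot_cube {δ : Qb} {D : ℕ} (hD : D ≠ 0) (hδ : δ ^ 3 = D) (g : GQ) : (g δ / δ) ^ 3 = 1 := by
  rw [div_pow, ← map_pow, hδ, map_natCast, div_self (Nat.cast_ne_zero.2 hD)]

theorem eta_ex {δ : Qb} {D : ℕ} (hD : D ≠ 0) (hδ : δ ^ 3 = D) : ∃ η, Eta δ η := by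
  have h0 := root_ne hD hδ
  have hu := quot_cube hD hδ
  let f : GQ → Module.End ℤ A3 := fun g =>
    (AddMonoidHom.mk' (fun R => sc (g δ / δ) (galQ (E3 0 1) g R)) fun R R' => by
      rw [map_add, sc_add (hu g)]).toIntLinearMap
  have hf : ∀ g R, f g R = sc (g δ / δ) (galQ (E3 0 1) g R) := fun _ _ => rfl
  have f1 : f 1 = 1 := LinearMap.ext fun R => by
    rw [hf, BSel_gal_one, AlgEquiv.one_apply, div_self h0]
    exact sc_one R
  have fm : ∀ g h, f (g * h) = f g * f h := fun g h => LinearMap.ext fun R => by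
    have h4 : g δ ≠ 0 := (map_ne_zero g).2 h0
    rw [Module.End.mul_apply, hf, hf, hf, BSel_gal_mul, gal_sc (hu h),
      sc_sc (by rw [← map_pow, hu, map_one]), map_div₀, AlgEquiv.mul_apply]
    congr 1
    field_simp
  let F : GQ →* Module.End ℤ A3 := ⟨⟨f, f1⟩, fm⟩
  exact ⟨(LinearMap.GeneralLinearGroup.generalLinearEquiv ℤ A3).toMonoidHom.comp F.toHomUnits,
    fun g R => hf g R⟩

theorem xi_pos {g : GQ} (hg : g ∈ Gz 3) : g xi = xi := fix_xi hg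

theorem xi_neg {g : GQ} (hg : g ∉ Gz 3) : g xi = xi ^ 2 :=
  (gal_omega g xi_sq).resolve_left fun e => hg (cyc_of_xi e)

theorem tors_fix {P : Ideal (𝓞 Qb)} (hP : P.IsMaximal) (h3 : ((3 : ℕ) : 𝓞 Qb) ∉ P) {g : GQ}
    (hg : g ∈ P.inertia GQ) {k : ℕ} {u : A3} (hu : u ∈ Wn J3 k) : galQ (E3 0 1) g u = u := by
  obtain ⟨l, hl, hlP⟩ := exists_prime_mem (Ω := Qb) P
  have : Fact l.Prime := ⟨hl⟩
  obtain ⟨ρ, hρ⟩ := inr_of_mem hP l hlP
  have hv := nv_na l ρ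
  have v3 : nv l ρ 3 = 1 := by
    simpa using v_coprime hv hl (nv_lt l ρ) (n := 3) fun e => h3
      ((Nat.prime_dvd_prime_iff_eq hl Nat.prime_three).1 (by exact_mod_cast e) ▸ hlP)
  have hW : Intg (nv l ρ) ((E3 0 1).baseChange Qb) := by
    simp [Intg, E3, WeierstrassCurve.baseChange]
  have hΔ : nv l ρ ((E3 0 1).baseChange Qb).Δ = 1 := by
    have : ((E3 0 1).baseChange Qb).Δ = -3 ^ 3 := by
      rw [WeierstrassCurve.baseChange, WeierstrassCurve.map_Δ, E3_Δ]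
      norm_num
    rw [this, AbsoluteValue.map_neg, map_pow, v3, one_pow]
  refine sub_eq_zero.1 (E1_tors hv hW (inr_E1 _ hv hW hΔ (hρ g hg) u) (n := (3 ^ k : ℕ)) ?_ ?_)
  · push_cast
    rw [map_pow, v3, one_pow]
  · rw [natCast_zsmul, smul_sub, ← map_nsmul, W_kill J3_sq hu, map_zero, sub_zero]

theorem two_fix {g : GQ} (hg : g ∈ Gz 3) {u : A3} (hu : u ∈ Wn J3 2) :
    galQ (E3 0 1) g u = u := by
  rcases InT_or_V gd u with h | ⟨v₁, v₂, v₃, t, rfl⟩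
  · exact h.act_self gd _
  have hN := NN_eq_zero_of_three gd t (by simpa using (W_tor J3_sq 1).1 hu)
  have h1 := t.sum
  have h2 := t.prod
  rw [NN] at hN
  rw [Rat.cast_zero] at h1
  rw [Rat.cast_one] at h2
  have e1 : v₁ ^ 3 = 1 := by
    linear_combination h2 + v₁ / 3 * hN + (v₁ * (2 * v₁ - v₂ - v₃) / 3) * h1
  have e2 : v₂ ^ 3 = 1 := by
    linear_combination h2 + v₂ / 3 * hN + (v₂ * (2 * v₂ - v₁ - v₃) / 3) * h1
  rw [galQ, act_V gd _ t]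
  exact congrArg₂ (V 0 1) (Ev.fix_root_EvKK hg e1) (Ev.fix_root_EvKK hg e2)

theorem three_pt {y : Qb} (hy : y ^ 3 - 3 * y ^ 2 - 6 * y - 1 = 0) :
    ∃ x, On 0 1 x y ∧ pt 0 1 x y ∈ Wn J3 3 := by
  obtain ⟨x, hx⟩ := IsAlgClosed.exists_pow_nat_eq (y ^ 2 + y) three_pos
  have h := on_iff.2 hx.symm
  have x0 : x ≠ 0 := by
    rintro rfl
    grind
  obtain ⟨t, e⟩ := pt_eq_V h x0
  refine ⟨x, h, (W_pow J3_sq 1 (n := 1)).1 ?_⟩
  rw [pow_one, e]
  by_cases hN : NN (-y / x) ((y + (0 : ℚ) * x + (1 : ℚ)) / x) (-(1 : ℚ) / x) = 0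
  · rw [V_three_of_eq gd t hN]
    exact zero_mem _
  · have g0 : gg (-y / x) ((y + (0 : ℚ) * x + (1 : ℚ)) / x) (-(1 : ℚ) / x) = 0 := by
      rw [gg, div_eq_zero_iff]
      left
      push_cast
      field_simp
      linear_combination hy
    rw [(V_three_of_ne gd t hN).2, g0, zero_mul, neg_zero, zero_pow three_ne_zero]
    exact W_one.2 (sc_T xi)

section
variable {δ : Qb} {D : ℕ} (hD : D ≠ 0) (hδ : δ ^ 3 = D) {η : GQ →* (A3 ≃ₗ[ℤ] A3)} (hη : Eta δ η)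
include hD hδ hη

theorem eta_lin {g : GQ} (hg : g ∈ Gz 3) (u : A3) : η g (J3 u) = J3 (η g u) := by
  rw [hη, hη, J3_apply, J3_apply, gal_sc xi_cube, xi_pos hg, sc_sc xi_cube,
    sc_sc (quot_cube hD hδ g), mul_comm]

theorem eta_ant {g : GQ} (hg : g ∉ Gz 3) (u : A3) : η g (J3 u) = J3 (J3 (η g u)) := by
  rw [hη, hη, J3_apply, J3_apply, J3_apply, gal_sc xi_cube, xi_neg hg,
    sc_sc (by rw [pow_right_comm, xi_cube, one_pow]), sc_sc xi_cube, sc_sc (quot_cube hD hδ g)]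
  congr 1
  ring

omit hD hδ in
theorem eta_opn (u : A3) : {g | η g u = u} ∈ 𝓝 (1 : GQ) := by
  filter_upwards [(isLC_apply δ).eventually_eq (1 : GQ),
    (BSel_dd_mem _ u).1.eventually_eq (1 : GQ)] with g h1 h2
  have a : galQ (E3 0 1) g u = galQ (E3 0 1) 1 u := sub_left_inj.1 h2
  have b : η g u = η 1 u := by rw [hη g, hη 1, a, h1]
  rw [b, map_one]
  rfl

theorem eta_big : ∃ g ∈ DP P3, g ∈ Gz 3 ∧ ∃ u ∈ Wn J3 3, η g u ≠ u := by
  obtain ⟨g, g1, g2⟩ := nine_move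
  have hz := zeta_spec (Ω := Qb) (3 ^ 2)
  have z9 : zeta Qb (3 ^ 2) ^ 9 = 1 := hz.pow_eq_one
  have z6 : (zeta Qb (3 ^ 2) ^ 3) ^ 2 + zeta Qb (3 ^ 2) ^ 3 + 1 = 0 := xi_sq
  have g3 := g2 _ z9
  generalize zeta Qb (3 ^ 2) = z at z9 z6 g3
  obtain ⟨x, h, hx⟩ := three_pt (y := 1 + z + z ^ 8 - z ^ 4 - z ^ 5) (by grind)
  refine ⟨g, inertia_le_DP g1, cyc_of_xi ?_, _, hx, fun e => ?_⟩
  · rw [g2 _ (by rw [show 9 = 3 * 3 from rfl, pow_mul, xi_cube, one_pow])]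
    linear_combination xi * xi_cube
  · rw [hη, gal_pt g h, sc_pt _ (on_gal g h)] at e
    have e1 := (pt_inj gd (on_sc (quot_cube hD hδ g) (on_gal g h)) h e).2
    simp only [map_add, map_sub, map_pow, map_one, g3] at e1
    grind

end

theorem gm0 {σ τ : ℕ → GQ} {e : ℕ → ZMod 3} (hT : Tl σ τ e) (β : ZMod 3) (R : Finset ℕ)
    (hR : ∀ l ∈ R, P0 l) {δ : Qb} (hδ : δ ^ 3 = (3 ^ β.val * ∏ l ∈ R, l ^ (e l).val : ℕ))
    {η : GQ →* (A3 ≃ₗ[ℤ] A3)} (hη : Eta δ η) : Gm0 J3 T0 η R e β τ := by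
  have hD : 3 ^ β.val * ∏ l ∈ R, l ^ (e l).val ≠ 0 := mul_ne_zero (by positivity)
    (prod_ne_zero_iff.2 fun l hl => pow_ne_zero _ (hR l hl).1.ne_zero)
  have key : ∀ g ∈ Gz 3, ∀ u, galQ (E3 0 1) g u = u → η g u = (J3 ^ (kD R e β g).val) u :=
    fun g hg u hu => by rw [hη, hu, kd_spec R e β hR hδ hg, J3_pow]
  refine ⟨fun g => ?_, fun g hg => eta_lin hD hδ hη hg, fun g hg => eta_ant hD hδ hη hg,
    eta_opn hη, fun P hP g hg k u hu => ?_, fun l hl k u hu => ?_, fun g hg u hu => ?_⟩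
  · rw [hη, galQ, act_T gd, sc_T]
  · have h0 : kD R e β g = 0 := by
      rw [kD, kk_unr hP.1 (Or.inr rfl) hP.2.1 hg, mul_zero, zero_add]
      exact sum_eq_zero fun l hl => by rw [kk_unr hP.1 (Or.inl hP.2.1) (hP.2.2 l hl) hg, mul_zero]
    rw [key g (cyc_inertia hP.2.1 hg) u (tors_fix hP.1 hP.2.1 hg hu), h0]
    rfl
  · obtain ⟨l1, l2⟩ := hR l hl
    obtain ⟨⟨P, p1, p2, -, hg⟩, e0, e1, -⟩ := hT l ⟨l1, l2⟩
    have p3 : ∀ m, m.Prime → m ≠ l → (m : 𝓞 Qb) ∉ P := fun m a b =>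
      not_mem_of_coprime p2 ((Nat.coprime_primes l1 a).2 b.symm)
    have p4 := p3 3 Nat.prime_three l2.symm
    have h0 : kD R e β (τ l) = 1 := by
      rw [kD, kk_unr p1 (Or.inr rfl) p4 hg, mul_zero, zero_add, sum_eq_single l (fun m a b => by
        rw [kk_unr p1 (Or.inl p4) (p3 m (hR m a).1 b) hg, mul_zero]) fun a => absurd hl a, e1]
      generalize e l = a at e0
      revert a
      decide
    rw [key _ (cyc_inertia p4 hg) u (tors_fix p1 p4 hg hu), h0]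
    rfl
  · rw [key g hg u (two_fix hg hu)]
    have h1 : J3 (Q.om J3 u) = Q.om J3 u := W_one.1 (W_om.2 hu)
    induction (kD R e β g).val with
    | zero => simp
    | succ n ih =>
      rw [pow_succ', LinearEquiv.mul_apply, eq_add_of_sub_eq ih, map_add, map_nsmul, h1, succ_nsmul,
        om_apply]
      abel

end Pool.Agent.MP_e23604_nt.T.Cv

end

section

/-! The modules attached to the curves. -/

namespace Pool.Agent.MP_e23604_nt.T

open Finset WeierstrassCurve Cv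
open scoped BigOperators

end Pool.Agent.MP_e23604_nt.T

end
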