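import Pool.Agent.Mg.Fe23604m.G8362cd
import Pool.Agent.Mg.Fe23604m.G9bf290
import Pool.Agent.Mg.Fe23604m.G19f17f
import Pool.Agent.Mg.Fe23604m.Gdcbf1f
import Pool.Agent.Mg.Fe23604m.G300596
import Pool.Agent.Mg.Fe23604m.Ga3c24f
import Pool.Agent.Mg.Fe23604m.G0a5d16

set_option linter.all false

section

/-!
Restriction to and corestriction from the field of cube roots of unity.
-/

set_option autoImplicit false

open Finset
open scoped Classical

namespace Pool.Agent.MP_e23604_nt.W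

open B R S

variable {A : Type} [AddCommGroup A] {η : Act A}

/-- cocycles on a subgroup -/
def Ca (η : Act A) (H : Subgroup GQ) (x : GQ → A) : Prop :=
  ∀ g ∈ H, ∀ h ∈ H, x (g * h) = x g + η g (x h)

theorem res_two {H : Subgroup GQ} {ξ : GQ → A} (h : Ca η H ξ) (h' : InL η (H ⊓ GK) ξ) :
    InL η H fun g => 2 • ξ g := by
  obtain ⟨P, hP⟩ := h'
  have h1 : Ca η H fun g => ξ g - R.dd η P g := fun g hg k hk => by
    simp only [h g hg k hk, dd_coc, map_sub]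
    abel
  have h2 : ∀ g ∈ H, g ∈ GK → ξ g - R.dd η P g = 0 := fun g hg hk => sub_eq_zero.2 (hP g ⟨hg, hk⟩)
  by_cases e : ∃ c ∈ H, c ∉ GK
  · obtain ⟨c, hc, hk⟩ := e
    have h3 : ∀ g ∈ H, g ∉ GK → ξ g - R.dd η P g = ξ c - R.dd η P c := fun g hg hn => by
      have := h1 c hc _ (H.mul_mem (H.inv_mem hc) hg)
      dsimp only at this
      rwa [mul_inv_cancel_left, h2 _ (H.mul_mem (H.inv_mem hc) hg)
        (GK_mul (by rwa [GK.inv_mem_iff]) hn), map_zero, add_zero] at this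
    refine ⟨2 • P - (ξ c - R.dd η P c), fun g hg => ?_⟩
    have h4 := h1 g hg c hc
    dsimp only at h4
    generalize ξ c - R.dd η P c = a at *
    by_cases hn : g ∈ GK
    · have h5 := h2 g hg hn
      rw [h3 _ (H.mul_mem hg hc) (by rwa [GK.mul_mem_cancel_left hn])] at h4
      simp only [R.dd, map_sub, map_nsmul] at h4 h5 ⊢
      linear_combination (norm := abel) h5 - h4
    · have h5 := h3 g hg hn
      rw [h2 _ (H.mul_mem hg hc) (GK_mul hn hk)] at h4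
      simp only [R.dd, map_sub, map_nsmul] at h4 h5 ⊢
      linear_combination (norm := abel) h5 - h4
  · push Not at e
    exact ⟨2 • P, fun g hg => by
      simp only [hP g ⟨hg, e g hg⟩, R.dd, map_nsmul, smul_sub]⟩

theorem half_three (k : ℕ) : ∃ u : ℕ, ∀ a : A, 3 ^ k • a = 0 → u • 2 • a = a := by
  obtain ⟨u, hu⟩ := (Odd.pow (n := k) (by decide : Odd 3)).add_one.two_dvd
  exact ⟨u, fun a h => by rw [← mul_smul, mul_comm, ← hu, add_smul, h, zero_add, one_smul]⟩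

theorem res_three {H : Subgroup GQ} {ξ : GQ → A} (h : Ca η H ξ) (h' : InL η (H ⊓ GK) ξ) {k : ℕ}
    (hk : ∀ g ∈ H, 3 ^ k • ξ g = 0) : InL η H ξ := by
  obtain ⟨u, hu⟩ := half_three (A := A) k
  obtain ⟨P, hP⟩ := res_two h h'
  exact ⟨u • P, fun g hg => by
    rw [← hu _ (hk g hg), show 2 • ξ g = _ from hP g hg, R.dd, R.dd, map_nsmul, smul_sub]⟩

/-- the corestriction -/
noncomputable def cor (η : Act A) (c : GQ) (x : GQ → A) (g : GQ) : A :=
  if g ∈ GK then x g + η c (x (c⁻¹ * g * c)) else η c (x (c⁻¹ * g)) + x (g * c)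

theorem cjG_mem {c g : GQ} (h : g ∈ GK) : c⁻¹ * g * c ∈ GK := by
  simpa using GK_on.1.conj_mem g h c⁻¹

theorem cor_coc {c : GQ} (hc : c ∉ GK) {x : GQ → A} (h : Ca η GK x) (g k : GQ) :
    cor η c x (g * k) = cor η c x g + η g (cor η c x k) := by
  have hc' : c⁻¹ ∉ GK := by rwa [GK.inv_mem_iff]
  by_cases hg : g ∈ GK <;> by_cases hk : k ∈ GK
  · rw [cor, cor, cor, if_pos hg, if_pos hk, if_pos (GK.mul_mem hg hk), h g hg k hk,
      show c⁻¹ * (g * k) * c = c⁻¹ * g * c * (c⁻¹ * k * c) by group, h _ (cjG_mem hg) _ (cjG_mem hk)]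
    simp only [map_add, ← R.act_mul, show c * (c⁻¹ * g * c) = g * c by group]
    abel
  · rw [cor, cor, cor, if_pos hg, if_neg hk, if_neg (by rwa [GK.mul_mem_cancel_left hg]),
      show c⁻¹ * (g * k) = c⁻¹ * g * c * (c⁻¹ * k) by group, h _ (cjG_mem hg) _ (GK_mul hc' hk),
      mul_assoc g, h g hg _ (GK_mul hk hc)]
    simp only [map_add, ← R.act_mul, show c * (c⁻¹ * g * c) = g * c by group]
    abel
  · rw [cor, cor, cor, if_neg hg, if_pos hk, if_neg (by rwa [GK.mul_mem_cancel_right hk]),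
      ← mul_assoc, h _ (GK_mul hc' hg) k hk, show g * k * c = g * c * (c⁻¹ * k * c) by group,
      h _ (GK_mul hg hc) _ (cjG_mem hk)]
    simp only [map_add, ← R.act_mul, mul_inv_cancel_left]
    abel
  · rw [cor, cor, cor, if_neg hg, if_neg hk, if_pos (GK_mul hg hk),
      show c⁻¹ * (g * k) * c = c⁻¹ * g * (k * c) by group, h _ (GK_mul hc' hg) _ (GK_mul hk hc),
      show g * k = g * c * (c⁻¹ * k) by group, h _ (GK_mul hg hc) _ (GK_mul hc' hk)]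
    simp only [map_add, ← R.act_mul, mul_inv_cancel_left]
    abel

theorem cor_lc {c : GQ} (hc : c ∉ GK) {x : GQ → A} (h : Lc GK x) : Lc ⊤ (cor η c x) := by
  obtain ⟨N, h1, h2⟩ := h
  have hc' : c⁻¹ ∉ GK := by rwa [GK.inv_mem_iff]
  refine ⟨N ⊓ GK, h1.inf GK_on, fun g _ k _ e => ?_⟩
  have e1 : c⁻¹ * (g⁻¹ * k) * c ∈ N := by simpa using h1.1.conj_mem _ e.1 c⁻¹
  by_cases hg : g ∈ GK
  · have hk : k ∈ GK := by simpa using GK.mul_mem hg e.2
    rw [cor, cor, if_pos hg, if_pos hk, h2 g hg k hk e.1, h2 (c⁻¹ * g * c) (cjG_mem hg)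
      (c⁻¹ * k * c) (cjG_mem hk) (by convert e1 using 1; group)]
  · have hk : k ∉ GK := fun hk => hg (by simpa using GK.mul_mem hk (GK.inv_mem e.2))
    rw [cor, cor, if_neg hg, if_neg hk, h2 _ (GK_mul hc' hg) _ (GK_mul hc' hk)
      (by rw [show (c⁻¹ * g)⁻¹ * (c⁻¹ * k) = g⁻¹ * k by group]; exact e.1), h2 _ (GK_mul hg hc) _ (GK_mul hk hc)
      (by convert e1 using 1; group)]

theorem ex_notGK : ∃ c : GQ, c ∉ GK := by
  by_contra h
  push Not at h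
  obtain ⟨q, hq⟩ := (InfiniteGalois.mem_range_algebraMap_iff_fixed (k := ℚ) w3).2
    fun g => mem_GK'.1 (h g)
  have := w3_spec
  rw [← hq, ← map_pow, ← map_add, ← map_one (algebraMap ℚ Qb), ← map_add, map_eq_zero] at this
  nlinarith [sq_nonneg (2 * q + 1)]

theorem cor_sq {J : A ≃ₗ[ℤ] A} {n k : ℕ} (hJ : Cm3 J) {c : GQ} (hc : c ∉ GK) {x : GQ → A}
    (h1 : Lc GK x) (h2 : Ca η GK x) (h3 : ∀ V : Plc, V.l ≠ 3 → ¬ V.l ∣ n → ∀ τ ∈ V.I, x τ = 0)
    (h4 : ∀ V : Plc, V.l = 3 ∨ V.l ∣ n → InL η V.D x) (h5 : ∀ g ∈ GK, 3 ^ k • x g = 0) :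
    cor η c x ∈ S.Sq J η n ∅ (2 * k) := by
  have hc' : c⁻¹ ∉ GK := by rwa [GK.inv_mem_iff]
  have h6 : ∀ g, 3 ^ k • cor η c x g = 0 := fun g => by
    unfold cor
    split_ifs with hg
    · rw [smul_add, ← map_nsmul, h5 g hg, h5 _ (cjG_mem hg), map_zero, add_zero]
    · rw [smul_add, ← map_nsmul, h5 _ (GK_mul hc' hg), h5 _ (GK_mul hg hc), map_zero, add_zero]
  have h7 : ∀ V : Plc, V.l = 3 ∨ V.l ∣ n → InL η (Dec V.v) (cor η c x) := fun V hV => by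
    refine res_three (fun g _ j _ => cor_coc hc h2 g j) ?_ fun g _ => h6 g
    obtain ⟨P, hP⟩ := h4 V hV
    obtain ⟨P', hP'⟩ := h4 (V.mv c) hV
    refine ⟨P + η c P', fun g hg => ?_⟩
    rw [cor, if_pos (show g ∈ GK from hg.2), hP g hg, hP' _ ((V.mv_D c _).2 (by
      rwa [show c * (c⁻¹ * g * c) * c⁻¹ = g by group]))]
    simp only [R.dd, map_add, map_sub, ← R.act_mul, show c * (c⁻¹ * g * c) = g * c by group]
    abel
  refine ⟨⟨cor_lc hc h1, cor_coc hc h2, fun g => (S.W_tor hJ k).2 (h6 g)⟩,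
    fun l _ γ e1 e2 _ τ hτ => ?_, h7 V3 (Or.inl rfl), fun l _ hl => h7 ⟨l, 1⟩ (Or.inr hl)⟩
  have hk := Ine_GK γ e1 hτ
  rw [cor, if_pos hk, h3 ⟨l, γ⟩ e1 e2 τ ⟨hτ, hk⟩, h3 (Plc.mv ⟨l, γ⟩ c) e1 e2 _
    ((Plc.mv_I _ c _).2 (by
      rw [show c * (c⁻¹ * τ * c) * c⁻¹ = τ by group]; exact ⟨hτ, hk⟩)), map_zero, add_zero]

/-- bounded exponent over the field of cube roots of unity -/
theorem bex_K {J : A ≃ₗ[ℤ] A} {n : ℕ} (hJ : Cm3 J) (hη : S.Ga J n η) (hB : Bex J η n) :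
    ∃ k₀ : ℕ, ∀ (k : ℕ) (x : GQ → A), Lc GK x → Ca η GK x →
      (∀ V : Plc, V.l ≠ 3 → ¬ V.l ∣ n → ∀ τ ∈ V.I, x τ = 0) →
      (∀ V : Plc, V.l = 3 ∨ V.l ∣ n → InL η V.D x) → (∀ g ∈ GK, 3 ^ k • x g = 0) →
      ∃ P : A, (∃ i : ℕ, 3 ^ i • P = 0) ∧ ∀ g ∈ GK, 3 ^ k₀ • x g = η g P - P := by
  obtain ⟨k₀, hB⟩ := hB
  obtain ⟨c, hc⟩ := ex_notGK
  refine ⟨k₀ + 1, fun k x h1 h2 h3 h4 h5 => ?_⟩
  have lin : ∀ g ∈ GK, ∀ u, η g (S.wo J u) = S.wo J (η g u) := fun g hg u => by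
    rw [S.wo_tw hJ hη, tw_pos _ hg]
  obtain ⟨P, ⟨i, hi⟩, hP⟩ := hB k _ (cor_sq hJ hc h1 h2 h3 h4 h5)
  obtain ⟨P', ⟨i', hi'⟩, hP'⟩ := hB k _ (cor_sq (x := fun g => S.wo J (x g)) hJ hc (h1.map _)
    (fun g hg j hj => by simp only [h2 g hg j hj, map_add, lin g hg])
    (fun V a b τ hτ => by simp only [h3 V a b τ hτ, map_zero])
    (fun V hV => (h4 V hV).elim fun Q hQ => ⟨S.wo J Q, fun g hg => by
      simp only [hQ g hg, R.dd, map_sub, lin g hg.2]⟩)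
    fun g hg => by rw [← map_nsmul, h5 g hg, map_zero])
  obtain ⟨u, hu⟩ := half_three (A := A) k
  refine ⟨-(u • S.wo J (S.wo J P + P')), ⟨i + i', ?_⟩, fun g hg => ?_⟩
  · have a1 : 3 ^ (i + i') • P = 0 := by rw [pow_add, mul_comm, mul_smul, hi, smul_zero]
    have a2 : 3 ^ (i + i') • P' = 0 := by rw [pow_add, mul_smul, hi', smul_zero]
    have a3 : 3 ^ (i + i') • (S.wo J P + P') = 0 := by
      rw [smul_add, ← map_nsmul, a1, a2, map_zero, add_zero]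
    rw [smul_neg, smul_comm, ← map_nsmul (S.wo J) (3 ^ _), a3]
    simp
  have e1 : 3 ^ k₀ • cor η c x g = η g P - P := congrFun hP g
  have e2 : 3 ^ k₀ • cor η c (fun g => S.wo J (x g)) g = η g P' - P' := congrFun hP' g
  rw [cor, if_pos hg] at e1 e2
  have e3 : η c (S.wo J (x (c⁻¹ * g * c))) = -S.wo J (η c (x (c⁻¹ * g * c))) := by
    rw [S.wo_tw hJ hη, tw_neg _ hc, neg_neg]
  have e4 : 2 • 3 ^ k₀ • S.wo J (x g) = η g (S.wo J P + P') - (S.wo J P + P') := by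
    have := congrArg (S.wo J) e1
    rw [map_nsmul, map_add, map_sub, ← lin g hg] at this
    rw [e3] at e2
    simp only [map_add, smul_add, smul_neg] at this e2 ⊢
    linear_combination (norm := abel) this + e2
  have e5 := congrArg (S.wo J) e4
  rw [map_nsmul, map_nsmul, wo_wo hJ, map_sub, ← lin g hg] at e5
  rw [map_neg, map_nsmul, neg_sub_neg, ← neg_sub, ← smul_sub, ← e5, smul_neg, smul_neg, smul_neg,
    neg_neg, hu _ (by rw [smul_comm, smul_comm (3 ^ k), h5 g hg, smul_zero, smul_zero]), pow_succ,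
    mul_smul]

end Pool.Agent.MP_e23604_nt.W

end

section

/-!
The cubic character of a cubic, auxiliary primes, and the bound for the three-primary part.
-/

set_option autoImplicit false

open Finset
open scoped Classical

namespace Pool.Agent.MP_e23604_nt.W

open B R S

theorem tw_kum (hKAP : S.KAP_st) (hTAM : S.TAM_st) (hFAC : FAC_st) (hPLK : PLK_st) {D r : ℕ}
    (hD : D ≠ 0) (hsf : Squarefree r)
    (h1 : ∀ l : ℕ, l.Prime → (l ∣ r ↔ l ≠ 3 ∧ ¬ 3 ∣ D.factorization l)) :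
    Tw (fun g => 2 * kum D g) r := by
  have hD' : (D : ℚ) ≠ 0 := Nat.cast_ne_zero.2 hD
  have hk : ∀ V : Plc, V.l ≠ 3 → ∀ τ ∈ Ine V.l V.γ,
      kum D τ = (D.factorization V.l : ZMod 3) * kum V.l τ := fun V h3 τ hτ => by
    rw [hKAP.2.2.2.2.1 V.l V.γ D h3 hD' τ hτ, padicValRat.of_nat,
      Nat.factorization_def D V.hl.out, Int.cast_natCast]
  refine ⟨hsf, fun h => ((h1 3 Nat.prime_three).1 h).1 rfl, fun g hg h _ => ?_,
    ((hKAP.1 D hD').2.1.mono le_top).map _, fun V hV τ hτ => ?_, fun V hV => ?_,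
    fun g hg => ?_⟩
  · rw [(hKAP.1 D hD').1 g trivial h trivial, ep_pos hg, one_mul, mul_add]
  · rw [Ov_mul, not_or, show (3 : Zw) = (3 : ℕ) from rfl, hPLK.2.2.2.1, hPLK.2.2.2.1] at hV
    have h3 : V.l ≠ 3 := fun e => hV.1 (e ▸ dvd_rfl)
    have h4 : 3 ∣ D.factorization V.l := by_contra fun e => hV.2 ((h1 _ V.hl.out).2 ⟨h3, e⟩)
    show 2 * kum D τ = 0
    rw [hk V h3 τ hτ.1, (ZMod.natCast_eq_zero_iff _ 3).2 h4, zero_mul, mul_zero]
  · obtain ⟨h3, h4⟩ := (h1 _ V.hl.out).1 ((hPLK.2.2.2.1 V r).1 hV)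
    obtain ⟨hG, ⟨σ, hσ, hs⟩, -⟩ := hTAM V.l V.γ h3
    refine ⟨σ, ⟨hσ, hG hσ⟩, ?_⟩
    rw [hk V h3 σ hσ, hs, mul_one]
    exact mul_ne_zero (by decide) fun e => h4 ((ZMod.natCast_eq_zero_iff _ 3).1 e)
  · show 2 * kum D g = 0
    rw [hFAC D r hD hsf.ne_zero (fun l hl a b => (h1 l hl).2 ⟨a, b⟩) g hg, mul_zero]

theorem ex_adm (hPLK : PLK_st) {r : ℕ} (hr : r ≠ 0) (B : ℕ) : ∃ a, Adm r a ∧ B < nn a := by
  obtain ⟨q, h1, h2, h3⟩ := Nat.forall_exists_prime_gt_and_modEq (B + 6 * r) (q := 9) (a := 4)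
    (by norm_num) (by norm_num)
  have := Fact.mk h2
  have h4 : q % 9 = 4 := h3
  obtain ⟨a, a1, a2, -, a3⟩ := hPLK.1 ⟨q, 1⟩
  obtain ⟨b1, -, b2, -⟩ := hPLK.2.2.1 _ a a1 a2
  have h5 : nn a = q := by
    dsimp only at b2
    omega
  refine ⟨a, ⟨a3 (by dsimp only; omega), h5 ▸ h2, a1.irreducible.coprime_iff_not_dvd.2 fun e => ?_,
    by omega⟩, by omega⟩
  have := Nat.le_of_dvd (by omega) ((hPLK.2.2.2.1 ⟨q, 1⟩ (6 * r)).1 ((b1 _).2 (by exact_mod_cast e)))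
  dsimp only at this
  omega

theorem inst_two (hJEX : JEX_st) (hGA : S.GA_st) (hWP : WP_st) (hFER : FER_st) (hISM : ISM_st)
    (hTABM : TABM_st) (hTABZ : TABZ_st) {D : ℕ} (hD : D ≠ 0) (hG : S.Gen D) :
    ∃ (J : Pts (E3 0 D) Qb ≃ₗ[ℤ] Pts (E3 0 D) Qb) (n a : ℕ)
      (ψ : Pts (E3 0 D) Qb ≃+ Pts (EK (-432 * D ^ 2)) Qb),
      P1 J (tw (gA (E3 0 D))) n (T 0 D Qb) true ∧ Eqv (EK (-432 * D ^ 2)) (tw (gA (E3 0 D))) ψ ∧
      Ind (tw (gA (E3 0 D))) (T 0 D Qb) a ∧ Ind (tw (tw (gA (E3 0 D)))) (T 0 D Qb) (2 - a) ∧ a ≤ 2 ∧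
      (a + d2 n) % 2 = par3 D ∧
      ∀ l : ℕ, l.Prime → (l ∣ n ↔ l ≠ 3 ∧ ¬ 3 ∣ D.factorization l) := by
  obtain ⟨J, hJ, hcm, hT, hty⟩ := hJEX D hD
  obtain ⟨n, hsf, hn⟩ := ex_n_SINST D
  have h1 : ∀ l : ℕ, l.Prime → (l ∣ n ↔ l ≠ 3 ∧ ¬ 3 ∣ D.factorization l) := fun l hl => by
    have e : l ∣ n ↔ l ∈ n.primeFactors := by simp [hl, hsf.ne_zero]
    rw [e, hn, mem_filter]
    refine and_iff_right_of_imp fun h => ?_
    rw [← Nat.support_factorization, Finsupp.mem_support_iff]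
    intro e'
    exact h.2 (e' ▸ dvd_zero 3)
  have h2 : ∀ l : ℕ, l.Prime → l ≠ 3 → ¬ 3 ∣ D.factorization l → l ∈ n.primeFactors :=
    fun l hl h h' => Nat.mem_primeFactors.2 ⟨hl, (h1 l hl).2 ⟨h, h'⟩, hsf.ne_zero⟩
  have n3 : ¬ 3 ∣ n := fun h => ((h1 3 Nat.prime_three).1 h).1 rfl
  have hga := hGA D n J hD hJ hcm h1
  obtain ⟨ψ, hψ⟩ := hISM D hD
  obtain ⟨e1, e2⟩ := split_SINST D hD
  set D₀ := D / 27 ^ (D.factorization 3 / 3) with hD₀
  have h0 : D₀ ≠ 0 := fun e => hD (by rw [e1, e, mul_zero])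
  obtain ⟨F, hF⟩ := hFER D _ D₀ hD e1
  have hc : (-432 * (D : ℤ) ^ 2) ≠ 0 :=
    mul_ne_zero (by norm_num) (pow_ne_zero _ (Nat.cast_ne_zero.2 hD))
  obtain ⟨⟨l, a1, a2, a3, a4⟩, l', b1, b2, b3, b4⟩ := hG
  refine ⟨J, n, aM D₀, ψ,
    ⟨hcm, hT, hty.tw hcm hT.1, n3, hsf, ⟨l, h2 l a1 a2 a3, a4⟩, ⟨l', h2 l' b1 b2 b3, b4⟩,
      hga.tw n3, hWP _ J _ _ ψ (EK_ell hc) hcm (hga.tw n3).opn hψ, ?_⟩, hψ,
    hTABM _ J _ _ _ F hcm hT hF h0 e2, hTABZ _ J _ _ _ F hcm hT hF h0 e2, ?_, ?_, h1⟩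
  · rw [tw_tw]
    exact hWP _ J _ _ (AddEquiv.refl _) (E3_ell hD) hcm hga.opn fun _ _ => rfl
  · unfold aM
    split_ifs <;> omega
  · have e3 : d2 n = (D.primeFactors.filter fun l => l % 3 = 2 ∧ ¬ 3 ∣ D.factorization l).card := by
      rw [d2, hn, filter_filter]
      refine congrArg card (filter_congr fun l _ => ⟨fun h => ⟨h.2, h.1.2⟩, fun h =>
        ⟨⟨by omega, h.2⟩, h.1⟩⟩)
    rw [par3, ← e3, ← hD₀, aM]
    simp only [mem_insert, mem_singleton]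
    split_ifs <;> omega

theorem bex_of (hCOV : COV_st) (hPAR : S.PAR_st) (hFIN : S.FIN_st) (hFSQ : FSQ_st) (hSHA : S.SHA_st)
    (hFG : FG_st) {A : Type} [AddCommGroup A] {J : A ≃ₗ[ℤ] A} {η : Act A} {n a : ℕ} {T : A} {c : ℤ}
    {ψ : A ≃+ Pts (EK c) Qb} (hc : c ≠ 0) (hP : P1 J η n T true) (hE : Eqv (EK c) η ψ)
    (hi : Ind η T a) (hi' : Ind (tw η) T (2 - a)) (ha : a ≤ 2) (e : (a + d2 n) % 2 = 0)
    (hC : Cork3 (EK c)) : Bex J η n := by
  have hS := hSHA A J η n T true hP _ ψ hc hE (hFG A J η n T true hP _ ψ hc hE)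
  have hQ := hPAR A J η n T a (2 - a) hP (hCOV A J η n T true hP a hi)
    (hCOV A J (tw η) n T false hP.tw _ hi') (by omega)
  have h0 : ∀ k, Nk J η n k ≠ 0 := fun k => by
    have := hFSQ A J η n T true hP (2 * k)
    exact AddSubgroup.index_ne_zero_of_finite
  obtain ⟨t, ht⟩ := Nat.dvd_of_mod_eq_zero e
  obtain ⟨C, hC'⟩ := hC
  exact hFIN A J η n T true hP ⟨C, fun k => ⟨h0 k, by
    have := (hS k).trans (hC' k)
    exact_mod_cast this⟩⟩ fun k hk => sq_rem_SALL (t := k * t) (by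
      have := hQ k hk
      rwa [ht, mul_left_comm] at this)

theorem hb_of (hPLK : PLK_st) {A : Type} [AddCommGroup A] {J : A ≃ₗ[ℤ] A} {η : Act A} {n : ℕ}
    (hJ : Cm3 J) (hη : S.Ga J n η) (hB : Bex J η n) {χ : GQ → ZMod 3} (Ψ : A ≃+ Pt)
    (hΨ : ∀ g ∈ GK, ∀ P, Ψ (η g P) = eta χ g (Ψ P)) : HB χ n := by
  obtain ⟨k₀, h⟩ := bex_K hJ hη hB
  have h2 : ∀ g ∈ GK, ∀ P, η g (Ψ.symm P) = Ψ.symm (eta χ g P) := fun g hg P =>
    Ψ.injective (by rw [hΨ g hg, Ψ.apply_symm_apply, Ψ.apply_symm_apply])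
  have h3 : ∀ V : Plc, Ov V (3 * n) ↔ V.l = 3 ∨ V.l ∣ n := fun V => by
    rw [Ov_mul, show (3 : Zw) = (3 : ℕ) from rfl, hPLK.2.2.2.1, hPLK.2.2.2.1,
      Nat.prime_dvd_prime_iff_eq V.hl.out Nat.prime_three]
  refine ⟨k₀, fun k x hx hk => ?_⟩
  obtain ⟨P, ⟨i, hi⟩, hP⟩ := h k (fun g => Ψ.symm (x g)) (hx.1.1.map _)
    (fun g hg j hj => by simp only [hx.1.2 g hg j hj, map_add, h2 g hg])
    (fun V a b τ hτ => by
      simp only [hx.2.1 V (fun e => ((h3 V).1 e).elim a b) τ hτ, map_zero])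
    (fun V hV => (hx.2.2 V ((h3 V).2 hV)).elim fun Q hQ => ⟨Ψ.symm Q, fun g hg => by
      simp only [hQ g hg, R.dd, map_sub, h2 g hg.2]⟩)
    fun g hg => by rw [← map_nsmul, hk g hg, map_zero]
  exact ⟨Ψ P, ⟨i, by rw [← map_nsmul, hi, map_zero]⟩, fun g hg => by
    rw [← hΨ g hg, ← map_sub, ← hP g hg, map_nsmul, Ψ.apply_symm_apply]⟩

end Pool.Agent.MP_e23604_nt.W

end

section

set_option autoImplicit false

open Module Filter Topology Finset
open scoped Classical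

namespace Pool.Agent.MP_e23604_nt.S

open B R
open Q (Wn)

section aux

open WeierstrassCurve

variable {c : ℤ} {F : Type} [Field F] [CharZero F]

theorem a_SAPX0 : ((EK c).baseChange F).toAffine.a₁ = 0 ∧ ((EK c).baseChange F).toAffine.a₂ = 0 ∧
    ((EK c).baseChange F).toAffine.a₃ = 0 ∧ ((EK c).baseChange F).toAffine.a₄ = 0 ∧
    ((EK c).baseChange F).toAffine.a₆ = c := by
  simp [EK, baseChange]

theorem ns_SAPX0 (hc : c ≠ 0) {x y : F} :
    ((EK c).baseChange F).toAffine.Nonsingular x y ↔ y ^ 2 = x ^ 3 + c := by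
  obtain ⟨a1, a2, a3, a4, a6⟩ := a_SAPX0 (c := c) (F := F)
  have h : ((EK c).baseChange F).Δ ≠ 0 := by
    have : ((EK c).baseChange F).Δ = ((EK c).Δ : F) := by simp [baseChange]
    rw [this]
    exact_mod_cast (EK_ell hc).isUnit.ne_zero
  rw [← Affine.equation_iff_nonsingular_of_Δ_ne_zero h, Affine.equation_iff, a1, a2, a3, a4, a6]
  simp

variable {l : ℕ} [Fact l.Prime]

theorem cube_SAPX0 (r : Qb) (a : AlgebraicClosure ℚ_[l]) (h : a ^ 3 = emb ℚ_[l] r) :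
    ∃ b : Qb, emb ℚ_[l] b = a := by
  obtain ⟨b, rfl⟩ := IsAlgClosed.exists_pow_nat_eq r three_pos
  have h1 := congrArg (emb ℚ_[l]) w3_spec
  have h2 := congrArg (emb ℚ_[l]) w3_cube
  simp only [map_add, map_pow, map_one, map_zero] at h h1 h2
  have h3 : (a - emb ℚ_[l] b) * ((a - emb ℚ_[l] (w3 * b)) * (a - emb ℚ_[l] (w3 ^ 2 * b))) = 0 := by
    simp only [map_mul, map_pow]
    linear_combination h + (a * emb ℚ_[l] b ^ 2 - a ^ 2 * emb ℚ_[l] b) * h1 +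
      (a * emb ℚ_[l] b ^ 2 - emb ℚ_[l] b ^ 3) * h2
  simp only [mul_eq_zero, sub_eq_zero] at h3
  rcases h3 with e | e | e <;> exact ⟨_, e.symm⟩

theorem lift_SAPX0 (hc : c ≠ 0) {x y : ℚ_[l]}
    (h : ((EK c).baseChange ℚ_[l]).toAffine.Nonsingular x y) (u : Qb)
    (hu : emb ℚ_[l] u = algebraMap ℚ_[l] (AlgebraicClosure ℚ_[l]) x) :
    ∃ P₁ : Pts (EK c) Qb, act (EK c) (algebraMap ℚ_[l] (AlgebraicClosure ℚ_[l])) (.some x y h) =
      act (EK c) (emb ℚ_[l]) P₁ := by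
  have h1 := congrArg (algebraMap ℚ_[l] (AlgebraicClosure ℚ_[l])) ((ns_SAPX0 hc).1 h)
  rw [map_pow, map_add, map_pow, map_intCast] at h1
  obtain ⟨v, hv⟩ := root_APX0 (u ^ 3 + c) (algebraMap ℚ_[l] _ y) (by
    rw [h1, map_add, map_pow, map_intCast, hu])
  have h2 : v ^ 2 = u ^ 3 + c := (emb ℚ_[l]).injective (by
    rw [map_pow, hv, h1, map_add, map_pow, map_intCast, hu])
  refine ⟨.some u v ((ns_SAPX0 hc).2 h2), ?_⟩
  change Affine.Point.some _ _ _ = Affine.Point.some _ _ _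
  congr 1
  exacts [hu.symm, hv.symm]

theorem near_SAPX0 (hc : c ≠ 0) {x y : ℚ_[l]}
    (h : ((EK c).baseChange ℚ_[l]).toAffine.Nonsingular x y) (hy : y ≠ 0)
    (hx : ∀ q : ℚ, x ≠ q) (M : ℝ) :
    ∃ (q : ℚ) (v X Y : ℚ_[l]) (h₁ : ((EK c).baseChange ℚ_[l]).toAffine.Nonsingular q v)
      (h₂ : ((EK c).baseChange ℚ_[l]).toAffine.Nonsingular X Y), M < ‖X‖ ∧
      (.some x y h - .some X Y h₂ : Pts (EK c) ℚ_[l]) = .some q v h₁ := by
  obtain ⟨a1, a2, a3, -⟩ := a_SAPX0 (c := c) (F := ℚ_[l])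
  have h0 := (ns_SAPX0 hc).1 h
  have t0 := t0_APX0 (l := l)
  have y0 : 0 < ‖y‖ := norm_pos_iff.2 hy
  have e1 : ∀ᶠ u in 𝓝 x, ‖(u ^ 3 + c) / y ^ 2 - 1‖ < ‖(2 : ℚ_[l])‖ ^ 2 :=
    ContinuousAt.eventually_lt (by fun_prop) continuousAt_const (by
      rw [← h0, div_self (pow_ne_zero _ hy), sub_self, norm_zero]
      positivity)
  have e2 : ∀ᶠ u in 𝓝 x, (M + ‖x‖ + ‖u‖) * ‖x - u‖ ^ 2 < (‖y‖ * ‖(2 : ℚ_[l])‖) ^ 2 :=
    ContinuousAt.eventually_lt (by fun_prop) continuousAt_const (by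
      rw [sub_self, norm_zero, zero_pow two_ne_zero, mul_zero]
      positivity)
  obtain ⟨q, q1, q2⟩ := (Padic.denseRange_ratCast l).mem_nhds (e1.and e2)
  obtain ⟨s, s1, -, s3, -⟩ := sq_APX0 q1
  have hv : (s * y) ^ 2 = (q : ℚ_[l]) ^ 3 + c := by
    rw [mul_pow, s1, div_mul_cancel₀ _ (pow_ne_zero _ hy)]
  have hq : x - q ≠ 0 := sub_ne_zero.2 (hx q)
  have h₁ := (ns_SAPX0 hc).2 hv
  have h₃ := (Affine.nonsingular_neg _ _).2 h₁
  refine ⟨q, s * y, _, _, h₁, Affine.nonsingular_add h h₃ fun e => hx q e.left, ?_, ?_⟩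
  · rw [Affine.slope_of_X_ne (hx q), Affine.addX, Affine.negY, a1, a2, a3,
      show y - (-(s * y) - 0 * q - 0) = y * (s + 1) by ring, zero_mul, add_zero, sub_zero]
    have c1 : M + ‖x‖ + ‖(q : ℚ_[l])‖ < ‖(y * (s + 1) / (x - q)) ^ 2‖ := by
      rw [norm_pow, norm_div, norm_mul, s3, div_pow,
        lt_div_iff₀ (pow_pos (norm_pos_iff.2 hq) 2)]
      exact q2
    have c2 := norm_sub_norm_le ((y * (s + 1) / (x - q)) ^ 2 - x) (q : ℚ_[l])
    have c3 := norm_sub_norm_le ((y * (s + 1) / (x - q)) ^ 2) x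
    linarith
  · rw [← Affine.Point.add_of_X_ne (h₁ := h) (h₂ := h₃) (hx q), sub_add_cancel_left,
      ← Affine.Point.neg_some h₁, neg_neg]

end aux

theorem APX0_pf (hDIVL : DIVL_st) : APX0_st := by
  intro c l _ k P hc
  rcases P with _ | ⟨x, y, h⟩
  · exact ⟨0, 0, by
      rw [nsmul_zero, sub_zero, map_zero]
      exact map_zero _⟩
  by_cases hx : ∀ q : ℚ, x ≠ q
  · by_cases hy : y = 0
    · have h1 : x ^ 3 = -(c : ℚ_[l]) := by
        have := (ns_SAPX0 hc).1 h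
        rw [hy] at this
        linear_combination -this
      obtain ⟨u, hu⟩ := cube_SAPX0 (l := l) (-(c : Qb)) (algebraMap ℚ_[l] _ x) (by
        rw [← map_pow, h1, map_neg, map_neg, map_intCast, map_intCast])
      obtain ⟨P₁, hP⟩ := lift_SAPX0 hc h u hu
      exact ⟨P₁, 0, by rw [nsmul_zero, sub_zero, hP]⟩
    · obtain ⟨M, hM⟩ := hDIVL c l k hc
      obtain ⟨q, v, X, Y, h1, h2, h3, h4⟩ := near_SAPX0 hc h hy hx M
      obtain ⟨S, hS⟩ := hM X Y h2 h3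
      obtain ⟨P₁, hP⟩ := lift_SAPX0 hc h1 (q : Qb) (by rw [map_ratCast, map_ratCast])
      exact ⟨P₁, S, by rw [hS, h4, hP]⟩
  · obtain ⟨q, hq⟩ := not_forall.1 hx
    obtain rfl := not_not.1 hq
    obtain ⟨P₁, hP⟩ := lift_SAPX0 hc h (q : Qb) (by rw [map_ratCast, map_ratCast])
    exact ⟨P₁, 0, by rw [nsmul_zero, sub_zero, hP]⟩

end Pool.Agent.MP_e23604_nt.S

end

section

/-!
Locally trivial cocycles of finite order are locally coboundaries of algebraic points.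
-/

set_option autoImplicit false

open Finset
open scoped Classical

namespace Pool.Agent.MP_e23604_nt.W

open B R S

theorem divl (hFXP : FXP_st) {c : ℤ} (l : ℕ) [Fact l.Prime] {k : ℕ} (hk : k ≠ 0) (hc : c ≠ 0) :
    ∃ M : ℝ, ∀ (x y : ℚ_[l]) (h : ((EK c).baseChange ℚ_[l]).toAffine.Nonsingular x y), M < ‖x‖ →
      ∃ S : Pts (EK c) ℚ_[l], k • S = .some x y h := by
  have := EK_ell hc
  have : ((EK c).baseChange (PadicAlgCl l)).IsElliptic :=
    inferInstanceAs ((EK c).map (algebraMap ℚ (PadicAlgCl l))).IsElliptic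
  have hv : IsNonarchimedean (NormedField.toAbsoluteValue (PadicAlgCl l)) :=
    fun x y => IsUltrametricDist.norm_add_le_max x y
  have hW := intg_SDIVL c l
  obtain ⟨t, ht⟩ : ∃ t, t = NormedField.toAbsoluteValue (PadicAlgCl l) (k : _) := ⟨_, rfl⟩
  have t0 : 0 < t := by
    rw [ht]
    exact AbsoluteValue.pos _ (Nat.cast_ne_zero.2 hk)
  refine ⟨max 1 (1 / t ^ 4), fun x y h hx => ?_⟩
  obtain ⟨h', e⟩ := BSel_act_some (EK c) (algebraMap ℚ_[l] (PadicAlgCl l)) h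
  have hn : NormedField.toAbsoluteValue (PadicAlgCl l) (algebraMap ℚ_[l] (PadicAlgCl l) x) = ‖x‖ :=
    norm_algebraMap' (PadicAlgCl l) x
  have s1 : E1 (NormedField.toAbsoluteValue (PadicAlgCl l))
      (WeierstrassCurve.Affine.Point.some _ _ h') := by
    rw [E1_some, hn]
    exact (le_max_left _ _).trans_lt hx
  have s2 := btors_xz hv hW (WeierstrassCurve.Affine.Point.some_ne_zero h') s1
  simp only [WeierstrassCurve.Affine.Point.xRep_some, Matrix.cons_val_zero] at s2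
  rw [hn] at s2
  have s3 : NormedField.toAbsoluteValue (PadicAlgCl l)
      (zz (WeierstrassCurve.Affine.Point.some _ _ h')) < t ^ 2 := by
    have h1 := (div_lt_iff₀ (pow_pos t0 4)).1 ((le_max_right _ _).trans_lt hx)
    generalize NormedField.toAbsoluteValue (PadicAlgCl l)
      (zz (WeierstrassCurve.Affine.Point.some _ _ h')) = z at s2
    by_contra h2
    have h3 := pow_le_pow_left₀ (sq_nonneg t) (not_lt.1 h2) 2
    have h4 := mul_le_mul_of_nonneg_left h3 (norm_nonneg x)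
    nlinarith
  rw [ht] at s3
  obtain ⟨D, ⟨d1, d2, d3⟩, hD⟩ := L.div_st (PadicAlgCl l) _ ((EK c).baseChange (PadicAlgCl l))
    k _ hv hW (by positivity) s1 s3
  obtain ⟨S, hS⟩ := hFXP (EK c) ℚ_[l] D fun σ => by
    obtain ⟨c1, c2⟩ := act_SDIVL (EK c) l σ D d2
    refine hD _ ⟨?_, c1, c2.trans_lt d3⟩
    rw [← map_nsmul, d1, ← e, BSel_act_act]
    congr 2
    exact RingHom.ext σ.commutes
  refine ⟨S, BSel_act_inj (EK c) (algebraMap ℚ_[l] (PadicAlgCl l)) ?_⟩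
  rw [map_nsmul, e, ← d1]
  exact congrArg _ hS

theorem apx_zero (hFXP : FXP_st) {c : ℤ} (l : ℕ) [Fact l.Prime] {k : ℕ} (hk : k ≠ 0) (hc : c ≠ 0)
    (P : Pts (EK c) ℚ_[l]) : ∃ (P₁ : Pts (EK c) Qb) (S : Pts (EK c) ℚ_[l]),
      act (EK c) (algebraMap ℚ_[l] (AlgebraicClosure ℚ_[l])) (P - k • S) =
        act (EK c) (emb ℚ_[l]) P₁ := by
  rcases P with _ | ⟨x, y, h⟩
  · exact ⟨0, 0, by
      rw [nsmul_zero, sub_zero, map_zero]
      exact map_zero _⟩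
  by_cases hx : ∀ q : ℚ, x ≠ q
  · by_cases hy : y = 0
    · have h1 : x ^ 3 = -(c : ℚ_[l]) := by
        have := (ns_SAPX0 hc).1 h
        rw [hy] at this
        linear_combination -this
      obtain ⟨u, hu⟩ := cube_SAPX0 (l := l) (-(c : Qb)) (algebraMap ℚ_[l] _ x) (by
        rw [← map_pow, h1, map_neg, map_neg, map_intCast, map_intCast])
      obtain ⟨P₁, hP⟩ := lift_SAPX0 hc h u hu
      exact ⟨P₁, 0, by rw [nsmul_zero, sub_zero, hP]⟩
    · obtain ⟨M, hM⟩ := divl hFXP l hk hc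
      obtain ⟨q, v, X, Y, h1, h2, h3, h4⟩ := near_SAPX0 hc h hy hx M
      obtain ⟨S, hS⟩ := hM X Y h2 h3
      obtain ⟨P₁, hP⟩ := lift_SAPX0 hc h1 (q : Qb) (by rw [map_ratCast, map_ratCast])
      exact ⟨P₁, S, by rw [hS, h4, hP]⟩
  · obtain ⟨q, hq⟩ := not_forall.1 hx
    obtain rfl := not_not.1 hq
    obtain ⟨P₁, hP⟩ := lift_SAPX0 hc h (q : Qb) (by rw [map_ratCast, map_ratCast])
    exact ⟨P₁, 0, by rw [nsmul_zero, sub_zero, hP]⟩

theorem apx_one (hFXP : FXP_st) {D : ℤ} (l : ℕ) [Fact l.Prime] {k : ℕ} (hk : k ≠ 0) (hD : D ≠ 0)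
    {ξ : GQ → Pts (EK D) Qb} (h0 : ξ ∈ cocycles (EK D)) (hξ : ∀ g, k • ξ g = 0)
    (hl : LocTriv (EK D) ℚ_[l] ξ) : InL (gA (EK D)) (Dec (nv l 1)) ξ := by
  have ell := EK_ell hD
  have e1 : ((EK D).baseChange Qb).IsElliptic :=
    inferInstanceAs ((EK D).map _).IsElliptic
  obtain ⟨Z, hR⟩ := hl
  obtain ⟨T, hT⟩ := hFXP (EK D) ℚ_[l] (k • Z) fun σ => by
    obtain ⟨τ, hτ⟩ := exists_res ℚ_[l] σ
    have h := congrArg (fun z => k • z) (hR σ τ hτ)
    simp only [← map_nsmul, hξ τ, map_zero, smul_sub] at h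
    exact (sub_eq_zero.1 h.symm)
  obtain ⟨T₁, S, hS⟩ := apx_zero hFXP l hk hD T
  obtain ⟨R₁, hR₁⟩ : ∃ R₁ : Pts (EK D) Qb, k • R₁ = T₁ :=
    B.smul_surj (W := (EK D).baseChange Qb) (by positivity) T₁
  obtain ⟨U, -, hU⟩ := Q.tors_XStc (EK D) (emb ℚ_[l]) (n := k) (by positivity)
    (Z - act (EK D) (algebraMap ℚ_[l] (AlgebraicClosure ℚ_[l])) S -
      act (EK D) (emb ℚ_[l]) R₁) (by
      rw [nsmul_sub, nsmul_sub, ← hT, ← map_nsmul, ← map_nsmul, ← map_sub, hS, hR₁, sub_self])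
  have h1 : act (EK D) (emb ℚ_[l]) (R₁ + U) =
      Z - act (EK D) (algebraMap ℚ_[l] (AlgebraicClosure ℚ_[l])) S := by
    rw [map_add, hU]; abel
  refine ⟨R₁ + U, fun g hg => sub_eq_zero.1 ?_⟩
  have hc : ξ - B.BSel_dd (EK D) (R₁ + U) ∈ cocycles (EK D) :=
    sub_mem h0 (B.BSel_dd_mem _ _)
  obtain ⟨X, hX⟩ := B.BSel_finset hc.1 g
  obtain ⟨σ, τ, hσ, h2⟩ := (R.DL_pf l g hg).1 X
  refine (hX τ h2).symm.trans (B.BSel_act_inj (EK D) (emb ℚ_[l]) ?_)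
  change act (EK D) (emb ℚ_[l]) (ξ τ - (galQ (EK D) τ (R₁ + U) - (R₁ + U))) = _
  rw [map_zero, map_sub, map_sub, hR σ τ hσ, Q.gal_XStc _ hσ, h1, map_sub, Q.fix_XStc]
  abel

theorem inl_conj {A : Type} [AddCommGroup A] {η : Act A} {ξ : GQ → A} (h : Ca η ⊤ ξ) (V : Plc)
    (h' : InL η (Dec (nv V.l 1)) ξ) : InL η (Dec V.v) ξ := by
  obtain ⟨P, hP⟩ := h'
  refine ⟨η V.γ⁻¹ (P + ξ V.γ), fun g hg => (η V.γ).injective ?_⟩
  have e := hP _ ((mem_Dec_conj V.l 1 V.γ g).1 (by rwa [one_mul]))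
  have e1 := h (V.γ * g * V.γ⁻¹) trivial V.γ trivial
  rw [inv_mul_cancel_right, h _ trivial g trivial, e] at e1
  simp only [R.dd, map_sub, map_add, ← R.act_mul, mul_inv_cancel, map_one, LinearEquiv.coe_one,
    id_eq, mul_assoc] at e1 ⊢
  linear_combination (norm := abel) e1

end Pool.Agent.MP_e23604_nt.W

end

section

/-!
From bounds for the exponents to the finiteness of the Tate-Shafarevich group.
-/

set_option autoImplicit false

open Finset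
open scoped Classical

namespace Pool.Agent.MP_e23604_nt.W

open B R S

theorem grp_kill {M : Type} [AddCommGroup M] {N : ℕ}
    (h : ∀ p k : ℕ, p.Prime → ∀ x : M, p ^ k • x = 0 → N • x = 0) (m : ℕ) :
    m ≠ 0 → ∀ x : M, m • x = 0 → N • x = 0 := by
  induction m using Nat.recOnPosPrimePosCoprime with
  | prime_pow p k hp _ => exact fun _ => h p k hp
  | zero => exact fun e => absurd rfl e
  | one => exact fun _ x e => by rw [one_smul] at e; rw [e, smul_zero]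
  | coprime a b ha hb hab i1 i2 =>
    intro _ x e
    obtain ⟨u, v, e'⟩ := Nat.isCoprime_iff_coprime.2 hab
    have e1 := i1 (by omega) (b • x) (by rwa [← mul_smul])
    have e2 := i2 (by omega) (a • x) (by rwa [← mul_smul, mul_comm])
    rw [← one_smul ℤ x, ← e', add_smul, mul_smul, mul_smul, natCast_zsmul, natCast_zsmul, smul_add,
      smul_comm N u, smul_comm N v, e1, e2, smul_zero, smul_zero, add_zero]

theorem grp_fin {M : Type} [AddCommGroup M] (h : ∀ p : ℕ, p.Prime → {x : M | p • x = 0}.Finite)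
    (m : ℕ) : m ≠ 0 → {x : M | m • x = 0}.Finite := by
  induction m using induction_on_primes with
  | zero => exact fun e => absurd rfl e
  | one => exact fun _ => by simp
  | prime_mul p a hp ih =>
    intro e
    refine Set.Finite.of_finite_fibers (a • ·) ((h p hp).subset ?_) ?_
    · rintro _ ⟨x, hx, rfl⟩
      exact (mul_smul p a x).symm.trans hx
    · rintro _ ⟨x, -, rfl⟩
      refine ((ih (right_ne_zero_of_mul e)).image (x + ·)).subset fun y hy =>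
        ⟨y - x, ?_, add_sub_cancel x y⟩
      exact (smul_sub a y x).trans (sub_eq_zero.2 hy.2)

theorem h1_tors (W : WeierstrassCurve ℚ) (x : H1 (galQ W)) : ∃ m : ℕ, m ≠ 0 ∧ m • x = 0 := by
  obtain ⟨ξ, rfl⟩ := QuotientAddGroup.mk_surjective x
  obtain ⟨N, h1, h2⟩ := lc_iff.1 ξ.2.1
  have hX := Xs_trv h1.2 (le_top (a := N))
  obtain ⟨y, ⟨hy, -⟩, -⟩ := hX.2 1 trivial
  refine ⟨(Xs N ⊤).card, card_ne_zero_of_mem hy,
    (QuotientAddGroup.eq_zero_iff ((Xs N ⊤).card • ξ)).2 ⟨-∑ y ∈ Xs N ⊤, ξ.1 y, ?_⟩⟩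
  rintro g _ rfl
  have := hX.sum_mul (F := ξ.1) (fun g _ u hu => (h2 g trivial _ trivial (by simpa)).symm)
    (g := g) trivial
  simp only [ξ.2.2 g, sum_add_distrib, sum_const, ← map_sum] at this
  change (Xs N ⊤).card • ξ.1 g = _
  rw [map_neg]
  linear_combination (norm := abel) this

variable {χ : GQ → ZMod 3} {r : ℕ}

theorem selK_unr (hINE : INE_st) (hT : Tw χ r) {x : GQ → Pt} (hx : SelK χ x) {n : ℕ}
    (hn : ∀ g ∈ GK, n • x g = 0) : Unr (3 * r * n) x := by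
  intro V hV τ hτ
  rw [Ov_mul, not_or] at hV
  obtain ⟨P, hP⟩ := hx.2 V
  have e := hP τ (V.I_le hτ)
  rw [eta_apply, hT.unr V hV.1 τ hτ, ZMod.val_zero, pow_zero, one_smul] at e
  refine E1_tor (e ▸ (hINE V (fun h => hV.1 (Ov_mul.2 (Or.inl h))) τ hτ).1 P) hV.2 ?_
  rw [Nat.cast_smul_eq_nsmul, hn τ hτ.2]

theorem expo (hPLK : PLK_st) (hINE : INE_st) (hF : FINP_st) (hT : Tw χ r) (hB : HB χ r) :
    ∃ N : ℕ, N ≠ 0 ∧ ∀ p k : ℕ, p.Prime → ∀ x : GQ → Pt, SelK χ x → (∀ g ∈ GK, p ^ k • x g = 0) →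
      Bz χ GK fun g => N • x g := by
  obtain ⟨a, ha, -⟩ := ex_adm hPLK hT.sf.ne_zero 0
  obtain ⟨a', ha', h'⟩ := ex_adm hPLK hT.sf.ne_zero (nn a + 3)
  obtain ⟨B, b0, hb⟩ := hF χ r a hT hB ha
  obtain ⟨B', -, hb'⟩ := hF χ r a' hT hB ha'
  have key : ∀ p : ℕ, ∃ c : ℕ, p.Prime → (¬ p ∣ 3 * nn a * B → c = 0) ∧
      ∀ (k : ℕ) (x : GQ → Pt), SelK χ x → (∀ g ∈ GK, p ^ k • x g = 0) →
        Bz χ GK fun g => p ^ c • x g := fun p => by
    by_cases hp : p.Prime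
    swap
    · exact ⟨0, fun e => absurd e hp⟩
    by_cases h3 : p = 3
    · subst h3
      obtain ⟨k₀, h⟩ := hB
      refine ⟨k₀, fun _ => ⟨fun e => absurd (by rw [mul_assoc]; exact dvd_mul_right _ _) e,
        fun k x hx hk => (h k x ⟨hx.1, fun V hV => selK_unr hINE hT hx hk V fun e => hV ?_,
          fun V _ => hx.2 V⟩ hk).imp fun _ e => e.2⟩⟩
      refine (Ov_mul.1 e).elim id fun e => Ov_mul.2 (Or.inl (Ov_pow (n := k) ?_))
      exact_mod_cast e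
    by_cases h4 : p = nn a
    · obtain ⟨c, -, h⟩ := hb' p hp h3 (by omega)
      exact ⟨c, fun _ => ⟨fun e => absurd (h4 ▸ (dvd_mul_left _ _).mul_right _) e, h⟩⟩
    · obtain ⟨c, h5, h⟩ := hb p hp h3 h4
      exact ⟨c, fun _ => ⟨fun e => h5 fun e' => e (e'.mul_left _), h⟩⟩
  choose c hc using key
  have h0 : 3 * nn a * B ≠ 0 := mul_ne_zero (mul_ne_zero three_ne_zero ha.deg.ne_zero) b0
  refine ⟨∏ p ∈ (3 * nn a * B).primeFactors, p ^ c p, prod_ne_zero_iff.2 fun p hp =>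
    pow_ne_zero _ (Nat.prime_of_mem_primeFactors hp).ne_zero, fun p k hp x hx hk => ?_⟩
  obtain ⟨t, ht⟩ : p ^ c p ∣ ∏ p ∈ (3 * nn a * B).primeFactors, p ^ c p := by
    by_cases e : p ∣ 3 * nn a * B
    · exact dvd_prod_of_mem (fun p => p ^ c p) (Nat.mem_primeFactors.2 ⟨hp, e, h0⟩)
    · rw [(hc p hp).1 e, pow_zero]
      exact one_dvd _
  obtain ⟨P, hP⟩ := (hc p hp).2 k x hx hk
  exact ⟨t • P, fun g hg => by
    rw [ht, mul_comm, map_nsmul, ← smul_sub, ← hP g hg]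
    exact mul_smul _ _ _⟩

theorem sha_fin (hFXP : FXP_st) (hPLK : PLK_st) (hINE : INE_st) (hFIH : FIH_st) (hF : FINP_st)
    (hT : Tw χ r) (hB : HB χ r) {c : ℤ} (hc : c ≠ 0) (Φ : Pts (EK c) Qb ≃+ Pt)
    (hΦ : ∀ g ∈ GK, ∀ P, Φ (galQ (EK c) g P) = eta χ g (Φ P)) : Finite (Sha (EK c)) := by
  have := EK_ell hc
  have rep : ∀ m : ℕ, m ≠ 0 → ∀ x : Sha (EK c), m • x = 0 → ∃ ξ : Z1 (galQ (EK c)),
      QuotientAddGroup.mk ξ = x.1 ∧ (∀ g, m • ξ.1 g = 0) ∧ SelK χ fun g => Φ (ξ.1 g) := by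
    intro m hm x hx
    obtain ⟨ξ, h1, h2, h3⟩ := sha_rep (EK c) (Nat.pos_of_ne_zero hm) x.2 (congrArg Subtype.val hx)
    refine ⟨ξ, h1, h2, ⟨((lc_iff.1 ξ.2.1).mono le_top).map _, fun g hg j _ => by
      simp only [ξ.2.2 g j, map_add, hΦ g hg]⟩, fun V => ?_⟩
    obtain ⟨P, hP⟩ := inl_conj (η := gA (EK c)) (fun g _ j _ => ξ.2.2 g j) V
      (apx_one hFXP V.l hm hc ξ.2 h2 (h3 V.l))
    exact ⟨Φ P, fun g hg => by
      rw [← hΦ g hg.2, ← map_sub]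
      exact congrArg Φ (hP g hg.1)⟩
  obtain ⟨N, N0, hN⟩ := expo hPLK hINE hF hT hB
  have h1 : ∀ x : Sha (EK c), (2 * N) • x = 0 := fun x => by
    obtain ⟨m, m0, hm⟩ := h1_tors _ x.1
    refine grp_kill (fun p k hp x hx => ?_) m m0 x (Subtype.ext hm)
    obtain ⟨ξ, a1, a2, a3⟩ := rep _ (pow_ne_zero k hp.ne_zero) x hx
    obtain ⟨P, hP⟩ := hN p k hp _ a3 fun g _ => by rw [← map_nsmul, a2, map_zero]
    obtain ⟨Q, hQ⟩ := res_two (η := gA (EK c)) (H := ⊤) (ξ := fun g => N • ξ.1 g)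
      (fun g _ j _ => by simp only [ξ.2.2 g j, smul_add, map_nsmul, gA_apply])
      ⟨Φ.symm P, fun g hg => Φ.injective (by
        rw [R.dd, gA_apply, map_sub, hΦ g hg.2, Φ.apply_symm_apply, ← hP g hg.2, map_nsmul])⟩
    refine Subtype.ext ?_
    change (2 * N) • x.1 = 0
    rw [← a1]
    refine (QuotientAddGroup.eq_zero_iff ((2 * N) • ξ)).2 ⟨Q, ?_⟩
    rintro g _ rfl
    exact (mul_smul 2 N _).trans (hQ g trivial)
  refine Set.finite_univ_iff.1 ((grp_fin (fun p hp => ?_) (2 * N) (by omega)).subset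
    fun x _ => h1 x)
  have r0 : (r : Zw) ≠ 0 := Nat.cast_ne_zero.2 hT.sf.ne_zero
  have p0 : (p : Zw) ≠ 0 := Nat.cast_ne_zero.2 hp.ne_zero
  obtain ⟨U, u1, u2, hU⟩ := hFIH p 1 (UM (p * (9 * r))) (3 * r * p) hp
    (mul_ne_zero (mul_ne_zero (by decide) r0) p0)
    (UM_open (mul_ne_zero p0 (mul_ne_zero (by decide) r0))) (UM_le _)
  have : Finite (GQ ⧸ U) := Subgroup.quotient_finite_of_isOpen U u1.2
  have h2 : {ξ : Z1 (galQ (EK c)) | (∀ g, p • ξ.1 g = 0) ∧ ∀ g ∈ U, ξ.1 g = 0}.Finite := by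
    refine Set.Finite.of_finite_image (f := fun ξ (q : GQ ⧸ U) => Φ (ξ.1 q.out))
      ((Set.Finite.pi' fun _ => fin_tor p0).subset ?_) fun ξ h ξ' h' e => Subtype.ext (funext ?_)
    · rintro _ ⟨ξ, h, rfl⟩ q
      change (p : Zw) • Φ _ = 0
      rw [Nat.cast_smul_eq_nsmul, ← map_nsmul, h.1, map_zero]
    · intro g
      obtain ⟨u, hu⟩ := QuotientGroup.mk_out_eq_mul U g
      have := Φ.injective (congrFun e (g : GQ ⧸ U))
      rwa [hu, ξ.2.2, ξ'.2.2, h.2 _ u.2, h'.2 _ u.2, add_left_inj] at this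
  refine Set.Finite.of_finite_image (f := Subtype.val)
    ((h2.image QuotientAddGroup.mk).subset ?_) Subtype.val_injective.injOn
  rintro _ ⟨x, hx, rfl⟩
  obtain ⟨ξ, a1, a2, a3⟩ := rep p hp.ne_zero x hx
  have a4 : ∀ g, p • Φ (ξ.1 g) = 0 := fun g => by rw [← map_nsmul, a2, map_zero]
  refine ⟨ξ, ⟨a2, fun g hg => Φ.map_eq_zero_iff.1 (hU Pt (fun g => Φ (ξ.1 g))
    (fun g hg j hj => ?_) (a3.1.1.mono (UM_le _)) (fun g _ => by rw [pow_one, a4])
    (fun V hV τ hτ => selK_unr hINE hT a3 (fun g _ => a4 g) V hV τ hτ.1) g hg)⟩, a1⟩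
  refine (a3.1.2 g hg.1 j hj.1).trans ?_
  rw [eta_apply, hT.fac g (UM_mono (dvd_mul_left _ _) hg), ZMod.val_zero, pow_zero, one_smul,
    UM_mono (dvd_mul_right _ _) hg |>.2 _ (by rw [Nat.cast_smul_eq_nsmul, a4])]

end Pool.Agent.MP_e23604_nt.W

end

section

set_option autoImplicit false

open Module Filter Topology Finset
open scoped Classical

namespace Pool.Agent.MP_e23604_nt.S

open B R
open Q (Wn)

theorem pi_STABZ : (w3 - w3 ^ 2) ^ 2 = -3 := by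
  linear_combination (w3 ^ 2 - 3 * w3 + 3) * w3_spec

theorem lt_STABZ : nv 3 1 3 < 1 := by simpa using nv_lt 3 1

theorem pos_STABZ : 0 < nv 3 1 3 := (nv 3 1).pos (by norm_num)

theorem cop_STABZ {n : ℕ} (h : ¬ 3 ∣ n) : nv 3 1 n = 1 := by
  have := v_coprime (nv_na 3 1) Nat.prime_three (nv_lt 3 1) (n := n) fun e =>
    h (by exact_mod_cast e)
  simpa using this

theorem two_STABZ : nv 3 1 2 = 1 := by simpa using cop_STABZ (n := 2) (by norm_num)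

theorem four_STABZ : nv 3 1 4 = 1 := by simpa using cop_STABZ (n := 4) (by norm_num)

theorem nine_STABZ : nv 3 1 9 = nv 3 1 3 ^ 2 := by
  rw [← map_pow]
  norm_num

theorem one_STABZ {u : Qb} (h : nv 3 1 u < 1) : nv 3 1 (1 + u) = 1 := by
  rw [(nv_na 3 1).add_eq_left_of_lt (by rwa [map_one]), map_one]

theorem root_STABZ {u : Qb} (hf : Fix (Dec (nv 3 1)) u) (h : nv 3 1 u < 1) :
    ∃ r, r ^ 2 = 1 + u ∧ Fix (Dec (nv 3 1)) r ∧ nv 3 1 r = 1 := by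
  obtain ⟨r, hr⟩ := IsAlgClosed.exists_pow_nat_eq (1 + u) two_pos
  refine ⟨r, hr, R.KUM_ok.1 3 1 _ (1 + u) r le_rfl (fun g hg => by simp [hf g hg]) ?_ hr, ?_⟩
  · rwa [add_sub_cancel_left, four_STABZ]
  · have := congrArg (nv 3 1) hr
    rw [map_pow, one_STABZ h] at this
    exact (pow_eq_one_iff_of_nonneg ((nv 3 1).nonneg _) two_ne_zero).1 this

theorem par_STABZ {D : ℕ} (h27 : ¬ 27 ∣ D) (h : ¬ (D % 9 = 3 ∨ D % 9 = 6)) :
    ∃ s N t : Qb, Fix (Dec (nv 3 1)) s ∧ Fix (Dec (nv 3 1)) N ∧ Fix (Dec (nv 3 1)) t ∧ N ≠ 0 ∧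
      s ≠ 0 ∧ (D : Qb) ^ 2 + 3 * s ^ 2 = 4 * N ^ 3 ∧ D = -3 * s * t ∧ nv 3 1 t ≤ 1 ∧
      nv 3 1 9 < nv 3 1 t ∧ (¬ 3 ∣ D → nv 3 1 t < 1) := by
  have h1 := lt_STABZ
  have h0 := pos_STABZ
  by_cases h3 : 3 ∣ D
  · obtain ⟨E, rfl⟩ : 9 ∣ D := by omega
    have hE := cop_STABZ (n := E) (by omega)
    obtain ⟨r, e, hf, hr⟩ := root_STABZ (u := -(3 * E ^ 2 / 4)) (fun g _ => by simp [map_ofNat])
      (by rw [AbsoluteValue.map_neg, map_div₀, map_mul, map_pow, hE, four_STABZ]; linarith)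
    have r0 : r ≠ 0 := fun e => by simp [e] at hr
    have ht : nv 3 1 (-(E / (2 * r))) = 1 := by
      rw [AbsoluteValue.map_neg, map_div₀, map_mul, hE, two_STABZ, hr]
      norm_num
    refine ⟨6 * r, 3, -(E / (2 * r)), fun g hg => by simp [map_ofNat, hf g hg],
      fun g _ => map_ofNat g 3, fun g hg => by simp [map_ofNat, hf g hg], by norm_num,
      mul_ne_zero (by norm_num) r0, ?_, ?_, ht.le, ?_, fun e => absurd h3 e⟩
    · push_cast
      linear_combination 108 * e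
    · push_cast
      field_simp
      ring
    · rw [ht, nine_STABZ]
      nlinarith
  · have hE := cop_STABZ h3
    obtain ⟨r, e, hf, hr⟩ := root_STABZ (u := -(3 ^ 3 * D ^ 2 / 4))
      (fun g _ => by simp only [map_neg, map_div₀, map_mul, map_pow, map_ofNat, map_natCast])
      (by
        rw [AbsoluteValue.map_neg, map_div₀, map_mul, map_pow, map_pow, hE, four_STABZ]
        simpa using pow_lt_one₀ h0.le h1 three_ne_zero)
    have r0 : r ≠ 0 := fun e => by simp [e] at hr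
    have ht : nv 3 1 (-(3 * D / (2 * r))) = nv 3 1 3 := by
      rw [AbsoluteValue.map_neg, map_div₀, map_mul, map_mul, hE, two_STABZ, hr]
      norm_num
    refine ⟨2 * r / 9, 1 / 3, -(3 * D / (2 * r)), fun g hg => by simp [map_ofNat, hf g hg],
      fun g _ => by simp [map_ofNat], fun g hg => by simp [map_ofNat, hf g hg], by norm_num,
      div_ne_zero (mul_ne_zero (by norm_num) r0) (by norm_num), ?_, ?_, ?_, ?_, fun _ => ?_⟩
    · linear_combination 4 / 27 * e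
    · field_simp
      norm_num
    · rw [ht]
      exact h1.le
    · rw [ht, nine_STABZ]
      nlinarith
    · rw [ht]
      exact h1

theorem key_STABZ (hNCU : NCU_st) {ρ ρ' u : Qb} (hf : Fix (Dec (nv 3 1)) u) (hu : nv 3 1 u < 1)
    (h : ρ ^ 3 * (1 + (w3 - w3 ^ 2)) = 1 - (w3 - w3 ^ 2))
    (h' : ρ' ^ 3 * (1 + u * (w3 - w3 ^ 2)) = 1 - u * (w3 - w3 ^ 2)) :
    ¬ Fix (Dec (nv 3 1) ⊓ GK) (ρ * ρ') := by
  intro hx
  have h1 := lt_STABZ
  have h0 := pos_STABZ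
  have h2 : nv 3 1 (1 + -(3 * u)) = 1 := one_STABZ (by
    rw [AbsoluteValue.map_neg, map_mul]
    nlinarith [(nv 3 1).nonneg u])
  have h3 : 1 + -(3 * u) ≠ 0 := fun e => by simp [e] at h2
  have ht : nv 3 1 ((1 + u) / (1 + -(3 * u))) = 1 := by rw [map_div₀, one_STABZ hu, h2, div_one]
  have h4 := hNCU.1 1 ((1 + u) / (1 + -(3 * u))) _ (ρ * ρ') pi_STABZ
    (fun g hg => by simp only [map_div₀, map_add, map_neg, map_mul, map_one, map_ofNat, hf g hg])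
    ht.le ?_ hx
  · rw [ht, nine_STABZ] at h4
    nlinarith
  · have hp := pi_STABZ
    generalize w3 - w3 ^ 2 = π at h h' hp
    refine mul_left_cancel₀ h3 ?_
    have e : (1 + -(3 * u)) * ((1 + u) / (1 + -(3 * u))) = 1 + u := mul_div_cancel₀ _ h3
    linear_combination ((ρ * ρ') ^ 3 + 1) * π * e + ρ' ^ 3 * (1 + u * π) * h + (1 - π) * h' +
      (1 - (ρ * ρ') ^ 3) * u * hp

theorem TABZ_pf (hZPT : ZPT_st) (hNCU : NCU_st) (hKUM : KUM_st) : TABZ_st := by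
  intro A _ J η T D F hJ hT hF hD h27
  have hZ := hZPT A J η T D F hJ hT hF hD
  have hp := pi_STABZ
  have h1 := lt_STABZ
  have h0 := pos_STABZ
  by_cases h36 : D % 9 = 3 ∨ D % 9 = 6
  · rw [aM, if_neg (by omega), if_pos h36]
    exact ⟨fun i => i.elim0, fun i => i.elim0, fun c _ => funext fun i => i.elim0⟩
  obtain ⟨s, N, t, fs, fN, ft, N0, s0, e1, e2, t1, t2, t3⟩ := par_STABZ h27 h36
  obtain ⟨a, ρ, ha, ρ0, e3, ga⟩ := hZ s N fs fN N0 e1
  have π0 : w3 - w3 ^ 2 ≠ 0 := fun e => by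
    rw [e] at hp
    norm_num at hp
  have e4 : (-ρ) ^ 3 * (1 + t * (w3 - w3 ^ 2)) = 1 - t * (w3 - w3 ^ 2) := by
    generalize w3 - w3 ^ 2 = π at e3 hp π0
    refine mul_left_cancel₀ (mul_ne_zero s0 π0) ?_
    linear_combination -e3 + (ρ ^ 3 - 1) * e2 + (1 - ρ ^ 3) * s * t * hp
  have k1 : ∀ c : ZMod 3, Tv (Dec (nv 3 1)) (fun g => c * a g) → c = 0 := fun c hc => by
    by_contra c0
    refine absurd (hNCU.1 1 t _ (-ρ) hp ft t1 e4 fun g hg => ?_) (not_le.2 t2)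
    have := Fact.mk Nat.prime_three
    rw [map_neg, ga g hg.1 hg.2, (mul_eq_zero.1 (hc g hg.1 hg.2)).resolve_left c0]
    simp
  by_cases h18 : D % 9 = 1 ∨ D % 9 = 8
  · rw [aM, if_pos h18]
    show Ind (tw η) T 2
    obtain ⟨k, hk⟩ : ∃ k : ℕ, D ^ 2 = 9 * k + 1 := ⟨D ^ 2 / 9, by
      have : D ^ 2 % 9 = 1 := by rcases h18 with e | e <;> simp [Nat.pow_mod, e]
      omega⟩
    have D0 : (D : Qb) ≠ 0 := Nat.cast_ne_zero.2 hD
    obtain ⟨M, e5, fM⟩ := hKUM.1 3 1 (Dec (nv 3 1)) ((D : Qb) ^ 2) le_rfl (fun g _ => by simp) (by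
      have e : (D : Qb) ^ 2 - 1 = 3 ^ 2 * k := by
        rw [← Nat.cast_pow, hk]
        push_cast
        ring
      have e' : nv 3 1 (k : Qb) ≤ 1 := (nv_na 3 1).apply_natCast_le_one
      rw [e, show (27 : Qb) = 3 ^ 3 by norm_num, map_mul, map_pow, map_pow]
      calc (nv 3 1 3 ^ 2 * nv 3 1 (k : Qb)) ^ 2 ≤ (nv 3 1 3 ^ 2) ^ 2 :=
            pow_le_pow_left₀ (by positivity) (mul_le_of_le_one_right (by positivity) e') 2
        _ < _ := by
            rw [← pow_mul]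
            exact pow_lt_pow_right_of_lt_one₀ h0 h1 (by norm_num))
    have M0 : M ≠ 0 := fun e => pow_ne_zero 2 D0 (by rw [← e5, e]; norm_num)
    obtain ⟨b, σ, hb, -, e6, gb⟩ := hZ D M (fun g _ => map_natCast g D) fM M0
      (by linear_combination -4 * e5)
    have e7 : σ ^ 3 * (1 + (w3 - w3 ^ 2)) = 1 - (w3 - w3 ^ 2) :=
      mul_left_cancel₀ D0 (by linear_combination e6)
    have t4 := t3 (by omega)
    have k2 : ∀ c : ZMod 3, ¬ Tv (Dec (nv 3 1)) fun g => c * a g + b g := fun c hc => by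
      rcases z3 c with rfl | rfl | rfl
      · refine key_STABZ hNCU (u := 0) (ρ' := 1) (fun g _ => map_zero g) (by simp) e7 (by simp)
          fun g hg => ?_
        have := hc g hg.1 hg.2
        simp only [zero_mul, zero_add] at this
        rw [mul_one, gb g hg.1 hg.2, this]
        simp
      · refine key_STABZ hNCU ft t4 e7 e4 fun g hg => ?_
        have := hc g hg.1 hg.2
        simp only [one_mul] at this
        have e := w3_add (a g) (b g)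
        rw [this, ZMod.val_zero, pow_zero] at e
        rw [map_mul, map_neg, gb g hg.1 hg.2, ga g hg.1 hg.2]
        linear_combination σ * ρ * e
      · refine key_STABZ hNCU (u := -t) (ρ' := (-ρ)⁻¹) (fun g hg => by rw [map_neg, ft g hg])
          (by rwa [AbsoluteValue.map_neg]) e7 ?_ fun g hg => ?_
        · rw [inv_pow, inv_mul_eq_iff_eq_mul₀ (pow_ne_zero _ (neg_ne_zero.2 ρ0))]
          linear_combination -e4
        · have e : b g = a g := by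
            have := hc g hg.1 hg.2
            have e4 : (3 : ZMod 3) = 0 := rfl
            linear_combination this - a g * e4
          have e' := pow_ne_zero (a g).val w3_ne_zero
          rw [map_mul, map_inv₀, map_neg, gb g hg.1 hg.2, ga g hg.1 hg.2, e]
          field_simp
    refine ⟨![a, b], Fin.forall_fin_two.2 ⟨ha, hb⟩, fun c hc => ?_⟩
    simp only [Fin.sum_univ_two, Matrix.cons_val_zero, Matrix.cons_val_one] at hc
    have c1 : c 1 = 0 := by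
      by_contra c1
      have c2 : c 1 * c 1 = 1 := by
        generalize c 1 = x at c1
        revert x
        decide
      refine k2 (c 1 * c 0) fun g hg hk => ?_
      linear_combination c 1 * hc g hg hk - b g * c2
    have c0 : c 0 = 0 := k1 _ fun g hg hk => by linear_combination hc g hg hk - b g * c1
    exact funext (Fin.forall_fin_two.2 ⟨c0, c1⟩)
  · rw [aM, if_neg h18, if_neg h36]
    show Ind (tw η) T 1
    refine ⟨fun _ => a, fun _ => ha, fun c hc => ?_⟩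
    simp only [Fin.sum_univ_one] at hc
    exact funext (Fin.forall_fin_one.2 (k1 _ hc))

end Pool.Agent.MP_e23604_nt.S

end

section

set_option autoImplicit false

open Module Filter Topology Finset
open scoped Classical

namespace Pool.Agent.MP_e23604_nt.S

open B R
open Q (Wn)

theorem cb_SSHA {A : Type} [AddCommGroup A] (η : Act A) (R : A) {k N : ℕ} (hN : N ≠ 0)
    (h1 : ∀ g, 3 ^ k • dd η R g = 0) (h2 : N • 3 ^ k • R = 0) : dd η R ∈ Cb η := by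
  obtain ⟨a, b, hb, rfl⟩ := Nat.exists_eq_pow_mul_and_not_dvd hN 3 (by norm_num)
  have hb0 : 0 < b := Nat.pos_of_ne_zero fun e => hb (e ▸ dvd_zero 3)
  have c1 : b ^ (3 ^ k).totient ≡ 1 [MOD 3 ^ k] :=
    Nat.ModEq.pow_totient (Nat.Coprime.pow_right k
      ((Nat.Prime.coprime_iff_not_dvd Nat.prime_three).2 hb).symm)
  obtain ⟨t, ht⟩ := (Nat.modEq_iff_dvd' (Nat.one_le_pow _ _ hb0)).1 c1.symm
  obtain ⟨s, hs⟩ := dvd_pow_self b (Nat.totient_pos.2 (pow_pos three_pos k)).ne'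
  have c2 : b * s = t * 3 ^ k + 1 := by
    rw [← hs, mul_comm, ← ht, Nat.sub_add_cancel (Nat.one_le_pow _ _ hb0)]
  refine ⟨(b * s) • R, ⟨a + k, ?_⟩, funext fun g => ?_⟩
  · rw [← mul_smul, show 3 ^ (a + k) * (b * s) = s * (3 ^ a * b * 3 ^ k) by ring, mul_smul,
      mul_smul, h2, smul_zero]
  · have c3 : dd η ((b * s) • R) g = (b * s) • dd η R g := by
      rw [dd, dd, map_nsmul, smul_sub]
    rw [c3, c2, add_smul, mul_smul, h1, smul_zero, zero_add, one_smul]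

theorem cls_SSHA (M : Type) [AddCommGroup M] (hF : AddGroup.FG M) (m : ℕ) :
    ∃ cl : M → Fin (finrank ℤ M) → ZMod m, ∀ P P', cl P = cl P' →
      ∃ S, ∃ N : ℕ, N ≠ 0 ∧ N • (P - P' - m • S) = 0 := by
  have : Module.Finite ℤ M := Module.Finite.iff_addGroup_fg.2 hF
  have e : finrank ℤ (M ⧸ Submodule.torsion ℤ M) = finrank ℤ M :=
    finrank_quotient_eq_of_le_torsion le_rfl
  let b := Module.finBasisOfFinrankEq ℤ (M ⧸ Submodule.torsion ℤ M) e
  refine ⟨fun P i => (b.repr ((Submodule.torsion ℤ M).mkQ P) i : ZMod m), fun P P' h => ?_⟩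
  have h1 : ∀ i, ∃ t : ℤ, b.repr ((Submodule.torsion ℤ M).mkQ P) i -
      b.repr ((Submodule.torsion ℤ M).mkQ P') i = m * t := fun i =>
    (ZMod.intCast_eq_intCast_iff_dvd_sub _ _ _).1 (congrFun h i).symm
  choose t ht using h1
  obtain ⟨S, hS⟩ := (Submodule.torsion ℤ M).mkQ_surjective (b.equivFun.symm t)
  have h2 : (Submodule.torsion ℤ M).mkQ (P - P' - m • S) = 0 := by
    refine b.equivFun.injective (funext fun i => ?_)
    rw [map_sub, map_sub, map_nsmul, hS, map_sub, map_sub, map_nsmul, LinearEquiv.apply_symm_apply,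
      map_zero]
    rw [Pi.sub_apply, Pi.sub_apply, Basis.equivFun_apply, Basis.equivFun_apply, ht, Pi.smul_apply,
      nsmul_eq_mul, sub_self, Pi.zero_apply]
  obtain ⟨a, ha⟩ := (Submodule.mem_torsion_iff _).1 ((Submodule.Quotient.mk_eq_zero _).1 h2)
  refine ⟨S, (a : ℤ).natAbs, Int.natAbs_ne_zero.2 (nonZeroDivisors.coe_ne_zero a), ?_⟩
  exact natAbs_nsmul_eq_zero.2 ha

theorem tr_SSHA (W W₀ : WeierstrassCurve ℚ) (e : W₀ = W.baseChange ℚ) (d : DecidableEq ℚ) :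
    ∃ j : W₀.toAffine.Point →+ Pts W Qb,
      (∀ P₀ : Pts W ℚ, ∃ P, j P = act W (algebraMap ℚ Qb) P₀) ∧ ∀ g P, galQ W g (j P) = j P := by
  obtain rfl : d = decQ := Subsingleton.elim _ _
  subst e
  refine ⟨act W (algebraMap ℚ Qb), fun P => ⟨P, rfl⟩, fun g P => ?_⟩
  exact (BSel_act_act W (algebraMap ℚ Qb) (g : Qb →+* Qb) P).trans
    (congrArg (fun f : ℚ →+* Qb => act W f P) (Subsingleton.elim _ _))

theorem rat_SSHA (hFXP : FXP_st) (W : WeierstrassCurve ℚ) (hF : Fg3 W) (m : ℕ) :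
    ∃ cl : Pts W Qb → Fin (finrank ℤ W.toAffine.Point) → ZMod m, ∀ P P',
      (∀ g, galQ W g P = P) → (∀ g, galQ W g P' = P') → cl P = cl P' →
      ∃ S, (∀ g, galQ W g S = S) ∧ ∃ N : ℕ, N ≠ 0 ∧ N • (P - P' - m • S) = 0 := by
  obtain ⟨cl, hcl⟩ := cls_SSHA _ hF m
  obtain ⟨j, j1, j2⟩ := tr_SSHA W W (by ext <;> simp [WeierstrassCurve.baseChange]) inferInstance
  have h1 : ∀ P : Pts W Qb, ∃ P₀, (∀ g, galQ W g P = P) → j P₀ = P := fun P => by
    by_cases h : ∀ g, galQ W g P = P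
    · obtain ⟨P₁, h1⟩ := hFXP W ℚ P h
      obtain ⟨P₀, h2⟩ := j1 P₁
      exact ⟨P₀, fun _ => h2.trans h1⟩
    · exact ⟨0, fun e => absurd e h⟩
  choose r hr using h1
  refine ⟨fun P => cl (r P), fun P P' h h' e => ?_⟩
  obtain ⟨S, N, hN, h2⟩ := hcl _ _ e
  refine ⟨j S, fun g => j2 g S, N, hN, ?_⟩
  have := congrArg j h2
  rwa [map_nsmul, map_sub, map_sub, map_nsmul, hr P h, hr P' h', map_zero] at this

theorem real_SSHA {A : Type} [AddCommGroup A] (η : Act A) {cc : GQ} (hc : cc * cc = 1)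
    {ξ : GQ → A} (h1 : ∀ g h, ξ (g * h) = ξ g + η g (ξ h)) {k : ℕ} (h2 : ∀ g, 3 ^ k • ξ g = 0) :
    InL η (Subgroup.zpowers cc) ξ := by
  have h0 : ξ 1 = 0 := by
    have := h1 1 1
    rw [mul_one, act_one] at this
    exact left_eq_add.1 this
  have h3 : η cc (ξ cc) = -ξ cc := by
    have := h1 cc cc
    rw [hc, h0] at this
    exact eq_neg_of_add_eq_zero_right this.symm
  obtain ⟨u, hu⟩ : Odd (3 ^ k) := Odd.pow (by decide)
  have h4 := h2 cc
  rw [hu, add_smul, one_smul, mul_comm, mul_smul] at h4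
  refine ⟨u • ξ cc, fun g hg => ?_⟩
  have h5 : g = 1 ∨ g = cc := by
    obtain ⟨z, rfl⟩ := hg
    have e : cc ^ (2 : ℤ) = 1 := by rw [zpow_two, hc]
    rcases Int.even_or_odd' z with ⟨y, rfl | rfl⟩
    · exact Or.inl (by simp only [zpow_mul, e, one_zpow])
    · exact Or.inr (by simp only [zpow_add, zpow_mul, e, one_zpow, one_mul, zpow_one])
  rcases h5 with rfl | rfl
  · rw [h0, dd, act_one, sub_self]
  · rw [dd, map_nsmul, h3]
    rw [two_smul, smul_add] at h4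
    rw [smul_neg]
    linear_combination (norm := abel) h4

theorem SHA_pf (hUNR : UNR_st) (hFXP : FXP_st) : SHA_st := by
  intro A _ J η n T b hP c ψ hc eqv hF k
  by_cases hfin : (shaTors (EK c) (3 ^ k)).Finite
  swap
  · rw [Cn, Set.Infinite.encard_eq hfin, ENat.top_mul (pow_ne_zero _ three_ne_zero)]
    exact le_top
  obtain ⟨cl, hcl⟩ := rat_SSHA hFXP (EK c) hF (3 ^ k)
  obtain ⟨cc, hcc⟩ := RCE_pf
  have hc2 := (R.DIC_ok.2.2.2.2 cc hcc.1).1
  have tor : ∀ x : Sq J η n ∅ (2 * k), ∀ g, 3 ^ k • x.1 g = 0 := fun x g =>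
    (W_tor hP.cm k).1 (x.2.1.lev g)
  let z : Sq J η n ∅ (2 * k) → Z1 (galQ (EK c)) := fun x =>
    ⟨fun g => ψ (x.1 g), lc_iff.2 (x.2.1.lc.map ψ), fun g h => by
      beta_reduce
      rw [x.2.1.coc, map_add, eqv]⟩
  have loc : ∀ x H, InL η H x.1 → ∃ R, ∀ g ∈ H, (z x).1 g = galQ (EK c) g R - R := by
    rintro x H ⟨R, hR⟩
    refine ⟨ψ R, fun g hg => ?_⟩
    change ψ (x.1 g) = _
    rw [hR g hg, dd, map_sub, eqv]
  have hl : ∀ (x : Sq J η n ∅ (2 * k)) (l : ℕ) [Fact l.Prime], InL η (Dec (nv l 1)) x.1 := by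
    intro x l _
    by_cases h3 : l = 3
    · subst h3
      exact x.2.2.2.1
    · by_cases hn : l ∣ n
      · exact x.2.2.2.2 l hn
      · exact hUNR A J η n T b hP _ x.1 l x.2.1 h3 hn (x.2.2.1 l 1 h3 hn (notMem_empty _))
  let q : Sq J η n ∅ (2 * k) → H1 (galQ (EK c)) := fun x => QuotientAddGroup.mk (z x)
  have hq : ∀ x, q x ∈ shaTors (EK c) (3 ^ k) := fun x => by
    refine ⟨⟨?_, ?_⟩, ?_⟩
    · obtain ⟨R, hR⟩ := loc x _ (real_SSHA η hc2 x.2.1.coc (tor x))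
      exact res_FSHA _ ℝ _ hcc.2 _ R hR
    · refine AddSubgroup.mem_iInf.2 fun l => AddSubgroup.mem_iInf.2 fun _ => ?_
      obtain ⟨R, hR⟩ := loc x _ (hl x l)
      refine res_FSHA _ ℚ_[l] _ (fun σ τ hτ y => ?_) _ R hR
      rw [nv_apply, nv_apply, AlgEquiv.one_apply, AlgEquiv.one_apply, hτ]
      exact (spectralNorm_eq_of_equiv σ _).symm
    · have e : 3 ^ k • z x = 0 := Subtype.ext (funext fun g => by
        change 3 ^ k • ψ (x.1 g) = 0
        rw [← map_nsmul, tor, map_zero])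
      exact congrArg (QuotientAddGroup.mk : _ → H1 (galQ (EK c))) e
  have h1 : ∀ x y, q x = q y → ∃ R, -x.1 + y.1 = dd η R := fun x y e => by
    obtain ⟨S, hS⟩ := QuotientAddGroup.eq.1 e
    obtain ⟨R, rfl⟩ := ψ.surjective S
    exact ⟨R, funext fun g => ψ.injective (by
      rw [dd, map_sub, eqv, Pi.add_apply, Pi.neg_apply, map_add, map_neg]
      exact hS g g rfl)⟩
  have h2 : ∀ x, ∃ R, -(Function.invFun q (q x)).1 + x.1 = dd η R := fun x =>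
    h1 _ _ (Function.invFun_eq ⟨x, rfl⟩)
  choose ρ hρ using h2
  have h3 : ∀ x g, 3 ^ k • dd η (ρ x) g = 0 := fun x g => by
    rw [← hρ, Pi.add_apply, Pi.neg_apply, smul_add, smul_neg, tor, tor, neg_zero, add_zero]
  have h4 : ∀ x g, galQ (EK c) g (ψ (3 ^ k • ρ x)) = ψ (3 ^ k • ρ x) := fun x g => by
    have := h3 x g
    rw [dd, smul_sub, sub_eq_zero, ← map_nsmul] at this
    rw [← eqv, this]
  have : NeZero (3 ^ k) := ⟨pow_ne_zero _ three_ne_zero⟩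
  have h5 := (cnt_FSHA (Cb η) (Sq J η n ∅ (2 * k)) (hfin.prod Set.finite_univ)
    (fun x => (q x, cl (ψ (3 ^ k • ρ x)))) (fun x => ⟨hq x, Set.mem_univ _⟩) fun x y e => ?_).2
  · rw [Cn, ← hfin.cast_ncard_eq]
    rw [Nat.card_coe_set_eq, Set.ncard_prod, Set.ncard_univ, Nat.card_fun, Nat.card_zmod,
      Nat.card_fin, ← pow_mul] at h5
    exact_mod_cast h5
  · obtain ⟨e1, e2⟩ := Prod.ext_iff.1 e
    obtain ⟨S, hS, N, hN, h6⟩ := hcl _ _ (h4 y) (h4 x) e2.symm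
    obtain ⟨S, rfl⟩ := ψ.surjective S
    have h7 : ∀ g, η g S = S := fun g => ψ.injective ((eqv g S).trans (hS g))
    have h8 : -x.1 + y.1 = dd η (ρ y - ρ x - S) := funext fun g => by
      have a1 := congrFun (hρ x) g
      have a2 := congrFun (hρ y) g
      rw [← show q x = q y from e1] at a2
      simp only [Pi.add_apply, Pi.neg_apply, dd, map_sub, h7] at a1 a2 ⊢
      linear_combination (norm := abel) a2 - a1
    rw [h8]
    refine cb_SSHA η _ (k := k) hN (fun g => ?_) (ψ.injective ?_)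
    · rw [← h8, Pi.add_apply, Pi.neg_apply, smul_add, smul_neg, tor, tor, neg_zero, add_zero]
    · rw [map_nsmul, smul_sub (3 ^ k), smul_sub (3 ^ k), map_sub, map_sub, map_nsmul ψ _ S, h6,
        map_zero]

end Pool.Agent.MP_e23604_nt.S

end
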