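import Mathlib
import Pool.Agent.Mg.Fe23604m.G06f121
import Pool.Agent.Mg.Fe23604m.G127312
import Pool.Agent.Mg.Fe23604m.G2acf73
import Pool.Agent.Mg.Fe23604m.G6e547d
import Pool.Agent.Mg.Fe23604m.Gd10305
import Pool.Agent.Mg.Fe23604m.G7fef4a
import Pool.Agent.Mg.Fe23604m.G87c243
import Pool.Agent.Mg.Fe23604m.Gdcbf1f
import Pool.Agent.Mg.Fe23604m.Gc4cdb1
import Pool.Agent.Mg.Fe23604m.G9f00c9
import Pool.Agent.Mg.Fe23604m.G160902
import Pool.Agent.Mg.Fe23604m.G13e833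

set_option linter.all false

section

/-! Cubic twists: exponent functions that are eventually `1` or eventually `-1`. -/

namespace Pool.Agent.MP_e23604_nt.T

open Finset Filter NumberField
open MP_f68ac8_nt (cyc IsFrob)
open MP_f68ac8_nt.Zv (Ex Prob piV Unf Bx)
open MP_f68ac8_nt.Zk (NS brL lk msk Av)
open MP_f68ac8_nt.Nd (Lr Fr Gz Exm fP kap np OKp)
open Q (Wn Pre rot0)
open scoped BigOperators Topology

/-- eventually `1` or eventually `-1` -/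
def Evs (e : ℕ → ZMod 3) (n : ℕ) : Prop := (∀ l, n < l → e l = 1) ∨ ∀ l, n < l → e l = -1

theorem tf_neg {d : ℕ} (e : ℕ → ZMod 3) (l : Fin d → ℕ) (φ : Fin d → V3 d) (c a : V3 d) :
    (dtl e l).Tf φ c a = (dtl (-e) l).Tf (-φ) c (-a) := by
  simp [Dt.Tf, dtl]

theorem osc_neg {d : ℕ} {lv : Fin d → ℕ} {sp : Fin d → Bool} {φ : Fin d → V3 d} {c a : V3 d}
    (h : Osc lv sp φ c a) : Osc lv sp (-φ) c (-a) := by
  simpa [Osc] using h

theorem oscM_evs (hOscT : OscT) {Q : Par} {c : ℝ} {n r : ℕ} {D η y : ℝ} {d : ℕ}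
    {μ : Fin d → Q.Mk} {e : ℕ → ZMod 3} (hc : 0 < c) (hQ : Q.Ok c n r D η) (hd : (d : ℝ) ≤ D)
    (he0 : ∀ l, e l ≠ 0) (he1 : Evs e n) :
    OscM (nuT Q μ c y) (fun q => dtl e fun k => (q k : ℕ)) (fun j => (μ j).1.val)
      (fun j => (μ j).2) ((d + 1) * η) := by
  rcases he1 with h | h
  · exact hOscT Q c n r D η y d μ e hc hQ hd he0 h
  · have h1 := hOscT Q c n r D η y d μ (-e) hc hQ hd (fun l => neg_ne_zero.2 (he0 l))
      fun l hl => by rw [Pi.neg_apply, h l hl, neg_neg]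
    refine ⟨h1.pos, h1.nn, h1.sup, fun φ c' a ho => ?_⟩
    simp only [tf_neg e]
    exact h1.osc _ _ _ (osc_neg ho)

/-- few numbers admit a true solution -/
def PtB : Prop :=
  ∀ ε : ℝ, 0 < ε → ∃ h, ∀ (V : Type) [AddCommGroup V] [Fintype V] (B : Bs V) η₀ (O : Finset V)
    (n₀ : ℕ), B.Ok η₀ h → O.card ≤ 3 → (∀ l, B.e l ≠ 0) → Evs B.e n₀ → Sp (BadV B η₀ O) ε

theorem x_PtB (hPtT : PtT) (hFstT : FstT) (hOscT : OscT) (hInqT : InqT) (hGqT : GqT)
    (hFilT : FilT) (hWmT : WmT) (hTwN : MP_f68ac8_nt.Nd.TwN) : PtB := by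
  classical
  intro ε hε
  obtain ⟨ε', hε', hP⟩ := hPtT ε hε
  obtain ⟨h, m₀, C, hC, hF⟩ := hFstT ε' hε'
  refine ⟨h, fun V _ _ B η₀ O n₀ hB hO he0 he1 => ?_⟩
  obtain ⟨hNS, hN, -⟩ := hFilT V B.J B.T hB.cm.toCm0 B.m
  refine hP (Pm B.J B.m) Pd (Option (Fin B.m)) (Fk B.J B.m) B.m n₀ m₀
    ((162 * (B.m + 1) * Fintype.card V : ℕ) : ℝ) (2 * C) (BadV B η₀ O) (pa B.e) hNS hN
    (by linarith) fun Q c n r D η hc hn hQ => ?_
  obtain ⟨N, nb, bb, hG, hM⟩ := hGqT B.σ B.τ B.e hB.tl Q.Λ hQ.pri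
    (Fintype.card V ^ (Fintype.card V + 1))
  refine ⟨Fin nb, inferInstance, B.σ, B.τ, bb, N, B.gam, hG, fun yy d μ hd hT => ?_⟩
  obtain ⟨I, iI, T, h1, h2, h3⟩ := hInqT V B η₀ h O hB hO Q.Λ (Fin nb) bb N hQ.pri hG hM d
    fun j => (μ j).1.val
  refine ⟨I, iI, T, fun q => if Function.Injective q then
    (dtl B.e fun j => (q j : ℕ)).Hf B.β (fun j => (μ j).1.val) B.m h else 0,
    by exact_mod_cast h1, h2, ?_, fun 𝓡 _ _ s hs q b y w hw => by
      convert h3 𝓡 s hs q b y w hw using 4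
      ext
      simp⟩
  have hosc := oscM_evs hOscT (y := yy) (μ := μ) hc hQ hd he0
    (he1.imp (fun a l hl => a l (by omega)) fun a l hl => a l (by omega))
  have h4 := hF d _ _ _ _ _ _ B.β hosc hT
  obtain ⟨hη, hw⟩ := hWmT Q c n r D η hQ
  have hk := (hTwN c hc Q.Λ (fun l hl => (hQ.pri l hl).1) d (Q.wm μ) yy).1.1
  have h5 : ∑ q, nuT Q μ c yy q ≤ Ex (U := fun _ => Q.Λ) (Q.wm μ) (kap c yy) :=
    sum_le_sum fun q _ => mul_le_mul_of_nonneg_left (by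
      split_ifs
      exacts [le_rfl, hk q]) (prod_nonneg fun j _ => (hw d μ).1.1 j _)
  have h6 : (d + 1 : ℝ) ≤ 2 ^ (d + 1) := by exact_mod_cast (Nat.lt_two_pow_self (n := d + 1)).le
  calc _ = ∑ q, nuT Q μ c yy q *
        (dtl B.e fun j => (q j : ℕ)).Hf B.β (fun j => (μ j).1.val) (2 * h + 4) h := by
        refine sum_congr rfl fun q _ => ?_
        rw [nuT, smul_eq_mul, hB.m]
        by_cases hq : Function.Injective q
        · simp only [if_pos hq, mul_assoc]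
        · simp only [if_neg hq, mul_zero, zero_mul]
    _ ≤ _ := h4
    _ ≤ _ := by
        refine add_le_add (mul_le_mul_of_nonneg_left h5 hε'.le) ?_
        rw [mul_pow, mul_comm (2 ^ (d + 1) : ℝ), mul_assoc]
        exact mul_le_mul_of_nonneg_left (mul_le_mul_of_nonneg_right h6 hη) (by positivity)

end Pool.Agent.MP_e23604_nt.T

end

section

/-! Cubic twists: properties that follow from the finiteness of the strict cocycles. -/

namespace Pool.Agent.MP_e23604_nt.T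

open Finset Filter NumberField
open MP_f68ac8_nt (cyc IsFrob)
open Q (Wn Pre rot0)
open scoped BigOperators Topology

/-- the property `F` follows from the finiteness of the strict cocycles -/
def CurP (F : Finset ℕ → (ℕ → ZMod 3) → ZMod 3 → Prop) : Prop :=
  ∃ (A : Type) (_ : AddCommGroup A) (J : A ≃ₗ[ℤ] A) (T : A), CmI J T ∧
    ∃ η₀ : ZMod 3 → ZMod 3 → GQ → A ≃ₗ[ℤ] A, ∀ σ τ e, Tl σ τ e → ∀ (β : ZMod 3) (R : Finset ℕ),
      (∀ l ∈ R, P0 l) → ∃ η, Gm J T η R e β τ (η₀ β (∑ l ∈ R, e l * lm9 l)) ∧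
        ((St J η R).Finite → F R e β)

/-- the estimate for a fixed exponent function -/
def MainP (F : Finset ℕ → (ℕ → ZMod 3) → ZMod 3 → Prop) : Prop :=
  ∀ (e : ℕ → ZMod 3) (n₀ : ℕ) (β : ZMod 3) (ε : ℝ), (∀ l, e l ≠ 0) → Evs e n₀ →
    0 < ε → Sp (fun n => ¬ F n.primeFactors e β) ε

/-- the property holds for `3 ^ j * D` and `3 ^ j * D ^ 2` -/
def Both (F : Finset ℕ → (ℕ → ZMod 3) → ZMod 3 → Prop) (D : ℕ) : Prop :=
  ∃ (R : Finset ℕ) (e : ℕ → ZMod 3) (β : ZMod 3), (∀ l ∈ R, P0 l) ∧ (∀ l, e l ≠ 0) ∧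
    Cls D R e β ∧ ∀ β', F R e β' ∧ F R (-e) β'

variable {F : Finset ℕ → (ℕ → ZMod 3) → ZMod 3 → Prop}

theorem p0_of {n : ℕ} (h3 : ¬ 3 ∣ n) : ∀ l ∈ n.primeFactors, P0 l := fun l hl =>
  ⟨Nat.prime_of_mem_primeFactors hl, by
    rintro rfl
    exact h3 (Nat.dvd_of_mem_primeFactors hl)⟩

theorem x_MainP (hPtB : PtB) (hCur : CurP F) (hTauT : TauT) (hResT : ResT) (hThT : ThT)
    (hRedT : RedT) (hDecT : DecT) : MainP F := by
  intro e n₀ β ε he hn₀ hε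
  obtain ⟨A, iA, J, T, hI, η₀, hη⟩ := hCur
  obtain ⟨h, hh⟩ := hPtB ε hε
  obtain ⟨σ, τ, hT⟩ := hTauT e he
  obtain ⟨-, -, ⟨φ, hφ⟩, -⟩ := hDecT
  obtain ⟨V, iV, fV, JV, TV, ι, hE⟩ := hResT A J T hI (2 * h + 4 + 2) (by omega)
  let B : Bs V := ⟨JV, TV, 2 * h + 4, σ, τ, e, β, φ, 0⟩
  let η1 : ZMod 3 → GQ → V ≃ₗ[ℤ] V := fun c g => res_XMainT ι (η₀ β c g)
  have key : ∀ (R : Finset ℕ) (η : GQ →* (A ≃ₗ[ℤ] A)), (∀ l ∈ R, P0 l) →
      Gm J T η R e β τ (η₀ β (∑ l ∈ R, e l * lm9 l)) →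
      ∃ ηV : GQ →* (V ≃ₗ[ℤ] V), (∀ g y, ι (ηV g y) = η g (ι y)) ∧ Gm0 JV TV ηV R e β τ ∧
        ∀ g ∈ DP P3, ηV g = η1 (∑ l ∈ R, e l * lm9 l) g := by
    intro R η hR hG
    obtain ⟨ηV, h1, h2⟩ := hThT A V J T JV TV ι _ hI.toCm0 hE η R e β σ τ hG.toGm0 hT hR
    refine ⟨ηV, h1, h2, fun g hg => res_eq_XMainT hE.inj fun y => ?_⟩
    rw [h1, hG.three g hg]
  have hB : B.Ok η1 h := by
    refine ⟨hE.cm, rfl, hT, hφ, fun R hR => ?_⟩
    obtain ⟨η, hG, -⟩ := hη σ τ e hT β R hR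
    obtain ⟨ηV, -, h2, h3⟩ := key R η hR hG
    exact ⟨ηV, h2, h3⟩
  obtain ⟨O, hO, hred⟩ := hRedT A V J T B ι hI hE ⟨h + 2, by change 2 * h + 4 = _; omega⟩
    (by change 4 ≤ 2 * h + 4; omega) hT hφ
  refine sp_mono_XMainT ?_ (hh V B η1 O n₀ hB hO he hn₀)
  intro n h3 hsq hK
  have hR := p0_of h3
  obtain ⟨η, hG, hfin⟩ := hη σ τ e hT β _ hR
  obtain ⟨ηV, h1, h2, h4⟩ := key _ η hR hG
  refine ⟨ηV, h2, h4, fun d l hl him hgen => ?_⟩
  have hinf : (St J η n.primeFactors).Infinite := fun hf => hK (hfin hf)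
  refine hred d l η (η₀ β (∑ l ∈ n.primeFactors, e l * lm9 l)) ηV hl (fun j => hR _ ?_) ?_ h1 hgen ?_
  · rw [← him]
    exact Finset.mem_image_of_mem _ (Finset.mem_univ j)
  · rw [him]
    exact hG
  · rw [him]
    exact hinf

theorem x_Both (hMain : MainP F) (hShpT : ShpT) :
    Tendsto (fun X : ℕ => ({D : ℕ | 1 ≤ D ∧ D ≤ X ∧ ¬ Both F D}.ncard : ℝ) / X) atTop (𝓝 0) := by
  classical
  refine tendsto_order.2 ⟨fun a ha => Eventually.of_forall fun X => ha.trans_le (by positivity),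
    fun ε hε => ?_⟩
  obtain ⟨K, hK⟩ := hShpT.2 (ε / 4) (by positivity)
  let I : Finset ((ℕ × ℕ × ZMod 3) × ZMod 3 × Bool) := (Icc 1 K ×ˢ Icc 1 K ×ˢ univ) ×ˢ univ
  let E : ℕ → Bool → ℕ → ZMod 3 := fun f b =>
    if b then fun l => if l ∣ f then 2 else 1 else -fun l => if l ∣ f then 2 else 1
  have hc : 0 < ε / 4 / (I.card + 1) := by positivity
  have hM : ∀ᶠ X : ℕ in atTop, ∀ i ∈ I, (((Icc 1 X).filter fun n => ¬ 3 ∣ n ∧ Squarefree n ∧
      ¬ F n.primeFactors (E i.1.2.1 i.2.2) i.2.1).card : ℝ) ≤ ε / 4 / (I.card + 1) * X := by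
    refine (eventually_all_finset I).2 fun i hi => ?_
    have h1 := mem_Icc.1 (mem_product.1 (mem_product.1 (mem_product.1 hi).1).2).1
    have h0 : ∀ l, K < l → ¬ l ∣ i.1.2.1 := fun l hl hd =>
      absurd (Nat.le_of_dvd h1.1 hd) (by omega)
    have h2 := hMain (E i.1.2.1 i.2.2) K i.2.1 _ (fun l => by
      simp only [E]
      split_ifs
      · dsimp only
        split_ifs <;> decide
      · rw [Pi.neg_apply]
        split_ifs <;> decide) (by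
      simp only [E]
      split_ifs
      · exact Or.inl fun l hl => if_neg (h0 l hl)
      · exact Or.inr fun l hl => by rw [Pi.neg_apply, if_neg (h0 l hl)]) hc
    refine h2.mono fun X h => ?_
    convert h
  filter_upwards [hM, eventually_gt_atTop 0] with X h hX
  have hX' : (0 : ℝ) < X := Nat.cast_pos.2 hX
  have key := cover_XFinT I _ (fun i n => i.1.1 ^ 3 * 3 ^ i.1.2.2.val * i.1.2.1 * n)
    {D : ℕ | 1 ≤ D ∧ D ≤ X ∧ ¬ Both F D}
    {D : ℕ | 1 ≤ D ∧ D ≤ X ∧ ∃ a f, (K < a ∨ K < f) ∧ a ^ 3 * f ^ 2 ∣ D}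
    ((Set.finite_Iic X).subset fun D hD => hD.2.1) _ h fun D hD hE => by
      obtain ⟨d1, d2, d3⟩ := hD
      obtain ⟨a, f, n, β, e, n1, n2, n3, n4⟩ := hShpT.1 D (by omega)
      have a0 : a ≠ 0 := by
        rintro rfl
        simp at e
        omega
      have n0 : n ≠ 0 := n2.ne_zero
      have f0 : f ≠ 0 := ne_zero_of_dvd_ne_zero n0 n3
      have hd : a ^ 3 * f ^ 2 ∣ D := by
        obtain ⟨c, hc⟩ := n3
        exact ⟨3 ^ β.val * c, by rw [e, hc]; ring⟩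
      have hk : ¬ (K < a ∨ K < f) := fun hk => hE ⟨d1, d2, a, f, hk, hd⟩
      have hn : n ≤ D := Nat.le_of_dvd d1 ⟨a ^ 3 * 3 ^ β.val * f, by rw [e]; ring⟩
      obtain ⟨β', b, hb⟩ : ∃ β' b, ¬ F n.primeFactors (E f b) β' := by
        by_contra hc
        push Not at hc
        exact d3 ⟨_, _, β, p0_of n1, fun l => by split_ifs <;> decide, n4,
          fun β' => ⟨hc β' true, hc β' false⟩⟩
      refine ⟨((a, f, β), β', b), mem_product.2 ⟨mem_product.2 ⟨mem_Icc.2 ⟨?_, ?_⟩,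
        mem_product.2 ⟨mem_Icc.2 ⟨?_, ?_⟩, mem_univ _⟩⟩, mem_univ _⟩, n, mem_filter.2
          ⟨mem_Icc.2 ⟨by omega, by omega⟩, n1, n2, hb⟩, e.symm⟩
      · show 1 ≤ a
        omega
      · show a ≤ K
        omega
      · show 1 ≤ f
        omega
      · show f ≤ K
        omega
  have h1 := hK X
  have h2 : (I.card : ℝ) * (ε / 4 / (I.card + 1) * X) ≤ ε / 4 * X := by
    rw [← mul_assoc]
    refine mul_le_mul_of_nonneg_right ?_ hX'.le
    rw [← mul_div_assoc, div_le_iff₀ (by positivity)]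
    nlinarith
  rw [div_lt_iff₀ hX']
  nlinarith

end Pool.Agent.MP_e23604_nt.T

end

section

/-! The strict cocycles attached to the curves. -/

namespace Pool.Agent.MP_e23604_nt.T

open Finset WeierstrassCurve Cv
open scoped BigOperators Classical

/-- finitely many strict cocycles for the cubic twist by `3 ^ β * ∏ l ^ e l` -/
def StF (R : Finset ℕ) (e : ℕ → ZMod 3) (β : ZMod 3) : Prop :=
  ∃ (δ : Qb) (η : GQ →* (A3 ≃ₗ[ℤ] A3)) (τ : ℕ → GQ),
    δ ^ 3 = (3 ^ β.val * ∏ l ∈ R, l ^ (e l).val : ℕ) ∧ Eta δ η ∧ Gm0 J3 T0 η R e β τ ∧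
      (St J3 η R).Finite

theorem curP : CurP StF := by
  have h0 : ∀ β c : ZMod 3, ∃ (δ : Qb) (η : GQ →* (A3 ≃ₗ[ℤ] A3)),
      δ ^ 3 = (3 ^ β.val * 2 ^ c.val : ℕ) ∧ Eta δ η := fun β c => by
    obtain ⟨δ, hδ⟩ := IsAlgClosed.exists_pow_nat_eq ((3 ^ β.val * 2 ^ c.val : ℕ) : Qb) three_pos
    obtain ⟨η, hη⟩ := eta_ex (by positivity) hδ
    exact ⟨δ, η, hδ, hη⟩
  choose δ₀ η₀ hδ₀ hη₀ using h0
  refine ⟨A3, inferInstance, J3, T0, cmI, fun β c g => η₀ β c g, fun σ τ e hT β R hR => ?_⟩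
  have hD : 3 ^ β.val * ∏ l ∈ R, l ^ (e l).val ≠ 0 := mul_ne_zero (by positivity)
    (prod_ne_zero_iff.2 fun l hl => pow_ne_zero _ (hR l hl).1.ne_zero)
  obtain ⟨w, w1, w2⟩ := cube_loc (t := (∏ l ∈ R, l ^ (e l).val : ℕ))
    (u := 2 ^ (∑ l ∈ R, e l * lm9 l).val)
    (fun h => absurd (Int.prime_three.dvd_of_dvd_pow h) (by decide))
    ((log9 R e hR).imp (fun h => (ZMod.intCast_zmod_eq_zero_iff_dvd _ 9).1 (by
      rw [Int.cast_sub, Int.cast_natCast, h, Int.cast_pow, Int.cast_ofNat, sub_self]))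
      fun h => (ZMod.intCast_zmod_eq_zero_iff_dvd _ 9).1 (by
        rw [Int.cast_add, Int.cast_natCast, h, Int.cast_pow, Int.cast_ofNat, neg_add_cancel]))
  have hδ : (w * δ₀ β (∑ l ∈ R, e l * lm9 l)) ^ 3 =
      (3 ^ β.val * ∏ l ∈ R, l ^ (e l).val : ℕ) := by
    rw [Int.cast_natCast] at w1
    rw [mul_pow, hδ₀, Nat.cast_mul, Nat.cast_mul, ← w1]
    push_cast
    ring
  have w0 : w ≠ 0 := left_ne_zero_of_mul (root_ne hD hδ)
  obtain ⟨η, hη⟩ := eta_ex hD hδ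
  have hG := gm0 hT β R hR hδ hη
  refine ⟨η, ⟨hG, fun g hg => LinearEquiv.ext fun u => ?_, eta_big hD hδ hη⟩,
    fun hS => ⟨_, η, τ, hδ, hη, hG, hS⟩⟩
  rw [hη, hη₀, map_mul, w2 g hg, mul_div_mul_left _ _ w0]

variable {R : Finset ℕ} {e : ℕ → ZMod 3} {β : ZMod 3} {D : ℕ}

theorem StF.cork (h : StF R e β) (hR : ∀ l ∈ R, P0 l) (hD : D ≠ 0) (hc : Cls D R e β) :
    Cork (EC D) := by
  obtain ⟨δ, η, τ, hδ, hη, hG, hS⟩ := h
  have h0 : 3 ^ β.val * ∏ l ∈ R, l ^ (e l).val ≠ 0 := mul_ne_zero (by positivity)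
    (prod_ne_zero_iff.2 fun l hl => pow_ne_zero _ (hR l hl).1.ne_zero)
  refine (stCork cmI.1 hG hR hδ (fun g x y h => ?_) hS hD hc).1
  have a1 := (ns_iff Cv.gd x y).1 h
  have a2 := on_sc (quot_cube h0 hδ g) (on_gal g a1)
  refine ⟨(ns_iff Cv.gd _ _).2 a2, ?_⟩
  rw [← pt_eq Cv.gd a1, ← pt_eq Cv.gd a2, hη, gal_pt g a1, sc_pt _ (on_gal g a1)]

theorem Cls.pow (h : Cls D R e β) (i j : ℕ) :
    Cls (3 ^ j * D ^ i) R (fun l => i * e l) (j + i * β) := by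
  obtain ⟨c, rfl⟩ := h
  have k : ∀ (x m : ℕ) (a : ZMod 3), (m : ZMod 3) = a → x ^ m = (x ^ (m / 3)) ^ 3 * x ^ a.val :=
    fun x m a h => by
      rw [← h, ZMod.val_natCast, ← pow_mul, ← pow_add, Nat.div_add_mod']
  refine ⟨c ^ i * 3 ^ ((j + i * β.val) / 3) * ∏ l ∈ R, l ^ (i * (e l).val / 3), ?_⟩
  have h1 := k 3 (j + i * β.val) (j + i * β) (by push_cast; rw [ZMod.natCast_zmod_val])
  have h2 : (∏ l ∈ R, l ^ (e l).val) ^ i =
      (∏ l ∈ R, l ^ (i * (e l).val / 3)) ^ 3 * ∏ l ∈ R, l ^ ((i : ZMod 3) * e l).val := by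
    rw [← prod_pow, ← prod_pow, ← prod_mul_distrib]
    refine prod_congr rfl fun l _ => ?_
    rw [← pow_mul, mul_comm]
    exact k l _ _ (by push_cast; rw [ZMod.natCast_zmod_val])
  rw [pow_add, mul_comm i, pow_mul] at h1
  rw [mul_pow, mul_pow, h2]
  calc _ = c ^ (3 * i) * (3 ^ j * (3 ^ β.val) ^ i) * ((∏ l ∈ R, l ^ (i * (e l).val / 3)) ^ 3 *
        ∏ l ∈ R, l ^ ((i : ZMod 3) * e l).val) := by ring
    _ = _ := by
      rw [h1, mul_comm β.val i]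
      ring

theorem Cls.mem (h : Cls D R e β) (hR : ∀ l ∈ R, P0 l) (hD : D ≠ 0) {l : ℕ} (h3 : l ≠ 3)
    (hl : ¬ 3 ∣ D.factorization l) : l ∈ R := by
  obtain ⟨c, rfl⟩ := h
  by_contra hn
  refine hl ?_
  have h1 := left_ne_zero_of_mul hD
  have h2 := right_ne_zero_of_mul hD
  rw [Nat.factorization_mul h1 h2, Nat.factorization_mul (left_ne_zero_of_mul h2)
    (right_ne_zero_of_mul h2), Nat.factorization_prod fun l hl => pow_ne_zero _ (hR l hl).1.ne_zero]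
  simp only [Nat.factorization_pow, Finsupp.add_apply, Finsupp.smul_apply, smul_eq_mul,
    Finsupp.finsetSum_apply, Nat.prime_three.factorization, Finsupp.single_eq_of_ne h3]
  rw [sum_eq_zero fun m hm => by
    rw [(hR m hm).1.factorization, Finsupp.single_eq_of_ne fun a : l = m => hn (a ▸ hm),
      mul_zero]]
  simp

/-- the strict cocycles of the twist by `D` are finite in number -/
def SD (D : ℕ) : Prop :=
  ∃ (R : Finset ℕ) (e : ℕ → ZMod 3) (β : ZMod 3), (∀ l ∈ R, P0 l) ∧ Cls D R e β ∧ StF R e β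

theorem Both.sd (h : Both StF D) (j : ℕ) : SD (3 ^ j * D) ∧ SD (3 ^ j * D ^ 2) := by
  obtain ⟨R, e, β, h1, -, h2, h3⟩ := h
  refine ⟨⟨R, e, _, h1, by simpa using h2.pow 1 j, (h3 _).1⟩, R, -e, j + (2 : ℕ) * β, h1, ?_,
    (h3 _).2⟩
  convert h2.pow 2 j using 2 with l
  rw [Pi.neg_apply]
  generalize e l = a
  revert a
  decide

theorem SD.cork (h : SD D) (hD : D ≠ 0) : Cork (EC D) := by
  obtain ⟨R, e, β, h1, h2, h3⟩ := h
  exact h3.cork h1 hD h2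

end Pool.Agent.MP_e23604_nt.T

end

section

/-!
Cocycles over the field of cube roots of unity that vanish at three.
-/

set_option autoImplicit false

open Finset QuadraticAlgebra
open scoped Classical

namespace Pool.Agent.MP_e23604_nt.W

open B R S

/-- the cocycles that vanish on the decomposition group at three have bounded exponent -/
def HSt (χ : GQ → ZMod 3) (r : ℕ) : Prop :=
  ∃ k₀ : ℕ, ∀ (k : ℕ) (x : GQ → Pt), Cz χ GK x → Unr (3 * r) x → (∀ g ∈ V3.D, x g = 0) →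
    (∀ g ∈ GK, 3 ^ k • x g = 0) → ∀ g ∈ GK, 3 ^ k₀ • x g = 0

theorem w_pow_pt (n : ℕ) {x y : Qb} (h : On 0 1 x y) :
    On 0 1 (w3 ^ n * x) y ∧ (ω : Zw) ^ n • pt 0 1 x y = pt 0 1 (w3 ^ n * x) y := by
  induction n with
  | zero => simpa using h
  | succ n ih =>
    rw [pow_succ', pow_succ', mul_smul, ih.2, w_pt ih.1, mul_assoc]
    exact ⟨on_w ih.1, rfl⟩

theorem sc_w (a : ZMod 3) (P : Pt) : T.Cv.sc (w3 ^ a.val) P = (ω : Zw) ^ (2 * a).val • P := by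
  rcases pt_cases G01 P with rfl | ⟨x, y, h, rfl⟩
  · rw [T.Cv.sc_zero, smul_zero]
  · rw [T.Cv.sc_pt _ h, (w_pow_pt _ h).2, ← pow_mul, pow_eq_pow_mod _ w3_cube, ZMod.val_mul,
      mul_comm a.val]
    rfl

theorem gz_iff {g : GQ} : g ∈ GK ↔ g ∈ MP_f68ac8_nt.Nd.Gz 3 :=
  ⟨fun h => MP_f68ac8_nt.cyc_of_xi (h _ T.Cv.xi_cube),
    fun h _ hz => MP_f68ac8_nt.Ev.fix_root_EvKK h hz⟩

theorem hs_of (hKAP : S.KAP_st) (hPLK : PLK_st) {D r : ℕ} (hD : D ≠ 0) (h : T.SD D)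
    (hr : ∀ l : ℕ, l.Prime → l ≠ 3 → l ∣ r → ¬ 3 ∣ D.factorization l) :
    HSt (fun g => 2 * kum D g) r := by
  obtain ⟨R, e, β, hR, hc, δ, η, τ, hδ, hη, hG, hS⟩ := h
  have hJ := T.Cv.J3_sq
  obtain ⟨k₀, hk₀⟩ : ∃ k₀ : ℕ, ∀ x ∈ T.St T.Cv.J3 η R, ∀ g, 3 ^ k₀ • x g = 0 := by
    choose! K hK using fun x (hx : x ∈ T.St T.Cv.J3 η R) => hx.2.2.1
    obtain ⟨k₀, h0⟩ := (hS.image K).bddAbove
    exact ⟨k₀, fun x hx g => T.Cv.W_kill hJ (T.Cv.W_mono (h0 ⟨x, hx, rfl⟩) (hK x hx g))⟩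
  have h1 : ∀ g ∈ GK, ∀ P, η g P = eta (fun g => 2 * kum D g) g P := fun g hg P => by
    obtain ⟨c, hc⟩ := hc
    have c0 : (c : Qb) ≠ 0 := Nat.cast_ne_zero.2 fun a => hD (by simp [hc, a])
    have d0 : δ ≠ 0 := T.Cv.root_ne (right_ne_zero_of_mul (hc ▸ hD)) hδ
    obtain ⟨t, ht⟩ := hKAP.2.1 D (c * δ) (Nat.cast_ne_zero.2 hD) (by
      rw [mul_pow, hδ, Rat.cast_natCast]
      exact_mod_cast hc.symm)
    have a := ht g
    rw [ep_pos hg, sub_self, zero_mul, add_zero, map_mul, map_natCast, mul_left_comm] at a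
    rw [hη, mul_left_cancel₀ c0 a, mul_div_cancel_right₀ _ d0, sc_w, eta_apply]
    rfl
  obtain ⟨c, c1, c2⟩ := three_SLOC 1
  have c3 : c ∈ Dec V3.v := Ine_le _ _ c1
  have c4 : c⁻¹ ∉ GK := by rwa [GK.inv_mem_iff]
  have key : ∀ (k : ℕ) (x : GQ → Pt), Lc GK x → Ca η GK x → Unr (3 * r) x →
      (∀ g ∈ V3.D, x g = 0) → (∀ g ∈ GK, 3 ^ k • x g = 0) →
      ∀ g ∈ GK, 3 ^ k₀ • (x g + η c (x (c⁻¹ * g * c))) = 0 := fun k x x1 x2 x3 x4 x5 g hg => by
    have := hk₀ (cor η c x) ⟨lc_iff.2 (cor_lc c2 x1), cor_coc c2 x2, ⟨2 * k, fun g => ?_⟩,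
      fun P hP g hg => ?_, fun g hg => ?_⟩ g
    · rwa [cor, if_pos hg] at this
    · refine (T.Cv.W_tor hJ k).2 ?_
      unfold cor
      split_ifs with hg
      · rw [smul_add, ← map_nsmul, x5 g hg, x5 _ (cjG_mem hg), map_zero, add_zero]
      · rw [smul_add, ← map_nsmul, x5 _ (GK_mul c4 hg), x5 _ (GK_mul hg c2), map_zero, add_zero]
    · have := hP.1
      obtain ⟨l, hl, hlP⟩ := MP_f68ac8_nt.exists_prime_mem (Ω := Qb) P
      have := Fact.mk hl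
      obtain ⟨γ, hγ⟩ := T.CS.ex_inr l P hP.1 hlP
      have l3 : l ≠ 3 := fun a => hP.2.1 (a ▸ hlP)
      have hV : ∀ V : Plc, V.l = l → ¬ Ov V (3 * r) := fun V a => by
        rw [Ov_mul, show (3 : Zw) = (3 : ℕ) from rfl, hPLK.2.2.2.1, hPLK.2.2.2.1, a,
          Nat.prime_dvd_prime_iff_eq hl Nat.prime_three, not_or]
        exact ⟨l3, fun b => hP.2.2 l (hc.mem hR hD l3 (hr l hl l3 b)) hlP⟩
      have hτ : g ∈ Ine l γ := hγ g hg
      have hk := Ine_GK γ l3 hτ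
      rw [cor, if_pos hk, x3 ⟨l, γ⟩ (hV _ rfl) g ⟨hτ, hk⟩, x3 (Plc.mv ⟨l, γ⟩ c) (hV _ rfl) _
        ((Plc.mv_I _ c _).2 (by
          rw [show c * (c⁻¹ * g * c) * c⁻¹ = g by group]; exact ⟨hτ, hk⟩)), map_zero, add_zero]
    · have a : g ∈ Dec V3.v := T.Cv.dp_nv hg
      have a' := (Dec V3.v).mul_mem ((Dec V3.v).inv_mem c3) a
      unfold cor
      split_ifs with hk
      · rw [x4 g ⟨a, hk⟩, x4 _ ⟨(Dec V3.v).mul_mem a' c3, cjG_mem hk⟩, map_zero, add_zero]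
      · rw [x4 _ ⟨a', GK_mul c4 hk⟩, x4 _ ⟨(Dec V3.v).mul_mem a c3, GK_mul hk c2⟩, map_zero,
          add_zero]
  refine ⟨k₀ + 1, fun k x hx x3 x4 x5 g hg => ?_⟩
  have x2 : Ca η GK x := fun g hg j hj => by rw [hx.2 g hg j hj, h1 g hg]
  let w : Pt →+ Pt := AddMonoidHom.mk' (fun u => T.Cv.J3 u - T.Cv.J3 (T.Cv.J3 u)) fun u v => by
    simp only [map_add]
    abel
  have w0 : ∀ u, w u = T.Cv.J3 u - T.Cv.J3 (T.Cv.J3 u) := fun _ => rfl
  have j3 := T.CS.j_cube T.Cv.cmI.1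
  have w1 : ∀ g ∈ GK, ∀ u, η g (w u) = w (η g u) := fun g hg u => by
    simp only [w0, map_sub, hG.lin g (gz_iff.1 hg)]
  have w2 : ∀ u, η c (w u) = -w (η c u) := fun u => by
    simp only [w0, map_sub, hG.ant c (mt gz_iff.2 c2), j3, neg_sub]
  have w3 : ∀ u, w (w u) = -(3 • u) := fun u => by
    simp only [w0, map_sub, j3]
    linear_combination (norm := abel) hJ u
  have e1 := congrArg w (key k x hx.1 x2 x3 x4 x5 g hg)
  have e2 := key k (fun g => w (x g)) (hx.1.map _)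
    (fun g hg j hj => by simp only [x2 g hg j hj, map_add, w1 g hg])
    (fun V a τ hτ => by simp only [x3 V a τ hτ, map_zero])
    (fun g hg => by simp only [x4 g hg, map_zero])
    (fun g hg => by rw [← map_nsmul, x5 g hg, map_zero]) g hg
  rw [map_nsmul, map_add, map_zero] at e1
  rw [w2] at e2
  have e3 : 2 • 3 ^ k₀ • w (x g) = 0 := by
    simp only [smul_add, smul_neg] at e1 e2
    linear_combination (norm := abel) e1 + e2
  have e4 := congrArg w e3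
  rw [map_nsmul, map_nsmul, w3, map_zero, smul_neg, smul_neg, neg_eq_zero, ← mul_smul (3 ^ k₀),
    ← pow_succ] at e4
  obtain ⟨u, hu⟩ := half_three (A := Pt) k
  rw [← hu (3 ^ (k₀ + 1) • x g) (by rw [smul_comm, x5 g hg, smul_zero]), e4, smul_zero]

end Pool.Agent.MP_e23604_nt.W

end

section

/-!
The bottom class of the Euler system is not too divisible, under the weaker hypothesis.
-/

set_option autoImplicit false

open Finset Filter Matrix QuadraticAlgebra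
open scoped Classical

namespace Pool.Agent.MP_e23604_nt.W

open B R S

end Pool.Agent.MP_e23604_nt.W

end

section

/-!
A formula of Gross-Zagier type modulo powers of three: definitions and the statements that connect
the parts.
-/

set_option autoImplicit false

open Finset QuadraticAlgebra
open scoped Classical

namespace Pool.Agent.MP_e23604_nt.Z

open B R S W Un

/-! ### The arithmetic sum -/

/-- the second basis element of the order of conductor `r` -/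
def e2 (r : ℕ) : Zw := r * ((ω : Zw) - 1)

/-- the level -/
def N0 (r : ℕ) : ℕ := 81 * r ^ 2

/-- cubic ring class characters of conductor `9 r` -/
structure Ch (r : ℕ) (κ : Zw → ZMod 3) (e : ZMod 3) : Prop where
  sf : Squarefree r
  n3 : ¬ 3 ∣ r
  add : ∀ u v : Zw, IsCoprime u (3 * r) → IsCoprime v (3 * r) → κ (u * v) = κ u + κ v
  per : ∀ u v : Zw, IsCoprime u (3 * r) → (9 * r : Zw) ∣ u - v → κ u = κ v
  w : κ ω = 0
  int : ∀ n : ℤ, IsCoprime (n : Zw) (3 * r) → κ n = 0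
  ram : ∀ p : ℕ, p.Prime → p ∣ r →
    ∃ u : Zw, IsCoprime u (3 * r) ∧ ((9 * (r / p) : ℕ) : Zw) ∣ u - 1 ∧ κ u ≠ 0
  he : κ (1 + 3 * e2 r) = e
  ne : e ≠ 0

/-- an auxiliary prime and a logarithm modulo this prime -/
structure Lg (r k : ℕ) (a lam : Zw) (L : Zw → ZMod (3 ^ k)) : Prop where
  pp : PP lam
  deg : (nn lam).Prime
  n0 : (N0 r : Zw) ∣ lam - 1
  big : 27 * r ^ 2 < nn lam
  tr : lam + star lam ≠ 2
  na : nn lam ≠ nn a
  add : ∀ u v, ¬ lam ∣ u → ¬ lam ∣ v → L (u * v) = L u + L v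
  per : ∀ u v, ¬ lam ∣ u → lam ∣ u - v → L u = L v
  sm : ∀ b : Zw, b ∣ 6 * r → L b = 0
  la : L a = 0

theorem fin_nb (n : ℕ) : {a : Zw | nn a ≤ n}.Finite := by
  refine ((Set.finite_Icc (-(2 * n + 1 : ℤ)) (2 * n + 1)).prod
    (Set.finite_Icc (-(2 * n + 1 : ℤ)) (2 * n + 1))).image (fun p => (⟨p.1, p.2⟩ : Zw)) |>.subset ?_
  intro a ha
  have h : nw a ≤ n := by rw [← nn_cast]; exact_mod_cast ha
  rw [nw_def] at h
  refine ⟨(a.re, a.im), ⟨⟨?_, ?_⟩, ?_, ?_⟩, rfl⟩ <;> dsimp only <;>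
    nlinarith [sq_nonneg (2 * a.re - a.im), sq_nonneg (a.re - 2 * a.im), sq_nonneg (a.re - 1),
      sq_nonneg (a.re + 1), sq_nonneg (a.im - 1), sq_nonneg (a.im + 1)]

/-- the numbers of bounded norm -/
noncomputable def nb (n : ℕ) : Finset Zw := (fin_nb n).toFinset

/-! ### The points -/

/-- the first coordinate on the quotient curve, normalised to vanish at `T` -/
noncomputable def vX (C : AddSubgroup Pt) (T P : Pt) : Qb :=
  ∑ c ∈ els C, xc (P + c) - ∑ c ∈ els C, xc (T + c)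

/-- the point of the curve that belongs to the point `a : b : c` of `a ^ 3 = b ^ 3 + c ^ 3` -/
noncomputable def fm (a b c : Qb) : Pt :=
  pt 0 1 (c / (b - a)) ((w3 ^ 2 * b - w3 * a) / (b - a))

/-- the coefficient `a₁ a₃` of the normal form -/
noncomputable def fa (x y z : Qb) : Qb := x * y + x * z + y * z

/-- a cube root of `a₃ ^ 3 * (a₁ ^ 3 - 27 a₃)` -/
noncomputable def fb (x y z : Qb) : Qb := fa x y z - 3 * y * z

/-- a cube root of `27 a₃ ^ 4` -/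
noncomputable def fc (x y z u : Qb) : Qb :=
  fa x y z - fb x y z ^ 3 / (3 * (x * y * z) * (x + y + z - u))

/-- the point as a function of four abscissae -/
noncomputable def fp (x y z u : Qb) : Pt := fm (fa x y z) (fb x y z) (fc x y z u)

/-- the point that belongs to the data -/
noncomputable def Hp (C : AddSubgroup Pt) (S R : Pt) : Pt :=
  fp (vX C (3 • R) S) (vX C (3 • R) (S + 3 • R)) (vX C (3 • R) (S - 3 • R))
    (vX C (3 • R) R + vX C (3 • R) (R + 3 • R) + vX C (3 • R) (R - 3 • R))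

/-- admissible data -/
structure DD (C : AddSubgroup Pt) (S R : Pt) : Prop where
  fin : (C : Set Pt).Finite
  r9 : 9 • R ∈ C
  s3 : 3 • S ∈ C
  r3 : 3 • R ∉ C
  s0 : S ∉ C
  s1 : S + 3 • R ∉ C
  s2 : S - 3 • R ∉ C

/-- the point that belongs to a generator `G` of the points killed by `9 r` and a subgroup `L` -/
noncomputable def hq (r : ℕ) (L : AddSubgroup Pt) (G : Pt) : Pt :=
  Hp (AddSubgroup.zmultiples ((9 : Zw) • G) ⊔ L) ((3 * e2 r) • G) G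

/-- the trace -/
noncomputable def hv (χ : GQ → ZMod 3) (r : ℕ) (L : AddSubgroup Pt) (G : Pt) : Pt :=
  ∑ y ∈ Xs (UM (9 * r)) GK, (ω : Zw) ^ (χ y).val • hq r L (gal y G)

/-! ### The system of points -/

/-- the Galois action -/
def HGA_st : Prop := ∀ (C : AddSubgroup Pt) (S R : Pt), DD C S R → ∀ g ∈ GK,
  DD (C.map (gal g)) (gal g S) (gal g R) ∧
    gal g (Hp C S R) = Hp (C.map (gal g)) (gal g S) (gal g R)

/-- the Hecke relation at an inert prime -/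
def HTL_st : Prop := ∀ (C : AddSubgroup Pt) (S R : Pt) (l : ℕ), DD C S R → l.Prime → l % 3 = 2 →
  ¬ l ∣ (els C).card → pw • ∑ L ∈ Y.lines l, Hp (C ⊔ L) S R = 0

end Pool.Agent.MP_e23604_nt.Z

end
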