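import Pool.Agent.Mg.Fe23604m.G8e6715
import Pool.Agent.Mg.Fe23604m.Gf509f6

set_option linter.all false

section

/-!
The coordinates of the modular curve as functions on the upper half plane.
-/

set_option autoImplicit false

open Filter Topology Asymptotics Function Finset
open scoped MatrixGroups Classical

namespace Pool.Agent.MP_e23604_nt.Z

open B R S W Un

variable {L L' : PeriodPair} {c u s u' s' τ : ℂ} {p q p' q' x : ℤ × ℤ}

/-- a form of weight two -/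
noncomputable def cH (L : PeriodPair) (u s : ℂ) : ℂ := dB L (3 * u) s * oG L (3 * u) u

theorem ba_ne (h : Two L (3 * u) s) : dB L (3 * u) s - dA L (3 * u) ≠ 0 := fun e =>
  a3_ne h.P3 h.P0 (by linear_combination h.x_eq.2 / 3 + dX L (3 * u) s / 3 * e)

theorem cX_ne (h : Two L (3 * u) s) : cX L u s ≠ 0 :=
  div_ne_zero (mul_ne_zero three_ne_zero h.g_ne) (ba_ne h)

theorem cH_ne (h : Two L (3 * u) s) : cH L u s ≠ 0 := mul_ne_zero h.b_ne h.g_ne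

theorem c_on (h : Two L (3 * u) s) : cY L u s ^ 2 + cY L u s = cX L u s ^ 3 := by
  have a := ba_ne h
  have b := h.abc
  have z := zc3_spec
  rw [cX, cY, div_pow _ _ 3, show (3 * oG L (3 * u) u) ^ 3 =
    dA L (3 * u) ^ 3 - dB L (3 * u) s ^ 3 by linear_combination -b]
  field_simp
  clear * - z
  grind

theorem iso_c (h : Iso c L L' u s u' s') : cX L' u' s' = cX L u s ∧ cY L' u' s' = cY L u s ∧
    cH L' u' s' = c⁻¹ ^ 2 * cH L u s := by
  have c0 := inv_ne_zero h.sc.1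
  rw [cX, cX, cY, cY, cH, cH, h.g, h.sc.dB' h.et h.es, h.sc.dA' h.et, ← mul_sub]
  refine ⟨?_, ?_, by ring⟩
  · rw [mul_left_comm, mul_div_mul_left _ _ c0]
  · rw [mul_left_comm _ c⁻¹, mul_left_comm _ c⁻¹, ← mul_sub, mul_div_mul_left _ _ c0]

theorem iso_two (h : Iso c L L' u s u' s') : Two L' (3 * u') s' := by
  have m : ∀ {z z'}, c * z - z' ∈ L'.lattice → c * (3 * z) - 3 * z' ∈ L'.lattice := fun e => by
    convert L'.lattice.smul_mem 3 e using 1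
    simp only [zsmul_eq_mul]
    push_cast
    ring
  exact ⟨(h.sc.nm (m h.et)).2 h.two.P3, (h.sc.nm (m h.es)).2 h.two.Q3, (h.sc.nm h.et).not.2 h.two.P0,
    (h.sc.nm h.es).not.2 h.two.Q0,
    (h.sc.nm (by convert add_mem h.es h.et using 1; ring)).not.2 h.two.ad,
    (h.sc.nm (by convert sub_mem h.es h.et using 1; ring)).not.2 h.two.sb⟩

theorem disc_eq (h : Two L (3 * u) s) :
    L.g₂ ^ 3 - 27 * L.g₃ ^ 2 = dB L (3 * u) s ^ 3 * oG L (3 * u) u ^ 9 := by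
  have a := wq_sq h.P0
  have b := g2_eq h.P3 h.P0
  have f := flex h.P3 h.P0
  rw [show L.g₃ = 4 * wp L (3 * u) ^ 3 - L.g₂ * wp L (3 * u) - wq L (3 * u) ^ 2 by
    linear_combination a, b, h.b_cube, show (9 : ℕ) = 3 * 3 from rfl, pow_mul, h.g_cube,
    show wp L (3 * u) = dA L (3 * u) ^ 2 / 12 by linear_combination -f / 12]
  ring

/-- both coordinates are divisible by `n` -/
def Dv (n : ℤ) (x : ℤ × ℤ) : Prop := n ∣ x.1 ∧ n ∣ x.2

theorem lin_sub (p q : ℤ × ℤ) (τ : ℂ) : lin (p - q) τ = lin p τ - lin q τ := by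
  rw [sub_eq_add_neg, lin_add, lin_neg, sub_eq_add_neg]

theorem mem_dv (h : τ ∈ HH) {n : ℤ} (hn : n ≠ 0) {z : ℂ} (e : z = lin x τ / n) :
    z ∈ (Lt τ).lattice ↔ Dv n x := e ▸ lin_div_mem h hn

/-- a basis modulo three -/
structure Ad (p q : ℤ × ℤ) : Prop where
  p0 : ¬ Dv 3 p
  q0 : ¬ Dv 3 q
  ad : ¬ Dv 3 (q + p)
  sb : ¬ Dv 3 (q - p)

theorem two_iff (h : τ ∈ HH) : Two (Lt τ) (3 * (lin p τ / 9)) (lin q τ / 3) ↔ Ad p q := by
  have a := mem_dv (x := p) h three_ne_zero (z := 3 * (lin p τ / 9)) (by push_cast; ring)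
  have b := mem_dv (x := q) h three_ne_zero (z := lin q τ / 3) (by push_cast; ring)
  have c := mem_dv (x := q + p) h three_ne_zero (z := lin q τ / 3 + 3 * (lin p τ / 9))
    (by rw [lin_add]; push_cast; ring)
  have d := mem_dv (x := q - p) h three_ne_zero (z := lin q τ / 3 - 3 * (lin p τ / 9))
    (by rw [lin_sub]; push_cast; ring)
  exact ⟨fun t => ⟨a.not.1 t.P0, b.not.1 t.Q0, c.not.1 t.ad, d.not.1 t.sb⟩, fun t =>
    ⟨by convert lin_mem h p using 1; ring, by convert lin_mem h q using 1; ring, a.not.2 t.p0,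
      b.not.2 t.q0, c.not.2 t.ad, d.not.2 t.sb⟩⟩

theorem Ad.two (a : Ad p q) (h : τ ∈ HH) : Two (Lt τ) (3 * (lin p τ / 9)) (lin q τ / 3) :=
  (two_iff h).2 a

theorem Ad.map (a : Ad p q) {f : ℤ × ℤ → ℤ × ℤ} (f1 : ∀ x y, f (x + y) = f x + f y)
    (f2 : ∀ x y, f (x - y) = f x - f y) (n : ∀ x, Dv 3 (f x) → Dv 3 x) : Ad (f p) (f q) :=
  ⟨mt (n _) a.p0, mt (n _) a.q0, f1 q p ▸ mt (n _) a.ad, f2 q p ▸ mt (n _) a.sb⟩

theorem dv_act {n : ℤ} (γ : SL(2, ℤ)) (h : Dv n x) : Dv n (Un.act γ x) :=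
  ⟨dvd_add (h.1.mul_right _) (h.2.mul_right _), dvd_add (h.1.mul_right _) (h.2.mul_right _)⟩

theorem act_inv' (γ : SL(2, ℤ)) (x : ℤ × ℤ) : Un.act γ⁻¹ (Un.act γ x) = x := by
  simpa using act_inv γ⁻¹ x

theorem Ad.act (a : Ad p q) (γ : SL(2, ℤ)) : Ad (Un.act γ p) (Un.act γ q) :=
  a.map (fun x y => by ext <;> simp [Un.act] <;> ring) (fun x y => by ext <;> simp [Un.act] <;> ring)
    fun x h => act_inv' γ x ▸ dv_act γ⁻¹ h

/-- the three forms of weight one -/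
noncomputable def fA (p : ℤ × ℤ) (τ : ℂ) : ℂ := dA (Lt τ) (3 * (lin p τ / 9))

/-- the three forms of weight one -/
noncomputable def fB (p q : ℤ × ℤ) (τ : ℂ) : ℂ := dB (Lt τ) (3 * (lin p τ / 9)) (lin q τ / 3)

/-- the three forms of weight one -/
noncomputable def fG (p : ℤ × ℤ) (τ : ℂ) : ℂ := oG (Lt τ) (3 * (lin p τ / 9)) (lin p τ / 9)

/-- the first coordinate -/
noncomputable def fX (p q : ℤ × ℤ) (τ : ℂ) : ℂ := cX (Lt τ) (lin p τ / 9) (lin q τ / 3)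

/-- the second coordinate -/
noncomputable def fY (p q : ℤ × ℤ) (τ : ℂ) : ℂ := cY (Lt τ) (lin p τ / 9) (lin q τ / 3)

/-- the form of weight two -/
noncomputable def fH (p q : ℤ × ℤ) (τ : ℂ) : ℂ := cH (Lt τ) (lin p τ / 9) (lin q τ / 3)

theorem Ad.mr (a : Ad p q) : Mr (9 : ℕ) (fA p) ∧ Mr (9 : ℕ) (fB p q) ∧ Mr (9 : ℕ) (fG p) ∧
    Bd (fB p q) ∧ Bd (fG p) ∧ (¬ 3 ∣ p.1 → Tendsto (fG p) Ii (𝓝 0)) := by
  have n : (9 : ℕ) ≠ 0 := by norm_num
  have U : Pn 9 fun τ => lin p τ / 9 := ⟨p, fun τ => by push_cast; rfl⟩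
  have V : Pn 9 fun τ => lin q τ / 3 := by simpa using Pn.of (N := 9) (m := 3) q three_ne_zero rfl
  have T : Pn 9 fun τ => 3 * (lin p τ / 9) := by simpa using U.nat 3
  obtain ⟨pt, bp⟩ := T.wp n fun τ h => (a.two h).P0
  obtain ⟨qt, bq⟩ := T.wq n
  have q0 := fun τ h => a3_ne (a.two (τ := τ) h).P3 (a.two h).P0
  have A : Mr (9 : ℕ) (fA p) :=
    (((Mr.cst 6).mul (pt.pow 2)).sub ((g2_Mr n).div (Mr.cst 2) fun _ _ => two_ne_zero)).div qt q0
  have B : Mr (9 : ℕ) (fB p q) := A.add (((Mr.cst 3).mul qt).div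
    ((V.wp n fun τ h => (a.two h).Q0).1.sub pt) fun τ h => (a.two h).x_ne)
  have W := ((((U.wp n fun τ h => (a.two h).nu.1).1.add
    ((U.add T).wp n fun τ h => (a.two h).nu.2.1).1).add
    ((U.sub T).wp n fun τ h => (a.two h).nu.2.2).1).sub ((Mr.cst 3).mul pt))
  have bA : Bd (fA p) := Bd.of_pow two_ne_zero (Bd.congr ((Bd.cst 12).mul bp) fun τ h =>
    flex (a.two h).P3 (a.two h).P0)
  refine ⟨A, B, ((((A.pow 2).mul W).sub ((Mr.cst 3).mul (W.pow 2))).add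
    (((Mr.cst 18).mul A).mul qt)).div ((A.pow 3).sub ((Mr.cst 27).mul qt)) fun τ h =>
      (a.two h).b_cube ▸ pow_ne_zero 3 (a.two h).b_ne,
    Bd.of_pow three_ne_zero (Bd.congr ((bA.pow 3).add ((Bd.cst (-27)).mul bq)) fun τ h => ?_),
    Bd.of_pow three_ne_zero (Bd.congr bq fun τ h => (a.two h).g_cube), fun h => ?_⟩
  · simp only [Pi.add_apply, Pi.mul_apply, fA, fB]
    linear_combination (a.two h).b_cube
  · have := (q_mr (N := 3) three_ne_zero p).2.2 h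
    rw [← isLittleO_one_iff ℂ] at this ⊢
    refine IsLittleO.of_pow (n := 3) (this.congr' (ev_HH.mono fun τ hτ => ?_)
      (.of_forall fun τ => by simp)) three_ne_zero
    simp only [Pi.pow_apply, fG]
    rw [(a.two hτ).g_cube]
    congr 1
    push_cast
    ring

theorem Ad.mrc (a : Ad p q) : Mr (9 : ℕ) (fX p q) ∧ Mr (9 : ℕ) (fY p q) ∧ Mr (9 : ℕ) (fH p q) := by
  obtain ⟨A, B, G, -⟩ := a.mr
  exact ⟨((Mr.cst 3).mul G).div (B.sub A) fun τ h => ba_ne (a.two h),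
    (((Mr.cst _).mul B).sub ((Mr.cst _).mul A)).div (B.sub A) fun τ h => ba_ne (a.two h), B.mul G⟩

/-- the pull-back of the invariant differential vanishes at the cusps -/
theorem Ad.w_zero (a : Ad p q) :
    Tendsto (fun τ => deriv (fY p q) τ / fX p q τ ^ 2) Ii (𝓝 0) := by
  have e : ∀ τ ∈ HH, fY p q τ * (fY p q τ + 1) = fX p q τ ^ 3 := fun τ h => by
    rw [fX, fY]
    linear_combination c_on (a.two h)
  have n : ∀ τ ∈ HH, fY p q τ * (fY p q τ + 1) ≠ 0 := fun τ h =>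
    e τ h ▸ pow_ne_zero 3 (cX_ne (a.two h))
  have := a.mrc.2.1.ld (by norm_num) (fun τ h => left_ne_zero_of_mul (n τ h))
    fun τ h => right_ne_zero_of_mul (n τ h)
  rw [← isLittleO_one_iff ℂ] at this ⊢
  refine IsLittleO.of_pow (n := 3) (this.congr' (ev_HH.mono fun τ hτ => ?_)
    (.of_forall fun τ => by simp)) three_ne_zero
  simp only [Pi.pow_apply]
  rw [e τ hτ]
  ring

/-- the discriminant of the lattice -/
noncomputable def Dc (τ : ℂ) : ℂ := (Lt τ).g₂ ^ 3 - 27 * (Lt τ).g₃ ^ 2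

theorem Ad.disc (a : Ad p q) (h : τ ∈ HH) : Dc τ = fB p q τ ^ 3 * fG p τ ^ 9 := disc_eq (a.two h)

theorem Dc_low : qq 1 =O[Ii] Dc := by
  have a : Ad (1, 0) (0, 1) := by constructor <;> simp [Dv]
  obtain ⟨-, -, -, b, -, t⟩ := a.mr
  have C : Cus 1 Dc := (g2_mr.1.pow 3).sub ((Cus.cst 27).mul
    (((Cus.cst 140).mul (G_mr (k := 6) (by norm_num)).1).pow 2))
  have z : Tendsto Dc Ii (𝓝 0) := ((b.pow 3).mul_zero (G := fun τ => fG (1, 0) τ ^ 9)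
    (by simpa using (t (by norm_num)).pow 9)).congr' (ev_HH.mono fun τ h => (a.disc h).symm)
  have i : ∀ γ, ∀ τ ∈ HH, Dc (mob γ τ) / Dl (mob γ τ) = Dc τ / Dl τ := fun γ τ h => by
    have := den_ne γ h
    rw [Dl_mob γ h, Dc, Dc, (Lt_sc γ h).g₂, (Lt_sc γ h).g₃]
    field_simp
  obtain ⟨κ, e⟩ := const_of (F := fun τ => Dc τ / Dl τ) one_ne_zero
    (C.hol.div Dl_hol fun τ h => Dl_ne h) (fun γ _ => i γ)
    fun γ => (Bd.div ((C.dec one_pos z).trans Dl_low)).congr (i γ)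
  have h : Complex.I ∈ HH := by simp
  have k : κ ≠ 0 := e _ h ▸ div_ne_zero (a.disc h ▸ mul_ne_zero (pow_ne_zero 3 (a.two h).b_ne)
    (pow_ne_zero 9 (a.two h).g_ne)) (Dl_ne h)
  refine Dl_low.trans (((isBigO_refl Dc Ii).const_mul_left κ⁻¹).congr' (ev_HH.mono fun τ h => ?_)
    EventuallyEq.rfl)
  have := Dl_ne h
  have := e τ h
  field_simp at this ⊢
  linear_combination this

/-- a cube root of unity -/
noncomputable def z0 : ℂ := qq (9 : ℕ) 3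

theorem z0_spec : z0 ^ 2 + z0 + 1 = 0 := by
  have := (Complex.isPrimitiveRoot_exp 3 three_ne_zero).geom_sum_eq_zero (by norm_num)
  rw [show z0 = Complex.exp (2 * Real.pi * Complex.I / (3 : ℕ)) by
    rw [z0, qq, Periodic.qParam]; congr 1; push_cast; ring]
  simp only [sum_range_succ, sum_range_zero] at this
  linear_combination this

theorem shift3 (h : τ ∈ HH) (p q : ℤ × ℤ) : fA p (τ + 3) = fA p τ ∧ fB p q (τ + 3) = fB p q τ ∧
    wq (Lt (τ + 3)) (3 * (lin p (τ + 3) / 9)) = wq (Lt τ) (3 * (lin p τ / 9)) := by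
  have S := (Sc.of_eq (Lt_add h 3).symm)
  have e : ∀ x : ℤ × ℤ, lin x (τ + 3) / 3 - lin x τ / 3 ∈ (Lt τ).lattice := fun x => by
    convert lin_mem h (0, x.1) using 1
    simp only [lin]
    push_cast
    ring
  have t : 1 * (3 * (lin p (τ + 3) / 9)) - 3 * (lin p τ / 9) ∈ (Lt τ).lattice := by
    convert e p using 1; ring
  push_cast at S
  exact ⟨by simpa [fA] using (S.dA' t).symm,
    by simpa [fB] using (S.dB' t (by simpa using e q)).symm, by simpa using (S.q' t).symm⟩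

/-- the translation by three rotates the third form -/
theorem Ad.rot (a : Ad p q) (n : ¬ 3 ∣ p.1) (h : τ ∈ HH) : fG p (τ + 3) = z0 * fG p τ := by
  obtain ⟨-, -, G, b, -, t⟩ := a.mr
  have h9 : (0 : ℝ) < (9 : ℕ) := by norm_num
  have h3 : ∀ τ ∈ HH, τ + 3 ∈ HH := fun τ h => by simpa using h
  obtain ⟨ζ, -, e⟩ := root_shift (w := 3) G.cus.hol (fun τ h => (a.two h).g_ne) fun τ h => by
    push_cast
    exact ((a.two (h3 τ h)).g_cube.trans (shift3 h p q).2.2).trans (a.two h).g_cube.symm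
  push_cast at e
  obtain ⟨k, l, -⟩ := (G.cus.div (Cus.qp h9.ne') fun τ _ => qq_ne _ τ).lim h9
    (Bd.div (G.cus.dec h9 (t n)))
  have q3 : ∀ τ, qq (9 : ℕ) (τ + 3) = z0 * qq (9 : ℕ) τ := fun τ => by
    simp only [z0, Periodic.qParam, ← Complex.exp_add]
    congr 1
    ring
  have z : z0 ≠ 0 := qq_ne _ _
  have k0 : k ≠ 0 := by
    rintro rfl
    have := Bd.mul_zero ((Bd.div Dc_low).mul (b.pow 3)) (G := fun τ => (fG p τ / qq (9 : ℕ) τ) ^ 9)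
      (by simpa using l.pow 9)
    refine one_ne_zero (tendsto_nhds_unique (tendsto_const_nhds.congr' (ev_HH.mono fun τ h => ?_)) this)
    have : fB p q τ ≠ 0 := (a.two h).b_ne
    have : fG p τ ≠ 0 := (a.two h).g_ne
    have := qq_ne (9 : ℕ) τ
    have e9 : qq (9 : ℕ) τ ^ 9 = qq 1 τ := by simpa using qq_pow one_ne_zero (n := 9) (by norm_num) τ
    simp only [Pi.mul_apply, a.disc h, ← e9]
    field_simp
  have := tendsto_nhds_unique (l.comp (by simpa using tendsto_aff one_pos 3 :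
    Tendsto (fun τ : ℂ => τ + 3) Ii Ii)) ((l.const_mul (ζ / z0)).congr' (ev_HH.mono fun τ h => by
      simp only [comp_apply]
      rw [e τ h, q3]
      field_simp))
  rw [e τ h, show ζ = z0 by field_simp at this; exact this.symm]

theorem Ad.rotc (a : Ad p q) (n : ¬ 3 ∣ p.1) (h : τ ∈ HH) (k : ℕ) :
    fX p q (τ + 3 * k) = z0 ^ k * fX p q τ ∧ fY p q (τ + 3 * k) = fY p q τ ∧
      fH p q (τ + 3 * k) = z0 ^ k * fH p q τ := by
  induction k with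
  | zero => simp
  | succ k ih =>
    have h' : τ + 3 * k ∈ HH := by simpa using h
    have r := a.rot n h'
    obtain ⟨s1, s2, -⟩ := shift3 h' p q
    rw [show τ + 3 * (k + 1 : ℕ) = τ + 3 * k + 3 by push_cast; ring, pow_succ', mul_assoc z0,
      mul_assoc z0, ← ih.1, ← ih.2.1, ← ih.2.2]
    simp only [fX, fY, fH, cX, cY, cH, fA, fB, fG] at *
    rw [r, s1, s2]
    exact ⟨by ring, rfl, by ring⟩

end Pool.Agent.MP_e23604_nt.Z

end

section

/-!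
The Hecke relation at an inert prime for lattices.
-/

set_option autoImplicit false

open Filter Topology Asymptotics Function Finset
open scoped MatrixGroups Classical

namespace Pool.Agent.MP_e23604_nt.Z

open B R S W Un

variable {L L' : PeriodPair} {c u s τ : ℂ} {p q p' q' x r r' : ℤ × ℤ} {l : ℕ} {Λ : Set (ℤ × ℤ)}

/-- a line modulo `l` -/
def Ln (l : ℕ) (r : ℤ × ℤ) : Set (ℤ × ℤ) := {x | ∃ k : ℤ, Dv l (x - k • r)}

/-- the lines modulo `l` -/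
noncomputable def JJ (l : ℕ) : Finset (Set (ℤ × ℤ)) :=
  insert (Ln l (0, 1)) ((range l).image fun j : ℕ => Ln l (1, j))

theorem Ln_le (h : r ∈ Ln l r') : Ln l r ⊆ Ln l r' := by
  obtain ⟨j, ⟨a, ha⟩, b, hb⟩ := h
  rintro x ⟨k, ⟨c, hc⟩, d, hd⟩
  simp only [Prod.fst_sub, Prod.snd_sub, Prod.smul_fst, Prod.smul_snd, smul_eq_mul] at *
  exact ⟨k * j, ⟨c + k * a, by simp; linear_combination hc + k * ha⟩,
    d + k * b, by simp; linear_combination hd + k * hb⟩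

theorem inv_mod (hl : l.Prime) {k : ℤ} (h : ¬ (l : ℤ) ∣ k) : ∃ a b : ℤ, a * l + b * k = 1 :=
  (Nat.prime_iff_prime_int.1 hl).irreducible.coprime_iff_not_dvd.2 h

theorem Ln_eq (hl : l.Prime) (h : r ∈ Ln l r') (n : ¬ Dv l r) : Ln l r = Ln l r' := by
  refine (Ln_le h).antisymm (Ln_le ?_)
  obtain ⟨j, ⟨a, ha⟩, b, hb⟩ := h
  simp only [Prod.fst_sub, Prod.snd_sub, Prod.smul_fst, Prod.smul_snd, smul_eq_mul] at *
  obtain ⟨x, y, e⟩ := inv_mod hl (k := j) fun ⟨i, e⟩ => n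
    ⟨⟨a + i * r'.1, by rw [e] at ha; linear_combination ha⟩,
      b + i * r'.2, by rw [e] at hb; linear_combination hb⟩
  exact ⟨y, ⟨x * r'.1 - y * a, by simp; linear_combination -r'.1 * e - y * ha⟩,
    x * r'.2 - y * b, by simp; linear_combination -r'.2 * e - y * hb⟩

theorem mem_JJ (hl : l.Prime) : Λ ∈ JJ l ↔ ∃ r, ¬ Dv l r ∧ Λ = Ln l r := by
  have n : ¬ (l : ℤ) ∣ 1 := fun h => hl.one_lt.ne' (by exact_mod_cast Int.eq_one_of_dvd_one (by positivity) h)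
  simp only [JJ, mem_insert, mem_image, mem_range]
  refine ⟨?_, ?_⟩
  · rintro (rfl | ⟨j, -, rfl⟩)
    exacts [⟨_, fun h => n h.2, rfl⟩, ⟨_, fun h => n h.1, rfl⟩]
  · rintro ⟨r, h, rfl⟩
    by_cases d : (l : ℤ) ∣ r.1
    · exact Or.inl (Ln_eq hl ⟨r.2, by simpa using d, by simp⟩ h)
    · obtain ⟨a, b, e⟩ := inv_mod hl d
      have l0 : (0 : ℤ) < l := by exact_mod_cast hl.pos
      obtain ⟨j, hj⟩ := Int.eq_ofNat_of_zero_le (Int.emod_nonneg (b * r.2) l0.ne')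
      refine Or.inr ⟨j, by exact_mod_cast hj ▸ Int.emod_lt_of_pos (b * r.2) l0,
        Ln_eq hl ⟨b, ⟨a, by simp; linear_combination -e⟩, ?_⟩ fun h => n h.1⟩
      simpa [← hj] using Int.dvd_emod_sub_self

theorem act_lin (γ : SL(2, ℤ)) (x r : ℤ × ℤ) (k : ℤ) :
    Un.act γ (x - k • r) = Un.act γ x - k • Un.act γ r := by
  ext <;> simp [Un.act] <;> ring

theorem act_Ln (γ : SL(2, ℤ)) : Un.act γ '' Ln l r = Ln l (Un.act γ r) := by
  ext x
  refine ⟨?_, fun ⟨k, h⟩ => ⟨Un.act γ⁻¹ x, ⟨k, ?_⟩, act_inv γ x⟩⟩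
  · rintro ⟨y, ⟨k, h⟩, rfl⟩
    exact ⟨k, act_lin γ y r k ▸ dv_act γ h⟩
  · simpa only [act_lin, act_inv'] using dv_act γ⁻¹ h

theorem act_JJ (hl : l.Prime) (γ : SL(2, ℤ)) (h : Λ ∈ JJ l) : Un.act γ '' Λ ∈ JJ l := by
  obtain ⟨r, n, rfl⟩ := (mem_JJ hl).1 h
  exact (mem_JJ hl).2 ⟨_, fun d => n (act_inv' γ r ▸ dv_act γ⁻¹ d), act_Ln γ⟩

theorem par_JJ (h : Λ ∈ JJ l) : ∃ (a d : ℕ) (b : ℤ), a * d = l ∧ (a = 1 ∨ a = l) ∧
    ∀ x, x ∈ Λ ↔ ∃ y : ℤ × ℤ, x = (y.1 * a, y.1 * b + y.2 * d) := by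
  simp only [JJ, mem_insert, mem_image] at h
  obtain rfl | ⟨j, -, rfl⟩ := h
  · refine ⟨l, 1, 0, mul_one l, Or.inr rfl, fun x => ⟨fun ⟨k, ⟨a, e⟩, _⟩ => ⟨(a, x.2), ?_⟩, ?_⟩⟩
    · ext <;> simp at e ⊢
      linear_combination e
    · rintro ⟨y, rfl⟩
      exact ⟨y.2, by simp, by simp⟩
  · refine ⟨1, l, j, one_mul l, Or.inl rfl,
      fun x => ⟨fun ⟨k, ⟨a, e⟩, b, e'⟩ => ⟨(x.1, b - a * j), ?_⟩, ?_⟩⟩
    · ext <;> simp at e e' ⊢
      linear_combination e' - j * e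
    · rintro ⟨y, rfl⟩
      exact ⟨y.1, by simp, by simp⟩

/-- the lattice that belongs to a line -/
def IsN (l : ℕ) (Λ : Set (ℤ × ℤ)) (τ : ℂ) (L : PeriodPair) : Prop :=
  ∀ z, z ∈ L.lattice ↔ ∃ x ∈ Λ, lin x τ / l = z

/-- the lattice that belongs to a line -/
noncomputable def NL (l : ℕ) (Λ : Set (ℤ × ℤ)) (τ : ℂ) : PeriodPair :=
  @Classical.epsilon _ ⟨L0⟩ (IsN l Λ τ)

/-- the first coordinate of a neighbour -/
noncomputable def hX (l : ℕ) (Λ : Set (ℤ × ℤ)) (p q : ℤ × ℤ) (τ : ℂ) : ℂ :=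
  cX (NL l Λ τ) (lin p τ / 9) (lin q τ / 3)

/-- the second coordinate of a neighbour -/
noncomputable def hZ (l : ℕ) (Λ : Set (ℤ × ℤ)) (p q : ℤ × ℤ) (τ : ℂ) : ℂ :=
  cY (NL l Λ τ) (lin p τ / 9) (lin q τ / 3)

theorem nb_ex (hl : l.Prime) (l3 : l % 3 = 2) (h : Λ ∈ JJ l) (a : Ad p q) :
    ∃ (α β : ℝ) (n : ℕ) (p' q' : ℤ × ℤ), 0 < α ∧ n % 3 = 1 ∧ α * l = n ∧ Ad p' q' ∧
      (¬ 3 ∣ p.1 → ¬ 3 ∣ p'.1) ∧ ∀ τ ∈ HH, IsN l Λ τ (NL l Λ τ) ∧
        Two (NL l Λ τ) (3 * (lin p τ / 9)) (lin q τ / 3) ∧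
        hX l Λ p q τ = fX p' q' (α * τ + β) ∧ hZ l Λ p q τ = fY p' q' (α * τ + β) := by
  obtain ⟨m, d, b, e, hm, H⟩ := par_JJ h
  have l0 := hl.pos
  have m0 : 0 < m := Nat.pos_of_mul_pos_right (e ▸ l0)
  have d0 : 0 < d := Nat.pos_of_mul_pos_left (e ▸ l0)
  have m3 : ¬ (3 : ℤ) ∣ m := fun c => by
    have : 3 ∣ l := e ▸ Dvd.dvd.mul_right (by exact_mod_cast c) d
    omega
  have d3 : ¬ (3 : ℤ) ∣ d := fun c => by
    have : 3 ∣ l := e ▸ Dvd.dvd.mul_left (by exact_mod_cast c) m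
    omega
  have mc : (m : ℂ) ≠ 0 := by exact_mod_cast m0.ne'
  have dc : (d : ℂ) ≠ 0 := by exact_mod_cast d0.ne'
  let f : ℤ × ℤ → ℤ × ℤ := fun x => (d * x.1, m * x.2 - b * x.1)
  have f1 : ∀ x : ℤ × ℤ, 3 ∣ (f x).1 → 3 ∣ x.1 := fun x c =>
    (Int.prime_three.dvd_or_dvd c).resolve_left d3
  have a' : Ad (f p) (f q) := a.map (fun x y => by ext <;> simp [f] <;> ring)
    (fun x y => by ext <;> simp [f] <;> ring) fun x c => ⟨f1 x c.1,
      (Int.prime_three.dvd_or_dvd (show 3 ∣ m * x.2 by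
        simpa [f] using dvd_add c.2 ((f1 x c.1).mul_left b))).resolve_left m3⟩
  refine ⟨m / d, b / d, m * m, f p, f q, by positivity, ?_, ?_, a', mt (f1 p), fun τ hτ => ?_⟩
  · rcases hm with rfl | rfl
    · rfl
    · rw [Nat.mul_mod, l3]
  · rw [← e]
    push_cast
    field_simp
  push_cast
  have hσ : (m / d * τ + b / d : ℂ) ∈ HH := by
    have : (0 : ℝ) < m / d * τ.im := mul_pos (by positivity) hτ
    have : (((m / d : ℝ) : ℂ) * τ + (b / d : ℝ)) ∈ HH := by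
      simpa only [Set.mem_ofPred_eq, Complex.add_im, Complex.im_ofReal_mul, Complex.ofReal_im,
        add_zero] using this
    push_cast at this
    exact this
  have k : ∀ z, (∃ x ∈ Λ, lin x τ / l = (m : ℂ)⁻¹ * z) ↔ z ∈ (Lt (m / d * τ + b / d)).lattice := fun z => by
    have e' : ∀ y : ℤ × ℤ, lin (y.1 * m, y.1 * b + y.2 * d) τ / l =
        (m : ℂ)⁻¹ * lin y (m / d * τ + b / d) := fun y => by
      simp only [lin, ← e]
      push_cast
      field_simp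
      ring
    rw [mem_Lt hσ]
    refine ⟨fun ⟨x, hx, c⟩ => ?_, fun ⟨y, c⟩ => ⟨_, (H _).2 ⟨y, rfl⟩, by rw [e', c]⟩⟩
    obtain ⟨y, rfl⟩ := (H x).1 hx
    exact ⟨y, mul_left_cancel₀ (inv_ne_zero mc) ((e' y).symm.trans c)⟩
  have N : IsN l Λ τ (NL l Λ τ) := Classical.epsilon_spec (p := IsN l Λ τ)
    ⟨scl _ (inv_ne_zero mc) (Lt (m / d * τ + b / d)), fun z => by
      rw [← inv_mul_cancel_left₀ mc z, (scl_sc _ _ _).2, k]⟩
  have e2 : ∀ x, lin (f x) (m / d * τ + b / d) = m * lin x τ := fun x => by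
    simp only [lin, f]
    push_cast
    field_simp
    ring
  have I : Iso (m : ℂ)⁻¹ (Lt (m / d * τ + b / d)) (NL l Λ τ) (lin (f p) (m / d * τ + b / d) / 9)
      (lin (f q) (m / d * τ + b / d) / 3) (lin p τ / 9) (lin q τ / 3) :=
    ⟨⟨inv_ne_zero mc, fun z => (N _).trans (k z)⟩, a'.two hσ, by
      convert Submodule.zero_mem _ using 1; rw [e2]; field_simp; ring, 0, by
      convert Submodule.zero_mem _ using 1; rw [e2]; field_simp; push_cast; ring⟩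
  exact ⟨N, iso_two I, (iso_c I).1, (iso_c I).2.1⟩

theorem iso_mob {γ : SL(2, ℤ)} (h : τ ∈ HH) (S : Sc (γ 1 0 * τ + γ 1 1) L L')
    (le : (Lt τ).lattice ≤ L'.lattice)
    (T : Two L (3 * (lin p (mob γ τ) / 9)) (lin q (mob γ τ) / 3))
    (e : Dv 9 (Un.act γ p - p')) (e' : Dv 3 (Un.act γ q - q')) :
    Iso (γ 1 0 * τ + γ 1 1) L L' (lin p (mob γ τ) / 9) (lin q (mob γ τ) / 3) (lin p' τ / 9)
      (lin q' τ / 3) :=
  ⟨S, T, le ((mem_dv h three_ne_zero (by rw [lin_sub, ← lin_mob γ h]; push_cast; ring)).2 e'), 0,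
    le ((mem_dv h (by norm_num) (by rw [lin_sub, ← lin_mob γ h]; push_cast; ring)).2 e)⟩

section

variable (hl : l.Prime) (l3 : l % 3 = 2)

include hl l3

theorem nb_hol (h : Λ ∈ JJ l) (a : Ad p q) : DifferentiableOn ℂ (hX l Λ p q) HH ∧
    DifferentiableOn ℂ (hZ l Λ p q) HH ∧
    Tendsto (fun τ => deriv (hZ l Λ p q) τ / hX l Λ p q τ ^ 2) Ii (𝓝 0) ∧
    (¬ 3 ∣ p.1 → ∀ τ ∈ HH, ∀ k : ℕ, hX l Λ p q (τ + 3 * (l * k : ℕ)) = z0 ^ k * hX l Λ p q τ ∧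
      hZ l Λ p q (τ + 3 * (l * k : ℕ)) = hZ l Λ p q τ) := by
  obtain ⟨α, β, n, p', q', α0, n3, e, a', np, H⟩ := nb_ex hl l3 h a
  obtain ⟨X, Y, -⟩ := a'.mrc
  have m : ∀ τ ∈ HH, α * τ + β ∈ HH := fun τ h => by simpa using mul_pos α0 h
  refine ⟨(X.cus.hol.comp (by fun_prop) m).congr fun τ h => (H τ h).2.2.1,
    (Y.cus.hol.comp (by fun_prop) m).congr fun τ h => (H τ h).2.2.2, ?_, fun c τ h k => ?_⟩
  · have := (a'.w_zero.comp (tendsto_aff α0 β)).const_mul (α : ℂ)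
    rw [mul_zero] at this
    refine this.congr' (ev_HH.mono fun τ h => ?_)
    have d := (((Y.cus.dat (m τ h)).hasDerivAt.comp τ
      (((hasDerivAt_id τ).const_mul (α : ℂ)).add_const (β : ℂ))).congr_of_eventuallyEq
        (eventually_of_mem (HH_open.mem_nhds h) fun τ h => (H τ h).2.2.2)).deriv
    simp only [comp_apply]
    rw [d, (H τ h).2.2.1]
    ring
  · have h' : τ + 3 * (l * k : ℕ) ∈ HH := by simpa using h
    have e' : α * (τ + 3 * (l * k : ℕ)) + β = α * τ + β + 3 * (n * k : ℕ) := by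
      have : (α * l : ℂ) = n := by exact_mod_cast e
      push_cast
      linear_combination 3 * k * this
    obtain ⟨r1, r2, -⟩ := a'.rotc (np c) (m τ h) (n * k)
    rw [(H _ h').2.2.1, (H _ h').2.2.2, (H _ h).2.2.1, (H _ h).2.2.2, e', r1, r2, pow_mul,
      ← Nat.div_add_mod n 3, n3, pow_succ, pow_mul,
      show z0 ^ 3 = 1 by linear_combination (z0 - 1) * z0_spec, one_pow, one_mul]
    exact ⟨rfl, rfl⟩

theorem nb_mob (γ : SL(2, ℤ)) (h : Λ ∈ JJ l) (a : Ad p q) (e : Dv 9 (Un.act γ p - p'))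
    (e' : Dv 3 (Un.act γ q - q')) (hτ : τ ∈ HH) :
    hX l (Un.act γ '' Λ) p' q' τ = hX l Λ p q (mob γ τ) ∧
      hZ l (Un.act γ '' Λ) p' q' τ = hZ l Λ p q (mob γ τ) := by
  obtain ⟨_, _, _, _, _, -, -, -, -, -, H⟩ := nb_ex hl l3 h a
  obtain ⟨_, _, _, _, _, -, -, -, -, -, H'⟩ := nb_ex hl l3 (act_JJ hl γ h) a
  obtain ⟨N, T, -⟩ := H _ (mob_HH γ hτ)
  have N' := (H' _ hτ).1
  have I := iso_c (iso_mob (L' := NL l (Un.act γ '' Λ) τ) hτ ⟨den_ne γ hτ, fun z => ?_⟩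
    (fun z hz => ?_) T e e')
  · exact ⟨I.1, I.2.1⟩
  · rw [N, N']
    refine ⟨?_, fun ⟨y, hy, c⟩ => ⟨_, ⟨y, hy, rfl⟩, by rw [← lin_mob γ hτ, ← c]; ring⟩⟩
    rintro ⟨_, ⟨y, hy, rfl⟩, c⟩
    exact ⟨y, hy, mul_left_cancel₀ (den_ne γ hτ) (by rw [← c, ← lin_mob γ hτ]; ring)⟩
  · obtain ⟨y, rfl⟩ := (mem_Lt hτ).1 hz
    obtain ⟨r, -, c⟩ := (mem_JJ hl).1 (act_JJ hl γ h)
    have : (l : ℂ) ≠ 0 := by exact_mod_cast hl.ne_zero
    exact (N' _).2 ⟨(l : ℤ) • y, c ▸ ⟨0, by simp, by simp⟩, by rw [lin_smul]; push_cast; field_simp⟩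

end

/-- the sum of the differentials -/
noncomputable def gg (l : ℕ) (p q : ℤ × ℤ) (τ : ℂ) : ℂ :=
  ∑ Λ ∈ JJ l, deriv (hZ l Λ p q) τ / hX l Λ p q τ ^ 2

/-- a translation -/
def tn (n : ℤ) : SL(2, ℤ) := ⟨!![1, n; 0, 1], by simp [Matrix.det_fin_two]⟩

section

variable (hl : l.Prime) (l3 : l % 3 = 2) (a : Ad p q)

include hl l3 a

theorem g_mob (γ : SL(2, ℤ)) (e : Dv 9 (Un.act γ p - p')) (e' : Dv 3 (Un.act γ q - q'))
    (h : τ ∈ HH) : gg l p q (mob γ τ) = (γ 1 0 * τ + γ 1 1 : ℂ) ^ 2 * gg l p' q' τ ∧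
      gg l p q (mob γ τ) / fH p q (mob γ τ) = gg l p' q' τ / fH p' q' τ := by
  have d0 := den_ne γ h
  have g : gg l p q (mob γ τ) = (γ 1 0 * τ + γ 1 1 : ℂ) ^ 2 * gg l p' q' τ := by
    rw [gg, gg, mul_sum]
    refine sum_nbij' (Un.act γ '' ·) (Un.act γ⁻¹ '' ·) (fun _ => act_JJ hl γ)
      (fun _ => act_JJ hl γ⁻¹) (fun Λ _ => by simp [Set.image_image, act_inv'])
      (fun Λ _ => by simp [Set.image_image, act_inv]) fun Λ hΛ => ?_
    have d := (((((nb_hol hl l3 hΛ a).2.1.differentiableAt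
      (HH_open.mem_nhds (mob_HH γ h))).hasDerivAt.comp τ (mob_der γ h))).congr_of_eventuallyEq
        (eventually_of_mem (HH_open.mem_nhds h) fun τ h => (nb_mob hl l3 γ hΛ a e e' h).2)).deriv
    rw [d, (nb_mob hl l3 γ hΛ a e e' h).1]
    field_simp
  refine ⟨g, ?_⟩
  have := (iso_c (iso_mob h (Lt_sc γ h) le_rfl (a.two (mob_HH γ h)) e e')).2.2
  have n := cH_ne (a.two (mob_HH γ h))
  rw [g, fH, fH, this]
  field_simp

theorem g_cus (n : ℕ) (e : 9 ∣ p.1 * n) (e' : 3 ∣ q.1 * n) : Cus n (gg l p q) := by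
  refine ⟨.fun_sum fun Λ h => ((nb_hol hl l3 h a).2.1.deriv HH_open).div
    ((nb_hol hl l3 h a).1.pow 2) fun τ hτ => pow_ne_zero 2 (cX_ne ?_), fun τ h => ?_⟩
  · obtain ⟨_, _, _, _, _, -, -, -, -, -, H⟩ := nb_ex hl l3 h a
    exact (H τ hτ).2.1
  · simpa [mob, tn] using (g_mob hl l3 a (tn n) (p' := p) (q' := q)
      (by simpa [Dv, Un.act, tn] using e) (by simpa [Dv, Un.act, tn] using e') h).1

theorem g_bd : Bd fun τ => gg l p q τ / fH p q τ := by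
  have t : Tendsto (gg l p q) Ii (𝓝 0) := by
    have := tendsto_finsetSum (JJ l) fun Λ h => (nb_hol hl l3 h a).2.2.1
    rwa [sum_const_zero] at this
  obtain ⟨-, -, G, -, b, z⟩ := a.mr
  have : (fun τ => gg l p q τ ^ 3 * fG p τ ^ 6) =O[Ii] qq 1 := by
    by_cases c : 3 ∣ p.1
    · have := ((g_cus hl l3 a 3 (mul_dvd_mul_right c 3) (dvd_mul_left _ _)).dec (by norm_num)
        t).pow 3
      exact (this.mul ((isBigO_one_iff ℂ).2 ((isBigO_one_iff ℝ).1 (b.pow 6)))).congr_right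
        fun τ => by simpa using qq_pow one_ne_zero three_ne_zero τ
    · have := ((g_cus hl l3 a 9 (dvd_mul_left _ _) (Dvd.dvd.mul_left (by norm_num) _)).dec
        (by norm_num) t).pow 3
      exact (this.mul ((G.cus.dec (by norm_num) (z c)).pow 6)).congr_right fun τ => by
        simpa [← pow_add] using qq_pow one_ne_zero (n := 9) (by norm_num) τ
  refine Bd.of_pow three_ne_zero ((Bd.div (this.trans Dc_low)).congr fun τ h => ?_)
  have : fB p q τ ≠ 0 := (a.two h).b_ne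
  have : fG p τ ≠ 0 := (a.two h).g_ne
  rw [a.disc h, show fH p q τ = fB p q τ * fG p τ from rfl]
  field_simp

theorem g_zero (n : ¬ 3 ∣ p.1) (h : τ ∈ HH) : gg l p q τ = 0 := by
  have H := fun τ h => cH_ne (a.two (τ := τ) h)
  have k : ∀ γ ∈ CongruenceSubgroup.Gamma 9, ∀ x, Dv 9 (Un.act γ x - x) := fun γ hγ x => by
    obtain ⟨h1, h2, h3, h4⟩ := CongruenceSubgroup.Gamma_mem.1 hγ
    constructor <;> refine (ZMod.intCast_zmod_eq_zero_iff_dvd _ 9).1 ?_ <;>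
      simp [Un.act, h1, h2, h3, h4]
  obtain ⟨κ, e⟩ := const_of (N := 9) (F := fun τ => gg l p q τ / fH p q τ) (by norm_num)
    ((g_cus hl l3 a 9 (dvd_mul_left _ _) (Dvd.dvd.mul_left (by norm_num) _)).hol.div
      a.mrc.2.2.cus.hol H) (fun γ hγ τ h => (g_mob hl l3 a γ (k γ hγ p)
        ⟨Dvd.dvd.trans (by norm_num) (k γ hγ q).1, Dvd.dvd.trans (by norm_num) (k γ hγ q).2⟩ h).2)
    fun γ => (g_bd hl l3 (a.act γ)).congr fun τ h =>
      (g_mob hl l3 a γ (by simp [Dv]) (by simp [Dv]) h).2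
  have h' : τ + 3 * (l * 1 : ℕ) ∈ HH := by simpa using h
  have z : z0 ^ 3 = 1 := by linear_combination (z0 - 1) * z0_spec
  have g : gg l p q (τ + 3 * (l * 1 : ℕ)) = z0 * gg l p q τ := by
    rw [gg, gg, mul_sum]
    refine sum_congr rfl fun Λ hΛ => ?_
    have r := (nb_hol hl l3 hΛ a).2.2.2 n
    rw [← deriv_comp_add_const, EventuallyEq.deriv_eq (eventually_of_mem (HH_open.mem_nhds h)
      fun τ h => (r τ h 1).2), (r τ h 1).1, pow_one, mul_pow, ← mul_div_assoc,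
      ← mul_div_mul_left _ _ (show z0 ≠ 0 from qq_ne _ _), ← mul_assoc, ← pow_succ', z, one_mul]
  have e1 := e _ h'
  have e2 := e _ h
  have : fH p q τ ≠ 0 := H τ h
  rw [g, (a.rotc n h _).2.2, mul_one, pow_eq_pow_mod l z, l3,
    div_eq_iff (mul_ne_zero (pow_ne_zero 2 (show z0 ≠ 0 from qq_ne _ _)) this)] at e1
  rw [div_eq_iff this] at e2
  linear_combination (z0 ^ 2 - z0) / 3 * (e1 - z0 ^ 2 * e2) +
    (z0 ^ 2 - 3 * z0 + 3) / 3 * gg l p q τ * z0_spec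

theorem sum_rot (n : ¬ 3 ∣ p.1) (h : τ ∈ HH) :
    ∑ Λ ∈ JJ l, (pt 0 1 (zc3 * hX l Λ p q τ) (hZ l Λ p q τ) : PC) =
      ∑ Λ ∈ JJ l, pt 0 1 (hX l Λ p q τ) (hZ l Λ p q τ) := by
  obtain ⟨k, hk⟩ : ∃ k : ℕ, z0 ^ k = zc3 := by
    rcases mul_eq_zero.1 (show (z0 - zc3) * (z0 ^ 2 - zc3) = 0 by
      linear_combination zc3_spec + (z0 - 1 - zc3) * z0_spec) with e | e
    exacts [⟨1, by linear_combination e⟩, ⟨2, by linear_combination e⟩]
  have T : ∀ Λ ∈ JJ l, ∀ τ ∈ HH, Two (NL l Λ τ) (3 * (lin p τ / 9)) (lin q τ / 3) :=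
    fun Λ h τ hτ => by
      obtain ⟨_, _, _, _, _, -, -, -, -, -, H⟩ := nb_ex hl l3 h a
      exact (H τ hτ).2.1
  rw [← loc_const (fun Λ h => (nb_hol hl l3 h a).1) (fun Λ h => (nb_hol hl l3 h a).2.1)
    (fun Λ h τ hτ => cX_ne (T Λ h τ hτ)) (fun Λ h τ hτ => c_on (T Λ h τ hτ))
    (fun τ h => g_zero hl l3 a n h) (σ := τ + 3 * (l * k : ℕ)) (by simpa using h) h]
  refine sum_congr rfl fun Λ hΛ => ?_
  obtain ⟨r1, r2⟩ := (nb_hol hl l3 hΛ a).2.2.2 n τ h k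
  rw [r1, r2, hk]

end

theorem ex_tau (L : PeriodPair) : ∃ τ ∈ HH, ∃ c, Sc c L (Lt τ) := by
  have i := LinearIndependent.pair_iff.1 L.indep
  have w : L.ω₂ ≠ 0 := fun e => by simpa using i 0 1 (by simp [e])
  have k : ∀ ε : ℤ, ε * ε = 1 → ε * (L.ω₁ / L.ω₂) ∈ HH →
      Sc L.ω₂⁻¹ L (Lt (ε * (L.ω₁ / L.ω₂))) := fun ε e h => ⟨inv_ne_zero w, fun z => by
    have e' : (ε * ε : ℂ) = 1 := by exact_mod_cast e
    rw [mem_Lt h, PeriodPair.mem_lattice]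
    refine ⟨fun ⟨x, c⟩ => ⟨x.1 * ε, x.2, ?_⟩, fun ⟨m, n, c⟩ => ⟨(m * ε, n), ?_⟩⟩
    · rw [lin] at c
      field_simp at c
      push_cast
      linear_combination c
    · rw [lin, ← c]
      push_cast
      field_simp
      linear_combination m * L.ω₁ * e'⟩
  rcases lt_trichotomy 0 (L.ω₁ / L.ω₂).im with h | h | h
  · have h' : ((1 : ℤ) : ℂ) * (L.ω₁ / L.ω₂) ∈ HH := by
      simpa only [Int.cast_one, one_mul, Set.mem_ofPred_eq] using h
    exact ⟨_, h', _, k 1 rfl h'⟩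
  · have := (i 1 (-(L.ω₁ / L.ω₂).re) (by
      have : (((L.ω₁ / L.ω₂).re : ℝ) : ℂ) = L.ω₁ / L.ω₂ := Complex.ext rfl (by simpa using h)
      rw [one_smul, neg_smul, Complex.real_smul, this, div_mul_cancel₀ _ w, add_neg_cancel])).1
    simp at this
  · have h' : ((-1 : ℤ) : ℂ) * (L.ω₁ / L.ω₂) ∈ HH := by
      simpa only [Int.cast_neg, Int.cast_one, neg_one_mul, Set.mem_ofPred_eq, Complex.neg_im,
        neg_pos] using h
    exact ⟨_, h', _, k (-1) rfl h'⟩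

theorem ex_tau' (T : Two L (3 * u) s) : ∃ τ ∈ HH, ∃ c p q, Sc c L (Lt τ) ∧ Ad p q ∧ ¬ 3 ∣ p.1 ∧
    c * u = lin p τ / 9 ∧ c * s = lin q τ / 3 := by
  have k : ∀ τ ∈ HH, ∀ c, Sc c L (Lt τ) → ∃ p q, Ad p q ∧ c * u = lin p τ / 9 ∧
      c * s = lin q τ / 3 := fun τ h c S => by
    obtain ⟨p, e⟩ := (mem_Lt h).1 ((S.2 _).2 T.P3)
    obtain ⟨q, e'⟩ := (mem_Lt h).1 ((S.2 _).2 T.Q3)
    have e1 : c * u = lin p τ / 9 := by linear_combination -e / 9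
    have e2 : c * s = lin q τ / 3 := by linear_combination -e' / 3
    exact ⟨p, q, (two_iff h).1 (iso_two ⟨S, T, by simp [e2], 0, by simp [e1]⟩), e1, e2⟩
  obtain ⟨τ, h, c, S⟩ := ex_tau L
  obtain ⟨p, q, a, e1, e2⟩ := k τ h c S
  by_cases n : 3 ∣ p.1
  · let γ : SL(2, ℤ) := ⟨!![0, -1; 1, 0], by simp [Matrix.det_fin_two]⟩
    have h' := mob_HH γ h
    obtain ⟨p', q', a', f1, f2⟩ := k _ h' _ (S.trans (Lt_sc γ h).symm)
    refine ⟨_, h', _, p', q', S.trans (Lt_sc γ h).symm, a', fun n' => a.p0 ⟨n, ?_⟩, f1, f2⟩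
    have : p - Un.act γ p' = 0 := lin_eq_zero h (by
      have := den_ne γ h
      rw [lin_sub, ← lin_mob γ h, show lin p' (mob γ τ) =
        9 * ((γ 1 0 * τ + γ 1 1 : ℂ)⁻¹ * c * u) by linear_combination -9 * f1]
      field_simp
      linear_combination -9 * e1)
    rw [sub_eq_zero.1 this]
    simpa [Un.act, γ] using n'
  · exact ⟨τ, h, c, p, q, S, a, n, e1, e2⟩

theorem LAT_pf : LAT_st := fun ι L l I M u s hl l3 T N => by
  obtain ⟨τ, h, c, p, q, S, a, n, e1, e2⟩ := ex_tau' T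
  have l0 : (l : ℂ) ≠ 0 := by exact_mod_cast hl.ne_zero
  have l1 : (l : ℤ) ≠ 0 := by exact_mod_cast hl.ne_zero
  have c0 := S.1
  let f : ι → Set (ℤ × ℤ) := fun i => {x | c⁻¹ * (lin x τ / l) ∈ (M i).lattice}
  have k : ∀ i ∈ I, f i ∈ JJ l ∧ Sc c (M i) (NL l (f i) τ) := fun i hi => by
    obtain ⟨R, o, e⟩ := N.nb i hi
    obtain ⟨r, hr⟩ := (mem_Lt h).1 ((S.2 _).2 o.mem)
    have J : f i ∈ JJ l := (mem_JJ hl).2 ⟨r, fun d => o.nm ((S.2 _).1 ((mem_dv h l1 (by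
      rw [hr]; push_cast; field_simp)).2 d)), Set.ext fun x => (e _).trans (exists_congr fun j =>
        (S.2 _).symm.trans (mem_dv h l1 (by rw [lin_sub, lin_smul, hr]; push_cast; field_simp)))⟩
    obtain ⟨_, _, _, _, _, -, -, -, -, -, H⟩ := nb_ex hl l3 J a
    refine ⟨J, c0, fun z => ((H τ h).1 _).trans ⟨fun ⟨x, hx, b⟩ => ?_, fun hz => ?_⟩⟩
    · simpa [f, b, c0] using hx
    · obtain ⟨j, hj⟩ := (e z).1 hz
      obtain ⟨x, hx⟩ := (mem_Lt h).1 ((S.2 (l * z)).2 (by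
        convert add_mem (L.lattice.smul_mem l hj) (L.lattice.smul_mem j o.mem) using 1
        simp only [zsmul_eq_mul]
        push_cast
        ring))
      have : lin x τ / l = c * z := by rw [hx]; field_simp
      exact ⟨x, by simpa [f, this, c0] using hz, this⟩
  have v : ∀ i ∈ I, cX (M i) u s = hX l (f i) p q τ ∧ cY (M i) u s = hZ l (f i) p q τ :=
    fun i hi => by
      obtain ⟨_, _, _, _, _, -, -, -, -, -, H⟩ := nb_ex hl l3 (k i hi).1 a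
      have := iso_c (⟨(k i hi).2.symm, (H τ h).2.1, by simp [← e2, c0], 0, by simp [← e1, c0]⟩ :
        Iso c⁻¹ _ _ _ _ u s)
      exact ⟨this.1, this.2.1⟩
  have b : ∀ F : Set (ℤ × ℤ) → PC, ∑ i ∈ I, F (f i) = ∑ Λ ∈ JJ l, F Λ := fun F => by
    refine sum_bij (fun i _ => f i) (fun i hi => (k i hi).1) (fun i hi j hj e => ?_)
      (fun Λ hΛ => ?_) fun _ _ => rfl
    · obtain ⟨R, o, e'⟩ := N.nb i hi
      have m : R ∈ (M i).lattice := (e' R).2 ⟨1, by simp⟩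
      exact (N.uni R o).unique ⟨hi, m⟩ ⟨hj, ((k j hj).2.2 R).1 (e ▸ ((k i hi).2.2 R).2 m)⟩
    · obtain ⟨r, d, rfl⟩ := (mem_JJ hl).1 hΛ
      obtain ⟨i, ⟨hi, m⟩, -⟩ := N.uni (c⁻¹ * (lin r τ / l)) ⟨hl, (S.2 _).1 (by
        convert lin_mem h r using 1; field_simp), fun m => d ((mem_dv h l1 (by
          push_cast; field_simp)).1 ((S.2 _).2 m))⟩
      obtain ⟨r', -, e⟩ := (mem_JJ hl).1 (k i hi).1
      exact ⟨i, hi, e.trans (Ln_eq hl (e ▸ m) d).symm⟩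
  have r := sum_rot hl l3 a n h
  rw [← b, ← b] at r
  exact ((sum_congr rfl fun i hi => by rw [(v i hi).1, (v i hi).2]).trans r).trans
    (sum_congr rfl fun i hi => by rw [(v i hi).1, (v i hi).2])

end Pool.Agent.MP_e23604_nt.Z

end
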