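import Pool.Agent.Mg.Fe23604m.G5a860c
import Pool.Agent.Mg.Fe23604m.G160902

set_option linter.all false

section

/-! The numbering of the primitive lines. -/

set_option autoImplicit false

open Finset QuadraticAlgebra
open scoped Classical

namespace Pool.Agent.MP_e23604_nt.N

open B R S W

theorem dvd_KIT {l : ℕ} {z : Zw} : (l : Zw) ∣ z ↔ (l : ℤ) ∣ z.re ∧ (l : ℤ) ∣ z.im :=
  ⟨by
    rintro ⟨c, rfl⟩
    exact ⟨⟨c.re, by simp⟩, ⟨c.im, by simp⟩⟩, fun h => by exact_mod_cast intCast_dvd h.1 h.2⟩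

theorem star_KIT {l : ℕ} {z : Zw} (h : (l : Zw) ∣ z) : (l : Zw) ∣ star z := by
  simpa [starRingEnd_apply] using map_dvd (starRingEnd Zw) h

theorem cst_KIT {l : ℕ} {u : Zw} (h : IsCoprime u l) : IsCoprime (star u) l := by
  simpa [starRingEnd_apply] using h.map (starRingEnd Zw)

theorem cop_KIT {l : ℕ} (hl : l.Prime) {u : Zw} : IsCoprime u l ↔ ¬ (l : ℤ) ∣ nw u := by
  refine ⟨fun h e => ?_, fun h => ?_⟩
  · have h1 := h.mul_left (cst_KIT h)
    rw [mul_star_eq] at h1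
    have h2 : (l : Zw) ∣ (nw u : Zw) := by exact_mod_cast map_dvd (Int.castRingHom Zw) e
    have := nn_unit.1 (h1.isUnit_of_dvd' h2 dvd_rfl)
    rw [nn_nat] at this
    exact hl.one_lt.ne' ((Nat.pow_eq_one.1 this).resolve_right two_ne_zero)
  · have h1 := (((Nat.prime_iff_prime_int.1 hl).coprime_iff_not_dvd.2 h).symm).map
      (Int.castRingHom Zw)
    simp only [eq_intCast, Int.cast_natCast] at h1
    rw [← mul_star_eq] at h1
    exact h1.of_mul_left_left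

theorem root_KIT {l : ℕ} [hl : Fact l.Prime] (h3 : l ≠ 3) :
    (univ.filter fun a : ZMod l => a ^ 2 - a + 1 ≠ 0).card + 1 = ml l := by
  rw [ml, add_left_inj]
  split_ifs with h
  · rw [filter_true_of_mem (p := fun a : ZMod l => a ^ 2 - a + 1 ≠ 0)
      fun a _ e => zmod_omega (t := -a) (by linear_combination e) h, card_univ, ZMod.card]
  have h1 : l % 3 = 1 := by
    have : ¬ 3 ∣ l := fun e => h3 ((Nat.prime_dvd_prime_iff_eq Nat.prime_three hl.out).1 e).symm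
    omega
  have : Fact (Nat.Prime 3) := ⟨Nat.prime_three⟩
  obtain ⟨ζ, hζ⟩ := exists_prime_orderOf_dvd_card (G := (ZMod l)ˣ) 3 (by
    rw [ZMod.card_units]
    omega)
  have z3 : (ζ : ZMod l) ^ 3 = 1 := by
    rw [← Units.val_pow_eq_pow_val, ← hζ, pow_orderOf_eq_one, Units.val_one]
  have z1 : (ζ : ZMod l) ≠ 1 := fun e => by
    rw [Units.val_eq_one.1 e, orderOf_one] at hζ
    omega
  have z2 : (ζ : ZMod l) ^ 2 + ζ + 1 = 0 :=
    (mul_eq_zero.1 (show ((ζ : ZMod l) - 1) * (ζ ^ 2 + ζ + 1) = 0 by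
      linear_combination z3)).resolve_left (sub_ne_zero.2 z1)
  have e : (univ.filter fun a : ZMod l => ¬ a ^ 2 - a + 1 ≠ 0) = {-(ζ : ZMod l), -(ζ : ZMod l) ^ 2} := by
    ext a
    simp only [mem_filter, mem_univ, true_and, not_not, mem_insert, mem_singleton,
      ← add_eq_zero_iff_eq_neg, ← mul_eq_zero]
    rw [show (a + ζ) * (a + ζ ^ 2) = a ^ 2 - a + 1 by linear_combination a * z2 + z3]
  have e2 := card_filter_add_card_filter_not (s := univ) fun a : ZMod l => a ^ 2 - a + 1 ≠ 0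
  rw [e, card_pair (fun c => z1 (mul_left_cancel₀ ζ.ne_zero (by linear_combination c))), card_univ,
    ZMod.card] at e2
  omega

section

variable {F : Type} [Field F] {φ : Zw →+* F} {l : ℕ}

/-- the quotient of a number and its conjugate -/
noncomputable def nu_KIT (φ : Zw →+* F) (u : Zw) : F := φ u / φ (star u)

theorem ne_KIT (h0 : φ l = 0) {u : Zw} (h : IsCoprime u l) : φ u ≠ 0 := fun e => by
  have := h.map φ
  rw [e, h0] at this
  exact not_isCoprime_zero_zero this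

theorem nu_ne_KIT (h0 : φ l = 0) {u : Zw} (h : IsCoprime u l) : nu_KIT φ u ≠ 0 :=
  div_ne_zero (ne_KIT h0 h) (ne_KIT h0 (cst_KIT h))

theorem nu_mul_KIT (u v : Zw) : nu_KIT φ (u * v) = nu_KIT φ u * nu_KIT φ v := by
  simp only [nu_KIT, star_mul', map_mul, mul_div_mul_comm]

theorem nu_star_KIT (u : Zw) : nu_KIT φ (star u) = (nu_KIT φ u)⁻¹ := by
  simp only [nu_KIT, star_star, inv_div]

theorem int_KIT (hl : l.Prime) (h0 : φ l = 0) {b : ℤ} (h : (b : F) = 0) : (l : ℤ) ∣ b := by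
  by_contra e
  have := ((Nat.prime_iff_prime_int.1 hl).coprime_iff_not_dvd.2 e).map (Int.castRingHom F)
  simp only [eq_intCast, Int.cast_natCast] at this
  rw [h, ← map_natCast φ, h0] at this
  exact not_isCoprime_zero_zero this

theorem nu_of_KIT (h0 : φ l = 0) {u v : Zw} (hu : IsCoprime u l) {k : ℤ}
    (h : (l : Zw) ∣ u - k * v) : nu_KIT φ u = nu_KIT φ v := by
  have key : ∀ z : Zw, (l : Zw) ∣ z → φ z = 0 := by
    rintro _ ⟨c, rfl⟩
    rw [map_mul, h0, zero_mul]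
  have e1 := key _ h
  have e2 := key _ (star_KIT h)
  simp only [star_sub, star_mul', star_intCast, map_sub, map_mul, map_intCast,
    sub_eq_zero] at e1 e2
  have k0 : (k : F) ≠ 0 := fun e => ne_KIT h0 hu (by rw [e1, e, zero_mul])
  rw [nu_KIT, nu_KIT, e1, e2, mul_div_mul_left _ _ k0]

theorem of_nu_KIT (hl : l.Prime) (h3 : l ≠ 3) (h0 : φ l = 0) {u v : Zw} (hu : IsCoprime u l)
    (hv : IsCoprime v l) (h : nu_KIT φ u = nu_KIT φ v) : ∃ k : ℤ, (l : Zw) ∣ u - k * v := by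
  rw [nu_KIT, nu_KIT, div_eq_div_iff (ne_KIT h0 (cst_KIT hu)) (ne_KIT h0 (cst_KIT hv))] at h
  have e1 : u * star v - v * star u = ((u * star v).im : Zw) * pw := by
    ext <;> simp [pw] <;> ring
  have e2 : φ pw ≠ 0 := fun e => by
    have := congrArg φ pw_sq
    rw [map_pow, e, map_neg, map_ofNat] at this
    have h4 := int_KIT hl h0 (b := 3) (by push_cast; linear_combination this)
    exact h3 ((Nat.prime_dvd_prime_iff_eq hl Nat.prime_three).1 (by exact_mod_cast h4))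
  have e3 := congrArg φ e1
  rw [map_sub, map_mul, map_mul, h, sub_self, map_mul, map_intCast] at e3
  obtain ⟨c, hc⟩ := int_KIT hl h0 ((mul_eq_zero.1 e3.symm).resolve_right e2)
  obtain ⟨a, b, hab⟩ := (Nat.prime_iff_prime_int.1 hl).coprime_iff_not_dvd.2 ((cop_KIT hl).1 hv)
  have e4 := Zw_eq (u * star v)
  have e5 := congrArg (Int.cast : ℤ → Zw) hab
  rw [hc] at e4
  push_cast at e4 e5
  rw [← mul_star_eq] at e5
  exact ⟨b * (u * star v).re, (a : Zw) * u + (b : Zw) * (c : Zw) * ω * v, by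
    push_cast
    linear_combination b * v * e4 - u * e5⟩

/-- the group of these quotients -/
def grp_KIT (φ : Zw →+* F) (l : ℕ) : Subgroup Fˣ where
  carrier := {x | ∃ u : Zw, IsCoprime u l ∧ (x : F) = nu_KIT φ u}
  one_mem' := ⟨1, isCoprime_one_left, by simp [nu_KIT]⟩
  mul_mem' := by
    rintro x y ⟨u, u1, u2⟩ ⟨v, v1, v2⟩
    exact ⟨u * v, u1.mul_left v1, by rw [Units.val_mul, u2, v2, nu_mul_KIT]⟩
  inv_mem' := by
    rintro x ⟨u, u1, u2⟩
    exact ⟨star u, cst_KIT u1, by rw [Units.val_inv_eq_inv_val, u2, nu_star_KIT]⟩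

theorem card_KIT (hl : l.Prime) (h3 : l ≠ 3) (h0 : φ l = 0) : Nat.card (grp_KIT φ l) = ml l := by
  have : Fact l.Prime := ⟨hl⟩
  have c1 : ∀ a : ℤ, IsCoprime (⟨a, 1⟩ : Zw) (l : Zw) ↔ (a : ZMod l) ^ 2 - a + 1 ≠ 0 := fun a => by
    rw [cop_KIT hl, ← ZMod.intCast_zmod_eq_zero_iff_dvd, nw_def]
    simp
  let r : Option {a : ZMod l // a ^ 2 - a + 1 ≠ 0} → Zw := fun o =>
    o.elim 1 fun a => ⟨a.1.val, 1⟩
  have c2 : ∀ o, IsCoprime (r o) l := by
    rintro (_ | a)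
    exacts [isCoprime_one_left, (c1 _).2 (by simpa using a.2)]
  have n1 : ¬ (l : ℤ) ∣ 1 := fun e => hl.one_lt.ne' (by exact_mod_cast Int.eq_one_of_dvd_one (by simp) e)
  rw [← root_KIT h3, ← Fintype.card_subtype, ← Fintype.card_option, ← Nat.card_eq_fintype_card]
  refine (Nat.card_eq_of_bijective (fun o => (⟨Units.mk0 _ (nu_ne_KIT h0 (c2 o)), r o, c2 o, rfl⟩ :
    grp_KIT φ l)) ⟨fun o o' e => ?_, ?_⟩).symm
  · have e1 : nu_KIT φ (r o) = nu_KIT φ (r o') := congrArg (fun x : grp_KIT φ l => (x.1 : F)) e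
    obtain ⟨k, hk⟩ := of_nu_KIT hl h3 h0 (c2 o) (c2 o') e1
    obtain ⟨k', hk'⟩ := of_nu_KIT hl h3 h0 (c2 o') (c2 o) e1.symm
    rcases o with _ | a <;> rcases o' with _ | a'
    · rfl
    · exact absurd (by simpa [r] using (dvd_KIT.1 hk').2) n1
    · exact absurd (by simpa [r] using (dvd_KIT.1 hk).2) n1
    · obtain ⟨k1, k2⟩ := dvd_KIT.1 hk
      rw [← ZMod.intCast_zmod_eq_zero_iff_dvd] at k1 k2
      simp [r] at k1 k2
      exact congrArg some (Subtype.ext (by linear_combination k1 - a'.1 * k2))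
  · rintro ⟨x, u, u1, u2⟩
    by_cases h : (l : ℤ) ∣ u.im
    · refine ⟨none, Subtype.ext (Units.ext (u2.trans (nu_of_KIT h0 u1 (k := u.re) ?_)).symm)⟩
      exact dvd_KIT.2 ⟨by simp [r], by simpa [r] using h⟩
    · have y0 : (u.im : ZMod l) ≠ 0 := fun e => h ((ZMod.intCast_zmod_eq_zero_iff_dvd _ _).1 e)
      have y1 := (cop_KIT hl).1 u1
      rw [← ZMod.intCast_zmod_eq_zero_iff_dvd, nw_def] at y1
      push_cast at y1
      refine ⟨some ⟨u.re / u.im, fun e => y1 ?_⟩, Subtype.ext (Units.ext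
        (u2.trans (nu_of_KIT h0 u1 (k := u.im) ?_)).symm)⟩
      · field_simp at e
        linear_combination e
      · refine dvd_KIT.2 ⟨?_, by simp [r]⟩
        rw [← ZMod.intCast_zmod_eq_zero_iff_dvd]
        simp [r]
        field_simp
        ring

theorem log_KIT [Finite F] (hl : l.Prime) (h3 : l ≠ 3) (h0 : φ l = 0) :
    ∃ a : Zw → ZMod (ml l), (∀ u v : Zw, IsCoprime u l → IsCoprime v l → a (u * v) = a u + a v ∧
      (a u = a v ↔ nu_KIT φ u = nu_KIT φ v)) ∧ (∀ u : Zw, IsCoprime u l → a (star u) = -a u) ∧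
      ∀ i, ∃ u : Zw, IsCoprime u l ∧ a u = i := by
  rw [← card_KIT hl h3 h0]
  let e := (zmodCyclicMulEquiv (inferInstance : IsCyclic (grp_KIT φ l))).symm
  let x : ∀ u : Zw, IsCoprime u l → grp_KIT φ l := fun u h =>
    ⟨Units.mk0 _ (nu_ne_KIT h0 h), u, h, rfl⟩
  refine ⟨fun u => if h : IsCoprime u l then (e (x u h)).toAdd else 0, fun u v hu hv => ?_,
    fun u hu => ?_, fun i => ?_⟩
  · simp only [dif_pos hu, dif_pos hv, dif_pos (hu.mul_left hv)]
    refine ⟨?_, fun h => congrArg (fun y : grp_KIT φ l => (y.1 : F))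
      (e.injective (Multiplicative.toAdd.injective h)), fun h => ?_⟩
    · rw [← toAdd_mul, ← map_mul]
      exact congrArg (fun y => (e y).toAdd) (Subtype.ext (Units.ext (nu_mul_KIT u v)))
    · exact congrArg (fun y => (e y).toAdd) (Subtype.ext (Units.ext h))
  · simp only [dif_pos hu, dif_pos (cst_KIT hu)]
    rw [← toAdd_inv, ← map_inv]
    exact congrArg (fun y => (e y).toAdd) (Subtype.ext (Units.ext (by
      simpa [x] using nu_star_KIT u)))
  · obtain ⟨⟨y, u, u1, u2⟩, h⟩ := e.surjective (Multiplicative.ofAdd i)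
    refine ⟨u, u1, ?_⟩
    simp only [dif_pos u1]
    rw [show x u u1 = ⟨y, u, u1, u2⟩ from Subtype.ext (Units.ext u2.symm), h, toAdd_ofAdd]

end

theorem KIT_pf (l : ℕ) (hl : l.Prime) (h3 : l ≠ 3) : Kit l (Ln l) (lu l) := by
  refine Classical.epsilon_spec (p := fun k : (ZMod (ml l) → AddSubgroup Pt) × (Zw → ZMod (ml l)) =>
    Kit l k.1 k.2) ?_
  have l0 : (l : Zw) ≠ 0 := Nat.cast_ne_zero.2 hl.ne_zero
  obtain ⟨ϖ, p1, p2⟩ := WfDvdMonoid.exists_irreducible_factor (a := (l : Zw)) (fun e => by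
    have := nn_unit.1 e
    rw [nn_nat] at this
    exact hl.one_lt.ne' ((Nat.pow_eq_one.1 this).resolve_right two_ne_zero)) l0
  have := PrincipalIdealRing.isMaximal_of_irreducible p1
  let := Ideal.Quotient.field (Ideal.span {ϖ})
  have : Finite (Zw ⧸ Ideal.span {ϖ}) :=
    Nat.finite_of_card_ne_zero (by rw [QUO_ok ϖ p1.ne_zero]; exact (nn_pos p1.ne_zero).ne')
  have h0 : Ideal.Quotient.mk (Ideal.span {ϖ}) l = 0 :=
    Ideal.Quotient.eq_zero_iff_mem.2 (Ideal.mem_span_singleton.2 p2)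
  obtain ⟨a, a1, a2, a3⟩ := log_KIT hl h3 h0
  obtain ⟨⟨Q, hQ⟩, c2, -⟩ := CYG_ok l l0
  choose r r1 r2 using a3
  have k1 : ∀ u v : Zw, IsCoprime u l → IsCoprime v l →
      (u • Q ∈ AddSubgroup.zmultiples (v • Q) ↔ a u = a v) := fun u v hu hv => by
    rw [(a1 u v hu hv).2, AddSubgroup.mem_zmultiples_iff]
    simp only [← Int.cast_smul_eq_zsmul Zw, ← mul_smul, eq_comm (b := u • Q), hQ.congr]
    exact ⟨fun ⟨_, h⟩ => nu_of_KIT h0 hu h, of_nu_KIT hl h3 h0 hu hv⟩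
  refine ⟨(fun i => AddSubgroup.zmultiples (r i • Q), a), fun i => ⟨_, hQ.cop (r1 i), rfl⟩,
    fun i j e => ?_, fun T hT => ?_, fun u hu i => ?_, a2, fun i => ⟨r i, r1 i, r2 i⟩⟩
  · rw [← r2 i, ← r2 j, ← k1 _ _ (r1 i) (r1 j)]
    have e' : AddSubgroup.zmultiples (r i • Q) = AddSubgroup.zmultiples (r j • Q) := e
    exact e' ▸ AddSubgroup.mem_zmultiples _
  · obtain ⟨u, rfl⟩ := c2 Q hQ T hT.zero
    obtain ⟨v, e⟩ := c2 _ hT Q hQ.zero
    rw [← mul_smul, ← one_smul Zw Q, ← mul_smul, mul_one, hQ.congr] at e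
    obtain ⟨c, e⟩ := e
    have hu : IsCoprime u l := ⟨v, c, by linear_combination -e⟩
    exact ⟨a u, (k1 _ _ hu (r1 _)).2 (r2 _).symm⟩
  · have hv := hu.mul_left (r1 i)
    have e : a (u * r i) = a (r (i + a u)) := by rw [(a1 _ _ hu (r1 i)).1, r2, r2, add_comm]
    show sm u (AddSubgroup.zmultiples _) = AddSubgroup.zmultiples _
    rw [sm, AddMonoidHom.map_zmultiples, DistribSMul.toAddMonoidHom_apply, ← mul_smul]
    exact le_antisymm (AddSubgroup.zmultiples_le_of_mem ((k1 _ _ hv (r1 _)).2 e))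
      (AddSubgroup.zmultiples_le_of_mem ((k1 _ _ (r1 _) hv).2 e.symm))

end Pool.Agent.MP_e23604_nt.N

end

section

/-!
The twisted traces form a system of points.
-/

set_option autoImplicit false

open Finset QuadraticAlgebra
open scoped Classical

namespace Pool.Agent.MP_e23604_nt.X

open B R S W

theorem star_YHS (a : ZMod 3) : star ((ω : Zw) ^ (-a).val) = ω ^ a.val := by
  revert a
  decide

theorem sup_YHS {C L : AddSubgroup Pt} (h : (Nat.card C).Coprime (Nat.card L)) :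
    Nat.card (C ⊔ L : AddSubgroup Pt) = Nat.card C * Nat.card L := by
  have d : ∀ {x}, x ∈ C → x ∈ L → x = 0 :=
    AddSubgroup.disjoint_def.1 (AddSubgroup.disjoint_of_coprime_natCard h)
  rw [← Nat.card_prod]
  refine (Nat.card_eq_of_bijective (fun p : C × L => (⟨p.1 + p.2,
    AddSubgroup.add_mem_sup p.1.2 p.2.2⟩ : (C ⊔ L : AddSubgroup Pt)))
    ⟨fun p q e => ?_, fun T => ?_⟩).symm
  · have e1 : (p.1 : Pt) - q.1 = q.2 - p.2 := by
      rw [sub_eq_sub_iff_add_eq_add, add_comm (q.2 : Pt)]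
      exact congrArg Subtype.val e
    have e2 := d (sub_mem p.1.2 q.1.2) (e1 ▸ sub_mem q.2.2 p.2.2)
    exact Prod.ext (Subtype.ext (sub_eq_zero.1 e2)) (Subtype.ext (sub_eq_zero.1 (e1 ▸ e2)).symm)
  · obtain ⟨a, ha, b, hb, e⟩ := AddSubgroup.mem_sup.1 T.2
    exact ⟨(⟨a, ha⟩, ⟨b, hb⟩), Subtype.ext e⟩

theorem line_YHS {l : ℕ} (hl : l.Prime) {T : Pt} (h : (l : Zw) • T = 0) (h0 : T ≠ 0) :
    Nat.card (AddSubgroup.zmultiples T) = l := by
  rw [Nat.cast_smul_eq_nsmul] at h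
  have := Fact.mk hl
  rw [Nat.card_zmultiples, addOrderOf_eq_prime h h0]

theorem ne_YHS {l : ℕ} (hl : l.Prime) {T : Pt} (h : W.Gen l T) : T ≠ 0 := fun e => by
  have := nn_unit.1 (isUnit_of_dvd_one ((h 1).1 (by rw [e, smul_zero])))
  rw [nn_nat] at this
  exact hl.one_lt.ne' ((Nat.pow_eq_one.1 this).resolve_right two_ne_zero)

theorem cL_YHS {l : ℕ} (hl : l.Prime) (h3 : l ≠ 3) (i : ZMod (N.ml l)) :
    Nat.card (N.Ln l i) = l := by
  obtain ⟨T, h, e⟩ := (N.KIT_pf l hl h3).gen i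
  rw [e, line_YHS hl h.zero (ne_YHS hl h)]

theorem gL_YHS {l : ℕ} (hl : l.Prime) (h3 : l ≠ 3) (i : ZMod (N.ml l)) {g : GQ} (hg : g ∈ GK) :
    N.ga g (N.Ln l i) = N.Ln l (i + N.Al l g) := by
  obtain ⟨p1, p2, -⟩ := (PS_ok l (Nat.cast_ne_zero.2 hl.ne_zero)).1 g hg
  obtain ⟨T, h, e⟩ := (N.KIT_pf l hl h3).gen i
  rw [N.Al, ← (N.KIT_pf l hl h3).act _ p2, e, N.ga, N.sm, AddMonoidHom.map_zmultiples,
    AddMonoidHom.map_zmultiples, p1 T h.zero]
  rfl

theorem lines_YHS {l : ℕ} (hl : l.Prime) (h3 : l % 3 = 2) :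
    Y.lines l = univ.image (N.Ln l) := by
  have n3 : l ≠ 3 := by omega
  have l0 : (l : Zw) ≠ 0 := Nat.cast_ne_zero.2 hl.ne_zero
  ext L
  simp only [Y.lines, mem_image, mem_tor0 l0, mem_univ, true_and]
  constructor
  · rintro ⟨T, ⟨h0, h1⟩, rfl⟩
    obtain ⟨i, hi⟩ := (N.KIT_pf l hl n3).all T fun b => ⟨fun e => by_contra fun c =>
      h0 (cop_smul ((inert_prime hl h3).coprime_iff_not_dvd.2 c) h1 e), dvd_smul h1⟩
    have c := cL_YHS hl n3 i
    have : Finite (N.Ln l i) := Nat.finite_of_card_ne_zero (c.trans_ne hl.ne_zero)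
    exact ⟨i, (AddSubgroup.eq_of_le_of_card_ge (AddSubgroup.zmultiples_le_of_mem hi)
      (by rw [c, line_YHS hl h1 h0])).symm⟩
  · rintro ⟨i, rfl⟩
    obtain ⟨T, h, e⟩ := (N.KIT_pf l hl n3).gen i
    exact ⟨T, ⟨ne_YHS hl h, h.zero⟩, e.symm⟩

theorem cC_YHS {n : Finset ℕ} (hn : N.Pn n) (i : N.JJ) : Nat.card (N.Cn n i) = ∏ l ∈ n, l := by
  induction n using Finset.induction_on with
  | empty => simp [N.Cn]
  | insert l n hl ih =>
    have ih := ih fun a ha => hn a (mem_insert_of_mem ha)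
    obtain ⟨p, q⟩ := hn l (mem_insert_self _ _)
    have c := cL_YHS p q (i l)
    rw [N.Cn] at ih ⊢
    rw [sup_insert, prod_insert hl, sup_YHS, c, ih]
    rw [c, ih]
    exact Nat.Coprime.prod_right fun a ha =>
      (Nat.coprime_primes p (hn a (mem_insert_of_mem ha)).1).2 fun e => hl (e ▸ ha)

theorem gC_YHS {n : Finset ℕ} (hn : N.Pn n) (i : N.JJ) {g : GQ} (hg : g ∈ GK) :
    N.ga g (N.Cn n i) = N.Cn n (i + N.Av g) := by
  induction n using Finset.induction_on with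
  | empty => simp [N.Cn, N.ga]
  | insert l n hl ih =>
    have ih := ih fun a ha => hn a (mem_insert_of_mem ha)
    obtain ⟨p, q⟩ := hn l (mem_insert_self _ _)
    have c := gL_YHS p q (i l) hg
    rw [N.Cn, N.Cn, N.ga] at ih ⊢
    rw [sup_insert, sup_insert, AddSubgroup.map_sup, ih]
    exact congrArg (· ⊔ _) c

theorem eqv_YHS (H : N.HS) {n : Finset ℕ} (hn : N.Pn n) (f : Fn) {ε : ZMod 3}
    {C : AddSubgroup Pt} (hC : ∀ i, N.Fo ε (N.Cn n i ⊔ C)) {χ : GQ → ZMod 3} {g : GQ}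
    (hg : g ∈ GK) (e : χ g = H.χ ε g + fs f n (N.Av g)) :
    yT H n f (C.map (gal g)) = eta χ g (yT H n f C) := by
  let b : N.Jg n := ⟨fun l => if l ∈ n then N.Av g l else 0, fun l hl => if_neg hl⟩
  have hb : ∀ l ∈ n, b.1 l = N.Av g l := fun l hl => if_pos hl
  rw [yT, yT, map_sum, ← Equiv.sum_comp (Equiv.addRight b)]
  refine sum_congr rfl fun i _ => ?_
  have e1 : fs f n (Equiv.addRight b i).1 = fs f n i.1 + fs f n (N.Av g) := by
    rw [fs, fs, fs, ← sum_add_distrib]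
    exact sum_congr rfl fun l hl => by rw [← map_add, ← hb l hl]; rfl
  have e2 : N.Cn n (Equiv.addRight b i).1 = N.ga g (N.Cn n i.1) := by
    rw [gC_YHS hn _ hg]
    exact sup_congr rfl fun l hl => by rw [Pi.add_apply, ← hb l hl]; rfl
  have e3 := H.act ε _ (hC i.1) g hg
  rw [N.ga, AddSubgroup.map_sup] at e3
  rw [e1, e2, eta_smul χ hg, N.ga, ← e3, eta_apply, eta_apply, e, w_add, w_add, mul_smul,
    mul_comm, mul_smul]

theorem tr_YHS (H : N.HS) (n : Finset ℕ) (f : Fn) {ε : ZMod 3} {C : AddSubgroup Pt} {l : ℕ}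
    (hl : l.Prime) (h3 : l % 3 = 2) (hC : ∀ i, N.Fo ε (N.Cn n i ⊔ C) ∧
      ¬ l ∣ Nat.card (N.Cn n i ⊔ C : AddSubgroup Pt)) :
    (3 : Zw) • ∑ L ∈ Y.lines l, yT H n f (C ⊔ L) = 0 := by
  rw [lines_YHS hl h3, sum_image fun _ _ _ _ e => (N.KIT_pf l hl (by omega)).inj e]
  refine dvd_smul (a := pw) ?_ ⟨-pw, by linear_combination pw_sq⟩
  simp only [yT]
  rw [sum_comm, smul_sum]
  refine sum_eq_zero fun i _ => ?_
  simp only [← sup_assoc]
  rw [← smul_sum, smul_comm, H.tl ε _ l (hC i.1).1 hl h3 (hC i.1).2, smul_zero]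

theorem cg_YHS (H : N.HS) (n : Finset ℕ) (f : Fn) (ε : ZMod 3) {V : Plc} {φ : GQ}
    (h : Y.In V φ) : ∃ u : Zw, IsUnit u ∧ ∀ C : AddSubgroup Pt, (∀ i, N.Fo ε (N.Cn n i ⊔ C) ∧
      ¬ V.l ∣ Nat.card (N.Cn n i ⊔ C : AddSubgroup Pt)) → ∀ L ∈ Y.lines V.l,
      E1 V.v (yT H n f (C ⊔ L) - u • gal φ (yT H n (-f) C)) := by
  obtain ⟨u, u1, u2⟩ := H.cong ε V φ h.l3 h.fr
  refine ⟨u, u1, fun C hC L hL => ?_⟩
  rw [lines_YHS V.hl.out h.l3, mem_image] at hL
  obtain ⟨j, -, rfl⟩ := hL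
  rw [yT, yT, map_sum, smul_sum, ← sum_sub_distrib]
  refine sum_induction _ (E1 V.v) (fun _ _ => E1a) ((E1_iff _ _).2 (.inl rfl)) fun i _ => ?_
  have e : fs (-f) n i.1 = -fs f n i.1 := by simp [fs]
  rw [gal_star (S.LOC_ok.2.1 V.l V.γ φ h.l3 h.fr), e, star_YHS, smul_comm u, ← smul_sub,
    ← sup_assoc]
  exact (E1m (u2 _ (hC i.1).1 (hC i.1).2 j) _).1

theorem kp_YHS {r l : ℕ} (h : Y.Kp r r l) (h0 : r ≠ 0) :
    l % 3 = 2 ∧ (l : ZMod 3) = -1 ∧ r.Coprime l := by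
  have e : l % 3 = 2 := by
    have := (dvd_mul_right 9 r).trans h.dv
    omega
  refine ⟨e, ?_, ((Nat.coprime_of_lt_prime h0 h.gt h.pr)).symm⟩
  rw [← ZMod.natCast_mod, e]
  rfl

theorem YHS_pf : YHS_st := by
  intro H r f χ χ' hr h3 e e'
  have hn : N.Pn r.primeFactors := fun l hl =>
    ⟨Nat.prime_of_mem_primeFactors hl, fun c => h3 (c ▸ Nat.dvd_of_mem_primeFactors hl)⟩
  have r0 := hr.ne_zero
  have r3 : (r : ZMod 3) ≠ 0 := fun c => h3 ((ZMod.natCast_eq_zero_iff r 3).1 c)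
  have c0 : ∀ i, Nat.card (N.Cn r.primeFactors i) = r := fun i => by
    rw [cC_YHS hn, Nat.prod_primeFactors_of_squarefree hr]
  have cl : ∀ l, Y.Kp r r l → ∀ L ∈ Y.lines l, Nat.card L = l := fun l h L hL => by
    have k := (kp_YHS h r0).1
    rw [lines_YHS h.pr k, mem_image] at hL
    obtain ⟨j, -, rfl⟩ := hL
    exact cL_YHS h.pr (by omega) j
  have c1 : ∀ l, Y.Kp r r l → ∀ L ∈ Y.lines l, ∀ i,
      Nat.card (N.Cn r.primeFactors i ⊔ L : AddSubgroup Pt) = r * l := fun l h L hL i => by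
    rw [sup_YHS, c0, cl l h L hL]
    rw [c0, cl l h L hL]
    exact (kp_YHS h r0).2.2
  have f0 : ∀ i, N.Fo r (N.Cn r.primeFactors i ⊔ ⊥) := fun i => ⟨r3, by rw [sup_bot_eq, c0]⟩
  have f1 : ∀ l, Y.Kp r r l → ∀ L ∈ Y.lines l, ∀ i, N.Fo (-r) (N.Cn r.primeFactors i ⊔ L) :=
    fun l h L hL i => ⟨neg_ne_zero.2 r3, by
      rw [c1 l h L hL, Nat.cast_mul, (kp_YHS h r0).2.1, mul_neg_one]⟩
  have d0 : ∀ l, Y.Kp r r l → ∀ i, N.Fo r (N.Cn r.primeFactors i ⊔ ⊥) ∧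
      ¬ l ∣ Nat.card (N.Cn r.primeFactors i ⊔ ⊥ : AddSubgroup Pt) := fun l h i =>
    ⟨f0 i, by
      rw [sup_bot_eq, c0]
      exact h.pr.coprime_iff_not_dvd.1 (kp_YHS h r0).2.2.symm⟩
  have k2 : ∀ l l', Y.Kp r r l → Y.Kp r r l' → l ≠ l' → (r * l).Coprime l' :=
    fun l l' h h' ne => Nat.Coprime.mul_left (kp_YHS h' r0).2.2
      ((Nat.coprime_primes h.pr h'.pr).2 ne)
  have d1 : ∀ l l', Y.Kp r r l → Y.Kp r r l' → l ≠ l' → ∀ L ∈ Y.lines l, ∀ i,
      N.Fo (-r) (N.Cn r.primeFactors i ⊔ L) ∧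
      ¬ l' ∣ Nat.card (N.Cn r.primeFactors i ⊔ L : AddSubgroup Pt) := fun l l' h h' ne L hL i =>
    ⟨f1 l h L hL i, by
      rw [c1 l h L hL]
      exact h'.pr.coprime_iff_not_dvd.1 (k2 l l' h h' ne).symm⟩
  have e2 : ∀ g ∈ GK, χ' g = H.χ (-r) g + fs (-f) r.primeFactors (N.Av g) := fun g hg => by
    rw [e' g hg, sub_eq_add_neg]
    simp [fs]
  refine ⟨fun g hg => ?_, fun l h L hL g hg => eqv_YHS H hn _ (f1 l h L hL) hg (e2 g hg),
    fun l l' h h' ne L hL L' hL' g hg => ?_, fun l h => ?_, fun l l' h h' ne =>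
      ⟨fun L hL => tr_YHS H _ f h'.pr (kp_YHS h' r0).1 (d1 l l' h h' ne L hL), fun L hL => ?_⟩,
    fun V φ h hφ => ?_, fun l V φ h h' ne hφ => ?_⟩
  · rw [← eqv_YHS H hn f f0 hg (e g hg), AddSubgroup.map_bot]
  · rw [← AddSubgroup.map_sup]
    refine eqv_YHS H hn f (ε := r) (fun i => ⟨r3, ?_⟩) hg (e g hg)
    rw [← sup_assoc, sup_YHS, c1 l h L hL, cl l' h' L' hL', Nat.cast_mul, Nat.cast_mul,
      (kp_YHS h r0).2.1, (kp_YHS h' r0).2.1]
    · ring
    · rw [c1 l h L hL, cl l' h' L' hL']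
      exact k2 l l' h h' ne
  · simpa only [bot_sup_eq] using tr_YHS H _ (-f) h.pr (kp_YHS h r0).1 (d0 l h)
  · simpa only [sup_comm L] using
      tr_YHS H _ f h.pr (kp_YHS h r0).1 (d1 l' l h' h ne.symm L hL)
  · obtain ⟨u, u1, u2⟩ := cg_YHS H r.primeFactors (-f) r hφ
    exact ⟨u, u1, fun L hL => by simpa only [bot_sup_eq, neg_neg] using u2 ⊥ (d0 _ h) L hL⟩
  · obtain ⟨u, u1, u2⟩ := cg_YHS H r.primeFactors f (-r) hφ
    exact ⟨u, u1, fun L hL L' hL' => u2 L (d1 l _ h h' ne L hL) L' hL'⟩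

end Pool.Agent.MP_e23604_nt.X

end

section

/-! The logarithm attached to the numbering of the lines. -/

set_option autoImplicit false

open Finset QuadraticAlgebra
open scoped Classical

namespace Pool.Agent.MP_e23604_nt.N

open B R S W

theorem sm_LU (u : Zw) (T : Pt) :
    sm u (AddSubgroup.zmultiples T) = AddSubgroup.zmultiples (u • T) := by
  rw [sm, AddMonoidHom.map_zmultiples, DistribSMul.toAddMonoidHom_apply]

theorem ne_LU {l : ℕ} (hl : l.Prime) {T : Pt} (h : Gen l T) : T ≠ 0 := fun e =>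
  hl.one_lt.ne' (by
    have := nn_dvd ((h 1).1 (by rw [e, smul_zero]))
    rw [nn_nat, nn_one, Nat.dvd_one] at this
    exact (Nat.pow_eq_one.1 this).resolve_right two_ne_zero)

theorem line_LU {l : ℕ} (hl : l.Prime) {T S : Pt} (h : Gen l T)
    (hS : S ∈ AddSubgroup.zmultiples T) (h0 : S ≠ 0) :
    Gen l S ∧ AddSubgroup.zmultiples T = AddSubgroup.zmultiples S := by
  obtain ⟨k, rfl⟩ := AddSubgroup.mem_zmultiples_iff.1 hS
  have n1 : ¬ (l : ℤ) ∣ k := fun e => h0 (by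
    rw [← Int.cast_smul_eq_zsmul Zw, h]
    exact_mod_cast map_dvd (Int.castRingHom Zw) e)
  have c1 := (Nat.prime_iff_prime_int.1 hl).coprime_iff_not_dvd.2 n1
  have c2 : IsCoprime (k : Zw) (l : Zw) := by simpa using c1.symm.map (Int.castRingHom Zw)
  refine ⟨Int.cast_smul_eq_zsmul Zw k T ▸ h.cop c2, le_antisymm
    (AddSubgroup.zmultiples_le_of_mem ?_) (AddSubgroup.zmultiples_le_of_mem hS)⟩
  obtain ⟨a, b, e⟩ := c1
  refine AddSubgroup.mem_zmultiples_iff.2 ⟨b, ?_⟩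
  have e1 : (l : ℤ) • T = 0 := by
    rw [← Int.cast_smul_eq_zsmul Zw, Int.cast_natCast, h.zero]
  rw [← mul_smul, ← one_smul ℤ T, ← mul_smul, mul_one, ← e, add_smul, mul_smul a, e1, smul_zero,
    zero_add]

theorem LU_pf (hK : KIT_st) : LU_st := by
  intro l hl h3
  have K := hK l hl h3
  have l0 : (l : Zw) ≠ 0 := Nat.cast_ne_zero.2 hl.ne_zero
  have uq : ∀ (T : Pt) i j, T ≠ 0 → T ∈ Ln l i → T ∈ Ln l j → i = j := by
    intro T i j h0 hi hj
    obtain ⟨A, a1, a2⟩ := K.gen i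
    obtain ⟨B, b1, b2⟩ := K.gen j
    refine K.inj ?_
    rw [a2] at hi
    rw [b2] at hj
    rw [a2, b2, (line_LU hl a1 hi h0).2, (line_LU hl b1 hj h0).2]
  have ex : ∀ T : Pt, Gen l T → ∃! i, T ∈ Ln l i := fun T hT => by
    obtain ⟨i, hi⟩ := K.all T hT
    exact ⟨i, hi, fun j hj => uq T j i (ne_LU hl hT) hj hi⟩
  obtain ⟨T, t1, t2⟩ := K.gen 0
  have k1 : ∀ u : Zw, IsCoprime u l → Ln l (lu l u) = AddSubgroup.zmultiples (u • T) :=
    fun u hu => by rw [← sm_LU, ← t2, K.act u hu, zero_add]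
  have add : ∀ u v : Zw, IsCoprime u l → IsCoprime v l → lu l (u * v) = lu l u + lu l v :=
    fun u v hu hv => K.inj (by
      rw [k1 _ (hu.mul_left hv), add_comm, ← K.act u hu, k1 v hv, sm_LU, mul_smul])
  have zer : ∀ u : Zw, IsCoprime u l → (lu l u = 0 ↔ ∃ k : ℤ, (l : Zw) ∣ u - k) := fun u hu => by
    have m : u • T ∈ Ln l (lu l u) := k1 u hu ▸ AddSubgroup.mem_zmultiples _
    simp only [← t1.congr, Int.cast_smul_eq_zsmul, eq_comm (a := u • T),
      ← AddSubgroup.mem_zmultiples_iff, ← t2]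
    exact ⟨fun e => e ▸ m, uq _ _ _ (ne_LU hl (t1.cop hu)) m⟩
  have m3 : 3 ∣ ml l := by
    have : ¬ 3 ∣ l := fun e => h3 ((Nat.prime_dvd_prime_iff_eq Nat.prime_three hl).1 e).symm
    have := hl.two_le
    unfold ml
    split_ifs <;> omega
  obtain ⟨⟨Q, hQ⟩, c2, -⟩ := CYG_ok l l0
  refine ⟨m3, add, fun u v hu e => K.inj ?_, zer, ?_, fun i => ?_, fun h S h1 h2 => ?_,
    fun ϖ p1 p2 => ⟨fun S h1 h2 h4 => ?_, fun i S hS h0 => ?_⟩⟩
  · obtain ⟨c, hc⟩ := e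
    have hv : IsCoprime v l := by
      rw [show v = u + (l : Zw) * (-c) by linear_combination -hc]
      exact hu.add_mul_left_left _
    rw [k1 u hu, k1 v hv, smul_congr t1.zero ⟨c, hc⟩]
  · have hw : IsCoprime (ω : Zw) l := by
      simpa using (isCoprime_mul_unit_left_left w_unit 1 (l : Zw)).2 isCoprime_one_left
    have e1 : lu l ω + lu l ω + lu l ω = 0 := by
      rw [← add _ _ hw hw, ← add _ _ (hw.mul_left hw) hw, zer _ ((hw.mul_left hw).mul_left hw)]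
      exact ⟨1, by rw [show (ω : Zw) * ω * ω - ((1 : ℤ) : Zw) = 0 by decide]; exact dvd_zero _⟩
    have e2 : (lu l ω).val ≠ 0 := fun e => by
      obtain ⟨k, hk⟩ := (zer _ hw).1 ((ZMod.val_eq_zero _).1 e)
      have : (l : ℤ) ∣ 1 := by simpa using (dvd_KIT.1 hk).2
      exact hl.one_lt.ne' (by exact_mod_cast Int.eq_one_of_dvd_one (by simp) this)
    have e3 := ZMod.val_lt (lu l ω)
    have e4 : ml l ∣ 3 * (lu l ω).val := by
      rw [← ZMod.natCast_eq_zero_iff]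
      push_cast
      rw [ZMod.natCast_zmod_val]
      linear_combination e1
    obtain ⟨q, hq⟩ := m3
    obtain ⟨c, hc⟩ := e4
    generalize (lu l ω).val = x at *
    rw [hq] at hc e3 ⊢
    have e5 : x = q * c := by nlinarith
    have e6 : c < 3 := by
      by_contra e
      nlinarith
    interval_cases c <;> omega
  · obtain ⟨A, a1, a2⟩ := K.gen i
    have : Fact l.Prime := ⟨hl⟩
    rw [a2]
    refine ⟨?_, fun S hS => ?_⟩
    · rw [Nat.card_zmultiples]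
      exact addOrderOf_eq_prime (by rw [← Nat.cast_smul_eq_nsmul Zw, a1.zero]) (ne_LU hl a1)
    · obtain ⟨k, rfl⟩ := AddSubgroup.mem_zmultiples_iff.1 hS
      rw [smul_comm, a1.zero, smul_zero]
  · obtain ⟨u, rfl⟩ := c2 Q hQ S h1
    exact ex _ (hQ.cop ((inert_prime hl h).coprime_iff_not_dvd.2 fun e => h2 ((hQ u).2 e)).symm)
  · obtain ⟨u, rfl⟩ := c2 Q hQ S h1
    have e : (l : Zw) = ϖ * star ϖ := by rw [mul_star_nn, p2]
    have p3 := (PLK_ok.2.2.2.2.2.2.2.2.1 ϖ p1).1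
    refine ex _ (hQ.cop ?_)
    rw [e]
    refine IsCoprime.mul_right (p1.1.coprime_iff_not_dvd.2 fun d => h4 ?_).symm
      (p3.coprime_iff_not_dvd.2 fun d => h2 ?_).symm
    · rw [← mul_smul, hQ, e, mul_comm ϖ]
      exact mul_dvd_mul_left _ d
    · rw [← mul_smul, hQ, e]
      exact mul_dvd_mul_left _ d
  · obtain ⟨A, a1, a2⟩ := K.gen i
    have g := (line_LU hl a1 (a2 ▸ hS) h0).1
    have n : ∀ b : Zw, nn b = l → b • S ≠ 0 := fun b hb e => by
      have := nn_dvd ((g b).1 e)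
      rw [nn_nat, hb] at this
      have h1 := Nat.le_of_dvd hl.pos this
      nlinarith [hl.two_le]
    exact ⟨n _ p2, n _ ((nn_star ϖ).trans p2)⟩

end Pool.Agent.MP_e23604_nt.N

end
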