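import Pool.Agent.Mg.Fe23604m.G463337
import Pool.Agent.Mg.Fe23604m.G160902
import Pool.Agent.Mg.Fe23604m.Gc4cdb1
import Pool.Agent.Mg.Fe23604m.G6e73ea
import Pool.Agent.Mg.Fe23604m.G5a860c
import Pool.Agent.Mg.Fe23604m.Gad4bd4

set_option linter.all false

section

/-!
Places over inert primes.
-/

set_option autoImplicit false

open Finset QuadraticAlgebra
open scoped Classical

namespace Pool.Agent.MP_e23604_nt.Y

open B R S W

theorem cj_INF : ∃ c, Cj c := by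
  obtain ⟨⟨c, hc⟩, h⟩ := R.DIC_ok.2.2.2
  refine ⟨c, fun e => ?_, (h c hc).1⟩
  obtain ⟨x, h1, h2⟩ := GK_nr
  obtain ⟨ι, hι⟩ := hc
  have := hι x
  rw [h1 c e] at this
  exact h2 ι (Complex.conj_eq_iff_im.1 this.symm)

theorem pp_INF {l : ℕ} (hl : l.Prime) (h3 : l % 3 = 2) : PP (-(l : Zw)) := by
  refine ⟨(inert_prime hl h3).neg, -((l / 3 : ℕ) + 1), ?_⟩
  have e : l = 3 * (l / 3) + 2 := by omega
  have : (l : Zw) = 3 * ((l / 3 : ℕ) : Zw) + 2 := by exact_mod_cast congrArg (Nat.cast : ℕ → Zw) e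
  rw [this]
  ring

theorem ov_INF (V : Plc) : Ov V (-(V.l : Zw)) := by
  have h : Ov V V.l := (PLK_ok.2.2.2.1 V V.l).2 dvd_rfl
  unfold Ov at h ⊢
  rwa [map_neg, AbsoluteValue.map_neg]

theorem fk_INF {V : Plc} {φ : GQ} (h : In V φ) : FK V (-(V.l : Zw)) (φ ^ 2) := by
  have hφ := h.fr
  have h3 := S.LOC_ok.2.1 V.l V.γ φ h.l3 hφ
  rw [sq]
  refine ⟨⟨(Dec _).mul_mem hφ.1 hφ.1, GK_mul h3 h3⟩, fun x hx => ?_⟩
  have e : (φ * φ) x - x ^ nn (-(V.l : Zw)) =
      φ (φ x - x ^ V.l) + (φ (x ^ V.l) - (x ^ V.l) ^ V.l) := by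
    rw [nn_neg, nn_nat, map_sub, AlgEquiv.mul_apply, ← pow_mul, sq]
    ring
  rw [e]
  refine bLocA_add_lt V.na ((hφ.1 _).trans_lt (hφ.2 x hx)) (hφ.2 _ ?_)
  rw [map_pow]
  exact pow_le_one₀ (V.v.nonneg x) hx

theorem INF_pf : INF_st := by
  refine ⟨cj_INF, fun V h => (R.FRO_ok V.l V.γ).1.imp fun φ hφ => ⟨h, hφ⟩, fun V φ h => ?_⟩
  have hl := V.hl.out
  have l3 := h.l3
  have hφ := h.fr
  have hp := pp_INF hl l3
  have hV := ov_INF V
  have hσ := fk_INF h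
  have hI : Ine V.l V.γ ≤ GK := ((PLK_ok.2.2.1 V _ hp.1 hV).2.2.2.1 (by omega)).2
  have hF := (FRB_ok V _ hp hV).2 _ hσ
  have hD := ((FRK_ok V _ hp.1 hV).2.2.2 _ hσ).2.2.2.2.1
  have n3 : ¬ Ov V 3 := fun e => by
    have := (PLK_ok.2.2.2.1 V 3).1 (by rwa [Nat.cast_ofNat])
    have := (Nat.prime_dvd_prime_iff_eq hl Nat.prime_three).1 this
    omega
  refine ⟨hp, hV, by rw [nn_neg, nn_nat], S.LOC_ok.2.1 V.l V.γ φ l3 hφ, hσ, fun g => ?_,
    fun g => ?_, hI, fun W => ?_, fun P => ?_, fun M h0 hM => ?_, fun N hN => ?_⟩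
  · refine and_congr ?_ (Plc.cj_GK φ g)
    exact ((Dec V.v).mul_mem_cancel_left hφ.1).symm.trans
      ((Dec V.v).mul_mem_cancel_right ((Dec V.v).inv_mem hφ.1)).symm
  · refine and_congr ⟨fun e => Ine_conj hφ.1 e, fun e => ?_⟩ (Plc.cj_GK φ g)
    have := Ine_conj ((Dec _).inv_mem hφ.1) e
    rwa [show φ⁻¹ * (φ * g * φ⁻¹) * φ⁻¹⁻¹ = g by group] at this
  · exact (PLK_ok.2.2.2.1 W V.l).trans (Nat.prime_dvd_prime_iff_eq W.hl.out hl)
  · have := hF.1 P
    rwa [neg_smul, sub_neg_eq_add] at this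
  · have key : φ ^ 2 ∈ UM M ↔ M ∣ V.l + 1 := by
      refine ⟨fun e => ?_, fun e => ⟨hσ.1.2, fun P hP => ?_⟩⟩
      · obtain ⟨Q, hQ⟩ := (CYG_ok M h0).1
        have h1 := (hQ M).2 dvd_rfl
        have h2 := (hF.2 M Q hM h1).symm.trans (e.2 Q h1)
        refine (hQ _).1 ?_
        rw [add_smul, one_smul]
        rw [neg_smul] at h2
        exact add_eq_zero_iff_neg_eq.2 h2
      · obtain ⟨k, hk⟩ := e
        have h1 : ((V.l : Zw) + 1) • P = 0 := by rw [hk, mul_comm, mul_smul, hP, smul_zero]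
        rw [add_smul, one_smul] at h1
        rw [hF.2 M P hM hP, neg_smul]
        exact add_eq_zero_iff_neg_eq.1 h1
    exact ⟨key, fun e => hD _ (UM_open h0) (key.2 e) fun τ hτ => (INE_ok V n3 τ hτ).2.2 M hM⟩
  · have h0 : N ≠ 0 := ne_zero_of_dvd_ne_zero (Nat.succ_ne_zero _) hN
    have hn : ¬ V.l ∣ N := fun e =>
      hl.one_lt.ne' (Nat.dvd_one.1 ((Nat.dvd_add_right dvd_rfl).1 (e.trans hN)))
    have h1 : W.cy N φ = -1 := by
      have e : W.cy N φ = (V.l : ZMod N) := lz_eq h0 ((zt_nat h0 _).trans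
        (((R.FRO_ok V.l V.γ).2 φ hφ).2.2.1 N _ hn (zt_prim h0).pow_eq_one).symm)
      rw [e, eq_neg_iff_add_eq_zero]
      exact_mod_cast (ZMod.natCast_eq_zero_iff _ _).2 hN
    have b1 := ((KM_ok N h0).2.2.2.2.2.2.2.2 V hn).2.1
    have key : ∀ g, g ∈ MulAction.stabilizer GQ (zt N) ↔ W.cy N g = 1 := fun g =>
      ⟨fun e => (congrArg (lz N) e).trans (cy_one h0), fun e => (cy_eq_one h0).1 e _
        (zt_prim h0).pow_eq_one⟩
    refine ⟨fun g hg => (key g).1 (hD _ (stabilizer_isOpen_of_isIntegral _) ((key _).2 ?_)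
      (fun τ hτ => (key τ).2 (b1 τ hτ.1).1) hg), h1, fun τ hτ => ?_⟩
    · rw [sq, cy_mul h0, h1, neg_mul_neg, one_mul]
    · have := km_conj h0 (y := φ) (Nat.cast_ne_zero.2 hl.ne_zero) (map_natCast τ V.l)
        (b1 τ hτ.1).1
      rwa [map_natCast, h1, neg_one_mul] at this

end Pool.Agent.MP_e23604_nt.Y

end

section

/-!
The cube root of a prime as a product of first coordinates of torsion points.
-/

set_option autoImplicit false

open Finset QuadraticAlgebra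
open scoped Classical

namespace Pool.Agent.MP_e23604_nt.X

open B R S W

theorem unit_FACS {a : Zw} (ha : ¬ pw ∣ a) {S : Pt} (h0 : S ≠ 0) (hS : a • S = 0) :
    V3.v (xc S) = 1 := by
  have le : ∀ T : Pt, T ≠ 0 → a • T = 0 → V3.v (xc T) ≤ 1 := fun T h e =>
    (not_E1.1 fun k => h (E1_tor k (V3_not ha) e)).2
  have h1 : pw • S ≠ 0 := fun e => h0 (cop_smul (pw_prime.coprime_iff_not_dvd.2 ha) e hS)
  have h2 : xc S ≠ 0 := fun e => h1 ((PI_ok.2.1 S).2 e)
  refine (le S h0 hS).antisymm (not_lt.1 fun lt => ?_)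
  have e := (PI_ok.2.2.1 S h2).1
  rw [eq_div_iff (mul_ne_zero (by norm_num) (pow_ne_zero 2 h2))] at e
  have h3 := le _ h1 (by rw [smul_comm, hS, smul_zero])
  have h4 : V3.v (xc S * (xc (pw • S) * (-3 * xc S) - xc S ^ 2)) < 1 := by
    rw [mul_comm]
    refine (bLocA_mul_le (bLocA_sub_le V3.na (bLocA_mul_one h3 (bLocA_mul_one ?_ lt.le))
      ?_)).trans_lt lt
    · simpa using bLocA_nat V3.na 3
    · rw [map_pow]
      exact pow_le_one₀ (V3.v.nonneg _) lt.le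
  rw [show xc S * (xc (pw • S) * (-3 * xc S) - xc S ^ 2) = 1 by linear_combination e] at h4
  simp at h4

theorem w3_nat (n : ℕ) : w3 ^ (n : ZMod 3).val = w3 ^ n := by
  rw [ZMod.val_natCast, w3_prim.eq_orderOf, pow_mod_orderOf]

theorem xc_wp (i : ℕ) (P : Pt) : xc ((ω : Zw) ^ i • P) = w3 ^ i * xc P := by
  induction i with
  | zero => simp
  | succ i ih => rw [pow_succ', mul_smul, (xc_w _).1, ih, pow_succ', mul_assoc]

theorem root_FACS {l : ℕ} (hl : l.Prime) (h3 : l ≠ 3) : ∃ (A : Finset Pt) (e : ℚ),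
    (∀ S ∈ A, (l : Zw) • S = 0) ∧ 3 * A.card + 1 = l ^ 2 ∧ (e * ∏ S ∈ A, xc S) ^ 3 = (l : ℚ) := by
  by_cases h2 : l = 2
  · subst h2
    obtain ⟨x, hx⟩ := IsAlgClosed.exists_pow_nat_eq (-1 / 4 : Qb) three_pos
    obtain ⟨P, h0, rfl⟩ := ex_pt x
    have hy : yc P = -1 / 2 := by
      have : (yc P + 1 / 2) ^ 2 = 0 := by linear_combination xy_eq P + hx
      linear_combination pow_eq_zero_iff two_ne_zero |>.1 this
    have h1 : -P = P := pt_ext (neg_ne_zero.2 h0) h0 (xc_neg P).1 (by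
      rw [(xc_neg P).2 h0, hy]
      norm_num)
    refine ⟨{P}, -2, fun S hS => ?_, rfl, ?_⟩
    · rw [mem_singleton.1 hS, Nat.cast_ofNat, two_smul]
      exact neg_eq_iff_add_eq_zero.1 h1
    · push_cast
      rw [prod_singleton]
      linear_combination -8 * hx
  have nd : ∀ p : ℕ, p.Prime → l ≠ p → ¬ p ∣ nn (l : Zw) := fun p hp e k => by
    rw [nn_nat] at k
    exact e ((Nat.prime_dvd_prime_iff_eq hp hl).1 (hp.dvd_of_dvd_pow k)).symm
  have hc : IsCoprime (l : Zw) 6 := cop6.2 ⟨fun e => nd 2 Nat.prime_two h2 (two_dvd_iff.1 e),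
    fun e => nd 3 Nat.prime_three h3 (pw_dvd_iff.1 e)⟩
  have h0 := cop6_ne hc
  have hpw := (cop6.1 hc).2
  obtain ⟨A, k1, k2⟩ := orb_ACUL (fun S => 3 * xc S)
    (fun S => by rw [(xc_w S).1]; ring) ((tor l).erase 0) fun S hS => by
      rw [mem_tor0 h0] at hS ⊢
      refine ⟨⟨fun e => hS.1 ((unit_smul w_unit).1 e), by rw [smul_comm, hS.2, smul_zero]⟩,
        fun e => hS.1 (cop_smul (pw_prime.coprime_iff_not_dvd.2 hpw) ?_ hS.2)⟩
      exact dvd_smul (a := ω - 1) (by rw [sub_smul, e, one_smul, sub_self]) ⟨-ω, by decide⟩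
  have u : ∀ s ⊆ (tor l).erase 0, V3.v (∏ S ∈ s, xc S) = 1 := fun s hs => by
    rw [map_prod]
    exact prod_eq_one fun S hS =>
      unit_FACS hpw ((mem_tor0 h0).1 (hs hS)).1 ((mem_tor0 h0).1 (hs hS)).2
  have t1 : V3.v 3 < 1 := by simpa [Ov, map_ofNat] using V3_three
  have t0 : 0 < V3.v 3 := V3.v.pos three_ne_zero
  simp only [prod_mul_distrib, prod_const, mul_pow, ← pow_mul] at k2
  have c := congrArg V3.v k2
  simp only [map_mul, map_pow, u _ k1, u _ Subset.rfl, mul_one, one_pow] at c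
  replace c := pow_right_injective₀ t0 t1.ne c
  have c' := card_erase_add_one (zero_tor h0)
  rw [CARD_ok _ h0, nn_nat] at c'
  rw [c, mul_right_inj' (pow_ne_zero _ three_ne_zero)] at k2
  have hF : Fa l T0 = (l : Qb) ^ 2 * (∏ S ∈ A, xc S) ^ 3 := by
    have ev : Even ((tor (l : Zw)).erase 0).card := by
      have := (hl.odd_of_ne_two h2).pow (n := 2)
      rw [← c'] at this
      exact Nat.odd_add_one.1 this |> Nat.not_odd_iff_even.1
    simp only [Fa, map_natCast, xc_T0.1, zero_sub, prod_neg, k2, ev.neg_one_pow, one_mul]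
  obtain ⟨r, hr⟩ := fixed_rat (x := Fa l T0) fun σ => by
    rw [Fa, map_mul, map_natCast, map_pow, map_natCast, map_prod,
      ← prod_tor0 h0 (gal σ) (fun S e => ?_) (fun S _ e => (gal_ne σ).1 e) fun S => xc T0 - xc S]
    · congr 1
      refine prod_congr rfl fun S _ => ?_
      rw [map_sub, ← (xc_gal σ S).1, ← (xc_gal σ T0).1, gal_T0]
    · rw [Nat.cast_smul_eq_nsmul] at e ⊢
      rw [← map_nsmul, e, map_zero]
  have hv : ∀ V : Plc, ¬ Ov V 3 → V.v (r : Qb) = 1 := fun V hV => by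
    rw [← hr]
    refine ((UNIT_ok l V T0 hc hV).1 ?_).1
    rcases smul_T0 hpw with e | e <;> rw [e]
    · exact T0_E1 V
    · exact fun k => T0_E1 V (by simpa using E1n k)
  have r0 : r ≠ 0 := fun e => by simpa [e] using hv V2 V2_three
  obtain ⟨m, hm⟩ := rat_ACUL r0 fun p hp e => by
    have : Fact p.Prime := ⟨hp⟩
    have e1 := hv ⟨p, 1⟩ ((Ov_l ⟨p, 1⟩).cop (by
      have := Nat.isCoprime_iff_coprime.2 ((Nat.coprime_primes hp Nat.prime_three).2 e)
      simpa using this.map (Int.castRingHom Zw)))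
    have e2 := R.DIC_ok.2.2.1 p 1 r r0
    have e3 : (p : ℝ) ^ (-padicValRat p r) = 1 := e2.symm.trans e1
    rw [zpow_eq_one_iff_right₀ (by positivity) (by exact_mod_cast hp.ne_one)] at e3
    exact neg_eq_zero.1 e3
  rw [hr] at hF
  have v3 : V3.v (r : Qb) = 1 := by
    have := not_Ov.1 (V3_not hpw)
    rw [map_natCast] at this
    simp only [hF, map_mul, map_pow, u _ k1, this, one_pow, mul_one]
  have m0 : m = 0 := by
    refine (zpow_eq_one_iff_right₀ t0.le t1.ne).1 ?_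
    rcases hm with rfl | rfl <;> simpa using v3
  refine ⟨A, r * l, fun S hS => ((mem_tor0 h0).1 (k1 hS)).2, by omega, ?_⟩
  have r2 : (r : Qb) ^ 2 = 1 := by rcases hm with rfl | rfl <;> simp [m0]
  push_cast
  linear_combination -(r : Qb) ^ 3 * l * hF + l * ((r : Qb) ^ 2 + 1) * r2

/-- conjugation of the action on torsion points -/
theorem conj_act {c g : GQ} (hc : c ∉ GK) {M u : Zw} (hM : M ∣ star M)
    (h : ∀ P : Pt, M • P = 0 → gal g P = u • P) (P : Pt) (hP : M • P = 0) :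
    gal (c * g * c⁻¹) P = star u • P := by
  have h1 : M • gal c⁻¹ P = 0 := by
    have := gal_star (mt GK.inv_mem_iff.1 hc) (star M) P
    rwa [dvd_smul hP hM, map_zero, star_star, eq_comm] at this
  rw [W.gal_mul, W.gal_mul, h _ h1, gal_star hc, ← W.gal_mul, mul_inv_cancel, W.gal_one]

theorem kum_add {r : ℚ} (h : r ≠ 0) : Adt GK (kum r) := fun g hg k _ => by
  rw [tdt_SKAP h g trivial k trivial, ep_pos hg, one_mul]

theorem kum_anti {r : ℚ} (h : r ≠ 0) : Y.Anti (kum r) := fun c hc g hg => by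
  have a := tdt_SKAP h c trivial c⁻¹ trivial
  have b := kum_add h 1 GK.one_mem 1 GK.one_mem
  rw [mul_inv_cancel, ep_neg hc] at a
  rw [mul_one] at b
  rw [mul_assoc, tdt_SKAP h c trivial _ trivial, tdt_SKAP h g trivial _ trivial, ep_neg hc,
    ep_pos hg]
  linear_combination -a - b

theorem FACS_pf : FACS_st := by
  intro l hl h3
  have l0 : (l : ℚ) ≠ 0 := Nat.cast_ne_zero.2 hl.ne_zero
  obtain ⟨A, e, h1, h2, h4⟩ := root_FACS hl h3
  rw [show (l ^ 2 - 1) / 3 = A.card by omega]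
  have key : ∀ g ∈ GK, ∀ i : ℕ, (∀ P : Pt, (l : Zw) • P = 0 → gal g P = (ω : Zw) ^ i • P) →
      kum l g = (A.card * i : ℕ) := fun g hg i h => by
    refine w3_inj (mul_right_cancel₀ (ne_SKAP l0 h4) ?_)
    rw [← gk_SKAP l0 h4 hg, map_mul, map_ratCast, map_prod, w3_nat,
      prod_congr rfl fun S hS => by rw [← (xc_gal g S).1, h S (h1 S hS), xc_wp]]
    rw [prod_mul_distrib, prod_const, mul_comm A.card, pow_mul, mul_left_comm]
  intro g hg a i h
  obtain ⟨c, hc, -⟩ := Y.cj_INF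
  have hg' := (Plc.cj_GK c g).1 hg
  have k := key _ (GK.mul_mem (GK.inv_mem hg) hg') i fun P hP => gal_inj g (by
    rw [← W.gal_mul, mul_inv_cancel_left, conj_act hc (by simp) h P hP, gal_smul hg, h P hP,
      ← mul_smul, star_mul, star_pow, star_intCast, show star (ω : Zw) = ω * ω by decide, mul_pow]
    congr 1
    ring)
  have a := kum_add l0 _ hg _ (GK.mul_mem (GK.inv_mem hg) hg')
  rw [mul_inv_cancel_left, kum_anti l0 c hc g hg, k] at a
  have : (3 : ZMod 3) = 0 := rfl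
  linear_combination a + kum l g * this

end Pool.Agent.MP_e23604_nt.X

end

section

/-!
The cubic Kummer character of a prime is a ring class character.
-/

set_option autoImplicit false

open Finset QuadraticAlgebra
open scoped Classical

namespace Pool.Agent.MP_e23604_nt.X

open B R S W

section

variable {l : ℕ} {L : ZMod (N.ml l) → AddSubgroup Pt} {a : Zw → ZMod (N.ml l)}

theorem sm_FACN (u : Zw) (T : Pt) :
    N.sm u (AddSubgroup.zmultiples T) = AddSubgroup.zmultiples (u • T) := by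
  rw [N.sm, AddMonoidHom.map_zmultiples, DistribSMul.toAddMonoidHom_apply]

theorem con_FACN (K : N.Kit l L a) {u v : Zw} (hu : IsCoprime u l) (hv : IsCoprime v l)
    (e : (l : Zw) ∣ u - v) : a u = a v := by
  obtain ⟨T, hT, e0⟩ := K.gen 0
  have h1 := K.act u hu 0
  have h2 := K.act v hv 0
  rw [e0, sm_FACN] at h1 h2
  rw [hT.congr.2 e, h2] at h1
  simpa using (K.inj h1).symm

theorem mul_FACN (K : N.Kit l L a) {u v : Zw} (hu : IsCoprime u l) (hv : IsCoprime v l) :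
    a (u * v) = a u + a v := by
  obtain ⟨T, -, e0⟩ := K.gen 0
  have h1 := K.act _ (hu.mul_left hv) 0
  have h2 := K.act v hv 0
  have h3 := K.act u hu (0 + a v)
  rw [e0, sm_FACN] at h1 h2
  rw [← h2, sm_FACN, ← mul_smul, h1] at h3
  simpa [add_comm] using K.inj h3

theorem ker_FACN (K : N.Kit l L a) {u : Zw} (hu : IsCoprime u l) (e : a u = 0) :
    ∃ n : ℤ, (l : Zw) ∣ u - n := by
  obtain ⟨T, hT, e0⟩ := K.gen 0
  have h1 := K.act u hu 0
  rw [e, add_zero, e0, sm_FACN] at h1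
  obtain ⟨n, hn⟩ : u • T ∈ AddSubgroup.zmultiples T := h1 ▸ AddSubgroup.mem_zmultiples _
  exact ⟨n, hT.congr.1 (by rw [← hn, Int.cast_smul_eq_zsmul])⟩

end

theorem sur_FACN {l : ℕ} (hl : l.Prime) (h3 : l ≠ 3) {u : Zw} (hu : IsCoprime u l) :
    ∃ g ∈ GK, ∀ P : Pt, (l : Zw) • P = 0 → gal g P = u • P := by
  have c : IsCoprime (l : Zw) 3 := by
    have := Nat.isCoprime_iff_coprime.2 ((Nat.coprime_primes hl Nat.prime_three).2 h3)
    simpa using this.map (Int.castRingHom Zw)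
  obtain ⟨x, y, e⟩ := c
  obtain ⟨g, hg, h⟩ := W.SURJ_ok l (u + l * (x * (1 - u))) (Nat.cast_ne_zero.2 hl.ne_zero)
    ⟨y * (u - 1), by linear_combination (1 - u) * e⟩ (hu.add_mul_left_left _)
  exact ⟨g, hg, fun P hP => (h P hP).trans (smul_congr hP ⟨x * (1 - u), by ring⟩)⟩

theorem FACN_pf : FACN_st := by
  intro l hl h3
  have : Fact l.Prime := ⟨hl⟩
  have K := N.KIT_pf l hl h3
  have l0 : (l : ℚ) ≠ 0 := Nat.cast_ne_zero.2 hl.ne_zero
  obtain ⟨PS, -⟩ := PS_ok l (Nat.cast_ne_zero.2 hl.ne_zero)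
  have act : ∀ g ∈ GK, ∀ u : Zw, IsCoprime u l →
      (∀ P : Pt, (l : Zw) • P = 0 → gal g P = u • P) → N.Al l g = N.lu l u := fun g hg u hu h =>
    con_FACN K (PS g hg).2.1 hu (((PS g hg).2.2.2.2.1 u).1 h)
  have ad : Adt GK (N.Al l) := fun g hg h hh =>
    (con_FACN K (PS _ (GK.mul_mem hg hh)).2.1 ((PS g hg).2.1.mul_left (PS h hh).2.1)
      ((PS g hg).2.2.2.2.2.1 h hh)).trans (mul_FACN K (PS g hg).2.1 (PS h hh).2.1)
  have k0 : ∀ g ∈ GK, N.Al l g = 0 → kum l g = 0 := fun g hg e => by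
    obtain ⟨n, hn⟩ := ker_FACN K (PS g hg).2.1 e
    simpa using FACS_pf l hl h3 g hg n 0 fun P hP => by
      rw [(PS g hg).1 P hP, pow_zero, mul_one, smul_congr hP hn]
  have wd : ∀ g ∈ GK, ∀ h ∈ GK, N.Al l g = N.Al l h → kum l g = kum l h := fun g hg h hh e => by
    have m := GK.mul_mem (GK.inv_mem hh) hg
    have a1 := ad h hh _ m
    have a2 := kum_add l0 h hh _ m
    rw [mul_inv_cancel_left] at a1 a2
    rw [a2, k0 _ m (by linear_combination e - a1), add_zero]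
  have su : ∀ i, ∃ g ∈ GK, N.Al l g = i := fun i => by
    obtain ⟨u, hu, rfl⟩ := K.sur i
    obtain ⟨g, hg, h⟩ := sur_FACN hl h3 hu
    exact ⟨g, hg, act g hg u hu h⟩
  choose s s1 s2 using su
  let f : ZMod (N.ml l) →+ ZMod 3 := AddMonoidHom.mk' (fun i => kum l (s i)) fun i j => by
    rw [← kum_add l0 _ (s1 i) _ (s1 j)]
    exact wd _ (s1 _) _ (GK.mul_mem (s1 i) (s1 j)) (by rw [ad _ (s1 i) _ (s1 j), s2, s2, s2])
  have hf : ∀ g ∈ GK, kum l g = f (N.Al l g) := fun g hg => wd g hg _ (s1 _) (s2 _).symm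
  refine ⟨f, hf, ?_, fun e => ?_⟩
  · have hw : IsCoprime (ω : Zw) l := by
      simpa using (isCoprime_mul_unit_left_left w_unit 1 (l : Zw)).2 isCoprime_one_left
    obtain ⟨g, hg, h⟩ := sur_FACN hl h3 hw
    rw [← act g hg _ hw h, ← hf g hg]
    simpa using FACS_pf l hl h3 g hg 1 1 fun P hP => by simpa using h P hP
  · obtain ⟨le, ⟨τ, h1, h2⟩, -⟩ := S.TAM_ok l 1 h3
    rw [hf τ (le h1), ← ZMod.natCast_zmod_val (N.Al l τ), ← nsmul_one, map_nsmul, e,
      nsmul_zero] at h2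
    exact zero_ne_one h2

end Pool.Agent.MP_e23604_nt.X

end

section

/-!
Logarithms modulo an inert prime and Kummer characters.
-/

set_option autoImplicit false

open Finset QuadraticAlgebra
open scoped Classical

namespace Pool.Agent.MP_e23604_nt.X

open B R S W Un.NC

theorem int_LGK {l : ℕ} {x : Zw} :
    (∃ k : ℤ, (l : Zw) ∣ x - k) ↔ (l : Zw) ∣ x - star x := by
  refine ⟨fun ⟨k, h⟩ => by simpa using dvd_sub h (N.star_KIT h), fun h => ⟨x.re, ?_⟩⟩
  rw [show x - star x = (x.im : Zw) * pw by ext <;> simp [pw]; ring] at h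
  have := (N.dvd_KIT.1 h).1
  exact N.dvd_KIT.2 ⟨by simp, by simpa [pw] using this⟩

theorem main_LGK (hU : N.LU_st) (p j : ℕ) (V : Plc) (φ : GQ) (b : Zw) (hp : p.Prime) (h2 : p ≠ 2)
    (hI : Y.In V φ) (hd : p ^ j ∣ V.l + 1) (hb : ¬ (V.l : Zw) ∣ b) :
    km (p ^ j) (φ ^ 2) (W.io b / W.io (star b)) = 0 ↔ p ^ j ∣ (N.lu V.l b).val := by
  obtain ⟨pp, ov, n2, -, fk, -⟩ := Y.INF_pf.2.2 V φ hI
  have hl := V.hl.out
  have l3 := hI.l3
  obtain ⟨-, u1, -, u3, -⟩ := hU V.l hl (by omega)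
  have n0 : p ^ j ≠ 0 := pow_ne_zero _ hp.ne_zero
  have pr := inert_prime hl l3
  have ovd : ∀ x : Zw, Ov V x ↔ (V.l : Zw) ∣ x := fun x =>
    ((PLK_ok.2.2.1 V _ pp.1 ov).1 x).trans neg_dvd
  have cp : ∀ x : Zw, ¬ (V.l : Zw) ∣ x → IsCoprime x V.l := fun x h =>
    (pr.coprime_iff_not_dvd.2 h).symm
  have un : ∀ x : Zw, ¬ (V.l : Zw) ∣ x → V.v (W.io x) = 1 ∧ V.v (W.io (star x)) = 1 := fun x h =>
    ⟨not_Ov.1 fun e => h ((ovd x).1 e), not_Ov.1 fun e => h (by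
      simpa using N.star_KIT ((ovd _).1 e))⟩
  have bi : ∀ i : ℕ, ¬ (V.l : Zw) ∣ b ^ i := fun i e => hb (pr.dvd_of_dvd_pow e)
  have lp : ∀ i : ℕ, N.lu V.l (b ^ i) = i * N.lu V.l b := fun i => by
    induction i with
    | zero => simpa using (u3 1 isCoprime_one_left).2 ⟨1, by simp⟩
    | succ i ih => rw [pow_succ, u1 _ _ (cp _ (bi i)) (cp _ hb), ih, Nat.cast_succ, add_one_mul]
  set θ := W.io b / W.io (star b) with hθ
  have t1 : V.v θ = 1 := by rw [hθ, map_div₀, (un b hb).1, (un b hb).2, div_one]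
  have t0 : θ ≠ 0 := fun e => by simp [e] at t1
  have c1 : ∀ i : ℕ, Cg V (θ ^ i) 1 ↔ i * N.lu V.l b = 0 := fun i => by
    have h := (un _ (bi i)).2
    have h0 : W.io (star (b ^ i)) ≠ 0 := fun e => by simp [e, -star_pow] at h
    rw [← lp, u3 _ (cp _ (bi i)), int_LGK, ← ovd, Ov, Cg, map_pow, t1, hθ, div_pow, ← map_pow,
      ← map_pow, ← star_pow, div_sub_one h0, map_div₀, h, map_sub W.io]
    simp
  obtain ⟨m, hm⟩ := hd
  have ml : N.ml V.l = p ^ j * m := by rw [N.ml, if_pos l3, hm]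
  have m0 : 0 < m := Nat.pos_of_ne_zero fun e => by simp [e] at hm
  have c2 : p ^ j ∣ (N.lu V.l b).val ↔ Cg V (θ ^ m) 1 := by
    rw [c1, ← ZMod.natCast_zmod_val (N.lu V.l b), ← Nat.cast_mul, ZMod.natCast_eq_zero_iff,
      ZMod.natCast_zmod_val, mul_comm m, ← Nat.mul_dvd_mul_iff_right m0, ← ml]
  have c3 : Cg V ((θ ^ m) ^ p ^ j) 1 := by
    rw [← pow_mul, c1, mul_comm m, ← ml, ZMod.natCast_self, zero_mul]
  have hf : (φ ^ 2) θ = θ := by rw [hθ, map_div₀, io_fix fk.1.2, io_fix fk.1.2]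
  have r0 := rt_ne n0 t0
  have r1 : V.v (rt (p ^ j) θ) = 1 :=
    (pow_eq_one_iff_of_nonneg (V.v.nonneg _) n0).1 (by rw [← map_pow, rt_pow n0, t1])
  have z := km_root n0 (φ ^ 2) t0
  obtain ⟨k, hk⟩ : ∃ k, V.l = k + 1 := ⟨V.l - 1, by omega⟩
  have c4 := (Cg.mk' (by rw [map_pow, r1, one_pow]) (fk.2 _ r1.le)).div (Cg.rfl' r1.le) r1
  rw [n2, show V.l ^ 2 = p ^ j * (m * k) + 1 by rw [← mul_assoc, ← hm, hk]; ring, pow_succ (rt _ _),
    mul_div_cancel_right₀ _ r0, pow_mul, rt_pow n0, pow_mul] at c4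
  rw [c2, km, lz_eq_zero n0 z]
  rw [hf] at z ⊢
  generalize θ ^ m = ζ at *
  refine ⟨fun e => ?_, fun e => root_one V ?_ z (c4.trans (by simpa using e.pow k)).2.2⟩
  · rw [e] at c4
    obtain ⟨t, ht⟩ := (hp.odd_of_ne_two h2).pow (n := j)
    have z1 : V.v ζ ≤ 1 := by
      have := c3.1
      rwa [map_pow, pow_le_one_iff_of_nonneg (V.v.nonneg _) n0] at this
    have z2 := c3.pow m
    rw [← pow_mul, ← hm, hk, add_assoc, pow_add, one_pow] at z2
    have z3 := ((Cg.rfl' z1).mul (((c4.mul ((Cg.rfl' z1).pow (1 + 1))).trans z2).pow t)).symm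
    rw [one_mul, one_pow, mul_one, ← pow_mul, ← pow_succ', one_add_one_eq_two, ← ht] at z3
    exact z3.trans c3
  · have : ¬ Ov V (p ^ j : ℕ) := not_Ov_nat fun e =>
      hl.one_lt.ne' (Nat.dvd_one.1 ((Nat.dvd_add_right dvd_rfl).1 (hm ▸ e.mul_right m)))
    simpa using not_Ov.1 this

theorem LGK_of (hU : N.LU_st) : LGK_st := main_LGK hU

end Pool.Agent.MP_e23604_nt.X

end
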