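import Pool.Agent.Mg.Fe23604m.G8e6715
import Pool.Agent.Mg.Fe23604m.Gad4bd4
import Pool.Agent.Mg.Fe23604m.Gc992fc
import Pool.Agent.Mg.Fe23604m.G8b9a0e
import Pool.Agent.Mg.Fe23604m.G2ccc44
import Pool.Agent.Mg.Fe23604m.Ga3657a

set_option linter.all false

section

/-!
The congruence at an inert prime.
-/

set_option autoImplicit false

open Finset QuadraticAlgebra
open scoped Classical

namespace Pool.Agent.MP_e23604_nt.Z

open B R S W Un NC

end Pool.Agent.MP_e23604_nt.Z

end

section

/-!
The traces of the points form a system of points.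
-/

set_option autoImplicit false

open Finset QuadraticAlgebra
open scoped Classical

namespace Pool.Agent.MP_e23604_nt.Z

open B R S W Un NC AddSubgroup

namespace OSx

/-- finite subgroups killed by a number prime to three -/
structure Kn (m : ℕ) (C : AddSubgroup Pt) : Prop where
  fin : (C : Set Pt).Finite
  n3 : ¬ 3 ∣ m
  kill : ∀ c ∈ C, m • c = 0

variable {m m' l r : ℕ} {C C' L : AddSubgroup Pt} {G : Pt} {χ χ' : GQ → ZMod 3}

end OSx

open OSx

end Pool.Agent.MP_e23604_nt.Z

end

section

/-!
The system of points.
-/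

set_option autoImplicit false

namespace Pool.Agent.MP_e23604_nt.Z

theorem HTL_pf : HTL_st := HTL_of LAT_pf

end Pool.Agent.MP_e23604_nt.Z

end
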