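import Pool.Agent.Mg.Fe23604m.G68d450
import Pool.Agent.Mg.Fe23604m.Gd7623c
import Pool.Agent.Mg.Fe23604m.G5a860c

set_option linter.all false

section

/-!
The reciprocity law in the language of ideals.
-/

set_option autoImplicit false

open NumberField Filter Topology
open scoped Classical

namespace Pool.Agent.MP_e23604_nt.S

open B R

theorem sg_eq_ep (g : GQ) : T.sg g = ep g := w3_inj (by
  have := act_w3 g 1
  rw [mul_one, ZMod.val_one, pow_one] at this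
  rw [← this]
  exact (MP_f68ac8_nt.cyc_spec (Ω := Qb) 3 g w3_cube).symm)

theorem mem_Gz {g : GQ} : g ∈ MP_f68ac8_nt.Nd.Gz 3 ↔ g ∈ GK := by
  have e : g ∈ MP_f68ac8_nt.Nd.Gz 3 ↔ T.sg g = 1 := Units.val_eq_one.symm
  rw [e, sg_eq_ep]
  exact ⟨fun h => by_contra fun h' => absurd ((ep_neg h').symm.trans h) (by decide), ep_pos⟩

theorem mem_DP {l : ℕ} [Fact l.Prime] {γ g : GQ} : g ∈ T.DP (cen l γ) ↔ g ∈ Dec (nv l γ) :=
  dec_iff.symm

/-- the Kummer characters in terms of the chosen root of unity -/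
theorem kk_spec : ∃ u : ZMod 3, ∀ l : ℕ, l ≠ 0 → ∃ x : Qb, x ^ 3 = l ∧
    ∀ g ∈ GK, g x = w3 ^ (u * T.kk l g).val * x := by
  have h := (MP_f68ac8_nt.xi_spec (Ω := Qb) (p := 3)).pow_eq_one
  refine ⟨lg (MP_f68ac8_nt.zeta Qb (3 ^ 2) ^ 3), fun l hl =>
    ⟨_, MP_f68ac8_nt.Ev.proot_pow 3 (l : Qb), fun g _ => ?_⟩⟩
  rw [← pow_val_mul_INVQ w3_cube, pow_lg h]
  refine MP_f68ac8_nt.kap_spec (p := 3) (fun e => ?_) ?_
  · have := MP_f68ac8_nt.Ev.proot_pow 3 (l : Qb)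
    rw [e, zero_pow three_ne_zero] at this
    exact hl (Nat.cast_eq_zero.1 this.symm)
  · rw [MP_f68ac8_nt.Ev.proot_pow, map_natCast]

theorem root_RecD {u : ZMod 3} (hu : ∀ l : ℕ, l ≠ 0 → ∃ x : Qb, x ^ 3 = l ∧
    ∀ g ∈ GK, g x = w3 ^ (u * T.kk l g).val * x) (S : Finset ℕ) (e : ℕ → ZMod 3)
    (hS : ∀ l ∈ S, l ≠ 0) : ∃ y : Qb, y ^ 3 = (∏ l ∈ S, l ^ (e l).val : ℕ) ∧
      ∀ g ∈ GK, g y = w3 ^ (u * ∑ l ∈ S, e l * T.kk l g).val * y := by
  induction S using Finset.induction_on with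
  | empty => exact ⟨1, by simp, by simp⟩
  | insert a S ha ih =>
    obtain ⟨y, h1, h2⟩ := ih fun l hl => hS l (Finset.mem_insert_of_mem hl)
    obtain ⟨x, h3, h4⟩ := hu a (hS a (Finset.mem_insert_self _ _))
    refine ⟨x ^ (e a).val * y, ?_, fun g hg => ?_⟩
    · rw [Finset.prod_insert ha, mul_pow, pow_right_comm, h3, h1]
      push_cast
      rfl
    · rw [Finset.sum_insert ha, mul_add, w3_add, map_mul, map_pow, h2 g hg, h4 g hg,
        mul_comm (e a), ← mul_assoc u, ← pow_val_mul_INVQ w3_cube _ (e a)]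
      ring

theorem fac_RecD (S : Finset ℕ) (e : ℕ → ℕ) (hS : ∀ l ∈ S, l.Prime) :
    (∏ l ∈ S, l ^ e l).primeFactors ⊆ S ∧ ∀ l ∈ S, (∏ l ∈ S, l ^ e l).factorization l = e l := by
  have h : ∀ q, (∏ l ∈ S, l ^ e l).factorization q = if q ∈ S then e q else 0 := fun q => by
    rw [Nat.factorization_prod fun l hl => pow_ne_zero _ (hS l hl).ne_zero,
      Finsupp.finsetSum_apply, Finset.sum_congr rfl fun l hl => by
        rw [(hS l hl).factorization_pow, Finsupp.single_apply],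
      Finset.sum_ite_eq']
  exact ⟨fun q hq => by_contra fun h' => Finsupp.mem_support_iff.1 hq (by rw [h, if_neg h']),
    fun l hl => by rw [h, if_pos hl]⟩

theorem recD : T.RecD := by
  intro S e β M c k P σ s b hS hM hG hc1 hc hk hk1 hP
  simp only [sg_eq_ep] at hc hk hP
  have h3 : 3 ∉ S := fun h => (hS 3 h).2 rfl
  have hS' : ∀ l ∈ insert 3 S, l.Prime := fun l hl => by
    rcases Finset.mem_insert.1 hl with rfl | h
    exacts [Nat.prime_three, (hS l h).1]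
  obtain ⟨u, hu⟩ := kk_spec
  let e' : ℕ → ZMod 3 := fun l => if l = 3 then β else e l
  have e1 : ∀ f : ℕ → ZMod 3, ∑ l ∈ insert 3 S, e' l * f l = β * f 3 + ∑ l ∈ S, e l * f l :=
    fun f => by
      rw [Finset.sum_insert h3, Finset.sum_congr rfl fun l hl => by
        rw [show e' l = e l from if_neg (hS l hl).2]]
      rfl
  obtain ⟨y, y1, y2⟩ := root_RecD hu (insert 3 S) e' fun l hl => (hS' l hl).ne_zero
  obtain ⟨f1, f2⟩ := fac_RecD (insert 3 S) (fun l => (e' l).val) hS'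
  have m0 : ∏ l ∈ insert 3 S, l ^ (e' l).val ≠ 0 :=
    Finset.prod_ne_zero_iff.2 fun l hl => pow_ne_zero _ (hS' l hl).ne_zero
  generalize ∏ l ∈ insert 3 S, l ^ (e' l).val = m at y1 f1 f2 m0
  have m1 : (m : ℚ) ≠ 0 := Nat.cast_ne_zero.2 m0
  have y3 : y ^ 3 = ((m : ℚ) : Qb) := y1.trans (Rat.cast_natCast m).symm
  have y0 : y ≠ 0 := by
    rintro rfl
    exact m0 (Nat.cast_eq_zero.1 (y1.symm.trans (zero_pow three_ne_zero)))
  obtain ⟨κ, hκ⟩ : ∃ κ : GQ → ZMod 3, ∀ g : GQ, g y = w3 ^ (κ g).val * y :=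
    (KAP_ok.2.1 _ _ m1 y3).elim fun t ht => ⟨_, ht⟩
  obtain ⟨t, ht⟩ := Tc.res (b := true) (H := ⊤) (a := fun g => u * k g - κ g)
    (fun g _ h _ => by
      simp only [hk, (kc_SRC3 KAP_ok m1 y3 hκ).1.1 g trivial h trivial, sg_true]
      ring)
    (fun g _ hg => sub_eq_zero.2 (w3_inj (mul_right_cancel₀ y0 (by
      rw [← hκ, y2 g hg, e1, hk1 g (mem_Gz.2 hg)]
      rfl))))
  have hN : ON M := ⟨hM.nrm, M.isOpen_of_mem_nhds hM.nhds⟩
  have hγ : ∀ l : ℕ, ∃ γ : GQ, ∀ [Fact l.Prime], l ∈ insert 3 S → P l = cen l γ := fun l => by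
    by_cases h : l ∈ insert 3 S
    · have : Fact l.Prime := ⟨hS' l h⟩
      have := (hP l h).1
      exact (exists_cen l (P l) (hP l h).2.1).imp fun γ hγ _ _ => hγ
    · exact ⟨1, fun h' => absurd h' h⟩
  choose γ hγ using hγ
  have := RC3_ok (insert 3 S) m M (fun g h => u * c g h) (w3 ^ t.val * y) (fun g => u * k g) γ σ s
    hS' (Finset.mem_insert_self _ _) m0 f1 (by rw [mul_pow, cube_SAQW, one_mul, y1])
    (fun g => by
      rw [map_mul, act_w3, hκ, ← mul_assoc, ← mul_assoc, ← w3_add, ← w3_add]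
      have := ht g trivial
      rw [sg_true] at this
      rw [show ep g * t + κ g = u * k g + t by linear_combination -this])
    ⟨hN, fun g hg => hM.pg g (mem_Gz.2 hg)⟩
    (fun g h j => by linear_combination u * hc g h j)
    (fun g x _ z _ n => by
      have := hc1 g x 1 M.one_mem _ n
      rw [mul_one, mul_inv_cancel_left] at this
      simp only [this])
    (fun h x _ z _ n => by
      have := hc1 x h _ n 1 M.one_mem
      rw [mul_one, mul_inv_cancel_left] at this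
      simp only [this])
    (fun l hl h δ τ hτ => by
      have key : ∀ q ∈ insert 3 S, (q : 𝓞 Qb) ∉ cen l δ := fun q hq =>
        MP_f68ac8_nt.not_mem_of_coprime (cen_mem l δ)
          ((Nat.coprime_primes hl.out (hS' q hq)).2 fun e => h (e ▸ hq))
      exact hM.unr (cen l δ) ⟨inferInstance, key 3 (Finset.mem_insert_self _ _),
        fun q hq => key q (Finset.mem_insert_of_mem hq)⟩ τ (ine_iff.1 hτ))
    (fun l _ h => by
      obtain ⟨-, -, p1, p2, p3⟩ := hP l h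
      rw [hγ l h] at p1 p2 p3
      simp only [mem_DP] at p3
      refine ⟨frob_iff.2 p1, fun g hg j hj => (p3 g hg j hj).1,
        ⟨M, hN, fun g hg j hj n => ((p3 g hg j hj).2.1 n).1⟩, fun τ hτ => p2 τ (ine_iff.1 hτ),
        fun g => u * b l g, ⟨M, hN, fun g hg j hj n => ?_⟩, fun g hg j hj => ?_⟩
      · simp only [((p3 g hg j hj).2.1 n).2]
      · rw [sg_true]
        linear_combination -u * (p3 g hg j hj).2.2)
  rw [Finset.sum_congr rfl fun l hl => by rw [f2 l hl, ZMod.natCast_zmod_val], e1] at this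
  rwa [add_comm]

end Pool.Agent.MP_e23604_nt.S

end

section

/-!
The local condition of the derived classes, and the transfer from a subgroup of index two.
-/

set_option autoImplicit false

open Finset QuadraticAlgebra
open scoped Classical

namespace Pool.Agent.MP_e23604_nt.N

open B R S W

section

variable {R : Type} [CommRing R] {φ : Zw →+* R} {M : Zw} {χ : GQ → ZMod 3}

/-- the change of the division point -/
theorem shift_LOC (hDL : DL_st) (hM : M ≠ 0) (hφ : φ M = 0) (χ : GQ → ZMod 3) {g : GQ}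
    (hg : g ∈ GK) {P Z : Pt} (hP : eta χ g P = P) (hZ : M • Z = P) :
    φ (co (gq M) (eta χ g Z - Z)) =
      dl φ M χ g P + (lamZ φ χ M g - 1) * φ (co (gq M) (Z - dv M P)) := by
  obtain ⟨-, h2, h3, -, -, -, -, -, h9⟩ := hDL R φ M hM hφ
  obtain ⟨k1, k2, -⟩ := h9 χ g hg
  have a1 : M • (Z - dv M P) = 0 := by rw [smul_sub, hZ, h2, sub_self]
  have a2 : M • eta χ g (Z - dv M P) = 0 := by rw [← eta_smul χ hg, a1, map_zero]
  have e : eta χ g Z - Z =
      eta χ g (dv M P) - dv M P + (eta χ g (Z - dv M P) - (Z - dv M P)) := by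
    rw [map_sub]
    abel
  rw [e, (h3 _ _ (k2 P hP) (by rw [smul_sub, a1, a2, sub_self])).1, (h3 _ _ a2 a1).2, k1 _ a1, dl]
  ring

theorem lam_LOC (hDL : DL_st) (hM : M ≠ 0) (hφ : φ M = 0) (hχ : Adt GK χ) {g h : GQ}
    (hg : g ∈ GK) (hh : h ∈ GK) : lamZ φ χ M (g * h) = lamZ φ χ M g * lamZ φ χ M h := by
  obtain ⟨h1, -, -, -, -, -, -, -, h9⟩ := hDL R φ M hM hφ
  have e : φ (co (gq M) (gq M)) = 1 := by
    obtain ⟨c, hc⟩ := h1.congr.1 ((co_spec ⟨1, (one_smul _ _).symm⟩).symm.trans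
      (one_smul Zw (gq M)).symm)
    rw [← sub_eq_zero, ← φ.map_one, ← map_sub, hc, map_mul, hφ, zero_mul]
  have a := (h9 χ _ (GK.mul_mem hg hh)).1 _ h1.zero
  rw [eta_mul hχ hg hh, (h9 χ g hg).1 _ (by rw [← eta_smul χ hh, h1.zero, map_zero]),
    (h9 χ h hh).1 _ h1.zero, e, mul_one, mul_one] at a
  exact a.symm

theorem coc_LOC (hDL : DL_st) (hM : M ≠ 0) (hφ : φ M = 0) (hχ : Adt GK χ) {g h : GQ}
    (hg : g ∈ GK) (hh : h ∈ GK) {P : Pt} (h1 : eta χ g P = P) (h2 : eta χ h P = P) :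
    dl φ M χ (g * h) P = dl φ M χ g P + lamZ φ χ M g * dl φ M χ h P := by
  obtain ⟨-, -, h3, -, -, -, -, -, h9⟩ := hDL R φ M hM hφ
  have a1 := (h9 χ h hh).2.1 P h2
  have e : eta χ (g * h) (dv M P) - dv M P =
      eta χ g (dv M P) - dv M P + eta χ g (eta χ h (dv M P) - dv M P) := by
    rw [map_sub, eta_mul hχ hg hh]
    abel
  rw [dl, e, (h3 _ _ ((h9 χ g hg).2.1 P h1) (by rw [← eta_smul χ hg, a1, map_zero])).1,
    (h9 χ g hg).1 _ a1, dl, dl]

end

theorem TRF_pf (hDL : DL_st) : TRF_st := by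
  rintro R _ φ M χ D D' c hM hφ h2 hχ hD hle hix hc ⟨ι, _, r, X, hX, m, hm⟩
  by_cases h0 : D ≤ D'
  · exact ⟨ι, _, r, X, fun t g hg => hX t g (h0 hg), m, fun g hg => hm g (h0 hg)⟩
  obtain ⟨s, hs, hs'⟩ := SetLike.not_le_iff_exists.1 h0
  obtain ⟨u, hu⟩ := h2.exists_left_inv
  obtain ⟨-, d2, d3, -, -, -, -, -, d9⟩ := hDL R φ M hM hφ
  have hK : ∀ g ∈ D', g ∈ GK := fun g hg => hD (hle hg)
  have sK := hD hs
  have hi : s⁻¹ ∉ D' := fun h => hs' (D'.inv_mem_iff.1 h)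
  have hss := hix s hs s hs hs' hs'
  have hcj : ∀ g ∈ D', s⁻¹ * (g * s) ∈ D' := fun g hg =>
    hix _ (D.inv_mem hs) _ (D.mul_mem (hle hg) hs) hi fun h => hs' ((D'.mul_mem_cancel_left hg).1 h)
  have hcs : ∀ p : GQ → Prop, (∀ g ∈ D', p g ∧ p (g * s)) → ∀ g ∈ D, p g := fun p hp g hg => by
    by_cases h : g ∈ D'
    · exact (hp g h).1
    · simpa using (hp _ (hix g hg _ (D.inv_mem hs) h hi)).2
  have hmv : ∀ g ∈ D', ∀ P, eta χ g (eta χ s P) = eta χ s (eta χ (s⁻¹ * (g * s)) P) :=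
    fun g hg P => by
      rw [← eta_mul hχ (hK g hg) sK, ← eta_mul hχ sK (hK _ (hcj g hg)), mul_inv_cancel_left]
  have hY : ∀ t, ∀ g ∈ D, eta χ g (X t + eta χ s (X t)) = X t + eta χ s (X t) := fun t =>
    hcs _ fun g hg => by
      have a : eta χ g (X t + eta χ s (X t)) = X t + eta χ s (X t) := by
        rw [map_add, hX t g hg, hmv g hg, hX t _ (hcj g hg)]
      refine ⟨a, ?_⟩
      rw [eta_mul hχ (hK g hg) sK, map_add, ← eta_mul hχ sK sK, hX t _ hss, add_comm, a]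
  have lm : ∀ g ∈ D, ∀ h ∈ D, lamZ φ χ M (g * h) = lamZ φ χ M g * lamZ φ χ M h :=
    fun g hg h hh => lam_LOC hDL hM hφ hχ (hD hg) (hD hh)
  have cj : ∀ e : GQ → R, (∀ g ∈ D, ∀ h ∈ D, e (g * h) = e g + lamZ φ χ M g * e h) →
      ∀ g ∈ D', lamZ φ χ M s * e (s⁻¹ * (g * s)) = e g + (lamZ φ χ M g - 1) * e s :=
    fun e he g hg => by
      have a := he s hs _ (hle (hcj g hg))
      rw [mul_inv_cancel_left, he g (hle hg) s hs] at a
      linear_combination -a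
  have a1 : ∀ g ∈ D', ∀ t, dl φ M χ g (X t + eta χ s (X t)) =
      dl φ M χ g (X t) + lamZ φ χ M s * dl φ M χ (s⁻¹ * (g * s)) (X t) - (lamZ φ χ M g - 1) *
        φ (co (gq M) (dv M (X t) + eta χ s (dv M (X t)) - dv M (X t + eta χ s (X t)))) :=
    fun g hg t => by
      have b1 := (d9 χ _ (hK _ (hcj g hg))).2.1 _ (hX t _ (hcj g hg))
      have b2 : eta χ g (dv M (X t) + eta χ s (dv M (X t))) - (dv M (X t) + eta χ s (dv M (X t))) =
          eta χ g (dv M (X t)) - dv M (X t) +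
            eta χ s (eta χ (s⁻¹ * (g * s)) (dv M (X t)) - dv M (X t)) := by
        rw [map_add, map_sub, hmv g hg]
        abel
      rw [eq_sub_iff_add_eq, ← shift_LOC hDL hM hφ χ (hK g hg) (hY t g (hle hg))
        (by rw [smul_add, ← eta_smul χ sK, d2]), b2, (d3 _ _ ((d9 χ g (hK g hg)).2.1 _ (hX t g hg))
        (by rw [← eta_smul χ sK, b1, map_zero])).1, (d9 χ s sK).1 _ b1, dl, dl]
  set σ := ∑ t, r t *
    φ (co (gq M) (dv M (X t) + eta χ s (dv M (X t)) - dv M (X t + eta χ s (X t)))) with hσ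
  set e : GQ → R := fun g => 2 * c g - ∑ t, r t * dl φ M χ g (X t + eta χ s (X t)) -
    (lamZ φ χ M g - 1) * (m + lamZ φ χ M s * m + σ - c s) with he
  have e1 : ∀ g ∈ D, ∀ h ∈ D, e (g * h) = e g + lamZ φ χ M g * e h := fun g hg h hh => by
    simp only [he]
    rw [hc g hg h hh, lm g hg h hh, sum_congr rfl fun t _ => congrArg (r t * ·)
      (coc_LOC hDL hM hφ hχ (hD hg) (hD hh) (hY t g hg) (hY t h hh))]
    simp only [mul_add (r _), sum_add_distrib, mul_left_comm (r _), ← mul_sum]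
    ring
  have e2 : ∀ g ∈ D', e g = 0 := fun g hg => by
    have b1 := cj c hc g hg
    have b2 := lm s hs _ (hle (hcj g hg))
    rw [mul_inv_cancel_left, lm g (hle hg) s hs] at b2
    have b3 := hm g hg
    have b4 := hm _ (hcj g hg)
    simp only [he]
    rw [sum_congr rfl fun t _ => congrArg (r t * ·) (a1 g hg t)]
    simp only [mul_add (r _), mul_sub (r _), sum_add_distrib, sum_sub_distrib,
      mul_left_comm (r _), ← mul_sum]
    rw [← hσ]
    linear_combination b3 + lamZ φ χ M s * b4 - b1 - m * b2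
  have e3 : e s + lamZ φ χ M s * e s = 0 := by rw [← e1 s hs s hs, e2 _ hss]
  have e4 : ∀ g ∈ D, e g = (lamZ φ χ M g - 1) * (-u * e s) := hcs _ fun g hg => by
    have b1 := cj e e1 g hg
    rw [e2 _ (hcj g hg), e2 g hg] at b1
    rw [e1 g (hle hg) s hs, lm g (hle hg) s hs, e2 g hg]
    constructor
    · linear_combination -u * b1
    · linear_combination (u * lamZ φ χ M g) * e3 - (lamZ φ χ M g * e s) * hu - u * b1
  refine ⟨ι, inferInstance, fun t => u * r t, _, hY,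
    u * (m + lamZ φ χ M s * m + σ - c s - u * e s), fun g hg => ?_⟩
  have b := e4 g hg
  simp only [mul_assoc u, ← mul_sum]
  rw [he] at b
  simp only at b
  linear_combination u * b - c g * hu

theorem cn_LOC {n : Finset ℕ} {i i' : JJ} (h : ∀ l ∈ n, i l = i' l) : Cn n i = Cn n i' :=
  sup_congr rfl fun l hl => by rw [h l hl]

theorem ori_LOC (hCN : CN_st) (H : HS) {n : Finset ℕ} (hn : Pn n) (i : JJ) (a : ℕ) :
    H.y (Cn n (i + a • Lu ω)) =
      (ω : Zw) ^ ((H.j (sd n)).val * a) • (H.y (Cn n i) + (a * H.io.val) • T0) := by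
  have hw : ∀ b c : ℕ, (ω : Zw) ^ b • c • T0 = c • T0 := fun b c => by
    rw [smul_comm]
    congr 1
    induction b with
    | zero => rw [pow_zero, one_smul]
    | succ b ih => rw [pow_succ, mul_smul, w_T0, ih]
  induction a with
  | zero => simp
  | succ a ih =>
    obtain ⟨-, c2, -, -, c5⟩ := hCN n (i + a • Lu ω) hn
    rw [succ_nsmul, ← add_assoc, ← c5 ω fun l _ =>
      ⟨ω ^ 2, 0, by rw [zero_mul, add_zero, ← pow_succ, www]⟩, H.ori _ _ c2, ih, ← mul_smul,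
      ← pow_add, smul_add, smul_add, hw, hw, add_assoc, ← add_nsmul, mul_add, mul_one,
      add_comm (H.j (sd n)).val, add_mul, one_mul]

theorem LOC_pf (hDL : DL_st) (hAL : AL_st) (hKT : KT_st) (hCN : CN_st) (hS : SUM_st) : LOC_st := by
  intro H R _ φ M w n hM hφ hn D k hD hk τ hτ
  obtain ⟨-, d2, -, -, -, -, -, -, d9⟩ := hDL R φ M hM hφ
  obtain ⟨-, -, -, -, k5, k6, k7, -, k9⟩ := hKT H R φ M w n hM hφ hn
  set χ₀ : GQ → ZMod 3 := fun g => H.χ (sd n) g - H.j (sd n) * k g with hχ₀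
  have τK := hτ.1
  have s1 : ∀ g ∈ D, ∀ i, eta χ₀ g (H.y (Cn n i)) =
      H.y (Cn n i) + ((k g).val * H.io.val) • T0 := fun g hg i => by
    obtain ⟨-, c2, -, c4, -⟩ := hCN n i hn
    have a := H.act _ _ c2 g (hD hg)
    have hw : ∀ a j k : ZMod 3, (ω : Zw) ^ a.val = ω ^ (j.val * k.val) * ω ^ (a - j * k).val := by
      decide
    rw [c4 g (hD hg), cn_LOC (i := i + Av g) (i' := i + (k g).val • Lu ω) fun l hl =>
      congrArg (i l + ·) (hk g hg l hl), ori_LOC hCN H hn, eta_apply,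
      hw _ (H.j (sd n)) (k g), mul_smul] at a
    exact (w_unit.pow _).smul_left_cancel.1 a
  have s2 : ∀ i, gal τ⁻¹ (H.y (Cn n i)) = H.y (Cn n (i + Av τ⁻¹)) := fun i => by
    obtain ⟨-, c2, -, c4, -⟩ := hCN n i hn
    have a := H.act _ _ c2 _ (GK.inv_mem τK)
    rwa [c4 _ (GK.inv_mem τK), eta_apply, H.fac _ _ (UM_mono (dvd_mul_right _ _)
      ((UM _).inv_mem hτ)), ZMod.val_zero, pow_zero, one_smul] at a
  have s3 : ∀ P, gal τ (gal τ⁻¹ P) = P := fun P => by rw [← gal_mul, mul_inv_cancel, gal_one]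
  have s4 : ∀ i, ∀ g ∈ D, eta χ₀ g (gal τ⁻¹ (H.y (Cn n i)) - H.y (Cn n i)) =
      gal τ⁻¹ (H.y (Cn n i)) - H.y (Cn n i) := fun i g hg => by
    rw [s2, map_sub, s1 g hg, s1 g hg, add_sub_add_right_eq_sub]
  refine ⟨Jg n, inferInstance, fun i => wp w n i.1,
    fun i => gal τ⁻¹ (H.y (Cn n i.1)) - H.y (Cn n i.1), fun i => s4 i.1,
    ∑ i : Jg n, wp w n i.1 * φ (co (gq M) (dv M (gal τ⁻¹ (H.y (Cn n i.1))) -
      gal τ (dv M (gal τ⁻¹ (H.y (Cn n i.1)))) -
        dv M (gal τ⁻¹ (H.y (Cn n i.1)) - H.y (Cn n i.1)))), fun g hg => ?_⟩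
  have gK := hD hg
  obtain ⟨a1, a2⟩ := k5 _ (k7 τ τK g gK)
  have a3 := k6 _ _ a1
  obtain ⟨a4, a5, -⟩ := k9 _ a3
  rw [HS.kc, a5, mul_sum, ← sum_add_distrib]
  refine sum_congr rfl fun i _ => ?_
  rw [mul_left_comm, ← mul_add, ← shift_LOC hDL hM hφ χ₀ gK (s4 i.1 g hg)
    (by rw [smul_sub, ← gal_smul τK, d2, s3])]
  congr 1
  set P := dv M (gal τ⁻¹ (H.y (Cn n i.1))) with hP
  set t := ((k g).val * H.io.val) • T0 with ht
  have b1 : pw • t = 0 := by rw [ht, smul_comm, pw_T0, smul_zero]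
  have b2 : M • (eta χ₀ g (gal τ P) - dv M t) = H.y (Cn n i.1) := by
    rw [smul_sub, ← eta_smul χ₀ gK, ← gal_smul τK, d2, d2, s3, s1 g hg, add_sub_cancel_right]
  have b3 : (9 * M) • (eta χ₀ g P - P) = 0 := by
    rw [mul_smul, smul_sub M, ← eta_smul χ₀ gK, d2, s2, s1 g hg, add_sub_cancel_left]
    exact dvd_smul b1 ⟨pw ^ 3, by decide⟩
  have b4 := hτ.2 _ b3
  have b5 : eta (H.χ (sd n)) (τ * g * τ⁻¹ * g⁻¹) (eta χ₀ g (gal τ P)) = gal τ (eta χ₀ g P) := by
    rw [eta_apply, a2, ZMod.val_zero, pow_zero, one_smul, eta_apply, eta_apply, gal_smul a1.1,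
      gal_smul τK, ← gal_mul, ← gal_mul, ← gal_mul, inv_mul_cancel_right, inv_mul_cancel_right]
  rw [((d9 _ _ a1.1).2.2 a3.2.1).2.1 _ _ (a4 i.1) b2, map_sub, b5,
    a1.2.1 _ (by rw [mul_smul, d2, b1])]
  congr 2
  rw [map_sub] at b4 ⊢
  linear_combination (norm := abel) b4

end Pool.Agent.MP_e23604_nt.N

end
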