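import Pool.Agent.Mg.Fe23604m.Gad4bd4
import Pool.Agent.Mg.Fe23604m.G300596
import Pool.Agent.Mg.Fe23604m.G4a1d09
import Pool.Agent.Mg.Fe23604m.G81b338
import Pool.Agent.Mg.Fe23604m.G5a860c

set_option linter.all false

section

/-!
Complex multiplication of the subgroup.
-/

set_option autoImplicit false

open Finset QuadraticAlgebra
open scoped Classical

namespace Pool.Agent.MP_e23604_nt.Un

open B R S W

variable {b : Zw} {C : AddSubgroup Pt}

theorem wp_lg {z : ℂ} {P : Pt} (h : lg P - z ∈ L0.lattice) : wp L0 z = eC (xc P) := by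
  rw [← lg_x, ← wp_per (z := z) h, add_sub_cancel]

/-- the fibres of the multiplication by `b` -/
theorem fib_prod {P Q : Pt} (hP : b • P ≠ 0) (hQ : b • Q ≠ 0) :
    ∏ T ∈ tor b, (xc (P + T) - xc Q) =
      (∏ T ∈ (tor b).erase 0, (xc T - xc Q)) * (W.io b ^ 2 * (xc (b • P) - xc (b • Q))) := by
  have hb := (smul_ne hP).1
  have b0 : iz b ≠ 0 := fun e => hb (iz_inj (e.trans (map_zero _).symm))
  obtain ⟨L, hL⟩ : ∃ L, Sc (iz b) L L0 :=
    ⟨_, inv_inv (iz b) ▸ (scl_sc (iz b)⁻¹ (inv_ne_zero b0) L0).symm⟩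
  have m : ∀ T : Pt, lg T ∈ L.lattice ↔ b • T = 0 := fun T => by
    rw [← hL.2, ← lg_mem, ← L0.lattice.add_mem_iff_right (lg_smul b T), sub_add_cancel]
  have inj : ∀ s : Finset Pt, Set.InjOn lg s := fun s T _ U _ e =>
    lg_sub_mem.1 (by rw [e, sub_self]; exact zero_mem _)
  have rp : Rep L0 L ((tor b).image lg) := by
    refine ⟨fun z hz => (hL.2 z).1 (L0_mul b hz), fun x hx => ?_, fun y hy => ?_⟩
    · obtain ⟨T, hT, rfl⟩ := mem_image.1 hx
      exact (m T).2 ((mem_tor hb).1 hT)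
    · obtain ⟨T, -, e⟩ := ex_lg (nn_pos hb) (z := y) (by
        have := L0_mul (star b) ((hL.2 y).2 hy)
        rwa [← mul_assoc, ← map_mul, mul_comm (star b), mul_star_nn, map_natCast] at this)
      refine ⟨lg T, ⟨mem_image_of_mem _ ((mem_tor hb).2 ((m T).1 ?_)), ?_⟩, ?_⟩
      · simpa using add_mem ((hL.2 _).1 (L0_mul b e)) hy
      · simpa using neg_mem e
      · rintro x ⟨hx, e'⟩
        obtain ⟨U, -, rfl⟩ := mem_image.1 hx
        rw [lg_sub_mem.1 (show lg T - lg U ∈ L0.lattice by simpa using add_mem e e')]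
  have k := rp.prod_p (fun e => hP ((m P).1 e)) fun e => hQ ((m Q).1 e)
  have w : ∀ T : Pt, wp L (lg T) = iz b ^ 2 * eC (xc (b • T)) := fun T => by
    rw [← wp_lg (lg_smul b T), hL.wp_mul, mul_inv_cancel_left₀ (pow_ne_zero 2 b0)]
  rw [filter_image, prod_image (inj _), prod_image (inj _), w, w, lg_x,
    show (tor b).filter (fun T => lg T ∉ L0.lattice) = (tor b).erase 0 by
      ext T
      simp [lg_mem, and_comm]] at k
  refine eC.injective ?_
  simp only [map_prod, map_mul, map_sub, map_pow, ← lg_x] at k ⊢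
  rw [← mul_sub] at k
  refine (Eq.trans (prod_congr rfl fun T _ => ?_) k).trans rfl
  rw [wp_lg (lg_add P T), lg_x]

theorem fib_kk {P Q : Pt} (hP : b • P ≠ 0) (hQ : b • Q ≠ 0) :
    ∏ T ∈ tor b, (xc Q - xc (P + T)) =
      (∏ T ∈ (tor b).erase 0, (xc Q - xc T)) * (W.io b ^ 2 * (xc (b • Q) - xc (b • P))) := by
  have c := card_erase_add_one (zero_tor (smul_ne hP).1)
  simp only [← neg_sub (xc _) (xc Q), prod_neg, fib_prod hP hQ, ← c]
  ring

theorem qC_prod {A : Type} [CommMonoid A] (hb : b ≠ 0) (h : (C : Set Pt).Finite) (q : Pt → Pt)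
    (hq : ∀ U, b • q U = U) (F : Pt → A) :
    ∏ T ∈ els (qC b C), F T = ∏ U ∈ els C, ∏ T ∈ tor b, F (q U + T) :=
  qC_sum (A := Additive A) hb h q hq F

theorem kk_qC (h : (C : Set Pt).Finite) {Q : Pt} (hQ : b • Q ≠ 0) :
    kk (qC b C) (xc Q) = (∏ T ∈ (tor b).erase 0, (xc Q - xc T)) ^ cd C *
      (W.io b ^ 2) ^ (cd C - 1) * kk C (xc (b • Q)) := by
  have hb := (smul_ne hQ).1
  choose q hq using smul_onto hb
  have z0 := (mem_els h).2 C.zero_mem
  have k := qC_prod hb h (fun U => if U = 0 then 0 else q U)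
    (fun U => by split_ifs with e <;> simp [e, hq]) fun T => if T = 0 then (1 : Qb) else xc Q - xc T
  have er : ∀ (s : Finset Pt) (F : Pt → Qb), ∏ T ∈ s, (if T = 0 then 1 else F T) =
      ∏ T ∈ s.erase 0, F T := fun s F => by
    rw [← prod_erase s (a := 0) (by simp)]
    exact prod_congr rfl fun T hT => if_neg (ne_of_mem_erase hT)
  rw [er, ← mul_prod_erase _ _ z0] at k
  simp only [if_true, zero_add, er] at k
  rw [kk, k, prod_congr rfl fun U hU => (prod_congr rfl fun T hT => by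
      rw [if_neg (ne_of_mem_erase hU), if_neg fun e => ne_of_mem_erase hU (by
        simpa [hq, (mem_tor hb).1 hT] using congrArg (b • ·) e)]).trans
      (fib_kk (by rw [hq]; exact ne_of_mem_erase hU) hQ)]
  simp only [hq, prod_mul_distrib, prod_const, kk, cd, ← card_erase_add_one z0]
  rw [Nat.add_sub_cancel]
  ring

theorem els_mC (h : (C : Set Pt).Finite) : (mC b C : Set Pt).Finite ∧
    els (mC b C) = (els C).image (b • ·) := by
  have h' : (mC b C : Set Pt).Finite := h.image _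
  refine ⟨h', ?_⟩
  ext T
  simp only [mem_els h', mem_mC, mem_image, mem_els h]

theorem pw_inj (h : ND C) {T : Pt} (hT : T ∈ C) (e : pw • T = 0) : T = 0 := by
  refine cop_smul (pw_prime.coprime_iff_not_dvd.2 (fun k => h.c3 ?_)) e (b := cd C)
    (by rw [Nat.cast_smul_eq_nsmul, cd_nsmul h.fin hT])
  rw [pw_dvd_iff, nn_nat] at k
  exact Nat.prime_three.dvd_of_dvd_pow k

theorem pw_nd (h : ND C) : ND (mC pw C) ∧ cd (mC pw C) = cd C := by
  have e : cd (mC pw C) = cd C := by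
    rw [cd, (els_mC h.fin).2]
    refine card_image_of_injOn fun T hT U hU e => sub_eq_zero.1 (pw_inj h
      (sub_mem ((mem_els h.fin).1 hT) ((mem_els h.fin).1 hU)) ?_)
    rw [smul_sub, sub_eq_zero]
    exact e
  exact ⟨⟨(els_mC h.fin).1, e ▸ h.c3⟩, e⟩

theorem pw_qC (hb : Pry b) : mC pw (qC b C) = qC b (mC pw C) := by
  ext T
  simp only [mem_mC, mem_qC]
  constructor
  · rintro ⟨P, hP, rfl⟩
    exact ⟨_, hP, smul_comm _ _ _⟩
  · rintro ⟨U, hU, e⟩
    obtain ⟨P, rfl⟩ := smul_onto pw_ne T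
    have k : pw • (b • P - U) = 0 := by rw [smul_sub, e, smul_comm, sub_self]
    refine ⟨P - (b • P - U), ?_, by rw [smul_sub, k, sub_zero]⟩
    rwa [smul_sub, hb.smul (dvd_smul k pw_dvd3), sub_sub_cancel]

theorem kk_pry (hb : Pry b) (h : (C : Set Pt).Finite) {z : Qb} (hz : z = 0 ∨ z ^ 3 = -1) :
    kk (qC b C) z = (∏ T ∈ (tor b).erase 0, (z - xc T)) ^ cd C *
      (W.io b ^ 2) ^ (cd C - 1) * kk C z := by
  obtain ⟨Q, h0, rfl⟩ := ex_pt z
  have e := hb.smul ((PI_ok.2.2.2.1 Q).2 hz)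
  rw [kk_qC h (e.symm ▸ h0), e]

theorem w3_mod {m n : ℕ} (h : m % 3 = n % 3) : w3 ^ m = w3 ^ n := by
  rw [← pow_mod_orderOf, ← w3_prim.eq_orderOf, h, w3_prim.eq_orderOf, pow_mod_orderOf]

theorem tor_rot (hb : Pry b) (z : Qb) (i : ℕ) : ∏ T ∈ (tor b).erase 0, (w3 ^ i * z - xc T) =
    ∏ T ∈ (tor b).erase 0, (z - xc T) := by
  induction i with
  | zero => simp
  | succ i ih =>
    have c := card_erase_add_one (zero_tor hb.ne)
    have := nn_mod3 hb.pw
    rw [CARD_ok b hb.ne] at c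
    rw [← prod_tor0_smul (b := ω) hb.ne ⟨0, ω ^ 2, by rw [← www]; ring⟩]
    simp only [(xc_w _).1, pow_succ', mul_assoc, ← mul_sub, prod_mul_distrib, prod_const, ih]
    rw [w3_mod (n := 0) (by omega), pow_zero, one_mul]

theorem wpt_NMUL {x y : Qb} (h : On 0 1 x y) (m : ℕ) :
    On 0 1 (w3 ^ m * x) y ∧ (ω : Zw) ^ m • pt 0 1 x y = pt 0 1 (w3 ^ m * x) y := by
  induction m with
  | zero => simpa using h
  | succ m ih =>
    rw [pow_succ', pow_succ', mul_smul, ih.2, mul_assoc]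
    exact ⟨on_w ih.1, w_pt ih.1⟩

theorem NMUL_of (hN : NON_st) : NMUL_st := by
  intro b hb
  have h1 := nn_mod3 hb.pw
  set κ := ∏ T ∈ (tor b).erase 0, (-1 - xc T)
  set μ := cbr 3 ^ (nn b - 1) * ∏ T ∈ (tor b).erase 0, (0 - xc T)
  have nd : ∀ C, ND C → ND (qC b C) := fun C h => ⟨qC_fin hb.ne h.fin, fun e => by
    rw [qC_cd hb.ne h.fin, Nat.prime_three.dvd_mul] at e
    exact e.elim (by omega) h.c3⟩
  have hk : ∀ C : AddSubgroup Pt, (C : Set Pt).Finite → ∀ i : ℕ, kk (qC b C) (-w3 ^ i) =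
      κ ^ cd C * (W.io b ^ 2) ^ (cd C - 1) * kk C (-w3 ^ i) := fun C h i => by
    rw [kk_pry hb h (.inr (by rw [neg_pow, ← pow_mul, w3_mod (n := 0) (by omega)]; norm_num)),
      ← mul_neg_one, tor_rot hb]
  have hE : ∀ k C i, ND C → nE k (qC b C) i =
      (κ ^ 2) ^ cd C * ((W.io b ^ 2) ^ (cd C - 1)) ^ 2 * nE k C i := fun k C i h => by
    rw [nE, nE, pw_qC hb, hk _ h.fin, hk _ (pw_nd h).1.fin, (pw_nd h).2, qC_cd hb.ne h.fin,
      w3_mod (n := nj k * cd C * i) (by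
        rw [mul_comm (nn b), ← mul_assoc, mul_right_comm, Nat.mul_mod, h1]; simp)]
    ring
  have hB : ∀ C, ND C → nB (qC b C) =
      (μ ^ 2) ^ cd C * ((W.io b ^ 2) ^ (cd C - 1)) ^ 2 * nB C := fun C h => by
    rw [nB, nB, pw_qC hb, kk_pry hb h.fin (.inl rfl), kk_pry hb (pw_nd h).1.fin (.inl rfl),
      (pw_nd h).2, qC_cd hb.ne h.fin]
    obtain ⟨m, hm⟩ := Nat.exists_eq_add_one_of_ne_zero (nn_pos hb.ne).ne'
    obtain ⟨n, hn⟩ := Nat.exists_eq_add_one_of_ne_zero (cd_pos h.fin).ne'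
    simp only [μ, hm, hn, Nat.add_sub_cancel, show (m + 1) * (n + 1) - 1 = m * (n + 1) + n from
      Nat.sub_eq_of_eq_add (by ring)]
    ring
  have b1 : cd ⊥ = 1 := by rw [cd_card (by simp)]; simp
  have b0 : ND ⊥ := ⟨by simp, by omega⟩
  obtain ⟨-, -, -, a1, -, a2, -⟩ := hN 0 _ (nd _ b0)
  obtain ⟨-, -, -, a3, -, a4, -⟩ := hN 0 _ b0
  simp only [hE _ _ _ b0, hB _ b0, b1, Nat.sub_self, pow_zero, pow_one, one_pow, mul_one] at a1 a2
  have m0 : μ ^ 2 ≠ 0 := left_ne_zero_of_mul a1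
  have c3 : (κ ^ 2 / μ ^ 2) ^ 3 = 1 := by
    rw [div_pow, div_eq_one_iff_eq (pow_ne_zero _ m0)]
    exact mul_right_cancel₀ (pow_ne_zero 3 a3) (by linear_combination a2 - (κ ^ 2) ^ 3 * a4)
  have hj := pow_lg c3
  refine ⟨(S.lg (κ ^ 2 / μ ^ 2)).val, fun k C h => ?_⟩
  obtain ⟨on, -, e1, e2, -⟩ := hN k _ h
  obtain ⟨-, -, e3, e4, -⟩ := hN k _ (nd _ h)
  have e5 := left_ne_zero_of_mul (hE k C 0 h ▸ e3 0)
  have e6 := left_ne_zero_of_mul (hB C h ▸ e4)
  have hY : nY k (qC b C) = nY k C := by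
    simp only [nY, hE _ _ _ h]
    rw [← mul_sub, ← mul_sub, mul_left_comm, mul_div_mul_left _ _ e5]
  refine ⟨nd _ h, qC_cd hb.ne h.fin, hY, ?_⟩
  rw [ny, ny, hY, (wpt_NMUL on _).2, pow_mul, hj]
  congr 1
  have := (pow_ne_zero_iff two_ne_zero).1 (right_ne_zero_of_mul e6)
  simp only [nX, hE _ _ _ h, hB _ h, div_pow]
  field_simp

end Pool.Agent.MP_e23604_nt.Un

end

section

/-!
The second family of Heegner points is a system of points.
-/

set_option autoImplicit false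

open Finset QuadraticAlgebra
open scoped Classical

namespace Pool.Agent.MP_e23604_nt.Un

open B R S W NC AddSubgroup

namespace HN

/-- generators of the subgroups of order `l` -/
structure Lf (l : ℕ) {ι : Type} (R : ι → Pt) : Prop where
  tor : ∀ i, (l : Zw) • R i = 0
  ne : ∀ i, R i ≠ 0
  inj : Function.Injective fun i => zmultiples (R i)
  all : ∀ T, (l : Zw) • T = 0 → T ≠ 0 → ∃ i, T ∈ zmultiples (R i)

section

variable {l : ℕ} {ι : Type} {R : ι → Pt} {C : AddSubgroup Pt}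

theorem line_eq (hl : l.Prime) {P T : Pt} (hP : (l : Zw) • P = 0) (hT : T ∈ zmultiples P)
    (h0 : T ≠ 0) : zmultiples T = zmultiples P := by
  obtain ⟨n, rfl⟩ := mem_zmultiples_iff.1 hT
  have P0 : P ≠ 0 := fun e => h0 (by rw [e, smul_zero])
  obtain ⟨f, e⟩ := card_line hl hP P0
  obtain ⟨f', e'⟩ := card_line hl (R := n • P) (by rw [smul_comm, hP, smul_zero]) h0
  have : Finite (zmultiples P) := f
  exact eq_of_le_of_card_ge (zmultiples_le_of_mem hT) (by rw [← cd_eq f, ← cd_eq f', e, e'])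

theorem Lf.inj' (h : Lf l R) : Function.Injective R := fun _ _ e => h.inj (congrArg zmultiples e)

theorem Lf.nbs [Fintype ι] (h : Lf l R) (hl : l.Prime) (f : (C : Set Pt).Finite)
    (n : ¬ l ∣ cd C) : Nbs C l (univ.image R) := by
  have cp : IsCoprime (l : Zw) (cd C) := Nat.Coprime.cast (hl.coprime_iff_not_dvd.2 n)
  refine ⟨fun P hP => ?_, fun T h1 h2 => ?_⟩
  · obtain ⟨i, -, rfl⟩ := mem_image.1 hP
    exact ⟨by rw [← Nat.cast_smul_eq_nsmul Zw, h.tor]; exact C.zero_mem,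
      fun e => h.ne i (cop_smul cp (h.tor i) (cd_smul f e))⟩
  obtain ⟨a, b, e⟩ : IsCoprime (l : ℤ) (cd C) := Nat.Coprime.cast (hl.coprime_iff_not_dvd.2 n)
  have e1 : T = a • l • T + b • cd C • T := by
    rw [← natCast_zsmul, ← natCast_zsmul, ← mul_smul, ← mul_smul, ← add_smul, e, one_smul]
  have t1 : (l : Zw) • cd C • T = 0 := by
    rw [smul_comm, Nat.cast_smul_eq_nsmul, cd_nsmul f h1]
  have t0 : cd C • T ≠ 0 := fun x => h2 (by rw [e1, x, smul_zero, add_zero]; exact zsmul_mem h1 a)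
  obtain ⟨i, hi⟩ := h.all _ t1 t0
  refine ⟨R i, ⟨mem_image_of_mem _ (mem_univ i), e1 ▸ add_mem_sup (zsmul_mem h1 a) (zsmul_mem hi b)⟩,
    fun P ⟨hP, hT⟩ => ?_⟩
  obtain ⟨j, -, rfl⟩ := mem_image.1 hP
  obtain ⟨x, hx, y, hy, rfl⟩ := AddSubgroup.mem_sup.1 hT
  have : cd C • (x + y) ∈ zmultiples (R j) := by
    rw [smul_add, cd_nsmul f hx, zero_add]
    exact nsmul_mem hy _
  exact congrArg R (h.inj ((line_eq hl (h.tor j) this t0).symm.trans (line_eq hl (h.tor i) hi t0)))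

theorem mC_line (b : Zw) (P : Pt) : mC b (zmultiples P) = zmultiples (b • P) :=
  AddMonoidHom.map_zmultiples _ _

theorem mC_sup (b : Zw) (P : Pt) : mC b (C ⊔ zmultiples P) = mC b C ⊔ zmultiples (b • P) := by
  rw [← mC_line]
  exact AddSubgroup.map_sup _ _ _

theorem Lf.smul (h : Lf l R) (hl : l.Prime) {b : Zw} (c : IsCoprime b l) :
    Lf l fun i => b • R i := by
  have k : ∀ T : Pt, (l : Zw) • T = 0 → b • T = 0 → T = 0 := fun T h1 h2 => cop_smul c h2 h1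
  refine ⟨fun i => by rw [smul_comm, h.tor, smul_zero], fun i e => h.ne i (k _ (h.tor i) e),
    fun i j e => h.inj ?_, fun T h1 h0 => ?_⟩
  · obtain ⟨n, hn⟩ : b • R i ∈ zmultiples (b • R j) :=
      (show zmultiples (b • R i) = zmultiples (b • R j) from e) ▸ mem_zmultiples _
    have := k (n • R j - R i) (by rw [smul_sub, smul_comm, h.tor, h.tor, smul_zero, sub_zero])
      (by rw [smul_sub, smul_comm, sub_eq_zero]; exact hn)
    exact line_eq hl (h.tor j) ⟨n, sub_eq_zero.1 this⟩ (h.ne i)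
  · obtain ⟨x, y, e⟩ := c
    have e1 : b • x • T = T := by
      rw [← mul_smul, smul_congr h1 (b := 1) ⟨-y, by linear_combination e⟩, one_smul]
    obtain ⟨i, hi⟩ := h.all (x • T) (by rw [smul_comm, h1, smul_zero])
      fun z => h0 (by rw [← e1, z, smul_zero])
    exact ⟨i, by rw [← mC_line]; exact ⟨_, hi, e1⟩⟩

theorem nd_mC (h : ND C) (b : Zw) : ND (mC b C) ∧ cd (mC b C) ∣ cd C := by
  have f : ((mC b C : AddSubgroup Pt) : Set Pt).Finite := h.fin.image _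
  have d : cd (mC b C) ∣ cd C := by
    rw [cd_eq f, cd_eq h.fin]
    exact AddSubgroup.card_map_dvd _ _
  exact ⟨⟨f, fun e => h.c3 (e.trans d)⟩, d⟩

theorem mC_qC {b : Zw} (h : Pry b) : mC pw (qC b C) = qC b (mC pw C) := by
  ext T
  refine ⟨fun ⟨U, h1, e⟩ => ⟨b • U, h1, e ▸ smul_comm pw b U⟩, fun ⟨S, h1, e⟩ => ?_⟩
  obtain ⟨U, rfl⟩ := smul_onto pw_ne T
  have e1 : pw • (b • U - S) = 0 := by rw [smul_sub, smul_comm, sub_eq_zero]; exact e.symm
  refine ⟨U - (b • U - S), ?_, (smul_sub _ _ _).trans (by rw [e1, sub_zero])⟩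
  rwa [SetLike.mem_coe, mem_qC, smul_sub, h.smul (dvd_smul e1 pw_dvd3), sub_sub_cancel]

/-- the units without the roots of unity -/
noncomputable def nG (k : ℕ) (C : AddSubgroup Pt) (i : ℕ) : Qb :=
  kk C (-w3 ^ i) * kk (mC pw C) (-w3 ^ (i + k))

theorem nE_cube (k i : ℕ) : nE k C i ^ 3 = nG k C i ^ 3 := by
  rw [nE, nG, mul_assoc, mul_pow, ← pow_mul, mul_comm _ 3, pow_mul, w3_cube, one_pow, one_mul]

theorem nY_six (H : NON_st) (k : ℕ) (h : ND C) :
    yc (ny k C) = nY k C ∧ nY k C ^ 6 = nG k C 0 ^ 3 / nG k C 2 ^ 3 := by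
  obtain ⟨o, -, e0, -, -, -, y0, -⟩ := H k C h
  refine ⟨yc_pt o, ?_⟩
  rw [← nE_cube, ← nE_cube, ← y0, eq_div_iff (pow_ne_zero _ (e0 2))]
  ring

theorem prod_nY [Fintype ι] (H : NON_st) (HM : NMUL_st) (HP : NPR_st) (k : ℕ) (h : Lf l R)
    (hl : l.Prime) (l1 : l % 3 = 1) (hC : ND C) (n : ¬ l ∣ cd C) :
    (∏ i, yc (ny k (C ⊔ zmultiples (R i)))) ^ 6 = (yc (ny k C) ^ (l + 1)) ^ 6 := by
  have l3 : l ≠ 3 := by omega
  have pr : Pry l := ⟨(l / 3 : ℕ), by
    have : (l : Zw) = (3 * (l / 3) + 1 : ℕ) := by rw [← l1, Nat.div_add_mod]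
    rw [sub_eq_iff_eq_add]
    exact this.trans (by push_cast; rfl)⟩
  have h' := h.smul hl (pw_prime.coprime_iff_not_dvd.2 pr.pw)
  obtain ⟨-, a1, a2⟩ := HP C l _ hC hl l3 (h.nbs hl hC.fin n)
  obtain ⟨-, -, b2⟩ := HP _ l _ (nd_mC hC pw).1 hl l3
    (h'.nbs hl (nd_mC hC pw).1.fin fun e => n (e.trans (nd_mC hC pw).2))
  obtain ⟨j, hj⟩ := HM l pr
  obtain ⟨q1, -, q2, -⟩ := hj k C hC
  have g : ∀ i, ∏ t, nG k (C ⊔ zmultiples (R t)) i = nG k C i ^ l * nG k (qC l C) i := fun i => by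
    have a3 := a2 (-w3 ^ i)
    have b3 := b2 (-w3 ^ (i + k))
    rw [prod_image h.inj'.injOn] at a3
    rw [prod_image h'.inj'.injOn] at b3
    simp only [nG, mC_sup]
    rw [prod_mul_distrib, a3, b3, mC_qC pr]
    ring
  have y := fun t => nY_six H k (a1 _ (mem_image_of_mem R (mem_univ t))).1
  rw [← prod_pow, prod_congr rfl fun t _ => by rw [(y t).1, (y t).2], prod_div_distrib, prod_pow,
    prod_pow, g, g, (nY_six H k hC).1, pow_succ _ l, mul_pow (nY k C ^ l), pow_right_comm,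
    mul_pow, mul_pow, ← div_mul_div_comm, ← (nY_six H k q1).2, q2, pow_right_comm _ l,
    pow_right_comm _ l, ← div_pow, ← (nY_six H k hC).2]

theorem gen_ne {M : Zw} {T : Pt} (h : Gen M T) (u : ¬ IsUnit M) : T ≠ 0 := fun e =>
  u (isUnit_of_dvd_one ((h 1).1 (by rw [e, smul_zero])))

theorem nu_prime (hl : l.Prime) : ¬ IsUnit (l : Zw) := fun e => by
  have := nn_unit.1 e
  rw [nn_nat] at this
  exact hl.one_lt.ne' (Nat.pow_eq_one.1 this |>.resolve_right two_ne_zero)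

variable {L : ZMod (N.ml l) → AddSubgroup Pt} {a : Zw → ZMod (N.ml l)}

theorem kit_inert (K : N.Kit l L a) (hl : l.Prime) (h3 : l % 3 = 2) :
    ∃ R : ZMod (N.ml l) → Pt, Lf l R ∧ ∀ i, Gen l (R i) ∧ L i = zmultiples (R i) := by
  choose R h1 h2 using K.gen
  refine ⟨R, ⟨fun i => (h1 i).zero, fun i => gen_ne (h1 i) (nu_prime hl),
    fun i j e => K.inj (by rw [h2, h2]; exact e), fun T t1 t0 => ?_⟩, fun i => ⟨h1 i, h2 i⟩⟩
  obtain ⟨i, hi⟩ := K.all T fun b => ⟨fun e => by_contra fun d =>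
    t0 (cop_smul ((inert_prime hl h3).coprime_iff_not_dvd.2 d) t1 e), dvd_smul t1⟩
  exact ⟨i, h2 i ▸ hi⟩

theorem ker_line {p : Zw} (hp : (nn p).Prime) : ∃ Q : Pt, Q ≠ 0 ∧ p • Q = 0 ∧
    (∀ T, p • T = 0 → T ∈ zmultiples Q) ∧
      ∀ C : AddSubgroup Pt, C ⊔ zmultiples Q = qC p (mC p C) := by
  have p0 : p ≠ 0 := fun e => hp.ne_zero (by rw [e]; rfl)
  obtain ⟨Q, hQ⟩ := (CYG_ok p p0).1
  have Q0 := gen_ne hQ fun e => hp.one_lt.ne' (nn_unit.1 e)
  obtain ⟨f, e⟩ := card_line hp (dvd_smul hQ.zero ⟨_, (mul_star_nn p).symm⟩) Q0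
  have s : els (zmultiples Q) ⊆ tor p := fun T hT => by
    obtain ⟨n, rfl⟩ := mem_zmultiples_iff.1 ((mem_els f).1 hT)
    rw [mem_tor p0, smul_comm, hQ.zero, smul_zero]
  have s' := eq_of_subset_of_card_le s (by rw [CARD_ok p p0]; exact e.ge)
  have k : ∀ T, p • T = 0 ↔ T ∈ zmultiples Q := fun T => by rw [← mem_els f, s', mem_tor p0]
  refine ⟨Q, Q0, hQ.zero, fun T => (k T).1, fun C => ?_⟩
  rw [qC, mC, comap_map_eq]
  congr 1
  ext T
  exact (k T).symm

theorem cop_bar {p : Zw} (h : PP p) (hp : (nn p).Prime) : IsCoprime p (star p) := by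
  refine h.1.coprime_iff_not_dvd.2 fun ⟨u, e⟩ => ?_
  have h1 : nn u = 1 := by
    have := congrArg nn e
    rw [nn_star, nn_mul] at this
    exact (Nat.mul_eq_left hp.ne_zero).1 this.symm
  have h2 : Pry u := by
    have a1 := h.2.star
    have a2 := h.2
    unfold Pry at *
    rw [e] at a1
    convert dvd_sub a1 (a2.mul_right u) using 1
    ring
  rw [h2.unit (nn_unit.2 h1), mul_one] at e
  have e1 : p.im = 0 := by
    have := congrArg QuadraticAlgebra.im e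
    rw [im_star] at this
    omega
  have e2 : (nn p : ℤ) = p.re * p.re := by rw [nn_cast, nw_def, e1]; ring
  exact hp.not_isSquare ⟨p.re.natAbs, by rw [← Int.natAbs_mul, ← e2, Int.natAbs_natCast]⟩

theorem kit_split {p : Zw} {L : ZMod (N.ml (nn p)) → AddSubgroup Pt} {a : Zw → ZMod (N.ml (nn p))}
    (K : N.Kit (nn p) L a) (h : PP p) (hp : (nn p).Prime) :
    ∃ R : Option (Option (ZMod (N.ml (nn p)))) → Pt, Lf (nn p) R ∧
      (∀ i, L i = zmultiples (R (some (some i)))) ∧ ∀ C : AddSubgroup Pt,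
      C ⊔ zmultiples (R (some none)) = qC p (mC p C) ∧
        C ⊔ zmultiples (R none) = qC (star p) (mC (star p) C) := by
  choose R h1 h2 using K.gen
  obtain ⟨Q, a1, a2, a3, a4⟩ := ker_line hp
  obtain ⟨Q', b1, b2, b3, b4⟩ := ker_line (p := star p) (by rwa [nn_star])
  have cp := cop_bar h hp
  have d1 : p ∣ nn p := ⟨_, (mul_star_nn p).symm⟩
  have d2 : star p ∣ nn p := Dvd.intro_left _ (mul_star_nn p)
  have k : ∀ {b : Zw} {S T : Pt}, b • S = 0 → zmultiples T = zmultiples S → b • T = 0 :=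
    fun {b S T} e e' => by
      obtain ⟨n, rfl⟩ := mem_zmultiples_iff.1 (e' ▸ mem_zmultiples T)
      rw [smul_comm, e, smul_zero]
  have k2 : ∀ {b : Zw} {S : Pt} {i}, nn b = nn p → b • S = 0 → zmultiples (R i) ≠ zmultiples S :=
    fun {b S i} n e e' => by
      have := nn_dvd ((h1 i b).1 (k e e'))
      rw [nn_nat, n, sq] at this
      exact hp.not_dvd_one (Nat.dvd_of_mul_dvd_mul_left hp.pos (by rwa [mul_one]))
  refine ⟨fun o => o.elim Q' fun o => o.elim Q R, ⟨?_, ?_, ?_, fun T t1 t0 => ?_⟩, h2,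
    fun C => ⟨a4 C, b4 C⟩⟩
  · rintro (_ | _ | i)
    exacts [dvd_smul b2 d2, dvd_smul a2 d1, (h1 i).zero]
  · rintro (_ | _ | i)
    exacts [b1, a1, gen_ne (h1 i) (nu_prime hp)]
  · rintro (_ | _ | i) (_ | _ | j) e
    · rfl
    · exact absurd (cop_smul cp (k a2 e) b2) b1
    · exact absurd e.symm (k2 (nn_star p) b2)
    · exact absurd (cop_smul cp a2 (k b2 e)) a1
    · rfl
    · exact absurd e.symm (k2 rfl a2)
    · exact absurd e (k2 (nn_star p) b2)
    · exact absurd e (k2 rfl a2)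
    · rw [K.inj (show L i = L j by rw [h2, h2]; exact e)]
  · by_cases c1 : p • T = 0
    · exact ⟨some none, a3 T c1⟩
    by_cases c2 : star p • T = 0
    · exact ⟨none, b3 T c2⟩
    have ps : Prime (star p) := (MulEquiv.prime_iff (starRingAut (R := Zw))).2 h.1
    have t2 : (p * star p) • T = 0 := by rw [mul_star_nn, t1]
    obtain ⟨i, hi⟩ := K.all T fun b => ⟨fun e => mul_star_nn p ▸ cp.mul_dvd
      (by_contra fun d => c2 (cop_smul (h.1.coprime_iff_not_dvd.2 d) (by rw [← mul_smul, t2])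
        (by rw [smul_comm, e, smul_zero])))
      (by_contra fun d => c1 (cop_smul (ps.coprime_iff_not_dvd.2 d)
        (by rw [← mul_smul, mul_comm, t2]) (by rw [smul_comm, e, smul_zero]))), dvd_smul t1⟩
    exact ⟨some (some i), (h2 i ▸ hi :)⟩

theorem fo_nd {ε : ZMod 3} (h : N.Fo ε C) : ND C ∧ (cd C : ZMod 3) = ε := by
  have f : Finite C := Nat.finite_of_card_ne_zero fun e => h.1 (by rw [← h.2, e, Nat.cast_zero])
  have e : (cd C : ZMod 3) = ε := by rw [cd_eq f, h.2]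
  exact ⟨⟨f, fun d => h.1 (e ▸ (ZMod.natCast_eq_zero_iff _ _).2 d)⟩, e⟩

theorem w_val (n : ℕ) : (ω : Zw) ^ (n : ZMod 3).val = ω ^ n := by
  rw [ZMod.val_natCast, ← pow_eq_pow_mod n www]

end

end HN

open HN

/-- the system of points -/
theorem HSN_of (H : NON_st) (HT : NTL_st)
    (K : ∀ l : ℕ, l.Prime → l ≠ 3 → N.Kit l (N.Ln l) (N.lu l)) (k : ℕ) :
    ∃ X : N.HS, X.y = ny k ∧ (X.χ = fun ε g => (1 - ε) * kum 3 g) ∧
      (X.j = fun ε => (nj k : ZMod 3) * ε) ∧ X.N1 := by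
  have td := tdt_SKAP (r := 3) three_ne_zero
  have HM := NMUL_of H
  refine ⟨⟨ny k, fun ε g => (1 - ε) * kum 3 g, fun ε => nj k * ε, 1, fun ε g hg h _ => ?_,
    fun ε g hg => ?_, fun ε c hc g hg => ?_, fun ε C h g hg => ?_, fun ε C h => ?_,
    fun ε C l h hl h3 n => ?_, fun ε V f h3 hf => ?_⟩, rfl, rfl, rfl, fun ε C h => ?_,
    fun ε h => ?_, ?_, rfl, fun g _ => ?_, fun g _ => ?_, fun ε C p h pp hp n => ?_⟩
  · beta_reduce
    rw [td g trivial h trivial, ep_pos hg, one_mul, mul_add]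
  · have := FAC_ok 3 1 three_ne_zero one_ne_zero (fun l hl l3 d => absurd (by
      rw [Nat.prime_three.factorization, Finsupp.single_eq_of_ne l3]
      exact dvd_zero 3) d) g (by simpa using hg)
    rw [Nat.cast_ofNat] at this
    rw [this, mul_zero]
  · have e1 := td 1 trivial 1 trivial
    have e2 := td c trivial c⁻¹ trivial
    rw [mul_one, ep_pos GK.one_mem] at e1
    rw [mul_inv_cancel, ep_neg hc] at e2
    rw [mul_assoc, td c trivial _ trivial, td g trivial _ trivial, ep_neg hc, ep_pos hg]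
    linear_combination (ε - 1) * (e1 + e2)
  · obtain ⟨hC, e⟩ := fo_nd h
    obtain ⟨m, hm⟩ := Nat.exists_eq_add_of_le' (cd_pos hC.fin)
    rw [eta_apply, (NGAL_of H k C g hC).2.2.1 hg, ← mul_smul, ← pow_add, ← w_val, ← e, hm,
      Nat.add_sub_cancel, Nat.cast_add, Nat.cast_mul, ZMod.natCast_zmod_val, ZMod.natCast_zmod_val,
      Nat.cast_succ, show (1 - ((m : ZMod 3) + 1)) * kum 3 g + m * kum 3 g = 0 by ring,
      ZMod.val_zero, pow_zero, one_smul]
    rfl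
  · rw [← (fo_nd h).2, ← Nat.cast_mul, w_val]
    exact (NORI_of H k C (fo_nd h).1).2.2
  · obtain ⟨R, h1, h2⟩ := kit_inert (K l hl (by omega)) hl h3
    have hC := (fo_nd h).1
    have := HT k C l _ hC hl h3 (h1.nbs hl hC.fin (cd_eq hC.fin ▸ n))
    rw [sum_image h1.inj'.injOn] at this
    simpa only [(h2 _).2] using this
  · obtain ⟨u, hu, e⟩ := NCONG_gen (NCONG_of H) V f h3 hf
    obtain ⟨R, -, h2⟩ := kit_inert (K V.l V.hl.out (by omega)) V.hl.out h3
    exact ⟨u, hu, fun C h n i => (h2 i).2 ▸ e k C (fo_nd h).1 n _ (h2 i).1⟩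
  · obtain ⟨o, -, -, -, x0, -⟩ := H k C (fo_nd h).1
    exact (xc_pt o).trans_ne x0
  · refine mul_ne_zero ?_ h
    unfold nj
    split_ifs <;> decide
  · show (nj k : ZMod 3) * 2 = -(nj k * 1)
    rw [show (2 : ZMod 3) = -1 by decide]
    ring
  · show (1 - 1) * kum 3 g = 0
    rw [sub_self, zero_mul]
  · show (1 - 2) * kum 3 g = 2 * kum 3 g
    rw [show (1 - 2 : ZMod 3) = 2 by decide]
  · obtain ⟨R, h1, h2, h3⟩ := kit_split (K _ hp (by have := nn_mod3 pp.2.pw; omega)) pp hp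
    have hC := (fo_nd h).1
    have := prod_nY H HM NPR_pf k h1 hp (nn_mod3 pp.2.pw) hC (cd_eq hC.fin ▸ n)
    have q : ∀ {b : Zw}, Pry b → yc (ny k (qC b (mC b C))) = yc (ny k (N.sm b C)) := fun {b} hb => by
      obtain ⟨j, hj⟩ := HM b hb
      obtain ⟨q1, -, q2, -⟩ := hj k _ (nd_mC hC b).1
      rw [(nY_six H k q1).1, q2]
      exact (nY_six H k (nd_mC hC b).1).1.symm
    rw [Fintype.prod_option, Fintype.prod_option, (h3 C).1, (h3 C).2, q pp.2, q pp.2.star] at this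
    refine Eq.trans ?_ this
    simp only [h2]
    ring

end Pool.Agent.MP_e23604_nt.Un

end
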