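import Pool.Agent.Mg.Fe23604m.G5a860c
import Pool.Agent.Mg.Fe23604m.G81b338
import Pool.Agent.Mg.Fe23604m.G160902
import Pool.Agent.Mg.Fe23604m.G2dfde4
import Pool.Agent.Mg.Fe23604m.Gad4bd4
import Pool.Agent.Mg.Fe23604m.G3a9098

set_option linter.all false

section

/-!
Dependence of the weighted sums on one weight, and translation of the weights.
-/

set_option autoImplicit false

open Finset QuadraticAlgebra
open scoped Classical

namespace Pool.Agent.MP_e23604_nt.N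

open B R S W

section

variable {R : Type} [CommRing R]

theorem wp_congr_SHC {w w' : Wt R} {n : Finset ℕ} {i i' : JJ}
    (h : ∀ l ∈ n, w l (i l) = w' l (i' l)) : wp w n i = wp w' n i' := prod_congr rfl h

theorem wp_upd_SHC (w : Wt R) {n : Finset ℕ} {l : ℕ} (hl : l ∈ n) (v : ZMod (ml l) → R) (i : JJ) :
    wp (Function.update w l v) n i = v (i l) * wp w (n.erase l) i := by
  unfold wp
  rw [← mul_prod_erase _ _ hl, Function.update_self]
  congr 1
  exact prod_congr rfl fun l' h => by rw [Function.update_of_ne (ne_of_mem_erase h)]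

theorem wp_er_SHC (w : Wt R) (n : Finset ℕ) (l : ℕ) (i : JJ) (a : ZMod (ml l)) :
    wp w (n.erase l) (Function.update i l a) = wp w (n.erase l) i :=
  wp_congr_SHC fun l' h => by rw [Function.update_of_ne (ne_of_mem_erase h)]

theorem kt_congr_SHC (H : HS) (φ : Zw →+* R) (M : Zw) {w w' : Wt R} {n : Finset ℕ} (h : GQ)
    (e : ∀ l ∈ n, w l = w' l) : H.kt φ M w n h = H.kt φ M w' n h :=
  sum_congr rfl fun i _ => by rw [wp_congr_SHC (w' := w') fun l hl => by rw [e l hl]]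

theorem sum_er_SHC (hS : SUM_st) {n : Finset ℕ} {l : ℕ} (hl : l ∈ n) (Φ : JJ → R) :
    ∑ i : Jg n, Φ i.1 = ∑ i : Jg (n.erase l), ∑ a, Φ (Function.update i.1 l a) := by
  have := (hS R (n.erase l) Φ).1 l (notMem_erase l n)
  rwa [insert_erase hl] at this

theorem Cn_upd_SHC {n : Finset ℕ} {l : ℕ} (hl : l ∈ n) (i : JJ) (a : ZMod (ml l)) :
    Cn n (Function.update i l a) = Cn (n.erase l) i ⊔ Ln l a := by
  have e : Cn (n.erase l) (Function.update i l a) = Cn (n.erase l) i :=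
    sup_congr rfl fun l' h => by rw [Function.update_of_ne (ne_of_mem_erase h)]
  rw [← e, sup_comm]
  conv_lhs => rw [← insert_erase hl]
  unfold Cn
  rw [sup_insert, Function.update_self]

/-- the sum with one fixed line -/
noncomputable def Kq_SHC (H : HS) (φ : Zw →+* R) (M : Zw) (w : Wt R) (n : Finset ℕ) (h : GQ)
    (q : ℕ) (a : ZMod (ml q)) : R :=
  ∑ i : Jg (n.erase q), wp w (n.erase q) i.1 *
    dl φ M (H.χ (sd n)) h (H.y (Cn n (Function.update i.1 q a)))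

theorem kt_upd_SHC (hKT : KT_st) (hS : SUM_st) {H : HS} {φ : Zw →+* R} {M : Zw} (w : Wt R)
    {n : Finset ℕ} (hM : M ≠ 0) (hφ : φ M = 0) (hn : Pn n) {h : GQ} (hh : H.H0 M n h) {q : ℕ}
    (hq : q ∈ n) (v : ZMod (ml q) → R) :
    H.kt φ M (Function.update w q v) n h = ∑ a, v a * Kq_SHC H φ M w n h q a := by
  rw [((hKT H R φ M _ n hM hφ hn).2.2.2.2.2.2.2.2 h hh).2.1,
    sum_er_SHC hS hq fun i => wp (Function.update w q v) n i *
      dl φ M (H.χ (sd n)) h (H.y (Cn n i)), sum_comm]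
  refine sum_congr rfl fun a _ => ?_
  unfold Kq_SHC
  rw [mul_sum]
  refine sum_congr rfl fun i _ => ?_
  rw [wp_upd_SHC w hq, wp_er_SHC, Function.update_self, mul_assoc]

theorem sum_zm_SHC {N : ℕ} [NeZero N] (F : ZMod N → R) :
    ∑ a, F a = ∑ k ∈ range N, F (k : ZMod N) :=
  sum_nbij' (fun a => a.val) (fun k => (k : ZMod N)) (fun a _ => mem_range.2 (ZMod.val_lt a))
    (fun _ _ => mem_univ _) (fun a _ => ZMod.natCast_zmod_val a)
    (fun _ hk => ZMod.val_cast_of_lt (mem_range.1 hk))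
    fun a _ => by rw [ZMod.natCast_zmod_val]

theorem sum_cut_SHC {N m : ℕ} [NeZero N] (hm : m ≤ N) (F : ZMod N → R) :
    ∑ a, (if a.val < m then F a else 0) = ∑ k ∈ range m, F (k : ZMod N) := by
  rw [sum_zm_SHC, ← sum_subset (range_subset_range.2 hm) fun k hk hk' => by
    rw [ZMod.val_cast_of_lt (mem_range.1 hk), if_neg (by simpa using hk')]]
  exact sum_congr rfl fun k hk => by
    rw [ZMod.val_cast_of_lt ((mem_range.1 hk).trans_le hm), if_pos (mem_range.1 hk)]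

theorem per_SHC {N m : ℕ} [NeZero N] (G : ZMod N → R) (hG : ∀ a, G (a + m) = G a) (c : ZMod N) :
    ∑ k ∈ range m, G ((k : ZMod N) + c) = ∑ k ∈ range m, G (k : ZMod N) := by
  rw [← ZMod.natCast_zmod_val c]
  induction c.val with
  | zero => simp
  | succ t ih =>
    rw [← ih]
    have h1 := sum_range_succ (fun k : ℕ => G ((k : ZMod N) + (t : ZMod N))) m
    have h2 := sum_range_succ' (fun k : ℕ => G ((k : ZMod N) + (t : ZMod N))) m
    rw [h1, add_comm (m : ZMod N), hG, Nat.cast_zero, zero_add, add_left_inj] at h2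
    rw [h2]
    exact sum_congr rfl fun k _ => by congr 1; push_cast; ring

theorem three_SHC {N m : ℕ} [NeZero N] (hN : N = m + m + m) (G : ZMod N → R)
    (hG : ∀ a, G (a + m) = G a) : ∑ a, G a = 3 * ∑ a, (if a.val < m then G a else 0) := by
  have h1 := per_SHC G hG (m : ZMod N)
  have h2 := per_SHC G hG ((m + m : ℕ) : ZMod N)
  rw [sum_cut_SHC (by omega), sum_zm_SHC]
  have e : ∑ k ∈ range N, G (k : ZMod N) = ∑ k ∈ range (m + m + m), G (k : ZMod N) := by
    rw [← hN]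
  rw [e, sum_range_add, sum_range_add]
  simp only [Nat.cast_add, add_comm (m : ZMod N), add_comm ((m : ZMod N) + m)] at h1 h2 ⊢
  rw [h1, h2]
  ring

theorem cut_SHC {N m : ℕ} [NeZero N] (hm : m ≤ N) (G : ZMod N → R)
    (hG : ∀ a, G (a + m) = G a) (b : ZMod N) :
    ∑ a, (if (a + b).val < m then G a else 0) = ∑ a, (if a.val < m then G a else 0) := by
  rw [sum_cut_SHC hm G, ← per_SHC G hG (-b), ← sum_cut_SHC hm fun a => G (a + -b)]
  exact Fintype.sum_equiv (Equiv.addRight b) _ _ fun a => by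
    simp only [Equiv.coe_addRight, add_neg_cancel_right]

end

theorem SLOT_pf (hDL : DL_st) (hKT : KT_st) (hCN : CN_st) (hS : SUM_st) (hT : TL0_st) :
    SLOT_st := by
  intro H R _ φ M w n hM hφ hn h hh l hl
  have A := kt_upd_SHC hKT hS w hM hφ hn hh hl
  have A0 := A (w l)
  rw [Function.update_eq_self] at A0
  refine ⟨fun v v' a a' e => ?_, fun h2 v a c e => ?_⟩
  · rw [A0, A, A, mul_sum, mul_sum, ← sum_add_distrib]
    exact sum_congr rfl fun i _ => by rw [e]; ring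
  · have hD := (hDL R φ M hM hφ).2.2.2.2.2.2.2.2 (H.χ (sd n)) h hh.1
    have hD2 := (hD.2.2 hh.2.1).2.2.2.2
    have hfix := ((hKT H R φ M w n hM hφ hn).2.2.2.2.2.2.2.2 h hh).1
    have Z : ∑ i, Kq_SHC H φ M w n h l i = 0 := by
      unfold Kq_SHC
      rw [sum_comm]
      refine sum_eq_zero fun i _ => ?_
      have hc := hCN (n.erase l) i.1 fun l' h' => hn l' (mem_of_mem_erase h')
      have h0 := hT H _ _ l hc.2.1 (hn l hl).1 h2 (hc.2.2.1 l (hn l hl).1 (notMem_erase l n))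
      rw [← mul_sum, ← hD2 _ univ (fun a => H.y (Cn n (Function.update i.1 l a)))
        fun a _ => hfix _]
      simp only [Cn_upd_SHC hl]
      have h1 := hD2 Unit ∅ (fun _ => 0) fun _ h' => absurd h' (notMem_empty _)
      rw [sum_empty, sum_empty] at h1
      rw [h0, h1, mul_zero]
    rw [A0, A, mul_sum, ← add_zero (∑ i, a * _), ← mul_zero c, ← Z, mul_sum, ← sum_add_distrib]
    exact sum_congr rfl fun i _ => by rw [e]; ring

theorem SHF_pf (hKT : KT_st) (hS : SUM_st) (hSL : SLOT_st) : SHF_st := by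
  intro H R _ φ M w n hM hφ hn h hh u b s
  induction s using Finset.induction_on with
  | empty =>
    intro _ _
    simp only [notMem_empty, if_false, wp, prod_empty, one_mul]
  | insert a s ha ih =>
    intro hs hA
    have ih' := ih (fun l hl => hs (mem_insert_of_mem hl))
      ⟨fun l hl => hA.mul l (mem_insert_of_mem hl), fun l hl => hA.aff l (mem_insert_of_mem hl)⟩
    obtain ⟨c, hc, e⟩ := hA.aff a (mem_insert_self a s) (b a)
    have hU : Function.update (fun l i => if l ∈ insert a s then w l (i + b l) else w l i : Wt R)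
        a (w a) = fun l i => if l ∈ s then w l (i + b l) else w l i := by
      funext l
      by_cases hl : l = a
      · subst hl
        rw [Function.update_self]
        funext i
        rw [if_neg ha]
      · rw [Function.update_of_ne hl]
        funext i
        simp only [mem_insert, hl, false_or]
    have S1 := hSL H R φ M (fun l i => if l ∈ insert a s then w l (i + b l) else w l i) n hM hφ hn
      h hh a (hs (mem_insert_self a s))
    have hw : wp u (insert a s) b = u a (b a) * wp u s b := prod_insert ha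
    rw [hw, mul_assoc, ← ih', ← hU]
    by_cases h2 : a % 3 = 2
    · exact S1.2 h2 (w a) _ c fun i => (if_pos (mem_insert_self a s)).trans (e i)
    · rw [S1.1 (w a) (w a) (u a (b a)) 0 fun i => (if_pos (mem_insert_self a s)).trans (by
        rw [e, hc h2, zero_mul]), zero_mul, add_zero]

theorem SHC_pf (hLU : LU_st) (hDL : DL_st) (hKT : KT_st) (hCN : CN_st) (hS : SUM_st)
    (hSL : SLOT_st) (hSF : SHF_st) : SHC_st := by
  intro H R _ φ M w n hM hφ hn u
  have hK := hKT H R φ M w n hM hφ hn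
  refine ⟨fun hA => ⟨hA.mul, fun h hh b => ?_⟩, fun q hq hA hu h1 => ?_⟩
  · rw [← hSF H R φ M w n hM hφ hn h (hK.2.2.2.2.2.1 pw h hh) u b n subset_rfl hA]
    exact kt_congr_SHC H φ M h fun l hl => funext fun i => by rw [if_pos hl, sh]
  have sft : ∀ h, H.H0 M n h → ∀ (b : JJ) (v : ZMod (ml q) → R),
      H.kt φ M (Function.update (sh w b) q v) n h =
        wp u (n.erase q) b * H.kt φ M (Function.update w q v) n h := fun h hh b v => by
    rw [← hSF H R φ M (Function.update w q v) n hM hφ hn h hh u b (n.erase q) (erase_subset q n)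
      ⟨hA.mul, fun l hl a => by
        rw [Function.update_of_ne (ne_of_mem_erase hl)]; exact hA.aff l hl a⟩]
    refine kt_congr_SHC H φ M h fun l hl => funext fun i => ?_
    by_cases e : l = q
    · subst e
      rw [if_neg (notMem_erase l n), Function.update_self, Function.update_self]
    · rw [if_pos (mem_erase.2 ⟨e, hl⟩), Function.update_of_ne e, Function.update_of_ne e, sh]
  have hwp : ∀ b : JJ, wp u n b = u q (b q) * wp u (n.erase q) b := fun b =>
    (mul_prod_erase n (fun l => u l (b l)) hq).symm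
  obtain ⟨h3, -, -, -, hω, -⟩ := hLU q (hn q hq).1 (hn q hq).2
  have hN : ml q = ml q / 3 + ml q / 3 + ml q / 3 := by omega
  have per : ∀ h, H.H0 (pw * M) n h → ∀ a,
      u q (a + (ml q / 3 : ℕ)) * Kq_SHC H φ M w n h q (a + (ml q / 3 : ℕ)) =
        u q a * Kq_SHC H φ M w n h q a := fun h hh => by
    have hh0 := hK.2.2.2.2.2.1 pw h hh
    have hD := (((hDL R φ M hM hφ).2.2.2.2.2.2.2.2 (H.χ (sd n)) h hh0.1).2.2 hh0.2.1).2.2
    have hfix := (hK.2.2.2.2.2.2.2.2 h hh0).1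
    have hT : pw • (H.io.val • T0) = 0 := by rw [smul_comm, pw_T0, smul_zero]
    have hT1 : eta (H.χ (sd n)) h (H.io.val • T0) = H.io.val • T0 :=
      hh.2.1 _ (by rw [mul_comm, mul_smul, hT, smul_zero])
    have hT2 : dl φ M (H.χ (sd n)) h (H.io.val • T0) = 0 := by
      unfold dl
      rw [hh.2.1 _ (by rw [mul_smul, (hDL R φ M hM hφ).2.1, hT]), sub_self,
        (hDL R φ M hM hφ).2.2.2.2.1]
    have ori : ∀ i : JJ, dl φ M (H.χ (sd n)) h (H.y (Cn n (i + Lu ω))) =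
        φ (ω ^ (H.j (sd n)).val) * dl φ M (H.χ (sd n)) h (H.y (Cn n i)) := fun i => by
      have hc := hCN n i hn
      have e1 := H.ori _ _ hc.2.1
      rw [hc.2.2.2.2 ω fun l _ => ⟨ω ^ 2, 0, by rw [zero_mul, add_zero, ← pow_succ, www]⟩] at e1
      have e2 := (hD.1 _ _ (hfix (i + Lu ω)) hT1).2
      rw [hT2, sub_zero] at e2
      rw [← e2, ← hD.2.1 _ _ (hfix i), e1, add_sub_cancel_right]
    have KS : ∀ (b : JJ) a, Kq_SHC H φ M (sh w b) n h q a =
        wp u (n.erase q) b * Kq_SHC H φ M w n h q a := fun b a => by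
      have := sft h hh0 b fun x => if x = a then 1 else 0
      rw [kt_upd_SHC hKT hS _ hM hφ hn hh0 hq, kt_upd_SHC hKT hS _ hM hφ hn hh0 hq] at this
      simpa using this
    have st : ∀ a, u q (a + lu q ω) * Kq_SHC H φ M w n h q (a + lu q ω) =
        u q a * Kq_SHC H φ M w n h q a := fun a => by
      have e1 := (hS R (n.erase q) fun i => wp w (n.erase q) i *
        dl φ M (H.χ (sd n)) h (H.y (Cn n (Function.update i q (a + lu q ω))))).2.1
        (fun i i' e => by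
          have e3 : Cn (n.erase q) i = Cn (n.erase q) i' :=
            sup_congr rfl fun l hl => by rw [e l hl]
          rw [wp_congr_SHC (w' := w) (i' := i') fun l hl => by rw [e l hl], Cn_upd_SHC hq,
            Cn_upd_SHC hq, e3]) (Lu ω)
      have e2 : Kq_SHC H φ M w n h q (a + lu q ω) =
          φ (ω ^ (H.j (sd n)).val) * Kq_SHC H φ M (sh w (Lu ω)) n h q a := by
        unfold Kq_SHC
        rw [← e1, mul_sum]
        refine sum_congr rfl fun i _ => ?_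
        have e4 : Function.update (i.1 + Lu ω) q (a + lu q ω) = Function.update i.1 q a + Lu ω := by
          funext l
          by_cases e : l = q
          · subst e
            rw [Function.update_self, Pi.add_apply, Function.update_self, Lu]
          · rw [Function.update_of_ne e, Pi.add_apply, Pi.add_apply, Function.update_of_ne e]
        have e5 : wp (sh w (Lu ω)) (n.erase q) i.1 = wp w (n.erase q) (i.1 + Lu ω) := rfl
        rw [e4, ori, e5]
        ring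
      rw [e2, KS, (hu q hq).2]
      rw [hwp] at h1
      have h1' : u q (lu q ω) * wp u (n.erase q) (Lu ω) * φ (ω ^ (H.j (sd n)).val) = 1 := h1
      linear_combination (u q a * Kq_SHC H φ M w n h q a) * h1'
    intro a
    have e0 := ZMod.natCast_zmod_val (lu q ω)
    rcases hω with e | e
    · rw [← e, e0, st]
    · have e6 : ((ml q / 3 : ℕ) : ZMod (ml q)) = lu q ω + lu q ω := by
        have e7 : ((ml q / 3 + ml q / 3 + ml q / 3 : ℕ) : ZMod (ml q)) = 0 := by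
          rw [← hN, ZMod.natCast_self]
        rw [← e0, e]
        push_cast at e7 ⊢
        linear_combination -e7
      rw [e6, ← add_assoc, st, st]
  have cut : ∀ h, H.H0 M n h → H.kt φ M (Function.update w q (th (u q))) n h =
      ∑ a, if a.val < ml q / 3 then u q a * Kq_SHC H φ M w n h q a else 0 := fun h hh => by
    rw [kt_upd_SHC hKT hS _ hM hφ hn hh hq]
    exact sum_congr rfl fun a _ => by rw [th, ite_mul, zero_mul]
  refine ⟨fun e => ⟨hu, fun h hh b => ?_⟩, fun e h hh => ?_⟩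
  · have hh0 := hK.2.2.2.2.2.1 pw h hh
    have c1 := cut h hh0
    rw [← e, Function.update_eq_self] at c1
    have c2 := sft h hh0 b (sh w b q)
    rw [Function.update_eq_self, kt_upd_SHC hKT hS _ hM hφ hn hh0 hq] at c2
    rw [c2, c1, hwp, ← cut_SHC (by omega) _ (per h hh) (b q), mul_comm (u q (b q)), mul_assoc,
      mul_sum _ _ (u q (b q))]
    congr 1
    refine sum_congr rfl fun a _ => ?_
    rw [sh, e, th, (hu q hq).2]
    split_ifs <;> ring
  · have hh0 := hK.2.2.2.2.2.1 pw h hh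
    have c2 := kt_upd_SHC hKT hS w hM hφ hn hh0 hq (w q)
    rw [Function.update_eq_self, e] at c2
    rw [c2, cut h hh0, three_SHC hN _ (per h hh)]

end Pool.Agent.MP_e23604_nt.N

end

section

/-!
A fourth family of Heegner points on `y ^ 2 + y = x ^ 3`: definitions and statements.
-/

set_option autoImplicit false

open Finset QuadraticAlgebra
open scoped Classical

namespace Pool.Agent.MP_e23604_nt.PH

open B R S W Un

/-- first coordinates of points of order nine -/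
def Rz (z : Qb) : Prop := z ^ 3 - 3 * z ^ 2 + 1 = 0

/-- the next root -/
noncomputable def s1 (z : Qb) : Qb := 1 / (1 - z)

/-- the last root -/
noncomputable def s2 (z : Qb) : Qb := s1 (s1 z)

/-- the elliptic units -/
noncomputable def pE (z : Qb) (C : AddSubgroup Pt) : Qb :=
  (z - s2 z) ^ (2 * cd C) * kk C z * kk C (s1 z) ^ 2

/-- the cube root of their product -/
noncomputable def pD (z : Qb) (C : AddSubgroup Pt) : Qb :=
  (3 * cbr 3) ^ cd C * (kk C z * kk C (s1 z) * kk C (s2 z))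

/-- the Heegner point -/
noncomputable def pf (z : Qb) (C : AddSubgroup Pt) : Pt :=
  tp (pE z C) (pE (s2 z) C) (pE (s1 z) C) (pD z C)

/-- six indices -/
abbrev I6 : Type := ZMod 3 × ZMod 2

/-- six subgroups -/
noncomputable def gr (C : AddSubgroup Pt) (p : I6) : AddSubgroup Pt :=
  mC (ω ^ p.1.val * pw ^ p.2.val) C

/-- a cube root of the square of the product of the six second coordinates -/
noncomputable def pM (z : Qb) (C : AddSubgroup Pt) : Qb :=
  ((z - s2 z) / (s1 z - z)) ^ (4 * cd C) *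
    ((3 * cbr 3) ^ (2 * (cd C - 1)) * (kk C 0 * kk (mC pw C) 0) ^ 3) / ∏ p, kk (gr C p) (s2 z)

/-- the division point that belongs to a cube root of the second coordinate -/
noncomputable def lf (P : Pt) (c : Qb) : Pt :=
  pt 0 1 (c / (c ^ 2 - xc P)) (w3 ^ 2 + W.io pw * c * (c / (c ^ 2 - xc P)))

/-- a point of order three -/
noncomputable def S0 : Pt := pt 0 1 (-1) (w3 ^ 2)

/-- cube roots with a given product -/
def Rts (P : I6 → Pt) (m : Qb) (c : I6 → Qb) : Prop :=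
  (∀ i, c i ^ 3 = yc (P i)) ∧ (∏ i, c i) ^ 2 = m

/-- the division point of a sum of six points -/
noncomputable def Dv (P : I6 → Pt) (m : Qb) : Pt :=
  ∑ i, lf (P i) (Classical.epsilon (Rts P m) i)

/-- admissible data for the division point -/
def Dd (P : I6 → Pt) (m : Qb) : Prop := (∀ i, xc (P i) ≠ 0) ∧ m ^ 3 = (∏ i, yc (P i)) ^ 2

/-- the first divided point -/
noncomputable def y0 (z : Qb) (C : AddSubgroup Pt) : Pt :=
  Dv (fun p => pf z (gr C p)) (pM z C) + (cd C - 1) • S0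

/-- the quotient of `ω ^ k - 1` by `pw` -/
def bb (k : ZMod 3) : Zw := -ω ^ 2 * ∑ t ∈ range k.val, ω ^ t

/-- the divided points -/
noncomputable def yj (j : ZMod 3) (z : Qb) (C : AddSubgroup Pt) : Pt :=
  y0 z C + ∑ p : I6, bb (-(p.1 * (j * cd C))) • pf z (gr C p)

/-- the points before the division -/
noncomputable def yp (j : ZMod 3) (z : Qb) (C : AddSubgroup Pt) : Pt :=
  pw • ∑ p : I6, (ω : Zw) ^ (-(p.1 * (j * cd C))).val • pf z (gr C p)

/-- congruent units -/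
def Cu (V : Plc) (a b : Qb) : Prop := V.v a = 1 ∧ V.v b = 1 ∧ V.v (a - b) < 1

/-- the three roots -/
def RZ_st : Prop := (∃ z, Rz z) ∧ ∀ z, Rz z →
  Rz (s1 z) ∧ Rz (s2 z) ∧ s1 (s2 z) = z ∧ s2 (s1 z) = z ∧ s2 (s2 z) = s1 z ∧
  ((z - s2 z) * (s1 z - z) * (s2 z - s1 z)) ^ 2 = 81 ∧
  (∀ x, (z - x) * (s1 z - x) * (s2 z - x) = -(x ^ 3 - 3 * x ^ 2 + 1)) ∧
  (∀ z', Rz z' → z' = z ∨ z' = s1 z ∨ z' = s2 z) ∧
  (∀ g : GQ, Rz (g z) ∧ g (s1 z) = s1 (g z) ∧ g (s2 z) = s2 (g z)) ∧ (∀ g ∈ UM 9, g z = z) ∧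
  ∃ P : Pt, xc P = z ∧ xc (4 • P) = s1 z ∧ xc (2 • P) = s2 z ∧ 9 • P = 0 ∧ xc (3 • P) = 0 ∧
    3 • P ≠ 0 ∧ xc (pw • P) = -1

/-- the six subgroups -/
def GR_st : Prop := ∀ C : AddSubgroup Pt, ND C →
  (∀ p, ND (gr C p) ∧ cd (gr C p) = cd C) ∧ ND (mC ω C) ∧ cd (mC ω C) = cd C ∧
  (∀ p : I6, gr (mC ω C) p = gr C (p.1 + 1, p.2)) ∧
  (∀ i : ZMod 3, gr C (i, 0) = mC (ω ^ i.val) C ∧ gr C (i, 1) = mC (ω ^ i.val) (mC pw C)) ∧
  (∀ g ∈ GK, ∀ p, gr (C.map (gal g)) p = (gr C p).map (gal g)) ∧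
  ∀ (p : I6) (T : Pt), gr (C ⊔ AddSubgroup.zmultiples T) p =
    gr C p ⊔ AddSubgroup.zmultiples (((ω : Zw) ^ p.1.val * pw ^ p.2.val) • T)

/-- the point lies on the curve -/
def FON_st : Prop := ∀ (z : Qb) (C : AddSubgroup Pt), Rz z → ND C →
  Ok (pE z C) (pE (s2 z) C) (pE (s1 z) C) (pD z C)

/-- the Hecke relation at an inert prime -/
def FTL_st : Prop := ∀ (z : Qb) (C : AddSubgroup Pt) (l : ℕ) (X : Finset Pt), Rz z → ND C →
  l.Prime → l % 3 = 2 → ¬ l ∣ cd C → Nbs C l X →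
    (3 : Zw) • ∑ T ∈ X, pf z (C ⊔ AddSubgroup.zmultiples T) = 0

/-- the coordinates, the shift of the root and the Galois action -/
def FGAL_st : Prop := ∀ (z : Qb) (C : AddSubgroup Pt), Rz z → ND C →
  xc (pf z C) ≠ 0 ∧ (kk C z ≠ 0 ∧ kk C (s1 z) ≠ 0 ∧ kk C (s2 z) ≠ 0) ∧
  yc (pf z C) ^ 2 * pE (s1 z) C = pE z C ∧ (yc (pf z C) + 1) ^ 2 * pE (s1 z) C = pE (s2 z) C ∧
  xc (pf z C) ^ 2 * pD z C ^ 2 = pE z C * pE (s2 z) C ∧ pf (s1 z) C = pf z C + T0 ∧
  ∀ g : GQ, ND (C.map (gal g)) ∧ cd (C.map (gal g)) = cd C ∧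
    gal g (pf z C) = (ω : Zw) ^ (2 * cd C * (kum 3 g).val) • pf (g z) (C.map (gal g)) ∧
    (g ∈ GK → g (pM z C) = w3 ^ (2 * (cd C - 1) * (kum 3 g).val) * pM (g z) (C.map (gal g)))

/-- the products over the six subgroups -/
def KPR_st : Prop := ∀ (z : Qb) (C : AddSubgroup Pt), Rz z → ND C →
  kk C z * kk C (s1 z) * kk C (s2 z) = (-3) ^ (cd C - 1) * kk C 0 ^ 2 * kk (mC pw C) (-1) ∧
  Dd (fun p => pf z (gr C p)) (pM z C) ∧
  pM (s1 z) C = pM z C / (∏ p, xc (pf z (gr C p))) ^ 2 ∧ pM z (mC ω C) = pM z C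

/-- the congruence relation at an inert prime -/
def FCG_st : Prop := ∀ (V : Plc) (f : GQ) (z : Qb) (C : AddSubgroup Pt) (T : Pt),
  V.l % 3 = 2 → Frob V.l V.γ f → Rz z → ND C → ¬ V.l ∣ cd C → (V.l : Zw) • T = 0 → T ≠ 0 →
  ND (C ⊔ AddSubgroup.zmultiples T) ∧ cd (C ⊔ AddSubgroup.zmultiples T) = V.l * cd C ∧
    Cu V (xc (pf z (C ⊔ AddSubgroup.zmultiples T))) (f (xc (pf z C))) ∧
    Cu V (yc (pf z (C ⊔ AddSubgroup.zmultiples T))) (f (yc (pf z C))) ∧
    E1 V.v (pf z (C ⊔ AddSubgroup.zmultiples T) - gal f (pf z C)) ∧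
    Cu V (pM z (C ⊔ AddSubgroup.zmultiples T)) (w3 ^ (2 * (kum 3 f).val) * f (pM z C))

/-- division points -/
def LIFT_st : Prop := (pw • S0 = T0 ∧ 3 • S0 = 0 ∧ ∀ g ∈ GK, gal g S0 = S0) ∧
  (∀ (P : Pt) (c : Qb), xc P ≠ 0 → c ^ 3 = yc P → pw • lf P c = P ∧
    lf P (w3 ^ 2 * c) = lf P c + T0 ∧ (ω : Zw) • lf P c = lf ((ω : Zw) • P) (w3 ^ 2 * c) ∧
    xc (P + T0) ≠ 0 ∧ (-c / xc P) ^ 3 = yc (P + T0) ∧ lf (P + T0) (-c / xc P) = lf P c + S0 ∧
    (∀ g ∈ GK, gal g (lf P c) = lf (gal g P) (g c)) ∧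
    ∀ g : GQ, g ∉ GK → -gal g (lf P c) = lf (gal g P) (g c)) ∧
  ∀ (V : Plc) (P Q : Pt) (c d : Qb), V.l ≠ 3 → c ^ 3 = yc P → d ^ 3 = yc Q →
    Cu V (xc P) (xc Q) → Cu V c d → E1 V.v (lf P c - lf Q d)

/-- the division point of a sum -/
def DV_st : Prop := ∀ (P : I6 → Pt) (m : Qb), Dd P m →
  (∃ c, Rts P m c) ∧ (∀ c, Rts P m c → Dv P m = ∑ i, lf (P i) (c i)) ∧
  pw • Dv P m = ∑ i, P i ∧ (∀ k : ℕ, Dv P (w3 ^ k * m) = Dv P m + k • T0) ∧
  (∀ k : ℕ, Dv (fun i => (ω : Zw) ^ k • P i) m = (ω : Zw) ^ k • Dv P m) ∧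
  Dv (fun i => P i + T0) (m / (∏ i, xc (P i)) ^ 2) = Dv P m ∧
  (∀ σ : I6 ≃ I6, Dv (fun i => P (σ i)) m = Dv P m) ∧
  (∀ g : GQ, Dd (fun i => gal g (P i)) (g m) ∧
    (g ∈ GK → Dv (fun i => gal g (P i)) (g m) = gal g (Dv P m)) ∧
    (g ∉ GK → Dv (fun i => gal g (P i)) (g m) = -gal g (Dv P m))) ∧
  ∀ (V : Plc) (Q : I6 → Pt) (m' : Qb) (k : ℕ), V.l ≠ 3 → Dd Q m' →
    (∀ i, Cu V (xc (P i)) (xc (Q i)) ∧ Cu V (yc (P i)) (yc (Q i))) → Cu V m (w3 ^ k * m') →
    E1 V.v (Dv P m - (Dv Q m' + k • T0))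

/-- formal properties of the first divided point -/
def YZ_st : Prop := ∀ (z : Qb), Rz z →
  (∀ C : AddSubgroup Pt, ND C →
    pw • y0 z C = ∑ p, pf z (gr C p) + (cd C - 1) • T0 ∧ y0 z (mC ω C) = y0 z C ∧
    ∀ g ∈ GK, (ω : Zw) ^ (cd C * (kum 3 g).val) • gal g (y0 z C) = y0 z (C.map (gal g))) ∧
  ∀ (V : Plc) (f : GQ) (ε : ZMod 3), V.l % 3 = 2 → Frob V.l V.γ f → ∃ e : Pt, (3 : Zw) • e = 0 ∧
    ∀ (C : AddSubgroup Pt) (T : Pt), ND C → (cd C : ZMod 3) = ε → ¬ V.l ∣ cd C →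
      (V.l : Zw) • T = 0 → T ≠ 0 →
      E1 V.v (y0 z (C ⊔ AddSubgroup.zmultiples T) + gal f (y0 z C) - e)

/-- formal properties of the divided points -/
def YJ_st : Prop := ∀ (j : ZMod 3) (z : Qb), Rz z →
  (∀ C : AddSubgroup Pt, ND C → pw • pw • yj j z C = yp j z C ∧
    yj j z (mC ω C) = (ω : Zw) ^ (j * cd C).val • yj j z C + (j * cd C * (cd C - 1)).val • T0 ∧
    ∀ g ∈ GK, (ω : Zw) ^ (cd C * (kum 3 g).val) • gal g (yj j z C) = yj j z (C.map (gal g))) ∧
  (∀ (C : AddSubgroup Pt) (l : ℕ) (ι : Type) [Fintype ι] (T : ι → Pt), ND C → l.Prime →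
    l % 3 = 2 → ¬ l ∣ cd C → (∀ i, (l : Zw) • T i = 0 ∧ T i ≠ 0) →
    (Function.Injective fun i => AddSubgroup.zmultiples (T i)) →
    (∀ U, (l : Zw) • U = 0 → U ≠ 0 → ∃ i, U ∈ AddSubgroup.zmultiples (T i)) →
    (9 : Zw) • ∑ i, yj j z (C ⊔ AddSubgroup.zmultiples (T i)) = 0) ∧
  ∀ (V : Plc) (f : GQ) (ε : ZMod 3), V.l % 3 = 2 → Frob V.l V.γ f → ∃ e : Pt, (3 : Zw) • e = 0 ∧
    ∀ (C : AddSubgroup Pt) (T : Pt), ND C → (cd C : ZMod 3) = ε → ¬ V.l ∣ cd C →
      (V.l : Zw) • T = 0 → T ≠ 0 →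
      E1 V.v (yj j z (C ⊔ AddSubgroup.zmultiples T) + gal f (yj j z C) - e)

/-- the comparison with the second family -/
def RESD_st : Prop := ∀ (z : Qb) (C : AddSubgroup Pt) (h : GQ), Rz z → ND C → h ∈ UM 9 →
  C.map (gal h) = C → kum 3 h = 0 ∧ (∀ p, gal h (pf z (gr C p)) = pf z (gr C p)) ∧
    ∑ p : I6, p.1 * X.kw (yc (pf z (gr C p))) h = X.kw (yc (ny 0 C)) h

end Pool.Agent.MP_e23604_nt.PH

end

section

/-!
Classes attached to systems of points with a constant error in the congruence relation.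
-/

set_option autoImplicit false

open Finset QuadraticAlgebra
open scoped Classical

namespace Pool.Agent.MP_e23604_nt.N.G

open B R S W PH

/-- points indexed by finite subgroups of order prime to three -/
structure HS where
  y : AddSubgroup Pt → Pt
  χ : ZMod 3 → GQ → ZMod 3
  j : ZMod 3 → ZMod 3
  io : ZMod 3 → ZMod 3
  add : ∀ ε, Adt GK (χ ε)
  fac : ∀ ε, ∀ g ∈ UM 9, χ ε g = 0
  anti : ∀ ε c, c ∉ GK → ∀ g ∈ GK, χ ε (c * g * c⁻¹) = -χ ε g
  act : ∀ ε C, Fo ε C → ∀ g ∈ GK, eta (χ ε) g (y C) = y (ga g C)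
  ori : ∀ ε C, Fo ε C → y (sm ω C) = (ω : Zw) ^ (j ε).val • y C + (io ε).val • T0
  tl : ∀ ε C (l : ℕ), Fo ε C → l.Prime → l % 3 = 2 → ¬ l ∣ Nat.card C →
    (9 : Zw) • ∑ i, y (C ⊔ Ln l i) = 0
  cong : ∀ ε (V : Plc) (f : GQ), V.l % 3 = 2 → Frob V.l V.γ f → ∃ e : Pt, (3 : Zw) • e = 0 ∧
    ∀ C, Fo ε C → ¬ V.l ∣ Nat.card C → ∀ i, E1 V.v (y (C ⊔ Ln V.l i) + gal f (y C) - e)

section

variable {R : Type} [CommRing R]

/-- the Kummer cochain of one point -/
noncomputable def HS.F (H : HS) (φ : Zw →+* R) (M : Zw) (ε : ZMod 3) (h : GQ)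
    (C : AddSubgroup Pt) : R :=
  φ (co (gq M) (eta (H.χ ε) h (dv M (H.y C)) - dv M (H.y (ga h C))))

/-- the weighted sum of the Kummer cochains -/
noncomputable def HS.kt (H : HS) (φ : Zw →+* R) (M : Zw) (w : Wt R) (n : Finset ℕ) (h : GQ) : R :=
  ∑ i : Jg n, wp w n (i.1 + Av h) * H.F φ M (sd n) h (Cn n i.1)

/-- the derived class -/
noncomputable def HS.kc (H : HS) (φ : Zw →+* R) (M : Zw) (w : Wt R) (n : Finset ℕ) (g₀ g : GQ) :
    R := H.kt φ M w n (g₀ * g * g₀⁻¹ * g⁻¹)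

/-- the character of the class -/
noncomputable def HS.rho (H : HS) (φ : Zw →+* R) (M : Zw) (u : Wt R) (n : Finset ℕ) (g : GQ) : R :=
  lamZ φ (H.χ (sd n)) M g * wp u n (Av g)

/-- the elements that fix the lines and, in the twisted action, the points killed by `M` -/
def HS.H0 (H : HS) (M : Zw) (n : Finset ℕ) (g : GQ) : Prop :=
  g ∈ GK ∧ (∀ P : Pt, M • P = 0 → eta (H.χ (sd n)) g P = P) ∧ ∀ l ∈ n, Al l g = 0

/-- translation of the weights multiplies the sum -/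
structure HS.Sh (H : HS) (φ : Zw →+* R) (M : Zw) (w u : Wt R) (n : Finset ℕ) : Prop where
  mul : Mt n u
  shf : ∀ h, H.H0 (pw * M) n h → ∀ b, H.kt φ M (sh w b) n h = wp u n b * H.kt φ M w n h

end

/-- the Hecke relation is exact -/
def TL0_st : Prop := ∀ (H : HS) (ε : ZMod 3) (C : AddSubgroup Pt) (l : ℕ), Fo ε C → l.Prime →
  l % 3 = 2 → ¬ l ∣ Nat.card C → ∑ i, H.y (C ⊔ Ln l i) = 0

/-- statements about all systems, rings and levels -/
def AllK (S : HS → ∀ (R : Type) [CommRing R], (Zw →+* R) → Zw → Wt R → Finset ℕ → Prop) : Prop :=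
  ∀ (H : HS) (R : Type) [CommRing R] (φ : Zw →+* R) (M : Zw) (w : Wt R) (n : Finset ℕ), M ≠ 0 →
    φ M = 0 → Pn n → S H R φ M w n

/-- the cochains -/
def KT_st : Prop := AllK fun H R _ φ M w n => Lc GK (H.kt φ M w n) ∧
  (∀ C, Fo (sd n) C → ∀ g ∈ GK,
    M • (eta (H.χ (sd n)) g (dv M (H.y C)) - dv M (H.y (ga g C))) = 0 ∧ Fo (sd n) (ga g C) ∧
    ∀ h ∈ GK, H.F φ M (sd n) (g * h) C =
      H.F φ M (sd n) g (ga h C) + lamZ φ (H.χ (sd n)) M g * H.F φ M (sd n) h C) ∧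
  (∀ g ∈ GK, ∀ h ∈ GK, H.kt φ M w n (g * h) = H.kt φ M w n g +
    lamZ φ (H.χ (sd n)) M g * H.kt φ M (sh w (Av g)) n h) ∧
  (∀ u : Wt R, Mt n u → Mu GK (H.rho φ M u n) ∧ ∀ h, H.H0 M n h → H.rho φ M u n h = 1) ∧
  (∀ h, H1 M n h → H.H0 (pw * M) n h ∧ H.χ (sd n) h = 0) ∧
  (∀ M' h, H.H0 (M' * M) n h → H.H0 M n h) ∧
  (∀ g ∈ GK, ∀ h ∈ GK, H1 M n (g * h * g⁻¹ * h⁻¹)) ∧
  (∀ g ∈ GK, ∀ h, H.H0 M n h → H.H0 M n (g * h * g⁻¹) ∧ H.H0 M n h⁻¹) ∧
  ∀ h, H.H0 M n h → (∀ i, eta (H.χ (sd n)) h (H.y (Cn n i)) = H.y (Cn n i)) ∧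
    H.kt φ M w n h = ∑ i : Jg n, wp w n i.1 * dl φ M (H.χ (sd n)) h (H.y (Cn n i.1)) ∧
    ∀ h', H.H0 M n h' →
      H.H0 M n (h * h') ∧ H.kt φ M w n (h * h') = H.kt φ M w n h + H.kt φ M w n h'

/-- dependence on one weight -/
def SLOT_st : Prop := AllK fun H R _ φ M w n => ∀ h, H.H0 M n h → ∀ l ∈ n,
  (∀ (v v' : ZMod (ml l) → R) (a a' : R), (∀ i, w l i = a * v i + a' * v' i) →
    H.kt φ M w n h = a * H.kt φ M (Function.update w l v) n h +
      a' * H.kt φ M (Function.update w l v') n h) ∧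
  (l % 3 = 2 → ∀ (v : ZMod (ml l) → R) (a c : R), (∀ i, w l i = a * v i + c) →
    H.kt φ M w n h = a * H.kt φ M (Function.update w l v) n h)

/-- translation of affine weights -/
def SHF_st : Prop := AllK fun H R _ φ M w n => ∀ h, H.H0 M n h → ∀ (u : Wt R) (b : JJ)
  (s : Finset ℕ), s ⊆ n → Af s w u →
  H.kt φ M (fun l i => if l ∈ s then w l (i + b l) else w l i) n h = wp u s b * H.kt φ M w n h

/-- translation of the weights that are cut at one prime -/
def SHC_st : Prop := AllK fun H R _ φ M w n => ∀ u : Wt R, (Af n w u → H.Sh φ M w u n) ∧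
  ∀ q ∈ n, Af (n.erase q) w u → Mt n u → wp u n (Lu ω) * φ (ω ^ (H.j (sd n)).val) = 1 →
    (w q = th (u q) → H.Sh φ M w u n) ∧ (w q = u q → ∀ h, H.H0 (pw * M) n h →
      H.kt φ M w n h = 3 * H.kt φ M (Function.update w q (th (u q))) n h)

/-- the derived classes -/
def KC_st : Prop := AllK fun H R _ φ M w n => ∀ u : Wt R, H.Sh φ M w u n →
  (∀ g ∈ GK, ∀ h, H.H0 (pw * M) n h →
    H.kt φ M w n (g * h * g⁻¹) = H.rho φ M u n g * H.kt φ M w n h) ∧
  ∀ g₀ ∈ GK, Co (H.rho φ M u n) GK (H.kc φ M w n g₀) ∧ H.kc φ M w n g₀ g₀ = 0 ∧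
    (∀ g ∈ GK, H.kc φ M w n g₀ g = -H.kc φ M w n g g₀) ∧
    ∀ h, H.H0 (pw * M) n h → H.kc φ M w n g₀ h = (H.rho φ M u n g₀ - 1) * H.kt φ M w n h

/-- ramification -/
def UNR_st : Prop := AllK fun H _ _ φ M w n => ∀ V : Plc, ¬ Ov V (3 * M) → V.l ∉ n →
  ∀ τ ∈ V.I, H1 M n τ ∧ H.kt φ M w n τ = 0

/-- the value at the Frobenius element of a prime of the conductor -/
def TRS_st : Prop := AllK fun H _ _ φ M w n => ∀ (V : Plc) (f : GQ), V.l % 3 = 2 →
  Frob V.l V.γ f → (∀ M' : Zw, M' ∣ V.l + 1 → H.H0 M' n (f * f)) ∧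
    (M ∣ V.l + 1 → V.l ∈ n → ∑ i, w V.l i = 0 → H.kt φ M w n (f * f) = 0)

/-- the local condition -/
def LOC_st : Prop := AllK fun H _ _ φ M w n => ∀ (D : Subgroup GQ) (k : GQ → ZMod 3), D ≤ GK →
  (∀ g ∈ D, ∀ l ∈ n, Al l g = (k g).val • lu l ω) → ∀ τ ∈ UM (9 * M),
  Kum φ M (fun g => H.χ (sd n) g - H.j (sd n) * k g) D (H.kc φ M w n τ)

/-- the divided points form systems -/
def HGJ_st : Prop := ∀ (j : ZMod 3) (z : Qb), Rz z → ∃ H : HS, H.y = yj j z ∧
  (H.χ = fun ε g => ε * kum 3 g) ∧ H.j = fun ε => j * ε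

/-- the points before the division form systems -/
def HSJ_st : Prop := ∀ (j : ZMod 3) (z : Qb), Rz z → ∃ H : N.HS, H.y = yp j z ∧
  (H.χ = fun ε g => ε * kum 3 g) ∧ H.j = fun ε => j * ε

/-- the comparison of the sums -/
def LIN_st : Prop := ∀ (R : Type) [CommRing R] (φ : Zw →+* R) (w : Wt R) (n : Finset ℕ)
  (j : ZMod 3) (z : Qb) (G G₀ : HS) (H : N.HS), Pn n → Rz z → G.y = yj j z →
  (φ pw = 0 → G₀.y = yj 0 z → H.y = Un.ny 0 → ∀ h, H1 pw n h →
    G.kt φ pw w n h = G₀.kt φ pw w n h + ((j * sd n).val : R) * H.kt φ pw w n h) ∧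
  ∀ M : Zw, M ≠ 0 → φ M = 0 → H.y = yp j z → ∀ h, H1 M n h →
    H.kt φ M w n h = φ pw ^ 2 * G.kt φ M w n h

/-- change of the level -/
def LEV_st : Prop := ∀ (R : Type) [CommRing R] (φ : Zw →+* R) (M M' : Zw), M ≠ 0 → M' ≠ 0 →
  φ M = 0 → ∃ v, IsUnit v ∧ ∀ (H : HS) (w : Wt R) (n : Finset ℕ), Pn n → ∀ h,
    H.H0 (M' * M) n h → H.kt φ (M' * M) w n h = v * H.kt φ M w n h

end Pool.Agent.MP_e23604_nt.N.G

end

section

/-!
The derived classes: cocycle property, ramification, and the value at a Frobenius element.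
-/

set_option autoImplicit false

open Finset QuadraticAlgebra
open scoped Classical

namespace Pool.Agent.MP_e23604_nt.N.G

open B R S W

theorem sh_KC (H : HS) {R : Type} [CommRing R] (φ : Zw →+* R) (M : Zw) (w : Wt R) {n : Finset ℕ}
    {k : GQ} (hk : ∀ l ∈ n, Al l k = 0) (g : GQ) :
    H.kt φ M (sh w (Av k)) n g = H.kt φ M w n g := by
  refine sum_congr rfl fun i _ => ?_
  congr 1
  refine prod_congr rfl fun l hl => ?_
  change w l (_ + Al l k) = _
  rw [hk l hl, add_zero]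

theorem KC_pf (hKT : KT_st) : KC_st := by
  intro H R _ φ M w n hM hφ hn u hS
  obtain ⟨⟨N, hN, hc⟩, -, k3, k4, k5, k6, k7, k8, k9⟩ := hKT H R φ M w n hM hφ hn
  obtain ⟨-, -, -, -, -, -, -, k8', -⟩ := hKT H R φ (pw * M) w n (mul_ne_zero pw_ne hM)
    (by rw [map_mul, hφ, mul_zero]) hn
  have add : ∀ h h', H.H0 M n h → H.H0 M n h' →
      H.kt φ M w n (h * h') = H.kt φ M w n h + H.kt φ M w n h' :=
    fun h h' a b => ((k9 h a).2.2 h' b).2
  have cm : ∀ g ∈ GK, ∀ h ∈ GK, H.H0 (pw * M) n (g * h * g⁻¹ * h⁻¹) :=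
    fun g a h b => (k5 _ (k7 g a h b)).1
  have one : H.H0 M n 1 := by simpa using k6 _ _ (cm 1 GK.one_mem 1 GK.one_mem)
  have kt1 : H.kt φ M w n 1 = 0 := by
    have := add 1 1 one one
    rw [mul_one] at this
    linear_combination -this
  have cj : ∀ g ∈ GK, ∀ h, H.H0 (pw * M) n h →
      H.kt φ M w n (g * h * g⁻¹) = H.rho φ M u n g * H.kt φ M w n h := fun g hg h hh => by
    have h1 := k6 _ _ (k8' g hg h hh).1
    have h2 := (k4 (fun _ _ => 1) fun l _ => ⟨rfl, fun _ _ => (mul_one _).symm⟩).2 _ h1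
    rw [HS.rho, wp, prod_const_one, mul_one] at h2
    have h3 := k3 _ h1.1 g hg
    rw [h2, one_mul, sh_KC H φ M w h1.2.2, inv_mul_cancel_right, k3 g hg h hh.1,
      hS.shf h hh] at h3
    rw [HS.rho]
    linear_combination -h3
  refine ⟨cj, fun g₀ h0 => ⟨⟨⟨N, hN, fun g hg h hh e => ?_⟩, fun g hg h hh => ?_⟩, ?_,
    fun g hg => ?_, fun h hh => ?_⟩⟩
  · refine hc _ (cm g₀ h0 g hg).1 _ (cm g₀ h0 h hh).1 ?_
    have := N.mul_mem (hN.1.conj_mem _ e (g * g₀)) (hN.1.conj_mem _ (N.inv_mem e) g)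
    convert this using 1
    group
  · have e : g₀ * (g * h) * g₀⁻¹ * (g * h)⁻¹ =
        g₀ * g * g₀⁻¹ * g⁻¹ * (g * (g₀ * h * g₀⁻¹ * h⁻¹) * g⁻¹) := by group
    rw [HS.kc, e, add _ _ (k6 _ _ (cm g₀ h0 g hg)) (k8 g hg _ (k6 _ _ (cm g₀ h0 h hh))).1,
      cj g hg _ (cm g₀ h0 h hh)]
    rfl
  · rw [HS.kc, mul_inv_cancel_right, mul_inv_cancel, kt1]
  · have e : g₀ * g * g₀⁻¹ * g⁻¹ * (g * g₀ * g⁻¹ * g₀⁻¹) = 1 := by group
    have := add _ _ (k6 _ _ (cm g₀ h0 g hg)) (k6 _ _ (cm g hg g₀ h0))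
    rw [e, kt1] at this
    exact eq_neg_of_add_eq_zero_left this.symm
  · have h1 := k8 g₀ h0 h (k6 _ _ hh)
    have h2 := add _ _ (k6 _ _ hh) h1.2
    rw [mul_inv_cancel, kt1] at h2
    rw [HS.kc, add _ _ h1.1 h1.2, cj g₀ h0 h hh]
    linear_combination -h2

theorem UNR_pf (hDL : DL_st) (hAL : AL_st) (hKT : KT_st) : UNR_st := by
  intro H R _ φ M w n hM hφ hn V hV hl τ hτ
  obtain ⟨-, -, -, -, k5, k6, -, -, k9⟩ := hKT H R φ M w n hM hφ hn
  obtain ⟨-, -, -, -, d5, -, -, -, d9⟩ := hDL R φ M hM hφ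
  rw [Ov_mul, not_or] at hV
  obtain ⟨i1, -, i3⟩ := INE_ok V hV.1 τ hτ
  have h3 : V.l ≠ 3 := fun e => hV.1 (by simpa [e] using Ov_l V)
  have h1 : H1 M n τ := by
    refine ⟨i3 _ ?_, fun l a => ?_⟩
    · rw [show (9 : Zw) = 3 * 3 by norm_num, Ov_mul, Ov_mul]
      tauto
    · exact ((hAL l (hn l a).1 (hn l a).2).2.2.2.2.2.1 V (fun e => hl (e ▸ a)) h3).1 τ hτ
  refine ⟨h1, ?_⟩
  obtain ⟨h2, h4⟩ := k5 τ h1
  obtain ⟨a1, a2, -⟩ := k9 τ (k6 _ _ h2)
  rw [a2]
  refine sum_eq_zero fun i _ => ?_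
  have h5 := (d9 (H.χ (sd n)) τ h2.1).2.1 _ (a1 i.1)
  rw [dl, E1_tor (V := V) (by rw [eta_KC h4]; exact i1 _) hV.2 h5, d5, mul_zero]

theorem TRS_pf (hDL : DL_st) (hAL : AL_st) (hF : FRI_st) (hKT : KT_st) (hCN : CN_st)
    (hS : SUM_st) : TRS_st := by
  intro H R _ φ M w n hM hφ hn V f h3 hf
  obtain ⟨f1, f2, -, f4, -⟩ := (hF V h3).2.2.2.2 f hf
  have hσ : f * f ∈ GK := V.D_le f2.1
  have hχ : ∀ ε, H.χ ε (f * f) = 0 := fun ε => by
    have h1 := H.anti ε f f1 _ hσ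
    rw [← mul_assoc, mul_inv_cancel_right] at h1
    exact (by decide : ∀ x : ZMod 3, x = -x → x = 0) _ h1
  have hov : ∀ M' : Zw, M' ∣ V.l + 1 → ¬ Ov V M' := fun M' a b =>
    (Ov_l V).cop ⟨-1, 1, by ring⟩ (b.dvd a)
  have h0 : ∀ M' : Zw, M' ∣ V.l + 1 → H.H0 M' n (f * f) := fun M' a => by
    refine ⟨hσ, fun P hP => ?_, fun l b => (hAL l (hn l b).1 (hn l b).2).2.2.2.2.1 f f1⟩
    rw [eta_KC (hχ _), ← sub_eq_zero]
    refine E1_tor (V := V) ?_ (hov M' a) (by rw [smul_sub, ← gal_smul hσ, hP, map_zero, sub_zero])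
    have h1 := dvd_smul hP a
    rw [add_smul, one_smul, ← eq_neg_iff_add_eq_zero] at h1
    rw [sub_eq_add_neg, ← h1]
    exact f4 P
  refine ⟨h0, fun hd hl hw => ?_⟩
  obtain ⟨-, d2, -, -, -, -, -, -, d9⟩ := hDL R φ M hM hφ
  obtain ⟨a1, a2, -⟩ := (hKT H R φ M w n hM hφ hn).2.2.2.2.2.2.2.2 _ (h0 M hd)
  obtain ⟨n', hn', rfl⟩ : ∃ n', V.l ∉ n' ∧ n = insert V.l n' :=
    ⟨n.erase V.l, notMem_erase _ _, (insert_erase hl).symm⟩
  rw [a2, (hS R n' fun i => wp w (insert V.l n') i *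
    dl φ M (H.χ (sd (insert V.l n'))) (f * f) (H.y (Cn (insert V.l n') i))).1 V.l hn']
  refine sum_eq_zero fun i _ => ?_
  have e1 : ∀ a, wp w (insert V.l n') (Function.update i.1 V.l a) = w V.l a * wp w n' i.1 :=
    fun a => by
      rw [wp, prod_insert hn', Function.update_self]
      congr 1
      exact prod_congr rfl fun l b => by rw [Function.update_of_ne (ne_of_mem_of_not_mem b hn')]
  have e2 : ∀ a, Cn (insert V.l n') (Function.update i.1 V.l a) = Cn n' i.1 ⊔ Ln V.l a :=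
    fun a => by
      rw [Cn, sup_insert, Function.update_self, sup_comm]
      congr 1
      exact sup_congr rfl fun l b => by rw [Function.update_of_ne (ne_of_mem_of_not_mem b hn')]
  obtain ⟨-, c2, c3, -⟩ := hCN n' i.1 fun l b => hn l (mem_insert_of_mem b)
  obtain ⟨t, -, hu⟩ := H.cong (sd n') V f h3 hf
  obtain ⟨b, hb⟩ := hd
  have e3 : ∀ a, E1 V.v (eta (H.χ (sd (insert V.l n'))) (f * f)
      (dv M (H.y (Cn n' i.1 ⊔ Ln V.l a))) - dv M (H.y (Cn n' i.1 ⊔ Ln V.l a)) +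
        (b • t - b • gal f (H.y (Cn n' i.1)))) := fun a => by
    have h1 := E1s (f4 (dv M (H.y (Cn n' i.1 ⊔ Ln V.l a))))
      (E1m (hu _ c2 (c3 _ V.hl.out hn') a) b).1
    have h2 : ((V.l : Zw) + 1) • dv M (H.y (Cn n' i.1 ⊔ Ln V.l a)) =
        b • H.y (Cn n' i.1 ⊔ Ln V.l a) := by rw [hb, mul_comm, mul_smul, d2]
    rw [smul_sub, smul_add, ← h2, add_smul, one_smul] at h1
    rw [eta_KC (hχ _)]
    convert h1 using 1
    abel
  have e4 : ∀ a, M • (eta (H.χ (sd (insert V.l n'))) (f * f)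
      (dv M (H.y (Cn n' i.1 ⊔ Ln V.l a))) - dv M (H.y (Cn n' i.1 ⊔ Ln V.l a))) = 0 := fun a =>
    (d9 _ _ hσ).2.1 _ (e2 a ▸ a1 _)
  have e5 : ∀ a, dl φ M (H.χ (sd (insert V.l n'))) (f * f) (H.y (Cn n' i.1 ⊔ Ln V.l a)) =
      dl φ M (H.χ (sd (insert V.l n'))) (f * f) (H.y (Cn n' i.1 ⊔ Ln V.l 0)) := fun a => by
    have h1 := E1s (e3 a) (e3 0)
    rw [add_sub_add_right_eq_sub] at h1
    rw [dl, dl, sub_eq_zero.1
      (E1_tor h1 (hov M ⟨b, hb⟩) (by rw [smul_sub, e4, e4, sub_zero]))]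
  simp only [e1, e2, e5, ← sum_mul, hw, zero_mul]

end Pool.Agent.MP_e23604_nt.N.G

end

section

/-!
Dependence of the weighted sums on one weight, and translation of the weights.
-/

set_option autoImplicit false

open Finset QuadraticAlgebra
open scoped Classical

namespace Pool.Agent.MP_e23604_nt.N.G

open B R S W

section

variable {R : Type} [CommRing R]

theorem kt_congr_SHC (H : HS) (φ : Zw →+* R) (M : Zw) {w w' : Wt R} {n : Finset ℕ} (h : GQ)
    (e : ∀ l ∈ n, w l = w' l) : H.kt φ M w n h = H.kt φ M w' n h :=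
  sum_congr rfl fun i _ => by rw [wp_congr_SHC (w' := w') fun l hl => by rw [e l hl]]

/-- the sum with one fixed line -/
noncomputable def Kq_SHC (H : HS) (φ : Zw →+* R) (M : Zw) (w : Wt R) (n : Finset ℕ) (h : GQ)
    (q : ℕ) (a : ZMod (ml q)) : R :=
  ∑ i : Jg (n.erase q), wp w (n.erase q) i.1 *
    dl φ M (H.χ (sd n)) h (H.y (Cn n (Function.update i.1 q a)))

theorem kt_upd_SHC (hKT : KT_st) (hS : SUM_st) {H : HS} {φ : Zw →+* R} {M : Zw} (w : Wt R)
    {n : Finset ℕ} (hM : M ≠ 0) (hφ : φ M = 0) (hn : Pn n) {h : GQ} (hh : H.H0 M n h) {q : ℕ}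
    (hq : q ∈ n) (v : ZMod (ml q) → R) :
    H.kt φ M (Function.update w q v) n h = ∑ a, v a * Kq_SHC H φ M w n h q a := by
  rw [((hKT H R φ M _ n hM hφ hn).2.2.2.2.2.2.2.2 h hh).2.1,
    sum_er_SHC hS hq fun i => wp (Function.update w q v) n i *
      dl φ M (H.χ (sd n)) h (H.y (Cn n i)), sum_comm]
  refine sum_congr rfl fun a _ => ?_
  unfold Kq_SHC
  rw [mul_sum]
  refine sum_congr rfl fun i _ => ?_
  rw [wp_upd_SHC w hq, wp_er_SHC, Function.update_self, mul_assoc]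

end

theorem SLOT_pf (hDL : DL_st) (hKT : KT_st) (hCN : CN_st) (hS : SUM_st) (hT : TL0_st) :
    SLOT_st := by
  intro H R _ φ M w n hM hφ hn h hh l hl
  have A := kt_upd_SHC hKT hS w hM hφ hn hh hl
  have A0 := A (w l)
  rw [Function.update_eq_self] at A0
  refine ⟨fun v v' a a' e => ?_, fun h2 v a c e => ?_⟩
  · rw [A0, A, A, mul_sum, mul_sum, ← sum_add_distrib]
    exact sum_congr rfl fun i _ => by rw [e]; ring
  · have hD := (hDL R φ M hM hφ).2.2.2.2.2.2.2.2 (H.χ (sd n)) h hh.1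
    have hD2 := (hD.2.2 hh.2.1).2.2.2.2
    have hfix := ((hKT H R φ M w n hM hφ hn).2.2.2.2.2.2.2.2 h hh).1
    have Z : ∑ i, Kq_SHC H φ M w n h l i = 0 := by
      unfold Kq_SHC
      rw [sum_comm]
      refine sum_eq_zero fun i _ => ?_
      have hc := hCN (n.erase l) i.1 fun l' h' => hn l' (mem_of_mem_erase h')
      have h0 := hT H _ _ l hc.2.1 (hn l hl).1 h2 (hc.2.2.1 l (hn l hl).1 (notMem_erase l n))
      rw [← mul_sum, ← hD2 _ univ (fun a => H.y (Cn n (Function.update i.1 l a)))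
        fun a _ => hfix _]
      simp only [Cn_upd_SHC hl]
      have h1 := hD2 Unit ∅ (fun _ => 0) fun _ h' => absurd h' (notMem_empty _)
      rw [sum_empty, sum_empty] at h1
      rw [h0, h1, mul_zero]
    rw [A0, A, mul_sum, ← add_zero (∑ i, a * _), ← mul_zero c, ← Z, mul_sum, ← sum_add_distrib]
    exact sum_congr rfl fun i _ => by rw [e]; ring

theorem SHF_pf (hKT : KT_st) (hS : SUM_st) (hSL : SLOT_st) : SHF_st := by
  intro H R _ φ M w n hM hφ hn h hh u b s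
  induction s using Finset.induction_on with
  | empty =>
    intro _ _
    simp only [notMem_empty, if_false, wp, prod_empty, one_mul]
  | insert a s ha ih =>
    intro hs hA
    have ih' := ih (fun l hl => hs (mem_insert_of_mem hl))
      ⟨fun l hl => hA.mul l (mem_insert_of_mem hl), fun l hl => hA.aff l (mem_insert_of_mem hl)⟩
    obtain ⟨c, hc, e⟩ := hA.aff a (mem_insert_self a s) (b a)
    have hU : Function.update (fun l i => if l ∈ insert a s then w l (i + b l) else w l i : Wt R)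
        a (w a) = fun l i => if l ∈ s then w l (i + b l) else w l i := by
      funext l
      by_cases hl : l = a
      · subst hl
        rw [Function.update_self]
        funext i
        rw [if_neg ha]
      · rw [Function.update_of_ne hl]
        funext i
        simp only [mem_insert, hl, false_or]
    have S1 := hSL H R φ M (fun l i => if l ∈ insert a s then w l (i + b l) else w l i) n hM hφ hn
      h hh a (hs (mem_insert_self a s))
    have hw : wp u (insert a s) b = u a (b a) * wp u s b := prod_insert ha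
    rw [hw, mul_assoc, ← ih', ← hU]
    by_cases h2 : a % 3 = 2
    · exact S1.2 h2 (w a) _ c fun i => (if_pos (mem_insert_self a s)).trans (e i)
    · rw [S1.1 (w a) (w a) (u a (b a)) 0 fun i => (if_pos (mem_insert_self a s)).trans (by
        rw [e, hc h2, zero_mul]), zero_mul, add_zero]

theorem SHC_pf (hLU : LU_st) (hDL : DL_st) (hKT : KT_st) (hCN : CN_st) (hS : SUM_st)
    (hSL : SLOT_st) (hSF : SHF_st) : SHC_st := by
  intro H R _ φ M w n hM hφ hn u
  have hK := hKT H R φ M w n hM hφ hn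
  refine ⟨fun hA => ⟨hA.mul, fun h hh b => ?_⟩, fun q hq hA hu h1 => ?_⟩
  · rw [← hSF H R φ M w n hM hφ hn h (hK.2.2.2.2.2.1 pw h hh) u b n subset_rfl hA]
    exact kt_congr_SHC H φ M h fun l hl => funext fun i => by rw [if_pos hl, sh]
  have sft : ∀ h, H.H0 M n h → ∀ (b : JJ) (v : ZMod (ml q) → R),
      H.kt φ M (Function.update (sh w b) q v) n h =
        wp u (n.erase q) b * H.kt φ M (Function.update w q v) n h := fun h hh b v => by
    rw [← hSF H R φ M (Function.update w q v) n hM hφ hn h hh u b (n.erase q) (erase_subset q n)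
      ⟨hA.mul, fun l hl a => by
        rw [Function.update_of_ne (ne_of_mem_erase hl)]; exact hA.aff l hl a⟩]
    refine kt_congr_SHC H φ M h fun l hl => funext fun i => ?_
    by_cases e : l = q
    · subst e
      rw [if_neg (notMem_erase l n), Function.update_self, Function.update_self]
    · rw [if_pos (mem_erase.2 ⟨e, hl⟩), Function.update_of_ne e, Function.update_of_ne e, sh]
  have hwp : ∀ b : JJ, wp u n b = u q (b q) * wp u (n.erase q) b := fun b =>
    (mul_prod_erase n (fun l => u l (b l)) hq).symm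
  obtain ⟨h3, -, -, -, hω, -⟩ := hLU q (hn q hq).1 (hn q hq).2
  have hN : ml q = ml q / 3 + ml q / 3 + ml q / 3 := by omega
  have per : ∀ h, H.H0 (pw * M) n h → ∀ a,
      u q (a + (ml q / 3 : ℕ)) * Kq_SHC H φ M w n h q (a + (ml q / 3 : ℕ)) =
        u q a * Kq_SHC H φ M w n h q a := fun h hh => by
    have hh0 := hK.2.2.2.2.2.1 pw h hh
    have hD := (((hDL R φ M hM hφ).2.2.2.2.2.2.2.2 (H.χ (sd n)) h hh0.1).2.2 hh0.2.1).2.2
    have hfix := (hK.2.2.2.2.2.2.2.2 h hh0).1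
    have hT : pw • ((H.io (sd n)).val • T0) = 0 := by rw [smul_comm, pw_T0, smul_zero]
    have hT1 : eta (H.χ (sd n)) h ((H.io (sd n)).val • T0) = (H.io (sd n)).val • T0 :=
      hh.2.1 _ (by rw [mul_comm, mul_smul, hT, smul_zero])
    have hT2 : dl φ M (H.χ (sd n)) h ((H.io (sd n)).val • T0) = 0 := by
      unfold dl
      rw [hh.2.1 _ (by rw [mul_smul, (hDL R φ M hM hφ).2.1, hT]), sub_self,
        (hDL R φ M hM hφ).2.2.2.2.1]
    have ori : ∀ i : JJ, dl φ M (H.χ (sd n)) h (H.y (Cn n (i + Lu ω))) =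
        φ (ω ^ (H.j (sd n)).val) * dl φ M (H.χ (sd n)) h (H.y (Cn n i)) := fun i => by
      have hc := hCN n i hn
      have e1 := H.ori _ _ hc.2.1
      rw [hc.2.2.2.2 ω fun l _ => ⟨ω ^ 2, 0, by rw [zero_mul, add_zero, ← pow_succ, www]⟩] at e1
      have e2 := (hD.1 _ _ (hfix (i + Lu ω)) hT1).2
      rw [hT2, sub_zero] at e2
      rw [← e2, ← hD.2.1 _ _ (hfix i), e1, add_sub_cancel_right]
    have KS : ∀ (b : JJ) a, Kq_SHC H φ M (sh w b) n h q a =
        wp u (n.erase q) b * Kq_SHC H φ M w n h q a := fun b a => by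
      have := sft h hh0 b fun x => if x = a then 1 else 0
      rw [kt_upd_SHC hKT hS _ hM hφ hn hh0 hq, kt_upd_SHC hKT hS _ hM hφ hn hh0 hq] at this
      simpa using this
    have st : ∀ a, u q (a + lu q ω) * Kq_SHC H φ M w n h q (a + lu q ω) =
        u q a * Kq_SHC H φ M w n h q a := fun a => by
      have e1 := (hS R (n.erase q) fun i => wp w (n.erase q) i *
        dl φ M (H.χ (sd n)) h (H.y (Cn n (Function.update i q (a + lu q ω))))).2.1
        (fun i i' e => by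
          have e3 : Cn (n.erase q) i = Cn (n.erase q) i' :=
            sup_congr rfl fun l hl => by rw [e l hl]
          rw [wp_congr_SHC (w' := w) (i' := i') fun l hl => by rw [e l hl], Cn_upd_SHC hq,
            Cn_upd_SHC hq, e3]) (Lu ω)
      have e2 : Kq_SHC H φ M w n h q (a + lu q ω) =
          φ (ω ^ (H.j (sd n)).val) * Kq_SHC H φ M (sh w (Lu ω)) n h q a := by
        unfold Kq_SHC
        rw [← e1, mul_sum]
        refine sum_congr rfl fun i _ => ?_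
        have e4 : Function.update (i.1 + Lu ω) q (a + lu q ω) = Function.update i.1 q a + Lu ω := by
          funext l
          by_cases e : l = q
          · subst e
            rw [Function.update_self, Pi.add_apply, Function.update_self, Lu]
          · rw [Function.update_of_ne e, Pi.add_apply, Pi.add_apply, Function.update_of_ne e]
        have e5 : wp (sh w (Lu ω)) (n.erase q) i.1 = wp w (n.erase q) (i.1 + Lu ω) := rfl
        rw [e4, ori, e5]
        ring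
      rw [e2, KS, (hu q hq).2]
      rw [hwp] at h1
      have h1' : u q (lu q ω) * wp u (n.erase q) (Lu ω) * φ (ω ^ (H.j (sd n)).val) = 1 := h1
      linear_combination (u q a * Kq_SHC H φ M w n h q a) * h1'
    intro a
    have e0 := ZMod.natCast_zmod_val (lu q ω)
    rcases hω with e | e
    · rw [← e, e0, st]
    · have e6 : ((ml q / 3 : ℕ) : ZMod (ml q)) = lu q ω + lu q ω := by
        have e7 : ((ml q / 3 + ml q / 3 + ml q / 3 : ℕ) : ZMod (ml q)) = 0 := by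
          rw [← hN, ZMod.natCast_self]
        rw [← e0, e]
        push_cast at e7 ⊢
        linear_combination -e7
      rw [e6, ← add_assoc, st, st]
  have cut : ∀ h, H.H0 M n h → H.kt φ M (Function.update w q (th (u q))) n h =
      ∑ a, if a.val < ml q / 3 then u q a * Kq_SHC H φ M w n h q a else 0 := fun h hh => by
    rw [kt_upd_SHC hKT hS _ hM hφ hn hh hq]
    exact sum_congr rfl fun a _ => by rw [th, ite_mul, zero_mul]
  refine ⟨fun e => ⟨hu, fun h hh b => ?_⟩, fun e h hh => ?_⟩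
  · have hh0 := hK.2.2.2.2.2.1 pw h hh
    have c1 := cut h hh0
    rw [← e, Function.update_eq_self] at c1
    have c2 := sft h hh0 b (sh w b q)
    rw [Function.update_eq_self, kt_upd_SHC hKT hS _ hM hφ hn hh0 hq] at c2
    rw [c2, c1, hwp, ← cut_SHC (by omega) _ (per h hh) (b q), mul_comm (u q (b q)), mul_assoc,
      mul_sum _ _ (u q (b q))]
    congr 1
    refine sum_congr rfl fun a _ => ?_
    rw [sh, e, th, (hu q hq).2]
    split_ifs <;> ring
  · have hh0 := hK.2.2.2.2.2.1 pw h hh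
    have c2 := kt_upd_SHC hKT hS w hM hφ hn hh0 hq (w q)
    rw [Function.update_eq_self, e] at c2
    rw [c2, cut h hh0, three_SHC hN _ (per h hh)]

end Pool.Agent.MP_e23604_nt.N.G

end

section

/-!
The local condition.
-/

set_option autoImplicit false

open Finset QuadraticAlgebra
open scoped Classical

namespace Pool.Agent.MP_e23604_nt.N.G

open B R S W

theorem ori_LOC (hCN : CN_st) (H : HS) {n : Finset ℕ} (hn : Pn n) (i : JJ) (a : ℕ) :
    H.y (Cn n (i + a • Lu ω)) =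
      (ω : Zw) ^ ((H.j (sd n)).val * a) • (H.y (Cn n i) + (a * (H.io (sd n)).val) • T0) := by
  have hw : ∀ b c : ℕ, (ω : Zw) ^ b • c • T0 = c • T0 := fun b c => by
    rw [smul_comm]
    congr 1
    induction b with
    | zero => rw [pow_zero, one_smul]
    | succ b ih => rw [pow_succ, mul_smul, w_T0, ih]
  induction a with
  | zero => simp
  | succ a ih =>
    obtain ⟨-, c2, -, -, c5⟩ := hCN n (i + a • Lu ω) hn
    rw [succ_nsmul, ← add_assoc, ← c5 ω fun l _ =>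
      ⟨ω ^ 2, 0, by rw [zero_mul, add_zero, ← pow_succ, www]⟩, H.ori _ _ c2, ih, ← mul_smul,
      ← pow_add, smul_add, smul_add, hw, hw, add_assoc, ← add_nsmul, mul_add, mul_one,
      add_comm (H.j (sd n)).val, add_mul, one_mul]

theorem LOC_pf (hDL : DL_st) (hAL : AL_st) (hKT : KT_st) (hCN : CN_st) (hS : SUM_st) : LOC_st := by
  intro H R _ φ M w n hM hφ hn D k hD hk τ hτ
  obtain ⟨-, d2, -, -, -, -, -, -, d9⟩ := hDL R φ M hM hφ
  obtain ⟨-, -, -, -, k5, k6, k7, -, k9⟩ := hKT H R φ M w n hM hφ hn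
  set χ₀ : GQ → ZMod 3 := fun g => H.χ (sd n) g - H.j (sd n) * k g with hχ₀
  have τK := hτ.1
  have s1 : ∀ g ∈ D, ∀ i, eta χ₀ g (H.y (Cn n i)) =
      H.y (Cn n i) + ((k g).val * (H.io (sd n)).val) • T0 := fun g hg i => by
    obtain ⟨-, c2, -, c4, -⟩ := hCN n i hn
    have a := H.act _ _ c2 g (hD hg)
    have hw : ∀ a j k : ZMod 3, (ω : Zw) ^ a.val = ω ^ (j.val * k.val) * ω ^ (a - j * k).val := by
      decide
    rw [c4 g (hD hg), cn_LOC (i := i + Av g) (i' := i + (k g).val • Lu ω) fun l hl =>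
      congrArg (i l + ·) (hk g hg l hl), ori_LOC hCN H hn, eta_apply,
      hw _ (H.j (sd n)) (k g), mul_smul] at a
    exact (w_unit.pow _).smul_left_cancel.1 a
  have s2 : ∀ i, gal τ⁻¹ (H.y (Cn n i)) = H.y (Cn n (i + Av τ⁻¹)) := fun i => by
    obtain ⟨-, c2, -, c4, -⟩ := hCN n i hn
    have a := H.act _ _ c2 _ (GK.inv_mem τK)
    rwa [c4 _ (GK.inv_mem τK), eta_apply, H.fac _ _ (UM_mono (dvd_mul_right _ _)
      ((UM _).inv_mem hτ)), ZMod.val_zero, pow_zero, one_smul] at a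
  have s3 : ∀ P, gal τ (gal τ⁻¹ P) = P := fun P => by rw [← gal_mul, mul_inv_cancel, gal_one]
  have s4 : ∀ i, ∀ g ∈ D, eta χ₀ g (gal τ⁻¹ (H.y (Cn n i)) - H.y (Cn n i)) =
      gal τ⁻¹ (H.y (Cn n i)) - H.y (Cn n i) := fun i g hg => by
    rw [s2, map_sub, s1 g hg, s1 g hg, add_sub_add_right_eq_sub]
  refine ⟨Jg n, inferInstance, fun i => wp w n i.1,
    fun i => gal τ⁻¹ (H.y (Cn n i.1)) - H.y (Cn n i.1), fun i => s4 i.1,
    ∑ i : Jg n, wp w n i.1 * φ (co (gq M) (dv M (gal τ⁻¹ (H.y (Cn n i.1))) -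
      gal τ (dv M (gal τ⁻¹ (H.y (Cn n i.1)))) -
        dv M (gal τ⁻¹ (H.y (Cn n i.1)) - H.y (Cn n i.1)))), fun g hg => ?_⟩
  have gK := hD hg
  obtain ⟨a1, a2⟩ := k5 _ (k7 τ τK g gK)
  have a3 := k6 _ _ a1
  obtain ⟨a4, a5, -⟩ := k9 _ a3
  rw [HS.kc, a5, mul_sum, ← sum_add_distrib]
  refine sum_congr rfl fun i _ => ?_
  rw [mul_left_comm, ← mul_add, ← shift_LOC hDL hM hφ χ₀ gK (s4 i.1 g hg)
    (by rw [smul_sub, ← gal_smul τK, d2, s3])]
  congr 1
  set P := dv M (gal τ⁻¹ (H.y (Cn n i.1))) with hP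
  set t := ((k g).val * (H.io (sd n)).val) • T0 with ht
  have b1 : pw • t = 0 := by rw [ht, smul_comm, pw_T0, smul_zero]
  have b2 : M • (eta χ₀ g (gal τ P) - dv M t) = H.y (Cn n i.1) := by
    rw [smul_sub, ← eta_smul χ₀ gK, ← gal_smul τK, d2, d2, s3, s1 g hg, add_sub_cancel_right]
  have b3 : (9 * M) • (eta χ₀ g P - P) = 0 := by
    rw [mul_smul, smul_sub M, ← eta_smul χ₀ gK, d2, s2, s1 g hg, add_sub_cancel_left]
    exact dvd_smul b1 ⟨pw ^ 3, by decide⟩
  have b4 := hτ.2 _ b3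
  have b5 : eta (H.χ (sd n)) (τ * g * τ⁻¹ * g⁻¹) (eta χ₀ g (gal τ P)) = gal τ (eta χ₀ g P) := by
    rw [eta_apply, a2, ZMod.val_zero, pow_zero, one_smul, eta_apply, eta_apply, gal_smul a1.1,
      gal_smul τK, ← gal_mul, ← gal_mul, ← gal_mul, inv_mul_cancel_right, inv_mul_cancel_right]
  rw [((d9 _ _ a1.1).2.2 a3.2.1).2.1 _ _ (a4 i.1) b2, map_sub, b5,
    a1.2.1 _ (by rw [mul_smul, d2, b1])]
  congr 2
  rw [map_sub] at b4 ⊢
  linear_combination (norm := abel) b4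

end Pool.Agent.MP_e23604_nt.N.G

end

section

/-!
The coordinates of the points, the shift of the root and the Galois action.
-/

set_option autoImplicit false

open Finset QuadraticAlgebra
open scoped Classical

namespace Pool.Agent.MP_e23604_nt.PH

open B R S W Un

theorem FGAL_pf (hR : RZ_st) (hG : GR_st) (hF : FON_st) : FGAL_st := by
  intro z C hz hC
  obtain ⟨-, -, -, r1, -, -, -, -, r2, -⟩ := hR.2 z hz
  have o := hF z C hz hC
  have n1 := o.n3
  have n2 := o.ne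
  have x1 : xc (pf z C) = _ := xc_pt o.on
  have y1 : yc (pf z C) = _ := yc_pt o.on
  have x2 : xc (pf z C) ^ 2 * pD z C ^ 2 = pE z C * pE (s2 z) C := by
    rw [x1]
    field_simp
    linear_combination o.qd
  refine ⟨fun e => mul_ne_zero o.rot.rot.n3 o.rot.n3 (by rw [← x2, e]; ring), ?_, ?_, ?_, x2, ?_,
    fun g => ?_⟩
  · simpa only [pD, mul_ne_zero_iff, and_assoc] using right_ne_zero_of_mul n2
  · rw [y1]
    field_simp
    linear_combination o.qd
  · rw [y1]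
    field_simp
    linear_combination o.qd
  · rw [pf, pf, o.add, r1, pD, pD, r1]
    congr 2
    rw [s2]
    ring
  obtain ⟨h1, h2, h3⟩ := gal_nd g hC
  have e : ∀ z, Rz z → g (pE z C) = 1 * pE (g z) (C.map (gal g)) := fun z hz => by
    obtain ⟨-, -, -, -, -, -, -, -, r2, -⟩ := hR.2 z hz
    simp only [pE, map_mul, map_pow, map_sub, h3, h2, (r2 g).2, one_mul]
  refine ⟨h1, h2, ?_, fun hg => ?_⟩
  · rw [pf, o.gal, e _ hz, e _ (hR.2 z hz).1, e _ (hR.2 z hz).2.1, (r2 g).2.1, (r2 g).2.2, pf]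
    refine (hF _ _ (r2 g).1 h1).scale one_ne_zero ?_
    simp only [pD, map_mul, map_pow, map_ofNat, h3, h2, (r2 g).2, act_SKAP three_ne_zero, mul_pow,
      ← pow_mul]
    have : w3 ^ (2 * cd C * (kum 3 g).val) * w3 ^ ((kum 3 g).val * cd C) = 1 := by
      rw [← pow_add, show _ + _ = 3 * (cd C * (kum 3 g).val) by ring, pow_mul, w3_cube, one_pow]
    linear_combination (-(3 ^ cd C * cbr 3 ^ cd C * (kk (C.map (gal g)) (g z) *
      kk (C.map (gal g)) (s1 (g z)) * kk (C.map (gal g)) (s2 (g z))))) * this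
  · have h4 := (gal_nd g (pw_nd_T hC).1).2.2
    rw [gal_pw] at h4
    have h5 := fun p => (gal_nd g ((hG C hC).1 p).1).2.2
    simp only [← (hG C hC).2.2.2.2.2.1 g hg] at h5
    simp only [pM, map_div₀, map_mul, map_pow, map_sub, map_prod, map_ofNat, map_zero, h2, h3, h4,
      h5, (r2 g).2, act_SKAP three_ne_zero, mul_pow, ← pow_mul]
    ring

end Pool.Agent.MP_e23604_nt.PH

end

section

/-!
The products over the six subgroups.
-/

set_option autoImplicit false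

open Finset QuadraticAlgebra
open scoped Classical

namespace Pool.Agent.MP_e23604_nt.PH

open B R S W Un

variable {C : AddSubgroup Pt}

theorem inj_KPR (h : ND C) : ∀ T ∈ C, pw • T = 0 → T = 0 := fun T hT e => by
  obtain ⟨m, hm⟩ := ex_third h
  have e1 : pw • pw • T = 0 := by rw [e, smul_zero]
  rw [pw_pw_T, neg_eq_zero] at e1
  rw [← hm T hT, mul_comm, mul_smul, e1, smul_zero]

theorem pw_KPR (h : ND C) (f : Qb → Qb) (t : Qb)
    (hf : ∀ x x', x ^ 3 + 1 = -3 * x ^ 2 * x' → f x = -3 * x ^ 2 * (t - x')) :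
    ∏ T ∈ (els C).erase 0, f (xc T) = (-3) ^ (cd C - 1) * kk C 0 ^ 2 * kk (mC pw C) t := by
  rw [mC, (map_nd (f := DistribSMul.toAddMonoidHom Pt pw) h (inj_KPR h)).2.2, kk, ← card_erase h,
    ← prod_const, ← prod_pow, ← prod_mul_distrib, ← prod_mul_distrib]
  refine prod_congr rfl fun T hT => ?_
  have x0 : xc T ≠ 0 := fun e => (mem_erase.1 hT).1
    (inj_KPR h T ((mem_els h.fin).1 (mem_erase.1 hT).2) ((PI_ok.2.1 T).2 e))
  rw [zero_sub, neg_sq]
  refine hf _ (xc (pw • T)) ?_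
  rw [(PI_ok.2.2.1 T x0).1]
  field_simp

theorem w_KPR (h : ND C) (i : ℕ) (t : Qb) :
    kk (mC (ω ^ i) C) t = ∏ T ∈ (els C).erase 0, (t - w3 ^ i * xc T) := by
  rw [mC, (map_nd (f := DistribSMul.toAddMonoidHom Pt (ω ^ i : Zw)) h fun T _ e =>
    (unit_smul (w_unit.pow i)).1 e).2.2]
  refine prod_congr rfl fun T _ => ?_
  congr 1
  change xc ((ω ^ i : Zw) • T) = _
  induction i with
  | zero => simp
  | succ i ih => rw [pow_succ', mul_smul, (xc_w _).1, ih, pow_succ', mul_assoc]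

theorem mC_KPR (a b : Zw) (C : AddSubgroup Pt) : mC a (mC b C) = mC b (mC a C) := by
  rw [mC, mC, mC, mC, AddSubgroup.map_map, AddSubgroup.map_map]
  congr 1
  ext T
  exact smul_comm a b T

theorem al_KPR (h : ND C) (i : ℕ) : kk (mC (ω ^ i) C) 0 = w3 ^ (i * (cd C - 1)) * kk C 0 := by
  rw [w_KPR h, kk, ← card_erase h, pow_mul, ← prod_const, ← prod_mul_distrib]
  exact prod_congr rfl fun T _ => by ring

theorem k_KPR (hR : RZ_st) {z : Qb} (hz : Rz z) (h : ND C) :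
    kk C z * kk C (s1 z) * kk C (s2 z) = (-3) ^ (cd C - 1) * kk C 0 ^ 2 * kk (mC pw C) (-1) := by
  rw [← pw_KPR h (fun x => (z - x) * (s1 z - x) * (s2 z - x)) _ fun x x' e => by
    linear_combination (hR.2 z hz).2.2.2.2.2.2.1 x - e]
  simp only [kk, prod_mul_distrib]

theorem l_KPR (hR : RZ_st) (hG : GR_st) {z : Qb} (hz : Rz z) (h : ND C) :
    ∏ i : ZMod 3, kk (mC (ω ^ i.val) C) z * kk (mC (ω ^ i.val) C) (s1 z) *
      kk (mC (ω ^ i.val) C) (s2 z) = 81 ^ (cd C - 1) * kk C 0 ^ 7 * kk (mC pw C) 0 ^ 2 := by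
  obtain ⟨g1, -, -, -, g2, -⟩ := hG C h
  obtain ⟨p1, p2, p3⟩ := pw_nd_T h
  have e1 : ∀ i : ZMod 3, _ := fun i => k_KPR hR hz (g1 (i, 0)).1
  have e2 := pw_KPR p1 (fun x => ∏ i : ZMod 3, (-1 - w3 ^ i.val * x)) 0 fun x x' e => by
    refine (Fin.prod_univ_three _).trans ?_
    change (-1 - w3 ^ 0 * x) * (-1 - w3 ^ 1 * x) * (-1 - w3 ^ 2 * x) = _
    linear_combination -e - (x + w3 * x ^ 2) * w3_spec - x ^ 3 * w3_cube
  have e3 : ∏ i : ZMod 3, w3 ^ (i.val * (cd C - 1)) = 1 := by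
    refine (Fin.prod_univ_three _).trans ?_
    change w3 ^ (0 * _) * w3 ^ (1 * _) * w3 ^ (2 * _) = _
    rw [← pow_add, ← pow_add, ← add_mul, ← add_mul, pow_mul, w3_cube, one_pow]
  simp only [(g1 _).2] at e1
  simp only [(g2 _).1] at e1
  rw [prod_comm, p2, p3] at e2
  simp only [e1, mC_KPR pw, al_KPR h, w_KPR p1 _ (-1), prod_mul_distrib, e2, prod_pow, e3,
    prod_const, card_univ, ZMod.card]
  rw [show (81 : Qb) = (-3) ^ 4 by norm_num]
  generalize (-3 : Qb) = s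
  ring

theorem KPR_pf (hR : RZ_st) (hG : GR_st) (hF : FGAL_st) : KPR_st := by
  intro z C hz h
  obtain ⟨g1, -, g3, g4, g2, -⟩ := hG C h
  obtain ⟨p1, p2, p3⟩ := pw_nd_T h
  obtain ⟨-, -, r1, r2, r3, r4, -⟩ := hR.2 z hz
  have r0 : s1 (s1 z) = s2 z := rfl
  have c3 : (3 * cbr 3) ^ 3 = 81 := by
    rw [mul_pow, cbr_cube]
    norm_num
  have n0 : (z - s2 z) * (s1 z - z) * (s2 z - s1 z) ≠ 0 := fun e => by
    rw [e] at r4
    norm_num at r4
  obtain ⟨⟨na, nb⟩, nc⟩ : (z - s2 z ≠ 0 ∧ s1 z - z ≠ 0) ∧ s2 z - s1 z ≠ 0 := by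
    simpa only [mul_ne_zero_iff] using n0
  have F := fun p => hF z _ hz (g1 p).1
  have k0 : ∏ p, kk (gr C p) z ≠ 0 := prod_ne_zero_iff.2 fun p _ => (F p).2.1.1
  have k1 : ∏ p, kk (gr C p) (s1 z) ≠ 0 := prod_ne_zero_iff.2 fun p _ => (F p).2.1.2.1
  have k2 : ∏ p, kk (gr C p) (s2 z) ≠ 0 := prod_ne_zero_iff.2 fun p _ => (F p).2.1.2.2
  have x0 : ∏ p, xc (pf z (gr C p)) ≠ 0 := prod_ne_zero_iff.2 fun p _ => (F p).1
  have K : (∏ p, kk (gr C p) z) * (∏ p, kk (gr C p) (s1 z)) * ∏ p, kk (gr C p) (s2 z) =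
      ((3 * cbr 3) ^ (2 * (cd C - 1)) * (kk C 0 * kk (mC pw C) 0) ^ 3) ^ 3 := by
    rw [← prod_mul_distrib, ← prod_mul_distrib, Fintype.prod_prod_type_right]
    refine (Fin.prod_univ_two _).trans ?_
    have a1 := l_KPR hR hG hz h
    have a2 := l_KPR hR hG hz p1
    simp only [← (g2 _).1] at a1
    simp only [← (g2 _).2, p2, p3] at a2
    refine (congrArg₂ (· * ·) a1 a2).trans ?_
    rw [← c3]
    generalize 3 * cbr 3 = t
    ring
  have Y := prod_congr (s₁ := univ) rfl fun p _ => (F p).2.2.1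
  have X := prod_congr (s₁ := univ) rfl fun p _ => (F p).2.2.2.2.1
  have r5 := congrArg (· ^ (4 * cd C)) (r4.trans c3.symm)
  refine ⟨k_KPR hR hz h, ?_⟩
  rw [← and_assoc]
  constructor
  · simp only [Dd, pM, pE, pD, r0, r1, r2, r3, (g1 _).2] at X Y ⊢
    generalize 3 * cbr 3 = t, z - s2 z = a, s1 z - z = b, s2 z - s1 z = c at *
    simp only [prod_mul_distrib, prod_pow, prod_const, card_univ, Fintype.card_prod, ZMod.card]
      at X Y r5
    refine ⟨⟨fun p => (F p).1, ?_⟩, ?_⟩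
    · rw [div_pow, mul_pow, ← K, div_pow, eq_comm]
      field_simp
      refine mul_left_cancel₀ k1 ?_
      linear_combination Y
    · simp only [div_pow]
      generalize t ^ (2 * (cd C - 1)) * (kk C 0 * kk (mC pw C) 0) ^ 3 = L at *
      field_simp
      generalize ∏ p, kk (gr C p) z = u, ∏ p, kk (gr C p) (s1 z) = v,
        ∏ p, kk (gr C p) (s2 z) = w, ∏ p, xc (pf z (gr C p)) = x at *
      refine mul_left_cancel₀ (a := (a * c) ^ (8 * cd C) * u ^ 2 * v ^ 2 * w)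
        (by simp [na, nc, k0, k1, k2]) ?_
      linear_combination L * X + L * x ^ 2 * (u * v * w) ^ 2 * r5
  · have a1 := al_KPR h 1
    have a2 := al_KPR p1 1
    rw [pow_one] at a1 a2
    simp only [pM, g3, g4, mC_KPR pw, a1, a2, p2]
    rw [Fintype.prod_equiv ((Equiv.addRight (1 : ZMod 3)).prodCongr (Equiv.refl _))
      (fun p : I6 => kk (gr C (p.1 + 1, p.2)) (s2 z)) (fun p => kk (gr C p) (s2 z)) fun _ => rfl]
    congr 3
    have := congrArg (· ^ (2 * (cd C - 1))) w3_cube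
    linear_combination (kk C 0 * kk (mC pw C) 0) ^ 3 * this

end Pool.Agent.MP_e23604_nt.PH

end

section

/-!
The divided points and the points before the division form systems.
-/

set_option autoImplicit false

open Finset QuadraticAlgebra
open scoped Classical

namespace Pool.Agent.MP_e23604_nt.N.G

open B R S W PH Un Un.HN

theorem pp_HGJ (P : Pt) : pw • pw • P = -(3 • P) := by
  rw [← mul_smul, ← sq, pw_sq, neg_smul, ← Nat.cast_smul_eq_nsmul Zw, Nat.cast_ofNat]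

theorem HGJ_pf (hY : YJ_st) (hK : N.KIT_st) : HGJ_st := by
  intro j z hz
  obtain ⟨y1, y2, y3⟩ := hY j z hz
  have td := tdt_SKAP (r := 3) three_ne_zero
  refine ⟨⟨yj j z, fun ε g => ε * kum 3 g, fun ε => j * ε, fun ε => j * ε * (ε - 1),
    fun ε g hg h _ => ?_, fun ε g hg => ?_, fun ε c hc g hg => ?_, fun ε C h g hg => ?_,
    fun ε C h => ?_, fun ε C l h hl h3 n => ?_, fun ε V f h3 hf => ?_⟩, rfl, rfl, rfl⟩
  · beta_reduce
    rw [td g trivial h trivial, ep_pos hg, one_mul, mul_add]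
  · have := FAC_ok 3 1 three_ne_zero one_ne_zero (fun l hl l3 d => absurd (by
      rw [Nat.prime_three.factorization, Finsupp.single_eq_of_ne l3]
      exact dvd_zero 3) d) g (by simpa using hg)
    rw [Nat.cast_ofNat] at this
    rw [this, mul_zero]
  · have e1 := td 1 trivial 1 trivial
    have e2 := td c trivial c⁻¹ trivial
    rw [mul_one, ep_pos GK.one_mem] at e1
    rw [mul_inv_cancel, ep_neg hc] at e2
    rw [mul_assoc, td c trivial _ trivial, td g trivial _ trivial, ep_neg hc, ep_pos hg]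
    linear_combination (-ε) * (e1 + e2)
  · obtain ⟨hC, e⟩ := fo_nd h
    have := (y1 C hC).2.2 g hg
    rwa [← w_val, Nat.cast_mul, ZMod.natCast_zmod_val, e] at this
  · obtain ⟨hC, e⟩ := fo_nd h
    rw [← e]
    exact (y1 C hC).2.1
  · obtain ⟨R, h1, h2⟩ := kit_inert (hK l hl (by omega)) hl h3
    have hC := (fo_nd h).1
    simpa only [(h2 _).2] using y2 C l _ R hC hl h3 (NC.cd_eq hC.fin ▸ n)
      (fun i => ⟨h1.tor i, h1.ne i⟩) h1.inj h1.all
  · obtain ⟨e, he, h⟩ := y3 V f ε h3 hf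
    obtain ⟨R, h1, h2⟩ := kit_inert (hK V.l V.hl.out (by omega)) V.hl.out h3
    exact ⟨e, he, fun C hC n i => (h2 i).2 ▸ h C _ (fo_nd hC).1 (fo_nd hC).2
      (NC.cd_eq (fo_nd hC).1.fin ▸ n) (h1.tor i) (h1.ne i)⟩

theorem HSJ_pf (hY : YJ_st) (hK : N.KIT_st) (hT : TL0_st) : HSJ_st := by
  intro j z hz
  obtain ⟨G, e1, e2, e3⟩ := HGJ_pf hY hK j z hz
  have y : ∀ C, ND C → yp j z C = pw • pw • G.y C := fun C h => e1 ▸ ((hY j z hz).1 C h).1.symm
  have nd : ∀ ε C (l : ℕ), Fo ε C → l.Prime → l % 3 = 2 → ¬ l ∣ Nat.card C →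
      ∀ i, ND (C ⊔ Ln l i) := fun ε C l h hl h3 n i => by
    obtain ⟨R, h1, h2⟩ := kit_inert (hK l hl (by omega)) hl h3
    have hC := (fo_nd h).1
    exact (h2 i).2 ▸ ((NPR_pf C l _ hC hl (by omega) (h1.nbs hl hC.fin (NC.cd_eq hC.fin ▸ n))).2.1 _
      (mem_image_of_mem R (mem_univ i))).1
  refine ⟨⟨yp j z, G.χ, G.j, 0, G.add, G.fac, G.anti, fun ε C h g hg => ?_, fun ε C h => ?_,
    fun ε C l h hl h3 n => ?_, fun ε V f h3 hf => ⟨-1, isUnit_one.neg, fun C h n i => ?_⟩⟩,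
    rfl, e2, e3⟩
  · have hC := (fo_nd h).1
    rw [y C hC, eta_smul _ hg, eta_smul _ hg, G.act ε C h g hg,
      y (ga g C) (map_nd hC fun T _ e => (gal_ne g).1 e).1]
  · have hC := (fo_nd h).1
    rw [y C hC, y (sm ω C) (nd_mC hC ω).1, G.ori ε C h, smul_add, smul_comm pw _ T0, pw_T0,
      smul_zero, add_zero, ZMod.val_zero, zero_smul, add_zero, smul_comm (_ ^ _) pw,
      smul_comm (_ ^ _) pw]
  · rw [sum_congr rfl fun i _ => y _ (nd ε C l h hl h3 n i), ← smul_sum, ← smul_sum,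
      hT G ε C l h hl h3 n, smul_zero, smul_zero, smul_zero]
  · obtain ⟨e, he, k⟩ := G.cong ε V f h3 hf
    have := (E1m (E1m (k C h n i) pw).1 pw).1
    rw [smul_sub, smul_sub, pp_HGJ e, ← Nat.cast_smul_eq_nsmul Zw, Nat.cast_ofNat, he, neg_zero,
      sub_zero, smul_add, smul_add, pp_HGJ (gal f _), ← map_nsmul, ← map_neg, ← pp_HGJ] at this
    rwa [y _ (nd ε C _ h V.hl.out h3 n i), y C (fo_nd h).1, neg_smul, one_smul, sub_neg_eq_add]

end Pool.Agent.MP_e23604_nt.N.G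

end
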