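import Pool.Agent.Mg.Fe23604m.G1bd87d
import Pool.Agent.Mg.Fe23604m.G26a658

set_option linter.all false

/-!
The fourth family of points lies on the curve.
-/

set_option autoImplicit false

open Finset QuadraticAlgebra
open scoped Classical

namespace Pool.Agent.MP_e23604_nt.PH

open B R S W Un

theorem quad_FON {L : PeriodPair} {a b : ℂ} (ha : a ∉ L.lattice) (hb : b ∉ L.lattice)
    (h1 : a + b ∉ L.lattice) (h2 : a - b ∉ L.lattice) (t : ℂ) :
    (t - wp L (a + b)) * (t - wp L (a - b)) * (wp L a - wp L b) ^ 2 =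
      t ^ 2 * wp L a ^ 2 + t ^ 2 * wp L b ^ 2 + wp L a ^ 2 * wp L b ^ 2 -
        2 * t * wp L a * wp L b * (t + wp L a + wp L b) +
        L.g₂ / 2 * (t * wp L a + t * wp L b + wp L a * wp L b) + L.g₃ * (t + wp L a + wp L b) +
        L.g₂ ^ 2 / 16 := by
  have d : wp L a - wp L b ≠ 0 := fun e => by
    rcases Un.wp_eq hb ha (sub_eq_zero.1 e).symm with c | c
    exacts [h2 c, h1 c]
  have hA := (add_thm ha hb h1).1
  have hB := (add_thm ha (w := -b) (by simpa using hb) (by rwa [← sub_eq_add_neg])).1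
  rw [← sub_eq_add_neg, show wp L (-b) = wp L b from L.weierstrassP_neg b,
    show wq L (-b) = -wq L b from L.derivWeierstrassP_neg b] at hB
  have key : (t - wp L (a + b)) * (t - wp L (a - b)) * (wp L a - wp L b) ^ 2 *
      (16 * (wp L a - wp L b) ^ 2) = 16 * (t + wp L a + wp L b) ^ 2 * (wp L a - wp L b) ^ 4 -
        8 * (t + wp L a + wp L b) * (wp L a - wp L b) ^ 2 * (wq L a ^ 2 + wq L b ^ 2) +
        (wq L a ^ 2 - wq L b ^ 2) ^ 2 := by
    calc _ = (4 * t * (wp L a - wp L b) ^ 2 - 4 * wp L (a + b) * (wp L a - wp L b) ^ 2) *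
          (4 * t * (wp L a - wp L b) ^ 2 - 4 * wp L (a - b) * (wp L a - wp L b) ^ 2) := by ring
      _ = _ := by rw [hA, hB]; ring
  rw [wq_sq ha, wq_sq hb] at key
  refine mul_right_cancel₀ (mul_ne_zero (by norm_num : (16 : ℂ) ≠ 0) (pow_ne_zero 2 d)) ?_
  rw [key]; ring

theorem lat_FON {L L' : PeriodPair} {X : Finset ℂ} (h : Rep L L' X) {u v : ℂ}
    (hu : u ∉ L'.lattice) (hv : v ∉ L'.lattice) (h1 : u + v ∉ L'.lattice)
    (h2 : u - v ∉ L'.lattice) :
    (wp L' u - wp L' v) ^ 2 * (KP L X u * KP L X v) ^ 2 =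
      (wp L u - wp L v) ^ (2 * #X) * (KP L X (u + v) * KP L X (u - v)) := by
  have k : ∀ {w}, w ∉ L'.lattice → w ∉ L.lattice := fun a e => a (h.le e)
  have e1 := h.prod_p' hv hu
  rw [h.split (F := fun w => wp L u - wp L w) (fun z l hl => by rw [wp_per hl]) v] at e1
  have e2 := h.prod_sq (F := fun x => wp L u - wp L (v + x))
    fun z l hl => by rw [← add_assoc, wp_per hl]
  have e3 : (∏ x ∈ X with x ∉ L.lattice, (wp L u - wp L (v + x))) ^ 2 * KP L X v ^ 2 =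
      ((wp L u - wp L v) ^ 2) ^ #{x ∈ X | x ∉ L.lattice} * (KP L X (u + v) * KP L X (u - v)) := by
    rw [e2, KP, KP, KP, ← prod_const, ← prod_pow]
    simp only [← prod_mul_distrib]
    refine prod_congr rfl fun x hx => ?_
    obtain ⟨a, b⟩ := mem_filter.1 hx
    have c := h.nz a hv
    have q1 := quad_FON (k hv) b (add_comm x v ▸ c.1) (fun e => c.2 (by simpa using neg_mem e))
      (wp L u)
    have q2 := quad_FON (k hu) (k hv) (k h1) (k h2) (wp L x)
    rw [← sub_eq_add_neg]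
    linear_combination q1 - q2
  rw [pow_mul, h.card_nz, pow_succ ((wp L u - wp L v) ^ 2), mul_right_comm, ← e3]
  linear_combination (-(KP L X v) ^ 2 * (KP L X u * (wp L' u - wp L' v) + (wp L u - wp L v) *
    ∏ x ∈ X with x ∉ L.lattice, (wp L u - wp L (v + x)))) * e1

theorem pt_FON {C : AddSubgroup Pt} {L : PeriodPair} (h : ND C) (l : LC C L) {U V : Pt}
    (hU : U ∉ C) (hV : V ∉ C) (h1 : U + V ∉ C) (h2 : U - V ∉ C) :
    (wp L (lg U) - wp L (lg V)) ^ 2 * (eC (kk C (xc U)) * eC (kk C (xc V))) ^ 2 =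
      eC ((xc U - xc V) ^ (2 * cd C)) * (eC (kk C (xc (U + V))) * eC (kk C (xc (U - V)))) := by
  have r := (l.rep h).1
  have g : ∀ {z : ℂ} {T : Pt}, ue z = iC T → T ∉ C →
      z ∉ L.lattice ∧ eC (kk C (xc T)) = KP L0 (XC C) z := fun {z T} e hT => by
    have m : z - lg T ∈ L0.lattice := by rw [← ue_eq, ue_lg, e]
    refine ⟨fun a => hT (l.lg.1 (by simpa using sub_mem a (r.le m))), kk_KP ?_⟩
    rw [← lg_x, ← wp_per (z := lg T) m, add_sub_cancel]
  have a := g (ue_lg U) hU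
  have b := g (ue_lg V) hV
  have c := g (z := lg U + lg V) (by rw [ue_add, ue_lg, ue_lg, map_add]) h1
  have d := g (z := lg U - lg V) (by
    rw [map_sub, ← ue_lg, ← ue_lg]; exact map_sub uE _ _) h2
  rw [a.2, b.2, c.2, d.2, map_pow, map_sub, ← lg_x, ← lg_x, ← card_XC]
  exact lat_FON r a.1 b.1 c.1 d.1

section

variable {C : AddSubgroup Pt} {L : PeriodPair} {P : Pt} {z : Qb}

theorem nm_FON (h : ND C) (p9 : 9 • P = 0) (p3 : 3 • P ≠ 0) {k : ℕ} (hk : ¬ 9 ∣ k) : k • P ∉ C :=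
  fun a => by
  have e : k • P = 0 := h.three a (h.three (C.nsmul_mem a 3) (by
    rw [← mul_nsmul', ← mul_nsmul', mul_comm, mul_nsmul', p9, nsmul_zero]))
  have d1 := addOrderOf_dvd_iff_nsmul_eq_zero.2 e
  have d2 := addOrderOf_dvd_iff_nsmul_eq_zero.2 p9
  have d3 := addOrderOf_dvd_iff_nsmul_eq_zero.not.2 p3
  have := Nat.le_of_dvd (by norm_num) d2
  generalize addOrderOf P = d at *
  interval_cases d <;> simp_all

theorem kn_FON (h : ND C) {U : Pt} (hU : U ∉ C) : kk C (xc U) ≠ 0 := by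
  obtain ⟨L, l⟩ := h.ex_LC
  rw [← map_ne_zero eC, kk_KP (lg_x _)]
  exact (l.rep h).1.KP_ne fun a => hU (l.lg.1 a)

theorem wp_FON (h : ND C) (l : LC C L) (k : ℕ) (P : Pt) : wp L (k * lg P) = wp L (lg (k • P)) := by
  have m : k * lg P - lg (k • P) ∈ L0.lattice := by rw [← ue_eq, ue_nat, ue_lg, ue_lg, map_nsmul]
  rw [← wp_per (z := lg (k • P)) ((l.rep h).1.le m), add_sub_cancel]

/-- the units are proportional to squares of differences of values of the quotient lattice -/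
theorem link_FON (hR : RZ_st) (hz : Rz z) (h : ND C) (l : LC C L) (x1 : xc P = z)
    (x4 : xc (4 • P) = s1 z) (x2 : xc (2 • P) = s2 z) (p9 : 9 • P = 0) (x3 : xc (3 • P) = 0)
    (p3 : 3 • P ≠ 0) : ∃ μ ≠ 0, eC (pE z C) = μ * (wp L (lg P) - wp L (7 * lg P)) ^ 2 ∧
      eC (pE (s1 z) C) = μ * (wp L (4 * lg P) - wp L (lg P)) ^ 2 ∧
      eC (pE (s2 z) C) = μ * (wp L (7 * lg P) - wp L (4 * lg P)) ^ 2 := by
  obtain ⟨-, -, r1, r0, r2, -⟩ := hR.2 z hz
  have st : ∀ i j : ℕ, ¬ 9 ∣ i + j → ¬ 9 ∣ j → ¬ 9 ∣ i + j + j → ¬ 9 ∣ i →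
      (wp L (lg ((i + j) • P)) - wp L (lg (j • P))) ^ 2 *
        (eC (kk C (xc ((i + j) • P))) * eC (kk C (xc (j • P)))) ^ 2 =
      eC ((xc ((i + j) • P) - xc (j • P)) ^ (2 * cd C)) *
        (eC (kk C (xc ((i + j + j) • P))) * eC (kk C (xc (i • P)))) := fun i j a b c d => by
    have e1 : (i + j) • P + j • P = (i + j + j) • P := (add_nsmul _ _ _).symm
    have e2 : (i + j) • P - j • P = i • P := by rw [add_nsmul, add_sub_cancel_right]
    have := pt_FON h l (nm_FON h p9 p3 a) (nm_FON h p9 p3 b) (e1 ▸ nm_FON h p9 p3 c)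
      (e2 ▸ nm_FON h p9 p3 d)
    rwa [e1, e2] at this
  have ng : ∀ i j : ℕ, i + j = 9 → xc (i • P) = xc (j • P) := fun i j e => by
    rw [← (xc_neg _).1, neg_eq_of_add_eq_zero_right (by rw [← add_nsmul, e, p9])]
  have a := st 1 1 (by norm_num) (by norm_num) (by norm_num) (by norm_num)
  have b := st 2 2 (by norm_num) (by norm_num) (by norm_num) (by norm_num)
  have c := st 3 1 (by norm_num) (by norm_num) (by norm_num) (by norm_num)
  have kn := fun k (hk : ¬ 9 ∣ k) => (map_ne_zero eC).2 (kn_FON h (nm_FON h p9 p3 hk))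
  have k0 := kn 3 (by norm_num)
  have k1 := kn 1 (by norm_num)
  have k2 := kn 2 (by norm_num)
  have k4 := kn 4 (by norm_num)
  norm_num only at a b c
  rw [ng 6 3 rfl] at b
  rw [ng 5 4 rfl] at c
  simp only [one_nsmul, x1, x2, x3, x4] at a b c k0 k1 k2 k4
  have ev : ∀ s t : Qb, (s - t) ^ (2 * cd C) = (t - s) ^ (2 * cd C) := fun s t => by
    rw [pow_mul, pow_mul, ← neg_sub, neg_sq]
  have w4 : wp L (4 * lg P) = wp L (lg (4 • P)) := by exact_mod_cast wp_FON h l 4 P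
  have w7 : wp L (7 * lg P) = wp L (lg (2 • P)) := by
    have m : 7 * Un.lg P + Un.lg ((2 : ℕ) • P) ∈ L0.lattice := by
      rw [← ue_eq_zero, ue_add, ← Nat.cast_ofNat (n := 7), ue_nat, ue_lg, ue_lg, ← map_nsmul, ← map_add,
        ← add_nsmul, p9, map_zero]
    refine Eq.trans ?_ ((wp_per (z := -Un.lg ((2 : ℕ) • P)) ((l.rep h).1.le m)).trans
      (L.weierstrassP_neg _))
    congr 1
    ring
  rw [ev] at a b
  refine ⟨(eC (kk C z) * eC (kk C (s1 z)) * eC (kk C (s2 z))) ^ 2 / eC (kk C 0),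
    div_ne_zero (pow_ne_zero _ (mul_ne_zero (mul_ne_zero k1 k4) k2)) k0, ?_⟩
  simp only [pE, r0, r1, r2, w4, w7, div_mul_eq_mul_div, eq_div_iff k0]
  rw [show s1 (s1 z) = s2 z from rfl]
  simp only [map_mul, map_pow eC _ 2]
  exact ⟨by linear_combination -eC (kk C (s1 z)) ^ 2 * a,
    by linear_combination -eC (kk C (s2 z)) ^ 2 * c, by linear_combination -eC (kk C z) ^ 2 * b⟩

end

theorem FON_pf (hR : RZ_st) : FON_st := fun z C hz h => by
  obtain ⟨-, -, r1, r0, r2, r3, -, -, -, -, P, x1, x4, x2, p9, x3, p3, -⟩ := hR.2 z hz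
  obtain ⟨L, l⟩ := h.ex_LC
  obtain ⟨μ, -, a, b, c⟩ := link_FON hR hz h l x1 x4 x2 p9 x3 p3
  have k1 := kn_FON h (nm_FON h p9 p3 (k := 1) (by norm_num))
  have k2 := kn_FON h (nm_FON h p9 p3 (k := 2) (by norm_num))
  have k4 := kn_FON h (nm_FON h p9 p3 (k := 4) (by norm_num))
  simp only [one_nsmul, x1, x2, x4] at k1 k2 k4
  have c3 : cbr 3 ^ 3 = 3 := by rw [cbr_cube, Rat.cast_ofNat]
  refine ⟨mul_ne_zero (pow_ne_zero _ fun e => ?_) (mul_ne_zero (mul_ne_zero k1 k4) k2), ?_,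
    eC.injective ?_⟩
  · have := congrArg (· ^ 3) e
    simp only [mul_pow, c3] at this
    norm_num at this
  · have e : (z - s2 z) ^ (2 * cd C) * (s2 z - s1 z) ^ (2 * cd C) * (s1 z - z) ^ (2 * cd C) =
        ((3 * cbr 3) ^ cd C) ^ 3 := by
      rw [← mul_pow, ← mul_pow, pow_mul, mul_right_comm, r3, ← pow_mul, mul_comm _ 3, pow_mul,
        mul_pow, c3]
      norm_num
    simp only [pE, pD, r0, r1, r2]
    rw [show s1 (s1 z) = s2 z from rfl]
    linear_combination (kk C z * kk C (s1 z) * kk C (s2 z)) ^ 3 * e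
  · simp only [map_add, map_mul, map_ofNat, map_pow, a, b, c]
    ring

end Pool.Agent.MP_e23604_nt.PH
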