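import Pool.Agent.Mg.Fe23604m.Gad4bd4
import Pool.Agent.Mg.Fe23604m.Gbeef41
import Pool.Agent.Mg.Fe23604m.G5a860c

set_option linter.all false

section

/-!
The model of `y ^ 2 + y = x ^ 3` with good reduction at three, and the action of the
decomposition group at three on torsion points of order prime to three.
-/

set_option autoImplicit false

open Finset QuadraticAlgebra
open scoped Classical

namespace Pool.Agent.MP_e23604_nt.W

open B R S

/-- the first coordinate of a point of order two -/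
noncomputable def r2 : Qb := -cbr 2 / 2

/-- the first coordinate in the model with good reduction at three -/
noncomputable def X3 (P : Pt) : Qb := (xc P / r2 - 1) / io pw

theorem r2_cube : 4 * r2 ^ 3 = -1 := by
  have := cbr_cube 2
  rw [r2]
  push_cast at this
  linear_combination -this / 2

theorem r2_ne : r2 ≠ 0 := fun e => by
  have := r2_cube
  rw [e] at this
  norm_num at this

theorem X3_eq (P : Pt) : xc P = r2 * (1 + io pw * X3 P) := by
  have := r2_ne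
  have := io_ne pw_ne
  rw [X3]
  field_simp
  ring

theorem X3_pw {P : Pt} (h : xc P ≠ 0) : X3 (pw • P) * (1 + io pw * X3 P) ^ 2 =
    X3 P ^ 3 - 2 * io pw * X3 P ^ 2 - 3 * X3 P := by
  have e := (PI_ok.2.2.1 P h).1
  rw [eq_div_iff (mul_ne_zero (by norm_num) (pow_ne_zero 2 h)), X3_eq, X3_eq P] at e
  have h1 := io_pw_sq
  refine mul_left_cancel₀ (mul_ne_zero three_ne_zero (io_ne pw_ne)) ?_
  generalize X3 (pw • P) = Y at *
  generalize X3 P = X at *
  generalize io pw = p at *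
  linear_combination 4 * e + (3 * (1 + p * Y) * (1 + p * X) ^ 2 + (1 + p * X) ^ 3) * r2_cube +
    (-p * X ^ 3) * h1

section loc

variable {V : Plc} (hV : Ov V pw)

include hV

theorem v3_lt : V.v 3 < 1 := by
  have : Ov V 3 := Ov_three.2 hV
  simpa [Ov, map_ofNat] using this

theorem v3_two : V.v 2 = 1 := by
  have := not_Ov.1 (hV.cop (pw_prime.coprime_iff_not_dvd.2 two_pw))
  simpa [map_ofNat] using this

theorem v_pm {x : Qb} (hx : V.v x ≤ 1) : V.v (io pw * x) < 1 := by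
  rw [map_mul]
  exact (mul_le_of_le_one_right (V.v.nonneg _) hx).trans_lt hV

theorem v_u {x : Qb} (hx : V.v x ≤ 1) : V.v (1 + io pw * x) = 1 := by
  rw [bLocA_add_eq V.na (by rw [map_one]; exact v_pm hV hx), map_one]

theorem X3_big {P : Pt} (h : xc P ≠ 0) (h1 : 1 < V.v (X3 P)) :
    V.v (X3 P) < V.v (X3 (pw • P)) := by
  have e := congrArg V.v (X3_pw h)
  have h0 : 0 < V.v (X3 P) := one_pos.trans h1
  have a1 : V.v (io pw * X3 P) < V.v (X3 P) := by
    rw [map_mul]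
    exact mul_lt_of_lt_one_left h0 hV
  have a2 : V.v (1 + io pw * X3 P) < V.v (X3 P) := bLocA_add_lt V.na (by rwa [map_one]) a1
  have a3 : V.v (-(2 * io pw * X3 P ^ 2) - 3 * X3 P) < V.v (X3 P ^ 3) := by
    refine bLocA_sub_lt V.na ?_ ?_
    · rw [V.v.map_neg, mul_assoc, map_mul, v3_two hV, one_mul, sq, ← mul_assoc, map_mul, map_pow]
      nlinarith [mul_pos h0 h0, mul_lt_mul_of_pos_right a1 h0]
    · rw [map_mul, map_pow]
      nlinarith [mul_pos h0 h0, mul_lt_mul_of_pos_right (v3_lt hV) h0]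
  rw [show X3 P ^ 3 - 2 * io pw * X3 P ^ 2 - 3 * X3 P =
    X3 P ^ 3 + (-(2 * io pw * X3 P ^ 2) - 3 * X3 P) by ring, bLocA_add_eq V.na a3, map_mul, map_pow,
    map_pow] at e
  by_contra hn
  have a4 : V.v (1 + io pw * X3 P) ^ 2 < V.v (X3 P) ^ 2 :=
    pow_lt_pow_left₀ a2 (V.v.nonneg _) two_ne_zero
  have a5 := mul_le_mul_of_nonneg_right (not_lt.1 hn) (sq_nonneg (V.v (1 + io pw * X3 P)))
  nlinarith

theorem X3_small {P : Pt} (h1 : V.v (X3 P) ≤ 1) : xc P ≠ 0 ∧ V.v (X3 (pw • P)) ≤ 1 ∧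
    V.v (X3 (pw • P) - X3 P ^ 3) < 1 := by
  have hu := v_u hV h1
  have h : xc P ≠ 0 := by
    rw [X3_eq]
    exact mul_ne_zero r2_ne fun e => by simp [e] at hu
  have e := X3_pw h
  have h2 : V.v (X3 P ^ 2) ≤ 1 := by rw [map_pow]; exact pow_le_one₀ (V.v.nonneg _) h1
  have h3 : V.v (X3 P ^ 3) ≤ 1 := by rw [map_pow]; exact pow_le_one₀ (V.v.nonneg _) h1
  have hp : V.v (io pw) ≤ 1 := le_of_lt hV
  have a1 : V.v (io pw * (-(2 * X3 P ^ 2) + io pw * X3 P)) < 1 :=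
    v_pm hV (bLocA_add_le V.na (by rw [V.v.map_neg]; exact bLocA_mul_one (bLocA_two V.na) h2)
      (bLocA_mul_one hp h1))
  have e1 : X3 (pw • P) * (1 + io pw * X3 P) ^ 2 =
      X3 P ^ 3 + io pw * (-(2 * X3 P ^ 2) + io pw * X3 P) := by
    linear_combination e - X3 P * io_pw_sq
  have a2 : V.v (X3 (pw • P)) ≤ 1 := by
    have := bLocA_add_le V.na h3 a1.le
    rwa [← e1, map_mul, map_pow, hu, one_pow, mul_one] at this
  refine ⟨h, a2, ?_⟩
  rw [show X3 (pw • P) - X3 P ^ 3 = io pw * (-(2 * X3 P ^ 2) + io pw * X3 P) -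
    io pw * (X3 (pw • P) * (X3 P * (2 + io pw * X3 P))) by linear_combination e1]
  exact bLocA_sub_lt V.na a1 (v_pm hV (bLocA_mul_one a2 (bLocA_mul_one h1
    (bLocA_add_le V.na (bLocA_two V.na) (bLocA_mul_one hp h1)))))

theorem X3_con {P Q : Pt} (h1 : V.v (X3 P) ≤ 1) (h2 : V.v (X3 Q) ≤ 1)
    (h : V.v (X3 P - X3 Q) < 1) (hn : X3 P ≠ X3 Q) :
    V.v (X3 (pw • P) - X3 (pw • Q)) < V.v (X3 P - X3 Q) := by
  have e1 := X3_pw (X3_small hV h1).1
  have e2 := X3_pw (X3_small hV h2).1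
  have u1 := v_u hV h1
  have u2 := v_u hV h2
  have hp : V.v (io pw) ≤ 1 := le_of_lt hV
  generalize X3 (pw • P) = c at *
  generalize X3 (pw • Q) = d at *
  generalize X3 P = a at *
  generalize X3 Q = b at *
  have e : (c - d) * ((1 + io pw * a) ^ 2 * (1 + io pw * b) ^ 2) = (a - b) * ((a - b) ^ 2 +
      io pw * (2 * ((a + b) * (a * b - 1)) + io pw * ((a * b - 1) * (a * b - 1)))) := by
    have h3 := io_pw_sq
    generalize io pw = p at *
    linear_combination (1 + p * b) ^ 2 * e1 - (1 + p * a) ^ 2 * e2 +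
      (a - b) * (a * b - 1) * h3
  have k := congrArg V.v e
  rw [map_mul, map_mul, map_pow, map_pow, u1, u2, one_pow, mul_one, mul_one, map_mul] at k
  have m1 : V.v (a * b - 1) ≤ 1 := bLocA_sub_le V.na (bLocA_mul_one h1 h2) (by rw [map_one])
  rw [k]
  refine mul_lt_of_lt_one_right (V.v.pos (sub_ne_zero.2 hn)) (bLocA_add_lt V.na ?_ (v_pm hV ?_))
  · rw [map_pow]
    exact pow_lt_one₀ (V.v.nonneg _) h two_ne_zero
  · exact bLocA_add_le V.na (bLocA_mul_one (bLocA_two V.na) (bLocA_mul_one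
      (bLocA_add_le V.na h1 h2) m1)) (bLocA_mul_one hp (bLocA_mul_one m1 m1))

theorem X3_tor {N : Zw} (hN : ¬ pw ∣ N) {P : Pt} (h0 : P ≠ 0) (h : N • P = 0) :
    V.v (X3 P) ≤ 1 := by
  have hN0 : N ≠ 0 := fun e => hN (e ▸ dvd_zero _)
  have hc := pw_prime.coprime_iff_not_dvd.2 hN
  obtain ⟨Q, hQ, hm⟩ := exists_max_image ((tor N).erase 0) (fun P => V.v (X3 P))
    ⟨P, (mem_tor0 hN0).2 ⟨h0, h⟩⟩
  refine (hm P ((mem_tor0 hN0).2 ⟨h0, h⟩)).trans (not_lt.1 fun hl => ?_)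
  obtain ⟨q0, q1⟩ := (mem_tor0 hN0).1 hQ
  have q2 : pw • Q ≠ 0 := fun e => q0 (cop_smul hc e q1)
  exact (hm _ ((mem_tor0 hN0).2 ⟨q2, by rw [smul_comm, q1, smul_zero]⟩)).not_gt
    (X3_big hV (fun e => q2 ((PI_ok.2.1 Q).2 e)) hl)

theorem X3_sep {N : Zw} (hN : ¬ pw ∣ N) {P Q : Pt} (h0 : P ≠ 0) (h : N • P = 0) (k0 : Q ≠ 0)
    (k : N • Q = 0) (e : V.v (X3 P - X3 Q) < 1) : P = Q ∨ P = -Q := by
  have hN0 : N ≠ 0 := fun e => hN (e ▸ dvd_zero _)
  have hc := pw_prime.coprime_iff_not_dvd.2 hN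
  refine xc_eq h0 k0 (by_contra fun hn => ?_)
  obtain ⟨⟨A, C⟩, hm, hmin⟩ := exists_min_image ((((tor N).erase 0) ×ˢ ((tor N).erase 0)).filter
    fun z => xc z.1 ≠ xc z.2 ∧ V.v (X3 z.1 - X3 z.2) < 1) (fun z => V.v (X3 z.1 - X3 z.2))
    ⟨(P, Q), mem_filter.2 ⟨mem_product.2 ⟨(mem_tor0 hN0).2 ⟨h0, h⟩, (mem_tor0 hN0).2 ⟨k0, k⟩⟩,
      hn, e⟩⟩
  obtain ⟨a, a3, a4⟩ := mem_filter.1 hm
  obtain ⟨⟨a0, a1⟩, c0, c1⟩ := (mem_product.1 a).imp (mem_tor0 hN0).1 (mem_tor0 hN0).1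
  have a2 : pw • A ≠ 0 := fun e => a0 (cop_smul hc e a1)
  have c2 : pw • C ≠ 0 := fun e => c0 (cop_smul hc e c1)
  have lt := X3_con hV (X3_tor hV hN a0 a1) (X3_tor hV hN c0 c1) a4
    fun e => a3 (by rw [X3_eq, e, ← X3_eq])
  refine (hmin (pw • A, pw • C) (mem_filter.2 ⟨mem_product.2 ⟨(mem_tor0 hN0).2
    ⟨a2, by rw [smul_comm, a1, smul_zero]⟩, (mem_tor0 hN0).2
    ⟨c2, by rw [smul_comm, c1, smul_zero]⟩⟩, fun e => a3 ?_, lt.trans a4⟩)).not_gt lt
  rcases xc_eq a2 c2 e with e | e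
  · rw [← sub_eq_zero, ← smul_sub] at e
    rw [sub_eq_zero.1 (cop_smul hc e (by rw [smul_sub, a1, c1, sub_self]))]
  · rw [← add_eq_zero_iff_eq_neg, ← smul_add] at e
    rw [add_eq_zero_iff_eq_neg.1 (cop_smul hc e (by rw [smul_add, a1, c1, add_zero])), (xc_neg _).1]

theorem X3_pow {P : Pt} (h1 : V.v (X3 P) ≤ 1) (k : ℕ) : V.v (X3 (pw ^ k • P)) ≤ 1 ∧
    V.v (X3 (pw ^ k • P) - X3 P ^ 3 ^ k) < 1 := by
  induction k with
  | zero => simpa using h1
  | succ k ih =>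
    obtain ⟨-, a1, a2⟩ := X3_small hV ih.1
    rw [pow_succ', mul_smul]
    refine ⟨a1, ?_⟩
    have a3 : V.v (X3 P ^ 3 ^ k) ≤ 1 := by rw [map_pow]; exact pow_le_one₀ (V.v.nonneg _) h1
    rw [pow_succ 3, pow_mul]
    generalize X3 P ^ 3 ^ k = b at *
    generalize X3 (pw ^ k • P) = a at *
    generalize X3 (pw • pw ^ k • P) = c at *
    rw [show c - b ^ 3 = c - a ^ 3 + (a * a + a * b + b * b) * (a - b) by ring]
    exact bLocA_add_lt V.na a2 ((bLocA_mul_le (bLocA_add_le V.na (bLocA_add_le V.na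
      (bLocA_mul_one ih.1 ih.1) (bLocA_mul_one ih.1 a3)) (bLocA_mul_one a3 a3))).trans_lt ih.2)

omit hV in
theorem X3_gal {g : GQ} (hg : g ∈ GK) (P : Pt) :
    X3 (((ω : Zw) ^ 2) ^ (kum 2 g).val • gal g P) = g (X3 P) := by
  have e : ∀ (i : ℕ) (Q : Pt), xc ((ω : Zw) ^ i • Q) = w3 ^ i * xc Q := fun i Q => by
    induction i with
    | zero => simp
    | succ i ih => rw [pow_succ', mul_smul, (xc_w _).1, ih, pow_succ', mul_assoc]
  have e2 : g r2 = w3 ^ (kum 2 g).val * r2 := by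
    rw [r2, map_div₀, map_neg, (S.KAP_ok.1 2 two_ne_zero).2.2 g, map_ofNat]
    ring
  rw [X3, X3, map_div₀, map_sub, map_div₀, io_fix hg, map_one, e2, ← pow_mul, e, (xc_gal g P).1]
  have := r2_ne
  have := pow_ne_zero (kum 2 g).val w3_ne_zero
  have e3 : (w3 ^ (kum 2 g).val) ^ 3 = 1 := by rw [← pow_mul, mul_comm, pow_mul, w3_cube, one_pow]
  congr 2
  field_simp
  rw [mul_comm 2, pow_mul]
  linear_combination g (xc P) * e3

/-- an element of the decomposition group that induces the `k`-th power of the Frobenius map -/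
theorem act_three {N : Zw} (hN : ¬ pw ∣ N) {g : GQ} (hg : g ∈ GK) {k : ℕ}
    (hk : ∀ P : Pt, P ≠ 0 → N • P = 0 → V.v (g (X3 P) - X3 P ^ 3 ^ k) < 1) :
    ∃ e : ℤ, (e = 1 ∨ e = -1) ∧ ∀ P : Pt, N • P = 0 →
      gal g P = ((e : Zw) * ω ^ (kum 2 g).val * pw ^ k) • P := by
  have hN0 : N ≠ 0 := fun e => hN (e ▸ dvd_zero _)
  have hc := pw_prime.coprime_iff_not_dvd.2 hN
  obtain ⟨⟨Q, hQ⟩, hc2, -⟩ := CYG_ok N hN0
  have key : ∃ e : ℤ, (e = 1 ∨ e = -1) ∧
      gal g Q = ((e : Zw) * ω ^ (kum 2 g).val * pw ^ k) • Q := by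
    by_cases h0 : Q = 0
    · exact ⟨1, Or.inl rfl, by simp [h0]⟩
    have hu : IsUnit (((ω : Zw) ^ 2) ^ (kum 2 g).val) := (w_unit.pow 2).pow _
    have e3 : (ω : Zw) ^ (kum 2 g).val * (ω ^ 2) ^ (kum 2 g).val = 1 := by
      rw [← mul_pow, ← pow_succ', www, one_pow]
    have := X3_sep hV hN (P := ((ω : Zw) ^ 2) ^ (kum 2 g).val • gal g Q) (Q := pw ^ k • Q)
      (by rwa [Ne, unit_smul hu, gal_ne])
      (by rw [smul_comm, ← gal_smul hg, hQ.zero, map_zero, smul_zero])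
      (fun e => h0 (cop_smul (hc.pow_left (m := k)) e hQ.zero))
      (by rw [smul_comm, hQ.zero, smul_zero]) (by
        rw [X3_gal hg, ← sub_sub_sub_cancel_right _ _ (X3 Q ^ 3 ^ k)]
        exact bLocA_sub_lt V.na (hk Q h0 hQ.zero) (X3_pow hV (X3_tor hV hN h0 hQ.zero) k).2)
    rcases this with e | e
    · refine ⟨1, Or.inl rfl, ?_⟩
      rw [Int.cast_one, one_mul, mul_smul, ← e, ← mul_smul, e3, one_smul]
    · refine ⟨-1, Or.inr rfl, ?_⟩
      rw [Int.cast_neg, Int.cast_one, neg_one_mul, neg_mul, neg_smul, mul_smul, ← smul_neg, ← e,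
        ← mul_smul, e3, one_smul]
  obtain ⟨e, h1, h2⟩ := key
  refine ⟨e, h1, fun P hP => ?_⟩
  obtain ⟨u, rfl⟩ := hc2 Q hQ P hP
  rw [gal_smul hg, h2, smul_comm]

/-- the residue action of an element of the decomposition group on finitely many integers -/
theorem ex_frob {σ : GQ} (hσ : FK V pw σ) {g : GQ} (hg : g ∈ V.D) {N : Subgroup GQ} (hN : ON N) :
    ∃ (k : ℕ) (τ : GQ), τ ∈ V.I ∧ (σ ^ k * τ)⁻¹ * g ∈ N ∧
      ∀ x, V.v x ≤ 1 → Fix N x → V.v (g x - x ^ 3 ^ k) < 1 := by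
  obtain ⟨k, τ, h1, h2⟩ := ((FRK_ok V pw pw_prime hV).2.2.2 σ hσ).2.2.2.1 N hN g hg
  refine ⟨k, τ, h1, h2, fun x hx hf => ?_⟩
  have e : g x = (σ ^ k) (τ x) := by
    conv_rhs => rw [← AlgEquiv.mul_apply, ← hf _ h2, ← AlgEquiv.mul_apply, mul_inv_cancel_left]
  have a : ∀ (i : ℕ) (y : Qb), V.v y ≤ 1 → V.v ((σ ^ i) y - y ^ 3 ^ i) < 1 := fun i => by
    induction i with
    | zero => simp
    | succ i ih =>
      intro y hy
      have b1 := hσ.2 (y ^ 3 ^ i) (by rw [map_pow]; exact pow_le_one₀ (V.v.nonneg _) hy)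
      rw [nn_pw, ← pow_mul, ← pow_succ] at b1
      rw [pow_succ' σ, AlgEquiv.mul_apply, ← sub_add_sub_cancel _ (σ (y ^ 3 ^ i)), ← map_sub]
      exact bLocA_add_lt V.na (by rw [hσ.1.1]; exact ih y hy) b1
  rw [e, ← sub_add_sub_cancel _ ((σ ^ k) x), ← map_sub]
  exact bLocA_add_lt V.na (by rw [(V.D.pow_mem hσ.1 k).1]; exact h1.1 x hx) (a k x hx)

/-- the decomposition group at three acts through `-ω` and `π` -/
theorem dpi_all {N : Zw} (hN : ¬ pw ∣ N) {g : GQ} (hg : g ∈ V.D) (X : Finset Qb) :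
    ∃ (e : ℤ) (k : ℕ), (e = 1 ∨ e = -1) ∧
      (∀ P : Pt, N • P = 0 → gal g P = ((e : Zw) * ω ^ (kum 2 g).val * pw ^ k) • P) ∧
      ∀ x ∈ X, V.v x ≤ 1 → V.v (g x - x ^ 3 ^ k) < 1 := by
  have hN0 : N ≠ 0 := fun e => hN (e ▸ dvd_zero _)
  obtain ⟨σ, hσ⟩ := (FRK_ok V pw pw_prime hV).1
  obtain ⟨H, h1, h2⟩ := exists_ON_fix (X ∪ (tor N).image X3)
  obtain ⟨k, τ, -, -, h3⟩ := ex_frob hV hσ hg h1
  obtain ⟨e, h4, h5⟩ := act_three hV hN hg.2 (k := k) fun P h0 h => h3 _ (X3_tor hV hN h0 h)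
    (h2 _ (mem_union_right _ (mem_image_of_mem _ ((mem_tor hN0).2 h))))
  exact ⟨e, k, h4, h5, fun x hx h => h3 x h (h2 x (mem_union_left _ hx))⟩

omit hV in
/-- elements close to one are cubes -/
theorem cub_fix {H : Subgroup GQ} (hH : H ≤ Dec V.v) {u : Qb} (hu : Fix H u)
    (h : V.v (u - 1) < V.v (io pw) ^ 3) : ∃ y, y ^ 3 = u ∧ V.v (y - 1) < V.v (io pw) ∧ Fix H y := by
  have e1 : V.v (w3 - 1) = V.v (io pw) := by
    rw [show w3 - 1 = -(w3 * w3 * io pw) by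
      rw [io_pw]; linear_combination w3_spec + 2 * w3_cube, V.v.map_neg, map_mul, map_mul, v_w3,
      one_mul, one_mul]
  have e2 : V.v (w3 ^ 2 - 1) = V.v (io pw) := by
    rw [show w3 ^ 2 - 1 = w3 * io pw by rw [io_pw]; linear_combination -w3_spec, map_mul, v_w3,
      one_mul]
  have p1 : V.v (io pw) ≤ 1 := V.io_le pw
  have ex : ∃ y, y ^ 3 = u ∧ V.v (y - 1) < V.v (io pw) := by
    obtain ⟨y, rfl⟩ := IsAlgClosed.exists_pow_nat_eq u three_pos
    by_contra hn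
    simp only [not_exists, not_and, not_lt] at hn
    have a0 := hn y rfl
    have a1 := hn (w3 * y) (by linear_combination y ^ 3 * w3_cube)
    have a2 := hn (w3 ^ 2 * y) (by linear_combination y ^ 3 * (w3 ^ 3 + 1) * w3_cube)
    rw [show y ^ 3 - 1 = (y - 1) * (w3 * y - 1) * (w3 ^ 2 * y - 1) by
      linear_combination (y ^ 2 - y) * w3_spec + (y ^ 2 - y ^ 3) * w3_cube, map_mul, map_mul] at h
    have p0 := V.v.nonneg (io pw)
    refine h.not_ge ?_
    rw [pow_three']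
    exact mul_le_mul (mul_le_mul a0 a1 p0 (p0.trans a0)) a2 p0
      (mul_nonneg (p0.trans a0) (p0.trans a1))
  obtain ⟨y, rfl, hy⟩ := ex
  refine ⟨y, rfl, hy, fun g hg => ?_⟩
  have v1 : V.v y = 1 := by
    rw [← add_sub_cancel 1 y, bLocA_add_eq V.na (by rw [map_one]; exact hy.trans_le p1), map_one]
  have y0 : y ≠ 0 := fun e => by simp [e] at v1
  have a : V.v (g y - y) < V.v (io pw) := by
    rw [← sub_sub_sub_cancel_right _ _ 1]
    exact bLocA_sub_lt V.na (by rwa [← map_one g, ← map_sub, hH hg]) hy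
  have b : (g y / y) ^ 3 = 1 := by rw [div_pow, ← map_pow, hu g hg, div_self (pow_ne_zero 3 y0)]
  rcases cube_one b with e | e | e <;> rw [div_eq_iff y0] at e
  · rw [e, one_mul]
  · rw [e, ← sub_one_mul, map_mul, e1, v1, mul_one] at a
    exact absurd a (lt_irrefl _)
  · rw [e, ← sub_one_mul, map_mul, e2, v1, mul_one] at a
    exact absurd a (lt_irrefl _)

end loc

end Pool.Agent.MP_e23604_nt.W

end

section

/-!
Formal properties of the Kummer cocycles.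
-/

set_option autoImplicit false

open Finset QuadraticAlgebra
open scoped Classical

namespace Pool.Agent.MP_e23604_nt.N

open B R S W

theorem gq_DL {M : Zw} (hM : M ≠ 0) : Gen M (gq M) := Classical.epsilon_spec (CYG_ok M hM).1

theorem dv_DL {M : Zw} (hM : M ≠ 0) (P : Pt) : M • dv M P = P :=
  Classical.epsilon_spec (smul_onto hM P)

theorem co_DL {M : Zw} (hM : M ≠ 0) {S : Pt} (hS : M • S = 0) : S = co (gq M) S • gq M :=
  co_spec ((CYG_ok M hM).2.1 _ (gq_DL hM) S hS)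

section

variable {R : Type} [CommRing R] {φ : Zw →+* R} {M : Zw} (hM : M ≠ 0) (h0 : φ M = 0)
include hM h0

theorem key_DL {S : Pt} {a : Zw} (h : S = a • gq M) : φ (co (gq M) S) = φ a := by
  obtain ⟨k, hk⟩ := (gq_DL hM).congr.1 ((co_spec ⟨a, h⟩).symm.trans h)
  rw [← sub_eq_zero, ← map_sub, hk, map_mul, h0, zero_mul]

theorem unit_DL {Q : Pt} (h : Gen M Q) : ∃ e u, Q = e • gq M ∧ φ u * φ e = 1 := by
  obtain ⟨u, hu⟩ := (CYG_ok M hM).2.1 _ h _ (gq_DL hM).zero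
  have e := co_DL hM h.zero
  obtain ⟨k, hk⟩ := ((gq_DL hM).congr (a := u * co (gq M) Q) (b := 1)).1
    (by rw [one_smul, mul_smul, ← e, ← hu])
  exact ⟨_, u, e, by rw [← map_mul, sub_eq_iff_eq_add.1 hk, map_add, map_mul, h0, zero_mul,
    zero_add, map_one]⟩

theorem add_DL {S T : Pt} (hS : M • S = 0) (hT : M • T = 0) :
    φ (co (gq M) (S + T)) = φ (co (gq M) S) + φ (co (gq M) T) := by
  rw [← map_add]
  exact key_DL hM h0 (by rw [add_smul, ← co_DL hM hS, ← co_DL hM hT])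

theorem sub_DL {S T : Pt} (hS : M • S = 0) (hT : M • T = 0) :
    φ (co (gq M) (S - T)) = φ (co (gq M) S) - φ (co (gq M) T) := by
  rw [← map_sub]
  exact key_DL hM h0 (by rw [sub_smul, ← co_DL hM hS, ← co_DL hM hT])

theorem smul_DL (b : Zw) {S : Pt} (hS : M • S = 0) :
    φ (co (gq M) (b • S)) = φ b * φ (co (gq M) S) := by
  rw [← map_mul]
  exact key_DL hM h0 (by rw [mul_smul, ← co_DL hM hS])

theorem zero_DL : φ (co (gq M) 0) = 0 :=
  (key_DL hM h0 (zero_smul Zw _).symm).trans (map_zero φ)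

theorem sum_DL {ι : Type} (s : Finset ι) (S : ι → Pt) (h : ∀ i ∈ s, M • S i = 0) :
    φ (co (gq M) (∑ i ∈ s, S i)) = ∑ i ∈ s, φ (co (gq M) (S i)) := by
  rw [← map_sum]
  exact key_DL hM h0 (by rw [sum_smul]; exact sum_congr rfl fun i hi => co_DL hM (h i hi))

end

theorem DL_pf : DL_st := by
  intro R _ φ M hM h0
  have hQ := gq_DL hM
  refine ⟨hQ, dv_DL hM, fun S T hS hT => ⟨add_DL hM h0 hS hT, sub_DL hM h0 hS hT⟩,
    fun b S hS => smul_DL hM h0 b hS, zero_DL hM h0, fun ι s S h => sum_DL hM h0 s S h,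
    fun hs => ⟨?_, fun c hc => ⟨gal_star hc, ?_⟩⟩, fun M' hM' => ?_, fun χ g hg => ?_⟩
  · obtain ⟨k, hk⟩ := hs
    change φ (star M) = 0
    rw [hk, map_mul, h0, zero_mul]
  · have d : ∀ b : Zw, M ∣ star b → M ∣ b := fun b hb => by
      have h1 := map_dvd (starRingEnd Zw) hb
      rw [starRingEnd_apply, starRingEnd_apply, star_star] at h1
      exact hs.trans h1
    obtain ⟨e, u, h1, h2⟩ := unit_DL hM h0 (Q := gal c (gq M)) fun b => by
      rw [← star_star b, ← gal_star hc, gal_ne, hQ, star_star]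
      exact ⟨d b, fun e => d _ (by rwa [star_star])⟩
    refine ⟨φ e, IsUnit.of_mul_eq_one_right _ h2, fun S hS => ⟨?_, ?_⟩⟩
    · rw [← star_star M, ← gal_star hc, dvd_smul hS hs, map_zero]
    · change _ = φ e * φ (star _)
      rw [← map_mul]
      refine key_DL hM h0 ?_
      rw [mul_comm, mul_smul, ← h1, ← gal_star hc, ← co_DL hM hS]
  · have hN := mul_ne_zero hM' hM
    obtain ⟨e, u, h1, h2⟩ := unit_DL hM h0 ((gq_DL hN).smul hM')
    refine ⟨φ u, IsUnit.of_mul_eq_one _ h2, fun S hS => ?_⟩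
    rw [key_DL hM h0 (S := M' • S) (a := e * co (gq (M' * M)) S) (by
      rw [mul_comm e, mul_smul, ← h1, smul_comm, ← co_DL hN hS]), map_mul, ← mul_assoc, h2, one_mul]
  have e1 : ∀ S : Pt, M • S = 0 → eta χ g S = (ω ^ (χ g).val * ps M g) • S := fun S hS => by
    rw [eta_apply, mul_smul, ← ((PS_ok M hM).1 g hg).1 S hS]
  have e2 : ∀ P P', eta χ g P = P → M • P' = P → M • (eta χ g P' - P') = 0 := fun P P' h h' => by
    rw [smul_sub, ← eta_smul χ hg, h', h, sub_self]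
  refine ⟨fun S hS => by rw [e1 S hS, smul_DL hM h0 _ hS, lamZ],
    fun P h => e2 P _ h (dv_DL hM P), fun hf => ?_⟩
  have e3 : ∀ P P', M • P' = P → dl φ M χ g P = φ (co (gq M) (eta χ g P' - P')) := fun P P' h => by
    have h1 := hf (dv M P - P') (by rw [smul_sub, dv_DL hM, h, sub_self])
    rw [map_sub] at h1
    rw [dl, sub_eq_sub_iff_sub_eq_sub.1 h1]
  have e4 := fun P h => e2 P _ h (dv_DL hM P)
  refine ⟨?_, fun P P' _ => e3 P P', fun P P' h h' => ⟨?_, ?_⟩, fun b P h => ?_,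
    fun ι s P h => ?_⟩
  · exact (key_DL hM h0 (e1 _ hQ.zero)).symm.trans
      ((key_DL hM h0 ((hf _ hQ.zero).trans (one_smul Zw _).symm)).trans (map_one φ))
  · rw [e3 (P + P') (dv M P + dv M P') (by rw [smul_add, dv_DL hM, dv_DL hM]), map_add,
      add_sub_add_comm, add_DL hM h0 (e4 P h) (e4 P' h'), dl, dl]
  · rw [e3 (P - P') (dv M P - dv M P') (by rw [smul_sub, dv_DL hM, dv_DL hM]), map_sub,
      sub_sub_sub_comm, sub_DL hM h0 (e4 P h) (e4 P' h'), dl, dl]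
  · rw [e3 (b • P) (b • dv M P) (by rw [smul_comm, dv_DL hM]), eta_smul χ hg, ← smul_sub,
      smul_DL hM h0 b (e4 P h), dl]
  · rw [e3 _ (∑ i ∈ s, dv M (P i)) (by
      rw [smul_sum]; exact sum_congr rfl fun i _ => dv_DL hM _), map_sum, ← sum_sub_distrib,
      sum_DL hM h0 s _ fun i hi => e4 _ (h i hi)]
    rfl

theorem LEV_pf (hDL : DL_st) (hKT : KT_st) : LEV_st := by
  intro R _ φ M M' hM hM' h0
  have hN := mul_ne_zero hM' hM
  have h1 : φ (M' * M) = 0 := by rw [map_mul, h0, mul_zero]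
  obtain ⟨-, -, -, -, -, -, -, d1, d2⟩ := hDL R φ M hM h0
  obtain ⟨-, d3, -, -, -, -, -, -, d4⟩ := hDL R φ _ hN h1
  obtain ⟨v, hv, d1⟩ := d1 M' hM'
  refine ⟨v, hv, fun H w n hn h hh => ?_⟩
  obtain ⟨-, -, -, -, -, k1, -, -, k2⟩ := hKT H R φ M w n hM h0 hn
  have k3 := k1 M' h hh
  obtain ⟨k4, k5, -⟩ := k2 h k3
  rw [((hKT H R φ _ w n hN h1 hn).2.2.2.2.2.2.2.2 h hh).2.1, k5, mul_sum]
  refine sum_congr rfl fun i _ => ?_
  rw [mul_left_comm, ((d2 _ h hh.1).2.2 k3.2.1).2.1 _ (M' • dv (M' * M) (H.y (Cn n i.1))) (k4 _)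
    (by rw [← mul_smul, mul_comm M, d3]), dl, d1 _ ((d4 _ h hh.1).2.1 _ (k4 _)), smul_sub,
    eta_smul _ hh.1]

end Pool.Agent.MP_e23604_nt.N

end

section

/-!
The finite-singular relation.
-/

set_option autoImplicit false

open Finset QuadraticAlgebra
open scoped Classical

namespace Pool.Agent.MP_e23604_nt.N

open B R S W

theorem val_FS {m : ℕ} [NeZero m] (a : ZMod m) :
    (a + 1).val + (if a = -1 then m else 0) = a.val + 1 := by
  have e : a + 1 = ((a.val + 1 : ℕ) : ZMod m) := by simp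
  rcases (Nat.succ_le_of_lt a.val_lt).lt_or_eq with h | h
  · have h1 : (a + 1).val = a.val + 1 := by rw [e, ZMod.val_cast_of_lt h]
    rw [if_neg fun k => by rw [k, neg_add_cancel, ZMod.val_zero] at h1; omega, h1]
  · have h1 : a + 1 = 0 := by rw [e, show a.val + 1 = m from h, ZMod.natCast_self]
    rw [if_pos (eq_neg_of_add_eq_zero_left h1), h1, ZMod.val_zero, zero_add]
    exact h.symm

theorem tel_FS {A : Type} [AddCommGroup A] {m : ℕ} [NeZero m] (z : ZMod m → A) :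
    ∑ a, (a + 1).val • (z a - z (a + 1)) = ∑ a, z a - m • z (-1) := by
  have h1 : ∑ a, (a + 1).val • z (a + 1) = ∑ a, a.val • z a :=
    Equiv.sum_comp (Equiv.addRight (1 : ZMod m)) fun a => a.val • z a
  have h2 : ∑ a, (a + 1).val • z a + m • z (-1) = ∑ a, a.val • z a + ∑ a, z a := by
    rw [← sum_add_distrib, ← Fintype.sum_ite_eq' (-1 : ZMod m) fun a => m • z a,
      ← sum_add_distrib]
    refine sum_congr rfl fun a _ => ?_
    rw [← succ_nsmul, ← val_FS a, add_smul, ite_smul, zero_smul]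
  simp only [smul_sub, sum_sub_distrib, h1]
  linear_combination (norm := abel) h2

theorem aff_FS {R : Type} [CommRing R] {m : ℕ} [NeZero m] {v : ZMod m → R} {c : R}
    (h : ∀ i, v (i + 1) = v i + c) (a : ZMod m) : v a = v 0 + c * a.val := by
  have : ∀ k : ℕ, v k = v 0 + c * k := fun k => by
    induction k with
    | zero => simp
    | succ k ih => rw [Nat.cast_succ, h, ih, Nat.cast_succ]; ring
  rw [← this, ZMod.natCast_zmod_val]

theorem key_FS (V : Plc) {m : ℕ} [NeZero m] (z : ZMod m → Pt) {τ f : GQ} {M b e u : Zw}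
    {D : Pt} (hm : (m : Zw) = M * b) (hl : (V.l : Zw) + 1 = M * b) (hb : b = e * star b)
    (hτ : ∀ P : Pt, E1 V.v (gal τ P - P)) (hf : f ∉ GK)
    (h1 : ∀ P : Pt, E1 V.v P → E1 V.v (gal f P))
    (h2 : E1 V.v (gal (f * f) D + (V.l : Zw) • D))
    (hc : E1 V.v (M • z (-1) - u • gal f (M • D))) :
    E1 V.v (∑ a, (a + 1).val • (gal τ (z a) - z (a + 1)) -
      (∑ a, z a + (e * u) • gal f (gal (f * f) D - D))) := by
  have k1 : E1 V.v (∑ a, (a + 1).val • (gal τ (z a) - z a)) :=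
    sum_induction _ _ (fun _ _ => E1a) trivial fun a _ => by
      rw [← Nat.cast_smul_eq_nsmul Zw]
      exact (E1m (hτ _) _).1
  convert E1s (E1s k1 (E1m hc b).1) (E1m (h1 _ h2) (e * u)).1 using 1
  have k2 := tel_FS z
  have k3 : gal (f * f) D + (V.l : Zw) • D = gal (f * f) D - D + b • M • D := by
    rw [← mul_smul, mul_comm b, ← hl, add_smul, one_smul]
    abel
  have k4 : ∑ a, (a + 1).val • (gal τ (z a) - z (a + 1)) =
      ∑ a, (a + 1).val • (gal τ (z a) - z a) + ∑ a, (a + 1).val • (z a - z (a + 1)) := by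
    rw [← sum_add_distrib]
    exact sum_congr rfl fun a _ => by rw [← smul_add, sub_add_sub_cancel]
  rw [k4, k2, k3, map_add, gal_star hf b, ← Nat.cast_smul_eq_nsmul Zw m, hm]
  generalize star b = s at hb
  subst hb
  module

theorem Cn_FS {n : Finset ℕ} {l : ℕ} (h : l ∉ n) (i : JJ) (a : ZMod (ml l)) :
    Cn (insert l n) (Function.update i l a) = Cn n i ⊔ Ln l a := by
  rw [Cn, sup_insert, Function.update_self, sup_comm]
  congr 1
  exact sup_congr rfl fun k hk => by rw [Function.update_of_ne (ne_of_mem_of_not_mem hk h)]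

section

variable {R : Type} [CommRing R]

theorem wp_FS (w : Wt R) {n : Finset ℕ} {l : ℕ} (h : l ∉ n) (i b : JJ) (a : ZMod (ml l)) :
    wp w (insert l n) (Function.update i l a + b) = wp w n (i + b) * w l (a + b l) := by
  rw [wp, prod_insert h, Pi.add_apply, Function.update_self, mul_comm]
  congr 1
  exact prod_congr rfl fun k hk => by
    rw [Pi.add_apply, Function.update_of_ne (ne_of_mem_of_not_mem hk h), Pi.add_apply]

theorem ktc_FS (H : HS) (φ : Zw →+* R) (M : Zw) {w w' : Wt R} {n : Finset ℕ} (g : GQ)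
    (h : ∀ l ∈ n, w l = w' l) : H.kt φ M w n g = H.kt φ M w' n g :=
  sum_congr rfl fun i _ => by
    congr 1
    exact prod_congr rfl fun k hk => by rw [h k hk]

theorem kti_FS (hS : SUM_st) (H : HS) (φ : Zw →+* R) (M : Zw) (w : Wt R) {n : Finset ℕ} {l : ℕ}
    (h : l ∉ n) (g : GQ) : H.kt φ M w (insert l n) g = ∑ i : Jg n, wp w n (i.1 + Av g) *
      ∑ a, w l (a + Al l g) * H.F φ M (sd (insert l n)) g (Cn n i.1 ⊔ Ln l a) := by
  rw [HS.kt, (hS R n fun i => wp w (insert l n) (i + Av g) *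
    H.F φ M (sd (insert l n)) g (Cn (insert l n) i)).1 l h]
  refine sum_congr rfl fun i _ => ?_
  rw [mul_sum]
  exact sum_congr rfl fun a _ => by rw [wp_FS w h, Cn_FS h, mul_assoc, Av]

theorem alg_FS {ι : Type} [Fintype ι] {a a' s s' d : ι → R} {x y c v k : R}
    (h : ∑ i, a' i * s' i = ∑ i, a i * s i) (e : y + k * ∑ i, a' i * (c * (s i + v * d i)) =
      x + 1 * (∑ i, a i * (c * (s i + v * d i)) + 1 * (y + ∑ i, a' i * (c * (k * s i - s' i))))) :
    x = v * c * (k * ∑ i, a' i * d i - ∑ i, a i * d i) := by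
  have h1 : ∀ (a s s' : ι → R) (p q : R), ∑ i, a i * (c * (p * s i + q * s' i)) =
      c * (p * ∑ i, a i * s i + q * ∑ i, a i * s' i) := fun a s s' p q => by
    simp only [mul_sum, ← sum_add_distrib]
    exact sum_congr rfl fun _ _ => by ring
  have h2 := h1 a s d 1 v
  have h3 := h1 a' s d 1 v
  have h4 := h1 a' s s' k (-1)
  simp only [one_mul, neg_mul, ← sub_eq_add_neg] at h2 h3 h4
  linear_combination k * h3 - h2 - h4 - e + c * h

end

theorem cgr_FS {n : Finset ℕ} {i i' : JJ} (h : ∀ l ∈ n, i l = i' l) : Cn n i = Cn n i' ∧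
    ∀ {R : Type} [CommRing R] (w : Wt R), wp w n i = wp w n i' :=
  ⟨sup_congr rfl fun k hk => by rw [h k hk], fun _ => prod_congr rfl fun k hk => by rw [h k hk]⟩

theorem FS_pf (hDL : DL_st) (hAL : AL_st) (hF : FRI_st) (hKT : KT_st) (hCN : CN_st) (hS : SUM_st)
    (hT : TL0_st) (hR : TRS_st) : FS_st := by
  intro H R _ φ M w n hM hφ hn V f τ c hMs h3 hln hf hMl hτ hA hw
  have lp := V.hl.out
  have l3 : V.l ≠ 3 := by omega
  have hn' : Pn (insert V.l n) := fun k hk => by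
    rcases mem_insert.1 hk with rfl | hk
    exacts [⟨lp, l3⟩, hn k hk]
  have nO : ∀ b : Zw, b ∣ V.l + 1 → ¬ Ov V b := fun b hb hO =>
    (Ov_l V).cop ⟨-1, 1, by ring⟩ (hO.dvd hb)
  have O3 : ¬ Ov V 3 := nO 3 (by exact_mod_cast Nat.cast_dvd_cast (α := Zw) (by omega : 3 ∣ V.l + 1))
  have OM := nO M hMl
  obtain ⟨I1, I2, I3⟩ := INE_ok V O3 τ hτ
  have τ9 := I3 9 fun h => O3 (Ov_pow (n := 2) (by rwa [show (3 : Zw) ^ 2 = 9 by norm_num]))
  have τK : τ ∈ GK := UM_le _ τ9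
  obtain ⟨fK, fk, F1, F2, -⟩ := (hF V h3).2.2.2.2 f hf
  have σK : f * f ∈ GK := V.D_le fk.1
  obtain ⟨u, hu, hc⟩ := H.cong (sd n) V f h3 hf
  obtain ⟨-, D2, D3, D4, D5, D6, D7, -, D9⟩ := hDL R φ M hM hφ
  obtain ⟨cM, D7⟩ := D7 hMs
  obtain ⟨-, v, hv, D7⟩ := D7 f fK
  have σ0 := (hR H R φ M w n hM hφ hn V f h3 hf).1 M hMl
  have Kσ := fun w' => (hKT H R (cf φ) M w' n hM cM hn).2.2.2.2.2.2.2.2 _ σ0
  have K := fun w' => hKT H R φ M w' _ hM hφ hn'
  obtain ⟨e, he⟩ := hMs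
  obtain ⟨b, hb⟩ := hMl
  have eu : IsUnit e := IsUnit.of_mul_eq_one (star e) (mul_left_cancel₀ hM (by
    rw [← mul_assoc, ← he, ← star_mul', ← he, star_star, mul_one]))
  have eb : b = e * star b := mul_left_cancel₀ hM (by
    rw [← mul_assoc, ← he, ← star_mul', ← hb, star_add, star_natCast, star_one])
  have hm : ((ml V.l : ℕ) : Zw) = M * b := by rw [ml, if_pos h3, Nat.cast_succ, hb]
  have χσ : H.χ (sd n) (f * f) = 0 := by
    have := H.anti (sd n) f fK _ σK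
    rw [← mul_assoc, mul_inv_cancel_right] at this
    generalize H.χ (sd n) (f * f) = x at this
    revert x
    decide
  have eσ : ∀ P, eta (H.χ (sd n)) (f * f) P = gal (f * f) P := fun P => by
    rw [eta_apply, χσ, ZMod.val_zero, pow_zero, one_smul]
  generalize hχ : H.χ (sd (insert V.l n)) = χ
  have eτ : ∀ P, eta χ τ P = gal τ P := fun P => by
    rw [eta_apply, ← hχ, H.fac _ _ τ9, ZMod.val_zero, pow_zero, one_smul]
  have Aτ : ∀ k ∈ n, Al k τ = 0 := fun k hk =>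
    ((hAL k (hn k hk).1 (hn k hk).2).2.2.2.2.2.1 V (ne_of_mem_of_not_mem hk hln).symm l3).1 τ hτ
  have cτ := fun i : JJ => cgr_FS (n := n) (i := i + Av τ) (i' := i) fun k hk => by
    rw [Pi.add_apply, Av, Aτ k hk, add_zero]
  obtain ⟨z, hz⟩ : ∃ z : JJ → ZMod (ml V.l) → Pt,
    ∀ i a, z i a = dv M (H.y (Cn n i ⊔ Ln V.l a)) := ⟨_, fun _ _ => rfl⟩
  have MS : ∀ i, M • ∑ a, z i a = 0 := fun i => by
    simp only [smul_sum, hz, D2]
    exact hT H _ _ _ (hCN n i hn).2.1 lp h3 ((hCN n i hn).2.2.1 _ lp hln)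
  have hG : ∀ g ∈ GK, ∀ i a, M • (eta χ g (z i a) - z (i + Av g) (a + Al V.l g)) = 0 ∧
      H.F φ M (sd (insert V.l n)) g (Cn n i ⊔ Ln V.l a) =
        φ (co (gq M) (eta χ g (z i a) - z (i + Av g) (a + Al V.l g))) := fun g hg i a => by
    have k : ga g (Cn n i ⊔ Ln V.l a) = Cn n (i + Av g) ⊔ Ln V.l (a + Al V.l g) := by
      rw [← (hCN n i hn).2.2.2.1 g hg, ← ((hAL _ lp l3).2.2.2.1 g hg).1 a]
      exact AddSubgroup.map_sup _ _ _
    rw [hz, hz, ← k, HS.F, ← hχ]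
    exact ⟨((K w).2.1 _ (Cn_FS hln i a ▸ (hCN _ _ hn').2.1) g hg).1, rfl⟩
  have hB : ∀ i, ∑ a, w V.l (a + 1) * H.F φ M (sd (insert V.l n)) τ (Cn n i ⊔ Ln V.l a) =
      c * (φ (co (gq M) (∑ a, z i a)) +
        φ (e * u) * v * dl (cf φ) M (H.χ (sd n)) (f * f) (H.y (Cn n i))) := fun i => by
    have k0 : z (i + Av τ) = z i := funext fun a => by rw [hz, hz, (cτ i).1]
    have k := hG τ τK i
    simp only [k0, hA, eτ] at k
    have k1 : ∑ a, (gal τ (z i a) - z i (a + 1)) = 0 := by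
      rw [sum_sub_distrib, ← map_sum, I2 M _ OM (MS i), sub_eq_zero]
      exact (Equiv.sum_comp (Equiv.addRight 1) (z i)).symm
    have k2 := ((D9 _ _ σK).2.1 _ ((Kσ w).1 i))
    have k3 : ∀ a : ZMod (ml V.l), M • (a + 1).val • (gal τ (z i a) - z i (a + 1)) = 0 :=
      fun a => by rw [smul_comm, (k a).1, smul_zero]
    have k4 : M • (e * u) • gal f (eta (H.χ (sd n)) (f * f) (dv M (H.y (Cn n i))) -
      dv M (H.y (Cn n i))) = 0 := by rw [smul_comm, (D7 _ k2).1, smul_zero]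
    have k5 := E1_tor (key_FS V (z i) hm hb eb I1 fK F1 (F2 (dv M (H.y (Cn n i)))) (u := u) (by
      rw [hz, D2, D2]
      exact hc _ (hCN n i hn).2.1 ((hCN n i hn).2.2.1 _ lp hln) _)) OM (by
      rw [← eσ, smul_sub, smul_add, MS, k4, smul_sum, sum_eq_zero fun a _ => k3 a, add_zero,
        sub_zero])
    have k6 := congrArg (fun P => φ (co (gq M) P)) (sub_eq_zero.1 k5)
    have k7 := D6 _ univ _ fun a _ => (k a).1
    simp only [← eσ] at k6
    rw [D6 _ _ _ fun a _ => k3 a, (D3 _ _ (MS i) k4).1, D4 _ _ (D7 _ k2).1, (D7 _ k2).2] at k6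
    rw [k1, D5] at k7
    rw [dl, mul_assoc _ v, ← k6, ← add_zero (c * _), ← mul_zero (w V.l 0), k7, mul_sum, mul_sum,
      ← sum_add_distrib]
    refine sum_congr rfl fun a _ => ?_
    rw [(k a).2, ← Nat.cast_smul_eq_nsmul Zw, D4 _ _ (k a).1, map_natCast, aff_FS hw (a + 1)]
    ring
  refine ⟨φ (e * u) * v, ((eu.mul hu).map φ).mul hv, fun g hg g0 => ?_⟩
  subst hχ
  have hk := (K w).2.2.2.2.2.2.1 g hg τ τK
  have kK := UM_le _ hk.1
  have c1 := (K w).2.2.1 _ kK _ (GK.mul_mem τK hg)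
  have c3 := (K w).2.2.1 τ τK g hg
  rw [((D9 _ _ kK).2.2 ((K w).2.2.2.2.2.1 pw _ ((K w).2.2.2.2.1 _ hk).1).2.1).1,
    ktc_FS H φ M (w := sh w _) (w' := w) _ (fun k h => funext fun i => by
      rw [sh, Av, hk.2 k h, add_zero]), c3,
    ((D9 _ _ τK).2.2 fun S h => by rw [eτ, I2 M S OM h]).1, mul_assoc, inv_mul_cancel_left,
    inv_mul_cancel_right, (K w).2.2.1 g hg τ τK] at c1
  have e1 : ∀ w' : Wt R, w' V.l = w V.l → H.kt φ M w' (insert V.l n) τ = ∑ i : Jg n, wp w' n i.1 *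
      (c * (φ (co (gq M) (∑ a, z i.1 a)) + φ (e * u) * v *
        dl (cf φ) M (H.χ (sd n)) (f * f) (H.y (Cn n i.1)))) := fun w' h => by
    rw [kti_FS hS H φ M w' hln, h, hA]
    exact sum_congr rfl fun i _ => by rw [hB, (cτ _).2]
  have e2 : H.kt φ M (sh w (Av τ)) (insert V.l n) g = H.kt φ M w (insert V.l n) g +
      ∑ i : Jg n, wp w n (i.1 + Av g) * (c * (lamZ φ (H.χ (sd (insert V.l n))) M g *
        φ (co (gq M) (∑ a, z i.1 a)) - φ (co (gq M) (∑ a, z (i.1 + Av g) a)))) := by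
    rw [kti_FS hS H φ M _ hln, kti_FS hS H φ M _ hln, ← sum_add_distrib]
    refine sum_congr rfl fun i _ => ?_
    have k := hG g hg i.1
    simp only [g0, add_zero] at k
    rw [← mul_add, ← (D9 _ _ hg).1 _ (MS _), ← (D3 _ _ (by rw [← eta_smul _ hg, MS, map_zero])
      (MS _)).2, map_sum, ← sum_sub_distrib, D6 _ _ _ fun a _ => (k a).1, mul_sum _ _ c,
      ← sum_add_distrib]
    congr 1
    · exact (cτ _).2 w
    · exact sum_congr rfl fun a _ => by rw [sh, Av, hA, hw, ← (k a).2, add_mul]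
  have e3 := (hS R n fun i => wp w n i * φ (co (gq M) (∑ a, z i a))).2.1 (fun i i' h => by
    simp only [hz, (cgr_FS h).1, (cgr_FS h).2]) (Av g)
  rw [e1 w rfl, e1 _ (funext fun i => by rw [sh, Av, g0, add_zero]), e2] at c1
  rw [(Kσ _).2.1, (Kσ _).2.1, HS.kc]
  exact alg_FS e3 c1

end Pool.Agent.MP_e23604_nt.N

end
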