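import Pool.Agent.Mg.Fe23604m.G160902
import Pool.Agent.Mg.Fe23604m.G8dd564

set_option linter.all false

section

/-!
The decomposition group at three: action on torsion points, local units, independent characters.
-/

set_option autoImplicit false

open Finset QuadraticAlgebra
open scoped Classical

namespace Pool.Agent.MP_e23604_nt.X

open B R S W

theorem ov_UN3 : Ov V3 pw := Ov_three.1 (Ov_l V3)

theorem DPI_pf : DPI_st := by
  obtain ⟨σ, hσ⟩ := (FRK_ok V3 pw pw_prime ov_UN3).1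
  obtain ⟨s, s1, ⟨N, n1, n2⟩, s3, s4⟩ :=
    ((FRK_ok V3 pw pw_prime ov_UN3).2.2.2 σ hσ).2.2.2.2.2 2 two_ne_zero
  refine ⟨s, s1, ⟨N, n1, n2⟩, s3, ⟨σ, hσ.1, s4⟩, fun n hn g hg => ?_⟩
  have hN : ¬ pw ∣ (n : Zw) := fun e =>
    hn (Nat.prime_three.dvd_of_dvd_pow (nn_nat n ▸ pw_dvd_iff.1 e))
  have hN0 : (n : Zw) ≠ 0 := fun e => hN (e ▸ dvd_zero _)
  obtain ⟨H, h1, h2⟩ := exists_ON_fix ((tor n).image X3)
  obtain ⟨k, τ, t1, t2, h3⟩ := ex_frob ov_UN3 hσ hg (n1.inf h1)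
  obtain ⟨e, -, h5⟩ := act_three ov_UN3 hN hg.2 (k := k) fun P h0 h => h3 _
    (X3_tor ov_UN3 hN h0 h) fun u hu => h2 _ (mem_image_of_mem _ ((mem_tor hN0).2 h)) u hu.2
  have a : ∀ i : ℕ, s (σ ^ i) = i := fun i => by
    induction i with
    | zero => simpa using s3 1 V3.I.one_mem
    | succ i ih => rw [pow_succ, s1 _ (V3.D.pow_mem hσ.1 i) _ hσ.1, ih, s4, Nat.cast_succ]
  have b : s g = k := by
    rw [← n2 _ (V3.D.mul_mem (V3.D.pow_mem hσ.1 k) (V3.I_le t1)) g hg t2.1,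
      s1 _ (V3.D.pow_mem hσ.1 k) _ (V3.I_le t1), a, s3 τ t1, add_zero]
  refine ⟨e * (-3) ^ (k / 2), fun P hP => ?_⟩
  rw [h5 P hP, b, ZMod.val_natCast]
  conv_lhs => rw [← Nat.div_add_mod k 2, pow_add, pow_mul, pw_sq]
  push_cast
  congr 1
  ring

/-- the local integers -/
noncomputable def O3 : Subring Qb where
  carrier := {x | Fix V3.D x ∧ V3.v x ≤ 1}
  mul_mem' a b := ⟨fun g h => by rw [map_mul, a.1 g h, b.1 g h], bLocA_mul_one a.2 b.2⟩
  one_mem' := ⟨fun g _ => map_one g, (map_one _).le⟩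
  add_mem' a b := ⟨fun g h => by rw [map_add, a.1 g h, b.1 g h], bLocA_add_le V3.na a.2 b.2⟩
  zero_mem' := ⟨fun g _ => map_zero g, by simp⟩
  neg_mem' a := ⟨fun g h => by rw [map_neg, a.1 g h], by rw [V3.v.map_neg]; exact a.2⟩

theorem fio_UN3 (b : Zw) : Fix V3.D (W.io b) := fun _ h => io_fix h.2 b

/-- the uniformizer -/
noncomputable def p3 : O3 := ⟨W.io pw, fio_UN3 pw, V3.io_le pw⟩

theorem p3_sq : p3 ^ 2 = -3 := Subtype.ext io_pw_sq

theorem pos_UN3 : 0 < V3.v (W.io pw) := V3.v.pos (io_ne pw_ne)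

theorem dv_UN3 {x : Qb} (h : Fix V3.D x) {k : ℕ} (e : V3.v x ≤ V3.v (W.io pw) ^ k) :
    ∃ t : O3, x = (p3 ^ k * t : O3) := by
  refine ⟨⟨x / W.io pw ^ k, fun g hg => by rw [map_div₀, map_pow, h g hg, fio_UN3 pw g hg], ?_⟩, ?_⟩
  · rwa [map_div₀, map_pow, div_le_one (pow_pos pos_UN3 k)]
  · exact (mul_div_cancel₀ x (pow_ne_zero k (io_ne pw_ne))).symm

theorem vd_UN3 (k : ℕ) (t : O3) : V3.v (p3 ^ k * t : O3) ≤ V3.v (W.io pw) ^ k := by
  change V3.v (W.io pw ^ k * t) ≤ _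
  rw [map_mul, map_pow]
  exact mul_le_of_le_one_right (pow_pos pos_UN3 k).le t.2.2

theorem lt_UN3 (k : ℕ) : V3.v (W.io pw) ^ (k + 1) < V3.v (W.io pw) ^ k :=
  pow_lt_pow_right_of_lt_one₀ pos_UN3 ov_UN3 k.lt_succ_self

theorem val_UN3 {y : Qb} (h0 : y ≠ 0) (h : Fix V3.D y) : ∃ k : ℤ, V3.v y = V3.v (W.io pw) ^ k :=
  (PLK_ok.2.2.1 V3 pw pw_prime ov_UN3).2.2.2.2.2.2 y h0 fun g hg => h g (V3.I_le hg)

theorem sm_UN3 (t : O3) (h : V3.v t < 1) : ∃ t' : O3, t = p3 * t' := by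
  have : V3.v t ≤ V3.v (W.io pw) ^ 1 := by
    by_cases h0 : (t : Qb) = 0
    · rw [h0, map_zero]
      exact (pow_pos pos_UN3 1).le
    obtain ⟨k, e⟩ := val_UN3 h0 t.2.1
    rw [e] at h ⊢
    rw [← zpow_natCast]
    exact zpow_le_zpow_right_of_le_one₀ pos_UN3 (le_of_lt ov_UN3)
      ((zpow_lt_one_iff_right_of_lt_one₀ pos_UN3 ov_UN3).1 h)
  obtain ⟨t', e⟩ := dv_UN3 t.2.1 this
  exact ⟨t', by rw [Subtype.ext e, pow_one]⟩

theorem res_UN3 (t : O3) : ∃ c : ℕ, c < 3 ∧ ∃ t' : O3, t = c + p3 * t' := by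
  obtain ⟨σ, hσ⟩ := (FRK_ok V3 pw pw_prime ov_UN3).1
  have h := hσ.2 t t.2.2
  rw [t.2.1 σ hσ.1, nn_pw, show (t : Qb) - t ^ 3 = -(t * (t - 1 : O3) * (t + 1 : O3)) by
    push_cast; ring, V3.v.map_neg, map_mul, map_mul] at h
  by_cases h0 : V3.v t < 1
  · obtain ⟨u, e⟩ := sm_UN3 t h0
    exact ⟨0, three_pos, u, by rw [Nat.cast_zero, zero_add, e]⟩
  by_cases h1 : V3.v (t - 1 : O3) < 1
  · obtain ⟨u, e⟩ := sm_UN3 _ h1
    exact ⟨1, by norm_num, u, by rw [← e]; simp⟩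
  rw [le_antisymm t.2.2 (not_lt.1 h0), le_antisymm (t - 1).2.2 (not_lt.1 h1), one_mul,
    one_mul] at h
  obtain ⟨u, e⟩ := sm_UN3 _ h
  exact ⟨2, by norm_num, u + p3, by push_cast; linear_combination e - p3_sq⟩

theorem apx_UN3 (k : ℕ) (t : O3) : ∃ (a : Zw) (t' : O3), (t : Qb) - W.io a = (p3 ^ k * t' : O3) := by
  induction k generalizing t with
  | zero => exact ⟨0, t, by simp⟩
  | succ k ih =>
    obtain ⟨c, -, u, rfl⟩ := res_UN3 t
    obtain ⟨a, t', e⟩ := ih u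
    refine ⟨c + pw * a, t', ?_⟩
    rw [map_add, map_mul, map_natCast]
    push_cast at e ⊢
    change _ + W.io pw * _ - _ = W.io pw ^ (k + 1) * _
    change _ = W.io pw ^ k * _ at e
    linear_combination W.io pw * e

theorem alg_UN3 {A : Type} [CommRing A] (p : A) (k c : ℕ) (t : A) : ∃ t' : A,
    (1 + p ^ (k + 1) * (c + p * t)) * (1 - p ^ (k + 1)) ^ c = 1 + p ^ (k + 2) * t' := by
  induction c generalizing t with
  | zero => exact ⟨t, by push_cast; ring⟩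
  | succ c ih =>
    obtain ⟨t', e⟩ := ih (t - p ^ k * (c + 1 + p * t))
    exact ⟨t', by push_cast; linear_combination e⟩

theorem fx_UN3 (t : O3) : Fix V3.D t := t.2.1

theorem ne_UN3 (k : ℕ) (t : O3) : ((1 + p3 ^ (k + 1) * t : O3) : Qb) ≠ 0 := fun e => by
  have := vd_UN3 (k + 1) t
  rw [Subring.coe_add, Subring.coe_one, add_comm, add_eq_zero_iff_eq_neg] at e
  rw [e, V3.v.map_neg, map_one] at this
  exact this.not_gt (pow_lt_one₀ pos_UN3.le ov_UN3 k.succ_ne_zero)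

section

variable (h : KW_st)

include h

theorem mul_UN3 {x y g} (x0 : x ≠ 0) (y0 : y ≠ 0) (hx : Fix V3.D x) (hy : Fix V3.D y)
    (hg : g ∈ V3.D) (n : ℕ) : kw (x * y ^ n) g = kw x g + n * kw y g := by
  induction n with
  | zero => simp
  | succ n ih =>
    rw [pow_succ, ← mul_assoc, ((h.1 V3.D _ V3.D_le (mul_ne_zero x0 (pow_ne_zero n y0))
      fun u hu => by rw [map_mul, map_pow, hx u hu, hy u hu]).2.2.2.2.2 y y0 hy g hg).1, ih]
    push_cast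
    ring

theorem two_UN3 {x : Qb} (hx : Fix V3.D x) (e : V3.v (x - 1) < V3.v (W.io pw) ^ 3) :
    ∀ g ∈ V3.D, kw x g = 0 := by
  obtain ⟨y, h1, h2, h3⟩ := cub_fix (V := V3) (H := V3.D) inf_le_left hx e
  refine (h.1 V3.D x V3.D_le (fun e0 => ?_) hx).2.2.2.1.2 ⟨y, h1, h3⟩
  rw [e0, zero_sub, V3.v.map_neg, map_one] at e
  exact e.not_gt (pow_lt_one₀ pos_UN3.le ov_UN3 three_ne_zero)

theorem step_UN3 (k : ℕ) (t : O3) : ∃ (c : ℕ) (t' : O3), c < 3 ∧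
    (c = 0 → 1 + p3 ^ (k + 1) * t = 1 + p3 ^ (k + 2) * t') ∧ ∀ g ∈ V3.D,
      kw (1 + p3 ^ (k + 1) * t : O3) g =
        kw (1 + p3 ^ (k + 2) * t' : O3) g - c * kw (1 - p3 ^ (k + 1) : O3) g := by
  obtain ⟨c, h1, u, rfl⟩ := res_UN3 t
  obtain ⟨t', e⟩ := alg_UN3 p3 k c u
  refine ⟨c, t', h1, fun h0 => by rw [← e, h0, pow_zero, mul_one], fun g hg => ?_⟩
  rw [← e, Subring.coe_mul, Subring.coe_pow, mul_UN3 h (ne_UN3 k _)
    (by simpa [sub_eq_add_neg] using ne_UN3 k (-1)) (fx_UN3 _) (fx_UN3 _) hg,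
    add_sub_cancel_right]

theorem three_UN3 (t : O3) : ∃ a : ZMod 3, (V3.v (p3 ^ 3 * t : O3) = V3.v (W.io pw) ^ 3 → a ≠ 0) ∧
    ∀ g ∈ V3.D, kw (1 + p3 ^ 3 * t : O3) g = a * kw (W.io (1 + 3 * pw)) g := by
  obtain ⟨c, u, h1, h2, h3⟩ := step_UN3 h 2 t
  refine ⟨-c, fun e e0 => ?_, fun g hg => ?_⟩
  · have : c = 0 := by
      interval_cases c
      · rfl
      all_goals exact absurd e0 (by decide)
    rw [add_left_cancel (h2 this)] at e
    exact ((vd_UN3 _ u).trans_lt (lt_UN3 3)).ne e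
  · rw [h3 g hg, two_UN3 h (fx_UN3 _) (by
      simpa using (vd_UN3 _ u).trans_lt (lt_UN3 3)) g hg,
      show 1 + 3 * pw = 1 - pw ^ 3 by decide, map_sub, map_pow, map_one, zero_sub, neg_mul]
    rfl

theorem kum_UN3 {m : ℕ} (h0 : m ≠ 0) {g : GQ} (hg : g ∈ V3.D) : kw m g = kum m g := by
  simpa using (h.2.1 m (Nat.cast_ne_zero.2 h0)).1 g hg.2

theorem one_UN3 {g : GQ} (hg : g ∈ V3.D) : kw 1 g = 0 :=
  two_UN3 h (fun u _ => map_one u) (by simpa using pow_pos pos_UN3 3) g hg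

theorem pow_UN3 {m : ℕ} (h0 : m ≠ 0) {g : GQ} (hg : g ∈ V3.D) (n : ℕ) :
    kw ((m : Qb) ^ n) g = n * kum m g := by
  have := mul_UN3 h one_ne_zero (Nat.cast_ne_zero.2 h0) (fun u _ => map_one u)
    (fun u _ => map_natCast u m) hg n
  rwa [one_mul, one_UN3 h hg, zero_add, kum_UN3 h h0 hg] at this

theorem UN3_pf : UN3_st := by
  have f1 : ∀ {x : Qb}, Fix V3.D x → Fix V3.D (x - 1) := fun hx g hg => by
    rw [map_sub, hx g hg, map_one]
  refine ⟨fun x hx e k => ?_, fun x => two_UN3 h, fun x hx e => ?_, fun x hx e => ?_,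
    fun m hm g hg => ?_⟩
  · obtain ⟨a, t, e⟩ := apx_UN3 k ⟨x, hx, e⟩
    exact ⟨a, e ▸ vd_UN3 k t⟩
  · obtain ⟨t, e⟩ := dv_UN3 (f1 hx) e
    rw [e, sub_eq_iff_eq_add'.1 e]
    exact three_UN3 h t
  · obtain ⟨t, e⟩ := dv_UN3 (k := 2) (f1 hx) (by rwa [← map_pow, io_pw_sq, V3.v.map_neg])
    obtain ⟨c, u, -, -, h3⟩ := step_UN3 h 1 t
    obtain ⟨b, -, h4⟩ := three_UN3 h u
    refine ⟨c, b, fun g hg => ?_⟩
    have e4 : ((1 - p3 ^ (1 + 1) : O3) : Qb) = ((2 : ℕ) : Qb) ^ 2 := by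
      rw [p3_sq]
      norm_num
      rfl
    rw [sub_eq_iff_eq_add'.1 e]
    refine (h3 g hg).trans ?_
    rw [h4 g hg, e4, pow_UN3 h two_ne_zero hg]
    push_cast
    have : (3 : ZMod 3) = 0 := rfl
    linear_combination (-c * kum 2 g) * this
  · have h0 : m ≠ 0 := fun e => hm (e ▸ dvd_zero _)
    obtain ⟨k, hk⟩ : ∃ k, m ^ 2 = 1 + 3 * k := by
      refine ⟨m ^ 2 / 3, ?_⟩
      have : m ^ 2 % 3 = 1 := by
        obtain e | e : m % 3 = 1 ∨ m % 3 = 2 := by omega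
        all_goals rw [Nat.pow_mod, e]
      omega
    obtain ⟨r, hr⟩ : ∃ r : ℕ, 2 ^ (4 * k) = 1 + 15 * k + 9 * r := by
      clear hk
      induction k with
      | zero => exact ⟨0, rfl⟩
      | succ k ih =>
        obtain ⟨r, e⟩ := ih
        exact ⟨25 * k + 16 * r, by rw [mul_add, pow_add, e]; ring⟩
    have a := mul_UN3 h (pow_ne_zero 2 (Nat.cast_ne_zero.2 h0)) (Nat.cast_ne_zero.2 two_ne_zero)
      (x := (m : Qb) ^ 2) (fun u _ => by rw [map_pow, map_natCast]) (fun u _ => map_natCast u 2)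
      hg (4 * k)
    rw [two_UN3 h (fun u _ => by rw [map_mul, map_pow, map_pow, map_natCast, map_natCast]) ?_ g hg,
      pow_UN3 h h0 hg, kum_UN3 h two_ne_zero hg] at a
    · rw [hk, Nat.add_sub_cancel_left, Nat.mul_div_cancel_left _ three_pos]
      push_cast at a
      have : (3 : ZMod 3) = 0 := rfl
      linear_combination a + (kum m g + k * kum 2 g) * this
    · have := (vd_UN3 4 (2 * k + 5 * k ^ 2 + r + 3 * k * r : ℕ)).trans_lt (lt_UN3 3)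
      rw [show p3 ^ 4 = 9 by linear_combination (p3 ^ 2 - 3) * p3_sq] at this
      refine lt_of_eq_of_lt (congrArg _ ?_) this
      rw [← Nat.cast_pow, ← Nat.cast_pow, hk, hr]
      change _ = (9 : Qb) * ((2 * k + 5 * k ^ 2 + r + 3 * k * r : ℕ) : Qb)
      push_cast
      ring

theorem IND_pf : IND_st := by
  intro a b c d e
  have f : ∀ z : Zw, z ≠ 0 → ∀ i : ℕ, ∀ y : Zw, y ≠ 0 → ∀ g ∈ V3.D,
      kw (W.io (z * y ^ i)) g = kw (W.io z) g + i * kw (W.io y) g := fun z z0 i y y0 g hg => by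
    rw [map_mul, map_pow, mul_UN3 h (io_ne z0) (io_ne y0) (fio_UN3 z) (fio_UN3 y) hg]
  have x0 : ∀ a b c d : ZMod 3,
      (1 * ω ^ a.val * 2 ^ c.val * (1 + 3 * pw) ^ d.val * 3 ^ b.val : Zw) ≠ 0 := by decide
  obtain ⟨s, s1, s2⟩ := (h.1 V3.D _ V3.D_le (io_ne (x0 a b c d)) (fio_UN3 _)).2.2.2.1.1
    fun g hg => by
      rw [f _ (by simpa using x0 a 0 c d) _ _ (by decide) g hg,
        f _ (by simpa using x0 a 0 c 0) _ _ (by decide) g hg,
        f _ (by simpa using x0 a 0 0 0) _ _ (by decide) g hg,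
        f _ one_ne_zero _ _ w_unit.ne_zero g hg, map_one, one_UN3 h hg, io_w, map_ofNat,
        map_ofNat]
      have a2 := kum_UN3 h two_ne_zero hg
      have a3 := kum_UN3 h three_ne_zero hg
      push_cast at a2 a3
      simp only [ZMod.natCast_val, ZMod.cast_id', id, a2, a3]
      linear_combination e g hg
  have s0 : s ≠ 0 := fun e => io_ne (x0 a b c d) (by rw [← s1, e, zero_pow three_ne_zero])
  have u1 : ∀ a c d : ZMod 3, ¬ 3 ∣ nn (1 * ω ^ a.val * 2 ^ c.val * (1 + 3 * pw) ^ d.val : Zw) := by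
    decide
  have u2 := not_Ov.1 (ov_UN3.cop (pw_prime.coprime_iff_not_dvd.2
    fun e => u1 a c d (pw_dvd_iff.1 e)))
  obtain ⟨k, hk⟩ := val_UN3 s0 s2
  have v := congrArg V3.v s1
  rw [map_mul, map_mul, u2, one_mul, map_pow, map_pow, map_pow, map_ofNat, hk, ← V3.v.map_neg 3,
    ← io_pw_sq, map_pow, ← pow_mul, ← zpow_natCast, ← zpow_mul, ← zpow_natCast] at v
  have v1 := zpow_right_injective₀ pos_UN3 (ne_of_lt ov_UN3) v
  have b3 := b.val_lt
  have b0 : b.val = 0 := by omega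
  obtain rfl : k = 0 := by omega
  rw [b0, pow_zero, mul_one] at s1
  rw [zpow_zero] at hk
  obtain ⟨t, ht⟩ : ∃ t : O3, (⟨s, s2, hk.le⟩ : O3) ^ 2 = 1 + p3 * t := by
    obtain ⟨i, h1, t, ht⟩ := res_UN3 ⟨s, s2, hk.le⟩
    interval_cases i
    · have := (vd_UN3 1 t).trans_lt (lt_UN3 0)
      rw [Nat.cast_zero, zero_add] at ht
      rw [pow_one, ← ht, pow_zero] at this
      exact absurd hk this.ne
    · exact ⟨2 * t + p3 * t ^ 2, by rw [ht]; push_cast; ring⟩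
    · exact ⟨4 * t + p3 * t ^ 2 - p3, by rw [ht]; push_cast; linear_combination p3_sq⟩
  obtain ⟨u, hu⟩ : ∃ u : O3, (1 + p3 * t) ^ 3 - 1 = p3 ^ 4 * u := by
    obtain ⟨i, h1, u, rfl⟩ := res_UN3 t
    obtain ⟨m, hm⟩ : ∃ m : O3, (i : O3) ^ 3 - i = 3 * m := by
      interval_cases i
      · exact ⟨0, by norm_num⟩
      · exact ⟨0, by norm_num⟩
      · exact ⟨2, by norm_num⟩
    exact ⟨3 * i ^ 2 * u + 3 * i * p3 * u ^ 2 + p3 ^ 2 * u ^ 3 - u - p3 * m - (i + p3 * u) ^ 2, by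
      linear_combination (p3 * (i + p3 * u) + p3 ^ 2 * (i + p3 * u) ^ 2 + p3 ^ 3 * m) * p3_sq +
        p3 ^ 3 * hm⟩
  have w := vd_UN3 4 u
  rw [← hu, ← ht, ← pow_mul, mul_comm 2, pow_mul] at w
  push_cast at w
  rw [s1, ← map_pow, ← map_one W.io, ← map_sub,
    ← (PLK_ok.2.2.1 V3 pw pw_prime ov_UN3).2.2.2.2.2.1] at w
  have w1 := nn_dvd w
  have : ∀ a c d : ZMod 3, nn (pw ^ 4) ∣
      nn ((1 * ω ^ a.val * 2 ^ c.val * (1 + 3 * pw) ^ d.val : Zw) ^ 2 - 1) →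
      a = 0 ∧ c = 0 ∧ d = 0 := by decide
  obtain ⟨a0, c0, d0⟩ := this a c d w1
  exact ⟨a0, (ZMod.val_eq_zero b).1 b0, c0, d0⟩

end

end Pool.Agent.MP_e23604_nt.X

end

section

/-!
The local points at three of four cubic twists.
-/

set_option autoImplicit false

open Finset QuadraticAlgebra
open scoped Classical

namespace Pool.Agent.MP_e23604_nt.X

open B R S W

/-! ### Characters of points -/

/-- `f` is the character of `P` -/
def Ch (χ : GQ → ZMod 3) (P : Pt) (f : GQ → ZMod 3) : Prop :=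
  ∀ S : Pt, pw • S = P → ∀ g ∈ V3.D, eta χ g S - S = (f g).val • T0

theorem tz_add_LK (a b : ZMod 3) : (a + b).val • T0 = a.val • T0 + b.val • T0 := by
  rw [ZMod.val_add, ← add_nsmul]
  exact (nsmul_eq_mod_nsmul _ (three_T G01)).symm

theorem eta_T0_LK (χ : GQ → ZMod 3) (g : GQ) : eta χ g T0 = T0 := by
  rw [eta_apply, gal_T0]
  induction (χ g).val with
  | zero => simp
  | succ i ih => rw [pow_succ, mul_smul, w_T0, ih]

section

variable {χ f f' : GQ → ZMod 3} {P Q : Pt}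

theorem Ch.zero : Ch χ 0 fun _ => 0 := fun S h g _ => by
  rcases (PI_ok.1 S).1 h with rfl | rfl | rfl <;> simp [eta_T0_LK]

theorem Ch.add (h : Ch χ P f) (h' : Ch χ Q f') : Ch χ (P + Q) fun g => f g + f' g :=
  fun S e g hg => by
  obtain ⟨S₁, e₁⟩ := smul_onto pw_ne P
  rw [tz_add_LK, ← h S₁ e₁ g hg, ← h' (S - S₁) (by rw [smul_sub, e, e₁, add_sub_cancel_left]) g hg,
    map_sub]
  abel

theorem Ch.congr (h : Ch χ P f) (e : ∀ g ∈ V3.D, f g = f' g) : Ch χ P f' :=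
  fun S h1 g hg => e g hg ▸ h S h1 g hg

theorem Ch.nsmul (h : Ch χ P f) (n : ℕ) : Ch χ (n • P) fun g => n * f g := by
  induction n with
  | zero => simpa using Ch.zero
  | succ n ih => exact succ_nsmul P n ▸ (ih.add h).congr fun g _ => by push_cast; ring

theorem Ch.zsmul (h : Ch χ P f) (a : ZMod 3) : Ch χ ((a.val : Zw) • P) fun g => a * f g := by
  rw [Nat.cast_smul_eq_nsmul]
  exact (h.nsmul _).congr fun g _ => by rw [ZMod.natCast_zmod_val]

theorem Ch.fx (h : Ch χ P f) : Fx χ V3.D P := fun g hg => by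
  obtain ⟨S, rfl⟩ := smul_onto pw_ne P
  rw [eta_smul χ hg.2, ← sub_eq_zero, ← smul_sub, h S rfl g hg, smul_comm, pw_T0, smul_zero]

theorem chT_LK (hK : KPI_st) : Ch χ T0 fun g => -χ g := fun S e g hg =>
  (hK χ g S hg.2 (e ▸ eta_T0_LK χ g)).1 e

theorem chP_LK (hK : KPI_st) (h : Fx χ V3.D P) (h0 : P ≠ 0) (h1 : P ≠ T0) :
    Ch χ P fun g => χ g - kw (yc P) g := fun S e g hg => by
  subst e
  exact (hK χ g S hg.2 (h g hg)).2 h0 h1

end

/-- `f` is a combination of `χ` and `κ` -/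
def Sn (χ κ f : GQ → ZMod 3) : Prop := ∃ a b : ZMod 3, ∀ g ∈ V3.D, f g = a * χ g + b * κ g

theorem lk_of_LK (hK : KPI_st) {χ κ : GQ → ZMod 3} {P₁ : Pt}
    (h₁ : Ch χ P₁ fun g => 2 * χ g + κ g)
    (h : ∀ P, Fx χ V3.D P → P ≠ 0 → P ≠ T0 → Sn χ κ (kw (yc P))) : Lk χ κ := by
  have h0 : Ch χ (P₁ + ((2 : ZMod 3).val : Zw) • T0) κ :=
    (h₁.add ((chT_LK hK).zsmul 2)).congr fun g _ => by ring
  generalize P₁ + ((2 : ZMod 3).val : Zw) • T0 = P₀ at h0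
  refine ⟨P₀, h0.fx, h0, fun P hP => ?_⟩
  obtain ⟨a, b, e⟩ : ∃ a b : ZMod 3, Ch χ P fun g => a * χ g - b * κ g := by
    by_cases e0 : P = 0
    · exact ⟨0, 0, e0 ▸ Ch.zero.congr fun g _ => by ring⟩
    by_cases e1 : P = T0
    · exact ⟨-1, 0, e1 ▸ (chT_LK hK).congr fun g _ => by ring⟩
    obtain ⟨a, b, e⟩ := h P hP e0 e1
    exact ⟨1 - a, b, (chP_LK hK hP e0 e1).congr fun g hg => by rw [e g hg]; ring⟩
  obtain ⟨S, hS⟩ := smul_onto pw_ne (P + (a.val : Zw) • T0 + (b.val : Zw) • P₀)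
  refine ⟨-a.val, -b.val, S, fun g hg => sub_eq_zero.1 ?_, by rw [hS]; module⟩
  exact (((e.add ((chT_LK hK).zsmul a)).add (h0.zsmul b)).congr (f' := fun _ => 0)
    (fun g _ => by ring) S hS g hg).trans (zero_smul _ _)

/-! ### Valuations -/

/-- the absolute value of the prime over three -/
noncomputable def pv : ℝ := V3.v (W.io pw)

theorem ov_LK : Ov V3 pw := Ov_three.1 V3_three

theorem pv_lt_LK : pv < 1 := ov_LK

theorem pv_pos_LK : 0 < pv := V3.v.pos (io_ne pw_ne)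

theorem v3_LK : V3.v 3 = pv ^ 2 := by rw [pv, ← map_pow, io_pw_sq, V3.v.map_neg]

theorem v2_LK : V3.v 2 = 1 := by simpa [map_ofNat] using not_Ov.1 (V3_not two_pw)

theorem pv_anti_LK {i j : ℕ} (h : i < j) : pv ^ j < pv ^ i :=
  pow_lt_pow_right_of_lt_one₀ pv_pos_LK pv_lt_LK h

theorem disc_LK {y : Qb} (h : Fix V3.D y) (h0 : y ≠ 0) : ∃ k : ℤ, V3.v y = pv ^ k :=
  (PLK_ok.2.2.1 V3 pw pw_prime ov_LK).2.2.2.2.2.2 y h0 fun g hg => h g (V3.I_le hg)

theorem step_LK {y : Qb} (h : Fix V3.D y) {i : ℕ} (e : V3.v y < pv ^ i) :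
    V3.v y ≤ pv ^ (i + 1) := by
  by_cases h0 : y = 0
  · rw [h0, map_zero]
    exact (pow_pos pv_pos_LK _).le
  obtain ⟨k, hk⟩ := disc_LK h h0
  rw [hk, ← zpow_natCast] at e ⊢
  rw [zpow_lt_zpow_iff_right_of_lt_one₀ pv_pos_LK pv_lt_LK] at e
  exact zpow_le_zpow_right_of_le_one₀ pv_pos_LK pv_lt_LK.le (by omega)

theorem step0_LK {y : Qb} (h : Fix V3.D y) (e : V3.v y < 1) : V3.v y ≤ pv := by
  simpa using step_LK h (i := 0) (by simpa using e)

theorem res_LK {u : Qb} (h : Fix V3.D u) (e : V3.v u = 1) : V3.v (u ^ 2 - 1) ≤ pv := by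
  obtain ⟨σ, h1, h2⟩ := (FRK_ok V3 pw pw_prime ov_LK).1
  have := h2 u e.le
  rw [h σ h1, nn_pw, show u - u ^ 3 = -(u * (u ^ 2 - 1)) by ring, V3.v.map_neg, map_mul, e,
    one_mul] at this
  exact step0_LK (fun g hg => by simp [h g hg]) this

theorem res6_LK {u : Qb} (h : Fix V3.D u) (e : V3.v u = 1) : V3.v (u ^ 6 - 1) ≤ pv ^ 3 := by
  have := res_LK h e
  rw [show u ^ 6 - 1 = (u ^ 2 - 1) ^ 3 + 3 * u ^ 2 * (u ^ 2 - 1) by ring]
  refine bLocA_add_le V3.na (by rw [map_pow]; gcongr) ?_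
  rw [map_mul, map_mul, map_pow, e, v3_LK, one_pow, mul_one, pow_succ pv 2]
  gcongr

theorem one_add_LK {y : Qb} (h : V3.v y < 1) : V3.v (1 + y) = 1 := by
  rw [bLocA_add_eq V3.na (by rwa [map_one]), map_one]

theorem root_LK {c : Qb} (h : Fix V3.D c) (e : V3.v c < 1) :
    ∃ y, Fix V3.D y ∧ y ^ 2 + y = c ∧ V3.v y = V3.v c := by
  obtain ⟨y, e1, e2⟩ : ∃ y : Qb, y ^ 2 + y = c ∧ V3.v y < 1 := by
    obtain ⟨z, hz⟩ := IsAlgClosed.exists_pow_nat_eq (1 + 4 * c) two_pos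
    have h1 : ((z - 1) / 2) ^ 2 + (z - 1) / 2 = c := by linear_combination hz / 4
    generalize (z - 1) / 2 = y at h1
    by_contra! h2
    have h3 := h2 (-(1 + y)) (by linear_combination h1)
    rw [V3.v.map_neg] at h3
    rw [← h1, show y ^ 2 + y = y * (1 + y) by ring, map_mul] at e
    exact e.not_ge (one_le_mul_of_one_le_of_one_le (h2 y h1) h3)
  refine ⟨y, fun g hg => ?_, e1, by
    rw [← e1, show y ^ 2 + y = y * (1 + y) by ring, map_mul, one_add_LK e2, mul_one]⟩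
  have h1 : (g y - y) * (1 + (g y + y)) = 0 := by
    have := congrArg g e1
    rw [map_add, map_pow, h g hg] at this
    linear_combination this - e1
  refine sub_eq_zero.1 ((mul_eq_zero.1 h1).resolve_right fun h2 => ?_)
  have := one_add_LK (bLocA_add_lt V3.na ((hg.1 y).trans_lt e2) e2)
  rw [h2, map_zero] at this
  exact zero_ne_one this

/-! ### The general argument -/

theorem xy_pow_LK (i : ℕ) (P : Pt) :
    xc ((ω : Zw) ^ i • P) = w3 ^ i * xc P ∧ yc ((ω : Zw) ^ i • P) = yc P := by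
  induction i with
  | zero => simp
  | succ i ih => rw [pow_succ', mul_smul, (xc_w _).1, (xc_w _).2, ih.1, ih.2, pow_succ', mul_assoc]
                 exact ⟨rfl, rfl⟩

theorem kw_mul_LK (hW : KW_st) {x y : Qb} (hx : x ≠ 0) (hy : y ≠ 0) (fx : Fix V3.D x)
    (fy : Fix V3.D y) {g : GQ} (hg : g ∈ V3.D) : kw (x * y) g = kw x g + kw y g :=
  ((hW.1 _ x V3.D_le hx fx).2.2.2.2.2 y hy fy g hg).1

theorem gen_LK (hW : KW_st) (hK : KPI_st) {χ κ : GQ → ZMod 3} {s : Qb} (h0 : s ≠ 0)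
    (hs : ∀ g ∈ V3.D, w3 ^ (χ g).val * g s = s)
    (hA : ∀ y ξ, Fix V3.D y → Fix V3.D ξ → y ^ 2 + y = s ^ 3 * ξ ^ 3 → V3.v y < 1 →
      Sn χ κ (kw (1 + y)))
    (hC : ∀ y ξ, Fix V3.D y → Fix V3.D ξ → y ^ 2 + y = s ^ 3 * ξ ^ 3 → V3.v y = 1 →
      V3.v (1 + y) = 1 → Sn χ κ (kw y))
    {y₁ ξ₁ : Qb} (f₁ : Fix V3.D y₁) (f₂ : Fix V3.D ξ₁) (e₁ : y₁ ^ 2 + y₁ = s ^ 3 * ξ₁ ^ 3)
    (n₁ : ξ₁ ≠ 0) (h₁ : ∀ g ∈ V3.D, kw (1 + y₁) g = κ g) : Lk χ κ := by
  have w1 : ∀ a : ZMod 3, (w3 ^ a.val) ^ 3 = 1 := fun a => by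
    rw [← pow_mul, mul_comm, pow_mul, w3_cube, one_pow]
  have fs : Fix V3.D (s ^ 3) := fun g hg => by
    conv_rhs => rw [← hs g hg, mul_pow, w1, one_mul, ← map_pow]
  have key : ∀ y ξ, Fix V3.D y → Fix V3.D ξ → y ^ 2 + y = s ^ 3 * ξ ^ 3 → ξ ≠ 0 →
      y ≠ 0 ∧ 1 + y ≠ 0 ∧ ∀ g ∈ V3.D, kw y g + kw (1 + y) g + χ g = 0 := by
    intro y ξ fy fξ e n
    have e2 : y * (1 + y) = s ^ 3 * ξ ^ 3 := by linear_combination e
    have n2 := mul_ne_zero_iff.1 (e2 ▸ mul_ne_zero (pow_ne_zero 3 h0) (pow_ne_zero 3 n))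
    refine ⟨n2.1, n2.2, fun g hg => ?_⟩
    have k := hW.1 _ _ V3.D_le (pow_ne_zero 3 h0) fs
    rw [← kw_mul_LK hW n2.1 n2.2 fy (fun g hg => by simp [fy g hg]) hg, e2,
      kw_mul_LK hW (pow_ne_zero 3 h0) (pow_ne_zero 3 n) fs (fun g hg => by simp [fξ g hg]) hg,
      (k.2.2.2.2.2 ξ n fξ g hg).2, add_zero, add_comm]
    refine w3_inj (mul_right_cancel₀ h0 ?_)
    rw [w3_add, mul_assoc, ← k.2.2.1 s rfl g hg, hs g hg, ZMod.val_zero, pow_zero, one_mul]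
  obtain ⟨n₂, -, k₁⟩ := key _ _ f₁ f₂ e₁ n₁
  have o : On 0 1 (s * ξ₁) y₁ := on_iff.2 (by rw [e₁, mul_pow])
  refine lk_of_LK hK (P₁ := pt 0 1 (s * ξ₁) y₁) ((chP_LK hK (fun g hg => ?_) (pt_ne_zero G01 o)
    fun e => n₂ ?_).congr fun g hg => ?_) fun P hP p0 p1 => ?_
  · have o' := o.map (g : Qb →+* Qb)
    refine pt_ext ?_ (pt_ne_zero G01 o) ?_ ?_
    · exact fun e => pt_ne_zero G01 o ((gal_ne g).1 ((unit_smul (w_unit.pow _)).1 e))
    · rw [eta_apply, (xy_pow_LK _ _).1, (xc_gal _ _).1, xc_pt o, map_mul, ← mul_assoc, hs g hg,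
        f₂ g hg]
    · rw [eta_apply, (xy_pow_LK _ _).2, (xc_gal _ _).2, yc_pt o, f₁ g hg]
  · rw [← yc_pt o, e, xc_T0.2]
  · rw [yc_pt o, ← h₁ g hg]
    linear_combination -k₁ g hg
  have fy : Fix V3.D (yc P) := fun g hg => by
    rw [← (xc_gal _ _).2, ← (xy_pow_LK (χ g).val _).2, ← eta_apply, hP g hg]
  have fξ : Fix V3.D (xc P / s) := fun g hg => by
    have := congrArg xc (hP g hg)
    rw [eta_apply, (xy_pow_LK _ _).1, (xc_gal _ _).1] at this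
    rw [map_div₀, ← mul_div_mul_left _ _ (pow_ne_zero (χ g).val w3_ne_zero), this, hs g hg]
  have e : yc P ^ 2 + yc P = s ^ 3 * (xc P / s) ^ 3 := by rw [xy_eq]; field_simp
  have y0 : yc P ≠ 0 := fun e0 => p1 (pt_ext p0 T0_ne (by
    have := xy_eq P
    rw [e0, eq_comm] at this
    rw [xc_T0.1]
    simpa using this) (e0.trans xc_T0.2.symm))
  generalize yc P = y at *
  generalize xc P / s = ξ at *
  have f1 : Fix V3.D (1 + y) := fun g hg => by simp [fy g hg]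
  by_cases c1 : V3.v (1 + y) < 1
  · obtain ⟨a, b, h⟩ := hA (-(1 + y)) ξ (fun g hg => by simp [fy g hg]) fξ
      (by linear_combination e) (by rwa [V3.v.map_neg])
    exact ⟨a, b, fun g hg => by
      rw [← h g hg, ← (hW.1 _ y V3.D_le y0 fy).2.2.2.2.1 g hg, show 1 + -(1 + y) = -y by ring]⟩
  have n1 : 1 + y ≠ 0 := fun e0 => c1 (by simp [e0])
  have n : ξ ≠ 0 := fun e0 => mul_ne_zero y0 n1 (by rw [e0] at e; linear_combination e)
  have k := (key y ξ fy fξ e n).2.2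
  rcases lt_trichotomy (V3.v y) 1 with c | c | c
  · obtain ⟨a, b, h⟩ := hA y ξ fy fξ e c
    exact ⟨-1 - a, -b, fun g hg => by linear_combination k g hg - h g hg⟩
  · exact hC y ξ fy fξ e c (le_antisymm (bLocA_add_le V3.na (map_one _).le c.le) (not_lt.1 c1))
  have f2 : Fix V3.D (-(1 + y)⁻¹) := fun g hg => by simp [fy g hg]
  obtain ⟨a, b, h⟩ := hA (-(1 + y)⁻¹) (-y / (s ^ 3 * ξ ^ 2))
    f2 (fun g hg => by rw [map_div₀, map_mul, fs g hg]; simp [fy g hg, fξ g hg]) (by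
      field_simp
      linear_combination y * (y ^ 2 + y + s ^ 3 * ξ ^ 3) * e) (by
      rw [V3.v.map_neg, map_inv₀, add_comm, bLocA_add_eq V3.na (by rwa [map_one])]
      exact inv_lt_one_of_one_lt₀ c)
  have e3 : (1 + -(1 + y)⁻¹) * (1 + y) = y := by field_simp; ring
  refine ⟨1 - a, -b, fun g hg => ?_⟩
  have := kw_mul_LK hW (left_ne_zero_of_mul (e3.symm ▸ y0)) n1
    (fun g hg => by rw [map_add, map_one, f2 g hg]) f1 hg
  rw [e3, h g hg] at this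
  have h3 : (3 : ZMod 3) = 0 := rfl
  linear_combination -this - k g hg + (kw y g) * h3

theorem three_LK (hW : KW_st) (hU : UN3_st) {b : Qb} (f : Fix V3.D b)
    (h : V3.v (b ^ 2 - 1) ≤ pv ^ 2) :
    ∃ a : ZMod 3, a ≠ 0 ∧ ∀ g ∈ V3.D, kw (1 + 3 * b) g = a * kum 2 g := by
  have k2 : ∀ g ∈ V3.D, kw 2 g = kum 2 g := fun g hg => by
    simpa using (hW.2.1 2 two_ne_zero).1 g hg.2
  have f2 : Fix V3.D 2 := fun g _ => map_ofNat g 2
  have key : ∀ c : Qb, V3.v c = 1 → Fix V3.D c → V3.v (1 + 3 * b - c) ≤ pv ^ 4 →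
      ∀ g ∈ V3.D, kw (1 + 3 * b) g = kw c g := fun c e fc h g hg => by
    have c0 : c ≠ 0 := fun e0 => by simp [e0] at e
    have f1 : Fix V3.D ((1 + 3 * b) / c) := fun g hg => by simp [f g hg, fc g hg, map_ofNat]
    have h1 : V3.v ((1 + 3 * b) / c - 1) < pv ^ 3 := by
      rw [div_sub_one c0, map_div₀, e, div_one]
      exact h.trans_lt (pv_anti_LK (by norm_num))
    have n1 : (1 + 3 * b) / c ≠ 0 := fun e0 => by
      rw [e0, zero_sub, V3.v.map_neg, map_one] at h1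
      exact h1.not_gt (by simpa using pv_anti_LK three_pos)
    rw [← div_mul_cancel₀ (1 + 3 * b) c0, kw_mul_LK hW n1 c0 f1 fc hg, hU.2.1 _ f1 h1 g hg, zero_add]
  have e4 : ∀ x, V3.v x ≤ pv ^ 2 → V3.v (3 * x) ≤ pv ^ 4 := fun x hx => by
    rw [map_mul, v3_LK, show 4 = 2 + 2 from rfl, pow_add]
    gcongr
  rw [show b ^ 2 - 1 = (b + 1) * (b - 1) by ring, map_mul] at h
  by_cases c : V3.v (b - 1) < 1
  · rw [show b + 1 = 2 + (b - 1) by ring, bLocA_add_eq V3.na (v2_LK ▸ c), v2_LK, one_mul] at h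
    refine ⟨2, by decide, fun g hg => ?_⟩
    rw [key (2 * 2) (by simp [v2_LK]) (fun g _ => by simp [map_ofNat]) (by
      convert e4 _ h using 2; ring) g hg, kw_mul_LK hW two_ne_zero two_ne_zero f2 f2 hg, k2 g hg,
      two_mul]
  · refine ⟨1, by decide, fun g hg => ?_⟩
    rw [key (-2) (by simp [v2_LK]) (fun g _ => by simp [map_ofNat]) (by
      convert e4 _ ((le_mul_of_one_le_right (V3.v.nonneg _) (not_lt.1 c)).trans h) using 2
      ring) g hg, (hW.1 _ 2 V3.D_le two_ne_zero f2).2.2.2.2.1 g hg, k2 g hg, one_mul]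

theorem sq_LK {a : ZMod 3} (h : a ≠ 0) : a * a = 1 := by
  revert a
  decide

end Pool.Agent.MP_e23604_nt.X

end

section

/-!
The local points at three of the twists by `9 m` and `3 m`.
-/

set_option autoImplicit false

open Finset QuadraticAlgebra
open scoped Classical

namespace Pool.Agent.MP_e23604_nt.PH

open B R S W X

/-- the local points of the twists by `9 m` and `3 m`, `m` prime to three -/
def LK9_st : Prop := ∀ (χ : GQ → ZMod 3) (e : ZMod 3),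
  ((∀ g ∈ V3.D, χ g = kum 3 g + e * kum 2 g) →
    Lk χ fun g => 2 * (kw w3 g - e * kw (W.io (1 + 3 * pw)) g)) ∧
  ((∀ g ∈ V3.D, χ g = 2 * kum 3 g + e * kum 2 g) → ∃ a : ZMod 3, a ≠ 0 ∧ Lk χ fun g => a * kum 2 g)

/-- the numbers `1`, `4`, `-2` -/
def mz (e : ZMod 3) : Zw := if e = 0 then 1 else if e = 1 then 4 else -2

/-- approximate solutions -/
def cz (e : ZMod 3) (δ : ZMod 3) : Zw := 1 * ω ^ (2 * δ).val * (1 + 3 * pw) ^ (δ * e).val

theorem nine_L9 {x : Zw} (h : x.re % 9 = 0 ∧ x.im % 9 = 0) : V3.v (W.io x) ≤ pv ^ 4 := by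
  obtain ⟨a, ha⟩ := Int.dvd_of_emod_eq_zero h.1
  obtain ⟨b, hb⟩ := Int.dvd_of_emod_eq_zero h.2
  rw [show x = (3 * 3) * ⟨a, b⟩ from QuadraticAlgebra.ext (by simp [ha]) (by simp [hb]),
    map_mul, map_mul, map_mul, map_mul, map_ofNat, v3_LK, ← pow_add]
  exact mul_le_of_le_one_right (pow_pos pv_pos_LK _).le (V3.io_le _)

theorem cz_L9 : ∀ e : ZMod 3,
    ((cz e 1 ^ 2 - cz e 1 - pw * mz e).re % 9 = 0 ∧ (cz e 1 ^ 2 - cz e 1 - pw * mz e).im % 9 = 0) ∧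
    ((cz e 2 ^ 2 - cz e 2 + pw * mz e).re % 9 = 0 ∧ (cz e 2 ^ 2 - cz e 2 + pw * mz e).im % 9 = 0) ∧
    3 ∣ nn (cz e 1 - 1) ∧ 3 ∣ nn (cz e 2 - 1) ∧ ¬ 3 ∣ nn (mz e) ∧
    ((mz e ^ 2 - 1).re % 3 = 0 ∧ (mz e ^ 2 - 1).im = 0) := by decide

theorem m_L9 (e : ZMod 3) : ∃ s : Qb, s ^ 3 = W.io (mz e) ∧ V3.v (W.io (mz e)) = 1 ∧
    V3.v (W.io (mz e) ^ 2 - 1) ≤ pv ^ 2 ∧ ∀ g, w3 ^ (e * kum 2 g).val * g s = s := by
  have h2 : cbr 2 ^ 3 = 2 := by simpa using cbr_cube 2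
  have a := act_SKAP (r := 2) two_ne_zero
  have z : ∀ k : ZMod 3, w3 ^ k.val * w3 ^ (2 * k).val = 1 := fun k => by
    rw [← w3_add, show k + 2 * k = 0 by revert k; decide, ZMod.val_zero, pow_zero]
  obtain ⟨-, -, -, -, c1, c2, c3⟩ := cz_L9 e
  have v1 := not_Ov.1 (V3_not fun k => c1 (pw_dvd_iff.1 k))
  have v2 : V3.v (W.io (mz e) ^ 2 - 1) ≤ pv ^ 2 := by
    obtain ⟨t, ht⟩ := Int.dvd_of_emod_eq_zero c2
    rw [← map_pow, ← map_one W.io, ← map_sub, W.io_apply, c3, ht, ← v3_LK]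
    simpa using mul_le_of_le_one_right (V3.v.nonneg 3)
      (IsNonarchimedean.apply_intCast_le_one V3.na (n := t))
  rcases z3 e with rfl | rfl | rfl
  · exact ⟨1, by simp [mz], v1, v2, fun g => by simp⟩
  · refine ⟨cbr 2 ^ 2, ?_, v1, v2, fun g => ?_⟩
    · rw [← pow_mul, mul_comm, pow_mul, h2, show mz 1 = 4 from rfl, map_ofNat]
      norm_num
    · rw [map_pow, a, one_mul, mul_pow, ← mul_assoc, sq (w3 ^ _), ← w3_add, ← two_mul, z, one_mul]
  · refine ⟨-cbr 2, ?_, v1, v2, fun g => ?_⟩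
    · rw [show mz 2 = -2 from rfl, map_neg, map_ofNat, ← h2]
      ring
    · rw [map_neg, a, mul_neg, ← mul_assoc, mul_comm (w3 ^ _), z, one_mul]

theorem kw_L9 (hW : X.KW_st) (e δ : ZMod 3) {g : GQ} (hg : g ∈ V3.D) :
    kw (W.io (cz e δ)) g = δ * (2 * (kw w3 g - e * kw (W.io (1 + 3 * pw)) g)) := by
  have n1 : (1 * ω ^ (2 * δ).val : Zw) ≠ 0 := by revert δ; decide
  rw [cz, map_mul, map_pow, mul_UN3 hW (io_ne n1) (io_ne (by decide)) (fio_UN3 _) (fio_UN3 _) hg,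
    map_mul, map_pow, mul_UN3 hW (io_ne one_ne_zero) (io_ne w_unit.ne_zero) (fio_UN3 _)
      (fio_UN3 _) hg, map_one, one_UN3 hW hg, io_w]
  simp only [ZMod.natCast_val, ZMod.cast_id', id]
  have h3 : (3 : ZMod 3) = 0 := rfl
  linear_combination δ * e * kw (W.io (1 + 3 * pw)) g * h3

theorem near_L9 (hW : X.KW_st) (hU : UN3_st) {y : Qb} {c : Zw} (f : Fix V3.D y) (h : V3.v y < 1)
    (hc : 3 ∣ nn (c - 1)) (e : V3.v (y ^ 2 + y - W.io (c ^ 2 - c)) ≤ pv ^ 4) {g : GQ}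
    (hg : g ∈ V3.D) : kw (1 + y) g = kw (W.io c) g := by
  have v0 : V3.v (W.io c - 1) < 1 := by
    rw [← map_one W.io, ← map_sub]
    exact ov_LK.dvd (pw_dvd_iff.2 hc)
  have v1 : V3.v (W.io c) = 1 := by simpa using one_add_LK v0
  have c0 : W.io c ≠ 0 := fun e0 => by simp [e0] at v1
  rw [show y ^ 2 + y - W.io (c ^ 2 - c) = (1 + (y + (W.io c - 1))) * (1 + y - W.io c) by
    rw [map_sub, map_pow]; ring, map_mul, one_add_LK (bLocA_add_lt V3.na h v0), one_mul] at e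
  have f1 : Fix V3.D ((1 + y) / W.io c) := fun g hg => by simp [f g hg, fio_UN3 c g hg]
  have h1 : V3.v ((1 + y) / W.io c - 1) < pv ^ 3 := by
    rw [div_sub_one c0, map_div₀, v1, div_one]
    exact e.trans_lt (pv_anti_LK (by norm_num))
  have n1 : (1 + y) / W.io c ≠ 0 := div_ne_zero (fun e0 => by simpa [e0] using one_add_LK h) c0
  rw [← div_mul_cancel₀ (1 + y) c0, kw_mul_LK hW n1 c0 f1 (fio_UN3 c) hg, hU.2.1 _ f1 h1 g hg,
    zero_add]

theorem LK9_pf (hW : X.KW_st) (hK : KPI_st) (hU : UN3_st) : LK9_st := fun χ e => by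
  obtain ⟨s, hs, v1, v2, hg⟩ := m_L9 e
  obtain ⟨c1, c2, c3, c4, -⟩ := cz_L9 e
  replace c1 := nine_L9 c1
  replace c2 := nine_L9 c2
  rw [map_sub, map_mul] at c1
  rw [map_add, map_mul] at c2
  have fm := fio_UN3 (mz e)
  generalize W.io (mz e) = m at *
  have s0 : s ≠ 0 := fun e0 => by simp [← hs, e0] at v1
  have fac : ∀ {y c : Qb}, y ^ 2 + y = c → V3.v y * V3.v (1 + y) = V3.v c := fun {y c} h => by
    rw [← map_mul, ← h]
    congr 1
    ring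
  have h3 : cbr 3 ^ 3 = 3 := by simpa using cbr_cube 3
  have n3 := ne_SKAP three_ne_zero (cbr_cube 3)
  have fp := fio_UN3 pw
  have p0 := io_ne pw_ne
  refine ⟨fun hχ => ?_, fun hχ => ?_⟩
  · have e9 : (cbr 3 ^ 2 * s) ^ 3 = W.io pw ^ 4 * m := by
      rw [mul_pow, ← pow_mul, mul_comm 2, pow_mul, h3, hs, show 4 = 2 * 2 from rfl, pow_mul,
        io_pw_sq]
      ring
    have vp : V3.v (W.io pw * m) = pv := by rw [map_mul, v1, mul_one, pv]
    obtain ⟨y₁, f₁, e₁, v₁⟩ := root_LK (c := W.io pw * m)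
      (fun g hg => by simp [fm g hg, fp g hg]) (vp ▸ pv_lt_LK)
    refine gen_LK hW hK (s := cbr 3 ^ 2 * s) (ξ₁ := (W.io pw)⁻¹)
      (mul_ne_zero (pow_ne_zero 2 n3) s0) (fun g h => ?_) (fun y ξ fy fξ e1 h => ?_)
      (fun y ξ fy fξ e1 h h' => ?_) f₁ (fun g hg => by simp [fp g hg])
      (by rw [e₁, e9]; field_simp) (inv_ne_zero p0) fun g hg => ?_
    · rw [hχ g h, w3_add, map_mul, map_pow, act_SKAP three_ne_zero, mul_mul_mul_comm, hg g, mul_pow,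
        ← mul_assoc, ← pow_succ', ← pow_mul, mul_comm _ (2 + 1), pow_mul, w3_cube, one_pow, one_mul]
    · rw [e9] at e1
      have h1 := fac e1
      rw [one_add_LK h, mul_one, map_mul, map_mul, v1, mul_one, map_pow, map_pow, ← pv] at h1
      by_cases c : V3.v ξ ≤ 1
      · refine ⟨0, 0, fun g hg => (hU.2.1 _ (fun g hg => by simp [fy g hg]) ?_ g hg).trans (by ring)⟩
        rw [add_sub_cancel_left, h1]
        exact (mul_le_of_le_one_right (pow_pos pv_pos_LK _).le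
          (pow_le_one₀ (V3.v.nonneg _) c)).trans_lt (pv_anti_LK (by norm_num))
      rw [not_le] at c
      obtain ⟨k, hk⟩ := disc_LK fξ (fun e0 => by simp [e0] at c; exact c.not_gt one_pos)
      have vt : V3.v (W.io pw * ξ) = 1 := by
        rw [hk, one_lt_zpow_iff_right_of_lt_one₀ pv_pos_LK pv_lt_LK] at c
        rw [h1, hk, ← zpow_natCast, ← zpow_natCast, ← zpow_mul, ← zpow_add₀ pv_pos_LK.ne',
          zpow_lt_one_iff_right_of_lt_one₀ pv_pos_LK pv_lt_LK] at h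
        rw [map_mul, hk, show k = -1 by omega, ← pv, zpow_neg_one, mul_inv_cancel₀ pv_pos_LK.ne']
      have r := res6_LK (u := W.io pw * ξ) (fun g hg => by simp [fp g hg, fξ g hg]) vt
      have e2 : y ^ 2 + y = W.io pw * m * (W.io pw * ξ) ^ 3 := by rw [e1]; ring
      generalize W.io pw * ξ = t at *
      have e4 : ∀ x, V3.v x ≤ pv ^ 3 → V3.v (W.io pw * m * x) ≤ pv ^ 4 := fun x hx => by
        rw [map_mul, vp, pow_succ' pv 3]
        exact mul_le_mul_of_nonneg_left hx pv_pos_LK.le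
      rw [show t ^ 6 - 1 = (t ^ 3 + 1) * (t ^ 3 - 1) by ring, map_mul] at r
      by_cases c' : V3.v (t ^ 3 - 1) < 1
      · rw [show t ^ 3 + 1 = 2 + (t ^ 3 - 1) by ring, bLocA_add_eq V3.na (v2_LK ▸ c'), v2_LK,
          one_mul] at r
        refine ⟨0, 1, fun g hg => ?_⟩
        rw [near_L9 hW hU fy h c3 (by
          convert bLocA_sub_le V3.na (e4 _ r) c1 using 2
          rw [e2]; ring) hg, kw_L9 hW e 1 hg]
        ring
      · refine ⟨0, 2, fun g hg => ?_⟩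
        rw [near_L9 hW hU fy h c4 (by
          convert bLocA_sub_le V3.na (e4 _ ((le_mul_of_one_le_right (V3.v.nonneg _)
            (not_lt.1 c')).trans r)) c2 using 2
          rw [e2]; ring) hg, kw_L9 hW e 2 hg]
        ring
    · have h1 := fac e1
      rw [h, h', one_mul, e9, map_mul, map_mul, v1, mul_one, map_pow, map_pow, ← pv] at h1
      obtain ⟨k, hk⟩ := disc_LK fξ (fun e0 => by simp [e0] at h1)
      rw [hk, ← zpow_natCast, ← zpow_natCast, ← zpow_mul, ← zpow_add₀ pv_pos_LK.ne', eq_comm,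
        zpow_eq_one_iff_right₀ pv_pos_LK.le pv_lt_LK.ne] at h1
      omega
    · rw [near_L9 hW hU f₁ (v₁ ▸ vp ▸ pv_lt_LK) c3 (by
        rw [e₁, ← V3.v.map_neg, neg_sub]; exact c1) hg, kw_L9 hW e 1 hg, one_mul]
  · have vm : ∀ ξ, Fix V3.D ξ → V3.v ξ = 1 → V3.v (m ^ 2 * (ξ ^ 6 - 1)) ≤ pv ^ 3 := fun ξ f h => by
      rw [map_mul, map_pow, v1, one_pow, one_mul]
      exact res6_LK f h
    have e3 : (cbr 3 * s) ^ 3 = 3 * m := by rw [mul_pow, h3, hs]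
    have v3 : V3.v (3 * m) = pv ^ 2 := by rw [map_mul, v1, v3_LK, mul_one]
    have lt2 : pv ^ 2 < 1 := by simpa using pv_anti_LK two_pos
    have un : ∀ y ξ, Fix V3.D y → Fix V3.D ξ → y ^ 2 + y = 3 * m * ξ ^ 3 → V3.v y < 1 →
        V3.v ξ = 1 → ∃ a : ZMod 3, a ≠ 0 ∧ ∀ g ∈ V3.D, kw (1 + y) g = a * kum 2 g := by
      intro y ξ fy fξ e1 h h'
      have h1 := fac e1
      rw [one_add_LK h, mul_one, map_mul, v3, map_pow, h', one_pow, mul_one] at h1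
      have vb : V3.v (y / 3) = 1 := by rw [map_div₀, h1, v3_LK, div_self (pow_pos pv_pos_LK 2).ne']
      have := three_LK hW hU (b := y / 3) (fun g hg => by simp [fy g hg, map_ofNat]) (by
        rw [show (y / 3) ^ 2 - 1 = m ^ 2 * (ξ ^ 6 - 1) + (m ^ 2 - 1) - (y / 3) ^ 2 * (2 + y) * y by
          linear_combination (y ^ 2 + y + 3 * m * ξ ^ 3) / 9 * e1]
        refine bLocA_sub_le V3.na (bLocA_add_le V3.na ((vm ξ fξ h').trans
          (pv_anti_LK (by norm_num)).le) v2) ((bLocA_mul_le (bLocA_mul_one ?_ ?_)).trans h1.le)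
        · rw [map_pow, vb, one_pow]
        · exact bLocA_add_le V3.na v2_LK.le h.le)
      rwa [mul_div_cancel₀ _ three_ne_zero] at this
    obtain ⟨y₁, f₁, e₁, v₁⟩ := root_LK (c := 3 * m) (fun g hg => by simp [fm g hg, map_ofNat])
      (v3 ▸ lt2)
    have f1 : Fix V3.D 1 := fun g _ => map_one g
    obtain ⟨a, a0, ha⟩ := un y₁ 1 f₁ f1 (by rw [e₁, one_pow, mul_one]) (by rwa [v₁, v3])
      (map_one _)
    refine ⟨a, a0, gen_LK hW hK (s := cbr 3 * s) (mul_ne_zero n3 s0)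
      (fun g h => ?_) (fun y ξ fy fξ e1 h => ?_) (fun y ξ fy fξ e1 h h' => ?_) f₁ f1
      (by rw [e₁, e3, one_pow, mul_one]) one_ne_zero ha⟩
    · rw [hχ g h, w3_add, map_mul, act_SKAP three_ne_zero, mul_mul_mul_comm, hg g, ← mul_assoc,
        ← w3_add, show 2 * kum 3 g + kum 3 g = 0 by generalize kum 3 g = k; revert k; decide,
        ZMod.val_zero, pow_zero, one_mul]
    · rw [e3] at e1
      have h1 := fac e1
      rw [one_add_LK h, mul_one, map_mul, v3, map_pow] at h1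
      rcases lt_trichotomy (V3.v ξ) 1 with c | c | c
      · refine ⟨0, 0, fun g hg => (hU.2.1 _ (fun g hg => by simp [fy g hg]) ?_ g hg).trans (by ring)⟩
        rw [add_sub_cancel_left, h1]
        refine lt_of_le_of_lt ?_ (pv_anti_LK (i := 3) (j := 2 + 3) (by norm_num))
        rw [pow_add]
        gcongr
        exact step0_LK fξ c
      · obtain ⟨b, -, hb⟩ := un y ξ fy fξ e1 h c
        exact ⟨0, b * a, fun g hg => by
          rw [hb g hg]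
          linear_combination -b * kum 2 g * sq_LK a0⟩
      · obtain ⟨k, hk⟩ := disc_LK fξ (fun e0 => by simp [e0] at c; exact c.not_gt one_pos)
        rw [hk, one_lt_zpow_iff_right_of_lt_one₀ pv_pos_LK pv_lt_LK] at c
        rw [h1, hk, ← zpow_natCast, ← zpow_natCast, ← zpow_mul, ← zpow_add₀ pv_pos_LK.ne',
          zpow_lt_one_iff_right_of_lt_one₀ pv_pos_LK pv_lt_LK] at h
        omega
    · have h1 := fac e1
      rw [h, h', e3, map_mul, v3, map_pow, one_mul] at h1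
      obtain ⟨k, hk⟩ := disc_LK fξ (fun e0 => by simp [e0] at h1)
      rw [hk, ← zpow_natCast, ← zpow_natCast, ← zpow_mul, ← zpow_add₀ pv_pos_LK.ne', eq_comm,
        zpow_eq_one_iff_right₀ pv_pos_LK.le pv_lt_LK.ne] at h1
      omega

end Pool.Agent.MP_e23604_nt.PH

end
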