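import Mathlib
import Pool.Agent.Mg.Fe23604m.G06f121
import Pool.Agent.Mg.Fe23604m.G81ce00

set_option linter.all false

section

namespace Pool.Agent.MP_e23604_nt.T

open Finset Filter NumberField
open MP_f68ac8_nt (cyc IsFrob)
open MP_f68ac8_nt.Zv (Ex Prob piV Unf Bx)
open MP_f68ac8_nt.Zk (NS brL lk msk Av)
open MP_f68ac8_nt.Nd (Lr Fr Gz Exm fP kap np OKp)
open Q (Wn Pre rot0)
open scoped BigOperators Topology

theorem sub_XPsT {V : Type} [AddCommGroup V] (g : V ≃ᵃ[ℤ] V) (x y : V) :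
    g x - g y = g.linear (x - y) := by
  rw [Q.aff_apply g x, Q.aff_apply g y, map_sub]
  abel

theorem x_PsT (hBasT : BasT) (hFilT : FilT) : PsT := by
  intro V _ J T h0 m n k p hp hm hn e
  obtain ⟨b1, -, -, -, -, b6, b7, -, b9, -⟩ := hBasT V J T h0
  obtain ⟨-, -, f3, -⟩ := hFilT V J T h0 m
  have lev : ∀ g ∈ Fk J m k, g.1 p - p ∈ Wn J (n + 1) := fun g hg => by
    have := (f3 k g hg (m + 1) p hp le_rfl).1
    rwa [show m + 1 - k = n + 1 by omega] at this
  have lin : ∀ (a : Pm J m), ∀ u ∈ Wn J (n + 1), dig J T n (a.1.linear u) = dig J T n u := by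
    intro a u hu
    rw [← b9 n u _ (a.2.1.2 n hn u hu), add_sub_cancel]
  refine ⟨fun g hg h hh => ?_, fun g hg => ?_, fun g hg a => ?_⟩
  · have e1 : (g * h).1 p - p = (g.1 p - p) + g.1.linear (h.1 p - p) := by
      change g.1 (h.1 p) - p = _
      rw [← sub_XPsT]
      abel
    rw [e1, (b7 n _ (lev g hg) _ ((g.2.1.1 _ _).2 (lev h hh))).1, lin g _ (lev h hh)]
  · have := (f3 (k + 1) g hg (m + 1) p hp le_rfl).1
    rw [show m + 1 - (k + 1) = n by omega] at this
    exact (b6 n _ (b1 _ _ (Nat.le_succ n) this)).2 this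
  · have e1 : (a * g * a⁻¹).1 p - p = a.1.linear (g.1 ((a⁻¹).1 p) - (a⁻¹).1 p) := by
      rw [← sub_XPsT]
      exact congrArg (fun y => a.1 (g.1 ((a⁻¹).1 p)) - y) (a.1.apply_symm_apply p).symm
    have e2 : (a⁻¹).1 p - p ∈ Wn J m := by
      rw [Q.aff_apply, add_sub_right_comm]
      exact add_mem ((a⁻¹).2.1.2 m hm p hp) (a⁻¹).2.2
    have e3 := hg.2 m _ e2
    rw [show m - k = n by omega, ← sub_XPsT] at e3
    generalize (a⁻¹).1 p = p' at e1 e3
    have e4 : g.1 p' - p' = (g.1 p - p) + (g.1 p' - g.1 p - (p' - p)) := by abel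
    rw [e1, lin a _ (e4 ▸ add_mem (lev g hg) (b1 _ _ (Nat.le_succ n) e3)), e4, b9 n _ _ e3]

end Pool.Agent.MP_e23604_nt.T

end

section

namespace Pool.Agent.MP_e23604_nt.T

open Finset Filter NumberField
open MP_f68ac8_nt (cyc IsFrob)
open MP_f68ac8_nt.Zv (Ex Prob piV Unf Bx)
open MP_f68ac8_nt.Zk (NS brL lk msk Av)
open MP_f68ac8_nt.Nd (Lr Fr Gz Exm fP kap np OKp)
open Q (Wn Pre rot0)
open scoped BigOperators Topology

theorem mem_XShcT {P : Type} [Group P] {F : ℕ → Subgroup P} (hF : NS F) :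
    ∀ l : List P, l ≠ [] → (∀ a ∈ l, a ∈ F 1) → brL l ∈ F l.length
  | [], h, _ => absurd rfl h
  | [a], _, h => h a (List.mem_singleton_self a)
  | a :: b :: l, _, h => by
    rw [brL, List.length_cons, add_comm]
    exact hF.comm 1 _ le_rfl (Nat.le_add_left 1 _) _ (h a List.mem_cons_self) _
      (mem_XShcT hF (b :: l) (List.cons_ne_nil _ _) fun c hc => h c (List.mem_cons_of_mem _ hc))

theorem com_XShcT {G : Type} [Group G] : ∀ l : List G, 2 ≤ l.length → brL l ∈ commutator G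
  | [], h => absurd h (by simp)
  | [_], h => absurd h (by simp)
  | a :: b :: l, _ => by
    rw [brL]
    exact Subgroup.commutator_mem_commutator (Subgroup.mem_top _) (Subgroup.mem_top _)

theorem x_ShcT (hVtT : VtT) : ShcT := by
  intro P _ F hF hN d Λ B s x x0 ψ φ q₀ q₁ _ h2 hx h3 h4 h5 hq
  have hc : brL (s.map x) ∈ F s.length := by
    have := mem_XShcT hF (s.map x) (List.ne_nil_of_length_pos (by rw [List.length_map]; omega))
      fun a ha => by
        obtain ⟨j, -, rfl⟩ := List.mem_map.1 ha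
        exact hx j
    rwa [List.length_map] at this
  refine ⟨brL (s.map fun i => FreeGroup.of (Sum.inl (q₁ i))),
    com_XShcT _ (by rwa [List.length_map]), (-1) ^ s.toFinset.card * ψ (brL (s.map x)),
    mul_ne_zero (pow_ne_zero _ (by decide)) h5, fun k _ h _ => ?_⟩
  have hz : ∀ ω : Finset (Fin d),
      piV (vC s.toFinset x x0 q₀ q₁) (brL (s.map fun i => FreeGroup.of (Sum.inl (q₁ i)))) ω =
      brL (s.map fun i => if i ∈ ω then x i else 1) := fun ω => by
    refine (MP_f68ac8_nt.Zk.map_ZkOrb ((Pi.evalMonoidHom _ ω).comp (piV _)) _).trans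
      (congrArg brL ?_)
    rw [List.map_map]
    refine List.map_congr_left fun i hi => ?_
    have hi' := List.mem_toFinset.2 hi
    obtain ⟨-, v2, v3, -⟩ := hVtT d P Λ B (ω.piecewise q₁ q₀) (msk s.toFinset x) x0
    have e0 : vC s.toFinset x x0 q₀ q₁ ω (Sum.inl (q₁ i)) = if i ∈ ω then x i else 1 := by
      have key : ∀ j, ω.piecewise q₁ q₀ j = q₁ i → (j = i → i ∉ ω) → msk s.toFinset x j = 1 := by
        intro j e1 e2
        refine if_neg fun hj => ?_
        by_cases e : j ∈ ω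
        · rw [piecewise_eq_of_mem _ _ _ e] at e1
          by_cases e3 : j = i
          · exact e2 e3 (e3 ▸ e)
          · exact ((hq j hj i hi').2 e3).2 e1
        · rw [piecewise_eq_of_notMem _ _ _ e] at e1
          exact (hq j hj i hi').1 e1
      by_cases e : i ∈ ω
      · have e1 : ω.piecewise q₁ q₀ i = q₁ i := piecewise_eq_of_mem _ _ _ e
        have := v3 i fun j hj e2 => key j (e2.trans e1) fun e3 => absurd e3 hj
        rw [e1, msk, if_pos hi'] at this
        rw [if_pos e]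
        exact this
      · rw [if_neg e]
        exact v2 _ fun j e2 => key j e2 fun _ => e
    simpa [piV] using e0
  beta_reduce
  rw [← Finset.sum_erase_add _ _ (Finset.mem_powerset_self _),
    ← Finset.sum_erase_add _ _ (Finset.mem_powerset_self _), add_assoc]
  refine congrArg₂ _ (Finset.sum_congr rfl fun ω hω => ?_) ?_
  · obtain ⟨w1, w2⟩ := Finset.mem_erase.1 hω
    obtain ⟨i, i1, i2⟩ := Finset.exists_of_ssubset
      (Finset.ssubset_iff_subset_ne.2 ⟨Finset.mem_powerset.1 w2, w1⟩)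
    rw [Pi.mul_apply, Pi.mul_apply, Pi.mul_apply, hz,
      MP_f68ac8_nt.Zk.one_ZkOrb _ (List.mem_map.2 ⟨i, List.mem_toFinset.1 i1, if_neg i2⟩), mul_one,
      Pi.inv_apply, mul_inv_cancel, one_mul]
  · rw [Pi.mul_apply, Pi.mul_apply, Pi.mul_apply, hz, Pi.inv_apply,
      List.map_congr_left (g := x) fun i hi => if_pos (List.mem_toFinset.2 hi),
      h4 _ ((hN _).conj_mem _ hc _), h3 _ hc]
    ring

end Pool.Agent.MP_e23604_nt.T

end
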