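import Mathlib
import Pool.Agent.Mg.Fe23604m.G06f121

set_option linter.all false

namespace Pool.Agent.MP_e23604_nt.T

open Finset Filter NumberField
open MP_f68ac8_nt (cyc IsFrob)
open MP_f68ac8_nt.Zv (Ex Prob piV Unf Bx)
open MP_f68ac8_nt.Zk (NS brL lk msk Av)
open MP_f68ac8_nt.Nd (Lr Fr Gz Exm fP kap np OKp)
open Q (Wn Pre rot0)
open scoped BigOperators Topology

section
variable {d : ℕ} {U : Fin d → Type} [∀ j, Fintype (U j)] (w : ∀ j, U j → ℝ)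

theorem ex_XPtT {A : Type} [Fintype A] (g : A → (∀ j, U j) → ℂ) :
    (Ex w fun q => 𝔼 a, g a q) = 𝔼 a, Ex w (g a) := by
  simp only [Ex, Complex.real_smul, mul_expect, expect_sum_comm]

theorem sum_XPtT {A : Type} [Fintype A] (g : A → (∀ j, U j) → ℂ) :
    (Ex w fun q => ∑ a, g a q) = ∑ a, Ex w (g a) := by
  simp only [Ex, smul_sum]
  exact sum_comm

variable {w}

theorem avg_XPtT (hw : Prob w) {κ : (∀ j, U j) → ℝ} (hκ : MP_f68ac8_nt.Nd.Tw w κ) {A R I : Type}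
    [Fintype A] [Nonempty A] [Fintype R] [Nonempty R] [Fintype I]
    (G : A → R → I → (∀ j, U j) → ℂ) (f H : (∀ j, U j) → ℝ) (b : ℝ)
    (hf : ∀ a q, f q ≤ H q + (𝔼 ρ, ∑ i, G a ρ i q).re)
    (hG : ∀ ρ i (ζ : ∀ j, U j → ℂ), (∀ j u, ‖ζ j u‖ ≤ 1) →
      ‖𝔼 a, Ex w fun q => (∏ j, ζ j (q j)) * G a ρ i q‖ ≤ b) :
    (Ex w fun q => κ q * f q) ≤ (Ex w fun q => κ q * H q) + Fintype.card I * b := by
  have h1 : ∀ q, f q ≤ H q + (𝔼 ρ, ∑ i, 𝔼 a, G a ρ i q).re := fun q => by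
    simp only [← expect_sum_comm]
    rw [expect_comm, Complex.re_expect, ← sub_le_iff_le_add']
    exact le_expect univ_nonempty fun a _ => sub_le_iff_le_add'.2 (hf a q)
  have h2 := hκ.2 (fun q => 𝔼 ρ, ∑ i, 𝔼 a, G a ρ i q) (Fintype.card I * b) fun ζ hζ => by
    simp only [mul_expect, mul_sum, ex_XPtT, sum_XPtT]
    refine (RCLike.norm_expect_le (K := ℝ)).trans (expect_le univ_nonempty fun ρ _ => ?_)
    refine (norm_sum_le _ _).trans ((sum_le_card_nsmul _ _ b fun i _ => hG ρ i ζ hζ).trans ?_)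
    rw [card_univ, nsmul_eq_mul]
  refine le_trans ?_ (add_le_add le_rfl ((Complex.re_le_norm _).trans h2))
  simp only [Ex, Complex.re_sum, Complex.smul_re, Complex.re_ofReal_mul, smul_eq_mul,
    ← sum_add_distrib, ← mul_add]
  exact sum_le_sum fun q _ => mul_le_mul_of_nonneg_left
    (mul_le_mul_of_nonneg_left (h1 q) (hκ.1 q)) (prod_nonneg fun j _ => hw.1 j _)

end

theorem x_PtT (hDensT : DensT) (hErrT : ErrT) (hEqaT : EqaT) (hWmT : WmT)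
    (hUnifStmt : MP_f68ac8_nt.Zv.UnifStmt) (hTwN : MP_f68ac8_nt.Nd.TwN) : PtT := by
  classical
  obtain ⟨c, hc, hD⟩ := hDensT
  intro ε hε
  obtain ⟨ε', hε', hD⟩ := hD ε hε
  refine ⟨ε', hε', fun P A O _ _ _ _ F L n₀ m₀ c₀ C Bad pd hF hFn hC H => ?_⟩
  obtain ⟨C₂, hC₂, hE⟩ := hErrT P (A × ZMod 3) O L
  have hC₃ : 1 ≤ max |c₀| 1 * C₂ := one_le_mul_of_one_le_of_one_le (le_max_right _ _) hC₂
  refine hD Bad (max n₀ (3 * Fintype.card P ^ 2 ^ L)) (2 * L) m₀ L (C + max |c₀| 1 * C₂)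
    (by linarith) fun Q D ξ hξ0 hξ1 hQ yy d μ hdD hth => ?_
  obtain ⟨hη, hw⟩ := hWmT Q c _ _ D _ hQ
  obtain ⟨w1, w3, -⟩ := hw d μ
  obtain ⟨B, _, σ, τ, bb, N, γ, hG, H⟩ := H Q c _ _ D _ hc (le_max_left _ _) hQ
  obtain ⟨I, _, T, Hf, hI, hT, h2, H⟩ := H yy d μ hdD hth
  obtain ⟨𝓡, _, _, s, hs⟩ := hUnifStmt (Q.Λ ⊕ B) P (N.comap (FreeGroup.lift (ltr Q.Λ τ bb)))
  choose wd hwd using fun (l : Q.Λ) (a : Exm (6 * Fintype.card P)) => hG.gen (σ l ^ (a.1 : ℕ))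
  choose v hv using fun o => hG.gen (γ o)
  have : Nonempty (Exm (6 * Fintype.card P)) :=
    ⟨⟨⟨1, by have := Fintype.card_pos (α := P); omega⟩, Nat.coprime_one_left _⟩⟩
  have hEQ := hEqaT P L Q c _ _ D _ hQ (le_max_right _ _) le_rfl B σ τ bb N hG 𝓡 s hs wd hwd d μ
  have htw := (hTwN c hc Q.Λ (fun l hl => (hQ.pri l hl).1) d (Q.wm μ) yy).1
  have _ : Fintype (Lr d Q.Λ → Exm (6 * Fintype.card P) × 𝓡) := Fintype.ofFinite _
  have h3 := avg_XPtT w1 htw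
    (fun (a : Lr d Q.Λ → Exm (6 * Fintype.card P) × 𝓡) (ρ : O → 𝓡) i q =>
      (T i).val (prs pd q fun j => ((a ⟨j, q j⟩).1.1 : ℕ)) q
        (Sum.elim (fun j => wd (q j) (a ⟨j, q j⟩).1 * s (a ⟨j, q j⟩).2) fun o => v o * s (ρ o)))
    (fun q => if Function.Injective q ∧ Bad (np q) then 1 else 0) Hf (C₂ ^ (d + 1) * ξ)
    (fun a q => H 𝓡 s hs q _ _ v ⟨fun j => (a ⟨j, q j⟩).1.2.coprime_dvd_right (Dvd.intro _ rfl),
      fun j => by
        rw [map_mul, mul_inv_rev, mul_assoc]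
        exact N.mul_mem (N.inv_mem (hs.1 _)) (hwd _ _), hv⟩)
    fun ρ i ζ hζ => hE F hF hFn d Q.Λ B (Q.wm μ) (Exm (6 * Fintype.card P) × 𝓡)
      (fun u a => wd u.2 a.1 * s a.2) (fun u a u' => (pd u.2 u', ((a.1.1 : ℕ) : ZMod 3)))
      (fun o => v o * s (ρ o)) _ ξ hξ0 hξ1 w1 (fun j hj u => (w3 j u (by omega)).2) hEQ (T i) ζ
      (hT i) hζ
  simp only [mul_ite, mul_one, mul_zero] at h3
  have h5 : C ^ (d + 1) * ξ ^ 2 ^ L ≤ C ^ (d + 1) * ξ :=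
    mul_le_mul_of_nonneg_left (pow_le_of_le_one hξ0 hξ1 (by positivity)) (by positivity)
  have h6 : C ^ (d + 1) + (max |c₀| 1 * C₂) ^ (d + 1) ≤ (C + max |c₀| 1 * C₂) ^ (d + 1) :=
    pow_add_pow_le (by linarith) (by linarith) (Nat.succ_ne_zero d)
  have h7 := mul_le_mul_of_nonneg_right h6 hξ0
  have h9 : Fintype.card I * (C₂ ^ (d + 1) * ξ) ≤ (max |c₀| 1 * C₂) ^ (d + 1) * ξ := by
    rw [← mul_assoc, mul_pow]
    refine mul_le_mul_of_nonneg_right (mul_le_mul_of_nonneg_right (hI.trans ?_)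
      (by positivity)) hξ0
    refine (le_abs_self _).trans ?_
    rw [abs_pow]
    exact pow_le_pow_left₀ (abs_nonneg _) (le_max_left _ _) _
  refine le_trans (le_of_eq ?_) (h3.trans (by linarith))
  congr

end Pool.Agent.MP_e23604_nt.T
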