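import Mathlib
import Pool.Agent.Mg.Fe23604m.G06f121

set_option linter.all false

namespace Pool.Agent.MP_e23604_nt.T

open Finset Filter NumberField
open MP_f68ac8_nt (cyc IsFrob)
open MP_f68ac8_nt.Zv (Ex Prob piV Unf Bx)
open MP_f68ac8_nt.Zk (NS brL lk msk Av)
open MP_f68ac8_nt.Nd (Lr Fr Gz Exm fP kap np OKp)
open Q (Wn Pre rot0)
open scoped BigOperators Topology

theorem lv_XSumT (h : ℕ) (f : ℕ → ℝ) :
    ∑ n ∈ Lv (2 * h + 4), f n = ∑ i ∈ range (h + 1), f (2 * i + 2) := by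
  have e : Lv (2 * h + 4) = (range (h + 1)).image fun i => 2 * i + 2 := by
    ext n
    simp only [Lv, mem_filter, mem_range, mem_image, Nat.even_iff]
    exact ⟨fun hn => ⟨n / 2 - 1, by omega, by omega⟩, fun ⟨i, h1, h2⟩ => by omega⟩
  rw [e, sum_image fun a _ b _ hab => by
    have : 2 * a + 2 = 2 * b + 2 := hab
    omega]

theorem tel_XSumT (N R : ℕ → ℝ) (c : ℝ) (h : ℕ) (h1 : N (2 * h + 2) ≤ c + R (2 * h + 2))
    (h2 : ∀ i, i < h → N (2 * i + 2) ≤ N (2 * i + 2 + 2) + R (2 * i + 2)) :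
    N 2 ≤ c + ∑ i ∈ range (h + 1), R (2 * i + 2) := by
  have key : ∀ k, k ≤ h → N 2 ≤ N (2 * k + 2) + ∑ i ∈ range k, R (2 * i + 2) := by
    intro k
    induction k with
    | zero => simp
    | succ k ih =>
      intro hk
      have e1 := ih (by omega)
      have e2 := h2 k (by omega)
      rw [sum_range_succ, show 2 * (k + 1) + 2 = 2 * k + 2 + 2 by ring]
      linarith
  have := key h le_rfl
  rw [sum_range_succ]
  linarith

theorem nn_XSumT {V : Type} [AddCommGroup V] {d : ℕ} (S : Sy V d) (n : ℕ) (u : V3 d) :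
    0 ≤ S.Nn n u := by
  unfold Sy.Nn
  positivity

theorem one_XSumT (hItT : ItT) (hTrvT : TrvT) {V : Type} [AddCommGroup V] [Fintype V] {d : ℕ}
    (S : Sy V d) (hS : S.Ok) (h : ℕ) (lv : Fin d → ℕ) (hm : S.m = 2 * h + 4)
    (hg : S.dt.Gen S.β) (u : V3 d) (hu : u ∈ S.dt.KS S.β ∧ Nc u) :
    min (S.Nn 2 u / 3 ^ h) (S.Nn (S.m - 2) u) ≤
      (4 * (S.dt.Rn S.β lv S.m u : ℝ) + 3 / 3 ^ h) / 3 ^ n2 S.dt.sp +
        ∑ n ∈ Lv S.m, S.dt.wt S.β lv S.m h n u * S.Rs lv n u := by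
  have h1 := hItT V d S hS hg.ga lv
  have h2 : (S.dt.NK S.β lv S.m u : ℝ) ≤ 9 + S.dt.Rn S.β lv S.m u := by
    exact_mod_cast hTrvT d S.dt S.β lv S.m u hg.g3
  have h3 := (h1 (2 * h + 2) u ⟨h + 1, by ring⟩).1 (by omega)
  have h4 : (0 : ℝ) < 3 ^ n2 S.dt.sp := by positivity
  have h5 : (0 : ℝ) < 3 ^ h := by positivity
  simp only [Dt.wt, if_pos hu]
  by_cases h0 : S.dt.Rn S.β lv S.m u = 0
  · refine (min_le_left _ _).trans ?_
    simp only [h0, if_true, Nat.cast_zero, add_zero, mul_zero, zero_add] at h2 ⊢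
    have h6 := tel_XSumT (fun n => S.Nn n u) (fun n => S.Rs lv n u) (3 / 3 ^ n2 S.dt.sp) h
      (h3.trans (add_le_add_left (by
        rw [pow_succ, div_le_div_iff₀ (by positivity) h4]
        nlinarith) _))
      fun i hi => ((h1 (2 * i + 2) u ⟨i + 1, by ring⟩).2 (by omega)).trans (add_le_add_left
        (mul_le_of_le_one_left (nn_XSumT S _ u) (by linarith)) _)
    rw [← mul_sum, hm, lv_XSumT]
    calc S.Nn 2 u / 3 ^ h ≤ (3 / 3 ^ n2 S.dt.sp + ∑ i ∈ range (h + 1), S.Rs lv (2 * i + 2) u) /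
          3 ^ h := div_le_div_of_nonneg_right h6 h5.le
      _ = _ := by ring
  · refine (min_le_right _ _).trans ?_
    have h6 : (1 : ℝ) ≤ S.dt.Rn S.β lv S.m u := by exact_mod_cast Nat.one_le_iff_ne_zero.2 h0
    simp only [if_neg h0]
    rw [sum_eq_single_of_mem (2 * h + 2) (by
        simp only [Lv, mem_filter, mem_range, Nat.even_iff]
        omega) fun n _ hn => by rw [if_neg (by omega), zero_mul],
      if_pos (by omega), one_mul, show S.m - 2 = 2 * h + 2 by omega]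
    refine h3.trans (add_le_add_left ?_ _)
    have h7 : (0 : ℝ) ≤ 3 / 3 ^ h := by positivity
    rw [pow_succ, div_le_div_iff₀ (by positivity) h4]
    have h8 : (S.dt.NK S.β lv S.m u : ℝ) ≤ (4 * (S.dt.Rn S.β lv S.m u : ℝ) + 3 / 3 ^ h) * 3 := by
      linarith
    nlinarith [mul_le_mul_of_nonneg_right h8 h4.le]

theorem x_SumT (hItT : ItT) (hTrvT : TrvT) (hOrbT : OrbT) : SumT := by
  classical
  intro V _ _ d S hS h lv hm hg
  obtain ⟨g, hg0⟩ : ∃ g : V3 d → ℝ, g = fun u =>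
      (4 * (if u ∈ S.dt.KS S.β ∧ Nc u then (S.dt.Rn S.β lv S.m u : ℝ) else 0) +
        3 / 3 ^ h * (if u ∈ S.dt.KS S.β then 1 else 0)) / 3 ^ n2 S.dt.sp +
        ∑ n ∈ Lv S.m, S.dt.wt S.β lv S.m h n u * S.Rs lv n u := ⟨_, rfl⟩
  have e : S.dt.H1 S.β lv S.m h + S.Tot lv h = ∑ u, g u := by
    have e1 : ((S.dt.KS S.β).ncard : ℝ) = ∑ u, if u ∈ S.dt.KS S.β then (1 : ℝ) else 0 := by
      rw [sum_boole, ← Set.ncard_coe_finset]
      congr 2
      ext u
      simp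
    rw [hg0, Dt.H1, Dt.Rt, Sy.Tot, sum_comm, e1, sum_add_distrib, ← sum_div, sum_add_distrib,
      ← mul_sum, ← mul_sum]
  have h1 : ∀ u, u ∈ S.dt.KS S.β ∧ Nc u → min (S.Nn 2 u / 3 ^ h) (S.Nn (S.m - 2) u) ≤ g u :=
    fun u hu => by
      simp only [hg0, if_pos hu, if_pos hu.1, mul_one]
      exact one_XSumT hItT hTrvT S hS h lv hm hg u hu
  have h2 : ∀ u, 0 ≤ g u := fun u => by
    by_cases hu : u ∈ S.dt.KS S.β ∧ Nc u
    · exact (le_min (div_nonneg (nn_XSumT S _ u) (by positivity)) (nn_XSumT S _ u)).trans (h1 u hu)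
    · simp only [hg0, Dt.wt, if_neg hu, zero_mul, sum_const_zero, add_zero, mul_zero, zero_add]
      positivity
  rw [e]
  refine ⟨sum_nonneg fun u _ => h2 u, fun ⟨u, v, hu, hv⟩ => ?_⟩
  obtain ⟨h3, h4, h5⟩ := hOrbT V d S hS h u v hm hu hv
  exact ((le_min ((one_le_div (by positivity)).2 h4) h5).trans (h1 u ⟨h3, hu⟩)).trans
    (single_le_sum (fun u _ => h2 u) (mem_univ u))

end Pool.Agent.MP_e23604_nt.T
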