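import Mathlib
import Pool.Agent.Mg.Fe23604m.G06f121

set_option linter.all false

section

namespace Pool.Agent.MP_e23604_nt.T

open Finset Filter NumberField
open MP_f68ac8_nt (cyc IsFrob)
open MP_f68ac8_nt.Zv (Ex Prob piV Unf Bx)
open MP_f68ac8_nt.Zk (NS brL lk msk Av)
open MP_f68ac8_nt.Nd (Lr Fr Gz Exm fP kap np OKp)
open Q (Wn Pre rot0)
open scoped BigOperators Topology

theorem x_CntB (hBasT : BasT) (hPinT : PinT) (hCntA : CntA) : CntB := by
  intro V _ _ d S ok n u hn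
  have he : Even n := by
    have := ok.ev
    rw [← hn] at this
    exact (Nat.even_add.1 this).2 even_two
  obtain ⟨-, -, -, -, -, b6, b7, -⟩ := hBasT V S.J S.T ok.cm.toCm0
  obtain ⟨c1, c2, -⟩ := hCntA V d S ok
  rcases (S.Sol n (n + 1) u).eq_empty_or_nonempty with h | ⟨v₀, h₀⟩
  · rw [h, Set.ncard_empty]
    exact Nat.zero_le _
  · rw [show (n + 1) * d + n1 S.dt.sp = (n + 2) * n1 S.dt.sp + (n + 1) * n2 S.dt.sp by
      rw [← congrArg ((n + 1) * ·) c1]; ring, ← c2 n (by omega)]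
    refine Set.ncard_le_ncard_of_injOn (fun v => v - v₀)
      (fun v hv => hPinT V d S ok n u v v₀ he hv h₀ fun j => ?_)
      (fun a _ b _ e => sub_left_injective e) (Set.toFinite _)
    rw [hn]
    refine (b6 _ _ (sub_mem (hv.1 j).1 (h₀.1 j).1)).1 ?_
    rw [(b7 _ _ (hv.1 j).1 _ (h₀.1 j).1).2, (hv.1 j).2, (h₀.1 j).2, sub_self]

end Pool.Agent.MP_e23604_nt.T

end

section

namespace Pool.Agent.MP_e23604_nt.T

open Finset Filter NumberField
open MP_f68ac8_nt (cyc IsFrob)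
open MP_f68ac8_nt.Zv (Ex Prob piV Unf Bx)
open MP_f68ac8_nt.Zk (NS brL lk msk Av)
open MP_f68ac8_nt.Nd (Lr Fr Gz Exm fP kap np OKp)
open Q (Wn Pre rot0)
open scoped BigOperators Topology

theorem map_XFouT {ι : Type} (s : Finset ι) (f : ι → ZMod 3) :
    (ZMod.stdAddChar (∑ i ∈ s, f i) : ℂ) = ∏ i ∈ s, ZMod.stdAddChar (f i) := by
  classical
  induction s using Finset.induction_on with
  | empty => simp
  | insert a s ha ih => rw [sum_insert ha, prod_insert ha, AddChar.map_add_eq_mul, ih]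

theorem one_XFouT (b : ZMod 3) :
    ∑ x : ZMod 3, (ZMod.stdAddChar (x * b) : ℂ) = if b = 0 then 3 else 0 := by
  rw [AddChar.sum_mulShift b (ZMod.isPrimitive_stdAddChar 3), ZMod.card]
  split_ifs <;> simp

theorem orth_XFouT {d : ℕ} (e o : V3 d) (o' : ZMod 3) (he : ∀ j, e j ≠ 0) :
    ∑ z : V3 d, ∑ γ : ZMod 3, cs (∑ j, e j * z j * o j + γ * o') =
      if (∀ j, o j = 0) ∧ o' = 0 then 3 ^ (d + 1) else 0 := by
  have h1 : ∑ z : V3 d, ∑ γ : ZMod 3, (ZMod.stdAddChar (∑ j, e j * z j * o j + γ * o') : ℂ) =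
      (∏ j, if o j = 0 then 3 else 0) * if o' = 0 then 3 else 0 := by
    simp only [AddChar.map_add_eq_mul, map_XFouT, ← mul_sum, ← sum_mul, one_XFouT]
    congr 1
    rw [← Fintype.piFinset_univ, ← prod_univ_sum (fun _ => univ)
      fun j (x : ZMod 3) => (ZMod.stdAddChar (e j * x * o j) : ℂ)]
    refine prod_congr rfl fun j _ => ?_
    simp only [mul_comm (e j), mul_assoc, one_XFouT]
    have : Fact (Nat.Prime 3) := ⟨Nat.prime_three⟩
    simp only [mul_eq_zero, he j, or_false]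
  simp only [cs, ← Complex.re_sum, h1]
  by_cases h : (∀ j, o j = 0) ∧ o' = 0
  · simp only [h.1, h.2, if_true, prod_const, card_univ, Fintype.card_fin, implies_true, and_self,
      ← pow_succ]
    exact_mod_cast Complex.ofReal_re (3 ^ (d + 1))
  · rw [if_neg h]
    rcases not_and_or.1 h with h | h
    · obtain ⟨j, hj⟩ := not_forall.1 h
      rw [prod_eq_zero (mem_univ j) (if_neg hj), zero_mul, Complex.zero_re]
    · rw [if_neg h, mul_zero, Complex.zero_re]

theorem x_FouT (hObT : ObT) : FouT := by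
  classical
  intro V _ _ d S hS n u
  rw [Set.ncard_eq_toFinset_card' , Set.toFinset_card, Fintype.card_subtype, card_filter,
    Nat.cast_sum, sum_mul]
  refine sum_congr rfl fun v _ => ?_
  have h := (hObT V d S hS n v).2.2.1 u
  by_cases hv : v ∈ S.Sol n (n + 1) u
  · simp only [if_pos hv, Sy.ph]
    rw [orth_XFouT (fun j => S.e (S.l j)) (fun j => S.ob n v (some j)) (S.ob n v none)
      fun j => (hS.tl _ (hS.pri j)).ne]
    by_cases h2 : v ∈ S.Sol n n u
    · rw [if_pos h2, if_pos ⟨fun j => (h.1 h2).2 _, (h.1 h2).2 _⟩, Nat.cast_one, one_mul]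
    · rw [if_neg h2, if_neg fun h3 => h2 (h.2 ⟨hv, fun i => by
        cases i
        exacts [h3.2, h3.1 _]⟩), Nat.cast_zero, zero_mul]
  · rw [if_neg fun h2 => hv (h.1 h2).1]
    simp [hv]

end Pool.Agent.MP_e23604_nt.T

end
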