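import Mathlib
import Pool.Agent.Mg.Fe23604m.G06f121
import Pool.Agent.Mg.Fe23604m.G318bc4

set_option linter.all false

namespace Pool.Agent.MP_e23604_nt.T

open Finset Filter NumberField
open MP_f68ac8_nt (cyc IsFrob)
open MP_f68ac8_nt.Zv (Ex Prob piV Unf Bx)
open MP_f68ac8_nt.Zk (NS brL lk msk Av)
open MP_f68ac8_nt.Nd (Lr Fr Gz Exm fP kap np OKp)
open Q (Wn Pre rot0)
open scoped BigOperators Topology

open MP_f68ac8_nt.Nd (tw fib_NjOsc swap_NjOsc split_NjOsc excl_NjOsc ga_NjOsc norm_ga_NjOsc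
  norm_psi_NjOsc ex_le_NdOsc Ij_NdOsc norm_tw_NdOsc)

theorem psi_XOscB {I : Type} (s : Finset I) (f : I → ZMod 3) :
    (ZMod.stdAddChar (∑ i ∈ s, f i) : ℂ) = ∏ i ∈ s, ZMod.stdAddChar (f i) := by
  classical
  induction s using Finset.induction_on with
  | empty => simp
  | insert a s ha ih => rw [sum_insert ha, prod_insert ha, AddChar.map_add_eq_mul, ih]

theorem prod_XOscB {d : ℕ} (S : Finset (Fin d)) (x : Fin d → ZMod 3) :
    ∏ j ∈ S, fP (x j) =
      𝔼 u : Fin d → (ZMod 3)ˣ, (ZMod.stdAddChar (∑ j ∈ S, (u j : ZMod 3) * x j) : ℂ) := by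
  have h0 : fP (0 : ZMod 3) = 1 := by simp [fP]
  have h1 : ∏ j ∈ S, fP (x j) = ∏ j, fP (if j ∈ S then x j else 0) := by
    simp only [apply_ite fP, h0, prod_ite_mem, univ_inter]
  rw [h1]
  simp only [fP, Fintype.expect_eq_sum_div_card, prod_div_distrib, prod_univ_sum,
    Fintype.piFinset_univ, prod_const, card_univ, Fintype.card_fun, Nat.cast_pow]
  refine congrArg (· / _) (sum_congr rfl fun u _ => ?_)
  rw [← psi_XOscB]
  simp only [mul_ite, mul_zero, sum_ite_mem, univ_inter]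

theorem dir_XOscB {Q : Par} {c : ℝ} {n r : ℕ} {D η : ℝ} (hp : Q.Ok c n r D η) {d : ℕ}
    (hd : (d : ℝ) ≤ D) {τ : ℝ} (hτ : |τ| ≤ c) {m : Q.Mk} (hm : 2 ≤ m.1.val) (hm' : m.2 = false)
    {e : ℕ → ZMod 3} (he : ∀ l, n < l → e l = 1) (i : Fin d) (A : Fin d → ZMod 3) (a : ZMod 3)
    (hA : A i = 0) (hne : (∃ j, A j ≠ 0) ∨ a ≠ 0) (q : Fin d → Q.Λ) (hq : Ij_NdOsc i q)
    (hti : ∀ k, A k ≠ 0 → Q.Ti (q k) ∧ (q k).1 % 3 = 1) :
    ‖∑ u : Q.Λ, (Q.W m u / Q.ms m) • (tw τ u *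
      ZMod.stdAddChar (e u * (∑ k, A k * rh u (q k) + a * lm9 u)))‖ ≤ η := by
  have hm0 : m.1.val ≠ 0 := by omega
  have hms : 1 ≤ Q.ms m := hp.one m hm0
  set J := univ.filter fun k => A k ≠ 0 with hJ
  have hJ' : ∀ k, k ∈ J ↔ A k ≠ 0 := fun k => by simp [hJ]
  have hJi : ∀ k ∈ J, k ≠ i := by
    rintro k hk rfl
    exact (hJ' k).1 hk hA
  have h1 := hp.dir m hm hm' τ hτ (J.image fun k => (q k : ℕ))
    (fun l => ∑ j ∈ J with (q j : ℕ) = l, A j) a (fun l hl => by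
      obtain ⟨k, hk, rfl⟩ := mem_image.1 hl
      exact hti k ((hJ' k).1 hk))
    (le_trans (by
      exact_mod_cast card_image_le.trans ((card_le_univ J).trans (Fintype.card_fin d).le)) hd)
    (hne.imp_left fun ⟨j, hj⟩ => by
      have hj' := (hJ' j).2 hj
      refine ⟨q j, mem_image_of_mem (fun k => (q k : ℕ)) hj', ?_⟩
      have e : J.filter (fun k => (q k : ℕ) = q j) = {j} := by
        ext k
        rw [mem_filter, mem_singleton]
        exact ⟨fun h => hq k j (hJi k h.1) (hJi j hj') (Subtype.ext h.2),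
          fun h => by rw [h]; exact ⟨hj', rfl⟩⟩
      simpa only [e, sum_singleton] using hj)
  have eA := fun l : ℕ => fib_NjOsc J (fun k => (q k : ℕ)) A
    (fun j hj => by_contra fun h => hj ((hJ' j).2 h)) fun k => rh l k
  simp only [eA] at h1
  have e2 : ∑ u : Q.Λ, (Q.W m u / Q.ms m) • (tw τ u *
      ZMod.stdAddChar (e u * (∑ k, A k * rh u (q k) + a * lm9 u))) =
      (Q.ms m)⁻¹ • ∑ l ∈ Q.Λ, (Q.W m l : ℂ) * tw τ l *
        ZMod.stdAddChar (∑ k, A k * rh l (q k) + a * lm9 l) := by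
    rw [← sum_coe_sort Q.Λ, smul_sum]
    refine sum_congr rfl fun u _ => ?_
    by_cases h0 : Q.W m u = 0
    · simp [h0]
    · rw [he _ (hp.big m u u.2 hm0 h0), one_mul, div_eq_inv_mul, mul_smul, mul_assoc,
        Complex.real_smul (x := Q.W m u)]
  rw [e2, norm_smul, Real.norm_of_nonneg (inv_nonneg.2 (by linarith))]
  exact (mul_le_mul (inv_le_one_of_one_le₀ hms) h1 (norm_nonneg _) zero_le_one).trans
    (one_mul η).le

section
variable {d : ℕ} {Λ : Finset ℕ} (S : Finset (Fin d)) (e : ℕ → ZMod 3) (φ : Fin d → V3 d)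
  (c' a : V3 d) (i : Fin d) (u : Fin d → (ZMod 3)ˣ)

/-- the part of the phase that does not depend on the index `i` -/
noncomputable def H_XOscB (q : Fin d → Λ) : ZMod 3 :=
  ∑ j ∈ S, (u j : ZMod 3) * (∑ k ∈ (univ.erase j).erase i, φ k j * (e (q k) * rh (q k) (q j)) +
    c' j * rh 3 (q j)) + ∑ k ∈ univ.erase i, a k * (e (q k) * lm9 (q k))

/-- the coefficients -/
def A_XOscB (j : Fin d) : ZMod 3 := if j ∈ S then u j * φ i j else 0

/-- the other part -/
noncomputable def F_XOscB (q : Fin d → Λ) (v : Λ) : ZMod 3 :=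
  e v * (∑ k, A_XOscB S φ i u k * rh v (q k) + a i * lm9 v)

variable {S i}

theorem updH_XOscB (h : i ∉ S) (q : Fin d → Λ) (v : Λ) :
    H_XOscB S e φ c' a i u (Function.update q i v) = H_XOscB S e φ c' a i u q := by
  unfold H_XOscB
  congr 1
  · refine sum_congr rfl fun j hj => ?_
    rw [Function.update_of_ne (ne_of_mem_of_not_mem hj h), sum_congr rfl fun k hk => by
      rw [Function.update_of_ne (ne_of_mem_erase hk)]]
  · exact sum_congr rfl fun k hk => by rw [Function.update_of_ne (ne_of_mem_erase hk)]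

theorem updF_XOscB (h : i ∉ S) (q : Fin d → Λ) (v v' : Λ) :
    F_XOscB S e φ a i u (Function.update q i v) v' = F_XOscB S e φ a i u q v' := by
  unfold F_XOscB
  congr 2
  refine sum_congr rfl fun k _ => ?_
  by_cases hk : k = i
  · rw [hk, A_XOscB, if_neg h, zero_mul, zero_mul]
  · rw [Function.update_of_ne hk]

theorem phase_XOscB (h : i ∉ S) (q : Fin d → Λ) :
    ∑ j ∈ S, (u j : ZMod 3) * (∑ k ∈ univ.erase j, φ k j * (e (q k) * rh (q k) (q j)) +
      c' j * rh 3 (q j)) + ∑ k, a k * (e (q k) * lm9 (q k)) =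
    H_XOscB S e φ c' a i u q + F_XOscB S e φ a i u q (q i) := by
  have h2 : ∑ j ∈ S, (u j : ZMod 3) * (∑ k ∈ univ.erase j, φ k j * (e (q k) * rh (q k) (q j)) +
      c' j * rh 3 (q j)) = ∑ j ∈ S, (u j : ZMod 3) *
        (∑ k ∈ (univ.erase j).erase i, φ k j * (e (q k) * rh (q k) (q j)) + c' j * rh 3 (q j)) +
      e (q i) * ∑ j ∈ S, u j * φ i j * rh (q i) (q j) := by
    rw [mul_sum, ← sum_add_distrib]
    refine sum_congr rfl fun j hj => ?_
    rw [← add_sum_erase _ _ (mem_erase.2 ⟨(ne_of_mem_of_not_mem hj h).symm, mem_univ i⟩)]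
    ring
  simp only [H_XOscB, F_XOscB, A_XOscB, ite_mul, zero_mul, sum_ite_mem, univ_inter]
  rw [h2, ← add_sum_erase univ _ (mem_univ i)]
  ring

theorem tf_XOscB (h : i ∉ S) (q : Fin d → Λ)
    (h1 : (univ.filter fun j => (dtl e fun k => (q k : ℕ)).sp j = true) = S) :
    (dtl e fun k => (q k : ℕ)).Tf φ c' a = 𝔼 u, (ZMod.stdAddChar (H_XOscB S e φ c' a i u q) : ℂ) *
      ZMod.stdAddChar (F_XOscB S e φ a i u q (q i)) := by
  rw [Dt.Tf, h1, prod_XOscB, expect_mul]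
  refine expect_congr rfl fun u _ => ?_
  rw [← AddChar.map_add_eq_mul, ← AddChar.map_add_eq_mul, ← phase_XOscB e φ c' a u h q]
  rfl

end

theorem x_OscB (hWmT : WmT) (hTwN : MP_f68ac8_nt.Nd.TwN) : OscB := by
  classical
  intro Q c n r D η y d μ e hc hp hd _ he φ c' a i hi hi' hφ hne
  obtain ⟨hη, hW⟩ := hWmT Q c n r D η hp
  obtain ⟨hw, hle, hsup⟩ := hW d μ
  have hi0 : (μ i).1.val ≠ 0 := by omega
  obtain ⟨S, hS⟩ : ∃ S : Finset (Fin d), ∀ j, j ∈ S ↔ (μ j).2 = true :=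
    ⟨univ.filter fun j => (μ j).2 = true, fun j => by simp⟩
  have hSi : i ∉ S := by simp [hS, hi']
  have e1 : ∑ q, (nuT Q μ c y q : ℂ) * (dtl e fun k => (q k : ℕ)).Tf φ c' a =
      Ex (U := fun _ => Q.Λ) (Q.wm μ) fun q => (kap c y q : ℂ) *
        𝔼 u, if Function.Injective q then (ZMod.stdAddChar (H_XOscB S e φ c' a i u q) : ℂ) *
          ZMod.stdAddChar (F_XOscB S e φ a i u q (q i)) else 0 := by
    unfold Ex
    refine sum_congr rfl fun q _ => ?_
    rw [nuT, Complex.real_smul, Complex.ofReal_mul, mul_assoc]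
    by_cases h0 : ∏ j, Q.wm μ j (q j) = 0
    · rw [h0, Complex.ofReal_zero, zero_mul, zero_mul]
    by_cases hq : Function.Injective q
    swap
    · simp [hq]
    simp only [if_pos hq]
    rw [tf_XOscB e φ c' a hSi q (Finset.ext fun j => by
      rw [hS, mem_filter, and_iff_right (mem_univ j),
        ← hp.cls (μ j) _ (q j).2 (hsup j _ (prod_ne_zero_iff.1 h0 j (mem_univ j)))]
      exact decide_eq_true_iff)]
  rw [e1]
  refine (hTwN c hc Q.Λ (fun l hl => (hp.pri l hl).1) d (Q.wm μ) y).2 _ _ fun τ hτ => ?_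
  refine swap_NjOsc _ _ _ _ fun u => ?_
  rw [split_NjOsc hw τ i (fun q => (ZMod.stdAddChar (H_XOscB S e φ c' a i u q) : ℂ))
    (fun q v => (ZMod.stdAddChar (F_XOscB S e φ a i u q v) : ℂ))
    (fun q v => by rw [updH_XOscB e φ c' a u hSi]) fun q v v' => by rw [updF_XOscB e φ a u hSi]]
  refine ex_le_NdOsc hw _ _ fun q hq => ?_
  by_cases hI : Ij_NdOsc i q
  · rw [norm_mul]
    refine (mul_le_of_le_one_left (norm_nonneg _)
      (norm_ga_NjOsc τ i (fun q => (norm_psi_NjOsc _).le) q)).trans ?_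
    refine excl_NjOsc i q _ _ hη (hw.1 i) (fun v => (hle i v hi0).2) (fun v => ?_) ?_
    · rw [norm_mul, norm_tw_NdOsc, one_mul]
      exact (norm_psi_NjOsc _).le
    · refine dir_XOscB hp hd hτ hi hi' he i (A_XOscB S φ i u) (a i) (if_neg hSi)
        (hne.imp_left fun ⟨j, h1, h2⟩ => ⟨j, by
          rw [A_XOscB, if_pos ((hS j).2 h1)]
          exact mul_ne_zero (Units.ne_zero _) h2⟩) q hI fun k hk => ?_
      have h1 : k ∈ S := by_contra fun h => hk (if_neg h)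
      have h2 := hsup k _ (hq k)
      have h3 : (μ k).1 = 0 := by_contra fun h => hk (by
        rw [A_XOscB, hφ k (fun h' => h (Fin.ext h')) ((hS k).1 h1), mul_zero, ite_self])
      exact ⟨⟨(q k).2, (μ k).2, h3 ▸ h2⟩, (hp.cls _ _ (q k).2 h2).2 ((hS k).1 h1)⟩
  · rw [ga_NjOsc, if_neg hI, mul_zero, zero_mul, norm_zero]
    positivity

end Pool.Agent.MP_e23604_nt.T
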