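import Mathlib
import Pool.Agent.Mg.Fe23604m.G06f121

set_option linter.all false

namespace Pool.Agent.MP_e23604_nt.T

open Finset Filter NumberField
open MP_f68ac8_nt (cyc IsFrob)
open MP_f68ac8_nt.Zv (Ex Prob piV Unf Bx)
open MP_f68ac8_nt.Zk (NS brL lk msk Av)
open MP_f68ac8_nt.Nd (Lr Fr Gz Exm fP kap np OKp)
open Q (Wn Pre rot0)
open scoped BigOperators Topology

theorem coc_XWaT {V L : Type} [AddCommGroup V] {J : V ≃ₗ[ℤ] V} {m n : ℕ}
    (η : GQ →* (V ≃ₗ[ℤ] V)) (f : FreeGroup L →* Pm J m) (t : FreeGroup L →* GQ) (x : GQ → V)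
    (h1 : ∀ w, (f w).1.linear = η (t w)) (h2 : ∀ g, Pre J (η g))
    (co : ∀ g h, x (g * h) - (x g + η g (x h)) ∈ Wn J n)
    (h3 : ∀ a, (f (FreeGroup.of a)).1 0 - x (t (FreeGroup.of a)) ∈ Wn J n) (w : FreeGroup L) :
    (f w).1 0 - x (t w) ∈ Wn J n := by
  have x1 : x 1 ∈ Wn J n := by
    have := neg_mem (co 1 1)
    simpa using this
  induction w using FreeGroup.induction_on with
  | C1 =>
    rw [map_one, map_one]
    change (0 : V) - x 1 ∈ _
    rw [zero_sub]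
    exact neg_mem x1
  | of a => exact h3 a
  | inv_of a ih =>
    rw [map_inv, map_inv, ← h2 (t (FreeGroup.of a)), map_sub]
    have e1 : η (t (FreeGroup.of a)) ((f (FreeGroup.of a))⁻¹.1 0) = -(f (FreeGroup.of a)).1 0 := by
      rw [← h1]
      exact Q.inv_zero _
    have e2 := co (t (FreeGroup.of a)) (t (FreeGroup.of a))⁻¹
    rw [mul_inv_cancel] at e2
    rw [e1]
    have := sub_mem (sub_mem e2 ih) x1
    convert this using 1
    abel
  | mul w w' ih ih' =>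
    rw [map_mul, map_mul]
    change (f w).1 ((f w').1 0) - _ ∈ _
    rw [Q.aff_apply, h1]
    have := sub_mem (add_mem ((h2 (t w) n _).2 ih') ih) (co (t w) (t w'))
    rw [map_sub] at this
    convert this using 1
    abel

theorem x_WaT (hBasT : BasT) (hVtT : VtT) (hFilT : FilT) (hActB : ActB) (hDecT : DecT) : WaT := by
  intro V _ _ d Λ ι S η₀ bb N q H u v hc
  have ok := H.ok
  have hq : Function.Injective q := fun i j e => ok.inj (by rw [H.l, H.l, e])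
  obtain ⟨v1, v2, v3, -⟩ := hVtT d (Pm S.J S.m) Λ ι q (S.xr v) (S.xb η₀ bb)
  obtain ⟨-, -, -, f4, f5⟩ := hFilT V S.J S.T ok.cm.toCm0 S.m
  have hR : ∀ l ∈ S.R, P0 l := fun l hl => by
    obtain ⟨j, -, rfl⟩ := mem_image.1 hl
    exact ok.pri j
  have hmem : ∀ j, S.l j ∈ S.R := fun j => mem_image_of_mem _ (mem_univ j)
  have pr : ∀ g, Pr3 S.J (S.η g) := fun g =>
    (hActB V S.J S.T ok.cm.toCm0 S.η S.R S.e S.β S.σ S.τ ok.gm ok.tl hR g).1
  have hb : ∀ b, bb b ∈ DP P3 := fun b => (hDecT.2.2.2 P3 hDecT.1).1 _ (H.gn.mem b)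
  have L1 : ∀ j, S.pw η₀ bb q v (FreeGroup.of (Sum.inl (q j))) = rot S.J S.m (v j) := fun j => by
    rw [Bs.pw, FreeGroup.lift_apply_of, v3 j fun i hi e => absurd (hq e) hi]
    rfl
  have L2 : ∀ l : Λ, l.1 ∉ S.R → S.pw η₀ bb q v (FreeGroup.of (Sum.inl l)) = 1 := fun l hl => by
    rw [Bs.pw, FreeGroup.lift_apply_of, v2 l fun j e => absurd (hmem j) (by rwa [H.l, e])]
  have L3 : ∀ b, S.pw η₀ bb q v (FreeGroup.of (Sum.inr b)) = afx S.J S.m (S.η (bb b)) S.o :=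
    fun b => by
      rw [Bs.pw, FreeGroup.lift_apply_of, v1, H.eta _ (hb b)]
      rfl
  have out : ∀ l : Λ, l.1 ∉ S.R → ∃ P, Out S.R P ∧ S.τ l ∈ P.inertia GQ := fun l hl => by
    have h0 := H.pri l l.2
    obtain ⟨P, p1, p2, -, p4⟩ := (ok.tl l h0).ex
    have un := ((hDecT.2.2.2 P p1).2.2.2.2 l h0.1 p2).1
    exact ⟨P, ⟨p1, fun e => h0.2 (un 3 Nat.prime_three e).symm,
      fun l' hl' e => hl (un l' (hR l' hl').1 e ▸ hl')⟩, p4⟩
  have ex : ∀ l : Λ, l.1 ∈ S.R → ∃ j, q j = l := fun l hl => by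
    obtain ⟨j, -, e⟩ := mem_image.1 hl
    exact ⟨j, Subtype.ext (by rw [← H.l, e])⟩
  have c2 : ∀ j, (S.pw η₀ bb q v (FreeGroup.of (Sum.inl (q j)))).1 0 = v j - S.J (v j) := fun j => by
    rw [L1, (f4 _ (hc j).1).1, zero_sub, map_neg, neg_add_eq_sub]
  have c3 : ∀ b, (S.pw η₀ bb q v (FreeGroup.of (Sum.inr b))).1 0 = S.o - S.η (bb b) S.o :=
    fun b => by
      rw [L3, (f5 _ _ (pr _) (ok.o _ (hb b))).1, zero_sub, map_neg, neg_add_eq_sub]
  have c1 : ∀ w, (S.pw η₀ bb q v w).1.linear = S.η (FreeGroup.lift (ltr Λ S.τ bb) w) := by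
    have e : (MonoidHom.mk' (fun g : Pm S.J S.m => g.1.linear) fun _ _ => rfl).comp
        (S.pw η₀ bb q v) = S.η.comp (FreeGroup.lift (ltr Λ S.τ bb)) := by
      refine FreeGroup.ext_hom _ _ fun a => ?_
      change (S.pw η₀ bb q v (FreeGroup.of a)).1.linear =
        S.η (FreeGroup.lift (ltr Λ S.τ bb) (FreeGroup.of a))
      rw [FreeGroup.lift_apply_of]
      rcases a with l | b
      · change _ = S.η (S.τ l)
        by_cases hl : l.1 ∈ S.R
        · obtain ⟨j, rfl⟩ := ex l hl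
          rw [L1, (f4 _ (hc j).1).2.1]
          exact LinearEquiv.ext fun y => (ok.gm.tam _ hl _ y (ok.cm.top y)).symm
        · obtain ⟨P, p1, p2⟩ := out l hl
          rw [L2 l hl]
          exact LinearEquiv.ext fun y => (ok.gm.unr P p1 _ p2 _ y (ok.cm.top y)).symm
      · rw [L3, (f5 _ _ (pr _) (ok.o _ (hb b))).2]
        rfl
    exact fun w => DFunLike.congr_fun e w
  refine ⟨c1, c2, c3, fun l hl => ⟨L2 l hl, out l hl⟩, fun n x hx =>
    coc_XWaT S.η _ _ x c1 (fun g => (pr g).1) hx.co fun a => ?_⟩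
  rw [FreeGroup.lift_apply_of, ← neg_mem_iff, neg_sub]
  rcases a with l | b
  · change x (S.τ l) - _ ∈ _
    by_cases hl : l.1 ∈ S.R
    · obtain ⟨j, rfl⟩ := ex l hl
      rw [c2, ← H.l]
      exact hx.tam j
    · obtain ⟨P, p1, p2⟩ := out l hl
      rw [L2 l hl]
      change x (S.τ l) - 0 ∈ _
      rw [sub_zero]
      exact hx.unr P p1 _ p2
  · rw [c3]
    exact hx.thr _ (H.gn.mem b)

end Pool.Agent.MP_e23604_nt.T
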