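import Mathlib
import Pool.Agent.Mg.Fe23604m.G06f121
import Pool.Agent.Mg.Fe23604m.G65b452

set_option linter.all false

section

namespace Pool.Agent.MP_e23604_nt.T

open Finset Filter NumberField
open MP_f68ac8_nt (cyc IsFrob)
open MP_f68ac8_nt.Zv (Ex Prob piV Unf Bx)
open MP_f68ac8_nt.Zk (NS brL lk msk Av)
open MP_f68ac8_nt.Nd (Lr Fr Gz Exm fP kap np OKp)
open Q (Wn Pre rot0)
open scoped BigOperators Topology

theorem x_ChrT (hKW : S.KW_st) (hDicA : DicA) (hDecT : DecT) (hValC : ValC) (hSjT : SjT) :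
    ChrT := by
  intro σ τ e hT R hR a hl ha hu
  have nm : ∀ {l l' : ℕ} {P : Ideal (𝓞 Qb)}, l.Prime → l'.Prime → P.IsMaximal →
      (l : 𝓞 Qb) ∈ P → l' ≠ l → (l' : 𝓞 Qb) ∉ P := fun h1 h2 hP h3 h4 h5 =>
    h4 (((hDecT.2.2.2 _ hP).2.2.2.2 _ h1 h3).1 _ h2 h5)
  refine ⟨fun l hlR h1 => ?_, ?_⟩
  · obtain ⟨P, hP, a1, -, a2⟩ := (hT l (hR l hlR)).ex
    have h3 : ∀ v : Multiplicative (ZMod 3), v ^ 3 = 1 := by decide
    have : Fact (Nat.Prime 3) := ⟨Nat.prime_three⟩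
    let f : GQ →* Multiplicative (ZMod 3) :=
      MonoidHom.mk' (fun g => Multiplicative.ofAdd (a g)) fun g h => by rw [ha, ofAdd_add]
    refine MP_f68ac8_nt.add_unram (p := 3) h3 f ?_ (hR l hlR).1 a1 (hR l hlR).2 h1 a2
    filter_upwards [hl.eventually_eq 1] with g hg
    exact (congrArg Multiplicative.ofAdd hg).trans f.map_one
  obtain ⟨u, h⟩ := hKW a (R.filter fun l => l % 3 = 1) (fun l => if l = 3 then x9 else ch l)
    (fun g _ h _ => ha g h) (MP_e23604_nt.R.lc_iff.1 hl)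
    (fun l h => ⟨(hR l (mem_filter.1 h).1).1, (mem_filter.1 h).2⟩)
    (fun l hp h => by
      rcases mem_insert.1 h with rfl | h
      · obtain ⟨a1, a2, a3⟩ := hValC.2
        obtain ⟨g, g1, -, g2⟩ := hSjT.2.1
        rw [if_pos rfl]
        refine ⟨fun g _ h _ => a2 g h, MP_e23604_nt.R.lc_iff.1 a1,
          ⟨g, ((hDicA.2 3 1).2.2.1 g).1 g1, g2⟩, fun q hq γ h3 t ht => ?_⟩
        obtain ⟨b1, b2, b3, -⟩ := hDicA.2 q γ
        exact (a3 _ b1 (nm hq.out hp.out b1 b2 h3.symm)).1 t ((b3 t).2 ht)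
      · obtain ⟨h1, h2⟩ := mem_filter.1 h
        obtain ⟨a1, a2, a3⟩ := hValC.1 l hp.out h2
        obtain ⟨c1, c2, c3, -⟩ := hDicA.2 l 1
        obtain ⟨g, g1, g2⟩ := MP_f68ac8_nt.Zk.tau_ZmCh (p := 3) ⟨hp.out, h2⟩ c1 c2
        rw [if_neg (hR l h1).2]
        refine ⟨fun g _ h _ => a2 g h, MP_e23604_nt.R.lc_iff.1 a1, ⟨g, (c3 g).1 g1, ?_⟩,
          fun q hq γ h3 t ht => ?_⟩
        · rw [ch, g2]
          decide
        obtain ⟨b1, b2, b3, -⟩ := hDicA.2 q γ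
        exact (a3 _ b1 (nm hq.out hp.out b1 b2 h3.symm)).1 t ((b3 t).2 ht))
    (fun l hp h1 h2 t ht => by
      obtain ⟨b1, b2, b3, -⟩ := hDicA.2 l 1
      refine hu _ ⟨b1, nm hp.out Nat.prime_three b1 b2 (by omega), fun l' h' =>
        nm hp.out (hR l' h').1 b1 b2 fun k => h2 ?_⟩ t ((b3 t).2 ht)
      exact mem_filter.2 ⟨k ▸ h', h1⟩)
  have h3 : 3 ∉ R.filter fun l => l % 3 = 1 := fun k => absurd (mem_filter.1 k).2 (by decide)
  have h' : ∀ g, a g = ∑ l ∈ R with l % 3 = 1, u l * ch l g + u 3 * x9 g := fun g => by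
    rw [h g, sum_insert h3, if_pos rfl, add_comm]
    exact congrArg (· + _) (sum_congr rfl fun l k => by
      rw [if_neg (hR l (mem_filter.1 k).1).2])
  refine ⟨u 3, fun g => (h' g).trans (congrArg (· + _) (sum_congr rfl fun l k => ?_))⟩
  obtain ⟨k1, k2⟩ := mem_filter.1 k
  have L := hT l (hR l k1)
  obtain ⟨P, hP, a1, -, a2⟩ := L.ex
  have e1 : e l * e l = 1 := by
    have := L.ne
    revert this
    generalize e l = t
    revert t
    decide
  rw [h' (τ l), (hValC.2.2.2 P hP (nm (hR l k1).1 Nat.prime_three hP a1 (hR l k1).2.symm)).1 _ a2,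
    mul_zero, add_zero, sum_eq_single_of_mem l k, (L.spl k2).1, mul_assoc (u l), e1, mul_one]
  intro l' k' hn
  obtain ⟨j1, j2⟩ := mem_filter.1 k'
  rw [((hValC.1 l' (hR l' j1).1 j2).2.2 P hP (nm (hR l k1).1 (hR l' j1).1 hP a1 hn)).1 _ a2,
    mul_zero]

end Pool.Agent.MP_e23604_nt.T

end

section

namespace Pool.Agent.MP_e23604_nt.T

open Finset Filter NumberField
open MP_f68ac8_nt (cyc IsFrob)
open MP_f68ac8_nt.Zv (Ex Prob piV Unf Bx)
open MP_f68ac8_nt.Zk (NS brL lk msk Av)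
open MP_f68ac8_nt.Nd (Lr Fr Gz Exm fP kap np OKp)
open Q (Wn Pre rot0)
open scoped BigOperators Topology

theorem avg_XWvT {O R : Type} [Fintype O] [DecidableEq O] [Fintype R] [Nonempty R]
    (F : (O → R) → ℂ) (k : O) (h : ∀ ρ, 𝔼 r, F (Function.update ρ k r) = 0) : 𝔼 ρ, F ρ = 0 := by
  have e : Function.Involutive fun p : (O → R) × R => (Function.update p.1 k p.2, p.1 k) := by
    rintro ⟨ρ, r⟩
    simp
  have h1 := Fintype.expect_bijective _ e.bijective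
    (fun p : (O → R) × R => F (Function.update p.1 k p.2)) (fun p => F p.1) fun _ => rfl
  rw [← univ_product_univ, expect_product, expect_product] at h1
  simp only [h, Fintype.expect_const] at h1
  exact h1.symm

theorem ob_XWvT {V : Type} [AddCommGroup V] {d : ℕ} (B : Bs V) (η₀ : GQ → V ≃ₗ[ℤ] V) (n : ℕ)
    (v : Fin d → V) (z : V3 d) (γ : ZMod 3) (a : V3 d) (k : Fin B.m) (hk : n ≤ k.1)
    (Z₀ : Fin d ⊕ Option (Fin B.m) → Pm B.J B.m) :
    ∃ c : ZMod 3, ∀ Z : Fin d ⊕ Option (Fin B.m) → Pm B.J B.m,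
      (∀ i, i ≠ Sum.inr (some k) → Z i = Z₀ i) → (B.cnW η₀ n v Z ↔ B.cnW η₀ n v Z₀) ∧
        B.obW η₀ n v z γ a Z = c + dig B.J B.T k ((Z (Sum.inr (some k))).1 0) := by
  refine ⟨∑ j, a j * z j * dig B.J B.T n (B.evW η₀ v Z₀ (some j)) +
    γ * dig B.J B.T n (B.evW η₀ v Z₀ none) +
    ∑ k' ∈ (univ.filter fun k' : Fin B.m => n ≤ k'.1).erase k,
      dig B.J B.T k' ((Z₀ (Sum.inr (some k'))).1 0), fun Z hZ => ?_⟩
  have e : ∀ i, B.evW η₀ v Z i = B.evW η₀ v Z₀ i := by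
    rintro (_ | j)
    · simp only [Bs.evW]
      rw [hZ _ (by simp)]
    · simp only [Bs.evW]
      rw [hZ _ (by simp)]
  refine ⟨by simp only [Bs.cnW, e], ?_⟩
  simp only [Bs.obW, e]
  rw [add_assoc _ (∑ k' ∈ _, _), ← sum_erase_add _ _ (mem_filter.2 ⟨mem_univ k, hk⟩)]
  congr 2
  refine sum_congr rfl fun k' h' => ?_
  rw [hZ _ (by simpa using ne_of_mem_erase h')]

theorem x_WvT (hWcT : WcT) (hWeT : WeT) : WvT := by
  intro V _ _ d Λ ι S η₀ bb N q hW hd u v n b y w z γ hc hn hG 𝓡 _ _ s hs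
  by_cases hx : ∃ x, S.Ap n v x
  · obtain ⟨x, hx⟩ := hx
    refine (expect_congr rfl fun ρ _ => ?_).trans (Fintype.expect_const _)
    obtain ⟨h1, h2⟩ := hWeT V d Λ ι S η₀ bb N q hW u v n x b y (fun o => w o * s (ρ o)) hc hn hx
      ⟨hG.cop, hG.tam, fun o => by
        rw [map_mul, mul_inv_rev, mul_assoc]
        exact N.mul_mem (N.inv_mem (hs.1 (ρ o))) (hG.oth o)⟩
    by_cases h : v ∈ S.Sol n (n + 1) u
    · rw [if_pos h, if_pos (h1.2 h), h2 h]
    · rw [if_neg h, if_neg fun e => h (h1.1 e)]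
  · rw [if_neg fun h => hx (h.2.imp fun _ e => e.1)]
    obtain ⟨k, hk, h0⟩ := hWcT V d Λ ι S η₀ bb N q hW hd u v n hc hx 𝓡 s hs
    have h1 := h0 (w (some k)) (by
      have := N.inv_mem (hG.oth (some k))
      rwa [show S.gam (some k) = 1 from rfl, mul_one, inv_inv] at this)
    refine avg_XWvT _ (some k) fun ρ => ?_
    obtain ⟨c, hc⟩ := ob_XWvT S.toBs η₀ n v z γ (fun j => S.e (S.l j) * b j) k hk
      fun i => S.pw η₀ bb q v (Sum.elim y (fun o => w o * s (ρ o)) i)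
    have h2 := fun r => hc (fun i => S.pw η₀ bb q v
      (Sum.elim y (fun o => w o * s (Function.update ρ (some k) r o)) i)) (by
        rintro (j | o) hi
        · rfl
        · rw [Sum.elim_inr, Sum.elim_inr, Function.update_of_ne fun e => hi (congrArg _ e)])
    by_cases h : S.cnW η₀ n v fun i => S.pw η₀ bb q v (Sum.elim y (fun o => w o * s (ρ o)) i)
    · rw [← mul_zero (ZMod.stdAddChar c : ℂ), ← h1, mul_expect]
      refine expect_congr rfl fun r _ => ?_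
      rw [if_pos ((h2 r).1.2 h), (h2 r).2, AddChar.map_add_eq_mul, Sum.elim_inr,
        Function.update_self]
    · exact expect_eq_zero fun r _ => if_neg fun e => h ((h2 r).1.1 e)

end Pool.Agent.MP_e23604_nt.T

end
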