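import Mathlib
import Pool.Agent.Mg.Fe23604m.G06f121

set_option linter.all false

section

namespace Pool.Agent.MP_e23604_nt.T

open Finset Filter NumberField
open MP_f68ac8_nt (cyc IsFrob)
open MP_f68ac8_nt.Zv (Ex Prob piV Unf Bx)
open MP_f68ac8_nt.Zk (NS brL lk msk Av)
open MP_f68ac8_nt.Nd (Lr Fr Gz Exm fP kap np OKp)
open Q (Wn Pre rot0)
open scoped BigOperators Topology

theorem x_AdmT (hBasT : BasT) (hDecT : DecT) (hAdmG : AdmG) : AdmT := by
  intro V _ _ d S hS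
  refine ⟨⟨IsLocallyConstant.const 0, fun g h => by simp, fun g => zero_mem _,
    fun _ _ _ _ => zero_mem _, fun g hg => ?_, fun j => by simp⟩, fun n v x hx => ?_⟩
  · rw [Pi.zero_apply, zero_sub]
    exact neg_mem (hS.o g ((hDecT.2.2.2 P3 hDecT.1).1 g hg))
  obtain ⟨u, hu⟩ := hS.cm.ex
  have hm := (hBasT V S.J S.T hS.cm.toCm0).1
  obtain ⟨M, h1, h2, h3, h4⟩ := hAdmG V S.J S.T hS.cm.toCm0 S.η S.R S.e S.β S.σ S.τ hS.gm hS.tl
    (fun l hl => by obtain ⟨j, -, rfl⟩ := mem_image.1 hl; exact hS.pri j) x (S.m + 2) n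
    inferInstance ⟨u, hS.cm.top u, fun h => hu (hm _ _ (by omega) h)⟩ hx.lc
    (fun g => hS.cm.top _) hx.co hx.unr
  have e : Nat.card (Wn S.J (S.m + 2)) = Fintype.card V := by
    rw [← Nat.card_eq_fintype_card]
    exact Nat.card_congr (Equiv.subtypeUnivEquiv hS.cm.top)
  rw [e] at h3
  refine ⟨M, h1, h2, h3, fun g => (h4 g).trans (and_congr_left' ?_)⟩
  exact ⟨fun h => LinearEquiv.ext fun y => h y (hS.cm.top y), fun h y _ => by rw [h]; rfl⟩

end Pool.Agent.MP_e23604_nt.T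

end

section

namespace Pool.Agent.MP_e23604_nt.T

open Finset Filter NumberField
open MP_f68ac8_nt (cyc IsFrob)
open MP_f68ac8_nt.Zv (Ex Prob piV Unf Bx)
open MP_f68ac8_nt.Zk (NS brL lk msk Av)
open MP_f68ac8_nt.Nd (Lr Fr Gz Exm fP kap np OKp)
open Q (Wn Pre rot0)
open scoped BigOperators Topology

theorem x_RedT (hBasT : BasT) (hLevS : LevS) (hDecT : DecT) (hTamI : TamI) (hDetT : DetT)
    (hActT : ActT) : RedT := by
  classical
  intro A _ V _ J T B ι hI hE hev h4 hTl hφ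
  obtain ⟨-, -, -, -, -, b6, b7, b8, -⟩ := hBasT V B.J B.T hE.cm.toCm0
  obtain ⟨t, ht, ht1⟩ := ((hLevS V B.J B.T hE.cm.toCm0).1 _ hE.cm).1 (B.m + 1) (by omega)
  refine ⟨univ.image fun k : ZMod 3 => k.val • t, card_image_le.trans (by simp), ?_⟩
  intro d l η η₀ ηV hl hp hG hc hgen hinf
  obtain ⟨x, p, b, hL⟩ := hDetT A d J T η B.e B.β B.σ B.τ l η₀ hI hG hTl hl hp hgen hinf B.m hev
    (by omega)
  obtain ⟨b₀, rfl⟩ := hE.rng b hL.base
  have h1 : (-dig B.J B.T (B.m + 1) b₀).val • t + b₀ ∈ Wn B.J (B.m + 1) := by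
    rw [← b6 _ _ (hE.cm.top _), (b7 _ _ (hE.cm.top _) _ (hE.cm.top _)).1, b8 _ _ _ ht, ht1,
      ZMod.natCast_zmod_val, mul_one, neg_add_cancel]
  refine ⟨_, mem_image_of_mem _ (mem_univ (-dig B.J B.T (B.m + 1) b₀)), ?_⟩
  exact hActT A V d J T η ⟨{ B with o := (-dig B.J B.T (B.m + 1) b₀).val • t }, ηV, l⟩ ι x p
    (ι b₀) hI.toCm0 hE hev hTl hp hG.toGm0
    (((hDecT.2.2.2 P3 hDecT.1).2.2.2.2 3 Nat.prime_three hDecT.2.1).2.2 _ hφ).1 hc
    (fun j => (hTamI A d J T η B.e B.β B.σ B.τ l η₀ hI hG hTl hl hp x hL.st j _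
      (hL.fix _ (mem_image_of_mem _ (mem_univ j))).1).2) hL
    (by
      rw [← map_add]
      exact (hE.lev _ _).2 h1)

end Pool.Agent.MP_e23604_nt.T

end

section

namespace Pool.Agent.MP_e23604_nt.T

open Finset Filter NumberField
open MP_f68ac8_nt (cyc IsFrob)
open MP_f68ac8_nt.Zv (Ex Prob piV Unf Bx)
open MP_f68ac8_nt.Zk (NS brL lk msk Av)
open MP_f68ac8_nt.Nd (Lr Fr Gz Exm fP kap np OKp)
open Q (Wn Pre rot0)
open scoped BigOperators Topology

theorem lc_XTamI {A : Type} [AddCommGroup A] (η : GQ →* (A ≃ₗ[ℤ] A)) {p : A}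
    (h : {g | η g p = p} ∈ 𝓝 (1 : GQ)) : IsLocallyConstant fun g => η g p := by
  refine (IsLocallyConstant.iff_eventually_eq _).2 fun a => ?_
  have h1 : Tendsto (fun g : GQ => a⁻¹ * g) (𝓝 a) (𝓝 1) := by
    have := (continuous_const_mul a⁻¹).tendsto a
    rwa [inv_mul_cancel] at this
  filter_upwards [h1.eventually h] with g hg
  have e : η (a⁻¹ * g) p = p := hg
  rw [← mul_inv_cancel_left a g, map_mul, LinearEquiv.mul_apply, e]

theorem x_TamI (hBasT : BasT) (hLevS : LevS) (hDecT : DecT) (hTamT : TamT) (hActB : ActB)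
    (hAdmG : AdmG) : TamI := by
  intro A _ d J T η e β σ τ l η₀ hc hG hT _ hP x ⟨x1, x2, ⟨K, x3⟩, x4, _⟩ j p hp
  obtain ⟨b1, b2, b3, -, -, b6, -, -, -, b10, -⟩ := hBasT A J T hc.toCm0
  obtain ⟨l1, l2⟩ := (hLevS A J T hc.toCm0).2.1 hc
  have hR : ∀ k ∈ univ.image l, P0 k := fun k hk => by
    obtain ⟨i, -, rfl⟩ := mem_image.1 hk
    exact hP i
  have hj : l j ∈ univ.image l := mem_image_of_mem l (mem_univ j)
  have pre : ∀ g, Pre J (η g) := fun g =>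
    (hActB A J T hc.toCm0 η _ e β σ τ hG.toGm0 hT hR g).1.1
  have p1 : p ∈ Wn J (K + 1) := by
    rw [← b3, (b10 0 p).2, show J p - p = -x (τ (l j)) by rw [← sub_eq_zero, ← sub_eq_zero.2 hp]; abel]
    exact neg_mem (x3 _)
  have p2 : p ∈ Wn J (K + 2) := b1 _ _ (by omega) p1
  refine ⟨⟨_, p1⟩, ?_⟩
  obtain ⟨z, hz⟩ : ∃ z : GQ → A, z = fun g => x g + η g p - p := ⟨_, rfl⟩
  have z1 : IsLocallyConstant z := hz ▸ x1.comp₂ (lc_XTamI η (hG.opn p)) fun a b => a + b - p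
  have z2 : ∀ g h, z (g * h) = z g + η g (z h) := fun g h => by
    simp only [hz, x2, map_mul, LinearEquiv.mul_apply, map_add, map_sub]
    abel
  have z3 : ∀ g, z g ∈ Wn J (K + 2) := fun g => by
    rw [hz]
    exact sub_mem (add_mem (b1 _ _ (by omega) (x3 g)) ((pre g _ _).2 p2)) p2
  have z4 : z (τ (l j)) = 0 := by
    simp only [hz, hG.tam _ hj _ p p2, hp, sub_self]
  have z5 : ∀ k : ℕ, z (τ (l j) ^ k) = 0 := fun k => by
    induction k with
    | zero =>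
      have := z2 1 1
      rw [mul_one, map_one] at this
      rw [pow_zero]
      exact left_eq_add.1 this
    | succ k ih => rw [pow_succ, z2, ih, z4, map_zero, add_zero]
  obtain ⟨t, t1, t2⟩ := l1 1
  obtain ⟨M, m1, -, -, m2⟩ := hAdmG A J T hc.toCm0 η _ e β σ τ hG.toGm0 hT hR z (K + 2) 0
    (Nat.finite_of_card_ne_zero (by rw [l2]; positivity))
    ⟨t, b1 _ _ (by omega) t1, fun h => one_ne_zero (t2.symm.trans ((b6 1 t t1).2 h))⟩ z1 z3
    (fun g h => by rw [z2, sub_self]; exact zero_mem _)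
    (fun P h g hg => by
      simp only [hz, x4 P h g hg, hG.unr P h g hg _ p p2, zero_add, sub_self]
      exact zero_mem _)
  have hL := hT _ (hP j)
  obtain ⟨P, q1, q2, q3, q4⟩ := hL.ex
  obtain ⟨-, d2, -, -, d5⟩ := hDecT.2.2.2 P q1
  obtain ⟨k, hk⟩ := hTamT (l j) P _ (hP j) q1 q2 q4 (hL.tau ▸ hL.ne) M m1.nrm m1.nhds m1.pg _
    (d2 _ ((d5 _ (hP j).1 q2).2.2 _ q3).1 _ q4)
  have z6 : z (σ (l j) * τ (l j) * (σ (l j))⁻¹) = 0 := by
    have h0 := ((m2 _).1 hk).2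
    rw [b2, Submodule.mem_bot] at h0
    rw [← mul_inv_cancel_left (τ (l j) ^ k) (σ (l j) * τ (l j) * (σ (l j))⁻¹), z2, z5, h0, map_zero,
      add_zero]
  have z7 := z2 (σ (l j) * τ (l j) * (σ (l j))⁻¹) (σ (l j))
  rw [inv_mul_cancel_right, z2, z4, z6, map_zero, add_zero, zero_add, map_mul, map_mul,
    LinearEquiv.mul_apply, LinearEquiv.mul_apply,
    hG.tam _ hj _ _ ((pre _ _ _).2 (z3 _))] at z7
  have z8 : J (η (σ (l j))⁻¹ (z (σ (l j)))) = η (σ (l j))⁻¹ (z (σ (l j))) := by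
    apply (η (σ (l j))).injective
    rw [← z7, ← LinearEquiv.mul_apply, ← map_mul, mul_inv_cancel, map_one]
    rfl
  have z9 : z (σ (l j)) ∈ Wn J 1 := by
    rw [← pre (σ (l j))⁻¹, ← b3 0, (b10 0 _).2, z8, sub_self]
    exact zero_mem _
  rwa [hz] at z9

end Pool.Agent.MP_e23604_nt.T

end
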