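import Mathlib
import Pool.Agent.Mg.Fe23604m.G06f121

set_option linter.all false

namespace Pool.Agent.MP_e23604_nt.T

open Finset Filter NumberField
open MP_f68ac8_nt (cyc IsFrob)
open MP_f68ac8_nt.Zv (Ex Prob piV Unf Bx)
open MP_f68ac8_nt.Zk (NS brL lk msk Av)
open MP_f68ac8_nt.Nd (Lr Fr Gz Exm fP kap np OKp)
open Q (Wn Pre rot0)
open scoped BigOperators Topology

section
variable {V : Type} [AddCommGroup V] {J : V ≃ₗ[ℤ] V} {m : ℕ}

theorem mem_XFilT {k : ℕ} {g : Pm J m} : g ∈ Fk J m k ↔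
    g.1 0 ∈ Wn J (m + 1 - k) ∧ ∀ n, ∀ u ∈ Wn J n, g.1.linear u - u ∈ Wn J (n - k) := Iff.rfl

theorem lie_XFilT (mono : ∀ a b, a ≤ b → Wn J a ≤ Wn J b) {a b n : ℕ} {g h : Pm J m}
    (hg : g ∈ Fk J m a) (hh : h ∈ Fk J m b) {t : V} (ht : t ∈ Wn J n) :
    g.1.linear (h.1.linear t) - h.1.linear (g.1.linear t) ∈ Wn J (n - (a + b)) := by
  have e : g.1.linear (h.1.linear t) - h.1.linear (g.1.linear t) =
      (g.1.linear (h.1.linear t - t) - (h.1.linear t - t)) -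
        (h.1.linear (g.1.linear t - t) - (g.1.linear t - t)) := by
    simp only [map_sub]
    abel
  rw [e]
  exact sub_mem (mono _ _ (by omega) (hg.2 _ _ (hh.2 _ _ ht)))
    (mono _ _ (by omega) (hh.2 _ _ (hg.2 _ _ ht)))

open scoped commutatorElement in
theorem comm_XFilT (mono : ∀ a b, a ≤ b → Wn J a ≤ Wn J b) {a b : ℕ} {g h : Pm J m}
    (hg : g ∈ Fk J m a) (hh : h ∈ Fk J m b) : ⁅g, h⁆ ∈ Fk J m (a + b) := by
  have e0 : ⁅g, h⁆ = g * h * (h * g)⁻¹ := by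
    rw [commutatorElement_def]
    group
  rw [e0]
  refine mem_XFilT.2 ⟨?_, fun n u hu => ?_⟩
  · obtain ⟨y, hy⟩ : ∃ y, y = ((h * g)⁻¹ : Pm J m).1 0 := ⟨_, rfl⟩
    have hy1 : y ∈ Wn J m := hy ▸ ((h * g)⁻¹ : Pm J m).2.2
    have hy2 : h.1 (g.1 y) = 0 := by
      rw [hy]
      exact (h.1 * g.1).apply_symm_apply 0
    change g.1 (h.1 (((h * g)⁻¹ : Pm J m).1 0)) ∈ _
    rw [← hy]
    have e : g.1 (h.1 y) = (g.1.linear (h.1.linear y) - h.1.linear (g.1.linear y)) +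
        (g.1.linear (h.1 0) - h.1 0) - (h.1.linear (g.1 0) - g.1 0) := by
      rw [Q.aff_apply h.1, Q.aff_apply g.1 y, map_add] at hy2
      rw [Q.aff_apply g.1, Q.aff_apply h.1 y, map_add]
      rw [← sub_eq_zero]
      refine Eq.trans ?_ hy2
      abel
    rw [e]
    exact sub_mem (add_mem (mono _ _ (by omega) (lie_XFilT mono hg hh hy1))
      (mono _ _ (by omega) (hg.2 _ _ hh.1))) (mono _ _ (by omega) (hh.2 _ _ hg.1))
  · obtain ⟨t, ht⟩ : ∃ t, t = ((h * g)⁻¹ : Pm J m).1.linear u := ⟨_, rfl⟩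
    have ht1 : t ∈ Wn J n := ht ▸ (((h * g)⁻¹ : Pm J m).2.1.1 n u).2 hu
    have ht2 : h.1.linear (g.1.linear t) = u := by
      rw [ht]
      exact Q.lin_inv (h.1 * g.1) u
    change g.1.linear (h.1.linear (((h * g)⁻¹ : Pm J m).1.linear u)) - u ∈ _
    rw [← ht, ← ht2]
    exact lie_XFilT mono hg hh ht1

theorem rot0_XFilT (v y : V) : rot0 J v y = J (y - v) + v := by
  change v + J (-v + y) = _
  rw [add_comm, neg_add_eq_sub]

theorem rot0_lin_XFilT (v : V) : (rot0 J v).linear = J := by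
  ext u
  have h := Q.aff_apply (rot0 J v) u
  rw [rot0_XFilT, rot0_XFilT, map_sub, zero_sub, map_neg] at h
  have h2 : (rot0 J v).linear u = J u - J v + v - (-J v + v) := eq_sub_of_add_eq h.symm
  rw [h2]
  abel

theorem mov_XFilT (mono : ∀ a b, a ≤ b → Wn J a ≤ Wn J b) {k n : ℕ} {c : Pm J m}
    (hc : c ∈ Fk J m k) {y : V} (hy : y ∈ Wn J n) (hn : n ≤ m + 1) :
    c.1 y - y ∈ Wn J (m + 1 - k) ∧ c.1 y - y - c.1 0 ∈ Wn J (n - k) := by
  have e : c.1 y - y = (c.1.linear y - y) + c.1 0 := by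
    rw [Q.aff_apply c.1 y]
    abel
  rw [e, add_sub_cancel_right]
  exact ⟨add_mem (hc.2 _ _ (mono _ _ hn hy)) hc.1, hc.2 _ _ hy⟩

theorem nrm_XFilT (mono : ∀ a b, a ≤ b → Wn J a ≤ Wn J b) (k : ℕ) : (Fk J m k).Normal := by
  refine ⟨fun c hc a => mem_XFilT.2 ⟨?_, fun n u hu => ?_⟩⟩
  · have e : a.1 (c.1 (a.1⁻¹ 0)) = a.1.linear (c.1 (a.1⁻¹ 0) - a.1⁻¹ 0) := by
      rw [Q.aff_apply a.1, map_sub, Q.inv_zero, sub_neg_eq_add]
    change a.1 (c.1 (a.1⁻¹ 0)) ∈ _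
    rw [e, a.2.1.1]
    exact (mov_XFilT mono hc (a⁻¹ : Pm J m).2.2 m.le_succ).1
  · have e : a.1.linear (c.1.linear (a.1⁻¹.linear u)) - u =
        a.1.linear (c.1.linear (a.1⁻¹.linear u) - a.1⁻¹.linear u) := by rw [map_sub, Q.lin_inv]
    change a.1.linear (c.1.linear (a.1⁻¹.linear u)) - u ∈ _
    rw [e, a.2.1.1]
    exact hc.2 _ _ (((a⁻¹ : Pm J m).2.1.1 n u).2 hu)

theorem pm_XFilT {a : V ≃ₗ[ℤ] V} {o : V} (ha : Pr3 J a) (ho : o - a o ∈ Wn J m) :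
    rot0 a o ∈ Pm J m := by
  refine ⟨by rwa [rot0_lin_XFilT], ?_⟩
  rwa [rot0_XFilT, zero_sub, map_neg, neg_add_eq_sub]

end

theorem x_FilT (hBasT : BasT) : FilT := by
  intro V _ J T hJ m
  obtain ⟨mono, bot, hom, hJJ, -⟩ := hBasT V J T hJ
  have om : ∀ n, ∀ u ∈ Wn J (n + 1), J u - u ∈ Wn J n := fun n u hu => (hom n u).2 hu
  refine ⟨⟨fun i j _ hij g hg => mem_XFilT.2 ⟨mono _ _ (by omega) hg.1, fun n u hu =>
    mono _ _ (by omega) (hg.2 n u hu)⟩, fun a b _ _ g hg h hh => comm_XFilT mono hg hh⟩,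
    nrm_XFilT mono, fun k c hc n y hy hn => mov_XFilT mono hc hy hn, fun v hv => ?_,
    fun a o ha ho => ?_⟩
  · have hm : rot0 J v ∈ Pm J m :=
      pm_XFilT ⟨hJJ, fun k _ => om k⟩ (by rw [← neg_sub]; exact neg_mem (om m v hv))
    have e : (rot J m v).1 = rot0 J v := by rw [rot, dif_pos hm]
    refine ⟨by rw [e]; exact rot0_XFilT v, by rw [e]; exact rot0_lin_XFilT v,
      mem_XFilT.2 ⟨(rot J m v).2.2, fun n u hu => ?_⟩⟩
    rw [e, rot0_lin_XFilT]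
    rcases n with _ | n
    · rw [bot] at hu
      rw [(Submodule.mem_bot ℤ).1 hu, map_zero, sub_zero]
      exact zero_mem _
    · exact om n u hu
  · have e : (afx J m a o).1 = rot0 a o := by rw [afx, dif_pos (pm_XFilT ha ho)]
    rw [e]
    exact ⟨rot0_XFilT o, rot0_lin_XFilT o⟩

end Pool.Agent.MP_e23604_nt.T
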