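import Mathlib
import Pool.Agent.Mg.Fe23604m.G06f121

set_option linter.all false

section

namespace Pool.Agent.MP_e23604_nt.T

open Finset Filter NumberField
open MP_f68ac8_nt (cyc IsFrob)
open MP_f68ac8_nt.Zv (Ex Prob piV Unf Bx)
open MP_f68ac8_nt.Zk (NS brL lk msk Av)
open MP_f68ac8_nt.Nd (Lr Fr Gz Exm fP kap np OKp)
open Q (Wn Pre rot0)
open scoped BigOperators Topology

theorem box_XCoA {d : ℕ} (F : Fin d → Finset (ZMod 3 × ZMod 3)) :
    (univ.filter fun p : V3 d × V3 d => ∀ j, (p.1 j, p.2 j) ∈ F j).card ≤ ∏ j, (F j).card := by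
  rw [← Fintype.card_piFinset]
  refine card_le_card_of_injOn (fun p j => (p.1 j, p.2 j)) (fun p hp => ?_) fun p _ q _ e => ?_
  · exact mem_coe.2 (Fintype.mem_piFinset.2 (mem_filter.1 (mem_coe.1 hp)).2)
  · exact Prod.ext (funext fun j => (Prod.mk.inj (congrFun e j)).1)
      (funext fun j => (Prod.mk.inj (congrFun e j)).2)

theorem prod_XCoA {d : ℕ} (lv : Fin d → ℕ) (sp : Fin d → Bool) (a : ℕ) :
    ∏ j, (if lv j < 2 then 9 else if sp j = true then 3 else a) =
      3 ^ (Bn lv sp true).card * a ^ (Bn lv sp false).card * 9 ^ (Ex0 lv).card := by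
  rw [prod_ite, prod_ite, prod_const, prod_const, prod_const, filter_filter, filter_filter,
    mul_comm]
  unfold Bn Ex0
  simp only [not_lt, Bool.not_eq_true]

theorem main_XCoA {d : ℕ} (lv : Fin d → ℕ) (sp : Fin d → Bool) (X : Set (V3 d × V3 d))
    (hX : ∀ p ∈ X, (∀ i ∈ Bn lv sp false, ∀ j ∈ Bn lv sp false, p.1 i = p.1 j) ∧
      ∀ i ∈ Bn lv sp false ∪ Bn lv sp true, ∀ j ∈ Bn lv sp true, p.2 j * (p.1 i - p.1 j) = 0)
    (G : Finset (ZMod 3)) (hG : ∀ p ∈ X, ∀ i ∈ Bn lv sp false, p.2 i ∈ G) :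
    X.ncard ≤ 6 * 3 ^ (Bn lv sp true).card * G.card ^ (Bn lv sp false).card *
      9 ^ (Ex0 lv).card := by
  have : Fact (Nat.Prime 3) := ⟨Nat.prime_three⟩
  let F : ZMod 3 × Bool → Fin d → Finset (ZMod 3 × ZMod 3) := fun c j =>
    if lv j < 2 then univ else if sp j = true then
      (if c.2 = true then univ ×ˢ {0} else {c.1} ×ˢ univ) else {c.1} ×ˢ G
  have hF : ∀ c j, (F c j).card = if lv j < 2 then 9 else if sp j = true then 3 else G.card := by
    intro c j
    simp only [F]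
    split_ifs <;> simp
  have mem : ∀ {j : Fin d} {b : Bool}, j ∈ Bn lv sp b ↔ 2 ≤ lv j ∧ sp j = b := by
    intro j b
    simp [Bn]
  have cov : X ⊆ ↑(univ.biUnion fun c : ZMod 3 × Bool =>
      univ.filter fun p : V3 d × V3 d => ∀ j, (p.1 j, p.2 j) ∈ F c j) := by
    intro p hp
    obtain ⟨h1, h2⟩ := hX p hp
    have key : ∀ c : ZMod 3 × Bool, (∀ i ∈ Bn lv sp false, p.1 i = c.1) →
        (∀ i ∈ Bn lv sp true, if c.2 = true then p.2 i = 0 else p.1 i = c.1) →
        p ∈ (↑(univ.biUnion fun c : ZMod 3 × Bool =>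
          univ.filter fun p : V3 d × V3 d => ∀ j, (p.1 j, p.2 j) ∈ F c j) :
            Set (V3 d × V3 d)) := by
      intro c a b
      refine mem_coe.2 (mem_biUnion.2 ⟨c, mem_univ _, mem_filter.2 ⟨mem_univ _, fun j => ?_⟩⟩)
      simp only [F]
      split_ifs with e1 e2 e3
      · exact mem_univ _
      · have := b j (mem.2 ⟨not_lt.1 e1, e2⟩)
        rw [if_pos e3] at this
        simp [this]
      · have := b j (mem.2 ⟨not_lt.1 e1, e2⟩)
        rw [if_neg e3] at this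
        simp [this]
      · have hj : j ∈ Bn lv sp false := mem.2 ⟨not_lt.1 e1, by simpa using e2⟩
        exact mem_product.2 ⟨mem_singleton.2 (a j hj), hG p hp j hj⟩
    by_cases h3 : ∀ j ∈ Bn lv sp true, p.2 j = 0
    · rcases (Bn lv sp false).eq_empty_or_nonempty with e | ⟨i, hi⟩
      · exact key (0, true) (fun i hi => by simp [e] at hi) fun j hj => by simpa using h3 j hj
      · exact key (p.1 i, true) (fun j hj => h1 j hj i hi) fun j hj => by simpa using h3 j hj
    · push Not at h3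
      obtain ⟨j, hj, h4⟩ := h3
      have h5 : ∀ i ∈ Bn lv sp false ∪ Bn lv sp true, p.1 i = p.1 j := fun i hi =>
        sub_eq_zero.1 ((mul_eq_zero.1 (h2 i hi j hj)).resolve_left h4)
      exact key (p.1 j, false) (fun i hi => h5 i (mem_union_left _ hi)) fun i hi => by
        simpa using h5 i (mem_union_right _ hi)
  refine (Set.ncard_le_ncard cov (finite_toSet _)).trans ?_
  rw [Set.ncard_coe_finset]
  refine card_biUnion_le.trans ((sum_le_sum fun c _ => box_XCoA (F c)).trans (le_of_eq ?_))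
  simp only [hF, prod_XCoA, sum_const, card_univ, Fintype.card_prod, ZMod.card,
    Fintype.card_bool, smul_eq_mul]
  ring

theorem x_CoA : CoA := by
  intro d lv sp X hX
  refine ⟨?_, fun h => ?_⟩
  · have := main_XCoA lv sp X hX univ fun _ _ _ _ => mem_univ _
    rwa [card_univ, ZMod.card] at this
  · have := main_XCoA lv sp X hX {0} fun p hp i hi => mem_singleton.2 (h p hp i hi)
    rwa [card_singleton, one_pow, mul_one] at this

end Pool.Agent.MP_e23604_nt.T

end

section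

namespace Pool.Agent.MP_e23604_nt.T

open Finset Filter NumberField
open MP_f68ac8_nt (cyc IsFrob)
open MP_f68ac8_nt.Zv (Ex Prob piV Unf Bx)
open MP_f68ac8_nt.Zk (NS brL lk msk Av)
open MP_f68ac8_nt.Nd (Lr Fr Gz Exm fP kap np OKp)
open Q (Wn Pre rot0)
open scoped BigOperators Topology

theorem par_XNoS (x y x' y' v w : ZMod 3) (h1 : ¬ (v = 0 ∧ w = 0)) (h2 : ¬ (x = 0 ∧ y = 0))
    (h3 : x * v + y * w = 0) (h4 : x' * v + y' * w = 0) : ∃ s, x' = s * x ∧ y' = s * y := by
  have : Fact (Nat.Prime 3) := ⟨Nat.prime_three⟩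
  have key : x' * y = y' * x := by
    by_cases hv : v = 0
    · have hw : w ≠ 0 := fun e => h1 ⟨hv, e⟩
      exact mul_right_cancel₀ hw (by linear_combination x' * h3 - x * h4)
    · exact mul_right_cancel₀ hv (by linear_combination y * h4 - y' * h3)
  by_cases hx : x = 0
  · have hy : y ≠ 0 := fun e => h2 ⟨hx, e⟩
    refine ⟨y' / y, ?_, by field_simp⟩
    field_simp
    exact key
  · refine ⟨x' / x, by field_simp, ?_⟩
    field_simp
    exact key.symm

theorem x_NoS : NoS := by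
  rintro d lv sp β L ⟨⟨g', g⟩, ⟨u, z⟩, X, Y⟩ ⟨hu, -, h3, h4⟩
  have : Fact (Nat.Prime 3) := ⟨Nat.prime_three⟩
  dsimp only at hu h3 h4 ⊢
  have eφ : ∀ i j, fX ![u, z] ![X, Y] i j = X j * (u i - u j) + Y j * (z i - z j) := fun i j => by
    simp [fX, Fin.sum_univ_two]
  have ec : ∀ j, cX β ![u, z] ![X, Y] ![g', g] j = X j * (g' - β * u j) + Y j * (g - β * z j) :=
    fun j => by simp [cX, Fin.sum_univ_two]
  have mem : ∀ b j, j ∈ Bn lv sp b ↔ 2 ≤ lv j ∧ sp j = b := fun b j => by simp [Bn]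
  have hA : ∀ i j, 2 ≤ lv i → 2 ≤ lv j → sp j = true →
      X j * (u i - u j) + Y j * (z i - z j) = 0 := fun i j hi hj hs => by
    rcases eq_or_ne i j with rfl | hij
    · simp
    by_contra hne
    exact h4 (Or.inl ⟨i, j, hij, by omega, by omega, hs, by rwa [eφ]⟩)
  have hB : ∀ i j, 2 ≤ lv i → sp i = false → sp j = true →
      X j * (u i - u j) + Y j * (z i - z j) = 0 := fun i j hi hs hj => by
    by_contra hne
    exact h4 (Or.inr (Or.inl ⟨i, hi, hs, Or.inl ⟨j, hj, by rwa [eφ]⟩⟩))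
  refine ⟨fun i hi j hj => hA i j ?_ ((mem _ _).1 hj).1 ((mem _ _).1 hj).2, ?_⟩
  · rcases mem_union.1 hi with h | h <;> exact ((mem _ _).1 h).1
  by_contra hc
  rw [not_or] at hc
  obtain ⟨hc1, hc2⟩ := hc
  simp only [not_forall] at hc1 hc2
  obtain ⟨i1, hi1, i2, hi2, hw⟩ := hc1
  obtain ⟨t, ht, hx⟩ := hc2
  rw [mem] at hi1 hi2 ht
  have hw' : ¬ (u i1 - u i2 = 0 ∧ z i1 - z i2 = 0) := by rwa [sub_eq_zero, sub_eq_zero]
  have ho : ∀ j, sp j = true → X j * (u i1 - u i2) + Y j * (z i1 - z i2) = 0 := fun j hj => by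
    linear_combination hB i1 j hi1.1 hi1.2 hj - hB i2 j hi2.1 hi2.2 hj
  have h5 : ∀ j, j ≠ t → sp j = true → fX ![u, z] ![X, Y] t j = 0 := fun j _ hj => by
    obtain ⟨s, e1, e2⟩ := par_XNoS _ _ _ _ _ _ hw' hx (ho t ht.2) (ho j hj)
    have e3 := hB i1 j hi1.1 hi1.2 hj
    have e4 := hB i1 t hi1.1 hi1.2 ht.2
    rw [eφ]
    rw [e1, e2] at e3 ⊢
    linear_combination e3 - s * e4
  have h6 : ∀ i, X t * (u i - u t) + Y t * (z i - z t) = 0 := fun i => by
    rcases eq_or_ne i t with rfl | hit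
    · simp
    by_contra hne
    exact h4 (Or.inr (Or.inr ⟨t, ht.1, ht.2, h5, rfl, Or.inl ⟨i, hit, by rwa [eφ]⟩⟩))
  have h7 : X t * (g' - β * u t) + Y t * (g - β * z t) = 0 := by
    by_contra hne
    exact h4 (Or.inr (Or.inr ⟨t, ht.1, ht.2, h5, rfl, Or.inr (by rwa [ec])⟩))
  by_cases hy : Y t = 0
  · have hx' : X t ≠ 0 := fun e => hx ⟨e, hy⟩
    obtain ⟨i, j, hij⟩ := hu
    refine hij (mul_left_cancel₀ hx' ?_)
    linear_combination h6 i - h6 j - (z i - z j) * hy
  · refine h3 ⟨-X t / Y t, (X t * u t + Y t * z t) / Y t, fun j => ?_, ?_⟩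
    · field_simp
      linear_combination h6 j
    · field_simp
      linear_combination h7

end Pool.Agent.MP_e23604_nt.T

end
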