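import Mathlib
import Pool.Agent.Mg.Fe23604m.G06f121

set_option linter.all false

namespace Pool.Agent.MP_e23604_nt.T

open Finset Filter NumberField
open MP_f68ac8_nt (cyc IsFrob)
open MP_f68ac8_nt.Zv (Ex Prob piV Unf Bx)
open MP_f68ac8_nt.Zk (NS brL lk msk Av)
open MP_f68ac8_nt.Nd (Lr Fr Gz Exm fP kap np OKp)
open Q (Wn Pre rot0)
open scoped BigOperators Topology

theorem lc_XHomT {V : Type} [AddCommGroup V] (η : GQ →* (V ≃ₗ[ℤ] V)) (o : V)
    (h : {g | η g o = o} ∈ 𝓝 (1 : GQ)) : IsLocallyConstant fun g => η g o := by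
  refine (IsLocallyConstant.iff_eventually_eq _).2 fun g => ?_
  have h1 : Tendsto (fun y => g⁻¹ * y) (𝓝 g) (𝓝 1) := by
    simpa using (continuous_const_mul g⁻¹).tendsto g
  filter_upwards [h1 h] with y hy
  have h2 : η (g⁻¹ * y) o = o := hy
  conv_rhs => rw [← h2]
  rw [← LinearEquiv.mul_apply, ← map_mul, mul_inv_cancel_left]

theorem x_HomT (hBasT : BasT) : HomT := by
  rintro V _ _ d S hS u v ⟨hc, x, hx, he⟩ t
  obtain ⟨b1, -, -, -, b5, -, -, -, b9, -⟩ := hBasT V S.J S.T hS.cm.toCm0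
  have h3 : ∀ w : V, (3 * t) • w ∈ Wn S.J S.m := fun w => by
    rw [mul_smul]
    exact (b5 _ _).2 (hS.cm.top _)
  have key : ∀ {n : ℕ} {a b : V}, a ∈ Wn S.J n → b = a + (3 * t) • a → b ∈ Wn S.J n :=
    fun ha e => e ▸ add_mem ha (nsmul_mem ha _)
  refine ⟨fun j => ⟨add_mem (hc j).1 (b1 _ _ (Nat.le_succ _) (h3 _)), ?_⟩,
    fun g => x g + (3 * t) • (x g - (S.o - S.η g S.o)),
    ⟨?_, fun g h => key (hx.co g h) ?_, fun g => add_mem (hx.val g) (h3 _),
      fun P hP g hg => key (hx.unr P hP g hg) ?_, fun g hg => key (hx.thr g hg) ?_,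
      fun j => key (hx.tam j) ?_⟩, fun i => key (he i) ?_⟩
  · rw [b9 _ _ _ (h3 _), (hc j).2]
  · exact hx.lc.comp₂ (lc_XHomT S.η S.o (hS.gm.opn _))
      fun a b => a + (3 * t) • (a - (S.o - b))
  · simp only [map_mul, LinearEquiv.mul_apply, map_add, map_nsmul, map_sub, smul_sub, smul_add]
    abel
  · rw [hS.gm.unr P hP g hg _ _ (hS.cm.top _), sub_self, sub_zero]
  · abel
  · rw [hS.gm.tam _ (mem_image_of_mem _ (mem_univ j)) _ _ (hS.cm.top _)]
    simp only [map_add, map_nsmul, map_sub, smul_sub]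
    abel
  · cases i with
    | none =>
      simp only [Sy.Ev]
      abel
    | some j =>
      simp only [Sy.Ev, map_add, map_nsmul, map_sub, smul_sub, smul_add]
      abel

end Pool.Agent.MP_e23604_nt.T
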