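import Mathlib
import Pool.Agent.Mg.Fe23604m.G06f121

set_option linter.all false

section

namespace Pool.Agent.MP_e23604_nt.T

open Finset Filter NumberField
open MP_f68ac8_nt (cyc IsFrob)
open MP_f68ac8_nt.Zv (Ex Prob piV Unf Bx)
open MP_f68ac8_nt.Zk (NS brL lk msk Av)
open MP_f68ac8_nt.Nd (Lr Fr Gz Exm fP kap np OKp)
open Q (Wn Pre rot0)
open scoped BigOperators Topology

section
variable {V : Type} [AddCommGroup V] {J : V ≃ₗ[ℤ] V} {T : V}

theorem sign_XLevS (hB : BasT) (h : Cm0 J T) {n : ℕ} {u : V} (hu : u ∈ Wn J (n + 1))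
    (h1 : u ∉ Wn J n) : ∃ k : ℕ, dig J T n (k • u) = 1 := by
  obtain ⟨-, -, -, -, -, b6, -, b8, -⟩ := hB V J T h
  have h2 : dig J T n u ≠ 0 := fun hh => h1 ((b6 n u hu).1 hh)
  have h3 : ∀ a : ZMod 3, a ≠ 0 → ((a.val : ℕ) : ZMod 3) * a = 1 := by decide
  exact ⟨(dig J T n u).val, by rw [b8 n _ u hu, h3 _ h2]⟩

theorem sub_XLevS (hB : BasT) (h : Cm0 J T) {n : ℕ} {t u : V} (ht : t ∈ Wn J (n + 1))
    (h1 : dig J T n t = 1) (hu : u ∈ Wn J (n + 1)) :
    u - (dig J T n u).val • t ∈ Wn J n := by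
  obtain ⟨-, -, -, -, -, b6, b7, b8, -⟩ := hB V J T h
  have h2 : (dig J T n u).val • t ∈ Wn J (n + 1) := nsmul_mem ht _
  rw [← b6 n _ (sub_mem hu h2), (b7 n u hu _ h2).2, b8 n _ t ht, h1, ZMod.natCast_zmod_val,
    mul_one, sub_self]

theorem card_XLevS (hB : BasT) (h : Cm0 J T) (n : ℕ)
    (hex : ∀ k, k < n → ∃ t ∈ Wn J (k + 1), dig J T k t = 1) : Nat.card (Wn J n) = 3 ^ n := by
  induction n with
  | zero => rw [(hB V J T h).2.1]; simp
  | succ n ih =>
    have h1 := ih fun k hk => hex k (by omega)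
    obtain ⟨t, ht, ht'⟩ := hex n (by omega)
    obtain ⟨b1, -, -, -, -, -, -, b8, b9, -⟩ := hB V J T h
    have hle := b1 n (n + 1) (by omega)
    let f : Wn J n × ZMod 3 → Wn J (n + 1) := fun p =>
      ⟨p.2.val • t + p.1.1, add_mem (nsmul_mem ht _) (hle p.1.2)⟩
    have hd : ∀ p, dig J T n (f p).1 = p.2 := fun p => by
      change dig J T n (p.2.val • t + p.1.1) = _
      rw [b9 n _ _ p.1.2, b8 n _ t ht, ht', ZMod.natCast_zmod_val, mul_one]
    have hf : Function.Bijective f := by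
      constructor
      · intro p p' hp
        have h2 : p.2 = p'.2 := by rw [← hd p, ← hd p', hp]
        have h3 : p.2.val • t + p.1.1 = p'.2.val • t + p'.1.1 := congrArg Subtype.val hp
        rw [h2] at h3
        exact Prod.ext (Subtype.ext (add_left_cancel h3)) h2
      · intro u
        refine ⟨(⟨_, sub_XLevS hB h ht ht' u.2⟩, dig J T n u.1), Subtype.ext ?_⟩
        change _ • t + (u.1 - _ • t) = u.1
        abel
    rw [← Nat.card_eq_of_bijective f hf, Nat.card_prod, h1, Nat.card_zmod, pow_succ]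

end

theorem x_LevS (hBasT : BasT) : LevS := by
  intro V _ J T h0
  obtain ⟨b1, b2, b3, -, -, b6, -, -, -, b10, b11, b12⟩ := hBasT V J T h0
  refine ⟨fun N h => ?_, fun h => ?_, fun H K hJ hK => ?_⟩
  · have h1 : ∀ k n, n + k + 1 = N → ∃ t ∈ Wn J (n + 1), dig J T n t = 1 := by
      intro k
      induction k with
      | zero =>
        rintro n rfl
        obtain ⟨u, hu⟩ := h.ex
        obtain ⟨k, hk⟩ := sign_XLevS hBasT h0 (h.top u) hu
        exact ⟨_, h.top _, hk⟩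
      | succ k ih =>
        intro n hn
        obtain ⟨u, hu, hu'⟩ := ih (n + 1) (by omega)
        exact ⟨Q.om J u, (b3 _ _).2 hu, by rw [(b10 n u).1, hu']⟩
    have h2 : ∀ n, n < N → ∃ t ∈ Wn J (n + 1), dig J T n t = 1 := fun n hn =>
      h1 (N - n - 1) n (by omega)
    exact ⟨h2, fun n hn => card_XLevS hBasT h0 n fun k hk => h2 k (by omega)⟩
  · have h1 : ∀ n, ∃ t ∈ Wn J (n + 1), dig J T n t = 1 := by
      intro n
      induction n with
      | zero => exact ⟨T, b11, b12⟩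
      | succ n ih =>
        obtain ⟨u, hu, hu'⟩ := ih
        obtain ⟨w, rfl⟩ := h.surj u
        exact ⟨w, (b3 _ _).1 hu, by rw [← (b10 n w).1, hu']⟩
    exact ⟨h1, fun n => card_XLevS hBasT h0 n fun k _ => h1 k⟩
  · classical
    have hex : ∃ k, ∀ u ∈ H, u ∈ Wn J k := ⟨K, hK⟩
    have hk := Nat.find_spec hex
    have hom : ∀ u ∈ H, Q.om J u ∈ H := fun u hu => by
      rw [(b10 0 u).2]
      exact sub_mem (hJ u hu) hu
    have htop : ∀ n, n + 1 = Nat.find hex → ∃ t ∈ H, t ∈ Wn J (n + 1) ∧ dig J T n t = 1 := by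
      intro n hn
      have h1 := Nat.find_min hex (show n < Nat.find hex by omega)
      push Not at h1
      obtain ⟨u, hu, hu'⟩ := h1
      have h2 : u ∈ Wn J (n + 1) := hn ▸ hk u hu
      obtain ⟨k, hk'⟩ := sign_XLevS hBasT h0 h2 hu'
      exact ⟨_, nsmul_mem hu _, nsmul_mem h2 _, hk'⟩
    have h1 : ∀ k n, n + k + 1 = Nat.find hex →
        ∃ t ∈ H, t ∈ Wn J (n + 1) ∧ dig J T n t = 1 := by
      intro k
      induction k with
      | zero => exact fun n hn => htop n hn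
      | succ k ih =>
        intro n hn
        obtain ⟨u, hu, hu1, hu'⟩ := ih (n + 1) (by omega)
        exact ⟨Q.om J u, hom u hu, (b3 _ _).2 hu1, by rw [(b10 n u).1, hu']⟩
    have h2 : ∀ n, n ≤ Nat.find hex → ∀ u ∈ Wn J n, u ∈ H := by
      intro n
      induction n with
      | zero =>
        intro _ u hu
        rw [b2, Submodule.mem_bot] at hu
        exact hu ▸ zero_mem H
      | succ n ih =>
        intro hn u hu
        obtain ⟨t, ht, ht1, ht2⟩ := h1 (Nat.find hex - n - 1) n (by omega)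
        have h3 := ih (by omega) _ (sub_XLevS hBasT h0 ht1 ht2 hu)
        have h4 := add_mem h3 (nsmul_mem ht (dig J T n u).val)
        rwa [sub_add_cancel] at h4
    refine ⟨Nat.find hex, Nat.find_min' hex hK, fun u => ⟨hk u, h2 _ le_rfl u⟩, fun hne => ?_⟩
    obtain ⟨t, ht, -, ht'⟩ := htop (Nat.find hex - 1) (by omega)
    exact ⟨t, ht, ht'⟩

end Pool.Agent.MP_e23604_nt.T

end

section

namespace Pool.Agent.MP_e23604_nt.T

open Finset Filter NumberField
open MP_f68ac8_nt (cyc IsFrob)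
open MP_f68ac8_nt.Zv (Ex Prob piV Unf Bx)
open MP_f68ac8_nt.Zk (NS brL lk msk Av)
open MP_f68ac8_nt.Nd (Lr Fr Gz Exm fP kap np OKp)
open Q (Wn Pre rot0)
open scoped BigOperators Topology

theorem alg_XZeA {d : ℕ} (E y z lam r : V3 d) (ρ : Fin d → V3 d) (β γ : ZMod 3) :
    ∑ i, E i * z i * (∑ k, (E k * (y i * ρ k i) - E k * (y k * ρ i k)) + β * (y i * r i) +
      γ * lam i) = ∑ j, -(E j * y j) * (∑ i ∈ univ.erase j, E i * ρ i j * (z i - z j) +
        (0 - β * z j) * r j) + γ * ∑ i, E i * z i * lam i := by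
  have h : ∑ i, ∑ k, E i * z i * (E k * (y k * ρ i k)) =
      ∑ j, ∑ i, E i * z i * (E j * (y j * ρ i j)) := sum_comm
  have h2 : ∀ j, ∑ i ∈ univ.erase j, E i * ρ i j * (z i - z j) =
      ∑ i, E i * ρ i j * (z i - z j) := fun j => sum_erase _ (by rw [sub_self, mul_zero])
  simp only [h2]
  simp only [mul_add, mul_sub, mul_sum, sum_add_distrib, sum_sub_distrib, h]
  simp only [← sum_add_distrib, ← sum_sub_distrib]
  refine sum_congr rfl fun j _ => ?_
  rw [sum_congr rfl (g := fun i => -(E j * y j) * (E i * ρ i j * z i) -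
    -(E j * y j) * (E i * ρ i j * z j)) fun i _ => by ring]
  ring

theorem x_ZeA (hValC : ValC) (hDecT : DecT) (hChrT : ChrT) : ZeA := by
  intro d σ τ e β l hT hl hp a y lc hom unr hτ
  obtain ⟨h1, γ, h2⟩ := hChrT σ τ e hT (univ.image l) (fun k hk => by
    obtain ⟨j, -, rfl⟩ := mem_image.1 hk
    exact hp j) a lc hom unr
  have y0 : ∀ j, l j % 3 ≠ 1 → y j = 0 := fun j hj =>
    neg_eq_zero.1 ((hτ j).symm.trans (h1 _ (mem_image_of_mem l (mem_univ j)) hj))
  have h3 : ∀ g, a g = -∑ k, e (l k) * (y k * ch (l k) g) + γ * x9 g := fun g => by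
    rw [h2, sum_filter, sum_image fun i _ j _ h => hl h, ← sum_neg_distrib]
    refine congrArg (· + _) (sum_congr rfl fun k _ => ?_)
    split_ifs with h
    · rw [hτ]
      ring
    · simp [y0 k h]
  refine ⟨y0, γ, fun z => ?_, fun hy hγ g => by simp [h3, hy, hγ]⟩
  rw [sum_filter_of_ne (p := fun j => (dtl e l).sp j = true) fun j _ hj =>
    decide_eq_true (by_contra fun c => hj (by simp [y0 j c]))]
  refine (sum_congr rfl fun i _ => congrArg _ ?_).trans (alg_XZeA (fun i => e (l i)) y z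
    (dtl e l).lam (dtl e l).r3 (dtl e l).rho β γ)
  have L := hT _ (hp i)
  obtain ⟨P, p1, p2, p3, -⟩ := L.ex
  have nm : ∀ m : ℕ, m.Prime → m ≠ l i → (m : 𝓞 Qb) ∉ P := fun m hm hne c =>
    hne (((hDecT.2.2.2 P p1).2.2.2.2 _ (hp i).1 p2).1 m hm c)
  have k1 : ∀ m : ℕ, m.Prime → m ≠ l i → kk m (σ (l i)) * y i = y i * rh m (l i) :=
    fun m hm hne => by
      by_cases h : l i % 3 = 1
      · rw [(L.spl h).2.2 m hm hne, rh, if_pos h, mul_comm]
      · simp [y0 i h]
  have k2 : ∀ k, e (l k) * (kk (l k) (σ (l i)) * y i) - e (l k) * (y k * ch (l k) (σ (l i))) =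
      e (l k) * (y i * rh (l k) (l i)) - e (l k) * (y k * rh (l i) (l k)) := fun k => by
    by_cases hk : k = i
    · subst hk
      by_cases h : l k % 3 = 1
      · rw [(L.spl h).2.1]
        ring
      · simp [y0 k h]
    · rw [k1 _ (hp k).1 (hl.ne hk)]
      by_cases h : l k % 3 = 1
      · rw [((hValC.1 _ (hp k).1 h).2.2 P p1 (nm _ (hp k).1 (hl.ne hk))).2 _ _ (hp i).1 p2 p3]
      · simp [y0 k h]
  rw [h3, (hValC.2.2.2 P p1 (nm 3 Nat.prime_three (hp i).2.symm)).2 _ _ (hp i).1 p2 p3, kD,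
    sum_image fun i _ j _ h => hl h, add_mul, sum_mul, mul_assoc,
    k1 3 Nat.prime_three (hp i).2.symm]
  simp only [dtl, ← k2, sum_sub_distrib, mul_assoc]
  ring

end Pool.Agent.MP_e23604_nt.T

end
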