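import Mathlib
import Pool.Agent.Mg.Fe23604m.G06f121
import Pool.Agent.MP_e23604_nt.R.CDefs

set_option linter.all false

section

namespace Pool.Agent.MP_e23604_nt.T

open Finset Filter NumberField
open MP_f68ac8_nt (cyc IsFrob)
open MP_f68ac8_nt.Zv (Ex Prob piV Unf Bx)
open MP_f68ac8_nt.Zk (NS brL lk msk Av)
open MP_f68ac8_nt.Nd (Lr Fr Gz Exm fP kap np OKp)
open Q (Wn Pre rot0)
open scoped BigOperators Topology

theorem res_XThT {A : Type} [AddCommGroup A] {V : Type} [AddCommGroup V] {J : A ≃ₗ[ℤ] A} {T : A}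
    {JV : V ≃ₗ[ℤ] V} {TV : V} {ι : V →ₗ[ℤ] A} {N : ℕ} (he : Emb J T JV TV ι N)
    {a : A ≃ₗ[ℤ] A} (ha : Pre J a) : ∃ b : V ≃ₗ[ℤ] V, ∀ y, ι (b y) = a (ι y) := by
  choose f hf using fun y => he.rng (a (ι y)) ((ha _ _).2 ((he.lev _ _).2 (he.cm.top y)))
  let g : V →ₗ[ℤ] V :=
    { toFun := f
      map_add' := fun x y => he.inj (by simp only [map_add, hf])
      map_smul' := fun c x => he.inj (by simp only [map_smul, hf, RingHom.id_apply]) }
  have hi : Function.Injective g := fun x y e => he.inj (a.injective (by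
    rw [← hf, ← hf]; exact congrArg ι e))
  have hs : Function.Surjective g := fun y => by
    obtain ⟨x, hx⟩ := he.rng (a.symm (ι y)) ((ha _ _).1 (by
      rw [a.apply_symm_apply]
      exact (he.lev _ _).2 (he.cm.top y)))
    exact ⟨x, he.inj (by rw [← a.apply_symm_apply (ι y), ← hx]; exact hf x)⟩
  exact ⟨LinearEquiv.ofBijective g ⟨hi, hs⟩, hf⟩

theorem x_ThT (hBasT : BasT) (hActB : ActB) : ThT := by
  intro A _ V _ J T JV TV ι N hc he η R e β σ τ hG hT hR
  choose b hb using fun g => res_XThT he (hActB A J T hc η R e β σ τ hG hT hR g).1.1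
  have hom : ∀ u, ι (Q.om JV u) = Q.om J (ι u) := fun u => by
    change ι (JV u - u) = J (ι u) - ι u
    rw [map_sub, he.com]
  refine ⟨MonoidHom.mk' b fun g h => LinearEquiv.ext fun y => he.inj (by
    rw [LinearEquiv.mul_apply, hb, hb, hb, map_mul, LinearEquiv.mul_apply]), hb,
    fun g => he.inj ?_, fun g hg u => he.inj ?_, fun g hg u => he.inj ?_, fun u => ?_,
    fun P hP g hg k u hu => he.inj ?_, fun l hl k u hu => he.inj ?_, fun g hg u hu => he.inj ?_⟩
  · rw [MonoidHom.mk'_apply, hb, he.pt, hG.fix]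
  · rw [MonoidHom.mk'_apply, hb, he.com, he.com, hb, hG.lin g hg]
  · rw [MonoidHom.mk'_apply, hb, he.com, he.com, he.com, hb, hG.ant g hg]
  · exact mem_of_superset (hG.opn (ι u)) fun g hg => he.inj ((hb g u).trans hg)
  · rw [MonoidHom.mk'_apply, hb, hG.unr P hP g hg k _ ((he.lev _ _).2 hu)]
  · rw [MonoidHom.mk'_apply, hb, hG.tam l hl k _ ((he.lev _ _).2 hu), he.com]
  · rw [MonoidHom.mk'_apply, map_sub, hb, hG.two g hg _ ((he.lev _ _).2 hu), map_nsmul, hom]

end Pool.Agent.MP_e23604_nt.T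

end

section

namespace Pool.Agent.MP_e23604_nt.T

open Finset Filter NumberField
open MP_f68ac8_nt (cyc IsFrob)
open MP_f68ac8_nt.Zv (Ex Prob piV Unf Bx)
open MP_f68ac8_nt.Zk (NS brL lk msk Av)
open MP_f68ac8_nt.Nd (Lr Fr Gz Exm fP kap np OKp)
open Q (Wn Pre rot0)
open scoped BigOperators Topology

theorem x_UcT : UcT := by
  intro α a
  refine ⟨fun h => ?_, fun N hN => ⟨?_, fun h => ?_⟩⟩
  · obtain ⟨N, ⟨h1, h2⟩, h3⟩ := R.lc_iff.1 h
    exact ⟨N, h1, h2.mem_nhds N.one_mem, fun g h e => h3 g trivial h trivial e⟩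
  · obtain ⟨L, _, _, hL⟩ := MP_f68ac8_nt.exists_level hN
    exact (Subgroup.finiteIndex_of_le (H := (MP_f68ac8_nt.res L).ker)
      fun g hg => hL _ hg).index_ne_zero
  · refine (IsLocallyConstant.iff_eventually_eq a).2 fun g => ?_
    have h1 : (fun x : GQ => g⁻¹ * x) ⁻¹' (N : Set GQ) ∈ 𝓝 g :=
      (continuous_const.mul continuous_id).continuousAt.preimage_mem_nhds (by simpa using hN)
    filter_upwards [h1] with x hx using (h g x hx).symm

end Pool.Agent.MP_e23604_nt.T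

end
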