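import Mathlib
import Pool.Agent.Mg.Fe23604m.G06f121

set_option linter.all false

namespace Pool.Agent.MP_e23604_nt.T

open Finset Filter NumberField
open MP_f68ac8_nt (cyc IsFrob)
open MP_f68ac8_nt.Zv (Ex Prob piV Unf Bx)
open MP_f68ac8_nt.Zk (NS brL lk msk Av)
open MP_f68ac8_nt.Nd (Lr Fr Gz Exm fP kap np OKp)
open Q (Wn Pre rot0)
open scoped BigOperators Topology

section

variable {V G : Type} [AddCommGroup V] [Group G] {J : V ≃ₗ[ℤ] V} {η : G →* (V ≃ₗ[ℤ] V)}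
  {y : G → V} {K n : ℕ}

theorem mul_XAdmG (η : G →* (V ≃ₗ[ℤ] V)) (g h : G) (u : V) : η (g * h) u = η g (η h u) := by
  rw [map_mul]
  rfl

theorem one_XAdmG (η : G →* (V ≃ₗ[ℤ] V)) (u : V) : η 1 u = u := by
  rw [map_one]
  rfl

theorem y1_XAdmG (hc : ∀ g h, y (g * h) - (y g + η g (y h)) ∈ Wn J n) : y 1 ∈ Wn J n := by
  have h := neg_mem (hc 1 1)
  rwa [mul_one, one_XAdmG, neg_sub, add_sub_cancel_left] at h

theorem div_XAdmG (hc : ∀ g h, y (g * h) - (y g + η g (y h)) ∈ Wn J n) {g h : G}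
    (h1 : ∀ u ∈ Wn J K, η g u = η h u) (h2 : y g = y h) :
    (∀ u ∈ Wn J K, η (g⁻¹ * h) u = u) ∧ y (g⁻¹ * h) ∈ Wn J n := by
  refine ⟨fun u hu => ?_, ?_⟩
  · rw [mul_XAdmG, ← h1 u hu, ← mul_XAdmG, inv_mul_cancel, one_XAdmG]
  · have h3 := add_mem (sub_mem (hc g⁻¹ h) (hc g⁻¹ g)) (y1_XAdmG hc)
    rwa [h2, inv_mul_cancel, sub_sub_sub_cancel_right, sub_add_cancel] at h3

/-- the level of a cocycle -/
def lev_XAdmG (K : ℕ) (hp : ∀ g, Pre J (η g))
    (hc : ∀ g h, y (g * h) - (y g + η g (y h)) ∈ Wn J n) : Subgroup G where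
  carrier := {g | (∀ u ∈ Wn J K, η g u = u) ∧ y g ∈ Wn J n}
  one_mem' := ⟨fun u _ => one_XAdmG η u, y1_XAdmG hc⟩
  mul_mem' := by
    rintro g h ⟨g1, g2⟩ ⟨h1, h2⟩
    refine ⟨fun u hu => by rw [mul_XAdmG, h1 u hu, g1 u hu], ?_⟩
    have h3 := add_mem (hc g h) (add_mem g2 ((hp g n _).2 h2))
    rwa [sub_add_cancel] at h3
  inv_mem' := by
    rintro g ⟨g1, g2⟩
    refine ⟨fun u hu => ?_, (hp g n _).1 ?_⟩
    · rw [← g1 u hu, ← mul_XAdmG, inv_mul_cancel, one_XAdmG, g1 u hu]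
    · have h3 := sub_mem (sub_mem (y1_XAdmG hc) (hc g g⁻¹)) g2
      rwa [mul_inv_cancel, sub_sub_cancel, add_sub_cancel_left] at h3

theorem nrm_XAdmG (hp : ∀ g, Pre J (η g)) (hc : ∀ g h, y (g * h) - (y g + η g (y h)) ∈ Wn J n)
    (hK : ∀ g, y g ∈ Wn J K) : (lev_XAdmG K hp hc).Normal := by
  refine ⟨fun g hg s => ⟨fun u hu => ?_, ?_⟩⟩
  · rw [mul_XAdmG, mul_XAdmG, hg.1 _ ((hp s⁻¹ K u).2 hu), ← mul_XAdmG, mul_inv_cancel, one_XAdmG]
  · have h3 := add_mem (add_mem (sub_mem (add_mem (hc (s * g) s⁻¹) (hc s g)) (hc s s⁻¹))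
      (y1_XAdmG hc)) ((hp s n _).2 hg.2)
    rw [mul_XAdmG, hg.1 _ (hK _), mul_inv_cancel] at h3
    have e : y (s * g * s⁻¹) - (y (s * g) + η s (y s⁻¹)) + (y (s * g) - (y s + η s (y g))) -
        (y 1 - (y s + η s (y s⁻¹))) + y 1 + η s (y g) = y (s * g * s⁻¹) := by abel
    rwa [e] at h3

theorem idx_XAdmG (hp : ∀ g, Pre J (η g)) (hc : ∀ g h, y (g * h) - (y g + η g (y h)) ∈ Wn J n)
    (hK : ∀ g, y g ∈ Wn J K) (hf : Finite (Wn J K)) :
    (lev_XAdmG K hp hc).index ≤ Nat.card (Wn J K) ^ (Nat.card (Wn J K) + 1) := by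
  let f : G → (Wn J K → Wn J K) × Wn J K :=
    fun g => (fun u => ⟨η g u, (hp g K u).2 u.2⟩, ⟨y g, hK g⟩)
  have hF : Function.Injective fun q : G ⧸ lev_XAdmG K hp hc => f q.out := by
    intro q q' e
    rw [← q.out_eq, ← q'.out_eq]
    refine QuotientGroup.eq.2 (div_XAdmG hc (fun u hu => ?_) ?_)
    · exact congrArg Subtype.val (congrFun (congrArg Prod.fst e) ⟨u, hu⟩)
    · exact congrArg Subtype.val (congrArg Prod.snd e)
  have h := Nat.card_le_card_of_injective _ hF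
  rwa [Nat.card_prod, Nat.card_fun, ← pow_succ] at h

theorem step_XAdmG (hm : ∀ a b, a ≤ b → Wn J a ≤ Wn J b)
    (h3 : ∀ n u, 3 • u ∈ Wn J n ↔ u ∈ Wn J (n + 2))
    (hc : ∀ g h, y (g * h) - (y g + η g (y h)) ∈ Wn J n) {i : ℕ} {g : G}
    (h : (∀ k, ∀ u ∈ Wn J k, η g u - u ∈ Wn J (k - (i + 1))) ∧ y g ∈ Wn J (max n (K - i))) :
    (∀ k, ∀ u ∈ Wn J k, η (g ^ 3) u - u ∈ Wn J (k - (i + 1 + 1))) ∧
      y (g ^ 3) ∈ Wn J (max n (K - (i + 1))) := by
  rw [pow_three']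
  refine ⟨fun k u hu => ?_, ?_⟩
  · have a1 := h.1 _ _ hu
    have a2 := h.1 _ _ a1
    have a3 := h.1 _ _ a2
    have a4 := add_mem (add_mem (hm _ (k - (i + 1 + 1)) (by omega) a3)
      ((h3 _ _).2 (hm _ _ (by omega) a2))) ((h3 _ _).2 (hm _ _ (by omega) a1))
    simp only [map_sub] at a4
    rw [mul_XAdmG, mul_XAdmG]
    have e : η g (η g (η g u)) - η g (η g u) - (η g (η g u) - η g u) -
        (η g (η g u) - η g u - (η g u - u)) + 3 • (η g (η g u) - η g u - (η g u - u)) +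
        3 • (η g u - u) = η g (η g (η g u)) - u := by abel
    rwa [e] at a4
  · have a1 := h.1 _ _ h.2
    have a2 := h.1 _ _ a1
    have a4 := add_mem (add_mem (add_mem
      (hm _ (max n (K - (i + 1))) (le_max_left _ _) (add_mem (hc (g * g) g) (hc g g)))
      (hm _ _ (by omega) a2)) ((h3 _ _).2 (hm _ _ (by omega) a1)))
      ((h3 _ _).2 (hm _ _ (by omega) h.2))
    rw [map_sub, mul_XAdmG] at a4
    have e : y (g * g * g) - (y (g * g) + η g (η g (y g))) + (y (g * g) - (y g + η g (y g))) +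
        (η g (η g (y g)) - η g (y g) - (η g (y g) - y g)) + 3 • (η g (y g) - y g) + 3 • y g =
        y (g * g * g) := by abel
    rwa [e] at a4

end

theorem x_AdmG (hBasT : BasT) (hActB : ActB) (hSgT : SgT) : AdmG := by
  intro V _ J T hC η R e β σ τ hG hT hR y K n hf hu hl hK hc hun
  obtain ⟨hm, h0, hom, hJ, h3, -, -, -, -, hom', -⟩ := hBasT V J T hC
  have hA := hActB V J T hC η R e β σ τ hG hT hR
  have hp : ∀ g, Pre J (η g) := fun g => (hA g).1.1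
  refine ⟨lev_XAdmG K hp hc, ⟨nrm_XAdmG hp hc hK, ?_, fun g hg => ⟨K, ?_⟩,
    fun P hP g hg => ⟨hG.unr P hP g hg K, hun P hP g hg⟩⟩, fun g hg => ?_,
    idx_XAdmG hp hc hK hf, fun g => Iff.rfl⟩
  · have h1 : ∀ᶠ g in 𝓝 (1 : GQ), ∀ u : Wn J K, η g u = u :=
      Filter.eventually_all.2 fun u => hG.opn u
    filter_upwards [h1, hl.eventually_eq 1] with g a1 a2
    exact ⟨fun u hu => a1 ⟨u, hu⟩, a2 ▸ y1_XAdmG hc⟩
  · have key : ∀ i, (∀ k, ∀ u ∈ Wn J k, η (g ^ 3 ^ i) u - u ∈ Wn J (k - (i + 1))) ∧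
        y (g ^ 3 ^ i) ∈ Wn J (max n (K - i)) := by
      intro i
      induction i with
      | zero =>
        rw [pow_zero, pow_one]
        refine ⟨fun k u hu => ?_, hm _ _ (le_max_right _ _) (hK g)⟩
        rcases k with _ | k
        · rw [h0, Submodule.mem_bot] at hu
          rw [hu, map_zero, sub_zero]
          exact zero_mem _
        · exact ((hA g).2.2 hg).1 k u hu
      | succ i ih =>
        rw [pow_succ, pow_mul]
        exact step_XAdmG hm h3 hc ih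
    refine ⟨fun u hu => ?_, hm _ _ (by omega) (key K).2⟩
    have h1 := (key K).1 K u hu
    rwa [show K - (K + 1) = 0 by omega, h0, Submodule.mem_bot, sub_eq_zero] at h1
  · by_contra h
    obtain ⟨u, h1, h2⟩ := hu
    have h4 := hG.ant g h u
    rw [hg.1 u h1, hg.1 _ ((hJ K u).2 h1)] at h4
    refine h2 ((hom 0 u).1 ?_)
    rw [(hom' 0 u).2, ← J.injective h4, sub_self]
    exact zero_mem _

end Pool.Agent.MP_e23604_nt.T
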