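import Mathlib
import Pool.Agent.Mg.Fe23604m.G06f121

set_option linter.all false

namespace Pool.Agent.MP_e23604_nt.T

open Finset Filter NumberField
open MP_f68ac8_nt (cyc IsFrob)
open MP_f68ac8_nt.Zv (Ex Prob piV Unf Bx)
open MP_f68ac8_nt.Zk (NS brL lk msk Av)
open MP_f68ac8_nt.Nd (Lr Fr Gz Exm fP kap np OKp)
open Q (Wn Pre rot0)
open scoped BigOperators Topology

section
variable {V : Type} [AddCommGroup V] {J a : V ≃ₗ[ℤ] V} {T : V}

theorem om_XSemT (u : V) : Q.om J u = J u - u := rfl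

theorem pw_XSemT (m n : ℕ) (u : V) : (Q.om J ^ n) u ∈ Wn J m ↔ u ∈ Wn J (m + n) := by
  simp only [Wn, LinearMap.mem_ker, pow_add, Module.End.mul_apply]

theorem dig_XSemT (m n : ℕ) (u : V) : dig J T m ((Q.om J ^ n) u) = dig J T (m + n) u := by
  have e : (Q.om J ^ (m + n)) u = (Q.om J ^ m) ((Q.om J ^ n) u) := by
    rw [pow_add, Module.End.mul_apply]
  unfold dig
  rw [e]

theorem one_XSemT (hJ : Cm0 J T) (ha : a T = T) {u : V} (hu : u ∈ Wn J 1) : a u = u := by
  rcases hJ.one u hu with rfl | rfl | rfl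
  · exact map_zero a
  · exact ha
  · rw [map_neg, ha]

theorem com_XSemT (h : ∀ u, a (Q.om J u) = Q.om J (a u)) (n : ℕ) (u : V) :
    a ((Q.om J ^ n) u) = (Q.om J ^ n) (a u) := by
  induction n with
  | zero => rfl
  | succ n ih => rw [pow_succ', Module.End.mul_apply, Module.End.mul_apply, h, ih]

theorem fix_XSemT (hB : BasT) (hJ : Cm0 J T) (h : ∀ u, a (Q.om J u) = Q.om J (a u)) (t : ℕ) :
    ∀ b ∈ Wn J (t + 1), b ∉ Wn J t → a b = b → ∀ u ∈ Wn J (t + 1), a u = u := by
  obtain ⟨-, b2, b3, -, -, b6, b7, b8, -⟩ := hB V J T hJ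
  have key : ∀ t, (∀ u ∈ Wn J t, a u = u) →
      ∀ b ∈ Wn J (t + 1), b ∉ Wn J t → a b = b → ∀ u ∈ Wn J (t + 1), a u = u := by
    intro t ih b h1 h2 h3 u hu
    have d0 : dig J T t b ≠ 0 := fun e => h2 ((b6 t b h1).1 e)
    have d1 : ∀ d : ZMod 3, d ≠ 0 → d * d = 1 := by decide
    have hk : (dig J T t u * dig J T t b).val • b ∈ Wn J (t + 1) := nsmul_mem h1 _
    have e : u - (dig J T t u * dig J T t b).val • b ∈ Wn J t := by
      rw [← b6 t _ (sub_mem hu hk), (b7 t u hu _ hk).2, b8 t _ b h1, ZMod.natCast_zmod_val,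
        mul_assoc, d1 _ d0, mul_one, sub_self]
    have := ih _ e
    rwa [map_sub, map_nsmul, h3, sub_left_inj] at this
  induction t with
  | zero => exact key 0 fun u hu => by rw [b2, Submodule.mem_bot] at hu; rw [hu, map_zero]
  | succ t ih =>
    exact fun b h1 h2 h3 => key _
      (ih (Q.om J b) ((b3 _ _).2 h1) (fun e => h2 ((b3 _ _).1 e)) (by rw [h, h3])) b h1 h2 h3

end

theorem x_SemT (hBasT : BasT) : SemT := by
  intro V _ J T hJ a ha
  obtain ⟨b1, b2, b3, b4, -, b6, b7, b8, b9, b10, -⟩ := hBasT V J T hJ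
  refine ⟨fun h => ?_, fun h => ?_⟩
  · have h1 : ∀ u, a (Q.om J u) = Q.om J (a u) := fun u => by
      rw [om_XSemT, om_XSemT, map_sub, h]
    have h2 : Pre J a := fun n u => by
      simp only [Wn, LinearMap.mem_ker, ← com_XSemT h1, a.map_eq_zero_iff]
    have h3 : ∀ n, ∀ u ∈ Wn J (n + 1), a u - u ∈ Wn J n := fun n u hu => by
      rw [add_comm, ← pw_XSemT] at hu
      rw [Wn, LinearMap.mem_ker, map_sub, ← com_XSemT h1, one_XSemT hJ ha hu, sub_self]
    refine ⟨⟨h2, fun k _ => h3 k⟩, h3, fun κ hκ n u hu => ?_, ?_⟩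
    · rw [add_comm, ← pw_XSemT] at hu
      have e1 := dig_XSemT (J := J) (T := T) 0 n (a u - u)
      have e2 := dig_XSemT (J := J) (T := T) 1 n u
      rw [zero_add, map_sub, ← com_XSemT h1, hκ _ hu, b8 0 _ _ ((b3 _ _).2 hu),
        ZMod.natCast_zmod_val, (b10 0 _).1, zero_add, e2, add_comm] at e1
      exact e1.symm
    · rintro ⟨u, hu, hu'⟩ K k
      induction k generalizing K with
      | zero =>
        intro b hb e
        rw [b2, Submodule.mem_bot, sub_eq_zero] at e
        induction K with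
        | zero => exact b1 _ _ (by omega) hb
        | succ K ih =>
          by_cases h4 : b ∈ Wn J K
          · exact ih h4
          · by_cases h5 : 3 ≤ K + 1
            · exact absurd (fix_XSemT hBasT hJ h1 K b hb h4 e u (b1 _ _ h5 hu)) hu'
            · exact b1 _ _ (by omega) hb
      | succ k ih =>
        intro b hb e
        refine (b3 (k + 2) b).1 (ih K _ ((b3 _ _).2 (b1 _ _ (by omega) hb)) ?_)
        rw [h1, ← map_sub]
        exact (b3 _ _).2 e
  · have h1 : ∀ u, Q.om J (a u) = -J (a (Q.om J u)) := fun u => by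
      have e1 := hJ.sq (a u)
      have e2 := hJ.sq (J (a u))
      rw [om_XSemT, om_XSemT, map_sub, h, map_sub]
      linear_combination (norm := abel) e2 - e1
    have h2 : Pre J a := by
      intro n
      induction n with
      | zero => simp [b2]
      | succ n ih => exact fun u => by rw [← b3, h1, neg_mem_iff, b4, ih, b3]
    have h3 : ∀ n, ∀ u ∈ Wn J (n + 1), dig J T n (a u) = (-1) ^ n * dig J T n u := by
      intro n
      induction n with
      | zero => exact fun u hu => by rw [one_XSemT hJ ha hu, pow_zero, one_mul]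
      | succ n ih =>
        intro u hu
        have u1 : Q.om J u ∈ Wn J (n + 1) := (b3 _ _).2 hu
        have u2 : a (Q.om J u) ∈ Wn J (n + 1) := (h2 _ _).2 u1
        have u3 := b9 n (a (Q.om J u)) _ ((b3 _ _).2 u2)
        rw [(b10 n (a (Q.om J u))).2, add_sub_cancel] at u3
        rw [← (b10 n _).1, h1, ← zero_sub, (b7 n 0 (zero_mem _) _ ((b4 _ _).2 u2)).2,
          (b6 n 0 (zero_mem _)).2 (zero_mem _), u3, ih _ u1, (b10 n _).1]
        ring
    refine ⟨⟨h2, fun k hk u hu => ?_⟩, h3⟩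
    have u1 := (h2 _ _).2 hu
    rw [← b6 k _ (sub_mem u1 hu), (b7 k _ u1 _ hu).2, h3 k u hu, hk.neg_one_pow, one_mul, sub_self]

end Pool.Agent.MP_e23604_nt.T
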