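import Mathlib
import Pool.Agent.Mg.Fe23604m.G06f121
import Pool.Agent.Mg.Fe23604m.Gcb31cd

set_option linter.all false

section

namespace Pool.Agent.MP_e23604_nt.T

open Finset Filter NumberField
open MP_f68ac8_nt (cyc IsFrob)
open MP_f68ac8_nt.Zv (Ex Prob piV Unf Bx)
open MP_f68ac8_nt.Zk (NS brL lk msk Av)
open MP_f68ac8_nt.Nd (Lr Fr Gz Exm fP kap np OKp)
open Q (Wn Pre rot0)
open scoped BigOperators Topology

open MP_f68ac8_nt.Nd (jj_NcErr jj_ex_NcErr)

theorem upd_XBoxT (hVtT : VtT) {d : ℕ} {P Λ B O : Type} [Group P] (x : Fin d → P) (x0 : B → P)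
    (y : Lr d Λ → FreeGroup (Λ ⊕ B)) (yo : O → FreeGroup (Λ ⊕ B)) (q : Fin d → Λ)
    {J : Finset (Fin d)} {s : Fin d} {i : Fin d ⊕ O} (h1 : s ∉ J) (h2 : i ≠ Sum.inl s) (u : Λ) :
    FreeGroup.lift (vT (Function.update q s u) (msk J x) x0)
        (Sum.elim (fun j => y ⟨j, Function.update q s u j⟩) yo i) =
      FreeGroup.lift (vT q (msk J x) x0) (Sum.elim (fun j => y ⟨j, q j⟩) yo i) := by
  have e : vT (Function.update q s u) (msk J x) x0 = vT q (msk J x) x0 :=
    (hVtT d P Λ B _ (msk J x) x0).2.2.2.1 q fun j hj =>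
      Function.update_of_ne (fun h => hj (by rw [h]; exact if_neg h1)) _ _
  rw [e]
  rcases i with j | o
  · rw [Sum.elim_inl, Sum.elim_inl,
      Function.update_of_ne (fun h => h2 (congrArg Sum.inl h))]
  · rfl

theorem x_BoxT (hBoxP : MP_f68ac8_nt.Nd.BoxP 3) (hVtT : VtT) : BoxT := by
  classical
  intro P A O _ _ _ _ d Λ B _ w S t x x0 y g yo pd G Θ ζ hw ht h2 hΘ hζ hQ
  have hc : (insert t S).card = S.card + 1 := card_insert_of_notMem ht
  have key := hBoxP d (fun _ => Λ) w hw S t ht (card_pos.1 (by omega))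
    (((Fin d ⊕ O) × ({K // K ∈ (insert t S).powerset} × Bool) × Bool) ⊕
      (Fin d × {s // s ∈ insert t S} × Bool))
    (P × Option A)
    (Sum.elim (fun z q =>
        if ∃ s ∈ insert t S, s ∉ jj_NcErr (insert t S) z.2.1.1 z.2.1.2 ∧ z.1 ≠ Sum.inl s
        then (FreeGroup.lift (vT q (msk (jj_NcErr (insert t S) z.2.1.1 z.2.1.2) x) x0)
          (Sum.elim (fun j => (if z.2.2 then y else g) ⟨j, q j⟩) yo z.1), none) else (1, none))
      fun z q => (1, some (if z.2.2 then pd ⟨z.1, q z.1⟩ (q z.2.1)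
        else pd ⟨z.2.1, q z.2.1⟩ (q z.1)))) Θ G ζ ?_ hΘ
    (fun q q' h0 h => ?_) hζ
  · refine key.trans (mul_le_mul_of_nonneg_right (pow_le_pow_left₀ (by positivity) ?_ _) ?_)
    · have e1 : Fintype.card (((Fin d ⊕ O) × ({K // K ∈ (insert t S).powerset} × Bool) × Bool) ⊕
          (Fin d × {s // s ∈ insert t S} × Bool)) ≤
          (d + Fintype.card O) * (2 ^ (S.card + 1 + 2) + 2 * (S.card + 1)) := by
        simp only [Fintype.card_sum, Fintype.card_prod, Fintype.card_fin, Fintype.card_coe,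
          card_powerset, Fintype.card_bool, hc]
        have : (d + Fintype.card O) * (2 ^ (S.card + 1 + 2) + 2 * (S.card + 1)) =
            (d + Fintype.card O) * (2 ^ (S.card + 1) * 2 * 2) + d * ((S.card + 1) * 2) +
              Fintype.card O * (2 * (S.card + 1)) := by ring
        omega
      have e2 : (1 : ℝ) ≤ Fintype.card (P × Option A) := by exact_mod_cast Fintype.card_pos
      refine (pow_le_pow_right₀ e2 e1).trans (le_of_eq ?_)
      rw [Fintype.card_prod, Fintype.card_option]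
      push_cast
      rfl
    · refine sum_nonneg fun q₀ _ => smul_nonneg (prod_nonneg fun j _ => hw.1 j _) ?_
      exact sum_nonneg fun q₁ _ => smul_nonneg (prod_nonneg fun j _ => hw.1 j _) (sq_nonneg _)
  · rintro (⟨j, ⟨K, b⟩, c⟩ | ⟨j, j', c⟩)
    · by_cases hz : ∃ s ∈ insert t S, s ∉ jj_NcErr (insert t S) K b ∧ j ≠ Sum.inl s
      · obtain ⟨s, h1, h3, h4⟩ := hz
        refine ⟨s, h1, fun q u => ?_⟩
        simp only [Sum.elim_inl, upd_XBoxT hVtT x x0 _ yo q h3 h4]
      · refine ⟨t, mem_insert_self _ _, fun q u => ?_⟩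
        simp only [Sum.elim_inl, if_neg hz]
    · have h3 : ({j, j'.1} : Finset (Fin d)).card < (insert t S).card := by
        have := card_le_two (a := j) (b := j'.1)
        omega
      obtain ⟨s, h1, h4⟩ := exists_mem_notMem_of_card_lt_card h3
      rw [mem_insert, mem_singleton, not_or] at h4
      refine ⟨s, h1, fun q u => ?_⟩
      simp only [Sum.elim_inr, Function.update_of_ne (Ne.symm h4.1),
        Function.update_of_ne (Ne.symm h4.2)]
  · have h1 : ∀ c : Bool, DatT (insert t S) x x0 q q'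
        (Sum.elim (fun j => (if c then y else g) ⟨j, q j⟩) yo)
        (Sum.elim (fun j => (if c then y else g) ⟨j, q' j⟩) yo) := by
      intro c i J hJ hz
      obtain ⟨K, hK, b, rfl⟩ := jj_ex_NcErr hJ
      have h3 := h (.inl (i, (⟨K, hK⟩, b), c))
      simp only [Sum.elim_inl, if_pos hz] at h3
      have h4 := congrArg Prod.fst h3
      rcases i with j | o
      · exact h4
      · exact h4
    refine hQ q q' (h1 true) (h1 false) fun j j' => ?_
    by_cases hj' : j' ∈ insert t S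
    · exact Option.some.inj (congrArg Prod.snd (h (.inr (j, ⟨j', hj'⟩, true))))
    · by_cases hj : j ∈ insert t S
      · exact Option.some.inj (congrArg Prod.snd (h (.inr (j', ⟨j, hj⟩, false))))
      · rw [h0 j hj, h0 j' hj']

end Pool.Agent.MP_e23604_nt.T

end

section

namespace Pool.Agent.MP_e23604_nt.T

open Finset Filter NumberField
open MP_f68ac8_nt (cyc IsFrob)
open MP_f68ac8_nt.Zv (Ex Prob piV Unf Bx)
open MP_f68ac8_nt.Zk (NS brL lk msk Av)
open MP_f68ac8_nt.Nd (Lr Fr Gz Exm fP kap np OKp)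
open Q (Wn Pre rot0)
open scoped BigOperators Topology

theorem x_GenT (hSgT : SgT) (hUcT : UcT) (hChrT : ChrT) (hKumA : KumA) (hEigT : EigT) : GenT := by
  intro σ τ e hT R M H hR hM hle h1 h2 ⟨g₁, a1, _, a2⟩ ⟨g₂, b1, _, b2, b3⟩
  by_contra hH
  obtain ⟨-, s2, s3, s4, -, -, s7, -⟩ := hSgT
  obtain ⟨a, ε, hε, c1, c2, g, c3, c4⟩ := hEigT GQ (Gz 3) M H s4 hM.nrm
    ((hUcT Unit fun _ => ()).2 M hM.nhds).1 s7 hM.pg hle h2 hH
  have lc : IsLocallyConstant a := ((hUcT _ a).2 M hM.nhds).2 fun x y h => by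
    rw [← mul_inv_cancel_left x y, c1, c2 _ (hle h), mul_zero, add_zero]
  have un : ∀ P, Out R P → ∀ x ∈ P.inertia GQ, a x = 0 := fun P hP x hx =>
    c2 x (hle (hM.unr P hP x hx))
  rcases hε with rfl | rfl
  · obtain ⟨-, γ, hγ⟩ := hChrT σ τ e hT R hR a lc (fun x y => by rw [c1, ite_self, one_mul]) un
    have e1 : ∀ x, a x = γ * x9 x := fun x => by
      rw [hγ, sum_eq_zero fun l hl => by rw [c2 _ (h1 l (mem_filter.1 hl).1), zero_mul, zero_mul],
        zero_add]
    have e2 : γ = 0 := (mul_eq_zero.1 ((e1 g₁).symm.trans (c2 _ a1))).resolve_right a2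
    exact c4 (by rw [e1, e2, zero_mul])
  · obtain ⟨γ, hγ⟩ := hKumA σ τ e hT R hR a lc (fun x y => by
      rw [c1]
      split_ifs with h
      · rw [s2 x h]
      · rw [s3 x h]) un
    have e1 : ∀ x ∈ Gz 3, a x = γ * kk 3 x := fun x hx => by
      rw [hγ x hx, kD, sum_eq_zero fun l hl => by rw [c2 _ (h1 l hl), zero_mul, zero_mul], add_zero]
    have e2 : γ = 0 := (mul_eq_zero.1 ((e1 g₂ b2).symm.trans (c2 _ b1))).resolve_right b3
    exact c4 (by rw [e1 g c3, e2, zero_mul])

end Pool.Agent.MP_e23604_nt.T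

end
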