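import Mathlib
import Pool.Agent.Mg.Fe23604m.G06f121

set_option linter.all false

namespace Pool.Agent.MP_e23604_nt.T

open Finset Filter NumberField
open MP_f68ac8_nt (cyc IsFrob)
open MP_f68ac8_nt.Zv (Ex Prob piV Unf Bx)
open MP_f68ac8_nt.Zk (NS brL lk msk Av)
open MP_f68ac8_nt.Nd (Lr Fr Gz Exm fP kap np OKp)
open Q (Wn Pre rot0)
open scoped BigOperators Topology

theorem lc_XOddT {A : Type} [AddCommGroup A] {η : GQ →* (A ≃ₗ[ℤ] A)} {b : A}
    (h : {g | η g b = b} ∈ 𝓝 (1 : GQ)) : IsLocallyConstant fun g => η g b := by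
  refine (IsLocallyConstant.iff_eventually_eq _).2 fun g => ?_
  have h1 : (fun x : GQ => g⁻¹ * x) ⁻¹' {g | η g b = b} ∈ 𝓝 g :=
    (continuous_const.mul continuous_id).continuousAt.preimage_mem_nhds (by simpa using h)
  filter_upwards [h1] with x hx
  have e : η x b = η g (η (g⁻¹ * x) b) := by
    rw [← LinearEquiv.mul_apply, ← map_mul, mul_inv_cancel_left]
  rw [e, show η (g⁻¹ * x) b = b from hx]

theorem x_OddT (hBasT : BasT) (hDecT : DecT) (hActB : ActB) (hZeA : ZeA) (hTamI : TamI) :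
    OddT := by
  intro A _ d J T η e β σ τ l η₀ hJ hG hT hinj hP hGen m x p b hodd hm hL
  obtain ⟨mono, -, hom, -, -, hd0, hadd, -, h9, h10, -⟩ := hBasT A J T hJ.toCm0
  have hR : ∀ l' ∈ univ.image l, P0 l' := fun l' h => by
    obtain ⟨j, -, rfl⟩ := mem_image.1 h
    exact hP j
  have act := hActB A J T hJ.toCm0 η _ e β σ τ hG.toGm0 hT hR
  have hp := fun j => hL.fix _ (mem_image_of_mem l (mem_univ j))
  have tam := fun j => hTamI A d J T η e β σ τ l η₀ hJ hG hT hinj hP x hL.st j _ (hp j).1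
  obtain ⟨x1, x2, -, x4, -⟩ := hL.st
  have gz : ∀ j, σ (l j) ∈ Gz 3 ↔ l j % 3 = 1 := fun j => by
    obtain ⟨P, k1, k2, k3, -⟩ := (hT _ (hP j)).ex
    exact (((hDecT.2.2.2 P k1).2.2.2.2 _ (hP j).1 k2).2.2 _ k3).2.1 (hP j).2
  obtain ⟨k, rfl⟩ : ∃ k, m = k + 1 := ⟨m - 1, by omega⟩
  have hev : Even k := by
    rw [← Nat.not_even_iff_odd, Nat.even_add_one, not_not] at hodd
    exact hodd
  obtain ⟨z, hz⟩ : ∃ z : GQ → A, ∀ g, z g = x g + η g b - b := ⟨_, fun _ => rfl⟩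
  have h1 : ∀ g, z g ∈ Wn J (k + 1) := fun g => hz g ▸ hL.lev g
  have zc : ∀ g h, z (g * h) = z g + η g (z h) := fun g h => by
    rw [hz, hz, hz, x2, map_mul, LinearEquiv.mul_apply, map_sub, map_add]
    abel
  have zl : IsLocallyConstant z := by
    rw [show z = fun g => x g + η g b - b from funext hz]
    exact (x1.prodMk (lc_XOddT (hG.opn b))).comp fun u => u.1 + u.2 - b
  obtain ⟨a, ha⟩ : ∃ a : GQ → ZMod 3, ∀ g, a g = dig J T k (z g) := ⟨_, fun _ => rfl⟩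
  obtain ⟨y, hy⟩ : ∃ y : V3 d, ∀ j, y j = dig J T (k + 1) (p (l j) - b) := ⟨_, fun _ => rfl⟩
  have d0 : dig J T k 0 = 0 := (hd0 k 0 (zero_mem _)).2 (zero_mem _)
  have al : IsLocallyConstant a := by
    rw [show a = fun g => dig J T k (z g) from funext ha]
    exact zl.comp (dig J T k)
  have ac : ∀ g h, a (g * h) = a g + a h := fun g h => by
    rw [ha, ha, ha, zc, (hadd k _ (h1 g) _ (((act g).1.1 _ _).2 (h1 h))).1,
      (act g).2.1 k _ (h1 h), if_pos hev, one_mul]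
  have au : ∀ P, Out (univ.image l) P → ∀ g ∈ P.inertia GQ, a g = 0 := fun P hO g hg => by
    rw [ha, hz, x4 P hO g hg, hG.unr P hO g hg _ b hL.base, zero_add, sub_self, d0]
  have aτ : ∀ j, a (τ (l j)) = -y j := fun j => by
    have e1 : z (τ (l j)) = 0 - Q.om J (p (l j) - b) := by
      rw [hz, hG.tam _ (mem_image_of_mem l (mem_univ j)) _ b hL.base, eq_sub_of_add_eq (hp j).1,
        (h10 0 _).2, map_sub]
      abel
    rw [ha, e1, (hadd k 0 (zero_mem _) _ ((hom _ _).2 (hp j).2)).2, d0, (h10 k _).1, hy, zero_sub]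
  obtain ⟨h2, γ, h3, -⟩ := hZeA d σ τ e β l hT hinj hP a y al ac au aτ
  have h4 : ∀ j, a (σ (l j)) + kD (univ.image l) e β (σ (l j)) * y j = 0 := fun j => by
    have e1 : z (σ (l j)) + (η (σ (l j)) (p (l j) - b) - (p (l j) - b)) =
        x (σ (l j)) + η (σ (l j)) (p (l j)) - p (l j) := by
      rw [hz, map_sub]
      abel
    have e2 : z (σ (l j)) + (η (σ (l j)) (p (l j) - b) - (p (l j) - b)) ∈ Wn J k :=
      e1 ▸ mono _ _ (by omega) (tam j).2
    have e3 := (hd0 k _ (mono _ _ k.le_succ e2)).2 e2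
    by_cases hj : l j % 3 = 1
    · obtain ⟨k1, k2⟩ := (act _).2.2 ((gz j).2 hj)
      rwa [(hadd k _ (h1 _) _ (k1 _ _ (hp j).2)).1, k2 k _ (hp j).2, ← ha, ← hy] at e3
    · have k1 := h2 j hj
      rw [k1, mul_zero, add_zero, ha]
      rw [hy, hd0 _ _ (hp j).2] at k1
      rwa [h9 k _ _ ((act _).1.2 k hev _ k1)] at e3
  have h5 := (hGen.ga (fun j => -(e (l j) * y j)) γ fun u => by
    rw [← h3 u]
    exact sum_eq_zero fun j _ => by rw [h4, mul_zero]).1
  have h6 : ∀ j, p (l j) - b ∈ Wn J (k + 1) := fun j => by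
    rw [← hd0 _ _ (hp j).2, ← hy]
    by_cases hj : l j % 3 = 1
    · exact (mul_eq_zero.1 (neg_eq_zero.1 (h5 j (decide_eq_true hj)))).resolve_left
        (hT _ (hP j)).ne
    · exact h2 j hj
  obtain ⟨_, k1, _, k2, k3⟩ := hL.nc
  obtain ⟨i, -, rfl⟩ := mem_image.1 k1
  obtain ⟨j, -, rfl⟩ := mem_image.1 k2
  refine k3 ?_
  have := sub_mem (h6 i) (h6 j)
  rwa [sub_sub_sub_cancel_right] at this

end Pool.Agent.MP_e23604_nt.T
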