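import Mathlib
import Pool.Agent.Mg.Fe23604m.G06f121

set_option linter.all false

section

namespace Pool.Agent.MP_e23604_nt.T

open Finset Filter NumberField
open MP_f68ac8_nt (cyc IsFrob)
open MP_f68ac8_nt.Zv (Ex Prob piV Unf Bx)
open MP_f68ac8_nt.Zk (NS brL lk msk Av)
open MP_f68ac8_nt.Nd (Lr Fr Gz Exm fP kap np OKp)
open Q (Wn Pre rot0)
open scoped BigOperators Topology

theorem lm_XKumB : ∀ (u v : ZMod 9) (a : ZMod 3), u.val % 3 ≠ 0 → v.val % 3 ≠ 0 →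
    (u ^ a.val * v).val % 3 ≠ 0 ∧ lm9 (u ^ a.val * v) = a * lm9 u + lm9 v := by
  decide

theorem prod_XKumB (R : Finset ℕ) (f : ℕ → ZMod 3) (hR : ∀ l ∈ R, P0 l) :
    ((∏ l ∈ R, l ^ (f l).val : ℕ) : ZMod 9).val % 3 ≠ 0 ∧
      lm9 ((∏ l ∈ R, l ^ (f l).val : ℕ) : ZMod 9) = ∑ l ∈ R, f l * lm9 l := by
  induction R using Finset.induction_on with
  | empty =>
    rw [prod_empty, sum_empty]
    decide
  | insert l R hl ih =>
    obtain ⟨i1, i2⟩ := ih fun l' h => hR l' (mem_insert_of_mem h)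
    obtain ⟨p1, p2⟩ := hR l (mem_insert_self _ _)
    have h3 : ¬ 3 ∣ l := fun e => p2 ((Nat.prime_dvd_prime_iff_eq Nat.prime_three p1).1 e).symm
    rw [prod_insert hl, sum_insert hl, Nat.cast_mul, Nat.cast_pow, ← i2]
    exact lm_XKumB _ _ _ (by rw [ZMod.val_natCast]; omega) i1

theorem root_XKumB {l : ℕ} (hl : l ≠ 0) (a : ZMod 3) (g : GQ) :
    g (MP_f68ac8_nt.Ev.proot 3 (l : Qb) ^ a.val) =
      (MP_f68ac8_nt.zeta Qb (3 ^ 2) ^ 3) ^ (a * kk l g).val *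
        MP_f68ac8_nt.Ev.proot 3 (l : Qb) ^ a.val := by
  have h0 : MP_f68ac8_nt.Ev.proot 3 (l : Qb) ≠ 0 := fun e => by
    have := MP_f68ac8_nt.Ev.proot_pow 3 (l : Qb)
    rw [e, zero_pow three_ne_zero] at this
    exact hl (by exact_mod_cast this.symm)
  rw [map_pow, MP_f68ac8_nt.kap_spec (p := 3) h0 (by rw [MP_f68ac8_nt.Ev.proot_pow, map_natCast]),
    MP_f68ac8_nt.ex_mul MP_f68ac8_nt.xi_spec, mul_pow]
  rfl

theorem roots_XKumB (R : Finset ℕ) (f : ℕ → ZMod 3) (hR : ∀ l ∈ R, P0 l) (g : GQ) :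
    g (∏ l ∈ R, MP_f68ac8_nt.Ev.proot 3 (l : Qb) ^ (f l).val) =
      (MP_f68ac8_nt.zeta Qb (3 ^ 2) ^ 3) ^ (∑ l ∈ R, f l * kk l g).val *
        ∏ l ∈ R, MP_f68ac8_nt.Ev.proot 3 (l : Qb) ^ (f l).val := by
  induction R using Finset.induction_on with
  | empty => simp
  | insert l R hl ih =>
    rw [prod_insert hl, sum_insert hl, map_mul, ih fun l' h => hR l' (mem_insert_of_mem h),
      root_XKumB (hR l (mem_insert_self _ _)).1.ne_zero, MP_f68ac8_nt.ex_add MP_f68ac8_nt.xi_spec]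
    ring

theorem x_KumB (hNCU : S.NCU_st) (hDicA : DicA) (hDicB : DicB) (hSgT : SgT) (hDecT : DecT)
    (hValK : ValK) : KumB := by
  intro R f γ hR h0
  obtain ⟨-, s1, s2, -, -, s3, -⟩ := hSgT
  obtain ⟨d1, d2, -, d3⟩ := hDecT
  have co : ∀ g h, kD R f γ (g * h) = kD R f γ g + sg g * kD R f γ h := fun g h => by
    unfold kD
    rw [(hValK 3 Nat.prime_three).2.1, sum_congr rfl fun l hl => by
      rw [(hValK l (hR l hl).1).2.1, mul_add, mul_left_comm], sum_add_distrib, ← mul_sum]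
    ring
  obtain ⟨c, c1, c2⟩ := MP_f68ac8_nt.cyc_inertia_surj (Ω := Qb) (q := 3) d2 (-1)
  have c3 : c ∉ Gz 3 := fun h => by
    have h' : cyc (Ω := Qb) 3 c = 1 := h
    rw [c2] at h'
    exact absurd h' (by decide)
  have hz : ∀ g ∈ DP P3, g ∈ Gz 3 → kD R f γ g = 0 := fun g g1 g2 => by
    have j1 : g * c * g⁻¹ * c⁻¹ ∈ P3.inertia GQ :=
      mul_mem ((d3 P3 d1).2.1 g g1 c c1) (inv_mem c1)
    have j2 : g * c * g⁻¹ * c⁻¹ ∈ Gz 3 :=
      s3 (Subgroup.commutator_mem_commutator (Subgroup.mem_top g) (Subgroup.mem_top c))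
    have e1 := co (g * c * g⁻¹ * c⁻¹) (c * g)
    rw [show g * c * g⁻¹ * c⁻¹ * (c * g) = g * c by group, h0 _ j1 j2, s1 _ j2, co, co, s1 g g2,
      s2 c c3] at e1
    have e3 : (3 : ZMod 3) = 0 := rfl
    linear_combination -e1 + kD R f γ g * e3
  obtain ⟨m1, m2⟩ := prod_XKumB R f hR
  rw [ZMod.val_natCast] at m1
  obtain ⟨r1, r2⟩ := hNCU.2 1 γ.val ((∏ l ∈ R, l ^ (f l).val : ℕ) : ℤ)
    (MP_f68ac8_nt.Ev.proot 3 ((3 : ℕ) : Qb) ^ γ.val *
      ∏ l ∈ R, MP_f68ac8_nt.Ev.proot 3 (l : Qb) ^ (f l).val) (by omega)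
    (by
      rw [mul_pow, ← prod_pow, pow_right_comm, MP_f68ac8_nt.Ev.proot_pow,
        prod_congr rfl fun l _ => by rw [pow_right_comm, MP_f68ac8_nt.Ev.proot_pow]]
      push_cast
      rfl)
    fun g hg => by
      have := hz g (((hDicA.2 3 1).2.2.2.1 g).2 hg.1) ((hDicB.1 g).1.1 hg.2)
      rw [map_mul, root_XKumB three_ne_zero, roots_XKumB R f hR, mul_mul_mul_comm,
        ← MP_f68ac8_nt.ex_add MP_f68ac8_nt.xi_spec]
      unfold kD at this
      rw [this, ZMod.val_zero, pow_zero, one_mul]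
  refine ⟨(ZMod.val_eq_zero γ).1 (Nat.eq_zero_of_dvd_of_lt r1 γ.val_lt), ?_⟩
  rw [← m2, ← ZMod.natCast_mod]
  have r3 : (∏ l ∈ R, l ^ (f l).val) % 9 = 1 ∨ (∏ l ∈ R, l ^ (f l).val) % 9 = 8 := by omega
  rcases r3 with h | h <;> rw [h] <;> decide

end Pool.Agent.MP_e23604_nt.T

end

section

namespace Pool.Agent.MP_e23604_nt.T

open Finset Filter NumberField
open MP_f68ac8_nt (cyc IsFrob)
open MP_f68ac8_nt.Zv (Ex Prob piV Unf)
open MP_f68ac8_nt.Zk (NS brL lk msk Av)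
open MP_f68ac8_nt.Nd (Lr Fr Gz Exm fP kap np OKp)
open Q (Wn Pre rot0)
open scoped BigOperators Topology

theorem x_ShfT (hBasT : BasT) (hLevS : LevS) (hDecT : DecT) (hActB : ActB) (hZeB : ZeB)
    (hObT : ObT) : ShfT := by
  intro V _ _ d S hS n u v w hn hnm hv hw
  obtain ⟨b1, -, b3, -, -, b6, b7, b8, b9, b10, -⟩ := hBasT V S.J S.T hS.cm.toCm0
  have act := hActB V S.J S.T hS.cm.toCm0 S.η S.R S.e S.β S.σ S.τ hS.gm hS.tl fun l hl => by
    obtain ⟨j, -, rfl⟩ := mem_image.1 hl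
    exact hS.pri j
  obtain ⟨t, ht, ht1⟩ := ((hLevS V S.J S.T hS.cm.toCm0).1 _ hS.cm).1 n (by omega)
  have hw1 : ∀ j, S.l j % 3 ≠ 1 → w j ∈ Wn S.J (n + 1) := fun j hj => by
    have := hw j
    rwa [if_neg hj] at this
  have hw2 : ∀ j, w j ∈ Wn S.J (n + 2) := fun j => by
    have := hw j
    split_ifs at this
    exacts [this, b1 _ _ (Nat.le_succ _) this]
  have hy : ∀ j, S.l j % 3 ≠ 1 → dig S.J S.T (n + 1) (w j) = 0 := fun j hj =>
    (b6 _ _ (hw2 j)).2 (hw1 j hj)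
  obtain ⟨a, a1, a2, a3, a4, a5, a6⟩ := hZeB d S.σ S.τ S.e S.β S.l hS.tl hS.inj hS.pri
    (fun j => dig S.J S.T (n + 1) (w j)) S.φ hy hS.fr
  have k1 : ∀ c : ZMod 3, c.val • t ∈ Wn S.J (n + 1) := fun c => nsmul_mem ht _
  have k2 : ∀ c : ZMod 3, dig S.J S.T n (c.val • t) = c := fun c => by
    rw [b8 n _ t ht, ht1, mul_one, ZMod.natCast_zmod_val]
  obtain ⟨hc, x, hx, hE⟩ := hv
  have hx' : S.Ap n (v + w) fun g => x g + (a g).val • t := by
    refine ⟨hx.lc.add (a1.comp fun c => c.val • t), fun g h => ?_, fun g => ?_,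
      fun P hP g hg => ?_, fun g hg => ?_, fun j => ?_⟩
    · have e : x (g * h) + (a (g * h)).val • t -
          (x g + (a g).val • t + S.η g (x h + (a h).val • t)) =
          (x (g * h) - (x g + S.η g (x h))) +
            ((a (g * h)).val • t - ((a g).val • t + S.η g ((a h).val • t))) := by
        rw [map_add]
        abel
      rw [e]
      have m1 := ((act g).1.1 _ _).2 (k1 (a h))
      have m2 := add_mem (k1 (a g)) m1
      refine add_mem (hx.co g h) ((b6 n _ (sub_mem (k1 _) m2)).1 ?_)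
      rw [(b7 n _ (k1 _) _ m2).2, (b7 n _ (k1 _) _ m1).1, (act g).2.1 n _ (k1 _), if_pos hn, k2, k2,
        k2, a2, one_mul, sub_self]
    · exact add_mem (hx.val g) (b1 _ _ (by omega) (k1 _))
    · rw [a3 P hP g hg, ZMod.val_zero, zero_smul, add_zero]
      exact hx.unr P hP g hg
    · rw [a4 g hg, ZMod.val_zero, zero_smul, add_zero]
      exact hx.thr g hg
    · have e : x (S.τ (S.l j)) + (a (S.τ (S.l j))).val • t - ((v + w) j - S.J ((v + w) j)) =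
          (x (S.τ (S.l j)) - (v j - S.J (v j))) +
            ((a (S.τ (S.l j))).val • t + Q.om S.J (w j)) := by
        rw [(b10 0 _).2, Pi.add_apply, map_add]
        abel
      rw [e]
      have m1 := (b3 _ _).2 (hw2 j)
      refine add_mem (hx.tam j) ((b6 n _ (add_mem (k1 _) m1)).1 ?_)
      rw [(b7 n _ (k1 _) _ m1).1, k2, (b10 n _).1, a5, neg_add_cancel]
  have hD : ∀ j, S.η (S.σ (S.l j)) (w j) - w j ∈ Wn S.J (n + 1) ∧
      dig S.J S.T n (S.η (S.σ (S.l j)) (w j) - w j) =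
        kD S.R S.e S.β (S.σ (S.l j)) * dig S.J S.T (n + 1) (w j) := fun j => by
    by_cases hj : S.l j % 3 = 1
    · obtain ⟨P, p1, p2, p3, -⟩ := (hS.tl _ (hS.pri j)).ex
      have hg := ((((hDecT.2.2.2 P p1).2.2.2.2 _ (hS.pri j).1 p2).2.2 _ p3).2.1 (hS.pri j).2).2 hj
      exact ⟨((act _).2.2 hg).1 _ _ (hw2 j), ((act _).2.2 hg).2 _ _ (hw2 j)⟩
    · have m1 := (act (S.σ (S.l j))).1.2 n hn _ (hw1 j hj)
      have m2 := b1 _ _ (Nat.le_succ _) m1
      exact ⟨m2, by rw [(b6 n _ m2).2 m1, hy j hj, mul_zero]⟩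
  have e1 : ∀ j, S.Ev (fun g => x g + (a g).val • t) (v + w) (some j) = S.Ev x v (some j) +
      ((a (S.σ (S.l j))).val • t + (S.η (S.σ (S.l j)) (w j) - w j)) := fun j => by
    simp only [Sy.Ev, Pi.add_apply, map_add]
    abel
  have e2 : S.Ev (fun g => x g + (a g).val • t) (v + w) none =
      S.Ev x v none + (a S.φ).val • t := by
    simp only [Sy.Ev]
    abel
  refine ⟨⟨fun j => ⟨add_mem (hc j).1 (b1 _ _ (by omega) (hw2 j)), ?_⟩, _, hx', fun i => ?_⟩,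
    fun z γ => ?_⟩
  · rw [Pi.add_apply, b9 _ _ _ (b1 _ _ hnm (hw2 j)), (hc j).2]
  · cases i with
    | none => exact e2 ▸ add_mem (hE none) (k1 _)
    | some j => exact e1 j ▸ add_mem (hE _) (add_mem (k1 _) (hD j).1)
  · have o1 := ((hObT V d S hS n v).2.1 x hx).1
    have o2 := ((hObT V d S hS n (v + w)).2.1 _ hx').1
    have o3 : ∀ j, S.ob n (v + w) (some j) = S.ob n v (some j) + (a (S.σ (S.l j)) +
        kD S.R S.e S.β (S.σ (S.l j)) * dig S.J S.T (n + 1) (w j)) := fun j => by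
      rw [o1, o2, e1, (b7 n _ (hE _) _ (add_mem (k1 _) (hD j).1)).1, (b7 n _ (k1 _) _ (hD j).1).1,
        k2, (hD j).2]
    have o4 : S.ob n (v + w) none = S.ob n v none + a S.φ := by
      rw [o1, o2, e2, (b7 n _ (hE _) _ (k1 _)).1, k2]
    have := a6 z γ
    simp only [Sy.ph, o3, o4, mul_add, sum_add_distrib] at this ⊢
    simp only [Sy.dt, Sy.R]
    linear_combination this

end Pool.Agent.MP_e23604_nt.T

end
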