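import Mathlib
import Pool.Agent.Mg.Fe23604m.G06f121

set_option linter.all false

namespace Pool.Agent.MP_e23604_nt.T

open Finset Filter NumberField
open MP_f68ac8_nt (cyc IsFrob)
open MP_f68ac8_nt.Zv (Ex Prob piV Unf Bx)
open MP_f68ac8_nt.Zk (NS brL lk msk Av)
open MP_f68ac8_nt.Nd (Lr Fr Gz Exm fP kap np OKp)
open Q (Wn Pre rot0)
open scoped BigOperators Topology

theorem fin_XEigT {G : Type} [Group G] [Finite G] (hp : IsPGroup 3 G) {A : Subgroup G}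
    (hA : A ≠ ⊤) : ∃ χ : G →* Multiplicative (ZMod 3), (∀ g ∈ A, χ g = 1) ∧ ∃ g, χ g ≠ 1 := by
  obtain ⟨n, hn⟩ := IsPGroup.iff_card.1 hp
  obtain ⟨m, hm⟩ := IsPGroup.iff_card.1 (hp.to_subgroup A)
  have h1 : m < n := by
    by_contra h
    refine hA (Subgroup.eq_top_of_le_card _ ?_)
    rw [hn, hm]
    exact Nat.pow_le_pow_right (by norm_num) (not_lt.1 h)
  obtain ⟨n, rfl⟩ : ∃ k, n = k + 1 := ⟨n - 1, by omega⟩
  obtain ⟨K, hK, hAK⟩ := Sylow.exists_subgroup_card_pow_prime_le 3 (m := n)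
    (by rw [hn]; exact pow_dvd_pow 3 n.le_succ) A hm (by omega)
  have h2 : K.index = 3 := by
    have := K.card_mul_index
    rw [hK, hn, pow_succ] at this
    exact Nat.eq_of_mul_eq_mul_left (by positivity) this
  have : K.Normal := Subgroup.normal_of_index_eq_minFac_card (by
    rw [h2, hn, Nat.prime_three.pow_minFac n.succ_ne_zero])
  let e : G ⧸ K ≃* Multiplicative (ZMod 3) := mulEquivOfPrimeCardEq (p := 3) h2 (by simp)
  refine ⟨e.toMonoidHom.comp (QuotientGroup.mk' K), fun g hg => ?_, ?_⟩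
  · rw [MonoidHom.comp_apply, QuotientGroup.mk'_apply, (QuotientGroup.eq_one_iff _).2 (hAK hg),
      map_one]
  · by_contra h
    have h3 : K = ⊤ := eq_top_iff.2 fun g _ => (QuotientGroup.eq_one_iff g).1
      (e.map_eq_one_iff.1 (not_not.1 fun h4 => h ⟨g, h4⟩))
    rw [h3, Subgroup.index_top] at h2
    exact absurd h2 (by norm_num)

theorem chr_XEigT {G : Type} [Group G] {N A : Subgroup G} [N.Normal] [N.FiniteIndex] (hN : N ≤ A)
    (hp : ∀ g : G, ∃ k, g ^ 3 ^ k ∈ N) (hA : A ≠ ⊤) :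
    ∃ χ : G →* Multiplicative (ZMod 3), (∀ g ∈ A, χ g = 1) ∧ ∃ g, χ g ≠ 1 := by
  have hs := QuotientGroup.mk'_surjective N
  have h1 : IsPGroup 3 (G ⧸ N) := fun x => by
    obtain ⟨g, rfl⟩ := hs x
    obtain ⟨k, hk⟩ := hp g
    exact ⟨k, by rw [← map_pow]; exact (QuotientGroup.eq_one_iff _).2 hk⟩
  have h2 : A.map (QuotientGroup.mk' N) ≠ ⊤ := fun e => hA (by
    rw [← Subgroup.comap_map_eq_self (f := QuotientGroup.mk' N) (H := A)
      (by rwa [QuotientGroup.ker_mk']), e, Subgroup.comap_top])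
  obtain ⟨χ, h3, x, hx⟩ := fin_XEigT h1 h2
  obtain ⟨g, rfl⟩ := hs x
  exact ⟨χ.comp (QuotientGroup.mk' N), fun a ha => h3 _ (Subgroup.mem_map_of_mem _ ha), g, hx⟩

theorem ext_XEigT {G : Type} [Group G] {K M H : Subgroup G} [M.Normal] (hM : M.index ≠ 0)
    (hp : ∀ g ∈ K, ∃ k, g ^ 3 ^ k ∈ M) (hMH : M ≤ H) (h : ¬ K ≤ H) :
    ∃ χ : G → ZMod 3, (∀ g ∈ K, ∀ h ∈ K, χ (g * h) = χ g + χ h) ∧ (∀ g ∈ K, g ∈ H → χ g = 0) ∧
      ∃ g ∈ K, χ g ≠ 0 := by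
  classical
  have : M.FiniteIndex := ⟨hM⟩
  obtain ⟨χ, h1, g, hg⟩ := chr_XEigT (N := M.subgroupOf K) (A := H.subgroupOf K)
    (fun _ hx => hMH hx) (fun g => hp g.1 g.2)
    fun e => h (Subgroup.subgroupOf_eq_top.1 e)
  refine ⟨fun g => if h : g ∈ K then (χ ⟨g, h⟩).toAdd else 0, fun a ha b hb => ?_,
    fun a ha hb => ?_, g.1, g.2, ?_⟩
  · simp only [dif_pos ha, dif_pos hb, dif_pos (K.mul_mem ha hb)]
    rw [← toAdd_mul, ← map_mul]
    rfl
  · simp only [dif_pos ha]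
    rw [h1 ⟨a, ha⟩ hb, toAdd_one]
  · simp only [dif_pos g.2]
    exact fun e => hg (toAdd_eq_zero.1 e)

theorem x_EigT : EigT := by
  classical
  rintro G _ K M H hK hM hi h2 hp hMH ⟨c, hc, hcK⟩ hH
  have hc' : c⁻¹ ∉ K := fun e => hcK (K.inv_mem_iff.1 e)
  have hKH : ¬ K ≤ H := fun e => hH (eq_top_iff.2 fun g _ => by
    by_cases hg : g ∈ K
    · exact e hg
    · exact (H.mul_mem_cancel_right (H.inv_mem hc)).1 (e (h2 g hg _ hc')))
  obtain ⟨χ, a1, a2, g0, hg0, a3⟩ := ext_XEigT hi hp hMH hKH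
  have hcc := h2 c hcK c hcK
  have a4 : ∀ g ∈ K, χ (c * (c * g * c⁻¹) * c⁻¹) = χ g := by
    intro g hg
    rw [show c * (c * g * c⁻¹) * c⁻¹ = c * c * g * (c * c)⁻¹ by group,
      a1 _ (K.mul_mem hcc hg) _ (K.inv_mem hcc), a1 _ hcc g hg, a2 _ hcc (H.mul_mem hc hc),
      a2 _ (K.inv_mem hcc) (H.inv_mem (H.mul_mem hc hc)), zero_add, add_zero]
  obtain ⟨ε, hε, a5⟩ : ∃ ε : ZMod 3, (ε = 1 ∨ ε = -1) ∧ χ g0 + ε * χ (c * g0 * c⁻¹) ≠ 0 := by
    by_contra h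
    have e1 := not_not.1 fun e => h ⟨1, Or.inl rfl, e⟩
    have e2 := not_not.1 fun e => h ⟨-1, Or.inr rfl, e⟩
    have e3 : (3 : ZMod 3) = 0 := rfl
    exact a3 (by linear_combination -e1 - e2 + χ g0 * e3)
  have hε2 : ε * ε = 1 := by rcases hε with rfl | rfl <;> simp
  obtain ⟨ψ, hψ⟩ : ∃ ψ : G → ZMod 3, ∀ g, ψ g = χ g + ε * χ (c * g * c⁻¹) := ⟨_, fun _ => rfl⟩
  have b1 : ∀ g ∈ K, ∀ h ∈ K, ψ (g * h) = ψ g + ψ h := by
    intro g hg h hh
    rw [hψ, hψ, hψ, show c * (g * h) * c⁻¹ = c * g * c⁻¹ * (c * h * c⁻¹) by group, a1 g hg h hh,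
      a1 _ (hK.conj_mem g hg c) _ (hK.conj_mem h hh c)]
    ring
  have b2 : ∀ g ∈ K, g ∈ H → ψ g = 0 := by
    intro g hg hh
    rw [hψ, a2 g hg hh, a2 _ (hK.conj_mem g hg c) (H.mul_mem (H.mul_mem hc hh) (H.inv_mem hc)),
      mul_zero, add_zero]
  have b3 : ∀ g ∈ K, ψ (c * g * c⁻¹) = ε * ψ g := by
    intro g hg
    rw [hψ, hψ, a4 g hg]
    linear_combination -χ (c * g * c⁻¹) * hε2
  refine ⟨fun g => if g ∈ K then ψ g else ψ (g * c⁻¹), ε, hε, fun g h => ?_, fun g hg => ?_,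
    g0, hg0, ?_⟩
  · by_cases hg : g ∈ K <;> by_cases hh : h ∈ K
    · simp only [hg, hh, K.mul_mem hg hh, if_true]
      rw [b1 g hg h hh, one_mul]
    · simp only [hg, hh, K.mul_mem_cancel_left hg, if_true, if_false]
      rw [mul_assoc, b1 g hg _ (h2 h hh _ hc'), one_mul]
    · simp only [hg, hh, K.mul_mem_cancel_right hh, if_true, if_false]
      rw [show g * h * c⁻¹ = g * c⁻¹ * (c * h * c⁻¹) by group,
        b1 _ (h2 g hg _ hc') _ (hK.conj_mem h hh c), b3 h hh]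
    · simp only [hg, hh, h2 g hg h hh, if_true, if_false]
      have h3 := h2 h hh _ hc'
      have h4 := hK.conj_mem _ h3 c
      rw [show g * h = g * c⁻¹ * (c * (h * c⁻¹) * c⁻¹) * (c * c) by group,
        b1 _ (K.mul_mem (h2 g hg _ hc') h4) _ hcc, b1 _ (h2 g hg _ hc') _ h4, b3 _ h3,
        b2 _ hcc (H.mul_mem hc hc), add_zero]
  · by_cases h : g ∈ K
    · simp only [h, if_true]
      exact b2 g h hg
    · simp only [h, if_false]
      exact b2 _ (h2 g h _ hc') (H.mul_mem hg (H.inv_mem hc))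
  · simp only [hg0, if_true]
    rwa [hψ]

end Pool.Agent.MP_e23604_nt.T
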