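import Mathlib
import Pool.Agent.Mg.Fe23604m.G06f121

set_option linter.all false

section

namespace Pool.Agent.MP_e23604_nt.T

open Finset Filter NumberField
open MP_f68ac8_nt (cyc IsFrob)
open MP_f68ac8_nt.Zv (Ex Prob piV Unf Bx)
open MP_f68ac8_nt.Zk (NS brL lk msk Av)
open MP_f68ac8_nt.Nd (Lr Fr Gz Exm fP kap np OKp)
open Q (Wn Pre rot0)
open scoped BigOperators Topology

theorem sub_XLcT {d : ℕ} {R S J : Finset (Fin d)} (h : R ⊆ S) (hJ : J ⊆ R ∨ Rᶜ ⊆ J) :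
    J ⊆ S ∨ Sᶜ ⊆ J :=
  hJ.imp (fun h' => h'.trans h) fun h' => (Finset.compl_subset_compl.2 h).trans h'

section
variable {P : Type} [Group P] {F : ℕ → Subgroup P}

theorem univ_XLcT {d : ℕ} (x : Fin d → P) : msk Finset.univ x = x := by
  funext i; simp [msk]

theorem full_XLcT (hCubM : CubM) (hC : MP_f68ac8_nt.Zk.CornStmt) (hF : NS F)
    (hN : ∀ k, (F k).Normal) {d : ℕ} {Λ B : Type} (x : Fin d → P) (x0 : B → P)
    (q q' : Fin d → Λ) (w w' : FreeGroup (Λ ⊕ B)) (hx : ∀ j, x j ∈ F 1) (R : Finset (Fin d))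
    (hR : R.Nonempty)
    (h : ∀ J : Finset (Fin d), J ⊆ R ∨ Rᶜ ⊆ J → (∃ s ∈ R, s ∉ J) →
      FreeGroup.lift (vT q (msk J x) x0) w = FreeGroup.lift (vT q' (msk J x) x0) w') :
    (FreeGroup.lift (vT q' x x0) w')⁻¹ * FreeGroup.lift (vT q x x0) w ∈ F R.card := by
  have hJ : ∀ j, (∀ ω, j ∈ Rᶜ ∪ ω) ∨ (∀ ω, j ∉ Rᶜ ∪ ω) ∨
      ∃ s ∈ R, ∀ ω, j ∈ Rᶜ ∪ ω ↔ s ∈ ω := fun j => by
    by_cases hj : j ∈ R
    · exact Or.inr (Or.inr ⟨j, hj, fun ω => by simp [hj]⟩)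
    · exact Or.inl fun ω => by simp [hj]
  have h0 : ∀ ω ⊆ R, ω ≠ R → FreeGroup.lift (vT q (msk (Rᶜ ∪ ω) x) x0) w =
      FreeGroup.lift (vT q' (msk (Rᶜ ∪ ω) x) x0) w' := fun ω hω hne => by
    obtain ⟨s, hs, hs'⟩ := Finset.exists_of_ssubset (lt_of_le_of_ne hω hne)
    exact h _ (Or.inr Finset.subset_union_left) ⟨s, hs, by simp [hs, hs']⟩
  have hc := hCubM P F hF hN d Λ B (Fin d) R x x0 q q' w w' (fun ω => Rᶜ ∪ ω) hx hJ
    ⟨∅, h0 ∅ (Finset.empty_subset _) hR.ne_empty.symm⟩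
  have := hC P F hF (Fin d) R _ hc fun ω hω hne => by
    simp only [h0 ω hω hne, inv_mul_cancel]
  have e : Rᶜ ∪ R = Finset.univ := by ext j; simp [em']
  simpa only [e, univ_XLcT, max_eq_right (Finset.one_le_card.2 hR)] using this

theorem low_XLcT (hCubM : CubM) (hC : MP_f68ac8_nt.Zk.CornStmt) (hF : NS F)
    (hN : ∀ k, (F k).Normal) {d : ℕ} {Λ B : Type} (x : Fin d → P) (x0 : B → P)
    (q q' : Fin d → Λ) (w w' : FreeGroup (Λ ⊕ B)) (hx : ∀ j, x j ∈ F 1) (R : Finset (Fin d))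
    (hR : R.Nonempty)
    (h : ∀ J : Finset (Fin d), J ⊆ R ∨ Rᶜ ⊆ J → (∃ s ∈ R, s ∉ J) →
      FreeGroup.lift (vT q (msk J x) x0) w = FreeGroup.lift (vT q' (msk J x) x0) w') :
    (FreeGroup.lift (vT q' (msk R x) x0) w')⁻¹ * FreeGroup.lift (vT q (msk R x) x0) w ∈
      F R.card := by
  have hJ : ∀ j, (∀ ω, j ∈ ω ∩ R) ∨ (∀ ω, j ∉ ω ∩ R) ∨
      ∃ s ∈ R, ∀ ω, j ∈ ω ∩ R ↔ s ∈ ω := fun j => by
    by_cases hj : j ∈ R
    · exact Or.inr (Or.inr ⟨j, hj, fun ω => by simp [hj]⟩)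
    · exact Or.inr (Or.inl fun ω => by simp [hj])
  have h0 : ∀ ω ⊆ R, ω ≠ R → FreeGroup.lift (vT q (msk (ω ∩ R) x) x0) w =
      FreeGroup.lift (vT q' (msk (ω ∩ R) x) x0) w' := fun ω hω hne => by
    obtain ⟨s, hs, hs'⟩ := Finset.exists_of_ssubset (lt_of_le_of_ne hω hne)
    exact h _ (Or.inl Finset.inter_subset_right) ⟨s, hs, by simp [hs']⟩
  have hc := hCubM P F hF hN d Λ B (Fin d) R x x0 q q' w w' (fun ω => ω ∩ R) hx hJ
    ⟨∅, h0 ∅ (Finset.empty_subset _) hR.ne_empty.symm⟩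
  have := hC P F hF (Fin d) R _ hc fun ω hω hne => by
    simp only [h0 ω hω hne, inv_mul_cancel]
  simpa only [Finset.inter_self, max_eq_right (Finset.one_le_card.2 hR)] using this

theorem conj_XLcT {H : Subgroup P} (hH : H.Normal) {ψ φ : P → ZMod 3}
    (a1 : ∀ a ∈ H, ∀ b ∈ H, ψ (a * b) = ψ a + ψ b) (a3 : ∀ a ∈ H, ∀ b, ψ (b * a * b⁻¹) = ψ a)
    (hφ : ∀ a ∈ H, ∀ b, φ (a * b) = ψ a + φ b) {G G' Y Y' : P} (hc : G'⁻¹ * G ∈ H)
    (ha : Y'⁻¹ * Y ∈ H) : φ (G * Y * G⁻¹) = ψ (Y'⁻¹ * Y) + φ (G' * Y' * G'⁻¹) := by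
  have h1 : Y'⁻¹ * Y * (G'⁻¹ * G)⁻¹ ∈ H := mul_mem ha (inv_mem hc)
  have h2 := hH.conj_mem _ h1 Y'
  have h3 := mul_mem hc h2
  have h4 := hH.conj_mem _ h3 G'
  have e : G * Y * G⁻¹ = G' * (G'⁻¹ * G * (Y' * (Y'⁻¹ * Y * (G'⁻¹ * G)⁻¹) * Y'⁻¹)) * G'⁻¹ *
      (G' * Y' * G'⁻¹) := by group
  have e1 := a1 _ h1 _ hc
  rw [inv_mul_cancel_right] at e1
  rw [e, hφ _ h4, a3 _ h3, a1 _ hc _ h2, a3 _ h1, e1, add_comm (ψ (G'⁻¹ * G))]

end

theorem x_LcT (hCubM : CubM) (hMixT : MixT) (hCornStmt : MP_f68ac8_nt.Zk.CornStmt) : LcT := by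
  intro P _ F hF hN d Λ B O S t x x0 ψ φ q q' y y' g g' hS ht hx a1 a2 a3 hφ hy hg
  have hm : 1 ≤ S.card := Finset.card_pos.2 hS
  have hcard : (insert t S).card = S.card + 1 := Finset.card_insert_of_notMem ht
  have hc : ∀ i, (FreeGroup.lift (vT q' x x0) (y' i))⁻¹ * FreeGroup.lift (vT q x x0) (y i) ∈
      F S.card := by
    intro i
    obtain ⟨R, hR, hRc, hRi⟩ : ∃ R ⊆ insert t S, R.card = S.card ∧ ∀ s ∈ R, i ≠ Sum.inl s := by
      rcases i with j | o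
      · obtain ⟨R, hR, hRc⟩ := Finset.exists_subset_card_eq (s := (insert t S).erase j)
          (n := S.card)
          (by have := Finset.pred_card_le_card_erase (s := insert t S) (a := j); omega)
        exact ⟨R, hR.trans (Finset.erase_subset _ _), hRc, fun s hs e =>
          Finset.ne_of_mem_erase (hR hs) (Sum.inl_injective e).symm⟩
      · exact ⟨S, Finset.subset_insert _ _, rfl, fun s _ => Sum.inr_ne_inl⟩
    have := full_XLcT hCubM hCornStmt hF hN x x0 q q' (y i) (y' i) hx R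
      (Finset.card_pos.1 (by omega)) fun J hJ ⟨s, hs, hs'⟩ =>
        hy i J (sub_XLcT hR hJ) ⟨s, hR hs, hs', hRi s hs⟩
    rwa [hRc] at this
  refine ⟨hc, fun i hi hit => ?_, ?_⟩
  · have := full_XLcT hCubM hCornStmt hF hN x x0 q q' (y i) (y' i) hx (insert t S)
      (Finset.insert_nonempty _ _) fun J hJ ⟨s, hs, hs'⟩ =>
        hy i J hJ ⟨s, hs, hs', (Finset.mem_insert.1 hs).elim (fun e => e ▸ hit) (hi s)⟩
    rwa [hcard] at this
  · have hne : ∀ s ∈ S, (Sum.inl t : Fin d ⊕ O) ≠ Sum.inl s := fun s hs e =>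
      ht (Sum.inl_injective e ▸ hs)
    have hy' : ∀ J : Finset (Fin d), J ⊆ S ∨ Sᶜ ⊆ J → (∃ s ∈ S, s ∉ J) →
        FreeGroup.lift (vT q (msk J x) x0) (y (Sum.inl t)) =
          FreeGroup.lift (vT q' (msk J x) x0) (y' (Sum.inl t)) := fun J hJ ⟨s, hs, hs'⟩ =>
      hy _ J (sub_XLcT (Finset.subset_insert t S) hJ)
        ⟨s, Finset.mem_insert_of_mem hs, hs', hne s hs⟩
    have hg' : ∀ J : Finset (Fin d), J ⊆ S ∨ Sᶜ ⊆ J → (∃ s ∈ S, s ∉ J) →
        FreeGroup.lift (vT q (msk J x) x0) (g (Sum.inl t)) =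
          FreeGroup.lift (vT q' (msk J x) x0) (g' (Sum.inl t)) := fun J hJ ⟨s, hs, hs'⟩ =>
      hg _ J (sub_XLcT (Finset.subset_insert t S) hJ)
        ⟨s, Finset.mem_insert_of_mem hs, hs', hne s hs⟩
    have ha := low_XLcT hCubM hCornStmt hF hN x x0 q q' _ _ hx S hS hy'
    have hγ := low_XLcT hCubM hCornStmt hF hN x x0 q q' _ _ hx S hS hg'
    have hac := hMixT P F hF hN d Λ B S t x x0 q q' _ _ hS ht hx hy'
    have e2 := a1 _ ha _ (hF.anti _ _ hm (Nat.le_succ _) hac)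
    rw [mul_inv_cancel_left, a2 _ hac, add_zero] at e2
    simp only [map_mul, map_inv]
    rw [e2]
    exact conj_XLcT (hN _) a1 a3 hφ hγ ha

end Pool.Agent.MP_e23604_nt.T

end

section

namespace Pool.Agent.MP_e23604_nt.T

open Finset Filter NumberField
open MP_f68ac8_nt (cyc IsFrob)
open MP_f68ac8_nt.Zv (Ex Prob piV Unf Bx)
open MP_f68ac8_nt.Zk (NS brL lk msk Av)
open MP_f68ac8_nt.Nd (Lr Fr Gz Exm fP kap np OKp)
open Q (Wn Pre rot0)
open scoped BigOperators Topology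

theorem ev_XNumT (ε : ℝ) (K : ℕ) (hε : 0 < ε) :
    ∃ k₀ : ℕ, ∀ k ≥ k₀, (K * (400 * k) ^ K : ℝ) ≤ ε * 3 ^ k := by
  have h := (tendsto_pow_const_div_const_pow_of_one_lt K (r := 3) (by norm_num)).const_mul
    ((K : ℝ) * 400 ^ K)
  rw [mul_zero] at h
  obtain ⟨k₀, hk⟩ := eventually_atTop.1 (h.eventually (ge_mem_nhds hε))
  refine ⟨k₀, fun k h1 => ?_⟩
  have h2 := hk k h1
  rw [← mul_div_assoc, div_le_iff₀ (by positivity)] at h2
  rwa [mul_pow, ← mul_assoc]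

theorem x_NumT : NumT := by
  intro ε K hε
  obtain ⟨k₀, hk⟩ := ev_XNumT ε K hε
  refine ⟨200 * (k₀ + 1), fun d lv sp h => ?_⟩
  have hM : ∀ a, (univ.filter fun j => lv j = a).card ≤ d / 10000 := fun a => by
    have := h.lev a
    omega
  have e1 : (Bn lv sp true).card + (Bn lv sp false).card + (Ex0 lv).card = d := by
    simp only [Bn, Ex0, card_filter, ← sum_add_distrib]
    refine (sum_congr rfl fun j _ => (?_ : _ = 1)).trans (by simp)
    by_cases h1 : 2 ≤ lv j <;> cases sp j <;> simp [h1, not_lt.2, not_le.1]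
  have e2 : n1 sp + n2 sp = d := by
    simp only [n1, n2, card_filter, ← sum_add_distrib]
    refine (sum_congr rfl fun j _ => (?_ : _ = 1)).trans (by simp)
    cases sp j <;> simp
  refine ⟨e1, card_le_card fun j hj => ?_, (card_le_card fun j hj => ?_).trans (card_union_le _ _),
    e2, d / 10000, hM, ?_, fun b => ?_⟩
  · simp only [Bn, mem_filter, mem_univ, true_and] at hj ⊢
    exact hj.2
  · simp only [Bn, Ex0, mem_union, mem_filter, mem_univ, true_and] at hj ⊢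
    rcases le_or_gt 2 (lv j) with h1 | h1
    exacts [Or.inl ⟨h1, hj⟩, Or.inr h1]
  · have h1 : Ex0 lv ⊆ (univ.filter fun j => lv j = 0) ∪ univ.filter fun j => lv j = 1 :=
      fun j hj => by
        simp only [Ex0, mem_union, mem_filter, mem_univ, true_and] at hj ⊢
        omega
    have h2 := (card_le_card h1).trans (card_union_le _ _)
    have h3 := hM 0
    have h4 := hM 1
    omega
  have h1 : d ≤ 100 * (Bn lv sp b).card := by
    cases b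
    exacts [h.ine, h.spl]
  have h2 := h.big
  refine ⟨card_pos.1 (by omega), ?_⟩
  have h3 := hk (d / 200) (by omega)
  have h4 : (d + 1 : ℝ) ≤ 400 * (d / 200 : ℕ) := by
    have : d + 1 ≤ 400 * (d / 200) := by omega
    exact_mod_cast this
  have h5 : (3 : ℝ) ^ (d / 200 + 12 * (d / 10000)) ≤ 3 ^ (Bn lv sp b).card :=
    pow_le_pow_right₀ (by norm_num) (by omega)
  calc (K * (d + 1) ^ K * 3 ^ (12 * (d / 10000)) : ℝ)
      ≤ K * (400 * (d / 200 : ℕ)) ^ K * 3 ^ (12 * (d / 10000)) := by gcongr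
    _ ≤ ε * 3 ^ (d / 200) * 3 ^ (12 * (d / 10000)) := by gcongr
    _ ≤ ε * 3 ^ (Bn lv sp b).card := by
      rw [mul_assoc, ← pow_add]
      gcongr

end Pool.Agent.MP_e23604_nt.T

end
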