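import Mathlib
import Pool.Agent.Mg.Fe23604m.G06f121

set_option linter.all false

section

namespace Pool.Agent.MP_e23604_nt.T

open Finset Filter NumberField
open MP_f68ac8_nt (cyc IsFrob)
open MP_f68ac8_nt.Zv (Ex Prob piV Unf Bx)
open MP_f68ac8_nt.Zk (NS brL lk msk Av)
open MP_f68ac8_nt.Nd (Lr Fr Gz Exm fP kap np OKp)
open Q (Wn Pre rot0)
open scoped BigOperators Topology

theorem cons_XBrT {G : Type} [Group G] (x : G) {l : List G} (h : l ≠ []) :
    brL (x :: l) = x * brL l * x⁻¹ * (brL l)⁻¹ := by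
  cases l with
  | nil => exact absurd rfl h
  | cons y l => rfl

theorem com_XBrT {V : Type} [AddCommGroup V] {J : V ≃ₗ[ℤ] V} {m : ℕ} (a b : Pm J m) (c : V)
    (h : ∀ z, a.1 (b.1 z) = b.1 (a.1 z) + c) (y : V) : (a * b * a⁻¹ * b⁻¹).1 y = y + c := by
  obtain ⟨z, rfl⟩ := (b * a).1.surjective y
  have e : a * b * a⁻¹ * b⁻¹ * (b * a) = a * b := by group
  exact (congrArg (fun g : Pm J m => g.1 z) e).trans (h z)

theorem om_XBrT {V : Type} [AddCommGroup V] (J : V ≃ₗ[ℤ] V) (u : V) : Q.om J u = J u - u := rfl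

theorem x_BrT (hBasT : BasT) (hFilT : FilT) : BrT := by
  intro V _ J T hJ m l v₁ v₂ hl h1 h2 h3 hm
  have hr := fun v hv => ((hFilT V J T hJ m).2.2.2.1 v hv).1
  have ho := (hBasT V J T hJ).2.2.1
  induction l with
  | nil =>
    obtain ⟨k, rfl⟩ : ∃ k, m = k + 2 := ⟨m - 2, by simp only [List.length_nil] at hm; omega⟩
    refine ⟨Q.om J (Q.om J (v₁ - v₂)), (ho (k + 1) _).2 ((ho (k + 2) _).2 (sub_mem h1 h2)),
      fun h => h3 ((ho (k + 1) _).1 ((ho k _).1 h)),
      com_XBrT (rot J (k + 2) v₁) (rot J (k + 2) v₂) _ fun z => ?_⟩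
    simp only [hr _ h1, hr _ h2, om_XBrT, map_add, map_sub]
    abel
  | cons x l ih =>
    rw [List.length_cons] at hm ⊢
    obtain ⟨c, c1, c2, c3⟩ := ih (fun v hv => hl v (List.mem_cons_of_mem _ hv)) (by omega)
    refine ⟨Q.om J c, (ho _ _).2 ?_, fun h => c2 ?_, ?_⟩
    · rwa [show m - 1 - (l.length + 1) + 1 = m - 1 - l.length by omega]
    · have h' := (ho _ _).1 h
      rwa [show m - 2 - (l.length + 1) + 1 = m - 2 - l.length by omega] at h'
    · rw [List.cons_append, List.map_cons, cons_XBrT _ (by simp)]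
      refine com_XBrT _ _ _ fun z => ?_
      simp only [c3, hr _ (hl x List.mem_cons_self), om_XBrT, map_add, map_sub]
      abel

end Pool.Agent.MP_e23604_nt.T

end

section

namespace Pool.Agent.MP_e23604_nt.T

open Finset Filter NumberField
open MP_f68ac8_nt (cyc IsFrob)
open MP_f68ac8_nt.Zv (Ex Prob piV Unf Bx)
open MP_f68ac8_nt.Zk (NS brL lk msk Av)
open MP_f68ac8_nt.Nd (Lr Fr Gz Exm fP kap np OKp)
open Q (Wn Pre rot0)
open scoped BigOperators Topology

theorem alg_XZeB {d : ℕ} (E y z r : V3 d) (ρ : Fin d → V3 d) (β γ : ZMod 3) :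
    ∑ i, E i * z i * (y i * β * r i + ∑ k, (-(y k * E k) * ρ i k + y i * E k * ρ k i)) +
      γ * ∑ k, -(y k * E k) * r k =
    -∑ j, E j * y j * (∑ i, E i * ρ i j * (z i - z j) + (γ - β * z j) * r j) := by
  have h1 : ∑ i, ∑ k, E i * z i * (-(y k * E k) * ρ i k) =
      ∑ k, ∑ i, E i * z i * (-(y k * E k) * ρ i k) := sum_comm
  simp only [mul_add, mul_sum, sum_add_distrib, h1, ← sum_neg_distrib, neg_add]
  simp only [← sum_add_distrib]
  refine sum_congr rfl fun j _ => ?_
  have h2 : ∑ i, (E i * z i * (-(y j * E j) * ρ i j) + E j * z j * (y j * E i * ρ i j)) =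
      ∑ i, -(E j * y j * (E i * ρ i j * (z i - z j))) := sum_congr rfl fun i _ => by ring
  rw [h2]
  ring

theorem sq_XZeB : ∀ a : ZMod 3, a ≠ 0 → a * a = 1 := by decide

theorem x_ZeB (hValC : ValC) (hDecT : DecT) : ZeB := by
  intro d σ τ e β l hT hl hp y φ hy hφ
  obtain ⟨d1, d2, -, d4⟩ := hDecT
  have cs : ∀ k, y k = 0 ∨ l k % 3 = 1 := fun k => (em _).symm.imp_left (hy k)
  have hC := fun k => hValC.1 (l k) (hp k).1
  have n3 : ∀ k, (l k : 𝓞 Qb) ∉ P3 := fun k h =>
    (hp k).2 (((d4 P3 d1).2.2.2.2 3 Nat.prime_three d2).1 _ (hp k).1 h)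
  have loc : ∀ i k, k ≠ i → l k % 3 = 1 →
      ch (l k) (τ (l i)) = 0 ∧ ch (l k) (σ (l i)) = rh (l i) (l k) := fun i k hk h => by
    obtain ⟨P, p1, p2, p3, p4⟩ := (hT _ (hp i)).ex
    have h1 := (hC k h).2.2 P p1 fun h2 =>
      hk (hl (((d4 P p1).2.2.2.2 _ (hp i).1 p2).1 _ (hp k).1 h2))
    exact ⟨h1.1 _ p4, h1.2 _ _ (hp i).1 p2 p3⟩
  refine ⟨fun g => ∑ k, -(y k * e (l k)) * ch (l k) g, ?_, fun g h => ?_,
    fun P hP g hg => sum_eq_zero fun k _ => ?_, fun g hg => sum_eq_zero fun k _ => ?_,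
    fun j => ?_, fun z γ => ?_⟩
  · refine (IsLocallyConstant.iff_eventually_eq _).2 fun g => ?_
    have h1 : ∀ᶠ x in 𝓝 g, ∀ k, -(y k * e (l k)) * ch (l k) x = -(y k * e (l k)) * ch (l k) g :=
      eventually_all.2 fun k => by
        rcases cs k with h | h
        · simp [h]
        · filter_upwards [(hC k h).1.eventually_eq g] with x hx
          rw [hx]
    filter_upwards [h1] with x hx
    exact sum_congr rfl fun k _ => hx k
  · rw [← sum_add_distrib]
    refine sum_congr rfl fun k _ => ?_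
    rcases cs k with h1 | h1
    · simp [h1]
    · rw [(hC k h1).2.1, mul_add]
  · rcases cs k with h | h
    · simp [h]
    · rw [((hC k h).2.2 P hP.1 (hP.2.2 _ (mem_image_of_mem _ (mem_univ k)))).1 g hg, mul_zero]
  · rcases cs k with h | h
    · simp [h]
    · rw [((hC k h).2.2 P3 d1 (n3 k)).1 g hg, mul_zero]
  · dsimp only
    rw [sum_eq_single j (fun k _ hk => ?_) fun h => absurd (mem_univ j) h]
    · rcases cs j with h | h
      · simp [h]
      · rw [((hT _ (hp j)).spl h).1, neg_mul, mul_assoc, sq_XZeB _ (hT _ (hp j)).ne, mul_one]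
    · rcases cs k with h | h
      · simp [h]
      · rw [(loc j k hk h).1, mul_zero]
  have e1 : ∑ k, -(y k * e (l k)) * ch (l k) φ = ∑ k, -(y k * e (l k)) * rh 3 (l k) :=
    sum_congr rfl fun k _ => by
      rcases cs k with h | h
      · simp [h]
      · rw [((hC k h).2.2 P3 d1 (n3 k)).2 3 φ Nat.prime_three d2 hφ]
  have e2 : ∀ i, ∑ k, -(y k * e (l k)) * ch (l k) (σ (l i)) +
      kD (univ.image l) e β (σ (l i)) * y i = y i * β * rh 3 (l i) +
      ∑ k, (-(y k * e (l k)) * rh (l i) (l k) + y i * e (l k) * rh (l k) (l i)) := fun i => by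
    have a1 : ∀ m : ℕ, m.Prime → m ≠ l i → y i * kk m (σ (l i)) = y i * rh m (l i) :=
      fun m h1 h2 => by
        rcases cs i with h | h
        · simp [h]
        · rw [((hT _ (hp i)).spl h).2.2 m h1 h2, rh, if_pos h]
    have a2 : ∑ k, (-(y k * e (l k)) * ch (l k) (σ (l i)) + e (l k) * kk (l k) (σ (l i)) * y i) =
        ∑ k, (-(y k * e (l k)) * rh (l i) (l k) + y i * e (l k) * rh (l k) (l i)) :=
      sum_congr rfl fun k _ => by
        rcases eq_or_ne k i with rfl | hk
        · rcases cs k with h | h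
          · simp [h]
          · rw [((hT _ (hp k)).spl h).2.1]
            ring
        · have a3 := a1 _ (hp k).1 fun h => hk (hl h)
          rcases cs k with h | h
          · rw [h]
            linear_combination e (l k) * a3
          · rw [(loc i k hk h).2]
            linear_combination e (l k) * a3
    rw [kD, sum_image fun a _ b _ h => hl h, add_mul, sum_mul, ← a2, sum_add_distrib]
    linear_combination β * a1 3 Nat.prime_three (hp i).2.symm
  simp only [e1, e2]
  rw [alg_XZeB (fun k => e (l k)) y z (fun k => rh 3 (l k)) (fun i k => rh (l i) (l k)) β γ,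
    sum_filter]
  refine congrArg Neg.neg (sum_congr rfl fun j _ => ?_)
  rcases cs j with h | h
  · simp [h]
  · rw [if_pos (show (dtl e l).sp j = true from decide_eq_true h), Dt.Kf,
      sum_erase _ (by rw [sub_self, mul_zero])]
    rfl

end Pool.Agent.MP_e23604_nt.T

end
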