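import Mathlib
import Pool.Agent.Mg.Fe23604m.G06f121
import Pool.Agent.Mg.Fe23604m.G03d5b4

set_option linter.all false

namespace Pool.Agent.MP_e23604_nt.T

open Finset Filter NumberField
open MP_f68ac8_nt (cyc IsFrob)
open MP_f68ac8_nt.Zv (Ex Prob piV Unf Bx)
open MP_f68ac8_nt.Zk (NS brL lk msk Av)
open MP_f68ac8_nt.Nd (Lr Fr Gz Exm fP kap np OKp)
open Q (Wn Pre rot0)
open scoped BigOperators Topology

open MP_f68ac8_nt.Zv (corr_ZcEqa avg_ZcEqa piV_ZcEqa)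
open MP_f68ac8_nt.Zk (facts_ZmEqP FC_move_ZmEqP Av_shift_ZmEqP)
open MP_f68ac8_nt.Nd (index_NdEqa Ad0)

section
variable {P Λ B : Type} [Group P] {d : ℕ} {S : Finset (Fin d)} (x : Fin d → P) (x0 : B → P)
  (q₀ q₁ : Fin d → Λ)

lemma inter_XEqaT (hV : VtT) (ω : Finset (Fin d)) :
    vC S x x0 q₀ q₁ ω = vC S x x0 q₀ q₁ (ω ∩ S) := by
  refine (hV d P Λ B _ _ x0).2.2.2.1 _ fun j hj => ?_
  have hS : j ∈ S := by
    by_contra e
    exact hj (if_neg e)
  by_cases hω : j ∈ ω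
  · rw [Finset.piecewise_eq_of_mem _ _ _ hω,
      Finset.piecewise_eq_of_mem _ _ _ (mem_inter.2 ⟨hω, hS⟩)]
  · rw [Finset.piecewise_eq_of_notMem _ _ _ hω,
      Finset.piecewise_eq_of_notMem _ _ _ fun e => hω (mem_inter.1 e).1]

lemma card_XEqaT (hV : VtT) [Fintype P] :
    Nat.card (piV (vC S x x0 q₀ q₁)).range ≤ Fintype.card P ^ 2 ^ S.card := by
  have h1 : ∀ v ω, piV (vC S x x0 q₀ q₁) v ω = piV (vC S x x0 q₀ q₁) v (ω ∩ S) := fun v ω => by
    rw [piV_ZcEqa, piV_ZcEqa, inter_XEqaT x x0 q₀ q₁ hV ω]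
  have h2 : Function.Injective fun (h : (piV (vC S x x0 q₀ q₁)).range) (ω : S.powerset) =>
      h.1 ω.1 := by
    rintro ⟨_, v, rfl⟩ ⟨_, v', rfl⟩ e
    refine Subtype.ext (funext fun ω => ?_)
    exact (h1 v ω).trans ((congrFun e ⟨ω ∩ S, mem_powerset.2 inter_subset_right⟩).trans
      (h1 v' ω).symm)
  refine (Nat.card_le_card_of_injective _ h2).trans ?_
  rw [Nat.card_fun, Nat.card_eq_fintype_card, Nat.card_eq_fintype_card, Fintype.card_coe,
    card_powerset]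

lemma one_XEqaT (hV : VtT) (ω : Finset (Fin d)) {l : Λ} (h : ∀ j ∈ S, l ≠ q₀ j ∧ l ≠ q₁ j) :
    vC S x x0 q₀ q₁ ω (Sum.inl l) = 1 := by
  refine (hV d P Λ B _ _ x0).2.1 l fun j hj => if_neg fun hS => ?_
  by_cases hω : j ∈ ω
  · rw [Finset.piecewise_eq_of_mem _ _ _ hω] at hj
    exact (h j hS).2 hj.symm
  · rw [Finset.piecewise_eq_of_notMem _ _ _ hω] at hj
    exact (h j hS).1 hj.symm

end

lemma sum_XEqaT {G : Type} [Group G] {φ : G → ℂ} {z : G} {c : ZMod 3} (hc : c ≠ 0)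
    (h : ∀ g, φ (z * g) = ZMod.stdAddChar c * φ g) (g : G) :
    ∑ i ∈ range 3, φ (z ^ i * g) = 0 := by
  have h1 : (ZMod.stdAddChar c : ℂ) ≠ 1 := fun e =>
    hc (ZMod.injective_stdAddChar (by rw [e, AddChar.map_zero_eq_one]))
  have h2 : (ZMod.stdAddChar c : ℂ) ^ 3 = 1 := by
    rw [← AddChar.map_nsmul_eq_pow, nsmul_eq_mul, ZMod.natCast_self, zero_mul,
      AddChar.map_zero_eq_one]
  simp only [sum_range_succ, range_zero, sum_empty, pow_succ', pow_zero, mul_one, one_mul,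
    mul_assoc, h]
  refine mul_left_cancel₀ (sub_ne_zero.2 h1) ?_
  linear_combination φ g * h2

theorem x_EqaT (hWmT : WmT) (hSgT : SgT) (hVtT : VtT) (hGzP : MP_f68ac8_nt.Nd.GzP 3) : EqaT := by
  classical
  intro P _ _ L Q c n r D η hOk hn hr' B σ τ bb N hA 𝓡 _ _ s hs wd hwd d μ t S ht hS hLc
    x x0 q₀ q₁ κ hw hSh
  obtain ⟨-, -, w3⟩ := (hWmT Q c n r D η hOk).2 d μ
  obtain ⟨-, -, -, s4, -, s6, -⟩ := hSgT
  have hcd := card_XEqaT (S := S) x x0 q₀ q₁ hVtT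
  have hone := fun ω l => one_XEqaT (S := S) x x0 q₀ q₁ hVtT ω (l := l)
  generalize vC S x x0 q₀ q₁ = V at hSh hcd hone ⊢
  obtain ⟨R, hR⟩ : ∃ R : Finset ℕ,
      R = (S.image fun j => (q₀ j : ℕ)) ∪ S.image fun j => (q₁ j : ℕ) := ⟨_, rfl⟩
  have hN := hA.adm.nrm
  obtain ⟨lt, hlt⟩ : ∃ lt, lt = FreeGroup.lift (ltr Q.Λ τ bb) := ⟨_, rfl⟩
  rw [← hlt] at hs hwd
  have hr : (corr_ZcEqa lt (piV V) N hN).map (MonoidHom.snd _ _) = (piV V).range := by
    ext h
    constructor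
    · rintro ⟨z, ⟨v, h1, -⟩, rfl⟩
      exact ⟨v, h1⟩
    · rintro ⟨v, rfl⟩
      exact ⟨(lt v, piV V v), ⟨v, rfl, by simp⟩, rfl⟩
  have hC : ∀ g, ∃ h, (g, h) ∈ corr_ZcEqa lt (piV V) N hN := fun g =>
    let ⟨v, hv⟩ := hA.gen g
    ⟨_, v, rfl, hlt ▸ hv⟩
  have f1 : ((corr_ZcEqa lt (piV V) N hN).comap (MonoidHom.inl _ _)).Normal := by
    refine ⟨fun g hg k => ?_⟩
    obtain ⟨h, hh⟩ := hC k
    have := Subgroup.mul_mem _ (Subgroup.mul_mem _ hh (Subgroup.mem_comap.1 hg))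
      (Subgroup.inv_mem _ hh)
    simpa [Subgroup.mem_comap] using this
  have hle : N ≤ (corr_ZcEqa lt (piV V) N hN).comap (MonoidHom.inl _ _) := fun g hg =>
    ⟨1, map_one _, by simpa using hg⟩
  have hRs : ∀ l ∈ R, Q.Lo (μ t).1 l := by
    intro l hl
    rw [hR, mem_union, mem_image, mem_image] at hl
    rcases hl with ⟨j, hj, rfl⟩ | ⟨j, hj, rfl⟩
    · exact ⟨(q₀ j).2, μ j, (hS j hj).1, (hS j hj).2, w3 j _ (hw j hj).1⟩
    · exact ⟨(q₁ j).2, μ j, (hS j hj).1, (hS j hj).2, w3 j _ (hw j hj).2⟩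
  have hRc : R.card ≤ r := by
    rw [hR]
    have h1 := card_image_le (s := S) (f := fun j => (q₀ j : ℕ))
    have h2 := card_image_le (s := S) (f := fun j => (q₁ j : ℕ))
    have h3 := card_union_le (S.image fun j => (q₀ j : ℕ)) (S.image fun j => (q₁ j : ℕ))
    omega
  obtain ⟨i1, i2⟩ := index_NdEqa _ hC
  have i3 : ((corr_ZcEqa lt (piV V) N hN).comap (MonoidHom.inl _ _)).index ≤
      Fintype.card P ^ 2 ^ L := by
    rw [hr] at i2
    exact i2.trans (hcd.trans (Nat.pow_le_pow_right Fintype.card_pos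
      (Nat.pow_le_pow_right two_pos hLc)))
  have adm : Ad0 n (insert 3 R)
      ((corr_ZcEqa lt (piV V) N hN).comap (MonoidHom.inl _ _) ⊓ Gz 3) := by
    refine ⟨fun l hl => ?_, @Subgroup.normal_inf_normal _ _ _ _ f1 s4,
      mem_of_superset hA.adm.nhds (le_inf hle hA.le),
      ⟨Subgroup.index_inf_ne_zero i1 hGzP.1.idx.1, Subgroup.index_inf_le.trans
        (((Nat.mul_le_mul i3 hGzP.1.idx.2).trans_eq (mul_comm _ _)).trans hn)⟩,
      fun I h1 h3 g h2 => ⟨?_, hGzP.1.unr I h1 (fun l hl => h3 l ?_) g h2⟩⟩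
    · rcases mem_insert.1 hl with rfl | hl
      · exact Nat.prime_three
      · exact (hOk.pri l (hRs l hl).1).1
    · refine hA.unr _ R f1 hle (fun l hl h5 => ⟨FreeGroup.of (Sum.inl ⟨l, hl⟩), ?_, ?_⟩) I
        ⟨h1, h3 3 (mem_insert_self _ _), fun l hl => h3 l (mem_insert_of_mem hl)⟩ g h2
      · funext ω
        rw [piV_ZcEqa, FreeGroup.lift_apply_of]
        refine hone ω _ fun j hj => ⟨fun e => h5 ?_, fun e => h5 ?_⟩
        · rw [hR, show l = q₀ j from congrArg Subtype.val e]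
          exact mem_union_left _ (mem_image_of_mem _ hj)
        · rw [hR, show l = q₁ j from congrArg Subtype.val e]
          exact mem_union_right _ (mem_image_of_mem _ hj)
      · rw [hlt, FreeGroup.lift_apply_of]
        simp [ltr]
    · rw [mem_singleton.1 hl]
      exact mem_insert_self _ _
  obtain ⟨f3, f4, f5, -⟩ := facts_ZmEqP (corr_ZcEqa lt (piV V) N hN) κ hC _ rfl
  rw [hr] at f3 f4 f5
  obtain ⟨z, hz, a, ha, hκ⟩ := hSh
  have hz' : lt z ∈ Gz 3 := s6 (by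
    have := Subgroup.mem_map_of_mem lt hz
    rw [commutator_def, Subgroup.map_commutator] at this
    exact Subgroup.commutator_mono le_top le_top this)
  have f7 := sum_XEqaT (z := lt z) ha fun g => by
    have := FC_move_ZmEqP (corr_ZcEqa lt (piV V) N hN) (Av (piV V).range κ) (a := lt z)
      (u := piV V z) (b := 1) (v := 1) ⟨z, rfl, by simp⟩ (one_mem _) g (ZMod.stdAddChar a)
      fun h' hh' => Av_shift_ZmEqP _ κ hκ (hr ▸ ⟨_, hh', rfl⟩)
    rwa [mul_one] at this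
  have key := hOk.eqs (μ t) ht R _ hRs hRc adm inf_le_right
    (fun g hg => (hA.adm.pg g hg).imp fun _ h => ⟨hle h, hA.le h⟩) σ hA.fr (6 * Fintype.card P) _
    ⟨Nat.mul_pos (by norm_num) Fintype.card_pos, fun g => ⟨by
      obtain ⟨h, hh⟩ := hC g
      have h1 := Subgroup.pow_mem _ hh (6 * Fintype.card P)
      have h2 : h ^ (6 * Fintype.card P) = 1 := funext fun ω => by
        rw [Pi.pow_apply, mul_comm, pow_mul, pow_card_eq_one, one_pow, Pi.one_apply]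
      rw [Prod.pow_mk, h2] at h1
      exact h1, by
        rw [show 6 * Fintype.card P = (3 - 1) * (3 * Fintype.card P) by omega, pow_mul]
        exact pow_mem (hGzP.2.1 g) _⟩, f3, fun m hm => f4 m hm.1, f5, lt z, 3, three_pos, f7⟩
    ⟨lt z, hz', 3, three_pos, f7⟩
  have hm : 1 ≤ Q.ms (μ t) := hOk.one _ (two_pos.trans_le ht).ne'
  refine le_trans (le_of_eq ?_) ((mul_le_of_le_one_left (norm_nonneg _)
    (inv_le_one_of_one_le₀ hm)).trans key)
  rw [← abs_of_nonneg (inv_nonneg.2 (zero_le_one.trans hm)), ← Real.norm_eq_abs, ← norm_smul,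
    ← Finset.sum_coe_sort Q.Λ, Finset.smul_sum]
  congr 1
  refine Finset.sum_congr rfl fun u _ => ?_
  rw [← Complex.real_smul, smul_smul, Par.wm, div_eq_inv_mul]
  congr 1
  rw [← univ_product_univ, expect_product]
  refine expect_congr rfl fun b _ => ?_
  have h1 := hs.2 (Finset (Fin d)) V fun h => Av (piV V).range κ (piV V (wd u b) * h)
  simp only [map_mul]
  exact h1.trans (avg_ZcEqa lt (piV V) N hN (hwd u b) fun h => Av (piV V).range κ h)

end Pool.Agent.MP_e23604_nt.T
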