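import Mathlib
import Pool.Agent.Mg.Fe23604m.G06f121

set_option linter.all false

namespace Pool.Agent.MP_e23604_nt.T

open Finset Filter NumberField
open MP_f68ac8_nt (cyc IsFrob)
open MP_f68ac8_nt.Zv (Ex Prob piV Unf Bx)
open MP_f68ac8_nt.Zk (NS brL lk msk Av)
open MP_f68ac8_nt.Nd (Lr Fr Gz Exm fP kap np OKp)
open Q (Wn Pre rot0)
open scoped BigOperators Topology

theorem h1_XInqT {d : ℕ} (D : Dt d) (β : ZMod 3) (lv : Fin d → ℕ) (L h : ℕ) :
    0 ≤ D.H1 β lv L h := by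
  have : 0 ≤ D.Rt β lv L := Finset.sum_nonneg fun u _ => by split_ifs <;> positivity
  unfold Dt.H1
  positivity

theorem val_XInqT {d : ℕ} {P B O A Λ : Type} [Group P] (T : Trm P B O A d) {r : Fin d → Fin d → A}
    (h : T.c r = 0) (q : Fin d → Λ) (y : Fin d ⊕ O → FreeGroup (Λ ⊕ B)) : T.val r q y = 0 := by
  unfold Trm.val
  rw [h, Complex.ofReal_zero, zero_mul, ite_self]

theorem wd_XInqT (hAdmT : AdmT) {V : Type} [AddCommGroup V] [Fintype V] {d : ℕ} {S : Sy V d}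
    {η₀ : GQ → V ≃ₗ[ℤ] V} {Λ : Finset ℕ} {ι : Type} {bb : ι → GQ} {N : Subgroup GQ}
    {q : Fin d → Λ} (ok : S.Ok) (gn : GnT Λ S.σ S.τ bb N) (pri : ∀ l ∈ Λ, P0 l)
    (hl : ∀ j, S.l j = q j) (eta : ∀ g ∈ DP P3, S.η g = η₀ g)
    (hN : ∀ (R : Finset ℕ) (M : Subgroup GQ), R ⊆ Λ → Adm R M →
      M.index ≤ Fintype.card V ^ (Fintype.card V + 1) → N ≤ M) : S.Wd η₀ bb N q := by
  obtain ⟨h0, h1⟩ := hAdmT V d S ok
  have hR : S.R ⊆ Λ := fun l hl' => by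
    obtain ⟨j, -, rfl⟩ := Finset.mem_image.1 hl'
    rw [hl j]
    exact (q j).2
  have key : ∀ n v x, S.Ap n v x → ∀ g ∈ N, S.η g = 1 ∧ x g ∈ Wn S.J n := fun n v x hx g hg => by
    obtain ⟨M, a1, -, a2, a3⟩ := h1 n v x hx
    exact (a3 g).1 (hN _ M hR a1 a2 hg)
  exact ⟨ok, gn, pri, hl, eta, fun g hg => (key _ _ _ h0 g hg).1,
    fun n v x hx g hg => (key n v x hx g hg).2⟩

theorem x_InqT (hWrdT : WrdT) (hSumT : SumT) (hAdmT : AdmT) (hPaT : PaT)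
    (hTupN : MP_f68ac8_nt.Nd.TupN) : InqT := by
  classical
  intro V _ _ B η₀ h O hB hO Λ ι bb N hΛ hG hN d lv
  have hev : Even B.m := ⟨h + 2, by rw [hB.m]; ring⟩
  have hW : ∀ p : ZMod 3 × V, ∃ (I : Type) (_ : Fintype I)
      (T : I → Trm (Pm B.J B.m) ι (Option (Fin B.m)) (Pd × ZMod 3) d),
      Fintype.card I ≤ (18 * (B.m + 1) * Fintype.card V) ^ (d + 1) ∧
      (∀ i, (T i).Ok (Fk B.J B.m) B.m lv ∧ ∀ r, ¬ Act B.β p.1 r → (T i).c r = 0) ∧
      ∀ (Λ : Finset ℕ) (η : GQ →* (V ≃ₗ[ℤ] V)) (N : Subgroup GQ) (q : Fin d → Λ) b y w,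
        Sy.Wd ⟨{ B with o := p.2 }, η, fun j => q j⟩ (η₀ p.1) bb N q →
        Gw B.σ B.τ bb N B.gam q b y w → Act B.β p.1 (prs (pa B.e) q b) →
        ∀ (𝓡 : Type) [Fintype 𝓡] [Nonempty 𝓡] (s : 𝓡 → FreeGroup (Λ ⊕ ι)),
          Unf (Pm B.J B.m) (N.comap (FreeGroup.lift (ltr Λ B.τ bb))) s →
          (𝔼 ρ : Option (Fin B.m) → 𝓡, ∑ i, (T i).val (prs (pa B.e) q b) q
            (Sum.elim y fun o => w o * s (ρ o))).re =
            Sy.Tot ⟨{ B with o := p.2 }, η, fun j => q j⟩ lv h :=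
    fun p => hWrdT V { B with o := p.2 } hB.cm.toCm0 d h (η₀ p.1) ι bb lv p.1 hev
  choose I inst T w1 w2 w3 using hW
  set P : Finset (ZMod 3 × V) := (univ ×ˢ O).filter fun p =>
    ∀ g ∈ DP P3, p.2 - η₀ p.1 g p.2 ∈ Wn B.J B.m with hP
  refine ⟨Σ p : P, I p.1, inferInstance, fun i => T i.1.1 i.2, ?_, fun i => (w2 _ _).1,
    fun 𝓡 _ _ s hs q b y w hw => ?_⟩
  · have h9 : P.card ≤ 9 := by
      refine (card_filter_le _ _).trans ?_
      rw [card_product, card_univ, ZMod.card]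
      omega
    rw [Fintype.card_sigma]
    refine (Finset.sum_le_card_nsmul _ _ _ fun p _ => w1 p.1).trans ?_
    rw [card_univ, Fintype.card_coe, smul_eq_mul,
      show 162 * (B.m + 1) * Fintype.card V = 9 * (18 * (B.m + 1) * Fintype.card V) by ring,
      mul_pow 9]
    exact Nat.mul_le_mul_right _ (h9.trans (Nat.le_self_pow d.succ_ne_zero 9))
  obtain ⟨E, hE⟩ : ∃ E : ZMod 3 × V → ℝ, ∀ p, E p = (𝔼 ρ : Option (Fin B.m) → 𝓡,
      ∑ i, (T p i).val (prs (pa B.e) q b) q (Sum.elim y fun o => w o * s (ρ o))).re :=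
    ⟨_, fun _ => rfl⟩
  have e1 : (𝔼 ρ : Option (Fin B.m) → 𝓡, ∑ i : Σ p : P, I p.1, (T i.1.1 i.2).val
      (prs (pa B.e) q b) q (Sum.elim y fun o => w o * s (ρ o))).re = ∑ p ∈ P, E p := by
    simp only [Fintype.sum_sigma]
    rw [Finset.expect_sum_comm, Complex.re_sum, ← Finset.sum_coe_sort P]
    exact Finset.sum_congr rfl fun p _ => (hE p.1).symm
  have e0 : ∀ p, ¬ Act B.β p.1 (prs (pa B.e) q b) → E p = 0 := fun p hp => by
    rw [hE]
    simp only [val_XInqT _ ((w2 p _).2 _ hp), Finset.sum_const_zero, Finset.expect_const_zero,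
      Complex.zero_re]
  have hH := h1_XInqT (dtl B.e fun j => (q j : ℕ)) B.β lv B.m h
  have hA := fun c₀ => (hPaT Λ d B.e q b B.β c₀).2.1
  rw [e1]
  by_cases hq : Function.Injective q ∧ (dtl B.e fun j => (q j : ℕ)).Gen B.β
  swap
  · rw [Finset.sum_eq_zero fun p _ => e0 p fun a => hq ⟨((hA _).1 a).1, ((hA _).1 a).2.1⟩,
      add_zero]
    by_cases hi : Function.Injective q
    · rw [if_pos hi, Dt.Hf, if_neg fun a => hq ⟨hi, a⟩]
      split_ifs <;> linarith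
    · rw [if_neg hi, if_neg fun a => hi a.1]
  obtain ⟨hi, hg⟩ := hq
  have hR := ((hTupN Λ fun l hl => (hΛ l hl).1).1 d q hi).2
  have hc := (hPaT Λ d B.e q b B.β 0).2.2 hi
  have hi' : Function.Injective fun j => (q j : ℕ) := Subtype.val_injective.comp hi
  obtain ⟨η, g1, g2, g3⟩ : ∃ η, Gm0 B.J B.T η (univ.image fun j => (q j : ℕ)) B.e B.β B.τ ∧
      (∀ g ∈ DP P3, η g = η₀ (dtl B.e fun j => (q j : ℕ)).cls g) ∧
      (BadV B η₀ O (np q) → ∃ o ∈ O, (∀ g ∈ DP P3, o - η g o ∈ Wn B.J B.m) ∧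
        Sy.Tru ⟨{ B with o := o }, η, fun j => (q j : ℕ)⟩) := by
    rw [hc]
    by_cases hb : BadV B η₀ O (np q)
    · obtain ⟨η, a1, a2, a3⟩ := hb
      rw [hR] at a1 a2 a3
      exact ⟨η, a1, a2, fun _ => a3 d _ hi' rfl hg⟩
    · obtain ⟨η, a1, a2⟩ := hB.ex (univ.image fun j => (q j : ℕ)) fun l hl => by
        obtain ⟨j, -, rfl⟩ := Finset.mem_image.1 hl
        exact hΛ _ (q j).2
      exact ⟨η, a1, a2, fun a => absurd a hb⟩
  generalize hcl : (dtl B.e fun j => (q j : ℕ)).cls = c₀ at g2 hA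
  have key : ∀ o, (c₀, o) ∈ P →
      0 ≤ (dtl B.e fun j => (q j : ℕ)).H1 B.β lv B.m h + E (c₀, o) ∧
      (Sy.Tru ⟨{ B with o := o }, η, fun j => (q j : ℕ)⟩ →
        1 ≤ (dtl B.e fun j => (q j : ℕ)).H1 B.β lv B.m h + E (c₀, o)) := fun o ho => by
    have ok : Sy.Ok ⟨{ B with o := o }, η, fun j => (q j : ℕ)⟩ :=
      ⟨hB.cm, hev, (by rw [hB.m]; omega : 4 ≤ B.m), hB.tl, g1, hB.fr, hi', fun j => hΛ _ (q j).2,
        fun g hg => by
          have := (mem_filter.1 ho).2 g hg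
          rw [← g2 g hg] at this
          exact this⟩
    rw [hE, w3 (c₀, o) Λ η N q b y w (wd_XInqT hAdmT ok hG hΛ (fun _ => rfl) g2 hN) hw
      ((hA c₀).2 ⟨hi, hg, rfl⟩) 𝓡 s hs]
    exact hSumT V d _ ok h lv hB.m hg
  rw [if_pos hi, Dt.Hf, if_pos hg, zero_add]
  generalize (dtl B.e fun j => (q j : ℕ)).H1 B.β lv B.m h = H at hH key
  have k1 : ∀ p ∈ P, 0 ≤ (if p.1 = c₀ then H else 0) + E p := fun p hp => by
    by_cases e : p.1 = c₀
    · obtain ⟨c, o⟩ := p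
      obtain rfl : c = c₀ := e
      rw [if_pos rfl]
      exact (key o hp).1
    · rw [if_neg e, e0 p fun a => e ((hA _).1 a).2.2.symm, add_zero]
  have k2 : ∑ p ∈ P, (if p.1 = c₀ then H else 0) ≤ 3 * H := by
    refine (Finset.sum_le_sum_of_subset_of_nonneg (filter_subset _ _) fun p _ _ => by
      split_ifs <;> linarith).trans ?_
    rw [Finset.sum_product_right]
    simp only [Finset.sum_ite_eq', mem_univ, if_true, Finset.sum_const, nsmul_eq_mul]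
    exact mul_le_mul_of_nonneg_right (by exact_mod_cast hO) hH
  have k3 := Finset.sum_nonneg k1
  rw [Finset.sum_add_distrib] at k3
  split_ifs with hb
  · obtain ⟨o, a1, a2, a3⟩ := g3 hb.2
    have ho : (c₀, o) ∈ P := mem_filter.2 ⟨mem_product.2 ⟨mem_univ _, a1⟩, fun g hg => by
      have := a2 g hg
      rw [g2 g hg] at this
      exact this⟩
    have k4 := Finset.single_le_sum k1 ho
    rw [Finset.sum_add_distrib, if_pos rfl] at k4
    linarith [(key o ho).2 a3]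
  · linarith

end Pool.Agent.MP_e23604_nt.T
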