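import Mathlib
import Pool.Agent.Mg.Fe23604m.G06f121

set_option linter.all false

namespace Pool.Agent.MP_e23604_nt.T

open Finset Filter NumberField
open MP_f68ac8_nt (cyc IsFrob)
open MP_f68ac8_nt.Zv (Ex Prob piV Unf Bx)
open MP_f68ac8_nt.Zk (NS brL lk msk Av)
open MP_f68ac8_nt.Nd (Lr Fr Gz Exm fP kap np OKp)
open Q (Wn Pre rot0)
open scoped BigOperators Topology

theorem mem_XCnC {d : ℕ} {lv : Fin d → ℕ} {sp : Fin d → Bool} {b : Bool} {j : Fin d} :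
    j ∈ Bn lv sp b ↔ 2 ≤ lv j ∧ sp j = b := by
  simp [Bn]

theorem noA_XCnC (hCoA : CoA) {d : ℕ} (lv : Fin d → ℕ) (sp : Fin d → Bool) (β : ZMod 3) :
    (NoA lv sp β).ncard ≤ 18 * 3 ^ (Bn lv sp true).card * 9 ^ (Ex0 lv).card := by
  have h1 : ∀ g : ZMod 3, {p : V3 d × V3 d | (p.2, g, p.1) ∈ NoA lv sp β}.ncard ≤
      6 * 3 ^ (Bn lv sp true).card * 9 ^ (Ex0 lv).card := fun g => by
    refine (hCoA d lv sp _ ?_).2 fun p hp i hi => hp.1 i (mem_XCnC.1 hi).2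
    rintro ⟨y, X⟩ ⟨h1, h2, h3⟩
    have h4 : ∀ i ∈ Bn lv sp false, (∀ j, sp j = true → X j * (y i - y j) = 0) ∧ g * y i = 0 :=
      fun i hi => by
        obtain ⟨a, b⟩ := mem_XCnC.1 hi
        refine ⟨fun j hj => ?_, ?_⟩ <;> by_contra e
        exacts [h3 (Or.inr (Or.inl ⟨i, a, b, Or.inl ⟨j, hj, e⟩⟩)),
          h3 (Or.inr (Or.inl ⟨i, a, b, Or.inr e⟩))]
    have : Fact (Nat.Prime 3) := ⟨Nat.prime_three⟩
    refine ⟨fun i hi j hj => ?_, fun i hi j hj => ?_⟩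
    · rcases h2 with e | e
      · obtain ⟨k, hk⟩ := Function.ne_iff.1 e
        have hs : sp k = true := by
          by_contra e'
          exact hk (h1 k (by simpa using e'))
        have h5 : ∀ i ∈ Bn lv sp false, y i = y k := fun i hi =>
          sub_eq_zero.1 ((mul_eq_zero.1 ((h4 i hi).1 k hs)).resolve_left hk)
        exact (h5 i hi).trans (h5 j hj).symm
      · have h5 : ∀ i ∈ Bn lv sp false, y i = 0 := fun i hi =>
          (mul_eq_zero.1 (h4 i hi).2).resolve_left e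
        exact (h5 i hi).trans (h5 j hj).symm
    · have a : 2 ≤ lv i := by
        rcases mem_union.1 hi with e | e <;> exact (mem_XCnC.1 e).1
      obtain ⟨b, c⟩ := mem_XCnC.1 hj
      by_contra e
      exact h3 (Or.inl ⟨i, j, by rintro rfl; exact e (by simp), by omega, by omega, c, e⟩)
  have h2 : NoA lv sp β = ⋃ g : ZMod 3, (fun p : V3 d × V3 d => (p.2, g, p.1)) ''
      {p : V3 d × V3 d | (p.2, g, p.1) ∈ NoA lv sp β} := by
    ext ⟨X, g, y⟩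
    simp only [Set.mem_iUnion]
    exact ⟨fun h => ⟨g, (y, X), h, rfl⟩, fun ⟨_, _, h, e⟩ => e ▸ h⟩
  rw [h2]
  refine (Set.ncard_iUnion_le_of_fintype _).trans
    ((sum_le_sum fun g _ => (Set.ncard_image_le (Set.toFinite _)).trans (h1 g)).trans_eq ?_)
  rw [sum_const, card_univ, ZMod.card, smul_eq_mul]
  ring

theorem noM_XCnC (hCoA : CoA) {d : ℕ} (lv : Fin d → ℕ) (sp : Fin d → Bool) (β : ZMod 3) :
    {X : Unit → V3 d | ¬ Osc lv sp (fX 0 X) (cX β 0 X 1) 0}.ncard ≤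
      6 * 3 ^ (Bn lv sp false).card * 9 ^ (Ex0 lv).card := by
  have h1 : ∀ b, Bn lv (fun j => !sp j) b = Bn lv sp (!b) := fun b => by
    ext j
    rw [mem_XCnC, mem_XCnC]
    cases b <;> simp
  have h2 := (hCoA d lv (fun j => !sp j) {p | p.1 = 0 ∧ ∀ i ∈ Bn lv sp true, p.2 i = 0} (by
    rintro ⟨y, X⟩ ⟨rfl, -⟩
    simp)).2 fun p hp i hi => hp.2 i (by rwa [h1] at hi)
  rw [h1] at h2
  refine le_trans (Set.ncard_le_ncard_of_injOn (fun X => (0, X ())) (fun X hX => ?_)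
    (fun X _ Y _ e => funext fun _ => congrArg Prod.snd e) (Set.toFinite _)) h2
  refine ⟨rfl, fun t ht => ?_⟩
  obtain ⟨a, b⟩ := mem_XCnC.1 ht
  by_contra e
  exact hX (Or.inr (Or.inr
    ⟨t, a, b, fun j _ _ => by simp [fX], rfl, Or.inr (by simpa [cX] using e)⟩))

theorem num_XCnC {ε : ℝ} {d a b e M N : ℕ} (h1 : a + b + e = d) (h2 : e ≤ 2 * M)
    (h3 : ((18 : ℕ) * (d + 1) ^ 18 * 3 ^ (12 * M) : ℝ) ≤ ε * 3 ^ b) (h4 : N ≤ 18 * 3 ^ a * 9 ^ e) :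
    (N : ℝ) / 3 ^ d ≤ ε := by
  have h5 : (1 : ℝ) ≤ (d + 1) ^ 18 := one_le_pow₀ (by linarith [Nat.cast_nonneg (α := ℝ) d])
  have h6 : (3 : ℝ) ^ e ≤ 3 ^ (12 * M) := pow_le_pow_right₀ (by norm_num) (by omega)
  have h7 : (18 : ℝ) * 3 ^ e ≤ ε * 3 ^ b := by
    refine le_trans ?_ h3
    push_cast
    calc (18 : ℝ) * 3 ^ e = 18 * 1 * 3 ^ e := by ring
      _ ≤ _ := by gcongr
  have h8 : (N : ℝ) ≤ 18 * 3 ^ a * 9 ^ e := by exact_mod_cast h4
  rw [div_le_iff₀ (by positivity), ← h1]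
  calc (N : ℝ) ≤ 18 * 3 ^ a * 9 ^ e := h8
    _ = 3 ^ a * 3 ^ e * (18 * 3 ^ e) := by
      rw [show (9 : ℝ) = 3 * 3 by norm_num, mul_pow]
      ring
    _ ≤ 3 ^ a * 3 ^ e * (ε * 3 ^ b) := by gcongr
    _ = _ := by ring

theorem x_CnC (hFouM : FouM) (hFouA : FouA) (hCoA : CoA) (hNumT : NumT) : CnC := by
  classical
  intro ε hε
  obtain ⟨m₀, hm⟩ := hNumT (ε / 2) 18 (half_pos hε)
  refine ⟨m₀, fun d Ω _ ν D lv sp η β hO hT => ?_⟩
  obtain ⟨h1, -, -, -, M, -, h2, h3⟩ := hm d lv sp hT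
  have hA := hFouA d Ω ν D lv sp η β hO
  have hB := hFouM d Ω ν D lv sp η β hO Unit 0 1
  have hA' := num_XCnC h1 h2 (h3 false).2 (noA_XCnC hCoA lv sp β)
  have hB' := num_XCnC (a := (Bn lv sp false).card) (by omega) h2 (h3 true).2
    ((noM_XCnC hCoA lv sp β).trans (by gcongr; norm_num))
  rw [Fintype.card_unit, one_mul] at hB
  beta_reduce at hA
  have h0 : 0 ≤ ∑ q, ν q := sum_nonneg fun q _ => hO.nn q
  have h4 : (3 : ℝ) ^ (d + 1) + 1 ≤ 9 ^ (d + 1) := by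
    have : (3 : ℝ) ≤ 3 ^ (d + 1) := le_self_pow₀ (by norm_num) (by omega)
    rw [show (9 : ℝ) = 3 * 3 by norm_num, mul_pow]
    nlinarith
  have h5 := mul_le_mul_of_nonneg_right h4 hO.pos
  have h6 := mul_le_mul_of_nonneg_right hA' h0
  have h7 := mul_le_mul_of_nonneg_right hB' h0
  refine le_trans (sum_le_sum fun q _ => ?_) ((sum_add_distrib.trans_le (add_le_add hA hB)).trans
    (by linarith))
  rw [← mul_add]
  by_cases hq : ν q = 0
  · rw [hq, zero_mul, zero_mul]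
  refine mul_le_mul_of_nonneg_left ?_ (hO.nn q)
  obtain ⟨j, hj⟩ := (h3 false).1
  have h8 : ∃ j, (D q).sp j = false := ⟨j, by rw [hO.sup q hq]; exact (mem_XCnC.1 hj).2⟩
  split_ifs with a b c d b c d <;> try norm_num
  refine a ⟨b, ?_, h8⟩
  by_contra e
  refine c fun _ j hj => ?_
  by_contra e'
  exact e ⟨j, hj, by simpa [Dt.Kf] using e'⟩

end Pool.Agent.MP_e23604_nt.T
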