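import Mathlib
import Pool.Agent.Mg.Fe23604m.G06f121
import Pool.Agent.Mg.Fe23604m.G318bc4

set_option linter.all false

section

namespace Pool.Agent.MP_e23604_nt.T

open Finset Filter NumberField
open MP_f68ac8_nt (cyc IsFrob)
open MP_f68ac8_nt.Zv (Ex Prob piV Unf Bx)
open MP_f68ac8_nt.Zk (NS brL lk msk Av)
open MP_f68ac8_nt.Nd (Lr Fr Gz Exm fP kap np OKp)
open Q (Wn Pre rot0)
open scoped BigOperators Topology

section
variable {V : Type} [AddCommGroup V] {W : ℕ → Submodule ℤ V}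

theorem one_XOrbT (h1 : ∀ a b, a ≤ b → W a ≤ W b) (h2 : ∀ n u, 3 • u ∈ W n ↔ u ∈ W (n + 2))
    {e k : ℕ} {u : V} (hu : (3 * e + 1) • u ∈ W k) (K : ℕ) : u ∈ W K → u ∈ W k := by
  induction K with
  | zero => exact fun h => h1 _ _ (Nat.zero_le k) h
  | succ K ih =>
    intro h
    by_cases hk : k ≤ K
    · apply ih
      have a : 3 • (e • u) ∈ W K :=
        (h2 _ _).2 (h1 _ _ (Nat.le_succ _) (nsmul_mem h e))
      have b := sub_mem (h1 _ _ hk hu) a
      rwa [add_nsmul, mul_nsmul', one_nsmul, add_sub_cancel_left] at b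
    · exact h1 _ _ (by omega) h

theorem cop_XOrbT (h1 : ∀ a b, a ≤ b → W a ≤ W b) (h2 : ∀ n u, 3 • u ∈ W n ↔ u ∈ W (n + 2))
    {c k N : ℕ} (hc : ¬ 3 ∣ c) {u : V} (hu : c • u ∈ W k) (hN : u ∈ W N) : u ∈ W k := by
  have h3 : c % 3 = 1 ∨ c % 3 = 2 := by omega
  rcases h3 with h3 | h3
  · refine one_XOrbT h1 h2 (e := c / 3) ?_ N hN
    rwa [show 3 * (c / 3) + 1 = c by omega]
  · refine one_XOrbT h1 h2 (e := 2 * c / 3) ?_ N hN
    rw [show 3 * (2 * c / 3) + 1 = 2 * c by omega, mul_nsmul']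
    exact nsmul_mem hu 2

theorem pow_XOrbT (h2 : ∀ n u, 3 • u ∈ W n ↔ u ∈ W (n + 2)) (a : ℕ) :
    ∀ (n : ℕ) (u : V), 3 ^ a • u ∈ W n → u ∈ W (n + 2 * a) := by
  induction a with
  | zero => intro n u h; simpa using h
  | succ a ih =>
    intro n u h
    rw [pow_succ, mul_nsmul'] at h
    exact (h2 _ _).1 (ih n _ h)

theorem sep_XOrbT (h1 : ∀ a b, a ≤ b → W a ≤ W b) (h2 : ∀ n u, 3 • u ∈ W n ↔ u ∈ W (n + 2))
    {N n h s t : ℕ} (hN : ∀ u, u ∈ W N) {u : V} (hst : s < t) (ht : t < 3 ^ h)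
    (hu : (3 * t) • u - (3 * s) • u ∈ W (n + 1)) : u ∈ W (n + 2 * h + 1) := by
  obtain ⟨d, rfl⟩ := Nat.exists_eq_add_of_le hst.le
  obtain ⟨a, c, hc, rfl⟩ := Nat.exists_eq_pow_mul_and_not_dvd (n := d) (by omega) 3 (by norm_num)
  have ha : a < h := by
    have : 3 ^ a ≤ 3 ^ a * c := Nat.le_mul_of_pos_right _ (by omega)
    exact (Nat.pow_lt_pow_iff_right (by norm_num : 1 < 3)).1 (by omega)
  have e : 3 * (s + 3 ^ a * c) = 3 * s + c * 3 ^ (a + 1) := by ring
  rw [e, add_nsmul, add_sub_cancel_left, mul_nsmul'] at hu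
  exact h1 _ _ (by omega) (pow_XOrbT h2 _ _ _ (cop_XOrbT h1 h2 hc hu (hN _)))

end

theorem x_OrbT (hBasT : BasT) (hObT : ObT) (hInvT : InvT) (hTopT : TopT) (hCntA : CntA)
    (hHomT : HomT) : OrbT := by
  intro V _ _ d S hS h u v hm hN hv
  obtain ⟨h1, -, -, -, h2, h6, h7, -⟩ := hBasT V S.J S.T hS.cm.toCm0
  obtain ⟨j, k, hjk⟩ := hN
  have hu : v j - v k ∉ Wn S.J S.m := by
    intro e
    apply hjk
    have a := (h7 S.m _ (hv.1 j).1 _ (hv.1 k).1).2
    rw [(h6 S.m _ (sub_mem (hv.1 j).1 (hv.1 k).1)).2 e, (hv.1 j).2, (hv.1 k).2] at a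
    exact sub_eq_zero.1 a.symm
  have gen : ∀ n h' : ℕ, Even n → 1 ≤ n → n + 2 * h' + 1 ≤ S.m → (3 : ℝ) ^ h' ≤ S.Nn n u := by
    intro n h' hn hn1 hh
    let F : ℕ × (Fin d → V) → Fin d → V := fun p =>
      (fun j => v j + (3 * p.1) • (v j - S.o)) + p.2
    have hle : ((range (3 ^ h') : Set ℕ) ×ˢ {w : Fin d → V | ∀ j, w j ∈ Wn S.J (n + 1)}).ncard ≤
        (S.Sol n n u).ncard := by
      refine Set.ncard_le_ncard_of_injOn F ?_ ?_ (Set.toFinite _)
      · rintro ⟨t, w⟩ ⟨-, hw⟩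
        exact hInvT V d S hS n u _ w hn (by omega)
          ((hObT V d S hS 0 _).2.2.2.2 u 1 n n (Nat.zero_le n) hn1 (hHomT V d S hS u v hv t)) hw
      · rintro ⟨t, w⟩ ⟨ht, hw⟩ ⟨s, w'⟩ ⟨hs, hw'⟩ e
        have ht' : t < 3 ^ h' := by simpa using ht
        have hs' : s < 3 ^ h' := by simpa using hs
        have ej := congrFun e j
        have ek := congrFun e k
        simp only [F, Pi.add_apply] at ej ek
        have key : (3 * t) • (v j - v k) - (3 * s) • (v j - v k) ∈ Wn S.J (n + 1) := by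
          have : (3 * t) • (v j - v k) - (3 * s) • (v j - v k) =
              (w' j - w' k) - (w j - w k) := by
            linear_combination (norm := module) ej - ek
          rw [this]
          exact sub_mem (sub_mem (hw' j) (hw' k)) (sub_mem (hw j) (hw k))
        have hts : t = s := by
          rcases lt_trichotomy t s with a | a | a
          · exact absurd (h1 _ _ hh (sep_XOrbT h1 h2 hS.cm.top a hs'
              (by simpa using neg_mem key))) hu
          · exact a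
          · exact absurd (h1 _ _ hh (sep_XOrbT h1 h2 hS.cm.top a ht' key)) hu
        subst hts
        exact Prod.ext rfl (add_left_cancel e)
    rw [Set.ncard_prod, Set.ncard_coe_finset, card_range,
      (hCntA V d S hS).2.2 (n + 1) (by omega)] at hle
    rw [Sy.Nn, le_div_iff₀ (by positivity)]
    exact_mod_cast hle
  refine ⟨hTopT V d S hS 0 1 u v (by omega) (by omega) hv,
    gen 2 h even_two one_le_two (by omega), ?_⟩
  have := gen (S.m - 2) 0 ⟨h + 1, by omega⟩ (by omega) (by omega)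
  rwa [pow_zero] at this

end Pool.Agent.MP_e23604_nt.T

end

section

namespace Pool.Agent.MP_e23604_nt.T

open Finset Filter NumberField
open MP_f68ac8_nt (cyc IsFrob)
open MP_f68ac8_nt.Zv (Ex Prob piV Unf Bx)
open MP_f68ac8_nt.Zk (NS brL lk msk Av)
open MP_f68ac8_nt.Nd (Lr Fr Gz Exm fP kap np OKp)
open Q (Wn Pre rot0)
open scoped BigOperators Topology

open MP_f68ac8_nt.Nd (tw Ij_NdOsc fib_NjOsc split_NjOsc excl_NjOsc norm_fP_NjOsc norm_psi_NjOsc
  norm_ga_NjOsc ga_NjOsc ex_le_NdOsc norm_tw_NdOsc)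

theorem two_XOscC {Q : Par} {c : ℝ} {n r : ℕ} {D η : ℝ} (hp : Q.Ok c n r D η) {d : ℕ}
    (hd : (d : ℝ) ≤ D) {τ : ℝ} (hτ : |τ| ≤ c) (t : Fin d) (A : Fin d → ZMod 3) (b : ZMod 3)
    (hA : A t = 0) (hAB : (∃ j, A j ≠ 0) ∨ b ≠ 0) (q : Fin d → Q.Λ) (hq : Ij_NdOsc t q)
    (hti : ∀ k, A k ≠ 0 → Q.Ti (q k)) (m : Q.Mk) (h2 : 2 ≤ m.1.val) (hm : m.2 = true) :
    ‖∑ u : Q.Λ, (Q.W m u / Q.ms m) • (tw τ u * fP (∑ k, A k * rh (q k) u + b * rh 3 u))‖ ≤ η := by
  have hms : 1 ≤ Q.ms m := hp.one m (by omega)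
  set J := univ.filter fun k => A k ≠ 0 with hJ
  have hJ' : ∀ k, k ∈ J ↔ A k ≠ 0 := fun k => by simp [hJ]
  have hne : ∀ k ∈ J, k ≠ t := by
    rintro k hk rfl
    exact (hJ' k).1 hk hA
  have h1 := hp.kum m h2 hm τ hτ (J.image fun k => (q k : ℕ))
    (fun m => ∑ j ∈ J with (q j : ℕ) = m, A j) b (fun m hm => by
      obtain ⟨k, hk, rfl⟩ := mem_image.1 hm
      exact hti k ((hJ' k).1 hk))
    (le_trans (by
      exact_mod_cast card_image_le.trans ((card_le_univ J).trans (Fintype.card_fin d).le)) hd)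
    (hAB.imp_left fun ⟨j, hj⟩ => by
      have hj' := (hJ' j).2 hj
      refine ⟨q j, mem_image_of_mem (fun k => (q k : ℕ)) hj', ?_⟩
      have e : J.filter (fun k => (q k : ℕ) = q j) = {j} := by
        ext k
        rw [mem_filter, mem_singleton]
        exact ⟨fun h => hq k j (hne k h.1) (hne j hj') (Subtype.ext h.2),
          fun h => by rw [h]; exact ⟨hj', rfl⟩⟩
      simpa only [e, sum_singleton] using hj)
  have eA := fun l : ℕ => fib_NjOsc J (fun k => (q k : ℕ)) A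
    (fun j hj => by_contra fun h => hj ((hJ' j).2 h)) fun m => rh m l
  simp only [eA] at h1
  have e2 : ∑ u : Q.Λ, (Q.W m u / Q.ms m) • (tw τ u * fP (∑ k, A k * rh (q k) u + b * rh 3 u)) =
      (Q.ms m)⁻¹ • ∑ l ∈ Q.Λ, (Q.W m l : ℂ) * tw τ l *
        fP (∑ k, A k * rh (q k) l + b * rh 3 l) := by
    rw [← sum_coe_sort Q.Λ, smul_sum]
    refine sum_congr rfl fun u _ => ?_
    rw [div_eq_inv_mul, mul_smul, mul_assoc, Complex.real_smul (x := Q.W m u)]
  rw [e2, norm_smul, Real.norm_of_nonneg (inv_nonneg.2 (by linarith))]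
  exact (mul_le_mul (inv_le_one_of_one_le₀ hms) h1 (norm_nonneg _) zero_le_one).trans
    (one_mul η).le

theorem x_OscC (hWmT : WmT) (hTwN : MP_f68ac8_nt.Nd.TwN) : OscC := by
  classical
  intro Q c n r D η y d μ e hc hp hd he _ φ c' a t h2 hs h3 h4 h5 h6
  obtain ⟨hη, hW⟩ := hWmT Q c n r D η hp
  obtain ⟨hw, hle, hsup⟩ := hW d μ
  have ht0 : (μ t).1.val ≠ 0 := by omega
  obtain ⟨H, hH⟩ : ∃ H : (Fin d → Q.Λ) → ℂ, ∀ q, H q =
      (∏ j ∈ (univ.filter fun j => (μ j).2 = true).erase t,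
        fP (∑ i ∈ univ.erase j, φ i j * (e (q i) * rh (q i) (q j)) + c' j * rh 3 (q j))) *
      ZMod.stdAddChar (∑ i, a i * (e (q i) * lm9 ((q i : ℕ) : ZMod 9))) := ⟨_, fun _ => rfl⟩
  obtain ⟨A, hA⟩ : ∃ A : (Fin d → Q.Λ) → Fin d → ZMod 3, ∀ q i,
      A q i = if i = t then 0 else φ i t * e (q i) := ⟨_, fun _ _ => rfl⟩
  have hA0 : ∀ q, A q t = 0 := fun q => by rw [hA, if_pos rfl]
  have hH1 : ∀ q, ‖H q‖ ≤ 1 := fun q => by
    rw [hH, norm_mul, norm_psi_NjOsc, mul_one, norm_prod]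
    exact prod_le_one (fun _ _ => norm_nonneg _) fun _ _ => norm_fP_NjOsc _
  have hH2 : ∀ q v, H (Function.update q t v) = H q := fun q v => by
    rw [hH, hH]
    refine congrArg₂ _ (prod_congr rfl fun j hj => ?_) (congrArg _ (sum_congr rfl fun i _ => ?_))
    · have hjt := ne_of_mem_erase hj
      rw [Function.update_of_ne hjt]
      refine congrArg (fun x => fP (x + _)) (sum_congr rfl fun i _ => ?_)
      by_cases hi : i = t
      · rw [hi, h3 j hjt (mem_filter.1 (mem_of_mem_erase hj)).2, zero_mul, zero_mul]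
      · rw [Function.update_of_ne hi]
    · by_cases hi : i = t
      · rw [hi, h4, zero_mul, zero_mul]
      · rw [Function.update_of_ne hi]
  have hT : ∀ q : Fin d → Q.Λ, (∀ j, Q.wm μ j (q j) ≠ 0) →
      (dtl e fun k => (q k : ℕ)).Tf φ c' a =
        H q * fP (∑ k, A q k * rh (q k) (q t) + c' t * rh 3 (q t)) := fun q hq => by
    have e1 : (univ.filter fun j => (dtl e fun k => (q k : ℕ)).sp j = true) =
        univ.filter fun j => (μ j).2 = true := filter_congr fun j _ => by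
      rw [← hp.cls (μ j) _ (q j).2 (hsup j _ (hq j))]
      exact decide_eq_true_iff
    have e2 : ∑ k, A q k * rh (q k) (q t) =
        ∑ i ∈ univ.erase t, φ i t * (e (q i) * rh (q i) (q t)) := by
      rw [← add_sum_erase univ _ (mem_univ t), hA0, zero_mul, zero_add]
      exact sum_congr rfl fun i hi => by rw [hA, if_neg (ne_of_mem_erase hi), mul_assoc]
    rw [Dt.Tf, e1, ← mul_prod_erase _ _ (mem_filter.2 ⟨mem_univ t, hs⟩), hH, e2]
    simp only [dtl]
    ring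
  have e0 : ∑ q, (nuT Q μ c y q : ℂ) * (dtl e fun k => (q k : ℕ)).Tf φ c' a =
      Ex (U := fun _ => Q.Λ) (Q.wm μ) fun q => (kap c y q : ℂ) *
        if Function.Injective q then
          H q * fP (∑ k, A q k * rh (q k) (q t) + c' t * rh 3 (q t)) else 0 := by
    refine sum_congr rfl fun q _ => ?_
    by_cases h0 : ∏ j, Q.wm μ j (q j) = 0
    · simp only [nuT, h0, zero_mul, zero_smul, Complex.ofReal_zero]
    · rw [hT q fun j => prod_ne_zero_iff.1 h0 j (mem_univ j), nuT, Complex.real_smul]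
      by_cases hq : Function.Injective q
      · simp only [if_pos hq, Complex.ofReal_mul, mul_assoc]
      · simp only [if_neg hq, mul_zero, Complex.ofReal_zero, zero_mul]
  rw [e0]
  refine (hTwN c hc Q.Λ (fun l hl => (hp.pri l hl).1) d (Q.wm μ) y).2 _ _ fun τ hτ => ?_
  rw [split_NjOsc hw τ t H (fun q v => fP (∑ k, A q k * rh (q k) v + c' t * rh 3 v)) hH2
    fun q v v' => congrArg (fun x => fP (x + _)) (sum_congr rfl fun k _ => by
      by_cases hk : k = t
      · rw [hk, hA0, hA0, zero_mul, zero_mul]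
      · rw [hA, hA, Function.update_of_ne hk])]
  refine ex_le_NdOsc hw _ _ fun q hq => ?_
  by_cases hI : Ij_NdOsc t q
  · rw [norm_mul]
    refine (mul_le_of_le_one_left (norm_nonneg _) (norm_ga_NjOsc τ t hH1 q)).trans ?_
    refine excl_NjOsc t q _ _ hη (hw.1 t) (fun u => (hle t u ht0).2) (fun u => ?_) ?_
    · rw [norm_mul, norm_tw_NdOsc, one_mul]
      exact norm_fP_NjOsc _
    · refine two_XOscC hp hd hτ t (A q) (c' t) (hA0 q) (h6.imp_left fun ⟨i, hi, hφ⟩ => ⟨i, by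
        rw [hA, if_neg hi]
        exact mul_ne_zero hφ (he _)⟩) q hI (fun k hk => ?_) (μ t) h2 hs
      have hkt : k ≠ t := fun h => hk (h ▸ hA0 q)
      rw [hA, if_neg hkt] at hk
      have h7 : (μ k).1 = 0 :=
        Fin.ext (by_contra fun h => left_ne_zero_of_mul hk (h5 k hkt h))
      refine ⟨(q k).2, (μ k).2, ?_⟩
      rw [← h7]
      exact hsup k _ (hq k)
  · rw [ga_NjOsc, if_neg hI, mul_zero, zero_mul, norm_zero]
    positivity

end Pool.Agent.MP_e23604_nt.T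

end
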