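import Mathlib
import Pool.Agent.Mg.Fe23604m.G06f121

set_option linter.all false

section

namespace Pool.Agent.MP_e23604_nt.T

open Finset Filter NumberField
open MP_f68ac8_nt (cyc IsFrob)
open MP_f68ac8_nt.Zv (Ex Prob piV Unf Bx)
open MP_f68ac8_nt.Zk (NS brL lk msk Av)
open MP_f68ac8_nt.Nd (Lr Fr Gz Exm fP kap np OKp)
open Q (Wn Pre rot0)
open scoped BigOperators Topology

theorem typ_XFstT {d m₀ m₁ : ℕ} {lv : Fin d → ℕ} {sp : Fin d → Bool} (h : Typ m₁ lv sp)
    (e : m₀ ≤ m₁) : Typ m₀ lv sp := ⟨e.trans h.big, h.lev, h.spl, h.ine⟩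

theorem pow_XFstT (d : ℕ) : 13 * (9 : ℝ) ^ (d + 1) + 9 * 3 ^ (d + 1) ≤ 200 ^ (d + 1) := by
  have h1 : (3 : ℝ) ^ d ≤ 200 ^ d := pow_le_pow_left₀ (by norm_num) (by norm_num) d
  have h2 : (9 : ℝ) ^ d ≤ 200 ^ d := pow_le_pow_left₀ (by norm_num) (by norm_num) d
  have h3 : (0 : ℝ) ≤ 200 ^ d := by positivity
  simp only [pow_succ]
  linarith

theorem x_FstT (hCnA : CnA) (hCnB : CnB) (hCnC : CnC) : FstT := by
  intro ε hε
  obtain ⟨h, hh⟩ := exists_pow_lt_of_lt_one (show 0 < ε / 108 by positivity)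
    (show (1 / 3 : ℝ) < 1 by norm_num)
  obtain ⟨m₁, h1⟩ := hCnA
  obtain ⟨m₂, h2⟩ := hCnB (ε / 36) (2 * h + 4) (by positivity)
  obtain ⟨m₃, h3⟩ := hCnC (ε / 3) (by positivity)
  refine ⟨h, m₁ + m₂ + m₃, 200, by norm_num, fun d Ω _ ν D lv sp η β hO hT => ?_⟩
  have a1 := h1 d Ω ν D lv sp η β hO (typ_XFstT hT (by omega))
  have a2 := h2 d Ω ν D lv sp η β hO (typ_XFstT hT (by omega))
  have a3 := h3 d Ω ν D lv sp η β hO (typ_XFstT hT (by omega))
  have s0 : 0 ≤ ∑ q, ν q := sum_nonneg fun q _ => hO.nn q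
  have t0 : (0 : ℝ) ≤ (1 / 3) ^ h := by positivity
  have t1 : (1 / 3 : ℝ) ^ h ≤ 1 := pow_le_one₀ (by norm_num) (by norm_num)
  have e : ∑ q, ν q * (D q).Hf β lv (2 * h + 4) h =
      (open Classical in ∑ q, ν q * (if (D q).Gen β then 0 else 1)) +
        12 * ∑ q, ν q * ((D q).Rt β lv (2 * h + 4) / 3 ^ n2 (D q).sp) +
        9 * (1 / 3) ^ h * ∑ q, ν q * (((D q).KS β).ncard / 3 ^ n2 (D q).sp) := by
    simp only [mul_sum, ← sum_add_distrib]
    refine sum_congr rfl fun q _ => ?_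
    rw [Dt.Hf, Dt.H1, one_div, inv_pow]
    ring
  have b1 := mul_le_mul_of_nonneg_left a1 t0
  have b2 := mul_le_mul_of_nonneg_right hh.le s0
  have b3 := mul_le_mul_of_nonneg_right t1 (mul_nonneg (show (0 : ℝ) ≤ 3 ^ (d + 1) by positivity)
    hO.pos)
  have b4 := mul_le_mul_of_nonneg_right (pow_XFstT d) hO.pos
  rw [e]
  linarith

end Pool.Agent.MP_e23604_nt.T

end

section

namespace Pool.Agent.MP_e23604_nt.T

open Finset Filter NumberField
open MP_f68ac8_nt (cyc IsFrob)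
open MP_f68ac8_nt.Zv (Ex Prob piV Unf Bx)
open MP_f68ac8_nt.Zk (NS brL lk msk Av)
open MP_f68ac8_nt.Nd (Lr Fr Gz Exm fP kap np OKp)
open Q (Wn Pre rot0)
open scoped BigOperators Topology

theorem cs_XVanT (x : ZMod 3) {c : ZMod 3} (hc : c ≠ 0) :
    cs x + cs (x + -c) + cs (x + (-c + -c)) = 0 := by
  set ω : ℂ := ZMod.stdAddChar (-c) with hω
  have h1 : ω ≠ 1 := fun h => neg_ne_zero.2 hc
    (ZMod.injective_stdAddChar (h.trans (AddChar.map_zero_eq_one _).symm))
  have h3 : ω * ω * ω = 1 := by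
    rw [hω, ← AddChar.map_add_eq_mul, ← AddChar.map_add_eq_mul,
      show -c + -c + -c = 0 by generalize c = y; revert y; decide, AddChar.map_zero_eq_one]
  have h4 : 1 + ω + ω * ω = 0 :=
    (mul_eq_zero.1 (by linear_combination h3 : (ω - 1) * (1 + ω + ω * ω) = 0)).resolve_left
      (sub_ne_zero.2 h1)
  simp only [cs, AddChar.map_add_eq_mul, ← hω, ← Complex.add_re]
  rw [show ∀ a : ℂ, a + a * ω + a * (ω * ω) = a * (1 + ω + ω * ω) from fun a => by ring, h4,
    mul_zero, Complex.zero_re]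

theorem x_VanT (hLevS : LevS) (hShfT : ShfT) : VanT := by
  classical
  intro V _ _ d S hS n u z γ hn hm hK
  simp only [Dt.KK, not_forall] at hK
  obtain ⟨j, hj, hne⟩ := hK
  have hl : S.l j % 3 = 1 := of_decide_eq_true hj
  obtain ⟨t, ht, hd⟩ := ((hLevS V S.J S.T hS.cm.toCm0).1 _ hS.cm).1 (n + 1) (by omega)
  have sh : ∀ s ∈ Wn S.J (n + 2), S.Sh n (Pi.single j s) := by
    intro s hs i
    by_cases e : i = j
    · subst e
      rwa [Pi.single_eq_same, if_pos hl]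
    · rw [Pi.single_eq_of_ne e]
      exact zero_mem _
  have d0 : dig S.J S.T (n + 1) 0 = 0 := by
    rw [dig, map_zero, if_neg hS.cm.ne.symm, if_neg (neg_ne_zero.2 hS.cm.ne).symm]
  set c := S.e (S.l j) * S.dt.Kf S.β z γ j with hc
  have hc0 : c ≠ 0 := mul_ne_zero (hS.tl _ (hS.pri j)).ne hne
  have hsum : ∑ i with S.dt.sp i = true, S.e (S.l i) *
      dig S.J S.T (n + 1) ((Pi.single j t : Fin d → V) i) * S.dt.Kf S.β z γ i = c := by
    rw [sum_eq_single j, Pi.single_eq_same, hd, mul_one]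
    · intro i _ e
      rw [Pi.single_eq_of_ne e, d0, mul_zero, zero_mul]
    · exact fun h => (h (mem_filter.2 ⟨mem_univ _, hj⟩)).elim
  let F : ZMod 3 → ℝ := fun a =>
    ∑ v : Fin d → V, if v ∈ S.Sol n (n + 1) u then cs (S.ph n v z γ + a) else 0
  have hF : ∀ a, F a = F (-c + a) := by
    intro a
    refine (Equiv.sum_comp (Equiv.addRight (Pi.single j t : Fin d → V)) _).symm.trans
      (sum_congr rfl fun v _ => ?_)
    rw [Equiv.coe_addRight]
    by_cases hv : v ∈ S.Sol n (n + 1) u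
    · obtain ⟨h1, h2⟩ := hShfT V d S hS n u v _ hn hm hv (sh t ht)
      simp only [if_pos hv, if_pos h1, h2, hsum]
      rw [sub_eq_add_neg, add_assoc]
    · rw [if_neg hv, if_neg]
      intro h
      have := (hShfT V d S hS n u _ _ hn hm h (sh (-t) (neg_mem ht))).1
      rw [add_assoc, ← Pi.single_add, add_neg_cancel, Pi.single_zero, add_zero] at this
      exact hv this
  have h3 : F 0 + F (-c) + F (-c + -c) = 0 := by
    simp only [F, ← sum_add_distrib]
    refine sum_eq_zero fun v _ => ?_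
    split_ifs
    · rw [add_zero]
      exact cs_XVanT _ hc0
    · simp
  have h4 := hF 0
  rw [add_zero] at h4
  have h5 : F 0 = 0 := by linarith [hF (-c)]
  simpa only [F, add_zero] using h5

end Pool.Agent.MP_e23604_nt.T

end
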