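import Mathlib
import Pool.Agent.Mg.Fe23604m.G06f121

set_option linter.all false

namespace Pool.Agent.MP_e23604_nt.T

open Finset Filter NumberField
open MP_f68ac8_nt (cyc IsFrob)
open MP_f68ac8_nt.Zv (Ex Prob piV Unf Bx)
open MP_f68ac8_nt.Zk (NS brL lk msk Av)
open MP_f68ac8_nt.Nd (Lr Fr Gz Exm fP kap np OKp)
open Q (Wn Pre rot0)
open scoped BigOperators Topology

variable {d : ℕ}

/-- the combined form -/
def fm_XFouA (D : Dt d) (β : ZMod 3) (X : V3 d) (g : ZMod 3) : V3 d →+ ZMod 3 :=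
  AddMonoidHom.mk' (fun y => ∑ j with D.sp j = true, X j * D.Kf β y 0 j + g * D.L0 y)
    fun y y' => by
      have h1 : ∀ j, D.Kf β (y + y') 0 j = D.Kf β y 0 j + D.Kf β y' 0 j := fun j => by
        simp only [Dt.Kf, Pi.add_apply]
        rw [add_add_add_comm, ← sum_add_distrib]
        refine congrArg₂ (· + ·) (sum_congr rfl fun i _ => by ring) (by ring)
      have h2 : D.L0 (y + y') = D.L0 y + D.L0 y' := by
        simp only [Dt.L0, Pi.add_apply]
        rw [← sum_add_distrib]
        exact sum_congr rfl fun i _ => by ring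
      simp only [h1, h2, mul_add, sum_add_distrib]
      ring

theorem sum_XFouA (f : V3 d →+ ZMod 3) :
    0 ≤ (∑ y, (ZMod.stdAddChar (f y) : ℂ)).re ∧
      ((∀ y, f y = 0) → (∑ y, (ZMod.stdAddChar (f y) : ℂ)).re = 3 ^ d) := by
  classical
  constructor
  · have h := AddChar.sum_eq_ite ((ZMod.stdAddChar (N := 3)).compAddMonoidHom f)
    simp only [AddChar.compAddMonoidHom_apply] at h
    rw [h]
    split_ifs
    · simp only [Complex.natCast_re, Nat.cast_nonneg]
    · simp
  · intro h
    simp only [h, AddChar.map_zero_eq_one, sum_const, card_univ, Fintype.card_pi, ZMod.card,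
      prod_const, Fintype.card_fin, nsmul_eq_mul, mul_one, Nat.cast_pow, Nat.cast_ofNat]
    norm_cast

theorem prod_XFouA (sp : Fin d → Bool) (x : V3 d) :
    ∏ j with sp j = true, fP (x j) = 𝔼 s : Fin d → (ZMod 3)ˣ,
      (ZMod.stdAddChar (∑ j with sp j = true, (s j : ZMod 3) * x j) : ℂ) := by
  have h1 : ∀ s : Fin d → (ZMod 3)ˣ,
      (ZMod.stdAddChar (∑ j with sp j = true, (s j : ZMod 3) * x j) : ℂ) =
        ∏ j, if sp j = true then (ZMod.stdAddChar ((s j : ZMod 3) * x j) : ℂ) else 1 := by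
    intro s
    rw [← prod_filter]
    induction (univ.filter fun j => sp j = true) using Finset.induction_on with
    | empty => simp
    | insert a t ha ih => rw [sum_insert ha, prod_insert ha, AddChar.map_add_eq_mul, ih]
  have h2 : ∀ j, (if sp j = true then fP (x j) else 1) = (∑ u : (ZMod 3)ˣ,
      if sp j = true then (ZMod.stdAddChar ((u : ZMod 3) * x j) : ℂ) else 1) /
        (Fintype.card (ZMod 3)ˣ : ℂ) := by
    intro j
    rw [← Fintype.expect_eq_sum_div_card]
    split_ifs
    · rfl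
    · rw [Fintype.expect_const]
  simp only [h1]
  rw [prod_filter, Fintype.expect_eq_sum_div_card]
  simp only [h2]
  rw [prod_div_distrib, prod_univ_sum, Fintype.piFinset_univ, Fintype.card_pi]
  simp only [Nat.cast_prod]

theorem tf_XFouA (D : Dt d) (β : ZMod 3) (X : V3 d) (g : ZMod 3) (y : V3 d) :
    D.Tf (fun i j => X j * (y i - y j)) (fun j => -(X j * β * y j)) (fun i => g * y i) =
      𝔼 s : Fin d → (ZMod 3)ˣ,
        (ZMod.stdAddChar (fm_XFouA D β (fun j => s j * X j) g y) : ℂ) := by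
  rw [Dt.Tf, prod_XFouA, expect_mul]
  refine expect_congr rfl fun s _ => ?_
  rw [← AddChar.map_add_eq_mul]
  refine congrArg _ (congrArg₂ (· + ·) (sum_congr rfl fun j _ => ?_) ?_)
  · simp only [Dt.Kf, mul_add, mul_sum]
    exact congrArg₂ (· + ·) (sum_congr rfl fun i _ => by ring) (by ring)
  · simp only [Dt.L0, mul_sum]
    exact sum_congr rfl fun i _ => by ring

theorem norm_XFouA (D : Dt d) (φ : Fin d → V3 d) (c a : V3 d) : ‖D.Tf φ c a‖ ≤ 1 := by
  rw [Dt.Tf, prod_XFouA, expect_mul]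
  refine (RCLike.norm_expect_le (K := ℂ)).trans (expect_le univ_nonempty fun s _ => ?_)
  rw [← AddChar.map_add_eq_mul, AddChar.norm_apply]

open Classical in
theorem pt_XFouA (D : Dt d) (β : ZMod 3) :
    (if D.GA β then 0 else 1 : ℝ) * 3 ^ d ≤
      (∑ p : V3 d × ZMod 3 with (∀ j, D.sp j = false → p.1 j = 0) ∧ (p.1 ≠ 0 ∨ p.2 ≠ 0), ∑ y : V3 d,
        D.Tf (fun i j => p.1 j * (y i - y j)) (fun j => -(p.1 j * β * y j))
          fun i => p.2 * y i).re := by
  simp only [tf_XFouA, ← expect_sum_comm]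
  rw [Complex.re_expect]
  refine le_expect univ_nonempty fun s _ => ?_
  rw [Complex.re_sum]
  split_ifs with h
  · rw [zero_mul]
    exact sum_nonneg fun p _ => (sum_XFouA _).1
  · unfold Dt.GA at h
    push Not at h
    obtain ⟨X, g, h1, h2⟩ := h
    refine le_trans (le_of_eq ?_) (single_le_sum (fun p _ => (sum_XFouA _).1)
      (a := (fun j => if D.sp j = true then ((s j)⁻¹ : (ZMod 3)ˣ) * X j else 0, g))
      (mem_filter.2 ⟨mem_univ _, fun j hj => if_neg (by simp [hj]), ?_⟩))
    · rw [one_mul, (sum_XFouA _).2 fun y => ?_]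
      rw [← h1 y]
      refine congrArg (· + g * D.L0 y) (sum_congr rfl fun j hj => ?_)
      simp only [if_pos (mem_filter.1 hj).2, Units.mul_inv_cancel_left]
    · by_contra hc
      push Not at hc
      refine h2 (fun j hj => ?_) hc.2
      have := congrFun hc.1 j
      simp only [if_pos hj, Pi.zero_apply] at this
      exact (Units.mul_right_eq_zero _).1 this

theorem cnt_XFouA {α : Type} [Fintype α] (S : Set α) [DecidablePred (· ∈ S)] (A : ℝ) :
    ∑ t, (if t ∈ S then A else 0) = S.ncard * A := by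
  have e : S = ↑(univ.filter (· ∈ S)) := by
    ext
    simp
  rw [← sum_filter, sum_const, nsmul_eq_mul]
  conv_rhs => rw [e, Set.ncard_coe_finset]

theorem x_FouA : FouA := by
  classical
  intro d Ω _ ν D lv sp η β H
  have h3 : (0 : ℝ) < 3 ^ d := by positivity
  have hν : 0 ≤ ∑ q, ν q := sum_nonneg fun q _ => H.nn q
  refine le_of_mul_le_mul_right ?_ h3
  have h1 : (∑ q, ν q * (if (D q).GA β then 0 else 1)) * 3 ^ d ≤
      (∑ p : V3 d × ZMod 3 with (∀ j, sp j = false → p.1 j = 0) ∧ (p.1 ≠ 0 ∨ p.2 ≠ 0), ∑ y : V3 d,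
        ∑ q, (ν q : ℂ) * (D q).Tf (fun i j => p.1 j * (y i - y j)) (fun j => -(p.1 j * β * y j))
          fun i => p.2 * y i).re := by
    simp only [sum_comm (t := (univ : Finset Ω)), ← mul_sum]
    rw [Complex.re_sum, sum_mul]
    refine sum_le_sum fun q _ => ?_
    rw [Complex.re_ofReal_mul, mul_assoc]
    by_cases hq : ν q = 0
    · rw [hq, zero_mul, zero_mul]
    · refine mul_le_mul_of_nonneg_left ?_ (H.nn q)
      rw [← H.sup q hq]
      exact pt_XFouA (D q) β
  refine h1.trans ((Complex.re_le_norm _).trans ((norm_sum_le _ _).trans ?_))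
  have h2 : ∀ p ∈ univ.filter fun p : V3 d × ZMod 3 =>
      (∀ j, sp j = false → p.1 j = 0) ∧ (p.1 ≠ 0 ∨ p.2 ≠ 0), ‖∑ y : V3 d,
        ∑ q, (ν q : ℂ) * (D q).Tf (fun i j => p.1 j * (y i - y j)) (fun j => -(p.1 j * β * y j))
          fun i => p.2 * y i‖ ≤
      ∑ y : V3 d, (η + if (p.1, p.2, y) ∈ NoA lv sp β then ∑ q, ν q else 0) := by
    intro p hp
    refine (norm_sum_le _ _).trans (sum_le_sum fun y _ => ?_)
    split_ifs with h
    · refine le_add_of_nonneg_of_le H.pos ((norm_sum_le _ _).trans (sum_le_sum fun q _ => ?_))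
      rw [norm_mul, Complex.norm_real, Real.norm_of_nonneg (H.nn q)]
      exact mul_le_of_le_one_right (H.nn q) (norm_XFouA _ _ _ _)
    · rw [add_zero]
      refine H.osc _ _ _ (not_not.1 fun e => h ?_)
      exact ⟨(mem_filter.1 hp).2.1, (mem_filter.1 hp).2.2, e⟩
  refine (sum_le_sum h2).trans ((sum_le_sum_of_subset_of_nonneg (subset_univ _) fun p _ _ =>
    sum_nonneg fun y _ => add_nonneg H.pos (by split_ifs <;> simp [hν])).trans_eq ?_)
  have h4 := cnt_XFouA (NoA lv sp β) (∑ q, ν q)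
  simp only [Fintype.sum_prod_type] at h4
  simp only [sum_add_distrib, Fintype.sum_prod_type, h4, sum_const, card_univ, Fintype.card_pi,
    ZMod.card, prod_const, Fintype.card_fin, nsmul_eq_mul, Nat.cast_pow, Nat.cast_ofNat,
    Fintype.card_prod, Nat.cast_mul]
  field_simp
  ring

end Pool.Agent.MP_e23604_nt.T
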