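import Mathlib
import Pool.Agent.Mg.Fe23604m.G06f121

set_option linter.all false

section

namespace Pool.Agent.MP_e23604_nt.T

open Finset Filter NumberField
open MP_f68ac8_nt (cyc IsFrob)
open MP_f68ac8_nt.Zv (Ex Prob piV Unf Bx)
open MP_f68ac8_nt.Zk (NS brL lk msk Av)
open MP_f68ac8_nt.Nd (Lr Fr Gz Exm fP kap np OKp)
open Q (Wn Pre rot0)
open scoped BigOperators Topology

section
open MP_f68ac8_nt.Zk (Cube)

variable {P ι : Type} [Group P] [DecidableEq ι] {F : ℕ → Subgroup P} {R : Finset ι}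

theorem conj_XCubM (hN : ∀ k, (F k).Normal) (a : P) {f : Finset ι → P} (hf : f ∈ Cube F R) :
    (fun ω => a * f ω * a⁻¹) ∈ Cube F R := by
  induction hf using Subgroup.closure_induction with
  | mem f hf =>
    obtain ⟨S, hS, c, hc, rfl⟩ := hf
    exact Subgroup.subset_closure ⟨S, hS, _, (hN _).conj_mem c hc a, funext fun ω => by
      by_cases h : S ⊆ ω <;> simp [h]⟩
  | one =>
    simp only [Pi.one_apply, mul_one, mul_inv_cancel]
    exact one_mem _
  | mul f g _ _ hf hg =>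
    have e : (fun ω => a * (f * g) ω * a⁻¹) = (fun ω => a * f ω * a⁻¹) * fun ω => a * g ω * a⁻¹ :=
      funext fun ω => by simp [mul_assoc]
    exact e ▸ mul_mem hf hg
  | inv f _ hf =>
    have e : (fun ω => a * f⁻¹ ω * a⁻¹) = (fun ω => a * f ω * a⁻¹)⁻¹ :=
      funext fun ω => by simp [mul_assoc]
    exact e ▸ inv_mem hf

theorem val_XCubM (hF : NS F) {f : Finset ι → P} (hf : f ∈ Cube F R) (ω : Finset ι) :
    f ω ∈ F 1 := by
  induction hf using Subgroup.closure_induction with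
  | mem f hf =>
    obtain ⟨S, -, c, hc, rfl⟩ := hf
    dsimp only
    split_ifs
    exacts [hF.anti _ _ le_rfl (le_max_left _ _) hc, one_mem _]
  | one => exact one_mem _
  | mul f g _ _ hf hg => exact mul_mem hf hg
  | inv f _ hf => exact inv_mem hf

theorem cst_XCubM {a : P} (ha : a ∈ F 1) : (fun _ => a) ∈ Cube F R :=
  Subgroup.subset_closure ⟨∅, empty_subset _, a, ha, funext fun _ => (if_pos (empty_subset _)).symm⟩

/-- cubes up to a constant factor -/
def grp_XCubM (hN : ∀ k, (F k).Normal) (R : Finset ι) : Subgroup (Finset ι → P) where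
  carrier := {f | ∃ a, (fun ω => a * f ω) ∈ Cube F R}
  one_mem' := ⟨1, by
    simp only [Pi.one_apply, mul_one]
    exact one_mem _⟩
  mul_mem' := by
    rintro f g ⟨a, ha⟩ ⟨b, hb⟩
    have e : (fun ω => b * a * (f * g) ω) = (fun ω => b * (a * f ω) * b⁻¹) * fun ω => b * g ω :=
      funext fun ω => by simp [mul_assoc]
    exact ⟨b * a, e ▸ mul_mem (conj_XCubM hN b ha) hb⟩
  inv_mem' := by
    rintro f ⟨a, ha⟩
    have e : (fun ω => a⁻¹ * f⁻¹ ω) = (fun ω => a⁻¹ * (a * f ω) * a⁻¹⁻¹)⁻¹ :=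
      funext fun ω => by simp
    exact ⟨a⁻¹, e ▸ inv_mem (conj_XCubM hN a⁻¹ ha)⟩

theorem word_XCubM (hN : ∀ k, (F k).Normal) {d : ℕ} {Λ B : Type} {x : Fin d → P} (x0 : B → P)
    (q : Fin d → Λ) {J : Finset ι → Finset (Fin d)} (hx : ∀ j, x j ∈ F 1)
    (hJ : ∀ j, (∀ ω, j ∈ J ω) ∨ (∀ ω, j ∉ J ω) ∨ ∃ s ∈ R, ∀ ω, j ∈ J ω ↔ s ∈ ω)
    (w : FreeGroup (Λ ⊕ B)) :
    (fun ω => FreeGroup.lift (vT q (msk (J ω) x) x0) w) ∈ grp_XCubM hN R := by
  induction w using FreeGroup.induction_on with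
  | C1 =>
    simp only [map_one]
    exact one_mem _
  | of l =>
    simp only [FreeGroup.lift_apply_of]
    rcases l with l | b
    · refine ⟨1, ?_⟩
      simp only [one_mul, vT, Sum.elim_inl]
      induction List.finRange d with
      | nil => exact one_mem _
      | cons j L ih =>
        simp only [List.map_cons, List.prod_cons]
        refine mul_mem (a := fun ω => _) ?_ ih
        split_ifs
        · rcases hJ j with h | h | ⟨s, hs, h⟩
          · simpa only [msk, if_pos (h _)] using cst_XCubM (hx j)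
          · simpa only [msk, if_neg (h _)] using cst_XCubM (one_mem _)
          · exact Subgroup.subset_closure ⟨{s}, singleton_subset_iff.2 hs, x j, hx j,
              funext fun ω => by simp [msk, h ω]⟩
        · exact one_mem _
    · refine ⟨(x0 b)⁻¹, ?_⟩
      simp only [vT, Sum.elim_inr, inv_mul_cancel]
      exact one_mem _
  | inv_of l h =>
    simp only [map_inv]
    exact inv_mem h
  | mul a b ha hb =>
    simp only [map_mul]
    exact mul_mem ha hb

end

theorem x_CubM (hVtT : VtT) : CubM := by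
  intro P _ F hF hN d Λ B ι _ R x x0 q q' w w' J hx hJ ⟨ω₀, h₀⟩
  obtain ⟨a, ha⟩ := mul_mem (inv_mem (word_XCubM hN x0 q' hx hJ w')) (word_XCubM hN x0 q hx hJ w)
  have h1 := val_XCubM hF ha ω₀
  simp only [Pi.mul_apply, Pi.inv_apply, h₀, inv_mul_cancel, mul_one] at h1
  have h2 := mul_mem (inv_mem (cst_XCubM h1)) ha
  refine (congrArg (· ∈ MP_f68ac8_nt.Zk.Cube F R) (funext fun ω => ?_)).mp h2
  simp

end Pool.Agent.MP_e23604_nt.T

end

section

namespace Pool.Agent.MP_e23604_nt.T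

open Finset Filter NumberField
open MP_f68ac8_nt (cyc IsFrob)
open MP_f68ac8_nt.Zv (Ex Prob piV Unf Bx)
open MP_f68ac8_nt.Zk (NS brL lk msk Av)
open MP_f68ac8_nt.Nd (Lr Fr Gz Exm fP kap np OKp)
open Q (Wn Pre rot0)
open scoped BigOperators Topology

theorem x_TrmT (hBasT : BasT) (hFilT : FilT) (hBrT : BrT) (hIvT : IvT) (hPsT : PsT) : TrmT := by
  intro V _ B hC d n η₀ ι bb lv u v z γ ε s i j t c hm hn h1 hv hε hnd hlen hs huij hzt hc
  have hl : (s ++ [i, j]).length = s.length + 2 := by simp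
  obtain ⟨-, -, -, -, -, hz0, hadd, -⟩ := hBasT V B.J B.T hC
  obtain ⟨p1, p2, p3⟩ := hPsT V B.J B.T hC B.m n (s.length + 2) (v t) (hv t).1 hm hn hlen
  refine ⟨hnd, ?_, ?_, fun a ha => (hs a ha).1, fun a => ?_, ?_, ?_, ?_, ?_, ?_, fun r => ?_⟩
  · change 2 ≤ (s ++ [i, j]).length
    omega
  · change (s ++ [i, j]).length + 1 ≤ B.m
    omega
  · exact ((hFilT V B.J B.T hC B.m).2.2.2.1 (v a) (hv a).1).2.2
  · intro g hg h hh
    change g ∈ Fk B.J B.m (s ++ [i, j]).length at hg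
    change h ∈ Fk B.J B.m (s ++ [i, j]).length at hh
    rw [hl] at hg hh
    change ε * z t * dig B.J B.T n ((g * h).1 (v t) - v t) =
      ε * z t * dig B.J B.T n (g.1 (v t) - v t) + ε * z t * dig B.J B.T n (h.1 (v t) - v t)
    rw [p1 g hg h hh, mul_add]
  · intro g hg
    change g ∈ Fk B.J B.m ((s ++ [i, j]).length + 1) at hg
    rw [hl] at hg
    change ε * z t * dig B.J B.T n (g.1 (v t) - v t) = 0
    rw [p2 g hg, mul_zero]
  · intro g hg a
    change g ∈ Fk B.J B.m (s ++ [i, j]).length at hg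
    rw [hl] at hg
    change ε * z t * dig B.J B.T n ((a * g * a⁻¹).1 (v t) - v t) =
      ε * z t * dig B.J B.T n (g.1 (v t) - v t)
    rw [p3 g hg a]
  · have hij : v i - v j ∉ Wn B.J B.m := by
      intro h
      have a1 := (hz0 B.m _ (sub_mem (hv i).1 (hv j).1)).2 h
      rw [(hadd B.m _ (hv i).1 _ (hv j).1).2, (hv i).2, (hv j).2] at a1
      exact huij (sub_eq_zero.1 a1)
    obtain ⟨w, w1, w2, w3⟩ := hBrT V B.J B.T hC B.m (s.map v) (v i) (v j)
      (fun y hy => by
        obtain ⟨a, -, rfl⟩ := List.mem_map.1 hy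
        exact (hv a).1) (hv i).1 (hv j).1 hij (by rw [List.length_map]; omega)
    rw [List.length_map, show B.m - 2 - s.length = n by omega] at w2
    rw [List.length_map, show B.m - 1 - s.length = n + 1 by omega] at w1
    have e : (s ++ [i, j]).map (B.xr v) = (s.map v ++ [v i, v j]).map (rot B.J B.m) := by
      have : s.map v ++ [v i, v j] = (s ++ [i, j]).map v := by simp
      rw [this, List.map_map]
      rfl
    change ε * z t * dig B.J B.T n ((brL ((s ++ [i, j]).map (B.xr v))).1 (v t) - v t) ≠ 0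
    rw [e, w3, add_sub_cancel_left]
    have : Fact (Nat.Prime 3) := ⟨by norm_num⟩
    exact mul_ne_zero (mul_ne_zero hε hzt) fun h => w2 ((hz0 n w w1).1 h)
  · intro r Z Z' hr hZ h3
    have hr' : (ofP r).e t * (r t t).2 = ε := by
      by_contra h
      exact hr (if_neg h)
    change ∀ a, (Z' a)⁻¹ * Z a ∈ Fk B.J B.m (s ++ [i, j]).length at h3
    rw [hl] at h3
    obtain ⟨b1, b2, b3, b4, b5⟩ := hIvT V B hC d n (s.length + 2) η₀ v Z Z' hn hlen
      (fun a => (hv a).1) hZ h3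
    refine ⟨b1, fun h4 => ?_⟩
    change ∀ a, (∀ b ∈ s ++ [i, j], a ≠ Sum.inl b) → a ≠ Sum.inl t →
      (Z' a)⁻¹ * Z a ∈ Fk B.J B.m ((s ++ [i, j]).length + 1) at h4
    rw [hl] at h4
    change B.obW η₀ n v z γ (fun j => (ofP r).e j * (r j j).2) Z =
      B.obW η₀ n v z γ (fun j => (ofP r).e j * (r j j).2) Z' +
      ε * z t * dig B.J B.T n (((Z' (Sum.inl t))⁻¹ * Z (Sum.inl t)).1 (v t) - v t)
    unfold Bs.obW
    have c1 := b4 (h4 _ (fun _ _ => Sum.inr_ne_inl) Sum.inr_ne_inl)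
    have c2 : ∑ k : Fin B.m with n ≤ k.1, dig B.J B.T k ((Z (Sum.inr (some k))).1 0) =
        ∑ k : Fin B.m with n ≤ k.1, dig B.J B.T k ((Z' (Sum.inr (some k))).1 0) :=
      sum_congr rfl fun k hk => b5 _ _ (mem_filter.1 hk).2
        (h4 _ (fun _ _ => Sum.inr_ne_inl) Sum.inr_ne_inl)
    have c3 : ∑ a ∈ univ.erase t, (ofP r).e a * (r a a).2 * z a *
          dig B.J B.T n (B.evW η₀ v Z (some a)) =
        ∑ a ∈ univ.erase t, (ofP r).e a * (r a a).2 * z a *
          dig B.J B.T n (B.evW η₀ v Z' (some a)) := by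
      refine sum_congr rfl fun a ha => ?_
      by_cases h6 : a ∈ s ++ [i, j]
      · rw [(hs a h6).2, mul_zero, zero_mul, zero_mul]
      · rw [b3 a (h4 _ (fun b hb e => h6 (Sum.inl_injective e ▸ hb))
          fun e => ne_of_mem_erase ha (Sum.inl_injective e))]
    rw [c1, c2, ← add_sum_erase _ _ (mem_univ t),
      ← add_sum_erase _ (fun a => (ofP r).e a * (r a a).2 * z a *
        dig B.J B.T n (B.evW η₀ v Z' (some a))) (mem_univ t), c3, b2 t, ← hr']
    ring
  · change |if (ofP r).e t * (r t t).2 = ε then c r else 0| ≤ 1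
    split_ifs
    · exact hc r
    · simp

end Pool.Agent.MP_e23604_nt.T

end
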