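import Mathlib
import Pool.Agent.Mg.Fe23604m.G06f121

set_option linter.all false

section

namespace Pool.Agent.MP_e23604_nt.T

open Finset Filter NumberField
open MP_f68ac8_nt (cyc IsFrob)
open MP_f68ac8_nt.Zv (Ex Prob piV Unf Bx)
open MP_f68ac8_nt.Zk (NS brL lk msk Av)
open MP_f68ac8_nt.Nd (Lr Fr Gz Exm fP kap np OKp)
open Q (Wn Pre rot0)
open scoped BigOperators Topology

theorem mem_XObT {V : Type} [AddCommGroup V] {W : Submodule ℤ V} {a b c : V} (ha : a ∈ W)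
    (hb : b ∈ W) (e : c = a - b) : c ∈ W := e ▸ sub_mem ha hb

theorem x_ObT (hBasT : BasT) (hUniT : UniT) : ObT := by
  intro V _ _ d S hS
  obtain ⟨b1, -, -, -, -, b6, -, -, b9, -⟩ := hBasT V S.J S.T hS.cm.toCm0
  have h1 : ∀ n v x x', S.Ap n v x → S.Ap n v x' → ∀ g, x g - x' g ∈ Wn S.J n := by
    intro n v x x' h h'
    refine hUniT V S.J S.T hS.cm.toCm0 S.η S.R S.e S.β S.σ S.τ hS.gm hS.tl (fun l hl => ?_)
      (fun g => x g - x' g) S.m n (h.lc.comp₂ h'.lc fun a b => a - b)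
      (fun g => sub_mem (h.val g) (h'.val g))
      (fun g k => mem_XObT (h.co g k) (h'.co g k) (by rw [map_sub]; abel))
      (fun P hP g hg => sub_mem (h.unr P hP g hg) (h'.unr P hP g hg))
      (fun g hg => mem_XObT (h.thr g hg) (h'.thr g hg) (by abel)) fun l hl => ?_
    · obtain ⟨j, -, rfl⟩ := mem_image.1 hl
      exact hS.pri j
    · obtain ⟨j, -, rfl⟩ := mem_image.1 hl
      exact mem_XObT (h.tam j) (h'.tam j) (by abel)
  have h2 : ∀ n v x x', S.Ap n v x → S.Ap n v x' → ∀ i,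
      ∃ w ∈ Wn S.J n, S.Ev x v i = S.Ev x' v i + w := by
    intro n v x x' h h' i
    cases i with
    | none => exact ⟨_, h1 n v x x' h h' S.φ, by simp only [Sy.Ev]; abel⟩
    | some j => exact ⟨_, h1 n v x x' h h' (S.σ (S.l j)), by simp only [Sy.Ev]; abel⟩
  have h3 : ∀ n v x, S.Ap n v x → ∀ i, S.ob n v i = dig S.J S.T n (S.Ev x v i) := by
    intro n v x h i
    obtain ⟨w, hw, e⟩ := h2 n v _ x (Classical.epsilon_spec ⟨x, h⟩) h i
    rw [Sy.ob, e, b9 n _ w hw]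
  have h4 : ∀ n v x, S.Ap n v x → ∀ n', n ≤ n' → S.Ap n' v x := fun n v x h n' hn =>
    ⟨h.lc, fun g k => b1 _ _ hn (h.co g k), h.val, fun P hP g hg => b1 _ _ hn (h.unr P hP g hg),
      fun g hg => b1 _ _ hn (h.thr g hg), fun j => b1 _ _ hn (h.tam j)⟩
  intro n v
  refine ⟨h1 n v, fun x h => ⟨h3 n v x h, h4 n v x h⟩, fun u => ⟨?_, ?_⟩, ?_, ?_⟩
  · rintro ⟨c, x, h, e⟩
    have e' := fun i => b1 _ _ (Nat.le_succ n) (e i)
    exact ⟨⟨c, x, h, e'⟩, fun i => (h3 n v x h i).trans ((b6 n _ (e' i)).2 (e i))⟩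
  · rintro ⟨⟨c, x, h, e⟩, h0⟩
    exact ⟨c, x, h, fun i => (b6 n _ (e i)).1 ((h3 n v x h i).symm.trans (h0 i))⟩
  · rintro u k x hk ⟨-, x', h', e⟩ h i
    obtain ⟨w, hw, e'⟩ := h2 n v x x' h h' i
    rw [e']
    exact add_mem (e i) (b1 _ _ hk hw)
  · rintro u k n' k' hn hk ⟨c, x, h, e⟩
    exact ⟨c, x, h4 n v x h n' hn, fun i => b1 _ _ hk (e i)⟩

end Pool.Agent.MP_e23604_nt.T

end

section

namespace Pool.Agent.MP_e23604_nt.T

open Finset Filter NumberField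
open MP_f68ac8_nt (cyc IsFrob)
open MP_f68ac8_nt.Zv (Ex Prob piV Unf Bx)
open MP_f68ac8_nt.Zk (NS brL lk msk Av)
open MP_f68ac8_nt.Nd (Lr Fr Gz Exm fP kap np OKp)
open Q (Wn Pre rot0)
open scoped BigOperators Topology

theorem x_RecP (hBasT : BasT) (hDecT : DecT) (hTamT : TamT) (hActB : ActB) (hObT : ObT)
    (hAdmT : AdmT) : RecP := by
  intro V _ _ d S hS n u v x hv hx
  obtain ⟨M, hM, -, -, hm⟩ := (hAdmT V d S hS).2 n v x hx
  have hle := (hBasT V S.J S.T hS.cm.toCm0).1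
  have hpre : ∀ g, Pre S.J (S.η g) := fun g =>
    (hActB V S.J S.T hS.cm.toCm0 S.η S.R S.e S.β S.σ S.τ hS.gm hS.tl
      (forall_mem_image.2 fun j _ => hS.pri j) g).1.1
  have hE := (hObT V d S hS n v).2.2.2.1 u (n + 1) x (Nat.le_succ n) hv hx
  obtain ⟨Z, hZ⟩ : ∃ Z : V → ℕ → GQ → Prop, ∀ p j g, Z p j g ↔ x g + S.η g p - p ∈ Wn S.J j :=
    ⟨_, fun _ _ _ => Iff.rfl⟩
  have z1 : ∀ p j, n ≤ j → ∀ g h, Z p j g → Z p j h → Z p j (g * h) := fun p j hj g h hg hh => by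
    rw [hZ] at hg hh ⊢
    have e : x (g * h) + S.η (g * h) p - p = (x (g * h) - (x g + S.η g (x h))) +
        (x g + S.η g p - p) + S.η g (x h + S.η h p - p) := by
      rw [map_mul, LinearEquiv.mul_apply, map_sub, map_add]
      abel
    rw [e]
    exact add_mem (add_mem (hle n j hj (hx.co g h)) hg) ((hpre g j _).2 hh)
  have z2 : ∀ p j, n ≤ j → ∀ g ∈ M, Z p j g := fun p j hj g hg => by
    obtain ⟨h1, h2⟩ := (hm g).1 hg
    rw [hZ, h1]
    simpa using hle n j hj h2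
  have z3 : ∀ p j, n ≤ j → ∀ g, Z p j g → ∀ k : ℕ, Z p j (g ^ k) := fun p j hj g hg k => by
    induction k with
    | zero => exact z2 p j hj _ (by rw [pow_zero]; exact M.one_mem)
    | succ k ih => rw [pow_succ]; exact z1 p j hj _ _ ih hg
  have z4 : ∀ p j, n ≤ j → ∀ g h, g⁻¹ * h ∈ M → Z p j g → Z p j h := fun p j hj g h e hg => by
    have := z1 p j hj _ _ hg (z2 p j hj _ e)
    rwa [mul_inv_cancel_left] at this
  have z5 : ∀ p g, Z p n g → Z p (n + 1) g := fun p g hg =>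
    (hZ _ _ _).2 (hle n _ (Nat.le_succ n) ((hZ _ _ _).1 hg))
  have z6 : ∀ p (l : ℕ) (P : Ideal (𝓞 Qb)) σ, l.Prime → P.IsMaximal → (l : 𝓞 Qb) ∈ P →
      IsFrob l P σ → Z p (n + 1) σ → (∀ g ∈ P.inertia GQ, Z p n g) →
      ∀ g ∈ DP P, Z p (n + 1) g := fun p l P σ hl hP hlP hσ h1 h2 g hg => by
    obtain ⟨k, i, hi, e⟩ :=
      (((hDecT.2.2.2 P hP).2.2.2.2 l hl hlP).2.2 σ hσ).2.2 M hM.nrm hM.nhds g hg
    exact z4 p _ (Nat.le_succ n) _ _ e
      (z1 p _ (Nat.le_succ n) _ _ (z3 p _ (Nat.le_succ n) _ h1 k) (z5 p i (h2 i hi)))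
  have e0 : ∀ g, x g + S.η g S.o - S.o = x g - (S.o - S.η g S.o) := fun g => by abel
  refine ⟨fun g hg => (hZ _ _ _).1 (z6 S.o 3 P3 S.φ Nat.prime_three hDecT.1 hDecT.2.1 hS.fr ?_
    (fun g hg => ?_) g hg), fun j P hP hl hσ hτ => ?_⟩
  · rw [hZ, e0]
    exact hE none
  · rw [hZ, e0]
    exact hx.thr g hg
  · have hL := hS.tl _ (hS.pri j)
    have h1 : Z (v j) n (S.τ (S.l j)) := by
      rw [hZ, hS.gm.tam _ (mem_image_of_mem _ (mem_univ j)) _ _ (hS.cm.top _),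
        show x (S.τ (S.l j)) + S.J (v j) - v j = x (S.τ (S.l j)) - (v j - S.J (v j)) by abel]
      exact hx.tam j
    have h2 : ∀ g ∈ P.inertia GQ, Z (v j) n g := fun g hg => by
      obtain ⟨k, e⟩ := hTamT _ P _ (hS.pri j) hP hl hτ (hL.tau ▸ hL.ne) M hM.nrm hM.nhds hM.pg g hg
      exact z4 _ n le_rfl _ _ e (z3 _ n le_rfl _ h1 k)
    exact ⟨fun g hg => (hZ _ _ _).1
      (z6 _ _ P _ (hS.pri j).1 hP hl hσ ((hZ _ _ _).2 (hE (some j))) h2 g hg),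
      fun g hg => (hZ _ _ _).1 (h2 g hg)⟩

end Pool.Agent.MP_e23604_nt.T

end
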