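import Mathlib
import Pool.Agent.Mg.Fe23604m.G06f121

set_option linter.all false

section

namespace Pool.Agent.MP_e23604_nt.T

open Finset Filter NumberField
open MP_f68ac8_nt (cyc IsFrob)
open MP_f68ac8_nt.Zv (Ex Prob piV Unf Bx)
open MP_f68ac8_nt.Zk (NS brL lk msk Av)
open MP_f68ac8_nt.Nd (Lr Fr Gz Exm fP kap np OKp)
open Q (Wn Pre rot0)
open scoped BigOperators Topology

theorem x_KumA (hKUG : S.KUG_st) (hDicA : DicA) (hDicB : DicB) (hDecT : DecT) (hValK : ValK) :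
    KumA := by
  intro σ τ e hT R hR a h1 h2 h3
  obtain ⟨hB, ε, -, hε⟩ := hDicB
  have hU : ∀ (P : Ideal (𝓞 Qb)) (l : ℕ), P.IsMaximal → l.Prime → (l : 𝓞 Qb) ∈ P → ∀ l' : ℕ,
      l'.Prime → l' ≠ l → (l' : 𝓞 Qb) ∉ P := fun P l hP hl hm l' hl' hne c =>
    hne (((hDecT.2.2.2 P hP).2.2.2.2 l hl hm).1 l' hl' c)
  obtain ⟨u, hu⟩ := hKUG a R (fun g _ h _ => by rw [(hB g).2, h2])
    (MP_e23604_nt.R.lc_iff.1 h1)
    (fun l hl => (hR l hl).1) fun l hl h4 h5 g hg => by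
      obtain ⟨c1, c2, c3, -⟩ := hDicA.2 l 1
      exact h3 _ ⟨c1, hU _ l c1 hl.out c2 3 Nat.prime_three h4.symm,
        fun l' hl' => hU _ l c1 hl.out c2 l' (hR l' hl').1 fun c => h5 (c ▸ hl')⟩ g ((c3 g).2 hg)
  have h4 : ∀ g ∈ Gz 3, a g = kD R (fun l => u l * ε) (u 3 * ε) g := fun g hg => by
    rw [hu g ((hB g).1.2 hg), sum_insert fun c => (hR 3 c).2 rfl, kD, hε 3 three_ne_zero g hg,
      mul_assoc]
    exact congrArg _ (sum_congr rfl fun l hl => by rw [hε l (hR l hl).1.ne_zero g hg, mul_assoc])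
  refine ⟨u 3 * ε, fun g hg => ?_⟩
  rw [h4 g hg, kD, kD]
  refine congrArg _ (sum_congr rfl fun l hl => congrArg (· * kk l g) ?_)
  obtain ⟨⟨P, p1, p2, -, p3⟩, p4, p5, -⟩ := hT l (hR l hl)
  have p6 := hU P l p1 (hR l hl).1 p2
  have p7 := p6 3 Nat.prime_three (hR l hl).2.symm
  have p8 : ∀ x : ZMod 3, x ≠ 0 → x * x = 1 := by decide
  rw [h4 _ ((hDecT.2.2.2 P p1).2.2.1 p7 _ p3), kD, (hValK 3 Nat.prime_three).2.2 P p1 p7 p7 _ p3,
    mul_zero, zero_add, sum_eq_single_of_mem l hl fun l' hl' hne => by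
      rw [(hValK l' (hR l' hl').1).2.2 P p1 p7 (p6 l' (hR l' hl').1 hne) _ p3, mul_zero],
    p5, mul_assoc (u l * ε), p8 _ p4, mul_one]

end Pool.Agent.MP_e23604_nt.T

end

section

namespace Pool.Agent.MP_e23604_nt.T

open Finset Filter NumberField
open MP_f68ac8_nt (cyc IsFrob)
open MP_f68ac8_nt.Zv (Ex Prob piV Unf Bx)
open MP_f68ac8_nt.Zk (NS brL lk msk Av)
open MP_f68ac8_nt.Nd (Lr Fr Gz Exm fP kap np OKp)
open Q (Wn Pre rot0)
open scoped BigOperators Topology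

theorem x_PaT : PaT := by
  intro Λ d e q b β c₀
  have h1 : ofP (prs (pa e) q b) = dtl e fun j => (q j : ℕ) := rfl
  refine ⟨h1, ?_, fun hq => ?_⟩
  · rw [Act, h1]
    refine and_congr_left fun _ => ⟨fun h i j hij => h i j ?_, fun h i j hij => h ?_⟩
    · exact decide_eq_true (congrArg Subtype.val hij)
    · exact Subtype.ext (of_decide_eq_true hij)
  · rw [sum_image fun i _ j _ h => hq (Subtype.ext h)]
    rfl

end Pool.Agent.MP_e23604_nt.T

end

section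

namespace Pool.Agent.MP_e23604_nt.T

open Finset Filter NumberField
open MP_f68ac8_nt (cyc IsFrob)
open MP_f68ac8_nt.Zv (Ex Prob piV Unf Bx)
open MP_f68ac8_nt.Zk (NS brL lk msk Av)
open MP_f68ac8_nt.Nd (Lr Fr Gz Exm fP kap np OKp)
open Q (Wn Pre rot0)
open scoped BigOperators Topology

theorem sum_XTwoT {p : Prop} [Decidable p] {ε : ZMod 3} (hε : ε ≠ 0) (c : ℝ) (x : ℂ) :
    ((if p then ((if ε = 1 then c else 0 : ℝ) : ℂ) * x else 0) +
      if p then ((if ε = -1 then c else 0 : ℝ) : ℂ) * x else 0) = c * if p then x else 0 := by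
  have h : ε = 1 ∨ ε = -1 := by
    revert ε
    decide
  have e : (1 : ZMod 3) ≠ -1 := by decide
  by_cases hp : p
  · rcases h with rfl | rfl
    · simp [hp, e]
    · simp [hp, e.symm]
  · simp [hp]

theorem cop_XTwoT {b : ℕ} (h : Nat.Coprime b 6) : (b : ZMod 3) ≠ 0 := by
  intro e
  have h3 : 3 ∣ b := (ZMod.natCast_eq_zero_iff b 3).1 e
  have := Nat.dvd_gcd h3 (show 3 ∣ 6 by norm_num)
  rw [h] at this
  omega

theorem ph_XTwoT {V : Type} [AddCommGroup V] {d : ℕ} (S : Sy V d) (n : ℕ) (v : Fin d → V)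
    (z : V3 d) (γ b : ZMod 3) (h : S.ph n v 1 S.β = 0) :
    S.ph n v (fun x => z x - b) (γ - S.β * b) = S.ph n v z γ := by
  have e : S.ph n v z γ = S.ph n v (fun x => z x - b) (γ - S.β * b) + b * S.ph n v 1 S.β := by
    simp only [Sy.ph, Pi.one_apply, mul_add, mul_sum]
    rw [add_add_add_comm, ← sum_add_distrib]
    congr 1
    · exact sum_congr rfl fun j _ => by ring
    · ring
  rw [e, h, mul_zero, add_zero]

theorem x_TwoT (hSelT : SelT) (hTrmT : TrmT) (hWvT : WvT) (hRecT : RecT) (hPaT : PaT) : TwoT := by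
  classical
  intro V _ B hB _ d n η₀ ι bb lv u v z γ c hm hn hu hr hc
  obtain ⟨h1, h2, h3⟩ : n + 2 ≤ B.m ∧ Even n ∧ 2 ≤ n := by
    have a1 := mem_filter.1 hn
    have a2 := mem_range.1 a1.1
    exact ⟨by omega, a1.2⟩
  obtain ⟨s, i, j, t, b, s1, s2, s3, s4, s5⟩ :=
    hSelT d B.m (B.m - n) lv u z hr (by omega) (by omega)
  refine ⟨fun a => B.mkT η₀ bb n v (fun x => z x - b) (γ - B.β * b) (if a then 1 else -1)
    (s ++ [i, j]) t c, fun a => ⟨hTrmT V B hB d n η₀ ι bb lv u v _ _ _ s i j t c hm h2 (by omega) hu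
      (by cases a <;> decide) s1 (by omega)
      (fun x hx => ⟨(s3 x hx).1, sub_eq_zero.2 (s3 x hx).2⟩) s4 (sub_ne_zero.2 s5) hc,
      fun r hr => by simp [Bs.mkT, hr]⟩, ?_⟩
  intro Λ η N q b' y w hW hG 𝓡 _ _ s' hs'
  have key := hWvT V d Λ ι ⟨B, η, fun j => q j⟩ η₀ bb N q hW t.pos u v n b' y w
    (fun x => z x - b) (γ - B.β * b) hu h2 hG 𝓡 s' hs'
  have hε : B.e (q t) * (b' t : ZMod 3) ≠ 0 :=
    mul_ne_zero (hW.ok.tl _ (hW.ok.pri t)).ne (cop_XTwoT (hG.cop t))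
  have e1 : ∀ Y : Fin d ⊕ Option (Fin B.m) → FreeGroup (Λ ⊕ ι),
      ∑ a : Bool, (B.mkT η₀ bb n v (fun x => z x - b) (γ - B.β * b) (if a then 1 else -1)
        (s ++ [i, j]) t c).val (prs (pa B.e) q b') q Y = c (prs (pa B.e) q b') *
        if B.cnW η₀ n v (fun i => B.pw η₀ bb q v (Y i)) then
          (ZMod.stdAddChar (B.obW η₀ n v (fun x => z x - b) (γ - B.β * b)
            (fun j => B.e (q j) * b' j) fun i => B.pw η₀ bb q v (Y i)) : ℂ) else 0 := fun Y => by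
    rw [Fintype.sum_bool]
    exact sum_XTwoT hε _ _
  simp only [e1]
  rw [← mul_expect]
  erw [key]
  split_ifs with hv
  · rw [Complex.re_ofReal_mul, cs]
    exact congrArg (fun x => c (prs (pa B.e) q b') * (ZMod.stdAddChar x : ℂ).re)
      (ph_XTwoT ⟨B, η, fun j => q j⟩ n v z γ b
        (hRecT V d _ hW.ok n u v h2 h3 (by omega : n ≤ B.m) hv))
  · simp

end Pool.Agent.MP_e23604_nt.T

end
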