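import Mathlib
import Pool.Agent.Mg.Fe23604m.G06f121

set_option linter.all false

namespace Pool.Agent.MP_e23604_nt.T

open Finset Filter NumberField
open MP_f68ac8_nt (cyc IsFrob)
open MP_f68ac8_nt.Zv (Ex Prob piV Unf Bx)
open MP_f68ac8_nt.Zk (NS brL lk msk Av)
open MP_f68ac8_nt.Nd (Lr Fr Gz Exm fP kap np OKp)
open Q (Wn Pre rot0)
open scoped BigOperators Topology

theorem pow_XDetT {A : Type} [AddCommGroup A] {J : A ≃ₗ[ℤ] A}
    (h : ∀ n u, 3 • u ∈ Wn J n ↔ u ∈ Wn J (n + 2)) (k j : ℕ) (u : A) :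
    3 ^ k • u ∈ Wn J j ↔ u ∈ Wn J (j + 2 * k) := by
  induction k generalizing j with
  | zero => simp
  | succ k ih =>
    rw [pow_succ', mul_smul, h, ih, show j + 2 + 2 * k = j + 2 * (k + 1) by ring]

theorem st_XDetT {A : Type} [AddCommGroup A] {J : A ≃ₗ[ℤ] A} {η : GQ →* (A ≃ₗ[ℤ] A)}
    {R : Finset ℕ} {x : GQ → A} (hx : x ∈ St J η R) (c : ℕ) :
    (fun g => c • x g) ∈ St J η R := by
  obtain ⟨h1, h2, ⟨K, h3⟩, h4, h5⟩ := hx
  refine ⟨h1.comp fun u => c • u, fun g h => ?_, ⟨K, fun g => nsmul_mem (h3 g) c⟩,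
    fun P hP g hg => ?_, fun g hg => ?_⟩
  · simp only [h2 g h, smul_add, map_nsmul]
  · simp only [h4 P hP g hg, smul_zero]
  · simp only [h5 g hg, smul_zero]

theorem x_DetT (hBasT : BasT) (hLevS : LevS) (hDecT : DecT) (hUniT : UniT) (hLevT : LevT)
    (hOddT : OddT) : DetT := by
  classical
  intro A _ d J T η e β σ τ l η₀ hC hG hT hinj hP hgen hinf M hMe hM
  obtain ⟨mono, h0, hom, -, hthree, -⟩ := hBasT A J T hC.toCm0
  have hL := hLevT A d J T η e β σ τ l η₀ hC hG hT hinj hP hgen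
  have hO := hOddT A d J T η e β σ τ l η₀ hC hG hT hinj hP hgen
  have hI : ∀ x ∈ St J η (univ.image l), ∀ y ∈ St J η (univ.image l),
      (∀ j, x (τ (l j)) = y (τ (l j))) → x = y := by
    rintro x ⟨a1, a2, ⟨K, a3⟩, a4, a5⟩ y ⟨b1, b2, ⟨K', b3⟩, b4, b5⟩ h
    funext g
    have h1 := hUniT A J T hC.toCm0 η _ e β σ τ hG.toGm0 hT
      (fun q hq => by
        obtain ⟨j, -, rfl⟩ := mem_image.1 hq
        exact hP j) (fun g => x g - y g) (max K K') 0 (a1.comp₂ b1 fun u v => u - v)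
      (fun g => sub_mem (mono _ _ (le_max_left _ _) (a3 g)) (mono _ _ (le_max_right _ _) (b3 g)))
      (fun g g' => ?_) (fun P hP g hg => ?_) (fun g hg => ?_) (fun q hq => ?_) g
    · rwa [h0, Submodule.mem_bot, sub_eq_zero] at h1
    · rw [h0, Submodule.mem_bot, a2, b2, map_sub]
      abel
    · rw [a4 P hP g hg, b4 P hP g hg, sub_self]
      exact zero_mem _
    · have h2 := (hDecT.2.2.2 P3 hDecT.1).1 g hg
      rw [a5 g h2, b5 g h2, sub_self]
      exact zero_mem _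
    · obtain ⟨j, -, rfl⟩ := mem_image.1 hq
      rw [h j, sub_self]
      exact zero_mem _
  obtain ⟨j0, hj0⟩ := hgen.ine
  have hl0 : l j0 % 3 ≠ 1 := of_decide_eq_false hj0
  choose pp hp using fun (x : GQ → A) (q : ℕ) => hC.surj (-x (τ q))
  have hfix : ∀ x q, x (τ q) + J (pp x q) = pp x q := fun x q => by
    have h1 : J (pp x q) - pp x q = -x (τ q) := hp x q
    rw [sub_eq_iff_eq_add.1 h1]
    abel
  have hLev : ∀ x ∈ St J η (univ.image l), ∀ (m : ℕ) (p : ℕ → A), 1 ≤ m →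
      (∀ j, x (τ (l j)) + J (p (l j)) = p (l j) ∧ p (l j) - p (l j0) ∈ Wn J (m + 1)) →
      (∃ j, p (l j) - p (l j0) ∉ Wn J m) → Lev J η (univ.image l) τ m x p (p (l j0)) := by
    rintro x hx m p hm h1 ⟨j, h2⟩
    have h3 := hL x hx m p j0 hm hl0 h1
    refine ⟨hx, h3.2, h3.1, fun q hq => ?_, _, mem_image_of_mem l (mem_univ j), _,
      mem_image_of_mem l (mem_univ j0), h2⟩
    obtain ⟨i, -, rfl⟩ := mem_image.1 hq
    exact h1 i
  by_cases hall : ∀ x ∈ St J η (univ.image l), ∀ j, pp x (l j) - pp x (l j0) ∈ Wn J (M + 1)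
  · exfalso
    have h1 : ∀ x ∈ St J η (univ.image l), ∀ j, x (τ (l j)) ∈ Wn J (M + 1) := fun x hx j => by
      have h3 := (hL x hx M (pp x) j0 (by omega) hl0 fun j => ⟨hfix x _, hall x hx j⟩).2
      have h5 := add_mem (mono _ _ (by omega : M + 1 ≤ M + 2) (hall x hx j)) h3
      rw [sub_add_cancel] at h5
      have h6 := (hom (M + 1) _).2 h5
      rw [hp] at h6
      exact neg_mem_iff.1 h6
    have : Finite (Wn J (M + 1)) := Nat.finite_of_card_ne_zero (by
      rw [((hLevS A J T hC.toCm0).2.1 hC).2]; positivity)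
    refine hinf (Set.finite_coe_iff.1 ?_)
    exact Finite.of_injective
      (fun (x : St J η (univ.image l)) (j : Fin d) =>
        (⟨x.1 (τ (l j)), h1 x x.2 j⟩ : Wn J (M + 1)))
      fun x y hxy => Subtype.ext (hI x x.2 y y.2 fun j => congrArg Subtype.val (congrFun hxy j))
  · push Not at hall
    obtain ⟨x, hx, j1, h1⟩ := hall
    obtain ⟨K, hK⟩ := hx.2.2.1
    have h2 : ∀ q, pp x q ∈ Wn J (K + 1) := fun q =>
      (hom K _).1 (by rw [hp]; exact neg_mem (hK _))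
    have hex : ∃ m, ∀ j, pp x (l j) - pp x (l j0) ∈ Wn J (m + 1) :=
      ⟨K, fun j => sub_mem (h2 _) (h2 _)⟩
    have h3 := Nat.find_spec hex
    have h5 : M + 1 ≤ Nat.find hex := by
      by_contra h6
      exact h1 (mono _ _ (by omega) (h3 j1))
    have h6 := Nat.find_min hex (m := Nat.find hex - 1) (by omega)
    push Not at h6
    obtain ⟨j2, h7⟩ := h6
    generalize Nat.find hex = m0 at h3 h5 h7
    rw [show m0 - 1 + 1 = m0 by omega] at h7
    have h8 : Even m0 := Nat.not_odd_iff_even.1 fun ho => hO m0 x (pp x) _ ho (by omega)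
      (hLev x hx m0 (pp x) (by omega) (fun j => ⟨hfix x _, h3 j⟩) ⟨j2, h7⟩)
    obtain ⟨k, rfl⟩ : ∃ k, m0 = M + 2 * k := by
      rw [Nat.even_iff] at h8 hMe
      exact ⟨(m0 - M) / 2, by omega⟩
    refine ⟨_, _, _, hLev _ (st_XDetT hx (3 ^ k)) M (fun q => 3 ^ k • pp x q) (by omega)
      (fun j => ⟨by rw [map_nsmul, ← smul_add, hfix], ?_⟩) ⟨j2, ?_⟩⟩
    · rw [← smul_sub, pow_XDetT hthree, show M + 1 + 2 * k = M + 2 * k + 1 by ring]
      exact h3 j
    · rwa [← smul_sub, pow_XDetT hthree]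

end Pool.Agent.MP_e23604_nt.T
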