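import Pool.Agent.Mg.Fe23604m.G6b89ff
import Pool.Agent.Mg.Fe23604m.Gd7623c
import Pool.Agent.Mg.Fe23604m.G47b00c

set_option linter.all false

section

/-! From the density of corank at most one to the exact corank. -/

namespace Pool.Agent.MP_e23604_nt.S

open Filter
open scoped Topology

theorem EK_eq_EC (D : ℕ) : EK (-432 * (D : ℤ) ^ 2) = EC D := by
  simp [EK, EC]

end Pool.Agent.MP_e23604_nt.S

end

section

/-! Each of the coranks zero and one occurs for half of the curves. -/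

namespace Pool.Agent.MP_e23604_nt.S

open Filter Finset
open scoped Topology

theorem fifty_aux (P : ℕ → ℕ → Prop) (h : Tendsto (fun X : ℕ =>
    ({D : ℕ | 1 ≤ D ∧ D ≤ X ∧ ¬ P D (par3 D)}.ncard : ℝ) / X) atTop (𝓝 0)) {r : ℕ} (hr : r ≤ 1) :
    Tendsto (fun X : ℕ => ({D : ℕ | 1 ≤ D ∧ D ≤ X ∧ par3 D = r ∧ P D r}.ncard : ℝ) / X) atTop
      (𝓝 (1 / 2)) := by
  have h1 := half_H hr
  have h2 := h1.sub h
  rw [sub_zero] at h2
  have e : ∀ X : ℕ, ((Ioc 0 X).filter fun D => par3 D = r).card =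
      {D : ℕ | 1 ≤ D ∧ D ≤ X ∧ par3 D = r}.ncard := fun X => by
    rw [← Set.ncard_coe_finset]
    congr 1
    ext D
    simp only [coe_filter, mem_Ioc, Set.mem_ofPred_eq]
    omega
  have f : ∀ (X : ℕ) (Q : ℕ → Prop), {D : ℕ | 1 ≤ D ∧ D ≤ X ∧ Q D}.Finite := fun X Q =>
    (Set.finite_le_nat X).subset fun D hD => hD.2.1
  refine tendsto_of_tendsto_of_tendsto_of_le_of_le h2 h1 (fun X => ?_) fun X => ?_
  · dsimp only
    rw [← sub_div]
    refine div_le_div_of_nonneg_right ?_ (Nat.cast_nonneg _)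
    rw [sub_le_iff_le_add, ← Nat.cast_add, Nat.cast_le, e]
    refine le_trans (Set.ncard_le_ncard ?_ ((f X _).union (f X _))) (Set.ncard_union_le _ _)
    rintro D ⟨a1, a2, a3⟩
    by_cases a4 : P D r
    · exact Or.inl ⟨a1, a2, a3, a4⟩
    · exact Or.inr ⟨a1, a2, a3 ▸ a4⟩
  · dsimp only
    refine div_le_div_of_nonneg_right ?_ (Nat.cast_nonneg _)
    rw [Nat.cast_le, e]
    exact Set.ncard_le_ncard (fun D hD => ⟨hD.1, hD.2.1, hD.2.2.1⟩) (f X _)

end Pool.Agent.MP_e23604_nt.S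

end
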