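import Mathlib
import Pool.Agent.Mg.Fe23604m.G06f121

set_option linter.all false

namespace Pool.Agent.MP_e23604_nt.T

open Finset Filter NumberField
open MP_f68ac8_nt (cyc IsFrob)
open MP_f68ac8_nt.Zv (Ex Prob piV Unf Bx)
open MP_f68ac8_nt.Zk (NS brL lk msk Av)
open MP_f68ac8_nt.Nd (Lr Fr Gz Exm fP kap np OKp)
open Q (Wn Pre rot0)
open scoped BigOperators Topology

open Classical in
theorem nc_XCnA {α : Type} [Fintype α] (s : Set α) :
    (s.ncard : ℝ) = ∑ x, if x ∈ s then 1 else 0 := by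
  rw [Set.ncard_eq_toFinset_card' s, sum_boole]
  congr 2
  ext x
  simp

theorem zero_XCnA {d : ℕ} (sp : Fin d → Bool) :
    {X : V3 d | ∀ j, sp j = true → X j = 0}.ncard ≤ 3 ^ n2 sp := by
  have := Set.ncard_le_ncard_of_injOn (s := {X : V3 d | ∀ j, sp j = true → X j = 0})
    (t := (Set.univ : Set ((univ.filter fun j => sp j = false) → ZMod 3))) (fun X j => X j.1)
    (fun _ _ => trivial) (fun X hX Y hY e => funext fun j => by
      cases h : sp j
      · exact congrFun e ⟨j, mem_filter.2 ⟨mem_univ _, h⟩⟩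
      · rw [hX j h, hY j h]) (Set.toFinite _)
  rwa [Set.ncard_univ, Nat.card_eq_fintype_card, Fintype.card_fun, ZMod.card,
    Fintype.card_coe] at this

/-- the configurations that are constant on the inert bands -/
def Bset_XCnA {d : ℕ} (lv : Fin d → ℕ) (sp : Fin d → Bool) : Set (V3 d × V3 d) :=
  {p | (∀ i ∈ Bn lv sp false, ∀ j ∈ Bn lv sp false, p.1 i = p.1 j) ∧
    ∀ i ∈ Bn lv sp false ∪ Bn lv sp true, ∀ j ∈ Bn lv sp true, p.2 j * (p.1 i - p.1 j) = 0}

theorem one_XCnA {d : ℕ} (lv : Fin d → ℕ) (sp : Fin d → Bool) (β γ : ZMod 3) (u : V3 d) :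
    {X : Unit → V3 d | ¬ Osc lv sp (fX (fun _ => u) X) (cX β (fun _ => u) X fun _ => γ) 0}.ncard ≤
      3 ^ n2 sp + {X | (u, X) ∈ Bset_XCnA lv sp}.ncard := by
  refine le_trans (Set.ncard_le_ncard_of_injOn
    (t := {X : V3 d | ∀ j, sp j = true → X j = 0} ∪ {X | (u, X) ∈ Bset_XCnA lv sp})
    (fun X => X ()) ?_ (fun X _ Y _ e => funext fun _ => e) (Set.toFinite _))
    ((Set.ncard_union_le _ _).trans (Nat.add_le_add_right (zero_XCnA sp) _))
  intro X hX
  simp only [Set.mem_setOf_eq, Osc, not_or] at hX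
  obtain ⟨h1, h2, -⟩ := hX
  have hf : ∀ i j, fX (fun _ : Unit => u) X i j = X () j * (u i - u j) := fun i j => by simp [fX]
  by_cases h : ∀ j, sp j = true → X () j = 0
  · exact Or.inl h
  right
  push Not at h
  obtain ⟨j₀, hs, hj⟩ := h
  have k : ∀ i ∈ Bn lv sp false, u i = u j₀ := by
    intro i hi
    obtain ⟨-, a, b⟩ := mem_filter.1 hi
    by_contra hne
    exact h2 ⟨i, a, b, Or.inl ⟨j₀, hs, by
      rw [hf]
      exact mul_ne_zero hj (sub_ne_zero.2 hne)⟩⟩
  refine ⟨fun i hi j hj => (k i hi).trans (k j hj).symm, fun i hi j hj => ?_⟩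
  have hi2 : 2 ≤ lv i := by
    rcases mem_union.1 hi with h | h <;> exact (mem_filter.1 h).2.1
  obtain ⟨-, a, b⟩ := mem_filter.1 hj
  by_cases e : i = j
  · simp [e]
  by_contra hne
  exact h1 ⟨i, j, e, by omega, by omega, b, by rwa [hf]⟩

theorem x_CnA (hFouM : FouM) (hCoA : CoA) (hNumT : NumT) : CnA := by
  classical
  obtain ⟨m₀, hm⟩ := hNumT 1 18 one_pos
  refine ⟨m₀, fun d Ω _ ν D lv sp η β hO hT => ?_⟩
  obtain ⟨e1, e2, -, -, M, -, e3, e4⟩ := hm d lv sp hT
  have e5 := (e4 false).2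
  have hB : ((Bset_XCnA lv sp).ncard : ℝ) ≤ 6 * 3 ^ (Bn lv sp true).card *
      3 ^ (Bn lv sp false).card * 9 ^ (Ex0 lv).card := by
    exact_mod_cast (hCoA d lv sp (Bset_XCnA lv sp) fun p hp => hp).1
  have hB2 : 3 * ((Bset_XCnA lv sp).ncard : ℝ) ≤ 3 ^ d * 3 ^ n2 sp := by
    have a1 : (18 : ℝ) * 3 ^ (Ex0 lv).card ≤ 3 ^ n2 sp := by
      refine le_trans ?_ (e5.trans ?_)
      · have b1 : (3 : ℝ) ^ (Ex0 lv).card ≤ 3 ^ (12 * M) :=
          pow_le_pow_right₀ (by norm_num) (by omega)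
        have b2 : (1 : ℝ) ≤ (d + 1) ^ 18 := one_le_pow₀ (by simp)
        push_cast
        calc (18 : ℝ) * 3 ^ (Ex0 lv).card ≤ 18 * 1 * 3 ^ (12 * M) := by linarith
          _ ≤ _ := by gcongr
      · rw [one_mul]
        exact pow_le_pow_right₀ (by norm_num) e2
    have a2 : (3 : ℝ) ^ d =
        3 ^ (Bn lv sp true).card * 3 ^ (Bn lv sp false).card * 3 ^ (Ex0 lv).card := by
      rw [← pow_add, ← pow_add, e1]
    have a3 : (9 : ℝ) ^ (Ex0 lv).card = 3 ^ (Ex0 lv).card * 3 ^ (Ex0 lv).card := by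
      rw [← mul_pow]
      norm_num
    calc 3 * ((Bset_XCnA lv sp).ncard : ℝ) ≤ 3 ^ d * (18 * 3 ^ (Ex0 lv).card) := by
          rw [a2]
          rw [a3] at hB
          linarith
      _ ≤ _ := by gcongr
  have hS : 0 ≤ ∑ q, ν q := sum_nonneg fun q _ => hO.nn q
  have s1 : ∀ q, ν q * (((D q).KS β).ncard / 3 ^ n2 (D q).sp) ≤
      (∑ p : V3 d × ZMod 3, ν q * if (D q).KK β p.1 p.2 then 1 else 0) / 3 ^ n2 sp := by
    intro q
    by_cases h : ν q = 0
    · simp [h]
    rw [hO.sup q h, ← mul_sum, mul_div_assoc]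
    refine mul_le_mul_of_nonneg_left (div_le_div_of_nonneg_right ?_ (by positivity)) (hO.nn q)
    rw [nc_XCnA, Fintype.sum_prod_type]
    refine sum_le_sum fun u _ => ?_
    split_ifs with hu
    · obtain ⟨γ, hγ⟩ := hu
      exact le_trans (by rw [if_pos hγ]) (single_le_sum (f := fun γ =>
        if (D q).KK β u γ then (1 : ℝ) else 0) (fun _ _ => by positivity) (mem_univ γ))
    · exact sum_nonneg fun _ _ => by positivity
  have s2 : ∀ p : V3 d × ZMod 3, ∑ q, ν q * (if (D q).KK β p.1 p.2 then 1 else 0) ≤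
      (3 ^ n2 sp + ({X | (p.1, X) ∈ Bset_XCnA lv sp}.ncard : ℝ)) / 3 ^ d * ∑ q, ν q + η := by
    intro p
    have := hFouM d Ω ν D lv sp η β hO Unit (fun _ => p.1) fun _ => p.2
    simp only [forall_const, Fintype.card_unique, one_mul] at this
    refine this.trans (add_le_add_left (mul_le_mul_of_nonneg_right
      (div_le_div_of_nonneg_right ?_ (by positivity)) hS) _)
    exact_mod_cast one_XCnA lv sp β p.2 p.1
  have s3 : ∑ p : V3 d × ZMod 3, ({X | (p.1, X) ∈ Bset_XCnA lv sp}.ncard : ℝ) =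
      3 * (Bset_XCnA lv sp).ncard := by
    rw [Fintype.sum_prod_type, nc_XCnA, Fintype.sum_prod_type, mul_sum]
    refine sum_congr rfl fun u _ => ?_
    simp only [nc_XCnA]
    simp
  have hc : (Fintype.card (V3 d × ZMod 3) : ℝ) = 3 ^ (d + 1) := by simp [pow_succ]
  have h3 : (1 : ℝ) ≤ 3 ^ n2 sp := one_le_pow₀ (by norm_num)
  have hη := hO.pos
  refine (sum_le_sum fun q _ => s1 q).trans ?_
  rw [← sum_div, sum_comm, div_le_iff₀ (by positivity)]
  refine (sum_le_sum fun p _ => s2 p).trans ?_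
  rw [sum_add_distrib, ← sum_mul, ← sum_div, sum_add_distrib, s3, sum_const, sum_const, card_univ,
    nsmul_eq_mul, nsmul_eq_mul, hc, add_mul]
  refine add_le_add ?_ (le_mul_of_one_le_right (by positivity) h3)
  rw [mul_right_comm]
  refine mul_le_mul_of_nonneg_right ?_ hS
  rw [div_le_iff₀ (by positivity), pow_succ]
  linarith

end Pool.Agent.MP_e23604_nt.T
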