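import Mathlib
import Pool.Agent.Mg.Fe23604m.G06f121
import Pool.Agent.Mg.Fe23604m.G65b452

set_option linter.all false

section

namespace Pool.Agent.MP_e23604_nt.T

open Finset Filter NumberField
open MP_f68ac8_nt (cyc IsFrob)
open MP_f68ac8_nt.Zv (Ex Prob piV Unf Bx)
open MP_f68ac8_nt.Zk (NS brL lk msk Av)
open MP_f68ac8_nt.Nd (Lr Fr Gz Exm fP kap np OKp)
open Q (Wn Pre rot0)
open scoped BigOperators Topology

theorem x_DecT (hDicA : DicA) : DecT := by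
  have h3 := hDicA.2 3 1
  have hM : P3.IsMaximal := h3.1
  have hm : ((3 : ℕ) : 𝓞 Qb) ∈ P3 := h3.2.1
  refine ⟨hM, hm, MP_f68ac8_nt.exists_frob P3 Nat.prime_three hm, fun P hP =>
    ⟨fun g hg x => ?_, fun g hg i hi x => ?_, fun h g hg => MP_f68ac8_nt.cyc_inertia h hg,
      MP_f68ac8_nt.exists_prime_mem P, fun l hl h => ⟨fun l' hl' h' => ?_, fun P' hP' h' => ?_,
        fun σ hσ => ⟨fun x => ⟨fun hx => ?_, hσ.mem hl⟩, fun h3 => ?_, fun M hn ho g hg => ?_⟩⟩⟩⟩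
  · have e : g • x - x ∈ P := hg x
    exact ⟨fun a => by simpa using P.sub_mem a e, fun a => by simpa using P.add_mem e a⟩
  · have e : g • (i • g⁻¹ • x - g⁻¹ • x) ∈ P := (hg _).2 (hi (g⁻¹ • x))
    rw [smul_sub, smul_inv_smul, ← mul_smul, ← mul_smul] at e
    exact e
  · by_contra hne
    exact MP_f68ac8_nt.not_mem_of_coprime h' ((Nat.coprime_primes hl' hl).2 hne) h
  · obtain ⟨s, hs⟩ := MP_f68ac8_nt.exists_conj hl h h'
    exact ⟨s⁻¹, fun g hg => by rw [inv_inv]; exact hs g hg⟩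
  · have := hσ.inv_mem hx
    rwa [inv_smul_smul] at this
  · have e := MP_f68ac8_nt.cyc_frob (n := 3) (MP_f68ac8_nt.not_mem_of_coprime h
      ((Nat.coprime_primes hl Nat.prime_three).2 h3)) hσ
    change cyc (Ω := Qb) 3 σ = 1 ↔ _
    rw [Units.ext_iff, e, Units.val_one, ← Nat.cast_one, ZMod.natCast_eq_natCast_iff']
  · have : Fact l.Prime := ⟨hl⟩
    obtain ⟨γ, rfl⟩ := hDicA.1 l P hP h
    obtain ⟨-, -, a, b, c⟩ := hDicA.2 l γ
    obtain ⟨k, i, hi, e⟩ := ((R.FRO_ok l γ).2 σ ((c σ).1 hσ)).2.2.2.1 M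
      ⟨hn, M.isOpen_of_mem_nhds ho⟩ g ((b g).1 hg)
    exact ⟨k, i, (a i).2 hi, e⟩

end Pool.Agent.MP_e23604_nt.T

end

section

namespace Pool.Agent.MP_e23604_nt.T

open Finset Filter NumberField
open MP_f68ac8_nt (cyc IsFrob)
open MP_f68ac8_nt.Zv (Ex Prob piV Unf Bx)
open MP_f68ac8_nt.Zk (NS brL lk msk Av)
open MP_f68ac8_nt.Nd (Lr Fr Gz Exm fP kap np OKp)
open Q (Wn Pre rot0)
open scoped BigOperators Topology

theorem lc_XValC {G : Type} [Group G] (f : GQ →* G) (h : {g | f g = 1} ∈ 𝓝 (1 : GQ)) :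
    IsLocallyConstant f := by
  refine (IsLocallyConstant.iff_eventually_eq _).2 fun g => ?_
  have hc : ContinuousAt (fun x : GQ => g⁻¹ * x) g := by fun_prop
  have := hc.preimage_mem_nhds (t := {g | f g = 1}) (by rwa [inv_mul_cancel])
  filter_upwards [this] with x hx
  have e : f (g⁻¹ * x) = 1 := hx
  rw [map_mul, map_inv, inv_mul_eq_one] at e
  exact e.symm

theorem lm_XValC : ∀ u v : (ZMod 9)ˣ, lm9 ((u * v : (ZMod 9)ˣ) : ZMod 9) = lm9 u + lm9 v := by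
  decide

theorem x_ValC : ValC := by
  refine ⟨fun l hl h3 => ?_, ?_, fun g h => ?_, fun P hP h3 => ?_⟩
  · have h1 : MP_f68ac8_nt.Zk.P1 3 l := ⟨hl, h3⟩
    refine ⟨(lc_XValC _ (MP_f68ac8_nt.Zk.nhds_ZmCh h1)).comp Multiplicative.toAdd, fun g h => ?_,
      fun P hP hlP => ⟨fun g hg => ?_, fun l' σ hl' hm hσ => ?_⟩⟩
    · rw [ch, map_mul, toAdd_mul, ch, ch]
    · rw [ch, MP_f68ac8_nt.Zk.unr_ZmCh h1 hlP hg, toAdd_one]
    · rw [ch, rh, if_pos h3]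
      exact MP_f68ac8_nt.Zk.lk_ZmCh hl' h1 (fun e => hlP (e ▸ hm)) hP hm hσ
  · exact (lc_XValC _ (MP_f68ac8_nt.cyc_nhds (Ω := Qb) 9)).comp fun u : (ZMod 9)ˣ => lm9 u
  · rw [x9, map_mul, lm_XValC, x9, x9]
  · have h9 : ((9 : ℕ) : 𝓞 Qb) ∉ P := fun e => by
      rw [show (9 : ℕ) = 3 * 3 from rfl, Nat.cast_mul] at e
      exact h3 ((hP.isPrime.mem_or_mem e).elim id id)
    refine ⟨fun g hg => ?_, fun l' σ _ _ hσ => ?_⟩
    · rw [x9, MP_f68ac8_nt.cyc_inertia h9 hg]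
      decide
    · rw [x9, MP_f68ac8_nt.cyc_frob h9 hσ]

end Pool.Agent.MP_e23604_nt.T

end
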