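import Mathlib
import Pool.Agent.Mg.Fe23604m.G06f121

set_option linter.all false

section

namespace Pool.Agent.MP_e23604_nt.T

open Finset Filter NumberField
open MP_f68ac8_nt (cyc IsFrob)
open MP_f68ac8_nt.Zv (Ex Prob piV Unf Bx)
open MP_f68ac8_nt.Zk (NS brL lk msk Av)
open MP_f68ac8_nt.Nd (Lr Fr Gz Exm fP kap np OKp)
open Q (Wn Pre rot0)
open scoped BigOperators Topology

section
variable {d : ℕ} (lv : Fin d → ℕ) (β : ZMod 3) (L : ℕ)

open Classical in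
/-- the exceptional index tuples -/
noncomputable def ix_XCnB : Finset ((ZMod 3 × ZMod 3) × V3 d × V3 d) :=
  univ.filter fun p => Nc p.2.1 ∧ ¬ Rich lv L p.2.1 p.2.2 ∧
    ¬ ∃ a b, (∀ j, p.2.2 j = a * p.2.1 j + b) ∧ p.1.2 = a * p.1.1 + β * b

open Classical in
theorem rt_XCnB (D : Dt d) : D.Rt β lv L ≤ ∑ p ∈ ix_XCnB lv β L,
    if ∀ k, D.KK β (![p.2.1, p.2.2] k) (![p.1.1, p.1.2] k) then 1 else 0 := by
  rw [← sum_fiberwise _ (fun p : (ZMod 3 × ZMod 3) × V3 d × V3 d => p.2.1), Dt.Rt]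
  refine sum_le_sum fun u _ => ?_
  split_ifs with h
  · obtain ⟨⟨g, hg⟩, hu⟩ := h
    rw [sum_boole, Nat.cast_le, Dt.Rn, ← Set.ncard_coe_finset]
    refine Set.ncard_le_ncard_of_injOn (fun x => ((g, x.2), (u, x.1))) (fun x hx => ?_)
      (fun x _ y _ e => ?_) (Set.toFinite _)
    · obtain ⟨h1, h2, h3⟩ := hx
      refine mem_coe.2 (mem_filter.2 ⟨mem_filter.2 ⟨mem_filter.2 ⟨mem_univ _, hu, h2, ?_⟩, rfl⟩,
        Fin.forall_fin_two.2 ⟨hg, h1⟩⟩)
      rintro ⟨a, b, h4, h5⟩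
      exact h3 ⟨a, b, g, hg, h4, h5⟩
    · exact Prod.ext (congrArg (·.2.2) e) (congrArg (·.1.2) e)
  · exact sum_nonneg fun p _ => by split_ifs <;> norm_num

theorem cnt_XCnB (sp : Fin d → Bool) : ∑ p ∈ ix_XCnB lv β L,
    {X : Fin 2 → V3 d | ¬ Osc lv sp (fX ![p.2.1, p.2.2] X)
      (cX β ![p.2.1, p.2.2] X ![p.1.1, p.1.2]) 0}.ncard ≤ (NoB lv sp β L).ncard := by
  classical
  rw [Set.ncard_eq_toFinset_card (NoB lv sp β L), card_eq_sum_card_fiberwise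
    (f := fun x => (x.1, x.2.1)) (t := ix_XCnB lv β L) fun x hx => ?_]
  · refine sum_le_sum fun p hp => ?_
    rw [← Set.ncard_coe_finset]
    refine Set.ncard_le_ncard_of_injOn (fun X => (p.1, p.2, X 0, X 1)) (fun X hX => ?_)
      (fun X _ Y _ e => ?_) (Set.toFinite _)
    · obtain ⟨-, h1, h2, h3⟩ := mem_filter.1 hp
      refine mem_coe.2 (mem_filter.2 ⟨(Set.Finite.mem_toFinset _).2 ⟨h1, h2, h3, ?_⟩, rfl⟩)
      have e : ![X 0, X 1] = X := funext (Fin.forall_fin_two.2 ⟨rfl, rfl⟩)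
      simp only [e]
      exact hX
    · exact funext (Fin.forall_fin_two.2 ⟨congrArg (·.2.2.1) e, congrArg (·.2.2.2) e⟩)
  · obtain ⟨h1, h2, h3, -⟩ := (Set.Finite.mem_toFinset _).1 (mem_coe.1 hx)
    exact mem_coe.2 (mem_filter.2 ⟨mem_univ _, h1, h2, h3⟩)

theorem card_XCnB : ((ix_XCnB lv β L).card : ℝ) ≤ 9 ^ (d + 1) := by
  have h := card_le_univ (ix_XCnB lv β L)
  simp only [Fintype.card_prod, Fintype.card_fun, ZMod.card, Fintype.card_fin] at h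
  rw [← mul_pow, ← pow_succ'] at h
  exact_mod_cast h

end

theorem x_CnB (hFouM : FouM) (hNoC : NoC) : CnB := by
  classical
  intro ε L hε
  obtain ⟨m₀, hm⟩ := hNoC ε L hε
  refine ⟨m₀, fun d Ω _ ν D lv sp η β hO hT => ?_⟩
  have h0 : 0 ≤ ∑ q, ν q := sum_nonneg fun q _ => hO.nn q
  have h1 : (1 : ℝ) ≤ 3 ^ n2 sp := one_le_pow₀ (by norm_num)
  have h9 : (0 : ℝ) < 9 ^ d := by positivity
  have h2 : ∑ q, ν q * (D q).Rt β lv L ≤ ε * 3 ^ n2 sp * ∑ q, ν q + 9 ^ (d + 1) * η := by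
    refine (sum_le_sum fun q _ =>
      mul_le_mul_of_nonneg_left (rt_XCnB lv β L (D q)) (hO.nn q)).trans ?_
    simp only [mul_sum]
    rw [sum_comm]
    refine (sum_le_sum fun p _ => (le_of_eq (sum_congr rfl fun q _ => by congr)).trans
      (hFouM d Ω ν D lv sp η β hO (Fin 2) ![p.2.1, p.2.2] ![p.1.1, p.1.2])).trans ?_
    rw [sum_add_distrib, sum_const, nsmul_eq_mul, ← sum_mul, ← sum_div, ← mul_sum,
      Fintype.card_fin, pow_mul, show (3 : ℝ) ^ 2 = 9 by norm_num]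
    refine add_le_add (mul_le_mul_of_nonneg_right ?_ h0)
      (mul_le_mul_of_nonneg_right (card_XCnB lv β L) hO.pos)
    rw [div_le_iff₀ h9]
    refine le_trans ?_ (hm d lv sp β hT)
    exact_mod_cast cnt_XCnB lv β L sp
  have h3 : ∑ q, ν q * ((D q).Rt β lv L / 3 ^ n2 (D q).sp) =
      (∑ q, ν q * (D q).Rt β lv L) / 3 ^ n2 sp := by
    rw [sum_div]
    refine sum_congr rfl fun q _ => ?_
    by_cases h : ν q = 0
    · rw [h, zero_mul, zero_mul, zero_div]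
    · rw [hO.sup q h, mul_div_assoc]
  rw [h3, div_le_iff₀ (one_pos.trans_le h1)]
  have h4 := le_mul_of_one_le_right (mul_nonneg (by positivity : (0 : ℝ) ≤ 9 ^ (d + 1)) hO.pos) h1
  linarith

end Pool.Agent.MP_e23604_nt.T

end

section

namespace Pool.Agent.MP_e23604_nt.T

open Finset Filter NumberField
open MP_f68ac8_nt (cyc IsFrob)
open MP_f68ac8_nt.Zv (Ex Prob piV Unf Bx)
open MP_f68ac8_nt.Zk (NS brL lk msk Av)
open MP_f68ac8_nt.Nd (Lr Fr Gz Exm fP kap np OKp)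
open Q (Wn Pre rot0)
open scoped BigOperators Topology

theorem even_XUniT (hSjT : SjT) (hChrT : ChrT) {σ τ : ℕ → GQ} {e : ℕ → ZMod 3} (hT : Tl σ τ e)
    {R : Finset ℕ} (hR : ∀ l ∈ R, P0 l) (a : GQ → ZMod 3) (h1 : IsLocallyConstant a)
    (h2 : ∀ g h, a (g * h) = a g + a h) (h3 : ∀ P, Out R P → ∀ g ∈ P.inertia GQ, a g = 0)
    (h4 : ∀ g ∈ P3.inertia GQ, a g = 0) (h5 : ∀ l ∈ R, a (τ l) = 0) (g : GQ) : a g = 0 := by
  obtain ⟨-, γ, hγ⟩ := hChrT σ τ e hT R hR a h1 h2 h3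
  have h6 : ∀ g, a g = γ * x9 g := fun g => by
    rw [hγ g, sum_eq_zero fun l hl => by rw [h5 l (mem_filter.1 hl).1, zero_mul, zero_mul],
      zero_add]
  obtain ⟨c, hc, -, hc'⟩ := hSjT.2.1
  have h7 : γ = 0 := (mul_eq_zero.1 ((h6 c).symm.trans (h4 c hc))).resolve_right hc'
  rw [h6, h7, zero_mul]

theorem odd_XUniT (hSgT : SgT) (hSjT : SjT) (hKumA : KumA) {σ τ : ℕ → GQ} {e : ℕ → ZMod 3}
    (hT : Tl σ τ e) {R : Finset ℕ} (hR : ∀ l ∈ R, P0 l) (a : GQ → ZMod 3)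
    (h1 : IsLocallyConstant a) (h2 : ∀ g h, a (g * h) = a g + sg g * a h)
    (h3 : ∀ P, Out R P → ∀ g ∈ P.inertia GQ, a g = 0) (h4 : ∀ g ∈ P3.inertia GQ, a g = 0)
    (h5 : ∀ l ∈ R, a (τ l) = 0) (g : GQ) : a g = 0 := by
  obtain ⟨γ, hγ⟩ := hKumA σ τ e hT R hR a h1 h2 h3
  have h6 : ∀ g ∈ Gz 3, a g = γ * kk 3 g := fun g hg => by
    rw [hγ g hg, kD, sum_eq_zero fun l hl => by rw [h5 l hl, zero_mul, zero_mul], add_zero]
  obtain ⟨c, hc, hc1, hc'⟩ := hSjT.2.2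
  have h7 : γ = 0 := (mul_eq_zero.1 ((h6 c hc1).symm.trans (h4 c hc))).resolve_right hc'
  have h8 : ∀ g ∈ Gz 3, a g = 0 := fun g hg => by rw [h6 g hg, h7, zero_mul]
  by_cases hg : g ∈ Gz 3
  · exact h8 g hg
  · obtain ⟨b, hb, hb'⟩ := hSjT.1
    have h9 : g * b⁻¹ ∈ Gz 3 :=
      hSgT.2.2.2.2.2.2.1 g hg b⁻¹ fun h => hb' ((Subgroup.inv_mem_iff _).1 h)
    have := h2 (g * b⁻¹) b
    rwa [inv_mul_cancel_right, h8 _ h9, h4 b hb, mul_zero, add_zero] at this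

theorem x_UniT (hBasT : BasT) (hSgT : SgT) (hSjT : SjT) (hChrT : ChrT) (hKumA : KumA)
    (hActB : ActB) : UniT := by
  intro V _ J T hC η R e β σ τ hG hT hR y K n hy hK hco h3 h4 h5
  obtain ⟨b1, -, -, -, -, b6, b7, -, b9, -⟩ := hBasT V J T hC
  have hA := hActB V J T hC η R e β σ τ hG hT hR
  have step : ∀ k, n ≤ k → (∀ g, y g ∈ Wn J (k + 1)) → ∀ g, y g ∈ Wn J k := by
    intro k hk hW g
    have z : ∀ g, y g ∈ Wn J n → dig J T k (y g) = 0 := fun g hg =>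
      (b6 k _ (hW g)).2 (b1 n k hk hg)
    have h1 : IsLocallyConstant fun g => dig J T k (y g) := hy.comp (dig J T k)
    have h2 : ∀ g h, dig J T k (y (g * h)) =
        dig J T k (y g) + (if Even k then 1 else sg g) * dig J T k (y h) := fun g h => by
      have e1 := b9 k (y g + η g (y h)) _ (b1 n k hk (hco g h))
      rw [add_sub_cancel] at e1
      rw [e1, (b7 k _ (hW g) _ (((hA g).1.1 _ _).2 (hW h))).1, (hA g).2.1 k _ (hW h)]
    refine (b6 k _ (hW g)).1 ?_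
    by_cases hk' : Even k
    · exact even_XUniT hSjT hChrT hT hR _ h1
        (fun g h => by rw [h2, if_pos hk', one_mul]) (fun P hP g hg => z g (h3 P hP g hg))
        (fun g hg => z g (h4 g hg)) (fun l hl => z _ (h5 l hl)) g
    · exact odd_XUniT hSgT hSjT hKumA hT hR _ h1
        (fun g h => by rw [h2, if_neg hk']) (fun P hP g hg => z g (h3 P hP g hg))
        (fun g hg => z g (h4 g hg)) (fun l hl => z _ (h5 l hl)) g
  have main : ∀ j, (∀ g, y g ∈ Wn J (n + j)) → ∀ g, y g ∈ Wn J n := by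
    intro j
    induction j with
    | zero => exact fun h => h
    | succ j ih => exact fun h => ih (step (n + j) (Nat.le_add_right _ _) h)
  exact main K fun g => b1 K (n + K) (Nat.le_add_left _ _) (hK g)

end Pool.Agent.MP_e23604_nt.T

end
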