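import Mathlib
import Pool.Agent.Mg.Fe23604m.G06f121

set_option linter.all false

section

namespace Pool.Agent.MP_e23604_nt.T

open Finset Filter NumberField
open MP_f68ac8_nt (cyc IsFrob)
open MP_f68ac8_nt.Zv (Ex Prob piV Unf Bx)
open MP_f68ac8_nt.Zk (NS brL lk msk Av)
open MP_f68ac8_nt.Nd (Lr Fr Gz Exm fP kap np OKp)
open Q (Wn Pre rot0)
open scoped BigOperators Topology

theorem agree_XNrC {d : ℕ} (T : Finset (Fin d)) (f : V3 d) (S : Finset (V3 d))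
    (hS : ∀ u ∈ S, ∀ j, j ∉ T → u j = f j) : S.card ≤ 3 ^ T.card := by
  have h : S ⊆ Fintype.piFinset fun j => if j ∈ T then univ else {f j} := by
    intro u hu
    refine Fintype.mem_piFinset.2 fun j => ?_
    split_ifs with h
    · exact mem_univ _
    · exact mem_singleton.2 (hS u hu j h)
  refine (card_le_card h).trans (le_of_eq ?_)
  rw [Fintype.card_piFinset]
  simp only [apply_ite Finset.card, card_univ, ZMod.card, card_singleton]
  rw [prod_ite_mem, univ_inter, prod_const]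

theorem mem_XNrC {d : ℕ} {lv : Fin d → ℕ} {z : V3 d} {a : ℕ} {b : ZMod 3} {j : Fin d} :
    j ∈ Bz lv z a b ↔ 2 ≤ lv j ∧ lv j ≤ a ∧ z j = b := by
  simp [Bz]

theorem att_XNrC {d L : ℕ} {lv : Fin d → ℕ} {u z : V3 d} {a : ℕ} {b : ZMod 3}
    (h : Gd lv L u z a b) : ∃ j, 2 ≤ lv j ∧ lv j ≤ a ∧ Gd lv L u z (lv j) b := by
  obtain ⟨i, hi, -⟩ := h.2
  obtain ⟨j, hj, hm⟩ := exists_max_image (Bz lv z a b) lv ⟨i, hi⟩
  have h1 := mem_XNrC.1 hj
  have e : Bz lv z (lv j) b = Bz lv z a b := by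
    ext k
    exact ⟨fun hk => mem_XNrC.2 ⟨(mem_XNrC.1 hk).1, (mem_XNrC.1 hk).2.1.trans h1.2.1,
      (mem_XNrC.1 hk).2.2⟩, fun hk => mem_XNrC.2 ⟨(mem_XNrC.1 hk).1, hm k hk, (mem_XNrC.1 hk).2.2⟩⟩
  refine ⟨j, h1.1, h1.2.1, ?_⟩
  unfold Gd at h ⊢
  rwa [e]

theorem lev_XNrC {d L : ℕ} {lv : Fin d → ℕ} {u z : V3 d} (h : ¬ Rich lv L u z) :
    ∃ c ∈ insert (univ.sup lv) (univ.image fun j => lv j - 1), ∃ b,
      (∀ j, c + 3 ≤ lv j → z j = b) ∧ ∀ b', ¬ Gd lv L u z c b' := by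
  classical
  by_cases h1 : ∃ a b, Gd lv L u z a b
  · obtain ⟨b, hb⟩ := Nat.find_spec h1
    obtain ⟨j, h2, h3, h4⟩ := att_XNrC hb
    refine ⟨lv j - 1, mem_insert_of_mem (mem_image.2 ⟨j, mem_univ _, rfl⟩), b, fun t ht => ?_,
      fun b' hb' => Nat.find_min h1 (by omega) ⟨b', hb'⟩⟩
    by_contra h5
    exact h ⟨lv j, b, t, h4, by omega, h5⟩
  · refine ⟨_, mem_insert_self _ _, 0, fun j hj => ?_, fun b' hb' => h1 ⟨_, b', hb'⟩⟩
    have := le_sup (f := lv) (mem_univ j)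
    omega

theorem cst_XNrC {d L : ℕ} {lv : Fin d → ℕ} {u z : V3 d} {c : ℕ} (h : ∀ b', ¬ Gd lv L u z c b') :
    ∃ k : ZMod 3 → ZMod 3, ∀ j, 2 ≤ lv j → lv j ≤ c → L ≤ (Bz lv z c (z j)).card →
      u j = k (z j) := by
  have h1 : ∀ b, ∃ k, ∀ j ∈ Bz lv z c b, L ≤ (Bz lv z c b).card → u j = k := by
    intro b
    rcases (Bz lv z c b).eq_empty_or_nonempty with e | ⟨i, hi⟩
    · exact ⟨0, fun j hj => absurd (e ▸ hj) (notMem_empty j)⟩
    · refine ⟨u i, fun j hj hL => ?_⟩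
      by_contra h2
      exact h b ⟨hL, j, hj, i, hi, h2⟩
  choose k hk using h1
  exact ⟨k, fun j h2 h3 h4 => hk (z j) j (mem_XNrC.2 ⟨h2, h3, rfl⟩) h4⟩

theorem one_XNrC {d L M : ℕ} {lv : Fin d → ℕ}
    (hM : ∀ a, (univ.filter fun j => lv j = a).card ≤ M) (c : ℕ) (b : ZMod 3)
    (k : ZMod 3 → ZMod 3) (S : Finset (V3 d × V3 d))
    (hS : ∀ p ∈ S, (∀ j, c + 3 ≤ lv j → p.2 j = b) ∧ ∀ j, 2 ≤ lv j → lv j ≤ c →
      L ≤ (Bz lv p.2 c (p.2 j)).card → p.1 j = k (p.2 j)) :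
    S.card ≤ 3 ^ (3 * L) * 3 ^ (d + 4 * M) := by
  classical
  let A : Finset (Fin d) := univ.filter fun j => lv j < c + 3
  let B : Finset (Fin d) := univ.filter fun j => lv j < 2 ∨ c < lv j
  have hAB : A.card + B.card ≤ d + 4 * M := by
    rw [← card_union_add_card_inter]
    refine add_le_add ((card_le_univ _).trans (Fintype.card_fin d).le) ?_
    have h1 : A ∩ B ⊆ (univ : Finset (Fin 4)).biUnion fun i =>
        univ.filter fun j => lv j = (![0, 1, c + 1, c + 2] : Fin 4 → ℕ) i := by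
      intro j hj
      simp only [A, B, mem_inter, mem_filter, mem_univ, true_and] at hj
      have h2 : lv j = 0 ∨ lv j = 1 ∨ lv j = c + 1 ∨ lv j = c + 2 := by omega
      rcases h2 with e | e | e | e
      exacts [mem_biUnion.2 ⟨0, mem_univ _, mem_filter.2 ⟨mem_univ _, e⟩⟩,
        mem_biUnion.2 ⟨1, mem_univ _, mem_filter.2 ⟨mem_univ _, e⟩⟩,
        mem_biUnion.2 ⟨2, mem_univ _, mem_filter.2 ⟨mem_univ _, e⟩⟩,
        mem_biUnion.2 ⟨3, mem_univ _, mem_filter.2 ⟨mem_univ _, e⟩⟩]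
    exact (card_le_card h1).trans (card_biUnion_le_card_mul _ _ _ fun i _ => hM _)
  have h1 : (S.image Prod.snd).card ≤ 3 ^ A.card := agree_XNrC A (fun _ => b) _ fun z hz j hj => by
    obtain ⟨p, hp, rfl⟩ := mem_image.1 hz
    refine (hS p hp).1 j (not_lt.1 fun e => hj (mem_filter.2 ⟨mem_univ _, e⟩))
  have h2 : ∀ z ∈ S.image Prod.snd, (S.filter fun p => p.2 = z).card ≤ 3 ^ (3 * L + B.card) := by
    intro z _
    let T : Finset (Fin d) := (univ.filter fun b' : ZMod 3 => (Bz lv z c b').card < L).biUnion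
      fun b' => Bz lv z c b'
    have h3 : T.card ≤ 3 * L :=
      (card_biUnion_le_card_mul _ _ L fun b' hb => (mem_filter.1 hb).2.le).trans
        (Nat.mul_le_mul_right _ ((card_le_univ _).trans (ZMod.card 3).le))
    have h4 := agree_XNrC (T ∪ B) (fun j => k (z j)) ((S.filter fun p => p.2 = z).image Prod.fst)
      fun u hu j hj => by
        obtain ⟨p, hp, rfl⟩ := mem_image.1 hu
        obtain ⟨hp', rfl⟩ := mem_filter.1 hp
        have h5 : ¬ (lv j < 2 ∨ c < lv j) := fun e =>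
          hj (mem_union_right _ (mem_filter.2 ⟨mem_univ _, e⟩))
        refine (hS p hp').2 j (by omega) (by omega) (not_lt.1 fun e => hj (mem_union_left _ ?_))
        exact mem_biUnion.2 ⟨p.2 j, mem_filter.2 ⟨mem_univ _, e⟩,
          mem_XNrC.2 ⟨by omega, by omega, rfl⟩⟩
    rw [card_image_of_injOn fun p hp q hq e =>
      Prod.ext e ((mem_filter.1 hp).2.trans (mem_filter.1 hq).2.symm)] at h4
    exact h4.trans (Nat.pow_le_pow_right (by norm_num)
      ((card_union_le _ _).trans (Nat.add_le_add_right h3 _)))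
  refine (card_le_mul_card_image S _ h2).trans ((Nat.mul_le_mul_left _ h1).trans ?_)
  rw [← pow_add, ← pow_add]
  exact Nat.pow_le_pow_right (by norm_num) (by omega)

theorem x_NrC : NrC := by
  classical
  intro L
  refine ⟨81 * 3 ^ (3 * L), fun d M lv hM => ?_⟩
  let W : ℕ × ZMod 3 × (ZMod 3 → ZMod 3) → Finset (V3 d × V3 d) := fun t => univ.filter fun p =>
    (∀ j, t.1 + 3 ≤ lv j → p.2 j = t.2.1) ∧ ∀ j, 2 ≤ lv j → lv j ≤ t.1 →
      L ≤ (Bz lv p.2 t.1 (p.2 j)).card → p.1 j = t.2.2 (p.2 j)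
  let C : Finset ℕ := insert (univ.sup lv) (univ.image fun j => lv j - 1)
  have h1 : {p : V3 d × V3 d | ¬ Rich lv L p.1 p.2} ⊆ ((C ×ˢ univ).biUnion W : Finset _) := by
    intro p hp
    obtain ⟨c, hc, b, h2, h3⟩ := lev_XNrC hp
    obtain ⟨k, hk⟩ := cst_XNrC h3
    exact mem_coe.2 (mem_biUnion.2 ⟨(c, b, k), mem_product.2 ⟨hc, mem_univ _⟩,
      mem_filter.2 ⟨mem_univ _, h2, hk⟩⟩)
  have h2 : C.card ≤ d + 1 := (card_insert_le _ _).trans
    (Nat.succ_le_succ (card_image_le.trans (by simp)))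
  have h3 : (C ×ˢ (univ : Finset (ZMod 3 × (ZMod 3 → ZMod 3)))).card ≤ (d + 1) * 81 := by
    rw [card_product, card_univ, Fintype.card_prod, Fintype.card_fun, ZMod.card]
    exact Nat.mul_le_mul h2 (by norm_num)
  have h4 : d + 1 ≤ (d + 1) ^ (81 * 3 ^ (3 * L)) := Nat.le_self_pow (by positivity) _
  refine (Set.ncard_le_ncard h1 (finite_toSet _)).trans ?_
  rw [Set.ncard_coe_finset]
  refine (card_biUnion_le_card_mul _ _ _ fun t _ =>
    one_XNrC hM t.1 t.2.1 t.2.2 _ fun p hp => (mem_filter.1 hp).2).trans ?_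
  generalize (d + 1) ^ (81 * 3 ^ (3 * L)) = N at h4 ⊢
  calc _ ≤ N * 81 * (3 ^ (3 * L) * 3 ^ (d + 4 * M)) :=
        Nat.mul_le_mul_right _ (h3.trans (Nat.mul_le_mul_right _ h4))
    _ = _ := by ring

end Pool.Agent.MP_e23604_nt.T

end

section

namespace Pool.Agent.MP_e23604_nt.T

open Finset Filter NumberField
open MP_f68ac8_nt (cyc IsFrob)
open MP_f68ac8_nt.Zv (Ex Prob piV Unf Bx)
open MP_f68ac8_nt.Zk (NS brL lk msk Av)
open MP_f68ac8_nt.Nd (Lr Fr Gz Exm fP kap np OKp)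
open Q (Wn Pre rot0)
open scoped BigOperators Topology

theorem x_RecL (hBasT : BasT) (hActB : ActB) : RecL := by
  intro V _ J T hC η R e β σ τ hG hT hR x k p t D hk hx ht ht1 hz s b hs hb g hg h hh
  obtain ⟨-, -, -, -, b5, b6, b7, b8, b9, -⟩ := hBasT V J T hC
  obtain ⟨⟨a1, a2⟩, a3, -⟩ := hActB V J T hC η R e β σ τ hG hT hR g
  obtain ⟨z, hzd⟩ : ∃ z : GQ → V, ∀ g, x g + η g p - p = z g := ⟨_, fun _ => rfl⟩
  have hd : x g + η g (x h) - x (g * h) = z g + η g (z h) - z (g * h) := by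
    rw [← hzd, ← hzd, ← hzd, map_mul, LinearEquiv.mul_apply, map_sub, map_add]
    abel
  have hd' : z (g * h) = z g + η g (z h) + (x (g * h) - (x g + η g (x h))) := by
    rw [← neg_sub (x g + η g (x h)), hd]
    abel
  simp only [hzd] at hz hs hb
  have h1 : s (g * h) = s g + s h := by
    rw [hs, hd', b9 _ _ _ (hx g h), (b7 _ _ (hz g hg) _ ((a1 _ _).2 (hz h hh))).1,
      a3 _ _ (hz h hh), if_pos hk.add_one, one_mul, ← hs, ← hs]
  have h2 : ∀ g ∈ D, z g - (s g).val • t ∈ Wn J (k + 1) := fun g hg => by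
    rw [← b6 _ _ (sub_mem (hz g hg) (nsmul_mem ht _)), (b7 _ _ (hz g hg) _ (nsmul_mem ht _)).2,
      b8 _ _ _ ht, ht1, mul_one, ZMod.natCast_zmod_val, ← hs, sub_self]
  have h3 : η g t - t ∈ Wn J (k + 1) := a2 _ hk.add_one _ ht
  refine ⟨h1, ?_⟩
  obtain ⟨c, hc⟩ : ∃ c : ℕ, (s g).val + (s h).val = (s (g * h)).val + c * 3 :=
    ⟨((s g).val + (s h).val) / 3, by rw [h1, ZMod.val_add, Nat.mod_add_div']⟩
  have h4 : (s g).val • t + (s h).val • t = (s (g * h)).val • t + c • 3 • t := by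
    rw [← add_smul, hc, add_smul, mul_smul]
  have h5 : z g + η g (z h) - z (g * h) = (s h).val • (η g t - t) + (z g - (s g).val • t) +
      η g (z h - (s h).val • t) - (z (g * h) - (s (g * h)).val • t) + c • 3 • t := by
    rw [map_sub, map_nsmul, smul_sub]
    linear_combination (norm := abel) h4
  have m1 := nsmul_mem h3 (s h).val
  have m2 := add_mem m1 (h2 g hg)
  have m3 := (a1 _ _).2 (h2 h hh)
  rw [hd, h5, b9 _ _ _ (nsmul_mem ((b5 _ _).2 ht) c),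
    (b7 _ _ (add_mem m2 m3) _ (h2 _ (D.mul_mem hg hh))).2, (b7 _ _ m2 _ m3).1,
    (b7 _ _ m1 _ (h2 g hg)).1, b8 _ _ _ h3, ZMod.natCast_zmod_val, a3 _ _ (h2 h hh),
    if_neg (Nat.not_even_iff_odd.2 hk), ← hb, ← hb, ← hb]

end Pool.Agent.MP_e23604_nt.T

end
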