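import Mathlib
import Pool.Agent.Mg.Fe23604m.G06f121
import Pool.Agent.Mg.Fe23604m.G318bc4

set_option linter.all false

section

namespace Pool.Agent.MP_e23604_nt.T

open Finset Filter NumberField
open MP_f68ac8_nt (cyc IsFrob)
open MP_f68ac8_nt.Zv (Ex Prob piV Unf Bx)
open MP_f68ac8_nt.Zk (NS brL lk msk Av)
open MP_f68ac8_nt.Nd (Lr Fr Gz Exm fP kap np OKp)
open Q (Wn Pre rot0)
open scoped BigOperators Topology

theorem top_XItT {n d a b s : ℕ} (hd : a + b = d) (hs : s ≤ 3 ^ ((n + 1) * d + a)) :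
    s * 3 ^ (b + 1) ≤ 3 ^ (d + 1) * 3 ^ ((n + 1) * d) := by
  refine (Nat.mul_le_mul_right _ hs).trans (le_of_eq ?_)
  rw [← pow_add, ← pow_add]
  congr 1
  omega

theorem mid_XItT {n d a b s s' K : ℕ} (hd : a + b = d) (hK : 3 * K ≤ 3 ^ b)
    (hs : s * 3 ^ ((n + 3) * d) ≤ K * 3 ^ ((n + 2) * a + (n + 1) * b) * s') :
    s * (9 * 3 ^ ((n + 2 + 1) * d)) ≤ s' * (3 ^ (d + 1) * 3 ^ ((n + 1) * d)) := by
  calc _ = 9 * (s * 3 ^ ((n + 3) * d)) := by ring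
    _ ≤ 9 * (K * 3 ^ ((n + 2) * a + (n + 1) * b) * s') := Nat.mul_le_mul_left _ hs
    _ = 3 * K * (3 * 3 ^ ((n + 2) * a + (n + 1) * b) * s') := by ring
    _ ≤ 3 ^ b * (3 * 3 ^ ((n + 2) * a + (n + 1) * b) * s') := Nat.mul_le_mul_right _ hK
    _ = _ := by
      subst hd
      ring

theorem x_ItT (hStpT : StpT) (hCntA : CntA) (hCntB : CntB) (hCntC : CntC) (hLinT : LinT) : ItT := by
  intro V _ _ d S hS hG lv n u hn
  have hd := (hCntA V d S hS).1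
  have h0 : (0 : ℝ) ≤ S.dt.NK S.β lv S.m u := Nat.cast_nonneg _
  refine ⟨fun h => ?_, fun h => ?_⟩
  · refine (hStpT V d S hS lv n u hn h.le).trans (add_le_add ?_ le_rfl)
    have h1 := (Nat.cast_le (α := ℝ)).2 (top_XItT hd (hCntB V d S hS n u h))
    push_cast at h1
    rw [div_le_div_iff₀ (by positivity) (by positivity), mul_assoc]
    exact mul_le_mul_of_nonneg_left h1 h0
  · refine (hStpT V d S hS lv n u hn (by omega)).trans (add_le_add ?_ le_rfl)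
    have h1 := (Nat.cast_le (α := ℝ)).2
      (mid_XItT hd (hLinT d S.dt S.β hG) (hCntC V d S hS n u hn h))
    push_cast at h1
    rw [Sy.Nn, div_mul_div_comm, div_le_div_iff₀ (by positivity) (by positivity), mul_assoc,
      mul_assoc]
    exact mul_le_mul_of_nonneg_left h1 h0

end Pool.Agent.MP_e23604_nt.T

end

section

namespace Pool.Agent.MP_e23604_nt.T

open Finset Filter NumberField
open MP_f68ac8_nt (cyc IsFrob)
open MP_f68ac8_nt.Zv (Ex Prob piV Unf Bx)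
open MP_f68ac8_nt.Zk (NS brL lk msk Av)
open MP_f68ac8_nt.Nd (Lr Fr Gz Exm fP kap np OKp)
open Q (Wn Pre rot0)
open scoped BigOperators Topology

theorem z3_XTauT : ∀ a e : ZMod 3, a ≠ 0 → e ≠ 0 → a = e ∨ a + 1 * a = e := by decide

theorem x_TauT (hSgT : SgT) (hDecT : DecT) (hValK : ValK) (hTauA : TauA) (hTauB : TauB) : TauT := by
  intro e he
  have h1 : ∀ l, P0 l → ∃ σ, Fr l σ ∧
      (l % 3 = 1 → ∀ m : ℕ, m.Prime → m ≠ l → kk m σ = lk 3 m l) := fun l hl => by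
    by_cases h : l % 3 = 1
    · have : Fact (Nat.Prime 3) := ⟨Nat.prime_three⟩
      obtain ⟨σ, a1, a2⟩ := MP_f68ac8_nt.Nd.first_NjKum (p := 3) l ⟨hl.1, h⟩
      exact ⟨σ, a1, fun _ m b1 b2 => (a2 m b1 b2).symm⟩
    · obtain ⟨P, hP, hm⟩ := MP_f68ac8_nt.exists_maximal_mem (Ω := Qb) hl.1
      obtain ⟨σ, hσ⟩ := MP_f68ac8_nt.exists_frob P hl.1 hm
      exact ⟨σ, ⟨P, hP, hm, hσ⟩, fun h' => absurd h' h⟩
  have h2 : ∀ l, ∃ σ τ, P0 l → Loc l σ τ (e l) := fun l => by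
    by_cases hl : P0 l
    swap
    · exact ⟨1, 1, fun h => absurd h hl⟩
    obtain ⟨σ, ⟨P, hP, hm, hσ⟩, hs⟩ := h1 l hl
    obtain ⟨d1, -, d3, -, d5⟩ := hDecT.2.2.2 P hP
    obtain ⟨d6, -, d7⟩ := d5 l hl.1 hm
    have h3 : ((3 : ℕ) : 𝓞 Qb) ∉ P := fun h => hl.2 (d6 3 Nat.prime_three h).symm
    obtain ⟨τ, t1, t2⟩ : ∃ τ ∈ P.inertia GQ, kk l τ = e l := by
      obtain ⟨τ, t1, t2⟩ := hTauA l P hl hP hm
      rcases z3_XTauT _ _ t2 (he l) with h | h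
      · exact ⟨τ, t1, h⟩
      · refine ⟨τ * τ, mul_mem t1 t1, ?_⟩
        rw [(hValK l hl.1).2.1, hSgT.2.1 τ (d3 h3 τ t1), h]
    refine ⟨σ, τ, fun _ => ⟨⟨P, hP, hm, hσ, t1⟩, he l, t2, fun h => ?_⟩⟩
    have hB := hTauB l P σ hl.1 h hP hm hσ (hs h)
    exact ⟨(hB τ (d1 τ t1)).trans t2, hB σ (d7 σ hσ).1, hs h⟩
  choose σ τ h using h2
  exact ⟨σ, τ, h⟩

end Pool.Agent.MP_e23604_nt.T

end
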