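import Mathlib
import Pool.Agent.Mg.Fe23604m.G06f121
import Pool.Agent.Mg.Fe23604m.Gf1ba88

set_option linter.all false

section

namespace Pool.Agent.MP_e23604_nt.T

open Finset Filter NumberField
open MP_f68ac8_nt (cyc IsFrob)
open MP_f68ac8_nt.Zv (Ex Prob piV Unf Bx)
open MP_f68ac8_nt.Zk (NS brL lk msk Av)
open MP_f68ac8_nt.Nd (Lr Fr Gz Exm fP kap np OKp)
open Q (Wn Pre rot0)
open scoped BigOperators Topology

theorem alt_XBxT (hV : VtT) {d : ℕ} {P Λ B : Type} [Group P] (x : Fin d → P) (x0 : B → P)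
    {S : Finset (Fin d)} {t : Fin d} (ht : t ∉ S) (q₀ q₁ : Fin d → Λ) (u : Λ)
    (ω : Finset (Fin d)) (v : FreeGroup (Λ ⊕ B)) :
    FreeGroup.lift (vT (Function.update (ω.piecewise q₁ q₀) t u) (msk S x) x0) v =
      piV (vC S x x0 q₀ q₁) v ω := by
  rw [MP_f68ac8_nt.Zv.piV_apply_ZaErr, vC,
    (hV d P Λ B (Function.update (ω.piecewise q₁ q₀) t u) (msk S x) x0).2.2.2.1
      (ω.piecewise q₁ q₀) fun j hj => Function.update_of_ne (fun e => hj ?_) _ _]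
  rw [e, msk, if_neg ht]

theorem x_BxT (hMomStmt : MP_f68ac8_nt.Zv.MomStmt) (hMomN : MP_f68ac8_nt.Nd.MomN)
    (hUnifStmt : MP_f68ac8_nt.Zv.UnifStmt) (hVtT : VtT) : BxT := by
  intro P _ _ d Λ B _ _
  obtain ⟨𝓡, _, _, σ, -, hσ⟩ := hUnifStmt (Λ ⊕ B) P ⊤
  refine ⟨𝓡, inferInstance, inferInstance, σ, ?_⟩
  intro w Y _ _ _ y η lv L hw hη hη0 hE x x0 S t φ htL hSm hSL hS
  have ht : t ∉ S := fun h => by
    have := (hSm t h).2
    omega
  unfold Bx
  simp only [MP_f68ac8_nt.Zv.expect_Ex_ZaErr, alt_XBxT hVtT x x0 ht, Function.update_self]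
  have hn : ∀ z : ZMod 3, ‖(ZMod.stdAddChar z : ℂ)‖ = 1 := fun z => AddChar.norm_apply _ z
  refine hMomN d Λ w η (η ^ 2 + η) S hw (fun j hj => hη j (hSm j hj).1)
    (by positivity) _ (fun q₀ q₁ => ?_) fun q₀ q₁ hq0 hq => ?_
  · refine le_trans (expect_le univ_nonempty fun a _ => ?_)
      (le_add_of_nonneg_right (by positivity))
    refine pow_le_one₀ (norm_nonneg _) ((norm_sum_le _ _).trans (le_of_eq ?_))
    rw [← hw.2 t]
    refine sum_congr rfl fun u _ => ?_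
    rw [norm_smul, hn, mul_one, Real.norm_of_nonneg (hw.1 t u)]
  · have h1 := MP_f68ac8_nt.Zv.mom_ZaErr hMomStmt (fun u : Λ => (⟨t, u⟩ : Lr d Λ)) (w t) η
      (fun u (b : Y × 𝓡) => ZMod.stdAddChar (∑ ω ∈ S.powerset, (-1) ^ ω.card *
        φ (piV (vC S x x0 q₀ q₁) (σ b.2 * y ⟨t, u⟩ b.1 * (σ b.2)⁻¹) ω)))
      (sigma_mk_injective (β := fun _ : Fin d => Λ)) (hw.1 t) (hw.2 t)
      (hη t htL) fun u b => (hn _).le
    have h2 := hE t S htL hSm hSL x x0 q₀ q₁ _ hq0 (hS q₀ q₁ hq)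
    refine h1.trans (add_le_add_left (pow_le_pow_left₀ (norm_nonneg _)
      (le_of_eq_of_le ?_ h2) 2) η)
    refine congrArg _ (sum_congr rfl fun u _ => congrArg _ ?_)
    rw [← univ_product_univ, expect_product]
    refine expect_congr rfl fun b _ => ?_
    unfold Av
    rw [MonoidHom.range_eq_map, ← hσ]
    simp only [map_mul, map_inv]

end Pool.Agent.MP_e23604_nt.T

end

section

namespace Pool.Agent.MP_e23604_nt.T

open Finset Filter NumberField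
open MP_f68ac8_nt (cyc IsFrob)
open MP_f68ac8_nt.Zv (Ex Prob piV Unf Bx)
open MP_f68ac8_nt.Zk (NS brL lk msk Av)
open MP_f68ac8_nt.Nd (Lr Fr Gz Exm fP kap np OKp)
open Q (Wn Pre rot0)
open scoped BigOperators Topology

theorem surj_XSjT {P : Ideal (𝓞 Qb)} [P.IsMaximal] (h : ((3 : ℕ) : 𝓞 Qb) ∈ P) (u : (ZMod 9)ˣ) :
    ∃ τ ∈ P.inertia GQ, cyc (Ω := Qb) 9 τ = u := by
  have h1 : ((P.inertia GQ).map (cyc (Ω := Qb) 9)).comap (cyc (Ω := Qb) 9) = ⊤ := by
    refine MP_f68ac8_nt.eq_top_of_open _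
      (Filter.mem_of_superset (MP_f68ac8_nt.cyc_nhds 9) fun g hg => ?_) fun P' _ g hg => ?_
    · rw [SetLike.mem_coe, Subgroup.mem_comap, hg]
      exact one_mem _
    · rw [Subgroup.mem_comap]
      obtain ⟨l, hl, h'⟩ := MP_f68ac8_nt.exists_prime_mem P'
      rcases eq_or_ne l 3 with rfl | h2
      · obtain ⟨a, ha⟩ := MP_f68ac8_nt.exists_conj hl h h'
        refine ⟨_, ha g hg, ?_⟩
        rw [map_mul, map_mul, map_inv, mul_right_comm, inv_mul_cancel, one_mul]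
      · rw [MP_f68ac8_nt.cyc_inertia (MP_f68ac8_nt.not_mem_of_coprime h'
          (((Nat.coprime_primes hl Nat.prime_three).2 h2).pow_right 2)) hg]
        exact one_mem _
  obtain ⟨g, rfl⟩ := MP_f68ac8_nt.cyc_surj (Ω := Qb) 9 u
  have : g ∈ ((P.inertia GQ).map (cyc (Ω := Qb) 9)).comap (cyc (Ω := Qb) 9) :=
    h1 ▸ Subgroup.mem_top g
  exact this

theorem x_SjT (hSgT : SgT) (hDecT : DecT) (hKumB : KumB) : SjT := by
  have := hDecT.1
  refine ⟨?_, ?_, ?_⟩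
  · obtain ⟨g, h1, h2⟩ := MP_f68ac8_nt.cyc_inertia_surj (q := 3) hDecT.2.1 (-1)
    refine ⟨g, h1, fun h => ?_⟩
    have h3 : cyc (Ω := Qb) 3 g = 1 := h
    rw [h2] at h3
    exact absurd h3 (by decide)
  · obtain ⟨g, h1, h2⟩ := surj_XSjT hDecT.2.1 (ZMod.unitOfCoprime 4 (by decide))
    have h3 : (cyc (Ω := Qb) 9 g : ZMod 9) = 4 := by
      rw [h2]
      rfl
    refine ⟨g, h1, ?_, ?_⟩
    · have h4 := (MP_f68ac8_nt.zeta_spec (Ω := Qb) 3).pow_eq_one
      have h5 := MP_f68ac8_nt.cyc_spec 9 g (x := MP_f68ac8_nt.zeta Qb 3)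
        (by rw [show 9 = 3 * 3 from rfl, pow_mul, h4, one_pow])
      rw [h3, show (4 : ZMod 9).val = 3 + 1 from rfl, pow_add, h4, one_mul] at h5
      exact Units.ext ((MP_f68ac8_nt.cyc_eq 3 h5).trans Nat.cast_one)
    · rw [x9, h3]
      decide
  · by_contra h
    push Not at h
    have h1 := (hKumB ∅ 0 1 (fun l hl => absurd hl (notMem_empty l)) fun g hg hz => by
      rw [kD, h g hg hz, mul_zero, sum_empty, add_zero]).1
    exact absurd h1 (by decide)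

end Pool.Agent.MP_e23604_nt.T

end
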