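import Mathlib
import Pool.Agent.Mg.Fe23604m.G06f121

set_option linter.all false

section

namespace Pool.Agent.MP_e23604_nt.T

open Finset Filter NumberField
open MP_f68ac8_nt (cyc IsFrob)
open MP_f68ac8_nt.Zv (Ex Prob piV Unf Bx)
open MP_f68ac8_nt.Zk (NS brL lk msk Av)
open MP_f68ac8_nt.Nd (Lr Fr Gz Exm fP kap np OKp)
open Q (Wn Pre rot0)
open scoped BigOperators Topology

theorem x_DicA : DicA := by
  refine ⟨fun l _ P hP h => R.exists_cen l P h, fun l _ γ => ⟨R.cen_max l γ, R.cen_mem l γ,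
    fun g => R.ine_iff.symm, fun g => R.dec_iff.symm, fun σ => R.frob_iff.symm⟩⟩

end Pool.Agent.MP_e23604_nt.T

end

section

namespace Pool.Agent.MP_e23604_nt.T

open Finset Filter NumberField
open MP_f68ac8_nt (cyc IsFrob)
open MP_f68ac8_nt.Zv (Ex Prob piV Unf Bx)
open MP_f68ac8_nt.Zk (NS brL lk msk Av)
open MP_f68ac8_nt.Nd (Lr Fr Gz Exm fP kap np OKp)
open Q (Wn Pre rot0)
open scoped BigOperators Topology

theorem x_TauA (hTAM : S.TAM_st) (hDicA : DicA) (hDicB : DicB) : TauA := by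
  intro l P hl hP h
  have : Fact l.Prime := ⟨hl.1⟩
  obtain ⟨γ, rfl⟩ := hDicA.1 l P hP h
  obtain ⟨h1, ⟨τ, h2, h3⟩, -⟩ := hTAM l γ hl.2
  obtain ⟨h4, ε, -, h5⟩ := hDicB
  refine ⟨τ, ((hDicA.2 l γ).2.2.1 τ).2 h2, fun h6 => ?_⟩
  have h7 := h5 l hl.1.ne_zero τ ((h4 τ).1.1 (h1 h2))
  rw [h3, h6, mul_zero] at h7
  exact one_ne_zero h7

end Pool.Agent.MP_e23604_nt.T

end

section

namespace Pool.Agent.MP_e23604_nt.T

open Finset Filter NumberField
open MP_f68ac8_nt (cyc IsFrob)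
open MP_f68ac8_nt.Zv (Ex Prob piV Unf Bx)
open MP_f68ac8_nt.Zk (NS brL lk msk Av)
open MP_f68ac8_nt.Nd (Lr Fr Gz Exm fP kap np OKp)
open Q (Wn Pre rot0)
open scoped BigOperators Topology

theorem geom_XWdT (b : ℕ) (hb : Nat.Coprime b 6) (s : ZMod 3) (hs : s = 1 ∨ s = -1) :
    ∑ i ∈ range b, s ^ i ≠ 0 := by
  rcases hs with rfl | rfl
  · simp only [one_pow, sum_const, card_range, nsmul_eq_mul, mul_one]
    intro h
    have h3 : 3 ∣ b := (ZMod.natCast_eq_zero_iff b 3).1 h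
    have : 3 ∣ Nat.gcd b 6 := Nat.dvd_gcd h3 (by norm_num)
    rw [hb] at this
    omega
  · rw [neg_one_geom_sum, if_neg]
    · exact one_ne_zero
    · intro h
      have h2 : 2 ∣ b := even_iff_two_dvd.1 h
      have : 2 ∣ Nat.gcd b 6 := Nat.dvd_gcd h2 (by norm_num)
      rw [hb] at this
      omega

theorem x_WdT (hBasT : BasT) (hSgT : SgT) (hActB : ActB) : WdT := by
  intro V _ _ d S hS n v x g p b hn hx hb
  obtain ⟨mono, -, -, -, -, d0, dadd, -, dw, -⟩ := hBasT V S.J S.T hS.cm.toCm0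
  have hR : ∀ l ∈ S.R, P0 l := by
    intro l hl
    obtain ⟨j, -, rfl⟩ := mem_image.1 hl
    exact hS.pri j
  obtain ⟨⟨hpre, -⟩, hact, -⟩ := hActB V S.J S.T hS.cm.toCm0 S.η S.R S.e S.β S.σ S.τ hS.gm hS.tl hR g
  set z : GQ → V := fun h => x h + S.η h p - p with hz
  have co : ∀ h, z (g * h) - (z g + S.η g (z h)) ∈ Wn S.J n := by
    intro h
    have e : z (g * h) - (z g + S.η g (z h)) = x (g * h) - (x g + S.η g (x h)) := by
      simp only [hz, map_mul, map_sub, map_add, LinearEquiv.mul_apply]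
      abel
    rw [e]
    exact hx.co g h
  have z1 : z 1 ∈ Wn S.J n := by
    have h := hx.co 1 1
    have e : z 1 = -(x (1 * 1) - (x 1 + S.η 1 (x 1))) := by
      simp only [hz, map_one, mul_one, LinearEquiv.coe_one, id]
      abel
    rw [e]
    exact neg_mem h
  have key : ∀ k, n ≤ k → z g ∈ Wn S.J (k + 1) → ∀ c : ℕ, z (g ^ c) ∈ Wn S.J (k + 1) ∧
      dig S.J S.T k (z (g ^ c)) =
        (∑ i ∈ range c, (if Even k then 1 else sg g) ^ i) * dig S.J S.T k (z g) := by
    intro k hk hg c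
    induction c with
    | zero =>
      have h1 : z 1 ∈ Wn S.J k := mono _ _ hk z1
      have h2 : z 1 ∈ Wn S.J (k + 1) := mono _ _ (Nat.le_succ k) h1
      rw [pow_zero]
      refine ⟨h2, ?_⟩
      rw [(d0 k _ h2).2 h1]
      simp
    | succ c ih =>
      obtain ⟨i1, i2⟩ := ih
      have hw : z (g * g ^ c) - (z g + S.η g (z (g ^ c))) ∈ Wn S.J k := mono _ _ hk (co _)
      have he : S.η g (z (g ^ c)) ∈ Wn S.J (k + 1) := (hpre _ _).2 i1
      have e : z (g ^ (c + 1)) =
          (z g + S.η g (z (g ^ c))) + (z (g * g ^ c) - (z g + S.η g (z (g ^ c)))) := by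
        rw [pow_succ']
        abel
      refine ⟨?_, ?_⟩
      · rw [e]
        exact add_mem (add_mem hg he) (mono _ _ (Nat.le_succ k) hw)
      · rw [e, dw k _ _ hw, (dadd k _ hg _ he).1, hact k _ i1, i2, sum_range_succ']
        simp only [pow_succ', ← mul_sum, pow_zero]
        ring
  have hs : ∀ k : ℕ, (if Even k then (1 : ZMod 3) else sg g) = 1 ∨
      (if Even k then (1 : ZMod 3) else sg g) = -1 := by
    intro k
    split_ifs
    · exact Or.inl rfl
    · by_cases h : g ∈ Gz 3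
      · exact Or.inl (hSgT.2.1 g h)
      · exact Or.inr (hSgT.2.2.1 g h)
  refine ⟨⟨fun hgb => ?_, fun hg => (key n le_rfl hg b).1⟩, fun hg => ?_⟩
  · have desc : ∀ j, z g ∈ Wn S.J (n + 1 + j) → z g ∈ Wn S.J (n + 1) := by
      intro j
      induction j with
      | zero => exact id
      | succ j ih =>
        intro h
        apply ih
        obtain ⟨k1, k2⟩ := key (n + 1 + j) (by omega) h b
        have h0 : dig S.J S.T (n + 1 + j) (z (g ^ b)) = 0 :=
          (d0 _ _ k1).2 (mono _ _ (by omega) hgb)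
        rw [h0] at k2
        have : Fact (Nat.Prime 3) := ⟨Nat.prime_three⟩
        rcases mul_eq_zero.1 k2.symm with h1 | h1
        · exact absurd h1 (geom_XWdT b hb _ (hs _))
        · exact (d0 _ _ h).1 h1
    exact desc (S.m + 2) (mono _ _ (by omega) (hS.cm.top _))
  · have h := (key n le_rfl hg b).2
    rw [if_pos hn] at h
    simpa [hz] using h

end Pool.Agent.MP_e23604_nt.T

end
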