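import Mathlib
import Pool.Agent.Mg.Fe23604m.G06f121
import Pool.Agent.Mg.Fe23604m.Gcb31cd

set_option linter.all false

namespace Pool.Agent.MP_e23604_nt.T

open Finset Filter NumberField
open MP_f68ac8_nt (cyc IsFrob)
open MP_f68ac8_nt.Zv (Ex Prob piV Unf Bx)
open MP_f68ac8_nt.Zk (NS brL lk msk Av)
open MP_f68ac8_nt.Nd (Lr Fr Gz Exm fP kap np OKp)
open Q (Wn Pre rot0)
open scoped BigOperators Topology

theorem one_XErrT (hLcT : LcT) (hBoxT : BoxT) {P A O : Type} [Group P] [Fintype P] [Fintype A]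
    [Fintype O] {L d : ℕ} {F : ℕ → Subgroup P} (hF : NS F) (hN : ∀ k, (F k).Normal) {Λ B : Type}
    [Fintype Λ] {w : Fin d → Λ → ℝ} (hw : Prob (U := fun _ => Λ) w) {lv : Fin d → ℕ}
    {T : Trm P B O A d} (hT : T.Ok F L lv) {ζ : Fin d → Λ → ℂ} (hζ : ∀ j u, ‖ζ j u‖ ≤ 1)
    {φ : P → ZMod 3} (hφ : ∀ c ∈ F T.s.length, ∀ h, φ (c * h) = T.ψ c + φ h)
    (y g : Lr d Λ → FreeGroup (Λ ⊕ B)) (yo : O → FreeGroup (Λ ⊕ B)) (pd : Lr d Λ → Λ → A) :
    ‖Ex (U := fun _ => Λ) w fun q => (∏ j, ζ j (q j)) *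
      T.val (fun i j => pd ⟨i, q i⟩ (q j)) q (Sum.elim (fun j => y ⟨j, q j⟩) yo)‖ ^
        2 ^ (T.s.toFinset.card + 1) ≤
      (((Fintype.card P : ℝ) * (Fintype.card A + 1)) ^ ((d + Fintype.card O) *
        (2 ^ (T.s.toFinset.card + 1 + 2) + 2 * (T.s.toFinset.card + 1)))) ^
          2 ^ (T.s.toFinset.card + 1) *
        Bx (U := fun _ => Λ) ZMod.stdAddChar w T.s.toFinset T.t fun q =>
          φ (FreeGroup.lift (vT q (msk T.s.toFinset T.x) T.x0)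
            (g ⟨T.t, q T.t⟩ * y ⟨T.t, q T.t⟩ * (g ⟨T.t, q T.t⟩)⁻¹)) := by
  classical
  have hc : T.s.toFinset.card = T.s.length := List.toFinset_card_of_nodup hT.nd
  have h2 := hT.two
  have ht : T.t ∉ T.s.toFinset := fun h0 => by
    have := (hT.lv _ (List.mem_toFinset.1 h0)).2
    omega
  have hn : ∀ z : ZMod 3, ‖(ZMod.stdAddChar z : ℂ)‖ = 1 := fun z => AddChar.norm_apply _ z
  let G : (Fin d → Λ) → ZMod 3 := fun q => φ (FreeGroup.lift (vT q (msk T.s.toFinset T.x) T.x0)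
    (g ⟨T.t, q T.t⟩ * y ⟨T.t, q T.t⟩ * (g ⟨T.t, q T.t⟩)⁻¹))
  let r : (Fin d → Λ) → Fin d → Fin d → A := fun q i j => pd ⟨i, q i⟩ (q j)
  let Z : (Fin d → Λ) → Fin d ⊕ O → P := fun q i =>
    FreeGroup.lift (vT q T.x T.x0) (Sum.elim (fun j => y ⟨j, q j⟩) yo i)
  let Θ : (Fin d → Λ) → ℂ := fun q =>
    if T.Cn (Z q) then (T.c (r q) : ℂ) * ZMod.stdAddChar (T.Ob (r q) (Z q) - G q) else 0
  have key : ∀ q, T.val (r q) q (Sum.elim (fun j => y ⟨j, q j⟩) yo) =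
      Θ q * ZMod.stdAddChar (G q) := fun q => by
    change (if T.Cn (Z q) then (T.c (r q) : ℂ) * ZMod.stdAddChar (T.Ob (r q) (Z q)) else 0) = _
    simp only [Θ]
    split_ifs
    · rw [mul_assoc, ← AddChar.map_add_eq_mul, sub_add_cancel]
    · rw [zero_mul]
  have lc := fun q q' k1 k2 => hLcT P F hF hN d Λ B O T.s.toFinset T.t T.x T.x0 T.ψ φ q q'
    (Sum.elim (fun j => y ⟨j, q j⟩) yo) (Sum.elim (fun j => y ⟨j, q' j⟩) yo)
    (Sum.elim (fun j => g ⟨j, q j⟩) yo) (Sum.elim (fun j => g ⟨j, q' j⟩) yo)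
    (card_pos.1 (by omega)) ht hT.mem (hc ▸ hT.add) (hc ▸ hT.zero) (hc ▸ hT.cj) (hc ▸ hφ) k1 k2
  rw [show (fun q => (∏ j, ζ j (q j)) *
      T.val (fun i j => pd ⟨i, q i⟩ (q j)) q (Sum.elim (fun j => y ⟨j, q j⟩) yo)) =
      fun q => (∏ j, ζ j (q j)) * (Θ q * ZMod.stdAddChar (G q)) from
    funext fun q => congrArg _ (key q)]
  refine hBoxT P A O d Λ B w _ T.t T.x T.x0 y g yo pd G Θ ζ hw ht (by omega) (fun q => ?_) hζ
    fun q q' k1 k2 k3 => ?_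
  · simp only [Θ]
    split_ifs
    · rw [norm_mul, hn, mul_one, Complex.norm_real]
      exact hT.le _
    · rw [norm_zero]
      exact zero_le_one
  · have hr : r q = r q' := funext₂ k3
    simp only [Θ, ← hr]
    by_cases h0 : T.c (r q) = 0
    · simp [h0]
    obtain ⟨a1, a2, a3⟩ := lc q q' k1 k2
    obtain ⟨a4, -, -⟩ := lc q' q (fun i J b1 b2 => (k1 i J b1 b2).symm)
      fun i J b1 b2 => (k2 i J b1 b2).symm
    rw [hc] at a1 a2 a4
    by_cases h1 : T.Cn (Z q)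
    · obtain ⟨a5, a6⟩ := hT.inv (r q) (Z q) (Z q') h0 h1 a1
      have a7 : G q = T.ψ ((Z q' (Sum.inl T.t))⁻¹ * Z q (Sum.inl T.t)) + G q' := a3
      rw [if_pos h1, if_pos a5, a6 fun i b1 b2 => a2 i
        (fun j hj => b1 j (List.mem_toFinset.1 hj)) b2, a7]
      congr 2
      ring
    · rw [if_neg h1, if_neg fun h3 => h1 (hT.inv (r q) (Z q') (Z q) h0 h3 a4).1]

theorem x_ErrT (hLcT : LcT) (hShcT : ShcT) (hBxT : BxT) (hBoxT : BoxT) : ErrT := by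
  classical
  intro P A O _ _ _ _ L
  have hc1 : (1 : ℝ) ≤ (Fintype.card P : ℝ) * (Fintype.card A + 1) := by
    have h1 : (1 : ℝ) ≤ Fintype.card P := by exact_mod_cast Fintype.card_pos
    have h2 : (0 : ℝ) ≤ Fintype.card A := Nat.cast_nonneg _
    nlinarith
  have hL1 : (1 : ℝ) ≤ 2 + 3 * (L : ℝ) ^ 2 := by nlinarith [sq_nonneg (L : ℝ)]
  have hK := one_le_mul_of_one_le_of_one_le (one_le_pow₀ (n := 2 ^ (L + 2) + 2 * L) hc1) hL1
  refine ⟨_, one_le_pow₀ (n := Fintype.card O + 1) hK, ?_⟩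
  intro F hF hN d Λ B _ _ w Y _ _ _ y pd yo lv ξ h0 h1 hw hwη hE T ζ hT hζ
  obtain ⟨φ, hφ⟩ := MP_f68ac8_nt.Zk.ext_ZkErr _ T.ψ hT.add
  obtain ⟨𝓡, _, _, c, hc⟩ := hBxT P d Λ B
  have hs : T.s.toFinset.card = T.s.length := List.toFinset_card_of_nodup hT.nd
  have h2 := hT.two
  have h3 := hT.len
  have ht : 2 ≤ lv T.t := by
    obtain ⟨j, hj⟩ := List.exists_mem_of_length_pos (l := T.s) (by omega)
    have := hT.lv j hj
    omega
  have hb := hc w Y y _ lv L hw hwη (pow_nonneg h0 _) hE T.x T.x0 T.s.toFinset T.t φ ht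
    (fun j hj => hT.lv j (List.mem_toFinset.1 hj)) (by omega) fun q₀ q₁ hq =>
      hShcT P F hF hN d Λ B T.s T.x T.x0 T.ψ φ q₀ q₁ hT.nd h2 hT.mem hT.cj hφ hT.br hq
  rw [MP_f68ac8_nt.Zk.expect_fst_ZkErr (R := 𝓡)]
  have h4 : d + Fintype.card O + 1 ≤ (Fintype.card O + 1) * (d + 1) := by nlinarith
  rw [← pow_mul]
  refine le_trans ?_ (mul_le_mul_of_nonneg_right (pow_le_pow_right₀ hK h4) h0)
  refine (pow_le_pow_iff_left₀ (norm_nonneg _) (by positivity)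
    (pow_pos two_pos (T.s.toFinset.card + 1)).ne').1 ((MP_f68ac8_nt.Zv.jensen_ZaErr _ _).trans
      ((expect_le_expect fun a _ => one_XErrT hLcT hBoxT hF hN hw hT hζ hφ
        (fun u => y u (a u).1) (fun u => c (a u).2) yo fun u => pd u (a u).1).trans ?_))
  rw [← mul_expect]
  exact le_trans (mul_le_mul_of_nonneg_left hb (by positivity))
    (MP_f68ac8_nt.Nd.num_NcErr hc1 h0 h1 (by omega))

end Pool.Agent.MP_e23604_nt.T
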