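import Mathlib
import Pool.Agent.Mg.Fe23604m.G06f121
import Pool.Agent.Mg.Fe23604m.G65b452

set_option linter.all false

namespace Pool.Agent.MP_e23604_nt.T

open Finset Filter NumberField
open MP_f68ac8_nt (cyc IsFrob)
open MP_f68ac8_nt.Zv (Ex Prob piV Unf Bx)
open MP_f68ac8_nt.Zk (NS brL lk msk Av)
open MP_f68ac8_nt.Nd (Lr Fr Gz Exm fP kap np OKp)
open Q (Wn Pre rot0)
open scoped BigOperators Topology

theorem xi_XTauB : ∃ ξ : 𝓞 Qb, IsPrimitiveRoot ξ 3 ∧ ∀ (m : ℕ) (g : GQ) (r : 𝓞 Qb), m ≠ 0 →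
    (r : Qb) = MP_f68ac8_nt.Ev.proot 3 (m : Qb) → g • r = ξ ^ (kk m g).val * r := by
  have h := MP_f68ac8_nt.xi_spec (p := 3) (Ω := Qb)
  refine ⟨⟨_, MP_f68ac8_nt.isIntegral_of_pow_eq_one h.pow_eq_one⟩,
    h.of_map_of_injective (f := algebraMap (𝓞 Qb) Qb) (FaithfulSMul.algebraMap_injective _ _),
    fun m g r hm hr => RingOfIntegers.ext ?_⟩
  have h1 := MP_f68ac8_nt.Ev.proot_pow 3 (m : Qb)
  have h2 := MP_f68ac8_nt.kap_spec (p := 3) (α := MP_f68ac8_nt.Ev.proot 3 (m : Qb)) (g := g)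
    (fun e => hm (by
      rw [e, zero_pow three_ne_zero, eq_comm] at h1
      exact_mod_cast h1)) (by rw [h1, map_natCast])
  change g (r : Qb) = _ ^ (kk m g).val * (r : Qb)
  rw [hr]
  exact h2

/-- the cubic residue symbol as a Kummer character -/
theorem one_XTauB {k m a : ℕ} {P : Ideal (𝓞 Qb)} [hP : P.IsMaximal] {σ : GQ} {ξ r : 𝓞 Qb}
    (hσ : IsFrob (3 * k + 1) P σ) (hm : (m : 𝓞 Qb) ∉ P) (h1 : r ^ 3 = m) (h2 : σ • r = ξ ^ a * r) :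
    Ideal.Quotient.mk P ξ ^ a = (m : 𝓞 Qb ⧸ P) ^ k := by
  have a3 := Ideal.Quotient.eq.2 (hσ r)
  have a4 : Ideal.Quotient.mk P r ≠ 0 := fun e => hm (by
    rw [← h1]
    exact P.pow_mem_of_mem (Ideal.Quotient.eq_zero_iff_mem.1 e) 3 three_pos)
  rw [h2, pow_succ, pow_mul, h1, map_mul, map_mul, map_pow, map_pow, map_natCast] at a3
  exact mul_right_cancel₀ a4 a3

theorem geo_XTauB {A B : Type} [CommRing A] [CommRing B] (f : A →+* B) {ζ : A} (h : f ζ = 1)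
    (n : ℕ) : f (∑ i ∈ range n, ζ ^ i) = n := by
  simp [map_sum, h]

theorem dvd_XTauB {u r ε : 𝓞 Qb} (hu : u ≠ 0) (h : r ^ 3 = u ^ 3 * ε) : u ∣ r := by
  have h0 : (u : Qb) ≠ 0 := fun e => hu (RingOfIntegers.ext e)
  have h1 : ((r : Qb) / u) ^ 3 = ε := by
    have h2 := congrArg (algebraMap (𝓞 Qb) Qb) h
    rw [map_mul, map_pow, map_pow] at h2
    rw [div_pow, div_eq_iff (pow_ne_zero _ h0), mul_comm]
    exact h2
  exact ⟨⟨(r : Qb) / u, IsIntegral.of_pow three_pos (by rw [h1]; exact ε.2)⟩,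
    RingOfIntegers.ext (mul_div_cancel₀ _ h0).symm⟩

attribute [local instance] Ideal.Quotient.field in
/-- the action of the decomposition group on a cube root of `l` -/
theorem two_XTauB {k m a : ℕ} [hl : Fact (3 * k + 1).Prime] {P : Ideal (𝓞 Qb)} [hP : P.IsMaximal]
    (hlP : ((3 * k + 1 : ℕ) : 𝓞 Qb) ∈ P) {g : GQ} (hg : g ∈ DP P) {ξ ζ r : 𝓞 Qb}
    (hζ : IsPrimitiveRoot ζ (3 * k + 1)) (h0 : g • ζ = ζ ^ m) (h1 : r ^ 3 = (3 * k + 1 : ℕ))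
    (h2 : g • r = ξ ^ a * r) : Ideal.Quotient.mk P ξ ^ a = (m : 𝓞 Qb ⧸ P) ^ k := by
  have : CharP (𝓞 Qb ⧸ P) (3 * k + 1) := (CharP.charP_iff_prime_eq_zero hl.out).2
    (by rw [← map_natCast (Ideal.Quotient.mk P), Ideal.Quotient.eq_zero_iff_mem]; exact hlP)
  have z1 : Ideal.Quotient.mk P ζ = 1 := by
    have h := sub_pow_char (p := 3 * k + 1) (Ideal.Quotient.mk P ζ) 1
    rw [← map_pow, hζ.pow_eq_one, map_one, one_pow, sub_self] at h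
    exact sub_eq_zero.1 (pow_eq_zero_iff (Nat.succ_ne_zero _) |>.1 h)
  have l0 : (1 - ζ) ^ k ≠ 0 := pow_ne_zero _ (sub_ne_zero.2 (hζ.ne_one hl.out.one_lt).symm)
  obtain ⟨ε, e1, e2⟩ : ∃ ε : 𝓞 Qb, r ^ 3 = ((1 - ζ) ^ k) ^ 3 * ε ∧ Ideal.Quotient.mk P ε = -1 := by
    refine ⟨∏ j ∈ range (3 * k), ∑ i ∈ range (j + 1), ζ ^ i, ?_, ?_⟩
    · rw [h1, Nat.cast_succ, ← hζ.prod_one_sub_pow_eq_order, ← pow_mul, mul_comm k,
        ← card_range (3 * k), ← prod_const, card_range, ← prod_mul_distrib]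
      exact prod_congr rfl fun j _ => (mul_neg_geom_sum ζ _).symm
    · rw [map_prod, prod_congr rfl fun j _ => geo_XTauB _ z1 (j + 1), ← Nat.cast_prod,
        prod_range_add_one_eq_factorial]
      have h := congrArg (ZMod.castHom (dvd_refl (3 * k + 1)) (𝓞 Qb ⧸ P))
        (ZMod.wilsons_lemma (3 * k + 1))
      rwa [map_natCast, map_neg, map_one, Nat.add_sub_cancel] at h
  obtain ⟨δ, rfl⟩ := dvd_XTauB l0 e1
  rw [mul_pow, mul_right_inj' (pow_ne_zero _ l0)] at e1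
  have x3 : Ideal.Quotient.mk P δ ^ 3 = -1 := by rw [← map_pow, e1, e2]
  have ke : Even k := by
    have h := hl.out.eq_two_or_odd
    rw [Nat.even_iff]
    omega
  obtain ⟨n, hn⟩ := (mem_bot_iff_intCast (3 * k + 1) _).1
    ((Subfield.mem_bot_iff_pow_eq_self _ (3 * k + 1) (x := Ideal.Quotient.mk P δ)).2
      (by rw [pow_succ, pow_mul, x3, ke.neg_one_pow, one_mul]))
  have gd : Ideal.Quotient.mk P (g • δ) = Ideal.Quotient.mk P δ := by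
    have h := (hg (δ - n)).2 (Ideal.Quotient.eq.1 (by rw [← hn, map_intCast]))
    rw [smul_sub, show g • (n : 𝓞 Qb) = n from
      map_intCast (MulSemiringAction.toRingHom GQ (𝓞 Qb) g) n] at h
    rw [Ideal.Quotient.eq.2 h, ← hn, map_intCast]
  rw [smul_mul', smul_pow', smul_sub, smul_one, h0, ← mul_neg_geom_sum, mul_pow, mul_assoc,
    mul_left_comm (ξ ^ a), mul_right_inj' l0] at h2
  have h3 := congrArg (Ideal.Quotient.mk P) h2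
  rw [map_mul, map_mul, map_pow, map_pow, geo_XTauB _ z1, gd] at h3
  refine (mul_right_cancel₀ (fun e => ?_) h3).symm
  rw [e, zero_pow three_ne_zero, eq_comm, neg_eq_zero] at x3
  exact one_ne_zero x3

theorem root_XTauB (m : ℕ) :
    ∃ r : 𝓞 Qb, (r : Qb) = MP_f68ac8_nt.Ev.proot 3 (m : Qb) ∧ r ^ 3 = m := by
  have h := MP_f68ac8_nt.Ev.proot_pow 3 (m : Qb)
  exact ⟨⟨MP_f68ac8_nt.Ev.proot 3 (m : Qb),
    IsIntegral.of_pow three_pos (by rw [h]; exact isIntegral_natCast _)⟩, rfl,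
    RingOfIntegers.ext (h.trans (map_natCast (algebraMap (𝓞 Qb) Qb) m).symm)⟩

theorem x_TauB (hValK : ValK) (hDecT : DecT) : TauB := by
  intro l P σ hl h3 hP hlP hσ hk g hg
  obtain ⟨k, rfl⟩ : ∃ k, l = 3 * k + 1 := ⟨l / 3, by omega⟩
  have := Fact.mk hl
  have hP1 : MP_f68ac8_nt.Zk.P1 3 (3 * k + 1) := ⟨hl, h3⟩
  obtain ⟨m, hlm, hm, em⟩ := Nat.forall_exists_prime_gt_and_eq_mod
    (cyc (Ω := Qb) (3 * k + 1) g).isUnit (3 * k + 1)
  have e1 : ch (3 * k + 1) g = kk m σ := by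
    obtain ⟨_, ψ, -, hψ⟩ := MP_f68ac8_nt.Zk.ok_ZmCh hP1
    obtain ⟨Q, hQ, hmQ⟩ := MP_f68ac8_nt.exists_maximal_mem (Ω := Qb) hm
    obtain ⟨s, hs⟩ := MP_f68ac8_nt.exists_frob Q hm hmQ
    rw [hk m hm hlm.ne', ← MP_f68ac8_nt.Zk.lk_ZmCh hm hP1 hlm.ne hQ hmQ hs, ch, hψ, hψ,
      Units.ext (em.symm.trans (MP_f68ac8_nt.cyc_frob
        (MP_f68ac8_nt.Zk.nm_ZmCh hm hl hlm.ne hQ hmQ) hs).symm)]
  obtain ⟨ξ, hξ, hx⟩ := xi_XTauB
  obtain ⟨r, r1, r2⟩ := root_XTauB m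
  obtain ⟨ρ, p1, p2⟩ := root_XTauB (3 * k + 1)
  have hz := MP_f68ac8_nt.zeta_spec (Ω := Qb) (3 * k + 1)
  have b1 := one_XTauB hσ (MP_f68ac8_nt.Zk.nm_ZmCh hl hm hlm.ne' hP hlP) r2
    (hx m σ r hm.ne_zero r1)
  have b2 := two_XTauB (m := m) hlP hg
    (ζ := ⟨_, MP_f68ac8_nt.isIntegral_of_pow_eq_one hz.pow_eq_one⟩)
    (hz.of_map_of_injective (f := algebraMap (𝓞 Qb) Qb) (FaithfulSMul.algebraMap_injective _ _))
    (RingOfIntegers.ext ((MP_f68ac8_nt.cyc_spec (3 * k + 1) g hz.pow_eq_one).trans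
      (by rw [← em, MP_f68ac8_nt.ex_nat hz]; rfl))) p2 (hx _ g ρ hl.ne_zero p1)
  have c : ∀ a : ℕ, (ξ ^ a) ^ 3 = 1 := fun a => by rw [pow_right_comm, hξ.pow_eq_one, one_pow]
  rw [e1]
  refine MP_f68ac8_nt.ex_inj hξ (MP_f68ac8_nt.root_eq_of_sub_mem
    (MP_f68ac8_nt.Zk.nm_ZmCh hl Nat.prime_three (by omega) hP hlP) (c _) (c _) ?_)
  rw [← Ideal.Quotient.eq, map_pow, map_pow, b1, b2]

end Pool.Agent.MP_e23604_nt.T
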