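import Mathlib
import Pool.Agent.Mg.Fe23604m.G06f121

set_option linter.all false

namespace Pool.Agent.MP_e23604_nt.T

open Finset Filter NumberField
open MP_f68ac8_nt (cyc IsFrob)
open MP_f68ac8_nt.Zv (Ex Prob piV Unf Bx)
open MP_f68ac8_nt.Zk (NS brL lk msk Av)
open MP_f68ac8_nt.Nd (Lr Fr Gz Exm fP kap np OKp)
open Q (Wn Pre rot0)
open scoped BigOperators Topology

/-- an approximate cocycle that is invariant under an admissible subgroup -/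
theorem inv_XRecT (hUcT : UcT) (hActB : ActB) (hAdmT : AdmT) {V : Type} [AddCommGroup V]
    [Fintype V] {d : ℕ} (S : Sy V d) (ok : S.Ok) {n : ℕ} {v : Fin d → V} {x₀ : GQ → V}
    (h₀ : S.Ap n v x₀) : ∃ (M : Subgroup GQ) (x : GQ → V), Adm S.R M ∧ M ≤ Gz 3 ∧ S.Ap n v x ∧
      ∀ g h, g⁻¹ * h ∈ M → x g = x h ∧ S.η g = S.η h := by
  have hR : ∀ l ∈ S.R, P0 l := fun l hl => by
    obtain ⟨j, -, rfl⟩ := Finset.mem_image.1 hl
    exact ok.pri j
  have hA := hActB V S.J S.T ok.cm.toCm0 S.η S.R S.e S.β S.σ S.τ ok.gm ok.tl hR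
  obtain ⟨M, m1, m2, -, m4⟩ := (hAdmT V d S ok).2 n v x₀ h₀
  have hi : ∀ g h : GQ, g⁻¹ * h ∈ M → x₀ (g : GQ ⧸ M).out = x₀ (h : GQ ⧸ M).out := fun g h e => by
    rw [QuotientGroup.eq.2 e]
  have hc : ∀ g : GQ, x₀ (g : GQ ⧸ M).out - x₀ g ∈ Wn S.J n := fun g => by
    obtain ⟨a, ha⟩ := QuotientGroup.mk_out_eq_mul M g
    rw [ha, show x₀ (g * a) - x₀ g = x₀ (g * a) - (x₀ g + S.η g (x₀ a)) + S.η g (x₀ a) by abel]
    exact add_mem (h₀.co _ _) (((hA g).1.1 _ _).2 ((m4 a).1 a.2).2)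
  refine ⟨M, fun g => x₀ (g : GQ ⧸ M).out, m1, m2, ⟨((hUcT V _).2 M m1.nhds).2 hi, fun g h => ?_,
    fun g => h₀.val _, fun P hP g hg => ?_, fun g hg => ?_, fun j => ?_⟩, fun g h e => ⟨hi g h e, ?_⟩⟩
  · have := sub_mem (sub_mem (add_mem (hc (g * h)) (h₀.co g h)) (hc g))
      (((hA g).1.1 _ _).2 (hc h))
    rw [map_sub] at this
    exact Eq.mp (congrArg (· ∈ Wn S.J n) (by abel)) this
  · exact Eq.mp (congrArg (· ∈ Wn S.J n) (by abel)) (add_mem (hc g) (h₀.unr P hP g hg))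
  · exact Eq.mp (congrArg (· ∈ Wn S.J n) (by abel)) (add_mem (hc g) (h₀.thr g hg))
  · exact Eq.mp (congrArg (· ∈ Wn S.J n) (by abel)) (add_mem (hc _) (h₀.tam j))
  · rw [← mul_inv_cancel_left g h, map_mul, ((m4 _).1 e).1, mul_one]

theorem x_RecT (hBasT : BasT) (hUcT : UcT) (hDecT : DecT) (hLevS : LevS) (hActB : ActB)
    (hObT : ObT) (hAdmT : AdmT) (hRecL : RecL) (hRecP : RecP) (hRecD : RecD) : RecT := by
  intro V _ _ d S ok n u v hn h2 hm hv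
  obtain ⟨k, rfl⟩ : ∃ k, n = k + 1 := ⟨n - 1, by omega⟩
  have hk : ¬ Even k := Nat.even_add_one.1 hn
  have hR : ∀ l ∈ S.R, P0 l := fun l hl => by
    obtain ⟨j, -, rfl⟩ := Finset.mem_image.1 hl
    exact ok.pri j
  have hA := hActB V S.J S.T ok.cm.toCm0 S.η S.R S.e S.β S.σ S.τ ok.gm ok.tl hR
  obtain ⟨b1, -, -, -, -, b6, b7, -⟩ := hBasT V S.J S.T ok.cm.toCm0
  obtain ⟨x₀, h₀, -⟩ := hv.2
  obtain ⟨M, x, m1, m2, hx, hi⟩ := inv_XRecT hUcT hActB hAdmT S ok h₀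
  obtain ⟨t, t1, t2⟩ := ((hLevS V S.J S.T ok.cm.toCm0).1 _ ok.cm).1 (k + 1) (by omega)
  obtain ⟨r1, r2⟩ := hRecP V d S ok _ u v x hv hx
  obtain ⟨p, p1, p2⟩ : ∃ p : ℕ → V, p 3 = S.o ∧ ∀ j, p (S.l j) = v j :=
    ⟨Function.extend S.l v fun _ => S.o,
      Function.extend_apply' _ _ _ fun ⟨j, e⟩ => (ok.pri j).2 e, fun j => ok.inj.extend_apply _ _ j⟩
  obtain ⟨σ, s1, s2⟩ : ∃ σ : ℕ → GQ, σ 3 = S.φ ∧ ∀ j, σ (S.l j) = S.σ (S.l j) :=
    ⟨fun l => if l = 3 then S.φ else S.σ l, if_pos rfl, fun j => if_neg (ok.pri j).2⟩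
  have hP : ∀ l : ℕ, ∃ P : Ideal (𝓞 Qb), l ∈ insert 3 S.R → P.IsMaximal ∧ (l : 𝓞 Qb) ∈ P ∧
      IsFrob l P (σ l) ∧ (∀ g ∈ DP P, x g + S.η g (p l) - p l ∈ Wn S.J (k + 2)) ∧
      ∀ g ∈ P.inertia GQ, x g + S.η g (p l) - p l ∈ Wn S.J (k + 1) := fun l => by
    by_cases hl : l ∈ insert 3 S.R
    · rcases Finset.mem_insert.1 hl with rfl | hl
      · refine ⟨P3, fun _ => ⟨hDecT.1, hDecT.2.1, s1 ▸ ok.fr, p1 ▸ r1, fun g hg => ?_⟩⟩
        rw [p1]
        exact Eq.mp (congrArg (· ∈ Wn S.J (k + 1)) (by abel)) (hx.thr g hg)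
      · obtain ⟨j, -, rfl⟩ := Finset.mem_image.1 hl
        obtain ⟨P, a, b, c, e⟩ := (ok.tl _ (ok.pri j)).ex
        rw [p2, s2]
        exact ⟨P, fun _ => ⟨a, b, c, r2 j P a b c e⟩⟩
    · exact ⟨P3, fun h => absurd h hl⟩
  choose P hP using hP
  have hδ : ∀ g h, x g + S.η g (x h) - x (g * h) ∈ Wn S.J (k + 1) := fun g h => by
    rw [← neg_sub]
    exact neg_mem (hx.co g h)
  have ht : ∀ g, S.η g t - t ∈ Wn S.J (k + 1) := fun g => (hA g).1.2 _ hn t t1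
  have hs : ∀ g, ∀ w ∈ Wn S.J (k + 1), dig S.J S.T k (S.η g w) = sg g * dig S.J S.T k w :=
    fun g w hw => by rw [(hA g).2.1 k w hw, if_neg hk]
  have key := hRecD S.R S.e S.β M (fun g h => dig S.J S.T k (x g + S.η g (x h) - x (g * h)))
    (fun g => dig S.J S.T k (S.η g t - t)) P σ
    (fun l g => dig S.J S.T (k + 1) (x g + S.η g (p l) - p l))
    (fun l g => dig S.J S.T k (x g + S.η g (p l) - p l -
      (dig S.J S.T (k + 1) (x g + S.η g (p l) - p l)).val • t)) hR m1 m2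
    (fun g h a ha a' ha' => by
      have e1 := hi g (g * a) (by rwa [inv_mul_cancel_left])
      have e2 := hi h (h * a') (by rwa [inv_mul_cancel_left])
      have e3 := hi (g * h) (g * a * (h * a')) (by
        rw [show (g * h)⁻¹ * (g * a * (h * a')) = h⁻¹ * a * h⁻¹⁻¹ * a' by group]
        exact mul_mem (m1.nrm.conj_mem a ha _) ha')
      simp only [← e1.1, ← e1.2, ← e2.1, ← e3.1])
    (fun g h j => by
      rw [← hs g _ (hδ h j), ← (b7 k _ (hδ g h) _ (hδ (g * h) j)).1,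
        ← (b7 k _ (((hA g).1.1 _ _).2 (hδ h j)) _ (hδ g (h * j))).1]
      refine congrArg _ ?_
      rw [map_mul, LinearEquiv.mul_apply, map_sub, map_add, mul_assoc]
      abel)
    (fun g h => by
      rw [← hs g _ (ht h), ← (b7 k _ (ht g) _ (((hA g).1.1 _ _).2 (ht h))).1]
      refine congrArg _ ?_
      rw [map_mul, LinearEquiv.mul_apply, map_sub]
      abel)
    (fun g hg => by rw [((hA g).2.2 hg).2 k t t1, t2, mul_one])
    (fun l hl => by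
      obtain ⟨a, b, c, e, f⟩ := hP l hl
      refine ⟨a, b, c, fun g hg => (b6 _ _ (b1 _ _ (Nat.le_succ _) (f g hg))).2 (f g hg),
        fun g hg h hh => ?_⟩
      have := hRecL V S.J S.T ok.cm.toCm0 S.η S.R S.e S.β S.σ S.τ ok.gm ok.tl hR x k (p l) t
        (DP (P l)) (Nat.not_even_iff_odd.1 hk) hx.co t1 t2 e _ _ (fun _ => rfl) (fun _ => rfl)
        g hg h hh
      refine ⟨this.1, fun e => ?_, this.2⟩
      simp only [(hi g h e).1, (hi g h e).2, and_self])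
  have ho := (((hObT V d S ok) (k + 1) v).2.1 x hx).1
  rw [Sy.R, Finset.sum_image fun a _ b _ e => ok.inj e, p1, s1] at key
  rw [← key, Sy.ph, ho none]
  refine congrArg₂ _ (Finset.sum_congr rfl fun j _ => ?_) (congrArg _ (congrArg _ ?_))
  · rw [ho, p2, s2, Pi.one_apply, mul_one]
    rfl
  · change _ - _ = _
    abel

end Pool.Agent.MP_e23604_nt.T
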