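import Mathlib
import Pool.Agent.Mg.Fe23604m.G06f121
import Pool.Agent.Mg.Fe23604m.G318bc4

set_option linter.all false

section

namespace Pool.Agent.MP_e23604_nt.T

open Finset Filter NumberField
open MP_f68ac8_nt (cyc IsFrob)
open MP_f68ac8_nt.Zv (Ex Prob piV Unf Bx)
open MP_f68ac8_nt.Zk (NS brL lk msk Av)
open MP_f68ac8_nt.Nd (Lr Fr Gz Exm fP kap np OKp)
open Q (Wn Pre rot0)
open scoped BigOperators Topology

section
variable {V : Type} [AddCommGroup V] {J : V ≃ₗ[ℤ] V} {T : V} {m : ℕ}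

theorem diff_XIvT (g g' : Pm J m) (y : V) :
    g.1 y = g'.1 y + g'.1.linear ((g'⁻¹ * g).1 y - y) := by
  have e : g.1 y = g'.1 ((g'⁻¹ * g).1 y) := by
    change g.1 y = (g' * (g'⁻¹ * g)).1 y
    rw [mul_inv_cancel_left]
  rw [e, Q.aff_apply g'.1 ((g'⁻¹ * g).1 y), Q.aff_apply g'.1 y, map_sub]
  abel

theorem mem_XIvT (hFilT : FilT) (h0 : Cm0 J T) {k n : ℕ} (hk : m + 1 - k = n) {g g' : Pm J m}
    (hc : g'⁻¹ * g ∈ Fk J m k) {y : V} (hy : y ∈ Wn J (m + 1)) :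
    (g'⁻¹ * g).1 y - y ∈ Wn J n ∧ g'.1.linear ((g'⁻¹ * g).1 y - y) ∈ Wn J n := by
  have h := ((hFilT V J T h0 m).2.2.1 k _ hc (m + 1) y hy le_rfl).1
  rw [hk] at h
  exact ⟨h, (g'.2.1.1 _ _).2 h⟩

end

theorem x_IvT (hBasT : BasT) (hFilT : FilT) : IvT := by
  intro V _ B h0 d n k η₀ v Z Z' hn hnk hv hZ hc
  obtain ⟨hmono, -, -, -, -, -, hadd, -, hw, -⟩ := hBasT V B.J B.T h0
  have r1 : B.m + 1 - k = n + 1 := by omega
  have r2 : B.m + 1 - (k + 1) = n := by omega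
  have e1 : ∀ j, B.evW η₀ v Z (some j) = B.evW η₀ v Z' (some j) + (Z' (Sum.inl j)).1.linear
      (((Z' (Sum.inl j))⁻¹ * Z (Sum.inl j)).1 (v j) - v j) := fun j => by
    simp only [Bs.evW]
    rw [diff_XIvT (Z (Sum.inl j)) (Z' (Sum.inl j))]
    abel
  have e2 : B.evW η₀ v Z none = B.evW η₀ v Z' none + (Z' (Sum.inr none)).1.linear
      (((Z' (Sum.inr none))⁻¹ * Z (Sum.inr none)).1 0 - 0) := by
    simp only [Bs.evW]
    rw [diff_XIvT (Z (Sum.inr none)) (Z' (Sum.inr none))]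
    abel
  have hC : B.cnW η₀ n v Z' := by
    rintro (_ | j)
    · have h1 := hZ none
      rw [e2] at h1
      exact (add_mem_cancel_right (mem_XIvT hFilT h0 r1 (hc _) (zero_mem _)).2).1 h1
    · have h1 := hZ (some j)
      rw [e1] at h1
      exact (add_mem_cancel_right (mem_XIvT hFilT h0 r1 (hc _) (hv j)).2).1 h1
  refine ⟨hC, fun j => ?_, fun j hj => ?_, fun hj => ?_, fun o n' hn' ho => ?_⟩
  · obtain ⟨h1, h2⟩ := mem_XIvT hFilT h0 r1 (hc (Sum.inl j)) (hv j)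
    have h3 := hw n (((Z' (Sum.inl j))⁻¹ * Z (Sum.inl j)).1 (v j) - v j) _
      ((Z' (Sum.inl j)).2.1.2 n hn _ h1)
    rw [add_sub_cancel] at h3
    rw [e1, (hadd n _ (hC (some j)) _ h2).1, h3]
  · rw [e1, hw n _ _ (mem_XIvT hFilT h0 r2 hj (hv j)).2]
  · rw [e2, hw n _ _ (mem_XIvT hFilT h0 r2 hj (zero_mem _)).2]
  · rw [diff_XIvT (Z (Sum.inr o)) (Z' (Sum.inr o)),
      hw n' _ _ (hmono _ _ hn' (mem_XIvT hFilT h0 r2 ho (zero_mem _)).2)]

end Pool.Agent.MP_e23604_nt.T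

end

section

namespace Pool.Agent.MP_e23604_nt.T

open Finset Filter NumberField
open MP_f68ac8_nt (cyc IsFrob)
open MP_f68ac8_nt.Zv (Ex Prob piV Unf Bx)
open MP_f68ac8_nt.Zk (NS brL lk msk Av)
open MP_f68ac8_nt.Nd (Lr Fr Gz Exm fP kap np OKp)
open Q (Wn Pre rot0)
open scoped BigOperators Topology

theorem x_ValK : ValK := by
  intro l hl
  have h0 : (l : Qb) ≠ 0 := Nat.cast_ne_zero.2 hl.ne_zero
  have hy := MP_f68ac8_nt.Ev.proot_pow 3 (l : Qb)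
  have h1 : ∀ g h, kk l (g * h) = kk l g + sg g * kk l h := fun g h =>
    MP_f68ac8_nt.kap_mul (MP_f68ac8_nt.Ev.root_ne_EvKK h0 hy) (by rw [hy, map_natCast])
      (by rw [hy, map_natCast])
  refine ⟨(IsLocallyConstant.iff_eventually_eq _).2 fun g => ?_, h1,
    fun P hP h2 h3 g hg => MP_f68ac8_nt.Nd.unr_NjKum hl hP h2 h3 hg⟩
  have h2 : Tendsto (fun y : GQ => g⁻¹ * y) (𝓝 g) (𝓝 1) := by
    simpa using (continuous_const_mul g⁻¹).tendsto g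
  filter_upwards [h2.eventually ((MP_f68ac8_nt.Ev.kk_stmt 3).2.2.2.2.2.2.1 _ h0)] with y hy'
  have h3 := h1 g (g⁻¹ * y)
  rwa [mul_inv_cancel_left, show kk l (g⁻¹ * y) = 0 from hy', mul_zero, add_zero] at h3

end Pool.Agent.MP_e23604_nt.T

end
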