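import Mathlib
import Pool.Agent.Mg.Fe23604m.G06f121
import Pool.Agent.Mg.Fe23604m.G318bc4

set_option linter.all false

/-! Oscillation in two large primes. -/

namespace Pool.Agent.MP_e23604_nt.T

open Finset Filter NumberField
open MP_f68ac8_nt (cyc IsFrob)
open MP_f68ac8_nt.Zv (Ex Prob piV Unf Bx)
open MP_f68ac8_nt.Zk (NS brL lk msk Av)
open MP_f68ac8_nt.Nd (Lr Fr Gz Exm fP kap np OKp)
open Q (Wn Pre rot0)
open scoped BigOperators Topology

open MP_f68ac8_nt.Nd (tw swap_NjOsc ex_le_NdOsc norm_tw_NdOsc norm_psi_NjOsc Ij_NdOsc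
  inj_update_NdOsc)
open Function (update update_self update_of_ne)

theorem sep_XOscA {d : ℕ} {Λ R : Type} [AddCommGroup R] (g : Fin d → Fin d → Λ → Λ → R)
    {i j : Fin d} (hij : i ≠ j) (q : Fin d → Λ) : ∃ A B : Λ → R, ∀ l l',
    ∑ k, ∑ k', g k' k (update (update q i l) j l' k') (update (update q i l) j l' k) =
      A l + B l' + (g i j l l' + g j i l' l) := by
  have h : ∀ k k', ∃ a b : Λ → R, ∀ l l',
      g k' k (update (update q i l) j l' k') (update (update q i l) j l' k) = a l + b l' +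
        ((if k' = i ∧ k = j then g i j l l' else 0) +
          if k' = j ∧ k = i then g j i l' l else 0) := by
    intro k k'
    by_cases h1 : k' ≠ j ∧ k ≠ j
    · refine ⟨fun l => g k' k (update q i l k') (update q i l k), 0, fun l l' => ?_⟩
      rw [update_of_ne h1.1, update_of_ne h1.2, if_neg fun h => h1.2 h.2,
        if_neg fun h => h1.1 h.1]
      simp
    by_cases h2 : k' ≠ i ∧ k ≠ i
    · refine ⟨0, fun l' => g k' k (update q j l' k') (update q j l' k), fun l l' => ?_⟩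
      rw [Function.update_comm hij, update_of_ne h2.1, update_of_ne h2.2,
        if_neg fun h => h2.1 h.1, if_neg fun h => h2.2 h.2]
      simp
    refine ⟨0, 0, fun l l' => ?_⟩
    have h3 : (k' = i ∧ k = j) ∨ (k' = j ∧ k = i) := by
      by_cases a1 : k' = i
      · exact Or.inl ⟨a1, by_contra fun a2 => h1 ⟨a1 ▸ hij, a2⟩⟩
      · have a2 : k = i := by_contra fun a2 => h2 ⟨a1, a2⟩
        exact Or.inr ⟨by_contra fun a3 => h1 ⟨a3, a2 ▸ hij⟩, a2⟩
    rcases h3 with ⟨rfl, rfl⟩ | ⟨rfl, rfl⟩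
    · simp [hij, hij.symm]
    · simp [hij, hij.symm]
  choose a b hab using h
  refine ⟨fun l => ∑ k, ∑ k', a k k' l, fun l' => ∑ k, ∑ k', b k k' l', fun l l' => ?_⟩
  simp only [hab, sum_add_distrib, ite_and, sum_ite_eq', mem_univ, if_true]

theorem prod_XOscA {d : ℕ} (x : Fin d → ZMod 3) :
    ∏ j, fP (x j) = 𝔼 u : Fin d → (ZMod 3)ˣ, ZMod.stdAddChar (∑ j, (u j : ZMod 3) * x j) := by
  have e : ∀ u : Fin d → (ZMod 3)ˣ, (ZMod.stdAddChar (∑ j, (u j : ZMod 3) * x j) : ℂ) =
      ∏ j, ZMod.stdAddChar ((u j : ZMod 3) * x j) := fun u =>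
    map_prod (ZMod.stdAddChar (N := 3)).toMonoidHom
      (fun j => Multiplicative.ofAdd ((u j : ZMod 3) * x j)) univ
  simp only [fP, e, expect_eq_sum_div_card, prod_div_distrib, prod_univ_sum,
    Fintype.piFinset_univ, prod_const, card_univ, Fintype.card_fun, Nat.cast_pow]

theorem tf_XOscA {d : ℕ} (e : ℕ → ZMod 3) (l : Fin d → ℕ) (φ : Fin d → V3 d) (c a : V3 d) :
    (dtl e l).Tf φ c a = 𝔼 u : Fin d → (ZMod 3)ˣ, ZMod.stdAddChar (∑ k, ∑ k',
      if k' = k then (u k : ZMod 3) * (c k * rh 3 (l k)) + a k * (e (l k) * lm9 (l k))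
      else (u k : ZMod 3) * φ k' k * (e (l k') * rh (l k') (l k))) := by
  rw [Dt.Tf, prod_filter_of_ne, prod_XOscA, expect_mul]
  · refine expect_congr rfl fun u _ => ?_
    rw [← AddChar.map_add_eq_mul, ← sum_add_distrib]
    refine congrArg _ (sum_congr rfl fun k _ => ?_)
    rw [← add_sum_erase univ _ (mem_univ k), if_pos rfl,
      sum_congr rfl fun k' hk' => if_neg (ne_of_mem_erase hk'), mul_add, mul_sum]
    simp only [dtl, mul_assoc]
    ring
  · intro j _ hj
    by_contra h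
    have h3 : ¬ l j % 3 = 1 := fun h' => h (decide_eq_true h')
    refine hj ?_
    simp [dtl, rh, h3, fP]

theorem bil_XOscA {Q : Par} {c : ℝ} {n r : ℕ} {D η : ℝ} (hp : Q.Ok c n r D η) (m m' : Q.Mk)
    (hm : m.1.val ≠ 0) (hm' : m'.1.val ≠ 0) (hs : m'.2 = true) (A B : Q.Λ → ℂ) (s t : ZMod 3)
    (hst : s ≠ 0) (hA : ∀ u, ‖A u‖ ≤ Q.W m u) (hB : ∀ u, ‖B u‖ ≤ Q.W m' u) :
    ‖∑ u, ∑ v, if u = v then 0 else
      A u * B v * ZMod.stdAddChar (s * rh u v + t * rh v u)‖ ≤ η := by
  have h := hp.bil m m' (fun l => if h : l ∈ Q.Λ then A ⟨l, h⟩ else 0)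
    (fun l => if h : l ∈ Q.Λ then B ⟨l, h⟩ else 0) s t hm hm' hs hst
    (fun l hl => by rw [dif_pos hl]; exact hA _) fun l hl => by rw [dif_pos hl]; exact hB _
  rw [← sum_coe_sort] at h
  refine le_trans (le_of_eq (congrArg _ (sum_congr rfl fun u _ => ?_))) h
  rw [← sum_coe_sort Q.Λ]
  refine sum_congr rfl fun v _ => ?_
  by_cases e : u = v
  · rw [if_pos e, if_pos (congrArg Subtype.val e)]
  · rw [if_neg e, if_neg fun e' => e (Subtype.ext e'), dif_pos u.2, dif_pos v.2]

theorem inj_XOscA {d : ℕ} {Λ : Finset ℕ} {i j : Fin d} (hij : i ≠ j) (q : Fin d → Λ)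
    (l l' : Λ) : Function.Injective (update (update q i l) j l') ↔
      l ≠ l' ∧ Ij_NdOsc j (update q i l) ∧ ∀ k, k ≠ j → k ≠ i → q k ≠ l' := by
  rw [inj_update_NdOsc]
  refine ⟨fun h => ⟨?_, h.1, fun k h1 h2 => ?_⟩, fun h => ⟨h.2.1, fun k h1 => ?_⟩⟩
  · have := h.2 i hij
    rwa [update_self] at this
  · have := h.2 k h1
    rwa [update_of_ne h2] at this
  · by_cases h2 : k = i
    · rw [h2, update_self]
      exact h.1
    · rw [update_of_ne h2]
      exact h.2.2 k h1 h2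

theorem x_OscA (hWmT : WmT) (hTwN : MP_f68ac8_nt.Nd.TwN) : OscA := by
  classical
  intro Q c n r D η y d μ e hc hp _ _ he φ c' a i j hij hi hj hs hφ
  obtain ⟨-, hW⟩ := hWmT Q c n r D η hp
  obtain ⟨hw, hle, hne⟩ := hW d μ
  have h0 := (hTwN c hc Q.Λ (fun l hl => (hp.pri l hl).1) d (Q.wm μ) y).2
    (fun q => if Function.Injective q then (dtl e fun k => (q k : ℕ)).Tf φ c' a else 0) η
    fun τ _ => ?_
  · refine le_trans (le_of_eq (congrArg _ (sum_congr rfl fun q _ => ?_))) h0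
    rw [nuT, Complex.real_smul]
    by_cases h : Function.Injective q <;> simp [h, mul_assoc]
  have e0 : ∀ q : Fin d → Q.Λ, (if Function.Injective q then
      (dtl e fun k => (q k : ℕ)).Tf φ c' a else 0) = 𝔼 u : Fin d → (ZMod 3)ˣ,
      if Function.Injective q then ZMod.stdAddChar (∑ k, ∑ k',
        if k' = k then (u k : ZMod 3) * (c' k * rh 3 (q k)) + a k * (e (q k) * lm9 (q k))
        else (u k : ZMod 3) * φ k' k * (e (q k') * rh (q k') (q k))) else 0 := fun q => by
    split_ifs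
    · exact tf_XOscA e _ φ c' a
    · simp
  simp only [e0]
  refine swap_NjOsc _ _ _ _ fun u => ?_
  rw [MP_f68ac8_nt.Zv.resample_ZaGcs hw j, MP_f68ac8_nt.Zv.resample_ZaGcs hw i]
  refine ex_le_NdOsc hw _ _ fun q _ => ?_
  obtain ⟨A, B, hAB⟩ := sep_XOscA (fun (k' k : Fin d) (l l' : Q.Λ) =>
    if k' = k then (u k : ZMod 3) * (c' k * rh 3 l') + a k * (e l' * lm9 l')
    else (u k : ZMod 3) * φ k' k * (e l * rh l l')) hij q
  have h1 := bil_XOscA hp (μ i) (μ j) hi hj hs
    (fun l => Q.wm μ i l • if Ij_NdOsc j (update q i l) then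
      (∏ k ∈ univ.erase j, tw τ (update q i l k)) * ZMod.stdAddChar (A l) else 0)
    (fun l' => Q.wm μ j l' • if ∀ k, k ≠ j → k ≠ i → q k ≠ l' then
      tw τ l' * ZMod.stdAddChar (B l') else 0)
    ((u j : ZMod 3) * φ i j) ((u i : ZMod 3) * φ j i) (mul_ne_zero (Units.ne_zero _) hφ)
    (fun l => by
      rw [norm_smul, Real.norm_of_nonneg (hw.1 i l)]
      refine (mul_le_of_le_one_right (hw.1 i l) ?_).trans (hle i l hi).1
      split_ifs
      · rw [norm_mul, norm_psi_NjOsc, norm_prod, prod_eq_one fun k _ => norm_tw_NdOsc τ _,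
          one_mul]
      · simp)
    fun l => by
      rw [norm_smul, Real.norm_of_nonneg (hw.1 j l)]
      refine (mul_le_of_le_one_right (hw.1 j l) ?_).trans (hle j l hj).1
      split_ifs
      · rw [norm_mul, norm_psi_NjOsc, norm_tw_NdOsc, one_mul]
      · simp
  refine le_trans (le_of_eq (congrArg _ (sum_congr rfl fun l _ => ?_))) h1
  rw [smul_sum]
  refine sum_congr rfl fun l' _ => ?_
  by_cases hl : Q.wm μ i l = 0
  · simp [hl]
  by_cases hl' : Q.wm μ j l' = 0
  · simp [hl']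
  have e1 := he l (hp.big _ l l.2 hi (hne i l hl))
  have e2 := he l' (hp.big _ l' l'.2 hj (hne j l' hl'))
  by_cases h2 : Function.Injective (update (update q i l) j l')
  · obtain ⟨a1, a2, a3⟩ := (inj_XOscA hij q l l').1 h2
    have e3 : ∏ k, tw τ (update (update q i l) j l' k) =
        tw τ l' * ∏ k ∈ univ.erase j, tw τ (update q i l k) := by
      rw [← mul_prod_erase univ _ (mem_univ j), update_self]
      exact congrArg _ (prod_congr rfl fun k hk => by rw [update_of_ne (ne_of_mem_erase hk)])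
    rw [if_pos h2, if_neg a1, if_pos a2, if_pos a3, e3, hAB, if_neg hij, if_neg hij.symm, e1, e2,
      one_mul, one_mul, AddChar.map_add_eq_mul, AddChar.map_add_eq_mul _ (A l)]
    simp only [Complex.real_smul]
    ring
  · rw [if_neg h2, mul_zero, smul_zero, smul_zero]
    rw [inj_XOscA hij] at h2
    split_ifs with a1 a2 a3
    · rfl
    · exact absurd ⟨a1, a2, a3⟩ h2
    · simp
    · simp
    · simp

end Pool.Agent.MP_e23604_nt.T
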