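import Mathlib
import Pool.Agent.Mg.Fe23604m.G06f121

set_option linter.all false

namespace Pool.Agent.MP_e23604_nt.T

open Finset Filter NumberField
open MP_f68ac8_nt (cyc IsFrob)
open MP_f68ac8_nt.Zv (Ex Prob piV Unf Bx)
open MP_f68ac8_nt.Zk (NS brL lk msk Av)
open MP_f68ac8_nt.Nd (Lr Fr Gz Exm fP kap np OKp)
open Q (Wn Pre rot0)
open scoped BigOperators Topology

theorem gen_XTamT {G : Type} [Group G] {γ t x : G} {a n : ℤ} {j : ℕ} (h : γ ^ 3 ^ j = 1)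
    (ha : ¬ (3 : ℤ) ∣ a) (ht : t = γ ^ a) (hx : x = γ ^ n) : ∃ k : ℕ, t ^ k = x := by
  obtain ⟨u, v, huv⟩ : IsCoprime a ((3 : ℤ) ^ j) :=
    (Int.prime_three.coprime_iff_not_dvd.2 ha).symm.pow_right
  have h' : γ ^ (3 : ℤ) ^ j = 1 := by rw [← h, ← zpow_natCast, Nat.cast_pow, Nat.cast_ofNat]
  have e : γ = t ^ u := by
    rw [ht, ← zpow_mul, mul_comm, eq_sub_of_add_eq huv, zpow_sub, zpow_one, mul_comm v, zpow_mul, h',
      one_zpow, inv_one, mul_one]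
  have hf : IsOfFinOrder t := by
    rw [ht]
    exact (isOfFinOrder_iff_pow_eq_one.2 ⟨_, by positivity, h⟩).zpow
  exact hf.mem_powers_iff_mem_zpowers.2 ⟨u * n, by rw [hx, e, ← zpow_mul]⟩

theorem x_TamT (hSgT : SgT) (hUcT : UcT) (hDecT : DecT) (hValK : ValK) : TamT := by
  intro l P τ hl hP hlP hτ hk M hM ho hpg g hg
  obtain ⟨k1, k2, -⟩ := hValK l hl.1
  have hc : (3 : ℕ).Coprime l := (Nat.coprime_primes Nat.prime_three hl.1).2 hl.2.symm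
  have hI : ∀ u ∈ P.inertia GQ, u ∈ Gz 3 :=
    (hDecT.2.2.2 P hP).2.2.1 (MP_f68ac8_nt.not_mem_of_coprime hlP hc.symm)
  let κ : P.inertia GQ →* Multiplicative (ZMod 3) :=
    MonoidHom.mk' (fun u => Multiplicative.ofAdd (kk l u)) fun u v => by
      rw [← ofAdd_add, Subgroup.coe_mul, k2, hSgT.2.1 _ (hI _ u.2), one_mul]
  have κ3 : ∀ y : Multiplicative (ZMod 3), y ^ 3 = 1 := by decide
  let f : P.inertia GQ →* GQ ⧸ M := (QuotientGroup.mk' M).comp (Subgroup.subtype _)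
  have f1 : ∀ u, f u = 1 ↔ u.1 ∈ M := fun u => QuotientGroup.eq_one_iff u.1
  have f3 : ∀ u, ∃ j, f u ^ 3 ^ j = 1 := fun u =>
    (hpg _ (hI _ u.2)).imp fun j hj => by rw [← map_pow, f1]; exact hj
  have hs : (M : Set GQ) ∩ {u | kk l u = kk l 1} ∈ 𝓝 1 :=
    inter_mem ho ((k1.isOpen_fiber _).mem_nhds rfl)
  obtain ⟨L, _, _, hL⟩ := MP_f68ac8_nt.exists_level hs
  obtain ⟨C, _, _, Θ, h1, -⟩ := MP_f68ac8_nt.level_theta L P hl.1 hlP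
  obtain ⟨⟨_, u₀, rfl⟩, h₀⟩ := IsCyclic.exists_generator (α := Θ.range)
  have key : ∀ u, ∃ n : ℤ, f u = f u₀ ^ n ∧ κ u = κ u₀ ^ n := by
    intro u
    obtain ⟨n, hn⟩ := h₀ ⟨_, u, rfl⟩
    have hn' : Θ u₀ ^ n = Θ u := congrArg Subtype.val hn
    obtain ⟨a, ha⟩ := h1 (u * (u₀ ^ n)⁻¹) (by
      rw [map_mul, map_inv, map_zpow, hn', mul_inv_cancel])
    obtain ⟨h2, h3⟩ := hL _ ha
    obtain ⟨j, hj⟩ := f3 (u * (u₀ ^ n)⁻¹)
    have h4 : f ((u * (u₀ ^ n)⁻¹) ^ l ^ a) = 1 := (f1 _).2 h2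
    have h5 : κ ((u * (u₀ ^ n)⁻¹) ^ l ^ a) = κ 1 := congrArg Multiplicative.ofAdd h3
    rw [map_pow] at h4
    rw [map_pow, map_one] at h5
    have h6 := MP_f68ac8_nt.eq_one_of_pow_of_coprime (hc.pow j a) hj h4
    have h7 := MP_f68ac8_nt.eq_one_of_pow_of_coprime (hc.pow_right a) (κ3 _) h5
    rw [map_mul, map_inv, map_zpow, mul_inv_eq_one] at h6 h7
    exact ⟨n, h6, h7⟩
  obtain ⟨a, a1, a2⟩ := key ⟨τ, hτ⟩
  obtain ⟨n, n1, -⟩ := key ⟨g, hg⟩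
  obtain ⟨j, hj⟩ := f3 u₀
  obtain ⟨k, e⟩ := gen_XTamT hj (a := a) (by
    rintro ⟨b, rfl⟩
    rw [zpow_mul, zpow_ofNat, κ3, one_zpow] at a2
    exact hk (congrArg Multiplicative.toAdd a2)) a1 n1
  refine ⟨k, QuotientGroup.eq.1 ?_⟩
  rw [← map_pow] at e
  exact e

end Pool.Agent.MP_e23604_nt.T
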