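import Mathlib
import Pool.Agent.Mg.Fe23604m.G06f121

set_option linter.all false

namespace Pool.Agent.MP_e23604_nt.T

open Finset Filter NumberField
open MP_f68ac8_nt (cyc IsFrob)
open MP_f68ac8_nt.Zv (Ex Prob piV Unf Bx)
open MP_f68ac8_nt.Zk (NS brL lk msk Av)
open MP_f68ac8_nt.Nd (Lr Fr Gz Exm fP kap np OKp)
open Q (Wn Pre rot0)
open scoped BigOperators Topology

theorem wt_XWrdT {d : ℕ} (D : Dt d) (β : ZMod 3) (lv : Fin d → ℕ) (L h n : ℕ) (u : V3 d) :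
    0 ≤ D.wt β lv L h n u ∧ D.wt β lv L h n u ≤ 1 := by
  have h1 : (1 : ℝ) ≤ 3 ^ h := one_le_pow₀ (by norm_num)
  unfold Dt.wt
  split_ifs
  · exact ⟨by positivity, (div_le_one (by positivity)).2 h1⟩
  all_goals norm_num

theorem card_XWrdT (a m c d : ℕ) (ha : a ≤ m + 1) (hc : 1 ≤ c) :
    a * (3 ^ d * (c ^ d * (3 ^ d * 3))) * 2 ≤ (18 * (m + 1) * c) ^ (d + 1) := by
  have h1 : (3 * 3 * c) ^ d ≤ (18 * (m + 1) * c) ^ d :=
    Nat.pow_le_pow_left (Nat.mul_le_mul_right _ (by omega)) d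
  have h2 : 6 * a ≤ 18 * (m + 1) * c := by nlinarith
  calc a * (3 ^ d * (c ^ d * (3 ^ d * 3))) * 2 = (3 * 3 * c) ^ d * (6 * a) := by
        rw [mul_pow, mul_pow]
        ring
    _ ≤ _ := by
        rw [pow_succ]
        exact Nat.mul_le_mul h1 h2

open Classical in
theorem tot_XWrdT {V : Type} [AddCommGroup V] [Fintype V] {d : ℕ} (S : Sy V d) (lv : Fin d → ℕ)
    (h : ℕ) : (∑ x : {p : Lv S.m × V3 d × (Fin d → V) × V3 d × ZMod 3 //
      S.Cand p.2.1 p.2.2.1 ∧ Rich lv S.m p.2.1 p.2.2.2.1},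
      S.dt.wt S.β lv S.m h x.1.1 x.1.2.1 / (3 ^ (d + 1) * 3 ^ ((x.1.1.1 + 1) * d)) *
        if x.1.2.2.1 ∈ S.Sol x.1.1 (x.1.1 + 1) x.1.2.1 then
          cs (S.ph x.1.1 x.1.2.2.1 x.1.2.2.2.1 x.1.2.2.2.2) else 0) = S.Tot lv h := by
  rw [← Finset.sum_subtype (univ.filter fun p : Lv S.m × V3 d × (Fin d → V) × V3 d × ZMod 3 =>
      S.Cand p.2.1 p.2.2.1 ∧ Rich lv S.m p.2.1 p.2.2.2.1) (by simp) fun p =>
      S.dt.wt S.β lv S.m h p.1 p.2.1 / (3 ^ (d + 1) * 3 ^ ((p.1.1 + 1) * d)) *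
        if p.2.2.1 ∈ S.Sol p.1 (p.1 + 1) p.2.1 then
          cs (S.ph p.1 p.2.2.1 p.2.2.2.1 p.2.2.2.2) else 0, sum_filter, Sy.Tot,
    ← sum_coe_sort (Lv S.m)]
  simp only [Fintype.sum_prod_type, Sy.Rs, sum_div, mul_sum]
  refine sum_congr rfl fun n _ => sum_congr rfl fun u _ => sum_congr rfl fun v _ =>
    sum_congr rfl fun z _ => sum_congr rfl fun γ _ => ?_
  by_cases h1 : v ∈ S.Sol n (n + 1) u
  · by_cases h2 : Rich lv S.m u z
    · rw [if_pos ⟨h1.1, h2⟩, if_pos h1, if_pos ⟨h1, h2⟩]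
      ring
    · rw [if_neg fun e => h2 e.2, if_neg fun e => h2 e.2]
      simp
  · simp [h1]

theorem x_WrdT (hTwoT : TwoT) (hPaT : PaT) : WrdT := by
  classical
  intro V _ B hB _ d h η₀ ι bb lv c₀ hm
  obtain ⟨c, hc⟩ : ∃ c : ℕ → V3 d → (Fin d → Fin d → Pd × ZMod 3) → ℝ, ∀ n u r, c n u r =
      if Act B.β c₀ r then (ofP r).wt B.β lv B.m h n u / (3 ^ (d + 1) * 3 ^ ((n + 1) * d))
      else 0 := ⟨_, fun _ _ _ => rfl⟩
  have c1 : ∀ n u r, |c n u r| ≤ 1 := fun n u r => by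
    rw [hc]
    split_ifs
    · obtain ⟨h1, h2⟩ := wt_XWrdT (ofP r) B.β lv B.m h n u
      have h3 : (1 : ℝ) ≤ 3 ^ (d + 1) * 3 ^ ((n + 1) * d) :=
        one_le_mul_of_one_le_of_one_le (one_le_pow₀ (by norm_num)) (one_le_pow₀ (by norm_num))
      rw [abs_of_nonneg (by positivity), div_le_one (by positivity)]
      exact h2.trans h3
    · simp
  choose T hT1 hT2 using fun p : {p : Lv B.m × V3 d × (Fin d → V) × V3 d × ZMod 3 //
      B.Cand p.2.1 p.2.2.1 ∧ Rich lv B.m p.2.1 p.2.2.2.1} =>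
    hTwoT V B hB d p.1.1 η₀ ι bb lv p.1.2.1 p.1.2.2.1 p.1.2.2.2.1 p.1.2.2.2.2 (c p.1.1 p.1.2.1) hm
      p.1.1.2 p.2.1 p.2.2 (c1 _ _)
  refine ⟨_ × Bool, inferInstance, fun i => T i.1 i.2, ?_,
    fun i => ⟨(hT1 i.1 i.2).1, fun r hr => (hT1 i.1 i.2).2 r (by rw [hc, if_neg hr])⟩, ?_⟩
  · rw [Fintype.card_prod, Fintype.card_bool]
    refine (Nat.mul_le_mul_right 2 (Fintype.card_subtype_le _)).trans ?_
    simp only [Fintype.card_prod, Fintype.card_fun, ZMod.card, Fintype.card_fin, Fintype.card_coe]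
    refine card_XWrdT _ _ _ _ ((card_filter_le _ _).trans ?_) Fintype.card_pos
    rw [card_range]
    omega
  intro Λ η N q b y w hW hG hA 𝓡 _ _ s hs
  simp only [Fintype.sum_prod_type]
  rw [Finset.expect_sum_comm, Complex.re_sum,
    sum_congr rfl fun p _ => hT2 p Λ η N q b y w hW hG 𝓡 s hs]
  simp only [hc, if_pos hA, (hPaT Λ d B.e q b B.β c₀).1]
  exact tot_XWrdT ⟨B, η, fun j => q j⟩ lv h

end Pool.Agent.MP_e23604_nt.T
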