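import Mathlib
import Pool.Agent.Mg.Fe23604m.G06f121

set_option linter.all false

section

namespace Pool.Agent.MP_e23604_nt.T

open Finset Filter NumberField
open MP_f68ac8_nt (cyc IsFrob)
open MP_f68ac8_nt.Zv (Ex Prob piV Unf Bx)
open MP_f68ac8_nt.Zk (NS brL lk msk Av)
open MP_f68ac8_nt.Nd (Lr Fr Gz Exm fP kap np OKp)
open Q (Wn Pre rot0)
open scoped BigOperators Topology

theorem gk_XDicB (g : GQ) : g ∈ S.GK ↔ g ∈ Gz 3 := by
  constructor
  · intro h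
    change cyc (Ω := Qb) 3 g = 1
    exact MP_f68ac8_nt.cyc_of_xi (p := 3) (h _ (MP_f68ac8_nt.xi_spec (p := 3)).pow_eq_one)
  · intro h z hz
    have h1 : cyc (Ω := Qb) 3 g = 1 := h
    rw [MP_f68ac8_nt.cyc_spec 3 g hz, h1, Units.val_one, ZMod.val_one, pow_one]

theorem unit_XDicB : ∀ u : (ZMod 3)ˣ, u ≠ 1 → (u : ZMod 3) = -1 := by decide

theorem x_DicB : DicB := by
  refine ⟨fun g => ⟨gk_XDicB g, ?_⟩, ?_⟩
  · by_cases h : g ∈ S.GK
    · have h1 : cyc (Ω := Qb) 3 g = 1 := (gk_XDicB g).1 h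
      rw [S.ep_pos h, sg, h1, Units.val_one]
    · have h1 : cyc (Ω := Qb) 3 g ≠ 1 := fun e => h ((gk_XDicB g).2 e)
      rw [S.ep_neg h, sg, unit_XDicB _ h1]
  · have hx := MP_f68ac8_nt.xi_spec (p := 3) (Ω := Qb)
    have hl := S.pow_lg hx.pow_eq_one
    refine ⟨S.lg (MP_f68ac8_nt.zeta Qb (3 ^ 2) ^ 3), fun h => ?_, fun l hl0 g hg => ?_⟩
    · rw [h, ZMod.val_zero, pow_zero] at hl
      exact hx.ne_one (by norm_num) hl.symm
    · have hp := MP_f68ac8_nt.Ev.proot_pow 3 (l : Qb)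
      have hc : S.cbr l ^ 3 = (l : Qb) := by rw [S.cbr_cube]; simp
      have hl1 : (l : Qb) ≠ 0 := Nat.cast_ne_zero.2 hl0
      have hp0 : MP_f68ac8_nt.Ev.proot 3 (l : Qb) ≠ 0 := fun e => by
        rw [e] at hp
        exact hl1 (by rw [← hp]; norm_num)
      have hc0 : S.cbr l ≠ 0 := fun e => by
        rw [e] at hc
        exact hl1 (by rw [← hc]; norm_num)
      have hq : (S.cbr l / MP_f68ac8_nt.Ev.proot 3 (l : Qb)) ^ 3 = 1 := by
        rw [div_pow, hc, hp, div_self hl1]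
      have hfix := (gk_XDicB g).2 hg _ hq
      have hk := MP_f68ac8_nt.kap_spec (p := 3) hp0 (g := g) (by rw [hp, map_natCast])
      have e : g (S.cbr l) / S.cbr l =
          (MP_f68ac8_nt.zeta Qb (3 ^ 2) ^ 3) ^ (kk l g).val := by
        have e1 : S.cbr l = S.cbr l / MP_f68ac8_nt.Ev.proot 3 (l : Qb) *
            MP_f68ac8_nt.Ev.proot 3 (l : Qb) := (div_mul_cancel₀ _ hp0).symm
        have e2 : g (S.cbr l) = S.cbr l / MP_f68ac8_nt.Ev.proot 3 (l : Qb) *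
            g (MP_f68ac8_nt.Ev.proot 3 (l : Qb)) := by
          conv_lhs => rw [e1, map_mul, hfix]
        rw [e2, hk]
        change _ = _ ^ (MP_f68ac8_nt.kap 3 (MP_f68ac8_nt.Ev.proot 3 (l : Qb)) g).val
        field_simp
      rw [S.kum, e, mul_comm, ← S.lg_pow (kk l g * _), MP_f68ac8_nt.ex_mul S.w3_prim, hl]

end Pool.Agent.MP_e23604_nt.T

end

section

namespace Pool.Agent.MP_e23604_nt.T

open Finset Filter NumberField
open MP_f68ac8_nt (cyc IsFrob)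
open MP_f68ac8_nt.Zv (Ex Prob piV Unf Bx)
open MP_f68ac8_nt.Zk (NS brL lk msk Av)
open MP_f68ac8_nt.Nd (Lr Fr Gz Exm fP kap np OKp)
open Q (Wn Pre rot0)
open scoped BigOperators Topology

theorem x_TopT (hBasT : BasT) (hDecT : DecT) (hActB : ActB) (hMuT : MuT) : TopT := by
  rintro V _ _ d S hS n k u v hn hk ⟨hc, x, hx, he⟩
  obtain ⟨p, hp⟩ : ∃ p, S.m = p + 1 := ⟨S.m - 1, by omega⟩
  have ho : ¬ Even p := fun h => Nat.even_add_one.1 (hp ▸ hS.ev) h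
  obtain ⟨b1, -, b3, -, -, b6, b7, -, b9, b10, -⟩ := hBasT V S.J S.T hS.cm.toCm0
  have hA := hActB V S.J S.T hS.cm.toCm0 S.η S.R S.e S.β S.σ S.τ hS.gm hS.tl fun l hl => by
    obtain ⟨j, -, rfl⟩ := mem_image.1 hl
    exact hS.pri j
  have hv : ∀ g, x g ∈ Wn S.J (p + 1) := fun g => hp ▸ hx.val g
  have hw : ∀ j, v j ∈ Wn S.J (p + 2) ∧ dig S.J S.T (p + 1) (v j) = u j := fun j => by
    have := hc j
    rwa [hp] at this
  have key : ∀ y z, y - z ∈ Wn S.J n → dig S.J S.T p y = dig S.J S.T p z := fun y z h => by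
    rw [← b9 p z (y - z) (b1 n p (by omega) h), add_sub_cancel]
  have zero : ∀ i y, i ≤ p → y ∈ Wn S.J i → dig S.J S.T p y = 0 := fun i y hi h =>
    (b6 p y (b1 i _ (by omega) h)).2 (b1 i p hi h)
  obtain ⟨γ, h1, -⟩ := hMuT d S.σ S.τ S.e S.β S.l hS.tl hS.inj hS.pri
    (fun g => dig S.J S.T p (x g)) u (hx.lc.comp (dig S.J S.T p)) (fun g h => by
      rw [key _ _ (hx.co g h), (b7 p _ (hv g) _ (((hA g).1.1 _ _).2 (hv h))).1,
        (hA g).2.1 p _ (hv h), if_neg ho])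
    (fun P hP g hg => zero n _ (by omega) (hx.unr P hP g hg)) fun j => by
      rw [key _ _ (hx.tam j), ← neg_sub, ← (b10 p _).2, ← zero_sub,
        (b7 p 0 (zero_mem _) _ ((b3 _ _).2 (hw j).1)).2, zero p 0 le_rfl (zero_mem _),
        (b10 p _).1, (hw j).2, zero_sub]
  refine ⟨γ, fun j hj => ?_⟩
  have h2 : S.l j % 3 = 1 := of_decide_eq_true hj
  obtain ⟨P, hP, hl, hf, -⟩ := (hS.tl _ (hS.pri j)).ex
  obtain ⟨h3, h4⟩ := (hA _).2.2 (((((hDecT.2.2.2 P hP).2.2.2.2 _ (hS.pri j).1 hl).2.2 _ hf).2.1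
    (hS.pri j).2).2 h2)
  have h5 := zero k _ (by omega) (he (some j))
  rw [Sy.Ev, add_sub_assoc, (b7 p _ (hv _) _ (h3 _ _ (hw j).1)).1, h4 p _ (hw j).1, (hw j).2] at h5
  exact neg_eq_zero.1 ((h1 j h2).symm.trans h5)

end Pool.Agent.MP_e23604_nt.T

end
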