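import Mathlib
import Pool.Agent.Mg.Fe23604m.G06f121

set_option linter.all false

section

namespace Pool.Agent.MP_e23604_nt.T

open Finset Filter NumberField
open MP_f68ac8_nt (cyc IsFrob)
open MP_f68ac8_nt.Zv (Ex Prob piV Unf Bx)
open MP_f68ac8_nt.Zk (NS brL lk msk Av)
open MP_f68ac8_nt.Nd (Lr Fr Gz Exm fP kap np OKp)
open Q (Wn Pre rot0)
open scoped BigOperators Topology

theorem pi_XCntA {V : Type} [AddCommGroup V] {d : ℕ} (W : Fin d → Submodule ℤ V) :
    {w : Fin d → V | ∀ j, w j ∈ W j}.ncard = ∏ j, Nat.card (W j) := by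
  rw [← Nat.card_coe_set_eq, ← Nat.card_pi]
  exact Nat.card_congr (Equiv.subtypePiEquivPi (p := fun j (x : V) => x ∈ W j))

theorem x_CntA (hLevS : LevS) : CntA := by
  intro V _ _ d S hS
  have hc := ((hLevS V S.J S.T hS.cm.toCm0).1 _ hS.cm).2
  refine ⟨?_, fun n hn => ?_, fun k hk => ?_⟩
  · have := Finset.card_filter_add_card_filter_not (s := (univ : Finset (Fin d)))
      (fun j => S.dt.sp j = true)
    simpa [n1, n2] using this
  · have h := pi_XCntA fun j => Wn S.J (if S.l j % 3 = 1 then n + 2 else n + 1)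
    refine Eq.trans h ?_
    have h2 : ∀ j, Nat.card (Wn S.J (if S.l j % 3 = 1 then n + 2 else n + 1)) =
        if S.dt.sp j = true then 3 ^ (n + 2) else 3 ^ (n + 1) := by
      intro j
      have e : S.dt.sp j = true ↔ S.l j % 3 = 1 := by simp [Sy.dt, dtl]
      by_cases hj : S.l j % 3 = 1
      · rw [if_pos hj, if_pos (e.2 hj)]
        exact hc _ (by omega)
      · rw [if_neg hj, if_neg fun h => hj (e.1 h)]
        exact hc _ (by omega)
    rw [prod_congr rfl fun j _ => h2 j, prod_ite, prod_const, prod_const, pow_add (3 : ℕ) (_ * _),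
      pow_mul, pow_mul]
    simp [n1, n2]
  · refine Eq.trans (pi_XCntA fun _ => Wn S.J k) ?_
    rw [prod_const, hc k hk, pow_mul]
    simp

end Pool.Agent.MP_e23604_nt.T

end

section

namespace Pool.Agent.MP_e23604_nt.T

open Finset Filter NumberField
open MP_f68ac8_nt (cyc IsFrob)
open MP_f68ac8_nt.Zv (Ex Prob piV Unf Bx)
open MP_f68ac8_nt.Zk (NS brL lk msk Av)
open MP_f68ac8_nt.Nd (Lr Fr Gz Exm fP kap np OKp)
open Q (Wn Pre rot0)
open scoped BigOperators Topology

theorem cs_XStpT (a : ZMod 3) : cs a ≤ 1 :=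
  (Complex.re_le_norm _).trans (AddChar.norm_apply _ _).le

open Classical in
theorem card_XStpT {α : Type} [Fintype α] (A : Set α) (c : ℝ) :
    (∑ v, if v ∈ A then c else 0) = A.ncard * c := by
  rw [← sum_filter, sum_const, nsmul_eq_mul, Set.ncard_eq_toFinset_card' A,
    Set.filter_mem_univ_eq_toFinset]

open Classical in
theorem sum_XStpT {α ι κ : Type} [Fintype α] [Fintype ι] [Fintype κ] (A : Set α) (R : ι → Prop)
    (K : ι → κ → Prop) (f : α → ι → κ → ℝ) (hf : ∀ v z g, f v z g ≤ 1)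
    (hK : ∀ z g, ¬ K z g → (∑ v, if v ∈ A then f v z g else 0) = 0) :
    (∑ v, ∑ z, ∑ g, if v ∈ A then f v z g else 0) ≤
      ({p : ι × κ | K p.1 p.2 ∧ ¬ R p.1}.ncard : ℝ) * A.ncard +
        ∑ v, ∑ z, ∑ g, if v ∈ A ∧ R z then f v z g else 0 := by
  have sw : ∀ F : α → ι → κ → ℝ, ∑ v, ∑ z, ∑ g, F v z g = ∑ p : ι × κ, ∑ v, F v p.1 p.2 := by
    intro F
    rw [sum_comm (s := univ) (t := univ) (f := fun (p : ι × κ) v => F v p.1 p.2)]
    exact sum_congr rfl fun v _ => (Fintype.sum_prod_type fun p : ι × κ => F v p.1 p.2).symm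
  rw [sw, sw, ← card_XStpT, ← sum_add_distrib]
  refine sum_le_sum fun p _ => ?_
  by_cases hR : R p.1
  · simp [hR]
  by_cases h : K p.1 p.2
  · rw [if_pos ⟨h, hR⟩]
    simp only [hR, and_false, if_false, sum_const_zero, add_zero]
    rw [← mul_one (A.ncard : ℝ), ← card_XStpT]
    refine sum_le_sum fun v _ => ?_
    split_ifs
    · exact hf _ _ _
    · exact le_rfl
  · rw [hK _ _ h]
    simp [hR, h]

theorem x_StpT (hFouT : FouT) (hVanT : VanT) : StpT := by
  intro V _ _ d S hS lv n u hn hm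
  have h1 := hFouT V d S hS n u
  have h2 := sum_XStpT (S.Sol n (n + 1) u) (Rich lv S.m u) (S.dt.KK S.β)
    (fun v z γ => cs (S.ph n v z γ)) (fun _ _ _ => cs_XStpT _)
    fun z γ h => hVanT V d S hS n u z γ hn hm h
  rw [← h1] at h2
  have e : S.Nn n u = ((S.Sol n n u).ncard : ℝ) * 3 ^ (d + 1) /
      (3 ^ (d + 1) * 3 ^ ((n + 1) * d)) := by
    rw [Sy.Nn]
    field_simp
  rw [e, Sy.Rs, ← add_div]
  refine div_le_div_of_nonneg_right ?_ (by positivity)
  exact h2

end Pool.Agent.MP_e23604_nt.T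

end
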