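import Mathlib
import Pool.Agent.Mg.Fe23604m.G06f121

set_option linter.all false

namespace Pool.Agent.MP_e23604_nt.T

open Finset Filter NumberField
open MP_f68ac8_nt (cyc IsFrob)
open MP_f68ac8_nt.Zv (Ex Prob piV Unf Bx)
open MP_f68ac8_nt.Zk (NS brL lk msk Av)
open MP_f68ac8_nt.Nd (Lr Fr Gz Exm fP kap np OKp)
open Q (Wn Pre rot0)
open scoped BigOperators Topology

theorem mul_XActT {A : Type} [AddCommGroup A] (η : GQ →* (A ≃ₗ[ℤ] A)) (g h : GQ) (u : A) :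
    η (g * h) u = η g (η h u) := by
  rw [map_mul]
  rfl

/-- orbit maps are locally constant -/
theorem lc_XActT {A : Type} [AddCommGroup A] (η : GQ →* (A ≃ₗ[ℤ] A)) (u : A)
    (h : {g | η g u = u} ∈ 𝓝 (1 : GQ)) : IsLocallyConstant fun g => η g u := by
  refine (IsLocallyConstant.iff_eventually_eq _).2 fun g₀ => ?_
  have hc : Continuous fun g : GQ => g₀⁻¹ * g := continuous_const.mul continuous_id
  have ht : Tendsto (fun g : GQ => g₀⁻¹ * g) (𝓝 g₀) (𝓝 1) := by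
    have := hc.tendsto g₀
    rwa [inv_mul_cancel] at this
  filter_upwards [ht h] with g hg
  have hg' : η (g₀⁻¹ * g) u = u := hg
  calc η g u = η (g₀ * (g₀⁻¹ * g)) u := by rw [mul_inv_cancel_left]
    _ = η g₀ u := by rw [mul_XActT, hg']

theorem x_ActT (hBasT : BasT) (hDecT : DecT) (hActB : ActB) : ActT := by
  intro A _ V _ d J T η S ι x p b hC hE hm hTl hP hG hφ hη hσ hL ho
  obtain ⟨hmA, -⟩ := hBasT A J T hC
  obtain ⟨-, -, -, -, -, hd0, hd1, -⟩ := hBasT V S.J S.T hE.cm.toCm0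
  have hR : ∀ j, S.l j ∈ S.R := fun j => mem_image_of_mem _ (mem_univ j)
  have hRP : ∀ l ∈ S.R, P0 l := fun l hl => by
    obtain ⟨j, -, rfl⟩ := mem_image.1 hl
    exact hP j
  have hpr := fun g => (hActB A J T hC η S.R S.e S.β S.σ S.τ hG hTl hRP g).1
  obtain ⟨hlc, hco, -, hun, hx0⟩ := id hL.st
  have hoW : ι S.o ∈ Wn J (S.m + 2) := (hE.lev _ _).2 (hE.cm.top _)
  obtain ⟨z, hzd⟩ : ∃ z : GQ → A, ∀ g, z g = x g - η g (ι S.o) + ι S.o := ⟨_, fun _ => rfl⟩
  have hz : ∀ g, z g ∈ Wn J S.m := fun g => by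
    have e : z g = (x g + η g b - b) - (η g (ι S.o + b) - (ι S.o + b)) := by
      rw [hzd, map_add]; abel
    rw [e]
    exact sub_mem (hL.lev g) ((hpr g).2 S.m hm _ ho)
  have hz3 : ∀ g ∈ DP P3, z g = ι (S.o - S.η g S.o) := fun g hg => by
    rw [hzd, hx0 g hg, map_sub, hη]; abel
  have hp : ∀ j, p (S.l j) + ι S.o ∈ Wn J (S.m + 1) := fun j => by
    have e : p (S.l j) + ι S.o = (p (S.l j) - b) + (ι S.o + b) := by abel
    rw [e]
    exact add_mem (hL.fix _ (hR j)).2 ho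
  have hπ : ∀ u ∈ Wn J (S.m + 2), ι (Function.invFun ι u) = u := fun u hu =>
    Function.invFun_eq (hE.rng u hu)
  obtain ⟨y, hyd⟩ : ∃ y : GQ → V, y = fun g => Function.invFun ι (z g) := ⟨_, rfl⟩
  have hy : ∀ g, ι (y g) = z g := fun g => by
    rw [hyd]; exact hπ _ (hmA _ _ (by omega) (hz g))
  obtain ⟨v, hv⟩ : ∃ v : Fin d → V, ∀ j, ι (v j) = p (S.l j) + ι S.o :=
    ⟨fun j => Function.invFun ι (p (S.l j) + ι S.o), fun j => hπ _ (hmA _ _ (by omega) (hp j))⟩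
  have hvW : ∀ j, v j ∈ Wn S.J (S.m + 1) := fun j => (hE.lev _ _).1 (by rw [hv]; exact hp j)
  have h0 : ∀ (k : ℕ) (w : V), ι w = 0 → w ∈ Wn S.J k := fun k w hw =>
    (hE.lev _ _).1 (by rw [hw]; exact zero_mem _)
  refine ⟨fun g hg => (hE.lev _ _).1 (by rw [← hz3 g hg]; exact hz g),
    fun j => dig S.J S.T S.m (v j), v, ?_, fun j => ⟨hvW j, rfl⟩, y,
    ⟨?_, fun g h => h0 _ _ ?_, fun g => (hE.lev _ _).1 (by rw [hy]; exact hz g),
      fun P hP' g hg => h0 _ _ ?_, fun g hg => h0 _ _ ?_, fun j => h0 _ _ ?_⟩, fun i => ?_⟩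
  · obtain ⟨l, hl, l', hl', hne⟩ := hL.nc
    obtain ⟨i, -, rfl⟩ := mem_image.1 hl
    obtain ⟨j, -, rfl⟩ := mem_image.1 hl'
    refine ⟨i, j, fun h => hne ?_⟩
    have h' : dig S.J S.T S.m (v i) = dig S.J S.T S.m (v j) := h
    have h1 := (hd1 S.m _ (hvW i) _ (hvW j)).2
    rw [h', sub_self] at h1
    have h2 := (hE.lev _ _).2 ((hd0 S.m _ (sub_mem (hvW i) (hvW j))).1 h1)
    rwa [map_sub, hv, hv, add_sub_add_right_eq_sub] at h2
  · have e : y = (fun a : A × A => Function.invFun ι (a.1 - a.2 + ι S.o)) ∘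
        fun g => (x g, η g (ι S.o)) := by
      funext g
      rw [hyd]
      simp only [Function.comp, hzd]
    rw [e]
    exact (hlc.prodMk (lc_XActT η _ (hG.opn _))).comp _
  · rw [map_sub, map_add, hη, hy, hy, hy, hzd, hzd, hzd, hco, mul_XActT, map_add, map_sub]
    abel
  · rw [hy, hzd, hun P hP' g hg, hG.unr P hP' g hg _ _ hoW]
    abel
  · rw [map_sub, hy, hz3 g ((hDecT.2.2.2 P3 hDecT.1).1 g hg), sub_self]
  · have h1 := (hL.fix _ (hR j)).1
    rw [map_sub, map_sub, hE.com, hy, hv, hzd, hG.tam _ (hR j) _ _ hoW, map_add,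
      eq_sub_of_add_eq h1]
    abel
  · cases i with
    | none =>
      refine h0 _ _ ?_
      change ι (y S.φ - (S.o - S.η S.φ S.o)) = 0
      rw [map_sub, hy, hz3 _ hφ, sub_self]
    | some j =>
      refine (hE.lev _ _).1 ?_
      change ι (y (S.σ (S.l j)) + S.η (S.σ (S.l j)) (v j) - v j) ∈ _
      have e : ι (y (S.σ (S.l j)) + S.η (S.σ (S.l j)) (v j) - v j) =
          x (S.σ (S.l j)) + η (S.σ (S.l j)) (p (S.l j)) - p (S.l j) := by
        rw [map_sub, map_add, hη, hy, hv, hzd, map_add]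
        abel
      rw [e]
      exact hσ j

end Pool.Agent.MP_e23604_nt.T
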