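import Mathlib
import Pool.Agent.Mg.Fe23604m.G06f121

set_option linter.all false

section

namespace Pool.Agent.MP_e23604_nt.T

open Finset Filter NumberField
open MP_f68ac8_nt (cyc IsFrob)
open MP_f68ac8_nt.Zv (Ex Prob piV Unf Bx)
open MP_f68ac8_nt.Zk (NS brL lk msk Av)
open MP_f68ac8_nt.Nd (Lr Fr Gz Exm fP kap np OKp)
open Q (Wn Pre rot0)
open scoped BigOperators Topology

theorem x_MidT (hBasT : BasT) (hDecT : DecT) (hActB : ActB) (hUniT : UniT) (hMuT : MuT) :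
    MidT := by
  intro V _ _ d S hS n u v v' hn hv hv' hδ
  obtain ⟨-, x, hx, hE⟩ := hv
  obtain ⟨-, x', hx', hE'⟩ := hv'
  obtain ⟨mono, -, hom, -, -, hz, hadd, -, hsh, hod, -⟩ := hBasT V S.J S.T hS.cm.toCm0
  have hR : ∀ l ∈ S.R, P0 l := by
    intro l hl
    obtain ⟨j, -, rfl⟩ := Finset.mem_image.1 hl
    exact hS.pri j
  have hA := hActB V S.J S.T hS.cm.toCm0 S.η S.R S.e S.β S.σ S.τ hS.gm hS.tl hR
  have hU := hUniT V S.J S.T hS.cm.toCm0 S.η S.R S.e S.β S.σ S.τ hS.gm hS.tl hR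
  set y : GQ → V := fun g => x g - x' g with hy
  have lc : IsLocallyConstant y := hx.lc.sub hx'.lc
  have co : ∀ g h, y (g * h) - (y g + S.η g (y h)) ∈ Wn S.J n := by
    intro g h
    have e : y (g * h) - (y g + S.η g (y h)) =
        (x (g * h) - (x g + S.η g (x h))) - (x' (g * h) - (x' g + S.η g (x' h))) := by
      simp only [hy, map_sub]
      abel
    rw [e]
    exact sub_mem (hx.co g h) (hx'.co g h)
  have unr : ∀ P, Out S.R P → ∀ g ∈ P.inertia GQ, y g ∈ Wn S.J n := fun P hP g hg =>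
    sub_mem (hx.unr P hP g hg) (hx'.unr P hP g hg)
  have thr : ∀ g ∈ P3.inertia GQ, y g ∈ Wn S.J n := by
    intro g hg
    have e : y g = (x g - (S.o - S.η g S.o)) - (x' g - (S.o - S.η g S.o)) := by
      simp only [hy]
      abel
    rw [e]
    exact sub_mem (hx.thr g hg) (hx'.thr g hg)
  have hom2 : ∀ j, Q.om S.J (v j - v' j) ∈ Wn S.J (n + 2) := fun j => (hom _ _).2 (hδ j)
  have tam : ∀ j, ∃ w ∈ Wn S.J n, y (S.τ (S.l j)) = (0 - Q.om S.J (v j - v' j)) + w := by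
    intro j
    refine ⟨_, sub_mem (hx.tam j) (hx'.tam j), ?_⟩
    rw [(hod 0 (v j - v' j)).2]
    simp only [hy, map_sub]
    abel
  have m2 : Wn S.J n ≤ Wn S.J (n + 2) := mono _ _ (by omega)
  have m1 : Wn S.J n ≤ Wn S.J (n + 1) := mono _ _ (by omega)
  have m12 : Wn S.J (n + 1) ≤ Wn S.J (n + 2) := mono _ _ (by omega)
  have hy2 : ∀ g, y g ∈ Wn S.J (n + 2) := by
    refine hU y S.m (n + 2) lc (fun g => sub_mem (hx.val g) (hx'.val g))
      (fun g h => m2 (co g h)) (fun P hP g hg => m2 (unr P hP g hg))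
      (fun g hg => m2 (thr g hg)) ?_
    intro l hl
    obtain ⟨j, -, rfl⟩ := Finset.mem_image.1 hl
    obtain ⟨w, hw, e⟩ := tam j
    rw [e]
    exact add_mem (sub_mem (zero_mem _) (hom2 j)) (m2 hw)
  have hz' : ∀ w ∈ Wn S.J (n + 1), dig S.J S.T (n + 1) w = 0 := fun w hw =>
    (hz (n + 1) w (m12 hw)).2 hw
  have hodd : ¬ Even (n + 1) := by
    rw [Nat.even_add_one]
    exact fun h => h hn
  obtain ⟨γ, h1, h2, -⟩ := hMuT d S.σ S.τ S.e S.β S.l hS.tl hS.inj hS.pri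
    (fun g => dig S.J S.T (n + 1) (y g)) (fun j => dig S.J S.T (n + 2) (v j - v' j))
    (lc.comp (dig S.J S.T (n + 1)))
    (by
      intro g h
      have e : y (g * h) = (y g + S.η g (y h)) + (y (g * h) - (y g + S.η g (y h))) := by abel
      have hm : S.η g (y h) ∈ Wn S.J (n + 2) := ((hA g).1.1 _ _).2 (hy2 h)
      rw [e, hsh _ _ _ (m1 (co g h)), (hadd (n + 1) _ (hy2 g) _ hm).1, (hA g).2.1 _ _ (hy2 h),
        if_neg hodd])
    (fun P hP g hg => hz' _ (m1 (unr P hP g hg)))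
    (by
      intro j
      obtain ⟨w, hw, e⟩ := tam j
      rw [e, hsh _ _ _ (m1 hw), (hadd (n + 1) _ (zero_mem _) _ (hom2 j)).2, hz' _ (zero_mem _),
        (hod _ _).1, zero_sub])
  obtain ⟨rfl, hL⟩ := h2 fun g hg _ => hz' _ (m1 (thr g hg))
  refine ⟨fun j hj => ?_, hL⟩
  have hj' : S.l j % 3 = 1 := by simpa [Sy.dt, dtl] using hj
  have h3 := h1 j hj'
  obtain ⟨P, hP, hlP, hF, -⟩ := (hS.tl _ (hS.pri j)).ex
  have hG : S.σ (S.l j) ∈ Gz 3 :=
    ((((hDecT.2.2.2 P hP).2.2.2.2 _ (hS.pri j).1 hlP).2.2 _ hF).2.1 (hS.pri j).2).2 hj'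
  obtain ⟨a1, a2⟩ := (hA (S.σ (S.l j))).2.2 hG
  have e : S.Ev x v (some j) - S.Ev x' v' (some j) =
      y (S.σ (S.l j)) + (S.η (S.σ (S.l j)) (v j - v' j) - (v j - v' j)) := by
    simp only [Sy.Ev, hy, map_sub]
    abel
  have h4 := hz' _ (sub_mem (hE (some j)) (hE' (some j)))
  rw [e, (hadd (n + 1) _ (hy2 _) _ (a1 (n + 2) _ (hδ j))).1, a2 (n + 1) _ (hδ j)] at h4
  have h5 : -(S.dt.Kf S.β (fun j => dig S.J S.T (n + 2) (v j - v' j)) 0 j) = 0 :=
    h3.symm.trans h4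
  exact neg_eq_zero.1 h5

end Pool.Agent.MP_e23604_nt.T

end

section

namespace Pool.Agent.MP_e23604_nt.T

open Finset Filter NumberField
open MP_f68ac8_nt (cyc IsFrob)
open MP_f68ac8_nt.Zv (Ex Prob piV Unf Bx)
open MP_f68ac8_nt.Zk (NS brL lk msk Av)
open MP_f68ac8_nt.Nd (Lr Fr Gz Exm fP kap np OKp)
open Q (Wn Pre rot0)
open scoped BigOperators Topology

theorem one_XVtT {P : Type} [Monoid P] : ∀ {d : ℕ} (f : Fin d → P) (j : Fin d),
    (∀ k, k ≠ j → f k = 1) → (List.ofFn f).prod = f j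
  | 0, _, j, _ => j.elim0
  | d + 1, f, j, h => by
    rw [List.ofFn_succ, List.prod_cons]
    rcases Fin.eq_zero_or_eq_succ j with rfl | ⟨i, rfl⟩
    · rw [List.prod_eq_one, mul_one]
      intro a ha
      obtain ⟨k, rfl⟩ := List.mem_ofFn.1 ha
      exact h _ (Fin.succ_ne_zero k)
    · rw [h 0 (Fin.succ_ne_zero i).symm, one_mul]
      exact one_XVtT (fun k => f k.succ) i fun k hk => h _ fun e => hk (Fin.succ_injective _ e)

theorem x_VtT : VtT := by
  intro d P Λ B _ q x x0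
  refine ⟨fun _ => rfl, fun l h => ?_, fun j h => ?_, fun q' h => ?_, fun H h l => ?_⟩
  · simp only [vT, Sum.elim_inl]
    refine List.prod_eq_one fun a ha => ?_
    obtain ⟨j, -, rfl⟩ := List.mem_map.1 ha
    split_ifs with e
    · exact h j e
    · rfl
  · simp only [vT, Sum.elim_inl]
    rw [← List.ofFn_eq_map, one_XVtT _ j, if_pos rfl]
    intro k hk
    split_ifs with e
    · exact h k hk e
    · rfl
  · funext c
    rcases c with l | b
    · simp only [vT, Sum.elim_inl]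
      congr 2
      funext j
      by_cases e : x j = 1
      · rw [e, ite_self, ite_self]
      · rw [h j e]
    · rfl
  · simp only [vT, Sum.elim_inl]
    refine H.list_prod_mem fun a ha => ?_
    obtain ⟨j, -, rfl⟩ := List.mem_map.1 ha
    split_ifs
    · exact h j
    · exact H.one_mem

end Pool.Agent.MP_e23604_nt.T

end

section

namespace Pool.Agent.MP_e23604_nt.T

open Finset Filter NumberField
open MP_f68ac8_nt (cyc IsFrob)
open MP_f68ac8_nt.Zv (Ex Prob piV Unf Bx)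
open MP_f68ac8_nt.Zk (NS brL lk msk Av)
open MP_f68ac8_nt.Nd (Lr Fr Gz Exm fP kap np OKp)
open Q (Wn Pre rot0)
open scoped BigOperators Topology

theorem x_WmT : WmT := by
  intro Q c n r D η hQ
  refine ⟨(hQ.nn (⟨1, by omega⟩, true) 0).trans (hQ.wle _ _ one_ne_zero), fun d μ =>
    ⟨⟨fun j u => div_nonneg (hQ.nn _ _) (hQ.pos _).le, fun j => ?_⟩, fun j u h => ?_,
      fun j u h => (div_ne_zero_iff.1 h).1⟩⟩
  · simp only [Par.wm]
    rw [← sum_div, sum_coe_sort Q.Λ fun l => Q.W (μ j) l]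
    exact div_self (hQ.pos _).ne'
  · have h1 : Q.wm μ j u ≤ Q.W (μ j) u := div_le_self (hQ.nn _ _) (hQ.one _ h)
    exact ⟨h1, h1.trans (hQ.wle _ _ h)⟩

end Pool.Agent.MP_e23604_nt.T

end
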