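import Mathlib
import Pool.Agent.Mg.Fe23604m.G06f121

set_option linter.all false

section

namespace Pool.Agent.MP_e23604_nt.T

open Finset Filter NumberField
open MP_f68ac8_nt (cyc IsFrob)
open MP_f68ac8_nt.Zv (Ex Prob piV Unf Bx)
open MP_f68ac8_nt.Zk (NS brL lk msk Av)
open MP_f68ac8_nt.Nd (Lr Fr Gz Exm fP kap np OKp)
open Q (Wn Pre rot0)
open scoped BigOperators Topology

theorem x_OscT (hOscA : OscA) (hOscB : OscB) (hOscC : OscC) (hWmT : WmT)
    (hTwN : MP_f68ac8_nt.Nd.TwN) : OscT := by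
  intro Q c n r D η y d μ e hc hQ hd he he'
  obtain ⟨h0, hw⟩ := hWmT Q c n r D η hQ
  obtain ⟨w1, -, w3⟩ := hw d μ
  have hk := (hTwN c hc Q.Λ (fun l hl => (hQ.pri l hl).1) d (Q.wm μ) y).1.1
  refine ⟨by positivity, fun q => mul_nonneg (prod_nonneg fun j _ => w1.1 j _) ?_,
    fun q hq => funext fun j => ?_, fun φ c' a h => ?_⟩
  · split_ifs
    exacts [hk q, le_rfl]
  · have h1 := hQ.cls (μ j) _ (q j).2
      (w3 j _ (prod_ne_zero_iff.1 (left_ne_zero_of_mul hq) j (mem_univ j)))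
    change decide (_ % 3 = 1) = (μ j).2
    rw [Bool.eq_iff_iff, decide_eq_true_iff]
    exact h1
  by_cases hA : ∃ i j, i ≠ j ∧ (μ i).1.val ≠ 0 ∧ (μ j).1.val ≠ 0 ∧ (μ j).2 = true ∧ φ i j ≠ 0
  · obtain ⟨i, j, a1, a2, a3, a4, a5⟩ := hA
    refine (hOscA Q c n r D η y d μ e hc hQ hd he he' φ c' a i j a1 a2 a3 a4 a5).trans ?_
    exact le_mul_of_one_le_left h0 (le_add_of_nonneg_left (Nat.cast_nonneg d))
  rcases h with h | ⟨i, a1, a2, a3⟩ | ⟨t, a1, a2, a3, a4, a5⟩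
  · exact absurd h hA
  · refine hOscB Q c n r D η y d μ e hc hQ hd he he' φ c' a i a1 a2 (fun j b1 b2 => ?_) a3
    by_contra b3
    refine hA ⟨i, j, fun k => ?_, Nat.ne_of_gt (lt_of_lt_of_le two_pos a1), b1, b2, b3⟩
    subst k
    exact Bool.false_ne_true (a2.symm.trans b2)
  · refine hOscC Q c n r D η y d μ e hc hQ hd he he' φ c' a t a1 a2 a3 a4 (fun i b1 b2 => ?_) a5
    by_contra b3
    exact hA ⟨i, t, b1, b2, Nat.ne_of_gt (lt_of_lt_of_le two_pos a1), a2, b3⟩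

end Pool.Agent.MP_e23604_nt.T

end

section

namespace Pool.Agent.MP_e23604_nt.T

open Finset Filter NumberField
open MP_f68ac8_nt (cyc IsFrob)
open MP_f68ac8_nt.Zv (Ex Prob piV Unf Bx)
open MP_f68ac8_nt.Zk (NS brL lk msk Av)
open MP_f68ac8_nt.Nd (Lr Fr Gz Exm fP kap np OKp)
open Q (Wn Pre rot0)
open scoped BigOperators Topology

theorem x_SelT : SelT := by
  intro d L k lv u z hR h2 hk
  obtain ⟨a, b, t, ⟨hL, i, hi, j, hj, hij⟩, hat, hzt⟩ := hR
  have hne : i ≠ j := fun h => hij (by rw [h])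
  have hj' : j ∈ (Bz lv z a b).erase i := mem_erase.2 ⟨hne.symm, hj⟩
  have hc : k - 2 ≤ (((Bz lv z a b).erase i).erase j).card := by
    rw [card_erase_of_mem hj', card_erase_of_mem hi]
    omega
  obtain ⟨S, hS, hSc⟩ := Finset.exists_subset_card_eq hc
  have hB : ∀ x ∈ Bz lv z a b, (2 ≤ lv x ∧ lv x + 2 ≤ lv t) ∧ z x = b := by
    intro x hx
    obtain ⟨h1, h2, h3⟩ := (mem_filter.1 hx).2
    exact ⟨⟨h1, by omega⟩, h3⟩
  refine ⟨S.toList, i, j, t, b, ?_, ?_, ?_, hij, hzt⟩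
  · rw [List.nodup_append]
    refine ⟨S.nodup_toList, by simpa using hne, ?_⟩
    intro x hx y hy hxy
    have hx' := hS (mem_toList.1 hx)
    rcases List.mem_cons.1 hy with h | h
    · exact (mem_erase.1 (mem_erase.1 hx').2).1 (hxy.trans h)
    · exact (mem_erase.1 hx').1 (hxy.trans (List.mem_singleton.1 h))
  · rw [length_toList, hSc]
    omega
  · intro x hx
    rcases List.mem_append.1 hx with h | h
    · exact hB x (mem_of_mem_erase (mem_of_mem_erase (hS (mem_toList.1 h))))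
    · rcases List.mem_cons.1 h with h | h
      · exact h ▸ hB i hi
      · exact (List.mem_singleton.1 h) ▸ hB j hj

end Pool.Agent.MP_e23604_nt.T

end

section

namespace Pool.Agent.MP_e23604_nt.T

open Finset Filter NumberField
open MP_f68ac8_nt (cyc IsFrob)
open MP_f68ac8_nt.Zv (Ex Prob piV Unf Bx)
open MP_f68ac8_nt.Zk (NS brL lk msk Av)
open MP_f68ac8_nt.Nd (Lr Fr Gz Exm fP kap np OKp)
open Q (Wn Pre rot0)
open scoped BigOperators Topology

theorem mul_XSgT (a b : (ZMod 3)ˣ) : a * b = 1 ↔ (a = 1 ↔ b = 1) := by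
  revert a b
  decide

theorem mem_XSgT (g h : GQ) : g * h ∈ Gz 3 ↔ (g ∈ Gz 3 ↔ h ∈ Gz 3) := by
  simp only [Gz, MonoidHom.mem_ker, map_mul, mul_XSgT]

theorem neg_XSgT (a : (ZMod 3)ˣ) (h : a ≠ 1) : (a : ZMod 3) = -1 := by
  revert a
  decide

theorem x_SgT : SgT := by
  refine ⟨fun g h => by simp only [sg, map_mul, Units.val_mul],
    fun g hg => congrArg Units.val (MonoidHom.mem_ker.1 hg),
    fun g hg => neg_XSgT _ fun e => hg (MonoidHom.mem_ker.2 e),
    MonoidHom.normal_ker _, MP_f68ac8_nt.cyc_nhds 3,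
    Abelianization.commutator_subset_ker _, fun g hg h hh => (mem_XSgT g h).2 (iff_of_false hg hh),
    fun g k ⟨j, hj⟩ => ?_⟩
  rw [hj, pow_succ, two_mul, pow_add, (Gz 3).mul_mem_cancel_left ((mem_XSgT _ _).2 Iff.rfl)]

end Pool.Agent.MP_e23604_nt.T

end

section

namespace Pool.Agent.MP_e23604_nt.T

open Finset Filter NumberField
open MP_f68ac8_nt (cyc IsFrob)
open MP_f68ac8_nt.Zv (Ex Prob piV Unf Bx)
open MP_f68ac8_nt.Zk (NS brL lk msk Av)
open MP_f68ac8_nt.Nd (Lr Fr Gz Exm fP kap np OKp)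
open Q (Wn Pre rot0)
open scoped BigOperators Topology

theorem uniq_XTrvT {d : ℕ} {D : Dt d} {β : ZMod 3} {u : V3 d} (h : D.G3) {g g' : ZMod 3}
    (h1 : D.KK β u g) (h2 : D.KK β u g') : g = g' := by
  obtain ⟨j, hj, hr⟩ := h
  have e1 := h1 j hj
  have e2 := h2 j hj
  unfold Dt.Kf at e1 e2
  have : (g - g') * D.r3 j = 0 := by linear_combination e1 - e2
  exact sub_eq_zero.1 ((mul_eq_zero.1 this).resolve_right hr)

theorem af_XTrvT {d : ℕ} {D : Dt d} (β : ZMod 3) (u : V3 d) (h : D.G3) :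
    {p : V3 d × ZMod 3 | D.Af β u p.1 p.2}.ncard ≤ 9 := by
  classical
  let g : ZMod 3 := Classical.epsilon fun g => D.KK β u g
  let f : ZMod 3 × ZMod 3 → V3 d × ZMod 3 := fun c => (fun j => c.1 * u j + c.2, c.1 * g + β * c.2)
  have hs : {p : V3 d × ZMod 3 | D.Af β u p.1 p.2} ⊆ f '' Set.univ := by
    rintro ⟨z, γ⟩ ⟨a, b, γ', h1, h2, h3⟩
    have hg : D.KK β u g := Classical.epsilon_spec (p := fun g => D.KK β u g) ⟨γ', h1⟩
    refine ⟨(a, b), trivial, Prod.ext (funext fun j => (h2 j).symm) ?_⟩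
    change a * g + β * b = γ
    rw [uniq_XTrvT h hg h1]
    exact h3.symm
  refine (Set.ncard_le_ncard hs (Set.toFinite _)).trans ((Set.ncard_image_le).trans ?_)
  rw [Set.ncard_univ, Nat.card_prod, Nat.card_zmod]

theorem x_TrvT : TrvT := by
  intro d D β lv L u h
  refine le_trans ?_ (Nat.add_le_add_right (af_XTrvT β u h) _)
  refine le_trans (Set.ncard_le_ncard (fun p hp => ?_) (Set.toFinite _)) (Set.ncard_union_le _ _)
  by_cases e : D.Af β u p.1 p.2
  · exact Or.inl e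
  · exact Or.inr ⟨hp.1, hp.2, e⟩

end Pool.Agent.MP_e23604_nt.T

end
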