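import Mathlib
import Pool.Agent.Mg.Fe23604m.G06f121

set_option linter.all false

section

namespace Pool.Agent.MP_e23604_nt.T

open Finset Filter NumberField
open MP_f68ac8_nt (cyc IsFrob)
open MP_f68ac8_nt.Zv (Ex Prob piV Unf Bx)
open MP_f68ac8_nt.Zk (NS brL lk msk Av)
open MP_f68ac8_nt.Nd (Lr Fr Gz Exm fP kap np OKp)
open Q (Wn Pre rot0)
open scoped BigOperators Topology

/-- all the forms as one linear map -/
def phi_XLinT {d : ℕ} (D : Dt d) (β : ZMod 3) :
    V3 d →ₗ[ZMod 3] (Option {j // D.sp j = true} → ZMod 3) where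
  toFun y o := o.elim (D.L0 y) fun j => D.Kf β y 0 j.1
  map_add' y z := by
    funext o
    rcases o with _ | j
    · simp only [Option.elim, Dt.L0, Pi.add_apply, mul_add, add_mul, sum_add_distrib]
    · simp only [Option.elim, Dt.Kf, Pi.add_apply]
      rw [add_add_add_comm, ← sum_add_distrib]
      congr 1
      · exact sum_congr rfl fun i _ => by ring
      · ring
  map_smul' c y := by
    funext o
    rcases o with _ | j
    · simp only [Option.elim, Dt.L0, Pi.smul_apply, smul_eq_mul, RingHom.id_apply, mul_sum]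
      exact sum_congr rfl fun i _ => by ring
    · simp only [Option.elim, Dt.Kf, Pi.smul_apply, smul_eq_mul, RingHom.id_apply, mul_add,
        mul_sum]
      congr 1
      · exact sum_congr rfl fun i _ => by ring
      · ring

theorem top_XLinT {d : ℕ} (D : Dt d) (β : ZMod 3) (h : D.GA β) :
    LinearMap.range (phi_XLinT D β) = ⊤ := by
  classical
  by_contra hne
  obtain ⟨f, hf, hle⟩ := Submodule.exists_le_ker_of_lt_top _ (lt_top_iff_ne_top.2 hne)
  obtain ⟨h1, h2⟩ := h (fun j => if hj : D.sp j = true then f (Pi.single (some ⟨j, hj⟩) 1) else 0)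
    (f (Pi.single none 1)) fun y => by
      have e : f (phi_XLinT D β y) = 0 := hle (LinearMap.mem_range_self _ y)
      rw [← Finset.univ_sum_single (phi_XLinT D β y), map_sum, Fintype.sum_option] at e
      rw [sum_subtype (p := fun j => D.sp j = true) _ (by simp), add_comm]
      refine Eq.trans ?_ e
      have e1 : ∀ o, f (Pi.single o (phi_XLinT D β y o)) =
          f (Pi.single o 1) * phi_XLinT D β y o := fun o => by
        rw [mul_comm, ← smul_eq_mul, ← map_smul, ← Pi.single_smul, smul_eq_mul, mul_one]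
      simp only [e1]
      congr 1
      exact sum_congr rfl fun j _ => by rw [dif_pos j.2]; rfl
  refine hf (LinearMap.pi_ext' fun o => LinearMap.ext_ring ?_)
  rcases o with _ | j
  · exact h2
  · have := h1 j.1 j.2
    rw [dif_pos j.2] at this
    exact this

theorem x_LinT : LinT := by
  intro d D β h
  have h1 := LinearMap.finrank_range_add_finrank_ker (phi_XLinT D β)
  rw [top_XLinT D β h, finrank_top, Module.finrank_fintype_fun_eq_card,
    Module.finrank_fintype_fun_eq_card, Fintype.card_option, Fintype.card_fin,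
    Fintype.card_subtype] at h1
  have h2 := card_filter_add_card_filter_not (s := (univ : Finset (Fin d)))
    fun j => D.sp j = true
  rw [card_univ, Fintype.card_fin] at h2
  simp only [Bool.not_eq_true] at h2
  have h3 : D.K0 β = (LinearMap.ker (phi_XLinT D β) : Set (V3 d)) := by
    ext y
    refine ⟨fun hy => funext fun o => ?_, fun hy => ⟨fun j hj => congrFun hy (some ⟨j, hj⟩),
      congrFun hy none⟩⟩
    rcases o with _ | j
    · exact hy.2
    · exact hy.1 j.1 j.2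
  have h4 : (D.K0 β).ncard = 3 ^ Module.finrank (ZMod 3) (LinearMap.ker (phi_XLinT D β)) := by
    rw [h3, ← Nat.card_coe_set_eq, SetLike.coe_sort_coe,
      Module.natCard_eq_pow_finrank (K := ZMod 3), Nat.card_zmod]
  rw [h4, ← pow_succ', n2]
  exact le_of_eq (congrArg _ (by omega))

end Pool.Agent.MP_e23604_nt.T

end

section

namespace Pool.Agent.MP_e23604_nt.T

open Finset Filter NumberField
open MP_f68ac8_nt (cyc IsFrob)
open MP_f68ac8_nt.Zv (Ex Prob piV Unf Bx)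
open MP_f68ac8_nt.Zk (NS brL lk msk Av)
open MP_f68ac8_nt.Nd (Lr Fr Gz Exm fP kap np OKp)
open Q (Wn Pre rot0)
open scoped BigOperators Topology

theorem zc_XNoC {d : ℕ} (B : Finset (Fin d)) :
    {X : V3 d | ∀ j ∈ B, X j = 0}.ncard = 3 ^ (d - B.card) := by
  classical
  have e : {X : V3 d | ∀ j ∈ B, X j = 0} =
      ↑(Fintype.piFinset fun j : Fin d => if j ∈ B then ({0} : Finset (ZMod 3)) else univ) := by
    ext X
    simp only [Set.mem_ofPred_eq, mem_coe, Fintype.mem_piFinset]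
    constructor
    · intro h j
      split_ifs with hj
      · simp [h j hj]
      · simp
    · intro h j hj
      have := h j
      simpa [hj] using this
  rw [e, Set.ncard_coe_finset, Fintype.card_piFinset]
  have : ∀ j : Fin d, (if j ∈ B then ({0} : Finset (ZMod 3)) else univ).card =
      if j ∈ Bᶜ then 3 else 1 := by
    intro j
    by_cases hj : j ∈ B <;> simp [hj]
  simp only [this]
  rw [Finset.prod_ite_mem, univ_inter, prod_const, card_compl, Fintype.card_fin]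

theorem ar_XNoC {d S I E M K K' n a r z c : ℕ} {ε : ℝ} (hε : 0 < ε) (hd : S + I + E = d)
    (hI : I ≤ n) (hE : E ≤ 2 * M) (k1 : 9 * K ≤ K') (k2 : 900 ≤ K')
    (hf : (K' * (d + 1) ^ K' * 3 ^ (12 * M) : ℝ) ≤ ε / 2 * 3 ^ I)
    (htr : (K' * (d + 1) ^ K' * 3 ^ (12 * M) : ℝ) ≤ ε / 2 * 3 ^ S)
    (h1 : a ≤ 100 * 9 ^ S * 9 ^ I * 81 ^ E) (h2 : r ≤ K * (d + 1) ^ K * 3 ^ (d + 4 * M))
    (h3 : z = 3 ^ (d - S)) (hc : c ≤ 9 * (a + r * (z * z))) : (c : ℝ) ≤ ε * 3 ^ n * 9 ^ d := by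
  have hdS : d - S = I + E := by omega
  rw [hdS] at h3
  have hN : c ≤ (K' * (d + 1) ^ K' * 3 ^ (12 * M)) * 9 ^ d +
      (K' * (d + 1) ^ K' * 3 ^ (12 * M)) * (3 ^ I * 3 ^ S * 9 ^ (I + E)) := by
    refine hc.trans ?_
    rw [mul_add]
    refine add_le_add ?_ ?_
    · have e1 : 9 * (100 * 9 ^ S * 9 ^ I * 81 ^ E) = (900 * 1 * 3 ^ (2 * E)) * 9 ^ d := by
        rw [← hd, pow_add, pow_add, pow_mul, show (81 : ℕ) = 9 * 9 from rfl, mul_pow]
        ring
      refine (Nat.mul_le_mul_left _ h1).trans (e1.le.trans (Nat.mul_le_mul_right _ ?_))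
      refine Nat.mul_le_mul (Nat.mul_le_mul k2 (Nat.one_le_pow _ _ (by omega))) ?_
      exact Nat.pow_le_pow_right (by norm_num) (by omega)
    · rw [h3]
      have e1 : 9 * (K * (d + 1) ^ K * 3 ^ (d + 4 * M) * (3 ^ (I + E) * 3 ^ (I + E))) =
          (9 * K * (d + 1) ^ K * 3 ^ (E + 4 * M)) * (3 ^ I * 3 ^ S * 9 ^ (I + E)) := by
        rw [← mul_pow, show d + 4 * M = I + S + (E + 4 * M) by omega, pow_add, pow_add]
        ring
      refine (Nat.mul_le_mul_left _ (Nat.mul_le_mul_right _ h2)).trans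
        (e1.le.trans (Nat.mul_le_mul_right _ ?_))
      refine Nat.mul_le_mul (Nat.mul_le_mul k1 ?_) ?_
      · exact Nat.pow_le_pow_right (by omega) (by omega)
      · exact Nat.pow_le_pow_right (by norm_num) (by omega)
  have hN' : (c : ℝ) ≤ ((K' : ℝ) * (d + 1) ^ K' * 3 ^ (12 * M)) * 9 ^ d +
      ((K' : ℝ) * (d + 1) ^ K' * 3 ^ (12 * M)) * (3 ^ I * 3 ^ S * 9 ^ (I + E)) := by
    exact_mod_cast hN
  have hI3 : (3 : ℝ) ^ I ≤ 3 ^ n := pow_le_pow_right₀ (by norm_num) hI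
  have e9 : (9 : ℝ) ^ d = 3 ^ S * (3 ^ S * 9 ^ (I + E)) := by
    rw [← mul_assoc, ← mul_pow, ← hd, add_assoc, pow_add]
    norm_num
  refine hN'.trans ?_
  generalize (K' : ℝ) * (d + 1) ^ K' * 3 ^ (12 * M) = y at hf htr ⊢
  have t1 : y * 9 ^ d ≤ ε / 2 * 3 ^ n * 9 ^ d :=
    mul_le_mul_of_nonneg_right (hf.trans (mul_le_mul_of_nonneg_left hI3 (by positivity)))
      (by positivity)
  have t2 : y * (3 ^ I * 3 ^ S * 9 ^ (I + E)) ≤ ε / 2 * 3 ^ n * 9 ^ d := by
    refine (mul_le_mul_of_nonneg_right htr (by positivity)).trans ?_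
    rw [e9]
    have : ε / 2 * 3 ^ S * (3 ^ I * 3 ^ S * 9 ^ (I + E)) =
        (ε / 2 * 3 ^ I) * (3 ^ S * (3 ^ S * 9 ^ (I + E))) := by ring
    rw [this]
    exact mul_le_mul_of_nonneg_right (mul_le_mul_of_nonneg_left hI3 (by positivity))
      (by positivity)
  have t3 : ε * 3 ^ n * 9 ^ d = ε / 2 * 3 ^ n * 9 ^ d + ε / 2 * 3 ^ n * 9 ^ d := by ring
  rw [t3]
  exact add_le_add t1 t2

theorem x_NoC (hNoS : NoS) (hCoB : CoB) (hNrC : NrC) (hNumT : NumT) : NoC := by
  intro ε L hε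
  obtain ⟨K, hK⟩ := hNrC L
  obtain ⟨K', k1, k2⟩ : ∃ K', 9 * K ≤ K' ∧ 900 ≤ K' := ⟨9 * K + 900, by omega, by omega⟩
  obtain ⟨m₀, hm⟩ := hNumT (ε / 2) K' (by positivity)
  refine ⟨m₀, fun d lv sp β ht => ?_⟩
  obtain ⟨hd, hI, -, -, M, hM, hE, hb⟩ := hm d lv sp ht
  refine ar_XNoC hε hd hI hE k1 k2 (hb false).2 (hb true).2 (hCoB d lv sp (hb false).1)
    (hK d M lv hM) (zc_XNoC (Bn lv sp true)) ?_
  generalize hA : {p : (V3 d × V3 d) × V3 d × V3 d |
      (∀ i ∈ Bn lv sp false, ∀ j ∈ Bn lv sp false, p.1.1 i = p.1.1 j ∧ p.1.2 i = p.1.2 j) ∧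
      ∀ i ∈ Bn lv sp false ∪ Bn lv sp true, ∀ j ∈ Bn lv sp true,
        p.2.1 j * (p.1.1 i - p.1.1 j) + p.2.2 j * (p.1.2 i - p.1.2 j) = 0} = A
  generalize hR : {p : V3 d × V3 d | ¬ Rich lv L p.1 p.2} = R
  generalize hZ : {X : V3 d | ∀ j ∈ Bn lv sp true, X j = 0} = Z
  have hsub : NoB lv sp β L ⊆ (Set.univ : Set (ZMod 3 × ZMod 3)) ×ˢ (A ∪ R ×ˢ (Z ×ˢ Z)) := by
    intro p hp
    obtain ⟨ha, hb⟩ := hNoS d lv sp β L p hp
    subst hA hR hZ
    refine ⟨trivial, ?_⟩
    rcases hb with hb | hb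
    · exact Or.inl ⟨hb, ha⟩
    · exact Or.inr ⟨hp.2.1, fun j hj => (hb j hj).1, fun j hj => (hb j hj).2⟩
  refine (Set.ncard_le_ncard hsub).trans ?_
  rw [Set.ncard_prod, Set.ncard_univ, ← Set.ncard_prod, ← Set.ncard_prod]
  have : Nat.card (ZMod 3 × ZMod 3) = 9 := by simp
  rw [this]
  exact Nat.mul_le_mul_left _ (Set.ncard_union_le _ _)

end Pool.Agent.MP_e23604_nt.T

end
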