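import Mathlib
import Pool.Agent.Mg.Fe23604m.G06f121

set_option linter.all false

section

namespace Pool.Agent.MP_e23604_nt.T

open Finset Filter NumberField
open MP_f68ac8_nt (cyc IsFrob)
open MP_f68ac8_nt.Zv (Ex Prob piV Unf Bx)
open MP_f68ac8_nt.Zk (NS brL lk msk Av)
open MP_f68ac8_nt.Nd (Lr Fr Gz Exm fP kap np OKp)
open Q (Wn Pre rot0)
open scoped BigOperators Topology

theorem inf_XGqT {R : Finset ℕ} {N N' : Subgroup GQ} (h : Adm R N) (h' : Adm R N') :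
    Adm R (N ⊓ N') := by
  have := h.nrm
  have := h'.nrm
  refine ⟨inferInstance, inter_mem h.nhds h'.nhds, fun g hg => ?_,
    fun P a g c => ⟨h.unr P a g c, h'.unr P a g c⟩⟩
  obtain ⟨k, hk⟩ := h.pg g hg
  obtain ⟨k', hk'⟩ := h'.pg g hg
  refine ⟨k + k', ?_, ?_⟩
  · rw [pow_add, pow_mul]
    exact pow_mem hk _
  · rw [add_comm, pow_add, pow_mul]
    exact pow_mem hk' _

theorem many_XGqT {R : Finset ℕ} {N₀ : Subgroup GQ} (h₀ : Adm R N₀) {H : Type} [Group H]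
    {T : Set (GQ →* H)} (hT : T.Finite) :
    (∀ θ ∈ T, Adm R θ.ker) → ∃ N, Adm R N ∧ N ≤ N₀ ∧ ∀ θ ∈ T, N ≤ θ.ker := by
  induction T, hT using Set.Finite.induction_on with
  | empty => exact fun _ => ⟨N₀, h₀, le_rfl, fun _ h => h.elim⟩
  | @insert a s _ _ ih =>
    intro h
    obtain ⟨N, h1, h2, h3⟩ := ih fun θ hθ => h θ (Set.mem_insert_of_mem _ hθ)
    refine ⟨N ⊓ a.ker, inf_XGqT h1 (h a (Set.mem_insert _ _)), inf_le_left.trans h2, ?_⟩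
    rintro θ (rfl | hθ)
    · exact inf_le_right
    · exact inf_le_left.trans (h3 θ hθ)

theorem rep_XGqT {G : Type} [Group G] (I N : Subgroup G) [N.FiniteIndex] :
    ∃ (nb : ℕ) (bb : Fin nb → G), (∀ b, bb b ∈ I) ∧ ∀ g ∈ I, ∃ b, (bb b)⁻¹ * g ∈ N := by
  have h : ∀ q : G ⧸ N, ∃ r ∈ I, ∀ g ∈ I, (g : G ⧸ N) = q → r⁻¹ * g ∈ N := fun q => by
    by_cases h : ∃ r ∈ I, (r : G ⧸ N) = q
    · obtain ⟨r, h1, h2⟩ := h
      exact ⟨r, h1, fun g _ h3 => QuotientGroup.eq.1 (h2.trans h3.symm)⟩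
    · exact ⟨1, one_mem _, fun g h1 h2 => absurd ⟨g, h1, h2⟩ h⟩
  choose r h1 h2 using h
  obtain ⟨n, ⟨e⟩⟩ := Finite.exists_equiv_fin (G ⧸ N)
  exact ⟨n, fun b => r (e.symm b), fun b => h1 _, fun g hg =>
    ⟨e g, h2 _ g hg (e.symm_apply_apply _).symm⟩⟩

/-- normal subgroups of small index are kernels of permutation representations -/
theorem ker_XGqT {G : Type} [Group G] (M : Subgroup G) [M.Normal] [M.FiniteIndex] {c : ℕ}
    (hc : M.index ≤ c) : ∃ θ : G →* Equiv.Perm (Fin c), θ.ker = M := by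
  have := Fintype.ofFinite (G ⧸ M)
  obtain ⟨ι⟩ : Nonempty (G ⧸ M ↪ Fin c) := Function.Embedding.nonempty_of_card_le (by
    rwa [Fintype.card_fin, ← Nat.card_eq_fintype_card])
  refine ⟨(Equiv.Perm.viaEmbeddingHom ι).comp (MulAction.toPermHom G (G ⧸ M)), ?_⟩
  rw [← MonoidHom.comap_ker,
    (MonoidHom.ker_eq_bot_iff _).2 (Equiv.Perm.viaEmbeddingHom_injective ι), MonoidHom.comap_bot,
    ← Subgroup.normalCore_eq_ker, Subgroup.normalCore_eq_self]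

theorem x_GqT (hSgT : SgT) (hUcT : UcT) (hDecT : DecT) (hSjT : SjT) (hTamT : TamT) (hGenT : GenT)
    (hFincStmt : MP_f68ac8_nt.Zv.FincStmt) : GqT := by
  intro σ τ e hT Λ hΛ c
  obtain ⟨⟨a₁, a1, a2⟩, ⟨a₂, a3, -, a4⟩, a₃, a5, a6, a7⟩ := hSjT
  have fi : ∀ N : Subgroup GQ, (N : Set GQ) ∈ 𝓝 1 → N.FiniteIndex := fun N h =>
    ⟨((hUcT Unit fun _ => ()).2 N h).1⟩
  have gen : ∀ N H : Subgroup GQ, Adm Λ N → N ≤ H → (∀ l ∈ Λ, τ l ∈ H) → a₁ ∈ H → a₂ ∈ H →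
      a₃ ∈ H → H = ⊤ := fun N H h1 h2 h3 h4 h5 h6 =>
    hGenT σ τ e hT Λ N H hΛ h1 h2 h3 ⟨a₁, h4, a2⟩ ⟨a₂, h5, a3, a4⟩ ⟨a₃, h6, a5, a6, a7⟩
  have h0 : Adm Λ (Gz 3) := ⟨hSgT.2.2.2.1, hSgT.2.2.2.2.1, fun g hg => ⟨0, by simpa using hg⟩,
    fun P hP => (hDecT.2.2.2 P hP.1).2.2.1 hP.2.1⟩
  have hfin := (hFincStmt GQ (Equiv.Perm (Fin c)) {N | Adm Λ N}
    (insert a₁ (insert a₂ (insert a₃ (Set.range fun l : Λ => τ l))))
    ((((Set.finite_range _).insert _).insert _).insert _) (fun _ a _ b => inf_XGqT a b)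
    fun N hN => gen N _ hN le_sup_right
      (fun l hl => Subgroup.mem_sup_left (Subgroup.subset_closure
        (Or.inr (Or.inr (Or.inr ⟨⟨l, hl⟩, rfl⟩)))))
      (Subgroup.mem_sup_left (Subgroup.subset_closure (Or.inl rfl)))
      (Subgroup.mem_sup_left (Subgroup.subset_closure (Or.inr (Or.inl rfl))))
      (Subgroup.mem_sup_left (Subgroup.subset_closure (Or.inr (Or.inr (Or.inl rfl)))))).2
  obtain ⟨N, h1, h2, h3⟩ := many_XGqT h0 hfin fun _ h => h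
  have := h1.nrm
  have := fi N h1.nhds
  obtain ⟨nb, bb, b1, b2⟩ := rep_XGqT (P3.inertia GQ) N
  refine ⟨N, nb, bb, ⟨h1, h2, fun l hl => ?_, b1, b2, fun g => ?_,
    fun M R m1 m2 m3 P hP g hg => ?_⟩, fun R M r1 r2 r3 => ?_⟩
  · obtain ⟨P, p1, p2, p3, -⟩ := (hT l (hΛ l hl)).ex
    exact ⟨P, p1, p2, p3⟩
  · have m0 : ∀ u, ltr Λ τ bb u ∈ Subgroup.closure (Set.range (ltr Λ τ bb)) ⊔ N := fun u =>
      Subgroup.mem_sup_left (Subgroup.subset_closure ⟨u, rfl⟩)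
    have m1 : ∀ g ∈ P3.inertia GQ, g ∈ Subgroup.closure (Set.range (ltr Λ τ bb)) ⊔ N :=
      fun g hg => by
        obtain ⟨b, hb⟩ := b2 g hg
        exact (Subgroup.mul_mem_cancel_left _ (Subgroup.inv_mem _ (m0 (.inr b)))).1
          (Subgroup.mem_sup_right hb)
    have hg : g ∈ Subgroup.closure (Set.range (ltr Λ τ bb)) ⊔ N := by
      rw [gen N _ h1 le_sup_right (fun l hl => m0 (.inl ⟨l, hl⟩)) (m1 _ a1) (m1 _ a3) (m1 _ a5)]
      trivial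
    obtain ⟨y, hy, z, hz, rfl⟩ := Subgroup.mem_sup_of_normal_right.1 hg
    rw [← FreeGroup.range_lift_eq_closure] at hy
    obtain ⟨w, rfl⟩ := hy
    exact ⟨w, by rwa [inv_mul_cancel_left]⟩
  · obtain ⟨-, -, -, ⟨l, l1, l2⟩, d⟩ := hDecT.2.2.2 P hP.1
    by_cases e3 : l ∈ Λ
    · obtain ⟨⟨P', p1, p2, -, p3⟩, p4, p5, -⟩ := hT l (hΛ l e3)
      obtain ⟨s, hs⟩ := ((hDecT.2.2.2 P' p1).2.2.2.2 l l1 p2).2.1 P hP.1 l2
      obtain ⟨k, hk⟩ := hTamT l P' (τ l) (hΛ l e3) p1 p2 p3 (p5 ▸ p4) M m1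
        (mem_of_superset h1.nhds m2) (fun g hg => (h1.pg g hg).imp fun _ h => m2 h) _ (hs g hg)
      have := m1.conj_mem _ ((M.mul_mem_cancel_left
        (M.inv_mem (M.pow_mem (m3 l e3 fun h => hP.2.2 l h l2) k))).1 hk) s⁻¹
      simpa [mul_assoc] using this
    · exact m2 (h1.unr P ⟨hP.1, hP.2.1, fun m hm h =>
        e3 ((d l l1 l2).1 m (hΛ m hm).1 h ▸ hm)⟩ g hg)
  · have := r2.nrm
    have := fi M r2.nhds
    obtain ⟨θ, rfl⟩ := ker_XGqT M r3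
    exact h3 θ ⟨r2.nrm, r2.nhds, r2.pg, fun P hP =>
      r2.unr P ⟨hP.1, hP.2.1, fun l hl => hP.2.2 l (r1 hl)⟩⟩

end Pool.Agent.MP_e23604_nt.T

end

section

/-! Cubic twists: the digits at the inert primes are determined. -/

namespace Pool.Agent.MP_e23604_nt.T

open Finset Filter NumberField
open MP_f68ac8_nt (cyc IsFrob)
open MP_f68ac8_nt.Zv (Ex Prob piV Unf Bx)
open MP_f68ac8_nt.Zk (NS brL lk msk Av)
open MP_f68ac8_nt.Nd (Lr Fr Gz Exm fP kap np OKp)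
open Q (Wn Pre rot0)
open scoped BigOperators Topology

theorem neg_self_XPinT (a : ZMod 3) (h : -1 * a - a = 0) : a = 0 := by
  revert a
  decide

theorem x_PinT (hBasT : BasT) (hSgT : SgT) (hDecT : DecT) (hActB : ActB) (hUniT : UniT) :
    PinT := by
  intro V _ _ d S hS n u v v' hn hv hv' hδ j
  have hc : Cm0 S.J S.T := hS.cm.toCm0
  obtain ⟨mono, -, hom, -, -, hz, hadd, -, -, hdo, -⟩ := hBasT V S.J S.T hc
  have hR : ∀ l ∈ S.R, P0 l := by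
    intro l hl
    obtain ⟨i, -, rfl⟩ := Finset.mem_image.1 hl
    exact hS.pri i
  rw [Pi.sub_apply]
  split_ifs with hj
  · exact hδ j
  obtain ⟨-, x, hx, hE⟩ := hv
  obtain ⟨-, x', hx', hE'⟩ := hv'
  have m1 : Wn S.J n ≤ Wn S.J (n + 1) := mono _ _ (Nat.le_succ n)
  have hy : ∀ g, (x - x') g ∈ Wn S.J (n + 1) := by
    refine hUniT V S.J S.T hc S.η S.R S.e S.β S.σ S.τ hS.gm hS.tl hR (x - x') S.m (n + 1)
      (hx.lc.sub hx'.lc) (fun g => sub_mem (hx.val g) (hx'.val g)) (fun g h => m1 ?_)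
      (fun P hP g hg => m1 (sub_mem (hx.unr P hP g hg) (hx'.unr P hP g hg))) (fun g hg => m1 ?_)
      (fun l hl => ?_)
    · have := sub_mem (hx.co g h) (hx'.co g h)
      simp only [Pi.sub_apply, map_sub]
      rwa [show x (g * h) - (x g + S.η g (x h)) - (x' (g * h) - (x' g + S.η g (x' h))) =
        x (g * h) - x' (g * h) - (x g - x' g + (S.η g (x h) - S.η g (x' h))) by abel] at this
    · have := sub_mem (hx.thr g hg) (hx'.thr g hg)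
      rwa [sub_sub_sub_cancel_right] at this
    · obtain ⟨i, -, rfl⟩ := Finset.mem_image.1 hl
      have h1 := m1 (sub_mem (hx.tam i) (hx'.tam i))
      have h2 := (hom (n + 1) _).2 (hδ i)
      rw [(hdo n _).2, map_sub] at h2
      have h3 := sub_mem h1 h2
      rwa [show x (S.τ (S.l i)) - (v i - S.J (v i)) - (x' (S.τ (S.l i)) - (v' i - S.J (v' i))) -
        (S.J (v i) - S.J (v' i) - (v i - v' i)) = x (S.τ (S.l i)) - x' (S.τ (S.l i)) by abel] at h3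
  have h4 : S.η (S.σ (S.l j)) (v j - v' j) - (v j - v' j) ∈ Wn S.J (n + 1) := by
    have h5 := sub_mem (sub_mem (hE (some j)) (hE' (some j))) (hy (S.σ (S.l j)))
    simp only [Sy.Ev, Pi.sub_apply] at h5
    rw [map_sub]
    rwa [show x (S.σ (S.l j)) + S.η (S.σ (S.l j)) (v j) - v j -
      (x' (S.σ (S.l j)) + S.η (S.σ (S.l j)) (v' j) - v' j) - (x (S.σ (S.l j)) - x' (S.σ (S.l j))) =
      S.η (S.σ (S.l j)) (v j) - S.η (S.σ (S.l j)) (v' j) - (v j - v' j) by abel] at h5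
  have hσ : S.σ (S.l j) ∉ Gz 3 := by
    obtain ⟨P, hP, hl, hf, -⟩ := (hS.tl _ (hS.pri j)).ex
    obtain ⟨-, -, -, hD⟩ := hDecT
    obtain ⟨-, -, -, -, h6⟩ := hD P hP
    obtain ⟨-, -, h7⟩ := h6 _ (hS.pri j).1 hl
    obtain ⟨-, h8, -⟩ := h7 _ hf
    exact fun h => hj ((h8 (hS.pri j).2).1 h)
  obtain ⟨hP, hd, -⟩ := hActB V S.J S.T hc S.η S.R S.e S.β S.σ S.τ hS.gm hS.tl hR (S.σ (S.l j))
  have hm : S.η (S.σ (S.l j)) (v j - v' j) ∈ Wn S.J (n + 1 + 1) := (hP.1 _ _).2 (hδ j)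
  have h9 := hd (n + 1) _ (hδ j)
  rw [if_neg (by rw [Nat.even_add_one]; exact fun h => h hn), hSgT.2.2.1 _ hσ] at h9
  have h10 := (hz (n + 1) _ (sub_mem hm (hδ j))).2 h4
  rw [(hadd (n + 1) _ hm _ (hδ j)).2, h9] at h10
  exact (hz (n + 1) _ (hδ j)).1 (neg_self_XPinT _ h10)

end Pool.Agent.MP_e23604_nt.T

end
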