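import Mathlib
import Pool.Agent.Mg.Fe23604m.G06f121
import Pool.Agent.Mg.Fe23604m.G81ce00

set_option linter.all false

section

/-! The action on the digits. -/

namespace Pool.Agent.MP_e23604_nt.T

open Finset Filter NumberField
open MP_f68ac8_nt (cyc IsFrob)
open MP_f68ac8_nt.Zv (Ex Prob piV Unf Bx)
open MP_f68ac8_nt.Zk (NS brL lk msk Av)
open MP_f68ac8_nt.Nd (Lr Fr Gz Exm fP kap np OKp)
open Q (Wn Pre rot0)
open scoped BigOperators Topology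

theorem x_ActB (hBasT : BasT) (hSemT : SemT) (hSgT : SgT) : ActB := by
  intro V _ J T hc η R e β σ τ hG _ _ g
  obtain ⟨h1, h2⟩ := hSemT V J T hc (η g) (hG.fix g)
  by_cases hg : g ∈ Gz 3
  · obtain ⟨a1, a2, a3, -⟩ := h1 (hG.lin g hg)
    refine ⟨a1, fun n u hu => ?_, fun _ => ⟨a2, a3 _ (hG.two g hg)⟩⟩
    have h := (hBasT V J T hc).2.2.2.2.2.2.2.2.1 n u _ (a2 n u hu)
    rw [add_sub_cancel] at h
    rw [h, hSgT.2.1 g hg, ite_self, one_mul]
  · obtain ⟨a1, a2⟩ := h2 (hG.ant g hg)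
    refine ⟨a1, fun n u hu => ?_, fun h => absurd h hg⟩
    rw [a2 n u hu, hSgT.2.2.1 g hg]
    split_ifs with hn
    · rw [hn.neg_one_pow]
    · rw [(Nat.not_even_iff_odd.1 hn).neg_one_pow]

end Pool.Agent.MP_e23604_nt.T

end

section

namespace Pool.Agent.MP_e23604_nt.T

open Finset Filter NumberField
open MP_f68ac8_nt (cyc IsFrob)
open MP_f68ac8_nt.Zv (Ex Prob piV Unf Bx)
open MP_f68ac8_nt.Zk (NS brL lk msk Av)
open MP_f68ac8_nt.Nd (Lr Fr Gz Exm fP kap np OKp)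
open Q (Wn Pre rot0)
open scoped BigOperators Topology

/-- the argument for two functions of the mask -/
theorem mix_XMixT (hC : MP_f68ac8_nt.Zk.CornStmt) {P : Type} [Group P] {F : ℕ → Subgroup P}
    (hF : NS F) {d : ℕ} (S : Finset (Fin d)) (t : Fin d) (Y Y' : Finset (Fin d) → P)
    (hS0 : S.Nonempty) (ht : t ∉ S)
    (hc : ∀ (R : Finset (Fin d)) (J : Finset (Fin d) → Finset (Fin d)),
      (∀ j, (∀ ω, j ∈ J ω) ∨ (∀ ω, j ∉ J ω) ∨ ∃ s ∈ R, ∀ ω, j ∈ J ω ↔ s ∈ ω) →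
      (∃ ω, Y (J ω) = Y' (J ω)) →
      (fun ω => (Y' (J ω))⁻¹ * Y (J ω)) ∈ MP_f68ac8_nt.Zk.Cube F R)
    (h : ∀ J : Finset (Fin d), J ⊆ S ∨ Sᶜ ⊆ J → (∃ s ∈ S, s ∉ J) → Y J = Y' J) :
    ((Y' S)⁻¹ * Y S)⁻¹ * ((Y' univ)⁻¹ * Y univ) ∈ F (S.card + 1) := by
  obtain ⟨s₀, hs₀⟩ := hS0
  have h0 : Y ∅ = Y' ∅ := h ∅ (Or.inl (empty_subset _)) ⟨s₀, hs₀, notMem_empty _⟩
  have ha : (Y' S)⁻¹ * Y S ∈ F (max 1 S.card) := by
    have hJ : ∀ j, (∀ ω, j ∈ ω ∩ S) ∨ (∀ ω, j ∉ ω ∩ S) ∨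
        ∃ s ∈ S, ∀ ω, j ∈ ω ∩ S ↔ s ∈ ω := fun j => by
      by_cases hj : j ∈ S
      · exact Or.inr (Or.inr ⟨j, hj, fun ω => by simp [hj]⟩)
      · exact Or.inr (Or.inl fun ω => by simp [hj])
    have := hC P F hF _ S _ (hc S (fun ω => ω ∩ S) hJ ⟨∅, by simpa using h0⟩) fun ω hω hne => by
      obtain ⟨s, hs, hs'⟩ := Finset.exists_of_ssubset (lt_of_le_of_ne hω hne)
      rw [h _ (Or.inl Finset.inter_subset_right) ⟨s, hs, by simp [hs']⟩, inv_mul_cancel]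
    simpa only [Finset.inter_self] using this
  set J : Finset (Fin d) → Finset (Fin d) := fun ω => ω ∩ S ∪ if t ∈ ω then Sᶜ else ∅ with hJd
  have hJ : ∀ j, (∀ ω, j ∈ J ω) ∨ (∀ ω, j ∉ J ω) ∨
      ∃ s ∈ insert t S, ∀ ω, j ∈ J ω ↔ s ∈ ω := fun j => by
    by_cases hj : j ∈ S
    · refine Or.inr (Or.inr ⟨j, Finset.mem_insert_of_mem hj, fun ω => ?_⟩)
      by_cases hω : t ∈ ω <;> simp [hJd, hj, hω]
    · refine Or.inr (Or.inr ⟨t, Finset.mem_insert_self _ _, fun ω => ?_⟩)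
      by_cases hω : t ∈ ω <;> simp [hJd, hj, hω]
  set a := (Y' S)⁻¹ * Y S with had
  have e0 : J ∅ = ∅ := by simp [hJd]
  have hf := hc (insert t S) J hJ ⟨∅, by rw [e0, h0]⟩
  have hfa := MP_f68ac8_nt.Zk.face_ZkLc (F := F) (Finset.subset_insert t S) ha
  have eS : J S = S := by simp [hJd, ht]
  have eR : J (insert t S) = Finset.univ := by
    ext j; by_cases hj : j ∈ S <;> simp [hJd, hj]
  have key := MP_f68ac8_nt.Zk.lemA_ZkLc hC hF (insert t S) hf hfa fun ω hω hne => by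
    by_cases hS : S ⊆ ω
    · have e : ω = S := by
        refine Finset.Subset.antisymm (fun j hj => ?_) hS
        rcases Finset.mem_insert.1 (hω hj) with rfl | h'
        · exact absurd (Finset.Subset.antisymm hω (Finset.insert_subset hj hS)) hne
        · exact h'
      rw [if_pos hS, e, eS]
    · obtain ⟨s, hs, hs'⟩ := Finset.not_subset.1 hS
      have hJS : J ω ⊆ S ∨ Sᶜ ⊆ J ω := by
        by_cases hω : t ∈ ω
        · exact Or.inr (by simp [hJd, hω])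
        · exact Or.inl (by simp [hJd, hω])
      rw [if_neg hS, h (J ω) hJS ⟨s, hs, ?_⟩, inv_mul_cancel]
      by_cases hω : t ∈ ω <;> simp [hJd, hs, hs', hω]
  rw [Finset.card_insert_of_notMem ht, max_eq_right (Nat.le_add_left 1 _)] at key
  change (if S ⊆ insert t S then a else 1)⁻¹ * ((Y' (J (insert t S)))⁻¹ *
    Y (J (insert t S))) ∈ _ at key
  rwa [if_pos (Finset.subset_insert t S), eR] at key

theorem x_MixT (hCubM : CubM) (hCornStmt : MP_f68ac8_nt.Zk.CornStmt) : MixT := by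
  intro P _ F hF hN d Λ B S t x x0 q q' w w' hS ht hx h
  have := mix_XMixT hCornStmt hF S t (fun J => FreeGroup.lift (vT q (msk J x) x0) w)
    (fun J => FreeGroup.lift (vT q' (msk J x) x0) w') hS ht
    (fun R J hJ he => hCubM P F hF hN d Λ B (Fin d) R x x0 q q' w w' J hx hJ he) h
  simpa only [MP_f68ac8_nt.Zk.msk_univ_ZkLc] using this

end Pool.Agent.MP_e23604_nt.T

end
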