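import Mathlib
import Pool.Agent.Mg.Fe23604m.G06f121

set_option linter.all false

namespace Pool.Agent.MP_e23604_nt.T

open Finset Filter NumberField
open MP_f68ac8_nt (cyc IsFrob)
open MP_f68ac8_nt.Zv (Ex Prob piV Unf Bx)
open MP_f68ac8_nt.Zk (NS brL lk msk Av)
open MP_f68ac8_nt.Nd (Lr Fr Gz Exm fP kap np OKp)
open Q (Wn Pre rot0)
open scoped BigOperators Topology

theorem fib_XCntC {α β : Type} [Finite α] [Finite β] (f : α → β) (A : Set α) (B : Set β) (M : ℕ)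
    (hf : ∀ a ∈ A, f a ∈ B) (hM : ∀ a₀ ∈ A, {a | a ∈ A ∧ f a = f a₀}.ncard ≤ M) :
    A.ncard ≤ M * B.ncard := by
  classical
  rw [Set.ncard_eq_toFinset_card A (Set.toFinite A), Set.ncard_eq_toFinset_card B (Set.toFinite B)]
  refine Finset.card_le_mul_card_image_of_maps_to (f := f) (fun a ha => ?_) M fun b _ => ?_
  · rw [Set.Finite.mem_toFinset] at ha ⊢
    exact hf a ha
  · by_cases h : ∃ a₀ ∈ A, f a₀ = b
    · obtain ⟨a₀, h0, rfl⟩ := h
      refine le_trans (le_of_eq ?_) (hM a₀ h0)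
      rw [← Set.ncard_coe_finset]
      congr 1
      ext a
      simp
    · rw [Finset.card_eq_zero.2]
      · exact Nat.zero_le _
      · rw [Finset.filter_eq_empty_iff]
        intro a ha hb
        exact h ⟨a, by simpa using ha, hb⟩

theorem abs_XCntC {G γ : Type} [AddCommGroup G] [Finite G] [Finite γ] (A B Z H : Set G)
    (K : Set γ) (φ : G → γ) (hB : ∀ v ∈ A, ∀ w ∈ Z, v + w ∈ B)
    (hZ : ∀ w ∈ Z, ∀ w' ∈ Z, w - w' ∈ Z)
    (hK : ∀ v ∈ A, ∀ v' ∈ A, v - v' ∈ Z → φ (v - v') ∈ K)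
    (hH : ∀ v ∈ A, ∀ v' ∈ A, ∀ v₀, v - v₀ ∈ Z → v' - v₀ ∈ Z → φ (v - v₀) = φ (v' - v₀) →
      v - v' ∈ H) :
    A.ncard * Z.ncard ≤ K.ncard * H.ncard * B.ncard := by
  rw [← Set.ncard_prod]
  refine fib_XCntC (fun p : G × G => p.1 + p.2) (A ×ˢ Z) B _ (fun p hp => hB _ hp.1 _ hp.2) ?_
  intro p₀ hp₀
  have key : ∀ p : G × G, p ∈ A ×ˢ Z → p.1 + p.2 = p₀.1 + p₀.2 → p.1 - p₀.1 ∈ Z := by
    intro p hp e
    have e' : p.1 - p₀.1 = p₀.2 - p.2 := by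
      rw [sub_eq_sub_iff_add_eq_add, e, add_comm]
    rw [e']
    exact hZ _ hp₀.2 _ hp.2
  rw [mul_comm]
  refine fib_XCntC (fun p : G × G => φ (p.1 - p₀.1)) _ K _
    (fun p hp => hK _ hp.1.1 _ hp₀.1 (key p hp.1 hp.2)) ?_
  intro p₁ hp₁
  refine Set.ncard_le_ncard_of_injOn (fun p : G × G => p.1 - p₁.1) (fun p hp => ?_)
    (fun p hp q hq e => ?_) (Set.toFinite H)
  · exact hH _ hp.1.1.1 _ hp₁.1.1 p₀.1 (key p hp.1.1 hp.1.2) (key p₁ hp₁.1 hp₁.2) hp.2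
  · have e1 : p.1 = q.1 := sub_left_injective e
    have e2 : p.1 + p.2 = q.1 + q.2 := hp.1.2.trans hq.1.2.symm
    rw [e1] at e2
    exact Prod.ext e1 (add_left_cancel e2)

theorem x_CntC (hBasT : BasT) (hObT : ObT) (hInvT : InvT) (hPinT : PinT) (hMidT : MidT)
    (hCntA : CntA) : CntC := by
  intro V _ _ d S hS n u hn hm
  obtain ⟨-, hA2, hA3⟩ := hCntA V d S hS
  obtain ⟨-, -, -, -, -, b6, b7, -⟩ := hBasT V S.J S.T hS.cm.toCm0
  rw [← hA2 n (by omega), ← hA3 (n + 3) (by omega)]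
  refine abs_XCntC (S.Sol n (n + 1) u) (S.Sol (n + 2) (n + 2) u)
    {w : Fin d → V | ∀ j, w j ∈ Wn S.J (n + 3)} {w | S.Sh n w} (S.dt.K0 S.β)
    (fun w j => dig S.J S.T (n + 2) (w j)) ?_ ?_ ?_ ?_
  · intro v hv w hw
    exact hInvT V d S hS (n + 2) u v w (hn.add even_two) (by omega)
      ((hObT V d S hS n v).2.2.2.2 u (n + 1) (n + 2) (n + 2) (by omega) (by omega) hv) hw
  · intro w hw w' hw' j
    exact sub_mem (hw j) (hw' j)
  · intro v hv v' hv' h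
    exact hMidT V d S hS n u v v' hn hv hv' h
  · intro v hv v' hv' v₀ h h' e
    refine hPinT V d S hS n u v v' hn hv hv' fun j => ?_
    have e1 : v j - v' j = (v - v₀) j - (v' - v₀) j := by
      simp only [Pi.sub_apply, sub_sub_sub_cancel_right]
    rw [e1]
    refine (b6 (n + 2) _ (sub_mem (h j) (h' j))).1 ?_
    rw [(b7 (n + 2) _ (h j) _ (h' j)).2]
    exact sub_eq_zero.2 (congrFun e j)

end Pool.Agent.MP_e23604_nt.T
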