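import Mathlib
import Pool.Agent.Mg.Fe23604m.G06f121

set_option linter.all false

section

namespace Pool.Agent.MP_e23604_nt.T

open Finset Filter NumberField
open MP_f68ac8_nt (cyc IsFrob)
open MP_f68ac8_nt.Zv (Ex Prob piV Unf Bx)
open MP_f68ac8_nt.Zk (NS brL lk msk Av)
open MP_f68ac8_nt.Nd (Lr Fr Gz Exm fP kap np OKp)
open Q (Wn Pre rot0)
open scoped BigOperators Topology

/-- the kernel of an approximate cocycle -/
theorem ker_XWbT {V : Type} [AddCommGroup V] (η : GQ →* (V ≃ₗ[ℤ] V)) (H : Submodule ℤ V)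
    (hH : ∀ g, ∀ u ∈ H, η g u ∈ H) (x : GQ → V) (h1 : x 1 ∈ H)
    (co : ∀ g h, x (g * h) - (x g + η g (x h)) ∈ H) :
    ∃ M : Subgroup GQ, M.Normal ∧ ∀ g, g ∈ M ↔ η g = 1 ∧ x g ∈ H := by
  refine ⟨{ carrier := {g | η g = 1 ∧ x g ∈ H}
            one_mem' := ⟨map_one η, h1⟩
            mul_mem' := ?_
            inv_mem' := ?_ }, ⟨?_⟩, fun _ => Iff.rfl⟩
  · rintro g h ⟨g1, g2⟩ ⟨k1, k2⟩
    refine ⟨by rw [map_mul, g1, k1, mul_one], ?_⟩
    have := add_mem (co g h) (add_mem g2 (hH g _ k2))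
    rwa [sub_add_cancel] at this
  · rintro g ⟨g1, g2⟩
    refine ⟨by rw [map_inv, g1, inv_one], ?_⟩
    have h2 := co g⁻¹ g
    rw [inv_mul_cancel] at h2
    have := sub_mem (sub_mem h1 h2) (hH g⁻¹ _ g2)
    rwa [sub_sub_cancel, add_sub_cancel_right] at this
  · rintro g ⟨g1, g2⟩ a
    refine ⟨by rw [map_mul, map_mul, g1, mul_one, ← map_mul, mul_inv_cancel, map_one], ?_⟩
    have h2 := co (a * g) a⁻¹
    have h3 := co a g
    have h4 := co a a⁻¹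
    rw [map_mul, g1, mul_one] at h2
    rw [mul_inv_cancel] at h4
    have := add_mem (add_mem (add_mem h2 h3) (hH a _ g2)) (sub_mem h1 h4)
    change x (a * g * a⁻¹) ∈ H
    convert this using 1
    abel

theorem x_WbT (hBasT : BasT) (hUcT : UcT) (hActB : ActB) (hWaT : WaT) : WbT := by
  intro V _ _ d Λ ι S η₀ bb N q hW u v n hc hN
  obtain ⟨a1, a2, a3, a4, -⟩ := hWaT V d Λ ι S η₀ bb N q hW u v hc
  have hpre : ∀ g, Pre S.J (S.η g) := fun g =>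
    (hActB V S.J S.T hW.ok.cm.toCm0 S.η S.R S.e S.β S.σ S.τ hW.ok.gm hW.ok.tl (fun l hl => by
      obtain ⟨j, -, rfl⟩ := mem_image.1 hl
      exact hW.ok.pri j) g).1.1
  have hNn := hW.gn.adm.nrm
  obtain ⟨lt, hlt⟩ : ∃ lt, lt = FreeGroup.lift (ltr Λ S.τ bb) := ⟨_, rfl⟩
  obtain ⟨pw, hpw⟩ : ∃ pw, pw = S.pw η₀ bb q v := ⟨_, rfl⟩
  have l1 : ∀ l : Λ, lt (FreeGroup.of (Sum.inl l)) = S.τ l := fun l => by
    rw [hlt, FreeGroup.lift_apply_of]
    rfl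
  have l2 : ∀ b, lt (FreeGroup.of (Sum.inr b)) = bb b := fun b => by
    rw [hlt, FreeGroup.lift_apply_of]
    rfl
  have hgen := hW.gn.gen
  rw [← hlt] at hgen
  rw [← hlt, ← hpw] at a1 hN
  rw [← hpw] at a2 a3 a4
  have hmul : ∀ w w', (pw (w * w')).1 0 = S.η (lt w) ((pw w').1 0) + (pw w).1 0 := fun w w' => by
    rw [map_mul, ← a1]
    exact Q.aff_apply (pw w).1 ((pw w').1 0)
  have hone : (pw 1).1 0 = 0 := by
    rw [map_one]
    rfl
  have heta : ∀ g h, g⁻¹ * h ∈ N → S.η h = S.η g := fun g h e => by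
    have := hW.ker _ e
    rwa [map_mul, map_inv, inv_mul_eq_one, eq_comm] at this
  choose Wc hWc using fun c : GQ ⧸ N => hgen c.out
  have hWg : ∀ g : GQ, (lt (Wc g))⁻¹ * g ∈ N := fun g => by
    have h1 : (g : GQ ⧸ N).out⁻¹ * g ∈ N := QuotientGroup.eq.1 (QuotientGroup.out_eq' _)
    have := N.mul_mem (hWc g) h1
    rwa [mul_assoc, mul_inv_cancel_left] at this
  obtain ⟨x, hx⟩ : ∃ x : GQ → V, x = fun g : GQ => (pw (Wc g)).1 0 := ⟨_, rfl⟩
  have hx' : ∀ g : GQ, x g = (pw (Wc g)).1 0 := fun g => by rw [hx]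
  have key : ∀ w g, (lt w)⁻¹ * g ∈ N → x g - (pw w).1 0 ∈ Wn S.J n := fun w g h => by
    have h1 : lt (w⁻¹ * Wc g) ∈ N := by
      have := N.mul_mem h (N.inv_mem (hWg g))
      rwa [mul_inv_rev, inv_inv, mul_assoc, mul_inv_cancel_left, ← map_inv, ← map_mul] at this
    have h2 := hmul w (w⁻¹ * Wc g)
    rw [mul_inv_cancel_left] at h2
    rw [hx', h2, add_sub_cancel_right]
    exact (hpre _ _ _).2 (hN _ h1)
  have hNx : ∀ g ∈ N, x g ∈ Wn S.J n := fun g hg => by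
    have := key 1 g (by rwa [map_one, inv_one, one_mul])
    rwa [hone, sub_zero] at this
  have co : ∀ g h, x (g * h) - (x g + S.η g (x h)) ∈ Wn S.J n := fun g h => by
    have h1 := key (Wc g * Wc h) (g * h) (by
      have := N.mul_mem (hNn.conj_mem _ (hWg g) (lt (Wc h))⁻¹) (hWg h)
      convert this using 1
      rw [map_mul]
      group)
    rwa [hmul, ← hx', ← hx', ← heta _ _ (hWg g), add_comm] at h1
  refine ⟨x, ?_, co, fun g => ?_, ?_, fun g hg => ?_, fun j => ?_⟩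
  · refine ((hUcT V x).2 N hW.gn.adm.nhds).2 fun g h e => ?_
    rw [hx', hx', QuotientGroup.eq.2 e]
  · rw [hx']
    exact (pw _).2.2
  · obtain ⟨M, hM, hm⟩ := ker_XWbT S.η (Wn S.J n) (fun g u hu => (hpre g n u).2 hu) x
      (hNx 1 N.one_mem) co
    intro P hP g hg
    refine ((hm g).1 (hW.gn.unr M S.R hM (fun g hg => (hm g).2 ⟨hW.ker g hg, hNx g hg⟩)
      (fun l hl hR => (hm _).2 ⟨?_, ?_⟩) P hP g hg)).2
    · rw [← l1 ⟨l, hl⟩, ← a1, (a4 ⟨l, hl⟩ hR).1]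
      rfl
    · have := key (FreeGroup.of (Sum.inl ⟨l, hl⟩)) (S.τ l) (by
        rw [l1, inv_mul_cancel]
        exact N.one_mem)
      rw [(a4 ⟨l, hl⟩ hR).1] at this
      change x (S.τ l) - 0 ∈ _ at this
      rwa [sub_zero] at this
  · obtain ⟨b, hb⟩ := hW.gn.cov g hg
    have := key (FreeGroup.of (Sum.inr b)) g (by rwa [l2])
    rwa [a3, ← heta _ _ hb] at this
  · have := key (FreeGroup.of (Sum.inl (q j))) (S.τ (S.l j)) (by
      rw [l1, hW.l, inv_mul_cancel]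
      exact N.one_mem)
    rwa [a2] at this

end Pool.Agent.MP_e23604_nt.T

end

section

namespace Pool.Agent.MP_e23604_nt.T

open Finset Filter NumberField
open MP_f68ac8_nt (cyc IsFrob)
open MP_f68ac8_nt.Zv (Ex Prob piV Unf Bx)
open MP_f68ac8_nt.Zk (NS brL lk msk Av)
open MP_f68ac8_nt.Nd (Lr Fr Gz Exm fP kap np OKp)
open Q (Wn Pre rot0)
open scoped BigOperators Topology

theorem piV_XWcT {L Ω G : Type} [Group G] (V : Ω → L → G) (w : FreeGroup L) (ω : Ω) :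
    piV V w ω = FreeGroup.lift (V ω) w :=
  DFunLike.congr_fun (FreeGroup.ext_hom ((Pi.evalMonoidHom (fun _ => G) ω).comp (piV V))
    (FreeGroup.lift (V ω)) fun a => by simp [piV]) w

theorem mean_XWcT {L R G : Type} [Group G] [Fintype G] [Fintype R] {H : Subgroup (FreeGroup L)}
    {s : R → FreeGroup L} (h : Unf G H s) (V : L → G) (φ : G → ℂ) {w : FreeGroup L} (hw : w ∈ H) :
    𝔼 ρ, φ (FreeGroup.lift V (w * s ρ)) = 𝔼 ρ, φ (FreeGroup.lift V (s ρ)) := by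
  have h1 := h.2 Unit (fun _ => V) fun x => φ (x ())
  have h2 := h.2 Unit (fun _ => V) fun x => φ ((piV (fun _ : Unit => V) w * x) ())
  simp only [← map_mul, piV_XWcT] at h1 h2
  rw [h1, h2]
  have hm : piV (fun _ : Unit => V) w ∈ H.map (piV fun _ : Unit => V) := ⟨w, hw, rfl⟩
  exact Finset.expect_equiv (Equiv.mulLeft (piV (fun _ : Unit => V) w))
    (fun x => by
      simp only [mem_filter, mem_univ, true_and, Equiv.coe_mulLeft]
      exact (Subgroup.mul_mem_cancel_left _ hm).symm) fun _ _ => rfl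

theorem x_WcT (hBasT : BasT) (hFilT : FilT) (hLevS : LevS) (hWaT : WaT) (hWbT : WbT) : WcT := by
  intro V _ _ d Λ ι S η₀ bb N q hW hd u v n hc hn R _ s hs
  have hA := (hWaT V d Λ ι S η₀ bb N q hW u v hc).1
  have hB := hWbT V d Λ ι S η₀ bb N q hW u v n hc
  have h0 : Cm0 S.J S.T := hW.ok.cm.toCm0
  obtain ⟨b1, -, -, -, -, -, b7, -⟩ := hBasT V S.J S.T h0
  have hmul : ∀ w w', FreeGroup.lift (ltr Λ S.τ bb) w ∈ N → (S.pw η₀ bb q v (w * w')).1 0 =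
      (S.pw η₀ bb q v w').1 0 + (S.pw η₀ bb q v w).1 0 := fun w w' hw => by
    rw [map_mul]
    change (S.pw η₀ bb q v w).1 ((S.pw η₀ bb q v w').1 0) = _
    rw [Q.aff_apply, hA, hW.ker _ hw]
    rfl
  let H : AddSubgroup V :=
    { carrier := {t | ∃ w, FreeGroup.lift (ltr Λ S.τ bb) w ∈ N ∧ (S.pw η₀ bb q v w).1 0 = t}
      zero_mem' := ⟨1, by rw [map_one]; exact N.one_mem, by rw [map_one]; rfl⟩
      add_mem' := by
        rintro _ _ ⟨w, h1, rfl⟩ ⟨w', h2, rfl⟩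
        exact ⟨w' * w, by rw [map_mul]; exact N.mul_mem h2 h1, hmul w' w h2⟩
      neg_mem' := by
        rintro _ ⟨w, h1, rfl⟩
        refine ⟨w⁻¹, by rw [map_inv]; exact N.inv_mem h1, eq_neg_of_add_eq_zero_left ?_⟩
        rw [← hmul w w⁻¹ h1, mul_inv_cancel, map_one]
        rfl }
  have hHm : ∀ t ∈ H, t ∈ Wn S.J S.m := by
    rintro _ ⟨w, -, rfl⟩
    exact (S.pw η₀ bb q v w).2.2
  have hJ : ∀ t ∈ H, S.J t ∈ H := by
    rintro _ ⟨w, h1, rfl⟩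
    refine ⟨FreeGroup.of (Sum.inl (q ⟨0, hd⟩)) * (w * (FreeGroup.of (Sum.inl (q ⟨0, hd⟩)))⁻¹),
      ?_, ?_⟩
    · rw [← mul_assoc, map_mul, map_mul, map_inv]
      exact hW.gn.adm.nrm.conj_mem _ h1 _
    · rw [map_mul]
      change (S.pw η₀ bb q v (FreeGroup.of (Sum.inl (q ⟨0, hd⟩)))).1
        ((S.pw η₀ bb q v (w * (FreeGroup.of (Sum.inl (q ⟨0, hd⟩)))⁻¹)).1 0) = _
      rw [hmul _ _ h1, Q.aff_apply, map_add, map_inv]
      have e := Q.inv_zero (S.pw η₀ bb q v (FreeGroup.of (Sum.inl (q ⟨0, hd⟩)))).1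
      rw [InvMemClass.coe_inv, e, hA, FreeGroup.lift_apply_of, neg_add_cancel_comm]
      refine hW.ok.gm.tam _ ?_ S.m _ (S.pw η₀ bb q v w).2.2
      exact mem_image.2 ⟨⟨0, hd⟩, mem_univ _, hW.l _⟩
  obtain ⟨k, hk, hH, ht⟩ := (hLevS V S.J S.T h0).2.2 H S.m hJ hHm
  have hnk : n < k := by
    by_contra e
    exact hn (hB fun w hw => b1 k n (not_lt.1 e) ((hH _).1 ⟨w, hw, rfl⟩))
  obtain ⟨k, rfl⟩ : ∃ j, k = j + 1 := ⟨k - 1, by omega⟩
  obtain ⟨_, ⟨w₀, hw₀, rfl⟩, e₀⟩ := ht (by omega)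
  refine ⟨⟨k, hk⟩, Nat.le_of_lt_succ hnk, fun w hw => ?_⟩
  have hm := mean_XWcT hs (vT q (S.xr v) (S.xb η₀ bb))
    (fun g => (ZMod.stdAddChar (dig S.J S.T k ((S.pw η₀ bb q v w * g).1 0)) : ℂ)) (w := w₀) hw₀
  have e1 : ∀ ρ, dig S.J S.T k ((S.pw η₀ bb q v (w * (w₀ * s ρ))).1 0) =
      dig S.J S.T k ((S.pw η₀ bb q v (w * s ρ)).1 0) + 1 := fun ρ => by
    have c1 : (S.pw η₀ bb q v (w * s ρ)).1 0 ∈ Wn S.J (k + 1) :=
      (hH _).1 ⟨w * s ρ, by rw [map_mul]; exact N.mul_mem hw (hs.1 ρ), rfl⟩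
    rw [hmul _ _ hw, hmul _ _ hw₀, add_right_comm, ← hmul _ _ hw,
      (b7 k _ c1 _ ((hH _).1 ⟨w₀, hw₀, rfl⟩)).1]
    exact congrArg _ e₀
  change 𝔼 ρ, (ZMod.stdAddChar (dig S.J S.T k
      ((S.pw η₀ bb q v w * S.pw η₀ bb q v (w₀ * s ρ)).1 0)) : ℂ) =
    𝔼 ρ, (ZMod.stdAddChar (dig S.J S.T k
      ((S.pw η₀ bb q v w * S.pw η₀ bb q v (s ρ)).1 0)) : ℂ) at hm
  simp only [← map_mul, e1, AddChar.map_add_eq_mul, ← Finset.expect_mul] at hm
  have hne : (ZMod.stdAddChar (1 : ZMod 3) : ℂ) ≠ 1 := fun e =>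
    absurd (ZMod.injective_stdAddChar (e.trans (AddChar.map_zero_eq_one _).symm)) (by decide)
  by_contra e
  exact hne ((mul_eq_left₀ e).1 hm)

end Pool.Agent.MP_e23604_nt.T

end
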