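import Mathlib
import Pool.Agent.Mg.Fe23604m.G773521
import Pool.Agent.Mg.Fe23604m.Ga53936
import Pool.Agent.Mg.Fe23604m.G9a9246
import Pool.Agent.Mg.Fe23604m.G170b11
import Pool.Agent.Mg.Fe23604m.G81ce00
import Pool.Agent.Mg.Fe23604m.Ge40551
import Pool.Agent.Mg.Fe23604m.G8fa719
import Pool.Agent.Mg.Fe23604m.Geda5ab
import Pool.Agent.Mg.Fe23604m.Gd1f05f
import Pool.Agent.Mg.Fe23604m.G5a37e9
import Pool.Agent.Mg.Fe23604m.G33b5eb
import Pool.Agent.Mg.Fe23604m.Gc2eb89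
import Pool.Agent.Mg.Fe23604m.G68a179
import Pool.Agent.Mg.Fe23604m.G703f46
import Pool.Agent.Mg.Fe23604m.G9cfc16
import Pool.Agent.Mg.Fe23604m.G32031e
import Pool.Agent.Mg.Fe23604m.G922576
import Pool.Agent.Mg.Fe23604m.G96a91c
import Pool.Agent.Mg.Fe23604m.G731219
import Pool.Agent.Mg.Fe23604m.Gceef4d
import Pool.Agent.Mg.Fe23604m.G15e86f
import Pool.Agent.Mg.Fe23604m.Gfb348a
import Pool.Agent.Mg.Fe23604m.G3b0bd7
import Pool.Agent.Mg.Fe23604m.G5b82fb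
import Pool.Agent.Mg.Fe23604m.G87264a
import Pool.Agent.Mg.Fe23604m.G948b01
import Pool.Agent.Mg.Fe23604m.G8ef6b5
import Pool.Agent.Mg.Fe23604m.G9dbd5f
import Pool.Agent.Mg.Fe23604m.Gc8e0d8
import Pool.Agent.Mg.Fe23604m.G6f8f53
import Pool.Agent.Mg.Fe23604m.G70e9af
import Pool.Agent.Mg.Fe23604m.Ga0ccea
import Pool.Agent.Mg.Fe23604m.G39399d
import Pool.Agent.Mg.Fe23604m.G2acf73
import Pool.Agent.Mg.Fe23604m.G7e37be
import Pool.Agent.Mg.Fe23604m.G73916e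
import Pool.Agent.Mg.Fe23604m.G782618
import Pool.Agent.Mg.Fe23604m.Gdfcfd0
import Pool.Agent.Mg.Fe23604m.G4449cf
import Pool.Agent.Mg.Fe23604m.G72a8a1
import Pool.Agent.Mg.Fe23604m.G0259b6
import Pool.Agent.Mg.Fe23604m.G9ba472
import Pool.Agent.Mg.Fe23604m.Ga892ae
import Pool.Agent.Mg.Fe23604m.G8dd89a
import Pool.Agent.Mg.Fe23604m.G6d208c
import Pool.Agent.Mg.Fe23604m.G703b7e
import Pool.Agent.Mg.Fe23604m.G484369
import Pool.Agent.Mg.Fe23604m.G1ab185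
import Pool.Agent.Mg.Fe23604m.Gdae081
import Pool.Agent.Mg.Fe23604m.G127312
import Pool.Agent.Mg.Fe23604m.Gd7e37d
import Pool.Agent.Mg.Fe23604m.G97ad25
import Pool.Agent.Mg.Fe23604m.G8bc609
import Pool.Agent.Mg.Fe23604m.G68e188
import Pool.Agent.Mg.Fe23604m.G7536ce
import Pool.Agent.Mg.Fe23604m.Ga8cb8d
import Pool.Agent.Mg.Fe23604m.G17184a
import Pool.Agent.Mg.Fe23604m.Gda5ded
import Pool.Agent.Mg.Fe23604m.G10f289
import Pool.Agent.Mg.Fe23604m.G4b794c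
import Pool.Agent.Mg.Fe23604m.G12f457
import Pool.Agent.Mg.Fe23604m.Ga4921a
import Pool.Agent.Mg.Fe23604m.G5a8788
import Pool.Agent.Mg.Fe23604m.G013480
import Pool.Agent.Mg.Fe23604m.G15b961
import Pool.Agent.Mg.Fe23604m.Gb8e0cb
import Pool.Agent.Mg.Fe23604m.Ga3ea42
import Pool.Agent.Mg.Fe23604m.G4a4301
import Pool.Agent.Mg.Fe23604m.G25abcb
import Pool.Agent.Mg.Fe23604m.Gfe0a9f
import Pool.Agent.Mg.Fe23604m.Gbcb9c7
import Pool.Agent.Mg.Fe23604m.Gf56d7d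
import Pool.Agent.Mg.Fe23604m.G6e547d
import Pool.Agent.Mg.Fe23604m.G2dfde4
import Pool.Agent.Mg.Fe23604m.G7fef4a
import Pool.Agent.Mg.Fe23604m.G8fd3a1
import Pool.Agent.Mg.Fe23604m.G160902
import Pool.Agent.Mg.Fe23604m.G0675e6

set_option linter.all false

section

/-! Cubic twists: the assembly. -/

namespace Pool.Agent.MP_e23604_nt.T

end Pool.Agent.MP_e23604_nt.T

end

section

/-! The corank bound for almost all cubic twists. -/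

namespace Pool.Agent.MP_e23604_nt.T

end Pool.Agent.MP_e23604_nt.T

end

section

/-!
The density of the curves with finitely many points and finite Tate-Shafarevich group.
-/

set_option autoImplicit false

open Filter Topology
open scoped Classical

namespace Pool.Agent.MP_e23604_nt.W

open B R S

theorem fin_of (hISO : ISO_st) (hFAC : FAC_st) (hPLK : PLK_st) (hINE : INE_st) (hFIH : FIH_st)
    (hF : FINP_st) {D : ℕ} (hD : D ≠ 0) (hG : S.Gen D) (hC : Cork3 (EK (-432 * D ^ 2)))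
    (hp : par3 D = 0) :
    Finite (EK (-432 * D ^ 2)).toAffine.Point ∧ Finite (Sha (EK (-432 * D ^ 2))) := by
  obtain ⟨J, n, a, ψ, hP, hE, hi, hi', ha, e, hn⟩ :=
    inst_two JEX_ok S.GA_ok WP_ok FER_ok ISM_ok TABM_ok TABZ_ok hD hG
  have hc : (-432 * (D : ℤ) ^ 2) ≠ 0 :=
    mul_ne_zero (by norm_num) (pow_ne_zero _ (Nat.cast_ne_zero.2 hD))
  have hB := bex_of COV_ok S.PAR_ok S.FIN_ok FSQ_ok S.SHA_ok FG_ok hc hP hE hi hi' ha (e.trans hp) hC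
  obtain ⟨Ψ, -, hΨ⟩ := hISO D hD
  refine ⟨(S.RED_ok _ J _ n _ true hP _ ψ hc hE hB hC (FG_ok _ J _ n _ true hP _ ψ hc hE)).1,
    sha_fin FXP_ok hPLK hINE hFIH hF (tw_kum S.KAP_ok S.TAM_ok hFAC hPLK hD hP.sf hn)
      (hb_of hPLK hP.cm hP.ga hB Ψ fun g hg P => ?_) hc (ψ.symm.trans Ψ) fun g hg P => ?_⟩
  · rw [tw_pos _ hg, gA_apply, hΨ g hg]
  · obtain ⟨P, rfl⟩ := ψ.surjective P
    rw [← hE, AddEquiv.trans_apply, AddEquiv.trans_apply, ψ.symm_apply_apply, ψ.symm_apply_apply,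
      tw_pos _ hg, gA_apply, hΨ g hg]

end Pool.Agent.MP_e23604_nt.W

end

section

/-!
The facts of the earlier parts, collected.
-/

set_option autoImplicit false

namespace Pool.Agent.MP_e23604_nt.W

theorem SURJ_ok : SURJ_st := SURJ_of PLK_ok FRK_ok

theorem CYC1_ok : CYC1_st := CYC1_of CHB_ok KM_ok

theorem LZ_ok : LZ_st := LZ_of CHB_ok KM_ok

theorem H5_ok : H5 :=
  ⟨CARD_ok, QUO_ok, CYG_ok, PI_ok, PS_ok, THI_ok, NRM1_ok, UNIT_ok, CLO_ok, CONG_ok,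
    TAY_ok, FML_ok, DIV_ok, FRB_ok, INE_ok, SURJ_ok, CYC1_ok, ORB_of PLK_ok FRK_ok, DIST_ok, KM_ok,
    PLK_ok, FRK_ok, CHB_ok, TAME_ok, TPR_ok, CNJ_ok, LIN_ok, CUP_ok, UNB_ok, GRP_ok, RCP_ok, LOC3_ok,
    POW_ok, APXF_ok, ZC_pf, LZ_ok,
    LOW_pf (PRES_pf (KOCH_pf TPR_ok R2_ok KGEN_ok CNJ_ok PLK_ok LIN_ok) NUL_ok KGEN_ok PLK_ok)
      KGEN_ok PLK_ok FRK_ok TAME_ok KM_ok, GEN_ok⟩

theorem COI_ok : COI_st := COI_pf H5_ok

theorem COJ_ok : COJ_st := COJ_pf H5_ok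

theorem PFA_ok : PFA_st := PFA_pf H5_ok

theorem MUL_ok : MUL_st := MUL_pf H5_ok (PIG_pf H5_ok) PFA_ok

theorem STR_ok : STR_st := STR_pf H5_ok COI_ok (DVF_pf H5_ok)

theorem BZC_ok : BZC_st := BZC_pf H5_ok

end Pool.Agent.MP_e23604_nt.W

end
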