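import Pool.Agent.Mg.Fe23604m.G13e833
import Pool.Agent.Mg.Fe23604m.G463337
import Pool.Agent.Mg.Fe23604m.G5a860c

set_option linter.all false

/-!
The horizontal limit of Selmer structures along a sequence of inert primes: definitions.
-/

set_option autoImplicit false
set_option linter.dupNamespace false

open Finset Filter QuadraticAlgebra
open scoped Classical

namespace Pool.Agent.MP_e23604_nt.V

open B R S W

/-! ### The data -/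

/-- choices at the primes -/
structure Pk where
  V : Zw → Plc
  σ : Zw → GQ
  τ : Zw → GQ
  φ : Zw → GQ

/-- good choices -/
structure Pk.Ok (K : Pk) : Prop where
  tm : ∀ ϖ, PP ϖ → Ov (K.V ϖ) ϖ ∧ FK (K.V ϖ) ϖ (K.σ ϖ) ∧ K.τ ϖ ∈ (K.V ϖ).I ∧
    km 3 (K.τ ϖ) (K.V ϖ).l ≠ 0
  ine : ∀ l : ℕ, l.Prime → l % 3 = 2 →
    (K.V (-l)).l = l ∧ Y.In (K.V (-l)) (K.φ (-l)) ∧ K.σ (-l) = K.φ (-l) ^ 2
  gk : ∀ ϖ, K.σ ϖ ∈ GK ∧ K.τ ϖ ∈ GK

/-- the primary primes that divide `r` -/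
noncomputable def Tr (r : ℕ) : Finset Zw :=
  Classical.epsilon fun T => ∀ ϖ, ϖ ∈ T ↔ PP ϖ ∧ ϖ ∣ r

/-- those of degree one -/
noncomputable def Sz (r : ℕ) : Finset Zw := (Tr r).filter fun ϖ => (nn ϖ).Prime

/-- those of degree two -/
noncomputable def Bz (r : ℕ) : Finset Zw := (Tr r).filter fun ϖ => ¬ (nn ϖ).Prime

/-- the inert rational primes that divide `r` -/
def Bn (r : ℕ) : Finset ℕ := r.primeFactors.filter fun l => l % 3 = 2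

/-- the inertia groups outside `b` -/
def Ru (b : Zw) : Set GQ := {g | ∃ V : Plc, ¬ Ov V b ∧ g ∈ V.I}

/-- the cocycles that vanish on the decomposition group at three have bounded exponent -/
def HSt (χ : GQ → ZMod 3) (r : ℕ) : Prop :=
  ∃ k₀ : ℕ, ∀ (k : ℕ) (x : GQ → Pt), Cz χ GK x → Unr (3 * r) x → (∀ g ∈ V3.D, x g = 0) →
    (∀ g ∈ GK, 3 ^ k • x g = 0) → ∀ g ∈ GK, 3 ^ k₀ • x g = 0

/-- `P` gives a basis of the local points modulo `pw` -/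
structure Lb (χ : GQ → ZMod 3) (P : Fin 2 → Pt) : Prop where
  fx : ∀ i, Fx χ V3.D (P i)
  spn : ∀ Q, Fx χ V3.D Q → ∃ (a : Fin 2 → Zw) (Q' : Pt), Fx χ V3.D Q' ∧
    Q = ∑ i, a i • P i + pw • Q'
  ind : ∀ (a : Fin 2 → Zw) (Q' : Pt), Fx χ V3.D Q' → ∑ i, a i • P i = pw • Q' → ∀ i, pw ∣ a i

/-- the data -/
structure Dt (Λ : Type) [CommRing Λ] where
  E : Lm Λ
  r : ℕ
  χ : Bool → GQ → ZMod 3
  K : Pk
  q : ℕ → ℕ
  At : ∀ n : ℕ, GQ → ZMod (3 ^ n)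
  s₀ : Bool

section defs

variable {Λ : Type} [CommRing Λ]

namespace Dt

variable (Z : Dt Λ)

/-- the hypotheses -/
structure Ok : Prop where
  tw : ∀ ε, Tw (Z.χ ε) Z.r
  anti : ∀ ε, Y.Anti (Z.χ ε)
  mdl : ∀ ε, Y.Mdl (Z.χ ε)
  pk : Z.K.Ok
  qp : ∀ n, (Z.q n).Prime
  qd : ∀ n, 3 ^ (n + 3) * Z.r ∣ Z.q n + 1
  add : ∀ n, Adt GK (Z.At n)
  lc : ∀ n, Lc GK (Z.At n)
  odd : ∀ n, Y.Anti (Z.At n)
  unr : ∀ n, Unr (Z.q n) (Z.At n)
  one : ∀ n, Z.At n (Z.K.τ (-Z.q n)) = 1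
  spl : ∀ ϖ ∈ Sz Z.r, ∃ k : ℕ, ∀ n, k ≤ n → ¬ 3 ^ k ∣ (Z.At n (Z.K.σ ϖ)).val

/-- the two embeddings -/
def ph (ε : Bool) : Zw →+* Λ := if ε then Z.E.ι else Z.E.ι.comp (starRingEnd Zw)

/-- the horizontal character -/
noncomputable def ga (n : ℕ) (g : GQ) : Λ := (1 + Z.E.T) ^ (Z.At n g).val

/-- the characters -/
noncomputable def th (ε : Bool) (n : ℕ) (g : GQ) : Λ :=
  lamZ (Z.ph ε) (Z.χ ε) (ML Z.r n) g * Z.ga n g

/-- auxiliary primes of level `n` -/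
def ok (n l : ℕ) : Prop := l.Prime ∧ 3 ^ (n + 3) * Z.r ∣ l + 1 ∧ l ≠ Z.q n

/-- the residual ideals -/
def pn (n : ℕ) : Ideal Λ := Ideal.span {Z.E.ι pw} ⊔ Z.E.m ^ n

/-- the ideals at the origin -/
def tn (n : ℕ) : Ideal Λ := Ideal.span {Z.E.T} ⊔ Z.E.m ^ n

/-- the side of the class -/
def sd (S : Finset ℕ) : Bool := xor Z.s₀ (decide (Odd S.card))

/-- the side of the residual class -/
def sr (S : Finset ℕ) : Bool := xor (Z.sd (Bn Z.r)) (decide (Odd S.card))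

/-- the local condition at three in terms of points -/
def Kq (ε : Bool) (n : ℕ) (b : Ideal Λ) (f : GQ → Λ) : Prop :=
  ∃ M : Zw, M ∣ 3 ^ (n + 1) ∧ Z.ph ε M ∈ b ∧ N.Kum ((Ideal.Quotient.mk b).comp (Z.ph ε)) M (Z.χ ε)
    V3.D fun g => Ideal.Quotient.mk b (f g)

/-- systems of classes modulo the ideals `b n`, indexed by sets of primes with property `p n` -/
structure Ks (b : ℕ → Ideal Λ) (p : ℕ → ℕ → Prop) (s : Finset ℕ → Bool) (r : ℕ)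
    (κ : ℕ → Finset ℕ → GQ → Λ) : Prop where
  zf : ∀ n S, (∀ l ∈ S, p n l) →
    Zf (Z.th (s S) n) (Ru (3 * (r * Z.q n * ∏ l ∈ S, l : ℕ))) (b n) (κ n S)
  tq : ∀ n S, (∀ l ∈ S, p n l) → κ n S (Z.K.τ (-Z.q n)) ∈ b n
  kq : ∀ n S, (∀ l ∈ S, p n l) → Z.Kq (s S) n (b n) (κ n S)
  tr : ∀ n S, (∀ l ∈ S, p n l) → ∀ l ∈ S, κ n S (Z.K.σ (-l)) ∈ b n
  fs : ∀ n S l, (∀ l ∈ S, p n l) → p n l → l ∉ S → ∃ v, v ∉ Z.E.m ∧
    κ n (insert l S) (Z.K.τ (-l)) - v * κ n S (Z.K.σ (-l)) ∈ b n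

/-- the classes -/
abbrev K0 (κ : ℕ → Finset ℕ → GQ → Λ) : Prop := Z.Ks (fun n => Z.E.m ^ n) Z.ok Z.sd Z.r κ

/-- the residual classes -/
abbrev K1 (d : ℕ → Finset ℕ → GQ → Λ) : Prop :=
  Z.Ks Z.pn (fun n l => Z.ok n l ∨ l ∈ Bn Z.r) Z.sr 1 d

/-- the classes are multiples of the residual classes -/
def Red (κ d : ℕ → Finset ℕ → GQ → Λ) (i : ℕ) : Prop :=
  ∀ n S, (∀ l ∈ S, Z.ok n l) → ∃ v, v ∉ Z.E.m ∧ ∀ g ∈ GK, κ n S g - Z.E.ι pw ^ i *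
    (v * (∏ ϖ ∈ Sz Z.r, (Z.ga n (Z.K.σ ϖ) - 1)) * d n (S ∪ Bn Z.r) g) ∈
      Ideal.span {Z.E.ι pw ^ (i + 1)} ⊔ Z.E.m ^ n

/-- the residual class at `S₀` is not trivial at the origin -/
def Bas (d : ℕ → Finset ℕ → GQ → Λ) (S₀ : Finset ℕ) : Prop := S₀ ⊆ Bn Z.r ∧
  ∀ n, 1 ≤ n → ∃ h ∈ GK, ∃ c ∉ GK, Z.At n h = 0 ∧ d n S₀ h - d n S₀ (c * h * c⁻¹) ∉ Z.E.m

/-- the first class vanishes to the second order on commutators -/
def Dv (κ : ℕ → Finset ℕ → GQ → Λ) : Prop := ∃ j : ℕ, ∀ n, ∀ g ∈ GK, ∀ h ∈ GK,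
  3 ^ j * κ n ∅ (g * h * g⁻¹ * h⁻¹) ∈ Ideal.span {Z.E.T ^ 2} ⊔ Z.E.m ^ n

/-- the classes and the residual classes -/
structure Cls (κ d : ℕ → Finset ℕ → GQ → Λ) : Prop where
  ks : Z.K0 κ
  ds : Z.K1 d
  red : ∃ i, Z.Red κ d i
  bas : ∃ S₀, Z.Bas d S₀
  div : Z.Dv κ

/-- Selmer classes of growing order that are detected at the primes `q n` -/
def Xi : Prop := ∃ (k : ℕ) (ξ : ℕ → GQ → Pt), ∀ n, k ≤ n → SelU (Z.χ (!Z.s₀)) Z.r (ξ n) ∧
  (∀ g ∈ GK, 3 ^ (n + 1) • ξ n g = 0) ∧ 3 ^ (n + 1 - k) • ξ n (Z.K.σ (-Z.q n)) ≠ 0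

end Dt

/-- the ring of power series -/
structure Lx {O k : Type} [CommRing O] [Field k] (E : Lm (PowerSeries O)) (ϖ : O)
    (red : O →+* k) : Prop where
  T : E.T = PowerSeries.X
  ι : E.ι pw = PowerSeries.C ϖ
  pr : Prime ϖ
  un : ∀ x, ¬ ϖ ∣ x → IsUnit x
  sur : Function.Surjective red
  ker : ∀ x, red x = 0 ↔ ϖ ∣ x

/-! ### The choices -/

/-- the data with further choices -/
structure Mx (Λ : Type) [CommRing Λ] extends Dt Λ where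
  c : GQ
  c₃ : GQ
  x : Bool → GQ
  y : Fin 4 → GQ
  P : Bool → Fin 2 → Pt
  F : Bool → ℕ → Bool → Fin 4 → Λ
  wf : Bool → ℕ → GQ → Bool ⊕ Zw → Λ

/-- germs of sequences of primes -/
abbrev Gm : Type := Germ uf Zw

/-- the indices -/
abbrev JJ : Type := Bool ⊕ Gm

/-- a representative -/
noncomputable def sq (a : Gm) : ℕ → Zw := Quotient.out a

/-- constant germs -/
noncomputable def cs (ϖ : Zw) : JJ := .inr (ϖ : Gm)

/-- the index at level `n` -/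
noncomputable def jn (n : ℕ) : JJ → Bool ⊕ Zw := Sum.map id fun a => sq a n

/-- the primes at level `n` -/
noncomputable def Tn (A : Finset JJ) (n : ℕ) : Finset Zw := A.toRight.image fun a => sq a n

/-- the inertia groups outside three and `A` -/
noncomputable def Rn (A : Finset JJ) (n : ℕ) : Set GQ := Ru (3 * ∏ ϖ ∈ Tn A n, ϖ)

/-- the two indices at three -/
noncomputable def m1 : Finset JJ := {.inl true, .inl false}

namespace Mx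

variable (Z : Mx Λ)

/-- the generators -/
def gen : Bool ⊕ Zw → GQ := Sum.elim Z.x Z.K.τ

/-- the local cocycles -/
noncomputable def lo (ε : Bool) (n : ℕ) (i : Fin 2) (g : GQ) : Λ :=
  N.dl (Z.ph ε) (3 ^ (n + 1)) (Z.χ ε) g (Z.P ε i)

/-- the local condition at three -/
def Kl (ε : Bool) (n : ℕ) (b : Ideal Λ) (f : GQ → Λ) : Prop :=
  ∃ a : Fin 2 → Λ, ∀ g ∈ V3.D, f g - ∑ i, a i * Z.lo ε n i g ∈ b

/-- universal linear forms -/
def Uni (ε : Bool) (n : ℕ) (w : GQ → Bool ⊕ Zw → Λ) : Prop :=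
  ∀ T : Finset Zw, (∀ ϖ ∈ T, PP ϖ) → insert (-(Z.q n : Zw)) (Tr Z.r) ⊆ T →
    ∀ (R : Type) [CommRing R] (π : Λ →+* R) (f : GQ → R), (∀ a ∈ Z.E.m ^ n, π a = 0) →
      Co (fun g => π (Z.th ε n g)) GK f → Unr (3 * ∏ ϖ ∈ T, ϖ) f →
      ∀ g ∈ GK, f g = ∑ j ∈ (univ : Finset Bool).disjSum T, π (w g j) * f (Z.gen j)

/-- the rows at three cut out the span of the local cocycles -/
def Row (ε : Bool) (n : ℕ) (F : Bool → Fin 4 → Λ) : Prop :=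
  (∀ t i, ∑ k, F t k * Z.lo ε n i (Z.y k) ∈ Z.E.m ^ n) ∧
  ∀ b, Z.E.m ^ n ≤ b → ∀ v : Fin 4 → Λ, (∀ t, ∑ k, F t k * v k ∈ b) →
    ∃ a : Fin 2 → Λ, ∀ k, v k - ∑ i, a i * Z.lo ε n i (Z.y k) ∈ b

/-- the choices that do not depend on the level -/
structure Ok0 : Prop extends Z.toDt.Ok where
  cj : Y.Cj Z.c
  c3 : Z.c₃ ∈ Dec V3.v ∧ Z.c₃ ∉ GK
  xK : ∀ t, Z.x t ∈ GK
  x1 : W.cy 9 (Z.x true) ≠ 1
  x2 : W.cy 9 (Z.x false) = 1
  x3 : km 3 (Z.x false) (W.io pw) ≠ 0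
  yD : ∀ k, Z.y k ∈ V3.D
  dm : ∀ (A : Type) [AddCommGroup A] (a : GQ → A), Adt V3.D a → Lc V3.D a →
    (∀ g ∈ V3.D, 3 • a g = 0) → (∀ i, a (Z.y i) = 0) → ∀ g ∈ V3.D, a g = 0
  lb : ∀ ε, Lb (Z.χ ε) (Z.P ε)

/-- good choices -/
structure Ok : Prop extends Z.Ok0 where
  row : ∀ ε n, Z.Row ε n (Z.F ε n)
  uni : ∀ ε n, Z.Uni ε n (Z.wf ε n)

/-- the germ of the primes `q n` -/
noncomputable def qg : JJ := .inr (Germ.ofFun fun n => -(Z.q n : Zw))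

/-- the split primes of the twist -/
noncomputable def Sg : Finset JJ := (Sz Z.r).image cs

/-- the inert primes of the twist -/
noncomputable def Bg : Finset JJ := (Bz Z.r).image cs

/-- the base vertex -/
noncomputable def m0 : Finset JJ := m1 ∪ (Tr Z.r).image cs

/-- a base vertex of the residual system -/
noncomputable def _root_.Pool.Agent.MP_e23604_nt.V.mb (S₀ : Finset ℕ) : Finset JJ :=
  m1 ∪ S₀.image fun l : ℕ => cs (-(l : Zw))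

/-- the auxiliary germs -/
def L : Set JJ := {j | ∃ a, j = .inr a ∧ ∀ᶠ n in uf, ∃ l : ℕ, sq a n = -l ∧ Z.ok n l}

/-- the auxiliary germs of the residual system -/
def L' : Set JJ := Z.L ∪ Z.Bg

/-- admissible sets of indices -/
def Ad (A : Finset JJ) : Prop := Vx (insert Z.qg Z.m0) Z.L A

/-- the generators as sequences -/
noncomputable def gj (j : JJ) : GG := fun n => Z.gen (jn n j)

/-- the Frobenius elements as sequences -/
noncomputable def sg : JJ → GG := Sum.elim (fun _ => 1) fun a n => Z.K.σ (sq a n)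

/-- the limit forms -/
noncomputable def fm (ε : Bool) (g : GG) (j : JJ) : Λ := Z.E.L fun n => Z.wf ε n (g n) (jn n j)

/-- the first coefficient of the tame relation -/
noncomputable def mu (ε : Bool) (j : JJ) : Λ := 1 - Z.E.ev (Z.th ε) (Z.gj j)

/-- the second coefficient of the tame relation -/
noncomputable def nu (ε : Bool) : JJ → Λ := Sum.elim (fun _ => 0) fun a => Z.E.L fun n =>
  Z.th ε n (Z.K.σ (sq a n)) - ∑ i ∈ range (nn (sq a n)), Z.th ε n (Z.K.τ (sq a n)) ^ i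

/-- the tame relation -/
noncomputable def rel (ε : Bool) (j : JJ) : JJ → Λ :=
  Z.mu ε j • Z.fm ε (Z.sg j) + Z.nu ε j • Pi.single j 1

/-- the quotient of the coefficients -/
noncomputable def be (ε : Bool) (j : JJ) : Λ :=
  Classical.epsilon fun β => Z.mu ε j * β = Z.nu ε j

/-- the rows -/
noncomputable def w (ε : Bool) : JJ → JJ → Λ
  | .inl t => ∑ k, (Z.E.L fun n => Z.F ε n t k) • Z.fm ε fun _ => Z.y k
  | .inr a => if .inr a ∈ Z.Sg then Z.rel ε (.inr a) else if .inr a ∈ Z.Bg then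
      Z.fm ε (Z.sg (.inr a)) + Z.be ε (.inr a) • Pi.single (.inr a) 1 else Z.fm ε (Z.sg (.inr a))

/-- the units in the reciprocity law -/
noncomputable def u (ε : Bool) : JJ → Λ := Sum.elim (fun _ => 0) fun a => Z.E.L fun n =>
  (((km (3 ^ (n + 1)) (Z.K.τ (sq a n)) (Z.K.V (sq a n)).l)⁻¹.val : ℕ) : Λ) *
    Z.th ε n (Z.c * (Z.K.φ (sq a n))⁻¹)

/-- the sides -/
noncomputable def s (m : Finset JJ) : Bool :=
  xor (Z.sd (Bn Z.r)) (decide (Odd (m \ (m1 ∪ Z.Sg)).card))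

/-- limits of cocycles -/
def LC (ε : Bool) (P : Ideal Λ) (A : Finset JJ) (f : ℕ → GQ → Λ) : Prop :=
  LZ Z.E P (Z.th ε) (Rn A) f

/-- limits of cocycles with the local condition at three -/
def LS (ε : Bool) (P : Ideal Λ) (A : Finset JJ) (f : ℕ → GQ → Λ) : Prop :=
  ∃ k : ℕ → ℕ, Tendsto k uf atTop ∧ ∀ n, k n ≤ n ∧
    Zf (Z.th ε n) (Rn A n) (P ⊔ Z.E.m ^ k n) (f n) ∧ Z.Kl ε n (P ⊔ Z.E.m ^ k n) (f n)

/-- `x` is the vector of the values of `f` at the generators -/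
def Rv (P : Ideal Λ) (A : Finset JJ) (x : JJ →₀ Λ) (f : ℕ → GQ → Λ) : Prop :=
  x.support ⊆ A ∧ ∀ j ∈ A, x j - Z.E.ev f (Z.gj j) ∈ P

/-- the vector of values -/
noncomputable def vec (A : Finset JJ) (f : ℕ → GQ → Λ) : JJ →₀ Λ :=
  ∑ j ∈ A, Finsupp.single j (Z.E.ev f (Z.gj j))

/-- the rational primes at level `n` -/
noncomputable def Sn (A : Finset JJ) (n : ℕ) : Finset ℕ := (Tn A n).image fun ϖ => (Z.K.V ϖ).l

/-- the class of a vertex -/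
noncomputable def kq (m₀ : Finset JJ) (κ : ℕ → Finset ℕ → GQ → Λ) (m : Finset JJ) (n : ℕ) :
    GQ → Λ := κ n (Z.Sn (m \ m₀) n)

/-- its vector -/
noncomputable def kv (m₀ : Finset JJ) (κ : ℕ → Finset ℕ → GQ → Λ) (m : Finset JJ) : JJ →₀ Λ :=
  Z.vec m (Z.kq m₀ κ m)

/-- the coboundary -/
noncomputable def bv (ε : Bool) : JJ →₀ Λ :=
  Z.vec (insert Z.qg Z.m0) fun n g => Z.th ε n g - 1

/-- the elements that act trivially modulo `P` -/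
def Uq (P : Ideal Λ) (h : GG) : Prop :=
  ∀ n, h n ∈ UM (ML Z.r n) ∧ (Z.E.T ∈ P ∨ Z.At n (h n) = 0)

variable {R : Type} [CommRing R]

/-- the rows in a test ring -/
noncomputable def wt (ϑ : Λ →+* R) (ε : Bool) (i j : JJ) : R := ϑ (Z.w ε i j)

/-- the units in a test ring -/
noncomputable def ut (ϑ : Λ →+* R) (ε : Bool) (j : JJ) : R := ϑ (Z.u ε j)

end Mx

/-- vectors in a test ring -/
noncomputable def vt {R : Type} [CommRing R] (ϑ : Λ →+* R) (x : JJ →₀ Λ) : JJ →₀ R :=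
  x.mapRange ϑ (map_zero ϑ)

/-- `ϑ` is onto with kernel generated by `a` -/
structure Rd {R : Type} [CommRing R] (ϑ : Λ →+* R) (a : Λ) : Prop where
  sur : Function.Surjective ϑ
  ker : ∀ x, ϑ x = 0 ↔ a ∣ x

end defs

end Pool.Agent.MP_e23604_nt.V
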