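import Pool.Agent.Mg.Fe23604m.Gac7c91
import Pool.Agent.Mg.Fe23604m.G8dd564
import Pool.Agent.Mg.Fe23604m.Ge36c45

set_option linter.all false

section

/-!
The data of the horizontal limit that belong to a pair of twists.
-/

set_option autoImplicit false

open Finset QuadraticAlgebra
open scoped Classical

namespace Pool.Agent.MP_e23604_nt.X

open B R S W

/-- the horizontal character is the ring class character, and the inertia elements are generators -/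
structure Std {Λ : Type} [CommRing Λ] (Z : V.Dt Λ) : Prop where
  at' : ∀ n g, Z.At n g = ((N.Al (Z.q n) g).val : ZMod (3 ^ n))
  gen : ∀ l : ℕ, l.Prime → l % 3 = 2 → N.Al l (Z.K.τ (-l)) = 1

/-- existence of the data -/
def DAT_st : Prop := ∀ (Λ : Type) [CommRing Λ] (E : Lm Λ) (χ χ' : GQ → ZMod 3) (r : ℕ) (s : Bool),
  Pair χ χ' r → ∃ Z : V.Dt Λ, Z.E = E ∧ Z.r = r ∧ Z.s₀ = s ∧ Z.χ (!s) = χ ∧ Z.χ s = χ' ∧
    Z.Ok ∧ Z.Xi ∧ Std Z

theorem pk_Dat (hR : N.RAM_st) (hF : N.FRI_st) : ∃ K : V.Pk, K.Ok ∧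
    ∀ l : ℕ, l.Prime → l % 3 = 2 → N.Al l (K.τ (-l)) = 1 := by
  have k : ∀ ϖ : Zw, ∃ (V : Plc) (σ τ φ : GQ), (σ ∈ GK ∧ τ ∈ GK) ∧ (PP ϖ →
      (Ov V ϖ ∧ FK V ϖ σ ∧ τ ∈ V.I ∧ km 3 τ V.l ≠ 0) ∧ N.Al V.l τ = 1 ∧
        (V.l % 3 = 2 → Y.In V φ ∧ σ = φ ^ 2)) := fun ϖ => by
    by_cases h : PP ϖ
    swap
    · exact ⟨V3, 1, 1, 1, ⟨GK.one_mem, GK.one_mem⟩, fun a => absurd a h⟩
    obtain ⟨V, hV⟩ := PLK_ok.2.1 ϖ h.1
    have h3 : V.l ≠ 3 := fun e => hV.cop ((pw_prime.coprime_iff_not_dvd.2 h.2.pw).symm)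
      (Ov_three.1 (by simpa [e] using Ov_l V))
    obtain ⟨τ, t1, t2, t3⟩ := hR V h3
    have t4 := V.D_le (V.I_le t1)
    by_cases e : V.l % 3 = 2
    · obtain ⟨a1, a2, -, ⟨f, hf⟩, a4⟩ := hF V e
      have : ϖ = -V.l := PLK_ok.2.2.2.2.2.2.2.1 _ _ h a1 (((PLK_ok.2.2.1 V ϖ h.1 hV).1 _).1 a2)
      have a5 : FK V ϖ (f ^ 2) := by rw [this, sq]; exact (a4 f hf).2.1
      exact ⟨V, f ^ 2, τ, f, ⟨V.D_le a5.1, t4⟩, fun _ => ⟨⟨hV, a5, t1, t3⟩, t2,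
        fun _ => ⟨⟨e, hf⟩, rfl⟩⟩⟩
    · obtain ⟨σ, hσ⟩ := (FRK_ok V ϖ h.1 hV).1
      exact ⟨V, σ, τ, 1, ⟨V.D_le hσ.1, t4⟩, fun _ => ⟨⟨hV, hσ, t1, t3⟩, t2, fun e' => absurd e' e⟩⟩
  choose V σ τ φ h0 h1 using k
  have hp : ∀ l : ℕ, l.Prime → l % 3 = 2 → PP (-l) ∧ (V (-l)).l = l := fun l hl e => by
    have := Fact.mk hl
    have a : PP (-l) := (hF ⟨l, 1⟩ e).1
    have b := (h1 _ a).1.1
    generalize V (-l) = W at b ⊢
    rw [← neg_one_mul, Ov_mul, or_iff_right (not_Ov_unit _ isUnit_one.neg), PLK_ok.2.2.2.1] at b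
    exact ⟨a, (Nat.prime_dvd_prime_iff_eq W.hl.out hl).1 b⟩
  refine ⟨⟨V, σ, τ, φ⟩, ⟨fun ϖ h => (h1 ϖ h).1, fun l hl e => ?_, h0⟩, fun l hl e => ?_⟩
  · obtain ⟨a, b⟩ := hp l hl e
    exact ⟨b, (h1 _ a).2.2 (b.symm ▸ e)⟩
  · obtain ⟨a, b⟩ := hp l hl e
    have := (h1 _ a).2.1
    rwa [b] at this

theorem ml_Dat {q m : ℕ} (h : 3 * m ∣ q + 1) : q % 3 = 2 ∧ N.ml q = q + 1 := by
  have : 3 ∣ q + 1 := (dvd_mul_right 3 m).trans h
  have e : q % 3 = 2 := by omega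
  exact ⟨e, by rw [N.ml, if_pos e]⟩

theorem three_Dat (hL : N.LU_st) (hA : N.AL_st) {q m : ℕ} (hq : q.Prime) (h : 3 * m ∣ q + 1)
    (hm : Odd m) {V : Plc} (hV : V.l = 3) {g : GQ} (hg : g ∈ V.D) :
    ((N.Al q g).val : ZMod m) = 0 := by
  obtain ⟨e1, e2⟩ := ml_Dat h
  have h3 : q ≠ 3 := by omega
  obtain ⟨-, l1, -, l3, l4, -⟩ := hL q hq h3
  have hd : m ∣ N.ml q := e2 ▸ (dvd_mul_left m 3).trans h
  have hp : ¬ pw ∣ (q : Zw) := fun e => by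
    rw [pw_dvd_iff, nn_nat] at e
    have := Nat.prime_three.dvd_of_dvd_pow e
    omega
  have cp : IsCoprime pw (q : Zw) := pw_prime.coprime_iff_not_dvd.2 hp
  obtain ⟨e, k, he, hk, -⟩ := dpi_all (Ov_three.1 (by simpa [hV] using Ov_l V)) hp hg ∅
  let F : Zw → ZMod m := fun u => ZMod.castHom hd (ZMod m) (N.lu q u)
  have F0 : ∀ u v, IsCoprime u (q : Zw) → IsCoprime v (q : Zw) → F u = 0 → F v = 0 →
      F (u * v) = 0 := fun u v a b c d => by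
    simp only [F] at *
    rw [l1 u v a b, map_add, c, d, add_zero]
  have F1 : ∀ (u : Zw) (z : ℤ), IsCoprime u (q : Zw) → u = z → F u = 0 := fun u z a b => by
    simp only [F]
    rw [(l3 u a).2 ⟨z, by simp [b]⟩, map_zero]
  have F2 : ∀ (u : Zw) (i : ℕ), IsCoprime u (q : Zw) → F u = 0 → F (u ^ i) = 0 := fun u i a b => by
    induction i with
    | zero => exact F1 _ 1 (by simpa using isCoprime_one_left) (by simp)
    | succ i ih => rw [pow_succ]; exact F0 _ _ a.pow_left a ih b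
  have cw : IsCoprime (ω : Zw) (q : Zw) := (isCoprime_one_left.of_isCoprime_of_dvd_left w_unit.dvd)
  have Fw : F ω = 0 := by
    have : m ∣ N.ml q / 3 := by
      rw [e2]
      exact Nat.dvd_div_of_mul_dvd h
    simp only [F]
    rw [ZMod.castHom_apply, ZMod.cast_eq_val, ZMod.natCast_eq_zero_iff]
    rcases l4 with a | a <;> rw [a]
    exacts [this, this.mul_left _]
  have Fp : F pw = 0 := by
    have a := F1 (pw * pw) (-3) (cp.mul_left cp) (by decide)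
    simp only [F] at a ⊢
    rw [l1 _ _ cp cp, map_add, ← two_mul] at a
    have u : IsUnit ((2 : ℕ) : ZMod m) := (ZMod.isUnit_iff_coprime 2 m).2 (by simpa using hm)
    exact (u.mul_right_eq_zero).1 (by simpa using a)
  have ce : IsCoprime (e : Zw) (q : Zw) := by
    rcases he with rfl | rfl
    · simpa using isCoprime_one_left
    · simpa using isCoprime_one_left.neg_left
  rw [((hA q hq h3).2.2.2.1 g (V.D_le hg)).2.1 _ hk, ← ZMod.cast_eq_val,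
    ← ZMod.castHom_apply (h := hd)]
  exact F0 _ _ (ce.mul_left cw.pow_left) cp.pow_left
    (F0 _ _ ce cw.pow_left (F1 _ e ce rfl) (F2 _ _ cw Fw)) (F2 _ _ cp Fp)

theorem mem_Tr_Dat {r : ℕ} (h : r ≠ 0) (ϖ : Zw) : ϖ ∈ V.Tr r ↔ PP ϖ ∧ ϖ ∣ r := by
  refine Classical.epsilon_spec (p := fun T : Finset Zw => ∀ ϖ, ϖ ∈ T ↔ PP ϖ ∧ ϖ ∣ (r : Zw)) ?_ ϖ
  obtain ⟨T, h1, -⟩ := ex_primes_LOW PLK_ok (b := r) (Nat.cast_ne_zero.2 h)
  exact ⟨T, h1⟩

theorem DAT_pf (hR : N.RAM_st) (hF : N.FRI_st) (hL : N.LU_st) (hA : N.AL_st) (hC : CQ_st) :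
    DAT_st := by
  intro Λ _ E χ χ' r s hP
  obtain ⟨K, k1, k2⟩ := pk_Dat hR hF
  obtain ⟨k, hk⟩ := hC χ r hP.tw hP.an hP.nb
  choose q ξ q1 q2 q3 q4 q5 q6 q7 using fun n => hk (max n k) (le_max_right _ _) 0
  have qd : ∀ n, 3 ^ (n + 3) * r ∣ q n + 1 := fun n =>
    (mul_dvd_mul_right (pow_dvd_pow 3 (by omega)) r).trans (q3 n)
  have q9 : ∀ n, 3 * 3 ^ n ∣ q n + 1 := fun n => by
    refine Dvd.dvd.trans ?_ ((dvd_mul_right _ r).trans (qd n))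
    rw [← pow_succ']
    exact pow_dvd_pow 3 (by omega)
  have e1 := fun n => (ml_Dat (q9 n)).1
  have hd : ∀ n, 3 ^ n ∣ N.ml (q n) := fun n =>
    (ml_Dat (q9 n)).2 ▸ (dvd_mul_left _ 3).trans (q9 n)
  have h3 : ∀ n, q n ≠ 3 := fun n => by have := e1 n; omega
  have hc : ∀ n (x : ZMod (N.ml (q n))), (x.val : ZMod (3 ^ n)) =
      ZMod.castHom (hd n) (ZMod (3 ^ n)) x := fun n x => by
    rw [ZMod.castHom_apply, ZMod.cast_eq_val]
  have hX : ∀ (P : (GQ → ZMod 3) → Prop), P χ → P χ' → ∀ ε, P (if ε = s then χ' else χ) :=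
    fun P a b ε => by split_ifs <;> assumption
  refine ⟨⟨E, r, fun ε => if ε = s then χ' else χ, K, q,
    fun n g => ((N.Al (q n) g).val : ZMod (3 ^ n)), s⟩, rfl, rfl, rfl, by simp, by simp,
    ⟨hX (Tw · r) hP.tw hP.tw', hX _ hP.an hP.an', hX _ hP.md hP.md', k1, q1, qd,
      fun n g hg h hh => ?_, fun n => ?_, fun n c hc' g hg => ?_, fun n V hV τ hτ => ?_,
      fun n => ?_, fun ϖ hϖ => ⟨k, fun n hn => ?_⟩⟩, ⟨k, ξ, fun n hn => ?_⟩, fun _ _ => rfl, k2⟩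
  · simp only [hc, (hA _ (q1 n) (h3 n)).1 g hg h hh, map_add]
  · exact (hA _ (q1 n) (h3 n)).2.1.map fun x => (x.val : ZMod (3 ^ n))
  · simp only [hc, ((hA _ (q1 n) (h3 n)).2.2.2.1 g hg).2.2 c hc', map_neg]
  · by_cases e : V.l = 3
    · exact three_Dat hL hA (q1 n) (q9 n) (Odd.pow (by decide)) e (V.I_le hτ)
    · simp only [hc, ((hA _ (q1 n) (h3 n)).2.2.2.2.2.1 V (fun a => hV (by simpa [a] using Ov_l V)) e).1 τ hτ,
        map_zero]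
  · simp only [hc, k2 _ (q1 n) (e1 n), map_one]
  · obtain ⟨a1, a2⟩ := mem_filter.1 hϖ
    obtain ⟨b1, b2⟩ := (mem_Tr_Dat hP.tw.sf.ne_zero ϖ).1 a1
    obtain ⟨c1, c2, -⟩ := k1.tm ϖ b1
    have c3 : (K.V ϖ).l ∣ r := (PLK_ok.2.2.2.1 _ _).1 (c1.dvd b2)
    have c4 : (K.V ϖ).l ≠ q n := fun e => (q1 n).one_lt.ne' (Nat.dvd_one.1
      ((Nat.dvd_add_right dvd_rfl).1 ((e ▸ c3).trans ((dvd_mul_left _ _).trans (qd n)))))
    dsimp only
    rw [((hA _ (q1 n) (h3 n)).2.2.2.2.2.1 _ c4 fun e => hP.tw.n3 (e ▸ c3)).2.1 ϖ _ b1 c1 c2,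
      ZMod.val_natCast, Nat.dvd_mod_iff (pow_dvd_pow 3 hn)]
    have := q7 n ϖ b1 a2 b2
    exact this
  · have e : max n k = n := max_eq_left hn
    have a4 := q4 n
    have a5 := q5 n
    obtain ⟨b1, b2, b3⟩ := k1.ine _ (q1 n) (e1 n)
    have a6 := q6 n _ _ b1 b2
    rw [e] at a5 a6
    exact ⟨by simpa using a4, a5, by dsimp only; rwa [b3]⟩

end Pool.Agent.MP_e23604_nt.X

end

section

/-!
The test elements and the last step of the argument.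
-/

set_option autoImplicit false

open Finset QuadraticAlgebra
open scoped Classical

namespace Pool.Agent.MP_e23604_nt.X

open B R S W

variable {Λ : Type} [CommRing Λ]

theorem nat_G0 (E : Lm Λ) {c : ℕ} (hc : c ≠ 0) : ¬ E.T ∣ (c : Λ) := by
  obtain ⟨a, b, hb, rfl⟩ := Nat.exists_eq_pow_mul_and_not_dvd hc 3 (by norm_num)
  have u : IsUnit (b : Λ) := E.unit _ fun e => by
    obtain ⟨x, y, h⟩ := Nat.isCoprime_iff_coprime.2 ((Nat.prime_three.coprime_iff_not_dvd).2 hb)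
    have h' := congrArg (Int.cast : ℤ → Λ) h
    push_cast at h'
    exact E.ne (h' ▸ E.m.add_mem (E.m.mul_mem_left _ E.three_mem) (E.m.mul_mem_left _ e))
  rw [Nat.cast_mul, u.dvd_mul_right, Nat.cast_pow]
  exact fun e => E.T3 (by simpa using E.pT.dvd_of_dvd_pow e)

/-- the test elements -/
theorem ex_G0 (hL : N.LU_st) (hA : N.AL_st) (Z : V.Dt Λ) (h : Z.Ok) (hS : Std Z) :
    ∃ g₀ : GG, (∀ n, g₀ n ∈ UM (9 * Z.r) ∧ N.Al (Z.q n) (g₀ n) = 0) ∧ Inc GK g₀ ∧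
      ∀ ε, ¬ Z.E.T ∣ Z.E.ev (Z.th ε) g₀ - 1 := by
  have r0 := (h.tw true).sf.ne_zero
  have k : ∀ n, ∃ g, (g ∈ UM (9 * Z.r) ∧ N.Al (Z.q n) g = 0) ∧
      ∀ ε, Z.th ε n g - (1 + 9 * Z.r) ∈ Z.E.m ^ n := fun n => by
    have q1 := h.qp n
    have q2 := h.qd n
    have q3 : 1 + 9 * Z.r < Z.q n := by
      have a := Nat.le_of_dvd (Nat.succ_pos _) q2
      have b : 27 ≤ 3 ^ (n + 3) := by
        rw [pow_add]
        exact Nat.le_mul_of_pos_left _ (by positivity)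
      have := Nat.mul_le_mul_right Z.r b
      omega
    have q4 : Z.q n ≠ 3 := by omega
    have c1 : IsCoprime (1 + 9 * Z.r : Zw) (Z.q n) := by
      have := Nat.isCoprime_iff_coprime.2
        ((Nat.coprime_of_lt_prime (by omega) q3 q1).symm)
      simpa using this.map (Int.castRingHom Zw)
    have c2 : IsCoprime (1 + 9 * Z.r : Zw) (9 * Z.r) := ⟨1, -1, by ring⟩
    have c3 : IsCoprime (1 + 9 * Z.r : Zw) (ML Z.r n) :=
      (c2.of_isCoprime_of_dvd_right ⟨3 * Z.r, by ring⟩).pow_right.mul_right c2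
    have m0 : ML Z.r n ≠ 0 := mul_ne_zero (pow_ne_zero _ (by decide))
      (mul_ne_zero (by decide) (Nat.cast_ne_zero.2 r0))
    obtain ⟨g, hg, e⟩ := SURJ_ok (ML Z.r n * Z.q n) (1 + 9 * Z.r)
      (mul_ne_zero m0 (Nat.cast_ne_zero.2 q1.ne_zero)) ⟨3 * Z.r, by ring⟩ (c3.mul_right c1)
    have g1 : g ∈ UM (9 * Z.r) := ⟨hg, fun P hP => by
      rw [e P (dvd_smul hP ((dvd_mul_left _ _).mul_right _)), add_smul, hP, one_smul, add_zero]⟩
    have g2 : N.Al (Z.q n) g = 0 := by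
      rw [((hA _ q1 q4).2.2.2.1 g hg).2.1 _ fun P hP => e P (dvd_smul hP (dvd_mul_left _ _))]
      exact ((hL _ q1 q4).2.2.2.1 _ c1).2 ⟨1 + 9 * Z.r, by simp⟩
    refine ⟨g, ⟨g1, g2⟩, fun ε => ?_⟩
    obtain ⟨t, ht⟩ := (((PS_ok _ m0).1 g hg).2.2.2.2.1 _).1 fun P hP =>
      e P (dvd_smul hP (dvd_mul_right _ _))
    rw [V.Dt.th, V.Dt.ga, hS.at', g2, lamZ, (h.tw ε).fac g g1, sub_eq_iff_eq_add.1 ht, ML]
    simp only [ZMod.val_zero, Nat.cast_zero, pow_zero, mul_one, one_mul, map_add, map_mul, map_pow,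
      map_one, map_natCast, map_ofNat, add_sub_cancel_right]
    rw [pow_succ, mul_assoc, mul_assoc]
    exact Ideal.mul_mem_right _ _ (Ideal.pow_mem_pow Z.E.three_mem n)
  choose g h1 h2 using k
  refine ⟨g, h1, fun n => (h1 n).1.1, fun ε => ?_⟩
  rw [Lm.ev, (Z.E.congr (y := fun _ => 1 + 9 * Z.r) fun n => h2 n ε).trans (Z.E.const _),
    add_sub_cancel_left]
  simpa using nat_G0 Z.E (c := 9 * Z.r) (by positivity)

/-- a multiple is divisible by the square of the variable -/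
theorem sq_G0 [IsDomain Λ] (E : Lm Λ) {c : ℕ} (hc : c ≠ 0) {x : ℕ → Λ}
    (h : ∀ n, c * x n ∈ Ideal.span {E.T ^ 2} ⊔ E.m ^ n) : E.T ^ 2 ∣ E.L x := by
  have := E.mem_of (k := id) uf_le h
  rw [E.L_mul, E.const, Ideal.mem_span_singleton] at this
  exact E.pT.pow_dvd_of_dvd_mul_left 2 (nat_G0 E hc) this

end Pool.Agent.MP_e23604_nt.X

end
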