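import Pool.Agent.Mg.Fe23604m.G463337

set_option linter.all false

/-!
Rank one and finiteness from the bound for the exponent.
-/

set_option autoImplicit false

open Finset QuadraticAlgebra
open scoped Classical

namespace Pool.Agent.MP_e23604_nt.Y

open B R S W

theorem fun_FIN {M : Type} [AddCommGroup M] (hM : AddGroup.FG M) (x : M)
    (hx : ∀ n : ℕ, n ≠ 0 → n • x ≠ 0) :
    Module.finrank ℤ M ≠ 0 ∧ ∃ φ : M →ₗ[ℤ] ℤ, φ x ≠ 0 := by
  have hf : Module.Finite ℤ M := Module.Finite.iff_addGroup_fg.2 hM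
  have h0 : x ∉ Submodule.torsion ℤ M := by
    rintro ⟨⟨a, ha⟩, e⟩
    exact hx a.natAbs (Int.natAbs_ne_zero.2 (nonZeroDivisors.ne_zero ha))
      (natAbs_nsmul_eq_zero.2 e)
  refine ⟨fun h => h0 (Module.finrank_eq_zero_iff_isTorsion.1 h (x := x)), ?_⟩
  by_contra h
  push Not at h
  refine h0 ((Submodule.Quotient.mk_eq_zero _).1 ?_)
  let b := Module.Free.chooseBasis ℤ (M ⧸ Submodule.torsion ℤ M)
  exact b.ext_elem fun i => by
    rw [map_zero]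
    exact h (b.coord i ∘ₗ (Submodule.torsion ℤ M).mkQ)

theorem lin_FIN {K : Type} [AddCommGroup K] [Module Zw K] (f : K →+ ℤ) :
    ∃ F : K → Zw, (∀ P, (F P).re = f P) ∧ ∀ (d : Zw) P, F (d • P) = d * F P := by
  have h1 : ∀ (d : Zw) (P : K), f (d • P) = d.re * f P + d.im * f ((ω : Zw) • P) := fun d P => by
    conv_lhs => rw [Zw_eq d, add_smul, mul_smul, Int.cast_smul_eq_zsmul, Int.cast_smul_eq_zsmul,
      map_add, map_zsmul, map_zsmul, smul_eq_mul, smul_eq_mul]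
  refine ⟨fun P => ⟨f P, -f ((ω : Zw) • P)⟩, fun _ => rfl, fun d P => ?_⟩
  ext
  · simp [h1 d P]
  · simp [← mul_smul, h1 (ω * d) P]
    ring

theorem cork_FIN {W : WeierstrassCurve ℚ} (hC : Cork3 W)
    (h0 : Module.finrank ℤ W.toAffine.Point ≠ 0) : Module.finrank ℤ W.toAffine.Point = 1 ∧
      ∃ C : ℕ, C ≠ 0 ∧ ∀ (k : ℕ) (x : Sha W), 3 ^ k • x = 0 → C • x = 0 := by
  obtain ⟨C, hC⟩ := hC
  have h1 : ∀ k : ℕ, 1 ≤ (shaTors W (3 ^ k)).encard := fun k =>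
    Set.one_le_encard_iff_nonempty.2 ⟨0, zero_mem _, smul_zero _⟩
  have h2 : Module.finrank ℤ W.toAffine.Point = 1 := by
    by_contra h
    have e := (mul_le_mul_left (h1 C) _).trans (hC C)
    rw [one_mul] at e
    have e2 : 3 ^ (C * Module.finrank ℤ W.toAffine.Point) ≤ C * 3 ^ C := by exact_mod_cast e
    have e3 : 3 ^ (C + C) ≤ 3 ^ (C * Module.finrank ℤ W.toAffine.Point) :=
      Nat.pow_le_pow_right (by norm_num) (by
        rw [← mul_two]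
        exact Nat.mul_le_mul_left _ (by omega))
    have e4 := Nat.le_of_mul_le_mul_right ((pow_add 3 C C).symm.le.trans (e3.trans e2))
      (by positivity)
    exact absurd (Nat.lt_pow_self (by norm_num)) (not_lt.2 e4)
  refine ⟨h2, C.factorial, C.factorial_ne_zero, fun k x hx => ?_⟩
  have e := hC k
  rw [Cn, h2, mul_one, ENat.mul_le_mul_right_iff (pow_ne_zero _ three_ne_zero)
    (ENat.pow_ne_top_iff.2 (Or.inl (ENat.natCast_ne_top 3)))] at e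
  have fo : IsOfFinAddOrder x := isOfFinAddOrder_iff_nsmul_eq_zero.2 ⟨3 ^ k, by positivity, hx⟩
  have e2 : (Subtype.val '' (AddSubgroup.zmultiples x : Set (Sha W))).encard ≤ C := by
    refine le_trans (Set.encard_le_encard ?_) e
    rintro _ ⟨_, ⟨i, rfl⟩, rfl⟩
    refine ⟨(i • x).2, ?_⟩
    rw [← AddSubgroup.coe_nsmul, smul_comm, hx, smul_zero]
    rfl
  rw [Subtype.val_injective.encard_image, ← fo.finite_zmultiples.cast_ncard_eq,
    ← Nat.card_coe_set_eq, SetLike.coe_sort_coe, Nat.card_zmultiples, Nat.cast_le] at e2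
  exact addOrderOf_dvd_iff_nsmul_eq_zero.1 (Nat.dvd_factorial fo.addOrderOf_pos e2)

theorem sha_FIN {χ : GQ → ZMod 3} {r N C : ℕ} (hT : Tw χ r) (N0 : N ≠ 0) (C0 : C ≠ 0)
    (hN : ∀ (p k : ℕ) (x : GQ → Pt), p.Prime → p ≠ 3 → SelK χ x → (∀ g ∈ GK, p ^ k • x g = 0) →
      Bz χ GK fun g => N • x g) {c : ℤ} (hc : c ≠ 0)
    (h3 : ∀ (k : ℕ) (x : Sha (EK c)), 3 ^ k • x = 0 → C • x = 0) (Φ : Pts (EK c) Qb ≃+ Pt)
    (hΦ : ∀ g ∈ GK, ∀ P, Φ (galQ (EK c) g P) = eta χ g (Φ P)) : Finite (Sha (EK c)) := by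
  have := EK_ell hc
  have rep : ∀ m : ℕ, m ≠ 0 → ∀ x : Sha (EK c), m • x = 0 → ∃ ξ : Z1 (galQ (EK c)),
      QuotientAddGroup.mk ξ = x.1 ∧ (∀ g, m • ξ.1 g = 0) ∧ SelK χ fun g => Φ (ξ.1 g) := by
    intro m hm x hx
    obtain ⟨ξ, h1, h2, h3⟩ := sha_rep (EK c) (Nat.pos_of_ne_zero hm) x.2 (congrArg Subtype.val hx)
    refine ⟨ξ, h1, h2, ⟨((lc_iff.1 ξ.2.1).mono le_top).map _, fun g hg j _ => by
      simp only [ξ.2.2 g j, map_add, hΦ g hg]⟩, fun V => ?_⟩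
    obtain ⟨P, hP⟩ := inl_conj (η := gA (EK c)) (fun g _ j _ => ξ.2.2 g j) V
      (apx_one S.FXP_ok V.l hm hc ξ.2 h2 (h3 V.l))
    exact ⟨Φ P, fun g hg => by
      rw [← hΦ g hg.2, ← map_sub]
      exact congrArg Φ (hP g hg.1)⟩
  have h1 : ∀ x : Sha (EK c), (C * (2 * N)) • x = 0 := fun x => by
    obtain ⟨m, m0, hm⟩ := h1_tors _ x.1
    refine grp_kill (fun p k hp x hx => ?_) m m0 x (Subtype.ext hm)
    by_cases e3 : p = 3
    · rw [mul_comm, mul_smul, h3 k x (e3 ▸ hx), smul_zero]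
    obtain ⟨ξ, a1, a2, a3⟩ := rep _ (pow_ne_zero k hp.ne_zero) x hx
    obtain ⟨P, hP⟩ := hN p k _ hp e3 a3 fun g _ => by rw [← map_nsmul, a2, map_zero]
    obtain ⟨Q, hQ⟩ := res_two (η := gA (EK c)) (H := ⊤) (ξ := fun g => N • ξ.1 g)
      (fun g _ j _ => by simp only [ξ.2.2 g j, smul_add, map_nsmul, gA_apply])
      ⟨Φ.symm P, fun g hg => Φ.injective (by
        rw [R.dd, gA_apply, map_sub, hΦ g hg.2, Φ.apply_symm_apply, ← hP g hg.2, map_nsmul])⟩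
    have e : (2 * N) • x = 0 := by
      refine Subtype.ext ?_
      change (2 * N) • x.1 = 0
      rw [← a1]
      refine (QuotientAddGroup.eq_zero_iff ((2 * N) • ξ)).2 ⟨Q, ?_⟩
      rintro g _ rfl
      exact (mul_smul 2 N _).trans (hQ g trivial)
    rw [mul_smul, e, smul_zero]
  refine Set.finite_univ_iff.1 ((grp_fin (fun p hp => ?_) (C * (2 * N)) (by positivity)).subset
    fun x _ => h1 x)
  have r0 : (r : Zw) ≠ 0 := Nat.cast_ne_zero.2 hT.sf.ne_zero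
  have p0 : (p : Zw) ≠ 0 := Nat.cast_ne_zero.2 hp.ne_zero
  obtain ⟨U, u1, u2, hU⟩ := FIH_ok p 1 (UM (p * (9 * r))) (3 * r * p) hp
    (mul_ne_zero (mul_ne_zero (by decide) r0) p0)
    (UM_open (mul_ne_zero p0 (mul_ne_zero (by decide) r0))) (UM_le _)
  have : Finite (GQ ⧸ U) := Subgroup.quotient_finite_of_isOpen U u1.2
  have h2 : {ξ : Z1 (galQ (EK c)) | (∀ g, p • ξ.1 g = 0) ∧ ∀ g ∈ U, ξ.1 g = 0}.Finite := by
    refine Set.Finite.of_finite_image (f := fun ξ (q : GQ ⧸ U) => Φ (ξ.1 q.out))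
      ((Set.Finite.pi' fun _ => fin_tor p0).subset ?_) fun ξ h ξ' h' e => Subtype.ext (funext ?_)
    · rintro _ ⟨ξ, h, rfl⟩ q
      change (p : Zw) • Φ _ = 0
      rw [Nat.cast_smul_eq_nsmul, ← map_nsmul, h.1, map_zero]
    · intro g
      obtain ⟨u, hu⟩ := QuotientGroup.mk_out_eq_mul U g
      have := Φ.injective (congrFun e (g : GQ ⧸ U))
      rwa [hu, ξ.2.2, ξ'.2.2, h.2 _ u.2, h'.2 _ u.2, add_left_inj] at this
  refine Set.Finite.of_finite_image (f := Subtype.val)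
    ((h2.image QuotientAddGroup.mk).subset ?_) Subtype.val_injective.injOn
  rintro _ ⟨x, hx, rfl⟩
  obtain ⟨ξ, a1, a2, a3⟩ := rep p hp.ne_zero x hx
  have a4 : ∀ g, p • Φ (ξ.1 g) = 0 := fun g => by rw [← map_nsmul, a2, map_zero]
  refine ⟨ξ, ⟨a2, fun g hg => Φ.map_eq_zero_iff.1 (hU Pt (fun g => Φ (ξ.1 g))
    (fun g hg j hj => ?_) (a3.1.1.mono (UM_le _)) (fun g _ => by rw [pow_one, a4])
    (fun V hV τ hτ => selK_unr INE_ok hT a3 (fun g _ => a4 g) V hV τ hτ.1) g hg)⟩, a1⟩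
  refine (a3.1.2 g hg.1 j hj.1).trans ?_
  rw [eta_apply, hT.fac g (UM_mono (dvd_mul_left _ _) hg), ZMod.val_zero, pow_zero, one_smul,
    UM_mono (dvd_mul_right _ _) hg |>.2 _ (by rw [Nat.cast_smul_eq_nsmul, a4])]

theorem rk_FIN {W W' : WeierstrassCurve ℚ} (e : W = W') (d d' : DecidableEq ℚ) :
    (letI := d; Module.finrank ℤ W.toAffine.Point) =
      (letI := d'; Module.finrank ℤ W'.toAffine.Point) := by
  subst e
  cases Subsingleton.elim d d'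
  rfl

theorem tr_FIN {A : Type} [AddCommGroup A] {J : A ≃ₗ[ℤ] A} {η : Act A} {n : ℕ} (hJ : Cm3 J)
    (hη : S.Ga J n η) {y : A} (hy : ∀ n : ℕ, n ≠ 0 → n • y ≠ 0) :
    ∃ s : A →+ A, (∀ P, (∀ g ∈ GK, η g P = P) → ∀ g, η g (s P) = s P) ∧
      ∀ n : ℕ, n ≠ 0 → n • s y ≠ 0 := by
  obtain ⟨c, hc⟩ := ex_notGK
  have hm : ∀ g h (P : A), η (g * h) P = η g (η h P) := fun g h P => by rw [map_mul]; rfl
  have h1 : ∀ P, (∀ g ∈ GK, η g P = P) → ∀ g, η g (P + η c P) = P + η c P := fun P hP g => by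
    rw [map_add, ← hm]
    by_cases hg : g ∈ GK
    · rw [hP g hg, show g * c = c * (c⁻¹ * g * c) by group, hm, hP _ (GK_on.1.conj_mem' g hg c)]
    · rw [hP _ (GK_mul hg hc), show g = c * (c⁻¹ * g) by group, hm,
        hP _ (GK_mul (by rwa [GK.inv_mem_iff]) hg), add_comm]
  by_cases h : ∀ n : ℕ, n ≠ 0 → n • (y + η c y) ≠ 0
  · exact ⟨AddMonoidHom.id A + (η c).toLinearMap.toAddMonoidHom, h1, h⟩
  push Not at h
  obtain ⟨m, m0, e⟩ := h
  refine ⟨(AddMonoidHom.id A + (η c).toLinearMap.toAddMonoidHom).comp (S.wo J).toAddMonoidHom,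
    fun P hP => h1 (S.wo J P) fun g hg => ?_, fun k k0 e' => ?_⟩
  · rw [← tw_pos η hg, ← wo_tw hJ hη, hP g hg]
  · change k • (S.wo J y + η c (S.wo J y)) = 0 at e'
    have e1 := wo_tw hJ hη c y
    rw [tw_neg η hc] at e1
    have e2 := congrArg (S.wo J) e'
    rw [← neg_neg (η c _), ← e1, map_nsmul, map_add, map_neg, wo_wo hJ, wo_wo hJ, map_zero] at e2
    refine hy (k * m * 6) (by positivity) ?_
    have e3 : (k * m * 6) • y = (3 * k) • m • (y + η c y) - m • k • (-(3 • y) + - -(3 • η c y)) := by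
      module
    rw [e3, e, e2, smul_zero, smul_zero, sub_zero]

attribute [local instance 2000] decQ

theorem FINY_pf (hKOY : KOY_st) : FINY_st := by
  intro D χ χ' r B y₀ y₁ y₂ hD hG hC hχ hT hT' hS hy
  obtain ⟨J, n, a, ψ, hP, hE, -⟩ :=
    inst_two JEX_ok S.GA_ok WP_ok FER_ok ISM_ok TABM_ok TABZ_ok hD hG
  have hc : (-432 * (D : ℤ) ^ 2) ≠ 0 :=
    mul_ne_zero (by norm_num) (pow_ne_zero _ (Nat.cast_ne_zero.2 hD))
  obtain ⟨Ψ, -, hΨ0⟩ := W.ISO_ok D hD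
  have hΨ : ∀ g ∈ GK, ∀ P, Ψ (galQ (E3 0 D) g P) = eta χ g (Ψ P) := fun g hg P => by
    rw [hΨ0 g hg, eta_apply, eta_apply, hχ g hg]
  have hF := FG_ok _ J _ n _ true hP _ ψ hc hE
  generalize (-432 * (D : ℤ) ^ 2) = c at *
  have hA : Anti χ := fun c hc g hg => by
    have k := (S.KAP_ok.1 D (Nat.cast_ne_zero.2 hD)).1
    have k1 := k 1 trivial 1 trivial
    have k2 := k c trivial c⁻¹ trivial
    rw [mul_one, ep_pos GK.one_mem] at k1
    rw [mul_inv_cancel, ep_neg hc] at k2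
    rw [hχ g hg, hχ _ (GK_on.1.conj_mem g hg c), mul_assoc, k c trivial _ trivial,
      k g trivial _ trivial, ep_neg hc, ep_pos hg]
    linear_combination 2 * (-k1) - 2 * k2
  have e0 : EK c = (EK c).baseChange ℚ := by ext <;> simp [WeierstrassCurve.baseChange]
  obtain ⟨s, hs, hs'⟩ := tr_FIN hP.cm hP.ga (y := Ψ.symm y₀) fun n hn e =>
    hy n hn (by rw [← Ψ.apply_symm_apply y₀, ← map_nsmul, e, map_zero])
  let K : Submodule Zw Pt :=
    { carrier := {P | Fx χ GK P}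
      zero_mem' := fun g _ => map_zero _
      add_mem' := fun h h' g hg => by rw [map_add, h g hg, h' g hg]
      smul_mem' := fun b P h g hg => by rw [eta_smul χ hg, h g hg] }
  have ex : ∀ P : K, ∃ P₀ : Pts (EK c) ℚ, rp (EK c) Qb P₀ = ψ (s (Ψ.symm P)) := fun P => by
    obtain ⟨P₀, e⟩ := S.FXP_ok (EK c) ℚ (ψ (s (Ψ.symm P))) fun σ => (hE σ _).symm.trans
      (congrArg ψ (hs _ (fun g hg => Ψ.injective (by
        rw [tw_pos _ hg, gA_apply, hΨ g hg, Ψ.apply_symm_apply, P.2 g hg])) σ))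
    refine ⟨P₀, ?_⟩
    rw [← e, rp, Subsingleton.elim (Rat.castHom Qb) (algebraMap ℚ Qb)]
    rfl
  choose t ht using ex
  obtain ⟨r0, φ, hφ⟩ := fun_FIN (M := Pts (EK c) ℚ) (fg_SRED e0 _ decQ hF) (t ⟨y₀, hS.g0⟩)
    fun n hn e =>
    hs' n hn (ψ.injective (by rw [map_nsmul, ← ht ⟨y₀, hS.g0⟩, ← map_nsmul, e, map_zero, map_zero]))
  obtain ⟨F, f1, f2⟩ := lin_FIN (AddMonoidHom.mk' (fun P : K => φ (t P)) fun P Q => by
    rw [← map_add]
    refine congrArg φ (act_inj (EK c) (Rat.castHom Qb) ?_)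
    change rp (EK c) Qb _ = rp (EK c) Qb _
    rw [map_add, ht, ht, ht, Submodule.coe_add, map_add, map_add, map_add])
  have hN : Nd χ y₀ := by
    refine ⟨F ⟨y₀, hS.g0⟩, fun e => hφ ((f1 _).symm.trans (by rw [e]; rfl)), fun a d z hz e => ?_⟩
    have : d • (⟨z, hz⟩ : K) = a • (⟨y₀, hS.g0⟩ : K) := Subtype.ext e
    exact ⟨F ⟨z, hz⟩, by rw [← f2, ← this, f2]⟩
  obtain ⟨N, N0, hN⟩ := hKOY χ χ' r B y₀ y₁ y₂ hT hT' hA ⟨_, E3_ell hD, Ψ, hΨ⟩ hS hN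
  obtain ⟨h1, C, C0, h3⟩ := cork_FIN hC fun e => r0 ((rk_FIN e0 _ decQ).symm.trans e)
  refine ⟨h1, sha_FIN hT N0 C0 hN hc h3 (ψ.symm.trans Ψ) fun g hg P => ?_⟩
  obtain ⟨P, rfl⟩ := ψ.surjective P
  rw [← hE, AddEquiv.trans_apply, AddEquiv.trans_apply, ψ.symm_apply_apply, ψ.symm_apply_apply,
    tw_pos _ hg, gA_apply, hΨ g hg]

end Pool.Agent.MP_e23604_nt.Y
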