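import Pool.Agent.Mg.Fe23604m.G74d811

set_option linter.all false

/-!
The local conditions of the descent.
-/

set_option autoImplicit false

open Finset QuadraticAlgebra
open scoped Classical

namespace Pool.Agent.MP_e23604_nt.Y

open B R S W

theorem ovp_LOY {W : Plc} {l : ℕ} (hl : l.Prime) : Ov W l ↔ W.l = l := by
  rw [PLK_ok.2.2.2.1, Nat.prime_dvd_prime_iff_eq W.hl.out hl]

theorem ov3_LOY {W : Plc} : Ov W 3 ↔ W.l = 3 := ovp_LOY Nat.prime_three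

theorem bd_LOY {W : Plc} {χ : GQ → ZMod 3} {τ : GQ} (h3 : W.l ≠ 3) (hτ : τ ∈ W.I) (h0 : χ τ = 0)
    (P : Pt) : E1 W.v (bd χ P τ) := by
  rw [bd, eta_apply, h0, ZMod.val_zero, pow_zero, one_smul]
  exact (INE_ok W (fun h => h3 (ov3_LOY.1 h)) τ hτ).1 P

theorem sah_LOY {R : Type} [CommRing R] {φ : Zw →+* R} {r p n : ℕ} {M ϖ d : Zw} {G : Pt} {c : GQ}
    (h : KD φ r p n M ϖ d G c) {χ : GQ → ZMod 3} (tw : Tw χ r) {W : Plc} (hW : W.l = p)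
    (hv : ¬ Ov W ϖ) {y : GQ → Pt} (cz : Cz χ W.D y) (hk : ∀ g ∈ W.D, ((p ^ n : ℕ) : Zw) • y g = 0)
    (he : ∀ k ∈ W.I, χ k = 0 → E1 W.v (y k)) (s : R) :
    Bo (lamZ φ χ M) W.D fun g => s * ic φ G (y g) := by
  obtain ⟨v, v1, v2, -, v3⟩ := PLK_ok.1 W
  have pv := v3 (hW ▸ h.p3)
  obtain ⟨⟨σ, fk⟩, -, -, hσ⟩ := FRK_ok W v v1 v2
  have co := (((COI_ok R φ _ G h.q0' h.gen h.φq).2.2 χ r M tw h.ne h.dr h.dq).2 W.D W.D_le).1 y cz hk
  have nv : ¬ Ov W (ϖ ^ n) := fun e => hv (Ov_pow e)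
  have n0 : ϖ ^ n ≠ 0 := pow_ne_zero _ h.pr.ne_zero
  have e1 : φ (ps M σ) = φ v := by
    refine congr_XCOI ((h.qt.ker _).2 dvd_rfl) ?_
    have a1 := (((PS_ok _ n0).1 σ fk.1.2).2.2.2.2.1 v).1 fun P hP =>
      ((FRB_ok W v pv v2).2 σ fk).2 _ P nv hP
    have a2 := ((PS_ok _ n0).1 σ fk.1.2).2.2.2.2.2.2.2.2 M h.ne
      ((h.qe ▸ dvd_mul_right _ _ : ϖ ^ n ∣ _).trans h.dq)
    simpa using dvd_add a2 a1
  have un : IsUnit (lamZ φ χ M σ - 1) := by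
    rw [lamZ, map_mul, e1, ← map_mul, ← map_one φ, ← map_sub]
    refine h.unit fun e => h.an v pv
      (((PLK_ok.2.2.1 W v v1 v2).1 _).1 ((ovp_LOY h.pp).2 hW)) (2 * (χ σ).val) ?_
    convert e.mul_left (ω ^ (2 * (χ σ).val)) using 1
    have : (ω : Zw) ^ (2 * (χ σ).val) * ω ^ (χ σ).val = 1 := by
      rw [← pow_add, ← Nat.succ_mul, pow_mul, www, one_pow]
    linear_combination (-v) * this
  obtain ⟨u, hu⟩ := un.exists_left_inv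
  refine ⟨s * u * ic φ G (y σ), fun g hg => ?_⟩
  have f2 : FK W v (g⁻¹ * σ * g) := by
    refine ⟨W.D.mul_mem (W.D.mul_mem (W.D.inv_mem hg) fk.1) hg, fun z hz => ?_⟩
    have := fk.2 (g z) (by rwa [(W.mem_D.1 hg).1])
    rw [← (W.mem_D.1 hg).1, map_sub, map_pow, ← AlgEquiv.mul_apply, ← mul_assoc, ← mul_assoc,
      mul_inv_cancel, one_mul, AlgEquiv.mul_apply]
    exact this
  have kI := (hσ σ fk).1 _ f2
  have kD := W.I_le kI
  have ek : g * σ * (σ⁻¹ * (g⁻¹ * σ * g)) = σ * g := by group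
  have k0 : χ (σ⁻¹ * (g⁻¹ * σ * g)) = 0 := by
    have a1 := tw.add _ (GK.mul_mem hg.2 fk.1.2) _ kD.2
    rw [ek, tw.add _ hg.2 _ fk.1.2, tw.add _ fk.1.2 _ hg.2] at a1
    linear_combination -a1
  have k1 : ic φ G (y (σ⁻¹ * (g⁻¹ * σ * g))) = 0 := (h.ic0 (hk _ kD)).2
    (E1_tor (E1m (he _ kI k0) _).1 nv (by rw [← mul_smul, ← h.qe, hk _ kD]))
  have a2 := co.2 _ (W.D.mul_mem hg fk.1) _ kD
  have a3 := co.2 _ hg _ fk.1
  have a4 := co.2 _ fk.1 _ hg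
  simp only [ek, k1] at a2 a3 a4 ⊢
  linear_combination (-s * ic φ G (y g)) * hu + s * u * (a2 + a3 - a4)

theorem LOY_pf (hINF : INF_st) (hAL : AL_st) (hRCS : RCS_st) (hISK : ISK_st) (hCJ : CJ_st) :
    LOY_st := by
  intro R _ φ r p n l' M ϖ d N G P₂ c F j χ x c₂ V h tw anti mdl hN sel hk hV hM hF lp l3 hM' cl W hW
  obtain ⟨cK, cD, cE, cL, cG⟩ := hCJ c h.cj
  obtain ⟨mu, dual⟩ := cL χ r _ M R φ j tw anti h.ne h.st h.dr h.dq h.φM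
  obtain ⟨i1, -, i3⟩ := COI_ok R φ _ G h.q0' h.gen h.φq
  obtain ⟨i4, i5⟩ := i3 χ r M tw h.ne h.dr h.dq
  have i0 : ic φ G 0 = 0 := by simpa using i1 0
  have cx := (i5 GK le_rfl).1 x sel.1 hk
  have cX : Co (lamZ φ χ M) GK fun g => φ N * ic φ G (x g) :=
    ⟨cx.1.map _, fun g hg k hk => by
      have := cx.2 g hg k hk
      simp only at this ⊢
      rw [this]
      ring⟩
  have key := (hRCS R p n j c _ _ _ h.pp h.n1 h.cj mu dual cX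
    ((i5 GK le_rfl).1 c₂ cl.cz cl.tor)).1.2.2 W
  have one := ((((LZ_ok χ r M tw h.ne h.dr).2.2 R φ h.φM).1 _ j h.dq).1).one
  have unr : ∀ U : Plc, ¬ Ov U M → ∀ τ ∈ U.I, x τ = 0 := fun U hU =>
    (BZC_ok χ x tw.add).1 (3 * r) (p ^ n : ℕ) U tw.unr
      (fun e => hU (e.dvd ⟨1, by rw [h.hM]; ring⟩)) (sel.2 U) fun g hg => hk g hg.2
  by_cases h1 : W.l = V.l
  · obtain ⟨pp, ov, -, -, fk, -, -, -, -, -, hD, -⟩ := hINF.2.2 V F hV
    have nV : ¬ Ov V M := by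
      obtain ⟨k, e⟩ := hM
      exact (Ov_l V).cop ⟨-1, k, by linear_combination -e⟩
    have dU := (hD M h.ne nV).2 hM
    have van := van_HIVK (a := fun g => ic φ G (x g))
      ((FRK_ok V _ pp.1 ov).2.2.2 _ fk).2.2.2.1 V.I_le fk.1
      (fun g hg k hk => by simpa [one g (dU hg)] using cx.2 g hg.2 k hk.2) (cx.1.mono V.D_le)
      (fun τ hτ => by rw [unr V nV τ hτ, i0]) hF
    refine key (Or.inl ((((CNJ_ok R _).2 V (W.mv c) _ mu pp.1 ov ?_).1 _ cX).1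
      ⟨0, fun g hg => ?_⟩))
    · exact (Ov_l (W.mv c)).dvd (h1 ▸ (dvd_neg.2 dvd_rfl))
    · simp only [van g hg, mul_zero]
  have ku : ∀ g ∈ GK, (∀ l : ℕ, l.Prime → l % 3 = 2 → W.l ≠ l → Al l g = 0) → c₂ g = bd χ P₂ g :=
    fun g hg e => cl.ku g hg fun l hl => by
      rcases mem_insert.1 hl with rfl | hl
      · exact e _ V.hl.out hV.l3 h1
      · rw [mem_singleton.1 hl]
        exact e _ lp l3 hW
  obtain ⟨P, hP⟩ := sel.2 (W.mv c)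
  by_cases h2 : W.l % 3 = 2
  · have k2 : ∀ g ∈ W.D, c₂ g = bd χ P₂ g := fun g hg => ku g hg.2 fun l a b e =>
      (hAL l a b).2.2.2.2.2.2.2.2.1 W h2 e g hg
    have k1 : ∀ g ∈ W.D, x (c * g * c) = gal c (bd χ (gal c P) g) := fun g hg =>
      (hP _ ((cD W g).1.1 hg)).trans (cE χ anti g hg.2 P).2
    have k3 : ∀ g ∈ W.D, ((p ^ n : ℕ) : Zw) • bd χ (gal c P) g = 0 := fun g hg => by
      rw [← gal_ne c, gal_star h.cj.nk, star_natCast, ← k1 g hg, hk _ ((cK g).1 hg.2)]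
    have fx : ∀ Q : Pt, (∀ g ∈ W.D, ((p ^ n : ℕ) : Zw) • bd χ Q g = 0) →
        Fx χ W.D (((p ^ n : ℕ) : Zw) • Q) := fun Q hQ g hg => by
      rw [eta_smul χ hg.2, ← sub_eq_zero, ← smul_sub]
      exact hQ g hg
    obtain ⟨b, b1, b2⟩ := hISK χ _ G R j φ W.D (gal c P) P₂ mdl h.q0 h.gen W.D_le (fx _ k3)
      (fx _ fun g hg => k2 g hg ▸ cl.tor g hg.2)
    obtain ⟨e, -, he⟩ := cG _ G c h.q0 h.gen h.cj.nk
    refine ⟨fun g => φ N * φ e * b g, b1.map _, fun g hg k hk => ?_⟩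
    have a1 := b2 g hg k hk
    have a2 := congr_XCOI h.φq (he _ (k3 g hg))
    simp only [← k2 k hk, (i4 g hg.2 _ (cl.tor k hk.2)).1] at a1
    simp only [MP_e23604_nt.W.cup, k1 g hg]
    rw [ic, a2, map_mul]
    linear_combination φ N * φ e * a1
  have kI : W.l ≠ 3 → ∀ τ ∈ W.I, χ τ = 0 → E1 W.v (c₂ τ) := fun h3 τ hτ h0 => by
    rw [ku τ hτ.2 fun l a b e => (hAL l a b).2.2.2.2.2.2.1 W (fun o => ?_) τ hτ]
    · exact bd_LOY h3 hτ h0 _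
    · exact (Ov_mul.1 o).elim (fun o => h3 (ov3_LOY.1 o)) fun o => e ((ovp_LOY a).1 o)
  by_cases h3 : W.l = p
  · have n3 : W.l ≠ 3 := h3 ▸ h.p3
    by_cases hv : Ov W ϖ
    · refine key (Or.inl (sah_LOY h tw (W := W.mv c) h3 (fun o => ?_)
        ⟨sel.1.1.mono (W.mv c).D_le, fun g hg k hk => sel.1.2 g hg.2 k hk.2⟩
        (fun g hg => hk g hg.2) (fun k hk h0 => ?_) _))
      · have o2 := ((PLK_ok.2.2.2.2.2.1 W c ϖ).2 h.cj.nk).1 o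
        rcases (PLK_ok.2.2.1 W ϖ h.pr hv).2.2.1 with e | e | e
        · have : star ϖ = d := mul_left_cancel₀ h.pr.ne_zero (by
            rw [mul_star_nn, e.2.1, h3, h.fa])
          exact hv.cop h.cop (this ▸ o2)
        · exact h2 e.1
        · exact n3 e.1
      · rw [hP k ((W.mv c).I_le hk)]
        exact bd_LOY (W := W.mv c) n3 hk h0 P
    · refine key (Or.inr (Or.inl ?_))
      simpa using sah_LOY h tw h3 hv
        ⟨cl.cz.1.mono W.D_le, fun g hg k hk => cl.cz.2 g hg.2 k hk.2⟩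
        (fun g hg => cl.tor g hg.2) (kI n3) 1
  have nq : ∀ U : Plc, U.l = W.l → ¬ Ov U (p ^ n : ℕ) := fun U e o =>
    h3 (e ▸ (ovp_LOY h.pp).1 (Ov_pow (n := n) (by exact_mod_cast o)))
  have o3 : ∀ U : Plc, U.l = W.l → (Ov U (3 * r) ↔ W.l ∣ 3 * r) := fun U e => by
    rw [← e, ← PLK_ok.2.2.2.1]
    push_cast
    rfl
  by_cases h4 : W.l ∣ 3 * r
  · exact key (Or.inl (STR_ok R φ χ r M (ϖ ^ n) (d ^ n) N G (W.mv c) x tw h.ne h.dr (h.qe ▸ h.dq)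
      h.cop.pow (h.qe ▸ h.gen) ((h.qt.ker _).2 dvd_rfl)
      (fun o => nq (W.mv c) rfl (o.dvd (h.qe ▸ dvd_mul_right _ _))) (sel.2 _)
      (fun g hg => h.qe ▸ hk g hg.2) fun Q hQ => hN _ Q ((o3 (W.mv c) rfl).2 h4) hQ))
  have n3 : W.l ≠ 3 := fun e => h4 (e ▸ dvd_mul_right _ _)
  have nM : ∀ U : Plc, U.l = W.l → ¬ Ov U M := fun U e o => by
    rw [h.hM, show (9 * r : Zw) = 3 * (3 * r) by ring, Ov_mul, Ov_mul, ov3_LOY, o3 U e, e] at o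
    exact o.elim (nq U e) fun o => o.elim n3 h4
  have um : ∀ U : Plc, U.l = W.l → ∀ τ ∈ U.I, τ ∈ UM M := fun U e τ hτ =>
    (INE_ok U (fun o => n3 (e ▸ ov3_LOY.1 o)) τ hτ).2.2 M (nM U e)
  refine key (Or.inr (Or.inr fun τ hτ => ?_))
  have hτ' := (cD W τ).2.1 hτ
  refine ⟨one τ (um W rfl τ hτ), one _ (um (W.mv c) rfl _ hτ'), ?_, ?_⟩
  · rw [unr _ (nM (W.mv c) rfl) _ hτ', i0, mul_zero]
  · rw [E1_tor (kI n3 τ hτ (tw.unr W (fun o => h4 ((o3 W rfl).1 o)) τ hτ)) (nq W rfl)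
      (cl.tor τ hτ.2), i0]

end Pool.Agent.MP_e23604_nt.Y
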