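import Pool.Agent.Mg.Fe23604m.G463337

set_option linter.all false

section

set_option autoImplicit false

open Finset QuadraticAlgebra
open scoped Classical

namespace Pool.Agent.MP_e23604_nt.Y

open B R S W

theorem unr_RCI (V : Plc) {φ : GQ} (hφ : Frob V.l V.γ φ) {n : ℕ} (hn : n ≠ 0) :
    ∃ s : GQ → ZMod n, Adt (Dec V.v) s ∧ Lc (Dec V.v) s ∧ (∀ τ ∈ Ine V.l V.γ, s τ = 0) ∧
      s φ = 1 := by
  have h2 : 2 ≤ V.l := V.hl.out.two_le
  obtain ⟨-, -, a1, gen, -⟩ := (R.FRO_ok V.l V.γ).2 φ hφ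
  have h3 := Nat.one_lt_pow hn h2
  have hm : V.l ^ n - 1 ≠ 0 := by omega
  have hd : ¬ V.l ∣ V.l ^ n - 1 := fun h => by
    have h4 := Nat.dvd_sub (dvd_pow_self V.l hn) h
    rw [Nat.sub_sub_self h3.le] at h4
    exact V.hl.out.one_lt.ne' (Nat.dvd_one.1 h4)
  have hz := zt_prim hm
  have hf := a1 _ _ hd hz.pow_eq_one
  generalize zt (V.l ^ n - 1) = z at hz hf
  obtain ⟨N, hN, hx⟩ := exists_ON_fix {z}
  have ex : ∀ g ∈ Dec V.v, ∃ i : ℕ, g z = z ^ V.l ^ i := fun g hg => by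
    obtain ⟨i, τ, hτ, e⟩ := gen N hN g hg
    have := congrArg (φ ^ i * τ) (hx z (mem_singleton_self z) _ e)
    rw [← AlgEquiv.mul_apply, mul_inv_cancel_left, AlgEquiv.mul_apply,
      root_CTQ hτ hd hz.pow_eq_one, pow_CTQ hf] at this
    exact ⟨i, this⟩
  let F : Qb → ZMod n := fun y => ((Classical.epsilon fun i : ℕ => y = z ^ V.l ^ i : ℕ) : ZMod n)
  have hF : ∀ i : ℕ, F (z ^ V.l ^ i) = i := fun i =>
    (log_CTQ h2 hn hz hf (Classical.epsilon_spec (p := fun j : ℕ => z ^ V.l ^ i = z ^ V.l ^ j)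
      ⟨i, rfl⟩)).symm
  refine ⟨fun g => F (g z), fun g hg h hh => ?_, (Lc.apply _ z).map F, fun τ hτ => ?_, ?_⟩
  · obtain ⟨i, hi⟩ := ex g hg
    obtain ⟨j, hj⟩ := ex h hh
    simp only [AlgEquiv.mul_apply]
    rw [hj, map_pow, hi, ← pow_mul, ← pow_add, hF, hF, hF, Nat.cast_add]
  · have := hF 0
    rw [pow_zero, pow_one, Nat.cast_zero] at this
    simp only [root_CTQ hτ hd hz.pow_eq_one, this]
  · have := hF 1
    rw [pow_one, Nat.cast_one] at this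
    simp only [hf, this]

theorem ivk_RCI {p n : ℕ} {V : Plc} {ϖ : Zw} {φ τ : GQ} {u : ZMod (p ^ n)}
    {f b : GQ → GQ → ZMod (p ^ n)} (hp : p.Prime) (lp : V.l ≠ p) (l3 : V.l ≠ 3) (h1 : Prime ϖ)
    (h2 : Ov V ϖ) (fk : FK V ϖ φ) (c1 : ∀ g ∈ V.D, W.cy (p ^ n) g = 1) (hτ : τ ∈ V.I)
    (hu : u * km (p ^ n) τ V.l = 1) (hb : Bia V.D b) (hf : Co2 (W.cy (p ^ n)) V.D f)
    (hβ : Bo2 (W.cy (p ^ n)) V.D fun g h => f g h - b g h) {s : GQ → ZMod (p ^ n)}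
    (sa : Adt V.D s) (sl : Lc V.D s) (s0 : ∀ τ ∈ V.I, s τ = 0) (s1 : s φ = 1) :
    Bo2 (W.cy (p ^ n)) V.D fun g h =>
      2 * f g h - 2 * u * (b τ φ - b φ τ) * (km (p ^ n) g V.l * s h) := by
  have hN : p ^ n ≠ 0 := pow_ne_zero n hp.ne_zero
  have : NeZero (p ^ n) := ⟨hN⟩
  have l2 := V.hl.out.two_le
  obtain ⟨-, -, -, hσ⟩ := FRK_ok V ϖ h1 h2
  set κ : GQ → ZMod (p ^ n) := fun g => km (p ^ n) g V.l with hκ
  have ka : Adt V.D κ := fun g hg h _ => by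
    simp only [hκ]
    rw [km_mul hN g h (Nat.cast_ne_zero.2 (by omega)), c1 g hg, map_natCast, one_mul, add_comm]
  have kl : Lc V.D κ := km_lc _ _ _
  replace hu : u * κ τ = 1 := hu
  obtain ⟨t, ht, kt⟩ : ∃ t ∈ V.I, κ t = 1 := ⟨τ ^ u.val, V.I.pow_mem hτ _, by
    rw [pow_HIVK ka (V.I_le hτ), ZMod.natCast_zmod_val, hu]⟩
  have tD := V.I_le ht
  obtain ⟨x, fx, kx, sx⟩ : ∃ x, FK V ϖ x ∧ κ x = 0 ∧ s x = 1 := by
    have h1 := V.I.pow_mem ht (-κ φ).val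
    refine ⟨φ * t ^ (-κ φ).val, ((hσ φ fk).2.1 _ h1).1, ?_, ?_⟩
    · rw [ka _ fk.1 _ (V.I_le h1), pow_HIVK ka tD, ZMod.natCast_zmod_val, kt]
      ring
    · rw [sa _ fk.1 _ (V.I_le h1), s0 _ h1, s1, add_zero]
  have xD := fx.1
  have key : ∀ a : GQ → ZMod (p ^ n), Adt V.D a → Lc V.D a → ∀ g ∈ V.D,
      a g = a t * κ g + a x * s g := fun a aa al g hg => by
    refine sub_eq_zero.1 (van_HIVK (a := fun g => a g - (a t * κ g + a x * s g))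
      (hσ x fx).2.2.2.1 V.I_le xD (fun g hg h hh => ?_)
      (al.map₂ (kl.map₂ sl fun y z => a t * y + a x * z) fun y z => y - z) (fun y hy => ?_) ?_ g hg)
    · simp only [aa g hg h hh, ka g hg h hh, sa g hg h hh]
      ring
    · have := (TAME_ok p n V hp lp l3).2.2.2.2.2 _ a (aa.mono V.I_le) (al.mono V.I_le)
        (fun w _ => by rw [nsmul_eq_mul, ZMod.natCast_self, zero_mul]) t ht kt y hy
      rw [nsmul_eq_mul, ZMod.natCast_zmod_val] at this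
      simp only [s0 y hy]
      linear_combination this
    · simp only [kx, sx]
      ring
  obtain ⟨⟨M, hM, f1, f2⟩, -⟩ := hf
  obtain ⟨β, ⟨M', hM', hc⟩, e⟩ := hβ
  replace e : ∀ g ∈ V.D, ∀ h ∈ V.D, b g h = f g h - (β h - β (g * h) + β g) :=
    fun g hg h hh => by
      have := e g hg h hh
      rw [c1 g hg] at this
      linear_combination -this
  have b1 : ∀ g ∈ V.D, Lc V.D (b g) := fun g hg => ⟨M ⊓ M', hM.inf hM', fun h hh k hk w => by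
    rw [e g hg h hh, e g hg k hk, f1 g hg h hh k hk w.1, hc h hh k hk w.2,
      hc _ (V.D.mul_mem hg hh) _ (V.D.mul_mem hg hk) (by
        rw [mul_inv_rev, mul_assoc, inv_mul_cancel_left]; exact w.2)]⟩
  have b2 : ∀ h ∈ V.D, Lc V.D fun g => b g h := fun h hh => ⟨M ⊓ M', hM.inf hM',
    fun g hg k hk w => by
      have e1 : f g h = f k h := f2 h hh g hg k hk w.1
      have e2 : (g * h)⁻¹ * (k * h) ∈ M' := by
        have := hM'.1.conj_mem _ w.2 h⁻¹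
        rwa [inv_inv, show h⁻¹ * (g⁻¹ * k) * h = (g * h)⁻¹ * (k * h) by group] at this
      show b g h = b k h
      rw [e g hg h hh, e k hk h hh, e1, hc g hg k hk w.2,
        hc _ (V.D.mul_mem hg hh) _ (V.D.mul_mem hk hh) e2]⟩
  have bf : ∀ g ∈ V.D, ∀ h ∈ V.D, b g h = (b t t * κ g + b x t * s g) * κ h +
      (b t x * κ g + b x x * s g) * s h := fun g hg h hh => by
    rw [key _ (hb.1 g hg) (b1 g hg) h hh, ← key _ (hb.2 t tD) (b2 t tD) g hg,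
      ← key _ (hb.2 x xD) (b2 x xD) g hg]
  have hr : u * (b τ φ - b φ τ) = b t x - b x t := by
    rw [bf τ (V.I_le hτ) φ fk.1, bf φ fk.1 τ (V.I_le hτ), s0 τ hτ, s1]
    linear_combination (b t x - b x t) * hu
  refine ⟨fun g => 2 * β g - (b t t * κ g ^ 2 + 2 * b x t * κ g * s g + b x x * s g ^ 2),
    Lc.map₂ ⟨M', hM', hc⟩ (kl.map₂ sl fun y z => b t t * y ^ 2 + 2 * b x t * y * z + b x x * z ^ 2)
      fun y z => 2 * y - z, fun g hg h hh => ?_⟩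
  have e1 := e g hg h hh
  rw [bf g hg h hh] at e1
  show 2 * f g h - 2 * u * (b τ φ - b φ τ) * (κ g * s h) = _
  simp only [c1 g hg, ka g hg h hh, sa g hg h hh]
  linear_combination -2 * e1 - 2 * (κ g * s h) * hr

theorem mu_RCI {N : ℕ} (h0 : N ≠ 0) (H : Subgroup GQ) : Mu H (W.cy N) :=
  ⟨cy_lc N _, cy_one h0, fun g _ j _ => cy_mul h0 g j⟩

/-- the transfer on the decomposition group over the quadratic field -/
theorem trf_RCI {N : ℕ} {V : Plc} {φ c : GQ} {f F : GQ → GQ → ZMod N} {r : ZMod N}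
    {s : GQ → ZMod N} (h0 : N ≠ 0) (hφ : φ ∈ Dec V.v) (nφ : φ ∉ GK) (hc : c ∉ GK)
    (hD : ∀ g, g ∈ V.D ↔ φ * g * φ⁻¹ ∈ V.D) (c1 : ∀ g ∈ V.D, W.cy N g = 1)
    (sa : Adt (Dec V.v) s) (hf : Co2 (W.cy N) GK f)
    (F2 : ∀ g ∈ GK, ∀ h ∈ GK, F g h = f g h + W.cy N c * f (c⁻¹ * g * c) (c⁻¹ * h * c))
    (h : Bo2 (W.cy N) V.D fun g h => 2 * f g h - r * (km N g V.l * s h)) :
    Bo2 (W.cy N) V.D fun g h => 2 * F g h - 2 * r * (km N g V.l * s h) := by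
  have hL := (LIN_ok _ (W.cy N) V.D).1
  have l0 : (V.l : Qb) ≠ 0 := Nat.cast_ne_zero.2 V.hl.out.ne_zero
  obtain ⟨k, hk, rfl⟩ : ∃ k ∈ GK, c = φ * k :=
    ⟨φ⁻¹ * c, GK_mul (by rwa [GK.inv_mem_iff]) hc, by group⟩
  obtain ⟨β, a1, a2⟩ := (CNG_ok _ (W.cy N)).1 GK f k (mu_RCI h0 _) hf hk
  have c3 : Bo2 (W.cy N) V.D fun g h => f g h - W.cy N k * f (k⁻¹ * g * k) (k⁻¹ * h * k) :=
    ⟨β, a1.mono V.D_le, fun g hg j hj => a2 g (V.D_le hg) j (V.D_le hj)⟩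
  have c4 := ((hL _ _ 0).2.1 h ((hL _ _ 2).2.1 c3 c3).2.2).2.1
  have e : ∀ g : GQ, φ * (φ⁻¹ * g * φ) * φ⁻¹ = g := fun g => by group
  have hD' : ∀ g, g ∈ V.D ↔ φ⁻¹ * g * φ ∈ V.D := fun g => by rw [hD (φ⁻¹ * g * φ), e]
  have c5 := (CNG_ok _ (W.cy N)).2.1 V.D V.D _ φ (W.cy N φ) hD'
    (fun g hg => by rw [c1 g hg, c1 _ ((hD' g).1 hg)]) c4
  refine congr_HIVT ((hL _ _ 0).2.1 h c5).1 fun g hg j hj => ?_
  have e1 := km_conj h0 (y := φ) l0 (map_natCast (φ⁻¹ * g * φ) _) (c1 _ ((hD' g).1 hg))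
  rw [e, map_natCast] at e1
  have e2 : s (φ⁻¹ * j * φ) = s j := by
    have i1 := sa φ hφ _ ((hD' j).1 hj).1
    have i2 := sa j hj.1 φ hφ
    rw [show φ * (φ⁻¹ * j * φ) = j * φ by group, i2] at i1
    linear_combination -i1
  have e3 : ∀ x : GQ, (φ * k)⁻¹ * x * (φ * k) = k⁻¹ * (φ⁻¹ * x * φ) * k := fun x => by group
  simp only [F2 g (V.D_le hg) j (V.D_le hj), e2, e3, cy_mul h0]
  linear_combination (-r * s j) * e1

theorem trv_RCI {c : GQ} (hc : c ∉ GK) : Trv GK ⊤ {1, c} := by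
  refine ⟨fun _ _ => trivial, fun g _ => ⟨t_HTRF c g, ⟨?_, tm_HTRF hc g⟩, fun y hy => ?_⟩⟩
  · unfold t_HTRF
    split_ifs <;> simp
  · rw [← te_HTRF c hy.2]
    rcases mem_insert.1 hy.1 with rfl | e
    · exact (if_pos GK.one_mem).symm
    · rw [mem_singleton.1 e]
      exact (if_neg hc).symm

/-- from the subgroup of index two to the decomposition group -/
theorem up_RCI {N : ℕ} {V : Plc} {f : GQ → GQ → ZMod N} (h0 : N ≠ 0)
    (hf : Co2 (W.cy N) (Dec V.v) f) (h : Bo2 (W.cy N) V.D f) :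
    Bo2 (W.cy N) (Dec V.v) fun g h => 2 * f g h := by
  obtain ⟨⟨M, m1, m2, m3⟩, e⟩ := hf
  obtain ⟨c, hc⟩ := ex_SAQ
  have h1 : 1 ≠ c := fun e => hc (e ▸ GK.one_mem)
  refine congr_HIVT ((GRP_ok _ (W.cy N) GK ⊤ (Dec V.v) M (fun g h _ => f g h) GK_on.2
    (fun g _ u hu => by simpa using GK_on.1.conj_mem u hu g⁻¹) m1 le_top le_top (mu_RCI h0 _)
    (fun _ _ _ _ _ _ _ _ => rfl) (fun _ _ => ⟨m2, m3⟩)
    (fun g hg h hh k hk _ _ => e g hg h hh k hk)).2 fun _ _ => h) fun g _ j _ => ?_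
  rw [(Xs_trv GK_on.2 le_top).sum_eq (trv_RCI hc) fun _ _ _ _ => rfl, sum_pair h1, two_mul]

theorem iv_RCI {N : ℕ} {V : Plc} {φ : GQ} {F : GQ → GQ → ZMod N} {r : ZMod N}
    {s : GQ → ZMod N} (h0 : N ≠ 0) (hφ : Frob V.l V.γ φ) (b1 : Adt (Dec V.v) s)
    (b2 : Lc (Dec V.v) s) (b3 : ∀ τ ∈ Ine V.l V.γ, s τ = 0) (b4 : s φ = 1)
    (h : Bo2 (W.cy N) (Dec V.v) fun g h => F g h - r * (km N g V.l * s h)) :
    Iv V.l V.γ (fun g h => zt N ^ (F g h).val) N (r.val / N) := by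
  have l0 : (V.l : Qb) ≠ 0 := Nat.cast_ne_zero.2 V.hl.out.ne_zero
  have c1 := (ADM_ok N _ _ h0).2.1.1 h
  have c2 := pow_HIVT ((ADM_ok N _ F h0).2.2 s V.l l0 (fun g _ => map_natCast g _) b1 b2) r.val
  refine ⟨s, V.l ^ r.val, φ, pow_ne_zero _ (Nat.cast_ne_zero.2 V.hl.out.ne_zero), hφ, b1,
    b2, b3, ?_, (c1.mul c2).congr fun g _ j _ => ?_⟩
  · rw [padicValRat.pow, padicValRat.self V.hl.out.one_lt, b4]
    rcases eq_or_ne N 1 with rfl | e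
    · rw [Subsingleton.elim r 0]
      simp
    · rw [ZMod.val_one'' e]
      simp
  · rw [mul_pow, ← zt_mul h0, ← mul_assoc, ← zt_add h0, mul_comm r, sub_add_cancel, ← pow_mul,
      mul_comm (car _ _), pow_mul]
    push_cast
    rfl

theorem tr_RCI {V : Plc} {l : ℕ} [Fact l.Prime] (e : V.l = l) {c : GQ → GQ → Qb} {N : ℕ} {r : ℚ}
    (h : Iv V.l V.γ c N r) : Iv l V.γ c N r := by
  subst e
  exact h

theorem loc_RCI (hINF : INF_st) {p n : ℕ} {V : Plc} {φ τ c : GQ} {u : ZMod (p ^ n)}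
    {f b F : GQ → GQ → ZMod (p ^ n)} (hp : p.Prime) (hn : 1 ≤ n) (hI : In V φ)
    (hd : p ^ n ∣ V.l + 1) (hτ : τ ∈ V.I) (hu : u * km (p ^ n) τ V.l = 1) (hb : Bia V.D b)
    (hf : Co2 (W.cy (p ^ n)) GK f) (hβ : Bo2 (W.cy (p ^ n)) V.D fun g h => f g h - b g h)
    (hc : c ∉ GK) (F1 : Co2 (W.cy (p ^ n)) ⊤ F)
    (F2 : ∀ g ∈ GK, ∀ h ∈ GK, F g h = f g h + W.cy (p ^ n) c * f (c⁻¹ * g * c) (c⁻¹ * h * c)) :
    V.l ≠ p ∧ Iv V.l V.γ (fun g h => zt (p ^ n) ^ (4 * F g h).val) (p ^ n)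
      ((4 * (u * (b τ (φ ^ 2) - b (φ ^ 2) τ))).val / (p ^ n : ℕ)) := by
  have hN : p ^ n ≠ 0 := pow_ne_zero n hp.ne_zero
  have lp : V.l ≠ p := fun e => by
    have h1 : p ∣ V.l + 1 := (dvd_pow_self p (by omega)).trans hd
    rw [e] at h1
    exact hp.one_lt.ne' (Nat.dvd_one.1 ((Nat.dvd_add_right dvd_rfl).1 h1))
  have l3 : V.l ≠ 3 := fun e => by
    have := hI.l3
    omega
  have l0 : (V.l : Qb) ≠ 0 := Nat.cast_ne_zero.2 V.hl.out.ne_zero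
  obtain ⟨pp, ov, -, nφ, fk, hD, -, -, -, -, -, hC⟩ := hINF.2.2 V φ hI
  have c1 := (hC _ hd).1
  obtain ⟨s, sa, sl, s0, s1⟩ := ((FRK_ok V _ pp.1 ov).2.2.2 _ fk).2.2.2.2.2 _ hN
  obtain ⟨t, ta, tl, t0, t1⟩ := unr_RCI V hI.fr hN
  have dle : V.D ≤ Dec V.v := inf_le_left
  have ts : ∀ g ∈ V.D, t g - 2 * s g = 0 :=
    van_HIVK (a := fun g => t g - 2 * s g) ((FRK_ok V _ pp.1 ov).2.2.2 _ fk).2.2.2.1 V.I_le fk.1
      (fun g hg h hh => by
        simp only [ta g hg.1 h hh.1, sa g hg h hh]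
        ring) ((tl.mono dle).map₂ sl fun y z => y - 2 * z)
      (fun y hy => by simp only [t0 y hy.1, s0 y hy, mul_zero, sub_zero]) (by
        simp only [s1]
        rw [sq, ta φ hI.fr.1 φ hI.fr.1, t1]
        ring)
  have k1 := ivk_RCI hp lp l3 pp.1 ov fk c1 hτ hu hb
    (((LIN_ok _ _ GK).1 f f 0).2.2.2 _ V.D V.D_le (fun _ _ => rfl) (fun _ _ _ _ => rfl) |>.1 hf)
    hβ sa sl s0 s1
  generalize b τ (φ ^ 2) - b (φ ^ 2) τ = d at k1 ⊢
  have k2 : Bo2 (W.cy (p ^ n)) V.D fun g h =>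
      2 * f g h - u * d * (km (p ^ n) g V.l * t h) :=
    congr_HIVT k1 fun g _ j hj => by
      linear_combination (-(u * d) * km (p ^ n) g V.l) * ts j hj
  have k3 := trf_RCI hN hI.fr.1 nφ hc hD c1 ta hf F2 k2
  have hL := (LIN_ok _ (W.cy (p ^ n)) (Dec V.v)).1
  have k4 : Co2 (W.cy (p ^ n)) (Dec V.v) F :=
    (((LIN_ok _ _ ⊤).1 F F 0).2.2.2 _ _ le_top (fun _ _ => rfl) (fun _ _ _ _ => rfl)).1 F1
  have k5 : Co2 (W.cy (p ^ n)) (Dec V.v) (W.cup (fun _ => 1) (fun g => km (p ^ n) g V.l) t) :=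
    (CUP_ok _ _ (W.cy (p ^ n)) (fun _ => 1) _ t _ (mu_RCI hN _)
      ⟨Lc.const _ _, rfl, fun _ _ _ _ => (mul_one _).symm⟩ (fun _ _ => (mul_one _).symm)
      ((KM_ok _ hN).2.2.1 _ _ l0 fun g _ => map_natCast g _)
      ⟨tl, fun g hg h hh => by rw [ta g hg h hh, one_mul]⟩).1
  have k6 := ((hL _ _ 0).1 ((hL _ _ 2).1 k4 k4).2.2 ((hL _ _ (2 * (u * d))).1 k5 k5).2.2).2.1
  have k7 := up_RCI hN k6 (congr_HIVT k3 fun g _ j _ => by rw [W.cup, mul_one])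
  refine ⟨lp, iv_RCI hN hI.fr ta tl t0 t1 (congr_HIVT k7 fun g _ j _ => ?_)⟩
  rw [W.cup]
  ring

theorem RCI_pf (hINF : INF_st) : RCI_st := by
  intro R _ p n j f Q V φ τ u b hp hn hf hQ hW
  have hN : p ^ n ≠ 0 := pow_ne_zero _ hp.ne_zero
  by_contra hx
  obtain ⟨L, hL⟩ := FUN_ok (p ^ n) R _ hN (fun y => by rw [nsmul_eq_mul, j_zero j, zero_mul]) hx
  have hf' := co_HRCP hN j L le_rfl hf
  obtain ⟨c, hc⟩ := ex_SAQ
  obtain ⟨F, F1, F2, F3⟩ := TRF_ok (p ^ n) _ c hN hc hf'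
  obtain ⟨M, M1, M2, M3⟩ := (ADM_ok (p ^ n) ⊤ (fun g h => 4 * F g h) hN).1
    (((LIN_ok _ (W.cy (p ^ n)) ⊤).1 F F 4).1 F1 F1).2.2
  have key : ∀ l ∈ Q, (V l).l ≠ p ∧ Iv (V l).l (V l).γ (fun g h => zt (p ^ n) ^ (4 * F g h).val)
      (p ^ n) ((4 * (u l * (L (b l (τ l) (φ l ^ 2)) - L (b l (φ l ^ 2) (τ l))))).val /
        (p ^ n : ℕ)) := fun l h => by
    obtain ⟨e, hI, hd, hτ, hu, hb, ho⟩ := hQ l h
    refine loc_RCI hINF (b := fun g h => L (b l g h)) hp hn hI (e.symm ▸ hd) hτ (e.symm ▸ hu)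
      ⟨fun g hg a ha c hc => ?_, fun g hg a ha c hc => ?_⟩ hf' ?_ hc F1 F2
    · simp only [hb.1 g hg a ha c hc, map_add]
    · have := hb.2 g hg a ha c hc
      simp only at this
      simp only [this, map_add]
    · simpa only [map_sub] using bo_HRCP hN j L ho
  obtain ⟨z, hz⟩ := RQ_ok p n M (fun g h => zt (p ^ n) ^ (4 * F g h).val) Q (fun l => (V l).γ)
    (fun l => ((4 * (u l * (L (b l (τ l) (φ l ^ 2)) - L (b l (φ l ^ 2) (τ l))))).val : ℚ) /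
      (p ^ n : ℕ)) hp M1 M2 M3 (fun g h => zt_val_pow hN _)
    (fun l h => ⟨(hQ l h).1 ▸ (V l).hl.out, (hQ l h).1 ▸ (key l h).1⟩)
    (fun l _ h => tr_RCI (hQ l h).1 (key l h).2) (fun l _ h => by
      have b := F3 ⟨l, 1⟩ (bo_HRCP hN j L (hW _ h)) (bo_HRCP hN j L (hW _ h))
      exact (ADM_ok (p ^ n) _ (fun g h => 4 * F g h) hN).2.1.1
        (((LIN_ok _ (W.cy (p ^ n)) _).1 F F 4).2.1 b b).2.2)
  have : NeZero (p ^ n) := ⟨hN⟩
  rw [← sum_div, ← mul_div_assoc, div_eq_iff (Nat.cast_ne_zero.2 hN)] at hz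
  have h1 : (2 * ∑ l ∈ Q, ((4 * (u l * (L (b l (τ l) (φ l ^ 2)) -
      L (b l (φ l ^ 2) (τ l))))).val : ℤ) : ℤ) = z * (p ^ n : ℕ) := by exact_mod_cast hz
  have h2 := congrArg (Int.cast : ℤ → ZMod (p ^ n)) h1
  rw [Int.cast_mul, Int.cast_mul, Int.cast_natCast, ZMod.natCast_self, mul_zero, Int.cast_sum,
    Int.cast_ofNat] at h2
  simp only [Int.cast_natCast, ZMod.natCast_zmod_val] at h2
  refine hL ?_
  rw [show (8 : R) = j 8 from (map_ofNat j 8).symm, lin_HRCP hN, map_sum, ← h2, mul_sum, mul_sum]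
  refine sum_congr rfl fun l _ => ?_
  rw [lin_HRCP hN, map_sub]
  ring

end Pool.Agent.MP_e23604_nt.Y

end

section

/-!
The derived classes.
-/

set_option autoImplicit false

open Finset QuadraticAlgebra
open scoped Classical

namespace Pool.Agent.MP_e23604_nt.Y

open B R S W

section step

variable {I : Type} [AddCommGroup I] {q : ℕ} (π : I →+ ZMod q)

/-- the weight -/
def va (i : I) : ℕ := (π i).val

/-- the carry -/
def kk (a i : I) : ℕ := car (π (i - a)) (π a)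

theorem va_kk (hq : q ≠ 0) (a i : I) : va π (i - a) + va π a = va π i + q * kk π a i := by
  have : NeZero q := ⟨hq⟩
  rw [va, va, va, kk, car, show π i = π (i - a) + π a by rw [← map_add, sub_add_cancel],
    ZMod.val_add, Nat.mod_add_div]

theorem kk_zero (hq : q ≠ 0) (i : I) : kk π 0 i = 0 := by
  have := va_kk π hq 0 i
  rw [sub_zero, va, va, map_zero, ZMod.val_zero, Nat.add_left_cancel_iff] at this
  exact (mul_eq_zero.1 this.symm).resolve_left hq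

theorem kk_add (hq : q ≠ 0) (a b i : I) :
    kk π (a + b) i + kk π b (a + b) = kk π a i + kk π b (i - a) := by
  have h1 := va_kk π hq (a + b) i
  have h2 := va_kk π hq b (a + b)
  have h3 := va_kk π hq a i
  have h4 := va_kk π hq b (i - a)
  rw [add_sub_cancel_right] at h2
  rw [sub_sub] at h4
  refine Nat.eq_of_mul_eq_mul_left (Nat.pos_of_ne_zero hq) ?_
  rw [mul_add, mul_add]
  omega

variable [Fintype I] {M : Type} [AddCommGroup M]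

omit [AddCommGroup I] in
theorem shift_CLS {z : I → M} (h : ∑ i, z i = 0) {f f' : I → ℕ} {c : ℕ} (e : ∀ i, f i + c = f' i) :
    ∑ i, f i • z i = ∑ i, f' i • z i := by
  simp only [← e, add_smul, sum_add_distrib, ← smul_sum, h, smul_zero, add_zero]

theorem kk_sum (hq : q ≠ 0) {a : I} (h : va π a = 1) : q * ∑ i, kk π a i = Fintype.card I := by
  have := sum_congr rfl fun i (_ : i ∈ univ) => va_kk π hq a i
  rw [sum_add_distrib, sum_add_distrib, ← mul_sum, h,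
    show ∑ i, va π (i - a) = _ from (Equiv.subRight a).sum_comp (va π)] at this
  simpa using this.symm

theorem step_CLS (hq : q ≠ 0) {ρ : GQ → M →+ M} {A : GQ → I} (hA : Adt GK A) {z : I → M}
    {w : GQ → I → M} (h1 : ∀ g ∈ GK, ∀ i, ρ g (z (i - A g)) = z i + q • w g i)
    (h2 : ∀ g ∈ GK, ∀ h ∈ GK, ∀ i, w (g * h) i = w g i + ρ g (w h (i - A g)))
    (h3 : ∑ i, z i = 0) (h4 : ∀ g ∈ GK, ∑ i, w g i = 0) {w' : GQ → M}
    (hw : ∀ g, w' g = ∑ i, kk π (A g) i • z i + ∑ i, va π (i - A g) • w g i) :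
    (∀ g ∈ GK, ρ g (∑ i, va π i • z i) = ∑ i, va π i • z i + q • w' g) ∧
      ∀ g ∈ GK, ∀ h ∈ GK, w' (g * h) = w' g + ρ g (w' h) := by
  have r : ∀ (g : GQ) (F : I → M), ρ g (∑ i, F i) = ∑ i, ρ g (F (i - A g)) := fun g F => by
    rw [← map_sum]
    exact congrArg _ ((Equiv.subRight (A g)).sum_comp F).symm
  refine ⟨fun g hg => ?_, fun g hg h hh => ?_⟩
  · rw [r, hw]
    simp only [map_nsmul, h1 g hg, smul_add, sum_add_distrib,
      shift_CLS h3 (va_kk π hq (A g)), add_smul, smul_sum, mul_smul, smul_comm q, add_assoc]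
  · have e1 := (shift_CLS h3 (kk_add π hq (A g) (A h)))
    have e2 := (shift_CLS (h4 g hg) fun i => va_kk π hq (A h) (i - A g))
    rw [hw, hw, hw, map_add, r, r, hA g hg h hh, e1]
    simp only [map_nsmul, h1 g hg, h2 g hg h hh, smul_add, sum_add_distrib, add_smul, mul_smul,
      ← sub_sub, e2, smul_comm q]
    abel

end step

theorem E1_sum {V : Plc} {ι : Type} (s : Finset ι) {f : ι → Pt} (h : ∀ i ∈ s, E1 V.v (f i)) :
    E1 V.v (∑ i ∈ s, f i) :=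
  sum_induction f (E1 V.v) (fun _ _ => E1a) ((E1_iff _ _).2 (.inl rfl)) h

theorem E1_ns {V : Plc} {P : Pt} (h : E1 V.v P) (n : ℕ) : E1 V.v (n • P) :=
  Nat.cast_smul_eq_nsmul Zw n P ▸ (E1m h n).1

theorem cl_CLS {χ : GQ → ZMod 3} {r q : ℕ} (hχ : Tw χ r) {S : Finset ℕ} {P P' : Pt} {w : GQ → Pt}
    (e : (q : Zw) • P' = P) (h1 : ∀ g ∈ GK, eta χ g P = P + q • w g)
    (h2 : ∀ g ∈ GK, ∀ h ∈ GK, w (g * h) = w g + eta χ g (w h)) (h3 : Lc GK w)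
    (h4 : ∀ g ∈ GK, (∀ l ∈ S, Al l g = 0) → w g = 0) : Cl χ q S P' fun g => bd χ P' g - w g := by
  have hb := cz_bd_XCOI hχ le_rfl P'
  refine ⟨⟨hb.1.map₂ h3 (· - ·), fun g hg h hh => ?_⟩, fun g hg => ?_, fun g hg k => ?_⟩
  · simp only [hb.2 g hg h hh, h2 g hg h hh, map_sub]
    abel
  · rw [smul_sub, ← bd_smul hg, e, bd, h1 g hg, Nat.cast_smul_eq_nsmul]
    abel
  · simp only [h4 g hg k, sub_zero]

theorem fs_CLS (hINF : INF_st) {χ χ' : GQ → ZMod 3} {r q e : ℕ} (hχ : Tw χ r) (hχ' : Tw χ' r)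
    {V : Plc} {φ τ : GQ} (hV : In V φ) (hr : 9 * r ∣ V.l + 1) (he : q * e = V.l + 1) (hτ : τ ∈ V.I)
    {u : Zw} {P P' x x' w : Pt} (e1 : x = bd χ P (φ ^ 2)) (e2 : x' = bd χ' P' τ - w)
    (t1 : (q : Zw) • x = 0) (t2 : (q : Zw) • x' = 0)
    (hw : E1 V.v (w - e • u • gal φ ((q : Zw) • P))) : x' = u • gal φ x := by
  obtain ⟨-, a1, -, a2, a3, -, -, -, -, a4, a5, -⟩ := hINF.2.2 V φ hV
  have n : ∀ b : Zw, b ∣ V.l + 1 → ¬ Ov V b := fun b hb h =>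
    (Ov_l V).cop ⟨-1, 1, by ring⟩ (h.dvd hb)
  have hr' : (9 * r : Zw) ∣ V.l + 1 := by exact_mod_cast Nat.cast_dvd_cast (α := Zw) hr
  have he' : (q : Zw) * e = V.l + 1 := by exact_mod_cast he
  have hD := (a5 _ hχ.ne (n _ hr')).2 hr'
  refine sub_eq_zero.1 (E1_tor (V := V) ?_ (n q ⟨e, he'.symm⟩) ?_)
  · have k1 := (INE_ok V (n 3 (dvd_trans ⟨3 * r, by ring⟩ hr')) τ hτ).1 P'
    have k2 := (E1m ((E1_dec hV.fr.1).2 (a4 P)) u).1
    convert E1s (E1s k1 k2) hw using 1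
    rw [e1, e2, bd, bd, eta_apply, eta_apply, hχ.fac _ (hD a3.1), hχ'.fac _ (hD (V.I_le hτ)),
      ZMod.val_zero, pow_zero, one_smul, one_smul, ← smul_comm u, ← map_nsmul,
      ← Nat.cast_smul_eq_nsmul Zw, ← mul_smul, mul_comm, he', add_smul, one_smul]
    simp only [map_add, map_sub, smul_add, smul_sub]
    abel
  · rw [smul_sub, t2, smul_comm, ← star_natCast, ← gal_star a2, t1, map_zero, smul_zero, sub_zero]

theorem CLS_pf (hINF : INF_st) (hAL : AL_st) : CLS_st := by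
  intro χ χ' r B q y₀ P₀ y₁ y₂ V φ tw tw' hs q2 e0 hV kp hq
  have q0 : q ≠ 0 := by omega
  have q0' : (q : Zw) ≠ 0 := Nat.cast_ne_zero.2 q0
  have one : ∀ {l : ℕ} (h : q ∣ l + 1),
      q * ∑ i, kk (ZMod.castHom h (ZMod q)).toAddMonoidHom 1 i = l + 1 := fun h => by
    rw [kk_sum _ q0 (by
      rw [va]
      exact (congrArg ZMod.val (map_one (ZMod.castHom h (ZMod q)))).trans
        (ZMod.val_one'' (by omega))), ZMod.card]
  have g3 : ∀ (g : GQ) (P : Pt), gal g ((3 : Zw) • P) = (3 : Zw) • gal g P := fun g P => by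
    simpa only [← Nat.cast_smul_eq_nsmul Zw, Nat.cast_ofNat] using map_nsmul (gal g) 3 P
  obtain ⟨-, a1, a2, -, -, -, a3, a4, -, a5, a6, a7, -⟩ := hAL V.l kp.pr hV.l3
  have m1 : ∀ i, ln V.l i ∈ lines V.l := fun i => a6 ▸ mem_image_of_mem _ (mem_univ i)
  have s1 : ∀ F : AddSubgroup Pt → Pt, ∑ i, (3 : Zw) • F (ln V.l i) =
      (3 : Zw) • ∑ L ∈ lines V.l, F L := fun F => by
    rw [← a6, sum_image a5.injOn, smul_sum]
  set π := (ZMod.castHom hq (ZMod q)).toAddMonoidHom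
  obtain ⟨b1, b2⟩ := step_CLS π q0 (ρ := eta χ') a1 (z := fun i => (3 : Zw) • y₁ (ln V.l i))
    (w := fun _ _ => 0) (fun g hg i => by
      rw [eta_smul χ' hg, ← hs.g1 _ kp _ (m1 _) g hg, a7 g hg, sub_add_cancel, smul_zero, add_zero])
    (fun _ _ _ _ _ => by simp) (by rw [s1, hs.t1 _ kp]) (fun _ _ => by simp)
    (w' := fun g => ∑ i, kk π (Al V.l g) i • (3 : Zw) • y₁ (ln V.l i)) fun g => by simp
  obtain ⟨P₁, e1⟩ := smul_onto q0' (∑ i, va π i • (3 : Zw) • y₁ (ln V.l i))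
  have c1 := cl_CLS tw' (S := {V.l}) e1 b1 b2
    (a2.map fun a => ∑ i, kk π a i • (3 : Zw) • y₁ (ln V.l i)) fun g _ h => by
      simp only [h _ (mem_singleton_self _), kk_zero π q0, zero_smul, sum_const_zero]
  refine ⟨P₁, _, c1, ?_, fun V' φ' hV' kp' hq' ne => ?_⟩
  · obtain ⟨τ, t1, t2⟩ := a4 V rfl 1
    obtain ⟨u, u1, u2⟩ := hs.c1 V φ kp hV
    have hσ := (hINF.2.2 V φ hV).2.2.2.2.1.1.2
    refine ⟨τ, t1, u, u1, fs_CLS hINF tw tw' hV kp.dv (one hq) t1 rfl rfl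
      (by rw [← bd_smul hσ, e0, bd, (hs.g0.smul le_rfl 3) _ hσ, sub_self]) (c1.tor τ t1.2) ?_⟩
    rw [t2, e0, sum_smul, ← sum_sub_distrib]
    refine E1_sum _ fun i _ => ?_
    rw [← smul_sub, g3, smul_comm u, ← smul_sub]
    exact E1_ns (E1m (u2 _ (m1 i)) 3).1 _
  obtain ⟨-, a1', a2', -, -, -, -, a4', a8', a5', a6', a7', -⟩ := hAL V'.l kp'.pr hV'.l3
  have m2 : ∀ i, ln V'.l i ∈ lines V'.l := fun i => a6' ▸ mem_image_of_mem _ (mem_univ i)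
  have s2 : ∀ F : AddSubgroup Pt → Pt, ∑ i, (3 : Zw) • F (ln V'.l i) =
      (3 : Zw) • ∑ L ∈ lines V'.l, F L := fun F => by
    rw [← a6', sum_image a5'.injOn, smul_sum]
  set π' := (ZMod.castHom hq' (ZMod q)).toAddMonoidHom
  set z : ZMod (V.l + 1) → ZMod (V'.l + 1) → Pt := fun i j => (3 : Zw) • y₂ (ln V.l i) (ln V'.l j)
    with hz
  have z1 : ∀ j, ∑ i, z i j = 0 := fun j =>
    (s1 fun L => y₂ L (ln V'.l j)).trans ((hs.t2 _ _ kp kp' ne).2 _ (m2 j))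
  obtain ⟨d1, d2⟩ := step_CLS π' q0 (M := ZMod (V.l + 1) → Pt)
    (ρ := fun g => AddMonoidHom.pi fun i => (eta χ g).comp (Pi.evalAddMonoidHom _ (i - Al V.l g)))
    a1' (z := fun j i => z i j) (w := fun _ _ => 0) (fun g hg j => funext fun i => by
      show eta χ g (z _ _) = z i j + q • 0
      rw [eta_smul χ hg, ← hs.g2 _ _ kp kp' ne _ (m1 _) _ (m2 _) g hg, a7 g hg, a7' g hg,
        sub_add_cancel, sub_add_cancel, smul_zero, add_zero])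
    (fun _ _ _ _ _ => by simp) (funext fun i => by
      rw [Finset.sum_apply]
      exact (s2 _).trans ((hs.t2 _ _ kp kp' ne).1 _ (m1 i))) (fun _ _ => by simp)
    (w' := fun g i => ∑ j, kk π' (Al V'.l g) j • z i j) fun g => funext fun i => by
      simp [Finset.sum_apply]
  have z2 : ∀ f : ZMod (V'.l + 1) → ℕ, ∑ i, ∑ j, f j • z i j = 0 := fun f => by
    rw [sum_comm]
    simp only [← smul_sum, z1, smul_zero, sum_const_zero]
  obtain ⟨f1, f2⟩ := step_CLS π q0 (ρ := eta χ) a1 (z := fun i => ∑ j, va π' j • z i j)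
    (w := fun g i => ∑ j, kk π' (Al V'.l g) j • z i j)
    (fun g hg i => by simpa [Finset.sum_apply] using congrFun (d1 g hg) i)
    (fun g hg h hh i => congrFun (d2 g hg h hh) i) (z2 _) (fun _ _ => z2 _) fun _ => rfl
  obtain ⟨P₂, e2⟩ := smul_onto q0' (∑ i, va π i • ∑ j, va π' j • z i j)
  have c2 := cl_CLS tw (S := {V.l, V'.l}) e2 f1 f2
    (a2.map₂ a2' fun a a' => ∑ i, kk π a i • ∑ j, va π' j • z i j +
      ∑ i, va π (i - a) • ∑ j, kk π' a' j • z i j) fun g _ h => by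
      simp only [h _ (mem_insert_self _ _), h _ (mem_insert_of_mem (mem_singleton_self _)),
        kk_zero _ q0, zero_smul, sum_const_zero, smul_zero, add_zero]
  obtain ⟨τ, t1, t2⟩ := a4' V' rfl 1
  obtain ⟨u, u1, u2⟩ := hs.c2 V.l V' φ' kp kp' ne hV'
  have hσ := (hINF.2.2 V' φ' hV').2.2.2.2.1.1
  have k0 := (hAL V.l kp.pr hV.l3).2.2.2.2.2.2.2.2.1 V' hV'.l3 ne.symm
  refine ⟨P₂, _, c2, τ, t1, u, u1, fs_CLS hINF tw' tw hV' kp'.dv (one hq') t1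
    (c1.ku _ hσ.2 fun l hl => by rw [mem_singleton.1 hl, k0 _ hσ]) rfl (c1.tor _ hσ.2)
    (c2.tor τ t1.2) ?_⟩
  rw [t2, k0 τ (V'.I_le t1), e1, map_sum, smul_sum, smul_sum]
  simp only [kk_zero π q0, zero_smul, sum_const_zero, zero_add, sub_zero, ← sum_sub_distrib]
  refine E1_sum _ fun i _ => ?_
  rw [map_nsmul, smul_comm u, smul_comm _ (va π i), ← smul_sub, sum_smul, ← sum_sub_distrib]
  refine E1_ns (E1_sum _ fun j _ => ?_) _
  rw [← smul_sub, g3, smul_comm u, hz, ← smul_sub]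
  exact E1_ns (E1m (u2 _ (m1 i) _ (m2 j)) 3).1 _

end Pool.Agent.MP_e23604_nt.Y

end
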