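import Pool.Agent.Mg.Fe23604m.G74d811

set_option linter.all false

/-!
The descent at the primes other than three.
-/

set_option autoImplicit false

open Finset QuadraticAlgebra
open scoped Classical

namespace Pool.Agent.MP_e23604_nt.Y

open B R S W

section ring

variable {R : Type} [CommRing R] {θ a : GQ → R} {U : Subgroup GQ} (hU : ON U) (le : U ≤ GK)
  (h1 : ∀ u ∈ U, θ u = 1) (ha : Co θ GK a)

include hU le h1 ha

theorem cnj_KOY {g u : GQ} (hg : g ∈ GK) (hu : u ∈ U) : a (g * u * g⁻¹) = θ g * a u := by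
  have k := hU.1.conj_mem u hu g
  have := ha.2 _ (le k) g hg
  rw [inv_mul_cancel_right, ha.2 g hg u (le hu), h1 _ k] at this
  linear_combination -this

theorem sym_KOY {c g u : GQ} (hc : c * c = 1) (hg : g ∈ GK) (hu : u ∈ U) {T : Ideal R}
    (h : (θ g - θ (c * g * c)) * a u ∉ T) : ∃ u ∈ U, a (c * u * c) + a u ∉ T := by
  by_contra! k
  have ci : c = c⁻¹ := eq_inv_of_mul_eq_one_left hc
  have m : ∀ H : Subgroup GQ, H.Normal → ∀ x ∈ H, c * x * c ∈ H := fun H hH x hx => by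
    simpa only [← ci] using hH.conj_mem x hx c
  have e : ∀ c' : GQ, c' = c⁻¹ →
      c * (g * u * g⁻¹) * c' = c * g * c' * (c * u * c') * (c * g * c')⁻¹ := by
    rintro _ rfl
    group
  have k1 := k _ (hU.1.conj_mem u hu g)
  rw [e c ci, cnj_KOY hU le h1 ha (m GK GK_on.1 g hg) (m U hU.1 u hu),
    cnj_KOY hU le h1 ha hg hu] at k1
  refine h ?_
  convert T.sub_mem k1 (T.mul_mem_left (θ (c * g * c)) (k u hu)) using 1
  ring

end ring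

theorem nm_KOY {R : Type} [CommRing R] {t x : R} {n m : ℕ} (h : m < n) :
    x ∉ Ideal.span {t ^ (m + 1)} ↔ vl t n x ≤ m := by
  rw [Ideal.mem_span_singleton, ← le_vl h, not_le, Nat.lt_succ_iff]

theorem exv_KOY (r : ℕ) {p : ℕ} (hp : p.Prime) : ∃ t : ℕ, t ∣ 6 ∧
    IsCoprime (1 + 9 * r * t * (ω : Zw)) p := by
  have k : ∀ t : ℕ, ¬ IsCoprime (1 + 9 * r * t * (ω : Zw)) p →
      (p : ℤ) ∣ 1 - 9 * r * t + (9 * r * t) ^ 2 := fun t => not_imp_comm.1 fun h => by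
    have := (((Nat.prime_iff_prime_int.1 hp).coprime_iff_not_dvd.2 h).map (Int.castRingHom Zw)).symm
    refine IsCoprime.of_mul_left_left (y := 1 + 9 * r * t * (ω : Zw) ^ 2) ?_
    convert this using 1
    · simp only [eq_intCast]
      push_cast
      linear_combination (9 * r * t : Zw) * ww + (9 * r * t : Zw) ^ 2 * www
    · simp
  by_contra! h
  have := dvd_add (dvd_sub ((k 1 (h 1 (by decide))).mul_left 3)
    ((k 2 (h 2 (by decide))).mul_left 3)) (k 3 (h 3 (by decide)))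
  refine (Nat.prime_iff_prime_int.1 hp).not_dvd_one ?_
  convert this using 1
  push_cast
  ring

theorem bz_KOY {χ : GQ → ZMod 3} {x : GQ → Pt} (h : Bz χ GK x) (a : Zw) :
    Bz χ GK fun g => a • x g :=
  h.elim fun P hP => ⟨a • P, fun g hg => by simp only [hP g hg, eta_smul χ hg, smul_sub]⟩

namespace KD

variable {R : Type} [CommRing R] {φ : Zw →+* R} {r p n : ℕ} {M ϖ d : Zw} {G : Pt} {c : GQ}
  (h : KD φ r p n M ϖ d G c)

include h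

theorem exg : ∃ g ∈ GK, ∃ v : Zw, v - 1 ∣ 54 * r * pw ∧ v - star v ∣ 54 * r * pw ∧
    ∀ (χ : GQ → ZMod 3) (ψ : Zw →+* R), Tw χ r → ψ M = 0 →
      lamZ ψ χ M g = ψ v ∧ lamZ ψ χ M (c * g * c) = ψ (star v) := by
  obtain ⟨t, ⟨t', ht⟩, h1⟩ := exv_KOY r h.pp
  have ht' : (6 : Zw) = t * t' := by exact_mod_cast ht
  have sw : star (ω : Zw) = ω - pw := by decide
  have sv : star (1 + 9 * r * t * (ω : Zw)) = 1 + 9 * r * t * ((ω : Zw) - pw) := by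
    rw [star_add, star_mul', star_mul', star_mul', star_one, star_natCast, star_natCast,
      star_ofNat, sw]
  obtain ⟨g, hg, h2⟩ := SURJ_ok M (1 + 9 * r * t * (ω : Zw)) h.ne ⟨3 * r * t * (ω : Zw), by ring⟩ (by
    rw [h.hM, Nat.cast_pow]
    exact h1.pow_right.mul_right ⟨1, -(t * (ω : Zw)), by ring⟩)
  have k : ∀ g ∈ GK, ∀ s : Zw, (∀ P : Pt, M • P = 0 → gal g P = (1 + 9 * r * s) • P) →
      ∀ (χ : GQ → ZMod 3) (ψ : Zw →+* R), Tw χ r → ψ M = 0 → lamZ ψ χ M g = ψ (1 + 9 * r * s) := by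
    intro g hg s e χ ψ tw hψ
    rw [lamZ, tw.fac g ⟨hg, fun P e' => by
      rw [e P (dvd_smul e' h.dr), add_smul, one_smul, dvd_smul e' (dvd_mul_right _ _), add_zero]⟩,
      ZMod.val_zero, pow_zero, one_mul]
    exact congr_XCOI hψ ((((PS_ok M h.ne).1 g hg).2.2.2.2.1 _).1 e)
  refine ⟨g, hg, 1 + 9 * r * t * (ω : Zw), ⟨(ω : Zw) ^ 2 * t' * pw, ?_⟩, ⟨t', ?_⟩, fun χ ψ tw hψ => ⟨?_, ?_⟩⟩
  · linear_combination (9 * r * pw) * ht' - (9 * r * t * t' * pw) * www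
  · rw [sv]
    linear_combination (9 * r * pw) * ht'
  · simpa only [mul_assoc] using k g hg (t * (ω : Zw)) (by simpa only [mul_assoc] using h2) χ ψ tw hψ
  · have ci : c = c⁻¹ := eq_inv_of_mul_eq_one_left h.cj.sq
    rw [sv, mul_assoc (9 * r : Zw)]
    refine k _ (by simpa only [← ci] using GK_on.1.conj_mem g hg c) _ (fun P e => ?_) χ ψ tw hψ
    rw [W.gal_mul, W.gal_mul, h2 _ (by rw [← h.st, ← gal_star h.cj.nk, e, map_zero]),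
      gal_star h.cj.nk, ← W.gal_mul, h.cj.sq, W.gal_one, sv, mul_assoc (9 * r : Zw)]

theorem lz {χ : GQ → ZMod 3} (tw : Tw χ r) {ψ : Zw →+* R} (hψ : ψ (p ^ n : ℕ) = 0) :
    ψ M = 0 ∧ ∀ u ∈ UM M, lamZ ψ χ M u = 1 := by
  have : ψ M = 0 := by rw [h.hM, map_mul, hψ, zero_mul]
  obtain ⟨j⟩ := ex_j (R := R) (n := p ^ n) (by simpa using hψ)
  exact ⟨this, (((LZ_ok χ r M tw h.ne h.dr).2.2 R ψ this).1 _ j h.dq).1.one⟩

theorem co {χ : GQ → ZMod 3} (tw : Tw χ r) {ψ : Zw →+* R} (hψ : ψ (p ^ n : ℕ) = 0) {x : GQ → Pt}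
    (hx : Cz χ GK x) (hq : ∀ g ∈ GK, ((p ^ n : ℕ) : Zw) • x g = 0) :
    Co (lamZ ψ χ M) GK fun g => ic ψ G (x g) :=
  (((COI_ok R ψ _ G h.q0' h.gen hψ).2.2 χ r M tw h.ne h.dr h.dq).2 GK le_rfl).1 x hx hq

theorem sah {χ : GQ → ZMod 3} (tw : Tw χ r) {x : GQ → Pt} (hx : Cz χ GK x)
    (hq : ∀ g ∈ GK, ((p ^ n : ℕ) : Zw) • x g = 0) {g₀ : GQ} (h0 : g₀ ∈ GK) {v s : Zw}
    (hv : lamZ φ χ M g₀ = φ v) (hs : ∀ u ∈ UM M, φ s * ic φ G (x u) = 0) (g : GQ) (hg : g ∈ GK) :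
    (d ^ n * ((v - 1) * s)) • x g = bd χ ((d ^ n * s) • x g₀) g := by
  obtain ⟨-, c1, c2⟩ := COI_ok R φ _ G h.q0' h.gen h.φq
  have k := (h.co tw h.φq hx hq).2
  have hu := ((PS_ok M h.ne).1 g hg).2.2.2.2.2.2.1 g₀ h0
  have h4 := k _ (GK.mul_mem hg h0) _ hu.1
  rw [mul_inv_cancel_left, k g₀ h0 g hg, k g hg g₀ h0, hv] at h4
  have t : ∀ (a : Zw) (g : GQ), g ∈ GK → ((p ^ n : ℕ) : Zw) • a • x g = 0 := fun a g hg => by
    rw [smul_comm, hq g hg, smul_zero]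
  have t' : ((p ^ n : ℕ) : Zw) • bd χ (s • x g₀) g = 0 := by
    rw [← bd_smul hg, t s g₀ h0, bd, map_zero, sub_zero]
  rw [mul_smul, mul_smul (d ^ n), bd_smul hg, ← sub_eq_zero, ← smul_sub,
    ← h.ic0 (by rw [smul_sub, t _ g hg, t', sub_zero]), ((c1 _ (t _ g hg)).2.2.2 _ t').2,
    ((c2 χ r M tw h.ne h.dr h.dq).1 g hg _ (t s g₀ h0)).2, (c1 _ (hq g hg)).2.1,
    (c1 _ (hq g₀ h0)).2.1, map_mul, map_sub, map_one]
  linear_combination φ s * h4 + lamZ φ χ M (g * g₀) * hs _ hu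

theorem pk (hINF : INF_st) {V : Plc} {F : GQ} {B : ℕ} (hV : In V F)
    (hB : B + p ^ n * (9 * r) < V.l) (hD : V.D ≤ UM M) :
    Kp r B V.l ∧ p ^ n ∣ V.l + 1 ∧ M ∣ V.l + 1 ∧ ¬ Ov V M := by
  obtain ⟨-, -, -, -, a3, -, -, -, -, -, a5, -⟩ := hINF.2.2 V F hV
  have e : M = (p ^ n * (9 * r) : ℕ) := by rw [h.hM]; push_cast; rfl
  have k0 : ¬ Ov V M := fun k => by
    have := Nat.le_of_dvd (Nat.pos_of_ne_zero (mul_ne_zero h.q0 (mul_ne_zero (by decide) h.r0)))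
      ((PLK_ok.2.2.2.1 V _).1 (e ▸ k))
    omega
  have k1 := (a5 M h.ne k0).1.1 (hD a3.1)
  have k2 := nn_dvd k1
  rw [e, ← Nat.cast_succ, nn_nat, nn_nat, Nat.pow_dvd_pow_iff two_ne_zero] at k2
  exact ⟨⟨V.hl.out, by omega, (dvd_mul_left _ _).trans k2⟩, (dvd_mul_right _ _).trans k2, k1, k0⟩

theorem fs (hCJ : CJ_st) {ψ ψ' : Zw →+* R} (e : ∀ a, ψ' (star a) = ψ a)
    (hψ : ψ' (p ^ n : ℕ) = 0) {V : Plc} {F : GQ} (hF : F ∉ GK) {y y' : GQ → Pt} (hy : Fs V F y y')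
    (hq : ((p ^ n : ℕ) : Zw) • y (F ^ 2) = 0) (t : R) :
    ∃ τ ∈ V.I, vl t n (ic ψ' G (y' τ)) = vl t n (ic ψ G (y (F ^ 2))) := by
  obtain ⟨τ, t1, u, hu, e1⟩ := hy
  obtain ⟨a, ⟨b, b', e2⟩, e3⟩ := (hCJ c h.cj).2.2.2.2 _ G F h.q0 h.gen hF
  refine ⟨τ, t1, ?_⟩
  rw [e1, ((COI_ok R ψ' _ G h.q0' h.gen hψ).2.1 _ (by
    rw [← star_natCast, ← gal_star hF, hq, map_zero])).2.1, vl_unit (hu.map ψ'), ic,
    congr_XCOI hψ (e3 _ hq), map_mul, e, vl_unit (IsUnit.of_mul_eq_one (ψ' b) (by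
      rw [← map_one ψ', ← e2, map_add, map_mul, map_mul, hψ, mul_zero, add_zero, mul_comm])), ic]

end KD

theorem one_KOY (hINF : INF_st) (hCHI : CHI_st) (hRCS : RCS_st) (hCJ : CJ_st) (hCLS : CLS_st)
    (hLOY : LOY_st) {χ χ' : GQ → ZMod 3} {r B : ℕ} {y₀ : Pt} {y₁ : AddSubgroup Pt → Pt}
    {y₂ : AddSubgroup Pt → AddSubgroup Pt → Pt} (tw : Tw χ r) (tw' : Tw χ' r) (an : Anti χ)
    (md : Mdl χ) (hs : HS χ χ' r B y₀ y₁ y₂) {b N : Zw}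
    (nd : ∀ (a d : Zw) (z : Pt), Fx χ GK z → d • z = a • y₀ → d ∣ a * b)
    (hN : ∀ (W : Plc) (P : Pt), Ov W (3 * r) → Fx χ W.D P → E1 W.v (N • P))
    {R : Type} [CommRing R] {φ : Zw →+* R} {p n e : ℕ} {M ϖ d w : Zw} {G : Pt} {c : GQ}
    (h : KD φ r p n M ϖ d G c) (he : 8 * N * (3 * (54 * r * pw)) * b = ϖ ^ e * w) (hw : ¬ ϖ ∣ w)
    (hn : 5 * e < n) {x : GQ → Pt} (sel : SelK χ x)
    (hq : ∀ g ∈ GK, ((p ^ n : ℕ) : Zw) • x g = 0) :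
    Bz χ GK fun g => (d ^ n * (ϖ ^ e * w) ^ 8) • x g := by
  obtain ⟨j⟩ := ex_j (R := R) (n := p ^ n) (by simpa using h.φq)
  obtain ⟨g₀, h0, v, ⟨v1, hv1⟩, ⟨v2, hv2⟩, hv⟩ := h.exg
  obtain ⟨P₀, e0⟩ := smul_onto h.q0' ((3 : Zw) • y₀)
  obtain ⟨c0, c1, -⟩ := COI_ok R φ _ G h.q0' h.gen h.φq
  have ch := h.chn
  have cost : ∀ a : Zw, a ∣ 8 * N * (3 * (54 * r * pw)) * b → vl (φ ϖ) n (φ a) ≤ e := fun a k => by
    have := vl_mono (t := φ ϖ) (N := n) (map_dvd φ k)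
    rw [he, mul_comm, map_mul, vl_unit (h.unit hw), map_pow, ch.vl_pow] at this
    omega
  have A : ∀ (ψ : Zw →+* R) (χ : GQ → ZMod 3) (y : GQ → Pt) (k : ℕ), ψ (p ^ n : ℕ) = 0 →
      vl (φ ϖ) n (ψ (v - star v)) ≤ e → Tw χ r → Cz χ GK y →
      (∀ g ∈ GK, ((p ^ n : ℕ) : Zw) • y g = 0) → e + k < n →
      (∃ u ∈ UM M, vl (φ ϖ) n (ic ψ G (y u)) ≤ k) →
      Adt (UM M) (fun g => ic ψ G (y g)) ∧ Lc (UM M) (fun g => ic ψ G (y g)) ∧ ∃ u ∈ UM M,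
        ic ψ G (y (c * u * c)) + ic ψ G (y u) ∉ (Ideal.span {φ ϖ ^ (e + k + 1)}).toAddSubgroup := by
    rintro ψ χ y k hψ k1 tw cz tor k2 ⟨u, hu, k3⟩
    obtain ⟨l1, l2⟩ := h.lz tw hψ
    have co := h.co tw hψ cz tor
    refine ⟨fun g hg g' hg' => by simp only [co.2 g hg.1 g' hg'.1, l2 g hg, one_mul],
      co.1.mono (UM_le M), sym_KOY h.on (UM_le M) l2 co h.cj.sq h0 hu ((nm_KOY k2).2 ?_)⟩
    rw [(hv χ ψ tw l1).1, (hv χ ψ tw l1).2, ← map_sub, ch.vl_mul]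
    omega
  have z0 := cz_bd_XCOI tw le_rfl P₀
  have t0 : ∀ g ∈ GK, ((p ^ n : ℕ) : Zw) • bd χ P₀ g = 0 := fun g hg => by
    rw [← bd_smul hg, e0, bd, (hs.g0.smul le_rfl 3) _ hg, sub_self]
  have sah := fun y s cz tor => h.sah (x := y) (s := s) tw cz tor h0 (hv χ φ tw h.φM).1
  have b0 : ∃ u ∈ UM M, vl (φ ϖ) n (ic φ G (bd χ P₀ u)) ≤ e := by
    by_contra! k
    have k1 := sah _ (ϖ ^ (n - (e + 1))) z0 t0 fun u hu => by
      rw [map_pow, ch.mul_eq_zero, ch.vl_pow]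
      have := k u hu
      omega
    have k2 := (h.qt.ker _).2 (nd ((v - 1) * ϖ ^ (n - (e + 1)) * 3) (ϖ ^ n)
      ((d ^ n * ((v - 1) * ϖ ^ (n - (e + 1)))) • P₀ - (d ^ n * ϖ ^ (n - (e + 1))) • bd χ P₀ g₀)
      (fun g hg => sub_eq_zero.1 (show bd χ _ g = 0 by rw [bd_sub, bd_smul hg, k1 g hg, sub_self]))
      (by rw [smul_sub, ← mul_smul, ← mul_smul, ← mul_assoc (ϖ ^ n), ← mul_assoc (ϖ ^ n), ← h.qe,
        dvd_smul (t0 g₀ h0) (dvd_mul_right _ _), sub_zero, mul_comm, mul_smul, e0, ← mul_smul]))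
    have k3 := cost ((v - 1) * 3 * b) ⟨8 * N * v1, by rw [hv1]; ring⟩
    rw [show (v - 1) * ϖ ^ (n - (e + 1)) * 3 * b = ϖ ^ (n - (e + 1)) * ((v - 1) * 3 * b) by ring,
      map_mul, map_pow, ch.mul_eq_zero, ch.vl_pow] at k2
    omega
  have cv := cost (v - star v) ⟨8 * N * 3 * v2 * b, by rw [hv2]; ring⟩
  have q2 : 2 ≤ p ^ n := h.pp.two_le.trans (Nat.le_self_pow (Nat.ne_zero_of_lt hn) p)
  obtain ⟨a1, a2, a3⟩ := A φ χ _ e h.φq cv tw z0 t0 (by omega) b0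
  obtain ⟨V, F, hV, hB, -, hD, f1, -⟩ := hCHI.2 (UM M) c (B + p ^ n * (9 * r)) R R _ _ _ _ h.on
    (UM_le M) h.cj a1 a2 a1 a2 a3 a3
  obtain ⟨kp, hl, hl', -⟩ := h.pk hINF hV hB (hD V rfl)
  obtain ⟨-, -, -, nF, fk, -⟩ := hINF.2.2 V F hV
  have f2 := (nm_KOY (n := n) (by omega)).1 f1
  obtain ⟨P₁, c₁, cl, fs, cls⟩ := hCLS χ χ' r B _ y₀ P₀ y₁ y₂ V F tw tw' hs q2 e0 hV kp hl
  have sq : φ.comp (starRingEnd Zw) (p ^ n : ℕ) = 0 := by simpa only [map_natCast] using h.φq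
  obtain ⟨τ, t1, t2⟩ := h.fs hCJ (ψ := φ) (ψ' := φ.comp (starRingEnd Zw))
    (fun a => congrArg φ (star_star a)) sq nF fs (t0 _ fk.1.2) (φ ϖ)
  obtain ⟨γ, hγ⟩ : ic φ G (bd χ P₀ (F ^ 2)) ∣ φ ϖ ^ (e + e) := by
    rw [ch.dvd_iff, ch.vl_pow]
    omega
  obtain ⟨β, hβ⟩ := h.qt.sur (γ * ic φ G (x (F ^ 2)))
  set x' : GQ → Pt := fun g => ϖ ^ (e + e) • x g - β • bd χ P₀ g with hx'
  have sel' : SelK χ x' := ⟨⟨sel.1.1.map₂ z0.1 fun P Q => ϖ ^ (e + e) • P - β • Q,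
    fun g hg g' hg' => by
      simp only [hx', sel.1.2 g hg g' hg', z0.2 g hg g' hg', map_sub, eta_smul χ hg, smul_add]
      abel⟩, fun W => (sel.2 W).elim fun P hP => ⟨ϖ ^ (e + e) • P - β • P₀, fun g hg => by
        rw [← bd, bd_sub, bd_smul hg.2, bd_smul hg.2, bd, ← hP g hg]⟩⟩
  have s1 : ∀ (a : Zw) (T : Pt), ((p ^ n : ℕ) : Zw) • T = 0 → ((p ^ n : ℕ) : Zw) • a • T = 0 :=
    fun a T k => by rw [smul_comm, k, smul_zero]
  have hq' : ∀ g ∈ GK, ((p ^ n : ℕ) : Zw) • x' g = 0 := fun g hg => by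
    rw [smul_sub, s1 _ _ (hq g hg), s1 _ _ (t0 g hg), sub_zero]
  have key : ∀ u ∈ UM M, φ (ϖ ^ (5 * e)) * ic φ G (x' u) = 0 := by
    by_contra! k
    obtain ⟨u, hu, k⟩ := k
    rw [Ne, map_pow, ch.mul_eq_zero, ch.vl_pow] at k
    obtain ⟨a4, a5, a6⟩ := A φ χ x' (n - 5 * e - 1) h.φq cv tw sel'.1 hq' (by omega)
      ⟨u, hu, by omega⟩
    obtain ⟨a7, a8, a9⟩ := A _ χ' c₁ (e + e) sq (by
      rwa [show φ.comp (starRingEnd Zw) (v - star v) = -φ (v - star v) by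
        simp only [RingHom.comp_apply, map_sub, starRingEnd_apply, star_star, neg_sub], vl_neg])
      tw' cl.cz cl.tor (by omega) ⟨τ, hD V rfl (V.I_le t1), t2 ▸ f2⟩
    obtain ⟨V', F', hV', hB', -, hD', f3, f4⟩ := hCHI.2 (UM M) c (B + p ^ n * (9 * r) + V.l) R R
      _ _ _ _ h.on (UM_le M) h.cj a4 a5 a7 a8 a6 a9
    obtain ⟨kp', hl1, hl2, no⟩ := h.pk hINF (B := B) hV' (by omega) (hD' V' rfl)
    obtain ⟨-, -, -, nF', fk', -⟩ := hINF.2.2 V' F' hV'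
    obtain ⟨P₂, c₂, cl', fs'⟩ := cls V' F' hV' kp' hl1 (by omega)
    obtain ⟨τ', t3, t4⟩ := h.fs hCJ (ψ := φ.comp (starRingEnd Zw)) (ψ' := φ) (fun _ => rfl) h.φq
      nF' fs' (cl.tor _ fk'.1.2) (φ ϖ)
    obtain ⟨m1, m2⟩ := (hCJ c h.cj).2.2.2.1 χ r _ M R φ j tw an h.ne h.st h.dr h.dq h.φM
    have co := h.co tw h.φq sel'.1 hq'
    have k1 := (hRCS R p n j c _ (fun g => φ N * ic φ G (x' g)) _ h.pp h.n1 h.cj m1 m2
      ⟨co.1.map (φ N * ·), fun g hg g' hg' => by simp only [co.2 g hg g' hg']; ring⟩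
      (h.co tw h.φq cl'.cz cl'.tor)).2.2 V' F' hV' hl1
      (fun g hg => (h.lz tw h.φq).2 g (hD' V' rfl hg))
      (hLOY R φ r p n _ M ϖ d N G P₂ c F j χ x' c₂ V h tw an md hN sel' hq' hV hl' (by
        rw [((c1 _ (s1 _ _ (hq _ fk.1.2))).2.2.2 _ (s1 _ _ (t0 _ fk.1.2))).2,
          (c1 _ (hq _ fk.1.2)).2.1, (c1 _ (t0 _ fk.1.2)).2.1, hβ, map_pow, hγ]
        ring) kp'.pr hV'.l3 hl2 cl') τ' t3
    have k2 := (BZC_ok χ x' tw.add).1 _ _ V' tw.unr (fun k => no (k.dvd ⟨1, by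
      rw [h.hM]; ring⟩)) (sel'.2 V') (fun g hg => hq' g hg.2) τ' t3
    have k3 : φ (8 * N) * ic φ G (x' (F' ^ 2)) * ic φ G (c₂ τ') = 0 := by
      simp only [k2, ← zero_smul Zw G, c0, map_zero] at k1
      rw [map_mul, map_ofNat]
      linear_combination k1
    have k4 := cost (8 * N) (Dvd.dvd.mul_right (dvd_mul_right _ _) _)
    have k5 := (nm_KOY (n := n) (by omega)).1 f3
    have k6 := (nm_KOY (n := n) (by omega)).1 f4
    rw [ch.mul_eq_zero, ch.vl_mul, t4] at k3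
    omega
  obtain ⟨P, hP⟩ := bz_KOY (χ := χ) (x := fun g => (d ^ n * ((v - 1) * ϖ ^ (5 * e)) *
    ϖ ^ (e + e)) • x g) ⟨(d ^ n * ϖ ^ (5 * e)) • x' g₀ + (d ^ n * ((v - 1) * ϖ ^ (5 * e)) * β) • P₀,
      fun g hg => by
        rw [← bd, bd_add, ← sah _ _ sel'.1 hq' key g hg, bd_smul hg, mul_smul _ β, smul_sub,
          sub_add_cancel, ← mul_smul]⟩ (8 * N * 3 * v1 * b * w ^ 7)
  refine ⟨P, fun g hg => ?_⟩
  rw [← hP g hg]
  beta_reduce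
  rw [← mul_smul, pow_succ _ 7]
  nth_rewrite 2 [← he]
  rw [hv1]
  congr 1
  ring

theorem KOY_pf (hINF : INF_st) (hCHI : CHI_st) (hRCS : RCS_st) (hCJ : CJ_st) (hCLS : CLS_st)
    (hLOY : LOY_st) : KOY_st := by
  intro χ χ' r B y₀ y₁ y₂ tw tw' an md hs ⟨b, b0, nd⟩
  obtain ⟨N, N0, hN⟩ := MUL_ok.1 r tw.r0
  obtain ⟨c, hc⟩ := hINF.1
  have B0 : 8 * N * (3 * (54 * r * pw)) * b ≠ 0 := mul_ne_zero (mul_ne_zero
    (mul_ne_zero (by decide) N0) (mul_ne_zero (by decide) (mul_ne_zero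
      (mul_ne_zero (by decide) (Nat.cast_ne_zero.2 tw.r0)) pw_ne))) b0
  refine ⟨nn (_ ^ 8), (nn_pos (pow_ne_zero _ B0)).ne', fun p k x pp p3 sel hk => ?_⟩
  obtain ⟨s, u, hu, hp, h1, h2⟩ := PFA_ok p pp p3
  simp only [← Nat.cast_smul_eq_nsmul Zw] at hk ⊢
  let J : Ideal Zw :=
    { carrier := {a | Bz χ GK fun g => (a * (8 * N * (3 * (54 * r * pw)) * b) ^ 8) • x g}
      zero_mem' := ⟨0, by simp⟩
      add_mem' := fun ⟨P, hP⟩ ⟨Q, hQ⟩ => ⟨P + Q, fun g hg => by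
        simp only [add_mul, add_smul, hP g hg, hQ g hg, map_add]
        abel⟩
      smul_mem' := fun a a' h => by
        simpa only [← mul_smul, ← mul_assoc, Set.mem_ofPred_eq, smul_eq_mul] using bz_KOY h a }
  have k1 : ∀ ϖ ∈ s, IsUnit (Ideal.Quotient.mk J ϖ) := fun ϖ h => by
    have pr := (h1 ϖ h).1.1
    obtain ⟨d, fa, cop⟩ := h2 ϖ pr (hp ▸ (dvd_prod_of_mem _ h).mul_left u)
    obtain ⟨e, w, hw, he⟩ := WfDvdMonoid.max_power_factor B0 pr.irreducible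
    obtain ⟨G, gen⟩ := (CYG_ok (p ^ (k + 5 * e + 1) : ℕ)
      (Nat.cast_ne_zero.2 (pow_ne_zero _ pp.ne_zero))).1
    have := one_KOY hINF hCHI hRCS hCJ hCLS hLOY tw tw' an md hs nd
      (fun W P => hN χ W P tw.add) ⟨pp, p3, by omega, tw.r0, rfl, pr, fa, cop, fun ϖ' h3 h4 => by
        rw [hp, hu.dvd_mul_left] at h4
        obtain ⟨z, hz, h5⟩ := (h3.1.dvd_finsetProd_iff fun x => x).1 h4
        obtain rfl := PLK_ok.2.2.2.2.2.2.2.1 _ _ h3 (h1 z hz).1 h5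
        exact (h1 ϖ h).2 _ hz, gen, qt_mk _, hc⟩ he hw (by omega) sel fun g hg =>
      dvd_smul (hk g hg) (Nat.cast_dvd_cast (pow_dvd_pow p (by omega)))
    obtain ⟨a, a', e⟩ := cop.pow_right (n := k + 5 * e + 1)
    refine IsUnit.of_mul_eq_one (Ideal.Quotient.mk J a) ?_
    rw [← map_one (Ideal.Quotient.mk J), ← e, map_add, map_mul, map_mul,
      Ideal.Quotient.eq_zero_iff_mem.2 (show d ^ _ ∈ J by rwa [← he] at this), mul_zero, add_zero, mul_comm]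
  have k2 : IsUnit (Ideal.Quotient.mk J (p ^ k : ℕ)) := by
    rw [Nat.cast_pow, map_pow, hp, map_mul, map_prod]
    exact ((hu.map _).mul (IsUnit.prod_iff.2 k1)).pow k
  rw [Ideal.Quotient.eq_zero_iff_mem.2 (show _ ∈ J from ⟨0, fun g hg => by
    simp only [dvd_smul (hk g hg) (dvd_mul_right _ _), map_zero, sub_zero]⟩), isUnit_zero_iff,
    Ideal.Quotient.zero_eq_one_iff] at k2
  rw [← mul_star_nn, mul_comm]
  exact (k2 ▸ Submodule.mem_top : _ ∈ J)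

end Pool.Agent.MP_e23604_nt.Y
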