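import Pool.Agent.Mg.Fe23604m.G463337
import Pool.Agent.Mg.Fe23604m.Gc992fc
import Pool.Agent.Mg.Fe23604m.G917aeb
import Pool.Agent.Mg.Fe23604m.G77476f
import Pool.Agent.Mg.Fe23604m.G618644
import Pool.Agent.Mg.Fe23604m.G7dcec4
import Pool.Agent.Mg.Fe23604m.G270224

set_option linter.all false

section

/-!
The logarithm modulo an inert prime.
-/

set_option autoImplicit false

open Finset QuadraticAlgebra
open scoped Classical

namespace Pool.Agent.MP_e23604_nt.Y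

open B R S W

section
variable {l : ℕ} {F : Type} [Field F] {φ : Zw →+* F}

theorem dv_LG (hq : Qt φ l) (a b : Zw) : (l : Zw) ∣ a - b ↔ φ a = φ b := by
  rw [← hq.ker, map_sub, sub_eq_zero]

theorem card_LG (hq : Qt φ l) : Nat.card F = l ^ 2 := by rw [hq.card, nn_nat]

theorem gl_LG (hl : l.Prime) (hq : Qt φ l) :
    ¬ (l : Zw) ∣ gl l ∧ ∀ v : Zw, ¬ (l : Zw) ∣ v → ∃ i : ℕ, (l : Zw) ∣ v - gl l ^ i := by
  have : Finite F := Nat.finite_of_card_ne_zero (by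
    rw [card_LG hq]
    exact pow_ne_zero _ hl.ne_zero)
  obtain ⟨g, hg⟩ := IsCyclic.exists_monoid_generator (α := Fˣ)
  obtain ⟨u, hu⟩ := hq.sur g
  refine Classical.epsilon_spec (p := fun u : Zw =>
    ¬ (l : Zw) ∣ u ∧ ∀ v : Zw, ¬ (l : Zw) ∣ v → ∃ i : ℕ, (l : Zw) ∣ v - u ^ i) ⟨u, ?_, ?_⟩
  · rw [← hq.ker, hu]
    exact g.ne_zero
  · intro v hv
    obtain ⟨i, hi⟩ := hg (Units.mk0 (φ v) fun e => hv ((hq.ker v).1 e))
    refine ⟨i, (dv_LG hq _ _).2 ?_⟩
    rw [map_pow, hu, ← Units.val_pow_eq_pow_val]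
    exact (congrArg Units.val hi).symm

theorem inj_LG (hl : l.Prime) (hq : Qt φ l) (i j : ℕ) :
    (φ (gl l) ^ (l - 1)) ^ i = (φ (gl l) ^ (l - 1)) ^ j ↔ (i : ZMod (l + 1)) = j := by
  obtain ⟨h1, h2⟩ := gl_LG hl hq
  have h0 : φ (gl l) ≠ 0 := fun e => h1 ((hq.ker _).1 e)
  have h3 : orderOf (Units.mk0 _ h0) = (l - 1) * (l + 1) := by
    rw [orderOf_eq_card_of_forall_mem_powers, Nat.card_units, card_LG hq, mul_comm,
      ← Nat.sq_sub_sq, one_pow]
    intro x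
    obtain ⟨v, hv⟩ := hq.sur x
    obtain ⟨i, hi⟩ := h2 v fun e => x.ne_zero (hv ▸ (hq.ker v).2 e)
    refine ⟨i, Units.ext ?_⟩
    rw [dv_LG hq, hv, map_pow] at hi
    exact hi.symm
  have h4 := pow_eq_pow_iff_modEq (x := Units.mk0 _ h0) (n := (l - 1) * i) (m := (l - 1) * j)
  rw [h3, Nat.ModEq.mul_left_cancel_iff' (Nat.sub_ne_zero_of_lt hl.one_lt), ← Units.val_inj,
    Units.val_pow_eq_pow_val, Units.val_pow_eq_pow_val, Units.val_mk0, pow_mul, pow_mul] at h4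
  rw [h4, ZMod.natCast_eq_natCast_iff]

theorem key_LG (hl : l.Prime) (hq : Qt φ l) {v : Zw} (hv : ¬ (l : Zw) ∣ v) (i : ℕ) :
    φ v ^ (l - 1) = (φ (gl l) ^ (l - 1)) ^ i ↔ lg l v = i := by
  have h1 : (l : Zw) ∣ v ^ (l - 1) - (gl l ^ (l - 1)) ^ (lg l v).val := by
    refine Classical.epsilon_spec (p := fun a : ZMod (l + 1) =>
      (l : Zw) ∣ v ^ (l - 1) - (gl l ^ (l - 1)) ^ a.val) ?_
    obtain ⟨j, hj⟩ := (gl_LG hl hq).2 v hv
    refine ⟨j, (dv_LG hq _ _).2 ?_⟩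
    rw [dv_LG hq, map_pow] at hj
    rw [map_pow, map_pow, map_pow, hj, pow_right_comm, inj_LG hl hq, ZMod.natCast_zmod_val]
  rw [dv_LG hq, map_pow, map_pow, map_pow] at h1
  rw [h1, inj_LG hl hq, ZMod.natCast_zmod_val]

theorem fro_LG (hl : l.Prime) (h3 : l % 3 = 2) (hq : Qt φ l) :
    (∀ k : ℤ, (k : F) ^ l = k) ∧ ∀ x : Zw, φ (star x) = φ x ^ l := by
  have : Fact l.Prime := ⟨hl⟩
  have : CharP F l := (CharP.charP_iff_prime_eq_zero hl).2 (by
    rw [← map_natCast φ, hq.ker])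
  have h1 : ∀ k : ℤ, (k : F) ^ l = k := fun k => map_intCast (frobenius F l) k
  refine ⟨h1, fun x => ?_⟩
  have h2 : (ω : Zw) ^ l = ω ^ 2 := by
    have h4 : (ω : Zw) ^ 3 = 1 := by decide
    conv_lhs => rw [← Nat.div_add_mod l 3, h3, pow_add, pow_mul, h4, one_pow, one_mul]
  have h5 : star x = (x.re : Zw) + (x.im : Zw) * ω ^ 2 := by
    have h6 : (ω : Zw) ^ 2 = ⟨-1, -1⟩ := by decide
    rw [h6]
    ext <;> simp
  conv_rhs => rw [Zw_eq x]
  rw [h5, ← h2]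
  simp only [map_add, map_mul, map_pow, map_intCast, add_pow_char, mul_pow, h1]

theorem main_LG (hl : l.Prime) (h3 : l % 3 = 2) (hq : Qt φ l) : ¬ (l : Zw) ∣ gl l ∧
    (∀ u v : Zw, (l : Zw) ∣ u - v → lg l u = lg l v) ∧
    (∀ u v : Zw, ¬ (l : Zw) ∣ u → ¬ (l : Zw) ∣ v → lg l (u * v) = lg l u + lg l v) ∧
    (∀ u : Zw, ¬ (l : Zw) ∣ u → (lg l u = 0 ↔ ∃ k : ℤ, (l : Zw) ∣ u - k) ∧
      lg l (star u) = -lg l u) ∧
    ∀ i : ℕ, lg l (gl l ^ i) = i := by
  have hp := inert_prime hl h3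
  obtain ⟨f1, f2⟩ := fro_LG hl h3 hq
  have hk : ∀ v : Zw, ¬ (l : Zw) ∣ v → φ v ^ (l - 1) = (φ (gl l) ^ (l - 1)) ^ (lg l v).val :=
    fun v hv => (key_LG hl hq hv _).2 (ZMod.natCast_zmod_val _).symm
  refine ⟨(gl_LG hl hq).1, fun u v h => ?_, fun u v hu hv => ?_, fun u hu => ⟨?_, ?_⟩,
    fun i => ?_⟩
  · rw [dv_LG hq] at h
    unfold lg
    congr 1
    funext a
    rw [dv_LG hq, dv_LG hq, map_pow φ u, map_pow φ v, h]
  · have := (key_LG hl hq (v := u * v) (fun e => (hp.dvd_or_dvd e).elim hu hv)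
      ((lg l u).val + (lg l v).val)).1 (by rw [map_mul, mul_pow, hk u hu, hk v hv, pow_add])
    rw [this, Nat.cast_add, ZMod.natCast_zmod_val, ZMod.natCast_zmod_val]
  · have h0 : φ u ≠ 0 := fun e => hu ((hq.ker u).1 e)
    have h1 : φ u ^ (l - 1) = 1 ↔ φ u ^ l = φ u := by
      conv_rhs => rw [← Nat.sub_add_cancel hl.one_le, pow_succ, mul_eq_right₀ h0]
    have h2 := key_LG hl hq hu 0
    rw [pow_zero, Nat.cast_zero] at h2
    rw [← h2, h1]
    constructor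
    · intro h
      rw [← f2, eq_comm, ← dv_LG hq] at h
      have h4 : u - star u = (u.im : Zw) * pw := by
        ext <;> simp [pw]
        ring
      rw [h4] at h
      rcases hp.dvd_or_dvd h with h | h
      · refine ⟨u.re, ?_⟩
        have h5 : u - (u.re : Zw) = (u.im : Zw) * ω := by ext <;> simp
        rw [h5]
        exact h.mul_right _
      · have h5 := nn_dvd h
        have h6 : nn pw = 3 := by decide
        rw [nn_nat, h6] at h5
        have h7 := Nat.le_of_dvd (by norm_num) h5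
        have h8 := hl.two_le
        nlinarith
    · rintro ⟨k, h⟩
      rw [dv_LG hq, map_intCast] at h
      rw [h, f1]
  · have h0 : ¬ (l : Zw) ∣ star u := by
      rw [← hq.ker, f2]
      exact pow_ne_zero _ fun e => hu ((hq.ker u).1 e)
    have := (key_LG hl hq h0 ((lg l u).val * l)).1
      (by rw [f2, pow_right_comm, hk u hu, ← pow_mul])
    rw [this, Nat.cast_mul, ZMod.natCast_zmod_val,
      eq_neg_of_add_eq_zero_left (ZMod.natCast_self' l), mul_neg_one]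
  · refine (key_LG hl hq (fun e => (gl_LG hl hq).1 (hp.dvd_of_dvd_pow e)) i).1 ?_
    rw [map_pow, pow_right_comm]

end

theorem LG_pf : LG_st := by
  intro l hl h3
  have : (Ideal.span {(l : Zw)}).IsMaximal :=
    PrincipalIdealRing.isMaximal_of_irreducible (inert_prime hl h3).irreducible
  exact @main_LG l _ (Ideal.Quotient.field (Ideal.span {(l : Zw)})) _ hl h3 (qt_mk l)

end Pool.Agent.MP_e23604_nt.Y

end

section

/-!
The action of the Galois group on the subgroups of prime order.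
-/

set_option autoImplicit false

open Finset QuadraticAlgebra
open scoped Classical

namespace Pool.Agent.MP_e23604_nt.Y

open B R S W

theorem le_AL (hLG : LG_st) {l : ℕ} (hl : l.Prime) (h3 : l % 3 = 2) {t : Pt} (ht : (l : Zw) • t = 0)
    {u v : Zw} (hu : ¬ (l : Zw) ∣ u) (hv : ¬ (l : Zw) ∣ v) (e : lg l u = lg l v) :
    AddSubgroup.zmultiples (u • t) ≤ AddSubgroup.zmultiples (v • t) := by
  obtain ⟨-, L1, L2, L3, L4⟩ := hLG l hl h3
  have hp := inert_prime hl h3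
  obtain ⟨a, w, hw⟩ := hp.irreducible.coprime_iff_not_dvd.2 hv
  have h1 : (l : Zw) ∣ v * w - 1 := ⟨-a, by linear_combination hw⟩
  have h2 : ¬ (l : Zw) ∣ w := fun h => hp.not_dvd_one (by simpa using (h.mul_left v).sub h1)
  have h4 : lg l (u * w) = 0 := by
    rw [L2 u w hu h2, e, ← L2 v w hv h2, L1 _ _ h1]
    simpa using L4 0
  obtain ⟨k, hk⟩ := (L3 _ fun h => (hp.dvd_or_dvd h).elim hu h2).1.1 h4
  refine AddSubgroup.zmultiples_le_of_mem ⟨k, ?_⟩
  have h5 : (l : Zw) ∣ k * v - u := by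
    have := (h1.mul_left u).sub (hk.mul_left v)
    rwa [show u * (v * w - 1) - v * (u * w - k) = k * v - u by ring] at this
  rw [← smul_congr ht h5, mul_smul, Int.cast_smul_eq_zsmul]

theorem eq_AL (hLG : LG_st) {l : ℕ} (hl : l.Prime) (h3 : l % 3 = 2) {t : Pt} (ht : W.Gen l t)
    {u v : Zw} (hu : ¬ (l : Zw) ∣ u) (hv : ¬ (l : Zw) ∣ v) :
    AddSubgroup.zmultiples (u • t) = AddSubgroup.zmultiples (v • t) ↔ lg l u = lg l v := by
  refine ⟨fun e => ?_, fun e => le_antisymm (le_AL hLG hl h3 ht.zero hu hv e)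
    (le_AL hLG hl h3 ht.zero hv hu e.symm)⟩
  obtain ⟨-, L1, L2, L3, -⟩ := hLG l hl h3
  obtain ⟨k, hk⟩ : u • t ∈ AddSubgroup.zmultiples (v • t) := e ▸ AddSubgroup.mem_zmultiples _
  have h1 : (l : Zw) ∣ k * v - u := by
    rw [← ht.congr, mul_smul, Int.cast_smul_eq_zsmul]
    exact hk
  have h2 : ¬ (l : Zw) ∣ k := fun h => hu (by simpa using (h.mul_right v).sub h1)
  rw [← L1 _ _ h1, L2 _ _ h2 hv, (L3 _ h2).1.2 ⟨k, by simp⟩, zero_add]

/-- the kernel of an additive function -/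
def ker_AL {A : Type} [AddCommGroup A] {a : GQ → A} (h : Adt GK a) : Subgroup GQ where
  carrier := {g | g ∈ GK ∧ a g = 0}
  one_mem' := ⟨GK.one_mem, by simpa using h 1 GK.one_mem 1 GK.one_mem⟩
  mul_mem' {g k} hg hk := ⟨GK.mul_mem hg.1 hk.1, by rw [h g hg.1 k hk.1, hg.2, hk.2, add_zero]⟩
  inv_mem' {g} hg := ⟨GK.inv_mem hg.1, by
    have h1 : a 1 = 0 := by simpa using h 1 GK.one_mem 1 GK.one_mem
    have h2 := h g hg.1 _ (GK.inv_mem hg.1)
    rwa [mul_inv_cancel, h1, hg.2, zero_add, eq_comm] at h2⟩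

theorem AL_pf (hINF : INF_st) (hRAMI : RAMI_st) (hLG : LG_st) : AL_st := by
  intro l hl h3
  obtain ⟨L0, L1, L2, L3, L4⟩ := hLG l hl h3
  have hp := inert_prime hl h3
  have h0 := hp.ne_zero
  have G : W.Gen l (tl l) := Classical.epsilon_spec (CYG_ok l h0).1
  obtain ⟨PS, PO⟩ := PS_ok l h0
  have op := (PO (by simp)).2
  have nd : ∀ g ∈ GK, ¬ (l : Zw) ∣ ps l g := fun g hg =>
    hp.irreducible.coprime_iff_not_dvd.1 (PS g hg).2.1.symm
  have gp : ∀ i : ℕ, ¬ (l : Zw) ∣ gl l ^ i := fun i h => L0 (hp.dvd_of_dvd_pow h)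
  have lv : ∀ i : ZMod (l + 1), lg l (gl l ^ i.val) = i := fun i => by
    rw [L4, ZMod.natCast_zmod_val]
  have act : ∀ (g : GQ) (u : Zw), g ∈ GK → (∀ P : Pt, (l : Zw) • P = 0 → gal g P = u • P) →
      Al l g = lg l u := fun g u hg h => L1 _ _ (((PS g hg).2.2.2.2.1 u).1 h)
  have ad : Adt GK (Al l) := fun g hg h hh =>
    (L1 _ _ ((PS g hg).2.2.2.2.2.1 h hh)).trans (L2 _ _ (nd g hg) (nd h hh))
  have um : ∀ g ∈ UM l, Al l g = 0 := fun g hg => by
    rw [act g 1 hg.1 fun P hP => by rw [hg.2 P hP, one_smul]]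
    simpa using L4 0
  have lc : Lc GK (Al l) := lc_of_open op fun g hg u hu _ => by
    rw [ad g hg u hu.1, um u hu, add_zero]
  have mp : ∀ b : Zw, ¬ (l : Zw) ∣ b → ∀ i : ZMod (l + 1),
      AddSubgroup.zmultiples (b • gl l ^ i.val • tl l) = ln l (i + lg l b) := fun b hb i => by
    rw [← mul_smul, ln, eq_AL hLG hl h3 G (fun h => (hp.dvd_or_dvd h).elim hb (gp _)) (gp _),
      L2 _ _ hb (gp _), lv, lv, add_comm i]
  have tz : ∀ u : Zw, (l : Zw) • u • tl l = 0 := fun u => by rw [smul_comm, G.zero, smul_zero]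
  refine ⟨G, ad, lc, fun c hc g hg => ?_, um, act, fun V hV τ hτ => ?_, fun V hV a => ?_,
    fun V hV hne g hg => ?_, fun i j e => ?_, ?_, fun g hg i => ?_, fun b hb i => ?_,
    fun p n V hpp hn hV hd τ hτ e => ?_⟩
  · rw [act _ (star (ps l g)) (GK_on.1.conj_mem g hg c) fun P hP => ?_]
    · exact (L3 _ (nd g hg)).2
    have h1 := gal_star (g := c⁻¹) (by rwa [GK.inv_mem_iff]) l P
    rw [hP, map_zero, star_natCast] at h1
    rw [W.gal_mul, W.gal_mul, (PS g hg).1 _ h1.symm, gal_star hc, ← W.gal_mul, mul_inv_cancel,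
      W.gal_one]
  · rw [Ov_mul, not_or] at hV
    exact um τ ((INE_ok V hV.1 τ hτ).2.2 l hV.2)
  · subst hV
    obtain ⟨τ, hτ, e⟩ := hRAMI V (tl V.l) (gl V.l ^ a.val • tl V.l) h3 G.zero (tz _)
      (fun h => hp.not_dvd_one ((G 1).1 (by rw [h, smul_zero]))) fun h => gp _ ((G _).1 h)
    refine ⟨τ, hτ, (act τ _ hτ.2 fun P hP => ?_).trans (lv a)⟩
    obtain ⟨u, rfl⟩ := (CYG_ok _ h0).2.1 _ G P hP
    rw [gal_smul hτ.2, e, smul_comm]
  · obtain ⟨φ, hφ⟩ := hINF.2.1 V hV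
    obtain ⟨pp, ov, -, -, fk, -⟩ := hINF.2.2 V φ hφ
    have n1 : ¬ Ov V l := fun h =>
      hne ((Nat.prime_dvd_prime_iff_eq V.hl.out hl).1 ((PLK_ok.2.2.2.1 V l).1 h))
    have n3 : ¬ Ov V 3 := fun h => by
      have := (Nat.prime_dvd_prime_iff_eq V.hl.out Nat.prime_three).1 ((PLK_ok.2.2.2.1 V 3).1 h)
      omega
    have hk := V.D_le fk.1
    refine (((FRK_ok V _ pp.1 ov).2.2.2 _ fk).2.2.2.2.1 (ker_AL ad)
      (Subgroup.isOpen_mono (H₁ := UM l) (fun u hu => ⟨hu.1, um u hu⟩) op) ⟨hk, ?_⟩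
      (fun τ hτ => ⟨hτ.2, um τ ((INE_ok V n3 τ hτ).2.2 l n1)⟩) hg).2
    refine (L3 _ (nd _ hk)).1.2 ⟨-V.l, ?_⟩
    simpa using ((PS _ hk).2.2.2.2.1 _).1 fun P hP => ((FRB_ok V _ pp ov).2 _ fk).2 l P n1 hP
  · rw [← lv i, ← lv j]
    exact (eq_AL hLG hl h3 G (gp _) (gp _)).1 e
  · ext L
    simp only [lines, mem_image, mem_univ, true_and, mem_tor0 h0]
    refine ⟨fun ⟨i, e⟩ => ⟨_, ⟨fun h => gp _ ((G _).1 h), tz _⟩, e⟩, fun ⟨P, ⟨h1, h2⟩, e⟩ => ?_⟩
    obtain ⟨u, rfl⟩ := (CYG_ok _ h0).2.1 _ G P h2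
    exact ⟨lg l u, ((eq_AL hLG hl h3 G (gp _) fun h => h1 ((G u).2 h)).2 (lv _)).trans e⟩
  · rw [ln, AddMonoidHom.map_zmultiples, (PS g hg).1 _ (tz _)]
    exact mp _ (nd g hg) i
  · rw [ln, AddMonoidHom.map_zmultiples]
    exact mp b hb i
  · subst hV
    have : NeZero (p ^ n) := ⟨pow_ne_zero _ hpp.ne_zero⟩
    obtain ⟨-, ⟨σ, hσ, e'⟩, -, -, -, T⟩ := TAME_ok p n V hpp (fun h => by
      have h1 := (dvd_pow_self p (by omega)).trans hd
      rw [← h, Nat.dvd_add_self_left, Nat.dvd_one] at h1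
      omega) (by omega)
    have le := V.I_le.trans V.D_le
    have h1 := T _ (fun g => ZMod.castHom hd (ZMod (p ^ n)) (Al V.l g))
      (fun g hg h hh => by simp only [ad g (le hg) h (le hh), map_add])
      ((lc.mono le).map _) (fun u _ => by rw [nsmul_eq_mul, ZMod.natCast_self, zero_mul]) σ hσ e'
      τ hτ
    simp only [e, map_one, nsmul_eq_mul, ZMod.natCast_zmod_val] at h1
    exact IsUnit.of_mul_eq_one _ h1.symm

end Pool.Agent.MP_e23604_nt.Y

end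

section

/-!
Conjugation of the twisted action.
-/

set_option autoImplicit false

open Finset QuadraticAlgebra
open scoped Classical

namespace Pool.Agent.MP_e23604_nt.Y

open B R S W

theorem star_w_CJ (a : ZMod 3) : star ((ω : Zw) ^ a.val) = ω ^ (-a).val := by
  revert a
  decide

theorem star_dvd_CJ {M b : Zw} (h : star M = M) (e : M ∣ star b) : M ∣ b := by
  obtain ⟨k, e⟩ := e
  exact ⟨star k, by rw [← star_star b, e, star_mul, h, mul_comm]⟩

theorem CJ_pf : CJ_st := by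
  intro c hc
  have ci : c⁻¹ = c := inv_eq_of_mul_eq_one_right hc.sq
  have cc : ∀ g : GQ, c * (c * g * c) * c⁻¹ = g := fun g => by
    rw [mul_assoc c, mul_inv_cancel_right, ← mul_assoc, hc.sq, one_mul]
  have c2 : ∀ P : Pt, gal c (gal c P) = P := fun P => by rw [← W.gal_mul, hc.sq, W.gal_one]
  have k1 : ∀ g, g ∈ GK ↔ c * g * c ∈ GK := fun g => by rw [Plc.cj_GK c g, ci]
  have an : ∀ χ : GQ → ZMod 3, Anti χ → ∀ g ∈ GK, χ (c * g * c) = -χ g := fun χ h g hg => by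
    have := h c hc.nk g hg
    rwa [ci] at this
  refine ⟨k1, fun V g => ⟨by rw [Plc.mv_D, cc], by rw [Plc.mv_I, cc]⟩, fun χ h g hg P => ?_,
    fun χ r N M R _ φ j tw h hM sM hr hN h0 => ?_, fun N G g hN hG hg => ?_⟩
  · have e : eta χ (c * g * c) P = gal c (eta χ g (gal c P)) := by
      rw [eta_apply, eta_apply, gal_star hc.nk, star_w_CJ, an χ h g hg, W.gal_mul, W.gal_mul]
    exact ⟨e, by rw [bd, bd, map_sub, e, c2]⟩
  · obtain ⟨l1, l2⟩ := ((LZ_ok χ r M tw hM hr).2.2 R φ h0).1 N j hN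
    refine ⟨(ZC_pf R N j _ _ l1).1.1, fun g hg => ?_⟩
    obtain ⟨k, e⟩ : M ∣ ps M (c * g * c) - star (ps M g) :=
      (((PS_ok M hM).1 _ ((k1 g).1 hg)).2.2.2.2.1 _).1 fun P hP => by
        have : M • gal c P = 0 := by rw [← sM, ← gal_star hc.nk, hP, map_zero]
        rw [W.gal_mul, W.gal_mul, ((PS_ok M hM).1 g hg).1 _ this, gal_star hc.nk, c2]
    have e2 : φ (ps M (c * g * c)) = φ (star (ps M g)) := by
      rw [← sub_eq_zero, ← map_sub, e, map_mul, h0, zero_mul]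
    rw [lamZ, lamZ, map_mul φ _ (ps M (c * g * c)), e2, an χ h g hg, ← star_w_CJ, ← map_mul,
      ← star_mul', ← map_mul, mul_comm (star _), mul_star_nn, nn_mul, nn_pow, nn_w, one_pow,
      one_mul, cj, l2 g hg, map_natCast, map_natCast]
  · have hN' : (N : Zw) ≠ 0 := Nat.cast_ne_zero.2 hN
    have z : ∀ T : Pt, (N : Zw) • T = 0 → (N : Zw) • gal g T = 0 := fun T hT => by
      rw [← star_natCast N, ← gal_star hg, hT, map_zero]
    have cy := (CYG_ok N hN').2.1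
    have hG' : Gen N (gal g G) := fun b => by
      rw [← star_star b, ← gal_star hg, gal_ne, hG, star_star]
      exact ⟨star_dvd_CJ (star_natCast N), fun e => star_dvd_CJ (star_natCast N)
        (by rwa [star_star])⟩
    have e := co_spec (cy G hG _ (z G hG.zero))
    refine ⟨co G (gal g G), ?_, fun T hT => ?_⟩
    · obtain ⟨u, hu⟩ := cy _ hG' G hG.zero
      obtain ⟨k, hk⟩ := (hG.congr (a := 1) (b := u * co G (gal g G))).1
        (by rw [one_smul, mul_smul, ← e, ← hu])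
      exact ⟨u, k, by linear_combination -hk⟩
    · refine hG.congr.1 ?_
      rw [← co_spec (cy G hG _ (z T hT)), mul_comm, mul_smul, ← e, ← gal_star hg,
        ← co_spec (cy G hG T hT)]

end Pool.Agent.MP_e23604_nt.Y

end

section

/-!
The statements of this part hold.
-/

set_option autoImplicit false

namespace Pool.Agent.MP_e23604_nt.Y

theorem INF_ok : INF_st := INF_pf

theorem RAMI_ok : RAMI_st := RAMI_pf

theorem LG_ok : LG_st := LG_pf

theorem AL_ok : AL_st := AL_pf INF_ok RAMI_ok LG_ok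

theorem CHI_ok : CHI_st := CHI_pf INF_ok

theorem CJ_ok : CJ_st := CJ_pf

theorem RCI_ok : RCI_st := RCI_pf INF_ok

theorem RCS_ok : RCS_st := RCS_pf INF_ok CJ_ok RCI_ok

theorem ISK_ok : ISK_st := ISK_pf

theorem CLS_ok : CLS_st := CLS_pf INF_ok AL_ok

theorem KOY_ok : KOY_st :=
  KOY_pf INF_ok CHI_ok RCS_ok CJ_ok CLS_ok (LOY_pf INF_ok AL_ok RCS_ok ISK_ok CJ_ok)

theorem FINY_ok : FINY_st := FINY_pf KOY_ok

end Pool.Agent.MP_e23604_nt.Y

end
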