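import Pool.Agent.Mg.Fe23604m.G160902
import Pool.Agent.Mg.Fe23604m.Gc4cdb1
import Pool.Agent.Mg.Fe23604m.G47b00c
import Pool.Agent.Mg.Fe23604m.G3a9098

set_option linter.all false

section

/-!
Cubic Kummer characters, and the Kummer character of a point for the square root of `-3`.
-/

set_option autoImplicit false

open Finset QuadraticAlgebra
open scoped Classical

namespace Pool.Agent.MP_e23604_nt.X

open B R S W

theorem ne_KW {x s : Qb} (h0 : x ≠ 0) (hs : s ^ 3 = x) : s ≠ 0 := fun e =>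
  h0 (by rw [← hs, e, zero_pow three_ne_zero])

theorem fixw_KW {g : GQ} (hg : g ∈ GK) (a : ℕ) : g (w3 ^ a) = w3 ^ a := by
  rw [map_pow, mem_GK'.1 hg]

theorem act_KW {x s : Qb} (h0 : x ≠ 0) (hs : s ^ 3 = x) {g : GQ} (hg : g ∈ GK) (hx : g x = x) :
    g s = w3 ^ (kw x g).val * s := by
  have h1 := rt_pow three_ne_zero x
  have h2 := ne_KW h0 h1
  have h3 : (g (rt 3 x) / rt 3 x) ^ 3 = 1 := by rw [div_pow, ← map_pow, h1, hx, div_self h0]
  have h4 := mem_GK.1 hg (s / rt 3 x) (by rw [div_pow, hs, h1, div_self h0])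
  rw [kw, pow_lg h3]
  rw [map_div₀, div_eq_div_iff ((map_ne_zero g).2 h2) h2] at h4
  field_simp
  linear_combination h4

theorem uniq_KW {x s : Qb} (h0 : x ≠ 0) (hs : s ^ 3 = x) {g : GQ} (hg : g ∈ GK) (hx : g x = x)
    {a : ZMod 3} (h : g s = w3 ^ a.val * s) : kw x g = a :=
  w3_inj (mul_right_cancel₀ (ne_KW h0 hs) ((act_KW h0 hs hg hx).symm.trans h))

theorem conj_KW {c g : GQ} (hc : c ∉ GK) (hg : g ∈ GK) {x : Qb} (h0 : x ≠ 0) (hx : g x = x) :
    kw (c x) (c * g * c⁻¹) = -kw x g := by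
  have h1 := rt_pow three_ne_zero x
  have e : ∀ y, (c * g * c⁻¹) (c y) = c (g y) := fun y => by
    rw [← AlgEquiv.mul_apply, inv_mul_cancel_right, AlgEquiv.mul_apply]
  refine uniq_KW ((map_ne_zero c).2 h0) (s := c (rt 3 x)) (by rw [← map_pow, h1])
    ((Plc.cj_GK c g).1 hg) (by rw [e, hx]) ?_
  rw [e, act_KW h0 h1 hg hx, map_mul, act_w3, ep_neg hc, neg_one_mul]

theorem rat_KW {r : ℚ} (h : r ≠ 0) {g : GQ} (hg : g ∈ GK) : kw r g = kum r g :=
  uniq_KW (by exact_mod_cast h) (cbr_cube r) hg (map_ratCast g r) (act_SKAP h g)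

theorem anti_KW {r : ℚ} (h : r ≠ 0) : Y.Anti (kum r) := fun c hc g hg => by
  have := conj_KW hc hg (x := r) (by exact_mod_cast h) (map_ratCast g r)
  rwa [map_ratCast, rat_KW h hg, rat_KW h ((Plc.cj_GK c g).1 hg)] at this

theorem KW_pf : KW_st := by
  refine ⟨fun H x hH h0 hx => ?_, fun r h => ⟨fun g hg => rat_KW h hg, anti_KW h⟩,
    fun D hD => ⟨fun c hc g hg => ?_, ?_⟩, ⟨lz 3 w3, ?_, fun g hg x h0 hx => ?_⟩,
    fun c hc g hg x h0 hx => conj_KW hc hg h0 (hx g hg)⟩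
  · have h1 := rt_pow three_ne_zero x
    have k : ∀ s, s ^ 3 = x → ∀ g ∈ H, g s = w3 ^ (kw x g).val * s :=
      fun s hs g hg => act_KW h0 hs (hH hg) (hx g hg)
    refine ⟨fun g hg h hh => ?_, (Lc.apply H (rt 3 x)).map fun z => S.lg (z / rt 3 x), k,
      ⟨fun h => ⟨_, h1, fun g hg => ?_⟩, ?_⟩, fun g hg => ?_, fun y hy hf g hg => ⟨?_, ?_⟩⟩
    · refine uniq_KW h0 h1 (hH (H.mul_mem hg hh)) (hx _ (H.mul_mem hg hh)) ?_
      rw [AlgEquiv.mul_apply, k _ h1 h hh, map_mul, fixw_KW (hH hg), k _ h1 g hg, w3_add]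
      ring
    · rw [k _ h1 g hg, h g hg, ZMod.val_zero, pow_zero, one_mul]
    · rintro ⟨s, hs, hf⟩ g hg
      exact uniq_KW h0 hs (hH hg) (hx g hg) (by rw [hf g hg, ZMod.val_zero, pow_zero, one_mul])
    · refine uniq_KW (neg_ne_zero.2 h0) (s := -rt 3 x) (by rw [Odd.neg_pow (by decide), h1])
        (hH hg) (by rw [map_neg, hx g hg]) ?_
      rw [map_neg, k _ h1 g hg, mul_neg]
    · have h2 := rt_pow three_ne_zero y
      refine uniq_KW (mul_ne_zero h0 hy) (s := rt 3 x * rt 3 y) (by rw [mul_pow, h1, h2])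
        (hH hg) (by rw [map_mul, hx g hg, hf g hg]) ?_
      rw [map_mul, k _ h1 g hg, act_KW hy h2 (hH hg) (hf g hg), w3_add]
      ring
    · exact uniq_KW (pow_ne_zero 3 hy) rfl (hH hg) (by rw [map_pow, hf g hg])
        (by rw [hf g hg, ZMod.val_zero, pow_zero, one_mul])
  · rw [ch, ch, anti_KW (Nat.cast_ne_zero.2 hD) c hc g hg, mul_neg]
  · obtain ⟨Ψ, -, h⟩ := ISO_ok D hD
    have h0 : (D : ℚ) ≠ 0 := Nat.cast_ne_zero.2 hD
    exact ⟨E3 0 D, ⟨by rw [E3_Δ]; simp [h0]⟩, Ψ, h⟩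
  · have : lz 3 w3 ≠ 0 := fun e => w3_ne_one (by
      rw [← zt_lz three_ne_zero w3_cube, e, ZMod.val_zero, pow_zero])
    revert this
    generalize lz 3 w3 = e
    revert e
    decide
  · have h1 := rt_pow three_ne_zero x
    refine lz_eq three_ne_zero ?_
    rw [zt_mul three_ne_zero, zt_lz three_ne_zero w3_cube, hx, act_KW h0 h1 hg hx,
      mul_div_cancel_right₀ _ (ne_KW h0 h1)]

/-- the cube root of the second coordinate of the image -/
noncomputable def tt_KW (S : Pt) : Qb := (yc S - w3 ^ 2) / (W.io pw * xc S)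

theorem tT_KW {S : Pt} (hx : xc S ≠ 0) : tt_KW (S + T0) = w3 ^ 2 * tt_KW S := by
  have h0 : S ≠ 0 := fun e => hx (by rw [e, xc_zero])
  obtain ⟨h, e⟩ := on_xy h0
  have hxy := xy_eq S
  have hp := io_ne pw_ne
  rw [tt_KW, tt_KW]
  generalize xc S = x at *
  generalize yc S = y at *
  have hy : y ≠ 0 := fun e => hx (pow_eq_zero_iff three_ne_zero |>.1 (by rw [← hxy, e]; ring))
  have k := pt_add_ne G01 (l := y / x) (x₃ := -y / x ^ 2) (y₃ := -y / x ^ 3) h on_T hx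
    (by field_simp; ring) (by push_cast; field_simp; linear_combination -hxy)
    (by push_cast; field_simp; linear_combination -hxy)
  rw [e, T0, T, k.2, xc_pt k.1, yc_pt k.1]
  field_simp
  linear_combination -w3 ^ 2 * hxy + y * (w3 ^ 2 - w3 + 1) * w3_spec

theorem tn_KW {S : Pt} (h : pw • S ≠ 0) (n : ℕ) : tt_KW (S + n • T0) = (w3 ^ 2) ^ n * tt_KW S := by
  induction n with
  | zero => simp
  | succ n ih =>
    rw [succ_nsmul, ← add_assoc, tT_KW, ih, pow_succ, mul_assoc, mul_left_comm, pow_succ]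
    · ring
    · rw [Ne, ← PI_ok.2.1, smul_add, smul_comm, pw_T0, smul_zero, add_zero]
      exact h

theorem tw_KW (S : Pt) (n : ℕ) : w3 ^ n * tt_KW ((ω : Zw) ^ n • S) = tt_KW S := by
  induction n with
  | zero => simp
  | succ n ih =>
    rw [← ih, pow_succ' ω, mul_smul, tt_KW, tt_KW, (xc_w _).1, (xc_w _).2, pow_succ]
    have := w3_ne_zero
    by_cases h : xc ((ω : Zw) ^ n • S) = 0
    · simp [h]
    · have hp := io_ne pw_ne
      field_simp

theorem KPI_pf : KPI_st := by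
  intro χ g S hg h
  obtain ⟨p1, p2, p3, -, p5⟩ := PI_ok
  refine ⟨fun e => ?_, fun h0 hT => ?_⟩
  · have h3 : (3 : Zw) • S = 0 := by
      rw [show (3 : Zw) = -pw * pw by decide, mul_smul, e, neg_smul, pw_T0, neg_zero]
    have t3 := three_T G01 (F := Qb)
    rw [eta_apply, p5 g hg S h3]
    have a1 : (ω : Zw) • S - S = -T0 := by
      rw [← w_T0, ← w_T0, ← e, ← mul_smul, ← mul_smul, ← neg_smul,
        show -(ω * ω * pw) = (ω : Zw) - 1 by decide, sub_smul, one_smul]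
    rcases z3 (χ g) with k | k | k <;> rw [k]
    · simp
    · rw [ZMod.val_one, pow_one, a1, show (-1 : ZMod 3).val = 2 from rfl, T0]
      linear_combination (norm := abel1) -t3
    · have a2 := congrArg ((ω : Zw) • ·) a1
      simp only [smul_sub, smul_neg, w_T0] at a2
      rw [show (2 : ZMod 3).val = 2 from rfl, show (-2 : ZMod 3).val = 1 from rfl, sq, mul_smul,
        T0] at *
      linear_combination (norm := abel1) a1 + a2 - t3
  · have hx : xc S ≠ 0 := fun e => h0 ((p2 S).2 e)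
    have h1 : tt_KW S ^ 3 = yc (pw • S) := (p3 S hx).2.symm
    have hy : yc (pw • S) ≠ 0 := fun e => hT (pt_ext h0 T0_ne
      ((pow_eq_zero_iff three_ne_zero |>.1 (by rw [← xy_eq, e]; ring)).trans xc_T0.1.symm)
      (e.trans xc_T0.2.symm))
    have hf : g (yc (pw • S)) = yc (pw • S) := by
      have : ∀ (n : ℕ) (P : Pt), yc ((ω : Zw) ^ n • P) = yc P := fun n P => by
        induction n with
        | zero => rw [pow_zero, one_smul]
        | succ n ih => rw [pow_succ', mul_smul, (xc_w _).2, ih]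
      rw [← (xc_gal g _).2, ← this (χ g).val, ← eta_apply, h]
    obtain ⟨j, hj⟩ : ∃ j : ZMod 3, eta χ g S - S = j.val • T0 := by
      have t3 := three_T G01 (F := Qb)
      rcases (p1 (eta χ g S - S)).1 (by rw [smul_sub, ← eta_smul χ hg, h, sub_self]) with k | k | k
      · exact ⟨0, by simpa using k⟩
      · exact ⟨1, by rw [k, ZMod.val_one, one_nsmul]⟩
      · refine ⟨2, ?_⟩
        rw [k, show (2 : ZMod 3).val = 2 from rfl, T0]
        linear_combination (norm := abel1) -t3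
    have h2 := tw_KW (gal g S) (χ g).val
    rw [← eta_apply, eq_add_of_sub_eq' hj, tn_KW h0] at h2
    have h3 : g (tt_KW S) = w3 ^ (χ g - j).val * tt_KW S := by
      rw [(by decide : ∀ a b : ZMod 3, a - b = a + (b + b)), w3_add, w3_add, mul_assoc, ← mul_pow, ← sq, h2, tt_KW, tt_KW, (xc_gal g S).1, (xc_gal g S).2, map_div₀,
        map_sub, map_mul, io_fix hg, fixw_KW hg]
    rw [hj, uniq_KW hy h1 hg hf h3, sub_sub_cancel]

end Pool.Agent.MP_e23604_nt.X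

end

section

/-!
The densities of the classes modulo 27 with a given parity.
-/

set_option autoImplicit false

open Finset Filter Topology

namespace Pool.Agent.MP_e23604_nt.X

open S

end Pool.Agent.MP_e23604_nt.X

end

section

/-!
The Kummer characters of the second coordinates of the points of the third family.
-/

set_option autoImplicit false

open Finset QuadraticAlgebra
open scoped Classical

namespace Pool.Agent.MP_e23604_nt.M

open B R S W Un X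

/-- `x` is not zero, fixed by `h`, and its Kummer character takes the value `a` at `h` -/
structure Kv_MKW (h : GQ) (x : Qb) (a : ZMod 3) : Prop where
  gk : h ∈ GK
  ne : x ≠ 0
  fx : h x = x
  eq : kw x h = a

namespace Kv_MKW

variable {h : GQ} {x y : Qb} {a b : ZMod 3}

theorem cube (hg : h ∈ GK) (h0 : x ≠ 0) (hx : h x = x) : Kv_MKW h (x ^ 3) 0 :=
  ⟨hg, pow_ne_zero 3 h0, by rw [map_pow, hx], uniq_KW (pow_ne_zero 3 h0) rfl hg
    (by rw [map_pow, hx]) (by rw [hx, ZMod.val_zero, pow_zero, one_mul])⟩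

theorem one (hg : h ∈ GK) : Kv_MKW h 1 0 := by simpa using cube hg one_ne_zero (map_one h)

theorem mul (p : Kv_MKW h x a) (q : Kv_MKW h y b) : Kv_MKW h (x * y) (a + b) := by
  have h1 := rt_pow three_ne_zero x
  have h2 := rt_pow three_ne_zero y
  have f : h (x * y) = x * y := by rw [map_mul, p.fx, q.fx]
  refine ⟨p.gk, mul_ne_zero p.ne q.ne, f, uniq_KW (mul_ne_zero p.ne q.ne) (s := rt 3 x * rt 3 y)
    (by rw [mul_pow, h1, h2]) p.gk f ?_⟩
  rw [map_mul, act_KW p.ne h1 p.gk p.fx, act_KW q.ne h2 p.gk q.fx, p.eq, q.eq, w3_add]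
  ring

theorem div (p : Kv_MKW h x a) (q : Kv_MKW h y b) : Kv_MKW h (x / y) (a - b) := by
  have r : Kv_MKW h (x / y) (kw (x / y) h) :=
    ⟨p.gk, div_ne_zero p.ne q.ne, by rw [map_div₀, p.fx, q.fx], rfl⟩
  have := (r.mul q).eq
  rw [div_mul_cancel₀ _ q.ne, p.eq] at this
  exact ⟨p.gk, r.ne, r.fx, eq_sub_of_add_eq this.symm⟩

theorem pow (p : Kv_MKW h x a) (n : ℕ) : Kv_MKW h (x ^ n) (n * a) := by
  induction n with
  | zero => simpa using one p.gk
  | succ n ih => rw [pow_succ, Nat.cast_succ, add_mul, one_mul]; exact ih.mul p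

theorem prod (hg : h ∈ GK) {ι : Type} (s : Finset ι) {f : ι → Qb} {c : ι → ZMod 3}
    (p : ∀ i ∈ s, Kv_MKW h (f i) (c i)) : Kv_MKW h (∏ i ∈ s, f i) (∑ i ∈ s, c i) := by
  induction s using Finset.induction_on with
  | empty => simpa using one hg
  | insert i s hi ih =>
    rw [prod_insert hi, sum_insert hi]
    exact (p i (mem_insert_self _ _)).mul (ih fun j hj => p j (mem_insert_of_mem hj))

end Kv_MKW

/-- the difference of two conjugates, for `n = 1` -/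
noncomputable def Dq_MKW (Q : Pt) : Qb := vv (7 • Q) - vv Q

theorem dd_MKW (n : ℕ) (Q : Pt) : dd n Q = Dq_MKW (n ^ 2 • Q) := by rw [dd, Dq_MKW, mul_smul]

theorem pwn_MKW {n : ℕ} (h : ¬ 3 ∣ n) : ¬ pw ∣ (n : Zw) := fun k => by
  rw [pw_dvd_iff, nn_nat] at k
  exact h (Nat.prime_three.dvd_of_dvd_pow k)

theorem nd_MKW {b : Zw} {C : AddSubgroup Pt} (hb : Pry b) (h : ND C) : ND (qC b C) :=
  ⟨qC_fin hb.ne h.fin, fun e => by
    have h1 := nn_mod3 hb.pw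
    rw [qC_cd hb.ne h.fin, Nat.prime_three.dvd_mul] at e
    exact e.elim (by omega) h.c3⟩

theorem sup_MKW (b : Zw) (C : AddSubgroup Pt) (P : Pt) :
    mC b (C ⊔ AddSubgroup.zmultiples P) = mC b C ⊔ AddSubgroup.zmultiples (b • P) := by
  rw [mC, AddSubgroup.map_sup, AddMonoidHom.map_zmultiples]
  rfl

theorem nbs_MKW {C : AddSubgroup Pt} {l : ℕ} {X : Finset Pt} (hC : ND C) (pr : Pry l)
    (hX : Nbs C l X) : Set.InjOn (pw • ·) (X : Set Pt) ∧ Nbs (mC pw C) l (X.image (pw • ·)) := by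
  have mq : ∀ (D : AddSubgroup Pt) T, T ∈ qC l D ↔ l • T ∈ D := fun D T => by
    rw [mem_qC, Nat.cast_smul_eq_nsmul]
  have lc : C ≤ qC l C := fun T hT => (mq C T).2 (nsmul_mem hT l)
  have lx : ∀ R ∈ X, R ∈ qC l C := fun R hR => (mq C R).2 (hX.1 R hR).1
  have inj : ∀ T ∈ qC l C, ∀ U ∈ qC l C, pw • T = pw • U → T = U := fun T hT U hU e =>
    sub_eq_zero.1 (pw_inj (nd_MKW pr hC) (sub_mem hT hU) (by rw [smul_sub, e, sub_self]))
  refine ⟨fun R hR R' hR' e => inj R (lx R hR) R' (lx R' hR') e, fun R' hR' => ?_,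
    fun T h1 h2 => ?_⟩
  · obtain ⟨R, hR, rfl⟩ := mem_image.1 hR'
    refine ⟨⟨_, (hX.1 R hR).1, smul_comm pw l R⟩, fun ⟨U, hU, e⟩ => (hX.1 R hR).2 ?_⟩
    exact inj U (lc hU) R (lx R hR) e ▸ hU
  · have := (mq _ T).2 h1
    rw [← pw_qC pr] at this
    obtain ⟨T', hT', rfl⟩ := mem_mC.1 this
    obtain ⟨R, ⟨a1, a2⟩, a3⟩ := hX.2 T' ((mq C T').1 hT') fun e => h2 ⟨T', e, rfl⟩
    refine ⟨pw • R, ⟨mem_image_of_mem _ a1, sup_MKW pw C R ▸ ⟨T', a2, rfl⟩⟩, fun R' ⟨b1, b2⟩ => ?_⟩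
    obtain ⟨R₂, hR, rfl⟩ := mem_image.1 b1
    rw [← sup_MKW] at b2
    obtain ⟨U, hU, e⟩ := mem_mC.1 b2
    have := inj U (sup_le lc (AddSubgroup.zmultiples_le_of_mem (lx R₂ hR)) hU) T' hT' e
    rw [a3 R₂ ⟨hR, this ▸ hU⟩]

section

variable {h : GQ} {P : Pt} {C : AddSubgroup Pt}

theorem fixP_MKW (hh : h ∈ UM 9) (hP : G9 P) : gal h P = P :=
  hh.2 P ((hP 9).2 ⟨-pw, by decide⟩)

theorem kum_MKW (hh : h ∈ UM 9) : kum 3 h = 0 := by
  have := FAC_ok 3 1 three_ne_zero one_ne_zero (fun l hl l3 d => absurd (by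
    rw [Nat.prime_three.factorization, Finsupp.single_eq_of_ne l3]
    exact dvd_zero 3) d) h (by simpa using hh)
  rwa [Nat.cast_ofNat] at this

theorem nine_MKW (hh : h ∈ UM 9) : Kv_MKW h (-9) 0 := by
  have c3 : cbr 3 ^ 3 = 3 := by simpa using cbr_cube 3
  have c0 : cbr 3 ≠ 0 := fun e => by rw [e] at c3; norm_num at c3
  have f : h (cbr 3) = cbr 3 := by
    rw [act_SKAP three_ne_zero, kum_MKW hh, ZMod.val_zero, pow_zero, one_mul]
  rw [show (-9 : Qb) = (-cbr 3 ^ 2) ^ 3 by linear_combination (cbr 3 ^ 3 + 3) * c3]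
  exact .cube hh.1 (neg_ne_zero.2 (pow_ne_zero _ c0)) (by rw [map_neg, map_pow, f])

theorem g9_MKW (hV : VV_st) (hP : G9 P) :
    G9 (4 • P) ∧ G9 (7 • P) ∧ 7 • 4 • P = P ∧ 4 • 4 • P = 7 • P := by
  obtain ⟨-, a, b, -⟩ := hV.2 P hP
  refine ⟨a 4 (by decide), a 7 (by decide), ?_, ?_⟩
  · linear_combination (norm := abel1) 3 • b
  · linear_combination (norm := abel1) b

theorem vv_MKW (hV : VV_st) (hh : h ∈ UM 9) (hP : G9 P) : Kv_MKW h (vv P) (kw (vv P) h) := by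
  obtain ⟨-, -, -, -, -, -, -, -, a, -⟩ := hV.2 P hP
  refine ⟨hh.1, fun e => by rw [e] at a; norm_num at a, ?_, rfl⟩
  simp only [vv, map_div₀, map_add, map_mul, map_pow, map_one, map_ofNat, ← (xc_gal h P).2,
    fixP_MKW hh hP]

theorem yc_MKW (hh : h ∈ UM 9) (hP : G9 P) (hx : xc P ≠ 0) (hy : yc P ≠ 0) :
    Kv_MKW h (yc P) 0 := by
  obtain ⟨S, rfl⟩ := smul_onto pw_ne P
  have fS : gal h S = S := hh.2 S (by
    rw [show (9 : Zw) = -1 * (3 * pw) * pw by decide, mul_smul, mul_smul, hP.zero, smul_zero])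
  have x0 : xc S ≠ 0 := fun e => hx (by rw [(PI_ok.2.1 S).2 e, xc_zero])
  have e := (PI_ok.2.2.1 S x0).2
  rw [e] at hy ⊢
  refine .cube hh.1 (fun z => hy (by rw [z]; norm_num)) ?_
  rw [map_div₀, map_sub, map_mul, io_fix hh.1, fixw_KW hh.1, ← (xc_gal h S).1, ← (xc_gal h S).2, fS]

theorem vv4_MKW (hV : VV_st) (hh : h ∈ UM 9) (hP : G9 P) : kw (vv (4 • P)) h = kw (vv P) h := by
  obtain ⟨g4, g7, -⟩ := g9_MKW hV hP
  obtain ⟨-, -, -, -, -, -, hx, -, -, a, -, -, c, -⟩ := hV.2 P hP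
  have v0 := vv_MKW hV hh hP
  have v1 := vv_MKW hV hh g4
  have v2 := vv_MKW hV hh g7
  have y0 := yc_MKW hh hP hx fun e => by
    rw [e, zero_mul] at c
    exact c.elim (fun c => v1.ne c.symm) fun c => v2.ne c.symm
  have k := ((v0.mul v1).mul v2).eq
  rw [a, show (-1 : Qb) = (-1) ^ 3 by norm_num,
    (Kv_MKW.cube hh.1 (neg_ne_zero.2 one_ne_zero) (by simp)).eq] at k
  have k2 := (y0.mul v0).eq
  have t : (3 : ZMod 3) = 0 := rfl
  rcases c with c | c <;> rw [c] at k2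
  · linear_combination k2
  · linear_combination -k - k2 - kw (vv P) h * t

theorem dq_MKW (hV : VV_st) (hh : h ∈ UM 9) (hP : G9 P) :
    Kv_MKW h (Dq_MKW P) (kw (Dq_MKW P) h) ∧ Dq_MKW P * Dq_MKW (4 • P) * Dq_MKW (7 • P) = -9 ∧
      vv (7 • P) = 2 - vv P - vv P ^ 2 := by
  obtain ⟨-, g7, -⟩ := g9_MKW hV hP
  obtain ⟨-, -, -, -, -, -, -, -, -, -, a, b, -, c, -⟩ := hV.2 P hP
  have d := (c 1 (by decide)).1
  simp only [dd_MKW, one_pow, one_smul] at d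
  refine ⟨⟨hh.1, fun e => ?_, ?_, rfl⟩, d, by linear_combination a - b⟩
  · rw [e] at d
    norm_num at d
  · rw [Dq_MKW, map_sub, (vv_MKW hV hh hP).fx, (vv_MKW hV hh g7).fx]

theorem orb_MKW (hV : VV_st) (hh : h ∈ UM 9) (hP : G9 P) {u : Zw} (hu : ¬ pw ∣ u) :
    kw (vv (u • P)) h = kw (vv P) h ∧ kw (Dq_MKW (u • P)) h - kw (Dq_MKW (7 • u • P)) h =
      kw (Dq_MKW P) h - kw (Dq_MKW (7 • P)) h := by
  obtain ⟨gu, i, e⟩ := (hV.2 P hP).1 u hu
  have key : ∀ i : ℕ, G9 (4 ^ i • P) ∧ kw (vv (4 ^ i • P)) h = kw (vv P) h ∧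
      kw (Dq_MKW (4 ^ i • P)) h - kw (Dq_MKW (7 • 4 ^ i • P)) h =
        kw (Dq_MKW P) h - kw (Dq_MKW (7 • P)) h := fun i => by
    induction i with
    | zero => simpa using hP
    | succ i ih =>
      obtain ⟨g, a, b⟩ := ih
      obtain ⟨g4, g7, e1, -⟩ := g9_MKW hV g
      rw [pow_succ', mul_smul]
      refine ⟨g4, (vv4_MKW hV hh g).trans a, ?_⟩
      have k := (((dq_MKW hV hh g).1.mul (dq_MKW hV hh g4).1).mul (dq_MKW hV hh g7).1).eq
      rw [(dq_MKW hV hh g).2.1, (nine_MKW hh).eq] at k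
      have t : (3 : ZMod 3) = 0 := rfl
      rw [e1]
      linear_combination b - k - kw (Dq_MKW (4 ^ i • P)) h * t
  obtain ⟨g, a, b⟩ := key i
  have e7 : vv (7 • u • P) = vv (7 • 4 ^ i • P) := by
    rw [(dq_MKW hV hh gu).2.2, (dq_MKW hV hh g).2.2, e]
  have e77 : vv (7 • 7 • u • P) = vv (7 • 7 • 4 ^ i • P) := by
    rw [(dq_MKW hV hh (g9_MKW hV gu).2.1).2.2, (dq_MKW hV hh (g9_MKW hV g).2.1).2.2, e7]
  refine ⟨e ▸ a, ?_⟩
  rw [← b, Dq_MKW, Dq_MKW, Dq_MKW, Dq_MKW, e, e7, e77]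

theorem ddk_MKW (hV : VV_st) (hh : h ∈ UM 9) (hP : G9 P) {u : Zw} (hu : ¬ pw ∣ u) {n : ℕ}
    (hn : ¬ 3 ∣ n) : Kv_MKW h (dd n (u • P)) (kw (dd n (u • P)) h) ∧
      kw (dd n (u • P)) h - kw (dd n (7 • u • P)) h =
        kw (Dq_MKW P) h - kw (Dq_MKW (7 • P)) h := by
  have n2 : ¬ 3 ∣ n ^ 2 := fun e => hn (Nat.prime_three.dvd_of_dvd_pow e)
  have e : n ^ 2 • u • P = (((n ^ 2 : ℕ) : Zw) * u) • P := by
    rw [mul_smul, Nat.cast_smul_eq_nsmul]
  have c : ¬ pw ∣ ((n ^ 2 : ℕ) : Zw) * u := fun k =>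
    (pw_prime.dvd_or_dvd k).elim (pwn_MKW n2) hu
  rw [dd_MKW, dd_MKW, smul_comm (n ^ 2) 7, e]
  exact ⟨(dq_MKW hV hh ((hV.2 P hP).1 _ c).1).1, (orb_MKW hV hh hP c).2⟩

theorem mq_MKW (hG : MGAL_st) (hC : ND C) (hP : G9 P) :
    mE C P ≠ 0 ∧ mE C (7 • P) ≠ 0 ∧ xc (mq P C) = mD C / mE C (7 • P) ∧
      yc (mq P C) = mE C P / mE C (7 • P) := by
  obtain ⟨⟨a, b, c⟩, -⟩ := hG C P hC hP
  have n : mE C P * mE C (4 • P) * mE C (7 • P) ≠ 0 := b ▸ neg_ne_zero.2 (pow_ne_zero 3 a)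
  have n2 := right_ne_zero_of_mul n
  have o : On 0 1 (mD C / mE C (7 • P)) (mE C P / mE C (7 • P)) := on_iff.2 (by
    field_simp
    linear_combination mE C P * mE C (7 • P) * c - b)
  exact ⟨left_ne_zero_of_mul (left_ne_zero_of_mul n), n2, xc_pt o, yc_pt o⟩

theorem fy_MKW (hG : MGAL_st) (hh : h ∈ UM 9) (hC : ND C) (hP : G9 P) (f : C.map (gal h) = C) :
    Kv_MKW h (yc (mq P C)) (kw (yc (mq P C)) h) ∧ h (xc (mq P C)) = xc (mq P C) := by
  have e := (hG C P hC hP).2.2.2.2.2.2 h hh.1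
  rw [kum_MKW hh, ZMod.val_zero, mul_zero, pow_zero, one_smul, fixP_MKW hh hP, f] at e
  obtain ⟨a, b, -, c⟩ := mq_MKW hG hC hP
  exact ⟨⟨hh.1, c ▸ div_ne_zero a b, by rw [← (xc_gal h _).2, e], rfl⟩,
    by rw [← (xc_gal h _).1, e]⟩

theorem y4_MKW (hV : VV_st) (hG : MGAL_st) (hh : h ∈ UM 9) (hC : ND C) (hP : G9 P)
    (f : C.map (gal h) = C) : kw (yc (mq (4 • P) C)) h = kw (yc (mq P C)) h := by
  obtain ⟨g4, -, e1, -⟩ := g9_MKW hV hP
  obtain ⟨⟨z1, z2, -⟩, -⟩ := hG C P hC hP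
  obtain ⟨a, b, c, d⟩ := mq_MKW hG hC hP
  obtain ⟨p, q⟩ := fy_MKW hG hh hC hP f
  have k := (p.mul (.cube (x := -(xc (mq P C) / yc (mq P C))) hh.1
    (neg_ne_zero.2 (div_ne_zero (c ▸ div_ne_zero z1 b) p.ne))
    (by rw [map_neg, map_div₀, p.fx, q]))).eq
  rw [add_zero] at k
  rw [← k, (mq_MKW hG hC g4).2.2.2, e1, c, d]
  congr 1
  field_simp
  linear_combination z2

theorem yb_MKW (hV : VV_st) (hG : MGAL_st) (hh : h ∈ UM 9) (hC : ND C) (hP : G9 P)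
    (f : C.map (gal h) = C) {b : Zw} (hb : Pry b) :
    kw (yc (mq (b • P) C)) h = kw (yc (mq P C)) h := by
  obtain ⟨g4, -, -, e2⟩ := g9_MKW hV hP
  obtain ⟨-, -, h9, h3, -⟩ := hV.2 P hP
  obtain ⟨c, hc⟩ := hb
  have e : b • P = P + c • (3 : ℕ) • P := by
    rw [← Nat.cast_smul_eq_nsmul Zw, ← mul_smul, show b = 1 + c * (3 : ℕ) by
      push_cast; linear_combination hc, add_smul, one_smul]
  have k : pw • c • (3 : ℕ) • P = 0 := by
    rw [← Nat.cast_smul_eq_nsmul Zw, ← mul_smul, ← mul_smul]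
    exact (hP _).2 ⟨c, by push_cast; ring⟩
  have y7 : kw (yc (mq (7 • P) C)) h = kw (yc (mq P C)) h := by
    rw [← e2, y4_MKW hV hG hh hC g4 f, y4_MKW hV hG hh hC hP f]
  have c4 : ∀ T : Pt, T = 3 • P → kw (yc (mq (P + T) C)) h = kw (yc (mq P C)) h := fun T e => by
    rw [e, show P + 3 • P = 4 • P by abel, y4_MKW hV hG hh hC hP f]
  have c7 : ∀ T : Pt, T = -(3 • P) → kw (yc (mq (P + T) C)) h = kw (yc (mq P C)) h := fun T e => by
    rw [e, show P + -(3 • P) = 7 • P by linear_combination (norm := abel1) -h9, y7]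
  rw [e]
  rcases (PI_ok.1 _).1 k with k | k | k <;> rw [k]
  · rw [add_zero]
  · exact h3.elim (fun t => c4 _ t.symm) fun t => c7 _ (by rw [t, neg_neg])
  · exact h3.elim (fun t => c7 _ (by rw [t])) fun t => c4 _ t.symm

theorem one_MKW (hV : VV_st) (hG : MGAL_st) (h2 : GMUL_st) (hh : h ∈ UM 9) (hC : ND C)
    (hP : G9 P) (f : C.map (gal h) = C) {b : Zw} (hb : Pry b) :
    Kv_MKW h (yc (mq P (qC b C))) (kw (yc (mq P C)) h) := by
  have hD := nd_MKW hb hC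
  have p1 : ¬ pw ∣ (1 : Zw) := fun e => pw_prime.not_isUnit (isUnit_of_dvd_one e)
  have key : ∀ Q, G9 Q → ∃ r, mE (qC b C) Q = mE C (b • Q) * r ∧ Kv_MKW h r
      (kw (dd (cd (qC b C)) Q) h - kw (dd (cd C) (b • Q)) h +
        ((2 * cd (qC b C) : ℕ) - (2 * cd C : ℕ)) * kw (vv Q) h) := fun Q hQ => by
    have gb := ((hV.2 Q hQ).1 b hb.pw).1
    have b0 : b • Q ≠ 0 := fun e => (hV.2 _ gb).2.2.2.2.2.2.1 (by rw [e, xc_zero])
    obtain ⟨e1, s, e2, e3⟩ := h2 b C Q hb hC b0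
    have e4 := (h2 b _ Q hb (pw_nd hC).1 b0).1
    rw [(pw_nd hC).2] at e4
    have d1 := (ddk_MKW hV hh hQ p1 hD.c3).1
    have d2 := (ddk_MKW hV hh hQ hb.pw hC.c3).1
    rw [one_smul] at d1
    have v1 := vv_MKW hV hh hQ
    have v2 := vv_MKW hV hh gb
    have E : mE (qC b C) Q = mE C (b • Q) * (((s ^ cd C * W.io b ^ (cd C - 1)) ^ 2) ^ 3 *
        (dd (cd (qC b C)) Q * vv Q ^ (2 * cd (qC b C)) /
          (dd (cd C) (b • Q) * vv (b • Q) ^ (2 * cd C)))) := by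
      have := d2.ne
      have := v2.ne
      rw [mE, mE, pw_qC hb, e1, e4, e2]
      field_simp
      ring
    have t0 : (s ^ cd C * W.io b ^ (cd C - 1)) ^ 2 ≠ 0 := fun z =>
      (mq_MKW hG hD hQ).1 (by rw [E, z]; ring)
    refine ⟨_, E, ?_⟩
    have k := (Kv_MKW.cube hh.1 t0 (by
      rw [map_pow, map_mul, map_pow, map_pow, io_fix hh.1, e3 h hh.1 (fixP_MKW hh hQ)])).mul
      ((d1.mul (v1.pow (2 * cd (qC b C)))).div (d2.mul (v2.pow (2 * cd C))))
    rw [(orb_MKW hV hh hQ hb.pw).1] at k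
    convert k using 1
    ring
  obtain ⟨-, g7, -⟩ := g9_MKW hV hP
  obtain ⟨r, e, k⟩ := key P hP
  obtain ⟨r', e', k'⟩ := key _ g7
  have gb := ((hV.2 P hP).1 b hb.pw).1
  have y := (fy_MKW hG hh hC gb f).1.mul (k.div k')
  have v7 := (orb_MKW hV hh hP (pwn_MKW (n := 7) (by decide))).1
  have d1 := (ddk_MKW hV hh hP p1 hD.c3).2
  have d2 := (ddk_MKW hV hh hP hb.pw hC.c3).2
  rw [Nat.cast_smul_eq_nsmul] at v7
  rw [one_smul] at d1
  rw [smul_comm b 7 P] at e' y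
  rw [yb_MKW hV hG hh hC hP f hb, v7] at y
  convert y using 1
  · rw [(mq_MKW hG hD hP).2.2.2, (mq_MKW hG hC gb).2.2.2, e, e', mul_div_mul_comm]
  · linear_combination d2 - d1

end

theorem MKW_of (hV : VV_st) (hG : MGAL_st) (h1 : GPR_st) (h2 : GMUL_st) : MKW_st := by
  intro P h hP hh
  obtain ⟨ε, -, hε⟩ := KW_pf.2.2.2.1
  have km1 : ∀ {x a}, Kv_MKW h x a → km 3 h x = ε * a := fun k => by
    rw [hε h k.gk _ k.ne k.fx, k.eq]
  refine ⟨fun b C hb hC f => ?_, fun C l X hC hl l1 hX f fS => ?_⟩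
  · rw [km1 (one_MKW hV hG h2 hh hC hP f hb), km1 (fy_MKW hG hh hC hP f).1]
  have l3 : l ≠ 3 := by omega
  have pr : Pry l := ⟨(l / 3 : ℕ), by
    have : (l : Zw) = (3 * (l / 3) + 1 : ℕ) := by rw [← l1, Nat.div_add_mod]
    rw [sub_eq_iff_eq_add]
    exact this.trans (by push_cast; rfl)⟩
  obtain ⟨cX, nS, -⟩ := NPR_pf C l X hC hl l3 hX
  obtain ⟨inj, hX'⟩ := nbs_MKW hC pr hX
  have hD := nd_MKW pr hC
  have cD : cd (qC l C) = l ^ 2 * cd C := by rw [qC_cd pr.ne hC.fin, nn_nat]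
  have nl : ¬ 3 ∣ l * cd C := fun e => (Nat.prime_three.dvd_mul.1 e).elim (by omega) hC.c3
  have p1 : ¬ pw ∣ (1 : Zw) := fun e => pw_prime.not_isUnit (isUnit_of_dvd_one e)
  have key : ∀ Q, G9 Q → ∃ r, ∏ S ∈ X, mE (C ⊔ AddSubgroup.zmultiples S) Q =
      mE C Q ^ l * mE (qC l C) Q * r ∧ Kv_MKW h r ((l + 1 : ℕ) * kw (dd (l * cd C) Q) h -
        (l * kw (dd (cd C) Q) h + kw (dd (cd (qC l C)) Q) h)) := fun Q hQ => by
    have d1 := (ddk_MKW hV hh hQ p1 nl).1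
    have d2 := (ddk_MKW hV hh hQ p1 hC.c3).1
    have d3 := (ddk_MKW hV hh hQ p1 hD.c3).1
    rw [one_smul] at d1 d2 d3
    refine ⟨_, ?_, (d1.pow (l + 1)).div ((d2.pow l).mul d3)⟩
    have a := h1 C l X hC hl l3 hX (yc Q)
    have b := h1 _ l _ (pw_nd hC).1 hl l3 hX' (yc Q)
    rw [prod_image inj] at b
    have := d2.ne
    have := d3.ne
    rw [prod_congr rfl fun S hS => by rw [mE, (nS S hS).2, sup_MKW], prod_mul_distrib,
      prod_mul_distrib, a, b, prod_const, cX, mE, mE, pw_qC pr]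
    generalize dd (cd (qC l C)) Q = d at *
    rw [cD]
    field_simp
    ring
  obtain ⟨-, g7, -⟩ := g9_MKW hV hP
  obtain ⟨r, e, k⟩ := key P hP
  obtain ⟨r', e', k'⟩ := key _ g7
  have y0 := (fy_MKW hG hh hC hP f).1
  have y1 := ((y0.pow l).mul (one_MKW hV hG h2 hh hC hP f pr)).mul (k.div k')
  have y2 := Kv_MKW.prod hh.1 X fun S hS => (fy_MKW hG hh (nS S hS).1 hP (fS S hS)).1
  have d1 := (ddk_MKW hV hh hP p1 nl).2
  have d2 := (ddk_MKW hV hh hP p1 hC.c3).2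
  have d3 := (ddk_MKW hV hh hP p1 hD.c3).2
  rw [one_smul] at d1 d2 d3
  have E : ∏ S ∈ X, yc (mq P (C ⊔ AddSubgroup.zmultiples S)) =
      yc (mq P C) ^ l * yc (mq P (qC l C)) * (r / r') := by
    rw [prod_congr rfl fun S hS => (mq_MKW hG (nS S hS).1 hP).2.2.2, prod_div_distrib, e, e',
      (mq_MKW hG hC hP).2.2.2, (mq_MKW hG hD hP).2.2.2, mul_div_mul_comm, mul_div_mul_comm, div_pow]
  have l' : (l : ZMod 3) = 1 := by rw [← ZMod.natCast_mod, l1, Nat.cast_one]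
  have q := y2.eq.symm.trans (E ▸ y1.eq)
  rw [sum_congr rfl fun S hS => km1 (fy_MKW hG hh (nS S hS).1 hP (fS S hS)).1, ← mul_sum, q,
    km1 y0, Nat.cast_succ, l']
  linear_combination ε * (2 * d1 - d2 - d3)

end Pool.Agent.MP_e23604_nt.M

end
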