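import Pool.Agent.Mg.Fe23604m.G160902
import Pool.Agent.Mg.Fe23604m.G5a860c

set_option linter.all false

section

/-!
The choice of the auxiliary inert primes: statements.
-/

set_option autoImplicit false

open Finset QuadraticAlgebra
open scoped Classical

namespace Pool.Agent.MP_e23604_nt.X

open B R S W

/-- finitely many characters of large order do not vanish at a common element -/
def NEU_st : Prop := ∀ (U : Subgroup GQ) (ι : Type) (s : Finset ι) (A : ι → Type)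
  [∀ i, AddCommGroup (A i)] (a : ∀ i, GQ → A i) (k : ℕ), s.card < 3 ^ (k + 1) →
  (∀ i ∈ s, Adt U (a i) ∧ (∃ e : ℕ, ∀ u ∈ U, 3 ^ e • a i u = 0) ∧ ∃ u ∈ U, 3 ^ k • a i u ≠ 0) →
  ∃ u ∈ U, ∀ i ∈ s, a i u ≠ 0

/-- the symmetrised Selmer class has large order -/
def SYM_st : Prop := ∀ (χ : GQ → ZMod 3) (r n e : ℕ) (M : Zw) (c : GQ) (x : GQ → Pt), Tw χ r →
  Y.Anti χ → Y.Cj c → M ≠ 0 → star M = M → (9 * r : Zw) ∣ M → 3 ^ n ∣ M → Cz χ GK x →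
  (∀ g ∈ GK, 3 ^ n • x g = 0) → Adt (UM M) x ∧ Adt (UM M) (fun u => x (c * u * c) + x u) ∧
    ((∀ u ∈ UM M, 3 ^ e • (x (c * u * c) + x u) = 0) → ∀ u ∈ UM M, 3 ^ (e + 2) • x u = 0) ∧
    ∀ g ∈ GK, ∀ u ∈ UM M, x (g * u * g⁻¹) = eta χ g (x u)

/-- the Kummer character of the quotient of conjugate primes -/
def KQT_st : Prop := ∀ (ϖ M : Zw) (k : ℕ) (c : GQ), PP ϖ → (nn ϖ).Prime → Y.Cj c → M ≠ 0 →
  3 ^ (k + 2) ∣ M → Adt (UM M) (fun u => km (3 ^ (k + 2)) u (W.io ϖ / W.io (star ϖ))) ∧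
    (∀ u ∈ UM M, km (3 ^ (k + 2)) (c * u * c) (W.io ϖ / W.io (star ϖ)) =
      km (3 ^ (k + 2)) u (W.io ϖ / W.io (star ϖ))) ∧
    ∃ u ∈ UM M, 3 ^ k • km (3 ^ (k + 2)) u (W.io ϖ / W.io (star ϖ)) ≠ 0

/-- the choice of the auxiliary prime -/
def CQ_st : Prop := ∀ (χ : GQ → ZMod 3) (r : ℕ), Tw χ r → Y.Anti χ → ¬ HB χ r →
  ∃ k : ℕ, ∀ n, k ≤ n → ∀ B : ℕ, ∃ (q : ℕ) (ξ : GQ → Pt), q.Prime ∧ B < q ∧
    3 ^ (n + 3) * r ∣ q + 1 ∧ SelU χ r ξ ∧ (∀ g ∈ GK, 3 ^ (n + 1) • ξ g = 0) ∧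
    (∀ (V : Plc) (φ : GQ), V.l = q → Y.In V φ → 3 ^ (n + 1 - k) • ξ (φ ^ 2) ≠ 0) ∧
    ∀ ϖ : Zw, PP ϖ → (nn ϖ).Prime → ϖ ∣ r → ¬ 3 ^ k ∣ (N.lu q ϖ).val

end Pool.Agent.MP_e23604_nt.X

end

section

/-!
Characters of large order.
-/

set_option autoImplicit false

open Finset QuadraticAlgebra
open scoped Classical Pointwise

namespace Pool.Agent.MP_e23604_nt.X

open B R S W

theorem NEU_pf : NEU_st := by
  intro U ι s A _ a k hk h
  by_contra hc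
  push Not at hc
  let f : ∀ i : s, U →* Multiplicative (A i) := fun i =>
    MonoidHom.mk' (fun u => Multiplicative.ofAdd (a i u)) fun u v => (h i i.2).1 u u.2 v v.2
  obtain ⟨i, -, h1, h2⟩ := Subgroup.exists_index_le_card_of_leftCoset_cover
    (H := fun i : s => (f i).ker) (g := fun _ => 1) (s := univ) (Set.eq_univ_of_forall fun u => by
      obtain ⟨i, hi, e⟩ := hc u u.2
      simp only [one_smul, Set.mem_iUnion]
      exact ⟨⟨i, hi⟩, mem_univ _, e⟩)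
  obtain ⟨-, ⟨e, he⟩, u, hu, hn⟩ := h i i.2
  have h3 : (f i).ker.index • a i u = 0 := by
    have := Subgroup.pow_index_mem (f i).ker ⟨u, hu⟩
    rwa [MonoidHom.mem_ker, map_pow] at this
  obtain ⟨j, -, hj⟩ := (Nat.dvd_prime_pow Nat.prime_three).1
    (addOrderOf_dvd_of_nsmul_eq_zero (he u hu))
  have h4 : k + 1 ≤ j := not_lt.1 fun e =>
    hn (addOrderOf_dvd_iff_nsmul_eq_zero.1 (hj ▸ pow_dvd_pow 3 (Nat.le_of_lt_succ e)))
  have h5 := Nat.le_of_dvd (Nat.pos_of_ne_zero h1.index_ne_zero)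
    ((pow_dvd_pow 3 h4).trans (hj ▸ addOrderOf_dvd_of_nsmul_eq_zero h3))
  rw [card_univ, Fintype.card_coe] at h2
  omega

theorem cj_NEU {c : GQ} (hc : Y.Cj c) {g : GQ} (hg : g ∈ GK) : c * g * c ∈ GK := by
  have := (Plc.cj_GK c g).1 hg
  rwa [inv_eq_of_mul_eq_one_right hc.sq] at this

theorem cc_NEU {c : GQ} (hc : Y.Cj c) (P : Pt) : gal c (gal c P) = P := by
  rw [← W.gal_mul, hc.sq, W.gal_one]

theorem mul_NEU {c : GQ} (hc : Y.Cj c) (u v : GQ) : c * (u * v) * c = c * u * c * (c * v * c) := by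
  simp only [mul_assoc]
  rw [← mul_assoc c c, hc.sq, one_mul]

theorem lam_NEU (a : ZMod 3) : star ((ω : Zw) ^ a.val) = ω ^ (-a).val ∧
    ∃ k ∈ [-2 * pw, 3 * pw, 6 * pw],
      2 * 9 = k * ((ω : Zw) ^ a.val * (1 + 3 * ω) - star (ω ^ a.val * (1 + 3 * ω))) := by
  revert a
  decide

theorem SYM_pf : SYM_st := by
  intro χ r n e M c x tw an hc hM sM hr hn hx h0
  have h0' : ∀ g ∈ GK, (3 ^ n : Zw) • x g = 0 := fun g hg => by
    rw [← h0 g hg, ← Nat.cast_smul_eq_nsmul Zw, Nat.cast_pow, Nat.cast_ofNat]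
  have k1 : ∀ u ∈ UM M, ∀ g ∈ GK, x (u * g) = x u + x g := fun u hu g hg => by
    rw [hx.2 u hu.1 g hg, eta_apply, tw.fac u (UM_mono hr hu), ZMod.val_zero, pow_zero, one_smul,
      hu.2 _ (dvd_smul (h0' g hg) hn)]
  have k2 : ∀ u ∈ UM M, c * u * c ∈ UM M := fun u hu => ⟨cj_NEU hc hu.1, fun P hP => by
    rw [W.gal_mul, W.gal_mul, hu.2 _ (by rw [← sM, ← gal_star hc.nk, hP, map_zero]), cc_NEU hc]⟩
  have k3 : ∀ g ∈ GK, ∀ u ∈ UM M, g * u * g⁻¹ ∈ UM M := fun g hg =>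
    ((PS_ok M hM).1 g hg).2.2.2.2.2.2.2.1
  have k4 : ∀ g ∈ GK, ∀ u ∈ UM M, x (g * u * g⁻¹) = eta χ g (x u) := fun g hg u hu => by
    have a := k1 _ (k3 g hg u hu) g hg
    rw [inv_mul_cancel_right, hx.2 g hg u hu.1, add_comm] at a
    exact (add_right_cancel a).symm
  refine ⟨fun u hu v hv => k1 u hu v hv.1, fun u hu v hv => ?_, fun h u hu => ?_, k4⟩
  · simp only [mul_NEU hc u v, k1 _ (k2 u hu) _ (k2 v hv).1, k1 u hu v hv.1]
    abel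
  obtain ⟨g, hg, hg'⟩ := SURJ_of PLK_ok FRK_ok (3 ^ n) (1 + 3 * ω) (pow_ne_zero _ (by decide))
    ⟨ω, by ring⟩ (IsCoprime.pow_right ⟨1, -ω, by ring⟩)
  obtain ⟨s1, k, -, s2⟩ := lam_NEU (χ g)
  have a1 : x (g * u * g⁻¹) = ((ω : Zw) ^ (χ g).val * (1 + 3 * ω)) • x u := by
    rw [k4 g hg u hu, eta_apply, hg' _ (h0' u hu.1), mul_smul]
  have a2 : x (c * (g * u * g⁻¹) * c) =
      star ((ω : Zw) ^ (χ g).val * (1 + 3 * ω)) • x (c * u * c) := by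
    have ci : c⁻¹ = c := inv_eq_of_mul_eq_one_right hc.sq
    have b1 : c * (g * u * g⁻¹) * c = c * g * c * (c * u * c) * (c * g * c)⁻¹ := by
      rw [mul_NEU hc, mul_NEU hc, mul_inv_rev, mul_inv_rev, ci, mul_assoc c g⁻¹]
    have b2 := an c hc.nk g hg
    have b3 : (3 ^ n : Zw) • gal c (x (c * u * c)) = 0 := by
      rw [← star_star (3 ^ n : Zw), ← gal_star hc.nk, star_pow, star_ofNat, h0' _ (k2 u hu).1,
        map_zero]
    rw [ci] at b2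
    rw [b1, k4 _ (cj_NEU hc hg) _ (k2 u hu), eta_apply, b2, ← s1, W.gal_mul, W.gal_mul, hg' _ b3,
      gal_star hc.nk, cc_NEU hc, star_mul', mul_smul]
  have a3 := h _ (k3 g hg u hu)
  have a4 := h u hu
  rw [a1, a2] at a3
  generalize (ω : Zw) ^ (χ g).val * (1 + 3 * ω) = l at *
  have a5 : (l - star l) • 3 ^ e • x u = 0 := by
    linear_combination (norm := module) a3 - star l • a4
  have a6 : (2 : Zw) • (9 : Zw) • 3 ^ e • x u = 0 := by rw [← mul_smul, s2, mul_smul, a5, smul_zero]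
  have a7 : (3 ^ n : Zw) • (9 : Zw) • 3 ^ e • x u = 0 := by
    rw [smul_comm, smul_comm (3 ^ n : Zw), h0' u hu.1, smul_zero, smul_zero]
  have a8 := cop_smul (IsCoprime.pow_right ⟨-1, 1, by norm_num⟩) a6 a7
  rw [pow_add, mul_comm, mul_smul, ← a8, ← Nat.cast_smul_eq_nsmul Zw (3 ^ 2)]
  norm_num

theorem fix_NEU {c : GQ} (hc : c ∉ GK) (j : ℕ) : ∀ z : Qb, z ^ 3 ^ j = 1 → c z = z → z = 1 := by
  induction j with
  | zero => exact fun z h _ => by simpa using h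
  | succ j ih =>
    refine fun z h e => ih z ?_ e
    have e' : c (z ^ 3 ^ j) = z ^ 3 ^ j := by rw [map_pow, e]
    rw [pow_succ, pow_mul] at h
    rcases cube_one h with h | h | h
    · exact h
    · exact absurd (mem_GK'.2 (h ▸ e')) hc
    · rw [h, map_pow, not_mem_GK hc] at e'
      exact absurd (mul_left_cancel₀ w3_ne_zero (show w3 * w3 = w3 * 1 by
        linear_combination w3 * w3_cube - e')) w3_ne_one

theorem cy_NEU {c : GQ} (hc : Y.Cj c) (j : ℕ) : W.cy (3 ^ j) c = -1 := by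
  have hN : 3 ^ j ≠ 0 := by positivity
  have h1 := (zt_prim hN).pow_eq_one
  have h2 : c (zt (3 ^ j)) ^ 3 ^ j = 1 := by rw [← map_pow, h1, map_one]
  have h3 := fix_NEU hc.nk j (c (zt (3 ^ j)) * zt (3 ^ j)) (by rw [mul_pow, h1, h2, mul_one])
    (by rw [map_mul, ← AlgEquiv.mul_apply, hc.sq, AlgEquiv.one_apply, mul_comm])
  have h4 := lz_mul hN h2 h1
  rw [h3, lz_one hN] at h4
  exact eq_neg_of_add_eq_zero_left (h4.trans (congrArg _ (cy_one hN))).symm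

theorem div_NEU {N : ℕ} (hN : N ≠ 0) {g : GQ} (hg : W.cy N g = 1) {a b : Qb} (ha : a ≠ 0)
    (hb : b ≠ 0) (ea : g a = a) (eb : g b = b) : km N g (a / b) = km N g a - km N g b := by
  obtain ⟨e, he⟩ := (KM_ok N hN).2.2.2.1
  have h := he g (a / b) b (div_ne_zero ha hb) hb
  rw [div_mul_cancel₀ _ hb, hg, map_div₀, ea, eb] at h
  linear_combination -h

theorem KQT_pf : KQT_st := by
  intro ϖ M k c pp hp hc hM hk
  have hN : 3 ^ (k + 2) ≠ 0 := by positivity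
  have hN' : ((3 ^ (k + 2) : ℕ) : Zw) ≠ 0 := Nat.cast_ne_zero.2 hN
  have n1 := io_ne pp.2.ne
  have n2 := io_ne pp.2.star.ne
  have n3 := div_ne_zero n1 n2
  have fx : ∀ g ∈ GK, g (W.io ϖ / W.io (star ϖ)) = W.io ϖ / W.io (star ϖ) := fun g hg => by
    rw [map_div₀, io_fix hg, io_fix hg]
  have cyc : ∀ g ∈ GK, ∀ u : Zw, (∀ P : Pt, ((3 ^ (k + 2) : ℕ) : Zw) • P = 0 → gal g P = u • P) →
      W.cy (3 ^ (k + 2)) g = nn u := fun g hg u hu => by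
    rw [CYC1_of CHB_ok KM_ok _ _ hN' dvd_rfl g hg]
    exact nn_congr_ACYC ((((PS_ok _ hN').1 g hg).2.2.2.2.1 u).1 hu)
  have c1 : ∀ u ∈ UM M, W.cy (3 ^ (k + 2)) u = 1 := fun u hu => by
    rw [cyc u hu.1 1 fun P hP => by
      rw [one_smul, hu.2 P (dvd_smul hP (by exact_mod_cast hk))], nn_one, Nat.cast_one]
  refine ⟨fun u hu v hv => ?_, fun u hu => ?_, ?_⟩
  · simp only [km_mul hN _ _ n3, c1 u hu, fx v hv.1]
    ring
  · have e : c (W.io ϖ / W.io (star ϖ)) = W.io (star ϖ) / W.io ϖ := by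
      rw [map_div₀, W.io_star hc.nk, W.io_star hc.nk, star_star]
    have a1 := km_mul hN c c n3
    have a2 := km_mul hN c (u * c) n3
    rw [km_mul hN u c n3, AlgEquiv.mul_apply, e, map_div₀, io_fix hu.1, io_fix hu.1, c1 u hu,
      div_NEU hN (c1 u hu) n2 n1 (io_fix hu.1 _) (io_fix hu.1 _), ← mul_assoc, cy_NEU hc] at a2
    rw [hc.sq, km_one hN n3, e, cy_NEU hc] at a1
    rw [a2, div_NEU hN (c1 u hu) n1 n2 (io_fix hu.1 _) (io_fix hu.1 _)]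
    linear_combination -a1
  obtain ⟨V, hV⟩ := PLK_ok.2.1 ϖ pp.1
  have l3 := pp.l_neK hV
  obtain ⟨-, ⟨τ, hτ, t1⟩, t2, -⟩ := TAME_ok 3 (k + 2) V Nat.prime_three l3 l3
  obtain ⟨t3, t4⟩ := ((KM_ok _ hN).2.2.2.2.2.2.2.2 V fun e => l3
    ((Nat.prime_dvd_prime_iff_eq V.hl.out Nat.prime_three).1
      (V.hl.out.dvd_of_dvd_pow e))).2.1 τ hτ.1
  have t5 : ¬ Ov V (star ϖ) := fun e => star_HPLc hp
    (fun e => pp.2.pw (pw_dvd_iff.2 (e ▸ dvd_rfl))) pp.1 rfl (((PLK_ok.2.2.1 V ϖ pp.1 hV).1 _).1 e)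
  have t6 := t4 (W.io (star ϖ)) (W.io ϖ) 0 n1 (io_fix hτ.2 _) (io_fix hτ.2 _)
    (by rw [not_Ov.1 t5, zpow_zero])
  have t7 : km (3 ^ (k + 2)) τ (W.io ϖ / W.io (star ϖ)) = 1 := by
    rw [div_NEU hN t3 n1 n2 (io_fix hτ.2 _) (io_fix hτ.2 _), t6, t2 ϖ pp.1 hV τ hτ, t1]
    simp
  obtain ⟨h, hh, h1⟩ := SURJ_of PLK_ok FRK_ok _ (-2) hN' ⟨-1, by norm_num⟩ (by
    rw [Nat.cast_pow]
    exact IsCoprime.pow_right ⟨1, 1, by norm_num⟩)
  have h2 := cyc h hh _ h1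
  rw [nn_neg, nn_two] at h2
  have hu := ((PS_ok M hM).1 τ hτ.2).2.2.2.2.2.2.1 h hh
  refine ⟨_, hu, fun e => ?_⟩
  have a1 := km_mul hN (τ * h) ((τ * h)⁻¹ * (h * τ)) n3
  rw [mul_inv_cancel_left, fx _ hu.1, km_mul hN h τ n3, km_mul hN τ h n3, cy_mul hN, fx _ hτ.2,
    fx _ hh, t3, t7, h2] at a1
  rw [nsmul_eq_mul] at e
  have a2 : ((3 ^ (k + 1) : ℕ) : ZMod (3 ^ (k + 2))) = 0 := by
    push_cast at *
    linear_combination 3 ^ k * a1 + 4 * e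
  have a3 := (ZMod.natCast_eq_zero_iff _ _).1 a2
  rw [Nat.pow_dvd_pow_iff_le_right (by norm_num)] at a3
  omega

end Pool.Agent.MP_e23604_nt.X

end
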