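import Pool.Agent.Mg.Fe23604m.G9bf290
import Pool.Agent.Mg.Fe23604m.G0a5d16
import Pool.Agent.Mg.Fe23604m.G47b00c
import Pool.Agent.Mg.Fe23604m.Ga3c24f
import Pool.Agent.Mg.Fe23604m.G68d450
import Pool.Agent.Mg.Fe23604m.G7fef4a
import Pool.Agent.Mg.Fe23604m.Gad4bd4

set_option linter.all false

section

set_option autoImplicit false

open Module Filter Topology Finset
open scoped Classical

namespace Pool.Agent.MP_e23604_nt.S

open B R
open Q (Wn)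

theorem sq_SLU (x : ZMod 3) : x ≠ 0 → x * x = 1 := by
  revert x
  decide

theorem three_SLU (x : ZMod 3) : 3 ^ 1 • x = 0 := by
  revert x
  decide

theorem one_SLU (b : Bool) (q : ℕ) [Fact q.Prime] (φ : GQ) (a : GQ → ZMod 3) (hφ : Frob q 1 φ)
    (ha : Tl b (Dec (nv q 1)) a) (hu : Ur q a) (h0 : a φ = 0) : ∀ g ∈ Dec (nv q 1), a g = 0 := by
  intro g hg
  obtain ⟨N, hN, hc⟩ := ha.2
  obtain ⟨i, τ, hτ, e⟩ := ((R.FRO_ok q 1).2 φ hφ).2.2.2.1 N hN g hg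
  have h1 : ∀ i : ℕ, a (φ ^ i) = 0 := fun i => by
    induction i with
    | zero => rw [pow_zero, ha.1.one]
    | succ i ih => rw [pow_succ, ha.1 _ (pow_mem hφ.1 i) _ hφ.1, ih, h0, mul_zero, add_zero]
  rw [← hc _ (mul_mem (pow_mem hφ.1 i) (Ine_le q 1 hτ)) g hg e,
    ha.1 _ (pow_mem hφ.1 i) _ (Ine_le q 1 hτ), h1, hu τ hτ, mul_zero, add_zero]

theorem LU_pf (hTAM : TAM_st) (hLOC : LOC_st) : LU_st := by
  refine ⟨one_SLU, fun q _ a hq ha hu g hg hk => ?_, fun b q _ a a' ha ha' hu hu' hv => ?_,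
    fun l _ a a' h3 ha hl ha' hl' hu => ?_, fun l _ a hq ha => ?_⟩
  · obtain ⟨φ, hφ⟩ := (R.FRO_ok q 1).1
    have h3 : q ≠ 3 := by omega
    have hb : Tl true (Dec (nv q 1)) fun g => (ep g - 1) * a φ :=
      ⟨fun g _ h _ => by simp only [ep_mul, sg_true]; ring,
        (ep_lc.mono le_top).map fun x => (x - 1) * a φ⟩
    have := one_SLU true q φ _ hφ (ha.sub hb) (fun τ hτ => by
      simp only [hu τ hτ, ep_pos (Ine_GK 1 h3 hτ), sub_self, zero_mul]) (by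
      rw [ep_neg (hLOC.2.1 q 1 φ hq hφ)]
      linear_combination a φ * (by decide : (3 : ZMod 3) = 0)) g hg
    simpa only [ep_pos hk, sub_self, zero_mul, sub_zero] using this
  · obtain ⟨φ, hφ⟩ := (R.FRO_ok q 1).1
    have h0 : a' φ ≠ 0 := fun h => hv fun g hg _ => one_SLU b q φ a' hφ ha' hu' h g hg
    refine ⟨a φ * a' φ, fun g hg => sub_eq_zero.1 (one_SLU b q φ _ hφ
      (ha.sub (ha'.mul (a φ * a' φ))) (fun τ hτ => ?_) ?_ g hg)⟩
    · simp only [hu τ hτ, hu' τ hτ, mul_zero, sub_zero]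
    · rw [mul_assoc, sq_SLU _ h0, mul_one, sub_self]
  · obtain ⟨-, ⟨τ₀, h1, h2⟩, h4⟩ := hTAM l 1 h3
    have h5 : ∀ τ ∈ Ine l 1, kum l τ ≠ 0 → a' τ ≠ 0 := fun τ hτ hk h =>
      hu (h4 τ hτ hk _ a' 1 ha' hl' (fun u _ => three_SLU _) h)
    have h6 : kum l τ₀ ≠ 0 := h2 ▸ one_ne_zero
    refine ⟨h5, a τ₀ * a' τ₀, fun τ hτ => sub_eq_zero.1 (h4 τ₀ h1 h6 _
      (fun g => a g - a τ₀ * a' τ₀ * a' g) 1 (fun g hg h hh => ?_)
      (hl.map₂ hl' fun x y => x - a τ₀ * a' τ₀ * y) (fun u _ => three_SLU _) ?_ τ hτ)⟩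
    · simp only [ha g hg h hh, ha' g hg h hh]
      ring
    · rw [mul_assoc, sq_SLU _ (h5 τ₀ h1 h6), mul_one, sub_self]
  · obtain ⟨φ, hφ⟩ := (R.FRO_ok l 1).1
    have h3 : l ≠ 3 := by omega
    exact hLOC.1 l 1 φ a h3 hφ.1 (hLOC.2.1 l 1 φ hq hφ) ((tc_false.1 ha.1).mono (Ine_le l 1))
      (ha.2.mono (Ine_le l 1)) fun τ hτ => by
        rw [ha.1.conj (Ine_le l 1 hτ) (Ine_GK 1 h3 hτ) hφ.1, sg_false, one_mul]

end Pool.Agent.MP_e23604_nt.S

end

section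

set_option autoImplicit false

open Module Filter Topology Finset
open scoped Classical

namespace Pool.Agent.MP_e23604_nt.S

open B R
open Q (Wn)

theorem fix_SBSM (hKAP : KAP_st) {r : ℚ} (hr : r ≠ 0) {g : GQ} (h : kum r g = 0) :
    g (cbr r) = cbr r := by
  rw [(hKAP.1 r hr).2.2 g, h, ZMod.val_zero, pow_zero, one_mul]

theorem zero_SBSM (hKAP : KAP_st) {r : ℚ} (hr : r ≠ 0) {s : Qb} (hs : s ^ 3 = r) {g : GQ}
    (hg : g ∈ GK) (h : g s = s) : kum r g = 0 := by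
  obtain ⟨t, ht⟩ := hKAP.2.1 r s hr hs
  have h0 : s ≠ 0 := by
    rintro rfl
    exact hr (by exact_mod_cast (by simpa using hs.symm : (r : Qb) = 0))
  have h1 := ht g
  rw [h, ep_pos hg, sub_self, zero_mul, add_zero] at h1
  refine w3_inj ?_
  rw [ZMod.val_zero, pow_zero]
  exact (mul_left_eq_self₀.1 h1.symm).resolve_right h0

theorem nv3_SBSM : nv 3 1 (3 : Qb) = 1 / 3 := by
  have := R.DIC_ok.2.2.1 3 1 ((3 : ℕ) : ℚ) (by norm_num)
  rw [padicValRat.self (by norm_num)] at this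
  simpa using this

theorem near_SBSM (hKAP : KAP_st) (hKUM : KUM_st) {m : ℤ} (h0 : m ≠ 0) (h : m % 9 = 1) :
    Tv (Dec (nv 3 1)) (kum m) := by
  obtain ⟨k, hk⟩ : ∃ k : ℤ, m = 9 * k + 1 := ⟨m / 9, by omega⟩
  obtain ⟨s, hs, hf⟩ := hKUM.1 3 1 (Dec (nv 3 1)) (m : Qb) le_rfl (fun g _ => map_intCast g m) (by
    have e1 : (m : Qb) - 1 = 3 ^ 2 * k := by
      rw [hk]
      push_cast
      ring
    have e2 : (27 : Qb) = 3 ^ 3 := by norm_num
    rw [e1, e2, map_mul, map_pow, map_pow, nv3_SBSM]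
    have h1 : nv 3 1 (k : Qb) ≤ 1 := v_int (nv_na 3 1) (isIntegral_algebraMap (R := ℤ) (x := k))
    have h2 := (nv 3 1).nonneg (k : Qb)
    nlinarith)
  intro g hg hk
  exact zero_SBSM hKAP (by exact_mod_cast h0) (by rw [hs]; simp) hk (hf g hg)

theorem mod_SBSM {l : ℕ} (h : ((l ^ 2 : ℕ) : ℤ) % 9 = 1 ∨ ((l ^ 2 : ℕ) : ℤ) % 9 = 8) :
    l % 9 = 1 ∨ l % 9 = 8 := by
  have h1 : l ^ 2 % 9 = 1 ∨ l ^ 2 % 9 = 8 := by omega
  rw [Nat.pow_mod] at h1
  have h2 : l % 9 < 9 := Nat.mod_lt _ (by norm_num)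
  generalize l % 9 = r at h1 h2
  interval_cases r <;> simp_all

theorem BSM_pf (hKAP : KAP_st) (hKUG : KUG_st) (hKUM : KUM_st) (hNCU : NCU_st) (hDIM : DIM_st)
    (hTAM : TAM_st) (hLU : LU_st) (hLOC : LOC_st) : BSM_st := by
  have hne : ∀ l : ℕ, l.Prime → (l : ℚ) ≠ 0 := fun l hl => Nat.cast_ne_zero.2 hl.ne_zero
  have hcoc : ∀ l : ℕ, l.Prime → Tl true ⊤ (kum l) := fun l hl =>
    ⟨(hKAP.1 l (hne l hl)).1, (hKAP.1 l (hne l hl)).2.1⟩
  have hunr : ∀ l : ℕ, l.Prime → ∀ (q : ℕ) [Fact q.Prime] (γ : GQ), q ≠ 3 → q ≠ l →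
      ∀ τ ∈ Ine q γ, kum l τ = 0 := fun l hl q hq γ h3 hql τ hτ => by
    rw [hKAP.2.2.2.2.1 q γ l h3 (hne l hl) τ hτ, padicValRat.of_nat,
      padicValNat.eq_zero_of_not_dvd fun e => hql ((Nat.prime_dvd_prime_iff_eq hq.out hl).1 e)]
    simp
  have hnd : ∀ l : ℕ, l.Prime → l ≠ 3 → ¬ (3 : ℤ) ∣ l := fun l hl h3 e =>
    h3 ((Nat.prime_dvd_prime_iff_eq Nat.prime_three hl).1 (by exact_mod_cast e)).symm
  refine ⟨fun l hl _ => hcoc l hl, fun l hl _ => hunr l hl, fun l _ _ _ τ _ h => h, fun h => ?_,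
    fun a T ha hT hU => hKUG a T ha.1 ha.2 (fun l hl => (hT l hl).1)
      fun l _ h3 hl => hU l h3 (Or.inl rfl) hl,
    fun l q hq hl _ hlq => ?_, fun a l ha hl h3 _ hs => ?_⟩
  · have := (hNCU.2 1 1 1 (cbr (3 : ℕ)) (by decide) (by rw [cbr_cube]; simp)
      fun g hg => fix_SBSM hKAP (hne 3 Nat.prime_three) (h g trivial hg.2)).1
    omega
  · change Tv (Dec (nv q 1)) (kum l) ↔ Sk l q
    by_cases h3 : q = 3
    · subst h3
      rw [Sk, if_pos rfl]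
      refine ⟨fun h => ?_, fun h => ?_⟩
      · have := (hNCU.2 1 0 l (cbr l) (hnd l hl hlq) (by rw [cbr_cube]; simp)
          fun g hg => fix_SBSM hKAP (hne l hl) (h g hg.1 hg.2)).2
        omega
      · rcases h with h | h
        · have := near_SBSM hKAP hKUM (m := l) (by exact_mod_cast hl.ne_zero) (by omega)
          simpa using this
        · have := near_SBSM hKAP hKUM (m := -l) (by simpa using hl.ne_zero) (by omega)
          intro g hg hk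
          rw [← (hKAP.2.2.2.1 l (hne l hl) g hk).2]
          simpa using this g hg hk
    · rw [Sk, if_neg h3]
      have hu : Ur q (kum l) := hunr l hl q 1 h3 hlq.symm
      rcases prime_mod hq.out h3 with h1 | h1
      · obtain ⟨φ, hφ⟩ := (R.FRO_ok q 1).1
        rw [← hKAP.2.2.2.2.2 q 1 φ l h1 hφ
          fun e => hlq ((Nat.prime_dvd_prime_iff_eq hq.out hl).1 e).symm]
        exact ⟨fun h => h φ hφ.1 (hLOC.2.2.1 q 1 h1 hφ.1),
          fun h g hg _ => hLU.1 true q φ _ hφ ((hcoc l hl).mono le_top) hu h g hg⟩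
      · exact iff_of_true (hLU.2.1 q _ h1 ((hcoc l hl).mono le_top) hu) (cub_two hq.out h1 l)
  · change ¬ Sk l 3 at hs
    rw [Sk, if_pos rfl] at hs
    have h3' := (hcoc 3 Nat.prime_three).mono (H' := Dec (nv 3 1)) le_top
    have hl' := (hcoc l hl).mono (H' := Dec (nv 3 1)) le_top
    obtain ⟨c, hc, hz⟩ := hDIM.2 ![a, kum (3 : ℕ), kum l] fun i => by
      fin_cases i
      exacts [ha, h3', hl']
    simp only [Fin.sum_univ_three, Matrix.cons_val_zero, Matrix.cons_val_one, Matrix.cons_val_two,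
      Matrix.head_cons, Matrix.tail_cons] at hz
    by_cases h0 : c 0 = 0
    · exfalso
      have key := hNCU.2 1 (c 1).val ((l ^ (c 2).val : ℕ) : ℤ)
        (cbr (3 : ℕ) ^ (c 1).val * cbr l ^ (c 2).val)
        (fun e => hnd l hl h3 (Int.prime_three.dvd_of_dvd_pow (by exact_mod_cast e)))
        (by
          rw [mul_pow, ← pow_mul, ← pow_mul, mul_comm (c 1).val, mul_comm (c 2).val, pow_mul,
            pow_mul, cbr_cube, cbr_cube]
          simp)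
        fun g hg => by
          have e := hz g hg
          rw [h0, zero_mul, zero_add] at e
          rw [map_mul, map_pow, map_pow, (hKAP.1 _ (hne 3 Nat.prime_three)).2.2 g,
            (hKAP.1 _ (hne l hl)).2.2 g, mul_pow, mul_pow, mul_mul_mul_comm, ← pow_mul, ← pow_mul,
            ← pow_add, ← Nat.mod_add_div (_ + _) 3, pow_add, pow_mul, w3_cube, one_pow, mul_one,
            ← ZMod.val_natCast]
          have e' : (((kum (3 : ℕ) g).val * (c 1).val + (kum l g).val * (c 2).val : ℕ) : ZMod 3)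
              = 0 := by
            push_cast
            simp only [ZMod.natCast_val, ZMod.cast_id', id_eq]
            linear_combination e
          rw [e', ZMod.val_zero, pow_zero, one_mul]
      have h1 : c 1 = 0 := by
        have := ZMod.val_lt (c 1)
        exact (ZMod.val_eq_zero _).1 (by omega)
      have h2 : c 2 = 0 := by
        rcases z3 (c 2) with e | e | e
        · exact e
        · rw [e, ZMod.val_one, pow_one] at key
          exact absurd (by omega) hs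
        · rw [e, show (2 : ZMod 3).val = 2 from rfl] at key
          exact absurd (mod_SBSM key.2) hs
      refine hc (funext fun i => ?_)
      fin_cases i
      exacts [h0, h1, h2]
    · have h4 : c 0 * c 0 = 1 := by
        rcases z3 (c 0) with e | e | e
        · exact absurd e h0
        · rw [e, mul_one]
        · rw [e]
          rfl
      refine ⟨-(c 0 * c 1), -(c 0 * c 2), fun g hg hk => ?_⟩
      have e := hz g ⟨hg, hk⟩
      linear_combination c 0 * e - a g * h4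

end Pool.Agent.MP_e23604_nt.S

end

section

set_option autoImplicit false

open Module Filter Topology Finset
open scoped Classical

namespace Pool.Agent.MP_e23604_nt.S

open B R
open Q (Wn)

theorem pow_SLEV {A : Type} [AddCommGroup A] {J : A ≃ₗ[ℤ] A} {η : Act A} {n : ℕ} (h : Cm3 J)
    (hη : Ga J n η) {g : GQ} (hg : g ∈ GK) (s : ℕ) :
    ∀ j, ∀ u ∈ Wn J (j + s), η (g ^ 3 ^ s) u - u ∈ Wn J j := by
  induction s with
  | zero => exact fun j u hu => sub_mem ((W_act h hη _).2 hu) hu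
  | succ s ih =>
    intro j u hu
    have h1 := ih (j + 1) u (W_mono (by omega) hu)
    have h2 := W_step h hη (GK.pow_mem hg (3 ^ s)) h1
    have h3 := (W_pow h 1 (n := j)).2 (W_mono (by omega) h1)
    have h4 := add_mem (add_mem h3 (nsmul_mem h2 3))
      (sub_mem ((W_act h hη (g ^ 3 ^ s)).2 h2) h2)
    rw [pow_succ, pow_mul, pow_three, R.act_mul, R.act_mul]
    simp only [map_sub, pow_one] at h4
    convert h4 using 1
    abel

theorem LEV_pf : LEV_st := by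
  intro A _ J η n m X h hη hX hZ
  let N : Subgroup GQ :=
    { carrier := {g | Kr J η m X g}
      one_mem' := ⟨fun u _ => act_one η u, fun ξ hξ => (hZ ξ hξ).one⟩
      mul_mem' := fun {a b} ha hb => ⟨fun u hu => by rw [R.act_mul, hb.1 u hu, ha.1 u hu],
        fun ξ hξ => by rw [(hZ ξ hξ).coc, ha.2 ξ hξ, hb.2 ξ hξ, map_zero, add_zero]⟩
      inv_mem' := fun {a} ha => ⟨fun u hu => by
        conv_lhs => rw [← ha.1 u hu, ← R.act_mul, inv_mul_cancel, act_one], fun ξ hξ => by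
        have := inv_LEV (hZ ξ hξ) a
        rwa [ha.2 ξ hξ, zero_add, ha.1 _ ((hZ ξ hξ).lev _)] at this⟩ }
  refine ⟨N, ⟨⟨⟨fun g hg x => ⟨fun u hu => ?_, fun ξ hξ => ?_⟩⟩, ?_⟩, fun g hg => ⟨m + m, ?_⟩⟩,
    fun g => Iff.rfl⟩
  · rw [R.act_mul, R.act_mul, hg.1 _ ((W_act h hη _).2 hu), ← R.act_mul, mul_inv_cancel, act_one]
  · rw [(hZ ξ hξ).coc, (hZ ξ hξ).coc, hg.2 ξ hξ, map_zero, add_zero, R.act_mul,
      hg.1 _ ((hZ ξ hξ).lev _), inv_LEV (hZ ξ hξ)]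
  · have hf : (Wn J m : Set A).Finite := W_fin h m
    refine N.isOpen_of_mem_nhds (g := 1) ?_
    filter_upwards [lc_LEV hf (f := fun u g => η g u) fun u _ => hη.opn u,
      lc_LEV hX (f := fun ξ g => ξ g) fun ξ hξ => (hZ ξ hξ).lc] with g h1 h2
    exact ⟨fun u hu => (h1 u hu).trans (act_one η u), fun ξ hξ => (h2 ξ hξ).trans (hZ ξ hξ).one⟩
  · have h1 : ∀ u ∈ Wn J m, η (g ^ 3 ^ m) u = u := fun u hu =>
      sub_eq_zero.1 (W_zero.1 (pow_SLEV h hη hg m 0 u (by rwa [zero_add])))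
    rw [pow_add, pow_mul]
    generalize g ^ 3 ^ m = a at h1
    have h2 : ∀ j : ℕ, ∀ u ∈ Wn J m, η (a ^ j) u = u := fun j u hu => by
      induction j with
      | zero => rw [pow_zero, act_one]
      | succ j ih => rw [pow_succ, R.act_mul, h1 u hu, ih]
    refine ⟨h2 _, fun ξ hξ => ?_⟩
    have h3 : ∀ j : ℕ, ξ (a ^ j) = j • ξ a := fun j => by
      induction j with
      | zero => rw [pow_zero, (hZ ξ hξ).one, zero_smul]
      | succ j ih => rw [pow_succ, (hZ ξ hξ).coc, ih, h2 j _ ((hZ ξ hξ).lev a), succ_nsmul]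
    rw [h3]
    exact W_kill h ((hZ ξ hξ).lev a)

end Pool.Agent.MP_e23604_nt.S

end

section

set_option autoImplicit false

open Module Filter Topology Finset
open scoped Classical

namespace Pool.Agent.MP_e23604_nt.S

open B R
open Q (Wn)

theorem INVU_pf (hPAI : PAI_st) (hINV3 : INV3_st) : INVU_st := by
  intro A _ J η n T b h K e l _ P u hK he hl hP hP' hT ha hlc hur htv
  have hz : ∀ g ∈ Dec (nv l 1), dd η P g ∈ Wn J (2 * K) := fun g hg =>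
    W_odd h.cm h.t0 (hT g hg) hP
  have hTt : T ∈ tor A (3 ^ K) := (W_tor h.cm K).1 (W_mono (by omega) h.t0.1)
  have hzt : ∀ g ∈ Dec (nv l 1), dd η P g ∈ tor A (3 ^ K) := fun g hg =>
    (W_tor h.cm K).1 (hz g hg)
  have hat : ∀ g j : GQ, j ∈ Dec (nv l 1) → η g (dd η P j) ∈ tor A (3 ^ K) := fun g j hj =>
    (W_tor h.cm K).1 ((W_act h.cm h.ga g).2 (hz j hj))
  have h1 := (hPAI A J K e h.cm he.toPai hK).1 T h.t0
  have h2 : ∀ j ∈ Dec (nv l 1), w3 ^ (lg (e T (dd η P j))).val = e T (dd η P j) := fun j hj =>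
    pow_lg (h1 _ (hz j hj)).1
  have h3 : ∀ g ∈ Dec (nv l 1), ∀ j ∈ Dec (nv l 1),
      e T (η g (dd η P j)) = w3 ^ (ep g * lg (e T (dd η P j))).val := fun g hg j hj => by
    rw [← act_w3, h2 j hj, he.eqv g _ hTt _ (hzt j hj), hT g hg]
  have h4 : Tdt (Dec (nv l 1)) fun j => lg (e T (dd η P j)) := fun g hg j hj => by
    apply w3_inj
    rw [h2 _ (mul_mem hg hj), w3_add, h2 g hg, ← h3 g hg j hj, dd_coc,
      he.bil.addr _ hTt _ (hzt g hg) _ (hat g j hj)]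
  have h5 : Lc (Dec (nv l 1)) fun j => lg (e T (dd η P j)) :=
    ((dd_lc h.ga P).map fun y => lg (e T y)).mono le_top
  obtain ⟨φ, hφ⟩ := (R.FRO_ok l 1).1
  have h6 : u φ ≠ 0 := fun e0 => htv fun g hg _ =>
    ((R.FRO_ok l 1).2 φ hφ).2.2.2.2 _ u ha hlc hur e0 g hg
  have h7 : ∃ τ ∈ Ine l 1, lg (e T (dd η P τ)) ≠ 0 := by
    obtain ⟨τ, t1, -, t2⟩ := h.ga.tam l hl
    refine ⟨τ, t1, fun e0 => hP' ?_⟩
    have e1 := h2 τ (Ine_le l 1 t1)
    rw [e0, ZMod.val_zero, pow_zero] at e1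
    have e2 := (h1 _ (hz τ (Ine_le l 1 t1))).2.1 e1.symm
    rw [dd, t2 _ P hP, W_succ] at e2
    exact W_mono (by omega) e2
  obtain ⟨v, v1, v2⟩ := hINV3 l 1 φ u _ (h.ne hl) hφ ha hlc hur h6 h4 h5 h7
  refine ⟨v, v1, v2.congr fun g hg j hj => ?_⟩
  have e1 := he.bil.nsmul_INVQ (by positivity) hTt (hat g j hj) (u g).val 1
  rw [one_smul, pow_one, h3 g hg j hj, pow_val_mul_INVQ w3_cube, mul_comm] at e1
  exact e1.symm

end Pool.Agent.MP_e23604_nt.S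

end

section

set_option autoImplicit false

open Module Filter Topology Finset
open scoped Classical

namespace Pool.Agent.MP_e23604_nt.S

open B R
open Q (Wn)

theorem UNL_pf (hLU : LU_st) (hLOC : LOC_st) (hTAM : TAM_st) : UNL_st := by
  intro A _ J η n T b hP l hl χ hn hχ
  have h3 : l ≠ 3 := hP.ne hn
  have hG : Ine l 1 ≤ GK := (hTAM l 1 h3).1
  have hm : l % 3 = 1 ∨ l % 3 = 2 := by
    have : ¬ 3 ∣ l := fun e => h3 ((Nat.prime_dvd_prime_iff_eq Nat.prime_three hl.out).1 e).symm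
    omega
  by_cases hc : b = false ∧ l % 3 = 2
  · obtain ⟨rfl, h2⟩ := hc
    exact ⟨χ, hχ, hLU.2.2.2.2 l χ h2 hχ, 0, fun g _ => by simp [chT, dd]⟩
  have hd : ∀ g ∈ Dec (nv l 1), b = true ∨ g ∈ GK := fun g hg => by
    rcases hm with e | e
    · exact Or.inr (hLOC.2.2.1 l 1 e hg)
    · cases b
      · exact absurd ⟨rfl, e⟩ hc
      · exact Or.inl rfl
  obtain ⟨R, hR, hR'⟩ := W_ex hP.cm 1
  obtain ⟨a, ha, e⟩ := ex_chT hP.cm hP.t0 hP.ty (H := Dec (nv l 1)) (ξ := dd η R)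
    ((dd_lc hP.ga R).mono le_top) (fun g _ j _ => dd_coc η R g j)
    fun g hg => dd_two hP hR (hd g hg)
  have hu : ¬ Ur l a := fun hu => by
    obtain ⟨τ, h1, -, h2⟩ := hP.ga.tam l hn
    have h4 := e τ (Ine_le l 1 h1)
    rw [(chT_eq_zero hP.cm hP.t0).2 (hu τ h1), dd, h2 2 R hR, eq_comm, sub_eq_zero] at h4
    exact hR' (W_one.2 h4)
  have k1 := hχ.mono (Ine_le l 1)
  have k2 := ha.mono (Ine_le l 1)
  obtain ⟨-, t, ht⟩ := hLU.2.2.2.1 l χ a h3 ((tc_gk hG).1 k1.1) k1.2 ((tc_gk hG).1 k2.1) k2.2 hu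
  refine ⟨fun g => χ g - t * a g, hχ.sub (ha.mul t), fun τ hτ => sub_eq_zero.2 (ht τ hτ),
    t.val • R, fun g hg => ?_⟩
  have h5 := e g hg
  simp only [chT, dd] at h5
  simp only [chT, dd, Pi.sub_apply, sub_sub_cancel, val_mul hP.cm hP.t0.1, h5, map_nsmul, smul_sub]

end Pool.Agent.MP_e23604_nt.S

end

section

set_option autoImplicit false

open Module Filter Topology Finset
open scoped Classical

namespace Pool.Agent.MP_e23604_nt.S

open B R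
open Q (Wn)

section aux

variable {A : Type} [AddCommGroup A] {J : A ≃ₗ[ℤ] A}

theorem w1_SLIF0 {u : A} (hu : wo J u = 0) : u ∈ Wn J 1 := (W_om (n := 0)).1 (W_zero.2 hu)

/-- the defect of a cochain -/
noncomputable def df_SLIF0 (η : Act A) (x : GQ → A) (g h : GQ) : A := x g + η g (x h) - x (g * h)

theorem cob_SLIF0 (h : Cm3 J) {T : A} (hT : T ∈ Wn J 1 ∧ T ≠ 0) {η : Act A} {b : Bool}
    (ht : Ty η T b) {x y : GQ → A} {H : Subgroup GQ}
    (hd : ∀ g j, df_SLIF0 η x g j ∈ Wn J 1) (hx : Lc H x) (hy : Lc H y)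
    (hc : ∀ g ∈ H, ∀ j ∈ H, y (g * j) = y g + η g (y j))
    (hw : ∀ g ∈ H, wo J (y g) = wo J (x g)) :
    Bd3 b H fun g j => dg T (df_SLIF0 η x g j) := by
  have hb : ∀ g ∈ H, x g - y g ∈ Wn J 1 := fun g hg =>
    w1_SLIF0 (by rw [map_sub, hw g hg, sub_self])
  refine ⟨fun g => dg T (x g - y g), hx.map₂ hy fun a b => dg T (a - b),
    fun g hg j hj => val_inj h hT ?_⟩
  rw [val_add h hT.1, val_add h hT.1, ← act_val h hT.1 ht, val_dg h hT (hb g hg),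
    val_dg h hT (hb j hj), val_dg h hT (hd g j), val_dg h hT (hb _ (mul_mem hg hj)),
    hc g hg j hj, df_SLIF0, map_sub]
  abel

end aux

theorem LIF0_pf (hAQW : AQW_st) (hLEV : LEV_st) (hHOMQ : HOMQ_st) : LIF0_st := by
  intro A _ J η n T b hP K ζ l₀ Q φ τ hQ m hm ξ' hξ
  obtain ⟨hz, hu, h2, hn⟩ := hξ
  have h0 : Cm3 J := hP.cm
  have hη := hP.ga
  have hη' := hP.tw.ga
  have hT := hP.t0
  have htw := wo_tw h0 hη
  choose sec hsec using h0.surj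
  set x : GQ → A := fun g => sec (ξ' g) with hx
  have hwx : ∀ g, wo J (x g) = ξ' g := fun g => hsec _
  have hxm : ∀ g, x g ∈ Wn J (m + 1) := fun g => W_om.1 (by rw [hwx]; exact hz.lev g)
  have hxl : Lc ⊤ x := hz.lc.map sec
  have hd : ∀ g j, df_SLIF0 η x g j ∈ Wn J 1 := fun g j => w1_SLIF0 (by
    rw [df_SLIF0, map_sub, map_add, htw, hwx, hwx, hwx, hz.coc, sub_self])
  obtain ⟨N1, hN1, e1⟩ := hLEV A J (tw η) n m {ξ'} h0 hη' (Set.finite_singleton _)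
    (fun _ h => h ▸ hz)
  obtain ⟨N2, hN2, e2⟩ := hLEV A J η n (m + 1) ∅ h0 hη Set.finite_empty (fun _ h => h.elim)
  have hN := hN1.inf hN2
  have k1 : ∀ g j, g⁻¹ * j ∈ N1 ⊓ N2 → x g = x j := fun g j e => by
    have a1 := hz.coc g (g⁻¹ * j)
    rw [mul_inv_cancel_left, ((e1 _).1 e.1).2 ξ' rfl, map_zero, add_zero] at a1
    simp only [hx, a1]
  have k2 : ∀ g j, g⁻¹ * j ∈ N1 ⊓ N2 → ∀ u ∈ Wn J (m + 1), η g u = η j u := fun g j e u hu => by
    have a1 := R.act_mul η g (g⁻¹ * j) u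
    rw [mul_inv_cancel_left, ((e2 _).1 e.2).1 u hu] at a1
    exact a1.symm
  have loc : ∀ H, InL (tw η) H ξ' → Bd3 b H fun g j => dg T (df_SLIF0 η x g j) := by
    rintro H ⟨R', hR⟩
    refine cob_SLIF0 h0 hT hP.ty (y := dd η (sec R')) hd (hxl.mono le_top)
      ((dd_lc hη _).mono le_top) (fun g _ j _ => dd_coc η _ g j) fun g hg => ?_
    rw [hwx, hR g hg, wo_dd h0 hη, hsec]
  obtain ⟨β, b1, b3⟩ := hAQW b (N1 ⊓ N2) (fun g j => dg T (df_SLIF0 η x g j)) hN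
    (fun g i j => val_inj h0 hT (by
      rw [val_add h0 hT.1, val_add h0 hT.1, ← act_val h0 hT.1 hP.ty, val_dg h0 hT (hd _ _),
        val_dg h0 hT (hd _ _), val_dg h0 hT (hd _ _), val_dg h0 hT (hd _ _)]
      simp only [df_SLIF0, map_sub, map_add, R.act_mul, mul_assoc]
      abel))
    (fun g i _ j _ e => by
      have a1 : (g * i)⁻¹ * (g * j) ∈ N1 ⊓ N2 := by
        rwa [mul_inv_rev, mul_assoc, inv_mul_cancel_left]
      simp only [df_SLIF0, k1 i j e, k1 _ _ a1])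
    (fun j g _ i _ e => by
      have a1 : (g * j)⁻¹ * (i * j) ∈ N1 ⊓ N2 := by
        have a2 := hN.1.1.conj_mem _ e j⁻¹
        rwa [inv_inv, mul_assoc, mul_assoc, ← mul_assoc j⁻¹, ← mul_inv_rev] at a2
      simp only [df_SLIF0, k1 g i e, k1 _ _ a1, k2 g i e _ (hxm j)])
    (by
      intro l _
      by_cases c1 : l = 3
      · subst c1; exact Or.inl (loc _ h2)
      by_cases c2 : l ∣ n
      · exact Or.inl (loc _ (hn l c2))
      by_cases c3 : l ∈ Q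
      · left
        obtain ⟨-, -, -, q2, q3⟩ := hHOMQ K ζ l 1 (φ l) (τ l) A hQ.zeta (hQ.tq l c3)
        have t1 : ∀ u ∈ Wn J (m + 1), 3 ^ (K + 1) • u = 0 := fun u hu =>
          (W_tor h0 (K + 1)).1 (W_mono (by omega) hu)
        have t2 : ∀ g ∈ Dec (nv l 1), ∀ u ∈ Wn J (m + 1), η g u = u := fun g hg u hu =>
          hQ.triv l c3 g hg u (W_mono (by omega) hu)
        obtain ⟨a, a1, a2, a3, a4, a5⟩ := q2 _ _ (t1 _ (hxm (φ l))) (t1 _ (hxm (τ l)))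
        have a6 : ∀ g, a g ∈ Wn J (m + 1) := fun g => by
          obtain ⟨i, j, e⟩ := a5 g
          rw [e]
          exact add_mem (nsmul_mem (hxm _) _) (nsmul_mem (hxm _) _)
        refine cob_SLIF0 h0 hT hP.ty hd (hxl.mono le_top) a2
          (fun g hg j hj => by rw [a1 g hg j hj, t2 g hg _ (a6 j)]) fun g hg => ?_
        refine sub_eq_zero.1 (q3 (fun g => wo J (a g) - wo J (x g)) (K + 1) (fun g hg j hj => ?_)
          (a2.map₂ (hxl.mono le_top) fun s t => wo J s - wo J t) (fun g _ => ?_)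
          (by simp only [a3, sub_self]) (by simp only [a4, sub_self]) g hg)
        · have a7 : wo J (x (g * j)) = wo J (x g) + wo J (x j) := by
            rw [hwx, hz.coc, ← hwx j, ← htw, t2 g hg _ (hxm j), hwx g]
          simp only [a1 g hg j hj, a7, map_add]
          abel
        · rw [← map_sub, ← map_nsmul, t1 _ (sub_mem (a6 g) (hxm g)), map_zero]
      · exact Or.inr fun γ s hs => ⟨(e1 s).2 ⟨fun u hu' => hη'.unr' h0 c1 c2 hs.1 hu',
          fun _ h => h ▸ hu l γ c1 c2 c3 s hs.1⟩,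
          (e2 s).2 ⟨fun u hu' => hη.unr' h0 c1 c2 hs.1 hu', fun _ h => h.elim⟩⟩)
  have t1 : ∀ g, (β g).val • T ∈ Wn J 1 := fun g => nsmul_mem hT.1 _
  refine ⟨fun g => x g - (β g).val • T, ⟨hxl.map₂ b1 fun u b => u - b.val • T, fun g j => ?_,
    fun g => sub_mem (hxm g) (W_mono (by omega) (t1 g))⟩, fun g => ?_⟩
  · have a1 := congrArg (fun a : ZMod 3 => a.val • T) (b3 g trivial j trivial)
    simp only [val_add h0 hT.1, ← act_val h0 hT.1 hP.ty, val_dg h0 hT (hd g j)] at a1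
    rw [df_SLIF0] at a1
    rw [map_sub, eq_sub_of_add_eq' a1.symm]
    abel
  · rw [map_sub, hwx, W_zero.1 ((W_om (n := 0)).2 (t1 g)), sub_zero]

end Pool.Agent.MP_e23604_nt.S

end

section

set_option autoImplicit false

open Module Filter Topology Finset
open scoped Classical

namespace Pool.Agent.MP_e23604_nt.S

open B R
open Q (Wn)

theorem RAM_pf (hBS : BS_st) (hLU : LU_st) (hLOC : LOC_st) (hTAM : TAM_st) : RAM_st := by
  intro A _ J η n T b hP Q m ξ hξ hW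
  obtain ⟨κ, hκ⟩ := hBS b
  have key : ∀ l : ℕ, ∃ t : ZMod 3, ∀ _ : Fact l.Prime, l ≠ 3 → ¬ l ∣ n → l ∉ Q →
      (∃ τ ∈ Ine l 1, ξ τ ≠ 0) → Ad b l ∧ ∀ τ ∈ Ine l 1, ξ τ = (t * κ l τ).val • T := by
    intro l
    by_cases h : ∃ _ : Fact l.Prime, l ≠ 3 ∧ ¬ l ∣ n ∧ l ∉ Q ∧ ∃ τ ∈ Ine l 1, ξ τ ≠ 0
    swap
    · exact ⟨0, fun hl h1 h2 h3 h4 => absurd ⟨hl, h1, h2, h3, h4⟩ h⟩
    obtain ⟨hl, h1, h2, h3, σ, hσ, hne⟩ := h
    obtain ⟨χ, c1, c2⟩ := ex_chT hP.cm hP.t0 hP.ty (H := Ine l 1) (hξ.lc.mono le_top)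
      (fun g _ j _ => hξ.coc g j) (hW l h1 h2 h3)
    have c3 := (tc_gk (Ine_GK 1 h1)).1 c1.1
    have had : Ad b l := by
      by_contra hc
      rw [Ad, not_or, not_not, Bool.not_eq_true] at hc
      obtain ⟨rfl, h4⟩ := hc
      obtain ⟨φ, hφ⟩ := (R.FRO_ok l 1).1
      have h5 := hLOC.1 l 1 φ χ h1 hφ.1 (hLOC.2.1 l 1 φ h4 hφ) c3 c1.2 (fun τ hτ => ?_) σ hσ
      · exact hne ((c2 σ hσ).symm.trans ((chT_eq_zero hP.cm hP.t0).2 h5))
      · refine val_inj hP.cm hP.t0 (((c2 _ (Ine_conj hφ.1 hτ)).trans ?_).trans (c2 τ hτ).symm)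
        have h6 : ξ φ + η φ (ξ φ⁻¹) = 0 := by rw [← hξ.coc, mul_inv_cancel, hξ.one]
        rw [mul_assoc, hξ.coc, hξ.coc, hP.ga.unr' hP.cm h1 h2 hτ (hξ.lev _), map_add,
          add_left_comm, h6, add_zero]
        exact T_fix hP.cm hP.t0 ((hP.ty φ).trans (one_smul _ _)) (hW l h1 h2 h3 τ hτ)
    have c4 := (hκ.coc l hl.out had).mono (H' := Ine l 1) le_top
    obtain ⟨t, ht⟩ := (hLU.2.2.2.1 l χ (κ l) h1 c3 c1.2 ((tc_gk (Ine_GK 1 h1)).1 c4.1) c4.2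
      fun hu => by
        obtain ⟨τ, h4, h5⟩ := (hTAM l 1 h1).2.1
        exact hκ.ram l h1 had τ h4 (by rw [h5]; exact one_ne_zero) (hu τ h4)).2
    exact ⟨t, fun _ _ _ _ _ => ⟨had, fun τ hτ => by rw [← ht τ hτ, ← c2 τ hτ]; rfl⟩⟩
  choose t ht using key
  obtain ⟨N, hN, hc⟩ := hξ.lc
  have hf : {l : ℕ | ∃ _ : Fact l.Prime, l ≠ 3 ∧ ¬ l ∣ n ∧ l ∉ Q ∧
      ∃ τ ∈ Ine l 1, ξ τ ≠ 0}.Finite := by
    refine (R.FINR_pf N hN).subset ?_
    rintro l ⟨hl, -, -, -, τ, hτ, hne⟩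
    refine ⟨hl, fun hle => hne ?_⟩
    rw [← hc 1 trivial τ trivial (by simpa using hle hτ), hξ.one]
  have hF : ∀ q ∈ hf.toFinset, q.Prime ∧ Ad b q := fun q hq => by
    obtain ⟨hl, h1, h2, h3, h4⟩ := hf.mem_toFinset.1 hq
    exact ⟨hl.out, (ht q hl h1 h2 h3 h4).1⟩
  have ha : Tl b ⊤ fun g => ∑ q ∈ hf.toFinset, -t q * κ q g :=
    Tl.sum _ fun q hq => (hκ.coc q (hF q hq).1 (hF q hq).2).mul _
  refine ⟨_, ha, fun l hl γ h1 h2 h3 => ?_⟩
  refine unr_conj ((Zc_mono (Nat.le_succ m) hξ).add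
    (Zc_mono (Nat.le_add_left 1 m) (chT_zc hP.cm hP.t0.1 hP.ty ha)))
    (fun τ hτ u hu => hP.ga.unr' hP.cm h1 h2 hτ hu) (fun τ hτ => ?_) γ
  have h4 : ∀ q ∈ hf.toFinset, q ≠ l → -t q * κ q τ = 0 := fun q hq e => by
    rw [hκ.unr q (hF q hq).1 (hF q hq).2 l 1 h1 e.symm τ hτ, mul_zero]
  rw [Pi.add_apply, chT]
  by_cases e : l ∈ hf.toFinset
  · obtain ⟨_, -, -, -, h5⟩ := hf.mem_toFinset.1 e
    rw [sum_eq_single_of_mem l e h4, (ht l hl h1 h2 h3 h5).2 τ hτ, neg_mul,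
      val_neg hP.cm hP.t0.1, add_neg_cancel]
  · have h6 : ξ τ = 0 := by
      by_contra hne
      exact e (hf.mem_toFinset.2 ⟨hl, h1, h2, h3, τ, hτ, hne⟩)
    rw [h6, sum_eq_zero fun q hq => h4 q hq fun e' => e (e' ▸ hq), ZMod.val_zero, zero_smul,
      add_zero]

end Pool.Agent.MP_e23604_nt.S

end

section

set_option autoImplicit false

open Module Filter Topology Finset
open scoped Classical

namespace Pool.Agent.MP_e23604_nt.S

open B R
open Q (Wn)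

section

variable {A : Type} [AddCommGroup A] {J : A ≃ₗ[ℤ] A} {η : Act A}

theorem wo_chT_SLIFT {T : A} (hT : T ∈ Wn J 1) (a : GQ → ZMod 3) (g : GQ) :
    wo J (chT a T g) = 0 := W_zero.1 (W_om.2 (chT_mem hT a g))

theorem rem_SLIFT {n m : ℕ} {T : A} {b : Bool} (h : P1 J η n T b) {H : Subgroup GQ}
    {ξ ξ' : GQ → A} (hξ : Zc J η m ξ) (e : ∀ g, wo J (ξ g) = ξ' g) (hL : InL (tw η) H ξ') :
    ∃ χ, Tl b H χ ∧ InL η H (ξ - chT χ T) := by
  obtain ⟨R', hR'⟩ := hL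
  obtain ⟨R, rfl⟩ := h.cm.surj R'
  obtain ⟨χ, h1, h2⟩ := ex_chT h.cm h.t0 h.ty (H := H) (ξ := ξ - dd η R)
    ((hξ.lc.map₂ (dd_lc h.ga R) (· - ·)).mono le_top)
    (fun g _ j _ => by
      simp only [Pi.sub_apply, hξ.coc, dd_coc, map_sub]
      abel)
    (fun g hg => by
      rw [← W_om, W_zero, Pi.sub_apply, map_sub, e, hR' g hg, wo_dd h.cm h.ga, sub_self])
  exact ⟨χ, h1, R, fun g hg => by rw [Pi.sub_apply, h2 g hg, Pi.sub_apply, sub_sub_cancel]⟩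

end

theorem LIFT_pf (hLIF0 : LIF0_st) (hRAM : RAM_st) (hCOR : COR_st) (hBS : BS_st) : LIFT_st := by
  intro A _ J η n T b h K ζ l₀ Q φ τ hQ m hm ξ' hξ'
  obtain ⟨ξ₀, z0, e0⟩ := hLIF0 A J η n T b h K ζ l₀ Q φ τ hQ m hm ξ' hξ'
  obtain ⟨-, u', i3, iL⟩ := hξ'
  obtain ⟨a, ha, u1⟩ := hRAM A J η n T b h Q (m + 1) ξ₀ z0 fun l _ h1 h2 h3 σ hσ => by
    rw [← W_om, W_zero, e0, u' l 1 h1 h2 h3 σ hσ]
  have zc : ∀ c, Tl b ⊤ c → Zc J η (m + 1) (chT c T) := fun c hc =>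
    Zc_mono (by omega) (chT_zc h.cm h.t0.1 h.ty hc)
  have z1 : Zc J η (m + 1) (ξ₀ + chT a T) := z0.add (zc a ha)
  have e1 : ∀ g, wo J ((ξ₀ + chT a T) g) = ξ' g := fun g => by
    rw [Pi.add_apply, map_add, e0, wo_chT_SLIFT h.t0.1, add_zero]
  generalize ξ₀ + chT a T = ξ₁ at u1 z1 e1
  obtain ⟨κ, hκ⟩ := hBS b
  obtain ⟨l, hl, hA, hS⟩ := h.gA b
  have lp := Nat.prime_of_mem_primeFactors hl
  have ln := Nat.dvd_of_mem_primeFactors hl
  obtain ⟨χ, c1, c2⟩ := rem_SLIFT h z1 e1 i3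
  obtain ⟨s, t, hv⟩ := hκ.lo3 χ l c1 lp (h.ne ln) hA hS
  have hc : Tl b ⊤ fun g => s * κ 3 g + t * κ l g :=
    ((hκ.coc 3 Nat.prime_three (ad_three b)).mul s).add ((hκ.coc l lp hA).mul t)
  have hu : UnrO n Q fun g => s * κ 3 g + t * κ l g := fun q _ γ h1 h2 _ σ hσ => by
    simp only [hκ.unr 3 Nat.prime_three (ad_three b) q γ h1 h1 σ hσ,
      hκ.unr l lp hA q γ h1 (by rintro rfl; exact h2 ln) σ hσ, mul_zero, add_zero]
  have hv' : InL η (Dec (nv 3 1)) (chT (χ - fun g => s * κ 3 g + t * κ l g) T) :=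
    InL_tv h.cm h.t0.1 h.ty (c1.sub (hc.mono le_top)).1 hv
  generalize (fun g => s * κ 3 g + t * κ l g) = c at hc hu hv'
  have z2 : Zc J η (m + 1) (ξ₁ - chT c T) := by
    rw [sub_eq_add_neg]
    exact z1.add (zc c hc).neg
  have e2 : ∀ g, wo J ((ξ₁ - chT c T) g) = ξ' g := fun g => by
    rw [Pi.sub_apply, map_sub, e1, wo_chT_SLIFT h.t0.1, sub_zero]
  have u2 : UnrO n Q (ξ₁ - chT c T) := fun q _ γ h1 h2 h3 σ hσ => by
    rw [Pi.sub_apply, u1 q γ h1 h2 h3 σ hσ, (chT_eq_zero h.cm h.t0).2 (hu q γ h1 h2 h3 σ hσ),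
      sub_zero]
  have i2 : InL η (Dec (nv 3 1)) (ξ₁ - chT c T) := by
    have := c2.add hv'
    rwa [chT_sub h.cm h.t0.1, sub_add_sub_cancel] at this
  obtain ⟨a', ha'⟩ := hCOR A J η n T b h K ζ l₀ Q φ τ hQ (m + 1) _ (by omega) hm z2 u2 i2
    fun q _ hq => by
      obtain ⟨χ', d1, d2⟩ := rem_SLIFT h z2 e2 (iL q hq)
      refine ⟨-χ', d1.neg, ?_⟩
      rwa [chT_neg h.cm h.t0.1, ← sub_eq_add_neg]
  exact ⟨_, ha', fun g => by
    rw [Pi.add_apply, map_add, e2, wo_chT_SLIFT h.t0.1, add_zero]⟩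

end Pool.Agent.MP_e23604_nt.S

end

section

set_option autoImplicit false

open Module Filter Topology Finset
open scoped Classical

namespace Pool.Agent.MP_e23604_nt.S

open B R
open Q (Wn)

theorem kers_SQE1 {b : Bool} (κ : ℕ → GQ → ZMod 3) (S : Finset ℕ) (h : ∀ l ∈ S, Tl b ⊤ (κ l)) :
    ∃ N, ON N ∧ ∀ g, g ∈ N ↔ g ∈ GK ∧ ∀ l ∈ S, κ l g = 0 := by
  induction S using Finset.induction_on with
  | empty => exact ⟨GK, GK_on, fun g => by simp⟩
  | insert l S _ ih =>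
    obtain ⟨N, h1, h2⟩ := ih fun j hj => h j (mem_insert_of_mem hj)
    obtain ⟨M, h3, h4⟩ := (h l (mem_insert_self l S)).ker
    exact ⟨M ⊓ N, h3.inf h1, fun g => by
      rw [Subgroup.mem_inf, h4, h2, Finset.forall_mem_insert, ← and_and_left]⟩

theorem stab_SQE1 {ζ : Qb} {k : ℕ} (hk : k ≠ 0) (h : IsPrimitiveRoot ζ k) :
    ∃ N, ON N ∧ ∀ g : GQ, g ∈ N ↔ g ζ = ζ := by
  have : NeZero k := ⟨hk⟩
  refine ⟨MulAction.stabilizer GQ ζ, ⟨⟨fun x hx g => ?_⟩,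
    stabilizer_isOpen_of_isIntegral (K := ℚ) ζ⟩, fun _ => Iff.rfl⟩
  have hx' : x ζ = ζ := hx
  obtain ⟨i, -, hi⟩ := h.eq_pow_of_pow_eq_one (ξ := g⁻¹ ζ)
    (by rw [← map_pow, h.pow_eq_one, map_one])
  show (g * x * g⁻¹) ζ = ζ
  rw [AlgEquiv.mul_apply, AlgEquiv.mul_apply, ← hi, map_pow, hx', hi, ← AlgEquiv.mul_apply,
    mul_inv_cancel, AlgEquiv.one_apply]

theorem ndvd_SQE1 {l k : ℕ} (hl : l.Prime) (h3 : l ≠ 3) : ¬ l ∣ 3 ^ k := fun h =>
  h3 ((Nat.prime_dvd_prime_iff_eq hl Nat.prime_three).1 (hl.dvd_of_dvd_pow h))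

/-- a prime whose decomposition group lies in `N` and is not killed by the cocycle `a` -/
theorem cheb_SQE1 (hCHEB : CHEB_st) {b : Bool} {N : Subgroup GQ} {a : GQ → ZMod 3} {g : GQ}
    (hN : ON N) (hG : N ≤ GK) (ha : Tl b ⊤ a) (hg : g ∈ N) (h0 : a g ≠ 0) (B : ℕ) :
    ∃ (q : ℕ) (_ : Fact q.Prime) (φ : GQ), B < q ∧ Frob q 1 φ ∧ a φ ≠ 0 ∧ Dec (nv q 1) ≤ N := by
  obtain ⟨M, h1, h2⟩ := ha.ker
  have gk := hG hg
  have e3 : (3 : ZMod 3) = 0 := rfl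
  have mul : ∀ x ∈ GK, ∀ y, a (x * y) = a x + a y := fun x hx y => by
    rw [ha.1 x trivial y trivial, sg_pos b hx, one_mul]
  have hg' : g ∉ N ⊓ M := fun h => h0 ((h2 g).1 h.2).2
  obtain ⟨q, hq, _, φ, e2, e4, e5⟩ := (hCHEB (N ⊓ M) g (hN.inf h1) hg'
    ⟨N.pow_mem hg 3, (h2 _).2 ⟨GK.pow_mem gk 3, by
      rw [pow_three, mul g gk, mul g gk]
      linear_combination a g * e3⟩⟩ fun h => by
      have c1 := hN.1.conj_mem g hg h
      have c2 := ha.1.conj (j := h) trivial gk trivial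
      rcases mul_self_eq_one_iff.1 (sg_sq b h) with e | e
      · refine Or.inl ⟨N.mul_mem c1 (N.inv_mem hg),
          (h2 _).2 ⟨GK.mul_mem (hG c1) (GK.inv_mem gk), ?_⟩⟩
        rw [mul _ (hG c1), c2, e, ha.1.inv trivial, sg_pos b gk, add_neg_cancel]
      · refine Or.inr ⟨N.mul_mem c1 hg, (h2 _).2 ⟨GK.mul_mem (hG c1) gk, ?_⟩⟩
        rw [mul _ (hG c1), c2, e, neg_one_mul, neg_add_cancel]).2 B
  have φN : φ ∈ N := e4.elim (fun h => (N.mul_mem_cancel_left (N.inv_mem hg)).1 h.1)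
    fun h => (N.mul_mem_cancel_left hg).1 h.1
  refine ⟨q, inferInstance, φ, hq, e2, fun h => hg' ?_, fun j hj => ?_⟩
  · have c1 : φ ∈ N ⊓ M := ⟨φN, (h2 φ).2 ⟨hG φN, h⟩⟩
    exact e4.elim (fun h => inv_mem_iff.1 ((Subgroup.mul_mem_cancel_right _ c1).1 h))
      fun h => (Subgroup.mul_mem_cancel_right _ c1).1 h
  · obtain ⟨i, t, c1, c2⟩ := ((R.FRO_ok q 1).2 φ e2).2.2.2.1 N hN j hj
    have := N.mul_mem (N.mul_mem (N.pow_mem φN i) (e5 c1).1) c2
    rwa [mul_inv_cancel_left] at this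

theorem QE1_pf (hCHEB : CHEB_st) (hLEV : LEV_st) (hBS : BS_st) (hKAP : KAP_st) (hTAM : TAM_st)
    (hLOC : LOC_st) (hLU : LU_st) : QE1_st := by
  intro A _ J η n T b p K l₀ b' l hK h₀ hl
  obtain ⟨κ, hκ⟩ := hBS b'
  obtain ⟨ζ, hζ⟩ := HasEnoughRootsOfUnity.exists_primitiveRoot Qb (3 ^ (K + 1))
  have pr : ∀ j ∈ Ia b' n l₀, j.Prime := fun j hj =>
    Nat.prime_of_mem_primeFactors (Ia_sub _ _ _ hj)
  have dv : ∀ j ∈ Ia b' n l₀, j ∣ n := fun j hj => Nat.dvd_of_mem_primeFactors (Ia_sub _ _ _ hj)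
  have : Fact l₀.Prime := ⟨Nat.prime_of_mem_primeFactors h₀⟩
  have : Fact l.Prime := ⟨pr l hl⟩
  have d₀ := Nat.dvd_of_mem_primeFactors h₀
  have k3 := hKAP.1 ((3 : ℕ) : ℚ) (by norm_num)
  have ha := hκ.coc l (pr l hl) (Ia_ad hl)
  obtain ⟨N1, c1, c2⟩ := hLEV A J η n (2 * K + 1) ∅ p.cm p.ga Set.finite_empty fun _ h => h.elim
  obtain ⟨N2, c3, c4⟩ := kers_SQE1 κ ((Ia b' n l₀).erase l) fun j hj =>
    hκ.coc j (pr j (mem_of_mem_erase hj)) (Ia_ad (mem_of_mem_erase hj))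
  obtain ⟨N3, c5, c6⟩ := stab_SQE1 (by positivity) hζ
  obtain ⟨N4, c7, c8⟩ := Tl.ker (b := true) ⟨k3.1, k3.2.1⟩
  have hM : ON (N2 ⊓ N3 ⊓ N4) := (c3.inf c5).inf c7
  have ine : ∀ (j : ℕ) [Fact j.Prime], j ∣ n → j ∉ (Ia b' n l₀).erase l →
      Ine j 1 ≤ N2 ⊓ N3 ⊓ N4 := fun j _ h1 h2 τ hτ => by
    have h3 := p.ne h1
    have h4 := Ine_GK 1 h3 hτ
    refine ⟨⟨(c4 τ).2 ⟨h4, fun i hi => hκ.unr i (pr i (mem_of_mem_erase hi))
      (Ia_ad (mem_of_mem_erase hi)) j 1 h3 (fun e => h2 (e ▸ hi)) τ hτ⟩,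
      (c6 τ).2 (root_CTQ hτ (ndvd_SQE1 Fact.out h3) hζ.pow_eq_one)⟩, (c8 τ).2 ⟨h4, ?_⟩⟩
    have : Fact (Nat.Prime 3) := ⟨Nat.prime_three⟩
    rw [hKAP.2.2.2.2.1 j 1 _ h3 (by norm_num) τ hτ, padicValRat.of_nat, padicValNat_primes h3]
    simp
  obtain ⟨τ, b1, b2, b3⟩ := p.ga.tam l (dv l hl)
  have l3 := p.ne (dv l hl)
  have τM := ine l (dv l hl) (notMem_erase _ _) b1
  have τG := Ine_GK 1 l3 b1
  have τ0 := hκ.ram l l3 (Ia_ad hl) τ b1 b2
  obtain ⟨s, s1, s2, s3⟩ : ∃ s ∈ N2 ⊓ N3 ⊓ N4, (∀ u ∈ Wn J (2 * K + 1), η s u = J (J u)) ∧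
      κ l τ + κ l s ≠ 0 := by
    cases b'
    · obtain ⟨c, -, hc⟩ := hLOC.2.2.2 1
      refine ⟨c * τ * c⁻¹, hM.1.conj_mem τ τM c, fun u hu => ?_, ?_⟩
      · rw [R.act_mul, R.act_mul, b3 _ _ ((W_act p.cm p.ga _).2 hu), p.ga.ant c hc, ← R.act_mul,
          mul_inv_cancel, R.act_one]
      · rw [ha.1.conj trivial τG trivial, sg_false, one_mul, ← two_mul]
        exact mul_ne_zero (by decide) τ0
    · obtain ⟨t, a1, -, a3⟩ := p.ga.tam l₀ d₀
      have tM := ine l₀ d₀ (fun h => notMem_erase _ _ (mem_of_mem_erase h)) a1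
      have t0 := hκ.unr l (pr l hl) (Ia_ad hl) l₀ 1 (p.ne d₀) (ne_of_mem_erase hl).symm t a1
      refine ⟨t * t, Subgroup.mul_mem _ tM tM, fun u hu => ?_, ?_⟩
      · rw [R.act_mul, a3 _ _ hu, a3 _ _ (W_J.2 hu)]
      · rwa [ha.1 t trivial t trivial, t0, mul_zero, add_zero, add_zero]
  obtain ⟨q, _, φ, e1, e2, e3, e4⟩ := cheb_SQE1 hCHEB (N := N1 ⊓ (N2 ⊓ N3 ⊓ N4)) (g := τ * s)
    (c1.1.inf hM) (fun g hg => ((c8 g).1 hg.2.2).1) ha
    ⟨(c2 _).2 ⟨fun u hu => by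
      rw [R.act_mul, s2 u hu, b3 _ _ (W_J.2 (W_J.2 hu)), J_cube p.cm], fun _ h => h.elim⟩,
      Subgroup.mul_mem _ τM s1⟩
    (by rwa [ha.1 τ trivial s trivial, sg_pos _ τG, one_mul]) (n + 3)
  have n0 : 0 < n := Nat.pos_of_ne_zero p.sf.ne_zero
  have q3 : q ≠ 3 := by omega
  have qn : ∀ j, j ∣ n → j ≠ q := fun j hj => by
    have := Nat.le_of_dvd n0 hj
    omega
  have φN := e4 e2.1
  have hq : 3 ^ (K + 1) ∣ q - 1 := by
    have e := ((R.FRO_ok q 1).2 φ e2).2.2.1 _ ζ (ndvd_SQE1 Fact.out q3) hζ.pow_eq_one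
    rw [(c6 _).1 φN.2.1.2, show q = q - 1 + 1 by omega, pow_succ] at e
    refine hζ.dvd_of_pow_eq_one _ (mul_right_cancel₀ (hζ.ne_zero (by positivity)) ?_)
    rw [one_mul, ← e]
  have hq1 : q % 3 = 1 := by
    have := (dvd_pow_self 3 (Nat.succ_ne_zero K)).trans hq
    omega
  refine ⟨q, inferInstance, hq, fun h => qn q h rfl, ?_, fun g hg => ((c2 g).1 (e4 hg).1).1,
    fun h => e3 ?_, fun j hj hne => ?_⟩
  · refine (hKAP.2.2.2.2.2 q 1 φ 3 hq1 e2 fun h => ?_).1 ((c8 φ).1 φN.2.2).2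
    have := Nat.le_of_dvd three_pos h
    omega
  · exact (hκ.loc l q (pr l hl) (Ia_ad hl) (qn l (dv l hl))).2 h φ e2.1 ((c8 φ).1 φN.2.2).1
  · exact (hκ.loc j q (pr j hj) (Ia_ad hj) (qn j (dv j hj))).1 fun g hg _ =>
      ((c4 g).1 (e4 hg).2.1.1).2 j (mem_erase.2 ⟨hne, hj⟩)

end Pool.Agent.MP_e23604_nt.S

end

section

set_option autoImplicit false

open Module Filter Topology Finset
open scoped Classical

namespace Pool.Agent.MP_e23604_nt.S

open B R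
open Q (Wn)

theorem QEX_pf (hQE1 : QE1_st) (hTQ : TQ_st) (hLOC : LOC_st) : QEX_st := by
  intro A _ J η n T b p K hK
  obtain ⟨l₀, h₀, -⟩ := p.g3
  obtain ⟨ζ, hζ⟩ := HasEnoughRootsOfUnity.exists_primitiveRoot Qb (3 ^ (K + 1))
  have e1 : ∀ (b' : Bool) (l : ℕ), l ∈ Ia b' n l₀ → ∃ q : ℕ, q.Prime ∧ 3 ^ (K + 1) ∣ q - 1 ∧
      ¬ q ∣ n ∧ Cub q 3 ∧ (∀ [Fact q.Prime], ∀ g ∈ Dec (nv q 1), ∀ u ∈ Wn J (2 * K + 1),
        η g u = u) ∧ ¬ Sy b' l q ∧ ∀ l' ∈ Ia b' n l₀, l' ≠ l → Sy b' l' q := fun b' l hl => by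
    obtain ⟨q, hq, a1, a2, a3, a4, a5, a6⟩ := hQE1 A J η n T b p K l₀ b' l hK h₀ hl
    exact ⟨q, hq.out, a1, a2, a3, fun g hg => a4 g hg, a5, a6⟩
  choose! qq q1 q2 q3 q4 q5 q6 q7 using e1
  have e2 : ∀ q : ℕ, ∃ φ τ : GQ, ∀ [Fact q.Prime], 3 ^ (K + 1) ∣ q - 1 →
      TQ (3 ^ (K + 1)) ζ q 1 φ τ := fun q => by
    by_cases e : q.Prime ∧ 3 ^ (K + 1) ∣ q - 1
    · have : Fact q.Prime := ⟨e.1⟩
      obtain ⟨φ, τ, h1⟩ := hTQ K ζ q 1 hζ e.2
      exact ⟨φ, τ, fun _ => h1⟩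
    · exact ⟨1, 1, fun h1 => (e ⟨Fact.out, h1⟩).elim⟩
  choose φ τ e2 using e2
  have nine : ∀ b' l, l ∈ Ia b' n l₀ → qq b' l % 9 = 1 := fun b' l hl => by
    have h1 : 3 ^ 2 ∣ qq b' l - 1 := (pow_dvd_pow 3 (by omega)).trans (q2 b' l hl)
    have h2 := (q1 b' l hl).two_le
    omega
  have mem : ∀ q, q ∈ (univ : Finset Bool).biUnion (fun b' => (Ia b' n l₀).image (qq b')) →
      ∃ b' l, l ∈ Ia b' n l₀ ∧ qq b' l = q := fun q hq => by
    obtain ⟨b', -, h1⟩ := mem_biUnion.1 hq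
    obtain ⟨l, h2, h3⟩ := mem_image.1 h1
    exact ⟨b', l, h2, h3⟩
  refine ⟨ζ, l₀, (univ : Finset Bool).biUnion fun b' => (Ia b' n l₀).image (qq b'), φ, τ,
    hK, hζ, h₀, fun q hq => ?_, fun q _ hq => ?_, fun q _ hq => ?_, fun q _ hq => ?_,
    fun b' l hl => ⟨qq b' l, mem_biUnion.2 ⟨b', mem_univ _, mem_image_of_mem _ hl⟩, q6 b' l hl,
      q7 b' l hl⟩⟩
  · obtain ⟨b', l, hl, rfl⟩ := mem q hq
    exact ⟨q1 b' l hl, nine b' l hl, q3 b' l hl, q4 b' l hl⟩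
  · obtain ⟨b', l, hl, rfl⟩ := mem q hq
    exact e2 _ (q2 b' l hl)
  · obtain ⟨b', l, hl, rfl⟩ := mem q hq
    exact hLOC.2.2.1 _ 1 (by have := nine b' l hl; omega)
  · obtain ⟨b', l, hl, rfl⟩ := mem q hq
    exact q5 b' l hl

end Pool.Agent.MP_e23604_nt.S

end

section

set_option autoImplicit false

open Module Filter Topology Finset
open scoped Classical

namespace Pool.Agent.MP_e23604_nt.S

open B R
open Q (Wn)

theorem sq_SLIN {a c N : ℕ} (h : IsSquare (3 ^ a * N)) (he : Even (a + c)) :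
    IsSquare (N * 3 ^ c) := by
  obtain ⟨m, hm⟩ := h
  obtain ⟨t, ht⟩ := he
  have e : (m * 3 ^ t) ^ 2 = (3 ^ a) ^ 2 * (N * 3 ^ c) := by
    have e1 : (3 ^ t) ^ 2 = 3 ^ a * 3 ^ c := by rw [← pow_add, ht, ← pow_mul]; congr 1; ring
    rw [mul_pow, e1, sq m, ← hm]; ring
  obtain ⟨u, hu⟩ : 3 ^ a ∣ m * 3 ^ t :=
    (Nat.pow_dvd_pow_iff two_ne_zero).1 ⟨_, e⟩
  refine ⟨u, ?_⟩
  rw [hu, mul_pow] at e
  have := Nat.eq_of_mul_eq_mul_left (by positivity) e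
  rw [← this, sq]

theorem card_SLIN {A ι : Type} [AddCommGroup A] [Fintype ι] (S T : Submodule ℤ A)
    (G : AddSubgroup (ι → A × A)) (h : ∀ x, x ∈ G ↔ ∀ q, (x q).1 ∈ S ∧ (x q).2 ∈ T) :
    Nat.card G = (Nat.card S * Nat.card T) ^ Fintype.card ι := by
  let E : G ≃ (ι → S × T) :=
    { toFun := fun x q => (⟨(x.1 q).1, ((h x.1).1 x.2 q).1⟩, ⟨(x.1 q).2, ((h x.1).1 x.2 q).2⟩)
      invFun := fun y => ⟨fun q => ((y q).1.1, (y q).2.1), (h _).2 fun q => ⟨(y q).1.2, (y q).2.2⟩⟩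
      left_inv := fun _ => rfl
      right_inv := fun _ => rfl }
  rw [Nat.card_congr E, Nat.card_fun, Nat.card_prod, Nat.card_eq_fintype_card (α := ι)]

theorem sub_SLIN {X : Type} [AddCommGroup X] {G H : AddSubgroup X} (h : G ≤ H) :
    Nat.card (G.addSubgroupOf H) = Nat.card G :=
  Nat.card_congr (AddSubgroup.addSubgroupOfEquivOfLe h).toEquiv

theorem odd_SLIN {z : Qb} {k : ℕ} (h1 : z * z = 1) (h2 : z ^ 3 ^ k = 1) : z = 1 := by
  obtain ⟨j, hj⟩ : Odd (3 ^ k) := Odd.pow (by decide)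
  rwa [hj, pow_succ, pow_mul, sq, h1, one_pow, one_mul] at h2

theorem LIN_pf (hLIN1 : LIN1_st) (hPAI : PAI_st) : LIN_st := by
  intro A _ J ι _ V ℓ c k e hV hk he hiso
  have hJ := hV.cm
  obtain ⟨-, p2, p3⟩ := hPAI A J k e hJ he hk
  have tr : ∀ {u : A}, u ∈ Wn J (2 * k) → u ∈ tor A (3 ^ k) := fun h => (W_tor hJ k).1 h
  have fz : ∀ x ∈ Wn J (2 * k), e x 0 = 1 :=
    fun x hx => p2 (2 * k) 0 (by omega) x hx _ (zero_mem _)
  have zf : ∀ z ∈ Wn J (2 * k), e 0 z = 1 :=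
    fun z hz => p2 0 (2 * k) (by omega) 0 (zero_mem _) _ hz
  have cH : ∀ m, Nat.card (Hm J ι m) = (3 ^ (m * Fintype.card ι)) ^ 2 := by
    intro m
    rw [card_SLIN (Wn J m) (Wn J m) _ fun _ => Iff.rfl, W_card hJ, mul_pow, ← pow_mul, sq]
  have cB : ∀ m, Nat.card ↥(B0 A ι ⊓ Hm J ι m) = 3 ^ (m * Fintype.card ι) := by
    intro m
    rw [card_SLIN (Wn J m) (Wn J 0) _ fun x => ?_, W_card hJ, W_card hJ, pow_zero, mul_one,
      ← pow_mul]
    constructor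
    · rintro ⟨h1, h2⟩ q
      exact ⟨(h2 q).1, W_zero.2 (h1 q)⟩
    · intro h
      exact ⟨fun q => W_zero.1 (h q).2, fun q => ⟨(h q).1, W_mono (Nat.zero_le _) (h q).2⟩⟩
  have : Finite (Hm J ι (2 * k)) := Nat.finite_of_card_ne_zero (by rw [cH]; positivity)
  let b : Hm J ι (2 * k) → Hm J ι (2 * k) → Qb := fun x y => ∏ q, e (x.1 q).1 (y.1 q).2
  have hb : Bil ⊤ (3 ^ k) b := by
    refine ⟨fun x _ x' _ y _ => ?_, fun x _ y _ y' _ => ?_, fun x _ y _ => ?_⟩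
    · rw [← prod_mul_distrib]
      exact prod_congr rfl fun q _ =>
        he.bil.addl _ (tr (x.2 q).1) _ (tr (x'.2 q).1) _ (tr (y.2 q).2)
    · rw [← prod_mul_distrib]
      exact prod_congr rfl fun q _ =>
        he.bil.addr _ (tr (x.2 q).1) _ (tr (y.2 q).2) _ (tr (y'.2 q).2)
    · rw [← prod_pow]
      exact prod_eq_one fun q _ => he.bil.pow _ (tr (x.2 q).1) _ (tr (y.2 q).2)
  have sing : ∀ (q : ι) (u v : A), u ∈ Wn J (2 * k) → v ∈ Wn J (2 * k) →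
      (Pi.single q (u, v) : ι → A × A) ∈ Hm J ι (2 * k) := by
    intro q u v hu hv q'
    by_cases hq : q' = q
    · subst hq; rw [Pi.single_eq_same]; exact ⟨hu, hv⟩
    · rw [Pi.single_eq_of_ne hq]; exact ⟨zero_mem _, zero_mem _⟩
  have hnd : ∀ x, (∀ y, b x y * b y x = 1) → x = 0 := by
    intro x hx
    have key : ∀ (q : ι) (u v : A), u ∈ Wn J (2 * k) → v ∈ Wn J (2 * k) →
        e (x.1 q).1 v * e u (x.1 q).2 = 1 := by
      intro q u v hu hv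
      have h := hx ⟨_, sing q u v hu hv⟩
      simp only [b] at h
      rw [Fintype.prod_eq_single q, Fintype.prod_eq_single q, Pi.single_eq_same] at h
      · exact h
      · intro q' hq
        rw [Pi.single_eq_of_ne hq]
        exact zf _ (x.2 q').2
      · intro q' hq
        rw [Pi.single_eq_of_ne hq]
        exact fz _ (x.2 q').1
    refine Subtype.ext (funext fun q => Prod.ext ?_ ?_)
    · refine he.nd _ (tr (x.2 q).1) fun u hu => ?_
      have hu' := (W_tor hJ k).2 hu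
      have h := key q 0 u (zero_mem _) hu'
      rw [zf _ (x.2 q).2, mul_one] at h
      have h3 := p3 _ (x.2 q).1 _ hu'
      rwa [h, one_mul] at h3
    · refine he.nd _ (tr (x.2 q).2) fun u hu => ?_
      have h := key q u 0 ((W_tor hJ k).2 hu) (zero_mem _)
      rwa [fz _ (x.2 q).1, one_mul] at h
  obtain ⟨t1, t2⟩ := R.TRI_ok _ (3 ^ k) b (by positivity) hb hnd
  have cA := sub_SLIN (hV.le 0 (2 * k))
  have iso : ∀ x ∈ (V 0 (2 * k)).addSubgroupOf (Hm J ι (2 * k)),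
      ∀ y ∈ (V 0 (2 * k)).addSubgroupOf (Hm J ι (2 * k)), b x y * b y x = 1 := by
    intro x hx y hy
    rw [← prod_mul_distrib]
    exact hiso _ (AddSubgroup.mem_addSubgroupOf.1 hx) _ (AddSubgroup.mem_addSubgroupOf.1 hy)
  have hle := t1 _ iso
  rw [cA, cH] at hle
  obtain ⟨l1, s, l2, l3⟩ := hLIN1 A J ι V ℓ c _ k hV le_rfl
    ((Nat.pow_le_pow_iff_left two_ne_zero).1 hle)
  have kle : Hm J ι k ≤ Hm J ι (2 * k) :=
    fun x hx q => ⟨W_mono (by omega) (hx q).1, W_mono (by omega) (hx q).2⟩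
  have cC : Nat.card ((Hm J ι k).addSubgroupOf (Hm J ι (2 * k)))
      = 3 ^ (2 * k * Fintype.card ι) := by
    rw [sub_SLIN kle, cH, ← pow_mul]; congr 1; ring
  have h := t2 ((V 0 (2 * k)).addSubgroupOf (Hm J ι (2 * k)))
    ((B0 A ι).addSubgroupOf (Hm J ι (2 * k))) ((Hm J ι k).addSubgroupOf (Hm J ι (2 * k)))
    (fun x hx => odd_SLIN (iso x hx x hx) (hb.pow x trivial x trivial))
    (fun x hx => prod_eq_one fun q _ => by
      rw [AddSubgroup.mem_addSubgroupOf.1 hx q]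
      exact fz _ (x.2 q).1)
    (fun x hx => prod_eq_one fun q _ =>
      p2 k k (by omega) _ (AddSubgroup.mem_addSubgroupOf.1 hx q).1 _
        (AddSubgroup.mem_addSubgroupOf.1 hx q).2)
    (by rw [cA, cH, l1])
    (by rw [← AddSubgroup.inf_addSubgroupOf_right, sub_SLIN inf_le_right, cB, cH])
    (by rw [cC, cH])
  have inf : ∀ G G' : AddSubgroup (ι → A × A),
      G.addSubgroupOf (Hm J ι (2 * k)) ⊓ G'.addSubgroupOf (Hm J ι (2 * k))
        = (G ⊓ G').addSubgroupOf (Hm J ι (2 * k)) := fun _ _ => rfl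
  rw [inf, inf, inf, cC, sub_SLIN (inf_le_left.trans (hV.le 0 (2 * k))),
    sub_SLIN (inf_le_left.trans (hV.le 0 (2 * k))), sub_SLIN (inf_le_right.trans kle), l2, cB] at h
  refine sq_SLIN (a := 2 * k * Fintype.card ι + s + k * Fintype.card ι) ?_ ?_
  · have e1 : 3 ^ (2 * k * Fintype.card ι + s + k * Fintype.card ι)
        * Nat.card ↥(V 0 (2 * k) ⊓ B0 A ι)
        = 3 ^ (2 * k * Fintype.card ι) * Nat.card ↥(V 0 (2 * k) ⊓ B0 A ι) * 3 ^ s
          * 3 ^ (k * Fintype.card ι) := by ring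
    rw [e1]; exact h
  · obtain ⟨t, ht⟩ := l3
    exact ⟨k * Fintype.card ι + t, by nlinarith⟩

end Pool.Agent.MP_e23604_nt.S

end

section

set_option autoImplicit false

open Module Filter Topology Finset
open scoped Classical

namespace Pool.Agent.MP_e23604_nt.S

open B R
open Q (Wn)

section

variable {A : Type} [AddCommGroup A] {J : A ≃ₗ[ℤ] A}

/-- relaxed Selmer cocycles that vanish at the tame generators are unramified -/
theorem inf_SPAR (hTAM : TAM_st) (hHOMQ : HOMQ_st) {η : Act A} {n K k l₀ : ℕ} {T : A} {b : Bool}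
    {ζ : Qb} {Q : Finset ℕ} {φ τ : ℕ → GQ} (hP : P1 J η n T b) (hQ : Qs J η n K ζ l₀ Q φ τ) :
    (Sq J η n Q (2 * k)).map (res Q φ τ) ⊓ B0 A Q = (Sq J η n ∅ (2 * k)).map (res Q φ τ) := by
  have hc := hP.cm
  refine le_antisymm ?_ (le_inf (AddSubgroup.map_mono (Sq_mono le_rfl (empty_subset Q))) ?_)
  · rintro _ ⟨⟨ξ, hξ, rfl⟩, h0⟩
    refine ⟨ξ, ⟨hξ.1, fun l _ γ h1 h2 _ => ?_, hξ.2.2⟩, rfl⟩
    by_cases hl : l ∈ Q
    · have hu : ∀ σ ∈ Ine l 1, ∀ u ∈ Wn J (2 * k), η σ u = u := fun σ hσ u hu =>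
        Ga.unr' hc hP.ga h1 h2 hσ hu
      refine unr_conj hξ.1 hu ?_ γ
      refine (hTAM l 1 h1).2.2 (τ l) (hQ.tq l hl).ine
        (hHOMQ K ζ l 1 (φ l) (τ l) A hQ.zeta (hQ.tq l hl)).2.2.1 A ξ k (fun g hg j _ => ?_)
        (hξ.1.lc.mono le_top) (fun u _ => (W_tor hc k).1 (hξ.1.lev u)) (h0 ⟨l, hl⟩)
      rw [hξ.1.coc, hu g hg _ (hξ.1.lev j)]
    · exact hξ.2.1 l γ h1 h2 hl
  · rintro _ ⟨ξ, hξ, rfl⟩ ⟨q, hq⟩
    obtain ⟨h1, h2, h3, -⟩ := hQ.pri q hq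
    have : Fact q.Prime := ⟨h1⟩
    exact hξ.2.1 q 1 (by omega) h3 (notMem_empty q) (τ q) (hQ.tq q hq).ine

/-- coboundaries of low level restrict to zero -/
theorem cb_SPAR {η : Act A} {n K m l₀ : ℕ} {T : A} {b : Bool}
    {ζ : Qb} {Q : Finset ℕ} {φ τ : ℕ → GQ} (hP : P1 J η n T b)
    (hQ : Qs J η n K ζ l₀ Q φ τ) (hm : m ≤ 2 * K) {ξ : GQ → A} (hξ : Zc J η m ξ)
    (hb : ξ ∈ Cb η) : res Q φ τ ξ = 0 := by
  have hc := hP.cm
  obtain ⟨R, ⟨i, hi⟩, rfl⟩ := hb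
  have : Fact l₀.Prime := ⟨Nat.prime_of_mem_primeFactors hQ.base⟩
  obtain ⟨σ, -, -, hσ⟩ := hP.ga.tam l₀ (Nat.dvd_of_mem_primeFactors hQ.base)
  have h1 : J R - R ∈ Wn J m := by
    have := hξ.lev σ
    rwa [dd, hσ (2 * i) R ((W_tor hc i).2 hi)] at this
  have h2 : R ∈ Wn J (2 * K + 1) := W_mono (by omega) (W_succ.1 h1)
  funext ⟨q, hq⟩
  have : Fact q.Prime := ⟨(hQ.pri q hq).1⟩
  exact Prod.ext (sub_eq_zero.2 (hQ.triv q hq _ (hQ.tq q hq).fr.1 R h2))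
    (sub_eq_zero.2 (hQ.triv q hq _ (Ine_le q 1 (hQ.tq q hq).ine) R h2))

/-- the alternating sequence of twists -/
noncomputable def et_SPAR (η : Act A) (j : ℕ) : Act A := if Even j then η else tw η

theorem tw_SPAR (η : Act A) (j : ℕ) : tw (et_SPAR η j) = et_SPAR η (j + 1) := by
  unfold et_SPAR
  by_cases h : Even j
  · rw [if_pos h, if_neg (Nat.even_add_one.not.2 (not_not.2 h))]
  · rw [if_neg h, if_pos (Nat.even_add_one.2 h), tw_tw]

end

theorem sq_SPAR {x y : ℕ} (hy : y ≠ 0) (h : IsSquare (x * y ^ 2)) : IsSquare x := by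
  obtain ⟨r, hr⟩ := h
  obtain ⟨s, rfl⟩ : y ∣ r :=
    (Nat.pow_dvd_pow_iff two_ne_zero).1 ⟨x, by rw [pow_two r, ← hr, mul_comm]⟩
  exact ⟨s, mul_right_cancel₀ (pow_ne_zero 2 hy) (by rw [hr]; ring)⟩

theorem PAR_pf (hQEX : QEX_st) (hLIN : LIN_st) (hLIFT : LIFT_st) (hLOW : LOW_st) (hISOT : ISOT_st)
    (hKER : KER_st) (hTAM : TAM_st) (hHOMQ : HOMQ_st) : PAR_st := by
  intro A _ J η n T a a' hP ha ha' hs k hk
  obtain ⟨ζ, l₀, Q, φ, τ, hQ⟩ := hQEX A J η n T true hP k hk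
  have hc := hP.cm
  obtain ⟨e, he⟩ := hP.wp k
  have hj : ∀ j, (∃ b, P1 J (et_SPAR η j) n T b) ∧ Qs J (et_SPAR η j) n k ζ l₀ Q φ τ := fun j => by
    unfold et_SPAR
    split_ifs
    exacts [⟨⟨_, hP⟩, hQ⟩, ⟨⟨_, hP.tw⟩, hQ.tw⟩]
  have hCh : Ch J (fun j m => (Sq J (et_SPAR η j) n Q m).map (res Q φ τ))
      (fun j => if Even j then 2 * d2 n + a else a' + 2) (d2 n + 2) (2 * k) := by
    refine ⟨hc, ?_, fun j m => AddSubgroup.map_mono (Sq_mono (by omega) subset_rfl),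
      ?_, ?_, fun j => ?_, fun j => ?_⟩
    · rintro j m _ ⟨ξ, hξ, rfl⟩ q
      exact ⟨hξ.1.lev _, hξ.1.lev _⟩
    · rintro j m _ ⟨ξ, hξ, rfl⟩
      obtain ⟨⟨b, h1⟩, -⟩ := hj j
      exact ⟨_, tw_SPAR η j ▸ Sq_wo hc h1.ga hξ, rfl⟩
    · rintro j m hm _ ⟨ξ', hξ', rfl⟩
      obtain ⟨⟨b, h1⟩, h2⟩ := hj j
      obtain ⟨ξ, h3, h4⟩ := hLIFT A J _ n T b h1 k ζ l₀ Q φ τ h2 m hm ξ'
        (by rw [tw_SPAR]; exact hξ')
      exact ⟨_, ⟨ξ, h3, rfl⟩, funext fun q => Prod.ext (h4 _) (h4 _)⟩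
    · rw [Fintype.card_coe]
      unfold et_SPAR
      split_ifs
      · exact hLOW A J η n T true hP k ζ l₀ Q φ τ hQ a ha
      · exact hLOW A J (tw η) n T false hP.tw k ζ l₀ Q φ τ hQ.tw a' ha'
    · by_cases h : Even j
      · rw [if_pos h, if_neg (Nat.even_add_one.not.2 (not_not.2 h))]
        omega
      · rw [if_neg h, if_pos (Nat.even_add_one.2 h)]
        omega
  have e0 : et_SPAR η 0 = η := if_pos Even.zero
  have key := hLIN A J Q _ _ _ k e hCh hk he.toPai (by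
    rw [e0]
    rintro _ ⟨x, hx, rfl⟩ _ ⟨y, hy, rfl⟩
    exact hISOT A J η n T true hP k ζ l₀ Q φ τ hQ e he x hx y hy)
  rw [e0, inf_SPAR hTAM hHOMQ hP hQ, ← AddSubgroup.relIndex_ker, if_pos Even.zero] at key
  have hE : (Cb η).addSubgroupOf (Sq J η n ∅ (2 * k)) =
      (res Q φ τ).ker.addSubgroupOf (Sq J η n ∅ (2 * k)) := by
    ext ⟨ξ, hξ⟩
    rw [AddSubgroup.mem_addSubgroupOf, AddSubgroup.mem_addSubgroupOf, AddMonoidHom.mem_ker]
    refine ⟨cb_SPAR hP hQ le_rfl hξ.1, fun h => ?_⟩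
    obtain ⟨R, h1, h2⟩ := hKER A J η n T true hP k ζ l₀ Q φ τ hQ (2 * k) le_rfl ξ
      (Sq_mono le_rfl (empty_subset Q) hξ) h
    exact ⟨R, ⟨_, W_kill hc h1⟩, h2⟩
  rw [Nk, AddSubgroup.relIndex, hE]
  refine sq_SPAR (y := 3 ^ (k * (d2 n + 1))) (by positivity) ?_
  rw [mul_assoc, ← pow_mul, ← pow_add,
    show k * (a + d2 n) + k * (d2 n + 1) * 2 = k * (2 * d2 n + a + (d2 n + 2)) by ring]
  exact key

end Pool.Agent.MP_e23604_nt.S

end

section

set_option autoImplicit false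

open Module Filter Topology Finset
open scoped Classical

namespace Pool.Agent.MP_e23604_nt.S

open B R
open Q (Wn)

section aux

variable {A : Type} [AddCommGroup A] {J : A ≃ₗ[ℤ] A}

theorem gen_SSURJ (h : Cm3 J) {b : A ≃ₗ[ℤ] A} (hb : ∀ u, b (J u) = J (b u)) (t : ℕ) :
    ∀ x ∈ Wn J (t + 1), x ∉ Wn J t → b x = x → ∀ u ∈ Wn J (t + 1), b u = u := by
  have key : ∀ t, ∀ x ∈ Wn J (t + 1), x ∉ Wn J t → b x = x → (∀ u ∈ Wn J t, b u = u) →
      ∀ u ∈ Wn J (t + 1), b u = u := by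
    intro t x h1 h2 h3 h4 u hu
    rcases W_three h h1 h2 hu with h5 | h5 | h5
    · exact h4 u h5
    · have h8 := h4 _ h5
      rwa [map_sub, h3, sub_left_inj] at h8
    · have h8 := h4 _ h5
      rwa [map_add, h3, add_left_inj] at h8
  induction t with
  | zero => exact fun x h1 h2 h3 => key 0 x h1 h2 h3 fun u hu => by rw [W_zero.1 hu, map_zero]
  | succ t ih =>
    intro x h1 h2 h3
    refine key _ x h1 h2 h3 (ih (wo J x) (W_om.2 h1) (fun e => h2 (W_om.1 e)) ?_)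
    rw [wo_apply, map_sub, hb (J x), hb, h3]

theorem onto_SSURJ (h : Cm3 J) {a : A ≃ₗ[ℤ] A} (ha : ∀ m, ∀ u ∈ Wn J m, a u ∈ Wn J m) {c : ℕ}
    (hc : ∀ m, ∀ x ∈ Wn J m, a x = x → x ∈ Wn J c) (k : ℕ) {x : A} (hx : x ∈ Wn J k) :
    ∃ R ∈ Wn J (k + 2 * c), a R - R = x := by
  obtain ⟨y, rfl⟩ := three_surj h c x
  have hy := (W_pow h c).1 hx
  generalize k + 2 * c = m at hy ⊢
  have := W_fin h m
  let f : Wn J m →+ Wn J m := AddMonoidHom.mk'
    (fun u => ⟨a u - u, sub_mem (ha m u u.2) u.2⟩) fun u v => Subtype.ext (by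
      simp only [Submodule.coe_add, map_add]
      abel)
  let g : f.ker →+ Wn J c := AddMonoidHom.mk'
    (fun u => ⟨u.1.1, hc m _ u.1.2 (sub_eq_zero.1 (congrArg Subtype.val u.2))⟩) fun _ _ => rfl
  have h1 := AddSubgroup.card_dvd_of_injective g fun u v e =>
    Subtype.ext (Subtype.ext (congrArg (fun z : Wn J c => (z : A)) e))
  rw [W_card h, ← AddSubgroup.index_range] at h1
  obtain ⟨j, hj⟩ := h1
  obtain ⟨R, hR⟩ := nsmul_mem (f.range.nsmul_index_mem ⟨y, hy⟩) j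
  refine ⟨R, R.2, (congrArg Subtype.val hR).trans ?_⟩
  rw [hj, mul_comm, mul_smul]
  rfl

end aux

theorem SURJ_pf (hPAI : PAI_st) : SURJ_st := by
  intro A _ J η n T b hP l hl φ h2 hφ k x hx
  have h0 := hP.cm
  have hl1 : l ^ 2 - 1 ≠ 0 := Nat.sub_ne_zero_of_lt (Nat.one_lt_pow two_ne_zero hl.out.one_lt)
  obtain ⟨j, d, hd, hj⟩ := Nat.exists_eq_pow_mul_and_not_dvd hl1 3 (by norm_num)
  refine ⟨_, onto_SSURJ h0 (fun m u => (W_act h0 hP.ga φ).2) (c := 2 * (j + 1)) (fun m => ?_) k hx⟩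
  have hb := hP.ga.lin (φ * φ) (by
    by_cases c : φ ∈ GK
    exacts [GK.mul_mem c c, GK_mul c c])
  induction m with
  | zero => exact fun x hx _ => W_mono (by omega) hx
  | succ m ih =>
    intro x hx h3
    by_cases h4 : x ∈ Wn J m
    · exact ih x h4 h3
    by_cases h5 : m + 1 ≤ 2 * (j + 1)
    · exact W_mono h5 hx
    exfalso
    have h6 := gen_SSURJ h0 hb m x hx h4 (by rw [R.act_mul, h3, h3])
    obtain ⟨e, he⟩ := hP.wp (j + 1)
    obtain ⟨v, h7, h8⟩ := W_ex h0 (2 * j + 1)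
    have hv : v ∈ tor A (3 ^ (j + 1)) := (W_tor h0 _).1 h7
    have hf : ∀ u ∈ tor A (3 ^ (j + 1)), η (φ * φ) u = u := fun u hu =>
      h6 u (W_mono (by omega) ((W_tor h0 _).2 hu))
    have h9 : (l ^ 2 - 1) • v = 0 := by
      refine he.nd _ (nsmul_mem hv _) fun u hu => ?_
      have e1 := right_FSURJ he.toPai hu hv (l ^ 2 - 1)
      have e2 := he.eqv (φ * φ) u hu v hv
      have e3 := he.bil.pow u hu v hv
      have e4 := ((R.FRO_ok l 1).2 φ hφ).2.2.1 _ _ (fun h => h2 ((Nat.prime_dvd_prime_iff_eq hl.out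
        Nat.prime_three).1 (hl.out.dvd_of_dvd_pow h))) e3
      have e5 : e u v ≠ 0 := fun h => by
        rw [h, zero_pow (by positivity)] at e3
        exact zero_ne_one e3
      rw [hf u hu, hf v hv, AlgEquiv.mul_apply, e4, map_pow, e4, ← pow_mul, ← pow_two,
        ← Nat.sub_add_cancel (Nat.one_le_pow 2 l hl.out.pos), pow_succ, mul_eq_right₀ e5] at e2
      rwa [he.alt u hu, mul_one, mul_one, e2] at e1
    have h10 : 3 ^ j • v = 0 := by
      rw [hj, mul_comm, mul_smul] at h9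
      have h11 := mem_tor.1 hv
      rw [pow_succ', mul_smul] at h11
      exact AddMonoid.addOrderOf_eq_one_iff.1 (Nat.eq_one_of_dvd_coprimes
        ((Nat.Prime.coprime_iff_not_dvd Nat.prime_three).2 hd)
        (addOrderOf_dvd_of_nsmul_eq_zero h11) (addOrderOf_dvd_of_nsmul_eq_zero h9))
    exact h8 (W_mono (by omega) ((W_tor h0 j).2 h10))

end Pool.Agent.MP_e23604_nt.S

end

section

set_option autoImplicit false

open Module Filter Topology Finset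
open scoped Classical

namespace Pool.Agent.MP_e23604_nt.S

open B R
open Q (Wn)

theorem UNR_pf (hSURJ : SURJ_st) : UNR_st := by
  intro A _ J η n T b hP m ξ l _ hξ h2 hn hI
  obtain ⟨⟨φ, hφ⟩, hF⟩ := R.FRO_ok l 1
  obtain ⟨k, R, hR, hφR⟩ := hSURJ A J η n T b hP l φ h2 hφ m (ξ φ) (hξ.lev φ)
  have hcoc : ∀ g h, ξ (g * h) - dd η R (g * h) = ξ g - dd η R g + η g (ξ h - dd η R h) := by
    intro g h
    rw [hξ.coc, dd_coc, map_sub]
    abel
  have hlc : Lc ⊤ fun g => ξ g - dd η R g := hξ.lc.map₂ (dd_lc hP.ga R) (· - ·)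
  obtain ⟨N, hN, hc⟩ := hlc
  have h1 : ∀ τ ∈ Ine l 1, ξ τ - dd η R τ = 0 := by
    intro τ hτ
    rw [hI τ hτ, dd, hP.ga.unr' hP.cm h2 hn hτ hR, sub_self, sub_self]
  have h3 : ξ φ - dd η R φ = 0 := by rw [dd, hφR, sub_self]
  have h4 : ∀ τ ∈ Ine l 1, ∀ i : ℕ, ξ (φ ^ i * τ) - dd η R (φ ^ i * τ) = 0 := by
    intro τ hτ i
    induction i with
    | zero => rw [pow_zero, one_mul]; exact h1 τ hτ
    | succ i ih => rw [pow_succ', mul_assoc, hcoc, ih, h3, map_zero, add_zero]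
  refine ⟨R, fun g hg => ?_⟩
  obtain ⟨i, τ, hτ, hm⟩ := (hF φ hφ).2.2.2.1 N hN g hg
  exact sub_eq_zero.1 ((hc _ trivial g trivial hm).symm.trans (h4 τ hτ i))

end Pool.Agent.MP_e23604_nt.S

end

section

set_option autoImplicit false

open Module Filter Topology Finset
open scoped Classical

namespace Pool.Agent.MP_e23604_nt.S

open B R
open Q (Wn)

theorem lin_SCOV {M : Type} [AddCommGroup M] [Module (ZMod 3) M] (Z L : Submodule (ZMod 3) M)
    (hZ : Z ≤ L) (h3 : ∀ a : Fin 3 → M, ∃ c : Fin 3 → ZMod 3, c ≠ 0 ∧ ∑ i, c i • a i ∈ Z)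
    {ℓ : ℕ} (a : Fin ℓ → M) (ha : ∀ i, a i ∈ L)
    (hi : ∀ c : Fin ℓ → ZMod 3, ∑ i, c i • a i ∈ Z → c = 0) :
    ∃ (N : ℕ) (f : M → Fin N), N * 3 ^ ℓ ≤ 9 ∧ ∀ x y, f x = f y → x - y ∈ L := by
  have : Fact (Nat.Prime 3) := ⟨Nat.prime_three⟩
  have hr : Module.rank (ZMod 3) (M ⧸ Z) ≤ (2 : ℕ) := by
    by_contra hc
    have h4 : ((3 : ℕ) : Cardinal) ≤ Module.rank (ZMod 3) (M ⧸ Z) := by
      have := Order.succ_le_of_lt (not_le.1 hc)
      rwa [← Cardinal.nat_succ] at this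
    obtain ⟨v, hv⟩ := (natCast_le_rank_iff).1 h4
    choose w hw using fun i => Z.mkQ_surjective (v i)
    obtain ⟨c, hc0, hc1⟩ := h3 w
    refine hc0 (funext (Fintype.linearIndependent_iff.1 hv c ?_))
    have := (Submodule.Quotient.mk_eq_zero Z).2 hc1
    rw [← Submodule.mkQ_apply, map_sum] at this
    simpa only [map_smul, hw] using this
  have : Module.Finite (ZMod 3) (M ⧸ Z) :=
    Module.rank_lt_aleph0_iff.1 (hr.trans_lt (Cardinal.natCast_lt_aleph0))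
  have hf : finrank (ZMod 3) (M ⧸ Z) ≤ 2 := finrank_le_of_rank_le hr
  have hl : ℓ ≤ finrank (ZMod 3) (L.map Z.mkQ) := by
    have : LinearIndependent (ZMod 3) fun i =>
        (⟨Z.mkQ (a i), Submodule.mem_map_of_mem (ha i)⟩ : L.map Z.mkQ) := by
      refine Fintype.linearIndependent_iff.2 fun c hc => congrFun (hi c ?_)
      have h5 := congrArg Subtype.val hc
      rw [← Submodule.Quotient.mk_eq_zero Z, ← Submodule.mkQ_apply, map_sum]
      simpa only [map_smul, Submodule.coe_sum, Submodule.coe_smul, Submodule.coe_zero] using h5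
    simpa using this.fintype_card_le_finrank
  have hq := Submodule.finrank_quotient_add_finrank (L.map Z.mkQ)
  let e := Submodule.quotientQuotientEquivQuotient Z L hZ
  have : Module.Finite (ZMod 3) (M ⧸ L) := Module.Finite.equiv e
  have : Finite (M ⧸ L) := Module.finite_of_finite (ZMod 3)
  refine ⟨Nat.card (M ⧸ L), fun x => Finite.equivFin _ (L.mkQ x), ?_, fun x y h => ?_⟩
  · rw [Module.natCard_eq_pow_finrank (K := ZMod 3), Nat.card_zmod, ← pow_add, ← e.finrank_eq]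
    exact Nat.pow_le_pow_right (by norm_num) (by omega : _ ≤ 2)
  · exact (Submodule.Quotient.eq L).1 ((Finite.equivFin _).injective h)

theorem COV_pf (hDIM : DIM_st) : COV_st := by
  intro A _ J η n T b hP ℓ ⟨a, ha, hi⟩
  have hT := hP.t0.1
  have key : ∀ x : GQ → ZMod 3, InL η (Dec (nv 3 1)) (chT x T) → Tl b (Dec (nv 3 1)) x := by
    rintro x ⟨R, hR⟩
    obtain ⟨y, h1, h2⟩ := ex_chT hP.cm hP.t0 hP.ty (H := Dec (nv 3 1)) (ξ := dd η R)
      ((dd_lc hP.ga R).mono le_top) (fun g _ j _ => dd_coc η R g j)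
      fun g hg => hR g hg ▸ chT_mem hT x g
    exact h1.congr fun g hg => val_inj hP.cm hP.t0 ((hR g hg).trans (h2 g hg).symm)
  let V : Submodule (ZMod 3) (GQ → ZMod 3) :=
    { carrier := {x | Tl b (Dec (nv 3 1)) x}
      zero_mem' := Tl.zero b _
      add_mem' := fun hx hy => Tl.add hx hy
      smul_mem' := fun c _ hx => Tl.mul hx c }
  let Z : Submodule (ZMod 3) (GQ → ZMod 3) :=
    { carrier := {x | Tv (Dec (nv 3 1)) x}
      zero_mem' := fun _ _ _ => rfl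
      add_mem' := fun {x y} hx hy g h1 h2 => by rw [Pi.add_apply, hx g h1 h2, hy g h1 h2, add_zero]
      smul_mem' := fun c x hx g h1 h2 => by rw [Pi.smul_apply, hx g h1 h2, smul_zero] }
  let L : Submodule (ZMod 3) (GQ → ZMod 3) :=
    { carrier := {x | InL η (Dec (nv 3 1)) (chT x T)}
      zero_mem' := InL_tv hP.cm hT hP.ty (Tl.zero b _).1 fun _ _ _ => rfl
      add_mem' := fun {x y} hx hy => by
        change InL η _ (chT (x + y) T)
        rw [chT_add hP.cm hT]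
        exact InL.add hx hy
      smul_mem' := fun c x hx => by
        change InL η _ (chT (c • x) T)
        rcases z3 c with rfl | rfl | rfl
        · rw [zero_smul]
          exact InL_tv hP.cm hT hP.ty (Tl.zero b _).1 fun _ _ _ => rfl
        · rwa [one_smul]
        · rw [show (2 : ZMod 3) = -1 from rfl, neg_one_smul, chT_neg hP.cm hT]
          exact InL.neg hx }
  have hs : ∀ (k : ℕ) (c : Fin k → ZMod 3) (x : Fin k → V),
      ∑ i, c i • x i ∈ Z.comap V.subtype ↔ Tv (Dec (nv 3 1)) fun g => ∑ i, c i * (x i).1 g := by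
    intro k c x
    have : (V.subtype (∑ i, c i • x i)) = fun g => ∑ i, c i * (x i).1 g := by
      funext g
      simp [Finset.sum_apply]
    rw [Submodule.mem_comap, this]
    rfl
  obtain ⟨N, f, h1, h2⟩ := lin_SCOV (Z.comap V.subtype) (L.comap V.subtype)
    (fun x hx => InL_tv hP.cm hT hP.ty x.2.1 hx)
    (fun x => by
      have : ∃ c : Fin 3 → ZMod 3, c ≠ 0 ∧
          ∀ g ∈ Dec (nv 3 1) ⊓ GK, ∑ i, c i * (x i).1 g = 0 := by
        cases b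
        · exact hDIM.1 _ fun i => ⟨tc_false.1 (x i).2.1, (x i).2.2⟩
        · exact hDIM.2 _ fun i => ⟨tc_true.1 (x i).2.1, (x i).2.2⟩
      obtain ⟨c, hc, hc'⟩ := this
      exact ⟨c, hc, (hs 3 c x).2 fun g e1 e2 => hc' g ⟨e1, e2⟩⟩)
    (fun i => (⟨a i, key _ (ha i)⟩ : V)) ha fun c hc => hi c ((hs ℓ c _).1 hc)
  refine ⟨N, fun x => if h : x ∈ V then f ⟨x, h⟩ else f 0, h1, fun x y hx hy e => ?_⟩
  have hx' : x ∈ V := hx
  have hy' : y ∈ V := hy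
  simp only [dif_pos hx', dif_pos hy'] at e
  exact h2 _ _ e

end Pool.Agent.MP_e23604_nt.S

end

section

set_option autoImplicit false

open Module Filter Topology Finset
open scoped Classical

namespace Pool.Agent.MP_e23604_nt.S

open B R
open Q (Wn)

theorem cube_STABM (hKUM : KUM_st) (n : ℤ) (hn : n % 9 = 8) :
    ∃ N : Qb, N ^ 3 = n ∧ Fix (Dec (nv 3 1)) N := by
  obtain ⟨k, hk⟩ : ∃ k : ℤ, -n = 1 + 9 * k := ⟨(-n - 1) / 9, by omega⟩
  have h1 : nv 3 1 3 < 1 := by simpa using nv_lt 3 1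
  have h0 : 0 < nv 3 1 3 := (nv 3 1).pos three_ne_zero
  have h2 : nv 3 1 (k : Qb) ≤ 1 := (nv_na 3 1).apply_intCast_le_one
  obtain ⟨s, hs, hf⟩ := hKUM.1 3 1 _ ((-n : ℤ) : Qb) le_rfl (fun g _ => map_intCast g _) (by
    rw [hk, show ((1 + 9 * k : ℤ) : Qb) - 1 = 3 ^ 2 * k by push_cast; ring,
      show (27 : Qb) = 3 ^ 3 by norm_num, map_mul, map_pow, map_pow]
    have h3 := (nv 3 1).nonneg (k : Qb)
    calc (nv 3 1 3 ^ 2 * nv 3 1 (k : Qb)) ^ 2 ≤ (nv 3 1 3 ^ 2 * 1) ^ 2 := by gcongr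
      _ = nv 3 1 3 ^ 4 := by ring
      _ < nv 3 1 3 ^ 3 := pow_lt_pow_right_of_lt_one₀ h0 h1 (by norm_num))
  refine ⟨-s, ?_, fun g hg => by rw [map_neg, hf g hg]⟩
  rw [Int.cast_neg] at hs
  linear_combination -hs

section

variable {A : Type} [AddCommGroup A] {η : Act A} {T : A} {D : ℕ} {F : Qb → Qb → A}

theorem rot_STABM (hF : Fer η T D F) {x y : Qb} (e : x ^ 3 + y ^ 3 = D) (k : ℕ) :
    F (w3 ^ k * x) ((w3 ^ 2) ^ k * y) = F x y + k • T := by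
  induction k with
  | zero => simp
  | succ k ih =>
    have h1 : (w3 ^ k) ^ 3 = 1 := by rw [pow_right_comm, w3_cube, one_pow]
    have h2 : ((w3 ^ 2) ^ k) ^ 3 = 1 := by
      rw [pow_right_comm, pow_right_comm w3, w3_cube, one_pow, one_pow]
    rw [pow_succ' w3 k, pow_succ' (w3 ^ 2) k, mul_assoc, mul_assoc,
      hF.rot _ _ (by rw [mul_pow, mul_pow, h1, h2, one_mul, one_mul, e]), ih, succ_nsmul,
      add_assoc]

theorem pt_STABM (hF : Fer η T D F) {m : ℤ} (hm : m ≠ 0) {N : Qb} (hN : Fix (Dec (nv 3 1)) N)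
    (e : (m : Qb) ^ 2 + N ^ 3 = D * m) : ∃ (x : Qb) (a : GQ → ZMod 3), x ^ 3 = m ∧
      InL η (Dec (nv 3 1)) (chT a T) ∧ ∀ g : GQ, g x = w3 ^ (a g).val * x := by
  obtain ⟨x, hx⟩ := IsAlgClosed.exists_pow_nat_eq (m : Qb) three_pos
  have hm' : (m : Qb) ≠ 0 := Int.cast_ne_zero.2 hm
  have h0 : x ≠ 0 := fun h => hm' (by rw [← hx, h, zero_pow three_ne_zero])
  have h1 : ∀ g : GQ, g x = w3 ^ (lg (g x / x)).val * x := fun g => by
    rw [pow_lg (by rw [div_pow, ← map_pow, hx, map_intCast, div_self hm']), div_mul_cancel₀ _ h0]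
  have h2 : x ^ 3 + (N / x) ^ 3 = D := by
    rw [div_pow, hx]
    field_simp
    linear_combination e
  refine ⟨x, fun g => lg (g x / x), hx, ⟨F x (N / x), fun g hg => ?_⟩, h1⟩
  have h3 : ∀ k : ℕ, g x = w3 ^ k * x → g (N / x) = (w3 ^ 2) ^ k * (N / x) := fun k hk => by
    have h4 : (w3 ^ 2) ^ k * w3 ^ k = 1 := by rw [← mul_pow, ← pow_succ, w3_cube, one_pow]
    rw [map_div₀, hN g hg, hk, div_eq_iff (mul_ne_zero (pow_ne_zero _ w3_ne_zero) h0)]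
    linear_combination -N * h4 - (w3 ^ 2) ^ k * w3 ^ k * div_mul_cancel₀ N h0
  have h4 := rot_STABM hF h2 (lg (g x / x)).val
  rw [← h1 g, ← h3 _ (h1 g), ← hF.gal g _ _ h2] at h4
  rw [R.dd, h4, add_sub_cancel_left, chT]

end

theorem ind_STABM (hNCU : NCU_st) {x y : Qb} {a b : GQ → ZMod 3} {c d : ZMod 3} {v : ℕ} {m n : ℤ}
    (hx : x ^ 3 = 3 ^ v * m) (hy : y ^ 3 = n) (hm : ¬ 3 ∣ m) (hn : ¬ 3 ∣ n)
    (ha : ∀ g : GQ, g x = w3 ^ (a g).val * x) (hb : ∀ g : GQ, g y = w3 ^ (b g).val * y)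
    (h : Tv (Dec (nv 3 1)) fun g => c * a g + d * b g) :
    3 ∣ v * c.val ∧ ((m ^ c.val * n ^ d.val) % 9 = 1 ∨ (m ^ c.val * n ^ d.val) % 9 = 8) := by
  refine hNCU.2 1 _ _ (x ^ c.val * y ^ d.val) (fun e => ?_) ?_ fun g hg => ?_
  · rcases Int.prime_three.dvd_or_dvd e with e | e
    exacts [hm (Int.prime_three.dvd_of_dvd_pow e), hn (Int.prime_three.dvd_of_dvd_pow e)]
  · rw [mul_pow, pow_right_comm x, pow_right_comm y, hx, hy]
    push_cast
    ring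
  · have e : c * a g + d * b g = 0 := h g hg.1 hg.2
    have e1 : (w3 ^ (a g).val) ^ c.val * (w3 ^ (b g).val) ^ d.val = 1 := by
      rw [pow_val_mul_INVQ w3_cube, pow_val_mul_INVQ w3_cube, ← w3_add, mul_comm (a g),
        mul_comm (b g), e, ZMod.val_zero, pow_zero]
    rw [map_mul, map_pow, map_pow, ha, hb, mul_pow, mul_pow]
    linear_combination x ^ c.val * y ^ d.val * e1

theorem TABM_pf (hKUM : KUM_st) (hNCU : NCU_st) : TABM_st := by
  intro A _ J η T D F _ _ hF hD h27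
  obtain ⟨x, a, hx, ha, ha'⟩ := pt_STABM hF (m := D) (by exact_mod_cast hD) (N := 0)
    (fun g _ => map_zero g) (by push_cast; ring)
  have two : ∀ m : ℤ, (m = 2 ∨ m = -2) → (D * m - m ^ 2) % 9 = 8 → D % 9 = 3 ∨ D % 9 = 6 →
      Ind η T 2 := fun m hm h8 h9 => by
    obtain ⟨N, hN, hN'⟩ := cube_STABM hKUM _ h8
    obtain ⟨y, b, hy, hb, hb'⟩ := pt_STABM hF (m := m) (by omega) hN' (by
      rw [hN]; push_cast; ring)
    obtain ⟨E, rfl⟩ : ∃ E, D = 3 * E := ⟨D / 3, by omega⟩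
    refine ⟨![a, b], Fin.forall_fin_two.2 ⟨ha, hb⟩, fun c hc => ?_⟩
    obtain ⟨h1, h2⟩ := ind_STABM hNCU (c := c 0) (d := c 1) (v := 1) (m := E)
      (by rw [hx]; push_cast; ring) hy (by omega) (by omega) ha' hb' (by
        simpa [Fin.sum_univ_two] using hc)
    have h3 : c 0 = 0 := by
      have := ZMod.val_lt (c 0)
      rw [← ZMod.val_eq_zero]
      omega
    rw [h3, ZMod.val_zero, pow_zero, one_mul] at h2
    have h4 : c 1 = 0 := by
      rcases z3 (c 1) with e | e | e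
      · exact e
      all_goals
        rw [e] at h2
        rcases hm with rfl | rfl <;> exact absurd h2 (by decide)
    exact funext (Fin.forall_fin_two.2 ⟨h3, h4⟩)
  have one : ∀ (v : ℕ) (E : ℤ), (D : ℤ) = 3 ^ v * E → ¬ 3 ∣ E → (∀ c : ZMod 3, 3 ∣ v * c.val →
      (E ^ c.val % 9 = 1 ∨ E ^ c.val % 9 = 8) → c = 0) → Ind η T 1 := fun v E hE h3 h => by
    refine ⟨fun _ => a, fun _ => ha, fun c hc => ?_⟩
    obtain ⟨h1, h2⟩ := ind_STABM hNCU (c := c 0) (d := 0) (v := v) (m := E) (y := 1) (n := 1)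
      (b := fun _ => 0) (by rw [hx, hE]; push_cast; ring) (by simp) h3 (by omega) ha'
      (fun g => by simp) (by simpa using hc)
    rw [one_pow, mul_one] at h2
    exact funext (Fin.forall_fin_one.2 (h _ h1 h2))
  unfold aM
  split_ifs with h1 h2
  · exact ⟨Fin.elim0, fun i => i.elim0, fun c _ => funext fun i => i.elim0⟩
  · rcases h2 with e | e
    · exact two (-2) (Or.inr rfl) (by omega) (Or.inl e)
    · exact two 2 (Or.inl rfl) (by omega) (Or.inr e)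
  · by_cases h9 : D % 9 = 0
    · obtain ⟨E, rfl⟩ : ∃ E, D = 9 * E := ⟨D / 9, by omega⟩
      refine one 2 E (by push_cast; ring) (by omega) fun c hc _ => ?_
      have := ZMod.val_lt c
      rw [← ZMod.val_eq_zero]
      omega
    · refine one 0 D (by ring) (by omega) fun c _ hc => ?_
      rcases z3 c with e | e | e
      · exact e
      · rw [e, ZMod.val_one, pow_one] at hc
        omega
      · rw [e, show (2 : ZMod 3).val = 2 from rfl, sq, Int.mul_emod] at hc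
        have : (D : ℤ) % 9 = 2 ∨ (D : ℤ) % 9 = 4 ∨ (D : ℤ) % 9 = 5 ∨ (D : ℤ) % 9 = 7 := by omega
        rcases this with e | e | e | e <;> rw [e] at hc <;> omega

end Pool.Agent.MP_e23604_nt.S

end

section

set_option autoImplicit false

open Module Filter Topology Finset
open scoped Classical

namespace Pool.Agent.MP_e23604_nt.S

open B R
open Q (Wn)

theorem rot_SZPT {A : Type} [AddCommGroup A] {η : Act A} {T : A} {D : ℕ} {F : Qb → Qb → A}
    (h : Fer η T D F) {x y : Qb} (e : x ^ 3 + y ^ 3 = D) (i : ℕ) :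
    F (w3 ^ i * x) ((w3 ^ 2) ^ i * y) = F x y + i • T := by
  induction i with
  | zero => simp
  | succ i ih =>
    have h1 : (w3 ^ i) ^ 3 = 1 := by rw [← pow_mul, mul_comm, pow_mul, w3_cube, one_pow]
    have h2 : ((w3 ^ 2) ^ i) ^ 3 = 1 := by rw [pow_right_comm w3 2 i, pow_right_comm, h1, one_pow]
    rw [pow_succ' w3 i, pow_succ' (w3 ^ 2) i, mul_assoc, mul_assoc,
      h.rot _ _ (by rw [mul_pow, mul_pow, h1, h2, one_mul, one_mul, e]), ih, succ_nsmul, add_assoc]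

theorem pair_SZPT {u v u' v' : Qb} (hu : u ≠ 0) (h3 : u' ^ 3 = u ^ 3) (hm : u' * v' = u * v) :
    u' = w3 ^ (lg (u' / u)).val * u ∧ v' = (w3 ^ 2) ^ (lg (u' / u)).val * v := by
  have h1 : u' = w3 ^ (lg (u' / u)).val * u := by
    rw [pow_lg (by rw [div_pow, h3, div_self (pow_ne_zero 3 hu)]), div_mul_cancel₀ _ hu]
  refine ⟨h1, ?_⟩
  generalize (lg (u' / u)).val = i at h1 ⊢
  have h2 : (w3 ^ 2) ^ i * w3 ^ i = 1 := by rw [← mul_pow, ← pow_succ, w3_cube, one_pow]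
  refine mul_left_cancel₀ hu ?_
  rw [h1] at hm
  linear_combination (w3 ^ 2) ^ i * hm - u * v' * h2

theorem ZPT_pf : ZPT_st := by
  intro A _ J η T D F hJ hT hF _ s N hs hN N0 e
  obtain ⟨x, hx⟩ := IsAlgClosed.exists_pow_nat_eq ((D + s * (w3 - w3 ^ 2)) / 2 : Qb) three_pos
  have hp : (w3 - w3 ^ 2) ^ 2 = -3 := by
    linear_combination (w3 - 2) * w3_cube + w3_spec
  have h1 : x ^ 3 * ((D - s * (w3 - w3 ^ 2)) / 2) = N ^ 3 := by
    rw [hx]
    linear_combination e / 4 - s ^ 2 / 4 * hp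
  have x0 : x ≠ 0 := by
    rintro rfl
    exact pow_ne_zero 3 N0 (by rw [← h1]; simp)
  obtain ⟨y, hxy⟩ : ∃ y, x * y = N := ⟨N / x, mul_div_cancel₀ _ x0⟩
  have y0 : y ≠ 0 := right_ne_zero_of_mul (hxy ▸ N0)
  have hy : y ^ 3 = (D - s * (w3 - w3 ^ 2)) / 2 :=
    mul_left_cancel₀ (pow_ne_zero 3 x0) (by rw [h1, ← mul_pow, hxy])
  have hD : x ^ 3 + y ^ 3 = D := by linear_combination hx + hy
  have hm : ∀ g ∈ Dec (nv 3 1), g x * g y = x * y := fun g hg => by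
    rw [← map_mul, hxy, hN g hg]
  have hg3 : ∀ g ∈ Dec (nv 3 1), g x ^ 3 = (D + s * (g w3 - g w3 ^ 2)) / 2 := fun g hg => by
    rw [← map_pow, hx, map_div₀, map_add, map_mul, map_sub, map_pow, map_natCast, hs g hg,
      map_ofNat]
  have k1 : ∀ g ∈ Dec (nv 3 1), g ∈ GK → g x = w3 ^ (lg (g x / x)).val * x ∧
      g y = (w3 ^ 2) ^ (lg (g x / x)).val * y := fun g hg hk =>
    pair_SZPT x0 (by rw [hg3 g hg, mem_GK'.1 hk, hx]) (hm g hg)
  have k2 : ∀ g ∈ Dec (nv 3 1), g ∉ GK → g x = w3 ^ (lg (g x / y)).val * y ∧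
      g y = (w3 ^ 2) ^ (lg (g x / y)).val * x := fun g hg hk =>
    pair_SZPT y0 (by
      rw [hg3 g hg, not_mem_GK hk, hy]
      linear_combination -s * w3 / 2 * w3_cube) ((hm g hg).trans (mul_comm x y))
  refine ⟨fun g => if g ∈ GK then lg (g x / x) else -lg (g x / y), y / x,
    ⟨F x y, fun g hg => ?_⟩, div_ne_zero y0 x0, ?_, fun g hg hk => ?_⟩
  · by_cases hk : g ∈ GK
    · have h2 := rot_SZPT hF hD (lg (g x / x)).val
      rw [← (k1 g hg hk).1, ← (k1 g hg hk).2] at h2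
      simp only [chT, dd, if_pos hk]
      rw [tw_pos _ hk, hF.gal g x y hD, h2, add_sub_cancel_left]
    · have h2 := rot_SZPT hF ((add_comm _ _).trans hD) (lg (g x / y)).val
      rw [← (k2 g hg hk).1, ← (k2 g hg hk).2, hF.neg x y hD] at h2
      simp only [chT, dd, if_neg hk]
      rw [tw_neg _ hk, hF.gal g x y hD, h2, val_neg hJ hT.1]
      abel
  · rw [div_pow, div_mul_eq_mul_div, div_eq_iff (pow_ne_zero 3 x0), hx, hy]
    ring
  · obtain ⟨h2, h3⟩ := k1 g hg hk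
    simp only [if_pos hk]
    rw [map_div₀]
    generalize (lg (g x / x)).val = i at h2 h3 ⊢
    rw [h2, h3, pow_right_comm, sq]
    have := pow_ne_zero i w3_ne_zero
    field_simp

end Pool.Agent.MP_e23604_nt.S

end

section

set_option autoImplicit false

open Module Filter Topology Finset
open scoped Classical

namespace Pool.Agent.MP_e23604_nt.S

open B R
open Q (Wn)

section abstract

variable {M : Type} [AddCommGroup M]

theorem two_SWEIL (k : ℕ) {x : M} (hx : 3 ^ k • x = 0) (h0 : x ≠ 0) :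
    ∃ j : ℕ, j • x ≠ 0 ∧ 3 • j • x = 0 := by
  induction k with
  | zero => exact absurd (by simpa using hx) h0
  | succ k ih =>
    by_cases h : 3 ^ k • x = 0
    · exact ih h
    · exact ⟨3 ^ k, h, by rw [← mul_smul, ← pow_succ', hx]⟩

theorem half_SWEIL (hd : ∀ P : M, ∃ P' : M, 3 • P' = P) (k : ℕ) (P : M) :
    ∃ Q : M, 3 ^ k • Q = P := by
  induction k with
  | zero => exact ⟨P, by simp⟩
  | succ k ih =>
    obtain ⟨Q, rfl⟩ := ih
    obtain ⟨Q', rfl⟩ := hd Q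
    exact ⟨Q', by rw [pow_succ, mul_smul]⟩

theorem cyc_SWEIL {k : ℕ} {T Q : M} (hQ : addOrderOf Q = 3 ^ (k + 1))
    (hT : T ∈ AddSubgroup.zmultiples Q) (h2 : 3 • T = 0) :
    T = 0 ∨ T = 3 ^ k • Q ∨ T = -(3 ^ k • Q) := by
  obtain ⟨m, rfl⟩ := AddSubgroup.mem_zmultiples_iff.1 hT
  have h3 : (3 * m) • Q = 0 := by
    rw [mul_smul]
    exact_mod_cast h2
  have h4 := addOrderOf_dvd_iff_zsmul_eq_zero.2 h3
  rw [hQ, pow_succ'] at h4
  push_cast at h4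
  obtain ⟨r, rfl⟩ := (mul_dvd_mul_iff_left (three_ne_zero : (3 : ℤ) ≠ 0)).1 h4
  have h5 : ((3 : ℤ) ^ k) • Q = 3 ^ k • Q := by exact_mod_cast natCast_zsmul Q (3 ^ k)
  have h6 : (3 : ℤ) • (3 ^ k • Q) = 0 := by
    have := addOrderOf_nsmul_eq_zero Q
    rw [hQ, pow_succ', mul_smul] at this
    exact_mod_cast this
  rw [mul_comm, mul_smul, h5]
  obtain ⟨t, ht⟩ : ∃ t : ℤ, r = t * 3 ∨ r = t * 3 + 1 ∨ r = t * 3 - 1 :=
    ⟨(r + 1) / 3, by omega⟩
  rcases ht with rfl | rfl | rfl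
  · left
    rw [mul_smul, h6, smul_zero]
  · right
    left
    rw [add_smul, mul_smul, h6, smul_zero, zero_add, one_smul]
  · right
    right
    rw [sub_smul, mul_smul, h6, smul_zero, zero_sub, one_smul]

end abstract

theorem WEIL_pf : WEIL_st := by
  intro A _ F _ _ η τ g o O hd K hd3 hT' hfin
  have hf : ∀ T : A, ∃ f : F, 3 ^ K • T = 0 → f ≠ 0 ∧ ∀ Q,
      o Q f = (if Q = -T then ((3 ^ K : ℕ) : ℤ) else 0) -
        if Q = 0 then ((3 ^ K : ℕ) : ℤ) else 0 := by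
    intro T
    obtain ⟨f, h0, hf⟩ := R.FNX_pf A F η τ g o O hd (3 ^ K) (-T)
    refine ⟨f, fun hT => ⟨h0, fun Q => ?_⟩⟩
    rw [hf, neg_nsmul, hT, neg_zero]
    split_ifs <;> ring
  choose f hf using hf
  have H : L.Ab_Weil Qb (3 ^ K) τ o f := ⟨O.tadd, O.tc, O.omul, O.ot, O.oc, O.cst, O.deg,
    fun T hT => (hf T hT).1, fun T hT => (hf T hT).2⟩
  obtain ⟨c, hc⟩ := L.c_ex_Weil H
  have hne : ∀ S T, 3 ^ K • S = 0 → 3 ^ K • T = 0 → c S T / c T S ≠ 0 := fun S T hS hT =>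
    div_ne_zero (hc S T hS hT).1 (hc T S hT hS).1
  refine ⟨fun S T => c S T / c T S, ⟨⟨fun S hS S' hS' T hT => L.addl_Weil H hc hS hS' hT,
    fun S hS T hT T' hT' => ?_, fun S hS T hT => ?_⟩, fun T hT => div_self (hc T T hT hT).1,
    fun x hx h1 => ?_⟩, fun S T u u' hu hu' hS hT => ?_, fun σ S hS T hT => ?_⟩
  · have := congrArg (fun x => x⁻¹) (L.addl_Weil H hc hT hT' hS)
    simpa only [mul_inv, inv_div] using this
  · have h0 : c 0 T / c T 0 = 1 := by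
      have := L.addl_Weil H hc (nsmul_zero _) (nsmul_zero _) hT
      rw [add_zero] at this
      exact (mul_eq_left₀ (hne 0 T (nsmul_zero _) hT)).1 this.symm
    have key : ∀ j : ℕ, (c S T / c T S) ^ j = c (j • S) T / c T (j • S) := by
      intro j
      induction j with
      | zero => rw [pow_zero, zero_smul, h0]
      | succ j ih =>
        rw [pow_succ, ih, succ_nsmul, L.addl_Weil H hc (mem_tor.1 (nsmul_mem hS j)) hS hT]
    show (c S T / c T S) ^ 3 ^ K = 1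
    rw [key, mem_tor.1 hS, h0]
  · by_contra hx0
    obtain ⟨j, hj0, hj2⟩ := two_SWEIL K (mem_tor.1 hx) hx0
    obtain ⟨T', h2, h0, hne', hne''⟩ := hT' (j • x)
    cases K with
    | zero => exact hx0 (by simpa using mem_tor.1 hx)
    | succ k =>
      obtain ⟨Q, rfl⟩ := half_SWEIL hd3 k T'
      have hQ2 : 3 ^ (k + 1) • Q = 0 := by rw [pow_succ', mul_smul, h2]
      have hQ : addOrderOf Q = 3 ^ (k + 1) := addOrderOf_eq_prime_pow h0 hQ2
      have h3 := nd_EWEIL H hc (by positivity) hfin (mem_tor.1 hx) hQ (h1 Q hQ2)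
      rcases cyc_SWEIL hQ (nsmul_mem h3 j) hj2 with e | e | e
      · exact hj0 e
      · exact hne' e.symm
      · exact hne'' (by rw [e, neg_neg])
  · obtain ⟨a, -, rfl⟩ := L.same_Weil H hu.1 (hf S hS).1 fun Q => by rw [hu.2, (hf S hS).2]
    obtain ⟨b, -, rfl⟩ := L.same_Weil H hu'.1 (hf T hT).1 fun Q => by rw [hu'.2, (hf T hT).2]
    have n1 : algebraMap Qb F (c T S) ≠ 0 := (map_ne_zero _).2 (hc T S hT hS).1
    rw [map_mul, map_mul, O.tc, O.tc, mul_mul_mul_comm, (hc S T hS hT).2,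
      mul_mul_mul_comm _ (f T), (hc T S hT hS).2, add_comm T S, map_div₀]
    field_simp
  · refine L.eqv_Weil H hc (σ : Qb →+* Qb) (η σ).toAddEquiv.toAddMonoidHom (η σ).bijective (g σ)
      (O.gc σ) (O.gt σ) (O.og σ) hS hT

end Pool.Agent.MP_e23604_nt.S

end

section

set_option autoImplicit false

open Module Filter Topology Finset
open scoped Classical

namespace Pool.Agent.MP_e23604_nt.S

open B R
open Q (Wn)

theorem four_SWP {A : Type} [AddCommGroup A] {J : A ≃ₗ[ℤ] A} (h : Cm3 J) (T : A) :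
    ∃ T' : A, 3 • T' = 0 ∧ T' ≠ 0 ∧ T' ≠ T ∧ T' ≠ -T := by
  by_contra hn
  have h1 : (Wn J 2 : Set A) ⊆ {0, T, -T} := fun u hu => by
    have h2 : 3 ^ 1 • u = 0 := (W_tor h 1).1 hu
    by_contra h3
    exact hn ⟨u, h2, fun e => h3 (Or.inl e), fun e => h3 (Or.inr (Or.inl e)),
      fun e => h3 (Or.inr (Or.inr e))⟩
  have h4 := (Set.ncard_le_ncard h1).trans (Set.ncard_insert_le 0 {T, -T})
  have h6 := Set.ncard_insert_le T {-T}
  have h5 : (Wn J 2 : Set A).ncard = 3 ^ 2 := W_card h 2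
  rw [Set.ncard_singleton] at h6
  omega

theorem fin_SWP {A : Type} [AddCommGroup A] {J : A ≃ₗ[ℤ] A} (h : Cm3 J) (K : ℕ) :
    Finite (tor A (3 ^ K)) := by
  have := W_fin h (2 * K)
  exact Finite.of_injective (fun u : tor A (3 ^ K) => (⟨u.1, (W_tor h K).2 u.2⟩ : Wn J (2 * K)))
    fun u v e => Subtype.ext (Subtype.mk.inj e)

theorem WP_pf (hWEIL : WEIL_st) : WP_st := by
  intro A _ J η W ψ hW cm opn hψ K
  obtain ⟨F, _, _, τ, g, o, hth⟩ := gen_ETH W η ψ hψ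
  have ell : (W.baseChange Qb).IsElliptic := inferInstanceAs (W.map _).IsElliptic
  have hv : ∀ P : A, ∃ P' : A, 2 • P' = P := fun P => by
    obtain ⟨S, hS⟩ : ∃ S : Pts W Qb, 2 • S = ψ P :=
      B.smul_surj (W := W.baseChange Qb) two_pos (ψ P)
    exact ⟨ψ.symm S, by rw [← map_nsmul, hS, ψ.symm_apply_apply]⟩
  obtain ⟨e, p1, p2, p3⟩ := hWEIL A F η τ g o hth hv K (three_surj cm 1) (four_SWP cm)
    (fin_SWP cm K)
  exact ⟨e, p1, p3, R.ISO_pf R.FNX_pf A F η τ g o hth hv _ e opn p2⟩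

end Pool.Agent.MP_e23604_nt.S

end

section

set_option autoImplicit false

open Module Filter Topology Finset
open scoped Classical

namespace Pool.Agent.MP_e23604_nt.S

open B R
open Q (Wn)

/-- a finitely generated group whose elements are divisible up to torsion is finite -/
theorem fin_SRED {M : Type} [AddCommGroup M] (hM : AddGroup.FG M) (k₁ : ℕ)
    (h : ∀ (T : M) (k : ℕ), ∃ (P : M) (j : ℕ), 3 ^ j • 3 ^ k₁ • T = 3 ^ j • 3 ^ k • P) :
    Finite M := by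
  have hf : Module.Finite ℤ M := Module.Finite.iff_addGroup_fg.2 hM
  have h0 : ∀ (φ : M →ₗ[ℤ] ℤ) (T : M), φ T = 0 := by
    intro φ T
    have h1 : ∀ k : ℕ, (3 : ℤ) ^ k ∣ 3 ^ k₁ * φ T := fun k => by
      obtain ⟨P, j, e⟩ := h T k
      have e' := congrArg φ e
      simp only [map_nsmul, nsmul_eq_mul, Nat.cast_pow, Nat.cast_ofNat] at e'
      exact ⟨φ P, mul_left_cancel₀ (pow_ne_zero j three_ne_zero) e'⟩
    have h2 : 3 ^ k₁ * φ T = 0 := by
      refine Int.eq_zero_of_dvd_of_natAbs_lt_natAbs (h1 (3 ^ k₁ * φ T).natAbs) ?_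
      rw [Int.natAbs_pow]
      exact Nat.lt_pow_self (by norm_num)
    exact (mul_eq_zero.1 h2).resolve_left (pow_ne_zero _ three_ne_zero)
  refine Module.finite_of_fg_torsion M fun T => ?_
  have h3 : (Submodule.torsion ℤ M).mkQ T = 0 := by
    let b := Module.Free.chooseBasis ℤ (M ⧸ Submodule.torsion ℤ M)
    exact b.ext_elem fun i => by
      rw [map_zero]
      exact h0 (b.coord i ∘ₗ (Submodule.torsion ℤ M).mkQ) T
  exact (Submodule.Quotient.mk_eq_zero _).1 h3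

/-- change of the model -/
theorem fg_SRED {W W' : WeierstrassCurve ℚ} (e : W = W') (d d' : DecidableEq ℚ)
    (h : letI := d; AddGroup.FG W.toAffine.Point) : letI := d'; AddGroup.FG W'.toAffine.Point := by
  subst e
  cases Subsingleton.elim d d'
  exact h

attribute [local instance 2000] decQ

theorem RED_pf (hSEL : SEL_st) (hFXP : FXP_st) : RED_st := by
  intro A _ J η n T b hP c ψ hc hψ hB hC hF
  have ell := EK_ell hc
  obtain ⟨k₁, hk₁⟩ := hB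
  have hk : ∀ k ξ, Sel3 (EK c) k ξ → ∃ (U : Pts (EK c) Qb) (j : ℕ), 3 ^ j • U = 0 ∧
      ∀ g, 3 ^ k₁ • ξ g = galQ (EK c) g U - U := fun k ξ hξ => by
    obtain ⟨U, ⟨j, hj⟩, e⟩ := hk₁ k _ (hSEL A J η n T b hP c ψ hc hψ k ξ hξ)
    refine ⟨ψ U, j, by rw [← map_nsmul, hj, map_zero], fun g => ?_⟩
    have e' : 3 ^ k₁ • ψ.symm (ξ g) = η g U - U := congrFun e g
    rw [← hψ, ← map_sub, ← e', map_nsmul, AddEquiv.apply_symm_apply]
  have e0 : EK c = (EK c).baseChange ℚ := by ext <;> simp [WeierstrassCurve.baseChange]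
  constructor
  · have h1 : Finite (Pts (EK c) ℚ) := by
      refine fin_SRED (fg_SRED e0 _ decQ hF) k₁ fun P k => ?_
      have ell' : ((EK c).baseChange Qb).IsElliptic := inferInstanceAs ((EK c).map _).IsElliptic
      obtain ⟨κ, hκ⟩ := smul_surj (W := (EK c).baseChange Qb) (pow_pos three_pos k)
        (rp (EK c) Qb P)
      obtain ⟨U, j, hU, e⟩ := hk k (fun g => galQ (EK c) g κ - κ) ⟨BSel_dd_mem _ κ, fun g => by
        rw [nsmul_sub, ← map_nsmul, hκ, galQ, act_rp, sub_self], fun q _ => BSel_dd_loc _ κ _⟩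
      have hfx : ∀ σ : GQ, galQ (EK c) σ (3 ^ k₁ • κ - U) = 3 ^ k₁ • κ - U := fun σ => by
        have := e σ
        simp only [map_sub, map_nsmul, nsmul_sub] at this ⊢
        linear_combination (norm := abel) this
      obtain ⟨P₀, hP⟩ := hFXP (EK c) ℚ (3 ^ k₁ • κ - U) hfx
      have hP' : rp (EK c) Qb P₀ = 3 ^ k₁ • κ - U := by
        rw [← hP, rp, Subsingleton.elim (Rat.castHom Qb) (algebraMap ℚ Qb)]
        rfl
      refine ⟨P₀, j, act_inj (EK c) (Rat.castHom Qb) ?_⟩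
      change rp (EK c) Qb _ = rp (EK c) Qb _
      rw [map_nsmul, map_nsmul, map_nsmul, map_nsmul, hP', ← hκ, nsmul_sub, nsmul_sub,
        smul_comm (3 ^ j) (3 ^ k) U, hU, smul_zero, sub_zero, smul_comm (3 ^ k₁)]
    rw [e0]
    exact h1
  · obtain ⟨C, hC⟩ := hC
    have h1 : (shaTors (EK c) (3 ^ k₁)).Finite := by
      rw [← Set.encard_ne_top_iff]
      intro e
      have h2 := hC k₁
      rw [Cn, e, ENat.top_mul (pow_ne_zero _ three_ne_zero), top_le_iff] at h2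
      exact ENat.natCast_ne_top (C * 3 ^ k₁) (by exact_mod_cast h2)
    refine h1.subset ?_
    rintro x ⟨hx1, k, hx2⟩
    refine ⟨hx1, ?_⟩
    obtain ⟨ξ, rfl, r2, r3⟩ := sha_rep (EK c) (pow_pos three_pos k) hx1 hx2
    obtain ⟨U, -, -, e⟩ := hk k ξ.1 ⟨ξ.2, r2, r3⟩
    refine (QuotientAddGroup.eq_zero_iff (3 ^ k₁ • ξ)).2 ⟨U, ?_⟩
    rintro g _ rfl
    exact e g

end Pool.Agent.MP_e23604_nt.S

end

section

set_option autoImplicit false

open Module Filter Topology Finset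
open scoped Classical

namespace Pool.Agent.MP_e23604_nt.S

open B R
open Q (Wn)

attribute [local instance 2000] decQ

theorem br_SFG {W : WeierstrassCurve ℚ} (hW : W.IsElliptic)
    (h : (nsmulAddMonoidHom (α := Pts W ℚ) 3).range.FiniteIndex) : Fg3 W := by
  have e : W.baseChange ℚ = W := by ext <;> simp [WeierstrassCurve.baseChange]
  have h1 : (W.baseChange ℚ).IsElliptic := e.symm ▸ hW
  have h2 : Fg3 (W.baseChange ℚ) := by
    unfold Fg3
    rw [Subsingleton.elim instDecidableEqRat decQ]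
    exact @fg_of_three decQ _ h1 h
  exact e ▸ h2

theorem FG_pf (hFSQ : FSQ_st) (hSEL : SEL_st) (hFXP : FXP_st) : FG_st := by
  intro A _ J η n T b h c ψ hc hψ
  have hf := hFSQ A J η n T b h 2
  have hk : ∀ P : Pts (EK c) ℚ, ∃ κ : Pts (EK c) Qb, 3 • κ = rp (EK c) Qb P := fun P => by
    obtain ⟨v, hv⟩ := three_surj h.cm 1 (ψ.symm (rp (EK c) Qb P))
    exact ⟨ψ v, by rw [← map_nsmul, ← pow_one 3, hv, ψ.apply_symm_apply]⟩
  choose κ hκ using hk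
  have hs : ∀ P, (fun g => ψ.symm (galQ (EK c) g (κ P) - κ P)) ∈ Sq J η n ∅ 2 := fun P =>
    hSEL A J η n T b h c ψ hc hψ 1 (fun g => galQ (EK c) g (κ P) - κ P)
      ⟨BSel_dd_mem _ _, fun g => by
        rw [pow_one, nsmul_sub, ← map_nsmul, hκ, galQ, act_rp, sub_self],
        fun q _ => BSel_dd_loc _ _ _⟩
  have hq : Finite (Pts (EK c) ℚ ⧸ (nsmulAddMonoidHom (α := Pts (EK c) ℚ) 3).range) := by
    refine Finite.of_injective (β := Sq J η n ∅ 2) (fun x => ⟨_, hs x.out⟩) fun x y e => ?_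
    have e1 : ∀ g : GQ, galQ (EK c) g (κ y.out - κ x.out) = κ y.out - κ x.out := fun g => by
      have := ψ.symm.injective (congrFun (congrArg Subtype.val e) g)
      rw [map_sub]
      linear_combination (norm := abel) -this
    obtain ⟨P₀, hP⟩ := hFXP (EK c) ℚ (κ y.out - κ x.out) e1
    rw [← x.out_eq, ← y.out_eq]
    refine QuotientAddGroup.eq.2 ⟨P₀, act_inj (EK c) (Rat.castHom Qb) ?_⟩
    change rp (EK c) Qb (3 • P₀) = rp (EK c) Qb _
    have hP' : rp (EK c) Qb P₀ = κ y.out - κ x.out := by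
      rw [← hP, rp]
      exact congrArg (fun f : ℚ →+* Qb => act (EK c) f P₀) (Subsingleton.elim _ _)
    rw [map_nsmul, hP', map_add, map_neg, ← hκ, ← hκ, nsmul_sub]
    abel
  exact br_SFG (EK_ell hc) AddSubgroup.finiteIndex_of_finite_quotient

end Pool.Agent.MP_e23604_nt.S

end

section

set_option autoImplicit false

open Module Filter Topology Finset
open scoped Classical

namespace Pool.Agent.MP_e23604_nt.S

open B R
open Q (Wn)

theorem exT_SSIEVE (S : ℕ → Prop) (hS : ¬ Summable fun l : ℕ => if S l then (1 / l : ℝ) else 0)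
    (y : ℕ) (L : ℝ) : ∃ (n : ℕ) (T : Finset ℕ), y ≤ n ∧ T ⊆ Ioc y n ∧ (∀ l ∈ T, S l) ∧
      L ≤ ∑ l ∈ T, (1 / l : ℝ) := by
  have h0 : ∀ l : ℕ, 0 ≤ (if S l then (1 / l : ℝ) else 0) := fun l => by
    split_ifs
    · positivity
    · exact le_rfl
  have h1 := (not_summable_iff_tendsto_nat_atTop_of_nonneg h0).1 hS
  obtain ⟨n, hn1, hn2⟩ := ((h1.eventually_ge_atTop
    (L + ∑ i ∈ range (y + 1), if S i then (1 / i : ℝ) else 0)).and
    (eventually_ge_atTop (y + 1))).exists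
  refine ⟨n, (Ico (y + 1) n).filter S, by omega, fun l hl => ?_, fun l hl => (mem_filter.1 hl).2, ?_⟩
  · have := mem_Ico.1 (mem_filter.1 hl).1
    exact mem_Ioc.2 ⟨by omega, by omega⟩
  · rw [sum_filter, sum_Ico_eq_sub _ hn2]
    linarith

theorem tot_SSIEVE (T : Finset ℕ) (hT : ∀ l ∈ T, l.Prime) :
    (Nat.totient (∏ l ∈ T, l) : ℝ) ≤
      (∏ l ∈ T, l : ℕ) * Real.exp (-∑ l ∈ T, (1 / l : ℝ)) := by
  have h1 := Nat.totient_eq_mul_prod_factors (∏ l ∈ T, l)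
  rw [Nat.primeFactors_prod hT] at h1
  have h2 := congrArg (fun x : ℚ => (x : ℝ)) h1
  simp only [Rat.cast_natCast, Rat.cast_mul, Rat.cast_prod, Rat.cast_sub, Rat.cast_one,
    Rat.cast_inv] at h2
  rw [h2]
  refine mul_le_mul_of_nonneg_left ?_ (Nat.cast_nonneg _)
  rw [← sum_neg_distrib, Real.exp_sum]
  refine prod_le_prod (fun l hl => ?_) fun l _ => ?_
  · have : (1 : ℝ) ≤ l := by exact_mod_cast (hT l hl).one_le
    exact sub_nonneg.2 (inv_le_one_of_one_le₀ this)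
  · have := Real.add_one_le_exp (-(1 / l : ℝ))
    rw [one_div] at this ⊢
    linarith

theorem cnt_SSIEVE (S : ℕ → Prop) (T : Finset ℕ) (hT : ∀ l ∈ T, l.Prime) (hS : ∀ l ∈ T, S l)
    (X : ℕ) : {D : ℕ | 1 ≤ D ∧ D ≤ X ∧ ¬ ∃ l, S l ∧ D.factorization l = 1}.ncard ≤
      Nat.totient (∏ l ∈ T, l) * (X / (∏ l ∈ T, l) + 1) + ∑ l ∈ T, X / l ^ 2 := by
  have hP : (∏ l ∈ T, l) ≠ 0 := prod_ne_zero_iff.2 fun l hl => (hT l hl).ne_zero
  have hsub : {D : ℕ | 1 ≤ D ∧ D ≤ X ∧ ¬ ∃ l, S l ∧ D.factorization l = 1} ⊆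
      (((Ico 1 (1 + X)).filter fun x => (∏ l ∈ T, l).Coprime x) ∪
        T.biUnion fun l => (Ioc 0 X).filter fun x => l ^ 2 ∣ x : Finset ℕ) := by
    rintro D ⟨h1, h2, h3⟩
    rw [mem_coe, mem_union]
    by_cases hc : (∏ l ∈ T, l).Coprime D
    · exact Or.inl (mem_filter.2 ⟨mem_Ico.2 ⟨h1, by omega⟩, hc⟩)
    · right
      rw [Nat.coprime_prod_left_iff] at hc
      push Not at hc
      obtain ⟨l, hl, hc⟩ := hc
      have hp := hT l hl
      have hd : l ∣ D := by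
        by_contra hd
        exact hc ((Nat.Prime.coprime_iff_not_dvd hp).2 hd)
      have h4 := (hp.dvd_iff_one_le_factorization (by omega)).1 hd
      have h5 : D.factorization l ≠ 1 := fun h => h3 ⟨l, hS l hl, h⟩
      exact mem_biUnion.2 ⟨l, hl, mem_filter.2 ⟨mem_Ioc.2 ⟨h1, h2⟩,
        (hp.pow_dvd_iff_le_factorization (by omega)).2 (by omega)⟩⟩
  refine (Set.ncard_le_ncard hsub (Finset.finite_toSet _)).trans ?_
  rw [Set.ncard_coe_finset]
  refine (card_union_le _ _).trans (add_le_add (Nat.Ico_filter_coprime_le 1 X hP) ?_)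
  refine card_biUnion_le.trans (le_of_eq (sum_congr rfl fun l _ => ?_))
  exact Nat.Ioc_filter_dvd_card_eq_div X (l ^ 2)

theorem SIEVE_pf : SIEVE_st := by
  intro S hS hp
  rw [Metric.tendsto_atTop]
  intro ε hε
  obtain ⟨y, hy⟩ := exists_nat_one_div_lt (show 0 < ε / 3 by positivity)
  obtain ⟨n, T, hyn, hT, hTS, hL⟩ := exT_SSIEVE S hS (y + 1) (-Real.log (ε / 3))
  have hTp : ∀ l ∈ T, l.Prime := fun l hl => hp l (hTS l hl)
  have h1 := tot_SSIEVE T hTp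
  obtain ⟨P, hP⟩ : ∃ P, P = ∏ l ∈ T, l := ⟨_, rfl⟩
  have hP0 : 0 < P := hP ▸ prod_pos fun l hl => (hTp l hl).pos
  have hP1 : (0 : ℝ) < P := by exact_mod_cast hP0
  rw [← hP] at h1
  have h2 : Real.exp (-∑ l ∈ T, (1 / l : ℝ)) ≤ ε / 3 := by
    rw [← Real.exp_log (show 0 < ε / 3 by positivity)]
    exact Real.exp_le_exp.2 (by linarith)
  have h3 : (Nat.totient P : ℝ) ≤ P * (ε / 3) :=
    h1.trans (mul_le_mul_of_nonneg_left h2 hP1.le)
  have h4 : ∑ l ∈ T, ((l : ℝ) ^ 2)⁻¹ ≤ ε / 3 := by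
    refine (sum_le_sum_of_subset_of_nonneg hT fun l _ _ => by positivity).trans ?_
    refine (sum_Ioc_inv_sq_le_sub (α := ℝ) (Nat.succ_ne_zero y) hyn).trans ?_
    have : (0 : ℝ) ≤ (n : ℝ)⁻¹ := by positivity
    rw [one_div] at hy
    push_cast
    linarith
  refine ⟨P + 1, fun X hX => ?_⟩
  have hX0 : (P : ℝ) < X := by exact_mod_cast hX
  have hX1 : (0 : ℝ) < X := hP1.trans hX0
  rw [Real.dist_eq, sub_zero, abs_of_nonneg (by positivity), div_lt_iff₀ hX1]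
  have h5 := cnt_SSIEVE S T hTp hTS X
  rw [← hP] at h5
  have h6 := (Nat.cast_le (α := ℝ)).2 h5
  refine h6.trans_lt ?_
  push_cast
  have h7 : ((X / P : ℕ) : ℝ) ≤ X / P := Nat.cast_div_le
  have h8 : ∑ l ∈ T, ((X / l ^ 2 : ℕ) : ℝ) ≤ X * (ε / 3) := by
    refine le_trans (sum_le_sum fun l _ => ?_) ((mul_sum T (fun l : ℕ => ((l : ℝ) ^ 2)⁻¹) X).symm.le.trans
      (mul_le_mul_of_nonneg_left h4 hX1.le))
    refine Nat.cast_div_le.trans (le_of_eq ?_)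
    push_cast
    rw [div_eq_mul_inv]
  have h9 : (Nat.totient P : ℝ) * (((X / P : ℕ) : ℝ) + 1) ≤ P * (ε / 3) * (X / P + 1) :=
    mul_le_mul h3 (by linarith) (by positivity) (by positivity)
  have h10 : (P : ℝ) * (ε / 3) * (X / P + 1) = X * (ε / 3) + P * (ε / 3) := by
    field_simp
  have h11 : (P : ℝ) * (ε / 3) < X * (ε / 3) := mul_lt_mul_of_pos_right hX0 (by positivity)
  linarith

end Pool.Agent.MP_e23604_nt.S

end

section

set_option autoImplicit false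

namespace Pool.Agent.MP_e23604_nt.S

theorem LU_ok : LU_st :=
  LU_pf TAM_ok LOC_ok
theorem BSM_ok : BSM_st :=
  BSM_pf KAP_ok KUG_ok KUM_ok NCU_ok DIM_ok TAM_ok LU_ok LOC_ok
theorem BSZ_ok : BSZ_st :=
  BSZ_pf PSI_ok KW_ok DIM_ok LU_ok TAM_ok LOC_ok
theorem LEV_ok : LEV_st :=
  LEV_pf
theorem PAI_ok : PAI_st :=
  PAI_pf
theorem CUP_ok : CUP_st :=
  CUP_pf REC_ok LEV_ok
theorem INVU_ok : INVU_st :=
  INVU_pf PAI_ok INV3_ok
theorem UPB_ok : UPB_st :=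
  UPB_pf INVU_ok VAL_ok LU_ok LOC_ok
theorem UNL_ok : UNL_st :=
  UNL_pf LU_ok LOC_ok TAM_ok
theorem LAST_ok : LAST_st :=
  LAST_pf CUP_ok INVU_ok LU_ok PAI_ok VAL_ok
theorem CLS_ok : CLS_st :=
  CLS_pf UNL_ok LAST_ok LU_ok
theorem BS_ok : BS_st := BS_of BSM_ok BSZ_ok
theorem COR_ok : COR_st :=
  COR_pf UNL_ok LAST_ok LU_ok BS_ok
theorem LIF0_ok : LIF0_st :=
  LIF0_pf AQW_ok LEV_ok HOMQ_ok
theorem RAM_ok : RAM_st :=
  RAM_pf BS_ok LU_ok LOC_ok TAM_ok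
theorem LIFT_ok : LIFT_st :=
  LIFT_pf LIF0_ok RAM_ok COR_ok BS_ok
theorem ISOT_ok : ISOT_st :=
  ISOT_pf CUP_ok INVQ_ok PAI_ok
theorem KER1_ok : KER1_st :=
  KER1_pf UPB_ok BS_ok LU_ok TAM_ok HOMQ_ok
theorem LOWK_ok : LOWK_st :=
  LOWK_pf KER1_ok LOC_ok
theorem LOW_ok : LOW_st :=
  LOW_pf CLS_ok LOWK_ok BS_ok TAM_ok HOMQ_ok
theorem KER_ok : KER_st :=
  KER_pf KER1_ok
theorem QE1_ok : QE1_st :=
  QE1_pf CHEB_ok LEV_ok BS_ok KAP_ok TAM_ok LOC_ok LU_ok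
theorem QEX_ok : QEX_st :=
  QEX_pf QE1_ok TQ_ok LOC_ok
theorem LIN1_ok : LIN1_st :=
  LIN1_pf
theorem LIN_ok : LIN_st :=
  LIN_pf LIN1_ok PAI_ok
theorem PAR_ok : PAR_st :=
  PAR_pf QEX_ok LIN_ok LIFT_ok LOW_ok ISOT_ok KER_ok TAM_ok HOMQ_ok
theorem FIN_ok : FIN_st :=
  FIN_pf
theorem FSQ_ok : FSQ_st :=
  FSQ_pf BS_ok
theorem SURJ_ok : SURJ_st :=
  SURJ_pf PAI_ok
theorem UNR_ok : UNR_st :=
  UNR_pf SURJ_ok
theorem COV_ok : COV_st :=
  COV_pf DIM_ok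
theorem TABM_ok : TABM_st :=
  TABM_pf KUM_ok NCU_ok
theorem ZPT_ok : ZPT_st :=
  ZPT_pf
theorem TABZ_ok : TABZ_st :=
  TABZ_pf ZPT_ok NCU_ok KUM_ok
theorem WEIL_ok : WEIL_st :=
  WEIL_pf
theorem WP_ok : WP_st :=
  WP_pf WEIL_ok
theorem JEX_ok : JEX_st :=
  JEX_pf
theorem GA_ok : GA_st :=
  GA_pf KAP_ok TAM_ok
theorem FER_ok : FER_st :=
  FER_pf
theorem ISM_ok : ISM_st :=
  ISM_pf
theorem FXP_ok : FXP_st :=
  FXP_pf
theorem DIVL_ok : DIVL_st :=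
  DIVL_pf FXP_ok
theorem APX0_ok : APX0_st :=
  APX0_pf DIVL_ok
theorem APX_ok : APX_st :=
  APX_pf APX0_ok FXP_ok
theorem SEL_ok : SEL_st :=
  SEL_pf APX_ok
theorem RED_ok : RED_st :=
  RED_pf SEL_ok FXP_ok
theorem SHA_ok : SHA_st :=
  SHA_pf UNR_ok FXP_ok
theorem FG_ok : FG_st :=
  FG_pf FSQ_ok SEL_ok FXP_ok
theorem CNT_ok : CNT_st :=
  CNT_pf
theorem INST_ok : INST_st :=
  INST_pf JEX_ok GA_ok WP_ok FER_ok ISM_ok TABM_ok TABZ_ok
theorem ALL_ok : ALL_st :=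
  ALL_pf INST_ok COV_ok PAR_ok FIN_ok FSQ_ok SHA_ok RED_ok FG_ok CNT_ok
theorem SIEVE_ok : SIEVE_st :=
  SIEVE_pf
theorem DGEN_ok : DGEN_st :=
  DGEN_pf SIEVE_ok CHEB_ok BS_ok

end Pool.Agent.MP_e23604_nt.S

end
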