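import Pool.Agent.Mg.Fe23604m.G160902
import Pool.Agent.Mg.Fe23604m.G0675e6
import Pool.Agent.Mg.Fe23604m.G7fef4a
import Pool.Agent.Mg.Fe23604m.G6b89ff
import Pool.Agent.Mg.Fe23604m.G5a860c
import Pool.Agent.Mg.Fe23604m.G3a9098
import Pool.Agent.Mg.Fe23604m.Gad4bd4

set_option linter.all false

section

/-!
Unbounded Selmer groups and classes whose restrictions have large order.
-/

set_option autoImplicit false

open Finset QuadraticAlgebra Filter Topology
open scoped Classical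

namespace Pool.Agent.MP_e23604_nt.X

open B R S W

variable {χ : GQ → ZMod 3} {r : ℕ}

theorem bd_NHB (hT : Tw χ r) (Q : Pt) {k : ℕ} (h : ∀ g ∈ GK, 3 ^ k • bd χ Q g = 0) :
    SelU χ r (bd χ Q) := by
  have hx : SelK χ (bd χ Q) := ⟨⟨hT.lc.map₂ ((gal_lc Q).mono le_top)
    fun a b => (ω : Zw) ^ a.val • b - Q, fun g hg j hj => by
      simp only [bd, eta_mul hT.add hg hj, map_sub]
      abel⟩, fun V => ⟨Q, fun _ _ => rfl⟩⟩
  refine ⟨hx.1, fun V hV => selK_unr INE_ok hT hx h V fun e => hV ?_, fun V _ => hx.2 V⟩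
  refine (Ov_mul.1 e).elim id fun e => Ov_mul.2 (Or.inl (Ov_pow (n := k) ?_))
  exact_mod_cast e

theorem lin_NHB {x y : GQ → Pt} (hx : SelU χ r x) (hy : SelU χ r y) (m : ℕ) :
    SelU χ r fun g => m • x g - y g := by
  refine ⟨⟨hx.1.1.map₂ hy.1.1 fun a b => m • a - b, fun g hg j hj => ?_⟩, fun V hV τ hτ => ?_,
    fun V hV => ?_⟩
  · simp only [hx.1.2 g hg j hj, hy.1.2 g hg j hj, map_sub, map_nsmul, smul_add]
    abel
  · simp only [hx.2.1 V hV τ hτ, hy.2.1 V hV τ hτ, smul_zero, sub_zero]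
  · obtain ⟨P, hP⟩ := hx.2.2 V hV
    obtain ⟨Q, hQ⟩ := hy.2.2 V hV
    refine ⟨m • P - Q, fun g hg => ?_⟩
    simp only [hP g hg, hQ g hg, map_sub, map_nsmul, smul_sub]
    abel

theorem cen_NHB {z : GQ → Pt} (hz : Cz χ GK z) (h9 : ∀ g ∈ GK, 9 • z g = 0) {M : Zw} (hM : M ≠ 0)
    (h : ∀ u ∈ UM M, z u = 0) : ∃ P : Pt, 9 • P = 0 ∧ ∀ g ∈ GK, 3 • z g = eta χ g P - P := by
  obtain ⟨g₀, h0, h4⟩ := SURJ_of PLK_ok FRK_ok 9 4 (by decide) ⟨1, by decide⟩ ⟨-2, 1, by decide⟩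
  have hb : ∀ j : ZMod 3, ∃ b c : Zw, b * (ω ^ j.val * 4 - 1) = 3 + c * 9 := fun j => by
    fin_cases j
    · exact ⟨1, 0, by decide⟩
    · exact ⟨4 * ω ^ 2 - 1, 2, by decide⟩
    · exact ⟨4 * ω - 1, 2, by decide⟩
  obtain ⟨b, c, e⟩ := hb (χ g₀)
  refine ⟨b • z g₀, by rw [smul_comm, h9 g₀ h0, smul_zero], fun g hg => ?_⟩
  have h1 := (PS_ok M hM).1 g hg |>.2.2.2.2.2.2.1 g₀ h0
  have h2 := hz.2 _ (GK.mul_mem hg h0) _ h1.1
  have h3 : (9 : Zw) • z g = 0 := (Nat.cast_smul_eq_nsmul Zw 9 _).trans (h9 g hg)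
  rw [mul_inv_cancel_left, h _ h1, map_zero, add_zero, hz.2 g hg g₀ h0, hz.2 g₀ h0 g hg,
    eta_apply χ g₀, h4 _ h3, ← mul_smul] at h2
  have h5 : (ω ^ (χ g₀).val * 4 - 1 : Zw) • z g = eta χ g (z g₀) - z g₀ := by
    rw [sub_smul, one_smul]
    linear_combination (norm := abel) h2
  rw [eta_smul χ hg, ← smul_sub, ← h5, ← mul_smul, e, add_smul, mul_smul, h3, smul_zero, add_zero]
  exact (Nat.cast_smul_eq_nsmul Zw 3 _).symm

theorem XI_pf : XI_st := by
  intro χ r hT hB n M hM _ _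
  simp only [HB, not_exists, not_forall] at hB
  obtain ⟨k, x, hx, hk, hB⟩ := hB (n + 1)
  have key : ∃ d : ℕ, ∃ P : Pt, (∃ i : ℕ, 3 ^ i • P = 0) ∧
      ∀ g ∈ GK, 3 ^ (n + 1 + d) • x g = eta χ g P - P := ⟨k, 0, ⟨0, smul_zero _⟩, fun g hg => by
    rw [pow_add, mul_smul, hk g hg, smul_zero, map_zero, sub_zero]⟩
  obtain ⟨T, ⟨i, hi⟩, e⟩ := Nat.find_spec key
  have h1 := @Nat.find_min _ _ key
  obtain ⟨d, hd⟩ : ∃ d, Nat.find key = d + 1 := Nat.exists_eq_succ_of_ne_zero fun e' =>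
    hB T ⟨⟨i, hi⟩, by simpa only [e', add_zero] using e⟩
  rw [hd] at e h1
  obtain ⟨T', e'⟩ := smul_onto (b := ((3 ^ (n + 2) : ℕ) : Zw)) (by
    exact_mod_cast pow_ne_zero _ three_ne_zero) T
  rw [Nat.cast_smul_eq_nsmul] at e'
  have h2 : 3 ^ (i + (n + 2)) • T' = 0 := by rw [pow_add, mul_smul, e', hi]
  have h3 := lin_NHB hx (bd_NHB hT T' (k := i + (n + 2)) fun g _ => by
    rw [bd, smul_sub, ← map_nsmul, h2, map_zero, sub_zero]) (3 ^ d)
  have h4 : ∀ g ∈ GK, 3 ^ (n + 2) • (3 ^ d • x g - bd χ T' g) = 0 := fun g hg => by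
    rw [smul_sub, ← mul_smul, ← pow_add, show n + 2 + d = n + 1 + (d + 1) by ring, e g hg, bd,
      smul_sub, ← map_nsmul, e', sub_self]
  refine ⟨_, h3, h4, by_contra fun h5 => ?_⟩
  push Not at h5
  obtain ⟨P, p1, p2⟩ := cen_NHB (χ := χ) (z := fun g => 3 ^ n • (3 ^ d • x g - bd χ T' g))
    ⟨h3.1.1.map _, fun g hg j hj => by
      have := h3.1.2 g hg j hj
      dsimp only at this ⊢
      rw [this, smul_add, map_nsmul]⟩
    (fun g hg => by rw [← mul_smul, ← h4 g hg, pow_add, mul_comm]; rfl) hM h5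
  refine h1 d.lt_succ_self ⟨P + 3 ^ (n + 1) • T', ⟨i + (n + 2), ?_⟩, fun g hg => ?_⟩
  · rw [smul_add, smul_comm, h2, smul_zero, add_zero, ← add_assoc, pow_add, mul_smul]
    exact (congrArg _ p1).trans (smul_zero _)
  · have := p2 g hg
    rw [← mul_smul, ← pow_succ', smul_sub, ← mul_smul, ← pow_add, bd, smul_sub] at this
    rw [map_add, map_nsmul]
    linear_combination (norm := abel) this

theorem tr_NHB {W : WeierstrassCurve ℚ} {P : Pts W Qb} (h : ∀ g ∈ GK, galQ W g P = P) (c g : GQ)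
    (hc : c ∉ GK) : galQ W g (P + galQ W c P) = P + galQ W c P := by
  rw [map_add, ← BSel_gal_mul]
  by_cases hg : g ∈ GK
  · rw [h g hg, show g * c = c * (c⁻¹ * g * c) by group, BSel_gal_mul, h _ (cjG_mem hg)]
  · rw [h _ (GK_mul hg hc), add_comm, ← mul_inv_cancel_left c g, BSel_gal_mul,
      h _ (GK_mul (by rwa [GK.inv_mem_iff]) hg)]

attribute [local instance 2000] decQ in
theorem pts_NHB (hT : Tw χ r) (hB : HB χ r) {c : ℤ} (hc : c ≠ 0) (Φ : Pts (EK c) Qb ≃+ Pt)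
    (hΦ : ∀ g ∈ GK, ∀ P, Φ (galQ (EK c) g P) = eta χ g (Φ P)) (hF : Fg3 (EK c)) :
    Finite (EK c).toAffine.Point := by
  have ell := EK_ell hc
  obtain ⟨k₁, hk⟩ := hB
  obtain ⟨s, hs⟩ := ex_notGK
  have e0 : EK c = (EK c).baseChange ℚ := by ext <;> simp [WeierstrassCurve.baseChange]
  have h1 : Finite (Pts (EK c) ℚ) := by
    refine fin_SRED (fg_SRED e0 _ decQ hF) k₁ fun P k => ?_
    have ell' : ((EK c).baseChange Qb).IsElliptic := inferInstanceAs ((EK c).map _).IsElliptic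
    obtain ⟨κ, hκ⟩ := smul_surj (W := (EK c).baseChange Qb) (pow_pos three_pos k)
      (rp (EK c) Qb P)
    have h2 : ∀ g ∈ GK, 3 ^ k • bd χ (Φ κ) g = 0 := fun g hg => by
      rw [bd, ← hΦ g hg, ← map_sub, ← map_nsmul, nsmul_sub, ← map_nsmul, hκ, galQ, act_rp, sub_self,
        map_zero]
    obtain ⟨U, ⟨j, hU⟩, e⟩ := hk k _ (bd_NHB hT _ h2) h2
    obtain ⟨U, rfl⟩ := Φ.surjective U
    rw [← map_nsmul, Φ.map_eq_zero_iff] at hU
    obtain ⟨P₀, hP⟩ := S.FXP_ok (EK c) ℚ _ fun σ => tr_NHB (P := 3 ^ k₁ • κ - U) (fun g hg =>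
      Φ.injective (by
        have := e g hg
        simp only [hΦ g hg, bd, map_sub, map_nsmul, nsmul_sub] at this ⊢
        linear_combination (norm := abel) this)) s σ hs
    have hP' : rp (EK c) Qb P₀ = 3 ^ k₁ • κ - U + galQ (EK c) s (3 ^ k₁ • κ - U) := by
      rw [← hP, rp, Subsingleton.elim (Rat.castHom Qb) (algebraMap ℚ Qb)]
      rfl
    have h3 : 3 ^ j • 3 ^ k • (3 ^ k₁ • κ - U) = 3 ^ j • 3 ^ k₁ • rp (EK c) Qb P := by
      rw [← hκ, nsmul_sub, nsmul_sub, smul_comm (3 ^ j) (3 ^ k) U, hU, smul_zero, sub_zero,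
        smul_comm (3 ^ k₁)]
    have h4 : 3 ^ j • 3 ^ k • P₀ = 2 • 3 ^ j • 3 ^ k₁ • P := by
      refine act_inj (EK c) (Rat.castHom Qb) ?_
      change rp (EK c) Qb _ = rp (EK c) Qb _
      rw [map_nsmul, map_nsmul, hP', nsmul_add, nsmul_add, ← map_nsmul, ← map_nsmul, h3,
        ← map_nsmul, ← map_nsmul, galQ, act_rp, two_nsmul, map_add]
    obtain ⟨u, hu⟩ := (Odd.pow (n := k) (by decide : Odd 3)).add_one.two_dvd
    refine ⟨u • P₀ - 3 ^ k₁ • P, j, ?_⟩
    rw [nsmul_sub, nsmul_sub, smul_comm (3 ^ k) u, smul_comm (3 ^ j) u, h4, ← mul_smul u, mul_comm u,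
      ← hu, add_smul, one_smul, smul_comm (3 ^ k), add_sub_cancel_left]
  rw [e0]
  exact h1

theorem NHB_pf : NHB_st := by
  intro D hD hG h hB
  obtain ⟨J, n, a, ψ, hP, hE, -, -, -, -, hn⟩ :=
    inst_two JEX_ok S.GA_ok WP_ok FER_ok ISM_ok TABM_ok TABZ_ok hD hG
  have hc : (-432 * (D : ℤ) ^ 2) ≠ 0 :=
    mul_ne_zero (by norm_num) (pow_ne_zero _ (Nat.cast_ne_zero.2 hD))
  obtain ⟨Ψ, -, hΨ⟩ := W.ISO_ok D hD
  have hT : Tw (ch D) (rad3 D) :=
    tw_kum S.KAP_ok S.TAM_ok FAC_ok PLK_ok hD (rad3_sf D) fun _ => dvd_rad3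
  have hF := FG_ok _ J _ n _ true hP _ ψ hc hE
  have hΦ : ∀ g ∈ GK, ∀ P, (ψ.symm.trans Ψ) (galQ _ g P) = eta (ch D) g ((ψ.symm.trans Ψ) P) :=
    fun g hg P => by
      obtain ⟨P, rfl⟩ := ψ.surjective P
      rw [← hE, AddEquiv.trans_apply, AddEquiv.trans_apply, ψ.symm_apply_apply, ψ.symm_apply_apply,
        tw_pos _ hg, gA_apply, hΨ g hg]
      rfl
  have hS := sha_fin S.FXP_ok PLK_ok INE_ok FIH_ok FINP_fin hT hB hc _ hΦ
  obtain ⟨C, hC⟩ := (S.CNT_ok _ hF).1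
    ⟨pts_NHB hT hB hc _ hΦ hF, (Set.finite_coe_iff.1 hS).subset fun _ e => e.1⟩
  have := (h C).trans (hC C).2
  exact (Nat.lt_pow_self (by norm_num : 1 < 3)).not_ge (by exact_mod_cast this)

end Pool.Agent.MP_e23604_nt.X

end

section

/-!
The first systems of points exist.
-/

set_option autoImplicit false

namespace Pool.Agent.MP_e23604_nt.X

theorem HSN_pf (H : Un.NON_st) (HT : Un.NTL_st) (K : N.KIT_st) : HSN_st := fun e h => by
  obtain ⟨X, -, -, a, b⟩ := Un.HSN_of H HT K (e.val - 1)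
  refine ⟨X, b, ?_⟩
  rw [a]
  clear a b X
  revert e
  decide

end Pool.Agent.MP_e23604_nt.X

end

section

/-!
The congruence relation for the third family of Heegner points.
-/

set_option autoImplicit false

open Finset QuadraticAlgebra
open scoped Classical

namespace Pool.Agent.MP_e23604_nt.M

open B R S W Un Un.NC

variable {V : Plc} {C : AddSubgroup Pt} {S : Pt} {f : GQ}

theorem eq_CONG (h : (C : Set Pt).Finite) (z : Qb) :
    gy C z = ∏ T ∈ els C, if T = 0 then 1 else yc T - z := by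
  rw [← mul_prod_erase _ _ ((mem_els h).2 C.zero_mem), if_pos rfl, one_mul]
  exact prod_congr rfl fun T hT => (if_neg (ne_of_mem_erase hT)).symm

theorem sup_CONG {L : AddSubgroup Pt} (h : (C : Set Pt).Finite) (h' : (L : Set Pt).Finite)
    (d : ∀ T ∈ C, T ∈ L → T = 0) (z : Qb) :
    gy (C ⊔ L) z = gy L z * ∏ T ∈ (els C).erase 0, ∏ U ∈ els L, (yc (T + U) - z) := by
  rw [eq_CONG (els_sup h h' d).1, (els_sup h h' d).2,
    ← mul_prod_erase _ _ ((mem_els h).2 C.zero_mem), eq_CONG h']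
  simp only [zero_add]
  congr 1
  refine prod_congr rfl fun T hT => prod_congr rfl fun U hU => if_neg fun e => ?_
  rw [mem_erase, mem_els h] at hT
  exact hT.1 (d T hT.2 (eq_neg_of_add_eq_zero_left e ▸ neg_mem ((mem_els h').1 hU)))

theorem gy_CONG (h : CD V C S) {z : Qb} (hz : V.v z ≤ 1) : gy (AddSubgroup.zmultiples S) 0 ≠ 0 ∧
    Cg V (gy (C ⊔ AddSubgroup.zmultiples S) z / gy (AddSubgroup.zmultiples S) 0)
      (gy C z ^ V.l) ∧ V.v (gy C z) ≤ 1 := by
  obtain ⟨f, e⟩ := card_line V.hl.out h.lR h.R0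
  have k : ∀ U ∈ (els (AddSubgroup.zmultiples S)).erase 0, 1 < V.v (yc U - 0) := fun U hU => by
    rw [mem_erase, mem_els f] at hU
    rw [sub_zero]
    exact y_AFML (h.line hU.2) hU.1
  have k0 : ∀ U ∈ (els (AddSubgroup.zmultiples S)).erase 0, yc U - 0 ≠ 0 := fun U hU e => by
    have := k U hU
    rw [e, map_zero] at this
    linarith
  have k1 : Cg V (gy (AddSubgroup.zmultiples S) z / gy (AddSubgroup.zmultiples S) 0) 1 := by
    rw [gy, gy, ← prod_div_distrib]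
    refine prod_const_one (M := Qb) ▸ Cg.prod (g := fun _ => 1) fun U hU => Cg.mk' (by simp) ?_
    rw [div_sub_one (k0 U hU), map_div₀, div_lt_one (one_pos.trans (k U hU))]
    exact lt_of_le_of_lt (by simpa using hz) (k U hU)
  have k2 : ∀ T ∈ (els C).erase 0, ¬ E1 V.v T := fun T hT e => by
    rw [mem_erase, mem_els h.nd.fin] at hT
    exact hT.1 (h.nE1 hT.2 e)
  have k3 : ∀ T ∈ (els C).erase 0, V.v (yc T - z) ≤ 1 := fun T hT =>
    bLocA_sub_le V.na (yc_le (not_E1.1 (k2 T hT)).2) hz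
  refine ⟨prod_ne_zero_iff.2 k0, ?_, (Cg.prod fun T hT => Cg.rfl' (k3 T hT)).1⟩
  rw [sup_CONG h.nd.fin f h.dis, mul_div_right_comm, ← one_mul (gy C z ^ V.l),
    show gy C z ^ V.l = _ from (prod_pow _ _ _).symm]
  refine k1.mul (Cg.prod fun T hT => ?_)
  rw [← e, cd, ← prod_const]
  refine Cg.prod fun U hU => Cg.mk' (k3 T hT) ?_
  have hU' := h.line ((mem_els f).1 hU)
  rw [sub_sub_sub_cancel_right]
  exact (EXP_ok V T U (k2 T hT) hU').2.2.2.trans_lt (zz_lt hU')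

theorem unit_CONG (h : CD V C S) : V.v (gy C w3) = 1 := by
  have p : ¬ pw ∣ cd C := fun e => h.nd.c3 (Nat.prime_three.dvd_of_dvd_pow
    (nn_nat _ ▸ pw_dvd_iff.1 e))
  have k : ∀ T : Pt, (cd C : Zw) • T = 0 → T ≠ 0 → V.v (xc T) = 1 := fun T h1 h0 => by
    have := SEP_ok (cd C) V T0 T p (not_Ov_nat h.nl) Gd_T0 h1 h0
    rw [v_nine h.three, xc_T0.1, zero_sub, V.v.map_neg] at this
    exact le_antisymm this.2 this.1
  rw [gy, map_prod]
  refine prod_eq_one fun T hT => ?_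
  rw [mem_erase, mem_els h.nd.fin] at hT
  have h1 := cd_smul h.nd.fin hT.2
  have h2 := k T h1 hT.1
  have h3 := k (pw • T) (by rw [smul_comm, h1, smul_zero])
    fun e => hT.1 (cop_smul (pw_prime.coprime_iff_not_dvd.2 p) e h1)
  rw [(PI_ok.2.2.1 T fun e => by simp [e] at h2).1, map_div₀, map_mul, map_pow, h2, V.v.map_neg,
    v_three h.three, one_pow, mul_one, div_one, show xc T ^ 3 + 1 = (yc T - w3 ^ 2) * (yc T - w3) by
      linear_combination -xy_eq T + yc T * w3_spec - w3_cube] at h3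
  have h4 := yc_le h2.le
  exact le_antisymm (bLocA_sub_le V.na h4 (v_w3 V).le)
    (h3 ▸ bLocA_mul_le (bLocA_sub_le V.na h4 (by rw [map_pow, v_w3, one_pow])))

theorem fr_CONG (hf : Frob V.l V.γ f) {x : Qb} (e : V.v x ≤ 1) : Cg V (x ^ V.l) (f x) :=
  (Cg.mk' (by rw [map_pow]; exact pow_le_one₀ (V.v.nonneg _) e) (hf.2 x e)).symm

theorem vv_CONG (hV : VV_st) (h3 : V.l % 3 = 2) (hf : Frob V.l V.γ f) {Q : Pt} (hQ : G9 Q) :
    Cg V (vv ((V.l ^ 2) • Q)) (f (vv Q)) := by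
  obtain ⟨-, a2, a3, -, -, -, -, -, a4, -, -, a5, -⟩ := hV.2 Q hQ
  have a6 := (hV.2 _ (a2 4 (by decide))).2.2.2.2.2.2.2.2.2.2.2.1
  obtain ⟨s, hs⟩ := IsAlgClosed.exists_pow_nat_eq (vv Q ^ 2 - 4) two_pos
  obtain ⟨z, y, e1, e2⟩ : ∃ z y : Qb, z * y = 1 ∧ vv Q = z + y :=
    ⟨(vv Q + s) / 2, (vv Q - s) / 2, by linear_combination -hs / 4, by ring⟩
  have k : ∀ z y : Qb, z * y = 1 → (z + y) ^ 3 - 3 * (z + y) + 1 = 0 → z ^ 9 = 1 ∧ V.v z = 1 :=
    fun z y e e' => by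
      have : z ^ 9 = 1 := by
        linear_combination (z ^ 3 - 1) * z ^ 3 * e' -
          (z ^ 3 - 1) * (3 * z ^ 4 + 3 * z ^ 3 * y + z ^ 2 * y ^ 2 + z * y + 1) * e
      exact ⟨this, (pow_eq_one_iff_of_nonneg (V.v.nonneg _) (n := 9) (by norm_num)).1
        (by rw [← map_pow, this, map_one])⟩
  obtain ⟨z1, z2⟩ := k z y e1 (e2 ▸ a4)
  obtain ⟨y1, y2⟩ := k y z (mul_comm z y ▸ e1) (add_comm z y ▸ e2 ▸ a4)
  have := (fr_CONG hf z2.le).add (fr_CONG hf y2.le)
  rw [← map_add, ← e2, pow_eq_pow_mod _ z1, pow_eq_pow_mod _ y1] at this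
  rw [nsmul_eq_mod_nsmul _ a3, Nat.pow_mod]
  refine Eq.subst (motive := fun t => Cg V t _) ?_ this
  rw [← mul_nsmul', nsmul_eq_mod_nsmul _ a3, a5] at a6
  obtain e | e | e : V.l % 9 = 2 ∨ V.l % 9 = 5 ∨ V.l % 9 = 8 := by omega
  · rw [e, a5, e2]
    linear_combination -2 * e1
  · rw [e, a6, e2]
    linear_combination y ^ 4 * z1 + z ^ 4 * y1 - (4 * z ^ 2 + 6 * z * y + 4 * y ^ 2 - 2 +
      (z ^ 5 + y ^ 5) * (z ^ 3 * y ^ 3 + z ^ 2 * y ^ 2 + z * y + 1)) * e1
  · rw [e, show 8 ^ 2 % 9 = 1 from rfl, one_nsmul, e2]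
    linear_combination y * z1 + z * y1 - (z ^ 8 + y ^ 8) * e1

theorem mE_CONG (hV : VV_st) (h : CD V C S) (hf : Frob V.l V.γ f) {P : Pt} (hP : G9 P) :
    Cg V (mE (C ⊔ AddSubgroup.zmultiples S) P /
      (gy (AddSubgroup.zmultiples S) 0 * gy (AddSubgroup.zmultiples (pw • S)) 0)) (f (mE C P)) := by
  obtain ⟨-, a2, a3, -, -, -, a4, -⟩ := hV.2 P hP
  have n2 : ¬ 3 ∣ cd C ^ 2 := fun e => h.nd.c3 (Nat.prime_three.dvd_of_dvd_pow e)
  have c1 : Cg V (dd (V.l * cd C) P) (f (dd (cd C) P)) := by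
    have := (vv_CONG hV h.l3 hf (a2 (7 * cd C ^ 2) (by omega))).add
      ((Cg.rfl' (a := -1) (by simp)).mul (vv_CONG hV h.l3 hf (a2 _ n2)))
    rw [← mul_nsmul', ← mul_nsmul', neg_one_mul, neg_one_mul] at this
    rw [dd, dd, map_sub, mul_pow, mul_left_comm, sub_eq_add_neg, sub_eq_add_neg]
    exact this
  have y1 : V.v (yc P) ≤ 1 := yc_le (not_E1.1 fun e => a4 (by
    rw [E1_tor e (n := 3 * pw) (fun k => h.three ((Ov_mul.1 k).elim id Ov_three.2)) hP.zero,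
      xc_zero])).2
  have v1 : V.v (vv P) ≤ 1 := (hf.1 _).ge.trans (vv_CONG hV h.l3 hf hP).2.1
  have g1 := gy_CONG h y1
  have g2 := gy_CONG h.pi y1
  have := ((c1.mul ((fr_CONG hf v1).pow (2 * cd C))).mul (g1.2.1.trans (fr_CONG hf g1.2.2))).mul
    (g2.2.1.trans (fr_CONG hf g2.2.2))
  rw [mE, mE, h.sup.2, show mC pw (C ⊔ AddSubgroup.zmultiples S) =
    mC pw C ⊔ AddSubgroup.zmultiples (pw • S) by
      rw [mC, AddSubgroup.map_sup, AddMonoidHom.map_zmultiples]; rfl]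
  simp only [map_mul, map_pow]
  refine Eq.subst (motive := fun t => Cg V t _) ?_ this
  ring

theorem on_CONG {a b c d : Qb} (h : Z3 a b c d) : On 0 1 (d / c) (a / c) := by
  have c0 : c ≠ 0 := fun e => h.ne (by simpa [e] using h.pr)
  rw [on_iff]
  field_simp
  linear_combination -h.pr + a * c * h.sm

theorem MCONG_of (hV : VV_st) (hG : MGAL_st) : MCONG_st := by
  intro P V f hP h3 hf _
  refine ⟨ω ^ (2 * (kum 3 f).val), w_unit.pow _, fun C hC _ hl S hS => ?_⟩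
  have h : CD V C S := ⟨h3, hC, hl, hS.zero, fun e => (inert_prime V.hl.out h3).not_isUnit
    (isUnit_of_dvd_one ((hS 1).1 (by rw [e, smul_zero])))⟩
  have fv : ∀ x : Qb, V.v (f x) = V.v x := hf.1
  have vt : V.v (-cbr 3) = 1 := by
    have := congrArg V.v (cbr_cube 3)
    rw [map_pow, Rat.cast_ofNat, v_three h.three] at this
    rw [V.v.map_neg]
    exact (pow_eq_one_iff_of_nonneg (V.v.nonneg _) three_ne_zero).1 this
  have z := (hG C P hC hP).1
  have z' := (hG _ P h.sup.1 hP).1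
  have a2 := (hV.2 P hP).2.1
  have cA := mE_CONG hV h hf hP
  have cB := mE_CONG hV h hf (a2 4 (by decide))
  have cC := mE_CONG hV h hf (a2 7 (by decide))
  have g1 := gy_CONG h (v_w3 V).le
  have g2 := gy_CONG h.pi (v_w3 V).le
  have l0 := mul_ne_zero g1.1 g2.1
  have vC : V.v (f (mE C (7 • P))) = 1 := by
    refine le_antisymm cC.2.1 ?_
    have := congrArg V.v z.pr
    rw [V.v.map_neg, map_pow, mD, map_mul V.v _ (gy _ w3), map_mul V.v _ (gy _ w3), map_pow, vt,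
      unit_CONG h, unit_CONG h.pi, ← fv, map_mul f, map_mul f] at this
    exact le_of_eq_of_le (by rw [this]; simp) (bLocA_mul_le (bLocA_mul_one cA.2.1 cB.2.1))
  have ft := act_SKAP (r := 3) three_ne_zero f
  set j := (kum 3 f).val
  have cD : Cg V (mD (C ⊔ AddSubgroup.zmultiples S) /
      (gy (AddSubgroup.zmultiples S) 0 * gy (AddSubgroup.zmultiples (pw • S)) 0))
      (w3 ^ (2 * j) * f (mD C)) := by
    have := ((((fr_CONG hf vt.le).pow (cd C)).mul (Cg.rfl' vt.le)).mul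
      (g1.2.1.trans (fr_CONG hf g1.2.2))).mul (g2.2.1.trans (fr_CONG hf g2.2.2))
    rw [mD, mD, h.sup.2, show mC pw (C ⊔ AddSubgroup.zmultiples S) =
      mC pw C ⊔ AddSubgroup.zmultiples (pw • S) by
        rw [mC, AddSubgroup.map_sup, AddMonoidHom.map_zmultiples]; rfl]
    have e : w3 ^ (2 * j) * f (-cbr 3) = -cbr 3 := by
      rw [map_neg, ft, mul_neg, ← mul_assoc, ← pow_add, show 2 * j + j = 3 * j by ring, pow_mul,
        w3_cube, one_pow, one_mul]
    simp only [map_mul, map_pow]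
    refine Eq.subst (motive := fun t => Cg V t _) ?_ (Eq.subst (motive := Cg V _) ?_ this)
    · ring
    · linear_combination -f (-cbr 3) ^ cd C * f (gy C w3) * f (gy (mC pw C) w3) * e
  have cX := cD.div cC vC
  have cY := cA.div cC vC
  rw [div_div_div_cancel_right₀ l0, ← map_div₀] at cY
  rw [div_div_div_cancel_right₀ l0, mul_div_assoc, ← map_div₀] at cX
  have o := on_CONG z
  have o' := on_CONG z'
  obtain ⟨o2, e3⟩ := w_pow_pt (o.map (f : Qb →+* Qb)) (2 * j)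
  have ne : ∀ {x y : Qb}, On 0 1 x y → V.v x ≤ 1 → ¬ E1 V.v (pt 0 1 x y) := fun {x y} o e => by
    rw [pt_eq G01 o]
    exact not_lt.2 e
  rw [mq, mq, tq, tq, gal_pt f o]
  refine e3 ▸ CLO_ok V _ _ (ne o' cX.1) (ne o2 cX.2.1) ?_ ?_
  · rw [xc_pt o', xc_pt o2, v_three h.three]
    exact cX.2.2
  · rw [yc_pt o', yc_pt o2, v_three h.three]
    exact cY.2.2

end Pool.Agent.MP_e23604_nt.M

end

section

/-!
Products of differences of second coordinates: neighbours and complex multiplication.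
-/

set_option autoImplicit false

open Finset QuadraticAlgebra
open scoped Classical

namespace Pool.Agent.MP_e23604_nt.M

open B R S W Un

variable {b : Zw} {C : AddSubgroup Pt}

theorem split_GMUL {D : AddSubgroup Pt} (hD : (D : Set Pt).Finite) (h : C ≤ D) (F : Pt → Qb) :
    ∏ T ∈ (els D).erase 0, F T = (∏ T ∈ (els C).erase 0, F T) * ∏ T ∈ els D \ els C, F T := by
  have hC : (C : Set Pt).Finite := hD.subset h
  rw [← prod_union (disjoint_left.2 fun T a c => (mem_sdiff.1 c).2 (mem_of_mem_erase a))]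
  congr 1
  ext T
  simp only [mem_union, mem_erase, mem_sdiff, mem_els hC, mem_els hD]
  refine ⟨fun a => (em (T ∈ C)).imp (fun c => ⟨a.1, c⟩) fun c => ⟨a.2, c⟩, ?_⟩
  rintro (a | a)
  exacts [⟨a.1, h a.2⟩, ⟨fun c => a.2 (c ▸ C.zero_mem), a.1⟩]

/-- the product over the neighbours for an arbitrary function -/
theorem nbs_GMUL {l : ℕ} {X : Finset Pt} (hC : ND C) (hl : l.Prime) (h3 : l ≠ 3) (hX : Nbs C l X)
    (F : Pt → Qb) : ∏ S ∈ X, ∏ T ∈ (els (C ⊔ AddSubgroup.zmultiples S)).erase 0, F T =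
      (∏ T ∈ (els C).erase 0, F T) ^ l * ∏ T ∈ (els (qC l C)).erase 0, F T := by
  obtain ⟨cX, nd, -⟩ := NPR_pf C l X hC hl h3 hX
  have l0 : (l : Zw) ≠ 0 := Nat.cast_ne_zero.2 hl.ne_zero
  have hQ := qC_fin l0 hC.fin
  have mq : ∀ T, T ∈ qC l C ↔ l • T ∈ C := fun T => by rw [mem_qC, Nat.cast_smul_eq_nsmul]
  have le : ∀ R ∈ X, C ⊔ AddSubgroup.zmultiples R ≤ qC l C := fun R hR =>
    sup_le (fun T hT => (mq T).2 (nsmul_mem hT l))
      (AddSubgroup.zmultiples_le_of_mem ((mq R).2 (hX.1 R hR).1))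
  have fin := fun R hR => (nd R hR).1.fin
  have un : els (qC l C) \ els C =
      X.biUnion fun R => els (C ⊔ AddSubgroup.zmultiples R) \ els C := by
    ext T
    simp only [mem_biUnion, mem_sdiff, mem_els hQ, mem_els hC.fin]
    refine ⟨fun a => ?_, fun ⟨R, hR, a, c⟩ => ⟨le R hR ((mem_els (fin R hR)).1 a), c⟩⟩
    obtain ⟨R, a1, a2⟩ := (hX.2 T ((mq T).1 a.1) a.2).exists
    exact ⟨R, a1, (mem_els (fin R a1)).2 a2, a.2⟩
  have dj : (X : Set Pt).PairwiseDisjoint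
      fun R => els (C ⊔ AddSubgroup.zmultiples R) \ els C := fun R hR R' hR' ne =>
    disjoint_left.2 fun T a c => by
      rw [mem_sdiff, mem_els (fin _ (by assumption)), mem_els hC.fin] at a c
      exact ne ((hX.2 T ((mq T).1 (le R hR a.1)) a.2).unique ⟨hR, a.1⟩ ⟨hR', c.1⟩)
  rw [prod_congr rfl fun R hR => split_GMUL (fin R hR) le_sup_left F, prod_mul_distrib, prod_const,
    cX, split_GMUL hQ fun T hT => (mq T).2 (nsmul_mem hT _), un, prod_biUnion dj, pow_succ,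
    mul_assoc]

theorem GPR_pf : GPR_st := fun _ _ _ hC hl h3 hX z => nbs_GMUL hC hl h3 hX fun T => yc T - z

theorem wq_GMUL {z : ℂ} {P : Pt} (h0 : P ≠ 0) (h : lg P - z ∈ L0.lattice) :
    wq L0 z = 2 * eC (yc P) + 1 := by
  rw [← wq_per (z := z) h, add_sub_cancel, (lg_xy h0).2, map_add, map_mul, map_ofNat, map_one]

/-- the product over a fibre is a linear form in the coordinates of the image -/
theorem lin_GMUL (hb : b ≠ 0) (v : Qb) : ∃ β c : ℂ, ∀ P : Pt, b • P ≠ 0 →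
    eC (∏ T ∈ tor b, (yc (P + T) - v)) =
      eC ((∏ T ∈ (tor b).erase 0, (yc T - v)) * (W.io b ^ 3 * yc (b • P))) +
        β * eC (xc (b • P)) + c := by
  have b0 : iz b ≠ 0 := fun e => hb (iz_inj (e.trans (map_zero _).symm))
  obtain ⟨L, hL⟩ : ∃ L, Sc (iz b) L L0 :=
    ⟨_, inv_inv (iz b) ▸ (scl_sc (iz b)⁻¹ (inv_ne_zero b0) L0).symm⟩
  have m : ∀ T : Pt, lg T ∈ L.lattice ↔ b • T = 0 := fun T => by
    rw [← hL.2, ← lg_mem, ← L0.lattice.add_mem_iff_right (lg_smul b T), sub_add_cancel]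
  have inj : ∀ s : Finset Pt, Set.InjOn Un.lg s := fun s T _ U _ e =>
    lg_sub_mem.1 (by rw [e, sub_self]; exact zero_mem _)
  have rp : Rep L0 L ((tor b).image Un.lg) := by
    refine ⟨fun z hz => (hL.2 z).1 (L0_mul b hz), fun x hx => ?_, fun y hy => ?_⟩
    · obtain ⟨T, hT, rfl⟩ := mem_image.1 hx
      exact (m T).2 ((mem_tor hb).1 hT)
    · obtain ⟨T, -, e⟩ := ex_lg (nn_pos hb) (z := y) (by
        have := L0_mul (star b) ((hL.2 y).2 hy)
        rwa [← mul_assoc, ← map_mul, mul_comm (star b), mul_star_nn, map_natCast] at this)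
      refine ⟨lg T, ⟨mem_image_of_mem _ ((mem_tor hb).2 ((m T).1 ?_)), ?_⟩, ?_⟩
      · simpa using add_mem ((hL.2 _).1 (L0_mul b e)) hy
      · simpa using neg_mem e
      · rintro x ⟨hx, e'⟩
        obtain ⟨U, -, rfl⟩ := mem_image.1 hx
        rw [lg_sub_mem.1 (show lg T - lg U ∈ L0.lattice by simpa using add_mem e e')]
  have p : Pole L0 3 (fun z => (wq L0 z - 1) / 2 - eC v) (-1) :=
    ((pole_q L0).lin (Pole.const (L := L0) 1).up.up.up (1 / 2) (-1 / 2 - eC v)).congr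
      (fun z => by ring) (by ring)
  obtain ⟨β, c, k⟩ := (rp.pole p).three
  rw [filter_image, prod_image (inj _),
    show (tor b).filter (fun T => Un.lg T ∉ L0.lattice) = (tor b).erase 0 by
      ext T
      simp [lg_mem, and_comm],
    prod_congr rfl (g := fun T => eC (yc T - v)) fun T hT => by
      rw [wq_GMUL (ne_of_mem_erase hT) (by simp), map_sub]
      ring, ← map_prod] at k
  refine ⟨β * iz b ^ 2, c + eC (∏ T ∈ (tor b).erase 0, (yc T - v)) * iz b ^ 3 / 2, fun P hP => ?_⟩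
  have k1 := k _ fun e => hP ((m P).1 e)
  have w : wp L (lg P) = iz b ^ 2 * eC (xc (b • P)) := by
    rw [← wp_lg (lg_smul b P), hL.wp_mul, mul_inv_cancel_left₀ (pow_ne_zero 2 b0)]
  have w' : wq L (lg P) = iz b ^ 3 * (2 * eC (yc (b • P)) + 1) := by
    rw [← wq_GMUL hP (lg_smul b P), hL.wq_mul, mul_inv_cancel_left₀ (pow_ne_zero 3 b0)]
  rw [prod_image (inj _), w, w', prod_congr rfl (g := fun T => eC (yc (P + T) - v)) fun T hT => by
    rw [wq_GMUL (P := P + T) (fun e => hP (by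
      simpa [(mem_tor hb).1 hT] using congrArg (b • ·) e)) (lg_add P T), map_sub]
    ring, ← map_prod] at k1
  rw [k1, map_mul, map_mul, map_pow, show eC (W.io b) = iz b from rfl]
  ring

/-- the fibres of the multiplication by `b` -/
theorem fib_GMUL {P Q : Pt} (hP : b • P ≠ 0) (hQ : b • Q ≠ 0) :
    ∏ T ∈ tor b, (yc (P + T) - yc Q) =
      (∏ T ∈ (tor b).erase 0, (yc T - yc Q)) * (W.io b ^ 3 * (yc (b • P) - yc (b • Q))) := by
  have hb := (smul_ne hP).1
  obtain ⟨β, c, k⟩ := lin_GMUL hb (yc Q)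
  have z : ∀ R : Pt, b • R ≠ 0 → β * eC (xc (b • R)) = 0 := fun R hR => by
    have e : b • (ω : Zw) • R = (ω : Zw) • b • R := smul_comm _ _ _
    have k1 := k ((ω : Zw) • R) (by
      rw [e, Ne, unit_smul (IsUnit.of_mul_eq_one (ω ^ 2) (by decide))]
      exact hR)
    rw [e, (xc_w _).1, (xc_w _).2, ← mul_prod_erase _ _ (zero_tor hb),
      ← prod_tor0_smul (b := ω) hb ⟨0, ω ^ 2, by rw [← www]; ring⟩] at k1
    simp only [add_zero, ← smul_add, (xc_w _).2] at k1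
    have k2 := k R hR
    rw [← mul_prod_erase _ _ (zero_tor hb), add_zero, k1, map_mul eC w3] at k2
    have := zc3_spec
    rw [zc3] at this
    linear_combination (-(eC w3 + 2) / 3) * k2 + β * eC (xc (b • R)) / 3 * this
  have k1 := k P hP
  have k2 := k Q hQ
  rw [prod_eq_zero (zero_tor hb) (by rw [add_zero, sub_self]), map_zero] at k2
  refine eC.injective ?_
  simp only [map_mul, map_sub] at k1 k2 ⊢
  linear_combination k1 - k2 + z P hP - z Q hQ

theorem qC_GMUL (h : (C : Set Pt).Finite) {Q : Pt} (hQ : b • Q ≠ 0) :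
    gy (qC b C) (yc Q) = (∏ T ∈ (tor b).erase 0, (yc T - yc Q)) ^ cd C *
      W.io b ^ (3 * (cd C - 1)) * gy C (yc (b • Q)) := by
  have hb := (smul_ne hQ).1
  choose q hq using smul_onto hb
  have z0 := (mem_els h).2 C.zero_mem
  have k := qC_prod hb h (fun U => if U = 0 then 0 else q U)
    (fun U => by split_ifs with e <;> simp [e, hq]) fun T => if T = 0 then (1 : Qb) else yc T - yc Q
  have er : ∀ (s : Finset Pt) (F : Pt → Qb), ∏ T ∈ s, (if T = 0 then 1 else F T) =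
      ∏ T ∈ s.erase 0, F T := fun s F => by
    rw [← prod_erase s (a := 0) (by simp)]
    exact prod_congr rfl fun T hT => if_neg (ne_of_mem_erase hT)
  rw [er, ← mul_prod_erase _ _ z0] at k
  simp only [if_true, zero_add, er] at k
  rw [gy, k, prod_congr rfl fun U hU => (prod_congr rfl fun T hT => by
      rw [if_neg (ne_of_mem_erase hU), if_neg fun e => ne_of_mem_erase hU (by
        simpa [hq, (mem_tor hb).1 hT] using congrArg (b • ·) e)]).trans
      (fib_GMUL (by rw [hq]; exact ne_of_mem_erase hU) hQ)]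
  simp only [hq, prod_mul_distrib, prod_const, gy, cd, ← card_erase_add_one z0]
  rw [Nat.add_sub_cancel]
  ring

theorem bot_GMUL (hb : b ≠ 0) : els (qC b ⊥) = tor b := by
  ext T
  rw [mem_els (qC_fin hb (by simp)), mem_qC, AddSubgroup.mem_bot, mem_tor hb]

theorem card_GMUL (hb : Pry b) {T : Pt} (hT : T ∈ (tor b).erase 0) :
    (((tor b).erase 0).filter fun U => yc U = yc T).card = 3 := by
  obtain ⟨h0, h1⟩ := (mem_tor0 hb.ne).1 hT
  have x0 : xc T ≠ 0 := fun e =>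
    h0 (cop_smul (pw_prime.coprime_iff_not_dvd.2 hb.pw) ((PI_ok.2.1 T).2 e) h1)
  have mw : ∀ U ∈ (tor b).erase 0, (ω : Zw) • U ∈ (tor b).erase 0 := fun U hU => by
    rw [mem_tor0 hb.ne] at hU ⊢
    exact ⟨by rw [Ne, unit_smul (IsUnit.of_mul_eq_one (ω ^ 2) (by decide))]; exact hU.1,
      by rw [smul_comm, hU.2, smul_zero]⟩
  have t1 := mw T hT
  have t2 := mw _ t1
  have n1 := w3_ne_one
  have n2 := w3_sq_ne
  refine card_eq_three.2 ⟨T, (ω : Zw) • T, (ω : Zw) • (ω : Zw) • T, fun e => ?_, fun e => ?_,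
    fun e => ?_, Finset.ext fun U => ⟨fun hU => ?_, fun hU => ?_⟩⟩
  · have := congrArg xc e
    rw [(xc_w _).1] at this
    exact n1 (mul_right_cancel₀ x0 (by linear_combination -this))
  · have := congrArg xc e
    rw [(xc_w _).1, (xc_w _).1] at this
    exact n2.1 (mul_right_cancel₀ x0 (by linear_combination -this))
  · have := congrArg xc e
    rw [(xc_w _).1, (xc_w _).1, (xc_w _).1] at this
    exact n2.2 (mul_right_cancel₀ x0 (by linear_combination -this))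
  · obtain ⟨u, e⟩ := mem_filter.1 hU
    have u0 := ne_of_mem_erase u
    have k : (xc U - xc T) * (xc U - w3 * xc T) * (xc U - w3 * (w3 * xc T)) = 0 := by
      have a := xy_eq U
      rw [e, xy_eq] at a
      linear_combination -a + (xc U * xc T ^ 2 * w3 - xc U ^ 2 * xc T) * w3_spec -
        xc T ^ 3 * w3_cube
    simp only [mul_eq_zero, sub_eq_zero] at k
    simp only [mem_insert, mem_singleton]
    rcases k with (k | k) | k
    · exact .inl (pt_ext u0 h0 k e)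
    · exact .inr (.inl (pt_ext u0 (ne_of_mem_erase t1) (by rw [(xc_w _).1, k])
        (by rw [(xc_w _).2, e])))
    · exact .inr (.inr (pt_ext u0 (ne_of_mem_erase t2) (by rw [(xc_w _).1, (xc_w _).1, k])
        (by rw [(xc_w _).2, (xc_w _).2, e])))
  · simp only [mem_insert, mem_singleton] at hU
    rcases hU with rfl | rfl | rfl
    exacts [mem_filter.2 ⟨hT, rfl⟩, mem_filter.2 ⟨t1, (xc_w _).2⟩,
      mem_filter.2 ⟨t2, by rw [(xc_w _).2, (xc_w _).2]⟩]

theorem GMUL_pf : GMUL_st := by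
  intro b C P hb hC hP
  refine ⟨by rw [qC_GMUL hC.fin hP, ← bot_GMUL hb.ne, ← gy],
    ∏ v ∈ ((tor b).erase 0).image yc, (v - yc P), ?_, fun g hg e => ?_⟩
  · rw [gy, bot_GMUL hb.ne, prod_comp (fun v => v - yc P) yc, ← prod_pow]
    refine prod_congr rfl fun v hv => ?_
    obtain ⟨T, hT, rfl⟩ := mem_image.1 hv
    rw [card_GMUL hb hT]
  · have i : (((tor b).erase 0).image yc).image g = ((tor b).erase 0).image yc := by
      refine eq_of_subset_of_card_le (fun v hv => ?_) (card_image_of_injective _ g.injective).ge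
      obtain ⟨_, hu, rfl⟩ := mem_image.1 hv
      obtain ⟨T, hT, rfl⟩ := mem_image.1 hu
      rw [mem_tor0 hb.ne] at hT
      exact mem_image.2 ⟨gal g T, (mem_tor0 hb.ne).2 ⟨fun a => hT.1 ((gal_ne g).1 a),
        by rw [← gal_smul hg, hT.2, map_zero]⟩, (xc_gal g T).2⟩
    conv_rhs => rw [← i, prod_image fun _ _ _ _ a => g.injective a]
    rw [map_prod]
    refine prod_congr rfl fun v _ => ?_
    rw [map_sub, ← (xc_gal g P).2, e]

end Pool.Agent.MP_e23604_nt.M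

end
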