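import Pool.Agent.Mg.Fe23604m.G5a860c
import Pool.Agent.Mg.Fe23604m.G6e73ea
import Pool.Agent.Mg.Fe23604m.G160902

set_option linter.all false

/-!
The relation at a split prime and the class of prime conductor.
-/

set_option autoImplicit false

open Finset QuadraticAlgebra
open scoped Classical

namespace Pool.Agent.MP_e23604_nt.N

open B R S W

theorem fix_SPL (χ : GQ → ZMod 3) {g : GQ} (hg : g ∈ GK) (P : Pt) (h : pw • P = 0) :
    eta χ g P = P := by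
  rw [eta_apply, PI_ok.2.2.2.2 g hg P (dvd_smul h pw_dvd3), smul_congr h (b := 1)
    (pw_w.trans (by simpa using sub_dvd_pow_sub_pow (ω : Zw) 1 (χ g).val)), one_smul]

theorem nine_SPL {h : GQ} (hh : h ∈ UM (9 * pw)) {z : Qb} (hz : z ^ 9 = 1) : h z = z := by
  have M0 : (9 * pw : Zw) ≠ 0 := mul_ne_zero (by decide) pw_ne
  have h9 : ((9 : ℕ) : Zw) ∣ 9 * pw := by simp
  refine (cy_eq_one (by norm_num)).1 ?_ z hz
  rw [CYC1_of CHB_ok KM_ok 9 _ M0 h9 h hh.1,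
    nn_congr_ACYC (h9.trans (((PS_ok _ M0).1 h hh.1).2.2.2.1.1 hh)), nn_one, Nat.cast_one]

theorem rt_SPL {g : GQ} {x : Qb} (h0 : x ≠ 0) (h : g x = x) :
    g (rt 3 x) = w3 ^ (X.kw x g).val * rt 3 x := by
  have r0 := rt_ne three_ne_zero h0
  rw [X.kw, pow_lg (by rw [div_pow, ← map_pow, rt_pow three_ne_zero, h, div_self h0]),
    div_mul_cancel₀ _ r0]

theorem wsum_SPL {ι : Type} (s : Finset ι) (a : ι → ZMod 3) :
    w3 ^ (∑ i ∈ s, a i).val = ∏ i ∈ s, w3 ^ (a i).val := by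
  induction s using Finset.induction_on with
  | empty => simp
  | insert i s hi ih => rw [sum_insert hi, prod_insert hi, w3_add, ih]

theorem kw_SPL {h : GQ} (hh : h ∈ UM (9 * pw)) {ι : Type} [Fintype ι] (x : ι → Qb)
    (x₁ x₂ x₀ : Qb) {p : ℕ} (hp : p % 3 = 1) (h0 : ∀ i, x i ≠ 0 ∧ h (x i) = x i)
    (h1 : x₁ ≠ 0 ∧ h x₁ = x₁) (h2 : x₂ ≠ 0 ∧ h x₂ = x₂) (h3 : x₀ ≠ 0 ∧ h x₀ = x₀)
    (e : ((∏ i, x i) * x₁ * x₂) ^ 6 = (x₀ ^ (p + 1)) ^ 6) :
    ∑ i, X.kw (x i) h + X.kw x₁ h + X.kw x₂ h = 2 * X.kw x₀ h := by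
  have t0 : (3 : ℕ) ≠ 0 := three_ne_zero
  obtain ⟨a, ha⟩ : ∃ a, a = (∏ i, rt 3 (x i)) * rt 3 x₁ * rt 3 x₂ := ⟨_, rfl⟩
  obtain ⟨b, hb⟩ : ∃ b, b = rt 3 x₀ ^ (p + 1) := ⟨_, rfl⟩
  have a0 : a ≠ 0 := ha ▸ mul_ne_zero (mul_ne_zero (prod_ne_zero_iff.2 fun i _ =>
    rt_ne t0 (h0 i).1) (rt_ne t0 h1.1)) (rt_ne t0 h2.1)
  have b0 : b ≠ 0 := hb ▸ pow_ne_zero _ (rt_ne t0 h3.1)
  have a3 : a ^ 3 = (∏ i, x i) * x₁ * x₂ := by
    rw [ha, mul_pow, mul_pow, ← prod_pow, rt_pow t0, rt_pow t0]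
    simp only [rt_pow t0]
  have b3 : b ^ 3 = x₀ ^ (p + 1) := by rw [hb, ← pow_mul, mul_comm, pow_mul, rt_pow t0]
  have ga : h a = w3 ^ (∑ i, X.kw (x i) h + X.kw x₁ h + X.kw x₂ h).val * a := by
    rw [w3_add, w3_add, wsum_SPL, ha, map_mul, map_mul, map_prod, rt_SPL h1.1 h1.2,
      rt_SPL h2.1 h2.2, prod_congr rfl fun i _ => rt_SPL (h0 i).1 (h0 i).2, prod_mul_distrib]
    ring
  have gb : h b = w3 ^ (X.kw x₀ h + X.kw x₀ h).val * b := by
    rw [hb, map_pow, rt_SPL h3.1 h3.2, mul_pow, w3_add, ← sq, ← pow_mul, mul_comm _ (p + 1),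
      pow_mul, pow_eq_pow_mod (p + 1) w3_cube, show (p + 1) % 3 = 2 by omega, ← pow_mul,
      mul_comm 2, pow_mul]
  have z9 : ((a / b) ^ 2) ^ 9 = 1 := by
    rw [show ((a / b) ^ 2) ^ 9 = (a ^ 3) ^ 6 / (b ^ 3) ^ 6 by ring, a3, b3, e,
      div_self (pow_ne_zero _ (pow_ne_zero _ h3.1))]
  have k := nine_SPL hh z9
  rw [map_pow, map_div₀, ga, gb] at k
  generalize ∑ i, X.kw (x i) h + X.kw x₁ h + X.kw x₂ h = s at k ⊢
  generalize X.kw x₀ h = t at k ⊢
  have w0 : w3 ^ (t + t).val ≠ 0 := pow_ne_zero _ w3_ne_zero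
  have k1 : w3 ^ (s + s).val = w3 ^ (t + t + (t + t)).val := by
    rw [w3_add s, w3_add (t + t)]
    generalize w3 ^ (t + t).val = y at k w0 ⊢
    field_simp at k
    linear_combination k
  exact (show ∀ s t : ZMod 3, s + s = t + t + (t + t) → s = 2 * t by decide) s t (w3_inj k1)

section

variable {R : Type} [CommRing R] {φ : Zw →+* R}

theorem psi_SPL (h : φ pw = 0) : ∃ ψ : ZMod 3 →+* R, ∀ a : ZMod 3, (a.val : R) = ψ a := by
  have h3 : ((3 : ℕ) : R) = 0 := by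
    have := congrArg φ pw_sq
    rw [map_pow, h, map_neg, map_ofNat, zero_pow two_ne_zero, zero_eq_neg] at this
    exact_mod_cast this
  exact ⟨ZMod.castHom (ringChar.dvd h3) R, fun a => by rw [ZMod.natCast_val, ZMod.castHom_apply]⟩

theorem co_SPL (hDL : DL_st) (h : φ pw = 0) (k : ℕ) :
    φ (co (gq pw) (k • T0)) = k * φ (co (gq pw) T0) := by
  rw [← Nat.cast_smul_eq_nsmul Zw, (hDL R φ pw pw_ne h).2.2.2.1 _ _ pw_T0, map_natCast]

theorem unit_SPL (hDL : DL_st) (h : φ pw = 0) : IsUnit (φ (co (gq pw) T0)) := by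
  have hG := (hDL R φ pw pw_ne h).1
  have e := co_spec ((CYG_ok pw pw_ne).2.1 _ hG T0 pw_T0)
  rcases mod_pw (co (gq pw) T0) with h1 | ⟨c, h1⟩ | ⟨c, h1⟩
  · exact absurd (e.trans ((hG _).2 h1)) T0_ne
  · have := congrArg φ h1
    rw [map_mul, h, zero_mul, map_sub, map_one, sub_eq_zero] at this
    exact this ▸ isUnit_one
  · have := congrArg φ h1
    rw [map_mul, h, zero_mul, map_add, map_one, add_eq_zero_iff_eq_neg] at this
    exact this ▸ isUnit_one.neg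

theorem dlT_SPL (hDL : DL_st) (hP : X.KPI_st) (h : φ pw = 0) (χ : GQ → ZMod 3) {g : GQ}
    (hg : g ∈ GK) : dl φ pw χ g T0 = (-χ g).val * φ (co (gq pw) T0) := by
  have e := (hDL R φ pw pw_ne h).2.1 T0
  rw [dl, (hP χ g _ hg (by rw [e, fix_SPL χ hg _ pw_T0])).1 e, co_SPL hDL h]

theorem dlP_SPL (hDL : DL_st) (hP : X.KPI_st) (h : φ pw = 0) (χ : GQ → ZMod 3) {g : GQ}
    (hg : g ∈ GK) (h0 : χ g = 0) {P : Pt} (hx : xc P ≠ 0) (hf : eta χ g P = P) :
    dl φ pw χ g P = (-X.kw (yc P) g).val * φ (co (gq pw) T0) ∧ yc P ≠ 0 ∧ g (yc P) = yc P := by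
  have e := (hDL R φ pw pw_ne h).2.1 P
  refine ⟨?_, fun e0 => hx ?_, ?_⟩
  · rw [dl, (hP χ g _ hg (by rw [e, hf])).2 (by rw [e]; rintro rfl; exact hx xc_zero)
      (by rw [e]; rintro rfl; exact hx xc_T0.1), co_SPL hDL h, e, h0, zero_sub]
  · have := xy_eq P
    rw [e0] at this
    exact (pow_eq_zero_iff three_ne_zero).1 (by linear_combination -this)
  · rw [eta_apply, h0, ZMod.val_zero, pow_zero, one_smul] at hf
    rw [← (xc_gal g P).2, hf]

theorem kt_SPL (H : HS) (M : Zw) {w w' : Wt R} {n : Finset ℕ} (e : ∀ l ∈ n, w l = w' l) (g : GQ) :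
    H.kt φ M w n g = H.kt φ M w' n g :=
  sum_congr rfl fun i _ => by rw [wp, wp, prod_congr rfl fun l hl => by rw [e l hl]]

end

theorem Cn_SPL {n : Finset ℕ} {i i' : JJ} (e : ∀ l ∈ n, i l = i' l) : Cn n i = Cn n i' :=
  sup_congr rfl fun l hl => by rw [e l hl]

theorem SPL_pf (hDL : DL_st) (hKT : KT_st) (hCN : CN_st) (hS : SUM_st) (hP : X.KPI_st)
    (hW : X.KW_st) : SPL_st := by
  intro H R _ φ w u n ϖ hN hφ hn hSh hϖ hp h3 hpn hw h hh
  have p1 : nn ϖ % 3 = 1 := nn_mod3 hϖ.2.pw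
  have hn' : Pn (insert (nn ϖ) n) := fun l hl => by
    rcases mem_insert.1 hl with rfl | hl
    exacts [⟨hp, h3⟩, hn l hl]
  have es : sd (insert (nn ϖ) n) = sd n := by
    rw [sd, prod_insert hpn, ← ZMod.natCast_mod, p1, Nat.cast_one, one_mul, sd]
  have K := fun w => hKT H R φ pw w n pw_ne hφ hn
  have K' := hKT H R φ pw w _ pw_ne hφ hn'
  have hh0 : H1 pw n h := ⟨hh.1, fun l hl => hh.2 l (mem_insert_of_mem hl)⟩
  obtain ⟨a2, c0⟩ := (K w).2.2.2.2.1 h hh0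
  have a1 := (K w).2.2.2.2.2.1 _ h a2
  obtain ⟨f', k', -⟩ := K'.2.2.2.2.2.2.2.2 h (K'.2.2.2.2.2.1 _ h (K'.2.2.2.2.1 h hh).1)
  have f := ((K w).2.2.2.2.2.2.2.2 h a1).1
  have k := fun w => ((K w).2.2.2.2.2.2.2.2 h a1).2.1
  rw [es] at f' k'
  obtain ⟨ψ, hψ⟩ := psi_SPL hφ
  have cp : ∀ l ∈ n, IsCoprime ϖ l ∧ IsCoprime (star ϖ) l := fun l hl => by
    have c : IsCoprime (ϖ * star ϖ) (l : Zw) := by
      rw [mul_star_nn]
      exact Nat.Coprime.cast ((Nat.coprime_primes hp (hn l hl).1).2 fun e => hpn (e ▸ hl))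
    exact ⟨c.of_mul_left_left, c.of_mul_left_right⟩
  have eC : ∀ (i : JJ) a, Cn (insert (nn ϖ) n) (Function.update i (nn ϖ) a) =
      Cn n i ⊔ Ln (nn ϖ) a := fun i a => by
    rw [Cn, sup_insert, Function.update_self, sup_comm]
    exact congrArg (· ⊔ _) (Cn_SPL fun l hl => Function.update_of_ne (ne_of_mem_of_not_mem hl hpn) _ _)
  have eW : ∀ (i : JJ) a, wp w (insert (nn ϖ) n) (Function.update i (nn ϖ) a) = wp w n i :=
    fun i a => by
      rw [wp, prod_insert hpn, hw, one_mul]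
      exact prod_congr rfl fun l hl => by rw [Function.update_of_ne (ne_of_mem_of_not_mem hl hpn)]
  have D : ∀ i : JJ, _ := fun i =>
    dlP_SPL hDL hP hφ _ a1.1 c0 (hN.x0 _ _ (hCN n i hn).2.1) (f i)
  have D' : ∀ (i : JJ) a, _ := fun i a => dlP_SPL hDL hP hφ _ a1.1 c0
    (hN.x0 _ _ (hCN _ (Function.update i (nn ϖ) a) hn').2.1) (f' _)
  simp only [eC] at D'
  have key : ∀ i : JJ, ∑ a, dl φ pw (H.χ (sd n)) h (H.y (Cn n i ⊔ Ln (nn ϖ) a)) =
      2 * dl φ pw (H.χ (sd n)) h (H.y (Cn n i)) -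
        dl φ pw (H.χ (sd n)) h (H.y (Cn n (i + -Lu ϖ))) -
        dl φ pw (H.χ (sd n)) h (H.y (Cn n (i + Lu ϖ))) := fun i => by
    have C := hCN n i hn
    have e := hN.spl _ _ ϖ C.2.1 hϖ hp (C.2.2.1 _ hp hpn)
    rw [C.2.2.2.2 ϖ fun l hl => (cp l hl).1, C.2.2.2.2 _ fun l hl => (cp l hl).2,
      Cn_SPL (i := i + Lu (star ϖ)) (i' := i + -Lu ϖ) fun l hl => congrArg (i l + ·)
        ((KIT_pf l (hn l hl).1 (hn l hl).2).bar ϖ (cp l hl).1)] at e
    have e1 := congrArg ψ (kw_SPL hh.1 _ _ _ _ p1 (fun a => (D' i a).2) (D _).2 (D _).2 (D _).2 e)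
    rw [map_add, map_add, map_sum, map_mul, map_ofNat] at e1
    simp only [(D _).1, (D' _ _).1, hψ, map_neg, ← sum_mul, sum_neg_distrib]
    linear_combination -φ (co (gq pw) T0) * e1
  have shf : ∀ b : JJ, ∑ i : Jg n, wp w n i.1 * dl φ pw (H.χ (sd n)) h (H.y (Cn n (i.1 + -b))) =
      wp u n b * H.kt φ pw w n h := fun b => by
    rw [← hSh.shf h a2 b, k (sh w b), ← (hS R n fun i =>
      wp w n i * dl φ pw (H.χ (sd n)) h (H.y (Cn n (i + -b)))).2.1 (fun i i' e => by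
        rw [wp, wp, prod_congr rfl fun l hl => by rw [e l hl],
          Cn_SPL (i := i + -b) (i' := i' + -b) fun l hl => congrArg (· + -b l) (e l hl)]) b]
    exact sum_congr rfl fun i _ => by rw [add_neg_cancel_right]; rfl
  have s1 := shf (Lu ϖ)
  have s2 := shf (-Lu ϖ)
  rw [neg_neg] at s2
  rw [k', (hS R n fun i =>
    wp w (insert (nn ϖ) n) i * dl φ pw (H.χ (sd n)) h (H.y (Cn (insert (nn ϖ) n) i))).1 _ hpn,
    sub_mul, sub_mul, ← s1, ← s2, k w, mul_sum, ← sum_sub_distrib, ← sum_sub_distrib]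
  refine sum_congr rfl fun i _ => ?_
  simp only [eC, eW]
  rw [← mul_sum, key]
  ring

theorem tel_SPL {R : Type} [CommRing R] {q m : ℕ} (hm : ml q / 3 = m) (D : ZMod (ml q) → R) :
    ∑ a, th (fun _ => (1 : R)) (a + 1) * D a - ∑ a, th (fun _ => (1 : R)) a * D a =
      D (-1) - D (m - 1) := by
  have hl : m ≤ ml q := hm ▸ Nat.div_le_self _ _
  rw [← Equiv.sum_comp (Equiv.subRight (1 : ZMod (ml q))), ← sum_sub_distrib]
  simp only [Equiv.subRight_apply, sub_add_cancel, ← mul_sub]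
  simp only [th, hm, ite_mul, one_mul, zero_mul]
  rw [← sum_filter, sum_nbij' (t := range m) (g := fun k : ℕ => D (k - 1) - D ((k + 1 : ℕ) - 1))
    (fun a => a.val) (fun k => (k : ZMod (ml q))) (by simp) (fun k hk => by
      simpa [ZMod.val_cast_of_lt ((mem_range.1 hk).trans_le hl)] using hk) (by simp)
    (fun k hk => ZMod.val_cast_of_lt ((mem_range.1 hk).trans_le hl)) (by simp),
    sum_range_sub' fun k : ℕ => D (k - 1), Nat.cast_zero, zero_sub]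

theorem one_SPL {A : Type} [AddCommMonoid A] (q : ℕ) (Φ : ZMod (ml q) → A) :
    ∑ i : Jg {q}, Φ (i.1 q) = ∑ a, Φ a :=
  Fintype.sum_bijective (fun i : Jg {q} => i.1 q) ⟨fun i j e => Subtype.ext (funext fun l => by
    by_cases hl : l = q
    · subst hl
      exact e
    · exact (i.2 l (by simpa using hl)).trans (j.2 l (by simpa using hl)).symm),
    fun a => ⟨⟨Function.update 0 q a, fun l hl => Function.update_of_ne (by simpa using hl) _ _⟩,
      Function.update_self ..⟩⟩ _ _ fun _ => rfl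

theorem BAS_pf (hLU : LU_st) (hDL : DL_st) (hAL : AL_st) (hKT : KT_st) (hCN : CN_st)
    (hP : X.KPI_st) : BAS_st := by
  intro H R _ φ w V τ hN hφ h2 hτ h1 hw
  have hq := V.hl.out
  have hτ' := V.D_le (V.I_le hτ)
  generalize V.l = q at *
  have h3 : q ≠ 3 := by omega
  have hn : Pn {q} := fun l hl => by
    rw [mem_singleton.1 hl]
    exact ⟨hq, h3⟩
  have es : sd {q} = 2 := by
    rw [sd, prod_singleton, ← ZMod.natCast_mod, h2, Nat.cast_ofNat]
  have eC : ∀ i, Cn {q} i = Ln q (i q) := fun i => sup_singleton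
  have K := fun w => hKT H R φ pw w _ pw_ne hφ hn
  have L := hLU q hq h3
  obtain ⟨m, hm⟩ := L.1
  have hm' : ml q / 3 = m := by omega
  have act := (KIT_pf q hq h3).act ω
    (by simpa using (isCoprime_mul_unit_left_left w_unit 1 (q : Zw)).2 isCoprime_one_left)
  have Dg := fun g hg => ((hDL R φ pw pw_ne hφ).2.2.2.2.2.2.2.2 (H.χ (sd {q})) g hg).2.2
    (fix_SPL _ hg)
  have cm : ∀ w : Wt R, ∀ g ∈ GK, ∀ g' ∈ GK, H.kt φ pw w {q} (g * g') =
      H.kt φ pw w {q} g + H.kt φ pw (sh w (Av g)) {q} g' := fun w g hg g' hg' => by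
    rw [(K w).2.2.1 g hg g' hg', (Dg g hg).1, one_mul]
  have c0 : ∀ g, Al q g = 0 → ∀ g', H.kt φ pw (sh w (Av g)) {q} g' = H.kt φ pw w {q} g' :=
    fun g e => kt_SPL H pw fun l hl => funext fun i => by
      obtain rfl := mem_singleton.1 hl
      rw [sh, Av, e, add_zero]
  have main : ∀ g ∈ GK, Al q g = 0 → H.kc φ pw w {q} τ g =
      dl φ pw (H.χ (sd {q})) g (H.y (Ln q (-1))) - dl φ pw (H.χ (sd {q})) g (H.y (Ln q (m - 1))) ∧
      (∀ a, dl φ pw (H.χ (sd {q})) g (H.y (Ln q (a + lu q ω))) =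
        dl φ pw (H.χ (sd {q})) g (H.y (Ln q a)) + φ (co (gq pw) T0) * (kum 3 g).val) :=
    fun g hg e => by
      have g0 : H.H0 pw {q} g := ⟨hg, fix_SPL _ hg, fun l hl => mem_singleton.1 hl ▸ e⟩
      have k := fun w => ((K w).2.2.2.2.2.2.2.2 g g0).2.1
      refine ⟨?_, fun a => ?_⟩
      · have k1 := (K w).2.2.2.2.2.2.1 τ hτ' g hg
        have e1 := cm w _ k1.1.1 _ (GK.mul_mem hg hτ')
        rw [show τ * g * τ⁻¹ * g⁻¹ * (g * τ) = τ * g by group, c0 _ (k1.2 q (mem_singleton_self q)),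
          cm w τ hτ' g hg, cm w g hg τ hτ', c0 g e, k w, k (sh w (Av τ))] at e1
        simp only [wp, prod_singleton, eC, sh, Av, h1, hw] at e1
        rw [one_SPL q fun a => th (fun _ => (1 : R)) (a + 1) *
          dl φ pw (H.χ (sd {q})) g (H.y (Ln q a)), one_SPL q fun a => th (fun _ => (1 : R)) a *
          dl φ pw (H.χ (sd {q})) g (H.y (Ln q a))] at e1
        rw [HS.kc]
        linear_combination tel_SPL hm' (fun a => dl φ pw (H.χ (sd {q})) g (H.y (Ln q a))) - e1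
      · have f := ((K w).2.2.2.2.2.2.2.2 g g0).1 (Function.update 0 q a)
        have F := (hCN _ (Function.update 0 q a) hn).2.1
        rw [eC, Function.update_self] at f F
        have φw : φ ω = 1 := by
          obtain ⟨c, hc⟩ := pw_w
          rw [← sub_eq_zero, ← map_one φ, ← map_sub, hc, map_mul, hφ, zero_mul]
        rw [← act, H.ori _ _ F, hN.io1, ZMod.val_one, one_smul,
          ((Dg g hg).2.2.1 _ _ (by rw [eta_smul _ hg, f]) (fix_SPL _ hg _ pw_T0)).1,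
          (Dg g hg).2.2.2.1 _ _ f, map_pow, φw, one_pow, one_mul, dlT_SPL hDL hP hφ _ hg, es,
          hN.c2 g hg, mul_comm, show ∀ a : ZMod 3, -(2 * a) = a by decide]
  have hu := unit_SPL hDL hφ
  have z0 : (3 * m : ZMod (ml q)) = 0 := by
    rw [← ZMod.natCast_self (ml q)]
    exact_mod_cast congrArg (Nat.cast (R := ZMod (ml q))) hm.symm
  rcases L.2.2.2.2.1 with e | e
  · refine ⟨_, hu.neg, fun g hg e0 => ?_⟩
    have e1 : (m - 1 : ZMod (ml q)) = -1 + lu q ω := by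
      rw [← ZMod.natCast_zmod_val (lu q ω), e, hm']
      ring
    rw [(main g hg e0).1, e1, (main g hg e0).2]
    ring
  · refine ⟨_, hu, fun g hg e0 => ?_⟩
    have e1 : (-1 : ZMod (ml q)) = m - 1 + lu q ω := by
      rw [← ZMod.natCast_zmod_val (lu q ω), e, hm']
      push_cast
      linear_combination -z0
    rw [(main g hg e0).1, e1, (main g hg e0).2]
    ring

end Pool.Agent.MP_e23604_nt.N
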