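import Pool.Agent.Mg.Fe23604m.G463337

set_option linter.all false

/-! Cocycles with prescribed values at the generators, without the relation at one inert prime. -/

set_option autoImplicit false

open Finset
open scoped Classical

namespace Pool.Agent.MP_e23604_nt.V

open B R S W

/-- the four elements detect the cubic characters at three -/
def D4 (y : Fin 4 → GQ) : Prop := (∀ i, y i ∈ V3.D) ∧ ∀ (A : Type) [AddCommGroup A]
  (a : GQ → A), Adt V3.D a → Lc V3.D a → (∀ g ∈ V3.D, 3 • a g = 0) → (∀ i, a (y i) = 0) →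
  ∀ g ∈ V3.D, a g = 0

/-- the relation at `q` follows from the other relations and a local solution at three -/
def KOQ_st : Prop := ∀ (x₁ x₂ : GQ) (T : Finset Zw) (V : Zw → Plc) (σ τ : Zw → GQ) (q : Zw)
  (φ : GQ) (y : Fin 4 → GQ), x₁ ∈ GK → x₂ ∈ GK → W.cy 9 x₁ ≠ 1 → W.cy 9 x₂ = 1 →
  km 3 x₂ (W.io pw) ≠ 0 → Tm T V σ τ → q ∈ T → Y.In (V q) φ → σ q = φ ^ 2 → D4 y →
  ∀ (R : Type) [CommRing R] [Finite R] (θ κ : GQ → R) (v₁ v₂ : R) (v s : Zw → R),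
    IsNilpotent (3 : R) → Mu GK θ → (∀ g ∈ GK, IsNilpotent (θ g - 1)) →
    Unr (3 * ∏ ϖ ∈ T, ϖ) (fun g => θ g - 1) → θ (σ q) = 1 → v q = 0 → Co θ V3.D κ →
    (∀ ϖ ∈ T, ϖ ≠ q →
      (1 - θ (τ ϖ)) * s ϖ + (θ (σ ϖ) - ∑ i ∈ range (nn ϖ), θ (τ ϖ) ^ i) * v ϖ = 0) →
    (∀ (R' : Type) [CommRing R'] (π : R →+* R') (c : GQ → R'), Co (fun g => π (θ g)) GK c →
      Unr (3 * ∏ ϖ ∈ T, ϖ) c → c x₁ = π v₁ → c x₂ = π v₂ → (∀ ϖ ∈ T, c (τ ϖ) = π (v ϖ)) →
      (∀ ϖ ∈ T, c (σ ϖ) = π (s ϖ)) ∧ ∀ i, c (y i) = π (κ (y i))) →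
    (1 - θ (τ q)) * s q = 0 ∧ ∃ c, Co θ GK c ∧ Unr (3 * ∏ ϖ ∈ T, ϖ) c ∧ c x₁ = v₁ ∧ c x₂ = v₂ ∧
      (∀ ϖ ∈ T, c (τ ϖ) = v ϖ) ∧ (∀ ϖ ∈ T, c (σ ϖ) = s ϖ) ∧ ∀ g ∈ V3.D, c g = κ g

/-- cocycles at three are determined by four values -/
theorem D4.ext {y : Fin 4 → GQ} (hy : D4 y) {R : Type} [CommRing R] [Finite R] {θ c c' : GQ → R}
    (h3 : IsNilpotent (3 : R)) (hu : ∀ g ∈ V3.D, IsNilpotent (θ g - 1)) (h : Co θ V3.D c)
    (h' : Co θ V3.D c') (e : ∀ i, c (y i) = c' (y i)) : ∀ g ∈ V3.D, c g = c' g := by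
  obtain ⟨k, hk⟩ := IsNoetherianRing.isNilpotent_nilradical R
  have h1 := h.subK h'
  exact fun g hg => sub_eq_zero.1 (spn_LOCW hy.2 (m := nilradical R) (b := ⊥) (n := k) (lam := θ)
    (x := fun g => c g - c' g) h3 hk.le hu (h1.1.map _)
    (fun g hg k hk => sub_eq_zero.2 (h1.2 g hg k hk)) (fun i => sub_eq_zero.2 (e i)) g hg)

theorem KOQ_pf (hI : Y.RCI_st) : KOQ_st := by
  intro x₁ x₂ T V σ τ q φ y h1 h2 h3 h4 h5 hm hq hφ hσ hy R _ _ θ κ v₁ v₂ v s n3 hθ hu hr t1 v0 hκ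
    hrow hU
  have hK := KOCH_pf TPR_ok R2_ok KGEN_ok CNJ_ok PLK_ok LIN_ok x₁ x₂ T V σ τ h1 h2 h3 h4 h5 hm
  have hP := PLK_ok
  set b := 3 * ∏ ϖ ∈ T, ϖ
  suffices hz : (1 - θ (τ q)) * s q = 0 by
    obtain ⟨c, c1, c2, c3, c4, c5⟩ := hK R θ v₁ v₂ v s n3 hθ hu hr (fun ϖ h => by
      by_cases e : ϖ = q
      · rw [e, hz, v0, mul_zero, add_zero]
      · exact hrow ϖ h e) fun R' _ π c a1 a2 a3 a4 a5 => (hU R' π c a1 a2 a3 a4 a5).1
    obtain ⟨u1, u2⟩ := hU R (RingHom.id R) c c1 c2 c3 c4 c5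
    exact ⟨hz, c, c1, c2, c3, c4, c5, u1,
      hy.ext n3 (fun g hg => hu g (V3.D_le hg)) (c1.monoK V3.D_le) hκ u2⟩
  set z := (1 - θ (τ q)) * s q with hzd
  by_contra hz
  obtain ⟨n, hn3, hnu⟩ := koch_unip R n3
  let I : Ideal R := Ideal.span {z}
  let π := Ideal.Quotient.mk I
  have : Finite (R ⧸ I) := Finite.of_surjective _ Ideal.Quotient.mk_surjective
  have hI0 : ∀ {x}, π x = 0 ↔ x ∈ I := Ideal.Quotient.eq_zero_iff_mem
  have hzI : z ∈ I := Ideal.mem_span_singleton_self z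
  have n3' : IsNilpotent (3 : R ⧸ I) := map_ofNat π 3 ▸ n3.map π
  have hu' : ∀ g ∈ GK, IsNilpotent (π (θ g) - 1) := fun g hg => by simpa using (hu g hg).map π
  obtain ⟨c', k1, k2, k3, k4, k5⟩ := hK (R ⧸ I) (fun g => π (θ g)) (π v₁) (π v₂)
    (fun ϖ => π (v ϖ)) (fun ϖ => π (s ϖ)) n3' (hθ.mapK π) hu'
    (fun W hW t ht => by simpa using congrArg π (hr W hW t ht))
    (fun ϖ h => by
      by_cases e : ϖ = q
      · simpa [e, v0, hzd] using hI0.2 hzI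
      · simpa using congrArg π (hrow ϖ h e))
    fun R' _ π' c a1 a2 a3 a4 a5 => (hU R' (π'.comp π) c a1 a2 a3 a4 a5).1
  obtain ⟨k6, k7⟩ := hU _ π c' k1 k2 k3 k4 k5
  choose sc hs using Ideal.Quotient.mk_surjective (I := I)
  obtain ⟨μ, m0, m1, m2, -⟩ := fun_LOCW FUN_ok (J := I) (J₀ := nilradical R * I)
    Ideal.mul_le_right (fun x hx => Ideal.mul_mem_mul n3 hx) hzI fun e => by
      obtain ⟨a, ha, e⟩ := Ideal.mem_mul_span_singleton.1 e
      refine hz ((IsNilpotent.isUnit_one_sub (show IsNilpotent a from ha)).mul_right_eq_zero.1 ?_)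
      rw [sub_mul, e, one_mul, sub_self]
  have ma : ∀ {x x'}, x ∈ I → x' ∈ I → μ (x + x') = μ x + μ x' := fun hx hx' =>
    m1 _ hx _ hx' _ (by simp)
  have mt : ∀ {g x}, g ∈ GK → x ∈ I → μ (θ g * x) = μ x := fun {g x} hg hx => m2 _ _ (by
    rw [show θ g * x - x = (θ g - 1) * x by ring]
    exact Ideal.mul_mem_mul (hu g hg) hx)
  have mz : μ 0 = 0 := by simpa using ma I.zero_mem I.zero_mem
  let F : GQ → GQ → R := fun g h => θ g * sc (c' h) - sc (c' (g * h)) + sc (c' g)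
  have hF : ∀ {g h}, g ∈ GK → h ∈ GK → F g h ∈ I := fun {g h} hg hh =>
    hI0.1 (by simp [F, π, hs, k1.2 g hg h hh])
  obtain ⟨⟨M, a1, a2, a3⟩, a4⟩ : Co2 θ GK F :=
    ((LIN_ok R θ GK).1 F F 0).2.2.1 hθ ⟨_, k1.1.map sc, fun _ _ _ _ => rfl⟩
  have hco : Co2 (fun _ => 1) GK fun g h => μ (F g h) :=
    ⟨⟨M, a1, fun g hg x hx y hy e => congrArg μ (a2 g hg x hx y hy e),
      fun g hg x hx y hy e => congrArg μ (a3 g hg x hx y hy e)⟩, fun g hg h hh k hk => by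
        have e1 := ma (I.mul_mem_left (θ g) (hF hh hk)) (hF hg (mul_mem hh hk))
        have e2 := ma (hF (mul_mem hg hh) hk) (hF hg hh)
        rw [mt hg (hF hh hk), show θ g * F h k + F g (h * k) = F (g * h) k + F g h by
          linear_combination a4 g hg h hh k hk, e2] at e1
        linear_combination -e1⟩
  have lift : ∀ (H : Subgroup GQ) (e : GQ → R), H ≤ GK → Lc H e → (∀ g ∈ H, π (e g) = c' g) →
      Bo2 (fun _ => 1) H fun g h => μ (F g h) - μ (θ g * e h - e (g * h) + e g) := by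
    intro H e hH e1 e2
    have e3 : ∀ {g}, g ∈ H → sc (c' g) - e g ∈ I := fun {g} hg =>
      hI0.1 (by rw [map_sub, e2 g hg]; exact sub_eq_zero.2 (hs _))
    refine ⟨fun g => μ (sc (c' g) - e g), (k1.1.mono hH).map₂ e1 fun x y => μ (sc x - y),
      fun g hg h hh => ?_⟩
    have e4 : θ g * e h - e (g * h) + e g ∈ I := hI0.1 (by
      simp [e2 g hg, e2 h hh, e2 _ (mul_mem hg hh), k1.2 g (hH hg) h (hH hh)])
    have e5 := ma (hF (hH hg) (hH hh)) (e3 (mul_mem hg hh))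
    have e6 := ma (I.add_mem e4 (I.mul_mem_left (θ g) (e3 hh))) (e3 hg)
    rw [ma e4 (I.mul_mem_left (θ g) (e3 hh)), mt (hH hg) (e3 hh), ← show F g h +
      (sc (c' (g * h)) - e (g * h)) = θ g * e h - e (g * h) + e g + θ g * (sc (c' h) - e h) +
        (sc (c' g) - e g) by simp only [F]; ring, e5] at e6
    linear_combination e6
  have lift0 : ∀ (H : Subgroup GQ) (e : GQ → R), H ≤ GK → Co θ H e → (∀ g ∈ H, π (e g) = c' g) →
      Bo2 (fun _ => 1) H fun g h => μ (F g h) := fun H e hH e1 e2 => by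
    obtain ⟨β, b1, b2⟩ := lift H e hH e1.1 e2
    refine ⟨β, b1, fun g hg h hh => ?_⟩
    rw [← b2 g hg h hh]
    simp [e1.2 g hg h hh, mz]
  have uq : ∀ ϖ ∈ T, ∀ d, Co (fun g => π (θ g)) (V ϖ).D d → d (σ ϖ) = 0 → d (τ ϖ) = 0 →
      ∀ g ∈ (V ϖ).D, d g = 0 := fun ϖ hϖ d hd => by
    obtain ⟨p1, p2, p3, p4, p5⟩ := hm ϖ hϖ
    exact ((TPR_ok 3 n _ (V ϖ) ϖ (σ ϖ) (τ ϖ) (fun g => π (θ g)) Nat.prime_three (p1.l_neK p2)
      (p1.l_neK p2) p1.1 p2 p3 p4 p5 (by rw [← map_natCast π, ← map_pow, hn3, map_zero])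
      ((hθ.mapK π).monoK (V ϖ).D_le)
      fun g hg => by rw [← map_pow, hnu _ (hu g ((V ϖ).D_le hg)), map_one]).1 d hd).2.1
  let j : ZMod (3 ^ 1) →+* ZMod 3 := RingHom.id (ZMod 3)
  have hj : ∀ g ∈ GK, cj j g = 1 := fun g hg => ((KM_ok 3 (by decide)).2.2.2.2.2.2.2.1 g hg).1
  have cv : ∀ (H : Subgroup GQ) (f : GQ → GQ → ZMod 3), H ≤ GK → Bo2 (fun _ => 1) H f →
      Bo2 (cj j) H f := fun H f hH =>
    (((LIN_ok _ _ H).1 f f 0).2.2.2 (cj j) H le_rfl (fun g hg => hj g (hH hg))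
      fun _ _ _ _ => rfl).2
  obtain ⟨p1, p2, p3, p4, p5⟩ := hm q hq
  have hD := (V q).D_le
  obtain ⟨s₀, s1, s2, s3, s4⟩ := ((FRK_ok (V q) q p1.1 p2).2.2.2 _ p3).2.2.2.2.2 (3 ^ n) (by simp)
  let jn : ZMod (3 ^ n) →+* R := ZMod.castHom (ringChar.dvd (by exact_mod_cast hn3)) R
  let e : GQ → R := fun g => jn (s₀ g) * s q
  have ea : Adt (V q).D e := fun g hg h hh => by simp only [e, s1 g hg h hh, map_add, add_mul]
  have eσ : e (σ q) = s q := by simp [e, s4]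
  have eτ : e (τ q) = 0 := by simp [e, s3 _ p4]
  have e0 : ∀ {g} (h), g ∈ (V q).D → (θ g - 1) * e h ∈ I := fun {g} h hg => by
    have := uq q hq (fun g => π ((θ g - 1) * s q)) ⟨(hθ.1.mono hD).map fun x => π ((x - 1) * s q),
      fun g hg h hh => by
        beta_reduce
        rw [hθ.2.2 g (hD hg) h (hD hh), ← map_mul, ← map_add]
        congr 1
        ring⟩
      (by simp [t1]) (hI0.2 (by convert I.neg_mem hzI using 1; rw [hzd]; ring)) g hg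
    convert I.mul_mem_left (jn (s₀ h)) (hI0.1 this) using 1
    simp only [e]
    ring
  have e1 : Lc (V q).D e := s2.map fun x => jn x * s q
  have e2 : ∀ g ∈ (V q).D, π (e g) = c' g := fun g hg => (sub_eq_zero.1 (uq q hq _
    ((k1.monoK hD).subK ⟨e1.map π, fun g hg h hh => by
      have := hI0.2 (e0 h hg)
      rw [ea g hg h hh, map_add]
      simp only [map_mul, map_sub, map_one] at this
      linear_combination -this⟩)
    (by rw [eσ, k6 q hq, sub_self]) (by rw [eτ, k5 q hq, v0, sub_self]) g hg)).symm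
  have key := hI (ZMod 3) 3 1 j (fun g h => μ (F g h)) {(V q).l} (fun _ => V q) (fun _ => φ)
    (fun _ => τ q) (fun _ => (km 3 (τ q) (V q).l)⁻¹) (fun _ g h => μ ((θ g - 1) * e h))
    Nat.prime_three le_rfl
    (((LIN_ok _ _ GK).1 _ _ 0).2.2.2 (cj j) GK le_rfl hj (fun _ _ _ _ => rfl) |>.1 hco)
    (fun l hl => by
      obtain rfl := mem_singleton.1 hl
      refine ⟨rfl, hφ, by have := hφ.l3; omega, p4, inv_mul_cancel₀ (G₀ := ZMod 3) p5,
        ⟨fun g hg h hh k hk => ?_, fun h hh g hg k hk => ?_⟩, cv _ _ hD ?_⟩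
      · beta_reduce
        rw [ea h hh k hk, mul_add, ma (e0 h hg) (e0 k hg)]
      · beta_reduce
        rw [← mt (hD hg) (e0 h hk), ← ma (e0 h hg) (I.mul_mem_left _ (e0 h hk)),
          hθ.2.2 g (hD hg) k (hD hk)]
        congr 1
        ring
      · obtain ⟨β, b1, b2⟩ := lift _ e hD e1 e2
        refine ⟨β, b1, fun g hg h hh => ?_⟩
        rw [← b2 g hg h hh]
        beta_reduce
        rw [ea g hg h hh]
        congr 2
        ring)
    fun W hW => cv _ _ W.D_le (by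
      by_cases hb : Ov W b
      · by_cases h3 : W.l = 3
        · refine ((CNJ_ok _ _).2 V3 W pw (Mu.constK _) pw_prime ?_ ?_).2 _ hco (lift0 _ κ V3.D_le hκ
            (hy.ext n3' (fun g hg => hu' g (V3.D_le hg)) (hκ.mapK π) (k1.monoK V3.D_le)
              fun i => (k7 i).symm))
          · exact Ov_three.1 (by simpa [V3] using Ov_l V3)
          · exact Ov_three.1 (by simpa [h3] using Ov_l W)
        · obtain ⟨ϖ, hϖ, hWϖ⟩ := koch_mem hP hb h3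
          obtain ⟨r1, r2, r3, r4, r5⟩ := hm ϖ hϖ
          have hne : ϖ ≠ q := fun e => hW (mem_singleton.2
            ((hP.2.2.1 (V q) q p1.1 p2).2.1 W (e ▸ hWϖ)).1)
          obtain ⟨c, q1, q2, q3⟩ := (TPR_ok 3 n R (V ϖ) ϖ (σ ϖ) (τ ϖ) θ Nat.prime_three
            (r1.l_neK r2) (r1.l_neK r2) r1.1 r2 r3 r4 r5 hn3 (hθ.monoK (V ϖ).D_le)
            fun g hg => hnu _ (hu g ((V ϖ).D_le hg))).2 _ _ (hrow ϖ hϖ hne)
          exact ((CNJ_ok _ _).2 (V ϖ) W ϖ (Mu.constK _) r1.1 r2 hWϖ).2 _ hco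
            (lift0 _ c (V ϖ).D_le q1 fun g hg => (sub_eq_zero.1 (uq ϖ hϖ _
              ((k1.monoK (V ϖ).D_le).subK (q1.mapK π)) (by rw [q2, k6 ϖ hϖ, sub_self])
              (by rw [q3, k5 ϖ hϖ, sub_self]) g hg)).symm)
      · have hinv : ∀ t ∈ W.I, ∀ g ∈ GK, c' (g * t) = c' g := fun t ht g hg => by
          rw [k1.2 g hg t ht.2, k2 W hb t ht, mul_zero, add_zero]
        obtain ⟨ϖ, r1, r2, -⟩ := hP.1 W
        refine UNB_ok _ 3 _ W _ (by decide) rfl (Mu.constK _) (fun _ _ => rfl)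
          (((LIN_ok _ _ GK).1 _ _ 0).2.2.2 _ W.D W.D_le (fun _ _ => rfl)
            (fun _ _ _ _ => rfl) |>.1 hco) fun g hg h hh t ht => ?_
        have g1 := W.D_le hg
        have h1 := W.D_le hh
        have f1 : θ (g * t) = θ g := by
          rw [hθ.2.2 g g1 t ht.2, sub_eq_zero.1 (hr W hb t ht), mul_one]
        have f2 : c' (g * t * h) = c' (g * h) := by
          rw [show g * t * h = g * h * (h⁻¹ * t * h⁻¹⁻¹) by group]
          exact hinv _ ((FRK_ok W ϖ r1 r2).2.1 _ (inv_mem hh) t ht) _ (mul_mem g1 h1)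
        simp only [F, f1, f2, hinv t ht g g1, hinv t ht h h1, ← mul_assoc,
          hinv t ht _ (mul_mem g1 h1), and_self])
  rw [sum_singleton, ← hσ, eσ, eτ, mul_zero, mz, sub_zero] at key
  have e3 := ma (eσ ▸ e0 (σ q) ((V q).I_le p4)) hzI
  rw [show (θ (τ q) - 1) * s q + z = 0 by rw [hzd]; ring, mz] at e3
  refine m0 ?_
  have e4 : μ ((θ (τ q) - 1) * s q) = 0 :=
    (mul_eq_zero.1 ((mul_eq_zero.1 key).resolve_left (by decide))).resolve_left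
      (inv_ne_zero (G₀ := ZMod 3) p5)
  rw [e4, zero_add] at e3
  exact e3.symm

end Pool.Agent.MP_e23604_nt.V
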