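import Pool.Agent.Mg.Fe23604m.Ge36c45
import Pool.Agent.Mg.Fe23604m.G13e833
import Pool.Agent.Mg.Fe23604m.G8a2c8f

set_option linter.all false

/-!
The horizontal limit of Selmer structures: statements.
-/

set_option autoImplicit false

open Finset Filter QuadraticAlgebra
open scoped Classical

namespace Pool.Agent.MP_e23604_nt.V

open B R S W

/-- the facts on inert primes that are used -/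
structure HY : Prop where
  INF : Y.INF_st
  CHI : Y.CHI_st
  RCI : Y.RCI_st
  RCS : Y.RCS_st
  ISK : Y.ISK_st
  CJ : Y.CJ_st
  KOQ : KOQ_st

section defs

variable {Λ : Type} [CommRing Λ]

/-- the kernel of the characters -/
noncomputable def Dt.U (Z : Dt Λ) (n : ℕ) : Subgroup GQ :=
  Subgroup.closure {g | g ∈ UM (ML Z.r n) ∧ Z.At n g = 0}

/-- the Euler factor -/
noncomputable def Dt.eu (Z : Dt Λ) (ϖ : Zw) : Λ := Z.E.L fun n => Z.ga n (Z.K.σ ϖ) - 1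

/-- the levels at which the indices in `A` behave well -/
structure Mx.Gd (Z : Mx Λ) (A : Finset JJ) (n : ℕ) : Prop where
  inj : Set.InjOn (jn n) A
  pp : ∀ ϖ ∈ Tn A n, PP ϖ
  sub : insert (-(Z.q n : Zw)) (Tr Z.r) ⊆ Tn A n
  img : A.image (jn n) = (univ : Finset Bool).disjSum (Tn A n)
  q : jn n Z.qg = .inr (-(Z.q n : Zw))
  cs : ∀ ϖ ∈ Tr Z.r, jn n (cs ϖ) = .inr ϖ
  aux : ∀ j ∈ A, j ∉ insert Z.qg Z.m0 → ∃ l : ℕ, jn n j = .inr (-(l : Zw)) ∧ Z.ok n l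

/-- the limit classes modulo `P` on the graph with base `m₀` and indices `L` -/
structure Mx.Cq (Z : Mx Λ) (P : Ideal Λ) (m₀ : Finset JJ) (L : Set JJ)
    (κ : ℕ → Finset ℕ → GQ → Λ) : Prop where
  ls : ∀ m, Vx m₀ L m → Z.LS (Z.s m) P (insert Z.qg (m ∪ Z.m0)) (Z.kq m₀ κ m)
  rv : ∀ m, Vx m₀ L m → Z.Rv P (insert Z.qg (m ∪ Z.m0)) (Z.kv m₀ κ m) (Z.kq m₀ κ m)
  tr : ∀ m, Vx m₀ L m → ∀ j ∈ m \ m₀, Z.E.ev (Z.kq m₀ κ m) (Z.sg j) ∈ P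
  fs : ∀ m l, Ed m₀ L m l → ∃ v, IsUnit v ∧
    Z.kv m₀ κ (insert l m) l - v * Z.E.ev (Z.kq m₀ κ m) (Z.sg l) ∈ P

/-- an edge of the residual system at which the class has no pole -/
def Mx.R1 (Z : Mx Λ) {R : Type} [CommRing R] (ϑ : Λ →+* R) (d : ℕ → Finset ℕ → GQ → Λ) : Prop :=
  ∃ m l, Ed m1 Z.L' m l ∧ ae (Z.wt ϑ) Z.s (fun m => vt ϑ (Z.kv m1 d m)) m l ≠ 0 ∧
    ae (Z.wt ϑ) Z.s (fun m => vt ϑ (Z.kv m1 d m)) m l ^ 2 ∣ De (Z.wt ϑ) Z.s m l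

/-- an edge at which the reduction of the class has no pole -/
def Mx.R0 (Z : Mx Λ) {R : Type} [CommRing R] (ϑ : Λ →+* R) (κ : ℕ → Finset ℕ → GQ → Λ) : Prop :=
  ∃ (m : Finset JJ) (l : JJ) (a : Λ) (i : ℕ), Ed Z.m0 Z.L m l ∧
    ae Z.w Z.s (Z.kv Z.m0 κ) m l = Z.E.ι pw ^ i * a ∧ ϑ a ≠ 0 ∧ ϑ (De Z.w Z.s m l) ≠ 0 ∧
      ϑ a ^ 2 ∣ ϑ (De Z.w Z.s m l)

theorem L_congr (E : Lm Λ) {x y : ℕ → Λ} (h : ∀ᶠ n in uf, x n = y n) : E.L x = E.L y := by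
  rw [← sub_eq_zero, ← map_sub]
  refine (E.mem_iff ⊥ _).2 fun k => ?_
  filter_upwards [h] with n e
  simp [e]

theorem L_mem (E : Lm Λ) {P : Ideal Λ} {x : ℕ → Λ} {k : ℕ → ℕ} (hk : Tendsto k uf atTop)
    (h : ∀ᶠ n in uf, x n ∈ P ⊔ E.m ^ k n) : E.L x ∈ P := (E.mem_iff P x).2 fun j => by
  filter_upwards [tendsto_atTop.1 hk j, h] with n h1 h2 using E.sup_le P h1 h2

theorem L_unit (E : Lm Λ) {x : ℕ → Λ} (h : ∀ᶠ n in uf, x n ∉ E.m) : IsUnit (E.L x) :=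
  E.unit _ fun e => by
    obtain ⟨n, h1, h2⟩ := (h.and ((E.mem_iff E.m x).1 e 1)).exists
    exact h1 (by simpa using h2)

theorem sq_ofFun (f : ℕ → Zw) : ∀ᶠ n in uf, sq (Germ.ofFun f) n = f n :=
  Germ.coe_eq.1 (Quotient.out_eq _)

theorem sq_const (ϖ : Zw) : ∀ᶠ n in uf, sq (ϖ : Gm) n = ϖ := sq_ofFun fun _ => ϖ

theorem sq_ne {a b : Gm} (h : a ≠ b) : ∀ᶠ n in uf, sq a n ≠ sq b n :=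
  Ultrafilter.eventually_not.2 fun e => h (by
    rw [← Quotient.out_eq a, ← Quotient.out_eq b]
    exact Germ.coe_eq.2 e)

theorem Mx.LS.lc {Z : Mx Λ} {ε : Bool} {P : Ideal Λ} {A : Finset JJ} {f : ℕ → GQ → Λ}
    (h : Z.LS ε P A f) : Z.LC ε P A f :=
  h.imp fun _ h => ⟨h.1, fun n => ⟨(h.2 n).1, (h.2 n).2.1⟩⟩

theorem Mx.vec_apply (Z : Mx Λ) (A : Finset JJ) (f : ℕ → GQ → Λ) (j : JJ) :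
    Z.vec A f j = if j ∈ A then Z.E.ev f (Z.gj j) else 0 := by
  simp [Mx.vec, Finsupp.finsetSum_apply, Finsupp.single_apply]

theorem Mx.vec_supp (Z : Mx Λ) (A : Finset JJ) (f : ℕ → GQ → Λ) : (Z.vec A f).support ⊆ A :=
  fun j hj => by
    by_contra e
    exact Finsupp.mem_support_iff.1 hj (by rw [Z.vec_apply, if_neg e])

theorem Mx.vec_rv (Z : Mx Λ) (P : Ideal Λ) (A : Finset JJ) (f : ℕ → GQ → Λ) :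
    Z.Rv P A (Z.vec A f) f :=
  ⟨Z.vec_supp A f, fun j hj => by simp [Z.vec_apply, hj]⟩

theorem unr_iff {A : Type} [Zero A] {b : Zw} {f : GQ → A} : Unr b f ↔ ∀ g ∈ Ru b, f g = 0 :=
  ⟨fun h _ ⟨V, h1, h2⟩ => h V h1 _ h2, fun h V h1 _ h2 => h _ ⟨V, h1, h2⟩⟩

theorem ev_vt {R : Type} [CommRing R] (ϑ : Λ →+* R) (f : JJ → Λ) (x : JJ →₀ Λ) :
    ev (fun j => ϑ (f j)) (vt ϑ x) = ϑ (ev f x) := ev_map ϑ f x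

theorem ex_vt {R : Type} [CommRing R] {ϑ : Λ →+* R} (h : Function.Surjective ϑ) (y : JJ →₀ R) :
    ∃ x : JJ →₀ Λ, vt ϑ x = y ∧ x.support = y.support := by
  refine ⟨y.mapRange (fun a => if a = 0 then 0 else Function.surjInv h a) (by simp), ?_, ?_⟩
  · ext j
    by_cases e : y j = 0 <;> simp [vt, e, Function.surjInv_eq h]
  · ext j
    by_cases e : y j = 0
    · simp [e]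
    · have : Function.surjInv h (y j) ≠ 0 := fun e' => e (by
        rw [← Function.surjInv_eq h (y j), e', map_zero])
      simp [e, this]

end defs

/-! ### Finite level -/

/-- the primes of the twist -/
def TRM_st : Prop := ∀ r : ℕ, r ≠ 0 → ¬ 3 ∣ r → (∀ ϖ, ϖ ∈ Tr r ↔ PP ϖ ∧ ϖ ∣ r) ∧
  (∀ ϖ, ϖ ∈ Bz r ↔ ∃ l ∈ Bn r, ϖ = -l) ∧ (Bz r).card = (Bn r).card ∧
  (∀ ϖ ∈ Sz r, star ϖ ∈ Sz r ∧ star ϖ ≠ ϖ ∧ nn ϖ % 3 = 1) ∧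
  ∀ W : Plc, Ov W (3 * ∏ ϖ ∈ Tr r, ϖ) ↔ Ov W (3 * r)

/-- the ring of power series -/
def LMX_st : Prop := ∃ (O k : Type) (_ : CommRing O) (_ : IsDomain O) (_ : IsPrincipalIdealRing O)
  (_ : Field k) (E : Lm (PowerSeries O)) (ϖ : O) (red : O →+* k), Lx E ϖ red

/-- the local points modulo `pw` -/
def LB_st : Prop := ∀ (χ : GQ → ZMod 3) (r : ℕ), Tw χ r → ∃ P, Lb χ P

/-- the characters -/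
def THA_st : Prop := ∀ (Λ : Type) [CommRing Λ] (Z : Dt Λ) (n : ℕ), Z.Ok →
  (∀ g, g ∈ Z.U n ↔ g ∈ UM (ML Z.r n) ∧ Z.At n g = 0) ∧ ON (Z.U n) ∧ ON (UM (ML Z.r n)) ∧
  (∀ g ∈ GK, ∀ h ∈ GK, g * h * g⁻¹ * h⁻¹ ∈ Z.U n) ∧ Ch (Z.E.m ^ n) (Z.U n) (Z.ga n) ∧
  (∀ ε, Ch (Z.E.m ^ n) (Z.U n) (Z.th ε n) ∧
    (∀ (R : Type) [CommRing R] (π : Λ →+* R), (∀ a ∈ Z.E.m ^ n, π a = 0) →
      Mu GK fun g => π (Z.th ε n g)) ∧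
    (∀ g ∈ GK, Z.th ε n g - 1 ∈ Z.E.m ∧ Z.E.ι pw ∣ Z.th ε n g - Z.ga n g ∧
      Z.E.T ∣ Z.th ε n g - lamZ (Z.ph ε) (Z.χ ε) (ML Z.r n) g) ∧
    (∀ g ∈ UM (ML Z.r n), Z.th ε n g - Z.ga n g ∈ Z.E.m ^ n ∧ Z.th ε n g - 1 ∈ Z.tn n) ∧
    (∀ c ∉ GK, ∀ g ∈ GK,
      Z.th ε n (c * g * c⁻¹) * Z.th ε n g - (W.cy (3 ^ (n + 1)) g).val ∈ Z.E.m ^ n) ∧
    (∃ g ∈ GK, Z.th ε n g - (1 + 9 * Z.r) ∈ Z.tn n) ∧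
    (∃ g ∈ GK, Z.th ε n g - Z.ph ε (1 + 9 * Z.r * pw) ∈ Z.tn n) ∧
    ∀ k, k ≤ n → Qt ((Ideal.Quotient.mk (Z.tn k)).comp (Z.ph ε)) (pw ^ k)) ∧
  ∀ b, Z.E.m ^ n ≤ b → Finite (Λ ⧸ b) ∧ Nonempty (ZMod (3 ^ (n + 1)) →+* Λ ⧸ b) ∧
    ∀ x ∈ Z.E.m, IsNilpotent (Ideal.Quotient.mk b x)

/-- their local values -/
def THB_st : Prop := ∀ (Λ : Type) [CommRing Λ] (Z : Dt Λ) (n : ℕ), Z.Ok →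
  (∀ W : Plc, W.l = 3 ∨ (W.l % 3 = 2 ∧ W.l ≠ Z.q n) → ∀ g ∈ W.D, Z.At n g = 0) ∧
  (∀ φ ∉ GK, Z.At n (φ ^ 2) = 0 ∧ ∀ ε, Z.χ ε (φ ^ 2) = 0) ∧
  (∀ W : Plc, ¬ Ov W (3 * (Z.r * Z.q n : ℕ)) → W.I ≤ Z.U n) ∧
  (∀ l : ℕ, l.Prime → 3 ^ (n + 3) * Z.r ∣ l + 1 → l % 3 = 2 ∧ ¬ l ∣ Z.r ∧ PP (-l) ∧
    ∀ W : Plc, W.l = l → W.D ≤ UM (ML Z.r n) ∧ (l ≠ Z.q n → W.D ≤ Z.U n)) ∧
  (∀ ϖ ∈ Sz Z.r, Z.At n (Z.K.σ (star ϖ)) = -Z.At n (Z.K.σ ϖ)) ∧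
  ∀ ε, (∀ W : Plc, W.l ≠ 3 → ∀ τ ∈ W.I,
      Z.th ε n τ - Z.ph ε (ω ^ (Z.χ ε τ).val) * Z.ga n τ ∈ Z.E.m ^ n ∧
      (W.l ≠ Z.q n → Z.th ε n τ - Z.ph ε (ω ^ (Z.χ ε τ).val) ∈ Z.E.m ^ n)) ∧
    Z.th ε n (Z.K.τ (-Z.q n)) - (1 + Z.E.T) ∈ Z.E.m ^ n ∧
    Z.th ε n (Z.K.σ (-Z.q n)) - 1 ∈ Z.E.m ^ n ∧
    (∀ ϖ ∈ Tr Z.r, Z.χ ε (Z.K.τ ϖ) ≠ 0) ∧
    (∀ l ∈ Bn Z.r, Z.th ε n (Z.K.σ (-l)) + l ∈ Z.E.m ^ n) ∧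
    ∀ g ∈ V3.D, Z.th ε n g = lamZ (Z.ph ε) (Z.χ ε) (ML Z.r n) g

/-- universal forms exist -/
def UNI_st : Prop := ∀ (Λ : Type) [CommRing Λ] (Z : Mx Λ), Z.Ok0 → ∀ ε n, ∃ w, Z.Uni ε n w

/-- the local cocycles -/
def LOA_st : Prop := ∀ (Λ : Type) [CommRing Λ] (Z : Mx Λ) (ε : Bool) (n : ℕ) (R : Type)
  [CommRing R] (π : Λ →+* R), Z.Ok0 → (∀ a ∈ Z.E.m ^ n, π a = 0) →
  (∀ i, Co (fun g => π (Z.th ε n g)) V3.D fun g => π (Z.lo ε n i g)) ∧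
  ∀ f : GQ → R, Co (fun g => π (Z.th ε n g)) V3.D f → (∀ k, f (Z.y k) = 0) → ∀ g ∈ V3.D, f g = 0

/-- the rows at three -/
def LOB_st : Prop := ∀ (Λ : Type) [CommRing Λ] (Z : Mx Λ), Z.Ok0 → ∀ ε n, ∃ F, Z.Row ε n F

/-- the two forms of the local condition -/
def LOK_st : Prop := ∀ (Λ : Type) [CommRing Λ] (Z : Mx Λ) (ε : Bool) (n : ℕ) (b : Ideal Λ)
  (f : GQ → Λ), Z.Ok0 → Z.E.m ^ n ≤ b → (Z.Kq ε n b f → Z.Kl ε n b f) ∧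
    Z.Kl ε n b fun g => Z.th ε n g - 1

/-- the local condition is isotropic -/
def LOI_st : Prop := ∀ (Λ : Type) [CommRing Λ] (Z : Mx Λ) (ε : Bool) (n i : ℕ) (b : Ideal Λ)
  (j : ZMod (3 ^ i) →+* Λ ⧸ b) (f f' : GQ → Λ), Z.Ok0 → Z.E.m ^ n ≤ b → i ≤ n + 1 →
  Z.Kl ε n b f → Z.Kl ε n b f' →
  Bo2 (cj j) V3.D (cup (fun g => Ideal.Quotient.mk b (Z.th ε n g))
    (fun g => Ideal.Quotient.mk b (f (Z.c₃ * g * Z.c₃⁻¹))) fun g => Ideal.Quotient.mk b (f' g))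

/-- local vanishing of cup products -/
def LV_st : Prop := ∀ (R : Type) [CommRing R] (p n : ℕ) (j : ZMod (p ^ n) →+* R) (c : GQ)
  (lam x y : GQ → R) (W : Plc), p.Prime → Y.Cj c → Mu GK lam →
  (∀ g ∈ GK, lam (c * g * c) * lam g = cj j g) → Co lam GK x → Co lam GK y →
  ((W.l = 3 ∧ ∃ c₃ ∈ Dec V3.v, c₃ ∉ GK ∧
      Bo2 (cj j) V3.D (cup lam (fun g => x (c₃ * g * c₃⁻¹)) y)) ∨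
    (∀ W' : Plc, W'.l = W.l → Bo lam W'.D x) ∨
    (W.l ≠ p ∧ ∃ (V : Plc) (φ : GQ), Y.In V φ ∧ V.l = W.l ∧ ∀ τ ∈ V.I, x τ = 0 ∧ y τ = 0) ∨
    (W.l ≠ p ∧ ∀ W' : Plc, W'.l = W.l → ∀ τ ∈ W'.I, lam τ = 1 ∧ x τ = 0 ∧ y τ = 0)) →
  Bo2 (cj j) W.D (cup lam (fun g => x (c * g * c)) y)

/-! ### The limit -/

/-- germs -/
def GER_st : Prop := ∀ (Λ : Type) [CommRing Λ] (Z : Mx Λ), Z.Ok0 →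
  (Z.qg ∉ Z.m0 ∧ Z.qg ∉ Z.L ∧ (∀ j ∈ Z.m0, j ∉ Z.L) ∧ Z.m0 = m1 ∪ Z.Sg ∪ Z.Bg ∧
    Disjoint m1 (Z.Sg ∪ Z.Bg) ∧ Disjoint Z.Sg Z.Bg ∧ Function.Injective cs) ∧
  (∀ A, Z.Ad A → ∀ᶠ n in uf, Z.Gd A n) ∧
  (∀ m, Vx Z.m0 Z.L m ∨ Vx m1 Z.L' m → Z.Ad (insert Z.qg (m ∪ Z.m0))) ∧
  (∀ l : ℕ → ℕ, (∀ n, Z.ok n (l n)) → Sum.inr (Germ.ofFun fun n => -(l n : Zw)) ∈ Z.L) ∧
  Sd Z.L' Z.s ∧ Sd Z.L Z.s ∧ Z.s Z.m0 = Z.s₀ ∧ (∀ m, Z.s (m ∪ Z.Sg) = Z.s m) ∧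
  ∀ j, Inc GK (Z.gj j) ∧ Inc GK (Z.sg j)

/-- the values of limit cocycles -/
def VAL_st : Prop := ∀ (Λ : Type) [CommRing Λ] [IsDomain Λ] (Z : Mx Λ) (ε : Bool) (P : Ideal Λ)
  (A : Finset JJ) (x : JJ →₀ Λ) (f : ℕ → GQ → Λ), Z.Ok → Z.Ad A → Z.LC ε P A f → Z.Rv P A x f →
  (∀ g, Inc GK g → ev (Z.fm ε g) x - Z.E.ev f g ∈ P) ∧
  (∀ j ∈ A, j ∉ m1 → ev (Z.rel ε j) x ∈ P) ∧
  (Z.LS ε P A f → ∀ t, ev (Z.w ε (.inl t)) x ∈ P)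

/-- the rows -/
def ROW_st : Prop := ∀ (Λ : Type) [CommRing Λ] [IsDomain Λ] (Z : Mx Λ) (ε : Bool), Z.Ok0 →
  (∀ j, j ∈ Z.L ∨ j = Z.qg → Z.w ε j = Z.fm ε (Z.sg j) ∧ Z.E.ev (Z.th ε) (Z.sg j) = 1) ∧
  (∀ j ∈ Z.L, Z.mu ε j = 0 ∧ Z.nu ε j = 0) ∧ Z.mu ε Z.qg = -Z.E.T ∧
  (∀ j ∈ Z.Sg ∪ Z.Bg, Z.mu ε j ∣ 3 ∧ Z.E.ι pw ∣ Z.mu ε j) ∧
  (∀ j ∈ Z.Bg, Z.w ε j = Z.fm ε (Z.sg j) + Z.be ε j • (Pi.single j 1 : JJ → Λ) ∧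
    Z.rel ε j = Z.mu ε j • Z.w ε j ∧ Z.E.ι pw ∣ Z.be ε j) ∧
  (∀ ϖ ∈ Sz Z.r, Z.w ε (cs ϖ) = Z.rel ε (cs ϖ) ∧ Z.E.ι pw ∣ Z.nu ε (cs ϖ) - Z.eu ϖ ∧
    ¬ Z.E.ι pw ∣ Z.eu ϖ) ∧
  ∀ j, j ∈ Z.L' ∨ j = Z.qg → IsUnit (Z.u ε j)

/-- existence of limit cocycles -/
def EXS_st : Prop := ∀ (Λ : Type) [CommRing Λ] [IsDomain Λ] (Z : Mx Λ) (ε : Bool) (P : Ideal Λ)
  (A : Finset JJ) (x : JJ →₀ Λ), Z.Ok → Z.Ad A → x.support ⊆ A → x Z.qg ∈ P ∨ Z.E.T ∈ P →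
  (∀ t, ev (Z.w ε (.inl t)) x ∈ P) → (∀ j ∈ Z.Sg ∪ Z.Bg, ev (Z.rel ε j) x ∈ P) →
  ∃ f, Z.LS ε P A f ∧ Z.Rv P A x f

/-- reciprocity in the limit -/
def RCL_st : Prop := ∀ (Λ : Type) [CommRing Λ] [IsDomain Λ] (Z : Mx Λ) (ε : Bool) (P : Ideal Λ)
  (A : Finset JJ) (x y : JJ →₀ Λ) (f f' : ℕ → GQ → Λ), Z.Ok → Z.Ad A → Z.LS ε P A f →
  Z.LS ε P A f' → Z.Rv P A x f → Z.Rv P A y f' →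
  (x Z.qg ∈ P → y Z.qg ∈ P → 3 * rsum (Z.w ε) (Z.u ε) (A \ insert Z.qg Z.m0) x y ∈ P) ∧
  (Z.E.T ∈ P → 3 * rsum (Z.w ε) (Z.u ε) (A \ Z.m0) x y ∈ P) ∧
  (Z.E.ι pw ∈ P → x Z.qg ∈ P → y Z.qg ∈ P → (∀ j ∈ Z.Sg, x j ∈ P ∧ y j ∈ P) →
    rsum (Z.w ε) (Z.u ε) (A \ insert Z.qg (m1 ∪ Z.Sg)) x y ∈ P)

/-- the choice of a prime -/
def CHA_st : Prop := ∀ (Λ : Type) [CommRing Λ] [IsDomain Λ] (Z : Mx Λ) (P : Ideal Λ) (A : Finset JJ) (I : Type)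
  [Fintype I] (ε : I → Bool) (f : I → ℕ → GQ → Λ) (h : GG), Z.Ok0 → Z.Ad A →
  (∀ i, Z.LC (ε i) P A (f i)) → Z.Uq P h → ∃ l ∈ Z.L, l ∉ A ∧ ∀ i, ∃ μ : Λ,
    Z.E.ev (f i) (fun n => Z.c * h n * Z.c) + Z.E.ev (f i) h - μ * Z.E.ev (f i) (Z.sg l) ∈ P

/-- primes that detect given classes -/
def CHL_st : Prop := ∀ (Λ : Type) [CommRing Λ] [IsDomain Λ] (Z : Mx Λ) (P : Ideal Λ) (A : Finset JJ), Z.Ok0 →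
  Z.Ad A → P.IsPrime →
  (Z.E.T ∉ P → ∀ (I : Type) [Fintype I] (ε : I → Bool) (f : I → ℕ → GQ → Λ),
    (∀ i, Z.LC (ε i) P A (f i) ∧ Z.E.ev (f i) (Z.gj Z.qg) ∈ P ∧
      ∃ g, Inc GK g ∧ Z.E.ev (f i) g ∉ P) →
    ∃ l ∈ Z.L, l ∉ A ∧ ∀ i, Z.E.ev (f i) (Z.sg l) ∉ P) ∧
  (Z.E.T ∈ P → 3 ∉ P → ∀ ε f, Z.LC ε P A f → Z.E.ev f (Z.gj Z.qg) ∉ P →
    ∃ l ∈ Z.L, l ∉ A ∧ Z.E.ev f (Z.sg l) ∉ P)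

/-- the systems in characteristic zero -/
def SYP_st : Prop := ∀ (Λ R : Type) [CommRing Λ] [IsDomain Λ] [CommRing R] [IsDomain R] (Z : Mx Λ)
  (ϑ : Λ →+* R), Z.Ok → Function.Surjective ϑ → ϑ 3 ≠ 0 →
  (ϑ Z.E.T ≠ 0 → Sy (Z.wt ϑ) Z.m0 Z.L (Z.ut ϑ) Z.s) ∧
  (ϑ Z.E.T = 0 → ∀ ε, RC (Z.wt ϑ ε) Z.m0 (insert Z.qg Z.L) (Z.ut ϑ ε) ∧
    ∀ ξ, Kr (Z.wt ϑ ε) Z.m0 (insert Z.qg Z.m0) ξ → ξ Z.qg ≠ 0 →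
      ∃ l ∈ Z.L, ev (Z.wt ϑ ε l) ξ ≠ 0)

/-- the residual system -/
def SYR_st : Prop := ∀ (Λ R : Type) [CommRing Λ] [IsDomain Λ] [CommRing R] [IsDomain R] (Z : Mx Λ)
  (ϑ : Λ →+* R), Z.Ok → Rd ϑ (Z.E.ι pw) → Sy (Z.wt ϑ) m1 Z.L' (Z.ut ϑ) Z.s

/-- the limit classes -/
def CLG_st : Prop := ∀ (Λ : Type) [CommRing Λ] [IsDomain Λ] (Z : Mx Λ)
  (κ d : ℕ → Finset ℕ → GQ → Λ), Z.Ok0 → (Z.K0 κ → Z.Cq ⊥ Z.m0 Z.L κ) ∧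
    (Z.K1 d → Z.Cq (Ideal.span {Z.E.ι pw}) m1 Z.L' d) ∧
    (∀ i, Z.Red κ d i → ∀ m, Vx m1 Z.L' m → Z.Bg ⊆ m → ∃ v, IsUnit v ∧ ∀ g, Inc GK g →
      Z.E.ι pw ^ (i + 1) ∣ Z.E.ev (Z.kq Z.m0 κ (m ∪ Z.Sg)) g -
        Z.E.ι pw ^ i * (v * (∏ ϖ ∈ Sz Z.r, Z.eu ϖ) * Z.E.ev (Z.kq m1 d m) g)) ∧
    (Z.kq Z.m0 κ Z.m0 = fun n => κ n ∅) ∧ ∀ S₀ ⊆ Bn Z.r, mb S₀ ⊆ m1 ∪ Z.Bg ∧
      Vx m1 Z.L' (mb S₀) ∧ ∀ᶠ n in uf, Z.kq m1 d (mb S₀) n = d n S₀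

/-- they are systems of classes -/
def CLC_st : Prop := ∀ (Λ : Type) [CommRing Λ] [IsDomain Λ] (Z : Mx Λ)
  (κ d : ℕ → Finset ℕ → GQ → Λ), Z.Ok →
  (Z.K0 κ → Cl Z.w Z.m0 Z.L Z.s (Z.kv Z.m0 κ) ∧ ∀ m l, Ed Z.m0 Z.L m l →
    ae Z.w Z.s (Z.kv Z.m0 κ) m l = Z.E.ev (Z.kq Z.m0 κ m) (Z.sg l)) ∧
  (Z.K1 d → ∀ (R : Type) [CommRing R] (ϑ : Λ →+* R), Rd ϑ (Z.E.ι pw) →
    Cl (Z.wt ϑ) m1 Z.L' Z.s (fun m => vt ϑ (Z.kv m1 d m)) ∧ ∀ m l, Ed m1 Z.L' m l →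
      ae (Z.wt ϑ) Z.s (fun m => vt ϑ (Z.kv m1 d m)) m l = ϑ (Z.E.ev (Z.kq m1 d m) (Z.sg l)))

/-- the comparison with the residual system -/
def RED_st : Prop := ∀ (Λ R : Type) [CommRing Λ] [IsDomain Λ] [CommRing R] [IsDomain R] (Z : Mx Λ)
  (ϑ : Λ →+* R) (κ d : ℕ → Finset ℕ → GQ → Λ) (i : ℕ) (m : Finset JJ) (l : JJ), Z.Ok → Z.K0 κ →
  Z.K1 d → Z.Red κ d i → Rd ϑ (Z.E.ι pw) → Ed m1 Z.L' m l → Z.Bg ⊆ m →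
  Ed Z.m0 Z.L (m ∪ Z.Sg) l ∧ ∃ (c : R) (a : Λ), c ≠ 0 ∧
    ae Z.w Z.s (Z.kv Z.m0 κ) (m ∪ Z.Sg) l = Z.E.ι pw ^ i * a ∧
    Associated (ϑ a) (c * ae (Z.wt ϑ) Z.s (fun m => vt ϑ (Z.kv m1 d m)) m l) ∧
    ϑ (De Z.w Z.s (m ∪ Z.Sg) l) = c ^ 2 * De (Z.wt ϑ) Z.s m l

/-- a prime at which the first residual class has small order -/
def BA1_st : Prop := ∀ (Λ : Type) [CommRing Λ] [IsDomain Λ] (Z : Mx Λ)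
  (d : ℕ → Finset ℕ → GQ → Λ) (S₀ : Finset ℕ), Z.Ok → Z.K1 d → Z.Bas d S₀ →
  (∃ j, Z.kv m1 d (mb S₀) j ∉ Z.E.m) ∧ ∃ l ∈ Z.L, Z.E.ev (Z.kq m1 d (mb S₀)) (Z.sg l) ∉
    Ideal.span {Z.E.ι pw} ⊔ Ideal.span {Z.E.T ^ 2}

/-- the Kummer class of an auxiliary prime -/
def BA2_st : Prop := ∀ (Λ : Type) [CommRing Λ] [IsDomain Λ] (Z : Mx Λ) (ε : Bool) (l : JJ), Z.Ok →
  l ∈ Z.L → ∃ y : JJ →₀ Λ, y.support ⊆ insert l m1 ∧ y l ∉ Z.E.m ∧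
    ∀ i ∈ insert l (m1 ∪ Z.Bg), ev (Z.w ε i) y ∈ Z.E.m

open PowerSeries in
/-- the base edge -/
def BAS_st : Prop := ∀ (O k : Type) [CommRing O] [IsDomain O] [Field k] (Z : Mx O⟦X⟧) (ϖ : O)
  (red : O →+* k) (d : ℕ → Finset ℕ → GQ → O⟦X⟧) (S₀ : Finset ℕ), Z.Ok → Lx Z.E ϖ red →
  Rd (map red) (Z.E.ι pw) ∧ (Z.K1 d → Z.Bas d S₀ → Z.R1 (map red) d)

/-- the coboundary -/
def BV_st : Prop := ∀ (Λ : Type) [CommRing Λ] [IsDomain Λ] (Z : Mx Λ) (ε : Bool), Z.Ok →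
  (∀ A, Z.Ad A → Z.LS ε ⊥ A (fun n g => Z.th ε n g - 1) ∧
    Z.Rv ⊥ A (Z.bv ε) fun n g => Z.th ε n g - 1) ∧ Z.bv ε Z.qg = Z.E.T ∧
  (∀ j, j ∈ insert Z.qg Z.m0 ∨ j ∈ Z.L → ev (Z.w ε j) (Z.bv ε) = 0) ∧ ∃ j, ¬ Z.E.T ∣ Z.bv ε j

/-- the relation at `q` -/
def QRL_st : Prop := ∀ (Λ : Type) [CommRing Λ] [IsDomain Λ] (Z : Mx Λ) (ε : Bool) (m : Finset JJ)
  (n : ℕ) (v : JJ →₀ Λ), Z.Ok → Vx Z.m0 Z.L m → v.support ⊆ m →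
  (∀ i ∈ m, Z.E.T ^ (n + 1) ∣ ev (Z.w ε i) v) → Z.E.T ^ n ∣ ev (Z.w ε Z.qg) v

/-- cocycles at the origin that are not ramified at `q` -/
def ORI_st : Prop := ∀ (Λ R : Type) [CommRing Λ] [IsDomain Λ] [CommRing R] (Z : Mx Λ) (ϑ : Λ →+* R) (ε : Bool)
  (x : JJ →₀ R), Z.Ok → Rd ϑ Z.E.T → Kr (Z.wt ϑ ε) Z.m0 Z.m0 x →
  ∃ (f : ℕ → GQ → Λ) (k : ℕ → ℕ), Tendsto k uf atTop ∧
    (∀ j ∈ Z.m0, x j = ϑ (Z.E.ev f (Z.gj j))) ∧ ∀ n, k n ≤ n ∧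
      Zf (Z.th ε n) (Ru (3 * Z.r)) (Z.tn (k n)) (f n) ∧ Z.Kl ε n (Z.tn (k n)) (f n)

/-- the bounds at finite level -/
def HSB_st : Prop := ∀ (Λ : Type) [CommRing Λ] (Z : Mx Λ) (ε : Bool), Z.Ok0 →
  (HSt (Z.χ ε) Z.r → ∃ c : ℕ, ∀ n k f, k ≤ n → Zf (Z.th ε n) (Ru (3 * Z.r)) (Z.tn k) f →
    (∀ g ∈ V3.D, f g ∈ Z.tn k) → ∀ g ∈ GK, 3 ^ c * f g ∈ Z.tn k) ∧
  (HB (Z.χ ε) Z.r → ∃ c : ℕ, ∀ n k f, k ≤ n → Zf (Z.th ε n) (Ru (3 * Z.r)) (Z.tn k) f →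
    Z.Kl ε n (Z.tn k) f → ∃ a, ∀ g ∈ GK, 3 ^ c * f g - (Z.th ε n g - 1) * a ∈ Z.tn k)

/-- the kernels at the origin -/
def HSL_st : Prop := ∀ (Λ R : Type) [CommRing Λ] [IsDomain Λ] [CommRing R] [IsDomain R] (Z : Mx Λ)
  (ϑ : Λ →+* R) (ε : Bool), Z.Ok → Rd ϑ Z.E.T →
  (HSt (Z.χ ε) Z.r → ∀ x y z, Kr (Z.wt ϑ ε) Z.m0 Z.m0 x → Kr (Z.wt ϑ ε) Z.m0 Z.m0 y →
    Kr (Z.wt ϑ ε) Z.m0 Z.m0 z →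
    ∃ α β γ : R, (α ≠ 0 ∨ β ≠ 0 ∨ γ ≠ 0) ∧ α • x + β • y + γ • z = 0) ∧
  (HB (Z.χ ε) Z.r → (∀ x, Kr (Z.wt ϑ ε) Z.m0 Z.m0 x →
    ∃ α β : R, α ≠ 0 ∧ α • x = β • vt ϑ (Z.bv ε)) ∧ D1 (Z.wt ϑ ε) Z.m0)

/-- the Selmer class that is detected at `q` -/
def XIL_st : Prop := ∀ (Λ R : Type) [CommRing Λ] [IsDomain Λ] [CommRing R] (Z : Mx Λ) (ϑ : Λ →+* R), Z.Ok →
  Rd ϑ Z.E.T → Z.Xi → ∃ ξ, Kr (Z.wt ϑ (!Z.s₀)) Z.m0 Z.m0 ξ ∧ ev (Z.wt ϑ (!Z.s₀) Z.qg) ξ ≠ 0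

open PowerSeries in
/-- the edge at the top -/
def TOP_st : Prop := ∀ (O k : Type) [CommRing O] [IsDomain O] [Field k] (Z : Mx O⟦X⟧) (ϖ : O)
  (red : O →+* k), Z.Ok → Lx Z.E ϖ red → HSt (Z.χ (!Z.s₀)) Z.r → Z.Xi → HB (Z.χ Z.s₀) Z.r →
  (∃ m l, Ed Z.m0 Z.L m l ∧ De Z.w Z.s m l ≠ 0) →
  ∃ l, Ed Z.m0 Z.L Z.m0 l ∧ ¬ X ^ 6 ∣ De Z.w Z.s Z.m0 l

/-- the conclusion -/
def END_st : Prop := ∀ (Λ : Type) [CommRing Λ] [IsDomain Λ] (Z : Mx Λ)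
  (κ : ℕ → Finset ℕ → GQ → Λ) (l : JJ) (g₀ : GG), Z.Ok → Z.K0 κ → Z.Dv κ → HB (Z.χ Z.s₀) Z.r →
  Ed Z.m0 Z.L Z.m0 l → ¬ Z.E.T ^ 3 ∣ ae Z.w Z.s (Z.kv Z.m0 κ) Z.m0 l → Inc GK g₀ →
  ¬ Z.E.T ∣ Z.E.ev (Z.th Z.s₀) g₀ - 1 → ¬ Z.E.T ^ 2 ∣ Z.E.ev (fun n => κ n ∅) g₀

/-- good choices exist -/
def MXE_st : Prop := ∀ (Λ : Type) [CommRing Λ] (Z : Dt Λ), Z.Ok → (∀ ε, ∃ P, Lb (Z.χ ε) P) →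
  ∃ M : Mx Λ, M.toDt = Z ∧ M.Ok

open PowerSeries in
/-- from the residual edge to the edge -/
def MACH1_st : Prop := ∀ (O k : Type) [CommRing O] [IsDomain O] [Field k] (Z : Mx O⟦X⟧) (ϖ : O)
  (red : O →+* k) (κ d : ℕ → Finset ℕ → GQ → O⟦X⟧) (i : ℕ), Z.Ok → Lx Z.E ϖ red → Z.K0 κ →
  Z.K1 d → Z.Red κ d i → Z.R1 (map red) d → Z.R0 (map red) κ

open PowerSeries in
/-- from the edge to the origin -/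
def MACH0_st : Prop := ∀ (O k : Type) [CommRing O] [IsDomain O] [IsPrincipalIdealRing O] [Field k]
  (Z : Mx O⟦X⟧) (ϖ : O) (red : O →+* k) (κ : ℕ → Finset ℕ → GQ → O⟦X⟧) (g₀ : GG), Z.Ok →
  Lx Z.E ϖ red → Z.K0 κ → Z.Dv κ → Z.R0 (map red) κ → HSt (Z.χ (!Z.s₀)) Z.r → Z.Xi →
  HB (Z.χ Z.s₀) Z.r → Inc GK g₀ → ¬ Z.E.T ∣ Z.E.ev (Z.th Z.s₀) g₀ - 1 →
  ¬ Z.E.T ^ 2 ∣ Z.E.ev (fun n => κ n ∅) g₀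

open PowerSeries in
/-- the theorem of this part -/
def MACH_st : Prop := ∀ (O k : Type) [CommRing O] [IsDomain O] [IsPrincipalIdealRing O] [Field k]
  (Z : Dt O⟦X⟧) (ϖ : O) (red : O →+* k) (κ d : ℕ → Finset ℕ → GQ → O⟦X⟧) (g₀ : GG), Z.Ok →
  (∀ ε, ∃ P, Lb (Z.χ ε) P) → Lx Z.E ϖ red → Z.Cls κ d → HSt (Z.χ (!Z.s₀)) Z.r → Z.Xi →
  HB (Z.χ Z.s₀) Z.r → Inc GK g₀ → ¬ Z.E.T ∣ Z.E.ev (Z.th Z.s₀) g₀ - 1 →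
  ¬ Z.E.T ^ 2 ∣ Z.E.ev (fun n => κ n ∅) g₀

end Pool.Agent.MP_e23604_nt.V
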