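import Pool.Agent.Mg.Fe23604m.G5a860c
import Pool.Agent.Mg.Fe23604m.G160902
import Pool.Agent.Mg.Fe23604m.G6e73ea
import Pool.Agent.Mg.Fe23604m.G8dd564
import Pool.Agent.Mg.Fe23604m.G1bd87d
import Pool.Agent.Mg.Fe23604m.G2dfde4
import Pool.Agent.Mg.Fe23604m.G2ca419
import Pool.Agent.Mg.Fe23604m.G91bd51
import Pool.Agent.Mg.Fe23604m.Gc992fc
import Pool.Agent.Mg.Fe23604m.G917aeb
import Pool.Agent.Mg.Fe23604m.Gd767a4

set_option linter.all false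

section

/-!
The cubic ring class characters are Kummer characters.
-/

set_option autoImplicit false

namespace Pool.Agent.MP_e23604_nt.N

theorem AKU_of (h : X.FACN_st) : AKU_st := fun l hl h3 => by
  obtain ⟨f, h1, h2, h4⟩ := h l hl h3
  have e : ∀ x, f x = f 1 * (x.val : ZMod 3) := fun x => by
    conv_lhs => rw [← ZMod.natCast_zmod_val x, ← nsmul_one, map_nsmul, nsmul_eq_mul, mul_comm]
  exact ⟨f 1, h4, fun g hg => (h1 g hg).trans (e _), (e _).symm.trans h2⟩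

end Pool.Agent.MP_e23604_nt.N

end

section

/-!
Cohomology classes attached to a system of points: the statements hold.
-/

set_option autoImplicit false

namespace Pool.Agent.MP_e23604_nt.N

theorem KIT_ok : KIT_st := KIT_pf
theorem LU_ok : LU_st := LU_pf KIT_ok
theorem AL_ok : AL_st := AL_pf KIT_ok LU_ok
theorem FRI_ok : FRI_st := FRI_pf Y.INF_pf
theorem CN_ok : CN_st := CN_pf KIT_ok LU_ok AL_ok
theorem SUM_ok : SUM_st := SUM_pf
theorem DL_ok : DL_st := DL_pf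
theorem TL0_ok : TL0_st := TL0_pf LU_ok FRI_ok AL_ok
theorem KT_ok : KT_st := KT_pf DL_ok AL_ok CN_ok SUM_ok
theorem LEV_ok : LEV_st := LEV_pf DL_ok KT_ok
theorem SLOT_ok : SLOT_st := SLOT_pf DL_ok KT_ok CN_ok SUM_ok TL0_ok
theorem SHF_ok : SHF_st := SHF_pf KT_ok SUM_ok SLOT_ok
theorem SHC_ok : SHC_st := SHC_pf LU_ok DL_ok KT_ok CN_ok SUM_ok SLOT_ok SHF_ok
theorem KC_ok : KC_st := KC_pf KT_ok
theorem UNR_ok : UNR_st := UNR_pf DL_ok AL_ok KT_ok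
theorem TRS_ok : TRS_st := TRS_pf DL_ok AL_ok FRI_ok KT_ok CN_ok SUM_ok
theorem FS_ok : FS_st := FS_pf DL_ok AL_ok FRI_ok KT_ok CN_ok SUM_ok TL0_ok TRS_ok
theorem LOC_ok : LOC_st := LOC_pf DL_ok AL_ok KT_ok CN_ok SUM_ok
theorem TRF_ok : TRF_st := TRF_pf DL_ok
theorem SPL_ok : SPL_st := SPL_pf DL_ok KT_ok CN_ok SUM_ok X.KPI_pf X.KW_pf
theorem BAS_ok : BAS_st := BAS_pf LU_ok DL_ok AL_ok KT_ok CN_ok X.KPI_pf

end Pool.Agent.MP_e23604_nt.N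

end

section

set_option autoImplicit false

open Finset Filter QuadraticAlgebra
open scoped Classical

namespace Pool.Agent.MP_e23604_nt.V

open B R S W

theorem col_MUNI {Λ A ι J : Type} [CommRing Λ] (S : Finset J) (θ : A → Λ) (e : ι → J)
    (he : ∀ i, e i ∈ S) (L : List (A × ι)) : ∃ w : J → Λ, ∀ (R : Type) [CommRing R] (π : Λ →+* R)
      (v : J → R), (L.map fun a => π (θ a.1) * v (e a.2)).sum = ∑ j ∈ S, π (w j) * v j := by
  induction L with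
  | nil => exact ⟨0, fun R _ π v => by simp⟩
  | cons a L ih =>
    obtain ⟨w, hw⟩ := ih
    refine ⟨Pi.single (e a.2) (θ a.1) + w, fun R _ π v => ?_⟩
    simp [hw R π v, add_mul, sum_add_distrib, Pi.single_apply, apply_ite π, he]

theorem sq_MUNI {g : GQ} (hg : g ∈ GK) {s : Qb} (h : km 3 g s ≠ 0) (e : s ^ 2 = -3) :
    km 3 g (W.io pw) ≠ 0 := by
  rcases sq_eq_sq_iff_eq_or_eq_neg.1 (e.trans W.io_pw_sq.symm) with rfl | rfl
  · exact h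
  have h0 := W.io_ne pw_ne
  have h1 := ((KM_ok 3 three_ne_zero).2.2.2.2.2.2.2.1 g hg).1
  rw [km_fix three_ne_zero (neg_ne_zero.2 h0) (s := -rt 3 (W.io pw))
    (by rw [Odd.neg_pow (by decide), rt_pow three_ne_zero])
    (by rw [map_neg, W.io_fix hg]) h1, map_neg, neg_div_neg_eq] at h
  rwa [km_fix three_ne_zero h0 (rt_pow three_ne_zero _) (W.io_fix hg _) h1]

/-- the form `w` computes the values at `g` -/
def Vl_MUNI {Λ : Type} [CommRing Λ] (Z : Mx Λ) (ε : Bool) (n : ℕ) (g : GQ) (T : Finset Zw)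
    (w : Bool ⊕ Zw → Λ) : Prop :=
  ∀ (R : Type) [CommRing R] (π : Λ →+* R) (f : GQ → R), (∀ a ∈ Z.E.m ^ n, π a = 0) →
    Co (fun g => π (Z.th ε n g)) GK f → Unr (3 * ∏ ϖ ∈ T, ϖ) f →
    f g = ∑ j ∈ (univ : Finset Bool).disjSum T, π (w j) * f (Z.gen j)

theorem mono_MUNI {Λ : Type} [CommRing Λ] {Z : Mx Λ} (hZ : Z.Ok0) {ε : Bool} {n : ℕ} {g : GQ}
    {T T' : Finset Zw} {w : Bool ⊕ Zw → Λ} (h : Vl_MUNI Z ε n g T' w) (hT : ∀ ϖ ∈ T', PP ϖ)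
    (e : T ⊆ T') : Vl_MUNI Z ε n g T w := fun R _ π f h1 h2 h3 => by
  rw [h R π f h1 h2 fun V hV => h3 V fun e' => hV
    (e'.dvd (mul_dvd_mul_left _ (prod_dvd_prod_of_subset _ _ _ e)))]
  refine (sum_subset (disjSum_mono le_rfl e) ?_).symm
  rintro (t | ϖ) h4 h5
  · simp at h5
  rw [inr_mem_disjSum] at h4 h5
  obtain ⟨p1, -, p2, -⟩ := hZ.pk.tm ϖ (hT ϖ h4)
  refine mul_eq_zero_of_right _ (h3 _ (fun h6 => h5 ?_) _ p2)
  obtain ⟨ϖ', h7, h8⟩ := koch_mem PLK_ok h6 ((hT ϖ h4).l_neK p1)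
  rwa [PLK_ok.2.2.2.2.2.2.2.1 ϖ ϖ' (hT ϖ h4) (hT ϖ' (e h7))
    (((PLK_ok.2.2.1 _ ϖ (hT ϖ h4).1 p1).1 _).1 h8)]

theorem ex_MUNI (hTRM : TRM_st) (hTHA : THA_st) (hTHB : THB_st) {Λ : Type} [CommRing Λ] {Z : Mx Λ}
    (hZ : Z.Ok0) (ε : Bool) (n : ℕ) {g : GQ} (hg : g ∈ GK) {T : Finset Zw} (hT : ∀ ϖ ∈ T, PP ϖ)
    (e : insert (-(Z.q n : Zw)) (Tr Z.r) ⊆ T) : ∃ w, Vl_MUNI Z ε n g T w := by
  obtain ⟨-, -, -, -, -, a1, a2⟩ := hTHA Λ Z.toDt n hZ.toOk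
  obtain ⟨a3, a4, a5, -⟩ := a1 ε
  obtain ⟨fin, ⟨j⟩, a6⟩ := a2 _ le_rfl
  have hθ := a4 _ (Ideal.Quotient.mk _) fun a => Ideal.Quotient.eq_zero_iff_mem.2
  have h3 : (3 : Λ ⧸ Z.E.m ^ n) ^ (n + 1) = 0 := by
    simpa using (map_natCast j _).symm.trans ((congrArg j (ZMod.natCast_self _)).trans (map_zero j))
  obtain ⟨k, -, hk⟩ := koch_unip _ ⟨_, h3⟩
  have hm : Tm T Z.K.V Z.K.σ Z.K.τ := fun ϖ h => ⟨hT ϖ h, hZ.pk.tm ϖ (hT ϖ h)⟩
  have hO : ∀ W : Plc, Ov W (3 * (Z.r * Z.q n : ℕ)) → Ov W (3 * ∏ ϖ ∈ T, ϖ) := fun W h => by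
    rw [Nat.cast_mul, ← mul_assoc, Ov_mul, ← (hTRM _ (hZ.tw ε).sf.ne_zero (hZ.tw ε).n3).2.2.2.2] at h
    exact h.elim (fun h => h.dvd (mul_dvd_mul_left _ (prod_dvd_prod_of_subset _ _ _
      ((subset_insert _ _).trans e)))) fun h => h.dvd
        ((neg_dvd.1 (dvd_prod_of_mem (fun ϖ => ϖ) (e (mem_insert_self _ _)))).mul_left _)
  have x3 := sq_MUNI (hZ.xK false) hZ.x3 (by
    first
    | exact W.io_pw_sq
    | rw [← SubmonoidClass.coe_pow, ← map_pow, W.pw_sq, map_neg, map_ofNat]; rfl)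
  obtain ⟨L, -, hL⟩ := NUL_ok _ _ _ hθ.kerK (n + 1) g (mul_ne_zero (by decide)
    (prod_ne_zero_iff.2 fun ϖ h => (hT ϖ h).1.ne_zero))
    (koch_gn3 KGEN_ok PLK_ok (hZ.xK true) (hZ.xK false) hZ.x1 hZ.x2 x3 hm) hθ.kerK_open
    (fun _ h => h.1) hθ.kerK_conj (fun g hg => ⟨k, pow_mem hg _,
      (hθ.powK hg _).trans (hk _ (by simpa using a6 _ (a5 g hg).1))⟩)
    (fun W hW g hg => ⟨hg.2, Ideal.Quotient.eq.2 (a3.2 g
      ((hTHB Λ Z.toDt n hZ.toOk).2.2.1 W (fun h => hW (hO W h)) hg))⟩) hg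
  obtain ⟨w, hw⟩ := col_MUNI (univ.disjSum T) (Z.th ε n) (Sum.map id Subtype.val : Bool ⊕ T → _)
    (by rintro (t | ϖ) <;> simp) L
  refine ⟨w, fun R _ π f h1 h2 h4 => ?_⟩
  rw [← hw R π fun j => f (Z.gen j), hL R _ f (by
    simpa [map_ofNat] using congrArg (Ideal.Quotient.lift _ π h1) h3) (a4 R π h1) (fun u hu => by
    simpa using congrArg (Ideal.Quotient.lift _ π h1) hu.2) h2 h4]
  refine congrArg List.sum (List.map_congr_left ?_)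
  rintro ⟨a, (_ | _) | ϖ⟩ - <;> rfl

theorem UNI_pf (hY : HY) (hTRM : TRM_st) (hTHA : THA_st) (hTHB : THB_st) : UNI_st := by
  intro Λ _ Z hZ ε n
  have fin := Z.E.fin n
  choose! w hw using fun g hg T => ex_MUNI hTRM hTHA hTHB hZ ε n (g := g) hg (T := T)
  let u := Ultrafilter.of (atTop : Filter (Finset Zw))
  have h1 : ∀ g j, ∃ a : Λ, ∀ᶠ T : Finset Zw in u, w g (T.filter PP) j - a ∈ Z.E.m ^ n := fun g j => by
    obtain ⟨a, ha⟩ := (u.map fun T => Ideal.Quotient.mk (Z.E.m ^ n)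
      (w g (T.filter PP) j)).eq_pure_of_finite
    obtain ⟨a, rfl⟩ := Ideal.Quotient.mk_surjective a
    have := (Ultrafilter.mem_pure (s := {Ideal.Quotient.mk (Z.E.m ^ n) a})).2 rfl
    rw [← ha] at this
    exact ⟨a, mem_of_superset (Ultrafilter.mem_map.1 this) fun T h => Ideal.Quotient.eq.1 h⟩
  choose v hv using h1
  refine ⟨v, fun T t1 t2 R _ π f h2 h3 h4 g hg => ?_⟩
  obtain ⟨T', h5, h6⟩ := (((eventually_ge_atTop T).filter_mono (Ultrafilter.of_le _)).and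
    ((eventually_all_finset (univ.disjSum T)).2 fun j _ => hv g j)).exists
  have h7 : T ⊆ T'.filter PP := fun ϖ h => mem_filter.2 ⟨h5 h, t1 ϖ h⟩
  have h8 : ∀ ϖ ∈ T'.filter PP, PP ϖ := fun ϖ h => (mem_filter.1 h).2
  rw [mono_MUNI hZ (hw g hg _ h8 (t2.trans h7)) h8 h7 R π f h2 h3 h4]
  exact sum_congr rfl fun j hj => by
    rw [sub_eq_zero.1 ((map_sub π _ _).symm.trans (h2 _ (h6 j hj)))]

end Pool.Agent.MP_e23604_nt.V

end

section

set_option autoImplicit false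

open Finset Filter QuadraticAlgebra
open scoped Classical

namespace Pool.Agent.MP_e23604_nt.V

open B R S W

theorem cls_MGER (hY : HY) {ϖ : Zw} (h : PP ϖ) {r : ℕ} (hr : ϖ ∣ r) (hn : ¬ (nn ϖ).Prime) :
    ∃ l : ℕ, l.Prime ∧ l % 3 = 2 ∧ l ∣ r ∧ ϖ = -l := by
  obtain ⟨V, hV⟩ := PLK_ok.2.1 ϖ h.1
  obtain ⟨h1, -, h2, -⟩ := PLK_ok.2.2.1 V ϖ h.1 hV
  rcases h2 with h2 | h2 | h2
  · exact absurd (h2.2.1 ▸ V.hl.out) hn
  · obtain ⟨φ, hφ⟩ := hY.INF.2.1 V h2.1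
    obtain ⟨g1, g2, -⟩ := hY.INF.2.2 V φ hφ
    exact ⟨V.l, V.hl.out, h2.1, (PLK_ok.2.2.2.1 V r).1 ((h1 _).2 hr),
      PLK_ok.2.2.2.2.2.2.2.1 _ _ h g1 ((h1 _).1 g2)⟩
  · exact absurd (h2.2 ▸ Nat.prime_three) hn

theorem pp_MGER (hY : HY) {l : ℕ} (h : l.Prime) (h3 : l % 3 = 2) : PP (-l) := by
  have := Fact.mk h
  obtain ⟨φ, hφ⟩ := hY.INF.2.1 ⟨l, 1⟩ h3
  exact (hY.INF.2.2 _ φ hφ).1

theorem inj_MGER : Function.Injective fun l : ℕ => -(l : Zw) := fun a b h => by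
  have := congrArg nn h
  simp only [nn_neg, nn_nat] at this
  exact Nat.pow_left_injective two_ne_zero this

theorem TRM_pf (hY : HY) : TRM_st := by
  intro r h0 _
  have h0' : (r : Zw) ≠ 0 := fun e => by
    have := congrArg nn e
    rw [nn_nat] at this
    exact h0 (pow_eq_zero_iff two_ne_zero |>.1 this)
  obtain ⟨T, hT, hW⟩ := ex_primes_LOW PLK_ok h0'
  have h1 : ∀ ϖ, ϖ ∈ Tr r ↔ PP ϖ ∧ ϖ ∣ r :=
    Classical.epsilon_spec (p := fun T : Finset Zw => ∀ ϖ, ϖ ∈ T ↔ PP ϖ ∧ ϖ ∣ r) ⟨T, hT⟩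
  have e : Tr r = T := Finset.ext fun ϖ => (h1 ϖ).trans (hT ϖ).symm
  have h2 : ∀ ϖ, ϖ ∈ Bz r ↔ ∃ l ∈ Bn r, ϖ = -l := fun ϖ => by
    simp only [Bz, Bn, mem_filter, Nat.mem_primeFactors, h1]
    constructor
    · rintro ⟨⟨a, b⟩, c⟩
      obtain ⟨l, a1, a2, a3, a4⟩ := cls_MGER hY a b c
      exact ⟨l, ⟨⟨a1, a3, h0⟩, a2⟩, a4⟩
    · rintro ⟨l, ⟨⟨a1, a3, -⟩, a2⟩, rfl⟩
      refine ⟨⟨pp_MGER hY a1 a2, neg_dvd.2 (Nat.cast_dvd_cast a3)⟩, ?_⟩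
      rw [nn_neg, nn_nat]
      exact Nat.Prime.not_prime_pow le_rfl
  refine ⟨h1, h2, ?_, fun ϖ hϖ => ?_, e ▸ hW⟩
  · rw [← card_image_of_injective (Bn r) inj_MGER]
    congr 1
    ext ϖ
    rw [h2, mem_image]
    exact exists_congr fun l => and_congr_right fun _ => eq_comm
  · simp only [Sz, mem_filter, h1] at hϖ ⊢
    obtain ⟨⟨a, b⟩, c⟩ := hϖ
    refine ⟨⟨⟨PLK_ok.2.2.2.2.2.2.2.2.1 ϖ a, ?_⟩, (nn_star ϖ).symm ▸ c⟩, fun hs => ?_,
      nn_mod3 a.2.pw⟩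
    · simpa [starRingEnd_apply] using map_dvd (starRingEnd Zw) b
    · have hi : ϖ.im = 0 := by
        have := congrArg QuadraticAlgebra.im hs
        simp at this
        omega
      have : nn ϖ = ϖ.re.natAbs ^ 2 := by
        rw [nn, nw_def, hi]; simp [Int.natAbs_pow]
      exact Nat.Prime.not_prime_pow le_rfl (this ▸ c)

theorem cs_MGER : Function.Injective cs := fun _ _ h =>
  Germ.const_inj.1 (Sum.inr_injective h)

theorem m1_MGER {j : JJ} : j ∈ m1 ↔ ∃ t, j = .inl t := by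
  rcases j with t | a
  · cases t <;> simp [m1]
  · simp [m1]

theorem GER_pf (hY : HY) (hTRM : TRM_st) (hTHB : THB_st) : GER_st := by
  intro Λ _ Z hZ
  obtain ⟨t1, -, t3, -, -⟩ := hTRM Z.r (hZ.tw true).sf.ne_zero (hZ.tw true).n3
  have hB : ∀ n l : ℕ, l.Prime → 3 ^ (n + 3) * Z.r ∣ l + 1 → PP (-l) ∧ -(l : Zw) ∉ Tr Z.r := by
    intro n l h1 h2
    obtain ⟨-, a, b, -⟩ := (hTHB Λ Z.toDt n hZ.toOk).2.2.2.1 l h1 h2
    refine ⟨b, fun e => a ?_⟩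
    have := nn_dvd ((t1 _).1 e).2
    rw [nn_neg, nn_nat, nn_nat] at this
    exact (Nat.pow_dvd_pow_iff two_ne_zero).1 this
  have hq : ∀ᶠ n in uf, sq (Germ.ofFun fun n => -(Z.q n : Zw)) n = -(Z.q n : Zw) := sq_ofFun _
  have hm0 : ∀ j, j ∈ Z.m0 ↔ (∃ t, j = .inl t) ∨ ∃ ϖ ∈ Tr Z.r, cs ϖ = j := fun j => by
    rw [Mx.m0, mem_union, m1_MGER, mem_image]
  have a1 : Z.qg ∉ Z.m0 := fun e => by
    rcases (hm0 _).1 e with ⟨t, e⟩ | ⟨ϖ, h1, e⟩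
    · cases e
    · obtain ⟨n, h2, h3⟩ := (hq.and (sq_const ϖ)).exists
      rw [Sum.inr_injective e, h2] at h3
      exact (hB n _ (hZ.qp n) (hZ.qd n)).2 (h3 ▸ h1)
  have a2 : Z.qg ∉ Z.L := by
    rintro ⟨a, e, h⟩
    obtain ⟨n, h2, l, h3, h4⟩ := (hq.and h).exists
    rw [← Sum.inr_injective e, h2] at h3
    exact h4.2.2 (inj_MGER h3).symm
  have a3 : ∀ j ∈ Z.m0, j ∉ Z.L := by
    rintro j hj ⟨a, rfl, h⟩
    rcases (hm0 _).1 hj with ⟨t, e⟩ | ⟨ϖ, h1, e⟩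
    · cases e
    · obtain ⟨n, h2, l, h3, h4⟩ := ((sq_const ϖ).and h).exists
      rw [← Sum.inr_injective e, h2] at h3
      exact (hB n l h4.1 h4.2.1).2 (h3 ▸ h1)
  have a4 : Z.m0 = m1 ∪ Z.Sg ∪ Z.Bg := by
    rw [Mx.m0, Mx.Sg, Mx.Bg, union_assoc, ← image_union, Sz, Bz, filter_union_filter_not_eq]
  have a5 : Disjoint m1 (Z.Sg ∪ Z.Bg) := by
    refine disjoint_left.2 fun j hj h => ?_
    obtain ⟨t, rfl⟩ := m1_MGER.1 hj
    simp [Mx.Sg, Mx.Bg, cs] at h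
  have a6 : Disjoint Z.Sg Z.Bg :=
    (disjoint_image cs_MGER).2 (disjoint_filter_filter_not _ _ _)
  have b1 : m1 ⊆ Z.m0 := subset_union_left
  have b2 : Z.Bg ⊆ Z.m0 := a4 ▸ subset_union_right
  have b3 : m1 ∪ Z.Sg ⊆ Z.m0 := a4 ▸ subset_union_left
  have b4 : Disjoint (m1 ∪ Z.Sg) Z.Bg :=
    disjoint_union_left.2 ⟨a5.mono_right subset_union_right, a6⟩
  have c1 : Sd Z.L' Z.s := by
    intro m l hl hm
    have h1 : l ∉ m1 ∪ Z.Sg := fun e =>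
      hl.elim (a3 l (b3 e)) fun h => disjoint_left.1 b4 e h
    have h2 : l ∉ m \ (m1 ∪ Z.Sg) := fun e => hm (mem_sdiff.1 e).1
    have key : ∀ m' : Finset JJ, m' = insert l m → Z.s m' = !Z.s m := by
      rintro _ rfl
      unfold Mx.s
      rw [insert_sdiff_of_notMem _ h1, card_insert_of_notMem h2]
      by_cases h : Odd (m \ (m1 ∪ Z.Sg)).card <;> simp [Nat.odd_add_one, h]
    exact key _ (by ext; simp)
  refine ⟨⟨a1, a2, a3, a4, a5, a6, cs_MGER⟩, fun A hA => ?_, fun m hm => ?_,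
    fun l hl => ⟨_, rfl, (sq_ofFun _).mono fun n e => ⟨l n, e, hl n⟩⟩, c1,
    fun m l hl => c1 m l (Or.inl hl), ?_, fun m => ?_, fun j => ?_⟩
  · have e1 : ∀ᶠ n in uf, ∀ a ∈ A.toRight, ∀ b ∈ A.toRight, a ≠ b → sq a n ≠ sq b n := by
      refine (eventually_all_finset _).2 fun a _ => (eventually_all_finset _).2 fun b _ => ?_
      by_cases e : a = b
      · exact Eventually.of_forall fun _ h => absurd e h
      · exact (sq_ne e).mono fun _ h _ => h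
    have e3 : ∀ᶠ n in uf, ∀ ϖ ∈ Tr Z.r, sq (ϖ : Gm) n = ϖ :=
      (eventually_all_finset _).2 fun ϖ _ => sq_const ϖ
    have e4 : ∀ᶠ n in uf, ∀ j ∈ A, j ∉ insert Z.qg Z.m0 →
        ∃ l : ℕ, jn n j = .inr (-(l : Zw)) ∧ Z.ok n l := by
      refine (eventually_all_finset _).2 fun j hj => ?_
      by_cases e : j ∈ insert Z.qg Z.m0
      · exact Eventually.of_forall fun _ h => absurd e h
      · obtain ⟨a, rfl, h⟩ := hA.2 j hj e
        exact h.mono fun n ⟨l, h1, h2⟩ _ => ⟨l, congrArg Sum.inr h1, h2⟩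
    filter_upwards [e1, hq, e3, e4] with n e1 e2 e3 e4
    have hT : ∀ ϖ, ϖ ∈ Tn A n ↔ ∃ a, Sum.inr a ∈ A ∧ sq a n = ϖ := fun ϖ => by
      simp only [Tn, mem_image, mem_toRight]
    refine ⟨?_, fun ϖ hϖ => ?_, fun ϖ hϖ => (hT ϖ).2 ?_, ?_, congrArg Sum.inr e2,
      fun ϖ h => congrArg Sum.inr (e3 ϖ h), e4⟩
    · rintro (s | a) ha (t | b) hb h
      · exact congrArg Sum.inl (Sum.inl_injective h)
      · cases h
      · cases h
      · by_contra e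
        exact e1 a (mem_toRight.2 ha) b (mem_toRight.2 hb) (fun e' => e (congrArg _ e'))
          (Sum.inr_injective h)
    · obtain ⟨a, ha, rfl⟩ := (hT ϖ).1 hϖ
      by_cases e : Sum.inr a ∈ insert Z.qg Z.m0
      · rcases mem_insert.1 e with e | e
        · rw [Sum.inr_injective e, e2]
          exact (hB n _ (hZ.qp n) (hZ.qd n)).1
        · rcases (hm0 _).1 e with ⟨t, e⟩ | ⟨ϖ, h1, e⟩
          · cases e
          · rw [← Sum.inr_injective e, e3 ϖ h1]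
            exact ((t1 ϖ).1 h1).1
      · obtain ⟨l, h1, h2⟩ := e4 _ ha e
        rw [show sq a n = -l from Sum.inr_injective h1]
        exact (hB n l h2.1 h2.2.1).1
    · rcases mem_insert.1 hϖ with rfl | h
      · exact ⟨_, hA.1 (mem_insert_self _ _), e2⟩
      · exact ⟨_, hA.1 (mem_insert_of_mem ((hm0 _).2 (Or.inr ⟨ϖ, h, rfl⟩))), e3 ϖ h⟩
    · ext x
      rw [mem_image]
      rcases x with t | ϖ
      · exact iff_of_true ⟨.inl t, hA.1 (mem_insert_of_mem ((hm0 _).2 (Or.inl ⟨t, rfl⟩))), rfl⟩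
          (inl_mem_disjSum.2 (mem_univ t))
      · rw [inr_mem_disjSum, hT]
        constructor
        · rintro ⟨s | a, h1, h2⟩
          · cases h2
          · exact ⟨a, h1, Sum.inr_injective h2⟩
        · rintro ⟨a, h1, h2⟩
          exact ⟨.inr a, h1, congrArg Sum.inr h2⟩
  · refine ⟨insert_subset_insert _ subset_union_right, fun j hj h => ?_⟩
    have h1 : j ∉ Z.m0 := fun e => h (mem_insert_of_mem e)
    have h2 : j ∈ m := by
      rcases mem_insert.1 hj with e | e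
      · exact absurd (e ▸ mem_insert_self _ _) h
      · exact (mem_union.1 e).resolve_right h1
    rcases hm with hm | hm
    · exact hm.2 j h2 h1
    · exact (hm.2 j h2 fun e => h1 (b1 e)).resolve_right fun e => h1 (b2 e)
  · unfold Mx.s Dt.sd
    rw [a4, union_sdiff_cancel_left b4, Mx.Bg, card_image_of_injective _ cs_MGER, t3]
    simp
  · unfold Mx.s
    rw [union_sdiff_distrib, sdiff_eq_empty_iff_subset.2 subset_union_right, union_empty]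
  · rcases j with t | a
    · exact ⟨fun _ => hZ.xK t, fun _ => one_mem _⟩
    · exact ⟨fun _ => (hZ.pk.gk _).2, fun _ => (hZ.pk.gk _).1⟩

end Pool.Agent.MP_e23604_nt.V

end
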