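import Pool.Agent.Mg.Fe23604m.G6175d3
import Pool.Agent.Mg.Fe23604m.Gac7c91
import Pool.Agent.Mg.Fe23604m.G91bd51
import Pool.Agent.Mg.Fe23604m.Gc992fc
import Pool.Agent.Mg.Fe23604m.Gd1ccef
import Pool.Agent.Mg.Fe23604m.G6e73ea
import Pool.Agent.Mg.Fe23604m.G18296d
import Pool.Agent.Mg.Fe23604m.G2be4e0
import Pool.Agent.Mg.Fe23604m.G6cd967
import Pool.Agent.Mg.Fe23604m.G160902
import Pool.Agent.Mg.Fe23604m.Gd29762
import Pool.Agent.Mg.Fe23604m.G5a860c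
import Pool.Agent.Mg.Fe23604m.G8dd564
import Pool.Agent.Mg.Fe23604m.G1bd87d
import Pool.Agent.Mg.Fe23604m.G2dfde4

set_option linter.all false

/-!
The proved statements on lines, classes and local facts.
-/

set_option autoImplicit false

namespace Pool.Agent.MP_e23604_nt.X

theorem KIT_ok : N.KIT_st := N.KIT_pf
theorem LU_ok : N.LU_st := N.LU_pf KIT_ok
theorem NAL_ok : N.AL_st := N.AL_pf KIT_ok LU_ok
theorem AKU_ok : N.AKU_st := N.AKU_of FACN_pf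
theorem NRAM_ok : N.RAM_st := N.RAM_pf KIT_ok LU_ok NAL_ok AKU_ok Y.RAMI_ok KW_pf
theorem FRI_ok : N.FRI_st := N.FRI_pf Y.INF_ok
theorem CN_ok : N.CN_st := N.CN_pf KIT_ok LU_ok NAL_ok
theorem NSUM_ok : N.SUM_st := N.SUM_pf
theorem DL_ok : N.DL_st := N.DL_pf
theorem KT_ok : N.KT_st := N.KT_pf DL_ok NAL_ok CN_ok NSUM_ok
theorem TRF_ok : N.TRF_st := N.TRF_pf DL_ok
theorem LGK_ok : LGK_st := LGK_of LU_ok
theorem CQ_ok : CQ_st := CQ_pf NEU_pf SYM_pf KQT_pf XI_pf LGK_ok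
theorem DAT_ok : DAT_st := DAT_pf NRAM_ok FRI_ok LU_ok NAL_ok CQ_ok
theorem UN3_ok : UN3_st := UN3_pf KW_pf
theorem IND_ok : IND_st := IND_pf KW_pf

end Pool.Agent.MP_e23604_nt.X
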