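import Pool.Agent.Mg.Fe23604m.Gff9688

set_option linter.all false

/-!
The classes with values in the ring of power series form systems.
-/

set_option autoImplicit false

open Finset QuadraticAlgebra
open scoped Classical

namespace Pool.Agent.MP_e23604_nt.N

open B R S W V X

section

variable {R : Type} [CommRing R]

theorem cast_KS {m : ℕ} (h : (m : R) = 0) {a b : ℕ} (e : (a : ZMod m) = b) : (a : R) = b := by
  have k : ∀ c : ℕ, (c : R) = (c % m : ℕ) := fun c => by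
    conv_lhs => rw [← Nat.mod_add_div c m, Nat.cast_add, Nat.cast_mul, h, zero_mul, add_zero]
  rw [k a, k b, (ZMod.natCast_eq_natCast_iff' a b m).1 e]

theorem sum_KS {m : ℕ} [NeZero m] (h : (m : R) = 0) (h2 : IsUnit (2 : R)) :
    ∑ i : ZMod m, (i.val : R) = 0 := by
  have e : ∑ i : ZMod m, (i.val : R) = ∑ i : ZMod m, ((-i).val : R) :=
    (Equiv.sum_comp (Equiv.neg (ZMod m)) fun i => (i.val : R)).symm
  refine h2.mul_right_eq_zero.1 ?_
  rw [two_mul]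
  nth_rw 2 [e]
  rw [← sum_add_distrib]
  refine sum_eq_zero fun i _ => ?_
  rw [← Nat.cast_add, cast_KS h (b := 0) (by simp), Nat.cast_zero]

theorem kum_KS {φ : Zw →+* R} {M : Zw} {χ χ' : GQ → ZMod 3} {D : Subgroup GQ} {c : GQ → R}
    (e : ∀ g ∈ D, χ g = χ' g) (h : Kum φ M χ D c) : Kum φ M χ' D c := by
  obtain ⟨ι, i, r, P, h1, m, h2⟩ := h
  refine ⟨ι, i, r, P, fun t g hg => ?_, m, fun g hg => ?_⟩
  · rw [eta_apply, ← e g hg]
    exact h1 t g hg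
  · rw [h2 g hg]
    simp only [dl, lamZ, eta_apply, e g hg]

theorem dvd_KS (φ : Zw →+* R) {M a b : Zw} (h : φ M = 0) (e : M ∣ a - b) : φ a = φ b := by
  obtain ⟨c, hc⟩ := e
  rw [← sub_eq_zero, ← map_sub, hc, map_mul, h, zero_mul]

theorem lam_KS (H : HS) (ε : ZMod 3) (φ : Zw →+* R) {M : Zw} (hM : M ≠ 0) (h : φ M = 0) {τ : GQ}
    (hτ : τ ∈ UM (9 * M)) : lamZ φ (H.χ ε) M τ = 1 := by
  have h1 : τ ∈ UM 9 := ⟨hτ.1, fun P e => hτ.2 P (by rw [mul_comm, mul_smul, e, smul_zero])⟩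
  have h2 : τ ∈ UM M := ⟨hτ.1, fun P e => hτ.2 P (by rw [mul_smul, e, smul_zero])⟩
  rw [lamZ, H.fac ε τ h1, ZMod.val_zero, pow_zero, one_mul,
    dvd_KS φ h (((PS_ok M hM).1 τ hτ.1).2.2.2.1.1 h2), map_one]

end

theorem pl_KS (hF : FRI_st) {K : Pk} (hK : K.Ok) {l : ℕ} (hl : l.Prime) (h3 : l % 3 = 2) :
    ∃ (V : Plc) (f : GQ), V.l = l ∧ Frob V.l V.γ f ∧ K.σ (-l) = f * f ∧ K.τ (-l) ∈ V.I := by
  obtain ⟨h1, h2, h4⟩ := hK.ine l hl h3
  have h5 := (hF _ h2.l3).1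
  rw [h1] at h5
  exact ⟨_, _, h1, h2.fr, by rw [h4, pow_two], (hK.tm _ h5).2.2.1⟩

theorem mod_KS {l : ℕ} {M : Zw} (h : pw * M ∣ l + 1) : l % 3 = 2 := by
  have h1 := pw_dvd_iff.1 ((dvd_mul_right _ _).trans h)
  rw [← Nat.cast_succ, nn_nat] at h1
  have := Nat.prime_three.dvd_of_dvd_pow h1
  omega

theorem ov_KS {V : Plc} {M : Zw} {n : ℕ} (h : ¬ Ov V 3) (e : M ∣ 3 ^ n) (k : ℕ) :
    ¬ Ov V (3 ^ k * M) := fun a => h (Ov_pow (n := k + n) (a.dvd (by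
      rw [pow_add]; exact mul_dvd_mul_left _ e)))

section

variable {Λ : Type} [CommRing Λ] (Z : Dt Λ)

/-- the embeddings modulo an ideal -/
noncomputable def pq_KS (b : Ideal Λ) (ε : Bool) : Zw →+* Λ ⧸ b :=
  (Ideal.Quotient.mk b).comp (Z.ph ε)

/-- the weights modulo an ideal -/
noncomputable def wq_KS (f : Fn) (r n : ℕ) (b : Ideal Λ) : Wt (Λ ⧸ b) :=
  wv (pq_KS Z b (!Z.s₀)) f r.primeFactors (Z.q n) n (Ideal.Quotient.mk b (1 + Z.E.T))

/-- the multiplicative weights modulo an ideal -/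
noncomputable def uq_KS (f : Fn) (r n : ℕ) (b : Ideal Λ) : Wt (Λ ⧸ b) :=
  uu (pq_KS Z b (!Z.s₀)) f r.primeFactors (Z.q n) n (Ideal.Quotient.mk b (1 + Z.E.T))

/-- the conductors -/
noncomputable abbrev cd_KS (r n : ℕ) (S : Finset ℕ) : Finset ℕ :=
  insert (Z.q n) (r.primeFactors ∪ S)

theorem kt_KS (H : HS) (f : Fn) (r : ℕ) (M : ℕ → Zw) (s : Finset ℕ → Bool) (n : ℕ) (S : Finset ℕ)
    (b : Ideal Λ) (g : GQ) : Ideal.Quotient.mk b (kt0 Z H f r.primeFactors M s n S g) =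
      H.kt (pq_KS Z b (s S)) (M n) (wq_KS Z f r n b) (cd_KS Z r n S) g := by
  rw [kt0, kt_map, wv_map]
  rfl

theorem kk_KS (H : HS) (f : Fn) (r : ℕ) (M : ℕ → Zw) (s : Finset ℕ → Bool) (n : ℕ) (S : Finset ℕ)
    (b : Ideal Λ) (g : GQ) : Ideal.Quotient.mk b (kk Z H f r.primeFactors M s n S g) =
      H.kc (pq_KS Z b (s S)) (M n) (wq_KS Z f r n b) (cd_KS Z r n S) (Z.K.τ (-Z.q n)) g :=
  kt_KS Z H f r M s n S b _

theorem cf_KS (b : Ideal Λ) (ε : Bool) : cf (pq_KS Z b ε) = pq_KS Z b (!ε) := by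
  rw [pq_KS, pq_KS, ← cf_ph]
  rfl

/-- the facts at a fixed level -/
structure Lv_KS (H : HS) (f : Fn) (b : Ideal Λ) (ε : Bool) (r : ℕ) (M : Zw) (n : ℕ)
    (S : Finset ℕ) : Prop where
  m0 : M ≠ 0
  z : ∀ ε, pq_KS Z b ε M = 0
  pn : Pn (cd_KS Z r n S)
  sh : H.Sh (pq_KS Z b ε) M (wq_KS Z f r n b) (uq_KS Z f r n b) (cd_KS Z r n S)
  lam : ∀ g ∈ GK, Ideal.Quotient.mk b (Z.th ε n g) =
    lamZ (pq_KS Z b ε) (Z.χ ε) M g * Ideal.Quotient.mk b (Z.ga n g)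
  rho : ∀ g ∈ GK, H.rho (pq_KS Z b ε) M (uq_KS Z f r n b) (cd_KS Z r n S) g =
    Ideal.Quotient.mk b (Z.th ε n g)
  um : Z.K.τ (-Z.q n) ∈ UM (9 * M)
  al : ∀ l : ℕ, l.Prime → l ≠ 3 → l ≠ Z.q n → Al l (Z.K.τ (-Z.q n)) = 0
  wt : wp (uq_KS Z f r n b) (cd_KS Z r n S) (Av (Z.K.τ (-Z.q n))) =
    Ideal.Quotient.mk b (1 + Z.E.T)

variable {Z}

theorem wq_eq_KS {f : Fn} {r n l : ℕ} (b : Ideal Λ) (h : ¬ l ∣ r) (h' : l ≠ Z.q n)
    (i : ZMod (ml l)) : wq_KS Z f r n b l i = i.val := by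
  rw [wq_KS, wv, if_neg fun e => h (Nat.dvd_of_mem_primeFactors e), if_neg h']

theorem ml_KS {b : Ideal Λ} {M : Zw} {l : ℕ} (h : pq_KS Z b true M = 0) (e : pw * M ∣ l + 1) :
    ((ml l : ℕ) : Λ ⧸ b) = 0 := by
  have := dvd_KS _ h (a := l + 1) (b := 0) (by simpa using (dvd_mul_left _ _).trans e)
  rw [ml, if_pos (mod_KS e)]
  simpa using this

theorem lv_KS (hAL : AL_st) (hF : FRI_st) (hW : WT_st) (hFA : FAM_st) {H : HS} {f : Fn}
    (hL : Lk Z H f) {b : ℕ → Ideal Λ} {p : ℕ → ℕ → Prop} {s : Finset ℕ → Bool} {r : ℕ}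
    {M : ℕ → Zw} (F : Fam Z H f b p s r M) (n : ℕ) {S : Finset ℕ} (hS : ∀ l ∈ S, p n l) :
    Lv_KS Z H f (b n) (s S) r (M n) n S := by
  obtain ⟨q3, qr, qT⟩ := (hFA Λ Z H f hL).2.2.1 n
  have qp := hL.ok.qp n
  have m0 : M n ≠ 0 := fun e => pow_ne_zero (n + 1) (by decide : (3 : Zw) ≠ 0)
    (zero_dvd_iff.1 (e ▸ F.md n))
  have z : ∀ ε, pq_KS Z (b n) ε (M n) = 0 := fun ε => Ideal.Quotient.eq_zero_iff_mem.2 (F.mb n ε)
  have pn : Pn (cd_KS Z r n S) := fun l hl => by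
    rcases mem_insert.1 hl with rfl | hl
    · exact ⟨qp, by omega⟩
    rcases mem_union.1 hl with hl | hl
    · exact ⟨Nat.prime_of_mem_primeFactors hl, fun e => (hL.ok.tw true).n3
        (e ▸ (Nat.dvd_of_mem_primeFactors hl).trans F.dvd)⟩
    · have := mod_KS (F.pr n l (hS l hl)).2.1
      exact ⟨(F.pr n l (hS l hl)).1, by omega⟩
  have g1 : Ideal.Quotient.mk (b n) (1 + Z.E.T) ^ 3 ^ n = 1 := by
    rw [← map_pow, ← map_one (Ideal.Quotient.mk (b n))]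
    exact Ideal.Quotient.eq.2 (F.le n qT)
  obtain ⟨-, -, -, w4, -, w6⟩ := hW (Λ ⧸ b n) (pq_KS Z (b n) (!Z.s₀)) f r.primeFactors
    (cd_KS Z r n S) (Z.q n) n _ pn (mem_insert_self _ _)
    (fun e => qr ((Nat.dvd_of_mem_primeFactors e).trans F.dvd))
    (((pow_dvd_pow 3 (by omega)).trans (dvd_mul_right _ _)).trans (hL.ok.qd n)) g1
    fun l hl h1 h2 => by
      have h3 := (F.pr n l (hS l
        ((mem_union.1 ((mem_insert.1 hl).resolve_left h2)).resolve_left h1))).2.1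
      have h4 := ml_KS (z true) h3
      rw [ml, if_pos (mod_KS h3), Nat.cast_succ] at h4
      exact ⟨mod_KS h3, h4⟩
  have e1 : cd_KS Z r n S ∩ r.primeFactors = r.primeFactors :=
    inter_eq_right.2 (subset_union_left.trans (subset_insert _ _))
  rw [e1] at w4 w6
  have lam : ∀ g ∈ GK, Ideal.Quotient.mk (b n) (Z.th (s S) n g) =
      lamZ (pq_KS Z (b n) (s S)) (Z.χ (s S)) (M n) g * Ideal.Quotient.mk (b n) (Z.ga n g) :=
    fun g hg => by
      rw [Dt.th, map_mul]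
      congr 1
      refine dvd_KS (pq_KS Z (b n) (s S)) (z _) ?_
      rw [← mul_sub]
      refine Dvd.dvd.mul_left (((PS_ok _ m0).1 g hg).2.2.2.2.2.2.2.2 _ ?_
        ((F.md n).mul_right _)) _
      exact mul_ne_zero (pow_ne_zero _ (by decide)) (mul_ne_zero (by decide)
        (Nat.cast_ne_zero.2 (hL.ok.tw true).sf.ne_zero))
  obtain ⟨V, -, v1, -, -, v2⟩ := pl_KS hF hL.ok.pk qp q3
  have v3 : ¬ Ov V 3 := fun e => by
    have := (PLK_ok.2.2.2.1 V 3).1 (by simpa using e)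
    rw [v1, Nat.prime_dvd_prime_iff_eq qp Nat.prime_three] at this
    omega
  have al : ∀ l : ℕ, l.Prime → l ≠ 3 → l ≠ Z.q n → Al l (Z.K.τ (-Z.q n)) = 0 := fun l a c d =>
    ((hAL l a c).2.2.2.2.2.1 V (v1 ▸ d.symm) (by omega)).1 _ v2
  refine ⟨m0, z, pn, w6 H _ _ m0 (z _) ?_, lam, fun g hg => ?_,
    (INE_ok V v3 _ v2).2.2 _ (by have := ov_KS v3 (F.md n) 2; norm_num at this; exact this), al, ?_⟩
  · rw [F.sd n S hS, ← map_one (Ideal.Quotient.mk (b n))]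
    exact (map_mul _ _ _).symm.trans (Ideal.Quotient.eq.2 (F.ori n _))
  · have h1 := Ideal.Quotient.eq.2 (F.chi n (s S) g hg)
    rw [map_mul] at h1
    rw [lam g hg, HS.rho, uq_KS, w4, F.sd n S hS, Dt.ga, hL.att, ZMod.val_natCast,
      map_pow (Ideal.Quotient.mk (b n)), lamZ, lamZ, map_mul, map_mul]
    simp only [pq_KS, RingHom.comp_apply, Av] at h1 ⊢
    rw [← h1]
    ring
  · have h1 : fs f r.primeFactors (Av (Z.K.τ (-Z.q n))) = 0 := sum_eq_zero fun l hl => by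
      have := pn l (mem_insert_of_mem (mem_union_left _ hl))
      rw [Av, al l this.1 this.2 fun e => qr (e ▸ (Nat.dvd_of_mem_primeFactors hl).trans F.dvd),
        map_zero]
    have : Fact (1 < ml (Z.q n)) := ⟨by rw [ml, if_pos q3]; omega⟩
    rw [uq_KS, w4, h1, ZMod.val_zero, pow_zero, map_one, one_mul, Av, hL.tau _ qp q3,
      ← pow_eq_pow_mod _ g1, ZMod.val_one, pow_one]

end

theorem KS_pf (hAL : AL_st) (hF : FRI_st) (hKT : KT_st) (hKC : KC_st) (hU : UNR_st)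
    (hT : TRS_st) (hFS : FS_st) (hL : LOC_st) (hTF : TRF_st) (hW : WT_st) (hLO : LO_st)
    (hFA : FAM_st) : KS_st := by
  intro Λ _ Z H f hk b p s r M F
  have lv := fun n S hS => lv_KS hAL hF hW hFA hk F n (S := S) hS
  have un := (hFA Λ Z H f hk).2.2.2.2
  have kc := fun n S hS => (hKC H _ _ _ _ _ (lv n S hS).m0 ((lv n S hS).z _) (lv n S hS).pn _
    (lv n S hS).sh).2 _ (lv n S hS).um.1
  have ls : ∀ n S (_ : ∀ l ∈ S, p n l) h, H.H0 (pw * M n) (cd_KS Z r n S) h →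
      Ideal.Quotient.mk (b n) (kk Z H f r.primeFactors M s n S h) = Ideal.Quotient.mk (b n) Z.E.T *
        H.kt (pq_KS Z (b n) (s S)) (M n) (wq_KS Z f r n (b n)) (cd_KS Z r n S) h :=
    fun n S hS h hh => by
      rw [kk_KS, (kc n S hS).2.2.2 h hh, HS.rho, (lv n S hS).wt,
        lam_KS H _ _ (lv n S hS).m0 ((lv n S hS).z _) (lv n S hS).um, map_add, map_one]
      ring
  refine ⟨⟨fun n S hS => ⟨?_, ?_⟩, fun n S hS => ?_, fun n S hS => ?_, fun n S hS l hl => ?_,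
    fun n S l hS hl hn => ?_⟩, fun n S hS h hh => ?_⟩
  · simp only [kk_KS]
    exact ⟨(kc n S hS).1.1, fun g hg h hh => by
      beta_reduce
      rw [← (lv n S hS).rho g hg]
      exact (kc n S hS).1.2 g hg h hh⟩
  · rintro g ⟨V, hV, hg⟩
    rw [Ov_mul, not_or, PLK_ok.2.2.2.1] at hV
    obtain ⟨a1, a2⟩ := hU H _ (pq_KS Z (b n) (s S)) (M n) (wq_KS Z f r n (b n)) _ (lv n S hS).m0
      ((lv n S hS).z _) (lv n S hS).pn V (by simpa using ov_KS hV.1 (F.md n) 1) (fun e => hV.2 (by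
        rcases mem_insert.1 e with e | e
        · exact e ▸ (dvd_mul_left _ _).mul_right _
        rcases mem_union.1 e with e | e
        · exact ((Nat.dvd_of_mem_primeFactors e).mul_right _).mul_right _
        · exact (dvd_prod_of_mem (fun l => l) e).mul_left _)) g hg
    rw [← Ideal.Quotient.eq_zero_iff_mem, ls n S hS g ((hKT H _ (pq_KS Z (b n) (s S)) (M n)
      (wq_KS Z f r n (b n)) _ (lv n S hS).m0 ((lv n S hS).z _) (lv n S hS).pn).2.2.2.2.1 g a1).1,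
      a2, mul_zero]
  · rw [← Ideal.Quotient.eq_zero_iff_mem, kk_KS, (kc n S hS).2.1]
  · obtain ⟨D, d1, d2, d3, -, d5⟩ := hLO Λ Z H f hk
    refine ⟨M n, F.md n, F.mb n _, ?_⟩
    simp only [kk_KS]
    refine hTF _ (pq_KS Z (b n) (s S)) _ _ _ D _ (lv n S hS).m0 ((lv n S hS).z _) (un _).1
      (hk.ok.tw _).add V3.D_le d1 d2 (fun g hg h hh => ?_) (kum_KS (fun g hg => ?_)
        (hL H _ _ _ _ _ (lv n S hS).m0 ((lv n S hS).z _) (lv n S hS).pn D (kum 2)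
          (d1.trans V3.D_le) (fun g hg l hl => d3 g hg l ((lv n S hS).pn l hl).1
            ((lv n S hS).pn l hl).2) _ (lv n S hS).um))
    · rw [(kc n S hS).1.2 g (V3.D_le hg) h (V3.D_le hh), (lv n S hS).rho g (V3.D_le hg),
        (lv n S hS).lam g (V3.D_le hg), Dt.ga, (d5 g hg).1, ZMod.val_zero, pow_zero, map_one,
        mul_one]
    · rw [(d5 g (d1 hg)).2, F.sd n S hS]
  · obtain ⟨a1, a2, a3, a4⟩ := F.pr n l (hS l hl)
    obtain ⟨V, φ, rfl, v1, v2, -⟩ := pl_KS hF hk.ok.pk a1 (mod_KS a2)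
    obtain ⟨t1, t2⟩ := hT H _ (pq_KS Z (b n) (s S)) (M n) (wq_KS Z f r n (b n)) _ (lv n S hS).m0
      ((lv n S hS).z _) (lv n S hS).pn V φ (mod_KS a2) v1
    rw [← Ideal.Quotient.eq_zero_iff_mem, v2, ls n S hS _ (t1 _ a2),
      t2 ((dvd_mul_left _ _).trans a2) (mem_insert_of_mem (mem_union_right _ hl)) (by
        simp only [wq_eq_KS _ a3 a4]
        exact sum_KS (ml_KS ((lv n S hS).z _) a2) (un _).1), mul_zero]
  · obtain ⟨a1, a2, a3, a4⟩ := F.pr n l hl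
    have a5 := hk.tau l a1 (mod_KS a2)
    obtain ⟨V, φ, rfl, v1, v2, v3⟩ := pl_KS hF hk.ok.pk a1 (mod_KS a2)
    have t1 := (hT H _ (pq_KS Z (b n) (s S)) (M n) (wq_KS Z f r n (b n)) _ (lv n S hS).m0
      ((lv n S hS).z _) (lv n S hS).pn V φ (mod_KS a2) v1).1 _ a2
    obtain ⟨v, hv, e⟩ := hFS H _ (pq_KS Z (b n) (s (insert V.l S))) (M n) (wq_KS Z f r n (b n)) _
      (lv n S hS).m0 ((lv n S hS).z _) (lv n S hS).pn V φ _ 1 (F.st n) (mod_KS a2) (fun e => by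
        rcases mem_insert.1 e with e | e
        · exact a4 e
        rcases mem_union.1 e with e | e
        exacts [a3 (Nat.dvd_of_mem_primeFactors e), hn e]) v1 ((dvd_mul_left _ _).trans a2) v3 a5
      fun i => by
        rw [wq_eq_KS _ a3 a4, wq_eq_KS _ a3 a4, ← Nat.cast_succ]
        exact cast_KS (ml_KS ((lv n S hS).z _) a2) (by simp)
    obtain ⟨v', h1, rfl⟩ := (un _).2 v hv
    have e1 : cd_KS Z r n (insert V.l S) = insert V.l (cd_KS Z r n S) := by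
      rw [cd_KS, union_insert, insert_comm]
    have := mod_KS a2
    refine ⟨v', h1, Ideal.Quotient.eq.1 ?_⟩
    rw [kk_KS, e1, e _ (lv n S hS).um.1 ((lv n S hS).al _ a1 (by omega) a4),
      lam_KS H _ _ (lv n S hS).m0 ((lv n S hS).z _) (lv n S hS).um, cf_KS, F.flip _ _ hn,
      Bool.not_not, (lv n S hS).sh.shf _ t1, (lv n S hS).wt, map_mul, v2, ls n S hS _ t1, map_add,
      map_one]
    ring
  · rw [← Ideal.Quotient.eq, ls n S hS h hh, map_mul, kt_KS]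

end Pool.Agent.MP_e23604_nt.N
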