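import Pool.Agent.Mg.Fe23604m.Gff9688

set_option linter.all false

/-!
The reduction of the classes modulo the prime over three.
-/

set_option autoImplicit false

open Finset QuadraticAlgebra
open scoped Classical

namespace Pool.Agent.MP_e23604_nt.N

open B R S W V X

theorem kt_RED {R : Type} [CommRing R] (H : HS) (φ : Zw →+* R) (M : Zw) {w w' : Wt R}
    {n : Finset ℕ} (c : ℕ → R) (h : ∀ l ∈ n, ∀ i, w l i = c l * w' l i) (g : GQ) :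
    H.kt φ M w n g = (∏ l ∈ n, c l) * H.kt φ M w' n g := by
  simp only [HS.kt, wp, mul_sum, ← mul_assoc, ← prod_mul_distrib]
  exact sum_congr rfl fun i _ => by rw [prod_congr rfl fun l hl => h l hl _]

/-- the primary primes over a split prime -/
theorem spl_RED {p : ℕ} (hp : p.Prime) (h1 : p % 3 = 1) : ∃ ϖ, PP ϖ ∧ nn ϖ = p ∧ ϖ ≠ star ϖ ∧
    ∀ ϖ', PP ϖ' ∧ nn ϖ' = p ↔ ϖ' = ϖ ∨ ϖ' = star ϖ := by
  have := Fact.mk hp
  obtain ⟨ϖ, a1, a2, -, a3⟩ := PLK_ok.1 ⟨p, 1⟩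
  have a4 : PP ϖ := a3 (by change p ≠ 3; omega)
  have a5 : nn ϖ = p := by
    rcases (PLK_ok.2.2.1 _ ϖ a1 a2).2.2.1 with e | e | e
    · exact e.2.1
    · have : p % 3 = 2 := e.1
      omega
    · have : p = 3 := e.1
      omega
  obtain ⟨u1, u2, -⟩ := PLK_ok.2.2.2.2.2.2.2
  refine ⟨ϖ, a4, a5, fun e => ?_, fun ϖ' => ⟨fun h => ?_, ?_⟩⟩
  · have h3 : ϖ.im = 0 := by
      have := congrArg QuadraticAlgebra.im e
      simp at this
      omega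
    have h4 : nn ϖ = ϖ.re.natAbs * ϖ.re.natAbs := by
      simp [nn, nw, QuadraticAlgebra.norm_def, h3, Int.natAbs_mul]
    rcases Nat.prime_mul_iff.1 (h4 ▸ a5 ▸ hp) with k | k <;> exact k.1.one_lt.ne' k.2
  · exact (h.1.1.dvd_or_dvd (a := ϖ) (b := star ϖ) ⟨star ϖ', by
      rw [mul_star_nn, mul_star_nn, a5, h.2]⟩).imp (u1 _ _ h.1 a4) (u1 _ _ h.1 (u2 _ a4))
  · rintro (rfl | rfl)
    exacts [⟨a4, a5⟩, ⟨u2 _ a4, (nn_star _).trans a5⟩]

theorem RED_pf (hAL : AL_st) (hKT : KT_st) (hLV : LEV_st) (hSP : SPL_st) (hK : KIT_st)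
    (hW : WT_st) (hFA : FAM_st)
    (hT : ∀ r : ℕ, r ≠ 0 → ¬ 3 ∣ r → ∀ ϖ, ϖ ∈ V.Tr r ↔ PP ϖ ∧ ϖ ∣ r) : RED_st := by
  intro Λ _ Z H f hL hN n S hS
  rcases n with _ | n
  · exact ⟨1, Z.E.ne, fun g _ => by simp [Dt.pn]⟩
  obtain ⟨f1, f2, f3, f4, f5⟩ := hFA Λ Z H f hL
  obtain ⟨q1, q2, q3⟩ := f3 (n + 1)
  have hZ := hL.ok
  have r0 := (hZ.tw true).sf.ne_zero
  have r3 := (hZ.tw true).n3
  have qp := hZ.qp (n + 1)
  set q := Z.q (n + 1) with hq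
  let π := Ideal.Quotient.mk (Z.pn (n + 1))
  have p0 : ∀ ε, π.comp (Z.ph ε) pw = 0 := fun ε =>
    Ideal.Quotient.eq_zero_iff_mem.2 (f2.mb (n + 1) ε)
  have pω : ∀ ε, π.comp (Z.ph ε) ω = 1 := fun ε => by
    rw [← sub_eq_zero, ← map_one (π.comp (Z.ph ε)), ← map_sub,
      show (ω - 1 : Zw) = pw * (1 + ω) by decide, map_mul, p0, zero_mul]
  have t0 : ((3 : ℕ) : Λ ⧸ Z.pn (n + 1)) = 0 := by
    rw [← map_natCast (π.comp (Z.ph true)), show ((3 : ℕ) : Zw) = pw * -pw by decide, map_mul, p0,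
      zero_mul]
  let j : ZMod 3 →+* Λ ⧸ Z.pn (n + 1) := ZMod.castHom (ringChar.dvd t0) _
  set φ := π.comp (Z.ph (Z.sd S))
  set φ₀ := π.comp (Z.ph (!Z.s₀))
  set γ := π (1 + Z.E.T)
  let Ps := Z.r.primeFactors.filter fun l => ¬ l % 3 = 2
  let N₁ := insert q (∅ ∪ (S ∪ Bn Z.r))
  have s1 : ∀ l ∈ S, l.Prime ∧ l % 3 = 2 ∧ ¬ l ∣ Z.r := fun l hl =>
    ⟨(hS l hl).1, by
      have : 3 ∣ l + 1 := ((dvd_pow_self 3 (by omega)).mul_right _).trans (hS l hl).2.1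
      omega, (f1.pr _ l (hS l hl)).2.2.1⟩
  have n1 : ∀ l ∈ N₁, l.Prime ∧ l % 3 = 2 := fun l hl => by
    simp only [N₁, Bn, mem_insert, empty_union, mem_union, mem_filter, Nat.mem_primeFactors] at hl
    rcases hl with rfl | hl | hl
    exacts [⟨qp, q1⟩, ⟨(s1 l hl).1, (s1 l hl).2.1⟩, ⟨hl.1.1, hl.2⟩]
  have n2 : ∀ l ∈ Ps, l.Prime ∧ l ∣ Z.r ∧ l % 3 = 1 := fun l hl => by
    obtain ⟨h1, h2⟩ := mem_filter.1 hl
    obtain ⟨h3, h4, -⟩ := Nat.mem_primeFactors.1 h1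
    refine ⟨h3, h4, ?_⟩
    have : ¬ 3 ∣ l := fun e => r3 (e.trans h4)
    omega
  have n3 : ∀ l ∈ N₁, l ∉ Ps := fun l h h' => by
    have := (n1 l h).2
    have := (n2 l h').2.2
    omega
  have pn : ∀ P ⊆ Ps, Pn (N₁ ∪ P) := fun P hP l hl => by
    rcases mem_union.1 hl with h | h
    · exact ⟨(n1 l h).1, by have := (n1 l h).2; omega⟩
    · exact ⟨(n2 l (hP h)).1, by have := (n2 l (hP h)).2.2; omega⟩
  have qN : q ∈ N₁ := mem_insert_self _ _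
  have hk : ∀ P ⊆ Ps, ∀ M, M ≠ 0 → φ M = 0 → ∀ g ∈ GK,
      H1 M (N₁ ∪ P) (Z.K.τ (-q) * g * (Z.K.τ (-q))⁻¹ * g⁻¹) ∧
      H.H0 (pw * M) (N₁ ∪ P) (Z.K.τ (-q) * g * (Z.K.τ (-q))⁻¹ * g⁻¹) :=
    fun P hP M h0 h1 g hg => by
      obtain ⟨-, -, -, -, a1, -, a2, -⟩ := hKT H _ φ M (fun _ _ => 0) _ h0 h1 (pn P hP)
      exact ⟨a2 _ (hZ.pk.gk _).2 g hg, (a1 _ (a2 _ (hZ.pk.gk _).2 g hg)).1⟩
  have w0 : pw ≠ 0 := by decide
  have key : ∀ g ∈ GK, ∀ P ⊆ Ps,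
      H.kt φ pw (wv φ₀ 0 Ps q (n + 1) γ) (N₁ ∪ P) (Z.K.τ (-q) * g * (Z.K.τ (-q))⁻¹ * g⁻¹) =
      (∏ ϖ ∈ (Sz Z.r).filter fun ϖ => nn ϖ ∈ P, (γ ^ ((lu q ϖ).val % 3 ^ (n + 1)) - 1)) *
      H.kt φ pw (wv φ₀ 0 Ps q (n + 1) γ) N₁ (Z.K.τ (-q) * g * (Z.K.τ (-q))⁻¹ * g⁻¹) := by
    intro g hg P
    induction P using Finset.induction_on with
    | empty => simp
    | insert p P hp ih =>
      intro hP
      have hP' := (subset_insert p P).trans hP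
      have pP := hP (mem_insert_self p P)
      obtain ⟨a1, a2, a3⟩ := n2 p pP
      obtain ⟨ϖ, b1, rfl, b3, b4⟩ := spl_RED a1 a3
      obtain ⟨c1, -, -, c2, -, c3⟩ := hW _ φ₀ 0 Ps (N₁ ∪ P) q (n + 1) γ (pn P hP')
        (mem_union_left _ qN) (n3 q qN)
        (((pow_dvd_pow 3 (by omega)).mul_right _).trans (hZ.qd (n + 1)))
        ((map_pow π _ _).symm.trans ((Ideal.Quotient.eq.2 (f2.le _ q3)).trans (map_one π)))
        fun l hl h _ => by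
          have e := (n1 l ((mem_union.1 hl).resolve_right fun e => h (hP' e))).2
          obtain ⟨t, ht⟩ : 3 ∣ l + 1 := by omega
          exact ⟨e, by rw [← Nat.cast_succ, Nat.succ_eq_add_one, ht, Nat.cast_mul, t0, zero_mul]⟩
      have e1 := hSP H _ φ _ _ _ ϖ hN (p0 _) (pn P hP') (c3 H φ pw w0 (p0 _)
        (by simp only [map_pow, φ, φ₀, pω, one_pow, mul_one])) b1 a1 (by omega)
        (fun e => (mem_union.1 e).elim (n3 _ · pP) hp)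
        (fun i => by simp [wv, pP, (mem_filter.1 pP).2])
        _ (union_insert (nn ϖ) N₁ P ▸ (hk _ hP pw w0 (p0 _) g hg).1)
      have e2 : ((Sz Z.r).filter fun ϖ' => nn ϖ' ∈ insert (nn ϖ) P) =
          insert ϖ (insert (star ϖ) ((Sz Z.r).filter fun ϖ' => nn ϖ' ∈ P)) := by
        ext ϖ'
        simp only [mem_filter, mem_insert, Sz, hT _ r0 r3, ← or_assoc, ← b4]
        refine ⟨fun h => h.2.imp (fun e => ⟨h.1.1.1, e⟩) fun e => ⟨h.1, e⟩, fun h => h.elim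
          (fun h => ⟨⟨⟨h.1, ?_⟩, h.2 ▸ a1⟩, .inl h.2⟩) fun h => ⟨h.1, .inr h.2⟩⟩
        exact Dvd.dvd.trans ⟨_, (mul_star_nn ϖ').symm⟩ (Nat.cast_dvd_cast (h.2 ▸ a2))
      have e3 : lu q (star ϖ) = -lu q ϖ := (hK q qp (by omega)).bar ϖ
        (IsCoprime.of_isCoprime_of_dvd_left (Nat.Coprime.cast ((Nat.coprime_primes a1 qp).2
          fun e => by omega)) ⟨_, (mul_star_nn ϖ).symm⟩)
      have e4 := ((c1 q (mem_union_left _ qN)).2 (lu q ϖ) (-lu q ϖ)).symm.trans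
        ((congrArg _ (add_neg_cancel _)).trans (c1 q (mem_union_left _ qN)).1)
      simp only [uu, n3 q qN, if_false, if_true] at e4
      rw [union_insert, e1, ih hP', e2, prod_insert (by simp [b3, hp]),
        prod_insert (by simp [hp, nn_star]), e3, c2, c2]
      simp only [map_pow, φ₀, pω, one_pow, one_mul, Lu, Pi.neg_apply]
      rw [← mul_assoc, ← mul_assoc]
      congr 2
      linear_combination -e4
  have e0 : (3 : Zw) ^ (n + 1) = (-pw * 3 ^ n) * pw := by linear_combination (3 ^ n) * pw_sq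
  have m0 : -pw * 3 ^ n ≠ 0 := mul_ne_zero (by decide) (pow_ne_zero _ (by decide))
  obtain ⟨v, v1, v2⟩ := hLV _ φ pw _ w0 m0 (p0 _)
  let c : ℕ → Λ ⧸ Z.pn (n + 1) := fun l => if l ∈ Bn Z.r then j (f l 1) else 1
  obtain ⟨v', v3, v4⟩ := (f5 _).2 (v * ∏ l ∈ N₁ ∪ Ps, c l) (v1.mul (IsUnit.prod_iff.2
    fun l _ => by
      by_cases e : l ∈ Bn Z.r
      · simpa [c, e] using (f4 l (mem_filter.1 e).1).isUnit.map j
      · simp [c, e]))
  refine ⟨v', v3, fun g hg => Ideal.Quotient.eq.1 ?_⟩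
  have e5 : insert q (Z.r.primeFactors ∪ S) = N₁ ∪ Ps := by
    ext l
    simp only [N₁, Ps, Bn, mem_insert, empty_union, mem_union, mem_filter]
    tauto
  have e6 : Z.sr (S ∪ Bn Z.r) = Z.sd S := by
    rw [Dt.sr, Dt.sd, Dt.sd, card_union_of_disjoint (t := Bn Z.r) (disjoint_left.2 fun l h h' =>
      (s1 l h).2.2 (Nat.dvd_of_mem_primeFactors (mem_filter.1 h').1))]
    by_cases h : Odd S.card <;> by_cases h' : Odd (Bn Z.r).card <;>
      simp [Nat.odd_add, h, h', ← Nat.not_odd_iff_even]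
  have e7 : (Sz Z.r).filter (fun ϖ => nn ϖ ∈ Ps) = Sz Z.r := filter_true_of_mem fun ϖ h => by
    obtain ⟨h1, h2⟩ := mem_filter.1 h
    obtain ⟨h3, h4⟩ := (hT _ r0 r3 ϖ).1 h1
    have := nn_mod3 h3.2.pw
    exact mem_filter.2 ⟨Nat.mem_primeFactors.2
      ⟨h2, h2.dvd_of_dvd_pow (nn_nat Z.r ▸ nn_dvd h4), r0⟩, by omega⟩
  change π _ = π _
  rw [map_mul, map_mul, v4, map_prod, kap, dd, kk, kk, kt0, kt0, kt_map, kt_map, wv_map, wv_map,
    e6, ← hq, e5, e0, v2 H _ _ (pn _ subset_rfl) _ (mul_comm pw _ ▸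
      (hk _ subset_rfl _ m0 (by rw [map_mul, map_neg, p0, neg_zero, zero_mul]) g hg).2),
    kt_RED H φ pw (w' := wv φ₀ 0 Ps q (n + 1) γ) c fun l hl i => ?_, key g hg _ subset_rfl, e7,
    kt_congr H φ pw (w' := wv φ₀ f ∅ q (n + 1) γ) fun l hl => ?_, ← mul_assoc, ← mul_assoc]
  · congr 2
    refine prod_congr rfl fun ϖ h => ?_
    obtain ⟨h3, h4⟩ := (hT _ r0 r3 ϖ).1 (mem_filter.1 h).1
    obtain ⟨h5, h6, -⟩ := hZ.pk.tm ϖ h3
    rw [map_sub, map_one, Dt.ga, map_pow, hL.att, ZMod.val_natCast,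
      ((hAL q qp (by omega)).2.2.2.2.2.1 _ (fun e => q2 (e ▸ (PLK_ok.2.2.2.1 _ _).1 (h5.dvd h4)))
        (h3.l_neK h5)).2.1 ϖ _ h3 h5 h6]
  · funext i
    simp [wv, n3 l hl]
  · by_cases e : l ∈ Bn Z.r
    · obtain ⟨h1, h2⟩ := mem_filter.1 e
      have h3 : l ≠ q := fun e => q2 (e ▸ Nat.dvd_of_mem_primeFactors h1)
      have h4 : l ∉ Ps := fun e => (mem_filter.1 e).2 h2
      have h5 : f l i = i.val * f l 1 := by
        rw [← nsmul_eq_mul, ← map_nsmul, nsmul_eq_mul, mul_one, ZMod.natCast_zmod_val]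
      simp only [wv, c, e, h1, h2, h3, h4, if_true, if_false, map_sum, map_pow, pω, one_pow,
        sum_const, card_range, nsmul_eq_mul, mul_one]
      rw [← j_val three_ne_zero j, h5, map_mul, map_natCast, mul_comm]
    · by_cases h1 : l ∈ Z.r.primeFactors
      · have h2 : ¬ l % 3 = 2 := fun h => e (mem_filter.2 ⟨h1, h⟩)
        have h4 : l ∈ Ps := mem_filter.2 ⟨h1, h2⟩
        simp only [wv, c, e, h1, h2, h4, if_true, if_false, map_pow, φ₀, pω, one_pow, mul_one]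
      · have h4 : l ∉ Ps := fun e => h1 (mem_filter.1 e).1
        simp only [wv, c, e, h1, h4, if_false, one_mul]
        rfl

end Pool.Agent.MP_e23604_nt.N
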