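import Pool.Agent.Mg.Fe23604m.Gff9688

set_option linter.all false

/-!
The bottom residual class is not even.
-/

set_option autoImplicit false

open Finset QuadraticAlgebra
open scoped Classical

namespace Pool.Agent.MP_e23604_nt.N

open B R S W V X

theorem bas_BSE (hB : BAS_st) {R : Type} [CommRing R] {H : HS} (φ φ₀ : Zw →+* R) (f : Fn) (e : ℕ)
    {V : Plc} {q : ℕ} (hq : V.l = q) {τ : GQ} (h1 : H.N1) (h0 : φ pw = 0) (h3 : q % 3 = 2)
    (hτ : τ ∈ V.I) (ha : Al q τ = 1) : ∃ v, IsUnit v ∧ ∀ g ∈ GK, Al q g = 0 →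
      H.kc φ pw (wv φ₀ f ∅ q e 1) {q} τ g = v * ((kum 3 g).val : R) := by
  subst hq
  refine hB H R φ _ V τ h1 h0 h3 hτ ha (funext fun i => ?_)
  simp [wv, th]

theorem elt_BSE (hAL : AL_st) (hW : X.KW_st) (hI : X.IND_st) {q : ℕ} (hq : q.Prime)
    (h3 : q ≠ 3) : ∃ h ∈ GK, Al q h = 0 ∧ kum 3 h ≠ 0 := by
  obtain ⟨g₀, hg, e⟩ : ∃ g ∈ V3.D, kum 3 g ≠ 0 := by
    by_contra! hc
    exact one_ne_zero (hI 0 1 0 0 fun g hg => by simp [hc g hg]).2.1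
  have g0 := V3.D_le hg
  have hc : IsCoprime (9 : Zw) q := by
    have := (Nat.isCoprime_iff_coprime.2 (Nat.Coprime.pow_left 2
      ((Nat.coprime_primes Nat.prime_three hq).2 h3.symm))).map (Int.castRingHom Zw)
    simpa using this
  obtain ⟨g₁, g1, e1⟩ := (hAL q hq h3).2.2.2.2.2.2 (-Al q g₀) 9 (by decide) hc
  have e2 := FAC_ok 3 1 three_ne_zero one_ne_zero (fun l hl l3 d => absurd (by
    rw [Nat.prime_three.factorization, Finsupp.single_eq_of_ne l3]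
    exact dvd_zero 3) d) g₁ (by simpa using g1)
  rw [Nat.cast_ofNat] at e2
  have k := (hW.2.1 3 three_ne_zero).1
  have ad := (hW.1 GK ((3 : ℚ) : Qb) le_rfl (by norm_num) fun g _ => map_ratCast g 3).1
  refine ⟨g₀ * g₁, GK.mul_mem g0 g1.1, ?_, ?_⟩
  · rw [(hAL q hq h3).1 g₀ g0 g₁ g1.1, e1, add_neg_cancel]
  · rwa [← k _ (GK.mul_mem g0 g1.1), ad g₀ g0 g₁ g1.1, k _ g0, k _ g1.1, e2, add_zero]

theorem unit_BSE {R : Type} [CommRing R] {x : ZMod 3} (hx : x ≠ 0) :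
    IsUnit ((x.val : R) - ((-x).val : R)) := by
  have : x.val = 1 ∧ (-x).val = 2 ∨ x.val = 2 ∧ (-x).val = 1 := by
    revert x
    decide
  rcases this with ⟨a, b⟩ | ⟨a, b⟩ <;> rw [a, b]
  · exact IsUnit.of_mul_eq_one (-1) (by push_cast; ring)
  · exact IsUnit.of_mul_eq_one 1 (by push_cast; ring)

theorem BSE_pf (hAL : AL_st) (hB : BAS_st) (hW : X.KW_st) (hI : X.IND_st) (hFA : FAM_st) :
    BSE_st := by
  intro Λ _ Z H f hL h1 n
  have qp := hL.ok.qp n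
  have q3 : Z.q n % 3 = 2 := ((hFA Λ Z H f hL).2.2.1 n).1
  have n3 : Z.q n ≠ 3 := fun e => by rw [e] at q3; omega
  have pp : PP (-(Z.q n : Zw)) := ⟨(inert_prime qp q3).neg, -((Z.q n / 3 : ℕ) + 1), by
    have : ((3 * (Z.q n / 3) + 2 : ℕ) : Zw) = Z.q n := congrArg Nat.cast (by omega)
    push_cast at this
    linear_combination this⟩
  have m1 : Z.E.ι pw ∈ Z.E.m := Z.E.m_eq ▸ Ideal.subset_span (by simp)
  have m2 : Z.E.T ∈ Z.E.m := Z.E.m_eq ▸ Ideal.subset_span (by simp)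
  have h0 : ((Ideal.Quotient.mk Z.E.m).comp (Z.ph (Z.sr ∅))) pw = 0 := by
    rw [RingHom.comp_apply, Ideal.Quotient.eq_zero_iff_mem, Dt.ph]
    split_ifs
    · exact m1
    · rw [RingHom.comp_apply, starRingEnd_apply, star_pw, map_neg]
      exact Z.E.m.neg_mem m1
  obtain ⟨v, hv, e⟩ := bas_BSE hB _ ((Ideal.Quotient.mk Z.E.m).comp (Z.ph (!Z.s₀))) f n
    (hL.ok.pk.ine _ qp q3).1 h1 h0 q3 (hL.ok.pk.tm _ pp).2.2.1 (hL.tau _ qp q3)
  have key : ∀ g ∈ GK, Al (Z.q n) g = 0 →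
      Ideal.Quotient.mk Z.E.m (dd Z H f n ∅ g) = v * ((kum 3 g).val : Λ ⧸ Z.E.m) :=
    fun g hg a => by
      rw [← e g hg a, dd, kk, kt0, kt_map, wv_map, map_add, map_one,
        Ideal.Quotient.eq_zero_iff_mem.2 m2, add_zero, empty_union, insert_empty_eq, HS.kc]
  obtain ⟨h, hh, a, k⟩ := elt_BSE hAL hW hI qp n3
  obtain ⟨c, hc⟩ := ex_notGK
  refine ⟨h, hh, c, hc, by rw [hL.att, a, ZMod.val_zero, Nat.cast_zero], fun b => Z.E.ne ?_⟩
  rw [← Ideal.Quotient.eq_zero_iff_mem, map_sub, key h hh a, key _ ((Plc.cj_GK c h).1 hh)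
    (by rw [((hAL _ qp n3).2.2.2.1 h hh).2.2 c hc, a, neg_zero]),
    (hW.2.1 3 three_ne_zero).2 c hc h hh, ← mul_sub] at b
  rw [← Ideal.Quotient.eq_zero_iff_mem, map_one]
  exact (hv.mul (unit_BSE k)).mul_left_cancel (by rw [b, zero_mul, zero_mul])

end Pool.Agent.MP_e23604_nt.N
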