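import Pool.Agent.Mg.Fe23604m.Gaef5a0
import Pool.Agent.Mg.Fe23604m.Ga51075
import Pool.Agent.Mg.Fe23604m.Gc6e067
import Pool.Agent.Mg.Fe23604m.G82a033

set_option linter.all false

/-!
The reduction of the classes modulo the prime over three.
-/

set_option autoImplicit false

open Finset QuadraticAlgebra
open scoped Classical

namespace Pool.Agent.MP_e23604_nt.N.G

open B R S W V X

theorem kt_RED {R : Type} [CommRing R] (H : HS) (φ : Zw →+* R) (M : Zw) {w w' : Wt R}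
    {n : Finset ℕ} (c : ℕ → R) (h : ∀ l ∈ n, ∀ i, w l i = c l * w' l i) (g : GQ) :
    H.kt φ M w n g = (∏ l ∈ n, c l) * H.kt φ M w' n g := by
  simp only [HS.kt, wp, mul_sum, ← mul_assoc, ← prod_mul_distrib]
  exact sum_congr rfl fun i _ => by rw [prod_congr rfl fun l hl => h l hl _]

theorem RED_pf (hKT : KT_st) (hLV : LEV_st) (hFA : FAM_st) : RED_st := by
  intro Λ _ Z H₀ f hL H f' ρ hρ n S hS
  rcases n with _ | n
  · exact ⟨1, Z.E.ne, fun g _ => by simp [Dt.pn]⟩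
  obtain rfl : ρ = Z.r.primeFactors.filter fun l => ¬ l % 3 = 2 := by
    ext l
    rw [hρ, mem_filter]
  obtain ⟨f1, f2, f3, f4, f5⟩ := hFA Λ Z H₀ f hL
  obtain ⟨q1, q2, q3⟩ := f3 (n + 1)
  have hZ := hL.ok
  have r0 := (hZ.tw true).sf.ne_zero
  have r3 := (hZ.tw true).n3
  have qp := hZ.qp (n + 1)
  set q := Z.q (n + 1) with hq
  let π := Ideal.Quotient.mk (Z.pn (n + 1))
  have p0 : ∀ ε, π.comp (Z.ph ε) pw = 0 := fun ε =>
    Ideal.Quotient.eq_zero_iff_mem.2 (f2.mb (n + 1) ε)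
  have pω : ∀ ε, π.comp (Z.ph ε) ω = 1 := fun ε => by
    rw [← sub_eq_zero, ← map_one (π.comp (Z.ph ε)), ← map_sub,
      show (ω - 1 : Zw) = pw * (1 + ω) by decide, map_mul, p0, zero_mul]
  have t0 : ((3 : ℕ) : Λ ⧸ Z.pn (n + 1)) = 0 := by
    rw [← map_natCast (π.comp (Z.ph true)), show ((3 : ℕ) : Zw) = pw * -pw by decide, map_mul, p0,
      zero_mul]
  let j : ZMod 3 →+* Λ ⧸ Z.pn (n + 1) := ZMod.castHom (ringChar.dvd t0) _
  set φ := π.comp (Z.ph (Z.sd S))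
  set φ₀ := π.comp (Z.ph (!Z.s₀))
  set γ := π (1 + Z.E.T)
  let Ps := Z.r.primeFactors.filter fun l => ¬ l % 3 = 2
  let N₁ := insert q (∅ ∪ (S ∪ Bn Z.r))
  have s1 : ∀ l ∈ S, l.Prime ∧ l % 3 = 2 ∧ ¬ l ∣ Z.r := fun l hl =>
    ⟨(hS l hl).1, by
      have : 3 ∣ l + 1 := ((dvd_pow_self 3 (by omega)).mul_right _).trans (hS l hl).2.1
      omega, (f1.pr _ l (hS l hl)).2.2.1⟩
  have n1 : ∀ l ∈ N₁, l.Prime ∧ l % 3 = 2 := fun l hl => by
    simp only [N₁, Bn, mem_insert, empty_union, mem_union, mem_filter, Nat.mem_primeFactors] at hl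
    rcases hl with rfl | hl | hl
    exacts [⟨qp, q1⟩, ⟨(s1 l hl).1, (s1 l hl).2.1⟩, ⟨hl.1.1, hl.2⟩]
  have n2 : ∀ l ∈ Ps, l.Prime ∧ l ∣ Z.r ∧ l % 3 = 1 := fun l hl => by
    obtain ⟨h1, h2⟩ := mem_filter.1 hl
    obtain ⟨h3, h4, -⟩ := Nat.mem_primeFactors.1 h1
    refine ⟨h3, h4, ?_⟩
    have : ¬ 3 ∣ l := fun e => r3 (e.trans h4)
    omega
  have n3 : ∀ l ∈ N₁, l ∉ Ps := fun l h h' => by
    have := (n1 l h).2
    have := (n2 l h').2.2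
    omega
  have pn : ∀ P ⊆ Ps, Pn (N₁ ∪ P) := fun P hP l hl => by
    rcases mem_union.1 hl with h | h
    · exact ⟨(n1 l h).1, by have := (n1 l h).2; omega⟩
    · exact ⟨(n2 l (hP h)).1, by have := (n2 l (hP h)).2.2; omega⟩
  have qN : q ∈ N₁ := mem_insert_self _ _
  have hk : ∀ P ⊆ Ps, ∀ M, M ≠ 0 → φ M = 0 → ∀ g ∈ GK,
      H1 M (N₁ ∪ P) (Z.K.τ (-q) * g * (Z.K.τ (-q))⁻¹ * g⁻¹) ∧
      H.H0 (pw * M) (N₁ ∪ P) (Z.K.τ (-q) * g * (Z.K.τ (-q))⁻¹ * g⁻¹) :=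
    fun P hP M h0 h1 g hg => by
      obtain ⟨-, -, -, -, a1, -, a2, -⟩ := hKT H _ φ M (fun _ _ => 0) _ h0 h1 (pn P hP)
      exact ⟨a2 _ (hZ.pk.gk _).2 g hg, (a1 _ (a2 _ (hZ.pk.gk _).2 g hg)).1⟩
  have w0 : pw ≠ 0 := by decide
  have e0 : (3 : Zw) ^ (n + 1) = (-pw * 3 ^ n) * pw := by linear_combination (3 ^ n) * pw_sq
  have m0 : -pw * 3 ^ n ≠ 0 := mul_ne_zero (by decide) (pow_ne_zero _ (by decide))
  obtain ⟨v, v1, v2⟩ := hLV _ φ pw _ w0 m0 (p0 _)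
  let c : ℕ → Λ ⧸ Z.pn (n + 1) := fun l => if l ∈ Bn Z.r then j (f l 1) else 1
  obtain ⟨v', v3, v4⟩ := (f5 _).2 (v * ∏ l ∈ N₁ ∪ Ps, c l) (v1.mul (IsUnit.prod_iff.2
    fun l _ => by
      by_cases e : l ∈ Bn Z.r
      · simpa [c, e] using (f4 l (mem_filter.1 e).1).isUnit.map j
      · simp [c, e]))
  refine ⟨v', v3, fun g hg => Ideal.Quotient.eq.1 ?_⟩
  have e5 : insert q (Z.r.primeFactors ∪ S) = N₁ ∪ Ps := by
    ext l
    simp only [N₁, Ps, Bn, mem_insert, empty_union, mem_union, mem_filter]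
    tauto
  have e6 : Z.sr (S ∪ Bn Z.r) = Z.sd S := by
    rw [Dt.sr, Dt.sd, Dt.sd, card_union_of_disjoint (t := Bn Z.r) (disjoint_left.2 fun l h h' =>
      (s1 l h).2.2 (Nat.dvd_of_mem_primeFactors (mem_filter.1 h').1))]
    by_cases h : Odd S.card <;> by_cases h' : Odd (Bn Z.r).card <;>
      simp [Nat.odd_add, h, h', ← Nat.not_odd_iff_even]
  have e7 : insert q (Ps ∪ (S ∪ Bn Z.r)) = N₁ ∪ Ps := by
    ext l
    simp only [N₁, mem_insert, empty_union, mem_union]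
    tauto
  change π _ = π _
  rw [map_mul, v4, kk, kk, kt0, kt0, kt_map, kt_map, wv_map, wv_map,
    e6, ← hq, e5, e7, e0, v2 H _ _ (pn _ subset_rfl) _ (mul_comm pw _ ▸
      (hk _ subset_rfl _ m0 (by rw [map_mul, map_neg, p0, neg_zero, zero_mul]) g hg).2),
    kt_RED H φ pw (w' := wv φ₀ f' Ps q (n + 1) γ) c fun l hl i => ?_, ← mul_assoc]
  · by_cases e : l ∈ Bn Z.r
    · obtain ⟨h1, h2⟩ := mem_filter.1 e
      have h3 : l ≠ q := fun e => q2 (e ▸ Nat.dvd_of_mem_primeFactors h1)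
      have h4 : l ∉ Ps := fun e => (mem_filter.1 e).2 h2
      have h5 : f l i = i.val * f l 1 := by
        rw [← nsmul_eq_mul, ← map_nsmul, nsmul_eq_mul, mul_one, ZMod.natCast_zmod_val]
      simp only [wv, c, e, h1, h2, h3, h4, if_true, if_false, map_sum, map_pow, pω, one_pow,
        sum_const, card_range, nsmul_eq_mul, mul_one]
      rw [← j_val three_ne_zero j, h5, map_mul, map_natCast, mul_comm]
    · by_cases h1 : l ∈ Z.r.primeFactors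
      · have h2 : ¬ l % 3 = 2 := fun h => e (mem_filter.2 ⟨h1, h⟩)
        have h4 : l ∈ Ps := mem_filter.2 ⟨h1, h2⟩
        simp only [wv, c, e, h1, h2, h4, if_true, if_false, map_pow, φ₀, pω, one_pow, mul_one]
      · have h4 : l ∉ Ps := fun e => h1 (mem_filter.1 e).1
        simp only [wv, c, e, h1, h4, if_false, one_mul]
        rfl

theorem SPL2_pf (hAL : AL_st) (hKT : N.KT_st) (hSP : SPL_st) (hK : KIT_st) (hW : N.WT_st)
    (hFA : FAM_st) (hT : ∀ r : ℕ, r ≠ 0 → ¬ 3 ∣ r → ∀ ϖ, ϖ ∈ V.Tr r ↔ PP ϖ ∧ ϖ ∣ r) :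
    SPL2_st := by
  intro Λ _ Z H₀ f₀ hL H f f' ρ hN hρ n S hS g hg
  rcases n with _ | n
  · simp [Dt.pn]
  obtain rfl : ρ = Z.r.primeFactors.filter fun l => ¬ l % 3 = 2 := by
    ext l
    rw [hρ, mem_filter]
  obtain ⟨f1, f2, f3, f4, f5⟩ := hFA Λ Z H₀ f₀ hL
  obtain ⟨q1, q2, q3⟩ := f3 (n + 1)
  have hZ := hL.ok
  have r0 := (hZ.tw true).sf.ne_zero
  have r3 := (hZ.tw true).n3
  have qp := hZ.qp (n + 1)
  set q := Z.q (n + 1) with hq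
  let π := Ideal.Quotient.mk (Z.pn (n + 1))
  have p0 : ∀ ε, π.comp (Z.ph ε) pw = 0 := fun ε =>
    Ideal.Quotient.eq_zero_iff_mem.2 (f2.mb (n + 1) ε)
  have pω : ∀ ε, π.comp (Z.ph ε) ω = 1 := fun ε => by
    rw [← sub_eq_zero, ← map_one (π.comp (Z.ph ε)), ← map_sub,
      show (ω - 1 : Zw) = pw * (1 + ω) by decide, map_mul, p0, zero_mul]
  have t0 : ((3 : ℕ) : Λ ⧸ Z.pn (n + 1)) = 0 := by
    rw [← map_natCast (π.comp (Z.ph true)), show ((3 : ℕ) : Zw) = pw * -pw by decide, map_mul, p0,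
      zero_mul]
  set φ := π.comp (Z.ph (Z.sr S))
  set φ₀ := π.comp (Z.ph (!Z.s₀))
  set γ := π (1 + Z.E.T)
  let Ps := Z.r.primeFactors.filter fun l => ¬ l % 3 = 2
  let N₁ := insert q (∅ ∪ S)
  have n1 : ∀ l ∈ N₁, l.Prime ∧ l % 3 = 2 := fun l hl => by
    simp only [N₁, mem_insert, empty_union] at hl
    rcases hl with rfl | hl
    exacts [⟨qp, q1⟩, ⟨(f2.pr _ l (hS l hl)).1, mod_KS (f2.pr _ l (hS l hl)).2.1⟩]
  have n2 : ∀ l ∈ Ps, l.Prime ∧ l ∣ Z.r ∧ l % 3 = 1 := fun l hl => by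
    obtain ⟨h1, h2⟩ := mem_filter.1 hl
    obtain ⟨h3, h4, -⟩ := Nat.mem_primeFactors.1 h1
    refine ⟨h3, h4, ?_⟩
    have : ¬ 3 ∣ l := fun e => r3 (e.trans h4)
    omega
  have n3 : ∀ l ∈ N₁, l ∉ Ps := fun l h h' => by
    have := (n1 l h).2
    have := (n2 l h').2.2
    omega
  have pn : ∀ P ⊆ Ps, Pn (N₁ ∪ P) := fun P hP l hl => by
    rcases mem_union.1 hl with h | h
    · exact ⟨(n1 l h).1, by have := (n1 l h).2; omega⟩
    · exact ⟨(n2 l (hP h)).1, by have := (n2 l (hP h)).2.2; omega⟩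
  have qN : q ∈ N₁ := mem_insert_self _ _
  have hk : ∀ P ⊆ Ps, ∀ M, M ≠ 0 → φ M = 0 → ∀ g ∈ GK,
      H1 M (N₁ ∪ P) (Z.K.τ (-q) * g * (Z.K.τ (-q))⁻¹ * g⁻¹) ∧
      H.H0 (pw * M) (N₁ ∪ P) (Z.K.τ (-q) * g * (Z.K.τ (-q))⁻¹ * g⁻¹) :=
    fun P hP M h0 h1 g hg => by
      obtain ⟨-, -, -, -, a1, -, a2, -⟩ := hKT H _ φ M (fun _ _ => 0) _ h0 h1 (pn P hP)
      exact ⟨a2 _ (hZ.pk.gk _).2 g hg, (a1 _ (a2 _ (hZ.pk.gk _).2 g hg)).1⟩
  have w0 : pw ≠ 0 := by decide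
  have key : ∀ g ∈ GK, ∀ P ⊆ Ps,
      H.kt φ pw (wv φ₀ 0 Ps q (n + 1) γ) (N₁ ∪ P) (Z.K.τ (-q) * g * (Z.K.τ (-q))⁻¹ * g⁻¹) =
      (∏ ϖ ∈ (Sz Z.r).filter fun ϖ => nn ϖ ∈ P, (γ ^ ((lu q ϖ).val % 3 ^ (n + 1)) - 1)) *
      H.kt φ pw (wv φ₀ 0 Ps q (n + 1) γ) N₁ (Z.K.τ (-q) * g * (Z.K.τ (-q))⁻¹ * g⁻¹) := by
    intro g hg P
    induction P using Finset.induction_on with
    | empty => simp
    | insert p P hp ih =>
      intro hP
      have hP' := (subset_insert p P).trans hP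
      have pP := hP (mem_insert_self p P)
      obtain ⟨a1, a2, a3⟩ := n2 p pP
      obtain ⟨ϖ, b1, rfl, b3, b4⟩ := spl_RED a1 a3
      obtain ⟨c1, -, -, c2, -, c3⟩ := hW _ φ₀ 0 Ps (N₁ ∪ P) q (n + 1) γ (pn P hP')
        (mem_union_left _ qN) (n3 q qN)
        (((pow_dvd_pow 3 (by omega)).mul_right _).trans (hZ.qd (n + 1)))
        ((map_pow π _ _).symm.trans ((Ideal.Quotient.eq.2 (f2.le _ q3)).trans (map_one π)))
        fun l hl h _ => by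
          have e := (n1 l ((mem_union.1 hl).resolve_right fun e => h (hP' e))).2
          obtain ⟨t, ht⟩ : 3 ∣ l + 1 := by omega
          exact ⟨e, by rw [← Nat.cast_succ, Nat.succ_eq_add_one, ht, Nat.cast_mul, t0, zero_mul]⟩
      have e1 := hSP H _ φ _ _ _ ϖ hN (p0 _) (pn P hP') (c3 H φ pw w0 (p0 _)
        (by simp only [map_pow, φ, φ₀, pω, one_pow, mul_one])) b1 a1 (by omega)
        (fun e => (mem_union.1 e).elim (n3 _ · pP) hp)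
        (fun i => by simp [wv, pP, (mem_filter.1 pP).2])
        _ (union_insert (nn ϖ) N₁ P ▸ (hk _ hP pw w0 (p0 _) g hg).1)
      have e2 : ((Sz Z.r).filter fun ϖ' => nn ϖ' ∈ insert (nn ϖ) P) =
          insert ϖ (insert (star ϖ) ((Sz Z.r).filter fun ϖ' => nn ϖ' ∈ P)) := by
        ext ϖ'
        simp only [mem_filter, mem_insert, Sz, hT _ r0 r3, ← or_assoc, ← b4]
        refine ⟨fun h => h.2.imp (fun e => ⟨h.1.1.1, e⟩) fun e => ⟨h.1, e⟩, fun h => h.elim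
          (fun h => ⟨⟨⟨h.1, ?_⟩, h.2 ▸ a1⟩, .inl h.2⟩) fun h => ⟨h.1, .inr h.2⟩⟩
        exact Dvd.dvd.trans ⟨_, (mul_star_nn ϖ').symm⟩ (Nat.cast_dvd_cast (h.2 ▸ a2))
      have e3 : lu q (star ϖ) = -lu q ϖ := (hK q qp (by omega)).bar ϖ
        (IsCoprime.of_isCoprime_of_dvd_left (Nat.Coprime.cast ((Nat.coprime_primes a1 qp).2
          fun e => by omega)) ⟨_, (mul_star_nn ϖ).symm⟩)
      have e4 := ((c1 q (mem_union_left _ qN)).2 (lu q ϖ) (-lu q ϖ)).symm.trans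
        ((congrArg _ (add_neg_cancel _)).trans (c1 q (mem_union_left _ qN)).1)
      simp only [uu, n3 q qN, if_false, if_true] at e4
      rw [union_insert, e1, ih hP', e2, prod_insert (by simp [b3, hp]),
        prod_insert (by simp [hp, nn_star]), e3, c2, c2]
      simp only [map_pow, φ₀, pω, one_pow, one_mul, Lu, Pi.neg_apply]
      rw [← mul_assoc, ← mul_assoc]
      congr 2
      linear_combination -e4
  have e7 : (Sz Z.r).filter (fun ϖ => nn ϖ ∈ Ps) = Sz Z.r := filter_true_of_mem fun ϖ h => by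
    obtain ⟨h1, h2⟩ := mem_filter.1 h
    obtain ⟨h3, h4⟩ := (hT _ r0 r3 ϖ).1 h1
    have := nn_mod3 h3.2.pw
    exact mem_filter.2 ⟨Nat.mem_primeFactors.2
      ⟨h2, h2.dvd_of_dvd_pow (nn_nat Z.r ▸ nn_dvd h4), r0⟩, by omega⟩
  have e5 : insert q (Ps ∪ S) = N₁ ∪ Ps := by
    ext l
    simp only [N₁, mem_insert, empty_union, mem_union]
    tauto
  refine Ideal.Quotient.eq.1 ?_
  change π _ = π _
  rw [map_mul, map_prod, dd, N.kk, N.kk, N.kt0, N.kt0, N.kt_map, N.kt_map, wv_map, wv_map, ← hq,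
    e5, N.kt_congr H φ pw (w' := wv φ₀ 0 Ps q (n + 1) γ) fun l hl => ?_, key g hg _ subset_rfl, e7,
    N.kt_congr H φ pw (w' := wv φ₀ f' ∅ q (n + 1) γ) fun l hl => ?_]
  · congr 1
    refine prod_congr rfl fun ϖ h => ?_
    obtain ⟨h3, h4⟩ := (hT _ r0 r3 ϖ).1 (mem_filter.1 h).1
    obtain ⟨h5, h6, -⟩ := hZ.pk.tm ϖ h3
    rw [map_sub, map_one, Dt.ga, map_pow, hL.att, ZMod.val_natCast,
      ((hAL q qp (by omega)).2.2.2.2.2.1 _ (fun e => q2 (e ▸ (PLK_ok.2.2.2.1 _ _).1 (h5.dvd h4)))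
        (h3.l_neK h5)).2.1 ϖ _ h3 h5 h6]
  · funext i
    simp [wv, n3 l hl]
  · funext i
    by_cases h : l ∈ Ps
    · have h2 : ¬ l % 3 = 2 := (mem_filter.1 h).2
      simp only [wv, h, h2, Ps, if_true, if_false, map_pow, φ₀, pω, one_pow]
    · simp only [wv, h, Ps, if_false]
      rfl

theorem BSE2_pf (hAL : AL_st) (hB : BAS_st) (hW : X.KW_st) (hI : X.IND_st) (hFA : FAM_st) :
    BSE2_st := by
  intro Λ _ Z H₀ f₀ hL H f h1 n
  have qp := hL.ok.qp n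
  have q3 : Z.q n % 3 = 2 := ((hFA Λ Z H₀ f₀ hL).2.2.1 n).1
  have n3 : Z.q n ≠ 3 := fun e => by rw [e] at q3; omega
  have pp : PP (-(Z.q n : Zw)) := ⟨(inert_prime qp q3).neg, -((Z.q n / 3 : ℕ) + 1), by
    have : ((3 * (Z.q n / 3) + 2 : ℕ) : Zw) = Z.q n := congrArg Nat.cast (by omega)
    push_cast at this
    linear_combination this⟩
  have m1 : Z.E.ι pw ∈ Z.E.m := Z.E.m_eq ▸ Ideal.subset_span (by simp)
  have m2 : Z.E.T ∈ Z.E.m := Z.E.m_eq ▸ Ideal.subset_span (by simp)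
  have h0 : ((Ideal.Quotient.mk Z.E.m).comp (Z.ph (Z.sr ∅))) pw = 0 := by
    rw [RingHom.comp_apply, Ideal.Quotient.eq_zero_iff_mem, Dt.ph]
    split_ifs
    · exact m1
    · rw [RingHom.comp_apply, starRingEnd_apply, star_pw, map_neg]
      exact Z.E.m.neg_mem m1
  obtain ⟨v, hv, e⟩ := bas_BSE hB _ ((Ideal.Quotient.mk Z.E.m).comp (Z.ph (!Z.s₀))) f n
    (hL.ok.pk.ine _ qp q3).1 h1 h0 q3 (hL.ok.pk.tm _ pp).2.2.1 (hL.tau _ qp q3)
  have key : ∀ g ∈ GK, Al (Z.q n) g = 0 →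
      Ideal.Quotient.mk Z.E.m (dd Z H f n ∅ g) = v * ((kum 3 g).val : Λ ⧸ Z.E.m) :=
    fun g hg a => by
      rw [← e g hg a, dd, N.kk, N.kt0, N.kt_map, wv_map, map_add, map_one,
        Ideal.Quotient.eq_zero_iff_mem.2 m2, add_zero, empty_union, insert_empty_eq, N.HS.kc]
  obtain ⟨h, hh, a, k⟩ := elt_BSE hAL hW hI qp n3
  obtain ⟨c, hc⟩ := ex_notGK
  refine ⟨h, hh, c, hc, by rw [hL.att, a, ZMod.val_zero, Nat.cast_zero], fun b => Z.E.ne ?_⟩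
  rw [← Ideal.Quotient.eq_zero_iff_mem, map_sub, key h hh a, key _ ((Plc.cj_GK c h).1 hh)
    (by rw [((hAL _ qp n3).2.2.2.1 h hh).2.2 c hc, a, neg_zero]),
    (hW.2.1 3 three_ne_zero).2 c hc h hh, ← mul_sub] at b
  rw [← Ideal.Quotient.eq_zero_iff_mem, map_one]
  exact (hv.mul (unit_BSE k)).mul_left_cancel (by rw [b, zero_mul, zero_mul])

end Pool.Agent.MP_e23604_nt.N.G
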