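import Pool.Agent.Mg.Fe23604m.Gd767a4
import Pool.Agent.Mg.Fe23604m.G160902
import Pool.Agent.Mg.Fe23604m.G5a860c

set_option linter.all false

section

/-!
A pencil of local conditions at three for the residual system: definitions and statements.
-/

set_option autoImplicit false

open Finset Filter QuadraticAlgebra
open scoped Classical

namespace Pool.Agent.MP_e23604_nt.PH

open B R S W V

/-- four cubic characters -/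
noncomputable def bs : Fin 4 → GQ → ZMod 3 :=
  ![kum 3, kum 2, fun g => 2 * X.kw w3 g, X.kw (W.io (1 + 3 * pw))]

/-- residues modulo three as elements of a ring -/
def cv {R : Type} [CommRing R] (a : ZMod 3) : R := (a.val : ℕ)

/-- the symmetric form on four coordinates -/
def b4 {R : Type} [CommRing R] (α β : Fin 4 → R) : R :=
  α 0 * β 3 + α 3 * β 0 - α 1 * β 2 - α 2 * β 1

/-- the inverse of the matrix of values -/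
noncomputable def cm (y : Fin 4 → GQ) : Fin 4 → Fin 4 → ZMod 3 :=
  Classical.epsilon fun c => ∀ a b, ∑ k, c a k * bs b (y k) = if a = b then 1 else 0

section defs

variable {Λ : Type} [CommRing Λ]

/-- `f` is a combination of two characters at three -/
def Sp2 (b : Ideal Λ) (a a' : GQ → ZMod 3) (f : GQ → Λ) : Prop :=
  ∃ α β : Λ, ∀ g ∈ V3.D, f g - (α * cv (a g) + β * cv (a' g)) ∈ b

/-- the coordinates of a local cocycle -/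
noncomputable def cx (Z : Mx Λ) (f : GQ → Λ) (a : Fin 4) : Λ := ∑ k, cv (cm Z.y a k) * f (Z.y k)

/-- the coordinates as linear forms -/
noncomputable def Fc (Z : Mx Λ) (ε : Bool) (a : Fin 4) : JJ → Λ :=
  ∑ k, (cv (cm Z.y a k) : Λ) • Z.fm ε fun _ => Z.y k

/-- the same in a test ring -/
noncomputable def Ft {R : Type} [CommRing R] (Z : Mx Λ) (ϑ : Λ →+* R) (ε : Bool) (a : Fin 4)
    (j : JJ) : R := ϑ (Fc Z ε a j)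

/-- the members of the pencil -/
noncomputable def wp {R : Type} [CommRing R] (Z : Mx Λ) (ϑ : Λ →+* R) (e : Bool) (ξ ζ : R) :
    Bool → JJ → JJ → R := wj (Z.wt ϑ) e (.inl true) (.inl false) (Ft Z ϑ e) ξ ζ

/-- the primes of the residual system -/
def pq (Z : Dt Λ) (n : ℕ) (S : Finset ℕ) : Prop := ∀ l ∈ S, Z.ok n l ∨ l ∈ Bn Z.r

/-- three residual systems of classes on a line -/
structure Pcs (Z : Dt Λ) (e : Bool) (j₀ j₁ : ZMod 3) (r : ℕ) (κ : ℕ → Finset ℕ → GQ → Λ)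
    (E : ZMod 3 → ℕ → Finset ℕ → GQ → Λ) (d : ℕ → GQ → Λ) : Prop where
  sd : Z.sr ∅ = !e
  c9 : ∀ g ∈ V3.D, Z.χ e g = kum 3 g + j₀ * kum 2 g
  c3 : ∀ g ∈ V3.D, Z.χ (!e) g = 2 * kum 3 g + j₁ * kum 2 g
  r1 : r ∣ Z.r
  r2 : ∀ l ∈ Bn Z.r, ¬ l ∣ r
  zf : ∀ j n S, pq Z n S →
    Zf (Z.th (Z.sr S) n) (Ru (3 * (r * Z.q n * ∏ l ∈ S, l : ℕ))) (Z.pn n) (E j n S)
  tq : ∀ j n S, pq Z n S → E j n S (Z.K.τ (-Z.q n)) ∈ Z.pn n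
  tr : ∀ j n S, pq Z n S → ∀ l ∈ S, E j n S (Z.K.σ (-l)) ∈ Z.pn n
  fs : ∀ n S l, pq Z n (insert l S) → l ∉ S → ∃ v, v ∉ Z.E.m ∧ ∀ j,
    E j n (insert l S) (Z.K.τ (-l)) - v * E j n S (Z.K.σ (-l)) ∈ Z.pn n
  l9 : ∀ j n S, pq Z n S → Z.sr S = e →
    Sp2 (Z.pn n) (fun g => bs 0 g + j * bs 1 g) (fun g => bs 2 g + j * bs 3 g) (E j n S)
  l3 : ∀ j n S, pq Z n S → Z.sr S = !e → Sp2 (Z.pn n) (bs 0) (bs 1) (E j n S)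
  lin : ∀ n S, pq Z n S → ∀ g ∈ GK, E 0 n S g + E 1 n S g + E 2 n S g ∈ Z.pn n
  red : ∃ i : ℕ, ∀ n S, (∀ l ∈ S, Z.ok n l) → ∃ v, v ∉ Z.E.m ∧ ∀ g ∈ GK,
    κ n S g - Z.E.ι pw ^ i * (v * E j₀ n (S ∪ Bn Z.r) g) ∈
      Ideal.span {Z.E.ι pw ^ (i + 1)} ⊔ Z.E.m ^ n
  dz : ∀ n, Zf (Z.th (!e) n) (Ru (3 * Z.q n)) (Z.pn n) (d n)
  dq : ∀ n, d n (Z.K.τ (-Z.q n)) ∈ Z.pn n
  spl : ∀ n, ∃ v, v ∉ Z.E.m ∧ ∀ g ∈ GK, E 1 n ∅ g - E 0 n ∅ g -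
    v * (∏ ϖ ∈ Sz Z.r, (Z.ga n (Z.K.σ ϖ) - 1)) * d n g ∈ Z.pn n
  bas : ∀ n, 1 ≤ n → ∃ h ∈ GK, ∃ c ∉ GK, Z.At n h = 0 ∧ d n h - d n (c * h * c⁻¹) ∉ Z.E.m

/-- the residual ideal -/
def pI (Z : Mx Λ) : Ideal Λ := Ideal.span {Z.E.ι pw}

/-- the limit classes -/
structure Cqp (Z : Mx Λ) (e : Bool) (E : ZMod 3 → ℕ → Finset ℕ → GQ → Λ) : Prop where
  lc : ∀ j m, Vx m1 Z.L' m → Z.LC (Z.s m) (pI Z) (insert Z.qg (m ∪ Z.m0)) (Z.kq m1 (E j) m)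
  rv : ∀ j m, Vx m1 Z.L' m →
    Z.Rv (pI Z) (insert Z.qg (m ∪ Z.m0)) (Z.kv m1 (E j) m) (Z.kq m1 (E j) m)
  tr : ∀ j m, Vx m1 Z.L' m → ∀ i ∈ m \ m1, Z.E.ev (Z.kq m1 (E j) m) (Z.sg i) ∈ pI Z
  fs : ∀ m l, Ed m1 Z.L' m l → ∃ v, IsUnit v ∧ ∀ j,
    Z.kv m1 (E j) (insert l m) l - v * Z.E.ev (Z.kq m1 (E j) m) (Z.sg l) ∈ pI Z
  l3 : ∀ j m, Vx m1 Z.L' m → Z.s m = !e →
    Z.LS (!e) (pI Z) (insert Z.qg (m ∪ Z.m0)) (Z.kq m1 (E j) m)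
  l9 : ∀ j m, Vx m1 Z.L' m → Z.s m = e →
    ev (Fc Z e 1) (Z.kv m1 (E j) m) - cv j * ev (Fc Z e 0) (Z.kv m1 (E j) m) ∈ pI Z ∧
    ev (Fc Z e 3) (Z.kv m1 (E j) m) - cv j * ev (Fc Z e 2) (Z.kv m1 (E j) m) ∈ pI Z
  lin : ∀ m, Vx m1 Z.L' m → ∀ i,
    Z.kv m1 (E 0) m i + Z.kv m1 (E 1) m i + Z.kv m1 (E 2) m i ∈ pI Z

/-- the vectors of the classes in a test ring -/
noncomputable def kE {R : Type} [CommRing R] (Z : Mx Λ) (ϑ : Λ →+* R)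
    (E : ZMod 3 → ℕ → Finset ℕ → GQ → Λ) (j : ZMod 3) (m : Finset JJ) : JJ →₀ R :=
  vt ϑ (Z.kv m1 (E j) m)

/-- the direction of the line -/
noncomputable def kD {R : Type} [CommRing R] (Z : Mx Λ) (ϑ : Λ →+* R)
    (E : ZMod 3 → ℕ → Finset ℕ → GQ → Λ) (m : Finset JJ) : JJ →₀ R :=
  kE Z ϑ E 1 m - kE Z ϑ E 0 m

end defs

/-! ### The place over three -/

/-- the local points of the twists by `9 * 4 ^ j` and `3 * 4 ^ j` -/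
def LKP_st : Prop := ∀ (χ : GQ → ZMod 3) (j : ZMod 3),
  ((∀ g ∈ V3.D, χ g = kum 3 g + j * kum 2 g) →
    ∃ a : ZMod 3, a ≠ 0 ∧ X.Lk χ fun g => a * (bs 2 g + j * bs 3 g)) ∧
  ((∀ g ∈ V3.D, χ g = 2 * kum 3 g + j * kum 2 g) →
    ∃ a : ZMod 3, a ≠ 0 ∧ X.Lk χ fun g => a * kum 2 g)

/-- the cup products of the four characters -/
def SYM_st : Prop := ∀ (R : Type) [CommRing R] (c₃ : GQ) (α β : Fin 4 → R), (3 : R) = 0 →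
  c₃ ∈ Dec V3.v → c₃ ∉ GK → Bo2 (fun _ => (1 : R)) V3.D fun g h =>
    (∑ a, α a * cv (bs a (c₃ * g * c₃⁻¹))) * (∑ a, β a * cv (bs a h)) -
      b4 α β * cv (X.kw w3 g * kum 2 h)

/-- residual Kummer cocycles -/
def KUM_st : Prop := ∀ (χ κ : GQ → ZMod 3) (R : Type) [CommRing R] (φ : Zw →+* R), X.Lk χ κ →
  φ pw = 0 → (∀ (M : Zw) (c : GQ → R), M ≠ 0 → pw ∣ M → N.Kum φ M χ V3.D c →
    ∃ α β : R, ∀ g ∈ V3.D, c g = α * cv (χ g) + β * cv (κ g)) ∧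
  ∀ (α β : R) (c : GQ → R), (∀ g ∈ V3.D, c g = α * cv (χ g) + β * cv (κ g)) →
    N.Kum φ pw χ V3.D c

/-- the residual local condition -/
def KLR_st : Prop := ∀ (Λ : Type) [CommRing Λ] (Z : Mx Λ) (ε : Bool) (κ : GQ → ZMod 3) (n : ℕ)
  (b : Ideal Λ) (f : GQ → Λ), Z.Ok0 → X.Lk (Z.χ ε) κ → Z.E.m ^ n ≤ b → Z.E.ι pw ∈ b →
  (Z.Kl ε n b f ↔ Sp2 b (Z.χ ε) κ f)

/-- local coordinates -/
def COO_st : Prop := ∀ (Λ : Type) [CommRing Λ] (Z : Mx Λ), Z.Ok0 →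
  (∀ a b, ∑ k, cm Z.y a k * bs b (Z.y k) = if a = b then 1 else 0) ∧
  (∀ k k', ∑ a, bs a (Z.y k) * cm Z.y a k' = if k = k' then 1 else 0) ∧
  (∀ a, Adt V3.D (bs a) ∧ Lc V3.D (bs a)) ∧
  ∀ b : Ideal Λ, Z.E.ι pw ∈ b → (3 : Λ) ∈ b ∧ (∀ ε, Z.ph ε pw ∈ b) ∧
    (∀ s t : ZMod 3, (cv (s + t) : Λ) - (cv s + cv t) ∈ b ∧ (cv (s * t) : Λ) - cv s * cv t ∈ b) ∧
    (∀ (f : GQ → Λ) (α : Fin 4 → Λ), (∀ g ∈ V3.D, f g - ∑ a, α a * cv (bs a g) ∈ b) →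
      ∀ a, cx Z f a - α a ∈ b) ∧
    (∀ (f : GQ → Λ) (k : Fin 4), f (Z.y k) - ∑ a, cx Z f a * cv (bs a (Z.y k)) ∈ b) ∧
    ∀ ε n, (∀ g ∈ V3.D, Z.th ε n g - 1 ∈ b) ∧
      (∀ α : Fin 4 → Λ, Co (fun g => Ideal.Quotient.mk b (Z.th ε n g)) V3.D
        fun g => Ideal.Quotient.mk b (∑ a, α a * cv (bs a g))) ∧
      ∀ f : GQ → Λ, Co (fun g => Ideal.Quotient.mk b (Z.th ε n g)) V3.D
        (fun g => Ideal.Quotient.mk b (f g)) →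
        ∀ g ∈ V3.D, f g - ∑ a, cx Z f a * cv (bs a g) ∈ b

/-- the reciprocity law with a term at three -/
def RCB_st : Prop := ∃ e : ZMod 3, e ≠ 0 ∧ ∀ (R : Type) [CommRing R] (j : ZMod (3 ^ 1) →+* R)
  (c c₃ : GQ) (lam x y : GQ → R) (β : R) (B : ℕ) (Q : Finset ℕ) (V : ℕ → Plc) (φ τ : ℕ → GQ)
  (u : ℕ → ZMod (3 ^ 1)), Y.Cj c → c₃ ∈ Dec V3.v → c₃ ∉ GK → Mu GK lam →
  (∀ g ∈ GK, lam (c * g * c) * lam g = cj j g) → Co lam GK x → Co lam GK y →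
  (∀ g ∈ V3.D, lam g = 1) →
  (∀ W : Plc, B < W.l → W.l % 3 = 2 → (∀ g ∈ W.D, lam g = 1) ∧ ∀ t ∈ W.I, x t = 0 ∧ y t = 0) →
  (∀ l ∈ Q, (V l).l = l ∧ Y.In (V l) (φ l) ∧ 3 ^ 1 ∣ l + 1 ∧ τ l ∈ (V l).I ∧
    u l * km (3 ^ 1) (τ l) l = 1 ∧ ∀ g ∈ (V l).D, lam g = 1) →
  (∀ W : Plc, W.l ∉ Q → W.l ≠ 3 → Bo2 (cj j) W.D (cup lam (fun g => x (c * g * c)) y)) →
  Bo2 (fun _ => (1 : R)) V3.D
    (fun g h => x (c₃ * g * c₃⁻¹) * y h - β * cv (X.kw w3 g * kum 2 h)) →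
  ∑ l ∈ Q, j (u l) * lam (c * (φ l)⁻¹) * (x (τ l) * y (φ l ^ 2) + x (φ l ^ 2) * y (τ l)) =
    cv e * lam (c * c₃⁻¹) * β

/-! ### The limit -/

/-- existence of limit cocycles without a condition at three -/
def EXC_st : Prop := ∀ (Λ : Type) [CommRing Λ] [IsDomain Λ] (Z : Mx Λ) (ε : Bool) (P : Ideal Λ)
  (A : Finset JJ) (x : JJ →₀ Λ), Z.Ok → Z.Ad A → Z.E.ι pw ∈ P → x.support ⊆ A → x Z.qg ∈ P →
  (∀ j ∈ Z.Sg ∪ Z.Bg, ev (Z.rel ε j) x ∈ P) → ∃ f, Z.LC ε P A f ∧ Z.Rv P A x f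

/-- reciprocity in the limit with the term at three -/
def RCP_st : Prop := ∀ (Λ : Type) [CommRing Λ] [IsDomain Λ] (Z : Mx Λ) (ε : Bool), Z.Ok →
  ∃ v, IsUnit v ∧ ∀ (P : Ideal Λ) (A : Finset JJ) (x y : JJ →₀ Λ) (f f' : ℕ → GQ → Λ),
    Z.E.ι pw ∈ P → Z.Ad A → Z.LC ε P A f → Z.LC ε P A f' → Z.Rv P A x f → Z.Rv P A y f' →
    x Z.qg ∈ P → y Z.qg ∈ P → (∀ j ∈ Z.Sg, x j ∈ P ∧ y j ∈ P) →
    rsum (Z.w ε) (Z.u ε) (A \ insert Z.qg (m1 ∪ Z.Sg)) x y - v * V.bt (Fc Z ε) x y ∈ P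

/-- the pencil of residual systems -/
def PNS_st : Prop := ∀ (Λ R : Type) [CommRing Λ] [IsDomain Λ] [CommRing R] [IsDomain R] (Z : Mx Λ)
  (ϑ : Λ →+* R) (e : Bool), Z.Ok → Rd ϑ (Z.E.ι pw) →
  Pen (Z.wt ϑ) m1 Z.L' (Z.ut ϑ) Z.s e (.inl true) (.inl false) (Ft Z ϑ e)

/-- statements about all data -/
def AllP (S : ∀ (Λ : Type) [CommRing Λ], Mx Λ → Bool → ZMod 3 → (ℕ → Finset ℕ → GQ → Λ) →
    (ZMod 3 → ℕ → Finset ℕ → GQ → Λ) → (ℕ → GQ → Λ) → Prop) : Prop :=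
  ∀ (Λ : Type) [CommRing Λ] [IsDomain Λ] (Z : Mx Λ) (e : Bool) (j₀ j₁ : ZMod 3) (r : ℕ)
    (κ : ℕ → Finset ℕ → GQ → Λ) (E : ZMod 3 → ℕ → Finset ℕ → GQ → Λ) (d : ℕ → GQ → Λ), Z.Ok →
    Pcs Z.toDt e j₀ j₁ r κ E d → S Λ Z e j₀ κ E d

/-- the limit classes exist -/
def CQP_st : Prop := AllP fun _ _ Z e _ _ E _ => Cqp Z e E

/-- the limits of the comparisons -/
def CQR_st : Prop := AllP fun _ _ Z e j₀ κ E d =>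
  (∃ i : ℕ, ∀ m, Vx m1 Z.L' m → Z.Bg ⊆ m → ∃ v, IsUnit v ∧ ∀ g, Inc GK g →
    Z.E.ι pw ^ (i + 1) ∣ Z.E.ev (Z.kq Z.m0 κ (m ∪ Z.Sg)) g -
      Z.E.ι pw ^ i * (v * Z.E.ev (Z.kq m1 (E j₀) m) g)) ∧
  Z.s m1 = !e ∧ Z.LC (!e) (pI Z) (insert Z.qg (m1 ∪ Z.m0)) d ∧
  Z.Rv (pI Z) (insert Z.qg (m1 ∪ Z.m0)) (Z.vec m1 d) d ∧
  ∃ v, IsUnit v ∧ ∀ g, Inc GK g → Z.E.ev (Z.kq m1 (E 1) m1) g - Z.E.ev (Z.kq m1 (E 0) m1) g -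
    v * (∏ ϖ ∈ Sz Z.r, Z.eu ϖ) * Z.E.ev d g ∈ pI Z

/-- a prime at which the first class has small order -/
def BAD_st : Prop := AllP fun _ _ Z _ _ _ _ d => (∃ j, Z.vec m1 d j ∉ Z.E.m) ∧
  ∃ l ∈ Z.L, Z.E.ev d (Z.sg l) ∉ pI Z ⊔ Ideal.span {Z.E.T ^ 2}

/-- the classes span a pencil -/
def PCL_st : Prop := ∀ (Λ R : Type) [CommRing Λ] [IsDomain Λ] [CommRing R] [IsDomain R] (Z : Mx Λ)
  (ϑ : Λ →+* R) (e : Bool) (E : ZMod 3 → ℕ → Finset ℕ → GQ → Λ), Z.Ok → Rd ϑ (Z.E.ι pw) →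
  Cqp Z e E →
  Pcl (Z.wt ϑ) m1 Z.L' Z.s e (.inl true) (.inl false) (Ft Z ϑ e) (kE Z ϑ E 0) (kD Z ϑ E) ∧
  (∀ j m l, Ed m1 Z.L' m l →
    ae (Z.wt ϑ) Z.s (kE Z ϑ E j) m l = ϑ (Z.E.ev (Z.kq m1 (E j) m) (Z.sg l))) ∧
  ∀ j m, Vx m1 Z.L' m → kE Z ϑ E j m = kE Z ϑ E 0 m + (cv j : R) • kD Z ϑ E m

/-- the rows at three are rows of the pencil -/
def RWS_st : Prop := ∀ (Λ R : Type) [CommRing Λ] [IsDomain Λ] [CommRing R] [IsDomain R] (Z : Mx Λ)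
  (ϑ : Λ →+* R) (e : Bool) (j : ZMod 3), Z.Ok → Rd ϑ (Z.E.ι pw) →
  (∀ g ∈ V3.D, Z.χ e g = kum 3 g + j * kum 2 g) → ∃ u, IsUnit u ∧ ∀ m, m1 ⊆ m →
    dt (Z.wt ϑ e) m = u * dt (wp Z ϑ e (cv j) 1 e) m

open PowerSeries in
/-- the base edge -/
def BAP_st : Prop := ∀ (O k : Type) [CommRing O] [IsDomain O] [Field k] (Z : Mx O⟦X⟧) (ϖ : O)
  (red : O →+* k) (e : Bool) (j₀ j₁ : ZMod 3) (r : ℕ) (κ : ℕ → Finset ℕ → GQ → O⟦X⟧)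
  (E : ZMod 3 → ℕ → Finset ℕ → GQ → O⟦X⟧) (d : ℕ → GQ → O⟦X⟧), Z.Ok → Lx Z.E ϖ red →
  Pcs Z.toDt e j₀ j₁ r κ E d → ∃ l, Ed m1 Z.L' m1 l ∧
    ae (Z.wt (map red)) Z.s (kD Z (map red) E) m1 l ≠ 0 ∧
    ae (Z.wt (map red)) Z.s (kD Z (map red) E) m1 l ^ 2 ∣
      map red (∏ ϖ ∈ Sz Z.r, Z.eu ϖ) ^ 2 * De (wp Z (map red) e 1 0) Z.s m1 l

/-- the comparison with the residual system -/
def RDP_st : Prop := ∀ (Λ R : Type) [CommRing Λ] [IsDomain Λ] [CommRing R] [IsDomain R] (Z : Mx Λ)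
  (ϑ : Λ →+* R) (m : Finset JJ) (l : JJ), Z.Ok → Rd ϑ (Z.E.ι pw) → Ed m1 Z.L' m l → Z.Bg ⊆ m →
  Ed Z.m0 Z.L (m ∪ Z.Sg) l ∧ ϑ (∏ ϖ ∈ Sz Z.r, Z.eu ϖ) ≠ 0 ∧
    ϑ (De Z.w Z.s (m ∪ Z.Sg) l) = ϑ (∏ ϖ ∈ Sz Z.r, Z.eu ϖ) ^ 2 * De (Z.wt ϑ) Z.s m l

open PowerSeries in
/-- the theorem of this part -/
def RESP_st : Prop := ∀ (O k : Type) [CommRing O] [IsDomain O] [Field k] (Z : Mx O⟦X⟧) (ϖ : O)
  (red : O →+* k) (e : Bool) (j₀ j₁ : ZMod 3) (r : ℕ) (κ : ℕ → Finset ℕ → GQ → O⟦X⟧)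
  (E : ZMod 3 → ℕ → Finset ℕ → GQ → O⟦X⟧) (d : ℕ → GQ → O⟦X⟧), Z.Ok → Lx Z.E ϖ red → Z.K0 κ →
  Pcs Z.toDt e j₀ j₁ r κ E d → Z.R0 (map red) κ

end Pool.Agent.MP_e23604_nt.PH

end

section

/-!
The facts that the proofs on the pencil use.
-/

set_option autoImplicit false

namespace Pool.Agent.MP_e23604_nt.PH

open B R S W V

/-- the facts that are used -/
structure HV : Prop where
  Y : V.HY
  TRM : V.TRM_st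
  THA : V.THA_st
  THB : V.THB_st
  GER : V.GER_st
  ROW : V.ROW_st
  VAL : V.VAL_st
  LOA : V.LOA_st
  LOK : V.LOK_st
  LV : V.LV_st
  EXS : V.EXS_st
  RCL : V.RCL_st
  CHA : V.CHA_st
  CHL : V.CHL_st
  SYR : V.SYR_st
  CLG : V.CLG_st
  CLC : V.CLC_st
  BA2 : V.BA2_st
  BAS : V.BAS_st
  KW : X.KW_st
  KPI : X.KPI_st
  UN3 : X.UN3_st
  IND : X.IND_st
  DL : N.DL_st
  LKP : LKP_st

end Pool.Agent.MP_e23604_nt.PH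

end
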