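import Pool.Agent.Mg.Fe23604m.Gff9688

set_option linter.all false

/-!
Several systems of points at once: statements.
-/

set_option autoImplicit false

open Finset QuadraticAlgebra
open scoped Classical

namespace Pool.Agent.MP_e23604_nt.N

open B R S W V X

/-- the congruence relation with the unit `u` and the constant `e` -/
def Cg (H : HS) (ε : ZMod 3) (V : Plc) (f : GQ) (u : Zw) (e : Pt) : Prop :=
  ∀ C, Fo ε C → ¬ V.l ∣ Nat.card C → ∀ i, E1 V.v (H.y (C ⊔ Ln V.l i) - u • gal f (H.y C) - e)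

/-- the finite-singular relation with a unit that does not depend on the system -/
def FS2_st : Prop := ∀ (R : Type) [CommRing R] (φ : Zw →+* R) (M : Zw) (V : Plc) (f : GQ) (u : Zw),
  M ≠ 0 → φ M = 0 → M ∣ star M → V.l % 3 = 2 → Frob V.l V.γ f → M ∣ V.l + 1 → IsUnit u →
  ∃ v, IsUnit v ∧ ∀ (H : HS) (w : Wt R) (n : Finset ℕ) (τ : GQ) (c : R) (e : Pt), Pn n → V.l ∉ n →
    τ ∈ V.I → Al V.l τ = 1 → (∀ i, w V.l (i + 1) = w V.l i + c) → (3 : Zw) • e = 0 →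
    Cg H (sd n) V f u e → ∀ g₀ ∈ GK, Al V.l g₀ = 0 →
    lamZ φ (H.χ (sd (insert V.l n))) M g₀ = 1 ∨ 3 * M ∣ V.l + 1 ∨ e = 0 →
    H.kc φ M w (insert V.l n) g₀ τ = v * c * (lamZ φ (H.χ (sd (insert V.l n))) M g₀ *
      H.kt (cf φ) M (sh w (Av g₀)) n (f * f) - H.kt (cf φ) M w n (f * f))

/-- the residual families -/
def FAM2_st : Prop := AllZ fun _ _ Z _ _ => (∀ (H : HS) (f : Fn) (r : ℕ), r ∣ Z.r →
  (∀ l ∈ Bn Z.r, ¬ l ∣ r) → Fam Z H f Z.pn (fun n l => Z.ok n l ∨ l ∈ Bn Z.r) Z.sr r fun _ => pw) ∧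
  ∀ n ε ε' (i i' : ℕ), Z.ph ε (ω ^ i) - Z.ph ε' (ω ^ i') ∈ Z.pn n

/-- the classes of arbitrary systems -/
def KS2_st : Prop := AllZ fun _ _ Z _ _ => ∀ b p s r M,
  (∀ (H : HS) (f : Fn), Fam Z H f b p s r M → ∀ n S, (∀ l ∈ S, p n l) →
    Zf (Z.th (s S) n) (Ru (3 * (r * Z.q n * ∏ l ∈ S, l : ℕ))) (b n)
      (kk Z H f r.primeFactors M s n S) ∧
    kk Z H f r.primeFactors M s n S (Z.K.τ (-Z.q n)) ∈ b n ∧
    (∀ l ∈ S, kk Z H f r.primeFactors M s n S (Z.K.σ (-l)) ∈ b n) ∧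
    ((∀ g ∈ V3.D, Z.ph (s S) (ω ^ (Z.χ (s S) g).val) - Z.ph (s S)
        (ω ^ (H.χ (sg Z (s S)) g - H.j (sg Z (s S)) * kum 2 g).val) ∈ b n) →
      Kum ((Ideal.Quotient.mk (b n)).comp (Z.ph (s S))) (M n)
        (fun g => H.χ (sg Z (s S)) g - H.j (sg Z (s S)) * kum 2 g) V3.D
        fun g => Ideal.Quotient.mk (b n) (kk Z H f r.primeFactors M s n S g)) ∧
    ∀ h, H.H0 (pw * M n) (insert (Z.q n) (r.primeFactors ∪ S)) h →
      kk Z H f r.primeFactors M s n S h - Z.E.T * kt0 Z H f r.primeFactors M s n S h ∈ b n) ∧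
  ∀ (n l : ℕ) (ε : Bool) (u : Zw), p n l → IsUnit u → ∃ v, v ∉ Z.E.m ∧
    ∀ (H : HS) (f : Fn) (S : Finset ℕ) (e : Pt), Fam Z H f b p s r M → (∀ l ∈ S, p n l) → l ∉ S →
      s S = ε → (3 : Zw) • e = 0 → Cg H (sg Z ε) (Z.K.V (-l)) (Z.K.φ (-l)) u e →
      kk Z H f r.primeFactors M s n (insert l S) (Z.K.τ (-l)) -
        v * kk Z H f r.primeFactors M s n S (Z.K.σ (-l)) ∈ b n

end Pool.Agent.MP_e23604_nt.N
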