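import Pool.Agent.Mg.Fe23604m.G8dd564
import Pool.Agent.Mg.Fe23604m.Gff5c9b

set_option linter.all false

/-!
The finite-singular relation for several systems.
-/

set_option autoImplicit false

open Finset QuadraticAlgebra
open scoped Classical

namespace Pool.Agent.MP_e23604_nt.N

open B R S W

theorem alg_FS2 {R ι : Type} [CommRing R] [Fintype ι] {a a' d : ι → R} {c v k t : R}
    (h : ∑ i, a' i = ∑ i, a i) (e : k = 1 ∨ t = 0) :
    1 * c * (k * ∑ i, a' i * (v * d i - t) - ∑ i, a i * (v * d i - t)) =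
      v * c * (k * ∑ i, a' i * d i - ∑ i, a i * d i) := by
  have h1 : ∀ a : ι → R, ∑ i, a i * (v * d i - t) = v * ∑ i, a i * d i - t * ∑ i, a i := fun a => by
    simp only [mul_sum, ← sum_sub_distrib]
    exact sum_congr rfl fun _ _ => by ring
  rw [h1, h1, h]
  rcases e with rfl | rfl <;> ring

theorem key_FS2 (V : Plc) {m : ℕ} [NeZero m] (z : ZMod m → Pt) {τ f : GQ} {M b e u : Zw}
    {D t : Pt} (hm : (m : Zw) = M * b) (hl : (V.l : Zw) + 1 = M * b) (hb : b = e * star b)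
    (hτ : ∀ P : Pt, E1 V.v (gal τ P - P)) (hf : f ∉ GK)
    (h1 : ∀ P : Pt, E1 V.v P → E1 V.v (gal f P))
    (h2 : E1 V.v (gal (f * f) D + (V.l : Zw) • D))
    (hc : E1 V.v (M • z (-1) - u • gal f (M • D) - t)) :
    E1 V.v (∑ a, (a + 1).val • (gal τ (z a) - z (a + 1)) -
      (∑ a, z a + (e * u) • gal f (gal (f * f) D - D) - b • t)) := by
  have k1 : E1 V.v (∑ a, (a + 1).val • (gal τ (z a) - z a)) :=
    sum_induction _ _ (fun _ _ => E1a) trivial fun a _ => by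
      rw [← Nat.cast_smul_eq_nsmul Zw]
      exact (E1m (hτ _) _).1
  convert E1s (E1s k1 (E1m hc b).1) (E1m (h1 _ h2) (e * u)).1 using 1
  have k2 := tel_FS z
  have k3 : gal (f * f) D + (V.l : Zw) • D = gal (f * f) D - D + b • M • D := by
    rw [← mul_smul, mul_comm b, ← hl, add_smul, one_smul]
    abel
  have k4 : ∑ a, (a + 1).val • (gal τ (z a) - z (a + 1)) =
      ∑ a, (a + 1).val • (gal τ (z a) - z a) + ∑ a, (a + 1).val • (z a - z (a + 1)) := by
    rw [← sum_add_distrib]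
    exact sum_congr rfl fun a _ => by rw [← smul_add, sub_add_sub_cancel]
  rw [k4, k2, k3, map_add, gal_star hf b, ← Nat.cast_smul_eq_nsmul Zw m, hm]
  generalize star b = s at hb
  subst hb
  module

theorem FS2_pf (hDL : DL_st) (hAL : AL_st) (hF : FRI_st) (hKT : KT_st) (hCN : CN_st) (hS : SUM_st)
    (hT : TL0_st) (hR : TRS_st) : FS2_st := by
  intro R _ φ M V f u hM hφ hMs h3 hf hMl hu
  have lp := V.hl.out
  have l3 : V.l ≠ 3 := by omega
  obtain ⟨fK, fk, F1, F2, -⟩ := (hF V h3).2.2.2.2 f hf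
  obtain ⟨-, D2, D3, D4, D5, D6, D7, -, D9⟩ := hDL R φ M hM hφ
  obtain ⟨cM, D7⟩ := D7 hMs
  obtain ⟨-, v, hv, D7⟩ := D7 f fK
  obtain ⟨e, he⟩ := hMs
  have eu : IsUnit e := IsUnit.of_mul_eq_one (star e) (mul_left_cancel₀ hM (by
    rw [← mul_assoc, ← he, ← star_mul', ← he, star_star, mul_one]))
  refine ⟨φ (e * u) * v, ((eu.mul hu).map φ).mul hv,
    fun H w n τ c t hn hln hτ hA hw ht hc g hg g0 hor => ?_⟩
  have hn' : Pn (insert V.l n) := fun k hk => by
    rcases mem_insert.1 hk with rfl | hk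
    exacts [⟨lp, l3⟩, hn k hk]
  have nO : ∀ b : Zw, b ∣ V.l + 1 → ¬ Ov V b := fun b hb hO =>
    (Ov_l V).cop ⟨-1, 1, by ring⟩ (hO.dvd hb)
  have O3 : ¬ Ov V 3 := nO 3 (by exact_mod_cast Nat.cast_dvd_cast (α := Zw) (by omega : 3 ∣ V.l + 1))
  have OM := nO M hMl
  obtain ⟨I1, I2, I3⟩ := INE_ok V O3 τ hτ
  have τ9 := I3 9 fun h => O3 (Ov_pow (n := 2) (by rwa [show (3 : Zw) ^ 2 = 9 by norm_num]))
  have τK : τ ∈ GK := UM_le _ τ9
  have σK : f * f ∈ GK := V.D_le fk.1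
  have σ0 := (hR H R φ M w n hM hφ hn V f h3 hf).1 M hMl
  have Kσ := fun w' => (hKT H R (cf φ) M w' n hM cM hn).2.2.2.2.2.2.2.2 _ σ0
  have K := fun w' => hKT H R φ M w' _ hM hφ hn'
  obtain ⟨b, hb⟩ := hMl
  have Mt : M • b • t = 0 := by
    rw [← mul_smul, ← hb]
    exact dvd_smul ht (by exact_mod_cast Nat.cast_dvd_cast (α := Zw) (by omega : 3 ∣ V.l + 1))
  have hor' : lamZ φ (H.χ (sd (insert V.l n))) M g = 1 ∨ φ (co (gq M) (b • t)) = 0 :=
    hor.imp_right fun k => by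
      rw [show b • t = 0 from k.elim (fun k => dvd_smul ht ((mul_dvd_mul_iff_left hM).1
        (by rwa [← hb, mul_comm]))) fun k => by rw [k, smul_zero], D5]
  have eb : b = e * star b := mul_left_cancel₀ hM (by
    rw [← mul_assoc, ← he, ← star_mul', ← hb, star_add, star_natCast, star_one])
  have hm : ((ml V.l : ℕ) : Zw) = M * b := by rw [ml, if_pos h3, Nat.cast_succ, hb]
  have χσ : H.χ (sd n) (f * f) = 0 := by
    have := H.anti (sd n) f fK _ σK
    rw [← mul_assoc, mul_inv_cancel_right] at this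
    generalize H.χ (sd n) (f * f) = x at this
    revert x
    decide
  have eσ : ∀ P, eta (H.χ (sd n)) (f * f) P = gal (f * f) P := fun P => by
    rw [eta_apply, χσ, ZMod.val_zero, pow_zero, one_smul]
  generalize hχ : H.χ (sd (insert V.l n)) = χ at hor'
  have eτ : ∀ P, eta χ τ P = gal τ P := fun P => by
    rw [eta_apply, ← hχ, H.fac _ _ τ9, ZMod.val_zero, pow_zero, one_smul]
  have Aτ : ∀ k ∈ n, Al k τ = 0 := fun k hk =>
    ((hAL k (hn k hk).1 (hn k hk).2).2.2.2.2.2.1 V (ne_of_mem_of_not_mem hk hln).symm l3).1 τ hτ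
  have cτ := fun i : JJ => cgr_FS (n := n) (i := i + Av τ) (i' := i) fun k hk => by
    rw [Pi.add_apply, Av, Aτ k hk, add_zero]
  obtain ⟨z, hz⟩ : ∃ z : JJ → ZMod (ml V.l) → Pt,
    ∀ i a, z i a = dv M (H.y (Cn n i ⊔ Ln V.l a)) := ⟨_, fun _ _ => rfl⟩
  have MS : ∀ i, M • ∑ a, z i a = 0 := fun i => by
    simp only [smul_sum, hz, D2]
    exact hT H _ _ _ (hCN n i hn).2.1 lp h3 ((hCN n i hn).2.2.1 _ lp hln)
  have hG : ∀ g ∈ GK, ∀ i a, M • (eta χ g (z i a) - z (i + Av g) (a + Al V.l g)) = 0 ∧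
      H.F φ M (sd (insert V.l n)) g (Cn n i ⊔ Ln V.l a) =
        φ (co (gq M) (eta χ g (z i a) - z (i + Av g) (a + Al V.l g))) := fun g hg i a => by
    have k : ga g (Cn n i ⊔ Ln V.l a) = Cn n (i + Av g) ⊔ Ln V.l (a + Al V.l g) := by
      rw [← (hCN n i hn).2.2.2.1 g hg, ← ((hAL _ lp l3).2.2.2.1 g hg).1 a]
      exact AddSubgroup.map_sup _ _ _
    rw [hz, hz, ← k, HS.F, ← hχ]
    exact ⟨((K w).2.1 _ (Cn_FS hln i a ▸ (hCN _ _ hn').2.1) g hg).1, rfl⟩
  have hB : ∀ i, ∑ a, w V.l (a + 1) * H.F φ M (sd (insert V.l n)) τ (Cn n i ⊔ Ln V.l a) =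
      c * (φ (co (gq M) (∑ a, z i a)) + 1 * (φ (e * u) * v *
        dl (cf φ) M (H.χ (sd n)) (f * f) (H.y (Cn n i)) - φ (co (gq M) (b • t)))) := fun i => by
    have k0 : z (i + Av τ) = z i := funext fun a => by rw [hz, hz, (cτ i).1]
    have k := hG τ τK i
    simp only [k0, hA, eτ] at k
    have k1 : ∑ a, (gal τ (z i a) - z i (a + 1)) = 0 := by
      rw [sum_sub_distrib, ← map_sum, I2 M _ OM (MS i), sub_eq_zero]
      exact (Equiv.sum_comp (Equiv.addRight 1) (z i)).symm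
    have k2 := ((D9 _ _ σK).2.1 _ ((Kσ w).1 i))
    have k3 : ∀ a : ZMod (ml V.l), M • (a + 1).val • (gal τ (z i a) - z i (a + 1)) = 0 :=
      fun a => by rw [smul_comm, (k a).1, smul_zero]
    have k4 : M • (e * u) • gal f (eta (H.χ (sd n)) (f * f) (dv M (H.y (Cn n i))) -
      dv M (H.y (Cn n i))) = 0 := by rw [smul_comm, (D7 _ k2).1, smul_zero]
    have k5 := E1_tor (key_FS2 V (z i) hm hb eb I1 fK F1 (F2 (dv M (H.y (Cn n i)))) (u := u)
      (t := t) (by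
      rw [hz, D2, D2]
      exact hc _ (hCN n i hn).2.1 ((hCN n i hn).2.2.1 _ lp hln) _)) OM (by
      rw [← eσ, smul_sub, smul_sub, smul_add, MS, k4, Mt, smul_sum, sum_eq_zero fun a _ => k3 a,
        add_zero, sub_zero, sub_zero])
    have k6 := congrArg (fun P => φ (co (gq M) P)) (sub_eq_zero.1 k5)
    have k7 := D6 _ univ _ fun a _ => (k a).1
    simp only [← eσ] at k6
    rw [D6 _ _ _ fun a _ => k3 a, (D3 _ _ (by rw [smul_add, MS, k4, add_zero]) Mt).2,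
      (D3 _ _ (MS i) k4).1, D4 _ _ (D7 _ k2).1, (D7 _ k2).2] at k6
    rw [k1, D5] at k7
    rw [dl, one_mul, mul_assoc _ v, ← add_sub_assoc, ← k6, ← add_zero (c * _), ← mul_zero (w V.l 0), k7, mul_sum, mul_sum,
      ← sum_add_distrib]
    refine sum_congr rfl fun a _ => ?_
    rw [(k a).2, ← Nat.cast_smul_eq_nsmul Zw, D4 _ _ (k a).1, map_natCast, aff_FS hw (a + 1)]
    ring
  subst hχ
  have hk := (K w).2.2.2.2.2.2.1 g hg τ τK
  have kK := UM_le _ hk.1
  have c1 := (K w).2.2.1 _ kK _ (GK.mul_mem τK hg)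
  have c3 := (K w).2.2.1 τ τK g hg
  rw [((D9 _ _ kK).2.2 ((K w).2.2.2.2.2.1 pw _ ((K w).2.2.2.2.1 _ hk).1).2.1).1,
    ktc_FS H φ M (w := sh w _) (w' := w) _ (fun k h => funext fun i => by
      rw [sh, Av, hk.2 k h, add_zero]), c3,
    ((D9 _ _ τK).2.2 fun S h => by rw [eτ, I2 M S OM h]).1, mul_assoc, inv_mul_cancel_left,
    inv_mul_cancel_right, (K w).2.2.1 g hg τ τK] at c1
  have e1 : ∀ w' : Wt R, w' V.l = w V.l → H.kt φ M w' (insert V.l n) τ = ∑ i : Jg n, wp w' n i.1 *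
      (c * (φ (co (gq M) (∑ a, z i.1 a)) + 1 * (φ (e * u) * v *
        dl (cf φ) M (H.χ (sd n)) (f * f) (H.y (Cn n i.1)) - φ (co (gq M) (b • t))))) :=
      fun w' h => by
    rw [kti_FS hS H φ M w' hln, h, hA]
    exact sum_congr rfl fun i _ => by rw [hB, (cτ _).2]
  have e2 : H.kt φ M (sh w (Av τ)) (insert V.l n) g = H.kt φ M w (insert V.l n) g +
      ∑ i : Jg n, wp w n (i.1 + Av g) * (c * (lamZ φ (H.χ (sd (insert V.l n))) M g *
        φ (co (gq M) (∑ a, z i.1 a)) - φ (co (gq M) (∑ a, z (i.1 + Av g) a)))) := by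
    rw [kti_FS hS H φ M _ hln, kti_FS hS H φ M _ hln, ← sum_add_distrib]
    refine sum_congr rfl fun i _ => ?_
    have k := hG g hg i.1
    simp only [g0, add_zero] at k
    rw [← mul_add, ← (D9 _ _ hg).1 _ (MS _), ← (D3 _ _ (by rw [← eta_smul _ hg, MS, map_zero])
      (MS _)).2, map_sum, ← sum_sub_distrib, D6 _ _ _ fun a _ => (k a).1, mul_sum _ _ c,
      ← sum_add_distrib]
    congr 1
    · exact (cτ _).2 w
    · exact sum_congr rfl fun a _ => by rw [sh, Av, hA, hw, ← (k a).2, add_mul]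
  have e3 := (hS R n fun i => wp w n i * φ (co (gq M) (∑ a, z i a))).2.1 (fun i i' h => by
    simp only [hz, (cgr_FS h).1, (cgr_FS h).2]) (Av g)
  rw [e1 w rfl, e1 _ (funext fun i => by rw [sh, Av, g0, add_zero]), e2] at c1
  rw [(Kσ _).2.1, (Kσ _).2.1, HS.kc]
  exact (alg_FS e3 c1).trans (alg_FS2 ((hS R n (wp w n)).2.1 (fun i i' h => (cgr_FS h).2 w) (Av g))
    hor')

end Pool.Agent.MP_e23604_nt.N
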