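import Pool.Agent.Mg.Fe23604m.Gaef5a0
import Pool.Agent.Mg.Fe23604m.Gfb6228
import Pool.Agent.Mg.Fe23604m.G2ca419
import Pool.Agent.Mg.Fe23604m.G256ad4

set_option linter.all false

section

/-!
The finite-singular relation.
-/

set_option autoImplicit false

open Finset QuadraticAlgebra
open scoped Classical

namespace Pool.Agent.MP_e23604_nt.N.G

open B R S W

section

variable {R : Type} [CommRing R]

theorem ktc_FS (H : HS) (φ : Zw →+* R) (M : Zw) {w w' : Wt R} {n : Finset ℕ} (g : GQ)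
    (h : ∀ l ∈ n, w l = w' l) : H.kt φ M w n g = H.kt φ M w' n g :=
  sum_congr rfl fun i _ => by
    congr 1
    exact prod_congr rfl fun k hk => by rw [h k hk]

theorem kti_FS (hS : SUM_st) (H : HS) (φ : Zw →+* R) (M : Zw) (w : Wt R) {n : Finset ℕ} {l : ℕ}
    (h : l ∉ n) (g : GQ) : H.kt φ M w (insert l n) g = ∑ i : Jg n, wp w n (i.1 + Av g) *
      ∑ a, w l (a + Al l g) * H.F φ M (sd (insert l n)) g (Cn n i.1 ⊔ Ln l a) := by
  rw [HS.kt, (hS R n fun i => wp w (insert l n) (i + Av g) *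
    H.F φ M (sd (insert l n)) g (Cn (insert l n) i)).1 l h]
  refine sum_congr rfl fun i _ => ?_
  rw [mul_sum]
  exact sum_congr rfl fun a _ => by rw [wp_FS w h, Cn_FS h, mul_assoc, Av]

end

theorem FS2_pf (hDL : DL_st) (hAL : AL_st) (hF : FRI_st) (hKT : KT_st) (hCN : CN_st) (hS : SUM_st)
    (hT : TL0_st) (hR : TRS_st) : FS2_st := by
  intro R _ φ M V f hM hφ hMs h3 hf hMl
  obtain ⟨u, hu1, hu⟩ : ∃ u : Zw, u = -1 ∧ IsUnit u := ⟨_, rfl, isUnit_one.neg⟩
  have lp := V.hl.out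
  have l3 : V.l ≠ 3 := by omega
  obtain ⟨fK, fk, F1, F2, -⟩ := (hF V h3).2.2.2.2 f hf
  obtain ⟨-, D2, D3, D4, D5, D6, D7, -, D9⟩ := hDL R φ M hM hφ
  obtain ⟨cM, D7⟩ := D7 hMs
  obtain ⟨-, v, hv, D7⟩ := D7 f fK
  obtain ⟨e, he⟩ := hMs
  have eu : IsUnit e := IsUnit.of_mul_eq_one (star e) (mul_left_cancel₀ hM (by
    rw [← mul_assoc, ← he, ← star_mul', ← he, star_star, mul_one]))
  refine ⟨φ (e * u) * v, ((eu.mul hu).map φ).mul hv,
    fun H w n τ c hn hln hτ hA hw g hg g0 hor => ?_⟩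
  obtain ⟨t, ht, hc⟩ := H.cong (sd n) V f h3 hf
  have hn' : Pn (insert V.l n) := fun k hk => by
    rcases mem_insert.1 hk with rfl | hk
    exacts [⟨lp, l3⟩, hn k hk]
  have nO : ∀ b : Zw, b ∣ V.l + 1 → ¬ Ov V b := fun b hb hO =>
    (Ov_l V).cop ⟨-1, 1, by ring⟩ (hO.dvd hb)
  have O3 : ¬ Ov V 3 := nO 3 (by exact_mod_cast Nat.cast_dvd_cast (α := Zw) (by omega : 3 ∣ V.l + 1))
  have OM := nO M hMl
  obtain ⟨I1, I2, I3⟩ := INE_ok V O3 τ hτ
  have τ9 := I3 9 fun h => O3 (Ov_pow (n := 2) (by rwa [show (3 : Zw) ^ 2 = 9 by norm_num]))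
  have τK : τ ∈ GK := UM_le _ τ9
  have σK : f * f ∈ GK := V.D_le fk.1
  have σ0 := (hR H R φ M w n hM hφ hn V f h3 hf).1 M hMl
  have Kσ := fun w' => (hKT H R (cf φ) M w' n hM cM hn).2.2.2.2.2.2.2.2 _ σ0
  have K := fun w' => hKT H R φ M w' _ hM hφ hn'
  obtain ⟨b, hb⟩ := hMl
  have Mt : M • b • t = 0 := by
    rw [← mul_smul, ← hb]
    exact dvd_smul ht (by exact_mod_cast Nat.cast_dvd_cast (α := Zw) (by omega : 3 ∣ V.l + 1))
  have hor' : lamZ φ (H.χ (sd (insert V.l n))) M g = 1 ∨ φ (co (gq M) (b • t)) = 0 :=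
    hor.imp_right fun k => by
      rw [show b • t = 0 from dvd_smul ht ((mul_dvd_mul_iff_left hM).1
        (by rwa [← hb, mul_comm])), D5]
  have eb : b = e * star b := mul_left_cancel₀ hM (by
    rw [← mul_assoc, ← he, ← star_mul', ← hb, star_add, star_natCast, star_one])
  have hm : ((ml V.l : ℕ) : Zw) = M * b := by rw [ml, if_pos h3, Nat.cast_succ, hb]
  have χσ : H.χ (sd n) (f * f) = 0 := by
    have := H.anti (sd n) f fK _ σK
    rw [← mul_assoc, mul_inv_cancel_right] at this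
    generalize H.χ (sd n) (f * f) = x at this
    revert x
    decide
  have eσ : ∀ P, eta (H.χ (sd n)) (f * f) P = gal (f * f) P := fun P => by
    rw [eta_apply, χσ, ZMod.val_zero, pow_zero, one_smul]
  generalize hχ : H.χ (sd (insert V.l n)) = χ at hor'
  have eτ : ∀ P, eta χ τ P = gal τ P := fun P => by
    rw [eta_apply, ← hχ, H.fac _ _ τ9, ZMod.val_zero, pow_zero, one_smul]
  have Aτ : ∀ k ∈ n, Al k τ = 0 := fun k hk =>
    ((hAL k (hn k hk).1 (hn k hk).2).2.2.2.2.2.1 V (ne_of_mem_of_not_mem hk hln).symm l3).1 τ hτ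
  have cτ := fun i : JJ => cgr_FS (n := n) (i := i + Av τ) (i' := i) fun k hk => by
    rw [Pi.add_apply, Av, Aτ k hk, add_zero]
  obtain ⟨z, hz⟩ : ∃ z : JJ → ZMod (ml V.l) → Pt,
    ∀ i a, z i a = dv M (H.y (Cn n i ⊔ Ln V.l a)) := ⟨_, fun _ _ => rfl⟩
  have MS : ∀ i, M • ∑ a, z i a = 0 := fun i => by
    simp only [smul_sum, hz, D2]
    exact hT H _ _ _ (hCN n i hn).2.1 lp h3 ((hCN n i hn).2.2.1 _ lp hln)
  have hG : ∀ g ∈ GK, ∀ i a, M • (eta χ g (z i a) - z (i + Av g) (a + Al V.l g)) = 0 ∧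
      H.F φ M (sd (insert V.l n)) g (Cn n i ⊔ Ln V.l a) =
        φ (co (gq M) (eta χ g (z i a) - z (i + Av g) (a + Al V.l g))) := fun g hg i a => by
    have k : ga g (Cn n i ⊔ Ln V.l a) = Cn n (i + Av g) ⊔ Ln V.l (a + Al V.l g) := by
      rw [← (hCN n i hn).2.2.2.1 g hg, ← ((hAL _ lp l3).2.2.2.1 g hg).1 a]
      exact AddSubgroup.map_sup _ _ _
    rw [hz, hz, ← k, HS.F, ← hχ]
    exact ⟨((K w).2.1 _ (Cn_FS hln i a ▸ (hCN _ _ hn').2.1) g hg).1, rfl⟩
  have hB : ∀ i, ∑ a, w V.l (a + 1) * H.F φ M (sd (insert V.l n)) τ (Cn n i ⊔ Ln V.l a) =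
      c * (φ (co (gq M) (∑ a, z i a)) + 1 * (φ (e * u) * v *
        dl (cf φ) M (H.χ (sd n)) (f * f) (H.y (Cn n i)) - φ (co (gq M) (b • t)))) := fun i => by
    have k0 : z (i + Av τ) = z i := funext fun a => by rw [hz, hz, (cτ i).1]
    have k := hG τ τK i
    simp only [k0, hA, eτ] at k
    have k1 : ∑ a, (gal τ (z i a) - z i (a + 1)) = 0 := by
      rw [sum_sub_distrib, ← map_sum, I2 M _ OM (MS i), sub_eq_zero]
      exact (Equiv.sum_comp (Equiv.addRight 1) (z i)).symm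
    have k2 := ((D9 _ _ σK).2.1 _ ((Kσ w).1 i))
    have k3 : ∀ a : ZMod (ml V.l), M • (a + 1).val • (gal τ (z i a) - z i (a + 1)) = 0 :=
      fun a => by rw [smul_comm, (k a).1, smul_zero]
    have k4 : M • (e * u) • gal f (eta (H.χ (sd n)) (f * f) (dv M (H.y (Cn n i))) -
      dv M (H.y (Cn n i))) = 0 := by rw [smul_comm, (D7 _ k2).1, smul_zero]
    have k5 := E1_tor (key_FS2 V (z i) hm hb eb I1 fK F1 (F2 (dv M (H.y (Cn n i)))) (u := u)
      (t := t) (by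
      rw [hz, D2, D2, hu1, neg_smul, one_smul, sub_neg_eq_add]
      exact hc _ (hCN n i hn).2.1 ((hCN n i hn).2.2.1 _ lp hln) _)) OM (by
      rw [← eσ, smul_sub, smul_sub, smul_add, MS, k4, Mt, smul_sum, sum_eq_zero fun a _ => k3 a,
        add_zero, sub_zero, sub_zero])
    have k6 := congrArg (fun P => φ (co (gq M) P)) (sub_eq_zero.1 k5)
    have k7 := D6 _ univ _ fun a _ => (k a).1
    simp only [← eσ] at k6
    rw [D6 _ _ _ fun a _ => k3 a, (D3 _ _ (by rw [smul_add, MS, k4, add_zero]) Mt).2,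
      (D3 _ _ (MS i) k4).1, D4 _ _ (D7 _ k2).1, (D7 _ k2).2] at k6
    rw [k1, D5] at k7
    rw [dl, one_mul, mul_assoc _ v, ← add_sub_assoc, ← k6, ← add_zero (c * _), ← mul_zero (w V.l 0), k7, mul_sum, mul_sum,
      ← sum_add_distrib]
    refine sum_congr rfl fun a _ => ?_
    rw [(k a).2, ← Nat.cast_smul_eq_nsmul Zw, D4 _ _ (k a).1, map_natCast, aff_FS hw (a + 1)]
    ring
  subst hχ
  have hk := (K w).2.2.2.2.2.2.1 g hg τ τK
  have kK := UM_le _ hk.1
  have c1 := (K w).2.2.1 _ kK _ (GK.mul_mem τK hg)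
  have c3 := (K w).2.2.1 τ τK g hg
  rw [((D9 _ _ kK).2.2 ((K w).2.2.2.2.2.1 pw _ ((K w).2.2.2.2.1 _ hk).1).2.1).1,
    ktc_FS H φ M (w := sh w _) (w' := w) _ (fun k h => funext fun i => by
      rw [sh, Av, hk.2 k h, add_zero]), c3,
    ((D9 _ _ τK).2.2 fun S h => by rw [eτ, I2 M S OM h]).1, mul_assoc, inv_mul_cancel_left,
    inv_mul_cancel_right, (K w).2.2.1 g hg τ τK] at c1
  have e1 : ∀ w' : Wt R, w' V.l = w V.l → H.kt φ M w' (insert V.l n) τ = ∑ i : Jg n, wp w' n i.1 *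
      (c * (φ (co (gq M) (∑ a, z i.1 a)) + 1 * (φ (e * u) * v *
        dl (cf φ) M (H.χ (sd n)) (f * f) (H.y (Cn n i.1)) - φ (co (gq M) (b • t))))) :=
      fun w' h => by
    rw [kti_FS hS H φ M w' hln, h, hA]
    exact sum_congr rfl fun i _ => by rw [hB, (cτ _).2]
  have e2 : H.kt φ M (sh w (Av τ)) (insert V.l n) g = H.kt φ M w (insert V.l n) g +
      ∑ i : Jg n, wp w n (i.1 + Av g) * (c * (lamZ φ (H.χ (sd (insert V.l n))) M g *
        φ (co (gq M) (∑ a, z i.1 a)) - φ (co (gq M) (∑ a, z (i.1 + Av g) a)))) := by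
    rw [kti_FS hS H φ M _ hln, kti_FS hS H φ M _ hln, ← sum_add_distrib]
    refine sum_congr rfl fun i _ => ?_
    have k := hG g hg i.1
    simp only [g0, add_zero] at k
    rw [← mul_add, ← (D9 _ _ hg).1 _ (MS _), ← (D3 _ _ (by rw [← eta_smul _ hg, MS, map_zero])
      (MS _)).2, map_sum, ← sum_sub_distrib, D6 _ _ _ fun a _ => (k a).1, mul_sum _ _ c,
      ← sum_add_distrib]
    congr 1
    · exact (cτ _).2 w
    · exact sum_congr rfl fun a _ => by rw [sh, Av, hA, hw, ← (k a).2, add_mul]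
  have e3 := (hS R n fun i => wp w n i * φ (co (gq M) (∑ a, z i a))).2.1 (fun i i' h => by
    simp only [hz, (cgr_FS h).1, (cgr_FS h).2]) (Av g)
  rw [e1 w rfl, e1 _ (funext fun i => by rw [sh, Av, g0, add_zero]), e2] at c1
  rw [(Kσ _).2.1, (Kσ _).2.1, HS.kc]
  exact (alg_FS e3 c1).trans (alg_FS2 ((hS R n (wp w n)).2.1 (fun i i' h => (cgr_FS h).2 w) (Av g))
    hor')

end Pool.Agent.MP_e23604_nt.N.G

end

section

/-!
Coordinates of the local cocycles for the trivial character.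
-/

set_option autoImplicit false

open Finset Filter QuadraticAlgebra
open scoped Classical

namespace Pool.Agent.MP_e23604_nt.PH

open B R S W V

theorem cv_Coo {R : Type} [CommRing R] (h : (3 : R) = 0) : ∃ ψ : ZMod 3 →+* R, ∀ s, cv s = ψ s :=
  ⟨ZMod.castHom (ringChar.dvd (x := 3) (by exact_mod_cast h)) R, fun s => by
    rw [ZMod.castHom_apply, cv, ZMod.natCast_val]⟩

theorem bs_Coo (hV : HV) (a : Fin 4) : Adt V3.D (bs a) ∧ Lc V3.D (bs a) := by
  have K := fun x hx hf => hV.KW.1 V3.D x V3.D_le hx hf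
  have Q : ∀ r : ℚ, r ≠ 0 → Adt V3.D (kum r) ∧ Lc V3.D (kum r) := fun r hr => by
    obtain ⟨h1, ⟨N, h2, h3⟩, -⟩ := K r (by exact_mod_cast hr) fun g _ => by simp
    have e := fun g (hg : g ∈ V3.D) => (hV.KW.2.1 r hr).1 g (V3.D_le hg)
    exact ⟨fun g hg h hh => by rw [← e g hg, ← e h hh, ← e _ (mul_mem hg hh), h1 g hg h hh],
      N, h2, fun g hg h hh u => by rw [← e g hg, ← e h hh, h3 g hg h hh u]⟩
  fin_cases a
  · exact Q 3 (by norm_num)
  · exact Q 2 (by norm_num)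
  · obtain ⟨h1, h2, -⟩ := K w3 w3_ne_zero fun g hg => V3.D_le hg _ w3_cube
    exact ⟨fun g hg h hh => (congrArg (2 * ·) (h1 g hg h hh)).trans (mul_add _ _ _),
      h2.map (2 * ·)⟩
  · obtain ⟨h1, h2, -⟩ := K _ (io_ne (b := 1 + 3 * pw) (by decide)) fun g hg =>
      io_fix (V3.D_le hg) _
    exact ⟨h1, h2⟩

theorem cmb_Coo (hV : HV) {R : Type} [CommRing R] (ψ : ZMod 3 →+* R) (α : Fin 4 → R) :
    (Adt V3.D fun g => ∑ a, α a * ψ (bs a g)) ∧ Lc V3.D fun g => ∑ a, α a * ψ (bs a g) := by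
  have L := fun a => (bs_Coo hV a).2.map fun s => α a * ψ s
  refine ⟨fun g hg h hh => ?_, ?_⟩
  · simp only [(bs_Coo hV _).1 g hg h hh, map_add, mul_add, sum_add_distrib]
  · simp only [Fin.sum_univ_four]
    exact (((L 0).map₂ (L 1) (· + ·)).map₂ (L 2) (· + ·)).map₂ (L 3) (· + ·)

theorem COO_pf (hV : HV) : COO_st := by
  intro Λ _ Z hZ
  let A : Matrix (Fin 4) (Fin 4) (ZMod 3) := fun k b => bs b (Z.y k)
  have hA : IsUnit A := by
    refine Matrix.mulVec_injective_iff_isUnit.1 (A.mulVecLin.ker_eq_bot.1 ?_)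
    refine LinearMap.ker_eq_bot'.2 fun t ht => ?_
    obtain ⟨c1, c2⟩ := cmb_Coo hV (RingHom.id _) t
    have z := hZ.dm _ _ c1 c2 (fun g _ => by
      rw [nsmul_eq_mul, show ((3 : ℕ) : ZMod 3) = 0 from rfl, zero_mul]) fun k => by
        simpa [A, Matrix.mulVec, dotProduct, mul_comm] using congrFun ht k
    obtain ⟨h2, h0, h1, h3⟩ := hV.IND (2 * t 2) (t 0) (t 1) (t 3) fun g hg => by
      have := z g hg
      simp only [Fin.sum_univ_four, bs, RingHom.id_apply, Matrix.cons_val] at this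
      linear_combination this
    funext a
    fin_cases a
    exacts [h0, h1, (mul_eq_zero.1 h2).resolve_left (by decide), h3]
  have i1 : ∀ a b, ∑ k, cm Z.y a k * bs b (Z.y k) = if a = b then 1 else 0 := by
    obtain ⟨c, hc⟩ := hA.exists_left_inv
    exact Classical.epsilon_spec (p := fun c : Fin 4 → Fin 4 → ZMod 3 =>
      ∀ a b, ∑ k, c a k * bs b (Z.y k) = if a = b then 1 else 0) ⟨c, fun a b => by
        rw [← Matrix.one_apply, ← hc]; rfl⟩
  have i2 : ∀ k k', ∑ a, bs a (Z.y k) * cm Z.y a k' = if k = k' then 1 else 0 := fun k k' => by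
    have : A * Matrix.of (cm Z.y) = 1 :=
      mul_eq_one_comm.1 (Matrix.ext fun a b => (i1 a b).trans Matrix.one_apply.symm)
    rw [← Matrix.one_apply, ← this]; rfl
  refine ⟨i1, i2, bs_Coo hV, fun b hb => ?_⟩
  have h3 : (3 : Λ) ∈ b := by
    have : (3 : Λ) = -Z.E.ι pw * Z.E.ι pw := by
      rw [neg_mul, ← pow_two, ← map_pow, pw_sq, map_neg, neg_neg, map_ofNat]
    exact this ▸ b.mul_mem_left _ hb
  have z3 : (3 : Λ ⧸ b) = 0 := by
    rw [← map_ofNat (Ideal.Quotient.mk b)]; exact Ideal.Quotient.eq_zero_iff_mem.2 h3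
  obtain ⟨ψ, hψ⟩ := cv_Coo z3
  have e : ∀ s, Ideal.Quotient.mk b (cv s) = ψ s := fun s => (map_natCast _ _).trans (hψ s)
  have j2 : ∀ (f : GQ → Λ) (k : Fin 4), Ideal.Quotient.mk b (f (Z.y k)) =
      ∑ a, Ideal.Quotient.mk b (cx Z f a) * ψ (bs a (Z.y k)) := fun f k => by
    have := fun k' => congrArg (fun s => ψ s * Ideal.Quotient.mk b (f (Z.y k'))) (i2 k k')
    simp only [map_sum, map_mul, sum_mul, apply_ite ψ, map_one, map_zero] at this
    simp only [cx, map_sum, map_mul, e, sum_mul]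
    rw [sum_comm]
    simpa [mul_comm, mul_assoc, mul_left_comm] using
      (sum_congr (s₁ := univ) rfl fun k' _ => this k').symm
  simp only [← Ideal.Quotient.eq, map_add, map_mul, map_sum, e, map_one]
  refine ⟨h3, fun ε => ?_, fun _ _ => ⟨trivial, trivial⟩, fun f α hf a => ?_, j2, fun ε n => ?_⟩
  · cases ε
    · simpa [Dt.ph, starRingEnd_apply, star_pw] using hb
    · exact hb
  · have := fun a' => congrArg (fun s => ψ s * Ideal.Quotient.mk b (α a')) (i1 a a')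
    simp only [map_sum, map_mul, sum_mul, apply_ite ψ, map_one, map_zero] at this
    simp only [cx, map_sum, map_mul, e, hf _ (hZ.yD _), mul_sum]
    rw [sum_comm]
    simpa [mul_comm, mul_assoc, mul_left_comm] using
      sum_congr (s₁ := univ) rfl fun a' _ => this a'
  have t1 : ∀ g ∈ V3.D, Ideal.Quotient.mk b (Z.th ε n g) = 1 := fun g hg => by
    have := (((hV.THA Λ _ n hZ.toOk).2.2.2.2.2.1 ε).2.2.1 g (V3.D_le hg)).2.1
    rw [Dt.ga, (hV.THB Λ _ n hZ.toOk).1 V3 (.inl rfl) g hg, ZMod.val_zero, pow_zero] at this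
    exact Ideal.Quotient.eq.2 (b.mem_of_dvd this hb)
  refine ⟨t1, fun α => ?_, fun f hf g hg => ?_⟩
  · obtain ⟨c1, c2⟩ := cmb_Coo hV ψ fun a => Ideal.Quotient.mk b (α a)
    exact ⟨c2, fun g hg h hh => by simpa only [t1 g hg, one_mul] using c1 g hg h hh⟩
  · obtain ⟨c1, c2⟩ := cmb_Coo hV ψ fun a => Ideal.Quotient.mk b (cx Z f a)
    refine sub_eq_zero.1 (hZ.dm _ _ (fun g hg h hh => ?_) (hf.1.map₂ c2 (· - ·))
      (fun g _ => by rw [nsmul_eq_mul, Nat.cast_ofNat, z3, zero_mul])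
      (fun k => sub_eq_zero.2 (j2 f k)) g hg)
    have := hf.2 g hg h hh
    simp only [t1 g hg] at this
    linear_combination this - c1 g hg h hh

end Pool.Agent.MP_e23604_nt.PH

end
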