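import Pool.Agent.Mg.Fe23604m.Gff9688

set_option linter.all false

/-!
The characters at three, and the two families of ideals.
-/

set_option autoImplicit false

open Finset QuadraticAlgebra
open scoped Classical

namespace Pool.Agent.MP_e23604_nt.N

open B R S W V X

section

variable {Λ : Type} [CommRing Λ] {Z : Dt Λ} {H : HS} {f : Fn}

theorem q_LO (h : Z.Ok) (n : ℕ) : Z.q n % 3 = 2 ∧ ¬ Z.q n ∣ Z.r ∧ 3 ^ (n + 3) ∣ Z.q n + 1 := by
  have h1 := (dvd_mul_right _ _).trans (h.qd n)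
  have h2 := (dvd_pow_self 3 (Nat.succ_ne_zero _)).trans h1
  exact ⟨by omega, fun e => (h.qp n).not_dvd_one ((Nat.dvd_add_right dvd_rfl).1
    (e.trans ((dvd_mul_left _ _).trans (h.qd n)))), h1⟩

theorem j_LO (h : Lk Z H f) : H.j (-Z.r) = -H.j Z.r := by
  have h1 : (Z.r : ZMod 3) ≠ 0 := fun e =>
    (h.ok.tw true).n3 ((ZMod.natCast_eq_zero_iff _ _).1 e)
  rcases (by decide : ∀ x : ZMod 3, x ≠ 0 → x = 1 ∧ -x = 2 ∨ x = 2 ∧ -x = 1) _ h1 with e | e
  · rw [e.2, e.1, h.jn]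
  · rw [e.2, e.1, h.jn, neg_neg]

theorem p_LO (h : Z.Ok) {l : ℕ} (hl : l ∈ Z.r.primeFactors) : l.Prime ∧ l ≠ 3 :=
  ⟨Nat.prime_of_mem_primeFactors hl, fun e =>
    (h.tw true).n3 (e ▸ Nat.dvd_of_mem_primeFactors hl)⟩

theorem sg_LO (Z : Dt Λ) (ε : Bool) :
    ε = Z.s₀ ∧ sg Z ε = -Z.r ∨ ε = (!Z.s₀) ∧ sg Z ε = Z.r := by
  by_cases e : ε = Z.s₀
  · exact Or.inl ⟨e, if_pos e⟩
  · exact Or.inr ⟨Bool.eq_not.2 e, if_neg e⟩

theorem ph_LO (Z : Dt Λ) (ε : Bool) (b : Zw) : Z.ph (!ε) b = Z.ph ε (star b) := by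
  rw [← cf_ph]
  rfl

theorem pw_LO (Z : Dt Λ) (ε : Bool) (n : ℕ) : Z.ph ε pw ∈ Z.pn n := by
  have h : Z.E.ι pw ∈ Z.pn n := Ideal.mem_sup_left (Ideal.mem_span_singleton_self _)
  cases ε
  · rw [show false = !true from rfl, ph_LO, star_pw, map_neg]
    exact neg_mem h
  · exact h

theorem w_LO (Z : Dt Λ) (ε : Bool) (n i : ℕ) :
    Ideal.Quotient.mk (Z.pn n) (Z.ph ε (ω ^ i)) = 1 := by
  obtain ⟨c, hc⟩ := pw_w
  rw [map_pow, map_pow, eq_add_of_sub_eq hc, map_add, map_add, map_mul, map_mul,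
    Ideal.Quotient.eq_zero_iff_mem.2 (pw_LO Z ε n), map_one, map_one, zero_mul, zero_add, one_pow]

theorem neg_LO {S : Finset ℕ} (h : ∀ l ∈ S, l % 3 = 2) : ∏ l ∈ S, (l : ZMod 3) = (-1) ^ S.card := by
  rw [← prod_const]
  exact prod_congr rfl fun l hl => by rw [← ZMod.natCast_mod, h l hl]; rfl

theorem r_LO (h : Z.Ok) : (Z.r : ZMod 3) = (-1) ^ (Bn Z.r).card := by
  rw [← neg_LO (S := Bn Z.r) fun l hl => (mem_filter.1 hl).2, Bn, prod_filter]
  conv_lhs => rw [← Nat.prod_primeFactors_of_squarefree (h.tw true).sf, Nat.cast_prod]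
  refine prod_congr rfl fun l hl => ?_
  split_ifs with e
  · rfl
  · have h1 := p_LO h hl
    have h2 : ¬ 3 ∣ l := fun k => h1.2 ((Nat.prime_dvd_prime_iff_eq Nat.prime_three h1.1).1 k).symm
    rw [← ZMod.natCast_mod, show l % 3 = 1 by omega, Nat.cast_one]

theorem flip_LO (a : Bool) {l : ℕ} {S : Finset ℕ} (h : l ∉ S) :
    xor a (decide (Odd (insert l S).card)) = !xor a (decide (Odd S.card)) := by
  rw [card_insert_of_notMem h]
  by_cases e : Odd S.card <;> cases a <;> simp [Nat.odd_add_one, e]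

theorem T_LO (E : Lm Λ) (n : ℕ) : (1 + E.T) ^ 3 ^ n - 1 ∈ E.m ^ (n + 1) := by
  induction n with
  | zero =>
    rw [pow_zero, zero_add, pow_one, pow_one, add_sub_cancel_left, E.m_eq]
    exact Ideal.subset_span (by simp)
  | succ n ih =>
    rw [pow_succ 3, pow_mul, pow_succ E.m]
    generalize (1 + E.T) ^ 3 ^ n = x at ih
    rw [show x ^ 3 - 1 = (x - 1) * ((x - 1) * (x - 1) + 3 * x) by ring]
    exact Ideal.mul_mem_mul ih (add_mem (Ideal.mul_mem_left _ _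
      (Ideal.pow_le_self n.succ_ne_zero ih)) (Ideal.mul_mem_right _ _ E.three_mem))

end

theorem LO_pf (hLU : LU_st) (hAL : AL_st) (hD : X.DPI_st) : LO_st := by
  intro Λ _ Z H f h
  obtain ⟨s, s1, -, -, -, s2⟩ := hD
  have s0 : s 1 = 0 := by simpa using s1 1 (one_mem _) 1 (one_mem _)
  have ka : Adt GK (kum 2) := fun g hg g' _ => by
    rw [tdt_SKAP two_ne_zero g trivial g' trivial, ep_pos hg, one_mul]
  have a1 : ∀ g ∈ V3.D, s g = 0 → ∀ l : ℕ, l.Prime → l ≠ 3 →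
      Al l g = (kum 2 g).val • lu l ω := fun g hg e l hl h3 => by
    obtain ⟨a, ha⟩ := s2 l (fun k => h3 ((Nat.prime_dvd_prime_iff_eq Nat.prime_three hl).1 k).symm)
      g hg
    rw [e, ZMod.val_zero, pow_zero, mul_one] at ha
    obtain ⟨-, l1, -, l2, -⟩ := hLU l hl h3
    have c1 : IsCoprime (a : Zw) l := by
      have : ¬ (l : ℤ) ∣ a := by
        rintro ⟨c, rfl⟩
        obtain ⟨Q, hQ⟩ := (CYG_ok l (Nat.cast_ne_zero.2 hl.ne_zero)).1
        have k := ha Q hQ.zero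
        rw [dvd_smul hQ.zero (by push_cast; exact (dvd_mul_right _ _).mul_right _), gal_ne] at k
        have := nn_dvd ((hQ 1).1 (by rw [k, smul_zero]))
        rw [nn_nat, nn_one] at this
        exact hl.not_dvd_one ((dvd_pow_self _ two_ne_zero).trans this)
      simpa using (((Nat.prime_iff_prime_int.1 hl).coprime_iff_not_dvd.2 this).symm.map
        (Int.castRingHom Zw))
    have c2 : ∀ i : ℕ, IsCoprime ((ω : Zw) ^ i) l := fun i => by
      simpa using (isCoprime_mul_unit_left_left (w_unit.pow i) 1 (l : Zw)).2 isCoprime_one_left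
    have c3 : ∀ i : ℕ, lu l (ω ^ i) = i • lu l ω := fun i => by
      induction i with
      | zero => simpa using (l2 1 isCoprime_one_left).2 ⟨1, by simp⟩
      | succ i ih => rw [pow_succ, l1 _ _ (c2 i) (by simpa using c2 1), ih, succ_nsmul]
    rw [((hAL l hl h3).2.2.2.1 g (V3.D_le hg)).2.1 _ ha, l1 _ _ c1 (c2 _),
      (l2 _ c1).2 ⟨a, by simp⟩, zero_add, c3]
  refine ⟨⟨⟨⟨{g | g ∈ V3.D ∧ s g = 0}, fun {a b} ha hb => ⟨mul_mem ha.1 hb.1, by
    rw [s1 a ha.1 b hb.1, ha.2, hb.2, add_zero]⟩⟩, one_mem _, s0⟩, fun {a} ha =>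
    ⟨inv_mem ha.1, by simpa [s0, ha.2] using (s1 a ha.1 _ (inv_mem ha.1)).symm⟩⟩,
    fun g hg => hg.1, fun g hg g' hg' e e' => ⟨mul_mem hg hg', ?_⟩,
    fun g hg => a1 g hg.1 hg.2, ka, fun g hg => ?_⟩
  · rw [s1 g hg g' hg']
    exact (by decide : ∀ x y : ZMod 2, x ≠ 0 → y ≠ 0 → x + y = 0) _ _
      (fun k => e ⟨hg, k⟩) fun k => e' ⟨hg', k⟩
  have hK := V3.D_le hg
  have a2 := a1 _ (mul_mem hg hg) (by
    rw [s1 g hg g hg]
    exact (by decide : ∀ x : ZMod 2, x + x = 0) _)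
  refine ⟨fun n => ?_, fun ε => ?_⟩
  · obtain ⟨q1, -, q2⟩ := q_LO h.ok n
    have q3 : Z.q n ≠ 3 := by omega
    have m1 : ml (Z.q n) = Z.q n + 1 := by rw [ml, if_pos q1]
    have m2 : 3 ^ n ∣ ml (Z.q n) / 3 := by
      rw [m1]
      exact Nat.dvd_div_of_mul_dvd ((by rw [← pow_succ']; exact pow_dvd_pow 3 (by omega) :
        3 * 3 ^ n ∣ 3 ^ (n + 3)).trans q2)
    have m3 : 3 ^ n ∣ ml (Z.q n) := m1 ▸ (pow_dvd_pow 3 (by omega)).trans q2
    have m4 : ∀ x : ZMod (ml (Z.q n)), ((x.val : ℕ) : ZMod (3 ^ n)) = ZMod.castHom m3 _ x :=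
      fun x => by rw [ZMod.castHom_apply, ZMod.natCast_val]
    have m5 : (((lu (Z.q n) ω).val : ℕ) : ZMod (3 ^ n)) = 0 := by
      rw [ZMod.natCast_eq_zero_iff]
      rcases (hLU _ (h.ok.qp n) q3).2.2.2.2.1 with e | e <;> rw [e]
      exacts [m2, m2.mul_left _]
    have m6 := h.ok.add n g hK g hK
    rw [h.att, a2 _ (h.ok.qp n) q3, m4, map_nsmul, ← m4, m5, smul_zero, ← two_mul] at m6
    have u : IsUnit ((2 : ℕ) : ZMod (3 ^ n)) :=
      (ZMod.isUnit_iff_coprime 2 _).2 (Nat.Coprime.pow_right n (by norm_num))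
    exact u.mul_right_eq_zero.1 m6.symm
  · have a3 : fs f Z.r.primeFactors (Av (g * g)) = -(H.j Z.r * kum 2 (g * g)) := by
      rw [← neg_mul, ← eq_neg_of_add_eq_zero_left h.ori, fs, fs, sum_mul]
      refine sum_congr rfl fun l hl => ?_
      rw [Av, Lu, a2 l (p_LO h.ok hl).1 (p_LO h.ok hl).2, map_nsmul, nsmul_eq_mul,
        ZMod.natCast_zmod_val, mul_comm]
    have a4 : Z.χ ε (g * g) = H.χ (sg Z ε) (g * g) - H.j (sg Z ε) * kum 2 (g * g) := by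
      rcases sg_LO Z ε with ⟨rfl, e⟩ | ⟨rfl, e⟩
      · rw [e, h.cB _ (mul_mem hK hK), a3, j_LO h]
        ring
      · rw [e, h.cA _ (mul_mem hK hK), a3]
        ring
    rw [(h.ok.tw ε).add g hK g hK, H.add _ g hK g hK, ka g hK g hK] at a4
    refine (by decide : ∀ x y : ZMod 3, x + x = y + y → x = y) _ _ ?_
    linear_combination a4

theorem FAM_pf (hAL : AL_st) : FAM_st := by
  intro Λ _ Z H f h
  have ok : ∀ n l, Z.ok n l → l.Prime ∧ l % 3 = 2 ∧ 3 ^ (n + 1) ∣ l + 1 ∧ ¬ l ∣ Z.r ∧ l ≠ Z.q n :=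
    fun n l hl => by
      have h1 := (pow_dvd_pow 3 (by omega : n + 1 ≤ n + 3)).trans
        ((dvd_mul_right _ _).trans hl.2.1)
      have h2 := (dvd_pow_self 3 (Nat.succ_ne_zero _)).trans h1
      exact ⟨hl.1, by omega, h1, fun e => hl.1.not_dvd_one ((Nat.dvd_add_right dvd_rfl).1
        (e.trans ((dvd_mul_left _ _).trans hl.2.1))), hl.2.2⟩
  have ok' : ∀ n l, Z.ok n l ∨ l ∈ Bn Z.r → l.Prime ∧ l % 3 = 2 ∧ l ≠ Z.q n := fun n l hl =>
    hl.elim (fun e => ⟨e.1, (ok n l e).2.1, e.2.2⟩) fun e =>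
      ⟨(p_LO h.ok (mem_filter.1 e).1).1, (mem_filter.1 e).2, fun k => (q_LO h.ok n).2.1
        (k ▸ Nat.dvd_of_mem_primeFactors (mem_filter.1 e).1)⟩
  have q1 : ∀ n, (Z.q n : ZMod 3) = -1 := fun n => by
    rw [← ZMod.natCast_mod, (q_LO h.ok n).1]
    rfl
  refine ⟨⟨dvd_rfl, fun _ => le_rfl, fun n => pow_dvd_pow _ n.le_succ, fun n => by simp,
    fun n ε => ?_, fun n l hl => ⟨hl.1, ?_, (ok n l hl).2.2.2⟩, fun n S hS => ?_,
    fun l S => flip_LO _, fun n ε g hg => ?_, fun n ε => ?_⟩,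
    ⟨one_dvd _, fun _ => le_sup_right, fun n => pw_dvd3.trans (dvd_pow_self _ n.succ_ne_zero),
    fun _ => by simp [star_pw], fun n ε => pw_LO Z ε n,
    fun n l hl => ⟨(ok' n l hl).1, ?_, (ok' n l hl).1.not_dvd_one, (ok' n l hl).2.2⟩,
    fun n S hS => ?_, fun l S => flip_LO _, fun n ε g _ => ?_, fun n ε => ?_⟩,
    fun n => ⟨(q_LO h.ok n).1, (q_LO h.ok n).2.1,
      Ideal.pow_le_pow_right n.le_succ (T_LO Z.E n)⟩, fun l hl e => ?_, fun b => ⟨?_, ?_⟩⟩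
  · rw [map_pow, map_ofNat]
    exact Ideal.pow_mem_pow Z.E.three_mem n
  · refine (mul_dvd_mul_right pw_dvd3 _).trans ?_
    rw [← pow_succ']
    exact_mod_cast Nat.cast_dvd_cast (α := Zw) (ok n l hl).2.2.1
  · rw [sd, prod_insert, prod_union, neg_LO fun l hl => (ok n l (hS l hl)).2.1, ← Nat.cast_prod,
      Nat.prod_primeFactors_of_squarefree (h.ok.tw true).sf, q1, sg, Dt.sd]
    · rcases Nat.even_or_odd S.card with e | e
      · simp [e.neg_one_pow, Nat.not_odd_iff_even.2 e]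
      · simp [e.neg_one_pow, e]
    · exact disjoint_right.2 fun l hl e =>
        (ok n l (hS l hl)).2.2.2.1 (Nat.dvd_of_mem_primeFactors e)
    · exact fun e => (mem_union.1 e).elim
        (fun k => (q_LO h.ok n).2.1 (Nat.dvd_of_mem_primeFactors k)) fun k => (hS _ k).2.2 rfl
  · rcases sg_LO Z ε with ⟨rfl, e⟩ | ⟨rfl, e⟩
    · rw [e, h.cB g hg, ph_LO, ← map_mul, (by decide : ∀ x y : ZMod 3,
        (ω : Zw) ^ x.val * star (ω ^ y.val) = ω ^ (x - y).val), sub_self]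
      exact zero_mem _
    · rw [e, h.cA g hg, ← map_mul, (by decide : ∀ x y : ZMod 3,
        (ω : Zw) ^ x.val * ω ^ y.val = ω ^ (x + y).val), sub_self]
      exact zero_mem _
  · rw [eq_neg_of_add_eq_zero_left h.ori]
    rcases sg_LO Z ε with ⟨rfl, e⟩ | ⟨rfl, e⟩
    · rw [e, j_LO h, ph_LO, ← map_mul, (by decide : ∀ x : ZMod 3,
        star ((ω : Zw) ^ x.val) * ω ^ x.val = 1), map_one, sub_self]
      exact zero_mem _
    · rw [e, ← map_mul, (by decide : ∀ x : ZMod 3,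
        (ω : Zw) ^ (-x).val * ω ^ x.val = 1), map_one, sub_self]
      exact zero_mem _
  · have : 3 ∣ l + 1 := by have := (ok' n l hl).2.1; omega
    rw [← pow_two, pw_sq, neg_dvd]
    exact_mod_cast Nat.cast_dvd_cast (α := Zw) this
  · rw [Nat.primeFactors_one, empty_union, sd, prod_insert fun e => (ok' n _ (hS _ e)).2.2 rfl,
      neg_LO fun l hl => (ok' n l (hS l hl)).2.1, q1, sg, Dt.sr, Dt.sd, r_LO h.ok]
    rcases Nat.even_or_odd S.card with e | e <;>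
      rcases Nat.even_or_odd (Bn Z.r).card with e' | e'
    · simp [e.neg_one_pow, e'.neg_one_pow, Nat.not_odd_iff_even.2 e, Nat.not_odd_iff_even.2 e']
    · simp [e.neg_one_pow, e'.neg_one_pow, Nat.not_odd_iff_even.2 e, e']
    · simp [e.neg_one_pow, e'.neg_one_pow, e, Nat.not_odd_iff_even.2 e']
    · simp [e.neg_one_pow, e'.neg_one_pow, e, e']
  · rw [← Ideal.Quotient.eq, map_mul, w_LO, w_LO, w_LO, mul_one]
  · rw [← Ideal.Quotient.eq, map_mul, w_LO, w_LO, map_one, mul_one]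
  · obtain ⟨l1, l3⟩ := p_LO h.ok hl
    have := Fact.mk l1
    obtain ⟨τ, t1, t2⟩ := (h.ok.tw (!Z.s₀)).ram ⟨l, 1⟩
      ((Ov_l ⟨l, 1⟩).dvd (Nat.cast_dvd_cast (Nat.dvd_of_mem_primeFactors hl)))
    have o3 : ¬ Ov ⟨l, 1⟩ 3 := fun k => l3 ((Nat.prime_dvd_prime_iff_eq l1 Nat.prime_three).1
      ((PLK_ok.2.2.2.1 ⟨l, 1⟩ 3).1 (by exact_mod_cast k)))
    refine t2 ?_
    rw [h.cA τ t1.2, H.fac _ τ ((INE_ok _ o3 τ t1).2.2 9 fun k => o3 (Ov_pow (n := 2)
      (by rwa [show (3 : Zw) ^ 2 = 9 by norm_num]))), zero_add]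
    refine sum_eq_zero fun l' hl' => ?_
    by_cases k : l = l'
    · subst k
      rw [← ZMod.natCast_zmod_val (Av τ l), ← nsmul_one, map_nsmul, e, smul_zero]
    · rw [Av, ((hAL l' (p_LO h.ok hl').1 (p_LO h.ok hl').2).2.2.2.2.2.1 ⟨l, 1⟩ k l3).1 τ t1,
        map_zero]
  · simpa [map_ofNat] using (Z.E.unit 2 fun e => Z.E.ne (by
      simpa [show (3 : Λ) - 2 = 1 by norm_num] using sub_mem Z.E.three_mem e)).map
      (Ideal.Quotient.mk b)
  · intro v hv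
    obtain ⟨y, hy⟩ := hv.exists_right_inv
    obtain ⟨v, rfl⟩ := Ideal.Quotient.mk_surjective v
    obtain ⟨y, rfl⟩ := Ideal.Quotient.mk_surjective y
    by_cases e : v ∈ Z.E.m
    · have u := (Z.E.unit (1 - v * y) fun k => Z.E.ne (by
        simpa using add_mem k (Z.E.m.mul_mem_right y e))).map (Ideal.Quotient.mk b)
      rw [map_sub, map_mul, hy, map_one, sub_self, isUnit_zero_iff] at u
      exact ⟨1, Z.E.ne, eq_of_zero_eq_one u _ _⟩
    · exact ⟨v, e, rfl⟩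

end Pool.Agent.MP_e23604_nt.N
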