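import Pool.Agent.Mg.Fe23604m.Gaef5a0
import Pool.Agent.Mg.Fe23604m.G594987

set_option linter.all false

/-!
The classes of arbitrary relaxed systems.
-/

set_option autoImplicit false

open Finset QuadraticAlgebra
open scoped Classical

namespace Pool.Agent.MP_e23604_nt.N.G

open B R S W V X

theorem WT_pf (hW : N.WT_st) (hC : SHC_st) : WT_st := by
  intro R _ φ₀ f ρ n q e γ hn hq hρ hd hγ ho H φ M hM h0 h1
  obtain ⟨mt, af, wq, pw', lw, -⟩ := hW R φ₀ f ρ n q e γ hn hq hρ hd hγ ho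
  refine (((hC H R φ M _ n hM h0 hn) _).2 q hq af mt ?_).1 wq
  rw [pw', show Lu ω q = lu q ω from rfl, lw, pow_zero, mul_one, h1]

section

variable {R : Type} [CommRing R]

theorem lam_KS (H : HS) (ε : ZMod 3) (φ : Zw →+* R) {M : Zw} (hM : M ≠ 0) (h : φ M = 0) {τ : GQ}
    (hτ : τ ∈ UM (9 * M)) : lamZ φ (H.χ ε) M τ = 1 := by
  have h1 : τ ∈ UM 9 := ⟨hτ.1, fun P e => hτ.2 P (by rw [mul_comm, mul_smul, e, smul_zero])⟩
  have h2 : τ ∈ UM M := ⟨hτ.1, fun P e => hτ.2 P (by rw [mul_smul, e, smul_zero])⟩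
  rw [lamZ, H.fac ε τ h1, ZMod.val_zero, pow_zero, one_mul,
    dvd_KS φ h (((PS_ok M hM).1 τ hτ.1).2.2.2.1.1 h2), map_one]

end

section

variable {Λ : Type} [CommRing Λ] (Z : Dt Λ)

theorem kt_KS (H : HS) (f : Fn) (r : ℕ) (M : ℕ → Zw) (s : Finset ℕ → Bool) (n : ℕ) (S : Finset ℕ)
    (b : Ideal Λ) (g : GQ) : Ideal.Quotient.mk b (kt0 Z H f r.primeFactors M s n S g) =
      H.kt (pq_KS Z b (s S)) (M n) (wq_KS Z f r n b) (cd_KS Z r n S) g := by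
  rw [kt0, kt_map, wv_map]
  rfl

theorem kk_KS (H : HS) (f : Fn) (r : ℕ) (M : ℕ → Zw) (s : Finset ℕ → Bool) (n : ℕ) (S : Finset ℕ)
    (b : Ideal Λ) (g : GQ) : Ideal.Quotient.mk b (kk Z H f r.primeFactors M s n S g) =
      H.kc (pq_KS Z b (s S)) (M n) (wq_KS Z f r n b) (cd_KS Z r n S) (Z.K.τ (-Z.q n)) g :=
  kt_KS Z H f r M s n S b _

/-- the facts at a fixed level -/
structure Lv_KS (H : HS) (f : Fn) (b : Ideal Λ) (ε : Bool) (r : ℕ) (M : Zw) (n : ℕ)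
    (S : Finset ℕ) : Prop where
  m0 : M ≠ 0
  z : ∀ ε, pq_KS Z b ε M = 0
  pn : Pn (cd_KS Z r n S)
  sh : H.Sh (pq_KS Z b ε) M (wq_KS Z f r n b) (uq_KS Z f r n b) (cd_KS Z r n S)
  lam : ∀ g ∈ GK, Ideal.Quotient.mk b (Z.th ε n g) =
    lamZ (pq_KS Z b ε) (Z.χ ε) M g * Ideal.Quotient.mk b (Z.ga n g)
  rho : ∀ g ∈ GK, H.rho (pq_KS Z b ε) M (uq_KS Z f r n b) (cd_KS Z r n S) g =
    Ideal.Quotient.mk b (Z.th ε n g)
  um : Z.K.τ (-Z.q n) ∈ UM (9 * M)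
  al : ∀ l : ℕ, l.Prime → l ≠ 3 → l ≠ Z.q n → Al l (Z.K.τ (-Z.q n)) = 0
  wt : wp (uq_KS Z f r n b) (cd_KS Z r n S) (Av (Z.K.τ (-Z.q n))) =
    Ideal.Quotient.mk b (1 + Z.E.T)

variable {Z}

theorem lv_KS2 (hAL : AL_st) (hF : FRI_st) (hW : N.WT_st) (hW' : WT_st) (hFA : FAM_st)
    {H₀ H' : N.HS} {H : HS} {f₀ f : Fn} (hs : Sm H H')
    (hL : Lk Z H₀ f₀) {b : ℕ → Ideal Λ} {p : ℕ → ℕ → Prop} {s : Finset ℕ → Bool} {r : ℕ}
    {M : ℕ → Zw} (F : Fam Z H' f b p s r M) (n : ℕ) {S : Finset ℕ} (hS : ∀ l ∈ S, p n l) :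
    Lv_KS Z H f (b n) (s S) r (M n) n S := by
  obtain ⟨q3, qr, qT⟩ := (hFA Λ Z H₀ f₀ hL).2.2.1 n
  have qp := hL.ok.qp n
  have m0 : M n ≠ 0 := fun e => pow_ne_zero (n + 1) (by decide : (3 : Zw) ≠ 0)
    (zero_dvd_iff.1 (e ▸ F.md n))
  have z : ∀ ε, pq_KS Z (b n) ε (M n) = 0 := fun ε => Ideal.Quotient.eq_zero_iff_mem.2 (F.mb n ε)
  have pn : Pn (cd_KS Z r n S) := fun l hl => by
    rcases mem_insert.1 hl with rfl | hl
    · exact ⟨qp, by omega⟩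
    rcases mem_union.1 hl with hl | hl
    · exact ⟨Nat.prime_of_mem_primeFactors hl, fun e => (hL.ok.tw true).n3
        (e ▸ (Nat.dvd_of_mem_primeFactors hl).trans F.dvd)⟩
    · have := mod_KS (F.pr n l (hS l hl)).2.1
      exact ⟨(F.pr n l (hS l hl)).1, by omega⟩
  have g1 : Ideal.Quotient.mk (b n) (1 + Z.E.T) ^ 3 ^ n = 1 := by
    rw [← map_pow, ← map_one (Ideal.Quotient.mk (b n))]
    exact Ideal.Quotient.eq.2 (F.le n qT)
  obtain ⟨⟨-, -, -, w4, -, -⟩, w6⟩ := (fun b c d e f g h i j k l m n => And.intro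
    (hW (Λ ⧸ _) b c d e f g h i j k l m n) (hW' (Λ ⧸ _) b c d e f g h i j k l m n))
    (pq_KS Z (b n) (!Z.s₀)) f r.primeFactors
    (cd_KS Z r n S) (Z.q n) n _ pn (mem_insert_self _ _)
    (fun e => qr ((Nat.dvd_of_mem_primeFactors e).trans F.dvd))
    (((pow_dvd_pow 3 (by omega)).trans (dvd_mul_right _ _)).trans (hL.ok.qd n)) g1
    fun l hl h1 h2 => by
      have h3 := (F.pr n l (hS l
        ((mem_union.1 ((mem_insert.1 hl).resolve_left h2)).resolve_left h1))).2.1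
      have h4 := ml_KS (z true) h3
      rw [ml, if_pos (mod_KS h3), Nat.cast_succ] at h4
      exact ⟨mod_KS h3, h4⟩
  have e1 : cd_KS Z r n S ∩ r.primeFactors = r.primeFactors :=
    inter_eq_right.2 (subset_union_left.trans (subset_insert _ _))
  rw [e1] at w4 w6
  have lam : ∀ g ∈ GK, Ideal.Quotient.mk (b n) (Z.th (s S) n g) =
      lamZ (pq_KS Z (b n) (s S)) (Z.χ (s S)) (M n) g * Ideal.Quotient.mk (b n) (Z.ga n g) :=
    fun g hg => by
      rw [Dt.th, map_mul]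
      congr 1
      refine dvd_KS (pq_KS Z (b n) (s S)) (z _) ?_
      rw [← mul_sub]
      refine Dvd.dvd.mul_left (((PS_ok _ m0).1 g hg).2.2.2.2.2.2.2.2 _ ?_
        ((F.md n).mul_right _)) _
      exact mul_ne_zero (pow_ne_zero _ (by decide)) (mul_ne_zero (by decide)
        (Nat.cast_ne_zero.2 (hL.ok.tw true).sf.ne_zero))
  obtain ⟨V, -, v1, -, -, v2⟩ := pl_KS hF hL.ok.pk qp q3
  have v3 : ¬ Ov V 3 := fun e => by
    have := (PLK_ok.2.2.2.1 V 3).1 (by simpa using e)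
    rw [v1, Nat.prime_dvd_prime_iff_eq qp Nat.prime_three] at this
    omega
  have al : ∀ l : ℕ, l.Prime → l ≠ 3 → l ≠ Z.q n → Al l (Z.K.τ (-Z.q n)) = 0 := fun l a c d =>
    ((hAL l a c).2.2.2.2.2.1 V (v1 ▸ d.symm) (by omega)).1 _ v2
  refine ⟨m0, z, pn, w6 H _ _ m0 (z _) ?_, lam, fun g hg => ?_,
    (INE_ok V v3 _ v2).2.2 _ (by have := ov_KS v3 (F.md n) 2; norm_num at this; exact this), al, ?_⟩
  · rw [F.sd n S hS, ← map_one (Ideal.Quotient.mk (b n)), hs.2]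
    exact (map_mul _ _ _).symm.trans (Ideal.Quotient.eq.2 (F.ori n _))
  · have h1 := Ideal.Quotient.eq.2 (F.chi n (s S) g hg)
    rw [map_mul] at h1
    rw [lam g hg, HS.rho, hs.1, uq_KS, w4, F.sd n S hS, Dt.ga, hL.att, ZMod.val_natCast,
      map_pow (Ideal.Quotient.mk (b n)), lamZ, lamZ, map_mul, map_mul]
    simp only [pq_KS, RingHom.comp_apply, Av] at h1 ⊢
    rw [← h1]
    ring
  · have h1 : fs f r.primeFactors (Av (Z.K.τ (-Z.q n))) = 0 := sum_eq_zero fun l hl => by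
      have := pn l (mem_insert_of_mem (mem_union_left _ hl))
      rw [Av, al l this.1 this.2 fun e => qr (e ▸ (Nat.dvd_of_mem_primeFactors hl).trans F.dvd),
        map_zero]
    have : Fact (1 < ml (Z.q n)) := ⟨by rw [ml, if_pos q3]; omega⟩
    rw [uq_KS, w4, h1, ZMod.val_zero, pow_zero, map_one, one_mul, Av, hL.tau _ qp q3,
      ← pow_eq_pow_mod _ g1, ZMod.val_one, pow_one]

end

theorem KS2_pf (hAL : AL_st) (hF : FRI_st) (hKT : KT_st) (hKC : KC_st) (hU : UNR_st)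
    (hT : TRS_st) (hFS : FS2_st) (hL : LOC_st) (hTF : TRF_st) (hW : N.WT_st) (hW' : WT_st)
    (hLO : LO_st) (hFA : FAM_st) : KS2_st := by
  intro Λ _ Z H₀ f₀ hk b p s r M
  have lv := fun H f (F : ∃ H', Sm H H' ∧ Fam Z H' f b p s r M) n S hS =>
    F.elim fun _ F => lv_KS2 hAL hF hW hW' hFA F.1 hk F.2 n (S := S) hS
  have un := (hFA Λ Z H₀ f₀ hk).2.2.2.2
  have kc := fun H f F n S hS => (hKC H _ _ _ _ _ (lv H f F n S hS).m0 ((lv H f F n S hS).z _)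
    (lv H f F n S hS).pn _ (lv H f F n S hS).sh).2 _ (lv H f F n S hS).um.1
  have ls : ∀ H f (_ : ∃ H', Sm H H' ∧ Fam Z H' f b p s r M) n S (_ : ∀ l ∈ S, p n l) h,
      H.H0 (pw * M n) (cd_KS Z r n S) h →
      Ideal.Quotient.mk (b n) (kk Z H f r.primeFactors M s n S h) = Ideal.Quotient.mk (b n) Z.E.T *
        H.kt (pq_KS Z (b n) (s S)) (M n) (wq_KS Z f r n (b n)) (cd_KS Z r n S) h :=
    fun H f F n S hS h hh => by
      have lv := lv H f F n S hS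
      rw [kk_KS, (kc H f F n S hS).2.2.2 h hh, HS.rho, lv.wt, lam_KS H _ _ lv.m0 (lv.z _) lv.um,
        map_add, map_one]
      ring
  refine ⟨fun H H' f hs F => ?_, fun n l ε hl => ?_⟩
  · replace lv := lv H f ⟨H', hs, F⟩
    replace kc := kc H f ⟨H', hs, F⟩
    replace ls := ls H f ⟨H', hs, F⟩
    refine fun n S hS => ⟨⟨?_, ?_⟩, ?_, fun l hl => ?_, fun hx => ?_, fun h hh => ?_⟩
    · simp only [kk_KS]
      exact ⟨(kc n S hS).1.1, fun g hg h hh => by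
        beta_reduce
        rw [← (lv n S hS).rho g hg]
        exact (kc n S hS).1.2 g hg h hh⟩
    · rintro g ⟨V, hV, hg⟩
      rw [Ov_mul, not_or, PLK_ok.2.2.2.1] at hV
      obtain ⟨a1, a2⟩ := hU H _ (pq_KS Z (b n) (s S)) (M n) (wq_KS Z f r n (b n)) _ (lv n S hS).m0
        ((lv n S hS).z _) (lv n S hS).pn V (by simpa using ov_KS hV.1 (F.md n) 1) (fun e => hV.2 (by
          rcases mem_insert.1 e with e | e
          · exact e ▸ (dvd_mul_left _ _).mul_right _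
          rcases mem_union.1 e with e | e
          · exact ((Nat.dvd_of_mem_primeFactors e).mul_right _).mul_right _
          · exact (dvd_prod_of_mem (fun l => l) e).mul_left _)) g hg
      rw [← Ideal.Quotient.eq_zero_iff_mem, ls n S hS g ((hKT H _ (pq_KS Z (b n) (s S)) (M n)
        (wq_KS Z f r n (b n)) _ (lv n S hS).m0 ((lv n S hS).z _) (lv n S hS).pn).2.2.2.2.1 g a1).1,
        a2, mul_zero]
    · rw [← Ideal.Quotient.eq_zero_iff_mem, kk_KS, (kc n S hS).2.1]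
    · obtain ⟨a1, a2, a3, a4⟩ := F.pr n l (hS l hl)
      obtain ⟨V, φ, rfl, v1, v2, -⟩ := pl_KS hF hk.ok.pk a1 (mod_KS a2)
      obtain ⟨t1, t2⟩ := hT H _ (pq_KS Z (b n) (s S)) (M n) (wq_KS Z f r n (b n)) _ (lv n S hS).m0
        ((lv n S hS).z _) (lv n S hS).pn V φ (mod_KS a2) v1
      rw [← Ideal.Quotient.eq_zero_iff_mem, v2, ls n S hS _ (t1 _ a2),
        t2 ((dvd_mul_left _ _).trans a2) (mem_insert_of_mem (mem_union_right _ hl)) (by
          simp only [wq_eq_KS _ a3 a4]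
          exact sum_KS (ml_KS ((lv n S hS).z _) a2) (un _).1), mul_zero]
    · obtain ⟨D, d1, d2, d3, d4, d5⟩ := hLO Λ Z H₀ f₀ hk
      simp only [kk_KS]
      refine hTF _ (pq_KS Z (b n) (s S)) _ _ _ D _ (lv n S hS).m0 ((lv n S hS).z _) (un _).1
        (fun g hg h hh => ?_) V3.D_le d1 d2 (fun g hg h hh => ?_) (F.sd n S hS ▸
          (hL H _ _ _ _ _ (lv n S hS).m0 ((lv n S hS).z _) (lv n S hS).pn D (kum 2)
            (d1.trans V3.D_le) (fun g hg l hl => d3 g hg l ((lv n S hS).pn l hl).1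
              ((lv n S hS).pn l hl).2) _ (lv n S hS).um))
      · rw [H.add _ g hg h hh, d4 g hg h hh]
        ring
      · rw [(kc n S hS).1.2 g (V3.D_le hg) h (V3.D_le hh), (lv n S hS).rho g (V3.D_le hg),
          (lv n S hS).lam g (V3.D_le hg), Dt.ga, (d5 g hg).1, ZMod.val_zero, pow_zero, map_one,
          mul_one, lamZ, lamZ, map_mul, map_mul]
        exact congrArg (fun x => _ + x * _ * _) (Ideal.Quotient.eq.2 (hx g hg))
    · rw [← Ideal.Quotient.eq, ls n S hS h hh, map_mul, kt_KS]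
  by_cases h0 : ∃ H H' f, Sm H H' ∧ Fam Z H' f b p s r M
  swap
  · exact ⟨1, Z.E.ne, fun H H' f S e F => absurd ⟨H, H', f, e, F⟩ h0⟩
  obtain ⟨H₁, H₂, f₁, e₁, F₁⟩ := h0
  obtain ⟨a1, a2, a3, a4⟩ := F₁.pr n l hl
  have a5 := hk.tau l a1 (mod_KS a2)
  obtain ⟨v0, vi, v2⟩ := hk.ok.pk.ine l a1 (mod_KS a2)
  have v3 := (hk.ok.pk.tm (-l) (v0 ▸ (hF _ vi.l3).1 :)).2.2.1
  have l0 := lv H₁ f₁ ⟨H₂, e₁, F₁⟩ n ∅ (by simp)
  generalize Z.K.V (-l) = V at *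
  generalize Z.K.φ (-l) = φ at *
  subst v0
  rw [pow_two] at v2
  obtain ⟨v, hv, e⟩ := hFS _ (pq_KS Z (b n) (!ε)) (M n) V φ l0.m0 (l0.z _) (F₁.st n) (mod_KS a2)
    vi.fr ((dvd_mul_left _ _).trans a2)
  obtain ⟨v', h1, rfl⟩ := (un _).2 v hv
  refine ⟨v', h1, fun H H' f S hm F hS hn hs => Ideal.Quotient.eq.1 ?_⟩
  subst hs
  replace lv := lv H f ⟨H', hm, F⟩ n S hS
  have t1 := (hT H _ (pq_KS Z (b n) (s S)) (M n) (wq_KS Z f r n (b n)) _ lv.m0
    (lv.z _) lv.pn V φ (mod_KS a2) vi.fr).1 _ a2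
  have e1 : cd_KS Z r n (insert V.l S) = insert V.l (cd_KS Z r n S) := by
    rw [cd_KS, union_insert, insert_comm]
  have := mod_KS a2
  have l1 := fun ε' => lam_KS H ε' _ lv.m0 (lv.z (!s S)) lv.um
  rw [kk_KS, e1, F.flip _ _ hn, e H (wq_KS Z f r n (b n)) _ _ 1 lv.pn (fun e => by
      rcases mem_insert.1 e with e | e
      · exact a4 e
      rcases mem_union.1 e with e | e
      exacts [a3 (Nat.dvd_of_mem_primeFactors e), hn e]) v3 a5 (fun i => by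
      rw [wq_eq_KS _ a3 a4, wq_eq_KS _ a3 a4, ← Nat.cast_succ]
      exact cast_KS (ml_KS (lv.z _) a2) (by simp)) _ lv.um.1
    (lv.al _ a1 (by omega) a4) (.inl (l1 _)), l1, cf_KS, Bool.not_not, lv.sh.shf _ t1, lv.wt,
    map_mul, v2, ls H f ⟨H', hm, F⟩ n S hS _ t1, map_add, map_one]
  ring

theorem CM_pf (hAL : AL_st) (hF : FRI_st) (hKT : N.KT_st) (hW : N.WT_st) (hFA : FAM_st) :
    CM_st := by
  intro Λ _ Z H₀ f₀ hk H f b p s r M F n S hS
  have lv := N.lv_KS2 hAL hF hW hFA hk F n hS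
  exact ⟨lv.m0, lv.pn, fun g hg => (hKT H _ _ _ (fun _ _ => 0) _ lv.m0 (lv.z true)
    lv.pn).2.2.2.2.2.2.1 _ lv.um.1 g hg⟩

end Pool.Agent.MP_e23604_nt.N.G
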