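import Pool.Agent.Mg.Fe23604m.G1bd87d
import Pool.Agent.Mg.Fe23604m.G5a860c
import Pool.Agent.Mg.Fe23604m.Gad4bd4
import Pool.Agent.Mg.Fe23604m.G81b338
import Pool.Agent.Mg.Fe23604m.G26a658
import Pool.Agent.Mg.Fe23604m.G91bd51

set_option linter.all false

section

/-!
The Hecke relation, and the formal properties of the cochains.
-/

set_option autoImplicit false

open Finset QuadraticAlgebra
open scoped Classical

namespace Pool.Agent.MP_e23604_nt.N.G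

open B R S W

theorem TL0_pf (hF : FRI_st) : TL0_st := by
  intro H ε C l hC hl l3 hd
  obtain ⟨V, rfl⟩ : ∃ V : Plc, V.l = l := ⟨@Plc.mk l ⟨hl⟩ 1, rfl⟩
  obtain ⟨hp, hV, -, ⟨f, hf⟩, h⟩ := hF V l3
  obtain ⟨a1, a2, a3, a4, -⟩ := h f hf
  obtain ⟨t, ht, hu⟩ := H.cong ε V f l3 hf
  have hσ : f * f ∈ GK := a2.1.2
  have c0 : Nat.card C ≠ 0 := fun e => hC.1 (by rw [← hC.2, e, Nat.cast_zero])
  have : Finite C := Nat.finite_of_card_ne_zero c0
  have b1 : H.χ ε (f * f) = 0 := by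
    have e := H.anti ε f a1 _ hσ
    rw [show f * (f * f) * f⁻¹ = f * f by group] at e
    generalize H.χ ε (f * f) = x at e
    revert x
    decide
  have b2 : ga (f * f) C = C := by
    refine AddSubgroup.eq_of_le_of_card_ge ?_ (card_KT _ C).ge
    rintro _ ⟨P, hP, rfl⟩
    have e : ((Nat.card C : ℕ) : Zw) • P = 0 := by
      rw [Nat.cast_smul_eq_nsmul]
      exact congrArg Subtype.val (card_nsmul_eq_zero' (x := (⟨P, hP⟩ : C)))
    rw [((FRB_ok V _ hp hV).2 _ a2).2 _ P (fun e => hd ((PLK_ok.2.2.2.1 V _).1 e)) e, neg_smul,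
      Nat.cast_smul_eq_nsmul]
    exact C.neg_mem (C.nsmul_mem hP _)
  have b3 : gal (f * f) (H.y C) = H.y C := by
    have e := H.act ε C hC _ hσ
    rwa [b2, eta_apply, b1, ZMod.val_zero, pow_zero, one_smul] at e
  have b4 := a3 _ (a4 (H.y C))
  rw [b3, Nat.cast_smul_eq_nsmul, ← succ_nsmul', map_nsmul] at b4
  have b5 := sum_KT univ fun i _ => hu C hC hd i
  have b7 : ml V.l • t = 0 := by
    rw [← Nat.cast_smul_eq_nsmul Zw]
    exact dvd_smul ht (by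
      exact_mod_cast Nat.cast_dvd_cast (α := Zw) (show 3 ∣ ml V.l by rw [ml, if_pos l3]; omega))
  rw [show V.l + 1 = ml V.l by rw [ml, if_pos l3]] at b4
  rw [sum_sub_distrib, sum_add_distrib, sum_const, sum_const, card_univ, ZMod.card, b7,
    sub_zero] at b5
  have b6 := E1s b5 b4
  rw [add_sub_cancel_right] at b6
  refine E1_tor b6 (fun e => ?_) (H.tl ε C V.l hC hl l3 hd)
  have := (PLK_ok.2.2.2.1 V 3).1 (by
    rw [Nat.cast_ofNat]
    exact Ov_pow (n := 2) (by rwa [show (3 : Zw) ^ 2 = 9 by norm_num]))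
  have := (Nat.prime_dvd_prime_iff_eq hl Nat.prime_three).1 this
  omega

theorem KT_pf (hDL : DL_st) (hAL : AL_st) (hCN : CN_st) (hS : SUM_st) : KT_st := by
  intro H R _ φ M w n hM hφ hn
  have hA := H.add (sd n)
  obtain ⟨d1, d2, d3, -, -, -, -, -, d9⟩ := hDL R φ M hM hφ
  have aA : ∀ l ∈ n, Adt GK (Al l) := fun l hl => (hAL l (hn l hl).1 (hn l hl).2).1
  have hG : ∀ g ∈ GK, ∀ i, ga g (Cn n i) = Cn n (i + Av g) := fun g hg i =>
    (hCN n i hn).2.2.2.1 g hg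
  have hO : ∀ i, Fo (sd n) (Cn n i) := fun i => (hCN n i hn).2.1
  have lχ : Lc GK (H.χ (sd n)) := lc_of_open (UM_open (M := 9) (by norm_num)) fun g hg u hu _ => by
    rw [hA g hg u hu.1, H.fac _ u hu, add_zero]
  have lη : ∀ P : Pt, Lc GK fun g => eta (H.χ (sd n)) g P := fun P =>
    lχ.map₂ ((gal_lc P).mono le_top) fun a Q => (ω : Zw) ^ a.val • Q
  obtain ⟨N₁, n1, n2⟩ := pi_KT n (f := Al) fun l hl => (hAL l (hn l hl).1 (hn l hl).2).2.1
  have k1 : ∀ C, Fo (sd n) C → ∀ g ∈ GK,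
      M • (eta (H.χ (sd n)) g (dv M (H.y C)) - dv M (H.y (ga g C))) = 0 := fun C hC g hg => by
    rw [smul_sub, ← eta_smul _ hg, d2, d2, H.act _ C hC g hg, sub_self]
  have k2 : ∀ C, Fo (sd n) C → ∀ g, Fo (sd n) (ga g C) := fun C hC g =>
    ⟨hC.1, by rw [card_KT, hC.2]⟩
  have tη : ∀ g ∈ GK, ∀ P : Pt, M • P = 0 → M • eta (H.χ (sd n)) g P = 0 := fun g hg P e => by
    rw [← eta_smul _ hg, e, map_zero]
  have k3 : ∀ C, Fo (sd n) C → ∀ g ∈ GK, ∀ h ∈ GK, H.F φ M (sd n) (g * h) C =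
      H.F φ M (sd n) g (ga h C) + lamZ φ (H.χ (sd n)) M g * H.F φ M (sd n) h C := by
    intro C hC g hg h hh
    rw [HS.F, HS.F, HS.F, ← (d9 _ g hg).1 _ (k1 C hC h hh),
      ← (d3 _ _ (k1 _ (k2 C hC h) g hg) (tη g hg _ (k1 C hC h hh))).1, eta_mul hA hg hh, map_sub,
      ga_KT]
    congr 2
    abel
  have k4 : ∀ w : Wt R, ∀ g ∈ GK, ∀ h ∈ GK, H.kt φ M w n (g * h) = H.kt φ M w n g +
      lamZ φ (H.χ (sd n)) M g * H.kt φ M (sh w (Av g)) n h := by
    intro w g hg h hh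
    rw [HS.kt, HS.kt, HS.kt, mul_sum, ← (hS R n fun i => wp w n (i + Av g) *
      H.F φ M (sd n) g (Cn n i)).2.1 (fun i i' e => by
        rw [Cn_KT e, wp_KT (w' := w) (i' := i' + Av g) fun l hl => by
          rw [Pi.add_apply, Pi.add_apply, e l hl]]) (Av h), ← sum_add_distrib]
    refine sum_congr rfl fun i _ => ?_
    have e : ∀ l ∈ n, (i.1 + Av (g * h)) l = (i.1 + Av h + Av g) l := fun l hl => by
      change i.1 l + Al l (g * h) = i.1 l + Al l h + Al l g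
      rw [aA l hl g hg h hh]
      ring
    rw [k3 _ (hO _) g hg h hh, hG h hh, mul_add,
      wp_KT (w' := w) (i' := i.1 + Av h + Av g) fun l hl => by rw [e l hl], mul_left_comm]
    rfl
  have g0 := d1.zero
  have c1 : φ (co (gq M) (gq M)) = 1 := by
    have e := co_spec (Q := gq M) (P := gq M) ⟨1, (one_smul _ _).symm⟩
    obtain ⟨c, hc⟩ := d1.congr.1 (e.symm.trans (one_smul _ _).symm)
    have := congrArg φ hc
    rwa [map_mul, hφ, zero_mul, map_sub, map_one, sub_eq_zero] at this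
  have c2 : ∀ g ∈ GK, lamZ φ (H.χ (sd n)) M g = φ (co (gq M) (eta (H.χ (sd n)) g (gq M))) :=
    fun g hg => by rw [(d9 _ g hg).1 _ g0, c1, mul_one]
  have k5 : ∀ h, H.H0 M n h → lamZ φ (H.χ (sd n)) M h = 1 := fun h hh =>
    ((d9 _ h hh.1).2.2 hh.2.1).1
  have k6 : ∀ h, H.H0 M n h → ∀ i, ga h (Cn n i) = Cn n i := fun h hh i =>
    (hG h hh.1 i).trans (Cn_KT fun l hl => by
      change i l + Al l h = i l
      rw [hh.2.2 l hl, add_zero])
  refine ⟨?_, fun C hC g hg => ⟨k1 C hC g hg, k2 C hC g, k3 C hC g hg⟩, k4 w,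
    fun u hu => ⟨⟨?_, ?_, fun g hg h hh => ?_⟩, fun h hh => ?_⟩, fun h hh => ?_,
    fun M' h hh => ⟨hh.1, fun P e => hh.2.1 P (by rw [mul_smul, e, smul_zero]), hh.2.2⟩,
    fun g hg h hh => ⟨?_, fun l hl => ?_⟩, fun g hg h hh => ⟨⟨?_, fun P e => ?_, fun l hl => ?_⟩,
      GK.inv_mem hh.1, fun P e => ?_, fun l hl => ?_⟩,
    fun h hh => ⟨fun i => ?_, ?_, fun h' hh' => ⟨⟨GK.mul_mem hh.1 hh'.1, fun P e => ?_,
      fun l hl => ?_⟩, ?_⟩⟩⟩
  · obtain ⟨N₂, n3, n4⟩ := pi_KT (univ : Finset (Jg n)) fun i _ => lη (dv M (H.y (Cn n i.1)))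
    refine ⟨N₁ ⊓ N₂, n1.inf n3, fun g hg h hh e => sum_congr rfl fun i _ => ?_⟩
    have e1 : ∀ l ∈ n, (i.1 + Av g) l = (i.1 + Av h) l := fun l hl =>
      congrArg (i.1 l + ·) (n2 l hl g hg h hh e.1)
    have e2 : eta (H.χ (sd n)) g (dv M (H.y (Cn n i.1))) = eta (H.χ (sd n)) h _ :=
      n4 i (mem_univ _) g hg h hh e.2
    rw [HS.F, HS.F, hG g hg, hG h hh, Cn_KT e1, e2,
      wp_KT (w' := w) (i' := i.1 + Av h) fun l hl => by rw [e1 l hl]]
  · obtain ⟨N₂, n3, n4⟩ := lη (gq M)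
    refine ⟨N₁ ⊓ N₂, n1.inf n3, fun g hg h hh e => ?_⟩
    have e2 : eta (H.χ (sd n)) g (gq M) = eta (H.χ (sd n)) h (gq M) := n4 g hg h hh e.2
    rw [HS.rho, HS.rho, c2 g hg, c2 h hh, e2,
      wp_KT (w' := u) (i := Av g) (i' := Av h) fun l hl => congrArg (u l) (n2 l hl g hg h hh e.1)]
  · rw [HS.rho, c2 1 GK.one_mem, eta_one hA, c1, one_mul]
    exact prod_eq_one fun l hl => (congrArg (u l) (one_KT (aA l hl))).trans (hu l hl).1
  · rw [HS.rho, HS.rho, HS.rho, c2 _ (GK.mul_mem hg hh), eta_mul hA hg hh,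
      (d9 _ g hg).1 _ (tη h hh _ g0), ← c2 h hh, mul_mul_mul_comm, wp, wp, wp, ← prod_mul_distrib]
    exact congrArg _ (prod_congr rfl fun l hl =>
      (congrArg (u l) (aA l hl g hg h hh)).trans ((hu l hl).2 _ _))
  · rw [HS.rho, k5 h hh, one_mul]
    exact prod_eq_one fun l hl => (congrArg (u l) (hh.2.2 l hl)).trans (hu l hl).1
  · have e := H.fac (sd n) h (UM_mono (dvd_mul_right 9 M) hh.1)
    refine ⟨⟨hh.1.1, fun P hP => ?_, hh.2⟩, e⟩
    rw [eta_apply, e, ZMod.val_zero, pow_zero, one_smul]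
    exact hh.1.2 P (dvd_smul hP (mul_dvd_mul_right (pw_dvd3.trans ⟨3, by norm_num⟩) M))
  · have := ((PS_ok (9 * M) (mul_ne_zero (by norm_num) hM)).1 _ (GK.inv_mem hh)).2.2.2.2.2.2.1 _
      (GK.inv_mem hg)
    rwa [mul_inv_rev, inv_inv, inv_inv, ← mul_assoc] at this
  · have a := aA l hl
    rw [a _ (GK.mul_mem (GK.mul_mem hg hh) (GK.inv_mem hg)) _ (GK.inv_mem hh),
      a _ (GK.mul_mem hg hh) _ (GK.inv_mem hg), a g hg h hh, inv_KT a hg, inv_KT a hh]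
    ring
  · exact (Plc.cj_GK g h).1 hh.1
  · rw [eta_mul hA (GK.mul_mem hg hh.1) (GK.inv_mem hg), eta_mul hA hg hh.1,
      hh.2.1 _ (tη _ (GK.inv_mem hg) P e), ← eta_mul hA hg (GK.inv_mem hg), mul_inv_cancel,
      eta_one hA]
  · have a := aA l hl
    rw [a _ (GK.mul_mem hg hh.1) _ (GK.inv_mem hg), a g hg h hh.1, inv_KT a hg, hh.2.2 l hl,
      add_zero, add_neg_cancel]
  · conv_lhs => rw [← hh.2.1 P e, ← eta_mul hA (GK.inv_mem hh.1) hh.1, inv_mul_cancel, eta_one hA]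
  · rw [inv_KT (aA l hl) hh.1, hh.2.2 l hl, neg_zero]
  · rw [H.act _ _ (hO i) h hh.1, k6 h hh]
  · refine sum_congr rfl fun i _ => ?_
    rw [HS.F, k6 h hh, wp_KT (w' := w) (i' := i.1) fun l hl => by
      change w l (i.1 l + Al l h) = _
      rw [hh.2.2 l hl, add_zero]]
    rfl
  · rw [eta_mul hA hh.1 hh'.1, hh'.2.1 P e, hh.2.1 P e]
  · rw [aA l hl h hh.1 h' hh'.1, hh.2.2 l hl, hh'.2.2 l hl, add_zero]
  · rw [k4 w h hh.1 h' hh'.1, k5 h hh, one_mul]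
    refine congrArg _ (sum_congr rfl fun i _ => ?_)
    rw [wp_KT (w' := w) (i' := i.1 + Av h') fun l hl => by
      change w l ((i.1 + Av h') l + Al l h) = _
      rw [hh.2.2 l hl, add_zero]]

theorem LEV_pf (hDL : DL_st) (hKT : KT_st) : LEV_st := by
  intro R _ φ M M' hM hM' h0
  have hN := mul_ne_zero hM' hM
  have h1 : φ (M' * M) = 0 := by rw [map_mul, h0, mul_zero]
  obtain ⟨-, -, -, -, -, -, -, d1, d2⟩ := hDL R φ M hM h0
  obtain ⟨-, d3, -, -, -, -, -, -, d4⟩ := hDL R φ _ hN h1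
  obtain ⟨v, hv, d1⟩ := d1 M' hM'
  refine ⟨v, hv, fun H w n hn h hh => ?_⟩
  obtain ⟨-, -, -, -, -, k1, -, -, k2⟩ := hKT H R φ M w n hM h0 hn
  have k3 := k1 M' h hh
  obtain ⟨k4, k5, -⟩ := k2 h k3
  rw [((hKT H R φ _ w n hN h1 hn).2.2.2.2.2.2.2.2 h hh).2.1, k5, mul_sum]
  refine sum_congr rfl fun i _ => ?_
  rw [mul_left_comm, ((d2 _ h hh.1).2.2 k3.2.1).2.1 _ (M' • dv (M' * M) (H.y (Cn n i.1))) (k4 _)
    (by rw [← mul_smul, mul_comm M, d3]), dl, d1 _ ((d4 _ h hh.1).2.1 _ (k4 _)), smul_sub,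
    eta_smul _ hh.1]

end Pool.Agent.MP_e23604_nt.N.G

end

section

/-! The three roots and the six subgroups. -/

set_option autoImplicit false

open Finset QuadraticAlgebra
open scoped Classical

namespace Pool.Agent.MP_e23604_nt.PH

open B R S W Un

theorem s1_RZ {z : Qb} (h : Rz z) : s1 z = -z ^ 2 + 2 * z + 2 := by
  unfold Rz at h
  have h1 : 1 - z ≠ 0 := fun e => by grind
  rw [s1, div_eq_iff h1]
  linear_combination -h

theorem r1_RZ {z : Qb} (h : Rz z) : Rz (s1 z) := by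
  rw [s1_RZ h]
  unfold Rz at *
  grind

theorem s2_RZ {z : Qb} (h : Rz z) : s2 z = z ^ 2 - 3 * z + 1 := by
  rw [s2, s1_RZ (r1_RZ h), s1_RZ h]
  unfold Rz at h
  grind

theorem s3_RZ {z : Qb} (h : Rz z) : s1 (s2 z) = z := by
  rw [s1_RZ (z := s2 z) (r1_RZ (r1_RZ h)), s2_RZ h]
  unfold Rz at h
  grind

theorem ne_RZ {P : Pt} (h : Rz (xc P)) : xc P ≠ 0 := fun e => by
  rw [Rz, e] at h
  norm_num at h

theorem dbl_RZ {P : Pt} (h : Rz (xc P)) : xc (2 • P) = s2 (xc P) := by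
  have h0 : P ≠ 0 := fun e => ne_RZ h (by rw [e, xc_zero])
  obtain ⟨h1, h2⟩ := on_xy h0
  have h3 := xy_eq P
  rw [s2_RZ h]
  unfold Rz at h
  generalize xc P = x at *
  generalize yc P = y at *
  have h4 : 2 * y + 1 ≠ 0 := fun e => by grind
  obtain ⟨l, hl⟩ : ∃ l, l * (2 * y + 1) = 3 * x ^ 2 := ⟨_, div_mul_cancel₀ _ h4⟩
  obtain ⟨h5, h6⟩ := pt_add_self G01 (l := l) h1 (by simpa using h4) (by simpa using hl) rfl rfl
  rw [two_nsmul, h2, h6, xc_pt h5]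
  refine mul_left_cancel₀ (pow_ne_zero 2 h4) ?_
  push_cast
  linear_combination (l * (2 * y + 1) + 3 * x ^ 2) * hl - 4 * (x ^ 2 - x + 1) * h3 -
    (4 * x ^ 2 - x + 1) * h

theorem pt_RZ {z : Qb} (h : Rz z) : ∃ P : Pt, xc P = z ∧ xc (4 • P) = s1 z ∧ xc (2 • P) = s2 z ∧
    9 • P = 0 ∧ xc (3 • P) = 0 ∧ 3 • P ≠ 0 ∧ xc (pw • P) = -1 := by
  obtain ⟨P, -, rfl⟩ := ex_pt z
  obtain ⟨-, p2, p3, p4, -⟩ := PI_ok
  have h0 := ne_RZ h
  have h2 := dbl_RZ h
  have h4 := dbl_RZ (P := 2 • P) (h2 ▸ r1_RZ (r1_RZ h))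
  have h5 : xc (pw • P) = -1 := by
    rw [(p3 P h0).1, div_eq_iff (by simpa using h0)]
    unfold Rz at h
    linear_combination h
  have c : ∀ Q : Pt, (3 : Zw) • Q = (3 : ℕ) • Q := fun Q => Nat.cast_smul_eq_nsmul Zw 3 Q
  have h6 : pw • (3 : ℕ) • P = 0 := by
    rw [smul_comm, ← c, p4, h5]
    norm_num
  refine ⟨P, rfl, ?_, h2, ?_, (p2 _).1 h6, fun e => ?_, h5⟩
  · rw [show 4 = 2 * 2 from rfl, mul_smul, h4, h2, s2, s3_RZ h]
  · rw [show 9 = 3 * 3 from rfl, mul_smul, ← neg_eq_zero, ← pw_pw_T, h6, smul_zero]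
  · rw [← c, p4] at e
    refine h0 (e.elim id fun e => ?_)
    unfold Rz at h
    refine pow_eq_zero_iff two_ne_zero |>.1 ?_
    linear_combination (e - h) / 3

theorem RZ_pf : RZ_st := by
  refine ⟨?_, fun z h => ?_⟩
  · obtain ⟨z, hz⟩ := IsAlgClosed.exists_root
      (Polynomial.X ^ 3 - 3 * Polynomial.X ^ 2 + 1 : Polynomial Qb) (by
        have : (Polynomial.X ^ 3 - 3 * Polynomial.X ^ 2 + 1 : Polynomial Qb).degree = 3 := by
          compute_degree!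
        rw [this]
        decide)
    exact ⟨z, by simpa [Rz] using hz⟩
  have k : ∀ x, (z - x) * (s1 z - x) * (s2 z - x) = -(x ^ 3 - 3 * x ^ 2 + 1) := fun x => by
    rw [s1_RZ h, s2_RZ h]
    unfold Rz at h
    grind
  have g1 : ∀ (g : GQ) (x : Qb), g (s1 x) = s1 (g x) := fun g x => by simp [s1]
  obtain ⟨P, h1, h2, h3, h4, h5⟩ := pt_RZ h
  refine ⟨r1_RZ h, r1_RZ (r1_RZ h), s3_RZ h, s3_RZ h, congrArg s1 (s3_RZ h), ?_, k,
    fun z' h' => ?_, fun g => ⟨?_, g1 g z, by rw [s2, s2, g1, g1]⟩, fun g hg => ?_,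
    P, h1, h2, h3, h4, h5⟩
  · rw [s1_RZ h, s2_RZ h]
    unfold Rz at h
    grind
  · have := k z'
    rw [show z' ^ 3 - 3 * z' ^ 2 + 1 = 0 from h', neg_zero, mul_eq_zero, mul_eq_zero, sub_eq_zero,
      sub_eq_zero, sub_eq_zero] at this
    rcases this with (e | e) | e
    exacts [Or.inl e.symm, Or.inr (Or.inl e.symm), Or.inr (Or.inr e.symm)]
  · have := congrArg g (show z ^ 3 - 3 * z ^ 2 + 1 = 0 from h)
    simpa [Rz, map_ofNat] using this
  · rw [← h1, ← (xc_gal g P).1, hg.2 P ((Nat.cast_smul_eq_nsmul Zw 9 P).trans h4)]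

theorem mC_RZ (a b : Zw) (C : AddSubgroup Pt) : mC a (mC b C) = mC (a * b) C := by
  rw [mC, mC, mC, AddSubgroup.map_map]
  congr 1
  ext1 T
  exact (mul_smul a b T).symm

theorem unit_RZ {u : Zw} (hu : IsUnit u) {C : AddSubgroup Pt} (h : ND C) :
    ND (mC u C) ∧ cd (mC u C) = cd C :=
  (map_nd (f := DistribSMul.toAddMonoidHom Pt u) h fun _ _ e => (unit_smul hu).1 e).imp_right
    And.left

theorem GR_pf : GR_st := by
  intro C h
  have e0 : ∀ i : ZMod 3, gr C (i, 0) = mC (ω ^ i.val) C := fun i => by simp [gr]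
  have e1 : ∀ i : ZMod 3, gr C (i, 1) = mC (ω ^ i.val) (mC pw C) := fun i => by
    rw [mC_RZ, gr]
    congr 2
  refine ⟨fun p => ?_, (unit_RZ w_unit h).1, (unit_RZ w_unit h).2, fun p => ?_,
    fun i => ⟨e0 i, e1 i⟩, fun g hg p => ?_, fun p T => ?_⟩
  · obtain ⟨i, j⟩ := p
    rcases (by decide : ∀ j : ZMod 2, j = 0 ∨ j = 1) j with rfl | rfl
    · rw [e0]
      exact unit_RZ (w_unit.pow _) h
    · rw [e1, ← (pw_nd_T h).2.1]
      exact unit_RZ (w_unit.pow _) (pw_nd_T h).1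
  · rw [gr, gr, mC_RZ]
    congr 1
    revert p
    decide
  · rw [gr, gr, mC, mC, AddSubgroup.map_map, AddSubgroup.map_map]
    congr 1
    ext1 T
    exact (gal_smul hg _ T).symm
  · rw [gr, gr, mC, mC, AddSubgroup.map_sup, AddMonoidHom.map_zmultiples]
    rfl

end Pool.Agent.MP_e23604_nt.PH

end

section

/-!
The comparison of the Kummer characters of two families of points.
-/

set_option autoImplicit false

open Finset QuadraticAlgebra
open scoped Classical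

namespace Pool.Agent.MP_e23604_nt.PH

open B R S W Un

/-- fixed elements with their Kummer exponents -/
structure Ku_RESD (h : GQ) (x : Qb) (a : ZMod 3) : Prop where
  ne : x ≠ 0
  fx : h x = x
  rt : ∃ s, s ^ 3 = x ∧ h s = w3 ^ a.val * s

section

variable {h : GQ} {x y : Qb} {a b : ZMod 3}

theorem Ku_RESD.mul (p : Ku_RESD h x a) (q : Ku_RESD h y b) : Ku_RESD h (x * y) (a + b) := by
  obtain ⟨s, s1, s2⟩ := p.rt
  obtain ⟨t, t1, t2⟩ := q.rt
  exact ⟨mul_ne_zero p.ne q.ne, by rw [map_mul, p.fx, q.fx], s * t, by rw [mul_pow, s1, t1], by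
    rw [map_mul, s2, t2, w3_add]
    ring⟩

theorem cube_RESD (h0 : x ≠ 0) (e : h x = x) : Ku_RESD h (x ^ 3) 0 :=
  ⟨pow_ne_zero _ h0, by rw [map_pow, e], x, rfl, by simpa using e⟩

theorem Ku_RESD.pow (p : Ku_RESD h x a) (n : ℕ) : Ku_RESD h (x ^ n) (n * a) := by
  induction n with
  | zero => simpa using cube_RESD (h := h) one_ne_zero (map_one h)
  | succ n ih => simpa [pow_succ, add_mul] using ih.mul p

theorem of_RESD (hg : h ∈ GK) (h0 : x ≠ 0) (e : h x = x) : Ku_RESD h x (X.kw x h) :=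
  ⟨h0, e, _, rt_pow three_ne_zero x, X.act_KW h0 (rt_pow three_ne_zero x) hg e⟩

theorem Ku_RESD.eq (hg : h ∈ GK) (p : Ku_RESD h x a) (q : Ku_RESD h y b) (e : x = y) : a = b := by
  obtain ⟨s, s1, s2⟩ := p.rt
  obtain ⟨t, t1, t2⟩ := q.rt
  rw [← X.uniq_KW p.ne s1 hg p.fx s2, e, X.uniq_KW q.ne t1 hg q.fx t2]

end

theorem wi_RESD {C : AddSubgroup Pt} (h : ND C) (i : ℕ) : ND (mC (ω ^ i) C) ∧
    cd (mC (ω ^ i) C) = cd C ∧
    ∀ z, kk (mC (ω ^ i) C) (w3 ^ i * z) = w3 ^ (i * (cd C - 1)) * kk C z := by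
  obtain ⟨h1, h2, h3⟩ := map_nd (f := DistribSMul.toAddMonoidHom Pt ((ω : Zw) ^ i)) h fun T _ e =>
    (unit_smul ((IsUnit.of_pow_eq_one www three_ne_zero).pow i)).1 e
  refine ⟨h1, h2, fun z => (h3 _).trans ?_⟩
  rw [kk, ← card_erase h, pow_mul, ← prod_const, ← prod_mul_distrib]
  exact prod_congr rfl fun T _ => by rw [mul_sub, ← xc_wpow]; rfl

theorem map_RESD {g : GQ} (hg : g ∈ GK) (b : Zw) {C : AddSubgroup Pt} (e : C.map (gal g) = C) :
    (mC b C).map (gal g) = mC b C := by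
  conv_rhs => rw [← e]
  simp only [mC, AddSubgroup.map_map]
  congr 1
  ext P
  exact gal_smul hg b P

theorem RESD_pf (hR : RZ_st) (hG : GR_st) (hF : FGAL_st) (hK : KPR_st) (_ : X.KW_st) :
    RESD_st := by
  intro z C h hz hC hh eC
  have hg := hh.1
  have k3 := FAC_ok 3 1 three_ne_zero one_ne_zero (fun l hl l3 d => absurd (by
    rw [Nat.prime_three.factorization, Finsupp.single_eq_of_ne l3]
    exact dvd_zero 3) d) h (by simpa using hh)
  rw [Nat.cast_ofNat] at k3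
  obtain ⟨r1, -, -, r4, -, r6, -, -, r9, r10, -⟩ := hR.2 z hz
  have z0 := r10 h hh
  have z1 := (r9 h).2.1
  have z2 := (r9 h).2.2
  rw [z0] at z1 z2
  have hw := mem_GK'.1 hg
  have c3 : h (cbr 3) = cbr 3 := by simpa [k3] using act_SKAP three_ne_zero h
  have fk : ∀ D, ND D → D.map (gal h) = D → ∀ t, h t = t → h (kk D t) = kk D t :=
    fun D hD e t ht => by rw [(gal_nd h hD).2.2, e, ht]
  have fp : ∀ D, ND D → D.map (gal h) = D → gal h (pf z D) = pf z D := fun D hD e => by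
    simpa [k3, z0, e] using ((hF z D hz hD).2.2.2.2.2.2 h).2.2.1
  have K3 : Ku_RESD h (-3) 0 := by
    have := cube_RESD (x := -cbr 3) (neg_ne_zero.2 (ne_SKAP three_ne_zero (cbr_cube 3)))
      (by rw [map_neg, c3])
    rwa [Odd.neg_pow (by decide), cbr_cube, Rat.cast_ofNat] at this
  have Kw : ∀ n : ℕ, Ku_RESD h (w3 ^ n) 0 := fun n => by
    have e : (z + w3) ^ 3 = w3 * (z + w3 ^ 2) ^ 3 := by
      rw [Rz] at hz
      linear_combination (1 - w3) * hz -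
        (3 * z ^ 2 + 3 * z * w3 ^ 2 + w3 ^ 4 + w3 - 1) * w3_cube
    have n0 : z + w3 ^ 2 ≠ 0 := fun e0 => by
      have e1 : z + w3 = 0 := by simpa [e0] using e
      exact mul_ne_zero w3_ne_zero (sub_ne_zero.2 w3_ne_one) (by linear_combination e0 - e1)
    have : Ku_RESD h w3 0 := ⟨w3_ne_zero, hw, (z + w3) / (z + w3 ^ 2),
      by rw [div_pow, e, mul_div_cancel_right₀ _ (pow_ne_zero _ n0)], by simp [z0, hw]⟩
    simpa using this.pow n
  have kn : ∀ D, ND D → D.map (gal h) = D → ∀ t, h t = t → t ^ 4 + t = 0 →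
      Ku_RESD h (kk D t) (X.kw (kk D t) h) := fun D hD e t ht h4 =>
    of_RESD hg ((NON_pf 0 D hD).2.1 t h4) (fk D hD e t ht)
  have kw : ∀ D, ND D → D.map (gal h) = D → ∀ i : ℕ,
      Ku_RESD h (kk D (-w3 ^ i)) (X.kw (kk D (-w3 ^ i)) h) := fun D hD e i =>
    kn D hD e _ (by simp [hw]) (by
      linear_combination w3 ^ i * (by rw [← pow_mul, mul_comm, pow_mul, w3_cube, one_pow] :
        (w3 ^ i) ^ 3 = 1))
  have a0 := of_RESD hg (x := z - s2 z) (fun e => by simp [e] at r6) (by rw [map_sub, z0, z2])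
  have a1 := of_RESD hg (x := s1 z - z) (fun e => by simp [e] at r6) (by rw [map_sub, z0, z1])
  have key : ∀ D, ND D → D.map (gal h) = D → ∀ i : ℕ,
      X.kw (yc (pf z (mC (ω ^ i) D))) h = cd D * (X.kw (z - s2 z) h - X.kw (s1 z - z) h) +
        X.kw (kk D 0) h + 2 * X.kw (kk (mC pw D) (-w3 ^ (2 * i))) h := fun D hD e i => by
    obtain ⟨p1, p2, -⟩ := pw_nd_T hD
    obtain ⟨d1, d2, d3⟩ := wi_RESD hD i
    have d4 := (wi_RESD p1 i).2.2 (-w3 ^ (2 * i))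
    have d5 := d3 0
    have e' := map_RESD hg (ω ^ i) e
    rw [mul_neg, ← pow_add, w3_mod_T (j := 0) (by omega), pow_zero, mC_comm] at d4
    rw [mul_zero] at d5
    obtain ⟨-, ⟨n0, n1, n2⟩, f1, -⟩ := hF z _ hz d1
    have f2 := (hK z _ hz d1).1
    have b0 := of_RESD hg n0 (fk _ d1 e' _ z0)
    have b1 := of_RESD hg n1 (fk _ d1 e' _ z1)
    have b2 := of_RESD hg n2 (fk _ d1 e' _ z2)
    rw [pE, pE, r4, d2] at f1
    rw [d4, d5] at f2
    have c0 := ((a0.pow (2 * cd D)).mul b0).mul (b1.pow 2)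
    have y0 := of_RESD hg (x := yc (pf z (mC (ω ^ i) D)))
      (fun e0 => c0.ne (by rw [← f1, e0]; simp)) (by rw [← (xc_gal h _).2, fp _ d1 e'])
    have g1 := ((y0.pow 2).mul (((a1.pow (2 * cd D)).mul b1).mul (b2.pow 2))).eq hg c0 f1
    have g2 := ((b0.mul b1).mul b2).eq hg (((K3.pow _).mul (((Kw _).mul
      (kn D hD e 0 (map_zero h) (by simp))).pow 2)).mul
      ((Kw _).mul (kw _ p1 (map_RESD hg pw e) _))) f2
    push_cast at g1 g2
    grind
  have eP := map_RESD hg pw eC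
  obtain ⟨p1, p2, p3⟩ := pw_nd_T hC
  obtain ⟨g1, -, -, -, g5, g6, -⟩ := hG C hC
  refine ⟨k3, fun p => fp _ (g1 p).1 (by rw [← g6 h hg, eC]), ?_⟩
  obtain ⟨o, -, -, b0, -, q1, q2, -⟩ := NON_pf 0 C hC
  have E : ∀ i : ℕ, _ := fun i => ((Kw (nj 0 * cd C * i)).mul (kw C hC eC i)).mul (kw _ p1 eP (i + 0))
  have y0 := of_RESD hg (x := nY 0 C) (fun e => (E 0).ne (q2.symm.trans (by simp [e])))
    (by rw [nY, map_div₀, map_mul, map_sub, map_sub, map_ofNat, nE, nE, nE, (E 0).fx, (E 1).fx,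
      (E 2).fx])
  have u1 := (((E 0).mul (E 1)).mul (E 2)).eq hg (cube_RESD b0 (by
    rw [nB, map_mul, map_mul, map_pow, c3, fk _ hC eC _ (map_zero h), fk _ p1 eP _ (map_zero h)])) q1
  have u2 := ((y0.pow 2).mul (E 2)).eq hg (E 0) q2
  have s : ∀ f : I6 → ZMod 3, ∑ p, p.1 * f p = f (1, 0) + f (1, 1) + 2 * (f (2, 0) + f (2, 1)) :=
    fun f => by
      rw [Fintype.sum_prod_type]
      refine (Fin.sum_univ_three _).trans ?_
      simp only [show ∀ F : ZMod 2 → ZMod 3, ∑ y, F y = F 0 + F 1 from Fin.sum_univ_two]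
      show 0 * _ + 0 * _ + (1 * f (1, 0) + 1 * f (1, 1)) + (2 * f (2, 0) + 2 * f (2, 1)) = _
      ring
  rw [s, ny, yc_pt o, (g5 _).1, (g5 _).2, (g5 _).1, (g5 _).2, key _ hC eC, key _ hC eC,
    key _ p1 eP, key _ p1 eP, p2, p3, w3_mod_T (i := 2 * ZMod.val (1 : ZMod 3)) (j := 2) rfl,
    w3_mod_T (i := 2 * ZMod.val (2 : ZMod 3)) (j := 1) rfl]
  push_cast at u2
  grind

end Pool.Agent.MP_e23604_nt.PH

end
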