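import Pool.Agent.Mg.Fe23604m.G59c89c
import Pool.Agent.Mg.Fe23604m.Gf35d07
import Pool.Agent.Mg.Fe23604m.G1bd87d
import Pool.Agent.Mg.Fe23604m.G579f33
import Pool.Agent.Mg.Fe23604m.G673302
import Pool.Agent.Mg.Fe23604m.G17f129

set_option linter.all false

/-!
Classes attached to the relaxed systems: the statements hold.
-/

set_option autoImplicit false

namespace Pool.Agent.MP_e23604_nt.N.G

theorem TL0_ok : TL0_st := TL0_pf FRI_ok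
theorem KT_ok : KT_st := KT_pf DL_ok AL_ok CN_ok SUM_ok
theorem LEV_ok : LEV_st := LEV_pf DL_ok KT_ok
theorem SLOT_ok : SLOT_st := SLOT_pf DL_ok KT_ok CN_ok SUM_ok TL0_ok
theorem SHF_ok : SHF_st := SHF_pf KT_ok SUM_ok SLOT_ok
theorem SHC_ok : SHC_st := SHC_pf LU_ok DL_ok KT_ok CN_ok SUM_ok SLOT_ok SHF_ok
theorem KC_ok : KC_st := KC_pf KT_ok
theorem UNR_ok : UNR_st := UNR_pf DL_ok AL_ok KT_ok
theorem TRS_ok : TRS_st := TRS_pf DL_ok AL_ok FRI_ok KT_ok CN_ok SUM_ok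
theorem LOC_ok : LOC_st := LOC_pf DL_ok AL_ok KT_ok CN_ok SUM_ok
theorem FS2_ok : FS2_st := FS2_pf DL_ok AL_ok FRI_ok KT_ok CN_ok SUM_ok TL0_ok TRS_ok
theorem WT_ok : WT_st := WT_pf N.WT_ok SHC_ok
theorem KS2_ok : KS2_st :=
  KS2_pf AL_ok FRI_ok KT_ok KC_ok UNR_ok TRS_ok FS2_ok LOC_ok TRF_ok N.WT_ok WT_ok LO_ok FAM_ok
theorem CM_ok : CM_st := CM_pf AL_ok FRI_ok N.KT_ok N.WT_ok FAM_ok
theorem RED_ok : RED_st := RED_pf KT_ok LEV_ok FAM_ok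
theorem SPL2_ok : SPL2_st := SPL2_pf AL_ok N.KT_ok SPL_ok KIT_ok N.WT_ok FAM_ok TR_ok
theorem BSE2_ok : BSE2_st := BSE2_pf AL_ok BAS_ok X.KW_pf (X.IND_pf X.KW_pf) FAM_ok

end Pool.Agent.MP_e23604_nt.N.G
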