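import Pool.Agent.Mg.Fe23604m.G1bd87d
import Pool.Agent.Mg.Fe23604m.Gad4bd4
import Pool.Agent.Mg.Fe23604m.G5a860c
import Pool.Agent.Mg.Fe23604m.G2ca419

set_option linter.all false

section

/-!
Division points attached to cube roots of the second coordinate.
-/

set_option autoImplicit false

open Finset QuadraticAlgebra
open scoped Classical

namespace Pool.Agent.MP_e23604_nt.PH

open B R S W Un

theorem on_LIFT {P : Pt} (h : xc P ≠ 0) :
    On 0 1 (xc P) (yc P) ∧ P = pt 0 1 (xc P) (yc P) := on_xy fun e => h (by rw [e, xc_zero])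

theorem ext_LIFT {P Q : Pt} (h : xc P ≠ 0) (e : xc Q = xc P) (e' : yc Q = yc P) : Q = P := by
  rw [(on_LIFT h).2, (on_LIFT (P := Q) (e ▸ h)).2, e, e']

theorem rel_LIFT {u c : Qb} :
    On 0 1 u (w3 ^ 2 + W.io pw * c * u) ↔ u ^ 3 + 1 = 3 * (c * u) * (1 - c * u) := by
  have : (w3 ^ 2 + W.io pw * c * u) ^ 2 + (w3 ^ 2 + W.io pw * c * u) + 1 =
      3 * (c * u) * (1 - c * u) := by
    rw [io_pw]
    linear_combination (w3 ^ 2 - w3 + 1 + (4 * w3 - 2) * (c * u) + 4 * (c * u) ^ 2) * w3_spec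
  rw [on_iff, ← this]
  exact ⟨fun h => by linear_combination -h, fun h => by linear_combination -h⟩

theorem uniq_LIFT {R : Pt} {c : Qb} (h : xc R ≠ 0) (hc : c ≠ 0)
    (e : yc R = w3 ^ 2 + W.io pw * c * xc R) : lf (pw • R) c = R := by
  have h1 := rel_LIFT.1 (e ▸ (on_LIFT h).1)
  have h2 : c ^ 2 - xc (pw • R) = c / xc R := by
    rw [(PI_ok.2.2.1 R h).1, h1]
    field_simp
    ring
  rw [lf, h2, div_div_cancel₀ hc, ← e, ← (on_LIFT h).2]

theorem den_LIFT {P : Pt} {c : Qb} (h : xc P ≠ 0) (hc : c ^ 3 = yc P) :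
    (c ^ 2 - xc P) * (c ^ 4 + c ^ 2 * xc P + xc P ^ 2) = -c ^ 3 ∧ c ≠ 0 ∧ c ^ 2 - xc P ≠ 0 ∧
      On 0 1 (c / (c ^ 2 - xc P)) (w3 ^ 2 + W.io pw * c * (c / (c ^ 2 - xc P))) := by
  have h1 := on_iff.1 (on_LIFT h).1
  rw [← hc] at h1
  have h2 : c ≠ 0 := fun e => pow_ne_zero 3 h (by rw [← h1, e]; ring)
  have h3 : (c ^ 2 - xc P) * (c ^ 4 + c ^ 2 * xc P + xc P ^ 2) = -c ^ 3 := by linear_combination h1
  have h4 : c ^ 2 - xc P ≠ 0 := left_ne_zero_of_mul (h3 ▸ neg_ne_zero.2 (pow_ne_zero 3 h2))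
  refine ⟨h3, h2, h4, rel_LIFT.2 ?_⟩
  field_simp
  linear_combination h1

theorem addT_LIFT {P : Pt} (h : xc P ≠ 0) : yc P + 1 ≠ 0 ∧ xc (P + T0) = -xc P / (yc P + 1) ∧
    yc (P + T0) = -1 / (yc P + 1) := by
  obtain ⟨o, e⟩ := on_LIFT h
  have h1 := on_iff.1 o
  have h2 : yc P + 1 ≠ 0 := fun e => pow_ne_zero 3 h (by linear_combination yc P * e - h1)
  obtain ⟨o', e'⟩ := pt_add_ne G01 (l := yc P / xc P) (x₃ := -xc P / (yc P + 1))
    (y₃ := -1 / (yc P + 1)) o on_T h (by field_simp; ring)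
    (by field_simp; push_cast; linear_combination -yc P * h1) (by field_simp; push_cast; ring)
  rw [← e] at e'
  exact ⟨h2, (congrArg xc e').trans (xc_pt o'), (congrArg yc e').trans (yc_pt o')⟩

theorem onS_LIFT : On 0 1 (-1 : Qb) (w3 ^ 2) :=
  on_iff.2 (by linear_combination (w3 ^ 2 - w3 + 1) * w3_spec)

theorem S0_LIFT : pw • S0 = T0 := by
  have hx : xc S0 = -1 := xc_pt onS_LIFT
  have h0 : xc S0 ≠ 0 := by rw [hx]; norm_num
  obtain ⟨h1, h2⟩ := PI_ok.2.2.1 S0 h0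
  rw [(on_xy fun e => h0 ((PI_ok.2.1 S0).1 e)).2, h1, h2, hx, show yc S0 = _ from yc_pt onS_LIFT]
  norm_num
  rfl

theorem addS_LIFT {u c x : Qb} (hu : u ≠ 0) (hx : x ≠ 0) (e : x = c ^ 2 - c / u)
    (o : On 0 1 u (w3 ^ 2 + W.io pw * c * u)) :
    yc (pt 0 1 u (w3 ^ 2 + W.io pw * c * u) + S0) =
      w3 ^ 2 + W.io pw * (-c / x) * xc (pt 0 1 u (w3 ^ 2 + W.io pw * c * u) + S0) := by
  have h1 := rel_LIFT.1 o
  have h2 : x * u = -c * (1 - c * u) := by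
    rw [e]
    field_simp
    ring
  have h3 : -c * (1 - c * u) ≠ 0 := h2 ▸ mul_ne_zero hx hu
  have h4 : u + 1 ≠ 0 := fun e => mul_ne_zero hu h3 (by
    linear_combination h1 / 3 - (u ^ 2 - u + 1) / 3 * e)
  obtain ⟨k, hk⟩ : ∃ k, k * (u + 1) = c * u := ⟨_, div_mul_cancel₀ _ h4⟩
  have h5 : 3 * k * (1 - k * (u + 1)) = u ^ 2 - u + 1 := mul_left_cancel₀ h4 (by
    rw [← hk] at h1
    linear_combination -h1)
  have h6 : -c / x * (1 - k * (u + 1)) = u := by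
    rw [hk, div_mul_eq_mul_div, ← h2, mul_div_cancel_left₀ _ hx]
  have h7 : (-c / x + k) * (1 - u - 3 * k ^ 2) = 1 - k := by
    refine mul_left_cancel₀ (hk ▸ right_ne_zero_of_mul h3 : 1 - k * (u + 1) ≠ 0) ?_
    linear_combination (1 - u - 3 * k ^ 2) * h6 + (1 - k ^ 2) * h5
  obtain ⟨o', e'⟩ := pt_add_ne G01 (l := W.io pw * k) (x₃ := 1 - u - 3 * k ^ 2)
    (y₃ := w3 ^ 2 + W.io pw * (-c / x) * (1 - u - 3 * k ^ 2)) o onS_LIFT
    (fun e => h4 (by rw [e, neg_add_cancel])) (by linear_combination W.io pw * hk)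
    (by push_cast; linear_combination -k ^ 2 * io_pw_sq)
    (by push_cast; linear_combination W.io pw * (h7 - hk) + io_pw + 2 * w3_spec)
  rw [S0, e', xc_pt o', yc_pt o']

theorem LIFT_pf : LIFT_st := by
  have h3 : (3 : Zw) • S0 = 0 :=
    (PI_ok.2.2.2.1 S0).2 (Or.inr (by rw [show xc S0 = _ from xc_pt onS_LIFT]; norm_num))
  refine ⟨⟨S0_LIFT, (ofNat_smul_eq_nsmul Zw 3 S0).symm.trans h3, fun g hg => PI_ok.2.2.2.2 g hg _ h3⟩,
    fun P c h hc => ?_, fun V P Q c d hl hc hd hx hcd => ?_⟩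
  · obtain ⟨-, c0, d0, o⟩ := den_LIFT h hc
    have hu : xc (lf P c) = c / (c ^ 2 - xc P) := xc_pt o
    have hv : yc (lf P c) = w3 ^ 2 + W.io pw * c * xc (lf P c) := by rw [hu]; exact yc_pt o
    have u0 : xc (lf P c) ≠ 0 := hu ▸ div_ne_zero c0 d0
    have w0 := mul_ne_zero (pow_ne_zero 2 w3_ne_zero) c0
    have e1 : pw • lf P c = P := by
      obtain ⟨a, b⟩ := PI_ok.2.2.1 _ u0
      refine ext_LIFT h ?_ ?_
      · rw [a, rel_LIFT.1 (hv ▸ (on_LIFT u0).1), hu]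
        field_simp
        ring
      · rw [b, hv, ← hc, add_sub_cancel_left, mul_right_comm,
          mul_div_cancel_left₀ _ (mul_ne_zero (io_ne pw_ne) u0)]
    obtain ⟨y1, t1, t2⟩ := addT_LIFT h
    have t0 : xc (P + T0) ≠ 0 := t1 ▸ div_ne_zero (neg_ne_zero.2 h) y1
    refine ⟨e1, ?_, ?_, t0, ?_, ?_, fun g hg => ?_, fun g hg => ?_⟩
    · obtain ⟨a, b, b'⟩ := addT_LIFT u0
      have := uniq_LIFT (b ▸ div_ne_zero (neg_ne_zero.2 u0) a) w0 (by
        rw [b, b']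
        field_simp
        linear_combination -w3 ^ 2 * hv - (w3 ^ 2 - w3 + 1) * w3_spec)
      rwa [smul_add, e1, pw_T0, add_zero] at this
    · obtain ⟨a, b⟩ := xc_w (lf P c)
      have := uniq_LIFT (a ▸ mul_ne_zero w3_ne_zero u0) w0 (by
        rw [a, b]
        linear_combination hv - W.io pw * c * xc (lf P c) * w3_cube)
      rw [smul_comm, e1] at this
      exact this.symm
    · rw [t2, div_pow, neg_pow, hc, ← on_iff.1 (on_LIFT h).1]
      have := hc ▸ pow_ne_zero 3 c0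
      have : yc P ^ 2 + yc P ≠ 0 := by rw [on_iff.1 (on_LIFT h).1]; exact pow_ne_zero 3 h
      field_simp
    · have e2 : pw • (lf P c + S0) = P + T0 := by rw [smul_add, e1, S0_LIFT]
      rw [← e2]
      refine uniq_LIFT (fun e => t0 ?_) (div_ne_zero (neg_ne_zero.2 c0) h)
        (addS_LIFT (div_ne_zero c0 d0) h ?_ o)
      · rw [← e2, (PI_ok.2.1 _).2 e, xc_zero]
      · rw [div_div_cancel₀ c0, sub_sub_cancel]
    · rw [lf, gal_pt g o, lf, (xc_gal g P).1]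
      simp only [map_add, map_mul, map_pow, map_div₀, map_sub, io_fix hg, mem_GK'.1 hg]
    · rw [lf, gal_pt g o, lf, (xc_gal g P).1]
      refine (pt_neg G01 (o.map (g : Qb →+* Qb))).trans ?_
      simp only [RingHom.coe_coe, map_add, map_mul, map_pow, map_div₀, map_sub, io_pw, map_one,
        map_ofNat, not_mem_GK hg]
      congr 1
      push_cast
      linear_combination (-(w3 ^ 2 - w3 + 1) - 2 * (g c * (g c / (g c ^ 2 - g (xc P))))) * w3_spec
  · have n3 : ¬ Ov V 3 := (Ov_l V).cop (by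
      exact_mod_cast ((Nat.coprime_primes V.hl.out Nat.prime_three).2 hl).cast (R := Zw))
    obtain ⟨-, -, -, o⟩ := den_LIFT (fun e => by simpa [e] using hx.1) hc
    obtain ⟨p, -, -, o'⟩ := den_LIFT (fun e => by simpa [e] using hx.2.1) hd
    have c1 : NC.Cg V c d := ⟨hcd.1.le, hcd.2.1.le, hcd.2.2⟩
    have c2 : NC.Cg V (xc P) (xc Q) := ⟨hx.1.le, hx.2.1.le, hx.2.2⟩
    have c3 : NC.Cg V (c ^ 2 - xc P) (d ^ 2 - xc Q) := by
      simpa only [neg_one_mul, ← sub_eq_add_neg] using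
        (c1.pow 2).add ((NC.Cg.rfl' (a := -1) (by simp)).mul c2)
    have c4 := c1.div c3 (le_antisymm c3.2.1 (by
      have := congrArg V.v p
      rw [V.v.map_neg, map_pow, hcd.2.1, one_pow, mul_comm] at this
      exact this ▸ bLocA_mul_le (((c1.pow 4).add ((c1.pow 2).mul c2)).add (c2.pow 2)).2.1))
    have c5 := (NC.Cg.rfl' (io_w ▸ V.io_le ω) |>.pow 2).add
      (((NC.Cg.rfl' (V.io_le pw)).mul c1).mul c4)
    have ne : ∀ {x y : Qb}, On 0 1 x y → V.v x ≤ 1 → ¬ E1 V.v (pt 0 1 x y) := fun {x y} o e => by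
      rw [pt_eq G01 o]
      exact not_lt.2 e
    refine CLO_ok V _ _ (ne o c4.1) (ne o' c4.2.1) ?_ ?_
    · rw [lf, lf, xc_pt o, xc_pt o', v_three n3]
      exact c4.2.2
    · rw [lf, lf, yc_pt o, yc_pt o', v_three n3]
      exact c5.2.2

end Pool.Agent.MP_e23604_nt.PH

end

section

/-!
The division point of a sum of six points.
-/

set_option autoImplicit false

open Finset QuadraticAlgebra
open scoped Classical

namespace Pool.Agent.MP_e23604_nt.PH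

open B R S W Un

variable {P : I6 → Pt} {m : Qb} {c : I6 → Qb}

theorem y_DV {Q : Pt} (h : xc Q ≠ 0) : yc Q ≠ 0 := fun e =>
  pow_ne_zero 3 h (by rw [← xy_eq, e]; ring)

theorem cube_DV (s : ℕ) (x : Qb) : (w3 ^ s * x) ^ 3 = x ^ 3 := by
  rw [mul_pow, ← pow_mul, mul_comm s, pow_mul, w3_cube, one_pow, one_mul]

theorem T_DV {a k : ℕ} (h : w3 ^ (a + 2 * k) = 1) : a • T0 = k • T0 := by
  obtain ⟨j, e⟩ := (w3_prim.pow_eq_one_iff_dvd _).1 h
  have t : (3 : ℕ) • T0 = 0 := (Nat.cast_smul_eq_nsmul Zw 3 T0).symm.trans three_T0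
  have : (a + k * 3) • T0 = (k + j * 3) • T0 := congrArg (· • T0) (by omega)
  rwa [add_smul, add_smul, mul_smul, mul_smul, t, smul_zero, smul_zero, add_zero, add_zero] at this

theorem one_DV (hL : LIFT_st) {Q : Pt} {x : Qb} (h : xc Q ≠ 0) (e : x ^ 3 = yc Q) (s : ℕ) :
    lf Q (w3 ^ (2 * s) * x) = lf Q x + s • T0 := by
  induction s with
  | zero => simp
  | succ s ih =>
    rw [mul_add, mul_one, pow_add, mul_comm _ (w3 ^ 2), mul_assoc,
      (hL.2.1 Q _ h (by rw [cube_DV, e])).2.1, ih, succ_nsmul, add_assoc]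

theorem sum_DV (hL : LIFT_st) (h : ∀ i, xc (P i) ≠ 0) (e : ∀ i, c i ^ 3 = yc (P i)) (s : I6 → ℕ) :
    ∑ i, lf (P i) (w3 ^ (2 * s i) * c i) = ∑ i, lf (P i) (c i) + (∑ i, s i) • T0 := by
  rw [sum_smul, ← sum_add_distrib]
  exact sum_congr rfl fun i _ => one_DV hL (h i) (e i) _

theorem prod_DV (c : I6 → Qb) (s : I6 → ℕ) :
    (∏ i, w3 ^ (2 * s i) * c i) ^ 2 = w3 ^ (∑ i, s i) * (∏ i, c i) ^ 2 := by
  rw [prod_mul_distrib, prod_pow_eq_pow_sum, ← mul_sum, mul_pow, ← pow_mul,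
    w3_mod_T (j := ∑ i, s i) (by omega)]

theorem rts_DV (h : Rts P m c) (s : I6 → ℕ) :
    Rts P (w3 ^ (∑ i, s i) * m) fun i => w3 ^ (2 * s i) * c i :=
  ⟨fun i => by rw [cube_DV, h.1], by rw [prod_DV, h.2]⟩

theorem fac_DV (x y : Qb) :
    (x - w3 ^ (2 * 0) * y) * (x - w3 ^ (2 * 1) * y) * (x - w3 ^ (2 * 2) * y) = x ^ 3 - y ^ 3 := by
  rw [w3_mod_T (i := 2 * 2) (j := 1) rfl]
  linear_combination (x * y ^ 2 * w3 - x ^ 2 * y) * w3_spec - y ^ 3 * w3_cube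

theorem ex_DV (h : Dd P m) : ∃ c, Rts P m c := by
  choose c hc using fun i => IsAlgClosed.exists_pow_nat_eq (yc (P i)) three_pos
  have p : (∏ i, c i) ^ 3 = ∏ i, yc (P i) := by rw [← prod_pow]; simp only [hc]
  have n : (∏ i, c i) ^ 2 ≠ 0 := pow_ne_zero _ fun e =>
    prod_ne_zero_iff.2 (fun i _ => y_DV (h.1 i)) (by rw [← p, e]; ring)
  have u : (m / (∏ i, c i) ^ 2) ^ 3 = 1 := by
    rw [div_pow, h.2, ← p, div_eq_one_iff_eq (pow_ne_zero 3 n)]
    ring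
  have := rts_DV (P := P) ⟨hc, rfl⟩ (Pi.single 0 (S.lg (m / (∏ i, c i) ^ 2)).val)
  rw [sum_pi_single', if_pos (mem_univ _), pow_lg u, div_mul_cancel₀ _ n] at this
  exact ⟨_, this⟩

theorem uni_DV (hL : LIFT_st) (h : ∀ i, xc (P i) ≠ 0) (hc : Rts P m c) :
    Dv P m = ∑ i, lf (P i) (c i) := by
  have hd : Rts P m (Classical.epsilon (Rts P m)) := Classical.epsilon_spec ⟨c, hc⟩
  rw [Dv]
  generalize Classical.epsilon (Rts P m) = d at hd
  have k : ∀ i, ∃ s : ℕ, d i = w3 ^ (2 * s) * c i := fun i => by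
    have := fac_DV (d i) (c i)
    rw [hd.1, hc.1, sub_self, mul_eq_zero, mul_eq_zero, sub_eq_zero, sub_eq_zero,
      sub_eq_zero] at this
    rcases this with (e | e) | e
    exacts [⟨_, e⟩, ⟨_, e⟩, ⟨_, e⟩]
  choose s hs using k
  obtain rfl := funext hs
  have n : (∏ i, c i) ^ 2 ≠ 0 := pow_ne_zero _ (prod_ne_zero_iff.2 fun i _ e =>
    y_DV (h i) (by rw [← hc.1, e]; ring))
  have e := hd.2
  rw [prod_DV, ← hc.2, mul_left_eq_self₀, or_iff_left n] at e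
  rw [sum_DV hL h hc.1, T_DV (a := ∑ i, s i) (k := 0) (by simpa using e), zero_smul, add_zero]

theorem rot_DV (hL : LIFT_st) (h : ∀ i, xc (P i) ≠ 0) (hc : Rts P m c) (k : ℕ) :
    (∀ i, xc ((ω : Zw) ^ k • P i) ≠ 0) ∧ ∃ d, Rts (fun i => (ω : Zw) ^ k • P i) m d ∧
      ∑ i, lf ((ω : Zw) ^ k • P i) (d i) = (ω : Zw) ^ k • ∑ i, lf (P i) (c i) := by
  induction k with
  | zero => exact ⟨by simpa using h, c, by simpa using hc, by simp⟩
  | succ k ih =>
    obtain ⟨x, d, hd, e⟩ := ih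
    simp only [pow_succ', mul_smul]
    refine ⟨fun i => by rw [(xc_w _).1]; exact mul_ne_zero w3_ne_zero (x i),
      fun i => w3 ^ 2 * d i, ⟨fun i => by rw [cube_DV, (xc_w _).2, hd.1], ?_⟩, ?_⟩
    · have := prod_DV d fun _ => 1
      rw [hd.2, sum_const, card_univ, show Fintype.card I6 • 1 = 3 * 2 from rfl, pow_mul w3 3,
        w3_cube, one_pow, one_mul] at this
      exact this
    · rw [← e, smul_sum]
      exact sum_congr rfl fun i _ => (hL.2.1 _ _ (x i) (hd.1 i)).2.2.1.symm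

theorem cg_DV {V : Plc} {a b : Qb} (h : Cu V a b) : NC.Cg V a b := ⟨h.1.le, h.2.1.le, h.2.2⟩

theorem root_DV {V : Plc} {x y : Qb} (h : Cu V (x ^ 3) (y ^ 3)) :
    ∃ s : ℕ, Cu V x (w3 ^ (2 * s) * y) := by
  have k : ∀ z : Qb, V.v (z ^ 3) = 1 → V.v z = 1 := fun z e =>
    (pow_eq_one_iff_of_nonneg (V.v.nonneg _) three_ne_zero).1 (by rwa [map_pow] at e)
  by_contra! n
  have g : ∀ s : ℕ, 1 ≤ V.v (x - w3 ^ (2 * s) * y) := fun s => not_lt.1 fun e =>
    n s ⟨k _ h.1, by rw [map_mul, map_pow, v_w3, one_pow, one_mul, k _ h.2.1], e⟩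
  have := h.2.2
  rw [← fac_DV, map_mul, map_mul] at this
  exact absurd this (not_lt.2 (one_le_mul_of_one_le_of_one_le
    (one_le_mul_of_one_le_of_one_le (g 0) (g 1)) (g 2)))

theorem unit_DV {V : Plc} (h3 : V.l ≠ 3) {u : Qb} (e : u ^ 3 = 1) (h : NC.Cg V u 1) : u = 1 := by
  by_contra n
  have z : u ^ 2 + u + 1 = 0 :=
    mul_left_cancel₀ (sub_ne_zero.2 n) (by linear_combination e)
  have k := (((h.pow 2).add h).add NC.Cg.one).2.2
  rw [z, show (0 : Qb) - (1 ^ 2 + 1 + 1) = -3 by norm_num, V.v.map_neg,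
    v_three (NC.not_Ov_nat (n := 3) fun d =>
      h3 ((Nat.prime_dvd_prime_iff_eq V.hl.out Nat.prime_three).1 d))] at k
  exact lt_irrefl _ k

theorem DV_pf (hL : LIFT_st) : DV_st := by
  intro P m h
  obtain ⟨c, hc⟩ := ex_DV h
  have u := uni_DV hL h.1 hc
  have L := fun i => hL.2.1 _ _ (h.1 i) (hc.1 i)
  refine ⟨⟨c, hc⟩, fun _ => uni_DV hL h.1, ?_, fun k => ?_, fun k => ?_, ?_, fun σ => ?_,
    fun g => ?_, fun V Q m' k h3 h' hv hm => ?_⟩
  · rw [u, smul_sum]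
    exact sum_congr rfl fun i _ => (L i).1
  · have := rts_DV hc (Pi.single 0 k)
    have e := uni_DV hL h.1 this
    rw [sum_DV hL h.1 hc.1, sum_pi_single', if_pos (mem_univ _)] at e
    rw [e, u]
  · obtain ⟨x, d, hd, e⟩ := rot_DV hL h.1 hc k
    rw [uni_DV hL x hd, e, u]
  · rw [uni_DV hL (c := fun i => -c i / xc (P i)) (fun i => (L i).2.2.2.1)
      ⟨fun i => (L i).2.2.2.2.1, by
        rw [prod_div_distrib, div_pow, prod_neg, mul_pow, ← pow_mul, mul_comm _ 2, pow_mul,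
          neg_one_sq, one_pow, one_mul, hc.2]⟩,
      sum_congr rfl fun i _ => (L i).2.2.2.2.2.1, sum_add_distrib, sum_const, card_univ,
      show Fintype.card I6 = 2 * 3 from rfl, mul_smul, hL.1.2.1, smul_zero, add_zero, u]
  · rw [uni_DV hL (c := fun i => c (σ i)) (fun i => h.1 _)
      ⟨fun i => hc.1 _, by rw [σ.prod_comp c, hc.2]⟩, u, σ.sum_comp fun i => lf (P i) (c i)]
  · have x : ∀ i, xc (gal g (P i)) ≠ 0 := fun i => by
      rw [(xc_gal g _).1]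
      exact (map_ne_zero g).2 (h.1 i)
    have e := uni_DV hL (m := g m) (c := fun i => g (c i)) x
      ⟨fun i => by rw [← map_pow, hc.1, (xc_gal g _).2], by rw [← map_prod, ← map_pow, hc.2]⟩
    refine ⟨⟨x, ?_⟩, fun hg => ?_, fun hg => ?_⟩
    · simp only [(xc_gal g _).2]
      rw [← map_pow, h.2, map_pow, map_prod]
    · rw [e, u, map_sum]
      exact sum_congr rfl fun i _ => ((L i).2.2.2.2.2.2.1 g hg).symm
    · rw [e, u, map_sum, ← sum_neg_distrib]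
      exact sum_congr rfl fun i _ => ((L i).2.2.2.2.2.2.2 g hg).symm
  · obtain ⟨d, hd⟩ := ex_DV h'
    choose s hs using fun i => root_DV (V := V) (x := c i) (y := d i)
      (by rw [hc.1, hd.1]; exact (hv i).2)
    have r := rts_DV hd s
    have m1 : V.v m' = 1 := by simpa [v_w3] using hm.2.1
    have m0 : m' ≠ 0 := fun e => by simp [e] at m1
    have c1 := (NC.Cg.prod (s := univ) fun i _ => cg_DV (hs i)).pow 2
    rw [hc.2, r.2] at c1
    have c2 := (c1.symm.trans (cg_DV hm)).mul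
      (NC.Cg.rfl' (a := w3 ^ (2 * k) * m'⁻¹) (by simp [v_w3, m1]))
    rw [show w3 ^ (∑ i, s i) * m' * (w3 ^ (2 * k) * m'⁻¹) = w3 ^ (∑ i, s i + 2 * k) by
        field_simp; ring,
      show w3 ^ k * m' * (w3 ^ (2 * k) * m'⁻¹) = (w3 ^ 3) ^ k by field_simp; ring,
      w3_cube, one_pow] at c2
    rw [u, uni_DV hL h'.1 hd, ← T_DV (unit_DV h3 (by
        rw [← pow_mul, mul_comm, pow_mul, w3_cube, one_pow]) c2), ← sum_DV hL h'.1 hd.1,
      ← sum_sub_distrib]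
    exact sum_induction _ (E1 V.v) (fun _ _ => E1a) ((E1_iff _ _).2 (.inl rfl)) fun i _ =>
      hL.2.2 V _ _ _ _ h3 (hc.1 i) (r.1 i) (hv i).1 (hs i)

end Pool.Agent.MP_e23604_nt.PH

end

section

/-!
Formal properties of the first divided point.
-/

set_option autoImplicit false

open Finset QuadraticAlgebra
open scoped Classical

namespace Pool.Agent.MP_e23604_nt.PH

open B R S W Un

theorem mod_YZ {P : Pt} (h : 3 • P = 0) {a b : ℕ} (e : a % 3 = b % 3) : a • P = b • P := by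
  rw [nsmul_eq_mod_nsmul a h, nsmul_eq_mod_nsmul b h, e]

theorem three_YZ {P : Pt} : (3 : Zw) • P = 3 • P := Nat.cast_smul_eq_nsmul Zw 3 P

theorem wS_YZ (h : pw • S0 = T0) (j : ℕ) : (ω : Zw) ^ j • S0 + j • T0 = S0 := by
  have h1 : (ω : Zw) • S0 + T0 = S0 := by
    have e : (ω : Zw) = 1 - ω ^ 2 * pw := by decide
    have : (ω : Zw) • S0 = (1 - ω ^ 2 * pw : Zw) • S0 := congrArg (· • S0) e
    rw [this, sub_smul, mul_smul, h, w_pow_T0, one_smul, sub_add_cancel]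
  induction j with
  | zero => simp
  | succ j ih =>
    have := congrArg ((ω : Zw) ^ j • ·) h1
    simp only [smul_add, w_pow_T0] at this
    rw [pow_succ, mul_smul, succ_nsmul, add_comm (j • T0), ← add_assoc, this, ih]

theorem shift_YZ (RZ : RZ_st) (GR : GR_st) (FGAL : FGAL_st) (KPR : KPR_st) (DV : DV_st)
    {z z' : Qb} (hz : Rz z) (hz' : Rz z') {C : AddSubgroup Pt} (hC : ND C) :
    Dv (fun p => pf z' (gr C p)) (pM z' C) = Dv (fun p => pf z (gr C p)) (pM z C) := by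
  have h1 : ∀ z, Rz z → Dv (fun p => pf (s1 z) (gr C p)) (pM (s1 z) C) =
      Dv (fun p => pf z (gr C p)) (pM z C) := fun z hz => by
    obtain ⟨-, k1, k2, -⟩ := KPR z C hz hC
    rw [k2, ← (DV _ _ k1).2.2.2.2.2.1]
    congr 1
    funext p
    exact (FGAL z _ hz ((GR C hC).1 p).1).2.2.2.2.2.1
  rcases (RZ.2 z hz).2.2.2.2.2.2.2.1 z' hz' with rfl | rfl | rfl
  · rfl
  · exact h1 z hz
  · exact (h1 _ (RZ.2 z hz).1).trans (h1 z hz)

theorem YZ_pf (RZ : RZ_st) (GR : GR_st) (FGAL : FGAL_st) (KPR : KPR_st) (FCG : FCG_st)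
    (LIFT : LIFT_st) (DV : DV_st) (FRI : N.FRI_st) : YZ_st := by
  intro z hz
  obtain ⟨s1', s3, sg⟩ := LIFT.1
  have t3 : 3 • T0 = 0 := three_YZ.symm.trans three_T0
  refine ⟨fun C hC => ⟨?_, ?_, fun g hg => ?_⟩, fun V f ε hl hf => ?_⟩
  · rw [y0, smul_add, (DV _ _ (KPR z C hz hC).2.1).2.2.1, smul_comm, s1']
  · obtain ⟨-, -, g1, g2, -⟩ := GR C hC
    obtain ⟨-, k1, -, k2⟩ := KPR z C hz hC
    rw [y0, y0, g1, k2, ← (DV _ _ k1).2.2.2.2.2.2.1
      (Equiv.prodCongr (Equiv.addRight (1 : ZMod 3)) (Equiv.refl (ZMod 2)))]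
    simp only [g2]
    rfl
  · obtain ⟨f1, f2, -, f4⟩ := (FGAL z C hz hC).2.2.2.2.2.2 g
    have hgz := ((RZ.2 z hz).2.2.2.2.2.2.2.2.1 g).1
    have d0 := (KPR z C hz hC).2.1
    have d1 := (KPR _ _ hgz f1).2.1
    have d2 : Dd (fun p => pf (g z) (gr (C.map (gal g)) p))
        (w3 ^ (2 * (cd C - 1) * (kum 3 g).val) * pM (g z) (C.map (gal g))) :=
      ⟨d1.1, by rw [mul_pow, ← pow_mul, mul_comm _ 3, pow_mul, w3_cube, one_pow, one_mul, d1.2]⟩
    have e1 : (fun p => gal g (pf z (gr C p))) = fun p =>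
        (ω : Zw) ^ (2 * cd C * (kum 3 g).val) • pf (g z) (gr (C.map (gal g)) p) := by
      funext p
      rw [((FGAL z _ hz ((GR C hC).1 p).1).2.2.2.2.2.2 g).2.2.1, ((GR C hC).1 p).2,
        (GR C hC).2.2.2.2.2.1 g hg p]
    have e2 := ((DV _ _ d0).2.2.2.2.2.2.2.1 g).2.1 hg
    rw [e1, f4 hg, (DV _ _ d2).2.2.2.2.1, (DV _ _ d1).2.2.2.1,
      shift_YZ RZ GR FGAL KPR DV hz hgz f1] at e2
    have e3 : (ω : Zw) ^ (cd C * (kum 3 g).val) * ω ^ (2 * cd C * (kum 3 g).val) = 1 := by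
      rw [← pow_add, show cd C * (kum 3 g).val + 2 * cd C * (kum 3 g).val =
        3 * (cd C * (kum 3 g).val) by ring, pow_mul, www, one_pow]
    have e4 := congrArg ((cd C - 1) • ·) (wS_YZ s1' (cd C * (kum 3 g).val))
    simp only [smul_add, ← mul_nsmul'] at e4
    have e5 : (2 * (cd C - 1) * (kum 3 g).val) • T0 =
        ((cd C - 1) * (cd C * (kum 3 g).val)) • T0 := by
      refine mod_YZ t3 ?_
      have := hC.c3
      obtain ⟨q, hq | hq⟩ : ∃ q, cd C = 3 * q + 1 ∨ cd C = 3 * q + 2 := ⟨cd C / 3, by omega⟩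
      · rw [hq, Nat.add_sub_cancel, show 2 * (3 * q) * (kum 3 g).val = 3 * (2 * q * (kum 3 g).val) by
          ring, mul_assoc 3 q, Nat.mul_mod_right, Nat.mul_mod_right]
      · rw [hq, show 3 * q + 2 - 1 = 3 * q + 1 from rfl,
          show (3 * q + 1) * ((3 * q + 2) * (kum 3 g).val) = 2 * (3 * q + 1) * (kum 3 g).val +
            3 * (q * (3 * q + 1) * (kum 3 g).val) by ring, Nat.add_mul_mod_self_left]
    rw [y0, y0, map_add, map_nsmul, sg g hg, ← e2, smul_add, ← mul_smul, e3, one_smul, f2, e5,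
      smul_comm, ← e4]
    abel
  · refine ⟨(V.l * ε.val + 2) • S0 + gal f ((ε.val + 2) • S0) + (2 * (kum 3 f).val) • T0, ?_,
      fun C T hC hε hlC hT hT0 => ?_⟩
    · rw [three_YZ, smul_add, smul_add, ← map_nsmul, smul_comm 3, smul_comm 3, smul_comm 3, s3, t3]
      simp
    · have hf' := ((FRI V hl).2.2.2.2 f hf).1
      obtain ⟨c1, c2, -, -, -, c3⟩ := FCG V f z C T hl hf hz hC hlC hT hT0
      have hp : V.l.Prime := Fact.out
      have hcop : IsCoprime (3 : Zw) (V.l : Zw) := by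
        have : Nat.Coprime 3 V.l := (Nat.coprime_primes Nat.prime_three hp).2 (by omega)
        exact_mod_cast this.cast (R := Zw)
      have d0 := (KPR z C hz hC).2.1
      obtain ⟨d1, -, e1⟩ := (DV _ _ d0).2.2.2.2.2.2.2.1 f
      have key := (DV _ _ (KPR z _ hz c1).2.1).2.2.2.2.2.2.2.2 V _ _ (2 * (kum 3 f).val)
        (by omega) d1 (fun p => by
          have hu : IsCoprime ((ω : Zw) ^ p.1.val * pw ^ p.2.val) (V.l : Zw) :=
            (isCoprime_mul_unit_left_left (w_unit.pow _) _ _).2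
              (hcop.of_isCoprime_of_dvd_left pw_dvd3).pow_left
          obtain ⟨-, -, a1, a2, -⟩ := FCG V f z (gr C p) (((ω : Zw) ^ p.1.val * pw ^ p.2.val) • T)
            hl hf hz ((GR C hC).1 p).1 (by rwa [((GR C hC).1 p).2])
            (by rw [smul_comm, hT, smul_zero]) fun e => hT0 (cop_smul hu e hT)
          rw [(GR C hC).2.2.2.2.2.2 p T, (xc_gal f _).1, (xc_gal f _).2]
          exact ⟨a1, a2⟩) c3
      have hn : cd C % 3 = ε.val := by rw [← hε, ZMod.val_natCast]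
      have h0 : 1 ≤ cd C := Nat.pos_of_ne_zero fun e => hC.c3 (e ▸ dvd_zero 3)
      have h1 : 1 ≤ V.l * cd C := Nat.mul_pos hp.pos h0
      have m1 : (cd C - 1) • S0 = (ε.val + 2) • S0 := mod_YZ s3 (by omega)
      have m2 : (V.l * cd C - 1) • S0 = (V.l * ε.val + 2) • S0 := mod_YZ s3 (by
        have : V.l * cd C % 3 = V.l * ε.val % 3 := by rw [← hn, Nat.mul_mod_mod]
        omega)
      rw [e1 hf'] at key
      rw [y0, y0, c2, m1, m2, map_add]
      convert key using 1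
      abel

end Pool.Agent.MP_e23604_nt.PH

end

section

/-!
The comparison of the weighted sums of the divided points.
-/

set_option autoImplicit false

open Finset QuadraticAlgebra
open scoped Classical

namespace Pool.Agent.MP_e23604_nt.N.G

open B R S W PH

theorem eta_LIN {χ : GQ → ZMod 3} {h : GQ} (e : χ h = 0) : eta χ h = eta 0 h :=
  AddMonoidHom.ext fun P => by rw [eta_apply, eta_apply, e, Pi.zero_apply]

theorem nd_LIN {ε : ZMod 3} {C : AddSubgroup Pt} (h : Fo ε C) :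
    Un.ND C ∧ (Un.cd C : ZMod 3) = ε := by
  have f : Finite C := Nat.finite_of_card_ne_zero fun e => h.1 (by rw [← h.2, e, Nat.cast_zero])
  have f' : (C : Set Pt).Finite := f
  have e : (Un.cd C : ZMod 3) = ε := by
    rw [Un.cd, Un.els, dif_pos f', ← h.2]
    exact congrArg _ (Set.ncard_eq_toFinset_card _ f').symm
  exact ⟨⟨f, fun d => h.1 (e ▸ (ZMod.natCast_eq_zero_iff _ _).2 d)⟩, e⟩

section

variable {R : Type} [CommRing R] {φ : Zw →+* R} {M : Zw} {n : Finset ℕ} {h : GQ}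

theorem dl_LIN {χ : GQ → ZMod 3} (e : χ h = 0) (P : Pt) : dl φ M χ h P = dl φ M 0 h P := by
  rw [dl, dl, eta_LIN e]

theorem ktG_LIN (hK : KT_st) (G : HS) (w : Wt R) (M0 : M ≠ 0) (hφ : φ M = 0) (hn : Pn n)
    (hh : H1 M n h) : (∀ P : Pt, M • P = 0 → eta 0 h P = P) ∧
      (∀ i, eta 0 h (G.y (Cn n i)) = G.y (Cn n i)) ∧
      G.kt φ M w n h = ∑ i : Jg n, wp w n i.1 * dl φ M 0 h (G.y (Cn n i.1)) := by
  have K := hK G R φ M w n M0 hφ hn
  obtain ⟨a, c⟩ := K.2.2.2.2.1 h hh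
  have a1 := K.2.2.2.2.2.1 _ h a
  obtain ⟨f, k, -⟩ := K.2.2.2.2.2.2.2.2 h a1
  have a2 := a1.2.1
  rw [eta_LIN c] at a2 f
  exact ⟨a2, f, k.trans (sum_congr rfl fun i _ => by rw [dl_LIN c])⟩

theorem ktN_LIN (hK : N.KT_st) (H : N.HS) (w : Wt R) (M0 : M ≠ 0) (hφ : φ M = 0) (hn : Pn n)
    (hh : H1 M n h) : (∀ i, eta 0 h (H.y (Cn n i)) = H.y (Cn n i)) ∧
      H.kt φ M w n h = ∑ i : Jg n, wp w n i.1 * dl φ M 0 h (H.y (Cn n i.1)) := by
  have K := hK H R φ M w n M0 hφ hn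
  obtain ⟨a, c⟩ := K.2.2.2.2.1 h hh
  obtain ⟨f, k, -⟩ := K.2.2.2.2.2.2.2.2 h (K.2.2.2.2.2.1 _ h a)
  rw [eta_LIN c] at f
  exact ⟨f, k.trans (sum_congr rfl fun i _ => by rw [dl_LIN c])⟩

theorem bb_LIN (hφ : φ pw = 0) (k : ZMod 3) : φ (bb k) = -(k.val : R) := by
  have φw : φ ω = 1 := by
    obtain ⟨c, hc⟩ := pw_w
    rw [← sub_eq_zero, ← map_one φ, ← map_sub, hc, map_mul, hφ, zero_mul]
  simp [bb, φw]

end

theorem yj_LIN (j : ZMod 3) (z : Qb) (C : AddSubgroup Pt) : yj j z C =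
    yj 0 z C + ∑ p : I6, bb (-(p.1 * (j * Un.cd C))) • pf z (gr C p) := by
  simp [yj, bb]

theorem LIN_pf (hDL : DL_st) (hKN : N.KT_st) (hKG : KT_st) (hCN : CN_st) (hP : X.KPI_st)
    (hGR : GR_st) (hF : FGAL_st) (hY : YJ_st) (hR : RESD_st) (hN : Un.NON_st) : LIN_st := by
  intro R _ φ w n j z G G₀ H hn hz hG
  have nd := fun i => nd_LIN (hCN n i hn).2.1
  refine ⟨fun hφ hG₀ hH h hh => ?_, fun M M0 hφ hH h hh => ?_⟩
  · obtain ⟨a, -, k⟩ := ktG_LIN hKG G w pw_ne hφ hn hh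
    obtain ⟨-, f₀, k₀⟩ := ktG_LIN hKG G₀ w pw_ne hφ hn hh
    obtain ⟨f₁, k₁⟩ := ktN_LIN hKN H w pw_ne hφ hn hh
    have hg : h ∈ GK := hh.1.1
    obtain ⟨-, -, d1, d2, d3⟩ := ((hDL R φ pw pw_ne hφ).2.2.2.2.2.2.2.2 0 h hg).2.2 a
    obtain ⟨ψ, hψ⟩ := psi_SPL hφ
    rw [k, k₀, k₁, mul_sum, ← sum_add_distrib, hG]
    rw [hG₀] at f₀ ⊢
    rw [hH] at f₁ ⊢
    refine sum_congr rfl fun i _ => ?_
    obtain ⟨c1, c2⟩ := nd i.1
    have eC : (Cn n i.1).map (gal h) = Cn n i.1 := ((hCN n i.1 hn).2.2.2.1 h hg).trans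
      (Cn_SPL fun l hl => by rw [Pi.add_apply, Av, hh.2 l hl, add_zero])
    replace f₀ := f₀ i.1
    replace f₁ := f₁ i.1
    generalize Cn n i.1 = C at *
    obtain ⟨-, r1, r2⟩ := hR z C h hz c1 (UM_mono (dvd_mul_right _ _) hh.1) eC
    have r3 : ∀ p, eta 0 h (pf z (gr C p)) = pf z (gr C p) := fun p => by
      rw [eta_apply, r1, Pi.zero_apply, ZMod.val_zero, pow_zero, one_smul]
    have r4 : ∀ (b : Zw) p, eta 0 h (b • pf z (gr C p)) = b • pf z (gr C p) := fun b p => by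
      rw [eta_smul _ hg, r3]
    obtain ⟨o, -, -, -, x0, -⟩ := hN 0 C c1
    have D := fun p => (dlP_SPL hDL hP hφ 0 hg rfl (hF z _ hz ((hGR C c1).1 p).1).1 (r3 p)).1
    rw [yj_LIN, (d1 _ _ f₀ (by rw [map_sum]; exact sum_congr rfl fun p _ => r4 _ p)).1,
      d3 _ _ _ fun p _ => r4 _ p, sum_congr rfl fun p _ => d2 _ _ (r3 p),
      (dlP_SPL hDL hP hφ 0 hg rfl (P := Un.ny 0 C) ((xc_pt o).trans_ne x0) f₁).1, ← r2, c2]
    simp only [D, bb_LIN hφ, hψ, map_neg, map_mul, map_sum, neg_neg]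
    rw [mul_add, ← sum_neg_distrib, sum_mul, mul_sum, mul_sum, mul_sum, add_right_inj]
    exact sum_congr rfl fun p _ => by ring
  · obtain ⟨a, f, k⟩ := ktG_LIN hKG G w M0 hφ hn hh
    obtain ⟨-, k₁⟩ := ktN_LIN hKN H w M0 hφ hn hh
    have hg : h ∈ GK := hh.1.1
    obtain ⟨-, -, -, d2, -⟩ := ((hDL R φ M M0 hφ).2.2.2.2.2.2.2.2 0 h hg).2.2 a
    rw [k, k₁, mul_sum, hH]
    refine sum_congr rfl fun i _ => ?_
    rw [← ((hY j z hz).1 _ (nd i.1).1).1, ← hG, d2 _ _ (by rw [eta_smul _ hg, f]), d2 _ _ (f _)]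
    ring

end Pool.Agent.MP_e23604_nt.N.G

end
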