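import Pool.Agent.Mg.Fe23604m.G1bd87d
import Pool.Agent.Mg.Fe23604m.Gad4bd4
import Pool.Agent.Mg.Fe23604m.G3a9098

set_option linter.all false

section

/-!
The congruence relation for the fourth family of Heegner points.
-/

set_option autoImplicit false

open Finset QuadraticAlgebra
open scoped Classical

namespace Pool.Agent.MP_e23604_nt.PH

open B R S W Un NC

section

variable {V : Plc} {C : AddSubgroup Pt} {T : Pt} {z : Qb}

theorem one_FCG {x : Qb} {n : ℕ} (hn : n ≠ 0) (h : V.v (x ^ n) = 1) : V.v x = 1 :=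
  (pow_eq_one_iff_of_nonneg (V.v.nonneg _) hn).1 (map_pow V.v x n ▸ h)

theorem kk_FCG (hR : RZ_st) (h : CD V C T) (hz : Rz z) : V.v z ≤ 1 ∧ V.v (kk C z) = 1 := by
  obtain ⟨P, rfl, -, -, -, p1, p2, -⟩ := (hR.2 z hz).2.2.2.2.2.2.2.2.2.2
  have g : Gd P := Gd.of (b := (3 : ℕ)) (by
    rw [Nat.cast_smul_eq_nsmul]
    rcases xc_eq p2 T0_ne (p1.trans xc_T0.1.symm) with e | e <;> rw [e]
    exacts [Gd_T0, Gd_T0.neg])
  refine ⟨(not_E1.1 (g.nE1 V)).2, ?_⟩
  rw [kk, map_prod]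
  refine prod_eq_one fun S hS => ?_
  rw [mem_erase, mem_els h.nd.fin] at hS
  have := SEP_ok (cd C) V P S (fun e => h.nd.c3 (Nat.prime_three.dvd_of_dvd_pow
    (nn_nat _ ▸ pw_dvd_iff.1 e))) (not_Ov_nat h.nl) g (cd_smul h.nd.fin hS.2) hS.1
  rw [v_nine h.three] at this
  exact le_antisymm this.2 this.1

theorem df_FCG (hR : RZ_st) (h : CD V C T) (hz : Rz z) :
    V.v (z - s2 z) = 1 ∧ V.v (s1 z - z) = 1 := by
  obtain ⟨r1, r2, -, -, -, e, -⟩ := hR.2 z hz
  have a0 := (kk_FCG hR h hz).1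
  have a1 := (kk_FCG hR h r1).1
  have a2 := (kk_FCG hR h r2).1
  have e1 := one_FCG (V := V) two_ne_zero (by
    rw [e, show (81 : Qb) = 9 ^ 2 by norm_num, map_pow, v_nine h.three, one_pow])
  have e2 : 1 ≤ V.v ((z - s2 z) * (s1 z - z)) :=
    (mul_comm _ (s2 z - s1 z) ▸ e1).ge.trans (bLocA_mul_le (bLocA_sub_le V.na a2 a1))
  exact ⟨le_antisymm (bLocA_sub_le V.na a0 a2)
      ((mul_comm (z - s2 z) _ ▸ e2).trans (bLocA_mul_le (bLocA_sub_le V.na a1 a0))),
    le_antisymm (bLocA_sub_le V.na a1 a0) (e2.trans (bLocA_mul_le (bLocA_sub_le V.na a0 a2)))⟩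

theorem pE_FCG (hR : RZ_st) (h : CD V C T) (hz : Rz z) : V.v (pE z C) = 1 ∧
    Cg V (pE z (C ⊔ AddSubgroup.zmultiples T) / kk (AddSubgroup.zmultiples T) 0 ^ 3)
      (pE z C ^ V.l) := by
  have a0 := kk_FCG hR h hz
  have a1 := kk_FCG hR h (hR.2 z hz).1
  have d := (df_FCG hR h hz).1
  refine ⟨by simp [pE, a0.2, a1.2, d], ?_⟩
  have := (((Cg.rfl' d.le).pow (2 * cd C * V.l)).mul (h.kkL a0.1).2.1).mul
    ((h.kkL a1.1).2.1.pow 2)
  convert this using 1
  · rw [pE, h.sup.2]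
    ring
  · rw [pE]
    ring

theorem t_FCG (h : CD V C T) : V.v (3 * cbr 3) = 1 := by
  rw [map_mul, v_three h.three, one_mul]
  exact one_FCG three_ne_zero (by rw [cbr_cube, Rat.cast_ofNat, v_three h.three])

theorem pD_FCG (hR : RZ_st) (h : CD V C T) (hz : Rz z) : V.v (pD z C) = 1 ∧
    Cg V (pD z (C ⊔ AddSubgroup.zmultiples T) / kk (AddSubgroup.zmultiples T) 0 ^ 3)
      (pD z C ^ V.l) := by
  have a0 := kk_FCG hR h hz
  have a1 := kk_FCG hR h (hR.2 z hz).1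
  have a2 := kk_FCG hR h (hR.2 z hz).2.1
  have d := t_FCG h
  refine ⟨by simp only [pD, map_mul V.v (_ ^ _), map_pow, d, map_mul V.v _ (kk _ _), a0.2, a1.2,
    a2.2, one_pow, one_mul], ?_⟩
  have := ((Cg.rfl' d.le).pow (cd C * V.l)).mul
    (((h.kkL a0.1).2.1.mul (h.kkL a1.1).2.1).mul (h.kkL a2.1).2.1)
  convert this using 1
  · rw [pD, h.sup.2]
    ring
  · rw [pD]
    ring

theorem xw_FCG (i : ℕ) (S : Pt) : xc ((ω : Zw) ^ i • S) = w3 ^ i * xc S := by
  induction i with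
  | zero => simp
  | succ i ih => rw [pow_succ', mul_smul, (xc_w _).1, ih, pow_succ', mul_assoc]

theorem al_FCG (h : CD V C T) (i : ℕ) : kk (AddSubgroup.zmultiples ((ω : Zw) ^ i • T)) 0 =
    (w3 ^ (V.l - 1)) ^ i * kk (AddSubgroup.zmultiples T) 0 := by
  obtain ⟨f, e⟩ := card_line V.hl.out h.lR h.R0
  have n : ND (AddSubgroup.zmultiples T) := ⟨f, fun d => by
    have := h.l3
    omega⟩
  have := (map_nd (f := DistribSMul.toAddMonoidHom Pt ((ω : Zw) ^ i)) n
    fun S _ e => (unit_smul (w_unit.pow i)).1 e).2.2 0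
  rw [AddMonoidHom.map_zmultiples] at this
  refine this.trans ?_
  rw [kk, ← pow_mul, mul_comm _ i, pow_mul, ← e, ← card_erase n, ← prod_const, ← prod_mul_distrib]
  exact prod_congr rfl fun S _ => by
    rw [DistribSMul.toAddMonoidHom_apply, xw_FCG]
    ring

theorem pM_FCG (hR : RZ_st) (hG : GR_st) (h : CD V C T) (hz : Rz z) : V.v (pM z C) = 1 ∧
    Cg V (pM z (C ⊔ AddSubgroup.zmultiples T)) (((3 * cbr 3) ^ (V.l - 1)) ^ 2 * pM z C ^ V.l) := by
  obtain ⟨g1, -, -, -, -, -, g2⟩ := hG C h.nd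
  have r2 := (hR.2 z hz).2.1
  have v0 : V.v 0 ≤ 1 := by simp
  have hp : ∀ p : I6, CD V (gr C p) (((ω : Zw) ^ p.1.val * pw ^ p.2.val) • T) := fun p =>
    ⟨h.l3, (g1 p).1, (g1 p).2 ▸ h.nl, by rw [smul_comm, h.lR, smul_zero], fun e => h.R0
      (E1_tor (E1_l h.l3 h.lR) (fun k => h.three (Ov_three.2 (Ov_pow k)))
        ((unit_smul (w_unit.pow _)).1 ((mul_smul _ _ T).symm.trans e)))⟩
  have d := df_FCG hR h hz
  have dρ : V.v ((z - s2 z) / (s1 z - z)) = 1 := by rw [map_div₀, d.1, d.2, div_one]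
  have t := t_FCG h
  have u : V.v (∏ p, kk (gr C p) (s2 z)) = 1 := by
    rw [map_prod]
    exact prod_eq_one fun p _ => (kk_FCG hR (hp p) r2).2
  refine ⟨by simp only [pM, map_div₀ V.v (_ * _), map_mul V.v (_ ^ _), map_pow, dρ, t, u,
    map_mul V.v (kk _ _), h.kk0, h.pi.kk0, one_pow, one_mul, div_one], ?_⟩
  have hm : mC pw (C ⊔ AddSubgroup.zmultiples T) = mC pw C ⊔ AddSubgroup.zmultiples (pw • T) := by
    rw [mC, AddSubgroup.map_sup, AddMonoidHom.map_zmultiples]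
    rfl
  have e : ∏ p : I6, kk (AddSubgroup.zmultiples (((ω : Zw) ^ p.1.val * pw ^ p.2.val) • T)) 0 =
      (kk (AddSubgroup.zmultiples T) 0 * kk (AddSubgroup.zmultiples (pw • T)) 0) ^ 3 := by
    have w : (w3 ^ (V.l - 1)) ^ 3 = 1 := by rw [← pow_mul, mul_comm, pow_mul, w3_cube, one_pow]
    rw [Fintype.prod_prod_type]
    change ∏ i : Fin 3, ∏ j : Fin 2,
      kk (AddSubgroup.zmultiples (((ω : Zw) ^ i.val * pw ^ j.val) • T)) 0 = _
    simp only [Fin.prod_univ_two, Fin.val_zero, Fin.val_one, pow_zero, pow_one, mul_smul,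
      one_smul, al_FCG h, al_FCG h.pi, Fin.prod_univ_three, Fin.val_two]
    generalize w3 ^ (V.l - 1) = x at w
    linear_combination (kk (AddSubgroup.zmultiples T) 0 *
      kk (AddSubgroup.zmultiples (pw • T)) 0) ^ 3 * (x ^ 3 + 1) * w
  have := (((Cg.rfl' dρ.le).pow (4 * cd C * V.l)).mul (((Cg.rfl' t.le).pow
    (2 * (V.l * cd C - 1))).mul (((h.kkL v0).2.1.mul (h.pi.kkL v0).2.1).pow 3))).div
    (Cg.prod (s := univ) fun p _ => ((hp p).kkL (kk_FCG hR h r2).1).2.1)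
    (by rw [prod_pow, map_pow, u, one_pow])
  have l0 := (h.kkL v0).1
  have l1 := (h.pi.kkL v0).1
  convert this using 1
  · simp only [pM, h.sup.2, hm, g2, prod_div_distrib, e, div_div_eq_mul_div]
    congr 1
    field_simp
    ring
  · obtain ⟨a, ha⟩ := Nat.exists_eq_add_of_le'
      (Nat.pos_of_ne_zero fun e : cd C = 0 => h.nd.c3 (e ▸ dvd_zero 3))
    obtain ⟨b, hb⟩ := Nat.exists_eq_add_of_le' V.hl.out.one_le
    rw [pM, prod_pow, ha, hb, show (b + 1) * (a + 1) - 1 = b * a + b + a by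
      rw [show (b + 1) * (a + 1) = b * a + b + a + 1 by ring, Nat.add_sub_cancel]]
    simp only [Nat.add_sub_cancel]
    generalize (z - s2 z) / (s1 z - z) = ρ
    generalize 3 * cbr 3 = t
    ring

end

theorem FCG_pf (hR : RZ_st) (hG : GR_st) (hF : FGAL_st) : FCG_st := by
  intro V f z C T h3 hf hz hC hl hT h0
  have h : CD V C T := ⟨h3, hC, hl, hT, h0⟩
  have fr : ∀ {x : Qb}, V.v x = 1 → Cg V (x ^ V.l) (f x) := fun {x} e =>
    (Cg.mk' (by rw [map_pow, e, one_pow]) (hf.2 x e.le)).symm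
  have fv : ∀ x : Qb, V.v (f x) = V.v x := hf.1
  have cu : ∀ {a b : Qb}, Cg V a b → V.v b = 1 → Cu V a b := fun k e => ⟨k.unit e, e, k.2.2⟩
  have ne : ∀ {a : Qb}, V.v a = 1 → a ≠ 0 := fun e x => by simp [x] at e
  obtain ⟨r1, r2, -⟩ := hR.2 z hz
  obtain ⟨x0, -, y1, y2, y3, -⟩ := hF z C hz hC
  obtain ⟨x0', -, y1', y2', y3', -⟩ := hF z _ hz h.sup.1
  have l0 := pow_ne_zero 3 (h.kkL (z := 0) (by simp)).1
  obtain ⟨a0, b0⟩ := pE_FCG hR h hz
  obtain ⟨a1, b1⟩ := pE_FCG hR h r1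
  obtain ⟨a2, b2⟩ := pE_FCG hR h r2
  obtain ⟨a3, b3⟩ := pD_FCG hR h hz
  obtain ⟨a4, b4⟩ := pM_FCG hR hG h hz
  replace b0 := b0.trans (fr a0)
  replace b1 := b1.trans (fr a1)
  replace b2 := b2.trans (fr a2)
  replace b3 := (b3.trans (fr a3)).pow 2
  have dv : ∀ {y y' c c' d d' m : Qb}, m ≠ 0 → y * c = d → y' * c' = d' → V.v c = 1 →
      Cg V (c' / m) (f c) → Cg V (d' / m) (f d) → Cg V y' (f y) :=
    fun {y y' c c' d d' m} m0 e e' c1 k k' => by
      have := k'.div k ((fv c).trans c1)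
      rwa [div_div_div_cancel_right₀ m0, ← map_div₀, ← e, ← e', mul_div_cancel_right₀ _ (ne c1),
        mul_div_cancel_right₀ _ fun x => ne (k.unit ((fv c).trans c1)) (by rw [x, zero_div])] at this
  have cY : Cg V (yc (pf z (C ⊔ AddSubgroup.zmultiples T))) (f (yc (pf z C))) :=
    Cg.root (by simpa only [map_pow] using dv l0 y1 y1' a1 b1 b0)
      (by simpa only [map_pow, map_add, map_one] using dv l0 y2 y2' a1 b1 b2)
  have c2 := dv (pow_ne_zero 2 l0) y3 y3' (by rw [map_pow, a3, one_pow])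
    (by rwa [div_pow, ← map_pow] at b3) (by
      simpa only [div_mul_div_comm, ← map_mul, ← sq] using b0.mul b2)
  have vY : V.v (f (yc (pf z C))) = 1 := (fv _).trans (one_FCG two_ne_zero (by
    have := congrArg V.v y1
    rwa [map_mul, a1, a0, mul_one] at this))
  have v2 : V.v (xc (pf z C) ^ 2) = 1 := by
    have := congrArg V.v y3
    rwa [map_mul, map_mul, map_pow V.v (pD z C), a3, a0, a2, one_pow, mul_one, mul_one] at this
  have vX := (fv _).trans (one_FCG two_ne_zero v2)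
  have cX : Cg V (xc (pf z (C ⊔ AddSubgroup.zmultiples T))) (f (xc (pf z C))) := by
    have := ((cY.pow 2).add cY).div c2 ((fv _).trans v2)
    rwa [← map_pow, ← map_add, xy_eq, xy_eq, ← map_div₀, pow_succ' _ 2, pow_succ' _ 2,
      mul_div_cancel_right₀ _ (pow_ne_zero 2 x0), mul_div_cancel_right₀ _ (pow_ne_zero 2 x0')] at this
  refine ⟨h.sup.1, h.sup.2, cu cX vX, cu cY vY, CLO_ok V _ _ ?_ ?_ ?_ ?_, cu (b4.trans ?_) ?_⟩
  · exact not_E1.2 ⟨fun e => x0' (by rw [e, xc_zero]), cX.1⟩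
  · exact not_E1.2 ⟨fun e => x0 (by rw [(gal_ne f).1 e, xc_zero]), (xc_gal f _).1 ▸ vX.le⟩
  · rw [(xc_gal f _).1, v_three h.three]
    exact cX.2.2
  · rw [(xc_gal f _).2, v_three h.three]
    exact cY.2.2
  · have t := t_FCG h
    have := (fr t).div (Cg.rfl' t.le) t
    rw [map_mul, map_ofNat, act_SKAP three_ne_zero, mul_left_comm, mul_div_cancel_right₀ _ (ne t),
      ← Nat.sub_add_cancel V.hl.out.one_le, pow_succ, mul_div_cancel_right₀ _ (ne t)] at this
    exact (pow_mul' w3 2 _ ▸ this.pow 2).mul (fr a4)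
  · rw [map_mul, map_pow, v_w3, one_pow, fv, a4, one_mul]

end Pool.Agent.MP_e23604_nt.PH

end

section

/-!
Formal properties of the divided points.
-/

set_option autoImplicit false

open Finset QuadraticAlgebra
open scoped Classical

namespace Pool.Agent.MP_e23604_nt.PH

open B R S W Un

theorem pw_YJ (k : ZMod 3) : pw * bb k = ω ^ k.val - 1 := by
  revert k
  decide

theorem rot_YJ (i J : ZMod 3) :
    bb (-(i * J)) = ω ^ J.val * bb (-((i + 1) * J)) + bb J := by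
  revert i J
  decide

theorem star_YJ (k : ZMod 3) : star (bb (-k)) = -bb k := by
  revert k
  decide

theorem mod_YJ (J n : ZMod 3) (m : ℕ) (h : (m : ZMod 3) = n) :
    bb J • m • T0 + (J * n).val • T0 = 0 := by
  have h2 : ∀ J n : ZMod 3, nw (bb J * (n.val : ℤ) + ((J * n).val : ℤ)) % 3 = 0 := by decide
  have h3 : 3 • T0 = 0 := (Nat.cast_smul_eq_nsmul Zw 3 T0).symm.trans three_T0
  rw [nsmul_eq_mod_nsmul m h3, ← ZMod.val_natCast, h, ← Nat.cast_smul_eq_nsmul Zw,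
    ← Nat.cast_smul_eq_nsmul Zw, ← mul_smul, ← add_smul]
  refine dvd_smul pw_T0 (pw_dvd_iff.2 ?_)
  have := h2 J n
  rw [← nn_cast] at this
  push_cast at this
  omega

theorem sum_YJ (J : ZMod 3) : (∑ p : I6, bb (-(p.1 * J))) • T0 = 0 := by
  refine dvd_smul pw_T0 (pw_dvd_iff.2 ?_)
  revert J
  decide

theorem YJ_pf (RZ : RZ_st) (GR : GR_st) (FGAL : FGAL_st) (FCG : FCG_st) (FTL : FTL_st)
    (YZ : YZ_st) : YJ_st := by
  intro j z hz
  obtain ⟨y1, y2⟩ := YZ z hz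
  have pp : ∀ C, ND C → pw • pw • yj j z C = yp j z C := fun C hC => by
    rw [yj, yp, smul_add pw (y0 z C), (y1 C hC).1, smul_sum]
    simp only [← mul_smul, pw_YJ, sub_smul, one_smul, sum_sub_distrib]
    rw [add_right_comm, add_sub_cancel, smul_add, smul_comm pw _ T0, pw_T0, smul_zero, add_zero]
  have cop : ∀ (l : ℕ) (p : I6), l.Prime → l % 3 = 2 →
      IsCoprime ((ω : Zw) ^ p.1.val * pw ^ p.2.val) l := fun l p hl h3 => by
    refine IsCoprime.mul_left (IsCoprime.pow_left ⟨ω ^ 2, 0, by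
      rw [zero_mul, add_zero]; decide⟩) (IsCoprime.pow_left ?_)
    refine pw_prime.coprime_iff_not_dvd.2 fun e => ?_
    rw [pw_dvd_iff, nn_nat] at e
    have := Nat.prime_three.dvd_of_dvd_pow e
    omega
  refine ⟨fun C hC => ⟨pp C hC, ?_, fun g hg => ?_⟩, fun C l ι _ T hC hl h3 hn t1 t2 t3 => ?_,
    fun V f ε h3 hf => ?_⟩
  · obtain ⟨-, -, g1, g2, -⟩ := GR C hC
    have e := mod_YJ (j * cd C) (cd C - 1) (cd C - 1) (by
      rw [Nat.cast_sub (cd_pos hC.fin), Nat.cast_one])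
    have e1 : (ω : Zw) ^ (j * cd C).val • y0 z C = bb (j * cd C) • pw • y0 z C + y0 z C := by
      rw [← mul_smul, mul_comm _ pw, pw_YJ, sub_smul, one_smul, sub_add_cancel]
    have hs : ∀ F : I6 → Pt, ∑ p, F p = ∑ p : I6, F (p.1 + 1, p.2) := fun F => (Equiv.sum_comp
      (Equiv.prodCongr (Equiv.addRight (1 : ZMod 3)) (Equiv.refl (ZMod 2))) F).symm
    rw [yj, yj, (y1 C hC).2.1, g1, smul_add, e1, (y1 C hC).1, smul_add,
      eq_neg_of_add_eq_zero_left e, hs fun p => pf z (gr C p),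
      hs fun p => bb (-(p.1 * (j * cd C))) • pf z (gr C p), smul_sum, smul_sum,
      sum_congr rfl fun p _ => by rw [g2, rot_YJ, add_smul, mul_smul], sum_add_distrib]
    abel
  · obtain ⟨-, -, -, -, -, g1, -⟩ := GR C hC
    obtain ⟨r1, -, -, -, -, -, -, r2, r3, -⟩ := RZ.2 z hz
    obtain ⟨a, ha⟩ : ∃ a : ℕ, ∀ D, ND D → pf (g z) D = pf z D + a • T0 := by
      have f := fun z hz D hD => (FGAL z D hz hD).2.2.2.2.2.1
      rcases r2 _ (r3 g).1 with e | e | e
      · exact ⟨0, fun D _ => by rw [e, zero_smul, add_zero]⟩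
      · exact ⟨1, fun D hD => by rw [e, one_smul, f z hz D hD]⟩
      · exact ⟨2, fun D hD => by rw [e, s2, f _ r1 D hD, f z hz D hD, two_smul, add_assoc]⟩
    have e : ∀ p, (ω : Zw) ^ (cd C * (kum 3 g).val) • gal g (pf z (gr C p)) =
        pf z (gr (C.map (gal g)) p) + a • T0 := fun p => by
      obtain ⟨n1, n2⟩ := (GR C hC).1 p
      obtain ⟨f1, -, f2, -⟩ := (FGAL z _ hz n1).2.2.2.2.2.2 g
      rw [f2, ← mul_smul, ← pow_add, n2, g1 g hg, ha _ f1,
        show cd C * (kum 3 g).val + 2 * cd C * (kum 3 g).val = 3 * (cd C * (kum 3 g).val) by ring,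
        pow_mul, www, one_pow, one_smul]
    rw [yj, yj, map_add, smul_add, (y1 C hC).2.2 g hg, map_sum, smul_sum,
      ((FGAL z C hz hC).2.2.2.2.2.2 g).2.1]
    simp only [gal_smul hg, smul_comm (ω ^ (cd C * (kum 3 g).val) : Zw) (bb _), e, smul_add,
      sum_add_distrib]
    rw [← sum_smul, smul_comm _ a, sum_YJ, smul_zero, add_zero]
  · have L : HN.Lf l T := ⟨fun i => (t1 i).1, fun i => (t1 i).2, t2, t3⟩
    have a1 := fun i => (NPR_pf C l _ hC hl (by omega) (L.nbs hl hC.fin hn)).2.1 _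
      (mem_image_of_mem T (mem_univ i))
    have e : ∀ p : I6, (3 : Zw) • ∑ i, pf z (gr (C ⊔ AddSubgroup.zmultiples (T i)) p) = 0 :=
      fun p => by
        obtain ⟨n1, n2⟩ := (GR C hC).1 p
        have L' := L.smul hl (cop l p hl h3)
        have := FTL z _ l _ hz n1 hl h3 (n2 ▸ hn) (L'.nbs hl n1.fin (n2 ▸ hn))
        rw [sum_image L'.inj'.injOn] at this
        simpa only [(GR C hC).2.2.2.2.2.2] using this
    rw [show (9 : Zw) = -3 * (pw * pw) by decide, mul_smul, smul_sum]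
    simp only [mul_smul, pp _ (a1 _).1, yp, (a1 _).2]
    rw [← smul_sum, sum_comm, smul_comm, neg_smul, smul_sum]
    simp only [← smul_sum, smul_comm (3 : Zw), e, smul_zero, sum_const_zero, neg_zero]
  · obtain ⟨e, e3, he⟩ := y2 V f ε h3 hf
    refine ⟨e, e3, fun C T hC h1 h2 t1 t2 => ?_⟩
    have fK := LOC_ok.2.1 V.l V.γ f h3 hf
    have c1 : j * (cd (C ⊔ AddSubgroup.zmultiples T) : ZMod 3) = -(j * cd C) := by
      rw [(FCG V f z C T h3 hf hz hC h2 t1 t2).2.1, Nat.cast_mul, ← ZMod.natCast_mod V.l 3, h3,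
        show ((2 : ℕ) : ZMod 3) = -1 by decide]
      ring
    have k : E1 V.v (∑ p : I6, bb (p.1 * (j * cd C)) •
        (pf z (gr (C ⊔ AddSubgroup.zmultiples T) p) - gal f (pf z (gr C p)))) := by
      refine sum_induction _ _ (fun _ _ => E1a) ((E1_iff _ _).2 (Or.inl rfl)) fun p _ => ?_
      obtain ⟨n1, n2⟩ := (GR C hC).1 p
      rw [(GR C hC).2.2.2.2.2.2]
      exact (E1m (FCG V f z _ _ h3 hf hz n1 (n2 ▸ h2) (by rw [smul_comm, t1, smul_zero])
        fun e => t2 (cop_smul (cop _ p V.hl.out h3) e t1)).2.2.2.2.1 _).1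
    have := E1a (he C T hC h1 h2 t1 t2) k
    rw [yj, yj, c1, map_add, map_sum]
    simp only [gal_star fK, star_YJ, mul_neg, neg_neg, neg_smul, sum_neg_distrib, smul_sub,
      sum_sub_distrib] at this ⊢
    convert this using 1
    abel

end Pool.Agent.MP_e23604_nt.PH

end
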