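import Pool.Agent.Mg.Fe23604m.G1f36ac
import Pool.Agent.Mg.Fe23604m.Gf509f6
import Pool.Agent.Mg.Fe23604m.G8b9a0e
import Pool.Agent.Mg.Fe23604m.Gad4bd4

set_option linter.all false

/-!
The Hecke relation for the fourth family of points.
-/

set_option autoImplicit false

open Finset QuadraticAlgebra
open scoped Classical

namespace Pool.Agent.MP_e23604_nt.PH

open B R S W Un

variable {C : AddSubgroup Pt} {L : PeriodPair} {P Q T : Pt} {z w : ℂ}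

theorem mem_FT (l : LC C L) (e : ue z = iC T) : z ∈ L.lattice ↔ T ∈ C := by
  rw [l, e]
  exact ⟨fun ⟨_, a, b⟩ => iC_inj b ▸ a, fun a => ⟨T, a, rfl⟩⟩

theorem ue_sub_FT (z w : ℂ) : ue (z - w) = ue z - ue w := map_sub uE z w

theorem vX_FT (l : LC C L) (h : (C : Set Pt).Finite) (e : ue z = iC P) (e' : ue w = iC T) :
    eC (Z.vX C T P) = dX L w z := by
  have r : Rep L0 L (XC C) := by
    refine ⟨fun z hz => (l z).2 ⟨0, zero_mem _, (ue_eq_zero.2 hz).trans (map_zero _).symm⟩,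
      fun x hx => ?_, fun y hy => ?_⟩
    · obtain ⟨T, hT, rfl⟩ := mem_image.1 hx
      exact l.lg.2 ((mem_els h).1 hT)
    · obtain ⟨T, hT, e⟩ := (l y).1 hy
      refine ⟨lg T, ⟨mem_image_of_mem _ ((mem_els h).2 hT), by rwa [← ue_eq, ue_lg]⟩, ?_⟩
      rintro _ ⟨a, b⟩
      obtain ⟨T', -, rfl⟩ := mem_image.1 a
      rw [← ue_eq, ue_lg, e] at b
      rw [iC_inj b]
  have k : ∀ {z P}, ue z = iC P → ∀ c : Pt, wp L0 (z + lg c) = eC (xc (P + c)) :=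
      fun {z P} e c => by
    have m : z + lg c - lg (P + c) ∈ L0.lattice := by
      rw [← ue_eq, ue_add, ue_lg, ue_lg, e, map_add]
    rw [← lg_x, ← wp_per (z := lg (P + c)) m, add_sub_cancel]
  rw [dX, r.wp_eq, r.wp_eq, XC, sum_image lg_inj.injOn, sum_image lg_inj.injOn, Z.vX]
  simp only [k e, k e', map_sub, map_sum, sum_sub_distrib]
  ring

theorem rot_FT (hP : P ≠ 0) (hQ : Q ≠ 0) (e : yc P = yc Q) : ∃ k : ℕ, P = (ω : Zw) ^ k • Q := by
  have a : (xc P - w3 ^ 0 * xc Q) * (xc P - w3 ^ 1 * xc Q) * (xc P - w3 ^ 2 * xc Q) = 0 := by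
    linear_combination xy_eq Q - xy_eq P + (yc P + yc Q + 1) * e +
      (-xc P ^ 2 * xc Q + xc P * xc Q ^ 2 * w3 - xc Q ^ 3 * (w3 - 1)) * w3_spec
  obtain ⟨k, a⟩ : ∃ k : ℕ, xc P - w3 ^ k * xc Q = 0 := by
    simp only [mul_eq_zero] at a
    rcases a with (a | a) | a <;> exact ⟨_, a⟩
  have b := w_pow_pt_T (on_xy hQ).1 k
  rw [← (on_xy hQ).2, ← sub_eq_zero.1 a, ← e, ← (on_xy hP).2] at b
  exact ⟨k, b.2.symm⟩

theorem sup_FT {N : ℕ} (hC : ∀ T ∈ C, N • T = 0) (hP : N • P = 0) :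
    ∀ T ∈ C ⊔ AddSubgroup.zmultiples P, N • T = 0 := fun _ hT =>
  (sup_le (c := (nsmulAddMonoidHom N).ker) hC (AddSubgroup.zmultiples_le_of_mem hP) hT :)

theorem fin_FT {N : ℕ} (hN : N ≠ 0) (hC : ∀ T ∈ C, N • T = 0) : (C : Set Pt).Finite :=
  (tor (N : Zw)).finite_toSet.subset fun T hT => (mem_tor (Nat.cast_ne_zero.2 hN)).2
    ((Nat.cast_smul_eq_nsmul Zw N T).trans (hC T hT))

/-- the comparison of the two points -/
theorem FY_pf (hR : RZ_st) (hF : FGAL_st) {ξ : Qb} (hz : Rz ξ) : ∃ P R S : Pt, 9 • P = 0 ∧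
    27 • R = 0 ∧ 3 • S = 0 ∧ ∀ C, ND C → Z.DD (C ⊔ AddSubgroup.zmultiples P) S R ∧
      ∃ u : Zw, IsUnit u ∧ Z.Hp (C ⊔ AddSubgroup.zmultiples P) S R = u • pw • pf ξ C := by
  obtain ⟨-, -, -, -, -, -, -, -, -, -, P, x1, x4, x2, p9, x3, p3, -⟩ := hR.2 ξ hz
  obtain ⟨ρ, hρ⟩ : ∃ ρ, lg P = 3 * ρ := ⟨lg P / 3, by ring⟩
  have e1 : ue (3 * ρ) = iC P := hρ ▸ ue_lg P
  have e3 : ue (3 * (3 * ρ)) = iC (3 • P) := by rw [map_nsmul, ← e1, ← ue_nat, Nat.cast_ofNat]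
  have e9 : 3 * (3 * (3 * ρ)) ∈ L0.lattice := by
    rw [← ue_eq_zero, ← Nat.cast_ofNat (R := ℂ) (n := 3), ue_nat, Nat.cast_ofNat, e3, ← map_nsmul,
      ← mul_nsmul', p9, map_zero]
  obtain ⟨R, r27, hr⟩ := ex_lg (n := 27) (z := ρ) (by norm_num) (by convert e9 using 1; push_cast; ring)
  rw [← ue_eq, ue_lg] at hr
  have r3 : 3 • R = P := iC_inj (by rw [map_nsmul, hr, ← ue_nat, Nat.cast_ofNat, e1])
  have s3 : 3 • Un.S0 = 0 := by rw [← neg_eq_zero, ← pw_pw, pw_S0, smul_neg, pw_T0, neg_zero]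
  have sx : xc Un.S0 ≠ 0 := by rw [Un.S0, xc_pt on_S0]; norm_num
  have p33 : 3 • 3 • P = 0 := by rw [← mul_nsmul', p9]
  refine ⟨3 • P, R, Un.S0, by rw [smul_comm, p9, smul_zero], r27, s3, fun C h => ?_⟩
  obtain ⟨L, l⟩ := h.ex_LC
  have es := ue_lg Un.S0
  generalize lg Un.S0 = s at es
  have T : Two L (3 * (3 * ρ)) s := by
    refine ⟨(l.rep h).1.le e9, ?_, fun a => p3 (h.three ((mem_FT l e3).1 a) p33),
      fun a => sx (by rw [h.three ((mem_FT l es).1 a) s3, xc_zero]), fun a => sx ?_, fun a => sx ?_⟩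
    · refine (mem_FT l (T := 0) ?_).2 (zero_mem _)
      rw [← s3, map_nsmul, ← es, ← ue_nat, Nat.cast_ofNat]
    · have := h.three ((mem_FT l (T := Un.S0 + 3 • P) (by rw [ue_add, es, e3, map_add])).1 a)
        (by rw [smul_add, s3, p33, add_zero])
      rw [eq_neg_of_add_eq_zero_left this, (xc_neg _).1, x3]
    · have := h.three ((mem_FT l (T := Un.S0 - 3 • P) (by rw [ue_sub_FT, es, e3, map_sub])).1 a)
        (by rw [smul_sub, s3, p33, sub_zero])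
      rw [sub_eq_zero.1 this, x3]
  obtain ⟨e, p⟩ := T.par
  obtain ⟨L', r⟩ := ex_rep3 T.P3 T.P0
  obtain ⟨T', a1, -, -, γ, b1, p', g, -⟩ := Un.flip T p r
  have l' : LC (C ⊔ AddSubgroup.zmultiples (3 • P)) L' := fun z => by
    have m := AddSubgroup.mem_sup_right (S := C) (AddSubgroup.mem_zmultiples (3 • P))
    refine ⟨fun a => ?_, fun ⟨U, a, b⟩ => ?_⟩
    · rcases (rep3_mem r).1 a with a | a | a <;> obtain ⟨U, a, b⟩ := (l _).1 a
      · exact ⟨U, AddSubgroup.mem_sup_left a, b⟩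
      · exact ⟨U + 3 • P, add_mem (AddSubgroup.mem_sup_left a) m, by
          rw [map_add, ← b, ← e3, ← ue_add, sub_add_cancel]⟩
      · exact ⟨U - 3 • P, sub_mem (AddSubgroup.mem_sup_left a) m, by
          rw [map_sub, ← b, ← e3, ← ue_sub_FT, add_sub_cancel_right]⟩
    · obtain ⟨c, hc, _, ⟨k, rfl⟩, rfl⟩ := AddSubgroup.mem_sup.1 a
      have := (mem_FT l (z := z - k • (3 * (3 * ρ))) (T := c) (by
        rw [ue_sub_FT, b, map_add, map_zsmul, ← e3, show ue (k • _) = _ from map_zsmul uE k _]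
        exact add_sub_cancel_right _ _)).2 hc
      simpa using add_mem (r.le this) (L'.lattice.smul_mem k (r.mem (3 * (3 * ρ)) (by simp)))
  have fin := fin_FT (N := 3 * cd C) (C := C ⊔ AddSubgroup.zmultiples (3 • P))
    (by have := h.c3; omega) (sup_FT (fun T hT => by rw [mul_nsmul', h.smul hT, nsmul_zero])
      (by rw [mul_nsmul, p33, nsmul_zero]))
  have ea : ue (s + 3 * ρ) = iC (Un.S0 + P) := by rw [ue_add, es, e1, map_add]
  have eb : ue (s - 3 * ρ) = iC (Un.S0 - P) := by rw [ue_sub_FT, es, e1, map_sub]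
  have T2 := Two.swap_FT T'
  refine ⟨⟨fin, ?_, s3 ▸ zero_mem _, r3 ▸ (mem_FT l' e1).not.1 T2.P0, (mem_FT l' es).not.1 T2.Q0,
    r3 ▸ (mem_FT l' ea).not.1 T2.ad, r3 ▸ (mem_FT l' eb).not.1 T2.sb⟩, ?_⟩
  · rw [show 9 = 3 * 3 from rfl, mul_nsmul, r3]
    exact AddSubgroup.mem_sup_right (AddSubgroup.mem_zmultiples _)
  obtain ⟨f1, f2, f3⟩ := sym_FT T2 (vX_FT l' fin es e1) (vX_FT l' fin ea e1) (vX_FT l' fin eb e1)
    (w := eC (Z.vX _ P R + Z.vX _ P (R + P) + Z.vX _ P (R - P))) (by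
      rw [map_add, map_add, vX_FT l' fin hr.symm e1,
        vX_FT l' fin (z := ρ + 3 * ρ) (by rw [ue_add, ← hr, e1, map_add]) e1,
        vX_FT l' fin (z := ρ - 3 * ρ) (by rw [ue_sub_FT, ← hr, e1, map_sub]) e1])
  rw [Z.Hp, r3, Z.fp]
  generalize Z.vX _ P Un.S0 = x at *
  generalize Z.vX _ P (Un.S0 + P) = y at *
  generalize Z.vX _ P (Un.S0 - P) = z at *
  generalize Z.vX _ P R + Z.vX _ P (R + P) + Z.vX _ P (R - P) = w at *
  have he := p.he
  have q0 := a3_ne T2.P3 T2.P0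
  have g0 : γ ≠ 0 := fun e => a3_ne T.P3 T.P0 (by rw [← g.1, e]; ring)
  have a2 : dA L' (3 * ρ) = dA L (3 * (3 * ρ)) + 6 * γ := by
    rw [p'.aq, a1, b1]
    linear_combination (dA L (3 * (3 * ρ)) + 6 * γ) * (e ^ 4 - 2 * e ^ 3 + 3 * e - 3) / 3 * he
  have b2 : dB L' (3 * ρ) s = dA L (3 * (3 * ρ)) - 3 * γ := by
    have x0 := T'.x_ne
    rw [dB, a2, p'.q0, b1, show dX L' (3 * ρ) s = -dX L' s (3 * ρ) by simp only [dX]; ring]
    field_simp
    linear_combination -3 * γ * (e ^ 4 - 2 * e ^ 3 + 3 * e - 3) * he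
  rw [a2, b2] at f3
  rw [a2] at f1
  rw [b2] at f2
  have F1 := Eq.trans (a := eC (Z.fa x y z)) (by simp only [Z.fa, map_add, map_mul]) f1
  have F2 := Eq.trans (a := eC (Z.fb x y z))
    (by simp only [Z.fb, Z.fa, map_add, map_mul, map_sub, map_ofNat]) f2
  have F3 := Eq.trans (a := eC (Z.fc x y z w) ^ 3) (by simp only [Z.fc, Z.fb, Z.fa, map_add,
    map_mul, map_sub, map_ofNat, map_div₀, map_pow]) f3
  generalize Z.fa x y z = a at *
  generalize Z.fb x y z = b at *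
  generalize Z.fc x y z w = c at *
  have z3 := zc3_spec
  have Y1 : eC ((w3 ^ 2 * b - w3 * a) / (b - a)) = ((zc3 ^ 2 - zc3) * dA L (3 * (3 * ρ)) -
      (3 * zc3 ^ 2 + 6 * zc3) * γ) / (-9 * γ) := by
    rw [map_div₀, map_sub, map_sub, map_mul, map_mul, map_pow, F1, F2, ← zc3, ← mul_sub,
      show dA L (3 * (3 * ρ)) - 3 * γ - (_ + 6 * γ) = -9 * γ by ring]
    field_simp
    ring
  have on : On 0 1 (c / (b - a)) ((w3 ^ 2 * b - w3 * a) / (b - a)) := by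
    refine on_iff.2 (eC.injective ?_)
    rw [map_add, map_pow, map_pow, Y1, map_div₀, div_pow _ _ 3, F3, map_sub, F1, F2, ← mul_sub,
      show dA L (3 * (3 * ρ)) - 3 * γ - (_ + 6 * γ) = -9 * γ by ring]
    field_simp
    clear * - z3
    grind
  obtain ⟨n1, -, n2, n3, -⟩ := hF ξ C hz h
  obtain ⟨μ, μ0, m0, m1, m2⟩ := link_FON hR hz h l x1 x4 x2 p9 x3 p3
  have nm := ((rep3_mem r).not.1 T'.Q0)
  simp only [not_or] at nm
  rw [hρ, show 7 * (3 * ρ) = 3 * ρ - 3 * (3 * ρ) + 3 * (3 * (3 * ρ)) by ring, wp_per T.P3] at m0 m2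
  rw [hρ] at m1
  rw [show 4 * (3 * ρ) = 3 * ρ + 3 * (3 * ρ) by ring] at m1 m2
  have d1 : wp L (3 * ρ + 3 * (3 * ρ)) - wp L (3 * ρ) ≠ 0 := fun e => by
    rw [e, sq, mul_zero, mul_zero, map_eq_zero] at m1
    exact (FON_pf hR ξ C hz h).n3 m1
  have n2' := congrArg eC n2
  have n3' := congrArg eC n3
  rw [map_mul, map_pow, m0, m1] at n2'
  rw [map_mul, map_pow, map_add, map_one, m2, m1] at n3'
  have hY := par_FT (Y := eC (yc (pf ξ C))) T.P3 T.P0 nm.1 nm.2.2 nm.2.1 g d1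
    (mul_left_cancel₀ (mul_ne_zero μ0 d1) (by linear_combination (n3' - n2') / 2))
  have π0 : pw • pf ξ C ≠ 0 := fun e => n1 ((two_API _).1 e)
  have Y2 := congrArg eC (three_API _ n1).2
  have X3 := congrArg eC (xy_eq (pf ξ C))
  have X0 := pow_ne_zero 3 ((map_ne_zero eC).2 n1)
  simp only [io_pw, map_pow, map_div₀, map_mul, map_add, map_sub, map_one, map_ofNat, div_pow,
    mul_pow] at Y2 X3
  rw [← zc3, ← X3] at Y2
  rw [← X3] at X0
  have t0 : (1 + 2 * zc3) ^ 3 ≠ 0 := pow_ne_zero 3 fun e => by clear * - z3 e; grind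
  rw [eq_div_iff (mul_ne_zero t0 X0)] at Y2
  have H0 := pt_ne_zero G01 on
  rcases hY with hY | hY
  · obtain ⟨k, e⟩ := rot_FT H0 (neg_ne_zero.2 π0) (eC.injective (by
      rw [yc_pt on, Y1, (xc_neg _).2 π0, map_sub, map_neg, map_one, div_eq_iff (by simpa using g0)]
      refine mul_left_cancel₀ (mul_ne_zero t0 X0) ?_
      clear * - hY Y2 z3
      grind))
    exact ⟨-ω ^ k, (w_unit.pow k).neg, by rw [Z.fm, e, smul_neg, neg_smul]⟩
  · obtain ⟨k, e⟩ := rot_FT H0 π0 (eC.injective (by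
      rw [yc_pt on, Y1, div_eq_iff (by simpa using g0)]
      refine mul_left_cancel₀ (mul_ne_zero t0 X0) ?_
      clear * - hY Y2 z3
      grind))
    exact ⟨ω ^ k, w_unit.pow k, by rw [Z.fm, e]⟩

theorem bez_FT {a b : ℤ} (h : IsCoprime a b) (ha : a • T ∈ C) (hb : b • T ∈ C) : T ∈ C := by
  obtain ⟨x, y, e⟩ := h
  rw [← one_zsmul T, ← e, add_zsmul, mul_zsmul, mul_zsmul]
  exact add_mem (C.zsmul_mem ha x) (C.zsmul_mem hb y)

theorem cau_FT {N p : ℕ} (hN : N ≠ 0) (hC : ∀ T ∈ C, N • T = 0) (hp : p.Prime) (h : ¬ p ∣ N) :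
    ¬ p ∣ cd C := fun a => by
  have f := fin_FT hN hC
  have : Finite C := f
  have := Fact.mk hp
  rw [cd, els, dif_pos f, ← Nat.card_eq_card_finite_toFinset f] at a
  obtain ⟨T, e⟩ := exists_prime_addOrderOf_dvd_card' (G := C) p a
  exact h (e ▸ addOrderOf_dvd_of_nsmul_eq_zero (Subtype.ext (hC T T.2)))

theorem fix_FT {g : GQ} (h : ∀ T ∈ C, gal g T = T) : C.map (gal g) = C :=
  AddSubgroup.ext fun T => ⟨fun ⟨U, a, b⟩ => b ▸ (h U a).symm ▸ a, fun a => ⟨T, a, h T a⟩⟩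

theorem FTL_pf (hR : RZ_st) (hF : FGAL_st) (hD : RESD_st) (hA : Z.HGA_st) (hT : Z.HTL_st)
    (hM : Y.RAMI_st) : FTL_st := by
  intro ξ C l X hz hC hl l3 hd hX
  obtain ⟨P, R, S, p9, r27, s3, H⟩ := FY_pf hR hF hz
  obtain ⟨V, rfl⟩ : ∃ V : Plc, V.l = l := ⟨@Plc.mk l ⟨hl⟩ 1, rfl⟩
  have c3 := hC.c3
  have c0 : cd C ≠ 0 := by omega
  have ov : ∀ N : ℕ, N ∣ 27 * cd C → ¬ Ov V N := fun N h e => by
    rcases (Nat.Prime.dvd_mul hl).1 (((PLK_ok.2.2.2.1 V N).1 e).trans h) with e | e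
    · have := (Nat.prime_dvd_prime_iff_eq hl Nat.prime_three).1 (hl.dvd_of_dvd_pow (n := 3) e)
      omega
    · exact hd e
  have kC : ∀ T ∈ C ⊔ AddSubgroup.zmultiples P, (27 * cd C) • T = 0 :=
    sup_FT (fun T hT => by rw [mul_nsmul', hC.smul hT, nsmul_zero])
      (by rw [show 27 * cd C = 9 * (3 * cd C) by ring, mul_nsmul, p9, nsmul_zero])
  have nd : ∀ U : Pt, V.l • U = 0 → ND (C ⊔ AddSubgroup.zmultiples U) := fun U h => by
    have k := sup_FT (N := V.l * cd C) (C := C) (P := U)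
      (fun T hT => by rw [mul_nsmul', hC.smul hT, nsmul_zero]) (by rw [mul_nsmul, h, nsmul_zero])
    have n := mul_ne_zero hl.ne_zero c0
    exact ⟨fin_FT n k, cau_FT n k Nat.prime_three fun e =>
      ((Nat.Prime.dvd_mul Nat.prime_three).1 e).elim (by omega) c3⟩
  have cs : ∀ U : Pt, (V.l : Zw) • U = V.l • U := Nat.cast_smul_eq_nsmul Zw _
  obtain ⟨u, hu, key⟩ : ∃ u : Zw, IsUnit u ∧ ∀ U : Pt, V.l • U = 0 → U ≠ 0 →
      Z.Hp (C ⊔ AddSubgroup.zmultiples P ⊔ AddSubgroup.zmultiples U) S R =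
        u • pw • pf ξ (C ⊔ AddSubgroup.zmultiples U) := by
    by_cases h : ∃ U : Pt, V.l • U = 0 ∧ U ≠ 0
    swap
    · exact ⟨1, isUnit_one, fun U a b => (h ⟨U, a, b⟩).elim⟩
    obtain ⟨U₀, a₀, b₀⟩ := h
    obtain ⟨d, u, hu, e⟩ := H _ (nd U₀ a₀)
    refine ⟨u, hu, fun U a b => ?_⟩
    obtain ⟨τ, hτ, t⟩ := hM V U₀ U l3 ((cs _).trans a₀) ((cs _).trans a) b₀ b
    have i := (INE_ok V (ov 3 ⟨9 * cd C, by ring⟩) τ hτ).2.2
    have i9 : τ ∈ UM 9 := i _ (ov 9 ⟨3 * cd C, by ring⟩)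
    have fx : ∀ T : Pt, (27 * cd C) • T = 0 → gal τ T = T := fun T h =>
      (i _ (ov _ dvd_rfl)).2 T ((Nat.cast_smul_eq_nsmul Zw _ T).trans h)
    have m := fix_FT fun T hT => fx T (kC T (AddSubgroup.mem_sup_left hT))
    have e1 := (hA _ S R d τ i9.1).2
    have e2 := ((hF ξ _ hz (nd U₀ a₀)).2.2.2.2.2.2 τ).2.2.1
    rw [(hD ξ C τ hz hC i9 m).1, ZMod.val_zero, mul_zero, pow_zero, one_smul,
      (hR.2 ξ hz).2.2.2.2.2.2.2.2.2.1 τ i9] at e2
    rw [e, gal_smul i9.1, gal_smul i9.1, e2, fx S (by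
      rw [show 27 * cd C = 3 * (9 * cd C) by ring, mul_nsmul, s3, nsmul_zero]),
      fx R (by rw [mul_nsmul, r27, nsmul_zero])] at e1
    simp only [AddSubgroup.map_sup, AddMonoidHom.map_zmultiples, m, t, fx P (kC P
      (AddSubgroup.mem_sup_right (AddSubgroup.mem_zmultiples P)))] at e1
    rw [sup_right_comm, e1]
  have l0 : (V.l : Zw) ≠ 0 := Nat.cast_ne_zero.2 hl.ne_zero
  have e := hT _ S R V.l (H C hC).1 hl l3 (cau_FT (mul_ne_zero (by norm_num) c0) kC hl fun e =>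
    ov _ dvd_rfl ((PLK_ok.2.2.2.1 V _).2 e))
  rw [sum_congr rfl (g := fun L => u • pw • pf ξ (C ⊔ L)) (fun L hL => by
    obtain ⟨U, a, rfl⟩ := mem_image.1 hL
    rw [mem_tor0 l0, cs] at a
    exact key U a.2 a.1), ← smul_sum, ← smul_sum, smul_comm, unit_smul hu, pw_pw, neg_eq_zero,
    ← Nat.cast_smul_eq_nsmul Zw, Nat.cast_ofNat] at e
  have pr := Nat.prime_iff_prime_int.1 hl
  have co : IsCoprime (V.l : ℤ) (cd C) :=
    pr.coprime_iff_not_dvd.2 fun a => hd (Int.natCast_dvd_natCast.1 a)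
  have k1 : ∀ T ∈ X, C ⊔ AddSubgroup.zmultiples T = C ⊔ AddSubgroup.zmultiples (cd C • T) :=
    fun T h => le_antisymm (sup_le le_sup_left (AddSubgroup.zmultiples_le_of_mem (bez_FT co
      (AddSubgroup.mem_sup_left (by simpa using (hX.1 T h).1))
      (AddSubgroup.mem_sup_right (by simp)))))
      (sup_le_sup_left (AddSubgroup.zmultiples_le_of_mem (nsmul_mem (by simp) _)) _)
  have k2 : ∀ T ∈ X, V.l • cd C • T = 0 := fun T h => by rw [smul_comm, hC.smul (hX.1 T h).1]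
  rw [← e]
  refine congrArg _ (sum_bij (fun T _ => AddSubgroup.zmultiples (cd C • T)) (fun T h => ?_)
    (fun T h T' h' a => ?_) (fun L hL => ?_) fun T h => by rw [k1 T h])
  · refine mem_image_of_mem _ ((mem_tor0 l0).2 ⟨fun a => (hX.1 T h).2 (bez_FT co
      (by simpa using (hX.1 T h).1) (by simp [a])), (cs _).trans (k2 T h)⟩)
  · have m := AddSubgroup.mem_sup_right (S := C) (AddSubgroup.mem_zmultiples T)
    exact (hX.2 T (hX.1 T h).1 (hX.1 T h).2).unique ⟨h, m⟩ ⟨h', by rwa [k1 T' h', ← a, ← k1 T h]⟩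
  · obtain ⟨U, a, rfl⟩ := mem_image.1 hL
    rw [mem_tor0 l0, cs] at a
    obtain ⟨T, ⟨h, m⟩, -⟩ := hX.2 U (a.2 ▸ zero_mem _) fun b => a.1 (bez_FT (C := ⊥) co
      (by simp [a.2]) (by simp [hC.smul b]))
    obtain ⟨c, hc, _, ⟨k, rfl⟩, m⟩ := AddSubgroup.mem_sup.1 m
    have b : U ∈ AddSubgroup.zmultiples (cd C • T) := bez_FT co (by simp [a.2]) ⟨k, by
      simp only [← m, natCast_zsmul, smul_add, hC.smul hc, zero_add, smul_comm k]⟩
    refine ⟨T, h, le_antisymm (AddSubgroup.zmultiples_le_of_mem ?_)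
      (AddSubgroup.zmultiples_le_of_mem b)⟩
    obtain ⟨j, b⟩ := b
    refine bez_FT (b := j) (pr.coprime_iff_not_dvd.2 ?_) (by simp [k2 T h])
      (by rw [show j • _ = U from b]; simp)
    rintro ⟨i, rfl⟩
    exact a.1 (by simp only [← b, mul_comm _ i, mul_zsmul, natCast_zsmul, k2 T h, smul_zero])

end Pool.Agent.MP_e23604_nt.PH
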