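import Pool.Agent.Mg.Fe23604m.Gf35d07
import Pool.Agent.Mg.Fe23604m.G1f36ac
import Pool.Agent.Mg.Fe23604m.G1bd87d
import Pool.Agent.Mg.Fe23604m.G6ea182
import Pool.Agent.Mg.Fe23604m.G585f0d
import Pool.Agent.Mg.Fe23604m.G321a53
import Pool.Agent.Mg.Fe23604m.Gcbc547
import Pool.Agent.Mg.Fe23604m.G314fc8
import Pool.Agent.Mg.Fe23604m.G2ccc44
import Pool.Agent.Mg.Fe23604m.Ga3657a

set_option linter.all false

/-!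
The fourth family of points: all formal properties.
-/

set_option autoImplicit false

namespace Pool.Agent.MP_e23604_nt.PH

theorem RZ_ok : RZ_st := RZ_pf
theorem GR_ok : GR_st := GR_pf
theorem FON_ok : FON_st := FON_pf RZ_ok
theorem FGAL_ok : FGAL_st := FGAL_pf RZ_ok GR_ok FON_ok
theorem KPR_ok : KPR_st := KPR_pf RZ_ok GR_ok FGAL_ok
theorem FCG_ok : FCG_st := FCG_pf RZ_ok GR_ok FGAL_ok
theorem LIFT_ok : LIFT_st := LIFT_pf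
theorem DV_ok : DV_st := DV_pf LIFT_ok
theorem YZ_ok : YZ_st := YZ_pf RZ_ok GR_ok FGAL_ok KPR_ok FCG_ok LIFT_ok DV_ok N.FRI_ok
theorem RESD_ok : RESD_st := RESD_pf RZ_ok GR_ok FGAL_ok KPR_ok X.KW_pf
theorem YJ_of (h : FTL_st) : YJ_st := YJ_pf RZ_ok GR_ok FGAL_ok FCG_ok h YZ_ok

theorem OBJ_of (h : FTL_st) : N.G.HGJ_st ∧ N.G.HSJ_st ∧ N.G.LIN_st :=
  ⟨N.G.HGJ_pf (YJ_of h) N.KIT_ok, N.G.HSJ_pf (YJ_of h) N.KIT_ok N.G.TL0_ok,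
    N.G.LIN_pf N.DL_ok N.KT_ok N.G.KT_ok N.CN_ok X.KPI_pf GR_ok FGAL_ok (YJ_of h) RESD_ok
      Un.NON_pf⟩

theorem FTL_of (hA : Z.HGA_st) (hT : Z.HTL_st) : FTL_st :=
  FTL_pf RZ_ok FGAL_ok RESD_ok hA hT Y.RAMI_ok

theorem OBJ_Z (hA : Z.HGA_st) (hT : Z.HTL_st) : N.G.HGJ_st ∧ N.G.HSJ_st ∧ N.G.LIN_st :=
  OBJ_of (FTL_of hA hT)

end Pool.Agent.MP_e23604_nt.PH
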