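import Pool.Agent.Mg.Fe23604m.G5d249b
import Pool.Agent.Mg.Fe23604m.Gf9dddf
import Pool.Agent.Mg.Fe23604m.Gddb19d
import Pool.Agent.Mg.Fe23604m.Ga1de51

set_option linter.all false

/-!
Points of infinite order for the numbers whose order at three is prime to three.
-/

set_option autoImplicit false

namespace Pool.Agent.MP_e23604_nt.PH

theorem heegP_ok (D v m : ℕ) (hD : ∀ j, W.Nice (3 ^ j * D) ∧ W.Nice (3 ^ j * D ^ 2))
    (hp : par3 D = 1) (e : D = 3 ^ v * m) (hm : ¬ 3 ∣ m) (hv : v % 3 ≠ 0) : X.Heeg D :=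
  heegP_of Un.NTL_pf (OBJ_Z Z.HGA_pf Z.HTL_pf) D v m hD hp e hm hv

end Pool.Agent.MP_e23604_nt.PH
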