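import Pool.Agent.Mg.Fe23604m.G2d01bf
import Pool.Agent.Mg.Fe23604m.G651d65

set_option linter.all false

section

/-!
The local conditions for the first isogeny in terms of Jacobi symbols.
-/

open Finset
open scoped Classical

noncomputable section

namespace Pool.Agent.MP_e23604_nt.P

section Loc

variable {p : ℕ} [hp : Fact p.Prime]

/-- A square up to a factor congruent to one. -/
def xCArA_NS (a : ℚ_[p]) : Prop := ∃ t w : ℚ_[p], ‖t‖ < 1 ∧ a * (1 + t) = w ^ 2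

theorem xCArA_odd (w : ℚ_[p]) : ‖w‖ ^ 2 ≠ (p : ℝ)⁻¹ := by
  have h1 : (1 : ℝ) < p := by exact_mod_cast hp.out.one_lt
  intro h
  rcases eq_or_ne w 0 with rfl | hw
  · rw [norm_zero, zero_pow two_ne_zero] at h
    exact inv_ne_zero (by linarith) h.symm
  · rw [Padic.norm_eq_zpow_neg_valuation hw, ← zpow_neg_one, ← zpow_natCast, ← zpow_mul] at h
    have := zpow_right_injective₀ (by linarith) h1.ne' h
    omega

theorem xCArA_NS.mul {a : ℚ_[p]} (h : xCArA_NS a) (z : ℚ_[p]) : xCArA_NS (a * z ^ 2) := by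
  obtain ⟨t, w, ht, e⟩ := h
  exact ⟨t, w * z, ht, by linear_combination z ^ 2 * e⟩

theorem xCArA_nrm {t : ℚ_[p]} (ht : ‖t‖ < 1) : ‖1 + t‖ = 1 := by
  rw [Padic.add_eq_max_of_ne (by rw [norm_one]; exact ht.ne'), norm_one, max_eq_left ht.le]

theorem xCArA_NS.odd {a : ℚ_[p]} (h : xCArA_NS a) : ‖a‖ ≠ (p : ℝ)⁻¹ := by
  obtain ⟨t, w, ht, e⟩ := h
  have := congrArg norm e
  rw [norm_mul, xCArA_nrm ht, mul_one, norm_pow] at this
  rw [this]
  exact xCArA_odd w

end Loc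

theorem xCArA_dvd {a D : ℕ} (ha : Squarefree a) (hD : D ≠ 0)
    (h : ∀ p : ℕ, p.Prime → p ∣ a → p ∣ D) : a ∣ D := by
  rw [← Nat.prod_primeFactors_of_squarefree ha, Nat.prod_primeFactors_dvd_iff hD]
  intro p hp
  obtain ⟨h1, h2, -⟩ := Nat.mem_primeFactors.1 hp
  exact Nat.mem_primeFactors.2 ⟨h1, h p h1 h2, hD⟩

end Pool.Agent.MP_e23604_nt.P

end
end

section

/-!
The local conditions for the second isogeny in terms of Jacobi symbols.
-/

open Finset
open scoped Classical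

noncomputable section

namespace Pool.Agent.MP_e23604_nt.P

theorem xCArB_sqf {e : ℚ} (he : e ≠ 0) :
    ∃ (c : ℤ) (z : ℚ), Squarefree c.natAbs ∧ z ≠ 0 ∧ e = c * z ^ 2 := by
  obtain ⟨a, b, hab, ha⟩ := Nat.sq_mul_squarefree (e.num * e.den).natAbs
  have hd : (e.den : ℚ) ≠ 0 := by exact_mod_cast e.den_ne_zero
  have h1 : (e.num : ℚ) = e * e.den := (Rat.mul_den_eq_num e).symm
  have key : ∀ c : ℤ, c.natAbs = a → e.num * e.den = b ^ 2 * c →
      ∃ (c : ℤ) (z : ℚ), Squarefree c.natAbs ∧ z ≠ 0 ∧ e = c * z ^ 2 := fun c hc h => by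
    have h2 : (e.num : ℚ) * e.den = b ^ 2 * c := by exact_mod_cast h
    have h3 : e = c * (b / e.den) ^ 2 := by
      rw [h1] at h2
      field_simp
      linear_combination h2
    refine ⟨c, b / e.den, hc ▸ ha, fun h0 => he ?_, h3⟩
    rw [h3, h0]
    ring
  rcases Int.natAbs_eq (e.num * e.den) with h | h
  · refine key a (Int.natAbs_natCast a) ?_
    rw [h, ← hab]
    push_cast
    ring
  · refine key (-a) (by simp) ?_
    rw [h, ← hab]
    push_cast
    ring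

theorem xCArB_jac {l : ℕ} (hl : l.Prime) {a m V : ℤ} (ha : ¬ (l : ℤ) ∣ a) (hm : ¬ (l : ℤ) ∣ m)
    (h : (l : ℤ) ∣ V ^ 2 - a * m ^ 2) : jacobiSym a l = 1 := by
  have hp : Prime (l : ℤ) := Nat.prime_iff_prime_int.1 hl
  have cop : ∀ x : ℤ, ¬ (l : ℤ) ∣ x → x.gcd l = 1 := fun x hx =>
    Int.isCoprime_iff_gcd_eq_one.1 ((hp.coprime_iff_not_dvd.2 hx).symm)
  have hV : ¬ (l : ℤ) ∣ V := fun hV => by
    have h1 : (l : ℤ) ∣ a * m ^ 2 := by
      simpa using dvd_sub (dvd_pow hV two_ne_zero) h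
    exact (hp.dvd_or_dvd h1).elim ha fun h2 => hm (hp.dvd_of_dvd_pow h2)
  have h1 : jacobiSym (a * m ^ 2) l = jacobiSym (V ^ 2) l :=
    jacobiSym.mod_left' ((Int.modEq_iff_dvd).2 h)
  rwa [jacobiSym.mul_left, jacobiSym.sq_one' (cop m hm), jacobiSym.sq_one' (cop V hV),
    mul_one] at h1

end Pool.Agent.MP_e23604_nt.P

end
end
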