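import Pool.Agent.Mg.Fe23604m.G2d01bf

set_option linter.all false

/-!
Finite generation and the rank from the quotient by doubles.
-/

open WeierstrassCurve
open scoped Classical

set_option linter.unusedSectionVars false

noncomputable section

namespace Pool.Agent.MP_e23604_nt.P

attribute [local instance 2000] decQ

open Height in
theorem fg_of_two [DecidableEq ℚ] (W : WeierstrassCurve ℚ) [W.IsElliptic]
    (H : (nsmulAddMonoidHom (α := W.toAffine.Point) 2).range.FiniteIndex) :
    AddGroup.FG W.toAffine.Point := by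
  let h : W.toAffine.Point → ℝ := fun P => logHeight P.xRep
  obtain ⟨C₁, h1⟩ := abs_logHeight_addSubMap_sub_two_mul_logHeight_le W
  obtain ⟨C₂, h2⟩ := abs_logHeight_sym2_sub_le ℚ
  have h3 : ∀ P Q : W.toAffine.Point, |logHeight (P.sym2x Q) - (h P + h Q)| ≤ C₂ := by
    intro P Q
    have e : ∀ v : Fin 2 → ℚ, ![v 0, v 1] = v := fun v => by ext i; fin_cases i <;> rfl
    have := h2 (a := P.xRep 0) (b := P.xRep 1) (c := Q.xRep 0) (d := Q.xRep 1)
      (by rw [e]; exact P.xRep_ne_zero) (by rw [e]; exact Q.xRep_ne_zero)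
    rwa [e, e] at this
  have par : ∀ P Q : W.toAffine.Point,
      |h (P + Q) + h (P - Q) - 2 * (h P + h Q)| ≤ C₁ + 3 * C₂ := by
    intro P Q
    obtain ⟨c, c0, hc⟩ := addSub P Q
    have a1 := h1 (P.sym2x Q)
    rw [hc, logHeight_smul_eq_logHeight _ c0] at a1
    have a2 := h3 P Q
    have a3 := h3 (P + Q) (P - Q)
    rw [abs_le] at *
    constructor <;> linarith [a1.1, a1.2, a2.1, a2.2, a3.1, a3.2]
  have pos : ∀ P, 0 ≤ h P := fun P => logHeight_nonneg _
  have : Northcott h := ⟨fun B => by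
    have f1 : {v : Fin 2 → ℚ | v = ![1, 0] ∨ ∃ x ∈ {x : ℚ | logHeight₁ x ≤ B}, ![x, 1] = v}.Finite :=
      (Set.finite_singleton _).union ((Northcott.finite_le B).image _)
    refine (f1.preimage' (f := fun P : W.toAffine.Point => P.xRep) fun v _ => ?_).subset ?_
    · by_cases hv : ∃ P : W.toAffine.Point, P.xRep = v
      · obtain ⟨P, rfl⟩ := hv
        exact (Set.toFinite {P, -P}).subset fun Q hQ => Affine.Point.xRep_eq_xRep_iff.1 hQ
      · convert Set.finite_empty
        ext Q
        simpa using fun e => hv ⟨Q, e⟩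
    · rintro (_ | ⟨x, y, hP⟩) hB
      · exact Or.inl rfl
      · exact Or.inr ⟨x, (logHeight₁_eq_logHeight x).trans_le hB, rfl⟩⟩
  refine AddCommGroup.fg_of_descent (n := 2) (h := h) (a := 2) (b := 4)
    (c₀ := h 0 + (C₁ + 3 * C₂)) (c := fun g => 2 * h g + (C₁ + 3 * C₂)) (by norm_num)
    (by norm_num) H (fun g x => ?_) (fun x => ?_)
  · have := par (g + x) g
    rw [add_sub_cancel_left, abs_le] at this
    linarith [this.2, pos (g + x + g)]
  · have a1 := par x x
    rw [sub_self, abs_le] at a1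
    rw [two_nsmul]
    linarith [a1.1]

end Pool.Agent.MP_e23604_nt.P
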