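import Pool.Agent.Mg.Fe23604m.G867643
import Pool.Agent.Mg.Fe23604m.Gc0bae7
import Pool.Agent.Mg.Fe23604m.G82b978

set_option linter.all false

section

/-!
Rank and Sha from the descent data.
-/

open WeierstrassCurve
open scoped Classical

set_option linter.unusedSectionVars false

noncomputable section

namespace Pool.Agent.MP_e23604_nt.P

attribute [local instance 2000] decQ

end Pool.Agent.MP_e23604_nt.P

end
end

section

/-!
Curves y^2 = (x - a) (x - b) (x - c) with distinct rational roots: points and 2-torsion.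
-/

open WeierstrassCurve
open scoped Classical

set_option linter.unusedSectionVars false

noncomputable section

namespace Pool.Agent.MP_e23604_nt.U.AJ

attribute [local instance 2000] decQ

/-- `W` is the curve y^2 = (x - a) (x - b) (x - c) and the roots are distinct. -/
structure Sp (W : WeierstrassCurve ℚ) (a b c : ℚ) : Prop where
  a1 : W.a₁ = 0
  a2 : W.a₂ = -(a + b + c)
  a3 : W.a₃ = 0
  a4 : W.a₄ = a * b + b * c + c * a
  a6 : W.a₆ = -(a * b * c)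
  ab : a ≠ b
  bc : b ≠ c
  ca : c ≠ a

variable {W : WeierstrassCurve ℚ} {a b c : ℚ} {F F' : Type} [Field F] [CharZero F] [Field F']
  [CharZero F']

def qx : Pts W F → F
  | .zero => 0
  | .some x _ _ => x

def qy : Pts W F → F
  | .zero => 0
  | .some _ y _ => y

/-- The point with the given coordinates, or zero. -/
def pt (W : WeierstrassCurve ℚ) (x y : F) : Pts W F :=
  if h : (W.baseChange F).toAffine.Nonsingular x y then .some x y h else 0

/-- The point of order two with abscissa `a`. -/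
def TT (W : WeierstrassCurve ℚ) (a : ℚ) (F : Type) [Field F] [CharZero F] : Pts W F :=
  pt W (a : F) 0

def In (a : ℚ) (S : Pts W F) : Prop := S = 0 ∨ S = TT W a F

/-- The Weil pairing with `TT W a`. -/
def ww (a : ℚ) (S : Pts W F) : F := if In a S then 1 else -1

/-- The descent map at the root `a`. -/
def al (a b c : ℚ) (P : Pts W F) : F :=
  if P = 0 then 1 else if P = TT W a F then ((a : F) - b) * (a - c) else qx P - a

/-- The equation. -/
def On (a b c : ℚ) (x y : F) : Prop := y ^ 2 = (x - a) * (x - b) * (x - c)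

theorem Sp.rot (h : Sp W a b c) : Sp W b c a :=
  ⟨h.a1, by rw [h.a2]; ring, h.a3, by rw [h.a4]; ring, by rw [h.a6]; ring, h.bc, h.ca, h.ab⟩

theorem Sp.swap (h : Sp W a b c) : Sp W b a c :=
  ⟨h.a1, by rw [h.a2]; ring, h.a3, by rw [h.a4]; ring, by rw [h.a6]; ring, h.ab.symm, h.ca.symm,
    h.bc.symm⟩

theorem On.rot {x y : F} (h : On a b c x y) : On b c a x y := by
  unfold On at *
  rw [h]; ring

theorem On.swap {x y : F} (h : On a b c x y) : On b a c x y := by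
  unfold On at *
  rw [h]; ring

theorem On.map (f : F →+* F') {x y : F} (h : On a b c x y) : On a b c (f x) (f y) := by
  unfold On at *
  simpa using congrArg f h

theorem on_root (a b c : ℚ) : On a b c (a : F) 0 := by simp [On]

theorem Sp.ne (h : Sp W a b c) :
    (a : F) - b ≠ 0 ∧ (a : F) - c ≠ 0 ∧ (b : F) - c ≠ 0 :=
  ⟨sub_ne_zero.2 (by exact_mod_cast h.ab), sub_ne_zero.2 (by exact_mod_cast h.ca.symm),
    sub_ne_zero.2 (by exact_mod_cast h.bc)⟩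

theorem Sp.Δ (h : Sp W a b c) : W.Δ = 16 * ((a - b) * (a - c) * (b - c)) ^ 2 := by
  simp only [WeierstrassCurve.Δ, b₂, b₄, b₆, b₈, h.a1, h.a2, h.a3, h.a4, h.a6]; ring

theorem Sp.Δ_ne (h : Sp W a b c) : W.Δ ≠ 0 := by
  obtain ⟨h1, h2, h3⟩ := h.ne (F := ℚ)
  rw [h.Δ]
  exact mul_ne_zero (by norm_num) (pow_ne_zero _ (mul_ne_zero (mul_ne_zero h1 h2) h3))

theorem Sp.ell (h : Sp W a b c) : W.IsElliptic := ⟨h.Δ_ne.isUnit⟩

theorem Sp.Δ' (h : Sp W a b c) : (W.baseChange F).Δ ≠ 0 := by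
  have : (W.baseChange F).Δ = (W.Δ : F) := by simp [baseChange]
  rw [this]
  exact_mod_cast h.Δ_ne

theorem Sp.b1 (h : Sp W a b c) : (W.baseChange F).toAffine.a₁ = 0 := by simp [baseChange, h.a1]
theorem Sp.b2 (h : Sp W a b c) : (W.baseChange F).toAffine.a₂ = -(a + b + c) := by
  simp [baseChange, h.a2]
theorem Sp.b3 (h : Sp W a b c) : (W.baseChange F).toAffine.a₃ = 0 := by simp [baseChange, h.a3]
theorem Sp.b4 (h : Sp W a b c) : (W.baseChange F).toAffine.a₄ = a * b + b * c + c * a := by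
  simp [baseChange, h.a4]
theorem Sp.b6 (h : Sp W a b c) : (W.baseChange F).toAffine.a₆ = -(a * b * c) := by
  simp [baseChange, h.a6]

theorem Sp.eqn (h : Sp W a b c) (x y : F) :
    (W.baseChange F).toAffine.Equation x y ↔ On a b c x y := by
  rw [Affine.equation_iff, h.b1, h.b2, h.b3, h.b4, h.b6, On]
  constructor <;> intro e <;> linear_combination e

theorem Sp.negY (h : Sp W a b c) (x y : F) : (W.baseChange F).toAffine.negY x y = -y := by
  rw [Affine.negY, h.b1, h.b3]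
  ring

theorem pts_ext {P Q : Pts W F} (h0 : P = 0 ↔ Q = 0) (hx : qx P = qx Q) (hy : qy P = qy Q) :
    P = Q := by
  rcases P with _ | ⟨x, y, h⟩ <;> rcases Q with _ | ⟨x', y', h'⟩
  · rfl
  · exact (h0.1 rfl).symm
  · exact h0.2 rfl
  · change x = x' at hx
    change y = y' at hy
    subst hx hy
    rfl

theorem Sp.ns (h : Sp W a b c) (x y : F) :
    (W.baseChange F).toAffine.Nonsingular x y ↔ On a b c x y := by
  rw [← Affine.equation_iff_nonsingular_of_Δ_ne_zero h.Δ', h.eqn]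

theorem Sp.pt_eq (h : Sp W a b c) {x y : F} (e : On a b c x y) :
    pt W x y = .some x y ((h.ns x y).2 e) := by
  rw [pt, dif_pos]

theorem Sp.cases (h : Sp W a b c) (P : Pts W F) :
    P = 0 ∨ ∃ x y : F, On a b c x y ∧ P = pt W x y := by
  rcases P with _ | ⟨x, y, hxy⟩
  · exact Or.inl rfl
  · exact Or.inr ⟨x, y, (h.ns x y).1 hxy, (h.pt_eq ((h.ns x y).1 hxy)).symm⟩

theorem Sp.pt_ne (h : Sp W a b c) {x y : F} (e : On a b c x y) : pt W x y ≠ 0 := by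
  rw [h.pt_eq e]
  exact Affine.Point.some_ne_zero _

theorem Sp.qx_pt (h : Sp W a b c) {x y : F} (e : On a b c x y) :
    qx (pt W x y) = x ∧ qy (pt W x y) = y := by
  rw [h.pt_eq e]
  exact ⟨rfl, rfl⟩

theorem Sp.inj (h : Sp W a b c) {x y x' y' : F} (e : On a b c x y) (e' : On a b c x' y')
    (hh : pt W x y = pt W x' y') : x = x' ∧ y = y' := by
  rw [h.pt_eq e, h.pt_eq e'] at hh
  exact Affine.Point.some.inj hh

theorem Sp.act_pt (h : Sp W a b c) (f : F →+* F') {x y : F} (e : On a b c x y) :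
    act W f (pt W x y) = pt W (f x) (f y) := by
  rw [h.pt_eq e, h.pt_eq (e.map f)]
  rfl

theorem qx_act (f : F →+* F') (P : Pts W F) :
    qx (act W f P) = f (qx P) ∧ qy (act W f P) = f (qy P) := by
  rcases P with _ | ⟨x, y, hxy⟩
  · exact ⟨(map_zero f).symm, (map_zero f).symm⟩
  · exact ⟨rfl, rfl⟩

theorem Sp.neg (h : Sp W a b c) {x y : F} (e : On a b c x y) : -pt W x y = pt W x (-y) := by
  have e' : On a b c x (-y) := by rw [On, neg_sq]; exact e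
  rw [h.pt_eq e, h.pt_eq e', Affine.Point.neg_some]
  congr 1
  exact h.negY x y

theorem Sp.add_ne (h : Sp W a b c) {x₁ y₁ x₂ y₂ x₃ y₃ l : F} (h₁ : On a b c x₁ y₁)
    (h₂ : On a b c x₂ y₂) (hx : x₁ ≠ x₂) (hl : l * (x₁ - x₂) = y₁ - y₂)
    (hx₃ : x₃ = l ^ 2 + (a + b + c) - x₁ - x₂) (hy₃ : y₃ = -(l * (x₃ - x₁) + y₁)) :
    On a b c x₃ y₃ ∧ pt W x₁ y₁ + pt W x₂ y₂ = pt W x₃ y₃ := by
  have hs : (W.baseChange F).toAffine.slope x₁ x₂ y₁ y₂ = l := by
    rw [Affine.slope_of_X_ne hx, div_eq_iff (sub_ne_zero.2 hx), hl]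
  have e1 : (W.baseChange F).toAffine.addX x₁ x₂
      ((W.baseChange F).toAffine.slope x₁ x₂ y₁ y₂) = x₃ := by
    rw [hs, Affine.addX, h.b1, h.b2, hx₃]; ring
  have e2 : (W.baseChange F).toAffine.addY x₁ x₂ y₁
      ((W.baseChange F).toAffine.slope x₁ x₂ y₁ y₂) = y₃ := by
    rw [Affine.addY, Affine.negAddY, e1, hs, h.negY, hy₃]
  have h₃ := Affine.nonsingular_add ((h.ns _ _).2 h₁) ((h.ns _ _).2 h₂)
    (fun hxy => hx hxy.left)
  rw [e1, e2] at h₃
  refine ⟨(h.ns _ _).1 h₃, ?_⟩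
  rw [h.pt_eq h₁, h.pt_eq h₂, h.pt_eq ((h.ns _ _).1 h₃), Affine.Point.add_of_X_ne hx]
  congr 1

theorem Sp.add_self (h : Sp W a b c) {x₁ y₁ x₃ y₃ l : F} (h₁ : On a b c x₁ y₁) (hy : y₁ ≠ 0)
    (hl : l * (2 * y₁) = 3 * x₁ ^ 2 - 2 * (a + b + c) * x₁ + (a * b + b * c + c * a))
    (hx₃ : x₃ = l ^ 2 + (a + b + c) - x₁ - x₁) (hy₃ : y₃ = -(l * (x₃ - x₁) + y₁)) :
    On a b c x₃ y₃ ∧ pt W x₁ y₁ + pt W x₁ y₁ = pt W x₃ y₃ := by
  have hy' : y₁ ≠ (W.baseChange F).toAffine.negY x₁ y₁ := by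
    rw [h.negY]
    intro e
    apply hy
    linear_combination e / 2
  have hs : (W.baseChange F).toAffine.slope x₁ x₁ y₁ y₁ = l := by
    rw [Affine.slope_of_Y_ne rfl hy', div_eq_iff (sub_ne_zero.2 hy'), h.negY, h.b1, h.b2, h.b4]
    linear_combination -hl
  have e1 : (W.baseChange F).toAffine.addX x₁ x₁
      ((W.baseChange F).toAffine.slope x₁ x₁ y₁ y₁) = x₃ := by
    rw [hs, Affine.addX, h.b1, h.b2, hx₃]; ring
  have e2 : (W.baseChange F).toAffine.addY x₁ x₁ y₁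
      ((W.baseChange F).toAffine.slope x₁ x₁ y₁ y₁) = y₃ := by
    rw [Affine.addY, Affine.negAddY, e1, hs, h.negY, hy₃]
  have h₃ := Affine.nonsingular_add ((h.ns _ _).2 h₁) ((h.ns _ _).2 h₁)
    (fun hxy => hy' hxy.right)
  rw [e1, e2] at h₃
  refine ⟨(h.ns _ _).1 h₃, ?_⟩
  rw [h.pt_eq h₁, h.pt_eq ((h.ns _ _).1 h₃), Affine.Point.add_self_of_Y_ne hy']
  congr 1

theorem Sp.two_iff (h : Sp W a b c) {x y : F} (e : On a b c x y) :
    (2 : ℕ) • pt W x y = 0 ↔ y = 0 := by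
  have e' : On a b c x (-y) := by rw [On, neg_sq]; exact e
  rw [two_nsmul, add_eq_zero_iff_eq_neg, h.neg e]
  constructor
  · intro hh
    linear_combination (h.inj e e' hh).2 / 2
  · rintro rfl
    rw [neg_zero]

theorem Sp.T_ne (h : Sp W a b c) : TT W a F ≠ 0 := h.pt_ne (on_root a b c)

theorem Sp.two_T (h : Sp W a b c) : (2 : ℕ) • TT W a F = 0 := (h.two_iff (on_root a b c)).2 rfl

theorem Sp.TT_add (h : Sp W a b c) : TT W a F + TT W a F = 0 := by rw [← two_nsmul, h.two_T]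

theorem Sp.act_T (h : Sp W a b c) (f : F →+* F') : act W f (TT W a F) = TT W a F' := by
  rw [TT, h.act_pt f (on_root a b c), map_zero, map_ratCast, TT]

theorem Sp.T_ne_T (h : Sp W a b c) : TT W b F ≠ TT W a F := fun e =>
  (h.ne (F := F)).1 (sub_eq_zero.2 (h.inj (on_root b a c).swap (on_root a b c) e).1.symm)

theorem Sp.T_add (h : Sp W a b c) : TT W a F + TT W b F = TT W c F :=
  (h.add_ne (l := 0) (on_root a b c) (on_root b a c).swap (sub_ne_zero.1 (h.ne (F := F)).1)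
    (by simp) (by ring) (by simp)).2

theorem Sp.add_T (h : Sp W a b c) {x y : F} (e : On a b c x y) (hx : x - a ≠ 0) :
    On a b c (a + ((a : F) - b) * (a - c) / (x - a)) (-(((a : F) - b) * (a - c)) * y / (x - a) ^ 2) ∧
      pt W x y + TT W a F =
        pt W (a + ((a : F) - b) * (a - c) / (x - a)) (-(((a : F) - b) * (a - c)) * y / (x - a) ^ 2) := by
  refine h.add_ne (l := y / (x - a)) e (on_root a b c) (sub_ne_zero.1 hx) ?_ ?_ ?_
  · field_simp
    ring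
  · rw [div_pow, e]
    field_simp
    ring
  · field_simp
    ring

theorem Sp.tors (h : Sp W a b c) {S : Pts W F} (hS : (2 : ℕ) • S = 0) :
    S = 0 ∨ S = TT W a F ∨ S = TT W b F ∨ S = TT W c F := by
  rcases h.cases S with e | ⟨x, y, e, rfl⟩
  · exact Or.inl e
  obtain rfl := (h.two_iff e).1 hS
  have e' : (x - a) * (x - b) * (x - c) = 0 := by rw [← e]; ring
  rcases mul_eq_zero.1 e' with e1 | e1
  · rcases mul_eq_zero.1 e1 with e2 | e2
    · exact Or.inr (Or.inl (by rw [sub_eq_zero.1 e2, TT]))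
    · exact Or.inr (Or.inr (Or.inl (by rw [sub_eq_zero.1 e2, TT])))
  · exact Or.inr (Or.inr (Or.inr (by rw [sub_eq_zero.1 e1, TT])))

theorem Sp.act_tors (h : Sp W a b c) (f : F →+* F) {S : Pts W F} (hS : (2 : ℕ) • S = 0) :
    act W f S = S := by
  rcases h.tors hS with rfl | rfl | rfl | rfl
  · exact map_zero _
  · exact h.act_T f
  · exact h.rot.act_T f
  · exact h.rot.rot.act_T f

theorem ww_sq (S : Pts W F) : ww a S ^ 2 = 1 := by
  unfold ww
  split_ifs <;> simp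

theorem ww_zero : ww a (0 : Pts W F) = 1 := if_pos (Or.inl rfl)

theorem ww_T : ww a (TT W a F) = 1 := if_pos (Or.inr rfl)

theorem Sp.ww_b (h : Sp W a b c) : ww a (TT W b F) = -1 :=
  if_neg fun e => e.elim h.rot.T_ne h.T_ne_T

theorem Sp.ww_c (h : Sp W a b c) : ww a (TT W c F) = -1 := h.swap.rot.ww_b

theorem Sp.ww_act (h : Sp W a b c) (f : F →+* F') (S : Pts W F) :
    ww a (act W f S) = f (ww a S) := by
  have e : In a (act W f S) ↔ In a S := by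
    unfold In
    rw [map_eq_zero_iff _ (act_inj _ _), ← h.act_T f, (act_inj _ _).eq_iff]
  unfold ww
  rw [e]
  split_ifs <;> simp

theorem Sp.ww_add (h : Sp W a b c) {S S' : Pts W F} (hS : (2 : ℕ) • S = 0)
    (hS' : (2 : ℕ) • S' = 0) : ww a (S + S') = ww a S * ww a S' := by
  have ab := h.T_add (F := F)
  have ba := h.swap.T_add (F := F)
  have bc := h.rot.T_add (F := F)
  have cb := h.rot.swap.T_add (F := F)
  have ca := h.rot.rot.T_add (F := F)
  have ac := h.rot.rot.swap.T_add (F := F)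
  have aa := h.TT_add (F := F)
  have bb := h.rot.TT_add (F := F)
  have cc := h.rot.rot.TT_add (F := F)
  rcases h.tors hS with rfl | rfl | rfl | rfl <;> rcases h.tors hS' with rfl | rfl | rfl | rfl <;>
    simp only [zero_add, add_zero, ab, ba, bc, cb, ca, ac, aa, bb, cc, ww_zero, ww_T, h.ww_b,
      h.ww_c] <;> norm_num

theorem Sp.eq_of_ww (h : Sp W a b c) {S S' : Pts W F} (hS : (2 : ℕ) • S = 0)
    (hS' : (2 : ℕ) • S' = 0) (e1 : ww a S = ww a S') (e2 : ww b S = ww b S') : S = S' := by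
  have n : (1 : F) ≠ -1 := by norm_num
  have b1 := h.swap.ww_b (F := F)
  have b2 := h.swap.ww_c (F := F)
  rcases h.tors hS with rfl | rfl | rfl | rfl <;> rcases h.tors hS' with rfl | rfl | rfl | rfl <;>
    first
      | rfl
      | (simp only [ww_zero, ww_T, h.ww_b, h.ww_c, b1, b2] at e1 e2
         first | exact absurd e1 n | exact absurd e1 n.symm | exact absurd e2 n |
          exact absurd e2 n.symm)

theorem Sp.al_act (h : Sp W a b c) (f : F →+* F') (P : Pts W F) :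
    al a b c (act W f P) = f (al a b c P) := by
  unfold al
  rw [← h.act_T f, (qx_act f P).1]
  simp only [map_eq_zero_iff _ (act_inj _ _), (act_inj _ _).eq_iff]
  split_ifs <;> simp

theorem Sp.al_pt (h : Sp W a b c) {x y : F} (e : On a b c x y) (hx : x - a ≠ 0) :
    al a b c (pt W x y) = x - a := by
  rw [al, if_neg (h.pt_ne e), if_neg, (h.qx_pt e).1]
  exact fun hh => hx (sub_eq_zero.2 (h.inj e (on_root a b c) hh).1)

theorem al_zero : al a b c (0 : Pts W F) = 1 := if_pos rfl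

theorem Sp.al_T (h : Sp W a b c) : al a b c (TT W a F) = ((a : F) - b) * (a - c) := by
  rw [al, if_neg h.T_ne, if_pos rfl]

theorem Sp.half [IsAlgClosed F] (h : Sp W a b c) (P : Pts W F) :
    ∃ R : Pts W F, (2 : ℕ) • R = P := by
  have : (W.baseChange F).IsElliptic := ⟨Ne.isUnit h.Δ'⟩
  exact B.smul_surj (W := W.baseChange F) two_pos P

theorem dd_memU (R : Pts W Qb) : dd W R ∈ cocycles W := by
  constructor
  · rw [IsLocallyConstant.iff_eventually_eq]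
    intro σ
    filter_upwards [(isLC_apply (qx R)).eventually_eq σ, (isLC_apply (qy R)).eventually_eq σ]
      with τ h1 h2
    unfold dd
    congr 1
    refine pts_ext ?_ (by rw [(qx_act _ _).1, (qx_act _ _).1]; exact h1)
      (by rw [(qx_act _ _).2, (qx_act _ _).2]; exact h2)
    rw [map_eq_zero_iff _ (act_inj _ _), map_eq_zero_iff _ (act_inj _ _)]
  · intro σ τ
    simp only [dd, act_mul, map_sub, galQ]
    abel

theorem Sp.fixed (h : Sp W a b c) {P : Pts W Qb} (hP : ∀ σ, dd W P σ = 0) :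
    ∃ P₀, P = rp W Qb P₀ := by
  have h0 : ∀ σ : GQ, act W (σ : Qb →+* Qb) P = P := fun σ => sub_eq_zero.1 (hP σ)
  obtain ⟨x, hx⟩ := fixed_rat (x := qx P) fun σ => by
    have := (qx_act (σ : Qb →+* Qb) P).1
    rw [h0] at this
    exact this.symm
  obtain ⟨y, hy⟩ := fixed_rat (x := qy P) fun σ => by
    have := (qx_act (σ : Qb →+* Qb) P).2
    rw [h0] at this
    exact this.symm
  rcases h.cases P with rfl | ⟨x', y', e, rfl⟩
  · exact ⟨0, (map_zero _).symm⟩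
  rw [(h.qx_pt e).1] at hx
  rw [(h.qx_pt e).2] at hy
  subst hx hy
  have e' : On a b c x y := by
    unfold On at *
    exact_mod_cast e
  exact ⟨pt W x y, (h.act_pt (Rat.castHom Qb) e').symm⟩

end Pool.Agent.MP_e23604_nt.U.AJ

end
end

section

/-!
Kummer elements and the local conditions.
-/

open WeierstrassCurve
open scoped Classical

set_option linter.unusedSectionVars false

noncomputable section

namespace Pool.Agent.MP_e23604_nt.U.AJ

open P (xCLocG_fix xCLocG_quot)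

attribute [local instance 2000] decQ

variable {W : WeierstrassCurve ℚ} {a b c : ℚ} {F F' : Type} [Field F] [CharZero F] [Field F']
  [CharZero F']

theorem Sp.move (h : Sp W a b c) (f : F →+* F) {x y : F} (e : On a b c x y) (hy : y ≠ 0)
    (hS : act W f (pt W x y) - pt W x y = TT W a F) :
    x - a ≠ 0 ∧ f x = a + ((a : F) - b) * (a - c) / (x - a) ∧
      f y = -(((a : F) - b) * (a - c)) * y / (x - a) ^ 2 := by
  have hx : x - a ≠ 0 := by
    intro h0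
    rw [On, h0, zero_mul, zero_mul] at e
    exact hy (pow_eq_zero_iff two_ne_zero |>.1 e)
  rw [sub_eq_iff_eq_add', h.act_pt f e, (h.add_T e hx).2] at hS
  exact ⟨hx, h.inj (e.map f) (h.add_T e hx).1 hS⟩

theorem Sp.kum (h : Sp W a b c) (R : Pts W F) : ∃ g : F, g ≠ 0 ∧
    g ^ 2 = al a b c ((2 : ℕ) • R) ∧
    ∀ f : F →+* F, (2 : ℕ) • (act W f R - R) = 0 → f g = ww a (act W f R - R) * g := by
  obtain ⟨n1, n2, n3⟩ := h.ne (F := F)
  by_cases h2 : (2 : ℕ) • R = 0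
  · refine ⟨1, one_ne_zero, by rw [h2, al_zero, one_pow], fun f _ => ?_⟩
    rw [h.act_tors f h2, sub_self, ww_zero, map_one, mul_one]
  rcases h.cases R with h0 | ⟨x, y, e, rfl⟩
  · exact absurd (by rw [h0, smul_zero]) h2
  have hy : y ≠ 0 := fun hy => h2 ((h.two_iff e).2 hy)
  have hxa : x - a ≠ 0 := by
    intro h0
    rw [On, h0, zero_mul, zero_mul] at e
    exact hy (pow_eq_zero_iff two_ne_zero |>.1 e)
  obtain ⟨G, hG⟩ : ∃ G : F, G = ((x - a) ^ 2 - ((a : F) - b) * (a - c)) / (2 * y) := ⟨_, rfl⟩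
  obtain ⟨y₃, hon, hadd⟩ : ∃ y₃ : F, On a b c (a + G ^ 2) y₃ ∧
      (2 : ℕ) • pt W x y = pt W (a + G ^ 2) y₃ := by
    have key := h.add_self (x₃ := a + G ^ 2)
      (l := (3 * x ^ 2 - 2 * (a + b + c) * x + (a * b + b * c + c * a)) / (2 * y)) e hy
      (by field_simp) (by
        unfold On at e
        rw [hG]
        field_simp
        linear_combination 4 * (2 * x - b - c) * e) rfl
    exact ⟨_, key.1, by rw [two_nsmul, key.2]⟩
  have tr : ∀ f : F →+* F, (2 : ℕ) • (act W f (pt W x y) - pt W x y) = 0 →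
      f G = ww a (act W f (pt W x y) - pt W x y) * G ∧
      (G = 0 → f (x - a) = ww a (act W f (pt W x y) - pt W x y) * (x - a)) := by
    intro f hf
    have hfG : f G = ((f x - a) ^ 2 - ((a : F) - b) * (a - c)) / (2 * f y) := by
      rw [hG]
      simp [map_ofNat]
    have hG0 : G = 0 → (x - a) ^ 2 - ((a : F) - b) * (a - c) = 0 := fun h0 => by
      rw [hG, div_eq_zero_iff] at h0
      exact h0.resolve_right (mul_ne_zero two_ne_zero hy)
    rw [map_sub f x, map_ratCast]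
    rcases h.tors hf with hS | hS | hS | hS
    · rw [hS, ww_zero, one_mul, one_mul]
      rw [sub_eq_zero, h.act_pt f e] at hS
      obtain ⟨h1, h3⟩ := h.inj (e.map f) e hS
      rw [hfG, h1, h3, hG]
      exact ⟨rfl, fun _ => rfl⟩
    · obtain ⟨h0, h1, h3⟩ := h.move f e hy hS
      rw [hS, ww_T, one_mul, one_mul, hfG, h1, h3]
      refine ⟨by rw [hG]; field_simp; ring, fun hh => ?_⟩
      field_simp
      linear_combination -hG0 hh
    · obtain ⟨h0, h1, h3⟩ := h.rot.move f e.rot hy hS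
      have n4 : (b : F) - a ≠ 0 := fun hh => n1 (by linear_combination -hh)
      rw [hS, h.ww_b, hfG, h1, h3]
      refine ⟨by rw [hG]; field_simp; ring, fun hh => ?_⟩
      field_simp
      linear_combination hG0 hh
    · obtain ⟨h0, h1, h3⟩ := h.rot.rot.move f e.rot.rot hy hS
      have n4 : (c : F) - a ≠ 0 := fun hh => n2 (by linear_combination -hh)
      have n5 : (c : F) - b ≠ 0 := fun hh => n3 (by linear_combination -hh)
      rw [hS, h.ww_c, hfG, h1, h3]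
      refine ⟨by rw [hG]; field_simp; ring, fun hh => ?_⟩
      field_simp
      linear_combination hG0 hh
  by_cases hG0 : G = 0
  · refine ⟨x - a, hxa, ?_, fun f hf => (tr f hf).2 hG0⟩
    have hT : (2 : ℕ) • pt W x y = TT W a F := by
      rw [hG0] at hon hadd
      have : y₃ = 0 := by
        apply pow_eq_zero_iff (n := 2) (by norm_num) |>.1
        rw [hon]; ring
      rw [hadd, this, TT]
      congr 1
      ring
    rw [hG, div_eq_zero_iff] at hG0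
    rw [hT, h.al_T]
    linear_combination hG0.resolve_right (mul_ne_zero two_ne_zero hy)
  · refine ⟨G, hG0, ?_, fun f hf => (tr f hf).1⟩
    rw [hadd, h.al_pt hon (by rw [add_sub_cancel_left]; exact pow_ne_zero 2 hG0),
      add_sub_cancel_left]

/-- The 2-covering attached to `(d₁, d₂)` has a point over `F`. -/
def Loc (F : Type) [Field F] [CharZero F] (a b c d₁ d₂ : ℚ) : Prop :=
  ∃ z₁ z₂ z₃ t : F, (z₁ ≠ 0 ∨ z₂ ≠ 0) ∧ d₁ * z₁ ^ 2 - d₂ * z₂ ^ 2 = (b - a) * t ^ 2 ∧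
    d₁ * z₁ ^ 2 - d₁ * d₂ * z₃ ^ 2 = (c - a) * t ^ 2

theorem Sp.loc_of (h : Sp W a b c) {ξ : GQ → Pts W Qb} (h2 : ∀ σ, (2 : ℕ) • ξ σ = 0)
    {δ ε : Qb} (hδ : ∀ σ : GQ, σ δ = ww a (ξ σ) * δ) (hε : ∀ σ : GQ, σ ε = ww b (ξ σ) * ε)
    {d₁ d₂ : ℚ} (d1 : d₁ ≠ 0) (d2 : d₂ ≠ 0) (hd : δ ^ 2 = d₁) (he : ε ^ 2 = d₂)
    (hl : LocTriv W F ξ) : Loc F a b c d₁ d₂ := by
  obtain ⟨R, hR⟩ := hl
  have t2 : ∀ σ : AlgebraicClosure F ≃ₐ[F] AlgebraicClosure F,
      (2 : ℕ) • (act W (σ : AlgebraicClosure F →+* AlgebraicClosure F) R - R) = 0 := by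
    intro σ
    obtain ⟨τ, hτ⟩ := exists_res F σ
    rw [← hR σ τ hτ, ← map_nsmul, h2, map_zero]
  obtain ⟨g, g0, g2, hg⟩ := h.kum R
  obtain ⟨k, k0, k2, hk⟩ := h.swap.kum R
  obtain ⟨z, hz⟩ := xCLocG_quot (F := F) g0 hd (fun σ => by
    obtain ⟨τ, hτ⟩ := exists_res F σ
    have e2 := congrArg (emb F) (hδ τ)
    rw [hτ, map_mul, ← h.ww_act, hR σ τ hτ] at e2
    exact ⟨_, ww_sq _, e2, hg σ (t2 σ)⟩)
  obtain ⟨w, hw⟩ := xCLocG_quot (F := F) k0 he (fun σ => by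
    obtain ⟨τ, hτ⟩ := exists_res F σ
    have e2 := congrArg (emb F) (hε τ)
    rw [hτ, map_mul, ← h.swap.ww_act, hR σ τ hτ] at e2
    exact ⟨_, ww_sq _, e2, hk σ (t2 σ)⟩)
  have inj := (algebraMap F (AlgebraicClosure F)).injective
  have fx : ∀ σ : AlgebraicClosure F ≃ₐ[F] AlgebraicClosure F,
      act W (σ : AlgebraicClosure F →+* AlgebraicClosure F) ((2 : ℕ) • R) = (2 : ℕ) • R :=
    fun σ => by rw [← sub_eq_zero, map_nsmul, ← nsmul_sub, t2]
  obtain ⟨P, hP⟩ : ∃ P : Pts W F, act W (algebraMap F (AlgebraicClosure F)) P = (2 : ℕ) • R := by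
    obtain ⟨x, hx⟩ := xCLocG_fix (x := qx ((2 : ℕ) • R)) (fun σ => by
      have := (qx_act (σ : AlgebraicClosure F →+* AlgebraicClosure F) ((2 : ℕ) • R)).1
      rw [fx] at this
      exact this.symm)
    obtain ⟨y, hy⟩ := xCLocG_fix (x := qy ((2 : ℕ) • R)) (fun σ => by
      have := (qx_act (σ : AlgebraicClosure F →+* AlgebraicClosure F) ((2 : ℕ) • R)).2
      rw [fx] at this
      exact this.symm)
    rcases h.cases ((2 : ℕ) • R) with e | ⟨x', y', e, e'⟩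
    · exact ⟨0, by rw [e, map_zero]⟩
    rw [e', (h.qx_pt e).1] at hx
    rw [e', (h.qx_pt e).2] at hy
    subst hx hy
    have e2 : On a b c x y := inj (by
      unfold On at e
      simpa using e)
    exact ⟨pt W x y, by rw [h.act_pt _ e2, e']⟩
  have hz' : (d₁ : F) = al a b c P * z ^ 2 := inj (by
    rw [map_ratCast, hz, g2, ← hP, h.al_act, map_mul, map_pow])
  have hw' : (d₂ : F) = al b a c P * w ^ 2 := inj (by
    rw [map_ratCast, hw, k2, ← hP, h.swap.al_act, map_mul, map_pow])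
  have z0 : z ≠ 0 := by
    rintro rfl
    exact d1 (by simpa using hz')
  have w0 : w ≠ 0 := by
    rintro rfl
    exact d2 (by simpa using hw')
  obtain ⟨n1, n2, n3⟩ := h.ne (F := F)
  have n4 : (b : F) - a ≠ 0 := fun hh => n1 (by linear_combination -hh)
  rcases h.cases P with rfl | ⟨x, y, e, rfl⟩
  · rw [al_zero] at hz' hw'
    refine ⟨w, z, 1, 0, Or.inl w0, ?_, ?_⟩ <;> rw [hz', hw'] <;> ring
  by_cases ha : x - a = 0
  · obtain rfl : x = a := sub_eq_zero.1 ha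
    obtain rfl : y = 0 := pow_eq_zero_iff two_ne_zero |>.1 (e.trans (by ring))
    rw [h.swap.al_pt e.swap n1] at hw'
    rw [← TT, h.al_T] at hz'
    refine ⟨0, w⁻¹, (z * w * (a - b))⁻¹, 1, Or.inr (inv_ne_zero w0), ?_, ?_⟩ <;> rw [hz', hw'] <;>
      field_simp <;> ring
  by_cases hb : x - b = 0
  · obtain rfl : x = b := sub_eq_zero.1 hb
    obtain rfl : y = 0 := pow_eq_zero_iff two_ne_zero |>.1 (e.trans (by ring))
    rw [h.al_pt e n4] at hz'
    rw [← TT, h.swap.al_T] at hw'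
    refine ⟨z⁻¹, 0, (z * w * (b - a))⁻¹, 1, Or.inl (inv_ne_zero z0), ?_, ?_⟩ <;> rw [hz', hw'] <;>
      field_simp <;> ring
  · rw [h.al_pt e ha] at hz'
    rw [h.swap.al_pt e.swap hb] at hw'
    unfold On at e
    refine ⟨z⁻¹, w⁻¹, y / (z * w * ((x - a) * (x - b))), 1, Or.inl (inv_ne_zero z0), ?_, ?_⟩ <;>
      rw [hz', hw']
    · field_simp
      ring
    · rw [div_pow, e]
      field_simp
      ring

end Pool.Agent.MP_e23604_nt.U.AJ

end
end

section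

/-!
Full 2-descent: rank two and trivial 2-primary Sha from the local conditions.
-/

open WeierstrassCurve
open scoped Classical

set_option linter.unusedSectionVars false

noncomputable section

namespace Pool.Agent.MP_e23604_nt.U.AJ

open P (xCSel_h90 xCSel_sign xCSel_sq)

attribute [local instance 2000] decQ

variable {W : WeierstrassCurve ℚ} {a b c : ℚ}

/-- Kummer data for a rational point. -/
def Km (a b : ℚ) (P : Pts W ℚ) (u v : ℚ) : Prop :=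
  ∃ (R : Pts W Qb) (g k : Qb), (2 : ℕ) • R = rp W Qb P ∧ g ^ 2 = u ∧ k ^ 2 = v ∧
    (∀ σ : GQ, σ g = ww a (dd W R σ) * g) ∧ ∀ σ : GQ, σ k = ww b (dd W R σ) * k

theorem dd_two {R : Pts W Qb} {P : Pts W ℚ} (h : (2 : ℕ) • R = rp W Qb P) (σ : GQ) :
    (2 : ℕ) • dd W R σ = 0 := by
  rw [dd, nsmul_sub, ← map_nsmul, h, act_rp, sub_self]

theorem Sp.km (h : Sp W a b c) (P : Pts W ℚ) : Km a b P (al a b c P) (al b a c P) := by
  obtain ⟨R, hR⟩ := h.half (rp W Qb P)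
  obtain ⟨g, -, g2, hg⟩ := h.kum R
  obtain ⟨k, -, k2, hk⟩ := h.swap.kum R
  refine ⟨R, g, k, hR, ?_, ?_, fun σ => hg σ (dd_two hR σ), fun σ => hk σ (dd_two hR σ)⟩
  · rw [g2, hR, rp, h.al_act]
    rfl
  · rw [k2, hR, rp, h.swap.al_act]
    rfl

theorem Sp.km_add (h : Sp W a b c) {P P' : Pts W ℚ} {u v u' v' : ℚ} (h1 : Km a b P u v)
    (h2 : Km a b P' u' v') : Km a b (P + P') (u * u') (v * v') := by
  obtain ⟨R, g, k, e1, e2, e3, e4, e5⟩ := h1
  obtain ⟨R', g', k', f1, f2, f3, f4, f5⟩ := h2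
  refine ⟨R + R', g * g', k * k', by rw [nsmul_add, e1, f1, map_add],
    by rw [mul_pow, e2, f2, Rat.cast_mul], by rw [mul_pow, e3, f3, Rat.cast_mul],
    fun σ => ?_, fun σ => ?_⟩
  · rw [dd_add, h.ww_add (dd_two e1 σ) (dd_two f1 σ), map_mul, e4, f4]
    ring
  · rw [dd_add, h.swap.ww_add (dd_two e1 σ) (dd_two f1 σ), map_mul, e5, f5]
    ring

theorem Sp.km_pow (h : Sp W a b c) {P : Pts W ℚ} {u v : ℚ} (h1 : Km a b P u v) (n : ℕ) :
    Km a b (n • P) (u ^ n) (v ^ n) := by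
  induction n with
  | zero =>
    have : ∀ σ, dd W 0 σ = 0 := fun σ => by simp [dd]
    exact ⟨0, 1, 1, by simp, by simp, by simp, fun σ => by rw [this, ww_zero]; simp,
      fun σ => by rw [this, ww_zero]; simp⟩
  | succ n ih =>
    rw [succ_nsmul, pow_succ, pow_succ]
    exact h.km_add ih h1

theorem Sp.km_sq (h : Sp W a b c) {P R : Pts W ℚ} {u v : ℚ} (h1 : Km a b P u v)
    (hR : (2 : ℕ) • R = P) : IsSquare u ∧ IsSquare v := by
  obtain ⟨R', g, k, e1, e2, e3, e4, e5⟩ := h1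
  have h0 : ∀ σ, dd W R' σ = 0 := fun σ => by
    have := h.act_tors (σ : Qb →+* Qb) (S := R' - rp W Qb R)
      (by rw [nsmul_sub, e1, ← map_nsmul, hR, sub_self])
    rw [map_sub, act_rp, sub_left_inj] at this
    rw [dd, this, sub_self]
  exact ⟨xCSel_sq e2 fun σ => by rw [e4, h0, ww_zero, one_mul],
    xCSel_sq e3 fun σ => by rw [e5, h0, ww_zero, one_mul]⟩

/-- The first coordinate of the image of `i Ta + j Tb + k P₁ + l P₂`. -/
def im₁ (a b c x₁ x₂ : ℚ) (i j k l : ℕ) : ℚ :=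
  ((a - b) * (a - c)) ^ i * (b - a) ^ j * (x₁ - a) ^ k * (x₂ - a) ^ l

/-- The second coordinate of the image of `i Ta + j Tb + k P₁ + l P₂`. -/
def im₂ (a b c x₁ x₂ : ℚ) (i j k l : ℕ) : ℚ :=
  (a - b) ^ i * ((b - a) * (b - c)) ^ j * (x₁ - b) ^ k * (x₂ - b) ^ l

/-- The descent data. -/
structure Desc4 (a b c x₁ y₁ x₂ y₂ : ℚ) : Prop where
  on1 : y₁ ^ 2 = (x₁ - a) * (x₁ - b) * (x₁ - c)
  on2 : y₂ ^ 2 = (x₂ - a) * (x₂ - b) * (x₂ - c)
  y1 : y₁ ≠ 0
  y2 : y₂ ≠ 0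
  sel : ∀ d₁ d₂ : ℚ, d₁ ≠ 0 → d₂ ≠ 0 → Loc ℝ a b c d₁ d₂ →
    (∀ (p : ℕ) [Fact p.Prime], Loc ℚ_[p] a b c d₁ d₂) →
    ∃ (i j k l : ℕ) (z₁ z₂ : ℚ), d₁ = im₁ a b c x₁ x₂ i j k l * z₁ ^ 2 ∧
      d₂ = im₂ a b c x₁ x₂ i j k l * z₂ ^ 2
  ind : ∀ i j k l : ℕ, IsSquare (im₁ a b c x₁ x₂ i j k l) → IsSquare (im₂ a b c x₁ x₂ i j k l) →
    2 ∣ i ∧ 2 ∣ j ∧ 2 ∣ k ∧ 2 ∣ l

variable {x₁ y₁ x₂ y₂ : ℚ}

theorem Sp.km_im (h : Sp W a b c) (d : Desc4 a b c x₁ y₁ x₂ y₂) (i j k l : ℕ) :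
    Km a b (i • TT W a ℚ + j • TT W b ℚ + k • pt W x₁ y₁ + l • pt W x₂ y₂)
      (im₁ a b c x₁ x₂ i j k l) (im₂ a b c x₁ x₂ i j k l) := by
  obtain ⟨n1, n2, n3⟩ := h.ne (F := ℚ)
  have key : ∀ {x y : ℚ}, y ^ 2 = (x - a) * (x - b) * (x - c) → y ≠ 0 →
      Km a b (pt W x y) (x - a) (x - b) := by
    intro x y e hy
    have e' : On a b c x y := e
    have h0 : (x - a) * (x - b) * (x - c) ≠ 0 := e ▸ pow_ne_zero 2 hy
    have := h.km (pt W x y)
    rwa [h.al_pt e' (left_ne_zero_of_mul (left_ne_zero_of_mul h0)),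
      h.swap.al_pt e'.swap (right_ne_zero_of_mul (left_ne_zero_of_mul h0))] at this
  have ka : Km a b (TT W a ℚ) ((a - b) * (a - c)) (a - b) := by
    have := h.km (TT W a ℚ)
    rwa [h.al_T, TT, h.swap.al_pt (on_root a b c).swap n1] at this
  have kb : Km a b (TT W b ℚ) (b - a) ((b - a) * (b - c)) := by
    have := h.km (TT W b ℚ)
    rwa [h.swap.al_T, TT, h.al_pt (on_root b a c).swap
      (fun e => n1 (by linear_combination -e))] at this
  exact h.km_add (h.km_add (h.km_add (h.km_pow ka i) (h.km_pow kb j))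
    (h.km_pow (key d.on1 d.y1) k)) (h.km_pow (key d.on2 d.y2) l)

theorem Sp.selmer (h : Sp W a b c) (d : Desc4 a b c x₁ y₁ x₂ y₂) {ξ : GQ → Pts W Qb}
    (hξ : ξ ∈ cocycles W) (h2 : ∀ σ, (2 : ℕ) • ξ σ = 0) (hl0 : LocTriv W ℝ ξ)
    (hl : ∀ (p : ℕ) [Fact p.Prime], LocTriv W ℚ_[p] ξ) :
    ∃ (R : Pts W Qb) (i j k l : ℕ), ξ = dd W R ∧ (2 : ℕ) • R =
      rp W Qb (i • TT W a ℚ + j • TT W b ℚ + k • pt W x₁ y₁ + l • pt W x₂ y₂) := by
  obtain ⟨δ, d₁, δ0, d1, hd, hδ⟩ := xCSel_h90 (fun σ => ww a (ξ σ)) (fun σ => ww_sq _)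
    (fun σ τ => by
      rw [coc_mul hξ, h.ww_add (h2 σ) (by rw [← map_nsmul, h2, map_zero]), h.ww_act]; rfl)
    (hξ.1.comp (ww a))
  obtain ⟨ε, d₂, ε0, d2, he, hε⟩ := xCSel_h90 (fun σ => ww b (ξ σ)) (fun σ => ww_sq _)
    (fun σ τ => by
      rw [coc_mul hξ, h.swap.ww_add (h2 σ) (by rw [← map_nsmul, h2, map_zero]), h.swap.ww_act]
      rfl)
    (hξ.1.comp (ww b))
  obtain ⟨i, j, k, l, z₁, z₂, e1, e2⟩ := d.sel d₁ d₂ d1 d2 (h.loc_of h2 hδ hε d1 d2 hd he hl0)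
    fun p _ => h.loc_of h2 hδ hε d1 d2 hd he (hl p)
  obtain ⟨R, g, g', f1, f2, f3, f4, f5⟩ := h.km_im d i j k l
  refine ⟨R, i, j, k, l, funext fun σ => h.eq_of_ww (h2 σ) (dd_two f1 σ) ?_ ?_, f1⟩
  · exact xCSel_sign (z := z₁) δ0 hδ f4 (by rw [hd, f2, e1]; push_cast; rfl) σ
  · exact xCSel_sign (z := z₂) ε0 hε f5 (by rw [he, f3, e2]; push_cast; rfl) σ

theorem rank_two {A : Type} [AddCommGroup A] (hfg : AddGroup.FG A) (P Q : A)
    (gen : ∀ x, ∃ (R t : A) (i j : ℤ), (2 : ℕ) • t = 0 ∧ x = (2 : ℕ) • R + (t + i • P + j • Q))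
    (ind : ∀ (R t : A) (i j : ℤ), (2 : ℕ) • t = 0 → (2 : ℕ) • R = t + i • P + j • Q →
      t = 0 ∧ 2 ∣ i ∧ 2 ∣ j) : Module.finrank ℤ A = 2 := by
  have : Module.Finite ℤ A := Module.Finite.iff_addGroup_fg.2 hfg
  have li : LinearIndependent ℤ ![P, Q] := by
    have key : ∀ (n : ℕ) (t : A) (i j : ℤ), (2 : ℕ) • t = 0 → t + i • P + j • Q = 0 →
        2 ^ n ∣ i ∧ 2 ^ n ∣ j := by
      intro n
      induction n with
      | zero => simp
      | succ n ih =>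
        intro t i j ht h
        obtain ⟨rfl, ⟨i, rfl⟩, ⟨j, rfl⟩⟩ := ind 0 t i j ht (by rw [h, nsmul_zero])
        obtain ⟨h1, h2⟩ := ih (-(i • P + j • Q)) i j (by
          rw [← neg_eq_zero, ← h]; module) (by abel)
        rw [pow_succ']
        exact ⟨mul_dvd_mul_left _ h1, mul_dvd_mul_left _ h2⟩
    have z : ∀ i : ℤ, 2 ^ i.natAbs ∣ i → i = 0 := fun i hi => by
      refine Int.eq_zero_of_abs_lt_dvd hi ?_
      rw [Int.abs_eq_natAbs]
      exact_mod_cast Nat.lt_pow_self (by norm_num)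
    rw [LinearIndependent.pair_iff]
    intro i j h
    exact ⟨z i (key _ 0 i j (nsmul_zero _) (by rw [zero_add, h])).1,
      z j (key _ 0 i j (nsmul_zero _) (by rw [zero_add, h])).2⟩
  set N := Submodule.span ℤ (Set.range ![P, Q]) with hN
  have tq : Module.finrank ℤ (A ⧸ N) = 0 := by
    let N' := N ⊔ Submodule.torsionBy ℤ A 2
    obtain ⟨r, hr1, hr⟩ := Submodule.exists_sub_one_mem_and_smul_eq_zero_of_fg_of_le_smul
      (Ideal.span {(2 : ℤ)}) (⊤ : Submodule ℤ (A ⧸ N')) Module.Finite.fg_top (by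
        rintro x -
        obtain ⟨x, rfl⟩ := N'.mkQ_surjective x
        obtain ⟨R, t, i, j, ht, rfl⟩ := gen x
        have h1 : N'.mkQ (t + i • P + j • Q) = 0 := by
          rw [Submodule.mkQ_apply, Submodule.Quotient.mk_eq_zero]
          refine add_mem (add_mem (Submodule.mem_sup_right ?_) (Submodule.mem_sup_left
            (N.smul_mem _ (Submodule.subset_span ⟨0, rfl⟩)))) (Submodule.mem_sup_left
            (N.smul_mem _ (Submodule.subset_span ⟨1, rfl⟩)))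
          rw [Submodule.mem_torsionBy_iff]
          exact_mod_cast ht
        rw [map_add, h1, add_zero, map_nsmul, ← natCast_zsmul]
        exact Submodule.smul_mem_smul (Ideal.subset_span rfl) trivial)
    have r0 : 2 * r ≠ 0 := by
      rw [Ideal.mem_span_singleton] at hr1
      omega
    rw [Module.finrank_eq_zero_iff]
    intro x
    obtain ⟨x, rfl⟩ := N.mkQ_surjective x
    refine ⟨2 * r, r0, ?_⟩
    have := hr (N'.mkQ x) trivial
    rw [← map_smul, Submodule.mkQ_apply, Submodule.Quotient.mk_eq_zero, Submodule.mem_sup] at this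
    obtain ⟨y, hy, z, hz, e⟩ := this
    rw [Submodule.mem_torsionBy_iff] at hz
    rw [← map_smul, Submodule.mkQ_apply, Submodule.Quotient.mk_eq_zero, mul_smul, ← e, smul_add,
      hz, add_zero]
    exact N.smul_mem _ hy
  rw [← Submodule.finrank_quotient_add_finrank N, tq, zero_add, hN, finrank_span_eq_card li]
  simp

theorem loc_of_res (F : Type) [Field F] [CharZero F] (ξ : Z1 (galQ W))
    (hc : (QuotientAddGroup.mk ξ : H1 (galQ W)) ∈ resKer W F) : LocTriv W F ξ.1 := by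
  obtain ⟨η, hη, e⟩ := hc
  obtain ⟨P, hP⟩ := QuotientAddGroup.eq.1 e
  have : ξ.1 = η.1 + dd _ P := by
    funext σ
    have := hP σ σ rfl
    simp only [AddMonoidHom.id_apply, AddSubgroup.coe_add, AddSubgroup.coe_neg,
      AddSubgroup.subtype_apply, Pi.add_apply, Pi.neg_apply] at this
    exact neg_add_eq_iff_eq_add.1 this
  rw [this]
  exact LocTriv.add hη (dd_loc _ _ _)

theorem half_nsmul {A : Type} [AddCommGroup A] (n : ℕ) (Q : A) :
    n • Q = (n % 2) • Q + (2 : ℕ) • (n / 2) • Q := by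
  rw [← mul_nsmul', ← add_nsmul, Nat.mod_add_div]

theorem Sp.descent (h : Sp W a b c) (d : Desc4 a b c x₁ y₁ x₂ y₂) :
    W.IsElliptic ∧ Module.finrank ℤ W.toAffine.Point = 2 ∧
      ∀ s ∈ Sha W, ∀ k : ℕ, 2 ^ k • s = 0 → s = 0 := by
  have gen0 : ∀ P : Pts W ℚ, ∃ (R : Pts W ℚ) (i j k l : ℕ), P = (2 : ℕ) • R +
      (i • TT W a ℚ + j • TT W b ℚ + k • pt W x₁ y₁ + l • pt W x₂ y₂) := by
    intro P
    obtain ⟨R, hR⟩ := h.half (rp _ Qb P)
    obtain ⟨R', i, j, k, l, e1, e2⟩ := h.selmer d (dd_memU R) (dd_two hR)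
      (dd_loc _ _ _) (fun p _ => dd_loc _ _ _)
    obtain ⟨P₀, hP₀⟩ := h.fixed (P := R - R') (fun σ => by
      have := congrFun e1 σ
      simp only [dd, map_sub] at this ⊢
      rw [← sub_eq_zero.2 this]; abel)
    refine ⟨P₀, i, j, k, l, act_inj _ (Rat.castHom Qb) ?_⟩
    change rp _ Qb _ = rp _ Qb _
    rw [map_add, map_nsmul, ← hP₀, ← e2, ← hR, nsmul_sub, sub_add_cancel]
  refine ⟨h.ell, ?_, ?_⟩
  · have := h.ell
    have ell : (W.baseChange ℚ).IsElliptic := inferInstanceAs (W.map _).IsElliptic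
    have fi : (nsmulAddMonoidHom (α := Pts W ℚ) 2).range.FiniteIndex := by
      have : Finite (Pts W ℚ ⧸ (nsmulAddMonoidHom (α := Pts W ℚ) 2).range) := by
        refine Finite.of_surjective (fun m : Fin 2 × Fin 2 × Fin 2 × Fin 2 => (QuotientAddGroup.mk
          ((m.1 : ℕ) • TT W a ℚ + (m.2.1 : ℕ) • TT W b ℚ + (m.2.2.1 : ℕ) • pt W x₁ y₁ +
            (m.2.2.2 : ℕ) • pt W x₂ y₂))) ?_
        intro x
        obtain ⟨P, rfl⟩ := QuotientAddGroup.mk_surjective x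
        obtain ⟨R, i, j, k, l, rfl⟩ := gen0 P
        refine ⟨(⟨i % 2, Nat.mod_lt _ two_pos⟩, ⟨j % 2, Nat.mod_lt _ two_pos⟩,
          ⟨k % 2, Nat.mod_lt _ two_pos⟩, ⟨l % 2, Nat.mod_lt _ two_pos⟩), ?_⟩
        rw [QuotientAddGroup.eq]
        refine ⟨R + ((i / 2) • TT W a ℚ + (j / 2) • TT W b ℚ + (k / 2) • pt W x₁ y₁ +
          (l / 2) • pt W x₂ y₂), ?_⟩
        rw [half_nsmul i, half_nsmul j, half_nsmul k, half_nsmul l]
        simp only [nsmulAddMonoidHom_apply, nsmul_add]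
        abel
      exact AddSubgroup.finiteIndex_of_finite_quotient
    have fg : AddGroup.FG (Pts W ℚ) := @P.fg_of_two decQ _ ell fi
    have rk : Module.finrank ℤ (Pts W ℚ) = 2 := by
      refine rank_two fg (pt W x₁ y₁) (pt W x₂ y₂) (fun P => ?_) fun R t k l ht e => ?_
      · obtain ⟨R, i, j, k, l, rfl⟩ := gen0 P
        refine ⟨R, i • TT W a ℚ + j • TT W b ℚ, k, l, ?_, by simp only [natCast_zsmul]⟩
        rw [nsmul_add, smul_comm, h.two_T, smul_comm, h.swap.two_T]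
        simp
      · obtain ⟨i, j, hi, hj, rfl⟩ : ∃ i j : ℕ, i < 2 ∧ j < 2 ∧
            t = i • TT W a ℚ + j • TT W b ℚ := by
          rcases h.tors ht with e | e | e | e
          · exact ⟨0, 0, by norm_num, by norm_num, by simp [e]⟩
          · exact ⟨1, 0, by norm_num, by norm_num, by simp [e]⟩
          · exact ⟨0, 1, by norm_num, by norm_num, by simp [e]⟩
          · exact ⟨1, 1, by norm_num, by norm_num, by simp [e, h.T_add]⟩
        obtain ⟨k', hk⟩ := Int.eq_ofNat_of_zero_le (Int.emod_nonneg k two_ne_zero)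
        obtain ⟨l', hl⟩ := Int.eq_ofNat_of_zero_le (Int.emod_nonneg l two_ne_zero)
        obtain ⟨s1, s2⟩ := h.km_sq (h.km_im d i j k' l')
          (R := R - ((k / 2) • pt W x₁ y₁ + (l / 2) • pt W x₂ y₂)) (by
            rw [nsmul_sub, e, ← natCast_zsmul _ k', ← natCast_zsmul _ l', ← hk, ← hl,
              Int.emod_def, Int.emod_def]
            module)
        obtain ⟨f1, f2, f3, f4⟩ := d.ind i j k' l' s1 s2
        obtain rfl : i = 0 := by omega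
        obtain rfl : j = 0 := by omega
        exact ⟨by simp, by omega, by omega⟩
    exact (finrank_congr (W := W) (W' := W.baseChange ℚ) (by ext <;> simp [baseChange])
      _ decQ).trans rk
  · have two : ∀ s ∈ Sha W, 2 • s = 0 → s = 0 := by
      intro s hc h2
      obtain ⟨ξ, rfl⟩ := QuotientAddGroup.mk_surjective s
      have hl : ∀ (p : ℕ) [Fact p.Prime], LocTriv W ℚ_[p] ξ.1 := fun p hp =>
        loc_of_res _ ξ (AddSubgroup.mem_iInf.1 (AddSubgroup.mem_iInf.1 hc.2 p) hp)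
      obtain ⟨P, hP⟩ := (QuotientAddGroup.eq_zero_iff ((2 : ℕ) • ξ)).1 h2
      obtain ⟨Q, rfl⟩ := h.half P
      obtain ⟨R, i, j, k, l, e1, -⟩ := h.selmer d (sub_mem ξ.2 (dd_memU Q)) (fun σ => by
        have : (2 : ℕ) • ξ.1 σ = act _ (σ : Qb →+* Qb) ((2 : ℕ) • Q) - (2 : ℕ) • Q := hP σ σ rfl
        simp only [Pi.sub_apply, dd, nsmul_sub, this, map_nsmul, sub_self])
        (by rw [sub_eq_add_neg]; exact (loc_of_res _ ξ hc.1).add (dd_loc _ _ _).neg)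
        (fun p _ => by rw [sub_eq_add_neg]; exact (hl p).add (dd_loc _ _ _).neg)
      refine (QuotientAddGroup.eq_zero_iff ξ).2 ⟨R + Q, ?_⟩
      rintro σ _ rfl
      have := congrFun e1 σ
      rw [Pi.sub_apply, sub_eq_iff_eq_add, ← dd_add] at this
      exact this
    intro s hc k
    induction k generalizing s with
    | zero => simp
    | succ k ih =>
      intro e
      rw [pow_succ, mul_nsmul] at e
      exact ih s hc (two _ (nsmul_mem hc _) e)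

end Pool.Agent.MP_e23604_nt.U.AJ

end
end

section

/-!
The local conditions in terms of Jacobi symbols.
-/

open scoped Classical

noncomputable section

namespace Pool.Agent.MP_e23604_nt.U.AJ

open P (xCArB_sqf xCArB_jac)

/-- A primitive solution modulo `q`. -/
def Sol (p q d₁ d₂ d₃ δ β : ℤ) : Prop :=
  ∃ x y z t : ℤ, ¬ (p ∣ x ∧ p ∣ y ∧ p ∣ z ∧ p ∣ t) ∧ q ∣ d₁ * x ^ 2 - d₂ * y ^ 2 - δ * t ^ 2 ∧
    q ∣ d₁ * x ^ 2 - d₃ * z ^ 2 - β * t ^ 2

theorem dv_of {p x y : ℤ} (h : p ∣ x) (e : y = x) : p ∣ y := e ▸ h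

theorem Sol.swap {p q d₁ d₂ d₃ δ β : ℤ} (h : Sol p q d₁ d₂ d₃ δ β) : Sol p q d₁ d₃ d₂ β δ := by
  obtain ⟨x, y, z, t, h0, h1, h2⟩ := h
  exact ⟨x, z, y, t, by tauto, h2, h1⟩

theorem Sol.rot {p q d₁ d₂ d₃ δ β : ℤ} (h : Sol p q d₁ d₂ d₃ δ β) :
    Sol p q d₂ d₃ d₁ (β - δ) (-δ) := by
  obtain ⟨x, y, z, t, h0, h1, h2⟩ := h
  refine ⟨y, z, x, t, by tauto, ?_, ?_⟩
  · exact dv_of (dvd_sub h2 h1) (by ring)
  · exact dv_of (h1.neg_right) (by ring)

theorem sol_int {p : ℕ} [hp : Fact p.Prime] {k : ℕ} (hk : k ≠ 0) {d₁ d₂ d₃ δ β : ℤ}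
    (w : Fin 4 → ℚ_[p]) (h0 : ∃ i, w i ≠ 0) (e1 : d₁ * w 0 ^ 2 - d₂ * w 1 ^ 2 = δ * w 3 ^ 2)
    (e2 : d₁ * w 0 ^ 2 - d₃ * w 2 ^ 2 = β * w 3 ^ 2) : Sol p (p ^ k) d₁ d₂ d₃ δ β := by
  obtain ⟨j, -, hj⟩ := Finset.exists_max_image Finset.univ (fun i => ‖w i‖) Finset.univ_nonempty
  have wj : w j ≠ 0 := by
    obtain ⟨i, hi⟩ := h0
    exact norm_pos_iff.1 ((norm_pos_iff.2 hi).trans_le (hj i (Finset.mem_univ i)))
  have hn : ∀ i, ‖w i / w j‖ ≤ 1 := fun i => by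
    rw [norm_div, div_le_one (norm_pos_iff.2 wj)]
    exact hj i (Finset.mem_univ i)
  let y : Fin 4 → ℤ_[p] := fun i => ⟨w i / w j, hn i⟩
  have hy : ∀ i, w i = (y i : ℚ_[p]) * w j := fun i => (div_mul_cancel₀ _ wj).symm
  have yj : y j = 1 := Subtype.ext (div_self wj)
  have f1 : (d₁ : ℤ_[p]) * y 0 ^ 2 - d₂ * y 1 ^ 2 - δ * y 3 ^ 2 = 0 := by
    refine Subtype.ext (mul_right_cancel₀ (pow_ne_zero 2 wj) ?_)
    rw [hy 0, hy 1, hy 3] at e1
    push_cast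
    linear_combination e1
  have f2 : (d₁ : ℤ_[p]) * y 0 ^ 2 - d₃ * y 2 ^ 2 - β * y 3 ^ 2 = 0 := by
    refine Subtype.ext (mul_right_cancel₀ (pow_ne_zero 2 wj) ?_)
    rw [hy 0, hy 2, hy 3] at e2
    push_cast
    linear_combination e2
  choose n hn' using fun i => ZMod.intCast_surjective (PadicInt.toZModPow k (y i))
  have key : ∀ m : ℤ, (m : ZMod (p ^ k)) = 0 → (p : ℤ) ^ k ∣ m := fun m hm => by
    exact_mod_cast (ZMod.intCast_zmod_eq_zero_iff_dvd m (p ^ k)).1 hm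
  refine ⟨n 0, n 1, n 2, n 3, fun h => ?_, key _ ?_, key _ ?_⟩
  · have h1 : (p : ℤ) ∣ n j := by
      fin_cases j
      exacts [h.1, h.2.1, h.2.2.1, h.2.2.2]
    have h2 : (p : ℤ) ∣ n j - 1 := (dvd_pow_self _ hk).trans (key _ (by
      push_cast
      rw [hn', yj, map_one, sub_self]))
    exact (Nat.prime_iff_prime_int.1 hp.out).not_dvd_one (by simpa using dvd_sub h1 h2)
  · have := congrArg (PadicInt.toZModPow k) f1
    simp only [map_sub, map_mul, map_pow, map_intCast, map_zero, ← hn'] at this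
    exact_mod_cast this
  · have := congrArg (PadicInt.toZModPow k) f2
    simp only [map_sub, map_mul, map_pow, map_intCast, map_zero, ← hn'] at this
    exact_mod_cast this

theorem sq_can {p d x : ℤ} (hp : Prime p) (h1 : p ∣ d) (h2 : ¬ p ^ 2 ∣ d) (h : p ^ 2 ∣ d * x ^ 2) :
    p ∣ x := by
  obtain ⟨c, rfl⟩ := h1
  rw [sq p, mul_assoc, mul_dvd_mul_iff_left hp.ne_zero] at h
  rw [sq p, mul_dvd_mul_iff_left hp.ne_zero] at h2
  exact hp.dvd_of_dvd_pow ((hp.dvd_or_dvd h).resolve_left h2)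

theorem one_can {p d x : ℤ} (hp : Prime p) (h1 : ¬ p ∣ d) (h : p ∣ d * x ^ 2) : p ∣ x :=
  hp.dvd_of_dvd_pow ((hp.dvd_or_dvd h).resolve_left h1)

theorem Sol.inn {p d₁ d₂ d₃ δ β : ℤ} (hp : Prime p) (h : Sol p (p ^ 2) d₁ d₂ d₃ δ β)
    (h1 : p ∣ d₁) (h2 : p ∣ d₂) (h3 : ¬ p ∣ d₃) (s1 : ¬ p ^ 2 ∣ d₁) (s2 : ¬ p ^ 2 ∣ d₂) :
    p ∣ δ ∧ ∃ z t, ¬ p ∣ t ∧ p ∣ d₃ * z ^ 2 + β * t ^ 2 := by
  obtain ⟨x, y, z, t, h0, e1, e2⟩ := h
  have pp : p ∣ p ^ 2 := dvd_pow_self p two_ne_zero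
  have e3 : p ∣ d₃ * z ^ 2 + β * t ^ 2 := by
    exact dv_of (dvd_sub (h1.mul_right (x ^ 2)) (pp.trans e2)) (by ring)
  have ht : ¬ p ∣ t := fun ht => by
    have t2 := pow_dvd_pow_of_dvd ht 2
    have hz : p ∣ z := one_can hp h3 ((dvd_add_left ((pp.trans t2).mul_left β)).1 e3)
    have hx : p ∣ x := sq_can hp h1 s1 (by
      exact dv_of (dvd_add (dvd_add e2 ((pow_dvd_pow_of_dvd hz 2).mul_left d₃)) (t2.mul_left β)) (by ring))
    have hy : p ∣ y := sq_can hp h2 s2 (by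
      exact dv_of (dvd_sub (dvd_sub ((pow_dvd_pow_of_dvd hx 2).mul_left d₁) (t2.mul_left δ)) e1) (by ring))
    exact h0 ⟨hx, hy, hz, ht⟩
  refine ⟨by_contra fun hδ => ht (one_can hp hδ ?_), z, t, ht, e3⟩
  exact dv_of (dvd_sub (dvd_sub (h1.mul_right (x ^ 2)) (h2.mul_right (y ^ 2))) (pp.trans e1)) (by ring)

theorem Sol.out {p d₁ d₂ d₃ δ β : ℤ} (hp : Prime p) (h : Sol p (p ^ 2) d₁ d₂ d₃ δ β)
    (h2 : ¬ p ∣ d₂) (h3 : ¬ p ∣ d₃) (hδ : p ∣ δ) (s : ¬ p ^ 2 ∣ δ) :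
    ∃ x y, ¬ p ∣ x ∧ p ∣ d₁ * x ^ 2 - d₂ * y ^ 2 := by
  obtain ⟨x, y, z, t, h0, e1, e2⟩ := h
  have pp : p ∣ p ^ 2 := dvd_pow_self p two_ne_zero
  have e3 : p ∣ d₁ * x ^ 2 - d₂ * y ^ 2 := by
    exact dv_of (dvd_add (pp.trans e1) (hδ.mul_right (t ^ 2))) (by ring)
  refine ⟨x, y, fun hx => ?_, e3⟩
  have x2 := pow_dvd_pow_of_dvd hx 2
  have hy : p ∣ y := one_can hp h2 (by
    exact dv_of (dvd_sub ((pp.trans x2).mul_left d₁) e3) (by ring))
  have ht : p ∣ t := sq_can hp hδ s (by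
    exact dv_of (dvd_sub (dvd_sub (x2.mul_left d₁) ((pow_dvd_pow_of_dvd hy 2).mul_left d₂)) e1) (by ring))
  have hz : p ∣ z := one_can hp h3 (by
    exact dv_of (dvd_sub (dvd_sub ((pp.trans x2).mul_left d₁)
      ((pp.trans (pow_dvd_pow_of_dvd ht 2)).mul_left β)) (pp.trans e2)) (by ring))
  exact h0 ⟨hx, hy, hz, ht⟩

theorem Sol.node {l : ℕ} (hl : l.Prime) {d₁ d₂ d₃ δ β a : ℤ} (h : Sol l (l ^ 2) d₁ d₂ d₃ δ β)
    (hm : d₁ * d₂ = d₃ * a ^ 2) (hδ : (l : ℤ) ∣ δ) (s : ¬ (l : ℤ) ^ 2 ∣ δ) (hβ : ¬ (l : ℤ) ∣ β)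
    (h3 : ¬ (l : ℤ) ∣ d₃) (s1 : ¬ (l : ℤ) ^ 2 ∣ d₁) (s2 : ¬ (l : ℤ) ^ 2 ∣ d₂) :
    jacobiSym d₃ l = if (l : ℤ) ∣ a then jacobiSym (-β) l else 1 := by
  have hp : Prime (l : ℤ) := Nat.prime_iff_prime_int.1 hl
  have cop : ∀ x : ℤ, ¬ (l : ℤ) ∣ x → x.gcd l = 1 := fun x hx =>
    Int.isCoprime_iff_gcd_eq_one.1 ((hp.coprime_iff_not_dvd.2 hx).symm)
  split_ifs with ha
  · have h4 : (l : ℤ) ^ 2 ∣ d₁ * d₂ := hm ▸ (pow_dvd_pow_of_dvd ha 2).mul_left d₃
    have h1 : (l : ℤ) ∣ d₁ := by_contra fun h1 =>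
      s2 ((hp.coprime_iff_not_dvd.2 h1).pow_left.dvd_of_dvd_mul_left h4)
    have h2 : (l : ℤ) ∣ d₂ := by_contra fun h2 =>
      s1 ((hp.coprime_iff_not_dvd.2 h2).pow_left.dvd_of_dvd_mul_right h4)
    obtain ⟨-, z, t, ht, e⟩ := h.inn hp h1 h2 h3 s1 s2
    have h5 := xCArB_jac hl (a := d₃ * -β) (m := t) (V := d₃ * z)
      (fun h => (hp.dvd_or_dvd h).elim h3 fun h => hβ (dvd_neg.1 h)) ht (by
        exact dv_of (e.mul_left d₃) (by ring))
    rw [jacobiSym.mul_left] at h5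
    rcases jacobiSym.eq_one_or_neg_one (cop _ h3) with e | e <;> rw [e] at h5 ⊢ <;> omega
  · have h4 : ¬ (l : ℤ) ∣ d₁ * d₂ := fun h4 => ha (one_can hp h3 (hm ▸ h4))
    obtain ⟨x, y, hx, e⟩ := h.out hp (fun h => h4 (h.mul_left _)) h3 hδ s
    refine xCArB_jac hl (m := a * x) (V := d₂ * y) h3 (fun h => (hp.dvd_or_dvd h).elim ha hx) ?_
    exact dv_of ((e.mul_left d₂).neg_right) (by linear_combination x ^ 2 * hm)

theorem two_odd {d₁ d₂ A B : ℤ} (h : Sol 2 (2 ^ 5) d₁ d₂ (d₁ * d₂) (16 * A) B) (hB : B % 4 = 3)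
    (h1 : d₁ % 2 = 1) (h2 : d₂ % 2 = 1) : d₁ * d₂ % 4 = 1 := by
  obtain ⟨x, y, z, t, h0, ⟨m, e1⟩, ⟨n, e2⟩⟩ := h
  have e3 := congrArg (Int.cast : ℤ → ZMod 4) e1
  have e4 := congrArg (Int.cast : ℤ → ZMod 4) e2
  obtain ⟨B, rfl⟩ : ∃ b, B = 4 * b + 3 := ⟨B / 4, by omega⟩
  obtain ⟨d₁, rfl⟩ : ∃ b, d₁ = 2 * b + 1 := ⟨d₁ / 2, by omega⟩
  obtain ⟨d₂, rfl⟩ : ∃ b, d₂ = 2 * b + 1 := ⟨d₂ / 2, by omega⟩
  have k : ∀ x : ℤ, ¬ 2 ∣ x → (x : ZMod 4) ^ 2 = 1 := fun x hx => by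
    obtain ⟨y, rfl⟩ : ∃ b, x = 2 * b + 1 := ⟨x / 2, by omega⟩
    push_cast
    generalize (y : ZMod 4) = u
    revert u
    decide
  have h5 : (x : ZMod 4) ^ 2 = 1 ∨ (y : ZMod 4) ^ 2 = 1 ∨ (z : ZMod 4) ^ 2 = 1 ∨
      (t : ZMod 4) ^ 2 = 1 := by
    by_contra hc
    simp only [not_or] at hc
    exact h0 ⟨by_contra fun h => hc.1 (k _ h), by_contra fun h => hc.2.1 (k _ h),
      by_contra fun h => hc.2.2.1 (k _ h), by_contra fun h => hc.2.2.2 (k _ h)⟩
  have h6 : (((2 * d₁ + 1) * (2 * d₂ + 1) - 1 : ℤ) : ZMod 4) = 0 := by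
    push_cast at e3 e4 ⊢
    rw [show (16 : ZMod 4) = 0 from rfl, show (32 : ZMod 4) = 0 from rfl] at e3
    rw [show (4 : ZMod 4) = 0 from rfl, show (32 : ZMod 4) = 0 from rfl] at e4
    simp only [zero_mul, zero_add, sub_zero] at e3 e4
    generalize (x : ZMod 4) = x, (y : ZMod 4) = y, (z : ZMod 4) = z, (t : ZMod 4) = t,
      (d₁ : ZMod 4) = a, (d₂ : ZMod 4) = b at h5 e3 e4 ⊢
    revert x y z t a b
    decide +kernel
  have := (ZMod.intCast_zmod_eq_zero_iff_dvd _ 4).1 h6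
  omega

theorem two_even {d₁ d₂ A B : ℤ} (h : Sol 2 (2 ^ 5) (2 * d₁) (2 * d₂) (d₁ * d₂) (16 * A) B)
    (hA : A % 2 = 1) (hB : B % 4 = 3) (h1 : d₁ % 2 = 1) (h2 : d₂ % 2 = 1) : False := by
  obtain ⟨x, y, z, t, h0, ⟨m, e1⟩, ⟨n, e2⟩⟩ := h
  obtain ⟨A, rfl⟩ : ∃ b, A = 2 * b + 1 := ⟨A / 2, by omega⟩
  obtain ⟨B, rfl⟩ : ∃ b, B = 4 * b + 3 := ⟨B / 4, by omega⟩
  obtain ⟨d₁, rfl⟩ : ∃ b, d₁ = 2 * b + 1 := ⟨d₁ / 2, by omega⟩
  obtain ⟨d₂, rfl⟩ : ∃ b, d₂ = 2 * b + 1 := ⟨d₂ / 2, by omega⟩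
  have fin : ∀ u : ℤ, u = 0 → (u : ZMod 4) = 0 := fun u hu => by rw [hu, Int.cast_zero]
  have k : ∀ x : ℤ, ¬ 2 ∣ x → (x : ZMod 4) ^ 2 = 1 := fun x hx => by
    obtain ⟨y, rfl⟩ : ∃ b, x = 2 * b + 1 := ⟨x / 2, by omega⟩
    push_cast
    generalize (y : ZMod 4) = u
    revert u
    decide
  have e4 := congrArg (Int.cast : ℤ → ZMod 4) e2
  push_cast at e4
  rw [show (4 : ZMod 4) = 0 from rfl, show (32 : ZMod 4) = 0 from rfl] at e4
  simp only [zero_mul, zero_add] at e4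
  by_cases hx : 2 ∣ x
  · obtain ⟨x, rfl⟩ := hx
    obtain ⟨y, rfl⟩ : 2 ∣ y := Int.prime_two.dvd_of_dvd_pow (n := 2) ⟨-d₂ * y ^ 2 - 8 * m +
      2 * (2 * d₁ + 1) * x ^ 2 - 4 * (2 * A + 1) * t ^ 2, by
        apply mul_left_cancel₀ (show (2 : ℤ) ≠ 0 by norm_num)
        linear_combination -e1⟩
    have e3 := fin ((2 * d₁ + 1) * x ^ 2 - (2 * d₂ + 1) * y ^ 2 - 2 * (2 * A + 1) * t ^ 2 - 4 * m)
      (mul_left_cancel₀ (show (8 : ℤ) ≠ 0 by norm_num) (by linear_combination e1))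
    have h5 : (z : ZMod 4) ^ 2 = 1 ∨ (t : ZMod 4) ^ 2 = 1 := by
      by_contra hc
      simp only [not_or] at hc
      exact h0 ⟨dvd_mul_right _ _, dvd_mul_right _ _,
        by_contra fun h => hc.1 (k _ h), by_contra fun h => hc.2 (k _ h)⟩
    push_cast at e3 e4
    rw [show (4 : ZMod 4) = 0 from rfl, zero_mul, sub_zero] at e3
    generalize (x : ZMod 4) = x, (y : ZMod 4) = y, (z : ZMod 4) = z, (t : ZMod 4) = t,
      (d₁ : ZMod 4) = a, (d₂ : ZMod 4) = b, (A : ZMod 4) = c at h5 e3 e4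
    revert x y z t a b c
    decide +kernel
  · have e3 := fin ((2 * d₁ + 1) * x ^ 2 - (2 * d₂ + 1) * y ^ 2 -
        4 * (2 * (2 * A + 1) * t ^ 2 + 4 * m))
      (mul_left_cancel₀ (show (2 : ℤ) ≠ 0 by norm_num) (by linear_combination e1))
    have h5 := k x hx
    push_cast at e3
    rw [show (4 : ZMod 4) = 0 from rfl, zero_mul, sub_zero] at e3
    generalize (x : ZMod 4) = x, (y : ZMod 4) = y, (z : ZMod 4) = z, (t : ZMod 4) = t,
      (d₁ : ZMod 4) = a, (d₂ : ZMod 4) = b at h5 e3 e4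
    revert x y z t a b
    decide +kernel

theorem real_pos {d₁ d₂ A B : ℚ} (h : Loc ℝ 0 A B d₁ d₂) (hA : 0 < A) (hB : 0 < B) (h1 : d₁ ≠ 0)
    (h2 : d₂ ≠ 0) : 0 < d₁ := by
  obtain ⟨x, y, z, t, h0, e1, e2⟩ := h
  by_contra hc
  have a1 : (d₁ : ℝ) < 0 := by exact_mod_cast lt_of_le_of_ne (not_lt.1 hc) h1
  have a2 : (d₂ : ℝ) ≠ 0 := by exact_mod_cast h2
  have a3 : (0 : ℝ) < A := by exact_mod_cast hA
  have a4 : (0 : ℝ) < B := by exact_mod_cast hB
  rw [Rat.cast_zero, sub_zero] at e1 e2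
  have b1 := mul_nonneg (neg_pos.2 a1).le (sq_nonneg x)
  have b2 := mul_nonneg a3.le (sq_nonneg t)
  have b3 := mul_nonneg a4.le (sq_nonneg t)
  have fin : (d₁ : ℝ) * x ^ 2 = 0 → (d₂ : ℝ) * y ^ 2 = 0 → False := fun u v =>
    h0.elim (fun h => mul_ne_zero a1.ne (pow_ne_zero 2 h) u)
      fun h => mul_ne_zero a2 (pow_ne_zero 2 h) v
  rcases lt_or_gt_of_ne a2 with a2 | a2
  · have b4 := mul_nonneg (mul_pos_of_neg_of_neg a1 a2).le (sq_nonneg z)
    have b5 : t ^ 2 = 0 := (mul_eq_zero.1 (show (B : ℝ) * t ^ 2 = 0 by linarith)).resolve_left a4.ne'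
    rw [b5] at e1 e2
    exact fin (by linarith) (by linarith)
  · have b4 := mul_nonneg a2.le (sq_nonneg y)
    exact fin (by linarith) (by linarith)

theorem loc_sol {p : ℕ} [Fact p.Prime] {k : ℕ} (hk : k ≠ 0) {D₁ D₂ D₃ a A B : ℤ} {u v : ℚ}
    (hu : u ≠ 0) (hv : v ≠ 0) (hm : D₁ * D₂ = D₃ * a ^ 2)
    (h : Loc ℚ_[p] 0 A B (D₁ * u ^ 2) (D₂ * v ^ 2)) : Sol p (p ^ k) D₁ D₂ D₃ A B := by
  obtain ⟨x, y, z, t, h0, e1, e2⟩ := h
  have hm' : (D₁ : ℚ_[p]) * D₂ = D₃ * a ^ 2 := by exact_mod_cast hm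
  push_cast at e1 e2
  refine sol_int hk ![u * x, v * y, a * u * v * z, t] ?_ ?_ ?_
  · rcases h0 with h | h
    · exact ⟨0, mul_ne_zero (by exact_mod_cast hu) h⟩
    · exact ⟨1, mul_ne_zero (by exact_mod_cast hv) h⟩
  · simp only [Matrix.cons_val]
    linear_combination e1
  · simp only [Matrix.cons_val]
    linear_combination e2 + (u * v * z) ^ 2 * hm'

/-- The arithmetic form of the local conditions. -/
structure Ari (A B C a b c : ℕ) (e : ℤ) : Prop where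
  da : a ∣ A
  db : b ∣ B
  dc : c ∣ C
  e1 : e = 1 ∨ e = -1
  e4 : e * b * c % 4 = 1
  ja : ∀ p : ℕ, p.Prime → p ∣ A →
    jacobiSym (e * b * c) p = if p ∣ a then jacobiSym (-B) p else 1
  jb : ∀ p : ℕ, p.Prime → p ∣ B →
    jacobiSym (e * a * c) p = if p ∣ b then jacobiSym (-A) p else 1
  jc : ∀ p : ℕ, p.Prime → p ∣ C → jacobiSym (a * b) p = if p ∣ c then jacobiSym A p else 1

theorem loc_ari {A B C : ℕ} (hs : Squarefree (A * B * C)) (hA : A % 2 = 1) (hB : B % 4 = 3)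
    (hC : B = 16 * A + C) {d₁ d₂ : ℚ} (h1 : d₁ ≠ 0) (h2 : d₂ ≠ 0)
    (hR : Loc ℝ 0 (16 * A) B d₁ d₂) (hp : ∀ (p : ℕ) [Fact p.Prime], Loc ℚ_[p] 0 (16 * A) B d₁ d₂) :
    ∃ (a b c : ℕ) (e : ℤ), Ari A B C a b c e ∧ (∃ z : ℚ, d₁ = a * b * z ^ 2) ∧
      ∃ z : ℚ, d₂ = e * a * c * z ^ 2 := by
  have pos := real_pos hR (by have : 0 < A := by omega
                              positivity) (by exact_mod_cast (by omega : 0 < B)) h1 h2
  obtain ⟨D₁, u, s1, hu, rfl⟩ := xCArB_sqf h1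
  obtain ⟨D₂, v, s2, hv, rfl⟩ := xCArB_sqf h2
  have D0 : 0 < D₁ := by exact_mod_cast (mul_pos_iff_of_pos_right (by positivity)).1 pos
  obtain ⟨a, b, c, hbc, f1, f2⟩ : ∃ a b c : ℕ, Nat.Coprime b c ∧ D₁.natAbs = a * b ∧
      D₂.natAbs = a * c := by
    obtain ⟨a, b, c, -, h, f1, f2⟩ := Nat.exists_coprime' (Nat.gcd_pos_of_pos_left D₂.natAbs
      (Nat.pos_of_ne_zero s1.ne_zero))
    exact ⟨a, b, c, h, by rw [f1, mul_comm], by rw [f2, mul_comm]⟩
  obtain ⟨e, e1, rfl⟩ : ∃ e : ℤ, (e = 1 ∨ e = -1) ∧ D₂ = e * a * c := by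
    rcases Int.natAbs_eq D₂ with h | h
    · exact ⟨1, Or.inl rfl, by rw [h, f2]; push_cast; ring⟩
    · exact ⟨-1, Or.inr rfl, by rw [h, f2]; push_cast; ring⟩
  obtain rfl : D₁ = a * b := by
    rw [← Int.natAbs_of_nonneg D0.le, f1, Nat.cast_mul]
  rw [f1] at s1
  rw [f2] at s2
  have s3 : Squarefree (b * c) :=
    (Nat.squarefree_mul hbc).2 ⟨s1.of_mul_right, s2.of_mul_right⟩
  have ee : e ^ 2 = 1 := by rcases e1 with rfl | rfl <;> norm_num
  have S : ∀ p : ℕ, p.Prime → ∀ k : ℕ, k ≠ 0 →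
      Sol p (p ^ k) (a * b) (e * a * c) (e * b * c) (16 * A) B := fun p pp k hk =>
    have := Fact.mk pp
    loc_sol hk hu hv (a := a) (by ring) (by exact_mod_cast hp p)
  have un : ∀ (q x : ℤ), q ∣ e * x ↔ q ∣ x := fun q x => by
    rcases e1 with rfl | rfl <;> simp
  have n2 : ∀ {p x y : ℕ}, p.Prime → Squarefree (x * y) → ¬ (p : ℤ) ^ 2 ∣ x * y :=
    fun {p x y} pp h h' => pp.not_isUnit (h p (by rw [← sq]; exact_mod_cast h'))
  have n1 : ∀ {p x y : ℕ}, p.Prime → Squarefree (x * y) → p ∣ x → ¬ p ∣ y :=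
    fun {p x y} pp h h1 h2 => pp.not_isUnit (h p (mul_dvd_mul h1 h2))
  have n3 : ∀ {p x y : ℕ}, p.Prime → ¬ p ∣ x → ¬ p ∣ y → ¬ (p : ℤ) ∣ x * y :=
    fun {p x y} pp h1 h2 h => (pp.dvd_mul.1 (by exact_mod_cast h)).elim h1 h2
  have c1 : ∀ {p x y : ℕ}, p ∣ x → (p : ℤ) ∣ x * y := fun h =>
    (Int.natCast_dvd_natCast.2 h).mul_right _
  have c2 : ∀ {p x y : ℕ}, p ∣ y → (p : ℤ) ∣ x * y := fun h =>
    (Int.natCast_dvd_natCast.2 h).mul_left _
  have pr : ∀ {p : ℕ}, p.Prime → Prime (p : ℤ) := fun h => Nat.prime_iff_prime_int.1 h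
  have hC' : (B : ℤ) - 16 * A = C := by rw [hC]; push_cast; ring
  simp only [mul_assoc e] at S
  have db : b ∣ B := P.xCArA_dvd s3.of_mul_left (by omega) fun p pp h => by
    exact_mod_cast ((S p pp 2 two_ne_zero).swap.inn (pr pp) (c2 h) ((un _ _).2 (c1 h))
      (mt (un _ _).1 (n3 pp (n1 pp (mul_comm a b ▸ s1) h) (n1 pp s3 h))) (n2 pp s1)
      (mt (un _ _).1 (n2 pp s3))).1
  have dc : c ∣ C := P.xCArA_dvd s3.of_mul_right (by omega) fun p pp h => by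
    have := ((S p pp 2 two_ne_zero).rot.inn (pr pp) ((un _ _).2 (c2 h)) ((un _ _).2 (c2 h))
      (n3 pp (n1 pp (mul_comm a c ▸ s2) h) (n1 pp (mul_comm b c ▸ s3) h))
      (mt (un _ _).1 (n2 pp s2)) (mt (un _ _).1 (n2 pp s3))).1
    rw [hC'] at this
    exact_mod_cast this
  have ob : b % 2 = 1 := Nat.odd_iff.1 (Odd.of_dvd_nat (Nat.odd_iff.2 (by omega)) db)
  have oc : c % 2 = 1 := Nat.odd_iff.1 (Odd.of_dvd_nat (Nat.odd_iff.2 (by omega)) dc)
  have om : ∀ x y : ℤ, x % 2 = 1 → y % 2 = 1 → x * y % 2 = 1 := fun x y hx hy => by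
    rw [Int.mul_emod, hx, hy]; rfl
  have oe : e % 2 = 1 := by omega
  have sc : ∀ {x y r : ℤ}, ¬ 2 ∣ r → Sol 2 (2 ^ 5) x y (e * (b * c)) (16 * A) B →
      Sol 2 (2 ^ 5) x y (e * (b * c) * r ^ 2) (16 * A) B := by
    rintro x y r hr ⟨x, y, z, t, h0, g1, g2⟩
    obtain ⟨i, j, hij⟩ : IsCoprime r (2 ^ 5) :=
      (Int.prime_two.coprime_iff_not_dvd.2 hr).symm.pow_right
    refine ⟨x, y, i * z, t, fun h => h0 ⟨h.1, h.2.1, ?_, h.2.2.2⟩, g1, ?_⟩
    · exact dv_of (dvd_add (h.2.2.1.mul_left r) (dvd_mul_right 2 (16 * j * z)))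
        (by linear_combination -z * hij)
    · exact dv_of (dvd_add g2 (dvd_mul_right (2 ^ 5) (e * (b * c) * z ^ 2 * j * (1 + i * r))))
        (by linear_combination -e * (b * c) * z ^ 2 * (1 + i * r) * hij)
  have oa : a % 2 = 1 := by
    by_contra ha
    obtain ⟨a, rfl⟩ : ∃ x, a = 2 * x := ⟨a / 2, by omega⟩
    have oa : (a : ℤ) % 2 = 1 := by
      have := n1 Nat.prime_two s1.of_mul_left dvd_rfl
      omega
    have := sc (r := a) (by omega) (S 2 Nat.prime_two 5 (by norm_num))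
    refine two_even (d₁ := a * b) (d₂ := e * (a * c)) (A := A) (B := B) ?_ (by omega) (by omega)
      (om _ _ oa (by omega)) (om _ _ oe (om _ _ oa (by omega)))
    push_cast at this
    rwa [show 2 * (a : ℤ) * b = 2 * (a * b) by ring, show e * (2 * a * c) = 2 * (e * (a * c)) by ring,
      show e * (b * c) * a ^ 2 = a * b * (e * (a * c)) by ring] at this
  have e4 : e * b * c % 4 = 1 := by
    have := sc (r := a) (by omega) (S 2 Nat.prime_two 5 (by norm_num))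
    rw [show e * (b * c) * a ^ 2 = a * b * (e * (a * c)) by ring] at this
    have h := two_odd this (by omega) (om _ _ (by omega) (by omega))
      (om _ _ oe (om _ _ (by omega) (by omega)))
    obtain ⟨x, hx⟩ : ∃ x : ℤ, a = 2 * x + 1 := ⟨a / 2, by omega⟩
    rw [show (a : ℤ) * b * (e * (a * c)) = e * b * c + 4 * (e * b * c * (x ^ 2 + x)) by
      rw [hx]; ring] at h
    omega
  have o16 : ∀ {p x : ℕ}, p.Prime → p ∣ x → x % 2 = 1 → IsCoprime (p : ℤ) 16 := fun {p x} pp h hx =>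
    ((pr pp).coprime_iff_not_dvd.2 fun h2 => by
      obtain rfl := (Nat.prime_dvd_prime_iff_eq pp Nat.prime_two).1 (by exact_mod_cast h2)
      omega : IsCoprime (p : ℤ) 2).pow_right (n := 4)
  have da : a ∣ A := P.xCArA_dvd s1.of_mul_left (by omega) fun p pp h => by
    have := ((S p pp 2 two_ne_zero).inn (pr pp) (c1 h) ((un _ _).2 (c1 h))
      (mt (un _ _).1 (n3 pp (n1 pp s1 h) (n1 pp s2 h))) (n2 pp s1) (mt (un _ _).1 (n2 pp s2))).1
    exact_mod_cast (o16 pp h oa).dvd_of_dvd_mul_left this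
  have sAB : Squarefree (A * B) := hs.of_mul_left
  have sAC : Squarefree (A * C) := hs.squarefree_of_dvd ⟨B, by ring⟩
  have sBC : Squarefree (B * C) := hs.squarefree_of_dvd ⟨A, by ring⟩
  have n4 : ∀ {p x : ℕ}, p.Prime → Squarefree x → ¬ (p : ℤ) ^ 2 ∣ x := fun {p x} pp h => by
    simpa using n2 (y := 1) pp (by simpa using h)
  have j16 : ∀ {p : ℕ} (x : ℤ), IsCoprime (p : ℤ) 16 → jacobiSym (16 * x) p = jacobiSym x p :=
    fun {p} x h => by
      rw [show (16 : ℤ) = 4 ^ 2 by norm_num, jacobiSym.mul_left, jacobiSym.sq_one', one_mul]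
      exact Int.isCoprime_iff_gcd_eq_one.1 (h.of_isCoprime_of_dvd_right (by norm_num)).symm
  refine ⟨a, b, c, e, ⟨da, db, dc, e1, e4, fun p pp h => ?_, fun p pp h => ?_, fun p pp h => ?_⟩,
    ⟨u, by push_cast; rfl⟩, v, by push_cast; rfl⟩
  · have := (S p pp 2 two_ne_zero).node pp (a := a) (by ring) (c2 (x := 16) h)
      (fun h2 => n4 pp sAB.of_mul_left ((o16 pp h hA).pow_left.dvd_of_dvd_mul_left h2))
      (by exact_mod_cast n1 pp sAB h) (mt (un _ _).1 (n3 pp (fun h2 => n1 pp sAB h (h2.trans db))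
        fun h2 => n1 pp sAC h (h2.trans dc))) (n2 pp s1) (mt (un _ _).1 (n2 pp s2))
    simpa only [← mul_assoc, Int.natCast_dvd_natCast] using this
  · have o := o16 pp h (by omega)
    have hA := n1 pp (mul_comm A B ▸ sAB) h
    have := (S p pp 2 two_ne_zero).swap.node pp (a := b) (by ring) (by exact_mod_cast h)
      (n4 pp sAB.of_mul_right) (fun h2 => hA (by exact_mod_cast o.dvd_of_dvd_mul_left h2))
      (mt (un _ _).1 (n3 pp (fun h2 => hA (h2.trans da)) fun h2 => n1 pp sBC h (h2.trans dc)))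
      (n2 pp s1) (mt (un _ _).1 (n2 pp s3))
    rw [← mul_neg, j16 _ o] at this
    simpa only [← mul_assoc, Int.natCast_dvd_natCast] using this
  · have o := o16 pp h (by omega)
    have hA := n1 pp (mul_comm A C ▸ sAC) h
    have := (S p pp 2 two_ne_zero).rot.node pp (a := c) (by linear_combination a * b * c ^ 2 * ee)
      (by rw [hC']; exact_mod_cast h) (by rw [hC']; exact n4 pp sAC.of_mul_right)
      (fun h2 => hA (by exact_mod_cast o.dvd_of_dvd_mul_left (dvd_neg.1 h2)))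
      (n3 pp (fun h2 => hA (h2.trans da)) fun h2 => n1 pp (mul_comm B C ▸ sBC) h (h2.trans db))
      (mt (un _ _).1 (n2 pp s2)) (mt (un _ _).1 (n2 pp s3))
    rw [neg_neg, j16 _ o] at this
    simpa only [Int.natCast_dvd_natCast] using this

end Pool.Agent.MP_e23604_nt.U.AJ

end
end
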