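import Pool.Agent.MP_e23604_nt.P.Defs
import Pool.Agent.MP_e23604_nt.U.RDefs
import Pool.Agent.MP_e23604_nt.Defs

set_option linter.all false

section

/-!
Shared definitions for the universal family: coordinates, sites, the model matrix, the weighted
count.  `v = (m12, m34, m13, m24, m14, m23, u1, u2, u3, u4)`.
-/

open Finset
open scoped Classical

noncomputable section

namespace Pool.Agent.MP_e23604_nt.U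

open P (sy ep lam)

abbrev V10 : Type := Fin 10 → ℤ
abbrev S12 : Type := Fin 12 → ℕ
abbrev F12 : Type := Fin 12 → ZMod 2

/-- The four integers with square product. -/
def zz (v : V10) : Fin 4 → ℤ :=
  ![v 0 * v 2 * v 4 * v 6 ^ 2, v 0 * v 5 * v 3 * v 7 ^ 2, 4 * v 2 * v 5 * v 1 * v 8 ^ 2,
    4 * v 4 * v 3 * v 1 * v 9 ^ 2]

/-- The twelve sites: m12, m34, b12/4, b34 | m14, m23, b14, b23 | m13, m24, b13, b24. -/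
def site (v : V10) : Fin 12 → ℤ :=
  ![v 0, v 1, (v 2 * v 4 * v 6 ^ 2 - v 5 * v 3 * v 7 ^ 2) / 4,
    v 2 * v 5 * v 8 ^ 2 - v 4 * v 3 * v 9 ^ 2,
    v 4, v 5, v 0 * v 2 * v 6 ^ 2 - 4 * v 3 * v 1 * v 9 ^ 2,
    4 * v 2 * v 1 * v 8 ^ 2 - v 0 * v 3 * v 7 ^ 2,
    v 2, v 3, v 0 * v 4 * v 6 ^ 2 - 4 * v 5 * v 1 * v 8 ^ 2,
    4 * v 4 * v 1 * v 9 ^ 2 - v 0 * v 5 * v 7 ^ 2]

/-- The class of a site. -/
def cls (σ : Fin 12) : ℕ := σ.val / 4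

def sg (τ : Fin 12) : ℤ := if τ = 7 ∨ τ = 11 then -1 else 1

/-- The base residue modulo 240. -/
def v0 : V10 := ![81, 1, 181, 1, 1, 17, 1, 1, 1, 16]

/-! The small parts. -/

def SP (s : S12) : ℕ := ∏ σ, s σ

def PS (s : S12) : Finset ℕ := (SP s).primeFactors

def SOK (s : S12) : Prop :=
  Squarefree (SP s) ∧ 3 ∣ s 0 ∧ ∀ l ∈ PS s, l = 3 ∨ 10000 < l

def SSet (Z : ℕ) : Finset S12 :=
  (Fintype.piFinset fun _ => Icc 1 Z).filter fun s => SOK s ∧ SP s ≤ Z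

/-- The site of a small prime. -/
def st (s : S12) (l : ℕ) : Fin 12 := if h : ∃ σ, l ∣ s σ then h.choose else 0

/-- The period of `GG s`. -/
def KK (s : S12) : ℕ := 80 * SP s

/-! The model matrix. -/

def mm (σ τ : Fin 12) (l l' : ℕ) : ZMod 2 :=
  if cls σ < cls τ then sy l l' else if cls τ < cls σ then sy l' l
  else if cls σ = 1 then ep l * ep l' else 0

def wv : F12 := fun τ => if cls τ = 1 then 1 else 0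

def lv : F12 := fun τ => if τ = 2 ∨ τ = 7 ∨ τ = 10 then 1 else 0

def kv : Fin 4 → F12 :=
  ![![1, 1, 1, 1, 1, 1, 1, 1, 0, 0, 0, 0], ![1, 1, 1, 1, 0, 0, 0, 0, 1, 1, 1, 1],
    ![1, 0, 1, 0, 1, 0, 1, 0, 1, 0, 1, 0], ![1, 1, 0, 0, 1, 1, 0, 0, 1, 1, 0, 0]]

def InK (y : F12) : Prop := ∃ a : Fin 4 → ZMod 2, ∀ τ, y τ = ∑ i, a i * kv i τ

/-- `(x, y)` lies in the kernel of the model matrix on the primes `Q` with sites `t` and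
borders `c`. -/
def Ker (Q : Finset ℕ) (t : ℕ → Fin 12) (c : ℕ → F12) (x : ℕ → ZMod 2) (y : F12) : Prop :=
  (∀ l ∈ Q, ∑ l' ∈ Q.erase l, mm (t l) (t l') l l' * x l' +
    ∑ τ, c l τ * (y τ + x l * wv τ) = 0) ∧
  ∀ τ, ∑ l ∈ Q, x l * c l τ + (Q.card : ZMod 2) * lv τ * ∑ σ, lv σ * y σ = 0

/-- The kernel of the model matrix is the obvious one. -/
def Good (Q : Finset ℕ) (t : ℕ → Fin 12) (c : ℕ → F12) : Prop :=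
  ∀ x y, Ker Q t c x y → (∀ l ∈ Q, x l = 0) ∧ InK y

/-- The cross entry of the border at a prime `l` of the site `σ`. -/
def cr (v : V10) (σ : Fin 12) (l : ℕ) (τ : Fin 12) : ZMod 2 :=
  sy ((if cls σ < cls τ then sg τ else 1) * site v τ) l

/-- The border at a prime `l` of the site `σ`. -/
def bord (v : V10) (σ : Fin 12) (l : ℕ) : F12 := fun τ =>
  if cls τ ≠ cls σ then cr v σ l τ
  else if cls σ = 1 then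
    (if τ = σ then ∑ ρ ∈ univ.filter (fun ρ => cls ρ = 0), cr v σ l ρ +
        ep l * ((if σ = 7 then 1 else 0) + 1)
      else if τ = 7 then ep l else 0)
  else if τ = σ then ∑ ρ ∈ univ.filter (fun ρ => cls ρ = 1), cr v σ l ρ else 0

/-- The local condition at a prime `l` of the site `σ`. -/
def LocC (v : V10) (σ : Fin 12) (l : ℕ) : Prop :=
  (l : ℤ) ∣ site v σ ∧ (∀ τ, τ ≠ σ → ¬ (l : ℤ) ∣ site v τ) ∧ ∀ j : Fin 10, 6 ≤ j.val → ¬ (l : ℤ) ∣ v j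

def Cond (s : S12) (v : V10) : Prop :=
  (∀ i, v i % 240 = v0 i) ∧ ∀ l ∈ PS s, LocC v (st s l) l

def GG (s : S12) (v : V10) : ℝ :=
  if Cond s v ∧ Good (PS s) (st s) (fun l => bord v (st s l) l) then 1 else 0

/-- The nineteen symbols between the sites. -/
def Bits (s : S12) (v : V10) : Prop :=
  (∀ e f : Fin 10, e < f → f.val < 6 → jacobiSym (v e) (v f).toNat = 1) ∧
  jacobiSym (site v 7) (site v 3).toNat = 1 ∧ jacobiSym (site v 10) (site v 3).toNat = 1 ∧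
  jacobiSym (site v 6) (site v 2).toNat = 1 ∧
  jacobiSym (site v 10) (site v 2).toNat = (-1) ^ (PS s).card

/-! The random borders. -/

def piv : Fin 12 → Fin 5 → Fin 12 :=
  ![![4, 5, 8, 9, 6], ![4, 5, 8, 9, 6], ![4, 5, 8, 6, 10], ![4, 5, 8, 6, 7],
    ![0, 1, 8, 9, 2], ![0, 1, 8, 9, 2], ![0, 1, 8, 2, 3], ![0, 1, 8, 2, 3],
    ![0, 1, 4, 5, 2], ![0, 1, 4, 5, 2], ![0, 1, 4, 2, 3], ![0, 1, 4, 2, 3]]

def gen : Fin 12 → Fin 5 → F12 :=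
  ![![![1, 0, 0, 0, 1, 0, 0, 0, 0, 0, 0, 1],
      ![1, 0, 0, 0, 0, 1, 0, 0, 0, 0, 1, 0],
      ![1, 0, 0, 0, 0, 0, 0, 1, 1, 0, 0, 0],
      ![1, 0, 0, 0, 0, 0, 0, 1, 0, 1, 1, 1],
      ![0, 0, 0, 0, 0, 0, 1, 1, 0, 0, 1, 1]],
    ![![0, 1, 0, 0, 1, 0, 0, 0, 0, 0, 1, 0],
      ![0, 1, 0, 0, 0, 1, 0, 0, 0, 0, 0, 1],
      ![0, 1, 0, 0, 0, 0, 0, 1, 1, 0, 1, 1],
      ![0, 1, 0, 0, 0, 0, 0, 1, 0, 1, 0, 0],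
      ![0, 0, 0, 0, 0, 0, 1, 1, 0, 0, 1, 1]],
    ![![0, 0, 1, 0, 1, 0, 0, 0, 0, 1, 0, 0],
      ![0, 0, 0, 0, 0, 1, 0, 1, 0, 1, 0, 1],
      ![0, 0, 1, 0, 0, 0, 0, 1, 1, 1, 0, 1],
      ![0, 0, 1, 0, 0, 0, 1, 0, 0, 0, 0, 1],
      ![0, 0, 1, 0, 0, 0, 0, 1, 0, 0, 1, 0]],
    ![![0, 0, 0, 1, 1, 0, 0, 0, 0, 1, 1, 1],
      ![0, 0, 0, 1, 0, 1, 0, 0, 0, 1, 0, 0],
      ![0, 0, 0, 0, 0, 0, 0, 0, 1, 1, 1, 1],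
      ![0, 0, 0, 1, 0, 0, 1, 0, 0, 0, 1, 0],
      ![0, 0, 0, 1, 0, 0, 0, 1, 0, 0, 0, 1]],
    ![![1, 0, 0, 0, 1, 0, 0, 0, 0, 0, 0, 1],
      ![0, 1, 0, 0, 1, 0, 0, 0, 0, 0, 1, 0],
      ![0, 0, 0, 1, 1, 0, 0, 0, 1, 0, 0, 0],
      ![0, 0, 0, 1, 1, 0, 0, 0, 0, 1, 1, 1],
      ![0, 0, 1, 1, 0, 0, 0, 0, 0, 0, 1, 1]],
    ![![1, 0, 0, 0, 0, 1, 0, 0, 0, 0, 1, 0],
      ![0, 1, 0, 0, 0, 1, 0, 0, 0, 0, 0, 1],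
      ![0, 0, 0, 1, 0, 1, 0, 0, 1, 0, 1, 1],
      ![0, 0, 0, 1, 0, 1, 0, 0, 0, 1, 0, 0],
      ![0, 0, 1, 1, 0, 0, 0, 0, 0, 0, 1, 1]],
    ![![1, 0, 0, 0, 0, 0, 1, 0, 0, 1, 0, 0],
      ![0, 1, 0, 0, 0, 0, 1, 0, 0, 1, 1, 1],
      ![0, 0, 0, 0, 0, 0, 0, 0, 1, 1, 1, 1],
      ![0, 0, 1, 0, 0, 0, 1, 0, 0, 0, 0, 1],
      ![0, 0, 0, 1, 0, 0, 1, 0, 0, 0, 1, 0]],
    ![![1, 0, 0, 0, 0, 0, 0, 1, 0, 1, 1, 1],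
      ![0, 1, 0, 0, 0, 0, 0, 1, 0, 1, 0, 0],
      ![0, 0, 0, 0, 0, 0, 0, 0, 1, 1, 1, 1],
      ![0, 0, 1, 0, 0, 0, 0, 1, 0, 0, 1, 0],
      ![0, 0, 0, 1, 0, 0, 0, 1, 0, 0, 0, 1]],
    ![![1, 0, 0, 0, 0, 0, 0, 1, 1, 0, 0, 0],
      ![0, 1, 0, 0, 0, 0, 1, 0, 1, 0, 0, 0],
      ![0, 0, 0, 1, 1, 0, 0, 0, 1, 0, 0, 0],
      ![0, 0, 0, 1, 0, 1, 1, 1, 1, 0, 0, 0],
      ![0, 0, 1, 1, 0, 0, 1, 1, 0, 0, 0, 0]],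
    ![![1, 0, 0, 0, 0, 0, 1, 0, 0, 1, 0, 0],
      ![0, 1, 0, 0, 0, 0, 0, 1, 0, 1, 0, 0],
      ![0, 0, 0, 1, 1, 0, 1, 1, 0, 1, 0, 0],
      ![0, 0, 0, 1, 0, 1, 0, 0, 0, 1, 0, 0],
      ![0, 0, 1, 1, 0, 0, 1, 1, 0, 0, 0, 0]],
    ![![1, 0, 0, 0, 0, 1, 0, 0, 0, 0, 1, 0],
      ![0, 1, 0, 0, 0, 1, 1, 1, 0, 0, 1, 0],
      ![0, 0, 0, 0, 1, 1, 1, 1, 0, 0, 0, 0],
      ![0, 0, 1, 0, 0, 0, 0, 1, 0, 0, 1, 0],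
      ![0, 0, 0, 1, 0, 0, 1, 0, 0, 0, 1, 0]],
    ![![1, 0, 0, 0, 0, 1, 1, 1, 0, 0, 0, 1],
      ![0, 1, 0, 0, 0, 1, 0, 0, 0, 0, 0, 1],
      ![0, 0, 0, 0, 1, 1, 1, 1, 0, 0, 0, 0],
      ![0, 0, 1, 0, 0, 0, 1, 0, 0, 0, 0, 1],
      ![0, 0, 0, 1, 0, 0, 0, 1, 0, 0, 0, 1]]]

def zet : Fin 12 → F12 :=
  ![![0, 0, 0, 0, 0, 0, 0, 0, 0, 0, 0, 0],
    ![0, 0, 0, 0, 0, 0, 0, 0, 0, 0, 0, 0],
    ![0, 0, 0, 0, 0, 0, 0, 0, 0, 0, 0, 0],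
    ![0, 0, 0, 0, 0, 0, 0, 0, 0, 0, 0, 0],
    ![0, 0, 0, 1, 0, 0, 0, 1, 0, 0, 0, 1],
    ![0, 0, 0, 1, 0, 0, 0, 1, 0, 0, 0, 1],
    ![0, 0, 0, 0, 0, 0, 1, 1, 0, 0, 1, 1],
    ![0, 0, 0, 0, 0, 0, 0, 0, 0, 0, 0, 0],
    ![0, 0, 0, 0, 0, 0, 0, 0, 0, 0, 0, 0],
    ![0, 0, 0, 0, 0, 0, 0, 0, 0, 0, 0, 0],
    ![0, 0, 0, 0, 0, 0, 0, 0, 0, 0, 0, 0],
    ![0, 0, 0, 0, 0, 0, 0, 0, 0, 0, 0, 0]]

def c3 : F12 := ![1, 0, 0, 0, 0, 1, 1, 1, 0, 0, 0, 1]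

/-- The border with pivot bits `g`. -/
def cv (σ : Fin 12) (l : ℕ) (g : Fin 5 → ZMod 2) : F12 :=
  fun τ => ∑ i, g i * gen σ i τ + ep l * zet σ τ

def cvec (s : S12) (g : ↥((PS s).erase 3) → Fin 5 → ZMod 2) (l : ℕ) : F12 :=
  if h : l ∈ (PS s).erase 3 then cv (st s l) l (g ⟨l, h⟩) else c3

/-- The proportion of good borders. -/
def pgood (s : S12) : ℝ :=
  ((univ.filter fun g : ↥((PS s).erase 3) → Fin 5 → ZMod 2 =>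
    Good (PS s) (st s) (cvec s g)).card : ℝ) / 32 ^ ((PS s).erase 3).card

/-- The weight of `s` in the main term. -/
def wS (s : S12) : ℝ := pgood s * (∏ l ∈ (PS s).erase 3, (1 - 100 / (l : ℝ))) / SP s

/-! Boxes and the weighted count. -/

def Box (X : Fin 10 → ℕ) : Finset V10 := Fintype.piFinset fun i => Ioc (X i : ℤ) (2 * X i)

def Vol (X : Fin 10 → ℕ) : ℝ := ∏ i, (X i : ℝ)

/-- The admissible shapes of boxes. -/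
structure Reg (X : Fin 10 → ℕ) (Z : ℕ) : Prop where
  b1 : X 0 * X 4 * X 6 ^ 2 = 256 * (X 5 * X 1 * X 8 ^ 2)
  b2 : X 2 * X 5 * X 8 ^ 2 = 64 * (X 4 * X 3 * X 9 ^ 2)
  b3 : X 4 * X 1 * X 9 ^ 2 = 16 * (X 0 * X 5 * X 7 ^ 2)
  z2 : 2 ≤ Z
  h4 : Z ^ 1000 ≤ X 4
  h8 : Z ^ 1000 ≤ X 8
  h9 : Z ^ 1000 ≤ X 9
  h7 : (X 4 * X 8 * X 9) ^ 1000 ≤ X 7
  h5 : X 7 ^ 5 ≤ X 5
  h5' : X 5 ≤ X 7 ^ 10
  h2 : X 7 ^ 1000 ≤ X 2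
  h0 : X 2 ^ 1000 ≤ X 0
  top : X 0 ≤ Z ^ (10 ^ 14)

def Cop (v : V10) : Prop :=
  ∀ i j : Fin 10, 4 ≤ i.val → 6 ≤ j.val → i < j → IsCoprime (v i) (v j)

/-- The quotient of a site by its small part. -/
def qq (s : S12) (v : V10) (σ : Fin 12) : ℤ := site v σ / (s σ : ℤ)

/-- The weighted sum with weight `F`. -/
def SS (X : Fin 10 → ℕ) (Z : ℕ) (F : S12 → V10 → ℝ) : ℝ :=
  ∑ s ∈ SSet Z, ∑ v ∈ Box X, GG s v * F s v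

/-- The weight that counts good points. -/
def F0 (s : S12) (v : V10) : ℝ := if Cop v ∧ Bits s v then ∏ σ, lam (qq s v σ) else 0

/-- The average over the classes modulo `K`. -/
def avg10 (K : ℕ) (f : V10 → ℝ) : ℝ :=
  (∑ v ∈ Fintype.piFinset fun _ : Fin 10 => Ico (0 : ℤ) K, f v) / (K : ℝ) ^ 10

end Pool.Agent.MP_e23604_nt.U

end
end

section

/-!
The interface statements between the parts of the proof.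
-/

open Finset
open scoped Classical

noncomputable section

namespace Pool.Agent.MP_e23604_nt.U

/-- Rank two and trivial 2-primary part of Sha. -/
def R2 (z : Fin 4 → ℤ) : Prop :=
  (EZ z).IsElliptic ∧ Module.finrank ℤ (EZ z).toAffine.Point = 2 ∧
    ∀ c ∈ Sha (EZ z), ∀ k : ℕ, 2 ^ k • c = 0 → c = 0

/-- Part A: the descent. -/
def IA : Prop := ∀ (s : S12) (v : V10), SOK s → (∀ i, 0 < v i) → (∀ σ, 0 < site v σ) →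
  GG s v ≠ 0 → Bits s v → (∀ σ, (qq s v σ).toNat.Prime) → Squarefree (∏ σ, site v σ) → R2 (zz v)

/-- Part B: the random model. -/
def IB : Prop := ∃ c : ℝ, 0 < c ∧ ∃ Z0 : ℕ, ∀ Z ≥ Z0,
  c * Real.log Z ^ 12 ≤ ∑ s ∈ SSet Z, wS s

/-- Part D1: the density of the good classes. -/
def ID1 : Prop := ∃ c : ℝ, 0 < c ∧ ∀ s : S12, SOK s → c * wS s ≤ avg10 (KK s) (GG s)

/-- Part C: the weighted count in one box. -/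
def IC : Prop := ∃ c : ℝ, 0 < c ∧ ∃ X0 : ℕ, ∀ (X : Fin 10 → ℕ) (Z : ℕ), Reg X Z → X0 ≤ X 0 →
  c * Vol X * Real.log (X 0) ^ 12 ≤ SS X Z F0

end Pool.Agent.MP_e23604_nt.U

end
end

section

/-!
The final statement, counting j-invariants.
-/

open Finset

noncomputable section

namespace Pool.Agent.MP_e23604_nt.U

def IFJ : Prop := ∃ c : ℝ, 0 < c ∧ ∃ B₀ : ℕ, ∀ B : ℕ, B₀ ≤ B →
  c * max (Set.ncard {z : Fin 4 → ℤ | (∀ i, |z i| ≤ B) ∧ ∏ i, z i ≠ 0 ∧ IsSquare (∏ i, z i)} : ℝ)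
      ((B : ℝ) ^ 2 * Real.log B ^ 6) ≤
    Set.ncard {j : ℚ | ∃ z : Fin 4 → ℤ, (∀ i, |z i| ≤ B) ∧ ∏ i, z i ≠ 0 ∧ IsSquare (∏ i, z i) ∧
      ∃ _ : (EZ z).IsElliptic, (EZ z).j = j ∧ Module.finrank ℤ (EZ z).toAffine.Point = 2 ∧
        ∀ s ∈ Sha (EZ z), ∀ k : ℕ, 2 ^ k • s = 0 → s = 0}

def IDJ : Prop := IA → IC → IFJ

end Pool.Agent.MP_e23604_nt.U

end
end
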