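import Pool.Agent.Mg.Fe23604m.G4c0696
import Pool.Agent.Mg.Fe23604m.G1f79fd
import Pool.Agent.Mg.Fe23604m.Ge5ee40

set_option linter.all false

section

/-!
On the good event every Selmer class is a product of sites.
-/

open Finset
open scoped Classical

noncomputable section

namespace Pool.Agent.MP_e23604_nt.U.AJ

open P (sy ep sy_mul sy_neg_one sy_swap sy_congr sy_sq)

theorem st_eq {s : S12} (h : Squarefree (SP s)) {q : ℕ} (hq : q.Prime) {σ : Fin 12}
    (hd : q ∣ s σ) : st s q = σ := by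
  have e : ∃ σ, q ∣ s σ := ⟨σ, hd⟩
  rw [st, dif_pos e]
  by_contra hne
  exact hq.ne_one (Nat.eq_one_of_dvd_coprimes (cop_of h hne) e.choose_spec hd)

theorem dvd_SP (s : S12) (σ : Fin 12) : s σ ∣ SP s := dvd_prod_of_mem _ (mem_univ σ)

theorem st_dvd {s : S12} {q : ℕ} (hq : q ∈ PS s) : q ∣ s (st s q) := by
  obtain ⟨σ, -, h⟩ := (Nat.prime_of_mem_primeFactors hq).prime.exists_mem_finset_dvd
    (Nat.dvd_of_mem_primeFactors hq)
  have e : ∃ σ, q ∣ s σ := ⟨σ, h⟩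
  rw [st, dif_pos e]
  exact e.choose_spec

theorem mem_PS {s : S12} (h : Squarefree (SP s)) {q : ℕ} (hq : q.Prime) {σ : Fin 12}
    (hd : q ∣ s σ) : q ∈ PS s := Nat.mem_primeFactors.2 ⟨hq, hd.trans (dvd_SP s σ), h.ne_zero⟩

theorem PS_filter {s : S12} (h : Squarefree (SP s)) (τ : Fin 12) :
    (PS s).filter (fun q => st s q = τ) = (s τ).primeFactors := by
  ext q
  rw [mem_filter]
  refine ⟨fun e => Nat.mem_primeFactors.2 ⟨Nat.prime_of_mem_primeFactors e.1, e.2 ▸ st_dvd e.1,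
    (h.squarefree_of_dvd (dvd_SP s τ)).ne_zero⟩, fun e => ?_⟩
  obtain ⟨h1, h2, -⟩ := Nat.mem_primeFactors.1 e
  exact ⟨mem_PS h h1 h2, st_eq h h1 h2⟩

variable {v : V10} {s : S12}

theorem Nice.sp (h : Nice v) : Squarefree (SP (SN v)) := h.sqfN

theorem Nice.sq1 (h : Nice v) (τ : Fin 12) : Squarefree (SN v τ) :=
  h.sp.squarefree_of_dvd (dvd_SP _ τ)

theorem Nice.ep_eq (h : Nice v) (τ : Fin 12) :
    ep (SN v τ) = if τ = 7 ∨ τ = 11 then 1 else 0 := by
  rw [ep, h.mod4]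
  by_cases e : τ = 7 ∨ τ = 11
  · rw [if_pos e, if_pos e, if_pos rfl]
  · rw [if_neg e, if_neg e, if_neg (by decide)]

theorem Nice.star (h : Nice v) (τ : Fin 12) {n : ℕ} (hn : n % 2 = 1)
    (hc : Nat.Coprime (SN v τ) n) : sy (sg τ * site v τ) n = sy n (SN v τ) := by
  rw [← h.cast]
  have := h.mod4 τ
  refine sy_star ?_ ?_ hn hc <;> unfold sg <;> split_ifs at this ⊢ <;> omega

theorem Nice.split (h : Nice v) (hs : SOK s) (hc : Cond s v) (σ : Fin 12) :
    SN v σ = s σ * (qq s v σ).toNat := by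
  have h1 : s σ ∣ SN v σ :=
    P.xCArA_dvd (hs.1.squarefree_of_dvd (dvd_SP s σ)) (h.sq1 σ).ne_zero fun p pp hp => by
      have := (hc.2 p (mem_PS hs.1 pp hp)).1
      rw [st_eq hs.1 pp hp, ← h.cast] at this
      exact_mod_cast this
  rw [qq, ← h.cast, ← Int.natCast_div, Int.toNat_natCast, Nat.mul_div_cancel' h1]

/-- The border at every prime of the sites. -/
def cc (v : V10) (p : ℕ) : F12 := bord v (st (SN v) p) p

theorem Nice.dg (p : ℕ) : ∑ τ, cc v p τ * wv τ =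
    ∑ ρ ∈ univ.filter (fun ρ => cls ρ = if cls (st (SN v) p) = 1 then 0 else 1),
      cr v (st (SN v) p) p ρ := bd_dg _ _ _

theorem Nice.hc (h : Nice v) {p : ℕ} (hp : p ∈ PS (SN v)) (τ : Fin 12) : cc v p τ =
    ∑ q ∈ (PS (SN v)).filter (fun q => st (SN v) q = τ), fm (st (SN v)) (cc v) p q := by
  have pp := Nat.prime_of_mem_primeFactors hp
  have hd := st_dvd hp
  obtain ⟨o1, o2, o3, o4⟩ := off_eq (t := st (SN v)) (k := cls τ) pp (h.sq1 τ) (h.odd τ)
    fun q hq e => by rw [st_eq h.sp hq e]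
  have hi : p ∣ SN v τ ↔ τ = st (SN v) p := ⟨fun e => (st_eq h.sp pp e).symm, fun e => e ▸ hd⟩
  rw [PS_filter h.sp, fm_sum _ _ pp (h.sq1 τ).ne_zero, Nice.dg, cc, bord_eq]
  simp only [hi] at o3 ⊢
  generalize st (SN v) p = σ at *
  unfold bd
  rcases lt_trichotomy (cls σ) (cls τ) with e | e | e
  · have ne : τ ≠ σ := fun e' => e.ne (by rw [e'])
    rw [if_pos e.ne', if_neg ne, o1 e, zero_mul, zero_add, cr, if_pos e,
      h.star τ (odd_dvd (h.odd σ) hd) ((h.cop ne).coprime_dvd_right hd)]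
  · rw [if_neg (not_not.2 e.symm)]
    by_cases h1 : cls σ = 1
    · rw [if_pos h1, o3 e (e ▸ h1), h.ep_eq]
      simp only [if_pos h1]
      have k : ∀ τ : Fin 12, cls τ = 1 → ((τ = 7 ∨ τ = 11) ↔ τ = 7) := by decide
      simp only [k τ (e ▸ h1)]
      by_cases h2 : τ = σ
      · simp only [h2, if_true, one_mul]
      · simp only [if_neg h2, zero_mul, zero_add, add_zero, mul_ite, mul_one, mul_zero]
    · rw [if_neg h1, o4 e (e ▸ h1), add_zero]
      simp only [if_neg h1, ite_mul, one_mul, zero_mul]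
  · have ne : τ ≠ σ := fun e' => e.ne (by rw [e'])
    rw [if_pos e.ne, if_neg ne, o2 e, zero_mul, zero_add, cr, if_neg e.not_gt, one_mul, h.cast]

theorem Nice.hL (h : Nice v) (hb : Bits s v) (τ σ : Fin 12) :
    ∑ p ∈ (PS (SN v)).filter (fun p => st (SN v) p = τ), cc v p σ =
      ((PS s).card : ZMod 2) * lv τ * lv σ := by
  have e : ∑ p ∈ (PS (SN v)).filter (fun p => st (SN v) p = τ), cc v p σ =
      ∑ p ∈ (SN v τ).primeFactors, bd τ (cr v τ p) (ep p) σ := by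
    rw [← PS_filter h.sp]
    exact sum_congr rfl fun p hp => by rw [cc, (mem_filter.1 hp).2, bord_eq]
  rw [e, bd_sum τ σ _ _ _ (fun ρ => ((PS s).card : ZMod 2) * lv τ * lv ρ), ep_sum (h.sq1 τ) (h.odd τ),
    h.ep_eq, bd_tab]
  intro ρ hρ
  have c := h.cop fun e : ρ = τ => hρ (by rw [e])
  have c' : IsCoprime (site v ρ) (SN v τ) := h.cast ρ ▸ Nat.isCoprime_iff_coprime.2 c
  unfold cr
  rcases lt_or_gt_of_ne hρ with e | e
  · simp only [if_neg e.not_gt, one_mul]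
    rw [sy_sum (h.sq1 τ) c', ← h.cast, h.tab hb ρ τ e, mul_right_comm]
  · simp only [if_pos e]
    rw [sy_sum (h.sq1 τ) (IsCoprime.mul_left ?_ c'), h.star ρ (h.odd τ) c, h.tab hb τ ρ e]
    unfold sg
    split_ifs
    exacts [isCoprime_one_left.neg_left, isCoprime_one_left]

def cA (v : V10) : ℕ := SN v 0 * SN v 1 * SN v 2 * SN v 3
def cB (v : V10) : ℕ := SN v 4 * SN v 5 * SN v 6 * SN v 7
def cC (v : V10) : ℕ := SN v 8 * SN v 9 * SN v 10 * SN v 11

theorem SP_eq (v : V10) : SP (SN v) = cA v * cB v * cC v := by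
  simp only [SP, cA, cB, cC, Fin.prod_univ_succ, Fin.prod_univ_zero]
  change SN v 0 * (SN v 1 * (SN v 2 * (SN v 3 * (SN v 4 * (SN v 5 * (SN v 6 * (SN v 7 * (SN v 8 *
    (SN v 9 * (SN v 10 * (SN v 11 * 1))))))))))) = _
  ring

theorem Nice.abc (h : Nice v) : Squarefree (cA v * cB v * cC v) ∧ cA v % 2 = 1 ∧ cB v % 4 = 3 ∧
    cB v = 16 * cA v + cC v := by
  refine ⟨SP_eq v ▸ h.sp, ?_, ?_, ?_⟩
  · rw [cA, Nat.mul_mod, Nat.mul_mod (_ * _), Nat.mul_mod (SN v 0), h.odd, h.odd, h.odd, h.odd]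
  · rw [cB, Nat.mul_mod, Nat.mul_mod (_ * _), Nat.mul_mod (SN v 4), h.mod4, h.mod4, h.mod4, h.mod4]
    rfl
  · obtain ⟨r1, r2, r3, r4⟩ := h.rel
    zify [cA, cB, cC, h.cast]
    linear_combination site v 4 * site v 6 * r4 + site v 9 * site v 11 * r3 -
      4 * site v 1 * site v 3 * r2

theorem Nice.cl (h : Nice v) {q : ℕ} (hq : q.Prime) : (q ∣ cA v → cls (st (SN v) q) = 0) ∧
    (q ∣ cB v → cls (st (SN v) q) = 1) ∧ (q ∣ cC v → cls (st (SN v) q) = 2) := by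
  simp only [cA, cB, cC, hq.dvd_mul]
  refine ⟨?_, ?_, ?_⟩ <;> rintro (((e | e) | e) | e) <;> rw [st_eq h.sp hq e] <;> rfl

theorem sy4 {x y z w : ℤ} {p : ℕ} (h : IsCoprime (x * y * z * w) p) :
    sy x p + sy y p + sy z p + sy w p = sy (x * y * z * w) p := by
  have g : ∀ {u : ℤ}, IsCoprime u p → Int.gcd u p = 1 := Int.isCoprime_iff_gcd_eq_one.1
  have h1 := h.of_mul_left_left
  have h2 := h1.of_mul_left_left
  rw [sy_mul (g h1) (g h.of_mul_left_right), sy_mul (g h2) (g h1.of_mul_left_right),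
    sy_mul (g h2.of_mul_left_left) (g h2.of_mul_left_right)]

theorem sy_if {x y : ℤ} {p : ℕ} {c : Prop} [Decidable c]
    (h : jacobiSym x p = if c then jacobiSym y p else 1) :
    sy x p = (if c then 1 else 0) * sy y p := by
  unfold sy
  rw [h]
  by_cases hc : c
  · simp only [if_pos hc, one_mul]
  · simp only [if_neg hc, zero_mul]
    rfl

theorem Nice.row (h : Nice v) {a b c : ℕ} {e : ℤ} (ar : Ari (cA v) (cB v) (cC v) a b c e) {p : ℕ}
    (hp : p ∈ PS (SN v)) :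
    ∑ q ∈ PS (SN v), fm (st (SN v)) (cc v) p q * (if q ∣ a * b * c then 1 else 0) = 0 := by
  obtain ⟨sq, oA, mB, rel⟩ := h.abc
  have pp := Nat.prime_of_mem_primeFactors hp
  have hd : a * b * c ∣ cA v * cB v * cC v := mul_dvd_mul (mul_dvd_mul ar.da ar.db) ar.dc
  have sq' := sq.squarefree_of_dvd hd
  have oa := odd_dvd oA ar.da
  have ob : b % 2 = 1 := odd_dvd (by omega) ar.db
  have oc : c % 2 = 1 := odd_dvd (by omega) ar.dc
  have e1 : ∑ q ∈ PS (SN v), fm (st (SN v)) (cc v) p q * (if q ∣ a * b * c then 1 else 0) =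
      ∑ q ∈ (a * b * c).primeFactors, fm (st (SN v)) (cc v) p q := by
    simp only [mul_ite, mul_one, mul_zero]
    rw [← sum_filter]
    refine sum_congr ?_ fun _ _ => rfl
    ext q
    simp only [mem_filter, PS, SP_eq, Nat.mem_primeFactors]
    exact ⟨fun e => ⟨e.1.1, e.2, sq'.ne_zero⟩, fun e => ⟨⟨e.1, e.2.1.trans hd, sq.ne_zero⟩, e.2.1⟩⟩
  obtain ⟨-, a2, -, a4⟩ := off_eq (t := st (SN v)) (k := 0) pp sq'.of_mul_left.of_mul_left oa
    fun q hq e => (h.cl hq).1 (e.trans ar.da)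
  obtain ⟨b1, b2, b3, -⟩ := off_eq (t := st (SN v)) (k := 1) pp sq'.of_mul_left.of_mul_right ob
    fun q hq e => (h.cl hq).2.1 (e.trans ar.db)
  obtain ⟨c1, -, -, c4⟩ := off_eq (t := st (SN v)) (k := 2) pp sq'.of_mul_right oc
    fun q hq e => (h.cl hq).2.2 (e.trans ar.dc)
  obtain ⟨l1, l2, l3⟩ := h.cl pp
  rw [e1, fm_sum _ _ pp sq'.ne_zero, off_mul _ _ (Nat.coprime_of_squarefree_mul sq'),
    off_mul _ _ (Nat.coprime_of_squarefree_mul sq'.of_mul_left), Nice.dg]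
  have g : ∀ {n : ℕ}, ¬ p ∣ n → Nat.Coprime n p := fun h => (pp.coprime_iff_not_dvd.2 h).symm
  have g' : ∀ {n : ℕ}, ¬ p ∣ n → IsCoprime (n : ℤ) p := fun h => Nat.isCoprime_iff_coprime.2 (g h)
  have hp' : p ∣ cA v * cB v * cC v := SP_eq v ▸ Nat.dvd_of_mem_primeFactors hp
  have op : p % 2 = 1 := odd_dvd (h.odd _) (st_dvd hp)
  have cA' : (cA v : ℤ) = site v 0 * site v 1 * site v 2 * site v 3 := by
    simp only [cA, Nat.cast_mul, h.cast]
  have cB' : (cB v : ℤ) = site v 4 * site v 5 * site v 6 * site v 7 := by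
    simp only [cB, Nat.cast_mul, h.cast]
  simp only [pp.dvd_mul] at hp' ⊢
  rcases hp' with (k | k) | k
  · have k0 := l1 k
    have nB : ¬ p ∣ cB v := fun e => by have := l2 e; omega
    have nb : ¬ p ∣ b := fun e => nB (e.trans ar.db)
    have nc : ¬ p ∣ c := fun e => by have := l3 (e.trans ar.dc); omega
    have j := sy_if (ar.ja p pp k)
    rw [mul_assoc, ← Nat.cast_mul, sy_star ar.e1 (by rw [Nat.cast_mul, ← mul_assoc]; exact ar.e4) op
      ((g nb).mul_left (g nc)), P.xCRed_mr (by omega) (by omega) (g nb).symm (g nc).symm] at j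
    have d : -(cB v : ℤ) = 1 * site v 4 * (1 * site v 5) * (1 * site v 6) * (-1 * site v 7) := by
      rw [cB']; ring
    rw [a4 k0 (by decide), b1 (by omega), c1 (by omega), k0, if_neg (show ¬ 0 = 1 by decide), sum_c1]
    simp +decide only [cr, k0, sg, if_true, if_false, nb, nc, or_false]
    rw [sy4 (d ▸ (g' nB).neg_left), ← d, ← j]
    linear_combination (sy p b + sy p c) * two0
  · have k0 := l2 k
    have nA : ¬ p ∣ cA v := fun e => by have := l1 e; omega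
    have na : ¬ p ∣ a := fun e => nA (e.trans ar.da)
    have nc : ¬ p ∣ c := fun e => by have := l3 (e.trans ar.dc); omega
    have j := sy_if (ar.jb p pp k)
    have ge : IsCoprime e p := by
      rcases ar.e1 with rfl | rfl
      exacts [isCoprime_one_left, isCoprime_one_left.neg_left]
    have je : sy e p = ep p * (ep b + ep c) := by
      have e4 := ar.e4
      rw [mul_assoc, Int.mul_emod, Int.mul_emod b] at e4
      unfold ep
      rcases ar.e1 with rfl | rfl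
      · rcases Nat.odd_mod_four_iff.1 ob with x | x <;> rcases Nat.odd_mod_four_iff.1 oc with y | y <;>
          rw [show (b : ℤ) % 4 = (b % 4 : ℕ) from rfl, show (c : ℤ) % 4 = (c % 4 : ℕ) from rfl,
            x, y] at e4 <;> simp +decide [x, y, sy] at e4 ⊢
      · rw [sy_neg_one op]
        rcases Nat.odd_mod_four_iff.1 ob with x | x <;> rcases Nat.odd_mod_four_iff.1 oc with y | y <;>
          rw [show (b : ℤ) % 4 = (b % 4 : ℕ) from rfl, show (c : ℤ) % 4 = (c % 4 : ℕ) from rfl,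
            x, y] at e4 <;> simp +decide [x, y, ep] at e4 ⊢
    rw [sy_mul (v := c) (Int.isCoprime_iff_gcd_eq_one.1 (ge.mul_left (g' na))) (g nc),
      sy_mul (v := a) (Int.isCoprime_iff_gcd_eq_one.1 ge) (g na), sy_neg (u := cA v) (g nA) op, je,
      sy_swap oc op (g nc)] at j
    have d : (cA v : ℤ) = 1 * site v 0 * (1 * site v 1) * (1 * site v 2) * (1 * site v 3) := by
      rw [cA']; ring
    rw [a2 (by omega), b3 k0 rfl, c1 (by omega), k0, if_pos rfl, sum_c0]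
    simp +decide only [cr, k0, if_false, na, nc, or_false, false_or]
    rw [sy4 (d ▸ g' nA), ← d]
    linear_combination j + ((if p ∣ b then 1 else 0) * (sy (cA v) p + ep p) - ep p * ep c) * two0
  · have k0 := l3 k
    have nA : ¬ p ∣ cA v := fun e => by have := l1 e; omega
    have nB : ¬ p ∣ cB v := fun e => by have := l2 e; omega
    have na : ¬ p ∣ a := fun e => nA (e.trans ar.da)
    have nb : ¬ p ∣ b := fun e => nB (e.trans ar.db)
    have j := sy_if (ar.jc p pp k)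
    have ba : sy (cB v) p = sy (cA v) p := by
      rw [← sy_sq (u := cA v) (c := 4) (Int.isCoprime_iff_gcd_eq_one.1
        ((jac_two op (Or.inr rfl)).2.pow_left (m := 2)))]
      refine sy_congr (dv_of (Int.natCast_dvd_natCast.2 k) ?_)
      rw [rel]
      push_cast
      ring
    rw [sy_mul (u := a) (v := b) (g na) (g nb), ← ba] at j
    have d : (cB v : ℤ) = 1 * site v 4 * (1 * site v 5) * (1 * site v 6) * (1 * site v 7) := by
      rw [cB']; ring
    rw [a2 (by omega), b2 (by omega), c4 k0 (by decide), k0, if_neg (show ¬ 2 = 1 by decide), sum_c1]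
    simp +decide only [cr, k0, if_false, na, nb, false_or]
    rw [sy4 (d ▸ g' nB), ← d, ← j]
    linear_combination (sy a p + sy b p) * two0

theorem Nice.good (h : Nice v) (hs : SOK s) (hc : Cond s v) (hb : Bits s v)
    (hg : Good (PS s) (st s) fun l => bord v (st s l) l) (hp : ∀ σ, (qq s v σ).toNat.Prime)
    {a b c : ℕ} {e : ℤ} (ar : Ari (cA v) (cB v) (cC v) a b c e) :
    ∃ y, InK y ∧ ∀ τ (q : ℕ), q.Prime → q ∣ SN v τ → (q ∣ a * b * c ↔ y τ = 1) := by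
  have d : ∀ l ∈ PS s, l ∣ SN v (st s l) := fun l hl => by
    rw [h.split hs hc]
    exact (st_dvd hl).mul_right _
  have ht : ∀ l ∈ PS s, st s l = st (SN v) l := fun l hl =>
    (st_eq h.sp (Nat.prime_of_mem_primeFactors hl) (d l hl)).symm
  obtain ⟨y, h1, h2⟩ := ker_abs (U := PS (SN v)) (t := st (SN v)) (c := cc v)
    (P := fun σ => (qq s v σ).toNat) (ε := fun q => if q ∣ a * b * c then 1 else 0)
    (fun l hl => mem_PS h.sp (Nat.prime_of_mem_primeFactors hl) (d l hl)) (fun q h1 h2 => by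
      have pq := Nat.prime_of_mem_primeFactors h1
      have := st_dvd h1
      rw [h.split hs hc, pq.dvd_mul] at this
      exact (Nat.prime_dvd_prime_iff_eq pq (hp _)).1
        (this.resolve_left fun e => h2 (mem_PS hs.1 pq e))) ht
    (fun l hl => by rw [cc, ht l hl]) (fun p => h.hc) (h.hL hb) (fun p => h.row ar) hg
  refine ⟨y, h1, fun τ q hq e => ?_⟩
  rw [← st_eq h.sp hq e, ← h2 q (mem_PS h.sp hq e)]
  by_cases k : q ∣ a * b * c <;> simp [k]

end Pool.Agent.MP_e23604_nt.U.AJ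

end
end

section

/-!
Part A: the descent on the good event.
-/

open Finset
open scoped Classical

noncomputable section

namespace Pool.Agent.MP_e23604_nt.U.AJ

/-- Equality up to a nonzero square. -/
def Eq2 (x y : ℚ) : Prop := ∃ z : ℚ, z ≠ 0 ∧ x = y * z ^ 2

theorem Eq2.mul {x y x' y' : ℚ} (h : Eq2 x y) (h' : Eq2 x' y') : Eq2 (x * x') (y * y') := by
  obtain ⟨z, hz, rfl⟩ := h
  obtain ⟨z', hz', rfl⟩ := h'
  exact ⟨z * z', mul_ne_zero hz hz', by ring⟩

theorem Eq2.fin {x y d m u : ℚ} (h : Eq2 x y) (h' : Eq2 m y) (e : d = x * u ^ 2) :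
    ∃ z, d = m * z ^ 2 := by
  obtain ⟨z, hz, rfl⟩ := h
  obtain ⟨z', hz', rfl⟩ := h'
  exact ⟨z * u / z', by rw [e]; field_simp⟩

theorem Eq2.sq {x y : ℚ} (h : Eq2 x y) (hx : IsSquare x) : IsSquare y := by
  obtain ⟨z, hz, rfl⟩ := h
  obtain ⟨r, hr⟩ := hx
  exact ⟨r / z, by rw [div_mul_div_comm, ← hr]; field_simp⟩

theorem eq2_par {x : ℚ} (hx : x ≠ 0) {m n : ℕ} (h : m % 2 = n % 2) : Eq2 (x ^ m) (x ^ n) := by
  refine ⟨x ^ (m / 2) / x ^ (n / 2), by positivity, ?_⟩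
  have e : ∀ k : ℕ, x ^ k = x ^ (k % 2) * (x ^ (k / 2)) ^ 2 := fun k => by
    rw [← pow_mul, ← pow_add, Nat.mod_add_div']
  rw [e m, e n, h]
  field_simp

theorem four_eq {a m M x0 x1 x2 x3 : ℕ} {y0 y1 y2 y3 : ZMod 2}
    (sq : Squarefree (x0 * x1 * x2 * x3 * M)) (ha : a ∣ x0 * x1 * x2 * x3) (hm : m ∣ M)
    (h0 : ∀ q : ℕ, q.Prime → q ∣ x0 → (q ∣ a * m ↔ y0 = 1))
    (h1 : ∀ q : ℕ, q.Prime → q ∣ x1 → (q ∣ a * m ↔ y1 = 1))
    (h2 : ∀ q : ℕ, q.Prime → q ∣ x2 → (q ∣ a * m ↔ y2 = 1))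
    (h3 : ∀ q : ℕ, q.Prime → q ∣ x3 → (q ∣ a * m ↔ y3 = 1)) :
    a = x0 ^ y0.val * x1 ^ y1.val * x2 ^ y2.val * x3 ^ y3.val := by
  have k : ∀ y : ZMod 2, y = 0 ∨ y = 1 := by decide
  have d : ∀ (x : ℕ) (y : ZMod 2), x ^ y.val ∣ x := fun x y => by
    rcases k y with rfl | rfl
    · exact one_dvd _
    · exact (pow_one x).dvd
  have d' : ∀ {q : ℕ} (x : ℕ) (y : ZMod 2), q.Prime → (q ∣ x ^ y.val ↔ q ∣ x ∧ y = 1) :=
    fun {q} x y hq => by
      rcases k y with rfl | rfl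
      · simpa using hq.ne_one
      · rw [show (1 : ZMod 2).val = 1 from rfl]
        simp
  have hd : x0 ^ y0.val * x1 ^ y1.val * x2 ^ y2.val * x3 ^ y3.val ∣ x0 * x1 * x2 * x3 :=
    mul_dvd_mul (mul_dvd_mul (mul_dvd_mul (d _ _) (d _ _)) (d _ _)) (d _ _)
  rw [Nat.Squarefree.ext_iff (sq.of_mul_left.squarefree_of_dvd ha)
    (sq.of_mul_left.squarefree_of_dvd hd)]
  intro q hq
  refine ⟨fun h => ?_, fun h => ?_⟩
  · have h4 := h.trans ha
    have h5 := h.mul_right m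
    simp only [hq.dvd_mul] at h4
    simp only [hq.dvd_mul, d' _ _ hq]
    rcases h4 with ((e | e) | e) | e
    · exact Or.inl (Or.inl (Or.inl ⟨e, (h0 q hq e).1 h5⟩))
    · exact Or.inl (Or.inl (Or.inr ⟨e, (h1 q hq e).1 h5⟩))
    · exact Or.inl (Or.inr ⟨e, (h2 q hq e).1 h5⟩)
    · exact Or.inr ⟨e, (h3 q hq e).1 h5⟩
  · refine (hq.dvd_mul.1 (?_ : q ∣ a * m)).resolve_right fun e =>
      hq.not_isUnit (sq q (mul_dvd_mul (h.trans hd) (e.trans hm)))
    simp only [hq.dvd_mul, d' _ _ hq] at h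
    rcases h with ((e | e) | e) | e
    exacts [(h0 q hq e.1).2 e.2, (h1 q hq e.1).2 e.2, (h2 q hq e.1).2 e.2, (h3 q hq e.1).2 e.2]

/-- The exponents of the sites in the classes of the rational points. -/
def ex (i j k l : ℕ) : Fin 12 → ℕ :=
  ![i + j + k, i + j + l, i + j + k + l, i + j, i + k, i + l, i + k + l, i, j + k, j + l,
    j + k + l, j]

theorem inK_ex {y : F12} (h : InK y) : ∃ i j k l : ℕ, (∀ τ, (y τ).val % 2 = ex i j k l τ % 2) ∧
    (y 7).val = i ∧ (y 11).val = j := by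
  obtain ⟨α, hα⟩ := h
  refine ⟨(α 0).val, (α 1).val, (α 2 + α 3).val, (α 3).val, ?_⟩
  simp only [hα]
  clear hα
  revert α
  decide +kernel

theorem sq_par {S : S12} (h : Squarefree (SP S)) (hp : ∀ τ, ∃ p : ℕ, p.Prime ∧ p ∣ S τ)
    (n : Fin 12 → ℕ) (hs : IsSquare (∏ τ, S τ ^ n τ)) (τ : Fin 12) : 2 ∣ n τ := by
  obtain ⟨p, pp, hd⟩ := hp τ
  obtain ⟨r, hr⟩ := hs
  have s1 : ∀ σ, Squarefree (S σ) := fun σ => h.squarefree_of_dvd (dvd_SP S σ)
  have n0 : ∀ σ ∈ univ, S σ ^ n σ ≠ 0 := fun σ _ => pow_ne_zero _ (s1 σ).ne_zero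
  have r0 : r ≠ 0 := left_ne_zero_of_mul (hr ▸ prod_ne_zero_iff.2 n0)
  have e := congrArg (fun x : ℕ => x.factorization p) hr
  simp only [Nat.factorization_prod n0, Nat.factorization_mul r0 r0, Finsupp.add_apply,
    Finsupp.finsetSum_apply, Nat.factorization_pow, Finsupp.smul_apply, smul_eq_mul] at e
  rw [sum_eq_single τ (fun σ _ hσ => by
    rw [Nat.factorization_eq_zero_of_not_dvd fun e => hσ
      ((st_eq h pp e).symm.trans (st_eq h pp hd)), mul_zero]) (by simp),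
    le_antisymm ((s1 τ).natFactorization_le_one p)
      ((pp.dvd_iff_one_le_factorization (s1 τ).ne_zero).1 hd)] at e
  omega

variable {v : V10} {s : S12}

theorem Nice.pts (h : Nice v) :
    site v 5 * site v 6 * v 8 ^ 2 - site v 0 * site v 3 * v 6 ^ 2 = site v 9 * site v 10 * v 9 ^ 2 ∧
    16 * site v 1 * site v 2 * v 8 ^ 2 - site v 4 * site v 7 * v 6 ^ 2 =
      site v 9 * site v 10 * v 7 ^ 2 ∧
    (zz v 0 - zz v 1) * (zz v 2 - zz v 3) = 16 * (site v 0 * site v 1 * site v 2 * site v 3) ∧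
    (zz v 0 - zz v 3) * (zz v 2 - zz v 1) = site v 4 * site v 5 * site v 6 * site v 7 := by
  have e := h.s2
  generalize site v 2 = x at e ⊢
  simp only [site, zz, Matrix.cons_val]
  exact ⟨by ring, by linear_combination 4 * v 1 * v 8 ^ 2 * e,
    by linear_combination -4 * v 0 * v 1 * (v 2 * v 5 * v 8 ^ 2 - v 4 * v 3 * v 9 ^ 2) * e, by ring⟩

theorem _root_.Pool.Agent.MP_e23604_nt.U.IA_pf : IA := by
  intro s v hs hv hpos hG hb hp hsq
  obtain ⟨hc, hg⟩ : Cond s v ∧ Good (PS s) (st s) fun l => bord v (st s l) l :=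
    by_contra fun e => hG (if_neg e)
  have h : Nice v := ⟨hpos, hc.1, hsq⟩
  obtain ⟨sq, oA, mB, rel⟩ := h.abc
  obtain ⟨S, hS⟩ : ∃ S : Fin 12 → ℚ, ∀ τ, S τ = (SN v τ : ℚ) := ⟨_, fun _ => rfl⟩
  have c1 : ∀ τ, ((site v τ : ℤ) : ℚ) = S τ := fun τ => by rw [hS, ← h.cast, Int.cast_natCast]
  have S0 : ∀ τ, 0 < S τ := fun τ => by rw [← c1]; exact_mod_cast hpos τ
  have u0 : ∀ i, (0 : ℚ) < v i := fun i => by exact_mod_cast hv i
  have cA' : (cA v : ℚ) = S 0 * S 1 * S 2 * S 3 := by simp only [cA, Nat.cast_mul, hS]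
  have cB' : (cB v : ℚ) = S 4 * S 5 * S 6 * S 7 := by simp only [cB, Nat.cast_mul, hS]
  have cC' : (cC v : ℚ) = S 8 * S 9 * S 10 * S 11 := by simp only [cC, Nat.cast_mul, hS]
  have rel' : (cB v : ℚ) = 16 * cA v + cC v := by exact_mod_cast rel
  obtain ⟨p1, p2, p3, p4⟩ := h.pts
  obtain ⟨r1, -, r3, -⟩ := h.rel
  replace p1 := congrArg (Int.cast : ℤ → ℚ) p1
  replace p2 := congrArg (Int.cast : ℤ → ℚ) p2
  replace r1 := congrArg (Int.cast : ℤ → ℚ) r1
  replace r3 := congrArg (Int.cast : ℤ → ℚ) r3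
  simp only [Int.cast_sub, Int.cast_add, Int.cast_mul, Int.cast_pow, Int.cast_ofNat, c1]
    at p1 p2 r1 r3
  have pA : (0 : ℚ) < cA v := by exact_mod_cast (by omega : 0 < cA v)
  have pC : (0 : ℚ) < cC v := by exact_mod_cast (by omega : 0 < cC v)
  have sp : Sp (EZ (zz v)) 0 (16 * cA v) (cB v) := by
    refine ⟨rfl, ?_, rfl, ?_, by simp [EZ], by linarith, by linarith, by linarith⟩
    · simp only [EZ, p3, p4, Int.cast_add, Int.cast_mul, Int.cast_ofNat, c1, cA', cB', zero_add]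
    · simp only [EZ, p3, p4, Int.cast_mul, Int.cast_ofNat, c1, cA', cB']
      ring
  have u6 := (u0 6).ne'
  obtain ⟨x₁, hx₁⟩ : ∃ x : ℚ, x = 4 * S 0 * S 2 * S 4 * S 6 := ⟨_, rfl⟩
  obtain ⟨x₂, hx₂⟩ : ∃ x : ℚ, x = S 1 * S 2 * S 5 * S 6 * (4 * v 8 / v 6) ^ 2 := ⟨_, rfl⟩
  have a1 : x₁ - 16 * cA v = 4 * S 0 * S 2 * S 8 * S 10 := by
    rw [hx₁, cA']
    linear_combination 4 * S 0 * S 2 * r3
  have b1 : x₁ - cB v = S 4 * S 6 * S 8 * S 10 := by
    rw [hx₁, cB']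
    linear_combination S 4 * S 6 * r1
  have a2 : x₂ - 16 * cA v = S 1 * S 2 * S 9 * S 10 * (4 * v 9 / v 6) ^ 2 := by
    rw [hx₂, cA']
    field_simp
    linear_combination 16 * S 1 * S 2 * p1
  have b2 : x₂ - cB v = S 5 * S 6 * S 9 * S 10 * (v 7 / v 6) ^ 2 := by
    rw [hx₂, cB']
    field_simp
    linear_combination S 5 * S 6 * p2
  have i1 : ∀ i j k l : ℕ, Eq2 (im₁ 0 (16 * cA v) (cB v) x₁ x₂ i j k l)
      (S 0 ^ (i + j + k) * S 1 ^ (i + j + l) * S 2 ^ (i + j + k + l) * S 3 ^ (i + j) *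
        (S 4 ^ (i + k) * S 5 ^ (i + l) * S 6 ^ (i + k + l) * S 7 ^ i)) := fun i j k l => by
    refine ⟨4 ^ i * 4 ^ j * 2 ^ k * (4 * v 8 / v 6) ^ l, by have := u0 6; have := u0 8; positivity,
      ?_⟩
    rw [im₁, cA', cB', sub_zero, sub_zero, sub_zero, zero_sub, zero_sub, neg_mul_neg, hx₁, hx₂,
      show (16 : ℚ) = 4 ^ 2 by norm_num, show (4 : ℚ) * S 0 = 2 ^ 2 * S 0 by norm_num]
    generalize (4 * v 8 / v 6 : ℚ) = w
    generalize (4 : ℚ) = f
    generalize (2 : ℚ) = g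
    ring
  have i2 : ∀ i j k l : ℕ, Eq2 (im₂ 0 (16 * cA v) (cB v) x₁ x₂ i j k l) ((-1) ^ (i + j) *
      (S 0 ^ (i + j + k) * S 1 ^ (i + j + l) * S 2 ^ (i + j + k + l) * S 3 ^ (i + j)) *
        (S 8 ^ (j + k) * S 9 ^ (j + l) * S 10 ^ (j + k + l) * S 11 ^ j)) := fun i j k l => by
    refine ⟨4 ^ i * 4 ^ j * 2 ^ k * (4 * v 9 / v 6) ^ l, by have := u0 6; have := u0 9; positivity,
      ?_⟩
    rw [im₂, a1, a2, show 16 * (cA v : ℚ) - cB v = -1 * cC v by rw [rel']; ring, sub_zero, zero_sub,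
      ← neg_one_mul (16 * _ : ℚ), cA', cC',
      show (16 : ℚ) = 4 ^ 2 by norm_num, show (4 : ℚ) * S 0 = 2 ^ 2 * S 0 by norm_num]
    generalize (4 * v 9 / v 6 : ℚ) = w
    generalize (4 : ℚ) = f
    generalize (2 : ℚ) = g
    generalize (-1 : ℚ) = m
    ring
  suffices d : Desc4 0 (16 * cA v) (cB v) x₁ (4 * S 0 * S 2 * S 4 * S 6 * S 8 * S 10) x₂
      (S 1 * S 2 * S 5 * S 6 * S 9 * S 10 * (4 * v 8 / v 6) * (4 * v 9 / v 6) * (v 7 / v 6)) by
    obtain ⟨q1, q2, q3⟩ := sp.descent d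
    exact ⟨q1, (finrank_congr rfl _ decQ).trans q2, q3⟩
  refine ⟨by rw [a1, b1, hx₁]; ring, by rw [a2, b2, hx₂]; ring, ?_, ?_,
      fun d₁ d₂ h1 h2 hR hl => ?_, fun i j k l h1 _ => ?_⟩
  · have := S0 0; have := S0 2; have := S0 4; have := S0 6; have := S0 8; have := S0 10
    positivity
  · have := S0 1; have := S0 2; have := S0 5; have := S0 6; have := S0 9; have := S0 10
    have := u0 6; have := u0 7; have := u0 8; have := u0 9
    positivity
  · obtain ⟨a, b, c, e, ar, ⟨z₁, e1⟩, z₂, e2⟩ := loc_ari sq oA mB rel h1 h2 hR hl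
    obtain ⟨y, hy, hd⟩ := h.good hs hc hb hg hp ar
    obtain ⟨i, j, k, l, hpar, y7, y11⟩ := inK_ex hy
    have ea := four_eq (m := b * c) (M := cB v * cC v) (mul_assoc (cA v) _ _ ▸ sq) ar.da
      (mul_dvd_mul ar.db ar.dc) (mul_assoc a b c ▸ hd 0) (mul_assoc a b c ▸ hd 1)
      (mul_assoc a b c ▸ hd 2) (mul_assoc a b c ▸ hd 3)
    have t : a * b * c = b * (a * c) := by ring
    have eb := four_eq (m := a * c) (M := cA v * cC v)
      ((show cA v * cB v * cC v = cB v * (cA v * cC v) by ring) ▸ sq) ar.db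
      (mul_dvd_mul ar.da ar.dc) (t ▸ hd 4) (t ▸ hd 5) (t ▸ hd 6) (t ▸ hd 7)
    have t' : a * b * c = c * (a * b) := by ring
    have ec := four_eq (m := a * b) (M := cA v * cB v) (mul_comm _ (cC v) ▸ sq) ar.dc
      (mul_dvd_mul ar.da ar.db) (t' ▸ hd 8) (t' ▸ hd 9) (t' ▸ hd 10) (t' ▸ hd 11)
    have par : ∀ τ, Eq2 (S τ ^ (y τ).val) (S τ ^ ex i j k l τ) := fun τ =>
      eq2_par (S0 τ).ne' (hpar τ)
    have ee : e = (-1) ^ (i + j) := by
      have m4 : ∀ τ, (SN v τ : ZMod 4) = if τ = 7 ∨ τ = 11 then 3 else 1 := fun τ => by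
        rw [← ZMod.natCast_mod, h.mod4]
        split_ifs <;> rfl
      have e4 : ((e * b * c : ℤ) : ZMod 4) = 1 := by
        rw [← ZMod.intCast_mod (b := 4), Nat.cast_ofNat, ar.e4, Int.cast_one]
      rw [eb, ec] at e4
      simp +decide only [Int.cast_mul, Int.cast_natCast, Nat.cast_mul, Nat.cast_pow, Int.cast_pow,
        m4, if_true, if_false, one_pow, one_mul] at e4
      rw [← y7, ← y11]
      generalize y 7 = α, y 11 = β at e4
      revert α β
      rcases ar.e1 with rfl | rfl <;> decide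
    have qa : Eq2 a
        (S 0 ^ (i + j + k) * S 1 ^ (i + j + l) * S 2 ^ (i + j + k + l) * S 3 ^ (i + j)) := by
      rw [ea]
      simp only [Nat.cast_mul, Nat.cast_pow, ← hS]
      exact (((par 0).mul (par 1)).mul (par 2)).mul (par 3)
    have qb : Eq2 b (S 4 ^ (i + k) * S 5 ^ (i + l) * S 6 ^ (i + k + l) * S 7 ^ i) := by
      rw [eb]
      simp only [Nat.cast_mul, Nat.cast_pow, ← hS]
      exact (((par 4).mul (par 5)).mul (par 6)).mul (par 7)
    have qc : Eq2 c (S 8 ^ (j + k) * S 9 ^ (j + l) * S 10 ^ (j + k + l) * S 11 ^ j) := by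
      rw [ec]
      simp only [Nat.cast_mul, Nat.cast_pow, ← hS]
      exact (((par 8).mul (par 9)).mul (par 10)).mul (par 11)
    have qe : Eq2 e ((-1) ^ (i + j)) := ⟨1, one_ne_zero, by rw [ee]; simp⟩
    obtain ⟨w₁, f1⟩ := (qa.mul qb).fin (i1 i j k l) e1
    obtain ⟨w₂, f2⟩ := ((qe.mul qa).mul qc).fin (i2 i j k l) e2
    exact ⟨i, j, k, l, w₁, w₂, f1, f2⟩
  · have key := sq_par h.sp (fun τ => ⟨_, hp τ, h.split hs hc τ ▸ dvd_mul_left _ _⟩)
      ![i + j + k, i + j + l, i + j + k + l, i + j, i + k, i + l, i + k + l, i, 0, 0, 0, 0] (by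
        rw [← Rat.isSquare_natCast_iff]
        have := (i1 i j k l).sq h1
        simp only [Fin.prod_univ_succ, Nat.cast_mul, Nat.cast_pow, ← hS]
        simpa [mul_assoc] using this)
    have k7 : 2 ∣ i := key 7
    have k3 : 2 ∣ i + j := key 3
    have k5 : 2 ∣ i + l := key 5
    have k4 : 2 ∣ i + k := key 4
    omega

end Pool.Agent.MP_e23604_nt.U.AJ

end
end
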