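import Pool.Agent.MP_e23604_nt.P.Defs
import Pool.Agent.Mg.Fe23604m.G651d65

set_option linter.all false

section

/-!
Elementary facts on the parameters.
-/

open Finset
open scoped Classical

noncomputable section

namespace Pool.Agent.MP_e23604_nt.P

variable {τ : ℕ × ℕ} {m : Fin 4 → ℕ} {n X Y Z U : ℕ} {C0 : ℝ} {a b : ℤ}

theorem xBasic_pq (h : Adm τ) : ∃ u v : ℤ, (τ.1 : ℤ) = 2 * u + 1 ∧ (τ.2 : ℤ) = 4 * v ∧ 0 ≤ u ∧
    0 < v := by
  obtain ⟨h1, h2, h3, -⟩ := h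
  exact ⟨τ.1 / 2, τ.2 / 4, by omega, by omega, by omega, by omega⟩

theorem xBasic_pos (h : Adm τ) : 0 < kk τ ∧ kk τ < ss τ := by
  obtain ⟨u, v, h1, h2, h3, h4⟩ := xBasic_pq h
  unfold kk ss
  refine ⟨by rw [h1, h2]; positivity, ?_⟩
  have : (τ.1 : ℤ) - τ.2 ≠ 0 := by omega
  nlinarith [sq_pos_of_ne_zero this]

theorem xBasic_s8 (h : Adm τ) : ∃ t : ℤ, ss τ = 8 * t + 1 := by
  obtain ⟨u, v, h1, h2, -, -⟩ := xBasic_pq h
  obtain ⟨w, hw⟩ := Int.even_mul_succ_self u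
  refine ⟨w + 2 * v ^ 2, ?_⟩
  unfold ss
  rw [h1, h2]
  linear_combination 4 * hw

theorem Adm.mod16 (h : Adm τ) : ss τ ^ 2 % 16 = 1 ∧ (4 * kk τ ^ 2) % 16 = 0 := by
  obtain ⟨t, ht⟩ := xBasic_s8 h
  have h1 : ss τ ^ 2 = 16 * (4 * t ^ 2 + t) + 1 := by rw [ht]; ring
  have h2 : 4 * kk τ ^ 2 = 16 * ((τ.1 : ℤ) * τ.2) ^ 2 := by unfold kk; ring
  omega

theorem Adm.pos (h : Adm τ) : 0 < kk τ ∧ kk τ < ss τ := xBasic_pos h

theorem Reg.mono {A A' : ℕ} (h : Reg A X Y Z U) (hA : A' ≤ A) (hX : 3 ≤ X) : Reg A' X Y Z U := by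
  refine ⟨le_trans (pow_le_pow_right₀ ?_ hA) h.hY, h.hY', h.hZ, h.hU⟩
  have h3 : (3 : ℝ) ≤ X := by exact_mod_cast hX
  rw [Real.le_log_iff_exp_le (by linarith)]
  linarith [Real.exp_one_lt_d9]

theorem Reg.one_le (h : Reg 0 X Y Z U) : 1 ≤ Y ∧ 1 ≤ U := by
  have h1 : 1 ≤ Y := by
    have := h.hY
    rw [pow_zero] at this
    exact_mod_cast this
  have h2 := Nat.one_le_pow 4 Y h1
  have h3 := h.hU
  exact ⟨h1, by omega⟩

theorem GG_cases (τ : ℕ × ℕ) (m : Fin 4 → ℕ) (a b : ℤ) : GG τ m a b = 0 ∨ GG τ m a b = 1 := by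
  unfold GG
  split_ifs
  · exact Or.inr rfl
  · exact Or.inl rfl

theorem GG_nonneg (τ : ℕ × ℕ) (m : Fin 4 → ℕ) (a b : ℤ) : 0 ≤ GG τ m a b := by
  rcases GG_cases τ m a b with h | h <;> simp [h]

theorem xBasic_mod (hτ : Adm τ) (h : Cond τ m a b) : LL τ a b 0 % 16 = 1 ∧ LL τ a b 1 % 16 = 7 ∧
    LL τ a b 2 % 16 = 11 ∧ LL τ a b 3 % 16 = 7 := by
  obtain ⟨h1, h2, -⟩ := h
  obtain ⟨h3, h4⟩ := hτ.mod16
  refine ⟨h1, h2, ?_, ?_⟩
  · change (4 * a + b) % 16 = 11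
    omega
  · change (4 * kk τ ^ 2 * a + ss τ ^ 2 * b) % 16 = 7
    rw [Int.add_emod, Int.mul_emod _ a, Int.mul_emod _ b, h1, h2, h3, h4]
    rfl

theorem Cond.odd (hτ : Adm τ) (h : Cond τ m a b) (i : Fin 4) : LL τ a b i % 2 = 1 := by
  obtain ⟨h0, h1, h2, h3⟩ := xBasic_mod hτ h
  fin_cases i
  · change LL τ a b 0 % 2 = 1
    omega
  · change LL τ a b 1 % 2 = 1
    omega
  · change LL τ a b 2 % 2 = 1
    omega
  · change LL τ a b 3 % 2 = 1
    omega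

theorem Per.mul {K : ℕ} {f : ℤ → ℤ → ℝ} (h : Per K f) (x y c d : ℤ) :
    f (x + K * c) (y + K * d) = f x y := by
  have h1 : Function.Periodic (fun t => f t (y + K * d)) (K : ℤ) := fun t => (h t _).1
  have h2 : Function.Periodic (fun t => f x t) (K : ℤ) := fun t => (h x t).2
  have e1 := h1.int_mul c x
  have e2 := h2.int_mul d y
  simp only [Int.cast_id, mul_comm _ (K : ℤ)] at e1 e2
  rw [e1, e2]

theorem Per.of_dvd {K K' : ℕ} {f : ℤ → ℤ → ℝ} (h : Per K f) (hd : K ∣ K') : Per K' f := by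
  obtain ⟨t, rfl⟩ := hd
  intro x y
  have h1 := h.mul x y t 0
  have h2 := h.mul x y 0 t
  rw [mul_zero, add_zero] at h1 h2
  push_cast
  exact ⟨h1, h2⟩

theorem abs_mu_le (e : ℕ) (u : ℤ) : |mu e u| ≤ 1 := by
  unfold mu
  split_ifs
  · exact_mod_cast ArithmeticFunction.abs_moebius_le_one
  · simp

theorem mu_dvd {e : ℕ} {u : ℤ} (h : mu e u ≠ 0) : (e : ℤ) ∣ u := by
  by_contra hc
  exact h (if_neg hc)

end Pool.Agent.MP_e23604_nt.P

end
end

section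

/-!
Configurations of small primes.
-/

open Finset
open scoped Classical

noncomputable section

namespace Pool.Agent.MP_e23604_nt.P

variable {P : Finset ℕ}

theorem xBCfg_xx (s : ℝ) (l : ℕ) : 0 ≤ xx s l := Real.rpow_nonneg (Nat.cast_nonneg _) _

theorem xBCfg_dvd (hP : ∀ l ∈ P, l.Prime ∧ 5 ≤ l) (p : ↥P → Prop) [DecidablePred p] {q : ℕ}
    (hq : q.Prime) :
    (q ∣ ∏ l : ↥P, if p l then (l : ℕ) else 1) ↔ ∃ h : q ∈ P, p ⟨q, h⟩ := by
  rw [hq.prime.dvd_finsetProd_iff]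
  constructor
  · rintro ⟨l, -, h⟩
    split_ifs at h with hl
    · obtain rfl := (Nat.prime_dvd_prime_iff_eq hq (hP _ l.2).1).1 h
      exact ⟨l.2, hl⟩
    · exact absurd (Nat.dvd_one.1 h) hq.one_lt.ne'
  · rintro ⟨h, hp⟩
    exact ⟨⟨q, h⟩, mem_univ _, by rw [if_pos hp]⟩

end Pool.Agent.MP_e23604_nt.P

end
end

section

/-!
Summing the first moment over the configurations.
-/

open Finset
open scoped Classical

noncomputable section

namespace Pool.Agent.MP_e23604_nt.P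

end Pool.Agent.MP_e23604_nt.P

end
end

section

/-!
The density of the zeros of the product of the forms.
-/

open Finset
open scoped Classical

noncomputable section

namespace Pool.Agent.MP_e23604_nt.P

theorem xNu_weier (I : Finset ℕ) (x : ℕ → ℝ) (h0 : ∀ l ∈ I, 0 ≤ x l) (h1 : ∀ l ∈ I, x l ≤ 1) :
    1 - ∑ l ∈ I, x l ≤ ∏ l ∈ I, (1 - x l) := by
  induction I using Finset.induction_on with
  | empty => simp
  | insert a s ha ih =>
    rw [sum_insert ha, prod_insert ha]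
    have i1 := ih (fun l hl => h0 l (mem_insert_of_mem hl)) (fun l hl => h1 l (mem_insert_of_mem hl))
    have a0 := h0 a (mem_insert_self _ _)
    have a1 := h1 a (mem_insert_self _ _)
    have s0 : 0 ≤ ∑ l ∈ s, x l := sum_nonneg fun l hl => h0 l (mem_insert_of_mem hl)
    have : (1 - x a) * (1 - ∑ l ∈ s, x l) ≤ (1 - x a) * ∏ l ∈ s, (1 - x l) :=
      mul_le_mul_of_nonneg_left i1 (by linarith)
    nlinarith [mul_nonneg a0 s0]

end Pool.Agent.MP_e23604_nt.P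

end
end
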