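import Pool.Agent.Mg.Fe23604m.Ge4cc4e
import Pool.Agent.MP_2a1f0e_nt.Div
import Pool.Agent.Mg.Fe23604m.G651d65
import Pool.Agent.Mg.Fe23604m.G180f29

set_option linter.all false

section

/-!
The steps of part C (the weighted count in one box): definitions and statements.
-/

open Finset
open scoped Classical

noncomputable section

namespace Pool.Agent.MP_e23604_nt.U

open P (lam shp gg PW cW Rough WW ES mu flat tau NN)

/-! ## Two variables -/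

def bx (X Y : ℕ) : Finset (ℤ × ℤ) := Ioc (X : ℤ) (2 * X) ×ˢ Ioc (Y : ℤ) (2 * Y)

/-- The points of the box close to its boundary. -/
def nr (X Y : ℕ) (η1 η2 : ℝ) : Finset (ℤ × ℤ) :=
  (bx X Y).filter fun z => (z.1 : ℝ) ≤ X + η1 ∨ 2 * (X : ℝ) - η1 < z.1 ∨
    (z.2 : ℝ) ≤ Y + η2 ∨ 2 * (Y : ℝ) - η2 < z.2

def Per2 (K : ℕ) (F : ℤ × ℤ → ℝ) : Prop :=
  ∀ z z' : ℤ × ℤ, (K : ℤ) ∣ z.1 - z'.1 → (K : ℤ) ∣ z.2 - z'.2 → F z = F z'

def lf (α β : ℤ) (z : ℤ × ℤ) : ℤ := α * z.1 + β * z.2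

/-- The class of `r` modulo `K` in `(X, 2 X]`. -/
def cz (X K : ℕ) (r : ℤ) : Finset ℤ := (Ioc (X : ℤ) (2 * X)).filter fun x => (K : ℤ) ∣ x - r

/-- Range of a form on the box, and length of its level lines. -/
def Rng (X Y : ℕ) (U T0 : ℝ) (α β : ℤ) : Prop :=
  (∀ z ∈ bx X Y, 0 < lf α β z ∧ (lf α β z : ℝ) ≤ U) ∧
    ((X : ℝ) ≤ T0 * |(β : ℝ)| ∨ (Y : ℝ) ≤ T0 * |(α : ℝ)|)

/-- The support of `G` lies where `m` divides the form, and is sparse on its level lines. -/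
def Supp (G : ℤ × ℤ → ℝ) (α β : ℤ) (m t : ℕ) : Prop :=
  (∀ z, G z ≠ 0 → (m : ℤ) ∣ lf α β z) ∧
    ∀ (z : ℤ × ℤ) (τ : ℤ), G z ≠ 0 → G (z.1 + τ * β, z.2 - τ * α) ≠ 0 → (t : ℤ) ∣ τ

/-- A pair of forms. -/
structure Pr where
  α : ℤ
  β : ℤ
  α' : ℤ
  β' : ℤ
  m : ℕ
  K0 : ℕ
  t : ℕ
  F : ℤ × ℤ → ℝ
  h : ℤ → ℝ

def Pr.det (d : Pr) : ℤ := d.α * d.β' - d.α' * d.β
def Pr.K (d : Pr) : ℕ := d.K0 * d.det.natAbs

def Pr.T (d : Pr) (X Y : ℕ) (g : ℤ → ℝ) : ℝ :=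
  ∑ z ∈ bx X Y, d.F z * g (lf d.α d.β z / (d.m : ℤ)) * d.h (lf d.α' d.β' z)

structure Pr.OK (d : Pr) (X Y : ℕ) (U T0 Γ : ℝ) : Prop where
  cop : IsCoprime d.α d.β
  det : d.det ≠ 0
  m_pos : 1 ≤ d.m
  K0_pos : 1 ≤ d.K0
  t_pos : 1 ≤ d.t
  bd : ∀ z, |d.F z| ≤ 1
  per : Per2 d.K0 d.F
  supp : Supp d.F d.α d.β d.m d.t
  rng : Rng X Y U T0 d.α d.β
  hb : ∀ z ∈ bx X Y, |d.h (lf d.α' d.β' z)| ≤ Γ

/-- The scales. -/
structure Sc (N n a X Y : ℕ) (U T0 ρ : ℝ) : Prop where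
  hX : N ≤ X ^ n
  hY : N ≤ Y ^ n
  hU : (N : ℝ) ≤ U
  hU' : U ≤ (N : ℝ) ^ 2
  hT : 0 ≤ T0
  hUT : U * T0 ≤ ρ * X * Y
  h1 : 1 ≤ ρ
  hρ : ρ ≤ Real.log N ^ a

/-- The weights of a family. -/
structure Wgt {ι : Type} (P : Finset ι) (w : ι → ℝ) (K : ι → ℕ) (G : ι → ℤ × ℤ → ℝ)
    (X Y n : ℕ) (D0 Ω : ℝ) : Prop where
  w1 : ∑ π ∈ P, w π ≤ Ω
  w2 : ∀ d : ℕ, D0 ≤ d → ∑ π ∈ P.filter (fun π => d ∣ K π), w π ≤ Ω * (d : ℝ) ^ (-(1 / (n : ℝ)))
  mass : ∀ S ⊆ bx X Y, ∑ π ∈ P, ∑ z ∈ S, G π z ≤ Ω * √((S.card : ℝ) * X * Y)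

def CPair : Prop := ∀ (d : Pr) (X Y : ℕ) (U T0 Γ η1 η2 : ℝ), d.OK X Y U T0 Γ → 0 ≤ T0 → 0 ≤ Γ →
  ∀ g : ℤ → ℝ, (∀ u : ℤ, 0 < u → (u : ℝ) ≤ U → |g u| ≤ Γ) → ∀ w J : ℕ, 1 ≤ w →
  U < d.m * w * J → d.m * w * |(d.β' : ℝ)| ≤ η1 * |(d.det : ℝ)| →
  d.m * w * |(d.α' : ℝ)| ≤ η2 * |(d.det : ℝ)| →
  |d.T X Y g| ≤ Γ ^ 2 * ∑ z ∈ nr X Y η1 η2, |d.F z| +
    Γ * (T0 / d.t + 1) * ∑ j ∈ range J, NN g ((w : ℤ) * j) w d.K

def CCore : Prop := ∀ A a n : ℕ, 1 ≤ n → ∃ B0 : ℕ, ∀ B ≥ B0, ∃ N1 : ℕ, ∀ N ≥ N1,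
  ∀ {ι : Type} (P : Finset ι) (d : ι → Pr) (c : ι → ℝ) (X Y : ℕ) (U T0 Ω ρ : ℝ),
  Sc N n a X Y U T0 ρ →
  (∀ π ∈ P, 0 ≤ c π ∧ (d π).OK X Y U T0 (3 * Real.log N) ∧ (d π).m ^ 10 ≤ N ∧ (d π).K ^ 5 ≤ N ∧
    ((d π).t : ℝ) ≤ T0 ∧ U * |((d π).β' : ℝ)| ≤ ρ * X * |((d π).det : ℝ)| ∧
    U * |((d π).α' : ℝ)| ≤ ρ * Y * |((d π).det : ℝ)|) →
  Wgt P (fun π => c π / ((d π).m * (d π).t)) (fun π => (d π).K) (fun π z => c π * |(d π).F z|)
    X Y n (Real.log N ^ a) Ω →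
  ∑ π ∈ P, c π * |(d π).T X Y (gg (WW B N))| ≤ Ω * X * Y / Real.log N ^ A

/-- A one parameter family of forms. -/
structure Ln where
  S : Finset ℤ
  K1 : ℕ
  Kc : ℕ
  K0 : ℕ
  D : ℕ
  m : ℕ
  t : ℕ
  α : ℤ → ℤ
  β : ℤ → ℤ
  F : ℤ → ℤ → ℤ × ℤ → ℝ
  G : ℤ × ℤ → ℝ

def Ln.det (d : Ln) (u u' : ℤ) : ℤ := d.α u * d.β u' - d.α u' * d.β u

def Ln.T (d : Ln) (X Y : ℕ) (g : ℤ → ℝ) (u u' : ℤ) : ℝ :=
  ∑ z ∈ bx X Y, d.F u u' z * g (lf (d.α u) (d.β u) z / (d.m : ℤ)) *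
    g (lf (d.α u') (d.β u') z / (d.m : ℤ))

/-- The partners of `u`. -/
def pt (S : Finset ℤ) (Kc : ℕ) (u : ℤ) : Finset ℤ := S.filter fun u' => u' ≠ u ∧ (Kc : ℤ) ∣ u - u'

/-- The geometry of two members of a family. -/
def Bal (N K0 D V X Y : ℕ) (U ρ : ℝ) (α β : ℤ → ℤ) (u u' : ℤ) : Prop :=
  α u * β u' - α u' * β u ∣ D * (u - u') * (u + u') ∧
    (K0 * (α u * β u' - α u' * β u).natAbs) ^ 5 ≤ N ∧
    U * |(β u' : ℝ)| * |(u : ℝ) - u'| ≤ ρ * X * V * |((α u * β u' - α u' * β u : ℤ) : ℝ)| ∧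
    U * |(α u' : ℝ)| * |(u : ℝ) - u'| ≤ ρ * Y * V * |((α u * β u' - α u' * β u : ℤ) : ℝ)|

structure Ln.OK (d : Ln) (N n V X Y : ℕ) (U T0 ρ : ℝ) : Prop where
  sub : ∀ u ∈ d.S, 0 < u ∧ u ≤ 3 * V
  cls : ∀ u ∈ d.S, ∀ u' ∈ d.S, (d.K1 : ℤ) ∣ u - u'
  K1_pos : 1 ≤ d.K1
  K1_le : d.K1 ≤ d.Kc
  big : N * d.Kc ^ n ≤ V ^ n
  K0_pos : 1 ≤ d.K0
  D_pos : 1 ≤ d.D
  m_pos : 1 ≤ d.m
  t_pos : 1 ≤ d.t
  m_le : d.m ^ 10 ≤ N
  t_le : (d.t : ℝ) ≤ T0
  G01 : ∀ z, 0 ≤ d.G z ∧ d.G z ≤ 1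
  form : ∀ u ∈ d.S, IsCoprime (d.α u) (d.β u) ∧ Rng X Y U T0 (d.α u) (d.β u) ∧
    Supp d.G (d.α u) (d.β u) d.m d.t
  pair : ∀ u ∈ d.S, ∀ u' ∈ d.S, u ≠ u' → Per2 d.K0 (d.F u u') ∧ (∀ z, |d.F u u' z| ≤ d.G z) ∧
    Bal N d.K0 d.D V X Y U ρ d.α d.β u u'

def COffC : Prop := ∀ (S : Finset ℤ) (K1 Kc V : ℕ), (∀ u ∈ S, 0 < u ∧ u ≤ 3 * V) →
  (∀ u ∈ S, ∀ u' ∈ S, (K1 : ℤ) ∣ u - u') → 1 ≤ K1 → K1 ≤ Kc → Kc ≤ V →
  (S.card : ℝ) ≤ 4 * V / K1 ∧ ∑ u ∈ S, ((pt S Kc u).card : ℝ) ≤ 24 * (V : ℝ) ^ 2 / (K1 * Kc) ∧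
  (∀ (u : ℤ) (η : ℝ), 0 ≤ η →
    (((pt S Kc u).filter fun u' : ℤ => |(u : ℝ) - u'| ≤ η).card : ℝ) ≤ 2 * η / Kc) ∧
  ∀ (M : ℕ) (r : ℤ), 1 ≤ M → ((S.filter fun u => (M : ℤ) ∣ u - r).card : ℝ) ≤ 3 * V / M + 1

def COffW : Prop := ∀ n : ℕ, 1 ≤ n → ∃ d0 : ℕ, ∀ {ι : Type} (P : Finset ι) (S : ι → Finset ℤ)
  (K1 Kc M : ι → ℕ) (w : ι → ℝ) (N V : ℕ) (D0 Ω : ℝ), 1 ≤ N → 1 ≤ D0 →
  (∀ ω ∈ P, 0 ≤ w ω ∧ (∀ u ∈ S ω, 0 < u ∧ u ≤ 3 * V) ∧
    (∀ u ∈ S ω, ∀ u' ∈ S ω, (K1 ω : ℤ) ∣ u - u') ∧ 1 ≤ K1 ω ∧ K1 ω ≤ Kc ω ∧ Kc ω ∣ M ω ∧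
    N * Kc ω ^ n ≤ V ^ n) →
  ∑ ω ∈ P, w ω ≤ Ω →
  (∀ g : ℕ, D0 ≤ g → ∑ ω ∈ P.filter (fun ω => g ∣ M ω), w ω ≤ Ω * (g : ℝ) ^ (-(1 / (n : ℝ)))) →
  ∀ d : ℕ, d0 ≤ d → D0 ^ 6 ≤ d → d ≤ N →
    ∑ ω ∈ P, ∑ u ∈ S ω, ∑ u' ∈ pt (S ω) (Kc ω) u,
      (if (d : ℤ) ∣ M ω * ((u - u') / (Kc ω : ℤ)) * (u + u') then
        (K1 ω * Kc ω : ℝ) / (V : ℝ) ^ 2 * w ω else 0) ≤
      Ω * (d : ℝ) ^ (-(1 / ((12 * n : ℕ) : ℝ)))

def COff : Prop := ∀ A a n : ℕ, 1 ≤ n → ∃ B0 : ℕ, ∀ B ≥ B0, ∃ N1 : ℕ, ∀ N ≥ N1,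
  ∀ {ι : Type} (P : Finset ι) (d : ι → Ln) (V X Y : ℕ) (U T0 Ω ρ : ℝ),
  Sc N n a X Y U T0 ρ → (∀ ω ∈ P, (d ω).OK N n V X Y U T0 ρ) →
  Wgt P (fun ω => 1 / (((d ω).m : ℝ) * (d ω).t)) (fun ω => (d ω).K0 * (d ω).D * (d ω).Kc)
    (fun ω => (d ω).G) X Y n (Real.log N ^ a) Ω →
  ∑ ω ∈ P, ((d ω).K1 * (d ω).Kc : ℝ) / (V : ℝ) ^ 2 *
      ∑ u ∈ (d ω).S, ∑ u' ∈ pt (d ω).S (d ω).Kc u, |(d ω).T X Y (gg (WW B N)) u u'| ≤
    Ω * X * Y / Real.log N ^ A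

def CRepA : Prop := ∀ A a n : ℕ, 1 ≤ n → ∃ B0 : ℕ, ∀ B ≥ B0, ∃ N1 : ℕ, ∀ N ≥ N1,
  ∀ {ι : Type} (P : Finset ι) (d : ι → Ln) (Aw : ι → ℤ × ℤ → ℝ) (c : ι → ℤ → ℝ) (V X Y : ℕ)
    (U T0 Ω ρ : ℝ), Sc N n a X Y U T0 ρ →
  (∀ ω ∈ P, (d ω).OK N n V X Y U T0 ρ ∧ (d ω).Kc = (d ω).K1 ∧ (∀ u u', (d ω).F u u' = (d ω).G) ∧
    (∀ z, |Aw ω z| ≤ (d ω).G z) ∧ ∀ u, |c ω u| ≤ 1) →
  Wgt P (fun ω => 1 / (((d ω).m : ℝ) * (d ω).t)) (fun ω => (d ω).K0 * (d ω).D * (d ω).Kc)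
    (fun ω => (d ω).G) X Y n (Real.log N ^ a) Ω →
  ∑ ω ∈ P, ((d ω).K1 : ℝ) / V * |∑ z ∈ bx X Y, Aw ω z * ∑ u ∈ (d ω).S,
      c ω u * gg (WW B N) (lf ((d ω).α u) ((d ω).β u) z / ((d ω).m : ℤ))| ≤
    Ω * X * Y / Real.log N ^ A

/-! ## Levels -/

def up (i j : Fin 10) (v : V10) (z : ℤ × ℤ) : V10 :=
  Function.update (Function.update v i z.1) j z.2

structure CCls : Prop where
  one : ∀ (X K : ℕ) (φ : ℤ → ℝ), ∑ x ∈ Ioc (X : ℤ) (2 * X), φ x =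
    ∑ r ∈ Ioc (X : ℤ) (2 * X), 1 / ((cz X K r).card : ℝ) * ∑ x ∈ cz X K r, φ x
  card : ∀ (X K : ℕ) (r : ℤ), 1 ≤ K → 2 * K ≤ X →
    (X : ℝ) / (2 * K) ≤ (cz X K r).card ∧ ((cz X K r).card : ℝ) ≤ 2 * X / K
  cls : ∀ (X : Fin 10 → ℕ) (i : Fin 10) (K : ℕ) (f : V10 → ℝ), ∑ v ∈ Box X, f v =
    ∑ v ∈ Box X, 1 / ((cz (X i) K (v i)).card : ℝ) *
      ∑ u ∈ cz (X i) K (v i), f (Function.update v i u)
  two : ∀ (X : Fin 10 → ℕ) (i j : Fin 10) (f : V10 → ℝ), i ≠ j →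
    ∑ v ∈ Box X, ∑ z ∈ bx (X i) (X j), f (up i j v z) = X i * X j * ∑ v ∈ Box X, f v
  mem : ∀ (X : Fin 10 → ℕ) (i : Fin 10), ∀ v ∈ Box X, ∀ u ∈ Ioc (X i : ℤ) (2 * X i),
    Function.update v i u ∈ Box X
  mem2 : ∀ (X : Fin 10 → ℕ) (i j : Fin 10), ∀ v ∈ Box X, ∀ z ∈ bx (X i) (X j), up i j v z ∈ Box X
  vol : ∀ X : Fin 10 → ℕ, ((Box X).card : ℝ) = Vol X

/-- The site as a polynomial (the third one multiplied by four). -/
def fm (v : V10) (σ : Fin 12) : ℤ :=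
  if σ = 2 then v 2 * v 4 * v 6 ^ 2 - v 5 * v 3 * v 7 ^ 2 else site v σ

def cf (σ : Fin 12) : ℕ := if σ = 2 then 4 else 1

def vi : Fin 3 → Fin 10 := ![0, 2, 4]
def vj : Fin 3 → Fin 10 := ![1, 3, 5]

/-- The coefficient of the first variable of the level. -/
def al (ℓ : Fin 3) (σ : Fin 12) (v : V10) : ℤ :=
  (![![1, 0, 0, 0, 0, 0, v 2 * v 6 ^ 2, -(v 3 * v 7 ^ 2), 0, 0, v 4 * v 6 ^ 2, -(v 5 * v 7 ^ 2)],
    ![0, 0, v 4 * v 6 ^ 2, v 5 * v 8 ^ 2, 0, 0, v 0 * v 6 ^ 2, 4 * v 1 * v 8 ^ 2, 1, 0, 0, 0],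
    ![0, 0, v 2 * v 6 ^ 2, -(v 3 * v 9 ^ 2), 1, 0, 0, 0, 0, 0, v 0 * v 6 ^ 2,
      4 * v 1 * v 9 ^ 2]] : Fin 3 → Fin 12 → ℤ) ℓ σ

/-- The coefficient of the second variable of the level. -/
def be (ℓ : Fin 3) (σ : Fin 12) (v : V10) : ℤ :=
  (![![0, 1, 0, 0, 0, 0, -(4 * v 3 * v 9 ^ 2), 4 * v 2 * v 8 ^ 2, 0, 0, -(4 * v 5 * v 8 ^ 2),
      4 * v 4 * v 9 ^ 2],
    ![0, 0, -(v 5 * v 7 ^ 2), -(v 4 * v 9 ^ 2), 0, 0, -(4 * v 1 * v 9 ^ 2), -(v 0 * v 7 ^ 2), 0, 1,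
      0, 0],
    ![0, 0, -(v 3 * v 7 ^ 2), v 2 * v 8 ^ 2, 0, 1, 0, 0, 0, 0, -(4 * v 1 * v 8 ^ 2),
      -(v 0 * v 7 ^ 2)]] : Fin 3 → Fin 12 → ℤ) ℓ σ

/-- The sites that depend on the variables of the level. -/
def Act : Fin 3 → Finset (Fin 12) := ![{0, 1, 6, 7, 10, 11}, {2, 3, 6, 7, 8, 9}, {2, 3, 4, 5, 10, 11}]

/-- The sites of the level that are not variables. -/
def Bs : Fin 3 → Finset (Fin 12) := ![{6, 7, 10, 11}, {2, 3}, ∅]

/-- The level of a site. -/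
def lev : Fin 12 → Fin 3 := ![0, 0, 1, 1, 2, 2, 0, 0, 1, 1, 0, 0]

/-- The variable that sets the scale of a site. -/
def sc : Fin 12 → Fin 10 := ![0, 0, 2, 2, 4, 5, 0, 0, 2, 2, 0, 0]

/-- The site of a variable. -/
def sv : Fin 10 → Fin 12 := ![0, 1, 8, 9, 4, 5, 0, 0, 0, 0]

/-- The variables that occur in a site. -/
def dp : Fin 12 → Finset (Fin 10) :=
  ![{0}, {1}, {2, 3, 4, 5, 6, 7}, {2, 3, 4, 5, 8, 9}, {4}, {5}, {0, 1, 2, 3, 6, 9},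
    {0, 1, 2, 3, 7, 8}, {2}, {3}, {0, 1, 4, 5, 6, 8}, {0, 1, 4, 5, 7, 9}]

def upl (ℓ : Fin 3) (v : V10) (z : ℤ × ℤ) : V10 := up (vi ℓ) (vj ℓ) v z

def mk (k : Fin 12) (s : S12) : ℕ := cf k * s k

def Prims (ℓ : Fin 3) (v : V10) : Prop := ∀ σ ∈ Bs ℓ, IsCoprime (al ℓ σ v) (be ℓ σ v)

structure CLin : Prop where
  lin : ∀ (ℓ : Fin 3), ∀ σ ∈ Act ℓ, ∀ (v : V10) (z : ℤ × ℤ),
    fm (upl ℓ v z) σ = lf (al ℓ σ v) (be ℓ σ v) z
  inv : ∀ (ℓ : Fin 3) (σ : Fin 12) (v : V10) (t : ℤ) (i : Fin 10), i = vi ℓ ∨ i = vj ℓ →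
    al ℓ σ (Function.update v i t) = al ℓ σ v ∧ be ℓ σ (Function.update v i t) = be ℓ σ v
  act : ∀ (ℓ : Fin 3) (σ : Fin 12), σ ∉ Act ℓ → vi ℓ ∉ dp σ ∧ vj ℓ ∉ dp σ
  dep : ∀ (σ : Fin 12) (i : Fin 10), i ∉ dp σ → ∀ (v : V10) (t : ℤ),
    site (Function.update v i t) σ = site v σ ∧ fm (Function.update v i t) σ = fm v σ
  var : ∀ (i : Fin 10), i.val < 6 → ∀ v : V10, site v (sv i) = v i ∧ fm v (sv i) = v i
  self : ∀ (i j : Fin 10) (v : V10), up i j v (v i, v j) = v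
  cong : ∀ (K : ℤ) (v v' : V10), (∀ i, K ∣ v i - v' i) → ∀ (ℓ : Fin 3) (σ : Fin 12),
    K ∣ fm v σ - fm v' σ ∧ K ∣ al ℓ σ v - al ℓ σ v' ∧ K ∣ be ℓ σ v - be ℓ σ v'
  base : ∀ v : V10, (∀ i, v i % 240 = v0 i) → ∀ σ, fm v σ = cf σ * site v σ ∧ site v σ % 2 = 1 ∧
    ¬ (5 : ℤ) ∣ site v σ ∧ (σ ≠ 0 → ¬ (3 : ℤ) ∣ site v σ)
  cond : ∀ (s : S12) (v : V10), SOK s → Cond s v → ∀ σ, (s σ : ℤ) ∣ site v σ ∧
    site v σ = s σ * qq s v σ ∧ fm v σ = mk σ s * qq s v σ ∧ fm v σ / (mk σ s : ℤ) = qq s v σ ∧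
    ∀ l : ℕ, l.Prime → l ∣ s σ → LocC v σ l
  sok : ∀ s : S12, SOK s → (∀ σ, 1 ≤ s σ ∧ Squarefree (s σ) ∧ s σ % 2 = 1 ∧ s σ ∣ SP s ∧
    mk σ s ∣ KK s) ∧ (∀ σ τ, σ ≠ τ → Nat.Coprime (s σ) (s τ)) ∧ 240 ∣ KK s
  mem : ∀ (Z : ℕ), ∀ s ∈ SSet Z, SOK s ∧ SP s ≤ Z ∧ ∀ σ, s σ ≤ Z
  prim : ∀ (ℓ : Fin 3), ∀ σ ∈ Act ℓ, ∀ (v : V10) (l : ℕ), l.Prime → l ≠ 2 →
    (∀ i, v i % 240 = v0 i) → LocC v σ l → ¬ ((l : ℤ) ∣ al ℓ σ v ∧ (l : ℤ) ∣ be ℓ σ v)
  gg01 : ∀ (s : S12) (v : V10), (GG s v = 0 ∨ GG s v = 1) ∧ (GG s v ≠ 0 → Cond s v)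

/-! ## Sizes -/

def LL (X : Fin 10 → ℕ) : ℝ := Real.log (X 0)

/-- For all admissible boxes that are large enough. -/
def Ev (p : (Fin 10 → ℕ) → ℕ → Prop) : Prop :=
  ∃ N1 : ℕ, ∀ (X : Fin 10 → ℕ) (Z : ℕ), Reg X Z → N1 ≤ X 0 → p X Z

structure Sz (X : Fin 10 → ℕ) (Z : ℕ) : Prop where
  z : ∀ i, Z ^ 1000 ≤ X i
  lo : ∀ i : Fin 10, 4 ≤ i.val → X i ≤ X 7 ^ 12
  x6 : X 4 * X 6 * X 9 = 64 * (X 5 * X 7 * X 8)
  x3 : X 2 ≤ X 3 ∧ X 3 ≤ X 2 * X 7 ^ 12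
  x1 : X 0 ≤ X 1 ∧ X 1 ≤ X 0 * X 7 ^ 13
  le0 : ∀ i, i ≠ 1 → X i ≤ X 0
  lg : ∀ i, LL X ≤ 10 ^ 14 * Real.log (X i)
  lz : LL X ≤ 10 ^ 14 * Real.log Z

structure CSz : Prop where
  sz : ∀ (X : Fin 10 → ℕ) (Z : ℕ), Reg X Z → Sz X Z
  big : ∀ (c : ℕ) (C : ℝ), Ev fun X Z => C ≤ LL X ∧ C * LL X ^ c ≤ Z
  lvl : ∀ B c : ℕ, Ev fun X Z => ∃ k : ℕ, LL X ^ c ≤ 2 ^ k ∧
    ∀ N : ℕ, 3 ≤ N → N ≤ X 0 → (WW B N + 1) ^ (12 * k) ≤ Z
  wt : ∀ B : ℕ, Ev fun X Z => ∀ i : Fin 10, i ≠ 1 → cW (WW B (X i)) ≤ LL X ∧ WW B (X i) < Z ∧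
    P.Wt (WW B (X i)) (X i) (gg (WW B (X i)))

def XV (X : Fin 10 → ℕ) : V10 := fun i => X i

def PS2 (X : Fin 10 → ℕ) (σ : Fin 12) : ℝ :=
  |(al (lev σ) σ (XV X) : ℝ)| * X (vi (lev σ)) + |(be (lev σ) σ (XV X) : ℝ)| * X (vj (lev σ))

def UU (X : Fin 10 → ℕ) (σ : Fin 12) : ℝ := 16 * PS2 X σ

def T0 (X : Fin 10 → ℕ) (σ : Fin 12) : ℝ := 4 * X (vi (lev σ)) * X (vj (lev σ)) / PS2 X σ

def DD (v : V10) : ℕ := (2 * ∏ i, (v i).natAbs) ^ 2

/-- The targets with their averaging variables. -/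
def RT : Finset (Fin 12 × Fin 10) := {(6, 9), (7, 7), (10, 6), (3, 8), (2, 6)}

def CGeo1 : Prop := Ev fun X Z => ∀ σ : Fin 12,
  (∀ n a : ℕ, 10 ^ 14 ≤ n → 1 ≤ a →
    Sc (X (sc σ)) n a (X (vi (lev σ))) (X (vj (lev σ))) (UU X σ) (T0 X σ) (2 ^ 40)) ∧
  (Z : ℝ) ^ 2 ≤ T0 X σ ∧ UU X σ * T0 X σ = 64 * X (vi (lev σ)) * X (vj (lev σ)) ∧
  ∀ v ∈ Box X, Rng (X (vi (lev σ))) (X (vj (lev σ))) (UU X σ) (T0 X σ) (al (lev σ) σ v)
    (be (lev σ) σ v)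

def CGeo2 : Prop := ∀ (X : Fin 10 → ℕ) (Z : ℕ), Reg X Z → ∀ p ∈ RT, ∀ v ∈ Box X,
  ∀ u ∈ Ioc (X p.2 : ℤ) (2 * X p.2), ∀ u' ∈ Ioc (X p.2 : ℤ) (2 * X p.2), u ≠ u' → ∀ K0 ≤ Z ^ 10,
  Bal (X (sc p.1)) K0 (DD v) (X p.2) (X (vi (lev p.1))) (X (vj (lev p.1))) (UU X p.1) (2 ^ 40)
    (fun u => al (lev p.1) p.1 (Function.update v p.2 u))
    (fun u => be (lev p.1) p.1 (Function.update v p.2 u)) u u'

/-! ## Divisor sums over the box -/

def TT (v : V10) : ℝ := ∏ σ, tau (fm v σ)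

def CTau1 : Prop := ∀ c : ℕ, ∃ C : ℕ, Ev fun X _ => ∀ σ,
  ∑ v ∈ Box X, tau (fm v σ) ^ c ≤ Vol X * LL X ^ C

def CTau : Prop := ∀ c : ℕ, ∃ C : ℕ, Ev fun X _ => ∀ S ⊆ Box X,
  ∑ v ∈ S, TT v ^ c ≤ √((S.card : ℝ) * Vol X) * LL X ^ C

def CDiv : Prop := ∃ g0 : ℕ, ∀ (X : Fin 10 → ℕ) (Z : ℕ), Reg X Z →
  (∀ (σ : Fin 12) (g : ℕ), g0 ≤ g → g ≤ Z →
    (((Box X).filter fun v => (g : ℤ) ∣ fm v σ).card : ℝ) ≤ Vol X * (g : ℝ) ^ (-(1 / 10 : ℝ))) ∧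
  ∀ (i : Fin 10) (g : ℕ), 1 ≤ g →
    (((Box X).filter fun v => (g : ℤ) ∣ v i).card : ℝ) ≤ 3 * Vol X / g

/-! ## The expanded sieve weights -/

def EE (R : Finset (Fin 12)) (W k : ℕ) : Finset S12 :=
  Fintype.piFinset fun σ => if σ ∈ R then ES (PW W) k else {1}

def FF (s e : S12) (v : V10) : ℝ := GG s v * ∏ σ, mu (e σ) (qq s v σ)

def FI (ℓ : Fin 3) (k : Fin 12) (s e : S12) (v : V10) : ℝ :=
  if ∀ σ, Nat.Coprime (Int.gcd (al ℓ σ v) (be ℓ σ v)) (e σ) ∧ Nat.Coprime (fm v k).natAbs (e σ)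
    then FF s e v else 0

def MM (s e : S12) : ℕ := KK s * SP s * ∏ σ, e σ

def tt (ℓ : Fin 3) (k : Fin 12) (s e : S12) : ℕ :=
  ∏ l ∈ ((∏ σ ∈ (Act ℓ).erase k, s σ) * ∏ σ, e σ).primeFactors, l

abbrev Om : Type := S12 × S12 × V10

def PP (X : Fin 10 → ℕ) (Z : ℕ) (ℓ : Fin 3) (R : Finset (Fin 12)) (W k : ℕ) : Finset Om :=
  (SSet Z ×ˢ EE R W k ×ˢ Box X).filter fun ω => ∀ σ, σ ∉ Act ℓ → (ω.1 σ : ℤ) ∣ fm ω.2.2 σ

def NB (ω : Om) : ℕ := MM ω.1 ω.2.1 * (2 * ∏ i, (ω.2.2 i).natAbs)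

structure CPer : Prop where
  gg : ∀ s : S12, SOK s → Per10 (KK s) (GG s)
  ff : ∀ s e : S12, SOK s → Per10 (MM s e) (FF s e) ∧ ∀ ℓ k, Per10 (MM s e) (FI ℓ k s e)
  bd : ∀ (s e : S12) (v : V10), |FF s e v| ≤ 1 ∧ ∀ ℓ k, |FI ℓ k s e v| ≤ |FF s e v|
  one : ∀ (ℓ : Fin 3) (k : Fin 12) (s : S12) (W j : ℕ), EE ∅ W j = {fun _ => 1} ∧
    FI ℓ k s (fun _ => 1) = GG s
  ee : ∀ (R : Finset (Fin 12)) (W k Z : ℕ), (W + 1) ^ (12 * k) ≤ Z → ∀ e ∈ EE R W k,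
    (∀ σ, 1 ≤ e σ ∧ Squarefree (e σ) ∧ (σ ∉ R → e σ = 1) ∧ ∀ l : ℕ, l.Prime → l ∣ e σ → l ≤ W) ∧
      ∏ σ, e σ ≤ Z
  mm : ∀ (Z : ℕ), 2 ≤ Z → ∀ s ∈ SSet Z, ∀ e : S12, (∀ σ, 1 ≤ e σ) → ∏ σ, e σ ≤ Z →
    1 ≤ MM s e ∧ MM s e ≤ Z ^ 10 ∧ ∀ ℓ k, 1 ≤ tt ℓ k s e ∧ tt ℓ k s e ≤ Z ^ 2 ∧ 1 ≤ mk k s ∧
      mk k s ≤ Z ^ 3
  card : ∀ (R : Finset (Fin 12)) (W k Z : ℕ), (W + 1) ^ (12 * k) ≤ Z →
    (SSet Z).card ≤ Z ^ 12 ∧ (EE R W k).card ≤ Z ^ 12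

def CSp : Prop := ∀ (ℓ : Fin 3), ∀ k ∈ Act ℓ, ∀ (s e : S12) (v : V10), SOK s → (∀ σ, 1 ≤ e σ) →
  (∀ σ, σ ∉ (Act ℓ).erase k → e σ = 1) → IsCoprime (al ℓ k v) (be ℓ k v) →
  Supp (fun z => |FI ℓ k s e (upl ℓ v z)|) (al ℓ k v) (be ℓ k v) (mk k s) (tt ℓ k s e) ∧
    ∀ z, FI ℓ k s e (upl ℓ v z) ≠ 0 → ∀ σ, σ ∉ Act ℓ → (s σ : ℤ) ∣ fm v σ

def CIns : Prop := ∀ (ℓ : Fin 3) (k : Fin 12) (R : Finset (Fin 12)) (W j : ℕ) (s : S12) (v : V10),
  SOK s → R ⊆ (Bs ℓ).erase k → ∀ e ∈ EE R W j, Prims ℓ v → Rough (PW W) (qq s v k) →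
  FI ℓ k s e v = FF s e v

structure CPrim : Prop where
  prims : ∀ (X : Fin 10 → ℕ) (Z : ℕ), Reg X Z → ∀ s ∈ SSet Z, ∀ v ∈ Box X, Cond s v → Cop v →
    (qq s v 4).toNat.Prime → (qq s v 5).toNat.Prime →
    Prims 1 v ∧ ((qq s v 8).toNat.Prime → (qq s v 9).toNat.Prime → Prims 0 v)
  sqf : ∀ (X : Fin 10 → ℕ) (Z : ℕ), Reg X Z → ∀ s ∈ SSet Z, ∀ v ∈ Box X, Cond s v →
    ∀ σ, (qq s v σ).toNat.Prime → Squarefree (site v σ).toNat ∧ site v σ % 2 = 1 ∧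
      ∀ τ, τ ≠ σ → (qq s v τ).toNat.Prime → IsCoprime (site v σ) (site v τ)
  rng : ∀ (X : Fin 10 → ℕ) (Z : ℕ), Reg X Z → ∀ s ∈ SSet Z, ∀ v ∈ Box X, ∀ σ,
    (Z : ℤ) ≤ qq s v σ ∧ qq s v σ ≤ (X 0 : ℤ) ^ 20 ∧ fm v σ ≠ 0

def CMul : Prop := ∀ (X : Fin 10 → ℕ) (Z : ℕ), Reg X Z → ∀ (ℓ : Fin 3), ∀ k ∈ Act ℓ,
  ∀ (R : Finset (Fin 12)) (W j : ℕ), (W + 1) ^ (12 * j) ≤ Z → ∀ φ : V10 → ℕ → ℕ → ℝ,
  (∀ v m t, 0 ≤ φ v m t) →
  ∑ ω ∈ PP X Z ℓ R W j, φ ω.2.2 (ω.1 k) (tt ℓ k ω.1 ω.2.1) ≤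
    ∑ v ∈ Box X, ∑ m ∈ Icc 1 Z, ∑ t ∈ Icc 1 (Z ^ 2), TT v * tau t ^ 24 * φ v m t

def CW1 : Prop := ∃ C g0 : ℕ, Ev fun X Z => ∀ (ℓ : Fin 3), ∀ k ∈ Act ℓ,
  ∀ (R : Finset (Fin 12)) (W j : ℕ), (W + 1) ^ (12 * j) ≤ Z →
  ∑ ω ∈ PP X Z ℓ R W j, 1 / ((mk k ω.1 : ℝ) * tt ℓ k ω.1 ω.2.1) ≤ Vol X * LL X ^ C ∧
  ∀ g : ℕ, g0 ≤ g →
    ∑ ω ∈ (PP X Z ℓ R W j).filter (fun ω => (∃ σ, g ∣ ω.1 σ ∨ g ∣ ω.2.1 σ) ∨
        ∃ i, (g : ℤ) ∣ ω.2.2 i), 1 / ((mk k ω.1 : ℝ) * tt ℓ k ω.1 ω.2.1) ≤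
      Vol X * LL X ^ C * (g : ℝ) ^ (-(1 / 30 : ℝ))

def CMas : Prop := ∃ C : ℕ, Ev fun X Z => ∀ (R : Finset (Fin 12)) (W j : ℕ),
  ∑ s ∈ SSet Z, ∑ e ∈ EE R W j, ∑ v ∈ Box X, |FF s e v| ≤ Vol X * LL X ^ C ∧
  ∑ s ∈ SSet Z, ∑ v ∈ Box X, GG s v ≤ Vol X * LL X ^ C ∧
  ∀ (ℓ : Fin 3) (k : Fin 12), ∀ S ⊆ bx (X (vi ℓ)) (X (vj ℓ)),
    ∑ ω ∈ PP X Z ℓ R W j, ∑ z ∈ S, |FI ℓ k ω.1 ω.2.1 (upl ℓ ω.2.2 z)| ≤
      Vol X * LL X ^ C * √((S.card : ℝ) * X (vi ℓ) * X (vj ℓ))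

def CWts : Prop := ∀ E : ℕ, ∃ n0 C g0 : ℕ, Ev fun X Z => ∀ (ℓ : Fin 3), ∀ k ∈ Act ℓ,
  ∀ (R : Finset (Fin 12)) (W j : ℕ), (W + 1) ^ (12 * j) ≤ Z → ∀ P ⊆ PP X Z ℓ R W j,
  ∀ (q : ℕ) (K : Om → ℕ), 1 ≤ q → (∀ ω ∈ P, K ω ∣ q * NB ω ^ E) → ∀ n ≥ n0, ∀ D0 : ℝ,
  (g0 : ℝ) ≤ D0 → (q : ℝ) ^ 2 ≤ D0 →
  Wgt P (fun ω => 1 / ((mk k ω.1 : ℝ) * tt ℓ k ω.1 ω.2.1)) K
    (fun ω z => |FI ℓ k ω.1 ω.2.1 (upl ℓ ω.2.2 z)|) (X (vi ℓ)) (X (vj ℓ)) n D0 (Vol X * LL X ^ C)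

abbrev WF : Type := S12 → V10 → ℝ

def Bd1 (F : WF) : Prop := ∀ s v, |F s v| ≤ 1

def Ind (i : Fin 10) (F : WF) : Prop := ∀ s v t, F s (Function.update v i t) = F s v

def CFlat : Prop := ∃ C : ℕ, Ev fun X Z => ∀ (R : Finset (Fin 12)) (W j : ℕ) (A : WF), Bd1 A →
  cW W ≤ LL X →
  |SS X Z (fun s v => A s v * ∏ σ ∈ R, shp W (qq s v σ)) -
      cW W ^ R.card * ∑ s ∈ SSet Z, ∑ e ∈ EE R W j, ∑ v ∈ Box X, FF s e v * A s v| ≤
    Vol X * LL X ^ C / 2 ^ j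

/-! ## The analytic steps -/

/-- The family of forms of a replacement step. -/
def lnR (X : Fin 10 → ℕ) (p : Fin 12 × Fin 10) (c : WF) (ω : Om) : Ln where
  S := (cz (X p.2) (MM ω.1 ω.2.1) (ω.2.2 p.2)).filter fun u =>
    c ω.1 (Function.update ω.2.2 p.2 u) ≠ 0
  K1 := MM ω.1 ω.2.1
  Kc := MM ω.1 ω.2.1
  K0 := MM ω.1 ω.2.1
  D := DD ω.2.2
  m := mk p.1 ω.1
  t := tt (lev p.1) p.1 ω.1 ω.2.1
  α := fun u => al (lev p.1) p.1 (Function.update ω.2.2 p.2 u)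
  β := fun u => be (lev p.1) p.1 (Function.update ω.2.2 p.2 u)
  F := fun _ _ z => |FI (lev p.1) p.1 ω.1 ω.2.1 (upl (lev p.1) ω.2.2 z)|
  G := fun z => |FI (lev p.1) p.1 ω.1 ω.2.1 (upl (lev p.1) ω.2.2 z)|

def CLnR : Prop := Ev fun X Z => ∀ p ∈ RT, ∀ R ⊆ (Bs (lev p.1)).erase p.1, ∀ (W j : ℕ),
  (W + 1) ^ (12 * j) ≤ Z → ∀ c : WF, (∀ s v, c s v ≠ 0 → Prims (lev p.1) v) →
  ∀ n ≥ 10 ^ 14, ∀ ω ∈ PP X Z (lev p.1) R W j,
  (lnR X p c ω).OK (X (sc p.1)) n (X p.2) (X (vi (lev p.1))) (X (vj (lev p.1))) (UU X p.1)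
    (T0 X p.1) (2 ^ 40) ∧
  (lnR X p c ω).K0 * (lnR X p c ω).D * (lnR X p c ω).Kc ∣ 1 * NB ω ^ 4

/-- The exact rearrangement of a replacement step. -/
def CRepE : Prop := ∀ (X : Fin 10 → ℕ) (Z : ℕ), Reg X Z → ∀ p ∈ RT,
  ∀ R ⊆ (Bs (lev p.1)).erase p.1, ∀ (W j : ℕ), (W + 1) ^ (12 * j) ≤ Z → ∀ (A c : WF) (g : ℤ → ℝ),
  Ind p.2 A → Ind (vi (lev p.1)) c → Ind (vj (lev p.1)) c →
  (∀ s v, c s v ≠ 0 → Prims (lev p.1) v) →
  |∑ s ∈ SSet Z, ∑ e ∈ EE R W j, ∑ v ∈ Box X,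
      FI (lev p.1) p.1 s e v * (A s v * c s v * g (qq s v p.1))| * X (vi (lev p.1)) *
      X (vj (lev p.1)) ≤
    2 * ∑ ω ∈ PP X Z (lev p.1) R W j, ((lnR X p c ω).K1 : ℝ) / X p.2 *
      |∑ z ∈ bx (X (vi (lev p.1))) (X (vj (lev p.1))),
        FI (lev p.1) p.1 ω.1 ω.2.1 (upl (lev p.1) ω.2.2 z) * A ω.1 (upl (lev p.1) ω.2.2 z) *
          ∑ u ∈ (lnR X p c ω).S, c ω.1 (Function.update ω.2.2 p.2 u) *
            g (lf ((lnR X p c ω).α u) ((lnR X p c ω).β u) z / ((lnR X p c ω).m : ℤ))|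

/-- From the sieve model to the expanded weights with the free conditions inserted. -/
def CRed : Prop := ∀ B A0 : ℕ, Ev fun X Z => ∀ (k : Fin 12), ∀ R ⊆ (Bs (lev k)).erase k,
  ∃ j : ℕ, (WW B (X (sc k)) + 1) ^ (12 * j) ≤ Z ∧ ∀ A : WF, Bd1 A →
  (∀ s v, A s v ≠ 0 → Prims (lev k) v) →
  |SS X Z (fun s v => A s v * gg (WW B (X (sc k))) (qq s v k) *
      ∏ σ ∈ R, shp (WW B (X (sc k))) (qq s v σ))| ≤ Vol X / LL X ^ A0 +
    LL X ^ 12 * |∑ s ∈ SSet Z, ∑ e ∈ EE R (WW B (X (sc k))) j, ∑ v ∈ Box X,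
      FI (lev k) k s e v * (A s v * gg (WW B (X (sc k))) (qq s v k))|

def RepG : Prop := ∀ A0 : ℕ, ∃ B0 : ℕ, ∀ B ≥ B0, Ev fun X Z => ∀ p ∈ RT,
  ∀ R ⊆ (Bs (lev p.1)).erase p.1, ∀ A c : WF, Bd1 A → Bd1 c → Ind p.2 A →
  Ind (vi (lev p.1)) c → Ind (vj (lev p.1)) c → (∀ s v, c s v ≠ 0 → Prims (lev p.1) v) →
  |SS X Z (fun s v => A s v * c s v * gg (WW B (X (sc p.1))) (qq s v p.1) *
    ∏ σ ∈ R, shp (WW B (X (sc p.1))) (qq s v σ))| ≤ Vol X / LL X ^ A0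

def DirG : Prop := ∀ A0 : ℕ, ∃ B0 : ℕ, ∀ B ≥ B0, Ev fun X Z => ∀ i : Fin 10, i.val < 4 →
  ∀ R ⊆ Bs (lev (sv i)), ∀ h : WF, Bd1 h → Ind i h → (∀ s v, h s v ≠ 0 → Prims (lev (sv i)) v) →
  |SS X Z (fun s v => h s v * gg (WW B (X (sc (sv i)))) (qq s v (sv i)) *
    ∏ σ ∈ R, shp (WW B (X (sc (sv i)))) (qq s v σ))| ≤ Vol X / LL X ^ A0

def clamp (x : ℝ) : ℝ := max (-1) (min 1 x)

def BitG : Prop := ∀ A0 : ℕ, Ev fun X Z => ∀ (e f : Fin 10), e ≠ f → ∀ (R : Finset (Fin 12))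
  (W j : ℕ), cW W ≤ LL X → (W + 1) ^ (12 * j) ≤ Z → ∀ a b : WF, Bd1 a → Bd1 b → Ind f a → Ind e b →
  (∀ s v, a s v ≠ 0 → Squarefree (v e).toNat ∧ v e % 2 = 1) →
  (∀ s v, b s v ≠ 0 → Squarefree (v f).toNat ∧ v f % 2 = 1) →
  |∑ s ∈ SSet Z, ∑ ε ∈ EE R W j, ∑ v ∈ Box X,
    FF s ε v * (a s v * b s v * (jacobiSym (v e) (v f).toNat : ℝ))| ≤ Vol X / LL X ^ A0

/-! ## The chain -/

def cp (v : V10) : ℝ := if Cop v then 1 else 0

def BB (E : Finset (Fin 10 × Fin 10)) (v : V10) : ℝ :=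
  ∏ p ∈ E, if jacobiSym (v p.1) (v p.2).toNat = 1 then 1 else 0

/-- The pairs of variables `a ≤ e < f < 6`. -/
def EP (a : ℕ) : Finset (Fin 10 × Fin 10) :=
  univ.filter fun p => a ≤ p.1.val ∧ p.1 < p.2 ∧ p.2.val < 6

abbrev GW : Type := Fin 12 → ℤ → ℝ

def TS (X : Fin 10 → ℕ) (Z : ℕ) (c : V10 → ℝ) (E : Finset (Fin 10 × Fin 10)) (g : GW) : ℝ :=
  SS X Z fun s v => c v * BB E v * ∏ σ, g σ (qq s v σ)

def Bd (X : Fin 10 → ℕ) (g : GW) : Prop :=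
  ∀ (σ : Fin 12) (u : ℤ), 0 ≤ u → u ≤ (X 0 : ℤ) ^ 20 → |g σ u| ≤ 21 * LL X

def one : ℤ → ℝ := fun _ => 1

/-- Primes on `S`, no condition elsewhere. -/
def gl (S : Finset (Fin 12)) : GW := fun σ => if σ ∈ S then lam else one

/-- The lower variable sites still carry the primes. -/
def Low (ℓ : Fin 3) (g : GW) : Prop :=
  (ℓ ≠ 2 → g 4 = lam ∧ g 5 = lam) ∧ (ℓ = 0 → g 8 = lam ∧ g 9 = lam)

def TRep : Prop := ∃ B0 : ℕ, ∀ B ≥ B0, Ev fun X Z => ∀ p ∈ RT, ∀ R ⊆ (Bs (lev p.1)).erase p.1,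
  ∀ E ⊆ EP 0, ∀ g : GW, Bd X g → Low (lev p.1) g → g p.1 = gg (WW B (X (sc p.1))) →
  (∀ σ ∈ R, g σ = shp (WW B (X (sc p.1)))) →
  (∀ σ, σ ∉ R → σ ≠ p.1 → p.2 ∉ dp σ ∨ σ ∉ Act (lev p.1) ∨ g σ = one) →
  |TS X Z cp E g| ≤ Vol X

def TDir : Prop := ∃ B0 : ℕ, ∀ B ≥ B0, Ev fun X Z => ∀ i : Fin 10, i.val < 4 →
  ∀ R ⊆ Bs (lev (sv i)), ∀ (E : Finset (Fin 10 × Fin 10)) (g : GW),
  (∀ p ∈ E, p.1 ≠ i ∧ p.2 ≠ i) → Bd X g →
  Low (lev (sv i)) g → g (sv i) = gg (WW B (X (sc (sv i)))) →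
  (∀ σ ∈ R, g σ = shp (WW B (X (sc (sv i))))) →
  (∀ σ, σ ∉ R → σ ≠ sv i → i ∉ dp σ ∨ g σ = one) → |TS X Z cp E g| ≤ Vol X

def TDl : Prop := ∃ B0 : ℕ, ∀ B ≥ B0, Ev fun X Z => ∀ E ⊆ EP 0, ∀ g : GW, Bd X g →
  g 5 = lam → g 11 = gg (WW B (X 0)) → |TS X Z cp E g| ≤ Vol X

def TBit : Prop := ∀ B : ℕ, Ev fun X Z => ∀ E ⊆ EP 0, ∀ p ∈ E, ∀ (w : Fin 10), w ≠ 1 →
  ∀ (R : Finset (Fin 12)) (g : GW), Bd X g →
  g (sv p.1) = lam → g (sv p.2) = lam → sv p.1 ∉ R → sv p.2 ∉ R →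
  (∀ σ ∈ R, g σ = shp (WW B (X w))) →
  (∀ σ, σ ∉ R → p.1 ∉ dp σ ∨ p.2 ∉ dp σ ∨ g σ = one) →
  |TS X Z cp E g - 1 / 2 * TS X Z cp (E.erase p) g| ≤ Vol X

def TFun : Prop := ∃ c0 : ℝ, 0 < c0 ∧ ∀ B : ℕ, Ev fun X Z =>
  c0 * TS X Z cp (EP 2) (gl {2, 3, 4, 5, 8, 9}) - Vol X ≤
    TS X Z cp (EP 2) (fun σ => if lev σ = 0 then shp (WW B (X 0)) else gl {2, 3, 4, 5, 8, 9} σ) ∧
  c0 * TS X Z cp (EP 4) (gl {4, 5}) - Vol X ≤
    TS X Z cp (EP 4) fun σ => if lev σ = 1 then shp (WW B (X 2)) else gl {4, 5} σ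

def TSpin : Prop := Ev fun X Z => |SS X Z F0 - 1 / 16 * TS X Z cp (EP 0) (gl univ)| ≤ Vol X

def CBd : Prop := ∀ B : ℕ, Ev fun X _ => ∀ g : GW, (∀ σ, g σ = lam ∨ g σ = one ∨
  ∃ i : Fin 10, i ≠ 1 ∧ (g σ = shp (WW B (X i)) ∨ g σ = gg (WW B (X i)))) → Bd X g

def CLev1 : Prop := ∃ c C : ℝ, 0 < c ∧ Ev fun X Z =>
  c * TS X Z cp (EP 2) (gl {2, 3, 4, 5, 8, 9}) - C * Vol X ≤ TS X Z cp (EP 0) (gl univ)

def CLev2 : Prop := ∃ c C : ℝ, 0 < c ∧ Ev fun X Z =>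
  c * TS X Z cp (EP 4) (gl {4, 5}) - C * Vol X ≤ TS X Z cp (EP 2) (gl {2, 3, 4, 5, 8, 9})

def CLev3 : Prop := ∃ c C : ℝ, 0 < c ∧ Ev fun X Z =>
  c * Vol X * LL X ^ 12 - C * Vol X ≤ TS X Z cp (EP 4) (gl {4, 5})

end Pool.Agent.MP_e23604_nt.U

end
end

section

/-!
The step `COffC`.
-/

open Finset
open scoped Classical

noncomputable section

namespace Pool.Agent.MP_e23604_nt.U

open P (lam shp gg PW cW Rough WW ES mu flat tau NN)

namespace KOffCJ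

theorem cls (T : Finset ℤ) (L M : ℕ) (hM : 1 ≤ M) (h : ∀ u ∈ T, 0 < u ∧ u ≤ L)
    (h' : ∀ u ∈ T, ∀ u' ∈ T, (M : ℤ) ∣ u - u') : (T.card : ℝ) ≤ L / M + 1 := by
  have hM' : (0 : ℤ) < M := by exact_mod_cast hM
  have h1 : T.card ≤ (Icc (0 : ℤ) ((L / M : ℕ) : ℤ)).card := by
    refine card_le_card_of_injOn (fun u => u / M) (fun u hu => ?_) fun u hu v hv e => ?_
    · obtain ⟨h2, h3⟩ := h u hu
      refine mem_coe.2 (mem_Icc.2 ⟨Int.ediv_nonneg h2.le hM'.le, ?_⟩)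
      rw [Int.natCast_div]
      exact Int.ediv_le_ediv hM' h3
    · have h2 : u % M = v % M :=
        Int.emod_eq_emod_iff_emod_sub_eq_zero.2 (Int.emod_eq_zero_of_dvd (h' u hu v hv))
      have e' : u / M = v / M := e
      rw [← Int.mul_ediv_add_emod u M, ← Int.mul_ediv_add_emod v M, h2, e']
  rw [Int.card_Icc] at h1
  have h2 : T.card ≤ L / M + 1 := by
    generalize L / M = k at h1
    omega
  have h3 : (T.card : ℝ) ≤ ((L / M : ℕ) : ℝ) + 1 := by exact_mod_cast h2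
  linarith [Nat.cast_div_le (α := ℝ) (m := L) (n := M)]

theorem near (S : Finset ℤ) (K : ℕ) (hK : 1 ≤ K) (u : ℤ) (η : ℝ) (hη : 0 ≤ η) :
    (((pt S K u).filter fun u' : ℤ => |(u : ℝ) - u'| ≤ η).card : ℝ) ≤ 2 * η / K := by
  have hK' : (0 : ℝ) < K := by exact_mod_cast hK
  have h0 : 0 ≤ η / K := div_nonneg hη hK'.le
  have h1 : ((pt S K u).filter fun u' : ℤ => |(u : ℝ) - u'| ≤ η) ⊆
      ((Icc (-(⌊η / K⌋₊ : ℤ)) ⌊η / K⌋₊).erase 0).image fun j => u - K * j := by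
    intro v hv
    obtain ⟨h2, h3⟩ := mem_filter.1 hv
    obtain ⟨-, h4, j, hj⟩ := mem_filter.1 h2
    refine mem_image.2 ⟨j, mem_erase.2 ⟨fun e => h4 ?_, mem_Icc.2 (abs_le.1 ?_)⟩, by omega⟩
    · rw [e, mul_zero] at hj
      omega
    · have h5 : (u : ℝ) - v = K * j := by exact_mod_cast hj
      rw [h5, abs_mul, abs_of_pos hK', mul_comm, ← le_div_iff₀ hK'] at h3
      rw [Int.natCast_floor_eq_floor h0, Int.le_floor]
      exact_mod_cast h3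
  have h2 := (card_le_card h1).trans card_image_le
  rw [card_erase_of_mem (by simp), Int.card_Icc] at h2
  have h3 : ((pt S K u).filter fun u' : ℤ => |(u : ℝ) - u'| ≤ η).card ≤ 2 * ⌊η / K⌋₊ := by omega
  have h4 : (((pt S K u).filter fun u' : ℤ => |(u : ℝ) - u'| ≤ η).card : ℝ) ≤
      2 * (⌊η / K⌋₊ : ℝ) := by exact_mod_cast h3
  rw [mul_div_assoc]
  linarith [Nat.floor_le h0]

end KOffCJ

theorem COffC_pf : COffC := by
  intro S K1 Kc V hS hS' h1 h2 h3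
  have hK1 : (0 : ℝ) < K1 := by exact_mod_cast h1
  have hKc : (0 : ℝ) < Kc := by exact_mod_cast h1.trans h2
  have hS3 : ∀ u ∈ S, 0 < u ∧ u ≤ ((3 * V : ℕ) : ℤ) := fun u hu => by
    simpa using hS u hu
  have a1 : (S.card : ℝ) ≤ 4 * V / K1 := by
    have h4 := KOffCJ.cls S (3 * V) K1 h1 hS3 hS'
    have h5 : (1 : ℝ) ≤ V / K1 := (one_le_div hK1).2 (by exact_mod_cast h2.trans h3)
    push_cast at h4
    rw [mul_div_assoc] at h4 ⊢
    linarith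
  refine ⟨a1, ?_, KOffCJ.near S Kc (h1.trans h2), fun M r hM => ?_⟩
  · have h4 : ∀ u ∈ S, ((pt S Kc u).card : ℝ) ≤ 2 * (3 * V) / Kc := fun u hu => by
      have h5 := KOffCJ.near S Kc (h1.trans h2) u (3 * V) (by positivity)
      rwa [filter_true_of_mem fun v hv => ?_] at h5
      have h6 := hS u hu
      have h7 := hS v (mem_filter.1 hv).1
      have h8 : |u - v| ≤ 3 * V := abs_le.2 ⟨by omega, by omega⟩
      exact_mod_cast h8
    refine (sum_le_card_nsmul _ _ _ h4).trans ?_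
    rw [nsmul_eq_mul]
    refine (mul_le_mul_of_nonneg_right a1 (by positivity)).trans (le_of_eq ?_)
    field_simp
    ring
  · have h4 := KOffCJ.cls (S.filter fun u => (M : ℤ) ∣ u - r) (3 * V) M hM
      (fun u hu => hS3 u (mem_filter.1 hu).1) fun u hu v hv => by
        have h5 := (mem_filter.1 hu).2.sub (mem_filter.1 hv).2
        rwa [sub_sub_sub_cancel_right] at h5
    exact_mod_cast h4

end Pool.Agent.MP_e23604_nt.U

end
end

section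

/-!
The step `COffW`.
-/

open Finset
open scoped Classical

noncomputable section

namespace Pool.Agent.MP_e23604_nt.U

open P (lam shp gg PW cW Rough WW ES mu flat tau NN)

namespace KOffWJ

theorem cnt {S T : Finset ℤ} {V Kc h : ℕ} {x : ℝ}
    (h4 : ∀ (M : ℕ) (r : ℤ), 1 ≤ M →
      ((S.filter fun u => (M : ℤ) ∣ u - r).card : ℝ) ≤ 3 * V / M + 1)
    (hx : 0 < x) (hK : 1 ≤ Kc) (hh : x ≤ h) (hV : x * Kc ≤ V) (hS : T ⊆ S)
    (hT : ∀ a ∈ T, ∀ b ∈ T, ((Kc * h : ℕ) : ℤ) ∣ a - b) : (T.card : ℝ) ≤ 4 * (V / (Kc * x)) := by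
  have k0 : (0 : ℝ) < Kc := by exact_mod_cast hK
  have v0 : (0 : ℝ) ≤ V := Nat.cast_nonneg V
  rcases T.eq_empty_or_nonempty with rfl | ⟨b, hb⟩
  · rw [card_empty, Nat.cast_zero]
    positivity
  have h0 : 0 < h := by exact_mod_cast hx.trans_le hh
  have h1 := h4 (Kc * h) b (Nat.mul_pos hK h0)
  have h2 : T.card ≤ (S.filter fun u => ((Kc * h : ℕ) : ℤ) ∣ u - b).card :=
    card_le_card fun a ha => mem_filter.2 ⟨hS ha, hT a ha b hb⟩
  have h3 : (1 : ℝ) ≤ V / (Kc * x) := by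
    rw [le_div_iff₀ (by positivity)]
    linarith
  have h5 : (V : ℝ) / ((Kc * h : ℕ) : ℝ) ≤ V / (Kc * x) := by
    push_cast
    exact div_le_div_of_nonneg_left v0 (by positivity) (mul_le_mul_of_nonneg_left hh k0.le)
  have h6 : (T.card : ℝ) ≤ ((S.filter fun u => ((Kc * h : ℕ) : ℤ) ∣ u - b).card : ℝ) := by
    exact_mod_cast h2
  rw [mul_div_assoc] at h1
  linarith

theorem tri {d M : ℕ} {a b : ℤ} (hd : 0 < d) (h : (d : ℤ) ∣ M * a * b)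
    (hM : ∀ g, g ∣ d → g ∣ M → g ^ 6 < d) :
    ∃ g ∈ d.divisors.filter (fun g => d ≤ g ^ 3), (g : ℤ) ∣ a ∨ (g : ℤ) ∣ b := by
  have h1 : d ∣ M * a.natAbs * b.natAbs := by
    have := Int.natAbs_dvd_natAbs.2 h
    rwa [Int.natAbs_mul, Int.natAbs_mul, Int.natAbs_natCast, Int.natAbs_natCast] at this
  obtain ⟨k, k3, hk, h3, e⟩ := Nat.dvd_mul.1 h1
  obtain ⟨k1, k2, h1', h2, rfl⟩ := Nat.dvd_mul.1 hk
  have d1 : k1 ∣ d := e ▸ (dvd_mul_right k1 k2).mul_right k3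
  have d2 : k2 ∣ d := e ▸ (dvd_mul_left k2 k1).mul_right k3
  have d3 : k3 ∣ d := e ▸ dvd_mul_left k3 _
  by_cases c2 : d ≤ k2 ^ 3
  · exact ⟨k2, mem_filter.2 ⟨Nat.mem_divisors.2 ⟨d2, hd.ne'⟩, c2⟩,
      Or.inl (Int.natCast_dvd.2 h2)⟩
  by_cases c3 : d ≤ k3 ^ 3
  · exact ⟨k3, mem_filter.2 ⟨Nat.mem_divisors.2 ⟨d3, hd.ne'⟩, c3⟩,
      Or.inr (Int.natCast_dvd.2 h3)⟩
  exfalso
  have c1 : k1 ^ 3 ≤ d := (Nat.pow_le_pow_right (Nat.pos_of_dvd_of_pos d1 hd)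
    (by norm_num)).trans (hM k1 d1 h1').le
  have e1 : k1 ^ 3 * (k2 ^ 3 * k3 ^ 3) = d * (d * d) := by rw [← e]; ring
  have e2 : k2 ^ 3 * k3 ^ 3 < d * d := Nat.mul_lt_mul'' (not_le.1 c2) (not_le.1 c3)
  have e3 : k1 ^ 3 * (k2 ^ 3 * k3 ^ 3) < d * (d * d) := Nat.mul_lt_mul_of_le_of_lt c1 e2 hd
  omega

theorem row {S : Finset ℤ} {V Kc M d : ℕ} {x : ℝ}
    (h4 : ∀ (M : ℕ) (r : ℤ), 1 ≤ M →
      ((S.filter fun u => (M : ℤ) ∣ u - r).card : ℝ) ≤ 3 * V / M + 1)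
    (hx : 0 < x) (hK : 1 ≤ Kc) (hV : x * Kc ≤ V) (hd : 0 < d) (hKM : Kc ∣ M)
    (hxd : ∀ h : ℕ, d ≤ h ^ 6 → x ≤ h) (hM : ∀ g, g ∣ d → g ∣ M → g ^ 6 < d) (u : ℤ) :
    (((pt S Kc u).filter fun u' => (d : ℤ) ∣ M * ((u - u') / (Kc : ℤ)) * (u + u')).card : ℝ) ≤
      d.divisors.card * (8 * (V / (Kc * x))) := by
  have k0 : (0 : ℝ) < Kc := by exact_mod_cast hK
  have h1 : ((pt S Kc u).filter fun u' => (d : ℤ) ∣ M * ((u - u') / (Kc : ℤ)) * (u + u')) ⊆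
      (d.divisors.filter fun g => d ≤ g ^ 3).biUnion fun g =>
        ((pt S Kc u).filter fun u' => (g : ℤ) ∣ (u - u') / (Kc : ℤ)) ∪
          ((pt S Kc u).filter fun u' => (g : ℤ) ∣ u + u') := fun u' hu => by
    rw [mem_filter] at hu
    obtain ⟨g, hg, h⟩ := tri hd hu.2 hM
    refine mem_biUnion.2 ⟨g, hg, mem_union.2 (h.imp ?_ ?_)⟩ <;>
      exact fun h => mem_filter.2 ⟨hu.1, h⟩
  have h2 : ∀ g ∈ d.divisors.filter (fun g => d ≤ g ^ 3),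
      ((((pt S Kc u).filter fun u' => (g : ℤ) ∣ (u - u') / (Kc : ℤ)) ∪
        ((pt S Kc u).filter fun u' => (g : ℤ) ∣ u + u')).card : ℝ) ≤ 8 * (V / (Kc * x)) := by
    intro g hg
    obtain ⟨g1, g3⟩ := mem_filter.1 hg
    have g2 := Nat.dvd_of_mem_divisors g1
    have g0 := Nat.pos_of_dvd_of_pos g2 hd
    have a1 : (((pt S Kc u).filter fun u' => (g : ℤ) ∣ (u - u') / (Kc : ℤ)).card : ℝ) ≤
        4 * (V / (Kc * x)) := by
      refine cnt (h := g) h4 hx hK (hxd g (g3.trans (Nat.pow_le_pow_right g0 (by norm_num)))) hV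
        ((filter_subset _ _).trans (filter_subset _ _)) fun a ha b hb => ?_
      have k : ∀ c ∈ (pt S Kc u).filter fun u' => (g : ℤ) ∣ (u - u') / (Kc : ℤ),
          ((Kc * g : ℕ) : ℤ) ∣ u - c := fun c hc => by
        obtain ⟨c1, c2⟩ := mem_filter.1 hc
        rw [← Int.mul_ediv_cancel' (mem_filter.1 c1).2.2, Nat.cast_mul]
        exact mul_dvd_mul_left _ c2
      have := (k b hb).sub (k a ha)
      rwa [sub_sub_sub_cancel_left] at this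
    have a2 : (((pt S Kc u).filter fun u' => (g : ℤ) ∣ u + u').card : ℝ) ≤
        4 * (V / (Kc * x)) := by
      obtain ⟨h, e⟩ := Nat.gcd_dvd_right Kc g
      have b1 := hM _ ((Nat.gcd_dvd_right Kc g).trans g2) ((Nat.gcd_dvd_left Kc g).trans hKM)
      have b2 : d ≤ h ^ 6 := by
        by_contra hc
        have b3 : Nat.gcd Kc g ^ 6 * h ^ 6 < d * d := Nat.mul_lt_mul'' b1 (not_le.1 hc)
        have b4 : d * d ≤ g ^ 3 * g ^ 3 := Nat.mul_le_mul g3 g3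
        rw [← mul_pow, ← e] at b3
        rw [← pow_add] at b4
        exact absurd b3 (not_lt.2 b4)
      have b5 : Nat.lcm Kc g = Kc * h := by
        refine Nat.eq_of_mul_eq_mul_left (Nat.gcd_pos_of_pos_right Kc g0) ?_
        rw [Nat.gcd_mul_lcm, mul_left_comm, ← e]
      refine cnt (h := h) h4 hx hK (hxd h b2) hV
        ((filter_subset _ _).trans (filter_subset _ _)) fun a ha b hb => ?_
      obtain ⟨c1, c2⟩ := mem_filter.1 ha
      obtain ⟨c3, c4⟩ := mem_filter.1 hb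
      have c5 := (mem_filter.1 c3).2.2.sub (mem_filter.1 c1).2.2
      have c6 := c2.sub c4
      rw [sub_sub_sub_cancel_left] at c5
      rw [add_sub_add_left_eq_sub] at c6
      rw [← b5, Int.natCast_dvd]
      exact Nat.lcm_dvd (Int.natCast_dvd.1 c5) (Int.natCast_dvd.1 c6)
    have a3 := (Nat.cast_le (α := ℝ)).2 (card_union_le
      ((pt S Kc u).filter fun u' => (g : ℤ) ∣ (u - u') / (Kc : ℤ))
      ((pt S Kc u).filter fun u' => (g : ℤ) ∣ u + u'))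
    rw [Nat.cast_add] at a3
    linarith
  have h3 := (Nat.cast_le (α := ℝ)).2 ((card_le_card h1).trans card_biUnion_le)
  rw [Nat.cast_sum] at h3
  refine h3.trans ((sum_le_sum h2).trans ?_)
  rw [sum_const, nsmul_eq_mul]
  exact mul_le_mul_of_nonneg_right (Nat.cast_le.2 (card_filter_le _ _)) (by positivity)

theorem fam (hC : COffC) {S : Finset ℤ} {V K1 Kc M d : ℕ} {x w : ℝ} (hw : 0 ≤ w)
    (h1 : ∀ u ∈ S, 0 < u ∧ u ≤ 3 * V) (h2 : ∀ u ∈ S, ∀ u' ∈ S, (K1 : ℤ) ∣ u - u')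
    (h3 : 1 ≤ K1) (h4 : K1 ≤ Kc) (hKM : Kc ∣ M) (hx : 1 ≤ x) (hV : x * Kc ≤ V) (hd : 0 < d)
    (hxd : ∀ h : ℕ, d ≤ h ^ 6 → x ≤ h) :
    ∑ u ∈ S, ∑ u' ∈ pt S Kc u, (if (d : ℤ) ∣ M * ((u - u') / (Kc : ℤ)) * (u + u') then
        (K1 * Kc : ℝ) / (V : ℝ) ^ 2 * w else 0) ≤
      24 * ∑ g ∈ d.divisors.filter (fun g => d ≤ g ^ 6), (if g ∣ M then w else 0) +
        32 * d.divisors.card / x * w := by
  have k1 : (0 : ℝ) < K1 := by exact_mod_cast h3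
  have k0 : (0 : ℝ) < Kc := by exact_mod_cast h3.trans h4
  have x0 : 0 < x := by linarith
  have kV : (Kc : ℝ) ≤ V := le_trans (le_mul_of_one_le_left k0.le hx) hV
  have v0 : (0 : ℝ) < V := k0.trans_le kV
  obtain ⟨c1, c2, -, c4⟩ := hC S K1 Kc V h1 h2 h3 h4 (by exact_mod_cast kV)
  have c0 : 0 ≤ (K1 * Kc : ℝ) / (V : ℝ) ^ 2 * w := by positivity
  have s1 : 0 ≤ 32 * (d.divisors.card : ℝ) / x * w := by positivity
  simp only [← sum_filter, sum_const, nsmul_eq_mul, ← sum_mul]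
  by_cases hM : ∀ g, g ∣ d → g ∣ M → g ^ 6 < d
  · have a1 := sum_le_sum fun u (_ : u ∈ S) =>
      row c4 x0 (h3.trans h4) hV hd hKM hxd hM u
    rw [sum_const, nsmul_eq_mul] at a1
    have a2 : (S.card : ℝ) * (d.divisors.card * (8 * (V / (Kc * x)))) ≤
        4 * V / K1 * (d.divisors.card * (8 * (V / (Kc * x)))) :=
      mul_le_mul_of_nonneg_right c1 (by positivity)
    have a3 := mul_le_mul_of_nonneg_right (a1.trans a2) c0
    have a4 : 4 * (V : ℝ) / K1 * (d.divisors.card * (8 * (V / (Kc * x)))) *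
        ((K1 * Kc : ℝ) / (V : ℝ) ^ 2 * w) = 32 * d.divisors.card / x * w := by
      field_simp
      ring
    refine (a3.trans a4.le).trans (le_add_of_nonneg_left ?_)
    positivity
  · obtain ⟨g, hg⟩ := not_forall.1 hM
    obtain ⟨g1, hg⟩ := Classical.not_imp.1 hg
    obtain ⟨g2, g3⟩ := Classical.not_imp.1 hg
    have a1 : (1 : ℝ) ≤ (((d.divisors.filter fun g => d ≤ g ^ 6).filter fun g => g ∣ M).card : ℝ) :=
      Nat.one_le_cast.2 (card_pos.2 ⟨g, mem_filter.2 ⟨mem_filter.2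
        ⟨Nat.mem_divisors.2 ⟨g1, hd.ne'⟩, not_lt.1 g3⟩, g2⟩⟩)
    have a2 : ∑ u ∈ S, (((pt S Kc u).filter fun u' =>
        (d : ℤ) ∣ M * ((u - u') / (Kc : ℤ)) * (u + u')).card : ℝ) ≤
        ∑ u ∈ S, ((pt S Kc u).card : ℝ) :=
      sum_le_sum fun u _ => Nat.cast_le.2 (card_filter_le _ _)
    have a3 := mul_le_mul_of_nonneg_right (a2.trans c2) c0
    have a4 : 24 * (V : ℝ) ^ 2 / (K1 * Kc) * ((K1 * Kc : ℝ) / (V : ℝ) ^ 2 * w) = 24 * w := by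
      field_simp
    have a5 := mul_le_mul_of_nonneg_right a1 hw
    linarith

theorem root {d n : ℕ} (hn : 1 ≤ n) (hd : 1 ≤ d) {z : ℝ}
    (hz : z = (d : ℝ) ^ (1 / ((24 * n : ℕ) : ℝ))) :
    1 ≤ z ∧ (z ^ 4) ^ (6 * n) = d ∧ (d : ℝ) ^ (-(1 / ((12 * n : ℕ) : ℝ))) = (z ^ 2)⁻¹ := by
  have d1 : (1 : ℝ) ≤ d := by exact_mod_cast hd
  have d0 : (0 : ℝ) ≤ d := by linarith
  have n0 : (0 : ℝ) < n := by exact_mod_cast hn
  refine ⟨hz ▸ Real.one_le_rpow d1 (by positivity), ?_, ?_⟩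
  · rw [← pow_mul, hz, one_div, show 4 * (6 * n) = 24 * n by ring]
    exact Real.rpow_inv_natCast_pow d0 (by omega)
  · rw [Real.rpow_neg d0, hz, ← Real.rpow_natCast, ← Real.rpow_mul d0]
    congr 2
    push_cast
    field_simp
    ring

end KOffWJ

open KOffWJ in
theorem COffW_pf (hOffC : COffC) : COffW := by
  intro n hn
  have n0 : (0 : ℝ) < n := by exact_mod_cast hn
  have e0 : (0 : ℝ) < 1 / ((24 * n : ℕ) : ℝ) := by
    push_cast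
    positivity
  obtain ⟨C, C1, hC⟩ := MP_2a1f0e_nt.divisor_bound e0
  obtain ⟨d0, hd0⟩ := Filter.eventually_atTop.1 (((tendsto_rpow_atTop e0).comp
    tendsto_natCast_atTop_atTop).eventually_ge_atTop (56 * C))
  refine ⟨max d0 1, fun {ι} P S K1 Kc M w N V D0 Ω _ hD hP hΩ hg d hd hDd hdN => ?_⟩
  have d1 : 1 ≤ d := (le_max_right _ _).trans hd
  have t1 := hC d
  have t2 : 56 * C ≤ (d : ℝ) ^ (1 / ((24 * n : ℕ) : ℝ)) := hd0 d ((le_max_left _ _).trans hd)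
  obtain ⟨z, hz⟩ : ∃ z, z = (d : ℝ) ^ (1 / ((24 * n : ℕ) : ℝ)) := ⟨_, rfl⟩
  obtain ⟨z1, z2, z3⟩ := root hn d1 hz
  rw [← hz] at t1 t2
  rw [z3]
  have z0 : 0 < z := by linarith
  have x1 : 1 ≤ z ^ 4 := one_le_pow₀ z1
  have t3 : 56 * (d.divisors.card : ℝ) / z ^ 4 ≤ (z ^ 2)⁻¹ := by
    rw [div_le_iff₀ (by positivity), show (z ^ 2)⁻¹ * z ^ 4 = z * z by field_simp]
    nlinarith
  generalize z ^ 4 = x at *
  have x0 : 0 < x := by linarith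
  have O0 : 0 ≤ Ω := (sum_nonneg fun ω hω => (hP ω hω).1).trans hΩ
  have hxd : ∀ h : ℕ, d ≤ h ^ 6 → x ≤ h := fun h hh => by
    refine le_of_pow_le_pow_left₀ (n := 6) (by norm_num) (Nat.cast_nonneg h) ?_
    refine (pow_le_pow_right₀ x1 (show 6 ≤ 6 * n by omega)).trans (z2.le.trans ?_)
    exact_mod_cast hh
  have b1 := sum_le_sum fun ω (hω : ω ∈ P) => by
    obtain ⟨p1, p2, p3, p4, p5, p6, p7⟩ := hP ω hω
    refine KOffWJ.fam hOffC (M := M ω) p1 p2 p3 p4 p5 p6 x1 ?_ d1 hxd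
    refine le_of_pow_le_pow_left₀ (n := n) (by omega) (Nat.cast_nonneg V) ?_
    have q1 : x ^ n ≤ N := (pow_le_pow_right₀ x1 (show n ≤ 6 * n by omega)).trans
      (z2.le.trans (by exact_mod_cast hdN))
    have q2 : (N : ℝ) * (Kc ω : ℝ) ^ n ≤ (V : ℝ) ^ n := by exact_mod_cast p7
    rw [mul_pow]
    exact (mul_le_mul_of_nonneg_right q1 (by positivity)).trans q2
  refine b1.trans ?_
  rw [sum_add_distrib, ← mul_sum, ← mul_sum, sum_comm]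
  have b2 : ∀ g ∈ d.divisors.filter (fun g => d ≤ g ^ 6),
      ∑ ω ∈ P, (if g ∣ M ω then w ω else 0) ≤ Ω / x := fun g hg' => by
    obtain ⟨g1, g6⟩ := mem_filter.1 hg'
    have g7 : (d : ℝ) ≤ (g : ℝ) ^ 6 := by exact_mod_cast g6
    have g0 : (0 : ℝ) ≤ g := Nat.cast_nonneg g
    rw [← sum_filter]
    refine (hg g (le_of_pow_le_pow_left₀ (n := 6) (by norm_num) g0 (hDd.trans g7))).trans ?_
    rw [Real.rpow_neg g0, div_eq_mul_inv Ω]
    refine mul_le_mul_of_nonneg_left (inv_anti₀ x0 ?_) O0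
    refine le_of_pow_le_pow_left₀ (n := 6 * n) (by omega) (by positivity) ?_
    rw [z2, mul_comm, pow_mul, one_div, Real.rpow_inv_natCast_pow g0 (by omega)]
    exact g7
  have b3 := sum_le_sum b2
  rw [sum_const, nsmul_eq_mul] at b3
  have b4 : ((d.divisors.filter fun g => d ≤ g ^ 6).card : ℝ) * (Ω / x) ≤
      d.divisors.card * (Ω / x) :=
    mul_le_mul_of_nonneg_right (Nat.cast_le.2 (card_filter_le _ _)) (by positivity)
  have b5 : 32 * (d.divisors.card : ℝ) / x * ∑ ω ∈ P, w ω ≤ 32 * d.divisors.card / x * Ω :=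
    mul_le_mul_of_nonneg_left hΩ (by positivity)
  have b6 := mul_le_mul_of_nonneg_left t3 O0
  have b7 : Ω * (56 * (d.divisors.card : ℝ) / x) =
      24 * (d.divisors.card * (Ω / x)) + 32 * d.divisors.card / x * Ω := by ring
  linarith

end Pool.Agent.MP_e23604_nt.U

end
end

section

/-!
The step `CRepA`.
-/

open Finset
open scoped Classical

noncomputable section

namespace Pool.Agent.MP_e23604_nt.U

open P (lam shp gg PW cW Rough WW ES mu flat tau NN)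

namespace KRepAJ

theorem sq_bd {ζ : Type} (b : Finset ζ) (S : Finset ℤ) (G : ζ → ℝ) (c : ℤ → ℝ) (γ : ℤ → ζ → ℝ)
    (Γ : ℝ) (hG : ∀ z, 0 ≤ G z) (hc : ∀ u, |c u| ≤ 1) (hγ : ∀ u ∈ S, ∀ z ∈ b, |γ u z| ≤ Γ) :
    ∑ z ∈ b, G z * (∑ u ∈ S, c u * γ u z) ^ 2 ≤ S.card * Γ ^ 2 * ∑ z ∈ b, G z +
      ∑ u ∈ S, ∑ u' ∈ S.erase u, |∑ z ∈ b, G z * γ u z * γ u' z| := by
  have e : ∑ z ∈ b, G z * (∑ u ∈ S, c u * γ u z) ^ 2 =
      ∑ u ∈ S, ∑ u' ∈ S, c u * c u' * ∑ z ∈ b, G z * γ u z * γ u' z := by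
    calc ∑ z ∈ b, G z * (∑ u ∈ S, c u * γ u z) ^ 2
        = ∑ z ∈ b, ∑ u ∈ S, ∑ u' ∈ S, c u * c u' * (G z * γ u z * γ u' z) := by
          refine sum_congr rfl fun z _ => ?_
          rw [sq, sum_mul_sum, mul_sum]
          refine sum_congr rfl fun u _ => ?_
          rw [mul_sum]
          exact sum_congr rfl fun u' _ => by ring
      _ = _ := by
          rw [sum_comm]
          refine sum_congr rfl fun u _ => ?_
          rw [sum_comm]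
          exact sum_congr rfl fun u' _ => (mul_sum _ _ _).symm
  have k : ∀ u u' (t : ℝ), c u * c u' * t ≤ |t| := fun u u' t => by
    refine (le_abs_self _).trans ?_
    rw [abs_mul, abs_mul]
    exact mul_le_of_le_one_left (abs_nonneg _) (mul_le_one₀ (hc u) (abs_nonneg _) (hc u'))
  rw [e, mul_assoc, ← nsmul_eq_mul, ← sum_const, ← sum_add_distrib]
  refine sum_le_sum fun u hu => ?_
  rw [← add_sum_erase _ _ hu]
  refine add_le_add ((k u u _).trans ?_) (sum_le_sum fun u' _ => k u u' _)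
  rw [mul_sum]
  refine (abs_sum_le_sum_abs _ _).trans (sum_le_sum fun z hz => ?_)
  have h1 : γ u z ^ 2 ≤ Γ ^ 2 := sq_le_sq' (abs_le.1 (hγ u hu z hz)).1 (abs_le.1 (hγ u hu z hz)).2
  rw [mul_assoc, ← sq, abs_of_nonneg (mul_nonneg (hG z) (sq_nonneg _)), mul_comm]
  exact mul_le_mul_of_nonneg_right h1 (hG z)

theorem one_bd {ζ : Type} (b : Finset ζ) (G Aw s : ζ → ℝ) (κ e : ℝ) (he : 0 < e) (hκ : 0 ≤ κ)
    (hG : ∀ z, |Aw z| ≤ G z) : κ * |∑ z ∈ b, Aw z * s z| ≤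
      e / 2 * ∑ z ∈ b, G z + κ ^ 2 / (2 * e) * ∑ z ∈ b, G z * s z ^ 2 := by
  refine (mul_le_mul_of_nonneg_left (abs_sum_le_sum_abs _ _) hκ).trans ?_
  rw [mul_sum, mul_sum, mul_sum, ← sum_add_distrib]
  refine sum_le_sum fun z _ => ?_
  have h0 : 0 ≤ G z := (abs_nonneg _).trans (hG z)
  have h1 : κ * |s z| ≤ e / 2 + κ ^ 2 / (2 * e) * s z ^ 2 := by
    have h2 : e / 2 + κ ^ 2 / (2 * e) * s z ^ 2 - κ * |s z| = (e - κ * |s z|) ^ 2 / (2 * e) := by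
      rw [← sq_abs (s z)]
      field_simp
      ring
    have h3 : 0 ≤ (e - κ * |s z|) ^ 2 / (2 * e) := by positivity
    linarith
  calc κ * |Aw z * s z| = |Aw z| * (κ * |s z|) := by rw [abs_mul]; ring
    _ ≤ G z * (e / 2 + κ ^ 2 / (2 * e) * s z ^ 2) :=
      mul_le_mul (hG z) h1 (by positivity) h0
    _ = _ := by ring

theorem card_bx (X Y : ℕ) : ((bx X Y).card : ℝ) = X * Y := by
  have h : ∀ X : ℕ, (Ioc (X : ℤ) (2 * X)).card = X := fun X => by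
    rw [Int.card_Ioc]
    omega
  rw [bx, card_product, h, h, Nat.cast_mul]

theorem ratio {N K V n : ℕ} {C : ℝ} (hn : 1 ≤ n) (hV : 1 ≤ V) (h : N * K ^ n ≤ V ^ n)
    (hC : 0 ≤ C) (h2 : C ^ n ≤ N) : C * ((K : ℝ) / V) ≤ 1 := by
  have hV' : (0 : ℝ) < V := by exact_mod_cast hV
  have h3 : (N : ℝ) * (K : ℝ) ^ n ≤ (V : ℝ) ^ n := by exact_mod_cast h
  rw [← mul_div_assoc, div_le_one hV']
  refine (pow_le_pow_iff_left₀ (by positivity) hV'.le (by omega : n ≠ 0)).1 ?_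
  rw [mul_pow]
  exact (mul_le_mul_of_nonneg_right h2 (by positivity)).trans h3

end KRepAJ

open KRepAJ in
theorem CRepA_pf (hOff : COff) (hOffC : COffC) : CRepA := by
  intro A a n hn
  obtain ⟨B0, h0⟩ := hOff (2 * A + 1) a n hn
  refine ⟨B0, fun B hB => ?_⟩
  obtain ⟨N1, h1⟩ := h0 B hB
  obtain ⟨N2, h2⟩ := P.wt_all B
  obtain ⟨N3, h3⟩ := P.log_pow_le (2 * A + 2) n 72
  refine ⟨N1 + N2 + N3 + 1, fun N hN ι P d Aw c V X Y U T0 Ω ρ hS hd hW => ?_⟩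
  have off := h1 N (by omega) P d V X Y U T0 Ω ρ hS (fun ω hω => (hd ω hω).1) hW
  have wt := (h2 N (by omega)).2.2.1
  obtain ⟨l1, l2⟩ := h3 N (by omega)
  have mass := hW.mass (bx X Y) Subset.rfl
  rw [card_bx, show (X : ℝ) * Y * X * Y = (X * Y) ^ 2 by ring, Real.sqrt_sq (by positivity),
    ← mul_assoc] at mass
  have hN1 : 1 ≤ N := by omega
  generalize hL : Real.log N = L at *
  have hL0 : 0 < L := by linarith
  have he : 0 < 1 / L ^ A := by positivity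
  have key : ∀ ω ∈ P, ((d ω).K1 : ℝ) / V * |∑ z ∈ bx X Y, Aw ω z * ∑ u ∈ (d ω).S,
      c ω u * gg (WW B N) (lf ((d ω).α u) ((d ω).β u) z / ((d ω).m : ℤ))| ≤
      3 / 4 * (1 / L ^ A) * ∑ z ∈ bx X Y, (d ω).G z + L ^ A / 2 *
        (((d ω).K1 * (d ω).Kc : ℝ) / (V : ℝ) ^ 2 *
          ∑ u ∈ (d ω).S, ∑ u' ∈ pt (d ω).S (d ω).Kc u, |(d ω).T X Y (gg (WW B N)) u u'|) := by
    intro ω hω
    obtain ⟨o, o1, o2, o3, o4⟩ := hd ω hω
    generalize d ω = D at *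
    have hKV : D.Kc ≤ V := (Nat.pow_le_pow_iff_left (by omega : n ≠ 0)).1
      ((Nat.le_mul_of_pos_left _ hN1).trans o.big)
    have hV : 1 ≤ V := (o.K1_pos.trans o.K1_le).trans hKV
    have hV' : (0 : ℝ) < V := by exact_mod_cast hV
    have hK' : (0 : ℝ) < D.K1 := by exact_mod_cast o.K1_pos
    have c1 := (hOffC D.S D.K1 D.Kc V o.sub o.cls o.K1_pos o.K1_le hKV).1
    have c2 := ratio hn hV o.big (by positivity) l2
    rw [o1] at c2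
    have hγ : ∀ u ∈ D.S, ∀ z ∈ bx X Y,
        |gg (WW B N) (lf (D.α u) (D.β u) z / (D.m : ℤ))| ≤ 3 * L := by
      intro u hu z hz
      obtain ⟨r1, r2⟩ := (o.form u hu).2.1.1 z hz
      refine wt _ (Int.ediv_nonneg r1.le (Int.natCast_nonneg _)) ?_
      refine (Int.ediv_le_self _ r1.le).trans ?_
      have r3 : lf (D.α u) (D.β u) z ≤ (N : ℤ) ^ 2 := by exact_mod_cast r2.trans hS.hU'
      exact r3.trans (pow_le_pow_right₀ (by exact_mod_cast hN1) (by norm_num))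
    have s1 := sq_bd (bx X Y) D.S D.G (c ω)
      (fun u z => gg (WW B N) (lf (D.α u) (D.β u) z / (D.m : ℤ))) (3 * L) (fun z => (o.G01 z).1)
      o4 hγ
    have s2 : ∑ u ∈ D.S, ∑ u' ∈ pt D.S D.Kc u, |D.T X Y (gg (WW B N)) u u'| =
        ∑ u ∈ D.S, ∑ u' ∈ D.S.erase u, |∑ z ∈ bx X Y, D.G z *
          gg (WW B N) (lf (D.α u) (D.β u) z / (D.m : ℤ)) *
          gg (WW B N) (lf (D.α u') (D.β u') z / (D.m : ℤ))| := by
      refine sum_congr rfl fun u hu => sum_congr ?_ fun u' _ => by rw [Ln.T, o2]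
      ext u'
      rw [pt, mem_filter, mem_erase, o1]
      exact ⟨fun h => ⟨h.2.1, h.1⟩, fun h => ⟨h.2, h.1, o.cls u hu u' h.2⟩⟩
    refine (one_bd (bx X Y) D.G (Aw ω) _ _ _ he (by positivity) o3).trans ?_
    rw [s2, o1]
    have g0 : 0 ≤ ∑ z ∈ bx X Y, D.G z := sum_nonneg fun z _ => (o.G01 z).1
    have s3 := mul_le_mul_of_nonneg_left s1
      (by positivity : 0 ≤ ((D.K1 : ℝ) / V) ^ 2 / (2 * (1 / L ^ A)))
    have s4 : ((D.K1 : ℝ) / V) ^ 2 / (2 * (1 / L ^ A)) * (D.S.card * (3 * L) ^ 2) ≤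
        1 / 4 * (1 / L ^ A) := by
      calc ((D.K1 : ℝ) / V) ^ 2 / (2 * (1 / L ^ A)) * (D.S.card * (3 * L) ^ 2)
          ≤ ((D.K1 : ℝ) / V) ^ 2 / (2 * (1 / L ^ A)) * (4 * V / D.K1 * (3 * L) ^ 2) := by gcongr
        _ = 1 / 4 * (1 / L ^ A) * (72 * L ^ (2 * A + 2) * ((D.K1 : ℝ) / V)) := by
          field_simp
          ring
        _ ≤ 1 / 4 * (1 / L ^ A) * 1 := by gcongr
        _ = _ := mul_one _
    have s5 := mul_le_mul_of_nonneg_right s4 g0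
    have s6 : ∀ t : ℝ, L ^ A / 2 * ((D.K1 * D.K1 : ℝ) / (V : ℝ) ^ 2 * t) =
        ((D.K1 : ℝ) / V) ^ 2 / (2 * (1 / L ^ A)) * t := fun t => by
      field_simp
    rw [s6]
    rw [mul_add, ← mul_assoc] at s3
    linarith
  refine (sum_le_sum key).trans ?_
  rw [sum_add_distrib, ← mul_sum, ← mul_sum]
  have m0 : 0 ≤ Ω * X * Y := le_trans
    (sum_nonneg fun ω hω => sum_nonneg fun z _ => ((hd ω hω).1.G01 z).1) mass
  generalize Ω * X * Y = Q at *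
  have f1 := mul_le_mul_of_nonneg_left mass (by positivity : 0 ≤ 3 / 4 * (1 / L ^ A))
  have f2 := mul_le_mul_of_nonneg_left off (by positivity : 0 ≤ L ^ A / 2)
  have f3 : L ^ A / 2 * (Q / L ^ (2 * A + 1)) ≤ 1 / 4 * (1 / L ^ A) * Q := by
    have : L ^ A / 2 * (Q / L ^ (2 * A + 1)) = 1 / 4 * (1 / L ^ A) * Q * (2 / L) := by
      field_simp
      ring
    rw [this]
    exact mul_le_of_le_one_right (by positivity) ((div_le_one hL0).2 (by linarith))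
  have f4 : Q / L ^ A = 3 / 4 * (1 / L ^ A) * Q + 1 / 4 * (1 / L ^ A) * Q := by ring
  linarith

end Pool.Agent.MP_e23604_nt.U

end
end

section

/-!
The step `CTau`.
-/

open Finset
open scoped Classical

noncomputable section

namespace Pool.Agent.MP_e23604_nt.U

open P (lam shp gg PW cW Rough WW ES mu flat tau NN)

namespace KTauJ

theorem am (x : Fin 12 → ℝ) (hx : ∀ i, 0 ≤ x i) : ∏ i, x i ≤ ∑ i, x i ^ 12 := by
  obtain ⟨j, -, hj⟩ := Finset.exists_max_image univ x univ_nonempty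
  calc ∏ i, x i ≤ ∏ _i : Fin 12, x j := prod_le_prod (fun i _ => hx i) hj
    _ = x j ^ 12 := by simp
    _ ≤ _ := single_le_sum (f := fun i => x i ^ 12) (fun i _ => pow_nonneg (hx i) _) (mem_univ j)

end KTauJ

theorem CTau_pf (hTau1 : CTau1) (hCls : CCls) (hSz : CSz) : CTau := by
  intro c
  obtain ⟨C, N1, h1⟩ := hTau1 (c * 2 * 12)
  obtain ⟨N2, h2⟩ := hSz.big 0 12
  refine ⟨C + 1, N1 + N2, fun X Z hR hN S hS => ?_⟩
  have a1 := h1 X Z hR (by omega)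
  have hL : 12 ≤ LL X := (h2 X Z hR (by omega)).1
  have hV : 0 ≤ Vol X := prod_nonneg fun i _ => Nat.cast_nonneg _
  have t0 : ∀ n, 0 ≤ tau n := fun n => Nat.cast_nonneg _
  have a2 : ∑ v ∈ S, (TT v ^ c) ^ 2 ≤ 12 * (Vol X * LL X ^ C) :=
    calc ∑ v ∈ S, (TT v ^ c) ^ 2 ≤ ∑ v ∈ Box X, (TT v ^ c) ^ 2 :=
          sum_le_sum_of_subset_of_nonneg hS fun v _ _ => sq_nonneg _
      _ ≤ ∑ v ∈ Box X, ∑ σ, tau (fm v σ) ^ (c * 2 * 12) := by
          refine sum_le_sum fun v _ => ?_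
          rw [← pow_mul, TT, ← prod_pow]
          refine (KTauJ.am _ fun σ => pow_nonneg (t0 _) _).trans (le_of_eq ?_)
          simp only [← pow_mul]
      _ = ∑ σ, ∑ v ∈ Box X, tau (fm v σ) ^ (c * 2 * 12) := sum_comm
      _ ≤ ∑ _σ : Fin 12, Vol X * LL X ^ C := sum_le_sum fun σ _ => a1 σ
      _ = _ := by simp
  have a3 := sum_mul_sq_le_sq_mul_sq S (fun _ => (1 : ℝ)) fun v => TT v ^ c
  simp only [one_mul, one_pow, sum_const, nsmul_eq_mul, mul_one] at a3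
  have a4 : 0 ≤ (S.card : ℝ) * Vol X := mul_nonneg (Nat.cast_nonneg _) hV
  have a5 : 1 ≤ LL X ^ C := one_le_pow₀ (by linarith)
  refine abs_le_of_sq_le_sq' ?_ (mul_nonneg (Real.sqrt_nonneg _) (pow_nonneg (by linarith) _)) |>.2
  rw [mul_pow, Real.sq_sqrt a4, pow_succ (LL X) C]
  refine (a3.trans (mul_le_mul_of_nonneg_left a2 (Nat.cast_nonneg _))).trans ?_
  have a6 : 12 * LL X ^ C ≤ (LL X ^ C * LL X) ^ 2 := by
    have a7 : 12 * LL X ^ C ≤ LL X ^ C * LL X := by nlinarith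
    nlinarith
  calc (S.card : ℝ) * (12 * (Vol X * LL X ^ C)) = S.card * Vol X * (12 * LL X ^ C) := by ring
    _ ≤ _ := mul_le_mul_of_nonneg_left a6 a4

end Pool.Agent.MP_e23604_nt.U

end
end

section

/-!
The step `CDiv`.
-/

open Finset
open scoped Classical

noncomputable section

namespace Pool.Agent.MP_e23604_nt.U

open P (lam shp gg PW cW Rough WW ES mu flat tau NN)

namespace KDivJ

theorem mult (X g : ℕ) (S : Finset ℤ) (hS : ∀ u ∈ S, u ∈ Ioc (X : ℤ) (2 * X) ∧ (g : ℤ) ∣ u) :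
    (S.card : ℝ) ≤ 2 * X / g := by
  have h1 : S.card ≤ ((Ioc 0 (2 * X)).filter fun u => g ∣ u).card := by
    refine card_le_card_of_injOn Int.toNat ?_ ?_
    · intro u hu
      obtain ⟨h1, h3⟩ := hS u hu
      rw [mem_Ioc] at h1
      refine mem_coe.2 (mem_filter.2 ⟨mem_Ioc.2 ⟨by omega, by omega⟩, ?_⟩)
      have e : ((u.toNat : ℕ) : ℤ) = u := Int.toNat_of_nonneg (by omega)
      exact Int.natCast_dvd_natCast.1 (by rw [e]; exact h3)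
    · intro u hu u' hu' h
      have h1 := mem_Ioc.1 (hS u hu).1
      have h2 := mem_Ioc.1 (hS u' hu').1
      omega
  rw [Nat.Ioc_filter_dvd_card_eq_div] at h1
  calc _ ≤ ((2 * X / g : ℕ) : ℝ) := by exact_mod_cast h1
    _ ≤ ((2 * X : ℕ) : ℝ) / g := Nat.cast_div_le
    _ = _ := by push_cast; ring

theorem fib (hCls : CCls) (X : Fin 10 → ℕ) (i : Fin 10) (p : V10 → Prop) (c : ℝ)
    (h : ∀ v ∈ Box X, ∀ S : Finset ℤ, (∀ u ∈ S, u ∈ Ioc (X i : ℤ) (2 * X i) ∧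
      p (Function.update v i u)) → (S.card : ℝ) ≤ c * X i)
    (T : Finset V10) (hT : ∀ v ∈ T, v ∈ Box X ∧ p v) : (T.card : ℝ) ≤ c * Vol X := by
  have h0 : (T.card : ℝ) ≤ ((Box X).filter p).card := by
    exact_mod_cast card_le_card fun v hv => mem_filter.2 (hT v hv)
  refine h0.trans ?_
  have e := hCls.cls X i 1 (fun v => if p v then 1 else 0)
  rw [← sum_boole, e, ← hCls.vol, mul_comm c, ← nsmul_eq_mul]
  refine sum_le_card_nsmul _ _ _ fun v hv => ?_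
  have hc : cz (X i) 1 (v i) = Ioc (X i : ℤ) (2 * X i) :=
    filter_true_of_mem fun x _ => by simp
  have hX : 0 < X i := by
    have := mem_Ioc.1 (Fintype.mem_piFinset.1 hv i)
    omega
  have hX' : (0 : ℝ) < X i := by exact_mod_cast hX
  have hk : ((Ioc (X i : ℤ) (2 * X i)).card : ℝ) = X i := by
    rw [Int.card_Ioc]
    have : (2 * (X i : ℤ) - X i).toNat = X i := by omega
    rw [this]
  rw [hc, hk, sum_boole, one_div, inv_mul_le_iff₀ hX', mul_comm _ c]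
  exact h v hv _ fun u hu => mem_filter.1 hu

theorem vol0 (X : Fin 10 → ℕ) : 0 ≤ Vol X := prod_nonneg fun _ _ => Nat.cast_nonneg _

theorem two (hCls : CCls) (X : Fin 10 → ℕ) (i : Fin 10) (g : ℕ) :
    (((Box X).filter fun v => (g : ℤ) ∣ v i).card : ℝ) ≤ 3 * Vol X / g := by
  have h := fib hCls X i (fun v => (g : ℤ) ∣ v i) (2 / g) (fun v _ S hS => by
    simp only [Function.update_self] at hS
    exact (mult (X i) g S hS).trans (le_of_eq (by ring)))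
    ((Box X).filter fun v => (g : ℤ) ∣ v i) fun v hv => mem_filter.1 hv
  refine h.trans ?_
  have h0 : 0 ≤ Vol X / g := div_nonneg (vol0 X) (Nat.cast_nonneg _)
  have e1 : 2 / (g : ℝ) * Vol X = 2 * (Vol X / g) := by ring
  have e2 : 3 * Vol X / g = 3 * (Vol X / g) := by ring
  rw [e1, e2]
  linarith

theorem bad (hCls : CCls) (X : Fin 10 → ℕ) (a : Fin 10) (g : ℕ) (hg : 1 ≤ g) (t : ℝ)
    (ht : 0 < t) :
    (((Box X).filter fun v => t < (Nat.gcd g (v a).natAbs : ℕ)).card : ℝ) ≤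
      g.divisors.card * (3 * Vol X / t) := by
  have hsub : ((Box X).filter fun v => t < (Nat.gcd g (v a).natAbs : ℕ)) ⊆
      (g.divisors.filter fun d : ℕ => t < d).biUnion
        fun d => (Box X).filter fun v => (d : ℤ) ∣ v a := by
    intro v hv
    rw [mem_filter] at hv
    refine mem_biUnion.2 ⟨Nat.gcd g (v a).natAbs, mem_filter.2 ⟨Nat.mem_divisors.2
      ⟨Nat.gcd_dvd_left _ _, by omega⟩, hv.2⟩, mem_filter.2 ⟨hv.1, ?_⟩⟩
    exact Int.natCast_dvd.2 (Nat.gcd_dvd_right _ _)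
  have h1 := (card_le_card hsub).trans card_biUnion_le
  have h0 : 0 ≤ 3 * Vol X := mul_nonneg (by norm_num) (vol0 X)
  calc _ ≤ ∑ d ∈ g.divisors.filter fun d : ℕ => t < d,
        (((Box X).filter fun v => (d : ℤ) ∣ v a).card : ℝ) := by exact_mod_cast h1
    _ ≤ ∑ _d ∈ g.divisors.filter fun d : ℕ => t < d, 3 * Vol X / t := by
        refine sum_le_sum fun d hd => (two hCls X a d).trans ?_
        exact div_le_div_of_nonneg_left h0 ht (mem_filter.1 hd).2.le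
    _ ≤ _ := by
        rw [sum_const, nsmul_eq_mul]
        refine mul_le_mul_of_nonneg_right ?_ (div_nonneg h0 ht.le)
        exact_mod_cast card_filter_le _ _

theorem line (hCls : CCls) (X g : ℕ) (hg : 1 ≤ g) (h2 : 2 * g ≤ X) (A c : ℤ) (S : Finset ℤ)
    (hS : ∀ u ∈ S, u ∈ Ioc (X : ℤ) (2 * X) ∧ (g : ℤ) ∣ A * u + c) :
    (S.card : ℝ) ≤ 2 * X * (Nat.gcd g A.natAbs : ℕ) / g := by
  rcases S.eq_empty_or_nonempty with h | ⟨u0, hu0⟩
  · rw [h, card_empty, Nat.cast_zero]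
    positivity
  obtain ⟨M, A', hcop, e1, e2⟩ := Nat.exists_coprime g A.natAbs
  generalize Nat.gcd g A.natAbs = d at e1 e2
  have hd : 0 < d := Nat.pos_of_ne_zero (by rintro rfl; omega)
  have hM : 0 < M := Nat.pos_of_ne_zero (by rintro rfl; omega)
  have hMg : M ≤ g := by rw [e1]; exact Nat.le_mul_of_pos_right _ hd
  have hsub : S ⊆ cz X M u0 := by
    intro u hu
    refine mem_filter.2 ⟨(hS u hu).1, ?_⟩
    have h3 : (g : ℤ) ∣ A * (u - u0) := by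
      have := dvd_sub (hS u hu).2 (hS u0 hu0).2
      rwa [show A * u + c - (A * u0 + c) = A * (u - u0) by ring] at this
    rw [Int.natCast_dvd, Int.natAbs_mul, e1, e2, mul_right_comm] at h3
    exact Int.natCast_dvd.2 (hcop.dvd_of_dvd_mul_left (Nat.dvd_of_mul_dvd_mul_right hd h3))
  have h4 := (hCls.card X M u0 hM (by omega)).2
  have hd' : (0 : ℝ) < d := by exact_mod_cast hd
  have hM' : (0 : ℝ) < M := by exact_mod_cast hM
  calc _ ≤ ((cz X M u0).card : ℝ) := by exact_mod_cast card_le_card hsub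
    _ ≤ 2 * X / M := h4
    _ = _ := by rw [e1]; push_cast; field_simp

theorem gcd3 (g : ℕ) (hg : 1 ≤ g) (x y : ℤ) (t : ℝ) (hx : ((Nat.gcd g x.natAbs : ℕ) : ℝ) ≤ t)
    (hy : ((Nat.gcd g y.natAbs : ℕ) : ℝ) ≤ t) :
    ((Nat.gcd g (x * y ^ 2).natAbs : ℕ) : ℝ) ≤ t ^ 3 := by
  have h1 : Nat.gcd g (x * y ^ 2).natAbs ∣
      Nat.gcd g x.natAbs * (Nat.gcd g y.natAbs * Nat.gcd g y.natAbs) := by
    rw [Int.natAbs_mul, sq, Int.natAbs_mul]
    exact (Nat.gcd_mul_right_dvd_mul_gcd _ _ _).trans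
      (Nat.mul_dvd_mul_left _ (Nat.gcd_mul_right_dvd_mul_gcd _ _ _))
  have p1 : 0 < Nat.gcd g x.natAbs := Nat.gcd_pos_of_pos_left _ hg
  have p2 : 0 < Nat.gcd g y.natAbs := Nat.gcd_pos_of_pos_left _ hg
  have h2 := Nat.le_of_dvd (by positivity) h1
  have ht : 0 ≤ t := (Nat.cast_nonneg _).trans hx
  calc _ ≤ ((Nat.gcd g x.natAbs : ℕ) : ℝ) *
        ((Nat.gcd g y.natAbs : ℕ) * (Nat.gcd g y.natAbs : ℕ)) := by exact_mod_cast h2
    _ ≤ t * (t * t) := by gcongr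
    _ = _ := by ring

theorem form (hCls : CCls) (X : Fin 10 → ℕ) (i a b : Fin 10) (hai : a ≠ i) (hbi : b ≠ i)
    (T : Finset V10) (c : V10 → ℤ) (hc : ∀ v u, c (Function.update v i u) = c v) (g : ℕ)
    (hp : ∀ v ∈ T, v ∈ Box X ∧ (g : ℤ) ∣ v a * v b ^ 2 * v i + c v) (hg : 1 ≤ g)
    (h2 : 2 * g ≤ X i) (t : ℝ) (ht : 0 < t) (htg : t ^ 4 = g) :
    (T.card : ℝ) ≤ 8 * g.divisors.card * (Vol X / t) := by
  have hG := fib hCls X i (fun v => ((Nat.gcd g (v a).natAbs : ℕ) : ℝ) ≤ t ∧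
      ((Nat.gcd g (v b).natAbs : ℕ) : ℝ) ≤ t ∧ (g : ℤ) ∣ v a * v b ^ 2 * v i + c v) (2 / t)
      (fun v _ S hS => by
    simp only [Function.update_self, Function.update_of_ne hai, Function.update_of_ne hbi,
      hc] at hS
    rcases S.eq_empty_or_nonempty with h | ⟨u0, hu0⟩
    · rw [h, card_empty, Nat.cast_zero]
      positivity
    refine (line hCls (X i) g hg h2 _ _ S fun u hu => ⟨(hS u hu).1, (hS u hu).2.2.2⟩).trans ?_
    have h3 := gcd3 g hg _ _ t (hS u0 hu0).2.1 (hS u0 hu0).2.2.1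
    calc _ ≤ 2 * (X i : ℝ) * t ^ 3 / g := by gcongr
      _ = _ := by rw [← htg]; field_simp)
    ((Box X).filter fun v => ((Nat.gcd g (v a).natAbs : ℕ) : ℝ) ≤ t ∧
      ((Nat.gcd g (v b).natAbs : ℕ) : ℝ) ≤ t ∧ (g : ℤ) ∣ v a * v b ^ 2 * v i + c v)
    fun v hv => mem_filter.1 hv
  have ha := bad hCls X a g hg t ht
  have hb := bad hCls X b g hg t ht
  have hsub : T ⊆ ((Box X).filter fun v =>
      ((Nat.gcd g (v a).natAbs : ℕ) : ℝ) ≤ t ∧ ((Nat.gcd g (v b).natAbs : ℕ) : ℝ) ≤ t ∧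
        (g : ℤ) ∣ v a * v b ^ 2 * v i + c v) ∪
      (((Box X).filter fun v => t < (Nat.gcd g (v a).natAbs : ℕ)) ∪
        (Box X).filter fun v => t < (Nat.gcd g (v b).natAbs : ℕ)) := by
    intro v hv0
    have hv := hp v hv0
    simp only [mem_union, mem_filter]
    rcases lt_or_ge t (Nat.gcd g (v a).natAbs : ℕ) with h1 | h1
    · exact Or.inr (Or.inl ⟨hv.1, h1⟩)
    rcases lt_or_ge t (Nat.gcd g (v b).natAbs : ℕ) with h3 | h3
    · exact Or.inr (Or.inr ⟨hv.1, h3⟩)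
    exact Or.inl ⟨hv.1, h1, h3, hv.2⟩
  have h5 := (card_le_card hsub).trans
    ((card_union_le _ _).trans (Nat.add_le_add_left (card_union_le _ _) _))
  have h6 := (Nat.cast_le (α := ℝ)).2 h5
  rw [Nat.cast_add, Nat.cast_add] at h6
  have h1 : (1 : ℝ) ≤ g.divisors.card := by
    exact_mod_cast card_pos.2 ⟨1, Nat.one_mem_divisors.2 (by omega)⟩
  have h0 : 0 ≤ Vol X / t := div_nonneg (vol0 X) ht.le
  have e1 : 2 / t * Vol X = 2 * (Vol X / t) := by ring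
  have e2 : 3 * Vol X / t = 3 * (Vol X / t) := by ring
  rw [e1] at hG
  rw [e2] at ha hb
  have h7 := mul_le_mul_of_nonneg_right h1 h0
  generalize (g.divisors.card : ℝ) = D at *
  generalize Vol X / t = w at *
  refine h6.trans ((add_le_add hG (add_le_add ha hb)).trans ?_)
  nlinarith

theorem all (hCls : CCls) (X : Fin 10 → ℕ) (σ : Fin 12) (g : ℕ) (hg : 1 ≤ g)
    (h2 : ∀ i, 2 * g ≤ X i) (t : ℝ) (ht : 1 ≤ t) (htg : t ^ 4 = g) (T : Finset V10)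
    (hT : ∀ v ∈ T, v ∈ Box X ∧ (g : ℤ) ∣ fm v σ) :
    (T.card : ℝ) ≤ 8 * g.divisors.card * (Vol X / t) := by
  have ht0 : 0 < t := by linarith
  have hv : ∀ i : Fin 10, (∀ v ∈ T, v ∈ Box X ∧ (g : ℤ) ∣ v i) →
      (T.card : ℝ) ≤ 8 * g.divisors.card * (Vol X / t) := by
    intro i hi
    have h5 : (T.card : ℝ) ≤ ((Box X).filter fun v => (g : ℤ) ∣ v i).card := by
      exact_mod_cast card_le_card fun v hv => mem_filter.2 (hi v hv)
    refine (h5.trans (two hCls X i g)).trans ?_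
    have h1 : (1 : ℝ) ≤ g.divisors.card := by
      exact_mod_cast card_pos.2 ⟨1, Nat.one_mem_divisors.2 (by omega)⟩
    have h3 : t ≤ g := by rw [← htg]; exact le_self_pow₀ ht (by norm_num)
    have h4 : Vol X / g ≤ Vol X / t := div_le_div_of_nonneg_left (vol0 X) ht0 h3
    have h0 : 0 ≤ Vol X / t := div_nonneg (vol0 X) ht0.le
    have h7 := mul_le_mul_of_nonneg_right h1 h0
    rw [mul_div_assoc]
    nlinarith
  fin_cases σ
  · exact hv 0 hT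
  · exact hv 1 hT
  · refine form hCls X 2 4 6 (by decide) (by decide) T (fun v => -(v 5 * v 3 * v 7 ^ 2))
      (fun v u => by simp) g (fun v h => ⟨(hT v h).1, ?_⟩) hg (h2 _) t ht0 htg
    have h' : (g : ℤ) ∣ v 2 * v 4 * v 6 ^ 2 - v 5 * v 3 * v 7 ^ 2 := (hT v h).2
    exact h'.trans (dvd_of_eq (by ring))
  · refine form hCls X 2 5 8 (by decide) (by decide) T (fun v => -(v 4 * v 3 * v 9 ^ 2))
      (fun v u => by simp) g (fun v h => ⟨(hT v h).1, ?_⟩) hg (h2 _) t ht0 htg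
    have h' : (g : ℤ) ∣ v 2 * v 5 * v 8 ^ 2 - v 4 * v 3 * v 9 ^ 2 := (hT v h).2
    exact h'.trans (dvd_of_eq (by ring))
  · exact hv 4 hT
  · exact hv 5 hT
  · refine form hCls X 0 2 6 (by decide) (by decide) T (fun v => -(4 * v 3 * v 1 * v 9 ^ 2))
      (fun v u => by simp) g (fun v h => ⟨(hT v h).1, ?_⟩) hg (h2 _) t ht0 htg
    have h' : (g : ℤ) ∣ v 0 * v 2 * v 6 ^ 2 - 4 * v 3 * v 1 * v 9 ^ 2 := (hT v h).2
    exact h'.trans (dvd_of_eq (by ring))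
  · refine form hCls X 0 3 7 (by decide) (by decide) T (fun v => -(4 * v 2 * v 1 * v 8 ^ 2))
      (fun v u => by simp) g (fun v h => ⟨(hT v h).1, ?_⟩) hg (h2 _) t ht0 htg
    have h' : (g : ℤ) ∣ 4 * v 2 * v 1 * v 8 ^ 2 - v 0 * v 3 * v 7 ^ 2 := (hT v h).2
    exact (dvd_neg.2 h').trans (dvd_of_eq (by ring))
  · exact hv 2 hT
  · exact hv 3 hT
  · refine form hCls X 0 4 6 (by decide) (by decide) T (fun v => -(4 * v 5 * v 1 * v 8 ^ 2))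
      (fun v u => by simp) g (fun v h => ⟨(hT v h).1, ?_⟩) hg (h2 _) t ht0 htg
    have h' : (g : ℤ) ∣ v 0 * v 4 * v 6 ^ 2 - 4 * v 5 * v 1 * v 8 ^ 2 := (hT v h).2
    exact h'.trans (dvd_of_eq (by ring))
  · refine form hCls X 0 5 7 (by decide) (by decide) T (fun v => -(4 * v 4 * v 1 * v 9 ^ 2))
      (fun v u => by simp) g (fun v h => ⟨(hT v h).1, ?_⟩) hg (h2 _) t ht0 htg
    have h' : (g : ℤ) ∣ 4 * v 4 * v 1 * v 9 ^ 2 - v 0 * v 5 * v 7 ^ 2 := (hT v h).2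
    exact (dvd_neg.2 h').trans (dvd_of_eq (by ring))

end KDivJ

theorem CDiv_pf (hSz : CSz) (hLin : CLin) (hCls : CCls) : CDiv := by
  obtain ⟨C, hC, hd⟩ := MP_2a1f0e_nt.divisor_bound (ε := 1 / 10) (by norm_num)
  refine ⟨⌈(8 * C) ^ 20⌉₊, fun X Z hR =>
    ⟨fun σ g hg0 hgZ => ?_, fun i g _ => KDivJ.two hCls X i g⟩⟩
  have hg1 : (8 * C) ^ 20 ≤ (g : ℝ) := Nat.ceil_le.1 hg0
  have hg2 : (1 : ℝ) ≤ g := (one_le_pow₀ (by linarith)).trans hg1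
  have hg : 1 ≤ g := by exact_mod_cast hg2
  have hg3 : (0 : ℝ) < g := by linarith
  have h2 : ∀ i, 2 * g ≤ X i := by
    intro i
    refine le_trans ?_ ((hSz.sz X Z hR).z i)
    have hz := hR.z2
    calc 2 * g ≤ Z ^ 2 := by rw [sq]; exact Nat.mul_le_mul hz hgZ
      _ ≤ _ := Nat.pow_le_pow_right (by omega) (by norm_num)
  have hr0 : 0 < (g : ℝ) ^ (1 / 20 : ℝ) := Real.rpow_pos_of_pos hg3 _
  have hr : ∀ n : ℕ, ((g : ℝ) ^ (1 / 20 : ℝ)) ^ n = (g : ℝ) ^ ((n : ℝ) / 20) := by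
    intro n
    rw [← Real.rpow_natCast, ← Real.rpow_mul hg3.le]
    congr 1
    ring
  have e20 : ((g : ℝ) ^ (1 / 20 : ℝ)) ^ 20 = g := by
    rw [hr]
    norm_num
  have e2 : (g : ℝ) ^ (1 / 10 : ℝ) = ((g : ℝ) ^ (1 / 20 : ℝ)) ^ 2 := by
    rw [hr]
    norm_num
  have hτ := hd g
  rw [Real.rpow_neg hg3.le, e2]
  rw [e2] at hτ
  generalize (g : ℝ) ^ (1 / 20 : ℝ) = r at *
  have h8 : 8 * C ≤ r := by
    rw [← e20] at hg1
    exact (pow_le_pow_iff_left₀ (by linarith) hr0.le (by norm_num)).1 hg1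
  have hr1 : 1 ≤ r := by linarith
  refine (KDivJ.all hCls X σ g hg h2 (r ^ 5) (one_le_pow₀ hr1) (by rw [← e20]; ring) _
    fun v hv => mem_filter.1 hv).trans ?_
  have hV := KDivJ.vol0 X
  calc 8 * (g.divisors.card : ℝ) * (Vol X / r ^ 5) ≤ 8 * (C * r ^ 2) * (Vol X / r ^ 5) := by
        gcongr
    _ = 8 * C * (r ^ 2 * (Vol X / r ^ 5)) := by ring
    _ ≤ r * (r ^ 2 * (Vol X / r ^ 5)) := by gcongr
    _ = _ := by field_simp

end Pool.Agent.MP_e23604_nt.U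

end
end

section

/-!
The step `CSp`.
-/

open Finset
open scoped Classical

noncomputable section

namespace Pool.Agent.MP_e23604_nt.U

open P (lam shp gg PW cW Rough WW ES mu flat tau NN)

namespace KSpJ

theorem key {l a b α β x y τ : ℤ} (hl : Prime l) (hab : ¬ (l ∣ a ∧ l ∣ b))
    (h1 : l ∣ a * x + b * y) (h2 : l ∣ a * (x + τ * β) + b * (y - τ * α))
    (h3 : ¬ l ∣ α * x + β * y) : l ∣ τ := by
  have h4 : l ∣ τ * (a * β - b * α) := by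
    have := dvd_sub h2 h1
    have e : a * (x + τ * β) + b * (y - τ * α) - (a * x + b * y) = τ * (a * β - b * α) := by ring
    rwa [e] at this
  rcases hl.dvd_or_dvd h4 with h | h
  · exact h
  · exfalso
    apply hab
    constructor
    · have : l ∣ a * (α * x + β * y) := by
        have e : a * (α * x + β * y) = α * (a * x + b * y) + y * (a * β - b * α) := by ring
        rw [e]
        exact dvd_add (h1.mul_left _) (h.mul_left _)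
      exact (hl.dvd_or_dvd this).resolve_right h3
    · have : l ∣ b * (α * x + β * y) := by
        have e : b * (α * x + β * y) = β * (a * x + b * y) - x * (a * β - b * α) := by ring
        rw [e]
        exact dvd_sub (h1.mul_left _) (h.mul_left _)
      exact (hl.dvd_or_dvd this).resolve_right h3

theorem al_upl (hLin : CLin) (ℓ : Fin 3) (σ : Fin 12) (v : V10) (z : ℤ × ℤ) :
    al ℓ σ (upl ℓ v z) = al ℓ σ v ∧ be ℓ σ (upl ℓ v z) = be ℓ σ v := by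
  unfold upl up
  have h1 := hLin.inv ℓ σ (Function.update v (vi ℓ) z.1) z.2 (vj ℓ) (Or.inr rfl)
  have h2 := hLin.inv ℓ σ v z.1 (vi ℓ) (Or.inl rfl)
  exact ⟨h1.1.trans h2.1, h1.2.trans h2.2⟩

theorem fm_upl (hLin : CLin) (ℓ : Fin 3) (σ : Fin 12) (hσ : σ ∉ Act ℓ) (v : V10) (z : ℤ × ℤ) :
    fm (upl ℓ v z) σ = fm v σ := by
  unfold upl up
  obtain ⟨h1, h2⟩ := hLin.act ℓ σ hσ
  rw [(hLin.dep σ _ h2 _ _).2, (hLin.dep σ _ h1 _ _).2]

theorem unpack (hLin : CLin) {ℓ : Fin 3} {k : Fin 12} {s e : S12} {w : V10}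
    (h : FI ℓ k s e w ≠ 0) :
    (∀ σ, Nat.Coprime (Int.gcd (al ℓ σ w) (be ℓ σ w)) (e σ) ∧
      Nat.Coprime (fm w k).natAbs (e σ)) ∧ Cond s w ∧ ∀ σ, (e σ : ℤ) ∣ qq s w σ := by
  unfold FI at h
  split_ifs at h with hc
  · refine ⟨hc, ?_, ?_⟩
    · unfold FF at h
      exact (hLin.gg01 s w).2 (left_ne_zero_of_mul h)
    · intro σ
      unfold FF at h
      have := right_ne_zero_of_mul h
      exact P.mu_dvd (Finset.prod_ne_zero_iff.1 this σ (mem_univ σ))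
  · exact absurd rfl h

theorem cf_cases (σ : Fin 12) : cf σ = 1 ∨ cf σ = 4 := by
  unfold cf
  split_ifs
  · exact Or.inr rfl
  · exact Or.inl rfl

/-- What a prime of `tt` does on the support. -/
theorem prime_tt (hLin : CLin) {ℓ : Fin 3} {k : Fin 12} {s e : S12} (hs : SOK s)
    (he : ∀ σ, σ ∉ (Act ℓ).erase k → e σ = 1) {l : ℕ} (hl : l.Prime)
    (hd : l ∣ (∏ σ ∈ (Act ℓ).erase k, s σ) * ∏ σ, e σ) :
    ∃ σ ∈ Act ℓ, ∀ w : V10, FI ℓ k s e w ≠ 0 → (l : ℤ) ∣ fm w σ ∧ ¬ (l : ℤ) ∣ fm w k ∧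
      ¬ ((l : ℤ) ∣ al ℓ σ w ∧ (l : ℤ) ∣ be ℓ σ w) := by
  have hlz : Prime (l : ℤ) := Nat.prime_iff_prime_int.1 hl
  rcases (Nat.Prime.dvd_mul hl).1 hd with h | h
  · obtain ⟨σ, hσ, hlσ⟩ := (Prime.dvd_finsetProd_iff hl.prime _).1 h
    have hσk : σ ≠ k := (mem_erase.1 hσ).1
    have hσA : σ ∈ Act ℓ := (mem_erase.1 hσ).2
    have hodd : s σ % 2 = 1 := ((hLin.sok s hs).1 σ).2.2.1
    have hl2 : l ≠ 2 := by
      rintro rfl
      omega
    refine ⟨σ, hσA, fun w hw => ?_⟩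
    obtain ⟨-, hc, -⟩ := unpack hLin hw
    have hloc : LocC w σ l := (hLin.cond s w hs hc σ).2.2.2.2 l hl hlσ
    refine ⟨?_, ?_, hLin.prim ℓ σ hσA w l hl hl2 hc.1 hloc⟩
    · rw [(hLin.base w hc.1 σ).1]
      exact hloc.1.mul_left _
    · rw [(hLin.base w hc.1 k).1]
      intro hdv
      rcases hlz.dvd_or_dvd hdv with h' | h'
      · have h'' : l ∣ cf k := by exact_mod_cast h'
        rcases cf_cases k with h4 | h4
        · rw [h4] at h''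
          exact hl.one_lt.ne' (Nat.dvd_one.1 h'')
        · rw [h4] at h''
          have : l ∣ 2 ^ 2 := by simpa using h''
          exact hl2 ((Nat.prime_dvd_prime_iff_eq hl Nat.prime_two).1 (hl.dvd_of_dvd_pow this))
      · exact hloc.2.1 k hσk.symm h'
  · obtain ⟨σ, -, hlσ⟩ := (Prime.dvd_finsetProd_iff hl.prime _).1 h
    have hσ : σ ∈ (Act ℓ).erase k := by
      by_contra hn
      rw [he σ hn] at hlσ
      exact hl.one_lt.ne' (Nat.dvd_one.1 hlσ)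
    refine ⟨σ, (mem_erase.1 hσ).2, fun w hw => ?_⟩
    obtain ⟨hg, hc, hq⟩ := unpack hLin hw
    refine ⟨?_, ?_, ?_⟩
    · rw [(hLin.cond s w hs hc σ).2.2.1]
      exact ((Int.natCast_dvd_natCast.2 hlσ).trans (hq σ)).mul_left _
    · intro hdv
      have h1 : l ∣ (fm w k).natAbs := Int.natCast_dvd.1 hdv
      have h2 : l ∣ 1 := (hg σ).2 ▸ Nat.dvd_gcd h1 hlσ
      exact hl.one_lt.ne' (Nat.dvd_one.1 h2)
    · rintro ⟨ha, hb⟩
      have h1 : l ∣ Int.gcd (al ℓ σ w) (be ℓ σ w) := Int.dvd_gcd ha hb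
      have h2 : l ∣ 1 := (hg σ).1 ▸ Nat.dvd_gcd h1 hlσ
      exact hl.one_lt.ne' (Nat.dvd_one.1 h2)

end KSpJ

theorem CSp_pf (hLin : CLin) : CSp := by
  intro ℓ k hk s e v hs _ he _
  refine ⟨⟨fun z hz => ?_, fun z τ hz hz' => ?_⟩, fun z hz σ hσ => ?_⟩
  · have hz1 : FI ℓ k s e (upl ℓ v z) ≠ 0 := fun h => hz (by simp only [h, abs_zero])
    obtain ⟨-, hc, -⟩ := KSpJ.unpack hLin hz1
    rw [← hLin.lin ℓ k hk v z, (hLin.cond s _ hs hc k).2.2.1]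
    exact dvd_mul_right _ _
  · have hz1 : FI ℓ k s e (upl ℓ v z) ≠ 0 := fun h => hz (by simp only [h, abs_zero])
    have hz2 : FI ℓ k s e (upl ℓ v (z.1 + τ * be ℓ k v, z.2 - τ * al ℓ k v)) ≠ 0 :=
      fun h => hz' (by simp only [h, abs_zero])
    rw [Int.natCast_dvd]
    unfold tt
    refine Finset.prod_primes_dvd _ (fun l hl => (Nat.prime_of_mem_primeFactors hl).prime)
      (fun l hl => ?_)
    have hp := Nat.prime_of_mem_primeFactors hl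
    obtain ⟨σ, hσ, H⟩ := KSpJ.prime_tt hLin hs he hp (Nat.dvd_of_mem_primeFactors hl)
    obtain ⟨a1, a2, a3⟩ := H _ hz1
    obtain ⟨b1, -, -⟩ := H _ hz2
    rw [(KSpJ.al_upl hLin ℓ σ v z).1, (KSpJ.al_upl hLin ℓ σ v z).2] at a3
    rw [hLin.lin ℓ σ hσ] at a1 b1
    rw [hLin.lin ℓ k hk] at a2
    rw [← Int.natCast_dvd]
    exact KSpJ.key (Nat.prime_iff_prime_int.1 hp) a3 a1 b1 a2
  · obtain ⟨-, hc, -⟩ := KSpJ.unpack hLin hz
    rw [← KSpJ.fm_upl hLin ℓ σ hσ v z, (hLin.base _ hc.1 σ).1]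
    exact (hLin.cond s _ hs hc σ).1.mul_left _

end Pool.Agent.MP_e23604_nt.U

end
end

section

/-!
The step `CIns`.
-/

open Finset
open scoped Classical

noncomputable section

namespace Pool.Agent.MP_e23604_nt.U

open P (lam shp gg PW cW Rough WW ES mu flat tau NN)

theorem CIns_pf (hLin : CLin) (hPer : CPer) : CIns := by
  intro ℓ k R W j s v hs hR e he hp hr
  by_cases h0 : FF s e v = 0
  · rw [FI, h0, ite_self]
  have hc : Cond s v := (hLin.gg01 s v).2 (left_ne_zero_of_mul h0)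
  refine if_pos fun σ => ?_
  have he1 := Fintype.mem_piFinset.1 he σ
  by_cases hσ : σ ∈ R
  swap
  · rw [if_neg hσ, mem_singleton] at he1
    rw [he1]
    exact ⟨Nat.coprime_one_right _, Nat.coprime_one_right _⟩
  rw [if_pos hσ] at he1
  obtain ⟨hk, hB⟩ := mem_erase.1 (hR hσ)
  refine ⟨by rw [Int.isCoprime_iff_gcd_eq_one.1 (hp σ hB)]; exact Nat.coprime_one_left _, ?_⟩
  refine Nat.Coprime.symm (Nat.eq_one_iff_not_exists_prime_dvd.2 fun l hl hd => ?_)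
  have h1 : l ∣ e σ := hd.trans (Nat.gcd_dvd_left _ _)
  have h2 : (l : ℤ) ∣ fm v k := Int.natCast_dvd.2 (hd.trans (Nat.gcd_dvd_right _ _))
  have h3 : (e σ : ℤ) ∣ qq s v σ := by
    by_contra h
    exact prod_ne_zero_iff.1 (right_ne_zero_of_mul h0) σ (mem_univ _) (if_neg h)
  have h4 : (l : ℤ) ∣ site v σ := by
    rw [(hLin.cond s v hs hc σ).2.1]
    exact ((Int.natCast_dvd_natCast.2 h1).trans h3).mul_left _
  have h5 : l ∈ PW W := by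
    obtain ⟨q, hq, h⟩ := (hl.prime.dvd_finsetProd_iff _).1
      (h1.trans (Nat.dvd_of_mem_divisors (mem_filter.1 he1).1))
    rwa [(Nat.prime_dvd_prime_iff_eq hl (mem_filter.1 hq).2).1 h]
  obtain ⟨-, -, h6, -, h7⟩ := hLin.cond s v hs hc k
  rw [h6] at h2
  rcases (Nat.prime_iff_prime_int.1 hl).dvd_or_dvd h2 with h | h
  · rcases (Nat.Prime.dvd_mul hl).1 (Int.natCast_dvd_natCast.1 h) with h | h
    · have h8 : l ∣ 2 ^ 2 := h.trans (by unfold cf; split_ifs <;> norm_num)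
      obtain rfl := (Nat.prime_dvd_prime_iff_eq hl Nat.prime_two).1 (hl.dvd_of_dvd_pow h8)
      have := (hLin.base v hc.1 σ).2.1
      omega
    · exact (h7 l hl h).2.1 σ hk h4
  · exact hr l h5 h

end Pool.Agent.MP_e23604_nt.U

end
end

section

/-!
The step `CMul`.
-/

open Finset
open scoped Classical

noncomputable section

namespace Pool.Agent.MP_e23604_nt.U

open P (lam shp gg PW cW Rough WW ES mu flat tau NN)

namespace KMulJ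

theorem dvd_rad {a N : ℕ} (ha : Squarefree a) (hN : N ≠ 0) (h : a ∣ N) :
    a ∣ ∏ l ∈ N.primeFactors, l := by
  conv_lhs => rw [← Nat.prod_primeFactors_of_squarefree ha]
  exact prod_dvd_prod_of_subset _ _ _ (Nat.primeFactors_mono h hN)

theorem one_le_tau {n : ℤ} (hn : n ≠ 0) : 1 ≤ tau n := by
  unfold tau
  have h : 0 < n.natAbs.divisors.card :=
    card_pos.2 ⟨1, Nat.one_mem_divisors.2 (Int.natAbs_ne_zero.2 hn)⟩
  exact_mod_cast h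

theorem tau_nat (t : ℕ) : tau (t : ℤ) = (t.divisors.card : ℝ) := by
  unfold tau
  rw [Int.natAbs_natCast]

def AA (ℓ : Fin 3) (k : Fin 12) (v : V10) (m t : ℕ) (σ : Fin 12) : Finset ℕ :=
  if σ ∈ Act ℓ then (if σ = k then {m} else t.divisors) else (fm v σ).natAbs.divisors

theorem AA_card (ℓ : Fin 3) (k : Fin 12) (v : V10) (m t : ℕ) (σ : Fin 12) (hf : fm v σ ≠ 0)
    (ht : t ≠ 0) : ((AA ℓ k v m t σ).card : ℝ) ≤ tau (fm v σ) * tau t := by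
  have h1 := one_le_tau hf
  have h2 : 1 ≤ tau (t : ℤ) := one_le_tau (by exact_mod_cast ht)
  unfold AA
  split_ifs
  · rw [card_singleton, Nat.cast_one]
    nlinarith
  · rw [← tau_nat]
    nlinarith
  · change tau (fm v σ) ≤ _
    nlinarith

theorem fiber (hLin : CLin) (hPer : CPer) (hPrim : CPrim) (X : Fin 10 → ℕ) (Z : ℕ) (hR : Reg X Z)
    (ℓ : Fin 3) (k : Fin 12) (R : Finset (Fin 12)) (W j : ℕ) (hW : (W + 1) ^ (12 * j) ≤ Z)
    (v : V10) (m t : ℕ) :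
    ((((PP X Z ℓ R W j).filter fun ω => (ω.2.2, ω.1 k, tt ℓ k ω.1 ω.2.1) = (v, m, t)).card : ℕ) : ℝ) ≤
      TT v * tau t ^ 24 := by
  set F := (PP X Z ℓ R W j).filter fun ω => (ω.2.2, ω.1 k, tt ℓ k ω.1 ω.2.1) = (v, m, t) with hF
  have hmem : ∀ ω ∈ F, ω.1 ∈ SSet Z ∧ ω.2.1 ∈ EE R W j ∧ ω.2.2 ∈ Box X ∧
      (∀ σ, σ ∉ Act ℓ → (ω.1 σ : ℤ) ∣ fm ω.2.2 σ) ∧ ω.2.2 = v ∧ ω.1 k = m ∧
        tt ℓ k ω.1 ω.2.1 = t := by
    intro ω hω
    obtain ⟨h1, h2⟩ := mem_filter.1 hω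
    obtain ⟨h3, h4⟩ := mem_filter.1 h1
    obtain ⟨h5, h6⟩ := mem_product.1 h3
    obtain ⟨h7, h8⟩ := mem_product.1 h6
    simp only [Prod.mk.injEq] at h2
    exact ⟨h5, h7, h8, h4, h2.1, h2.2.1, h2.2.2⟩
  rcases F.eq_empty_or_nonempty with h0 | ⟨ω0, hω0⟩
  · rw [h0, card_empty, Nat.cast_zero]
    exact mul_nonneg (prod_nonneg fun σ _ => P.tau_nonneg _) (pow_nonneg (P.tau_nonneg _) _)
  obtain ⟨a1, a2, a3, -, a5, -, a7⟩ := hmem ω0 hω0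
  have hfm : ∀ σ, fm v σ ≠ 0 := fun σ => a5 ▸ (hPrim.rng X Z hR _ a1 _ a3 σ).2.2
  have ht : t ≠ 0 := by
    have h := hPer.ee R W j Z hW _ a2
    have h' := ((hPer.mm Z hR.z2 _ a1 _ (fun σ => (h.1 σ).1) h.2).2.2 ℓ k).1
    omega
  have hc : F.card ≤ (Fintype.piFinset (AA ℓ k v m t) ×ˢ
      Fintype.piFinset fun _ : Fin 12 => t.divisors).card := by
    refine card_le_card_of_injOn (fun ω => (ω.1, ω.2.1)) ?_ ?_
    · intro ω hω
      obtain ⟨b1, b2, -, b4, b5, b6, b7⟩ := hmem ω (mem_coe.1 hω)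
      have he := (hPer.ee R W j Z hW _ b2).1
      have hs := (hLin.sok _ (hLin.mem Z _ b1).1).1
      have hN : (∏ σ ∈ (Act ℓ).erase k, ω.1 σ) * ∏ σ, ω.2.1 σ ≠ 0 := by
        refine mul_ne_zero (prod_ne_zero_iff.2 fun σ _ => ?_) (prod_ne_zero_iff.2 fun σ _ => ?_)
        · have := (hs σ).1
          omega
        · have := (he σ).1
          omega
      refine mem_coe.2 (mem_product.2 ⟨Fintype.mem_piFinset.2 fun σ => ?_,
        Fintype.mem_piFinset.2 fun σ => ?_⟩)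
      · unfold AA
        split_ifs with c1 c2
        · rw [mem_singleton, c2]
          exact b6
        · refine Nat.mem_divisors.2 ⟨?_, ht⟩
          rw [← b7]
          exact dvd_rad (hs σ).2.1 hN
            (Dvd.dvd.mul_right (dvd_prod_of_mem _ (mem_erase.2 ⟨c2, c1⟩)) _)
        · refine Nat.mem_divisors.2 ⟨?_, Int.natAbs_ne_zero.2 (hfm σ)⟩
          have := b4 σ c1
          rw [b5] at this
          exact Int.natCast_dvd.1 this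
      · refine Nat.mem_divisors.2 ⟨?_, ht⟩
        rw [← b7]
        exact dvd_rad (he σ).2.1 hN (Dvd.dvd.mul_left (dvd_prod_of_mem _ (mem_univ σ)) _)
    · intro ω hω ω' hω' e
      have b := (hmem ω (mem_coe.1 hω)).2.2.2.2.1
      have b' := (hmem ω' (mem_coe.1 hω')).2.2.2.2.1
      simp only [Prod.mk.injEq] at e
      exact Prod.ext e.1 (Prod.ext e.2 (b.trans b'.symm))
  refine (Nat.cast_le.2 hc).trans ?_
  rw [card_product, Fintype.card_piFinset, Fintype.card_piFinset, Nat.cast_mul, Nat.cast_prod,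
    Nat.cast_prod, ← tau_nat, prod_const, card_univ, Fintype.card_fin]
  have h1 : ∏ σ, ((AA ℓ k v m t σ).card : ℝ) ≤ TT v * tau t ^ 12 := by
    calc _ ≤ ∏ σ, tau (fm v σ) * tau t :=
          prod_le_prod (fun σ _ => Nat.cast_nonneg _) fun σ _ => AA_card ℓ k v m t σ (hfm σ) ht
      _ = _ := by rw [prod_mul_distrib, prod_const, card_univ, Fintype.card_fin, TT]
  calc _ ≤ TT v * tau t ^ 12 * tau t ^ 12 :=
        mul_le_mul_of_nonneg_right h1 (pow_nonneg (P.tau_nonneg _) _)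
    _ = _ := by ring

end KMulJ

theorem CMul_pf (hLin : CLin) (hPer : CPer) (hPrim : CPrim) : CMul := by
  intro X Z hR ℓ k _ R W j hW φ hφ
  rw [← sum_fiberwise_of_maps_to (t := Box X ×ˢ (Icc 1 Z ×ˢ Icc 1 (Z ^ 2)))
    (g := fun ω : Om => (ω.2.2, ω.1 k, tt ℓ k ω.1 ω.2.1)), sum_product]
  · refine sum_le_sum fun v _ => ?_
    rw [sum_product]
    refine sum_le_sum fun m _ => sum_le_sum fun t _ => ?_
    have e : ∀ ω ∈ (PP X Z ℓ R W j).filter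
        fun ω : Om => (ω.2.2, ω.1 k, tt ℓ k ω.1 ω.2.1) = (v, m, t),
        φ ω.2.2 (ω.1 k) (tt ℓ k ω.1 ω.2.1) = φ v m t := by
      intro ω hω
      have h := (mem_filter.1 hω).2
      simp only [Prod.mk.injEq] at h
      rw [h.1, h.2.1, h.2.2]
    rw [sum_congr rfl e, sum_const, nsmul_eq_mul]
    exact mul_le_mul_of_nonneg_right (KMulJ.fiber hLin hPer hPrim X Z hR ℓ k R W j hW v m t)
      (hφ v m t)
  · intro ω hω
    obtain ⟨h3, -⟩ := mem_filter.1 hω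
    obtain ⟨h5, h6⟩ := mem_product.1 h3
    obtain ⟨h7, h8⟩ := mem_product.1 h6
    have he := hPer.ee R W j Z hW _ h7
    have hm := (hPer.mm Z hR.z2 _ h5 _ (fun σ => (he.1 σ).1) he.2).2.2 ℓ k
    have hs := hLin.mem Z _ h5
    exact mem_product.2 ⟨h8, mem_product.2 ⟨mem_Icc.2 ⟨((hLin.sok _ hs.1).1 k).1, hs.2.2 k⟩,
      mem_Icc.2 ⟨hm.1, hm.2.1⟩⟩⟩

end Pool.Agent.MP_e23604_nt.U

end
end

section

/-!
The step `CWts`.
-/

open Finset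
open scoped Classical

noncomputable section

namespace Pool.Agent.MP_e23604_nt.U

open P (lam shp gg PW cW Rough WW ES mu flat tau NN)

namespace KWtsJ

theorem gmul {d : ℕ} (hd : 0 < d) (x y : ℕ) : Nat.gcd d (x * y) ≤ Nat.gcd d x * Nat.gcd d y :=
  Nat.le_of_dvd (mul_pos (Nat.gcd_pos_of_pos_left _ hd) (Nat.gcd_pos_of_pos_left _ hd))
    (gcd_mul_dvd_mul_gcd d x y)

theorem gprod {ι : Type} {d g : ℕ} (hd : 0 < d) (s : Finset ι) (b : ι → ℕ)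
    (h : ∀ i, Nat.gcd d (b i) ≤ g) : Nat.gcd d (∏ i ∈ s, b i) ≤ g ^ s.card :=
  (Nat.le_of_dvd (prod_pos fun _ _ => Nat.gcd_pos_of_pos_left _ hd)
    (P.xWeight_gcd d s b)).trans (prod_le_pow_card _ _ _ fun i _ => h i)

theorem cover {d q E : ℕ} (ω : Om) (hd : 0 < d) (hq : 1 ≤ q) (hq2 : q ^ 2 ≤ d)
    (h : d ∣ q * NB ω ^ E) : ∃ g, g ∣ d ∧ d ≤ (160 * g ^ 46) ^ (2 * E) ∧
      ((∃ σ, g ∣ ω.1 σ ∨ g ∣ ω.2.1 σ) ∨ ∃ i, (g : ℤ) ∣ ω.2.2 i) := by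
  let a : Fin 12 ⊕ Fin 12 ⊕ Fin 10 → ℕ :=
    Sum.elim ω.1 (Sum.elim ω.2.1 fun i => (ω.2.2 i).natAbs)
  obtain ⟨j, -, hj⟩ := exists_max_image univ (fun j => Nat.gcd d (a j)) univ_nonempty
  refine ⟨Nat.gcd d (a j), Nat.gcd_dvd_left _ _, ?_, ?_⟩
  · generalize Nat.gcd d (a j) = g at hj
    have h1 : Nat.gcd d (SP ω.1) ≤ g ^ 12 := by
      simpa [SP] using gprod hd univ ω.1 fun σ => hj (Sum.inl σ) (mem_univ _)
    have h2 : Nat.gcd d (∏ σ, ω.2.1 σ) ≤ g ^ 12 := by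
      simpa using gprod hd univ ω.2.1 fun σ => hj (Sum.inr (Sum.inl σ)) (mem_univ _)
    have h3 : Nat.gcd d (∏ i, (ω.2.2 i).natAbs) ≤ g ^ 10 := by
      simpa using gprod hd univ (fun i => (ω.2.2 i).natAbs)
        fun i => hj (Sum.inr (Sum.inr i)) (mem_univ _)
    have h4 : Nat.gcd d (NB ω) ≤ 80 * g ^ 12 * g ^ 12 * g ^ 12 * (2 * g ^ 10) :=
      (gmul hd _ _).trans (Nat.mul_le_mul
        ((gmul hd _ _).trans (Nat.mul_le_mul ((gmul hd _ _).trans (Nat.mul_le_mul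
          ((gmul hd _ _).trans (Nat.mul_le_mul (Nat.gcd_le_right d (by norm_num)) h1)) h1)) h2))
        ((gmul hd _ _).trans (Nat.mul_le_mul (Nat.gcd_le_right d two_pos) h3)))
    have h5 : Nat.gcd d (NB ω ^ E) ≤ (160 * g ^ 46) ^ E := by
      have h6 := gprod (g := 160 * g ^ 46) hd (range E) (fun _ => NB ω)
        fun _ => h4.trans_eq (by ring)
      rwa [prod_const, card_range] at h6
    have h6 : d ≤ q * (160 * g ^ 46) ^ E :=
      (Nat.gcd_eq_left h).symm.trans_le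
        ((gmul hd _ _).trans (Nat.mul_le_mul (Nat.gcd_le_right d hq) h5))
    rw [pow_mul']
    generalize (160 * g ^ 46) ^ E = y at h6
    refine Nat.le_of_mul_le_mul_left ?_ hd
    calc d * d ≤ (q * y) * (q * y) := Nat.mul_le_mul h6 h6
      _ = q ^ 2 * y ^ 2 := by ring
      _ ≤ d * y ^ 2 := Nat.mul_le_mul_right _ hq2
  · have h1 := Nat.gcd_dvd_right d (a j)
    rcases j with σ | σ | i
    · exact Or.inl ⟨σ, Or.inl h1⟩
    · exact Or.inl ⟨σ, Or.inr h1⟩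
    · exact Or.inr ⟨i, Int.natCast_dvd.2 h1⟩

theorem large {d g g1 E : ℕ} (h1 : 160 ≤ g1) (h2 : (160 * g1 ^ 46) ^ (2 * E) < d)
    (h : d ≤ (160 * g ^ 46) ^ (2 * E)) : g1 ≤ g ∧ d ≤ g ^ (94 * E + 1) := by
  have h3 : g1 ≤ g := by
    by_contra h3
    exact absurd (h.trans (Nat.pow_le_pow_left (Nat.mul_le_mul_left _
      (Nat.pow_le_pow_left (not_le.1 h3).le _)) _)) (not_le.2 h2)
  refine ⟨h3, h.trans ?_⟩
  calc (160 * g ^ 46) ^ (2 * E) ≤ (g * g ^ 46) ^ (2 * E) :=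
        Nat.pow_le_pow_left (Nat.mul_le_mul_right _ (h1.trans h3)) _
    _ = g ^ (94 * E) := by rw [← pow_succ', ← pow_mul]; congr 1; ring
    _ ≤ _ := Nat.pow_le_pow_right (by omega) (by omega)

theorem tail (M : ℕ) (hM : 1 ≤ M) : ∃ d0 : ℕ, ∀ d ≥ d0, ∀ n ≥ 90 * M,
    (d.divisors.card : ℝ) * (d : ℝ) ^ (-(1 / (30 * M) : ℝ)) ≤ (d : ℝ) ^ (-(1 / (n : ℝ))) := by
  have hM' : (0 : ℝ) < M := by exact_mod_cast hM
  obtain ⟨C, hC1, hC⟩ := Pool.Agent.MP_2a1f0e_nt.divisor_bound (ε := 1 / (90 * M)) (by positivity)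
  refine ⟨⌈C ^ (90 * M)⌉₊, fun d hd n hn => ?_⟩
  have h1 : C ^ (90 * M) ≤ d := (Nat.le_ceil _).trans (Nat.cast_le.2 hd)
  have h2 : (1 : ℝ) ≤ d := (one_le_pow₀ hC1).trans h1
  have h3 : (0 : ℝ) < d := by linarith
  have h4 : C ≤ (d : ℝ) ^ (1 / (90 * M) : ℝ) := by
    refine le_trans (le_of_eq ?_) (Real.rpow_le_rpow (by positivity) h1 (by positivity))
    rw [← Real.rpow_natCast, ← Real.rpow_mul (by linarith)]
    push_cast
    rw [mul_one_div_cancel (by positivity), Real.rpow_one]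
  have h5 : (90 * M : ℝ) ≤ n := by exact_mod_cast hn
  calc (d.divisors.card : ℝ) * (d : ℝ) ^ (-(1 / (30 * M) : ℝ))
      ≤ (d : ℝ) ^ (1 / (90 * M) : ℝ) * (d : ℝ) ^ (1 / (90 * M) : ℝ) *
        (d : ℝ) ^ (-(1 / (30 * M) : ℝ)) :=
        mul_le_mul_of_nonneg_right ((hC d).trans (mul_le_mul_of_nonneg_right h4 (by positivity)))
          (by positivity)
    _ = (d : ℝ) ^ (-(1 / (90 * M) : ℝ)) := by
        rw [← Real.rpow_add h3, ← Real.rpow_add h3]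
        congr 1
        field_simp
        ring
    _ ≤ _ := Real.rpow_le_rpow_of_exponent_le h2
        (neg_le_neg (one_div_le_one_div_of_le (by positivity) h5))

theorem rp {d g M : ℕ} (hd : 0 < d) (hM : 1 ≤ M) (h : d ≤ g ^ M) :
    (g : ℝ) ^ (-(1 / 30 : ℝ)) ≤ (d : ℝ) ^ (-(1 / (30 * M) : ℝ)) := by
  have hM' : (0 : ℝ) < M := by exact_mod_cast hM
  have h1 : (0 : ℝ) < d := by exact_mod_cast hd
  have h2 : (d : ℝ) ≤ (g : ℝ) ^ M := by exact_mod_cast h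
  refine le_trans (le_of_eq ?_) (Real.rpow_le_rpow_of_nonpos h1 h2 (neg_nonpos.2 (by positivity)))
  rw [← Real.rpow_natCast, ← Real.rpow_mul (Nat.cast_nonneg g)]
  congr 1
  field_simp

end KWtsJ

theorem CWts_pf (hW1 : CW1) (hMas : CMas) (hPer : CPer) (hLin : CLin) (hSz : CSz) : CWts := by
  intro E
  obtain ⟨C1, g1, N1, h1⟩ := hW1
  obtain ⟨C2, N2, h2⟩ := hMas
  obtain ⟨N3, h3⟩ := hSz.big 0 1
  obtain ⟨d0, hd0⟩ := KWtsJ.tail (94 * E + 1) (by omega)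
  refine ⟨90 * (94 * E + 1), C1 + C2, d0 + (160 * (g1 + 160) ^ 46) ^ (2 * E) + 1, N1 + N2 + N3,
    fun X Z hR hN ℓ k hk R W j hW P hP q K hq hK n hn D0 hD hqD => ?_⟩
  obtain ⟨a1, a2⟩ := h1 X Z hR (by omega) ℓ k hk R W j hW
  have a3 := (h2 X Z hR (by omega) R W j).2.2 ℓ k
  have hL : 1 ≤ LL X := (h3 X Z hR (by omega)).1
  have hV : 0 ≤ Vol X := prod_nonneg fun i _ => Nat.cast_nonneg _
  have b1 : Vol X * LL X ^ C1 ≤ Vol X * LL X ^ (C1 + C2) :=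
    mul_le_mul_of_nonneg_left (pow_le_pow_right₀ hL (by omega)) hV
  have b2 : Vol X * LL X ^ C2 ≤ Vol X * LL X ^ (C1 + C2) :=
    mul_le_mul_of_nonneg_left (pow_le_pow_right₀ hL (by omega)) hV
  have b0 : 0 ≤ Vol X * LL X ^ C1 := mul_nonneg hV (pow_nonneg (by linarith) _)
  have w0 : ∀ ω : Om, (0 : ℝ) ≤ 1 / ((mk k ω.1 : ℝ) * tt ℓ k ω.1 ω.2.1) := fun ω => by positivity
  refine ⟨((sum_le_sum_of_subset_of_nonneg hP fun ω _ _ => w0 ω).trans a1).trans b1,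
    fun d hd => ?_, fun S hS => ((sum_le_sum_of_subset_of_nonneg hP fun ω _ _ =>
      sum_nonneg fun z _ => abs_nonneg _).trans (a3 S hS)).trans
      (mul_le_mul_of_nonneg_right b2 (Real.sqrt_nonneg _))⟩
  have c1 : d0 + (160 * (g1 + 160) ^ 46) ^ (2 * E) + 1 ≤ d := by exact_mod_cast hD.trans hd
  have c2 : q ^ 2 ≤ d := by exact_mod_cast hqD.trans hd
  have c3 : (160 * (g1 + 160) ^ 46) ^ (2 * E) < d := lt_of_lt_of_le (by omega) c1
  have c4 : d0 ≤ d := le_trans (by omega) c1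
  have hd1 : 0 < d := lt_of_le_of_lt (Nat.zero_le _) c3
  let w : Om → ℝ := fun ω => 1 / ((mk k ω.1 : ℝ) * tt ℓ k ω.1 ω.2.1)
  let Gs : Finset ℕ := d.divisors.filter fun g => g1 ≤ g ∧ d ≤ g ^ (94 * E + 1)
  let T : ℕ → Om → Prop := fun g ω => (∃ σ, g ∣ ω.1 σ ∨ g ∣ ω.2.1 σ) ∨ ∃ i, (g : ℤ) ∣ ω.2.2 i
  have i0 : ∀ g ω, 0 ≤ if T g ω then w ω else 0 := fun g ω => by
    split_ifs
    exacts [w0 ω, le_rfl]
  calc ∑ ω ∈ P.filter fun ω => d ∣ K ω, w ω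
      ≤ ∑ ω ∈ P.filter fun ω => d ∣ K ω, ∑ g ∈ Gs, if T g ω then w ω else 0 := by
        refine sum_le_sum fun ω hω => ?_
        obtain ⟨e1, e2⟩ := mem_filter.1 hω
        obtain ⟨g, e3, e4, e5⟩ := KWtsJ.cover ω hd1 hq c2 (e2.trans (hK ω e1))
        obtain ⟨e6, e7⟩ := KWtsJ.large (by omega) c3 e4
        refine le_trans ?_ (single_le_sum (fun g _ => i0 g ω) (a := g)
          (mem_filter.2 ⟨Nat.mem_divisors.2 ⟨e3, hd1.ne'⟩, by omega, e7⟩))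
        rw [if_pos e5]
    _ ≤ ∑ ω ∈ PP X Z ℓ R W j, ∑ g ∈ Gs, if T g ω then w ω else 0 :=
        sum_le_sum_of_subset_of_nonneg ((filter_subset _ _).trans hP)
          fun ω _ _ => sum_nonneg fun g _ => i0 g ω
    _ = ∑ g ∈ Gs, ∑ ω ∈ (PP X Z ℓ R W j).filter (T g), w ω := by
        rw [sum_comm]
        exact sum_congr rfl fun g _ => (sum_filter _ _).symm
    _ ≤ Gs.card • (Vol X * LL X ^ C1 * (d : ℝ) ^ (-(1 / (30 * ((94 * E + 1 : ℕ) : ℝ)) : ℝ))) := by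
        refine sum_le_card_nsmul _ _ _ fun g hg => ?_
        obtain ⟨-, e1, e2⟩ := mem_filter.1 hg
        exact (a2 g e1).trans (mul_le_mul_of_nonneg_left (KWtsJ.rp hd1 (by omega) e2) b0)
    _ ≤ Vol X * LL X ^ C1 * ((d.divisors.card : ℝ) *
          (d : ℝ) ^ (-(1 / (30 * ((94 * E + 1 : ℕ) : ℝ)) : ℝ))) := by
        rw [nsmul_eq_mul, mul_left_comm]
        exact mul_le_mul_of_nonneg_left (mul_le_mul_of_nonneg_right
          (Nat.cast_le.2 (card_le_card (filter_subset _ _))) (by positivity)) b0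
    _ ≤ _ := mul_le_mul b1 (hd0 d c4 n hn) (by positivity) (b0.trans b1)

end Pool.Agent.MP_e23604_nt.U

end
end

section

/-!
The step `CLnR`.
-/

open Finset
open scoped Classical

noncomputable section

namespace Pool.Agent.MP_e23604_nt.U

open P (lam shp gg PW cW Rough WW ES mu flat tau NN)

namespace KLnRJ

theorem upd_dvd (K : ℤ) (v v' : V10) (h : ∀ i, K ∣ v i - v' i) (j : Fin 10) (a a' : ℤ)
    (ha : K ∣ a - a') (i : Fin 10) :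
    K ∣ Function.update v j a i - Function.update v' j a' i := by
  by_cases hi : i = j
  · subst hi
    simpa using ha
  · simpa [Function.update_of_ne hi] using h i

theorem upl_dvd (K : ℤ) (ℓ : Fin 3) (v v' : V10) (h : ∀ i, K ∣ v i - v' i) (z z' : ℤ × ℤ)
    (h1 : K ∣ z.1 - z'.1) (h2 : K ∣ z.2 - z'.2) (i : Fin 10) :
    K ∣ upl ℓ v z i - upl ℓ v' z' i :=
  upd_dvd K _ _ (upd_dvd K v v' h _ _ _ h1) _ _ _ h2 i

theorem sc_ne : ∀ σ : Fin 12, sc σ ≠ 1 := by decide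

theorem rt_bs : ∀ p ∈ RT, p.1 ∈ Bs (lev p.1) := by
  intro p hp
  simp only [RT, mem_insert, mem_singleton] at hp
  rcases hp with rfl | rfl | rfl | rfl | rfl <;> decide

theorem bs_act : ∀ ℓ : Fin 3, ∀ σ ∈ Bs ℓ, σ ∈ Act ℓ := by decide

theorem big {N N0 Z M V n e : ℕ} (hZ : 2 ≤ Z) (h1 : N ≤ N0) (h2 : N0 ≤ Z ^ e) (h3 : e ≤ n)
    (h4 : M ≤ Z ^ 10) (h5 : Z ^ 11 ≤ V) : N * M ^ n ≤ V ^ n := by
  calc N * M ^ n ≤ Z ^ n * (Z ^ 10) ^ n :=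
        Nat.mul_le_mul (h1.trans (h2.trans (Nat.pow_le_pow_right (by omega) h3)))
          (Nat.pow_le_pow_left h4 n)
    _ = (Z ^ 11) ^ n := by rw [← mul_pow, ← pow_succ']
    _ ≤ _ := Nat.pow_le_pow_left h5 n

theorem zpow_le {Z a b V : ℕ} (hZ : 2 ≤ Z) (hab : a ≤ b) (h : Z ^ b ≤ V) : Z ^ a ≤ V :=
  (Nat.pow_le_pow_right (by omega) hab).trans h

end KLnRJ

theorem CLnR_pf (hGeo1 : CGeo1) (hGeo2 : CGeo2) (hSp : CSp) (hPer : CPer) (hLin : CLin)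
    (hCls : CCls) (hSz : CSz) : CLnR := by
  obtain ⟨N1, hG⟩ := hGeo1
  refine ⟨N1, fun X Z hR hN p hp R hRs W j hW c hc n hn ω hω => ?_⟩
  obtain ⟨s, e, v⟩ := ω
  have hm := (mem_filter.1 hω).1
  have hs : s ∈ SSet Z := (mem_product.1 hm).1
  have he : e ∈ EE R W j := (mem_product.1 (mem_product.1 hm).2).1
  have hv : v ∈ Box X := (mem_product.1 (mem_product.1 hm).2).2
  have hsok : SOK s := (hLin.mem Z s hs).1
  obtain ⟨he1, he2⟩ := hPer.ee R W j Z hW e he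
  obtain ⟨hM1, hM2, hM3⟩ := hPer.mm Z hR.z2 s hs e (fun σ => (he1 σ).1) he2
  obtain ⟨ht1, ht2, hk1, hk2⟩ := hM3 (lev p.1) p.1
  have hsz := hSz.sz X Z hR
  obtain ⟨-, hT, -, hRng⟩ := hG X Z hR hN p.1
  have hper := (hPer.ff s e hsok).2 (lev p.1) p.1
  have hS : ∀ u ∈ (lnR X p c (s, e, v)).S, u ∈ Ioc (X p.2 : ℤ) (2 * X p.2) ∧
      ((MM s e : ℕ) : ℤ) ∣ u - v p.2 ∧ c s (Function.update v p.2 u) ≠ 0 := by
    intro u hu
    have h1 := mem_filter.1 hu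
    have h2 := mem_filter.1 h1.1
    exact ⟨h2.1, h2.2, h1.2⟩
  refine ⟨⟨?_, ?_, hM1, le_rfl, ?_, hM1, ?_, hk1, ht1, ?_, ?_, ?_, ?_, ?_⟩, ?_⟩
  · intro u hu
    have h := mem_Ioc.1 (hS u hu).1
    constructor <;> omega
  · intro u hu u' hu'
    have h := dvd_sub (hS u hu).2.1 (hS u' hu').2.1
    rwa [sub_sub_sub_cancel_right] at h
  · exact KLnRJ.big hR.z2 (hsz.le0 _ (KLnRJ.sc_ne _)) hR.top hn hM2
      (KLnRJ.zpow_le hR.z2 (by norm_num) (hsz.z _))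
  · show 1 ≤ DD v
    refine Nat.one_le_pow _ _ (mul_pos two_pos (prod_pos fun i _ => ?_))
    have h := (mem_Ioc.1 (Fintype.mem_piFinset.1 hv i)).1
    omega
  · show mk p.1 s ^ 10 ≤ X (sc p.1)
    refine (Nat.pow_le_pow_left hk2 10).trans ?_
    rw [← pow_mul]
    exact KLnRJ.zpow_le hR.z2 (by norm_num) (hsz.z _)
  · refine le_trans ?_ hT
    show ((tt (lev p.1) p.1 s e : ℕ) : ℝ) ≤ _
    exact_mod_cast ht2
  · intro z
    exact ⟨abs_nonneg _, ((hPer.bd s e _).2 _ _).trans (hPer.bd s e _).1⟩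
  · intro u hu
    obtain ⟨hu1, hu2, hu3⟩ := hS u hu
    have hv' := hCls.mem X p.2 v hv u hu1
    have hcop := hc s _ hu3 p.1 (KLnRJ.rt_bs p hp)
    refine ⟨hcop, hRng _ hv', ?_⟩
    have hsp := (hSp (lev p.1) p.1 (KLnRJ.bs_act _ _ (KLnRJ.rt_bs p hp)) s e
      (Function.update v p.2 u) hsok (fun σ => (he1 σ).1) (fun σ hσ => (he1 σ).2.2.1 fun h => hσ
        (mem_erase.2 ⟨(mem_erase.1 (hRs h)).1, KLnRJ.bs_act _ _ (mem_erase.1 (hRs h)).2⟩)) hcop).1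
    have hfun : (fun z => |FI (lev p.1) p.1 s e (upl (lev p.1) (Function.update v p.2 u) z)|) =
        fun z => |FI (lev p.1) p.1 s e (upl (lev p.1) v z)| := by
      funext z
      rw [hper _ (upl (lev p.1) v z) (KLnRJ.upl_dvd _ _ _ v ?_ z z (by simp) (by simp))]
      intro i
      have h := KLnRJ.upd_dvd (MM s e : ℕ) v v (fun i => by simp) p.2 u (v p.2) hu2 i
      rwa [Function.update_eq_self] at h
    rw [hfun] at hsp
    exact hsp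
  · intro u hu u' hu' hne
    refine ⟨fun z z' h1 h2 => ?_, fun z => (abs_abs _).le, ?_⟩
    · show |FI (lev p.1) p.1 s e (upl (lev p.1) v z)| = |FI (lev p.1) p.1 s e (upl (lev p.1) v z')|
      rw [hper _ _ (KLnRJ.upl_dvd _ _ v v (fun i => by simp) z z' h1 h2)]
    · exact hGeo2 X Z hR p hp v hv u (hS u hu).1 u' (hS u' hu').1 hne _ hM2
  · show MM s e * DD v * MM s e ∣ 1 * (MM s e * (2 * ∏ i, (v i).natAbs)) ^ 4
    unfold DD
    exact ⟨(MM s e * (2 * ∏ i, (v i).natAbs)) ^ 2, by ring⟩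

end Pool.Agent.MP_e23604_nt.U

end
end

section

/-!
The step `CRed`.
-/

open Finset
open scoped Classical

noncomputable section

namespace Pool.Agent.MP_e23604_nt.U

open P (lam shp gg PW cW Rough WW ES mu flat tau NN)

namespace KRedJ

theorem cW_nonneg (W : ℕ) : 0 ≤ cW W := prod_nonneg fun q _ => inv_nonneg.2 (by
  rcases Nat.eq_zero_or_pos q with rfl | h
  · simp
  · exact sub_nonneg.2 ((div_le_one (Nat.cast_pos.2 h)).2 (Nat.one_le_cast.2 h)))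

theorem gg_le {W N : ℕ} {u : ℤ} (hW : cW W ≤ Real.log N) (h0 : 1 ≤ u) (h1 : u ≤ (N : ℤ) ^ 20) :
    |gg W u| ≤ 21 * Real.log N := by
  have a0 : (1 : ℝ) ≤ u := by exact_mod_cast h0
  have a1 : Real.log u ≤ 20 * Real.log N := by
    have := Real.log_le_log (by linarith) (show (u : ℝ) ≤ (N : ℝ) ^ 20 by exact_mod_cast h1)
    rwa [Real.log_pow, Nat.cast_ofNat] at this
  have a2 := Real.log_nonneg a0
  have a3 := cW_nonneg W
  rw [gg, lam, shp, abs_le]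
  split_ifs <;> constructor <;> linarith

theorem clamp_le (x : ℝ) : |clamp x| ≤ 1 :=
  abs_le.2 ⟨le_max_left _ _, max_le (by norm_num) (min_le_left _ _)⟩

theorem clamp_eq {x G : ℝ} (hG : 0 < G) (h : |x| ≤ G) : G * clamp (x / G) = x := by
  rw [clamp, min_eq_right ((div_le_one hG).2 (abs_le.1 h).2),
    max_eq_right ((le_div_iff₀ hG).2 (by linarith [(abs_le.1 h).1])), mul_div_cancel₀ _ hG.ne']

theorem sc_ne (k : Fin 12) : sc k ≠ 1 := by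
  revert k
  decide

end KRedJ

open KRedJ in
theorem CRed_pf (hFlat : CFlat) (hIns : CIns) (hSz : CSz) (hPrim : CPrim) (hLin : CLin)
    (hPer : CPer) : CRed := by
  intro B A0
  obtain ⟨C, N1, h1⟩ := hFlat
  obtain ⟨N2, h2⟩ := hSz.lvl B (C + A0 + 2)
  obtain ⟨N3, h3⟩ := hSz.wt B
  obtain ⟨N4, h4⟩ := hSz.big 0 21
  refine ⟨N1 + N2 + N3 + N4, fun X Z hR hN k R hk => ?_⟩
  obtain ⟨j, j1, j2⟩ := h2 X Z hR (by omega)
  obtain ⟨w1, w2, -, w3⟩ := h3 X Z hR (by omega) (sc k) (sc_ne k)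
  have hL := (h4 X Z hR (by omega)).1
  have hz := hR.z2
  have h5 : 3 ≤ X (sc k) := by
    refine le_trans ?_ ((hSz.sz X Z hR).z _)
    calc 3 ≤ 2 ^ 2 := by norm_num
      _ ≤ Z ^ 2 := Nat.pow_le_pow_left hz 2
      _ ≤ _ := Nat.pow_le_pow_right (by omega) (by norm_num)
  refine ⟨j, j2 _ h5 ((hSz.sz X Z hR).le0 _ (sc_ne k)), fun A hA hP => ?_⟩
  generalize WW B (X (sc k)) = W at *
  have hG : 0 < 21 * LL X := by linarith
  have e1 : ∀ s ∈ SSet Z, ∀ v ∈ Box X,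
      A s v * gg W (qq s v k) = 21 * LL X * (A s v * clamp (gg W (qq s v k) / (21 * LL X))) := by
    intro s hs v hv
    obtain ⟨r1, r2, -⟩ := hPrim.rng X Z hR s hs v hv k
    rw [mul_left_comm, clamp_eq hG (gg_le w1 (by omega) r2)]
  have h6 := h1 X Z hR (by omega) R W j
    (fun s v => A s v * clamp (gg W (qq s v k) / (21 * LL X))) (fun s v => by
      rw [abs_mul]
      exact mul_le_one₀ (hA s v) (abs_nonneg _) (clamp_le _)) w1
  have e2 : SS X Z (fun s v => A s v * gg W (qq s v k) * ∏ σ ∈ R, shp W (qq s v σ)) =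
      21 * LL X * SS X Z fun s v => A s v * clamp (gg W (qq s v k) / (21 * LL X)) *
        ∏ σ ∈ R, shp W (qq s v σ) := by
    simp only [SS, mul_sum]
    refine sum_congr rfl fun s hs => sum_congr rfl fun v hv => ?_
    rw [e1 s hs v hv]
    ring
  have e3 : ∑ s ∈ SSet Z, ∑ e ∈ EE R W j, ∑ v ∈ Box X,
      FI (lev k) k s e v * (A s v * gg W (qq s v k)) = 21 * LL X * ∑ s ∈ SSet Z, ∑ e ∈ EE R W j,
        ∑ v ∈ Box X, FF s e v * (A s v * clamp (gg W (qq s v k) / (21 * LL X))) := by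
    simp only [mul_sum]
    refine sum_congr rfl fun s hs => sum_congr rfl fun e he => sum_congr rfl fun v hv => ?_
    rw [mul_left_comm (21 * LL X), ← e1 s hs v hv]
    by_cases h : A s v * gg W (qq s v k) = 0
    · rw [h, mul_zero, mul_zero]
    · have r1 := (hPrim.rng X Z hR s hs v hv k).1
      rw [hIns _ k R W j s v (hLin.mem Z s hs).1 hk e he (hP s v (left_ne_zero_of_mul h))
        (w3 _ (right_ne_zero_of_mul h) (by omega))]
  rw [e2, e3, abs_mul (21 * LL X), abs_mul (21 * LL X), abs_of_pos hG]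
  clear e2 e3
  generalize SS X Z _ = a at h6 ⊢
  generalize (∑ s ∈ SSet Z, ∑ e ∈ EE R W j, ∑ v ∈ Box X,
    FF s e v * (A s v * clamp (gg W (qq s v k) / (21 * LL X)))) = b at h6 ⊢
  have h7 : cW W ^ R.card ≤ LL X ^ 12 := (pow_le_pow_left₀ (cW_nonneg W) w1 _).trans
    (pow_le_pow_right₀ (by linarith) (by simpa using card_le_univ R))
  have h8 : |a| ≤ Vol X * LL X ^ C / 2 ^ j + LL X ^ 12 * |b| := by
    have h9 := abs_sub_abs_le_abs_sub a (cW W ^ R.card * b)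
    rw [abs_mul, abs_of_nonneg (pow_nonneg (cW_nonneg W) _)] at h9
    linarith [mul_le_mul_of_nonneg_right h7 (abs_nonneg b)]
  have hV : 0 ≤ Vol X := prod_nonneg fun _ _ => Nat.cast_nonneg _
  have hL0 : 0 < LL X := by linarith
  have h10 : 21 * LL X * (Vol X * LL X ^ C / 2 ^ j) ≤ Vol X / LL X ^ A0 :=
    calc _ ≤ LL X * LL X * (Vol X * LL X ^ C / LL X ^ (C + A0 + 2)) := by gcongr
      _ = _ := by field_simp; ring
  nlinarith [mul_le_mul_of_nonneg_left h8 hG.le]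

end Pool.Agent.MP_e23604_nt.U

end
end

section

/-!
The step `RepG`.
-/

open Finset
open scoped Classical

noncomputable section

namespace Pool.Agent.MP_e23604_nt.U

open P (lam shp gg PW cW Rough WW ES mu flat tau NN)

namespace KRepGJ

theorem ev_and {p q : (Fin 10 → ℕ) → ℕ → Prop} (hp : Ev p) (hq : Ev q) :
    Ev fun X Z => p X Z ∧ q X Z := by
  obtain ⟨a, ha⟩ := hp
  obtain ⟨b, hb⟩ := hq
  exact ⟨max a b, fun X Z h hm => ⟨ha X Z h (le_of_max_le_left hm), hb X Z h (le_of_max_le_right hm)⟩⟩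

theorem ev_mono {p q : (Fin 10 → ℕ) → ℕ → Prop} (hp : Ev p)
    (h : ∀ X Z, Reg X Z → p X Z → q X Z) : Ev q := by
  obtain ⟨a, ha⟩ := hp
  exact ⟨a, fun X Z hR hm => h X Z hR (ha X Z hR hm)⟩

theorem rt_act : ∀ p ∈ RT, p.1 ∈ Act (lev p.1) := by
  intro p hp
  simp only [RT, mem_insert, mem_singleton] at hp
  rcases hp with rfl | rfl | rfl | rfl | rfl <;> decide

theorem fin {S T V L l G x y : ℝ} {A0 C : ℕ} (hV : 0 ≤ V) (hx : 0 < x) (hy : 0 < y) (hG : 1 ≤ G)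
    (hl : L ≤ G * l) (hL : 4 * G ^ (A0 + C + 14) + 2 ≤ L) (h1 : S ≤ V / L ^ (A0 + 1) + L ^ 12 * T)
    (h2 : T * x * y ≤ 2 * (V * L ^ C * x * y / l ^ (A0 + C + 14))) : S ≤ V / L ^ A0 := by
  have hG0 : 0 < G := by linarith
  have hGp : 1 ≤ G ^ (A0 + C + 14) := one_le_pow₀ hG
  have hL0 : 0 < L := by linarith
  have hl0 : 0 < l := (mul_pos_iff_of_pos_left hG0).1 (hL0.trans_le hl)
  have h3 : T ≤ 2 * (V * L ^ C / l ^ (A0 + C + 14)) := by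
    refine le_of_mul_le_mul_right ?_ (mul_pos hx hy)
    calc T * (x * y) = T * x * y := by ring
      _ ≤ _ := h2
      _ = _ := by ring
  have h4 : L ^ (A0 + C + 14) ≤ G ^ (A0 + C + 14) * l ^ (A0 + C + 14) := by
    rw [← mul_pow]
    exact pow_le_pow_left₀ hL0.le hl _
  have h5 : 1 / l ^ (A0 + C + 14) ≤ G ^ (A0 + C + 14) / L ^ (A0 + C + 14) := by
    rw [div_le_div_iff₀ (by positivity) (by positivity), one_mul]
    exact h4
  generalize G ^ (A0 + C + 14) = H at *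
  have h6 : L ^ 12 * T ≤ V / L ^ A0 * (2 * H / L ^ 2) := by
    calc L ^ 12 * T ≤ L ^ 12 * (2 * (V * L ^ C * (1 / l ^ (A0 + C + 14)))) := by
          rw [mul_one_div]
          gcongr
      _ ≤ L ^ 12 * (2 * (V * L ^ C * (H / L ^ (A0 + C + 14)))) := by gcongr
      _ = _ := by field_simp; ring
  have h7 : 2 * H / L ^ 2 ≤ 1 / 2 := by
    rw [div_le_div_iff₀ (by positivity) (by norm_num)]
    nlinarith
  have h8 : V / L ^ (A0 + 1) = V / L ^ A0 * (1 / L) := by field_simp; ring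
  have h9 : 1 / L ≤ 1 / 2 := one_div_le_one_div_of_le (by norm_num) (by linarith)
  have h0 : 0 ≤ V / L ^ A0 := by positivity
  rw [h8] at h1
  nlinarith [mul_le_mul_of_nonneg_left h7 h0, mul_le_mul_of_nonneg_left h9 h0]

end KRepGJ

open KRepGJ in
theorem RepG_pf (hRed : CRed) (hRepE : CRepE) (hLnR : CLnR) (hWts : CWts) (hRepA : CRepA)
    (hGeo1 : CGeo1) (hSz : CSz) (hLin : CLin) (hPer : CPer) : RepG := by
  intro A0
  obtain ⟨n0, C, g0, hW⟩ := hWts 4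
  obtain ⟨n, hn0, hn1⟩ : ∃ n : ℕ, n0 ≤ n ∧ 10 ^ 14 ≤ n := ⟨_, le_max_left _ _, le_max_right _ _⟩
  obtain ⟨B0, hA⟩ := hRepA (A0 + C + 14) 1 n (le_trans (Nat.one_le_pow _ _ (by norm_num)) hn1)
  refine ⟨B0, fun B hB => ?_⟩
  obtain ⟨N1, hA⟩ := hA B hB
  have hG : (1 : ℝ) ≤ 10 ^ 14 := one_le_pow₀ (by norm_num)
  refine ev_mono (ev_and (ev_and (ev_and hW (hRed B (A0 + 1))) (ev_and hLnR hGeo1))
    (hSz.big 0 (10 ^ 14 * (g0 + 1) + N1 + (4 * (10 ^ 14) ^ (A0 + C + 14) + 2)))) ?_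
  rintro X Z hR ⟨⟨⟨hW, hRd⟩, hL, hGe⟩, hb1, hb2⟩ p hp R hRs A c hA1 hc1 iA ic1 ic2 hpr
  have sz := hSz.sz X Z hR
  have hlg := sz.lg (sc p.1)
  have hZX : ∀ i, Z ≤ X i := fun i => (Nat.le_self_pow (by norm_num) Z).trans (sz.z i)
  have hX0 : ∀ i, (0 : ℝ) < X i := fun i => by
    have := hZX i
    have := hR.z2
    exact_mod_cast (by omega : 0 < X i)
  generalize (10 : ℝ) ^ 14 = G at hG hb1 hb2 hlg
  have hGp : 0 ≤ G ^ (A0 + C + 14) := by positivity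
  have hg0 : (0 : ℝ) ≤ g0 := Nat.cast_nonneg _
  have hN0 : (0 : ℝ) ≤ N1 := Nat.cast_nonneg _
  have hGg : 0 ≤ G * (g0 + 1) := by positivity
  have hN : N1 ≤ X (sc p.1) := by
    refine le_trans ?_ (hZX _)
    rw [pow_zero, mul_one] at hb2
    exact_mod_cast (by linarith : (N1 : ℝ) ≤ Z)
  have hlog : (g0 : ℝ) + 1 ≤ Real.log (X (sc p.1)) :=
    le_of_mul_le_mul_left (by linarith) (by linarith : 0 < G)
  obtain ⟨j, hj, hRd⟩ := hRd p.1 R hRs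
  have h1 := hRd (fun s v => A s v * c s v)
    (fun s v => by rw [abs_mul]; exact mul_le_one₀ (hA1 s v) (abs_nonneg _) (hc1 s v))
    fun s v h => hpr s v (right_ne_zero_of_mul h)
  have h2 := hRepE X Z hR p hp R hRs _ j hj A c (gg (WW B (X (sc p.1)))) iA ic1 ic2 hpr
  have h3 := hL p hp R hRs _ j hj c hpr n hn1
  have h4 := hA _ hN (PP X Z (lev p.1) R (WW B (X (sc p.1))) j) (lnR X p c)
    (fun ω z => FI (lev p.1) p.1 ω.1 ω.2.1 (upl (lev p.1) ω.2.2 z) * A ω.1 (upl (lev p.1) ω.2.2 z))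
    (fun ω u => c ω.1 (Function.update ω.2.2 p.2 u)) (X p.2) _ _ _ _ (Vol X * LL X ^ C) _
    ((hGe p.1).1 n 1 hn1 le_rfl)
    (fun ω hω => ⟨(h3 ω hω).1, rfl, fun _ _ => rfl, fun z => by
      rw [abs_mul]
      exact mul_le_of_le_one_right (abs_nonneg _) (hA1 _ _), fun u => hc1 _ _⟩)
    (hW (lev p.1) p.1 (rt_act p hp) R _ j hj _ Subset.rfl 1 _ le_rfl (fun ω hω => (h3 ω hω).2) n hn0 _
      (by rw [pow_one]; linarith) (by rw [pow_one, Nat.cast_one, one_pow]; linarith))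
  exact fin (prod_nonneg fun i _ => (hX0 i).le) (hX0 _) (hX0 _) hG hlg (by linarith) h1
    (h2.trans (mul_le_mul_of_nonneg_left h4 zero_le_two))

end Pool.Agent.MP_e23604_nt.U

end
end

section

/-!
The step `DirG`.
-/

open Finset
open scoped Classical

noncomputable section

namespace Pool.Agent.MP_e23604_nt.U

open P (lam shp gg PW cW Rough WW ES mu flat tau NN)

namespace KDirGJ

theorem idx : ∀ i : Fin 10, i.val < 4 → sv i ∈ Act (lev (sv i)) ∧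
    (Bs (lev (sv i))).erase (sv i) = Bs (lev (sv i)) ∧
    Bs (lev (sv i)) ⊆ (Act (lev (sv i))).erase (sv i) ∧ vi (lev (sv i)) ≠ vj (lev (sv i)) ∧
    cf (sv i) = 1 := by decide

/-- The form of a variable and the other variable. -/
theorem other (i : Fin 10) (hi : i.val < 4) : ∃ (α β : ℤ) (o : Fin 10),
    (α = 1 ∧ β = 0 ∨ α = 0 ∧ β = 1) ∧
    (∀ v, al (lev (sv i)) (sv i) v = α ∧ be (lev (sv i)) (sv i) v = β) ∧
    ∀ (h : WF), Ind i h → ∀ s v z,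
      h s (upl (lev (sv i)) v z) = h s (Function.update v o (lf β α z)) := by
  have e1 : ∀ z, lf 0 1 z = z.2 := fun z => by simp [lf]
  have e2 : ∀ z, lf 1 0 z = z.1 := fun z => by simp [lf]
  have hi' : i = 0 ∨ i = 1 ∨ i = 2 ∨ i = 3 := by
    revert i
    decide
  rcases hi' with rfl | rfl | rfl | rfl
  · refine ⟨1, 0, 1, Or.inl ⟨rfl, rfl⟩, fun v => ⟨rfl, rfl⟩, fun h hh s v z => ?_⟩
    rw [e1, ← hh s (Function.update v 1 z.2) z.1, Function.update_comm (by decide)]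
    rfl
  · refine ⟨0, 1, 0, Or.inr ⟨rfl, rfl⟩, fun v => ⟨rfl, rfl⟩, fun h hh s v z => ?_⟩
    rw [e2, ← hh s (Function.update v 0 z.1) z.2]
    rfl
  · refine ⟨1, 0, 3, Or.inl ⟨rfl, rfl⟩, fun v => ⟨rfl, rfl⟩, fun h hh s v z => ?_⟩
    rw [e1, ← hh s (Function.update v 3 z.2) z.1, Function.update_comm (by decide)]
    rfl
  · refine ⟨0, 1, 2, Or.inr ⟨rfl, rfl⟩, fun v => ⟨rfl, rfl⟩, fun h hh s v z => ?_⟩
    rw [e2, ← hh s (Function.update v 2 z.1) z.2]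
    rfl

/-- The pair of forms. -/
def pr (ℓ : Fin 3) (k : Fin 12) (α β : ℤ) (o : Fin 10) (h : WF) (ω : Om) : Pr where
  α := α
  β := β
  α' := β
  β' := α
  m := mk k ω.1
  K0 := MM ω.1 ω.2.1
  t := tt ℓ k ω.1 ω.2.1
  F := fun z => FI ℓ k ω.1 ω.2.1 (upl ℓ ω.2.2 z)
  h := fun x => h ω.1 (Function.update ω.2.2 o x)

theorem per {K : ℕ} {f : V10 → ℝ} (h : Per10 K f) (ℓ : Fin 3) (v : V10) :
    Per2 K fun z => f (upl ℓ v z) := by
  intro z z' h1 h2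
  refine h _ _ fun i => ?_
  simp only [upl, up, Function.update_apply]
  split_ifs
  · exact h2
  · exact h1
  · rw [sub_self]
    exact dvd_zero _

theorem num {V L y : ℝ} {T S : ℝ} {A0 C c : ℕ} (hV : 0 ≤ V) {κ : ℝ} (hκ : 0 < κ)
    (h2 : 2 ≤ L) (hL : κ ^ (c + C + A0 + 2) ≤ L) (hy : L ≤ κ * y)
    (hT : T ≤ V * L ^ C / y ^ (c + C + A0 + 2)) (hS : S ≤ V / L ^ (A0 + 1) + L ^ c * T) :
    S ≤ V / L ^ A0 := by
  have hL0 : 0 < L := by linarith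
  have hy0 : 0 < y := (mul_pos_iff_of_pos_left hκ).1 (hL0.trans_le hy)
  have h3 : L ^ (c + C + A0 + 1) ≤ y ^ (c + C + A0 + 2) := by
    have h4 := pow_le_pow_left₀ hL0.le hy (c + C + A0 + 2)
    rw [mul_pow] at h4
    have h5 := h4.trans (mul_le_mul_of_nonneg_right hL (by positivity))
    rw [pow_succ' L] at h5
    exact le_of_mul_le_mul_left h5 hL0
  have h6 : L ^ c * T ≤ V / L ^ (A0 + 1) := by
    refine (mul_le_mul_of_nonneg_left (hT.trans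
      (div_le_div_of_nonneg_left (by positivity) (by positivity) h3)) (by positivity)).trans
      (le_of_eq ?_)
    field_simp
    ring
  have h7 : V / L ^ (A0 + 1) ≤ V / (L ^ A0 * 2) := by
    refine div_le_div_of_nonneg_left hV (by positivity) ?_
    rw [pow_succ]
    exact mul_le_mul_of_nonneg_left h2 (by positivity)
  have h8 : V / (L ^ A0 * 2) = V / L ^ A0 / 2 := by rw [div_div]
  linarith

end KDirGJ

open KDirGJ in
theorem DirG_pf (hRed : CRed) (hCore : CCore) (hWts : CWts) (hGeo1 : CGeo1) (hSp : CSp)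
    (hPer : CPer) (hLin : CLin) (hCls : CCls) (hSz : CSz) : DirG := by
  intro A0
  obtain ⟨n0, C, g0, N2, hW⟩ := hWts 1
  obtain ⟨n, hn0, hn⟩ : ∃ n : ℕ, n0 ≤ n ∧ 10 ^ 14 ≤ n := ⟨max _ _, le_max_left _ _, le_max_right _ _⟩
  obtain ⟨B0, hB0⟩ := hCore (12 + C + A0 + 2) 1 n (le_trans (by norm_num) hn)
  refine ⟨B0, fun B hB => ?_⟩
  obtain ⟨N1, hN1⟩ := hB0 B hB
  obtain ⟨N3, hN3⟩ := hRed B (A0 + 1)
  obtain ⟨N4, hN4⟩ := hGeo1
  obtain ⟨κ, hκ⟩ : ∃ κ : ℝ, κ = 10 ^ 14 := ⟨_, rfl⟩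
  have hκ1 : 1 ≤ κ := by rw [hκ]; norm_num
  obtain ⟨N5, hN5⟩ := hSz.big 0 (κ ^ (12 + C + A0 + 2) + κ * (g0 + 1) + N1 + 2)
  refine ⟨max (max N2 N3) (max N4 N5), fun X Z hR hX i hi R hRs h hb hI hP => ?_⟩
  simp only [max_le_iff] at hX
  obtain ⟨⟨x2, x3⟩, x4, x5⟩ := hX
  obtain ⟨i1, i2, i3, i4, i5⟩ := idx i hi
  obtain ⟨α, β, o, hab, hal, hh⟩ := other i hi
  have hvar := hLin.var i (by omega)
  generalize sv i = k at *
  obtain ⟨j, hj, hA⟩ := hN3 X Z hR x3 k R (by rw [i2]; exact hRs)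
  have hS := hA h hb hP
  obtain ⟨g1, g2, -, g4⟩ := hN4 X Z hR x4 k
  have hSc := g1 n 1 hn le_rfl
  have hU : UU X k = 16 * (|(α : ℝ)| * X (vi (lev k)) + |(β : ℝ)| * X (vj (lev k))) := by
    unfold UU PS2
    rw [(hal _).1, (hal _).2]
  have sz := hSz.sz X Z hR
  obtain ⟨b1, b2⟩ := hN5 X Z hR x5
  rw [pow_zero, mul_one] at b2
  have p1 : 0 ≤ κ ^ (12 + C + A0 + 2) := by positivity
  have p2 : 0 ≤ κ * ((g0 : ℝ) + 1) := by positivity
  have p3 : (0 : ℝ) ≤ N1 := Nat.cast_nonneg _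
  have hZ : 1 ≤ Z := le_trans (by norm_num) hR.z2
  have hzp : ∀ (c : ℕ) (w : Fin 10), c ≤ 1000 → Z ^ c ≤ X w := fun c w hc =>
    (Nat.pow_le_pow_right hZ hc).trans (sz.z w)
  have hN : N1 ≤ X (sc k) := by
    have h1 : N1 ≤ Z := by exact_mod_cast (show (N1 : ℝ) ≤ Z by linarith)
    exact h1.trans ((pow_one Z).symm.le.trans (hzp 1 _ (by norm_num)))
  have hlg := sz.lg (sc k)
  rw [← hκ] at hlg
  have hy : (g0 : ℝ) + 1 ≤ Real.log (X (sc k)) :=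
    le_of_mul_le_mul_left (show κ * _ ≤ κ * _ by linarith) (by linarith)
  have p4 : (0 : ℝ) ≤ g0 := Nat.cast_nonneg _
  have hcop : IsCoprime α β := by
    rcases hab with ⟨rfl, rfl⟩ | ⟨rfl, rfl⟩
    exacts [isCoprime_one_left, isCoprime_one_right]
  have hdet : (α * α - β * β).natAbs = 1 := by
    rcases hab with ⟨rfl, rfl⟩ | ⟨rfl, rfl⟩ <;> rfl
  have hdet' : |((α * α - β * β : ℤ) : ℝ)| = 1 := by
    rcases hab with ⟨rfl, rfl⟩ | ⟨rfl, rfl⟩ <;> simp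
  have hK : ∀ ω, (pr (lev k) k α β o h ω).K = MM ω.1 ω.2.1 := fun ω => by
    show MM ω.1 ω.2.1 * (α * α - β * β).natAbs = _
    rw [hdet, mul_one]
  have hsp : ∀ s ∈ SSet Z, ∀ e ∈ EE R (WW B (X (sc k))) j, ∀ v : V10,
      Supp (fun z => |FI (lev k) k s e (upl (lev k) v z)|) α β (mk k s) (tt (lev k) k s e) ∧
        ∀ z, FI (lev k) k s e (upl (lev k) v z) ≠ 0 → ∀ σ, σ ∉ Act (lev k) → (s σ : ℤ) ∣ fm v σ := by
    intro s hs e he v
    have h1 := (hPer.ee R _ j Z hj e he).1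
    have h2 := hSp (lev k) k i1 s e v (hLin.mem Z s hs).1 (fun σ => (h1 σ).1)
      (fun σ hσ => (h1 σ).2.2.1 fun a => hσ (i3 (hRs a)))
      (by rw [(hal v).1, (hal v).2]; exact hcop)
    rwa [(hal v).1, (hal v).2] at h2
  have hWg := hW X Z hR x2 (lev k) k i1 R _ j hj _ Subset.rfl 1
    (fun ω => (pr (lev k) k α β o h ω).K) le_rfl
    (fun ω _ => by rw [hK, one_mul, pow_one]; exact Dvd.intro _ rfl) n hn0
    (Real.log (X (sc k)) ^ 1) (by rw [pow_one]; linarith) (by rw [pow_one]; push_cast; linarith)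
  have hC := hN1 (X (sc k)) hN (PP X Z (lev k) R (WW B (X (sc k))) j) (pr (lev k) k α β o h)
    (fun _ => 1) (X (vi (lev k))) (X (vj (lev k))) (UU X k) (T0 X k) (Vol X * LL X ^ C) (2 ^ 40) hSc
    (fun ω hω => by
      obtain ⟨s, e, v⟩ := ω
      obtain ⟨hs, hev⟩ := mem_product.1 (mem_filter.1 hω).1
      obtain ⟨he, hv⟩ := mem_product.1 hev
      have hs' := (hLin.mem Z s hs).1
      obtain ⟨e1, e2⟩ := hPer.ee R _ j Z hj e he
      obtain ⟨m1, m2, m3⟩ := hPer.mm Z hR.z2 s hs e (fun σ => (e1 σ).1) e2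
      obtain ⟨m3, m4, m5, m6⟩ := m3 (lev k) k
      obtain ⟨s1, s2⟩ := (hsp s hs e he v).1
      have r := g4 v hv
      rw [(hal v).1, (hal v).2] at r
      have q1 : (0 : ℝ) ≤ X (vi (lev k)) := Nat.cast_nonneg _
      have q2 : (0 : ℝ) ≤ X (vj (lev k)) := Nat.cast_nonneg _
      refine ⟨zero_le_one, ⟨hcop, ?_, m5, m1, m3, fun z => ?_, per ((hPer.ff s e hs').2 _ _) _ v,
        ⟨fun z hz => s1 z (abs_ne_zero.2 hz), fun z τ a b => s2 z τ (abs_ne_zero.2 a)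
          (abs_ne_zero.2 b)⟩, r, fun z _ => (hb _ _).trans (by linarith)⟩, ?_, ?_, ?_, ?_, ?_⟩
      · exact Int.natAbs_ne_zero.1 (ne_of_eq_of_ne hdet one_ne_zero)
      · exact ((hPer.bd s e _).2 _ _).trans (hPer.bd s e _).1
      · refine (Nat.pow_le_pow_left m6 10).trans ?_
        rw [← pow_mul]
        exact hzp _ _ (by norm_num)
      · rw [hK]
        refine (Nat.pow_le_pow_left m2 5).trans ?_
        rw [← pow_mul]
        exact hzp _ _ (by norm_num)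
      · exact le_trans (by exact_mod_cast m4) g2
      · show UU X k * |(α : ℝ)| ≤ 2 ^ 40 * X (vi (lev k)) * |((α * α - β * β : ℤ) : ℝ)|
        rw [hdet', hU]
        rcases hab with ⟨rfl, rfl⟩ | ⟨rfl, rfl⟩ <;> simp <;> linarith
      · show UU X k * |(β : ℝ)| ≤ 2 ^ 40 * X (vj (lev k)) * |((α * α - β * β : ℤ) : ℝ)|
        rw [hdet', hU]
        rcases hab with ⟨rfl, rfl⟩ | ⟨rfl, rfl⟩ <;> simp <;> linarith)
    (by simp only [one_mul]; exact hWg)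
  simp only [one_mul] at hC
  have hT : ∀ (s e : S12) (v : V10), ∑ z ∈ bx (X (vi (lev k))) (X (vj (lev k))),
      FI (lev k) k s e (upl (lev k) v z) * (h s (upl (lev k) v z) *
        gg (WW B (X (sc k))) (qq s (upl (lev k) v z) k)) =
      (pr (lev k) k α β o h (s, e, v)).T (X (vi (lev k))) (X (vj (lev k)))
        (gg (WW B (X (sc k)))) := by
    intro s e v
    refine sum_congr rfl fun z _ => ?_
    have e1 : qq s (upl (lev k) v z) k = lf α β z / (mk k s : ℤ) := by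
      unfold qq mk
      rw [(hvar _).1, ← (hvar (upl (lev k) v z)).2, hLin.lin _ k i1, (hal v).1, (hal v).2, i5, one_mul]
    rw [hh h hI, e1, mul_comm (h s _), ← mul_assoc]
    rfl
  have hE : (X (vi (lev k)) : ℝ) * X (vj (lev k)) *
      ∑ s ∈ SSet Z, ∑ e ∈ EE R (WW B (X (sc k))) j, ∑ v ∈ Box X,
        FI (lev k) k s e v * (h s v * gg (WW B (X (sc k))) (qq s v k)) =
      ∑ ω ∈ PP X Z (lev k) R (WW B (X (sc k))) j, (pr (lev k) k α β o h ω).T (X (vi (lev k)))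
        (X (vj (lev k))) (gg (WW B (X (sc k)))) := by
    unfold PP
    rw [sum_filter, sum_product, mul_sum]
    refine sum_congr rfl fun s hs => ?_
    rw [sum_product, mul_sum]
    refine sum_congr rfl fun e he => ?_
    rw [← hCls.two X _ _ _ i4]
    refine sum_congr rfl fun v _ => ?_
    split_ifs with hc
    · exact hT s e v
    · refine sum_eq_zero fun z _ => ?_
      by_cases h0 : FI (lev k) k s e (upl (lev k) v z) = 0
      · exact mul_eq_zero_of_left h0 _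
      · exact absurd ((hsp s hs e he v).2 z h0) hc
  have hXY : (0 : ℝ) < (X (vi (lev k)) : ℝ) * X (vj (lev k)) := by
    have := fun w => (Nat.one_le_pow 1 Z hZ).trans (hzp 1 w (by norm_num))
    exact mul_pos (Nat.cast_pos.2 (this _)) (Nat.cast_pos.2 (this _))
  refine num (prod_nonneg fun _ _ => Nat.cast_nonneg _) (by linarith) (by linarith) (by linarith)
    hlg ?_ hS
  refine le_of_mul_le_mul_left ?_ hXY
  rw [← abs_of_pos hXY, ← abs_mul, hE, abs_of_pos hXY]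
  refine ((abs_sum_le_sum_abs _ _).trans hC).trans (le_of_eq ?_)
  ring

end Pool.Agent.MP_e23604_nt.U

end
end

section

/-!
The step `TRep`.
-/

open Finset
open scoped Classical

noncomputable section

namespace Pool.Agent.MP_e23604_nt.U

open P (lam shp gg PW cW Rough WW ES mu flat tau NN)

namespace KTRepJ

theorem clamp_bd (x : ℝ) : |clamp x| ≤ 1 := by
  unfold clamp
  rw [abs_le]
  exact ⟨le_max_left _ _, max_le (by norm_num) (min_le_left _ _)⟩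

theorem clamp_eq {x Γ : ℝ} (hΓ : 0 < Γ) (h : |x| ≤ Γ) : x = Γ * clamp (x / Γ) := by
  have h1 : x / Γ ≤ 1 := by
    rw [div_le_one hΓ]
    exact (abs_le.1 h).2
  have h2 : -1 ≤ x / Γ := by
    rw [le_div_iff₀ hΓ]
    have := (abs_le.1 h).1
    linarith
  unfold clamp
  rw [min_eq_right h1, max_eq_right h2]
  field_simp

theorem prod_bd (T : Finset (Fin 12)) (f : Fin 12 → ℝ) : |∏ σ ∈ T, clamp (f σ)| ≤ 1 := by
  rw [abs_prod]
  exact prod_le_one (fun _ _ => abs_nonneg _) fun _ _ => clamp_bd _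

theorem BB_bd (E : Finset (Fin 10 × Fin 10)) (v : V10) : |BB E v| ≤ 1 := by
  unfold BB
  rw [abs_prod]
  refine prod_le_one (fun _ _ => abs_nonneg _) fun p _ => ?_
  split_ifs <;> simp

theorem cp_bd (v : V10) : |cp v| ≤ 1 := by
  unfold cp
  split_ifs <;> simp

theorem BB_ind {E : Finset (Fin 10 × Fin 10)} (hE : E ⊆ EP 0) {i : Fin 10} (hi : 6 ≤ i.val)
    (v : V10) (t : ℤ) : BB E (Function.update v i t) = BB E v := by
  unfold BB
  refine prod_congr rfl fun p hp => ?_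
  have h := hE hp
  unfold EP at h
  rw [mem_filter] at h
  obtain ⟨-, -, h1, h2⟩ := h
  have h3 : p.1.val < p.2.val := h1
  have e1 : p.1 ≠ i := fun e => by rw [e] at h3; omega
  have e2 : p.2 ≠ i := fun e => by rw [e] at h2; omega
  rw [Function.update_of_ne e1, Function.update_of_ne e2]

theorem cp_ind {i : Fin 10} (hi : i.val < 4) (v : V10) (t : ℤ) :
    cp (Function.update v i t) = cp v := by
  have h : Cop (Function.update v i t) ↔ Cop v := by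
    unfold Cop
    refine forall_congr' fun a => forall_congr' fun b => forall_congr' fun ha =>
      forall_congr' fun hb => forall_congr' fun _ => ?_
    have e1 : a ≠ i := fun e => by rw [e] at ha; omega
    have e2 : b ≠ i := fun e => by rw [e] at hb; omega
    rw [Function.update_of_ne e1, Function.update_of_ne e2]
  unfold cp
  rw [h]

theorem prims_ind (hLin : CLin) (ℓ : Fin 3) {i : Fin 10} (hi : i = vi ℓ ∨ i = vj ℓ) (v : V10)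
    (t : ℤ) : Prims ℓ (Function.update v i t) ↔ Prims ℓ v := by
  unfold Prims
  refine forall_congr' fun σ => forall_congr' fun _ => ?_
  rw [(hLin.inv ℓ σ v t i hi).1, (hLin.inv ℓ σ v t i hi).2]

theorem qq_ind (hLin : CLin) {σ : Fin 12} {i : Fin 10} (h : i ∉ dp σ) (s : S12) (v : V10)
    (t : ℤ) : qq s (Function.update v i t) σ = qq s v σ := by
  unfold qq
  rw [(hLin.dep σ i h v t).1]

theorem rt_facts : ∀ p ∈ RT, 6 ≤ p.2.val ∧ (lev p.1 = 0 ∨ lev p.1 = 1) ∧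
    (vi (lev p.1)).val < 4 ∧ (vj (lev p.1)).val < 4 := by
  intro p hp
  unfold RT at hp
  simp only [mem_insert, mem_singleton] at hp
  rcases hp with rfl | rfl | rfl | rfl | rfl <;> decide

theorem prime_of_lam {n : ℤ} (h : lam n ≠ 0) : n.toNat.Prime := by
  by_contra hn
  apply h
  unfold lam
  rw [if_neg hn]

theorem split (f : Fin 12 → ℝ) (k : Fin 12) (R : Finset (Fin 12)) (hk : k ∉ R)
    (a b : Fin 12 → Prop) (h : ∀ σ, σ ∉ R → σ ≠ k → a σ ∨ b σ ∨ f σ = 1) :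
    ∏ σ, f σ = (∏ σ ∈ univ.filter (fun σ => σ ∉ R ∧ σ ≠ k ∧ a σ), f σ) *
      (∏ σ ∈ univ.filter (fun σ => σ ∉ R ∧ σ ≠ k ∧ ¬ a σ ∧ b σ), f σ) * f k * ∏ σ ∈ R, f σ := by
  have e1 : ∏ σ ∈ R, f σ = ∏ σ, if σ ∈ R then f σ else 1 := by
    rw [prod_ite_mem, univ_inter]
  have e2 : f k = ∏ σ, if σ = k then f σ else 1 := by
    rw [prod_ite_eq']
    simp
  rw [e1, prod_filter, prod_filter]
  conv_rhs => rw [e2]
  rw [← prod_mul_distrib, ← prod_mul_distrib, ← prod_mul_distrib]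
  refine prod_congr rfl fun σ _ => ?_
  by_cases h1 : σ ∈ R
  · have h2 : σ ≠ k := fun e => hk (e ▸ h1)
    simp [h1, h2]
  · by_cases h2 : σ = k
    · simp [h2, hk]
    · by_cases h3 : a σ
      · simp [h1, h2, h3]
      · by_cases h4 : b σ
        · simp [h1, h2, h3, h4]
        · have h5 : f σ = 1 := ((h σ h1 h2).resolve_left h3).resolve_left h4
          simp [h1, h2, h3, h4, h5]

theorem pow_bd {L : ℝ} (hL : 21 ≤ L) {m : ℕ} (hm : m ≤ 24) : (21 * L) ^ m ≤ L ^ 48 := by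
  have h1 : (21 * L) ^ m ≤ (21 * L) ^ 24 := pow_le_pow_right₀ (by linarith) hm
  have h2 : (21 * L) ^ 24 ≤ (L ^ 2) ^ 24 :=
    pow_le_pow_left₀ (by linarith) (by nlinarith) 24
  rw [← pow_mul] at h2
  exact h1.trans h2

end KTRepJ

open KTRepJ in
theorem TRep_pf (hRepG : RepG) (hPrim : CPrim) (hLin : CLin) (hSz : CSz) : TRep := by
  obtain ⟨B0, hB0⟩ := hRepG 48
  refine ⟨B0, fun B hB => ?_⟩
  obtain ⟨N1, h1⟩ := hB0 B hB
  obtain ⟨N2, h2⟩ := hSz.big 0 21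
  refine ⟨max N1 N2, fun X Z hReg hN p hp R hR E hE g hBd hLow hk hgR hrest => ?_⟩
  have hG := h1 X Z hReg (le_trans (le_max_left _ _) hN) p hp R hR
  have hL : 21 ≤ LL X := (h2 X Z hReg (le_trans (le_max_right _ _) hN)).1
  obtain ⟨f6, flev, fi, fj⟩ := rt_facts p hp
  have hkR : p.1 ∉ R := fun h => (mem_erase.1 (hR h)).1 rfl
  have hΓ : 0 < 21 * LL X := by linarith
  set T1 : Finset (Fin 12) := univ.filter (fun σ => σ ∉ R ∧ σ ≠ p.1 ∧ p.2 ∉ dp σ) with hT1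
  set T2 : Finset (Fin 12) :=
    univ.filter (fun σ => σ ∉ R ∧ σ ≠ p.1 ∧ ¬ p.2 ∉ dp σ ∧ σ ∉ Act (lev p.1)) with hT2
  set A : WF := fun s v => BB E v * ∏ σ ∈ T1, clamp (g σ (qq s v σ) / (21 * LL X)) with hA
  set c : WF := fun s v => cp v * (if Prims (lev p.1) v then 1 else 0) *
    ∏ σ ∈ T2, clamp (g σ (qq s v σ) / (21 * LL X)) with hc
  have bA : Bd1 A := by
    intro s v
    simp only [hA]
    rw [abs_mul]
    exact mul_le_one₀ (BB_bd E v) (abs_nonneg _) (prod_bd _ _)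
  have bc : Bd1 c := by
    intro s v
    simp only [hc]
    rw [abs_mul, abs_mul]
    refine mul_le_one₀ (mul_le_one₀ (cp_bd v) (abs_nonneg _) ?_) (abs_nonneg _) (prod_bd _ _)
    split_ifs <;> simp
  have iA : Ind p.2 A := by
    intro s v t
    simp only [hA]
    rw [BB_ind hE f6]
    congr 1
    refine prod_congr rfl fun σ hσ => ?_
    rw [qq_ind hLin (mem_filter.1 hσ).2.2.2]
  have ic : ∀ i : Fin 10, i = vi (lev p.1) ∨ i = vj (lev p.1) → Ind i c := by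
    intro i hi s v t
    have hi4 : i.val < 4 := by
      rcases hi with rfl | rfl
      · exact fi
      · exact fj
    simp only [hc]
    rw [cp_ind hi4, prims_ind hLin _ hi]
    congr 1
    refine prod_congr rfl fun σ hσ => ?_
    have ha := hLin.act _ σ (mem_filter.1 hσ).2.2.2.2
    have hd : i ∉ dp σ := by
      rcases hi with rfl | rfl
      · exact ha.1
      · exact ha.2
    rw [qq_ind hLin hd]
  have pc : ∀ s v, c s v ≠ 0 → Prims (lev p.1) v := by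
    intro s v h
    by_contra hn
    apply h
    simp only [hc]
    rw [if_neg hn]
    ring
  have key := hG A c bA bc iA (ic _ (Or.inl rfl)) (ic _ (Or.inr rfl)) pc
  have hEq : TS X Z cp E g = (21 * LL X) ^ (T1.card + T2.card) *
      SS X Z (fun s v => A s v * c s v * gg (WW B (X (sc p.1))) (qq s v p.1) *
        ∏ σ ∈ R, shp (WW B (X (sc p.1))) (qq s v σ)) := by
    unfold TS SS
    rw [mul_sum]
    refine sum_congr rfl fun s hs => ?_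
    rw [mul_sum]
    refine sum_congr rfl fun v hv => ?_
    have hcl : ∀ σ, g σ (qq s v σ) = 21 * LL X * clamp (g σ (qq s v σ) / (21 * LL X)) := by
      intro σ
      obtain ⟨r1, r2, -⟩ := hPrim.rng X Z hReg s hs v hv σ
      exact clamp_eq hΓ (hBd σ _ (le_trans (Int.natCast_nonneg Z) r1) r2)
    by_cases hP : Prims (lev p.1) v
    · have hs1 := split (fun σ => g σ (qq s v σ)) p.1 R hkR (fun σ => p.2 ∉ dp σ)
        (fun σ => σ ∉ Act (lev p.1)) (fun σ a b => by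
          rcases hrest σ a b with h | h | h
          · exact Or.inl h
          · exact Or.inr (Or.inl h)
          · refine Or.inr (Or.inr ?_)
            simp only [h, one])
      have e1 : ∏ σ ∈ T1, g σ (qq s v σ) = (21 * LL X) ^ T1.card *
          ∏ σ ∈ T1, clamp (g σ (qq s v σ) / (21 * LL X)) := by
        rw [← prod_const, ← prod_mul_distrib]
        exact prod_congr rfl fun σ _ => hcl σ
      have e2 : ∏ σ ∈ T2, g σ (qq s v σ) = (21 * LL X) ^ T2.card *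
          ∏ σ ∈ T2, clamp (g σ (qq s v σ) / (21 * LL X)) := by
        rw [← prod_const, ← prod_mul_distrib]
        exact prod_congr rfl fun σ _ => hcl σ
      have e3 : ∏ σ ∈ R, g σ (qq s v σ) = ∏ σ ∈ R, shp (WW B (X (sc p.1))) (qq s v σ) :=
        prod_congr rfl fun σ hσ => by rw [hgR σ hσ]
      have hs2 : ∏ σ, g σ (qq s v σ) = (∏ σ ∈ T1, g σ (qq s v σ)) * (∏ σ ∈ T2, g σ (qq s v σ)) *
          g p.1 (qq s v p.1) * ∏ σ ∈ R, g σ (qq s v σ) := by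
        rw [hs1]
        congr 3
        · rw [hT1]
          congr
        · rw [hT2]
          congr
      simp only [hA, hc]
      rw [hs2, e1, e2, e3, hk, if_pos hP, pow_add]
      ring
    · have z1 : GG s v * (cp v * BB E v * ∏ σ, g σ (qq s v σ)) = 0 := by
        by_contra hne
        have n1 : GG s v ≠ 0 := left_ne_zero_of_mul hne
        have n2 := right_ne_zero_of_mul hne
        have n3 : cp v ≠ 0 := left_ne_zero_of_mul (left_ne_zero_of_mul n2)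
        have n4 : ∀ σ, g σ (qq s v σ) ≠ 0 := fun σ =>
          prod_ne_zero_iff.1 (right_ne_zero_of_mul n2) σ (mem_univ _)
        have hCop : Cop v := by
          by_contra hn
          apply n3
          unfold cp
          rw [if_neg hn]
        have hne2 : lev p.1 ≠ 2 := by
          rcases flev with h | h <;> rw [h] <;> decide
        obtain ⟨g4, g5⟩ := hLow.1 hne2
        have q4 := n4 4
        have q5 := n4 5
        rw [g4] at q4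
        rw [g5] at q5
        have hpr := hPrim.prims X Z hReg s hs v hv ((hLin.gg01 s v).2 n1) hCop
          (prime_of_lam q4) (prime_of_lam q5)
        apply hP
        rcases flev with h | h
        · obtain ⟨g8, g9⟩ := hLow.2 h
          have q8 := n4 8
          have q9 := n4 9
          rw [g8] at q8
          rw [g9] at q9
          rw [h]
          exact hpr.2 (prime_of_lam q8) (prime_of_lam q9)
        · rw [h]
          exact hpr.1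
      rw [z1]
      simp only [hc]
      rw [if_neg hP]
      ring
  have hm : T1.card + T2.card ≤ 24 := by
    have a1 : T1.card ≤ 12 := by simpa using card_le_univ T1
    have a2 : T2.card ≤ 12 := by simpa using card_le_univ T2
    omega
  have hLp : 0 < LL X ^ 48 := pow_pos (by linarith) 48
  rw [hEq, abs_mul, abs_of_pos (pow_pos hΓ _)]
  calc _ ≤ LL X ^ 48 * (Vol X / LL X ^ 48) :=
        mul_le_mul (pow_bd hL hm) key (abs_nonneg _) hLp.le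
    _ = Vol X := by field_simp

end Pool.Agent.MP_e23604_nt.U

end
end

section

/-!
The step `TDir`.
-/

open Finset
open scoped Classical

noncomputable section

namespace Pool.Agent.MP_e23604_nt.U

open P (lam shp gg PW cW Rough WW ES mu flat tau NN)

namespace KTDirJ

theorem clamp_le (x : ℝ) : |clamp x| ≤ 1 :=
  abs_le.2 ⟨le_max_left _ _, max_le (by norm_num) (min_le_left _ _)⟩

theorem clamp_eq {x Γ : ℝ} (hΓ : 0 < Γ) (h : |x| ≤ Γ) : Γ * clamp (x / Γ) = x := by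
  have h1 : |x / Γ| ≤ 1 := by rw [abs_div, abs_of_pos hΓ, div_le_one hΓ]; exact h
  rw [clamp, min_eq_right (abs_le.1 h1).2, max_eq_right (abs_le.1 h1).1]
  field_simp

theorem prime_of {u : ℤ} (h : lam u ≠ 0) : u.toNat.Prime := by
  by_contra hp
  exact h (if_neg hp)

theorem abs_prod {ι : Type} (T : Finset ι) (f : ι → ℝ) (h : ∀ i, |f i| ≤ 1) :
    |∏ i ∈ T, f i| ≤ 1 := by
  rw [Finset.abs_prod]
  exact prod_le_one (fun i _ => abs_nonneg _) fun i _ => h i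

theorem ite_le (p : Prop) [Decidable p] : |(if p then 1 else 0 : ℝ)| ≤ 1 := by
  split_ifs <;> simp

theorem tab : ∀ i : Fin 10, i.val < 4 → sv i ∉ Bs (lev (sv i)) ∧ lev (sv i) ≠ 2 ∧
    (i = vi (lev (sv i)) ∨ i = vj (lev (sv i))) := by decide

end KTDirJ

open KTDirJ in
theorem TDir_pf (hDirG : DirG) (hPrim : CPrim) (hLin : CLin) (hSz : CSz) : TDir := by
  obtain ⟨B0, h0⟩ := hDirG 25
  refine ⟨B0, fun B hB => ?_⟩
  obtain ⟨N1, h1⟩ := h0 B hB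
  obtain ⟨N2, h2⟩ := hSz.big 0 21
  refine ⟨N1 + N2, fun X Z hR hX i hi R hRB E g hE hg hlow hk hRg hoth => ?_⟩
  have hL : 21 ≤ LL X := (h2 X Z hR (by omega)).1
  obtain ⟨t1, t2, t3⟩ := tab i hi
  obtain ⟨Γ, hΓ⟩ : ∃ Γ, Γ = 21 * LL X := ⟨_, rfl⟩
  have hΓ1 : 1 ≤ Γ := by linarith
  set T : Finset (Fin 12) := univ.filter fun σ => σ ∉ R ∧ σ ≠ sv i ∧ i ∉ dp σ with hT
  have hkR : sv i ∉ R := fun h => t1 (hRB h)
  have key := h1 X Z hR (by omega) i hi R hRB (fun s v => cp v * BB E v *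
    (if Prims (lev (sv i)) v then 1 else 0) * ∏ σ ∈ T, clamp (g σ (qq s v σ) / Γ))
    (fun s v => by
      rw [abs_mul, abs_mul, abs_mul]
      exact mul_le_one₀ (mul_le_one₀ (mul_le_one₀ (ite_le _) (abs_nonneg _)
        (KTDirJ.abs_prod _ _ fun _ => ite_le _)) (abs_nonneg _) (ite_le _)) (abs_nonneg _)
        (KTDirJ.abs_prod _ _ fun _ => clamp_le _))
    (fun s v t => by
      have e1 : cp (Function.update v i t) = cp v := by
        unfold cp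
        refine if_congr (forall₂_congr fun a b => forall₃_congr fun ha hb _ => ?_) rfl rfl
        rw [Function.update_of_ne (fun h => by rw [h] at ha; omega),
          Function.update_of_ne (fun h => by rw [h] at hb; omega)]
      have e2 : BB E (Function.update v i t) = BB E v := prod_congr rfl fun p hp => by
        rw [Function.update_of_ne (hE p hp).1, Function.update_of_ne (hE p hp).2]
      have e3 : Prims (lev (sv i)) (Function.update v i t) ↔ Prims (lev (sv i)) v :=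
        forall₂_congr fun σ _ => by rw [(hLin.inv _ σ v t i t3).1, (hLin.inv _ σ v t i t3).2]
      beta_reduce
      rw [e1, e2, if_congr e3 rfl rfl]
      congr 1
      refine prod_congr rfl fun σ hσ => ?_
      rw [qq, qq, (hLin.dep σ i (mem_filter.1 hσ).2.2.2 v t).1])
    (fun s v h => by
      by_contra hp
      exact h (by rw [if_neg hp]; ring))
  have e : TS X Z cp E g = Γ ^ T.card * SS X Z fun s v => cp v * BB E v *
      (if Prims (lev (sv i)) v then 1 else 0) * (∏ σ ∈ T, clamp (g σ (qq s v σ) / Γ)) *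
      gg (WW B (X (sc (sv i)))) (qq s v (sv i)) *
      ∏ σ ∈ R, shp (WW B (X (sc (sv i)))) (qq s v σ) := by
    rw [TS, SS, SS, mul_sum]
    refine sum_congr rfl fun s hs => ?_
    rw [mul_sum]
    refine sum_congr rfl fun v hv => ?_
    have p1 : ∏ σ, g σ (qq s v σ) = (∏ σ ∈ T, g σ (qq s v σ)) *
        (gg (WW B (X (sc (sv i)))) (qq s v (sv i)) *
          ∏ σ ∈ R, shp (WW B (X (sc (sv i)))) (qq s v σ)) := by
      rw [← prod_subset (subset_univ (T ∪ insert (sv i) R)) fun σ _ h => ?_, prod_union,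
        prod_insert hkR, hk, prod_congr rfl fun σ hσ => congrFun (hRg σ hσ) _]
      · refine disjoint_left.2 fun σ h1 h2 => ?_
        rcases mem_insert.1 h2 with h | h
        · exact (mem_filter.1 h1).2.2.1 h
        · exact (mem_filter.1 h1).2.1 h
      · simp only [hT, mem_union, mem_filter, mem_univ, true_and, mem_insert, not_or] at h
        rcases hoth σ h.2.2 h.2.1 with h3 | h3
        · exact absurd ⟨h.2.2, h.2.1, h3⟩ h.1
        · rw [h3, one]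
    have p2 : ∏ σ ∈ T, g σ (qq s v σ) = Γ ^ T.card * ∏ σ ∈ T, clamp (g σ (qq s v σ) / Γ) := by
      rw [← prod_const, ← prod_mul_distrib]
      refine prod_congr rfl fun σ _ => (clamp_eq (by linarith) ?_).symm
      obtain ⟨r1, r2, -⟩ := hPrim.rng X Z hR s hs v hv σ
      rw [hΓ]
      exact hg σ _ (le_trans (by positivity) r1) r2
    by_cases hp : Prims (lev (sv i)) v
    · rw [if_pos hp, p1, p2]
      ring
    · rw [if_neg hp]
      have : GG s v * (cp v * BB E v * ∏ σ, g σ (qq s v σ)) = 0 := by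
        by_contra hne
        have a1 := (hLin.gg01 s v).2 (left_ne_zero_of_mul hne)
        have a2 := right_ne_zero_of_mul hne
        have a3 : Cop v := by
          by_contra hc
          exact a2 (by rw [cp, if_neg hc]; ring)
        have a4 := prod_ne_zero_iff.1 (right_ne_zero_of_mul a2)
        have a5 : ∀ σ, g σ = lam → (qq s v σ).toNat.Prime := fun σ h =>
          prime_of (h ▸ a4 σ (mem_univ σ))
        obtain ⟨b1, b2⟩ := hPrim.prims X Z hR s hs v hv a1 a3 (a5 4 (hlow.1 t2).1)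
          (a5 5 (hlow.1 t2).2)
        generalize lev (sv i) = ℓ at hp t2 hlow
        fin_cases ℓ
        · exact hp (b2 (a5 8 (hlow.2 rfl).1) (a5 9 (hlow.2 rfl).2))
        · exact hp b1
        · exact t2 rfl
      rw [this]
      ring
  have hV : 0 ≤ Vol X := prod_nonneg fun i _ => Nat.cast_nonneg _
  have c1 : Γ ^ T.card ≤ LL X ^ 25 := by
    calc Γ ^ T.card ≤ Γ ^ 12 := pow_le_pow_right₀ hΓ1 (by simpa using card_le_univ T)
      _ ≤ (LL X ^ 2) ^ 12 := by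
        refine pow_le_pow_left₀ (by linarith) ?_ _
        rw [hΓ]
        nlinarith
      _ = LL X ^ 24 := by ring
      _ ≤ LL X ^ 25 := pow_le_pow_right₀ (by linarith) (by norm_num)
  have c2 : 0 < LL X ^ 25 := pow_pos (by linarith) _
  rw [e, abs_mul, abs_of_nonneg (by positivity)]
  calc _ ≤ LL X ^ 25 * (Vol X / LL X ^ 25) := mul_le_mul c1 key (abs_nonneg _) c2.le
    _ = Vol X := by field_simp

end Pool.Agent.MP_e23604_nt.U

end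
end

section

/-!
The step `CBd`.
-/

open Finset
open scoped Classical

noncomputable section

namespace Pool.Agent.MP_e23604_nt.U

open P (lam shp gg PW cW Rough WW ES mu flat tau NN)

theorem CBd_pf (hSz : CSz) : CBd := by
  intro B
  obtain ⟨N1, h1⟩ := hSz.wt B
  obtain ⟨N2, h2⟩ := hSz.big 0 1
  refine ⟨N1 + N2, fun X Z hR hX g hg σ u hu0 hu => ?_⟩
  have hw := h1 X Z hR (by omega)
  have hL : 1 ≤ LL X := (h2 X Z hR (by omega)).1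
  have hlam : 0 ≤ lam u ∧ lam u ≤ 20 * LL X := by
    unfold lam
    split_ifs with hp
    · have h2u : (2 : ℤ) ≤ u := by have := hp.two_le; omega
      have h1u : (1 : ℝ) ≤ u := by exact_mod_cast (by omega : (1 : ℤ) ≤ u)
      refine ⟨Real.log_nonneg h1u, ?_⟩
      have hu' : (u : ℝ) ≤ (X 0 : ℝ) ^ 20 := by exact_mod_cast hu
      have := Real.log_le_log (by linarith) hu'
      rw [Real.log_pow] at this
      simpa [LL] using this
    · exact ⟨le_rfl, by linarith⟩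
  have hshp : ∀ i : Fin 10, i ≠ 1 → 0 ≤ shp (WW B (X i)) u ∧ shp (WW B (X i)) u ≤ LL X := by
    intro i hi
    have h0 : 0 ≤ cW (WW B (X i)) := prod_nonneg fun q _ => inv_nonneg.2 (by
      rcases Nat.eq_zero_or_pos q with rfl | hq
      · simp
      · have : (1 : ℝ) ≤ q := by exact_mod_cast hq
        rw [sub_nonneg, div_le_one (by linarith)]
        exact this)
    unfold shp
    split_ifs
    · exact ⟨h0, (hw i hi).1⟩
    · exact ⟨le_rfl, by linarith⟩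
  rcases hg σ with h | h | ⟨i, hi, h | h⟩ <;> rw [h, abs_le]
  · constructor <;> linarith [hlam.1, hlam.2]
  · unfold one
    constructor <;> linarith
  · constructor <;> linarith [(hshp i hi).1, (hshp i hi).2]
  · unfold gg
    constructor <;> linarith [(hshp i hi).1, (hshp i hi).2, hlam.1, hlam.2]

end Pool.Agent.MP_e23604_nt.U

end
end

section

/-!
The step `CLev1`.
-/

open Finset
open scoped Classical

noncomputable section

namespace Pool.Agent.MP_e23604_nt.U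

open P (lam shp gg PW cW Rough WW ES mu flat tau NN)

namespace KLev1J

def hh (W : ℕ) (R : Finset (Fin 12)) : GW := fun σ => if σ ∈ R then shp W else lam

def hu (W : ℕ) (R : Finset (Fin 12)) (k : Fin 12) : GW := Function.update (hh W R) k (gg W)

theorem lin (X : Fin 10 → ℕ) (Z : ℕ) (c : V10 → ℝ) (E : Finset (Fin 10 × Fin 10)) (W : ℕ)
    {R : Finset (Fin 12)} {k : Fin 12} (hk : k ∉ R) :
    TS X Z c E (hh W R) = TS X Z c E (hh W (insert k R)) + TS X Z c E (hu W R k) := by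
  simp only [TS, SS, ← sum_add_distrib]
  refine sum_congr rfl fun s _ => sum_congr rfl fun v _ => ?_
  have e1 : ∏ σ ∈ univ.erase k, hh W (insert k R) σ (qq s v σ) =
      ∏ σ ∈ univ.erase k, hh W R σ (qq s v σ) :=
    prod_congr rfl fun σ hσ => by simp [hh, (mem_erase.1 hσ).1]
  have e2 : ∏ σ ∈ univ.erase k, hu W R k σ (qq s v σ) =
      ∏ σ ∈ univ.erase k, hh W R σ (qq s v σ) :=
    prod_congr rfl fun σ hσ => by rw [hu, Function.update_of_ne (mem_erase.1 hσ).1]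
  simp only [← mul_prod_erase univ _ (mem_univ k), e1, e2]
  simp only [hh, hu, if_neg hk, if_pos (mem_insert_self k R), Function.update_self, gg]
  ring

theorem h_in {W : ℕ} {R : Finset (Fin 12)} {σ : Fin 12} (h : σ ∈ R) : hh W R σ = shp W := if_pos h

theorem h_out {W : ℕ} {R : Finset (Fin 12)} {σ : Fin 12} (h : σ ∉ R) : hh W R σ = lam := if_neg h

theorem u_ne {W : ℕ} {R : Finset (Fin 12)} {σ k : Fin 12} (h : σ ≠ k) : hu W R k σ = hh W R σ :=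
  Function.update_of_ne h _ _

theorem u_eq {W : ℕ} {R : Finset (Fin 12)} {k : Fin 12} : hu W R k k = gg W :=
  Function.update_self _ _ _

theorem u_in {W : ℕ} {R R' : Finset (Fin 12)} {k : Fin 12} (h : ∀ σ ∈ R', σ ≠ k ∧ σ ∈ R) :
    ∀ σ ∈ R', hu W R k σ = shp W := fun σ hσ => (u_ne (h σ hσ).1).trans (h_in (h σ hσ).2)

theorem u_low {W : ℕ} {R : Finset (Fin 12)} {k : Fin 12} (ℓ : Fin 3)
    (h : ∀ σ ∈ ({4, 5, 8, 9} : Finset (Fin 12)), σ ≠ k ∧ σ ∉ R) : Low ℓ (hu W R k) := by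
  have : ∀ σ ∈ ({4, 5, 8, 9} : Finset (Fin 12)), hu W R k σ = lam := fun σ hσ =>
    (u_ne (h σ hσ).1).trans (h_out (h σ hσ).2)
  exact ⟨fun _ => ⟨this 4 (by decide), this 5 (by decide)⟩,
    fun _ => ⟨this 8 (by decide), this 9 (by decide)⟩⟩

theorem halve {α : Type} [DecidableEq α] (T : Finset α → ℝ) (V : ℝ) (hV : 0 ≤ V) (E D : Finset α)
    (hd : Disjoint E D) (h : ∀ F ⊆ E ∪ D, ∀ p ∈ F, p ∈ D → 1 / 2 * T (F.erase p) - V ≤ T F) :
    (1 / 2) ^ D.card * T E - 2 * V ≤ T (E ∪ D) := by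
  induction D using Finset.induction_on with
  | empty => simpa using hV
  | insert p D hp ih =>
    rw [disjoint_insert_right] at hd
    have h1 := h _ subset_rfl p (mem_union_right _ (mem_insert_self p D)) (mem_insert_self p D)
    have h2 := ih hd.2 fun F hF q hq hq' => h F
      (hF.trans (union_subset_union_right (subset_insert p D))) q hq (mem_insert_of_mem hq')
    rw [union_insert, erase_insert (by simp [hd.1, hp])] at h1
    rw [union_insert, card_insert_of_notMem hp, pow_succ]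
    linarith

theorem or3 {p q r : Prop} (h : p ∨ q) : p ∨ q ∨ r := h.imp_right Or.inl

end KLev1J

open KLev1J in
theorem CLev1_pf (hTDl : TDl) (hTRep : TRep) (hTBit : TBit) (hTDir : TDir) (hTFun : TFun)
    (hBd : CBd) : CLev1 := by
  obtain ⟨B1, h1⟩ := hTDl
  obtain ⟨B2, h2⟩ := hTRep
  obtain ⟨B3, h3⟩ := hTDir
  obtain ⟨c0, hc0, h4⟩ := hTFun
  obtain ⟨N1, h1⟩ := h1 (B1 + B2 + B3) (by omega)
  obtain ⟨N2, h2⟩ := h2 (B1 + B2 + B3) (by omega)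
  obtain ⟨N3, h3⟩ := h3 (B1 + B2 + B3) (by omega)
  obtain ⟨N4, h4⟩ := h4 (B1 + B2 + B3)
  obtain ⟨N5, h5⟩ := hTBit (B1 + B2 + B3)
  obtain ⟨N6, h6⟩ := hBd (B1 + B2 + B3)
  refine ⟨(1 / 2) ^ (EP 0 \ EP 2).card * c0, 9, by positivity, N1 + N2 + N3 + N4 + N5 + N6,
    fun X Z hX hN => ?_⟩
  replace h1 := h1 X Z hX (by omega)
  replace h2 := h2 X Z hX (by omega)
  replace h3 := h3 X Z hX (by omega)
  replace h4 := (h4 X Z hX (by omega)).1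
  replace h5 := h5 X Z hX (by omega)
  replace h6 := h6 X Z hX (by omega)
  clear hX hN
  generalize B1 + B2 + B3 = B at *
  have hV : 0 ≤ Vol X := prod_nonneg fun _ _ => Nat.cast_nonneg _
  have b0 : ∀ R σ, hh (WW B (X 0)) R σ = lam ∨ hh (WW B (X 0)) R σ = one ∨ ∃ i : Fin 10, i ≠ 1 ∧
      (hh (WW B (X 0)) R σ = shp (WW B (X i)) ∨ hh (WW B (X 0)) R σ = gg (WW B (X i))) :=
    fun R σ => (em (σ ∈ R)).elim (fun h => Or.inr (Or.inr ⟨0, by decide, Or.inl (h_in h)⟩))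
      fun h => Or.inl (h_out h)
  have b1 : ∀ R, Bd X (hh (WW B (X 0)) R) := fun R => h6 _ (b0 R)
  have b2 : ∀ R k, Bd X (hu (WW B (X 0)) R k) := fun R k => h6 _ fun σ => by
    by_cases h : σ = k
    · exact Or.inr (Or.inr ⟨0, by decide, Or.inr (h ▸ u_eq)⟩)
    · rw [u_ne h]
      exact b0 R σ
  have s1 := h1 _ subset_rfl _ (b2 ∅ 11) ((u_ne (by decide)).trans (h_out (by decide))) u_eq
  have s2 := h2 (6, 9) (by decide) {11} (by decide) _ subset_rfl _ (b2 {11} 6)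
    (u_low _ (by decide)) u_eq (u_in (by decide))
    fun σ a b => or3 (by revert σ; decide)
  have s3 := h2 (7, 7) (by decide) {6, 11} (by decide) _ subset_rfl _ (b2 {6, 11} 7)
    (u_low _ (by decide)) u_eq (u_in (by decide))
    fun σ a b => or3 (by revert σ; decide)
  have s4 := h2 (10, 6) (by decide) {7, 6, 11} (by decide) _ subset_rfl _ (b2 {7, 6, 11} 10)
    (u_low _ (by decide)) u_eq (u_in (by decide))
    fun σ a b => or3 (by revert σ; decide)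
  have s6 := h3 0 (by decide) {10, 7, 6, 11} (by decide) (EP 2) _ (by decide)
    (b2 {10, 7, 6, 11} 0) (u_low _ (by decide)) u_eq (u_in (by decide))
    fun σ a b => Or.inl (by revert σ; decide)
  have s7 := h3 1 (by decide) {10, 7, 6, 11} (by decide) (EP 2) _ (by decide)
    (b2 {0, 10, 7, 6, 11} 1) (u_low _ (by decide)) u_eq (u_in (by decide))
    fun σ a b => Or.inl (by revert σ; decide)
  have hu : EP 2 ∪ EP 0 \ EP 2 = EP 0 := union_sdiff_of_subset (by decide)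
  have d : ∀ p ∈ EP 0 \ EP 2, sv p.1 ∉ ({10, 7, 6, 11} : Finset (Fin 12)) ∧
      sv p.2 ∉ ({10, 7, 6, 11} : Finset (Fin 12)) ∧
      ∀ σ, σ ∉ ({10, 7, 6, 11} : Finset (Fin 12)) → p.1 ∉ dp σ ∨ p.2 ∉ dp σ := by decide
  have s5 := halve (fun E => TS X Z cp E (hh (WW B (X 0)) {10, 7, 6, 11})) (Vol X) hV (EP 2)
    (EP 0 \ EP 2) disjoint_sdiff fun F hF p hp hp' => by
      have := h5 F (hu ▸ hF) p hp 0 (by decide) {10, 7, 6, 11} _ (b1 {10, 7, 6, 11})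
        (h_out (d p hp').1) (h_out (d p hp').2.1) (d p hp').1 (d p hp').2.1 (fun _ => h_in)
        fun σ hσ => or3 ((d p hp').2.2 σ hσ)
      linarith [(abs_le.1 this).1]
  rw [hu] at s5
  have l1 := lin X Z cp (EP 0) (WW B (X 0)) (R := ∅) (k := 11) (by decide)
  have l2 := lin X Z cp (EP 0) (WW B (X 0)) (R := {11}) (k := 6) (by decide)
  have l3 := lin X Z cp (EP 0) (WW B (X 0)) (R := {6, 11}) (k := 7) (by decide)
  have l4 := lin X Z cp (EP 0) (WW B (X 0)) (R := {7, 6, 11}) (k := 10) (by decide)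
  have l6 := lin X Z cp (EP 2) (WW B (X 0)) (R := {10, 7, 6, 11}) (k := 0) (by decide)
  have l7 := lin X Z cp (EP 2) (WW B (X 0)) (R := {0, 10, 7, 6, 11}) (k := 1) (by decide)
  have e0 : gl univ = hh (WW B (X 0)) ∅ := funext fun σ => by simp [gl, hh]
  have e1 : (fun σ => if lev σ = 0 then shp (WW B (X 0)) else gl {2, 3, 4, 5, 8, 9} σ) =
      hh (WW B (X 0)) {1, 0, 10, 7, 6, 11} := funext fun σ => by
    have : ∀ σ : Fin 12, (lev σ = 0 ∧ σ ∈ ({1, 0, 10, 7, 6, 11} : Finset (Fin 12))) ∨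
        (lev σ ≠ 0 ∧ σ ∉ ({1, 0, 10, 7, 6, 11} : Finset (Fin 12)) ∧
          σ ∈ ({2, 3, 4, 5, 8, 9} : Finset (Fin 12))) := by decide
    rcases this σ with h | h
    · rw [if_pos h.1, h_in h.2]
    · rw [if_neg h.1, h_out h.2.1, gl, if_pos h.2.2]
  rw [e1] at h4
  rw [insert_empty_eq] at l1
  have q0 : (0 : ℝ) ≤ (1 / 2) ^ (EP 0 \ EP 2).card := by positivity
  have q1 : (1 / 2 : ℝ) ^ (EP 0 \ EP 2).card ≤ 1 := pow_le_one₀ (by norm_num) (by norm_num)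
  have t : c0 * TS X Z cp (EP 2) (gl {2, 3, 4, 5, 8, 9}) - 3 * Vol X ≤
      TS X Z cp (EP 2) (hh (WW B (X 0)) {10, 7, 6, 11}) := by
    linarith [(abs_le.1 s6).1, (abs_le.1 s7).1]
  have t1 := mul_le_mul_of_nonneg_left t q0
  have t2 := mul_le_mul_of_nonneg_right q1 hV
  rw [e0]
  linarith [(abs_le.1 s1).1, (abs_le.1 s2).1, (abs_le.1 s3).1, (abs_le.1 s4).1]

end Pool.Agent.MP_e23604_nt.U

end
end

section

/-!
The step `CLev2`.
-/

open Finset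
open scoped Classical

noncomputable section

namespace Pool.Agent.MP_e23604_nt.U

open P (lam shp gg PW cW Rough WW ES mu flat tau NN)

namespace KLev2J

def S6 : Finset (Fin 12) := {2, 3, 4, 5, 8, 9}

def hh (W : ℕ) (R : Finset (Fin 12)) : GW := fun σ => if σ ∈ R then shp W else gl S6 σ

def hu (W : ℕ) (R : Finset (Fin 12)) (k : Fin 12) : GW := Function.update (hh W R) k (gg W)

theorem h_in {W : ℕ} {R : Finset (Fin 12)} {σ : Fin 12} (h : σ ∈ R) : hh W R σ = shp W := if_pos h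

theorem h_out {W : ℕ} {R : Finset (Fin 12)} {σ : Fin 12} (h : σ ∉ R ∧ σ ∈ S6) :
    hh W R σ = lam := (if_neg h.1).trans (if_pos h.2)

theorem h_one {W : ℕ} {R : Finset (Fin 12)} {σ : Fin 12} (h : σ ∉ R ∧ σ ∉ S6) :
    hh W R σ = one := (if_neg h.1).trans (if_neg h.2)

theorem u_ne {W : ℕ} {R : Finset (Fin 12)} {σ k : Fin 12} (h : σ ≠ k) : hu W R k σ = hh W R σ :=
  Function.update_of_ne h _ _

theorem u_eq {W : ℕ} {R : Finset (Fin 12)} {k : Fin 12} : hu W R k k = gg W :=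
  Function.update_self _ _ _

theorem lin (X : Fin 10 → ℕ) (Z : ℕ) (c : V10 → ℝ) (E : Finset (Fin 10 × Fin 10)) (W : ℕ)
    {R : Finset (Fin 12)} {k : Fin 12} (hk : k ∉ R ∧ k ∈ S6) :
    TS X Z c E (hh W R) = TS X Z c E (hh W (insert k R)) + TS X Z c E (hu W R k) := by
  simp only [TS, SS, ← sum_add_distrib]
  refine sum_congr rfl fun s _ => sum_congr rfl fun v _ => ?_
  have e1 : ∏ σ ∈ univ.erase k, hh W (insert k R) σ (qq s v σ) =
      ∏ σ ∈ univ.erase k, hh W R σ (qq s v σ) :=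
    prod_congr rfl fun σ hσ => by simp [hh, (mem_erase.1 hσ).1]
  have e2 : ∏ σ ∈ univ.erase k, hu W R k σ (qq s v σ) =
      ∏ σ ∈ univ.erase k, hh W R σ (qq s v σ) :=
    prod_congr rfl fun σ hσ => by rw [u_ne (mem_erase.1 hσ).1]
  simp only [← mul_prod_erase univ _ (mem_univ k), e1, e2]
  simp only [h_out hk, h_in (mem_insert_self k R), u_eq, gg]
  ring

theorem u_in {W : ℕ} {R R' : Finset (Fin 12)} {k : Fin 12} (h : ∀ σ ∈ R', σ ≠ k ∧ σ ∈ R) :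
    ∀ σ ∈ R', hu W R k σ = shp W := fun σ hσ => (u_ne (h σ hσ).1).trans (h_in (h σ hσ).2)

theorem u_low {W : ℕ} {R : Finset (Fin 12)} {k : Fin 12} {ℓ : Fin 3} (h0 : ℓ ≠ 0)
    (h : ∀ σ ∈ ({4, 5} : Finset (Fin 12)), σ ≠ k ∧ σ ∉ R ∧ σ ∈ S6) : Low ℓ (hu W R k) := by
  have : ∀ σ ∈ ({4, 5} : Finset (Fin 12)), hu W R k σ = lam := fun σ hσ =>
    (u_ne (h σ hσ).1).trans (h_out (h σ hσ).2)
  exact ⟨fun _ => ⟨this 4 (by decide), this 5 (by decide)⟩, fun H => absurd H h0⟩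

theorem u_or {W : ℕ} {R R' : Finset (Fin 12)} {k k' : Fin 12} {p : Fin 12 → Prop}
    (h : ∀ σ, σ ∉ R' → σ ≠ k' → p σ ∨ (σ ≠ k ∧ σ ∉ R ∧ σ ∉ S6)) :
    ∀ σ, σ ∉ R' → σ ≠ k' → p σ ∨ hu W R k σ = one := fun σ a b =>
  (h σ a b).imp_right fun h => (u_ne h.1).trans (h_one h.2)

end KLev2J

open KLev2J in
theorem CLev2_pf (hTRep : TRep) (hTBit : TBit) (hTDir : TDir) (hTFun : TFun) (hBd : CBd) :
    CLev2 := by
  obtain ⟨B2, h2⟩ := hTRep
  obtain ⟨B3, h3⟩ := hTDir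
  obtain ⟨c0, hc0, h4⟩ := hTFun
  obtain ⟨N2, h2⟩ := h2 (B2 + B3) (by omega)
  obtain ⟨N3, h3⟩ := h3 (B2 + B3) (by omega)
  obtain ⟨N4, h4⟩ := h4 (B2 + B3)
  obtain ⟨N5, h5⟩ := hTBit (B2 + B3)
  obtain ⟨N6, h6⟩ := hBd (B2 + B3)
  refine ⟨(1 / 2) ^ (EP 2 \ EP 4).card * c0, 7, by positivity, N2 + N3 + N4 + N5 + N6,
    fun X Z hX hN => ?_⟩
  replace h2 := h2 X Z hX (by omega)
  replace h3 := h3 X Z hX (by omega)
  replace h4 := (h4 X Z hX (by omega)).2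
  replace h5 := h5 X Z hX (by omega)
  replace h6 := h6 X Z hX (by omega)
  clear hX hN
  generalize B2 + B3 = B at *
  have hV : 0 ≤ Vol X := prod_nonneg fun _ _ => Nat.cast_nonneg _
  have b0 : ∀ R σ, hh (WW B (X 2)) R σ = lam ∨ hh (WW B (X 2)) R σ = one ∨ ∃ i : Fin 10, i ≠ 1 ∧
      (hh (WW B (X 2)) R σ = shp (WW B (X i)) ∨ hh (WW B (X 2)) R σ = gg (WW B (X i))) :=
    fun R σ => (em (σ ∈ R)).elim (fun h => Or.inr (Or.inr ⟨2, by decide, Or.inl (h_in h)⟩))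
      fun h => (em (σ ∈ S6)).elim (fun h' => Or.inl (h_out ⟨h, h'⟩))
        fun h' => Or.inr (Or.inl (h_one ⟨h, h'⟩))
  have b1 : ∀ R, Bd X (hh (WW B (X 2)) R) := fun R => h6 _ (b0 R)
  have b2 : ∀ R k, Bd X (hu (WW B (X 2)) R k) := fun R k => h6 _ fun σ => by
    by_cases h : σ = k
    · exact Or.inr (Or.inr ⟨2, by decide, Or.inr (h ▸ u_eq)⟩)
    · rw [u_ne h]
      exact b0 R σ
  have sub : EP 2 ⊆ EP 0 := by decide
  have s2 := h2 (3, 8) (by decide) ∅ (by decide) _ sub _ (b2 ∅ 3)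
    (u_low (by decide) (by decide)) u_eq (u_in (by decide))
    fun σ a b => or_assoc.1 (u_or (p := fun σ => 8 ∉ dp σ ∨ σ ∉ Act 1) (by decide) σ a b)
  have s3 := h2 (2, 6) (by decide) {3} (by decide) _ sub _ (b2 {3} 2)
    (u_low (by decide) (by decide)) u_eq (u_in (by decide))
    fun σ a b => or_assoc.1 (u_or (p := fun σ => 6 ∉ dp σ ∨ σ ∉ Act 1) (by decide) σ a b)
  have s6 := h3 2 (by decide) {2, 3} (by decide) (EP 4) _ (by decide)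
    (b2 {2, 3} 8) (u_low (by decide) (by decide)) u_eq (u_in (by decide)) (u_or (by decide))
  have s7 := h3 3 (by decide) {2, 3} (by decide) (EP 4) _ (by decide)
    (b2 {8, 2, 3} 9) (u_low (by decide) (by decide)) u_eq (u_in (by decide)) (u_or (by decide))
  have hu : EP 4 ∪ EP 2 \ EP 4 = EP 2 := union_sdiff_of_subset (by decide)
  have d : ∀ p ∈ EP 2 \ EP 4, (sv p.1 ∉ ({2, 3} : Finset (Fin 12)) ∧ sv p.1 ∈ S6) ∧
      (sv p.2 ∉ ({2, 3} : Finset (Fin 12)) ∧ sv p.2 ∈ S6) ∧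
      ∀ σ, (p.1 ∉ dp σ ∨ p.2 ∉ dp σ) ∨ σ ∈ ({2, 3} : Finset (Fin 12)) ∨ σ ∉ S6 := by decide
  have s5 := KLev1J.halve (fun E => TS X Z cp E (hh (WW B (X 2)) {2, 3})) (Vol X) hV (EP 4)
    (EP 2 \ EP 4) disjoint_sdiff fun F hF p hp hp' => by
      have := h5 F ((hu ▸ hF : F ⊆ EP 2).trans sub) p hp 2 (by decide) {2, 3} _ (b1 {2, 3})
        (h_out (d p hp').1) (h_out (d p hp').2.1) (d p hp').1.1 (d p hp').2.1.1 (fun _ => h_in)
        fun σ hσ => or_assoc.1 (((d p hp').2.2 σ).imp_right fun h =>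
          h_one ⟨hσ, h.resolve_left hσ⟩)
      linarith [(abs_le.1 this).1]
  rw [hu] at s5
  have l1 := lin X Z cp (EP 2) (WW B (X 2)) (R := ∅) (k := 3) (by decide)
  have l2 := lin X Z cp (EP 2) (WW B (X 2)) (R := {3}) (k := 2) (by decide)
  have l6 := lin X Z cp (EP 4) (WW B (X 2)) (R := {2, 3}) (k := 8) (by decide)
  have l7 := lin X Z cp (EP 4) (WW B (X 2)) (R := {8, 2, 3}) (k := 9) (by decide)
  have e0 : gl {2, 3, 4, 5, 8, 9} = hh (WW B (X 2)) ∅ := funext fun σ => by simp [hh, S6]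
  have e1 : (fun σ => if lev σ = 1 then shp (WW B (X 2)) else gl {4, 5} σ) =
      hh (WW B (X 2)) {9, 8, 2, 3} := funext fun σ => by
    have : ∀ σ : Fin 12, (lev σ = 1 ∧ σ ∈ ({9, 8, 2, 3} : Finset (Fin 12))) ∨
        (lev σ ≠ 1 ∧ (σ ∉ ({9, 8, 2, 3} : Finset (Fin 12)) ∧ σ ∈ S6) ∧
          σ ∈ ({4, 5} : Finset (Fin 12))) ∨
        (lev σ ≠ 1 ∧ (σ ∉ ({9, 8, 2, 3} : Finset (Fin 12)) ∧ σ ∉ S6) ∧
          σ ∉ ({4, 5} : Finset (Fin 12))) := by decide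
    rcases this σ with h | h | h
    · rw [if_pos h.1, h_in h.2]
    · rw [if_neg h.1, h_out h.2.1, gl, if_pos h.2.2]
    · rw [if_neg h.1, h_one h.2.1, gl, if_neg h.2.2]
  rw [e1] at h4
  rw [insert_empty_eq] at l1
  have q0 : (0 : ℝ) ≤ (1 / 2) ^ (EP 2 \ EP 4).card := by positivity
  have q1 : (1 / 2 : ℝ) ^ (EP 2 \ EP 4).card ≤ 1 := pow_le_one₀ (by norm_num) (by norm_num)
  have t : c0 * TS X Z cp (EP 4) (gl {4, 5}) - 3 * Vol X ≤
      TS X Z cp (EP 4) (hh (WW B (X 2)) {2, 3}) := by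
    linarith [(abs_le.1 s6).1, (abs_le.1 s7).1]
  have t1 := mul_le_mul_of_nonneg_left t q0
  have t2 := mul_le_mul_of_nonneg_right q1 hV
  rw [e0]
  linarith [(abs_le.1 s2).1, (abs_le.1 s3).1]

end Pool.Agent.MP_e23604_nt.U

end
end

section

/-!
The step `IC`.
-/

open Finset
open scoped Classical

noncomputable section

namespace Pool.Agent.MP_e23604_nt.U

open P (lam shp gg PW cW Rough WW ES mu flat tau NN)

theorem IC_of (hTSpin : TSpin) (hLev1 : CLev1) (hLev2 : CLev2) (hLev3 : CLev3)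
    (hSz : CSz) : IC := by
  obtain ⟨N0, h0⟩ := hTSpin
  obtain ⟨c1, C1, p1, N1, h1⟩ := hLev1
  obtain ⟨c2, C2, p2, N2, h2⟩ := hLev2
  obtain ⟨c3, C3, p3, N3, h3⟩ := hLev3
  obtain ⟨c, hc⟩ : ∃ c, c = c1 * c2 * c3 / 16 := ⟨_, rfl⟩
  obtain ⟨C, hC⟩ : ∃ C, C = (c1 * c2 * C3 + c1 * C2 + C1) / 16 + 1 := ⟨_, rfl⟩
  have pc : 0 < c := by rw [hc]; positivity
  obtain ⟨N4, h4⟩ := hSz.big 0 (2 * |C| / c + 1)
  refine ⟨c / 2, by positivity, N0 + N1 + N2 + N3 + N4, fun X Z hR hX => ?_⟩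
  have a0 := (abs_le.1 (h0 X Z hR (by omega))).1
  have a1 := h1 X Z hR (by omega)
  have a2 := h2 X Z hR (by omega)
  have a3 := h3 X Z hR (by omega)
  beta_reduce at a1 a2 a3
  have a4 := (h4 X Z hR (by omega)).1
  have hV : 0 ≤ Vol X := prod_nonneg fun i _ => Nat.cast_nonneg _
  have q0 : 0 ≤ 2 * |C| / c := by positivity
  have hL : 1 ≤ LL X := by linarith
  have q1 : LL X ≤ LL X ^ 12 := le_self_pow₀ hL (by norm_num)
  have q2 : 2 * |C| ≤ c * LL X ^ 12 := by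
    have : 2 * |C| / c ≤ LL X ^ 12 := by linarith
    rw [div_le_iff₀ pc] at this
    linarith
  have q3 : C * Vol X ≤ c / 2 * Vol X * LL X ^ 12 := by
    have := mul_le_mul_of_nonneg_right (show C ≤ c * LL X ^ 12 / 2 by linarith [le_abs_self C]) hV
    linarith
  have b2 := mul_le_mul_of_nonneg_left a3 p2.le
  have b1 := mul_le_mul_of_nonneg_left (show c2 * (c3 * Vol X * LL X ^ 12 - C3 * Vol X) -
    C2 * Vol X ≤ _ from le_trans (by linarith) a2) p1.le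
  have : c * Vol X * LL X ^ 12 - C * Vol X ≤ SS X Z F0 := by
    rw [hc, hC]
    linarith
  change c / 2 * Vol X * LL X ^ 12 ≤ _
  linarith

end Pool.Agent.MP_e23604_nt.U

end
end
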