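import Pool.Agent.Mg.Fe23604m.G954648
import Pool.Agent.Mg.Fe23604m.G0311cb

set_option linter.all false

section

/-!
Divisor function of the product of the directions.
-/

open Finset
open scoped Classical

noncomputable section

namespace Pool.Agent.MP_e23604_nt.U

theorem xLGt1_small (n B : ℕ) (h : n ≤ B ^ 2) :
    n.divisors.card ≤ 2 * ((Icc 1 B).filter fun d => d ∣ n).card := by
  have hs : n.divisors ⊆ ((Icc 1 B).filter fun d => d ∣ n) ∪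
      ((Icc 1 B).filter fun d => d ∣ n).image (fun d => n / d) := by
    intro d hd
    obtain ⟨hdn, hn⟩ := Nat.mem_divisors.1 hd
    obtain ⟨e, he⟩ := hdn
    have hd0 : 0 < d := Nat.pos_of_ne_zero (by rintro rfl; simp at he; exact hn he)
    have he0 : 0 < e := Nat.pos_of_ne_zero (by rintro rfl; simp at he; exact hn he)
    by_cases hB : d ≤ B
    · exact mem_union_left _ (mem_filter.2 ⟨mem_Icc.2 ⟨hd0, hB⟩, ⟨e, he⟩⟩)
    · refine mem_union_right _ (mem_image.2 ⟨e, mem_filter.2 ⟨mem_Icc.2 ⟨he0, ?_⟩, ?_⟩, ?_⟩)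
      · by_contra hc
        have : B * B < d * e := Nat.mul_lt_mul'' (by omega) (by omega)
        nlinarith
      · exact ⟨d, by rw [he, mul_comm]⟩
      · rw [he]; exact Nat.mul_div_cancel d he0
  calc n.divisors.card ≤ _ := card_le_card hs
    _ ≤ _ := card_union_le _ _
    _ ≤ _ := by
      have := card_image_le (s := (Icc 1 B).filter fun d => d ∣ n) (f := fun d => n / d)
      omega

theorem xLGt1_harm (B : ℕ) : ∑ k ∈ Icc 1 B, (1 : ℝ) / k ≤ 1 + Real.log B := by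
  have h := harmonic_le_one_add_log B
  rw [harmonic_eq_sum_Icc] at h
  push_cast at h
  simpa [one_div] using h

theorem xLGt1_gsum (B w : ℕ) (hw : w ≠ 0) :
    ∑ d ∈ Icc 1 B, (1 : ℝ) / ((d / Nat.gcd d w : ℕ) : ℝ) ≤ w.divisors.card * (1 + Real.log B) := by
  have hinj : Set.InjOn (fun d : ℕ => (Nat.gcd d w, d / Nat.gcd d w)) (Icc 1 B : Finset ℕ) := by
    intro a _ b _ hab
    simp only [Prod.mk.injEq] at hab
    rw [← Nat.mul_div_cancel' (Nat.gcd_dvd_left a w), ← Nat.mul_div_cancel' (Nat.gcd_dvd_left b w),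
      hab.2]
    rw [hab.1]
  have h1 : ∑ d ∈ Icc 1 B, (1 : ℝ) / ((d / Nat.gcd d w : ℕ) : ℝ) =
      ∑ z ∈ (Icc 1 B).image (fun d : ℕ => (Nat.gcd d w, d / Nat.gcd d w)), (1 : ℝ) / (z.2 : ℝ) := by
    rw [sum_image hinj]
  rw [h1]
  calc _ ≤ ∑ z ∈ w.divisors ×ˢ Icc 1 B, (1 : ℝ) / (z.2 : ℝ) := by
        refine sum_le_sum_of_subset_of_nonneg ?_ (fun _ _ _ => by positivity)
        intro z hz
        obtain ⟨d, hd, rfl⟩ := mem_image.1 hz
        obtain ⟨hd1, hd2⟩ := mem_Icc.1 hd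
        refine mem_product.2 ⟨Nat.mem_divisors.2 ⟨Nat.gcd_dvd_right _ _, hw⟩, mem_Icc.2 ⟨?_, ?_⟩⟩
        · exact Nat.div_pos (Nat.gcd_le_left _ hd1) (Nat.gcd_pos_of_pos_left _ hd1)
        · exact (Nat.div_le_self _ _).trans hd2
    _ = w.divisors.card * ∑ k ∈ Icc 1 B, (1 : ℝ) / k := by
        rw [sum_product]; simp
    _ ≤ _ := mul_le_mul_of_nonneg_left (xLGt1_harm B) (by positivity)

theorem xLGt1_avg (a b : ℤ) (hab : a ≤ b) (S : Finset ℤ) (hS : S ⊆ Ioc a b) (φ : ℤ → ℤ)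
    (K w B : ℕ) (hK : 1 ≤ K) (hw : w ≠ 0)
    (h : ∀ d : ℕ, 1 ≤ d → ∀ x ∈ S, ∀ y ∈ S, (d : ℤ) ∣ φ x → (d : ℤ) ∣ φ y →
      ((K * (d / Nat.gcd d w) : ℕ) : ℤ) ∣ x - y)
    (hb : ∀ x ∈ S, (φ x).natAbs ≤ B ^ 2) :
    ∑ x ∈ S, ta (φ x) ≤
      2 * (((b : ℝ) - a) / K * (w.divisors.card * (1 + Real.log B)) + B) := by
  have hba : (0 : ℝ) ≤ (b : ℝ) - a := by
    have : (a : ℝ) ≤ b := by exact_mod_cast hab
    linarith
  have h1 : ∀ x ∈ S, ta (φ x) ≤
      2 * ∑ d ∈ Icc 1 B, if (d : ℤ) ∣ φ x then (1 : ℝ) else 0 := by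
    intro x hx
    have h2 := xLGt1_small _ B (hb x hx)
    have h3 : (((Icc 1 B).filter fun d => d ∣ (φ x).natAbs).card : ℝ) =
        ∑ d ∈ Icc 1 B, if (d : ℤ) ∣ φ x then (1 : ℝ) else 0 := by
      rw [card_filter]; push_cast
      refine sum_congr rfl fun d _ => ?_
      simp only [Int.natCast_dvd]
    rw [← h3]; unfold ta; exact_mod_cast h2
  have h4 : ∀ d ∈ Icc 1 B, ∑ x ∈ S, (if (d : ℤ) ∣ φ x then (1 : ℝ) else 0) ≤
      ((b : ℝ) - a) / K * (1 / ((d / Nat.gcd d w : ℕ) : ℝ)) + 1 := by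
    intro d hd
    obtain ⟨hd1, _⟩ := mem_Icc.1 hd
    have hq : 1 ≤ d / Nat.gcd d w :=
      Nat.div_pos (Nat.gcd_le_left _ hd1) (Nat.gcd_pos_of_pos_left _ hd1)
    have h5 := card_sparse_le a b hab (D := K * (d / Nat.gcd d w)) (Nat.mul_pos hK hq)
      (S.filter fun x => (d : ℤ) ∣ φ x) ((filter_subset _ _).trans hS)
      (fun x hx y hy => h d hd1 x (mem_filter.1 hx).1 y (mem_filter.1 hy).1 (mem_filter.1 hx).2
        (mem_filter.1 hy).2)
    rw [card_filter] at h5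
    generalize d / Nat.gcd d w = q at h5 ⊢
    push_cast at h5
    refine h5.trans (le_of_eq ?_)
    rw [div_mul_div_comm, mul_one]
  calc ∑ x ∈ S, ta (φ x) ≤ ∑ x ∈ S, 2 * ∑ d ∈ Icc 1 B, if (d : ℤ) ∣ φ x then (1 : ℝ) else 0 :=
        sum_le_sum h1
    _ = 2 * ∑ d ∈ Icc 1 B, ∑ x ∈ S, if (d : ℤ) ∣ φ x then (1 : ℝ) else 0 := by
        rw [← mul_sum, sum_comm]
    _ ≤ 2 * ∑ d ∈ Icc 1 B, (((b : ℝ) - a) / K * (1 / ((d / Nat.gcd d w : ℕ) : ℝ)) + 1) :=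
        mul_le_mul_of_nonneg_left (sum_le_sum h4) (by norm_num)
    _ = 2 * (((b : ℝ) - a) / K * ∑ d ∈ Icc 1 B, (1 / ((d / Nat.gcd d w : ℕ) : ℝ)) + B) := by
        rw [sum_add_distrib, ← mul_sum]; simp
    _ ≤ _ := by
        have := mul_le_mul_of_nonneg_left (xLGt1_gsum B w hw) (show 0 ≤ ((b : ℝ) - a) / K by positivity)
        linarith

theorem xLGt1_mul (a b : ℕ) : (a * b).divisors.card ≤ a.divisors.card * b.divisors.card := by
  rw [Nat.divisors_mul]; exact card_mul_le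

theorem xLGt1_div (N K T : ℕ) (hK : 1 ≤ K) (hN : K ≤ N) (h : 4 * K ^ 2 * T ≤ N ^ 2) :
    T ≤ (N / K) ^ 2 := by
  have h1 : 1 ≤ N / K := Nat.div_pos hN hK
  have h2 : N < K * (N / K + 1) := Nat.lt_mul_div_succ N hK
  have h3 : N ≤ 2 * K * (N / K) := by nlinarith
  have h4 : N ^ 2 ≤ (2 * K * (N / K)) ^ 2 := Nat.pow_le_pow_left h3 2
  have h5 : 4 * K ^ 2 * T ≤ 4 * K ^ 2 * (N / K) ^ 2 := by
    calc _ ≤ _ := h
      _ ≤ _ := h4
      _ = _ := by ring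
  exact Nat.le_of_mul_le_mul_left h5 (by positivity)

theorem xLGt1_sz {p : DP} (h : p.OK 1) :
    1 ≤ Real.log p.M ∧ 8 * p.K ^ 2 ≤ p.V ∧ p.K ≤ p.V ∧ p.V ≤ p.M := by
  obtain ⟨h4, hK, hV, -⟩ := h.sizes
  have h8 : 8 * p.K ^ 2 ≤ p.K ^ 100 := by
    have : p.K ^ 100 = p.K ^ 98 * p.K ^ 2 := by ring
    rw [this]
    refine Nat.mul_le_mul_right _ ?_
    calc 8 ≤ 4 ^ 2 := by norm_num
      _ ≤ p.K ^ 2 := Nat.pow_le_pow_left h4 2
      _ ≤ p.K ^ 98 := Nat.pow_le_pow_right (by omega) (by norm_num)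
  have hKV : p.K ≤ p.V := by nlinarith
  refine ⟨?_, h8.trans hK, hKV, hV⟩
  have h3 : (4 : ℝ) ≤ p.M := by exact_mod_cast (h4.trans (hKV.trans hV))
  rw [Real.le_log_iff_exp_le (by linarith)]
  have := Real.exp_one_lt_d9
  linarith

theorem xLGt1_log {p : DP} (h : p.OK 1) (B : ℕ) (hB : B ≤ p.M) :
    1 + Real.log B ≤ 2 * Real.log p.M := by
  have h1 := (xLGt1_sz h).1
  have h2 : Real.log B ≤ Real.log p.M := by
    rcases Nat.eq_zero_or_pos B with rfl | hB0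
    · simp; linarith
    · exact Real.log_le_log (by exact_mod_cast hB0) (by exact_mod_cast hB)
  linarith

theorem xLGt1_u {p : DP} (h : p.OK 1) :
    ∑ u ∈ p.SU, ta u ≤ 12 * Real.log p.M * p.SU.card := by
  obtain ⟨hl, h8, hKV, hVM⟩ := xLGt1_sz h
  have hK := h.pos
  have h1 := xLGt1_avg (p.V : ℤ) (2 * p.V) (by omega) p.SU (filter_subset _ _) (fun u => u) p.K 1
    (p.V / p.K) hK one_ne_zero ?_ ?_
  · have h2 := xLGt1_log h (p.V / p.K) ((Nat.div_le_self _ _).trans hVM)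
    have h3 : ((p.V / p.K : ℕ) : ℝ) ≤ (p.V : ℝ) / p.K := Nat.cast_div_le
    have h4 := h.cards.2.2.1.1
    have h5 : (p.V : ℝ) / (2 * p.K) = (p.V : ℝ) / p.K / 2 := by rw [div_div, mul_comm]
    have h6 : (((2 * (p.V : ℤ) : ℤ) : ℝ) - ((p.V : ℤ) : ℝ)) / p.K = (p.V : ℝ) / p.K := by
      push_cast; ring
    rw [h6] at h1
    simp only [Nat.divisors_one, card_singleton, Nat.cast_one, one_mul] at h1
    have h7 : (0 : ℝ) ≤ (p.V : ℝ) / p.K := by positivity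
    rw [h5] at h4
    generalize (p.V : ℝ) / p.K = t at *
    have h9 := mul_le_mul_of_nonneg_left h2 h7
    have h10 : t * 1 ≤ t * Real.log p.M := mul_le_mul_of_nonneg_left hl h7
    have h11 : t / 2 * Real.log p.M ≤ p.SU.card * Real.log p.M :=
      mul_le_mul_of_nonneg_right h4 (by linarith)
    nlinarith
  · intro d _ x hx y hy hdx hdy
    obtain ⟨-, -, hx3⟩ := mem_cl.1 hx
    obtain ⟨-, -, hy3⟩ := mem_cl.1 hy
    have hc : IsCoprime x (p.K : ℤ) := by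
      obtain ⟨t, ht⟩ := hx3
      have : x = p.us + p.K * t := by linarith
      rw [this]; exact h.cu.add_mul_left_left t
    have hc2 : IsCoprime (p.K : ℤ) (d : ℤ) := (hc.of_isCoprime_of_dvd_left hdx).symm
    simp only [Nat.gcd_one_right, Nat.div_one]
    push_cast
    refine hc2.mul_dvd ?_ (dvd_sub hdx hdy)
    have := dvd_sub hx3 hy3
    simpa using this
  · intro x hx
    obtain ⟨hx1, hx2, -⟩ := mem_cl.1 hx
    have : x.natAbs ≤ 2 * p.V := by omega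
    refine this.trans (xLGt1_div _ _ _ hK hKV ?_)
    nlinarith

theorem xLGt1_c3 {p : DP} {μ0 μ1 u0 u1 : ℤ} (h0 : μ0 ∈ p.SM) (h1 : μ1 ∈ p.SM) (h2 : u0 ∈ p.SU)
    (h3 : u1 ∈ p.SU) : (p.K : ℤ) ∣ c3' μ0 μ1 u0 u1 := by
  obtain ⟨-, -, a, ha⟩ := mem_cl.1 h0
  obtain ⟨-, -, b, hb⟩ := mem_cl.1 h1
  obtain ⟨-, -, c, hc⟩ := mem_cl.1 h2
  obtain ⟨-, -, d, hd⟩ := mem_cl.1 h3
  have e0 : μ0 = p.ms + p.K * a := by linarith
  have e1 : μ1 = p.ms + p.K * b := by linarith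
  have e2 : u0 = p.us + p.K * c := by linarith
  have e3 : u1 = p.us + p.K * d := by linarith
  refine ⟨b * u1 ^ 2 - a * u0 ^ 2 + p.ms * (2 * p.us * (d - c) + p.K * (d ^ 2 - c ^ 2)), ?_⟩
  unfold c3'
  rw [e0, e1, e2, e3]; ring

theorem xLGt1_m {p : DP} (h : p.OK 1) {μ0 u0 u1 : ℤ} (h0 : μ0 ∈ p.SM) (h2 : u0 ∈ p.SU)
    (h3 : u1 ∈ p.SU) :
    ∑ μ ∈ p.SM, ta (c3' μ0 μ u0 u1 / p.K) ≤ 10 * ta u1 ^ 2 * Real.log p.M * p.SM.card := by
  obtain ⟨hl, h8, hKV, hVM⟩ := xLGt1_sz h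
  have hK := h.pos
  obtain ⟨hu1, hu2, -⟩ := mem_cl.1 h3
  obtain ⟨hv1, hv2, -⟩ := mem_cl.1 h2
  obtain ⟨hm1, hm2, -⟩ := mem_cl.1 h0
  have hw : u1.natAbs ≠ 0 := by omega
  have hK0 : (p.K : ℤ) ≠ 0 := by omega
  have h1 := xLGt1_avg (p.M : ℤ) (3 * p.M) (by omega) p.SM (filter_subset _ _)
    (fun μ => c3' μ0 μ u0 u1 / p.K) p.K (u1.natAbs * u1.natAbs)
    (p.M / p.K) hK (mul_ne_zero hw hw) ?_ ?_
  · have h2 := xLGt1_log h (p.M / p.K) (Nat.div_le_self _ _)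
    have h3 : ((p.M / p.K : ℕ) : ℝ) ≤ (p.M : ℝ) / p.K := Nat.cast_div_le
    have h4 := h.cards.2.1.1
    have h6 : (((3 * (p.M : ℤ) : ℤ) : ℝ) - ((p.M : ℤ) : ℝ)) / p.K = 2 * ((p.M : ℝ) / p.K) := by
      push_cast; ring
    rw [h6] at h1
    have h7 : (0 : ℝ) ≤ (p.M : ℝ) / p.K := by positivity
    have ht : ((u1.natAbs * u1.natAbs).divisors.card : ℝ) ≤ ta u1 ^ 2 := by
      unfold ta; rw [sq]; exact_mod_cast xLGt1_mul _ _
    have ht1 : (1 : ℝ) ≤ ((u1.natAbs * u1.natAbs).divisors.card : ℝ) := by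
      have : 0 < (u1.natAbs * u1.natAbs).divisors.card :=
        card_pos.2 ⟨1, Nat.one_mem_divisors.2 (mul_ne_zero hw hw)⟩
      exact_mod_cast this
    generalize ((u1.natAbs * u1.natAbs).divisors.card : ℝ) = s at *
    generalize (p.M : ℝ) / p.K = t at *
    generalize ta u1 ^ 2 = r at *
    generalize Real.log (p.M : ℝ) = L at *
    have a1 : s * (1 + Real.log ((p.M / p.K : ℕ) : ℝ)) ≤ r * (2 * L) :=
      (mul_le_mul_of_nonneg_left h2 (by linarith)).trans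
        (mul_le_mul_of_nonneg_right ht (by linarith))
    have a2 := mul_le_mul_of_nonneg_left a1 h7
    have a3 : 1 ≤ r * L := by nlinarith
    have a4 : t * 1 ≤ t * (r * L) := mul_le_mul_of_nonneg_left a3 h7
    have a5 : t * (r * L) ≤ p.SM.card * (r * L) := mul_le_mul_of_nonneg_right h4 (by linarith)
    nlinarith
  · intro d hd x hx y hy hdx hdy
    obtain ⟨a, ha⟩ := xLGt1_c3 h0 hx h2 h3
    obtain ⟨b, hb⟩ := xLGt1_c3 h0 hy h2 h3
    obtain ⟨t, ht⟩ : (p.K : ℤ) ∣ x - y := by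
      have := dvd_sub (mem_cl.1 hx).2.2 (mem_cl.1 hy).2.2
      simpa using this
    simp only [ha, hb, Int.mul_ediv_cancel_left _ hK0] at hdx hdy
    have e : a - b = t * u1 ^ 2 := by
      apply mul_left_cancel₀ hK0
      unfold c3' at ha hb
      linear_combination hb - ha + u1 ^ 2 * ht
    have h5 : (d : ℤ) ∣ t * u1 ^ 2 := e ▸ dvd_sub hdx hdy
    have h6 : d ∣ t.natAbs * (u1.natAbs * u1.natAbs) := by
      have := Int.natCast_dvd.1 h5
      rwa [Int.natAbs_mul, sq, Int.natAbs_mul] at this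
    have hg : 0 < Nat.gcd d (u1.natAbs * u1.natAbs) := Nat.gcd_pos_of_pos_left _ hd
    have h7 : d / Nat.gcd d (u1.natAbs * u1.natAbs) ∣ t.natAbs := by
      generalize u1.natAbs * u1.natAbs = w at h6 hg
      have hc := Nat.coprime_div_gcd_div_gcd hg
      refine hc.dvd_of_dvd_mul_right ?_
      refine Nat.dvd_of_mul_dvd_mul_right hg ?_
      rw [Nat.div_mul_cancel (Nat.gcd_dvd_left _ _), mul_assoc,
        Nat.div_mul_cancel (Nat.gcd_dvd_right _ _)]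
      exact h6
    rw [ht, Nat.cast_mul]
    exact mul_dvd_mul_left _ (Int.natCast_dvd.2 h7)
  · intro x hx
    obtain ⟨hx1, hx2, -⟩ := mem_cl.1 hx
    have b1 : (c3' μ0 x u0 u1 / p.K).natAbs ≤ (c3' μ0 x u0 u1).natAbs := Int.natAbs_ediv_le_natAbs _ _
    have q : ∀ m u : ℤ, (p.M : ℤ) < m → m ≤ 3 * p.M → (p.V : ℤ) < u → u ≤ 2 * p.V →
        0 ≤ m * u ^ 2 ∧ m * u ^ 2 ≤ ((12 * p.M * p.V ^ 2 : ℕ) : ℤ) := by
      intro m u a1 a2 a3 a4
      have a5 : 0 ≤ m := by omega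
      have a6 : 0 ≤ u := by omega
      refine ⟨by positivity, ?_⟩
      push_cast
      calc m * u ^ 2 ≤ (3 * p.M) * (2 * p.V) ^ 2 := by gcongr
        _ = _ := by ring
    have q1 := q x u1 hx1 hx2 hu1 hu2
    have q2 := q μ0 u0 hm1 hm2 hv1 hv2
    have b2 : (c3' μ0 x u0 u1).natAbs ≤ 12 * p.M * p.V ^ 2 := by
      unfold c3'
      generalize 12 * p.M * p.V ^ 2 = T at *
      omega
    refine (b1.trans b2).trans (xLGt1_div _ _ _ hK (hKV.trans hVM) ?_)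
    have b3 := h.hM
    have b4 : 48 * p.K ^ 2 ≤ p.V ^ 2 := by
      have b6 : 6 ≤ p.V := by nlinarith
      calc 48 * p.K ^ 2 = 8 * p.K ^ 2 * 6 := by ring
        _ ≤ p.V * p.V := Nat.mul_le_mul h8 b6
        _ = _ := by ring
    have b5 : 48 * p.K ^ 2 * p.V ^ 2 ≤ p.M := by
      calc _ ≤ p.V ^ 2 * p.V ^ 2 := Nat.mul_le_mul_right _ b4
        _ = p.V ^ 4 := by ring
        _ ≤ _ := b3
    calc 4 * p.K ^ 2 * (12 * p.M * p.V ^ 2) = 48 * p.K ^ 2 * p.V ^ 2 * p.M := by ring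
      _ ≤ p.M * p.M := Nat.mul_le_mul_right _ b5
      _ = _ := by ring

theorem xLGt1_nn (n : ℤ) : 0 ≤ ta n := by unfold ta; positivity

theorem LGT1_pf (h1 : LGTa) : LGT1 := by
  intro p R h hR
  have ha := h1 p R h hR
  have hl := (xLGt1_sz h).1
  have hR0 : 0 < R := by linarith
  have hR3 : 0 < R ^ 3 := by positivity
  rw [card_filter] at ha ⊢
  push_cast at ha ⊢
  have hq : (p.Qd.card : ℝ) = p.SM.card * p.SM.card * (p.SU.card * p.SU.card) := by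
    unfold DP.Qd; rw [card_product, card_product, card_product]; push_cast; ring
  have hb : ∑ z ∈ p.Qd, ta z.2.2 / R ≤ 12 * Real.log p.M / R * p.Qd.card := by
    have e : ∑ z ∈ p.Qd, ta z.2.2 / R =
        p.SM.card * p.SM.card * p.SU.card * (∑ u ∈ p.SU, ta u) / R := by
      unfold DP.Qd
      rw [← sum_div, sum_product]
      simp only [sum_product, sum_const, nsmul_eq_mul, card_product]
      push_cast; ring
    rw [e, hq]
    calc _ ≤ p.SM.card * p.SM.card * p.SU.card * (12 * Real.log p.M * p.SU.card) / R := by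
          gcongr; exact xLGt1_u h
      _ = _ := by ring
  have hc : ∑ z ∈ p.Qd, (if ta z.2.2 ≤ R then
      ta (c3' z.1.1 z.1.2 z.2.1 z.2.2 / p.K) / R ^ 3 else 0) ≤
      10 * Real.log p.M / R * p.Qd.card := by
    have e : ∀ u ∈ p.SU ×ˢ p.SU, ∑ m ∈ p.SM ×ˢ p.SM, (if ta u.2 ≤ R then
        ta (c3' m.1 m.2 u.1 u.2 / p.K) / R ^ 3 else 0) ≤
        10 * Real.log p.M / R * (p.SM.card * p.SM.card) := by
      intro u hu
      obtain ⟨hu1, hu2⟩ := mem_product.1 hu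
      split_ifs with hc
      · rw [← sum_div, sum_product, div_le_iff₀ hR3]
        have e2 : ∀ μ0 ∈ p.SM, ∑ μ ∈ p.SM, ta (c3' μ0 μ u.1 u.2 / p.K) ≤
            10 * R ^ 2 * Real.log p.M * p.SM.card := by
          intro μ0 h0
          refine (xLGt1_m h h0 hu1 hu2).trans ?_
          have := xLGt1_nn u.2
          gcongr
        refine (sum_le_sum e2).trans (le_of_eq ?_)
        rw [sum_const, nsmul_eq_mul]; field_simp
      · rw [sum_const_zero]; positivity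
    rw [hq]
    unfold DP.Qd
    rw [sum_product_right]
    refine (sum_le_sum e).trans (le_of_eq ?_)
    rw [sum_const, nsmul_eq_mul, card_product]; push_cast; ring
  have hp : ∀ z ∈ p.Qd, (if p.DD z.1.1 z.1.2 z.2.1 z.2.2 ≠ 0 ∧
      R ^ 6 < ta (p.DD z.1.1 z.1.2 z.2.1 z.2.2) then (1 : ℝ) else 0) ≤
      (if c1 z.1.1 z.2.1 z.2.2 ≠ 0 ∧ R ^ 3 < ta (c1 z.1.1 z.2.1 z.2.2 / p.K) then (1 : ℝ) else 0) +
      ta z.2.2 / R + (if ta z.2.2 ≤ R then
        ta (c3' z.1.1 z.1.2 z.2.1 z.2.2 / p.K) / R ^ 3 else 0) := by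
    intro z _
    have n1 : 0 ≤ ta z.2.2 / R := div_nonneg (xLGt1_nn _) hR0.le
    have n2 : 0 ≤ ta (c3' z.1.1 z.1.2 z.2.1 z.2.2 / p.K) / R ^ 3 := div_nonneg (xLGt1_nn _) hR3.le
    have n3 : 0 ≤ (if ta z.2.2 ≤ R then
        ta (c3' z.1.1 z.1.2 z.2.1 z.2.2 / p.K) / R ^ 3 else 0) := by split_ifs <;> linarith
    by_cases hz : p.DD z.1.1 z.1.2 z.2.1 z.2.2 ≠ 0 ∧ R ^ 6 < ta (p.DD z.1.1 z.1.2 z.2.1 z.2.2)
    · rw [if_pos hz]
      by_cases hy : c1 z.1.1 z.2.1 z.2.2 ≠ 0 ∧ R ^ 3 < ta (c1 z.1.1 z.2.1 z.2.2 / p.K)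
      · rw [if_pos hy]; linarith
      · rw [if_neg hy]
        have hc0 : c1 z.1.1 z.2.1 z.2.2 ≠ 0 := by
          intro h0; apply hz.1; unfold DP.DD; rw [h0]; simp
        have hle : ta (c1 z.1.1 z.2.1 z.2.2 / p.K) ≤ R ^ 3 := not_lt.1 fun h' => hy ⟨hc0, h'⟩
        have hm : ta (p.DD z.1.1 z.1.2 z.2.1 z.2.2) ≤ ta (c1 z.1.1 z.2.1 z.2.2 / p.K) *
            ta (c3' z.1.1 z.1.2 z.2.1 z.2.2 / p.K) := by
          unfold ta DP.DD
          rw [Int.natAbs_natCast, Int.natAbs_mul]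
          exact_mod_cast xLGt1_mul _ _
        have h3 : R ^ 3 ≤ ta (c3' z.1.1 z.1.2 z.2.1 z.2.2 / p.K) := by
          by_contra hn
          have b1 := mul_le_mul hle (not_le.1 hn).le (xLGt1_nn _) hR3.le
          have b2 : R ^ 3 * R ^ 3 = R ^ 6 := by ring
          linarith [hz.2]
        by_cases hu : ta z.2.2 ≤ R
        · rw [if_pos hu]
          have := (one_le_div hR3).2 h3
          linarith
        · have := (one_le_div hR0).2 (not_le.1 hu).le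
          linarith
    · rw [if_neg hz]
      have : (0 : ℝ) ≤ (if c1 z.1.1 z.2.1 z.2.2 ≠ 0 ∧ R ^ 3 < ta (c1 z.1.1 z.2.1 z.2.2 / p.K)
        then (1 : ℝ) else 0) := by split_ifs <;> norm_num
      linarith
  refine (sum_le_sum hp).trans ?_
  rw [sum_add_distrib, sum_add_distrib]
  have hz : 0 ≤ Real.log p.M / R * p.Qd.card := by positivity
  have e1 : ∀ c : ℝ, c * Real.log p.M / R * p.Qd.card = c * (Real.log p.M / R * p.Qd.card) :=
    fun c => by ring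
  rw [e1] at ha hb hc ⊢
  nlinarith

end Pool.Agent.MP_e23604_nt.U

end
end

section

/-!
The second bilinear step.
-/

open Finset
open scoped Classical

noncomputable section

namespace Pool.Agent.MP_e23604_nt.U

theorem xLR3_bil (h1 : LBIL) {d : ℤ} (x0 : ℤ) {g : ℤ → ℂ} {N : ℕ} {Q : ℝ} (hd : d ≠ 0)
    (hg : ∀ m, m ∉ JJ N → g m = 0) (hQ : ∀ ξ, cm g N d.natAbs ξ ≤ Q) (A : Finset ℤ)
    (B : Finset ℕ) {k : ℤ → ℤ} {l : ℕ → ℤ} (hk : Set.InjOn k A) (hl : Set.InjOn l B) {b : ℤ → ℂ}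
    (hb : ∀ m, ‖b m‖ ≤ 1) :
    (∑ j ∈ B, ‖∑ i ∈ A, g (x0 + k i + d * l j) * b i‖) ^ 2 ≤ Q * A.card * B.card := by
  choose s hs1 hs2 using fun j => ex_unit (∑ i ∈ A, g (x0 + k i + d * l j) * b i)
  have h := h1 1 d x0 g (fun n => b (Function.invFunOn k A n))
    (fun n => s (Function.invFunOn l B n)) N (A.image k) (B.image l) Q one_ne_zero hd hg
    (by rwa [one_mul])
  have Q0 : 0 ≤ Q := (sum_nonneg fun _ _ => sq_nonneg _).trans (hQ 0)
  have e : ∑ x ∈ A.image k, ∑ y ∈ B.image l, g (x0 + 1 * x + d * y) *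
      b (Function.invFunOn k A x) * s (Function.invFunOn l B y) =
      ((∑ j ∈ B, ‖∑ i ∈ A, g (x0 + k i + d * l j) * b i‖ : ℝ) : ℂ) := by
    rw [sum_comm, sum_image hl, Complex.ofReal_sum]
    refine sum_congr rfl fun j hj => ?_
    rw [sum_image hk, ← hs2, mul_comm (s j), sum_mul, hl.leftInvOn_invFunOn hj]
    exact sum_congr rfl fun i hi => by rw [hk.leftInvOn_invFunOn hi, one_mul]
  have bd : ∀ (S : Finset ℤ) (γ : ℤ → ℂ), (∀ n, ‖γ n‖ ≤ 1) → ∑ n ∈ S, ‖γ n‖ ^ 2 ≤ S.card :=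
    fun S γ hγ => by
      simpa using sum_le_card_nsmul S _ 1 fun n _ => pow_le_one₀ (norm_nonneg _) (hγ n)
  rw [e, Complex.norm_real, Real.norm_eq_abs, sq_abs, Int.gcd_one_left, Nat.cast_one, one_mul] at h
  refine h.trans (mul_le_mul (mul_le_mul_of_nonneg_left ((bd _ _ fun _ => hb _).trans ?_) Q0)
    ((bd _ _ fun _ => hs1 _).trans ?_) (sum_nonneg fun _ _ => sq_nonneg _) (by positivity))
  all_goals exact_mod_cast card_image_le

theorem xLR3_core (h1 : LBIL) {f : ℤ → ℝ} (hf : ∀ x, |f x| ≤ 1) {K L H NK N r : ℕ} {c : ℤ}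
    {b : ℤ → ℂ} (hb : ∀ m, ‖b m‖ ≤ 1) {σ E : ℝ} (hK : r < K) (hL : 1 ≤ L) (c0 : c ≠ 0)
    (hcN : c.natAbs ≤ N) (hLH : L ≤ H) (hLN : L ≤ NK) (hN : N * L ≤ NK)
    (sup : ∀ r' : ℕ, r' < K * L → ∀ m, m ∉ JJ N → res f (K * L) r' m = 0) (hσ : 0 ≤ σ)
    (hE : 0 ≤ E) (hE2 : 6 * (NK : ℝ) ≤ E ^ 2 * (H * c.natAbs)) :
    ∑ h ∈ range H, ∑ ρ ∈ range L, ‖∑ m ∈ (JJ NK).filter (fun m => m % (L : ℤ) = ρ),
      ((f (r + K * m + K * c * h) : ℝ) : ℂ) * b m‖ ≤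
      E * H * NK * (σ + 3 * ((range (K * L)).filter fun r' : ℕ => r' % K = r ∧
        CM (res f (K * L) r') N c.natAbs (σ ^ 2)).card / L) := by
  set G := (range (K * L)).filter fun r' : ℕ => r' % K = r ∧
    CM (res f (K * L) r') N c.natAbs (σ ^ 2) with hG
  have L0 : (0 : ℝ) < L := by exact_mod_cast hL
  have L1 : (0 : ℤ) < L := by exact_mod_cast hL
  have D0 : 1 ≤ c.natAbs := Int.natAbs_pos.2 c0
  have D1 : (0 : ℝ) < c.natAbs := by exact_mod_cast D0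
  let φ : ℕ → ℕ → ℕ := fun h0 ρ => r + K * ((ρ + c * h0) % L).toNat
  have φ1 : ∀ h0 ρ, (φ h0 ρ : ℤ) = r + K * ((ρ + c * h0) % L) := fun h0 ρ => by
    simp only [φ]
    push_cast
    rw [Int.toNat_of_nonneg (Int.emod_nonneg _ L1.ne')]
  have φ2 : ∀ h0 ρ, φ h0 ρ < K * L := fun h0 ρ => by
    have h2 : ((ρ + c * h0) % L).toNat + 1 ≤ L := by
      have := Int.emod_lt_of_pos (ρ + c * h0) L1
      omega
    have := Nat.mul_le_mul_left K h2
    simp only [φ]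
    rw [mul_add] at this
    omega
  have key : ∀ h0 ρ : ℕ, ∑ h ∈ (range H).filter (fun h => h % L = h0),
      ‖∑ m ∈ (JJ NK).filter (fun m => m % (L : ℤ) = ρ),
        ((f (r + K * m + K * c * h) : ℝ) : ℂ) * b m‖ ≤
      E * H * NK / L ^ 2 * (σ + 3 * if φ h0 ρ ∈ G then 1 else 0) := fun h0 ρ => by
    set t : ℝ := σ + 3 * if φ h0 ρ ∈ G then 1 else 0 with ht
    have t0 : 0 ≤ t := by
      rw [ht]
      split_ifs <;> positivity
    have hQ : ∀ ξ, cm (res f (K * L) (φ h0 ρ)) N c.natAbs ξ ≤ t ^ 2 * (N : ℝ) ^ 2 / c.natAbs := by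
      intro ξ
      by_cases hg : φ h0 ρ ∈ G
      · refine (cm_triv (fun m => ?_) D0 hcN ξ).trans ?_
        · simpa [res] using hf _
        · rw [ht, if_pos hg]
          gcongr
          nlinarith
      · rw [ht, if_neg hg, mul_zero, add_zero]
        refine le_of_not_ge fun h => hg (mem_filter.2 ⟨mem_range.2 (φ2 _ _), ?_, ξ, h⟩)
        simp only [φ]
        rw [Nat.add_mul_mod_self_left, Nat.mod_eq_of_lt hK]
    have h2 := xLR3_bil h1 ((ρ + c * h0) / L) c0 (sup _ (φ2 h0 ρ)) hQ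
      ((JJ NK).filter fun m => m % (L : ℤ) = ρ) ((range H).filter fun h => h % L = h0)
      (k := fun m => m / L) (l := fun h => (h / L : ℕ)) (fun x hx y hy e => by
        rw [← Int.emod_add_mul_ediv x L, ← Int.emod_add_mul_ediv y L, (mem_filter.1 hx).2,
          (mem_filter.1 hy).2, show x / L = y / L from e])
      (fun x hx y hy e => by
        rw [← Nat.mod_add_div x L, ← Nat.mod_add_div y L, (mem_filter.1 hx).2,
          (mem_filter.1 hy).2, show x / L = y / L from Nat.cast_injective (R := ℤ) e]) hb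
    have cA : (((JJ NK).filter fun m => m % (L : ℤ) = ρ).card : ℝ) ≤ 3 * NK / L := by
      refine (card_class_le _ _ _ (by omega) hL).trans ?_
      have : (L : ℝ) ≤ NK := by exact_mod_cast hLN
      rw [div_add_one L0.ne', div_le_div_iff_of_pos_right L0]
      push_cast
      linarith
    have cB : (((range H).filter fun h => h % L = h0).card : ℝ) ≤ 2 * H / L := by
      refine le_trans ?_ ((card_class_le 0 H h0 (by omega) hL).trans ?_)
      · refine Nat.cast_le.2 (card_le_card_of_injOn Nat.cast (fun x hx => ?_)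
          Nat.cast_injective.injOn)
        have := mem_filter.1 (mem_coe.1 hx)
        rw [mem_range] at this
        refine mem_coe.2 (mem_filter.2 ⟨mem_Ico.2 ⟨by omega, by omega⟩, ?_⟩)
        rw [← this.2, Int.natCast_mod]
      · have : (L : ℝ) ≤ H := by exact_mod_cast hLH
        rw [div_add_one L0.ne', div_le_div_iff_of_pos_right L0]
        push_cast
        linarith
    refine le_of_sq_le_sq ?_ (by positivity)
    refine le_trans (le_of_eq ?_) (h2.trans ?_)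
    · congr 1
      refine sum_congr rfl fun h hh => congrArg _ (sum_congr rfl fun m hm => ?_)
      have e1 := Int.emod_add_mul_ediv m L
      have e2 : ((h % L : ℕ) : ℤ) + L * (h / L : ℕ) = h := by exact_mod_cast Nat.mod_add_div h L
      have e3 := Int.emod_add_mul_ediv (ρ + c * h0) L
      rw [(mem_filter.1 hm).2] at e1
      rw [(mem_filter.1 hh).2] at e2
      rw [res, φ1]
      congr 3
      rw [Nat.cast_mul]
      linear_combination -(K : ℤ) * e1 - K * c * e2 - K * e3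
    · have n1 : (N : ℝ) ≤ NK / L := by
        rw [le_div_iff₀ L0]
        exact_mod_cast hN
      calc _ ≤ t ^ 2 * ((NK : ℝ) / L) ^ 2 / c.natAbs * (3 * NK / L) * (2 * H / L) := by gcongr
        _ = t ^ 2 * (NK : ℝ) ^ 2 * H / (L ^ 4 * c.natAbs) * (6 * NK) := by field_simp; ring
        _ ≤ t ^ 2 * (NK : ℝ) ^ 2 * H / (L ^ 4 * c.natAbs) * (E ^ 2 * (H * c.natAbs)) := by gcongr
        _ = _ := by field_simp
  have cnt : ∀ h0 : ℕ, ∑ ρ ∈ range L, (if φ h0 ρ ∈ G then 1 else 0 : ℝ) ≤ G.card := fun h0 => by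
    rw [sum_boole]
    refine Nat.cast_le.2 (card_le_card_of_injOn (φ h0) (fun x hx => (mem_filter.1 hx).2)
      fun x hx y hy e => ?_)
    have e1 := congrArg (Nat.cast : ℕ → ℤ) e
    rw [φ1, φ1, add_right_inj, mul_right_inj' (by omega)] at e1
    have e2 : (x : ℤ) % L = y % L := Int.ModEq.add_right_cancel' _ e1
    have hx' := mem_range.1 (mem_filter.1 hx).1
    have hy' := mem_range.1 (mem_filter.1 hy).1
    rwa [Int.emod_eq_of_lt (by omega) (by omega), Int.emod_eq_of_lt (by omega) (by omega),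
      Nat.cast_inj] at e2
  rw [← sum_fiberwise_of_maps_to (t := range L) (g := fun h => h % L)
    fun h _ => mem_range.2 (Nat.mod_lt _ hL)]
  calc _ ≤ ∑ _h0 ∈ range L, E * H * NK / L ^ 2 * (L * σ + 3 * G.card) := by
        refine sum_le_sum fun h0 _ => ?_
        rw [sum_comm]
        refine (sum_le_sum fun ρ _ => key h0 ρ).trans ?_
        rw [← mul_sum, sum_add_distrib, ← mul_sum, sum_const, card_range, nsmul_eq_mul]
        have := cnt h0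
        gcongr
    _ = _ := by
        rw [sum_const, card_range, nsmul_eq_mul]
        field_simp

theorem LR3_pf (h1 : LBIL) : LR3 := by
  refine ⟨26, fun δ p f H q r c hp hf hH q1 q2 hr c1 c2 ⟨b, hb, hS⟩ => ?_⟩
  obtain ⟨K4, KV, VM, MY, YX, -⟩ := hp.one.sizes
  obtain ⟨δ0, δ1, ok, -, -⟩ := hp
  rw [show 2 * q * p.K ^ 7 = p.K * (2 * q * p.K ^ 6) by ring]
  have eL : 2 * q * (p.K : ℝ) ^ 6 = ((2 * q * p.K ^ 6 : ℕ) : ℝ) := by push_cast; ring
  rw [eL]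
  have K0 : (0 : ℝ) < p.K := by exact_mod_cast (by omega : 0 < p.K)
  have V0 : 1 ≤ p.V := (Nat.one_le_pow _ _ (by omega)).trans KV
  have a1 : (p.K : ℝ) * ((2 * q * p.K ^ 6 : ℕ) : ℝ) ≤ δ * p.Y := by
    have i2 : 2 ≤ δ⁻¹ := by
      rw [le_inv_comm₀ two_pos δ0]
      linarith
    have b1 : (p.K : ℝ) ^ 7 ≤ p.K ^ 100 :=
      pow_le_pow_right₀ (by exact_mod_cast ok.pos) (by norm_num)
    have b2 : δ⁻¹ ^ 3 ≤ δ⁻¹ ^ 26 := pow_le_pow_right₀ (by linarith) (by norm_num)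
    have b3 : (p.V : ℝ) ≤ p.Y := by exact_mod_cast VM.trans MY
    calc _ = (p.K : ℝ) ^ 7 * (2 * q) := by push_cast; ring
      _ ≤ (p.K : ℝ) ^ 100 * (δ⁻¹ * δ⁻¹) := by gcongr
      _ = δ * ((p.K : ℝ) ^ 100 * δ⁻¹ ^ 3) := by field_simp
      _ ≤ δ * ((p.K : ℝ) ^ 100 * δ⁻¹ ^ 26) := by gcongr
      _ ≤ _ := mul_le_mul_of_nonneg_left (ok.hV.trans b3) δ0.le
  have L1 : 1 ≤ 2 * q * p.K ^ 6 := Nat.mul_pos (by omega) (Nat.pow_pos (by omega))
  generalize 2 * q * p.K ^ 6 = L at *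
  have a2 : L ≤ H := by exact_mod_cast le_of_mul_le_mul_left (a1.trans hH.1) K0
  have a3 : p.K * L ≤ p.Y := by
    have : δ * p.Y ≤ p.Y := mul_le_of_le_one_left (Nat.cast_nonneg _) (by linarith)
    exact_mod_cast a1.trans this
  have M0 : (0 : ℝ) < p.M := by exact_mod_cast (by omega : 0 < p.M)
  have V1 : (0 : ℝ) < p.V := by exact_mod_cast V0
  have c0 : c ≠ 0 := by
    rintro rfl
    have : 0 < δ * p.M * (p.V : ℝ) ^ 2 := by positivity
    simp only [Int.cast_zero, abs_zero, mul_zero] at c1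
    linarith
  have Λ0 : 0 < p.K * L := Nat.mul_pos (by omega) L1
  have a4 : c.natAbs ≤ p.N (p.K * L) := by
    have b1 : p.K * c.natAbs ≤ 8 * p.M * p.V ^ 2 := by
      rw [← Int.natCast_natAbs] at c2
      exact_mod_cast c2
    rw [DP.N, Nat.le_div_iff_mul_le Λ0]
    refine Nat.le_of_mul_le_mul_left ?_ (by omega : 0 < p.K)
    calc p.K * (c.natAbs * (p.K * L)) = p.K * c.natAbs * (p.K * L) := by ring
      _ ≤ 8 * p.M * p.V ^ 2 * p.Y := by gcongr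
      _ = 8 * (p.Y * p.M * p.V ^ 2) := by ring
      _ ≤ 30 * (p.K * p.X) := Nat.mul_le_mul (by norm_num) ok.hX
      _ = _ := by ring
  have a5 : L ≤ p.N p.K := by
    rw [DP.N, Nat.le_div_iff_mul_le (by omega), mul_comm]
    omega
  have a6 : p.N (p.K * L) * L ≤ p.N p.K := by
    rw [DP.N, DP.N, ← Nat.div_div_eq_div_mul]
    exact Nat.div_mul_le_self _ _
  have a7 : 6 * (p.N p.K : ℝ) ≤ (600 / δ) ^ 2 * (H * c.natAbs) := by
    have b1 : (p.N p.K : ℝ) * p.K ≤ 30 * p.X := by exact_mod_cast Nat.div_mul_le_self _ _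
    have b2 : (p.K : ℝ) * p.X ≤ 2000 * (p.Y * p.M * (p.V : ℝ) ^ 2) := by exact_mod_cast ok.hX'
    have b3 := mul_le_mul hH.1 c1 (by positivity) (by positivity)
    rw [Nat.cast_natAbs, Int.cast_abs, div_pow, div_mul_eq_mul_div, le_div_iff₀ (by positivity)]
    refine le_of_mul_le_mul_left ?_ (pow_pos K0 2)
    calc _ = 6 * δ ^ 2 * p.K * (p.N p.K * p.K) := by ring
      _ ≤ 6 * δ ^ 2 * p.K * (30 * p.X) := by gcongr
      _ = 180 * δ ^ 2 * (p.K * p.X) := by ring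
      _ ≤ 180 * δ ^ 2 * (2000 * (p.Y * p.M * (p.V : ℝ) ^ 2)) := by gcongr
      _ ≤ _ := by nlinarith
  have h := hS.trans (xLR3_core h1 hf.1 hb (σ := δ ^ 13) hr L1 c0 a4 a2 a5 a6
    (fun r' hr' m hm => ?_) (by positivity) (by positivity) a7)
  · rw [← pow_mul] at h
    have L0 : (0 : ℝ) < L := by exact_mod_cast L1
    have H0 : (0 : ℝ) < H := by exact_mod_cast L1.trans a2
    have N0 : (0 : ℝ) < p.N p.K := by exact_mod_cast L1.trans a5
    rw [mul_right_comm _ _ (_ + _), mul_right_comm _ _ (_ + _), mul_le_mul_iff_left₀ N0,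
      mul_le_mul_iff_left₀ H0, div_mul_eq_mul_div, le_div_iff₀ δ0] at h
    rw [← le_div_iff₀ L0]
    have d1 : δ ^ 11 ≤ (1 / 2) ^ 11 := pow_le_pow_left₀ δ0.le δ1 11
    have d2 : δ ^ 24 ≤ (1 / 2) ^ 24 := pow_le_pow_left₀ δ0.le δ1 24
    have d3 : δ ^ 13 ≤ δ ^ 2 * (1 / 2) ^ 11 := by
      rw [show δ ^ 13 = δ ^ 2 * δ ^ 11 by ring]
      gcongr
    have d4 : δ ^ 26 ≤ δ ^ 2 * (1 / 2) ^ 24 := by
      rw [show δ ^ 26 = δ ^ 2 * δ ^ 24 by ring]
      gcongr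
    rw [mul_div_assoc] at h
    nlinarith [sq_nonneg δ]
  · by_contra e
    have h2 := abs_le.1 (hf.2 _ fun h0 => e (by rw [res, h0, Complex.ofReal_zero]))
    have h3 : 30 * p.X < p.K * L * (p.N (p.K * L) + 1) := Nat.lt_mul_div_succ _ Λ0
    have h4 : p.K * L ≤ p.X := a3.trans YX
    generalize p.N (p.K * L) = N at *
    generalize p.K * L = Λ at *
    have h5 : 30 * (p.X : ℤ) < Λ * (N + 1) := by exact_mod_cast h3
    have h6 : (0 : ℤ) < Λ := by exact_mod_cast Λ0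
    refine hm (mem_Ico.2 ⟨not_lt.1 fun h7 => ?_, not_le.1 fun h7 => ?_⟩)
    · have := mul_le_mul_of_nonneg_left (show m ≤ -(N + 1) by omega) h6.le
      rw [mul_neg] at this
      omega
    · have := mul_le_mul_of_nonneg_left h7 h6.le
      rw [mul_add] at h5
      omega

end Pool.Agent.MP_e23604_nt.U

end
end

section

/-!
The mass near the boundary.
-/

open Finset
open scoped Classical

noncomputable section

namespace Pool.Agent.MP_e23604_nt.U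

open P (gg WW Datum Wt)

theorem xE4b_mass (X : Fin 10 → ℕ) {ε : ℤ → ℤ → ℝ} (hε : ∀ a b, |ε a b| ≤ 1) (π : I8)
    (S : Finset (ℤ × ℤ)) : (datE X ε π).mass S ≤
      ((S.filter fun z => Cond π.1 (upd π.2.1 z.1 z.2)).card : ℝ) := by
  rw [Datum.mass, card_filter, Nat.cast_sum]
  refine sum_le_sum fun z _ => ?_
  show |(if Cond π.1 (upd π.2.1 z.1 z.2) then _ else (0 : ℝ))| ≤ _
  split_ifs
  · simpa using hε _ _
  · simp

theorem xE4b_strip (h1 : E2a) {s : S12} (hs : SOK s) (v : V10) (d : Datum) {A B : ℕ}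
    (a1 : d.A1 = A) (a2 : d.A2 = 2 * A) (b1 : d.B1 = B) (b2 : d.B2 = 2 * B) {η1 η2 e1 e2 : ℝ}
    (p1 : 0 ≤ e1) (p2 : 0 ≤ e2) (l1 : η1 ≤ e1) (l2 : η2 ≤ e2) :
    (((d.near η1 η2).filter fun z => Cond s (upd v z.1 z.2)).card : ℝ) ≤
      2 * ((e1 + 1 + SP s) * (B + SP s) / sL s) + 2 * ((A + SP s) * (e2 + 1 + SP s) / sL s) := by
  have c1 : 0 ≤ ⌈e1⌉ := Int.ceil_nonneg p1
  have c2 : 0 ≤ ⌈e2⌉ := Int.ceil_nonneg p2
  have u1 := Int.le_ceil e1
  have u2 := Int.le_ceil e2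
  have w1 := (Int.ceil_lt_add_one e1).le
  have w2 := (Int.ceil_lt_add_one e2).le
  have hsub : ((d.near η1 η2).filter fun z => Cond s (upd v z.1 z.2)) ⊆
      ((Ioc (A : ℤ) (A + ⌈e1⌉) ×ˢ Ioc (B : ℤ) (2 * B)).filter fun z => Cond s (upd v z.1 z.2)) ∪
      ((Ioc (2 * A - ⌈e1⌉ : ℤ) (2 * A) ×ˢ Ioc (B : ℤ) (2 * B)).filter
        fun z => Cond s (upd v z.1 z.2)) ∪
      (((Ioc (A : ℤ) (2 * A) ×ˢ Ioc (B : ℤ) (B + ⌈e2⌉)).filter fun z => Cond s (upd v z.1 z.2)) ∪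
      ((Ioc (A : ℤ) (2 * A) ×ˢ Ioc (2 * B - ⌈e2⌉ : ℤ) (2 * B)).filter
        fun z => Cond s (upd v z.1 z.2))) := by
    intro z hz
    simp only [Datum.near, Datum.bx, mem_filter, mem_product, mem_Ioc, a1, a2, b1, b2] at hz
    obtain ⟨⟨⟨⟨x1, x2⟩, y1, y2⟩, hn⟩, hc⟩ := hz
    simp only [mem_union, mem_filter, mem_product, mem_Ioc]
    rcases hn with hn | hn | hn | hn
    · refine Or.inl (Or.inl ⟨⟨⟨x1, ?_⟩, y1, y2⟩, hc⟩)
      have : (z.1 : ℝ) ≤ ((A : ℤ) + ⌈e1⌉ : ℤ) := by push_cast at hn ⊢; linarith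
      exact_mod_cast this
    · refine Or.inl (Or.inr ⟨⟨⟨?_, x2⟩, y1, y2⟩, hc⟩)
      have : ((2 * (A : ℤ) - ⌈e1⌉ : ℤ) : ℝ) < z.1 := by push_cast at hn ⊢; linarith
      exact_mod_cast this
    · refine Or.inr (Or.inl ⟨⟨⟨x1, x2⟩, y1, ?_⟩, hc⟩)
      have : (z.2 : ℝ) ≤ ((B : ℤ) + ⌈e2⌉ : ℤ) := by push_cast at hn ⊢; linarith
      exact_mod_cast this
    · refine Or.inr (Or.inr ⟨⟨⟨x1, x2⟩, ?_, y2⟩, hc⟩)
      have : ((2 * (B : ℤ) - ⌈e2⌉ : ℤ) : ℝ) < z.2 := by push_cast at hn ⊢; linarith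
      exact_mod_cast this
  have k1 := h1 s v A (A + ⌈e1⌉) B (2 * B) hs (by omega) (by omega)
  have k2 := h1 s v (2 * A - ⌈e1⌉) (2 * A) B (2 * B) hs (by omega) (by omega)
  have k3 := h1 s v A (2 * A) B (B + ⌈e2⌉) hs (by omega) (by omega)
  have k4 := h1 s v A (2 * A) (2 * B - ⌈e2⌉) (2 * B) hs (by omega) (by omega)
  have hc := (card_le_card hsub).trans ((card_union_le _ _).trans
    (add_le_add (card_union_le _ _) (card_union_le _ _)))
  have hc' := (Nat.cast_le (α := ℝ)).2 hc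
  push_cast at k1 k2 k3 k4 hc'
  have m1 : ((⌈e1⌉ : ℝ) + SP s) * (B + SP s) / sL s ≤ (e1 + 1 + SP s) * (B + SP s) / sL s := by
    gcongr
  have m2 : ((A : ℝ) + SP s) * (⌈e2⌉ + SP s) / sL s ≤ (A + SP s) * (e2 + 1 + SP s) / sL s := by
    gcongr
  rw [show (A : ℝ) + ⌈e1⌉ - A = ⌈e1⌉ by ring, show 2 * (B : ℝ) - B = B by ring] at k1
  rw [show 2 * (A : ℝ) - (2 * A - ⌈e1⌉) = ⌈e1⌉ by ring, show 2 * (B : ℝ) - B = B by ring] at k2
  rw [show (B : ℝ) + ⌈e2⌉ - B = ⌈e2⌉ by ring, show 2 * (A : ℝ) - A = A by ring] at k3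
  rw [show 2 * (B : ℝ) - (2 * B - ⌈e2⌉) = ⌈e2⌉ by ring, show 2 * (A : ℝ) - A = A by ring] at k4
  linarith

theorem xE4b_O8 {X : Fin 10 → ℕ} {v : V10} (hv : v ∈ O8 X) :
    (X 4 : ℤ) < v 4 ∧ (X 9 : ℤ) < v 9 ∧ (X 7 : ℤ) < v 7 ∧ (X 5 : ℤ) < v 5 ∧ v 5 ≤ 3 * X 5 := by
  have h := Fintype.mem_piFinset.1 hv
  have h4 := h 4
  have h9 := h 9
  have h7 := h 7
  have h5 := h 5
  rw [if_neg (by decide), mem_Ioc] at h4 h9 h7 h5
  rw [if_pos rfl] at h5
  exact ⟨h4.1, h9.1, h7.1, h5.1, h5.2⟩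

theorem xE4b_Z0 {Z : ℕ} (h2 : 2 ≤ Z) : 2 * Z * (Z + 1) ≤ Z ^ 4 := by
  have : 4 ≤ Z * Z := by nlinarith
  nlinarith [Nat.mul_le_mul_left (Z * Z) this]

theorem xE4b_Z {X : Fin 10 → ℕ} {Z : ℕ} (hR : Reg X Z) (i : Fin 10) : 2 * Z * (Z + 1) ≤ X i :=
  (xE4b_Z0 hR.z2).trans ((Nat.pow_le_pow_right (le_trans (by norm_num) hR.z2)
    (by norm_num : 4 ≤ 1000)).trans (hR.sizes.1 i))

theorem xE4b_cc {X : Fin 10 → ℕ} {v : V10} (hv : v ∈ O8 X) :
    (cc v : ℝ) = 4 * (v 4 : ℝ) * (v 9 : ℝ) ^ 2 ∧ 1 ≤ cc v := by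
  obtain ⟨h4, h9, -⟩ := xE4b_O8 hv
  have p4 : 0 < v 4 := by omega
  have p9 : 0 < v 9 := by omega
  have p : 0 < 4 * v 4 * v 9 ^ 2 := by positivity
  have e : (cc v : ℤ) = 4 * v 4 * v 9 ^ 2 := Int.toNat_of_nonneg p.le
  exact ⟨by exact_mod_cast e, by omega⟩

theorem xE4b_l1 {x0 x5 x7 c u Δ r U : ℝ} (p0 : 0 < x0) (p5 : 0 < x5) (p7 : 0 < x7) (pc : 0 < c)
    (r7 : x7 < u) (pΔ : 0 < Δ) (ps : 0 < r) (hx : x5 ≤ Δ * r)
    (e : U = 1024 * (x0 * x5 * x7 ^ 2)) :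
    U * c / (r * r * (c * u ^ 2 * Δ)) ≤ 1024 * (x0 / r) := by
  have q7 := p7.trans r7
  rw [div_le_iff₀ (by positivity), e]
  calc 1024 * (x0 * x5 * x7 ^ 2) * c ≤ 1024 * (x0 * (Δ * r) * u ^ 2) * c := by gcongr
    _ = _ := by field_simp

theorem xE4b_l2 {x1 x4 x5 x9 a b u w Δ r : ℝ} (p1 : 0 < x1) (p4 : 0 < x4) (p9 : 0 < x9)
    (r4 : x4 < a) (r9 : x9 < b) (pu : 0 < u) (pw : 0 < w) (hw : w ≤ 3 * x5) (pΔ : 0 < Δ)
    (ps : 0 < r) (hx : x5 ≤ Δ * r) :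
    64 * x4 * x1 * x9 ^ 2 * (w * u ^ 2) / (r * r * (4 * a * b ^ 2 * u ^ 2 * Δ)) ≤
      48 * (x1 / r) := by
  have q4 := p4.trans r4
  have q9 := p9.trans r9
  have hw' : w ≤ 3 * (Δ * r) := by linarith
  rw [div_le_iff₀ (by positivity)]
  calc 64 * x4 * x1 * x9 ^ 2 * (w * u ^ 2) ≤ 64 * a * x1 * b ^ 2 * (3 * (Δ * r) * u ^ 2) := by
        gcongr
    _ = _ := by
        field_simp
        ring

theorem xE4b_l3 {x0 x1 z p r L : ℝ} (z2 : 2 ≤ z) (b0 : 2 * z * (z + 1) ≤ x0)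
    (b1 : 2 * z * (z + 1) ≤ x1) (pp : 0 ≤ p) (pz : p ≤ z) (s1 : 1 ≤ r) (sz : r * r ≤ z)
    (pL : 0 ≤ L) :
    2 * ((1024 * (x0 / r) + 1 + p) * (x1 + p) / L) + 2 * ((x0 + p) * (48 * (x1 / r) + 1 + p) / L) ≤
      4300 * (x0 * x1 / L / r) := by
  have ps : 0 < r := by linarith
  have sH : r ≤ z := by nlinarith
  have sm : ∀ x, 2 * z * (z + 1) ≤ x → 1 + p ≤ x / r ∧ p ≤ x := fun x hx => by
    refine ⟨?_, by nlinarith⟩
    rw [le_div_iff₀ ps]
    calc (1 + p) * r ≤ (1 + z) * z := by gcongr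
      _ ≤ x := by nlinarith
  have m0 := sm x0 b0
  have m1 := sm x1 b1
  have p0 : 0 ≤ x0 := pp.trans m0.2
  have p1 : 0 ≤ x1 := pp.trans m1.2
  calc _ ≤ 2 * ((1025 * (x0 / r)) * (2 * x1) / L) + 2 * ((2 * x0) * (49 * (x1 / r)) / L) := by
        gcongr
        · linarith [m0.1]
        · linarith [m1.2]
        · linarith [m0.2]
        · linarith [m1.1]
    _ = 4296 * (x0 * x1 / L / r) := by ring
    _ ≤ _ := by gcongr; norm_num

theorem xE4b_far (h1 : E2a) {X : Fin 10 → ℕ} {Z H : ℕ} {ε : ℤ → ℤ → ℝ} (hR : Reg X Z)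
    (hH : 1 ≤ H) (hHZ : H ≤ Z) (hε : ∀ a b, |ε a b| ≤ 1) {s : S12} (hs : s ∈ SSet Z) {v : V10}
    (hv : v ∈ O8 X) {w : ℤ} (hw : w ∈ Ioc (X 5 : ℤ) (3 * X 5))
    (hf : (X 5 : ℝ) / √H ≤ |(v 5 : ℝ) - w|) :
    (datE X ε (s, v, w)).mass ((datE X ε (s, v, w)).nr (UE X) H) ≤
      4300 * (X 0 * X 1 / sL s / √H) := by
  obtain ⟨so, sz⟩ := mem_SSet.1 hs
  obtain ⟨h4, h9, h7, h5, h5'⟩ := xE4b_O8 hv
  obtain ⟨hc, hc1⟩ := xE4b_cc hv
  have z2 : (2 : ℝ) ≤ Z := by exact_mod_cast hR.z2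
  have big : ∀ i, 2 * (Z : ℝ) * (Z + 1) ≤ X i := fun i => by exact_mod_cast xE4b_Z hR i
  have pos : ∀ i, (0 : ℝ) < X i := fun i => lt_of_lt_of_le (by positivity) (big i)
  have r4 : (X 4 : ℝ) < v 4 := by exact_mod_cast h4
  have r9 : (X 9 : ℝ) < v 9 := by exact_mod_cast h9
  have r7 : (X 7 : ℝ) < v 7 := by exact_mod_cast h7
  have rw1 : (X 5 : ℝ) < w := by exact_mod_cast (mem_Ioc.1 hw).1
  have rw2 : (w : ℝ) ≤ 3 * X 5 := by exact_mod_cast (mem_Ioc.1 hw).2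
  have p0 := pos 0
  have p1 := pos 1
  have p4 := pos 4
  have p5 := pos 5
  have p7 := pos 7
  have p9 := pos 9
  have q4 : (0 : ℝ) < v 4 := p4.trans r4
  have q7 : (0 : ℝ) < v 7 := p7.trans r7
  have q9 : (0 : ℝ) < v 9 := p9.trans r9
  have qw : (0 : ℝ) < w := p5.trans rw1
  have pH : (1 : ℝ) ≤ H := by exact_mod_cast hH
  have pH0 : (0 : ℝ) < H := by linarith
  have ps : 0 < √(H : ℝ) := Real.sqrt_pos.2 pH0
  have hsq : √(H : ℝ) * √H = H := Real.mul_self_sqrt pH0.le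
  have s1 : 1 ≤ √(H : ℝ) := Real.one_le_sqrt.2 pH
  have pc : (0 : ℝ) < cc v := by exact_mod_cast hc1
  obtain ⟨Δ, hΔ⟩ : ∃ Δ, Δ = |(v 5 : ℝ) - w| := ⟨_, rfl⟩
  rw [← hΔ] at hf
  have pΔ : 0 < Δ := lt_of_lt_of_le (by positivity) hf
  have hdet : |((datE X ε (s, v, w)).det : ℝ)| = cc v * (v 7 : ℝ) ^ 2 * Δ := by
    have : ((datE X ε (s, v, w)).det : ℝ) = cc v * (v 7 : ℝ) ^ 2 * -((v 5 : ℝ) - w) := by
      simp only [Datum.det, datE]
      push_cast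
      ring
    rw [this, abs_mul, abs_neg, ← hΔ, abs_of_pos (by positivity)]
  have hb : |((datE X ε (s, v, w)).β' : ℝ)| = cc v := by
    simp only [datE]
    push_cast
    exact abs_of_pos pc
  have ha : |((datE X ε (s, v, w)).α' : ℝ)| = w * (v 7 : ℝ) ^ 2 := by
    simp only [datE]
    push_cast
    rw [abs_neg, abs_of_pos (by positivity)]
  have b3 : (X 4 : ℝ) * X 1 * (X 9 : ℝ) ^ 2 = 16 * (X 0 * X 5 * (X 7 : ℝ) ^ 2) := by
    exact_mod_cast hR.b3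
  have hx : (X 5 : ℝ) ≤ Δ * √H := (div_le_iff₀ ps).1 hf
  have l1 := xE4b_l1 (U := UE X) p0 p5 p7 pc r7 pΔ ps hx (by rw [UE]; linarith)
  have l2 := xE4b_l2 p1 p4 p9 r4 r9 q7 qw rw2 pΔ ps hx
  rw [← hc, ← UE] at l2
  rw [hsq] at l1 l2
  refine (xE4b_mass X hε _ _).trans ?_
  rw [Datum.nr, hdet, hb, ha]
  refine (xE4b_strip h1 so v _ rfl rfl rfl rfl (by positivity) (by positivity) l1 l2).trans ?_
  exact xE4b_l3 z2 (big 0) (big 1) (Nat.cast_nonneg _) (by exact_mod_cast sz) s1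
    (by rw [hsq]; exact_mod_cast hHZ) (Nat.cast_nonneg _)

theorem xE4b_all (h1 : E2a) {X : Fin 10 → ℕ} {Z : ℕ} {ε : ℤ → ℤ → ℝ} (hR : Reg X Z)
    (hε : ∀ a b, |ε a b| ≤ 1) {s : S12} (hs : s ∈ SSet Z) (v : V10) (w : ℤ) (U : ℝ) (H : ℕ) :
    (datE X ε (s, v, w)).mass ((datE X ε (s, v, w)).nr U H) ≤ 4 * (X 0 * X 1 / sL s) := by
  obtain ⟨so, sz⟩ := mem_SSet.1 hs
  refine (xE4b_mass X hε _ _).trans ?_
  have k := h1 s v (X 0) (2 * X 0) (X 1) (2 * X 1) so (by omega) (by omega)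
  have sm : ∀ i, (SP s : ℝ) ≤ X i := fun i => by
    have := xE4b_Z hR i
    exact_mod_cast (by nlinarith : SP s ≤ X i)
  refine (Nat.cast_le.2 (card_le_card (filter_subset_filter _ (filter_subset _ _)))).trans
    (k.trans ?_)
  push_cast
  calc _ ≤ (2 * X 0 : ℝ) * (2 * X 1) / sL s := by
        gcongr
        · linarith [sm 1, (Nat.cast_nonneg (SP s) : (0 : ℝ) ≤ _), Nat.cast_nonneg (α := ℝ) (X 1)]
        · linarith [sm 0]
        · linarith [sm 1]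
    _ = _ := by ring

theorem xE4b_rho (X : Fin 10 → ℕ) (q : ℕ) (π : I8) : 0 ≤ rho X q π := by
  rw [rho]
  positivity

theorem xE4b_near {X : Fin 10 → ℕ} {Z q H : ℕ} (hR : Reg X Z) (hq : 1 ≤ q) (hH : 1 ≤ H)
    (hHZ : H ≤ Z) {s : S12} (hs : s ∈ SSet Z) {v : V10} (hv : v ∈ O8 X) (S : Finset ℤ)
    (hS : ∀ w ∈ S, w ≠ v 5 ∧ ((s 5 * (q * KP s v ^ 32) : ℕ) : ℤ) ∣ v 5 - w ∧
      |(v 5 : ℝ) - w| < X 5 / √H) : ∑ w ∈ S, rho X q (s, v, w) ≤ 6 / √H := by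
  obtain ⟨so, sz⟩ := mem_SSet.1 hs
  have p5 := so.pos 5
  have l5 := le_SP so 5
  have pK : 1 ≤ KP s v := by
    have := (xE4b_cc hv).2
    rw [KP, KK]
    exact Nat.mul_pos (Nat.mul_pos this (by omega)) p5
  have pE : 1 ≤ q * KP s v ^ 32 := Nat.mul_pos hq (pow_pos pK _)
  have hZ := xE4b_Z hR 5
  have hZ' : Z ≤ X 5 := by nlinarith
  have hrho : ∀ w, rho X q (s, v, w) = ((q * KP s v ^ 32 : ℕ) : ℝ) / ((X 5 / s 5 : ℕ) : ℝ) :=
    fun w => by rw [rho, Nat.cast_mul, Nat.cast_pow]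
  generalize q * KP s v ^ 32 = E at hS pE hrho
  have pH : (1 : ℝ) ≤ H := by exact_mod_cast hH
  have ps : 0 < √(H : ℝ) := Real.sqrt_pos.2 (by linarith)
  have hsq : √(H : ℝ) * √H = H := Real.mul_self_sqrt (by linarith)
  have s1 : 1 ≤ √(H : ℝ) := Real.one_le_sqrt.2 pH
  have rH : (H : ℝ) ≤ X 5 := by exact_mod_cast hHZ.trans hZ'
  obtain ⟨T, hT⟩ : ∃ T, T = (X 5 : ℝ) / √H := ⟨_, rfl⟩
  have T1 : 1 ≤ T := by
    rw [hT, le_div_iff₀ ps]
    nlinarith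
  have c1 : 1 ≤ ⌈T⌉ := Int.one_le_ceil_iff.2 (by linarith)
  have hn : v 5 ∉ S := fun h => (hS _ h).1 rfl
  have k := card_sparse_le (v 5 - ⌈T⌉) (v 5 + ⌈T⌉ - 1) (by omega) (Nat.mul_pos p5 pE)
    (insert (v 5) S) (fun w hw => by
      rcases mem_insert.1 hw with rfl | hw
      · exact mem_Ioc.2 ⟨by omega, by omega⟩
      · have a := (hS w hw).2.2
        rw [← hT] at a
        have b : ((|v 5 - w| : ℤ) : ℝ) < (⌈T⌉ : ℤ) := by
          push_cast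
          exact a.trans_le (Int.le_ceil T)
        have c : |v 5 - w| < ⌈T⌉ := by exact_mod_cast b
        have := abs_lt.1 c
        exact mem_Ioc.2 ⟨by omega, by omega⟩) (fun x hx y hy => by
      have a : ∀ z ∈ insert (v 5) S, ((s 5 * E : ℕ) : ℤ) ∣ v 5 - z := fun z hz => by
        rcases mem_insert.1 hz with rfl | hz
        · simp
        · exact (hS z hz).2.1
      have := dvd_sub (a y hy) (a x hx)
      rwa [show v 5 - y - (v 5 - x) = x - y by ring] at this)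
  rw [card_insert_of_notMem hn] at k
  push_cast at k
  have r5 : (0 : ℝ) < s 5 := by exact_mod_cast p5
  have rE : (0 : ℝ) < E := by exact_mod_cast pE
  have k' : (S.card : ℝ) ≤ 3 * T / (s 5 * E) := by
    have : ((v 5 : ℝ) + ⌈T⌉ - 1 - (v 5 - ⌈T⌉)) / (s 5 * E) ≤ 3 * T / (s 5 * E) := by
      gcongr
      linarith [Int.ceil_lt_add_one T]
    linarith
  have f1 : X 5 ≤ 2 * (s 5 * (X 5 / s 5)) := by
    have a := Nat.div_add_mod (X 5) (s 5)
    have b := Nat.mod_lt (X 5) p5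
    have c : 1 ≤ X 5 / s 5 := (Nat.le_div_iff_mul_le p5).2 (by omega)
    nlinarith
  have f2 : (X 5 : ℝ) ≤ 2 * (s 5 * ((X 5 / s 5 : ℕ) : ℝ)) := by exact_mod_cast f1
  generalize ((X 5 / s 5 : ℕ) : ℝ) = F at f2 hrho
  have pF : 0 < F := by
    by_contra h
    nlinarith
  simp only [hrho]
  rw [sum_const, nsmul_eq_mul]
  calc _ ≤ 3 * T / (s 5 * E) * (E / F) := by gcongr
    _ = 3 * (X 5 : ℝ) / (s 5 * F) / √H := by
      rw [hT]
      field_simp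
    _ ≤ _ := by
      gcongr
      rw [div_le_iff₀ (by positivity)]
      linarith

theorem xE4b_w (h1 : E2a) (h4 : E5a) {X : Fin 10 → ℕ} {Z q H : ℕ} {ε : I8 → ℤ → ℤ → ℝ}
    (hR : Reg X Z) (hq : 1 ≤ q) (hH : 1 ≤ H) (hHZ : H ≤ Z) (hε : ∀ π a b, |ε π a b| ≤ 1) {s : S12}
    (hs : s ∈ SSet Z) {v : V10} (hv : v ∈ O8 X) :
    ∑ w ∈ (Ioc (X 5 : ℤ) (3 * X 5)).filter (fun w => w ≠ v 5 ∧
      ((s 5 * (q * KP s v ^ 32) : ℕ) : ℤ) ∣ v 5 - w), rho X q (s, v, w) *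
        (datE X (ε (s, v, w)) (s, v, w)).mass ((datE X (ε (s, v, w)) (s, v, w)).nr (UE X) H) ≤
      34424 * (X 0 * X 1 / sL s / √H) := by
  have k := h4 X Z q hR hq s hs v hv 1 le_rfl
  simp only [mul_one, Nat.cast_one, div_one] at k
  rw [← sum_filter_add_sum_filter_not _ fun w : ℤ => |(v 5 : ℝ) - w| < X 5 / √H]
  refine (add_le_add (sum_le_sum fun w _ => mul_le_mul_of_nonneg_left
    (xE4b_all h1 hR (hε _) hs v w _ _) (xE4b_rho _ _ _)) (sum_le_sum fun w hw =>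
      mul_le_mul_of_nonneg_left (xE4b_far h1 hR hH hHZ (hε _) hs hv
        (mem_filter.1 (mem_filter.1 hw).1).1 (not_lt.1 (mem_filter.1 hw).2))
        (xE4b_rho _ _ _))).trans ?_
  rw [← sum_mul, ← sum_mul]
  refine (add_le_add (mul_le_mul_of_nonneg_right (xE4b_near hR hq hH hHZ hs hv _ fun w hw =>
    ⟨(mem_filter.1 (mem_filter.1 hw).1).2.1, (mem_filter.1 (mem_filter.1 hw).1).2.2,
      (mem_filter.1 hw).2⟩) (by positivity)) (mul_le_mul_of_nonneg_right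
        ((sum_le_sum_of_subset_of_nonneg (filter_subset _ _) fun w _ _ => xE4b_rho _ _ _).trans k)
        (by positivity))).trans (le_of_eq ?_)
  ring

theorem E4b_pf (h1 : E2a) (h2 : E2b) (h3 : E2c) (h4 : E5a) : E4b := by
  intro X Z q H ε hR hq hH hHZ hε
  have z1 : 1 ≤ Z := hH.trans hHZ
  have v8 : 0 ≤ Vol8 X := prod_nonneg fun i _ => Nat.cast_nonneg _
  have lz : 0 ≤ 1 + Real.log Z := by
    have := Real.log_natCast_nonneg Z
    linarith
  rw [PE, sum_filter, sum_product]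
  calc _ ≤ ∑ s ∈ SSet Z, 3442400 * (X 0 * X 1 * Vol8 X / √H) * ((1 : ℝ) / SP s) := by
        refine sum_le_sum fun s hs => ?_
        rw [sum_product]
        calc _ ≤ ∑ v ∈ O8 X, if ∃ a b, Cond s (upd v a b) then
              34424 * ((X 0 : ℝ) * X 1 / sL s / √H) else 0 := by
              refine sum_le_sum fun v hv => ?_
              by_cases ha : Adm8 s v
              · rw [if_pos ha.1]
                refine le_trans (le_of_eq ?_) (xE4b_w h1 h4 hR hq hH hHZ hε hs hv)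
                rw [sum_filter]
                refine sum_congr rfl fun w _ => ?_
                simp only [ha, true_and]
              · simp only [ha, false_and, if_false, sum_const_zero]
                positivity
          _ = (((O8 X).filter fun v => ∃ a b, Cond s (upd v a b)).card : ℝ) *
              (34424 * ((X 0 : ℝ) * X 1 / sL s / √H)) := by
              rw [← sum_filter, sum_const, nsmul_eq_mul]
          _ ≤ 100 * Vol8 X / sM s * (34424 * ((X 0 : ℝ) * X 1 / sL s / √H)) := by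
              gcongr
              exact (h2 X Z hR s hs).1
          _ = _ := by
              rw [← sL_mul_sM s, Nat.cast_mul]
              ring
    _ ≤ 3442400 * (X 0 * X 1 * Vol8 X / √H) * (1 + Real.log Z) ^ 12 := by
        rw [← mul_sum]
        gcongr
        exact (h3 Z z1).1
    _ = 3442400 * (X 0 * X 1 * Vol8 X) * (1 + Real.log Z) ^ 12 / √H := by ring
    _ ≤ _ := by
        rw [Vol_eq]
        gcongr
        norm_num

end Pool.Agent.MP_e23604_nt.U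

end
end
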