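import Pool.Agent.Mg.Fe23604m.G180f29
import Pool.Agent.MP_e23604_nt.P.Div
import Pool.Agent.MP_e23604_nt.P.SW
import Pool.Agent.MP_e23604_nt.P.Bonf
import Pool.Agent.Mg.Fe23604m.G651d65
import Pool.Agent.MP_e23604_nt.P.Defs
import Pool.Agent.MP_c903c4_nt.Four

set_option linter.all false

section

/-!
Lattice points on lines, strips, and the forms on the box.
-/

open Finset
open scoped Classical

noncomputable section

namespace Pool.Agent.MP_e23604_nt.P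

/-- Points of a set on a line, spaced by multiples of `t0`. -/
theorem card_line (B : Finset (ℤ × ℤ)) {α β : ℤ} (h : IsCoprime α β) (n : ℤ) {T0 : ℝ}
    (h0 : 0 ≤ T0) {t0 : ℕ} (ht : 1 ≤ t0)
    (hT : ∀ z ∈ B, ∀ t : ℤ, (z.1 + t * β, z.2 - t * α) ∈ B → |(t : ℝ)| ≤ T0 ∧ (t0 : ℤ) ∣ t) :
    ((B.filter fun z => α * z.1 + β * z.2 = n).card : ℝ) ≤ T0 / t0 + 1 := by
  obtain ⟨a, b, hab⟩ := h
  have ht0 : (0 : ℝ) < t0 := by exact_mod_cast ht
  have hq : 0 ≤ T0 / t0 := by positivity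
  rcases (B.filter fun z => α * z.1 + β * z.2 = n).eq_empty_or_nonempty with he | hne
  · rw [he, card_empty, Nat.cast_zero]
    linarith
  obtain ⟨z1, hz1, hmin⟩ := exists_min_image _ (fun z : ℤ × ℤ => b * z.1 - a * z.2) hne
  have key : ∀ z ∈ B.filter fun z => α * z.1 + β * z.2 = n, ∃ j : ℕ,
      j < ⌊T0 / t0⌋₊ + 1 ∧ z = (z1.1 + j * t0 * β, z1.2 - j * t0 * α) := by
    intro z hz
    have h1 := hmin z hz
    rw [mem_filter] at hz hz1
    have e : z = (z1.1 + (b * z.1 - a * z.2 - (b * z1.1 - a * z1.2)) * β,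
        z1.2 - (b * z.1 - a * z.2 - (b * z1.1 - a * z1.2)) * α) :=
      Prod.ext (by linear_combination a * hz.2 - a * hz1.2 - (z.1 - z1.1) * hab)
        (by linear_combination b * hz.2 - b * hz1.2 - (z.2 - z1.2) * hab)
    rw [← sub_nonneg] at h1
    generalize b * z.1 - a * z.2 - (b * z1.1 - a * z1.2) = t at e h1
    obtain ⟨h2, j, rfl⟩ := hT z1 hz1.1 t (e ▸ hz.1)
    have h3 : 0 ≤ j := nonneg_of_mul_nonneg_right h1 (by exact_mod_cast ht)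
    lift j to ℕ using h3
    refine ⟨j, Nat.lt_succ_of_le (Nat.le_floor ?_), by rw [e, mul_comm (t0 : ℤ)]⟩
    rw [le_div_iff₀ ht0]
    have h4 := (le_abs_self _).trans h2
    push_cast at h4
    linarith
  have hs : (B.filter fun z => α * z.1 + β * z.2 = n) ⊆ (range (⌊T0 / t0⌋₊ + 1)).image
      fun j : ℕ => (z1.1 + j * t0 * β, z1.2 - j * t0 * α) := fun z hz => by
    obtain ⟨j, h1, h2⟩ := key z hz
    exact mem_image.2 ⟨j, mem_range.2 h1, h2.symm⟩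
  have h5 := (card_le_card hs).trans card_image_le
  rw [card_range] at h5
  have h6 : ((B.filter fun z => α * z.1 + β * z.2 = n).card : ℝ) ≤ ⌊T0 / t0⌋₊ + 1 := by
    exact_mod_cast h5
  linarith [Nat.floor_le hq]

/-- A primitive form without zeros on a set is spread. -/
theorem spread_form (B : Finset (ℤ × ℤ)) {α β : ℤ} (h : IsCoprime α β) {T0 N : ℝ} (h0 : 0 ≤ T0)
    (hN : 1 ≤ N) (hB : ∀ z ∈ B, α * z.1 + β * z.2 ≠ 0 ∧ |((α * z.1 + β * z.2 : ℤ) : ℝ)| ≤ N)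
    (hT : ∀ z ∈ B, ∀ t : ℤ, (z.1 + t * β, z.2 - t * α) ∈ B → |(t : ℝ)| ≤ T0) :
    Spread B (fun z => α * z.1 + β * z.2) (2 * (T0 + 1)) N := by
  refine ⟨hN, fun z hz => ⟨(hB z hz).1, ?_⟩, fun n => ?_⟩
  · rw [Nat.cast_natAbs, Int.cast_abs]
    exact (hB z hz).2
  have h1 := fun k => card_line B h k h0 le_rfl fun z hz t ht => ⟨hT z hz t ht, one_dvd t⟩
  have hs : (B.filter fun z => (α * z.1 + β * z.2).natAbs = n) ⊆
      (B.filter fun z => α * z.1 + β * z.2 = n) ∪ B.filter fun z => α * z.1 + β * z.2 = -n := by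
    intro z hz
    simp only [mem_filter, mem_union] at hz ⊢
    rcases Int.natAbs_eq_iff.1 hz.2 with e | e
    exacts [Or.inl ⟨hz.1, e⟩, Or.inr ⟨hz.1, e⟩]
  have h2 := (Nat.cast_le (α := ℝ)).2 ((card_le_card hs).trans (card_union_le _ _))
  have h3 := h1 n
  have h4 := h1 (-n)
  rw [Nat.cast_one, div_one] at h3 h4
  rw [Nat.cast_add] at h2
  linarith

theorem xGeo_Ioc {a b : ℤ} {S : ℝ} (hS : 0 ≤ S) (h : (b : ℝ) - a ≤ S) :
    ((Ioc a b).card : ℝ) ≤ S := by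
  rw [Int.card_Ioc]
  rcases le_total 0 (b - a) with h1 | h1
  · rw [← Int.cast_natCast, Int.toNat_of_nonneg h1]
    push_cast
    exact h
  · rw [Int.toNat_of_nonpos h1, Nat.cast_zero]
    exact hS

theorem xGeo_strip (a b : ℤ) {η : ℝ} (h : 0 ≤ η) :
    (((Ioc a b).filter fun x : ℤ => (x : ℝ) ≤ a + η ∨ (b : ℝ) - η < x).card : ℝ) ≤
      2 * (η + 1) := by
  have hs : ((Ioc a b).filter fun x : ℤ => (x : ℝ) ≤ a + η ∨ (b : ℝ) - η < x) ⊆
      Ioc a ⌊a + η⌋ ∪ Ioc ⌊b - η⌋ b := by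
    intro x hx
    simp only [mem_filter, mem_union, mem_Ioc, Int.le_floor, Int.floor_lt] at hx ⊢
    exact hx.2.imp (fun h => ⟨hx.1.1, h⟩) fun h => ⟨h, hx.1.2⟩
  have h2 := (Nat.cast_le (α := ℝ)).2 ((card_le_card hs).trans (card_union_le _ _))
  have h3 := xGeo_Ioc (a := a) (b := ⌊a + η⌋) (S := η + 1) (by linarith)
    (by linarith [Int.floor_le (a + η)])
  have h4 := xGeo_Ioc (a := ⌊b - η⌋) (b := b) (S := η + 1) (by linarith)
    (by linarith [Int.lt_floor_add_one (b - η)])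
  rw [Nat.cast_add] at h2
  linarith

theorem card_near (d : Datum) {η1 η2 S1 S2 : ℝ} (h1 : 0 ≤ η1) (h2 : 0 ≤ η2) (hS1 : 0 ≤ S1)
    (hS2 : 0 ≤ S2) (hA : (d.A2 : ℝ) - d.A1 ≤ S1) (hB : (d.B2 : ℝ) - d.B1 ≤ S2) :
    ((d.near η1 η2).card : ℝ) ≤ 2 * (η1 + 1) * S2 + 2 * (η2 + 1) * S1 := by
  have hs : d.near η1 η2 ⊆
      ((Ioc d.A1 d.A2).filter fun x : ℤ => (x : ℝ) ≤ d.A1 + η1 ∨ (d.A2 : ℝ) - η1 < x) ×ˢ
        Ioc d.B1 d.B2 ∪ Ioc d.A1 d.A2 ×ˢ
      (Ioc d.B1 d.B2).filter fun x : ℤ => (x : ℝ) ≤ d.B1 + η2 ∨ (d.B2 : ℝ) - η2 < x := by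
    intro z hz
    simp only [Datum.near, Datum.bx, mem_filter, mem_union, mem_product] at hz ⊢
    tauto
  have h3 := (Nat.cast_le (α := ℝ)).2 ((card_le_card hs).trans (card_union_le _ _))
  rw [card_product, card_product] at h3
  push_cast at h3
  have h4 := mul_le_mul (xGeo_strip d.A1 d.A2 h1) (xGeo_Ioc hS2 hB) (Nat.cast_nonneg _)
    (by positivity)
  have h5 := mul_le_mul (xGeo_strip d.B1 d.B2 h2) (xGeo_Ioc hS1 hA) (Nat.cast_nonneg _)
    (by positivity)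
  linarith

theorem xGeo_sum {ι : Type} (s : Finset ι) (f : ι → ℝ) (h : ∀ i, |f i| ≤ 1) :
    ∑ i ∈ s, |f i| ≤ (s.filter fun i => f i ≠ 0).card := by
  rw [← sum_filter_of_ne (p := fun i => f i ≠ 0) fun i _ hi => abs_ne_zero.1 hi]
  exact (sum_le_card_nsmul _ _ 1 fun i _ => h i).trans_eq (by simp)

theorem sum_mu_le {u : ℤ} (hu : u ≠ 0) (E : Finset ℕ) : ∑ e ∈ E, |mu e u| ≤ tau u :=
  (xGeo_sum E _ fun e => abs_mu_le e u).trans
    (card_le_tau hu _ fun _ hd => mu_dvd (mem_filter.1 hd).2)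

end Pool.Agent.MP_e23604_nt.P

end
end

section

/-!
The bound for one pair of linear forms.
-/

open Finset
open scoped Classical

noncomputable section

namespace Pool.Agent.MP_e23604_nt.P

theorem xPair_abs (g Φ : ℤ → ℝ) (y : ℤ) (w K : ℕ) (hK : 1 ≤ K) {M : ℝ} (hM : 0 ≤ M)
    (hΦ : ∀ u, |Φ u| ≤ M)
    (hp : ∀ u ∈ Ico y (y + w), ∀ u' ∈ Ico y (y + w), u % (K : ℤ) = u' % K → Φ u = Φ u') :
    |∑ u ∈ Ico y (y + w), g u * Φ u| ≤ M * NN g y w K := by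
  have hK' : (0 : ℤ) < K := by exact_mod_cast hK
  rw [← sum_fiberwise_of_maps_to (t := Ico (0 : ℤ) K) (g := fun u => u % (K : ℤ))
    (fun u _ => mem_Ico.2 ⟨Int.emod_nonneg _ hK'.ne', Int.emod_lt_of_pos _ hK'⟩), NN, mul_sum]
  refine (abs_sum_le_sum_abs _ _).trans (sum_le_sum fun c _ => ?_)
  rcases ((Ico y (y + w)).filter fun u => u % (K : ℤ) = c).eq_empty_or_nonempty with h | ⟨u0, h⟩
  · rw [h, sum_empty, abs_zero]
    positivity
  · rw [sum_congr rfl fun u hu => by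
      rw [hp u (mem_filter.1 hu).1 u0 (mem_filter.1 h).1
        ((mem_filter.1 hu).2.trans (mem_filter.1 h).2.symm)], ← sum_mul, abs_mul, mul_comm]
    exact mul_le_mul_of_nonneg_right (hΦ _) (abs_nonneg _)

def xPair_good (d : Datum) (w j : ℕ) (n : ℤ) : Prop :=
  ∀ z : ℤ × ℤ, d.m * ((w : ℤ) * j) ≤ d.l z → d.l z < d.m * ((w : ℤ) * j + w) → d.l' z = n → z ∈ d.bx

def xPair_B (d : Datum) : Finset (ℤ × ℤ) := d.bx.filter fun z => d.F z.1 z.2 ≠ 0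

def xPair_Phi (d : Datum) (g' : ℤ → ℝ) (w j : ℕ) (u : ℤ) : ℝ :=
  ∑ z ∈ (xPair_B d).filter fun z => d.l z = d.m * u ∧ xPair_good d w j (d.l' z),
    d.F z.1 z.2 * g' (d.l' z / (d.m' : ℤ))

theorem xPair_div {x : ℤ} {m : ℕ} {U : ℝ} (hm : 1 ≤ m) (hd : (m : ℤ) ∣ x) (h0 : 0 < x)
    (hU : (x : ℝ) ≤ U) : 0 < x / (m : ℤ) ∧ ((x / (m : ℤ) : ℤ) : ℝ) ≤ U := by
  have hm' : (0 : ℤ) < m := by exact_mod_cast hm
  refine ⟨Int.ediv_pos_of_pos_of_dvd h0 hm'.le hd, le_trans ?_ hU⟩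
  exact_mod_cast Int.ediv_le_self _ h0.le

theorem xPair_Phi_le (d : Datum) {U T0 Γ : ℝ} (h : d.OK U T0) (hT : 0 ≤ T0) (hΓ : 0 ≤ Γ)
    (g' : ℤ → ℝ) (hg' : ∀ u : ℤ, 0 < u → (u : ℝ) ≤ U → |g' u| ≤ Γ) (w j : ℕ) (u : ℤ) :
    |xPair_Phi d g' w j u| ≤ Γ * (T0 / d.t0 + 1) := by
  have hc := card_line (xPair_B d) h.cop (d.m * u) hT h.t0_pos fun z hz t ht =>
    ⟨h.len z (mem_filter.1 hz).1 t (mem_filter.1 ht).1,
      h.sparse _ _ t (mem_filter.1 hz).2 (mem_filter.1 ht).2⟩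
  refine (abs_sum_le_sum_abs _ _).trans ((sum_le_card_nsmul _ _ Γ fun z hz => ?_).trans ?_)
  · obtain ⟨h1, h2⟩ := mem_filter.1 (mem_filter.1 hz).1
    obtain ⟨-, -, h3, h4⟩ := h.rng z h1
    obtain ⟨h5, h6⟩ := xPair_div h.m'_pos (h.dvd _ _ h2).2 h3 h4
    rw [abs_mul]
    exact (mul_le_of_le_one_left (abs_nonneg _) (h.bd _ _)).trans (hg' _ h5 h6)
  · rw [nsmul_eq_mul, mul_comm]
    refine mul_le_mul_of_nonneg_left (le_trans ?_ hc) hΓ
    refine Nat.cast_le.2 (card_le_card fun z hz => ?_)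
    obtain ⟨h1, h2, -⟩ := mem_filter.1 hz
    exact mem_filter.2 ⟨h1, h2⟩

theorem xPair_shift (d : Datum) (hm : 1 ≤ d.m) {w j : ℕ} {u u' : ℤ} {z z' : ℤ × ℤ}
    (hu' : u' ∈ Ico ((w : ℤ) * j) (w * j + w)) (h1 : d.l z' = d.l z + d.m * (u' - u))
    (h2 : d.l' z' = d.l' z) (h3 : d.F z'.1 z'.2 = d.F z.1 z.2)
    (hz : z ∈ (xPair_B d).filter fun z => d.l z = d.m * u ∧ xPair_good d w j (d.l' z)) :
    z' ∈ (xPair_B d).filter fun z => d.l z = d.m * u' ∧ xPair_good d w j (d.l' z) := by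
  obtain ⟨hB, hl, hg⟩ := mem_filter.1 hz
  have hm' : (0 : ℤ) < d.m := by exact_mod_cast hm
  have h4 : d.l z' = d.m * u' := by rw [h1, hl]; ring
  obtain ⟨h5, h6⟩ := mem_Ico.1 hu'
  refine mem_filter.2 ⟨mem_filter.2 ⟨hg z' ?_ ?_ h2, h3 ▸ (mem_filter.1 hB).2⟩, h4, h2 ▸ hg⟩
  · rw [h4]
    exact mul_le_mul_of_nonneg_left h5 hm'.le
  · rw [h4]
    exact mul_lt_mul_of_pos_left h6 hm'

theorem xPair_per (d : Datum) {U T0 : ℝ} (h : d.OK U T0) (g' : ℤ → ℝ) (w j : ℕ) :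
    ∀ u ∈ Ico ((w : ℤ) * j) (w * j + w), ∀ u' ∈ Ico ((w : ℤ) * j) (w * j + w),
      u % (d.K : ℤ) = u' % d.K → xPair_Phi d g' w j u = xPair_Phi d g' w j u' := by
  intro u hu u' hu' he
  obtain ⟨t, ht⟩ := Int.ModEq.dvd he
  have hK : (d.K : ℤ) = d.K0 * (d.det.sign * d.det) := by
    rw [Datum.K, Nat.cast_mul, Int.sign_mul_self_eq_natAbs]
  rw [hK] at ht
  generalize d.det.sign = σ at ht
  rw [Datum.det] at ht
  have hl' : ∀ (z : ℤ × ℤ) (c : ℤ), d.l' (z.1 + d.K0 * (c * d.β'), z.2 + d.K0 * (-c * d.α')) =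
      d.l' z := fun z c => by
    simp only [Datum.l']
    ring
  refine sum_nbij' (fun z => (z.1 + d.K0 * (d.m * t * σ * d.β'), z.2 + d.K0 * (-(d.m * t * σ) * d.α')))
    (fun z => (z.1 + d.K0 * (-(d.m * t * σ) * d.β'), z.2 + d.K0 * (-(-(d.m * t * σ)) * d.α')))
    (fun z hz => xPair_shift d h.m_pos hu' ?_ (hl' _ _) (h.per.mul _ _ _ _) hz)
    (fun z hz => xPair_shift d h.m_pos hu ?_ (hl' _ _) (h.per.mul _ _ _ _) hz)
    (fun z _ => ?_) (fun z _ => ?_) (fun z _ => ?_)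
  · simp only [Datum.l]
    linear_combination (-d.m : ℤ) * ht
  · simp only [Datum.l]
    linear_combination (d.m : ℤ) * ht
  · ext <;> simp
  · ext <;> simp
  · rw [hl', h.per.mul]

theorem xPair_near (d : Datum) (hdet : d.det ≠ 0) {η1 η2 : ℝ} {w j : ℕ}
    (h1 : d.m * w * |(d.β' : ℝ)| ≤ η1 * |(d.det : ℝ)|)
    (h2 : d.m * w * |(d.α' : ℝ)| ≤ η2 * |(d.det : ℝ)|) {z : ℤ × ℤ} (hz : z ∈ d.bx)
    (ha : d.m * ((w : ℤ) * j) ≤ d.l z) (hb : d.l z < d.m * ((w : ℤ) * j + w))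
    (hg : ¬ xPair_good d w j (d.l' z)) : z ∈ d.near η1 η2 := by
  unfold xPair_good at hg
  push Not at hg
  obtain ⟨y, ya, yb, yl, hy⟩ := hg
  have hd : (0 : ℝ) < |(d.det : ℝ)| := abs_pos.2 (by exact_mod_cast hdet)
  have hΔ : |((d.l z - d.l y : ℤ) : ℝ)| ≤ d.m * w := by
    have : |d.l z - d.l y| ≤ d.m * w := abs_le.2 ⟨by linarith, by linarith⟩
    exact_mod_cast this
  have key : ∀ (x c : ℤ) (η : ℝ), d.det * x = c * (d.l z - d.l y) →
      d.m * w * |(c : ℝ)| ≤ η * |(d.det : ℝ)| → |(x : ℝ)| ≤ η := fun x c η e hη => by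
    refine le_of_mul_le_mul_right (le_trans ?_ hη) hd
    have e' : (x : ℝ) * d.det = ((d.l z - d.l y : ℤ) : ℝ) * c := by
      rw [mul_comm, mul_comm _ (c : ℝ)]
      exact_mod_cast e
    rw [← abs_mul, e', abs_mul]
    exact mul_le_mul_of_nonneg_right hΔ (abs_nonneg _)
  have k1 := key (z.1 - y.1) d.β' η1 (by
    simp only [Datum.l, Datum.l', Datum.det] at yl ⊢
    linear_combination d.β * yl) h1
  have k2 := key (z.2 - y.2) (-d.α') η2 (by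
    simp only [Datum.l, Datum.l', Datum.det] at yl ⊢
    linear_combination (-d.α) * yl) (by rwa [Int.cast_neg, abs_neg])
  push_cast at k1 k2
  rw [abs_le] at k1 k2
  refine mem_filter.2 ⟨hz, ?_⟩
  by_contra hn
  push Not at hn
  obtain ⟨n1, n2, n3, n4⟩ := hn
  refine hy (mem_product.2 ⟨mem_Ioc.2 ⟨?_, ?_⟩, mem_Ioc.2 ⟨?_, ?_⟩⟩)
  · exact_mod_cast (show (d.A1 : ℝ) < y.1 by linarith [k1.2])
  · exact_mod_cast (show (y.1 : ℝ) ≤ d.A2 by linarith [k1.1])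
  · exact_mod_cast (show (d.B1 : ℝ) < y.2 by linarith [k2.2])
  · exact_mod_cast (show (y.2 : ℝ) ≤ d.B2 by linarith [k2.1])

theorem xPair_single {w J : ℕ} (hw : 1 ≤ w) {m u0 : ℤ} (hm : 0 < m) (h0 : 0 ≤ u0)
    (hJ : u0 < w * J) : ∃ j0 : ℕ, (w : ℤ) * j0 ≤ u0 ∧ u0 < w * j0 + w ∧
      ∀ (p : ℕ → Prop) (c : ℤ → ℝ), (∑ j ∈ range J, ∑ u ∈ Ico ((w : ℤ) * j) (w * j + w),
        if m * u0 = m * u ∧ p j then c u else 0) = if p j0 then c u0 else 0 := by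
  have hw' : (0 : ℤ) < w := by exact_mod_cast hw
  obtain ⟨j0, hj0⟩ := Int.eq_ofNat_of_zero_le (Int.ediv_nonneg h0 hw'.le)
  have a1 : (w : ℤ) * j0 ≤ u0 := hj0 ▸ Int.mul_ediv_self_le hw'.ne'
  have a2 : u0 < w * j0 + w := hj0 ▸ Int.lt_mul_ediv_self_add hw'
  refine ⟨j0, a1, a2, fun p c => ?_⟩
  rw [sum_eq_single j0, sum_eq_single u0]
  · simp
  · intro u _ hu
    rw [if_neg fun h => hu (mul_left_cancel₀ hm.ne' h.1).symm]
  · exact fun h => absurd (mem_Ico.2 ⟨a1, a2⟩) h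
  · intro j _ hj
    refine sum_eq_zero fun u hu => if_neg fun h => hj ?_
    obtain ⟨b1, b2⟩ := mem_Ico.1 hu
    rw [← mul_left_cancel₀ hm.ne' h.1] at b1 b2
    have c1 : (j : ℤ) < j0 + 1 := lt_of_mul_lt_mul_left (by linarith) hw'.le
    have c2 : (j0 : ℤ) < j + 1 := lt_of_mul_lt_mul_left (by linarith) hw'.le
    omega
  · intro h
    have c1 : (j0 : ℤ) < J := lt_of_mul_lt_mul_left (by linarith) hw'.le
    exact absurd (mem_range.2 (by omega)) h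

theorem pair (d : Datum) {U T0 Γ η1 η2 : ℝ} (h : d.OK U T0) (hT : 0 ≤ T0) (hΓ : 0 ≤ Γ)
    (g g' : ℤ → ℝ) (hg : ∀ u : ℤ, 0 < u → (u : ℝ) ≤ U → |g u| ≤ Γ)
    (hg' : ∀ u : ℤ, 0 < u → (u : ℝ) ≤ U → |g' u| ≤ Γ) {w J : ℕ} (hw : 1 ≤ w)
    (hJ : U < d.m * w * J) (h1 : d.m * w * |(d.β' : ℝ)| ≤ η1 * |(d.det : ℝ)|)
    (h2 : d.m * w * |(d.α' : ℝ)| ≤ η2 * |(d.det : ℝ)|) :
    |d.T g g'| ≤ Γ ^ 2 * d.mass (d.near η1 η2) +
      Γ * (T0 / d.t0 + 1) * ∑ j ∈ range J, NN g ((w : ℤ) * j) w d.K := by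
  have hm : (0 : ℤ) < d.m := by exact_mod_cast h.m_pos
  have hK : 1 ≤ d.K := Nat.mul_pos h.K0_pos (Int.natAbs_pos.2 h.det)
  have hB : d.T g g' = ∑ z ∈ xPair_B d,
      d.F z.1 z.2 * g (d.l z / (d.m : ℤ)) * g' (d.l' z / (d.m' : ℤ)) := by
    rw [xPair_B, sum_filter_of_ne, Datum.T]
    intro z _ hz h0
    exact hz (by rw [h0, zero_mul, zero_mul])
  have hS : ∑ j ∈ range J, ∑ u ∈ Ico ((w : ℤ) * j) (w * j + w), g u * xPair_Phi d g' w j u =
      ∑ z ∈ xPair_B d, ∑ j ∈ range J, ∑ u ∈ Ico ((w : ℤ) * j) (w * j + w),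
        if d.l z = d.m * u ∧ xPair_good d w j (d.l' z) then
          g u * (d.F z.1 z.2 * g' (d.l' z / (d.m' : ℤ))) else 0 := by
    rw [sum_comm]
    refine sum_congr rfl fun j _ => ?_
    rw [sum_comm]
    refine sum_congr rfl fun u _ => ?_
    rw [xPair_Phi, mul_sum, sum_filter]
  have hb : |∑ j ∈ range J, ∑ u ∈ Ico ((w : ℤ) * j) (w * j + w), g u * xPair_Phi d g' w j u| ≤
      Γ * (T0 / d.t0 + 1) * ∑ j ∈ range J, NN g ((w : ℤ) * j) w d.K := by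
    rw [mul_sum]
    exact (abs_sum_le_sum_abs _ _).trans (sum_le_sum fun j _ => xPair_abs g _ _ w d.K hK
      (by positivity) (xPair_Phi_le d h hT hΓ g' hg' w j) (xPair_per d h g' w j))
  have ha : |d.T g g' - ∑ j ∈ range J, ∑ u ∈ Ico ((w : ℤ) * j) (w * j + w),
      g u * xPair_Phi d g' w j u| ≤ Γ ^ 2 * d.mass (d.near η1 η2) := by
    rw [hB, hS, ← sum_sub_distrib]
    refine (abs_sum_le_sum_abs _ _).trans ((sum_le_sum (g := fun z =>
      if z ∈ d.near η1 η2 then Γ ^ 2 * |d.F z.1 z.2| else 0) fun z hz => ?_).trans ?_)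
    · obtain ⟨z1, z2⟩ := mem_filter.1 hz
      obtain ⟨r1, r2, r3, r4⟩ := h.rng z z1
      obtain ⟨d1, d2⟩ := h.dvd _ _ z2
      obtain ⟨u1, u2⟩ := xPair_div h.m_pos d1 r1 r2
      obtain ⟨u3, u4⟩ := xPair_div h.m'_pos d2 r3 r4
      have e : d.l z = d.m * (d.l z / (d.m : ℤ)) := (Int.mul_ediv_cancel' d1).symm
      have hu : d.l z / (d.m : ℤ) < w * J := by
        refine lt_of_mul_lt_mul_left ?_ hm.le
        rw [← e, ← mul_assoc]
        exact_mod_cast r2.trans_lt hJ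
      have g1 := hg _ u1 u2
      have g2 := hg' _ u3 u4
      change |g (d.l z / (d.m : ℤ))| ≤ Γ at g1
      change |g' (d.l' z / (d.m' : ℤ))| ≤ Γ at g2
      change 0 < d.l z / (d.m : ℤ) at u1
      generalize d.l z / (d.m : ℤ) = u0 at e hu g1 u1
      obtain ⟨j0, a1, a2, a3⟩ := xPair_single hw hm u1.le hu
      have a4 := a3 (fun j => xPair_good d w j (d.l' z))
        (fun u => g u * (d.F z.1 z.2 * g' (d.l' z / (d.m' : ℤ))))
      rw [← e] at a4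
      rw [a4]
      by_cases hgd : xPair_good d w j0 (d.l' z)
      · rw [if_pos hgd, show ∀ a b c : ℝ, a * b * c - b * (a * c) = 0 from fun a b c => by ring,
          abs_zero]
        split_ifs <;> positivity
      · rw [if_neg hgd, sub_zero, if_pos (xPair_near d h.det h1 h2 z1
          (e ▸ mul_le_mul_of_nonneg_left a1 hm.le) (e ▸ mul_lt_mul_of_pos_left a2 hm) hgd),
          abs_mul, abs_mul, mul_assoc, mul_comm, pow_two]
        exact mul_le_mul_of_nonneg_right (mul_le_mul g1 g2 (abs_nonneg _) hΓ) (abs_nonneg _)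
    · rw [← sum_filter, Datum.mass, mul_sum]
      exact sum_le_sum_of_subset_of_nonneg (fun z hz => (mem_filter.1 hz).2)
        fun z _ _ => by positivity
  have := abs_add_le (d.T g g' - ∑ j ∈ range J, ∑ u ∈ Ico ((w : ℤ) * j) (w * j + w),
      g u * xPair_Phi d g' w j u)
    (∑ j ∈ range J, ∑ u ∈ Ico ((w : ℤ) * j) (w * j + w), g u * xPair_Phi d g' w j u)
  rw [sub_add_cancel] at this
  linarith

end Pool.Agent.MP_e23604_nt.P

end
end

section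

/-!
The primes and their model have the same distribution in progressions of small modulus.
-/

open Finset
open scoped Classical

noncomputable section

namespace Pool.Agent.MP_e23604_nt.P

theorem xSWg_cnt {N : ℤ} (hN : 0 < N) (r : ℤ) (y : ℕ) :
    |(((Ico (0 : ℤ) y).filter fun u => u ≡ r [ZMOD N]).card : ℝ) - y / (N : ℝ)| ≤ 1 := by
  have h := Int.Ico_filter_modEq_card 0 y hN r
  have hN' : (0 : ℚ) < N := by exact_mod_cast hN
  have e : (((y : ℤ) : ℚ) - r) / N = (((0 : ℤ) : ℚ) - r) / N + y / N := by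
    push_cast
    ring
  have h0 : (0 : ℚ) ≤ y / N := by positivity
  rw [e, max_eq_left (sub_nonneg.2 (Int.ceil_mono (le_add_of_nonneg_right h0)))] at h
  have h1 : |(((Ico (0 : ℤ) y).filter fun u => u ≡ r [ZMOD N]).card : ℚ) - y / (N : ℚ)| ≤ 1 := by
    have h2 := congrArg (Int.cast : ℤ → ℚ) h
    rw [Int.cast_natCast, Int.cast_sub] at h2
    generalize (((0 : ℤ) : ℚ) - r) / N = a at h2
    have := Int.le_ceil a
    have := Int.ceil_lt_add_one a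
    have := Int.le_ceil (a + y / N)
    have := Int.ceil_lt_add_one (a + y / N)
    rw [h2, abs_le]
    constructor <;> linarith
  exact_mod_cast h1

theorem xSWg_crt {d c : ℕ} {E : Finset ℕ} (hE : ∀ q ∈ E, q.Prime ∧ ¬ q ∣ d) :
    ∃ r : ℤ, ∀ u : ℤ, (u % (d : ℤ) = (c : ℤ) % d ∧ ∀ q ∈ E, (q : ℤ) ∣ u) ↔
      u ≡ r [ZMOD d * (∏ q ∈ E, q : ℕ)] := by
  have hc : d.Coprime (∏ q ∈ E, q) := Nat.Coprime.prod_right fun q hq =>
    ((Nat.Prime.coprime_iff_not_dvd (hE q hq).1).2 (hE q hq).2).symm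
  obtain ⟨r, h1, h2⟩ := Nat.chineseRemainder hc c 0
  refine ⟨r, fun u => ?_⟩
  rw [← Int.modEq_and_modEq_iff_modEq_mul (by simpa only [Int.natAbs_natCast] using hc)]
  have h3 : (r : ℤ) ≡ c [ZMOD d] := Int.natCast_modEq_iff.2 h1
  have h4 : (r : ℤ) ≡ 0 [ZMOD (∏ q ∈ E, q : ℕ)] := Int.natCast_modEq_iff.2 h2
  refine and_congr ⟨fun h => Int.ModEq.trans h h3.symm, fun h => h.trans h3⟩
    ⟨fun h => Int.ModEq.trans (Int.modEq_zero_iff_dvd.2 ?_) h4.symm, fun h q hq => ?_⟩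
  · exact Int.natCast_dvd.2 (Finset.prod_primes_dvd _ (fun q hq => (hE q hq).1.prime)
      fun q hq => Int.natCast_dvd.1 (h q hq))
  · exact (Int.natCast_dvd_natCast.2 (dvd_prod_of_mem _ hq)).trans
      (Int.modEq_zero_iff_dvd.1 (h.trans h4))

theorem xSWg_tot {W d : ℕ} (hd : 1 ≤ d) (hW : d ≤ W) (y : ℝ) :
    cW W * (y / d * ∏ q ∈ (PW W).filter fun q => ¬ q ∣ d, (1 - 1 / (q : ℝ))) = y / d.totient := by
  have h0 : ∀ q ∈ PW W, (1 - 1 / (q : ℝ)) ≠ 0 := fun q hq => by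
    have h1 : (1 : ℝ) < q := by exact_mod_cast (mem_filter.1 hq).2.one_lt
    exact (sub_pos.2 ((div_lt_one (by linarith)).2 h1)).ne'
  have h1 : (PW W).filter (fun q => q ∣ d) = d.primeFactors := by
    ext q
    simp only [PW, mem_filter, mem_range, Nat.mem_primeFactors]
    exact ⟨fun h => ⟨h.1.2, h.2, by omega⟩,
      fun h => ⟨⟨by have := Nat.le_of_dvd hd h.2.1; omega, h.1⟩, h.2.1⟩⟩
  have h2 : (d.totient : ℝ) = d * ∏ q ∈ d.primeFactors, (1 - 1 / (q : ℝ)) := by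
    have := congrArg (Rat.cast : ℚ → ℝ) (Nat.totient_eq_mul_prod_factors d)
    simpa using this
  have h3 := prod_ne_zero_iff.2 fun q (hq : q ∈ (PW W).filter fun q => ¬ q ∣ d) =>
    h0 q (mem_filter.1 hq).1
  rw [cW, prod_inv_distrib, ← prod_filter_mul_prod_filter_not (PW W) (fun q => q ∣ d), h1, h2,
    mul_inv, ← div_div, div_eq_mul_inv (y / d)]
  field_simp

theorem xSWg_root {a X : ℝ} (ha : 0 ≤ a) (h : a ^ 4 ≤ X) : a ≤ X ^ (1 / 4 : ℝ) := by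
  have h1 := Real.pow_rpow_inv_natCast ha (n := 4) (by norm_num)
  have h2 := Real.rpow_le_rpow (by positivity) h (z := ((4 : ℕ) : ℝ)⁻¹) (by positivity)
  rw [h1] at h2
  simpa using h2

theorem xSWg_lam {d c : ℕ} (hc : c < d) (y : ℕ) :
    ∑ n ∈ (Icc 1 y).filter fun n => n.Prime ∧ n % d = c % d, Real.log n =
      ∑ u ∈ (Ico (0 : ℤ) y).filter fun u => u % (d : ℤ) = c, lam u +
        if y % d = c then lam y else 0 := by
  have h1 : ∑ u ∈ (Ico (0 : ℤ) y).filter fun u => u % (d : ℤ) = c, lam u =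
      ∑ n ∈ range y, if n % d = c then lam n else 0 := by
    rw [sum_filter, Int.Ico_eq_finset_map, sum_map, sub_zero, Int.toNat_natCast]
    refine sum_congr rfl fun n _ => ?_
    simp only [Function.Embedding.trans_apply, Nat.castEmbedding_apply, addLeftEmbedding_apply,
      zero_add, ← Int.natCast_mod, Nat.cast_inj]
  rw [h1, ← sum_range_succ (fun n => if n % d = c then lam n else 0), Nat.mod_eq_of_lt hc,
    sum_filter, range_eq_Ico, sum_eq_sum_Ico_succ_bot (Nat.add_one_pos y), Ico_add_one_right_eq_Icc]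
  simp only [lam, Int.toNat_natCast, Nat.not_prime_zero, if_false, ite_self, zero_add,
    Int.cast_natCast]
  refine sum_congr rfl fun n _ => ?_
  by_cases h2 : n.Prime <;> by_cases h3 : n % d = c <;> simp [h2, h3]

theorem model_ap (A B : ℕ) : ∃ X1 : ℕ, ∀ X ≥ X1, ∀ d : ℕ, 1 ≤ d → d ≤ WW B X → ∀ c : ℕ,
    Nat.Coprime c d → ∀ y : ℕ,
    |∑ u ∈ (Ico (0 : ℤ) y).filter fun u => u % (d : ℤ) = (c : ℤ) % d, shp (WW B X) u
      - y / (d.totient : ℝ)| ≤ y / Real.log X ^ A + (X : ℝ) ^ (1 / 4 : ℝ) := by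
  obtain ⟨X1, h1⟩ := cW_le B
  obtain ⟨X2, h2⟩ := exists_level B (A + 3) 8
  obtain ⟨X3, h3⟩ := log_pow_le 1 8 2
  refine ⟨max X1 (max X2 X3), fun X hX d hd hW c hc y => ?_⟩
  simp only [ge_iff_le, max_le_iff] at hX
  obtain ⟨k, k1, k2⟩ := h2 X hX.2.1
  obtain ⟨l1, l2⟩ := h3 X hX.2.2
  have c1 := h1 X hX.1
  have c0 := one_le_cW (WW B X)
  generalize WW B X = W at *
  generalize Real.log X = L at *
  have hd' : (1 : ℝ) ≤ d := by exact_mod_cast hd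
  have hI : ∀ q ∈ (PW W).filter fun q => ¬ q ∣ d, q.Prime ∧ ¬ q ∣ d := fun q hq =>
    ⟨(mem_filter.1 (mem_filter.1 hq).1).2, (mem_filter.1 hq).2⟩
  have key := fund ((Ico (0 : ℤ) y).filter fun u => u % (d : ℤ) = (c : ℤ) % d) (fun _ => 1)
    (fun _ _ => zero_le_one) ((PW W).filter fun q => ¬ q ∣ d) (fun q u => (q : ℤ) ∣ u)
    (fun q => 1 / (q : ℝ)) (fun q hq => ⟨by positivity, by
      rw [div_le_one (by exact_mod_cast (hI q hq).1.pos)]
      exact_mod_cast (hI q hq).1.pos⟩) (A := y / d) (R := 1) (by positivity) k fun E hE _ => by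
      obtain ⟨r, hr⟩ := xSWg_crt (c := c) fun q hq => hI q (hE hq)
      have h4 := xSWg_cnt (N := d * (∏ q ∈ E, q : ℕ)) (mul_pos (by exact_mod_cast hd)
        (by exact_mod_cast prod_pos fun q hq => (hI q (hE hq)).1.pos)) r y
      rw [filter_filter, sum_const, nsmul_one, prod_div_distrib, prod_const_one,
        div_mul_div_comm, mul_one]
      simp only [hr]
      push_cast at h4 ⊢
      exact h4
  have e1 : ∑ u ∈ (Ico (0 : ℤ) y).filter fun u => u % (d : ℤ) = (c : ℤ) % d, shp W u =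
      cW W * ∑ u ∈ ((Ico (0 : ℤ) y).filter fun u => u % (d : ℤ) = (c : ℤ) % d).filter
        fun u => ∀ q ∈ (PW W).filter fun q => ¬ q ∣ d, ¬ (q : ℤ) ∣ u, (1 : ℝ) := by
    rw [mul_sum, sum_filter (fun u => ∀ q ∈ (PW W).filter fun q => ¬ q ∣ d, ¬ (q : ℤ) ∣ u)]
    refine sum_congr rfl fun u hu => ?_
    rw [shp, mul_one]
    refine if_congr ⟨fun h q hq => h q (mem_filter.1 hq).1, fun h q hq hqu => ?_⟩ rfl rfl
    refine h q (mem_filter.2 ⟨hq, fun hqd => ?_⟩) hqu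
    have h4 : (q : ℤ) ∣ c - u :=
      (Int.natCast_dvd_natCast.2 hqd).trans (Int.ModEq.dvd (mem_filter.1 hu).2)
    have h5 : q ∣ c := Int.natCast_dvd_natCast.1 (by simpa using dvd_add h4 hqu)
    exact (mem_filter.1 hq).2.one_lt.ne' (Nat.eq_one_of_dvd_coprimes hc h5 hqd)
  have p1 : ∏ q ∈ (PW W).filter fun q => ¬ q ∣ d, (1 + 2 * (1 / (q : ℝ))) ≤ L ^ 2 := by
    refine le_trans (le_of_eq (prod_congr rfl fun q _ => ?_))
      ((prod_le_cW (filter_subset _ _) 2).trans (pow_le_pow_left₀ (by linarith) c1 2))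
    rw [mul_one_div, Nat.cast_ofNat]
  have p2 : ((((PW W).filter fun q => ¬ q ∣ d).card : ℝ) + 1) ^ (k + 1) ≤ (W + 1) ^ (k + 1) := by
    gcongr
    exact (card_filter_le _ _).trans (card_PW W)
  have p3 : 2 * L * (W + 1) ^ (k + 1) ≤ (X : ℝ) ^ (1 / 4 : ℝ) := by
    refine xSWg_root (by positivity) (abs_le_of_sq_le_sq' ?_ (Nat.cast_nonneg _)).2
    rw [← pow_mul, mul_pow, pow_two (X : ℝ)]
    rw [pow_one] at l2
    exact mul_le_mul l2 (by exact_mod_cast k2) (by positivity) (Nat.cast_nonneg _)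
  have L0 : 0 < L := by linarith
  rw [e1, ← xSWg_tot hd hW, ← mul_sub, abs_mul, abs_of_nonneg (zero_le_one.trans c0)]
  refine (mul_le_mul c1 (le_of_eq_of_le (by congr!) key) (abs_nonneg _) L0.le).trans ?_
  rw [mul_add]
  refine add_le_add ?_ (le_trans (by rw [mul_one, mul_left_comm, mul_assoc]; gcongr) p3)
  calc _ ≤ L * (y * L ^ 2 / L ^ (A + 3)) := by
        gcongr
        exact div_le_self (Nat.cast_nonneg _) hd'
    _ = _ := by
        field_simp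
        ring

theorem sw_gg (A B : ℕ) : ∃ X1 : ℕ, ∀ X ≥ X1, ∀ d : ℕ, 1 ≤ d → d ≤ WW B X → ∀ (c : ℤ) (x : ℝ),
    √X ≤ x → x ≤ (X : ℝ) ^ 3 → ∀ y : ℤ, 0 ≤ y → (y : ℝ) ≤ x →
    |∑ u ∈ (Ico (0 : ℤ) y).filter fun u => u % (d : ℤ) = c, gg (WW B X) u| ≤
      x / Real.log X ^ A := by
  obtain ⟨x0, h0⟩ := siegel_walfisz (2 * (A + 1)) (2 * (B + 1))
  obtain ⟨X1, h1⟩ := wt_all B
  obtain ⟨X2, h2⟩ := model_ap (A + 1) B
  obtain ⟨X3, h3⟩ := log_pow_le (A + 2) 4 12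
  obtain ⟨X4, h4⟩ := log_pow_le (A + 2) 6 1
  obtain ⟨X5, h5⟩ := log_pow_le 0 0 (3 * x0)
  refine ⟨max (max 3 X1) (max (max X2 X3) (max X4 X5)), fun X hX d hd hW c x hx hx' y hy hyx => ?_⟩
  simp only [ge_iff_le, max_le_iff] at hX
  obtain ⟨⟨w1, -⟩, -, w2, -⟩ := h1 X hX.1.2
  obtain ⟨l1, l2⟩ := h3 X hX.2.1.2
  have l3 := (h4 X hX.2.2.1).2
  have l4 := (h5 X hX.2.2.2).1
  have l5 := (WW_bounds B hX.1.1).2
  have m1 := h2 X hX.2.1.1 d hd hW
  lift y to ℕ using hy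
  rw [Int.cast_natCast] at hyx
  have X0 : (0 : ℝ) < X := by exact_mod_cast (by omega : 0 < X)
  have hu : ∀ u : ℤ, u ≤ y → u ≤ (X : ℤ) ^ 3 := fun u hu =>
    hu.trans (by exact_mod_cast hyx.trans hx')
  have hlog : Real.log X / 2 ≤ Real.log x := by
    rw [← Real.log_sqrt X0.le]
    exact Real.log_le_log (Real.sqrt_pos.2 X0) hx
  have hlog' : 6 * Real.log (Real.log X ^ (A + 2)) ≤ Real.log X := by
    have := Real.log_le_log (by positivity) l3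
    rwa [one_mul, Real.log_pow] at this
  have z1 := xSWg_root (by positivity) l2
  have z2 : (X : ℝ) ^ (1 / 4 : ℝ) * (X : ℝ) ^ (1 / 4 : ℝ) ≤ x := by
    rw [← Real.rpow_add X0]
    rw [Real.sqrt_eq_rpow] at hx
    norm_num at hx ⊢
    exact hx
  generalize (X : ℝ) ^ (1 / 4 : ℝ) = Z at m1 z1 z2
  generalize WW B X = W at *
  generalize Real.log X = L at *
  have L0 : 0 < L := by linarith
  have P1 : 1 ≤ L ^ A := one_le_pow₀ (by linarith)
  have x1 : 0 ≤ x := (Nat.cast_nonneg _).trans hyx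
  obtain ⟨t, rfl⟩ : ∃ t, x = t * L ^ A := ⟨x / L ^ A, by field_simp⟩
  rw [mul_div_cancel_right₀ _ (by positivity)]
  have t0 : 0 ≤ t := nonneg_of_mul_nonneg_left x1 (by positivity)
  rw [pow_add] at z1
  have L2 : L ≤ L ^ 2 := le_self_pow₀ (by linarith) two_ne_zero
  have z3 : 12 * L ≤ Z := by
    linarith [le_mul_of_one_le_left (by positivity : 0 ≤ L ^ 2) P1]
  have t1 : 12 * Z ≤ t := by
    refine le_of_mul_le_mul_right (le_trans ?_ z2) (by positivity : 0 < L ^ A)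
    have : 12 * L ^ A ≤ Z := by
      linarith [le_mul_of_one_le_right (by positivity : 0 ≤ L ^ A) (by linarith : 1 ≤ L ^ 2)]
    rw [mul_right_comm]
    exact mul_le_mul_of_nonneg_right this (by linarith)
  have t2 : t * L ^ A / L ^ (A + 1) ≤ t / 12 := by
    rw [pow_succ, mul_comm t, mul_div_mul_left _ _ (by positivity)]
    gcongr
  by_cases hc : 0 ≤ c ∧ c < d
  swap
  · rw [filter_false_of_mem fun u _ (h : u % (d : ℤ) = c) => hc ⟨h ▸ Int.emod_nonneg _ (by omega),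
      h ▸ Int.emod_lt_of_pos _ (by omega)⟩, sum_empty, abs_zero]
    exact t0
  obtain ⟨hc0, hc⟩ := hc
  lift c to ℕ using hc0
  have hg : ∀ u ∈ (Ico (0 : ℤ) y).filter fun u => u % (d : ℤ) = c, |gg W u| ≤ 3 * L := fun u h =>
    w2 u (mem_Ico.1 (mem_filter.1 h).1).1 (hu u (mem_Ico.1 (mem_filter.1 h).1).2.le)
  by_cases hcd : c.Coprime d
  swap
  · obtain ⟨q, hq, q1, q2⟩ := Nat.Prime.not_coprime_iff_dvd.1 hcd
    refine (abs_sum_le_sum_abs _ _).trans ((sum_le_sum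
      (g := fun u : ℤ => if u = (q : ℤ) then 3 * L else 0) fun u h => ?_).trans ?_)
    · split_ifs with h6
      · exact hg u h
      · have q3 : (q : ℤ) ∣ u := by
          rw [← Int.emod_add_mul_ediv u d, (mem_filter.1 h).2]
          exact dvd_add (Int.natCast_dvd_natCast.2 q1) ((Int.natCast_dvd_natCast.2 q2).mul_right _)
        have q4 : q ∈ PW W := mem_filter.2 ⟨mem_range.2 (by have := Nat.le_of_dvd hd q2; omega), hq⟩
        have u0 := (mem_Ico.1 (mem_filter.1 h).1).1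
        lift u to ℕ using u0
        rw [gg, shp, if_neg fun h7 => h7 q q4 q3, lam, Int.toNat_natCast,
          if_neg fun h7 : u.Prime => h6 (congrArg (Nat.cast : ℕ → ℤ)
          ((Nat.prime_dvd_prime_iff_eq hq h7).1 (Int.natCast_dvd_natCast.1 q3)).symm), sub_zero,
          abs_zero]
    · rw [sum_ite_eq']
      split_ifs <;> linarith
  rcases le_or_gt (y : ℝ) (t * L ^ A / L ^ (A + 2)) with hs | hs
  · refine (abs_sum_le_sum_abs _ _).trans ((sum_le_card_nsmul _ _ _ hg).trans ?_)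
    have k1 : (((Ico (0 : ℤ) y).filter fun u => u % (d : ℤ) = c).card : ℝ) ≤ y := by
      exact_mod_cast (card_filter_le _ _).trans (by simp)
    rw [pow_add, mul_comm t, mul_div_mul_left _ _ (by positivity), le_div_iff₀ (by positivity)] at hs
    rw [nsmul_eq_mul]
    have k2 : (0 : ℝ) ≤ y * L := by positivity
    nlinarith
  have x2 : 0 < t * L ^ A := by nlinarith
  have y0 : 0 < t * L ^ A / L ^ (A + 2) := by positivity
  have y1 : L / 3 ≤ Real.log y := by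
    have := Real.log_le_log y0 hs.le
    rw [Real.log_div x2.ne' (by positivity)] at this
    linarith
  have y2 : L ≤ Real.log y ^ 2 := by nlinarith
  have s1 := h0 y (by linarith [Real.log_le_self (Nat.cast_nonneg y)]) d c hd (by
    have k1 : (d : ℝ) ≤ W := by exact_mod_cast hW
    rw [pow_mul]
    refine (k1.trans l5).trans (le_trans ?_ (pow_le_pow_left₀ L0.le y2 _))
    rw [pow_succ']
    gcongr
    linarith) hcd
  have s2 : y / Real.log y ^ (2 * (A + 1)) ≤ t * L ^ A / L ^ (A + 1) := by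
    rw [pow_mul]
    gcongr
  have s3 : y / L ^ (A + 1) ≤ t * L ^ A / L ^ (A + 1) := by gcongr
  have s4 := m1 c hcd y
  have s5 : |if y % d = c then lam y else 0| ≤ 3 * L := by
    split_ifs
    · exact w1 y (Int.natCast_nonneg _) (hu _ le_rfl)
    · rw [abs_zero]
      linarith
  rw [Nat.floor_natCast, xSWg_lam (by exact_mod_cast hc)] at s1
  rw [Int.emod_eq_of_lt (Int.natCast_nonneg c) hc] at s4
  simp only [gg, sum_sub_distrib]
  rw [abs_le] at s1 s4 s5 ⊢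
  constructor <;> linarith [s1.1, s1.2, s4.1, s4.2, s5.1, s5.2]

end Pool.Agent.MP_e23604_nt.P

end
end

section

/-!
Parseval and the large sieve.
-/

open Finset
open scoped Classical

noncomputable section

namespace Pool.Agent.MP_e23604_nt.P

open Pool.Agent.MP_2a1f0e_nt (ex)

theorem xLS_ex (u : ℤ) (a d : ℕ) :
    Complex.exp (2 * Real.pi * Complex.I * (u * a / d)) = ex ((u : ℝ) * ((a : ℝ) / d)) := by
  unfold ex
  congr 1
  push_cast
  ring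

/-- The exponential sum. -/
def xLS_S (g : ℤ → ℝ) (y : ℤ) (w : ℕ) (x : ℝ) : ℂ :=
  ∑ u ∈ Ico y (y + w), (g u : ℂ) * ex ((u : ℝ) * x)

theorem xLS_sq (g : ℤ → ℝ) (y : ℤ) (w d : ℕ) :
    sq g y w d = ∑ a ∈ Pool.Agent.MP_c903c4_nt.Red d, ‖xLS_S g y w ((a : ℝ) / d)‖ ^ 2 := by
  unfold sq xLS_S Pool.Agent.MP_c903c4_nt.Red
  simp only [xLS_ex]

theorem xLS_fib (g : ℤ → ℝ) (y : ℤ) (w : ℕ) {K : ℕ} (hK : 1 ≤ K) :
    ∑ c ∈ Ico (0 : ℤ) K, psi g y w K c ^ 2 =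
      ∑ u ∈ Ico y (y + w), g u * psi g y w K (u % (K : ℤ)) := by
  have hK0 : (K : ℤ) ≠ 0 := by exact_mod_cast (by omega : K ≠ 0)
  have hKp : (0 : ℤ) < K := by exact_mod_cast hK
  rw [← sum_fiberwise_of_maps_to (s := Ico y (y + w)) (t := Ico (0 : ℤ) K)
    (g := fun u => u % (K : ℤ))
    (fun u _ => mem_Ico.2 ⟨Int.emod_nonneg _ hK0, Int.emod_lt_of_pos _ hKp⟩)]
  refine sum_congr rfl fun c _ => ?_
  rw [pow_two]
  nth_rewrite 1 [psi]
  rw [sum_mul]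
  refine sum_congr rfl fun u hu => ?_
  rw [(mem_filter.1 hu).2]

theorem xLS_pars (g : ℤ → ℝ) (y : ℤ) (w : ℕ) {K : ℕ} (hK : 1 ≤ K) :
    ∑ k ∈ range K, ‖xLS_S g y w ((k : ℝ) / K)‖ ^ 2 =
      K * ∑ c ∈ Ico (0 : ℤ) K, psi g y w K c ^ 2 := by
  rw [xLS_fib g y w hK, ← Complex.ofReal_inj, Complex.ofReal_sum]
  have h1 : ∀ r ∈ range K, ((‖xLS_S g y w ((r : ℝ) / K)‖ ^ 2 : ℝ) : ℂ) =
      ∑ u ∈ Ico y (y + w), ∑ v ∈ Ico y (y + w),
        (g u : ℂ) * g v * ex (r * (((u - v : ℤ) : ℝ) / K)) := fun r _ => by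
    have := Pool.Agent.MP_2a1f0e_nt.normsq_sum (Ico y (y + w)) (fun u => (g u : ℂ))
      fun u => (u : ℝ) * ((r : ℝ) / K)
    unfold xLS_S
    rw [this]
    refine sum_congr rfl fun s _ => sum_congr rfl fun t _ => ?_
    rw [Complex.conj_ofReal]
    congr 2
    push_cast
    ring
  rw [sum_congr rfl h1, sum_comm, mul_sum, Complex.ofReal_sum]
  refine sum_congr rfl fun u _ => ?_
  rw [sum_comm, psi, sum_filter, mul_sum, mul_sum, Complex.ofReal_sum]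
  refine sum_congr rfl fun v _ => ?_
  rw [← mul_sum]
  have := Pool.Agent.MP_2a1f0e_nt.gs_div K hK (u - v)
  unfold Pool.Agent.MP_2a1f0e_nt.gs at this
  rw [this]
  have e : (K : ℤ) ∣ u - v ↔ v % (K : ℤ) = u % K := Int.modEq_iff_dvd.symm
  by_cases h : v % (K : ℤ) = u % K
  · rw [if_pos (e.2 h), if_pos h]
    push_cast
    ring
  · rw [if_neg (fun h' => h (e.1 h')), if_neg h]
    simp

theorem sq_nonneg' (g : ℤ → ℝ) (y : ℤ) (w d : ℕ) : 0 ≤ sq g y w d := by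
  unfold sq
  positivity

theorem NN_sq_le (g : ℤ → ℝ) (y : ℤ) (w : ℕ) {K : ℕ} (hK : 1 ≤ K) :
    NN g y w K ^ 2 ≤ ∑ d ∈ K.divisors, sq g y w d := by
  have h1 : NN g y w K ^ 2 ≤ K * ∑ c ∈ Ico (0 : ℤ) K, psi g y w K c ^ 2 := by
    have := sq_sum_le_card_mul_sum_sq (s := Ico (0 : ℤ) K) (f := fun c => |psi g y w K c|)
    simpa [NN, sq_abs] using this
  rw [← xLS_pars g y w hK] at h1
  refine h1.trans (le_of_eq ?_)
  have h2 := Pool.Agent.MP_c903c4_nt.Four_red (d := K) hK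
    fun x => ((‖xLS_S g y w x‖ ^ 2 : ℝ) : ℂ)
  simp only [xLS_sq]
  exact_mod_cast h2

theorem sum_sq_le (g : ℤ → ℝ) (y : ℤ) {w : ℕ} (hw : 1 ≤ w) (Q : ℕ) :
    ∑ d ∈ Icc 1 Q, sq g y w d ≤ 48 * (w + (Q : ℝ) ^ 2) * ∑ u ∈ Ico y (y + w), g u ^ 2 := by
  simp only [xLS_sq]
  set A : ℝ := ∑ d ∈ Icc 1 Q, ∑ a ∈ Pool.Agent.MP_c903c4_nt.Red d,
    ‖xLS_S g y w ((a : ℝ) / d)‖ ^ 2 with hA
  set G : ℝ := ∑ u ∈ Ico y (y + w), g u ^ 2 with hG
  have hA0 : 0 ≤ A := by positivity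
  have hG0 : 0 ≤ G := by positivity
  have hB : Icc 1 Q ⊆ Pool.Agent.MP_c903c4_nt.Cop 1 0 Q := fun q hq => by
    rw [mem_Icc] at hq
    exact Pool.Agent.MP_c903c4_nt.Four_memCop.2 ⟨⟨hq.1, hq.2⟩, Nat.coprime_one_right q⟩
  set cf : ℕ → ℕ → ℂ := fun q r =>
    (starRingEnd ℂ) (xLS_S g y w ((r : ℝ) / q)) * ex (((y - 1 : ℤ) : ℝ) * ((r : ℝ) / q)) with hcf
  set T : ℕ → ℂ := fun t => ∑ q ∈ Icc 1 Q, ∑ r ∈ Pool.Agent.MP_c903c4_nt.Red q,
    cf q r * ex ((r : ℝ) * ((1 : ℕ) * t) / q) with hT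
  have hls : ∑ t ∈ Ioc 0 (0 + w), ‖T t‖ ^ 2 ≤ 24 * (2 * w + (Q : ℝ) ^ 2) * A := by
    have := Pool.Agent.MP_c903c4_nt.ls 1 Q 0 w hw (Icc 1 Q) hB cf
    simpa only [hcf, norm_mul, Pool.Agent.MP_2a1f0e_nt.norm_ex, mul_one,
      RCLike.norm_conj] using this
  have hre : ∀ {M : Type} [AddCommMonoid M] (f : ℤ → M),
      ∑ u ∈ Ico y (y + w), f u = ∑ t ∈ Ioc 0 (0 + w), f (y - 1 + (t : ℕ)) := by
    intro M _ f
    symm
    refine sum_nbij' (fun t : ℕ => y - 1 + t) (fun u => (u - y + 1).toNat) ?_ ?_ ?_ ?_ ?_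
    · intro t ht
      simp only [mem_Ioc, mem_Ico] at ht ⊢
      omega
    · intro t ht
      simp only [mem_Ioc, mem_Ico] at ht ⊢
      omega
    · intro t ht
      simp only [mem_Ioc] at ht ⊢
      omega
    · intro t ht
      simp only [mem_Ico] at ht ⊢
      omega
    · intro t _
      rfl
  have hid : (A : ℂ) = ∑ t ∈ Ioc 0 (0 + w), (g (y - 1 + (t : ℕ)) : ℂ) * T t := by
    simp only [hT, mul_sum]
    rw [sum_comm, hA, Complex.ofReal_sum]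
    refine sum_congr rfl fun q _ => ?_
    rw [sum_comm, Complex.ofReal_sum]
    refine sum_congr rfl fun r _ => ?_
    rw [← Complex.normSq_eq_norm_sq, ← Complex.mul_conj]
    nth_rewrite 1 [xLS_S]
    rw [hre, sum_mul]
    refine sum_congr rfl fun t _ => ?_
    have e : ex (((y - 1 + (t : ℕ) : ℤ) : ℝ) * ((r : ℝ) / q)) =
        ex (((y - 1 : ℤ) : ℝ) * ((r : ℝ) / q)) * ex ((r : ℝ) * ((1 : ℕ) * t) / q) := by
      rw [← Pool.Agent.MP_2a1f0e_nt.ex_add]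
      congr 1
      push_cast
      ring
    rw [e, hcf]
    ring
  have h1 : A ≤ ∑ t ∈ Ioc 0 (0 + w), |g (y - 1 + (t : ℕ))| * ‖T t‖ := by
    have : A = ‖(A : ℂ)‖ := by rw [Complex.norm_real, Real.norm_of_nonneg hA0]
    rw [this, hid]
    refine (norm_sum_le _ _).trans (le_of_eq (sum_congr rfl fun t _ => ?_))
    rw [norm_mul, Complex.norm_real, Real.norm_eq_abs]
  have h2 : A ^ 2 ≤ G * (24 * (2 * w + (Q : ℝ) ^ 2) * A) := by
    refine (pow_le_pow_left₀ hA0 h1 2).trans ((sum_mul_sq_le_sq_mul_sq _ _ _).trans ?_)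
    have : ∑ t ∈ Ioc 0 (0 + w), |g (y - 1 + (t : ℕ))| ^ 2 = G := by
      rw [hG, hre]
      simp only [sq_abs]
    rw [this]
    exact mul_le_mul_of_nonneg_left hls hG0
  rcases hA0.eq_or_lt with h | h
  · rw [← h]
    positivity
  · have h3 : A ≤ G * (24 * (2 * w + (Q : ℝ) ^ 2)) := by
      refine le_of_mul_le_mul_right ?_ h
      calc A * A = A ^ 2 := by ring
        _ ≤ _ := h2
        _ = _ := by ring
    have h4 : 0 ≤ G * (Q : ℝ) ^ 2 := by positivity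
    nlinarith

theorem sq_le (g : ℤ → ℝ) (y : ℤ) (w : ℕ) {d : ℕ} (hd : 1 ≤ d) {M : ℝ}
    (h : ∀ c, |psi g y w d c| ≤ M) : sq g y w d ≤ (d : ℝ) ^ 2 * M ^ 2 := by
  rw [xLS_sq]
  refine (sum_le_sum_of_subset_of_nonneg (filter_subset _ (range d))
    fun _ _ _ => by positivity).trans ?_
  rw [xLS_pars g y w hd]
  have h1 : ∑ c ∈ Ico (0 : ℤ) d, psi g y w d c ^ 2 ≤ d * M ^ 2 := by
    have := sum_le_card_nsmul (Ico (0 : ℤ) d) (fun c => psi g y w d c ^ 2) (M ^ 2) fun c _ => by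
      rw [← sq_abs]
      exact pow_le_pow_left₀ (abs_nonneg _) (h c) 2
    simpa using this
  calc (d : ℝ) * ∑ c ∈ Ico (0 : ℤ) d, psi g y w d c ^ 2 ≤ d * (d * M ^ 2) :=
        mul_le_mul_of_nonneg_left h1 (by positivity)
    _ = _ := by ring

end Pool.Agent.MP_e23604_nt.P

end
end

section

/-!
Abstract inequalities for the bound on a family of pairs.
-/

open Finset
open scoped Classical

noncomputable section

namespace Pool.Agent.MP_e23604_nt.P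

theorem xCore_scale (g : ℤ → ℝ) (y : ℤ) {w Q D0 : ℕ} (hw : 1 ≤ w) (hQ : Q ^ 2 ≤ w)
    {μ Γ Ω1 Ω2 : ℝ} (om : ℕ → ℝ) (hΩ1 : 0 ≤ Ω1) (h1 : ∀ d, om d ≤ Ω1)
    (h2 : ∀ d, D0 < d → om d ≤ Ω2) (hΩ2 : 0 ≤ Ω2) (hg : ∀ u ∈ Ico y (y + w), |g u| ≤ Γ)
    (hpsi : ∀ d, 1 ≤ d → d ≤ D0 → ∀ c, |psi g y w d c| ≤ μ * w) :
    ∑ d ∈ Icc 1 Q, sq g y w d * om d ≤
      (w : ℝ) ^ 2 * ((D0 : ℝ) ^ 3 * μ ^ 2 * Ω1 + 96 * Γ ^ 2 * Ω2) := by
  have e1 : ∑ d ∈ Icc 1 Q, sq g y w d * om d ≤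
      ∑ d ∈ Icc 1 Q, ((if d ≤ D0 then (D0 : ℝ) ^ 2 * (μ * w) ^ 2 * Ω1 else 0) +
        sq g y w d * Ω2) := by
    refine Finset.sum_le_sum fun d hd => ?_
    have hs := sq_nonneg' g y w d
    split_ifs with hd0
    · have a1 := sq_le g y w (mem_Icc.1 hd).1 (hpsi d (mem_Icc.1 hd).1 hd0)
      have a2 : (d : ℝ) ^ 2 * (μ * w) ^ 2 ≤ (D0 : ℝ) ^ 2 * (μ * w) ^ 2 := by gcongr
      have a3 : sq g y w d * om d ≤ sq g y w d * Ω1 := by gcongr; exact h1 d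
      have a4 : sq g y w d * Ω1 ≤ (D0 : ℝ) ^ 2 * (μ * w) ^ 2 * Ω1 := by
        gcongr; exact a1.trans a2
      have a5 : 0 ≤ sq g y w d * Ω2 := by positivity
      linarith
    · rw [zero_add]
      gcongr
      exact h2 d (by omega)
  rw [Finset.sum_add_distrib, ← Finset.sum_filter, Finset.sum_const, nsmul_eq_mul,
    ← Finset.sum_mul] at e1
  have e2 : (((Icc 1 Q).filter fun d => d ≤ D0).card : ℝ) ≤ D0 := by
    have : ((Icc 1 Q).filter fun d => d ≤ D0) ⊆ Icc 1 D0 := fun d hd => by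
      simp only [mem_filter, mem_Icc] at hd ⊢
      omega
    have := Finset.card_le_card this
    rw [Nat.card_Icc] at this
    exact_mod_cast this
  have e3 : ∑ u ∈ Ico y (y + w), g u ^ 2 ≤ w * Γ ^ 2 := by
    have : ∑ u ∈ Ico y (y + w), g u ^ 2 ≤ ∑ u ∈ Ico y (y + w), Γ ^ 2 :=
      Finset.sum_le_sum fun u hu => by
        rw [← sq_abs]
        exact pow_le_pow_left₀ (abs_nonneg _) (hg u hu) 2
    simpa using this
  have e4 : ∑ d ∈ Icc 1 Q, sq g y w d ≤ 96 * (w : ℝ) ^ 2 * Γ ^ 2 := by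
    have hQ' : (Q : ℝ) ^ 2 ≤ w := by exact_mod_cast hQ
    calc _ ≤ 48 * (w + (Q : ℝ) ^ 2) * ∑ u ∈ Ico y (y + w), g u ^ 2 := sum_sq_le g y hw Q
      _ ≤ 48 * (w + (w : ℝ)) * (w * Γ ^ 2) := by gcongr
      _ = _ := by ring
  calc _ ≤ _ := e1
    _ ≤ D0 * ((D0 : ℝ) ^ 2 * (μ * w) ^ 2 * Ω1) + 96 * (w : ℝ) ^ 2 * Γ ^ 2 * Ω2 := by gcongr
    _ = _ := by ring

theorem xCore_one (g : ℤ → ℝ) (y : ℤ) {w K Q : ℕ} (hw : 1 ≤ w) (hK : 1 ≤ K) (hQ : K ≤ Q) {ε : ℝ}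
    (hε : 0 < ε) : NN g y w K ≤ ε * w / 2 +
      (∑ d ∈ Icc 1 Q, if d ∣ K then sq g y w d else 0) / (2 * ε * w) := by
  have hw' : (0 : ℝ) < w := by exact_mod_cast hw
  have a1 : NN g y w K ^ 2 ≤ ∑ d ∈ Icc 1 Q, if d ∣ K then sq g y w d else 0 := by
    refine (NN_sq_le g y w hK).trans ?_
    rw [← Finset.sum_filter]
    refine Finset.sum_le_sum_of_subset_of_nonneg (fun d hd => ?_) fun d _ _ => sq_nonneg' g y w d
    have h1 := Nat.dvd_of_mem_divisors hd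
    have h2 := Nat.le_of_dvd hK h1
    have h3 := Nat.pos_of_mem_divisors hd
    simp only [mem_filter, mem_Icc]
    exact ⟨⟨h3, by omega⟩, h1⟩
  have a2 : NN g y w K ≤ ε * w / 2 + NN g y w K ^ 2 / (2 * ε * w) := by
    have : 0 < 2 * ε * w := by positivity
    rw [← sub_le_iff_le_add', le_div_iff₀ this]
    nlinarith [sq_nonneg (NN g y w K - ε * w)]
  refine a2.trans ?_
  gcongr

theorem xCore_psi (g : ℤ → ℝ) {y : ℤ} (hy : 0 ≤ y) (w d : ℕ) (c : ℤ) :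
    psi g y w d c = ∑ u ∈ (Ico (0 : ℤ) (y + w)).filter fun u => u % (d : ℤ) = c, g u -
      ∑ u ∈ (Ico (0 : ℤ) y).filter fun u => u % (d : ℤ) = c, g u := by
  unfold psi
  rw [eq_sub_iff_add_eq', ← Finset.sum_union, ← Finset.filter_union,
    Finset.Ico_union_Ico_eq_Ico hy (by omega)]
  exact Finset.disjoint_filter_filter (Finset.Ico_disjoint_Ico_consecutive _ _ _)

/-- The choice of the scale. -/
theorem xCore_exp {X m H : ℕ} {U : ℝ} (hX : 2 ≤ X) (hU : (X : ℝ) ≤ U) (hU' : U ≤ (X : ℝ) ^ 2)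
    (hm1 : 1 ≤ m) (hm : m ^ 10 ≤ X) (hH1 : 1 ≤ H) (hH : (2 * H) ^ 10 ≤ X) :
    ∃ e : ℕ, e < Nat.log 2 (X ^ 2) + 1 ∧ (m : ℝ) * H * (2 ^ e : ℕ) ≤ U ∧
      U < m * (2 ^ e : ℕ) * (2 * H : ℕ) ∧ X ^ 8 ≤ (2 ^ e) ^ 10 ∧ 2 * 2 ^ e * H ≤ X ^ 3 := by
  have hmH : (0 : ℝ) < m * H := by positivity
  have a0 : m * H ≤ X := by
    have b1 : (m * H) ^ 10 ≤ X ^ 10 := by
      calc (m * H) ^ 10 ≤ (m * (2 * H)) ^ 10 := by gcongr; omega
        _ = m ^ 10 * (2 * H) ^ 10 := by ring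
        _ ≤ X * X := by gcongr
        _ = X ^ 2 := by ring
        _ ≤ X ^ 10 := Nat.pow_le_pow_right (by omega) (by norm_num)
    exact (Nat.pow_le_pow_iff_left (by norm_num)).1 b1
  have a0' : (m : ℝ) * H ≤ U := le_trans (by exact_mod_cast a0) hU
  have a1 : 1 ≤ ⌊U / (m * H)⌋₊ := by
    rw [Nat.one_le_floor_iff, le_div_iff₀ hmH]
    linarith
  obtain ⟨e, he⟩ : ∃ e, e = Nat.log 2 ⌊U / (m * H)⌋₊ := ⟨_, rfl⟩
  have a2 : 2 ^ e ≤ ⌊U / (m * H)⌋₊ := he ▸ Nat.pow_log_le_self 2 (by omega)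
  have a3 : ⌊U / (m * H)⌋₊ < 2 ^ (e + 1) := he ▸ Nat.lt_pow_succ_log_self (by norm_num) _
  have a4 : ((2 ^ e : ℕ) : ℝ) ≤ U / (m * H) :=
    le_trans (by exact_mod_cast a2) (Nat.floor_le (by positivity [hU.trans' (Nat.cast_nonneg X)]))
  have a5 : U / (m * H) < ((2 ^ (e + 1) : ℕ) : ℝ) := Nat.lt_of_floor_lt a3
  rw [le_div_iff₀ hmH] at a4
  rw [div_lt_iff₀ hmH] at a5
  have a6 : U < m * (2 ^ e : ℕ) * (2 * H : ℕ) := by
    refine a5.trans_le (le_of_eq ?_)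
    push_cast
    ring
  have a7 : 2 ^ e * (m * H) ≤ X ^ 2 := by exact_mod_cast a4.trans hU'
  have a8 : X ≤ m * 2 ^ e * (2 * H) := by exact_mod_cast (hU.trans a6.le)
  refine ⟨e, ?_, by linarith, a6, ?_, ?_⟩
  · refine Nat.lt_succ_of_le (Nat.le_log_of_pow_le (by norm_num) (le_trans ?_ a7))
    exact Nat.le_mul_of_pos_right _ (by positivity)
  · have b1 : X ^ 2 * X ^ 8 ≤ X ^ 2 * (2 ^ e) ^ 10 := by
      calc X ^ 2 * X ^ 8 = X ^ 10 := by ring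
        _ ≤ (m * 2 ^ e * (2 * H)) ^ 10 := by gcongr
        _ = m ^ 10 * (2 * H) ^ 10 * (2 ^ e) ^ 10 := by ring
        _ ≤ X * X * (2 ^ e) ^ 10 := by gcongr
        _ = _ := by ring
    exact Nat.le_of_mul_le_mul_left b1 (by positivity)
  · calc 2 * 2 ^ e * H = 2 * (2 ^ e * (1 * H)) := by ring
      _ ≤ X * (2 ^ e * (m * H)) := by gcongr
      _ ≤ X * X ^ 2 := by gcongr
      _ = _ := by ring

/-- The final numerical inequality. -/
theorem xCore_num {A C h b : ℕ} {L E D H Ω V : ℝ} (hL : 21126 ≤ L) (hE : E ≤ 4 * L)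
    (hD0 : 0 ≤ D) (hD : D ≤ L ^ b) (hH0 : 0 ≤ H) (hH : H ≤ L ^ h) (hV : 0 ≤ V) (hΩ0 : 0 ≤ Ω)
    (hΩ : Ω ≤ V * L ^ (2 * C)) :
    6 * L * (1 / L ^ (A + 2 * C + 2) * Ω + E * (D ^ 3 *
      (4 * H / L ^ (2 * A + 4 * C + 3 * b + 2 * h + 5)) ^ 2 * Ω +
        96 * (3 * L) ^ 2 * (Ω / L ^ (2 * A + 4 * C + 7))) / (1 / L ^ (A + 2 * C + 2))) ≤
      V / L ^ A := by
  have hL1 : 1 ≤ L := by linarith
  have hL0 : 0 < L := by linarith
  have a1 : (4 * H / L ^ (2 * A + 4 * C + 3 * b + 2 * h + 5)) ^ 2 ≤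
      16 * (L ^ h) ^ 2 / L ^ (2 * A + 4 * C + 3 * b + 2 * h + 5) := by
    rw [div_pow]
    refine div_le_div₀ (by positivity) (by rw [mul_pow]; gcongr; norm_num) (by positivity) ?_
    exact le_self_pow₀ (one_le_pow₀ hL1) (by norm_num)
  calc _ ≤ 6 * L * (1 / L ^ (A + 2 * C + 2) * (V * L ^ (2 * C)) + 4 * L * ((L ^ b) ^ 3 *
      (16 * (L ^ h) ^ 2 / L ^ (2 * A + 4 * C + 3 * b + 2 * h + 5)) * (V * L ^ (2 * C)) +
        96 * (3 * L) ^ 2 * (V * L ^ (2 * C) / L ^ (2 * A + 4 * C + 7))) /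
          (1 / L ^ (A + 2 * C + 2))) := by gcongr
    _ = 21126 / L * (V / L ^ A) := by field_simp; ring
    _ ≤ 1 * (V / L ^ A) := by
        gcongr
        rwa [div_le_one hL0]
    _ = _ := one_mul _

end Pool.Agent.MP_e23604_nt.P

end
end

section

/-!
The bound for a family of pairs of forms.
-/

open Finset
open scoped Classical

noncomputable section

namespace Pool.Agent.MP_e23604_nt.P

theorem xCore_log {X : ℕ} (hL : 3 ≤ Real.log X) :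
    ((Nat.log 2 (X ^ 2) + 1 : ℕ) : ℝ) ≤ 4 * Real.log X := by
  have hX : X ≠ 0 := by
    rintro rfl
    simp at hL
    linarith
  have h1 : ((2 : ℝ)) ^ Nat.log 2 (X ^ 2) ≤ (X : ℝ) ^ 2 := by
    exact_mod_cast Nat.pow_log_le_self 2 (pow_ne_zero 2 hX)
  have h2 := Real.log_le_log (by positivity) h1
  rw [Real.log_pow, Real.log_pow] at h2
  have h3 := Real.log_two_gt_d9
  have h4 : (0 : ℝ) ≤ Nat.log 2 (X ^ 2) := by positivity
  push_cast at h2 ⊢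
  nlinarith

end Pool.Agent.MP_e23604_nt.P

end
end
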