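import Pool.Agent.Mg.Fe23604m.G954648

set_option linter.all false

section

/-!
Control of one four term pattern.
-/

open Finset
open scoped Classical

noncomputable section

namespace Pool.Agent.MP_e23604_nt.U

theorem xLU3_cs {α β : Type} (A : Finset α) (B : Finset β) (F : α → β → ℝ) (G : β → ℝ)
    (hG : ∀ z, |G z| ≤ 1) :
    (∑ i ∈ A ×ˢ B, F i.1 i.2 * G i.2) ^ 2 ≤
      B.card * ∑ h ∈ A, ∑ h' ∈ A, |∑ z ∈ B, F h z * F h' z| := by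
  have e1 : ∑ i ∈ A ×ˢ B, F i.1 i.2 * G i.2 = ∑ z ∈ B, G z * ∑ h ∈ A, F h z := by
    rw [sum_product, sum_comm]
    exact sum_congr rfl fun z _ => by rw [mul_sum]; exact sum_congr rfl fun h _ => mul_comm _ _
  have e2 : ∑ z ∈ B, (∑ h ∈ A, F h z) ^ 2 = ∑ h ∈ A, ∑ h' ∈ A, ∑ z ∈ B, F h z * F h' z := by
    simp only [pow_two, sum_mul_sum]
    rw [sum_comm]
    exact sum_congr rfl fun h _ => sum_comm
  have e3 : ∑ z ∈ B, G z ^ 2 ≤ B.card := by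
    have : ∑ z ∈ B, G z ^ 2 ≤ ∑ _z ∈ B, (1 : ℝ) :=
      sum_le_sum fun z _ => (sq_le_one_iff_abs_le_one _).2 (hG z)
    simpa using this
  rw [e1]
  refine (sum_mul_sq_le_sq_mul_sq B _ _).trans ?_
  refine mul_le_mul e3 ?_ (sum_nonneg fun z _ => sq_nonneg _) (Nat.cast_nonneg _)
  rw [e2]
  exact sum_le_sum fun h _ => sum_le_sum fun h' _ => le_abs_self _

theorem xLU3_mul {a b : ℝ} (ha : |a| ≤ 1) (hb : |b| ≤ 1) : |a * b| ≤ 1 := by
  rw [abs_mul]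
  exact mul_le_one₀ ha (abs_nonneg _) hb

theorem xLU3_bil (h1 : LBIL) (c d m0 : ℤ) (hc : c ≠ 0) (hd : d ≠ 0) (γ β α : ℤ → ℝ)
    (hγ : ∀ m, |γ m| ≤ 1) (hβ : ∀ m, |β m| ≤ 1) (hα : ∀ m, |α m| ≤ 1) (N H : ℕ) (τ ε : ℝ)
    (hε : 0 ≤ ε) (hs : ∀ m, m ∉ JJ N → γ m = 0)
    (hq : (Int.gcd c d : ℝ) * (τ * (N : ℝ) ^ 2 / (c * d).natAbs) ≤ ε ^ 2 * (H : ℝ) ^ 2) :
    |∑ z ∈ Ico (0 : ℤ) H ×ˢ Ico (0 : ℤ) H, γ (m0 + c * z.1 + d * z.2) * β z.1 * α z.2| ≤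
      (H : ℝ) ^ 2 * (if CM (fun m => (γ m : ℂ)) N (c * d).natAbs τ then 1 else 0) +
        ε * (H : ℝ) ^ 2 := by
  have hcard : ((Ico (0 : ℤ) H).card : ℝ) = H := by simp
  split_ifs with hC
  · have h2 : |∑ z ∈ Ico (0 : ℤ) H ×ˢ Ico (0 : ℤ) H, γ (m0 + c * z.1 + d * z.2) * β z.1 * α z.2| ≤
        ∑ _z ∈ Ico (0 : ℤ) H ×ˢ Ico (0 : ℤ) H, (1 : ℝ) :=
      (abs_sum_le_sum_abs _ _).trans (sum_le_sum fun z _ =>
        xLU3_mul (xLU3_mul (hγ _) (hβ _)) (hα _))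
    rw [sum_const, card_product, nsmul_eq_mul, Nat.cast_mul, hcard] at h2
    have : 0 ≤ ε * (H : ℝ) ^ 2 := by positivity
    nlinarith
  · have h2 := h1 c d m0 (fun m => (γ m : ℂ)) (fun m => (β m : ℂ)) (fun m => (α m : ℂ)) N
      (Ico (0 : ℤ) H) (Ico (0 : ℤ) H) (τ * (N : ℝ) ^ 2 / (c * d).natAbs) hc hd
      (fun m hm => by simp [hs m hm]) (fun ξ => le_of_lt (not_le.1 fun h => hC ⟨ξ, h⟩))
    have h3 : ∀ φ : ℤ → ℝ, (∀ m, |φ m| ≤ 1) → ∑ k ∈ Ico (0 : ℤ) H, ‖(φ k : ℂ)‖ ^ 2 ≤ H := by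
      intro φ hφ
      have : ∑ k ∈ Ico (0 : ℤ) H, ‖(φ k : ℂ)‖ ^ 2 ≤ ∑ _k ∈ Ico (0 : ℤ) H, (1 : ℝ) :=
        sum_le_sum fun k _ => by
          rw [Complex.norm_real, Real.norm_eq_abs]
          exact pow_le_one₀ (abs_nonneg _) (hφ k)
      rwa [sum_const, nsmul_eq_mul, hcard, mul_one] at this
    have h4 : ‖∑ k ∈ Ico (0 : ℤ) H, ∑ l ∈ Ico (0 : ℤ) H,
        (γ (m0 + c * k + d * l) : ℂ) * (β k : ℂ) * (α l : ℂ)‖ =
        |∑ z ∈ Ico (0 : ℤ) H ×ˢ Ico (0 : ℤ) H, γ (m0 + c * z.1 + d * z.2) * β z.1 * α z.2| := by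
      rw [sum_product, ← Real.norm_eq_abs, ← Complex.norm_real]
      push_cast
      rfl
    rw [h4] at h2
    rw [mul_zero, zero_add]
    refine abs_le_of_sq_le_sq' ?_ (by positivity) |>.2
    refine h2.trans ?_
    have n1 : ∀ φ : ℤ → ℝ, 0 ≤ ∑ k ∈ Ico (0 : ℤ) H, ‖(φ k : ℂ)‖ ^ 2 :=
      fun φ => sum_nonneg fun k _ => sq_nonneg _
    calc _ ≤ ε ^ 2 * (H : ℝ) ^ 2 * H * H :=
          mul_le_mul (mul_le_mul hq (h3 β hβ) (n1 β) (by positivity)) (h3 α hα) (n1 α)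
            (by positivity)
      _ = _ := by ring

theorem xLU3_pt (h1 : LBIL) (p : DP) (f : ℤ → ℝ) (hf : ∀ x, |f x| ≤ 1) (N H : ℕ) (c d e x' : ℤ)
    (hc : c ≠ 0) (hd : d ≠ 0) (τ ε : ℝ) (hε : 0 ≤ ε) (hK : 1 ≤ p.K)
    (hs : ∀ h ∈ range H, ∀ r : ℤ, 0 ≤ r → r < p.K → ∀ m, m ∉ JJ N → f (r + p.K * m + e * h) = 0)
    (hq : (Int.gcd c d : ℝ) * (τ * (N : ℝ) ^ 2 / (c * d).natAbs) ≤ ε ^ 2 * (H : ℝ) ^ 2)
    (P R : ℕ → ℤ → ℝ) (G : ℤ × ℤ → ℝ) (hP : ∀ h l, |P h l| ≤ 1) (hR : ∀ h k, |R h k| ≤ 1)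
    (hG : ∀ z, |G z| ≤ 1) :
    (∑ i ∈ range H ×ˢ (Ico (0 : ℤ) H ×ˢ Ico (0 : ℤ) H),
      f (x' + e * i.1 + p.K * c * i.2.1 + p.K * d * i.2.2) * P i.1 i.2.2 * R i.1 i.2.1 *
        G i.2) ^ 2 ≤
      (H : ℝ) ^ 4 * (∑ h ∈ range H, ∑ h' ∈ range H,
        if CM (p.dg f e h h' (x' % p.K)) N (c * d).natAbs τ then (1 : ℝ) else 0) +
        ε * (H : ℝ) ^ 6 := by
  have hK0 : (0 : ℤ) < p.K := by exact_mod_cast hK
  refine (xLU3_cs (range H) (Ico (0 : ℤ) H ×ˢ Ico (0 : ℤ) H) (fun h z =>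
    f (x' + e * h + p.K * c * z.1 + p.K * d * z.2) * P h z.2 * R h z.1) G hG).trans ?_
  have hcard : ((Ico (0 : ℤ) H ×ˢ Ico (0 : ℤ) H).card : ℝ) = (H : ℝ) ^ 2 := by
    simp [pow_two]
  have h2 : ∀ h ∈ range H, ∀ h' ∈ range H,
      |∑ z ∈ Ico (0 : ℤ) H ×ˢ Ico (0 : ℤ) H,
        f (x' + e * h + p.K * c * z.1 + p.K * d * z.2) * P h z.2 * R h z.1 *
          (f (x' + e * h' + p.K * c * z.1 + p.K * d * z.2) * P h' z.2 * R h' z.1)| ≤
      (H : ℝ) ^ 2 * (if CM (p.dg f e h h' (x' % p.K)) N (c * d).natAbs τ then 1 else 0) +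
        ε * (H : ℝ) ^ 2 := by
    intro h hh h' _
    have h3 := xLU3_bil h1 c d (x' / p.K) hc hd
      (fun m => f (x' % p.K + p.K * m + e * h) * f (x' % p.K + p.K * m + e * h'))
      (fun k => R h k * R h' k) (fun l => P h l * P h' l) (fun m => xLU3_mul (hf _) (hf _))
      (fun k => xLU3_mul (hR _ _) (hR _ _)) (fun l => xLU3_mul (hP _ _) (hP _ _)) N H τ ε hε
      (fun m hm => by
        rw [hs h hh _ (Int.emod_nonneg _ hK0.ne') (Int.emod_lt_of_pos _ hK0) m hm, zero_mul]) hq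
    refine le_trans (le_of_eq ?_) h3
    congr 1
    refine sum_congr rfl fun z _ => ?_
    have a1 : ∀ j : ℤ, x' % p.K + p.K * (x' / p.K + c * z.1 + d * z.2) + e * j =
        x' + e * j + p.K * c * z.1 + p.K * d * z.2 := fun j => by
      linear_combination Int.emod_add_mul_ediv x' p.K
    rw [a1, a1]
    ring
  rw [hcard]
  refine (mul_le_mul_of_nonneg_left (sum_le_sum fun h hh => sum_le_sum (h2 h hh))
    (by positivity)).trans (le_of_eq ?_)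
  simp only [sum_add_distrib, ← mul_sum, sum_const, card_range, nsmul_eq_mul]
  ring

theorem xLU3_cnt (X K : ℕ) (hK : 1 ≤ K) (hX : K ≤ X) (s : ℤ) (φ : ℤ → ℝ) (hφ : ∀ r, 0 ≤ φ r) :
    ∑ x ∈ Ioc (0 : ℤ) X, φ ((x - s) % K) ≤ 2 * X / K * ∑ r ∈ range K, φ r := by
  have hK0 : (0 : ℤ) < K := by exact_mod_cast hK
  have hKr : (0 : ℝ) < K := by exact_mod_cast hK
  rw [← sum_fiberwise_of_maps_to (s := Ioc (0 : ℤ) X) (t := range K)
    (g := fun x => ((x - s) % K).toNat) (fun x _ => by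
      have := Int.emod_lt_of_pos (x - s) hK0
      exact mem_range.2 (by omega)), mul_sum]
  refine sum_le_sum fun r _ => ?_
  have h1 : ∀ x ∈ (Ioc (0 : ℤ) X).filter (fun x => ((x - s) % K).toNat = r), (x - s) % K = r := by
    intro x hx
    have h2 := (mem_filter.1 hx).2
    have := Int.emod_nonneg (x - s) hK0.ne'
    omega
  rw [sum_congr rfl fun x hx => by rw [h1 x hx], sum_const, nsmul_eq_mul]
  refine mul_le_mul_of_nonneg_right ?_ (hφ _)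
  have h3 := card_sparse_le 0 X (Int.natCast_nonneg X) hK _ (filter_subset _ _) fun x hx y hy => by
    have h5 : (x - s) % K = (y - s) % K := (h1 x hx).trans (h1 y hy).symm
    have h7 : (K : ℤ) ∣ (x - s) - (y - s) := (Int.emod_eq_emod_iff_emod_sub_eq_zero.1 h5) |>
      Int.dvd_of_emod_eq_zero
    simpa using h7
  refine h3.trans ?_
  have h8 : (1 : ℝ) ≤ X / K := by
    rw [le_div_iff₀ hKr, one_mul]
    exact_mod_cast hX
  push_cast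
  rw [sub_zero, mul_div_assoc]
  linarith

theorem xLU3_num {δ K H W N X Y D g c d : ℝ} (h0 : 0 < δ) (h1 : δ ≤ 1 / 2) (hK : 0 < K)
    (hW : 0 < W) (hN : 0 ≤ N) (hD : D = c * d) (hc : δ * W ≤ K * c) (hd : δ * W ≤ K * d)
    (hNX : N * K ≤ 30 * X) (hX : K * X ≤ 2000 * (Y * W)) (hY : δ ^ 2 * Y ≤ K * H)
    (hg : g ≤ δ⁻¹) : g * (δ ^ 60 * N ^ 2 / D) ≤ (δ ^ 2 / 8) ^ 2 * H ^ 2 := by
  have hdW : 0 < δ * W := mul_pos h0 hW
  have a1 : (δ * W) ^ 2 ≤ K ^ 2 * D := by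
    rw [hD]
    calc (δ * W) ^ 2 = δ * W * (δ * W) := pow_two _
      _ ≤ K * c * (K * d) := mul_le_mul hc hd hdW.le (hdW.le.trans hc)
      _ = _ := by ring
  have hD0 : 0 < D := by
    have : 0 < K ^ 2 * D := lt_of_lt_of_le (by positivity) a1
    exact pos_of_mul_pos_left (mul_comm (K ^ 2) D ▸ this) (by positivity)
  have a2 : δ ^ 2 * N * K ≤ 60000 * H * W := by
    refine le_of_mul_le_mul_right ?_ hK
    calc δ ^ 2 * N * K * K = δ ^ 2 * (N * K * K) := by ring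
      _ ≤ δ ^ 2 * (30 * X * K) := by gcongr
      _ = 30 * δ ^ 2 * (K * X) := by ring
      _ ≤ 30 * δ ^ 2 * (2000 * (Y * W)) := by gcongr
      _ = 60000 * W * (δ ^ 2 * Y) := by ring
      _ ≤ 60000 * W * (K * H) := by gcongr
      _ = _ := by ring
  have a3 : δ ^ 6 * N ^ 2 ≤ 60000 ^ 2 * H ^ 2 * D := by
    refine le_of_mul_le_mul_right ?_ (pow_pos hK 2)
    calc δ ^ 6 * N ^ 2 * K ^ 2 = δ ^ 2 * (δ ^ 2 * N * K) ^ 2 := by ring
      _ ≤ δ ^ 2 * (60000 * H * W) ^ 2 := by gcongr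
      _ = 60000 ^ 2 * H ^ 2 * (δ * W) ^ 2 := by ring
      _ ≤ 60000 ^ 2 * H ^ 2 * (K ^ 2 * D) := by gcongr
      _ = _ := by ring
  have a4 : δ ^ 60 * N ^ 2 / D ≤ δ ^ 54 * (60000 ^ 2 * H ^ 2) := by
    rw [div_le_iff₀ hD0]
    calc δ ^ 60 * N ^ 2 = δ ^ 54 * (δ ^ 6 * N ^ 2) := by ring
      _ ≤ δ ^ 54 * (60000 ^ 2 * H ^ 2 * D) := mul_le_mul_of_nonneg_left a3 (pow_pos h0 54).le
      _ = _ := by ring
  have a5 : δ ^ 49 ≤ (1 / 2) ^ 49 := pow_le_pow_left₀ h0.le h1 49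
  calc g * (δ ^ 60 * N ^ 2 / D) ≤ δ⁻¹ * (δ ^ 54 * (60000 ^ 2 * H ^ 2)) :=
        mul_le_mul hg a4 (div_nonneg (mul_nonneg (pow_pos h0 60).le (sq_nonneg N)) hD0.le)
          (inv_pos.2 h0).le
    _ = δ ^ 49 * (60000 ^ 2 * (δ ^ 4 * H ^ 2)) := by field_simp
    _ ≤ (1 / 2) ^ 49 * (60000 ^ 2 * (δ ^ 4 * H ^ 2)) := by gcongr
    _ ≤ _ := by
        have : 0 ≤ δ ^ 4 * H ^ 2 := by positivity
        nlinarith

theorem xLU3_T (p : DP) (hK : 1 ≤ p.K) {μ u : ℤ} (hμ : (p.K : ℤ) ∣ μ - p.ms)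
    (hu : (p.K : ℤ) ∣ u - p.us) (t : ℤ) :
    p.T (p.ys + p.K * t) μ u = p.T p.ys μ u + t * (μ * u ^ 2) := by
  have hK0 : (p.K : ℤ) ≠ 0 := by exact_mod_cast (by omega : p.K ≠ 0)
  have a1 := DP.T_mul (p := p) (y := p.ys + p.K * t) (by simp) hμ hu
  have a2 := DP.T_mul (p := p) (y := p.ys) (by simp) hμ hu
  refine mul_left_cancel₀ hK0 ?_
  linear_combination a1 - a2

theorem xLU3_a (p : DP) {μ u : ℤ} (hμ : μ ∈ p.SM) (hu : u ∈ p.SU) :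
    0 ≤ μ * u ^ 2 ∧ μ * u ^ 2 ≤ 12 * (p.M * (p.V : ℤ) ^ 2) := by
  obtain ⟨a1, a2, -⟩ := mem_cl.1 hμ
  obtain ⟨b1, b2, -⟩ := mem_cl.1 hu
  have hM : (0 : ℤ) ≤ p.M := Int.natCast_nonneg _
  have hV : (0 : ℤ) ≤ p.V := Int.natCast_nonneg _
  refine ⟨mul_nonneg (by omega) (sq_nonneg _), ?_⟩
  have : u ^ 2 ≤ (2 * p.V) ^ 2 := pow_le_pow_left₀ (by omega) b2 2
  calc μ * u ^ 2 ≤ 3 * p.M * (2 * p.V) ^ 2 := mul_le_mul a2 this (sq_nonneg _) (by omega)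
    _ = _ := by ring

theorem xLU3_fin {δ X n H K g S A : ℝ} (h0 : 0 < δ) (h1 : δ ≤ 1 / 2) (hX : 0 < X) (hn : 0 < n)
    (hH : 0 < H) (hK : 0 < K) (hA : δ / 2 * (X * n) * H ^ 3 ≤ A) (hS : A ^ 2 ≤ X * n * S)
    (hg : S ≤ H ^ 4 * (n * (2 * X / K * g)) + X * n * (δ ^ 2 / 8 * H ^ 6)) :
    δ ^ 60 * (H ^ 2 * K) ≤ g := by
  have a1 : (δ / 2 * (X * n) * H ^ 3) ^ 2 ≤ X * n * S :=
    (pow_le_pow_left₀ (by positivity) hA 2).trans hS
  have a2 : δ ^ 2 / 4 * (X * n) * H ^ 6 ≤ S := by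
    refine le_of_mul_le_mul_left ?_ (mul_pos hX hn)
    calc _ = (δ / 2 * (X * n) * H ^ 3) ^ 2 := by ring
      _ ≤ _ := a1
  have a3 : δ ^ 2 / 16 * (H ^ 2 * K) ≤ g := by
    refine le_of_mul_le_mul_left ?_ (show 0 < H ^ 4 * (n * (2 * X / K)) by positivity)
    have e : H ^ 4 * (n * (2 * X / K)) * (δ ^ 2 / 16 * (H ^ 2 * K)) =
        δ ^ 2 / 8 * (X * n) * H ^ 6 := by
      field_simp
      ring
    rw [e]
    linarith
  refine le_trans (mul_le_mul_of_nonneg_right ?_ (by positivity)) a3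
  have a5 : δ ^ 58 ≤ (1 / 2) ^ 58 := pow_le_pow_left₀ h0.le h1 58
  have a6 : δ ^ 58 ≤ 1 / 16 := a5.trans (by norm_num)
  calc δ ^ 60 = δ ^ 2 * δ ^ 58 := by ring
    _ ≤ δ ^ 2 * (1 / 16) := mul_le_mul_of_nonneg_left a6 (sq_nonneg δ)
    _ = _ := by ring

theorem LU3_pf (h1 : LBIL) : LU3 := by
  refine ⟨60, fun δ p f H μ0 μ1 u0 u1 hy hf hQ hH1 hH2 hc1 hc3 hg hL => ?_⟩
  have ok := hy.one
  obtain ⟨h0, hδ, -, -, -⟩ := hy
  obtain ⟨s1, s2, s3, s4, s5, -⟩ := ok.sizes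
  have hK := ok.pos
  have hKV : p.K ≤ p.V := (Nat.le_self_pow (by norm_num) _).trans s2
  have hKX : p.K ≤ p.X := by omega
  have hKr : (0 : ℝ) < p.K := by exact_mod_cast hK
  have hKz : (0 : ℤ) < p.K := by exact_mod_cast hK
  have hVr : (0 : ℝ) < p.V := by exact_mod_cast (by omega : 0 < p.V)
  have hMr : (0 : ℝ) < p.M := by exact_mod_cast (by omega : 0 < p.M)
  have hYr : (0 : ℝ) < p.Y := by exact_mod_cast (by omega : 0 < p.Y)
  have hXr : (0 : ℝ) < p.X := by exact_mod_cast (by omega : 0 < p.X)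
  have hKXr : (p.K : ℝ) ≤ p.X := by exact_mod_cast hKX
  have hHr : (0 : ℝ) < H := by
    have : (0 : ℝ) < p.K * H := lt_of_lt_of_le (by positivity) hH1
    exact pos_of_mul_pos_left (mul_comm (p.K : ℝ) H ▸ this) hKr.le
  have hX1 : (p.Y : ℝ) * (p.M * (p.V : ℝ) ^ 2) ≤ p.K * p.X := by
    rw [← mul_assoc]
    exact_mod_cast ok.hX
  have hX2 : (p.K : ℝ) * p.X ≤ 2000 * (p.Y * (p.M * (p.V : ℝ) ^ 2)) := by
    rw [← mul_assoc (p.Y : ℝ)]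
    exact_mod_cast ok.hX'
  obtain ⟨⟨m0, m1⟩, v0, v1⟩ : (μ0 ∈ p.SM ∧ μ1 ∈ p.SM) ∧ u0 ∈ p.SU ∧ u1 ∈ p.SU := by
    simpa [DP.Qd] using hQ
  have d0 := (mem_cl.1 m0).2.2
  have d1 := (mem_cl.1 m1).2.2
  have e0 := (mem_cl.1 v0).2.2
  have e1 := (mem_cl.1 v1).2.2
  have k1 : (p.K : ℤ) ∣ c1 μ0 u0 u1 := by
    have : c1 μ0 u0 u1 = μ0 * (u1 + u0) * ((u1 - p.us) - (u0 - p.us)) := by unfold c1; ring
    rw [this]
    exact Dvd.dvd.mul_left (dvd_sub e1 e0) _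
  have k3 : (p.K : ℤ) ∣ c3' μ0 μ1 u0 u1 := by
    have : c3' μ0 μ1 u0 u1 = c1 μ0 u0 u1 + u1 ^ 2 * ((μ1 - p.ms) - (μ0 - p.ms)) := by
      unfold c1 c3'; ring
    rw [this]
    exact dvd_add k1 (Dvd.dvd.mul_left (dvd_sub d1 d0) _)
  obtain ⟨c, hc⟩ := k1
  obtain ⟨d, hd⟩ := k3
  have hc' : c1 μ0 u0 u1 / p.K = c := by rw [hc, Int.mul_ediv_cancel_left _ hKz.ne']
  have hd' : c3' μ0 μ1 u0 u1 / p.K = d := by rw [hd, Int.mul_ediv_cancel_left _ hKz.ne']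
  have hDD : p.DD μ0 μ1 u0 u1 = (c * d).natAbs := by rw [DP.DD, hc', hd']
  rw [hc', hd'] at hg
  rw [hc, Int.cast_mul, abs_mul, Int.cast_natCast, abs_of_pos hKr, mul_assoc] at hc1
  rw [hd, Int.cast_mul, abs_mul, Int.cast_natCast, abs_of_pos hKr, mul_assoc] at hc3
  have hW : (0 : ℝ) < p.M * (p.V : ℝ) ^ 2 := by positivity
  have c0 : c ≠ 0 := by
    rintro rfl
    have := mul_pos h0 hW
    simp only [Int.cast_zero, abs_zero, mul_zero] at hc1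
    linarith
  have d0' : d ≠ 0 := by
    rintro rfl
    have := mul_pos h0 hW
    simp only [Int.cast_zero, abs_zero, mul_zero] at hc3
    linarith
  obtain ⟨N1, N2⟩ := ok.N_bd hK hKX
  rw [div_le_iff₀ hKr] at N1
  rw [le_div_iff₀ hKr] at N2
  have hq := xLU3_num (D := ((c * d).natAbs : ℝ)) h0 hδ hKr hW (Nat.cast_nonneg (p.N p.K))
    (by rw [Nat.cast_natAbs, Int.cast_abs, Int.cast_mul, abs_mul]) hc1 hc3 N2 hX2 hH1 hg
  obtain ⟨a00, b00⟩ := xLU3_a p m0 v0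
  obtain ⟨a01, b01⟩ := xLU3_a p m0 v1
  obtain ⟨a10, b10⟩ := xLU3_a p m1 v0
  obtain ⟨a11, b11⟩ := xLU3_a p m1 v1
  have hWH : 200 * ((p.M * (p.V : ℝ) ^ 2) * H) ≤ δ * p.X := by
    refine le_of_mul_le_mul_right ?_ hKr
    calc 200 * ((p.M * (p.V : ℝ) ^ 2) * H) * p.K
        = (p.M * (p.V : ℝ) ^ 2) * (200 * ((p.K : ℝ) * H)) := by ring
      _ ≤ (p.M * (p.V : ℝ) ^ 2) * (δ * p.Y) := mul_le_mul_of_nonneg_left hH2 hW.le
      _ = δ * (p.Y * (p.M * (p.V : ℝ) ^ 2)) := by ring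
      _ ≤ δ * (p.K * p.X) := mul_le_mul_of_nonneg_left hX1 h0.le
      _ = _ := by ring
  have hWz : 12 * (p.M * (p.V : ℤ) ^ 2) * H ≤ p.X := by
    have : 12 * (p.M * (p.V : ℝ) ^ 2) * H ≤ p.X := by
      have := mul_pos hW hHr
      nlinarith
    exact_mod_cast this
  have hs : ∀ h ∈ range H, ∀ r : ℤ, 0 ≤ r → r < p.K → ∀ m, m ∉ JJ (p.N p.K) →
      f (r + p.K * m + c2 μ0 μ1 u0 * h) = 0 := by
    intro h hh r r0 r1 m hm
    by_contra hne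
    have a1 := abs_le.1 (hf.2 _ hne)
    have hh0 : (0 : ℤ) ≤ h := Int.natCast_nonneg _
    have hh1 : (h : ℤ) ≤ H := by exact_mod_cast (mem_range.1 hh).le
    have a2 : |c2 μ0 μ1 u0| ≤ 12 * (p.M * (p.V : ℤ) ^ 2) := by
      rw [c2, sub_mul, abs_le]
      constructor <;> linarith
    have a3 : |c2 μ0 μ1 u0 * h| ≤ p.X := by
      rw [abs_mul, abs_of_nonneg hh0]
      exact (mul_le_mul a2 hh1 hh0 (by linarith)).trans hWz
    have a4 := abs_le.1 a3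
    have a5 : 29 * (p.X : ℤ) ≤ p.N p.K * p.K := by exact_mod_cast N1
    have a6 : (p.K : ℤ) ≤ p.X := by exact_mod_cast hKX
    refine hm (mem_Ico.2 ⟨?_, ?_⟩)
    · refine le_of_mul_le_mul_left ?_ hKz
      linarith
    · refine lt_of_mul_lt_mul_left ?_ hKz.le
      linarith
  obtain ⟨t0, n, i1, i2, -, -⟩ := cl_image p.Y (2 * p.Y) p.ys (by omega) hK
  have i3 : p.SY.card = n := i2
  have hn : (p.Y : ℝ) ≤ n * (2 * p.K) := by
    have := ok.cards.1.1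
    rwa [i3, div_le_iff₀ (by positivity)] at this
  have hnr : (0 : ℝ) < n := by
    have : (0 : ℝ) < n * (2 * p.K) := hYr.trans_le hn
    exact pos_of_mul_pos_right (mul_comm (n : ℝ) _ ▸ this) (by positivity)
  obtain ⟨Φ, hΦ⟩ : ∃ Φ : ℤ → ℤ → ℝ, Φ = fun x t =>
      f (x - (p.T p.ys μ0 u0 + t * (μ0 * u0 ^ 2))) * f (x - (p.T p.ys μ0 u1 + t * (μ0 * u1 ^ 2))) *
      f (x - (p.T p.ys μ1 u1 + t * (μ1 * u1 ^ 2))) *
      f (x - (p.T p.ys μ1 u0 + t * (μ1 * u0 ^ 2))) := ⟨_, rfl⟩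
  have hL4 : p.L4 f μ0 μ1 u0 u1 = ∑ x ∈ Ioc (0 : ℤ) (0 + p.X), ∑ t ∈ Ico t0 (t0 + n), Φ x t := by
    rw [zero_add]
    refine sum_congr rfl fun x _ => ?_
    rw [DP.SY, i1, sum_image fun a _ b _ h => mul_left_cancel₀ hKz.ne' (add_left_cancel h)]
    refine sum_congr rfl fun t _ => ?_
    rw [xLU3_T p hK d0 e0, xLU3_T p hK d0 e1, xLU3_T p hK d1 e0, xLU3_T p hK d1 e1, hΦ]
    ring
  obtain ⟨I, hI⟩ : ∃ I : Finset (ℕ × ℤ × ℤ), I = range H ×ˢ (Ico (0 : ℤ) H ×ˢ Ico (0 : ℤ) H) :=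
    ⟨_, rfl⟩
  have hIc : (I.card : ℝ) = (H : ℝ) ^ 3 := by
    simp [hI, pow_succ, mul_assoc]
  have hIm : ∀ i ∈ I, ((0 : ℤ) ≤ i.1 ∧ (i.1 : ℤ) ≤ H) ∧ (0 ≤ i.2.1 ∧ i.2.1 ≤ H) ∧
      0 ≤ i.2.2 ∧ i.2.2 ≤ H := by
    intro i hi
    simp only [hI, mem_product, mem_range, mem_Ico] at hi
    omega
  have sh := shift2 I Φ (fun x t => by
      rw [hΦ]
      exact xLU3_mul (xLU3_mul (xLU3_mul (hf.1 _) (hf.1 _)) (hf.1 _)) (hf.1 _)) 0 t0 p.X n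
    (36 * (p.M * p.V ^ 2) * H) (3 * H)
    (fun i => μ1 * u0 ^ 2 * i.1 + μ0 * u1 ^ 2 * i.2.1 + μ1 * u1 ^ 2 * i.2.2)
    (fun i => i.1 + i.2.1 + i.2.2) (fun i hi => by
      obtain ⟨⟨p1, p2⟩, ⟨p3, p4⟩, p5, p6⟩ := hIm i hi
      have q1 := mul_le_mul b10 p2 p1 (by linarith)
      have q2 := mul_le_mul b01 p4 p3 (by linarith)
      have q3 := mul_le_mul b11 p6 p5 (by linarith)
      have q4 := mul_nonneg a10 p1
      have q5 := mul_nonneg a01 p3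
      have q6 := mul_nonneg a11 p5
      rw [abs_of_nonneg (by linarith)]
      push_cast
      linarith) (fun i hi => by
      obtain ⟨⟨p1, p2⟩, ⟨p3, p4⟩, p5, p6⟩ := hIm i hi
      rw [abs_of_nonneg (by linarith)]
      push_cast
      linarith)
  rw [← hL4, zero_add, hIc, ← sum_product'] at sh
  rw [i3] at hL
  refine xLU3_fin h0 hδ hXr hnr hHr hKr (S := ∑ z ∈ Ioc (0 : ℤ) p.X ×ˢ Ico t0 (t0 + n),
    |∑ i ∈ I, Φ (z.1 + (μ1 * u0 ^ 2 * i.1 + μ0 * u1 ^ 2 * i.2.1 + μ1 * u1 ^ 2 * i.2.2))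
      (z.2 + (i.1 + i.2.1 + i.2.2))| ^ 2) (le_trans ?_ (sub_le_iff_le_add.2 sh)) ?_ ?_
  · have q1 : 200 * (H : ℝ) ≤ 2 * δ * n := by
      refine le_of_mul_le_mul_right ?_ hKr
      have := mul_le_mul_of_nonneg_left hn h0.le
      linarith
    have q2 := mul_le_mul_of_nonneg_right hWH hnr.le
    have q3 := mul_le_mul_of_nonneg_right q1 hXr.le
    have q4 : 0 ≤ δ * (p.X * n) := by positivity
    rw [← mul_sub, mul_comm _ ((H : ℝ) ^ 3)]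
    refine mul_le_mul_of_nonneg_left ?_ (by positivity)
    push_cast
    linarith
  · refine sq_sum_le_card_mul_sum_sq.trans (le_of_eq ?_)
    simp
  · obtain ⟨φ, hφ⟩ : ∃ φ : ℤ → ℝ, φ = fun r => ∑ h ∈ range H, ∑ h' ∈ range H,
        if CM (p.dg f (c2 μ0 μ1 u0) h h' r) (p.N p.K) (c * d).natAbs (δ ^ 60) then (1 : ℝ)
          else 0 := ⟨_, rfl⟩
    have q1 : ∀ z ∈ Ioc (0 : ℤ) p.X ×ˢ Ico t0 (t0 + n),
        |∑ i ∈ I, Φ (z.1 + (μ1 * u0 ^ 2 * i.1 + μ0 * u1 ^ 2 * i.2.1 + μ1 * u1 ^ 2 * i.2.2))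
          (z.2 + (i.1 + i.2.1 + i.2.2))| ^ 2 ≤
        (H : ℝ) ^ 4 * φ ((z.1 - (p.T p.ys μ0 u0 + z.2 * (μ0 * u0 ^ 2))) % p.K) +
          δ ^ 2 / 8 * (H : ℝ) ^ 6 := by
      intro z _
      rw [sq_abs, hφ, hI]
      refine le_trans (le_of_eq ?_) (xLU3_pt h1 p f hf.1 (p.N p.K) H c d (c2 μ0 μ1 u0)
        (z.1 - (p.T p.ys μ0 u0 + z.2 * (μ0 * u0 ^ 2))) c0 d0' (δ ^ 60) (δ ^ 2 / 8)
        (by positivity) hK hs hq
        (fun h l => f (z.1 - (p.T p.ys μ0 u1 + z.2 * (μ0 * u1 ^ 2)) +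
          (μ1 * u0 ^ 2 - μ0 * u1 ^ 2) * h + (μ1 * u1 ^ 2 - μ0 * u1 ^ 2) * l))
        (fun h k => f (z.1 - (p.T p.ys μ1 u1 + z.2 * (μ1 * u1 ^ 2)) +
          (μ1 * u0 ^ 2 - μ1 * u1 ^ 2) * h + (μ0 * u1 ^ 2 - μ1 * u1 ^ 2) * k))
        (fun w => f (z.1 - (p.T p.ys μ1 u0 + z.2 * (μ1 * u0 ^ 2)) +
          (μ0 * u1 ^ 2 - μ1 * u0 ^ 2) * w.1 + (μ1 * u1 ^ 2 - μ1 * u0 ^ 2) * w.2))
        (fun _ _ => hf.1 _) (fun _ _ => hf.1 _) fun _ => hf.1 _)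
      congr 1
      refine sum_congr rfl fun i _ => ?_
      rw [hΦ, ← hc, ← hd, c1, c2, c3']
      refine congrArg₂ _ (congrArg₂ _ (congrArg₂ _ ?_ ?_) ?_) ?_ <;> exact congrArg f (by ring)
    refine (sum_le_sum q1).trans ?_
    rw [sum_add_distrib, ← mul_sum, sum_const, sum_product_right]
    refine add_le_add (mul_le_mul_of_nonneg_left ?_ (by positivity)) (le_of_eq (by simp))
    have q2 : ∀ r, 0 ≤ φ r := fun r => by
      rw [hφ]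
      exact sum_nonneg fun _ _ => sum_nonneg fun _ _ => by split_ifs <;> norm_num
    refine (sum_le_sum (g := fun _ => 2 * (p.X : ℝ) / p.K * ∑ r ∈ range p.K, φ r) fun t _ =>
      xLU3_cnt p.X p.K hK hKX (p.T p.ys μ0 u0 + t * (μ0 * u0 ^ 2)) φ q2).trans (le_of_eq ?_)
    rw [sum_const, nsmul_eq_mul, Int.card_Ico, add_sub_cancel_left, Int.toNat_natCast, hφ, hDD,
      card_filter, sum_product, sum_comm]
    push_cast
    refine congrArg _ (congrArg _ (sum_congr rfl fun h _ => ?_))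
    rw [sum_product, sum_comm]

end Pool.Agent.MP_e23604_nt.U

end
end

section

/-!
Divisor function of the first direction.
-/

open Finset
open scoped Classical

noncomputable section

namespace Pool.Agent.MP_e23604_nt.U

theorem xLGta_nonneg (n : ℤ) : 0 ≤ ta n := Nat.cast_nonneg _

theorem xLGta_mul (m n : ℤ) : ta (m * n) ≤ ta m * ta n := by
  rw [ta, ta, ta, Int.natAbs_mul, Nat.divisors_mul]
  exact_mod_cast card_mul_le

theorem xLGta_half (n : ℤ) (E : ℕ) (h : n.natAbs ≤ E * E) :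
    ta n ≤ 2 * ∑ d ∈ Icc 1 E, if (d : ℤ) ∣ n then (1 : ℝ) else 0 := by
  have h1 : n.natAbs.divisors.filter (· ≤ E) ⊆ (Icc 1 E).filter fun d : ℕ => (d : ℤ) ∣ n := by
    intro d hd
    rw [mem_filter] at hd ⊢
    exact ⟨mem_Icc.2 ⟨Nat.pos_of_mem_divisors hd.1, hd.2⟩,
      Int.natCast_dvd.2 (Nat.dvd_of_mem_divisors hd.1)⟩
  have h2 : (n.natAbs.divisors.filter fun d => ¬ d ≤ E).card ≤
      (n.natAbs.divisors.filter (· ≤ E)).card := by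
    refine card_le_card_of_injOn (fun d => n.natAbs / d) (fun d hd => ?_) fun d hd d' hd' e => ?_
    · rw [mem_coe, mem_filter, Nat.mem_divisors] at hd
      rw [mem_coe, mem_filter, Nat.mem_divisors]
      exact ⟨⟨Nat.div_dvd_of_dvd hd.1.1, hd.1.2⟩,
        Nat.div_le_of_le_mul (h.trans (Nat.mul_le_mul_right _ (not_le.1 hd.2).le))⟩
    · rw [mem_coe, mem_filter, Nat.mem_divisors] at hd hd'
      rw [← Nat.div_div_self hd.1.1 hd.1.2, ← Nat.div_div_self hd'.1.1 hd'.1.2]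
      exact congrArg _ e
  have h3 := card_filter_add_card_filter_not (s := n.natAbs.divisors) (· ≤ E)
  have h4 := card_le_card h1
  rw [sum_boole, ta]
  exact_mod_cast (by omega : n.natAbs.divisors.card ≤
    2 * ((Icc 1 E).filter fun d : ℕ => (d : ℤ) ∣ n).card)

theorem xLGta_avg {K L : ℕ} (hK : 4 ≤ K) (hL : K ^ 4 ≤ L) {a b : ℤ} (hab : a ≤ b)
    (hb : (b : ℝ) - a ≤ 2 * L) {S : Finset ℤ} (hS : S ⊆ Ioc a b) {g : ℤ → ℤ}
    (hg : ∀ x ∈ S, (g x).natAbs ≤ 4 * L) (hc : (L : ℝ) / (2 * K) ≤ S.card)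
    (hD : ∀ d : ℕ, ∀ x ∈ S, (d : ℤ) ∣ g x → ∃ D : ℕ, d * K ≤ 2 * D ∧
      ∀ y ∈ S, (d : ℤ) ∣ g y → (D : ℤ) ∣ x - y) :
    ∑ x ∈ S, ta (g x) ≤ 20 * (1 + Real.log L) * S.card := by
  have K0 : (0 : ℝ) < K := by exact_mod_cast (by omega : 0 < K)
  obtain ⟨E, hE⟩ : ∃ E, E = L / K := ⟨_, rfl⟩
  have e1 : K ^ 3 ≤ E := hE ▸ (Nat.le_div_iff_mul_le (by omega)).2 (by rwa [← pow_succ])
  have e2 : L < K * (E + 1) := hE ▸ Nat.lt_mul_div_succ L (by omega)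
  have e3 : 4 * L ≤ E * E := by
    have a1 : 16 * K ≤ K ^ 3 := by nlinarith [Nat.mul_le_mul hK hK]
    nlinarith
  have e4 : (E : ℝ) ≤ L / K := hE ▸ Nat.cast_div_le
  have e5 : Real.log E ≤ Real.log L := Real.log_le_log
    (by exact_mod_cast lt_of_lt_of_le (by positivity) e1) (by exact_mod_cast hE ▸ Nat.div_le_self L K)
  have e6 := Real.log_natCast_nonneg L
  have e7 : ∑ d ∈ Icc 1 E, ((d : ℝ))⁻¹ ≤ 1 + Real.log E := by
    have := harmonic_le_one_add_log E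
    rw [harmonic_eq_sum_Icc] at this
    simpa using this
  have k : ∀ d ∈ Icc 1 E, ∑ x ∈ S, (if (d : ℤ) ∣ g x then (1 : ℝ) else 0) ≤
      4 * (L / K) * ((d : ℝ))⁻¹ + 1 := fun d hd => by
    have d0 : 0 < d := (mem_Icc.1 hd).1
    have d1 : (0 : ℝ) < d := by exact_mod_cast d0
    rw [sum_boole]
    rcases (S.filter fun x => (d : ℤ) ∣ g x).eq_empty_or_nonempty with h | ⟨x, hx⟩
    · rw [h, card_empty, Nat.cast_zero]; positivity
    rw [mem_filter] at hx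
    obtain ⟨D, h1, h2⟩ := hD d x hx.1 hx.2
    have D0 : 1 ≤ D := by have := Nat.mul_pos d0 (by omega : 0 < K); omega
    have D1 : (0 : ℝ) < D := by exact_mod_cast D0
    have D2 : (d : ℝ) * K ≤ 2 * D := by exact_mod_cast h1
    refine (card_sparse_le a b hab D0 _ ((filter_subset _ _).trans hS) fun y hy z hz => ?_).trans ?_
    · rw [mem_filter] at hy hz
      rw [show y - z = x - z - (x - y) by ring]
      exact dvd_sub (h2 z hz.1 hz.2) (h2 y hy.1 hy.2)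
    · have a1 : ((b : ℝ) - a) / D ≤ 4 * L / (2 * D) := by
        rw [div_le_div_iff₀ D1 (by positivity)]; nlinarith
      have a2 : 4 * (L : ℝ) / (2 * D) ≤ 4 * L / (d * K) :=
        div_le_div_of_nonneg_left (by positivity) (by positivity) D2
      have a3 : 4 * (L : ℝ) / (d * K) = 4 * (L / K) * ((d : ℝ))⁻¹ := by field_simp
      linarith
  have c1 : (L : ℝ) / K ≤ 2 * S.card := by
    rw [show (L : ℝ) / K = 2 * (L / (2 * K)) by field_simp]; linarith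
  calc _ ≤ ∑ x ∈ S, 2 * ∑ d ∈ Icc 1 E, if (d : ℤ) ∣ g x then (1 : ℝ) else 0 :=
        sum_le_sum fun x hx => xLGta_half _ E ((hg x hx).trans e3)
    _ ≤ 2 * ∑ d ∈ Icc 1 E, (4 * (L / K) * ((d : ℝ))⁻¹ + 1) := by
        rw [← mul_sum, sum_comm]
        exact mul_le_mul_of_nonneg_left (sum_le_sum k) zero_le_two
    _ = 8 * (L / K) * ∑ d ∈ Icc 1 E, ((d : ℝ))⁻¹ + 2 * E := by
        rw [sum_add_distrib, ← mul_sum]; simp; ring
    _ ≤ 8 * (2 * S.card) * (1 + Real.log L) + 2 * (2 * S.card) := by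
        gcongr
        exacts [e7.trans (by linarith), e4.trans c1]
    _ ≤ _ := by nlinarith [mul_nonneg e6 (Nat.cast_nonneg (α := ℝ) S.card)]

theorem LGTa_pf  : LGTa := by
  intro p R h hR
  obtain ⟨s1, s2, s3, -⟩ := h.sizes
  obtain ⟨-, ⟨c2, -⟩, ⟨c3, -⟩, -⟩ := h.cards
  have K0 : (0 : ℝ) < p.K := by exact_mod_cast (by omega : 0 < p.K)
  have K1 : (p.K : ℤ) ≠ 0 := by omega
  have s4 : p.K ^ 4 ≤ p.V := (Nat.pow_le_pow_right (by omega) (by norm_num)).trans s2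
  have V4 : 4 ≤ p.V := s1.trans ((Nat.le_self_pow (by norm_num) _).trans s4)
  have l1 : Real.log p.V ≤ Real.log p.M :=
    Real.log_le_log (by exact_mod_cast (by omega : 0 < p.V)) (by exact_mod_cast s3)
  have l2 : 1 ≤ Real.log p.M := by
    rw [Real.le_log_iff_exp_le (by exact_mod_cast (by omega : 0 < p.M))]
    exact Real.exp_one_lt_d9.le.trans (le_trans (by norm_num) (Nat.cast_le.2 (V4.trans s3)))
  have sU : p.SU ⊆ Ioc (p.V : ℤ) (2 * p.V) := filter_subset _ _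
  have mU : ∀ x ∈ p.SU, (p.V : ℤ) < x ∧ x ≤ 2 * p.V ∧ (p.K : ℤ) ∣ x - p.us := fun x hx => mem_cl.1 hx
  have mM : ∀ x ∈ p.SM, (p.M : ℤ) < x ∧ x ≤ 3 * p.M ∧ (p.K : ℤ) ∣ x - p.ms := fun x hx => mem_cl.1 hx
  have dU : ∀ x ∈ p.SU, ∀ y ∈ p.SU, (p.K : ℤ) ∣ x - y := fun x hx y hy => by
    rw [show x - y = x - p.us - (y - p.us) by ring]
    exact dvd_sub (mU x hx).2.2 (mU y hy).2.2
  have bV : ((2 * (p.V : ℤ) : ℤ) : ℝ) - (p.V : ℤ) ≤ 2 * p.V := by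
    push_cast; linarith [Nat.cast_nonneg (α := ℝ) p.V]
  have a1 : ∑ x ∈ p.SM, ta x ≤ 20 * (1 + Real.log p.M) * p.SM.card :=
    xLGta_avg s1 (s4.trans s3) (a := p.M) (b := 3 * p.M) (by omega) (by push_cast; linarith)
      (filter_subset _ _) (g := fun x => x) (fun x hx => by have := mM x hx; omega)
      (le_trans (div_le_div_of_nonneg_left (Nat.cast_nonneg _) K0 (by linarith)) c2)
      fun d x hx hd => ⟨d * p.K, by omega, fun y hy hd' => by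
        obtain ⟨t, ht⟩ := (mM x hx).2.2
        have b1 : IsCoprime x (p.K : ℤ) := by
          rw [eq_add_of_sub_eq' ht]; exact h.cm.add_mul_left_left t
        rw [Nat.cast_mul]
        refine (b1.of_isCoprime_of_dvd_left hd).mul_dvd (dvd_sub hd hd') ?_
        rw [show x - y = x - p.ms - (y - p.ms) by ring]
        exact dvd_sub (mM x hx).2.2 (mM y hy).2.2⟩
  have a2 : ∀ u ∈ p.SU, ∑ x ∈ p.SU, ta ((x - u) / p.K) ≤ 20 * (1 + Real.log p.V) * p.SU.card :=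
    fun u hu => xLGta_avg s1 s4 (by omega) bV sU (g := fun x => (x - u) / p.K)
      (fun x hx => (Int.natAbs_ediv_le_natAbs _ _).trans (by
        have := mU x hx; have := mU u hu; omega)) c3
      fun d x hx hd => ⟨d * p.K, by omega, fun y hy hd' => by
        rw [Nat.cast_mul, show x - y = x - u - (y - u) by ring,
          ← Int.ediv_mul_cancel (dU x hx u hu), ← Int.ediv_mul_cancel (dU y hy u hu), ← sub_mul]
        exact mul_dvd_mul_right (dvd_sub hd hd') _⟩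
  have a3 : ∀ u ∈ p.SU, ∑ x ∈ p.SU, ta (x + u) ≤ 20 * (1 + Real.log p.V) * p.SU.card :=
    fun u hu => xLGta_avg s1 s4 (by omega) bV sU (g := fun x => x + u)
      (fun x hx => by have := mU x hx; have := mU u hu; omega) c3
      fun d x hx hd => ⟨d.lcm p.K, by
        have b0 : ((d.gcd p.K : ℕ) : ℤ) ∣ p.K := Int.natCast_dvd_natCast.2 (Nat.gcd_dvd_right _ _)
        have b1 : ((d.gcd p.K : ℕ) : ℤ) ∣ 2 * p.us := by
          rw [show 2 * p.us = x + u - (x - p.us) - (u - p.us) by ring]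
          exact dvd_sub (dvd_sub ((Int.natCast_dvd_natCast.2 (Nat.gcd_dvd_left _ _)).trans hd)
            (b0.trans (mU x hx).2.2)) (b0.trans (mU u hu).2.2)
        have b2 := (h.cu.symm.of_isCoprime_of_dvd_left b0).dvd_of_dvd_mul_right b1
        rw [← Nat.gcd_mul_lcm]
        exact Nat.mul_le_mul_right _ (Nat.le_of_dvd two_pos (Int.natCast_dvd_natCast.1 b2)),
       fun y hy hd' => by
        refine Int.natCast_dvd.2 (Nat.lcm_dvd (Int.natCast_dvd.1 ?_) (Int.natCast_dvd.1 (dU x hx y hy)))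
        rw [show x - y = x + u - (y + u) by ring]
        exact dvd_sub hd hd'⟩
  have b1 : ∑ z ∈ p.Qd, (ta z.1.1 + (ta ((z.2.2 - z.2.1) / p.K) + ta (z.2.2 + z.2.1))) ≤
      10 ^ 3 * Real.log p.M * p.Qd.card := by
    have e1 : ∑ z ∈ p.SM ×ˢ p.SM, ta z.1 ≤ 20 * (1 + Real.log p.M) * (p.SM ×ˢ p.SM).card := by
      rw [sum_product, card_product, Nat.cast_mul, ← mul_assoc]
      simp only [sum_const, nsmul_eq_mul, ← mul_sum]
      rw [mul_comm]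
      exact mul_le_mul_of_nonneg_right a1 (Nat.cast_nonneg _)
    have e2 : ∑ z ∈ p.SU ×ˢ p.SU, (ta ((z.2 - z.1) / p.K) + ta (z.2 + z.1)) ≤
        40 * (1 + Real.log p.V) * (p.SU ×ˢ p.SU).card := by
      rw [sum_product, card_product, Nat.cast_mul]
      refine (sum_le_card_nsmul _ _ (40 * (1 + Real.log p.V) * p.SU.card) fun u hu => ?_).trans
        (le_of_eq (by rw [nsmul_eq_mul]; ring))
      rw [sum_add_distrib]
      linarith [a2 u hu, a3 u hu]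
    have e3 := mul_le_mul_of_nonneg_left e1 (Nat.cast_nonneg (α := ℝ) (p.SU ×ˢ p.SU).card)
    have e4 := mul_le_mul_of_nonneg_left e2 (Nat.cast_nonneg (α := ℝ) (p.SM ×ˢ p.SM).card)
    have e5 : 0 ≤ ((p.SM ×ˢ p.SM).card : ℝ) * (p.SU ×ˢ p.SU).card := by positivity
    have e6 := mul_le_mul_of_nonneg_right (show 20 * (1 + Real.log p.M) + 40 * (1 + Real.log p.V) ≤
      10 ^ 3 * Real.log p.M by linarith) e5
    rw [DP.Qd, sum_add_distrib, card_product, Nat.cast_mul, sum_product, sum_product_right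
      (f := fun z : (ℤ × ℤ) × ℤ × ℤ => ta ((z.2.2 - z.2.1) / p.K) + ta (z.2.2 + z.2.1))]
    simp only [sum_const, nsmul_eq_mul, ← mul_sum]
    linarith
  rw [div_mul_eq_mul_div, le_div_iff₀ (by linarith)]
  rw [← nsmul_eq_mul]
  refine ((card_nsmul_le_sum _ _ _ fun z hz => ?_).trans (sum_le_sum_of_subset_of_nonneg
    (filter_subset _ _) fun z _ _ => add_nonneg (xLGta_nonneg _)
      (add_nonneg (xLGta_nonneg _) (xLGta_nonneg _)))).trans b1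
  rw [mem_filter, DP.Qd, mem_product, mem_product, mem_product] at hz
  have e : c1 z.1.1 z.2.1 z.2.2 / p.K = z.1.1 * ((z.2.2 - z.2.1) / p.K * (z.2.2 + z.2.1)) := by
    refine Int.ediv_eq_of_eq_mul_right K1 ?_
    rw [mul_left_comm, ← mul_assoc (p.K : ℤ), Int.mul_ediv_cancel' (dU _ hz.1.2.2 _ hz.1.2.1), c1]
    ring
  have f1 := hz.2.2
  rw [e] at f1
  have f2 := f1.trans_le ((xLGta_mul _ _).trans
    (mul_le_mul_of_nonneg_left (xLGta_mul _ _) (xLGta_nonneg _)))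
  have f3 := xLGta_nonneg z.1.1
  have f4 := xLGta_nonneg ((z.2.2 - z.2.1) / p.K)
  have f5 := xLGta_nonneg (z.2.2 + z.2.1)
  by_contra hlt
  refine f2.not_ge ?_
  rw [show R ^ 3 = R * (R * R) by ring]
  gcongr <;> linarith

end Pool.Agent.MP_e23604_nt.U

end
end

section

/-!
Common divisors in the second family.
-/

open Finset
open scoped Classical

noncomputable section

namespace Pool.Agent.MP_e23604_nt.U

lemma xLGc2_mult (a b : ℤ) (ha : a < 0) (hb : 0 ≤ b) {D : ℕ} (hD : 1 ≤ D) (S : Finset ℤ)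
    (hS : ∀ x ∈ S, a < x ∧ x ≤ b ∧ x ≠ 0 ∧ (D : ℤ) ∣ x) : (S.card : ℝ) ≤ ((b : ℝ) - a) / D := by
  have h0 : (0 : ℤ) ∉ S := fun h => (hS 0 h).2.2.1 rfl
  have hd : ∀ x ∈ insert 0 S, (D : ℤ) ∣ x := fun x hx => by
    rcases mem_insert.1 hx with rfl | hx
    · exact dvd_zero _
    · exact (hS x hx).2.2.2
  have h := card_sparse_le a b (by omega) hD (insert 0 S) (fun x hx => by
    rcases mem_insert.1 hx with rfl | hx
    · exact mem_Ioc.2 ⟨ha, hb⟩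
    · exact mem_Ioc.2 ⟨(hS x hx).1, (hS x hx).2.1⟩) fun x hx y hy => (hd x hx).sub (hd y hy)
  rw [card_insert_of_notMem h0] at h
  push_cast at h
  linarith

lemma xLGc2_pair {α : Type} (A : Finset α) (f g : α → ℕ) (hf : ∀ x ∈ A, f x ≠ 0) (w : ℕ → ℝ)
    (n S : ℝ) (k : ℕ) (h1 : ∀ d, 1 ≤ d → ((A.filter fun x => d ∣ f x).card : ℝ) ≤ n * w d)
    (h2 : ∀ d, 1 ≤ d → ((A.filter fun x => d ∣ g x).card : ℝ) ≤ n * w d)
    (hS : ∀ m, ∑ d ∈ Ioo k m, w d ^ 2 ≤ S) :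
    (((A ×ˢ A).filter fun z => k < Nat.gcd (f z.1) (g z.2)).card : ℝ) ≤ n ^ 2 * S := by
  have hsub : ((A ×ˢ A).filter fun z => k < Nat.gcd (f z.1) (g z.2)) ⊆
      (Ioo k (A.sup f + 1)).biUnion fun d =>
        (A.filter fun x => d ∣ f x) ×ˢ (A.filter fun x => d ∣ g x) := by
    intro z hz
    obtain ⟨hz1, hz2⟩ := mem_filter.1 hz
    obtain ⟨a1, a2⟩ := mem_product.1 hz1
    refine mem_biUnion.2 ⟨_, mem_Ioo.2 ⟨hz2, Nat.lt_succ_of_le ?_⟩, mem_product.2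
      ⟨mem_filter.2 ⟨a1, Nat.gcd_dvd_left _ _⟩, mem_filter.2 ⟨a2, Nat.gcd_dvd_right _ _⟩⟩⟩
    exact (Nat.gcd_le_left _ (Nat.pos_of_ne_zero (hf _ a1))).trans (le_sup a1)
  have h3 := (card_le_card hsub).trans card_biUnion_le
  refine ((Nat.cast_le (α := ℝ)).2 h3).trans ?_
  refine le_trans ?_ (mul_le_mul_of_nonneg_left (hS (A.sup f + 1)) (sq_nonneg n))
  rw [Nat.cast_sum, mul_sum]
  refine sum_le_sum fun d hd => ?_
  have hd1 : 1 ≤ d := by have := (mem_Ioo.1 hd).1; omega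
  rw [card_product, Nat.cast_mul, ← mul_pow, sq]
  exact mul_le_mul (h1 d hd1) (h2 d hd1) (Nat.cast_nonneg _)
    ((Nat.cast_nonneg _).trans (h1 d hd1))

lemma xLGc2_gcd {a b u v k : ℕ} (ha : a ≠ 0) (hu : u ≠ 0) (h1 : Nat.gcd a b ≤ k)
    (h2 : Nat.gcd a v ≤ k) (h3 : Nat.gcd u b ≤ k) (h4 : Nat.gcd u v ≤ k) :
    Nat.gcd (a * u ^ 2) (b * v ^ 2) ≤ k ^ 9 := by
  have key : ∀ x : ℕ, x ≠ 0 → Nat.gcd x b ≤ k → Nat.gcd x v ≤ k →
      0 < Nat.gcd x (b * v ^ 2) ∧ Nat.gcd x (b * v ^ 2) ≤ k ^ 3 := by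
    intro x hx e1 e2
    have p1 : ∀ y, 0 < Nat.gcd x y := fun y => Nat.gcd_pos_of_pos_left y (Nat.pos_of_ne_zero hx)
    refine ⟨p1 _, ?_⟩
    have d1 : Nat.gcd x (b * v ^ 2) ∣ Nat.gcd x b * (Nat.gcd x v * Nat.gcd x v) := by
      rw [sq]
      exact (Nat.gcd_mul_right_dvd_mul_gcd _ _ _).trans
        (Nat.mul_dvd_mul_left _ (Nat.gcd_mul_right_dvd_mul_gcd _ _ _))
    refine (Nat.le_of_dvd (Nat.mul_pos (p1 _) (Nat.mul_pos (p1 _) (p1 _))) d1).trans ?_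
    rw [show k ^ 3 = k * (k * k) by ring]
    exact Nat.mul_le_mul e1 (Nat.mul_le_mul e2 e2)
  obtain ⟨p1, q1⟩ := key a ha h1 h2
  obtain ⟨p2, q2⟩ := key u hu h3 h4
  have d1 : Nat.gcd (a * u ^ 2) (b * v ^ 2) ∣
      Nat.gcd a (b * v ^ 2) * (Nat.gcd u (b * v ^ 2) * Nat.gcd u (b * v ^ 2)) := by
    rw [sq u]
    exact (Nat.gcd_mul_left_dvd_mul_gcd _ _ _).trans
      (Nat.mul_dvd_mul_left _ (Nat.gcd_mul_left_dvd_mul_gcd _ _ _))
  refine (Nat.le_of_dvd (Nat.mul_pos p1 (Nat.mul_pos p2 p2)) d1).trans ?_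
  rw [show k ^ 9 = k ^ 3 * (k ^ 3 * k ^ 3) by ring]
  exact Nat.mul_le_mul q1 (Nat.mul_le_mul q2 q2)

/-- the density majorant -/
def xLGc2_w (p : DP) (d : ℕ) : ℝ := if d ≤ p.V / p.K then 6 / d else 6 * p.K / d

lemma xLGc2_sum (p : DP) (hK : 1 ≤ p.K) (hV : 1 ≤ p.V) (k m : ℕ) :
    ∑ d ∈ Ioo k m, xLGc2_w p d ^ 2 ≤ 72 / (k + 1) + 72 * (p.K : ℝ) ^ 3 / p.V := by
  have hK' : (0 : ℝ) < p.K := by exact_mod_cast hK
  have hV' : (0 : ℝ) < p.V := by exact_mod_cast hV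
  have h1 : ∑ d ∈ Ioo k m, xLGc2_w p d ^ 2 ≤ ∑ d ∈ Ioo k m, (36 * ((d : ℝ) ^ 2)⁻¹ +
      if p.V / p.K < d then 36 * (p.K : ℝ) ^ 2 * ((d : ℝ) ^ 2)⁻¹ else 0) := by
    refine sum_le_sum fun d _ => ?_
    unfold xLGc2_w
    by_cases h : d ≤ p.V / p.K
    · rw [if_pos h, if_neg (not_lt.2 h), add_zero]
      exact le_of_eq (by ring)
    · rw [if_neg h, if_pos (not_le.1 h)]
      have : (0 : ℝ) ≤ 36 * ((d : ℝ) ^ 2)⁻¹ := by positivity
      have e : (6 * (p.K : ℝ) / d) ^ 2 = 36 * (p.K : ℝ) ^ 2 * ((d : ℝ) ^ 2)⁻¹ := by ring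
      linarith
  refine h1.trans ?_
  rw [sum_add_distrib, ← mul_sum, ← sum_filter, ← mul_sum]
  have h2 := sum_Ioo_inv_sq_le (α := ℝ) k m
  have h3 : ∑ d ∈ (Ioo k m).filter (fun d => p.V / p.K < d), ((d : ℝ) ^ 2)⁻¹ ≤
      2 / (((p.V / p.K : ℕ) : ℝ) + 1) := by
    refine le_trans (sum_le_sum_of_subset_of_nonneg (fun d hd => ?_) fun _ _ _ => by positivity)
      (sum_Ioo_inv_sq_le (α := ℝ) (p.V / p.K) m)
    exact mem_Ioo.2 ⟨(mem_filter.1 hd).2, (mem_Ioo.1 (mem_filter.1 hd).1).2⟩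
  have h4 : (p.V : ℝ) ≤ p.K * (((p.V / p.K : ℕ) : ℝ) + 1) := by
    exact_mod_cast (Nat.lt_mul_div_succ p.V hK).le
  have h5 : 2 / (((p.V / p.K : ℕ) : ℝ) + 1) ≤ 2 * p.K / p.V := by
    rw [div_le_div_iff₀ (by positivity) hV']
    linarith
  have h6 := mul_le_mul_of_nonneg_left (h3.trans h5) (by positivity : 0 ≤ 36 * (p.K : ℝ) ^ 2)
  have e1 : 36 * (p.K : ℝ) ^ 2 * (2 * p.K / p.V) = 72 * (p.K : ℝ) ^ 3 / p.V := by ring
  have e2 : (72 : ℝ) / (k + 1) = 36 * (2 / (k + 1)) := by ring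
  linarith

lemma xLGc2_U {p : DP} (h : p.OK 1) {d : ℕ} (hd : 1 ≤ d) :
    ((p.SU.filter fun u => d ∣ u.natAbs).card : ℝ) ≤ p.SU.card * xLGc2_w p d := by
  have hK' : (0 : ℝ) < p.K := by exact_mod_cast h.pos
  have hd' : (0 : ℝ) < d := by exact_mod_cast hd
  have hc := h.cards.2.2.1.1
  rw [div_le_iff₀ (by positivity)] at hc
  have hV : 1 ≤ p.V := (Nat.one_le_pow _ _ h.pos).trans h.sizes.2.1
  have hV' : (1 : ℝ) ≤ p.V := by exact_mod_cast hV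
  have hm : ∀ u ∈ p.SU.filter fun u => d ∣ u.natAbs,
      (p.V : ℤ) < u ∧ u ≤ 2 * p.V ∧ (p.K : ℤ) ∣ u - p.us ∧ (d : ℤ) ∣ u := fun u hu => by
    obtain ⟨a1, a2, a3⟩ := mem_cl.1 (mem_filter.1 hu).1
    exact ⟨a1, a2, a3, Int.natCast_dvd.2 (mem_filter.1 hu).2⟩
  unfold xLGc2_w
  by_cases hh : d ≤ p.V / p.K
  · rw [if_pos hh]
    have h1 := card_sparse_le p.V (2 * p.V) (by omega) (D := d * p.K)
      (Nat.mul_pos hd h.pos) (p.SU.filter fun u => d ∣ u.natAbs)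
      (fun u hu => mem_Ioc.2 ⟨(hm u hu).1, (hm u hu).2.1⟩) fun x hx y hy => by
        obtain ⟨-, -, ⟨t, a3⟩, a4⟩ := hm x hx
        obtain ⟨-, -, b3, b4⟩ := hm y hy
        have c1 : IsCoprime x (p.K : ℤ) := by
          rw [show x = p.us + p.K * t by linarith]
          exact h.cu.add_mul_left_left t
        rw [Nat.cast_mul]
        refine (c1.of_isCoprime_of_dvd_left a4).mul_dvd (a4.sub b4) ?_
        rw [show x - y = p.K * t - (y - p.us) by linarith]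
        exact (dvd_mul_right _ _).sub b3
    have h2 : (d : ℝ) * p.K ≤ p.V := by exact_mod_cast (Nat.le_div_iff_mul_le h.pos).1 hh
    push_cast at h1
    refine h1.trans ?_
    rw [div_add_one (by positivity), ← mul_div_assoc, div_le_div_iff₀ (by positivity) hd']
    have h3 : 2 * (p.V : ℝ) - p.V + d * p.K ≤ p.SU.card * 6 * p.K := by nlinarith
    nlinarith
  · rw [if_neg hh]
    have h1 := xLGc2_mult (-1) (2 * p.V) (by omega) (by omega) hd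
      (p.SU.filter fun u => d ∣ u.natAbs) fun u hu => by
        obtain ⟨a1, a2, -, a4⟩ := hm u hu
        exact ⟨by omega, a2, by omega, a4⟩
    push_cast at h1
    refine h1.trans ?_
    rw [← mul_div_assoc]
    exact div_le_div_of_nonneg_right (by linarith) hd'.le

lemma xLGc2_E {p : DP} (h : p.OK 1) {d : ℕ} (hd : 1 ≤ d) :
    (((p.SE.filter fun e => e ≠ 0).filter fun e => d ∣ (e / (p.K : ℤ)).natAbs).card : ℝ) ≤
      p.SE.card * xLGc2_w p d := by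
  have hK1 : (1 : ℝ) ≤ p.K := by exact_mod_cast h.pos
  have hd' : (0 : ℝ) < d := by exact_mod_cast hd
  have hc := h.cards.2.1.1.trans h.cards.2.2.2.1.1
  rw [div_le_iff₀ (by positivity)] at hc
  have hM : 1 ≤ p.M := ((Nat.one_le_pow _ _ h.pos).trans h.sizes.2.1).trans h.sizes.2.2.1
  have hM' : (1 : ℝ) ≤ p.M := by exact_mod_cast hM
  have h1 := xLGc2_mult (-2 * p.M - 1) (2 * p.M) (by omega) (by omega) (D := d * p.K)
    (Nat.mul_pos hd h.pos) ((p.SE.filter fun e => e ≠ 0).filter fun e => d ∣ (e / (p.K : ℤ)).natAbs)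
    fun e he => by
      obtain ⟨a1, a2⟩ := mem_filter.1 he
      obtain ⟨a3, a4⟩ := mem_filter.1 a1
      obtain ⟨a5, a6⟩ := mem_filter.1 a3
      obtain ⟨a7, a8⟩ := mem_Icc.1 a5
      refine ⟨by omega, a8, a4, ?_⟩
      rw [← Int.ediv_mul_cancel a6, Nat.cast_mul]
      exact mul_dvd_mul_right (Int.natCast_dvd.2 a2) _
  push_cast at h1
  have h2 : 6 / (d : ℝ) ≤ xLGc2_w p d := by
    unfold xLGc2_w
    split_ifs
    · exact le_rfl
    · exact div_le_div_of_nonneg_right (by linarith) hd'.le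
  refine h1.trans (le_trans ?_ (mul_le_mul_of_nonneg_left h2 (Nat.cast_nonneg _)))
  rw [← mul_div_assoc, div_le_div_iff₀ (by positivity) hd']
  have h3 : 2 * (p.M : ℝ) - (-2 * p.M - 1) ≤ p.SE.card * 6 * p.K := by nlinarith
  nlinarith

theorem LGC2_pf  : LGC2 := by
  refine ⟨99, fun δ p hp => ?_⟩
  have h := hp.one
  obtain ⟨δ0, δ1, hOK, -, -⟩ := hp
  have hV : 1 ≤ p.V := (Nat.one_le_pow _ _ h.pos).trans h.sizes.2.1
  have hw : ∀ d, 0 ≤ xLGc2_w p d := fun d => by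
    unfold xLGc2_w
    split_ifs <;> positivity
  set A := p.SU ×ˢ p.SE.filter fun e => e ≠ 0 with hA
  set n : ℝ := ((p.SU ×ˢ p.SE).card : ℝ) with hn
  have hn' : n = p.SU.card * p.SE.card := by rw [hn, card_product, Nat.cast_mul]
  set k := ⌊δ⁻¹ ^ 11⌋₊ with hk
  have f1 : ∀ x ∈ A, (x.2 / (p.K : ℤ)).natAbs ≠ 0 := fun x hx => by
    obtain ⟨a1, a2⟩ := mem_filter.1 (mem_product.1 hx).2
    intro h0
    have := Int.ediv_mul_cancel (mem_filter.1 a1).2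
    rw [Int.natAbs_eq_zero.1 h0, zero_mul] at this
    exact a2 this.symm
  have f2 : ∀ x ∈ A, x.1.natAbs ≠ 0 := fun x hx => by
    have := (mem_cl.1 (mem_product.1 hx).1).1
    omega
  have g1 : ∀ d, 1 ≤ d → ((A.filter fun x => d ∣ (x.2 / (p.K : ℤ)).natAbs).card : ℝ) ≤
      n * xLGc2_w p d := fun d hd => by
    rw [hA, filter_product_right (fun e : ℤ => d ∣ (e / (p.K : ℤ)).natAbs), card_product, Nat.cast_mul,
      hn', mul_assoc]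
    exact mul_le_mul_of_nonneg_left (xLGc2_E h hd) (Nat.cast_nonneg _)
  have g2 : ∀ d, 1 ≤ d → ((A.filter fun x => d ∣ x.1.natAbs).card : ℝ) ≤
      n * xLGc2_w p d := fun d hd => by
    rw [hA, filter_product_left (fun u : ℤ => d ∣ u.natAbs), card_product, Nat.cast_mul, hn',
      mul_right_comm]
    exact mul_le_mul (xLGc2_U h hd) (Nat.cast_le.2 (card_filter_le _ _)) (Nat.cast_nonneg _)
      (mul_nonneg (Nat.cast_nonneg _) (hw d))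
  have hS := xLGc2_sum p h.pos hV k
  have b1 := xLGc2_pair A _ _ f1 _ n _ k g1 g1 hS
  have b2 := xLGc2_pair A _ _ f1 _ n _ k g1 g2 hS
  have b3 := xLGc2_pair A _ _ f2 _ n _ k g2 g1 hS
  have b4 := xLGc2_pair A _ _ f2 _ n _ k g2 g2 hS
  have hi : 2 ≤ δ⁻¹ := by rw [le_inv_comm₀ two_pos δ0]; linarith
  have hsub : (((p.SU ×ˢ p.SE) ×ˢ (p.SU ×ˢ p.SE)).filter fun z => z.1.2 ≠ 0 ∧ z.2.2 ≠ 0 ∧
      δ⁻¹ ^ 99 < (Nat.gcd (z.1.2 / p.K * z.1.1 ^ 2).natAbs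
        (z.2.2 / p.K * z.2.1 ^ 2).natAbs : ℝ)) ⊆
      (((A ×ˢ A).filter fun z => k < Nat.gcd (z.1.2 / (p.K : ℤ)).natAbs (z.2.2 / (p.K : ℤ)).natAbs) ∪
        ((A ×ˢ A).filter fun z => k < Nat.gcd (z.1.2 / (p.K : ℤ)).natAbs z.2.1.natAbs)) ∪
      (((A ×ˢ A).filter fun z => k < Nat.gcd z.1.1.natAbs (z.2.2 / (p.K : ℤ)).natAbs) ∪
        ((A ×ˢ A).filter fun z => k < Nat.gcd z.1.1.natAbs z.2.1.natAbs)) := by
    intro z hz
    obtain ⟨a1, a2, a3, a4⟩ := mem_filter.1 hz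
    obtain ⟨a5, a6⟩ := mem_product.1 a1
    have z1 : z.1 ∈ A := mem_product.2
      ⟨(mem_product.1 a5).1, mem_filter.2 ⟨(mem_product.1 a5).2, a2⟩⟩
    have z2 : z.2 ∈ A := mem_product.2
      ⟨(mem_product.1 a6).1, mem_filter.2 ⟨(mem_product.1 a6).2, a3⟩⟩
    have hz' : z ∈ A ×ˢ A := mem_product.2 ⟨z1, z2⟩
    by_contra hc
    simp only [mem_union, mem_filter, hz', true_and, not_or, not_lt] at hc
    have c1 := xLGc2_gcd (f1 _ z1) (f2 _ z1) hc.1.1 hc.1.2 hc.2.1 hc.2.2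
    rw [Int.natAbs_mul, Int.natAbs_mul, Int.natAbs_pow, Int.natAbs_pow] at a4
    have c2 : (k : ℝ) ^ 9 ≤ (δ⁻¹ ^ 11) ^ 9 :=
      pow_le_pow_left₀ (Nat.cast_nonneg _) (Nat.floor_le (by positivity)) 9
    have c3 := (Nat.cast_le (α := ℝ)).2 c1
    rw [← pow_mul] at c2
    rw [Nat.cast_pow] at c3
    exact absurd (c3.trans c2) (not_le.2 a4)
  have h1 := (Nat.cast_le (α := ℝ)).2 ((card_le_card hsub).trans ((card_union_le _ _).trans
    (Nat.add_le_add (card_union_le _ _) (card_union_le _ _))))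
  push_cast at h1
  have hR : (1024 : ℝ) * δ⁻¹ ≤ δ⁻¹ ^ 11 := by
    have : (2 : ℝ) ^ 10 ≤ δ⁻¹ ^ 10 := pow_le_pow_left₀ two_pos.le hi 10
    rw [pow_succ]
    exact mul_le_mul_of_nonneg_right (by linarith) (by positivity)
  have hδ : δ * δ⁻¹ = 1 := mul_inv_cancel₀ δ0.ne'
  have s1 : (72 : ℝ) / (k + 1) ≤ δ / 8 := by
    have := Nat.lt_floor_add_one (δ⁻¹ ^ 11)
    rw [div_le_iff₀ (by positivity)]
    nlinarith
  have s2 : 72 * (p.K : ℝ) ^ 3 / p.V ≤ δ / 8 := by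
    have hK1 : (1 : ℝ) ≤ p.K := by exact_mod_cast h.pos
    have t1 : (p.K : ℝ) ^ 3 * δ⁻¹ ^ 11 ≤ p.V :=
      le_trans (mul_le_mul (pow_le_pow_right₀ hK1 (by norm_num))
        (pow_le_pow_right₀ (by linarith) (by norm_num)) (by positivity) (by positivity)) hOK.hV
    have t2 : (p.K : ℝ) ^ 3 * (1024 * δ⁻¹) ≤ p.V :=
      (mul_le_mul_of_nonneg_left hR (by positivity)).trans t1
    have t3 := mul_le_mul_of_nonneg_left t2 δ0.le
    have t4 : δ * ((p.K : ℝ) ^ 3 * (1024 * δ⁻¹)) = 1024 * (p.K : ℝ) ^ 3 := by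
      field_simp
    have t5 : (0 : ℝ) ≤ (p.K : ℝ) ^ 3 := by positivity
    rw [div_le_iff₀ (by exact_mod_cast hV)]
    linarith
  have s3 := mul_le_mul_of_nonneg_left (add_le_add s1 s2) (sq_nonneg n)
  linarith

end Pool.Agent.MP_e23604_nt.U

end
end
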