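import Mathlib

set_option linter.all false

section

/-!
The interface of the degree lowering step.
-/

open Finset
open scoped Classical

noncomputable section

namespace Pool.Agent.MP_e23604_nt.U

/-- The integers in `(a, b]` congruent to `r` modulo `K`. -/
def cl (a b : ℤ) (K : ℕ) (r : ℤ) : Finset ℤ := (Ioc a b).filter fun x => x % (K : ℤ) = r % (K : ℤ)

/-- The parameters of one cell. -/
structure DP where
  K : ℕ
  Y : ℕ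
  M : ℕ
  V : ℕ
  X : ℕ
  ys : ℤ
  ms : ℤ
  us : ℤ

def DP.SX (p : DP) : Finset ℤ := Ioc 0 (p.X : ℤ)
def DP.SY (p : DP) : Finset ℤ := cl p.Y (2 * p.Y) p.K p.ys
def DP.SM (p : DP) : Finset ℤ := cl p.M (3 * p.M) p.K p.ms
def DP.SU (p : DP) : Finset ℤ := cl p.V (2 * p.V) p.K p.us

structure DP.OK (p : DP) (R : ℝ) : Prop where
  four : 4 ∣ p.K
  pos : 1 ≤ p.K
  cm : IsCoprime p.ms (p.K : ℤ)
  cu : IsCoprime p.us (p.K : ℤ)
  hV : (p.K : ℝ) ^ 100 * R ≤ p.V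
  hM : p.V ^ 4 ≤ p.M
  hM' : p.M ≤ p.V ^ 10
  hY : p.M ^ 10 ≤ p.Y
  hX : p.Y * p.M * p.V ^ 2 ≤ p.K * p.X
  hX' : p.K * p.X ≤ 2000 * (p.Y * p.M * p.V ^ 2)

/-- The correlation of two shifts of `F`. -/
def DP.corr (p : DP) (t0 : ℤ) (F : ℤ → ℝ) (u μ μ' : ℤ) : ℝ :=
  ∑ x ∈ p.SX, ∑ y ∈ p.SY,
    F (p.K * x + t0 - y * μ * u ^ 2) * F (p.K * x + t0 - y * μ' * u ^ 2)

/-- The degree lowering estimate. -/
def IDL : Prop := ∃ C : ℕ, ∀ δ : ℝ, 0 < δ → δ ≤ 1 / 2 → ∀ p : DP, p.OK (δ⁻¹ ^ C) →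
  Real.log p.M ≤ δ⁻¹ → ∀ (t0 : ℤ) (F : ℤ → ℝ) (G1 G2 : ℤ → ℤ → ℤ → ℝ) (H : ℤ → ℤ → ℝ),
  (∀ t, |F t| ≤ 1) → (∀ x y μ, |G1 x y μ| ≤ 1) → (∀ x y u, |G2 x y u| ≤ 1) →
  (∀ μ u, |H μ u| ≤ 1) →
  |∑ x ∈ p.SX, ∑ y ∈ p.SY, ∑ μ ∈ p.SM, ∑ u ∈ p.SU,
      G1 x y μ * G2 x y u * H μ u * F (p.K * x + t0 - y * μ * u ^ 2)| ≤
    δ * (p.X * p.SY.card * p.SM.card * p.SU.card) +
      δ⁻¹ ^ C * ∑ q ∈ Icc 1 ⌊δ⁻¹ ^ C⌋₊, ((q : ℝ) * p.K ^ 32 / p.M) *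
        ∑ u ∈ p.SU, ∑ μ ∈ p.SM,
          ∑ μ' ∈ p.SM.filter (fun μ' => μ' ≠ μ ∧ ((q * p.K ^ 32 : ℕ) : ℤ) ∣ μ - μ'),
            |p.corr t0 F u μ μ'|

end Pool.Agent.MP_e23604_nt.U

end
end

section

/-!
Definitions and step statements for the degree lowering estimate.
-/

open Finset
open scoped Classical

noncomputable section

namespace Pool.Agent.MP_e23604_nt.U

def ee (t : ℝ) : ℂ := Complex.exp (2 * Real.pi * Complex.I * t)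

/-- Distance to the nearest integer. -/
def nd (t : ℝ) : ℝ := |t - round t|

def JJ (N : ℕ) : Finset ℤ := Ico (-(N : ℤ)) N

/-- The mass of `g` on the frequencies `ξ + j / D`. -/
def cm (g : ℤ → ℂ) (N D : ℕ) (ξ : ℝ) : ℝ :=
  ∑ r ∈ range D, ‖∑ m ∈ (JJ N).filter (fun m => m % (D : ℤ) = r), g m * ee (ξ * m)‖ ^ 2

def CM (g : ℤ → ℂ) (N D : ℕ) (τ : ℝ) : Prop := ∃ ξ : ℝ, τ * (N : ℝ) ^ 2 / D ≤ cm g N D ξ

def FC (g : ℤ → ℂ) (N : ℕ) (τ : ℝ) : Prop :=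
  ∃ ξ : ℝ, τ * N ≤ ‖∑ m ∈ JJ N, g m * ee (ξ * m)‖

def ta (n : ℤ) : ℝ := (n.natAbs.divisors.card : ℝ)

def DP.Rep (p : DP) : Prop := p.ys ∈ p.SY ∧ p.ms ∈ p.SM ∧ p.us ∈ p.SU

def DP.T (p : DP) (y μ u : ℤ) : ℤ := (y * μ * u ^ 2 - p.ys * p.ms * p.us ^ 2) / p.K

def DP.nW (p : DP) : ℝ := p.SY.card * p.SM.card * p.SU.card

def DP.N (p : DP) (Λ : ℕ) : ℕ := 30 * p.X / Λ

def DP.SE (p : DP) : Finset ℤ := (Icc (-2 * (p.M : ℤ)) (2 * p.M)).filter fun e => (p.K : ℤ) ∣ e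

def DP.Qd (p : DP) : Finset ((ℤ × ℤ) × (ℤ × ℤ)) := (p.SM ×ˢ p.SM) ×ˢ (p.SU ×ˢ p.SU)

/-- The three weights, all bounded by one. -/
structure Wts where
  G1 : ℤ → ℤ → ℤ → ℝ
  G2 : ℤ → ℤ → ℤ → ℝ
  H : ℤ → ℤ → ℝ
  h1 : ∀ x y μ, |G1 x y μ| ≤ 1
  h2 : ∀ x y u, |G2 x y u| ≤ 1
  h3 : ∀ μ u, |H μ u| ≤ 1

def DP.S (p : DP) (w : Wts) (f : ℤ → ℝ) : ℝ :=
  ∑ x ∈ p.SX, ∑ y ∈ p.SY, ∑ μ ∈ p.SM, ∑ u ∈ p.SU,
    w.G1 x y μ * w.G2 x y u * w.H μ u * f (x - p.T y μ u)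

def DP.gw (p : DP) (w : Wts) (x y μ u : ℤ) : ℝ :=
  if x + p.T y μ u ∈ p.SX then
    w.G1 (x + p.T y μ u) y μ * w.G2 (x + p.T y μ u) y u * w.H μ u else 0

/-- The dual function. -/
def DP.D (p : DP) (w : Wts) (x : ℤ) : ℝ :=
  (∑ y ∈ p.SY, ∑ μ ∈ p.SM, ∑ u ∈ p.SU, p.gw w x y μ u) / p.nW

/-- Bounded by one and supported on `|x| ≤ 24 X`. -/
def DP.Bd (p : DP) (f : ℤ → ℝ) : Prop := (∀ x, |f x| ≤ 1) ∧ ∀ x, f x ≠ 0 → |x| ≤ 24 * (p.X : ℤ)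

/-- The standing hypotheses. -/
def DP.Hyp (p : DP) (δ : ℝ) (C : ℕ) : Prop :=
  0 < δ ∧ δ ≤ 1 / 2 ∧ p.OK (δ⁻¹ ^ C) ∧ p.Rep ∧ Real.log p.M ≤ δ⁻¹

def c1 (μ0 u0 u1 : ℤ) : ℤ := μ0 * (u1 ^ 2 - u0 ^ 2)
def c2 (μ0 μ1 u0 : ℤ) : ℤ := (μ1 - μ0) * u0 ^ 2
def c3' (μ0 μ1 u0 u1 : ℤ) : ℤ := μ1 * u1 ^ 2 - μ0 * u0 ^ 2

def DP.DD (p : DP) (μ0 μ1 u0 u1 : ℤ) : ℕ :=
  (c1 μ0 u0 u1 / p.K * (c3' μ0 μ1 u0 u1 / p.K)).natAbs

def DP.L4 (p : DP) (f : ℤ → ℝ) (μ0 μ1 u0 u1 : ℤ) : ℝ :=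
  ∑ x ∈ p.SX, ∑ y ∈ p.SY, f (x - p.T y μ0 u0) * f (x - p.T y μ0 u1) * f (x - p.T y μ1 u0) *
    f (x - p.T y μ1 u1)

/-- The multiplicative derivative on a class modulo `K`. -/
def DP.dg (p : DP) (f : ℤ → ℝ) (c h h' r : ℤ) : ℤ → ℂ :=
  fun m => ((f (r + p.K * m + c * h) * f (r + p.K * m + c * h') : ℝ) : ℂ)

/-- The restriction to a class modulo `Λ`. -/
def res (f : ℤ → ℝ) (Λ : ℕ) (r : ℤ) : ℤ → ℂ := fun m => ((f (r + Λ * m) : ℝ) : ℂ)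

def DP.P2 (p : DP) (f : ℤ → ℝ) (c r : ℤ) (q H : ℕ) (τ : ℝ) : Prop :=
  ∃ b : ℤ → ℂ, (∀ m, ‖b m‖ ≤ 1) ∧ τ * H * p.N p.K ≤
    ∑ h ∈ range H, ∑ ρ ∈ range (2 * q * p.K ^ 6),
      ‖∑ m ∈ (JJ (p.N p.K)).filter (fun m => m % ((2 * q * p.K ^ 6 : ℕ) : ℤ) = ρ),
        ((f (r + p.K * m + c * h) : ℝ) : ℂ) * b m‖

def DP.HOK (p : DP) (H : ℕ) (τ : ℝ) : Prop := τ * p.Y ≤ p.K * H ∧ 10 * p.K * H ≤ p.Y

/-! Generic steps. -/

def LCS2 : Prop := ∀ (Ω A B : Type) (SO : Finset Ω) (SA : Finset A) (SB : Finset B)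
  (G1 : Ω → A → ℂ) (G2 : Ω → B → ℂ) (H : A → B → ℂ) (Φ : Ω → A → B → ℂ),
  (∀ o a, ‖G1 o a‖ ≤ 1) → (∀ o b, ‖G2 o b‖ ≤ 1) → (∀ a b, ‖H a b‖ ≤ 1) →
  ‖∑ o ∈ SO, ∑ a ∈ SA, ∑ b ∈ SB, G1 o a * G2 o b * H a b * Φ o a b‖ ^ 4 ≤
    (SO.card : ℝ) ^ 3 * (SA.card : ℝ) ^ 2 * (SB.card : ℝ) ^ 2 *
      ∑ a0 ∈ SA, ∑ a1 ∈ SA, ∑ b0 ∈ SB, ∑ b1 ∈ SB,
        ‖∑ o ∈ SO, Φ o a0 b0 * (starRingEnd ℂ) (Φ o a0 b1) * (starRingEnd ℂ) (Φ o a1 b0) *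
          Φ o a1 b1‖

def LBIL : Prop := ∀ (c d x0 : ℤ) (g β α : ℤ → ℂ) (N : ℕ) (I1 I2 : Finset ℤ) (Q : ℝ),
  c ≠ 0 → d ≠ 0 → (∀ m, m ∉ JJ N → g m = 0) → (∀ ξ, cm g N (c * d).natAbs ξ ≤ Q) →
  ‖∑ k ∈ I1, ∑ l ∈ I2, g (x0 + c * k + d * l) * β k * α l‖ ^ 2 ≤
    (Int.gcd c d : ℝ) * Q * (∑ k ∈ I1, ‖β k‖ ^ 2) * ∑ l ∈ I2, ‖α l‖ ^ 2

def LOR2 : Prop := ∀ (D D' N : ℕ) (a a' : ℤ → ℂ) (η ρ : ℝ), 1 ≤ D → 1 ≤ D' →
  (∀ m, a (m + D) = a m) → (∀ m, a' (m + D') = a' m) → (∀ m, ‖a m‖ ≤ 3) → (∀ m, ‖a' m‖ ≤ 3) →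
  0 < ρ → ρ ≤ 1 → 10 ^ 5 * ((D : ℝ) * D') ≤ ρ ^ 2 * N →
  ρ * N ≤ ‖∑ m ∈ JJ N, a m * (starRingEnd ℂ) (a' m) * ee (η * m)‖ →
  ∃ (j : ℤ) (ρ0 : ℕ), ρ * D / (100 * Nat.gcd D D') ≤
    ‖∑ r ∈ (range D).filter (fun r => r % Nat.gcd D D' = ρ0), a r * ee (j * r / D)‖

def LORT : Prop := ∀ (ι : Type) (P P' : Finset ι) (D : ι → ℕ) (g : ℤ → ℂ) (N Dm : ℕ) (τ G : ℝ),
  (∀ m, ‖g m‖ ≤ 1) → P' ⊆ P → P.Nonempty → 0 < τ → τ ≤ 1 → 1 ≤ G → τ * P.card ≤ P'.card →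
  (∀ π ∈ P', 1 ≤ D π ∧ D π ≤ Dm ∧ CM g N (D π) τ) →
  (((P' ×ˢ P').filter fun z => G < (Nat.gcd (D z.1) (D z.2) : ℝ)).card : ℝ) ≤
    τ ^ 4 * (P.card : ℝ) ^ 2 / 100 →
  10 ^ 7 * (Dm : ℝ) ^ 2 ≤ τ ^ 4 * N → FC g N (τ ^ 2 / (1000 * G))

def LVIN : Prop := ∀ (θ φ ε δ : ℝ) (a : ℤ) (N : ℕ) (S : Finset ℤ), 0 < δ → δ ≤ 1 → 0 ≤ ε →
  ε ≤ δ / 16 → 4 ≤ δ * N → S ⊆ Ico a (a + N) → δ * N ≤ S.card →
  (∀ n ∈ S, nd (θ * n + φ) ≤ ε) →
  ∃ q : ℕ, 1 ≤ q ∧ (q : ℝ) ≤ 4 / δ ∧ nd (q * θ) ≤ 64 * ε / (δ ^ 2 * N)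

def LVI3 : Prop := ∃ C : ℕ, ∀ (η α ε : ℝ) (A B a b : ℤ) (M V : ℕ)
  (S : Finset ((ℤ × ℤ) × (ℤ × ℤ))), 0 < η → η ≤ 1 / 2 → 0 ≤ ε → ε ≤ η ^ C → η⁻¹ ^ C ≤ M →
  η⁻¹ ^ C ≤ V → S ⊆ (Ico a (a + M) ×ˢ Ico a (a + M)) ×ˢ (Ico b (b + V) ×ˢ Ico b (b + V)) →
  η * (M : ℝ) ^ 2 * (V : ℝ) ^ 2 ≤ S.card →
  (∀ z ∈ S, nd (α * (((z.1.2 - z.1.1) * (z.2.2 - z.2.1) * (B + A * (z.2.1 + z.2.2)) : ℤ) : ℝ))
    ≤ ε) →
  ∃ q : ℕ, 1 ≤ q ∧ (q : ℝ) ≤ η⁻¹ ^ C ∧ nd (q * (2 * A * α)) ≤ η⁻¹ ^ C * ε / (M * (V : ℝ) ^ 2)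

def LMJ1 : Prop := ∃ C : ℕ, ∀ (η α : ℝ) (A : ℕ) (y' μ' u' a1 a2 a3 : ℤ) (Y M V : ℕ)
  (SX : Finset ℤ) (G1 G2 : ℤ → ℤ → ℤ → ℂ) (H : ℤ → ℤ → ℂ), 0 < η → η ≤ 1 / 2 → 1 ≤ A →
  η⁻¹ ^ C ≤ Y → η⁻¹ ^ C ≤ M → η⁻¹ ^ C ≤ V → SX.Nonempty →
  (∀ x y μ, ‖G1 x y μ‖ ≤ 1) → (∀ x y u, ‖G2 x y u‖ ≤ 1) → (∀ μ u, ‖H μ u‖ ≤ 1) →
  η * (SX.card * Y * M * V) ≤
    ‖∑ x ∈ SX, ∑ t ∈ Ico a1 (a1 + Y), ∑ j ∈ Ico a2 (a2 + M), ∑ i ∈ Ico a3 (a3 + V),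
      G1 x t j * G2 x t i * H j i *
        ee (α * (((y' + A * t) * (μ' + A * j) * (u' + A * i) ^ 2 : ℤ) : ℝ) / A)‖ →
  ∃ q : ℕ, 1 ≤ q ∧ (q : ℝ) ≤ η⁻¹ ^ C ∧
    nd (2 * q * (A : ℝ) ^ 3 * α) ≤ η⁻¹ ^ C / (Y * M * (V : ℝ) ^ 2)

/-! Steps in one cell. -/

def LMAJ : Prop := ∃ C : ℕ, ∀ (η α : ℝ) (p : DP) (w : Wts) (Λ : ℕ) (r : ℤ), p.Hyp η C → 1 ≤ Λ →
  (p.K : ℝ) * Λ * η⁻¹ ^ C ≤ p.V → |r| ≤ 2 * (p.X : ℤ) →
  η * (p.N Λ * p.nW) ≤ ‖∑ m ∈ JJ (p.N Λ), ∑ y ∈ p.SY, ∑ μ ∈ p.SM, ∑ u ∈ p.SU,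
    ((p.gw w (r + Λ * m) y μ u : ℝ) : ℂ) * ee (α * m)‖ →
  ∃ q : ℕ, 1 ≤ q ∧ (q : ℝ) ≤ η⁻¹ ^ C ∧
    nd (2 * q * ((p.K : ℝ) * Λ) ^ 3 * α) ≤ η⁻¹ ^ C * ((p.K : ℝ) * Λ) ^ 3 * Λ / p.X

def LU3 : Prop := ∃ C : ℕ, ∀ (δ : ℝ) (p : DP) (f : ℤ → ℝ) (H : ℕ) (μ0 μ1 u0 u1 : ℤ),
  p.Hyp δ C → p.Bd f → ((μ0, μ1), (u0, u1)) ∈ p.Qd → δ ^ 2 * p.Y ≤ p.K * H →
  200 * ((p.K : ℝ) * H) ≤ δ * p.Y →
  δ * p.M * (p.V : ℝ) ^ 2 ≤ |(c1 μ0 u0 u1 : ℝ)| → δ * p.M * (p.V : ℝ) ^ 2 ≤ |(c3' μ0 μ1 u0 u1 : ℝ)| →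
  (Int.gcd (c1 μ0 u0 u1 / p.K) (c3' μ0 μ1 u0 u1 / p.K) : ℝ) ≤ δ⁻¹ →
  δ * (p.X * p.SY.card) ≤ |p.L4 f μ0 μ1 u0 u1| →
  δ ^ C * ((H : ℝ) ^ 2 * p.K) ≤ (((range H ×ˢ range H ×ˢ range p.K).filter fun z =>
    CM (p.dg f (c2 μ0 μ1 u0) z.1 z.2.1 z.2.2) (p.N p.K) (p.DD μ0 μ1 u0 u1) (δ ^ C)).card : ℝ)

def LGT1 : Prop := ∀ (p : DP) (R : ℝ), p.OK 1 → 1 ≤ R →
  ((p.Qd.filter fun z => p.DD z.1.1 z.1.2 z.2.1 z.2.2 ≠ 0 ∧
    R ^ 6 < ta (p.DD z.1.1 z.1.2 z.2.1 z.2.2)).card : ℝ) ≤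
    10 ^ 4 * Real.log p.M / R * p.Qd.card

def LGTa : Prop := ∀ (p : DP) (R : ℝ), p.OK 1 → 1 ≤ R →
  ((p.Qd.filter fun z => c1 z.1.1 z.2.1 z.2.2 ≠ 0 ∧
    R ^ 3 < ta (c1 z.1.1 z.2.1 z.2.2 / p.K)).card : ℝ) ≤ 10 ^ 3 * Real.log p.M / R * p.Qd.card

def LG1a : Prop := ∃ C : ℕ, ∀ (δ : ℝ) (p : DP), p.Hyp δ C →
  ((p.Qd.filter fun z => |(c1 z.1.1 z.2.1 z.2.2 : ℝ)| < δ ^ C * p.M * (p.V : ℝ) ^ 2 ∨
    |((z.1.2 - z.1.1 : ℤ) : ℝ)| < δ ^ C * p.M ∨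
    |(c3' z.1.1 z.1.2 z.2.1 z.2.2 : ℝ)| < δ ^ C * p.M * (p.V : ℝ) ^ 2 ∨
    δ⁻¹ ^ C < (Int.gcd (c1 z.1.1 z.2.1 z.2.2 / p.K) (c3' z.1.1 z.1.2 z.2.1 z.2.2 / p.K) : ℝ)).card
      : ℝ) ≤ δ * p.Qd.card

def LGCp : Prop := ∀ (p : DP) (G : ℝ) (n : ℕ) (u0 e : ℤ), 1 ≤ G → p.OK G → n ≠ 0 → u0 ∈ p.SU →
  e ∈ p.SE →
  (((p.SM ×ˢ p.SU).filter fun z => p.DD z.1 (z.1 + e) u0 z.2 ≠ 0 ∧
    G ^ 64 < (Nat.gcd n (p.DD z.1 (z.1 + e) u0 z.2) : ℝ)).card : ℝ) ≤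
    1000 * ta n / G * (p.SM ×ˢ p.SU).card

def LG1b : Prop := ∃ C : ℕ, ∀ (δ : ℝ) (p : DP), p.Hyp δ C →
  ∑ b ∈ p.SU ×ˢ p.SE, ((((p.SM ×ˢ p.SU) ×ˢ (p.SM ×ˢ p.SU)).filter fun z =>
    z.1.1 + b.2 ∈ p.SM ∧ p.DD z.1.1 (z.1.1 + b.2) b.1 z.1.2 ≠ 0 ∧
      p.DD z.2.1 (z.2.1 + b.2) b.1 z.2.2 ≠ 0 ∧
      δ⁻¹ ^ C < (Nat.gcd (p.DD z.1.1 (z.1.1 + b.2) b.1 z.1.2)
        (p.DD z.2.1 (z.2.1 + b.2) b.1 z.2.2) : ℝ)).card : ℝ) ≤
    δ * (p.SU ×ˢ p.SE).card * ((p.SM ×ˢ p.SU).card : ℝ) ^ 2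

def LGC2 : Prop := ∃ C : ℕ, ∀ (δ : ℝ) (p : DP), p.Hyp δ C →
  ((((p.SU ×ˢ p.SE) ×ˢ (p.SU ×ˢ p.SE)).filter fun z => z.1.2 ≠ 0 ∧ z.2.2 ≠ 0 ∧
    δ⁻¹ ^ C < (Nat.gcd (z.1.2 / p.K * z.1.1 ^ 2).natAbs
      (z.2.2 / p.K * z.2.1 ^ 2).natAbs : ℝ)).card : ℝ) ≤ δ * ((p.SU ×ˢ p.SE).card : ℝ) ^ 2

/-- Many tuples `((u0, e), (μ0, u1), h, h', r)` with a large coset mass. -/
def DP.A1 (p : DP) (f : ℤ → ℝ) (H : ℕ) (τ : ℝ) : Prop :=
  τ * ((p.SU ×ˢ p.SE).card * (p.SM ×ˢ p.SU).card * ((H : ℝ) ^ 2 * p.K)) ≤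
    ((((p.SU ×ˢ p.SE) ×ˢ (p.SM ×ˢ p.SU) ×ˢ (range H ×ˢ range H ×ˢ range p.K)).filter fun z =>
      τ * p.M ≤ |(z.1.2 : ℝ)| ∧ z.2.1.1 + z.1.2 ∈ p.SM ∧
      p.DD z.2.1.1 (z.2.1.1 + z.1.2) z.1.1 z.2.1.2 ≠ 0 ∧
      CM (p.dg f (z.1.2 * z.1.1 ^ 2) z.2.2.1 z.2.2.2.1 z.2.2.2.2) (p.N p.K)
        (p.DD z.2.1.1 (z.2.1.1 + z.1.2) z.1.1 z.2.1.2) τ).card : ℝ)

/-- Many tuples `((u0, e), h, h', r)` with a large Fourier coefficient. -/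
def DP.A2 (p : DP) (f : ℤ → ℝ) (H : ℕ) (τ : ℝ) : Prop :=
  τ * ((p.SU ×ˢ p.SE).card * ((H : ℝ) ^ 2 * p.K)) ≤
    ((((p.SU ×ˢ p.SE) ×ˢ (range H ×ˢ range H ×ˢ range p.K)).filter fun z =>
      τ * p.M ≤ |(z.1.2 : ℝ)| ∧
      FC (p.dg f (z.1.2 * z.1.1 ^ 2) z.2.1 z.2.2.1 z.2.2.2) (p.N p.K) τ).card : ℝ)

def DP.A3 (p : DP) (f : ℤ → ℝ) (H q : ℕ) (τ : ℝ) : Prop :=
  τ * ((p.SU ×ˢ p.SE).card * p.K) ≤
    ((((p.SU ×ˢ p.SE) ×ˢ range p.K).filter fun z =>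
      τ * p.M ≤ |(z.1.2 : ℝ)| ∧ p.P2 f (z.1.2 * z.1.1 ^ 2) z.2 q H τ).card : ℝ)

def DP.A4 (p : DP) (f : ℤ → ℝ) (q : ℕ) (τ : ℝ) : Prop :=
  τ * (2 * q * (p.K : ℝ) ^ 7) ≤ (((range (2 * q * p.K ^ 7)).filter fun r : ℕ =>
    FC (res f (2 * q * p.K ^ 7) r) (p.N (2 * q * p.K ^ 7)) τ).card : ℝ)

def DP.A5 (p : DP) (f : ℤ → ℝ) (τ : ℝ) : Prop :=
  ∃ (Q : ℕ) (β : ℝ), 1 ≤ Q ∧ (Q : ℝ) ≤ τ⁻¹ ∧ |β| ≤ τ⁻¹ / p.X ∧ τ * p.X ≤
    ∑ ρ ∈ range (Q * p.K ^ 31),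
      ‖∑ x ∈ (JJ (30 * p.X)).filter (fun x => x % ((Q * p.K ^ 31 : ℕ) : ℤ) = ρ),
        ((f x : ℝ) : ℂ) * ee (β * x)‖

def LR1a : Prop := ∃ C : ℕ, ∀ (δ : ℝ) (p : DP) (w : Wts) (f : ℤ → ℝ), p.Hyp δ C → p.Bd f →
  δ * (p.X * p.nW) ≤ |p.S w f| → ∃ H : ℕ, p.HOK H (δ ^ C) ∧ p.A1 f H (δ ^ C)

def LR1b : Prop := ∃ C : ℕ, ∀ (δ : ℝ) (p : DP) (f : ℤ → ℝ) (H : ℕ), p.Hyp δ C → p.Bd f →
  p.A1 f H δ → p.A2 f H (δ ^ C)

def LDDI : Prop := ∃ C : ℕ, ∀ (δ : ℝ) (p : DP) (w : Wts) (H : ℕ) (c h' : ℤ) (r : ℕ), p.Hyp δ C →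
  (p.K : ℤ) ∣ c → |c| * H ≤ p.X → r < p.K → 1 ≤ H →
  δ * H ≤ (((range H).filter fun h : ℕ => FC (p.dg (p.D w) c h h' r) (p.N p.K) δ).card : ℝ) →
  ∃ q : ℕ, 1 ≤ q ∧ (q : ℝ) ≤ δ⁻¹ ^ C ∧ p.P2 (p.D w) c r q H (δ ^ C)

def LR2 : Prop := ∃ C : ℕ, ∀ (δ : ℝ) (p : DP) (w : Wts) (H : ℕ), p.Hyp δ C → p.HOK H δ →
  p.A2 (p.D w) H δ → ∃ q : ℕ, 1 ≤ q ∧ (q : ℝ) ≤ δ⁻¹ ^ C ∧ p.A3 (p.D w) H q (δ ^ C)

def LR3 : Prop := ∃ C : ℕ, ∀ (δ : ℝ) (p : DP) (f : ℤ → ℝ) (H q r : ℕ) (c' : ℤ), p.Hyp δ C →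
  p.Bd f → p.HOK H δ → 1 ≤ q → (q : ℝ) ≤ δ⁻¹ → r < p.K →
  δ * p.M * (p.V : ℝ) ^ 2 ≤ p.K * |(c' : ℝ)| → p.K * |c'| ≤ 8 * p.M * (p.V : ℤ) ^ 2 →
  p.P2 f (p.K * c') r q H δ →
  δ ^ C * (2 * q * (p.K : ℝ) ^ 6) ≤ (((range (2 * q * p.K ^ 7)).filter fun r' : ℕ =>
    r' % p.K = r ∧ CM (res f (2 * q * p.K ^ 7) r') (p.N (2 * q * p.K ^ 7)) c'.natAbs
      (δ ^ C)).card : ℝ)

def LR4 : Prop := ∃ C : ℕ, ∀ (δ : ℝ) (p : DP) (f : ℤ → ℝ) (H q : ℕ), p.Hyp δ C → p.Bd f →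
  p.HOK H δ → 1 ≤ q → (q : ℝ) ≤ δ⁻¹ → p.A3 f H q δ → p.A4 f q (δ ^ C)

def LR5 : Prop := ∃ C : ℕ, ∀ (δ : ℝ) (p : DP) (w : Wts) (q : ℕ), p.Hyp δ C → 1 ≤ q →
  (q : ℝ) ≤ δ⁻¹ → p.A4 (p.D w) q δ → p.A5 (p.D w) (δ ^ C)

def LDLA : Prop := ∃ C : ℕ, ∀ (δ : ℝ) (p : DP) (w : Wts) (f : ℤ → ℝ), p.Hyp δ C →
  (∀ x, |f x| ≤ 1) → δ * (p.X * p.nW) ≤ |p.S w f| → p.A5 (p.D w) (δ ^ C)

def LDB1 : Prop := ∃ C : ℕ, ∀ (δ : ℝ) (p : DP) (w : Wts) (f : ℤ → ℝ) (u' : ℤ), p.Hyp δ C →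
  (∀ x y μ, w.G1 x y μ = f (x - p.T y μ u')) → p.A5 (p.D w) δ →
  ∃ q : ℕ, 1 ≤ q ∧ (q : ℝ) ≤ δ⁻¹ ∧ δ ^ C * (p.X * p.SY.card * p.SM.card) ≤
    ((q : ℝ) * p.K ^ 32 / p.M) * ∑ μ ∈ p.SM,
      ∑ μ' ∈ p.SM.filter (fun μ' => μ' ≠ μ ∧ ((q * p.K ^ 32 : ℕ) : ℤ) ∣ μ - μ'),
        |∑ x ∈ p.SX, ∑ y ∈ p.SY, f (x - p.T y μ u') * f (x - p.T y μ' u')|

end Pool.Agent.MP_e23604_nt.U

end
end

section

/-!
Classes in intervals, sizes in one cell, monotonicity.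
-/

open Finset
open scoped Classical

noncomputable section

namespace Pool.Agent.MP_e23604_nt.U

theorem card_JJ (N : ℕ) : ((JJ N).card : ℝ) = 2 * N := by
  have : (JJ N).card = 2 * N := by
    rw [JJ, Int.card_Ico]
    omega
  rw [this]
  push_cast
  rfl

theorem mem_cl {a b r x : ℤ} {K : ℕ} : x ∈ cl a b K r ↔ a < x ∧ x ≤ b ∧ (K : ℤ) ∣ x - r := by
  rw [cl, mem_filter, mem_Ioc, and_assoc, Int.emod_eq_emod_iff_emod_sub_eq_zero,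
    Int.dvd_iff_emod_eq_zero]

theorem cl_image (a b r : ℤ) (hab : a ≤ b) {K : ℕ} (hK : 1 ≤ K) : ∃ (t0 : ℤ) (n : ℕ),
    cl a b K r = (Ico t0 (t0 + n)).image (fun t => r + K * t) ∧ (cl a b K r).card = n ∧
      ((b : ℝ) - a) / K - 1 ≤ n ∧ (n : ℝ) ≤ ((b : ℝ) - a) / K + 1 := by
  have hK0 : (0 : ℤ) < K := by exact_mod_cast hK
  have hKr : (0 : ℝ) < K := by exact_mod_cast hK
  have hle : (a - r) / K ≤ (b - r) / K := Int.ediv_le_ediv hK0 (by omega)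
  obtain ⟨n, hn⟩ := Int.eq_ofNat_of_zero_le (sub_nonneg.2 hle)
  have e : cl a b K r = (Ico ((a - r) / K + 1) ((a - r) / K + 1 + n)).image
      (fun t => r + K * t) := by
    ext x
    rw [mem_cl, mem_image]
    constructor
    · rintro ⟨h1, h2, t, ht⟩
      refine ⟨t, mem_Ico.2 ⟨?_, ?_⟩, by omega⟩
      · have : (a - r) / K < t := (Int.ediv_lt_iff_lt_mul hK0).2 (by rw [mul_comm]; omega)
        omega
      · have : t ≤ (b - r) / K := (Int.le_ediv_iff_mul_le hK0).2 (by rw [mul_comm]; omega)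
        omega
    · rintro ⟨t, ht, rfl⟩
      obtain ⟨h1, h2⟩ := mem_Ico.1 ht
      have h3 := (Int.ediv_lt_iff_lt_mul hK0).1 (show (a - r) / K < t by omega)
      have h4 := (Int.le_ediv_iff_mul_le hK0).1 (show t ≤ (b - r) / K by omega)
      rw [mul_comm] at h3 h4
      exact ⟨by omega, by omega, t, by ring⟩
  have h1 := Int.mul_ediv_add_emod (a - r) K
  have h2 := Int.mul_ediv_add_emod (b - r) K
  have h3 := Int.emod_nonneg (a - r) hK0.ne'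
  have h4 := Int.emod_nonneg (b - r) hK0.ne'
  have h5 := Int.emod_lt_of_pos (a - r) hK0
  have h6 := Int.emod_lt_of_pos (b - r) hK0
  have h7 : (K : ℤ) * n = K * ((b - r) / K) - K * ((a - r) / K) := by rw [← hn]; ring
  have h8 : b - a - K ≤ (n : ℤ) * K := by rw [mul_comm]; omega
  have h9 : (n : ℤ) * K ≤ b - a + K := by rw [mul_comm]; omega
  have h8' : (b : ℝ) - a - K ≤ (n : ℝ) * K := by exact_mod_cast h8
  have h9' : (n : ℝ) * K ≤ (b : ℝ) - a + K := by exact_mod_cast h9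
  refine ⟨(a - r) / K + 1, n, e, ?_, ?_, ?_⟩
  · rw [e, card_image_of_injective, Int.card_Ico]
    · omega
    · intro s t h
      exact mul_left_cancel₀ hK0.ne' (add_left_cancel h)
  · rw [div_sub_one hKr.ne', div_le_iff₀ hKr]
    exact h8'
  · rw [div_add_one hKr.ne', le_div_iff₀ hKr]
    exact h9'

theorem xLB2_card (a b r : ℤ) (hab : a ≤ b) {K : ℕ} (hK : 1 ≤ K) :
    ((b : ℝ) - a) / K - 1 ≤ (cl a b K r).card ∧
      ((cl a b K r).card : ℝ) ≤ ((b : ℝ) - a) / K + 1 := by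
  obtain ⟨t0, n, -, h, h1, h2⟩ := cl_image a b r hab hK
  rw [h]
  exact ⟨h1, h2⟩

/-- Any set of integers in `(a, b]` whose differences are divisible by `D`. -/
theorem card_sparse_le (a b : ℤ) (hab : a ≤ b) {D : ℕ} (hD : 1 ≤ D) (S : Finset ℤ)
    (hS : S ⊆ Ioc a b) (h : ∀ x ∈ S, ∀ y ∈ S, (D : ℤ) ∣ x - y) :
    (S.card : ℝ) ≤ ((b : ℝ) - a) / D + 1 := by
  rcases S.eq_empty_or_nonempty with rfl | ⟨r, hr⟩
  · have : (0 : ℝ) ≤ (b : ℝ) - a := by exact_mod_cast sub_nonneg.2 hab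
    simp only [card_empty, Nat.cast_zero]
    positivity
  · refine le_trans ?_ (xLB2_card a b r hab hD).2
    exact_mod_cast card_le_card fun x hx =>
      mem_cl.2 ⟨(mem_Ioc.1 (hS hx)).1, (mem_Ioc.1 (hS hx)).2, h x hx r hr⟩

theorem card_class_le (a b r : ℤ) (hab : a ≤ b) {D : ℕ} (hD : 1 ≤ D) :
    (((Ico a b).filter fun m => m % (D : ℤ) = r).card : ℝ) ≤ ((b : ℝ) - a) / D + 1 := by
  have := card_sparse_le (a - 1) (b - 1) (by omega) hD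
    ((Ico a b).filter fun m => m % (D : ℤ) = r) (fun x hx => by
      have := mem_Ico.1 (mem_filter.1 hx).1
      exact mem_Ioc.2 ⟨by omega, by omega⟩) (fun x hx y hy => by
      rw [Int.dvd_iff_emod_eq_zero, ← Int.emod_eq_emod_iff_emod_sub_eq_zero,
        (mem_filter.1 hx).2, (mem_filter.1 hy).2])
  push_cast at this
  rwa [sub_sub_sub_cancel_right] at this

/-- Splitting a class modulo `K` into classes modulo `K Λ`. -/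
theorem sum_cl_split {M : Type} [AddCommMonoid M] (a b r : ℤ) {K Λ : ℕ} (hK : 1 ≤ K) (hΛ : 1 ≤ Λ)
    (f : ℤ → M) :
    ∑ x ∈ cl a b K r, f x = ∑ i ∈ range Λ, ∑ x ∈ cl a b (K * Λ) (r + K * i), f x := by
  have hK0 : (0 : ℤ) < K := by exact_mod_cast hK
  have hL0 : (0 : ℤ) < Λ := by exact_mod_cast hΛ
  rw [← sum_fiberwise_of_maps_to (t := range Λ) (g := fun x => (((x - r) / K) % Λ).toNat)]
  · refine sum_congr rfl fun i hi => sum_congr ?_ fun _ _ => rfl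
    have hi' : (i : ℤ) < Λ := by exact_mod_cast mem_range.1 hi
    ext x
    rw [mem_filter, mem_cl, mem_cl]
    constructor
    · rintro ⟨⟨h1, h2, t, ht⟩, h3⟩
      rw [ht, Int.mul_ediv_cancel_left _ hK0.ne'] at h3
      have h4 := Int.emod_nonneg t hL0.ne'
      have h5 : t % Λ = i := by omega
      refine ⟨h1, h2, t / Λ, ?_⟩
      have h6 := Int.mul_ediv_add_emod t Λ
      push_cast
      rw [← sub_sub, ht, mul_assoc, ← mul_sub]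
      congr 1
      omega
    · rintro ⟨h1, h2, s, hs⟩
      have h3 : x - r = K * (i + Λ * s) := by
        push_cast at hs
        linear_combination hs
      refine ⟨⟨h1, h2, _, h3⟩, ?_⟩
      rw [h3, Int.mul_ediv_cancel_left _ hK0.ne', Int.add_mul_emod_self_left,
        Int.emod_eq_of_lt (by omega) hi']
      simp
  · intro x _
    have h4 := Int.emod_nonneg ((x - r) / K) hL0.ne'
    have h5 := Int.emod_lt_of_pos ((x - r) / K) hL0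
    rw [mem_range]
    omega

theorem xLB2_norm_ee (t : ℝ) : ‖ee t‖ = 1 := by
  rw [ee, show 2 * (Real.pi : ℂ) * Complex.I * t = ((2 * Real.pi * t : ℝ) : ℂ) * Complex.I by
    push_cast; ring, Complex.norm_exp_ofReal_mul_I]

theorem cm_triv {g : ℤ → ℂ} (hg : ∀ m, ‖g m‖ ≤ 1) {N D : ℕ} (hD : 1 ≤ D) (hN : D ≤ N) (ξ : ℝ) :
    cm g N D ξ ≤ 9 * (N : ℝ) ^ 2 / D := by
  have hDr : (0 : ℝ) < D := by exact_mod_cast hD
  have hNr : (D : ℝ) ≤ N := by exact_mod_cast hN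
  have h1 : ∀ r ∈ range D, ‖∑ m ∈ (JJ N).filter (fun m => m % (D : ℤ) = (r : ℕ)),
      g m * ee (ξ * m)‖ ^ 2 ≤ (3 * N / D) ^ 2 := fun r _ => by
    refine pow_le_pow_left₀ (norm_nonneg _) ((norm_sum_le _ _).trans ?_) 2
    refine (sum_le_card_nsmul _ _ 1 fun m _ => ?_).trans ?_
    · rw [norm_mul, xLB2_norm_ee, mul_one]
      exact hg m
    · rw [nsmul_eq_mul, mul_one]
      refine (card_class_le (-(N : ℤ)) N r (by omega) hD).trans ?_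
      rw [div_add_one hDr.ne']
      push_cast
      exact div_le_div_of_nonneg_right (by linarith) hDr.le
  refine (sum_le_card_nsmul _ _ _ h1).trans (le_of_eq ?_)
  rw [card_range, nsmul_eq_mul]
  field_simp
  ring

theorem CM.mono {g : ℤ → ℂ} {N D : ℕ} {τ τ' : ℝ} (h : CM g N D τ) (h' : τ' ≤ τ) :
    CM g N D τ' := h.imp fun _ c => le_trans (by gcongr) c

theorem FC.mono {g : ℤ → ℂ} {N : ℕ} {τ τ' : ℝ} (h : FC g N τ) (h' : τ' ≤ τ) : FC g N τ' :=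
  h.imp fun _ c => le_trans (by gcongr) c

theorem DP.OK.mono {p : DP} {R R' : ℝ} (h : p.OK R) (h' : R' ≤ R) : p.OK R' :=
  ⟨h.four, h.pos, h.cm, h.cu, le_trans (by gcongr) h.hV, h.hM, h.hM', h.hY, h.hX, h.hX'⟩

/-- A smaller parameter that is not too small. -/
theorem DP.Hyp.of_le {p : DP} {δ δ' : ℝ} {C a C' : ℕ} (h : p.Hyp δ C) (h1 : δ ^ a ≤ δ')
    (h2 : δ' ≤ δ) (hC : a * C' ≤ C) : p.Hyp δ' C' := by
  obtain ⟨a1, a2, a3, a4, a5⟩ := h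
  have b1 : 0 < δ' := lt_of_lt_of_le (pow_pos a1 a) h1
  refine ⟨b1, h2.trans a2, a3.mono ?_, a4, a5.trans (inv_anti₀ b1 h2)⟩
  have b2 : δ'⁻¹ ≤ δ⁻¹ ^ a := by
    rw [inv_pow]
    exact inv_anti₀ (pow_pos a1 a) h1
  refine (pow_le_pow_left₀ (inv_pos.2 b1).le b2 C').trans ?_
  rw [← pow_mul]
  exact pow_le_pow_right₀ ((one_le_inv₀ a1).2 (by linarith)) hC

theorem DP.Hyp.pow {p : DP} {δ : ℝ} {C a C' : ℕ} (h : p.Hyp δ C) (ha : 1 ≤ a) (hC : a * C' ≤ C) :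
    p.Hyp (δ ^ a) C' :=
  h.of_le le_rfl (pow_le_of_le_one h.1.le (by linarith [h.2.1]) (by omega)) hC

theorem DP.Hyp.one {p : DP} {δ : ℝ} {C : ℕ} (h : p.Hyp δ C) : p.OK 1 :=
  h.2.2.1.mono (one_le_pow₀ ((one_le_inv₀ h.1).2 (by linarith [h.2.1])))

/-- Crude sizes. -/
theorem DP.OK.sizes {p : DP} (h : p.OK 1) :
    4 ≤ p.K ∧ p.K ^ 100 ≤ p.V ∧ p.V ≤ p.M ∧ p.M ≤ p.Y ∧ p.Y ≤ p.X ∧ p.Y * p.M ≤ p.X := by
  have h1 : 4 ≤ p.K := Nat.le_of_dvd h.pos h.four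
  have h2 : p.K ^ 100 ≤ p.V := by
    have := h.hV
    rw [mul_one] at this
    exact_mod_cast this
  have h3 : p.K ≤ p.V := (Nat.le_self_pow (by norm_num) _).trans h2
  have h4 : p.V ≤ p.M := (Nat.le_self_pow (by norm_num) _).trans h.hM
  have h5 : p.M ≤ p.Y := (Nat.le_self_pow (by norm_num) _).trans h.hY
  have h6 : p.Y * p.M ≤ p.X := by
    refine Nat.le_of_mul_le_mul_left (le_trans ?_ h.hX) h.pos
    rw [mul_comm]
    exact Nat.mul_le_mul_left _ (h3.trans (Nat.le_self_pow (by norm_num) _))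
  exact ⟨h1, h2, h4, h5, (Nat.le_mul_of_pos_right _ (by omega)).trans h6, h6⟩

theorem DP.OK.cards {p : DP} (h : p.OK 1) :
    ((p.Y : ℝ) / (2 * p.K) ≤ p.SY.card ∧ (p.SY.card : ℝ) ≤ 2 * p.Y / p.K) ∧
    ((p.M : ℝ) / p.K ≤ p.SM.card ∧ (p.SM.card : ℝ) ≤ 3 * p.M / p.K) ∧
    ((p.V : ℝ) / (2 * p.K) ≤ p.SU.card ∧ (p.SU.card : ℝ) ≤ 2 * p.V / p.K) ∧
    ((p.SM.card : ℝ) ≤ p.SE.card ∧ 4 * (p.M : ℝ) / p.K - 1 ≤ p.SE.card ∧
      (p.SE.card : ℝ) ≤ 5 * p.M / p.K) ∧ (p.SX.card : ℝ) = p.X := by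
  obtain ⟨s1, s2, s3, s4, -, -⟩ := h.sizes
  have s5 : 2 * p.K ≤ p.V := by
    refine le_trans ?_ s2
    calc 2 * p.K ≤ p.K * p.K := Nat.mul_le_mul_right _ (by omega)
      _ = p.K ^ 2 := (sq _).symm
      _ ≤ p.K ^ 100 := Nat.pow_le_pow_right h.pos (by norm_num)
  have hK : (0 : ℝ) < p.K := by exact_mod_cast h.pos
  have hK1 : (1 : ℝ) / p.K ≤ 1 := (div_le_one hK).2 (by exact_mod_cast h.pos)
  have hK0 : (0 : ℝ) ≤ 1 / p.K := by positivity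
  have two : ∀ n : ℕ, p.V ≤ n → (2 : ℝ) ≤ n / p.K := fun n hn => by
    rw [le_div_iff₀ hK]
    exact_mod_cast s5.trans hn
  have tV := two _ le_rfl
  have tM := two _ s3
  have tY := two _ (s3.trans s4)
  obtain ⟨y1, y2⟩ := xLB2_card p.Y (2 * p.Y) p.ys (by omega) h.pos
  obtain ⟨m1, m2⟩ := xLB2_card p.M (3 * p.M) p.ms (by omega) h.pos
  obtain ⟨v1, v2⟩ := xLB2_card p.V (2 * p.V) p.us (by omega) h.pos
  obtain ⟨e1, e2⟩ := xLB2_card (-2 * p.M - 1) (2 * p.M) 0 (by omega) h.pos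
  have eE : cl (-2 * p.M - 1) (2 * p.M) p.K 0 = p.SE := by
    ext x
    rw [mem_cl, DP.SE, mem_filter, mem_Icc, sub_zero, and_assoc]
    exact and_congr_left' (by omega)
  rw [eE] at e1 e2
  push_cast at y1 y2 m1 m2 v1 v2 e1 e2
  rw [show (2 * (p.Y : ℝ) - p.Y) / p.K = p.Y / p.K by ring] at y1 y2
  rw [show (3 * (p.M : ℝ) - p.M) / p.K = 2 * (p.M / p.K) by ring] at m1 m2
  rw [show (2 * (p.V : ℝ) - p.V) / p.K = p.V / p.K by ring] at v1 v2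
  rw [show (2 * (p.M : ℝ) - (-2 * p.M - 1)) / p.K = 4 * (p.M / p.K) + 1 / p.K by ring] at e1 e2
  rw [show (p.Y : ℝ) / (2 * p.K) = p.Y / p.K / 2 by ring,
    show (p.V : ℝ) / (2 * p.K) = p.V / p.K / 2 by ring, mul_div_assoc, mul_div_assoc,
    mul_div_assoc, mul_div_assoc, mul_div_assoc, DP.SY, DP.SM, DP.SU]
  refine ⟨⟨by linarith, by linarith⟩, ⟨by linarith, by linarith⟩, ⟨by linarith, by linarith⟩,
    ⟨by linarith, by linarith, by linarith⟩, ?_⟩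
  simp [DP.SX]

theorem DP.OK.N_bd {p : DP} (h : p.OK 1) {Λ : ℕ} (h1 : 1 ≤ Λ) (h2 : Λ ≤ p.X) :
    29 * (p.X : ℝ) / Λ ≤ p.N Λ ∧ (p.N Λ : ℝ) ≤ 30 * p.X / Λ := by
  have hL : (0 : ℝ) < Λ := by exact_mod_cast h1
  constructor
  · rw [div_le_iff₀ hL]
    have h3 := Nat.lt_div_mul_add (a := 30 * p.X) h1
    have h4 : 29 * p.X ≤ p.N Λ * Λ := by
      rw [DP.N]
      omega
    exact_mod_cast h4
  · have := Nat.cast_div_le (α := ℝ) (m := 30 * p.X) (n := Λ)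
    push_cast at this
    exact this

theorem DP.T_mul {p : DP} {y μ u : ℤ} (hy : (p.K : ℤ) ∣ y - p.ys) (hμ : (p.K : ℤ) ∣ μ - p.ms)
    (hu : (p.K : ℤ) ∣ u - p.us) :
    p.K * p.T y μ u = y * μ * u ^ 2 - p.ys * p.ms * p.us ^ 2 := by
  refine Int.mul_ediv_cancel' ?_
  rw [show y * μ * u ^ 2 - p.ys * p.ms * p.us ^ 2 = (y - p.ys) * (μ * u ^ 2) +
    (μ - p.ms) * (p.ys * u ^ 2) + (u - p.us) * (p.ys * p.ms * (u + p.us)) by ring]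
  exact ((hy.mul_right _).add (hμ.mul_right _)).add (hu.mul_right _)

theorem xLB2_prod {p : DP} {y μ u : ℤ} (hy : y ∈ p.SY) (hμ : μ ∈ p.SM) (hu : u ∈ p.SU) :
    (p.Y : ℤ) * p.M * p.V ^ 2 ≤ y * μ * u ^ 2 ∧
      y * μ * u ^ 2 ≤ 24 * ((p.Y : ℤ) * p.M * p.V ^ 2) := by
  obtain ⟨y1, y2, -⟩ := mem_cl.1 hy
  obtain ⟨m1, m2, -⟩ := mem_cl.1 hμ
  obtain ⟨u1, u2, -⟩ := mem_cl.1 hu
  have y0 : 0 ≤ y := by omega
  have m0 : 0 ≤ μ := by omega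
  have u0 : 0 ≤ u := by omega
  constructor
  · gcongr
  · calc y * μ * u ^ 2 ≤ (2 * p.Y) * (3 * p.M) * (2 * p.V) ^ 2 := by gcongr
      _ = _ := by ring

theorem DP.T_bd {p : DP} (h : p.OK 1) (hr : p.Rep) {y μ u : ℤ} (hy : y ∈ p.SY) (hμ : μ ∈ p.SM)
    (hu : u ∈ p.SU) : |p.T y μ u| ≤ 23 * (p.X : ℤ) := by
  have hK : (0 : ℤ) < p.K := by exact_mod_cast h.pos
  have e := DP.T_mul (mem_cl.1 hy).2.2 (mem_cl.1 hμ).2.2 (mem_cl.1 hu).2.2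
  obtain ⟨a1, a2⟩ := xLB2_prod hy hμ hu
  obtain ⟨b1, b2⟩ := xLB2_prod hr.1 hr.2.1 hr.2.2
  have hX : (p.Y : ℤ) * p.M * p.V ^ 2 ≤ p.K * p.X := by exact_mod_cast h.hX
  rw [abs_le]
  constructor
  · refine le_of_mul_le_mul_left ?_ hK
    linarith
  · refine le_of_mul_le_mul_left ?_ hK
    linarith

theorem DP.abs_gw (p : DP) (w : Wts) (x y μ u : ℤ) : |p.gw w x y μ u| ≤ 1 := by
  rw [DP.gw]
  split_ifs
  · rw [abs_mul, abs_mul]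
    exact mul_le_one₀ (mul_le_one₀ (w.h1 _ _ _) (abs_nonneg _) (w.h2 _ _ _)) (abs_nonneg _)
      (w.h3 _ _)
  · simp

theorem xLB2_nW {p : DP} (hr : p.Rep) : 0 < p.nW := by
  have h1 : (0 : ℝ) < p.SY.card := by exact_mod_cast card_pos.2 ⟨_, hr.1⟩
  have h2 : (0 : ℝ) < p.SM.card := by exact_mod_cast card_pos.2 ⟨_, hr.2.1⟩
  have h3 : (0 : ℝ) < p.SU.card := by exact_mod_cast card_pos.2 ⟨_, hr.2.2⟩
  rw [DP.nW]
  positivity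

theorem DP.D_bd {p : DP} (h : p.OK 1) (hr : p.Rep) (w : Wts) : p.Bd (p.D w) := by
  have h0 := xLB2_nW hr
  refine ⟨fun x => ?_, fun x hx => ?_⟩
  · rw [DP.D, abs_div, abs_of_pos h0, div_le_one h0]
    refine (abs_sum_le_sum_abs _ _).trans ((sum_le_card_nsmul _ _
      ((p.SM.card : ℝ) * p.SU.card) fun y _ => ?_).trans (by rw [nsmul_eq_mul, DP.nW, mul_assoc]))
    refine (abs_sum_le_sum_abs _ _).trans ((sum_le_card_nsmul _ _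
      (p.SU.card : ℝ) fun μ _ => ?_).trans (by rw [nsmul_eq_mul]))
    exact (abs_sum_le_sum_abs _ _).trans ((sum_le_card_nsmul _ _ 1
      fun u _ => p.abs_gw w x y μ u).trans (by rw [nsmul_eq_mul, mul_one]))
  · obtain ⟨y, hy, h1⟩ := exists_ne_zero_of_sum_ne_zero (div_ne_zero_iff.1 hx).1
    obtain ⟨μ, hμ, h2⟩ := exists_ne_zero_of_sum_ne_zero h1
    obtain ⟨u, hu, h3⟩ := exists_ne_zero_of_sum_ne_zero h2
    have h4 : x + p.T y μ u ∈ p.SX := by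
      by_contra hc
      exact h3 (if_neg hc)
    obtain ⟨h5, h6⟩ := mem_Ioc.1 h4
    obtain ⟨h7, h8⟩ := abs_le.1 (DP.T_bd h hr hy hμ hu)
    rw [abs_le]
    constructor <;> omega

theorem DP.S_eq {p : DP} (h : p.OK 1) (hr : p.Rep) (w : Wts) (f : ℤ → ℝ) :
    p.S w f = p.nW * ∑ x ∈ JJ (30 * p.X), f x * p.D w x := by
  have h0 := xLB2_nW hr
  have e1 : p.nW * ∑ x ∈ JJ (30 * p.X), f x * p.D w x = ∑ x ∈ JJ (30 * p.X),
      ∑ y ∈ p.SY, ∑ μ ∈ p.SM, ∑ u ∈ p.SU, f x * p.gw w x y μ u := by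
    rw [mul_sum]
    refine sum_congr rfl fun x _ => ?_
    rw [DP.D, mul_left_comm, mul_div_cancel₀ _ h0.ne']
    simp only [mul_sum]
  rw [e1, DP.S, sum_comm, sum_comm (s := JJ _)]
  refine sum_congr rfl fun y hy => ?_
  rw [sum_comm, sum_comm (s := JJ _)]
  refine sum_congr rfl fun μ hμ => ?_
  rw [sum_comm, sum_comm (s := JJ _)]
  refine sum_congr rfl fun u hu => ?_
  obtain ⟨h7, h8⟩ := abs_le.1 (DP.T_bd h hr hy hμ hu)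
  simp only [DP.gw, mul_ite, mul_zero]
  rw [← sum_filter]
  refine sum_nbij' (fun x => x - p.T y μ u) (fun x => x + p.T y μ u) (fun x hx => ?_)
    (fun x hx => (mem_filter.1 hx).2) (fun x _ => by ring) (fun x _ => by ring) fun x _ => ?_
  · obtain ⟨h5, h6⟩ := mem_Ioc.1 hx
    refine mem_filter.2 ⟨mem_Ico.2 ⟨?_, ?_⟩, by rwa [sub_add_cancel]⟩ <;> push_cast <;> omega
  · rw [sub_add_cancel, mul_comm]

theorem DP.HOK.mono {p : DP} {H : ℕ} {τ τ' : ℝ} (h : p.HOK H τ) (h' : τ' ≤ τ) : p.HOK H τ' :=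
  ⟨le_trans (by gcongr) h.1, h.2⟩

theorem DP.P2.mono {p : DP} {f : ℤ → ℝ} {c r : ℤ} {q H : ℕ} {τ τ' : ℝ} (h : p.P2 f c r q H τ)
    (h' : τ' ≤ τ) : p.P2 f c r q H τ' :=
  h.imp fun _ b => ⟨b.1, le_trans (by gcongr) b.2⟩

theorem DP.A1.mono {p : DP} {f : ℤ → ℝ} {H : ℕ} {τ τ' : ℝ} (h : p.A1 f H τ) (h' : τ' ≤ τ) :
    p.A1 f H τ' := by
  refine le_trans (mul_le_mul_of_nonneg_right h' (by positivity)) (le_trans h ?_)
  exact Nat.cast_le.2 (card_le_card (monotone_filter_right _ fun z _ c =>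
    ⟨le_trans (by gcongr) c.1, c.2.1, c.2.2.1, c.2.2.2.mono h'⟩))

theorem DP.A2.mono {p : DP} {f : ℤ → ℝ} {H : ℕ} {τ τ' : ℝ} (h : p.A2 f H τ) (h' : τ' ≤ τ) :
    p.A2 f H τ' := by
  refine le_trans (mul_le_mul_of_nonneg_right h' (by positivity)) (le_trans h ?_)
  exact Nat.cast_le.2 (card_le_card (monotone_filter_right _ fun z _ c =>
    ⟨le_trans (by gcongr) c.1, c.2.mono h'⟩))

theorem DP.A3.mono {p : DP} {f : ℤ → ℝ} {H q : ℕ} {τ τ' : ℝ} (h : p.A3 f H q τ) (h' : τ' ≤ τ) :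
    p.A3 f H q τ' := by
  refine le_trans (mul_le_mul_of_nonneg_right h' (by positivity)) (le_trans h ?_)
  exact Nat.cast_le.2 (card_le_card (monotone_filter_right _ fun z _ c =>
    ⟨le_trans (by gcongr) c.1, c.2.mono h'⟩))

theorem DP.A4.mono {p : DP} {f : ℤ → ℝ} {q : ℕ} {τ τ' : ℝ} (h : p.A4 f q τ) (h' : τ' ≤ τ) :
    p.A4 f q τ' := by
  refine le_trans (mul_le_mul_of_nonneg_right h' (by positivity)) (le_trans h ?_)
  exact Nat.cast_le.2 (card_le_card (monotone_filter_right _ fun z _ c => c.mono h'))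

theorem DP.A5.mono {p : DP} {f : ℤ → ℝ} {τ τ' : ℝ} (h : p.A5 f τ) (h0 : 0 < τ') (h' : τ' ≤ τ) :
    p.A5 f τ' := by
  obtain ⟨Q, β, a1, a2, a3, a4⟩ := h
  have b := inv_anti₀ h0 h'
  exact ⟨Q, β, a1, a2.trans b, a3.trans (by gcongr), le_trans (by gcongr) a4⟩

end Pool.Agent.MP_e23604_nt.U

end
end

section

/-!
Exponentials, distance to the nearest integer, popularity and pigeonhole.
-/

open Finset
open scoped Classical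

noncomputable section

namespace Pool.Agent.MP_e23604_nt.U

theorem xLB1_ee (t : ℝ) : ee t = Complex.exp (Complex.I * ((2 * Real.pi * t : ℝ) : ℂ)) := by
  unfold ee
  congr 1
  push_cast
  ring

theorem norm_ee (t : ℝ) : ‖ee t‖ = 1 := by
  rw [xLB1_ee, Complex.norm_exp_I_mul_ofReal]

theorem ee_add (a b : ℝ) : ee (a + b) = ee a * ee b := by
  unfold ee
  rw [← Complex.exp_add]
  congr 1
  push_cast
  ring

theorem ee_int (n : ℤ) : ee n = 1 := by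
  unfold ee
  rw [← Complex.exp_int_mul_two_pi_mul_I n]
  congr 1
  push_cast
  ring

theorem conj_ee (t : ℝ) : (starRingEnd ℂ) (ee t) = ee (-t) := by
  rw [xLB1_ee, xLB1_ee, ← Complex.exp_conj, map_mul, Complex.conj_I, Complex.conj_ofReal]
  congr 1
  push_cast
  ring

theorem ee_lip (a b : ℝ) : ‖ee a - ee b‖ ≤ 7 * |a - b| := by
  have h : ee a - ee b = ee b * (ee (a - b) - 1) := by
    rw [mul_sub, ← ee_add, mul_one, add_sub_cancel]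
  rw [h, norm_mul, norm_ee, one_mul, xLB1_ee]
  refine Real.norm_exp_I_mul_ofReal_sub_one_le.trans ?_
  rw [Real.norm_eq_abs, abs_mul, abs_of_pos Real.two_pi_pos]
  have := Real.pi_lt_d2
  exact mul_le_mul_of_nonneg_right (by linarith) (abs_nonneg _)

theorem nd_nonneg (t : ℝ) : 0 ≤ nd t := abs_nonneg _

theorem nd_le (t : ℝ) (n : ℤ) : nd t ≤ |t - n| := round_le t n

theorem xLB1_neg (t : ℝ) : nd (-t) ≤ nd t := by
  refine (nd_le _ (-round t)).trans (le_of_eq ?_)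
  unfold nd
  rw [← abs_neg]
  congr 1
  push_cast
  ring

theorem nd_neg (t : ℝ) : nd (-t) = nd t := le_antisymm (xLB1_neg t) (by simpa using xLB1_neg (-t))

theorem xLB1_low (θ : ℝ) : 4 * nd θ ≤ ‖ee θ - 1‖ := by
  have h : ee θ = ee (θ - round θ) := by
    conv_lhs => rw [← sub_add_cancel θ (round θ), ee_add, ee_int, mul_one]
  have h1 := abs_sub_round θ
  unfold nd
  rw [h]
  generalize θ - round θ = x at h1
  have hp := Real.pi_pos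
  rw [xLB1_ee, Complex.norm_exp_I_mul_ofReal_sub_one, Real.norm_eq_abs, abs_mul, abs_two,
    show 2 * Real.pi * x / 2 = Real.pi * x by ring]
  have h2 : |Real.pi * x| = Real.pi * |x| := by rw [abs_mul, abs_of_pos hp]
  have h3 := Real.mul_abs_le_abs_sin (x := Real.pi * x) (by rw [h2]; nlinarith)
  rw [h2, show 2 / Real.pi * (Real.pi * |x|) = 2 * |x| by field_simp] at h3
  linarith

theorem xLB1_tel {E : Type} [AddCommGroup E] (f : ℤ → E) (a : ℤ) (n : ℕ) :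
    ∑ t ∈ Ico a (a + n), (f (t + 1) - f t) = f (a + n) - f a := by
  induction n with
  | zero => simp
  | succ n ih =>
    rw [Nat.cast_succ, ← add_assoc, ← insert_Ico_right_eq_Ico_add_one (by omega),
      sum_insert right_notMem_Ico, ih]
    abel

theorem geo_le (θ φ : ℝ) (a : ℤ) (n : ℕ) :
    2 * nd θ * ‖∑ t ∈ Ico a (a + n), ee (θ * t + φ)‖ ≤ 1 := by
  have h : (ee θ - 1) * ∑ t ∈ Ico a (a + n), ee (θ * t + φ) =
      ee (θ * ((a + n : ℤ) : ℝ) + φ) - ee (θ * a + φ) := by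
    rw [← xLB1_tel (fun t : ℤ => ee (θ * t + φ)) a n, mul_sum]
    refine sum_congr rfl fun t _ => ?_
    rw [sub_mul, one_mul, ← ee_add]
    congr 2
    push_cast
    ring
  have h2 : ‖ee θ - 1‖ * ‖∑ t ∈ Ico a (a + n), ee (θ * t + φ)‖ ≤ 2 := by
    rw [← norm_mul, h]
    refine (norm_sub_le _ _).trans ?_
    rw [norm_ee, norm_ee]
    norm_num
  have h3 := mul_le_mul_of_nonneg_right (xLB1_low θ)
    (norm_nonneg (∑ t ∈ Ico a (a + n), ee (θ * t + φ)))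
  linarith

theorem ee_orth {g : ℕ} (hg : 1 ≤ g) (m : ℤ) :
    ∑ i ∈ range g, ee (i * m / g) = if (g : ℤ) ∣ m then (g : ℂ) else 0 := by
  have hg0 : (g : ℝ) ≠ 0 := by positivity
  split_ifs with h
  · obtain ⟨k, rfl⟩ := h
    have : ∀ i ∈ range g, ee (i * ((g * k : ℤ) : ℝ) / g) = 1 := by
      intro i _
      rw [← ee_int (i * k)]
      congr 1
      push_cast
      field_simp
    rw [sum_congr rfl this]
    simp
  · have h1 : ee (m / g) - 1 ≠ 0 := by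
      intro h0
      have h2 := xLB1_low (m / g)
      rw [h0, norm_zero] at h2
      have h3 : (m : ℝ) / g - round ((m : ℝ) / g) = 0 :=
        abs_eq_zero.1 (le_antisymm (by unfold nd at h2; linarith) (abs_nonneg _))
      refine h ⟨round ((m : ℝ) / g), ?_⟩
      rw [sub_eq_zero, div_eq_iff hg0, mul_comm] at h3
      exact_mod_cast h3
    refine (mul_eq_zero.1 ?_).resolve_left h1
    have h4 := sum_range_sub (fun i : ℕ => ee (i * m / g)) g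
    rw [mul_div_cancel_left₀ _ hg0, ee_int, Nat.cast_zero, zero_mul, zero_div,
      ← Int.cast_zero, ee_int, sub_self] at h4
    rw [← h4, mul_sum]
    refine sum_congr rfl fun t _ => ?_
    rw [sub_mul, one_mul, ← ee_add]
    congr 2
    push_cast
    ring

theorem ex_unit (z : ℂ) : ∃ s : ℂ, ‖s‖ ≤ 1 ∧ s * z = (‖z‖ : ℝ) := by
  obtain ⟨c, h1, h2⟩ := RCLike.exists_norm_eq_mul_self z
  exact ⟨c, h1.le, h2.symm⟩

/-- Popular values. -/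
theorem pop {ι : Type} (s : Finset ι) (f : ι → ℝ) {B δ : ℝ} (hB : 0 < B) (hδ : 0 ≤ δ)
    (hf : ∀ i ∈ s, f i ≤ B) (h : δ * B * s.card ≤ ∑ i ∈ s, f i) :
    δ / 2 * s.card ≤ ((s.filter fun i => δ / 2 * B ≤ f i).card : ℝ) := by
  rw [← sum_filter_add_sum_filter_not s fun i => δ / 2 * B ≤ f i] at h
  have h1 := sum_le_card_nsmul (s.filter fun i => δ / 2 * B ≤ f i) f B
    fun i hi => hf i (mem_filter.1 hi).1
  have h2 := sum_le_card_nsmul (s.filter fun i => ¬ δ / 2 * B ≤ f i) f (δ / 2 * B)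
    fun i hi => (not_le.1 (mem_filter.1 hi).2).le
  rw [nsmul_eq_mul] at h1 h2
  have h3 : ((s.filter fun i => ¬ δ / 2 * B ≤ f i).card : ℝ) ≤ s.card :=
    Nat.cast_le.2 (card_filter_le _ _)
  have h4 := mul_le_mul_of_nonneg_right h3 (show 0 ≤ δ / 2 * B by positivity)
  refine le_of_mul_le_mul_right ?_ hB
  linarith

/-- Popular fibres. -/
theorem pop2 {ι κ : Type} (s : Finset ι) (t : Finset κ) (P : ι → κ → Prop) {δ : ℝ} (hδ : 0 ≤ δ)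
    (ht : t.Nonempty)
    (h : δ * (s.card * t.card) ≤ (((s ×ˢ t).filter fun z => P z.1 z.2).card : ℝ)) :
    δ / 2 * s.card ≤
      ((s.filter fun i => δ / 2 * t.card ≤ ((t.filter fun j => P i j).card : ℝ)).card : ℝ) := by
  refine pop s (fun i => ((t.filter fun j => P i j).card : ℝ)) (Nat.cast_pos.2 ht.card_pos) hδ
    (fun i _ => Nat.cast_le.2 (card_filter_le _ _)) ?_
  have e : (((s ×ˢ t).filter fun z => P z.1 z.2).card : ℝ) =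
      ∑ i ∈ s, ((t.filter fun j => P i j).card : ℝ) := by
    simp only [card_filter, sum_product]
    push_cast
    rfl
  rw [← e]
  linarith

/-- Pigeonhole. -/
theorem pig {ι κ : Type} (s : Finset ι) (t : Finset κ) (ht : t.Nonempty) (P : ι → κ → Prop)
    (h : ∀ i ∈ s, ∃ j ∈ t, P i j) :
    ∃ j ∈ t, (s.card : ℝ) ≤ t.card * ((s.filter fun i => P i j).card : ℝ) := by
  refine exists_le_of_sum_le ht ?_
  rw [sum_const, nsmul_eq_mul, ← mul_sum]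
  refine mul_le_mul_of_nonneg_left ?_ (Nat.cast_nonneg _)
  have h1 : s ⊆ t.biUnion fun j => s.filter fun i => P i j := by
    intro i hi
    obtain ⟨j, hj, hp⟩ := h i hi
    exact mem_biUnion.2 ⟨j, hj, mem_filter.2 ⟨hi, hp⟩⟩
  exact_mod_cast (card_le_card h1).trans card_biUnion_le

/-- Bins for a bounded real parameter. -/
theorem pig_bin {ι : Type} (s : Finset ι) (β : ι → ℝ) {B w : ℝ} (hw : 0 < w) (hB : 0 ≤ B)
    (h : ∀ i ∈ s, |β i| ≤ B) :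
    ∃ β0 : ℝ, |β0| ≤ B ∧
      (s.card : ℝ) ≤ (2 * B / w + 1) * ((s.filter fun i => |β i - β0| ≤ w).card : ℝ) := by
  obtain ⟨k, hk, h1⟩ := pig s (range (⌊2 * B / w⌋₊ + 1)) nonempty_range_add_one
    (fun i k => |β i - (-B + k * w)| ≤ w) (by
      intro i hi
      obtain ⟨h1, h2⟩ := abs_le.1 (h i hi)
      have h0 : 0 ≤ (β i + B) / w := div_nonneg (by linarith) hw.le
      refine ⟨⌊(β i + B) / w⌋₊, mem_range.2 (Nat.lt_succ_of_le (Nat.floor_le_floor ?_)), ?_⟩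
      · exact div_le_div_of_nonneg_right (by linarith) hw.le
      · have h3 := (le_div_iff₀ hw).1 (Nat.floor_le h0)
        have h4 := (div_lt_iff₀ hw).1 (Nat.lt_floor_add_one ((β i + B) / w))
        exact abs_le.2 ⟨by linarith, by linarith⟩)
  have h2 : (⌊2 * B / w⌋₊ : ℝ) ≤ 2 * B / w := Nat.floor_le (by positivity)
  have h3 : (k : ℝ) ≤ ⌊2 * B / w⌋₊ := Nat.cast_le.2 (Nat.le_of_lt_succ (mem_range.1 hk))
  have h4 := (le_div_iff₀ hw).1 (h3.trans h2)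
  have h5 : 0 ≤ k * w := by positivity
  refine ⟨-B + k * w, abs_le.2 ⟨by linarith, by linarith⟩, h1.trans ?_⟩
  refine mul_le_mul_of_nonneg_right ?_ (Nat.cast_nonneg _)
  rw [card_range, Nat.cast_succ]
  linarith

theorem xLB1_sh (f : ℤ → ℝ) {M : ℝ} (hf : ∀ x, |f x| ≤ M) (a : ℤ) (n : ℕ) (d : ℤ) :
    |∑ t ∈ Ico a (a + n), f (t + d) - ∑ t ∈ Ico a (a + n), f t| ≤ 2 * M * |(d : ℝ)| := by
  have step : ∀ e : ℤ, |∑ t ∈ Ico a (a + n), f (t + (e + 1)) - ∑ t ∈ Ico a (a + n), f (t + e)| ≤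
      2 * M := by
    intro e
    have h := xLB1_tel (fun t => f (t + e)) a n
    simp only [add_assoc _ (1 : ℤ) e, add_comm (1 : ℤ) e] at h
    rw [← sum_sub_distrib, h]
    have h1 := hf (a + n + e)
    have h2 := hf (a + e)
    exact (abs_sub _ _).trans (by linarith)
  induction d using Int.induction_on with
  | zero => simp
  | succ k ih =>
    have h1 := (abs_sub_le _ _ _).trans (add_le_add (step k) ih)
    rw [Int.cast_natCast, Nat.abs_cast] at h1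
    rw [Int.cast_add, Int.cast_natCast, Int.cast_one, abs_of_nonneg (a := (k : ℝ) + 1) (by positivity)]
    linarith
  | pred k ih =>
    have h0 := step (-k - 1)
    rw [sub_add_cancel, abs_sub_comm] at h0
    have h1 := (abs_sub_le _ _ _).trans (add_le_add h0 ih)
    rw [Int.cast_neg, Int.cast_natCast, abs_neg, Nat.abs_cast] at h1
    rw [show ((-k - 1 : ℤ) : ℝ) = -((k : ℝ) + 1) by push_cast; ring, abs_neg,
      abs_of_nonneg (a := (k : ℝ) + 1) (by positivity)]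
    linarith

/-- Averaging over small shifts of a rectangle. -/
theorem shift2 {ι : Type} (I : Finset ι) (Φ : ℤ → ℤ → ℝ) (hΦ : ∀ x y, |Φ x y| ≤ 1) (a b : ℤ)
    (X Y A B : ℕ) (dx dy : ι → ℤ) (hx : ∀ i ∈ I, |dx i| ≤ A) (hy : ∀ i ∈ I, |dy i| ≤ B) :
    (I.card : ℝ) * |∑ x ∈ Ioc a (a + X), ∑ y ∈ Ico b (b + Y), Φ x y| ≤
      ∑ x ∈ Ioc a (a + X), ∑ y ∈ Ico b (b + Y), |∑ i ∈ I, Φ (x + dx i) (y + dy i)| +
        I.card * (2 * A * Y + 2 * B * X) := by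
  have eI : Ioc a (a + X) = Ico (a + 1) (a + 1 + X) := by
    rw [add_right_comm, Ico_add_one_add_one_eq_Ioc]
  rw [eI]
  generalize a + 1 = c
  obtain ⟨S, hS⟩ : ∃ S, S = ∑ x ∈ Ico c (c + X), ∑ y ∈ Ico b (b + Y), Φ x y := ⟨_, rfl⟩
  have key : ∀ i ∈ I, |S - ∑ x ∈ Ico c (c + X), ∑ y ∈ Ico b (b + Y), Φ (x + dx i) (y + dy i)| ≤
      2 * A * Y + 2 * B * X := by
    intro i hi
    have hA : (|dx i| : ℝ) ≤ A := by exact_mod_cast hx i hi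
    have hB : (|dy i| : ℝ) ≤ B := by exact_mod_cast hy i hi
    have h1 := xLB1_sh (fun x => ∑ y ∈ Ico b (b + Y), Φ x y) (M := Y) (fun x => by
      refine (abs_sum_le_sum_abs _ _).trans ((sum_le_card_nsmul _ _ 1 fun y _ => hΦ x y).trans ?_)
      simp) c X (dx i)
    have h2 : |∑ x ∈ Ico c (c + X), ∑ y ∈ Ico b (b + Y), Φ (x + dx i) (y + dy i) -
        ∑ x ∈ Ico c (c + X), ∑ y ∈ Ico b (b + Y), Φ (x + dx i) y| ≤ X * (2 * 1 * |(dy i : ℝ)|) := by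
      rw [← sum_sub_distrib]
      refine (abs_sum_le_sum_abs _ _).trans ((sum_le_card_nsmul _ _ _ fun x _ =>
        xLB1_sh (Φ (x + dx i)) (hΦ _) b Y (dy i)).trans ?_)
      simp
    rw [← hS] at h1
    have h3 := mul_le_mul_of_nonneg_left hA (Nat.cast_nonneg (α := ℝ) Y)
    have h4 := mul_le_mul_of_nonneg_left hB (Nat.cast_nonneg (α := ℝ) X)
    obtain ⟨p1, p2⟩ := abs_le.1 h1
    obtain ⟨p3, p4⟩ := abs_le.1 h2
    exact abs_le.2 ⟨by linarith, by linarith⟩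
  rw [← hS]
  have e : (I.card : ℝ) * S =
      ∑ x ∈ Ico c (c + X), ∑ y ∈ Ico b (b + Y), ∑ i ∈ I, Φ (x + dx i) (y + dy i) +
      ∑ i ∈ I, (S - ∑ x ∈ Ico c (c + X), ∑ y ∈ Ico b (b + Y), Φ (x + dx i) (y + dy i)) := by
    rw [sum_sub_distrib, sum_const, nsmul_eq_mul, sum_comm (s := I)]
    simp only [sum_comm (s := I)]
    ring
  rw [← Nat.abs_cast I.card, ← abs_mul, e, Nat.abs_cast]
  refine (abs_add_le _ _).trans (add_le_add ?_ ?_)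
  · exact (abs_sum_le_sum_abs _ _).trans (sum_le_sum fun x _ => abs_sum_le_sum_abs _ _)
  · exact (abs_sum_le_sum_abs _ _).trans ((sum_le_card_nsmul _ _ _ key).trans (nsmul_eq_mul _ _).le)

end Pool.Agent.MP_e23604_nt.U

end
end

section

/-!
The bilinear bound by the coset mass.
-/

open Finset
open scoped Classical

noncomputable section

namespace Pool.Agent.MP_e23604_nt.U

theorem xLBil_orth {P : ℕ} {m : ℤ} (h : |m| < P) :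
    ∑ j ∈ range P, ee (j * m / P) = if m = 0 then (P : ℂ) else 0 := by
  have hP : 1 ≤ P := by
    have := abs_nonneg m
    omega
  rw [ee_orth hP]
  exact if_congr ⟨fun e => Int.eq_zero_of_abs_lt_dvd e h, fun e => e ▸ dvd_zero _⟩ rfl rfl

theorem xLBil_inv {P : ℕ} (T : Finset ℤ) (f : ℤ → ℂ) (n : ℤ) (h : ∀ m ∈ T, |m - n| < P)
    (h0 : n ∉ T → f n = 0) :
    ∑ j ∈ range P, (∑ m ∈ T, f m * ee (j / P * m)) * ee (-(j / P * n)) = P * f n := by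
  have e : ∀ m ∈ T, ∑ j ∈ range P, f m * ee (j / P * m) * ee (-(j / P * n))
      = if m = n then P * f m else 0 := by
    intro m hm
    have e1 : ∀ j : ℕ, f m * ee (j / P * m) * ee (-(j / P * n))
        = f m * ee (j * ((m - n : ℤ) : ℝ) / P) := by
      intro j
      rw [mul_assoc, ← ee_add]
      congr 2
      push_cast
      ring
    simp only [e1, ← mul_sum, xLBil_orth (h m hm), sub_eq_zero]
    split_ifs <;> ring
  simp only [sum_mul]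
  rw [sum_comm, sum_congr rfl e, sum_ite_eq']
  split_ifs with hn
  · rfl
  · rw [h0 hn, mul_zero]

theorem xLBil_par {P : ℕ} (T : Finset ℤ) (β : ℤ → ℂ) {c : ℤ} (hc : c ≠ 0)
    (h : ∀ k ∈ T, ∀ k' ∈ T, |c * k' - c * k| < P) :
    ∑ j ∈ range P, ‖∑ k ∈ T, β k * ee (-(j / P * (c * k : ℤ)))‖ ^ 2 = P * ∑ k ∈ T, ‖β k‖ ^ 2 := by
  have e : ∀ k ∈ T, ∀ k' ∈ T, ∑ j ∈ range P, β k * ee (-(j / P * (c * k : ℤ))) *
      (starRingEnd ℂ) (β k' * ee (-(j / P * (c * k' : ℤ))))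
        = if k = k' then P * (β k * (starRingEnd ℂ) (β k')) else 0 := by
    intro k hk k' hk'
    have e1 : ∀ j : ℕ, β k * ee (-(j / P * (c * k : ℤ))) *
        (starRingEnd ℂ) (β k' * ee (-(j / P * (c * k' : ℤ))))
        = β k * (starRingEnd ℂ) (β k') * ee (j * ((c * k' - c * k : ℤ) : ℝ) / P) := by
      intro j
      rw [map_mul, conj_ee, mul_mul_mul_comm, ← ee_add]
      congr 2
      push_cast
      ring
    have e2 : c * k' - c * k = 0 ↔ k = k' := by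
      rw [sub_eq_zero, mul_right_inj' hc, eq_comm]
    simp only [e1, ← mul_sum, xLBil_orth (h k hk k' hk'), e2]
    split_ifs <;> ring
  apply Complex.ofReal_injective
  simp only [Complex.ofReal_sum, Complex.ofReal_mul, Complex.ofReal_pow, Complex.ofReal_natCast,
    ← Complex.mul_conj', map_sum, sum_mul_sum]
  rw [sum_comm, mul_sum]
  refine sum_congr rfl fun k hk => ?_
  rw [sum_comm, sum_congr rfl (e k hk), sum_ite_eq, if_pos hk]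

theorem xLBil_mem {d : ℤ} (hd : d ≠ 0) (k : ℤ) : k % d ∈ Ico 0 |d| :=
  mem_Ico.2 ⟨Int.emod_nonneg _ hd, Int.emod_lt_abs _ hd⟩

theorem xLBil_par2 {P : ℕ} (T : Finset ℤ) (β : ℤ → ℂ) {c d : ℤ} (hc : c ≠ 0) (hd : d ≠ 0)
    (h : ∀ k ∈ T, ∀ k' ∈ T, |c * k' - c * k| < P) :
    ∑ j ∈ range P, ∑ a ∈ Ico 0 |d|,
      ‖∑ k ∈ T.filter (fun k => k % d = a), β k * ee (-(j / P * (c * k : ℤ)))‖ ^ 2
      = P * ∑ k ∈ T, ‖β k‖ ^ 2 := by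
  rw [sum_comm, ← sum_fiberwise_of_maps_to (s := T) (fun k _ => xLBil_mem hd k), mul_sum]
  exact sum_congr rfl fun a _ => xLBil_par _ β hc fun k hk k' hk' =>
    h k (mem_filter.1 hk).1 k' (mem_filter.1 hk').1

theorem xLBil_group (F : ℤ → ℤ → ℂ) (u v : ℤ → ℂ) {c d : ℤ} (hc : c ≠ 0) (hd : d ≠ 0)
    (I1 I2 : Finset ℤ) : ∑ k ∈ I1, ∑ l ∈ I2, F (k % d) (l % c) * (u k * v l)
      = ∑ z ∈ Ico 0 |d| ×ˢ Ico 0 |c|, F z.1 z.2 *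
        ((∑ k ∈ I1.filter (fun k => k % d = z.1), u k) *
          ∑ l ∈ I2.filter (fun l => l % c = z.2), v l) := by
  rw [sum_product, ← sum_fiberwise_of_maps_to (s := I1) (fun k _ => xLBil_mem hd k)]
  refine sum_congr rfl fun a _ => ?_
  simp only [sum_mul_sum]
  simp only [mul_sum]
  rw [sum_comm (s := Ico 0 |c|)]
  refine sum_congr rfl fun k hk => ?_
  rw [← sum_fiberwise_of_maps_to (s := I2) (fun l _ => xLBil_mem hc l)]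
  refine sum_congr rfl fun b _ => sum_congr rfl fun l hl => ?_
  rw [(mem_filter.1 hk).2, (mem_filter.1 hl).2]

theorem xLBil_fib {c d : ℤ} (hc : c ≠ 0) (hd : d ≠ 0) (S : Finset (ℤ × ℤ))
    (hS : S ⊆ Ico 0 |d| ×ˢ Ico 0 |c|)
    (h : ∀ z ∈ S, ∀ z' ∈ S, c * d ∣ c * (z.1 - z'.1) + d * (z.2 - z'.2)) :
    S.card ≤ Int.gcd c d := by
  have hg : 0 < Int.gcd c d := Int.gcd_pos_of_ne_zero_left d hc
  obtain ⟨c', d', hco, e1, e2⟩ := Int.exists_gcd_one hg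
  set g : ℕ := Int.gcd c d
  have hg' : (0 : ℤ) < g := by exact_mod_cast hg
  have hd' : d' ≠ 0 := fun e => hd (by rw [e2, e, zero_mul])
  have hd0 : 0 < |d'| := abs_pos.2 hd'
  have ed : |d| = g * |d'| := by rw [e2, abs_mul, abs_of_pos hg', mul_comm]
  have hcard : (Ico (0 : ℤ) g).card = g := by simp
  rw [← hcard]
  refine card_le_card_of_injOn (fun z => z.1 / |d'|) (fun z hz => ?_) fun z hz z' hz' e => ?_
  · have := mem_Ico.1 (mem_product.1 (hS hz)).1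
    exact mem_coe.2 (mem_Ico.2 ⟨Int.ediv_nonneg this.1 hd0.le,
      Int.ediv_lt_of_lt_mul hd0 (ed ▸ this.2)⟩)
  · have h1 := h z hz z' hz'
    have h2 : d ∣ c * (z.1 - z'.1) :=
      (dvd_add_left (dvd_mul_right d _)).1 ((dvd_mul_left d c).trans h1)
    have h3 : d' ∣ z.1 - z'.1 := by
      refine (Int.isCoprime_iff_gcd_eq_one.2 hco).symm.dvd_of_dvd_mul_left ?_
      rw [← mul_dvd_mul_iff_right hg'.ne', ← e2, mul_right_comm, ← e1]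
      exact h2
    have h4 : z.1 % |d'| = z'.1 % |d'| :=
      (Int.modEq_iff_dvd.2 ((abs_dvd _ _).2 h3)).symm
    have h5 : z.1 = z'.1 := by
      have e' : z.1 / |d'| = z'.1 / |d'| := e
      rw [← Int.mul_ediv_add_emod z.1 |d'|, ← Int.mul_ediv_add_emod z'.1 |d'|, e', h4]
    rw [h5, sub_self, mul_zero, zero_add, mul_comm c, mul_dvd_mul_iff_left hd] at h1
    have a1 := mem_Ico.1 (mem_product.1 (hS hz)).2
    have a2 := mem_Ico.1 (mem_product.1 (hS hz')).2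
    have h6 : z.2 - z'.2 = 0 :=
      Int.eq_zero_of_abs_lt_dvd ((abs_dvd _ _).2 h1) (abs_lt.2 ⟨by omega, by omega⟩)
    exact Prod.ext h5 (sub_eq_zero.1 h6)

theorem xLBil_cnt {c d : ℤ} (hc : c ≠ 0) (hd : d ≠ 0) (x0 : ℤ) (F : ℤ → ℝ) (hF : ∀ r, 0 ≤ F r) :
    ∑ z ∈ Ico 0 |d| ×ˢ Ico 0 |c|, F ((x0 + c * z.1 + d * z.2) % ((c * d).natAbs : ℤ))
      ≤ (Int.gcd c d : ℝ) * ∑ r ∈ range (c * d).natAbs, F r := by
  have hD : (0 : ℤ) < (c * d).natAbs := by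
    exact_mod_cast Int.natAbs_pos.2 (mul_ne_zero hc hd)
  have e : ∀ n : ℤ, ((n % ((c * d).natAbs : ℤ)).toNat : ℤ) = n % ((c * d).natAbs : ℤ) :=
    fun n => Int.toNat_of_nonneg (Int.emod_nonneg _ hD.ne')
  rw [← sum_fiberwise_of_maps_to (t := range (c * d).natAbs)
    (g := fun z : ℤ × ℤ => ((x0 + c * z.1 + d * z.2) % ((c * d).natAbs : ℤ)).toNat)
    (fun z _ => mem_range.2 (by
      have := Int.emod_lt_of_pos (x0 + c * z.1 + d * z.2) hD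
      rw [← e] at this
      exact_mod_cast this)), mul_sum]
  refine sum_le_sum fun r _ => ?_
  rw [sum_congr rfl (g := fun _ => F r) fun z hz => by rw [← (mem_filter.1 hz).2, e], sum_const,
    nsmul_eq_mul]
  refine mul_le_mul_of_nonneg_right (Nat.cast_le.2 (xLBil_fib hc hd _ (filter_subset _ _)
    fun z hz z' hz' => ?_)) (hF r)
  have h1 : (x0 + c * z'.1 + d * z'.2) % ((c * d).natAbs : ℤ)
      = (x0 + c * z.1 + d * z.2) % ((c * d).natAbs : ℤ) := by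
    rw [← e, ← e (x0 + c * z.1 + d * z.2), (mem_filter.1 hz).2, (mem_filter.1 hz').2]
  have h2 := Int.natAbs_dvd.1 (Int.ModEq.dvd h1)
  rwa [show x0 + c * z.1 + d * z.2 - (x0 + c * z'.1 + d * z'.2)
    = c * (z.1 - z'.1) + d * (z.2 - z'.2) by ring] at h2

theorem xLBil_ev (x : ℤ) : ∀ᶠ P : ℕ in Filter.atTop, |x| < P :=
  (Filter.eventually_gt_atTop x.natAbs).mono fun P h => by
    rw [← Int.natCast_natAbs]
    exact_mod_cast h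

theorem LBIL_pf  : LBIL := by
  intro c d x0 g β α N I1 I2 Q hc hd hg hQ
  obtain ⟨P, p0, p1, p2, p3⟩ : ∃ P : ℕ, 0 < P ∧
      (∀ k ∈ I1, ∀ l ∈ I2, ∀ m ∈ JJ N, |m - (x0 + c * k + d * l)| < P) ∧
      (∀ k ∈ I1, ∀ k' ∈ I1, |c * k' - c * k| < P) ∧ ∀ k ∈ I2, ∀ k' ∈ I2, |d * k' - d * k| < P := by
    refine ((Filter.eventually_gt_atTop 0).and (Filter.Eventually.and ?_
      (Filter.Eventually.and ?_ ?_))).exists <;>
    simp only [Filter.eventually_all_finset, xLBil_ev, implies_true]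
  have hP : (0 : ℝ) < P := by exact_mod_cast p0
  set D : ℕ := (c * d).natAbs with hD
  let G : ℕ → ℤ → ℂ := fun j r => ∑ m ∈ (JJ N).filter (fun m => m % (D : ℤ) = r),
    g m * ee (j / P * m)
  let B : ℕ → ℤ → ℂ := fun j a => ∑ k ∈ I1.filter (fun k => k % d = a),
    β k * ee (-(j / P * (c * k : ℤ)))
  let A : ℕ → ℤ → ℂ := fun j b => ∑ l ∈ I2.filter (fun l => l % c = b),
    α l * ee (-(j / P * (d * l : ℤ)))
  let W : ℕ → ℂ := fun j => ∑ z ∈ Ico 0 |d| ×ˢ Ico 0 |c|,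
    G j ((x0 + c * z.1 + d * z.2) % D) * ee (-(j / P * x0)) * (B j z.1 * A j z.2)
  have e1 : P * ∑ k ∈ I1, ∑ l ∈ I2, g (x0 + c * k + d * l) * β k * α l = ∑ j ∈ range P, W j := by
    have e2 : ∀ j, W j = ∑ k ∈ I1, ∑ l ∈ I2, G j ((x0 + c * k + d * l) % D) *
        ee (-(j / P * (x0 + c * k + d * l : ℤ))) * (β k * α l) := by
      intro j
      refine (xLBil_group (fun a b => G j ((x0 + c * a + d * b) % D) * ee (-(j / P * x0))) _ _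
        hc hd I1 I2).symm.trans (sum_congr rfl fun k _ => sum_congr rfl fun l _ => ?_)
      have e3 : (x0 + c * (k % d) + d * (l % c)) % D = (x0 + c * k + d * l) % D := by
        refine Int.modEq_iff_dvd.2 (Int.natAbs_dvd.2 ⟨k / d + l / c, ?_⟩)
        rw [Int.emod_def, Int.emod_def]
        ring
      have e4 : ee (-(j / P * (x0 + c * k + d * l : ℤ))) = ee (-(j / P * x0)) *
          ee (-(j / P * (c * k : ℤ))) * ee (-(j / P * (d * l : ℤ))) := by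
        rw [← ee_add, ← ee_add]
        congr 1
        push_cast
        ring
      rw [e3, e4]
      ring
    simp only [e2]
    rw [sum_comm (s := range P), mul_sum]
    refine sum_congr rfl fun k hk => ?_
    rw [sum_comm (s := range P), mul_sum]
    refine sum_congr rfl fun l hl => ?_
    have e5 := xLBil_inv ((JJ N).filter fun m => m % (D : ℤ) = (x0 + c * k + d * l) % D) g _
      (fun m hm => p1 k hk l hl m (mem_filter.1 hm).1)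
      fun hn => hg _ fun hm => hn (mem_filter.2 ⟨hm, rfl⟩)
    rw [← sum_mul, e5]
    ring
  have hQ0 : 0 ≤ Q := le_trans (sum_nonneg fun _ _ => sq_nonneg _) (hQ 0)
  have hW : ∀ j ∈ range P, ‖W j‖ ^ 2 ≤ ((Int.gcd c d : ℝ) * Q * ∑ a ∈ Ico 0 |d|, ‖B j a‖ ^ 2) *
      ∑ b ∈ Ico 0 |c|, ‖A j b‖ ^ 2 := by
    intro j _
    have a1 : ‖W j‖ ≤ ∑ z ∈ Ico 0 |d| ×ˢ Ico 0 |c|,
        ‖G j ((x0 + c * z.1 + d * z.2) % D)‖ * (‖B j z.1‖ * ‖A j z.2‖) :=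
      (norm_sum_le _ _).trans_eq (sum_congr rfl fun z _ => by
        rw [norm_mul, norm_mul, norm_mul, norm_ee, mul_one])
    have a2 := (xLBil_cnt hc hd x0 (fun r => ‖G j r‖ ^ 2) fun _ => sq_nonneg _).trans
      (mul_le_mul_of_nonneg_left (hQ (j / P)) (Nat.cast_nonneg _))
    refine (pow_le_pow_left₀ (norm_nonneg _) a1 2).trans ((sum_mul_sq_le_sq_mul_sq _ _ _).trans ?_)
    rw [mul_assoc _ (∑ a ∈ _, _), sum_mul_sum (Ico 0 |d|), ← sum_product']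
    simp only [mul_pow]
    exact mul_le_mul_of_nonneg_right a2
      (sum_nonneg fun _ _ => mul_nonneg (sq_nonneg _) (sq_nonneg _))
  have a3 := sum_sq_le_sum_mul_sum_of_sq_le_mul (range P) (fun j _ => by positivity)
    (fun j _ => by positivity) hW
  rw [← mul_sum, xLBil_par2 I1 β hc hd p2, xLBil_par2 I2 α hd hc p3] at a3
  have a4 := pow_le_pow_left₀ (norm_nonneg _) (norm_sum_le (range P) W) 2
  rw [← e1, norm_mul, Complex.norm_natCast, mul_pow] at a4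
  refine le_of_mul_le_mul_left (a4.trans (a3.trans_eq (by ring))) (pow_pos hP 2)

end Pool.Agent.MP_e23604_nt.U

end
end

section

/-!
The Vinogradov lemma applied three times.
-/

open Finset
open scoped Classical

noncomputable section

namespace Pool.Agent.MP_e23604_nt.U

theorem xLVi3_step0 (h1 : LVIN) {ι : Type} (s : Finset ι) (θ φ : ι → ℝ) (a : ℤ) (N : ℕ)
    {y ε : ℝ} (hy : 1 ≤ y) (hε : 0 ≤ ε) (hεy : ε * (32 * y) ≤ 1) (hN : 8 * y ≤ N)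
    (T : Finset (ι × ℤ)) (hT : T ⊆ s ×ˢ Ico a (a + N)) (hc : (s.card : ℝ) * N ≤ y * T.card)
    (hn : ∀ z ∈ T, nd (θ z.1 * z.2 + φ z.1) ≤ ε) :
    ∃ q : ℕ, 1 ≤ q ∧ (q : ℝ) ≤ 8 * y ∧ ∃ T' ⊆ s, (s.card : ℝ) ≤ 16 * y ^ 2 * T'.card ∧
      ∀ i ∈ T', nd (q * θ i) ≤ 256 * y ^ 2 * ε / N := by
  have hy0 : 0 < y := by linarith
  have hN0 : (0 : ℝ) < N := by linarith
  have hN1 : 0 < N := by exact_mod_cast hN0
  have hcard : ((Ico a (a + N)).card : ℝ) = N := by simp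
  have hi : y⁻¹ * y = 1 := inv_mul_cancel₀ hy0.ne'
  have hi0 : 0 < y⁻¹ := inv_pos.2 hy0
  have hi1 : y⁻¹ ≤ 1 := inv_le_one_of_one_le₀ hy
  obtain ⟨P, hP⟩ : ∃ P : ι → ℤ → Prop, ∀ i n, P i n ↔ (i, n) ∈ T := ⟨_, fun _ _ => Iff.rfl⟩
  obtain ⟨Q, hQ⟩ : ∃ Q : ι → ℕ → Prop, ∀ i q, Q i q ↔ nd (q * θ i) ≤ 256 * y ^ 2 * ε / N :=
    ⟨_, fun _ _ => Iff.rfl⟩
  have hp := pop2 s (Ico a (a + N)) P hi0.le
    ⟨a, mem_Ico.2 ⟨le_rfl, by omega⟩⟩ (by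
      rw [hcard, inv_mul_le_iff₀ hy0]
      refine hc.trans
        (mul_le_mul_of_nonneg_left (Nat.cast_le.2 (card_le_card fun z hz => ?_)) hy0.le)
      exact mem_filter.2 ⟨hT hz, (hP _ _).2 hz⟩)
  rw [hcard] at hp
  obtain ⟨q, hq, hq2⟩ := pig (s.filter fun i =>
      y⁻¹ / 2 * N ≤ (((Ico a (a + N)).filter fun n => P i n).card : ℝ)) (Icc 1 ⌊8 * y⌋₊)
    ⟨1, mem_Icc.2 ⟨le_rfl, Nat.le_floor (by push_cast; linarith)⟩⟩ Q (fun i hi' => by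
      obtain ⟨q, a1, a2, a3⟩ := h1 (θ i) (φ i) ε (y⁻¹ / 2) a N _ (by positivity) (by linarith) hε
        (by nlinarith) (by nlinarith) (filter_subset _ _) (mem_filter.1 hi').2
        (fun n hn' => hn (i, n) ((hP _ _).1 (mem_filter.1 hn').2))
      have e1 : 4 / (y⁻¹ / 2) = 8 * y := by field_simp; norm_num
      have e2 : 64 * ε / ((y⁻¹ / 2) ^ 2 * N) = 256 * y ^ 2 * ε / N := by field_simp; ring
      exact ⟨q, mem_Icc.2 ⟨a1, Nat.le_floor (e1 ▸ a2)⟩, (hQ _ _).2 (e2 ▸ a3)⟩)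
  have hf : ((⌊8 * y⌋₊ : ℕ) : ℝ) ≤ 8 * y := Nat.floor_le (by linarith)
  refine ⟨q, (mem_Icc.1 hq).1, (Nat.cast_le.2 (mem_Icc.1 hq).2).trans hf, _,
    (filter_subset (fun i => Q i q) _).trans (filter_subset (fun i =>
      y⁻¹ / 2 * N ≤ (((Ico a (a + N)).filter fun n => P i n).card : ℝ)) _), ?_,
    fun i hi' => (hQ _ _).1 (mem_filter.1 hi').2⟩
  rw [Nat.card_Icc, Nat.add_sub_cancel] at hq2
  have h3 := hp.trans (hq2.trans (mul_le_mul_of_nonneg_right hf (Nat.cast_nonneg _)))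
  have h4 := mul_le_mul_of_nonneg_left h3 (show 0 ≤ 2 * y by linarith)
  have h5 : 2 * y * (y⁻¹ / 2 * s.card) = s.card := by field_simp
  rw [h5] at h4
  exact h4.trans_eq (by ring)

theorem xLVi3_step (h1 : LVIN) {ι : Type} (s : Finset ι) (θ φ : ι → ℝ) (a : ℤ) (N k : ℕ)
    {x ε : ℝ} (hx : 2 ≤ x) (hε : 0 ≤ ε) (hεx : ε * x ^ (k + 5) ≤ 1) (hN : x ^ (k + 3) ≤ N)
    (T : Finset (ι × ℤ)) (hT : T ⊆ s ×ˢ Ico a (a + N)) (hc : (s.card : ℝ) * N ≤ x ^ k * T.card)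
    (hn : ∀ z ∈ T, nd (θ z.1 * z.2 + φ z.1) ≤ ε) :
    ∃ q : ℕ, 1 ≤ q ∧ (q : ℝ) ≤ x ^ (k + 3) ∧ ∃ T' ⊆ s, (s.card : ℝ) ≤ x ^ (2 * k + 4) * T'.card ∧
      ∀ i ∈ T', nd (q * θ i) ≤ x ^ (2 * k + 8) * ε / N := by
  have hy : 1 ≤ x ^ k := one_le_pow₀ (by linarith)
  have hp : ∀ (n : ℕ) (z : ℝ), 0 ≤ z → 2 ^ n * z ≤ z * x ^ n := fun n z hz => by
    rw [mul_comm]
    exact mul_le_mul_of_nonneg_left (pow_le_pow_left₀ (by norm_num) hx n) hz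
  have e3 : 8 * x ^ k ≤ x ^ (k + 3) := by
    have := hp 3 (x ^ k) (by linarith); rw [pow_add]; linarith
  have e5 : 32 * x ^ k ≤ x ^ (k + 5) := by
    have := hp 5 (x ^ k) (by linarith); rw [pow_add]; linarith
  have e4 : 16 * (x ^ k) ^ 2 ≤ x ^ (2 * k + 4) := by
    have := hp 4 ((x ^ k) ^ 2) (sq_nonneg _); rw [pow_add, mul_comm 2 k, pow_mul]; linarith
  have e8 : 256 * (x ^ k) ^ 2 ≤ x ^ (2 * k + 8) := by
    have := hp 8 ((x ^ k) ^ 2) (sq_nonneg _); rw [pow_add, mul_comm 2 k, pow_mul]; linarith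
  obtain ⟨q, a1, a2, T', a3, a4, a5⟩ := xLVi3_step0 h1 s θ φ a N hy hε
    ((mul_le_mul_of_nonneg_left e5 hε).trans hεx) (e3.trans hN) T hT hc hn
  exact ⟨q, a1, a2.trans e3, T', a3, a4.trans (mul_le_mul_of_nonneg_right e4 (Nat.cast_nonneg _)),
    fun i hi => (a5 i hi).trans (div_le_div_of_nonneg_right (mul_le_mul_of_nonneg_right e8 hε)
      (Nat.cast_nonneg _))⟩

theorem LVI3_pf (h1 : LVIN) : LVI3 := by
  refine ⟨100, fun η α ε A B a b M V S hη hη2 hε hεη hM hV hS hc hn => ?_⟩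
  have hx : 2 ≤ η⁻¹ := by rw [le_inv_comm₀ (by norm_num) hη]; linarith
  have hεx : ε * η⁻¹ ^ 100 ≤ 1 := by
    rw [inv_pow, ← div_eq_mul_inv, div_le_one (by positivity)]; exact hεη
  have hc' : (M : ℝ) ^ 2 * (V : ℝ) ^ 2 ≤ η⁻¹ * S.card := by
    rw [le_inv_mul_iff₀ hη, ← mul_assoc]; exact hc
  generalize η⁻¹ = x at *
  have hx1 : 1 ≤ x := by linarith
  have hm : ∀ n ≤ 100, x ^ n ≤ x ^ 100 := fun n hn => pow_le_pow_right₀ hx1 hn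
  have hV1 : (1 : ℝ) ≤ V := (one_le_pow₀ hx1).trans hV
  have hM1 : (1 : ℝ) ≤ M := (one_le_pow₀ hx1).trans hM
  have hsm : ∀ (n m : ℕ) (W : ℝ), n + m ≤ 100 → 1 ≤ W → x ^ n * ε / W * x ^ m ≤ 1 := by
    intro n m W h hW
    have a1 : x ^ n * ε / W ≤ x ^ n * ε := div_le_self (by positivity) hW
    refine (mul_le_mul_of_nonneg_right a1 (by positivity)).trans (le_trans ?_ hεx)
    rw [mul_comm (x ^ n), mul_assoc, ← pow_add]
    exact mul_le_mul_of_nonneg_left (hm _ h) hε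
  have hJ : ((Ico a (a + M)).card : ℝ) = M := by simp
  have hI : ((Ico (-(V : ℤ)) (-(V : ℤ) + (2 * V : ℕ))).card : ℝ) = 2 * V := by
    rw [Int.card_Ico, add_sub_cancel_left, Int.toNat_natCast]
    push_cast
    rfl
  let e : (ℤ × ℤ) × (ℤ × ℤ) → ((ℤ × ℤ) × ℤ) × ℤ := fun z => ((z.1, z.2.2 - z.2.1), z.2.1)
  have he : Function.Injective e := by
    rintro ⟨j, i0, i1⟩ ⟨j', i0', i1'⟩ h
    simp only [e, Prod.mk.injEq] at h ⊢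
    exact ⟨h.1.1, h.2, by omega⟩
  obtain ⟨q1, a1, a2, T1, a3, a4, a5⟩ := xLVi3_step h1
    ((Ico a (a + M) ×ˢ Ico a (a + M)) ×ˢ Ico (-(V : ℤ)) (-(V : ℤ) + (2 * V : ℕ)))
    (fun z => 2 * A * α * (z.1.2 - z.1.1 : ℤ) * z.2)
    (fun z => α * (z.1.2 - z.1.1 : ℤ) * z.2 * (B + A * z.2)) b V 2 hx hε
    ((mul_le_mul_of_nonneg_left (hm _ (by norm_num)) hε).trans hεx)
    ((hm _ (by norm_num)).trans hV) (S.image e) (fun z hz => by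
      obtain ⟨w, hw, rfl⟩ := mem_image.1 hz
      have h := hS hw
      simp only [mem_product, mem_Ico, e] at h ⊢
      refine ⟨⟨h.1, ?_⟩, h.2.1⟩
      push_cast
      omega) (by
      rw [card_image_of_injective _ he, card_product, card_product, Nat.cast_mul, Nat.cast_mul, hJ,
        hI]
      have b1 : 0 ≤ x * S.card := by positivity
      have b2 := mul_le_mul_of_nonneg_right hx b1
      nlinarith) (fun z hz => by
      obtain ⟨w, hw, rfl⟩ := mem_image.1 hz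
      refine le_of_eq_of_le (congrArg nd ?_) (hn w hw)
      simp only [e]
      push_cast
      ring)
  rw [card_product, Nat.cast_mul, hI] at a4
  obtain ⟨q2, b1, b2, T2, b3, b4, b5⟩ := xLVi3_step h1 (Ico a (a + M) ×ˢ Ico a (a + M))
    (fun z => q1 * (2 * A * α * (z.2 - z.1 : ℤ))) (fun _ => 0) (-(V : ℤ)) (2 * V) 8 hx
    (show 0 ≤ x ^ (2 * 2 + 8) * ε / V by positivity) (hsm _ _ _ (by norm_num) hV1)
    (((hm _ (by norm_num)).trans hV).trans (by push_cast; linarith)) T1 a3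
    (by push_cast; exact a4) (fun z hz => by
      refine le_of_eq_of_le (congrArg nd ?_) (a5 z hz)
      ring)
  have c0 : x ^ (2 * 8 + 8) * (x ^ (2 * 2 + 8) * ε / V) / ((2 * V : ℕ) : ℝ) ≤
      x ^ 36 * ε / (V : ℝ) ^ 2 := by
    have : x ^ (2 * 8 + 8) * (x ^ (2 * 2 + 8) * ε / V) / ((2 * V : ℕ) : ℝ) =
        x ^ 36 * ε / (V : ℝ) ^ 2 / 2 := by
      push_cast
      field_simp
    rw [this]
    exact half_le_self (by positivity)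
  rw [card_product, Nat.cast_mul, hJ] at b4
  obtain ⟨q3, c1, c2, T3, c3, c4, c5⟩ := xLVi3_step h1 (Ico a (a + M))
    (fun _ => q2 * (q1 * (2 * A * α))) (fun j => -(q2 * (q1 * (2 * A * α)) * j)) a M 20 hx
    (show 0 ≤ x ^ 36 * ε / (V : ℝ) ^ 2 by positivity)
    (hsm _ _ _ (by norm_num) (one_le_pow₀ hV1)) ((hm _ (by norm_num)).trans hM) T2 b3
    (by rw [hJ]; exact b4) (fun z hz => by
      refine le_of_eq_of_le (congrArg nd ?_) ((b5 z hz).trans c0)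
      push_cast
      ring)
  have hne : T3.Nonempty := by
    rw [nonempty_iff_ne_empty]
    rintro rfl
    rw [hJ, card_empty, Nat.cast_zero, mul_zero] at c4
    linarith
  obtain ⟨j, hj⟩ := hne
  refine ⟨q3 * (q2 * q1), Nat.mul_pos c1 (Nat.mul_pos b1 a1), ?_, ?_⟩
  · have := mul_le_mul c2 (mul_le_mul b2 a2 (Nat.cast_nonneg _) (by positivity)) (by positivity)
      (by positivity)
    rw [← pow_add, ← pow_add] at this
    push_cast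
    exact this.trans (hm _ (by norm_num))
  · refine le_of_eq_of_le (congrArg nd ?_) ((c5 j hj).trans ?_)
    · push_cast
      ring
    · have : x ^ (2 * 20 + 8) * (x ^ 36 * ε / (V : ℝ) ^ 2) / M =
          x ^ 84 * ε / (M * (V : ℝ) ^ 2) := by
        field_simp
      rw [this]
      exact div_le_div_of_nonneg_right (mul_le_mul_of_nonneg_right (hm _ (by norm_num)) hε)
        (by positivity)

end Pool.Agent.MP_e23604_nt.U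

end
end

section

/-!
Major arcs in one class.
-/

open Finset
open scoped Classical

noncomputable section

namespace Pool.Agent.MP_e23604_nt.U

/-- The integer frequency attached to a quadruple. -/
def xLMj1_w (A u' : ℤ) (z : (ℤ × ℤ) × (ℤ × ℤ)) : ℤ :=
  (z.1.2 - z.1.1) * (z.2.2 - z.2.1) * (2 * u' + A * (z.2.1 + z.2.2))

theorem xLMj1_prod (α : ℝ) (A : ℕ) (hA : 1 ≤ A) (y' μ' u' t j0 j1 i0 i1 : ℤ) :
    ee (α * (((y' + A * t) * (μ' + A * j0) * (u' + A * i0) ^ 2 : ℤ) : ℝ) / A) *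
      (starRingEnd ℂ) (ee (α * (((y' + A * t) * (μ' + A * j0) * (u' + A * i1) ^ 2 : ℤ) : ℝ) / A)) *
      (starRingEnd ℂ) (ee (α * (((y' + A * t) * (μ' + A * j1) * (u' + A * i0) ^ 2 : ℤ) : ℝ) / A)) *
      ee (α * (((y' + A * t) * (μ' + A * j1) * (u' + A * i1) ^ 2 : ℤ) : ℝ) / A) =
    ee (α * (A : ℝ) ^ 2 * (xLMj1_w A u' ((j0, j1), (i0, i1)) : ℝ) * t +
      α * A * y' * (xLMj1_w A u' ((j0, j1), (i0, i1)) : ℝ)) := by
  rw [conj_ee, conj_ee, ← ee_add, ← ee_add, ← ee_add]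
  congr 1
  have h : (A : ℝ) ≠ 0 := by
    have : (1 : ℝ) ≤ A := by exact_mod_cast hA
    positivity
  unfold xLMj1_w
  push_cast
  field_simp
  ring

theorem xLMj1_card (a : ℤ) (n : ℕ) : ((Ico a (a + n)).card : ℝ) = n := by simp

theorem LMJ1_pf (h1 : LCS2) (h2 : LVI3) : LMJ1 := by
  obtain ⟨C, h2⟩ := h2
  refine ⟨5 * C + 4, ?_⟩
  intro η α A y' μ' u' a1 a2 a3 Y M V SX G1 G2 H hη hη2 hA hY hM hV hSX hG1 hG2 hH hS
  have hi : 1 ≤ η⁻¹ := (one_le_inv₀ hη).2 (by linarith)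
  have hmono : η⁻¹ ^ (5 * C) ≤ η⁻¹ ^ (5 * C + 4) := pow_le_pow_right₀ hi (by omega)
  have hone : 1 ≤ η⁻¹ ^ (5 * C + 4) := one_le_pow₀ hi
  have hY0 : (0 : ℝ) < Y := by linarith
  have hM0 : (0 : ℝ) < M := by linarith
  have hV0 : (0 : ℝ) < V := by linarith
  have hX0 : (0 : ℝ) < SX.card := by exact_mod_cast hSX.card_pos
  set Q : Finset ((ℤ × ℤ) × (ℤ × ℤ)) := (Ico a2 (a2 + M) ×ˢ Ico a2 (a2 + M)) ×ˢ
    (Ico a3 (a3 + V) ×ˢ Ico a3 (a3 + V)) with hQ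
  have hQc : (Q.card : ℝ) = (M : ℝ) ^ 2 * (V : ℝ) ^ 2 := by
    rw [hQ, card_product, card_product, card_product]
    push_cast
    rw [xLMj1_card, xLMj1_card]
    ring
  set f : (ℤ × ℤ) × (ℤ × ℤ) → ℝ := fun z => ‖∑ t ∈ Ico a1 (a1 + Y),
    ee (α * (A : ℝ) ^ 2 * (xLMj1_w A u' z : ℝ) * t + α * A * y' * (xLMj1_w A u' z : ℝ))‖ with hf
  have key := h1 (ℤ × ℤ) ℤ ℤ (SX ×ˢ Ico a1 (a1 + Y)) (Ico a2 (a2 + M)) (Ico a3 (a3 + V))
    (fun o j => G1 o.1 o.2 j) (fun o i => G2 o.1 o.2 i) H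
    (fun o j i => ee (α * (((y' + A * o.2) * (μ' + A * j) * (u' + A * i) ^ 2 : ℤ) : ℝ) / A))
    (fun o j => hG1 _ _ _) (fun o i => hG2 _ _ _) hH
  simp only [xLMj1_prod α A hA, sum_product, sum_const, nsmul_eq_mul, norm_mul,
    Complex.norm_natCast, card_product, Nat.cast_mul, xLMj1_card] at key
  have hsum : ∑ z ∈ Q, f z = ∑ j0 ∈ Ico a2 (a2 + M), ∑ j1 ∈ Ico a2 (a2 + M),
      ∑ i0 ∈ Ico a3 (a3 + V), ∑ i1 ∈ Ico a3 (a3 + V), f ((j0, j1), (i0, i1)) := by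
    rw [hQ, sum_product, sum_product]
    exact sum_congr rfl fun _ _ => sum_congr rfl fun _ _ => sum_product _ _ _
  have key2 : (η * (SX.card * Y * M * V)) ^ 4 ≤
      ((SX.card : ℝ) * Y) ^ 3 * (M : ℝ) ^ 2 * (V : ℝ) ^ 2 * (SX.card * ∑ z ∈ Q, f z) := by
    refine (pow_le_pow_left₀ (by positivity) hS 4).trans (key.trans_eq ?_)
    rw [hsum]
    simp only [mul_sum, hf]
  have key3 : η ^ 4 * Y * Q.card ≤ ∑ z ∈ Q, f z := by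
    rw [hQc]
    have hp : 0 < ((SX.card : ℝ) * Y) ^ 3 * (M : ℝ) ^ 2 * (V : ℝ) ^ 2 * SX.card := by positivity
    refine le_of_mul_le_mul_left ?_ hp
    calc _ = (η * (SX.card * Y * M * V)) ^ 4 := by ring
      _ ≤ _ := key2
      _ = _ := by ring
  have hpop := pop Q f hY0 (by positivity : 0 ≤ η ^ 4) (fun z _ => by
    refine (norm_sum_le _ _).trans ?_
    simp [norm_ee]) key3
  have h4 : 0 < η ^ 4 := by positivity
  have h5 : η ^ 5 ≤ η ^ 4 / 2 := by nlinarith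
  have h41 : η ^ 4 ≤ 1 := pow_le_one₀ hη.le (by linarith)
  have hinv : (η ^ 5)⁻¹ ^ C = η⁻¹ ^ (5 * C) := by rw [← inv_pow, ← pow_mul]
  obtain ⟨q, hq1, hq2, hq3⟩ := h2 (η ^ 5) (α * (A : ℝ) ^ 2) (η⁻¹ ^ 4 / Y) A (2 * u') a2 a3 M V
    (Q.filter fun z => η ^ 4 / 2 * Y ≤ f z) (by positivity) (by linarith) (by positivity)
    (by
      rw [div_le_iff₀ hY0]
      refine le_trans (le_of_eq ?_) (mul_le_mul_of_nonneg_left hY (by positivity))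
      rw [← pow_mul, pow_add, ← mul_assoc, ← mul_pow, mul_inv_cancel₀ hη.ne', one_pow, one_mul])
    (hinv ▸ hmono.trans hM) (hinv ▸ hmono.trans hV) (filter_subset _ _)
    (by
      refine le_trans ?_ hpop
      rw [hQc, mul_assoc]
      exact mul_le_mul_of_nonneg_right h5 (by positivity))
    (fun z hz => by
      have hz := (mem_filter.1 hz).2
      have hg := geo_le (α * (A : ℝ) ^ 2 * (xLMj1_w A u' z : ℝ))
        (α * A * y' * (xLMj1_w A u' z : ℝ)) a1 Y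
      have h0 := nd_nonneg (α * (A : ℝ) ^ 2 * (xLMj1_w A u' z : ℝ))
      have h3 : 2 * nd (α * (A : ℝ) ^ 2 * (xLMj1_w A u' z : ℝ)) * (η ^ 4 / 2 * Y) ≤ 1 :=
        (mul_le_mul_of_nonneg_left hz (by positivity)).trans hg
      change nd (α * (A : ℝ) ^ 2 * (xLMj1_w A u' z : ℝ)) ≤ _
      rw [le_div_iff₀ hY0, inv_pow, ← one_div, le_div_iff₀ h4]
      linarith)
  refine ⟨q, hq1, hq2.trans (hinv ▸ hmono), ?_⟩
  have e1 : 2 * (q : ℝ) * (A : ℝ) ^ 3 * α = q * (2 * ((A : ℤ) : ℝ) * (α * (A : ℝ) ^ 2)) := by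
    push_cast
    ring
  rw [e1]
  refine hq3.trans_eq ?_
  rw [hinv, pow_add]
  field_simp

end Pool.Agent.MP_e23604_nt.U

end
end

section

/-!
Common divisors with a fixed number.
-/

open Finset
open scoped Classical

noncomputable section

namespace Pool.Agent.MP_e23604_nt.U

theorem xLGcp_cnt {a b : ℤ} (hab : a ≤ b) {K d : ℕ} (hK : 1 ≤ K) {G N : ℝ} (hG : 1 ≤ G)
    (hd : G ≤ d) (h1 : G ≤ ((b : ℝ) - a) / K) (h2 : ((b : ℝ) - a) / K ≤ 2 * N) (S : Finset ℤ)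
    (hS : S ⊆ Ioc a b) (h : ∀ x ∈ S, ∀ y ∈ S, ∃ t : ℤ, x - y = K * t ∧ (d : ℤ) ∣ 2 * t) :
    (S.card : ℝ) ≤ 6 / G * N := by
  have hd1 : 1 ≤ d := by exact_mod_cast hG.trans hd
  obtain ⟨D, hD, hD', H⟩ : ∃ D : ℕ, 1 ≤ D ∧ d ≤ 2 * D ∧ ∀ t : ℤ, (d : ℤ) ∣ 2 * t → (D : ℤ) ∣ t := by
    rcases Nat.even_or_odd' d with ⟨k, rfl | rfl⟩
    · refine ⟨k, by omega, le_rfl, fun t ht => ?_⟩
      push_cast at ht
      exact (mul_dvd_mul_iff_left two_ne_zero).1 ht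
    · refine ⟨2 * k + 1, hd1, by omega, fun t ht => IsCoprime.dvd_of_dvd_mul_left ?_ ht⟩
      exact ⟨1, -k, by push_cast; ring⟩
  have h3 := card_sparse_le a b hab (D := K * D) (Nat.mul_pos hK hD) S hS fun x hx y hy => by
    obtain ⟨t, e, ht⟩ := h x hx y hy
    rw [e]
    push_cast
    exact mul_dvd_mul_left _ (H t ht)
  have h0 : 0 < G := by linarith
  have hD0 : (0 : ℝ) < D := by exact_mod_cast hD
  have h4 : G ≤ 2 * D := hd.trans (by exact_mod_cast hD')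
  rw [Nat.cast_mul, ← div_div] at h3
  generalize ((b : ℝ) - a) / K = L at h1 h2 h3
  have h5 : L / D ≤ 2 * L / G := by
    rw [div_le_div_iff₀ hD0 h0]
    nlinarith
  have h6 : 1 ≤ L / G := (one_le_div h0).2 h1
  have h7 : 3 * L / G ≤ 6 * N / G := div_le_div_of_nonneg_right (by linarith) h0.le
  calc (S.card : ℝ) ≤ 2 * L / G + L / G := by linarith
    _ = 3 * L / G := by ring
    _ ≤ 6 * N / G := h7
    _ = 6 / G * N := by ring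

theorem xLGcp_fibR (s t : Finset ℤ) (P : ℤ × ℤ → Prop) {c : ℝ}
    (h : ∀ a ∈ s, ((t.filter fun b => P (a, b)).card : ℝ) ≤ c * t.card) :
    (((s ×ˢ t).filter P).card : ℝ) ≤ c * (s ×ˢ t).card := by
  rw [card_filter, sum_product, card_product]
  simp only [← card_filter]
  push_cast
  refine (sum_le_sum h).trans_eq ?_
  rw [sum_const, nsmul_eq_mul]
  ring

theorem xLGcp_fibL (s t : Finset ℤ) (P : ℤ × ℤ → Prop) {c : ℝ}
    (h : ∀ b ∈ t, ((s.filter fun a => P (a, b)).card : ℝ) ≤ c * s.card) :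
    (((s ×ˢ t).filter P).card : ℝ) ≤ c * (s ×ˢ t).card := by
  rw [card_filter, sum_product_right, card_product]
  simp only [← card_filter]
  push_cast
  refine (sum_le_sum h).trans_eq ?_
  rw [sum_const, nsmul_eq_mul]
  ring

theorem xLGcp_cop1 {K r x : ℤ} (h : IsCoprime r K) (hx : K ∣ x - r) : IsCoprime x K := by
  obtain ⟨t, ht⟩ := hx
  rw [show x = r + K * t by linarith]
  exact h.add_mul_left_left t

theorem xLGcp_cop2 {K r x y : ℤ} (h4 : 4 ∣ K) (h : IsCoprime r K) (hx : K ∣ x - r)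
    (hy : K ∣ y - r) : ∃ w, x + y = 2 * w ∧ IsCoprime w K := by
  obtain ⟨k, rfl⟩ := h4
  obtain ⟨i, hi⟩ := hx
  obtain ⟨j, hj⟩ := hy
  have h1 : IsCoprime (r + 2 * k * (i + j)) (2 * k) :=
    (h.of_isCoprime_of_dvd_right ⟨2, by ring⟩).add_mul_left_left _
  exact ⟨r + 2 * k * (i + j), by linarith,
    (h1.mul_right h1).of_isCoprime_of_dvd_right ⟨k, by ring⟩⟩

/-- The five events. -/
def xLGcp_Ev (K : ℕ) (G : ℝ) (u0 e : ℤ) (d : ℕ) (k : Fin 5) (z : ℤ × ℤ) : Prop :=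
  ![G ≤ d ∧ (d : ℤ) ∣ z.1, G ≤ d ∧ (d : ℤ) ∣ (z.2 - u0) / K, G ≤ d ∧ (d : ℤ) ∣ z.2 + u0,
    G ≤ d ∧ d ∣ K ∧ (d : ℤ) ∣ c3' z.1 (z.1 + e) u0 z.2 / K,
    G * Nat.gcd d (z.2 ^ 2 - u0 ^ 2).natAbs ≤ d ∧ (d : ℤ) ∣ c3' z.1 (z.1 + e) u0 z.2 / K] k

theorem xLGcp_a4 {K r u0 e u : ℤ} (h0 : K ∣ u0 - r) (he : K ∣ e) (hu : K ∣ u - r) (μ : ℤ) :
    K * (c3' μ (μ + e) u0 u / K) = (μ + e) * u ^ 2 - μ * u0 ^ 2 := by
  refine Int.mul_ediv_cancel' ?_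
  rw [show c3' μ (μ + e) u0 u = ((u - r) - (u0 - r)) * (μ * (u + u0)) + e * u ^ 2 by
    unfold c3'; ring]
  exact ((hu.sub h0).mul_right _).add (he.mul_right _)

theorem xLGcp_cover {p : DP} {G : ℝ} (hG : 1 ≤ G) (hK : 1 ≤ p.K) {n : ℕ} (hn : n ≠ 0)
    {u0 e μ u : ℤ} (h0 : (p.K : ℤ) ∣ u - u0)
    (h : G ^ 64 < (Nat.gcd n (p.DD μ (μ + e) u0 u) : ℝ)) :
    ∃ d ∈ n.divisors, ∃ k, xLGcp_Ev p.K G u0 e d k (μ, u) := by
  by_contra hc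
  push Not at hc
  have hK0 : (p.K : ℤ) ≠ 0 := by omega
  obtain ⟨a, ha⟩ := h0
  have e1 : (u - u0) / p.K = a := by rw [ha, Int.mul_ediv_cancel_left _ hK0]
  have e2 : u ^ 2 - u0 ^ 2 = p.K * a * (u + u0) := by rw [← ha]; ring
  have e3 : c1 μ u0 u / p.K = μ * a * (u + u0) := by
    rw [c1, e2, show μ * (p.K * a * (u + u0)) = p.K * (μ * a * (u + u0)) by ring,
      Int.mul_ediv_cancel_left _ hK0]
  have md : ∀ m, Nat.gcd n m ∈ n.divisors := fun m => Nat.mem_divisors.2 ⟨Nat.gcd_dvd_left _ _, hn⟩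
  have dv : ∀ (m : ℕ) (x : ℤ), ((Nat.gcd m x.natAbs : ℕ) : ℤ) ∣ x := fun m x =>
    Int.natCast_dvd.2 (Nat.gcd_dvd_right _ _)
  have le : ∀ {m : ℕ} (x y : ℕ), m ≠ 0 →
      (Nat.gcd m (x * y) : ℝ) ≤ (Nat.gcd m x : ℝ) * Nat.gcd m y := fun x y hm => by
    exact_mod_cast Nat.le_of_dvd (Nat.mul_pos (Nat.gcd_pos_of_pos_left _ (Nat.pos_of_ne_zero hm))
      (Nat.gcd_pos_of_pos_left _ (Nat.pos_of_ne_zero hm))) (Nat.gcd_mul_right_dvd_mul_gcd _ _ _)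
  rw [DP.DD, e3, Int.natAbs_mul, Int.natAbs_mul, Int.natAbs_mul] at h
  set a4 := c3' μ (μ + e) u0 u / p.K with ha4
  have hA : (Nat.gcd n μ.natAbs : ℝ) ≤ G := (not_le.1 fun c => hc _ (md _) 0 ⟨c, dv _ _⟩).le
  have hB : ∀ d, d ∣ n → (Nat.gcd d a.natAbs : ℝ) ≤ G := fun d hd => (not_le.1 fun c =>
    hc _ (Nat.mem_divisors.2 ⟨(Nat.gcd_dvd_left _ _).trans hd, hn⟩) 1 ⟨c, e1 ▸ dv _ _⟩).le
  have hC : ∀ d, d ∣ n → (Nat.gcd d (u + u0).natAbs : ℝ) ≤ G := fun d hd => (not_le.1 fun c =>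
    hc _ (Nat.mem_divisors.2 ⟨(Nat.gcd_dvd_left _ _).trans hd, hn⟩) 2 ⟨c, dv _ _⟩).le
  obtain ⟨d, hd⟩ : ∃ d, d = Nat.gcd n a4.natAbs := ⟨_, rfl⟩
  have d1 : d ∣ n := hd ▸ Nat.gcd_dvd_left _ _
  have d2 : (d : ℤ) ∣ a4 := hd ▸ dv _ _
  have d0 : d ≠ 0 := ne_zero_of_dvd_ne_zero hn d1
  have hD : (Nat.gcd d p.K : ℝ) ≤ G := (not_le.1 fun c =>
    hc _ (Nat.mem_divisors.2 ⟨(Nat.gcd_dvd_left _ _).trans d1, hn⟩) 3 ⟨c, Nat.gcd_dvd_right _ _,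
      (Int.natCast_dvd_natCast.2 (Nat.gcd_dvd_left _ _)).trans d2⟩).le
  have hE : (d : ℝ) ≤ G * Nat.gcd d (u ^ 2 - u0 ^ 2).natAbs :=
    (not_le.1 fun c => hc _ (Nat.mem_divisors.2 ⟨d1, hn⟩) 4 ⟨c, d2⟩).le
  rw [e2, Int.natAbs_mul, Int.natAbs_mul, Int.natAbs_natCast] at hE
  have h0 : 0 ≤ G := by linarith
  have m3 : ∀ {m : ℕ} (x y z : ℕ), m ≠ 0 → (Nat.gcd m x : ℝ) ≤ G → (Nat.gcd m y : ℝ) ≤ G →
      (Nat.gcd m z : ℝ) ≤ G → (Nat.gcd m (x * y * z) : ℝ) ≤ G * G * G :=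
    fun x y z hm hx hy hz => (le _ _ hm).trans (mul_le_mul ((le _ _ hm).trans
      (mul_le_mul hx hy (Nat.cast_nonneg _) h0)) hz (Nat.cast_nonneg _) (mul_nonneg h0 h0))
  have h1 : (d : ℝ) ≤ G * (G * G * G) :=
    hE.trans (mul_le_mul_of_nonneg_left (m3 _ _ _ d0 hD (hB d d1) (hC d d1)) h0)
  have h2 := (le _ _ hn).trans (mul_le_mul (m3 _ _ _ hn hA (hB n dvd_rfl) (hC n dvd_rfl))
    (hd ▸ h1 : (Nat.gcd n a4.natAbs : ℝ) ≤ _) (Nat.cast_nonneg _) (by positivity))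
  have h3 : G ^ 7 ≤ G ^ 64 := pow_le_pow_right₀ hG (by norm_num)
  have h4 : G * G * G * (G * (G * G * G)) = G ^ 7 := by ring
  linarith

theorem xLGcp_ev {p : DP} {G : ℝ} (hG : 1 ≤ G) (hp : p.OK G) {u0 e : ℤ} (h0 : u0 ∈ p.SU)
    (he : e ∈ p.SE) {d : ℕ} (hd : d ≠ 0) (k : Fin 5) :
    (((p.SM ×ˢ p.SU).filter (xLGcp_Ev p.K G u0 e d k)).card : ℝ) ≤
      6 / G * (p.SM ×ˢ p.SU).card := by
  have h1 := hp.mono hG
  obtain ⟨-, ⟨cM, -⟩, ⟨cU, -⟩, -⟩ := h1.cards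
  have hK := hp.pos
  have hK0 : (p.K : ℤ) ≠ 0 := by omega
  have hK1 : (1 : ℝ) ≤ p.K := by exact_mod_cast hK
  have hVM : (p.V : ℝ) ≤ p.M := by exact_mod_cast h1.sizes.2.2.1
  have hKV : G * p.K ≤ p.V := by
    have := mul_le_mul_of_nonneg_right (le_self_pow₀ hK1 (by norm_num : 100 ≠ 0))
      (by linarith : 0 ≤ G)
    linarith [hp.hV]
  have h4 : (4 : ℤ) ∣ p.K := by exact_mod_cast hp.four
  have k0 : (p.K : ℤ) ∣ u0 - p.us := (mem_cl.1 h0).2.2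
  have ke : (p.K : ℤ) ∣ e := (mem_filter.1 he).2
  have nil : ∀ (s : Finset ℤ) (P : ℤ → Prop), (∀ x, ¬ P x) →
      ((s.filter P).card : ℝ) ≤ 6 / G * s.card := fun s P h => by
    rw [filter_false_of_mem fun x _ => h x, card_empty, Nat.cast_zero]
    positivity
  have cntU : ∀ (P : ℤ → Prop) (D : ℕ), G ≤ D → (∀ x y t : ℤ, (p.K : ℤ) ∣ x - p.us →
      (p.K : ℤ) ∣ y - p.us → x - y = p.K * t → P x → P y → (D : ℤ) ∣ 2 * t) →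
      ((p.SU.filter P).card : ℝ) ≤ 6 / G * p.SU.card := fun P D hD h => by
    refine xLGcp_cnt (a := p.V) (b := 2 * p.V) (by omega) hK hG hD ?_ ?_ _
      ((filter_subset _ _).trans (filter_subset _ _)) fun x hx y hy => ?_
    · rw [le_div_iff₀ (by linarith)]
      push_cast
      linarith
    · rw [div_le_iff₀ (by linarith)] at cU ⊢
      push_cast
      linarith
    · obtain ⟨hx, hx'⟩ := mem_filter.1 hx
      obtain ⟨hy, hy'⟩ := mem_filter.1 hy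
      obtain ⟨t, ht⟩ := (mem_cl.1 hx).2.2.sub (mem_cl.1 hy).2.2
      rw [sub_sub_sub_cancel_right] at ht
      exact ⟨t, ht, h x y t (mem_cl.1 hx).2.2 (mem_cl.1 hy).2.2 ht hx' hy'⟩
  have cntM : ∀ (P : ℤ → Prop) (D : ℕ), G ≤ D → (∀ x y t : ℤ, (p.K : ℤ) ∣ x - p.ms →
      x - y = p.K * t → P x → P y → (D : ℤ) ∣ t) →
      ((p.SM.filter P).card : ℝ) ≤ 6 / G * p.SM.card := fun P D hD h => by
    refine xLGcp_cnt (a := p.M) (b := 3 * p.M) (by omega) hK hG hD ?_ ?_ _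
      ((filter_subset _ _).trans (filter_subset _ _)) fun x hx y hy => ?_
    · rw [le_div_iff₀ (by linarith)]
      push_cast
      nlinarith
    · rw [div_le_iff₀ (by linarith)] at cM ⊢
      push_cast
      linarith
    · obtain ⟨hx, hx'⟩ := mem_filter.1 hx
      obtain ⟨hy, hy'⟩ := mem_filter.1 hy
      obtain ⟨t, ht⟩ := (mem_cl.1 hx).2.2.sub (mem_cl.1 hy).2.2
      rw [sub_sub_sub_cancel_right] at ht
      exact ⟨t, ht, (h x y t (mem_cl.1 hx).2.2 ht hx' hy').mul_left _⟩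
  by_cases hGd : G ≤ d
  swap
  · refine xLGcp_fibR _ _ _ fun μ _ => nil _ _ fun u h => hGd ?_
    fin_cases k
    exacts [h.1, h.1, h.1, h.1, le_trans (le_mul_of_one_le_right (by linarith)
      (by exact_mod_cast Nat.gcd_pos_of_pos_left _ (Nat.pos_of_ne_zero hd))) h.1]
  fin_cases k
  · refine xLGcp_fibL _ _ _ fun u _ => cntM _ d hGd fun x y t hx e hx' hy' => ?_
    exact ((xLGcp_cop1 hp.cm hx).of_isCoprime_of_dvd_left hx'.2).dvd_of_dvd_mul_left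
      (e ▸ hx'.2.sub hy'.2)
  · refine xLGcp_fibR _ _ _ fun μ _ => cntU _ d hGd fun x y t hx hy e hx' hy' => ?_
    have e1 := Int.mul_ediv_cancel' (hx.sub k0)
    have e2 := Int.mul_ediv_cancel' (hy.sub k0)
    rw [sub_sub_sub_cancel_right] at e1 e2
    have e3 : t = (x - u0) / p.K - (y - u0) / p.K := mul_left_cancel₀ hK0 (by linarith)
    exact e3 ▸ (hx'.2.sub hy'.2).mul_left _
  · refine xLGcp_fibR _ _ _ fun μ _ => cntU _ d hGd fun x y t hx hy e hx' hy' => ?_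
    obtain ⟨w, hw, a, b, hab⟩ := xLGcp_cop2 h4 hp.cu hx k0
    have e1 : 2 * t = a * t * (x + u0) + 2 * b * ((x + u0) - (y + u0)) := by
      rw [add_sub_add_right_eq_sub, e, hw]
      linear_combination (-2 * t) * hab
    exact e1 ▸ (hx'.2.mul_left _).add ((hx'.2.sub hy'.2).mul_left _)
  · refine xLGcp_fibR _ _ _ fun μ hμ => cntU _ d hGd fun x y t hx hy e' hx' hy' => ?_
    obtain ⟨w, hw, hw'⟩ := xLGcp_cop2 h4 hp.cu hx hy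
    have c1 : IsCoprime (μ + e) p.K := xLGcp_cop1 hp.cm (by
      rw [add_sub_right_comm]; exact (mem_cl.1 hμ).2.2.add ke)
    have e1 : c3' μ (μ + e) u0 x / p.K - c3' μ (μ + e) u0 y / p.K = (μ + e) * w * (2 * t) :=
      mul_left_cancel₀ hK0 (by
        rw [mul_sub, xLGcp_a4 k0 ke hx, xLGcp_a4 k0 ke hy]
        linear_combination ((μ + e) * (x + y)) * e' + ((μ + e) * p.K * t) * hw)
    exact ((c1.mul_left hw').symm.of_isCoprime_of_dvd_left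
      (Int.natCast_dvd_natCast.2 hx'.2.1)).dvd_of_dvd_mul_left (e1 ▸ hx'.2.2.sub hy'.2.2)
  · refine xLGcp_fibL _ _ _ fun u hu => ?_
    have ku := (mem_cl.1 hu).2.2
    obtain ⟨D, c, hc, e1, e2⟩ := Nat.exists_coprime d (u ^ 2 - u0 ^ 2).natAbs
    have g0 : 0 < Nat.gcd d (u ^ 2 - u0 ^ 2).natAbs :=
      Nat.gcd_pos_of_pos_left _ (Nat.pos_of_ne_zero hd)
    by_cases hD : G ≤ D
    · refine cntM _ D hD fun x y t _ e' hx' hy' => ?_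
      have e3 : c3' x (x + e) u0 u / p.K - c3' y (y + e) u0 u / p.K = t * (u ^ 2 - u0 ^ 2) :=
        mul_left_cancel₀ hK0 (by
          rw [mul_sub, xLGcp_a4 k0 ke ku, xLGcp_a4 k0 ke ku]
          linear_combination (u ^ 2 - u0 ^ 2) * e')
      have h5 : d ∣ t.natAbs * (u ^ 2 - u0 ^ 2).natAbs := by
        rw [← Int.natAbs_mul, ← Int.natCast_dvd, ← e3]
        exact hx'.2.sub hy'.2
      generalize Nat.gcd d (u ^ 2 - u0 ^ 2).natAbs = g at e1 e2 g0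
      rw [e1, e2, ← mul_assoc] at h5
      exact Int.natCast_dvd.2 (hc.dvd_of_dvd_mul_right (Nat.dvd_of_mul_dvd_mul_right g0 h5))
    · refine nil _ _ fun x h => hD ?_
      have h5 : G * Nat.gcd d (u ^ 2 - u0 ^ 2).natAbs ≤ d := h.1
      generalize Nat.gcd d (u ^ 2 - u0 ^ 2).natAbs = g at e1 g0 h5
      rw [e1, Nat.cast_mul] at h5
      exact le_of_mul_le_mul_right h5 (by exact_mod_cast g0)

theorem LGCp_pf  : LGCp := by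
  intro p G n u0 e hG hp hn h0 he
  have h1 : ((p.SM ×ˢ p.SU).filter fun z => p.DD z.1 (z.1 + e) u0 z.2 ≠ 0 ∧
      G ^ 64 < (Nat.gcd n (p.DD z.1 (z.1 + e) u0 z.2) : ℝ)) ⊆
      (n.divisors ×ˢ (univ : Finset (Fin 5))).biUnion fun w =>
        (p.SM ×ˢ p.SU).filter (xLGcp_Ev p.K G u0 e w.1 w.2) := fun z hz => by
    obtain ⟨hz, -, h⟩ := mem_filter.1 hz
    have h2 := (mem_cl.1 (mem_product.1 hz).2).2.2.sub (mem_cl.1 h0).2.2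
    rw [sub_sub_sub_cancel_right] at h2
    obtain ⟨d, hd, k, hk⟩ := xLGcp_cover hG hp.pos hn h2 h
    exact mem_biUnion.2 ⟨(d, k), mem_product.2 ⟨hd, mem_univ _⟩, mem_filter.2 ⟨hz, hk⟩⟩
  have h2 := (Nat.cast_le (α := ℝ)).2 ((card_le_card h1).trans card_biUnion_le)
  rw [Nat.cast_sum] at h2
  refine h2.trans ((sum_le_sum fun w hw => xLGcp_ev hG hp h0 he
    (Nat.pos_of_mem_divisors (mem_product.1 hw).1).ne' w.2).trans ?_)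
  rw [sum_const, nsmul_eq_mul, card_product, card_univ, Fintype.card_fin, ta, Int.natAbs_natCast,
    ← mul_assoc]
  refine mul_le_mul_of_nonneg_right ?_ (Nat.cast_nonneg _)
  rw [← mul_div_assoc]
  refine div_le_div_of_nonneg_right ?_ (by linarith)
  push_cast
  have : (0 : ℝ) ≤ n.divisors.card := Nat.cast_nonneg _
  linarith

end Pool.Agent.MP_e23604_nt.U

end
end

section

/-!
Common divisors in the first family.
-/

open Finset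
open scoped Classical

noncomputable section

namespace Pool.Agent.MP_e23604_nt.U

theorem xLG1b_fib {ι κ : Type} (s : Finset ι) (t : Finset κ) (P : ι × κ → Prop)
    [DecidablePred P] :
    (((s ×ˢ t).filter P).card : ℝ) = ∑ i ∈ s, ((t.filter fun j => P (i, j)).card : ℝ) := by
  simp only [card_filter]
  push_cast
  rw [sum_product]

theorem xLG1b_inj (p : DP) (R : ℝ) :
    ((((p.SU ×ˢ p.SE) ×ˢ (p.SM ×ˢ p.SU)).filter fun z => z.2.1 + z.1.2 ∈ p.SM ∧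
      p.DD z.2.1 (z.2.1 + z.1.2) z.1.1 z.2.2 ≠ 0 ∧
      R < ta (p.DD z.2.1 (z.2.1 + z.1.2) z.1.1 z.2.2)).card : ℝ) ≤
    ((p.Qd.filter fun z => p.DD z.1.1 z.1.2 z.2.1 z.2.2 ≠ 0 ∧
      R < ta (p.DD z.1.1 z.1.2 z.2.1 z.2.2)).card : ℝ) := by
  refine Nat.cast_le.2 (card_le_card_of_injOn
    (fun z => ((z.2.1, z.2.1 + z.1.2), (z.1.1, z.2.2))) (fun z hz => ?_) (fun z _ z' _ h => ?_))
  · simp only [coe_filter, mem_product, Set.mem_ofPred_eq, DP.Qd] at hz ⊢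
    exact ⟨⟨⟨hz.1.2.1, hz.2.1⟩, hz.1.1.1, hz.1.2.2⟩, hz.2.2⟩
  · simp only [Prod.mk.injEq] at h
    obtain ⟨⟨e1, e2⟩, e3, e4⟩ := h
    refine Prod.ext (Prod.ext e3 ?_) (Prod.ext e1 e4)
    rw [e1] at e2
    exact add_left_cancel e2

theorem LG1b_pf (h1 : LGT1) (h2 : LGCp) : LG1b := by
  refine ⟨114 * 64, fun δ p hp => ?_⟩
  have hone := hp.one
  obtain ⟨hδ, hδ2, hOK, -, hlog⟩ := hp
  obtain ⟨t, ht⟩ : ∃ t, t = δ⁻¹ := ⟨_, rfl⟩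
  have ht2 : 2 ≤ t := by
    rw [ht, le_inv_comm₀ two_pos hδ]
    linarith
  have ht1 : 1 ≤ t := by linarith
  have ht0 : 0 < t := by linarith
  have hδt : δ * t = 1 := by rw [ht, mul_inv_cancel₀ hδ.ne']
  rw [← ht] at hOK hlog ⊢
  have hG : p.OK (t ^ 114) := hOK.mono (pow_le_pow_right₀ ht1 (by norm_num))
  have a1 : 10 ^ 4 * Real.log p.M / t ^ 17 ≤ δ / 2 := by
    have e1 : (2 : ℝ) ^ 15 ≤ t ^ 15 := pow_le_pow_left₀ (by norm_num) ht2 15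
    rw [div_le_iff₀ (by positivity)]
    have e2 : δ / 2 * t ^ 17 = t ^ 15 * t / 2 := by
      linear_combination (t ^ 16 / 2) * hδt
    rw [e2]
    nlinarith
  have a2 : 1000 * (t ^ 17) ^ 6 / t ^ 114 ≤ δ / 2 := by
    have e1 : (2 : ℝ) ^ 11 ≤ t ^ 11 := pow_le_pow_left₀ (by norm_num) ht2 11
    rw [div_le_iff₀ (by positivity)]
    have e2 : δ / 2 * t ^ 114 = t ^ 11 / 2 * (t ^ 17) ^ 6 := by
      linear_combination (t ^ 113 / 2) * hδt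
    rw [e2]
    exact mul_le_mul_of_nonneg_right (by linarith) (by positivity)
  obtain ⟨w, hw⟩ : ∃ w : ℝ, w = ((p.SM ×ˢ p.SU).card : ℝ) := ⟨_, rfl⟩
  have hw0 : 0 ≤ w := by rw [hw]; positivity
  have key : ∀ b ∈ p.SU ×ˢ p.SE, ∀ π ∈ p.SM ×ˢ p.SU,
      (((p.SM ×ˢ p.SU).filter fun π' => π.1 + b.2 ∈ p.SM ∧ p.DD π.1 (π.1 + b.2) b.1 π.2 ≠ 0 ∧
        p.DD π'.1 (π'.1 + b.2) b.1 π'.2 ≠ 0 ∧
        t ^ (114 * 64) < (Nat.gcd (p.DD π.1 (π.1 + b.2) b.1 π.2)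
          (p.DD π'.1 (π'.1 + b.2) b.1 π'.2) : ℝ)).card : ℝ) ≤
      (if π.1 + b.2 ∈ p.SM ∧ p.DD π.1 (π.1 + b.2) b.1 π.2 ≠ 0 ∧
        (t ^ 17) ^ 6 < ta (p.DD π.1 (π.1 + b.2) b.1 π.2) then 1 else 0) * w + δ / 2 * w := by
    intro b hb π _
    have n1 : 0 ≤ δ / 2 * w := by positivity
    split_ifs with h
    · rw [one_mul]
      refine le_add_of_le_of_nonneg ?_ n1
      rw [hw]
      exact Nat.cast_le.2 (card_filter_le _ _)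
    · rw [zero_mul, zero_add]
      by_cases h3 : π.1 + b.2 ∈ p.SM ∧ p.DD π.1 (π.1 + b.2) b.1 π.2 ≠ 0
      · have h4 : ta (p.DD π.1 (π.1 + b.2) b.1 π.2) ≤ (t ^ 17) ^ 6 :=
          not_lt.1 fun h5 => h ⟨h3.1, h3.2, h5⟩
        have h5 := h2 p (t ^ 114) _ b.1 b.2 (one_le_pow₀ ht1) hG h3.2 (mem_product.1 hb).1
          (mem_product.1 hb).2
        rw [← hw] at h5
        refine le_trans (Nat.cast_le.2 (card_le_card fun π' hπ' => ?_)) (h5.trans ?_)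
        · rw [mem_filter] at hπ' ⊢
          exact ⟨hπ'.1, hπ'.2.2.2.1, by rw [← pow_mul]; exact hπ'.2.2.2.2⟩
        · refine mul_le_mul_of_nonneg_right (le_trans ?_ a2) hw0
          exact div_le_div_of_nonneg_right (by linarith) (by positivity)
      · rw [filter_false_of_mem fun π' _ h6 => h3 ⟨h6.1, h6.2.1⟩, card_empty, Nat.cast_zero]
        exact n1
  have hq : (p.Qd.card : ℝ) ≤ (p.SU ×ˢ p.SE).card * w := by
    have h3 := hone.cards.2.2.2.1.1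
    rw [hw, DP.Qd]
    simp only [card_product]
    push_cast
    have h4 : (0 : ℝ) ≤ p.SM.card * (p.SU.card * p.SU.card) := by positivity
    nlinarith [mul_le_mul_of_nonneg_left h3 h4]
  have h6 := (xLG1b_inj p ((t ^ 17) ^ 6)).trans (h1 p (t ^ 17) hone (one_le_pow₀ ht1))
  have h7 := h6.trans (mul_le_mul a1 hq (by positivity) (by positivity))
  rw [xLG1b_fib] at h7
  refine le_trans (sum_le_sum fun b hb => (xLG1b_fib _ _ _).le.trans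
    (sum_le_sum fun π hπ => key b hb π hπ)) ?_
  simp only [sum_add_distrib, ← sum_mul, sum_const, nsmul_eq_mul, sum_boole]
  rw [← hw]
  have h8 := mul_le_mul_of_nonneg_right h7 hw0
  nlinarith [h8]

end Pool.Agent.MP_e23604_nt.U

end
end

section

/-!
Large Fourier coefficients on many classes.
-/

open Finset
open scoped Classical

noncomputable section

namespace Pool.Agent.MP_e23604_nt.U

theorem xLR4_count {ι : Type} (B : Finset ι) (Λ : ℕ) {K : ℕ} (hK : 0 < K) (P : ℕ → ι → Prop)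
    {Gd : Finset (ι × ℕ)} (hG : Gd ⊆ B ×ˢ range K) {c : ℝ}
    (h : ∀ z ∈ Gd, c ≤ (((range Λ).filter fun r => r % K = z.2 ∧ P r z.1).card : ℝ)) :
    Gd.card * c ≤ (((range Λ ×ˢ B).filter fun z => P z.1 z.2).card : ℝ) := by
  have h1 := card_nsmul_le_sum _ _ _ h
  rw [nsmul_eq_mul] at h1
  refine h1.trans ((sum_le_sum_of_subset_of_nonneg hG fun _ _ _ => Nat.cast_nonneg _).trans
    (le_of_eq ?_))
  rw [sum_product, card_filter, sum_product_right, Nat.cast_sum]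
  refine sum_congr rfl fun b _ => ?_
  rw [← card_filter, card_eq_sum_card_fiberwise (f := fun r => r % K) (t := range K)
    fun r _ => mem_coe.2 (mem_range.2 (Nat.mod_lt _ hK)), Nat.cast_sum]
  refine sum_congr rfl fun r _ => ?_
  rw [filter_filter]
  simp only [and_comm]

theorem xLR4_mem {p : DP} {b : ℤ × ℤ} (hb : b ∈ p.SU ×ˢ p.SE) :
    p.K * (b.2 / p.K * b.1 ^ 2) = b.2 * b.1 ^ 2 ∧ (p.V : ℤ) ^ 2 ≤ b.1 ^ 2 ∧ 0 < b.1 ∧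
      p.K * |b.2 / p.K * b.1 ^ 2| = |b.2| * b.1 ^ 2 ∧
      |b.2| * b.1 ^ 2 ≤ 8 * p.M * (p.V : ℤ) ^ 2 := by
  obtain ⟨h1, h2⟩ := mem_product.1 hb
  obtain ⟨a1, a2, -⟩ := mem_cl.1 h1
  obtain ⟨a3, a4⟩ := mem_filter.1 h2
  obtain ⟨a5, a6⟩ := mem_Icc.1 a3
  have a0 : (0 : ℤ) ≤ p.V := Nat.cast_nonneg _
  have e : p.K * (b.2 / p.K * b.1 ^ 2) = b.2 * b.1 ^ 2 := by
    rw [← mul_assoc, Int.mul_ediv_cancel' a4]
  refine ⟨e, pow_le_pow_left₀ a0 a1.le 2, by omega, ?_, ?_⟩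
  · have := congrArg abs e
    rwa [abs_mul, Nat.abs_cast, abs_mul b.2, abs_sq] at this
  · calc |b.2| * b.1 ^ 2 ≤ (2 * p.M) * (2 * p.V) ^ 2 :=
          mul_le_mul (abs_le.2 ⟨by omega, a6⟩) (pow_le_pow_left₀ (by omega) a2 2) (sq_nonneg _)
            (by positivity)
      _ = _ := by ring

theorem xLR4_size {p : DP} {δ : ℝ} {C a q : ℕ} (h : p.Hyp δ C) (hC : a * 4 + 32 ≤ C) (hq : 1 ≤ q)
    (hq' : (q : ℝ) ≤ δ⁻¹) :
    10 ^ 7 * ((8 * p.M * p.V ^ 2 : ℕ) : ℝ) ^ 2 ≤ (δ ^ a) ^ 4 * p.N (2 * q * p.K ^ 7) := by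
  obtain ⟨s1, -, s3, s4, s5, s6⟩ := h.one.sizes
  obtain ⟨d0, d1, ok, -⟩ := h
  have t2 : 2 ≤ δ⁻¹ := by
    rw [le_inv_comm₀ two_pos d0]
    linarith
  have K1 : (1 : ℝ) ≤ p.K := by exact_mod_cast ok.pos
  have q1 : (1 : ℝ) ≤ q := by exact_mod_cast hq
  have ta : 1 ≤ δ⁻¹ ^ (a * 4) := one_le_pow₀ (by linarith)
  have h1 : 10 ^ 7 * 64 * (2 * q * (p.K : ℝ) ^ 7) * δ⁻¹ ^ (a * 4) ≤ p.V :=
    calc _ = (10 ^ 7 * 128) * q * (p.K : ℝ) ^ 7 * δ⁻¹ ^ (a * 4) := by ring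
      _ ≤ δ⁻¹ ^ 31 * δ⁻¹ * (p.K : ℝ) ^ 100 * δ⁻¹ ^ (a * 4) := by
        gcongr
        · exact le_trans (by norm_num) (pow_le_pow_left₀ zero_le_two t2 31)
        · norm_num
      _ = (p.K : ℝ) ^ 100 * δ⁻¹ ^ (a * 4 + 32) := by ring
      _ ≤ (p.K : ℝ) ^ 100 * δ⁻¹ ^ C := by gcongr; linarith
      _ ≤ _ := ok.hV
  have L0 : (0 : ℝ) < 2 * q * (p.K : ℝ) ^ 7 := by positivity
  have h2 : 2 * q * (p.K : ℝ) ^ 7 ≤ p.V := by nlinarith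
  have h3 : 2 * q * p.K ^ 7 ≤ p.X := le_trans (by exact_mod_cast h2) (s3.trans (s4.trans s5))
  have h4 := ((ok.mono (one_le_pow₀ (by linarith))).N_bd
    (Nat.mul_pos (Nat.mul_pos two_pos hq) (pow_pos ok.pos 7)) h3).1
  have V1 : 1 ≤ p.V := by
    have : (0 : ℝ) < p.V := L0.trans_le h2
    exact_mod_cast this
  have h5 : (p.M * p.V ^ 2) ^ 2 * p.V ≤ p.X :=
    calc _ = p.M ^ 2 * p.V ^ 4 * p.V := by ring
      _ ≤ p.M ^ 2 * p.M * p.M := by gcongr; exact ok.hM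
      _ = p.M ^ 3 * p.M := by ring
      _ ≤ p.M ^ 10 * p.M := by gcongr; exacts [V1.trans s3, by norm_num]
      _ ≤ p.Y * p.M := by gcongr; exact ok.hY
      _ ≤ _ := s6
  have h6 : ((p.M : ℝ) * p.V ^ 2) ^ 2 * p.V ≤ p.X := by exact_mod_cast h5
  refine le_trans ?_ (mul_le_mul_of_nonneg_left h4 (by positivity))
  push_cast
  rw [← mul_div_assoc, le_div_iff₀ L0, ← pow_mul]
  have h7 : δ ^ (a * 4) * δ⁻¹ ^ (a * 4) = 1 := by rw [← mul_pow, mul_inv_cancel₀ d0.ne', one_pow]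
  calc _ = δ ^ (a * 4) * (((p.M : ℝ) * p.V ^ 2) ^ 2 *
        (10 ^ 7 * 64 * (2 * q * (p.K : ℝ) ^ 7) * δ⁻¹ ^ (a * 4))) := by
        linear_combination (-(10 ^ 7 * (8 * (p.M : ℝ) * p.V ^ 2) ^ 2 * (2 * q * p.K ^ 7))) * h7
    _ ≤ δ ^ (a * 4) * (((p.M : ℝ) * p.V ^ 2) ^ 2 * p.V) := by gcongr
    _ ≤ δ ^ (a * 4) * (29 * p.X) :=
      mul_le_mul_of_nonneg_left (by linarith [Nat.cast_nonneg (α := ℝ) p.X]) (by positivity)

theorem LR4_pf (h1 : LR3) (h2 : LORT) (h3 : LGC2) : LR4 := by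
  obtain ⟨C1, h1⟩ := h1
  obtain ⟨C3, h3⟩ := h3
  refine ⟨(C1 + 2) * 11 * C3 + (C1 + 2) * 4 + 32, fun δ p f H q hp hf hH hq hq' hA => ?_⟩
  have d0 := hp.1
  have d1 := hp.2.1
  have d2 : δ ≤ 1 := by linarith
  have ok := hp.one
  obtain ⟨s1, s2, s3, -⟩ := ok.sizes
  have K0 : 0 < p.K := by omega
  have M0 : (0 : ℝ) < p.M := by exact_mod_cast (pow_pos K0 100).trans_le (s2.trans s3)
  obtain ⟨P, hP⟩ : ∃ P : ℕ → ℤ × ℤ → Prop, ∀ r b, P r b ↔ b.2 ≠ 0 ∧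
      CM (res f (2 * q * p.K ^ 7) r) (p.N (2 * q * p.K ^ 7)) (b.2 / p.K * b.1 ^ 2).natAbs
        (δ ^ C1) := ⟨_, fun _ _ => Iff.rfl⟩
  have a1 := xLR4_count (p.SU ×ˢ p.SE) (2 * q * p.K ^ 7) K0 P (filter_subset (fun z =>
      δ * p.M ≤ |(z.1.2 : ℝ)| ∧ p.P2 f (z.1.2 * z.1.1 ^ 2) z.2 q H δ) _)
    (c := δ ^ C1 * (2 * q * (p.K : ℝ) ^ 6)) fun z hz => by
      obtain ⟨b1, b2, b3⟩ := mem_filter.1 hz
      obtain ⟨b4, b5⟩ := mem_product.1 b1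
      obtain ⟨c1, c2, -, c4, c5⟩ := xLR4_mem b4
      have c6 : z.1.2 ≠ 0 := fun e => by
        rw [e, Int.cast_zero, abs_zero] at b2
        exact absurd b2 (not_le.2 (mul_pos d0 M0))
      refine (h1 δ p f H q z.2 (z.1.2 / p.K * z.1.1 ^ 2) (hp.of_le (a := 1) (pow_one δ).le le_rfl
        (by omega)) hf hH hq hq' (mem_range.1 b5) ?_ (c4.trans_le c5) (c1.symm ▸ b3)).trans ?_
      · have c7 : (p.K : ℝ) * |((z.1.2 / p.K * z.1.1 ^ 2 : ℤ) : ℝ)| = |(z.1.2 : ℝ)| * z.1.1 ^ 2 := by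
          exact_mod_cast c4
        rw [c7]
        exact mul_le_mul b2 (by exact_mod_cast c2) (by positivity) (abs_nonneg _)
      · exact Nat.cast_le.2 (card_le_card fun r hr =>
          mem_filter.2 ⟨(mem_filter.1 hr).1, (mem_filter.1 hr).2.1,
            (hP _ _).2 ⟨c6, (mem_filter.1 hr).2.2⟩⟩)
  have hB : (p.SU ×ˢ p.SE).Nonempty := ⟨(p.us, 0), mem_product.2 ⟨hp.2.2.2.1.2.2,
    mem_filter.2 ⟨mem_Icc.2 ⟨by omega, by omega⟩, dvd_zero _⟩⟩⟩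
  have a2 := pop2 (range (2 * q * p.K ^ 7)) (p.SU ×ˢ p.SE) P (δ := δ ^ (C1 + 1)) (by positivity)
    hB (by
      refine le_trans (le_of_eq ?_) ((mul_le_mul_of_nonneg_right hA (by positivity)).trans a1)
      rw [card_range]
      push_cast
      ring)
  have t1 : δ ^ (C1 + 2) ≤ δ ^ (C1 + 1) / 2 := by
    rw [pow_succ, div_eq_mul_one_div]
    gcongr
  have t2 : δ ^ (C1 + 2) ≤ 1 / 2 := (pow_le_of_le_one d0.le d2 (by omega)).trans d1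
  have t0 : 0 < δ ^ (C1 + 2) := by positivity
  have a3 := h3 _ p (hp.pow (a := (C1 + 2) * 11) (by omega) (by omega))
  have t3 : δ ^ ((C1 + 2) * 11) ≤ (δ ^ (C1 + 2)) ^ 4 / 100 := by
    rw [pow_mul, show 11 = 4 + 7 from rfl, pow_add, div_eq_mul_one_div]
    gcongr
    exact (pow_le_pow_left₀ t0.le t2 7).trans (by norm_num)
  have G1 : 1 ≤ (δ ^ ((C1 + 2) * 11))⁻¹ ^ C3 :=
    one_le_pow₀ ((one_le_inv₀ (by positivity)).2 (pow_le_one₀ d0.le d2))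
  have t4 : δ ^ ((C1 + 2) * 11 * C3 + (C1 + 2) * 4 + 32) ≤
      (δ ^ (C1 + 2)) ^ 2 / (1000 * (δ ^ ((C1 + 2) * 11))⁻¹ ^ C3) := by
    rw [inv_pow, ← pow_mul, ← pow_mul, ← div_eq_mul_inv, div_div_eq_mul_div, div_eq_mul_one_div,
      ← pow_add, pow_add _ _ 32]
    exact mul_le_mul (pow_le_pow_of_le_one d0.le d2 (by omega))
      ((pow_le_pow_left₀ d0.le d1 32).trans (by norm_num)) (by positivity) (by positivity)
  rw [card_range] at a2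
  push_cast at a2
  refine le_trans (mul_le_mul_of_nonneg_right ((pow_le_pow_of_le_one d0.le d2 (by omega)).trans t1)
    (by positivity)) (a2.trans (Nat.cast_le.2 (card_le_card fun r hr => ?_)))
  obtain ⟨b1, b2⟩ := mem_filter.1 hr
  refine mem_filter.2 ⟨b1, FC.mono (h2 _ (p.SU ×ˢ p.SE) ((p.SU ×ˢ p.SE).filter fun b => P r b)
    (fun b => (b.2 / p.K * b.1 ^ 2).natAbs) _ _ (8 * p.M * p.V ^ 2) (δ ^ (C1 + 2)) _ (fun m => ?_)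
    (filter_subset _ _) hB t0 (by linarith) G1
    ((mul_le_mul_of_nonneg_right t1 (Nat.cast_nonneg _)).trans b2) (fun b hb => ?_) ?_
    (xLR4_size hp (by omega) hq hq')) t4⟩
  · rw [res, Complex.norm_real]
    exact hf.1 _
  · obtain ⟨c0, c6⟩ := mem_filter.1 hb
    obtain ⟨c6, c7⟩ := (hP _ _).1 c6
    obtain ⟨c1, -, c3, c4, c5⟩ := xLR4_mem c0
    refine ⟨Int.natAbs_pos.2 fun e => ?_, ?_, c7.mono (pow_le_pow_of_le_one d0.le d2 (by omega))⟩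
    · rw [e, mul_zero] at c1
      exact mul_ne_zero c6 (pow_ne_zero 2 c3.ne') c1.symm
    · have c8 := (le_mul_of_one_le_left (abs_nonneg _) (by exact_mod_cast K0)).trans
        (c4.trans_le c5)
      rw [← Int.natCast_natAbs] at c8
      exact_mod_cast c8
  · refine le_trans (Nat.cast_le.2 (card_le_card fun z hz => ?_)) (a3.trans ?_)
    · obtain ⟨c1, c2⟩ := mem_filter.1 hz
      obtain ⟨c3, c4⟩ := mem_product.1 c1
      exact mem_filter.2 ⟨mem_product.2 ⟨(mem_filter.1 c3).1, (mem_filter.1 c4).1⟩,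
        ((hP _ _).1 (mem_filter.1 c3).2).1, ((hP _ _).1 (mem_filter.1 c4).2).1, c2⟩
    · rw [mul_div_right_comm]
      gcongr

end Pool.Agent.MP_e23604_nt.U

end
end

section

/-!
The inverse statement.
-/

open Finset
open scoped Classical

noncomputable section

namespace Pool.Agent.MP_e23604_nt.U

theorem xLDla_pow {δ : ℝ} (h0 : 0 < δ) (h1 : δ ≤ 1) (a C : ℕ) :
    δ ^ (a * (C + 1)) ≤ (δ ^ a) ^ C := by
  rw [← pow_mul]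
  exact pow_le_pow_of_le_one h0.le h1 (Nat.mul_le_mul_left a (Nat.le_succ C))

theorem xLDla_inv {δ : ℝ} (h0 : 0 < δ) (h1 : δ ≤ 1) (a C : ℕ) :
    (δ ^ a)⁻¹ ^ C ≤ (δ ^ (a * (C + 1)))⁻¹ := by
  rw [inv_pow]
  exact inv_anti₀ (by positivity) (xLDla_pow h0 h1 a C)

theorem xLDla_dual {p : DP} {δ : ℝ} (h0 : 0 < δ) (h1 : δ ≤ 1 / 2) (hok : p.OK 1) (hr : p.Rep)
    (w : Wts) (f : ℤ → ℝ) (hf : ∀ x, |f x| ≤ 1) (h : δ * (p.X * p.nW) ≤ |p.S w f|) :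
    δ ^ 8 * (p.X * p.nW) ≤ |p.S w (p.D w)| := by
  have hn : 0 < p.nW := by
    have a1 : 0 < p.SY.card := card_pos.mpr ⟨_, hr.1⟩
    have a2 : 0 < p.SM.card := card_pos.mpr ⟨_, hr.2.1⟩
    have a3 : 0 < p.SU.card := card_pos.mpr ⟨_, hr.2.2⟩
    unfold DP.nW
    positivity
  rw [DP.S_eq hok hr, abs_mul, abs_of_pos hn] at h ⊢
  have hX : (0 : ℝ) ≤ p.X := Nat.cast_nonneg _
  have h2 : δ * p.X ≤ |∑ x ∈ JJ (30 * p.X), f x * p.D w x| := by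
    refine le_of_mul_le_mul_left ?_ hn
    linarith
  have h3 := sum_mul_sq_le_sq_mul_sq (JJ (30 * p.X)) f (p.D w)
  have h4 : ∑ x ∈ JJ (30 * p.X), f x ^ 2 ≤ 60 * (p.X : ℝ) := by
    calc ∑ x ∈ JJ (30 * p.X), f x ^ 2 ≤ ∑ _x ∈ JJ (30 * p.X), (1 : ℝ) :=
          sum_le_sum fun x _ => by
            rw [← sq_abs]; exact pow_le_one₀ (abs_nonneg _) (hf x)
      _ = 60 * (p.X : ℝ) := by
          rw [sum_const, nsmul_eq_mul, mul_one, card_JJ]; push_cast; ring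
  obtain ⟨E, hE⟩ : ∃ E, E = ∑ x ∈ JJ (30 * p.X), p.D w x ^ 2 := ⟨_, rfl⟩
  have hE0 : 0 ≤ E := hE ▸ sum_nonneg fun _ _ => sq_nonneg _
  have e1 : ∑ x ∈ JJ (30 * p.X), p.D w x * p.D w x = E := by
    rw [hE]; exact sum_congr rfl fun x _ => (sq _).symm
  rw [e1, abs_of_nonneg hE0]
  rw [← hE] at h3
  have h5 : (δ * p.X) ^ 2 ≤ 60 * (p.X : ℝ) * E := by
    have := pow_le_pow_left₀ (by positivity) h2 2
    rw [sq_abs] at this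
    exact this.trans (h3.trans (mul_le_mul_of_nonneg_right h4 hE0))
  have h6 : δ ^ 6 ≤ 1 / 64 := by
    calc δ ^ 6 ≤ (1 / 2) ^ 6 := pow_le_pow_left₀ h0.le h1 6
      _ = 1 / 64 := by norm_num
  have h7 : δ ^ 8 * p.X ≤ E := by
    rcases hX.eq_or_lt with hz | hz
    · rw [← hz, mul_zero]; exact hE0
    · have h8 : δ ^ 2 * p.X ≤ 60 * E := by
        refine le_of_mul_le_mul_left ?_ hz
        nlinarith
      have h9 : δ ^ 8 * p.X = δ ^ 6 * (δ ^ 2 * p.X) := by ring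
      rw [h9]
      calc δ ^ 6 * (δ ^ 2 * p.X) ≤ 1 / 64 * (60 * E) :=
            mul_le_mul h6 h8 (by positivity) (by norm_num)
        _ ≤ E := by linarith
  calc δ ^ 8 * (p.X * p.nW) = p.nW * (δ ^ 8 * p.X) := by ring
    _ ≤ p.nW * E := mul_le_mul_of_nonneg_left h7 hn.le

theorem LDLA_pf (h1 : LR1a) (h2 : LR1b) (h3 : LR2) (h4 : LR4) (h5 : LR5) : LDLA := by
  obtain ⟨C1, h1⟩ := h1
  obtain ⟨C2, h2⟩ := h2
  obtain ⟨C3, h3⟩ := h3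
  obtain ⟨C4, h4⟩ := h4
  obtain ⟨C5, h5⟩ := h5
  obtain ⟨a1, e1⟩ : ∃ a, a = 8 * (C1 + 1) := ⟨_, rfl⟩
  obtain ⟨a2, e2⟩ : ∃ a, a = a1 * (C2 + 1) := ⟨_, rfl⟩
  obtain ⟨a3, e3⟩ : ∃ a, a = a2 * (C3 + 1) := ⟨_, rfl⟩
  obtain ⟨a4, e4⟩ : ∃ a, a = a3 * (C4 + 1) := ⟨_, rfl⟩
  obtain ⟨a5, e5⟩ : ∃ a, a = a4 * (C5 + 1) := ⟨_, rfl⟩
  have k1 : 8 * C1 + 8 = a1 := by rw [e1]; ring
  have k2 : a1 * C2 + a1 = a2 := by rw [e2]; ring
  have k3 : a2 * C3 + a2 = a3 := by rw [e3]; ring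
  have k4 : a3 * C4 + a3 = a4 := by rw [e4]; ring
  have k5 : a4 * C5 + a4 = a5 := by rw [e5]; ring
  refine ⟨a5, fun δ p w f hp hf h => ?_⟩
  have h0 : 0 < δ := hp.1
  have hh : δ ≤ 1 / 2 := hp.2.1
  have h1' : δ ≤ 1 := by linarith
  have hok := hp.one
  have hr : p.Rep := hp.2.2.2.1
  have hb := DP.D_bd hok hr w
  obtain ⟨H, hH, hA1⟩ := h1 (δ ^ 8) p w (p.D w) (hp.pow (by norm_num) (by omega)) hb
    (xLDla_dual h0 hh hok hr w f hf h)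
  have m1 : δ ^ a1 ≤ (δ ^ 8) ^ C1 := e1 ▸ xLDla_pow h0 h1' 8 C1
  have m2 : δ ^ a2 ≤ (δ ^ a1) ^ C2 := e2 ▸ xLDla_pow h0 h1' a1 C2
  have m3 : δ ^ a3 ≤ (δ ^ a2) ^ C3 := e3 ▸ xLDla_pow h0 h1' a2 C3
  have m4 : δ ^ a4 ≤ (δ ^ a3) ^ C4 := e4 ▸ xLDla_pow h0 h1' a3 C4
  have m5 : δ ^ a5 ≤ (δ ^ a4) ^ C5 := e5 ▸ xLDla_pow h0 h1' a4 C5
  have d2 : δ ^ a2 ≤ δ ^ a1 := pow_le_pow_of_le_one h0.le h1' (by omega)
  have d3 : δ ^ a3 ≤ δ ^ a2 := pow_le_pow_of_le_one h0.le h1' (by omega)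
  have d4 : δ ^ a4 ≤ δ ^ a3 := pow_le_pow_of_le_one h0.le h1' (by omega)
  have hA2 := h2 (δ ^ a1) p (p.D w) H (hp.pow (by omega) (by omega)) hb (hA1.mono m1)
  obtain ⟨q, hq1, hq, hA3⟩ := h3 (δ ^ a2) p w H (hp.pow (by omega) (by omega))
    (hH.mono (d2.trans m1)) (hA2.mono m2)
  have hq3 : (q : ℝ) ≤ (δ ^ a3)⁻¹ := hq.trans (e3 ▸ xLDla_inv h0 h1' a2 C3)
  have hA4 := h4 (δ ^ a3) p (p.D w) H q (hp.pow (by omega) (by omega)) hb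
    (hH.mono (d3.trans (d2.trans m1))) hq1 hq3 (hA3.mono m3)
  have hA5 := h5 (δ ^ a4) p w q (hp.pow (by omega) (by omega)) hq1
    (hq3.trans (inv_anti₀ (by positivity) d4)) (hA4.mono m4)
  exact hA5.mono (by positivity) m5

end Pool.Agent.MP_e23604_nt.U

end
end
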