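import Pool.Agent.Mg.Fe23604m.G954648

set_option linter.all false

section

/-!
Almost orthogonality of coset projections.
-/

open Finset
open scoped Classical

noncomputable section

namespace Pool.Agent.MP_e23604_nt.U

theorem xLOrt_fib (s : Finset ℤ) {D : ℕ} (hD : 1 ≤ D) (F : ℤ → ℂ) :
    ∑ m ∈ s, F m = ∑ r ∈ range D, ∑ m ∈ s.filter (fun m => m % (D : ℤ) = r), F m := by
  have hD' : (0 : ℤ) < D := by exact_mod_cast hD
  rw [← sum_fiberwise_of_maps_to (s := s) (t := range D) (g := fun m => (m % (D : ℤ)).toNat)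
    (fun m _ => by
      have := Int.emod_lt_of_pos m hD'
      have := Int.emod_nonneg m hD'.ne'
      rw [mem_range]; omega)]
  refine sum_congr rfl fun r _ => sum_congr (filter_congr fun m _ => ?_) fun _ _ => rfl
  have := Int.emod_nonneg m hD'.ne'
  omega

theorem xLOrt_cs {ι : Type} (s : Finset ℤ) (t : Finset ι) (g : ℤ → ℂ) (b : ι → ℤ → ℂ) (T : ℝ)
    (hg : ∀ m, ‖g m‖ ≤ 1) (hT : 0 ≤ T) (h : ∀ π ∈ t, T ≤ (∑ m ∈ s, g m * b π m).re) :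
    (T * t.card) ^ 2 ≤ s.card * ∑ π ∈ t, ∑ π' ∈ t,
      ‖∑ m ∈ s, (starRingEnd ℂ) (b π m) * b π' m‖ := by
  have h1 : T * t.card ≤ ∑ m ∈ s, ‖∑ π ∈ t, b π m‖ := by
    calc T * t.card = ∑ _π ∈ t, T := by rw [sum_const, nsmul_eq_mul, mul_comm]
      _ ≤ ∑ π ∈ t, (∑ m ∈ s, g m * b π m).re := sum_le_sum h
      _ = (∑ m ∈ s, g m * ∑ π ∈ t, b π m).re := by
        rw [← Complex.re_sum, sum_comm]
        simp only [mul_sum]
      _ ≤ ‖∑ m ∈ s, g m * ∑ π ∈ t, b π m‖ := Complex.re_le_norm _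
      _ ≤ ∑ m ∈ s, ‖g m * ∑ π ∈ t, b π m‖ := norm_sum_le _ _
      _ ≤ _ := sum_le_sum fun m _ => by
        rw [norm_mul]
        exact mul_le_of_le_one_left (norm_nonneg _) (hg m)
  have h2 : ∑ m ∈ s, ‖∑ π ∈ t, b π m‖ ^ 2 ≤ ∑ π ∈ t, ∑ π' ∈ t,
      ‖∑ m ∈ s, (starRingEnd ℂ) (b π m) * b π' m‖ := by
    have e : ((∑ m ∈ s, ‖∑ π ∈ t, b π m‖ ^ 2 : ℝ) : ℂ) =
        ∑ π ∈ t, ∑ π' ∈ t, ∑ m ∈ s, (starRingEnd ℂ) (b π m) * b π' m := by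
      push_cast
      simp only [← Complex.conj_mul', map_sum, sum_mul_sum]
      rw [sum_comm]
      exact sum_congr rfl fun π _ => sum_comm
    calc _ ≤ ‖((∑ m ∈ s, ‖∑ π ∈ t, b π m‖ ^ 2 : ℝ) : ℂ)‖ := by
          rw [Complex.norm_real]; exact le_abs_self _
      _ ≤ _ := by
          rw [e]
          exact (norm_sum_le _ _).trans (sum_le_sum fun π _ => norm_sum_le _ _)
  calc (T * t.card) ^ 2 ≤ (∑ m ∈ s, ‖∑ π ∈ t, b π m‖) ^ 2 :=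
        pow_le_pow_left₀ (by positivity) h1 2
    _ ≤ s.card * ∑ m ∈ s, ‖∑ π ∈ t, b π m‖ ^ 2 := sq_sum_le_card_mul_sum_sq
    _ ≤ _ := mul_le_mul_of_nonneg_left h2 (Nat.cast_nonneg _)

/-- The sum over one class. -/
def xLOrt_c (g : ℤ → ℂ) (N D : ℕ) (ξ : ℝ) (r : ℤ) : ℂ :=
  ∑ m ∈ (JJ N).filter (fun m => m % (D : ℤ) = r), g m * ee (ξ * m)

/-- The projection. -/
def xLOrt_a (g : ℤ → ℂ) (N D : ℕ) (ξ : ℝ) (m : ℤ) : ℂ :=
  ((D / N : ℝ) : ℂ) * xLOrt_c g N D ξ (m % D)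

theorem xLOrt_per (g : ℤ → ℂ) (N D : ℕ) (ξ : ℝ) (m : ℤ) :
    xLOrt_a g N D ξ (m + D) = xLOrt_a g N D ξ m := by
  rw [xLOrt_a, xLOrt_a, Int.add_emod_right]

theorem xLOrt_bd {g : ℤ → ℂ} (hg : ∀ m, ‖g m‖ ≤ 1) {N D : ℕ} (hD : 1 ≤ D) (hN : D ≤ N) (ξ : ℝ)
    (m : ℤ) : ‖xLOrt_a g N D ξ m‖ ≤ 3 := by
  have d0 : (0 : ℝ) < D := by exact_mod_cast hD
  have dn : (D : ℝ) ≤ N := by exact_mod_cast hN
  have n0 : (0 : ℝ) < N := d0.trans_le dn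
  have h1 : ‖xLOrt_c g N D ξ (m % D)‖ ≤ 2 * N / D + 1 := by
    have h2 := card_class_le (-(N : ℤ)) N (m % D) (by omega) hD
    push_cast at h2
    refine (norm_sum_le _ _).trans ((sum_le_card_nsmul _ _ 1 fun x _ => ?_).trans ?_)
    · rw [norm_mul, norm_ee, mul_one]; exact hg x
    · rw [nsmul_eq_mul, mul_one, show 2 * (N : ℝ) = N - -N by ring]
      exact h2
  rw [xLOrt_a, norm_mul, Complex.norm_real, Real.norm_of_nonneg (by positivity)]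
  refine (mul_le_mul_of_nonneg_left h1 (by positivity)).trans ?_
  have e : (D : ℝ) / N * (2 * N / D + 1) = 2 + D / N := by field_simp
  have : (D : ℝ) / N ≤ 1 := (div_le_one n0).2 dn
  linarith

theorem xLOrt_ip (g : ℤ → ℂ) (N : ℕ) {D : ℕ} (hD : 1 ≤ D) (ξ : ℝ) :
    ∑ m ∈ JJ N, g m * (ee (ξ * m) * (starRingEnd ℂ) (xLOrt_a g N D ξ m)) =
      ((D / N * cm g N D ξ : ℝ) : ℂ) := by
  rw [xLOrt_fib _ hD, cm, mul_sum]
  push_cast
  refine sum_congr rfl fun r _ => ?_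
  rw [← Complex.mul_conj']
  conv_rhs => rw [sum_mul, mul_sum]
  refine sum_congr rfl fun m hm => ?_
  rw [xLOrt_a, (mem_filter.1 hm).2, map_mul, Complex.conj_ofReal, xLOrt_c]
  push_cast
  ring

theorem xLOrt_cl (g : ℤ → ℂ) (N : ℕ) {D γ : ℕ} (hD : 1 ≤ D) (hγ : γ ∣ D) (ξ B : ℝ) (j : ℤ)
    (ρ0 : ℕ) (hB : ∀ η : ℝ, ‖∑ m ∈ JJ N, g m * ee (η * m)‖ ≤ B) :
    ‖∑ r ∈ (range D).filter (fun r => r % γ = ρ0), xLOrt_c g N D ξ r * ee (j * r / D)‖ ≤ B := by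
  have g1 : 1 ≤ γ := Nat.pos_of_dvd_of_pos hγ hD
  have g0 : (0 : ℝ) < γ := by exact_mod_cast g1
  have d0 : (0 : ℝ) < D := by exact_mod_cast hD
  by_cases hρ : ρ0 < γ
  swap
  · rw [filter_false_of_mem (p := fun r => r % γ = ρ0) fun r _ h => hρ (h ▸ Nat.mod_lt r g1),
      sum_empty, norm_zero]
    exact (norm_nonneg _).trans (hB 0)
  have key : (γ : ℂ) * ∑ r ∈ (range D).filter (fun r => r % γ = ρ0),
      xLOrt_c g N D ξ r * ee (j * r / D) =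
      ∑ i ∈ range γ, ee (-(i * ρ0 / γ)) * ∑ m ∈ JJ N, g m * ee ((ξ + j / D + i / γ) * m) := by
    have e1 : ∑ i ∈ range γ, ee (-(i * ρ0 / γ)) * ∑ m ∈ JJ N, g m * ee ((ξ + j / D + i / γ) * m) =
        ∑ m ∈ JJ N, g m * ee (ξ * m) * ee (j * m / D) *
          (if (γ : ℤ) ∣ m - ρ0 then (γ : ℂ) else 0) := by
      simp only [mul_sum]
      rw [sum_comm]
      refine sum_congr rfl fun m _ => ?_
      rw [← ee_orth g1, mul_sum]
      refine sum_congr rfl fun i _ => ?_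
      have : ee ((ξ + j / D + i / γ) * m) * ee (-(i * ρ0 / γ)) =
          ee (ξ * m) * ee (j * m / D) * ee (i * ((m - ρ0 : ℤ) : ℝ) / γ) := by
        rw [← ee_add, ← ee_add, ← ee_add]
        congr 1
        push_cast
        ring
      linear_combination g m * this
    rw [e1, xLOrt_fib _ hD, sum_filter, mul_sum]
    refine sum_congr rfl fun r _ => ?_
    have h1 : ∀ m : ℤ, m % D = r → ((γ : ℤ) ∣ m - ρ0 ↔ r % γ = ρ0) := fun m hm => by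
      have a1 : m % γ = (r % γ : ℕ) := by
        rw [← Int.emod_emod_of_dvd m (Int.natCast_dvd_natCast.2 hγ), hm]; push_cast; rfl
      have a2 : (ρ0 : ℤ) % γ = ρ0 := Int.emod_eq_of_lt (by omega) (by omega)
      rw [← Int.modEq_iff_dvd, Int.ModEq, a1, a2]
      omega
    have h2 : ∀ m : ℤ, m % D = r → ee (j * m / D) = ee (j * r / D) := fun m hm => by
      have a1 : (m : ℝ) = r + D * (m / D : ℤ) := by
        have := Int.emod_add_mul_ediv m D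
        rw [hm] at this
        exact_mod_cast this.symm
      have a2 : (j : ℝ) * m / D = j * r / D + ((j * (m / D) : ℤ) : ℝ) := by
        rw [Int.cast_mul]
        field_simp
        linear_combination (j : ℝ) * a1
      rw [a2, ee_add, ee_int, mul_one]
    split_ifs with hr
    · rw [xLOrt_c, sum_mul, mul_sum]
      refine sum_congr rfl fun m hm => ?_
      have hm' := (mem_filter.1 hm).2
      rw [if_pos ((h1 m hm').2 hr), h2 m hm']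
      ring
    · rw [mul_zero]
      refine (sum_eq_zero fun m hm => ?_).symm
      rw [if_neg fun h => hr ((h1 m (mem_filter.1 hm).2).1 h), mul_zero]
  have h3 := congrArg norm key
  rw [norm_mul, Complex.norm_natCast] at h3
  refine le_of_mul_le_mul_left (h3.le.trans ?_) g0
  refine (norm_sum_le _ _).trans ((sum_le_card_nsmul _ _ B fun i _ => ?_).trans ?_)
  · rw [norm_mul, norm_ee, one_mul]; exact hB _
  · rw [card_range, nsmul_eq_mul]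

theorem LORT_pf (h2 : LOR2) : LORT := by
  intro ι P P' D g N Dm τ G hg _ hP τ0 τ1 G1 hcard hD hbad hN
  by_contra hc
  have hB : ∀ η : ℝ, ‖∑ m ∈ JJ N, g m * ee (η * m)‖ ≤ τ ^ 2 / (1000 * G) * N := fun η =>
    le_of_not_ge fun h => hc ⟨η, h⟩
  have p0 : (0 : ℝ) < P.card := by exact_mod_cast hP.card_pos
  have n0 : (0 : ℝ) < P'.card := (mul_pos τ0 p0).trans_le hcard
  obtain ⟨π₀, h₀⟩ : P'.Nonempty := card_pos.1 (by exact_mod_cast n0)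
  have m1 : (1 : ℝ) ≤ Dm := by exact_mod_cast (hD π₀ h₀).1.trans (hD π₀ h₀).2.1
  have t4 : τ ^ 4 ≤ 1 := pow_le_one₀ τ0.le τ1
  have t2 : τ ^ 2 ≤ 1 := pow_le_one₀ τ0.le τ1
  have mN : (Dm : ℝ) ≤ N := by nlinarith [Nat.cast_nonneg (α := ℝ) N]
  have mN' : Dm ≤ N := by exact_mod_cast mN
  have N0 : (0 : ℝ) < N := by linarith
  have hx : ∀ π, ∃ ξ : ℝ, π ∈ P' → τ * (N : ℝ) ^ 2 / D π ≤ cm g N (D π) ξ := fun π => by
    by_cases h : π ∈ P'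
    · exact (hD π h).2.2.imp fun ξ hξ _ => hξ
    · exact ⟨0, fun h' => absurd h' h⟩
  choose ξ hξ using hx
  set a : ι → ℤ → ℂ := fun π => xLOrt_a g N (D π) (ξ π) with ha
  have a3 : ∀ π ∈ P', ∀ m, ‖a π m‖ ≤ 3 := fun π h m =>
    xLOrt_bd hg (hD π h).1 ((hD π h).2.1.trans mN') _ m
  have h3 := xLOrt_cs (JJ N) P' g (fun π m => ee (ξ π * m) * (starRingEnd ℂ) (a π m)) (τ * N) hg
    (by positivity) fun π h => by
      have d0 : (0 : ℝ) < D π := by exact_mod_cast (hD π h).1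
      rw [ha, xLOrt_ip g N (hD π h).1, Complex.ofReal_re]
      refine le_trans (le_of_eq ?_) (mul_le_mul_of_nonneg_left (hξ π h) (by positivity))
      field_simp
  have e1 : ∀ π π' (m : ℤ), (starRingEnd ℂ) (ee (ξ π * m) * (starRingEnd ℂ) (a π m)) *
      (ee (ξ π' * m) * (starRingEnd ℂ) (a π' m)) =
      a π m * (starRingEnd ℂ) (a π' m) * ee ((ξ π' - ξ π) * m) := fun π π' m => by
    rw [map_mul, conj_ee, Complex.conj_conj, show (ξ π' - ξ π) * m = -(ξ π * m) + ξ π' * m by ring,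
      ee_add]
    ring
  simp only [e1] at h3
  have h4 : ∀ π ∈ P', ∀ π' ∈ P',
      ‖∑ m ∈ JJ N, a π m * (starRingEnd ℂ) (a π' m) * ee ((ξ π' - ξ π) * m)‖ ≤
        3 / 10 * τ ^ 2 * N + if G < (Nat.gcd (D π) (D π') : ℝ) then 18 * (N : ℝ) else 0 := by
    intro π h π' h'
    split_ifs with hG
    · refine le_add_of_nonneg_of_le (by positivity) ?_
      refine (norm_sum_le _ _).trans ((sum_le_card_nsmul _ _ 9 fun m _ => ?_).trans ?_)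
      · rw [norm_mul, norm_mul, norm_ee, mul_one, Complex.norm_conj]
        nlinarith [a3 π h m, a3 π' h' m, norm_nonneg (a π m), norm_nonneg (a π' m)]
      · rw [nsmul_eq_mul, card_JJ]; linarith
    · rw [add_zero]
      refine le_of_not_ge fun hle => ?_
      have d1 := (hD π h).1
      have d0 : (0 : ℝ) < D π := by exact_mod_cast d1
      have b1 : (D π : ℝ) ≤ Dm := by exact_mod_cast (hD π h).2.1
      have b2 : (D π' : ℝ) ≤ Dm := by exact_mod_cast (hD π' h').2.1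
      have b3 : (D π : ℝ) * D π' ≤ Dm * Dm := mul_le_mul b1 b2 (Nat.cast_nonneg _) (by linarith)
      obtain ⟨j, ρ0, hj⟩ := h2 (D π) (D π') N (a π) (a π') _ (3 / 10 * τ ^ 2) d1 (hD π' h').1
        (xLOrt_per _ _ _ _) (xLOrt_per _ _ _ _) (a3 π h) (a3 π' h') (by positivity) (by linarith)
        (by nlinarith) hle
      have e2 : ∑ r ∈ (range (D π)).filter (fun r => r % Nat.gcd (D π) (D π') = ρ0),
          a π r * ee (j * r / D π) = ((D π / N : ℝ) : ℂ) *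
          ∑ r ∈ (range (D π)).filter (fun r => r % Nat.gcd (D π) (D π') = ρ0),
            xLOrt_c g N (D π) (ξ π) r * ee (j * r / D π) := by
        rw [mul_sum]
        refine sum_congr rfl fun r hr => ?_
        have := mem_range.1 (mem_filter.1 hr).1
        simp only [ha, xLOrt_a]
        rw [Int.emod_eq_of_lt (by omega) (by omega), mul_assoc]
      rw [e2, norm_mul, Complex.norm_real, Real.norm_of_nonneg (by positivity)] at hj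
      have h5 := hj.trans (mul_le_mul_of_nonneg_left
        (xLOrt_cl g N d1 (Nat.gcd_dvd_left _ _) _ _ j ρ0 hB) (by positivity))
      have g0 : (0 : ℝ) < Nat.gcd (D π) (D π') := by
        exact_mod_cast Nat.gcd_pos_of_pos_left _ d1
      have e3 : (D π : ℝ) / N * (τ ^ 2 / (1000 * G) * N) = τ ^ 2 * D π / (1000 * G) := by
        field_simp
      rw [e3, div_le_div_iff₀ (by positivity) (by positivity)] at h5
      have : 0 < τ ^ 2 * D π := by positivity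
      nlinarith [mul_le_mul_of_nonneg_left (not_lt.1 hG) this.le]
  have h6 : ∑ π ∈ P', ∑ π' ∈ P', (if G < (Nat.gcd (D π) (D π') : ℝ) then 18 * (N : ℝ) else 0) ≤
      18 * N * (τ ^ 2 * (P'.card : ℝ) ^ 2 / 100) := by
    rw [← sum_product', ← sum_filter, sum_const, nsmul_eq_mul, mul_comm]
    refine mul_le_mul_of_nonneg_left (hbad.trans ?_) (by positivity)
    have := mul_le_mul_of_nonneg_left (pow_le_pow_left₀ (by positivity) hcard 2) (sq_nonneg τ)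
    linarith [show τ ^ 2 * (τ * P.card) ^ 2 = τ ^ 4 * (P.card : ℝ) ^ 2 by ring]
  have h7 := sum_le_sum fun π h => sum_le_sum (h4 π h)
  simp only [sum_add_distrib, sum_const, nsmul_eq_mul] at h7
  rw [card_JJ] at h3
  have h8 := h3.trans (mul_le_mul_of_nonneg_left (h7.trans (add_le_add le_rfl h6)) (by positivity))
  have : 0 < τ ^ 2 * (N : ℝ) ^ 2 * (P'.card : ℝ) ^ 2 := by positivity
  nlinarith

end Pool.Agent.MP_e23604_nt.U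

end
end

section

/-!
Major arcs for the dual function.
-/

open Finset
open scoped Classical

noncomputable section

namespace Pool.Agent.MP_e23604_nt.U

theorem xLMaj_pig (a b r : ℤ) {K Λ : ℕ} (hK : 1 ≤ K) (hΛ : 1 ≤ Λ) (f : ℤ → ℂ) {B : ℝ}
    (h : B ≤ ‖∑ x ∈ cl a b K r, f x‖) :
    ∃ i : ℕ, B / Λ ≤ ‖∑ x ∈ cl a b (K * Λ) (r + K * i), f x‖ := by
  rw [sum_cl_split a b r hK hΛ] at h
  have hΛ0 : (0 : ℝ) < Λ := by exact_mod_cast hΛ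
  have h2 : ∑ _i ∈ range Λ, B / Λ ≤
      ∑ i ∈ range Λ, ‖∑ x ∈ cl a b (K * Λ) (r + K * (i : ℕ)), f x‖ := by
    rw [sum_const, card_range, nsmul_eq_mul, mul_div_cancel₀ _ hΛ0.ne']
    exact h.trans (norm_sum_le _ _)
  obtain ⟨i, -, hi⟩ := exists_le_of_sum_le (nonempty_range_iff.2 (by omega)) h2
  exact ⟨i, hi⟩

theorem xLMaj_sub {a b r x : ℤ} {K Λ i : ℕ} (h : x ∈ cl a b (K * Λ) (r + K * i)) :
    x ∈ cl a b K r := by
  obtain ⟨h1, h2, t, ht⟩ := mem_cl.1 h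
  refine mem_cl.2 ⟨h1, h2, Λ * t + i, ?_⟩
  push_cast at ht
  linear_combination ht

theorem xLMaj_comm {M : Type} [AddCommMonoid M] (s a b c : Finset ℤ) (f : ℤ → ℤ → ℤ → ℤ → M) :
    ∑ m ∈ s, ∑ y ∈ a, ∑ μ ∈ b, ∑ u ∈ c, f m y μ u =
      ∑ y ∈ a, ∑ μ ∈ b, ∑ u ∈ c, ∑ m ∈ s, f m y μ u := by
  rw [sum_comm]
  refine sum_congr rfl fun y _ => ?_
  rw [sum_comm]
  exact sum_congr rfl fun μ _ => sum_comm

theorem xLMaj_T {p : DP} (hK : 1 ≤ p.K) {Λ i1 i2 i3 : ℕ} {y μ u a b c d e f : ℤ}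
    (hy : y ∈ cl a b (p.K * Λ) (p.ys + p.K * i1)) (hμ : μ ∈ cl c d (p.K * Λ) (p.ms + p.K * i2))
    (hu : u ∈ cl e f (p.K * Λ) (p.us + p.K * i3)) :
    (Λ : ℤ) ∣ p.T y μ u - p.T (p.ys + p.K * i1) (p.ms + p.K * i2) (p.us + p.K * i3) := by
  have h1 := DP.T_mul (mem_cl.1 (xLMaj_sub hy)).2.2 (mem_cl.1 (xLMaj_sub hμ)).2.2
    (mem_cl.1 (xLMaj_sub hu)).2.2
  have h2 := DP.T_mul (p := p) (y := p.ys + p.K * i1) (μ := p.ms + p.K * i2)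
    (u := p.us + p.K * i3) ⟨i1, by ring⟩ ⟨i2, by ring⟩ ⟨i3, by ring⟩
  have hK0 : (p.K : ℤ) ≠ 0 := by exact_mod_cast (by omega : p.K ≠ 0)
  have h3 := ((Int.modEq_iff_dvd.2 (mem_cl.1 hy).2.2).mul
    (Int.modEq_iff_dvd.2 (mem_cl.1 hμ).2.2)).mul ((Int.modEq_iff_dvd.2 (mem_cl.1 hu).2.2).pow 2)
  refine (mul_dvd_mul_iff_left hK0).1 ?_
  have h4 := h3.dvd
  push_cast at h4
  rw [mul_sub, h1, h2, sub_sub_sub_cancel_right]
  exact h4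

theorem xLMaj_inner {p : DP} (hp : p.OK 1) (hr : p.Rep) (w : Wts) {Λ : ℕ} (hΛ : 1 ≤ Λ)
    (hΛX : Λ ≤ p.X) {r : ℤ} (hr2 : |r| ≤ 2 * (p.X : ℤ)) (α : ℝ) {T0 y μ u : ℤ} (hy : y ∈ p.SY)
    (hμ : μ ∈ p.SM) (hu : u ∈ p.SU) (hT : (Λ : ℤ) ∣ p.T y μ u - T0) :
    ∑ m ∈ JJ (p.N Λ), ((p.gw w (r + Λ * m) y μ u : ℝ) : ℂ) * ee (α * m) =
      ∑ x ∈ p.SX.filter fun x => (Λ : ℤ) ∣ x - r - T0,
        (w.G1 x y μ : ℂ) * ee (α * (((x : ℝ) - r) / Λ +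
          ((p.ys * p.ms * p.us ^ 2 : ℤ) : ℝ) / (p.K * Λ : ℕ))) * (w.G2 x y u : ℂ) *
          (w.H μ u : ℂ) * ee (-α * ((y * μ * u ^ 2 : ℤ) : ℝ) / (p.K * Λ : ℕ)) := by
  have hΛ0 : (Λ : ℤ) ≠ 0 := by exact_mod_cast (by omega : Λ ≠ 0)
  have hΛr : (0 : ℝ) < Λ := by exact_mod_cast hΛ
  have hKr : (0 : ℝ) < p.K := by exact_mod_cast hp.pos
  have hXr : (0 : ℝ) < p.X := by exact_mod_cast hΛ.trans hΛX
  have hTb := abs_le.1 (DP.T_bd hp hr hy hμ hu)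
  have hTm : (p.K : ℝ) * (p.T y μ u : ℤ) =
      ((y * μ * u ^ 2 : ℤ) : ℝ) - ((p.ys * p.ms * p.us ^ 2 : ℤ) : ℝ) := by
    exact_mod_cast DP.T_mul (mem_cl.1 hy).2.2 (mem_cl.1 hμ).2.2 (mem_cl.1 hu).2.2
  have hN := (hp.N_bd hΛ hΛX).1
  have e1 : ∑ m ∈ JJ (p.N Λ), ((p.gw w (r + Λ * m) y μ u : ℝ) : ℂ) * ee (α * m) =
      ∑ m ∈ (JJ (p.N Λ)).filter fun m => r + Λ * m + p.T y μ u ∈ p.SX,
        ((w.G1 (r + Λ * m + p.T y μ u) y μ * w.G2 (r + Λ * m + p.T y μ u) y u * w.H μ u : ℝ) : ℂ) *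
          ee (α * m) := by
    rw [sum_filter]
    refine sum_congr rfl fun m _ => ?_
    unfold DP.gw
    split_ifs <;> simp
  rw [e1]
  refine sum_bij (fun m _ => r + Λ * m + p.T y μ u) (fun m hm => ?_) (fun m _ m' _ h => ?_)
    (fun x hx => ?_) fun m _ => ?_
  · refine mem_filter.2 ⟨(mem_filter.1 hm).2, ?_⟩
    have : r + Λ * m + p.T y μ u - r - T0 = Λ * m + (p.T y μ u - T0) := by ring
    rw [this]
    exact dvd_add (dvd_mul_right _ _) hT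
  · exact mul_left_cancel₀ hΛ0 (by linear_combination h)
  · obtain ⟨hx1, hx2⟩ := mem_filter.1 hx
    obtain ⟨m, hm⟩ : (Λ : ℤ) ∣ x - r - p.T y μ u := by
      have : x - r - p.T y μ u = (x - r - T0) - (p.T y μ u - T0) := by ring
      rw [this]
      exact dvd_sub hx2 hT
    have hx3 := mem_Ioc.1 hx1
    have hx4 := abs_le.1 hr2
    have e : r + Λ * m + p.T y μ u = x := by linear_combination -hm
    refine ⟨m, mem_filter.2 ⟨?_, e ▸ hx1⟩, e⟩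
    have h1 : |(Λ : ℤ) * m| ≤ 26 * p.X := by
      rw [← hm, abs_le]
      constructor <;> omega
    have h2 : (Λ : ℝ) * |(m : ℝ)| ≤ 26 * p.X := by
      rw [abs_mul, Nat.abs_cast] at h1
      exact_mod_cast h1
    have h3 : |(m : ℝ)| < p.N Λ := by
      rw [div_le_iff₀ hΛr] at hN
      refine lt_of_mul_lt_mul_left ?_ hΛr.le
      linarith
    have h4 : |m| < (p.N Λ : ℤ) := by exact_mod_cast h3
    have h5 := abs_lt.1 h4
    exact mem_Ico.2 ⟨h5.1.le, h5.2⟩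
  · have e : α * m = α * ((((r + Λ * m + p.T y μ u : ℤ) : ℝ) - r) / Λ +
        ((p.ys * p.ms * p.us ^ 2 : ℤ) : ℝ) / (p.K * Λ : ℕ)) +
        -α * ((y * μ * u ^ 2 : ℤ) : ℝ) / (p.K * Λ : ℕ) := by
      have : ((y * μ * u ^ 2 : ℤ) : ℝ) =
        p.K * (p.T y μ u : ℤ) + ((p.ys * p.ms * p.us ^ 2 : ℤ) : ℝ) := by linarith
      rw [this]
      generalize ((p.ys * p.ms * p.us ^ 2 : ℤ) : ℝ) = c
      push_cast
      field_simp
      ring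
    rw [e, ee_add]
    push_cast
    ring

theorem xLMaj_img (r t0 : ℤ) (n : ℕ) {A : ℕ} (hA : 1 ≤ A) (f : ℤ → ℂ) :
    ∑ x ∈ (Ico t0 (t0 + n)).image (fun t => r + A * t), f x =
      ∑ t ∈ Ico t0 (t0 + n), f (r + A * t) := by
  have hA0 : (A : ℤ) ≠ 0 := by exact_mod_cast (by omega : A ≠ 0)
  exact sum_image fun a _ b _ h => mul_left_cancel₀ hA0 (by linear_combination h)

theorem xLMaj_n1 {η N c y m v n1 n2 n3 : ℝ} (hη : 0 < η) (hη2 : η ≤ 1 / 2) (hN : 0 < N)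
    (hc : c ≤ N) (h1 : 0 ≤ n1) (h2 : 0 ≤ n2) (h3 : 0 ≤ n3) (hv : 1 ≤ v) (hm : v ≤ m)
    (hy : m ≤ y) (u1 : n1 ≤ y + 1) (u2 : n2 ≤ 2 * m + 1) (u3 : n3 ≤ v + 1) :
    η ^ 7 * (c * n1 * n2 * n3) ≤ η * N * (y * m * v) / 4 := by
  have hη7 : η ^ 7 ≤ η / 64 := by
    have : η ^ 6 ≤ (1 / 2) ^ 6 := pow_le_pow_left₀ hη.le hη2 _
    nlinarith
  have hv0 : 0 < v := by linarith
  have hm0 : 0 < m := by linarith
  have hy0 : 0 < y := by linarith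
  have k1 : n1 ≤ 2 * y := by linarith
  have k2 : n2 ≤ 3 * m := by linarith
  have k3 : n3 ≤ 2 * v := by linarith
  have h4 : 0 ≤ η * N * (y * m * v) / 4 := by positivity
  calc _ ≤ η ^ 7 * (N * n1 * n2 * n3) := by gcongr
    _ ≤ η / 64 * (N * (2 * y) * (3 * m) * (2 * v)) := by gcongr
    _ = 3 / 4 * (η * N * (y * m * v) / 4) := by ring
    _ ≤ _ := by linarith

theorem xLMaj_n2 {E F K Λ X Y M V n1 n2 n3 : ℝ} (hE : 1 ≤ E) (hF : 16000 * E ≤ F) (hK : 1 ≤ K)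
    (hΛ : 1 ≤ Λ) (hX : 0 < X) (h : K * X ≤ 2000 * (Y * M * V ^ 2)) (hv : 2 ≤ V / (K * Λ))
    (hm : V / (K * Λ) ≤ M / (K * Λ)) (hy : M / (K * Λ) ≤ Y / (K * Λ))
    (l1 : Y / (K * Λ) - 1 ≤ n1) (l2 : 2 * (M / (K * Λ)) - 1 ≤ n2) (l3 : V / (K * Λ) - 1 ≤ n3) :
    E / (n1 * n2 * n3 ^ 2) ≤ F * (K * Λ) ^ 3 * Λ / X := by
  have hK0 : 0 < K := by linarith
  have hΛ0 : 0 < Λ := by linarith
  have hE0 : 0 < E := by linarith
  have k1 : Y / (K * Λ) / 2 ≤ n1 := by linarith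
  have k2 : M / (K * Λ) ≤ n2 := by linarith
  have k3 : V / (K * Λ) / 2 ≤ n3 := by linarith
  have j1 : 0 ≤ n1 := by linarith
  have j2 : 0 ≤ n2 := by linarith
  have j3 : 0 ≤ V / (K * Λ) / 2 := by linarith
  have j4 : 0 ≤ M / (K * Λ) := by linarith
  have h5 : K * X / (16000 * (K * Λ) ^ 4) ≤ n1 * n2 * n3 ^ 2 := by
    calc _ ≤ 2000 * (Y * M * V ^ 2) / (16000 * (K * Λ) ^ 4) := by gcongr
      _ = Y / (K * Λ) / 2 * (M / (K * Λ)) * (V / (K * Λ) / 2) ^ 2 := by field_simp; ring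
      _ ≤ _ := by gcongr
  calc E / (n1 * n2 * n3 ^ 2) ≤ E / (K * X / (16000 * (K * Λ) ^ 4)) := by gcongr
    _ = 16000 * E * (K * Λ) ^ 3 * Λ / X := by field_simp
    _ ≤ _ := by gcongr

theorem LMAJ_pf (h1 : LMJ1) : LMAJ := by
  obtain ⟨C1, h1⟩ := h1
  refine ⟨7 * C1 + 14, fun η α p w Λ r hH hΛ hV hr2 hS => ?_⟩
  have hp := hH.one
  obtain ⟨hη, hη2, -, hr, -⟩ := hH
  have hK := hp.pos
  obtain ⟨-, -, hVM, hMY, hYX, -⟩ := hp.sizes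
  obtain ⟨⟨hy1, -⟩, ⟨hm1, -⟩, ⟨hu1, -⟩, -, -⟩ := hp.cards
  have hA : 1 ≤ p.K * Λ := Nat.mul_pos hK hΛ
  have hΛr : (1 : ℝ) ≤ Λ := by exact_mod_cast hΛ
  have hKr : (1 : ℝ) ≤ p.K := by exact_mod_cast hK
  have hi : 2 ≤ η⁻¹ := by rw [le_inv_comm₀ (by norm_num) hη]; linarith
  set E : ℝ := η⁻¹ ^ (7 * C1) with hE
  have hE1 : 1 ≤ E := one_le_pow₀ (by linarith)
  have hEE : 16000 * E ≤ η⁻¹ ^ (7 * C1 + 14) := by
    have : (2 : ℝ) ^ 14 ≤ η⁻¹ ^ 14 := pow_le_pow_left₀ (by norm_num) hi _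
    rw [pow_add, ← hE]
    nlinarith
  have hE7 : (η ^ 7)⁻¹ ^ C1 = E := by rw [hE, ← inv_pow, ← pow_mul]
  set a : ℝ := (p.K : ℝ) * Λ with ha
  have ha' : ((p.K * Λ : ℕ) : ℝ) = a := by rw [ha, Nat.cast_mul]
  have ha1 : 1 ≤ a := one_le_mul_of_one_le_of_one_le hKr hΛr
  have ha0 : 0 < a := by linarith
  have hVM' : (p.V : ℝ) ≤ p.M := by exact_mod_cast hVM
  have hMY' : (p.M : ℝ) ≤ p.Y := by exact_mod_cast hMY
  have hYX' : (p.Y : ℝ) ≤ p.X := by exact_mod_cast hYX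
  have hV1 : 16000 * E ≤ p.V / a := by
    rw [le_div_iff₀ ha0]
    nlinarith
  have hM1 : p.V / a ≤ p.M / a := by gcongr
  have hY1 : p.M / a ≤ p.Y / a := by gcongr
  have hV0 : (0 : ℝ) < p.V := by
    have : 0 < p.V / a := by linarith
    exact (div_pos_iff_of_pos_right ha0).1 this
  have hΛX' : (Λ : ℝ) ≤ p.X := by
    have h2 : 1 ≤ p.V / a := by linarith
    rw [le_div_iff₀ ha0] at h2
    nlinarith
  have hΛX : Λ ≤ p.X := by exact_mod_cast hΛX'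
  have hX0 : (0 : ℝ) < p.X := by linarith
  rw [xLMaj_comm] at hS
  obtain ⟨i1, hS⟩ := xLMaj_pig _ _ _ hK hΛ _ hS
  rw [sum_comm_cycle] at hS
  obtain ⟨i3, hS⟩ := xLMaj_pig _ _ _ hK hΛ _ hS
  rw [sum_comm_cycle] at hS
  obtain ⟨i2, hS⟩ := xLMaj_pig _ _ _ hK hΛ _ hS
  rw [sum_comm_cycle, sum_congr rfl fun y hy => sum_congr rfl fun μ hμ => sum_congr rfl fun u hu =>
    xLMaj_inner hp hr w hΛ hΛX hr2 α (xLMaj_sub hy) (xLMaj_sub hμ) (xLMaj_sub hu)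
      (xLMaj_T hK hy hμ hu), ← xLMaj_comm] at hS
  obtain ⟨t1, n1, e1, -, l1, u1⟩ := cl_image p.Y (2 * p.Y) (p.ys + p.K * i1) (by omega) hA
  obtain ⟨t2, n2, e2, -, l2, u2⟩ := cl_image p.M (3 * p.M) (p.ms + p.K * i2) (by omega) hA
  obtain ⟨t3, n3, e3, -, l3, u3⟩ := cl_image p.V (2 * p.V) (p.us + p.K * i3) (by omega) hA
  rw [e1, e2, e3] at hS
  simp only [xLMaj_img _ _ _ hA] at hS
  rw [ha'] at l1 u1 l2 u2 l3 u3
  push_cast at l1 u1 l2 u2 l3 u3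
  have r1 : (2 * (p.Y : ℝ) - p.Y) / a = p.Y / a := by ring
  have r2 : (3 * (p.M : ℝ) - p.M) / a = 2 * (p.M / a) := by ring
  have r3 : (2 * (p.V : ℝ) - p.V) / a = p.V / a := by ring
  rw [r1] at l1 u1
  rw [r2] at l2 u2
  rw [r3] at l3 u3
  set S' := p.SX.filter fun x => (Λ : ℤ) ∣ x - r -
    p.T (p.ys + p.K * i1) (p.ms + p.K * i2) (p.us + p.K * i3) with hS'
  have hN := (hp.N_bd hΛ hΛX).1
  have hXΛ : 1 ≤ (p.X : ℝ) / Λ := by rw [le_div_iff₀ (by linarith)]; linarith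
  have hc : (S'.card : ℝ) ≤ p.N Λ := by
    have h2 := card_sparse_le 0 p.X (by omega) hΛ S' (filter_subset _ _) fun x hx y hy => by
      have := dvd_sub (mem_filter.1 hx).2 (mem_filter.1 hy).2
      rwa [sub_sub_sub_cancel_right, sub_sub_sub_cancel_right] at this
    push_cast at h2
    rw [sub_zero] at h2
    rw [mul_div_assoc] at hN
    linarith
  have hN0 : (0 : ℝ) < p.N Λ := by
    rw [mul_div_assoc] at hN
    linarith
  have hB : η * p.N Λ * (p.Y / a * (p.M / a) * (p.V / a)) / 4 ≤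
      η * (p.N Λ * p.nW) / Λ / Λ / Λ := by
    have h2 : (p.Y : ℝ) / (2 * p.K) * (p.M / p.K) * (p.V / (2 * p.K)) ≤ p.nW := by
      unfold DP.nW
      gcongr
    calc _ = η * (p.N Λ * ((p.Y : ℝ) / (2 * p.K) * (p.M / p.K) * (p.V / (2 * p.K)))) /
          Λ / Λ / Λ := by rw [ha]; field_simp; ring
      _ ≤ _ := by gcongr
  have hS2 := hB.trans hS
  have hYa : 0 < p.Y / a := by linarith
  have hMa : 0 < p.M / a := by linarith
  have hVa : 0 < p.V / a := by linarith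
  have hne : S'.Nonempty := by
    rw [nonempty_iff_ne_empty]
    intro h
    rw [h, sum_empty, norm_zero] at hS2
    exact absurd hS2 (not_le.2 (by positivity))
  have hη7 : η ^ 7 ≤ 1 / 2 := (pow_le_of_le_one hη.le (by linarith) (by norm_num)).trans hη2
  have hmain := xLMaj_n1 hη hη2 hN0 hc n1.cast_nonneg n2.cast_nonneg n3.cast_nonneg
    (by linarith) hM1 hY1 u1 u2 u3
  have k1 : E ≤ n1 := by linarith
  have k2 : E ≤ n2 := by linarith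
  have k3 : E ≤ n3 := by linarith
  have hb : ∀ t : ℝ, |t| ≤ 1 → ‖(t : ℂ)‖ ≤ 1 := fun t ht => by
    rwa [Complex.norm_real, Real.norm_eq_abs]
  obtain ⟨q, hq1, hq2, hq3⟩ := h1 (η ^ 7) (-α) (p.K * Λ) (p.ys + p.K * i1) (p.ms + p.K * i2)
    (p.us + p.K * i3) t1 t2 t3 n1 n2 n3 S'
    (fun x t j => (w.G1 x (p.ys + p.K * i1 + (p.K * Λ : ℕ) * t)
      (p.ms + p.K * i2 + (p.K * Λ : ℕ) * j) : ℂ) * ee (α * (((x : ℝ) - r) / Λ +
          ((p.ys * p.ms * p.us ^ 2 : ℤ) : ℝ) / (p.K * Λ : ℕ))))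
    (fun x t i => (w.G2 x (p.ys + p.K * i1 + (p.K * Λ : ℕ) * t)
      (p.us + p.K * i3 + (p.K * Λ : ℕ) * i) : ℂ))
    (fun j i => (w.H (p.ms + p.K * i2 + (p.K * Λ : ℕ) * j)
      (p.us + p.K * i3 + (p.K * Λ : ℕ) * i) : ℂ))
    (by positivity) hη7 hA (hE7.trans_le k1) (hE7.trans_le k2) (hE7.trans_le k3) hne
    (fun x t j => by rw [norm_mul, norm_ee, mul_one]; exact hb _ (w.h1 _ _ _))
    (fun x t i => hb _ (w.h2 _ _ _)) (fun j i => hb _ (w.h3 _ _)) (hmain.trans hS2)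
  rw [hE7] at hq2 hq3
  refine ⟨q, hq1, by linarith, ?_⟩
  rw [ha', mul_neg, nd_neg] at hq3
  refine hq3.trans ?_
  have hX' : (p.K : ℝ) * p.X ≤ 2000 * (p.Y * p.M * (p.V : ℝ) ^ 2) := by exact_mod_cast hp.hX'
  exact xLMaj_n2 hE1 hEE hKr hΛr hX0 hX' (by linarith) hM1 hY1 l1 l2 l3

end Pool.Agent.MP_e23604_nt.U

end
end

section

/-!
The degree lowering estimate from the inverse statement.
-/

open Finset
open scoped Classical

noncomputable section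

namespace Pool.Agent.MP_e23604_nt.U

theorem xLFin_mul_le {a b : ℝ} (ha : |a| ≤ 1) (hb : |b| ≤ 1) : |a * b| ≤ 1 := by
  rw [abs_mul]
  exact mul_le_one₀ ha (abs_nonneg _) hb

theorem xLFin_S_le (p : DP) (w : Wts) (f : ℤ → ℝ) (hf : ∀ x, |f x| ≤ 1) :
    |p.S w f| ≤ p.X * p.nW := by
  have hX : (p.SX.card : ℝ) = p.X := by simp [DP.SX]
  unfold DP.S DP.nW
  calc _ ≤ ∑ x ∈ p.SX, ∑ y ∈ p.SY, ∑ μ ∈ p.SM, ∑ u ∈ p.SU, (1 : ℝ) := by
        refine (abs_sum_le_sum_abs _ _).trans (sum_le_sum fun x _ => ?_)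
        refine (abs_sum_le_sum_abs _ _).trans (sum_le_sum fun y _ => ?_)
        refine (abs_sum_le_sum_abs _ _).trans (sum_le_sum fun μ _ => ?_)
        refine (abs_sum_le_sum_abs _ _).trans (sum_le_sum fun u _ => ?_)
        exact xLFin_mul_le (xLFin_mul_le (xLFin_mul_le (w.h1 _ _ _) (w.h2 _ _ _)) (w.h3 _ _))
          (hf _)
    _ = _ := by
        simp only [sum_const, nsmul_eq_mul, mul_one, hX]
        ring

/-- The weights after one Cauchy Schwarz step. -/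
def xLFin_w (p : DP) (w : Wts) (f : ℤ → ℝ) (hf : ∀ x, |f x| ≤ 1) (u' : ℤ) : Wts where
  G1 := fun x y μ => f (x - p.T y μ u')
  G2 := fun x y u => w.G2 x y u' * w.G2 x y u
  H := fun μ u => w.H μ u' * w.H μ u
  h1 := fun _ _ _ => hf _
  h2 := fun _ _ _ => xLFin_mul_le (w.h2 _ _ _) (w.h2 _ _ _)
  h3 := fun _ _ => xLFin_mul_le (w.h3 _ _) (w.h3 _ _)

theorem xLFin_cs (p : DP) (w : Wts) (f : ℤ → ℝ) (hf : ∀ x, |f x| ≤ 1) :
    p.S w f ^ 2 ≤ (p.X * p.SY.card * p.SM.card) * ∑ u' ∈ p.SU, p.S (xLFin_w p w f hf u') f := by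
  have hX : (p.SX.card : ℝ) = p.X := by simp [DP.SX]
  set Φ : ℤ × ℤ × ℤ → ℝ := fun z =>
    ∑ u ∈ p.SU, w.G2 z.1 z.2.1 u * w.H z.2.2 u * f (z.1 - p.T z.2.1 z.2.2 u) with hΦ
  have e1 : p.S w f = ∑ z ∈ p.SX ×ˢ p.SY ×ˢ p.SM, w.G1 z.1 z.2.1 z.2.2 * Φ z := by
    unfold DP.S
    rw [sum_product]
    refine sum_congr rfl fun x _ => ?_
    rw [sum_product]
    refine sum_congr rfl fun y _ => sum_congr rfl fun μ _ => ?_
    simp only [hΦ, mul_sum]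
    refine sum_congr rfl fun u _ => by ring
  have e2 : ∑ u' ∈ p.SU, p.S (xLFin_w p w f hf u') f = ∑ z ∈ p.SX ×ˢ p.SY ×ˢ p.SM, Φ z ^ 2 := by
    unfold DP.S
    rw [sum_product, sum_comm]
    refine sum_congr rfl fun x _ => ?_
    rw [sum_product, sum_comm]
    refine sum_congr rfl fun y _ => ?_
    rw [sum_comm]
    refine sum_congr rfl fun μ _ => ?_
    simp only [hΦ, sq, sum_mul_sum, xLFin_w]
    refine sum_congr rfl fun u' _ => sum_congr rfl fun u _ => by ring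
  rw [e1, e2]
  refine (sum_mul_sq_le_sq_mul_sq _ _ _).trans ?_
  refine mul_le_mul_of_nonneg_right ?_ (sum_nonneg fun _ _ => sq_nonneg _)
  calc _ ≤ ∑ z ∈ p.SX ×ˢ p.SY ×ˢ p.SM, (1 : ℝ) := by
        refine sum_le_sum fun z _ => ?_
        rw [← sq_abs]
        exact pow_le_one₀ (abs_nonneg _) (w.h1 _ _ _)
    _ = _ := by
        simp only [sum_const, card_product, nsmul_eq_mul, mul_one, Nat.cast_mul, hX]
        ring

theorem xLFin_core (h1 : LDLA) (h2 : LDB1) : ∃ C : ℕ, ∀ (δ : ℝ) (p : DP) (w : Wts) (f : ℤ → ℝ),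
    p.Hyp δ C → (∀ x, |f x| ≤ 1) →
    |p.S w f| ≤ δ * (p.X * p.nW) +
      δ⁻¹ ^ C * ∑ q ∈ Icc 1 ⌊δ⁻¹ ^ C⌋₊, ((q : ℝ) * p.K ^ 32 / p.M) *
        ∑ u ∈ p.SU, ∑ μ ∈ p.SM,
          ∑ μ' ∈ p.SM.filter (fun μ' => μ' ≠ μ ∧ ((q * p.K ^ 32 : ℕ) : ℤ) ∣ μ - μ'),
            |∑ x ∈ p.SX, ∑ y ∈ p.SY, f (x - p.T y μ u) * f (x - p.T y μ' u)| := by
  obtain ⟨C1, h1⟩ := h1
  obtain ⟨C2, h2⟩ := h2
  refine ⟨3 * (C1 + 1) * (C2 + 1) + 3, fun δ p w f hp hf => ?_⟩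
  set C := 3 * (C1 + 1) * (C2 + 1) + 3 with hC
  have n0 : 3 * (C1 + 1) * (C2 + 1) = 3 * (C1 + 1) * C2 + 3 * (C1 + 1) := by ring
  have n1 : 3 * C1 ≤ C := by omega
  have n2 : 3 * (C1 + 1) * C2 ≤ C := by omega
  have n3 : 3 * (C1 + 1) ≤ C := by omega
  have n4 : 3 * (C1 + 1) * C2 + 3 ≤ C := by omega
  have hδ : 0 < δ := hp.1
  have hδ2 : δ ≤ 1 / 2 := hp.2.1
  have hδ1 : δ ≤ 1 := by linarith
  have hi : 1 ≤ δ⁻¹ := one_le_inv_iff₀.2 ⟨hδ, hδ1⟩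
  set tm : ℕ → ℤ → ℝ := fun q u => ((q : ℝ) * p.K ^ 32 / p.M) * ∑ μ ∈ p.SM,
    ∑ μ' ∈ p.SM.filter (fun μ' => μ' ≠ μ ∧ ((q * p.K ^ 32 : ℕ) : ℤ) ∣ μ - μ'),
      |∑ x ∈ p.SX, ∑ y ∈ p.SY, f (x - p.T y μ u) * f (x - p.T y μ' u)| with htm
  have htm0 : ∀ q u, 0 ≤ tm q u := fun q u =>
    mul_nonneg (by positivity) (sum_nonneg fun _ _ => sum_nonneg fun _ _ => abs_nonneg _)
  have esum : ∑ q ∈ Icc 1 ⌊δ⁻¹ ^ C⌋₊, ((q : ℝ) * p.K ^ 32 / p.M) *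
        ∑ u ∈ p.SU, ∑ μ ∈ p.SM,
          ∑ μ' ∈ p.SM.filter (fun μ' => μ' ≠ μ ∧ ((q * p.K ^ 32 : ℕ) : ℤ) ∣ μ - μ'),
            |∑ x ∈ p.SX, ∑ y ∈ p.SY, f (x - p.T y μ u) * f (x - p.T y μ' u)| =
      ∑ u ∈ p.SU, ∑ q ∈ Icc 1 ⌊δ⁻¹ ^ C⌋₊, tm q u := by
    rw [sum_comm]
    refine sum_congr rfl fun q _ => ?_
    rw [mul_sum]
  rw [esum]
  have hT0 : 0 ≤ ∑ u ∈ p.SU, ∑ q ∈ Icc 1 ⌊δ⁻¹ ^ C⌋₊, tm q u :=
    sum_nonneg fun _ _ => sum_nonneg fun _ _ => htm0 _ _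
  have hiC : 0 ≤ δ⁻¹ ^ C := by positivity
  have hnW0 : 0 ≤ (p.X : ℝ) * p.nW := by unfold DP.nW; positivity
  by_cases hs : |p.S w f| ≤ δ * (p.X * p.nW)
  · exact hs.trans (le_add_of_nonneg_right (mul_nonneg hiC hT0))
  push Not at hs
  have hSle := xLFin_S_le p w f hf
  set A : ℝ := p.X * p.SY.card * p.SM.card with hA
  have hB : (p.X : ℝ) * p.nW = A * p.SU.card := by unfold DP.nW; rw [hA]; ring
  have hBpos : 0 < (p.X : ℝ) * p.nW := by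
    rcases hnW0.lt_or_eq with h | h
    · exact h
    · rw [← h] at hs hSle
      simp only [mul_zero] at hs
      linarith
  have hA0 : 0 ≤ A := by rw [hA]; positivity
  have hApos : 0 < A := by
    rcases hA0.lt_or_eq with h | h
    · exact h
    · rw [hB, ← h] at hBpos
      simp at hBpos
  have hcs := xLFin_cs p w f hf
  rw [← hA] at hcs
  have hsum : δ ^ 2 * (p.X * p.nW) * p.SU.card ≤ ∑ u' ∈ p.SU, p.S (xLFin_w p w f hf u') f := by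
    have h3 : (δ * (p.X * p.nW)) ^ 2 ≤ p.S w f ^ 2 := by
      rw [← sq_abs (p.S w f)]
      exact pow_le_pow_left₀ (by positivity) hs.le 2
    refine le_of_mul_le_mul_left ?_ hApos
    calc A * (δ ^ 2 * (p.X * p.nW) * p.SU.card) = (δ * (p.X * p.nW)) ^ 2 := by
          rw [hB]; ring
      _ ≤ _ := h3.trans hcs
  have hpop := pop p.SU (fun u' => p.S (xLFin_w p w f hf u') f) hBpos (sq_nonneg δ)
    (fun u' _ => (le_abs_self _).trans (xLFin_S_le p _ f hf)) hsum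
  set Gd := p.SU.filter fun u' => δ ^ 2 / 2 * (p.X * p.nW) ≤ p.S (xLFin_w p w f hf u') f with hGd
  have hδ3 : δ ^ 3 ≤ δ ^ 2 / 2 := by
    calc δ ^ 3 = δ ^ 2 * δ := by ring
      _ ≤ δ ^ 2 * (1 / 2) := mul_le_mul_of_nonneg_left hδ2 (sq_nonneg δ)
      _ = _ := by ring
  have hH1 : p.Hyp (δ ^ 3) C1 := hp.pow (by norm_num) n1
  have hH2 : p.Hyp (δ ^ (3 * (C1 + 1))) C2 := hp.pow (by omega) n2
  have hgood : ∀ u' ∈ Gd, δ ^ (3 * (C1 + 1) * C2) * A ≤ ∑ q ∈ Icc 1 ⌊δ⁻¹ ^ C⌋₊, tm q u' := by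
    intro u' hu'
    have hu2 := (mem_filter.1 hu').2
    have hA5 := h1 (δ ^ 3) p (xLFin_w p w f hf u') f hH1 hf
      (((mul_le_mul_of_nonneg_right hδ3 hnW0).trans hu2).trans (le_abs_self _))
    have hA5' : p.A5 (p.D (xLFin_w p w f hf u')) (δ ^ (3 * (C1 + 1))) := by
      refine hA5.mono (by positivity) ?_
      rw [← pow_mul]
      exact pow_le_pow_of_le_one hδ.le hδ1 (by omega)
    obtain ⟨q, hq1, hq2, hq3⟩ := h2 _ p (xLFin_w p w f hf u') f u' hH2 (fun _ _ _ => rfl) hA5'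
    have hqm : q ∈ Icc 1 ⌊δ⁻¹ ^ C⌋₊ := by
      refine mem_Icc.2 ⟨hq1, Nat.le_floor (hq2.trans ?_)⟩
      rw [← inv_pow]
      exact pow_le_pow_right₀ hi n3
    refine le_trans ?_ (single_le_sum (f := fun q => tm q u') (fun q _ => htm0 q u') hqm)
    rw [pow_mul]
    exact hq3
  have hbig : δ ^ 3 * p.SU.card * (δ ^ (3 * (C1 + 1) * C2) * A) ≤
      ∑ u ∈ p.SU, ∑ q ∈ Icc 1 ⌊δ⁻¹ ^ C⌋₊, tm q u := by
    calc _ ≤ (Gd.card : ℝ) * (δ ^ (3 * (C1 + 1) * C2) * A) := by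
          refine mul_le_mul_of_nonneg_right ?_ (by positivity)
          exact (mul_le_mul_of_nonneg_right hδ3 (Nat.cast_nonneg _)).trans hpop
      _ = ∑ _u ∈ Gd, δ ^ (3 * (C1 + 1) * C2) * A := by rw [sum_const, nsmul_eq_mul]
      _ ≤ ∑ u ∈ Gd, ∑ q ∈ Icc 1 ⌊δ⁻¹ ^ C⌋₊, tm q u := sum_le_sum hgood
      _ ≤ _ := sum_le_sum_of_subset_of_nonneg (filter_subset _ _)
          fun _ _ _ => sum_nonneg fun _ _ => htm0 _ _
  have hone : 1 ≤ δ⁻¹ ^ C * δ ^ (3 * (C1 + 1) * C2 + 3) := by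
    have h4 : δ ^ C ≤ δ ^ (3 * (C1 + 1) * C2 + 3) :=
      pow_le_pow_of_le_one hδ.le hδ1 n4
    calc (1 : ℝ) = δ⁻¹ ^ C * δ ^ C := by rw [← mul_pow, inv_mul_cancel₀ hδ.ne', one_pow]
      _ ≤ _ := mul_le_mul_of_nonneg_left h4 hiC
  have hfin : (p.X : ℝ) * p.nW ≤ δ⁻¹ ^ C * ∑ u ∈ p.SU, ∑ q ∈ Icc 1 ⌊δ⁻¹ ^ C⌋₊, tm q u := by
    calc (p.X : ℝ) * p.nW = 1 * (p.X * p.nW) := (one_mul _).symm
      _ ≤ (δ⁻¹ ^ C * δ ^ (3 * (C1 + 1) * C2 + 3)) * (p.X * p.nW) :=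
          mul_le_mul_of_nonneg_right hone hnW0
      _ = δ⁻¹ ^ C * (δ ^ 3 * p.SU.card * (δ ^ (3 * (C1 + 1) * C2) * A)) := by
          rw [hB, pow_add]; ring
      _ ≤ _ := mul_le_mul_of_nonneg_left hbig hiC
  have h5 : 0 ≤ δ * (p.X * p.nW) := mul_nonneg hδ.le hnW0
  linarith

theorem xLFin_cl {a b r r' : ℤ} {K : ℕ} (h : r' ∈ cl a b K r) : cl a b K r' = cl a b K r := by
  have h' : r' % (K : ℤ) = r % (K : ℤ) := (mem_filter.1 h).2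
  unfold cl
  rw [h']

theorem xLFin_cop {a b r r' : ℤ} {K : ℕ} (h : r' ∈ cl a b K r) (hc : IsCoprime r (K : ℤ)) :
    IsCoprime r' (K : ℤ) := by
  obtain ⟨t, ht⟩ := (mem_cl.1 h).2.2
  have : r' = r + (K : ℤ) * t := by linarith
  rw [this]
  exact hc.add_mul_left_left t

theorem xLFin_rep (h1 : LDLA) (h2 : LDB1) : ∃ C : ℕ, ∀ δ : ℝ, 0 < δ → δ ≤ 1 / 2 → ∀ p : DP,
    p.OK (δ⁻¹ ^ C) → p.Rep →
    Real.log p.M ≤ δ⁻¹ → ∀ (t0 : ℤ) (F : ℤ → ℝ) (G1 G2 : ℤ → ℤ → ℤ → ℝ) (H : ℤ → ℤ → ℝ),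
    (∀ t, |F t| ≤ 1) → (∀ x y μ, |G1 x y μ| ≤ 1) → (∀ x y u, |G2 x y u| ≤ 1) →
    (∀ μ u, |H μ u| ≤ 1) →
    |∑ x ∈ p.SX, ∑ y ∈ p.SY, ∑ μ ∈ p.SM, ∑ u ∈ p.SU,
        G1 x y μ * G2 x y u * H μ u * F (p.K * x + t0 - y * μ * u ^ 2)| ≤
      δ * (p.X * p.SY.card * p.SM.card * p.SU.card) +
        δ⁻¹ ^ C * ∑ q ∈ Icc 1 ⌊δ⁻¹ ^ C⌋₊, ((q : ℝ) * p.K ^ 32 / p.M) *
          ∑ u ∈ p.SU, ∑ μ ∈ p.SM,
            ∑ μ' ∈ p.SM.filter (fun μ' => μ' ≠ μ ∧ ((q * p.K ^ 32 : ℕ) : ℤ) ∣ μ - μ'),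
              |p.corr t0 F u μ μ'| := by
  obtain ⟨C, hC⟩ := xLFin_core h1 h2
  refine ⟨C, fun δ hδ hδ2 p hp hr hl t0 F G1 G2 H hF hG1 hG2 hH => ?_⟩
  set f : ℤ → ℝ := fun x => F (p.K * x + t0 - p.ys * p.ms * p.us ^ 2) with hf
  have key : ∀ x, ∀ y ∈ p.SY, ∀ μ ∈ p.SM, ∀ u ∈ p.SU,
      F (p.K * x + t0 - y * μ * u ^ 2) = f (x - p.T y μ u) := by
    intro x y hy μ hμ u hu
    have hT := DP.T_mul (p := p) (mem_cl.1 hy).2.2 (mem_cl.1 hμ).2.2 (mem_cl.1 hu).2.2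
    have e0 : (p.K : ℤ) * x + t0 - y * μ * u ^ 2 =
        p.K * (x - p.T y μ u) + t0 - p.ys * p.ms * p.us ^ 2 := by rw [mul_sub, hT]; ring
    rw [e0]
  have h := hC δ p ⟨G1, G2, H, hG1, hG2, hH⟩ f ⟨hδ, hδ2, hp, hr, hl⟩ (fun x => hF _)
  have e1 : ∑ x ∈ p.SX, ∑ y ∈ p.SY, ∑ μ ∈ p.SM, ∑ u ∈ p.SU,
        G1 x y μ * G2 x y u * H μ u * F (p.K * x + t0 - y * μ * u ^ 2) =
      p.S ⟨G1, G2, H, hG1, hG2, hH⟩ f := by
    unfold DP.S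
    refine sum_congr rfl fun x _ => sum_congr rfl fun y hy => sum_congr rfl fun μ hμ =>
      sum_congr rfl fun u hu => ?_
    rw [key x y hy μ hμ u hu]
  have e2 : (p.X : ℝ) * p.SY.card * p.SM.card * p.SU.card = p.X * p.nW := by
    unfold DP.nW; ring
  have ec : ∀ u ∈ p.SU, ∀ μ ∈ p.SM, ∀ μ' ∈ p.SM, p.corr t0 F u μ μ' =
      ∑ x ∈ p.SX, ∑ y ∈ p.SY, f (x - p.T y μ u) * f (x - p.T y μ' u) := by
    intro u hu μ hμ μ' hμ'
    unfold DP.corr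
    refine sum_congr rfl fun x _ => sum_congr rfl fun y hy => ?_
    rw [key x y hy μ hμ u hu, key x y hy μ' hμ' u hu]
  have e3 : ∀ q : ℕ, ∑ u ∈ p.SU, ∑ μ ∈ p.SM,
      ∑ μ' ∈ p.SM.filter (fun μ' => μ' ≠ μ ∧ ((q * p.K ^ 32 : ℕ) : ℤ) ∣ μ - μ'),
        |p.corr t0 F u μ μ'| = ∑ u ∈ p.SU, ∑ μ ∈ p.SM,
      ∑ μ' ∈ p.SM.filter (fun μ' => μ' ≠ μ ∧ ((q * p.K ^ 32 : ℕ) : ℤ) ∣ μ - μ'),
        |∑ x ∈ p.SX, ∑ y ∈ p.SY, f (x - p.T y μ u) * f (x - p.T y μ' u)| := by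
    intro q
    refine sum_congr rfl fun u hu => sum_congr rfl fun μ hμ => sum_congr rfl fun μ' hμ' => ?_
    rw [ec u hu μ hμ μ' (mem_filter.1 hμ').1]
  rw [e1, e2]
  simp only [e3]
  exact h

theorem IDL_of (h1 : LDLA) (h2 : LDB1) : IDL := by
  obtain ⟨C, hC⟩ := xLFin_rep h1 h2
  refine ⟨C, fun δ hδ hδ2 p hp hl t0 F G1 G2 H hF hG1 hG2 hH => ?_⟩
  have hpos : 0 ≤ δ * (p.X * p.SY.card * p.SM.card * p.SU.card) +
      δ⁻¹ ^ C * ∑ q ∈ Icc 1 ⌊δ⁻¹ ^ C⌋₊, ((q : ℝ) * p.K ^ 32 / p.M) *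
        ∑ u ∈ p.SU, ∑ μ ∈ p.SM,
          ∑ μ' ∈ p.SM.filter (fun μ' => μ' ≠ μ ∧ ((q * p.K ^ 32 : ℕ) : ℤ) ∣ μ - μ'),
            |p.corr t0 F u μ μ'| := by
    refine add_nonneg (by positivity) (mul_nonneg (by positivity) (sum_nonneg fun q _ => ?_))
    exact mul_nonneg (by positivity)
      (sum_nonneg fun _ _ => sum_nonneg fun _ _ => sum_nonneg fun _ _ => abs_nonneg _)
  rcases p.SY.eq_empty_or_nonempty with hY | ⟨y0, hy0⟩
  · refine le_trans (le_of_eq ?_) hpos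
    simp [hY]
  rcases p.SM.eq_empty_or_nonempty with hM | ⟨m0, hm0⟩
  · refine le_trans (le_of_eq ?_) hpos
    simp [hM]
  rcases p.SU.eq_empty_or_nonempty with hU | ⟨u0, hu0⟩
  · refine le_trans (le_of_eq ?_) hpos
    simp [hU]
  let p' : DP := ⟨p.K, p.Y, p.M, p.V, p.X, y0, m0, u0⟩
  have eY : p'.SY = p.SY := xLFin_cl hy0
  have eM : p'.SM = p.SM := xLFin_cl hm0
  have eU : p'.SU = p.SU := xLFin_cl hu0
  have eX : p'.SX = p.SX := rfl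
  have hp' : p'.OK (δ⁻¹ ^ C) :=
    ⟨hp.four, hp.pos, xLFin_cop hm0 hp.cm, xLFin_cop hu0 hp.cu, hp.hV, hp.hM, hp.hM', hp.hY,
      hp.hX, hp.hX'⟩
  have hr : p'.Rep := ⟨by rw [eY]; exact hy0, by rw [eM]; exact hm0, by rw [eU]; exact hu0⟩
  have h := hC δ hδ hδ2 p' hp' hr hl t0 F G1 G2 H hF hG1 hG2 hH
  have ec : ∀ u μ μ', p'.corr t0 F u μ μ' = p.corr t0 F u μ μ' := by
    intro u μ μ'
    unfold DP.corr
    rw [eY, eX]
  simp only [ec] at h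
  rw [eY, eM, eU, eX] at h
  exact h

end Pool.Agent.MP_e23604_nt.U

end
end
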