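import Pool.Agent.Mg.Fe23604m.G0311cb
import Pool.Agent.Mg.Fe23604m.G651d65

set_option linter.all false

section

/-!
One cell.
-/

open Finset
open scoped Classical

noncomputable section

namespace Pool.Agent.MP_e23604_nt.U

open P (gg WW Datum Wt)

theorem xE1a_B (a b r : ℤ) (hab : a ≤ b) {K : ℕ} (hK : 1 ≤ K) : ∃ (n1 : ℤ) (n : ℕ),
    (∀ f : ℤ → ℝ, ∑ x ∈ cl a b K r, f x = ∑ x ∈ Ioc (0 : ℤ) n, f (n1 + K * x)) ∧
      b - a ≤ K * n + K ∧ (K : ℤ) * n ≤ b - a + K := by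
  obtain ⟨t0, n, h1, -, h2, h3⟩ := cl_image a b r hab hK
  have hK' : (0 : ℝ) < K := by exact_mod_cast hK
  have hK0 : (K : ℤ) ≠ 0 := by omega
  refine ⟨r + K * (t0 - 1), n, fun f => ?_, ?_, ?_⟩
  · rw [h1, sum_image fun x _ y _ h => mul_left_cancel₀ hK0 (add_left_cancel h)]
    refine sum_nbij' (fun t => t - (t0 - 1)) (fun x => x + (t0 - 1)) ?_ ?_ ?_ ?_ ?_
    · intro t ht
      have := mem_Ico.1 ht
      exact mem_Ioc.2 ⟨by omega, by omega⟩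
    · intro x hx
      have := mem_Ioc.1 hx
      exact mem_Ico.2 ⟨by omega, by omega⟩
    · intro t _
      ring
    · intro t _
      ring
    · intro t _
      congr 1
      ring
  · rw [sub_le_iff_le_add, div_le_iff₀ hK'] at h2
    have : (b : ℝ) - a ≤ K * n + K := by linarith
    exact_mod_cast this
  · rw [← sub_le_iff_le_add, le_div_iff₀ hK'] at h3
    have : (K : ℝ) * n ≤ b - a + K := by linarith
    exact_mod_cast this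

theorem xE1a_A {σ : ℕ} (hσ : 1 ≤ σ) (Y K : ℕ) (r : ℤ) (f : ℤ → ℝ) :
    ∑ y ∈ cl (σ * Y : ℕ) (2 * (σ * Y : ℕ)) (K * σ) (σ * r), f y =
      ∑ a ∈ cl Y (2 * Y) K r, f (σ * a) := by
  have h0 : (0 : ℤ) < σ := by omega
  rw [← sum_image (g := fun a : ℤ => (σ : ℤ) * a) fun x _ y _ h => mul_left_cancel₀ h0.ne' h]
  congr 1
  ext y
  rw [mem_image, mem_cl]
  push_cast
  constructor
  · rintro ⟨h1, h2, t, h3⟩
    have e : y = σ * (r + K * t) := by linear_combination h3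
    refine ⟨r + K * t, mem_cl.2 ⟨?_, ?_, t, by ring⟩, e.symm⟩
    · exact lt_of_mul_lt_mul_left (e ▸ h1) h0.le
    · exact le_of_mul_le_mul_left (by rw [← e]; linarith) h0
  · rintro ⟨a, ha, rfl⟩
    obtain ⟨h1, h2, t, h3⟩ := mem_cl.1 ha
    exact ⟨mul_lt_mul_of_pos_left h1 h0, by nlinarith, t, by linear_combination σ * h3⟩

theorem xE1a_M3 {σ : ℕ} (hσ : 1 ≤ σ) {N K : ℕ} {r μ0 μ : ℤ} (h : ((σ * K : ℕ) : ℤ) ∣ σ * μ0 - r)
    (hμ : μ ∈ cl (N / σ : ℕ) (3 * (N / σ : ℕ)) K μ0) : σ * μ ∈ cl N (3 * N) (σ * K) r := by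
  have h0 : (0 : ℤ) < σ := by omega
  obtain ⟨h1, h2, t, h3⟩ := mem_cl.1 hμ
  obtain ⟨t', h4⟩ := h
  have h5 : (σ : ℤ) * (N / σ : ℕ) ≤ N := by exact_mod_cast Nat.mul_div_le N σ
  have h6 : (N : ℤ) < σ * ((N / σ : ℕ) + 1) := by exact_mod_cast Nat.lt_mul_div_succ N hσ
  push_cast at h4
  refine mem_cl.2 ⟨by nlinarith, by nlinarith, t + t', ?_⟩
  push_cast
  linear_combination σ * h3 + h4

theorem xE1a_M2 {σ : ℕ} (hσ : 1 ≤ σ) {N K : ℕ} (hN : 2 ≤ N / σ) {r μ0 : ℤ}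
    (h : ((σ * K : ℕ) : ℤ) ∣ σ * μ0 - r) (f : ℤ → ℝ) :
    ∑ m ∈ cl N (2 * N) (σ * K) r, f m =
      ∑ μ ∈ cl (N / σ : ℕ) (3 * (N / σ : ℕ)) K μ0, if σ * μ ≤ 2 * (N : ℤ) then f (σ * μ) else 0 := by
  have h0 : (0 : ℤ) < σ := by omega
  rw [← sum_filter,
    ← sum_image (g := fun a : ℤ => (σ : ℤ) * a) fun x _ y _ h => mul_left_cancel₀ h0.ne' h]
  congr 1
  ext m
  rw [mem_image]
  constructor
  · intro hm
    obtain ⟨h1, h2, t, h3⟩ := mem_cl.1 hm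
    obtain ⟨t', h4⟩ := h
    have h5 : (σ : ℤ) * (N / σ : ℕ) ≤ N := by exact_mod_cast Nat.mul_div_le N σ
    have h6 : (N : ℤ) < σ * ((N / σ : ℕ) + 1) := by exact_mod_cast Nat.lt_mul_div_succ N hσ
    have h7 : (2 : ℤ) ≤ (N / σ : ℕ) := by exact_mod_cast hN
    push_cast at h3 h4
    have e : m = σ * (μ0 + K * (t - t')) := by linear_combination h3 - h4
    refine ⟨μ0 + K * (t - t'), mem_filter.2 ⟨mem_cl.2 ⟨?_, ?_, t - t', by ring⟩, e ▸ h2⟩, e.symm⟩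
    · exact lt_of_mul_lt_mul_left (by rw [← e]; linarith) h0.le
    · exact le_of_mul_le_mul_left (by rw [← e]; nlinarith) h0
  · rintro ⟨μ, hμ, rfl⟩
    obtain ⟨h1, h2⟩ := mem_filter.1 hμ
    obtain ⟨h3, -, h4⟩ := mem_cl.1 (xE1a_M3 hσ h h1)
    exact mem_cl.2 ⟨h3, h2, h4⟩

theorem xE1a_inj {σ : ℤ} (hσ : σ ≠ 0) {S T : Finset ℤ} {f g : ℤ → ℝ}
    (h : ∀ μ ∈ S, σ * μ ∈ T ∧ f μ ≤ g (σ * μ)) (hg : ∀ m ∈ T, 0 ≤ g m) :
    ∑ μ ∈ S, f μ ≤ ∑ m ∈ T, g m := by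
  refine (sum_le_sum fun μ hμ => (h μ hμ).2).trans ?_
  rw [← sum_image (g := fun a : ℤ => σ * a) fun x _ y _ h => mul_left_cancel₀ hσ h]
  exact sum_le_sum_of_subset_of_nonneg (image_subset_iff.2 fun μ hμ => (h μ hμ).1)
    fun m hm _ => hg m hm

theorem xE1a_cc {X : Fin 10 → ℕ} {v : V10} (hv : v ∈ Box X) : (cc v : ℤ) = 4 * v 4 * v 9 ^ 2 ∧
    4 * (X 4 * X 9 ^ 2) ≤ cc v ∧ cc v ≤ 32 * (X 4 * X 9 ^ 2) := by
  obtain ⟨a1, a2⟩ := mem_Ioc.1 (Fintype.mem_piFinset.1 hv 4)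
  obtain ⟨b1, b2⟩ := mem_Ioc.1 (Fintype.mem_piFinset.1 hv 9)
  have a0 : (0 : ℤ) ≤ v 4 := by omega
  have b0 : (0 : ℤ) ≤ v 9 := by omega
  have e : (cc v : ℤ) = 4 * v 4 * v 9 ^ 2 := Int.toNat_of_nonneg (by positivity)
  refine ⟨e, ?_, ?_⟩
  · have : 4 * ((X 4 : ℤ) * X 9 ^ 2) ≤ cc v := by
      rw [e, mul_assoc]
      gcongr
    exact_mod_cast this
  · have : (cc v : ℤ) ≤ 32 * ((X 4 : ℤ) * X 9 ^ 2) := by
      rw [e]
      calc 4 * v 4 * v 9 ^ 2 ≤ 4 * (2 * (X 4 : ℤ)) * (2 * (X 9 : ℤ)) ^ 2 := by gcongr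
        _ = _ := by ring
    exact_mod_cast this

theorem xE1a_sz {X : Fin 10 → ℕ} {Z : ℕ} {s : S12} {v : V10} (hR : Reg X Z) (hs : s ∈ SSet Z)
    (hv : v ∈ Box X) : KP s v ^ 100 * Z ≤ X 7 ∧ Z ≤ X 7 ∧ 2 * X 7 ≤ X 1 ∧
      1024 * (X 5 * X 7 ^ 2) ≤ X 0 ∧ 2 ≤ X 7 ∧ 64 * (X 0 * X 5 * X 7 ^ 2) ≤ cc v * X 1 ∧
      cc v * X 1 ≤ 512 * (X 0 * X 5 * X 7 ^ 2) ∧ 1 ≤ cc v ∧ X 5 ^ 10 ≤ X 0 := by
  obtain ⟨h1, h2, h3, -, h4, h5⟩ := hR.sizes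
  obtain ⟨-, c1, c2⟩ := xE1a_cc hv
  obtain ⟨s1, s2⟩ := mem_SSet.1 hs
  have z2 := hR.z2
  have z3 : ∀ i, 2560 * Z ^ 2 ≤ X i := fun i =>
    calc 2560 * Z ^ 2 ≤ Z ^ 12 * Z ^ 2 := by
          gcongr
          exact le_trans (by norm_num) (Nat.pow_le_pow_left z2 12)
      _ = Z ^ 14 := by ring
      _ ≤ Z ^ 1000 := Nat.pow_le_pow_right (by omega) (by norm_num)
      _ ≤ X i := h1 i
  have z4 : ∀ i, Z ≤ X i ∧ 1024 ≤ X i := fun i => by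
    have := z3 i
    constructor <;> nlinarith
  have k1 : KP s v ≤ (X 4 * X 9) ^ 2 :=
    calc KP s v = cc v * (80 * SP s) * s 5 := rfl
      _ ≤ 32 * (X 4 * X 9 ^ 2) * (80 * Z) * Z := by
          gcongr
          exact (le_SP s1 5).trans s2
      _ = 2560 * Z ^ 2 * (X 4 * X 9 ^ 2) := by ring
      _ ≤ X 4 * (X 4 * X 9 ^ 2) := by
          gcongr
          exact z3 4
      _ = _ := by ring
  have t1 : Z ≤ X 4 * X 9 := (z4 4).1.trans (Nat.le_mul_of_pos_right _ (by have := z4 9; omega))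
  have x5 : X 5 ^ 10 ≤ X 0 :=
    (Nat.pow_le_pow_right (by have := z4 5; omega) (by norm_num)).trans (h2 5 (by decide))
  have x6 : 1024 * (X 5 * X 7 ^ 2) ≤ X 0 :=
    calc 1024 * (X 5 * X 7 ^ 2) ≤ X 5 * (X 5 * X 5 ^ 2) := by
          gcongr
          exact (z4 5).2
      _ = X 5 ^ 4 := by ring
      _ ≤ X 5 ^ 10 := Nat.pow_le_pow_right (by have := z4 5; omega) (by norm_num)
      _ ≤ X 0 := x5
  refine ⟨?_, (z4 7).1, ?_, x6, by have := z4 7; omega, ?_, ?_, ?_, x5⟩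
  · calc KP s v ^ 100 * Z ≤ ((X 4 * X 9) ^ 2) ^ 100 * (X 4 * X 9) := by gcongr
      _ = (X 4 * X 9) ^ 201 := by rw [← pow_mul, ← pow_succ]
      _ ≤ (X 4 * X 9) ^ 1000 := Nat.pow_le_pow_right (by omega) (by norm_num)
      _ ≤ X 7 := h5
  · have := z4 5
    have := z4 7
    have : X 7 ≤ X 5 * X 7 ^ 2 := by nlinarith [Nat.zero_le (X 7)]
    omega
  · calc 64 * (X 0 * X 5 * X 7 ^ 2) = 4 * (16 * (X 0 * X 5 * X 7 ^ 2)) := by ring
      _ = 4 * (X 4 * X 9 ^ 2) * X 1 := by rw [← hR.b3]; ring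
      _ ≤ _ := by gcongr
  · calc cc v * X 1 ≤ 32 * (X 4 * X 9 ^ 2) * X 1 := by gcongr
      _ = 32 * (X 4 * X 1 * X 9 ^ 2) := by ring
      _ = _ := by rw [hR.b3]; ring
  · have := z4 4
    have := z4 9
    have : 0 < X 4 * X 9 ^ 2 := Nat.mul_pos (by omega) (pow_pos (by omega) 2)
    omega

theorem xE1a_upd (v : V10) (a b m u : ℤ) : upd (pt4 v 0 0 m u) a b = pt4 v a b m u := by
  funext i
  fin_cases i <;> rfl

theorem xE1a_EW {G1 G2 H : S12 → V10 → ℝ} (h : EW G1 G2 H) (s : S12) (v : V10) (a b m u : ℤ) :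
    G1 s (pt4 v a b m u) = G1 s (pt4 v a b m 0) ∧ G2 s (pt4 v a b m u) = G2 s (pt4 v a b 0 u) ∧
      H s (pt4 v a b m u) = H s (pt4 v 0 0 m u) := by
  refine ⟨?_, ?_, ?_⟩
  · rw [← h.i1 s _ 0]
    congr 1
    funext i
    fin_cases i <;> rfl
  · rw [← h.i2 s _ 0]
    congr 1
    funext i
    fin_cases i <;> rfl
  · rw [← h.i3 s _ 0, ← h.i4 s _ 0]
    congr 1
    funext i
    fin_cases i <;> rfl

theorem xE1a_per {s : S12} {v : V10} (hs : SOK s) {a b m u a' b' m' u' : ℤ}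
    (h : GG s (pt4 v a b m u) = 1 ∧ Cond s (pt4 v a b m u)) (ha : (KK s : ℤ) ∣ a - a')
    (hb : (KK s : ℤ) ∣ b - b') (hm : (KK s : ℤ) ∣ m - m') (hu : (KK s : ℤ) ∣ u - u') :
    GG s (pt4 v a' b' m' u') = 1 ∧ Cond s (pt4 v a' b' m' u') := by
  have key : ∀ i, (KK s : ℤ) ∣ pt4 v a b m u i - pt4 v a' b' m' u' i := by
    intro i
    fin_cases i
    exacts [ha, hb, (sub_self (v 2)).symm ▸ dvd_zero _, (sub_self (v 3)).symm ▸ dvd_zero _,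
      (sub_self (v 4)).symm ▸ dvd_zero _, hm, (sub_self (v 6)).symm ▸ dvd_zero _, hu,
      (sub_self (v 8)).symm ▸ dvd_zero _, (sub_self (v 9)).symm ▸ dvd_zero _]
  exact ⟨(GG_per10 hs _ _ key).symm.trans h.1, h.2.per hs key⟩

theorem xE1a_dvd {a b a' b' r x y : ℤ} {K k : ℕ} (hk : k ∣ K) (hx : x ∈ cl a b K r)
    (hy : y ∈ cl a' b' K r) : (k : ℤ) ∣ x - y := by
  have := dvd_sub (mem_cl.1 hx).2.2 (mem_cl.1 hy).2.2
  rw [sub_sub_sub_cancel_right] at this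
  exact (Int.natCast_dvd_natCast.2 hk).trans this

theorem xE1a_copr {x y : ℤ} {K k : ℕ} (hk : k ∣ K) (h : IsCoprime x (K : ℤ))
    (hd : (K : ℤ) ∣ y - x) : IsCoprime y (k : ℤ) := by
  obtain ⟨t, ht⟩ := hd
  have := h.add_mul_left_left t
  rw [show x + K * t = y by linarith] at this
  exact this.of_isCoprime_of_dvd_right (Int.natCast_dvd_natCast.2 hk)

theorem xE1a_rng {X : Fin 10 → ℕ} {c σ : ℕ} (h1 : 1024 * (X 5 * X 7 ^ 2) ≤ X 0)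
    (h2 : 64 * (X 0 * X 5 * X 7 ^ 2) ≤ c * X 1) (h3 : c * X 1 ≤ 512 * (X 0 * X 5 * X 7 ^ 2))
    {a b m u r0 r1 rm ru : ℤ} {K0 K1 Km Ku : ℕ} (ha : a ∈ cl (X 0) (2 * X 0) K0 r0)
    (hb : b ∈ cl (X 1) (2 * X 1) K1 r1) (hm : m ∈ cl (X 5) (3 * X 5) Km rm)
    (hu : u ∈ cl (X 7) (2 * X 7) Ku ru) :
    0 ≤ (c * b - a * m * u ^ 2) / (σ : ℤ) ∧ (c * b - a * m * u ^ 2) / (σ : ℤ) ≤ (X 0 : ℤ) ^ 3 := by
  obtain ⟨a1, a2, -⟩ := mem_cl.1 ha
  obtain ⟨b1, b2, -⟩ := mem_cl.1 hb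
  obtain ⟨m1, m2, -⟩ := mem_cl.1 hm
  obtain ⟨u1, u2, -⟩ := mem_cl.1 hu
  have a0 : 0 ≤ a := by omega
  have m0 : 0 ≤ m := by omega
  have u0 : 0 ≤ u := by omega
  have x1 : (1 : ℤ) ≤ X 0 := by omega
  zify at h1 h2 h3
  have e1 : a * m * u ^ 2 ≤ (2 * (X 0 : ℤ)) * (3 * (X 5 : ℤ)) * (2 * (X 7 : ℤ)) ^ 2 := by gcongr
  have e2 : (c : ℤ) * X 1 ≤ c * b := by gcongr
  have e3 : (c : ℤ) * b ≤ c * (2 * (X 1 : ℤ)) := by gcongr
  have e4 : 0 ≤ (X 0 : ℤ) * X 5 * X 7 ^ 2 := by positivity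
  have e5 : 0 ≤ a * m * u ^ 2 := by positivity
  have e6 : (X 0 : ℤ) * (1024 * ((X 5 : ℤ) * X 7 ^ 2)) ≤ X 0 * X 0 := by gcongr
  have e7 : (X 0 : ℤ) * X 0 * 1 ≤ X 0 * X 0 * X 0 := by gcongr
  have e8 : 0 ≤ c * b - a * m * u ^ 2 := by nlinarith
  exact ⟨Int.ediv_nonneg e8 (by positivity), (Int.ediv_le_self _ e8).trans (by nlinarith)⟩

/-- Coprimality at a point of the cell. -/
theorem xE1a_unit {s : S12} {v : V10} (hs : SOK s) (e : (cc v : ℤ) = 4 * v 4 * v 9 ^ 2)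
    {a b m u : ℤ} (h : Cond s (pt4 v a b m u)) (hu : IsCoprime u (v 4 * v 9)) :
    IsCoprime u (KP s v : ℤ) ∧ IsCoprime (s 5 : ℤ) (cc v : ℤ) := by
  have h1 : u % 240 = 1 := h.1 7
  have h2 : IsCoprime u 240 := ⟨1, -(u / 240), by omega⟩
  have h3 : ∀ σ, IsCoprime u (s σ : ℤ) := fun σ => h.unit hs σ 7 (Or.inl (by decide))
  have h4 : IsCoprime (v 4) (s 5 : ℤ) := h.unit hs 5 4 (Or.inr ⟨4, by decide, rfl⟩)
  have h5 : IsCoprime (v 9) (s 5 : ℤ) := h.unit hs 5 9 (Or.inl (by decide))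
  have h6 : IsCoprime (s 5 : ℤ) 2 := by
    have : Nat.Coprime (s 5) 2 := (Nat.coprime_comm.1
      ((Nat.Prime.coprime_iff_not_dvd Nat.prime_two).2 fun h => (hs.odd Nat.prime_two h).1 rfl))
    exact Nat.isCoprime_iff_coprime.2 this
  constructor
  · rw [KP, KK, SP]
    push_cast
    rw [e]
    exact ((((h2.of_isCoprime_of_dvd_right (by norm_num)).mul_right
      hu.of_mul_right_left).mul_right hu.of_mul_right_right.pow_right).mul_right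
        ((h2.of_isCoprime_of_dvd_right (by norm_num)).mul_right
          (IsCoprime.prod_right fun σ _ => h3 σ))).mul_right (h3 5)
  · rw [e, show (4 : ℤ) = 2 * 2 from rfl]
    exact ((h6.mul_right h6).mul_right h4.symm).mul_right h5.symm.pow_right

theorem xE1a_ok {X : Fin 10 → ℕ} {Z : ℕ} {s : S12} {v : V10} (hR : Reg X Z) (hs : s ∈ SSet Z)
    (hv : v ∈ Box X) {R : ℝ} (hZ : R ≤ Z) {n : ℕ} {ys μ ru : ℤ}
    (hn1 : 2 * (X 1 : ℤ) - X 1 ≤ (KK s * s 5 : ℕ) * n + (KK s * s 5 : ℕ))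
    (hn2 : ((KK s * s 5 : ℕ) : ℤ) * n ≤ 2 * (X 1 : ℤ) - X 1 + (KK s * s 5 : ℕ))
    (hμ : μ.toNat.Prime) (hμ' : (X 5 : ℤ) < s 5 * μ) (hu : IsCoprime ru (KP s v : ℤ)) :
    DP.OK ⟨KP s v, s 5 * X 0, X 5 / s 5, X 7, n, ys, μ, ru⟩ R ∧ 2 ≤ X 5 / s 5 := by
  obtain ⟨a1, a2, a3, -, a5, a6, a7, a8, a9⟩ := xE1a_sz hR hs hv
  obtain ⟨e, -, -⟩ := xE1a_cc hv
  obtain ⟨s1, s2⟩ := mem_SSet.1 hs
  have z2 := hR.z2
  have p5 := s1.pos 5
  have p6 : s 5 ≤ X 7 := ((le_SP s1 5).trans s2).trans a2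
  have k0 : 1 ≤ KK s * s 5 := Nat.mul_pos (Nat.mul_pos (by norm_num) (p5.trans (le_SP s1 5))) p5
  have k1 : KP s v = cc v * (KK s * s 5) := mul_assoc _ _ _
  have k2 : KK s * s 5 ≤ KP s v := k1 ▸ Nat.le_mul_of_pos_left _ a8
  have k3 : KP s v ≤ X 7 := ((Nat.le_self_pow (by norm_num) _).trans
    (Nat.le_mul_of_pos_right _ (by omega))).trans a1
  have m1 : X 7 ^ 4 ≤ X 5 / s 5 := (Nat.le_div_iff_mul_le p5).2
    ((Nat.mul_le_mul_left _ p6).trans ((pow_succ _ _).symm.trans_le hR.h5))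
  have m2 : X 7 ≤ X 5 / s 5 := (Nat.le_self_pow (by norm_num) _).trans m1
  have m3 := Nat.mul_div_le (X 5) (s 5)
  have m4 := Nat.lt_mul_div_succ (X 5) p5
  have m5 : X 5 ≤ 2 * (s 5 * (X 5 / s 5)) := by nlinarith
  have n1 : X 1 ≤ KK s * s 5 * n + KK s * s 5 := by zify; push_cast at hn1; linarith
  have n2 : KK s * s 5 * n ≤ X 1 + KK s * s 5 := by zify; push_cast at hn2; linarith
  refine ⟨⟨?_, k0.trans k2, ?_, hu, ?_, m1, (Nat.div_le_self _ _).trans hR.h5', ?_, ?_, ?_⟩,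
    a5.trans m2⟩
  · refine Int.natCast_dvd_natCast.1 ⟨v 4 * v 9 ^ 2 * (KK s * s 5 : ℕ), ?_⟩
    change (KP s v : ℤ) = _
    rw [k1, Nat.cast_mul, e]
    push_cast
    ring
  · have h1 : ((X 5 / s 5 : ℕ) : ℤ) < μ := by
      refine lt_of_mul_lt_mul_left (lt_of_le_of_lt ?_ hμ') (Int.natCast_nonneg (s 5))
      exact_mod_cast m3
    have h2 : Nat.Coprime μ.toNat (KP s v) :=
      (Nat.coprime_of_lt_prime (by omega) (by omega) hμ)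
    have h3 := Nat.isCoprime_iff_coprime.2 h2
    rwa [Int.toNat_of_nonneg (by omega)] at h3
  · refine le_trans (mul_le_mul_of_nonneg_left hZ (by positivity)) ?_
    exact_mod_cast a1
  · exact ((Nat.pow_le_pow_left (Nat.div_le_self _ _) _).trans a9).trans
      (Nat.le_mul_of_pos_left _ p5)
  · change s 5 * X 0 * (X 5 / s 5) * X 7 ^ 2 ≤ KP s v * n
    have h1 : cc v * X 1 ≤ cc v * (2 * (KK s * s 5 * n)) := Nat.mul_le_mul_left _ (by omega)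
    have h2 : X 0 * (s 5 * (X 5 / s 5)) * X 7 ^ 2 ≤ X 0 * X 5 * X 7 ^ 2 := by gcongr
    rw [k1]
    linarith
  · change KP s v * n ≤ 2000 * (s 5 * X 0 * (X 5 / s 5) * X 7 ^ 2)
    have h1 : cc v * (2 * (KK s * s 5 * n)) ≤ cc v * (3 * X 1) := Nat.mul_le_mul_left _ (by omega)
    have h2 : X 0 * X 5 * X 7 ^ 2 ≤ X 0 * (2 * (s 5 * (X 5 / s 5))) * X 7 ^ 2 := by gcongr
    rw [k1]
    linarith

theorem xE1a_F (g : ℤ → ℝ) {T : ℝ} (hT : 0 < T) :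
    ∃ F : ℤ → ℝ, (∀ t, |F t| ≤ 1) ∧ ∀ t, |g t| ≤ T → T * F t = g t := by
  refine ⟨fun t => if |g t| ≤ T then g t / T else 0, fun t => ?_, fun t ht => ?_⟩
  · beta_reduce
    split_ifs with h
    · rw [abs_div, abs_of_pos hT]
      exact (div_le_one hT).2 h
    · simp
  · beta_reduce
    rw [if_pos ht, mul_div_cancel₀ _ hT.ne']

theorem xE1a_O8 {X : Fin 10 → ℕ} {v : V10} (hv : v ∈ Box X) {m u : ℤ}
    (hm : m ∈ Ioc (X 5 : ℤ) (3 * X 5)) (hu : u ∈ Ioc (X 7 : ℤ) (2 * X 7)) :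
    pt4 v 0 0 m u ∈ O8 X := by
  have h := Fintype.mem_piFinset.1 hv
  refine Fintype.mem_piFinset.2 fun i => ?_
  fin_cases i
  exacts [mem_singleton_self _, mem_singleton_self _, h 2, h 3, h 4, hm, h 6, hu, h 8, h 9]

theorem xE1a_rho (X : Fin 10 → ℕ) (q : ℕ) (π : I8) : 0 ≤ rho X q π := by
  unfold rho
  positivity

theorem E1a_pf (h1 : IDL) : E1a := by
  obtain ⟨C, hC⟩ := h1
  refine ⟨C, fun B e he => ?_⟩
  obtain ⟨X1, w1⟩ := P.wt_all B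
  obtain ⟨X2, w2⟩ := Reg.log_le (e * C)
  obtain ⟨X3, w3⟩ := Reg.log_le 2
  refine ⟨X1 + X2 + X3, fun X Z hR hX G1 G2 H hE s hs v hv r0 r1 rm ru => ?_⟩
  have hW := (w1 (X 0) (by omega)).2.2.1
  have hZ := (w2 X Z hR (by omega)).1
  have hL : (2 : ℝ) ≤ Real.log (X 0) := by exact_mod_cast (w3 X Z hR (by omega)).2.2
  obtain ⟨-, -, -, z1, z0, z2, z3, z4, z5⟩ := xE1a_sz hR hs hv
  have hM : Real.log (X 5 / s 5 : ℕ) ≤ Real.log (X 0) := by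
    rcases Nat.eq_zero_or_pos (X 5 / s 5) with h | h
    · rw [h, Nat.cast_zero, Real.log_zero]
      linarith
    · exact Real.log_le_log (Nat.cast_pos.2 h) (Nat.cast_le.2
        ((Nat.div_le_self _ _).trans ((Nat.le_self_pow (by norm_num) _).trans z5)))
  clear w1 w2 w3
  generalize WW B (X 0) = W at hW ⊢
  generalize Real.log (X 0) = L at hW hZ hL hM ⊢
  have hL0 : 0 < L := by linarith
  have hLe : L ≤ L ^ e := le_self_pow₀ (by linarith) (by omega)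
  have s1 := (mem_SSet.1 hs).1
  have ec := (xE1a_cc hv).1
  by_cases h0 : ∀ a ∈ cl (X 0) (2 * X 0) (cc v * KK s) r0, ∀ b ∈ cl (X 1) (2 * X 1) (KK s * s 5) r1,
      ∀ m ∈ cl (X 5) (2 * X 5) (s 5 * KP s v) rm, ∀ u ∈ cl (X 7) (2 * X 7) (KP s v) ru,
        GG s (pt4 v a b m u) = 0 ∨ H s (pt4 v a b m u) = 0
  · rw [sum_eq_zero fun a ha => sum_eq_zero fun b hb => sum_eq_zero fun m hm =>
      sum_eq_zero fun u hu => by rcases h0 a ha b hb m hm u hu with h | h <;> simp [h], abs_zero]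
    refine add_nonneg (mul_nonneg (by positivity) (sum_nonneg fun _ _ => sum_nonneg fun _ _ =>
      sum_nonneg fun _ _ => sum_nonneg fun _ _ => by positivity)) (mul_nonneg (by positivity)
        (sum_nonneg fun _ _ => sum_nonneg fun _ _ => sum_nonneg fun _ _ => sum_nonneg fun _ _ =>
          mul_nonneg (xE1a_rho _ _ _) (abs_nonneg _)))
  simp only [not_forall, not_or] at h0
  obtain ⟨a0, ha0, b0, hb0, m0, hm0, u0, hu0, g0, g1⟩ := h0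
  have g2 := (GG_01 s _).resolve_left g0
  obtain ⟨g3, g4⟩ := hE.sup s _ g1
  obtain ⟨μ0, rfl⟩ : (s 5 : ℤ) ∣ m0 := g2.2.dvd s1 5
  have p5 := s1.pos 5
  have p0 : (s 5 : ℤ) ≠ 0 := by omega
  have g5 : μ0.toNat.Prime := by
    rwa [show qq s (pt4 v a0 b0 (s 5 * μ0) u0) 5 = μ0 from Int.mul_ediv_cancel_left _ p0] at g4
  obtain ⟨g6, g7⟩ := xE1a_unit s1 ec g2.2 g3
  have g8 : IsCoprime ru (KP s v : ℤ) :=
    xE1a_copr dvd_rfl g6 (dvd_sub_comm.1 (mem_cl.1 hu0).2.2)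
  have d1 : KK s ∣ KP s v := ⟨cc v * s 5, by rw [KP]; ring⟩
  have d2 : cc v ∣ KP s v := ⟨KK s * s 5, by rw [KP]; ring⟩
  have all : ∀ a ∈ cl (X 0) (2 * X 0) (cc v * KK s) r0, ∀ b ∈ cl (X 1) (2 * X 1) (KK s * s 5) r1,
      ∀ m ∈ cl (X 5) (3 * X 5) (s 5 * KP s v) rm, ∀ u ∈ cl (X 7) (2 * X 7) (KP s v) ru,
        GG s (pt4 v a b m u) = 1 ∧ Cond s (pt4 v a b m u) := fun a ha b hb m hm u hu =>
    xE1a_per s1 g2 (xE1a_dvd (dvd_mul_left _ _) ha0 ha) (xE1a_dvd (dvd_mul_right _ _) hb0 hb)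
      (xE1a_dvd (d1.mul_left _) hm0 hm) (xE1a_dvd d1 hu0 hu)
  obtain ⟨n1, n, hB, hn1, hn2⟩ := xE1a_B (X 1) (2 * X 1) r1 (by omega) (K := KK s * s 5)
    (Nat.mul_pos (Nat.mul_pos (by norm_num) (p5.trans (le_SP s1 5))) p5)
  obtain ⟨ok, m2⟩ := xE1a_ok hR hs hv hZ (ys := s 5 * r0) hn1 hn2 g5 (mem_cl.1 hm0).1 g8
  obtain ⟨F, F1, F2⟩ := xE1a_F (fun t => gg W (t / (s 11 : ℤ))) (T := 3 * L) (by linarith)
  have F3 : ∀ a ∈ cl (X 0) (2 * X 0) (cc v * KK s) r0, ∀ b ∈ cl (X 1) (2 * X 1) (KK s * s 5) r1,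
      ∀ μ ∈ cl (X 5 / s 5 : ℕ) (3 * (X 5 / s 5 : ℕ)) (KP s v) μ0,
        ∀ u ∈ cl (X 7) (2 * X 7) (KP s v) ru, 3 * L * F (cc v * b - s 5 * a * μ * u ^ 2) =
          gg W ((cc v * b - a * (s 5 * μ) * u ^ 2) / (s 11 : ℤ)) := fun a ha b hb μ hμ u hu => by
    have := xE1a_rng (σ := s 11) z1 z2 z3 ha hb (xE1a_M3 p5 (mem_cl.1 hm0).2.2 hμ) hu
    rw [show s 5 * a * μ = a * (s 5 * μ) by ring]
    exact F2 _ (hW _ this.1 this.2)
  set p : DP := ⟨KP s v, s 5 * X 0, X 5 / s 5, X 7, n, s 5 * r0, μ0, ru⟩ with hp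
  have tr : ∀ Φ : ℤ → ℤ → ℝ, ∑ x ∈ p.SX, ∑ y ∈ p.SY, Φ y (n1 + (KK s * s 5 : ℕ) * x) =
      ∑ a ∈ cl (X 0) (2 * X 0) (cc v * KK s) r0, ∑ b ∈ cl (X 1) (2 * X 1) (KK s * s 5) r1,
        Φ (s 5 * a) b := fun Φ => by
    refine (hB fun b => ∑ y ∈ p.SY, Φ y b).symm.trans ?_
    rw [sum_comm]
    exact xE1a_A p5 (X 0) (cc v * KK s) r0 _
  have eK : ∀ x : ℤ, (p.K : ℤ) * x + cc v * n1 = cc v * (n1 + (KK s * s 5 : ℕ) * x) := fun x => by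
    change ((cc v * KK s * s 5 : ℕ) : ℤ) * x + _ = _
    push_cast
    ring
  have key := hC (L ^ e)⁻¹ (by positivity)
    ((inv_anti₀ (by norm_num) (hL.trans hLe)).trans_eq (one_div 2).symm) p
    (by rwa [inv_inv, ← pow_mul]) (by rw [inv_inv]; exact hM.trans hLe) (cc v * n1) F
    (fun x y μ => if s 5 * μ ≤ 2 * (X 5 : ℤ) then
      G1 s (pt4 v (y / s 5) (n1 + (KK s * s 5 : ℕ) * x) (s 5 * μ) 0) else 0)
    (fun x y u => G2 s (pt4 v (y / s 5) (n1 + (KK s * s 5 : ℕ) * x) 0 u))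
    (fun μ u => H s (pt4 v 0 0 (s 5 * μ) u)) F1
    (fun x y μ => by split_ifs; exacts [hE.b1 _ _, by simp]) (fun _ _ _ => hE.b2 _ _)
    fun _ _ => hE.b3 _ _
  rw [inv_inv, ← pow_mul] at key
  refine le_trans (le_of_eq ?_) ((mul_le_mul_of_nonneg_left key
    (show 0 ≤ 3 * L by linarith)).trans ((mul_add _ _ _).trans_le (add_le_add ?_ ?_)))
  · simp only [eK]
    rw [tr fun y b => ∑ μ ∈ p.SM, ∑ u ∈ p.SU, (if s 5 * μ ≤ 2 * (X 5 : ℤ) then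
      G1 s (pt4 v (y / s 5) b (s 5 * μ) 0) else 0) * G2 s (pt4 v (y / s 5) b 0 u) *
        H s (pt4 v 0 0 (s 5 * μ) u) * F (cc v * b - y * μ * u ^ 2),
      ← abs_of_pos (show 0 < 3 * L by linarith), ← abs_mul, mul_sum]
    refine congrArg _ (sum_congr rfl fun a ha => ?_)
    rw [mul_sum]
    refine sum_congr rfl fun b hb => ?_
    rw [xE1a_M2 p5 m2 (mem_cl.1 hm0).2.2, mul_sum]
    refine sum_congr rfl fun μ hμ => ?_
    rw [Int.mul_ediv_cancel_left _ p0]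
    split_ifs with h
    · rw [mul_sum]
      refine sum_congr rfl fun u hu => ?_
      obtain ⟨i1, i2, i3⟩ := xE1a_EW hE s v a b (s 5 * μ) u
      rw [(all a ha b hb _ (xE1a_M3 p5 (mem_cl.1 hm0).2.2 hμ) u hu).1, i1, i2, i3,
        show qq s (pt4 v a b (s 5 * μ) u) 11 = (cc v * b - a * (s 5 * μ) * u ^ 2) / (s 11 : ℤ) by
          rw [ec]
          exact congrArg (· / (s 11 : ℤ))
            (show 4 * v 4 * b * v 9 ^ 2 - a * (s 5 * μ) * u ^ 2 = _ by ring),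
        ← F3 a ha b hb μ hμ u hu]
      ring
    · simp
  · rw [← mul_assoc, ← div_eq_mul_inv]
    refine mul_le_mul_of_nonneg_left ?_ (by positivity)
    have c1 := tr fun _ _ => (p.SM.card : ℝ) * p.SU.card
    rw [sum_const, sum_const, DP.SX, Int.card_Ioc, sub_zero, Int.toNat_natCast, nsmul_eq_mul,
      nsmul_eq_mul, ← mul_assoc, ← mul_assoc] at c1
    refine c1.trans_le (sum_le_sum fun a ha => sum_le_sum fun b hb => ?_)
    rw [← nsmul_eq_mul, ← sum_const]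
    refine xE1a_inj p0 (fun μ hμ => ⟨xE1a_M3 p5 (mem_cl.1 hm0).2.2 hμ, ?_⟩)
      fun m _ => sum_nonneg fun _ _ => by positivity
    rw [sum_congr rfl fun u hu =>
      if_pos (all a ha b hb _ (xE1a_M3 p5 (mem_cl.1 hm0).2.2 hμ) u hu).2]
    simp [DP.SU, hp]
  · rw [mul_left_comm, mul_sum]
    refine mul_le_mul_of_nonneg_left (sum_le_sum fun q _ => ?_) (by positivity)
    rw [sum_comm, ← mul_assoc, mul_sum]
    refine xE1a_inj p0 (fun μ hμ => ⟨xE1a_M3 p5 (mem_cl.1 hm0).2.2 hμ, ?_⟩) fun m _ =>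
      sum_nonneg fun _ _ => sum_nonneg fun _ _ => mul_nonneg (xE1a_rho _ _ _) (abs_nonneg _)
    rw [mul_sum]
    refine sum_le_sum fun u hu => ?_
    rw [mul_sum]
    refine xE1a_inj p0 (fun μ' hμ' => ?_) fun _ _ => mul_nonneg (xE1a_rho _ _ _) (abs_nonneg _)
    obtain ⟨j1, j2, j3⟩ := (mem_filter.1 hμ').imp_right id
    have j4 := xE1a_M3 p5 (mem_cl.1 hm0).2.2 hμ
    have j5 := xE1a_M3 p5 (mem_cl.1 hm0).2.2 j1
    constructor
    · have j6 : s 5 * μ' ∈ Ioc (X 5 : ℤ) (3 * X 5) := (mem_filter.1 j5).1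
      refine mem_filter.2 ⟨j6, mem_filter.2 ⟨mem_product.2 ⟨hs, mem_product.2
        ⟨xE1a_O8 hv (mem_filter.1 j4).1 (mem_filter.1 hu).1, j6⟩⟩,
          ⟨⟨a0, b0, (xE1a_upd v a0 b0 _ u).symm ▸ (all a0 ha0 b0 hb0 _ j4 u hu).2⟩,
            (g7.mul_left (xE1a_copr d2 ok.cm (mem_cl.1 hμ).2.2)).mul_left
              (xE1a_copr d2 g8 (mem_cl.1 hu).2.2)⟩, fun h => j2 (mul_left_cancel₀ p0 h), ?_⟩⟩
      change ((s 5 * (q * p.K ^ 32) : ℕ) : ℤ) ∣ s 5 * μ - s 5 * μ'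
      rw [← mul_sub, Nat.cast_mul]
      exact mul_dvd_mul_left _ j3
    · have ht : Tc W X s (pt4 v 0 0 (s 5 * μ) u) (s 5 * μ') r0 r1 =
          3 * L * (3 * L) * p.corr (cc v * n1) F u μ μ' := by
        rw [DP.corr]
        simp only [eK]
        rw [tr fun y b => F (cc v * b - y * μ * u ^ 2) * F (cc v * b - y * μ' * u ^ 2), mul_sum]
        refine sum_congr rfl fun a ha => ?_
        rw [mul_sum]
        refine sum_congr rfl fun b hb => ?_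
        rw [xE1a_upd, if_pos (all a ha b hb _ j4 u hu).2, mul_mul_mul_comm, F3 a ha b hb μ hμ u hu,
          F3 a ha b hb μ' j1 u hu]
        rfl
      have hr := xE1a_rho X q (s, pt4 v 0 0 (s 5 * μ) u, s 5 * μ')
      rw [ht, abs_mul, abs_of_pos (show 0 < 3 * L * (3 * L) by positivity),
        show (q : ℝ) * p.K ^ 32 / p.M = rho X q (s, pt4 v 0 0 (s 5 * μ) u, s 5 * μ') from rfl,
        mul_comm (3 * L), mul_assoc]
      exact mul_le_mul_of_nonneg_left (mul_le_mul_of_nonneg_right (by nlinarith) (abs_nonneg _)) hr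

end Pool.Agent.MP_e23604_nt.U

end
end

section

/-!
The pairs of forms are admissible.
-/

open Finset
open scoped Classical

noncomputable section

namespace Pool.Agent.MP_e23604_nt.U

open P (gg WW Datum Wt)

theorem xE4a_sp {n : ℕ} {p q c m x y t : ℤ} (h1 : (n : ℤ) ∣ p * x + q * y)
    (h2 : (n : ℤ) ∣ p * (x + t * c) + q * (y + t * m))
    (h3 : ∀ l : ℕ, l.Prime → l ∣ n → ¬ (l : ℤ) ∣ c * y - m * x ∧ (¬ (l : ℤ) ∣ p ∨ ¬ (l : ℤ) ∣ q)) :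
    (n : ℤ) ∣ t := by
  have h4 : (n : ℤ) ∣ t * (p * c + q * m) := by
    have := dvd_sub h2 h1
    rwa [show p * (x + t * c) + q * (y + t * m) - (p * x + q * y) = t * (p * c + q * m) by ring]
      at this
  refine IsCoprime.dvd_of_dvd_mul_right ?_ h4
  rw [Int.isCoprime_iff_gcd_eq_one]
  by_contra H
  obtain ⟨l, hl, hd⟩ := Nat.exists_prime_and_dvd H
  have d1 : (l : ℤ) ∣ n := (Int.natCast_dvd_natCast.2 hd).trans (Int.gcd_dvd_left ..)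
  have d2 : (l : ℤ) ∣ p * c + q * m := (Int.natCast_dvd_natCast.2 hd).trans (Int.gcd_dvd_right ..)
  have d3 := d1.trans h1
  obtain ⟨e1, e2⟩ := h3 l hl (Int.natCast_dvd_natCast.1 d1)
  have hp := Nat.prime_iff_prime_int.1 hl
  rcases e2 with e2 | e2
  · have : (l : ℤ) ∣ p * (c * y - m * x) := by
      rw [show p * (c * y - m * x) = y * (p * c + q * m) - m * (p * x + q * y) by ring]
      exact dvd_sub (d2.mul_left _) (d3.mul_left _)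
    exact (hp.dvd_or_dvd this).elim e2 e1
  · have : (l : ℤ) ∣ q * (c * y - m * x) := by
      rw [show q * (c * y - m * x) = c * (p * x + q * y) - x * (p * c + q * m) by ring]
      exact dvd_sub (d3.mul_left _) (d2.mul_left _)
    exact (hp.dvd_or_dvd this).elim e2 e1

theorem xE4a_site (v : V10) (a b : ℤ) : site (upd v a b) 0 = 1 * a + 0 * b ∧
    site (upd v a b) 1 = 0 * a + 1 * b ∧
    site (upd v a b) 6 = v 2 * v 6 ^ 2 * a + -(4 * v 3 * v 9 ^ 2) * b ∧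
    site (upd v a b) 7 = -(v 3 * v 7 ^ 2) * a + 4 * v 2 * v 8 ^ 2 * b ∧
    site (upd v a b) 10 = v 4 * v 6 ^ 2 * a + -(4 * v 5 * v 8 ^ 2) * b ∧
    site (upd v a b) 11 = 4 * v 4 * v 9 ^ 2 * b - v 5 * v 7 ^ 2 * a ∧
    site (upd v a b) 4 = v 4 ∧ site (upd v a b) 8 = v 2 ∧ site (upd v a b) 9 = v 3 ∧
    upd v a b 6 = v 6 ∧ upd v a b 7 = v 7 := by
  simp [site, upd]
  refine ⟨?_, ?_, ?_, ?_⟩ <;> ring

theorem xE4a_t0 {s : S12} {v : V10} {x y t : ℤ} (hs : SOK s) (h1 : Cond s (upd v x y))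
    (h2 : Cond s (upd v (x + t * (4 * v 4 * v 9 ^ 2)) (y + t * (v 5 * v 7 ^ 2)))) :
    ((s 0 * s 1 * s 6 * s 7 * s 10 : ℕ) : ℤ) ∣ t := by
  obtain ⟨a0, a1, a6, a7, a10, a11, a4, a8, a9, b6, b7⟩ := xE4a_site v x y
  obtain ⟨c0, c1, c6, c7, c10, -⟩ :=
    xE4a_site v (x + t * (4 * v 4 * v 9 ^ 2)) (y + t * (v 5 * v 7 ^ 2))
  have u : ∀ {l : ℕ} {a b : ℤ}, l.Prime → ¬ (l : ℤ) ∣ a → ¬ (l : ℤ) ∣ b → ¬ (l : ℤ) ∣ a * b ^ 2 :=
    fun hl ha hb H => ((Nat.prime_iff_prime_int.1 hl).dvd_or_dvd H).elim ha fun H =>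
      hb ((Nat.prime_iff_prime_int.1 hl).dvd_of_dvd_pow H)
  have d0 : (s 0 : ℤ) ∣ t := xE4a_sp (a0 ▸ h1.dvd hs 0) (c0 ▸ h2.dvd hs 0) fun l hl hd =>
    ⟨a11 ▸ (h1.loc hs hl hd).2.1 11 (by decide),
      Or.inl (Nat.prime_iff_prime_int.1 hl).not_dvd_one⟩
  have d1 : (s 1 : ℤ) ∣ t := xE4a_sp (a1 ▸ h1.dvd hs 1) (c1 ▸ h2.dvd hs 1) fun l hl hd =>
    ⟨a11 ▸ (h1.loc hs hl hd).2.1 11 (by decide),
      Or.inr (Nat.prime_iff_prime_int.1 hl).not_dvd_one⟩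
  have d6 : (s 6 : ℤ) ∣ t := xE4a_sp (a6 ▸ h1.dvd hs 6) (c6 ▸ h2.dvd hs 6) fun l hl hd =>
    ⟨a11 ▸ (h1.loc hs hl hd).2.1 11 (by decide), Or.inl (u hl
      (a8 ▸ (h1.loc hs hl hd).2.1 8 (by decide)) (b6 ▸ (h1.loc hs hl hd).2.2 6 (by decide)))⟩
  have d7 : (s 7 : ℤ) ∣ t := xE4a_sp (a7 ▸ h1.dvd hs 7) (c7 ▸ h2.dvd hs 7) fun l hl hd =>
    ⟨a11 ▸ (h1.loc hs hl hd).2.1 11 (by decide), Or.inl fun H => u hl
      (a9 ▸ (h1.loc hs hl hd).2.1 9 (by decide)) (b7 ▸ (h1.loc hs hl hd).2.2 7 (by decide))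
      (dvd_neg.1 H)⟩
  have d10 : (s 10 : ℤ) ∣ t := xE4a_sp (a10 ▸ h1.dvd hs 10) (c10 ▸ h2.dvd hs 10) fun l hl hd =>
    ⟨a11 ▸ (h1.loc hs hl hd).2.1 11 (by decide), Or.inl (u hl
      (a4 ▸ (h1.loc hs hl hd).2.1 4 (by decide)) (b6 ▸ (h1.loc hs hl hd).2.2 6 (by decide)))⟩
  rw [Int.natCast_dvd] at *
  have c : ∀ σ τ : Fin 12, σ ≠ τ → Nat.Coprime (s σ) (s τ) := fun _ _ h => hs.cop h
  refine Nat.Coprime.mul_dvd_of_dvd_of_dvd ?_ (Nat.Coprime.mul_dvd_of_dvd_of_dvd ?_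
    (Nat.Coprime.mul_dvd_of_dvd_of_dvd ?_ (Nat.Coprime.mul_dvd_of_dvd_of_dvd ?_ d0 d1) d6) d7) d10
  · exact (((c 0 10 (by decide)).mul_left (c 1 10 (by decide))).mul_left
      (c 6 10 (by decide))).mul_left (c 7 10 (by decide))
  · exact ((c 0 7 (by decide)).mul_left (c 1 7 (by decide))).mul_left (c 6 7 (by decide))
  · exact (c 0 6 (by decide)).mul_left (c 1 6 (by decide))
  · exact c 0 1 (by decide)

theorem xE4a_rng {X0 X1 X4 X5 X7 X9 a b u v4 v7 v9 : ℤ} (h0 : 0 < X0) (h1 : 0 < X1) (h4 : 0 < X4)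
    (h5 : 0 < X5) (h7 : 0 < X7) (h9 : 0 < X9) (b3 : X4 * X1 * X9 ^ 2 = 16 * (X0 * X5 * X7 ^ 2))
    (ha : X0 < a ∧ a ≤ 2 * X0) (hb : X1 < b ∧ b ≤ 2 * X1) (hu : X5 < u ∧ u ≤ 3 * X5)
    (g4 : X4 < v4 ∧ v4 ≤ 2 * X4) (g7 : X7 < v7 ∧ v7 ≤ 2 * X7) (g9 : X9 < v9 ∧ v9 ≤ 2 * X9) :
    0 < -(u * v7 ^ 2) * a + 4 * v4 * v9 ^ 2 * b ∧
      -(u * v7 ^ 2) * a + 4 * v4 * v9 ^ 2 * b ≤ 64 * X4 * X1 * X9 ^ 2 := by
  obtain ⟨a1, a2⟩ := ha
  obtain ⟨b1, b2⟩ := hb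
  obtain ⟨u1, u2⟩ := hu
  obtain ⟨p1, p2⟩ := g4
  obtain ⟨q1, q2⟩ := g7
  obtain ⟨r1, r2⟩ := g9
  have := h0.trans a1
  have := h1.trans b1
  have := h5.trans u1
  have := h4.trans p1
  have := h7.trans q1
  have := h9.trans r1
  have e1 : u * v7 ^ 2 * a ≤ 3 * X5 * (2 * X7) ^ 2 * (2 * X0) := by gcongr
  have e2 : 4 * X4 * X9 ^ 2 * X1 ≤ 4 * v4 * v9 ^ 2 * b := by gcongr
  have e3 : 4 * v4 * v9 ^ 2 * b ≤ 4 * (2 * X4) * (2 * X9) ^ 2 * (2 * X1) := by gcongr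
  have e4 : 0 < u * v7 ^ 2 * a := by positivity
  have e5 : 0 < X0 * X5 * X7 ^ 2 := by positivity
  constructor <;> nlinarith

theorem E4a_pf  : E4a := by
  rintro X Z q ε hX - hε ⟨s, v, w⟩ hπ
  obtain ⟨hm, ⟨-, hcop⟩, hw, hd⟩ := mem_filter.1 hπ
  simp only [mem_product, mem_Ioc] at hm hcop hw hd
  obtain ⟨hs, hv, hw1⟩ := hm
  obtain ⟨hs, hZ⟩ := mem_SSet.1 hs
  obtain ⟨z1, z2, -, -, z5, z6⟩ := hX.sizes
  have z2' := hX.z2
  have b3 : (X 4 : ℤ) * X 1 * (X 9 : ℤ) ^ 2 = 16 * (X 0 * X 5 * (X 7 : ℤ) ^ 2) := by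
    exact_mod_cast hX.b3
  have hM : ∀ i, 2 ^ 30 ≤ X i := fun i => le_trans (le_trans (Nat.pow_le_pow_left z2' 30)
    (Nat.pow_le_pow_right (by omega) (by norm_num))) (z1 i)
  have hp : ∀ i, 0 < X i := fun i => lt_of_lt_of_le (by norm_num) (hM i)
  have hp' : ∀ i, (0 : ℤ) < X i := fun i => by exact_mod_cast hp i
  have g := Fintype.mem_piFinset.1 hv
  have g4 : (X 4 : ℤ) < v 4 ∧ v 4 ≤ 2 * X 4 := by simpa using g 4
  have g5 : (X 5 : ℤ) < v 5 ∧ v 5 ≤ 3 * X 5 := by simpa using g 5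
  have g7 : (X 7 : ℤ) < v 7 ∧ v 7 ≤ 2 * X 7 := by simpa using g 7
  have g9 : (X 9 : ℤ) < v 9 ∧ v 9 ≤ 2 * X 9 := by simpa using g 9
  have p4 := (hp' 4).trans g4.1
  have p7 := (hp' 7).trans g7.1
  have p9 := (hp' 9).trans g9.1
  have hc : (cc v : ℤ) = 4 * v 4 * v 9 ^ 2 := Int.toNat_of_nonneg (by positivity)
  have hc0 : (0 : ℤ) < cc v := by rw [hc]; positivity
  have hdet : (datE X ε (s, v, w)).det = cc v * v 7 ^ 2 * (w - v 5) := by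
    simp only [datE, Datum.det]
    ring
  have s0 := hs.pos
  have hSP : 1 ≤ SP s := (s0 0).trans (le_SP hs 0)
  have k1 : ((KK s : ℕ) : ℤ) ∣ (KP s v : ℕ) :=
    Int.natCast_dvd_natCast.2 ⟨cc v * s 5, by unfold KP; ring⟩
  have hF : ∀ x y, (datE X ε (s, v, w)).F x y ≠ 0 → Cond s (upd v x y) := fun x y H => by
    by_contra H'
    exact H (if_neg H')
  have hper : ∀ x y x' y' : ℤ, ((KP s v : ℕ) : ℤ) ∣ x - x' → ((KP s v : ℕ) : ℤ) ∣ y - y' →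
      Cond s (upd v x y) → Cond s (upd v x' y') := fun x y x' y' h1 h2 H => H.per hs fun i => by
    unfold upd
    simp only [Function.update_apply]
    split_ifs
    exacts [k1.trans h2, k1.trans h1, by simp]
  have m4 : X 4 * X 9 ≤ X 5 :=
    le_trans (Nat.le_self_pow (show 1000 ≠ 0 by decide) _) (z6.trans z5)
  have n4 : X 4 ≤ X 5 := (Nat.le_mul_of_pos_right _ (hp 9)).trans m4
  have n9 : X 9 ≤ X 5 := (Nat.le_mul_of_pos_left _ (hp 4)).trans m4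
  have nS : SP s ≤ X 5 := hZ.trans ((Nat.le_self_pow (by decide) _).trans (z1 5))
  have ns : ∀ σ, s σ ≤ X 5 := fun σ => (le_SP hs σ).trans nS
  have top : ∀ k, k ≤ 400 → X 5 ^ k ≤ X 0 := fun k hk =>
    (Nat.pow_le_pow_right (hp 5) hk).trans (z2 5 (by decide))
  have hT : (0 : ℝ) < 4 * (X 4 : ℝ) * (X 9 : ℝ) ^ 2 := by
    have := hp 4
    have := hp 9
    positivity
  refine ⟨⟨?_, ?_, s0 11, s0 11, ?_, ?_, fun x y => ?_, fun x y => ⟨?_, ?_⟩, fun x y H => ?_,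
    fun x y t H H' => ?_, fun z hz => ?_, fun z hz t hz' => ?_⟩, ?_, ?_, ?_⟩
  · exact (hcop.of_mul_left_left.mul_left hcop.of_mul_left_right.pow_left).neg_left
  · rw [hdet]
    exact mul_ne_zero (by positivity) (sub_ne_zero.2 hw)
  · have : 0 < cc v := by exact_mod_cast hc0
    exact Nat.mul_pos (Nat.mul_pos this (Nat.mul_pos (by norm_num) hSP)) (s0 5)
  · exact Nat.mul_pos (Nat.mul_pos (Nat.mul_pos (Nat.mul_pos (s0 0) (s0 1)) (s0 6)) (s0 7)) (s0 10)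
  · simp only [datE]
    split_ifs
    exacts [hε _ _, by simp]
  · simp only [datE]
    rw [show ((KP s v : ℕ) : ℤ) = ((cc v * KK s : ℕ) : ℤ) * s 5 by unfold KP; push_cast; ring,
      Int.add_mul_emod_self_left]
    refine if_congr ⟨hper _ _ _ _ ?_ (by simp), hper _ _ _ _ ?_ (by simp)⟩ rfl rfl
    · exact ⟨1, by unfold KP; push_cast; ring⟩
    · exact ⟨-1, by unfold KP; push_cast; ring⟩
  · simp only [datE]
    rw [show ((KP s v : ℕ) : ℤ) = ((KK s * s 5 : ℕ) : ℤ) * cc v by unfold KP; push_cast; ring,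
      Int.add_mul_emod_self_left]
    refine if_congr ⟨hper _ _ _ _ (by simp) ?_, hper _ _ _ _ (by simp) ?_⟩ rfl rfl
    · exact ⟨1, by unfold KP; push_cast; ring⟩
    · exact ⟨-1, by unfold KP; push_cast; ring⟩
  · have d1 := (hF x y H).dvd hs 11
    rw [(xE4a_site v x y).2.2.2.2.2.1] at d1
    have d2 : (s 11 : ℤ) ∣ v 5 - w := by
      refine (Int.natCast_dvd_natCast.2 ?_).trans hd
      have : s 11 ∣ KP s v := ((dvd_prod_of_mem s (mem_univ 11)).trans (dvd_mul_left _ 80)).trans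
        (Int.natCast_dvd_natCast.1 k1)
      exact ((this.trans (dvd_pow_self _ (by norm_num))).mul_left _).mul_left _
    simp only [datE, Datum.l, Datum.l', hc]
    refine ⟨?_, ?_⟩
    · rwa [show -(v 5 * v 7 ^ 2) * x + 4 * v 4 * v 9 ^ 2 * y =
        4 * v 4 * v 9 ^ 2 * y - v 5 * v 7 ^ 2 * x by ring]
    · rw [show -(w * v 7 ^ 2) * x + 4 * v 4 * v 9 ^ 2 * y =
        4 * v 4 * v 9 ^ 2 * y - v 5 * v 7 ^ 2 * x + (v 5 - w) * (v 7 ^ 2 * x) by ring]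
      exact dvd_add d1 (d2.mul_right _)
  · have h2 := hF _ _ H'
    simp only [datE, hc, mul_neg, sub_neg_eq_add] at h2
    exact xE4a_t0 hs (hF _ _ H) h2
  · simp only [datE, Datum.bx, mem_product, mem_Ioc] at hz
    have r1 := xE4a_rng (hp' 0) (hp' 1) (hp' 4) (hp' 5) (hp' 7) (hp' 9) b3 hz.1 hz.2 g5 g4 g7 g9
    have r2 := xE4a_rng (hp' 0) (hp' 1) (hp' 4) (hp' 5) (hp' 7) (hp' 9) b3 hz.1 hz.2 hw1 g4 g7 g9
    simp only [datE, Datum.l, Datum.l', hc, UE]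
    exact ⟨r1.1, by exact_mod_cast r1.2, r2.1, by exact_mod_cast r2.2⟩
  · simp only [datE, Datum.bx, mem_product, mem_Ioc] at hz hz'
    rw [TE, le_div_iff₀ hT]
    have e1 : |t * cc v| ≤ X 0 := abs_le.2 ⟨by linarith [hz.1.2, hz'.1.1], by
      linarith [hz.1.1, hz'.1.2]⟩
    rw [abs_mul, abs_of_pos hc0, hc] at e1
    have e2 : |t| * (4 * (X 4 : ℤ) * (X 9 : ℤ) ^ 2) ≤ |t| * (4 * v 4 * v 9 ^ 2) := by
      have := g4.1
      have := g9.1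
      gcongr
    exact_mod_cast e2.trans e1
  · exact (Nat.pow_le_pow_left (ns 11) 10).trans (top 10 (by norm_num))
  · have n7 : (X 7 : ℤ) ≤ X 5 := by exact_mod_cast z5
    have c1 : (cc v : ℤ) ≤ 4 * (2 * X 5) * (2 * X 5) ^ 2 := by
      have : v 4 ≤ 2 * X 5 := g4.2.trans (by exact_mod_cast Nat.mul_le_mul_left 2 n4)
      have : v 9 ≤ 2 * X 5 := g9.2.trans (by exact_mod_cast Nat.mul_le_mul_left 2 n9)
      rw [hc]
      gcongr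
    have c2 : |w - v 5| ≤ 2 * X 5 := abs_le.2 ⟨by linarith [hw1.1, g5.2], by linarith [hw1.2, g5.1]⟩
    have c3 : v 7 ≤ 2 * X 5 := by linarith [g7.2]
    have c4 : (SP s : ℤ) ≤ X 5 := by exact_mod_cast nS
    have c5 : (s 5 : ℤ) ≤ X 5 := by exact_mod_cast ns 5
    have c6 : (2 : ℤ) ^ 30 ≤ X 5 := by exact_mod_cast hM 5
    have c7 : (((datE X ε (s, v, w)).K : ℕ) : ℤ) ≤ (X 5 : ℤ) ^ 12 := by
      rw [Datum.K, Nat.cast_mul, Int.natCast_natAbs, hdet, abs_mul, abs_of_pos (by positivity)]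
      simp only [datE, KP, KK]
      push_cast
      calc _ ≤ (4 * (2 * X 5) * (2 * X 5) ^ 2) * (80 * X 5) * X 5 *
            ((4 * (2 * X 5) * (2 * X 5) ^ 2) * (2 * X 5) ^ 2 * (2 * X 5) : ℤ) := by gcongr
        _ = 655360 * (X 5 : ℤ) ^ 11 := by ring
        _ ≤ X 5 * (X 5 : ℤ) ^ 11 := by gcongr; linarith
        _ = _ := by ring
    have c8 : (datE X ε (s, v, w)).K ≤ X 5 ^ 12 := by exact_mod_cast c7
    refine (Nat.pow_le_pow_left c8 5).trans ?_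
    rw [← pow_mul]
    exact top _ (by norm_num)
  · rw [TE, le_div_iff₀ hT]
    have := hM 5
    have e : s 0 * s 1 * s 6 * s 7 * s 10 * (4 * X 4 * X 9 ^ 2) ≤
        X 5 * X 5 * X 5 * X 5 * X 5 * (X 5 * X 5 * X 5 ^ 2) := by
      gcongr <;> first | exact ns _ | omega
    have e' := e.trans ((le_of_eq (by ring)).trans (top 9 (by norm_num)))
    simp only [datE]
    exact_mod_cast e'

end Pool.Agent.MP_e23604_nt.U

end
end
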