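import Pool.Agent.Mg.Fe23604m.G954648
import Pool.Agent.Mg.Fe23604m.Ge5ee40
import Pool.Agent.Mg.Fe23604m.G651d65

set_option linter.all false

section

/-!
Two Cauchy-Schwarz steps.
-/

open Finset
open scoped Classical

noncomputable section

namespace Pool.Agent.MP_e23604_nt.U

theorem xLCs2_cs {ι κ : Type} (S : Finset ι) (T : Finset κ) (g : ι → ℂ) (F : ι → κ → ℂ)
    (hg : ∀ i, ‖g i‖ ≤ 1) :
    ‖∑ i ∈ S, g i * ∑ k ∈ T, F i k‖ ^ 2 ≤
      S.card * ‖∑ i ∈ S, ∑ k ∈ T, ∑ l ∈ T, F i k * (starRingEnd ℂ) (F i l)‖ := by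
  have h1 : ‖∑ i ∈ S, g i * ∑ k ∈ T, F i k‖ ≤ ∑ i ∈ S, ‖∑ k ∈ T, F i k‖ :=
    (norm_sum_le _ _).trans (sum_le_sum fun i _ => by
      rw [norm_mul]
      exact mul_le_of_le_one_left (norm_nonneg _) (hg i))
  have h2 : ∑ i ∈ S, ∑ k ∈ T, ∑ l ∈ T, F i k * (starRingEnd ℂ) (F i l) =
      ((∑ i ∈ S, ‖∑ k ∈ T, F i k‖ ^ 2 : ℝ) : ℂ) := by
    rw [Complex.ofReal_sum]
    refine sum_congr rfl fun i _ => ?_
    rw [← sum_mul_sum, ← map_sum, Complex.mul_conj', Complex.ofReal_pow]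
  rw [h2, Complex.norm_real, Real.norm_of_nonneg (sum_nonneg fun i _ => sq_nonneg _)]
  exact (pow_le_pow_left₀ (norm_nonneg _) h1 2).trans sq_sum_le_card_mul_sum_sq

theorem LCS2_pf  : LCS2 := by
  intro Ω A B SO SA SB G1 G2 H Φ h1 h2 h3
  have hc : ∀ {x y : ℂ}, ‖x‖ ≤ 1 → ‖y‖ ≤ 1 → ‖x * (starRingEnd ℂ) y‖ ≤ 1 := fun hx hy => by
    rw [norm_mul, Complex.norm_conj]
    exact mul_le_one₀ hx (norm_nonneg _) hy
  have s1 := xLCs2_cs (SO ×ˢ SA) SB (fun z => G1 z.1 z.2)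
    (fun z b => G2 z.1 b * H z.2 b * Φ z.1 z.2 b) fun z => h1 _ _
  have s2 := xLCs2_cs (SO ×ˢ SB ×ˢ SB) SA
    (fun z => G2 z.1 z.2.1 * (starRingEnd ℂ) (G2 z.1 z.2.2))
    (fun z a => H a z.2.1 * (starRingEnd ℂ) (H a z.2.2) *
      (Φ z.1 a z.2.1 * (starRingEnd ℂ) (Φ z.1 a z.2.2))) fun z => hc (h2 _ _) (h2 _ _)
  have e1 : ∑ o ∈ SO, ∑ a ∈ SA, ∑ b ∈ SB, G1 o a * G2 o b * H a b * Φ o a b =
      ∑ z ∈ SO ×ˢ SA, G1 z.1 z.2 * ∑ b ∈ SB, G2 z.1 b * H z.2 b * Φ z.1 z.2 b := by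
    rw [sum_product]
    simp only [mul_sum, mul_assoc]
  have e2 : ∑ z ∈ SO ×ˢ SA, ∑ k ∈ SB, ∑ l ∈ SB, G2 z.1 k * H z.2 k * Φ z.1 z.2 k *
      (starRingEnd ℂ) (G2 z.1 l * H z.2 l * Φ z.1 z.2 l) =
      ∑ z ∈ SO ×ˢ SB ×ˢ SB, G2 z.1 z.2.1 * (starRingEnd ℂ) (G2 z.1 z.2.2) *
        ∑ a ∈ SA, H a z.2.1 * (starRingEnd ℂ) (H a z.2.2) *
          (Φ z.1 a z.2.1 * (starRingEnd ℂ) (Φ z.1 a z.2.2)) := by
    rw [sum_product, sum_product]
    refine sum_congr rfl fun o _ => ?_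
    rw [sum_product, sum_comm]
    refine sum_congr rfl fun k _ => ?_
    rw [sum_comm]
    refine sum_congr rfl fun l _ => ?_
    rw [mul_sum]
    refine sum_congr rfl fun a _ => ?_
    simp only [map_mul]
    ring
  have e3 : ‖∑ z ∈ SO ×ˢ SB ×ˢ SB, ∑ k ∈ SA, ∑ l ∈ SA,
      H k z.2.1 * (starRingEnd ℂ) (H k z.2.2) *
        (Φ z.1 k z.2.1 * (starRingEnd ℂ) (Φ z.1 k z.2.2)) *
      (starRingEnd ℂ) (H l z.2.1 * (starRingEnd ℂ) (H l z.2.2) *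
        (Φ z.1 l z.2.1 * (starRingEnd ℂ) (Φ z.1 l z.2.2)))‖ ≤
      ∑ a0 ∈ SA, ∑ a1 ∈ SA, ∑ b0 ∈ SB, ∑ b1 ∈ SB,
        ‖∑ o ∈ SO, Φ o a0 b0 * (starRingEnd ℂ) (Φ o a0 b1) * (starRingEnd ℂ) (Φ o a1 b0) *
          Φ o a1 b1‖ := by
    rw [sum_comm]
    refine (norm_sum_le _ _).trans (sum_le_sum fun k _ => ?_)
    rw [sum_comm]
    refine (norm_sum_le _ _).trans (sum_le_sum fun l _ => ?_)
    rw [sum_product_right, sum_product]
    refine (norm_sum_le _ _).trans (sum_le_sum fun b _ => ?_)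
    refine (norm_sum_le _ _).trans (sum_le_sum fun b' _ => ?_)
    have e : ∀ o, H k b * (starRingEnd ℂ) (H k b') * (Φ o k b * (starRingEnd ℂ) (Φ o k b')) *
        (starRingEnd ℂ) (H l b * (starRingEnd ℂ) (H l b') *
          (Φ o l b * (starRingEnd ℂ) (Φ o l b'))) =
        H k b * (starRingEnd ℂ) (H k b') * (starRingEnd ℂ) (H l b * (starRingEnd ℂ) (H l b')) *
          (Φ o k b * (starRingEnd ℂ) (Φ o k b') * (starRingEnd ℂ) (Φ o l b) * Φ o l b') := by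
      intro o
      simp only [map_mul, Complex.conj_conj]
      ring
    simp only [e]
    rw [← mul_sum, norm_mul]
    exact mul_le_of_le_one_left (norm_nonneg _) (hc (hc (h3 _ _) (h3 _ _)) (hc (h3 _ _) (h3 _ _)))
  rw [← e1, e2, card_product, Nat.cast_mul] at s1
  rw [card_product, card_product, Nat.cast_mul, Nat.cast_mul] at s2
  have s3 := s2.trans (mul_le_mul_of_nonneg_left e3 (by positivity))
  have s4 := pow_le_pow_left₀ (sq_nonneg _) s1 2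
  rw [← pow_mul, mul_pow] at s4
  exact (s4.trans (mul_le_mul_of_nonneg_left s3 (sq_nonneg _))).trans_eq (by ring)

end Pool.Agent.MP_e23604_nt.U

end
end

section

/-!
Generic estimates for sums twisted by Jacobi symbols.
-/

open Finset
open scoped Classical

noncomputable section

namespace Pool.Agent.MP_e23604_nt.U.CSJ

/-- A dyadic interval. -/
def II (X : ℕ) : Finset ℤ := Ioc (X : ℤ) (2 * X)

theorem card_II (X : ℕ) : (II X).card = X := by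
  rw [II, Int.card_Ioc]
  omega

theorem upd_mem {X : Fin 10 → ℕ} {v : V10} (hv : v ∈ Box X) {i : Fin 10} {t : ℤ}
    (ht : t ∈ II (X i)) : Function.update v i t ∈ Box X := by
  rw [Box, Fintype.mem_piFinset] at hv ⊢
  intro j
  by_cases h : j = i
  · subst h
    rwa [Function.update_self]
  · rw [Function.update_of_ne h]
    exact hv j

theorem box_avg (X : Fin 10 → ℕ) (i : Fin 10) (f : V10 → ℝ) :
    X i * ∑ v ∈ Box X, f v = ∑ v ∈ Box X, ∑ t ∈ II (X i), f (Function.update v i t) := by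
  have e : (X i : ℝ) * ∑ v ∈ Box X, f v = ∑ v ∈ Box X, ∑ _t ∈ II (X i), f v := by
    simp only [sum_const, card_II, nsmul_eq_mul, mul_sum]
  rw [e, ← sum_product', ← sum_product']
  refine sum_nbij' (fun z => (Function.update z.1 i z.2, z.1 i))
    (fun z => (Function.update z.1 i z.2, z.1 i)) ?_ ?_ ?_ ?_ ?_
  iterate 2
    · intro z hz
      obtain ⟨h1, h2⟩ := mem_product.1 hz
      exact mem_product.2 ⟨upd_mem h1 h2, Fintype.mem_piFinset.1 h1 i⟩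
  all_goals simp

theorem card_Box (X : Fin 10 → ℕ) : ((Box X).card : ℝ) = Vol X := by
  rw [Box, Fintype.card_piFinset, Nat.cast_prod]
  exact prod_congr rfl fun i _ => congrArg Nat.cast (card_II (X i))

theorem box_two (X : Fin 10 → ℕ) (i j : Fin 10) (f : V10 → ℝ) {B : ℝ} (hi : 0 < X i) (hj : 0 < X j)
    (h : ∀ v ∈ Box X, |∑ x ∈ II (X i), ∑ y ∈ II (X j),
      f (Function.update (Function.update v i x) j y)| ≤ X i * X j * B) :
    |∑ v ∈ Box X, f v| ≤ Vol X * B := by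
  have e := box_avg X i fun v => ∑ y ∈ II (X j), f (Function.update v j y)
  rw [← box_avg, ← mul_assoc] at e
  have h1 := (abs_sum_le_sum_abs _ _).trans (sum_le_card_nsmul _ _ _ h)
  rw [← e, abs_mul, abs_of_nonneg (by positivity), nsmul_eq_mul, card_Box, mul_left_comm] at h1
  exact le_of_mul_le_mul_left h1 (by positivity)

theorem box_four (X : Fin 10 → ℕ) (i j k l : Fin 10) (f : V10 → ℝ) {B : ℝ} (h0 : ∀ i, 0 < X i)
    (h : ∀ v ∈ Box X, |∑ x ∈ II (X i), ∑ y ∈ II (X j), ∑ z ∈ II (X k), ∑ w ∈ II (X l),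
      f (Function.update (Function.update (Function.update (Function.update v i x) j y) k z) l w)|
        ≤ X i * X j * (X k * X l * B)) : |∑ v ∈ Box X, f v| ≤ Vol X * B := by
  have h1 := box_two X i j (fun v => ∑ z ∈ II (X k), ∑ w ∈ II (X l),
    f (Function.update (Function.update v k z) l w)) (h0 i) (h0 j) h
  have e := box_avg X k fun v => ∑ y ∈ II (X l), f (Function.update v l y)
  rw [← box_avg, ← mul_assoc] at e
  have := h0 k
  have := h0 l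
  rw [← e, abs_mul, abs_of_nonneg (by positivity), mul_left_comm] at h1
  exact le_of_mul_le_mul_left h1 (by positivity)

theorem split_cl {ι κ : Type} (S : Finset ι) (T : Finset κ) (c : ι → κ) (g R : ι → ℝ) {B : ℝ}
    (hc : ∀ x ∈ S, c x ∈ T) (h1 : ∀ x, |g x| ≤ 1) (h2 : ∀ x y, c x = c y → g x = g y)
    (h : ∀ k ∈ T, |∑ x ∈ S, if c x = k then R x else 0| ≤ B) :
    |∑ x ∈ S, g x * R x| ≤ T.card * B := by
  rw [← sum_fiberwise_of_maps_to hc, ← nsmul_eq_mul]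
  refine (abs_sum_le_sum_abs _ _).trans (sum_le_card_nsmul _ _ _ fun k hk => ?_)
  have h3 := h k hk
  rw [← sum_filter] at h3
  rcases (S.filter fun x => c x = k).eq_empty_or_nonempty with e | ⟨x, hx⟩
  · rw [e] at h3 ⊢
    exact h3
  · rw [sum_congr rfl fun y hy => by
      rw [h2 y x ((mem_filter.1 hy).2.trans (mem_filter.1 hx).2.symm)], ← mul_sum, abs_mul]
    exact (mul_le_mul_of_nonneg_right (h1 x) (abs_nonneg _)).trans (by rwa [one_mul])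

theorem sum_II (X : ℕ) (f : ℤ → ℝ) : ∑ x ∈ II X, f x = ∑ n ∈ Ioc X (2 * X), f n := by
  refine sum_nbij' Int.toNat Nat.cast (fun x hx => ?_) (fun x hx => ?_) (fun x hx => ?_)
    (fun x hx => ?_) fun x hx => ?_ <;> simp only [II, mem_Ioc] at hx ⊢
  · omega
  · omega
  · omega
  · omega
  · rw [Int.toNat_of_nonneg (by omega)]

theorem bil_core : ∃ C : ℕ, ∀ (D E K : ℕ) (g : ℤ → ℤ → ℝ) (a b : ℤ → ℝ), 1 ≤ D → 1 ≤ E → 1 ≤ K →
    (∀ x y, |g x y| ≤ 1) → 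
    (∀ x y x' y' : ℤ, x % K = x' % K → y % K = y' % K → g x y = g x' y') →
    (∀ x, |a x| ≤ 1) → (∀ x, |b x| ≤ 1) →
    (∀ x ∈ II D, a x ≠ 0 → Squarefree x.toNat ∧ x % 2 = 1) →
    (∀ x ∈ II E, b x ≠ 0 → Squarefree x.toNat ∧ x % 2 = 1) →
    |∑ x ∈ II D, ∑ y ∈ II E, g x y * (a x * b y * (jacobiSym x y.toNat : ℝ))| ≤
      (K : ℝ) ^ 2 * (D * E * (2 + Real.log (D * E)) ^ C / (min (D : ℝ) E) ^ (1 / 8 : ℝ)) := by
  obtain ⟨C, hC⟩ := P.bilin
  refine ⟨C, fun D E K g a b hD hE hK g1 g2 a1 b1 a2 b2 => ?_⟩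
  have K0 : (0 : ℤ) < K := by exact_mod_cast hK
  rw [← sum_product']
  refine (split_cl (II D ×ˢ II E) (Ico (0 : ℤ) K ×ˢ Ico (0 : ℤ) K) (fun z => (z.1 % K, z.2 % K))
    (fun z => g z.1 z.2) _ (B := D * E * (2 + Real.log (D * E)) ^ C / (min (D : ℝ) E) ^ (1 / 8 : ℝ))
    (fun z _ => ?_) (fun z => g1 _ _)
    (fun z z' e => g2 _ _ _ _ (congrArg Prod.fst e) (congrArg Prod.snd e)) fun k _ => ?_).trans
    (le_of_eq ?_)
  · simp only [mem_product, mem_Ico]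
    exact ⟨⟨Int.emod_nonneg _ K0.ne', Int.emod_lt_of_pos _ K0⟩, Int.emod_nonneg _ K0.ne',
      Int.emod_lt_of_pos _ K0⟩
  swap
  · rw [card_product, Int.card_Ico, sub_zero, Int.toNat_natCast, Nat.cast_mul, sq]
  have t : ∀ (a : ℤ → ℝ) (D : ℕ) (r : ℤ), (∀ x, |a x| ≤ 1) →
      (∀ x ∈ II D, a x ≠ 0 → Squarefree x.toNat ∧ x % 2 = 1) →
      (∀ n : ℕ, |if (n : ℤ) ∈ II D ∧ (n : ℤ) % K = r then a n else 0| ≤ P.tau n) ∧
      ∀ n : ℕ, (if (n : ℤ) ∈ II D ∧ (n : ℤ) % K = r then a n else 0) ≠ 0 →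
        Squarefree n ∧ n % 2 = 1 := fun a D r h1 h2 => by
    refine ⟨fun n => ?_, fun n hn => ?_⟩
    · split_ifs with h
      · refine (h1 n).trans ?_
        have : n ≠ 0 := by
          have := (mem_Ioc.1 h.1).1
          omega
        rw [P.tau, Int.natAbs_natCast, Nat.one_le_cast, one_le_card]
        exact ⟨1, Nat.one_mem_divisors.2 this⟩
      · rw [abs_zero]
        exact Nat.cast_nonneg _
    · split_ifs at hn with h
      · obtain ⟨u, w⟩ := h2 n h.1 hn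
        exact ⟨by simpa using u, by omega⟩
      · exact absurd rfl hn
  refine le_trans (le_of_eq (congrArg _ ?_)) (hC D E _ _ hD hE (t a D k.1 a1 a2).1
    (t b E k.2 b1 b2).1 (t a D k.1 a1 a2).2 (t b E k.2 b1 b2).2)
  rw [sum_product, sum_II]
  refine sum_congr rfl fun d hd => ?_
  rw [sum_II]
  refine sum_congr rfl fun e he => ?_
  have m1 : (d : ℤ) ∈ II D := by
    simp only [II, mem_Ioc] at hd ⊢
    omega
  have m2 : (e : ℤ) ∈ II E := by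
    simp only [II, mem_Ioc] at he ⊢
    omega
  simp only [m1, m2, true_and, Prod.ext_iff, Int.toNat_natCast]
  by_cases h1 : (d : ℤ) % K = k.1 <;> by_cases h2 : (e : ℤ) % K = k.2 <;> simp [h1, h2]

theorem leg_sum {p : ℕ} (hp : p.Prime) (h2 : p ≠ 2) (c : ℤ) {u : ℤ} (hu : ¬ (p : ℤ) ∣ u) :
    ∑ t ∈ range p, (jacobiSym (c + t * u) p : ℝ) = 0 := by
  have := Fact.mk hp
  have hu' : (u : ZMod p) ≠ 0 := by rwa [Ne, ZMod.intCast_zmod_eq_zero_iff_dvd]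
  have e : ∑ t ∈ range p, jacobiSym (c + t * u) p =
      ∑ z : ZMod p, quadraticChar (ZMod p) (c + z * u) := by
    refine sum_nbij' (fun t => (t : ZMod p)) ZMod.val (fun _ _ => mem_univ _)
      (fun z _ => mem_range.2 (ZMod.val_lt z)) (fun t ht => ZMod.val_cast_of_lt (mem_range.1 ht))
      (fun z _ => ZMod.natCast_zmod_val z) fun t _ => ?_
    rw [← jacobiSym.legendreSym.to_jacobiSym, legendreSym]
    push_cast
    rfl
  have e2 := Equiv.sum_comp ((Equiv.mulRight₀ (u : ZMod p) hu').trans (Equiv.addLeft (c : ZMod p)))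
    (quadraticChar (ZMod p))
  rw [quadraticChar_sum_zero (by rwa [ZMod.ringChar_zmod_n])] at e2
  exact_mod_cast e.trans e2

end Pool.Agent.MP_e23604_nt.U.CSJ

end
end

section

/-!
Two periodic functions with a large twisted inner product.
-/

open Finset
open scoped Classical

noncomputable section

namespace Pool.Agent.MP_e23604_nt.U

lemma xLOr2_sin (θ : ℝ) : 4 * nd θ ≤ ‖ee θ - 1‖ := by
  have h1 : ee θ = ee (θ - round θ) := by
    conv_lhs => rw [show θ = (θ - round θ) + ((round θ : ℤ) : ℝ) by ring]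
    rw [ee_add, ee_int, mul_one]
  have h2 : ee (θ - round θ) =
      Complex.exp (Complex.I * ((2 * Real.pi * (θ - round θ) : ℝ) : ℂ)) := by
    unfold ee
    congr 1
    push_cast
    ring
  rw [h1, h2, Complex.norm_exp_I_mul_ofReal_sub_one, nd]
  have hb : |θ - round θ| ≤ 1 / 2 := abs_sub_round θ
  generalize θ - round θ = b at hb ⊢
  have hp := Real.pi_pos
  have h3 : |Real.pi * b| ≤ Real.pi / 2 := by
    rw [abs_mul, abs_of_pos hp]
    nlinarith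
  have h4 := Real.mul_abs_le_abs_sin h3
  rw [abs_mul, abs_of_pos hp, ← mul_assoc, div_mul_cancel₀ _ hp.ne'] at h4
  rw [show 2 * Real.pi * b / 2 = Real.pi * b by ring, Real.norm_eq_abs, abs_mul, abs_two]
  linarith

lemma xLOr2_one (G : ℤ → ℂ) (N : ℕ) :
    ∑ m ∈ JJ N, G (m + 1) - ∑ m ∈ JJ N, G m = G N - G (-N) := by
  have h0 : ((N : ℤ) - -(N : ℤ)).toNat = 2 * N := by omega
  rw [← sum_sub_distrib, JJ, Int.Ico_eq_finset_map, sum_map, h0]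
  have h1 := sum_range_sub (fun i : ℕ => G (-(N : ℤ) + i)) (2 * N)
  simp only [Nat.cast_zero, add_zero] at h1
  rw [show -(N : ℤ) + ((2 * N : ℕ) : ℤ) = N by push_cast; ring] at h1
  rw [← h1]
  refine sum_congr rfl fun i _ => ?_
  simp [add_assoc]

lemma xLOr2_shift (F : ℤ → ℂ) (c : ℝ) (hF : ∀ m, ‖F m‖ ≤ c) (N h : ℕ) :
    ‖∑ m ∈ JJ N, F (m + h) - ∑ m ∈ JJ N, F m‖ ≤ 2 * c * h := by
  induction h with
  | zero => simp
  | succ h ih =>
    have h1 := xLOr2_one (fun m => F (m + h)) N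
    have h2 : ∑ m ∈ JJ N, F (m + ((h + 1 : ℕ) : ℤ)) = ∑ m ∈ JJ N, F (m + 1 + h) :=
      sum_congr rfl fun m _ => by congr 1; push_cast; ring
    have h3 : ∑ m ∈ JJ N, F (m + ((h + 1 : ℕ) : ℤ)) - ∑ m ∈ JJ N, F m =
        (F (N + h) - F (-N + h)) + (∑ m ∈ JJ N, F (m + h) - ∑ m ∈ JJ N, F m) := by
      rw [h2, ← h1]
      ring
    rw [h3]
    have h4 := norm_sub_le (F (N + h)) (F (-N + h))
    have h5 := hF (N + h)
    have h6 := hF (-N + h)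
    refine (norm_add_le _ _).trans ?_
    push_cast
    linarith

lemma xLOr2_per {a : ℤ → ℂ} {D : ℕ} (ha : ∀ m, a (m + D) = a m) (m t : ℤ) :
    a (m + D * t) = a m := by
  have h : Function.Periodic a (D : ℤ) := ha
  rw [mul_comm]
  exact h.int_mul t m

/-- A progression with step `D'` runs through a class modulo the greatest common divisor. -/
lemma xLOr2_bij (ψ : ℤ → ℂ) {g K K' : ℕ} (hg : 0 < g) (hK : 0 < K) (hc : Nat.Coprime K K')
    (hψ : ∀ m, ψ (m + (g * K : ℕ)) = ψ m) (m : ℤ) :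
    ∑ k ∈ range K, ψ (m + (g * K' : ℕ) * k) =
      ∑ r ∈ (range (g * K)).filter (fun r => r % g = (m % g).toNat), ψ r := by
  have hD : (0 : ℤ) < (g * K : ℕ) := by exact_mod_cast Nat.mul_pos hg hK
  have hg' : (0 : ℤ) < g := by exact_mod_cast hg
  have hK' : (0 : ℤ) < K := by exact_mod_cast hK
  have hcI : IsCoprime (K : ℤ) (K' : ℤ) := Nat.isCoprime_iff_coprime.2 hc
  have hcast : ∀ k : ℕ, ((((m + (g * K' : ℕ) * k) % (g * K : ℕ)).toNat : ℕ) : ℤ) =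
      (m + (g * K' : ℕ) * k) % (g * K : ℕ) := fun k =>
    Int.toNat_of_nonneg (Int.emod_nonneg _ hD.ne')
  refine sum_nbij (fun k => ((m + (g * K' : ℕ) * k) % (g * K : ℕ)).toNat) ?_ ?_ ?_ ?_
  · intro k _
    rw [mem_filter, mem_range]
    constructor
    · have := Int.emod_lt_of_pos (m + (g * K' : ℕ) * k) hD
      rw [← hcast] at this
      exact_mod_cast this
    · apply Int.ofNat_inj.1
      rw [Int.natCast_mod, hcast, Int.toNat_of_nonneg (Int.emod_nonneg _ hg'.ne'),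
        Int.emod_emod_of_dvd _ (by push_cast; exact dvd_mul_right _ _)]
      push_cast
      rw [mul_assoc, Int.add_mul_emod_self_left]
  · intro k hk k' hk' h
    have h1 := congrArg (Nat.cast : ℕ → ℤ) h
    simp only [hcast] at h1
    have h2 := Int.ModEq.dvd h1
    push_cast at h2
    rw [show m + g * K' * k' - (m + g * K' * k) = g * (K' * ((k' : ℤ) - k)) by ring] at h2
    have h3 := hcI.dvd_of_dvd_mul_left (Int.dvd_of_mul_dvd_mul_left hg'.ne' h2)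
    have hk1 : k < K := by simpa using hk
    have hk2 : k' < K := by simpa using hk'
    have h4 : (k' : ℤ) - k = 0 := Int.eq_zero_of_dvd_of_natAbs_lt_natAbs h3 (by omega)
    omega
  · intro r hr
    obtain ⟨hr1, hr2⟩ := mem_filter.1 (mem_coe.1 hr)
    have hr3 : (r : ℤ) % g = m % g := by
      rw [← Int.natCast_mod, hr2, Int.toNat_of_nonneg (Int.emod_nonneg _ hg'.ne')]
    obtain ⟨c, hc'⟩ := Int.ModEq.dvd hr3.symm
    obtain ⟨x, y, hxy⟩ := hcI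
    have hk0 : ((((y * c) % K).toNat : ℕ) : ℤ) = (y * c) % K :=
      Int.toNat_of_nonneg (Int.emod_nonneg _ hK'.ne')
    refine ⟨((y * c) % K).toNat, ?_, ?_⟩
    · have := Int.emod_lt_of_pos (y * c) hK'
      rw [← hk0] at this
      exact mem_coe.2 (mem_range.2 (by exact_mod_cast this))
    · apply Int.ofNat_inj.1
      simp only []
      rw [hcast, hk0]
      have h5 : (r : ℤ) % (g * K : ℕ) = r :=
        Int.emod_eq_of_lt (Int.natCast_nonneg r) (by exact_mod_cast mem_range.1 hr1)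
      rw [← h5]
      refine Int.modEq_iff_dvd.2 ⟨x * c + K' * (y * c / K), ?_⟩
      rw [Int.emod_def]
      push_cast
      linear_combination hc' - (g : ℤ) * c * hxy
  · intro k _
    rw [hcast, Int.emod_def, sub_eq_add_neg, ← mul_neg, xLOr2_per hψ]

theorem LOR2_pf  : LOR2 := by
  intro D D' N a a' η ρ hD hD' ha ha' hb hb' hρ hρ1 hN hS
  by_contra hno
  push Not at hno
  obtain ⟨g, K, K', hg, hc, rfl, rfl⟩ : ∃ g K K' : ℕ, 0 < g ∧ Nat.Coprime K K' ∧ D = g * K ∧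
      D' = g * K' := by
    obtain ⟨K, K', h1, h2, h3⟩ := Nat.exists_coprime D D'
    exact ⟨Nat.gcd D D', K, K', Nat.gcd_pos_of_pos_left _ hD, h1, by rw [mul_comm]; exact h2,
      by rw [mul_comm]; exact h3⟩
  have hK : 0 < K := Nat.pos_of_mul_pos_left hD
  have hK' : 0 < K' := Nat.pos_of_mul_pos_left hD'
  have hgg : Nat.gcd (g * K) (g * K') = g := by rw [Nat.gcd_mul_left, hc, mul_one]
  rw [hgg] at hno
  have hgR : (1 : ℝ) ≤ g := by exact_mod_cast hg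
  have hKR : (1 : ℝ) ≤ K := by exact_mod_cast hK
  have hKR' : (1 : ℝ) ≤ K' := by exact_mod_cast hK'
  set Φ : ℤ → ℂ := fun m => a m * (starRingEnd ℂ) (a' m) * ee (η * m) with hΦ
  have hΦb : ∀ m, ‖Φ m‖ ≤ 9 := fun m => by
    simp only [hΦ, norm_mul, norm_ee, mul_one, Complex.norm_conj]
    nlinarith [hb m, hb' m, norm_nonneg (a m), norm_nonneg (a' m)]
  set S := ∑ m ∈ JJ N, Φ m with hSdef
  set L : ℕ := g * K' * K with hL
  have hLN : 10 ^ 5 * (L : ℝ) ≤ ρ ^ 2 * N := by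
    refine le_trans ?_ hN
    rw [hL]
    push_cast
    have : (0 : ℝ) ≤ g * K' * K := by positivity
    nlinarith
  have hL1 : (1 : ℝ) ≤ L := by exact_mod_cast Nat.mul_pos (Nat.mul_pos hg hK') hK
  have hN0 : (0 : ℝ) < N := by
    by_contra h
    have : ρ ^ 2 * N ≤ 0 := mul_nonpos_of_nonneg_of_nonpos (sq_nonneg _) (not_lt.1 h)
    linarith
  have hsh : ∀ (m : ℤ) (k : ℕ), Φ (m + (g * K' * k : ℕ)) =
      (starRingEnd ℂ) (a' m) * ee (η * m) * (a (m + (g * K' : ℕ) * k) * ee (η * (g * K' * k))) := by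
    intro m k
    simp only [hΦ]
    rw [Nat.cast_mul (g * K') k, xLOr2_per ha',
      show η * ((m + ((g * K' : ℕ) : ℤ) * k : ℤ) : ℝ) = η * m + η * (g * K' * k) by push_cast; ring,
      ee_add]
    ring
  have h1 : nd (η * L) ≤ ρ / 20000 := by
    have e1 : ∑ m ∈ JJ N, Φ (m + L) - S = S * (ee (η * L) - 1) := by
      rw [mul_sub, mul_one, hSdef, sum_mul]
      congr 1
      refine sum_congr rfl fun m _ => ?_
      rw [hL, hsh, show m + ((g * K' : ℕ) : ℤ) * K = m + ((g * K : ℕ) : ℤ) * K' by push_cast; ring,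
        xLOr2_per ha]
      simp only [hΦ]
      push_cast
      ring
    have e2 := xLOr2_shift Φ 9 hΦb N L
    rw [e1, norm_mul] at e2
    have e3 := xLOr2_sin (η * L)
    have e4 := nd_nonneg (η * L)
    have e5 : ρ * N * (4 * nd (η * L)) ≤ 2 * 9 * L :=
      le_trans (mul_le_mul hS e3 (by positivity) (norm_nonneg _)) e2
    by_contra h
    have e6 : ρ * N * (4 * (ρ / 20000)) ≤ ρ * N * (4 * nd (η * L)) := by
      have := (not_le.1 h).le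
      gcongr
    nlinarith
  obtain ⟨x, y, hxy⟩ : IsCoprime (K : ℤ) (K' : ℤ) := Nat.isCoprime_iff_coprime.2 hc
  set j : ℤ := round (η * L) with hj
  have hin : ∀ m : ℤ, ‖∑ k ∈ range K, a (m + (g * K' : ℕ) * k) * ee (η * (g * K' * k))‖ ≤
      ρ * K / 50 := by
    intro m
    set ψ : ℤ → ℂ := fun t => a t * ee ((j * y : ℤ) * t / (g * K : ℕ)) with hψ
    have hDR : ((g * K : ℕ) : ℝ) ≠ 0 := by push_cast; positivity
    have hψp : ∀ t, ψ (t + (g * K : ℕ)) = ψ t := by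
      intro t
      simp only [hψ]
      rw [ha, show ((j * y : ℤ) : ℝ) * ((t + ((g * K : ℕ) : ℤ) : ℤ) : ℝ) / (g * K : ℕ) =
        (j * y : ℤ) * t / (g * K : ℕ) + (j * y : ℤ) by
          rw [Int.cast_add, Int.cast_natCast]; field_simp, ee_add, ee_int, mul_one]
    have e1 := xLOr2_bij ψ hg hK hc hψp m
    have e2 := hno (j * y) (m % g).toNat
    have e3 : ‖∑ k ∈ range K, ψ (m + (g * K' : ℕ) * k)‖ ≤ ρ * K / 100 := by
      rw [e1]
      refine le_trans (le_of_eq ?_) (e2.le.trans (le_of_eq ?_))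
      · simp only [hψ, Int.cast_natCast]
      · push_cast
        field_simp
    have e4 : ∀ k : ℕ, ψ (m + (g * K' : ℕ) * k) = ee ((j * y : ℤ) * m / (g * K : ℕ)) *
        (a (m + (g * K' : ℕ) * k) * ee (j * k / K)) := by
      intro k
      have hxyR : (x : ℝ) * K + y * K' = 1 := by exact_mod_cast hxy
      simp only [hψ]
      rw [show ((j * y : ℤ) : ℝ) * ((m + ((g * K' : ℕ) : ℤ) * k : ℤ) : ℝ) / (g * K : ℕ) =
        (j * y : ℤ) * m / (g * K : ℕ) + j * k / K + ((-(j * k * x) : ℤ) : ℝ) by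
          push_cast; field_simp; linear_combination (j : ℝ) * g * k * hxyR,
        ee_add, ee_add, ee_int]
      ring
    simp only [e4] at e3
    rw [← mul_sum, norm_mul, norm_ee, one_mul] at e3
    have e5 : ‖∑ k ∈ range K, a (m + (g * K' : ℕ) * k) * ee (η * (g * K' * k)) -
        ∑ k ∈ range K, a (m + (g * K' : ℕ) * k) * ee (j * k / K)‖ ≤ K * (3 * (7 * (ρ / 20000))) := by
      rw [← sum_sub_distrib]
      refine (norm_sum_le _ _).trans ((sum_le_card_nsmul _ _ (3 * (7 * (ρ / 20000))) ?_).trans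
        (by simp))
      intro k hk
      rw [← mul_sub, norm_mul]
      refine mul_le_mul (hb _) ((ee_lip _ _).trans ?_) (norm_nonneg _) (by norm_num)
      have hk1 : (k : ℝ) / K ≤ 1 := by
        rw [div_le_one (by positivity)]
        exact_mod_cast (mem_range.1 hk).le
      rw [show η * (g * K' * k) - j * k / K = (η * L - j) * (k / K) by
        rw [hL]; push_cast; field_simp, abs_mul, abs_of_nonneg (by positivity : (0 : ℝ) ≤ k / K)]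
      have e6 : |η * L - j| ≤ ρ / 20000 := h1
      have e7 : |η * L - j| * (k / K) ≤ |η * L - j| := mul_le_of_le_one_right (abs_nonneg _) hk1
      linarith
    have e8 := norm_le_insert' (∑ k ∈ range K, a (m + (g * K' : ℕ) * k) * ee (η * (g * K' * k)))
      (∑ k ∈ range K, a (m + (g * K' : ℕ) * k) * ee (j * k / K))
    have e9 : 0 ≤ ρ * K := by positivity
    nlinarith
  have h2 : ‖∑ k ∈ range K, ∑ m ∈ JJ N, Φ (m + (g * K' * k : ℕ))‖ ≤ 2 * N * (3 * (ρ * K / 50)) := by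
    rw [sum_comm, ← card_JJ]
    refine (norm_sum_le _ _).trans ((sum_le_card_nsmul _ _ (3 * (ρ * K / 50)) ?_).trans (by simp))
    intro m _
    simp only [hsh]
    rw [← mul_sum, norm_mul, norm_mul, norm_ee, mul_one, Complex.norm_conj]
    exact mul_le_mul (hb' m) (hin m) (norm_nonneg _) (by norm_num)
  have h3 : ‖∑ k ∈ range K, ∑ m ∈ JJ N, Φ (m + (g * K' * k : ℕ)) - K * S‖ ≤ K * (18 * L) := by
    rw [show (K : ℂ) * S = ∑ k ∈ range K, S by simp, ← sum_sub_distrib]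
    refine (norm_sum_le _ _).trans ((sum_le_card_nsmul _ _ (18 * (L : ℝ)) ?_).trans (by simp))
    intro k hk
    refine (xLOr2_shift Φ 9 hΦb N _).trans ?_
    have : ((g * K' * k : ℕ) : ℝ) ≤ L := by
      exact_mod_cast Nat.mul_le_mul_left _ (mem_range.1 hk).le
    linarith
  have h4 := norm_le_insert (∑ k ∈ range K, ∑ m ∈ JJ N, Φ (m + (g * K' * k : ℕ))) (K * S)
  rw [norm_mul, Complex.norm_natCast] at h4
  have h5 : K * (ρ * N) ≤ K * ‖S‖ := by gcongr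
  have h6 : (K : ℝ) * (10 ^ 5 * L) ≤ K * (ρ * N) := by
    have : ρ ^ 2 * N ≤ ρ * N := by nlinarith [mul_pos hρ hN0]
    exact mul_le_mul_of_nonneg_left (hLN.trans this) (by positivity)
  have h7 : 0 < K * (ρ * N) := by positivity
  nlinarith

end Pool.Agent.MP_e23604_nt.U

end
end

section

/-!
Counting lemmas for the exceptional quadruples.
-/

open Finset
open scoped Classical

noncomputable section

namespace Pool.Agent.MP_e23604_nt.U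

theorem xLG1a_u7 {ι : Type} (S S1 S2 S3 S4 S5 S6 S7 : Finset ι) {b1 b2 b3 b4 b5 b6 b7 : ℝ}
    (h1 : (S1.card : ℝ) ≤ b1) (h2 : (S2.card : ℝ) ≤ b2) (h3 : (S3.card : ℝ) ≤ b3)
    (h4 : (S4.card : ℝ) ≤ b4) (h5 : (S5.card : ℝ) ≤ b5) (h6 : (S6.card : ℝ) ≤ b6)
    (h7 : (S7.card : ℝ) ≤ b7)
    (h : ∀ z ∈ S, z ∈ S1 ∨ z ∈ S2 ∨ z ∈ S3 ∨ z ∈ S4 ∨ z ∈ S5 ∨ z ∈ S6 ∨ z ∈ S7) :
    (S.card : ℝ) ≤ b1 + b2 + b3 + b4 + b5 + b6 + b7 := by
  have k : S ⊆ S1 ∪ (S2 ∪ (S3 ∪ (S4 ∪ (S5 ∪ (S6 ∪ S7))))) := by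
    intro z hz
    simp only [mem_union]
    exact h z hz
  have k0 := card_le_card k
  have k1 := card_union_le S1 (S2 ∪ (S3 ∪ (S4 ∪ (S5 ∪ (S6 ∪ S7)))))
  have k2 := card_union_le S2 (S3 ∪ (S4 ∪ (S5 ∪ (S6 ∪ S7))))
  have k3 := card_union_le S3 (S4 ∪ (S5 ∪ (S6 ∪ S7)))
  have k4 := card_union_le S4 (S5 ∪ (S6 ∪ S7))
  have k5 := card_union_le S5 (S6 ∪ S7)
  have k6 := card_union_le S6 S7
  have k7 : S.card ≤ S1.card + S2.card + S3.card + S4.card + S5.card + S6.card + S7.card := by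
    omega
  have k8 : (S.card : ℝ) ≤
      S1.card + S2.card + S3.card + S4.card + S5.card + S6.card + S7.card := by
    exact_mod_cast k7
  linarith

theorem xLG1a_c4 (A B : Finset ℤ) (P : ℤ → ℤ → ℤ → ℤ → Prop)
    {_ : DecidablePred fun z : (ℤ × ℤ) × (ℤ × ℤ) => P z.1.1 z.1.2 z.2.1 z.2.2} :
    ((((A ×ˢ A) ×ˢ (B ×ˢ B)).filter fun z => P z.1.1 z.1.2 z.2.1 z.2.2).card : ℝ) =
      ∑ m0 ∈ A, ∑ m1 ∈ A, ∑ u0 ∈ B, ∑ u1 ∈ B, if P m0 m1 u0 u1 then (1 : ℝ) else 0 := by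
  rw [card_filter]
  push_cast
  rw [sum_product, sum_product]
  refine sum_congr rfl fun m0 _ => sum_congr rfl fun m1 _ => ?_
  rw [sum_product]
  refine sum_congr rfl fun u0 _ => sum_congr rfl fun u1 _ => ?_
  by_cases h : P m0 m1 u0 u1 <;> simp [h]

theorem xLG1a_ind (B : Finset ℤ) (P : ℤ → Prop) :
    ∑ u ∈ B, (if P u then (1 : ℝ) else 0) = ((B.filter P).card : ℝ) := by
  rw [card_filter]
  push_cast
  rfl

/-- Fibres in the last variable. -/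
theorem xLG1a_fu (A B : Finset ℤ) (P : ℤ → ℤ → ℤ → ℤ → Prop)
    {_ : DecidablePred fun z : (ℤ × ℤ) × (ℤ × ℤ) => P z.1.1 z.1.2 z.2.1 z.2.2} (t : ℝ)
    (h : ∀ m0 ∈ A, ∀ m1 ∈ A, ∀ u0 ∈ B, ((B.filter fun u1 => P m0 m1 u0 u1).card : ℝ) ≤ t * B.card) :
    ((((A ×ˢ A) ×ˢ (B ×ˢ B)).filter fun z => P z.1.1 z.1.2 z.2.1 z.2.2).card : ℝ) ≤
      t * ((A ×ˢ A) ×ˢ (B ×ˢ B)).card := by
  rw [xLG1a_c4]
  calc _ ≤ ∑ m0 ∈ A, ∑ m1 ∈ A, ∑ u0 ∈ B, t * (B.card : ℝ) := by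
        refine sum_le_sum fun m0 h0 => sum_le_sum fun m1 h1 => sum_le_sum fun u0 h2 => ?_
        rw [xLG1a_ind]
        exact h m0 h0 m1 h1 u0 h2
    _ = _ := by
        simp only [sum_const, nsmul_eq_mul, card_product]
        push_cast
        ring

/-- Fibres in the second variable. -/
theorem xLG1a_fm (A B : Finset ℤ) (P : ℤ → ℤ → ℤ → ℤ → Prop)
    {_ : DecidablePred fun z : (ℤ × ℤ) × (ℤ × ℤ) => P z.1.1 z.1.2 z.2.1 z.2.2} (t : ℝ)
    (h : ∀ m0 ∈ A, ∀ u0 ∈ B, ∀ u1 ∈ B, ((A.filter fun m1 => P m0 m1 u0 u1).card : ℝ) ≤ t * A.card) :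
    ((((A ×ˢ A) ×ˢ (B ×ˢ B)).filter fun z => P z.1.1 z.1.2 z.2.1 z.2.2).card : ℝ) ≤
      t * ((A ×ˢ A) ×ˢ (B ×ˢ B)).card := by
  rw [xLG1a_c4]
  calc _ = ∑ m0 ∈ A, ∑ u0 ∈ B, ∑ u1 ∈ B, ∑ m1 ∈ A, if P m0 m1 u0 u1 then (1 : ℝ) else 0 := by
        refine sum_congr rfl fun m0 _ => ?_
        rw [sum_comm]
        refine sum_congr rfl fun u0 _ => ?_
        rw [sum_comm]
    _ ≤ ∑ m0 ∈ A, ∑ u0 ∈ B, ∑ u1 ∈ B, t * (A.card : ℝ) := by
        refine sum_le_sum fun m0 h0 => sum_le_sum fun u0 h1 => sum_le_sum fun u1 h2 => ?_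
        rw [xLG1a_ind]
        exact h m0 h0 u0 h1 u1 h2
    _ = _ := by
        simp only [sum_const, nsmul_eq_mul, card_product]
        push_cast
        ring

theorem xLG1a_c2 (A B : Finset ℤ) (P : ℤ → ℤ → Prop) :
    ((((A ×ˢ B)).filter fun z => P z.1 z.2).card : ℝ) =
      ∑ m ∈ A, ∑ u ∈ B, if P m u then (1 : ℝ) else 0 := by
  rw [card_filter]
  push_cast
  rw [sum_product]

/-- A condition on the first and last variables. -/
theorem xLG1a_p14 (A B : Finset ℤ) (P : ℤ → ℤ → Prop)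
    {_ : DecidablePred fun z : (ℤ × ℤ) × (ℤ × ℤ) => P z.1.1 z.2.2} (t : ℝ)
    (h : (((A ×ˢ B).filter fun z => P z.1 z.2).card : ℝ) ≤ t * (A.card * B.card)) :
    ((((A ×ˢ A) ×ˢ (B ×ˢ B)).filter fun z => P z.1.1 z.2.2).card : ℝ) ≤
      t * ((A ×ˢ A) ×ˢ (B ×ˢ B)).card := by
  rw [xLG1a_c4 A B (fun m0 _ _ u1 => P m0 u1)]
  rw [xLG1a_c2] at h
  have e : (∑ m0 ∈ A, ∑ _m1 ∈ A, ∑ _u0 ∈ B, ∑ u1 ∈ B, if P m0 u1 then (1 : ℝ) else 0) =
      (A.card * B.card) * ∑ m ∈ A, ∑ u ∈ B, if P m u then (1 : ℝ) else 0 := by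
    rw [mul_sum]
    refine sum_congr rfl fun m0 _ => ?_
    simp only [sum_const, nsmul_eq_mul]
    ring
  rw [e]
  calc _ ≤ ((A.card : ℝ) * B.card) * (t * (A.card * B.card)) := by gcongr
    _ = _ := by
        simp only [card_product]
        push_cast
        ring

/-- A condition on the last two variables. -/
theorem xLG1a_p34 (A B : Finset ℤ) (P : ℤ → ℤ → Prop)
    {_ : DecidablePred fun z : (ℤ × ℤ) × (ℤ × ℤ) => P z.2.1 z.2.2} (t : ℝ)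
    (h : (((B ×ˢ B).filter fun z => P z.1 z.2).card : ℝ) ≤ t * (B.card * B.card)) :
    ((((A ×ˢ A) ×ˢ (B ×ˢ B)).filter fun z => P z.2.1 z.2.2).card : ℝ) ≤
      t * ((A ×ˢ A) ×ˢ (B ×ˢ B)).card := by
  rw [xLG1a_c4 A B (fun _ _ u0 u1 => P u0 u1)]
  rw [xLG1a_c2] at h
  have e : (∑ _m0 ∈ A, ∑ _m1 ∈ A, ∑ u0 ∈ B, ∑ u1 ∈ B, if P u0 u1 then (1 : ℝ) else 0) =
      (A.card * A.card) * ∑ m ∈ B, ∑ u ∈ B, if P m u then (1 : ℝ) else 0 := by
    simp only [sum_const, nsmul_eq_mul]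
    ring
  rw [e]
  calc _ ≤ ((A.card : ℝ) * A.card) * (t * (B.card * B.card)) := by gcongr
    _ = _ := by
        simp only [card_product]
        push_cast
        ring

/-- A sparse set of small diameter. -/
theorem xLG1a_sp (S : Finset ℤ) {D : ℕ} (hD : 1 ≤ D) {L : ℝ} (hL : 0 ≤ L)
    (h : ∀ x ∈ S, ∀ y ∈ S, (D : ℤ) ∣ x - y) (hd : ∀ x ∈ S, ∀ y ∈ S, |((x - y : ℤ) : ℝ)| ≤ L) :
    (S.card : ℝ) ≤ 2 * L / D + 2 := by
  have hD' : (1 : ℝ) ≤ D := by exact_mod_cast hD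
  rcases S.eq_empty_or_nonempty with rfl | ⟨x0, hx0⟩
  · simp only [card_empty, Nat.cast_zero]
    positivity
  have hf : (0 : ℤ) ≤ ⌊L⌋ := Int.floor_nonneg.2 hL
  have hs : S ⊆ Ioc (x0 - ⌊L⌋ - 1) (x0 + ⌊L⌋) := by
    intro x hx
    have h1 := hd x hx x0 hx0
    have h2 : |x - x0| ≤ ⌊L⌋ := by
      rw [Int.le_floor]
      exact_mod_cast h1
    rw [abs_le] at h2
    rw [mem_Ioc]
    constructor <;> linarith [h2.1, h2.2]
  have h3 := card_sparse_le _ _ (by linarith) hD S hs h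
  have h4 : ((⌊L⌋ : ℤ) : ℝ) ≤ L := Int.floor_le L
  have h5 : (((x0 + ⌊L⌋ : ℤ) : ℝ) - ((x0 - ⌊L⌋ - 1 : ℤ) : ℝ)) / D ≤ 2 * L / D + 1 := by
    push_cast
    rw [div_add_one (by positivity), div_le_div_iff_of_pos_right (by positivity)]
    linarith
  linarith

theorem xLG1a_cl_sub {a b r x y : ℤ} {K : ℕ} (hx : x ∈ cl a b K r) (hy : y ∈ cl a b K r) :
    (K : ℤ) ∣ x - y := by
  have h1 := (mem_cl.1 hx).2.2
  have h2 := (mem_cl.1 hy).2.2
  have := dvd_sub h1 h2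
  rwa [show x - r - (y - r) = x - y by ring] at this

theorem xLG1a_cl_cop {a b r x : ℤ} {K : ℕ} (hx : x ∈ cl a b K r) (hr : IsCoprime r (K : ℤ)) :
    IsCoprime x (K : ℤ) := by
  obtain ⟨t, ht⟩ := (mem_cl.1 hx).2.2
  have : x = r + K * t := by linarith
  rw [this]
  exact hr.add_mul_left_left t

/-- Multiples of `d` in a class modulo `K`. -/
theorem xLG1a_mult (a b r : ℤ) (hab : a ≤ b) {K d : ℕ} (hK : 1 ≤ K) (hd : 1 ≤ d)
    (hc : IsCoprime (d : ℤ) (K : ℤ)) :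
    ((((cl a b K r).filter fun x => (d : ℤ) ∣ x).card : ℕ) : ℝ) ≤ ((b : ℝ) - a) / (d * K) + 1 := by
  have h1 : 1 ≤ d * K := Nat.mul_pos hd hK
  have h2 := card_sparse_le a b hab h1 ((cl a b K r).filter fun x => (d : ℤ) ∣ x) ?_ ?_
  · push_cast at h2
    exact h2
  · intro x hx
    have := mem_cl.1 (mem_filter.1 hx).1
    exact mem_Ioc.2 ⟨this.1, this.2.1⟩
  · intro x hx y hy
    rw [mem_filter] at hx hy
    push_cast
    exact hc.mul_dvd (dvd_sub hx.2 hy.2) (xLG1a_cl_sub hx.1 hy.1)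

/-- Pairs with a large common divisor. -/
theorem xLG1a_pair (A B : Finset ℤ) (K V : ℕ) (W α β : ℝ) (hW : 1 ≤ W) (hα : 0 ≤ α) (hβ : 0 ≤ β)
    (hB : ∀ u ∈ B, 0 < u ∧ u ≤ 2 * (V : ℤ) ∧ IsCoprime u (K : ℤ))
    (hA : ∀ d : ℕ, 1 ≤ d → d ≤ 2 * V → IsCoprime (d : ℤ) (K : ℤ) →
      ((A.filter fun x => (d : ℤ) ∣ x).card : ℝ) ≤ α * (β / d + 1))
    (hB' : ∀ d : ℕ, 1 ≤ d → d ≤ 2 * V → IsCoprime (d : ℤ) (K : ℤ) →
      ((B.filter fun x => (d : ℤ) ∣ x).card : ℝ) ≤ β / d + 1) :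
    (((A ×ˢ B).filter fun z => W < (Int.gcd z.1 z.2 : ℝ)).card : ℝ) ≤
      α * (4 * β ^ 2 / W + 4 * V) := by
  set k : ℕ := ⌊W⌋₊ with hk
  set T : Finset ℕ := (Ioo k (2 * V + 1)).filter fun d => IsCoprime (d : ℤ) (K : ℤ) with hT
  have hs : ((A ×ˢ B).filter fun z => W < (Int.gcd z.1 z.2 : ℝ)) ⊆
      T.biUnion fun d => (A.filter fun x => (d : ℤ) ∣ x) ×ˢ (B.filter fun x => (d : ℤ) ∣ x) := by
    intro z hz
    rw [mem_filter, mem_product] at hz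
    obtain ⟨⟨hA1, hB1⟩, hg⟩ := hz
    obtain ⟨hu0, hu1, hu2⟩ := hB z.2 hB1
    have hd2 : ((Int.gcd z.1 z.2 : ℕ) : ℤ) ∣ z.2 := Int.gcd_dvd_right _ _
    have hd1 : ((Int.gcd z.1 z.2 : ℕ) : ℤ) ∣ z.1 := Int.gcd_dvd_left _ _
    refine mem_biUnion.2 ⟨Int.gcd z.1 z.2, mem_filter.2 ⟨mem_Ioo.2 ⟨?_, ?_⟩, ?_⟩, ?_⟩
    · exact (Nat.floor_lt (by linarith)).2 hg
    · have := Int.le_of_dvd hu0 hd2
      omega
    · exact hu2.of_isCoprime_of_dvd_left hd2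
    · exact mem_product.2 ⟨mem_filter.2 ⟨hA1, hd1⟩, mem_filter.2 ⟨hB1, hd2⟩⟩
  have h1 := (card_le_card hs).trans card_biUnion_le
  have h2 : (((A ×ˢ B).filter fun z => W < (Int.gcd z.1 z.2 : ℝ)).card : ℝ) ≤
      ∑ d ∈ T, (((A.filter fun x => (d : ℤ) ∣ x).card : ℝ) *
        ((B.filter fun x => (d : ℤ) ∣ x).card : ℝ)) := by
    simp only [card_product] at h1
    exact_mod_cast h1
  have hk1 : 1 ≤ k := Nat.le_floor (by exact_mod_cast hW)
  have h3 : ∀ d ∈ T, (((A.filter fun x => (d : ℤ) ∣ x).card : ℝ) *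
        ((B.filter fun x => (d : ℤ) ∣ x).card : ℝ)) ≤ α * (2 * β ^ 2 * ((d : ℝ) ^ 2)⁻¹ + 2) := by
    intro d hd
    rw [hT, mem_filter, mem_Ioo] at hd
    have hd1 : 1 ≤ d := by omega
    have hd2 : d ≤ 2 * V := by omega
    have e1 := hA d hd1 hd2 hd.2
    have e2 := hB' d hd1 hd2 hd.2
    have hd0 : (0 : ℝ) < d := by exact_mod_cast hd1
    have e3 : (β / d + 1) * (β / d + 1) ≤ 2 * β ^ 2 * ((d : ℝ) ^ 2)⁻¹ + 2 := by
      have : β ^ 2 * ((d : ℝ) ^ 2)⁻¹ = (β / d) ^ 2 := by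
        rw [div_pow, div_eq_mul_inv]
      nlinarith [sq_nonneg (β / d - 1)]
    calc _ ≤ (α * (β / d + 1)) * (β / d + 1) := by gcongr
      _ = α * ((β / d + 1) * (β / d + 1)) := by ring
      _ ≤ _ := by gcongr
  have h4 : ∑ d ∈ Ioo k (2 * V + 1), ((d : ℝ) ^ 2)⁻¹ ≤ 2 / W := by
    refine (sum_Ioo_inv_sq_le k (2 * V + 1)).trans ?_
    have : W < (k : ℝ) + 1 := Nat.lt_floor_add_one W
    gcongr
  have h5 : ((Ioo k (2 * V + 1)).card : ℝ) ≤ 2 * V := by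
    rw [Nat.card_Ioo]
    have : 2 * V + 1 - k - 1 ≤ 2 * V := by omega
    exact_mod_cast this
  calc _ ≤ _ := h2
    _ ≤ ∑ d ∈ T, α * (2 * β ^ 2 * ((d : ℝ) ^ 2)⁻¹ + 2) := sum_le_sum h3
    _ ≤ ∑ d ∈ Ioo k (2 * V + 1), α * (2 * β ^ 2 * ((d : ℝ) ^ 2)⁻¹ + 2) :=
        sum_le_sum_of_subset_of_nonneg (filter_subset _ _) fun d _ _ => by positivity
    _ = α * (2 * β ^ 2 * ∑ d ∈ Ioo k (2 * V + 1), ((d : ℝ) ^ 2)⁻¹ +
          2 * (Ioo k (2 * V + 1)).card) := by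
        rw [← mul_sum, sum_add_distrib, ← mul_sum, sum_const, nsmul_eq_mul]
        ring
    _ ≤ α * (2 * β ^ 2 * (2 / W) + 2 * (2 * V)) := by gcongr
    _ = _ := by ring

/-- The arithmetic dichotomy. -/
theorem xLG1a_dich (μ u0 u1 a K : ℤ) (d : ℕ) (W : ℝ) (hW : 1 ≤ W) (hu : u1 ≠ 0)
    (ha : u1 - u0 = K * a) (hd : (d : ℤ) ∣ μ * (u1 + u0) * a) (hG : W ^ 12 < d)
    (h1 : (Int.gcd μ u1 : ℝ) ≤ W) (h2 : (Int.gcd u0 u1 : ℝ) ≤ W) :
    W ^ 6 ≤ ((d / Nat.gcd d (u1 ^ 2).natAbs : ℕ) : ℝ) := by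
  set g : ℕ := Nat.gcd d (u1 ^ 2).natAbs with hg
  have hg0 : 0 < g := Nat.gcd_pos_of_pos_right _ (Int.natAbs_pos.2 (pow_ne_zero 2 hu))
  have hgd : g ∣ d := Nat.gcd_dvd_left _ _
  set n : ℤ := μ * (u1 + u0) * a with hn
  have e1 : g ∣ Int.gcd n u1 * Int.gcd n u1 := by
    have f1 : g ∣ Nat.gcd n.natAbs (u1.natAbs * u1.natAbs) := by
      refine Nat.dvd_gcd (hgd.trans ?_) ?_
      · exact Int.natCast_dvd.1 hd
      · have : (u1 ^ 2).natAbs = u1.natAbs * u1.natAbs := by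
          rw [pow_two, Int.natAbs_mul]
        rw [← this]
        exact Nat.gcd_dvd_right _ _
    exact f1.trans (Nat.gcd_mul_right_dvd_mul_gcd _ _ _)
  have e2 : Int.gcd n u1 ∣ Int.gcd μ u1 * Int.gcd u0 u1 * Int.gcd u0 u1 := by
    have f1 : Int.gcd n u1 ∣ Int.gcd (μ * (u1 + u0)) u1 * Int.gcd a u1 := by
      rw [hn]
      simp only [Int.gcd_eq_natAbs, Int.natAbs_mul]
      exact Nat.gcd_mul_left_dvd_mul_gcd _ _ _
    have f2 : Int.gcd (μ * (u1 + u0)) u1 ∣ Int.gcd μ u1 * Int.gcd (u1 + u0) u1 := by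
      simp only [Int.gcd_eq_natAbs, Int.natAbs_mul]
      exact Nat.gcd_mul_left_dvd_mul_gcd _ _ _
    have f3 : Int.gcd (u1 + u0) u1 ∣ Int.gcd u0 u1 := by
      refine Int.dvd_gcd ?_ (Int.gcd_dvd_right _ _)
      have := dvd_sub (Int.gcd_dvd_left (u1 + u0) u1) (Int.gcd_dvd_right (u1 + u0) u1)
      rwa [show u1 + u0 - u1 = u0 by ring] at this
    have f4 : Int.gcd a u1 ∣ Int.gcd u0 u1 := by
      refine Int.dvd_gcd ?_ (Int.gcd_dvd_right _ _)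
      have := dvd_sub (Int.gcd_dvd_right a u1) ((Int.gcd_dvd_left a u1).mul_left K)
      rwa [← ha, show u1 - (u1 - u0) = u0 by ring] at this
    exact f1.trans (Nat.mul_dvd_mul (f2.trans (Nat.mul_dvd_mul_left _ f3)) f4)
  have p1 : 0 < Int.gcd μ u1 := Int.gcd_pos_of_ne_zero_right _ hu
  have p2 : 0 < Int.gcd u0 u1 := Int.gcd_pos_of_ne_zero_right _ hu
  have p3 : 0 < Int.gcd n u1 := Int.gcd_pos_of_ne_zero_right _ hu
  have e3 : (Int.gcd n u1 : ℝ) ≤ W ^ 3 := by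
    have f1 := Nat.le_of_dvd (by positivity) e2
    have f2 : (Int.gcd n u1 : ℝ) ≤ (Int.gcd μ u1 : ℝ) * Int.gcd u0 u1 * Int.gcd u0 u1 := by
      exact_mod_cast f1
    calc _ ≤ _ := f2
      _ ≤ W * W * W := by gcongr
      _ = _ := by ring
  have e4 : (g : ℝ) ≤ W ^ 6 := by
    have f1 := Nat.le_of_dvd (by positivity) e1
    have f2 : (g : ℝ) ≤ (Int.gcd n u1 : ℝ) * Int.gcd n u1 := by exact_mod_cast f1
    calc _ ≤ _ := f2
      _ ≤ W ^ 3 * W ^ 3 := by gcongr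
      _ = _ := by ring
  have e5 : (d : ℝ) = (g : ℝ) * ((d / g : ℕ) : ℝ) := by
    exact_mod_cast (Nat.mul_div_cancel' hgd).symm
  by_contra hc
  rw [not_le] at hc
  have hW6 : 0 < W ^ 6 := by positivity
  have e6 : (g : ℝ) * ((d / g : ℕ) : ℝ) ≤ W ^ 6 * W ^ 6 := by gcongr
  have e7 : W ^ 6 * W ^ 6 = W ^ 12 := by ring
  linarith

end Pool.Agent.MP_e23604_nt.U

end
end

section

/-!
Exceptional quadruples.
-/

open Finset
open scoped Classical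

noncomputable section

namespace Pool.Agent.MP_e23604_nt.U

theorem xLG1a_mU {p : DP} {u : ℤ} (hu : u ∈ p.SU) : (p.V : ℝ) < u ∧ (u : ℝ) ≤ 2 * p.V := by
  have := mem_cl.1 hu
  exact ⟨by exact_mod_cast this.1, by exact_mod_cast this.2.1⟩

theorem xLG1a_mM {p : DP} {u : ℤ} (hu : u ∈ p.SM) : (p.M : ℝ) < u ∧ (u : ℝ) ≤ 3 * p.M := by
  have := mem_cl.1 hu
  exact ⟨by exact_mod_cast this.1, by exact_mod_cast this.2.1⟩

theorem xLG1a_pos {p : DP} (h : p.OK 1) : (4 : ℝ) ≤ p.K ∧ (4 : ℝ) ≤ p.V ∧ (4 : ℝ) ≤ p.M := by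
  obtain ⟨h1, h2, h3, -⟩ := h.sizes
  have h4 : p.K ≤ p.K ^ 100 := Nat.le_self_pow (by norm_num) _
  refine ⟨by exact_mod_cast h1, ?_, ?_⟩
  · have : 4 ≤ p.V := by omega
    exact_mod_cast this
  · have : 4 ≤ p.M := by omega
    exact_mod_cast this

theorem xLG1a_E1 (p : DP) (h : p.OK 1) (ε : ℝ) (hε : 0 ≤ ε) (hb : 2 ≤ ε * p.SU.card) :
    ((p.Qd.filter fun z => |(c1 z.1.1 z.2.1 z.2.2 : ℝ)| < ε * p.M * (p.V : ℝ) ^ 2).card : ℝ) ≤
      5 * ε * p.Qd.card := by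
  obtain ⟨hK, hV, hM⟩ := xLG1a_pos h
  refine xLG1a_fu p.SM p.SU (fun m0 _ u0 u1 => |(c1 m0 u0 u1 : ℝ)| < ε * p.M * (p.V : ℝ) ^ 2) _ ?_
  intro m0 h0 m1 _ u0 hu0
  have key : ∀ u ∈ p.SU.filter (fun u1 => |(c1 m0 u0 u1 : ℝ)| < ε * p.M * (p.V : ℝ) ^ 2),
      |(u : ℝ) - u0| ≤ ε * p.V / 2 := by
    intro u hu
    rw [mem_filter] at hu
    obtain ⟨a1, -⟩ := xLG1a_mU hu.1
    obtain ⟨a2, -⟩ := xLG1a_mU hu0
    obtain ⟨a3, -⟩ := xLG1a_mM h0
    have e : |(c1 m0 u0 u : ℝ)| = m0 * ((u : ℝ) + u0) * |(u : ℝ) - u0| := by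
      have : (c1 m0 u0 u : ℝ) = m0 * ((u : ℝ) + u0) * ((u : ℝ) - u0) := by
        unfold c1; push_cast; ring
      rw [this, abs_mul, abs_of_pos (mul_pos (by linarith) (by linarith))]
    have h2 := hu.2
    rw [e] at h2
    have h3 : (p.M : ℝ) * (2 * p.V) * |(u : ℝ) - u0| ≤ m0 * ((u : ℝ) + u0) * |(u : ℝ) - u0| := by
      refine mul_le_mul_of_nonneg_right ?_ (abs_nonneg _)
      exact mul_le_mul a3.le (by linarith) (by positivity) (by linarith)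
    have h4 : (p.M : ℝ) * (2 * p.V) * |(u : ℝ) - u0| ≤ p.M * (2 * p.V) * (ε * p.V / 2) := by
      have : (p.M : ℝ) * (2 * p.V) * (ε * p.V / 2) = ε * p.M * (p.V : ℝ) ^ 2 := by ring
      linarith
    exact le_of_mul_le_mul_left h4 (by positivity)
  have h5 := xLG1a_sp _ h.pos (L := ε * p.V) (by positivity)
    (fun x hx y hy => xLG1a_cl_sub (mem_filter.1 hx).1 (mem_filter.1 hy).1)
    (fun x hx y hy => by
      have k1 := abs_le.1 (key x hx)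
      have k2 := abs_le.1 (key y hy)
      push_cast
      rw [abs_le]
      constructor <;> linarith [k1.1, k1.2, k2.1, k2.2])
  have h6 := h.cards.2.2.1.1
  have h7 : 2 * (ε * p.V) / p.K = 4 * ε * (p.V / (2 * p.K)) := by
    field_simp
    ring
  have h8 : 4 * ε * (p.V / (2 * p.K)) ≤ 4 * ε * p.SU.card := by gcongr
  refine le_trans (le_of_eq ?_) (h5.trans (by linarith))
  congr

theorem xLG1a_fibM (p : DP) (h : p.OK 1) (ε : ℝ) (hε : 0 ≤ ε) (ha : 2 ≤ ε * p.SM.card)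
    (S : Finset ℤ) (hS : S ⊆ p.SM) (hd : ∀ x ∈ S, ∀ y ∈ S, |((x - y : ℤ) : ℝ)| ≤ 2 * ε * p.M) :
    (S.card : ℝ) ≤ 5 * ε * p.SM.card := by
  obtain ⟨hK, hV, hM⟩ := xLG1a_pos h
  have h5 := xLG1a_sp S h.pos (L := 2 * ε * p.M) (by positivity)
    (fun x hx y hy => xLG1a_cl_sub (hS hx) (hS hy)) hd
  have h6 := h.cards.2.1.1
  have h7 : 2 * (2 * ε * p.M) / p.K = 4 * ε * (p.M / p.K) := by
    field_simp
    ring
  have h8 : 4 * ε * (p.M / p.K) ≤ 4 * ε * p.SM.card := by gcongr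
  linarith

theorem xLG1a_E2 (p : DP) (h : p.OK 1) (ε : ℝ) (hε : 0 ≤ ε) (ha : 2 ≤ ε * p.SM.card) :
    ((p.Qd.filter fun z => |((z.1.2 - z.1.1 : ℤ) : ℝ)| < ε * p.M).card : ℝ) ≤
      5 * ε * p.Qd.card := by
  refine xLG1a_fm p.SM p.SU (fun m0 m1 _ _ => |((m1 - m0 : ℤ) : ℝ)| < ε * p.M) _ ?_
  intro m0 _ u0 _ u1 _
  refine xLG1a_fibM p h ε hε ha _ (filter_subset _ _) ?_
  intro x hx y hy
  have k1 := abs_lt.1 (mem_filter.1 hx).2
  have k2 := abs_lt.1 (mem_filter.1 hy).2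
  push_cast at k1 k2 ⊢
  rw [abs_le]
  constructor <;> linarith [k1.1, k1.2, k2.1, k2.2]

theorem xLG1a_E3 (p : DP) (h : p.OK 1) (ε : ℝ) (hε : 0 ≤ ε) (ha : 2 ≤ ε * p.SM.card) :
    ((p.Qd.filter fun z =>
      |(c3' z.1.1 z.1.2 z.2.1 z.2.2 : ℝ)| < ε * p.M * (p.V : ℝ) ^ 2).card : ℝ) ≤
      5 * ε * p.Qd.card := by
  obtain ⟨hK, hV, hM⟩ := xLG1a_pos h
  refine xLG1a_fm p.SM p.SU
    (fun m0 m1 u0 u1 => |(c3' m0 m1 u0 u1 : ℝ)| < ε * p.M * (p.V : ℝ) ^ 2) _ ?_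
  intro m0 _ u0 _ u1 hu1
  refine xLG1a_fibM p h ε hε ha _ (filter_subset _ _) ?_
  intro x hx y hy
  have k1 := abs_lt.1 (mem_filter.1 hx).2
  have k2 := abs_lt.1 (mem_filter.1 hy).2
  obtain ⟨a1, -⟩ := xLG1a_mU hu1
  have e : |((x - y : ℤ) : ℝ)| * (u1 : ℝ) ^ 2 ≤ 2 * ε * p.M * (p.V : ℝ) ^ 2 := by
    have : |((x - y : ℤ) : ℝ)| * (u1 : ℝ) ^ 2 = |(c3' m0 x u0 u1 : ℝ) - c3' m0 y u0 u1| := by
      rw [← abs_of_nonneg (sq_nonneg (u1 : ℝ)), ← abs_mul]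
      congr 1
      unfold c3'
      push_cast
      ring
    rw [this, abs_le]
    constructor <;> linarith [k1.1, k1.2, k2.1, k2.2]
  have e2 : |((x - y : ℤ) : ℝ)| * (p.V : ℝ) ^ 2 ≤ |((x - y : ℤ) : ℝ)| * (u1 : ℝ) ^ 2 := by
    gcongr
  exact le_of_mul_le_mul_right (e2.trans e) (by positivity)

theorem xLG1a_c3 {p : DP} {m0 x u0 u1 : ℤ} (h0 : m0 ∈ p.SM) (hx : x ∈ p.SM) (hu0 : u0 ∈ p.SU)
    (hu1 : u1 ∈ p.SU) : (p.K : ℤ) ∣ c3' m0 x u0 u1 := by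
  have e : c3' m0 x u0 u1 = (x - m0) * u1 ^ 2 + (u1 - u0) * (m0 * (u1 + u0)) := by
    unfold c3'; ring
  rw [e]
  exact dvd_add ((xLG1a_cl_sub hx h0).mul_right _) ((xLG1a_cl_sub hu1 hu0).mul_right _)

theorem xLG1a_E4 (p : DP) (h : p.OK 1) (T G : ℝ) (hT : 0 ≤ T) (hG : 1 ≤ G) (ha : G ≤ p.SM.card) :
    ((p.Qd.filter fun z => ta (c1 z.1.1 z.2.1 z.2.2 / p.K) ≤ T ∧
      ∃ d ∈ (c1 z.1.1 z.2.1 z.2.2 / p.K).natAbs.divisors,
        (d : ℤ) ∣ c3' z.1.1 z.1.2 z.2.1 z.2.2 / p.K ∧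
        G ≤ ((d / Nat.gcd d (z.2.2 ^ 2).natAbs : ℕ) : ℝ)).card : ℝ) ≤
      3 * T / G * p.Qd.card := by
  obtain ⟨hK, hV, hM⟩ := xLG1a_pos h
  refine xLG1a_fm p.SM p.SU
    (fun m0 m1 u0 u1 => ta (c1 m0 u0 u1 / p.K) ≤ T ∧ ∃ d ∈ (c1 m0 u0 u1 / p.K).natAbs.divisors,
      (d : ℤ) ∣ c3' m0 m1 u0 u1 / p.K ∧ G ≤ ((d / Nat.gcd d (u1 ^ 2).natAbs : ℕ) : ℝ)) _ ?_
  intro m0 h0 u0 hu0 u1 hu1
  by_cases hta : ta (c1 m0 u0 u1 / p.K) ≤ T
  swap
  · have : (p.SM.filter fun m1 => ta (c1 m0 u0 u1 / p.K) ≤ T ∧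
        ∃ d ∈ (c1 m0 u0 u1 / p.K).natAbs.divisors, (d : ℤ) ∣ c3' m0 m1 u0 u1 / p.K ∧
          G ≤ ((d / Nat.gcd d (u1 ^ 2).natAbs : ℕ) : ℝ)) = ∅ :=
      filter_eq_empty_iff.2 fun x _ hx => hta hx.1
    have e : ∀ S : Finset ℤ, S = ∅ → (S.card : ℝ) ≤ 3 * T / G * p.SM.card := by
      intro S hS
      rw [hS, card_empty, Nat.cast_zero]
      positivity
    exact e _ (by convert this)
  set n := (c1 m0 u0 u1 / p.K).natAbs with hn
  set F : ℕ → Finset ℤ := fun d => p.SM.filter fun m1 => (d : ℤ) ∣ c3' m0 m1 u0 u1 / p.K ∧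
    G ≤ ((d / Nat.gcd d (u1 ^ 2).natAbs : ℕ) : ℝ) with hF
  have hK0 : (p.K : ℤ) ≠ 0 := by
    have := h.pos
    omega
  have hu : u1 ≠ 0 := by
    have := (xLG1a_mU hu1).1
    intro h0
    rw [h0] at this
    push_cast at this
    linarith
  have hFd : ∀ d ∈ n.divisors, ((F d).card : ℝ) ≤ 3 / G * p.SM.card := by
    intro d _
    by_cases hd : G ≤ ((d / Nat.gcd d (u1 ^ 2).natAbs : ℕ) : ℝ)
    swap
    · have : F d = ∅ := filter_eq_empty_iff.2 fun x _ hx => hd hx.2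
      rw [this, card_empty, Nat.cast_zero]
      positivity
    set g := Nat.gcd d (u1 ^ 2).natAbs with hg
    set e := d / g with he
    have hg0 : 0 < g := Nat.gcd_pos_of_pos_right _ (Int.natAbs_pos.2 (pow_ne_zero 2 hu))
    have he1 : 1 ≤ e := by
      have : (1 : ℝ) ≤ e := hG.trans hd
      exact_mod_cast this
    have h1 := card_sparse_le (p.M : ℤ) (3 * p.M) (by omega) (D := p.K * e)
      (Nat.mul_pos h.pos he1) (F d) ?_ ?_
    · have h2 := h.cards.2.1.1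
      have hG0 : 0 < G := by linarith
      have h3 : (((3 * p.M : ℤ) : ℝ) - ((p.M : ℤ) : ℝ)) / ((p.K * e : ℕ) : ℝ) =
          2 * (p.M / p.K) / e := by
        push_cast
        field_simp
        ring
      have h4 : 2 * ((p.M : ℝ) / p.K) / e ≤ 2 * p.SM.card / G := by gcongr
      have h5 : 1 ≤ (p.SM.card : ℝ) / G := (one_le_div hG0).2 ha
      have h6 : 3 / G * (p.SM.card : ℝ) = 2 * p.SM.card / G + p.SM.card / G := by ring
      linarith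
    · intro x hx
      have := mem_cl.1 (mem_filter.1 hx).1
      exact mem_Ioc.2 ⟨this.1, this.2.1⟩
    · intro x hx y hy
      rw [hF] at hx hy
      simp only [mem_filter] at hx hy
      obtain ⟨j, hj⟩ := xLG1a_cl_sub hx.1 hy.1
      obtain ⟨s, hs⟩ := xLG1a_c3 h0 hx.1 hu0 hu1
      obtain ⟨t, ht⟩ := xLG1a_c3 h0 hy.1 hu0 hu1
      have q1 := hx.2.1
      have q2 := hy.2.1
      rw [hs, Int.mul_ediv_cancel_left _ hK0] at q1
      rw [ht, Int.mul_ediv_cancel_left _ hK0] at q2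
      have q3 : s - t = j * u1 ^ 2 := by
        apply mul_left_cancel₀ hK0
        have : c3' m0 x u0 u1 - c3' m0 y u0 u1 = (x - y) * u1 ^ 2 := by unfold c3'; ring
        rw [hs, ht, hj] at this
        linear_combination this
      have q4 : d ∣ j.natAbs * (u1 ^ 2).natAbs := by
        rw [← Int.natAbs_mul, ← q3]
        exact Int.natCast_dvd.1 (dvd_sub q1 q2)
      have q5 : e ∣ j.natAbs := by
        have c1 : Nat.Coprime e ((u1 ^ 2).natAbs / g) := Nat.coprime_div_gcd_div_gcd hg0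
        refine c1.dvd_of_dvd_mul_right ?_
        refine Nat.dvd_of_mul_dvd_mul_left hg0 ?_
        rw [he, Nat.mul_div_cancel' (Nat.gcd_dvd_left _ _), mul_left_comm,
          Nat.mul_div_cancel' (Nat.gcd_dvd_right _ _)]
        exact q4
      rw [hj]
      push_cast
      exact mul_dvd_mul_left _ (Int.natCast_dvd.2 q5)
  have hs : ∀ S : Finset ℤ, S ⊆ n.divisors.biUnion F → (S.card : ℝ) ≤ 3 * T / G * p.SM.card := by
    intro S hS
    have h1 := (card_le_card hS).trans card_biUnion_le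
    have h2 : (S.card : ℝ) ≤ ∑ d ∈ n.divisors, ((F d).card : ℝ) := by exact_mod_cast h1
    have h3 : (n.divisors.card : ℝ) ≤ T := hta
    calc _ ≤ _ := h2
      _ ≤ ∑ _d ∈ n.divisors, 3 / G * (p.SM.card : ℝ) := sum_le_sum hFd
      _ = n.divisors.card * (3 / G * (p.SM.card : ℝ)) := by rw [sum_const, nsmul_eq_mul]
      _ ≤ T * (3 / G * (p.SM.card : ℝ)) := by gcongr
      _ = _ := by ring
  refine hs _ fun x hx => ?_
  simp only [mem_filter] at hx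
  obtain ⟨hx1, -, d, hd, hd2⟩ := hx
  exact mem_biUnion.2 ⟨d, hd, mem_filter.2 ⟨hx1, hd2⟩⟩

theorem xLG1a_UB {p : DP} (h : p.OK 1) : (∀ u ∈ p.SU, 0 < u ∧ u ≤ 2 * (p.V : ℤ) ∧
    IsCoprime u (p.K : ℤ)) ∧ ∀ d : ℕ, 1 ≤ d → d ≤ 2 * p.V → IsCoprime (d : ℤ) (p.K : ℤ) →
      ((p.SU.filter fun x => (d : ℤ) ∣ x).card : ℝ) ≤ 2 * p.SU.card / d + 1 := by
  obtain ⟨hK, hV, hM⟩ := xLG1a_pos h
  refine ⟨fun u hu => ?_, fun d hd _ hc => ?_⟩
  · have := mem_cl.1 hu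
    exact ⟨by omega, this.2.1, xLG1a_cl_cop hu h.cu⟩
  · have h1 := xLG1a_mult (p.V : ℤ) (2 * p.V) p.us (by omega) h.pos hd hc
    have h2 := h.cards.2.2.1.1
    have hd0 : (0 : ℝ) < d := by exact_mod_cast hd
    have h3 : (((2 * p.V : ℤ) : ℝ) - ((p.V : ℤ) : ℝ)) / (d * p.K) =
        2 * (p.V / (2 * p.K)) / d := by
      push_cast
      field_simp
      ring
    have h4 : 2 * ((p.V : ℝ) / (2 * p.K)) / d ≤ 2 * p.SU.card / d := by gcongr
    have h5 : ((p.SU.filter fun x => (d : ℤ) ∣ x).card : ℝ) ≤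
        (((2 * p.V : ℤ) : ℝ) - ((p.V : ℤ) : ℝ)) / (d * p.K) + 1 := h1
    linarith

theorem xLG1a_fin {A b V W : ℝ} (hA : 0 ≤ A) (hb : 0 < b) (hW : 1 ≤ W) (hV : 12 * V * W ≤ b ^ 2) :
    3 * A / b * (4 * (2 * b) ^ 2 / W + 4 * V) ≤ 49 / W * (A * b) := by
  have hW0 : 0 < W := by linarith
  have e : 3 * A / b * (4 * (2 * b) ^ 2 / W + 4 * V) =
      A / (b * W) * (48 * b ^ 2 + 12 * V * W) := by
    field_simp
    ring
  have e2 : 49 / W * (A * b) = A / (b * W) * (49 * b ^ 2) := by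
    field_simp
  rw [e, e2]
  gcongr
  linarith

theorem xLG1a_E6 (p : DP) (h : p.OK 1) (W : ℝ) (hW : 1 ≤ W)
    (hV' : 12 * p.V * W ≤ (p.SU.card : ℝ) ^ 2) :
    ((p.Qd.filter fun z => W < (Int.gcd z.2.1 z.2.2 : ℝ)).card : ℝ) ≤ 49 / W * p.Qd.card := by
  obtain ⟨hK, hV, hM⟩ := xLG1a_pos h
  obtain ⟨b1, b2⟩ := xLG1a_UB h
  have hb : (0 : ℝ) < p.SU.card := lt_of_lt_of_le (by positivity) h.cards.2.2.1.1
  refine xLG1a_p34 p.SM p.SU (fun u0 u1 => W < (Int.gcd u0 u1 : ℝ)) _ ?_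
  have h1 := xLG1a_pair p.SU p.SU p.K p.V W (3 * p.SU.card / p.SU.card) (2 * p.SU.card) hW
    (by positivity) (by positivity) b1 (fun d d1 d2 d3 => by
      have := b2 d d1 d2 d3
      have e : 3 * (p.SU.card : ℝ) / p.SU.card = 3 := by field_simp
      have e2 : (0 : ℝ) ≤ 2 * p.SU.card / d + 1 := by positivity
      rw [e]
      linarith) b2
  refine le_trans (le_of_eq ?_) (h1.trans (xLG1a_fin hb.le hb hW hV'))
  congr

theorem xLG1a_E5 (p : DP) (h : p.OK 1) (W : ℝ) (hW : 1 ≤ W)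
    (hV' : 12 * p.V * W ≤ (p.SU.card : ℝ) ^ 2) (ha : 2 * (p.V : ℝ) ≤ p.SM.card) :
    ((p.Qd.filter fun z => W < (Int.gcd z.1.1 z.2.2 : ℝ)).card : ℝ) ≤ 49 / W * p.Qd.card := by
  obtain ⟨hK, hV, hM⟩ := xLG1a_pos h
  obtain ⟨b1, b2⟩ := xLG1a_UB h
  have hb : (0 : ℝ) < p.SU.card := lt_of_lt_of_le (by positivity) h.cards.2.2.1.1
  refine xLG1a_p14 p.SM p.SU (fun m0 u1 => W < (Int.gcd m0 u1 : ℝ)) _ ?_
  have h1 := xLG1a_pair p.SM p.SU p.K p.V W (3 * p.SM.card / p.SU.card) (2 * p.SU.card) hW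
    (by positivity) (by positivity) b1 (fun d hd d2 hc => by
      have h1 := xLG1a_mult (p.M : ℤ) (3 * p.M) p.ms (by omega) h.pos hd hc
      have h2 := h.cards.2.1.1
      have hd0 : (0 : ℝ) < d := by exact_mod_cast hd
      have h3 : (((3 * p.M : ℤ) : ℝ) - ((p.M : ℤ) : ℝ)) / (d * p.K) =
          2 * (p.M / p.K) / d := by
        push_cast
        field_simp
        ring
      have h4 : 2 * ((p.M : ℝ) / p.K) / d ≤ 2 * p.SM.card / d := by gcongr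
      have h5 : ((p.SM.filter fun x => (d : ℤ) ∣ x).card : ℝ) ≤
          (((3 * p.M : ℤ) : ℝ) - ((p.M : ℤ) : ℝ)) / (d * p.K) + 1 := h1
      have h6 : (d : ℝ) ≤ 2 * p.V := by exact_mod_cast d2
      have h7 : 1 ≤ (p.SM.card : ℝ) / d := (one_le_div hd0).2 (h6.trans ha)
      have h8 : 3 * (p.SM.card : ℝ) / p.SU.card * (2 * p.SU.card / d + 1) =
          6 * (p.SM.card / d) + 3 * (p.SM.card : ℝ) / p.SU.card := by
        field_simp
        ring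
      have h9 : (0 : ℝ) ≤ 3 * (p.SM.card : ℝ) / p.SU.card := by positivity
      have h10 : 2 * (p.SM.card : ℝ) / d = 2 * (p.SM.card / d) := by ring
      linarith) b2
  refine le_trans (le_of_eq ?_) (h1.trans (xLG1a_fin (by positivity) hb hW hV'))
  congr

theorem xLG1a_num {p : DP} {δ : ℝ} (h : p.Hyp δ 240) :
    2 * δ⁻¹ ^ 240 ≤ p.SU.card ∧ 2 * δ⁻¹ ^ 240 ≤ p.SM.card ∧ 2 * (p.V : ℝ) ≤ p.SM.card ∧
      12 * p.V * δ⁻¹ ^ 240 ≤ (p.SU.card : ℝ) ^ 2 := by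
  obtain ⟨hK, hV, hM⟩ := xLG1a_pos h.one
  have h1 := h.2.2.1.hV
  have h2 := h.one.cards.2.2.1.1
  have h3 := h.one.cards.2.1.1
  have h4 : (p.V : ℝ) ^ 4 ≤ p.M := by exact_mod_cast h.one.hM
  have h0 : 0 < δ := h.1
  set R := δ⁻¹ ^ 240 with hR
  have hR0 : 0 < R := by positivity
  have k1 : (48 : ℝ) * p.K ^ 2 ≤ (p.K : ℝ) ^ 100 := by
    have e1 : (4 : ℝ) ^ 3 ≤ (p.K : ℝ) ^ 3 := by gcongr
    have e2 : (p.K : ℝ) ^ 5 ≤ (p.K : ℝ) ^ 100 := pow_le_pow_right₀ (by linarith) (by norm_num)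
    have e3 : (4 : ℝ) ^ 3 * p.K ^ 2 ≤ (p.K : ℝ) ^ 3 * p.K ^ 2 := by gcongr
    have e4 : (0 : ℝ) ≤ (p.K : ℝ) ^ 2 := by positivity
    have e5 : (p.K : ℝ) ^ 3 * p.K ^ 2 = (p.K : ℝ) ^ 5 := by ring
    nlinarith
  have k2 : 48 * (p.K : ℝ) ^ 2 * R ≤ p.V := le_trans (by gcongr) h1
  have k3 : (p.K : ℝ) ≤ p.V := by
    have := h.one.sizes.2.1
    have h4 : p.K ≤ p.K ^ 100 := Nat.le_self_pow (by norm_num) _
    exact_mod_cast h4.trans this
  have k4 : 2 * R ≤ p.V / (2 * p.K) := by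
    rw [le_div_iff₀ (by positivity)]
    have : 2 * R * (2 * p.K) ≤ 48 * (p.K : ℝ) ^ 2 * R := by
      have : (0 : ℝ) ≤ p.K * R := by positivity
      nlinarith
    linarith
  have k5 : 2 * (p.V : ℝ) ≤ p.M / p.K := by
    rw [le_div_iff₀ (by positivity)]
    have e1 : 2 * (p.V : ℝ) * p.K ≤ 2 * p.V * p.V := by gcongr
    have e2 : (4 : ℝ) ^ 2 ≤ (p.V : ℝ) ^ 2 := by gcongr
    have e3 : (0 : ℝ) ≤ (p.V : ℝ) ^ 2 := by positivity
    nlinarith
  have k6 : (p.V : ℝ) / (2 * p.K) ≤ p.V := div_le_self (by positivity) (by linarith)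
  refine ⟨k4.trans h2, by linarith, k5.trans h3, ?_⟩
  have k7 : ((p.V : ℝ) / (2 * p.K)) ^ 2 ≤ (p.SU.card : ℝ) ^ 2 := by gcongr
  refine le_trans ?_ k7
  rw [div_pow, le_div_iff₀ (by positivity)]
  have : (p.V : ℝ) * (48 * (p.K : ℝ) ^ 2 * R) ≤ p.V * p.V := by gcongr
  nlinarith

theorem LG1a_pf (h1 : LGTa) : LG1a := by
  refine ⟨240, fun δ p h => ?_⟩
  have h0 : 0 < δ := h.1
  have hδ : δ ≤ 1 / 2 := h.2.1
  have ho := h.one
  obtain ⟨hK, hV, hM⟩ := xLG1a_pos ho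
  obtain ⟨n1, n2, n3, n4⟩ := xLG1a_num h
  have hi : 1 ≤ δ⁻¹ := (one_le_inv₀ h0).2 (by linarith)
  set W : ℝ := δ⁻¹ ^ 20 with hW
  have hW1 : 1 ≤ W := one_le_pow₀ hi
  have hW12 : δ⁻¹ ^ 240 = W ^ 12 := by rw [hW, ← pow_mul]
  have hε : δ ^ 240 * δ⁻¹ ^ 240 = 1 := by rw [← mul_pow, mul_inv_cancel₀ h0.ne', one_pow]
  have hε0 : 0 < δ ^ 240 := by positivity
  have m1 : 2 ≤ δ ^ 240 * p.SU.card := by
    have := mul_le_mul_of_nonneg_left n1 hε0.le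
    nlinarith
  have m2 : 2 ≤ δ ^ 240 * p.SM.card := by
    have := mul_le_mul_of_nonneg_left n2 hε0.le
    nlinarith
  have w1 : W ≤ W ^ 12 := le_self_pow₀ hW1 (by norm_num)
  have w6 : W ^ 6 ≤ W ^ 12 := pow_le_pow_right₀ hW1 (by norm_num)
  have m3 : 12 * p.V * W ≤ (p.SU.card : ℝ) ^ 2 := by
    refine le_trans ?_ n4
    rw [hW12]
    gcongr
  have m4 : W ^ 6 ≤ p.SM.card := by
    rw [hW12] at n2
    have : 0 ≤ W ^ 12 := by positivity
    linarith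
  have e1 := xLG1a_E1 p ho _ hε0.le m1
  have e2 := xLG1a_E2 p ho _ hε0.le m2
  have e3 := xLG1a_E3 p ho _ hε0.le m2
  have e4 := xLG1a_E4 p ho (W ^ 3) (W ^ 6) (by positivity) (one_le_pow₀ hW1) m4
  have e5 := xLG1a_E5 p ho W hW1 m3 n3
  have e6 := xLG1a_E6 p ho W hW1 m3
  have e7 := h1 p W ho hW1
  refine le_trans (xLG1a_u7 _ _ _ _ _ _ _ _ e1 e2 e3 e4 e5 e6 e7 ?_) ?_
  · intro z hz0
    simp only [mem_filter] at hz0 ⊢
    obtain ⟨hz, hb⟩ := hz0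
    simp only [hz, true_and]
    rcases hb with hb | hb | hb | hb
    · exact Or.inl hb
    · exact Or.inr (Or.inl hb)
    · exact Or.inr (Or.inr (Or.inl hb))
    by_cases c0 : c1 z.1.1 z.2.1 z.2.2 = 0
    · refine Or.inl ?_
      rw [c0]
      simp only [Int.cast_zero, abs_zero]
      positivity
    refine Or.inr (Or.inr (Or.inr ?_))
    by_cases c7 : W ^ 3 < ta (c1 z.1.1 z.2.1 z.2.2 / p.K)
    · exact Or.inr (Or.inr (Or.inr ⟨c0, c7⟩))
    by_cases c5 : W < (Int.gcd z.1.1 z.2.2 : ℝ)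
    · exact Or.inr (Or.inl c5)
    by_cases c6 : W < (Int.gcd z.2.1 z.2.2 : ℝ)
    · exact Or.inr (Or.inr (Or.inl c6))
    refine Or.inl ⟨not_lt.1 c7, ?_⟩
    have hz' := mem_product.1 hz
    have hu0 := (mem_product.1 hz'.2).1
    have hu1 := (mem_product.1 hz'.2).2
    obtain ⟨a, ha⟩ := xLG1a_cl_sub hu1 hu0
    have hK0 : (p.K : ℤ) ≠ 0 := by
      have := ho.pos
      omega
    have hc : c1 z.1.1 z.2.1 z.2.2 = p.K * (z.1.1 * (z.2.2 + z.2.1) * a) := by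
      unfold c1
      linear_combination z.1.1 * (z.2.2 + z.2.1) * ha
    have hn : c1 z.1.1 z.2.1 z.2.2 / p.K = z.1.1 * (z.2.2 + z.2.1) * a := by
      rw [hc, Int.mul_ediv_cancel_left _ hK0]
    have hn0 : c1 z.1.1 z.2.1 z.2.2 / p.K ≠ 0 := by
      intro h2
      rw [hn] at h2
      rw [h2, mul_zero] at hc
      exact c0 hc
    have hu : z.2.2 ≠ 0 := ((xLG1a_UB ho).1 _ hu1).1.ne'
    refine ⟨Int.gcd (c1 z.1.1 z.2.1 z.2.2 / p.K) (c3' z.1.1 z.1.2 z.2.1 z.2.2 / p.K),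
      Nat.mem_divisors.2 ⟨Int.natCast_dvd.1 (Int.gcd_dvd_left _ _), Int.natAbs_ne_zero.2 hn0⟩,
      Int.gcd_dvd_right _ _, ?_⟩
    refine xLG1a_dich z.1.1 z.2.1 z.2.2 a p.K _ W hW1 hu ha ?_ (hW12 ▸ hb) (not_lt.1 c5)
      (not_lt.1 c6)
    rw [← hn]
    exact Int.gcd_dvd_left _ _
  have hl : Real.log p.M ≤ δ⁻¹ := h.2.2.2.2
  have hQ : (0 : ℝ) ≤ p.Qd.card := by positivity
  have hWi : 1 / W = δ ^ 20 := by rw [hW, inv_pow, one_div, inv_inv]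
  have t1 : δ ^ 240 ≤ δ ^ 19 := pow_le_pow_of_le_one h0.le (by linarith) (by norm_num)
  have t2 : 1 / W ≤ δ ^ 19 := by
    rw [hWi]
    exact pow_le_pow_of_le_one h0.le (by linarith) (by norm_num)
  have t3 : 3 * W ^ 3 / W ^ 6 ≤ 3 * (1 / W) := by
    rw [mul_one_div, div_le_div_iff₀ (by positivity) (by positivity)]
    have : W ^ 4 ≤ W ^ 6 := pow_le_pow_right₀ hW1 (by norm_num)
    nlinarith
  have t4 : 10 ^ 3 * Real.log p.M / W ≤ 10 ^ 3 * δ ^ 19 := by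
    have e : δ ^ 19 = δ⁻¹ * (1 / W) := by
      rw [hWi]
      field_simp
    rw [e, div_eq_mul_one_div, mul_assoc]
    gcongr
  have t5 : 49 / W = 49 * (1 / W) := by ring
  have t6 : δ ^ 19 ≤ δ * (1 / 2) ^ 18 := by
    rw [pow_succ']
    gcongr
  have t7 : 5 * δ ^ 240 + 5 * δ ^ 240 + 5 * δ ^ 240 + 3 * W ^ 3 / W ^ 6 + 49 / W + 49 / W +
      10 ^ 3 * Real.log p.M / W ≤ δ := by
    norm_num at t6
    linarith
  calc _ = (5 * δ ^ 240 + 5 * δ ^ 240 + 5 * δ ^ 240 + 3 * W ^ 3 / W ^ 6 + 49 / W + 49 / W +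
      10 ^ 3 * Real.log p.M / W) * p.Qd.card := by ring
    _ ≤ _ := by gcongr

end Pool.Agent.MP_e23604_nt.U

end
end
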