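import Pool.Agent.Mg.Fe23604m.G954648

set_option linter.all false

/-!
The dual function has a large periodic part.
-/

open Finset
open scoped Classical

noncomputable section

namespace Pool.Agent.MP_e23604_nt.U

theorem xLR5_mem_JJ {N : ℕ} {m : ℤ} : m ∈ JJ N ↔ -(N : ℤ) ≤ m ∧ m < N := by
  unfold JJ
  exact mem_Ico

/-- A class of a class is a class. -/
theorem xLR5_class (f : ℤ → ℝ) (X Λ L N r ρ : ℕ) (β : ℝ) (hX : 1 ≤ X) (hΛX : Λ ≤ X) (hr : r < Λ)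
    (hρ : ρ < L) (hN1 : 29 * X ≤ N * Λ) (hN2 : N * Λ ≤ 30 * X)
    (hf : ∀ x, f x ≠ 0 → |x| ≤ 24 * (X : ℤ)) :
    ‖∑ m ∈ (JJ N).filter (fun m => m % (L : ℤ) = ρ), res f Λ r m * ee (β * m)‖ =
      ‖∑ x ∈ (JJ (30 * X)).filter (fun x => x % ((Λ * L : ℕ) : ℤ) = ((r + Λ * ρ : ℕ) : ℤ)),
        ((f x : ℝ) : ℂ) * ee (β / Λ * x)‖ := by
  have hΛ : 0 < Λ := by omega
  have hΛz : (0 : ℤ) < Λ := by exact_mod_cast hΛ
  have hΛr : (Λ : ℝ) ≠ 0 := by positivity
  have hrz : (r : ℤ) < Λ := by exact_mod_cast hr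
  have hρz : (ρ : ℤ) < L := by exact_mod_cast hρ
  have hN1z : 29 * (X : ℤ) ≤ N * Λ := by exact_mod_cast hN1
  have hN2z : (N : ℤ) * Λ ≤ 30 * X := by exact_mod_cast hN2
  have hXz : (1 : ℤ) ≤ X := by exact_mod_cast hX
  have hΛXz : (Λ : ℤ) ≤ X := by exact_mod_cast hΛX
  have hr0 : (0 : ℤ) ≤ r := Int.natCast_nonneg r
  have hρ0 : (0 : ℤ) ≤ ρ := Int.natCast_nonneg ρ
  have hlt : (r : ℤ) + Λ * ρ < Λ * L := by nlinarith
  have hge : (0 : ℤ) ≤ (r : ℤ) + Λ * ρ := by positivity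
  have key : ee (β / Λ * r) *
      ∑ m ∈ (JJ N).filter (fun m => m % (L : ℤ) = ρ), res f Λ r m * ee (β * m) =
      ∑ x ∈ (JJ (30 * X)).filter (fun x => x % ((Λ * L : ℕ) : ℤ) = ((r + Λ * ρ : ℕ) : ℤ)),
        ((f x : ℝ) : ℂ) * ee (β / Λ * x) := by
    rw [mul_sum]
    refine sum_of_injOn (fun m : ℤ => (r : ℤ) + Λ * m) ?_ ?_ ?_ ?_
    · intro a _ b _ hab
      have : (Λ : ℤ) * a = Λ * b := by simpa using hab
      exact mul_left_cancel₀ hΛz.ne' this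
    · intro m hm
      rw [coe_filter, Set.mem_ofPred_eq, xLR5_mem_JJ] at hm
      obtain ⟨⟨h1, h2⟩, h3⟩ := hm
      rw [coe_filter, Set.mem_ofPred_eq, xLR5_mem_JJ]
      push_cast
      refine ⟨⟨by nlinarith, by nlinarith⟩, ?_⟩
      have hm : m = ρ + L * (m / L) := by
        have := Int.emod_add_mul_ediv m L
        rw [h3] at this
        exact this.symm
      have e : (r : ℤ) + Λ * m = (r + Λ * ρ) + (Λ * L) * (m / L) := by
        conv_lhs => rw [hm]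
        ring
      rw [e, Int.add_mul_emod_self_left, Int.emod_eq_of_lt hge hlt]
    · intro x hx hni
      rw [mem_filter, xLR5_mem_JJ] at hx
      obtain ⟨_, h3⟩ := hx
      push_cast at h3
      have h0 : f x = 0 := by
        by_contra hne
        have hb := abs_le.1 (hf x hne)
        apply hni
        have hx : x = r + Λ * (ρ + L * (x / (Λ * L))) := by
          have := Int.emod_add_mul_ediv x (Λ * L)
          rw [h3] at this
          linarith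
        refine ⟨ρ + L * (x / (Λ * L)), ?_, hx.symm⟩
        rw [coe_filter, Set.mem_ofPred_eq, xLR5_mem_JJ]
        refine ⟨⟨?_, ?_⟩, ?_⟩
        · by_contra hc
          push Not at hc
          nlinarith [hb.1]
        · by_contra hc
          push Not at hc
          nlinarith [hb.2]
        · rw [Int.add_mul_emod_self_left, Int.emod_eq_of_lt hρ0 hρz]
      simp [h0]
    · intro m _
      have e : β / Λ * (((r : ℤ) + Λ * m : ℤ) : ℝ) = β / Λ * r + β * m := by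
        push_cast
        field_simp
      rw [e, ee_add]
      unfold res
      ring
  rw [← key, norm_mul, norm_ee, one_mul]

/-- Removing the rational part and moving the small part of a frequency. -/
theorem xLR5_one (g : ℤ → ℂ) (hg : ∀ m, ‖g m‖ ≤ 1) (N L : ℕ) (hN : 1 ≤ N) (hL : 1 ≤ L) (j : ℤ)
    (β β0 δ : ℝ) (hβ : |β - β0| ≤ δ / (100 * N))
    (h : δ * N ≤ ‖∑ m ∈ JJ N, g m * ee ((j / L + β) * m)‖) :
    δ * N / 2 ≤
      ∑ ρ ∈ range L, ‖∑ m ∈ (JJ N).filter (fun m => m % (L : ℤ) = ρ), g m * ee (β0 * m)‖ := by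
  have hNr : (1 : ℝ) ≤ N := by exact_mod_cast hN
  have hLz : (0 : ℤ) < L := by exact_mod_cast hL
  have hLr : (L : ℝ) ≠ 0 := by positivity
  have hδ : 0 ≤ δ := by
    have h0 : 0 ≤ δ / (100 * N) := le_trans (abs_nonneg _) hβ
    have h1 : (0 : ℝ) < 100 * N := by positivity
    by_contra hc
    push Not at hc
    have := div_neg_of_neg_of_pos hc h1
    linarith
  have h1 : ‖∑ m ∈ JJ N, g m * ee ((j / L + β) * m) - ∑ m ∈ JJ N, g m * ee ((j / L + β0) * m)‖ ≤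
      14 * δ * N / 100 := by
    rw [← sum_sub_distrib]
    refine le_trans (norm_sum_le _ _) ?_
    have hb : ∀ m ∈ JJ N, ‖g m * ee ((j / L + β) * m) - g m * ee ((j / L + β0) * m)‖ ≤
        7 * δ / 100 := by
      intro m hm
      rw [xLR5_mem_JJ] at hm
      rw [← mul_sub, norm_mul]
      have hm' : |(m : ℝ)| ≤ N := by
        rw [abs_le]
        constructor
        · exact_mod_cast hm.1
        · exact_mod_cast hm.2.le
      have e : (j / L + β) * (m : ℝ) - (j / L + β0) * m = (β - β0) * m := by ring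
      have h2 := ee_lip ((j / L + β) * m) ((j / L + β0) * m)
      rw [e, abs_mul] at h2
      have h3 : |β - β0| * |(m : ℝ)| ≤ δ / (100 * N) * N :=
        mul_le_mul hβ hm' (abs_nonneg _) (by positivity)
      have h4 : δ / (100 * N) * N = δ / 100 := by field_simp
      have h5 : ‖g m‖ * ‖ee ((j / L + β) * m) - ee ((j / L + β0) * m)‖ ≤
          1 * ‖ee ((j / L + β) * m) - ee ((j / L + β0) * m)‖ :=
        mul_le_mul_of_nonneg_right (hg m) (norm_nonneg _)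
      linarith
    refine le_trans (sum_le_card_nsmul _ _ _ hb) ?_
    rw [nsmul_eq_mul, card_JJ]
    apply le_of_eq
    ring
  have h2 : ‖∑ m ∈ JJ N, g m * ee ((j / L + β0) * m)‖ ≤
      ∑ ρ ∈ range L, ‖∑ m ∈ (JJ N).filter (fun m => m % (L : ℤ) = ρ), g m * ee (β0 * m)‖ := by
    have hmap : ∀ m ∈ JJ N, (m % (L : ℤ)).toNat ∈ range L := by
      intro m _
      have a1 := Int.emod_nonneg m hLz.ne'
      have a2 := Int.emod_lt_of_pos m hLz
      rw [mem_range]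
      omega
    rw [← sum_fiberwise_of_maps_to hmap]
    refine le_trans (norm_sum_le _ _) (sum_le_sum fun ρ _ => le_of_eq ?_)
    have hfil : (JJ N).filter (fun m => (m % (L : ℤ)).toNat = ρ) =
        (JJ N).filter (fun m => m % (L : ℤ) = ρ) := by
      refine filter_congr fun m _ => ?_
      have a1 := Int.emod_nonneg m hLz.ne'
      omega
    rw [hfil]
    have e : ∑ m ∈ (JJ N).filter (fun m => m % (L : ℤ) = ρ), g m * ee ((j / L + β0) * m) =
        ee (j * ρ / L) * ∑ m ∈ (JJ N).filter (fun m => m % (L : ℤ) = ρ), g m * ee (β0 * m) := by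
      rw [mul_sum]
      refine sum_congr rfl fun m hm => ?_
      have h3 := (mem_filter.1 hm).2
      have hm' : m = ρ + L * (m / L) := by
        have := Int.emod_add_mul_ediv m L
        rw [h3] at this
        exact this.symm
      have hmr : (m : ℝ) = ρ + L * ((m / L : ℤ) : ℝ) := by exact_mod_cast hm'
      have e2 : (j / L + β0) * (m : ℝ) = (j * ρ / L + ((j * (m / L) : ℤ) : ℝ)) + β0 * m := by
        rw [add_mul, Int.cast_mul]
        congr 1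
        conv_lhs => rw [hmr]
        field_simp
      rw [e2, ee_add, ee_add, ee_int]
      ring
    rw [e, norm_mul, norm_ee, one_mul]
  have h3 := norm_sub_norm_le (∑ m ∈ JJ N, g m * ee ((j / L + β) * m))
    (∑ m ∈ JJ N, g m * ee ((j / L + β0) * m))
  have h4 : 0 ≤ δ * N := by positivity
  nlinarith

theorem xLR5_pairs (F : ℕ → ℝ) (hF : ∀ n, 0 ≤ F n) (Λ L : ℕ) (G : Finset ℕ) (hG : G ⊆ range Λ) :
    ∑ r ∈ G, ∑ ρ ∈ range L, F (r + Λ * ρ) ≤ ∑ σ ∈ range (Λ * L), F σ := by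
  rw [← sum_product']
  have hinj : Set.InjOn (fun z : ℕ × ℕ => z.1 + Λ * z.2) (G ×ˢ range L : Finset (ℕ × ℕ)) := by
    rintro ⟨a, b⟩ h1 ⟨c, d⟩ h2 h
    have ha : a < Λ := mem_range.1 (hG (mem_product.1 (mem_coe.1 h1)).1)
    have hc : c < Λ := mem_range.1 (hG (mem_product.1 (mem_coe.1 h2)).1)
    have h' : a + Λ * b = c + Λ * d := h
    have e1 : a = c := by
      have := congrArg (· % Λ) h'
      simpa [Nat.add_mul_mod_self_left, Nat.mod_eq_of_lt ha, Nat.mod_eq_of_lt hc] using this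
    subst e1
    have e2 : b = d := Nat.eq_of_mul_eq_mul_left (by omega : 0 < Λ) (by omega)
    rw [e2]
  rw [← sum_image (f := F) hinj]
  refine sum_le_sum_of_subset_of_nonneg ?_ fun n _ _ => hF n
  intro n hn
  obtain ⟨⟨a, b⟩, h1, rfl⟩ := mem_image.1 hn
  have ha : a < Λ := mem_range.1 (hG (mem_product.1 h1).1)
  have hb : b < L := mem_range.1 (mem_product.1 h1).2
  rw [mem_range]
  show a + Λ * b < Λ * L
  nlinarith

/-- The expansion of the dual function. -/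
theorem xLR5_expand (p : DP) (w : Wts) (hn : 0 < p.nW) (Λ N : ℕ) (r : ℤ) (ξ : ℝ) :
    ‖∑ m ∈ JJ N, ∑ y ∈ p.SY, ∑ μ ∈ p.SM, ∑ u ∈ p.SU,
      ((p.gw w (r + Λ * m) y μ u : ℝ) : ℂ) * ee (ξ * m)‖ =
      ‖∑ m ∈ JJ N, res (p.D w) Λ r m * ee (ξ * m)‖ * p.nW := by
  have e : ∑ m ∈ JJ N, ∑ y ∈ p.SY, ∑ μ ∈ p.SM, ∑ u ∈ p.SU,
      ((p.gw w (r + Λ * m) y μ u : ℝ) : ℂ) * ee (ξ * m) =
      (∑ m ∈ JJ N, res (p.D w) Λ r m * ee (ξ * m)) * ((p.nW : ℝ) : ℂ) := by
    rw [sum_mul]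
    refine sum_congr rfl fun m _ => ?_
    have hn' : ((p.nW : ℝ) : ℂ) ≠ 0 := by exact_mod_cast hn.ne'
    unfold res DP.D
    simp only [← sum_mul]
    push_cast
    field_simp
  rw [e, norm_mul, Complex.norm_real, Real.norm_eq_abs, abs_of_pos hn]

theorem xLR5_nW {p : DP} (h : p.OK 1) : 0 < p.nW := by
  obtain ⟨⟨a1, _⟩, ⟨a2, _⟩, ⟨a3, _⟩, _⟩ := h.cards
  obtain ⟨b1, b2, b3, b4, _, _⟩ := h.sizes
  have hK : 0 < p.K := by omega
  have hV : 0 < p.V := lt_of_lt_of_le (pow_pos hK 100) b2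
  have hM : 0 < p.M := by omega
  have hY : 0 < p.Y := by omega
  have c1 : (0 : ℝ) < p.SY.card := lt_of_lt_of_le (by positivity) a1
  have c2 : (0 : ℝ) < p.SM.card := lt_of_lt_of_le (by positivity) a2
  have c3 : (0 : ℝ) < p.SU.card := lt_of_lt_of_le (by positivity) a3
  unfold DP.nW
  positivity

theorem LR5_pf (h1 : LMAJ) : LR5 := by
  obtain ⟨C1, hM⟩ := h1
  refine ⟨2 * C1 + 16, ?_⟩
  intro δ p w q hH hq1 hq hA
  have hH1 : p.Hyp δ C1 := hH.of_le (a := 1) (by simp) le_rfl (by omega)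
  have hok := hH.one
  obtain ⟨hδ0, hδ2, hOK, hrep, -⟩ := hH
  obtain ⟨b1, b2, b3, b4, b5, -⟩ := hok.sizes
  have hnW := xLR5_nW hok
  have hBd := DP.D_bd hok hrep w
  have hV := hOK.hV
  set t : ℝ := δ⁻¹ with ht
  have ht2 : 2 ≤ t := by
    rw [ht, le_inv_comm₀ (by norm_num) hδ0]
    linarith
  have ht1 : 1 ≤ t := by linarith
  have ht0 : 0 < t := by linarith
  have hδt : δ * t = 1 := mul_inv_cancel₀ hδ0.ne'
  have hK4 : (4 : ℝ) ≤ p.K := by exact_mod_cast b1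
  have hK0 : 0 < p.K := by omega
  set Λ : ℕ := 2 * q * p.K ^ 7 with hΛ
  have hΛ1 : 1 ≤ Λ := by
    have : 0 < Λ := by positivity
    omega
  have hΛr : (Λ : ℝ) = 2 * q * (p.K : ℝ) ^ 7 := by rw [hΛ]; push_cast; ring
  have hΛ0 : (0 : ℝ) < Λ := by exact_mod_cast hΛ1
  have hs1 : 1 ≤ t ^ C1 := one_le_pow₀ ht1
  have hKΛ : (p.K : ℝ) * Λ * t ^ C1 ≤ p.V := by
    refine le_trans ?_ hV
    have e1 : (p.K : ℝ) * Λ * t ^ C1 = (2 * (p.K : ℝ) ^ 8) * (q * t ^ C1) := by rw [hΛr]; ring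
    rw [e1]
    refine mul_le_mul ?_ ?_ (by positivity) (by positivity)
    · have e2 : (p.K : ℝ) ^ 100 = (p.K : ℝ) ^ 92 * (p.K : ℝ) ^ 8 := by ring
      rw [e2]
      refine mul_le_mul_of_nonneg_right ?_ (by positivity)
      exact le_trans (by linarith) (le_self_pow₀ (by linarith) (by norm_num))
    · calc (q : ℝ) * t ^ C1 ≤ t * t ^ C1 := mul_le_mul_of_nonneg_right hq (by positivity)
        _ = t ^ (C1 + 1) := by ring
        _ ≤ t ^ (2 * C1 + 16) := pow_le_pow_right₀ ht1 (by omega)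
  have hΛX : Λ ≤ p.X := by
    have a1 : (Λ : ℝ) ≤ p.V := by
      refine le_trans ?_ hKΛ
      have : (1 : ℝ) * Λ * 1 ≤ p.K * Λ * t ^ C1 :=
        mul_le_mul (mul_le_mul_of_nonneg_right (by linarith) hΛ0.le) hs1 (by norm_num)
          (by positivity)
      linarith
    have a2 : Λ ≤ p.V := by exact_mod_cast a1
    omega
  have hX1 : 1 ≤ p.X := by omega
  have hX0 : (0 : ℝ) < p.X := by exact_mod_cast hX1
  obtain ⟨hN1, hN2⟩ := hok.N_bd hΛ1 hΛX
  set N : ℕ := p.N Λ with hN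
  rw [div_le_iff₀ hΛ0] at hN1
  rw [le_div_iff₀ hΛ0] at hN2
  have hN1n : 29 * p.X ≤ N * Λ := by exact_mod_cast hN1
  have hN2n : N * Λ ≤ 30 * p.X := by exact_mod_cast hN2
  have hNpos : 1 ≤ N := by
    rcases Nat.eq_zero_or_pos N with h0 | h0
    · rw [h0] at hN1n
      omega
    · exact h0
  have hN0 : (0 : ℝ) < N := by exact_mod_cast hNpos
  unfold DP.A4 at hA
  rw [← hΛr] at hA
  set G : Finset ℕ := (range Λ).filter fun r : ℕ => FC (res (p.D w) Λ r) N δ with hG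
  set B : ℝ := t ^ C1 * Λ / p.X with hB
  have hB0 : 0 ≤ B := by positivity
  -- major arcs for each good class
  have hmaj : ∀ r ∈ G, ∃ q' ∈ Icc 1 ⌊t ^ C1⌋₊, ∃ β : ℝ, |β| ≤ B ∧ ∃ j : ℤ,
      δ * N ≤ ‖∑ m ∈ JJ N, res (p.D w) Λ r m *
        ee ((j / ((2 * q' * (p.K * Λ) ^ 3 : ℕ) : ℝ) + β) * m)‖ := by
    intro r hr
    obtain ⟨hr1, ξ, hξ⟩ := mem_filter.1 hr
    have hr2 : r < Λ := mem_range.1 hr1
    have hr3 : |(r : ℤ)| ≤ 2 * (p.X : ℤ) := by
      rw [abs_of_nonneg (Int.natCast_nonneg r)]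
      omega
    obtain ⟨q', c1, c2, c3⟩ := hM δ ξ p w Λ r hH1 hΛ1 hKΛ hr3 (by
      rw [xLR5_expand p w hnW, ← mul_assoc]
      exact mul_le_mul_of_nonneg_right hξ hnW.le)
    have hq'1 : (1 : ℝ) ≤ q' := by exact_mod_cast c1
    set L : ℕ := 2 * q' * (p.K * Λ) ^ 3 with hL
    have hLr : (L : ℝ) = 2 * q' * ((p.K : ℝ) * Λ) ^ 3 := by rw [hL]; push_cast; ring
    have hP : (0 : ℝ) < ((p.K : ℝ) * Λ) ^ 3 := by positivity
    have hL0 : (0 : ℝ) < L := by rw [hLr]; positivity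
    rw [← hLr] at c3
    refine ⟨q', mem_Icc.2 ⟨c1, Nat.le_floor c2⟩, ξ - (round (L * ξ) : ℝ) / L, ?_, round (L * ξ), ?_⟩
    · have e : ξ - (round (L * ξ) : ℝ) / L = (L * ξ - round (L * ξ)) / L := by field_simp
      rw [e, abs_div, abs_of_pos hL0, div_le_iff₀ hL0]
      refine le_trans c3 ?_
      have e2 : t ^ C1 * ((p.K : ℝ) * Λ) ^ 3 * Λ / p.X = B * ((p.K : ℝ) * Λ) ^ 3 := by
        rw [hB]; ring
      rw [e2, hLr]
      refine mul_le_mul_of_nonneg_left ?_ hB0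
      nlinarith
    · have e : (round (L * ξ) : ℝ) / L + (ξ - (round (L * ξ) : ℝ) / L) = ξ := by ring
      rw [e]
      exact hξ
  have hne : (Icc 1 ⌊t ^ C1⌋₊).Nonempty := ⟨1, mem_Icc.2 ⟨le_rfl, Nat.le_floor (by simpa using hs1)⟩⟩
  obtain ⟨q', hq', hc1⟩ := pig G _ hne _ hmaj
  obtain ⟨hq'1, hq'2⟩ := mem_Icc.1 hq'
  have hq'3 : (q' : ℝ) ≤ t ^ C1 := le_trans (by exact_mod_cast hq'2) (Nat.floor_le (by positivity))
  set L : ℕ := 2 * q' * (p.K * Λ) ^ 3 with hL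
  have hL1 : 1 ≤ L := by
    have : 0 < L := by positivity
    omega
  set G1 : Finset ℕ := G.filter fun r : ℕ => ∃ β : ℝ, |β| ≤ B ∧ ∃ j : ℤ,
      δ * N ≤ ‖∑ m ∈ JJ N, res (p.D w) Λ r m * ee ((j / (L : ℝ) + β) * m)‖ with hG1
  have hc2 : (G.card : ℝ) ≤ t ^ C1 * G1.card := by
    refine le_trans hc1 (mul_le_mul_of_nonneg_right ?_ (by positivity))
    rw [Nat.card_Icc]
    simp only [add_tsub_cancel_right]
    exact Nat.floor_le (by positivity)
  have hex : ∀ r : ℕ, ∃ β : ℝ, r ∈ G1 → (|β| ≤ B ∧ ∃ j : ℤ,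
      δ * N ≤ ‖∑ m ∈ JJ N, res (p.D w) Λ r m * ee ((j / (L : ℝ) + β) * m)‖) := by
    intro r
    by_cases hr : r ∈ G1
    · obtain ⟨β, hβ⟩ := (mem_filter.1 hr).2
      exact ⟨β, fun _ => hβ⟩
    · exact ⟨0, fun h => absurd h hr⟩
  choose βf hβf using hex
  obtain ⟨β0, hβ0, hc3⟩ := pig_bin G1 βf (B := B) (w := δ / (100 * N)) (by positivity) hB0
    fun r hr => (hβf r hr).1
  set G2 : Finset ℕ := G1.filter fun r : ℕ => |βf r - β0| ≤ δ / (100 * N) with hG2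
  have hc4 : 2 * B / (δ / (100 * N)) + 1 ≤ t ^ (C1 + 14) := by
    have e : 2 * B / (δ / (100 * N)) = 200 * (t ^ C1 * t) * (N * Λ) / p.X := by
      rw [hB, ht]
      field_simp
      ring
    have a1 : 200 * (t ^ C1 * t) * (N * Λ) / p.X ≤ 6000 * (t ^ C1 * t) := by
      rw [div_le_iff₀ hX0]
      have : 200 * (t ^ C1 * t) * (N * Λ) ≤ 200 * (t ^ C1 * t) * (30 * p.X) :=
        mul_le_mul_of_nonneg_left hN2 (by positivity)
      linarith
    have a2 : (2 : ℝ) ^ 13 ≤ t ^ 13 := pow_le_pow_left₀ (by norm_num) ht2 13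
    have a3 : 1 ≤ t ^ C1 * t := by nlinarith
    have e2 : t ^ (C1 + 14) = t ^ 13 * (t ^ C1 * t) := by ring
    rw [e, e2]
    nlinarith
  have hc5 : (G1.card : ℝ) ≤ t ^ (C1 + 14) * G2.card :=
    le_trans hc3 (mul_le_mul_of_nonneg_right hc4 (by positivity))
  have hG2sub : G2 ⊆ range Λ := fun r hr =>
    (mem_filter.1 (mem_filter.1 (mem_filter.1 hr).1).1).1
  have hQ : 32 * q' * q ^ 4 * p.K ^ 31 = Λ * L := by rw [hL, hΛ]; ring
  have hinv : (δ ^ (2 * C1 + 16))⁻¹ = t ^ (2 * C1 + 16) := by rw [ht, inv_pow]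
  refine ⟨32 * q' * q ^ 4, β0 / Λ, ?_, ?_, ?_, ?_⟩
  · have : 0 < 32 * q' * q ^ 4 := by positivity
    omega
  · rw [hinv]
    push_cast
    have a2 : (2 : ℝ) ^ 5 ≤ t ^ 5 := pow_le_pow_left₀ (by norm_num) ht2 5
    have a3 : (q : ℝ) ^ 4 ≤ t ^ 4 := pow_le_pow_left₀ (by positivity) hq 4
    calc (32 : ℝ) * q' * (q : ℝ) ^ 4 ≤ t ^ 5 * t ^ C1 * t ^ 4 :=
          mul_le_mul (mul_le_mul (by linarith) hq'3 (by positivity) (by positivity)) a3
            (by positivity) (by positivity)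
      _ = t ^ (C1 + 9) := by ring
      _ ≤ t ^ (2 * C1 + 16) := pow_le_pow_right₀ ht1 (by omega)
  · rw [hinv, abs_div, abs_of_pos hΛ0, div_le_iff₀ hΛ0]
    refine le_trans hβ0 ?_
    have a1 : t ^ C1 ≤ t ^ (2 * C1 + 16) := pow_le_pow_right₀ ht1 (by omega)
    have e : t ^ (2 * C1 + 16) / p.X * Λ = t ^ (2 * C1 + 16) * Λ / p.X := by ring
    rw [e, hB]
    gcongr
  · rw [hQ]
    refine le_trans ?_ (xLR5_pairs (fun σ : ℕ =>
      ‖∑ x ∈ (JJ (30 * p.X)).filter (fun x => x % ((Λ * L : ℕ) : ℤ) = (σ : ℤ)),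
        ((p.D w x : ℝ) : ℂ) * ee (β0 / Λ * x)‖) (fun _ => norm_nonneg _) Λ L G2 hG2sub)
    have hone : ∀ r ∈ G2, δ * N / 2 ≤ ∑ ρ ∈ range L,
        ‖∑ x ∈ (JJ (30 * p.X)).filter (fun x => x % ((Λ * L : ℕ) : ℤ) = ((r + Λ * ρ : ℕ) : ℤ)),
          ((p.D w x : ℝ) : ℂ) * ee (β0 / Λ * x)‖ := by
      intro r hr
      obtain ⟨hr1, hr2⟩ := mem_filter.1 hr
      obtain ⟨-, j, hj⟩ := hβf r hr1
      have hg : ∀ m, ‖res (p.D w) Λ r m‖ ≤ 1 := by
        intro m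
        unfold res
        rw [Complex.norm_real, Real.norm_eq_abs]
        exact hBd.1 _
      refine le_trans (xLR5_one _ hg N L hNpos hL1 j (βf r) β0 δ hr2 hj) (le_of_eq ?_)
      refine sum_congr rfl fun ρ hρ => ?_
      exact xLR5_class (p.D w) p.X Λ L N r ρ β0 hX1 hΛX (mem_range.1 (hG2sub hr)) (mem_range.1 hρ)
        hN1n hN2n hBd.2
    refine le_trans ?_ (card_nsmul_le_sum G2 _ _ hone)
    rw [nsmul_eq_mul]
    have a1 : δ * Λ ≤ t ^ (2 * C1 + 14) * G2.card := by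
      calc δ * Λ ≤ G.card := hA
        _ ≤ t ^ C1 * G1.card := hc2
        _ ≤ t ^ C1 * (t ^ (C1 + 14) * G2.card) := mul_le_mul_of_nonneg_left hc5 (by positivity)
        _ = t ^ (2 * C1 + 14) * G2.card := by ring
    have a2 : δ ^ (2 * C1 + 14) * t ^ (2 * C1 + 14) = 1 := by rw [← mul_pow, hδt, one_pow]
    have a0 : 0 < δ ^ (2 * C1 + 14) := by positivity
    have a3 : δ ^ (2 * C1 + 14) * (δ * Λ) ≤ G2.card := by
      calc δ ^ (2 * C1 + 14) * (δ * Λ) ≤ δ ^ (2 * C1 + 14) * (t ^ (2 * C1 + 14) * G2.card) :=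
            mul_le_mul_of_nonneg_left a1 a0.le
        _ = G2.card := by rw [← mul_assoc, a2, one_mul]
    have a4 : δ ^ (2 * C1 + 14) * (δ * Λ) * (δ * N / 2) ≤ G2.card * (δ * N / 2) :=
      mul_le_mul_of_nonneg_right a3 (by positivity)
    refine le_trans ?_ a4
    have e : δ ^ (2 * C1 + 14) * (δ * Λ) * (δ * N / 2) = δ ^ (2 * C1 + 16) * (N * Λ / 2) := by ring
    rw [e]
    refine mul_le_mul_of_nonneg_left ?_ (by positivity)
    linarith

end Pool.Agent.MP_e23604_nt.U
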