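import Pool.Agent.Mg.Fe23604m.G954648

set_option linter.all false

section

/-!
Many tuples with a large coset mass.
-/

open Finset
open scoped Classical

noncomputable section

namespace Pool.Agent.MP_e23604_nt.U

theorem xLR1a_cs (h1 : LCS2) (p : DP) (w : Wts) (f : ℤ → ℝ) :
    |p.S w f| ^ 4 ≤ ((p.SX.card : ℝ) * p.SY.card) ^ 3 * (p.SM.card : ℝ) ^ 2 * (p.SU.card : ℝ) ^ 2 *
      ∑ z ∈ p.Qd, |p.L4 f z.1.1 z.1.2 z.2.1 z.2.2| := by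
  have h := h1 (ℤ × ℤ) ℤ ℤ (p.SX ×ˢ p.SY) p.SM p.SU (fun o a => (w.G1 o.1 o.2 a : ℝ))
    (fun o b => (w.G2 o.1 o.2 b : ℝ)) (fun a b => (w.H a b : ℝ))
    (fun o a b => (f (o.1 - p.T o.2 a b) : ℝ))
    (fun o a => by simpa using w.h1 _ _ _) (fun o a => by simpa using w.h2 _ _ _)
    (fun o a => by simpa using w.h3 _ _)
  simp only [Complex.conj_ofReal, ← Complex.ofReal_mul, ← Complex.ofReal_sum, Complex.norm_real,
    Real.norm_eq_abs, sum_product, card_product, Nat.cast_mul] at h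
  simpa only [DP.S, DP.Qd, DP.L4, sum_product] using h

theorem xLR1a_L4 {p : DP} {f : ℤ → ℝ} (hf : ∀ x, |f x| ≤ 1) (a b c d : ℤ) :
    |p.L4 f a b c d| ≤ (p.SX.card : ℝ) * p.SY.card := by
  refine (abs_sum_le_sum_abs _ _).trans ((sum_le_card_nsmul _ _ (p.SY.card : ℝ) fun x _ =>
    (abs_sum_le_sum_abs _ _).trans ((sum_le_card_nsmul _ _ (1 : ℝ) fun y _ => ?_).trans
      (by simp))).trans (by simp))
  simp only [abs_mul]
  exact mul_le_one₀ (mul_le_one₀ (mul_le_one₀ (hf _) (abs_nonneg _) (hf _)) (abs_nonneg _) (hf _))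
    (abs_nonneg _) (hf _)

theorem xLR1a_div {K : ℕ} {c : ℤ} (h : (K : ℤ) ∣ c) (h0 : c ≠ 0) : c / K ≠ 0 := fun e =>
  h0 (by rw [← Int.ediv_mul_cancel h, e, zero_mul])

theorem LR1a_pf (h1 : LCS2) (h2 : LU3) (h3 : LG1a) : LR1a := by
  obtain ⟨C2, h2⟩ := h2
  obtain ⟨C3, h3⟩ := h3
  obtain ⟨a, ha⟩ : ∃ a : ℕ, a = 6 * C3 + 10 := ⟨_, rfl⟩
  refine ⟨a * C2 + 2 * a + 10, fun δ p w f hp hf hS => ?_⟩
  have h0 : 0 < δ := hp.1
  have hh : δ ≤ 1 / 2 := hp.2.1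
  have hle : ∀ {m n : ℕ}, m ≤ n → δ ^ n ≤ δ ^ m := fun h =>
    pow_le_pow_of_le_one h0.le (by linarith) h
  have hsm : ∀ n : ℕ, δ ^ n ≤ (1 / 2) ^ n := fun n => pow_le_pow_left₀ h0.le hh n
  obtain ⟨⟨cY, -⟩, ⟨cM, -⟩, ⟨cU, -⟩, ⟨-, -, cE⟩, cX⟩ := hp.one.cards
  obtain ⟨s1, s2, s3, s4, s5, -⟩ := hp.one.sizes
  have hK : (4 : ℝ) ≤ p.K := by exact_mod_cast s1
  have hV : 1 ≤ p.V := (Nat.one_le_pow _ _ (by omega)).trans s2
  have pV : (0 : ℝ) < p.V := by exact_mod_cast hV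
  have pM : (0 : ℝ) < p.M := by exact_mod_cast hV.trans s3
  have pY : (0 : ℝ) < p.Y := by exact_mod_cast (hV.trans s3).trans s4
  have pX : (0 : ℝ) < p.X := by exact_mod_cast ((hV.trans s3).trans s4).trans s5
  have qY : (0 : ℝ) < p.SY.card := lt_of_lt_of_le (by positivity) cY
  have qM : (0 : ℝ) < p.SM.card := lt_of_lt_of_le (by positivity) cM
  have qU : (0 : ℝ) < p.SU.card := lt_of_lt_of_le (by positivity) cU
  have cQ : (p.Qd.card : ℝ) = p.SM.card ^ 2 * p.SU.card ^ 2 := by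
    simp only [DP.Qd, card_product, Nat.cast_mul]
    ring
  have b1 : δ ^ 4 * ((p.X : ℝ) * p.SY.card) * p.Qd.card ≤
      ∑ z ∈ p.Qd, |p.L4 f z.1.1 z.1.2 z.2.1 z.2.2| := by
    have e := (pow_le_pow_left₀ (by unfold DP.nW; positivity) hS 4).trans (xLR1a_cs h1 p w f)
    rw [cX] at e
    refine le_of_mul_le_mul_left (a := ((p.X : ℝ) * p.SY.card) ^ 3 * (p.SM.card : ℝ) ^ 2 *
      (p.SU.card : ℝ) ^ 2) (le_trans (le_of_eq ?_) e) (by positivity)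
    rw [cQ, DP.nW]
    ring
  have b2 := pop p.Qd _ (by positivity) (by positivity)
    (fun z _ => cX ▸ xLR1a_L4 hf.1 z.1.1 z.1.2 z.2.1 z.2.2) b1
  have b3 := h3 (δ ^ 6) p (hp.pow (by omega) (by omega))
  have d0 : 0 < δ ^ a := pow_pos h0 a
  have d1 : δ ^ a ≤ 1 / 1024 := (hle (by omega : 10 ≤ a)).trans ((hsm 10).trans (by norm_num))
  have d2 : δ ^ a ≤ (δ ^ 6) ^ C3 := by rw [← pow_mul]; exact hle (by omega)
  have d3 : δ ^ a ≤ δ ^ 4 / 2 := (hle (by omega : 5 ≤ a)).trans (by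
    linarith [mul_le_mul_of_nonneg_left hh (pow_pos h0 4).le])
  have d4 : (δ ^ 6)⁻¹ ^ C3 ≤ (δ ^ a)⁻¹ := by rw [inv_pow]; exact inv_anti₀ d0 d2
  obtain ⟨H, hH⟩ : ∃ H : ℕ, H = ⌈(δ ^ a) ^ 2 * p.Y / p.K⌉₊ := ⟨_, rfl⟩
  have H1 : (δ ^ a) ^ 2 * p.Y ≤ p.K * H := by
    rw [mul_comm (p.K : ℝ), ← div_le_iff₀ (by linarith), hH]
    exact Nat.le_ceil _
  have H2 : 200 * ((p.K : ℝ) * H) ≤ δ ^ a * p.Y := by
    have e1 : (H : ℝ) < (δ ^ a) ^ 2 * p.Y / p.K + 1 := hH ▸ Nat.ceil_lt_add_one (by positivity)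
    have e2 : (p.K : ℝ) * H ≤ (δ ^ a) ^ 2 * p.Y + p.K := by
      have := mul_le_mul_of_nonneg_left e1.le (by linarith : (0 : ℝ) ≤ p.K)
      rwa [mul_add, mul_div_cancel₀ _ (by linarith), mul_one] at this
    have e3 : (p.K : ℝ) ^ 100 * (δ ^ a)⁻¹ ≤ p.Y := by
      refine le_trans ?_ (hp.2.2.1.hV.trans (by exact_mod_cast s3.trans s4))
      rw [inv_pow]
      exact mul_le_mul_of_nonneg_left (inv_anti₀ (pow_pos h0 _) (hle (by omega))) (by positivity)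
    rw [← div_eq_mul_inv, div_le_iff₀ d0] at e3
    have e4 : 400 * (p.K : ℝ) ≤ p.K ^ 100 := by
      rw [pow_succ]
      exact mul_le_mul_of_nonneg_right (le_trans (by norm_num) (pow_le_pow_left₀ (by norm_num) hK 99))
        (by linarith)
    linarith [mul_le_mul_of_nonneg_right d1 (mul_pos d0 pY).le]
  refine ⟨H, ⟨le_trans (mul_le_mul_of_nonneg_right ?_ pY.le) H1, ?_⟩, ?_⟩
  · rw [← pow_mul]
    exact hle (by omega)
  · have : (10 : ℝ) * p.K * H ≤ p.Y := by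
      linarith [mul_le_mul_of_nonneg_right d1 pY.le, mul_nonneg (by linarith : (0 : ℝ) ≤ p.K)
        (Nat.cast_nonneg (α := ℝ) H)]
    exact_mod_cast this
  set G := p.Qd.filter fun z => δ ^ 4 / 2 * ((p.X : ℝ) * p.SY.card) ≤
    |p.L4 f z.1.1 z.1.2 z.2.1 z.2.2| with hG
  set B := p.Qd.filter fun z => |(c1 z.1.1 z.2.1 z.2.2 : ℝ)| < (δ ^ 6) ^ C3 * p.M * (p.V : ℝ) ^ 2 ∨
    |((z.1.2 - z.1.1 : ℤ) : ℝ)| < (δ ^ 6) ^ C3 * p.M ∨
    |(c3' z.1.1 z.1.2 z.2.1 z.2.2 : ℝ)| < (δ ^ 6) ^ C3 * p.M * (p.V : ℝ) ^ 2 ∨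
    (δ ^ 6)⁻¹ ^ C3 < (Int.gcd (c1 z.1.1 z.2.1 z.2.2 / p.K)
      (c3' z.1.1 z.1.2 z.2.1 z.2.2 / p.K) : ℝ) with hB
  have g1 : δ ^ 4 / 4 * p.Qd.card ≤ ((G \ B).card : ℝ) := by
    have e1 : (G.card : ℝ) ≤ (G \ B).card + B.card := by exact_mod_cast card_le_card_sdiff_add_card
    have e2 : δ ^ 6 ≤ δ ^ 4 / 4 := by
      linarith [mul_le_mul_of_nonneg_left (hsm 2) (pow_pos h0 4).le]
    linarith [mul_le_mul_of_nonneg_right e2 (Nat.cast_nonneg (α := ℝ) p.Qd.card)]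
  have g2 : ∀ z ∈ G \ B, z ∈ p.Qd ∧ δ ^ a * p.M * (p.V : ℝ) ^ 2 ≤ |(c1 z.1.1 z.2.1 z.2.2 : ℝ)| ∧
      δ ^ a * p.M ≤ |((z.1.2 - z.1.1 : ℤ) : ℝ)| ∧
      δ ^ a * p.M * (p.V : ℝ) ^ 2 ≤ |(c3' z.1.1 z.1.2 z.2.1 z.2.2 : ℝ)| ∧
      (Int.gcd (c1 z.1.1 z.2.1 z.2.2 / p.K) (c3' z.1.1 z.1.2 z.2.1 z.2.2 / p.K) : ℝ) ≤ (δ ^ a)⁻¹ ∧
      δ ^ a * ((p.X : ℝ) * p.SY.card) ≤ |p.L4 f z.1.1 z.1.2 z.2.1 z.2.2| := fun z hz => by
    obtain ⟨e1, e2⟩ := mem_sdiff.1 hz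
    obtain ⟨e3, e4⟩ := mem_filter.1 e1
    have e5 := fun h => e2 (mem_filter.2 ⟨e3, h⟩)
    simp only [imp_false, not_or, not_lt] at e5
    refine ⟨e3, le_trans (by gcongr) e5.1, le_trans (by gcongr) e5.2.1,
      le_trans (by gcongr) e5.2.2.1, e5.2.2.2.trans d4, le_trans (by gcongr) e4⟩
  have g3 := card_nsmul_le_sum (G \ B) (fun z =>
    (((range H ×ˢ range H ×ˢ range p.K).filter fun t =>
      CM (p.dg f (c2 z.1.1 z.1.2 z.2.1) t.1 t.2.1 t.2.2) (p.N p.K)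
        (p.DD z.1.1 z.1.2 z.2.1 z.2.2) ((δ ^ a) ^ C2)).card : ℝ))
    ((δ ^ a) ^ C2 * ((H : ℝ) ^ 2 * p.K)) fun z hz => by
      obtain ⟨e1, e2, -, e4, e5, e6⟩ := g2 z hz
      exact h2 (δ ^ a) p f H _ _ _ _ (hp.pow (by omega) (by omega)) hf e1 H1 H2 e2 e4 e5 e6
  rw [← Nat.cast_sum, ← card_sigma, nsmul_eq_mul] at g3
  refine le_trans ?_ (g3.trans (Nat.cast_le.2 (card_le_card_of_injOn
    (fun s => ((s.1.2.1, s.1.1.2 - s.1.1.1), (s.1.1.1, s.1.2.2), s.2)) ?_ ?_)))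
  · refine le_trans ?_ (mul_le_mul_of_nonneg_right g1 (by positivity))
    have e1 : (p.SE.card : ℝ) ≤ 5 * p.SM.card := cE.trans (by rw [mul_div_assoc]; linarith)
    have e2 : δ ^ (a * C2 + 2 * a + 10) * 5 ≤ δ ^ 4 / 4 * (δ ^ a) ^ C2 := by
      have e3 := hle (by omega : a * C2 + 4 + 5 ≤ a * C2 + 2 * a + 10)
      rw [pow_add δ (a * C2 + 4) 5, pow_add δ (a * C2) 4] at e3
      rw [← pow_mul]
      have e4 := mul_pos (pow_pos h0 (a * C2)) (pow_pos h0 4)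
      linarith [mul_le_mul_of_nonneg_left (hsm 5) e4.le]
    rw [cQ, card_product, card_product]
    push_cast
    calc _ ≤ δ ^ (a * C2 + 2 * a + 10) * (p.SU.card * (5 * p.SM.card) * (p.SM.card * p.SU.card) *
          ((H : ℝ) ^ 2 * p.K)) := by gcongr
      _ = δ ^ (a * C2 + 2 * a + 10) * 5 * (p.SM.card ^ 2 * p.SU.card ^ 2 * ((H : ℝ) ^ 2 * p.K)) := by
          ring
      _ ≤ δ ^ 4 / 4 * (δ ^ a) ^ C2 * (p.SM.card ^ 2 * p.SU.card ^ 2 * ((H : ℝ) ^ 2 * p.K)) := by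
          gcongr
      _ = _ := by ring
  · rintro ⟨⟨⟨μ0, μ1⟩, u0, u1⟩, t⟩ hs
    obtain ⟨e0, e7⟩ := mem_sigma.1 (mem_coe.1 hs)
    obtain ⟨e1, e2, e3, e4, -⟩ := g2 _ e0
    obtain ⟨e8, e9⟩ := mem_filter.1 e7
    simp only [DP.Qd, mem_product] at e1
    obtain ⟨⟨m0, m1⟩, v0, v1⟩ := e1
    obtain ⟨a0, a1, a2⟩ := mem_cl.1 m0
    obtain ⟨a3, a4, a5⟩ := mem_cl.1 m1
    have k1 : (p.K : ℤ) ∣ μ1 - μ0 := by simpa using dvd_sub a5 a2
    have k2 : (p.K : ℤ) ∣ u1 - u0 := by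
      simpa using dvd_sub (mem_cl.1 v1).2.2 (mem_cl.1 v0).2.2
    have k3 : (p.K : ℤ) ∣ c1 μ0 u0 u1 :=
      (by unfold c1; ring : μ0 * (u1 + u0) * (u1 - u0) = c1 μ0 u0 u1) ▸ k2.mul_left _
    have k4 : (p.K : ℤ) ∣ c3' μ0 μ1 u0 u1 :=
      (by unfold c1 c3'; ring : c1 μ0 u0 u1 + (μ1 - μ0) * u1 ^ 2 = c3' μ0 μ1 u0 u1) ▸
        dvd_add k3 (k1.mul_right _)
    have n : ∀ c : ℤ, δ ^ a * p.M * (p.V : ℝ) ^ 2 ≤ |(c : ℝ)| → c ≠ 0 := fun c h e => by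
      rw [e, Int.cast_zero, abs_zero] at h
      exact absurd h (not_le.2 (by positivity))
    refine mem_coe.2 (mem_filter.2 ⟨mem_product.2 ⟨mem_product.2 ⟨v0, mem_filter.2
      ⟨mem_Icc.2 ⟨by simp only; omega, by simp only; omega⟩, k1⟩⟩,
      mem_product.2 ⟨mem_product.2 ⟨m0, v1⟩, e8⟩⟩, ?_⟩)
    simp only [add_sub_cancel]
    refine ⟨le_trans (mul_le_mul_of_nonneg_right (hle (by omega)) pM.le) e3, m1,
      Int.natAbs_ne_zero.2 (mul_ne_zero (xLR1a_div k3 (n _ e2)) (xLR1a_div k4 (n _ e4))),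
      CM.mono e9 ?_⟩
    rw [← pow_mul]
    exact hle (by omega)
  · rintro ⟨⟨⟨μ0, μ1⟩, u0, u1⟩, t⟩ - ⟨⟨⟨ν0, ν1⟩, v0, v1⟩, t'⟩ - e
    simp only [Prod.mk.injEq] at e
    obtain ⟨⟨rfl, e1⟩, ⟨rfl, rfl⟩, rfl⟩ := e
    obtain rfl : μ1 = ν1 := by omega
    rfl

end Pool.Agent.MP_e23604_nt.U

end
end

section

/-!
Interchange of the dual function and the derivative.
-/

open Finset
open scoped Classical

noncomputable section

namespace Pool.Agent.MP_e23604_nt.U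

theorem xLDdi_dual {ι Ω : Type} (S : Finset ι) (O : Finset Ω) (A : ι → Ω → ℂ) (b : Ω → ℂ) {τ : ℝ}
    (hτ : 0 ≤ τ) (hS : S.Nonempty) (hO : (0 : ℝ) < O.card) (hA : ∀ h o, ‖A h o‖ ≤ 1)
    (hb : ∀ o, ‖b o‖ ≤ 1) (h : ∀ i ∈ S, τ * O.card ≤ ‖∑ o ∈ O, b o * A i o‖) :
    ∃ k, ∃ t ⊆ S, (∀ i ∈ t, τ ^ 2 / 2 * O.card ≤ ‖∑ o ∈ O, A i o * (starRingEnd ℂ) (A k o)‖) ∧
      τ ^ 2 / 2 * S.card ≤ t.card := by
  choose s hs1 hs2 using fun i => ex_unit (∑ o ∈ O, b o * A i o)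
  have e1 : ((∑ i ∈ S, ‖∑ o ∈ O, b o * A i o‖ : ℝ) : ℂ) = ∑ o ∈ O, b o * ∑ i ∈ S, s i * A i o := by
    simp only [Complex.ofReal_sum, ← hs2, mul_sum]
    rw [sum_comm]
    exact sum_congr rfl fun o _ => sum_congr rfl fun i _ => by ring
  have h1 : S.card * (τ * O.card) ≤ ∑ o ∈ O, ‖∑ i ∈ S, s i * A i o‖ := by
    have t := card_nsmul_le_sum S _ _ h
    rw [nsmul_eq_mul] at t
    refine t.trans ((le_abs_self _).trans ?_)
    rw [← Real.norm_eq_abs, ← Complex.norm_real, e1]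
    refine (norm_sum_le _ _).trans (sum_le_sum fun o _ => ?_)
    rw [norm_mul]
    exact mul_le_of_le_one_left (norm_nonneg _) (hb o)
  have e2 : ((∑ o ∈ O, ‖∑ i ∈ S, s i * A i o‖ ^ 2 : ℝ) : ℂ) = ∑ k ∈ S, ∑ i ∈ S,
      s i * (starRingEnd ℂ) (s k) * ∑ o ∈ O, A i o * (starRingEnd ℂ) (A k o) := by
    simp only [Complex.ofReal_sum, Complex.ofReal_pow, ← Complex.mul_conj', map_sum, map_mul,
      sum_mul, mul_sum]
    rw [sum_comm]
    refine sum_congr rfl fun k _ => ?_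
    rw [sum_comm]
    exact sum_congr rfl fun i _ => sum_congr rfl fun o _ => by ring
  have h2 : ∑ o ∈ O, ‖∑ i ∈ S, s i * A i o‖ ^ 2 ≤
      ∑ k ∈ S, ∑ i ∈ S, ‖∑ o ∈ O, A i o * (starRingEnd ℂ) (A k o)‖ := by
    refine (le_abs_self _).trans ?_
    rw [← Real.norm_eq_abs, ← Complex.norm_real, e2]
    refine (norm_sum_le _ _).trans (sum_le_sum fun k _ =>
      (norm_sum_le _ _).trans (sum_le_sum fun i _ => ?_))
    rw [norm_mul, norm_mul, Complex.norm_conj]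
    exact mul_le_of_le_one_left (norm_nonneg _) (mul_le_one₀ (hs1 i) (norm_nonneg _) (hs1 k))
  have h3 := (pow_le_pow_left₀ (by positivity) h1 2).trans (sq_sum_le_card_mul_sum_sq.trans
    (mul_le_mul_of_nonneg_left h2 hO.le))
  obtain ⟨k, -, h4⟩ := exists_le_of_sum_le (f := fun _ => τ ^ 2 * O.card * S.card)
    (g := fun k => ∑ i ∈ S, ‖∑ o ∈ O, A i o * (starRingEnd ℂ) (A k o)‖) hS (by
      rw [sum_const, nsmul_eq_mul]
      refine le_of_mul_le_mul_left (le_trans (le_of_eq ?_) h3) hO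
      ring)
  refine ⟨k, _, filter_subset _ _, fun i hi => (mem_filter.1 hi).2,
    pop S _ hO (by positivity) (fun i _ => ?_) h4⟩
  refine (norm_sum_le _ _).trans ((sum_le_card_nsmul _ _ 1 fun o _ => ?_).trans (by simp))
  rw [norm_mul, Complex.norm_conj]
  exact mul_le_one₀ (hA i o) (norm_nonneg _) (hA k o)

theorem xLDdi_sub {ι : Type} {s : Finset ι} {P : ι → Prop} {_ : DecidablePred P} {a b : ℝ}
    (h : a ≤ b * ((s.filter P).card : ℝ)) : ∃ t ⊆ s, (∀ i ∈ t, P i) ∧ a ≤ b * t.card :=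
  ⟨_, filter_subset _ _, fun _ hi => (mem_filter.1 hi).2, h⟩

theorem xLDdi_cls (g : ℤ → ℂ) (I : Finset ℤ) {D : ℕ} (hD : 1 ≤ D) (j : ℤ) :
    ‖∑ m ∈ I, g m * ee (j / D * m)‖ ≤
      ∑ ρ ∈ range D, ‖∑ m ∈ I.filter (fun m => m % (D : ℤ) = ρ), g m‖ := by
  have hD0 : (0 : ℤ) < D := by exact_mod_cast hD
  have hD1 : (D : ℝ) ≠ 0 := by positivity
  rw [← sum_fiberwise_of_maps_to (s := I) (t := range D) (g := fun m => (m % (D : ℤ)).toNat)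
    fun m _ => mem_range.2 (by have := Int.emod_lt_of_pos m hD0; omega)]
  refine (norm_sum_le _ _).trans (sum_le_sum fun ρ _ => le_of_eq ?_)
  rw [filter_congr (q := fun m => m % (D : ℤ) = ρ) fun m _ => by
    have := Int.emod_nonneg m hD0.ne'; omega,
    sum_congr rfl (g := fun m => g m * ee (j / D * ρ)) fun m hm => ?_, ← sum_mul, norm_mul,
    norm_ee, mul_one]
  have e : (m : ℝ) = D * (m / (D : ℤ) : ℤ) + ρ := by
    have t := Int.mul_ediv_add_emod m D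
    rw [(mem_filter.1 hm).2] at t
    exact_mod_cast t.symm
  have e2 : (j : ℝ) / D * m = j / D * ρ + (j * (m / (D : ℤ)) : ℤ) := by
    rw [Int.cast_mul]
    generalize ((m / (D : ℤ) : ℤ) : ℝ) = z at e
    rw [e]
    field_simp
    ring
  rw [e2, ee_add, ee_int, mul_one]

theorem xLDdi_one (g : ℤ → ℂ) (hg : ∀ m, ‖g m‖ ≤ 1) {N D : ℕ} (hD : 1 ≤ D) (j : ℤ)
    {φ θ δ : ℝ} (hN : (0 : ℝ) < N) (hβ : |φ - j / D - θ| ≤ δ / (28 * N))
    (h : δ * N ≤ ‖∑ m ∈ JJ N, g m * ee (φ * m)‖) :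
    δ / 2 * N ≤ ∑ ρ ∈ range D,
      ‖∑ m ∈ (JJ N).filter (fun m => m % (D : ℤ) = ρ), g m * ee (θ * m)‖ := by
  have h1 := xLDdi_cls (fun m => g m * ee (θ * m)) (JJ N) hD j
  have h2 : ‖∑ m ∈ JJ N, g m * ee (φ * m) - ∑ m ∈ JJ N, g m * ee (θ * m) * ee (j / D * m)‖ ≤
      δ / 2 * N := by
    rw [← sum_sub_distrib]
    refine (norm_sum_le _ _).trans ((sum_le_card_nsmul _ _ (δ / 4) fun m hm => ?_).trans
      (le_of_eq ?_))
    · rw [mul_assoc, ← ee_add, ← mul_sub, norm_mul]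
      refine (mul_le_of_le_one_left (norm_nonneg _) (hg m)).trans ((ee_lip _ _).trans ?_)
      have hm' : |(m : ℝ)| ≤ N := by
        have := mem_Ico.1 hm
        exact_mod_cast abs_le.2 ⟨this.1, this.2.le⟩
      rw [show φ * m - (θ * m + j / D * m) = (φ - j / D - θ) * m by ring, abs_mul]
      calc _ ≤ 7 * (δ / (28 * N) * N) := by gcongr; exact (abs_nonneg _).trans hβ
        _ = _ := by field_simp; ring
    · rw [nsmul_eq_mul, card_JJ]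
      ring
  linarith [norm_sub_norm_le (∑ m ∈ JJ N, g m * ee (φ * m))
    (∑ m ∈ JJ N, g m * ee (θ * m) * ee (j / D * m))]

/-- The weights of a product of two shifts. -/
def xLDdi_w (p : DP) (w : Wts) (d : ℤ) : Wts where
  G1 z y μ := w.G1 z y μ * if z + d ∈ p.SX then w.G1 (z + d) y μ else 0
  G2 z y u := w.G2 z y u * w.G2 (z + d) y u
  H μ u := w.H μ u * w.H μ u
  h1 z y μ := by
    rw [abs_mul]
    refine mul_le_one₀ (w.h1 _ _ _) (abs_nonneg _) ?_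
    split_ifs
    exacts [w.h1 _ _ _, by simp]
  h2 z y u := by
    rw [abs_mul]
    exact mul_le_one₀ (w.h2 _ _ _) (abs_nonneg _) (w.h2 _ _ _)
  h3 μ u := by
    rw [abs_mul]
    exact mul_le_one₀ (w.h3 _ _) (abs_nonneg _) (w.h3 _ _)

theorem xLDdi_gw (p : DP) (w : Wts) (d x y μ u : ℤ) :
    p.gw (xLDdi_w p w d) x y μ u = p.gw w x y μ u * p.gw w (x + d) y μ u := by
  simp only [DP.gw, xLDdi_w, add_right_comm x d]
  split_ifs <;> ring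

theorem LDDI_pf (h1 : LMAJ) : LDDI := by
  obtain ⟨C, hC⟩ := h1
  refine ⟨8 * C + 19, fun δ p w H c h' r hp _ hc hr hH hS => ?_⟩
  have ok := hp.one
  obtain ⟨hδ, hδ2, hok, hrep, -⟩ := id hp
  obtain ⟨s1, s2, s3, s4, s5, -⟩ := ok.sizes
  have hK1 : 1 ≤ p.K := by omega
  have hKX : p.K ≤ p.X := ((Nat.le_self_pow (by norm_num) _).trans s2).trans (by omega)
  have hV0 : 0 < p.V := (Nat.pow_pos hK1).trans_le s2
  have kK : (0 : ℝ) < p.K := by exact_mod_cast hK1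
  have kV : (0 : ℝ) < p.V := by exact_mod_cast hV0
  have kM : (0 : ℝ) < p.M := by exact_mod_cast hV0.trans_le s3
  have kY : (0 : ℝ) < p.Y := by exact_mod_cast hV0.trans_le (s3.trans s4)
  have kX : (0 : ℝ) < p.X := by exact_mod_cast hK1.trans hKX
  have kH : (0 : ℝ) < H := by exact_mod_cast hH
  obtain ⟨⟨c1, -⟩, ⟨c2, -⟩, ⟨c3, -⟩, -⟩ := ok.cards
  have hW : 0 < p.nW := mul_pos (mul_pos (lt_of_lt_of_le (by positivity) c1)
    (lt_of_lt_of_le (by positivity) c2)) (lt_of_lt_of_le (by positivity) c3)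
  obtain ⟨n1, n2⟩ := ok.N_bd hK1 hKX
  have hN : (0 : ℝ) < p.N p.K := lt_of_lt_of_le (by positivity) n1
  have hD := (DP.D_bd ok hrep w).1
  have hE : 2 ≤ δ⁻¹ := by rw [le_inv_comm₀ (by norm_num) hδ]; linarith
  have hQ : (δ ^ 4)⁻¹ ^ C = δ⁻¹ ^ (4 * C) := by rw [← inv_pow, ← pow_mul]
  have hQ1 : 1 ≤ δ⁻¹ ^ (4 * C) := one_le_pow₀ (by linarith)
  have hQ2 : δ⁻¹ ^ (4 * C) ≤ δ⁻¹ ^ (8 * C + 19) := pow_le_pow_right₀ (by linarith) (by omega)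
  set S := (range H).filter fun h : ℕ => FC (p.dg (p.D w) c h h' r) (p.N p.K) δ with hSd
  have hφ : ∀ h : ℕ, ∃ φ : ℝ, h ∈ S →
      δ * p.N p.K ≤ ‖∑ m ∈ JJ (p.N p.K), p.dg (p.D w) c h h' r m * ee (φ * m)‖ := fun h => by
    by_cases t : h ∈ S
    · exact (mem_filter.1 t).2.imp fun _ u _ => u
    · exact ⟨0, fun u => absurd u t⟩
  choose φ hφ using hφ
  have hO : ((JJ (p.N p.K) ×ˢ p.SY ×ˢ p.SM ×ˢ p.SU).card : ℝ) = 2 * p.N p.K * p.nW := by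
    simp only [card_product, Nat.cast_mul, card_JJ, DP.nW]
    ring
  obtain ⟨k, S1, sb1, g1, h2⟩ := xLDdi_dual S (JJ (p.N p.K) ×ˢ p.SY ×ˢ p.SM ×ˢ p.SU)
    (fun h o => (p.gw w (r + p.K * o.1 + c * h) o.2.1 o.2.2.1 o.2.2.2 : ℝ) * ee (φ h * o.1))
    (fun o => (p.D w (r + p.K * o.1 + c * h') : ℝ)) (τ := δ / 2) (by positivity)
    (card_pos.1 (Nat.cast_pos.1 ((mul_pos hδ kH).trans_le hS))) (by rw [hO]; positivity)
    (fun h o => by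
      rw [norm_mul, norm_ee, mul_one, Complex.norm_real]
      exact p.abs_gw _ _ _ _ _)
    (fun o => by rw [Complex.norm_real]; exact hD _) fun h hh => by
      have e : ∀ x, ((p.nW : ℝ) : ℂ) * (p.D w x : ℝ) =
          ∑ y ∈ p.SY, ∑ μ ∈ p.SM, ∑ u ∈ p.SU, ((p.gw w x y μ u : ℝ) : ℂ) := fun x => by
        rw [← Complex.ofReal_mul, DP.D, mul_div_cancel₀ _ hW.ne']
        simp only [Complex.ofReal_sum]
      have e2 : ∀ m : ℤ, ∑ y ∈ p.SY, ∑ μ ∈ p.SM, ∑ u ∈ p.SU,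
          ((p.D w (r + p.K * m + c * h') : ℝ) : ℂ) *
            ((p.gw w (r + p.K * m + c * h) y μ u : ℝ) * ee (φ h * m)) =
          (p.nW : ℝ) * (p.dg (p.D w) c h h' r m * ee (φ h * m)) := fun m => by
        simp only [← mul_sum, ← sum_mul, ← e, DP.dg, Complex.ofReal_mul]
        ring
      simp only [sum_product, e2]
      rw [hO, ← mul_sum, norm_mul, Complex.norm_real, Real.norm_of_nonneg hW.le]
      nlinarith [mul_le_mul_of_nonneg_left (hφ h hh) hW.le]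
  obtain ⟨q, hq, h3⟩ := pig S1 (Icc 1 ⌊δ⁻¹ ^ (4 * C)⌋₊)
    ⟨1, mem_Icc.2 ⟨le_rfl, Nat.le_floor (by simpa using hQ1)⟩⟩
    (fun h q => nd (2 * q * ((p.K : ℝ) * p.K) ^ 3 * (φ h - φ k)) ≤
      δ⁻¹ ^ (4 * C) * ((p.K : ℝ) * p.K) ^ 3 * p.K / p.X) fun h hh => by
    have hh2 := g1 h hh
    have hH' : h < H := mem_range.1 (mem_filter.1 (sb1 hh)).1
    obtain ⟨q, q1, q2, q3⟩ := hC (δ ^ 4) (φ h - φ k) p (xLDdi_w p w (c * k - c * h)) p.K
      (r + c * h) (hp.pow (by norm_num) (by omega)) hK1 (by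
        rw [hQ]
        refine le_trans (mul_le_mul ?_ hQ2 (by positivity) (by positivity)) hok.hV
        rw [← sq]
        exact pow_le_pow_right₀ (by exact_mod_cast hK1) (by norm_num)) (by
        have t : |c * h| ≤ |c| * H := by
          rw [abs_mul, Nat.abs_cast]
          exact mul_le_mul_of_nonneg_left (by exact_mod_cast hH'.le) (abs_nonneg _)
        have t2 := abs_add_le (r : ℤ) (c * h)
        rw [Nat.abs_cast] at t2
        omega) (by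
        rw [hO] at hh2
        refine le_trans (le_trans ?_ hh2) (le_of_eq (congrArg _ ?_))
        · have : δ ^ 2 ≤ (1 / 2) ^ 2 := by gcongr
          nlinarith [mul_le_mul_of_nonneg_right this
            (by positivity : 0 ≤ δ ^ 2 * (p.N p.K * p.nW))]
        · simp only [sum_product]
          refine sum_congr rfl fun m _ => sum_congr rfl fun y _ => sum_congr rfl fun μ _ =>
            sum_congr rfl fun u _ => ?_
          rw [xLDdi_gw, map_mul, conj_ee, Complex.conj_ofReal, Complex.ofReal_mul, sub_mul,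
            sub_eq_add_neg (φ h * m), ee_add, add_right_comm (r : ℤ) (c * h),
            show (r : ℤ) + p.K * m + c * h + (c * k - c * h) = r + p.K * m + c * k by ring]
          ring)
    rw [hQ] at q2 q3
    exact ⟨q, mem_Icc.2 ⟨q1, Nat.le_floor q2⟩, q3⟩
  rw [mem_Icc] at hq
  have q2 : (q : ℝ) ≤ δ⁻¹ ^ (4 * C) :=
    (Nat.cast_le.2 hq.2).trans (Nat.floor_le (by positivity))
  have q1 : (1 : ℝ) ≤ q := by exact_mod_cast hq.1
  have d1 : 1 ≤ 2 * q * p.K ^ 6 := Nat.mul_pos (by omega) (Nat.pow_pos hK1)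
  have d2 : ((2 * q * p.K ^ 6 : ℕ) : ℝ) = 2 * q * ((p.K : ℝ) * p.K) ^ 3 := by push_cast; ring
  obtain ⟨S2, sb2, g2, h3⟩ := xLDdi_sub h3
  obtain ⟨β, -, h4⟩ := pig_bin S2 (fun h => φ h - φ k -
      (round (2 * q * ((p.K : ℝ) * p.K) ^ 3 * (φ h - φ k)) : ℤ) / ((2 * q * p.K ^ 6 : ℕ) : ℝ))
    (B := 15 * δ⁻¹ ^ (4 * C) / p.N p.K) (w := δ / (28 * p.N p.K)) (by positivity) (by positivity)
    fun h hh => by
      have t := g2 h hh
      rw [nd] at t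
      rw [d2, sub_div' (by positivity), abs_div, mul_comm (φ h - φ k),
        abs_of_pos (a := 2 * q * ((p.K : ℝ) * p.K) ^ 3) (by positivity),
        div_le_iff₀ (by positivity)]
      refine t.trans ?_
      rw [le_div_iff₀ kK] at n2
      calc _ = δ⁻¹ ^ (4 * C) * ((p.K : ℝ) * p.K) ^ 3 / (p.X * p.N p.K) * (p.N p.K * p.K) := by
            field_simp
        _ ≤ δ⁻¹ ^ (4 * C) * ((p.K : ℝ) * p.K) ^ 3 / (p.X * p.N p.K) * (30 * p.X) := by gcongr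
        _ = 15 * δ⁻¹ ^ (4 * C) / p.N p.K * (2 * 1 * ((p.K : ℝ) * p.K) ^ 3) := by
            field_simp; ring
        _ ≤ _ := by gcongr
  obtain ⟨S3, sb3, g3, h4⟩ := xLDdi_sub h4
  refine ⟨q, hq.1, q2.trans hQ2,
    fun m => (p.D w (r + p.K * m + c * h') : ℝ) * ee ((φ k + β) * m), fun m => ?_, ?_⟩
  · rw [norm_mul, norm_ee, mul_one, Complex.norm_real]
    exact hD _
  have sub : S3 ⊆ S := (sb3.trans sb2).trans sb1
  refine le_trans ?_ (sum_le_sum_of_subset_of_nonneg (sub.trans (filter_subset _ _))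
    fun _ _ _ => by positivity)
  refine le_trans ?_ (card_nsmul_le_sum S3 _ (δ / 2 * p.N p.K) fun h hh => ?_)
  · rw [nsmul_eq_mul, ← mul_assoc]
    refine mul_le_mul_of_nonneg_right ?_ hN.le
    have u1 : ((Icc 1 ⌊δ⁻¹ ^ (4 * C)⌋₊).card : ℝ) ≤ δ⁻¹ ^ (4 * C) := by
      rw [Nat.card_Icc, Nat.add_sub_cancel]
      exact Nat.floor_le (by positivity)
    have u2 : 2 * (15 * δ⁻¹ ^ (4 * C) / p.N p.K) / (δ / (28 * p.N p.K)) + 1 ≤
        1024 * δ⁻¹ ^ (4 * C) * δ⁻¹ := by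
      have : 2 * (15 * δ⁻¹ ^ (4 * C) / p.N p.K) / (δ / (28 * p.N p.K)) =
          840 * δ⁻¹ ^ (4 * C) * δ⁻¹ := by field_simp; ring
      nlinarith [mul_le_mul hQ1 hE (by norm_num) (by positivity)]
    have u3 : (δ / 2) ^ 2 / 2 * (δ * H) ≤
        δ⁻¹ ^ (4 * C) * (1024 * δ⁻¹ ^ (4 * C) * δ⁻¹ * S3.card) :=
      calc _ ≤ (δ / 2) ^ 2 / 2 * S.card := by gcongr
        _ ≤ _ := h2.trans (h3.trans (mul_le_mul u1 (h4.trans (by gcongr)) (by positivity)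
          (by positivity)))
    have u4 : δ ^ 14 ≤ (1 / 2) ^ 14 := by gcongr
    have u5 : δ ^ (4 * C) * δ⁻¹ ^ (4 * C) = 1 := by rw [← mul_pow, mul_inv_cancel₀ hδ.ne', one_pow]
    calc _ = δ ^ 14 * (8 * (δ ^ (4 * C)) ^ 2 * δ ^ 2 * ((δ / 2) ^ 2 / 2 * (δ * H))) := by ring
      _ ≤ (1 / 2) ^ 14 * (8 * (δ ^ (4 * C)) ^ 2 * δ ^ 2 *
          (δ⁻¹ ^ (4 * C) * (1024 * δ⁻¹ ^ (4 * C) * δ⁻¹ * S3.card))) := by gcongr
      _ = (δ ^ (4 * C) * δ⁻¹ ^ (4 * C)) ^ 2 * (δ * δ⁻¹) * (S3.card * (δ / 2)) := by ring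
      _ = _ := by rw [u5, mul_inv_cancel₀ hδ.ne']; ring
  · have t := xLDdi_one (p.dg (p.D w) c h h' r) (fun m => by
      rw [DP.dg, Complex.norm_real, Real.norm_eq_abs, abs_mul]
      exact mul_le_one₀ (hD _) (abs_nonneg _) (hD _)) d1
      (round (2 * q * ((p.K : ℝ) * p.K) ^ 3 * (φ h - φ k))) (θ := φ k + β) hN
      (le_trans (le_of_eq (congrArg _ (by ring))) (g3 h hh)) (hφ h (sub hh))
    simpa only [DP.dg, Complex.ofReal_mul, mul_assoc] using t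

end Pool.Agent.MP_e23604_nt.U

end
end
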