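import Pool.Agent.Mg.Fe23604m.G0311cb
import Pool.Agent.Mg.Fe23604m.G51e198
import Pool.Agent.Mg.Fe23604m.G954648
import Pool.Agent.Mg.Fe23604m.Gd29cd8
import Pool.Agent.Mg.Fe23604m.Gc246b9
import Pool.Agent.Mg.Fe23604m.G84c5fa
import Pool.Agent.Mg.Fe23604m.G2c148f
import Pool.Agent.Mg.Fe23604m.Gec59df
import Pool.Agent.Mg.Fe23604m.Ge9fdd7
import Pool.Agent.Mg.Fe23604m.Gc4363b

set_option linter.all false

section

/-!
The weighted bound for a family of pairs of forms.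
-/

open Finset
open scoped Classical

noncomputable section

namespace Pool.Agent.MP_e23604_nt.U

open P (gg WW Datum Wt)

theorem xECo_sum {ι : Type} (Pi : Finset ι) (g : ℤ → ℝ) (m t K e : ι → ℕ) (ρ : ι → ℝ) {H Q E : ℕ}
    {U ε Ω Θ : ℝ} (hH : 1 ≤ H) (hε : 0 < ε) (hU : 0 ≤ U) (hΘ : 0 ≤ Θ)
    (hρ : ∀ π ∈ Pi, 0 ≤ ρ π)
    (hP : ∀ π ∈ Pi, 1 ≤ m π ∧ 1 ≤ t π ∧ 1 ≤ K π ∧ K π ≤ Q ∧ e π < E ∧
      (m π : ℝ) * H * (2 ^ e π : ℕ) ≤ U)
    (hΩ : ∑ π ∈ Pi, ρ π / (m π * t π) ≤ Ω)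
    (hsc : ∀ π ∈ Pi, ∀ j < 2 * H, ∑ d ∈ Icc 1 Q, P.sq g ((2 ^ e π : ℕ) * j) (2 ^ e π) d *
      ∑ π' ∈ Pi.filter fun π' => d ∣ K π', ρ π' / (m π' * t π') ≤ ((2 ^ e π : ℕ) : ℝ) ^ 2 * Θ) :
    ∑ π ∈ Pi, ρ π / (t π : ℝ) * ∑ j ∈ range (2 * H), P.NN g ((2 ^ e π : ℕ) * j) (2 ^ e π) (K π) ≤
      ε * U * Ω + E * U * Θ / ε := by
  have hH' : (0 : ℝ) < H := by exact_mod_cast hH
  let S : ℕ → ℕ → ℕ → ℝ := fun x j k => ∑ d ∈ Icc 1 Q,
    if d ∣ k then P.sq g ((2 ^ x : ℕ) * j) (2 ^ x) d else 0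
  have hS : ∀ x j k, 0 ≤ S x j k := fun x j k => Finset.sum_nonneg fun d _ => by
    split_ifs
    · exact P.sq_nonneg' _ _ _ _
    · exact le_rfl
  have a1 : ∀ π ∈ Pi, ρ π / (t π : ℝ) * ∑ j ∈ range (2 * H),
      P.NN g ((2 ^ e π : ℕ) * j) (2 ^ e π) (K π) ≤ ε * U * (ρ π / (m π * t π)) +
        U / (2 * ε * H * ((2 ^ e π : ℕ) : ℝ) ^ 2) *
          ∑ j ∈ range (2 * H), ρ π / (m π * t π) * S (e π) j (K π) := by
    intro π hπ
    obtain ⟨h1, h2, h3, h4, -, h6⟩ := hP π hπ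
    have hr := hρ π hπ
    have hm : (0 : ℝ) < m π := by exact_mod_cast h1
    have ht : (0 : ℝ) < t π := by exact_mod_cast h2
    obtain ⟨w, hw⟩ : ∃ w : ℕ, w = 2 ^ e π := ⟨_, rfl⟩
    have hw1 : 1 ≤ w := by rw [hw]; exact Nat.one_le_two_pow
    have hw' : (0 : ℝ) < w := by exact_mod_cast hw1
    have b1 : ∑ j ∈ range (2 * H), P.NN g ((2 ^ e π : ℕ) * j) (2 ^ e π) (K π) ≤
        ∑ j ∈ range (2 * H), (ε * w / 2 + S (e π) j (K π) / (2 * ε * w)) := by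
      refine Finset.sum_le_sum fun j _ => ?_
      rw [hw]
      exact P.xCore_one g _ Nat.one_le_two_pow h3 h4 hε
    rw [Finset.sum_add_distrib, Finset.sum_const, card_range, nsmul_eq_mul, ← Finset.sum_div] at b1
    rw [← Finset.mul_sum, ← hw]
    rw [← hw] at h6
    obtain ⟨s, hs⟩ : ∃ s, s = ∑ j ∈ range (2 * H), S (e π) j (K π) := ⟨_, rfl⟩
    have hs0 : 0 ≤ s := by rw [hs]; exact Finset.sum_nonneg fun j _ => hS _ _ _
    rw [← hs] at b1 ⊢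
    have b2 : ρ π / (t π : ℝ) ≤ U / (H * w) * (ρ π / (m π * t π)) := by
      rw [div_mul_div_comm, div_le_div_iff₀ ht (by positivity)]
      have : (m π : ℝ) * H * w * (t π * ρ π) ≤ U * (t π * ρ π) := by gcongr
      linarith
    calc _ ≤ ρ π / (t π : ℝ) * (((2 * H : ℕ) : ℝ) * (ε * w / 2) + s / (2 * ε * w)) := by
          rw [hw]; rw [hw] at b1; gcongr
      _ ≤ U / (H * w) * (ρ π / (m π * t π)) *
          (((2 * H : ℕ) : ℝ) * (ε * w / 2) + s / (2 * ε * w)) := by gcongr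
      _ = _ := by push_cast; field_simp
  refine (Finset.sum_le_sum a1).trans ?_
  rw [Finset.sum_add_distrib, ← Finset.mul_sum]
  refine add_le_add (by gcongr) ?_
  rw [← Finset.sum_fiberwise_of_maps_to (g := e) (t := Pi.image e)
    fun π hπ => Finset.mem_image_of_mem e hπ]
  have a2 : ∀ x ∈ Pi.image e, ∑ π ∈ Pi.filter fun π => e π = x,
      U / (2 * ε * H * ((2 ^ e π : ℕ) : ℝ) ^ 2) *
        ∑ j ∈ range (2 * H), ρ π / (m π * t π) * S (e π) j (K π) ≤ U * Θ / ε := by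
    intro x hx
    obtain ⟨π0, hπ0, rfl⟩ := Finset.mem_image.1 hx
    have hw' : (0 : ℝ) < ((2 ^ e π0 : ℕ) : ℝ) := by positivity
    have b1 : ∑ π ∈ Pi.filter fun π => e π = e π0,
        U / (2 * ε * H * ((2 ^ e π : ℕ) : ℝ) ^ 2) *
          ∑ j ∈ range (2 * H), ρ π / (m π * t π) * S (e π) j (K π) =
        U / (2 * ε * H * ((2 ^ e π0 : ℕ) : ℝ) ^ 2) * ∑ j ∈ range (2 * H),
          ∑ π ∈ Pi.filter fun π => e π = e π0, ρ π / (m π * t π) * S (e π0) j (K π) := by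
      rw [Finset.sum_comm, Finset.mul_sum]
      refine Finset.sum_congr rfl fun π hπ => ?_
      rw [(mem_filter.1 hπ).2]
    have b2 : ∀ j ∈ range (2 * H), ∑ π ∈ Pi.filter fun π => e π = e π0,
        ρ π / ((m π : ℝ) * t π) * S (e π0) j (K π) ≤ ((2 ^ e π0 : ℕ) : ℝ) ^ 2 * Θ := by
      intro j hj
      refine le_trans ?_ (hsc π0 hπ0 j (mem_range.1 hj))
      refine (Finset.sum_le_sum_of_subset_of_nonneg (filter_subset _ _) fun π hπ _ =>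
        mul_nonneg (div_nonneg (hρ π hπ) (by positivity)) (hS _ _ _)).trans (le_of_eq ?_)
      simp only [S, Finset.mul_sum, Finset.sum_filter]
      rw [Finset.sum_comm]
      refine Finset.sum_congr rfl fun d _ => Finset.sum_congr rfl fun π _ => ?_
      split_ifs <;> ring
    have b3 := Finset.sum_le_sum b2
    rw [Finset.sum_const, card_range, nsmul_eq_mul] at b3
    rw [b1]
    calc _ ≤ U / (2 * ε * H * ((2 ^ e π0 : ℕ) : ℝ) ^ 2) *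
          (((2 * H : ℕ) : ℝ) * (((2 ^ e π0 : ℕ) : ℝ) ^ 2 * Θ)) := by gcongr
      _ = _ := by push_cast; field_simp
  have a3 := Finset.sum_le_sum a2
  rw [Finset.sum_const, nsmul_eq_mul] at a3
  have a4 : ((Pi.image e).card : ℝ) ≤ E := by
    have : Pi.image e ⊆ range E := fun x hx => by
      obtain ⟨π, hπ, rfl⟩ := Finset.mem_image.1 hx
      exact mem_range.2 (hP π hπ).2.2.2.2.1
    have := Finset.card_le_card this
    rw [card_range] at this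
    exact_mod_cast this
  calc _ ≤ _ := a3
    _ ≤ E * (U * Θ / ε) := by gcongr
    _ = _ := by ring

theorem ECore_pf  : ECore := by
  intro A h C d0 κ0 hκ
  obtain ⟨b, hb1, hb⟩ : ∃ b : ℕ, 1 ≤ b ∧ ((2 * A + 4 * C + 7 : ℕ) : ℝ) ≤ b * κ0 := by
    refine ⟨⌈((2 * A + 4 * C + 7 : ℕ) : ℝ) / κ0⌉₊ + 1, by omega, ?_⟩
    rw [← div_le_iff₀ hκ]
    push_cast
    exact (Nat.le_ceil _).trans (by linarith)
  refine ⟨b, fun B hB => ?_⟩
  obtain ⟨X1, h1⟩ := P.sw_gg (2 * A + 4 * C + 3 * b + 2 * h + 5) B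
  obtain ⟨X2, h2⟩ := P.wt_all B
  obtain ⟨X3, h3⟩ := P.log_pow_le h 10 2
  obtain ⟨X4, h4⟩ := P.log_pow_le 0 1 (21126 + d0)
  refine ⟨X1 + X2 + X3 + X4 + 3, 
    fun X hX ι Pi dat ρ V U T0 H g' hU hU' hT0 hV hρ hc hw1 hw2 hH1 hH hg' => ?_⟩
  have hg := (h2 X (by omega)).2.2
  have hd0 : (0 : ℝ) ≤ d0 := by positivity
  have hLd := (h4 X (by omega)).1
  have hW := (P.WW_bounds B (X := X) (by omega)).1
  have hsw := h1 X (by omega)
  have hH10 : (2 * H) ^ 10 ≤ X := by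
    have : ((2 : ℝ) * H) ^ 10 ≤ X := le_trans (by gcongr) (h3 X (by omega)).2
    exact_mod_cast this
  have hX3 : (3 : ℝ) ≤ X := by exact_mod_cast (show 3 ≤ X by omega)
  have hE := P.xCore_log (X := X) (by linarith)
  obtain ⟨L, hL⟩ : ∃ L, L = Real.log X := ⟨_, rfl⟩
  obtain ⟨W, hWd⟩ : ∃ W, W = WW B X := ⟨_, rfl⟩
  rw [← hWd] at hg hg' hW hsw ⊢
  have hL1 : 1 ≤ L := by linarith
  have hL0 : 0 < L := by linarith
  have hU0 : 0 ≤ U := le_trans (by positivity) hU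
  have hex : ∀ π, ∃ e : ℕ, π ∈ Pi → e < Nat.log 2 (X ^ 2) + 1 ∧
      ((dat π).m : ℝ) * H * (2 ^ e : ℕ) ≤ U ∧ U < (dat π).m * (2 ^ e : ℕ) * (2 * H : ℕ) ∧
      X ^ 8 ≤ (2 ^ e) ^ 10 ∧ 2 * 2 ^ e * H ≤ X ^ 3 := by
    intro π
    by_cases hπ : π ∈ Pi
    · obtain ⟨e, he⟩ := P.xCore_exp (by omega) hU hU' (hc π hπ).1.m_pos (hc π hπ).2.1 hH1 hH10
      exact ⟨e, fun _ => he⟩
    · exact ⟨0, fun h => absurd h hπ⟩
  choose e he using hex
  rw [← hL] at hw1 hw2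
  obtain ⟨Ω, hΩ⟩ : ∃ Ω, Ω = V * L ^ C := ⟨_, rfl⟩
  rw [← hΩ] at hw1 hw2
  have hΩ0 : 0 ≤ Ω := by rw [hΩ]; positivity
  have hΩ1 : Ω ≤ V * L ^ (2 * C) := by
    rw [hΩ]
    exact mul_le_mul_of_nonneg_left (pow_le_pow_right₀ hL1 (by omega)) hV
  obtain ⟨Q, hQ1, hQ2⟩ : ∃ Q : ℕ, (∀ π ∈ Pi, (dat π).K ≤ Q) ∧ Q ^ 5 ≤ X := by
    refine ⟨Pi.sup fun π => (dat π).K, fun π hπ => Finset.le_sup (f := fun π => (dat π).K) hπ, ?_⟩
    rcases Pi.eq_empty_or_nonempty with rfl | hne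
    · simp
    · obtain ⟨π, hπ, e⟩ := Finset.exists_mem_eq_sup Pi hne fun π => (dat π).K
      rw [e]
      exact (hc π hπ).2.2.1
  have hgb : ∀ {g : ℤ → ℝ}, Wt W X g → ∀ u : ℤ, 0 < u → (u : ℝ) ≤ U → |g u| ≤ 3 * L := by
    intro g hg u hu hu'
    rw [hL]
    refine hg.1 u hu.le ?_
    have : (u : ℝ) ≤ (X : ℝ) ^ 3 := (hu'.trans hU').trans
      (pow_le_pow_right₀ (by linarith) (by norm_num))
    exact_mod_cast this
  have hK1 : ∀ π ∈ Pi, 1 ≤ (dat π).K := fun π hπ =>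
    Nat.mul_pos (hc π hπ).1.K0_pos (Int.natAbs_pos.2 (hc π hπ).1.det)
  have hH0 : (0 : ℝ) < H := by exact_mod_cast hH1
  have p1 : ∀ π ∈ Pi, |(dat π).T (gg W) g'| ≤ 9 * L ^ 2 * (dat π).mass ((dat π).nr U H) +
      6 * L * T0 * (1 / ((dat π).t0 : ℝ) * ∑ j ∈ range (2 * H),
        P.NN (gg W) ((2 ^ e π : ℕ) * j) (2 ^ e π) (dat π).K) := by
    intro π hπ
    obtain ⟨-, e2, e3, -, -⟩ := he π hπ
    have hdet : (0 : ℝ) < |((dat π).det : ℝ)| := abs_pos.2 (by exact_mod_cast (hc π hπ).1.det)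
    have hη : ∀ x : ℝ, 0 ≤ x → ((dat π).m : ℝ) * (2 ^ e π : ℕ) * x ≤
        U * x / (H * |((dat π).det : ℝ)|) * |((dat π).det : ℝ)| := by
      intro x hx
      have : U * x / (H * |((dat π).det : ℝ)|) * |((dat π).det : ℝ)| = U / H * x := by field_simp
      rw [this]
      gcongr
      rw [le_div_iff₀ hH0]
      linarith
    have := P.pair (dat π) (hc π hπ).1 hT0 (Γ := 3 * L) (by linarith) (gg W) g' (hgb hg) (hgb hg')
      (w := 2 ^ e π) (J := 2 * H) Nat.one_le_two_pow e3 (hη _ (abs_nonneg _)) (hη _ (abs_nonneg _))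
    refine this.trans (add_le_add (le_of_eq (by rw [Datum.nr]; ring)) ?_)
    have ht : (0 : ℝ) < (dat π).t0 := by exact_mod_cast (hc π hπ).1.t0_pos
    have a1 : T0 / (dat π).t0 + 1 ≤ 2 * T0 * (1 / (dat π).t0) := by
      have : 1 ≤ T0 / (dat π).t0 := by
        rw [le_div_iff₀ ht, one_mul]
        exact (hc π hπ).2.2.2
      calc _ ≤ T0 / (dat π).t0 + T0 / (dat π).t0 := by linarith
        _ = _ := by ring
    have a2 : 0 ≤ ∑ j ∈ range (2 * H), P.NN (gg W) ((2 ^ e π : ℕ) * j) (2 ^ e π) (dat π).K :=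
      Finset.sum_nonneg fun j _ => Finset.sum_nonneg fun c _ => abs_nonneg _
    calc _ ≤ 3 * L * (2 * T0 * (1 / (dat π).t0)) * ∑ j ∈ range (2 * H),
          P.NN (gg W) ((2 ^ e π : ℕ) * j) (2 ^ e π) (dat π).K := by gcongr
      _ = _ := by ring
  have hLb : L ≤ L ^ b := le_self_pow₀ hL1 (by omega)
  have p2 := xECo_sum Pi (gg W) (fun π => (dat π).m) (fun π => (dat π).t0) (fun π => (dat π).K) e ρ
    (H := H) (Q := Q) (E := Nat.log 2 (X ^ 2) + 1) (U := U) (ε := 1 / L ^ (A + 2 * C + 2)) (Ω := Ω)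
    (Θ := (⌊L ^ b⌋₊ : ℝ) ^ 3 * (4 * H / L ^ (2 * A + 4 * C + 3 * b + 2 * h + 5)) ^ 2 * Ω +
      96 * (3 * L) ^ 2 * (Ω / L ^ (2 * A + 4 * C + 7))) hH1 (by positivity) hU0 (by positivity) hρ
    (fun π hπ => ⟨(hc π hπ).1.m_pos, (hc π hπ).1.t0_pos, hK1 π hπ, hQ1 π hπ, (he π hπ).1,
      (he π hπ).2.1⟩) hw1 (fun π hπ j hj => by
      obtain ⟨-, -, -, e4, e5⟩ := he π hπ
      obtain ⟨w, hw⟩ : ∃ w : ℕ, w = 2 ^ e π := ⟨_, rfl⟩
      have hw1' : 1 ≤ w := by rw [hw]; exact Nat.one_le_two_pow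
      rw [← hw] at e4 e5 ⊢
      have b1 : Q ^ 2 ≤ w := by
        refine (Nat.pow_le_pow_iff_left (n := 10) (by norm_num)).1 (le_trans ?_ e4)
        calc (Q ^ 2) ^ 10 = (Q ^ 5) ^ 4 := by ring
          _ ≤ X ^ 4 := by gcongr
          _ ≤ X ^ 8 := Nat.pow_le_pow_right (by omega) (by norm_num)
      have b2 : X ≤ w ^ 2 := by
        refine (Nat.pow_le_pow_iff_left (n := 5) (by norm_num)).1 ?_
        calc X ^ 5 ≤ X ^ 8 := Nat.pow_le_pow_right (by omega) (by norm_num)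
          _ ≤ w ^ 10 := e4
          _ = _ := by ring
      have b3 : w * j + w ≤ 2 * w * H := by nlinarith
      have b4 : √(X : ℝ) ≤ ((2 * w * H : ℕ) : ℝ) := by
        refine (Real.sqrt_le_left (by positivity)).2 ?_
        have : w ≤ 2 * w * H := by nlinarith
        exact_mod_cast b2.trans (Nat.pow_le_pow_left this 2)
      refine P.xCore_scale (gg W) _ hw1' b1 _ hΩ0 (fun d => le_trans ?_ hw1) (fun d hd => ?_)
        (by positivity) (fun u hu => ?_) (fun d hd hd' c => ?_)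
      · exact Finset.sum_le_sum_of_subset_of_nonneg (filter_subset _ _) fun π hπ _ =>
          div_nonneg (hρ π hπ) (by positivity)
      · have c1 : L ^ b < d := Nat.lt_of_floor_lt hd
        have c2 : d0 ≤ d := by
          have : (d0 : ℝ) ≤ d := by linarith
          exact_mod_cast this
        refine (hw2 d c2).trans ?_
        rw [div_eq_mul_inv]
        gcongr
        calc (d : ℝ) ^ (-κ0) ≤ (L ^ b) ^ (-κ0) :=
              Real.rpow_le_rpow_of_nonpos (by positivity) c1.le (by linarith)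
          _ = L ^ (-((b : ℝ) * κ0)) := by
              rw [← Real.rpow_natCast, ← Real.rpow_mul hL0.le]; ring_nf
          _ ≤ L ^ (-((2 * A + 4 * C + 7 : ℕ) : ℝ)) :=
              Real.rpow_le_rpow_of_exponent_le hL1 (by linarith)
          _ = _ := by rw [Real.rpow_neg hL0.le, Real.rpow_natCast]
      · rw [hL]
        have c1 := mem_Ico.1 hu
        have c2 : ((w * j + w : ℕ) : ℤ) ≤ ((X ^ 3 : ℕ) : ℤ) := by exact_mod_cast b3.trans e5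
        push_cast at c2
        exact hg.1 u (le_trans (by positivity) c1.1) (by linarith [c1.2])
      · have c1 : d ≤ W := by
          have : (d : ℝ) ≤ W := by
            calc (d : ℝ) ≤ ⌊L ^ b⌋₊ := by exact_mod_cast hd'
              _ ≤ L ^ b := Nat.floor_le (by positivity)
              _ ≤ L ^ B := pow_le_pow_right₀ hL1 hB
              _ ≤ W := by rw [hL]; exact hW
          exact_mod_cast this
        have c2 : ((w * j + w : ℕ) : ℝ) ≤ ((2 * w * H : ℕ) : ℝ) := by exact_mod_cast b3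
        have c3 := hsw d hd c1 c _ b4 (by exact_mod_cast e5)
        have c4 := c3 ((w : ℤ) * j + w) (by positivity) (by push_cast at c2 ⊢; exact c2)
        have c5 := c3 ((w : ℤ) * j) (by positivity) (by
          have : (0 : ℝ) ≤ w := by positivity
          push_cast at c2 ⊢
          linarith)
        rw [P.xCore_psi _ (by positivity)]
        refine (abs_sub _ _).trans ((add_le_add c4 c5).trans (le_of_eq ?_))
        rw [← hL]
        push_cast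
        ring)
  have p3 := P.xCore_num (A := A) (C := C) (h := h) (b := b) (L := L) (D := ⌊L ^ b⌋₊) (H := H)
    (by linarith) (hL ▸ hE) (by positivity) (Nat.floor_le (by positivity)) hH0.le (hL ▸ hH) hV hΩ0
    hΩ1
  have p1' : ∀ π ∈ Pi, ρ π * |(dat π).T (gg W) g'| ≤
      9 * L ^ 2 * (ρ π * (dat π).mass ((dat π).nr U H)) +
      6 * L * T0 * (ρ π / ((dat π).t0 : ℝ) * ∑ j ∈ range (2 * H),
        P.NN (gg W) ((2 ^ e π : ℕ) * j) (2 ^ e π) (dat π).K) := fun π hπ =>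
    (mul_le_mul_of_nonneg_left (p1 π hπ) (hρ π hπ)).trans (le_of_eq (by ring))
  have p4 := Finset.sum_le_sum p1'
  rw [Finset.sum_add_distrib, ← Finset.mul_sum, ← Finset.mul_sum] at p4
  rw [← hL]
  refine p4.trans ?_
  rw [add_comm]
  refine add_le_add ?_ le_rfl
  calc _ ≤ 6 * L * T0 * _ := mul_le_mul_of_nonneg_left p2 (by positivity)
    _ = U * T0 * _ := ?_
    _ ≤ U * T0 * (V / L ^ A) := mul_le_mul_of_nonneg_left p3 (by positivity)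
    _ = _ := by ring
  ring

end Pool.Agent.MP_e23604_nt.U

end
end

section

/-!
The inhomogeneous Vinogradov lemma.
-/

open Finset
open scoped Classical

noncomputable section

namespace Pool.Agent.MP_e23604_nt.U

theorem xLVin_card (U : Finset ℤ) {l : ℝ} (hl : 0 ≤ l) (h : ∀ x ∈ U, ∀ y ∈ U, (x : ℝ) - y ≤ l) :
    (U.card : ℝ) ≤ l + 1 := by
  rcases U.eq_empty_or_nonempty with rfl | hU
  · rw [card_empty, Nat.cast_zero]
    linarith
  have h1 : U ⊆ Icc (U.min' hU) (U.max' hU) := fun x hx =>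
    mem_Icc.2 ⟨U.min'_le x hx, U.le_max' x hx⟩
  have h2 := Int.card_Icc_of_le (U.min' hU) (U.max' hU) (by linarith [U.min'_le_max' hU])
  have h3 : (U.card : ℤ) ≤ U.max' hU + 1 - U.min' hU := by
    rw [← h2]
    exact_mod_cast card_le_card h1
  have h4 : (U.card : ℝ) ≤ (U.max' hU : ℤ) + 1 - (U.min' hU : ℤ) := by exact_mod_cast h3
  linarith [h _ (U.max'_mem hU) _ (U.min'_mem hU)]

theorem xLVin_fib (s : Finset ℤ) (f : ℤ → ℤ) {B l : ℝ} (hB : 0 ≤ B) (hl : 0 ≤ l)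
    (h1 : ∀ x ∈ s, ∀ y ∈ s, (f x : ℝ) - f y ≤ l)
    (h2 : ∀ b, ((s.filter fun x => f x = b).card : ℝ) ≤ B) : (s.card : ℝ) ≤ (l + 1) * B := by
  have h3 : ((s.image f).card : ℝ) ≤ l + 1 := by
    refine xLVin_card _ hl fun x' hx' y' hy' => ?_
    obtain ⟨x, hx, rfl⟩ := mem_image.1 hx'
    obtain ⟨y, hy, rfl⟩ := mem_image.1 hy'
    exact h1 x hx y hy
  rw [card_eq_sum_card_image f s, Nat.cast_sum]
  refine (sum_le_card_nsmul _ _ B fun b _ => h2 b).trans ?_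
  rw [nsmul_eq_mul]
  exact mul_le_mul_of_nonneg_right h3 hB

theorem xLVin_gap {δ : ℝ} {a : ℤ} {N : ℕ} {S : Finset ℤ} (h0 : 0 < δ) (hN : 4 ≤ δ * N)
    (hS : S ⊆ Ico a (a + N)) (hc : δ * N ≤ S.card) :
    ∃ q : ℕ, 1 ≤ q ∧ δ * q ≤ 2 ∧ ∃ n ∈ S, n + q ∈ S := by
  obtain ⟨L, hL⟩ : ∃ L : ℕ, L = ⌈2 / δ⌉₊ := ⟨_, rfl⟩
  have l1 : 2 / δ ≤ L := hL ▸ Nat.le_ceil _
  have l2 : (L : ℝ) < 2 / δ + 1 := hL ▸ Nat.ceil_lt_add_one (by positivity)
  have l3 : (0 : ℝ) < L := lt_of_lt_of_le (by positivity) l1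
  have l4 : (0 : ℤ) < L := by exact_mod_cast l3
  rw [div_le_iff₀ h0] at l1
  have h1 : ((S.image fun n => (n - a) / L).card : ℝ) ≤ δ * N / 2 + 1 := by
    refine xLVin_card _ (by linarith) fun x' hx' y' hy' => ?_
    obtain ⟨x, hx, rfl⟩ := mem_image.1 hx'
    obtain ⟨y, hy, rfl⟩ := mem_image.1 hy'
    have a1 := mem_Ico.1 (hS hx)
    have a2 := mem_Ico.1 (hS hy)
    have a3 : 0 ≤ (y - a) / L := Int.ediv_nonneg (by omega) l4.le
    have a4 : (x - a) / L * L ≤ N := (Int.ediv_mul_le _ l4.ne').trans (by omega)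
    have a5 : 0 ≤ (x - a) / L := Int.ediv_nonneg (by omega) l4.le
    have b3 : (0 : ℝ) ≤ ((y - a) / L : ℤ) := by exact_mod_cast a3
    have b4 : (((x - a) / L : ℤ) : ℝ) * L ≤ N := by exact_mod_cast a4
    have b5 : (0 : ℝ) ≤ ((x - a) / L : ℤ) := by exact_mod_cast a5
    nlinarith [mul_le_mul_of_nonneg_left l1 b5, mul_le_mul_of_nonneg_left b4 h0.le]
  have h2 : (S.image fun n => (n - a) / L).card < S.card := by
    have : ((S.image fun n => (n - a) / L).card : ℝ) < S.card := by linarith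
    exact_mod_cast this
  have h3 : ∀ x ∈ S, ∀ y ∈ S, x < y → (x - a) / L = (y - a) / L →
      ∃ q : ℕ, 1 ≤ q ∧ δ * q ≤ 2 ∧ ∃ n ∈ S, n + q ∈ S := by
    intro x hx y hy hxy e
    obtain ⟨q, hq⟩ := Int.eq_ofNat_of_zero_le (sub_nonneg.2 hxy.le)
    have a1 := Int.mul_ediv_add_emod (x - a) L
    have a2 := Int.mul_ediv_add_emod (y - a) L
    have a3 := Int.emod_nonneg (x - a) l4.ne'
    have a4 := Int.emod_lt_of_pos (y - a) l4
    rw [e] at a1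
    have a5 : (q : ℝ) + 1 ≤ L := by
      have : q + 1 ≤ L := by omega
      exact_mod_cast this
    have a6 : (q : ℝ) ≤ 2 / δ := by linarith
    rw [le_div_iff₀ h0] at a6
    refine ⟨q, by omega, by linarith, x, hx, ?_⟩
    rwa [← hq, add_sub_cancel]
  obtain ⟨x, hx, y, hy, hne, e⟩ := exists_ne_map_eq_of_card_image_lt h2
  rcases lt_or_gt_of_ne hne with h | h
  exacts [h3 x hx y hy h e, h3 y hy x hx h e.symm]

theorem xLVin_cls {θ φ ε κ : ℝ} {N q : ℕ} {k ρ : ℤ} {S : Finset ℤ} {t : ℤ → ℤ} (hq : 1 ≤ q)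
    (hε : 0 ≤ ε) (hκ : q * θ = κ + k) (h0 : 0 < |κ|) (hN : ∀ x ∈ S, ∀ y ∈ S, x - y ≤ N)
    (ht : ∀ n ∈ S, n = ρ + q * t n) (hS : ∀ n ∈ S, nd (θ * n + φ) ≤ ε) :
    (S.card : ℝ) ≤ (|κ| * N / q + 2 * ε + 1) * (2 * ε / |κ| + 1) := by
  have q0 : (0 : ℝ) < q := by exact_mod_cast hq
  obtain ⟨m, hm⟩ : ∃ m : ℤ → ℤ, ∀ n, m n = round (θ * n + φ) - k * t n := ⟨_, fun _ => rfl⟩
  have h1 : ∀ x ∈ S, ∀ y ∈ S, (x : ℝ) - y = q * (t x - t y) := by
    intro x hx y hy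
    have : x - y = q * (t x - t y) := by linear_combination ht x hx - ht y hy
    exact_mod_cast this
  have h2 : ∀ x ∈ S, ∀ y ∈ S, |κ * (t x - t y) - (m x - m y)| ≤ 2 * ε := by
    intro x hx y hy
    have e : κ * (t x - t y) - (m x - m y) =
        (θ * x + φ - round (θ * x + φ)) - (θ * y + φ - round (θ * y + φ)) := by
      rw [hm, hm]
      push_cast
      linear_combination (-θ) * h1 x hx y hy - ((t x : ℝ) - t y) * hκ
    rw [e]
    refine (abs_sub _ _).trans ?_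
    have a1 := hS x hx
    have a2 := hS y hy
    unfold nd at a1 a2
    linarith
  refine xLVin_fib S m (by positivity) (by positivity) (fun x hx y hy => ?_) fun b => ?_
  · have a1 : |(t x : ℝ) - t y| ≤ N / q := by
      have b1 : (x : ℝ) - y ≤ N := by exact_mod_cast hN x hx y hy
      have b2 : (y : ℝ) - x ≤ N := by exact_mod_cast hN y hy x hx
      rw [le_div_iff₀ q0, ← abs_of_pos q0, ← abs_mul, mul_comm, ← h1 x hx y hy, abs_le]
      constructor <;> linarith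
    have a2 := mul_le_mul_of_nonneg_left a1 h0.le
    rw [← abs_mul, ← mul_div_assoc] at a2
    linarith [(abs_le.1 (h2 x hx y hy)).1, le_abs_self (κ * ((t x : ℝ) - t y))]
  · rw [← card_image_of_injOn (f := t) fun x hx y hy e => by
      rw [ht x (mem_filter.1 hx).1, ht y (mem_filter.1 hy).1, e]]
    refine xLVin_card _ (by positivity) fun x' hx' y' hy' => ?_
    obtain ⟨x, hx, rfl⟩ := mem_image.1 hx'
    obtain ⟨y, hy, rfl⟩ := mem_image.1 hy'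
    rw [mem_filter] at hx hy
    have a1 := h2 x hx.1 y hy.1
    rw [hx.2, hy.2, sub_self, sub_zero, abs_mul, mul_comm, ← le_div_iff₀ h0] at a1
    exact (le_abs_self _).trans a1

theorem LVIN_pf  : LVIN := by
  intro θ φ ε δ a N S h0 h1 hε hεδ hN hS hc hnd
  obtain ⟨q, hq, hqδ, n, hn, hn'⟩ := xLVin_gap h0 hN hS hc
  have q0 : (0 : ℝ) < q := by exact_mod_cast hq
  have q1 : (1 : ℝ) ≤ q := by exact_mod_cast hq
  have q2 : (0 : ℤ) < q := by exact_mod_cast hq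
  have N0 : (0 : ℝ) < N := (mul_pos_iff_of_pos_left h0).1 (by linarith)
  refine ⟨q, hq, by rw [le_div_iff₀ h0]; linarith, ?_⟩
  have h2 : nd (q * θ) ≤ 2 * ε := by
    refine (nd_le _ (round (θ * (n + q : ℤ) + φ) - round (θ * n + φ))).trans ?_
    have a1 := hnd _ hn
    have a2 := hnd _ hn'
    unfold nd at a1 a2
    have e : q * θ - ((round (θ * (n + q : ℤ) + φ) - round (θ * n + φ) : ℤ) : ℝ) =
        (θ * (n + q : ℤ) + φ - round (θ * (n + q : ℤ) + φ)) -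
          (θ * n + φ - round (θ * n + φ)) := by
      rw [Int.cast_sub, Int.cast_add, Int.cast_natCast]
      ring
    rw [e]
    refine (abs_sub _ _).trans ?_
    linarith
  unfold nd at h2 ⊢
  obtain ⟨κ, hκ⟩ : ∃ κ, κ = q * θ - round (q * θ) := ⟨_, rfl⟩
  rw [← hκ] at h2 ⊢
  rcases (abs_nonneg κ).eq_or_lt with e | k0
  · rw [← e]
    positivity
  have h3 : (S.card : ℝ) ≤ (q - 1 + 1) * ((|κ| * N / q + 2 * ε + 1) * (2 * ε / |κ| + 1)) := by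
    refine xLVin_fib S (fun n => n % q) (by positivity) (by linarith) (fun x _ y _ => ?_)
      fun b => xLVin_cls (θ := θ) (φ := φ) (k := round (q * θ)) (ρ := b) (t := fun n => n / q)
        hq hε (by linarith) k0 (fun x hx y hy => ?_) (fun x hx => ?_) fun x hx =>
        hnd x (mem_filter.1 hx).1
    · have a1 := Int.emod_nonneg y q2.ne'
      have a2 := Int.emod_lt_of_pos x q2
      have : x % q - y % q ≤ q - 1 := by omega
      exact_mod_cast this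
    · have a1 := mem_Ico.1 (hS (mem_filter.1 hx).1)
      have a2 := mem_Ico.1 (hS (mem_filter.1 hy).1)
      omega
    · rw [← (mem_filter.1 hx).2]
      exact (Int.emod_add_mul_ediv x q).symm
  have h4 : 2 * ε / |κ| + 1 ≤ 4 * ε / |κ| := by
    have : 1 ≤ 2 * ε / |κ| := (one_le_div k0).2 h2
    have e : 4 * ε / |κ| = 2 * (2 * ε / |κ|) := by ring
    linarith
  have h5 : (|κ| * N / q + 2 * ε + 1) * (2 * ε / |κ| + 1) ≤
      (|κ| * N / q + 2) * (4 * ε / |κ|) :=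
    mul_le_mul (by linarith) h4 (by positivity) (by positivity)
  have h6 : (q : ℝ) * ((|κ| * N / q + 2) * (4 * ε / |κ|)) = 4 * ε * N + 8 * q * ε / |κ| := by
    field_simp
    ring
  have h7 := mul_le_mul_of_nonneg_left h5 q0.le
  rw [sub_add_cancel] at h3
  have h8 : δ * N / 2 ≤ 8 * q * ε / |κ| := by
    nlinarith [mul_le_mul_of_nonneg_right hεδ N0.le]
  rw [le_div_iff₀ k0] at h8
  rw [le_div_iff₀ (by positivity)]
  nlinarith [mul_le_mul_of_nonneg_left h8 h0.le, mul_le_mul_of_nonneg_right hqδ hε]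

end Pool.Agent.MP_e23604_nt.U

end
end

section

/-!
Many derivatives with a large Fourier coefficient.
-/

open Finset
open scoped Classical

noncomputable section

namespace Pool.Agent.MP_e23604_nt.U

/-- Popular fibres outside a small exceptional set. -/
theorem xLR1b_count {β π τ : Type} (B : Finset β) (P : Finset π) (T : Finset τ)
    (Q : β → π → τ → Prop) (bad : β → ℝ) {δ η θ : ℝ} (hδ : 0 < δ) (hθ : 0 < θ)
    (hP : P.Nonempty) (hb : ∀ b, 0 ≤ bad b)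
    (hs : ∑ b ∈ B, bad b ≤ η * B.card * (P.card : ℝ) ^ 2) (hη : η ≤ δ / 4 * θ)
    (h : δ * (B.card * P.card * T.card) ≤
      (((B ×ˢ P ×ˢ T).filter fun z => Q z.1 z.2.1 z.2.2).card : ℝ)) :
    δ / 4 * (B.card * T.card) ≤ (((B ×ˢ T).filter fun z =>
      (∃ P' : Finset π, (∀ j ∈ P', j ∈ P ∧ Q z.1 j z.2) ∧ δ / 2 * P.card ≤ (P'.card : ℝ)) ∧
        bad z.1 ≤ θ * (P.card : ℝ) ^ 2).card : ℝ) := by
  have hc : ((B ×ˢ P ×ˢ T).filter fun z => Q z.1 z.2.1 z.2.2).card ≤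
      (((B ×ˢ T) ×ˢ P).filter fun z => Q z.1.1 z.2 z.1.2).card := by
    refine card_le_card_of_injOn (fun z => ((z.1, z.2.2), z.2.1)) ?_ ?_
    · intro z hz
      simp only [coe_filter, mem_product, Set.mem_ofPred_eq] at hz ⊢
      exact ⟨⟨⟨hz.1.1, hz.1.2.2⟩, hz.1.2.1⟩, hz.2⟩
    · intro z _ w _ hzw
      simp only [Prod.mk.injEq] at hzw
      exact Prod.ext hzw.1.1 (Prod.ext hzw.2 hzw.1.2)
  have h1 := pop2 (B ×ˢ T) P (fun i j => Q i.1 j i.2) hδ.le hP (by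
    rw [card_product]
    push_cast
    calc δ * ((B.card : ℝ) * T.card * P.card) = δ * (B.card * P.card * T.card) := by ring
      _ ≤ _ := h
      _ ≤ _ := by exact_mod_cast hc)
  set Bad := B.filter fun b => θ * (P.card : ℝ) ^ 2 < bad b with hBad
  have hPpos : (0 : ℝ) < P.card := by exact_mod_cast hP.card_pos
  have h2 : (Bad.card : ℝ) * (θ * (P.card : ℝ) ^ 2) ≤ η * B.card * (P.card : ℝ) ^ 2 := by
    calc (Bad.card : ℝ) * (θ * (P.card : ℝ) ^ 2) = ∑ _b ∈ Bad, θ * (P.card : ℝ) ^ 2 := by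
          rw [sum_const, nsmul_eq_mul]
      _ ≤ ∑ b ∈ Bad, bad b := sum_le_sum fun b hb' => (mem_filter.1 hb').2.le
      _ ≤ ∑ b ∈ B, bad b :=
          sum_le_sum_of_subset_of_nonneg (filter_subset _ _) fun b _ _ => hb b
      _ ≤ _ := hs
  have h3 : (Bad.card : ℝ) ≤ δ / 4 * B.card := by
    have hp : 0 < θ * (P.card : ℝ) ^ 2 := by positivity
    refine le_of_mul_le_mul_right (h2.trans ?_) hp
    have : η * ((B.card : ℝ) * (P.card : ℝ) ^ 2) ≤ δ / 4 * θ * (B.card * (P.card : ℝ) ^ 2) :=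
      mul_le_mul_of_nonneg_right hη (by positivity)
    calc η * B.card * (P.card : ℝ) ^ 2 = η * ((B.card : ℝ) * (P.card : ℝ) ^ 2) := by ring
      _ ≤ _ := this
      _ = _ := by ring
  have h4 : ((B ×ˢ T).filter fun i =>
      δ / 2 * P.card ≤ ((P.filter fun j => Q i.1 j i.2).card : ℝ)) ⊆
      ((B ×ˢ T).filter fun z =>
        (∃ P' : Finset π, (∀ j ∈ P', j ∈ P ∧ Q z.1 j z.2) ∧ δ / 2 * P.card ≤ (P'.card : ℝ)) ∧
          bad z.1 ≤ θ * (P.card : ℝ) ^ 2) ∪ Bad ×ˢ T := by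
    intro z hz
    rw [mem_filter] at hz
    by_cases hz' : bad z.1 ≤ θ * (P.card : ℝ) ^ 2
    · exact mem_union_left _ (mem_filter.2 ⟨hz.1, ⟨_, fun j hj => mem_filter.1 hj, hz.2⟩, hz'⟩)
    · refine mem_union_right _ (mem_product.2 ⟨mem_filter.2 ⟨(mem_product.1 hz.1).1, ?_⟩,
        (mem_product.1 hz.1).2⟩)
      exact not_le.1 hz'
  have h5 := (card_le_card h4).trans (card_union_le _ _)
  rw [card_product] at h5 h1
  have h6 : (Bad.card : ℝ) * T.card ≤ δ / 4 * B.card * T.card :=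
    mul_le_mul_of_nonneg_right h3 (by positivity)
  have h7 := (Nat.cast_le (α := ℝ)).2 h5
  push_cast at h7 h1
  linarith

theorem xLR1b_DD (p : DP) {μ0 μ1 u0 u1 : ℤ} (h0 : μ0 ∈ p.SM) (h1 : μ1 ∈ p.SM) (k0 : u0 ∈ p.SU)
    (k1 : u1 ∈ p.SU) : p.DD μ0 μ1 u0 u1 ≤ (12 * p.M * p.V ^ 2) ^ 2 := by
  obtain ⟨a0, b0, -⟩ := mem_cl.1 h0
  obtain ⟨a1, b1, -⟩ := mem_cl.1 h1
  obtain ⟨c0, d0, -⟩ := mem_cl.1 k0
  obtain ⟨e1, f1, -⟩ := mem_cl.1 k1
  have hM : (0 : ℤ) ≤ p.M := Int.natCast_nonneg _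
  have hV : (0 : ℤ) ≤ p.V := Int.natCast_nonneg _
  have key : ∀ μ u : ℤ, (p.M : ℤ) < μ → μ ≤ 3 * p.M → (p.V : ℤ) < u → u ≤ 2 * p.V →
      0 ≤ μ * u ^ 2 ∧ μ * u ^ 2 ≤ 12 * p.M * (p.V : ℤ) ^ 2 := by
    intro μ u q1 q2 q3 q4
    have hμ : 0 ≤ μ := by linarith
    have hu : u ^ 2 ≤ (2 * (p.V : ℤ)) ^ 2 := pow_le_pow_left₀ (by linarith) q4 2
    refine ⟨by positivity, ?_⟩
    calc μ * u ^ 2 ≤ (3 * p.M) * (2 * (p.V : ℤ)) ^ 2 :=
          mul_le_mul q2 hu (by positivity) (by positivity)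
      _ = _ := by ring
  have x1 := key μ0 u0 a0 b0 c0 d0
  have x2 := key μ0 u1 a0 b0 e1 f1
  have x3 := key μ1 u1 a1 b1 e1 f1
  have y1 : (c1 μ0 u0 u1).natAbs ≤ 12 * p.M * p.V ^ 2 := by
    have : |c1 μ0 u0 u1| ≤ 12 * p.M * (p.V : ℤ) ^ 2 := by
      rw [abs_le, c1, mul_sub]
      constructor <;> linarith [x1.1, x1.2, x2.1, x2.2]
    rw [← Int.natCast_natAbs] at this
    exact_mod_cast this
  have y2 : (c3' μ0 μ1 u0 u1).natAbs ≤ 12 * p.M * p.V ^ 2 := by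
    have : |c3' μ0 μ1 u0 u1| ≤ 12 * p.M * (p.V : ℤ) ^ 2 := by
      rw [abs_le, c3']
      constructor <;> linarith [x1.1, x1.2, x3.1, x3.2]
    rw [← Int.natCast_natAbs] at this
    exact_mod_cast this
  rw [DP.DD, Int.natAbs_mul, sq]
  exact Nat.mul_le_mul ((Int.natAbs_ediv_le_natAbs _ _).trans y1)
    ((Int.natAbs_ediv_le_natAbs _ _).trans y2)

theorem xLR1b_size {p : DP} {δ : ℝ} {C : ℕ} (h : p.Hyp δ C) (hC : 14 ≤ C) :
    10 ^ 7 * (((12 * p.M * p.V ^ 2) ^ 2 : ℕ) : ℝ) ^ 2 ≤ (δ / 2) ^ 4 * p.N p.K := by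
  have h1 := h.one
  obtain ⟨hδ, hδ2, hok, -, -⟩ := h
  obtain ⟨s1, s2, s3, s4, s5, s6⟩ := h1.sizes
  have hK1 : 1 ≤ p.K := by omega
  have hKV : p.K ≤ p.V := (Nat.le_self_pow (by norm_num) _).trans s2
  have hN := (h1.N_bd hK1 (by omega)).1
  have hKpos : (0 : ℝ) < p.K := by exact_mod_cast hK1
  have hR : (2 : ℝ) ≤ δ⁻¹ := by
    rw [le_inv_comm₀ (by norm_num) hδ]
    linarith
  have hMR : δ⁻¹ ^ 14 ≤ (p.M : ℝ) := by
    have a1 : δ⁻¹ ^ 14 ≤ δ⁻¹ ^ C := pow_le_pow_right₀ (by linarith) hC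
    have a2 : (1 : ℝ) ≤ (p.K : ℝ) ^ 100 := one_le_pow₀ (by exact_mod_cast hK1)
    have a3 : δ⁻¹ ^ C ≤ (p.K : ℝ) ^ 100 * δ⁻¹ ^ C := le_mul_of_one_le_left (by positivity) a2
    have a4 : (p.V : ℝ) ≤ p.M := by exact_mod_cast s3
    linarith [hok.hV]
  have hdM : (2 : ℝ) ^ 13 ≤ δ * p.M := by
    have a1 : (2 : ℝ) ^ 13 ≤ δ⁻¹ ^ 13 := pow_le_pow_left₀ (by norm_num) hR 13
    have a2 : δ * δ⁻¹ ^ 14 = δ⁻¹ ^ 13 := by field_simp
    have a3 := mul_le_mul_of_nonneg_left hMR hδ.le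
    linarith
  have hd4 : ((2 : ℝ) ^ 13) ^ 4 ≤ (δ * p.M) ^ 4 := pow_le_pow_left₀ (by norm_num) hdM 4
  have hNM : (p.M : ℝ) ^ 10 ≤ p.N p.K := by
    refine le_trans ?_ hN
    rw [le_div_iff₀ hKpos]
    have a1 : p.M ^ 10 * p.K ≤ p.X :=
      (Nat.mul_le_mul h1.hY (hKV.trans s3)).trans s6
    have a2 : (p.M : ℝ) ^ 10 * p.K ≤ p.X := by exact_mod_cast a1
    have a3 : (0 : ℝ) ≤ p.X := by positivity
    linarith
  have hV4 : (p.V : ℝ) ^ 4 ≤ p.M := by exact_mod_cast h1.hM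
  have hV8 : ((p.V : ℝ) ^ 4) ^ 2 ≤ (p.M : ℝ) ^ 2 := pow_le_pow_left₀ (by positivity) hV4 2
  have hM0 : (0 : ℝ) ≤ p.M := by positivity
  push_cast
  calc 10 ^ 7 * ((12 * (p.M : ℝ) * (p.V : ℝ) ^ 2) ^ 2) ^ 2
      = 10 ^ 7 * 12 ^ 4 * (p.M : ℝ) ^ 4 * ((p.V : ℝ) ^ 4) ^ 2 := by ring
    _ ≤ 10 ^ 7 * 12 ^ 4 * (p.M : ℝ) ^ 4 * (p.M : ℝ) ^ 2 :=
        mul_le_mul_of_nonneg_left hV8 (by positivity)
    _ = (10 ^ 7 * 12 ^ 4) * (p.M : ℝ) ^ 6 := by ring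
    _ ≤ ((δ * p.M) ^ 4 / 16) * (p.M : ℝ) ^ 6 := by
        refine mul_le_mul_of_nonneg_right ?_ (by positivity)
        norm_num at hd4 ⊢
        linarith
    _ = (δ / 2) ^ 4 * (p.M : ℝ) ^ 10 := by ring
    _ ≤ _ := mul_le_mul_of_nonneg_left hNM (by positivity)

theorem LR1b_pf (h1 : LORT) (h2 : LG1b) : LR1b := by
  obtain ⟨C1, h2⟩ := h2
  refine ⟨20 * C1 + 14, fun δ p f H hyp hf hA => ?_⟩
  have hone := hyp.one
  have hδ : 0 < δ := hyp.1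
  have hδ2 : δ ≤ 1 / 2 := hyp.2.1
  have hδ1 : δ ≤ 1 := by linarith
  have hG := h2 (δ ^ 20) p (hyp.pow (by norm_num) (by omega))
  have hP : (p.SM ×ˢ p.SU).Nonempty := ⟨(p.ms, p.us), mem_product.2 ⟨hyp.2.2.2.1.2.1,
    hyp.2.2.2.1.2.2⟩⟩
  have hPpos : (0 : ℝ) < (p.SM ×ˢ p.SU).card := by exact_mod_cast hP.card_pos
  have hT : (((range H ×ˢ range H ×ˢ range p.K).card : ℕ) : ℝ) = (H : ℝ) ^ 2 * p.K := by
    simp only [card_product, card_range]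
    push_cast
    ring
  have hη : δ ^ 20 ≤ δ / 4 * ((δ / 2) ^ 4 / 100) := by
    have a1 : δ ^ 15 ≤ (1 / 2) ^ 15 := pow_le_pow_left₀ hδ.le hδ2 15
    have a2 : δ ^ 5 * δ ^ 15 ≤ δ ^ 5 * (1 / 6400) :=
      mul_le_mul_of_nonneg_left (a1.trans (by norm_num)) (by positivity)
    calc δ ^ 20 = δ ^ 5 * δ ^ 15 := by ring
      _ ≤ _ := a2
      _ = _ := by ring
  have hc := xLR1b_count (p.SU ×ˢ p.SE) (p.SM ×ˢ p.SU) (range H ×ˢ range H ×ˢ range p.K)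
    (fun b j t => δ * p.M ≤ |(b.2 : ℝ)| ∧ j.1 + b.2 ∈ p.SM ∧
      p.DD j.1 (j.1 + b.2) b.1 j.2 ≠ 0 ∧
      CM (p.dg f (b.2 * b.1 ^ 2) t.1 t.2.1 t.2.2) (p.N p.K) (p.DD j.1 (j.1 + b.2) b.1 j.2) δ)
    (fun b => ((((p.SM ×ˢ p.SU) ×ˢ (p.SM ×ˢ p.SU)).filter fun z =>
      z.1.1 + b.2 ∈ p.SM ∧ p.DD z.1.1 (z.1.1 + b.2) b.1 z.1.2 ≠ 0 ∧
        p.DD z.2.1 (z.2.1 + b.2) b.1 z.2.2 ≠ 0 ∧
        (δ ^ 20)⁻¹ ^ C1 < (Nat.gcd (p.DD z.1.1 (z.1.1 + b.2) b.1 z.1.2)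
          (p.DD z.2.1 (z.2.1 + b.2) b.1 z.2.2) : ℝ)).card : ℝ))
    hδ (θ := (δ / 2) ^ 4 / 100) (by positivity) hP (fun b => by positivity) hG hη
    (by rw [hT]; unfold DP.A1 at hA; convert hA)
  have hpow : δ ^ (20 * C1 + 14) ≤ δ ^ 3 := pow_le_pow_of_le_one hδ.le hδ1 (by omega)
  have hd3 : δ ^ 3 ≤ δ / 4 := by nlinarith [mul_pos hδ hδ]
  rw [hT] at hc
  unfold DP.A2
  refine le_trans (mul_le_mul_of_nonneg_right (hpow.trans hd3) (by positivity)) (hc.trans ?_)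
  refine Nat.cast_le.2 (card_le_card ?_)
  intro z hz
  rw [mem_filter] at hz ⊢
  obtain ⟨hz, ⟨P', hP', hz1⟩, hz2⟩ := hz
  refine ⟨hz, ?_, ?_⟩
  · have hne : (0 : ℝ) < _ := lt_of_lt_of_le (by positivity) hz1
    obtain ⟨j, hj⟩ := card_pos.1 (Nat.cast_pos.1 hne)
    have := (hP' j hj).2.1
    refine le_trans (mul_le_mul_of_nonneg_right ?_ (by positivity)) this
    linarith
  · have hGe : (1 : ℝ) ≤ (δ ^ 20)⁻¹ ^ C1 :=
      one_le_pow₀ (one_le_inv₀ (by positivity) |>.2 (pow_le_one₀ hδ.le hδ1))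
    have hu0 : z.1.1 ∈ p.SU := (mem_product.1 (mem_product.1 hz).1).1
    have hFC := h1 (ℤ × ℤ) (p.SM ×ˢ p.SU) P' (fun j => p.DD j.1 (j.1 + z.1.2) z.1.1 j.2)
      (p.dg f (z.1.2 * z.1.1 ^ 2) z.2.1 z.2.2.1 z.2.2.2) (p.N p.K) ((12 * p.M * p.V ^ 2) ^ 2)
      (δ / 2) ((δ ^ 20)⁻¹ ^ C1) (fun m => by
        rw [DP.dg, Complex.norm_real, Real.norm_eq_abs, abs_mul]
        exact mul_le_one₀ (hf.1 _) (abs_nonneg _) (hf.1 _))
      (fun j hj => (hP' j hj).1) hP (by positivity) (by linarith) hGe hz1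
      (fun j hj => by
        obtain ⟨j1, -, j2, j3, j4⟩ := hP' j hj
        exact ⟨Nat.one_le_iff_ne_zero.2 j3,
          xLR1b_DD p (mem_product.1 j1).1 j2 hu0 (mem_product.1 j1).2,
          j4.mono (by linarith)⟩)
      (by
        refine le_trans ?_ (hz2.trans (le_of_eq (by ring)))
        refine Nat.cast_le.2 (card_le_card ?_)
        intro w hw
        obtain ⟨w1, w2⟩ := mem_filter.1 hw
        obtain ⟨w3, w4⟩ := mem_product.1 w1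
        obtain ⟨a1, -, a2, a3, -⟩ := hP' _ w3
        obtain ⟨b1, -, -, b3, -⟩ := hP' _ w4
        exact mem_filter.2 ⟨mem_product.2 ⟨a1, b1⟩, a2, a3, b3, w2⟩)
      (xLR1b_size hyp (by omega))
    refine hFC.mono ?_
    have a1 : δ ^ 12 ≤ (1 / 2) ^ 12 := pow_le_pow_left₀ hδ.le hδ2 12
    have a2 : (δ / 2) ^ 2 / (1000 * (δ ^ 20)⁻¹ ^ C1) = (δ ^ 20) ^ C1 * δ ^ 2 * (1 / 4000) := by
      rw [inv_pow]
      field_simp
      ring
    rw [a2]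
    calc δ ^ (20 * C1 + 14) = (δ ^ 20) ^ C1 * δ ^ 2 * δ ^ 12 := by ring
      _ ≤ _ := mul_le_mul_of_nonneg_left (a1.trans (by norm_num)) (by positivity)

end Pool.Agent.MP_e23604_nt.U

end
end

section

/-!
A common denominator.
-/

open Finset
open scoped Classical

noncomputable section

namespace Pool.Agent.MP_e23604_nt.U

theorem xLR2_c {p : DP} (ok : p.OK 1) {H : ℕ} (hH : 10 * p.K * H ≤ p.Y) {u e : ℤ} (hu : u ∈ p.SU)
    (he : e ∈ p.SE) : (p.K : ℤ) ∣ e * u ^ 2 ∧ |e * u ^ 2| * H ≤ p.X := by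
  obtain ⟨he1, he2⟩ := mem_filter.1 he
  obtain ⟨u1, u2⟩ := mem_Ioc.1 (mem_filter.1 hu).1
  refine ⟨he2.mul_right _, ?_⟩
  have a1 : |e| ≤ 2 * p.M := abs_le.2 ⟨by linarith [(mem_Icc.1 he1).1], (mem_Icc.1 he1).2⟩
  have a2 : u ^ 2 ≤ (2 * p.V) ^ 2 := pow_le_pow_left₀ (by omega) u2 2
  have a3 : |e * u ^ 2| ≤ 2 * p.M * (2 * p.V) ^ 2 := by
    rw [abs_mul, abs_of_nonneg (sq_nonneg u)]
    exact mul_le_mul a1 a2 (sq_nonneg u) (by positivity)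
  have a4 : (10 : ℤ) * p.K * H ≤ p.Y := by exact_mod_cast hH
  have a5 : (p.Y : ℤ) * p.M * p.V ^ 2 ≤ p.K * p.X := by exact_mod_cast ok.hX
  have a6 : (0 : ℤ) < p.K := by exact_mod_cast ok.pos
  have a7 := mul_le_mul a3 a4 (by positivity) (by positivity)
  refine le_of_mul_le_mul_left ?_ (show 0 < 10 * (p.K : ℤ) by positivity)
  have a8 : (0 : ℤ) ≤ p.K * p.X := by positivity
  nlinarith

theorem LR2_pf (h1 : LDDI) : LR2 := by
  obtain ⟨C, h1⟩ := h1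
  refine ⟨2 * C + 2, fun δ p w H hp hH h2 => ?_⟩
  have ok := hp.one
  have d0 := hp.1
  have d1 := hp.2.1
  have H1 : 1 ≤ H := by
    by_contra h0
    obtain rfl : H = 0 := by omega
    obtain ⟨s1, s2, s3, s4, -⟩ := ok.sizes
    have y0 : (0 : ℝ) < p.Y := by
      have : 0 < p.K ^ 100 := by positivity
      exact_mod_cast (by omega : 0 < p.Y)
    have := hH.1
    simp only [Nat.cast_zero, mul_zero] at this
    exact absurd this (not_le.2 (by positivity))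
  have H0 : (0 : ℝ) < H := by exact_mod_cast H1
  obtain ⟨B, hB⟩ : ∃ B, B = (p.SU ×ˢ p.SE) ×ˢ range p.K := ⟨_, rfl⟩
  obtain ⟨P, hP⟩ : ∃ P : ((ℤ × ℤ) × ℕ) × ℕ → ℕ → Prop, ∀ z h, P z h ↔ δ * p.M ≤ |(z.1.1.2 : ℝ)| ∧
      FC (p.dg (p.D w) (z.1.1.2 * z.1.1.1 ^ 2) h z.2 z.1.2) (p.N p.K) δ := ⟨_, fun _ _ => Iff.rfl⟩
  have cB : (B.card : ℝ) = (p.SU ×ˢ p.SE).card * p.K := by
    rw [hB, card_product, card_range, Nat.cast_mul]
  have a1 := pop2 (B ×ˢ range H) (range H) P d0.le (nonempty_range_iff.2 (by omega)) (by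
    refine le_trans (le_of_eq ?_) (h2.trans ?_)
    · rw [card_product, card_range, Nat.cast_mul, cB]
      ring
    · refine Nat.cast_le.2 (card_le_card_of_injOn
        (fun z => (((z.1, z.2.2.2), z.2.2.1), z.2.1)) (fun z hz => ?_) ?_)
      · simp only [coe_filter, mem_product, Set.mem_ofPred_eq, hB, hP] at hz ⊢
        tauto
      · rintro ⟨a, b, c, d⟩ - ⟨a', b', c', d'⟩ - e
        simp only [Prod.mk.injEq] at e ⊢
        tauto)
  obtain ⟨G, hG⟩ : ∃ G, G = B.filter fun z => ∃ h' ∈ range H,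
      δ / 2 * (range H).card ≤ (((range H).filter fun j => P (z, h') j).card : ℝ) := ⟨_, rfl⟩
  have a2 : δ / 2 * B.card ≤ G.card := by
    refine le_of_mul_le_mul_right ?_ H0
    have : ((B ×ˢ range H).filter fun i => δ / 2 * (range H).card ≤
        (((range H).filter fun j => P i j).card : ℝ)) ⊆ G ×ˢ range H := fun z hz => by
      obtain ⟨z1, z2⟩ := mem_filter.1 hz
      obtain ⟨z3, z4⟩ := mem_product.1 z1
      exact mem_product.2 ⟨hG ▸ mem_filter.2 ⟨z3, z.2, z4, z2⟩, z4⟩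
    have b1 := a1.trans (Nat.cast_le.2 (card_le_card this))
    rw [card_product, card_product, card_range, Nat.cast_mul, Nat.cast_mul] at b1
    linarith
  have i0 : 1 ≤ δ⁻¹ := (one_le_inv₀ d0).2 (by linarith)
  have e1 : (δ ^ 2)⁻¹ ^ C = δ⁻¹ ^ (2 * C) := by rw [← inv_pow, ← pow_mul]
  have e2 : δ ^ 2 ≤ δ / 2 := by nlinarith
  obtain ⟨q, hq, a3⟩ := pig G (Icc 1 ⌊δ⁻¹ ^ (2 * C)⌋₊)
    (nonempty_Icc.2 (Nat.le_floor (by simpa using one_le_pow₀ i0)))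
    (fun z q => δ * p.M ≤ |(z.1.2 : ℝ)| ∧
      p.P2 (p.D w) (z.1.2 * z.1.1 ^ 2) z.2 q H ((δ ^ 2) ^ C)) fun z hz => by
    rw [hG] at hz
    obtain ⟨z1, h', -, z2⟩ := mem_filter.1 hz
    rw [hB] at z1
    obtain ⟨z3, z4⟩ := mem_product.1 z1
    obtain ⟨z5, z6⟩ := mem_product.1 z3
    obtain ⟨c1, c2⟩ := xLR2_c ok hH.2 z5 z6
    rw [card_range] at z2
    obtain ⟨q, q1, q2, q3⟩ := h1 (δ ^ 2) p w H _ h' z.2 (hp.pow (by norm_num) (by omega)) c1 c2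
      (mem_range.1 z4) H1 (by
        refine (mul_le_mul_of_nonneg_right e2 H0.le).trans (z2.trans (Nat.cast_le.2
          (card_le_card fun h hh => ?_)))
        exact mem_filter.2 ⟨(mem_filter.1 hh).1,
          ((hP _ _).1 (mem_filter.1 hh).2).2.mono (by linarith)⟩)
    obtain ⟨h, hh⟩ : ((range H).filter fun j => P (z, h') j).Nonempty := by
      rw [← card_pos, ← Nat.cast_pos (α := ℝ)]
      exact lt_of_lt_of_le (by positivity) z2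
    exact ⟨q, mem_Icc.2 ⟨q1, Nat.le_floor (e1 ▸ q2)⟩, ((hP _ _).1 (mem_filter.1 hh).2).1, q3⟩
  obtain ⟨q1, q2⟩ := mem_Icc.1 hq
  have f0 : (⌊δ⁻¹ ^ (2 * C)⌋₊ : ℝ) ≤ δ⁻¹ ^ (2 * C) := Nat.floor_le (by positivity)
  have m1 : δ ^ (2 * C + 2) ≤ δ ^ 1 := pow_le_pow_of_le_one d0.le (by linarith) (by omega)
  have m2 : δ ^ (2 * C + 2) ≤ (δ ^ 2) ^ C := by
    rw [← pow_mul]
    exact pow_le_pow_of_le_one d0.le (by linarith) (by omega)
  refine ⟨q, q1, ((Nat.cast_le.2 q2).trans f0).trans (pow_le_pow_right₀ i0 (by omega)), ?_⟩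
  rw [Nat.card_Icc, Nat.add_sub_cancel] at a3
  have a4 := a2.trans (a3.trans (mul_le_mul_of_nonneg_right f0 (Nat.cast_nonneg _)))
  rw [inv_pow, ← div_eq_inv_mul, le_div_iff₀ (by positivity)] at a4
  unfold DP.A3
  rw [← cB, ← hB]
  refine le_trans ?_ (a4.trans (Nat.cast_le.2 (card_le_card fun z hz => ?_)))
  · have := mul_le_mul_of_nonneg_right e2 (show 0 ≤ (B.card : ℝ) * δ ^ (2 * C) by positivity)
    rw [pow_add]
    linarith
  · simp only [mem_filter] at hz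
    obtain ⟨z1, z2, z3⟩ := hz
    rw [hG] at z1
    refine mem_filter.2 ⟨(mem_filter.1 z1).1, le_trans ?_ z2, z3.mono m2⟩
    exact mul_le_mul_of_nonneg_right (by simpa using m1) (Nat.cast_nonneg _)

end Pool.Agent.MP_e23604_nt.U

end
end

section

/-!
The last Cauchy-Schwarz step.
-/

open Finset
open scoped Classical

noncomputable section

namespace Pool.Agent.MP_e23604_nt.U

theorem xLDb1_cell {M : Type} (s : Finset M) (b φ : M → ℝ) {g ε : ℝ} (hb : ∀ μ, |b μ| ≤ 1)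
    (hg : |g| ≤ 1) (hφ : ∀ μ, |φ μ| ≤ 1) (hε : ∀ μ ∈ s, ∀ μ' ∈ s, |φ μ - φ μ'| ≤ ε) :
    ∑ μ ∈ s, g * b μ * φ μ ≤ ε * s.card + |∑ μ ∈ s, b μ| := by
  rcases s.eq_empty_or_nonempty with rfl | ⟨μ0, h0⟩
  · simp
  have e : ∑ μ ∈ s, g * b μ * φ μ =
      ∑ μ ∈ s, g * b μ * (φ μ - φ μ0) + g * φ μ0 * ∑ μ ∈ s, b μ := by
    rw [mul_sum, ← sum_add_distrib]
    exact sum_congr rfl fun μ _ => by ring
  rw [e]
  refine add_le_add ?_ ((le_abs_self _).trans ?_)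
  · rw [mul_comm, ← nsmul_eq_mul]
    refine sum_le_card_nsmul _ _ _ fun μ hμ => (le_abs_self _).trans ?_
    rw [abs_mul, abs_mul]
    exact (mul_le_of_le_one_left (abs_nonneg _) (mul_le_one₀ hg (abs_nonneg _) (hb μ))).trans
      (hε μ hμ μ0 h0)
  · rw [abs_mul, abs_mul]
    exact mul_le_of_le_one_left (abs_nonneg _) (mul_le_one₀ hg (abs_nonneg _) (hφ μ0))

theorem xLDb1_sq {O M κ : Type} (SO : Finset O) (SM : Finset M) (Cs : Finset κ) (cell : M → κ)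
    (hc : ∀ μ ∈ SM, cell μ ∈ Cs) (a : O → M → ℝ) (h : M → ℝ) (ha : ∀ o μ, |a o μ| ≤ 1)
    (hh : ∀ μ, |h μ| ≤ 1) :
    ∑ o ∈ SO, ∑ c ∈ Cs, (∑ μ ∈ SM.filter (fun μ => cell μ = c), a o μ * h μ) ^ 2 ≤
      SO.card * SM.card + ∑ μ ∈ SM, ∑ μ' ∈ SM.filter (fun μ' => μ' ≠ μ ∧ cell μ' = cell μ),
        |∑ o ∈ SO, a o μ * a o μ'| := by
  have h1 : ∀ c ∈ Cs, ∑ o ∈ SO, (∑ μ ∈ SM.filter (fun μ => cell μ = c), a o μ * h μ) ^ 2 ≤
      ∑ μ ∈ SM.filter (fun μ => cell μ = c), ∑ μ' ∈ SM.filter (fun μ' => cell μ' = cell μ),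
        |∑ o ∈ SO, a o μ * a o μ'| := by
    intro c _
    simp only [sq, sum_mul_sum]
    rw [sum_comm]
    refine sum_le_sum fun μ hμ => ?_
    rw [sum_comm, (mem_filter.1 hμ).2]
    refine sum_le_sum fun μ' _ => (le_abs_self _).trans ?_
    have e : ∑ o ∈ SO, a o μ * h μ * (a o μ' * h μ') = h μ * h μ' * ∑ o ∈ SO, a o μ * a o μ' := by
      rw [mul_sum]
      exact sum_congr rfl fun o _ => by ring
    rw [e, abs_mul, abs_mul]
    exact mul_le_of_le_one_left (abs_nonneg _) (mul_le_one₀ (hh μ) (abs_nonneg _) (hh μ'))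
  rw [sum_comm]
  refine (sum_le_sum h1).trans ?_
  rw [sum_fiberwise_of_maps_to hc, mul_comm, ← nsmul_eq_mul, ← sum_const, ← sum_add_distrib]
  refine sum_le_sum fun μ hμ => ?_
  have e : SM.filter (fun μ' => μ' ≠ μ ∧ cell μ' = cell μ) =
      (SM.filter fun μ' => cell μ' = cell μ).erase μ := by
    ext x
    simp only [mem_filter, mem_erase]
    tauto
  rw [e, ← add_sum_erase _ _ (mem_filter.2 ⟨hμ, rfl⟩ : μ ∈ SM.filter fun μ' => cell μ' = cell μ)]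
  refine add_le_add ((abs_sum_le_sum_abs _ _).trans ?_) le_rfl
  rw [← mul_one (SO.card : ℝ), ← nsmul_eq_mul]
  refine sum_le_card_nsmul _ _ _ fun o _ => ?_
  rw [abs_mul]
  exact mul_le_one₀ (ha o μ) (abs_nonneg _) (ha o μ)

theorem xLDb1_main {O M κ : Type} (SO : Finset O) (SM : Finset M) (Cs : Finset κ) (cell : M → κ)
    (hc : ∀ μ ∈ SM, cell μ ∈ Cs) (a φ : O → M → ℝ) (g : O → ℝ) (h : M → ℝ) {δ ε : ℝ}
    (ha : ∀ o μ, |a o μ| ≤ 1) (hφ : ∀ o μ, |φ o μ| ≤ 1) (hg : ∀ o, |g o| ≤ 1)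
    (hh : ∀ μ, |h μ| ≤ 1) (hδ : ε ≤ δ)
    (hε : ∀ o ∈ SO, ∀ μ ∈ SM, ∀ μ' ∈ SM, cell μ = cell μ' → |φ o μ - φ o μ'| ≤ ε)
    (hs : δ * (SO.card * SM.card) ≤ ∑ o ∈ SO, ∑ μ ∈ SM, a o μ * g o * h μ * φ o μ) :
    ((δ - ε) * (SO.card * SM.card)) ^ 2 ≤ SO.card * Cs.card * (SO.card * SM.card +
      ∑ μ ∈ SM, ∑ μ' ∈ SM.filter (fun μ' => μ' ≠ μ ∧ cell μ' = cell μ),
        |∑ o ∈ SO, a o μ * a o μ'|) := by
  have h1 : ∀ o ∈ SO, ∑ μ ∈ SM, a o μ * g o * h μ * φ o μ ≤ ε * SM.card +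
      ∑ c ∈ Cs, |∑ μ ∈ SM.filter (fun μ => cell μ = c), a o μ * h μ| := by
    intro o ho
    rw [← sum_fiberwise_of_maps_to hc, card_eq_sum_card_fiberwise hc, Nat.cast_sum, mul_sum,
      ← sum_add_distrib]
    refine sum_le_sum fun c _ => le_trans (le_of_eq (sum_congr rfl fun μ _ => by ring))
      (xLDb1_cell _ (fun μ => a o μ * h μ) (φ o) (fun μ => ?_) (hg o) (hφ o) fun μ hμ μ' hμ' =>
        hε o ho μ (mem_filter.1 hμ).1 μ' (mem_filter.1 hμ').1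
          ((mem_filter.1 hμ).2.trans (mem_filter.1 hμ').2.symm))
    rw [abs_mul]
    exact mul_le_one₀ (ha o μ) (abs_nonneg _) (hh μ)
  have h2 := hs.trans (sum_le_sum h1)
  rw [sum_add_distrib, sum_const, nsmul_eq_mul, ← sum_product'] at h2
  have h3 := sq_sum_le_card_mul_sum_sq (s := SO ×ˢ Cs)
    (f := fun z => |∑ μ ∈ SM.filter (fun μ => cell μ = z.2), a z.1 μ * h μ|)
  simp only [sq_abs] at h3
  rw [card_product, Nat.cast_mul, sum_product (f := fun z : O × κ =>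
    (∑ μ ∈ SM.filter (fun μ => cell μ = z.2), a z.1 μ * h μ) ^ 2)] at h3
  refine (pow_le_pow_left₀ (mul_nonneg (sub_nonneg.2 hδ) (by positivity)) (by linarith) 2).trans
    (h3.trans (mul_le_mul_of_nonneg_left (xLDb1_sq SO SM Cs cell hc a h ha hh) (by positivity)))

theorem xLDb1_chi (F : ℤ → ℝ) (S : Finset ℤ) {D : ℕ} (hD : 1 ≤ D) (β : ℝ) : ∃ χ : ℤ → ℝ,
    (∀ x, |χ x| ≤ 1) ∧ (∀ x x' : ℤ, (D : ℤ) ∣ x - x' → |χ x - χ x'| ≤ 7 * |β| * |(x : ℝ) - x'|) ∧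
    ∑ ρ ∈ range D, ‖∑ x ∈ S.filter (fun x => x % (D : ℤ) = ρ), ((F x : ℝ) : ℂ) * ee (β * x)‖ =
      ∑ x ∈ S, χ x * F x := by
  choose s hs1 hs2 using fun ρ : ℕ =>
    ex_unit (∑ x ∈ S.filter (fun x => x % (D : ℤ) = ρ), ((F x : ℝ) : ℂ) * ee (β * x))
  have hD' : (0 : ℤ) < D := by exact_mod_cast hD
  refine ⟨fun x => (s (x % D).toNat * ee (β * x)).re, fun x => ?_, fun x x' h => ?_, ?_⟩
  · refine (Complex.abs_re_le_norm _).trans ?_
    rw [norm_mul, norm_ee, mul_one]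
    exact hs1 _
  · have e : x % (D : ℤ) = x' % D := (Int.modEq_iff_dvd.2 h).symm
    simp only [e]
    rw [← Complex.sub_re, ← mul_sub]
    refine (Complex.abs_re_le_norm _).trans ?_
    rw [norm_mul, mul_assoc, ← abs_mul, mul_sub]
    exact (mul_le_of_le_one_left (norm_nonneg _) (hs1 _)).trans (ee_lip _ _)
  · have hm : ∀ x ∈ S, (x % D).toNat ∈ range D := fun x _ => by
      have h1 := Int.emod_lt_of_pos x hD'
      have h2 := Int.emod_nonneg x hD'.ne'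
      rw [mem_range]
      omega
    rw [← sum_fiberwise_of_maps_to hm]
    refine sum_congr rfl fun ρ _ => ?_
    have e := congrArg Complex.re (hs2 ρ)
    rw [Complex.ofReal_re] at e
    rw [← e, mul_sum, Complex.re_sum]
    refine sum_congr (filter_congr fun x _ => ?_) fun x hx => ?_
    · have h2 := Int.emod_nonneg x hD'.ne'
      omega
    · simp only [(mem_filter.1 hx).2]
      rw [mul_left_comm, Complex.re_ofReal_mul, mul_comm]

theorem xLDb1_T {p : DP} (h : p.OK 1) {y μ μ' u : ℤ} (hy : y ∈ p.SY) (hμ : μ ∈ p.SM)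
    (hμ' : μ' ∈ p.SM) (hu : u ∈ p.SU) :
    p.K * (p.T y μ u - p.T y μ' u) = y * u ^ 2 * (μ - μ') ∧
      |(p.T y μ u : ℝ) - p.T y μ' u| * p.M ≤ 8 * p.X * |(μ : ℝ) - μ'| := by
  obtain ⟨y1, y2, y3⟩ := mem_cl.1 hy
  obtain ⟨u1, u2, u3⟩ := mem_cl.1 hu
  have e : p.K * (p.T y μ u - p.T y μ' u) = y * u ^ 2 * (μ - μ') := by
    rw [mul_sub, DP.T_mul y3 (mem_cl.1 hμ).2.2 u3, DP.T_mul y3 (mem_cl.1 hμ').2.2 u3]
    ring
  refine ⟨e, ?_⟩
  have hK : (0 : ℝ) < p.K := Nat.cast_pos.2 h.pos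
  have y0 : (0 : ℝ) ≤ y := by exact_mod_cast (by omega : 0 ≤ y)
  have u0 : (0 : ℝ) ≤ u := by exact_mod_cast (by omega : 0 ≤ u)
  have y4 : (y : ℝ) ≤ 2 * p.Y := by exact_mod_cast y2
  have u4 : (u : ℝ) ≤ 2 * p.V := by exact_mod_cast u2
  have hX : (p.Y : ℝ) * p.M * p.V ^ 2 ≤ p.K * p.X := by exact_mod_cast h.hX
  have e' : (p.K : ℝ) * ((p.T y μ u : ℝ) - p.T y μ' u) = y * u ^ 2 * (μ - μ') := by
    exact_mod_cast e
  have e2 := congrArg abs e'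
  rw [abs_mul, abs_mul, abs_of_pos hK, abs_of_nonneg (by positivity : (0 : ℝ) ≤ y * u ^ 2)] at e2
  refine le_of_mul_le_mul_left ?_ hK
  calc _ = (y * u ^ 2 * p.M : ℝ) * |(μ : ℝ) - μ'| := by rw [← mul_assoc, e2]; ring
    _ ≤ (2 * p.Y * (2 * p.V) ^ 2 * p.M : ℝ) * |(μ : ℝ) - μ'| := by gcongr
    _ = 8 * ((p.Y : ℝ) * p.M * p.V ^ 2) * |(μ : ℝ) - μ'| := by ring
    _ ≤ 8 * ((p.K : ℝ) * p.X) * |(μ : ℝ) - μ'| := by gcongr
    _ = _ := by ring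

theorem xLDb1_cells {p : DP} (hM : 0 < p.M) {D : ℕ} (hD : 1 ≤ D) {δ : ℝ} (h0 : 0 < δ)
    (h1 : δ ≤ 1) : ∃ (Cs : Finset (ℤ × ℤ)) (cell : ℤ → ℤ × ℤ), (∀ μ ∈ p.SM, cell μ ∈ Cs) ∧
      (Cs.card : ℝ) * δ ^ 2 ≤ 601 * D ∧ ∀ μ ∈ p.SM, ∀ μ' ∈ p.SM, cell μ = cell μ' →
        (p.K : ℤ) * D ∣ μ - μ' ∧ |(μ : ℝ) - μ'| ≤ δ ^ 2 * p.M / 200 := by
  have hD' : (0 : ℤ) < D := by exact_mod_cast hD
  have hM' : (0 : ℝ) < p.M := Nat.cast_pos.2 hM
  have hw : 0 < δ ^ 2 * p.M / 200 := by positivity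
  refine ⟨Ico 0 (D : ℤ) ×ˢ Icc 0 (⌊600 / δ ^ 2⌋₊ : ℤ),
    fun μ => ((μ - p.ms) / p.K % D, ⌊(μ : ℝ) / (δ ^ 2 * p.M / 200)⌋), fun μ hμ => ?_, ?_,
    fun μ hμ μ' hμ' e => ⟨?_, ?_⟩⟩
  · obtain ⟨m1, m2, -⟩ := mem_cl.1 hμ
    have m0 : (0 : ℝ) ≤ μ := by exact_mod_cast (by omega : 0 ≤ μ)
    have m3 : (μ : ℝ) ≤ 3 * p.M := by exact_mod_cast m2
    refine mem_product.2 ⟨mem_Ico.2 ⟨Int.emod_nonneg _ hD'.ne', Int.emod_lt_of_pos _ hD'⟩,
      mem_Icc.2 ⟨Int.floor_nonneg.2 (by positivity), ?_⟩⟩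
    rw [Int.natCast_floor_eq_floor (by positivity)]
    refine Int.floor_le_floor ((div_le_div_of_nonneg_right m3 hw.le).trans_eq ?_)
    field_simp
    norm_num
  · have e : (Icc 0 (⌊600 / δ ^ 2⌋₊ : ℤ)).card = ⌊600 / δ ^ 2⌋₊ + 1 := by
      rw [Int.card_Icc]
      omega
    have e2 : (⌊600 / δ ^ 2⌋₊ : ℝ) * δ ^ 2 ≤ 600 :=
      (le_div_iff₀ (by positivity)).1 (Nat.floor_le (by positivity))
    have e3 : δ ^ 2 ≤ 1 := pow_le_one₀ h0.le h1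
    rw [card_product, e, Int.card_Ico, sub_zero, Int.toNat_natCast, Nat.cast_mul, mul_assoc,
      mul_comm 601]
    refine mul_le_mul_of_nonneg_left ?_ (Nat.cast_nonneg _)
    push_cast
    linarith
  · obtain ⟨a, ha⟩ := (mem_cl.1 hμ).2.2
    obtain ⟨a', ha'⟩ := (mem_cl.1 hμ').2.2
    rcases Nat.eq_zero_or_pos p.K with hK | hK
    · rw [hK] at ha ha'
      rw [show μ - μ' = 0 by omega]
      exact dvd_zero _
    have hK' : (p.K : ℤ) ≠ 0 := by omega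
    have e1 : (μ - p.ms) / p.K % D = (μ' - p.ms) / p.K % D := congrArg Prod.fst e
    rw [ha, ha', Int.mul_ediv_cancel_left _ hK', Int.mul_ediv_cancel_left _ hK'] at e1
    rw [show μ - μ' = p.K * (a - a') by linear_combination ha - ha']
    exact mul_dvd_mul_left _ (Int.ModEq.dvd e1.symm)
  · have e1 := Int.abs_sub_lt_one_of_floor_eq_floor (congrArg Prod.snd e)
    rw [← sub_div, abs_div, abs_of_pos hw, div_lt_one hw] at e1
    exact e1.le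

theorem xLDb1_num {δ n m N D K M F : ℝ} (h0 : 0 < δ) (h1 : δ ≤ 1 / 2) (hn : 0 < n) (hm : 0 < m)
    (hM : 0 < M) (hK : 0 ≤ K) (hF : 0 ≤ F) (a1 : N * δ ^ 2 ≤ 601 * D) (a2 : M ≤ m * K)
    (a3 : D * K ≤ δ ^ 16 * M) (hD : 0 ≤ D)
    (h : ((δ - 3 / 10 * δ) * (n * m)) ^ 2 ≤ n * N * (n * m + F)) :
    δ ^ 20 * (n * m) ≤ D * K / M * F := by
  have b0 : δ ^ 12 ≤ 1 / 4096 := (pow_le_pow_left₀ h0.le h1 12).trans_eq (by norm_num)
  have b1 : δ ^ 16 ≤ δ ^ 4 / 4096 := by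
    have := mul_le_mul_of_nonneg_left b0 (pow_pos h0 4).le
    linarith
  have b2 : 49 / 100 * δ ^ 2 * (n * m) * m ≤ N * (n * m + F) :=
    le_of_mul_le_mul_left (by linarith) hn
  have b3 : 49 / 100 * δ ^ 4 * (n * m) * m ≤ 601 * D * (n * m + F) := by
    have c1 := mul_le_mul_of_nonneg_left b2 (pow_pos h0 2).le
    have c2 := mul_le_mul_of_nonneg_right a1 (by positivity : 0 ≤ n * m + F)
    linarith
  have b4 : 49 / 100 * δ ^ 4 * (n * m) * M ≤ 601 * (D * K) * (n * m + F) := by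
    have c1 := mul_le_mul_of_nonneg_right b3 hK
    have c2 := mul_le_mul_of_nonneg_left a2 (by positivity : 0 ≤ 49 / 100 * δ ^ 4 * (n * m))
    linarith
  have b5 : D * K * (n * m) ≤ δ ^ 4 / 4096 * M * (n * m) :=
    mul_le_mul_of_nonneg_right (a3.trans (mul_le_mul_of_nonneg_right b1 hM.le)) (by positivity)
  have b6 : δ ^ 20 ≤ δ ^ 4 / 4096 := (pow_le_pow_of_le_one h0.le (by linarith) (by norm_num)).trans b1
  have b7 := mul_le_mul_of_nonneg_right b6 (by positivity : 0 ≤ n * m * M)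
  have b8 : 0 ≤ δ ^ 4 * (n * m) * M := by positivity
  rw [div_mul_eq_mul_div, le_div_iff₀ hM]
  linarith

theorem LDB1_pf  : LDB1 := by
  refine ⟨20, ?_⟩
  rintro δ p w f u' hp hf ⟨Q, β, hQ1, hQ, hβ, hs⟩
  have ho := hp.one
  obtain ⟨h0, h1, hok, hr, -⟩ := hp
  obtain ⟨s1, s2, s3, s4, s5, -⟩ := ho.sizes
  obtain ⟨-, ⟨c1, -⟩, -, -, c2⟩ := ho.cards
  have hK : 0 < p.K := by omega
  have hM : 0 < p.M := ((pow_pos hK 100).trans_le s2).trans_le s3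
  have hK' : (0 : ℝ) < p.K := Nat.cast_pos.2 hK
  have hM' : (0 : ℝ) < p.M := Nat.cast_pos.2 hM
  have hX' : (0 : ℝ) < p.X := Nat.cast_pos.2 (by omega)
  have hD : 1 ≤ Q * p.K ^ 31 := Nat.mul_pos hQ1 (pow_pos hK _)
  have hY : (0 : ℝ) < p.SY.card := Nat.cast_pos.2 (card_pos.2 ⟨_, hr.1⟩)
  have hm : (0 : ℝ) < p.SM.card := Nat.cast_pos.2 (card_pos.2 ⟨_, hr.2.1⟩)
  obtain ⟨χ, x1, x2, x3⟩ := xLDb1_chi (p.D w) (JJ (30 * p.X)) hD β
  obtain ⟨Cs, cell, l1, l2, l3⟩ := xLDb1_cells hM hD h0 (by linarith)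
  have hS : ∑ _u ∈ p.SU, δ * (((p.SX ×ˢ p.SY).card : ℝ) * p.SM.card) ≤ ∑ u ∈ p.SU,
      ∑ o ∈ p.SX ×ˢ p.SY, ∑ μ ∈ p.SM,
        f (o.1 - p.T o.2 μ u') * w.G2 o.1 o.2 u * w.H μ u * χ (o.1 - p.T o.2 μ u) := by
    have e : p.S w χ = ∑ u ∈ p.SU, ∑ o ∈ p.SX ×ˢ p.SY, ∑ μ ∈ p.SM,
        f (o.1 - p.T o.2 μ u') * w.G2 o.1 o.2 u * w.H μ u * χ (o.1 - p.T o.2 μ u) := by
      rw [sum_comm, sum_product]
      refine sum_congr rfl fun x _ => sum_congr rfl fun y _ => ?_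
      rw [sum_comm]
      simp only [hf]
    rw [← e, DP.S_eq ho hr, ← x3, sum_const, nsmul_eq_mul, card_product, Nat.cast_mul, c2]
    refine le_trans (le_of_eq ?_) (mul_le_mul_of_nonneg_left hs (by unfold DP.nW; positivity))
    unfold DP.nW
    ring
  obtain ⟨u, hu, hS⟩ := exists_le_of_sum_le ⟨_, hr.2.2⟩ hS
  have key := xLDb1_main (p.SX ×ˢ p.SY) p.SM Cs cell l1 (fun o μ => f (o.1 - p.T o.2 μ u'))
    (fun o μ => χ (o.1 - p.T o.2 μ u)) (fun o => w.G2 o.1 o.2 u) (fun μ => w.H μ u)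
    (ε := 3 / 10 * δ) (fun o μ => hf o.1 o.2 μ ▸ w.h1 _ _ _) (fun _ _ => x1 _)
    (fun _ => w.h2 _ _ _) (fun _ => w.h3 _ _) (by linarith) (fun o ho' μ hμ μ' hμ' e => by
      obtain ⟨d1, d2⟩ := l3 μ hμ μ' hμ' e
      obtain ⟨t1, t2⟩ := xLDb1_T ho (mem_product.1 ho').2 hμ hμ' hu
      have d3 : ((Q * p.K ^ 31 : ℕ) : ℤ) ∣ p.T o.2 μ u - p.T o.2 μ' u :=
        (mul_dvd_mul_iff_left (by omega : (p.K : ℤ) ≠ 0)).1 (t1 ▸ d1.mul_left _)
      refine (x2 _ _ (by rw [sub_sub_sub_cancel_left]; exact dvd_sub_comm.1 d3)).trans ?_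
      rw [Int.cast_sub, Int.cast_sub, sub_sub_sub_cancel_left, abs_sub_comm]
      have t3 : |(p.T o.2 μ u : ℝ) - p.T o.2 μ' u| ≤ 8 * p.X * δ ^ 2 / 200 :=
        le_of_mul_le_mul_right (t2.trans ((mul_le_mul_of_nonneg_left d2
          (by positivity)).trans_eq (by ring))) hM'
      calc _ ≤ 7 * (δ⁻¹ / p.X) * (8 * p.X * δ ^ 2 / 200) := by gcongr
        _ = 7 * 8 / 200 * δ := by field_simp
        _ ≤ _ := by linarith) hS
  have a3 : ((Q * p.K ^ 31 : ℕ) : ℝ) * p.K ≤ δ ^ 16 * p.M := by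
    have v1 : (p.K : ℝ) ^ 100 * δ⁻¹ ^ 20 ≤ p.M := hok.hV.trans (Nat.cast_le.2 s3)
    have v2 : (p.K : ℝ) ^ 32 ≤ p.K ^ 100 := pow_le_pow_right₀ (Nat.one_le_cast.2 hK) (by norm_num)
    have v3 : δ⁻¹ ≤ δ⁻¹ ^ 4 := le_self_pow₀ ((one_le_inv₀ h0).2 (by linarith)) (by norm_num)
    calc _ = (Q : ℝ) * p.K ^ 32 := by push_cast; ring
      _ ≤ δ⁻¹ ^ 4 * p.K ^ 100 := mul_le_mul (hQ.trans v3) v2 (by positivity) (by positivity)
      _ = δ ^ 16 * ((p.K : ℝ) ^ 100 * δ⁻¹ ^ 20) := by field_simp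
      _ ≤ _ := by gcongr
  have fin := xLDb1_num h0 h1 (by rw [card_product, Nat.cast_mul, c2]; positivity) hm hM' hK'.le
    (sum_nonneg fun _ _ => sum_nonneg fun _ _ => abs_nonneg _) l2 ((div_le_iff₀ hK').1 c1) a3
    (Nat.cast_nonneg _) key
  refine ⟨Q, hQ1, hQ, ?_⟩
  rw [card_product, Nat.cast_mul, c2] at fin
  refine fin.trans (mul_le_mul (le_of_eq (by push_cast; ring)) (sum_le_sum fun μ hμ => ?_)
    (sum_nonneg fun _ _ => sum_nonneg fun _ _ => abs_nonneg _) (by positivity))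
  simp only [sum_product]
  refine sum_le_sum_of_subset_of_nonneg (fun μ' hμ' => ?_) fun _ _ _ => abs_nonneg _
  simp only [mem_filter] at hμ' ⊢
  obtain ⟨m1, m2, m3⟩ := hμ'
  refine ⟨m1, m2, ?_⟩
  have := (l3 μ hμ μ' m1 m3.symm).1
  rwa [show ((Q * p.K ^ 32 : ℕ) : ℤ) = p.K * ((Q * p.K ^ 31 : ℕ) : ℤ) by push_cast; ring]

end Pool.Agent.MP_e23604_nt.U

end
end

section

/-!
The degree lowering estimate.
-/

namespace Pool.Agent.MP_e23604_nt.U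

theorem IDL_pf : IDL :=
  have maj : LMAJ := LMAJ_pf (LMJ1_pf LCS2_pf (LVI3_pf LVIN_pf))
  have ort : LORT := LORT_pf LOR2_pf
  IDL_of (LDLA_pf (LR1a_pf LCS2_pf (LU3_pf LBIL_pf) (LG1a_pf LGTa_pf))
    (LR1b_pf ort (LG1b_pf (LGT1_pf LGTa_pf) LGCp_pf)) (LR2_pf (LDDI_pf maj))
    (LR4_pf (LR3_pf LBIL_pf) ort LGC2_pf) (LR5_pf maj)) LDB1_pf

end Pool.Agent.MP_e23604_nt.U

end

section

/-!
Counting in the outer coordinates.
-/

open Finset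
open scoped Classical

noncomputable section

namespace Pool.Agent.MP_e23604_nt.U

open P (gg WW Datum Wt)

/-- The multiples of `D` between `a` and `k a`. -/
def xE2b_mu (a k D : ℕ) : Finset ℤ := (Ioc (a : ℤ) (k * a)).filter fun x => (D : ℤ) ∣ x

theorem xE2b_mu_le (a k : ℕ) {D : ℕ} (hD : 1 ≤ D) : ((xE2b_mu a k D).card : ℝ) ≤ k * a / D := by
  have h0 : (0 : ℤ) < D := by exact_mod_cast hD
  have h1 : xE2b_mu a k D ⊆ (Ioc (0 : ℤ) ((k * a / D : ℕ) : ℤ)).image fun t => (D : ℤ) * t := by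
    intro x hx
    obtain ⟨h2, t, rfl⟩ := mem_filter.1 hx
    obtain ⟨h3, h4⟩ := mem_Ioc.1 h2
    refine mem_image.2 ⟨t, mem_Ioc.2 ⟨?_, ?_⟩, rfl⟩
    · exact (mul_pos_iff_of_pos_left h0).1 ((Int.natCast_nonneg a).trans_lt h3)
    · push_cast
      exact (Int.le_ediv_iff_mul_le h0).2 (by rwa [mul_comm])
  have h2 := (card_le_card h1).trans card_image_le
  rw [Int.card_Ioc, sub_zero, Int.toNat_natCast] at h2
  refine (Nat.cast_le.2 h2).trans (Nat.cast_div_le.trans (le_of_eq ?_))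
  push_cast
  rfl

theorem xE2b_pr {M : Type} [CommMonoid M] (f : Fin 10 → M) :
    ∏ i, f i = f 0 * f 1 * f 2 * f 3 * f 4 * f 5 * f 6 * f 7 * f 8 * f 9 := by
  simp only [Fin.prod_univ_succ, Fin.prod_univ_zero, mul_one, mul_assoc]
  rfl

theorem xE2b_vol (X : Fin 10 → ℕ) :
    Vol8 X = X 2 * X 3 * X 4 * X 5 * X 6 * X 7 * X 8 * X 9 := by
  unfold Vol8
  rw [prod_filter, xE2b_pr]
  simp

theorem xE2b_fib (T : Finset V10) (M : Fin 10 → Finset ℤ) {r : ℝ} (hr : 0 ≤ r)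
    (hM : ∀ v ∈ T, ∀ i, Function.update v 2 0 i ∈ M i)
    (h : ∀ w, ((T.filter fun v => Function.update v 2 0 = w).card : ℝ) ≤ r) :
    (T.card : ℝ) ≤ (∏ i, ((M i).card : ℝ)) * r := by
  rw [card_eq_sum_card_image (fun v => Function.update v 2 0) T, Nat.cast_sum]
  refine (sum_le_card_nsmul _ _ r fun w _ => h w).trans ?_
  rw [nsmul_eq_mul, ← Nat.cast_prod, ← Fintype.card_piFinset]
  refine mul_le_mul_of_nonneg_right (Nat.cast_le.2 (card_le_card fun w hw => ?_)) hr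
  obtain ⟨v, hv, rfl⟩ := mem_image.1 hw
  exact Fintype.mem_piFinset.2 (hM v hv)

theorem xE2b_dvd {s : S12} {u u' : V10} (hs : SOK s) (h : Cond s u) (h' : Cond s u')
    (e : ∀ i : Fin 10, 3 ≤ i.val → u' i = u i) : ((s 8 * s 2 * s 3 : ℕ) : ℤ) ∣ u 2 - u' 2 := by
  have d8 : (s 8 : ℤ) ∣ u 2 - u' 2 := dvd_sub (h.dvd hs 8) (h'.dvd hs 8)
  have d2 : (s 2 : ℤ) ∣ u 2 - u' 2 := by
    have a := dvd_sub ((h.dvd hs 2).mul_left 4) ((h'.dvd hs 2).mul_left 4)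
    rw [h.four, h'.four, e 3 (by decide), e 4 (by decide), e 5 (by decide), e 6 (by decide),
      e 7 (by decide)] at a
    have c : IsCoprime (u 4 * u 6 ^ 2) (s 2 : ℤ) :=
      (h.unit hs 2 4 (Or.inr ⟨4, by decide, rfl⟩)).mul_left
        (h.unit hs 2 6 (Or.inl (by decide))).pow_left
    exact c.symm.dvd_of_dvd_mul_right (a.trans ⟨1, by ring⟩)
  have d3 : (s 3 : ℤ) ∣ u 2 - u' 2 := by
    have a : (s 3 : ℤ) ∣ (u 2 * u 5 * u 8 ^ 2 - u 4 * u 3 * u 9 ^ 2) -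
        (u' 2 * u' 5 * u' 8 ^ 2 - u' 4 * u' 3 * u' 9 ^ 2) := dvd_sub (h.dvd hs 3) (h'.dvd hs 3)
    rw [e 3 (by decide), e 4 (by decide), e 5 (by decide), e 8 (by decide), e 9 (by decide)] at a
    have c : IsCoprime (u 5 * u 8 ^ 2) (s 3 : ℤ) :=
      (h.unit hs 3 5 (Or.inr ⟨5, by decide, rfl⟩)).mul_left
        (h.unit hs 3 8 (Or.inl (by decide))).pow_left
    exact c.symm.dvd_of_dvd_mul_right (a.trans ⟨1, by ring⟩)
  have c : ∀ σ τ : Fin 12, σ ≠ τ → IsCoprime (s σ : ℤ) (s τ : ℤ) := fun σ τ hne =>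
    Nat.isCoprime_iff_coprime.2 (hs.cop hne)
  push_cast
  exact ((c 8 3 (by decide)).mul_left (c 2 3 (by decide))).mul_dvd
    ((c 8 2 (by decide)).mul_dvd d8 d2) d3

theorem xE2b_gen {X : Fin 10 → ℕ} {Z : ℕ} (hR : Reg X Z) {s : S12} (hZ : s ∈ SSet Z)
    (T : Finset V10) (hT : T ⊆ O8 X) (hc : ∀ v ∈ T, ∃ a b, Cond s (upd v a b)) {d4 d7 d9 : ℕ}
    (h4 : 1 ≤ d4) (h7 : 1 ≤ d7) (h9 : 1 ≤ d9)
    (hd : ∀ v ∈ T, (d4 : ℤ) ∣ v 4 ∧ (d7 : ℤ) ∣ v 7 ∧ (d9 : ℤ) ∣ v 9) :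
    (T.card : ℝ) ≤ 96 * Vol8 X / (s 2 * s 3 * s 5 * s 8 * s 9 * d4 * d7 * d9) := by
  obtain ⟨hs, hP⟩ := mem_SSet.1 hZ
  have ps := hs.pos
  have hD : 1 ≤ s 8 * s 2 * s 3 := Nat.mul_pos (Nat.mul_pos (ps 8) (ps 2)) (ps 3)
  have hDX : s 8 * s 2 * s 3 ≤ X 2 := by
    have a1 : s 8 * s 2 * s 3 ∣ SP s := by
      rw [← sL_mul_sM]
      exact ⟨sL s * (s 4 * s 5 * s 9), by unfold sM; ring⟩
    have a2 : 0 < SP s := (ps 0).trans (le_SP hs 0)
    exact (Nat.le_of_dvd a2 a1).trans (hP.trans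
      ((Nat.le_self_pow (by norm_num) Z).trans (hR.sizes.1 2)))
  have hO : ∀ v ∈ T, ∀ i, v i ∈ if i = 0 ∨ i = 1 then ({0} : Finset ℤ) else
      Ioc (X i : ℤ) ((if i = 5 then 3 else 2) * X i) := fun v hv =>
    Fintype.mem_piFinset.1 (hT hv)
  have key := xE2b_fib T ![{0}, {0}, {0}, xE2b_mu (X 3) 2 (s 9), xE2b_mu (X 4) 2 d4,
    xE2b_mu (X 5) 3 (s 5), Ioc (X 6 : ℤ) (2 * X 6), xE2b_mu (X 7) 2 d7, Ioc (X 8 : ℤ) (2 * X 8),
    xE2b_mu (X 9) 2 d9] (r := 2 * X 2 / ((s 8 * s 2 * s 3 : ℕ) : ℝ)) (by positivity) (by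
      intro v hv i
      obtain ⟨a, b, h⟩ := hc v hv
      obtain ⟨g4, g7, g9⟩ := hd v hv
      fin_cases i
      · exact hO v hv 0
      · exact hO v hv 1
      · exact mem_singleton_self _
      · exact mem_filter.2 ⟨hO v hv 3, h.dvd hs 9⟩
      · exact mem_filter.2 ⟨hO v hv 4, g4⟩
      · exact mem_filter.2 ⟨hO v hv 5, h.dvd hs 5⟩
      · exact hO v hv 6
      · exact mem_filter.2 ⟨hO v hv 7, g7⟩
      · exact hO v hv 8
      · exact mem_filter.2 ⟨hO v hv 9, g9⟩) (by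
      intro w
      have eq : ∀ v ∈ T.filter fun v => Function.update v 2 0 = w,
          ∀ v' ∈ T.filter fun v => Function.update v 2 0 = w, ∀ i, i ≠ 2 → v i = v' i := by
        intro v hv v' hv' i hi
        have := congrFun ((mem_filter.1 hv).2.trans (mem_filter.1 hv').2.symm) i
        rwa [Function.update_of_ne hi, Function.update_of_ne hi] at this
      rw [← card_image_of_injOn (f := fun v : V10 => v 2) fun v hv v' hv' h => funext fun i => by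
        by_cases hi : i = 2
        · rw [hi]; exact h
        · exact eq v hv v' hv' i hi]
      refine (card_sparse_le (X 2) (2 * X 2) (by omega) hD _ (fun x hx => ?_)
        fun x hx y hy => ?_).trans ?_
      · obtain ⟨v, hv, rfl⟩ := mem_image.1 hx
        exact hO v (mem_filter.1 hv).1 2
      · obtain ⟨v, hv, rfl⟩ := mem_image.1 hx
        obtain ⟨v', hv', rfl⟩ := mem_image.1 hy
        obtain ⟨a, b, h⟩ := hc v (mem_filter.1 hv).1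
        obtain ⟨a', b', h'⟩ := hc v' (mem_filter.1 hv').1
        refine (xE2b_dvd hs h h' fun i hi => ?_ :)
        rw [(upd_apply v a b).2.2 i (by omega), (upd_apply v' a' b').2.2 i (by omega)]
        exact eq v' hv' v hv i (by rintro rfl; simp at hi)
      · have a1 : (0 : ℝ) < ((s 8 * s 2 * s 3 : ℕ) : ℝ) := Nat.cast_pos.2 hD
        have a2 := (one_le_div a1).2 (Nat.cast_le.2 hDX)
        rw [mul_div_assoc, two_mul (X 2 : ℤ), Int.cast_add, add_sub_cancel_right, Int.cast_natCast]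
        linarith)
  rw [xE2b_pr] at key
  have c6 : ∀ a : ℕ, ((Ioc (a : ℤ) (2 * a)).card : ℝ) = a := fun a => by
    rw [Int.card_Ioc, two_mul, add_sub_cancel_right, Int.toNat_natCast]
  have m3 := xE2b_mu_le (X 3) 2 (ps 9)
  have m4 := xE2b_mu_le (X 4) 2 h4
  have m5 := xE2b_mu_le (X 5) 3 (ps 5)
  have m7 := xE2b_mu_le (X 7) 2 h7
  have m9 := xE2b_mu_le (X 9) 2 h9
  have key2 : (T.card : ℝ) ≤ ((1 : ℕ) : ℝ) * ((1 : ℕ) : ℝ) * ((1 : ℕ) : ℝ) *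
      (xE2b_mu (X 3) 2 (s 9)).card * (xE2b_mu (X 4) 2 d4).card * (xE2b_mu (X 5) 3 (s 5)).card *
      (Ioc (X 6 : ℤ) (2 * X 6)).card * (xE2b_mu (X 7) 2 d7).card *
      (Ioc (X 8 : ℤ) (2 * X 8)).card * (xE2b_mu (X 9) 2 d9).card *
      (2 * X 2 / ((s 8 * s 2 * s 3 : ℕ) : ℝ)) := key
  rw [c6, c6] at key2
  refine key2.trans ?_
  grw [m3, m4, m5, m7, m9]
  rw [xE2b_vol]
  push_cast
  refine le_of_eq ?_
  ring

theorem E2b_pf  : E2b := by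
  intro X Z hR s hZ
  obtain ⟨hs, -⟩ := mem_SSet.1 hZ
  have ps : ∀ σ, (0 : ℝ) < s σ := fun σ => Nat.cast_pos.2 (hs.pos σ)
  have hV : 0 ≤ Vol8 X := prod_nonneg fun _ _ => Nat.cast_nonneg _
  have p2 := ps 2
  have p3 := ps 3
  have p4 := ps 4
  have p5 := ps 5
  have p8 := ps 8
  have p9 := ps 9
  have d4 : ∀ v : V10, (∃ a b, Cond s (upd v a b)) → (s 4 : ℤ) ∣ v 4 := fun v ⟨_, _, h⟩ =>
    h.dvd hs 4
  have eM : (sM s : ℝ) = s 2 * s 3 * s 4 * s 5 * s 8 * s 9 := by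
    unfold sM
    push_cast
    rfl
  rw [eM]
  refine ⟨?_, fun d hd => ⟨?_, ?_, ?_⟩⟩
  · refine (xE2b_gen hR hZ _ (filter_subset _ _) (fun v hv => (mem_filter.1 hv).2) (hs.pos 4)
      le_rfl le_rfl fun v hv => ⟨d4 v (mem_filter.1 hv).2, one_dvd _, one_dvd _⟩).trans ?_
    refine div_le_div₀ (by positivity) (by linarith) (by positivity) (le_of_eq ?_)
    push_cast
    ring
  · have pd : (0 : ℝ) < d := Nat.cast_pos.2 hd
    refine (xE2b_gen hR hZ _ (filter_subset _ _) (fun v hv => (mem_filter.1 hv).2.1) (hs.pos 4)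
      hd le_rfl fun v hv => ⟨d4 v (mem_filter.1 hv).2.1, (mem_filter.1 hv).2.2, one_dvd _⟩).trans ?_
    refine div_le_div₀ (by positivity) (by linarith) (by positivity) (le_of_eq ?_)
    push_cast
    ring
  · have pd : (0 : ℝ) < d := Nat.cast_pos.2 hd
    refine (xE2b_gen hR hZ _ (filter_subset _ _) (fun v hv => (mem_filter.1 hv).2.1) (hs.pos 4)
      le_rfl hd fun v hv => ⟨d4 v (mem_filter.1 hv).2.1, one_dvd _, (mem_filter.1 hv).2.2⟩).trans ?_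
    refine div_le_div₀ (by positivity) (by linarith) (by positivity) (le_of_eq ?_)
    push_cast
    ring
  · have pd : (0 : ℝ) < d := Nat.cast_pos.2 hd
    have pl : 0 < Nat.lcm d (s 4) := Nat.lcm_pos hd (hs.pos 4)
    have pg : (0 : ℝ) < Nat.gcd d (s 4) := Nat.cast_pos.2 (Nat.gcd_pos_of_pos_left _ hd)
    have pl' : (0 : ℝ) < Nat.lcm d (s 4) := Nat.cast_pos.2 pl
    have e : (Nat.gcd d (s 4) : ℝ) * Nat.lcm d (s 4) = d * s 4 := by
      exact_mod_cast Nat.gcd_mul_lcm d (s 4)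
    refine (xE2b_gen hR hZ _ (filter_subset _ _) (fun v hv => (mem_filter.1 hv).2.1) pl
      le_rfl le_rfl fun v hv => ⟨Int.natCast_dvd.2 (Nat.lcm_dvd
        (Int.natCast_dvd.1 (mem_filter.1 hv).2.2) (Int.natCast_dvd.1 (d4 v (mem_filter.1 hv).2.1))),
        one_dvd _, one_dvd _⟩).trans ?_
    rw [← mul_div_mul_right _ _ pg.ne']
    refine div_le_div₀ (by positivity) (by gcongr; norm_num) (by positivity) (le_of_eq ?_)
    push_cast
    linear_combination (-(s 2 * s 3 * s 5 * s 8 * s 9 : ℝ)) * e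

end Pool.Agent.MP_e23604_nt.U

end
end

section

/-!
The replacement of the first prime.
-/

namespace Pool.Agent.MP_e23604_nt.U

theorem IE_pf : IE :=
  IE_of (E1_pf (E1a_pf IDL_pf)) (E2_pf E2a_pf E2b_pf E2c_pf)
    (E6_pf ECore_pf E4a_pf E4s_pf (E4b_pf E2a_pf E2b_pf E2c_pf E5a_pf) (E5_pf E2b_pf E2c_pf E5a_pf))

end Pool.Agent.MP_e23604_nt.U

end
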