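import Pool.Agent.Mg.Fe23604m.G104dcb
import Pool.Agent.Mg.Fe23604m.G36788b
import Pool.Agent.Mg.Fe23604m.G51e198

set_option linter.all false

/-!
The step `CCore`.
-/

open Finset
open scoped Classical

noncomputable section

namespace Pool.Agent.MP_e23604_nt.U

open P (lam shp gg PW cW Rough WW ES mu flat tau NN)

namespace KCoreJ

theorem card_nr (X Y : ℕ) {η1 η2 : ℝ} (h1 : 1 ≤ η1) (h2 : 1 ≤ η2) :
    ((nr X Y η1 η2).card : ℝ) ≤ 4 * η1 * Y + 4 * η2 * X := by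
  have h := P.card_near ⟨X, 2 * X, Y, 2 * Y, 0, 0, 0, 0, 0, 0, 0, 0, fun _ _ => 0⟩ (η1 := η1)
    (η2 := η2) (S1 := X) (S2 := Y) (by linarith) (by linarith) (by positivity) (by positivity)
    (by push_cast; linarith) (by push_cast; linarith)
  have e : nr X Y η1 η2 =
      P.Datum.near ⟨X, 2 * X, Y, 2 * Y, 0, 0, 0, 0, 0, 0, 0, 0, fun _ _ => 0⟩ η1 η2 := by
    ext z
    simp [nr, bx, P.Datum.near, P.Datum.bx]
  rw [e]
  have hX : (0 : ℝ) ≤ X := by positivity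
  have hY : (0 : ℝ) ≤ Y := by positivity
  nlinarith

theorem bdry {A a X Y H : ℕ} {L ρ : ℝ} (hL : 8 ≤ L) (h1 : 1 ≤ ρ) (hρ : ρ ≤ L ^ a)
    (hH : L ^ (a + 2 * A + 8) ≤ H) (hX : H ≤ X) (hY : H ≤ Y) :
    9 * L ^ 2 * √(((nr X Y (ρ * X / H) (ρ * Y / H)).card : ℝ) * X * Y) ≤ X * Y / (2 * L ^ A) := by
  have hL0 : 0 < L := by linarith
  have hH0 : (0 : ℝ) < H := lt_of_lt_of_le (by positivity) hH
  have hX' : (H : ℝ) ≤ X := by exact_mod_cast hX
  have hY' : (H : ℝ) ≤ Y := by exact_mod_cast hY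
  have a1 := card_nr X Y (η1 := ρ * X / H) (η2 := ρ * Y / H)
    (by rw [le_div_iff₀ hH0]; nlinarith) (by rw [le_div_iff₀ hH0]; nlinarith)
  have a2 : ρ / H ≤ 1 / (L ^ (A + 4)) ^ 2 := by
    rw [div_le_div_iff₀ hH0 (by positivity), one_mul]
    refine le_trans ?_ hH
    rw [← pow_mul, add_assoc, pow_add L a, show (A + 4) * 2 = 2 * A + 8 by ring]
    gcongr
  have a3 : √(((nr X Y (ρ * X / H) (ρ * Y / H)).card : ℝ) * X * Y) ≤ 3 * (X * Y) / L ^ (A + 4) := by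
    refine Real.sqrt_le_iff.2 ⟨by positivity, ?_⟩
    calc _ ≤ (4 * (ρ * X / H) * Y + 4 * (ρ * Y / H) * X) * X * Y := by gcongr
      _ = 8 * (X * Y) ^ 2 * (ρ / H) := by ring
      _ ≤ 9 * (X * Y) ^ 2 * (1 / (L ^ (A + 4)) ^ 2) := by gcongr; norm_num
      _ = _ := by ring
  calc _ ≤ 9 * L ^ 2 * (3 * (X * Y) / L ^ (A + 4)) := by gcongr
    _ = X * Y / (2 * L ^ A) * (54 / L ^ 2) := by rw [pow_add]; field_simp; ring
    _ ≤ _ := by
      refine mul_le_of_le_one_right (by positivity) ?_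
      rw [div_le_one (by positivity)]
      nlinarith

end KCoreJ

theorem CCore_pf (hPair : CPair) : CCore := by
  intro A0 a n hn
  obtain ⟨A, hA⟩ : ∃ A, A = A0 + a + 1 := ⟨_, rfl⟩
  obtain ⟨C, hC⟩ : ∃ C : ℕ, C = 0 := ⟨_, rfl⟩
  obtain ⟨h, hh⟩ : ∃ h, h = a + 2 * A0 + 8 + 1 := ⟨_, rfl⟩
  obtain ⟨κ0, hκ0⟩ : ∃ κ0 : ℝ, κ0 = 1 / n := ⟨_, rfl⟩
  have hn' : (0 : ℝ) < n := by exact_mod_cast hn
  have hκ : 0 < κ0 := by rw [hκ0]; positivity
  obtain ⟨b, hba, hb⟩ : ∃ b : ℕ, a ≤ b ∧ ((2 * A + 4 * C + 7 : ℕ) : ℝ) ≤ b * κ0 := by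
    refine ⟨⌈((2 * A + 4 * C + 7 : ℕ) : ℝ) / κ0⌉₊ + a, by omega, ?_⟩
    rw [← div_le_iff₀ hκ, Nat.cast_add _ a]
    exact (Nat.le_ceil _).trans (le_add_of_nonneg_right (Nat.cast_nonneg _))
  refine ⟨b, fun B hB => ?_⟩
  obtain ⟨X1, h1⟩ := P.sw_gg (2 * A + 4 * C + 3 * b + 2 * h + 5) B
  obtain ⟨X2, h2⟩ := P.wt_all B
  obtain ⟨X3, h3⟩ := P.log_pow_le h 10 2
  obtain ⟨X4, h4⟩ := P.log_pow_le h n 21126
  refine ⟨X1 + X2 + X3 + X4 + 3, fun N hN ι Pi dat c X Y U T0 Ω ρ hs hc hw => ?_⟩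
  have hU := hs.hU
  have hU' := hs.hU'
  have hT0 := hs.hT
  have hw1 := hw.w1
  have hw2 := hw.w2
  have hρ := hs.hρ
  have hg := (h2 N (by omega)).2.2
  obtain ⟨hLd, hLn⟩ := h4 N (by omega)
  have hW := (P.WW_bounds B (X := N) (by omega)).1
  obtain ⟨hHa, hHb⟩ := P.WW_bounds (a + 2 * A0 + 8) (X := N) (by omega)
  generalize WW (a + 2 * A0 + 8) N = H at hHa hHb
  have hsw := h1 N (by omega)
  have hH : (H : ℝ) ≤ Real.log N ^ h := by
    rw [hh, pow_succ, mul_comm]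
    exact hHb.trans (by gcongr; linarith)
  have hH0 : (0 : ℝ) < H := lt_of_lt_of_le (pow_pos (by linarith) _) hHa
  have hH1 : 1 ≤ H := by exact_mod_cast hH0
  have hH10 : (2 * H) ^ 10 ≤ N := by
    have : ((2 : ℝ) * H) ^ 10 ≤ N := le_trans (by gcongr) (h3 N (by omega)).2
    exact_mod_cast this
  have hHn : H ^ n ≤ N := by
    have : (H : ℝ) ^ n ≤ N := le_trans (pow_le_pow_left₀ hH0.le (by linarith) n) hLn
    exact_mod_cast this
  have hHX : H ≤ X := (Nat.pow_le_pow_iff_left (by omega)).1 (hHn.trans hs.hX)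
  have hHY : H ≤ Y := (Nat.pow_le_pow_iff_left (by omega)).1 (hHn.trans hs.hY)
  have hX3 : (3 : ℝ) ≤ N := by exact_mod_cast (show 3 ≤ N by omega)
  have hE := P.xCore_log (X := N) (by linarith)
  obtain ⟨L, hL⟩ : ∃ L, L = Real.log N := ⟨_, rfl⟩
  obtain ⟨W, hWd⟩ : ∃ W, W = WW B N := ⟨_, rfl⟩
  rw [← hWd] at hg hW hsw ⊢
  have hL1 : 1 ≤ L := by linarith
  have hL0 : 0 < L := by linarith
  have hU0 : 0 ≤ U := le_trans (by positivity) hU
  have hex : ∀ π, ∃ e : ℕ, π ∈ Pi → e < Nat.log 2 (N ^ 2) + 1 ∧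
      ((dat π).m : ℝ) * H * (2 ^ e : ℕ) ≤ U ∧ U < (dat π).m * (2 ^ e : ℕ) * (2 * H : ℕ) ∧
      N ^ 8 ≤ (2 ^ e) ^ 10 ∧ 2 * 2 ^ e * H ≤ N ^ 3 := by
    intro π
    by_cases hπ : π ∈ Pi
    · obtain ⟨e, he⟩ := P.xCore_exp (by omega) hU hU' (hc π hπ).2.1.m_pos (hc π hπ).2.2.1 hH1 hH10
      exact ⟨e, fun _ => he⟩
    · exact ⟨0, fun h => absurd h hπ⟩
  choose e he using hex
  rw [← hL] at hw2 hc hρ hHa
  rw [← hκ0] at hw2
  have hΩ0 : 0 ≤ Ω :=
    (Finset.sum_nonneg fun π hπ => div_nonneg (hc π hπ).1 (by positivity)).trans hw1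
  have hΩ1 : Ω ≤ Ω * L ^ (2 * C) := by rw [hC, mul_zero, pow_zero, mul_one]
  obtain ⟨Q, hQ1, hQ2⟩ : ∃ Q : ℕ, (∀ π ∈ Pi, (dat π).K ≤ Q) ∧ Q ^ 5 ≤ N := by
    refine ⟨Pi.sup fun π => (dat π).K, fun π hπ => Finset.le_sup (f := fun π => (dat π).K) hπ, ?_⟩
    rcases Pi.eq_empty_or_nonempty with rfl | hne
    · simp
    · obtain ⟨π, hπ, e⟩ := Finset.exists_mem_eq_sup Pi hne fun π => (dat π).K
      rw [e]
      exact (hc π hπ).2.2.2.1
  have hgb : ∀ u : ℤ, 0 < u → (u : ℝ) ≤ U → |gg W u| ≤ 3 * L := by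
    intro u hu hu'
    rw [hL]
    refine hg.1 u hu.le ?_
    have : (u : ℝ) ≤ (N : ℝ) ^ 3 := (hu'.trans hU').trans
      (pow_le_pow_right₀ (by linarith) (by norm_num))
    exact_mod_cast this
  have hK1 : ∀ π ∈ Pi, 1 ≤ (dat π).K := fun π hπ =>
    Nat.mul_pos (hc π hπ).2.1.K0_pos (Int.natAbs_pos.2 (hc π hπ).2.1.det)
  have p1 : ∀ π ∈ Pi, |(dat π).T X Y (gg W)| ≤
      9 * L ^ 2 * ∑ z ∈ nr X Y (ρ * X / H) (ρ * Y / H), |(dat π).F z| +
      6 * L * T0 * (1 / ((dat π).t : ℝ) * ∑ j ∈ range (2 * H),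
        P.NN (gg W) ((2 ^ e π : ℕ) * j) (2 ^ e π) (dat π).K) := by
    intro π hπ
    obtain ⟨-, e2, e3, -, -⟩ := he π hπ
    obtain ⟨-, ok, -, -, q1, q2, q3⟩ := hc π hπ
    have hη : ∀ x y : ℝ, 0 ≤ x → U * x ≤ y * |((dat π).det : ℝ)| →
        ((dat π).m : ℝ) * (2 ^ e π : ℕ) * x ≤ y / H * |((dat π).det : ℝ)| := by
      intro x y hx hy
      rw [div_mul_eq_mul_div, le_div_iff₀ hH0]
      refine le_trans (le_of_eq_of_le (by ring) (mul_le_mul_of_nonneg_right e2 hx)) hy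
    have := hPair (dat π) X Y U T0 (3 * L) _ _ ok hT0 (by linarith) (gg W) hgb (2 ^ e π) (2 * H)
      Nat.one_le_two_pow e3 (hη _ _ (abs_nonneg _) q2) (hη _ _ (abs_nonneg _) q3)
    refine this.trans (add_le_add (le_of_eq (by ring)) ?_)
    have ht : (0 : ℝ) < (dat π).t := by exact_mod_cast ok.t_pos
    have a1 : T0 / (dat π).t + 1 ≤ 2 * T0 * (1 / (dat π).t) := by
      have : 1 ≤ T0 / (dat π).t := by
        rw [le_div_iff₀ ht, one_mul]
        exact q1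
      calc _ ≤ T0 / (dat π).t + T0 / (dat π).t := by linarith
        _ = _ := by ring
    have a2 : 0 ≤ ∑ j ∈ range (2 * H), P.NN (gg W) ((2 ^ e π : ℕ) * j) (2 ^ e π) (dat π).K :=
      Finset.sum_nonneg fun j _ => Finset.sum_nonneg fun c _ => abs_nonneg _
    calc _ ≤ 3 * L * (2 * T0 * (1 / (dat π).t)) * ∑ j ∈ range (2 * H),
          P.NN (gg W) ((2 ^ e π : ℕ) * j) (2 ^ e π) (dat π).K := by gcongr
      _ = _ := by ring
  have p2 := xECo_sum Pi (gg W) (fun π => (dat π).m) (fun π => (dat π).t) (fun π => (dat π).K) e c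
    (H := H) (Q := Q) (E := Nat.log 2 (N ^ 2) + 1) (U := U) (ε := 1 / L ^ (A + 2 * C + 2)) (Ω := Ω)
    (Θ := (⌊L ^ b⌋₊ : ℝ) ^ 3 * (4 * H / L ^ (2 * A + 4 * C + 3 * b + 2 * h + 5)) ^ 2 * Ω +
      96 * (3 * L) ^ 2 * (Ω / L ^ (2 * A + 4 * C + 7))) hH1 (by positivity) hU0 (by positivity)
    (fun π hπ => (hc π hπ).1)
    (fun π hπ => ⟨(hc π hπ).2.1.m_pos, (hc π hπ).2.1.t_pos, hK1 π hπ, hQ1 π hπ, (he π hπ).1,
      (he π hπ).2.1⟩) hw1 (fun π hπ j hj => by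
      obtain ⟨-, -, -, e4, e5⟩ := he π hπ
      obtain ⟨w, hw⟩ : ∃ w : ℕ, w = 2 ^ e π := ⟨_, rfl⟩
      have hw1' : 1 ≤ w := by rw [hw]; exact Nat.one_le_two_pow
      rw [← hw] at e4 e5 ⊢
      have b1 : Q ^ 2 ≤ w := by
        refine (Nat.pow_le_pow_iff_left (n := 10) (by norm_num)).1 (le_trans ?_ e4)
        calc (Q ^ 2) ^ 10 = (Q ^ 5) ^ 4 := by ring
          _ ≤ N ^ 4 := by gcongr
          _ ≤ N ^ 8 := Nat.pow_le_pow_right (by omega) (by norm_num)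
      have b2 : N ≤ w ^ 2 := by
        refine (Nat.pow_le_pow_iff_left (n := 5) (by norm_num)).1 ?_
        calc N ^ 5 ≤ N ^ 8 := Nat.pow_le_pow_right (by omega) (by norm_num)
          _ ≤ w ^ 10 := e4
          _ = _ := by ring
      have b3 : w * j + w ≤ 2 * w * H := by nlinarith
      have b4 : √(N : ℝ) ≤ ((2 * w * H : ℕ) : ℝ) := by
        refine (Real.sqrt_le_left (by positivity)).2 ?_
        have : w ≤ 2 * w * H := by nlinarith
        exact_mod_cast b2.trans (Nat.pow_le_pow_left this 2)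
      refine P.xCore_scale (gg W) _ hw1' b1 _ hΩ0 (fun d => le_trans ?_ hw1) (fun d hd => ?_)
        (by positivity) (fun u hu => ?_) (fun d hd hd' r => ?_)
      · exact Finset.sum_le_sum_of_subset_of_nonneg (filter_subset _ _) fun π hπ _ =>
          div_nonneg (hc π hπ).1 (by positivity)
      · have c1 : L ^ b < d := Nat.lt_of_floor_lt hd
        refine (hw2 d ((pow_le_pow_right₀ hL1 hba).trans c1.le)).trans ?_
        rw [div_eq_mul_inv]
        gcongr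
        calc (d : ℝ) ^ (-κ0) ≤ (L ^ b) ^ (-κ0) :=
              Real.rpow_le_rpow_of_nonpos (by positivity) c1.le (by linarith)
          _ = L ^ (-((b : ℝ) * κ0)) := by
              rw [← Real.rpow_natCast, ← Real.rpow_mul hL0.le]; ring_nf
          _ ≤ L ^ (-((2 * A + 4 * C + 7 : ℕ) : ℝ)) :=
              Real.rpow_le_rpow_of_exponent_le hL1 (by linarith)
          _ = _ := by rw [Real.rpow_neg hL0.le, Real.rpow_natCast]
      · rw [hL]
        have c1 := mem_Ico.1 hu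
        have c2 : ((w * j + w : ℕ) : ℤ) ≤ ((N ^ 3 : ℕ) : ℤ) := by exact_mod_cast b3.trans e5
        push_cast at c2
        exact hg.1 u (le_trans (by positivity) c1.1) (by linarith [c1.2])
      · have c1 : d ≤ W := by
          have : (d : ℝ) ≤ W := by
            calc (d : ℝ) ≤ ⌊L ^ b⌋₊ := by exact_mod_cast hd'
              _ ≤ L ^ b := Nat.floor_le (by positivity)
              _ ≤ L ^ B := pow_le_pow_right₀ hL1 hB
              _ ≤ W := by rw [hL]; exact hW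
          exact_mod_cast this
        have c2 : ((w * j + w : ℕ) : ℝ) ≤ ((2 * w * H : ℕ) : ℝ) := by exact_mod_cast b3
        have c3 := hsw d hd c1 r _ b4 (by exact_mod_cast e5)
        have c4 := c3 ((w : ℤ) * j + w) (by positivity) (by push_cast at c2 ⊢; exact c2)
        have c5 := c3 ((w : ℤ) * j) (by positivity) (by
          have : (0 : ℝ) ≤ w := by positivity
          push_cast at c2 ⊢
          linarith)
        rw [P.xCore_psi _ (by positivity)]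
        refine (abs_sub _ _).trans ((add_le_add c4 c5).trans (le_of_eq ?_))
        rw [← hL]
        push_cast
        ring)
  have p3 := P.xCore_num (A := A) (C := C) (h := h) (b := b) (L := L) (D := ⌊L ^ b⌋₊) (H := H)
    (by linarith) (hL ▸ hE) (by positivity) (Nat.floor_le (by positivity)) hH0.le (hL ▸ hH) hΩ0 hΩ0
    hΩ1
  have p1' : ∀ π ∈ Pi, c π * |(dat π).T X Y (gg W)| ≤
      9 * L ^ 2 * (∑ z ∈ nr X Y (ρ * X / H) (ρ * Y / H), c π * |(dat π).F z|) +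
      6 * L * T0 * (c π / ((dat π).t : ℝ) * ∑ j ∈ range (2 * H),
        P.NN (gg W) ((2 ^ e π : ℕ) * j) (2 ^ e π) (dat π).K) := fun π hπ =>
    (mul_le_mul_of_nonneg_left (p1 π hπ) (hc π hπ).1).trans
      (le_of_eq (by rw [← Finset.mul_sum]; ring))
  have p4 := Finset.sum_le_sum p1'
  rw [Finset.sum_add_distrib, ← Finset.mul_sum, ← Finset.mul_sum] at p4
  have p5 := hw.mass (nr X Y (ρ * X / H) (ρ * Y / H)) (filter_subset _ _)
  have p6 := KCoreJ.bdry (by linarith) hs.h1 hρ hHa hHX hHY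
  rw [← hL]
  refine p4.trans ?_
  rw [← add_halves (Ω * X * Y / L ^ A0)]
  refine add_le_add ?_ ?_
  · calc _ ≤ 9 * L ^ 2 * _ := mul_le_mul_of_nonneg_left p5 (by positivity)
      _ = Ω * _ := ?_
      _ ≤ Ω * (X * Y / (2 * L ^ A0)) := mul_le_mul_of_nonneg_left p6 hΩ0
      _ = _ := by ring
    ring
  · calc _ ≤ 6 * L * T0 * _ := mul_le_mul_of_nonneg_left p2 (by positivity)
      _ = U * T0 * _ := ?_
      _ ≤ U * T0 * (Ω / L ^ A) := mul_le_mul_of_nonneg_left p3 (by positivity)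
      _ ≤ L ^ a * X * Y * (Ω / L ^ A) :=
        mul_le_mul_of_nonneg_right (hs.hUT.trans (by gcongr)) (by positivity)
      _ = Ω * X * Y / L ^ A0 / L := by rw [hA, pow_succ, pow_add]; field_simp
      _ ≤ _ := div_le_div_of_nonneg_left (by positivity) two_pos (by linarith)
    ring

end Pool.Agent.MP_e23604_nt.U
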