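import Pool.Agent.Mg.Fe23604m.G5a860c
import Pool.Agent.Mg.Fe23604m.G160902
import Pool.Agent.Mg.Fe23604m.Ge36c45

set_option linter.all false

/-!
The classes with values in the ring of power series: definitions and statements.
-/

set_option autoImplicit false

open Finset QuadraticAlgebra
open scoped Classical

namespace Pool.Agent.MP_e23604_nt.N

open B R S W V X

section

variable {R R' : Type} [CommRing R] [CommRing R']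

/-- the multiplicative weights -/
noncomputable def uu (φ : Zw →+* R) (f : Fn) (ρ : Finset ℕ) (q e : ℕ) (γ : R) : Wt R := fun l i =>
  if l ∈ ρ then φ (ω ^ (f l i).val) else if l = q then γ ^ (i.val % 3 ^ e) else 1

/-- the weights of the classes -/
noncomputable def wv (φ : Zw →+* R) (f : Fn) (ρ : Finset ℕ) (q e : ℕ) (γ : R) : Wt R := fun l i =>
  if l ∈ ρ then
    if l % 3 = 2 then φ (∑ t ∈ range (f l i).val, ω ^ t) else φ (ω ^ (f l i).val)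
  else if l = q then if i.val < ml l / 3 then γ ^ (i.val % 3 ^ e) else 0 else i.val

theorem uu_map (ϑ : R →+* R') (φ : Zw →+* R) (f : Fn) (ρ : Finset ℕ) (q e : ℕ) (γ : R) :
    (fun l i => ϑ (uu φ f ρ q e γ l i)) = uu (ϑ.comp φ) f ρ q e (ϑ γ) := by
  funext l i
  simp only [uu, apply_ite ϑ, map_pow ϑ, map_one, RingHom.comp_apply]

theorem wv_map (ϑ : R →+* R') (φ : Zw →+* R) (f : Fn) (ρ : Finset ℕ) (q e : ℕ) (γ : R) :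
    (fun l i => ϑ (wv φ f ρ q e γ l i)) = wv (ϑ.comp φ) f ρ q e (ϑ γ) := by
  funext l i
  simp only [wv, apply_ite ϑ, map_pow ϑ, map_zero, map_natCast, RingHom.comp_apply]

theorem kt_map (ϑ : R →+* R') (H : HS) (φ : Zw →+* R) (M : Zw) (w : Wt R) (n : Finset ℕ)
    (h : GQ) : ϑ (H.kt φ M w n h) = H.kt (ϑ.comp φ) M (fun l i => ϑ (w l i)) n h := by
  simp only [HS.kt, HS.F, wp, map_sum, map_mul, map_prod, RingHom.comp_apply]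

theorem wp_congr {w w' : Wt R} {n : Finset ℕ} (h : ∀ l ∈ n, w l = w' l) (i : JJ) :
    wp w n i = wp w' n i := prod_congr rfl fun l hl => by rw [h l hl]

theorem kt_congr (H : HS) (φ : Zw →+* R) (M : Zw) {w w' : Wt R} {n : Finset ℕ}
    (h : ∀ l ∈ n, w l = w' l) : H.kt φ M w n = H.kt φ M w' n := by
  funext g
  simp only [HS.kt, wp_congr h]

theorem cf_cf (φ : Zw →+* R) : cf (cf φ) = φ := by
  refine RingHom.ext fun b => ?_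
  simp [cf]

end

section

variable {Λ : Type} [CommRing Λ]

theorem cf_ph (Z : Dt Λ) (ε : Bool) : cf (Z.ph ε) = Z.ph (!ε) := by
  cases ε
  exacts [cf_cf _, rfl]

/-- the conductor modulo three on the side `ε` -/
def sg (Z : Dt Λ) (ε : Bool) : ZMod 3 := if ε = Z.s₀ then -Z.r else Z.r

/-- the data come from the system `H` -/
structure Lk (Z : Dt Λ) (H : HS) (f : Fn) : Prop where
  ok : Z.Ok
  tau : ∀ l : ℕ, l.Prime → l % 3 = 2 → Al l (Z.K.τ (-l)) = 1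
  att : ∀ n g, Z.At n g = ((Al (Z.q n) g).val : ℕ)
  cA : ∀ g ∈ GK, Z.χ (!Z.s₀) g = H.χ Z.r g + fs f Z.r.primeFactors (Av g)
  cB : ∀ g ∈ GK, Z.χ Z.s₀ g = H.χ (-Z.r) g - fs f Z.r.primeFactors (Av g)
  ori : fs f Z.r.primeFactors (Lu ω) + H.j Z.r = 0
  jn : H.j 2 = -H.j 1

/-- the sums -/
noncomputable def kt0 (Z : Dt Λ) (H : HS) (f : Fn) (ρ : Finset ℕ) (M : ℕ → Zw)
    (s : Finset ℕ → Bool) (n : ℕ) (S : Finset ℕ) : GQ → Λ :=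
  H.kt (Z.ph (s S)) (M n) (wv (Z.ph (!Z.s₀)) f ρ (Z.q n) n (1 + Z.E.T)) (insert (Z.q n) (ρ ∪ S))

/-- the classes -/
noncomputable def kk (Z : Dt Λ) (H : HS) (f : Fn) (ρ : Finset ℕ) (M : ℕ → Zw)
    (s : Finset ℕ → Bool) (n : ℕ) (S : Finset ℕ) (g : GQ) : Λ :=
  kt0 Z H f ρ M s n S (Z.K.τ (-Z.q n) * g * (Z.K.τ (-Z.q n))⁻¹ * g⁻¹)

/-- the classes of level `3 ^ n` -/
noncomputable def kap (Z : Dt Λ) (H : HS) (f : Fn) : ℕ → Finset ℕ → GQ → Λ :=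
  kk Z H f Z.r.primeFactors (fun n => 3 ^ n) Z.sd

/-- the residual classes -/
noncomputable def dd (Z : Dt Λ) (H : HS) (f : Fn) : ℕ → Finset ℕ → GQ → Λ :=
  kk Z H f ∅ (fun _ => pw) Z.sr

/-- the conditions on the ideals, the levels and the sides -/
structure Fam (Z : Dt Λ) (H : HS) (f : Fn) (b : ℕ → Ideal Λ) (p : ℕ → ℕ → Prop)
    (s : Finset ℕ → Bool) (r : ℕ) (M : ℕ → Zw) : Prop where
  dvd : r ∣ Z.r
  le : ∀ n, Z.E.m ^ n ≤ b n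
  md : ∀ n, M n ∣ 3 ^ (n + 1)
  st : ∀ n, M n ∣ star (M n)
  mb : ∀ n ε, Z.ph ε (M n) ∈ b n
  pr : ∀ n l, p n l → l.Prime ∧ pw * M n ∣ l + 1 ∧ ¬ l ∣ r ∧ l ≠ Z.q n
  sd : ∀ n S, (∀ l ∈ S, p n l) → sd (insert (Z.q n) (r.primeFactors ∪ S)) = sg Z (s S)
  flip : ∀ l S, l ∉ S → s (insert l S) = !s S
  chi : ∀ n ε, ∀ g ∈ GK, Z.ph ε (ω ^ (H.χ (sg Z ε) g).val) *
    Z.ph (!Z.s₀) (ω ^ (fs f r.primeFactors (Av g)).val) - Z.ph ε (ω ^ (Z.χ ε g).val) ∈ b n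
  ori : ∀ n ε, Z.ph (!Z.s₀) (ω ^ (fs f r.primeFactors (Lu ω)).val) *
    Z.ph ε (ω ^ (H.j (sg Z ε)).val) - 1 ∈ b n

end

/-- the standard weights -/
def WT_st : Prop := ∀ (R : Type) [CommRing R] (φ₀ : Zw →+* R) (f : Fn) (ρ n : Finset ℕ) (q e : ℕ)
  (γ : R), Pn n → q ∈ n → q ∉ ρ → 3 ^ (e + 1) ∣ q + 1 → γ ^ 3 ^ e = 1 →
  (∀ l ∈ n, l ∉ ρ → l ≠ q → l % 3 = 2 ∧ (l : R) + 1 = 0) →
  Mt n (uu φ₀ f ρ q e γ) ∧ Af (n.erase q) (wv φ₀ f ρ q e γ) (uu φ₀ f ρ q e γ) ∧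
  wv φ₀ f ρ q e γ q = th (uu φ₀ f ρ q e γ q) ∧
  (∀ b : JJ, wp (uu φ₀ f ρ q e γ) n b =
    φ₀ (ω ^ (fs f (n ∩ ρ) b).val) * γ ^ ((b q).val % 3 ^ e)) ∧
  (lu q ω).val % 3 ^ e = 0 ∧
  ∀ (H : HS) (φ : Zw →+* R) (M : Zw), M ≠ 0 → φ M = 0 →
    φ₀ (ω ^ (fs f (n ∩ ρ) (Lu ω)).val) * φ (ω ^ (H.j (sd n)).val) = 1 →
    H.Sh φ M (wv φ₀ f ρ q e γ) (uu φ₀ f ρ q e γ) n

/-- statements about all data -/
def AllZ (S : ∀ (Λ : Type) [CommRing Λ], Dt Λ → HS → Fn → Prop) : Prop :=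
  ∀ (Λ : Type) [CommRing Λ] (Z : Dt Λ) (H : HS) (f : Fn), Lk Z H f → S Λ Z H f

/-- the characters on the decomposition group at three -/
def LO_st : Prop := AllZ fun _ _ Z H _ => ∃ D : Subgroup GQ, D ≤ V3.D ∧
  (∀ g ∈ V3.D, ∀ h ∈ V3.D, g ∉ D → h ∉ D → g * h ∈ D) ∧
  (∀ g ∈ D, ∀ l : ℕ, l.Prime → l ≠ 3 → Al l g = (kum 2 g).val • lu l ω) ∧ Adt GK (kum 2) ∧
  ∀ g ∈ V3.D, (∀ n, Z.At n g = 0) ∧
    ∀ ε, Z.χ ε g = H.χ (sg Z ε) g - H.j (sg Z ε) * kum 2 g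

/-- the two families -/
def FAM_st : Prop := AllZ fun Λ _ Z H f =>
  Fam Z H f (fun n => Z.E.m ^ n) Z.ok Z.sd Z.r (fun n => 3 ^ n) ∧
  Fam Z H f Z.pn (fun n l => Z.ok n l ∨ l ∈ Bn Z.r) Z.sr 1 (fun _ => pw) ∧
  (∀ n, Z.q n % 3 = 2 ∧ ¬ Z.q n ∣ Z.r ∧ (1 + Z.E.T) ^ 3 ^ n - 1 ∈ Z.E.m ^ n) ∧
  (∀ l ∈ Z.r.primeFactors, f l 1 ≠ 0) ∧ ∀ b : Ideal Λ,
    IsUnit (2 : Λ ⧸ b) ∧ ∀ v : Λ ⧸ b, IsUnit v → ∃ v', v' ∉ Z.E.m ∧ Ideal.Quotient.mk b v' = v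

/-- the classes form systems -/
def KS_st : Prop := AllZ fun _ _ Z H f => ∀ b p s r M, Fam Z H f b p s r M →
  Z.Ks b p s r (kk Z H f r.primeFactors M s) ∧ ∀ n S, (∀ l ∈ S, p n l) → ∀ h,
    H.H0 (pw * M n) (insert (Z.q n) (r.primeFactors ∪ S)) h →
    kk Z H f r.primeFactors M s n S h - Z.E.T * kt0 Z H f r.primeFactors M s n S h ∈ b n

/-- the reduction of the classes -/
def RED_st : Prop := AllZ fun _ _ Z H f => H.N1 → ∀ n S, (∀ l ∈ S, Z.ok n l) →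
  ∃ v, v ∉ Z.E.m ∧ ∀ g ∈ GK, kap Z H f n S g -
    v * (∏ ϖ ∈ Sz Z.r, (Z.ga n (Z.K.σ ϖ) - 1)) * dd Z H f n (S ∪ Bn Z.r) g ∈ Z.pn n

/-- the bottom residual class -/
def BSE_st : Prop := AllZ fun _ _ Z H f => H.N1 → ∀ n, ∃ h ∈ GK, ∃ c ∉ GK, Z.At n h = 0 ∧
  dd Z H f n ∅ h - dd Z H f n ∅ (c * h * c⁻¹) ∉ Z.E.m

/-- divisibility at the origin -/
def DVS_st : Prop := AllZ fun _ _ Z H f => ∀ n, ∀ g ∈ GK, ∀ h ∈ GK,
  3 * kap Z H f n ∅ (g * h * g⁻¹ * h⁻¹) ∈ Ideal.span {Z.E.T ^ 2} ⊔ Z.E.m ^ n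

/-- the value at the bottom -/
def ENC_st : Prop := AllZ fun _ _ Z H f => ∀ N : ℕ, N • yT H Z.r.primeFactors f ⊥ = 0 →
  ∀ n, ∀ g ∈ GK, Al (Z.q n) g = 0 →
    N * 3 ^ (Z.r + 1) * kap Z H f n ∅ g ∈ Ideal.span {Z.E.T ^ 2} ⊔ Z.E.m ^ n

/-- the theorem of this part -/
def CLS_st : Prop := AllZ fun _ _ Z H f => H.N1 → Z.Cls (kap Z H f) (dd Z H f)

end Pool.Agent.MP_e23604_nt.N
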