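import Pool.Agent.Mg.Fe23604m.G2be4e0
import Pool.Agent.Mg.Fe23604m.Gd767a4
import Pool.Agent.Mg.Fe23604m.Gff9688

set_option linter.all false

section

/-!
The point of the first system has infinite order.
-/

set_option autoImplicit false

open Finset QuadraticAlgebra
open scoped Classical

namespace Pool.Agent.MP_e23604_nt.X

open B R S W

/-- the bottom class is divisible by the square of the variable when the point `y` is torsion -/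
def Dv {Λ : Type} [CommRing Λ] (Z : V.Dt Λ) (κ : ℕ → Finset ℕ → GQ → Λ) (y : Pt) : Prop :=
  ∀ k : ℕ, k ≠ 0 → k • y = 0 → ∃ c : ℕ, c ≠ 0 ∧ ∀ n, ∀ g ∈ UM (9 * Z.r), N.Al (Z.q n) g = 0 →
    c * κ n ∅ g ∈ Ideal.span {Z.E.T ^ 2} ⊔ Z.E.m ^ n

/-- the classes of the first system -/
def CLSN_st : Prop := ∃ s : Bool, ∀ (Λ : Type) [CommRing Λ] (Z : V.Dt Λ) (H : N.HS) (f : Fn), H.N1 →
  Z.s₀ = s → Z.Ok → Std Z →
  (∀ g ∈ GK, Z.χ (!Z.s₀) g = H.χ Z.r g + fs f Z.r.primeFactors (N.Av g)) →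
  (∀ g ∈ GK, Z.χ Z.s₀ g = H.χ (-Z.r) g - fs f Z.r.primeFactors (N.Av g)) →
  fs f Z.r.primeFactors (N.Lu ω) + H.j Z.r = 0 →
  ∃ κ d, Z.Cls κ d ∧ Dv Z κ (yT H Z.r.primeFactors f ⊥)

theorem lk_EndN {Λ : Type} [CommRing Λ] {Z : V.Dt Λ} {H : N.HS} {f : Fn} (hE : N.ENC_st)
    (h : N.Lk Z H f) : Dv Z (N.kap Z H f) (yT H Z.r.primeFactors f ⊥) := fun k k0 e =>
  ⟨k * 3 ^ (Z.r + 1), by positivity, fun n g hg e' => by
    simpa using hE _ Z H f h k e n g hg.1 e'⟩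

/-- the last step -/
theorem end_of (hL : N.LU_st) (hA : N.AL_st) {O : Type} [CommRing O] [IsDomain O]
    (Z : V.Dt (PowerSeries O)) (h : Z.Ok) (hS : Std Z) {κ : ℕ → Finset ℕ → GQ → PowerSeries O}
    {y : Pt} (hD : Dv Z κ y)
    (hM : ∀ g₀ : GG, Inc GK g₀ → ¬ Z.E.T ∣ Z.E.ev (Z.th Z.s₀) g₀ - 1 →
      ¬ Z.E.T ^ 2 ∣ Z.E.ev (fun n => κ n ∅) g₀) (n : ℕ) (hn : n ≠ 0) : n • y ≠ 0 := fun e => by
  obtain ⟨g₀, g1, g2, g3⟩ := ex_G0 hL hA Z h hS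
  obtain ⟨c, c0, hc⟩ := hD n hn e
  exact hM g₀ g2 (g3 _) (sq_G0 Z.E c0 fun m => hc m _ (g1 m).1 (g1 m).2)

theorem ENDN_of (hL : N.LU_st) (hA : N.AL_st) (hX : V.LMX_st) (hB : V.LB_st) (hM : V.MACH_st)
    (hD : DAT_st) (hC : CLSN_st) : ENDN_st := by
  intro H r f χ χ' h1 hP e1 e2 e3
  obtain ⟨O, k, _, _, _, _, E, ϖ, red, hE⟩ := hX
  obtain ⟨s, hC⟩ := hC
  obtain ⟨Z, rfl, rfl, rfl, rfl, rfl, z1, z2, z3⟩ := hD _ E χ χ' r s hP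
  obtain ⟨κ, d, c1, c2⟩ := hC _ Z H f h1 rfl z1 z3 e1 e2 e3
  exact end_of hL hA Z z1 z3 c2 fun g₀ =>
    hM O k Z ϖ red κ d g₀ z1 (fun ε => hB _ _ (z1.tw ε)) hE c1 hP.ht z2 hP.hb

end Pool.Agent.MP_e23604_nt.X

end

section

/-!
The classes of the first system satisfy the hypotheses of the horizontal limit.
-/

set_option autoImplicit false

open Finset QuadraticAlgebra
open scoped Classical

namespace Pool.Agent.MP_e23604_nt.N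

open B R S W V X

theorem TR_ok (r : ℕ) (h0 : r ≠ 0) (_ : ¬ 3 ∣ r) : ∀ ϖ, ϖ ∈ V.Tr r ↔ PP ϖ ∧ ϖ ∣ r := by
  obtain ⟨T, hT, -⟩ := ex_primes_LOW PLK_ok (Nat.cast_ne_zero.2 h0 : (r : Zw) ≠ 0)
  exact Classical.epsilon_spec (p := fun T : Finset Zw => ∀ ϖ, ϖ ∈ T ↔ PP ϖ ∧ ϖ ∣ r) ⟨T, hT⟩

theorem CLS_pf (hF : FAM_st) (hK : KS_st) (hR : RED_st) (hB : BSE_st) (hD : DVS_st) : CLS_st := by
  intro Λ _ Z H f h h1
  obtain ⟨f1, f2, -⟩ := hF Λ Z H f h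
  refine ⟨(hK Λ Z H f h _ _ _ _ _ f1).1, ?_, ⟨0, fun n S hS => ?_⟩,
    ⟨∅, empty_subset _, fun n _ => hB Λ Z H f h h1 n⟩,
    1, fun n g hg k hk => by simpa using hD Λ Z H f h n g hg k hk⟩
  · have := (hK Λ Z H f h _ _ _ _ _ f2).1
    rwa [Nat.primeFactors_one] at this
  · simp only [pow_zero, one_mul, zero_add, pow_one]
    exact hR Λ Z H f h h1 n S hS

theorem CLSN_pf (hC : CLS_st) (hE : ENC_st) : CLSN_st := by
  refine ⟨true, fun Λ _ Z H f h1 _ ok sd a b c => ?_⟩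
  have h : Lk Z H f := ⟨ok, sd.gen, sd.at', a, b, c, h1.jn⟩
  refine ⟨_, _, hC Λ Z H f h h1, fun k k0 e => ⟨k * 3 ^ (Z.r + 1), by positivity,
    fun n g hg e' => ?_⟩⟩
  simpa using hE Λ Z H f h k e n g hg.1 e'

end Pool.Agent.MP_e23604_nt.N

end
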