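import Pool.Agent.Mg.Fe23604m.Gff9688

set_option linter.all false

section

/-!
The standard weights.
-/

set_option autoImplicit false

open Finset QuadraticAlgebra
open scoped Classical

namespace Pool.Agent.MP_e23604_nt.N

open B R S W V X

theorem geo_WT : ∀ x y : ZMod 3, (∑ t ∈ range (x + y).val, (ω : Zw) ^ t) =
    ω ^ y.val * ∑ t ∈ range x.val, ω ^ t + ∑ t ∈ range y.val, ω ^ t := by decide

theorem ml_WT {l : ℕ} (h : l % 3 = 2) : ml l = l + 1 := by rw [ml, if_pos h]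

theorem pow_WT {R : Type} [CommRing R] {γ : R} {N k : ℕ} [NeZero N] (h : γ ^ k = 1) (hk : k ∣ N)
    (a b : ZMod N) : γ ^ ((a + b).val % k) = γ ^ (a.val % k) * γ ^ (b.val % k) := by
  rw [ZMod.val_add, Nat.mod_mod_of_dvd _ hk, ← pow_eq_pow_mod _ h, ← pow_eq_pow_mod _ h,
    ← pow_eq_pow_mod _ h, pow_add]

theorem val_WT {R : Type} [CommRing R] {N : ℕ} [NeZero N] (h : (N : R) = 0) (a b : ZMod N) :
    (((a + b).val : ℕ) : R) = a.val + b.val := by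
  have e := congrArg (Nat.cast : ℕ → R) (Nat.mod_add_div (a.val + b.val) N)
  rw [Nat.cast_add, Nat.cast_mul, h, zero_mul, add_zero, Nat.cast_add] at e
  rw [ZMod.val_add, e]

theorem prod_WT {R : Type} [CommRing R] (φ : Zw →+* R) (s : Finset ℕ) (a : ℕ → ZMod 3) :
    ∏ l ∈ s, φ (ω ^ (a l).val) = φ (ω ^ (∑ l ∈ s, a l).val) := by
  induction s using Finset.induction_on with
  | empty => simp
  | insert l s h ih => rw [prod_insert h, sum_insert h, w_add, map_mul, ih]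

theorem WT_pf (hLU : LU_st) (hC : SHC_st) : WT_st := by
  intro R _ φ₀ f ρ n q e γ hn hq hρ hd hγ ho
  have q3 : q % 3 = 2 := by
    have : 3 ∣ q + 1 := (dvd_pow_self 3 (Nat.succ_ne_zero e)).trans hd
    omega
  have mq := ml_WT q3
  have d1 : 3 ^ e ∣ ml q := mq ▸ (pow_dvd_pow 3 (Nat.le_succ e)).trans hd
  have d2 : 3 ^ e ∣ ml q / 3 := by
    rw [mq]
    exact Nat.dvd_div_of_mul_dvd (by rwa [← pow_succ'])
  have mt : Mt n (uu φ₀ f ρ q e γ) := fun l _ => by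
    by_cases h : l ∈ ρ
    · simp only [uu, if_pos h]
      exact ⟨by simp, fun a b => by rw [map_add, w_add, map_mul]⟩
    by_cases h' : l = q
    · subst h'
      simp only [uu, if_neg h, if_true]
      exact ⟨by simp, pow_WT hγ d1⟩
    · simp [uu, h, h']
  have af : Af (n.erase q) (wv φ₀ f ρ q e γ) (uu φ₀ f ρ q e γ) := by
    refine ⟨fun l hl => mt l (mem_of_mem_erase hl), fun l hl a => ?_⟩
    obtain ⟨h', hl⟩ := mem_erase.1 hl
    by_cases h : l ∈ ρ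
    · by_cases h3 : l % 3 = 2
      · refine ⟨φ₀ (∑ t ∈ range (f l a).val, ω ^ t), fun k => absurd h3 k, fun i => ?_⟩
        simp only [uu, wv, if_pos h, if_pos h3]
        rw [map_add, geo_WT, map_add, map_mul]
      · refine ⟨0, fun _ => rfl, fun i => ?_⟩
        simp only [uu, wv, if_pos h, if_neg h3]
        rw [map_add, w_add, map_mul, add_zero, mul_comm]
    · obtain ⟨h3, h0⟩ := ho l hl h h'
      refine ⟨a.val, fun k => absurd h3 k, fun i => ?_⟩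
      simp only [uu, wv, if_neg h, if_neg h']
      rw [one_mul]
      exact val_WT (by rw [ml_WT h3]; exact_mod_cast h0) i a
  have wq : wv φ₀ f ρ q e γ q = th (uu φ₀ f ρ q e γ q) := by
    funext i
    simp only [uu, wv, th, if_neg hρ, if_true]
  have pw' : ∀ b : JJ, wp (uu φ₀ f ρ q e γ) n b =
      φ₀ (ω ^ (fs f (n ∩ ρ) b).val) * γ ^ ((b q).val % 3 ^ e) := fun b => by
    rw [wp, ← prod_inter_mul_prod_sdiff n ρ, fs, ← prod_WT]
    congr 1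
    · exact prod_congr rfl fun l hl => if_pos (mem_inter.1 hl).2
    · rw [prod_eq_single_of_mem q (mem_sdiff.2 ⟨hq, hρ⟩) fun l hl h' => by
        simp only [uu, if_neg (mem_sdiff.1 hl).2, if_neg h']]
      simp only [uu, if_neg hρ, if_true]
  have lw : (lu q ω).val % 3 ^ e = 0 := by
    rcases (hLU q (hn q hq).1 (hn q hq).2).2.2.2.2.1 with h | h <;> rw [h]
    exacts [Nat.mod_eq_zero_of_dvd d2, Nat.mod_eq_zero_of_dvd (d2.mul_left 2)]
  refine ⟨mt, af, wq, pw', lw, fun H φ M hM h0 h1 => ?_⟩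
  refine (((hC H R φ M _ n hM h0 hn) _).2 q hq af mt ?_).1 wq
  rw [pw', show Lu ω q = lu q ω from rfl, lw, pow_zero, mul_one, h1]

end Pool.Agent.MP_e23604_nt.N

end

section

/-!
The first class at the origin: divisibility and the value at the bottom.
-/

set_option autoImplicit false

open Finset QuadraticAlgebra
open scoped Classical

namespace Pool.Agent.MP_e23604_nt.N

open B R S W V X

section

variable {R : Type} [CommRing R]

theorem af_ENC {n : Finset ℕ} {u : Wt R} (h : Mt n u) : Af n u u :=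
  ⟨h, fun l hl a => ⟨0, fun _ => rfl, fun i => by rw [(h l hl).2, add_zero, mul_comm]⟩⟩

theorem prod_ENC (φ : Zw →+* R) (s : Finset ℕ) (a : ℕ → ZMod 3) :
    ∏ l ∈ s, φ (ω ^ (a l).val) = φ (ω ^ (∑ l ∈ s, a l).val) := by
  induction s using Finset.induction_on with
  | empty => simp
  | insert l s h ih => rw [prod_insert h, sum_insert h, w_add, map_mul, ih]

/-- the data in a test ring -/
structure Dq_ENC (H : HS) (φ φ₀ : Zw →+* R) (M : Zw) (f : Fn) (ρ : Finset ℕ) (q e : ℕ) (γ : R) :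
    Prop where
  ne : M ≠ 0
  z : φ M = 0
  pn : Pn (insert q ρ)
  nq : q ∉ ρ
  dv : 3 ^ (e + 1) ∣ q + 1
  ga : γ ^ 3 ^ e = 1
  ori : φ₀ (ω ^ (fs f ρ (Lu ω)).val) * φ (ω ^ (H.j (sd (insert q ρ))).val) = 1

variable {H : HS} {φ φ₀ : Zw →+* R} {M : Zw} {f : Fn} {ρ : Finset ℕ} {q e : ℕ} {γ : R}

theorem wt_ENC (hW : WT_st) (D : Dq_ENC H φ φ₀ M f ρ q e γ) :
    Mt (insert q ρ) (uu φ₀ f ρ q e γ) ∧
    Af ((insert q ρ).erase q) (wv φ₀ f ρ q e γ) (uu φ₀ f ρ q e γ) ∧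
    wv φ₀ f ρ q e γ q = th (uu φ₀ f ρ q e γ q) ∧
    wp (uu φ₀ f ρ q e γ) (insert q ρ) (Lu ω) * φ (ω ^ (H.j (sd (insert q ρ))).val) = 1 := by
  obtain ⟨mt, af, wq, pw', lw, -⟩ := hW R φ₀ f ρ (insert q ρ) q e γ D.pn (mem_insert_self _ _)
    D.nq D.dv D.ga fun l hl h h' => absurd (mem_insert.1 hl) (not_or.2 ⟨h', h⟩)
  refine ⟨mt, af, wq, ?_⟩
  rw [pw', show Lu ω q = lu q ω from rfl, lw, pow_zero, mul_one,
    inter_eq_right.2 (subset_insert _ _), D.ori]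

theorem thr_ENC (hC : SHC_st) (hW : WT_st) (D : Dq_ENC H φ φ₀ M f ρ q e γ) {w : Wt R}
    (af : Af ((insert q ρ).erase q) w (uu φ₀ f ρ q e γ)) (hw : w q = uu φ₀ f ρ q e γ q) {h : GQ}
    (hh : H.H0 (pw * M) (insert q ρ) h) : H.kt φ M w (insert q ρ) h =
      3 * H.kt φ M (Function.update w q (wv φ₀ f ρ q e γ q)) (insert q ρ) h := by
  obtain ⟨mt, -, wq, o⟩ := wt_ENC hW D
  rw [wq]
  exact ((hC H R φ M w _ D.ne D.z D.pn _).2 q (mem_insert_self _ _) af mt o).2 hw h hh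

theorem q3_ENC (D : Dq_ENC H φ φ₀ M f ρ q e γ) : q % 3 = 2 := by
  have : 3 ∣ q + 1 := (dvd_pow_self 3 (Nat.succ_ne_zero e)).trans D.dv
  omega

theorem dvs_ENC (hKT : KT_st) (hSL : SLOT_st) (hC : SHC_st) (hW : WT_st)
    (D : Dq_ENC H φ φ₀ M f ρ q e 1) {h : GQ} (hh : H.H0 (pw * M) (insert q ρ) h) :
    3 * H.kt φ M (wv φ₀ f ρ q e 1) (insert q ρ) h = 0 := by
  obtain ⟨-, af, -, -⟩ := wt_ENC hW D
  have h0 := (hKT H R φ M (wv φ₀ f ρ q e 1) _ D.ne D.z D.pn).2.2.2.2.2.1 _ _ hh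
  have e1 := thr_ENC hC hW D (w := Function.update (wv φ₀ f ρ q e 1) q (uu φ₀ f ρ q e 1 q))
    ⟨af.mul, fun l hl a => by
      rw [Function.update_of_ne (ne_of_mem_erase hl)]
      exact af.aff l hl a⟩ (Function.update_self ..) hh
  rw [Function.update_idem, Function.update_eq_self] at e1
  rw [← e1, (hSL H R φ M _ _ D.ne D.z D.pn h h0 q (mem_insert_self _ _)).2 (q3_ENC D) 0 0 1
    fun i => by simp [uu, D.nq], zero_mul]

theorem ind_ENC (hSL : SLOT_st) (D : Dq_ENC H φ φ₀ M f ρ q e γ) {h : GQ}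
    (hh : H.H0 M (insert q ρ) h) (w : Wt R) (hw : ∀ l ∈ ρ, w l = uu φ₀ f ρ q e γ l)
    (s : Finset ℕ) (hs : ∀ l ∈ s, l ∈ ρ ∧ l % 3 = 2) : H.kt φ M w (insert q ρ) h =
      φ₀ ((ω - 1) ^ s.card) *
        H.kt φ M (fun l => if l ∈ s then wv φ₀ f ρ q e γ l else w l) (insert q ρ) h := by
  induction s using Finset.induction_on with
  | empty => simp
  | insert l s hl ih =>
    obtain ⟨h1, h2⟩ := hs l (mem_insert_self _ _)
    rw [ih fun l' h' => hs l' (mem_insert_of_mem h'), card_insert_of_notMem hl, pow_succ, map_mul,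
      mul_assoc, (hSL H R φ M _ _ D.ne D.z D.pn h hh l (mem_insert_of_mem h1)).2 h2
        (wv φ₀ f ρ q e γ l) (φ₀ (ω - 1)) 1 fun i => ?_]
    · congr 3
      funext l'
      by_cases h' : l' = l
      · subst h'
        rw [Function.update_self, if_pos (mem_insert_self _ _)]
      · rw [Function.update_of_ne h']
        simp only [mem_insert, h', false_or]
    · simp only [if_neg hl, hw l h1, uu, wv, if_pos h1, if_pos h2]
      rw [← map_mul, mul_comm, geom_sum_mul, map_sub, map_one, sub_add_cancel]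

theorem cla_ENC (hKT : KT_st) (hSL : SLOT_st) (hC : SHC_st) (hW : WT_st)
    (D : Dq_ENC H φ φ₀ M f ρ q e γ) {h : GQ} (hh : H.H0 (pw * M) (insert q ρ) h) :
    H.kt φ M (uu φ₀ f ρ q e γ) (insert q ρ) h =
      3 * (φ₀ ((ω - 1) ^ (ρ.filter fun l => l % 3 = 2).card) *
        H.kt φ M (wv φ₀ f ρ q e γ) (insert q ρ) h) := by
  obtain ⟨mt, -, -, -⟩ := wt_ENC hW D
  have h0 := (hKT H R φ M (wv φ₀ f ρ q e γ) _ D.ne D.z D.pn).2.2.2.2.2.1 _ _ hh
  have nq : ∀ l ∈ ρ, l ≠ q := fun l hl e => D.nq (e ▸ hl)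
  rw [thr_ENC hC hW D (af_ENC fun l hl => mt l (mem_of_mem_erase hl)) rfl hh,
    ind_ENC hSL D h0 _ (fun l hl => Function.update_of_ne (nq l hl) _ _)
      (ρ.filter fun l => l % 3 = 2) fun l hl => mem_filter.1 hl,
    kt_congr H φ M (w' := wv φ₀ f ρ q e γ) fun l hl => ?_]
  split_ifs with h1
  · rfl
  rcases mem_insert.1 hl with rfl | h2
  · exact Function.update_self ..
  · rw [Function.update_of_ne (nq l h2)]
    funext i
    simp only [uu, wv, if_pos h2, if_neg fun h3 => h1 (mem_filter.2 ⟨h2, h3⟩)]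

theorem bot_ENC (hDL : DL_st) (hKT : KT_st) (hM : M ≠ 0) (h0 : φ₀ M = 0) (hρ : Pn ρ) {N : ℕ}
    (hN : N • yT H ρ f ⊥ = 0) {σ : GQ} (hσ : H.H0 M ρ σ) :
    N * H.kt φ₀ M (uu φ₀ f ρ q e γ) ρ σ = 0 := by
  obtain ⟨fx, e1, -⟩ := (hKT H R φ₀ M (uu φ₀ f ρ q e γ) ρ hM h0 hρ).2.2.2.2.2.2.2.2 σ hσ
  obtain ⟨-, -, -, sm, su⟩ :=
    ((hDL R φ₀ M hM h0).2.2.2.2.2.2.2.2 (H.χ (sd ρ)) σ hσ.1).2.2 hσ.2.1
  have f1 : ∀ i : Jg ρ, eta (H.χ (sd ρ)) σ ((ω : Zw) ^ (fs f ρ i.1).val • H.y (Cn ρ i.1)) =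
      (ω : Zw) ^ (fs f ρ i.1).val • H.y (Cn ρ i.1) := fun i => by rw [eta_smul _ hσ.1, fx]
  have e2 : yT H ρ f ⊥ = ∑ i : Jg ρ, (ω : Zw) ^ (fs f ρ i.1).val • H.y (Cn ρ i.1) := by
    simp only [yT, sup_bot_eq]
  have f2 : eta (H.χ (sd ρ)) σ (yT H ρ f ⊥) = yT H ρ f ⊥ := by
    rw [e2, map_sum]
    exact sum_congr rfl fun i _ => f1 i
  have e3 : H.kt φ₀ M (uu φ₀ f ρ q e γ) ρ σ = dl φ₀ M (H.χ (sd ρ)) σ (yT H ρ f ⊥) := by
    rw [e1, e2, su _ _ _ fun i _ => f1 i]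
    refine sum_congr rfl fun i _ => ?_
    rw [sm _ _ (fx _), fs, ← prod_ENC]
    congr 1
    exact prod_congr rfl fun l hl => if_pos hl
  rw [e3, ← map_natCast φ₀, ← sm _ _ f2, Nat.cast_smul_eq_nsmul, hN,
    ← zero_smul Zw (yT H ρ f ⊥), sm _ _ f2, map_zero, zero_mul]

theorem enc_ENC (hDL : DL_st) (hKT : KT_st) (hSL : SLOT_st) (hC : SHC_st) (hKC : KC_st)
    (hT : TRS_st) (hFS : FS_st) (hW : WT_st) (D : Dq_ENC H φ (cf φ) M f ρ q e γ)
    (h0 : cf φ M = 0) (hγ : (γ - 1) * (γ - 1) = 0) (hs : M ∣ star M) (hd : pw * M ∣ q + 1)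
    {V : Plc} (hq : V.l = q) {F τ : GQ} (hF : Frob V.l V.γ F) (hτ : τ ∈ V.I) (ha : Al q τ = 1)
    {N : ℕ} (hN : N • yT H ρ f ⊥ = 0) {g : GQ} (hg : g ∈ GK) (a : Al q g = 0) :
    N * (3 * (cf φ ((ω - 1) ^ (ρ.filter fun l => l % 3 = 2).card) *
      H.kc φ M (wv (cf φ) f ρ q e γ) (insert q ρ) τ g)) = 0 := by
  subst hq
  obtain ⟨mt, -, -, -⟩ := wt_ENC hW D
  have tK := V.D_le (V.I_le hτ)
  have hρ : Pn ρ := fun l hl => D.pn l (mem_insert_of_mem hl)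
  have K := hKT H R φ M (wv (cf φ) f ρ V.l e γ) _ D.ne D.z D.pn
  have q3 := q3_ENC D
  have hσ := (hT H R (cf φ) M (uu (cf φ) f ρ V.l e γ) ρ D.ne h0 hρ V F q3 hF).1 _ hd
  obtain ⟨v, -, hv⟩ := hFS H R φ M (uu (cf φ) f ρ V.l e γ) ρ D.ne D.z hρ V F τ
    (uu (cf φ) f ρ V.l e γ V.l 1 - 1) hs q3 D.nq hF ((dvd_mul_left _ _).trans hd) hτ ha fun i => by
      rw [(mt _ (mem_insert_self _ _)).2]
      simp only [uu, if_neg D.nq, if_true]
      obtain ⟨x, hx⟩ := sub_one_dvd_pow_sub_one γ (i.val % 3 ^ e)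
      obtain ⟨y, hy⟩ := sub_one_dvd_pow_sub_one γ ((1 : ZMod (ml V.l)).val % 3 ^ e)
      rw [sub_eq_iff_eq_add.1 hx, sub_eq_iff_eq_add.1 hy]
      linear_combination x * y * hγ
  have b0 := bot_ENC (q := V.l) (e := e) (γ := γ) hDL hKT D.ne h0 hρ hN
    ((hKT H R (cf φ) M (uu (cf φ) f ρ V.l e γ) ρ D.ne h0 hρ).2.2.2.2.2.1 _ _ hσ)
  have s1 := ((hC H R (cf φ) M _ ρ D.ne h0 hρ _).1
    (af_ENC fun l hl => mt l (mem_insert_of_mem hl))).shf _ hσ (Av g)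
  have k1 := ((hKC H R φ M _ _ D.ne D.z D.pn _
    ((hC H R φ M _ _ D.ne D.z D.pn _).1 (af_ENC mt))).2 τ tK).2.2.1 g hg
  rw [hv g hg a, s1, HS.kc] at k1
  rw [HS.kc, ← cla_ENC hKT hSL hC hW D (K.2.2.2.2.1 _ (K.2.2.2.2.2.2.1 τ tK g hg)).1, k1]
  linear_combination (-v * (uu (cf φ) f ρ V.l e γ V.l 1 - 1) *
    (lamZ φ (H.χ (sd (insert V.l ρ))) M g * wp (uu (cf φ) f ρ V.l e γ) ρ (Av g) - 1)) * b0

end

theorem dq_ENC {Λ R : Type} [CommRing Λ] [CommRing R] {Z : Dt Λ} {H : HS} {f : Fn} (hFA : FAM_st)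
    (hL : Lk Z H f) (n : ℕ) (π : Λ →+* R) (hπ : ∀ a ∈ Z.E.m ^ n, π a = 0) :
    Dq_ENC H (π.comp (Z.ph (Z.sd ∅))) (π.comp (Z.ph (!Z.s₀))) (3 ^ n) f Z.r.primeFactors (Z.q n) n
      (π (1 + Z.E.T)) := by
  obtain ⟨F, -, hq, -⟩ := hFA Λ Z H f hL
  obtain ⟨q3, qr, g⟩ := hq n
  refine ⟨pow_ne_zero _ (by decide), hπ _ (F.mb n _), fun l hl => ?_,
    fun h => qr (Nat.dvd_of_mem_primeFactors h),
    ((pow_dvd_pow 3 (by omega)).mul_right _).trans (hL.ok.qd n), ?_, ?_⟩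
  · rcases mem_insert.1 hl with rfl | hl
    · exact ⟨hL.ok.qp n, fun e => by omega⟩
    · exact ⟨Nat.prime_of_mem_primeFactors hl,
        fun e => (hL.ok.tw true).n3 (e ▸ Nat.dvd_of_mem_primeFactors hl)⟩
  · rw [← map_pow, ← sub_eq_zero, ← map_one π, ← map_sub, hπ _ g]
  · have s := F.sd n ∅ (by simp)
    rw [union_empty] at s
    rw [s, RingHom.comp_apply, RingHom.comp_apply, ← map_mul, ← sub_eq_zero, ← map_one π,
      ← map_sub, hπ _ (F.ori n _)]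

theorem DVS_pf (hKT : KT_st) (hSL : SLOT_st) (hC : SHC_st) (hW : WT_st) (hFA : FAM_st)
    (hKS : KS_st) : DVS_st := by
  intro Λ _ Z H f hL n g hg h hh
  have D := dq_ENC hFA hL n (Ideal.Quotient.mk (Z.tn n)) fun a ha =>
    Ideal.Quotient.eq_zero_iff_mem.2 (Ideal.mem_sup_right ha)
  have t0 : Ideal.Quotient.mk (Z.tn n) (1 + Z.E.T) = 1 := by
    rw [map_add, map_one, Ideal.Quotient.eq_zero_iff_mem.2 (show Z.E.T ∈ Z.tn n from
      Ideal.mem_sup_left (Ideal.mem_span_singleton_self _)), add_zero]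
  have K := hKT H _ _ _ (fun _ _ => 0) _ D.ne D.z D.pn
  have h0 := (K.2.2.2.2.1 _ (K.2.2.2.2.2.2.1 g hg h hh)).1
  have k := (hKS Λ Z H f hL _ _ _ _ _ (hFA Λ Z H f hL).1).2 n ∅ (by simp) _
    (by rwa [union_empty])
  rw [t0] at D
  have e : 3 * kt0 Z H f Z.r.primeFactors (fun n => 3 ^ n) Z.sd n ∅ (g * h * g⁻¹ * h⁻¹) ∈
      Z.tn n := by
    rw [← Ideal.Quotient.eq_zero_iff_mem, map_mul, map_ofNat, kt0, kt_map, wv_map, t0, union_empty]
    exact dvs_ENC hKT hSL hC hW D h0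
  obtain ⟨x, hx, y, hy, e⟩ := Submodule.mem_sup.1 e
  obtain ⟨c, rfl⟩ := Ideal.mem_span_singleton'.1 hx
  refine Submodule.mem_sup.2 ⟨c * Z.E.T ^ 2, Ideal.mem_span_singleton'.2 ⟨c, rfl⟩, _,
    add_mem (Ideal.mul_mem_left _ 3 k) (Ideal.mul_mem_left _ Z.E.T hy), ?_⟩
  rw [kap]
  linear_combination Z.E.T * e

theorem ENC_pf (hDL : DL_st) (hAL : AL_st) (hKT : KT_st) (hSL : SLOT_st) (hSF : SHF_st)
    (hC : SHC_st) (hKC : KC_st) (hT : TRS_st) (hFS : FS_st) (hW : WT_st) (hFA : FAM_st) :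
    ENC_st := by
  intro Λ _ Z H f hL N hN n g hg a
  set b := Ideal.span {Z.E.T ^ 2} ⊔ Z.E.m ^ n
  have hπ : ∀ a ∈ Z.E.m ^ n, Ideal.Quotient.mk b a = 0 := fun a ha =>
    Ideal.Quotient.eq_zero_iff_mem.2 (Ideal.mem_sup_right ha)
  have D := dq_ENC hFA hL n _ hπ
  have F := (hFA Λ Z H f hL).1
  have c0 : (Ideal.Quotient.mk b).comp (Z.ph (!Z.s₀)) =
      cf ((Ideal.Quotient.mk b).comp (Z.ph (Z.sd ∅))) := by
    rw [show Z.sd ∅ = Z.s₀ by simp [Dt.sd], ← cf_ph]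
    rfl
  have qp := hL.ok.qp n
  have q3 := q3_ENC D
  have pp : PP (-(Z.q n : Zw)) := ⟨(inert_prime qp q3).neg, -((Z.q n / 3 : ℕ) + 1), by
    have : ((3 * (Z.q n / 3) + 2 : ℕ) : Zw) = Z.q n := congrArg Nat.cast (by omega)
    push_cast at this
    linear_combination this⟩
  have hd : pw * 3 ^ n ∣ (Z.q n : Zw) + 1 := by
    have := Nat.cast_dvd_cast (α := Zw) D.dv
    push_cast at this
    rw [pow_succ'] at this
    exact (mul_dvd_mul_right pw_dvd3 _).trans this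
  have z0 : ((Ideal.Quotient.mk b).comp (Z.ph (!Z.s₀))) (3 ^ n) = 0 := hπ _ (F.mb n _)
  rw [c0] at D z0
  have e := enc_ENC hDL hKT hSL hC hKC hT hFS hW D z0 (by
      rw [map_add, map_one, add_sub_cancel_left, ← map_mul, ← pow_two,
        Ideal.Quotient.eq_zero_iff_mem]
      exact Ideal.mem_sup_left (Ideal.mem_span_singleton_self _)) (F.st n) hd
    (hL.ok.pk.ine _ qp q3).1 (hL.ok.pk.ine _ qp q3).2.1.fr (hL.ok.pk.tm _ pp).2.2.1
    (hL.tau _ qp q3) hN hg a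
  have cd : (Z.r.primeFactors.filter fun l => l % 3 = 2).card ≤ Z.r := by
    refine (card_le_card fun l hl => ?_).trans_eq (Nat.card_Icc 1 Z.r)
    have hl := (mem_filter.1 hl).1
    exact mem_Icc.2 ⟨Nat.pos_of_mem_primeFactors hl, Nat.le_of_mem_primeFactors hl⟩
  obtain ⟨x, hx⟩ : ((ω : Zw) - 1) ^ (Z.r.primeFactors.filter fun l => l % 3 = 2).card ∣ 3 ^ Z.r :=
    pow_dvd_pow_of_dvd_of_le ⟨ω ^ 2 - 1, by decide⟩ cd
  have hx' := congrArg (cf ((Ideal.Quotient.mk b).comp (Z.ph (Z.sd ∅)))) hx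
  rw [map_pow, map_ofNat, map_mul] at hx'
  rw [← Ideal.Quotient.eq_zero_iff_mem, map_mul, map_mul, map_natCast, map_pow, map_ofNat, kap, kk,
    kt0, kt_map, wv_map, union_empty, c0, pow_succ, hx']
  rw [HS.kc] at e
  linear_combination cf ((Ideal.Quotient.mk b).comp (Z.ph (Z.sd ∅))) x * e

end Pool.Agent.MP_e23604_nt.N

end
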