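import Pool.Agent.Mg.Fe23604m.Gd29762
import Pool.Agent.Mg.Fe23604m.G7abfc9
import Pool.Agent.Mg.Fe23604m.G809c0b
import Pool.Agent.Mg.Fe23604m.G85d8a6
import Pool.Agent.Mg.Fe23604m.G82a033
import Pool.Agent.Mg.Fe23604m.Ga51075
import Pool.Agent.Mg.Fe23604m.Gc6e067
import Pool.Agent.Mg.Fe23604m.G18296d
import Pool.Agent.Mg.Fe23604m.Gfb6228
import Pool.Agent.Mg.Fe23604m.G594987

set_option linter.all false

section

/-!
The classes with values in the ring of power series: the statements hold.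
-/

set_option autoImplicit false

namespace Pool.Agent.MP_e23604_nt.N

theorem WT_ok : WT_st := WT_pf LU_ok SHC_ok
theorem LO_ok : LO_st := LO_pf LU_ok AL_ok X.DPI_pf
theorem FAM_ok : FAM_st := FAM_pf AL_ok
theorem KS_ok : KS_st :=
  KS_pf AL_ok FRI_ok KT_ok KC_ok UNR_ok TRS_ok FS_ok LOC_ok TRF_ok WT_ok LO_ok FAM_ok
theorem RED_ok : RED_st := RED_pf AL_ok KT_ok LEV_ok SPL_ok KIT_ok WT_ok FAM_ok TR_ok
theorem BSE_ok : BSE_st := BSE_pf AL_ok BAS_ok X.KW_pf (X.IND_pf X.KW_pf) FAM_ok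
theorem DVS_ok : DVS_st := DVS_pf KT_ok SLOT_ok SHC_ok WT_ok FAM_ok KS_ok
theorem ENC_ok : ENC_st :=
  ENC_pf DL_ok AL_ok KT_ok SLOT_ok SHF_ok SHC_ok KC_ok TRS_ok FS_ok WT_ok FAM_ok
theorem CLS_ok : CLS_st := CLS_pf FAM_ok KS_ok RED_ok BSE_ok DVS_ok
theorem CLSN_ok : X.CLSN_st := CLSN_pf CLS_ok ENC_ok

end Pool.Agent.MP_e23604_nt.N

end

section

/-!
Several systems of points at once: the statements hold.
-/

set_option autoImplicit false

namespace Pool.Agent.MP_e23604_nt.N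

theorem FS2_ok : FS2_st := FS2_pf DL_ok AL_ok FRI_ok KT_ok CN_ok SUM_ok TL0_ok TRS_ok
theorem FAM2_ok : FAM2_st := FAM2_pf FAM_ok
theorem KS2_ok : KS2_st :=
  KS2_pf AL_ok FRI_ok KT_ok KC_ok UNR_ok TRS_ok FS2_ok LOC_ok TRF_ok WT_ok LO_ok FAM_ok

end Pool.Agent.MP_e23604_nt.N

end
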