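import Pool.Agent.Mg.Fe23604m.G39f2c0
import Pool.Agent.Mg.Fe23604m.G59c89c

set_option linter.all false

/-!
The residual classes of the three systems lie on a line.
-/

set_option autoImplicit false

open Finset QuadraticAlgebra
open scoped Classical

namespace Pool.Agent.MP_e23604_nt.PH

open B R S W V

theorem cv_CPcs {R : Type} [CommRing R] {φ : Zw →+* R} (h : φ pw = 0) :
    ∃ ι : ZMod 3 →+* R, ∀ x, cv x = ι x := by
  have t : ((3 : ℕ) : R) = 0 := by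
    rw [← map_natCast φ, show ((3 : ℕ) : Zw) = pw * -pw by decide, map_mul, h, zero_mul]
  exact ⟨ZMod.castHom (ringChar.dvd t) R, fun x => by rw [cv, ZMod.castHom_apply, ZMod.natCast_val]⟩

theorem sp_CPcs (hK : KUM_st) {Λ : Type} [CommRing Λ] {b : Ideal Λ} {φ : Zw →+* Λ} (h0 : φ pw ∈ b)
    {χ κ a a' : GQ → ZMod 3} (hl : X.Lk χ κ) {f : GQ → Λ}
    (h : N.Kum ((Ideal.Quotient.mk b).comp φ) pw χ V3.D fun g => Ideal.Quotient.mk b (f g))
    (x y z : ZMod 3) (e1 : ∀ g, χ g = x * a g + y * a' g) (e2 : ∀ g, κ g = z * a' g) :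
    Sp2 b a a' f := by
  have h1 : (Ideal.Quotient.mk b).comp φ pw = 0 := Ideal.Quotient.eq_zero_iff_mem.2 h0
  obtain ⟨ι, hι⟩ := cv_CPcs h1
  obtain ⟨α, β, e⟩ := (hK χ κ _ _ hl h1).1 pw _ (by decide) dvd_rfl h
  obtain ⟨α', e3⟩ := Ideal.Quotient.mk_surjective (α * ι x)
  obtain ⟨β', e4⟩ := Ideal.Quotient.mk_surjective (α * ι y + β * ι z)
  refine ⟨α', β', fun g hg => Ideal.Quotient.eq.1 ((e g hg).trans ?_)⟩
  have k : ∀ t, Ideal.Quotient.mk b (cv t) = ι t := fun t => by rw [← hι, cv, cv, map_natCast]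
  rw [map_add, map_mul, map_mul, e3, e4, k, k, hι, hι, e1, e2, map_add, map_mul, map_mul, map_mul]
  ring

theorem PCS_pf (hS : N.G.KS2_st) (hR : N.G.RED_st) (hP : N.G.SPL2_st) (hB : N.G.BSE2_st)
    (hC : N.G.CM_st) (hK : KUM_st) (hl : LKP_st) : PCS_st := by
  intro Λ _ Z G H H' f j hT hL
  have hZ := hL.ok
  have r1 : rs Z.r ∣ Z.r :=
    (prod_dvd_prod_of_subset _ _ _ (filter_subset _ _)).trans (Nat.prod_primeFactors_dvd _)
  have r0 : ∀ l, l ∈ (rs Z.r).primeFactors ↔ l ∈ Z.r.primeFactors ∧ l % 3 ≠ 2 := fun l => by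
    rw [rs, Nat.primeFactors_prod fun p hp => Nat.prime_of_mem_primeFactors (mem_filter.1 hp).1,
      mem_filter]
  have r2 : ∀ l ∈ Bn Z.r, ¬ l ∣ rs Z.r := fun l hl e => ((r0 l).1 (Nat.mem_primeFactors.2
    ⟨Nat.prime_of_mem_primeFactors (mem_filter.1 hl).1, e,
      ne_zero_of_dvd_ne_zero (hZ.tw true).sf.ne_zero r1⟩)).2 (mem_filter.1 hl).2
  obtain ⟨F, Fw⟩ := N.FAM2_ok Λ Z _ f hL
  have F0 := F H' f 1 (one_dvd _) fun l hl =>
    (Nat.prime_of_mem_primeFactors (mem_filter.1 hl).1).not_dvd_one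
  have F1 := fun H => F H f _ r1 r2
  obtain ⟨k1, k2⟩ := hS Λ Z _ f hL Z.pn (fun n l => Z.ok n l ∨ l ∈ Bn Z.r) Z.sr (rs Z.r) fun _ => pw
  have k := fun i => k1 (G i) (H i) f (hT.sm i) (F1 _)
  have d := fun n => (N.KS2_ok Λ Z _ f hL _ _ _ _ _).1 H' f F0 n ∅ (by simp)
  have s2 : N.sg Z (Z.sr ∅) = 2 := by
    rw [← F0.sd 0 ∅ (by simp), Nat.primeFactors_one, empty_union, insert_empty_eq, N.sd,
      prod_singleton, ← ZMod.natCast_mod, (N.q_LO hZ 0).1]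
    rfl
  have s1 : N.sg Z (!Z.sr ∅) = 1 := by
    have : ∀ ε, N.sg Z (!ε) = -N.sg Z ε := fun ε => by
      rw [N.sg, N.sg]
      generalize Z.s₀ = t
      cases ε <;> cases t <;> simp
    rw [this, s2]
    rfl
  obtain ⟨-, -, -, -, -, lo⟩ := N.LO_ok Λ Z _ f hL
  have h3 : (3 : ZMod 3) = 0 := rfl
  have p0 : ∀ n ε, (Ideal.Quotient.mk (Z.pn n)).comp (Z.ph ε) pw = 0 := fun n ε =>
    Ideal.Quotient.eq_zero_iff_mem.2 (N.pw_LO Z ε n)
  have ln : ∀ n S, pq Z n S → ∀ g ∈ GK, ∀ i, Ideal.Quotient.mk (Z.pn n)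
      (N.G.kk Z (G i) f (rs Z.r).primeFactors (fun _ => pw) Z.sr n S g) = Ideal.Quotient.mk (Z.pn n)
        (N.G.kk Z (G 0) f (rs Z.r).primeFactors (fun _ => pw) Z.sr n S g) +
      cv (-i * N.sg Z (Z.sr S)) * Ideal.Quotient.mk (Z.pn n)
        (N.kk Z H' f (rs Z.r).primeFactors (fun _ => pw) Z.sr n S g) := fun n S hS g hg i => by
    obtain ⟨-, a, b⟩ := hC Λ Z _ f hL H' f _ _ _ _ _ (F1 _) n S hS
    simp only [N.G.kk, N.G.kt0, N.kk, N.kt0, N.G.kt_map, N.kt_map]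
    rw [hT.lin _ _ _ _ i a (p0 n _) _ (b g hg), (F1 H').sd n S hS]
  refine ⟨(Bool.not_not _).symm, fun g hg => ?_, fun g hg => ?_, r1, r2,
    fun i n S h => (k i n S h).1, fun i n S h => (k i n S h).2.1, fun i n S h => (k i n S h).2.2.1,
    fun n S l h hn => ?_, fun i n S h e => ?_, fun i n S h e => ?_, fun n S h g hg => ?_,
    ⟨2, fun n S h => ?_⟩, fun n => ?_, fun n => ?_, fun n => ⟨1, Z.E.ne, fun g hg => ?_⟩,
    fun n _ => hB Λ Z _ f hL H' f hT.n1 n⟩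
  · rw [(lo g hg).2, s1, hT.ch, hT.jj]
    ring
  · rw [(lo g hg).2, Bool.not_not, s2, hT.ch, hT.jj]
    linear_combination j * kum 2 g * h3
  · obtain ⟨v, v1, v2⟩ := k2 n l (Z.sr S) (h l (mem_insert_self _ _))
    exact ⟨v, v1, fun i => v2 _ _ f S (hT.sm i) (F1 _) (fun l hl => h l (mem_insert_of_mem hl)) hn rfl⟩
  · have a := (k i n S h).2.2.2.1 fun g _ => Fw _ _ _ _ _
    rw [(hT.sm i).1, (hT.sm i).2, hT.ch, hT.jj] at a
    rw [show N.sg Z (Z.sr S) = 1 from e ▸ s1] at a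
    obtain ⟨t, -, b⟩ := (hl (fun g => 1 * kum 3 g - -i * 1 * kum 2 g) i).1 fun g _ => by ring
    exact sp_CPcs hK (N.pw_LO Z _ n) b a 1 0 t (fun g => by simp [bs]) fun g => rfl
  · have a := (k i n S h).2.2.2.1 fun g _ => Fw _ _ _ _ _
    rw [(hT.sm i).1, (hT.sm i).2, hT.ch, hT.jj] at a
    rw [show N.sg Z (Z.sr S) = 2 from (e.trans (Bool.not_not _)) ▸ s2] at a
    obtain ⟨t, -, b⟩ := (hl (fun g => 2 * kum 3 g - -i * 2 * kum 2 g) (2 * i)).2 fun g _ => by ring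
    exact sp_CPcs hK (N.pw_LO Z _ n) b a 2 (2 * i) t (fun g => by
      change _ = 2 * kum 3 g + 2 * i * kum 2 g
      ring) fun g => rfl
  · obtain ⟨ι, hι⟩ := cv_CPcs (p0 n true)
    have t := congrArg ι h3
    rw [map_ofNat, map_zero] at t
    rw [← Ideal.Quotient.eq_zero_iff_mem, map_add, map_add, ln n S h g hg 1, ln n S h g hg 2, hι, hι,
      map_mul, map_mul, map_neg, map_neg, map_one, map_ofNat]
    generalize Ideal.Quotient.mk (Z.pn n) (N.G.kk _ _ _ _ _ _ _ _ _) = x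
    generalize Ideal.Quotient.mk (Z.pn n) (N.kk _ _ _ _ _ _ _ _ _) = y
    linear_combination (x - ι (N.sg Z (Z.sr S)) * y) * t
  · obtain ⟨v, v1, v2⟩ := hR Λ Z _ f hL (G j) f _ r0 n S h
    have f1 := (N.FAM_ok Λ Z _ f hL).1
    obtain ⟨m0, a, b⟩ := hC Λ Z _ f hL _ f _ _ _ _ _ f1 n S h
    refine ⟨v, v1, fun g hg => ?_⟩
    have e : N.kap Z (H j) f n S g - Z.E.ι pw ^ 2 *
        N.G.kk Z (G j) f Z.r.primeFactors (fun n => 3 ^ n) Z.sd n S g ∈ Z.E.m ^ n := by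
      rw [← Ideal.Quotient.eq, map_mul]
      simp only [N.kap, N.G.kk, N.G.kt0, N.kk, N.kt0, N.G.kt_map, N.kt_map]
      rw [hT.div _ ((Ideal.Quotient.mk _).comp (Z.ph (Z.sd S))) _ _ j _ a m0
        (Ideal.Quotient.eq_zero_iff_mem.2 (f1.mb n _)) _ (b g hg),
        ← map_pow, ← map_pow, pw_sq, map_neg, map_neg, map_ofNat, map_ofNat, map_neg, map_ofNat]
    obtain ⟨x, hx, y, hy, e'⟩ := Submodule.mem_sup.1 (v2 g hg)
    obtain ⟨c, rfl⟩ := Ideal.mem_span_singleton'.1 hx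
    refine Submodule.mem_sup.2 ⟨c * Z.E.ι pw ^ (2 + 1), Ideal.mem_span_singleton'.2 ⟨c, rfl⟩, _,
      add_mem e (Ideal.mul_mem_left _ (Z.E.ι pw ^ 2) hy), ?_⟩
    linear_combination Z.E.ι pw ^ 2 * e'
  · simpa [N.dd] using (d n).1
  · simpa [N.dd] using (d n).2.1
  · have a := Ideal.Quotient.eq.2 (hP Λ Z _ f hL H' f f _ hT.n1 r0 n ∅ (by simp) g hg)
    rw [← Ideal.Quotient.eq, map_sub, ln n ∅ (by simp [pq]) g hg 1, one_mul, ← a, s2,
      show (-1 * 2 : ZMod 3) = 1 from rfl, cv, ZMod.val_one, Nat.cast_one]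
    ring

end Pool.Agent.MP_e23604_nt.PH
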