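import Mathlib
import Pool.Agent.Mg.Fe23604m.G9a9246

set_option linter.all false

/-! The main estimate. -/

namespace Pool.Agent.MP_f68ac8_nt.Zv

open Matrix Finset
open scoped BigOperators

theorem num_ZaMulti (c : ℕ → ℝ) (Q g p P δ : ℝ) (M : ℕ) (hQ : 1 ≤ Q) (hg : 0 ≤ g) (hp : 1 ≤ p)
    (hδ : 0 ≤ δ) (hM : 1 ≤ M) (h1 : p * (Q * c 2) ≤ Q ^ M * (g * P))
    (h2 : ∀ j, 2 ≤ j → j ≤ M → Q * c (j + 1) ≤ g / p * c j + δ) :
    c (M + 1) ≤ (g / p) ^ M * P + M * (g + 1) ^ M * δ := by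
  have hp0 : 0 < p := by linarith
  have hQ0 : 0 < Q := by linarith
  have ht : 0 ≤ g / p := by positivity
  have ht1 : g / p ≤ g + 1 := (div_le_self hg hp).trans (by linarith)
  have key : ∀ j, 1 ≤ j → j ≤ M →
      Q ^ j * c (j + 1) ≤ Q ^ M * ((g / p) ^ j * P) + Q ^ j * (j * (g + 1) ^ j * δ) := by
    intro j hj
    induction j, hj using Nat.le_induction with
    | base =>
      intro _
      have h3 : Q * c 2 ≤ Q ^ M * (g / p * P) := by
        rw [← mul_le_mul_iff_right₀ hp0]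
        refine h1.trans_eq ?_
        field_simp
      have h4 : 0 ≤ Q ^ 1 * (((1 : ℕ) : ℝ) * (g + 1) ^ 1 * δ) := by positivity
      simp only [pow_one] at h4 ⊢
      exact h3.trans (le_add_of_nonneg_right h4)
    | succ j hj ih =>
      intro hjM
      have a1 := mul_le_mul_of_nonneg_left (ih (by omega)) ht
      have a2 := mul_le_mul_of_nonneg_left (h2 (j + 1) (by omega) hjM) (pow_pos hQ0 j).le
      have a3 : 1 ≤ (g + 1) ^ (j + 1) := one_le_pow₀ (by linarith)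
      have a4 : g / p * (j * (g + 1) ^ j) ≤ (g + 1) * (j * (g + 1) ^ j) :=
        mul_le_mul_of_nonneg_right ht1 (by positivity)
      have a5 : g / p * (j * (g + 1) ^ j) + 1 ≤ Q * ((j + 1 : ℕ) * (g + 1) ^ (j + 1)) := by
        refine le_trans ?_ (le_mul_of_one_le_left (by positivity) hQ)
        push_cast
        rw [pow_succ] at a3 ⊢
        linarith
      have a6 := mul_le_mul_of_nonneg_left a5 (mul_nonneg (pow_pos hQ0 j).le hδ)
      rw [pow_succ Q, pow_succ (g / p)]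
      linarith
  have := key M hM le_rfl
  rwa [← mul_add, mul_le_mul_iff_right₀ (pow_pos hQ0 M)] at this

theorem sum_ZaMulti {α : Type} [Fintype α] (f : α → ℝ) (b : ℝ) (h : ∀ x, f x ≤ b) :
    ∑ x, f x ≤ Nat.card α * b := by
  rw [Nat.card_eq_fintype_card, ← nsmul_eq_mul]
  exact Finset.sum_le_card_nsmul _ _ _ fun x _ => h x

section Av

variable {d : ℕ} {U : Fin d → Type} [∀ j, Fintype (U j)] {R A : Type} [Fintype R] [Fintype A]
  (w : ∀ j, U j → ℝ)

/-- the total average -/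
noncomputable def Av_ZaMulti (F : R → A → (∀ j, U j) → ℝ) : ℝ := 𝔼 r, 𝔼 a, Ex w (F r a)

variable {w}

theorem ex_mono_ZaMulti (hw : Prob w) {f g : (∀ j, U j) → ℝ} (h : ∀ q, f q ≤ g q) :
    Ex w f ≤ Ex w g :=
  Finset.sum_le_sum fun q _ =>
    mul_le_mul_of_nonneg_left (h q) (Finset.prod_nonneg fun j _ => hw.1 j _)

theorem ex_const_ZaMulti (hw : Prob w) (b : ℝ) : Ex w (fun _ => b) = b := by
  rw [Ex, ← Finset.sum_smul, ← Fintype.prod_sum]
  simp [hw.2]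

theorem av_mono_ZaMulti (hw : Prob w) {F G : R → A → (∀ j, U j) → ℝ}
    (h : ∀ r a q, F r a q ≤ G r a q) : Av_ZaMulti w F ≤ Av_ZaMulti w G :=
  expect_le_expect fun r _ => expect_le_expect fun a _ => ex_mono_ZaMulti hw (h r a)

theorem av_add_ZaMulti (F G : R → A → (∀ j, U j) → ℝ) :
    Av_ZaMulti w (fun r a q => F r a q + G r a q) = Av_ZaMulti w F + Av_ZaMulti w G := by
  simp only [Av_ZaMulti, Ex, smul_add, sum_add_distrib, expect_add_distrib]

theorem av_mul_ZaMulti (b : ℝ) (F : R → A → (∀ j, U j) → ℝ) :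
    Av_ZaMulti w (fun r a q => b * F r a q) = b * Av_ZaMulti w F := by
  simp only [Av_ZaMulti, Ex, smul_eq_mul, mul_expect, mul_sum, mul_left_comm b]

theorem av_sum_ZaMulti {I : Type} [Fintype I] (F : I → R → A → (∀ j, U j) → ℝ) :
    Av_ZaMulti w (fun r a q => ∑ i, F i r a q) = ∑ i, Av_ZaMulti w (F i) := by
  simp only [Av_ZaMulti, Ex, smul_sum, ← expect_sum_comm]
  exact expect_congr rfl fun r _ => expect_congr rfl fun a _ => sum_comm

theorem av_q_ZaMulti [Nonempty A] (F : R → (∀ j, U j) → ℝ) :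
    Av_ZaMulti w (fun r (_ : A) q => F r q) = Ex w fun q => 𝔼 r, F r q := by
  simp only [Av_ZaMulti, Ex, Fintype.expect_const, smul_eq_mul, mul_expect, expect_sum_comm]

theorem av_const_ZaMulti [Nonempty R] [Nonempty A] (hw : Prob w) (b : ℝ) :
    Av_ZaMulti w (fun (_ : R) (_ : A) _ => b) = b := by
  simp only [Av_ZaMulti, ex_const_ZaMulti hw, Fintype.expect_const]

theorem av_re_ZaMulti [Nonempty R] (T : R → A → (∀ j, U j) → ℂ) (b : ℝ)
    (h : ∀ r, ‖𝔼 a, Ex w (T r a)‖ ≤ b) : Av_ZaMulti w (fun r a q => (T r a q).re) ≤ b := by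
  refine expect_le univ_nonempty fun r _ => le_trans (le_of_eq ?_)
    ((Complex.re_le_norm _).trans (h r))
  simp only [Ex, Complex.re_expect, Complex.re_sum, Complex.smul_re]

end Av

section Sol

variable {p M : ℕ} {ι : Type} [Fintype ι] [DecidableEq ι] {Γ : Subgroup (GL ι (Rg p M))}
  {B : Type} {d : ℕ} {U : Fin d → Type} {E E' : Type} {q : ∀ j, U j} {bb : B → GL ι (ZMod p)}

theorem sub_ZaMulti {x : E → FreeGroup (Lt B U) × ι × ι × Rg p M}
    {x' : E' → FreeGroup (Lt B U) × ι × ι × Rg p M} {y : (Σ j, U j) → FreeGroup (Lt B U) × Rg p M}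
    {j : ℕ} (h : ∀ W : B ⊕ Fin d → Γ, (∀ e, (p : Rg p M) ^ j ∣ E0 (place q W) (x e)) →
      ∀ e, (p : Rg p M) ^ j ∣ E0 (place q W) (x' e)) (D : Finset (Fin d)) :
    Sy.Sol Γ ⟨x, y⟩ q bb j D ⊆ Sy.Sol Γ ⟨x', y⟩ q bb j D := by
  rintro W ⟨h1, h2⟩
  refine ⟨h1, ?_⟩
  rintro (e | i) he
  · exact h W (fun e => h2 (.inl e) (by simp)) e
  · exact h2 (.inr i) (by simpa using he)

theorem good_ZaMulti {S : Sy p M ι B U E} {S' : Sy p M ι B U E'} {A₀ A₁ : Finset (Fin d)} {g : ℕ}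
    (h : ∀ D, S.Sol Γ q bb 2 D = S'.Sol Γ q bb 2 D) (h' : S'.Good Γ q bb A₀ A₁ g) :
    S.Good Γ q bb A₀ A₁ g := by
  simpa only [Sy.Good, Sy.Kd, h] using h'

end Sol

open Classical in
theorem multi_stmt (p : ℕ) [Fact p.Prime] (hK : CardStmt p) (hR : RecStmt p) (hE : ErrStmt p)
    (hC : CoverStmt) : MultiStmt p := by
  intro M ι _ _ Γ L hL hM B _ B₀ bb hI d A₀ A₁ hA g hg E _ ε hε
  have hp : (1 : ℝ) ≤ p := by exact_mod_cast (Fact.out : p.Prime).one_le
  have hg1 : (1 : ℝ) ≤ g := by exact_mod_cast hg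
  obtain ⟨m, hm⟩ : ∃ m : ℕ, (Fintype.card (B ⊕ Fin d → Γ) : ℝ) / 2 ^ m ≤ ε / 2 := by
    obtain ⟨m, hm⟩ := pow_unbounded_of_one_lt
      ((Fintype.card (B ⊕ Fin d → Γ) : ℝ) / (ε / 2)) (one_lt_two (α := ℝ))
    refine ⟨m, ?_⟩
    rw [div_lt_iff₀ (by positivity)] at hm
    rw [div_le_iff₀ (by positivity)]
    linarith
  obtain ⟨C, hCe⟩ : ∃ C : ℝ, C = Nat.card (B ⊕ Fin d → Γ) * (Nat.card (B ⊕ Fin d → L) *
    Nat.card (Fin d → ZMod p)) := ⟨_, rfl⟩
  have hC0 : 0 ≤ C := by rw [hCe]; positivity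
  obtain ⟨ε', hε', hε2⟩ : ∃ ε' : ℝ, 0 < ε' ∧ M * (g + 1) ^ M * (C * ε') ≤ ε / 2 := by
    refine ⟨ε / 2 / (M * (g + 1) ^ M * C + 1), by positivity, ?_⟩
    rw [← mul_assoc, ← mul_div_assoc, div_le_iff₀ (by positivity)]
    linarith
  obtain ⟨η, hη, hE'⟩ := hE M ι Γ L hL B B₀ bb hI d A₀ A₁ hA g (Fin m × E) ε' hε'
  refine ⟨η, hη, fun U _ w Y 𝓡 _ _ _ _ y x hw hwη hEQ hCov X hX => ?_⟩
  let S : (Fin m → 𝓡) → ((Σ j, U j) → Y) → Sy p M ι B U (Fin m × E) :=
    fun r a => ⟨fun z => x (r z.1) z.2, fun u => y u (a u)⟩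
  let n : ℕ → (Fin m → 𝓡) → ((Σ j, U j) → Y) → (∀ j, U j) → ℝ := fun j r a q =>
    if (S r a).Good Γ q bb A₀ A₁ g then ((S r a).Sol Γ q bb j ∅).ncard else 0
  let P : (∀ j, U j) → (B ⊕ Fin d → Γ) → 𝓡 → Prop := fun q W ρ =>
    ∀ e, (p : Rg p M) ^ 2 ∣ E0 (place q W) (x ρ e)
  have hQ : (1 : ℝ) ≤ (Nat.card L : ℝ) ^ (Fintype.card B + d) :=
    one_le_pow₀ (by exact_mod_cast Nat.card_pos)
  have hc := num_ZaMulti (fun j => Av_ZaMulti w (n j)) _ g p (p ^ A₁.card) (C * ε') M hQ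
    (by positivity) hp (by positivity) hM ?_ ?_
  rotate_left
  · rw [← av_mul_ZaMulti, ← av_mul_ZaMulti]
    refine (av_mono_ZaMulti hw fun r a q => ?_).trans_eq (av_const_ZaMulti hw _)
    simp only [n]
    split_ifs with h
    · have h1 := ((hR M ι Γ L hL B bb d U _ (S r a) q A₀ A₁ g h).1 hM).trans
        (Nat.mul_le_mul_right _ ((hK M ι Γ L hL).2.1 B bb d))
      rw [← pow_mul, mul_comm _ M]
      exact_mod_cast h1
    · rw [mul_zero, mul_zero]
      positivity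
  · intro j h2 hj
    choose γ hγ1 hγ2 using fun A : L => hL.ex j (by omega) A.1 A.2
    let γ' : L → Γ := fun A => ⟨γ A, hγ1 A⟩
    rw [← av_mul_ZaMulti, ← av_mul_ZaMulti]
    refine (av_mono_ZaMulti hw (G := fun r a q => g / p * n j r a q +
      ∑ W : B ⊕ Fin d → Γ, ∑ δ : B ⊕ Fin d → L, ∑ μ : Fin d → ZMod p,
        if μ ≠ 0 ∧ ∀ i ∉ dp A₁ W, μ i = 0 then ((p : ℝ) ^ (dp A₁ W).card)⁻¹ *
          ((S r a).Tm q bb A₀ A₁ g j W (fun l => γ' (δ l) * W l) μ).re else 0)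
      fun r a q => ?_).trans ?_
    · simp only [n]
      by_cases h : (S r a).Good Γ q bb A₀ A₁ g
      · rw [if_pos h, if_pos h]
        exact (hR M ι Γ L hL B bb d U _ (S r a) q A₀ A₁ g h).2 j h2 hj γ' hγ2
      · simp [Sy.Tm, h]
    · rw [av_add_ZaMulti, av_sum_ZaMulti, hCe, mul_assoc, mul_assoc]
      refine add_le_add le_rfl (sum_ZaMulti _ _ fun W => ?_)
      rw [av_sum_ZaMulti]
      refine sum_ZaMulti _ _ fun δ => ?_
      rw [av_sum_ZaMulti]
      refine sum_ZaMulti _ _ fun μ => ?_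
      by_cases h : μ ≠ 0 ∧ ∀ i ∉ dp A₁ W, μ i = 0
      · simp only [if_pos h]
        rw [av_mul_ZaMulti]
        have h3 := av_re_ZaMulti (fun r a q =>
          (S r a).Tm q bb A₀ A₁ g j W (fun l => γ' (δ l) * W l) μ) ε' fun r =>
          hE' U w Y y hw hwη hEQ _ j W _ μ h2 hj
            (fun l => ⟨(δ l).1, by simpa [γ'] using hγ2 (δ l)⟩) h.1 h.2
        refine (mul_le_mul_of_nonneg_left h3 (by positivity)).trans ?_
        exact mul_le_of_le_one_left hε'.le (inv_le_one_of_one_le₀ (one_le_pow₀ hp))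
      · simp only [if_neg h]
        rw [av_const_ZaMulti hw]
        exact hε'.le
  have hgM : (1 : ℝ) ≤ g ^ M := one_le_pow₀ hg1
  have h1 : (Ex w fun q => if X q then (1 : ℝ) else 0) ≤ Av_ZaMulti w (fun r a q =>
      (if ∀ W, (∀ i, P q W (r i)) → ∀ ρ, P q W ρ then 0 else 1 : ℝ) +
        ((g : ℝ) ^ M)⁻¹ * n (M + 1) r a q) := by
    refine le_trans (le_of_eq ?_) (av_mono_ZaMulti hw
      (F := fun _ _ q => if X q then (1 : ℝ) else 0) fun r a q => ?_)
    · rw [av_q_ZaMulti]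
      simp only [Fintype.expect_const]
    · have hn : 0 ≤ ((g : ℝ) ^ M)⁻¹ * n (M + 1) r a q := by
        simp only [n]
        split_ifs <;> positivity
      split_ifs with h3 h4
      · have h5 : (S r a).Good Γ q bb A₀ A₁ g := good_ZaMulti (fun D => Set.Subset.antisymm
          (sub_ZaMulti (fun W h z => h4 W (fun i e => h (i, e)) z.1 z.2) D)
          (sub_ZaMulti (fun W h z => h (r z.1, z.2)) D)) (hX q h3 a).2
        have h6 : g ^ M ≤ ((S r a).Sol Γ q bb (M + 1) ∅).ncard := (hX q h3 a).1.trans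
          (Set.ncard_le_ncard (sub_ZaMulti (fun W h z => h (r z.1, z.2)) ∅))
        simp only [n, if_pos h5]
        rw [zero_add, le_inv_mul_iff₀ (by positivity), mul_one]
        exact_mod_cast h6
      · linarith
      · linarith
      · linarith
  rw [av_add_ZaMulti, av_mul_ZaMulti, av_q_ZaMulti] at h1
  have h2 := (ex_mono_ZaMulti hw fun q => (hC 𝓡 (B ⊕ Fin d → Γ) (P q) m fun W h => by
    obtain ⟨ρ, hρ⟩ := h
    have := hCov (place q W) ⟨ρ, not_forall.1 hρ⟩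
    convert this).trans hm).trans_eq (ex_const_ZaMulti hw _)
  have h3 : ((g : ℝ) ^ M)⁻¹ * Av_ZaMulti w (n (M + 1)) ≤ p ^ A₁.card / p ^ M + ε / 2 := by
    rw [inv_mul_le_iff₀ (by positivity), mul_add]
    refine hc.trans (add_le_add (le_of_eq ?_)
      (hε2.trans (le_mul_of_one_le_left (by positivity) hgM)))
    rw [div_pow]
    ring
  refine h1.trans ((add_le_add (le_trans (le_of_eq ?_) h2) h3).trans (by linarith))
  congr!

end Pool.Agent.MP_f68ac8_nt.Zv
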