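import Pool.Agent.MP_e23604_nt.BDefs
import Pool.Agent.MP_e23604_nt.BTors
import Pool.Agent.MP_e23604_nt.BValA
import Pool.Agent.Mg.Fe23604m.G824365
import Pool.Agent.MP_e23604_nt.BSel
import Pool.Agent.MP_e23604_nt.BValC

set_option linter.all false

section

/-!
The eigenlines of complex multiplication on E[p].
-/

open WeierstrassCurve Polynomial
open scoped Classical

namespace Pool.Agent.MP_e23604_nt.B

section val

variable {F : Type} [Field F] {v : AbsoluteValue F ℝ}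

end val

section approx

variable {F : Type} [Field F] [DecidableEq F] {v : AbsoluteValue F ℝ} {W : WeierstrassCurve F}

end approx

section grp

variable {M : Type} [AddCommGroup M]

end grp

end Pool.Agent.MP_e23604_nt.B

end

section

/-!
The Galois action on the two eigenlines.
-/

open WeierstrassCurve AddSubgroup Polynomial
open scoped Classical

namespace Pool.Agent.MP_e23604_nt.B

variable {W : WeierstrassCurve ℚ}

lemma zz_gal (σ : GQ) (P : Pts W Qb) : zz (galQ W σ P) = σ (zz P) := by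
  rcases P with _ | ⟨x, y, h⟩
  · exact (map_zero σ).symm
  · change -(σ x) / σ y = σ (-x / y)
    rw [map_div₀, map_neg]

lemma prim_root {p : ℕ} (hp : p.Prime) (h2 : p ≠ 2) : ∃ k : ℕ, ¬ p ∣ k ∧
    (∀ m : ℕ, (p : ℤ) ∣ 1 - k ^ m ↔ p - 1 ∣ m) ∧
    (∀ i j : ℤ, ¬ (p : ℤ) ∣ i → ¬ (p : ℤ) ∣ j → ∃ m : ℕ, (p : ℤ) ∣ i - k ^ m * j) ∧
    (k : ZMod p) ^ ((p - 1) / 2) = -1 := by
  have := Fact.mk hp
  obtain ⟨g, hg⟩ := IsCyclic.exists_generator (α := (ZMod p)ˣ)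
  have ho : orderOf g = p - 1 := by
    rw [orderOf_eq_card_of_forall_mem_zpowers hg, Nat.card_eq_fintype_card, ZMod.card_units]
  have hk : (((g : ZMod p).val : ℕ) : ZMod p) = g := ZMod.natCast_zmod_val _
  have h1 : ∀ m : ℕ, (g : ZMod p) ^ m = 1 ↔ p - 1 ∣ m := fun m => by
    rw [← ho, orderOf_dvd_iff_pow_eq_one, ← Units.val_pow_eq_pow_val, Units.val_eq_one]
  refine ⟨(g : ZMod p).val, ?_, fun m => ?_, fun i j hi hj => ?_, ?_⟩
  · rw [← ZMod.natCast_eq_zero_iff, hk]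
    exact g.ne_zero
  · rw [← ZMod.intCast_zmod_eq_zero_iff_dvd, ← h1]
    push_cast
    rw [hk, sub_eq_zero, eq_comm]
  · rw [← ZMod.intCast_zmod_eq_zero_iff_dvd] at hi hj
    obtain ⟨m, hm⟩ := (mem_powers_iff_mem_zpowers.2 (hg (Units.mk0 _ (div_ne_zero hi hj))))
    refine ⟨m, ?_⟩
    rw [← ZMod.intCast_zmod_eq_zero_iff_dvd]
    push_cast
    have := congrArg Units.val hm
    simp only [Units.val_pow_eq_pow_val, Units.val_mk0] at this
    rw [hk, this, div_mul_cancel₀ _ hj, sub_self]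
  · obtain ⟨m, hm⟩ := hp.odd_of_ne_two h2
    have h3 := hp.two_le
    have e : (p - 1) / 2 = m := by omega
    rw [hk, e]
    refine (sq_eq_one_iff.1 ?_).resolve_left fun e' => ?_
    · rw [← pow_mul, h1]
      exact ⟨1, by omega⟩
    · have := Nat.le_of_dvd (by omega) ((h1 m).1 e')
      omega

section

variable {v : AbsoluteValue Qb ℝ}

lemma v_add (hv : IsNonarchimedean v) {x y : Qb} {r : ℝ} (hx : v x < r) (hy : v y < r) :
    v (x + y) < r := (hv x y).trans_lt (max_lt hx hy)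

lemma v_z (hv : IsNonarchimedean v) (n : ℤ) : v n ≤ 1 :=
  v_int hv (isIntegral_algebraMap (R := ℤ) (x := n))

lemma v_dvd (hv : IsNonarchimedean v) {p : ℕ} (h : v p < 1) {n : ℤ} (hn : (p : ℤ) ∣ n) :
    v n < 1 := by
  obtain ⟨k, rfl⟩ := hn
  push_cast
  rw [map_mul]
  exact mul_lt_one_of_nonneg_of_lt_one_left (v.nonneg _) h (v_z hv k)

end

/-- The eigenline data at a split prime. -/
structure EG (W : WeierstrassCurve ℚ) (t N : ℤ) (c p : ℕ) (α : Qb) (a b : ℤ) (T T' : Pts W Qb) :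
    Prop where
  ht : t ^ 2 < 4 * N
  hp : p.Prime
  h2 : p ≠ 2
  hc : ¬ p ∣ c
  eqn : α ^ 2 - t * α + N = 0
  good : ∀ v : AbsoluteValue Qb ℝ, IsNonarchimedean v → v c = 1 →
    Intg v (W.baseChange Qb) ∧ v (W.baseChange Qb).Δ = 1
  ab1 : (p : ℤ) ∣ a + b - t
  ab2 : (p : ℤ) ∣ a * b - N
  ab3 : ¬ (p : ℤ) ∣ a - b
  T0 : T ≠ 0
  pT : p • T = 0
  pT' : p • T' = 0
  ind : ∀ i j : ℤ, i • T = j • T' → (p : ℤ) ∣ i
  span : ∀ P : Pts W Qb, p • P = 0 → ∃ i j : ℤ, P = i • T + j • T'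
  ker : ∀ v : AbsoluteValue Qb ℝ, IsNonarchimedean v → v p < 1 → ∀ P : Pts W Qb, p • P = 0 →
    (v (α - a) < 1 → (E1 v P ↔ ∃ i : ℤ, P = i • T)) ∧
    (v (α - b) < 1 → (E1 v P ↔ ∃ i : ℤ, P = i • T'))

namespace EG

variable {t N : ℤ} {c p : ℕ} {α : Qb} {a b : ℤ} {T T' : Pts W Qb} (h : EG W t N c p α a b T T')
  {v : AbsoluteValue Qb ℝ}
include h

lemma int : IsIntegral ℤ α := by
  refine ⟨X ^ 2 - C t * X + C N, by monicity!, ?_⟩
  simp only [eval₂_add, eval₂_sub, eval₂_mul, eval₂_pow, eval₂_X, eval₂_C]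
  exact h.eqn

lemma types (hv : IsNonarchimedean v) (hp : v p < 1) : v (α - a) < 1 ∨ v (α - b) < 1 := by
  have e : (α - a) * (α - b) = ((a * b - N : ℤ) : Qb) + -(((a + b - t : ℤ) : Qb) * α) := by
    push_cast
    linear_combination h.eqn
  have : v (α - a) * v (α - b) < 1 := by
    rw [← map_mul, e]
    refine v_add hv (v_dvd hv hp h.ab2) ?_
    rw [map_neg_eq_map, map_mul]
    exact mul_lt_one_of_nonneg_of_lt_one_left (v.nonneg _) (v_dvd hv hp h.ab1) (v_int hv h.int)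
  by_contra hc
  push Not at hc
  exact absurd this (not_lt.2 (one_le_mul_of_one_le_of_one_le hc.1 hc.2))

lemma cj {σ : GQ} (hσ : σ α ≠ α) : σ α = t - α := by
  have e := congrArg σ h.eqn
  simp only [map_add, map_sub, map_pow, map_mul, map_intCast, map_zero] at e
  have : (σ α - α) * (σ α - (t - α)) = 0 := by linear_combination e - h.eqn
  exact sub_eq_zero.1 ((mul_eq_zero.1 this).resolve_left (sub_ne_zero.2 hσ))

lemma sw (hv : IsNonarchimedean v) (hp : v p < 1) {x y : ℤ} (hxy : x + y = a + b)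
    (hx : v (α - x) < 1) : v (t - α - y) < 1 := by
  have e : (t - α - y : Qb) = -(α - x) + -((a + b - t : ℤ) : Qb) := by
    rw [← hxy]
    push_cast
    ring
  rw [e]
  exact v_add hv (by rwa [map_neg_eq_map]) (by rw [map_neg_eq_map]; exact v_dvd hv hp h.ab1)

lemma ex_s : ∃ σ : GQ, σ α ≠ α := by
  by_contra hc
  push Not at hc
  obtain ⟨q, hq⟩ := fixed_rat hc
  have e := h.eqn
  rw [hq] at e
  have e2 : q ^ 2 - t * q + N = 0 := by exact_mod_cast e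
  have e3 : (t : ℚ) ^ 2 < 4 * N := by exact_mod_cast h.ht
  nlinarith [sq_nonneg (2 * q - t)]

lemma ex_v [Fact p.Prime] : (∃ g, nv p g (α - a) < 1) ∧ ∃ g, nv p g (α - b) < 1 := by
  obtain ⟨σ, hσ⟩ := h.ex_s
  rcases h.types (nv_na p 1) (nv_lt p 1) with e | e
  · refine ⟨⟨1, e⟩, 1 * σ, ?_⟩
    rw [nv_mul, map_sub, map_intCast, h.cj hσ]
    exact h.sw (nv_na p 1) (nv_lt p 1) rfl e
  · refine ⟨⟨1 * σ, ?_⟩, 1, e⟩
    rw [nv_mul, map_sub, map_intCast, h.cj hσ]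
    exact h.sw (nv_na p 1) (nv_lt p 1) (add_comm _ _) e

lemma inr_fix (hv : IsNonarchimedean v) (hp : v p < 1) {τ : GQ} (hτ : Inr v τ) : τ α = α := by
  by_contra hc
  have e1 := hτ α (v_int hv h.int)
  have key : ∀ x y : ℤ, x + y = a + b → v (α - x) < 1 → v ((x - y : ℤ) : Qb) < 1 := by
    intro x y hxy hx
    have e : ((x - y : ℤ) : Qb) = (t - α - y) + (-(τ α - α) + -(α - x)) := by
      rw [h.cj hc]
      push_cast
      ring
    rw [e]
    exact v_add hv (h.sw hv hp hxy hx) (v_add hv (by rwa [map_neg_eq_map])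
      (by rwa [map_neg_eq_map]))
  rcases h.types hv hp with e | e
  · exact (key a b rfl e).ne (v_coprime hv h.hp hp h.ab3)
  · exact (key b a (add_comm _ _) e).ne (v_coprime hv h.hp hp (by
      rw [← dvd_neg, neg_sub]; exact h.ab3))

lemma good' (hv : IsNonarchimedean v) (hp : v p < 1) :
    Intg v (W.baseChange Qb) ∧ v (W.baseChange Qb).Δ = 1 :=
  h.good v hv (by simpa using v_coprime hv h.hp hp (n := c) (by exact_mod_cast h.hc))

variable {ζ : Qb} {σ₀ : GQ}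

theorem inr_H [W.IsElliptic] (G : GD W p α ζ T T' σ₀) (hv : IsNonarchimedean v) (hp : v p < 1)
    (ha : v (α - a) < 1) {τ : GQ} (hτ : Inr v τ) : τ ∈ G.H := by
  have f := h.inr_fix hv hp hτ
  obtain ⟨j, hj⟩ := G.U1 τ f
  obtain ⟨m, hm⟩ := G.gz τ
  obtain ⟨g1, g2⟩ := h.good' hv hp
  have hE : E1 v T := ((h.ker v hv hp T h.pT).1 ha).2 ⟨1, (one_smul _ _).symm⟩
  have : (W.baseChange Qb).IsElliptic := inferInstanceAs (W.map (algebraMap ℚ Qb)).IsElliptic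
  have e1 := tors_val h.hp h.h2 hv g1 g2 h.T0 h.pT hE fun Q hQ => ((h.ker v hv hp Q hQ).1 ha).1
  obtain ⟨e2, e3⟩ := v_zeta hv h.hp hp G.hζ
  have e4 : v (zz T) = v (ζ - 1) :=
    (pow_left_inj₀ (v.nonneg _) (v.nonneg _) (by have := h.hp.two_le; omega)).1 (e1.trans e2.symm)
  have π0 : ζ - 1 ≠ 0 := sub_ne_zero.2 (G.hζ.ne_one h.hp.one_lt)
  have r0 : 0 < v (ζ - 1) := v.pos π0
  have r1 : v (ζ - 1) < 1 := e4 ▸ E1_lt hv g1 hE
  have r2 : v (ζ - 1) ^ 2 < v (ζ - 1) := by nlinarith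
  have e5 := (E1_zsmul hv g1 hE j).2
  rw [← hj, zz_gal, e4] at e5
  have e6 := e3 m
  set z := zz T
  have u1 : v (z / (ζ - 1)) = 1 := by rw [map_div₀, e4, div_self r0.ne']
  have u2 := hτ _ u1.le
  have u3 := (Inr_eq hv hτ _).trans u1
  have π1 : τ (ζ - 1) ≠ 0 := (map_ne_zero τ).2 π0
  have e7 : ((j - m : ℤ) : Qb) * z = -(τ z - j * z) + (τ (z / (ζ - 1)) * (ζ ^ m - 1 - m * (ζ - 1)) +
      m * (τ (z / (ζ - 1)) - z / (ζ - 1)) * (ζ - 1)) := by
    rw [← hm, ← map_one τ, ← map_sub, map_one, map_div₀]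
    push_cast
    field_simp
    ring
  have e8 : v ((j - m : ℤ) : Qb) * v (ζ - 1) < 1 * v (ζ - 1) := by
    rw [← e4, ← map_mul, e7, e4, one_mul]
    refine v_add hv (by rw [map_neg_eq_map]; exact e5.trans_lt r2) (v_add hv ?_ ?_)
    · rw [map_mul, u3, one_mul]
      exact e6.trans_lt r2
    · rw [map_mul, map_mul]
      refine mul_lt_of_lt_one_left r0
        (mul_lt_one_of_nonneg_of_lt_one_right ?_ (v.nonneg _) u2)
      simpa using v_z hv m
  refine ⟨f, j, hj, ?_⟩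
  rw [hm, ← zpow_natCast, eq_comm, G.z_eq]
  by_contra hc
  exact (lt_of_mul_lt_mul_right e8 r0.le).ne (v_coprime hv h.hp hp hc)

theorem gen [W.IsElliptic] (G : GD W p α ζ T T' σ₀) : (∃ τ ∈ G.H, τ ζ ≠ ζ) ∧
    ∃ (g : GQ) (k : ℕ), g α = α ∧ galQ W g T = T ∧ g ζ = ζ ^ k ∧
      (k : ZMod p) ^ ((p - 1) / 2) = -1 ∧ (∀ m : ℕ, g ^ m ∈ G.H ↔ p - 1 ∣ m) ∧
      ∀ σ : GQ, σ α = α → ∃ m : ℕ, (g ^ m)⁻¹ * σ ∈ G.H := by
  have := Fact.mk h.hp
  obtain ⟨⟨γ, hγ⟩, γ', hγ'⟩ := h.ex_v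
  constructor
  · obtain ⟨τ, h1, h2⟩ := omega_surj (nv_na p γ) h.hp (nv_lt p γ) G.hζ (j := 2)
      fun e => h.h2 ((Nat.prime_dvd_prime_iff_eq h.hp Nat.prime_two).1 e)
    refine ⟨τ, h.inr_H G (nv_na p γ) (nv_lt p γ) hγ h1, fun e => ?_⟩
    rw [h2, sq, mul_eq_left₀ G.z0] at e
    exact G.hζ.ne_one h.hp.one_lt e
  obtain ⟨k, k1, k2, k3, k4⟩ := prim_root h.hp h.h2
  obtain ⟨g, g1, g2⟩ := omega_surj (nv_na p γ') h.hp (nv_lt p γ') G.hζ k1
  have f := h.inr_fix (nv_na p γ') (nv_lt p γ') g1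
  have gT : galQ W g T = T := by
    obtain ⟨j, hj⟩ := G.U1 g f
    obtain ⟨a1, a2⟩ := h.good' (nv_na p γ') (nv_lt p γ')
    obtain ⟨i, hi⟩ := ((h.ker _ (nv_na p γ') (nv_lt p γ') _ (GD.pd g h.pT)).2 hγ').1
      (inr_E1 W (nv_na p γ') a1 a2 g1 T)
    rw [hj] at hi ⊢
    nth_rewrite 2 [← one_smul ℤ T]
    exact G.T_eq.2 (h.ind _ i (by rw [← hi, sub_smul, one_smul]))
  have gm : ∀ m : ℕ, (g ^ m) α = α ∧ galQ W (g ^ m) T = T ∧ (g ^ m) ζ = ζ ^ ((k : ℤ) ^ m) := by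
    intro m
    induction m with
    | zero => exact ⟨rfl, gal_one T, by simp⟩
    | succ m ih =>
      rw [pow_succ', gal_mul, AlgEquiv.mul_apply, AlgEquiv.mul_apply, ih.1, ih.2.1, ih.2.2,
        map_zpow₀, g2, ← zpow_natCast, ← zpow_mul, ← pow_succ']
      exact ⟨f, gT, rfl⟩
  refine ⟨g, k, f, gT, g2, k4, fun m => ?_, fun σ hσ => ?_⟩
  · obtain ⟨a1, a2, a3⟩ := gm m
    rw [← k2, G.mem_H, a2, a3]
    constructor
    · rintro ⟨-, j, b1, b2⟩
      nth_rewrite 1 [← one_smul ℤ T] at b1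
      simpa using (G.T_eq.1 b1).sub (G.z_eq.1 b2)
    · intro e
      exact ⟨a1, 1, (one_smul _ _).symm, (G.z_eq.2 e).symm⟩
  · obtain ⟨j, hj⟩ := G.U1 σ hσ
    obtain ⟨i, hi⟩ := G.gz σ
    obtain ⟨m, hm⟩ := k3 i j (fun e => by
      rw [← zpow_natCast, (G.hζ.zpow_eq_one_iff_dvd _).2 e, ← map_one σ] at hi
      exact G.hζ.ne_one h.hp.one_lt (σ.injective hi)) (fun e => h.T0 (by
      rw [← gal_one T, ← inv_mul_cancel σ, gal_mul, hj, G.dT e, map_zero]))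
    obtain ⟨a1, a2, a3⟩ := gm m
    refine ⟨m, ?_, j, ?_, ?_⟩
    · rw [AlgEquiv.mul_apply, hσ]
      nth_rewrite 1 [← a1]
      rw [← AlgEquiv.mul_apply, inv_mul_cancel, AlgEquiv.one_apply]
    · rw [gal_mul, hj, map_zsmul]
      nth_rewrite 1 [← a2]
      rw [← gal_mul, inv_mul_cancel, gal_one]
    · rw [AlgEquiv.mul_apply, hi, ← zpow_natCast ζ, G.z_eq.2 hm, zpow_mul, ← a3, map_zpow₀,
        ← AlgEquiv.mul_apply, inv_mul_cancel, AlgEquiv.one_apply]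

end EG

end Pool.Agent.MP_e23604_nt.B

end

section

/-!
Orders of inertia groups, and some group theory.
-/

open NumberField

namespace Pool.Agent.MP_e23604_nt.B

theorem index_fun {G A : Type} [Group G] [Finite A] (S : Subgroup G) (f : G → A)
    (h : ∀ σ τ, f σ = f τ → σ⁻¹ * τ ∈ S) : S.index ≠ 0 ∧ S.index ≤ Nat.card A := by
  have hi : Function.Injective fun x : G ⧸ S => f x.out := fun x y e => by
    rw [← x.out_eq', ← y.out_eq']
    exact QuotientGroup.eq.2 (h _ _ e)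
  have := Finite.of_injective _ hi
  exact ⟨S.index_ne_zero_of_finite, Nat.card_le_card_of_injective _ hi⟩

end Pool.Agent.MP_e23604_nt.B

end

section

/-!
The Kummer map for cocycles with values in E[p], for a general curve.
-/

open WeierstrassCurve AddSubgroup
open scoped Classical

namespace Pool.Agent.MP_e23604_nt.B

theorem char_gen {U H : Subgroup GQ} (hHU : H ≤ U) (hU : U.index ≠ 0) (hH : IsOpen (H : Set GQ))
    (hn : ∀ σ ∈ U, ∀ h ∈ H, σ⁻¹ * h * σ ∈ H) {g : GQ} (hgU : g ∈ U) {n : ℕ}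
    (hg : ∀ m : ℕ, g ^ m ∈ H ↔ n ∣ m) (hgen : ∀ σ ∈ U, ∃ m : ℕ, (g ^ m)⁻¹ * σ ∈ H)
    (hn0 : n ≠ 0) :
    FiniteDimensional ℚ (IntermediateField.fixedField H) ∧
      Module.finrank ℚ (IntermediateField.fixedField H) = U.index * n ∧
      (∀ σ : GQ, (∀ x ∈ IntermediateField.fixedField H, σ x = x) → σ ∈ H) ∧
      ∃ gb : IntermediateField.fixedField H ≃ₐ[ℚ] IntermediateField.fixedField H,
        (∀ (m : ℕ) (x : IntermediateField.fixedField H), ((gb ^ m) x : Qb) = (g ^ m) (x : Qb)) ∧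
          orderOf gb = n := by
  have hfix : (IntermediateField.fixedField H).fixingSubgroup = H :=
    InfiniteGalois.fixingSubgroup_fixedField ⟨H, H.isClosed_of_isOpen hH⟩
  set L := IntermediateField.fixedField H with hL
  have hfix' : ∀ σ : GQ, (∀ x ∈ L, σ x = x) → σ ∈ H := fun σ h => by
    rw [← hfix]; exact (IntermediateField.mem_fixingSubgroup_iff _ _).2 h
  have hnorm : (H.subgroupOf U).Normal := by
    refine ⟨fun h hh σ => ?_⟩
    rw [Subgroup.mem_subgroupOf] at hh ⊢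
    simpa using hn _ (U.inv_mem σ.2) _ hh
  have hord : orderOf (QuotientGroup.mk ⟨g, hgU⟩ : U ⧸ H.subgroupOf U) = n := by
    refine Nat.dvd_antisymm (orderOf_dvd_of_pow_eq_one ?_) ?_
    · rw [← QuotientGroup.mk_pow, QuotientGroup.eq_one_iff, Subgroup.mem_subgroupOf]
      exact (hg n).2 dvd_rfl
    · have := pow_orderOf_eq_one (QuotientGroup.mk ⟨g, hgU⟩ : U ⧸ H.subgroupOf U)
      rw [← QuotientGroup.mk_pow, QuotientGroup.eq_one_iff, Subgroup.mem_subgroupOf] at this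
      exact (hg _).1 this
  have hrel : H.relIndex U = n := by
    rw [← hord]
    refine (orderOf_eq_card_of_forall_mem_zpowers fun x => ?_).symm
    obtain ⟨σ, rfl⟩ := QuotientGroup.mk_surjective x
    obtain ⟨m, hm⟩ := hgen σ σ.2
    refine ⟨m, ?_⟩
    simp only [zpow_natCast]
    rw [← QuotientGroup.mk_pow, QuotientGroup.eq, Subgroup.mem_subgroupOf]
    exact hm
  have hind : H.index = U.index * n := by
    rw [← Subgroup.relIndex_mul_index hHU, hrel, mul_comm]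
  have hrank : Module.finrank ℚ L = U.index * n := by
    rw [IntermediateField.finrank_eq_fixingSubgroup_index, hfix, hind]
  have hfd : FiniteDimensional ℚ L :=
    Module.finite_of_finrank_pos (by rw [hrank]; positivity)
  have hmap : ∀ σ ∈ U, ∀ x ∈ L, σ x ∈ L := fun σ hσ x hx => by
    rw [IntermediateField.mem_fixedField_iff] at hx ⊢
    intro h hh
    have := hx _ (hn σ hσ h hh)
    nth_rewrite 2 [← this]
    rw [← AlgEquiv.mul_apply, ← AlgEquiv.mul_apply, ← mul_assoc, mul_inv_cancel_left]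
  let f : L →ₐ[ℚ] L := ((g : Qb →ₐ[ℚ] Qb).comp L.val).codRestrict L.toSubalgebra
    fun x => hmap g hgU x x.2
  let gb : L ≃ₐ[ℚ] L := AlgEquiv.ofBijective f (Algebra.IsAlgebraic.algHom_bijective f)
  have hgb : ∀ (m : ℕ) (x : L), ((gb ^ m) x : Qb) = (g ^ m) (x : Qb) := by
    intro m
    induction m with
    | zero => intro x; rfl
    | succ m ih => intro x; rw [pow_succ, pow_succ, AlgEquiv.mul_apply, AlgEquiv.mul_apply, ih]; rfl
  have hiff : ∀ m : ℕ, gb ^ m = 1 ↔ n ∣ m := fun m => by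
    rw [← hg]
    constructor
    · intro h
      refine hfix' _ fun x hx => ?_
      rw [← hgb m ⟨x, hx⟩, h]; rfl
    · intro h
      ext x
      rw [hgb]
      exact (IntermediateField.mem_fixedField_iff H x.1).1 x.2 _ h
  refine ⟨hfd, hrank, hfix', gb, hgb, Nat.dvd_antisymm (orderOf_dvd_of_pow_eq_one ?_) ?_⟩
  · exact (hiff n).2 dvd_rfl
  · exact (hiff _).1 (pow_orderOf_eq_one gb)

variable {W : WeierstrassCurve ℚ}

lemma gal_inv (σ : GQ) (P : Pts W Qb) : galQ W σ⁻¹ (galQ W σ P) = P := by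
  rw [← gal_mul, inv_mul_cancel, gal_one]

lemma gal_tor {p : ℕ} (σ : GQ) {P : Pts W Qb} (hP : p • P = 0) : p • galQ W σ P = 0 := by
  rw [← map_nsmul, hP, map_zero]

lemma inv_mod {p : ℕ} (hp : p.Prime) {i : ℤ} (hi : ¬ (p : ℤ) ∣ i) (j : ℤ) :
    ∃ m : ℤ, (p : ℤ) ∣ m * i - j := by
  obtain ⟨a, b, e⟩ := (Nat.prime_iff_prime_int.1 hp).irreducible.coprime_iff_not_dvd.2 hi
  exact ⟨j * b, -j * a, by linear_combination j * e⟩

lemma zs_eq {p : ℕ} {P : Pts W Qb} (hP : p • P = 0) {i j : ℤ} (h : (p : ℤ) ∣ i - j) :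
    i • P = j • P := by
  obtain ⟨k, hk⟩ := h
  rw [← sub_eq_zero, ← sub_smul, hk, mul_comm, mul_smul, natCast_zsmul, hP, smul_zero]

/-- A basis of E[p] and a primitive p-th root of unity. -/
structure GE (W : WeierstrassCurve ℚ) (p : ℕ) (ζ : Qb) (T T' : Pts W Qb) : Prop where
  hp : p.Prime
  h2 : p ≠ 2
  hζ : IsPrimitiveRoot ζ p
  T0 : T' ≠ 0
  pT : p • T = 0
  pT' : p • T' = 0
  ind : ∀ i j : ℤ, i • T = j • T' → (p : ℤ) ∣ i
  span : ∀ P : Pts W Qb, p • P = 0 → ∃ i j : ℤ, P = i • T + j • T'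

namespace GE

variable {p : ℕ} {ζ : Qb} {T T' : Pts W Qb} (h : GE W p ζ T T')
include h

lemma z0 : ζ ≠ 0 := h.hζ.ne_zero h.hp.ne_zero

lemma z_eq {i j : ℤ} : ζ ^ i = ζ ^ j ↔ (p : ℤ) ∣ i - j := by
  rw [← h.hζ.zpow_eq_one_iff_dvd, zpow_sub₀ h.z0, div_eq_one_iff_eq (zpow_ne_zero _ h.z0)]

lemma memA {i : ℤ} : i • T ∈ zmultiples T' ↔ (p : ℤ) ∣ i := by
  constructor
  · rintro ⟨j, hj⟩
    exact h.ind i j hj.symm
  · intro hi
    rw [zs_eq h.pT (j := 0) (by rwa [sub_zero]), zero_smul]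
    exact zero_mem _

lemma comp {P : Pts W Qb} (hP : p • P = 0) : ∃ i : ℤ, P - i • T ∈ zmultiples T' := by
  obtain ⟨i, j, rfl⟩ := h.span P hP
  exact ⟨i, j, by simp⟩

lemma uniq {P : Pts W Qb} {i j : ℤ} (hi : P - i • T ∈ zmultiples T')
    (hj : P - j • T ∈ zmultiples T') : (p : ℤ) ∣ i - j := by
  rw [← h.memA]
  convert sub_mem hj hi using 1
  rw [sub_smul]
  abel

lemma chg {P : Pts W Qb} {i j : ℤ} (hi : P - i • T ∈ zmultiples T') (e : (p : ℤ) ∣ i - j) :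
    P - j • T ∈ zmultiples T' := by rwa [← zs_eq h.pT e]

lemma root {x : Qb} (hx : x ^ p = 1) : ∃ m : ℕ, m < p ∧ x = ζ ^ m := by
  have : NeZero p := ⟨h.hp.ne_zero⟩
  obtain ⟨m, h1, hm⟩ := h.hζ.eq_pow_of_pow_eq_one hx
  exact ⟨m, h1, hm.symm⟩

lemma gz' (σ : GQ) : ∃ m : ℕ, m < p ∧ σ ζ = ζ ^ m :=
  h.root (by rw [← map_pow, h.hζ.pow_eq_one, map_one])

lemma gz (σ : GQ) : ∃ m : ℤ, σ ζ = ζ ^ m := by
  obtain ⟨m, -, hm⟩ := h.gz' σ
  exact ⟨m, by rw [hm, zpow_natCast]⟩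

/-- The stabiliser of the line through T'. -/
def U : Subgroup GQ where
  carrier := {σ | galQ W σ T' ∈ zmultiples T'}
  one_mem' := by
    change galQ W 1 T' ∈ zmultiples T'
    rw [gal_one]
    exact mem_zmultiples T'
  mul_mem' := by
    rintro σ τ ⟨i, hi⟩ ⟨j, hj⟩
    refine ⟨j * i, ?_⟩
    simp only at hi hj ⊢
    rw [gal_mul, ← hj, map_zsmul, ← hi, mul_smul]
  inv_mem' := by
    rintro σ ⟨j, hj⟩
    simp only at hj
    obtain ⟨m, hm⟩ := inv_mod h.hp (i := j) (fun e => h.T0 (by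
      rw [← gal_inv σ T', ← hj, zs_eq h.pT' (j := 0) (by rwa [sub_zero]), zero_smul,
        map_zero])) 1
    refine ⟨m, ?_⟩
    simp only
    nth_rewrite 2 [← one_smul ℤ T']
    rw [← zs_eq h.pT' hm, mul_smul, hj, map_zsmul, gal_inv]

lemma mem_U {σ : GQ} : σ ∈ h.U ↔ galQ W σ T' ∈ zmultiples T' := Iff.rfl

lemma UA {σ : GQ} (hσ : σ ∈ h.U) {P : Pts W Qb} (hP : P ∈ zmultiples T') :
    galQ W σ P ∈ zmultiples T' := by
  obtain ⟨i, rfl⟩ := hP
  simp only [map_zsmul]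
  exact zsmul_mem (h.mem_U.1 hσ) i

lemma Umul {σ : GQ} (hσ : σ ∈ h.U) {P : Pts W Qb} {i j : ℤ}
    (hj : galQ W σ T - j • T ∈ zmultiples T') (hi : P - i • T ∈ zmultiples T') :
    galQ W σ P - (j * i) • T ∈ zmultiples T' := by
  convert add_mem (h.UA hσ hi) (zsmul_mem hj i) using 1
  rw [map_sub, map_zsmul, mul_comm, mul_smul, smul_sub]
  abel

lemma Une {σ : GQ} (hσ : σ ∈ h.U) {j : ℤ} (hj : galQ W σ T - j • T ∈ zmultiples T') :
    ¬ (p : ℤ) ∣ j := fun e => by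
  have e1 := h.UA (h.U.inv_mem hσ) (h.chg hj (j := 0) (by rwa [sub_zero]))
  rw [zero_smul, sub_zero, gal_inv, ← one_smul ℤ T, h.memA] at e1
  exact (Nat.prime_iff_prime_int.1 h.hp).not_dvd_one e1

/-- The group that acts on E[p] / ℤT' and on ζ through the same character. -/
def H : Subgroup GQ where
  carrier := {σ | σ ∈ h.U ∧ ∃ j : ℤ, galQ W σ T - j • T ∈ zmultiples T' ∧ σ ζ = ζ ^ j}
  one_mem' := ⟨one_mem _, 1, by rw [gal_one, one_smul, sub_self]; exact zero_mem _, by simp⟩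
  mul_mem' := by
    rintro σ τ ⟨a1, j, a2, a3⟩ ⟨b1, k, b2, b3⟩
    refine ⟨mul_mem a1 b1, j * k, ?_, ?_⟩
    · rw [gal_mul]
      exact h.Umul a1 a2 b2
    · rw [AlgEquiv.mul_apply, b3, map_zpow₀, a3, ← zpow_mul]
  inv_mem' := by
    rintro σ ⟨a1, j, a2, a3⟩
    obtain ⟨m, hm⟩ := h.gz σ⁻¹
    obtain ⟨i, hi⟩ := h.comp (gal_tor σ⁻¹ h.pT)
    refine ⟨inv_mem a1, m, h.chg hi ?_, hm⟩
    have e : ζ ^ (j * m) = ζ ^ (1 : ℤ) := by
      rw [zpow_mul, ← a3, ← map_zpow₀, ← hm, ← AlgEquiv.mul_apply,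
        mul_inv_cancel, AlgEquiv.one_apply, zpow_one]
    have e2 := h.Umul a1 a2 hi
    rw [← gal_mul, mul_inv_cancel, gal_one] at e2
    have e3 := h.uniq e2 (j := 1) (by rw [one_smul, sub_self]; exact zero_mem _)
    refine ((Nat.prime_iff_prime_int.1 h.hp).dvd_or_dvd (a := j) ?_).resolve_left (h.Une a1 a2)
    convert e3.sub (h.z_eq.1 e) using 1
    ring

/-- The group that fixes E[p] and ζ. -/
def N : Subgroup GQ where
  carrier := {σ | (∀ Q : Pts W Qb, p • Q = 0 → galQ W σ Q = Q) ∧ σ ζ = ζ ∧ GE W p ζ T T'}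
  one_mem' := ⟨fun Q _ => gal_one Q, rfl, h⟩
  mul_mem' := by
    rintro σ τ ⟨a1, a2, -⟩ ⟨b1, b2, -⟩
    exact ⟨fun Q hQ => by rw [gal_mul, b1 Q hQ, a1 Q hQ], by rw [AlgEquiv.mul_apply, b2, a2], h⟩
  inv_mem' := by
    rintro σ ⟨a1, a2, -⟩
    refine ⟨fun Q hQ => ?_, ?_, h⟩
    · nth_rewrite 1 [← a1 Q hQ]
      exact gal_inv σ Q
    · nth_rewrite 1 [← a2]
      rw [← AlgEquiv.mul_apply, inv_mul_cancel, AlgEquiv.one_apply]

theorem gen : ∃ (g : GQ) (k : ℕ) (j w : ℤ), g ∈ h.U ∧ galQ W g T - j • T ∈ zmultiples T' ∧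
    g ζ = ζ ^ w ∧ (p : ℤ) ∣ k * j - w ∧ orderOf (k : ZMod p) ≠ 0 ∧
    (∀ m : ℕ, g ^ m ∈ h.H ↔ orderOf (k : ZMod p) ∣ m) ∧
    ∀ σ ∈ h.U, ∃ m : ℕ, (g ^ m)⁻¹ * σ ∈ h.H := by
  have := Fact.mk h.hp
  choose j hj using fun σ : GQ => h.comp (gal_tor σ h.pT)
  choose w hw using h.gz
  have cst : ∀ {a b : ℤ}, (p : ℤ) ∣ a - b ↔ (a : ZMod p) = b := fun {a b} => by
    rw [← ZMod.intCast_zmod_eq_zero_iff_dvd, Int.cast_sub, sub_eq_zero]
  have j0 : ∀ σ ∈ h.U, (j σ : ZMod p) ≠ 0 := fun σ hσ e =>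
    h.Une hσ (hj σ) ((ZMod.intCast_zmod_eq_zero_iff_dvd _ _).1 e)
  let κ : h.U →* ZMod p :=
    { toFun := fun σ => (w σ : ZMod p) / j σ
      map_one' := by
        have e1 : (w 1 : ZMod p) = (1 : ℤ) := cst.1 (h.z_eq.1 (by rw [← hw, zpow_one]; rfl))
        have e2 : (j 1 : ZMod p) = (1 : ℤ) := cst.1 (h.uniq (hj 1) (by
          rw [gal_one, one_smul, sub_self]; exact zero_mem _))
        simp [e1, e2]
      map_mul' := fun σ τ => by
        have e1 : (w (σ * τ) : ZMod p) = (w σ * w τ : ℤ) := cst.1 (h.z_eq.1 (by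
          rw [← hw, AlgEquiv.mul_apply, hw τ, map_zpow₀, hw σ, zpow_mul]))
        have e2 : (j (σ * τ) : ZMod p) = (j σ * j τ : ℤ) := cst.1 (h.uniq (hj _) (by
          rw [gal_mul]; exact h.Umul σ.2 (hj σ) (hj τ)))
        simp only [Subgroup.coe_mul, e1, e2, Int.cast_mul, mul_div_mul_comm] }
  have ker : ∀ σ : h.U, κ σ = 1 ↔ σ.1 ∈ h.H := fun σ => by
    change (w σ : ZMod p) / j σ = 1 ↔ _
    rw [div_eq_one_iff_eq (j0 _ σ.2), ← cst]
    constructor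
    · intro e
      exact ⟨σ.2, w σ, h.chg (hj σ) (by rwa [← dvd_neg, neg_sub]), hw σ⟩
    · rintro ⟨-, i, a, b⟩
      have := (h.z_eq.1 ((hw σ).symm.trans b)).sub (h.uniq (hj σ) a)
      rwa [sub_sub_sub_cancel_right] at this
  obtain ⟨⟨_, g, rfl⟩, hg⟩ := IsCyclic.exists_monoid_generator (α := κ.toHomUnits.range)
  have hk : (((κ g).val : ℕ) : ZMod p) = κ g := ZMod.natCast_zmod_val _
  refine ⟨g, (κ g).val, j g, w g, g.2, hj g, hw g, ?_, ?_, fun m => ?_, fun σ hσ => ?_⟩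
  · rw [cst, Int.cast_mul, Int.cast_natCast, hk]
    exact div_mul_cancel₀ _ (j0 _ g.2)
  · rw [hk, ← MonoidHom.coe_toHomUnits, orderOf_units]
    exact (orderOf_pos _).ne'
  · rw [hk, orderOf_dvd_iff_pow_eq_one, ← map_pow, ker]
    rfl
  · obtain ⟨m, hm⟩ := hg ⟨_, ⟨σ, hσ⟩, rfl⟩
    have e : κ.toHomUnits g ^ m = κ.toHomUnits ⟨σ, hσ⟩ := by
      have := congrArg Subtype.val hm
      simpa only [SubmonoidClass.coe_pow] using this
    have e2 : κ ((g ^ m)⁻¹ * ⟨σ, hσ⟩) = 1 := by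
      rw [← MonoidHom.coe_toHomUnits, map_mul, map_inv, map_pow, e, inv_mul_cancel, Units.val_one]
    have e3 := (ker _).1 e2
    rw [Subgroup.coe_mul, Subgroup.coe_inv, Subgroup.coe_pow] at e3
    exact ⟨m, e3⟩

variable {ξ η : GQ → Pts W Qb} {δ ε : Qb}

end GE

/-- The zero set of a cocycle. -/
def cocZero {ξ : GQ → Pts W Qb} (hξ : ξ ∈ cocycles W) : Subgroup GQ where
  carrier := {σ | ξ σ = 0}
  one_mem' := by
    have e := hξ.2 1 1
    rw [mul_one, gal_one] at e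
    exact left_eq_add.1 e
  mul_mem' := by
    intro σ τ (a : ξ σ = 0) (b : ξ τ = 0)
    change ξ (σ * τ) = 0
    rw [hξ.2, a, b, map_zero, add_zero]
  inv_mem' := by
    intro σ (a : ξ σ = 0)
    have e := hξ.2 1 1
    rw [mul_one, gal_one] at e
    have e1 := hξ.2 σ⁻¹ σ
    rw [inv_mul_cancel, left_eq_add.1 e, a, map_zero, add_zero] at e1
    exact e1.symm

end Pool.Agent.MP_e23604_nt.B

end

section

/-!
Inertia at p: the canonical subgroup, and fixed points in the supersingular case.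
-/

open WeierstrassCurve AddSubgroup
open scoped Classical

namespace Pool.Agent.MP_e23604_nt.B

variable {W : WeierstrassCurve ℚ} [W.IsElliptic] {p : ℕ} {v : AbsoluteValue Qb ℝ}

end Pool.Agent.MP_e23604_nt.B

end

section

/-!
Ordinary or supersingular.
-/

open WeierstrassCurve AddSubgroup
open scoped Classical

namespace Pool.Agent.MP_e23604_nt.B

variable {W : WeierstrassCurve ℚ} [W.IsElliptic] {p : ℕ} {v : AbsoluteValue Qb ℝ}

end Pool.Agent.MP_e23604_nt.B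

end

section

/-!
Consequences of the structure of inertia at p.
-/

open WeierstrassCurve AddSubgroup
open scoped Classical

namespace Pool.Agent.MP_e23604_nt.B

section helpers

variable {M : Type} [AddCommGroup M] {p : ℕ}

end helpers

variable {W : WeierstrassCurve ℚ} [W.IsElliptic] {p : ℕ} {v : AbsoluteValue Qb ℝ}

end Pool.Agent.MP_e23604_nt.B

end
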