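import Mathlib
import Pool.Agent.Mg.Fe23604m.G3360bb
import Pool.Agent.Mg.Fe23604m.G65b452

set_option linter.all false

section

namespace Pool.Agent.MP_f68ac8_nt.Zq
open Ev Pv Sv Zv Zk
open scoped commutatorElement

theorem sq_ZsQr {m : ℕ} [Fact m.Prime] {ψ : (ZMod m)ˣ →* Cp 2} (hs : Function.Surjective ψ)
    (u : (ZMod m)ˣ) : ψ u = 1 ↔ IsSquare (u : ZMod m) := by
  have h1 : ∀ x : Cp 2, x * x = 1 := by decide
  refine ⟨fun h => ?_, fun ⟨v, hv⟩ => ?_⟩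
  swap
  · have h0 : v ≠ 0 := fun e => u.ne_zero (by rw [hv, e, mul_zero])
    rw [show u = Units.mk0 v h0 * Units.mk0 v h0 from Units.ext hv, map_mul, h1]
  obtain ⟨g, hg⟩ := IsCyclic.exists_monoid_generator (α := (ZMod m)ˣ)
  obtain ⟨n, rfl⟩ := hg u
  rcases Nat.even_or_odd' n with ⟨k, rfl | rfl⟩
  · exact ⟨(g ^ k : (ZMod m)ˣ), by simp only [two_mul, pow_add, Units.val_mul]⟩
  · exfalso
    have h3 : ψ g = 1 := by
      simpa only [two_mul, pow_add, map_mul, h1, one_mul, pow_one] using h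
    obtain ⟨v, hv⟩ := hs (Multiplicative.ofAdd 1)
    obtain ⟨j, rfl⟩ := hg v
    simp only [map_pow, h3, one_pow] at hv
    exact absurd hv (by decide)

theorem ch_ZsQr {m : ℕ} [Fact m.Prime] (hm : P1 2 m) (g : GQ) :
    (ch 2 m g).toAdd = 0 ↔ IsSquare (cyc m g : ZMod m) := by
  obtain ⟨_, ψ, hs, hψ⟩ := ok_ZmCh hm
  rw [toAdd_eq_zero, hψ, sq_ZsQr hs]

theorem lk_ZsQr {l m : ℕ} (hl : l.Prime) (hm : P1 2 m) (h : m ≠ l) :
    lk 2 l m = 0 ↔ IsSquare (l : ZMod m) := by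
  have : Fact m.Prime := ⟨hm.1⟩
  obtain ⟨P, hP, hlP⟩ := exists_maximal_mem (Ω := Qb) hl
  obtain ⟨σ, hσ⟩ := exists_frob P hl hlP
  rw [← lk_ZmCh hl hm h hP hlP hσ, ch_ZsQr hm, cyc_frob (nm_ZmCh hl hm.1 h hP hlP) hσ]

theorem conj_ZsQr : ∃ c : GQ, c ^ 2 = 1 ∧ ∀ (n : ℕ) [NeZero n], (cyc n c : ZMod n) = -1 := by
  let φ : Qb →ₐ[ℚ] ℂ := IsAlgClosed.lift
  let _ := φ.toRingHom.toAlgebra
  have : IsScalarTower ℚ Qb ℂ := IsScalarTower.of_algebraMap_eq fun x => (φ.commutes x).symm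
  let a : Qb →ₐ[ℚ] ℂ := ((starRingEnd ℂ).comp φ.toRingHom).toRatAlgHom
  have hc : ∀ x, φ (a.restrictNormal' Qb x) = starRingEnd ℂ (φ x) := fun x =>
    AlgHom.restrictNormal_commutes a Qb x
  generalize a.restrictNormal' Qb = c at hc
  have hi : Function.Injective φ := φ.toRingHom.injective
  refine ⟨c, AlgEquiv.ext fun x => hi ?_, fun n _ => ?_⟩
  · rw [pow_two, AlgEquiv.mul_apply, hc, hc, Complex.conj_conj, AlgEquiv.one_apply]
  · have h1 : zeta Qb n ^ n = 1 := (zeta_spec n).pow_eq_one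
    have h2 : φ (zeta Qb n) ^ n = 1 := by rw [← map_pow, h1, map_one]
    have h3 := Complex.norm_eq_one_of_pow_eq_one h2 (NeZero.ne n)
    have h4 := Nat.pos_of_neZero n
    rw [cyc_eq n (k := n - 1) (hi ?_), Nat.cast_pred h4, ZMod.natCast_self, zero_sub]
    rw [hc, ← Complex.inv_eq_conj h3, map_pow]
    refine inv_eq_of_mul_eq_one_right ?_
    rw [← pow_succ', Nat.sub_add_cancel h4, h2]

theorem qr_stmt : QrStmt := by
  have z1 : ∀ x y : ZMod 2, (x = 0 ↔ y = 0) → x = y := by decide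
  have z2 : ∀ x y : ZMod 2, (x = 0 ↔ ¬ y = 0) → x = y + 1 * 1 := by decide
  refine ⟨fun l m hl hm h => ?_, ?_⟩
  · have : Fact l.Prime := ⟨hl.1⟩
    have : Fact m.Prime := ⟨hm.1⟩
    have a1 : l % 2 = 1 := hl.2
    have a2 : m % 2 = 1 := hm.2
    have b1 := lk_ZsQr hl.1 hm h.symm
    have b2 := lk_ZsQr hm.1 hl h
    by_cases h1 : l % 4 = 3
    · by_cases h2 : m % 4 = 3
      · rw [eps, eps, if_pos h1, if_pos h2]
        refine z2 _ _ ?_
        rw [b1, b2]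
        exact ZMod.exists_sq_eq_prime_iff_of_mod_four_eq_three h2 h1 h.symm
      · rw [eps, eps, if_neg h2, mul_zero, add_zero]
        refine z1 _ _ ?_
        rw [b1, b2]
        exact ZMod.exists_sq_eq_prime_iff_of_mod_four_eq_one (by omega) (by omega)
    · rw [eps, if_neg h1, zero_mul, add_zero]
      refine z1 _ _ ?_
      rw [b1, b2]
      exact (ZMod.exists_sq_eq_prime_iff_of_mod_four_eq_one (by omega) (by omega)).symm
  · obtain ⟨c, h1, h2⟩ := conj_ZsQr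
    refine ⟨c, h1, fun l hl => z1 _ _ ?_⟩
    have : Fact l.Prime := ⟨hl.1⟩
    rw [ch_ZsQr hl, h2, ZMod.exists_sq_eq_neg_one_iff, eps]
    split_ifs with h <;> simp [h]

end Pool.Agent.MP_f68ac8_nt.Zq

end

section

namespace Pool.Agent.MP_f68ac8_nt.Nd
open Zq Ev Pv Sv Zv Zk NumberField Finset Filter
open scoped Topology BigOperators commutatorElement

theorem p1_NdCo {l : ℕ} (hl : l.Prime) (ho : Odd l) : Zk.P1 2 l :=
  ⟨hl, Nat.odd_iff.1 ho⟩

theorem coN (H : Zq.Core 2) (hP : Zq.PrimStmt 2) : CoN := by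
  intro K F _ _ hFb hK hc Λ hΛ
  have hF : ∀ g : GQ, g ∈ F.fixingSubgroup := fun g => (hc g).2 (Subsingleton.elim _ _)
  have hT : HH 2 F = ⊤ := by
    rw [hFb.hh, eq_top_iff]
    exact fun g _ => hF g
  have ex : ∀ u : Λ, ∃ c : Zq.Co, c.Ok 2 K F ∧ c.l = u := fun u => by
    obtain ⟨hl, ho⟩ := hΛ u u.2
    obtain ⟨P, hPm, hlP⟩ := exists_maximal_mem (Ω := Qb) hl
    obtain ⟨σ, hσ⟩ := exists_frob P hl hlP
    obtain ⟨τ, m, h⟩ := (H.co K F hFb).1 u P σ hl (fun e => by rw [e] at ho; exact absurd ho (by decide))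
      hPm hlP (fun g _ => hF g) hσ (IntermediateField.fixingSubgroup_le hFb.le (hF σ))
      ⟨1, by decide, hF _⟩
    exact ⟨_, h, rfl⟩
  choose x h1 h2 using ex
  refine ⟨x, fun u => ⟨h1 u, ?_⟩, h2, fun u v e => Subtype.ext ?_⟩
  · rw [Ty, hT, sup_top_eq, sup_top_eq]
  · have a := fun w => ((hP K F hFb hK hc).2.2.2.2 (x w) (h1 w)).2.1
    rw [← h2, ← h2, ← a, ← a]
    exact congrArg _ e

theorem jacN : JacN := by
  intro l m hl _ hm hmo h
  have : Fact m.Prime := ⟨hm⟩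
  have h0 : ((l : ℤ) : ZMod m) ≠ 0 := by
    rw [Int.cast_natCast, Ne, ZMod.natCast_eq_zero_iff, Nat.prime_dvd_prime_iff_eq hm hl]
    exact h.symm
  have h1 := lk_ZsQr hl (p1_NdCo hm hmo) h.symm
  rw [← jacobiSym.legendreSym.to_jacobiSym, Zq.sg]
  split_ifs with e
  · rw [(legendreSym.eq_one_iff m h0).2 (by simpa using h1.1 e), Int.cast_one]
  · rw [(legendreSym.eq_neg_one_iff m).2 (by simpa using fun s => e (h1.2 s)), Int.cast_neg,
      Int.cast_one]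

theorem chnN (hB : Zq.BaseStmt 2) (hC : Zq.ChStmt) (hT : TupN) : ChnN := by
  have part : ∀ (Λ : Finset ℕ) (d : ℕ) (q : Fin d → Λ), (∀ l ∈ Λ, l.Prime) →
      Function.Injective q → chn (np q) = Zq.chi (vl q) := fun Λ d q hΛ hq => by
    rw [chn, ((hT Λ hΛ).1 d q hq).2, prod_image fun i _ j _ e => hq (Subtype.ext e), Zq.chi,
      Zk.chA]
    refine prod_congr rfl fun j _ => ?_
    rw [Pi.one_apply, Units.val_one, ZMod.val_one, pow_one, vl]
  refine ⟨part, fun n ho hs h1 => ?_⟩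
  obtain ⟨K, F, iK, iF, hFb, hK, hc, -⟩ := hB
  let q : Fin n.primeFactors.card → n.primeFactors := n.primeFactors.equivFin.symm
  have hq : Function.Injective q := n.primeFactors.equivFin.symm.injective
  have e1 : np q = n := by
    rw [np, show ∏ j, (q j : ℕ) = ∏ u : n.primeFactors, (u : ℕ) from
      Equiv.prod_comp n.primeFactors.equivFin.symm fun u => (u : ℕ),
      prod_coe_sort n.primeFactors fun u => u, Nat.prod_primeFactors_of_squarefree hs]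
  have e2 : Set.range (vl q) = ↑n.primeFactors := by
    ext l
    exact ⟨fun ⟨j, hj⟩ => hj ▸ (q j).2, fun hl =>
      ⟨n.primeFactors.equivFin ⟨l, hl⟩, by simp [vl, q]⟩⟩
  have hP : ∀ j, Zk.P1 2 (vl q j) := fun j => p1_NdCo (Nat.prime_of_mem_primeFactors (q j).2)
    (ho.of_dvd_nat (Nat.dvd_of_mem_primeFactors (q j).2))
  have e3 := part _ _ q (fun l hl => Nat.prime_of_mem_primeFactors hl) hq
  have e4 := ((hC K F hFb hK hc).2.2 _ (vl q) (Subtype.val_injective.comp hq) hP).2.1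
  rw [e1] at e3
  rw [e2, ← e3] at e4
  have hmem : chn n ∈ CycCh 2 n.primeFactors := e4 ▸ Set.mem_singleton _
  obtain ⟨l, hl, hln⟩ := Nat.exists_prime_and_dvd h1
  obtain ⟨g, -, hg⟩ := (hmem.2 l hl).1 (Nat.mem_primeFactors.2 ⟨hl, hln, hs.ne_zero⟩)
  exact ⟨e4, hmem.1, g, hg⟩

end Pool.Agent.MP_f68ac8_nt.Nd

end
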