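import Mathlib
import Pool.Agent.Mg.Fe23604m.G06f121

set_option linter.all false

namespace Pool.Agent.MP_e23604_nt.T

open Finset Filter NumberField
open MP_f68ac8_nt (cyc IsFrob)
open MP_f68ac8_nt.Zv (Ex Prob piV Unf Bx)
open MP_f68ac8_nt.Zk (NS brL lk msk Av)
open MP_f68ac8_nt.Nd (Lr Fr Gz Exm fP kap np OKp)
open Q (Wn Pre rot0)
open scoped BigOperators Topology

theorem lc_XLevT {A : Type} [AddCommGroup A] {η : GQ →* (A ≃ₗ[ℤ] A)} {b : A}
    (h : {g | η g b = b} ∈ 𝓝 (1 : GQ)) : IsLocallyConstant fun g => η g b := by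
  refine (IsLocallyConstant.iff_eventually_eq _).2 fun g => ?_
  have h1 : (fun x : GQ => g⁻¹ * x) ⁻¹' {g | η g b = b} ∈ 𝓝 g :=
    (continuous_const.mul continuous_id).continuousAt.preimage_mem_nhds (by simpa using h)
  filter_upwards [h1] with x hx
  have e : η x b = η g (η (g⁻¹ * x) b) := by
    rw [← LinearEquiv.mul_apply, ← map_mul, mul_inv_cancel_left]
  rw [e, show η (g⁻¹ * x) b = b from hx]

theorem x_LevT (hBasT : BasT) (hSemT : SemT) (hSgT : SgT) (hDecT : DecT) (hActB : ActB)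
    (hMuT : MuT) (hZeA : ZeA) (hTamI : TamI) : LevT := by
  intro A _ d J T η e β σ τ l η₀ hJ hG hT hinj hP hGen x hx m p j₀ hm hj₀ hp
  obtain ⟨mono, -, hom, -, -, hd0, hadd, -, -, h10, -⟩ := hBasT A J T hJ.toCm0
  have hR : ∀ l' ∈ univ.image l, P0 l' := fun l' h => by
    obtain ⟨j, -, rfl⟩ := mem_image.1 h
    exact hP j
  have act := hActB A J T hJ.toCm0 η _ e β σ τ hG.toGm0 hT hR
  have tam := fun j => hTamI A d J T η e β σ τ l η₀ hJ hG hT hinj hP x hx j _ (hp j).1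
  obtain ⟨K, hb⟩ := (tam j₀).1
  obtain ⟨x1, x2, ⟨K0, x3⟩, x4, x5⟩ := hx
  have gz : ∀ j, σ (l j) ∈ Gz 3 ↔ l j % 3 = 1 := fun j => by
    obtain ⟨P, k1, k2, k3, -⟩ := (hT _ (hP j)).ex
    exact (((hDecT.2.2.2 P k1).2.2.2.2 _ (hP j).1 k2).2.2 _ k3).2.1 (hP j).2
  set b := p (l j₀) with hbd
  obtain ⟨z, hz⟩ : ∃ z : GQ → A, ∀ g, z g = x g + η g b - b := ⟨_, fun _ => rfl⟩
  have zc : ∀ g h, z (g * h) = z g + η g (z h) := fun g h => by
    rw [hz, hz, hz, x2, map_mul, LinearEquiv.mul_apply, map_sub, map_add]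
    abel
  have zl : IsLocallyConstant z := by
    rw [show z = fun g => x g + η g b - b from funext hz]
    exact (x1.prodMk (lc_XLevT (hG.opn b))).comp fun u => u.1 + u.2 - b
  have zτ : ∀ j, z (τ (l j)) ∈ Wn J m := fun j => by
    have e1 : z (τ (l j)) = -Q.om J (p (l j) - b) := by
      rw [hz, hG.tam _ (mem_image_of_mem l (mem_univ j)) K b hb, eq_sub_of_add_eq (hp j).1,
        (h10 0 _).2, map_sub]
      abel
    rw [e1]
    exact neg_mem ((hom _ _).2 (hp j).2)
  have zσ : ∀ j k, 1 ≤ k → η (σ (l j)) (p (l j) - b) - (p (l j) - b) ∈ Wn J k →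
      z (σ (l j)) ∈ Wn J k := fun j k hk h => by
    have e1 : z (σ (l j)) = (x (σ (l j)) + η (σ (l j)) (p (l j)) - p (l j)) -
        (η (σ (l j)) (p (l j) - b) - (p (l j) - b)) := by
      rw [hz, map_sub]
      abel
    rw [e1]
    exact sub_mem (mono _ _ hk (tam j).2) h
  have step : ∀ k, m ≤ k → (∀ g, z g ∈ Wn J (k + 1)) → ∀ g, z g ∈ Wn J k := by
    intro k hk h1
    obtain ⟨a, ha⟩ : ∃ a : GQ → ZMod 3, ∀ g, a g = dig J T k (z g) := ⟨_, fun _ => rfl⟩
    have a0 : ∀ g, a g = 0 ↔ z g ∈ Wn J k := fun g => by rw [ha, hd0 k _ (h1 g)]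
    have al : IsLocallyConstant a := by
      rw [show a = fun g => dig J T k (z g) from funext ha]
      exact zl.comp (dig J T k)
    have ac : ∀ g h, a (g * h) = a g + (if Even k then 1 else sg g) * a h := fun g h => by
      rw [ha, ha, ha, zc, (hadd k _ (h1 g) _ (((act g).1.1 _ _).2 (h1 h))).1,
        (act g).2.1 k _ (h1 h)]
    have au : ∀ P, Out (univ.image l) P → ∀ g ∈ P.inertia GQ, a g = 0 := fun P hO g hg => by
      rw [a0, hz, x4 P hO g hg, hG.unr P hO g hg K b hb, zero_add, sub_self]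
      exact zero_mem _
    have aτ : ∀ j, a (τ (l j)) = -(0 : V3 d) j := fun j => by
      rw [Pi.zero_apply, neg_zero, a0]
      exact mono _ _ hk (zτ j)
    intro g
    rw [← a0]
    by_cases hev : Even k
    · simp only [if_pos hev, one_mul] at ac
      obtain ⟨-, γ, h2, h3⟩ := hZeA d σ τ e β l hT hinj hP a 0 al ac au aτ
      refine h3 (fun _ => rfl) (hGen.ga 0 γ fun y => ?_).2 g
      have h4 := h2 y
      have h5 : ∀ j, a (σ (l j)) = 0 := fun j => (a0 _).2 (zσ j k (hm.trans hk)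
        ((act _).1.2 k hev _ (mono _ _ (by omega) (hp j).2)))
      simp only [h5, Pi.zero_apply, mul_zero, add_zero, neg_zero, zero_mul, sum_const_zero,
        zero_add] at h4 ⊢
      exact h4.symm
    · simp only [if_neg hev] at ac
      obtain ⟨γ, h2, -, h3⟩ := hMuT d σ τ e β l hT hinj hP a 0 al ac au aτ
      obtain ⟨j, h4, h5⟩ := hGen.g3
      have h6 : l j % 3 = 1 := of_decide_eq_true h4
      have h7 : a (σ (l j)) = 0 := (a0 _).2 (zσ j k (hm.trans hk)
        (mono _ _ hk (((act _).2.2 ((gz j).2 h6)).1 m _ (hp j).2)))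
      have h8 := h2 j h6
      simp only [h7, Dt.Kf, Pi.zero_apply, mul_zero, add_zero, sub_zero, sum_const_zero,
        zero_add] at h8
      have h9 := h3 (fun _ => rfl) ((mul_eq_zero.1 (neg_eq_zero.1 h8.symm)).resolve_right h5)
      by_cases hg : g ∈ Gz 3
      · exact h9 g hg
      · have k1 : σ (l j₀) ∉ Gz 3 := fun h => hj₀ ((gz j₀).1 h)
        have k2 : a (σ (l j₀)) = 0 := (a0 _).2 (zσ j₀ k (hm.trans hk) (by
          rw [← hbd, sub_self, map_zero, sub_self]
          exact zero_mem _))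
        have k3 := ac (g * (σ (l j₀))⁻¹) (σ (l j₀))
        rwa [inv_mul_cancel_right, k2, mul_zero, add_zero,
          h9 _ (hSgT.2.2.2.2.2.2.1 g hg _ (by rwa [Subgroup.inv_mem_iff]))] at k3
  have desc : ∀ t, (∀ g, z g ∈ Wn J (m + t)) → ∀ g, z g ∈ Wn J m := by
    intro t
    induction t with
    | zero => exact id
    | succ t ih => exact fun h => ih (step _ (Nat.le_add_right _ _) h)
  have fin := desc (K0 + K) fun g => by
    rw [hz]
    exact sub_mem (add_mem (mono _ _ (by omega) (x3 g))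
      (mono _ _ (by omega) (((act g).1.1 K b).2 hb))) (mono _ _ (by omega) hb)
  refine ⟨fun g => hz g ▸ fin g, ?_⟩
  obtain ⟨g, g1, g2, g3⟩ := hG.big
  refine ((hSemT A J T hJ.toCm0 (η g) (hG.fix g)).1 (hG.lin g g2)).2.2.2 g3 K m b hb ?_
  have := fin g
  rwa [hz, x5 g g1, zero_add] at this

end Pool.Agent.MP_e23604_nt.T
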