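import Mathlib
import Pool.Agent.Mg.Fe23604m.G81ce00
import Pool.Agent.Mg.Fe23604m.Gbd9fe3

set_option linter.all false

section

namespace Pool.Agent.MP_f68ac8_nt.Zk

open Zv
open scoped commutatorElement
open Finset
open scoped BigOperators

theorem card_ZkK1 {F M M' : Type} [Ring F] [AddCommGroup M] [Module F M] [AddCommGroup M']
    [Module F M'] (φ : M →ₗ[F] M') :
    Nat.card M = Nat.card (LinearMap.ker φ) * Nat.card (LinearMap.range φ) := by
  rw [Submodule.card_eq_card_quotient_mul_card (LinearMap.ker φ),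
    Nat.card_congr φ.quotKerEquivRange.toEquiv]

theorem prob_ZkK1 {F M M' : Type} [Ring F] [AddCommGroup M] [Module F M] [AddCommGroup M']
    [Module F M'] [Fintype M] [DecidableEq M'] (φ : M →ₗ[F] M') :
    ∑ x, (if φ x = 0 then 1 else 0 : ℝ) =
      Fintype.card M * (1 / Nat.card (LinearMap.range φ)) := by
  have h1 : Finite (LinearMap.range φ) := Finite.of_surjective _ φ.surjective_rangeRestrict
  have h2 : (0 : ℝ) < Nat.card (LinearMap.range φ) := by exact_mod_cast Nat.card_pos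
  have h3 : Nat.card (LinearMap.ker φ) = (univ.filter fun x => φ x = 0).card := by
    rw [← Fintype.card_subtype, ← Nat.card_eq_fintype_card]
    rfl
  rw [sum_boole, ← Nat.card_eq_fintype_card, card_ZkK1 φ, h3]
  push_cast
  field_simp

theorem supp_ZkK1 {M : Type} [Fintype M] [DecidableEq M] (Ω : Finset M) (f : Finset M → M → ℝ)
    (h0 : ∀ S σ, 0 ≤ f S σ) (h1 : ∀ S ⊆ Ω, ∑ σ ∈ S, f S σ ≤ 1) (d : ℕ) :
    ∑ s ∈ Fintype.piFinset fun _ : Fin d => Ω, ∏ i, f (univ.image s) (s i) ≤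
      2 ^ Fintype.card M := by
  rw [← sum_fiberwise_of_maps_to (t := Ω.powerset) (g := fun s => univ.image s) fun s hs =>
    mem_powerset.2 fun x hx => by
      obtain ⟨i, -, rfl⟩ := mem_image.1 hx
      exact Fintype.mem_piFinset.1 hs i]
  refine (sum_le_card_nsmul _ _ 1 fun S hS => ?_).trans ?_
  · calc ∑ s ∈ (Fintype.piFinset fun _ : Fin d => Ω) with univ.image s = S,
          ∏ i, f (univ.image s) (s i)
        = ∑ s ∈ (Fintype.piFinset fun _ : Fin d => Ω) with univ.image s = S, ∏ i, f S (s i) :=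
          sum_congr rfl fun s hs => by rw [(mem_filter.1 hs).2]
      _ ≤ ∑ s ∈ Fintype.piFinset fun _ : Fin d => S, ∏ i, f S (s i) :=
          sum_le_sum_of_subset_of_nonneg (fun s hs => Fintype.mem_piFinset.2 fun i => by
            rw [← (mem_filter.1 hs).2]
            exact mem_image_of_mem s (mem_univ i)) fun s _ _ => prod_nonneg fun i _ => h0 _ _
      _ = ∏ _i : Fin d, ∑ σ ∈ S, f S σ :=
          (prod_univ_sum (fun _ : Fin d => S) fun _ σ => f S σ).symm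
      _ ≤ 1 := prod_le_one (fun _ _ => sum_nonneg fun _ _ => h0 _ _)
          fun _ _ => h1 S (mem_powerset.1 hS)
  · rw [card_powerset, nsmul_eq_mul, mul_one]
    push_cast
    exact pow_le_pow_right₀ one_le_two (card_le_univ Ω)

section
variable {p a b c e : ℕ} (N : Ln p a b c e)

/-- the joint linear map -/
def B_ZkK1 (σ : V p a × V p c) : (V p a × V p c) →ₗ[ZMod p] V p b × V p e :=
  LinearMap.prod (N.b1 σ.1 ∘ₗ LinearMap.fst _ _ _)
    (N.b2 σ.1 ∘ₗ LinearMap.snd _ _ _ - N.b2.flip σ.2 ∘ₗ LinearMap.fst _ _ _)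

theorem B_apply_ZkK1 (σ x : V p a × V p c) :
    B_ZkK1 N σ x = (N.b1 σ.1 x.1, N.b2 σ.1 x.2 - N.b2 x.1 σ.2) := rfl

theorem fib_ZkK1 [Fact p.Prime] (hN : N.Ok0) (S : Finset (V p a × V p c))
    (hS : ∀ σ ∈ S, σ.1 ∈ N.ty ∧ σ.2 ∈ N.A σ.1) {σ : V p a × V p c} (hσ : σ ∈ S) :
    (S.filter fun x => x.1 = σ.1).card * Nat.card ((Submodule.span (ZMod p)
        ((S.image Prod.fst : Finset (V p a)) : Set (V p a))).map (N.b1 σ.1)) ≤
      Nat.card ((Submodule.span (ZMod p) (S : Set (V p a × V p c))).map (B_ZkK1 N σ)) := by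
  rw [card_ZkK1 ((LinearMap.fst (ZMod p) (V p b) (V p e)).domRestrict
    ((Submodule.span (ZMod p) (S : Set (V p a × V p c))).map (B_ZkK1 N σ))),
    LinearMap.range_domRestrict]
  have e1 : ((Submodule.span (ZMod p) (S : Set (V p a × V p c))).map (B_ZkK1 N σ)).map
      (LinearMap.fst (ZMod p) (V p b) (V p e)) = (Submodule.span (ZMod p)
        ((S.image Prod.fst : Finset (V p a)) : Set (V p a))).map (N.b1 σ.1) := by
    rw [coe_image, ← Submodule.map_comp,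
      show (Prod.fst '' (S : Set (V p a × V p c))) = LinearMap.fst (ZMod p) (V p a) (V p c) '' S
        from rfl, ← Submodule.map_span, ← Submodule.map_comp]
    rfl
  rw [e1]
  refine Nat.mul_le_mul_right _ ?_
  rw [← Nat.card_eq_finsetCard]
  refine Nat.card_le_card_of_injective (fun x => ⟨⟨B_ZkK1 N σ x.1, Submodule.mem_map_of_mem
    (Submodule.subset_span (mem_filter.1 x.2).1)⟩, ?_⟩) ?_
  · show N.b1 σ.1 x.1.1 = 0
    rw [(mem_filter.1 x.2).2, hN.alt]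
  · rintro ⟨x, hx⟩ ⟨y, hy⟩ h
    have h1 : B_ZkK1 N σ x = B_ZkK1 N σ y := congrArg (fun z => z.1.1) h
    obtain ⟨hx1, hx2⟩ := mem_filter.1 hx
    obtain ⟨hy1, hy2⟩ := mem_filter.1 hy
    have h2 := congrArg Prod.snd h1
    rw [B_apply_ZkK1, B_apply_ZkK1, hx2, hy2] at h2
    have h3 := hN.inj σ.1 (hS σ hσ).1 (x.2 - y.2)
      (sub_mem (hx2 ▸ (hS x hx1).2) (hy2 ▸ (hS y hy1).2))
      (by rw [map_sub, sub_eq_zero]; exact sub_left_inj.1 h2)
    exact Subtype.ext (Prod.ext (hx2.trans hy2.symm) (sub_eq_zero.1 h3))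

theorem mass_ZkK1 [Fact p.Prime] (hM : MassStmt p) (hN : N.Ok0) (S : Finset (V p a × V p c))
    (hS : ∀ σ ∈ S, σ.1 ∈ N.ty ∧ σ.2 ∈ N.A σ.1) :
    ∑ σ ∈ S, (1 : ℝ) / Nat.card ((Submodule.span (ZMod p) (S : Set (V p a × V p c))).map
      (B_ZkK1 N σ)) ≤ 1 := by
  refine le_trans ?_ (hM a b c e N hN (S.image Prod.fst) fun τ hτ => ?_)
  · rw [← sum_fiberwise_of_maps_to (t := S.image Prod.fst) (g := Prod.fst)
      fun x hx => mem_image_of_mem _ hx]
    refine sum_le_sum fun τ hτ => ?_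
    obtain ⟨σ₀, hσ₀, rfl⟩ := mem_image.1 hτ
    have h1 : (0 : ℝ) < (S.filter fun x => x.1 = σ₀.1).card := by
      exact Nat.cast_pos.2 (card_pos.2 ⟨σ₀, mem_filter.2 ⟨hσ₀, rfl⟩⟩)
    have h2 : (0 : ℝ) < Nat.card ((Submodule.span (ZMod p)
        ((S.image Prod.fst : Finset (V p a)) : Set (V p a))).map (N.b1 σ₀.1)) := by
      exact_mod_cast Nat.card_pos
    refine (sum_le_card_nsmul _ _ (1 / ((S.filter fun x => x.1 = σ₀.1).card *
      Nat.card ((Submodule.span (ZMod p)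
        ((S.image Prod.fst : Finset (V p a)) : Set (V p a))).map (N.b1 σ₀.1)) : ℝ))
      fun σ hσ => ?_).trans (le_of_eq ?_)
    · obtain ⟨h3, h4⟩ := mem_filter.1 hσ
      have h5 := fib_ZkK1 N hN S hS h3
      rw [h4] at h5
      exact one_div_le_one_div_of_le (mul_pos h1 h2) (by exact_mod_cast h5)
    · rw [nsmul_eq_mul]
      field_simp
  · obtain ⟨σ, hσ, rfl⟩ := mem_image.1 hτ
    exact (hS σ hσ).1

open Classical in
theorem ker_ZkK1 [Fact p.Prime] {d : ℕ} (r : Fin d → Fin d → ZMod p) :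
    ((N.Ker r).ncard : ℝ) = ∑ s ∈ Fintype.piFinset fun _ : Fin d =>
      univ.filter fun σ : V p a × V p c => σ.1 ∈ N.ty ∧ σ.2 ∈ N.A σ.1,
      ∏ i, if (B_ZkK1 N (s i) ∘ₗ Fintype.linearCombination (ZMod p) s) (r i) = 0 then 1 else 0 := by
  simp only [prod_boole]
  refine Eq.trans ?_ (@sum_boole _ ℝ _ _ (_) _).symm
  rw [Nat.cast_inj, ← Set.ncard_coe_finset]
  refine Set.ncard_congr (fun x _ i => (x.1 i, x.2 i)) ?_ ?_ ?_
  · rintro x ⟨⟨h1, h2⟩, h3, h4⟩
    simp only [coe_filter, Set.mem_ofPred_eq, Fintype.mem_piFinset, mem_filter, mem_univ, true_and,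
      LinearMap.comp_apply, Fintype.linearCombination_apply, B_apply_ZkK1, Prod.fst_sum,
      Prod.snd_sum, Prod.smul_fst, Prod.smul_snd, Prod.mk_eq_zero, forall_const]
    exact ⟨fun i => ⟨h1 i, h3 i⟩, fun i => ⟨h2 i, h4 i⟩⟩
  · intro x y _ _ h
    exact Prod.ext (funext fun i => congrArg Prod.fst (congrFun h i))
      (funext fun i => congrArg Prod.snd (congrFun h i))
  · intro s hs
    simp only [coe_filter, Set.mem_ofPred_eq, Fintype.mem_piFinset, mem_filter, mem_univ, true_and,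
      LinearMap.comp_apply, Fintype.linearCombination_apply, B_apply_ZkK1, Prod.fst_sum,
      Prod.snd_sum, Prod.smul_fst, Prod.smul_snd, Prod.mk_eq_zero, forall_const] at hs
    exact ⟨(fun i => (s i).1, fun i => (s i).2), ⟨⟨fun i => (hs.1 i).1, fun i => (hs.2 i).1⟩,
      fun i => (hs.1 i).2, fun i => (hs.2 i).2⟩, rfl⟩

end

theorem k1_stmt (p : ℕ) [Fact p.Prime] (hM : MassStmt p) : K1Stmt p := by
  classical
  intro a b c e d N hN
  simp only [ker_ZkK1]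
  rw [expect_sum_comm]
  have h1 := supp_ZkK1 (univ.filter fun σ : V p a × V p c => σ.1 ∈ N.ty ∧ σ.2 ∈ N.A σ.1)
    (fun S σ => (1 : ℝ) / Nat.card ((Submodule.span (ZMod p) (S : Set (V p a × V p c))).map
      (B_ZkK1 N σ))) (fun _ _ => by positivity)
    (fun S hS => mass_ZkK1 N hM hN S fun σ hσ => (mem_filter.1 (hS hσ)).2) d
  have h2 : Fintype.card (V p a × V p c) = p ^ a * p ^ c := by
    simp only [Fintype.card_prod, Fintype.card_pi, ZMod.card, prod_const, card_univ,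
      Fintype.card_fin]
  rw [h2] at h1
  refine le_trans (le_of_eq (sum_congr rfl fun s _ => ?_)) h1
  have h3 : (0 : ℝ) < Fintype.card (Fin d → ZMod p) := by exact_mod_cast Fintype.card_pos
  rw [expect_eq_sum_div_card, ← Fintype.piFinset_univ, ← prod_univ_sum (fun _ => univ)
    fun i ρ => if (B_ZkK1 N (s i) ∘ₗ Fintype.linearCombination (ZMod p) s) ρ = 0 then (1 : ℝ)
      else 0, Fintype.card_piFinset, Nat.cast_prod, ← prod_div_distrib]
  refine prod_congr rfl fun i _ => ?_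
  have h4 := prob_ZkK1 (B_ZkK1 N (s i) ∘ₗ Fintype.linearCombination (ZMod p) s)
  rw [LinearMap.range_comp, Fintype.range_linearCombination] at h4
  rw [coe_image, coe_univ, Set.image_univ, card_univ, div_eq_iff h3.ne', mul_comm, ← h4]

end Pool.Agent.MP_f68ac8_nt.Zk

end

section

/-! The main estimate. -/

namespace Pool.Agent.MP_f68ac8_nt.Zk

open Zv
open scoped commutatorElement

open Finset in
theorem av_sum_ZkMulti {d : ℕ} {U : Fin d → Type} [∀ j, Fintype (U j)] {R A : Type} [Fintype R]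
    [Fintype A] {w : ∀ j, U j → ℝ} {I : Type} [Fintype I] (s : Finset I)
    (F : I → R → A → (∀ j, U j) → ℝ) {b : ℝ} (hb : 0 ≤ b)
    (h : ∀ i ∈ s, Av_ZaMulti w (F i) ≤ b) :
    Av_ZaMulti w (fun r a q => ∑ i ∈ s, F i r a q) ≤ Fintype.card I * b := by
  have e : Av_ZaMulti w (fun r a q => ∑ i ∈ s, F i r a q) = ∑ i ∈ s, Av_ZaMulti w (F i) := by
    simp only [Av_ZaMulti, Ex, smul_sum, ← expect_sum_comm]
    exact expect_congr rfl fun r _ => expect_congr rfl fun a _ => sum_comm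
  rw [e]
  refine (sum_le_card_nsmul _ _ _ h).trans ?_
  rw [nsmul_eq_mul]
  exact mul_le_mul_of_nonneg_right (Nat.cast_le.2 (card_le_univ s)) hb

theorem low_ZkMulti {p : ℕ} [Fact p.Prime] (hL : LowStmt p) {P : Type} [Group P] [Fintype P]
    {T : Fil p P} {D : Gd p P} {La : LaT D} {L l n B d : ℕ} (hP : Pk T D La L l n)
    {U : Fin d → Type} {y : (Σ j, U j) → FreeGroup (Σ j, U j)} {q : ∀ j, U j}
    (h : Good T D La L l B (rr y q p)) (i : ℕ) (hi : 1 ≤ i) (hl : i ≤ l) :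
    Nn y q T i ≤ (B : ℝ) ^ i := by
  have hb := hP.big
  induction i, hi using Nat.le_induction with
  | base =>
    rw [pow_one]
    exact (hL P T D La L l n hP d U y q 1 le_rfl (by omega)).2.1.trans
      (Nat.cast_le.2 (h.1 1 le_rfl hl))
  | succ i hi ih =>
    rw [pow_succ]
    exact (hL P T D La L l n hP d U y q i hi (by omega)).2.2.trans
      (mul_le_mul (ih (by omega)) (Nat.cast_le.2 (h.1 i hi (by omega))) (Nat.cast_nonneg _)
        (by positivity))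

open Classical Finset in
theorem multi_stmt (p : ℕ) [Fact p.Prime] (hL : LowStmt p) (hR : RecStmt p) (hO : OrbStmt p)
    (hE : ErrStmt p) : MultiStmt p := by
  intro P _ _ T D La L l n hP B d ε hε
  have hb := hP.big
  have hl := hP.ts.pos
  obtain ⟨c, hc⟩ : ∃ c : ℕ → ℝ, ∀ i, c i = Fintype.card (Fin d → P) *
    Fintype.card (Fin d → V p (D.k (i + 1 + 1))) := ⟨_, fun _ => rfl⟩
  have c0 : ∀ i, 0 ≤ c i := fun i => by rw [hc]; positivity
  have C0 : 0 ≤ ∑ i ∈ range (L - p), c i := sum_nonneg fun i _ => c0 i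
  obtain ⟨ε', hε', hε2⟩ : ∃ ε' : ℝ, 0 < ε' ∧ (∑ i ∈ range (L - p), c i) * ε' ≤ ε := by
    refine ⟨ε / (∑ i ∈ range (L - p), c i + 1), by positivity, ?_⟩
    rw [← mul_div_assoc, div_le_iff₀ (by positivity)]
    linarith
  obtain ⟨η, hη, hE'⟩ := hE P T D La L l n hP d ε' hε'
  refine ⟨η, hη, fun U _ w Y _ _ y hw hwη hEQ X hX => ?_⟩
  let m : ℕ → Unit → ((Σ j, U j) → Y) → (∀ j, U j) → ℝ := fun j _ a q =>
    if Good T D La L l B (rr (fun u => y u (a u)) q p) then Nn (fun u => y u (a u)) q T j else 0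
  have step : ∀ i, l ≤ i → i + p + 1 ≤ L →
      Av_ZaMulti w (m (i + 1)) ≤ Av_ZaMulti w (m i) + c i * ε' := fun i h1 h2 => by
    obtain ⟨Bs, hB, hN⟩ := hR P T D La L l n hP d i (hl.trans h1) h2
    refine (av_mono_ZaMulti hw (G := fun r a q => m i r a q +
      ∑ x ∈ Bs, ∑ z : Fin d → V p (D.k (i + 1 + 1)) with z ≠ 0,
        (Tm (fun u => y u (a u)) q T D (fun r => Good T D La L l B r ∧
          (lnOf T D La i).Du r (tyOf D x) z) i x z).re) fun r a q => ?_).trans ?_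
    · simp only [m]
      by_cases h : Good T D La L l B (rr (fun u => y u (a u)) q p)
      · rw [if_pos h, if_pos h]
        refine (hN U _ q).trans_eq ?_
        simp only [Tm, h, true_and]
      · simp [Tm, h]
    · rw [av_add_ZaMulti, hc, mul_assoc]
      refine add_le_add le_rfl (av_sum_ZkMulti Bs _ (by positivity) fun x hx =>
        av_sum_ZkMulti _ _ hε'.le fun z hz => ?_)
      by_cases h : (∀ j, z j ∈ La i (tyOf D x j)) ∧ Rich (tyOf D x) (i + 1) z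
      · exact av_re_ZaMulti _ ε' fun _ => hE' U w Y y hw hwη hEQ i x z _ h1 h2 (hB x hx) h.1 h.2
      · refine (av_mono_ZaMulti hw fun r a q => ?_).trans_eq (av_const_ZaMulti hw ε')
        rw [Tm, if_neg, Complex.zero_re]
        · exact hε'.le
        · rintro ⟨⟨h3, h4⟩, h5⟩
          exact h ⟨h4.1, h3.2 i h1 h2 _ z ((hL P T D La L l n hP d U _ q i (hl.trans h1) h2).1 x
            ⟨hB x hx, h5⟩) h4 (mem_filter.1 hz).2⟩
  have key : ∀ j, l ≤ j → j + p ≤ L →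
      Av_ZaMulti w (m j) ≤ B ^ l + (∑ i ∈ range j, c i) * ε' := fun j hj => by
    induction j, hj using Nat.le_induction with
    | base =>
      intro _
      refine le_trans ?_ (le_add_of_nonneg_right
        (mul_nonneg (sum_nonneg fun i _ => c0 i) hε'.le))
      refine (av_mono_ZaMulti hw fun r a q => ?_).trans_eq (av_const_ZaMulti hw _)
      simp only [m]
      split_ifs with h
      · exact low_ZkMulti hL hP h l hl le_rfl
      · positivity
    | succ j hj ih =>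
      intro h
      have := step j hj (by omega)
      rw [sum_range_succ, add_mul]
      linarith [ih (by omega)]
  have h2 : (1 : ℝ) ≤ 2 ^ (L - p - l) := one_le_pow₀ one_le_two
  have h1 : (Ex w fun q => if X q then (1 : ℝ) else 0) ≤
      Av_ZaMulti w fun r a q => ((2 : ℝ) ^ (L - p - l))⁻¹ * m (L - p) r a q := by
    refine le_trans (le_of_eq ?_) (av_mono_ZaMulti hw
      (F := fun _ _ q => if X q then (1 : ℝ) else 0) fun r a q => ?_)
    · rw [av_q_ZaMulti]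
      simp only [Fintype.expect_const]
    · simp only [m]
      by_cases h3 : X q
      · obtain ⟨h4, x, h5, h6, h7⟩ := hX q h3 a
        rw [if_pos h3, if_pos h4, le_inv_mul_iff₀ (by positivity), mul_one]
        exact hO P T D La L l n hP d U _ q x h5 h6 h7
      · rw [if_neg h3]
        unfold Nn
        split_ifs <;> positivity
  rw [av_mul_ZaMulti] at h1
  refine h1.trans ?_
  rw [inv_mul_le_iff₀ (by positivity), mul_add, mul_div_cancel₀ _ (by positivity)]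
  exact (key (L - p) (by omega) (by omega)).trans
    (add_le_add le_rfl (hε2.trans (le_mul_of_one_le_left hε.le h2)))

end Pool.Agent.MP_f68ac8_nt.Zk

end

section

/-! Dual vectors are rich, and most matrices are generic. -/

namespace Pool.Agent.MP_f68ac8_nt.Zk

open Zv
open scoped commutatorElement
open Finset
open scoped BigOperators

section
variable {p a b c e : ℕ} [Fact p.Prime] (N : Ln p a b c e)

variable {d : ℕ} (s : Fin d → V p a × V p e)

end

end Pool.Agent.MP_f68ac8_nt.Zk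

end

section

namespace Pool.Agent.MP_f68ac8_nt.Zk
open Zv
open scoped commutatorElement

section
variable {p : ℕ} {P : Type} [Group P] {T : Fil p P} {D : Gd p P} {L l n : ℕ}

theorem br_ZkDer (hT : TS T L l n) {i : ℕ} (hi : 1 ≤ i) (g : P) {h : P} (hh : h ∈ T.F i) :
    ⁅g, h⁆ ∈ T.F (i + 1) :=
  add_comm 1 i ▸ hT.ns.comm 1 i le_rfl hi g (hT.one ▸ Subgroup.mem_top g) h hh

theorem inv_ZkDer (hD : D.Ok T) {i : ℕ} (hi : 1 ≤ i) {g : P} (hg : g ∈ T.F i) :
    D.e i g⁻¹ = -D.e i g := by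
  refine eq_neg_of_add_eq_zero_left ?_
  rw [← hD.add i hi _ (inv_mem hg) _ hg, inv_mul_cancel]
  exact (hD.zero i hi 1 (one_mem _)).2 (one_mem _)

theorem low_ZkDer (hT : TS T L l n) (hD : D.Ok T) {i : ℕ} (hi : 1 ≤ i) {g : P}
    (hg : g ∈ T.F (i + 1)) : g ∈ T.F i ∧ D.e i g = 0 :=
  have h := hT.ns.anti i (i + 1) hi (by omega) hg
  ⟨h, (hD.zero i hi g h).2 hg⟩

theorem conj_ZkDer (hT : TS T L l n) (hD : D.Ok T) {i : ℕ} (hi : 1 ≤ i) (g : P) {h : P}
    (hh : h ∈ T.F i) : g * h * g⁻¹ ∈ T.F i ∧ D.e i (g * h * g⁻¹) = D.e i h := by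
  obtain ⟨h1, h2⟩ := low_ZkDer hT hD hi (br_ZkDer hT hi g hh)
  rw [show g * h * g⁻¹ = ⁅g, h⁆ * h by rw [commutatorElement_def]; group]
  exact ⟨mul_mem h1 hh, by rw [hD.add i hi _ h1 _ hh, h2, zero_add]⟩

theorem eq_ZkDer (hD : D.Ok T) {i : ℕ} (hi : 1 ≤ i) {g h : P} (hg : g ∈ T.F i) (hh : h ∈ T.F i)
    (e : D.e i g = D.e i h) : g⁻¹ * h ∈ T.F (i + 1) :=
  (hD.zero i hi _ (mul_mem (inv_mem hg) hh)).1 (by
    rw [hD.add i hi _ (inv_mem hg) _ hh, inv_ZkDer hD hi hg, e, neg_add_cancel])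

theorem one_ZkDer (hT : TS T L l n) (hD : D.Ok T) {i : ℕ} (hi : 1 ≤ i) (g : P) {h : P}
    (hh : h ∈ T.F (i + 1)) : D.e 1 (g * h) = D.e 1 g := by
  obtain ⟨h1, h2⟩ := low_ZkDer hT hD le_rfl (hT.ns.anti (1 + 1) (i + 1) (by omega) (by omega) hh)
  rw [hD.add 1 le_rfl g (hT.one ▸ Subgroup.mem_top g) h h1, h2, add_zero]

theorem free_ZkDer (hT : TS T L l n) (hD : D.Ok T) {i d : ℕ} (hi : 1 ≤ i) {Λ : Type}
    {X X' : Λ → P} {c : Fin d → Λ → Cp p} {u : Fin d → V p (D.k i)}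
    (h : ∀ a, (X a)⁻¹ * X' a ∈ T.F i ∧ D.e i ((X a)⁻¹ * X' a) = ∑ j, (c j a).toAdd • u j)
    (w : FreeGroup Λ) : (FreeGroup.lift X w)⁻¹ * FreeGroup.lift X' w ∈ T.F i ∧
      D.e i ((FreeGroup.lift X w)⁻¹ * FreeGroup.lift X' w) =
        ∑ j, (FreeGroup.lift (c j) w).toAdd • u j := by
  induction w using FreeGroup.induction_on with
  | C1 => simpa using (hD.zero i hi 1 (one_mem _)).2 (one_mem _)
  | of a => simpa using h a
  | inv_of a _ =>
    obtain ⟨h1, h2⟩ := conj_ZkDer hT hD hi (X a) (inv_mem (h a).1)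
    rw [inv_ZkDer hD hi (h a).1, (h a).2] at h2
    simpa [mul_assoc] using And.intro h1 h2
  | mul a b ha hb =>
    obtain ⟨h1, h2⟩ := conj_ZkDer hT hD hi (FreeGroup.lift X b)⁻¹ ha.1
    have e : ∀ a b a' b' : P, (a * b)⁻¹ * (a' * b') = b⁻¹ * (a⁻¹ * a') * b⁻¹⁻¹ * (b⁻¹ * b') :=
      fun _ _ _ _ => by group
    simp only [map_mul, toAdd_mul, add_smul, Finset.sum_add_distrib]
    rw [e]
    exact ⟨mul_mem h1 hb.1, by rw [hD.add i hi _ h1 _ hb.1, h2, ha.2, hb.2]⟩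

variable {d : ℕ} {U : Fin d → Type} {y : (Σ j, U j) → FreeGroup (Σ j, U j)} {q : ∀ j, U j}

theorem word_ZkDer (hT : TS T L l n) (hD : D.Ok T) {i : ℕ} (hi : 1 ≤ i) (x : Fin d → P)
    {v : Fin d → P} (hv : ∀ j, v j ∈ T.F i) (k : Fin d) :
    (Yw y q x k)⁻¹ * Yw y q (x * v) k ∈ T.F i ∧
      D.e i ((Yw y q x k)⁻¹ * Yw y q (x * v) k) = ∑ j, rr y q p k j • D.e i (v j) := by
  refine free_ZkDer hT hD hi ?_ _
  rintro ⟨j, u⟩
  by_cases h : u = q j
  · subst h
    rw [Finset.sum_eq_single j (fun j' _ e => by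
      rw [if_neg fun e' => e (congrArg Sigma.fst e').symm, toAdd_one, zero_smul]) (by simp)]
    simp [plc, hv]
  · rw [Finset.sum_eq_zero fun j' _ => by
      rw [if_neg fun e' => h (by cases e'; rfl), toAdd_one, zero_smul]]
    simpa [plc, h] using (hD.zero i hi 1 (one_mem _)).2 (one_mem _)

theorem top_ZkDer (hT : TS T L l n) (hD : D.Ok T) (x : Fin d → P) (k : Fin d) :
    D.e 1 (Yw y q x k) = ∑ j, rr y q p k j • tyOf D x j := by
  have h := (word_ZkDer (y := y) (q := q) hT hD le_rfl 1 (v := x)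
    (fun j => hT.one ▸ Subgroup.mem_top _) k).2
  have e : FreeGroup.lift (plc q (1 : Fin d → P)) = 1 :=
    FreeGroup.ext_hom _ _ fun a => by simp [plc]
  rwa [one_mul, Yw, e, MonoidHom.one_apply, inv_one, one_mul] at h

end

theorem der_stmt (p : ℕ) [Fact p.Prime] : DerStmt p := by
  intro P _ _ T L l₀ n hT D hD d U y q x
  refine ⟨top_ZkDer hT hD x, fun La l hl v hv hx => ?_⟩
  rw [Eqs, ← forall_and]
  intro i
  have h1 : 1 ≤ l + 1 := by omega
  have h2 : 1 ≤ l + 1 + 1 := by omega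
  obtain ⟨k1, k2⟩ := word_ZkDer (y := y) (q := q) hT hD h1 x hv i
  have k3 := top_ZkDer (y := y) (q := q) hT hD x i
  have k4 := hx i
  obtain ⟨c, hc⟩ : ∃ c, Yw y q (x * v) i = Yw y q x i * c := ⟨_, (mul_inv_cancel_left _ _).symm⟩
  rw [hc, inv_mul_cancel_left] at k1 k2
  rw [hc, Pi.mul_apply]
  generalize Yw y q x i = Y at k3 k4 ⊢
  have k5 := br_ZkDer hT h1 (Y * c) (hv i)
  obtain ⟨a1, a2⟩ := conj_ZkDer hT hD h2 (x i) (inv_mem k5)
  obtain ⟨b1, b2⟩ := conj_ZkDer hT hD h2 Y (br_ZkDer hT h1 (x i) k1)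
  rw [show ⁅x i * v i, Y * c⁆ = x i * ⁅Y * c, v i⁆⁻¹ * (x i)⁻¹ * (⁅x i, Y⁆ * (Y * ⁅x i, c⁆ * Y⁻¹))
    by simp only [commutatorElement_def]; group]
  refine ⟨mul_mem a1 (mul_mem k4 b1), ?_⟩
  rw [hD.add _ h2 _ a1 _ (mul_mem k4 b1), hD.add _ h2 _ k4 _ b1, a2, b2, inv_ZkDer hD h2 k5,
    hD.br _ h1 _ _ (hv i), hD.br _ h1 _ _ k1, one_ZkDer hT hD hl Y k1, k2, k3]
  simp only [Ln.Mv, lnOf, tyOf]
  abel

theorem count_ZkDer {α β P : Type} [Group P] [Finite P] [Finite β] {d : ℕ} (H : Subgroup P)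
    (f : α → β) (g : α → Fin d → P) (h1 : ∀ a b, f a = f b → ∀ j, (g a j)⁻¹ * g b j ∈ H)
    (h2 : ∀ a b, f a = f b → g a = g b → a = b) :
    (Nat.card α : ℝ) ≤ Nat.card β * Nat.card H ^ d := by
  rcases isEmpty_or_nonempty α with hα | hα
  · rw [Nat.card_of_isEmpty, Nat.cast_zero]
    positivity
  have k := Nat.card_le_card_of_injective (β := β × (Fin d → H)) (fun a => (f a, fun j =>
    ⟨(g (Function.invFun f (f a)) j)⁻¹ * g a j, h1 _ _ (Function.invFun_eq ⟨a, rfl⟩) j⟩))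
    fun a b e => by
      obtain ⟨e1, e2⟩ := Prod.mk.inj e
      refine h2 a b e1 (funext fun j => ?_)
      have e3 := congrArg Subtype.val (congrFun e2 j)
      simp only [e1] at e3
      exact mul_left_cancel e3
  rw [Nat.card_prod, Nat.card_fun, Nat.card_fin] at k
  exact_mod_cast k

section
variable {p : ℕ} {P : Type} [Group P] {T : Fil p P} {D : Gd p P} {L l n : ℕ}
  {d : ℕ} {U : Fin d → Type} {y : (Σ j, U j) → FreeGroup (Σ j, U j)} {q : ∀ j, U j}

theorem ty_ZkDer (hT : TS T L l n) (hD : D.Ok T) {i : ℕ} (hi : 1 ≤ i) {x₀ x : P}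
    (h : x₀⁻¹ * x ∈ T.F (i + 1)) : D.e 1 x₀ = D.e 1 x := by
  rw [← one_ZkDer hT hD hi x₀ h, mul_inv_cancel_left]

theorem eq1_ZkDer (hT : TS T L l n) (hD : D.Ok T) (La : LaT D) (i' : ℕ) {i : ℕ} (hi : 1 ≤ i)
    {x : Fin d → P} (hx : x ∈ Sol y q T i) : (lnOf T D La i').Eq1 (rr y q p) (tyOf D x) := by
  refine ⟨fun k => ?_, fun k => ?_⟩
  · obtain ⟨x₀, h1, h2⟩ := hx.1.1 k
    exact ⟨x₀, h1, ty_ZkDer hT hD hi h2⟩
  · rw [← top_ZkDer hT hD x k]
    exact (hD.br 1 le_rfl _ _ (hT.one ▸ Subgroup.mem_top _)).symm.trans (low_ZkDer hT hD (by omega)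
      (hT.ns.anti (1 + 1 + 1) (i + 1 + 1) (by omega) (by omega) (hx.2 k))).2

end

theorem low_stmt (p : ℕ) [Fact p.Prime] (hG : GdStmt p) (hD : DerStmt p) : LowStmt p := by
  intro P _ _ T D La L l n hP d U y q i hi _
  have hT := hP.ts
  have hO := hP.gd
  have h1 : 1 ≤ i + 1 := by omega
  have hc : ∀ H : Subgroup P, (0 : ℝ) < Nat.card H ^ d := fun H =>
    pow_pos (Nat.cast_pos.2 Nat.card_pos) d
  refine ⟨fun x hx => eq1_ZkDer hT hO La i hi hx, ?_, ?_⟩
  · rw [Nn, div_le_iff₀ (hc _), ← Nat.card_coe_set_eq, ← Nat.card_coe_set_eq]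
    refine count_ZkDer _ (fun x => ⟨(tyOf D x.1, 0), eq1_ZkDer hT hO La i le_rfl x.2,
      fun _ => zero_mem _, fun k => by simp [Ln.Mv]⟩) Subtype.val (fun a b e j => ?_)
      fun a b _ e => Subtype.ext e
    exact eq_ZkDer hO le_rfl (hT.one ▸ Subgroup.mem_top _) (hT.one ▸ Subgroup.mem_top _)
      (congrFun (congrArg (fun z => z.1.1) e) j)
  have k0 : ∀ x ∈ Sol y q T (i + 1), ∀ v : Fin d → P, (∀ j, v j ∈ T.F (i + 1)) → _ :=
    fun x hx v hv => (hD P T L l n hT D hO d U y q x).2 La i hi v hv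
      fun j => (low_ZkDer hT hO (by omega) (hx.2 j)).1
  have k1 : ∀ x ∈ Sol y q T (i + 1), ∀ v : Fin d → P, (∀ j, v j ∈ T.F (i + 1)) →
      x * v ∈ Sol y q T i := fun x hx v hv => by
    refine ⟨⟨fun j => ?_, top_le_iff.1 (hx.1.2.ge.trans (sup_le ((Subgroup.closure_le _).2 ?_)
      le_sup_right))⟩, (k0 x hx v hv).1⟩
    · obtain ⟨x₀, a1, a2⟩ := hx.1.1 j
      exact ⟨x₀, a1, by
        rw [Pi.mul_apply, ← mul_assoc]; exact mul_mem (low_ZkDer hT hO h1 a2).1 (hv j)⟩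
    · rintro _ ⟨j, rfl⟩
      rw [← mul_inv_cancel_right (x j) (v j)]
      exact Subgroup.mul_mem_sup (Subgroup.subset_closure ⟨j, rfl⟩)
        (inv_mem (hT.ns.anti 2 (i + 1) (by omega) (by omega) (hv j)))
  have k2 : ∀ z ∈ Sol y q T (i + 1), ∀ x ∈ Sol y q T (i + 1), (∀ j, (z j)⁻¹ * x j ∈ T.F (i + 1)) →
      (tyOf D z, fun j => D.e (i + 1) ((z j)⁻¹ * x j)) ∈ (lnOf T D La i).Ker (rr y q p) := by
    intro z hz x hx h
    refine ⟨eq1_ZkDer hT hO La i h1 hz, fun j => ?_, fun j => ?_⟩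
    · obtain ⟨z₀, a1, a2⟩ := hz.1.1 j
      obtain ⟨x₀, b1, b2⟩ := hx.1.1 j
      obtain ⟨a3, a4⟩ := low_ZkDer hT hO h1 a2
      obtain ⟨b3, b4⟩ := low_ZkDer hT hO h1 (inv_mem b2)
      refine Submodule.subset_span ⟨z₀, a1, z₀⁻¹ * z j * ((z j)⁻¹ * x j) * (x₀⁻¹ * x j)⁻¹,
        mul_mem (mul_mem a3 (h j)) b3, by simpa using b1, ty_ZkDer hT hO h1 a2, ?_⟩
      rw [hO.add _ h1 _ (mul_mem a3 (h j)) _ b3, hO.add _ h1 _ a3 _ (h j), a4, b4, zero_add,
        add_zero]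
    · have a1 := (k0 z hz (z⁻¹ * x) h).2 j
      rw [mul_inv_cancel_left, (low_ZkDer hT hO (by omega) (hx.2 j)).2,
        (low_ZkDer hT hO (by omega) (hz.2 j)).2, zero_add] at a1
      exact a1.symm
  have k3 : ∀ w : Fin d → P, ∃ z, ∀ x ∈ Sol y q T (i + 1), (∀ j, (x j)⁻¹ * w j ∈ T.F (i + 1)) →
      z ∈ Sol y q T (i + 1) ∧ ∀ j, (z j)⁻¹ * x j ∈ T.F (i + 1) := fun w => by
    by_cases h : ∃ z ∈ Sol y q T (i + 1), ∀ j, (z j)⁻¹ * w j ∈ T.F (i + 1)
    · obtain ⟨z, a1, a2⟩ := h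
      exact ⟨z, fun x _ a3 => ⟨a1, fun j => by simpa using mul_mem (a2 j) (inv_mem (a3 j))⟩⟩
    · exact ⟨1, fun x a1 a2 => absurd ⟨x, a1, a2⟩ h⟩
  choose s hs using k3
  have k4 : ∀ a : Sol y q T (i + 1) × (Fin d → T.F (i + 1)), _ := fun a =>
    hs (a.1.1 * fun j => (a.2 j).1) a.1.1 a.1.2 fun j => by simp
  have k5 := count_ZkDer (β := Sol y q T i × (lnOf T D La i).Ker (rr y q p)) (T.F (i + 1 + 1))
    (fun a => (⟨_, k1 a.1.1 a.1.2 _ fun j => (a.2 j).2⟩, ⟨_, k2 _ (k4 a).1 _ a.1.2 (k4 a).2⟩))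
    (fun a : Sol y q T (i + 1) × (Fin d → T.F (i + 1)) => a.1.1) (fun a b e j => ?_)
    fun a b e e' => ?_
  · rw [Nat.card_prod, Nat.card_prod, Nat.card_fun, Nat.card_fin, Nat.card_coe_set_eq,
      Nat.card_coe_set_eq, Nat.card_coe_set_eq] at k5
    rw [Nn, Nn, div_mul_eq_mul_div, div_le_div_iff₀ (hc _) (hc _)]
    exact_mod_cast k5
  · have a1 := congrArg (fun z => z.1.1) e
    have a2 := eq_ZkDer hO h1 ((k4 a).2 j) ((k4 b).2 j) (congrFun (congrArg (fun z => z.2.1.2) e) j)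
    dsimp only at a1
    rw [a1] at a2
    simpa using a2
  · have a1 := congrArg (fun z => z.1.1) e
    dsimp only at a1 e'
    rw [e'] at a1
    exact Prod.ext (Subtype.ext e') (funext fun j => Subtype.ext (congrFun (mul_left_cancel a1) j))

end Pool.Agent.MP_f68ac8_nt.Zk

end

section

namespace Pool.Agent.MP_f68ac8_nt.Zk

open Zv
open scoped commutatorElement
open Matrix Finset

section
variable {p : ℕ} [Fact p.Prime]

open Classical in
theorem chr_ZkRec {A : Type} [AddCommGroup A] [Fintype A] (f : A → ZMod p)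
    (hf : ∀ a b, f (a + b) = f a + f b) :
    ∑ a, ZMod.stdAddChar (f a) = if ∀ a, f a = 0 then (Fintype.card A : ℂ) else 0 := by
  split_ifs with h
  · simp [h]
  · refine (AddChar.sum_eq_zero_iff_ne_zero
      (ψ := ZMod.stdAddChar.compAddMonoidHom (AddMonoidHom.mk' f hf))).2 fun h0 => h fun a => ?_
    refine ZMod.injective_stdAddChar ?_
    rw [AddChar.map_zero_eq_one]
    exact DFunLike.congr_fun h0 a

open Classical in
theorem dual_ZkRec {A Λ : Type} [AddCommGroup A] [Fintype A] [AddCommGroup Λ] [Fintype Λ]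
    (hc : Fintype.card Λ = Fintype.card A) (B : Λ → A → ZMod p) (E : Λ → ZMod p)
    (h1 : ∀ z a b, B z (a + b) = B z a + B z b) (h2 : ∀ a z z', B (z + z') a = B z a + B z' a)
    (h3 : ∀ z z', E (z + z') = E z + E z') :
    (((univ.filter fun a => ∀ z, E z + B z a = 0).card : ℝ) : ℂ) =
      ∑ z, if ∀ a, B z a = 0 then ZMod.stdAddChar (E z) else 0 := by
  have h0 : (Fintype.card A : ℂ) ≠ 0 := by exact_mod_cast Fintype.card_ne_zero
  refine mul_right_cancel₀ h0 ?_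
  calc _ = ∑ a, ∑ z, ZMod.stdAddChar (E z + B z a) := by
        rw [sum_congr rfl fun a _ => chr_ZkRec (fun z => E z + B z a) fun z z' => by
          rw [h2, h3]; ring, ← sum_filter, sum_const, nsmul_eq_mul, hc, Complex.ofReal_natCast]
    _ = _ := by
        rw [sum_comm, sum_mul]
        refine sum_congr rfl fun z _ => ?_
        simp only [AddChar.map_add_eq_mul]
        rw [← mul_sum, chr_ZkRec (B z) (h1 z)]
        split_ifs <;> simp

open Classical in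
theorem lin_ZkRec {a b c e d : ℕ} (N : Ln p a b c e) (r : Fin d → Fin d → ZMod p)
    (τ : Fin d → V p a) (hc : ∀ j, Nat.card (N.La (τ j)) = Nat.card (N.A (τ j)))
    (E : Fin d → V p e) (W : Finset (Fin d → V p c))
    (hW : ∀ w ∈ W, (∀ j, w j ∈ N.A (τ j)) ∧ ∀ j, E j + N.Mv r τ w j = 0) :
    (W.card : ℝ) ≤ ∑ z : Fin d → V p e,
      (if N.Du r τ z then ZMod.stdAddChar (∑ j, z j ⬝ᵥ E j) else 0 : ℂ).re := by
  have hM : ∀ v w j, N.Mv r τ (v + w) j = N.Mv r τ v j + N.Mv r τ w j := fun v w j => by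
    simp only [Ln.Mv, Pi.add_apply, smul_add, sum_add_distrib, map_add]
    abel
  have key := dual_ZkRec (A := ∀ j, N.A (τ j)) (Λ := ∀ j, N.La (τ j))
    (by rw [← Nat.card_eq_fintype_card, ← Nat.card_eq_fintype_card, Nat.card_pi, Nat.card_pi]
        exact prod_congr rfl fun j _ => hc j)
    (fun z w => ∑ j, (z j : V p e) ⬝ᵥ N.Mv r τ (fun j => w j) j)
    (fun z => ∑ j, (z j : V p e) ⬝ᵥ E j)
    (fun z v w => by
      rw [← sum_add_distrib]
      refine sum_congr rfl fun j _ => ?_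
      rw [← dotProduct_add, ← hM]
      rfl)
    (fun w z z' => by
      rw [← sum_add_distrib]
      refine sum_congr rfl fun j _ => ?_
      rw [← add_dotProduct]
      rfl)
    (fun z z' => by
      rw [← sum_add_distrib]
      refine sum_congr rfl fun j _ => ?_
      rw [← add_dotProduct]
      rfl)
  have e1 : (∑ z : ∀ j, N.La (τ j), if ∀ w : ∀ j, N.A (τ j),
      ∑ j, (z j : V p e) ⬝ᵥ N.Mv r τ (fun j => w j) j = 0 then
        ZMod.stdAddChar (∑ j, (z j : V p e) ⬝ᵥ E j) else 0 : ℂ) =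
      ∑ z : Fin d → V p e, if N.Du r τ z then ZMod.stdAddChar (∑ j, z j ⬝ᵥ E j) else 0 := by
    rw [← sum_filter, ← sum_filter]
    refine sum_bij (fun z _ j => (z j : V p e)) (fun z hz => ?_)
      (fun z _ z' _ h => funext fun j => Subtype.ext (congrFun h j)) (fun z hz => ?_)
      fun _ _ => rfl
    · exact mem_filter.2 ⟨mem_univ _, fun j => (z j).2,
        fun v hv => (mem_filter.1 hz).2 fun j => ⟨v j, hv j⟩⟩
    · have h := (mem_filter.1 hz).2
      exact ⟨fun j => ⟨z j, h.1 j⟩, mem_filter.2 ⟨mem_univ _, fun w => h.2 _ fun j => (w j).2⟩, rfl⟩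
  rw [← Complex.re_sum, ← e1, ← key, Complex.ofReal_re, Nat.cast_le]
  refine le_trans (card_le_card fun w hw => ?_)
    (card_image_le (f := fun (w : ∀ j, N.A (τ j)) j => (w j : V p c)))
  refine mem_image.2 ⟨fun j => ⟨w j, (hW w hw).1 j⟩, mem_filter.2 ⟨mem_univ _, fun z => ?_⟩, rfl⟩
  rw [← sum_add_distrib]
  refine sum_eq_zero fun j _ => ?_
  rw [← dotProduct_add, (hW w hw).2 j, dotProduct_zero]

end

theorem split_ZkRec {X : Type} {_ : Fintype X} (a : X) {_ : DecidablePred fun z : X => z ≠ a}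
    {f g : X → ℝ} {c : ℝ} (h0 : f a = c) (h : ∀ z, f z = g z) :
    ∑ z, f z = c + ∑ z with z ≠ a, g z := by
  classical
  rw [← add_sum_erase _ _ (mem_univ a), h0]
  exact congrArg _ (sum_congr (Finset.ext fun z => by simp) fun z _ => h z)

section
variable {p : ℕ} {P : Type} [Group P] {T : Fil p P} {D : Gd p P}

theorem inv_ZkRec (hD : D.Ok T) {i : ℕ} (hi : 1 ≤ i) {g : P} (hg : g ∈ T.F i) :
    D.e i g⁻¹ = -D.e i g := by
  refine eq_neg_of_add_eq_zero_left ?_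
  rw [← hD.add i hi _ (inv_mem hg) _ hg, inv_mul_cancel]
  exact (hD.zero i hi 1 (one_mem _)).2 (one_mem _)

theorem cand_ZkRec (hN : NS T.F) {d i : ℕ} (hi : 1 ≤ i) {x v : Fin d → P} (hx : Cand T (i + 1) x)
    (hv : ∀ j, v j ∈ T.F (i + 1)) : Cand T i (x * v) := by
  refine ⟨fun j => ?_, top_le_iff.1 (hx.2.ge.trans (sup_le ((Subgroup.closure_le _).2 ?_)
    le_sup_right))⟩
  · obtain ⟨x₀, h0, h1⟩ := hx.1 j
    refine ⟨x₀, h0, ?_⟩
    rw [Pi.mul_apply, ← mul_assoc]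
    exact mul_mem (hN.anti _ _ (by omega) (by omega) h1) (hv j)
  · rintro _ ⟨j, rfl⟩
    rw [← mul_inv_cancel_right (x j) (v j)]
    exact Subgroup.mul_mem_sup (Subgroup.subset_closure ⟨j, rfl⟩)
      (inv_mem (hN.anti 2 (i + 1) (by omega) (by omega) (hv j)))

theorem ty_ZkRec (hN : NS T.F) (h1 : T.F 1 = ⊤) (hD : D.Ok T) {i : ℕ} {x x₀ : P}
    (h : x₀⁻¹ * x ∈ T.F (i + 1 + 1)) : D.e 1 x₀ = D.e 1 x := by
  have t : ∀ g, g ∈ T.F 1 := fun g => h1 ▸ Subgroup.mem_top g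
  rw [← mul_inv_cancel_left x₀ x, hD.add 1 le_rfl _ (t _) _ (t _),
    (hD.zero 1 le_rfl _ (t _)).2 (hN.anti _ _ (by omega) (by omega) h), add_zero]

theorem mem_ZkRec (hN : NS T.F) (h1 : T.F 1 = ⊤) (hD : D.Ok T) (La : LaT D) {i : ℕ} {x v : P}
    (hx : ∃ x₀ ∈ XX T, x₀⁻¹ * x ∈ T.F (i + 1 + 1))
    (hx' : ∃ x₀ ∈ XX T, x₀⁻¹ * (x * v) ∈ T.F (i + 1 + 1)) (hv : v ∈ T.F (i + 1)) :
    D.e (i + 1) v ∈ (lnOf T D La i).A (D.e 1 x) := by
  obtain ⟨x₀, a1, a2⟩ := hx
  obtain ⟨x₁, b1, b2⟩ := hx'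
  have a3 := hN.anti (i + 1) _ (by omega) (Nat.le_succ _) a2
  have b3 := hN.anti (i + 1) _ (by omega) (Nat.le_succ _) (inv_mem b2)
  refine Submodule.subset_span ⟨x₀, a1, x₀⁻¹ * x * v * (x₁⁻¹ * (x * v))⁻¹,
    mul_mem (mul_mem a3 hv) b3, ?_, ty_ZkRec hN h1 hD a2, ?_⟩
  · rwa [show x₀ * (x₀⁻¹ * x * v * (x₁⁻¹ * (x * v))⁻¹) = x₁ by group]
  · rw [hD.add _ (by omega) _ (mul_mem a3 hv) _ b3, hD.add _ (by omega) _ a3 _ hv,
      (hD.zero _ (by omega) _ a3).2 a2, (hD.zero _ (by omega) _ b3).2 (inv_mem b2), zero_add,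
      add_zero]

end

theorem rec_stmt (p : ℕ) [Fact p.Prime] (hG : GdStmt p) (hD : DerStmt p) (hL : LowStmt p) :
    RecStmt p := by
  intro P _ _ T D La L l n hP d i hi hiL
  classical
  have hN := hP.ts.ns
  have i1 : 1 ≤ i + 1 := by omega
  obtain ⟨B, hB, hb⟩ := Set.exists_subset_bijOn {x : Fin d → P | Cand T (i + 1) x}
    fun x j => (QuotientGroup.mk (x j) : P ⧸ T.F (i + 1))
  refine ⟨B.toFinite.toFinset, fun x hx => ?_, fun U y q => ?_⟩
  · simpa using cand_ZkRec hN hi (hB (B.toFinite.mem_toFinset.1 hx)) (v := 1) fun _ => one_mem _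
  have hD := fun x => (hD P T L l n hP.ts D hP.gd d U y q x).2 La i hi
  choose γ hγ hγ' using hP.gd.surj (i + 1) i1
  obtain ⟨C, hC⟩ : ∃ C, C = B.toFinite.toFinset.filter fun x => Eqs y q T i x := ⟨_, rfl⟩
  have mC : ∀ x, x ∈ C ↔ x ∈ B ∧ Eqs y q T i x := fun x => by
    rw [hC, mem_filter, Set.Finite.mem_toFinset]
  obtain ⟨W, hW⟩ : ∃ W : (Fin d → P) → Finset (Fin d → V p (D.k (i + 1))), ∀ x w, w ∈ W x ↔
      (∀ j, w j ∈ (lnOf T D La i).A (tyOf D x j)) ∧ ∀ j, D.e (i + 1 + 1) ⁅x j, Yw y q x j⁆ +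
        (lnOf T D La i).Mv (rr y q p) (tyOf D x) w j = 0 :=
    ⟨fun x => (Set.toFinite _).toFinset, fun x w => Set.Finite.mem_toFinset _⟩
  have pos : ∀ m, (0 : ℝ) < (Nat.card (T.F m) : ℝ) ^ d := fun m =>
    pow_pos (by exact_mod_cast Nat.card_pos) d
  have cd : ∀ m, Fintype.card (Fin d → T.F m) = Nat.card (T.F m) ^ d := fun m => by
    rw [Fintype.card_fun, Fintype.card_fin, Nat.card_eq_fintype_card]
  have k1 : Nn (P := P) y q T (i + 1) ≤ ∑ x ∈ C, ((W x).card : ℝ) := by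
    rw [Nn, div_le_iff₀ (pos _), sum_mul]
    have h1 : Sol y q T (i + 1) ⊆ ↑(C.biUnion fun x =>
        (W x ×ˢ (univ : Finset (Fin d → T.F (i + 1 + 1)))).image
          fun s => x * fun j => γ (s.1 j) * s.2 j) := by
      intro x' hx'
      obtain ⟨x, hx, e⟩ := hb.surjOn ⟨x', hx'.1, rfl⟩
      have hv : ∀ j, (x⁻¹ * x') j ∈ T.F (i + 1) := fun j => QuotientGroup.eq.1 (congrFun e j)
      obtain ⟨v, rfl⟩ : ∃ v, x' = x * v := ⟨x⁻¹ * x', (mul_inv_cancel_left x x').symm⟩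
      rw [inv_mul_cancel_left] at hv
      have h2 : Eqs y q T i (x * v) := fun j => hN.anti _ _ (by omega) (by omega) (hx'.2 j)
      have h3 : Eqs y q T i x := by
        simpa using (hD (x * v) v⁻¹ (fun j => inv_mem (hv j)) h2).1
      refine mem_coe.2 (mem_biUnion.2 ⟨x, (mC x).2 ⟨hx, h3⟩, mem_image.2
        ⟨(fun j => D.e (i + 1) (v j), fun j => ⟨(γ (D.e (i + 1) (v j)))⁻¹ * v j, ?_⟩),
          mem_product.2 ⟨(hW _ _).2 ⟨fun j => ?_, fun j => ?_⟩, mem_univ _⟩, ?_⟩⟩)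
      · refine (hP.gd.zero _ i1 _ (mul_mem (inv_mem (hγ _)) (hv j))).1 ?_
        rw [hP.gd.add _ i1 _ (inv_mem (hγ _)) _ (hv j), inv_ZkRec hP.gd i1 (hγ _), hγ',
          neg_add_cancel]
      · exact mem_ZkRec hN hP.ts.one hP.gd La ((hB hx).1 j) (hx'.1.1 j) (hv j)
      · rw [← (hD x v hv h3).2 j]
        exact (hP.gd.zero _ (by omega) _ (h2 j)).2 (hx'.2 j)
      · exact congrArg _ (funext fun j => mul_inv_cancel_left _ _)
    have h2 := (Set.ncard_le_ncard h1 (finite_toSet _)).trans ((Set.ncard_coe_finset _).le.trans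
      (card_biUnion_le.trans (sum_le_sum fun x _ => card_image_le)))
    simp only [card_product, card_univ, cd] at h2
    exact_mod_cast h2
  have k2 : (C.card : ℝ) ≤ Nn (P := P) y q T i := by
    rw [Nn, le_div_iff₀ (pos _)]
    have h1 := Set.ncard_le_ncard_of_injOn (s := ((C ×ˢ (univ : Finset (Fin d → T.F (i + 1))) :
      Finset _) : Set ((Fin d → P) × (Fin d → T.F (i + 1))))) (t := Sol y q T i)
      (fun s => s.1 * fun j => (s.2 j : P)) (fun s hs => ?_)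
      (fun s hs s' hs' e => ?_) (Set.toFinite _)
    · rw [Set.ncard_coe_finset, card_product, card_univ, cd] at h1
      exact_mod_cast h1
    · obtain ⟨h1, h2⟩ := (mC _).1 (mem_product.1 (mem_coe.1 hs)).1
      exact ⟨cand_ZkRec hN hi (hB h1) fun j => (s.2 j).2, (hD _ _ (fun j => (s.2 j).2) h2).1⟩
    · have e' : ∀ j, s.1 j * s.2 j = s'.1 j * s'.2 j := congrFun e
      have h1 : s.1 = s'.1 := hb.injOn ((mC _).1 (mem_product.1 (mem_coe.1 hs)).1).1
        ((mC _).1 (mem_product.1 (mem_coe.1 hs')).1).1 (funext fun j => by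
          rw [← QuotientGroup.mk_mul_of_mem (s.1 j) (s.2 j).2, e',
            QuotientGroup.mk_mul_of_mem _ (s'.2 j).2])
      refine Prod.ext h1 (funext fun j => Subtype.ext (mul_left_cancel (a := s.1 j) ?_))
      rw [e', h1]
  refine k1.trans (le_trans ?_ (add_le_add k2 le_rfl))
  rw [card_eq_sum_ones, Nat.cast_sum, hC, sum_filter, sum_filter, ← sum_add_distrib]
  refine sum_le_sum fun x hx => ?_
  have hx' := hB (B.toFinite.mem_toFinset.1 hx)
  split_ifs with h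
  · refine (lin_ZkRec (lnOf T D La i) (rr y q p) (tyOf D x) (fun j => ?_) _ (W x)
      fun w hw => (hW x w).1 hw).trans (le_of_eq ?_)
    · obtain ⟨x₀, a1, a2⟩ := hx'.1 j
      exact (hP.ln i hi hiL).card _ ⟨x₀, a1, ty_ZkRec hN hP.ts.one hP.gd a2⟩
    · refine split_ZkRec 0 ?_ fun z => ?_
      · rw [if_pos ⟨fun _ => zero_mem _, fun _ _ => by simp⟩]
        simp only [Pi.zero_apply, zero_dotProduct, sum_const_zero, AddChar.map_zero_eq_one,
          Complex.one_re, Nat.cast_one]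
      · by_cases h' : (lnOf T D La i).Du (rr y q p) (tyOf D x) z
        · rw [if_pos h', Tm, if_pos ⟨h', h⟩, Ob]
        · rw [if_neg h', Tm, if_neg fun h'' => h' h''.1]
  · simp only [Tm, h, and_false, if_false, Complex.zero_re, sum_const_zero, add_zero, le_refl]

end Pool.Agent.MP_f68ac8_nt.Zk

end

section

namespace Pool.Agent.MP_f68ac8_nt.Zk

open Zv
open scoped commutatorElement

section
variable {G : Type} [Group G]

theorem three_ZkLcs {A B C N : Subgroup G} [N.Normal] (h1 : ⁅⁅B, C⁆, A⁆ ≤ N)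
    (h2 : ⁅⁅C, A⁆, B⁆ ≤ N) : ⁅⁅A, B⁆, C⁆ ≤ N := by
  have k : ∀ K : Subgroup G, K ≤ N ↔ K.map (QuotientGroup.mk' N) = ⊥ := fun K => by
    rw [Subgroup.map_eq_bot_iff, QuotientGroup.ker_mk']
  rw [k, Subgroup.map_commutator, Subgroup.map_commutator] at h1 h2 ⊢
  exact Subgroup.commutator_commutator_eq_bot_of_rotate h1 h2

theorem top_ZkLcs (b : ℕ) : ∀ a : ℕ, ⁅(⊤ : Subgroup G).lowerCentralSeries b,
    (⊤ : Subgroup G).lowerCentralSeries a⁆ ≤ (⊤ : Subgroup G).lowerCentralSeries (a + b + 1) := by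
  induction b with
  | zero => intro a; rw [Subgroup.commutator_comm]; exact le_rfl
  | succ b ih =>
    intro a
    rw [Subgroup.lowerCentralSeries_succ]
    refine three_ZkLcs ?_ ?_
    · rw [Subgroup.commutator_comm, Subgroup.commutator_comm ⊤, ← Subgroup.lowerCentralSeries_succ,
        show a + (b + 1) + 1 = a + 1 + b + 1 by omega]
      exact ih (a + 1)
    · rw [Subgroup.commutator_comm ((⊤ : Subgroup G).lowerCentralSeries a)]
      exact Subgroup.commutator_mono (ih a) le_rfl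

theorem gam_ZkLcs (U : Subgroup G) : NS (gam U) := by
  refine ⟨fun i j _ hij => U.lowerCentralSeries_antitone (by omega), fun a b ha hb g hg h hh => ?_⟩
  have k : ⁅U.lowerCentralSeries (a - 1), U.lowerCentralSeries (b - 1)⁆ ≤
      U.lowerCentralSeries (a + b - 1) := by
    rw [← U.top_subtype_lowerCentralSeries, ← U.top_subtype_lowerCentralSeries,
      ← U.top_subtype_lowerCentralSeries, ← Subgroup.map_commutator,
      show a + b - 1 = b - 1 + (a - 1) + 1 by omega]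
    exact Subgroup.map_mono (top_ZkLcs _ _)
  exact k (Subgroup.commutator_mem_commutator hg hh)

theorem conj_ZkLcs {H : ℕ → Subgroup G} (hH : NS H) {i : ℕ} (hi : 1 ≤ i) {g h : G}
    (hg : g ∈ H 1) (hh : h ∈ H i) : g * h * g⁻¹ ∈ H i := by
  rw [show g * h * g⁻¹ = ⁅g, h⁆ * h by rw [commutatorElement_def]; group]
  exact mul_mem (hH.anti _ _ hi (by omega) (hH.comm 1 i le_rfl hi g hg h hh)) hh

theorem sup_ZkLcs {H : ℕ → Subgroup G} (hH : NS H) (N : Subgroup G) [N.Normal] :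
    NS fun i => H i ⊔ N := by
  refine ⟨fun i j hi hij => sup_le_sup_right (hH.anti i j hi hij) N, fun a b ha hb g hg h hh => ?_⟩
  have k : ∀ (K : Subgroup G) (x : G), x ∈ K ⊔ N ↔
      QuotientGroup.mk' N x ∈ K.map (QuotientGroup.mk' N) := fun K x => by
    rw [← Subgroup.mem_comap, Subgroup.comap_map_eq, QuotientGroup.ker_mk']
  beta_reduce at hg hh ⊢
  rw [k] at hg hh ⊢
  obtain ⟨g', hg', e1⟩ := hg
  obtain ⟨h', hh', e2⟩ := hh
  rw [map_commutatorElement, ← e1, ← e2, ← map_commutatorElement]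
  exact Subgroup.mem_map_of_mem _ (hH.comm a b ha hb g' hg' h' hh')

theorem le_ZkLcs {H : ℕ → Subgroup G} (hH : NS H) {U : Subgroup G} (hU : U ≤ H 1) (i : ℕ) :
    U.lowerCentralSeries i ≤ H (i + 1) := by
  induction i with
  | zero => exact hU
  | succ i ih =>
    rw [Subgroup.lowerCentralSeries_succ]
    exact Subgroup.commutator_le.2 fun g hg h hh =>
      hH.comm (i + 1) 1 (by omega) le_rfl g (ih hg) h (hU hh)

/-- pairs that are close to each other -/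
def pair_ZkLcs {H : ℕ → Subgroup G} (hH : NS H) (s i : ℕ) : Subgroup (G × G) where
  carrier := {x | x.1 ∈ H (max 1 i) ∧ x.1⁻¹ * x.2 ∈ H (max 1 i + s)}
  one_mem' := ⟨one_mem _, by simp⟩
  mul_mem' := fun {x y} hx hy => ⟨mul_mem hx.1 hy.1, by
    rw [Prod.fst_mul, Prod.snd_mul, show (x.1 * y.1)⁻¹ * (x.2 * y.2) =
      y.1⁻¹ * (x.1⁻¹ * x.2) * y.1⁻¹⁻¹ * (y.1⁻¹ * y.2) by group]
    exact mul_mem (conj_ZkLcs hH (by omega)
      (inv_mem (hH.anti _ _ le_rfl (le_max_left _ _) hy.1)) hx.2) hy.2⟩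
  inv_mem' := fun {x} hx => ⟨inv_mem hx.1, by
    rw [Prod.fst_inv, Prod.snd_inv, show x.1⁻¹⁻¹ * x.2⁻¹ = x.1 * (x.1⁻¹ * x.2)⁻¹ * x.1⁻¹ by group]
    exact conj_ZkLcs hH (by omega) (hH.anti _ _ le_rfl (le_max_left _ _) hx.1) (inv_mem hx.2)⟩

theorem mem_pair_ZkLcs {H : ℕ → Subgroup G} (hH : NS H) (s : ℕ) {i : ℕ} (hi : 1 ≤ i)
    (x : G × G) : x ∈ pair_ZkLcs hH s i ↔ x.1 ∈ H i ∧ x.1⁻¹ * x.2 ∈ H (i + s) := by
  change x.1 ∈ H (max 1 i) ∧ x.1⁻¹ * x.2 ∈ H (max 1 i + s) ↔ _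
  rw [max_eq_right hi]

theorem ns_pair_ZkLcs {H : ℕ → Subgroup G} (hH : NS H) (s : ℕ) : NS (pair_ZkLcs hH s) := by
  refine ⟨fun i j hi hij x hx => ?_, fun a b ha hb x hx y hy => ?_⟩
  · rw [mem_pair_ZkLcs hH s (by omega)] at hx ⊢
    exact ⟨hH.anti _ _ hi hij hx.1, hH.anti _ _ (by omega) (by omega) hx.2⟩
  rw [mem_pair_ZkLcs hH s (by omega)] at hx hy ⊢
  obtain ⟨g, g'⟩ := x
  obtain ⟨h, h'⟩ := y
  obtain ⟨e, rfl⟩ : ∃ e, g' = g * e := ⟨g⁻¹ * g', by group⟩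
  obtain ⟨f, rfl⟩ : ∃ f, h' = h * f := ⟨h⁻¹ * h', by group⟩
  simp only [inv_mul_cancel_left] at hx hy
  change ⁅g, h⁆ ∈ _ ∧ ⁅g, h⁆⁻¹ * ⁅g * e, h * f⁆ ∈ _
  have k1 := hH.comm a b ha hb g hx.1 h hy.1
  have g1 := hH.anti _ _ le_rfl ha hx.1
  have h1 := hH.anti _ _ le_rfl hb hy.1
  have k2 := hH.comm (a + s) b (by omega) hb e hx.2 (h * f)
    (mul_mem hy.1 (hH.anti _ _ hb (by omega) hy.2))
  have k3 := hH.comm a (b + s) ha (by omega) g hx.1 f hy.2
  rw [show a + s + b = a + b + s by omega] at k2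
  rw [← add_assoc] at k3
  refine ⟨k1, ?_⟩
  rw [show ⁅g, h⁆⁻¹ * ⁅g * e, h * f⁆ = ⁅g, h⁆⁻¹ * (g * ⁅e, h * f⁆ * g⁻¹) * ⁅g, h⁆⁻¹⁻¹ *
    (h * ⁅g, f⁆ * h⁻¹) by simp only [commutatorElement_def]; group]
  exact mul_mem (conj_ZkLcs hH (by omega) (inv_mem (hH.anti _ _ le_rfl (by omega) k1))
    (conj_ZkLcs hH (by omega) g1 k2)) (conj_ZkLcs hH (by omega) h1 k3)

/-- elements that commute with `h` modulo `H c` -/
def cen_ZkLcs {H : ℕ → Subgroup G} (hH : NS H) {c : ℕ} (hc : 1 ≤ c) (h : G) : Subgroup G where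
  carrier := {g | g ∈ H 1 ∧ ⁅g, h⁆ ∈ H c}
  one_mem' := ⟨one_mem _, by simp⟩
  mul_mem' := fun {x y} hx hy => ⟨mul_mem hx.1 hy.1, by
    rw [show ⁅x * y, h⁆ = x * ⁅y, h⁆ * x⁻¹ * ⁅x, h⁆ by simp only [commutatorElement_def]; group]
    exact mul_mem (conj_ZkLcs hH hc hx.1 hy.2) hx.2⟩
  inv_mem' := fun {x} hx => ⟨inv_mem hx.1, by
    rw [show ⁅x⁻¹, h⁆ = x⁻¹ * ⁅x, h⁆⁻¹ * x⁻¹⁻¹ by simp only [commutatorElement_def]; group]
    exact conj_ZkLcs hH hc (inv_mem hx.1) (inv_mem hx.2)⟩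

theorem clo_ZkLcs {H : ℕ → Subgroup G} (hH : NS H) {c : ℕ} {S : Set G} (hc : 2 ≤ c)
    (h1 : ∀ g ∈ S, g ∈ H 1) (h2 : ∀ g ∈ S, ∀ h ∈ S, ⁅g, h⁆ ∈ H c) :
    NS fun i => if i ≤ 1 then Subgroup.closure S ⊔ H c else H (c + i - 2) := by
  have c1 : 1 ≤ c := by omega
  have k1 : Subgroup.closure S ⊔ H c ≤ H 1 :=
    sup_le ((Subgroup.closure_le _).2 h1) (hH.anti _ _ le_rfl c1)
  have k2 : ∀ h ∈ H 1, (∀ g ∈ S, ⁅g, h⁆ ∈ H c) → ∀ g ∈ Subgroup.closure S ⊔ H c, ⁅g, h⁆ ∈ H c :=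
    fun h hh k g hg => (sup_le (c := cen_ZkLcs hH c1 h)
      ((Subgroup.closure_le _).2 fun x hx => ⟨h1 x hx, k x hx⟩)
      (fun x hx => ⟨hH.anti _ _ le_rfl c1 hx,
        hH.anti _ _ c1 (by omega) (hH.comm c 1 c1 le_rfl x hx h hh)⟩) hg).2
  refine ⟨fun i j hi hij => ?_, fun a b ha hb g hg h hh => ?_⟩
  · beta_reduce
    split_ifs with e1 e2 e2
    · exact le_rfl
    · omega
    · exact (hH.anti _ _ c1 (by omega)).trans le_sup_right
    · exact hH.anti _ _ (by omega) (by omega)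
  beta_reduce at hg hh ⊢
  rw [if_neg (by omega)]
  split_ifs at hg hh with e1 e2 e2
  · rw [show c + (a + b) - 2 = c by omega]
    refine k2 h (k1 hh) (fun x hx => ?_) g hg
    rw [← commutatorElement_inv]
    exact inv_mem (k2 x (h1 x hx) (fun y hy => h2 y hy x hx) h hh)
  · exact hH.anti _ _ (by omega) (by omega) (hH.comm 1 _ le_rfl (by omega) g (k1 hg) h hh)
  · exact hH.anti _ _ (by omega) (by omega) (hH.comm _ 1 (by omega) le_rfl g hg h (k1 hh))
  · exact hH.anti _ _ (by omega) (by omega) (hH.comm _ _ (by omega) (by omega) g hg h hh)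

end

theorem lcs_stmt : LcsStmt := by
  intro G _
  refine ⟨gam_ZkLcs, fun H hH => ⟨fun N _ => sup_ZkLcs hH N, fun U hU i hi => ?_,
    fun s => ⟨_, ns_pair_ZkLcs hH s, fun i hi g g' => mem_pair_ZkLcs hH s hi _⟩,
    fun c S hc h1 h2 => clo_ZkLcs hH hc h1 h2⟩⟩
  have k := le_ZkLcs hH hU (i - 1)
  rwa [show i - 1 + 1 = i by omega] at k

end Pool.Agent.MP_f68ac8_nt.Zk

end

section

/-! Iterated commutators span the graded pieces; truncation of valued systems. -/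

namespace Pool.Agent.MP_f68ac8_nt.Zk

open Zv
open scoped commutatorElement

section
variable {P : Type} [Group P] {F : ℕ → Subgroup P}

theorem comm_le_ZkSpan {N : Subgroup P} [N.Normal] {A B : Set P}
    (h : ∀ a ∈ A, ∀ b ∈ B, ⁅a, b⁆ ∈ N) : ⁅Subgroup.closure A, Subgroup.closure B⁆ ≤ N := by
  have key : ∀ a b : P, ⁅a, b⁆ ∈ N ↔
      Commute (QuotientGroup.mk' N a) (QuotientGroup.mk' N b) := fun a b => by
    rw [← commutatorElement_eq_one_iff_commute, ← map_commutatorElement, ← MonoidHom.mem_ker,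
      QuotientGroup.ker_mk']
  refine Subgroup.commutator_le.2 fun a ha b hb => (key a b).2 ?_
  induction hb using Subgroup.closure_induction with
  | mem b hb =>
    induction ha using Subgroup.closure_induction with
    | mem a ha => exact (key a b).1 (h a ha b hb)
    | one => simp
    | mul x y _ _ h1 h2 => rw [map_mul]; exact h1.mul_left h2
    | inv x _ h1 => rw [map_inv]; exact h1.inv_left
  | one => simp
  | mul x y _ _ h1 h2 => rw [map_mul]; exact h1.mul_right h2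
  | inv x _ h1 => rw [map_inv]; exact h1.inv_right

theorem normal_ZkSpan (hF : NS F) (h1 : F 1 = ⊤) {i : ℕ} (hi : 1 ≤ i) {K : Subgroup P}
    (h2 : K ≤ F i) (h3 : F (i + 1) ≤ K) : K.Normal := by
  refine ⟨fun n hn g => ?_⟩
  have e : g * n * g⁻¹ = ⁅g, n⁆ * n := by simp [commutatorElement_def]
  rw [e]
  refine K.mul_mem (h3 ?_) hn
  rw [add_comm]
  exact hF.comm 1 i le_rfl hi g (h1 ▸ Subgroup.mem_top g) n (h2 hn)

theorem brL_mem_ZkSpan (hF : NS F) : ∀ l : List P, l ≠ [] → (∀ g ∈ l, g ∈ F 1) →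
    brL l ∈ F l.length
  | [], h, _ => (h rfl).elim
  | [x], _, h => h x (by simp)
  | x :: y :: l, _, h => by
    have h1 := hF.comm 1 _ le_rfl (by simp) x (h x (by simp)) _
      (brL_mem_ZkSpan hF (y :: l) (by simp) fun g hg => h g (List.mem_cons_of_mem _ hg))
    rw [add_comm] at h1
    exact h1

theorem brL_pair_ZkSpan {D : ℕ → Subgroup (P × P)} (hD : NS D) {l l' : List P}
    (h : List.Forall₂ (fun g g' => (g, g') ∈ D 1) l l') (hl : l ≠ []) :
    (brL l, brL l') ∈ D l.length := by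
  induction h with
  | nil => exact (hl rfl).elim
  | @cons x x' t t' hx ht ih =>
    cases ht with
    | nil => exact hx
    | cons hy ht =>
      have h1 := hD.comm 1 _ le_rfl (by simp) _ hx _ (ih (by simp))
      rw [add_comm] at h1
      exact h1

theorem gam_le_ZkSpan (hF : NS F) (h1 : F 1 = ⊤) {S : Set P}
    (hS : Subgroup.closure S ⊔ F 2 = ⊤) (k : ℕ) : gam ⊤ (k + 1) ≤ Subgroup.closure
      ({c | ∃ l : List P, l.length = k + 1 ∧ (∀ g ∈ l, g ∈ S) ∧ brL l = c} ∪ F (k + 1 + 1)) := by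
  have hT : (⊤ : Subgroup P) = Subgroup.closure (S ∪ F 2) := by
    rw [Subgroup.closure_union, Subgroup.closure_eq, hS]
  have hb : ∀ l : List P, ∀ j, l.length = j + 1 → brL l ∈ F (j + 1) := fun l j hl =>
    hl ▸ brL_mem_ZkSpan hF l (by rintro rfl; simp at hl) fun g _ => h1 ▸ Subgroup.mem_top g
  induction k with
  | zero =>
    refine hT.le.trans (Subgroup.closure_mono (Set.union_subset_union_left _ fun x hx => ?_))
    exact ⟨[x], rfl, by simpa using hx, rfl⟩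
  | succ k ih =>
    have hN := normal_ZkSpan hF h1 (i := k + 1 + 1) (by omega) (K := Subgroup.closure
      ({c | ∃ l : List P, l.length = k + 1 + 1 ∧ (∀ g ∈ l, g ∈ S) ∧ brL l = c} ∪
        F (k + 1 + 1 + 1))) ((Subgroup.closure_le _).2 (by
          rintro c (⟨l, hl, -, rfl⟩ | hc)
          · exact hb l _ hl
          · exact hF.anti _ _ (by omega) (by omega) hc))
      fun c hc => Subgroup.subset_closure (Or.inr hc)
    refine (Subgroup.commutator_mono ih hT.le).trans (comm_le_ZkSpan ?_)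
    rintro c (⟨l, hl, hlS, rfl⟩ | hc) x hx
    · rcases hx with hx | hx
      · rw [← commutatorElement_inv]
        refine inv_mem (Subgroup.subset_closure (Or.inl ⟨x :: l, by simp [hl], ?_, ?_⟩))
        · simpa using ⟨hx, hlS⟩
        · cases l with
          | nil => simp at hl
          | cons y l => rfl
      · exact Subgroup.subset_closure
          (Or.inr (hF.comm (k + 1) 2 (by omega) (by omega) _ (hb l k hl) x hx))
    · exact Subgroup.subset_closure (Or.inr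
        (hF.comm (k + 1 + 1) 1 (by omega) le_rfl c hc x (h1 ▸ Subgroup.mem_top x)))

end

theorem span_stmt (p : ℕ) [Fact p.Prime] (hL : LcsStmt) : SpanStmt p := by
  intro P _ F hF h1
  refine ⟨fun l l' hl h => ?_, fun m hm hFm S hS φ hφ h0 ⟨g, hg, hg'⟩ => ?_⟩
  · obtain ⟨D, hD, hD'⟩ := ((hL P).2 F hF).2.2.1 1
    refine (hD' _ (List.length_pos_iff.2 hl) _ _).1 (brL_pair_ZkSpan hD (h.imp ?_) hl)
    exact fun g g' hg => (hD' 1 le_rfl g g').2 ⟨h1 ▸ Subgroup.mem_top g, hg⟩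
  by_contra hc
  have φ1 : φ 1 = 0 := h0 1 (one_mem _)
  let Z : Subgroup P :=
    { carrier := {g | g ∈ F m ∧ φ g = 0}
      mul_mem' := fun {a b} ha hb => ⟨mul_mem ha.1 hb.1, by
        rw [hφ a ha.1 b hb.1, ha.2, hb.2, add_zero]⟩
      one_mem' := ⟨one_mem _, φ1⟩
      inv_mem' := fun {a} ha => ⟨inv_mem ha.1, by
        have h2 := hφ a ha.1 a⁻¹ (inv_mem ha.1)
        rw [mul_inv_cancel, φ1, ha.2, zero_add] at h2
        exact h2.symm⟩ }
  have hZ : F (m + 1) ≤ Z := fun c hc => ⟨hF.anti _ _ hm m.le_succ hc, h0 c hc⟩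
  obtain ⟨k, rfl⟩ : ∃ k, m = k + 1 := ⟨m - 1, by omega⟩
  refine hg' (hFm.trans (sup_le ((gam_le_ZkSpan hF h1 hS k).trans
    ((Subgroup.closure_le Z).2 ?_)) hZ) hg).2
  rintro c (⟨l, hl, hlS, rfl⟩ | hc)
  · refine ⟨hl ▸ brL_mem_ZkSpan hF l (by rintro rfl; simp at hl)
      fun g _ => h1 ▸ Subgroup.mem_top g, ?_⟩
    by_contra h2
    exact hc ⟨l, hl, hlS, h2⟩
  · exact hZ hc

theorem stab_ZkSpan (hL : LcsStmt) {p : ℕ} {P : Type} [Group P] {T : Fil p P} {l : ℕ}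
    (h : VS T l) {i : ℕ} (h1 : 1 ≤ i) (h2 : l ≤ i) : ¬ T.F i ≤ T.F (i + 1) := by
  intro h3
  obtain ⟨j, hj, hj'⟩ := h.v4 i
  refine hj' ?_
  induction j, hj using Nat.le_induction with
  | base => exact h3
  | succ j hj ih =>
    have ih' : T.F j ≤ T.F (j + 1) := by
      by_contra h4
      exact h4 (ih h4)
    obtain ⟨k, rfl⟩ : ∃ k, j = k + 1 := ⟨j - 1, by omega⟩
    refine (h.v3 _ (by omega)).trans (sup_le (Subgroup.commutator_le.2 fun a ha b _ => ?_) le_rfl)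
    refine h.ns.comm (k + 1 + 1) 1 (by omega) le_rfl a (ih' ?_) b (h.one ▸ Subgroup.mem_top b)
    exact ((hL P).2 T.F h.ns).2.1 ⊤ h.one.ge (k + 1) (by omega) ha

theorem trunc_stmt (p : ℕ) [Fact p.Prime] (hL : LcsStmt) : TruncStmt p := by
  intro P _ T l h
  refine ⟨max l 1, (T.F (max l 1 + 2)).index, fun L hL2 => ?_⟩
  have hN : (T.F L).Normal :=
    normal_ZkSpan h.ns h.one (i := L) (by omega) le_rfl (h.ns.anti _ _ (by omega) L.le_succ)
  have hfin := h.fin L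
  have hk : T.F L ≤ T.pi.ker := (h.ns.anti 2 L (by omega) hL2).trans h.ker
  have hs := QuotientGroup.mk'_surjective (T.F L)
  have hm : ∀ j, 1 ≤ j → j ≤ L → ∀ g, QuotientGroup.mk' (T.F L) g ∈
      (T.F j).map (QuotientGroup.mk' (T.F L)) → g ∈ T.F j := fun j h1 h2 g hg => by
    rw [← Subgroup.mem_comap, Subgroup.comap_map_eq, QuotientGroup.ker_mk',
      sup_eq_left.2 (h.ns.anti j L h1 h2)] at hg
    exact hg
  refine ⟨P ⧸ T.F L, inferInstance, Fintype.ofFinite _,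
    ⟨fun i => (T.F i).map (QuotientGroup.mk' _), QuotientGroup.lift _ T.pi hk⟩,
    QuotientGroup.mk' _, ⟨⟨fun i j h1 h2 => Subgroup.map_mono (h.ns.anti i j h1 h2), ?_⟩, ?_, ?_,
      ?_, ?_, ?_, ?_, ?_, le_max_right _ _, ?_⟩, hs, fun _ => rfl,
    fun g hg => (QuotientGroup.eq_one_iff g).2 hg, fun g hg => ⟨g, hg, rfl⟩⟩
  · rintro a b ha hb _ ⟨g, hg, rfl⟩ _ ⟨k, hk, rfl⟩
    exact ⟨_, h.ns.comm a b ha hb g hg k hk, map_commutatorElement _ _ _⟩
  · change (T.F 1).map _ = ⊤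
    rw [h.one, Subgroup.map_top_of_surjective _ hs]
  · rintro _ ⟨g, hg, rfl⟩
    exact h.ker hg
  · rintro i hi _ ⟨g, hg, rfl⟩
    exact ⟨_, h.v1 i hi g hg, map_pow _ _ _⟩
  · intro i hi hiL g hg k hk' h1
    obtain ⟨g, rfl⟩ := hs g
    obtain ⟨k, rfl⟩ := hs k
    refine ⟨g * k⁻¹, h.v2 i hi g hg k hk' (hm _ (by omega) hiL _ ?_), by simp⟩
    simpa only [map_mul, map_inv, map_pow] using h1
  · intro i hi
    refine (Subgroup.map_mono (h.v3 i ((le_max_left _ _).trans hi))).trans_eq ?_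
    rw [Subgroup.map_sup, gam, gam, Subgroup.map_lowerCentralSeries,
      Subgroup.map_top_of_surjective _ hs]
  · intro i hi hiL h1
    exact stab_ZkSpan hL h ((le_max_right _ _).trans hi) ((le_max_left _ _).trans hi)
      fun g hg => hm _ (by omega) hiL g (h1 ⟨g, hg, rfl⟩)
  · intro i hi
    refine (Subgroup.map_eq_bot_iff _).2 ?_
    rw [QuotientGroup.ker_mk']
    exact h.ns.anti L i (by omega) hi
  · exact Nat.le_of_dvd (Nat.pos_of_ne_zero (h.fin _).index_ne_zero)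
      (Subgroup.index_map_dvd _ hs)

end Pool.Agent.MP_f68ac8_nt.Zk

end
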