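import Mathlib
import Pool.Agent.Mg.Fe23604m.G170b11
import Pool.Agent.Mg.Fe23604m.G2ddf31

set_option linter.all false

section

/-! Matrices with one column equal to the diagonal. -/

namespace Pool.Agent.MP_f68ac8_nt.Nd

open Zq Zv Zk Matrix Finset
open scoped BigOperators commutatorElement

/-- replace the column `o` by the diagonal -/
def Psi {d : ℕ} (o : Fin d) (r : Mx d) : Mx d :=
  fun i j => if j = o then (if i = o then 1 else r i i) else r i j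

/-- types with a translation -/
def ExoM {a b c e : ℕ} (N : Ln 2 a b c e) (U : Finset (Cl a b c e)) (τ : V 2 a) : Prop :=
  ∃ s₁ ∈ U, ∃ s₂ ∈ U, s₁ ≠ s₂ ∧ s₁.t = τ ∧ s₂.t = τ ∧ ∃ f : V 2 a →ₗ[ZMod 2] ZMod 2, f τ = 1 ∧
    (∀ s, Ph N s₁ s + Ph N s₂ s = f s.t) ∧ ∀ s ∈ U, s.y = 0 → f s.t = 0

/-- averages over the modified matrices -/
def RdM : Prop :=
  ∀ (d : ℕ) (o : Fin d) (ν : Mx d → ℝ) (Lg : Finset (Fin d)) (η : ℝ), Osc ν Lg η → o ∉ Lg →
    ∀ (Φ : Mx d) (g : (Fin d → ZMod 2) → ℝ), (∀ i, Φ i i = 0) → (∀ ε, |g ε| ≤ 1) →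
    ((∃ i ∈ Lg, Φ o i ≠ 0 ∨ ∃ j, j ≠ o ∧ Φ i j ≠ Φ j i) →
      |∑ r, ν r * (g (dg (Psi o r)) * sg (∑ i, ∑ j, Psi o r i j * Φ i j))| ≤ 2 * η) ∧
    ((∀ i j, i ≠ o → j ≠ o → Φ i j = Φ j i) → (∀ j, Φ o j = 0) → ∀ i ∈ Lg, ∀ i' ∈ Lg, i ≠ i' →
      (∀ ε, g (ε + Pi.single i 1 + Pi.single i' 1) = g ε) →
      (∀ ε, ε o = 1 → g ε ≠ 0 → ∑ k, ε k * (Φ i k + Φ i' k) + Φ i i' = 1) →
      |∑ r, ν r * (g (dg (Psi o r)) * sg (∑ i, ∑ j, Psi o r i j * Φ i j))| ≤ 2 * η)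

open Classical in
/-- sequences of colours with one free entry -/
def ColM : Prop :=
  ∀ (Ω : Type) [Fintype Ω] [DecidableEq Ω] (ω : Ω → ℝ) (R : Ω → Ω → Prop), (∀ a, 0 ≤ ω a) →
    (∀ a, R a a) → (∀ a b, R a b → R b a) →
    (∀ U : Finset Ω, (∀ a ∈ U, 0 < ω a) → (∀ a ∈ U, ∀ b ∈ U, R a b) → ∑ a ∈ U, ω a ≤ 1) →
    ∃ δ : ℝ, 0 < δ ∧
      (∀ (d : ℕ) (o : Fin d) (Lg : Finset (Fin d)), o ∉ Lg → (d : ℝ) ≤ (1 + δ) * Lg.card →
        ∑ s : Fin d → Ω with (∀ i ∈ Lg, ∀ j, j ≠ o → R (s i) (s j)), ∏ j, ω (s j) ≤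
          (∑ a, ω a) * 2 ^ (univ.filter fun a => 0 < ω a).card) ∧
      ∀ (m : ℕ) (ε : ℝ), 0 < ε → ∃ m₀, ∀ (d : ℕ) (o : Fin d) (Sm Lg : Finset (Fin d)),
        Thin δ m₀ Sm Lg → o ∉ Sm → o ∉ Lg →
        ∑ s : Fin d → Ω with ((∀ i ∈ Lg, ∀ j, j ≠ o → R (s i) (s j)) ∧
          ¬ (1 ≤ ∑ a ∈ Lg.image s, ω a ∧ ∀ j, j ≠ o → s j ∈ Lg.image s ∧
            m ≤ (Sm.filter fun j' => s j' = s j).card)), ∏ j, ω (s j) ≤ ε

/-- symmetric sets of colours of full mass -/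
def UnlM : Prop :=
  AllN fun _ _ _ _ N => ∀ U, Unl N U → 1 ≤ ∑ s ∈ U, wq N s.t →
    (∀ σ ∈ N.ty, (∃ s ∈ U, s.t = σ) ∨ ∃ s₁ ∈ U, ∃ s₂ ∈ U, s₁ ≠ s₂ ∧ s₁.t = s₂.t ∧
      (∀ s ∈ U, Ph N s₁ s = Ph N s₂ s) ∧ ∀ s, s.t = σ → Ph N s₁ s + Ph N s₂ s = 1) ∧
    (∀ s ∈ U, (∃ s' ∈ U, s'.t = s.t ∧ s'.y = 0) ∨ ExoM N U s.t) ∧
    ((∀ s ∈ U, s.y = 0) → ∀ s₀, Vl N s₀ → (∃ s ∈ U, s.t = s₀.t) → (∀ s ∈ U, Ph N s₀ s = 0) →
      s₀.y = 0)

/-- the first moments of the kernels -/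
def K1M : Prop :=
  (AllN fun a b c _ N => ∃ δ C : ℝ, 0 < δ ∧ 1 ≤ C ∧
    ∀ (d : ℕ) (o : Fin d) (ν : Mx d → ℝ) (Lg : Finset (Fin d)) (η : ℝ), Osc ν Lg η → o ∉ Lg →
      (d : ℝ) ≤ (1 + δ) * Lg.card → ∑ r, ν r * (KerV N (Psi o r)).ncard ≤
        2 ^ 2 ^ (a + b + 2 * c + 1) * ∑ r, ν r + C ^ (d + 1) * η) ∧
  ∃ δ C : ℝ, 0 < δ ∧ 1 ≤ C ∧ ∀ (d : ℕ) (o : Fin d) (ν : Mx d → ℝ) (Lg : Finset (Fin d)) (η : ℝ),
    Osc ν Lg η → o ∉ Lg → (d : ℝ) ≤ (1 + δ) * Lg.card →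
      ∑ r, ν r * (Kp (Psi o r)).ncard ≤ 32 * ∑ r, ν r + C ^ (d + 1) * η

open Classical in
/-- dual vectors are rich -/
def K2M : Prop :=
  AllN fun _ _ _ _ N => ∃ δ C : ℝ, 0 < δ ∧ 1 ≤ C ∧ ∀ (m : ℕ) (ε : ℝ), 0 < ε → ∃ m₀,
    ∀ (d : ℕ) (o : Fin d) (ν : Mx d → ℝ) (Sm Lg : Finset (Fin d)) (η : ℝ), Osc ν Lg η →
      Thin δ m₀ Sm Lg → o ∉ Sm → (∀ i ∈ Lg, i < o) →
      ∑ r, ν r * (if GdE Sm Lg N (Psi o r) m then 0 else 1) ≤ ε * ∑ r, ν r + C ^ (d + 1) * η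

open Classical in
/-- most matrices are generic -/
def GenM : Prop :=
  ∀ (l n : ℕ) (ε : ℝ), 0 < ε → ∃ B, ∀ (P : Type) [Group P] [Fintype P] (T : Fil 2 P) (L : ℕ),
    TS T L l n → l + 2 + 1 ≤ L → ∃ (D : Gd 2 P) (La : LaT D), Pk T D La L l n ∧
      ∃ (δ C : ℝ) (m₀ : ℕ), 0 < δ ∧ 1 ≤ C ∧
        ∀ (d : ℕ) (o : Fin d) (ν : Mx d → ℝ) (Sm Lg : Finset (Fin d)) (η : ℝ), Osc ν Lg η →
          Thin δ m₀ Sm Lg → o ∉ Sm → (∀ i ∈ Lg, i < o) →
          ∑ r, ν r * (if GdQ Sm Lg T D La L l B (Psi o r) then 0 else 1) ≤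
            ε * ∑ r, ν r + C ^ (d + 1) * η

end Pool.Agent.MP_f68ac8_nt.Nd

end

section

namespace Pool.Agent.MP_f68ac8_nt.Zq

open Zv Zk Matrix Finset
open scoped commutatorElement

open Classical in
theorem ncard_ZqK1 {α : Type} [Fintype α] (S : Set α) :
    S.ncard = ∑ x, if x ∈ S then 1 else 0 := by
  rw [sum_boole, Nat.cast_id, ← Set.ncard_coe_finset]
  simp

theorem supp_ZqK1 {M : Type} [DecidableEq M] (Ω : Finset M) (f : Finset M → M → ℝ)
    (h0 : ∀ S σ, 0 ≤ f S σ) (h1 : ∀ S, ∑ σ ∈ S, f S σ ≤ 1) (d : ℕ) :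
    ∑ s ∈ Fintype.piFinset fun _ : Fin d => Ω, ∏ i, f (univ.image s) (s i) ≤ 2 ^ Ω.card := by
  rw [← sum_fiberwise_of_maps_to (t := Ω.powerset) (g := fun s => univ.image s) fun s hs =>
    mem_powerset.2 fun x hx => by
      obtain ⟨i, -, rfl⟩ := mem_image.1 hx
      exact Fintype.mem_piFinset.1 hs i]
  refine (sum_le_card_nsmul _ _ 1 fun S _ => ?_).trans (by simp)
  calc ∑ s ∈ (Fintype.piFinset fun _ : Fin d => Ω) with univ.image s = S,
        ∏ i, f (univ.image s) (s i)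
      = ∑ s ∈ (Fintype.piFinset fun _ : Fin d => Ω) with univ.image s = S, ∏ i, f S (s i) :=
        sum_congr rfl fun s hs => by rw [(mem_filter.1 hs).2]
    _ ≤ ∑ s ∈ Fintype.piFinset fun _ : Fin d => S, ∏ i, f S (s i) :=
        sum_le_sum_of_subset_of_nonneg (fun s hs => Fintype.mem_piFinset.2 fun i => by
          rw [← (mem_filter.1 hs).2]
          exact mem_image_of_mem s (mem_univ i)) fun s _ _ => prod_nonneg fun i _ => h0 _ _
    _ = ∏ _i : Fin d, ∑ σ ∈ S, f S σ :=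
        (prod_univ_sum (fun _ : Fin d => S) fun _ σ => f S σ).symm
    _ ≤ 1 := prod_le_one (fun _ _ => sum_nonneg fun _ _ => h0 _ _) fun _ _ => h1 S

theorem fst_ZqK1 {d a : ℕ} (ε : Fin d → ZMod 2) (τ : Fin d → V 2 a) : (fst ε τ).card ≤ 1 :=
  card_le_one.2 fun i hi j hj => le_antisymm
    (not_lt.1 fun h => (mem_filter.1 hi).2.2 j h (mem_filter.1 hj).2.1)
    (not_lt.1 fun h => (mem_filter.1 hj).2.2 i h (mem_filter.1 hi).2.1)

variable {a b c e d : ℕ} {N : Ln 2 a b c e}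

theorem la_ZqK1 (hN : N.Ok) {τ : V 2 a} (h : τ ∈ N.ty) : Nat.card (N.La τ) ≤ 2 ^ c := by
  rw [hN.card τ h]
  refine (Nat.card_le_card_of_injective _ Subtype.val_injective).trans_eq ?_
  simp

open Classical in
theorem val_ZqK1 (hN : N.Ok) : (univ.filter (Vl N)).card ≤ 2 ^ (a + b + 2 * c) := by
  refine (card_le_mul_card_image_of_maps_to (f := fun s : Cl a b c e => (s.t, s.v, s.z))
    (t := univ) (fun _ _ => mem_univ _) (2 ^ c) fun x _ => ?_).trans_eq (by simp; ring)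
  rcases (filter (fun s : Cl a b c e => (s.t, s.v, s.z) = x)
    (univ.filter (Vl N))).eq_empty_or_nonempty with h | ⟨s, hs⟩
  · rw [h]
    exact Nat.zero_le _
  obtain ⟨h1, rfl⟩ := mem_filter.1 hs
  refine le_trans ?_ (la_ZqK1 hN (mem_filter.1 h1).2.1)
  rw [← Nat.card_eq_finsetCard]
  refine Nat.card_le_card_of_injective (fun u => ⟨u.1.y, ?_⟩) ?_
  · obtain ⟨h2, h3⟩ := mem_filter.1 u.2
    exact (congrArg N.La (Prod.mk.inj h3).1).le (mem_filter.1 h2).2.2.2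
  · rintro ⟨⟨t, v, z, y⟩, hu⟩ ⟨⟨t', v', z', y'⟩, hu'⟩ h
    have h2 := (mem_filter.1 hu).2.trans (mem_filter.1 hu').2.symm
    simp only [Prod.mk.injEq, Subtype.mk.injEq, Cl.mk.injEq] at h h2 ⊢
    exact ⟨h2.1, h2.2.1, h2.2.2, h⟩

open Classical in
theorem ker_ZqK1 (hF : FouStmt) (hN : N.Ok) (r : Mx d) : ((KerV N r).ncard : ℝ) =
    ∑ s ∈ Fintype.piFinset fun _ : Fin d => univ.filter (Vl N),
      (∏ i, wq N (s i).t) * sg (∑ i, ∑ j, r i j * Ph N (s i) (s j)) := by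
  rw [ncard_ZqK1, ← sum_fiberwise _ fun s : Fin d → Cl a b c e =>
    (fun i => (s i).t, fun i => (s i).v), Nat.cast_sum]
  refine sum_congr rfl fun ⟨τ, v⟩ _ => ?_
  rw [Nat.cast_ite, Nat.cast_one, Nat.cast_zero]
  by_cases h : ∀ i, τ i ∈ N.ty ∧ v i ∈ N.A (τ i)
  · rw [(hF a b c e N hN d r τ fun i => (h i).1).2 v fun i => (h i).2]
    refine sum_congr ?_ fun s hs => ?_
    · ext s
      simp [funext_iff, forall_and]
    · rw [← (Prod.mk.inj (mem_filter.1 hs).2).1]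
  · rw [if_neg fun k => h fun i => ⟨k.1.1 i, k.2.1 i⟩, sum_eq_zero fun s hs => ?_]
    obtain ⟨h1, h2⟩ := mem_filter.1 hs
    obtain ⟨rfl, rfl⟩ := Prod.ext_iff.1 h2
    have h3 := fun i => (mem_filter.1 (Fintype.mem_piFinset.1 h1 i)).2
    exact (h fun i => ⟨(h3 i).1, (h3 i).2.1⟩).elim

/-- the linearised equations as linear maps -/
def Lv_ZqK1 (N : Ln 2 a b c e) (r : Mx d) (τ : Fin d → V 2 a) (i : Fin d) :
    (Fin d → V 2 c) →ₗ[ZMod 2] V 2 e :=
  N.b2 (τ i) ∘ₗ (∑ j, r i j • LinearMap.proj j) - N.b2 (∑ j, r i j • τ j) ∘ₗ LinearMap.proj i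

theorem Lv_apply_ZqK1 (r : Mx d) (τ : Fin d → V 2 a) (i : Fin d) (v : Fin d → V 2 c) :
    Lv_ZqK1 N r τ i v = N.Mv r τ v i := by
  simp [Lv_ZqK1, Ln.Mv]

theorem fib_ZqK1 (hN : N.Ok) (r : Mx d) (τ : Fin d → V 2 a) :
    {v | (τ, v) ∈ KerW N r}.ncard ≤ 2 ^ c * {v | (τ, v) ∈ KerV N r}.ncard := by
  by_cases h : N.Eq1 r τ
  swap
  · rw [Set.eq_empty_of_forall_notMem (s := {v | (τ, v) ∈ KerW N r}) fun v hv => h hv.1]
    simp
  let W : Submodule (ZMod 2) (Fin d → V 2 c) := Submodule.pi Set.univ (fun i => N.A (τ i)) ⊓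
    ⨅ i ∉ fst (dg r) τ, LinearMap.ker (Lv_ZqK1 N r τ i)
  have hW : {v | (τ, v) ∈ KerW N r} = W := by
    ext v
    simp [W, KerW, h, Lv_apply_ZqK1, Submodule.mem_pi]
  let φ : W →ₗ[ZMod 2] ∀ i : fst (dg r) τ, Module.Dual (ZMod 2) (N.La (τ i)) :=
    LinearMap.pi fun i => ((dotProductBilin (ZMod 2) (ZMod 2)).domRestrict (N.La (τ i))).flip ∘ₗ
      Lv_ZqK1 N r τ i ∘ₗ W.subtype
  have h1 : Nat.card (LinearMap.range φ) ≤ 2 ^ c := by
    have : ∀ i : fst (dg r) τ, Finite (Module.Dual (ZMod 2) (N.La (τ i))) := fun i =>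
      Module.finite_of_finite (ZMod 2)
    refine (Nat.card_le_card_of_injective _ Subtype.val_injective).trans ?_
    rw [Nat.card_pi]
    refine (prod_le_pow_card _ _ (2 ^ c) fun i _ => ?_).trans ?_
    · rw [Module.natCard_eq_pow_finrank (K := ZMod 2), Subspace.dual_finrank_eq,
        ← Module.natCard_eq_pow_finrank]
      exact la_ZqK1 hN (h.1 i)
    · rw [card_univ, Fintype.card_coe]
      exact (pow_le_pow_right₀ Nat.one_le_two_pow (fst_ZqK1 _ _)).trans_eq (pow_one _)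
  have h2 : Nat.card (LinearMap.ker φ) ≤ {v | (τ, v) ∈ KerV N r}.ncard := by
    refine Nat.card_le_card_of_injective (β := {v | (τ, v) ∈ KerV N r}) (fun v => ⟨v.1.1, ?_⟩)
      fun v w k => Subtype.ext (Subtype.ext (Subtype.mk.inj k))
    have h3 : (τ, v.1.1) ∈ KerW N r := hW.ge v.1.2
    refine ⟨h, h3.2.1, fun i y hy => ?_⟩
    by_cases hi : i ∈ fst (dg r) τ
    · rw [← Lv_apply_ZqK1]
      exact LinearMap.congr_fun (congrFun v.2 ⟨i, hi⟩) ⟨y, hy⟩
    · rw [h3.2.2 i hi, dotProduct_zero]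
  rw [hW, mul_comm]
  exact (card_ZkK1 φ).trans_le (Nat.mul_le_mul h2 h1)

theorem k1_stmt (hR : RdStmt) (hF : FouStmt) (hU : UnlStmt) : K1Stmt := by
  classical
  intro a b c e N hN d
  obtain ⟨u1, u2⟩ := hU a b c e N hN
  have hw : ∀ t, 0 ≤ wq N t := fun t => by
    unfold wq
    positivity
  refine ⟨?_, fun r => ?_⟩
  · simp only [ker_ZqK1 hF hN]
    rw [expect_sum_comm]
    refine le_trans (sum_le_sum fun s hs => ?_) ((supp_ZqK1 (univ.filter (Vl N))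
      (fun S σ => if Unl N S then wq N σ.t else 0) (fun S σ => by split_ifs; exacts [hw _, le_rfl])
      (fun S => by split_ifs with h; exacts [(u2 S h).1, by simp]) d).trans
      (pow_le_pow_right₀ one_le_two (val_ZqK1 hN)))
    have h1 := (hR d (fun i j => Ph N (s i) (s j)) (fun _ => 1) fun i => u1 _).1
    simp only [one_mul] at h1
    rw [← mul_expect, h1]
    by_cases h : ∀ i j, Ph N (s i) (s j) = Ph N (s j) (s i)
    · have h2 : Unl N (univ.image s) := ⟨forall_mem_image.2 fun i _ =>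
        (mem_filter.1 (Fintype.mem_piFinset.1 hs i)).2,
        forall_mem_image.2 fun i _ => forall_mem_image.2 fun j _ => h i j⟩
      simp only [if_pos h, if_pos h2]
      refine mul_le_of_le_one_right (prod_nonneg fun i _ => hw _)
        (expect_le univ_nonempty fun ε _ => ?_)
      unfold sg
      split_ifs <;> norm_num
    · rw [if_neg h, mul_zero]
      exact prod_nonneg fun i _ => by split_ifs; exacts [hw _, le_rfl]
  · rw [ncard_ZqK1, ncard_ZqK1 (KerV N r), Fintype.sum_prod_type, Fintype.sum_prod_type, mul_sum]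
    refine sum_le_sum fun τ _ => ?_
    have h := fib_ZqK1 hN r τ
    rw [ncard_ZqK1, ncard_ZqK1] at h
    exact h

end Pool.Agent.MP_f68ac8_nt.Zq

end

section

namespace Pool.Agent.MP_f68ac8_nt.Nd
open Zq Zv Zk Matrix Finset
open scoped commutatorElement

section
open Filter Topology

variable {Ω : Type} [Fintype Ω] [DecidableEq Ω] {d : ℕ}

omit [DecidableEq Ω] in
theorem master_NcCol (p : (Fin d → Ω) → Prop) {_ : DecidablePred p} (P : Finset Ω)
    (f : (Fin d → Ω) → ℝ) (g : Finset Ω → (Fin d → Ω) → ℝ) (hg : ∀ U s, 0 ≤ g U s)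
    (h : ∀ s, p s → f s ≤ 0 ∨ ∃ U ⊆ P, f s ≤ g U s) (c : ℝ) (hc : ∀ U ⊆ P, ∑ s, g U s ≤ c) :
    ∑ s with p s, f s ≤ 2 ^ P.card * c := by
  calc _ ≤ ∑ s : Fin d → Ω, ∑ U ∈ P.powerset, g U s := by
        refine (sum_le_sum fun s hs => ?_).trans (sum_le_sum_of_subset_of_nonneg
          (filter_subset _ _) fun s _ _ => sum_nonneg fun U _ => hg U s)
        rcases h s (mem_filter.1 hs).2 with h1 | ⟨U, hU, h1⟩
        · exact h1.trans (sum_nonneg fun U _ => hg U s)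
        · exact h1.trans (single_le_sum (fun U _ => hg U s) (mem_powerset.2 hU))
    _ ≤ _ := by
        rw [sum_comm]
        refine (sum_le_card_nsmul _ _ c fun U hU => hc U (mem_powerset.1 hU)).trans_eq ?_
        simp

/-- weight with the colours at the indices in `Lg` confined to `U` -/
noncomputable def wA_NcCol (ω : Ω → ℝ) (Lg : Finset (Fin d)) (U : Finset Ω) (s : Fin d → Ω) : ℝ :=
  ∏ j, if j ∈ Lg ∧ s j ∉ U then 0 else ω (s j)

/-- weight with all colours in `U`, halved at the occurrences of `a` in `Sm` -/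
noncomputable def wC_NcCol (ω : Ω → ℝ) (Sm : Finset (Fin d)) (U : Finset Ω) (a : Ω)
    (s : Fin d → Ω) : ℝ :=
  ∏ j, if s j ∈ U then (if j ∈ Sm ∧ s j = a then 1 / 2 else 1) * ω (s j) else 0

omit [Fintype Ω] in
theorem wA0_NcCol {ω : Ω → ℝ} (h0 : ∀ a, 0 ≤ ω a) (Lg : Finset (Fin d)) (U : Finset Ω)
    (s : Fin d → Ω) : 0 ≤ wA_NcCol ω Lg U s :=
  prod_nonneg fun j _ => by
    split_ifs
    exacts [le_rfl, h0 _]

omit [Fintype Ω] in
theorem wC0_NcCol {ω : Ω → ℝ} (h0 : ∀ a, 0 ≤ ω a) (Sm : Finset (Fin d)) (U : Finset Ω) (a : Ω)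
    (s : Fin d → Ω) : 0 ≤ wC_NcCol ω Sm U a s :=
  prod_nonneg fun j _ => by
    have := h0 (s j)
    split_ifs <;> positivity

omit [Fintype Ω] in
theorem wAeq_NcCol (ω : Ω → ℝ) {Lg : Finset (Fin d)} {U : Finset Ω} {s : Fin d → Ω}
    (h : ∀ j ∈ Lg, s j ∈ U) : wA_NcCol ω Lg U s = ∏ j, ω (s j) :=
  prod_congr rfl fun j _ => if_neg fun k => k.2 (h j k.1)

theorem sumA_NcCol (ω : Ω → ℝ) (Lg : Finset (Fin d)) (U : Finset Ω) :
    ∑ s, wA_NcCol ω Lg U s = (∑ a ∈ U, ω a) ^ Lg.card * (∑ a, ω a) ^ (d - Lg.card) := by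
  have k : ∀ j : Fin d, (∑ b, if j ∈ Lg ∧ b ∉ U then 0 else ω b) =
      if j ∈ Lg then ∑ a ∈ U, ω a else ∑ a, ω a := fun j => by
    by_cases hj : j ∈ Lg
    · simp only [hj, true_and, if_true, ite_not]
      rw [← sum_filter, filter_mem_eq_inter, univ_inter]
    · simp only [hj, false_and, if_false]
  calc _ = ∏ j : Fin d, ∑ b, if j ∈ Lg ∧ b ∉ U then 0 else ω b := by
        rw [Fintype.prod_sum]
        rfl
    _ = _ := by
        rw [prod_congr rfl fun j _ => k j, prod_ite, prod_const, prod_const, filter_mem_eq_inter,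
          univ_inter, filter_not, filter_mem_eq_inter, univ_inter, card_univ_sdiff,
          Fintype.card_fin]

theorem sumC_NcCol {ω : Ω → ℝ} (h0 : ∀ a, 0 ≤ ω a) (Sm : Finset (Fin d)) {U : Finset Ω} {a : Ω}
    (ha : a ∈ U) (h1 : ∑ b ∈ U, ω b ≤ 1) :
    ∑ s, wC_NcCol ω Sm U a s ≤ (1 - ω a / 2) ^ Sm.card := by
  have k : ∀ j : Fin d, (∑ b, if b ∈ U then (if j ∈ Sm ∧ b = a then 1 / 2 else 1) * ω b else 0) ≤
      if j ∈ Sm then 1 - ω a / 2 else 1 := fun j => by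
    rw [← sum_filter, filter_mem_eq_inter, univ_inter]
    by_cases hj : j ∈ Sm
    · have e2 : ∀ b, (if b = a then 1 / 2 else 1) * ω b = ω b - if b = a then ω b / 2 else 0 :=
        fun b => by split_ifs <;> ring
      simp only [hj, true_and, if_true, e2, sum_sub_distrib, sum_ite_eq', ha]
      linarith
    · simpa only [hj, false_and, if_false, one_mul] using h1
  calc _ = ∏ j : Fin d, ∑ b,
        if b ∈ U then (if j ∈ Sm ∧ b = a then 1 / 2 else 1) * ω b else 0 := by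
        rw [Fintype.prod_sum]
        rfl
    _ ≤ ∏ j : Fin d, if j ∈ Sm then 1 - ω a / 2 else 1 :=
        prod_le_prod (fun j _ => sum_nonneg fun b _ => by
          have := h0 b
          split_ifs <;> positivity) fun j _ => k j
    _ = _ := by rw [← prod_filter, prod_const, filter_mem_eq_inter, univ_inter]

omit [Fintype Ω] in
theorem wCle_NcCol {ω : Ω → ℝ} (h0 : ∀ a, 0 ≤ ω a) {Sm : Finset (Fin d)} {U : Finset Ω} {a : Ω}
    {s : Fin d → Ω} (h : ∀ j, s j ∈ U) {m : ℕ} (hm : (Sm.filter fun j => s j = a).card ≤ m) :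
    ∏ j, ω (s j) ≤ 2 ^ m * wC_NcCol ω Sm U a s := by
  have e : wC_NcCol ω Sm U a s =
      (1 / 2 : ℝ) ^ (Sm.filter fun j => s j = a).card * ∏ j, ω (s j) := by
    have e1 : (univ.filter fun j => j ∈ Sm ∧ s j = a) = Sm.filter fun j => s j = a := by
      ext j
      simp
    rw [wC_NcCol, prod_congr rfl fun j _ => if_pos (h j), prod_mul_distrib, ← prod_filter,
      prod_const, e1]
  rw [e, ← mul_assoc]
  refine le_mul_of_one_le_left (prod_nonneg fun j _ => h0 _) ?_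
  rw [one_div, inv_pow, ← div_eq_mul_inv, one_le_div (by positivity)]
  exact pow_le_pow_right₀ one_le_two hm

theorem theta_NcCol {ω : Ω → ℝ} (h0 : ∀ a, 0 ≤ ω a) : ∃ δ θ : ℝ, 0 < δ ∧ 0 ≤ θ ∧ θ < 1 ∧
    ∀ (d : ℕ) (Lg : Finset (Fin d)) (U : Finset Ω), (d : ℝ) ≤ (1 + δ) * Lg.card →
      ∑ a ∈ U, ω a < 1 → ∑ s, wA_NcCol ω Lg U s ≤ θ ^ Lg.card := by
  obtain ⟨U₀, hU₀, hmax⟩ := exists_max_image
    (univ.filter fun U : Finset Ω => ∑ a ∈ U, ω a < 1) (fun U => ∑ a ∈ U, ω a) ⟨∅, by simp⟩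
  have hγ1 := (mem_filter.1 hU₀).2
  have hγ0 : 0 ≤ ∑ a ∈ U₀, ω a := sum_nonneg fun a _ => h0 a
  set γ := ∑ a ∈ U₀, ω a
  set W := max 1 (∑ a, ω a) with hW
  have hW1 : 1 ≤ W := le_max_left _ _
  have hc : Continuous fun δ : ℝ => γ * W ^ δ :=
    continuous_const.mul (continuous_const.rpow continuous_id fun _ => Or.inl (by linarith))
  have he : ∀ᶠ δ in 𝓝 (0 : ℝ), γ * W ^ δ < 1 :=
    hc.continuousAt.eventually_lt continuousAt_const (by simpa using hγ1)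
  obtain ⟨δ, hδ, hδ0⟩ := ((he.filter_mono (nhdsWithin_le_nhds (s := Set.Ioi 0))).and
    self_mem_nhdsWithin).exists
  refine ⟨δ, γ * W ^ δ, hδ0, by positivity, hδ, fun d Lg U hd hU => ?_⟩
  rw [sumA_NcCol, mul_pow]
  have hL : Lg.card ≤ d := (card_le_univ _).trans_eq (Fintype.card_fin d)
  refine mul_le_mul (pow_le_pow_left₀ (sum_nonneg fun a _ => h0 a)
    (hmax U (mem_filter.2 ⟨mem_univ _, hU⟩)) _) ?_
    (pow_nonneg (sum_nonneg fun a _ => h0 a) _) (by positivity)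
  refine (pow_le_pow_left₀ (sum_nonneg fun a _ => h0 a) (le_max_right 1 _) _).trans ?_
  rw [← hW, ← Real.rpow_natCast, ← Real.rpow_natCast, ← Real.rpow_mul (by linarith)]
  refine Real.rpow_le_rpow_of_exponent_le hW1 ?_
  rw [Nat.cast_sub hL]
  linarith

omit [Fintype Ω] in
theorem full_NcCol {ω : Ω → ℝ} {R : Ω → Ω → Prop} (hr : ∀ a, R a a) (hs : ∀ a b, R a b → R b a)
    (hU : ∀ U : Finset Ω, (∀ a ∈ U, 0 < ω a) → (∀ a ∈ U, ∀ b ∈ U, R a b) → ∑ a ∈ U, ω a ≤ 1)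
    {Lg : Finset (Fin d)} {s : Fin d → Ω} (hp : ∀ j, 0 < ω (s j))
    (h : ∀ i ∈ Lg, ∀ j, R (s i) (s j)) :
    ∑ a ∈ Lg.image s, ω a ≤ 1 ∧ (1 ≤ ∑ a ∈ Lg.image s, ω a → ∀ j, s j ∈ Lg.image s) := by
  refine ⟨hU _ (fun a ha => ?_) fun a ha b hb => ?_, fun h1 j => ?_⟩
  · obtain ⟨i, -, rfl⟩ := mem_image.1 ha
    exact hp i
  · obtain ⟨i, hi, rfl⟩ := mem_image.1 ha
    obtain ⟨j, -, rfl⟩ := mem_image.1 hb
    exact h i hi j
  · by_contra hj
    have := hU (insert (s j) (Lg.image s)) (fun a ha => ?_) fun a ha b hb => ?_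
    · rw [sum_insert hj] at this
      linarith [hp j]
    · rcases mem_insert.1 ha with rfl | ha
      · exact hp j
      · obtain ⟨i, -, rfl⟩ := mem_image.1 ha
        exact hp i
    · rcases mem_insert.1 ha with rfl | ha
      · rcases mem_insert.1 hb with rfl | hb
        · exact hr _
        · obtain ⟨i, hi, rfl⟩ := mem_image.1 hb
          exact hs _ _ (h i hi j)
      · obtain ⟨i, hi, rfl⟩ := mem_image.1 ha
        rcases mem_insert.1 hb with rfl | hb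
        · exact h i hi j
        · obtain ⟨k, -, rfl⟩ := mem_image.1 hb
          exact h i hi k

omit [Fintype Ω] [DecidableEq Ω] in
theorem pos_NcCol {ω : Ω → ℝ} (h0 : ∀ a, 0 ≤ ω a) (s : Fin d → Ω) :
    ∏ j, ω (s j) ≤ 0 ∨ ∀ j, 0 < ω (s j) := by
  by_cases h : ∀ j, 0 < ω (s j)
  · exact Or.inr h
  · obtain ⟨j, hj⟩ := not_forall.1 h
    exact Or.inl (prod_eq_zero (mem_univ j) (le_antisymm (not_lt.1 hj) (h0 _))).le

end

open Filter Topology in
theorem colN : ColN := by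
  intro Ω _ _ ω R h0 hr hs hU
  obtain ⟨δ, θ, hδ, hθ0, hθ1, hθ⟩ := theta_NcCol h0
  have hsub : ∀ {d : ℕ} (Lg : Finset (Fin d)) {s : Fin d → Ω}, (∀ j, 0 < ω (s j)) →
      Lg.image s ⊆ univ.filter fun a => 0 < ω a := fun Lg s hp a ha => by
    obtain ⟨i, -, rfl⟩ := mem_image.1 ha
    exact mem_filter.2 ⟨mem_univ _, hp i⟩
  refine ⟨δ, hδ, fun d Lg hd => ?_, fun m ε hε => ?_⟩
  · refine (master_NcCol _ (univ.filter fun a => 0 < ω a) _
      (fun U s => if ∑ a ∈ U, ω a < 1 then wA_NcCol ω Lg U s else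
        if ∑ a ∈ U, ω a ≤ 1 then wA_NcCol ω univ U s else 0) (fun U s => ?_) (fun s h => ?_) 1
      fun U _ => ?_).trans_eq (mul_one _)
    · split_ifs
      exacts [wA0_NcCol h0 _ _ _, wA0_NcCol h0 _ _ _, le_rfl]
    · refine (pos_NcCol h0 s).imp_right fun hp => ⟨Lg.image s, hsub Lg hp, ?_⟩
      obtain ⟨h1, h2⟩ := full_NcCol hr hs hU hp h
      by_cases h3 : ∑ a ∈ Lg.image s, ω a < 1
      · rw [if_pos h3, wAeq_NcCol ω fun j hj => mem_image_of_mem s hj]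
      · rw [if_neg h3, if_pos h1, wAeq_NcCol ω fun j _ => h2 (not_lt.1 h3) j]
    · by_cases h3 : ∑ a ∈ U, ω a < 1
      · simp only [if_pos h3]
        exact (hθ d Lg U hd h3).trans (pow_le_one₀ hθ0 hθ1.le)
      · simp only [if_neg h3]
        by_cases h1 : ∑ a ∈ U, ω a ≤ 1
        · simp only [if_pos h1]
          rw [sumA_NcCol, card_univ, Fintype.card_fin, Nat.sub_self, pow_zero, mul_one]
          exact pow_le_one₀ (sum_nonneg fun a _ => h0 a) h1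
        · simp only [if_neg h1, sum_const_zero, zero_le_one]
  · have hω : ∀ a, 0 < ω a → ω a ≤ 1 := fun a ha => by
      simpa using hU {a} (by simpa using ha) (by simpa using hr a)
    have ht : Tendsto (fun n : ℕ => 2 ^ (univ.filter fun a => 0 < ω a).card *
        (θ ^ n + ∑ a with 0 < ω a, 2 ^ m * (1 - ω a / 2) ^ n)) atTop
        (𝓝 (2 ^ (univ.filter fun a => 0 < ω a).card * (0 + ∑ a with 0 < ω a, 2 ^ m * 0))) := by
      refine Tendsto.const_mul _ ((tendsto_pow_atTop_nhds_zero_of_lt_one hθ0 hθ1).add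
        (tendsto_finsetSum _ fun a ha => Tendsto.const_mul _ ?_))
      have k1 := (mem_filter.1 ha).2
      exact tendsto_pow_atTop_nhds_zero_of_lt_one (by linarith [hω a k1]) (by linarith)
    simp only [mul_zero, sum_const_zero, add_zero] at ht
    obtain ⟨n₀, hn⟩ := eventually_atTop.1 (ht.eventually (ge_mem_nhds hε))
    refine ⟨n₀, fun d Sm Lg hT => le_trans ?_ (hn n₀ le_rfl)⟩
    refine master_NcCol _ (univ.filter fun a => 0 < ω a) _
      (fun U s => (if ∑ a ∈ U, ω a < 1 then wA_NcCol ω Lg U s else 0) +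
        if ∑ a ∈ U, ω a ≤ 1 then ∑ a ∈ U, 2 ^ m * wC_NcCol ω Sm U a s else 0)
      (fun U s => add_nonneg ?_ ?_) (fun s h => ?_) _ fun U hUP => ?_
    · split_ifs
      exacts [wA0_NcCol h0 _ _ _, le_rfl]
    · split_ifs
      exacts [sum_nonneg fun a _ => mul_nonneg (by positivity) (wC0_NcCol h0 _ _ _ _), le_rfl]
    · refine (pos_NcCol h0 s).imp_right fun hp => ⟨Lg.image s, hsub Lg hp, ?_⟩
      obtain ⟨h1, h2⟩ := full_NcCol hr hs hU hp h.1
      have h4 : ∀ a ∈ Lg.image s, 0 ≤ 2 ^ m * wC_NcCol ω Sm (Lg.image s) a s :=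
        fun a _ => mul_nonneg (by positivity) (wC0_NcCol h0 _ _ _ _)
      rw [if_pos h1]
      by_cases h3 : ∑ a ∈ Lg.image s, ω a < 1
      · rw [if_pos h3, wAeq_NcCol ω fun j hj => mem_image_of_mem s hj]
        exact le_add_of_nonneg_right (sum_nonneg h4)
      · rw [if_neg h3, zero_add]
        have h5 := h2 (not_lt.1 h3)
        obtain ⟨j, hj⟩ := not_forall.1 fun k => h.2 ⟨not_lt.1 h3, k⟩
        exact (wCle_NcCol h0 h5 (not_le.1 fun k => hj ⟨h5 j, k⟩).le).trans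
          (single_le_sum h4 (h5 j))
    · rw [sum_add_distrib]
      have h6 : ∀ a ∈ univ.filter fun a => 0 < ω a, 0 ≤ 1 - ω a / 2 := fun a ha => by
        linarith [hω a (mem_filter.1 ha).2]
      refine add_le_add ?_ ?_
      · by_cases h3 : ∑ a ∈ U, ω a < 1
        · simp only [if_pos h3]
          exact (hθ d Lg U hT.thin h3).trans (pow_le_pow_of_le_one hθ0 hθ1.le hT.lg)
        · simp only [if_neg h3, sum_const_zero]
          positivity
      · by_cases h1 : ∑ a ∈ U, ω a ≤ 1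
        · simp only [if_pos h1]
          rw [sum_comm]
          refine (sum_le_sum fun a ha => ?_).trans (sum_le_sum_of_subset_of_nonneg hUP
            fun a ha _ => mul_nonneg (by positivity) (pow_nonneg (h6 a ha) _))
          rw [← mul_sum]
          refine mul_le_mul_of_nonneg_left ((sumC_NcCol h0 Sm ha h1).trans
            (pow_le_pow_of_le_one (h6 a (hUP ha)) (by linarith [h0 a]) hT.sm)) (by positivity)
        · simp only [if_neg h1, sum_const_zero]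
          exact sum_nonneg fun a ha => mul_nonneg (by positivity) (pow_nonneg (h6 a ha) _)

end Pool.Agent.MP_f68ac8_nt.Nd

end

section

/-! Most matrices with reciprocity are generic, and the low levels. -/

namespace Pool.Agent.MP_f68ac8_nt.Zq
open Zv Zk Matrix Finset
open scoped commutatorElement
open scoped BigOperators

lemma mv_ZqGood {a b c e d : ℕ} (N : Ln 2 a b c e) {U : Fin d → Type} {J : Finset (Fin d)}
    (y : (Σ j, U j) → FreeGroup (Σ j, U j)) (q : ∀ j, U j) (τ : Fin d → V 2 a)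
    (v : Fin d → V 2 c) {i : Fin d} (hi : i ∉ J) :
    N.Mv (rr (dr J y) q 2) τ v i = N.Mv (rr y q 2) τ v i := by
  have h : ∀ j, rr (dr J y) q 2 i j = rr y q 2 i j := fun j => by
    unfold rr dr
    rw [if_neg hi]
  simp only [Ln.Mv, h]

theorem low_stmt (hG : GdStmt 2) (hD : Zk.DerStmt 2) : LowStmt := by
  intro P _ _ T D La L l n hP d U y q i hi _
  have hT := hP.ts
  have hO := hP.gd
  have h1 : 1 ≤ i + 1 := by omega
  have hc : ∀ H : Subgroup P, (0 : ℝ) < Nat.card H ^ d := fun H =>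
    pow_pos (Nat.cast_pos.2 Nat.card_pos) d
  refine ⟨?_, ?_⟩
  · rw [Nq, div_le_iff₀ (hc _), ← Nat.card_coe_set_eq, ← Nat.card_coe_set_eq]
    refine count_ZkDer _ (fun x => ⟨(tyOf D x.1, 0), x.2.2.1.1,
      fun _ => zero_mem _, fun k _ => by simp [Ln.Mv]⟩) Subtype.val (fun a b e j => ?_)
      fun a b _ e => Subtype.ext e
    exact eq_ZkDer hO le_rfl (hT.one ▸ Subgroup.mem_top _) (hT.one ▸ Subgroup.mem_top _)
      (congrFun (congrArg (fun z => z.1.1) e) j)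
  have kt : ∀ x v : Fin d → P, (∀ j, v j ∈ T.F (i + 1)) → tyOf D (x * v) = tyOf D x :=
    fun x v hv => funext fun j => one_ZkDer hT hO hi (x j) (hv j)
  have k0 : ∀ x ∈ SolQ T D La y q (i + 1), ∀ v : Fin d → P, (∀ j, v j ∈ T.F (i + 1)) → _ :=
    fun x hx v hv => (hD P T L l n hT D hO d U (dr (fst (dg (rr y q 2)) (tyOf D x)) y) q x).2
      La i hi v hv fun j => (low_ZkDer hT hO (by omega) (hx.2.2 j)).1
  have k1 : ∀ x ∈ SolQ T D La y q (i + 1), ∀ v : Fin d → P, (∀ j, v j ∈ T.F (i + 1)) →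
      x * v ∈ SolQ T D La y q i := fun x hx v hv => by
    refine ⟨cand_ZkRec hT.ns hi hx.1 hv, ?_⟩
    rw [kt x v hv]
    exact ⟨hx.2.1, (k0 x hx v hv).1⟩
  have k2 : ∀ z ∈ SolQ T D La y q (i + 1), ∀ x ∈ SolQ T D La y q (i + 1),
      (∀ j, (z j)⁻¹ * x j ∈ T.F (i + 1)) →
      (tyOf D z, fun j => D.e (i + 1) ((z j)⁻¹ * x j)) ∈ KerW (lnOf T D La i) (rr y q 2) := by
    intro z hz x hx h
    refine ⟨hz.2.1.1, fun j => ?_, fun j hj => ?_⟩
    · exact mem_ZkRec hT.ns hT.one hO La (hz.1.1 j)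
        (by rw [mul_inv_cancel_left]; exact hx.1.1 j) (h j)
    · have a1 := (k0 z hz (z⁻¹ * x) h).2 j
      have a2 := kt z (z⁻¹ * x) h
      have a3 := hx.2.2 j
      rw [mul_inv_cancel_left] at a1 a2
      rw [a2] at a3
      rw [(low_ZkDer hT hO (by omega) a3).2, (low_ZkDer hT hO (by omega) (hz.2.2 j)).2, zero_add,
        mv_ZqGood _ _ _ _ _ hj] at a1
      exact a1.symm
  have k3 : ∀ w : Fin d → P, ∃ z, ∀ x ∈ SolQ T D La y q (i + 1),
      (∀ j, (x j)⁻¹ * w j ∈ T.F (i + 1)) →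
      z ∈ SolQ T D La y q (i + 1) ∧ ∀ j, (z j)⁻¹ * x j ∈ T.F (i + 1) := fun w => by
    by_cases h : ∃ z ∈ SolQ T D La y q (i + 1), ∀ j, (z j)⁻¹ * w j ∈ T.F (i + 1)
    · obtain ⟨z, a1, a2⟩ := h
      exact ⟨z, fun x _ a3 => ⟨a1, fun j => by simpa using mul_mem (a2 j) (inv_mem (a3 j))⟩⟩
    · exact ⟨1, fun x a1 a2 => absurd ⟨x, a1, a2⟩ h⟩
  choose s hs using k3
  have k4 : ∀ a : SolQ T D La y q (i + 1) × (Fin d → T.F (i + 1)), _ := fun a =>
    hs (a.1.1 * fun j => (a.2 j).1) a.1.1 a.1.2 fun j => by simp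
  have k5 := count_ZkDer (β := SolQ T D La y q i × KerW (lnOf T D La i) (rr y q 2))
    (T.F (i + 1 + 1))
    (fun a => (⟨_, k1 a.1.1 a.1.2 _ fun j => (a.2 j).2⟩, ⟨_, k2 _ (k4 a).1 _ a.1.2 (k4 a).2⟩))
    (fun a : SolQ T D La y q (i + 1) × (Fin d → T.F (i + 1)) => a.1.1) (fun a b e j => ?_)
    fun a b e e' => ?_
  · rw [Nat.card_prod, Nat.card_prod, Nat.card_fun, Nat.card_fin, Nat.card_coe_set_eq,
      Nat.card_coe_set_eq, Nat.card_coe_set_eq] at k5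
    rw [Nq, Nq, div_mul_eq_mul_div, div_le_div_iff₀ (hc _) (hc _)]
    exact_mod_cast k5
  · have a1 := congrArg (fun z => z.1.1) e
    have a2 := eq_ZkDer hO h1 ((k4 a).2 j) ((k4 b).2 j) (congrFun (congrArg (fun z => z.2.1.2) e) j)
    dsimp only at a1
    rw [a1] at a2
    simpa using a2
  · have a1 := congrArg (fun z => z.1.1) e
    dsimp only at a1 e'
    rw [e'] at a1
    exact Prod.ext (Subtype.ext e') (funext fun j => Subtype.ext (congrFun (mul_left_cancel a1) j))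

end Pool.Agent.MP_f68ac8_nt.Zq

end

section

namespace Pool.Agent.MP_f68ac8_nt.Nd
open Zq Zv Zk Matrix Finset
open scoped commutatorElement

theorem thin_NcGen {d : ℕ} {δ δ' : ℝ} {m m' : ℕ} {Sm Lg : Finset (Fin d)} (h : Thin δ m Sm Lg)
    (h1 : δ ≤ δ') (h2 : m' ≤ m) : Thin δ' m' Sm Lg :=
  ⟨h.dis, h.thin.trans (mul_le_mul_of_nonneg_right (by linarith) (Nat.cast_nonneg _)),
    h2.trans h.lg, h2.trans h.sm⟩

theorem com_NcGen (δ C : ℕ → ℝ) (hδ : ∀ i, 0 < δ i) (L : ℕ) :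
    ∃ δ₀ C₀ : ℝ, 0 < δ₀ ∧ 1 ≤ C₀ ∧ ∀ i < L, δ₀ ≤ δ i ∧ C i ≤ C₀ := by
  induction L with
  | zero => exact ⟨1, 1, one_pos, le_rfl, fun i hi => absurd hi (Nat.not_lt_zero i)⟩
  | succ L ih =>
    obtain ⟨a, b, h1, h2, h3⟩ := ih
    refine ⟨min a (δ L), max b (C L), lt_min h1 (hδ L), le_max_of_le_left h2, fun i hi => ?_⟩
    rcases Nat.lt_succ_iff_lt_or_eq.1 hi with h | rfl
    · exact ⟨(min_le_left _ _).trans (h3 i h).1, (h3 i h).2.trans (le_max_left _ _)⟩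
    · exact ⟨min_le_right _ _, le_max_right _ _⟩

open Classical in
theorem lev_NcGen (h1 : K1N) (h2 : K2N) {a b c e : ℕ} (N : Ln 2 a b c e) (m : ℕ) {ε : ℝ}
    (hε : 0 < ε) : ∃ (δ C : ℝ) (m₀ : ℕ), 0 < δ ∧ 1 ≤ C ∧ (N.Ok →
      ∀ (d : ℕ) (ν : Mx d → ℝ) (Sm Lg : Finset (Fin d)) (η : ℝ), Osc ν Lg η → Thin δ m₀ Sm Lg →
        ∑ r, ν r * (KerV N r).ncard ≤ 2 ^ 2 ^ (a + b + 2 * c) * ∑ r, ν r + C ^ (d + 1) * η ∧
        ∑ r, ν r * (if GdE Sm Lg N r m then 0 else 1) ≤ ε * ∑ r, ν r + C ^ (d + 1) * η) := by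
  by_cases h : N.Ok
  · obtain ⟨δ, C, a1, a2, a3⟩ := h1.1 _ _ _ _ N h
    obtain ⟨δ', C', b1, b2, b3⟩ := h2 _ _ _ _ N h
    obtain ⟨m₀, b4⟩ := b3 m ε hε
    refine ⟨min δ δ', max C C', m₀, lt_min a1 b1, le_max_of_le_left a2,
      fun _ d ν Sm Lg η hO hT => ⟨?_, ?_⟩⟩
    · refine (a3 d ν Lg η hO (thin_NcGen hT (min_le_left _ _) le_rfl).thin).trans ?_
      exact add_le_add_right (mul_le_mul_of_nonneg_right
        (pow_le_pow_left₀ (by linarith) (le_max_left _ _) _) hO.pos) _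
    · refine (b4 d ν Sm Lg η hO (thin_NcGen hT (min_le_right _ _) le_rfl)).trans ?_
      exact add_le_add_right (mul_le_mul_of_nonneg_right
        (pow_le_pow_left₀ (by linarith) (le_max_right _ _) _) hO.pos) _
  · exact ⟨1, 1, 0, one_pos, le_rfl, fun h' => absurd h' h⟩

open Classical in
theorem ind_NcGen {d : ℕ} (Sm Lg : Finset (Fin d)) {P : Type} [Group P] (T : Fil 2 P) (D : Gd 2 P)
    (La : LaT D) (L l B : ℕ) (B0 : (0 : ℝ) < B) (r : Mx d) :
    (if GdQ Sm Lg T D La L l B r then 0 else 1 : ℝ) ≤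
      ∑ i ∈ Icc 1 l, ((KerW (lnOf T D La i) r).ncard : ℝ) / B +
        ∑ i ∈ (range L).filter fun i => l ≤ i ∧ i + 2 + 1 ≤ L,
          (if GdE Sm Lg (lnOf T D La i) r (i + 1) then 0 else 1 : ℝ) := by
  have a1 : ∀ i ∈ Icc 1 l, 0 ≤ ((KerW (lnOf T D La i) r).ncard : ℝ) / B :=
    fun i _ => by positivity
  have a2 : ∀ i ∈ (range L).filter fun i => l ≤ i ∧ i + 2 + 1 ≤ L,
      (0 : ℝ) ≤ if GdE Sm Lg (lnOf T D La i) r (i + 1) then 0 else 1 := by
    intro i _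
    split_ifs
    · exact le_rfl
    · exact zero_le_one
  by_cases h : GdQ Sm Lg T D La L l B r
  · rw [if_pos h]
    exact add_nonneg (sum_nonneg a1) (sum_nonneg a2)
  · rw [if_neg h]
    rcases not_and_or.1 h with h | h
    · simp only [not_forall, not_le] at h
      obtain ⟨i, b1, b2, b3⟩ := h
      have b4 := single_le_sum a1 (mem_Icc.2 ⟨b1, b2⟩)
      have b5 : 1 ≤ ((KerW (lnOf T D La i) r).ncard : ℝ) / B := by
        rw [one_le_div B0]
        exact_mod_cast b3.le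
      linarith [sum_nonneg a2]
    · simp only [not_forall] at h
      obtain ⟨i, b1, b2, b3⟩ := h
      have b4 := single_le_sum a2 (mem_filter.2 ⟨mem_range.2 (show i < L by omega), b1, b2⟩)
      rw [if_neg b3] at b4
      linarith [sum_nonneg a1]

theorem genN (hG : GdStmt 2) (hL : LnStmt 2) (hD : DualStmt 2) (h0 : Zq.K1Stmt) (h1 : K1N)
    (h2 : K2N) : GenN := by
  classical
  intro l n ε hε
  obtain ⟨B, hB⟩ := exists_nat_gt (l * (n * 2 ^ (n * n * (n * n))) / (ε / 2) : ℝ)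
  have B0 : (0 : ℝ) < B := lt_of_le_of_lt (by positivity) hB
  have B1 : (1 : ℝ) ≤ B := by
    have : 0 < B := by exact_mod_cast B0
    exact_mod_cast this
  refine ⟨B, fun P _ _ T L hT hl => ?_⟩
  obtain ⟨-, ⟨D, hD'⟩, hk⟩ := hG P T L l n hT
  have e1 : ∀ i, ∃ La, 1 ≤ i → i + 2 + 1 ≤ L →
      Ln.Ok { lnOf T D (fun _ _ => ⊥) i with La := La } := by
    intro i
    by_cases h : 1 ≤ i ∧ i + 2 + 1 ≤ L
    · obtain ⟨La, hLa⟩ := hD _ _ _ _ _ (hL P T L l n hT D hD' (fun _ _ => ⊥) i h.1 h.2)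
      exact ⟨La, fun _ _ => hLa⟩
    · exact ⟨fun _ => ⊥, fun a b => absurd ⟨a, b⟩ h⟩
  choose La hLa using e1
  have hok : ∀ i, 1 ≤ i → i + 2 + 1 ≤ L → (lnOf T D La i).Ok := hLa
  refine ⟨D, La, ⟨hT, hD', hok, hl⟩, ?_⟩
  choose δ C m₀ k1 k2 k3 using fun i => lev_NcGen h1 h2 (lnOf T D La i) (i + 1)
    (show 0 < ε / (2 * L + 2) by positivity)
  obtain ⟨δ₀, C₀, c1, c2, c3⟩ := com_NcGen δ C k1 L
  have hK : (1 : ℝ) ≤ l * n + L + 1 := by
    have : (0 : ℝ) ≤ l * n + L := by positivity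
    linarith
  refine ⟨δ₀, (l * n + L + 1) * C₀, (range L).sup m₀, c1, one_le_mul_of_one_le_of_one_le hK c2,
    fun d ν Sm Lg η hO hth => ?_⟩
  have hs : 0 ≤ ∑ r, ν r := sum_nonneg fun r _ => hO.nn r
  have hE : 0 ≤ C₀ ^ (d + 1) * η := mul_nonneg (by positivity) hO.pos
  have k4 := fun i (a1 : 1 ≤ i) (a2 : i + 2 + 1 ≤ L) => k3 i (hok i a1 a2) d ν Sm Lg η hO
    (thin_NcGen hth (c3 i (by omega)).1 (le_sup (f := m₀) (mem_range.2 (by omega))))
  have k5 : ∀ i, i + 2 + 1 ≤ L → C i ^ (d + 1) * η ≤ C₀ ^ (d + 1) * η := fun i a2 =>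
    mul_le_mul_of_nonneg_right (pow_le_pow_left₀ (by linarith [k2 i]) (c3 i (by omega)).2 _) hO.pos
  obtain ⟨J, hJ⟩ : ∃ J : Finset ℕ, J = (range L).filter fun i => l ≤ i ∧ i + 2 + 1 ≤ L :=
    ⟨_, rfl⟩
  refine (sum_le_sum fun r _ => mul_le_mul_of_nonneg_left
    (ind_NcGen Sm Lg T D La L l B B0 r) (hO.nn r)).trans ?_
  rw [← hJ]
  simp only [mul_add, mul_sum, sum_add_distrib]
  rw [sum_comm, sum_comm (t := J)]
  have e4 : ∀ i ∈ Icc 1 l, ∑ r : Mx d, ν r * (((KerW (lnOf T D La i) r).ncard : ℝ) / B) ≤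
      n * 2 ^ (n * n * (n * n)) / B * ∑ r, ν r + n * (C₀ ^ (d + 1) * η) := by
    intro i hi
    obtain ⟨b1, b2⟩ := mem_Icc.1 hi
    have b3 : ∀ j, 1 ≤ j → j ≤ l + 1 → 2 ^ D.k j ≤ n := fun j c1 c2 =>
      (hk D hD' j c1).2.trans ((Subgroup.index_antitone
        (hT.ns.anti (j + 1) (l + 2) (by omega) (by omega))).trans hT.idx)
    have b4 := b3 (i + 1) (by omega) (by omega)
    have b5 : (2 : ℝ) ^ 2 ^ (D.k 1 + D.k (1 + 1) + 2 * D.k (i + 1)) ≤ 2 ^ (n * n * (n * n)) := by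
      refine pow_le_pow_right₀ one_le_two ?_
      rw [pow_add, pow_add, two_mul, pow_add]
      exact Nat.mul_le_mul (Nat.mul_le_mul (b3 1 le_rfl (by omega))
        (b3 (1 + 1) (by omega) (by omega))) (Nat.mul_le_mul b4 b4)
    have b6 : ∑ r : Mx d, ν r * ((KerV (lnOf T D La i) r).ncard : ℝ) ≤
        2 ^ (n * n * (n * n)) * ∑ r, ν r + C₀ ^ (d + 1) * η :=
      (k4 i b1 (by omega)).1.trans
        (add_le_add (mul_le_mul_of_nonneg_right b5 hs) (k5 i (by omega)))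
    have b7 : ∑ r : Mx d, ν r * (((KerW (lnOf T D La i) r).ncard : ℝ) / B) ≤
        n / B * ∑ r : Mx d, ν r * ((KerV (lnOf T D La i) r).ncard : ℝ) := by
      rw [mul_sum]
      refine sum_le_sum fun r _ => ?_
      have b8 : ((KerW (lnOf T D La i) r).ncard : ℝ) ≤ n * (KerV (lnOf T D La i) r).ncard := by
        exact_mod_cast ((h0 _ _ _ _ _ (hok i b1 (by omega)) d).2 r).trans
          (Nat.mul_le_mul_right _ b4)
      refine (mul_le_mul_of_nonneg_left (div_le_div_of_nonneg_right b8 B0.le) (hO.nn r)).trans_eq ?_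
      ring
    refine b7.trans ((mul_le_mul_of_nonneg_left b6 (by positivity)).trans ?_)
    have b9 : (n : ℝ) / B * (C₀ ^ (d + 1) * η) ≤ n * (C₀ ^ (d + 1) * η) :=
      mul_le_mul_of_nonneg_right (div_le_self (Nat.cast_nonneg _) B1) hE
    rw [mul_add]
    refine add_le_add (le_of_eq ?_) b9
    ring
  have e5 : ∀ i ∈ J, ∑ r : Mx d,
      ν r * (if GdE Sm Lg (lnOf T D La i) r (i + 1) then 0 else 1 : ℝ) ≤
        ε / (2 * L + 2) * ∑ r, ν r + C₀ ^ (d + 1) * η := by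
    intro i hi
    rw [hJ] at hi
    obtain ⟨-, b2, b3⟩ := mem_filter.1 hi
    exact (k4 i (hT.pos.trans b2) b3).2.trans (add_le_add_right (k5 i b3) _)
  have e6 := sum_le_card_nsmul _ _ _ e4
  have e7 := sum_le_card_nsmul _ _ _ e5
  rw [Nat.card_Icc, Nat.add_sub_cancel, nsmul_eq_mul, mul_add, ← mul_assoc] at e6
  rw [nsmul_eq_mul, mul_add, ← mul_assoc] at e7
  have e8 : (J.card : ℝ) ≤ L := by
    have : J.card ≤ L := by
      rw [hJ]
      exact (card_filter_le _ _).trans_eq (card_range L)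
    exact_mod_cast this
  have e9 : (J.card : ℝ) * (ε / (2 * L + 2)) ≤ ε / 2 :=
    (mul_le_mul_of_nonneg_right (show (J.card : ℝ) ≤ L + 1 by linarith) (by positivity)).trans_eq
      (by field_simp)
  have e10 : (l : ℝ) * (n * 2 ^ (n * n * (n * n)) / B) ≤ ε / 2 := by
    rw [div_lt_iff₀ (by positivity)] at hB
    rw [← mul_div_assoc, div_le_iff₀ B0]
    linarith
  have e11 := mul_le_mul_of_nonneg_right e9 hs
  have e12 := mul_le_mul_of_nonneg_right e10 hs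
  have e13 := mul_le_mul_of_nonneg_right e8 hE
  have e14 : ((l : ℝ) * n + L + 1) * (C₀ ^ (d + 1) * η) ≤
      ((l * n + L + 1) * C₀) ^ (d + 1) * η := by
    rw [mul_pow, mul_assoc]
    exact mul_le_mul_of_nonneg_right (le_self_pow₀ hK (by omega)) hE
  rw [← mul_sum]
  nlinarith

end Pool.Agent.MP_f68ac8_nt.Nd

end

section

/-! The main estimate. -/

namespace Pool.Agent.MP_f68ac8_nt.Zq

open Zv Zk Matrix Finset
open scoped commutatorElement

theorem low_ZqMulti (hL : LowStmt) {P : Type} [Group P] [Fintype P]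
    {T : Fil 2 P} {D : Gd 2 P} {La : LaT D} {L l n B d : ℕ} (hP : Pk T D La L l n)
    {U : Fin d → Type} {y : (Σ j, U j) → FreeGroup (Σ j, U j)} {q : ∀ j, U j}
    (h : GoodQ T D La L l B (rr y q 2)) (i : ℕ) (hi : 1 ≤ i) (hl : i ≤ l) :
    Nq T D La y q i ≤ (B : ℝ) ^ i := by
  have hb := hP.big
  induction i, hi using Nat.le_induction with
  | base =>
    rw [pow_one]
    exact (hL P T D La L l n hP d U y q 1 le_rfl (by omega)).1.trans
      (Nat.cast_le.2 (h.1 1 le_rfl hl))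
  | succ i hi ih =>
    rw [pow_succ]
    exact (hL P T D La L l n hP d U y q i hi (by omega)).2.trans
      (mul_le_mul (ih (by omega)) (Nat.cast_le.2 (h.1 i hi (by omega))) (Nat.cast_nonneg _)
        (by positivity))

open Classical in
theorem tq_ZqMulti {P : Type} [Group P] {T : Fil 2 P} {D : Gd 2 P} {d : ℕ} {U : Fin d → Type}
    {y : (Σ j, U j) → FreeGroup (Σ j, U j)} {q : ∀ j, U j} {C C' : Mx d → Prop}
    {J : Mx d → Finset (Fin d)} {l : ℕ} {x : Fin d → P} {z : Fin d → V 2 (D.k (l + 1 + 1))}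
    (h : C (rr y q 2) ↔ C' (rr y q 2)) : Tq T D y q C J l x z = Tq T D y q C' J l x z := by
  unfold Tq
  exact if_congr (and_congr_left' h) rfl rfl

theorem num_ZqMulti {a n f k : ℕ} (ha : 1 ≤ a) (h : (2 * a) ^ k ≤ n * f) {X Y ε : ℝ} (hX : 0 ≤ X)
    (hY : 0 ≤ Y) (hε : n * Y ≤ ε) :
    0 < (f : ℝ) ∧ (f : ℝ)⁻¹ * (a ^ k * (X + Y)) ≤ n * X / 2 ^ k + ε := by
  have h' : ((2 : ℝ) * a) ^ k ≤ n * f := by exact_mod_cast h
  have hf : 0 < (f : ℝ) := by
    have : 0 < n * f := lt_of_lt_of_le (by positivity) h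
    exact_mod_cast Nat.pos_of_mul_pos_left this
  have h2 : (1 : ℝ) ≤ 2 ^ k := one_le_pow₀ one_le_two
  have h3 : (f : ℝ)⁻¹ * a ^ k ≤ n / 2 ^ k := by
    rw [inv_mul_le_iff₀ hf, ← mul_div_assoc, le_div_iff₀ (by positivity), ← mul_pow]
    linarith [mul_comm (a : ℝ) 2 ▸ h']
  refine ⟨hf, ?_⟩
  rw [← mul_assoc]
  refine (mul_le_mul_of_nonneg_right h3 (add_nonneg hX hY)).trans ?_
  rw [mul_add, div_mul_eq_mul_div, div_mul_eq_mul_div]
  exact add_le_add le_rfl ((div_le_self (by positivity) h2).trans hε)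

open Classical in
theorem multi_stmt (hL : LowStmt) (hR : RecStmt) (hO : OrbStmt) (hE : ErrStmt) : MultiStmt := by
  intro P _ _ T D La L l n hP hT B d ε hε
  obtain ⟨A, hA, hAb, Φ, hΦ, hn⟩ := hT.ex
  have hb := hP.big
  have hl := hP.ts.pos
  have hA1 : (1 : ℝ) ≤ A := by exact_mod_cast hA
  obtain ⟨c, hc⟩ : ∃ c : ℕ → ℝ, ∀ i, c i = Fintype.card (Fin d → P) *
    Fintype.card (Fin d → V 2 (D.k (i + 1 + 1))) := ⟨_, fun _ => rfl⟩
  have c0 : ∀ i, 0 ≤ c i := fun i => by rw [hc]; positivity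
  have C0 : 0 ≤ ∑ i ∈ range (L - 2), c i := sum_nonneg fun i _ => c0 i
  obtain ⟨ε', hε', hε2⟩ : ∃ ε' : ℝ, 0 < ε' ∧ n * ((∑ i ∈ range (L - 2), c i) * ε') ≤ ε := by
    refine ⟨ε / (n * ∑ i ∈ range (L - 2), c i + 1), by positivity, ?_⟩
    rw [← mul_assoc, ← mul_div_assoc, div_le_iff₀ (by positivity)]
    linarith
  obtain ⟨η, hη, hE'⟩ := hE P T D La L l n hP d ε' hε'
  refine ⟨η, hη, fun U _ w Y _ _ y hw hwη hEQ X hX => ?_⟩
  let m : ℕ → Unit → ((Σ j, U j) → Y) → (∀ j, U j) → ℝ := fun j _ a q =>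
    if GoodQ T D La L l B (rr (fun u => y u (a u)) q 2) then Nq T D La (fun u => y u (a u)) q j
    else 0
  have step : ∀ i, l ≤ i → i + 2 + 1 ≤ L →
      Av_ZaMulti w (m (i + 1)) ≤ A * (Av_ZaMulti w (m i) + c i * ε') := fun i h1 h2 => by
    obtain ⟨Bs, hB, hN⟩ := hR P T D La L l n hP d i A h1 h2 hA hAb
    refine (av_mono_ZaMulti hw (G := fun r a q => A * (m i r a q +
      ∑ x ∈ Bs, ∑ z : Fin d → V 2 (D.k (i + 1 + 1)) with z ≠ 0,
        (Tq T D (fun u => y u (a u)) q (fun r => GoodQ T D La L l B r ∧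
          (Ad (lnOf T D La i) r (tyOf D x) ∧ (lnOf T D La i).Du r (tyOf D x) z ∧
            ∀ j ∈ fst (dg r) (tyOf D x), z j = 0))
          (fun r => fst (dg r) (tyOf D x)) i x z).re)) fun r a q => ?_).trans ?_
    · simp only [m]
      by_cases h : GoodQ T D La L l B (rr (fun u => y u (a u)) q 2)
      · rw [if_pos h, if_pos h]
        refine (hN U _ q).trans_eq (congrArg (fun t : ℝ => (A : ℝ) * (_ + t))
          (sum_congr rfl fun x _ => sum_congr (Finset.ext fun z => ?_) fun z _ => ?_))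
        · simp only [mem_filter]
        · exact congrArg Complex.re (tq_ZqMulti (and_iff_right h).symm)
      · simp [Tq, h]
    · rw [av_mul_ZaMulti, av_add_ZaMulti, hc, mul_assoc]
      refine mul_le_mul_of_nonneg_left (add_le_add le_rfl
        (av_sum_ZkMulti Bs _ (by positivity) fun x hx =>
          av_sum_ZkMulti _ _ hε'.le fun z hz => ?_)) (Nat.cast_nonneg _)
      by_cases h : (∀ j, z j ∈ La i (tyOf D x j)) ∧ Rich (tyOf D x) (i + 1) z
      · exact av_re_ZaMulti _ ε' fun _ => hE' U w Y y hw hwη hEQ i x z _ _ h1 h2 (hB x hx) h.1 h.2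
          fun r hr => hr.2.2.2
      · refine (av_mono_ZaMulti hw fun r a q => ?_).trans_eq (av_const_ZaMulti hw ε')
        rw [Tq, if_neg, Complex.zero_re]
        · exact hε'.le
        · rintro ⟨⟨h3, h4, h5, h6⟩, -⟩
          exact h ⟨h5.1, h3.2 i h1 h2 _ z h4 h5 h6 (mem_filter.1 hz).2⟩
  have key : ∀ j, l ≤ j → j + 2 ≤ L →
      Av_ZaMulti w (m j) ≤ A ^ (j - l) * (B ^ l + (∑ i ∈ range j, c i) * ε') := fun j hj => by
    induction j, hj using Nat.le_induction with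
    | base =>
      intro _
      rw [Nat.sub_self, pow_zero, one_mul]
      refine le_trans ?_ (le_add_of_nonneg_right
        (mul_nonneg (sum_nonneg fun i _ => c0 i) hε'.le))
      refine (av_mono_ZaMulti hw fun r a q => ?_).trans_eq (av_const_ZaMulti hw _)
      simp only [m]
      split_ifs with h
      · exact low_ZqMulti hL hP h l hl le_rfl
      · positivity
    | succ j hj ih =>
      intro h
      refine (step j hj (by omega)).trans ?_
      rw [sum_range_succ, add_mul, Nat.sub_add_comm hj, pow_succ', mul_assoc, ← add_assoc,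
        mul_add ((A : ℝ) ^ (j - l))]
      exact mul_le_mul_of_nonneg_left (add_le_add (ih (by omega))
        (le_mul_of_one_le_left (mul_nonneg (c0 j) hε'.le) (one_le_pow₀ hA1))) (Nat.cast_nonneg _)
  obtain ⟨hf, hfin⟩ := num_ZqMulti hA hn (X := (B : ℝ) ^ l) (by positivity)
    (mul_nonneg C0 hε'.le) hε2
  have h1 : (Ex w fun q => if X q then (1 : ℝ) else 0) ≤
      Av_ZaMulti w fun r a q => (Φ.card : ℝ)⁻¹ * m (L - 2) r a q := by
    refine le_trans (le_of_eq ?_) (av_mono_ZaMulti hw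
      (F := fun _ _ q => if X q then (1 : ℝ) else 0) fun r a q => ?_)
    · rw [av_q_ZaMulti]
      simp only [Fintype.expect_const]
    · simp only [m]
      by_cases h3 : X q
      · obtain ⟨h4, x, h5⟩ := hX q h3 a
        rw [if_pos h3, if_pos h4, le_inv_mul_iff₀ hf, mul_one]
        exact hO P T D La L l n hP Φ hΦ d U _ q x h5
      · rw [if_neg h3]
        unfold Nq
        split_ifs <;> positivity
  rw [av_mul_ZaMulti] at h1
  exact h1.trans ((mul_le_mul_of_nonneg_left (key (L - 2) (by omega) (by omega))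
    (by positivity)).trans hfin)

end Pool.Agent.MP_f68ac8_nt.Zq

end

section

namespace Pool.Agent.MP_f68ac8_nt.Nd
open Zq Zv Zk Matrix Finset
open scoped commutatorElement

theorem low_NcMulti (hL : Zq.LowStmt) {P : Type} [Group P] [Fintype P]
    {T : Fil 2 P} {D : Gd 2 P} {La : LaT D} {L l n B d : ℕ} (hP : Pk T D La L l n)
    {U : Fin d → Type} {y : (Σ j, U j) → FreeGroup (Σ j, U j)} {q : ∀ j, U j}
    {Sm Lg : Finset (Fin d)} (h : GdQ Sm Lg T D La L l B (rr y q 2)) (i : ℕ) (hi : 1 ≤ i)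
    (hl : i ≤ l) : Nq T D La y q i ≤ (B : ℝ) ^ i := by
  have hb := hP.big
  induction i, hi using Nat.le_induction with
  | base =>
    rw [pow_one]
    exact (hL P T D La L l n hP d U y q 1 le_rfl (by omega)).1.trans
      (Nat.cast_le.2 (h.1 1 le_rfl hl))
  | succ i hi ih =>
    rw [pow_succ]
    exact (hL P T D La L l n hP d U y q i hi (by omega)).2.trans
      (mul_le_mul (ih (by omega)) (Nat.cast_le.2 (h.1 i hi (by omega))) (Nat.cast_nonneg _)
        (by positivity))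

open scoped BigOperators in
theorem tw_NcMulti {d : ℕ} {U : Fin d → Type} [∀ j, Fintype (U j)] {w : ∀ j, U j → ℝ}
    {κ : (∀ j, U j) → ℝ} (hκ : Tw w κ) {A : Type} [Fintype A] (F : A → (∀ j, U j) → ℂ) (b : ℝ)
    (h : ∀ ζ : ∀ j, U j → ℂ, (∀ j u, ‖ζ j u‖ ≤ 1) →
      ‖𝔼 a, Ex w fun q => (∏ j, ζ j (q j)) * F a q‖ ≤ b) :
    Av_ZaMulti w (fun (_ : Unit) a q => κ q * (F a q).re) ≤ b := by
  have e : ∀ g : (∀ j, U j) → ℂ,
      (𝔼 a, Ex w fun q => g q * F a q) = Ex w fun q => g q * 𝔼 a, F a q := fun g => by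
    simp only [Ex, Complex.real_smul, mul_expect, expect_sum_comm]
  simp only [← Complex.re_ofReal_mul]
  refine av_re_ZaMulti (fun _ a q => (κ q : ℂ) * F a q) b fun _ => ?_
  rw [e]
  exact hκ.2 _ b fun ζ hζ => e _ ▸ h ζ hζ

theorem av_NcMulti {d : ℕ} {U : Fin d → Type} [∀ j, Fintype (U j)] {w : ∀ j, U j → ℝ}
    {A : Type} [Fintype A] [Nonempty A] (f : (∀ j, U j) → ℝ) :
    Av_ZaMulti w (fun (_ : Unit) (_ : A) q => f q) = Ex w f := by
  simp only [Av_ZaMulti, Fintype.expect_const]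

theorem num_NcMulti {n L d : ℕ} {c C S ξ : ℝ} (hc : 1 ≤ c) (hC : 1 ≤ C) (hξ : 0 ≤ ξ)
    (hS : S ≤ L * c ^ d) :
    n * (S * (C ^ (d + 1) * ξ)) ≤ ((n + 1) * (L + 1) * c * C) ^ (d + 1) * ξ := by
  have h1 : (n : ℝ) ≤ (n + 1) ^ (d + 1) :=
    (lt_add_one _).le.trans (le_self_pow₀ (by simp) d.succ_ne_zero)
  have h2 : (L : ℝ) ≤ (L + 1) ^ (d + 1) :=
    (lt_add_one _).le.trans (le_self_pow₀ (by simp) d.succ_ne_zero)
  have h3 := pow_le_pow_right₀ hc d.le_succ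
  rw [mul_pow, mul_pow, mul_pow]
  calc (n : ℝ) * (S * (C ^ (d + 1) * ξ))
      ≤ (n + 1) ^ (d + 1) * ((L + 1) ^ (d + 1) * c ^ (d + 1) * (C ^ (d + 1) * ξ)) := by
        refine (mul_le_mul_of_nonneg_left (mul_le_mul_of_nonneg_right hS (by positivity))
          n.cast_nonneg).trans ?_
        gcongr
    _ = _ := by ring

open Classical in
theorem multiN (hL : Zq.LowStmt) (hR : Zq.RecStmt) (hO : Zq.OrbStmt) (hE : ErrN) : MultiN := by
  intro P _ _ T D La L l n hP hT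
  obtain ⟨A, hA, hAb, Φ, hΦ, hn⟩ := hT.ex
  have hb := hP.big
  have hl := hP.ts.pos
  have hA1 : (1 : ℝ) ≤ A := by exact_mod_cast hA
  obtain ⟨C₀, hC₀, hE'⟩ := hE P T D La L l n hP
  obtain ⟨c₀, hc₀⟩ : ∃ c₀ : ℝ, c₀ = Fintype.card P * 2 ^ ∑ i ∈ range L, D.k (i + 1 + 1) := ⟨_, rfl⟩
  have hc1 : 1 ≤ c₀ := hc₀ ▸ one_le_mul_of_one_le_of_one_le (Nat.one_le_cast.2 Fintype.card_pos)
    (one_le_pow₀ one_le_two)
  refine ⟨(n + 1) * (L + 1) * c₀ * C₀, one_le_mul_of_one_le_of_one_le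
    (one_le_mul_of_one_le_of_one_le (one_le_mul_of_one_le_of_one_le (by simp) (by simp)) hc1) hC₀,
    fun B d Λ _ w Y _ _ y Sm Lg ξ h0 h1 hw hd hwξ hEQ κ hκ X hX => ?_⟩
  have _ : Fintype (Lr d Λ → Y) := Fintype.ofFinite _
  obtain ⟨c, hc⟩ : ∃ c : ℕ → ℝ, ∀ i, c i = Fintype.card (Fin d → P) *
    Fintype.card (Fin d → V 2 (D.k (i + 1 + 1))) := ⟨_, fun _ => rfl⟩
  have c0 : ∀ i, 0 ≤ c i := fun i => by rw [hc]; positivity
  have C0 : 0 ≤ ∑ i ∈ range (L - 2), c i := sum_nonneg fun i _ => c0 i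
  have C1 : ∑ i ∈ range (L - 2), c i ≤ L * c₀ ^ d := by
    refine (sum_le_card_nsmul _ _ (c₀ ^ d) fun i hi => ?_).trans ?_
    · rw [hc, hc₀, mul_pow]
      simp only [Fintype.card_fun, Fintype.card_fin, ZMod.card, Nat.cast_pow, Nat.cast_ofNat]
      gcongr
      · exact one_le_two
      · exact single_le_sum (f := fun i => D.k (i + 1 + 1)) (fun _ _ => Nat.zero_le _)
          (mem_range.2 ((mem_range.1 hi).trans_le (Nat.sub_le _ _)))
    · rw [card_range, nsmul_eq_mul]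
      exact mul_le_mul_of_nonneg_right (Nat.cast_le.2 (Nat.sub_le _ _)) (by positivity)
  have hε2 := num_NcMulti (n := n) hc1 hC₀ h0 C1
  have hε' : 0 ≤ C₀ ^ (d + 1) * ξ := by positivity
  have hE2 := hE' d Λ w Y y Sm Lg ξ h0 h1 hw hd hwξ hEQ
  generalize C₀ ^ (d + 1) * ξ = ε' at hε2 hε' hE2
  have hK : 0 ≤ Ex (U := fun _ => Λ) w κ :=
    (ex_const_ZaMulti hw 0).ge.trans (ex_mono_ZaMulti hw hκ.1)
  let m : ℕ → Unit → (Lr d Λ → Y) → (Fin d → Λ) → ℝ := fun j _ a q => κ q *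
    if GdQ Sm Lg T D La L l B (rr (U := fun _ => Λ) (fun u => y u (a u)) q 2) then
      Nq (U := fun _ => Λ) T D La (fun u => y u (a u)) q j else 0
  have step : ∀ i, l ≤ i → i + 2 + 1 ≤ L → Av_ZaMulti (U := fun _ => Λ) w (m (i + 1)) ≤
      A * (Av_ZaMulti (U := fun _ => Λ) w (m i) + c i * ε') := fun i h1 h2 => by
    obtain ⟨Bs, hB, hN⟩ := hR P T D La L l n hP d i A h1 h2 hA hAb
    refine (av_mono_ZaMulti hw (G := fun r a q => A * (m i r a q +
      ∑ x ∈ Bs, ∑ z : Fin d → V 2 (D.k (i + 1 + 1)) with z ≠ 0, κ q *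
        (Tq (U := fun _ => Λ) T D (fun u => y u (a u)) q (fun r => GdQ Sm Lg T D La L l B r ∧
          (Ad (lnOf T D La i) r (tyOf D x) ∧ (lnOf T D La i).Du r (tyOf D x) z ∧
            ∀ j ∈ fst (dg r) (tyOf D x), z j = 0))
          (fun r => fst (dg r) (tyOf D x)) i x z).re)) fun r a q => ?_).trans ?_
    · simp only [m, ← mul_sum]
      rw [← mul_add, mul_left_comm]
      refine mul_le_mul_of_nonneg_left ?_ (hκ.1 q)
      by_cases h : GdQ Sm Lg T D La L l B (rr (U := fun _ => Λ) (fun u => y u (a u)) q 2)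
      · rw [if_pos h, if_pos h]
        refine (hN (fun _ => Λ) _ q).trans_eq (congrArg (fun t : ℝ => (A : ℝ) * (_ + t))
          (sum_congr rfl fun x _ => sum_congr (Finset.ext fun z => ?_) fun z _ => ?_))
        · simp only [mem_filter]
        · exact congrArg Complex.re (tq_ZqMulti (and_iff_right h).symm)
      · simp [Tq, h]
    · rw [av_mul_ZaMulti, av_add_ZaMulti, hc, mul_assoc]
      refine mul_le_mul_of_nonneg_left (add_le_add le_rfl
        (av_sum_ZkMulti Bs _ (by positivity) fun x hx =>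
          av_sum_ZkMulti _ _ hε' fun z hz => ?_)) (Nat.cast_nonneg _)
      by_cases h : (∀ j, z j ∈ La i (tyOf D x j)) ∧ RichS Sm Lg (tyOf D x) (i + 1) z
      · exact tw_NcMulti hκ _ ε' fun ζ hζ => hE2 i x z _ _ ζ h1 h2 (hB x hx) h.1 h.2
          (fun r hr => hr.2.2.2) hζ
      · refine (av_mono_ZaMulti hw fun r a q => ?_).trans_eq (av_const_ZaMulti hw ε')
        rw [Tq, if_neg, Complex.zero_re, mul_zero]
        · exact hε'
        · rintro ⟨⟨h3, h4, h5, h6⟩, -⟩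
          exact h ⟨h5.1, h3.2 i h1 h2 _ z h4 h5 h6 (mem_filter.1 hz).2⟩
  have key : ∀ j, l ≤ j → j + 2 ≤ L → Av_ZaMulti (U := fun _ => Λ) w (m j) ≤
      A ^ (j - l) * (B ^ l * Ex (U := fun _ => Λ) w κ + (∑ i ∈ range j, c i) * ε') :=
    fun j hj => by
    induction j, hj using Nat.le_induction with
    | base =>
      intro _
      rw [Nat.sub_self, pow_zero, one_mul]
      refine le_trans ?_ (le_add_of_nonneg_right (mul_nonneg (sum_nonneg fun i _ => c0 i) hε'))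
      rw [← av_NcMulti (A := Lr d Λ → Y), ← av_mul_ZaMulti]
      refine av_mono_ZaMulti hw fun r a q => ?_
      rw [mul_comm]
      refine mul_le_mul_of_nonneg_left ?_ (hκ.1 q)
      split_ifs with h
      · exact low_NcMulti hL hP h l hl le_rfl
      · positivity
    | succ j hj ih =>
      intro h
      refine (step j hj (by omega)).trans ?_
      rw [sum_range_succ, add_mul, Nat.sub_add_comm hj, pow_succ', mul_assoc, ← add_assoc,
        mul_add ((A : ℝ) ^ (j - l))]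
      exact mul_le_mul_of_nonneg_left (add_le_add (ih (by omega))
        (le_mul_of_one_le_left (mul_nonneg (c0 j) hε') (one_le_pow₀ hA1))) (Nat.cast_nonneg _)
  obtain ⟨hf, hfin⟩ := num_ZqMulti hA hn (X := (B : ℝ) ^ l * Ex (U := fun _ => Λ) w κ)
    (by positivity) (mul_nonneg C0 hε') hε2
  have h2 : (Ex (U := fun _ => Λ) w fun q => if X q then κ q else 0) ≤
      Av_ZaMulti (U := fun _ => Λ) w fun r a q => (Φ.card : ℝ)⁻¹ * m (L - 2) r a q := by
    rw [← av_NcMulti (A := Lr d Λ → Y)]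
    refine av_mono_ZaMulti hw fun r a q => ?_
    have h6 := hκ.1 q
    simp only [m]
    by_cases h3 : X q
    · obtain ⟨h4, x, h5⟩ := hX q h3 a
      rw [if_pos h3, if_pos h4, le_inv_mul_iff₀ hf, mul_comm]
      exact mul_le_mul_of_nonneg_left (hO P T D La L l n hP Φ hΦ d _ _ q x h5) h6
    · rw [if_neg h3]
      unfold Nq
      split_ifs <;> positivity
  rw [av_mul_ZaMulti] at h2
  rw [div_mul_eq_mul_div, mul_assoc (n : ℝ)]
  exact h2.trans ((mul_le_mul_of_nonneg_left (key (L - 2) (by omega) (by omega))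
    (by positivity)).trans hfin)

end Pool.Agent.MP_f68ac8_nt.Nd

end
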