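import Pool.Agent.Mg.Fe23604m.G7a6e34

set_option linter.all false

/-!
The sum over the neighbours vanishes.
-/

set_option autoImplicit false

open Filter Topology Asymptotics Finset QuadraticAlgebra
open scoped MatrixGroups Classical

namespace Pool.Agent.MP_e23604_nt.M

open B R S W Un

theorem VA_pf (hB : LB_st) (hA : AN_st) (hP : PT_st) (hC : CW_st) (hE : EQ_st) (hX : HX_st)
    (hG : GR_st) : VA_st := fun D E K l v h => by
  obtain ⟨m1, m2, m3, m4, -⟩ := hA v h.fb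
  obtain ⟨-, x1, x2⟩ := hX D E K l v h
  obtain ⟨Q, q1, q2, q3⟩ := div_Ell (hG D E K l v h).1 m3.cus.hol fun τ hτ a => ⟨(dA_Ell
    (t := fun τ => 3 * pu (vx v τ) (vy v τ)) (fun τ hτ => (hB _ _ _ (h.fb τ hτ)).1.P3)
    (fun τ hτ => (hB _ _ _ (h.fb τ hτ)).1.P0) m3.cus.hol m4.cus.hol hτ a).2.2, x2 τ hτ a⟩
  have n : ∀ τ ∈ HH, fm oP v τ ^ (6 * l) * (fm oV v τ * fm oW v τ) ^ 2 ≠ 0 := fun τ hτ =>
    mul_ne_zero (pow_ne_zero _ (hB _ _ _ (h.fb τ hτ)).2.2.2.2.2.1)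
      (pow_ne_zero _ (mul_ne_zero ((hC v h.fb).1 τ hτ).2 ((hC v h.fb).1 τ hτ).1))
  have c : DifferentiableOn ℂ
      (fun τ => Q τ ^ 9 / (fm oP v τ ^ (6 * l) * (fm oV v τ * fm oW v τ) ^ 2)) HH :=
    (q1.pow 9).div ((((m1.cus.hol.mul (m1.cus.hol.add_const 1)).mul
      (m2.cus.hol.mul (m2.cus.hol.add_const 1))).pow _).mul
        ((((m3.cus.hol.pow 3).sub (m4.cus.hol.const_mul 27)).mul m4.cus.hol).pow 2)) n
  have e : ∀ γ : SL(2, ℤ), ∀ τ ∈ HH, fm oa (av γ v) τ ≠ 0 →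
      Q (mob γ τ) ^ 9 / (fm oP v (mob γ τ) ^ (6 * l) *
        (fm oV v (mob γ τ) * fm oW v (mob γ τ)) ^ 2) * (γ 1 0 * τ + γ 1 1 : ℂ) ^ 3 =
      fS l (av γ v) τ ^ 9 / (fm oP (av γ v) τ ^ (6 * l) *
        (fm oV (av γ v) τ * fm oW (av γ v) τ) ^ 2) * (fm oa (av γ v) τ)⁻¹ ^ 9 := fun γ τ hτ a => by
    obtain ⟨-, -, e1, e2, e3, e4, e5, -⟩ := ((hE v l h.fb h.pr h.ne3).1 γ).2 τ hτ
    have d := den_ne γ hτ
    have q := q2 _ (mob_HH γ hτ)
    rw [e5, e2] at q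
    rw [e1, e3, e4, show fS l (av γ v) τ = fm oa (av γ v) τ * Q (mob γ τ) / (γ 1 0 * τ + γ 1 1) by
      rw [eq_div_iff d]; exact mul_left_cancel₀ d (by linear_combination q)]
    generalize (γ 1 0 * τ + γ 1 1 : ℂ) = j at *
    simp only [div_eq_mul_inv, mul_inv, mul_pow]
    field_simp
  intro τ hτ
  have := neg_Ell (N := 9) (k := 3) (by norm_num) (by norm_num) c (fun γ hγ τ hτ => ?_)
    (fun γ => ?_) τ hτ
  · rw [q2 τ hτ, pow_eq_zero_iff (by norm_num) |>.1 ((div_eq_zero_iff.1 this).resolve_right (n τ hτ)),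
      mul_zero]
  · have m := HH_open.mem_nhds hτ
    have a := (((c.differentiableAt (HH_open.mem_nhds (mob_HH γ hτ))).comp τ
      (mob_der γ hτ).differentiableAt).mul (b := fun τ => (γ 1 0 * τ + γ 1 1 : ℂ) ^ 3)
      (by fun_prop)).continuousAt
    refine tendsto_nhds_unique_of_eventuallyEq (l := 𝓝[≠] τ) (a.tendsto.mono_left nhdsWithin_le_nhds)
      ((c.differentiableAt m).continuousAt.tendsto.mono_left nhdsWithin_le_nhds) ?_
    filter_upwards [q3 τ hτ, nhdsWithin_le_nhds m] with σ b hσ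
    obtain ⟨-, -, e1, e2, e3, e4, e5, -⟩ := (hE v l h.fb h.pr h.ne3).2.1 _ (x1 γ).fb
      ((hP v v σ hσ (h.fb σ hσ)).2.2 γ hγ) σ hσ
    refine (e γ σ hσ (e2 ▸ b)).trans ?_
    rw [e1, e2, e3, e4, e5, q2 σ hσ]
    simp only [div_eq_mul_inv]
    field_simp
  · obtain ⟨-, b1, b2, -⟩ := hC _ (x1 γ).fb
    refine IsBigO.congr' ((hG D E K l _ (x1 γ)).2.1.mul (b1.pow 9)) ?_ EventuallyEq.rfl
    filter_upwards [ev_HH, b2] with τ hτ a using (e γ τ hτ a).symm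

end Pool.Agent.MP_e23604_nt.M
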