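import Pool.Agent.Mg.Fe23604m.G0a5d16
import Mathlib
import Pool.Agent.Mg.Fe23604m.Ga3c24f
import Pool.Agent.MP_e23604_nt.BLocA
import Pool.Agent.Mg.Fe23604m.G2d01bf

set_option linter.all false

section

set_option autoImplicit false

open Module Filter Topology Finset
open scoped Classical

namespace Pool.Agent.MP_e23604_nt.R

open B
open Q (Wn dig CmI Cm0 Pre A1 Eta Jm scf St Cork Fg IdxQ basQ levQ)

/-- a signed product of primes -/
def sp_ELOW (x : Bool × Finset ℕ) : ℤ := (if x.1 then -1 else 1) * (∏ l ∈ x.2, l : ℕ)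

theorem sq_ELOW {r : ℚ} (h : ∀ g, kap r g = 0) : IsSquare r := by
  obtain ⟨s, hs⟩ := (InfiniteGalois.mem_range_algebraMap_iff_fixed (k := ℚ) (sqr r)).2 fun g => by
    by_contra h1
    have := h g
    rw [kap, if_neg h1] at this
    exact one_ne_zero this
  refine ⟨s, (algebraMap ℚ Qb).injective ?_⟩
  rw [map_mul, hs, ← sq, sqr_sq, eq_ratCast]

theorem dvd_ELOW {P : Finset ℕ} (hP : ∀ l ∈ P, l.Prime) {l : ℕ} (hl : l.Prime)
    (h : l ∣ ∏ p ∈ P, p) : l ∈ P := by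
  obtain ⟨p, hp, h1⟩ := (Prime.dvd_finsetProd_iff hl.prime _).1 h
  exact (Nat.prime_dvd_prime_iff_eq hl (hP p hp)).1 h1 ▸ hp

theorem sub_ELOW {P P' : Finset ℕ} (hP : ∀ l ∈ P, l.Prime) (hP' : ∀ l ∈ P', l.Prime)
    (h : IsSquare ((∏ l ∈ P, l) * ∏ l ∈ P', l)) : P ⊆ P' := by
  intro l hl
  obtain ⟨r, hr⟩ := h
  have h0 := hP l hl
  rw [← mul_prod_erase P _ hl, mul_assoc] at hr
  have h1 : l ∣ r := (h0.dvd_mul.1 ⟨_, hr.symm⟩).elim id id
  have h2 := Nat.dvd_of_mul_dvd_mul_left h0.pos (hr ▸ mul_dvd_mul h1 h1)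
  rcases h0.dvd_mul.1 h2 with h3 | h3
  · exact absurd (dvd_ELOW (fun p hp => hP p (mem_of_mem_erase hp)) h0 h3) (notMem_erase l P)
  · exact dvd_ELOW hP' h0 h3

theorem pos_ELOW {P : Finset ℕ} (hP : ∀ l ∈ P, l.Prime) : 0 < ∏ l ∈ P, l :=
  prod_pos fun l hl => (hP l hl).pos

theorem inj_ELOW {x x' : Bool × Finset ℕ} (hx : ∀ l ∈ x.2, l.Prime) (hx' : ∀ l ∈ x'.2, l.Prime)
    (h : IsSquare (sp_ELOW x * sp_ELOW x')) : x = x' := by
  have h1 : (0 : ℤ) < (∏ l ∈ x.2, l : ℕ) * (∏ l ∈ x'.2, l : ℕ) := by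
    exact_mod_cast mul_pos (pos_ELOW hx) (pos_ELOW hx')
  obtain ⟨s, P⟩ := x
  obtain ⟨s', P'⟩ := x'
  have h2 := h.nonneg
  have h3 : s = s' := by
    cases s <;> cases s' <;> simp only [sp_ELOW, if_true, Bool.false_eq_true, if_false] at h2
    · rfl
    · linarith
    · linarith
    · rfl
  subst h3
  have h4 : sp_ELOW (s, P) * sp_ELOW (s, P') = ((∏ l ∈ P, l) * ∏ l ∈ P', l : ℕ) := by
    cases s <;> simp only [sp_ELOW, if_true, Bool.false_eq_true, if_false, Nat.cast_mul] <;> ring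
  rw [h4, Int.isSquare_natCast_iff] at h
  exact congrArg _ ((sub_ELOW hx hx' h).antisymm (sub_ELOW hx' hx (mul_comm (∏ l ∈ P, l) _ ▸ h)))

theorem ne_ELOW {x : Bool × Finset ℕ} (hx : ∀ l ∈ x.2, l.Prime) : sp_ELOW x ≠ 0 :=
  mul_ne_zero (by split_ifs <;> norm_num) (Nat.cast_ne_zero.2 (pos_ELOW hx).ne')

theorem ndvd_ELOW {x : Bool × Finset ℕ} (hx : ∀ l ∈ x.2, l.Prime) {l : ℕ} (hl : l.Prime)
    (h : (l : ℤ) ∣ sp_ELOW x) : l ∈ x.2 := by
  refine dvd_ELOW hx hl (Int.natCast_dvd_natCast.1 ?_)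
  unfold sp_ELOW at h
  split_ifs at h
  · rwa [neg_one_mul, dvd_neg] at h
  · rwa [one_mul] at h

theorem un_ELOW (x : Bool × Finset ℕ) {Q' : Finset ℕ} (h : Disjoint x.2 Q') :
    (sp_ELOW (x.1, x.2 ∪ Q') : ℚ) = sp_ELOW x * ∏ q ∈ Q', (q : ℚ) := by
  simp only [sp_ELOW, prod_union h]
  push_cast
  ring

theorem fib_ELOW {α β : Type} (I : Finset α) (Y : Finset β) (y : α → β) (hy : ∀ x ∈ I, y x ∈ Y)
    {c l : ℕ} (hI : I.card = 2 ^ (c + 3)) (hY : Y.card * 2 ^ l ≤ 16) :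
    ∃ (b : β) (F : Finset α), (∀ x ∈ F, x ∈ I ∧ y x = b) ∧ 2 ^ (c + l) ≤ 2 * F.card := by
  by_contra! h
  have h1 := card_le_mul_card_image_of_maps_to hy ((2 ^ (c + l) - 1) / 2) fun b _ => by
    have := h b _ fun _ => mem_filter.1
    omega
  have h2 : 2 * ((2 ^ (c + l) - 1) / 2) < 2 ^ (c + l) := by
    have := Nat.two_pow_pos (c + l)
    omega
  generalize (2 ^ (c + l) - 1) / 2 = m at h1 h2
  have h3 := Nat.mul_le_mul_right (2 ^ l) h1
  have h4 := Nat.mul_le_mul_left m hY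
  rw [hI, mul_assoc, ← pow_add, show c + 3 + l = c + l + 3 by ring, pow_add] at h3
  omega

section
variable {A : Type} [AddCommGroup A] {J : A ≃ₗ[ℤ] A} {η : Act A}

theorem two_ELOW (h : Cm0 J) {T : A} (hT : T ∈ Wn J 1) (χ : GQ → ZMod 2) :
    chT χ T + chT χ T = 0 := by
  funext g
  simp only [Pi.add_apply, chT, ← smul_add, T_two h hT, smul_zero, Pi.zero_apply]

theorem ker_ELOW (h : Cm0 J) (hη : ∀ g, Pre J (η g)) :
    ∃ e : GQ → A, ∀ T' ∈ Wn J 2, dd η T' = 0 ∨ dd η T' = e := by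
  have h0 : ∀ u ∈ Wn J 1, dd η u = 0 := fun u hu =>
    funext fun g => sub_eq_zero.2 (T_fix h (hη g) hu)
  by_cases h1 : ∃ u ∈ Wn J 2, u ∉ Wn J 1
  · obtain ⟨u, h2, h3⟩ := h1
    refine ⟨dd η u, fun T' hT' => ?_⟩
    by_cases h4 : T' ∈ Wn J 1
    · exact Or.inl (h0 _ h4)
    · refine Or.inr (funext fun g => ?_)
      have := congrFun (h0 _ (Q.key_XBas h hT' h2 h4 h3)) g
      simp only [dd, map_sub, Pi.zero_apply] at this ⊢
      rw [← sub_eq_zero, ← this]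
      abel
  · push Not at h1
    exact ⟨0, fun T' hT' => Or.inl (h0 _ (h1 _ hT'))⟩

theorem cnt_ELOW {α G H : Type} [AddCommGroup G] [AddCommGroup H] (S : AddSubgroup G) (f : G →+ H)
    (hf : ((S.map f : AddSubgroup H) : Set H).Finite) (e : G)
    (he : ∀ x ∈ S, f x = 0 → x = 0 ∨ x = e) (F : Finset α) (ξ : α → G) (h1 : ∀ a ∈ F, ξ a ∈ S)
    (h2 : Set.InjOn ξ F) : F.card ≤ 2 * Nat.card (S.map f) := by
  have h3 : Nat.card (S.map f) = hf.toFinset.card := Nat.card_eq_card_finite_toFinset hf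
  rw [h3]
  refine card_le_mul_card_image_of_maps_to (f := fun a => f (ξ a))
    (fun a ha => hf.mem_toFinset.2 ⟨_, h1 a ha, rfl⟩) 2 fun b _ => ?_
  rcases (F.filter fun a => f (ξ a) = b).eq_empty_or_nonempty with h | ⟨a, ha⟩
  · rw [h]
    exact Nat.zero_le _
  · rw [mem_filter] at ha
    refine le_trans (card_le_card_of_injOn (fun x => ξ x - ξ a) (t := {0, e}) (fun x hx => ?_)
      fun x hx y hy hxy => h2 (mem_of_mem_filter x hx) (mem_of_mem_filter y hy)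
        (sub_left_injective hxy)) card_le_two
    have hx' := mem_filter.1 hx
    simpa using he _ (S.sub_mem (h1 x hx'.1) (h1 a ha.1)) (by rw [map_sub, hx'.2, ha.2, sub_self])

end

theorem LOW_pf (hCOR : COR_st) (hKER1 : KER1_st) (hKAP : KAP_st) (hTAM : TAM_st) (hFRO : FRO_st) (hHOMQ : HOMQ_st) : LOW_st := by
  intro A _ J η n cc T h K ζ l₀ qq Q φ τ hQ ℓ ⟨Y, hY, hy⟩
  obtain ⟨k1, -, k3, k4, -, k6, -⟩ := hKAP
  have h0 := h.cm.toCm0
  have h2 : 2 ∉ n.primeFactors := fun e =>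
    (Nat.not_even_iff_odd.2 h.odd) (even_iff_two_dvd.2 (Nat.dvd_of_mem_primeFactors e))
  have hc : n.primeFactors.card = Q.card + 1 := by
    rw [hQ.img, card_image_of_injOn hQ.inj, card_erase_add_one hQ.base]
  choose! y hy1 hy2 hy3 using hy
  set I : Finset (Bool × Finset ℕ) := univ ×ˢ (insert 2 n.primeFactors).powerset with hI
  have hs : ∀ x ∈ I, x.2 ⊆ insert 2 n.primeFactors := fun x hx =>
    mem_powerset.1 (mem_product.1 hx).2
  have hp : ∀ x ∈ I, ∀ l ∈ x.2, l.Prime := fun x hx l hl => by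
    rcases mem_insert.1 (hs x hx hl) with rfl | e
    · exact Nat.prime_two
    · exact Nat.prime_of_mem_primeFactors e
  have hn : ∀ x ∈ I, (sp_ELOW x : ℚ) ≠ 0 := fun x hx => Int.cast_ne_zero.2 (ne_ELOW (hp x hx))
  obtain ⟨b, F, hF, hb⟩ := fib_ELOW I Y (fun x => y (sp_ELOW x))
    (fun x hx => hy1 _ (ne_ELOW (hp x hx))) (c := Q.card) (by
      rw [hI, card_product, card_powerset, card_insert_of_notMem h2, hc, card_univ,
        Fintype.card_bool]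
      ring) hY
  obtain ⟨x0, hx0⟩ : F.Nonempty := card_pos.1 (by
    have := Nat.two_pow_pos (Q.card + ℓ)
    omega)
  have m0 := hF x0 hx0
  have key : ∀ x ∈ F, ∃ Q' ⊆ Q, chT (kap (sp_ELOW x * sp_ELOW x0)) T +
      chT (kap (∏ q ∈ Q', (q : ℚ))) T ∈ Sq J η n cc Q 1 := by
    intro x hx
    have m := hF x hx
    have b0 : (b : ℚ) ≠ 0 := Int.cast_ne_zero.2 (m.2 ▸ hy2 _ (ne_ELOW (hp x m.1)))
    have e : kap (sp_ELOW x * sp_ELOW x0) =
        kap (sp_ELOW x * b : ℤ) + kap (sp_ELOW x0 * b : ℤ) := by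
      funext g
      have e1 := k4 b g
      rw [sq, k3 _ _ _ b0 b0] at e1
      rw [Pi.add_apply, Int.cast_mul, Int.cast_mul, k3 _ _ _ (hn x m.1) (hn x0 m0.1),
        k3 _ _ _ (hn x m.1) b0, k3 _ _ _ (hn x0 m0.1) b0]
      linear_combination -e1
    have a1 := hy3 _ (ne_ELOW (hp x m.1))
    have a2 := hy3 _ (ne_ELOW (hp x0 m0.1))
    rw [m.2] at a1
    rw [m0.2] at a2
    refine hCOR A J η n cc T h K ζ l₀ qq Q φ τ hQ 1 _ le_rfl (by have := hQ.two; omega)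
      (chT_zc h0 h.ga.pre h.t0.1 (k1 _).1 (k1 _).2) (fun l hl γ c1 c2 _ σ hσ => ?_) ?_ ?_
      fun l _ _ => ⟨_, (k1 _).1.mono le_top, (k1 _).2.mono le_top, by
        rw [two_ELOW h0 h.t0.1]
        exact InL.zero _ _⟩
    · have nd : ∀ z ∈ I, ¬ (l : ℤ) ∣ sp_ELOW z := fun z hz hd => by
        rcases mem_insert.1 (hs z hz (ndvd_ELOW (hp z hz) hl.out hd)) with e | e
        · exact c1 e
        · exact c2 (Nat.dvd_of_mem_primeFactors e)
      rw [chT_eq_zero h.t0.2, k6 l γ _ c1 (mul_ne_zero (hn x m.1) (hn x0 m0.1)) σ hσ,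
        padicValRat.mul (hn x m.1) (hn x0 m0.1), padicValRat.of_int, padicValRat.of_int,
        padicValInt.eq_zero_of_not_dvd (nd x m.1), padicValInt.eq_zero_of_not_dvd (nd x0 m0.1)]
      simp
    · rw [e, chT_add h0 h.t0.1]
      exact a1.1.add a2.1
    · rw [e, chT_add h0 h.t0.1]
      exact a1.2.add a2.2
  choose! Q' hQ1 hQ2 using key
  obtain ⟨e, he⟩ := ker_ELOW h0 h.ga.pre
  have dj : ∀ x ∈ F, Disjoint (insert 2 n.primeFactors) (Q' x) := fun x hx =>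
    disjoint_left.2 fun l hl hl' => by
      obtain ⟨-, c1, c2⟩ := hQ.pri l (hQ1 x hx hl')
      rcases mem_insert.1 hl with e | e
      · exact c1 e
      · exact c2 (Nat.dvd_of_mem_primeFactors e)
  have pr : ∀ x ∈ F, ∀ l ∈ x.2 ∪ Q' x, l.Prime := fun x hx l hl =>
    (mem_union.1 hl).elim (hp x (hF x hx).1 l) fun hl' => (hQ.pri l (hQ1 x hx hl')).1
  have nq : ∀ x ∈ F, ∏ q ∈ Q' x, (q : ℚ) ≠ 0 := fun x hx => prod_ne_zero_iff.2 fun q hq =>
    Nat.cast_ne_zero.2 (hQ.pri q (hQ1 x hx hq)).1.ne_zero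
  have fin : Finite (Wn J 1) := Nat.finite_of_card_ne_zero (by rw [W_card h.cm]; norm_num)
  have cnt := cnt_ELOW (Sq J η n cc Q 1) (res Q φ τ) ?_ e (fun ξ hξ hr => ?_) F _ hQ2
    fun x hx x' hx' hxx => ?_
  · omega
  · refine (Set.Finite.pi' fun _ : Q =>
      (Set.toFinite (Wn J 1 : Set A)).prod (Set.toFinite (Wn J 1 : Set A))).subset ?_
    rintro _ ⟨ξ, hξ, rfl⟩ q
    exact ⟨hξ.1.lev _, hξ.1.lev _⟩
  · obtain ⟨T', c1, rfl⟩ := hKER1 A J η n cc T h K ζ l₀ qq Q φ τ hQ ξ hξ hr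
    exact he T' c1
  · have m := (hF x hx).1
    have m' := (hF x' hx').1
    have c1 : chT ((kap (sp_ELOW x * sp_ELOW x0) + kap (∏ q ∈ Q' x, (q : ℚ))) +
        (kap (sp_ELOW x' * sp_ELOW x0) + kap (∏ q ∈ Q' x', (q : ℚ)))) T = 0 := by
      rw [chT_add h0 h.t0.1, chT_add h0 h.t0.1, chT_add h0 h.t0.1]
      beta_reduce at hxx
      rw [hxx, ← chT_add h0 h.t0.1, two_ELOW h0 h.t0.1]
    have c2 : IsSquare (sp_ELOW (x.1, x.2 ∪ Q' x) * sp_ELOW (x'.1, x'.2 ∪ Q' x')) := by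
      rw [← Rat.isSquare_intCast_iff, Int.cast_mul, un_ELOW x ((dj x hx).mono_left (hs x m)),
        un_ELOW x' ((dj x' hx').mono_left (hs x' m'))]
      refine sq_ELOW fun g => ?_
      have c3 := (chT_eq_zero h.t0.2).1 (congrFun c1 g)
      have c4 := k4 (sp_ELOW x0) g
      rw [sq, k3 _ _ _ (hn x0 m0.1) (hn x0 m0.1)] at c4
      simp only [Pi.add_apply] at c3
      rw [k3 _ _ _ (hn x m) (hn x0 m0.1), k3 _ _ _ (hn x' m') (hn x0 m0.1)] at c3
      rw [k3 _ _ _ (mul_ne_zero (hn x m) (nq x hx)) (mul_ne_zero (hn x' m') (nq x' hx')),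
        k3 _ _ _ (hn x m) (nq x hx), k3 _ _ _ (hn x' m') (nq x' hx')]
      linear_combination c3 - c4
    have c5 := inj_ELOW (pr x hx) (pr x' hx') c2
    rw [Prod.mk.injEq] at c5
    have c6 : ∀ z ∈ F, ∀ z' ∈ F, z.2 ∪ Q' z = z'.2 ∪ Q' z' → z.2 ⊆ z'.2 :=
      fun z hz z' hz' c l hl => (mem_union.1 (c ▸ mem_union_left _ hl)).resolve_right
        (disjoint_left.1 (dj z' hz') (hs z (hF z hz).1 hl))
    exact Prod.ext c5.1 ((c6 x hx x' hx' c5.2).antisymm (c6 x' hx' x hx c5.2.symm))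

end Pool.Agent.MP_e23604_nt.R

end

section

set_option autoImplicit false

open Module Filter Topology Finset
open scoped Classical

namespace Pool.Agent.MP_e23604_nt.R

open B
open Q (Wn dig CmI Cm0 Pre A1 Eta Jm scf St Cork Fg IdxQ basQ levQ)

theorem sq_ELIN {a c N : ℕ} (h : IsSquare (2 ^ a * N)) (he : Even (a + c)) :
    IsSquare (N * 2 ^ c) := by
  obtain ⟨m, hm⟩ := h
  obtain ⟨t, ht⟩ := he
  have e : (m * 2 ^ t) ^ 2 = (2 ^ a) ^ 2 * (N * 2 ^ c) := by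
    have e1 : (2 ^ t) ^ 2 = 2 ^ a * 2 ^ c := by rw [← pow_add, ht, ← pow_mul]; congr 1; ring
    rw [mul_pow, e1, sq m, ← hm]; ring
  obtain ⟨u, hu⟩ : 2 ^ a ∣ m * 2 ^ t :=
    (Nat.pow_dvd_pow_iff two_ne_zero).1 ⟨_, e⟩
  refine ⟨u, ?_⟩
  rw [hu, mul_pow] at e
  have := Nat.eq_of_mul_eq_mul_left (by positivity) e
  rw [← this, sq]

theorem card_ELIN {A ι : Type} [AddCommGroup A] [Fintype ι] (S T : Submodule ℤ A)
    (G : AddSubgroup (ι → A × A)) (h : ∀ x, x ∈ G ↔ ∀ q, (x q).1 ∈ S ∧ (x q).2 ∈ T) :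
    Nat.card G = (Nat.card S * Nat.card T) ^ Fintype.card ι := by
  let E : G ≃ (ι → S × T) :=
    { toFun := fun x q => (⟨(x.1 q).1, ((h x.1).1 x.2 q).1⟩, ⟨(x.1 q).2, ((h x.1).1 x.2 q).2⟩)
      invFun := fun y => ⟨fun q => ((y q).1.1, (y q).2.1), (h _).2 fun q => ⟨(y q).1.2, (y q).2.2⟩⟩
      left_inv := fun _ => rfl
      right_inv := fun _ => rfl }
  rw [Nat.card_congr E, Nat.card_fun, Nat.card_prod, Nat.card_eq_fintype_card (α := ι)]

theorem sub_ELIN {X : Type} [AddCommGroup X] {G H : AddSubgroup X} (h : G ≤ H) :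
    Nat.card (G.addSubgroupOf H) = Nat.card G :=
  Nat.card_congr (AddSubgroup.addSubgroupOfEquivOfLe h).toEquiv

theorem half_ELIN {A ι : Type} [AddCommGroup A] [Fintype ι] {J : A ≃ₗ[ℤ] A}
    {V : ℕ → ℕ → AddSubgroup (ι → A × A)} {ℓ : ℕ → ℕ} {k : ℕ} (hV : Ch J V ℓ (2 * (k + 1)))
    {x : ι → A × A} (hx : x ∈ V 0 (2 * k)) :
    ∃ y ∈ V 0 (2 * (k + 1)), ∀ q, (y q).1 + (y q).1 = (x q).1 ∧ (y q).2 + (y q).2 = (x q).2 := by
  obtain ⟨y1, h1, e1⟩ := hV.lift 1 (2 * k) (by omega) _ (neg_mem (hV.jj 0 _ x hx))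
  obtain ⟨y, h2, e2⟩ := hV.lift 0 (2 * k + 1) (by omega) y1 h1
  have key : ∀ u v : A, wo J (wo J u) = -J v → u + u = v := by
    intro u v h
    rw [om_om hV.cm.toCm0, neg_inj, two_smul, ← map_add] at h
    exact J.injective h
  refine ⟨y, h2, fun q => ?_⟩
  have e := congrFun e1 q
  rw [← e2] at e
  exact ⟨key _ _ (congrArg Prod.fst e), key _ _ (congrArg Prod.snd e)⟩

theorem LIN_pf (hTRI : TRI_st) (hLIN1 : LIN1_st) (hPAI : PAI_st) : LIN_st := by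
  intro A _ J ι _ V ℓ k e hV he hiso
  have hJ := hV.cm
  have h0 := hJ.toCm0
  obtain ⟨-, p2, p3⟩ := hPAI A J (k + 1) e hJ he (by omega)
  have tr : ∀ {u : A}, u ∈ Wn J (2 * (k + 1)) → u ∈ tor A (2 ^ (k + 1)) :=
    fun h => (W_tor h0 (k + 1)).1 h
  have up : ∀ {u : A}, u ∈ Wn J (2 * k) → u ∈ Wn J (2 * (k + 1)) :=
    fun h => W_mono h0 (by omega) h
  have dbl : ∀ (m : ℕ) (u : A), u + u ∈ Wn J m ↔ u ∈ Wn J (m + 2) := by
    intro m u
    have := W_pow h0 1 (n := m) (u := u)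
    rwa [pow_one, two_smul] at this
  obtain ⟨hf, hhf⟩ : ∃ hf : A → A, ∀ u, hf u + hf u = u := by
    choose hf hh using two_surj hJ 1
    exact ⟨hf, fun u => by have := hh u; rwa [pow_one, two_smul] at this⟩
  have hW : ∀ {m : ℕ} {u : A}, u ∈ Wn J m → hf u ∈ Wn J (m + 2) :=
    fun {m u} h => (dbl m _).1 (by rwa [hhf])
  have f0 : ∀ x ∈ Wn J (2 * k), ∀ y ∈ Wn J (2 * (k + 1)), e x (hf (y + y)) = e x y := by
    intro x hx y hy
    have ht : hf (y + y) - y ∈ Wn J 2 := by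
      refine (dbl 0 _).1 ((W_zero h0).2 ?_)
      have := hhf (y + y)
      rw [← sub_eq_zero] at this
      rw [← this]; abel
    have e1 : hf (y + y) = y + (hf (y + y) - y) := by abel
    rw [e1, he.bil.addr x (tr (up hx)) y (tr hy) _ (tr (W_mono h0 (by omega) ht)),
      p2 (2 * k) 2 (by omega) x hx _ ht, mul_one]
  have fz : ∀ x ∈ Wn J (2 * k), e x (hf 0) = 1 :=
    fun x hx => p2 (2 * k) 2 (by omega) x hx _ (hW (zero_mem (Wn J 0)))
  have zf : ∀ z ∈ Wn J (2 * k), e 0 (hf z) = 1 :=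
    fun z hz => p2 0 (2 * k + 2) (by omega) 0 (zero_mem _) _ (hW hz)
  have cH : ∀ m, Nat.card (Hm J ι m) = (2 ^ (m * Fintype.card ι)) ^ 2 := by
    intro m
    rw [card_ELIN (Wn J m) (Wn J m) _ fun _ => Iff.rfl, W_card hJ, mul_pow, ← pow_mul, sq]
  have cB : ∀ m, Nat.card ↥(B0 A ι ⊓ Hm J ι m) = 2 ^ (m * Fintype.card ι) := by
    intro m
    rw [card_ELIN (Wn J m) (Wn J 0) _ fun x => ?_, W_card hJ, W_card hJ, pow_zero, mul_one,
      ← pow_mul]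
    constructor
    · rintro ⟨h1, h2⟩ q
      exact ⟨(h2 q).1, (W_zero h0).2 (h1 q)⟩
    · intro h
      exact ⟨fun q => (W_zero h0).1 (h q).2, fun q => ⟨(h q).1, W_mono h0 (Nat.zero_le _) (h q).2⟩⟩
  have : Finite (Hm J ι (2 * k)) := Nat.finite_of_card_ne_zero (by rw [cH]; positivity)
  let b : Hm J ι (2 * k) → Hm J ι (2 * k) → Qb := fun x y => ∏ q, e (x.1 q).1 (hf (y.1 q).2)
  have hb : Bil ⊤ (2 ^ (k + 1)) b := by
    refine ⟨fun x _ x' _ y _ => ?_, fun x _ y _ y' _ => ?_, fun x _ y _ => ?_⟩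
    · rw [← prod_mul_distrib]
      exact prod_congr rfl fun q _ =>
        he.bil.addl _ (tr (up (x.2 q).1)) _ (tr (up (x'.2 q).1)) _ (tr (hW (y.2 q).2))
    · rw [← prod_mul_distrib]
      refine prod_congr rfl fun q _ => ?_
      have a1 : hf (y.1 q).2 ∈ Wn J (2 * (k + 1)) := hW (y.2 q).2
      have a2 : hf (y'.1 q).2 ∈ Wn J (2 * (k + 1)) := hW (y'.2 q).2
      have e1 : ((y + y').1 q).2
          = (hf (y.1 q).2 + hf (y'.1 q).2) + (hf (y.1 q).2 + hf (y'.1 q).2) := by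
        rw [add_add_add_comm, hhf, hhf]; rfl
      rw [e1, f0 _ (x.2 q).1 _ (add_mem a1 a2)]
      exact he.bil.addr _ (tr (up (x.2 q).1)) _ (tr a1) _ (tr a2)
    · rw [← prod_pow]
      exact prod_eq_one fun q _ => he.bil.pow _ (tr (up (x.2 q).1)) _ (tr (hW (y.2 q).2))
  have sing : ∀ (q : ι) (u v : A), u ∈ Wn J (2 * k) → v ∈ Wn J (2 * k) →
      (Pi.single q (u, v) : ι → A × A) ∈ Hm J ι (2 * k) := by
    intro q u v hu hv q'
    by_cases hq : q' = q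
    · subst hq; rw [Pi.single_eq_same]; exact ⟨hu, hv⟩
    · rw [Pi.single_eq_of_ne hq]; exact ⟨zero_mem _, zero_mem _⟩
  have hnd : ∀ x, (∀ y, b x y * b y x = 1) → x = 0 := by
    intro x hx
    have key : ∀ (q : ι) (u v : A), u ∈ Wn J (2 * k) → v ∈ Wn J (2 * k) →
        e (x.1 q).1 (hf v) * e u (hf (x.1 q).2) = 1 := by
      intro q u v hu hv
      have h := hx ⟨_, sing q u v hu hv⟩
      simp only [b] at h
      rw [Fintype.prod_eq_single q, Fintype.prod_eq_single q, Pi.single_eq_same] at h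
      · exact h
      · intro q' hq
        rw [Pi.single_eq_of_ne hq]
        exact zf _ (x.2 q').2
      · intro q' hq
        rw [Pi.single_eq_of_ne hq]
        exact fz _ (x.2 q').1
    refine Subtype.ext (funext fun q => Prod.ext ?_ ?_)
    · refine he.nd _ (tr (up (x.2 q).1)) fun u hu => ?_
      have hu' := (W_tor h0 (k + 1)).2 hu
      have h := key q 0 (u + u) (zero_mem _) ((dbl _ _).2 hu')
      rw [zf _ (x.2 q).2, mul_one, f0 _ (x.2 q).1 _ hu'] at h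
      have h3 := p3 _ (up (x.2 q).1) _ hu'
      rwa [h, one_mul] at h3
    · refine he.nd _ (tr (up (x.2 q).2)) fun u hu => ?_
      have hu' := (W_tor h0 (k + 1)).2 hu
      have h := key q (u + u) 0 ((dbl _ _).2 hu') (zero_mem _)
      have a1 : hf (x.1 q).2 ∈ tor A (2 ^ (k + 1)) := tr (hW (x.2 q).2)
      rw [fz _ (x.2 q).1, one_mul, he.bil.addl _ hu _ hu _ a1, ← he.bil.addr _ hu _ a1 _ a1,
        hhf] at h
      exact h
  obtain ⟨t1, t2⟩ := hTRI _ (2 ^ (k + 1)) b (by positivity) hb hnd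
  have bA : ∀ (x x' : Hm J ι (2 * k)) (y y' : ι → A × A), y ∈ V 0 (2 * (k + 1)) →
      y' ∈ V 0 (2 * (k + 1)) → (∀ q, (y q).1 + (y q).1 = (x.1 q).1) →
      (∀ q, (y' q).2 + (y' q).2 = (x'.1 q).2) →
      b x x' = ∏ q, e (y q).1 (y' q).2 * e (y q).1 (y' q).2 := by
    intro x x' y y' hy hy' e1 e2
    refine prod_congr rfl fun q _ => ?_
    have a1 := (hV.le _ _ hy q).1
    have a2 := (hV.le _ _ hy' q).2
    rw [← e2 q, f0 _ (x.2 q).1 _ a2, ← e1 q, he.bil.addl _ (tr a1) _ (tr a1) _ (tr a2)]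
  have cA := sub_ELIN (hV.le 0 (2 * k))
  have hle := t1 ((V 0 (2 * k)).addSubgroupOf (Hm J ι (2 * k))) fun x hx x' hx' => by
    obtain ⟨y, hy, e1⟩ := half_ELIN hV (AddSubgroup.mem_addSubgroupOf.1 hx)
    obtain ⟨y', hy', e2⟩ := half_ELIN hV (AddSubgroup.mem_addSubgroupOf.1 hx')
    rw [bA x x' y y' hy hy' (fun q => (e1 q).1) (fun q => (e2 q).2),
      bA x' x y' y hy' hy (fun q => (e2 q).1) (fun q => (e1 q).2), ← prod_mul_distrib,
      ← one_mul (1 : Qb)]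
    nth_rewrite 1 [← hiso y hy y' hy']
    rw [← hiso y hy y' hy', ← prod_mul_distrib]
    exact prod_congr rfl fun q _ => by ring
  rw [cA, cH] at hle
  obtain ⟨l1, s, l2, l3⟩ := hLIN1 A J ι V ℓ _ k hV (by omega)
    ((Nat.pow_le_pow_iff_left two_ne_zero).1 hle)
  have kle : Hm J ι k ≤ Hm J ι (2 * k) :=
    fun x hx q => ⟨W_mono h0 (by omega) (hx q).1, W_mono h0 (by omega) (hx q).2⟩
  have cC : Nat.card ((Hm J ι k).addSubgroupOf (Hm J ι (2 * k)))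
      = 2 ^ (2 * k * Fintype.card ι) := by
    rw [sub_ELIN kle, cH, ← pow_mul]; congr 1; ring
  have h := t2 ((V 0 (2 * k)).addSubgroupOf (Hm J ι (2 * k)))
    ((B0 A ι).addSubgroupOf (Hm J ι (2 * k))) ((Hm J ι k).addSubgroupOf (Hm J ι (2 * k)))
    (fun x hx => by
      obtain ⟨y, hy, e1⟩ := half_ELIN hV (AddSubgroup.mem_addSubgroupOf.1 hx)
      rw [bA x x y y hy hy (fun q => (e1 q).1) (fun q => (e1 q).2)]
      exact hiso y hy y hy)
    (fun x hx => prod_eq_one fun q _ => by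
      rw [AddSubgroup.mem_addSubgroupOf.1 hx q]
      exact fz _ (x.2 q).1)
    (fun x hx => prod_eq_one fun q _ =>
      p2 k (k + 2) (by omega) _ (AddSubgroup.mem_addSubgroupOf.1 hx q).1 _
        (hW (AddSubgroup.mem_addSubgroupOf.1 hx q).2))
    (by rw [cA, cH, l1])
    (by rw [← AddSubgroup.inf_addSubgroupOf_right, sub_ELIN inf_le_right, cB, cH])
    (by rw [cC, cH])
  have inf : ∀ G G' : AddSubgroup (ι → A × A),
      G.addSubgroupOf (Hm J ι (2 * k)) ⊓ G'.addSubgroupOf (Hm J ι (2 * k))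
        = (G ⊓ G').addSubgroupOf (Hm J ι (2 * k)) := fun _ _ => rfl
  rw [inf, inf, inf, cC, sub_ELIN (inf_le_left.trans (hV.le 0 (2 * k))),
    sub_ELIN (inf_le_left.trans (hV.le 0 (2 * k))), sub_ELIN (inf_le_right.trans kle), l2, cB] at h
  refine sq_ELIN (a := 2 * k * Fintype.card ι + s + k * Fintype.card ι) ?_ ?_
  · have e1 : 2 ^ (2 * k * Fintype.card ι + s + k * Fintype.card ι)
        * Nat.card ↥(V 0 (2 * k) ⊓ B0 A ι)
        = 2 ^ (2 * k * Fintype.card ι) * Nat.card ↥(V 0 (2 * k) ⊓ B0 A ι) * 2 ^ s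
          * 2 ^ (k * Fintype.card ι) := by ring
    rw [e1]; exact h
  · obtain ⟨t, ht⟩ := l3
    exact ⟨k * Fintype.card ι + t, by nlinarith⟩

end Pool.Agent.MP_e23604_nt.R

end

section

set_option autoImplicit false

open Module Filter Topology Finset
open scoped Classical

namespace Pool.Agent.MP_e23604_nt.R

open B
open Q (Wn dig CmI Cm0 Pre A1 Eta Jm scf St Cork Fg IdxQ basQ levQ)

theorem cnt_EBND {G : Type} [AddCommGroup G] (H K : AddSubgroup G) (M : ℕ) {S : Set G}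
    (hS : S.Finite) (c : K → ℕ) (hc : ∀ x, c x < M)
    (h : ∀ x y : K, c x = c y → ∃ s ∈ S, (x : G) - y - s ∈ H) :
    H.relIndex K ≠ 0 ∧ H.relIndex K ≤ M * Nat.card S := by
  have := hS.to_subtype
  choose s h1 h2 using fun x : K =>
    h x (Function.invFun c (c x)) (Function.invFun_eq ⟨x, rfl⟩).symm
  let f : K ⧸ H.addSubgroupOf K → Fin M × S := fun q => (⟨c q.out, hc _⟩, ⟨s q.out, h1 _⟩)
  have hf : Function.Injective f := fun q q' e => by
    have e1 : c q.out = c q'.out := congrArg (fun z => z.1.1) e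
    have e2 : s q.out = s q'.out := congrArg (fun z => z.2.1) e
    rw [← q.out_eq', ← q'.out_eq', QuotientAddGroup.eq, AddSubgroup.mem_addSubgroupOf]
    have := H.sub_mem (h2 q'.out) (h2 q.out)
    rw [e1, e2] at this
    convert this using 1
    push_cast
    abel
  have := Finite.of_injective f hf
  refine ⟨Nat.card_pos.ne', (Nat.card_le_card_of_injective f hf).trans ?_⟩
  rw [Nat.card_prod, Nat.card_fin]

theorem st_EBND {A : Type} [AddCommGroup A] {J : A ≃ₗ[ℤ] A} {η : Act A} {n m : ℕ} {cc : GQ}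
    (hn : n ≠ 0) {x : GQ → A} (hx : x ∈ Sq J η n cc ∅ m) (h2 : ∀ g ∈ Dec (nv 2 1), x g = 0) :
    x ∈ St J η n := by
  refine ⟨lc_iff.2 hx.1.lc, hx.1.coc, ⟨m, hx.1.lev⟩, fun P hP g hg => ?_, fun g hg => h2 g hg⟩
  have := hP.1
  obtain ⟨l, hl, hlP⟩ := MP_f68ac8_nt.exists_prime_mem (Ω := Qb) P
  have : Fact l.Prime := ⟨hl⟩
  obtain ⟨γ, rfl⟩ := exists_cen l P hlP
  refine hx.2.1 l γ ?_ (fun e => ?_) (notMem_empty l) g (ine_iff.2 hg)
  · rintro rfl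
    exact hP.2.1 hlP
  · exact hP.2.2 l (Nat.mem_primeFactors.2 ⟨hl, e, hn⟩) hlP

theorem BND_pf : BND_st := by
  intro A _ J η n cc T hp ⟨C, hC⟩ hS
  have h0 := hp.cm.toCm0
  refine ⟨C * Nat.card (St J η n), fun k => ?_⟩
  obtain ⟨cl, h1, h2⟩ := hC k
  choose R hR using fun x : Sq J η n cc ∅ (2 * k) => x.2.2.2.1
  have hfix : ∀ x, ∀ g ∈ Dec (nv 2 1), η g (2 ^ k • R x) = 2 ^ k • R x := fun x g hg => by
    have h3 := (W_tor h0 k).1 (x.2.1.lev g)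
    rw [mem_tor, hR x g hg, dd, smul_sub, sub_eq_zero] at h3
    rw [map_nsmul, h3]
  rw [mul_right_comm]
  refine cnt_EBND _ _ _ hS (fun x => cl (2 ^ k • R x)) (fun x => h1 _) fun x y e => ?_
  obtain ⟨S, h3, h4⟩ := h2 _ _ (hfix x) (hfix y) e
  have h5 : 2 ^ k • (R x - R y - S) = 0 := by rw [smul_sub, smul_sub, h4, sub_self]
  have h6 : dd η (R x - R y - S) ∈ Sq J η n cc ∅ (2 * k) :=
    dd_sq h0 hp.ga cc ∅ (W_mono h0 (Nat.le_succ _) ((W_tor h0 k).2 h5))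
  refine ⟨x - y - dd η (R x - R y - S),
    st_EBND hp.sf.ne_zero (sub_mem (sub_mem x.2 y.2) h6) fun g hg => ?_, _, ⟨k, h5⟩,
    sub_sub_cancel _ _⟩
  simp only [Pi.sub_apply, hR x g hg, hR y g hg, dd, map_sub, h3 g hg]
  abel

end Pool.Agent.MP_e23604_nt.R

end

section

namespace Pool.Agent.MP_e23604_nt.Q

open Finset Filter NumberField
open MP_f68ac8_nt.Zq (Mx sg)
open MP_f68ac8_nt.Zk (Cp Yw rr NS brL)
open MP_f68ac8_nt.Nd (Lr Rcp GenQ Trm)
open scoped BigOperators Topology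

section
variable {A : Type} [AddCommGroup A] {J a c : A ≃ₗ[ℤ] A}

theorem om_XSem (u : A) : om J u = J u - u := rfl

theorem pre_XSem (hB : BasQ) (hJ : Cm0 J) (h : ∀ u, a (om J u) = om J (c u))
    (hc : ∀ n u, c u ∈ Wn J n ↔ a u ∈ Wn J n) : Pre J a := by
  obtain ⟨-, b2, b3, -⟩ := hB A J hJ
  intro n
  induction n with
  | zero => simp [b2]
  | succ n ih => exact fun u => by rw [← hc, ← b3, ← h, ih, b3]

theorem del_XSem (hB : BasQ) (hL : LevQ) (hJ : CmI J) (h : ∀ u, a (om J u) = om J (c u))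
    (ha : Pre J a) (hc : Pre J c) {n : ℕ} (hn : 1 ≤ n) : del J n a = del J (n + 1) c := by
  obtain ⟨-, -, b3, -, -, -, b7, -⟩ := hB A J hJ.toCm0
  obtain ⟨u, h1, h2⟩ := ((hL A J).2 hJ).1 (n + 1)
  have e1 := (b7 a ha).2 n hn (om J u) ((b3 _ _).2 h1)
  have e2 := (b7 c hc).2 (n + 1) (by omega) u h1
  have e3 : dig J n (om J u) = 1 := if_neg fun e => h2 ((b3 _ _).1 e)
  have e4 : dig J (n + 1) u = 1 := if_neg h2
  rw [e3, mul_one, h, ← map_sub] at e1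
  rw [e4, mul_one] at e2
  rw [← e1, ← e2]
  unfold dig
  rw [b3, Nat.sub_add_cancel hn, Nat.add_sub_cancel]

theorem fix_XSem (hB : BasQ) (hJ : Cm0 J) (h : ∀ u, a (om J u) = om J (a u)) (t : ℕ) :
    ∀ b ∈ Wn J (t + 1), b ∉ Wn J t → a b = b → ∀ u ∈ Wn J (t + 1), a u = u := by
  obtain ⟨-, b2, b3, -, -, b6, -⟩ := hB A J hJ
  have key : ∀ t, (∀ u ∈ Wn J t, a u = u) →
      ∀ b ∈ Wn J (t + 1), b ∉ Wn J t → a b = b → ∀ u ∈ Wn J (t + 1), a u = u := by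
    intro t ih b h1 h2 h3 u hu
    by_cases h4 : u ∈ Wn J t
    · exact ih u h4
    · have e := b6 t u hu b h1
      rw [show dig J t u = 1 from if_neg h4, show dig J t b = 1 from if_neg h2] at e
      have : u + b ∈ Wn J t := by
        by_contra h5
        rw [show dig J t (u + b) = 1 from if_neg h5] at e
        exact absurd e (by decide)
      have := ih _ this
      rwa [map_add, h3, add_left_inj] at this
  induction t with
  | zero => exact key 0 fun u hu => by rw [b2, Submodule.mem_bot] at hu; rw [hu, map_zero]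
  | succ t ih =>
    exact fun b h1 h2 h3 => key _
      (ih (om J b) ((b3 _ _).2 h1) (fun e => h2 ((b3 _ _).1 e)) (by rw [h, h3])) b h1 h2 h3

end

theorem semQ (hBasQ : BasQ) (hLevQ : LevQ) : SemQ := by
  intro A _ J hJ a
  obtain ⟨b1, b2, b3, b4, -, -, -, b8, b9⟩ := hBasQ A J hJ.toCm0
  refine ⟨fun h => ?_, fun h => ?_⟩
  · have h1 : ∀ u, a (om J u) = om J (a u) := fun u => by rw [om_XSem, om_XSem, map_sub, h]
    have h2 := pre_XSem hBasQ hJ.toCm0 h1 fun _ _ => Iff.rfl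
    refine ⟨h2, fun n hn => (del_XSem hBasQ hLevQ hJ h1 h2 h2 hn).symm, ?_⟩
    rintro ⟨u, hu, hu'⟩ K k
    induction k with
    | zero =>
      intro b hb e
      rw [b2, Submodule.mem_bot, sub_eq_zero] at e
      induction K with
      | zero => exact b1 _ _ (by omega) hb
      | succ K ih =>
        by_cases h3 : b ∈ Wn J K
        · exact ih h3
        · by_cases h4 : 4 ≤ K + 1
          · exact absurd (fix_XSem hBasQ hJ.toCm0 h1 K b hb h3 e u (b1 _ _ h4 hu)) hu'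
          · exact b1 _ _ (by omega) hb
    | succ k ih =>
      intro b hb e
      refine (b3 (k + 3) b).1 (ih _ ((b3 _ _).2 (b1 _ _ (by omega) hb)) ?_)
      rw [h1, ← map_sub]
      exact (b3 _ _).2 e
  · have h1 : ∀ u, a (om J u) = om J ((J * a) u) := fun u => by
      change _ = om J (J (a u))
      rw [om_XSem, om_XSem, map_sub, h, hJ.sq]
      abel
    have h2 := pre_XSem hBasQ hJ.toCm0 h1 fun n u => b4 n (a u)
    refine ⟨h2, fun n hn => ?_⟩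
    rw [del_XSem hBasQ hLevQ hJ h1 h2 (fun n u => (b4 n (a u)).trans (h2 n u)) hn,
      b8 J a b4 h2 _ (by omega), b9 _ (by omega) (((hLevQ A J).2 hJ).1 _)]
    have : (2 : ZMod 2) = 0 := rfl
    linear_combination -this

end Pool.Agent.MP_e23604_nt.Q

end

section

set_option autoImplicit false

open Module Filter Topology Finset
open scoped Classical

namespace Pool.Agent.MP_e23604_nt.R

open B
open Q (Wn dig CmI Cm0 Pre A1 Eta Jm scf St Cork Fg IdxQ basQ levQ)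

theorem comp_EGA {u u' : Qb} (hu : u ^ 4 = 1) (hu' : u' ^ 4 = 1) (R : A1) :
    scf 1 u' (scf 1 u R) = scf 1 (u' * u) R :=
  (Q.scQ 1 1 Qb u one_ne_zero one_ne_zero (by rw [hu, one_mul])).2.2.1 1 u' one_ne_zero
    (by rw [hu', one_mul]) R

theorem gal_EGA {u : Qb} (hu : u ^ 4 = 1) (g : GQ) (R : A1) :
    galQ (P.EE 1) g (scf 1 u R) = scf 1 (g u) (galQ (P.EE 1) g R) :=
  (Q.scQ 1 1 Qb u one_ne_zero one_ne_zero (by rw [hu, one_mul])).2.2.2.2 Qb (g : Qb →+* Qb) R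

theorem one_EGA (R : A1) : scf (1 : ℚ) (1 : Qb) R = R ∧ scf (1 : ℚ) (-1 : Qb) R = -R :=
  (Q.scQ 1 1 Qb 1 one_ne_zero one_ne_zero (by rw [one_pow, one_mul])).2.2.2.1 R

section
variable {l : ℕ} [hl : Fact l.Prime] {γ g : GQ} (h2 : l ≠ 2) (hg : g ∈ Ine l γ)
include h2

theorem two_EGA : nv l γ 2 = 1 := by
  exact_mod_cast v_coprime (nv_na l γ) hl.out (nv_lt l γ) (n := 2) fun h =>
    h2 ((Nat.prime_dvd_prime_iff_eq hl.out Nat.prime_two).1 (by exact_mod_cast h))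

include hg

theorem tors_EGA {k : ℕ} {u : A1} (hu : 2 ^ k • u = 0) : galQ (P.EE 1) g u = u := by
  have hW : Intg (nv l γ) ((P.EE 1).baseChange Qb) := by
    simp [Intg, P.EE, WeierstrassCurve.baseChange]
  have hΔ : nv l γ ((P.EE 1).baseChange Qb).Δ = 1 := by
    have : ((P.EE 1).baseChange Qb).Δ = -2 ^ 6 := by
      simp [P.EE, WeierstrassCurve.baseChange, WeierstrassCurve.Δ, WeierstrassCurve.b₂,
        WeierstrassCurve.b₄, WeierstrassCurve.b₆, WeierstrassCurve.b₈]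
      norm_num
    rw [this, (nv l γ).map_neg, map_pow, two_EGA h2, one_pow]
  refine sub_eq_zero.1 (E1_tors (nv_na l γ) hW (inr_E1 _ (nv_na l γ) hW hΔ hg u)
    (n := (2 ^ k : ℕ)) ?_ ?_)
  · push_cast
    rw [map_pow, two_EGA h2, one_pow]
  · rw [natCast_zsmul, smul_sub, ← map_nsmul, hu, map_zero, sub_zero]

theorem root_EGA {c : Qb} {t : ℤ} (hc : c ^ 4 = t) (ht : ¬ (l : ℤ) ∣ t) : g c = c := by
  have hv := nv_na l γ
  have h0 := two_EGA (γ := γ) h2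
  have h6 := Ine_le l γ hg c
  have h3 := hg c
  have h1 := v_coprime hv hl.out (nv_lt l γ) ht
  generalize nv l γ = v at hv h0 h6 h3 h1
  rw [← hc, map_pow, pow_eq_one_iff_of_nonneg (v.nonneg c) four_ne_zero] at h1
  have h4 : g c ^ 4 = c ^ 4 := by rw [← map_pow, hc, map_intCast]
  by_contra h
  have h5 : 2 ^ 2 * c ^ 3 = (c - g c) * (g c ^ 2 + 2 * g c * c + 3 * c ^ 2) := by
    apply mul_left_cancel₀ (sub_ne_zero.2 h)
    linear_combination h4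
  rw [h1] at h6
  have h7 : v (g c ^ 2 + 2 * g c * c + 3 * c ^ 2) ≤ 1 := by
    refine (hv _ _).trans (max_le ((hv _ _).trans (max_le ?_ ?_)) ?_)
    · rw [map_pow, h6, one_pow]
    · rw [map_mul, map_mul, h0, h6, h1]; norm_num
    · rw [map_mul, map_pow, h1, one_pow, mul_one]
      exact_mod_cast hv.apply_intCast_le_one (n := 3)
  have h8 := congrArg v h5
  rw [map_mul, map_mul, map_pow, map_pow, h0, h1, v.map_sub] at h8
  nlinarith [h3 h1.le, v.nonneg (g c - c), v.nonneg (g c ^ 2 + 2 * g c * c + 3 * c ^ 2)]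

end

theorem GA_pf (hTAM : TAM_st) (hKAP : KAP_st) (hDIC : DIC_st) : GA_st := by
  intro i δ J η D hJ hη hD hδ a n hn ho hs
  have hi : i ^ 2 = -1 := hJ.1
  obtain ⟨hC, hW, -⟩ := (Q.modQ basQ Q.scQ i).2 J hJ
  have h3 : ∀ k, ∀ u ∈ Wn J k, 2 ^ k • u = 0 := fun k u hu =>
    (hW k u).1 (W_mono hC.toCm0 (by omega) hu)
  have h0 : δ ≠ 0 := by
    rintro rfl
    exact hD (by exact_mod_cast (hδ.symm.trans (zero_pow (by norm_num))))
  have hu : ∀ g : GQ, (g δ / δ) ^ 4 = 1 := fun g => by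
    rw [div_pow, ← map_pow, hδ, map_intCast, div_self (by exact_mod_cast hD)]
  have hi4 : (-i) ^ 4 = 1 := by linear_combination (i ^ 2 - 1) * hi
  refine ⟨fun u => ?_, fun g => ?_, fun l hl γ h2 hn' τ hτ k u hk => ?_, fun l hl hn' => ?_⟩
  · simp only [hη _ u]
    exact (Lc.apply ⊤ δ).map₂ ((lc_iff.1 (P.dd_mem2 u).1).map (· + u)) (scf 1 <| · / δ) |>.imp
      fun N h => ⟨h.1, fun g hg j hj e => by simpa [MP_e23604_nt.dd, galQ] using h.2 g hg j hj e⟩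
  · have e1 : ∀ u, η g (J u) = scf 1 (g δ / δ * g (-i)) (galQ (P.EE 1) g u) := fun u => by
      rw [hη g, hJ.2, gal_EGA hi4, comp_EGA (by rw [← map_pow, hi4, map_one]) (hu g)]
    have e2 : ∀ u, J (η g u) = scf 1 (-i * (g δ / δ)) (galQ (P.EE 1) g u) := fun u => by
      rw [hη g, hJ.2, comp_EGA (hu g) hi4]
    have b : (g i) ^ 2 = i ^ 2 := by rw [← map_pow, hi, map_neg, map_one]
    have hS := Q.semQ basQ (levQ basQ) A1 J hC (η g)
    rcases sq_eq_sq_iff_eq_or_eq_neg.1 b with c | c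
    · exact (hS.1 fun u => by rw [e1, e2, map_neg, c, mul_comm]).1
    · refine (hS.2 fun u => ?_).1
      rw [e1, e2, ← (one_EGA _).2, comp_EGA (by rw [mul_pow, hi4, hu, one_mul]) (by norm_num),
        map_neg, c]
      congr 1
      ring
  · rw [hη, tors_EGA h2 hτ (h3 k u hk), root_EGA h2 hτ hδ fun h => ?_, div_self h0, (one_EGA u).1]
    rw [Int.natCast_dvd, hn, hl.out.dvd_mul] at h
    exact h.elim (fun h => h2 ((Nat.prime_dvd_prime_iff_eq hl.out Nat.prime_two).1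
      (hl.out.dvd_of_dvd_pow h))) hn'
  · have h2 : l ≠ 2 := fun e => absurd (ho.of_dvd_nat hn') (by rw [e]; decide)
    obtain ⟨τ, hτ, hk⟩ := (hTAM l 1 h2).1
    have hv : padicValRat l (D : ℚ) = 1 := by
      have b1 := hs.natFactorization_le_one l
      rw [Nat.factorization_def n hl.out] at b1
      rw [padicValRat.of_int, padicValInt, hn, padicValNat.mul (by positivity) hs.ne_zero,
        padicValNat_prime_prime_pow a h2, zero_add,
        le_antisymm b1 (one_le_padicValNat_of_dvd hs.ne_zero hn'), Nat.cast_one]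
    have b1 := hKAP.2.1 D (δ ^ 2) τ (by rw [← pow_mul, hδ, Rat.cast_intCast])
    rw [hKAP.2.2.2.2.2.1 l 1 D h2 (by exact_mod_cast hD) τ hτ, hv, hk, Int.cast_one, mul_one,
      ZMod.val_one, pow_one, map_pow] at b1
    have b2 : τ δ ^ 2 = (i * δ) ^ 2 := by rw [b1, mul_pow, hi]
    have fin : ∀ σ ∈ Ine l 1, σ δ = -(i * δ) → ∀ k, ∀ u ∈ Wn J k, η σ u = J u :=
      fun σ hσ e k u hk => by
        rw [hη, tors_EGA h2 hσ (h3 k u hk), e, hJ.2, neg_div, mul_div_cancel_right₀ _ h0]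
    rcases sq_eq_sq_iff_eq_or_eq_neg.1 b2 with c | c
    · have b3 : τ i = i := root_EGA h2 hτ (t := 1) (by linear_combination (i ^ 2 - 1) * hi)
        fun h => hl.out.one_lt.ne' (by exact_mod_cast Int.eq_one_of_dvd_one (by positivity) h)
      have b4 := mul_mem (mul_mem hτ hτ) hτ
      refine ⟨_, b4, ?_, fin _ b4 ?_⟩
      · rw [(hKAP.1 l).1 _ trivial _ trivial, (hKAP.1 l).1 _ trivial _ trivial, hk]
        rfl
      · simp only [AlgEquiv.mul_apply, c, map_mul, b3]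
        linear_combination i * δ * hi
    · exact ⟨τ, hτ, hk, fin τ hτ c⟩

end Pool.Agent.MP_e23604_nt.R

end

section

set_option autoImplicit false

open Module Filter Topology Finset
open scoped Classical

namespace Pool.Agent.MP_e23604_nt.R

open B
open Q (Wn dig CmI Cm0 Pre A1 Eta Jm scf St Cork Fg IdxQ basQ levQ)

open P in
theorem act_EPT {δ : Qb} {η : Act A1} {D : ℤ} (hη : Eta δ η) (hD : D ≠ 0) (hδ : δ ^ 4 = D)
    {a b : Qb} (h : b ^ 2 = a ^ 3 + D * a) (g : GQ) :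
    η g (pt2 1 (a / δ ^ 2) (b / δ ^ 3)) = pt2 1 (g a / δ ^ 2) (g b / δ ^ 3) := by
  have hD' : (D : Qb) ≠ 0 := by exact_mod_cast hD
  have h0 : δ ≠ 0 := by
    rintro rfl
    exact hD' (by rw [← hδ]; simp)
  have h1 : g δ ≠ 0 := by simpa using h0
  have h2 : (b / δ ^ 3) ^ 2 = (a / δ ^ 2) ^ 3 + ((1 : ℚ) : Qb) * (a / δ ^ 2) := by
    rw [Rat.cast_one]
    field_simp
    linear_combination h - a * hδ
  have h3 := xCCur_map (g : Qb →+* Qb) h2
  rw [hη, galQ, act_pt2 one_ne_zero _ h2, scf, if_neg (pt2_ne_zero one_ne_zero h3),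
    (px_pt2 one_ne_zero h3).1, (px_pt2 one_ne_zero h3).2]
  congr 1
  · simp only [RingHom.coe_coe, map_div₀, map_pow]
    field_simp
  · simp only [RingHom.coe_coe, map_div₀, map_pow]
    field_simp

open P in
theorem key_EPT {δ : Qb} {η : Act A1} {D : ℤ} (hη : Eta δ η) (hD : D ≠ 0) (hδ : δ ^ 4 = D)
    {a b : Qb} (h : b ^ 2 = a ^ 3 + D * a) (ha : a ≠ 0) (χ : GQ → ZMod 2) (H : Subgroup GQ)
    (h0 : ∀ g ∈ H, χ g = 0 → g a = a ∧ g b = b)
    (h1 : ∀ g ∈ H, χ g = 1 → g a = D / a ∧ g b = -D * b / a ^ 2) :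
    InL η H (chT χ (T2 1 Qb)) := by
  have hD' : (D : Qb) ≠ 0 := by exact_mod_cast hD
  have hδ0 : δ ≠ 0 := by
    rintro rfl
    exact hD' (by rw [← hδ]; simp)
  have h2 : (b / δ ^ 3) ^ 2 = (a / δ ^ 2) ^ 3 + ((1 : ℚ) : Qb) * (a / δ ^ 2) := by
    rw [Rat.cast_one]
    field_simp
    linear_combination h - a * hδ
  refine ⟨pt2 1 (a / δ ^ 2) (b / δ ^ 3), fun g hg => ?_⟩
  rw [dd, act_EPT hη hD hδ h, chT]
  rcases z2 (χ g) with e | e
  · rw [e, (h0 g hg e).1, (h0 g hg e).2, sub_self, ZMod.val_zero, zero_smul]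
  · rw [e, (h1 g hg e).1, (h1 g hg e).2, ZMod.val_one, one_smul, eq_sub_iff_add_eq',
      (add_T2 one_ne_zero h2 (div_ne_zero ha (pow_ne_zero _ hδ0))).2, ← hδ, Rat.cast_one]
    congr 1 <;> field_simp

theorem PT_pf (hTW : TW_st) (hKAP : KAP_st) : PT_st := by
  intro i δ J η D hJ hη hD hδ T hT
  have hD' : (D : Qb) ≠ 0 := by exact_mod_cast hD
  have eT : T = P.T2 1 Qb := (Q.cm_XMod Q.scQ hJ).one T hT.1 _
    ((Q.fix_XMod Q.scQ hJ (P.T2_ne_zero one_ne_zero)).2 (P.px_pt2 one_ne_zero P.xCCur_on0)) hT.2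
    (P.T2_ne_zero one_ne_zero)
  have hs0 : ∀ (r : ℚ) (s : Qb) (g : GQ), s ^ 2 = r → kap r g = 0 → g s = s := fun r s g h e => by
    rw [hKAP.2.1 r s g h, e, ZMod.val_zero, pow_zero, one_mul]
  have hs1 : ∀ (r : ℚ) (s : Qb) (g : GQ), s ^ 2 = r → kap r g = 1 → g s = -s := fun r s g h e => by
    rw [hKAP.2.1 r s g h, e, ZMod.val_one, pow_one, neg_one_mul]
  subst eT
  refine ⟨fun H x hx hH => ?_, ?_⟩
  · obtain ⟨s, hs⟩ := IsAlgClosed.exists_pow_nat_eq (x : Qb) two_pos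
    obtain ⟨y, hy⟩ := IsAlgClosed.exists_pow_nat_eq ((x ^ 3 - 4 * D * x : ℚ) : Qb) two_pos
    have hx' : (x : Qb) ≠ 0 := by exact_mod_cast hx
    have hs' : s ≠ 0 := by
      rintro rfl
      exact hx' (by rw [← hs]; simp)
    have hgy : ∀ g ∈ H, g y = y := fun g hg => hs0 _ y g hy (hH g hg)
    push_cast at hy
    obtain ⟨t, ht⟩ : ∃ t, t = y / s := ⟨_, rfl⟩
    have ht2 : t ^ 2 = s ^ 4 - 4 * D := by
      rw [ht, div_pow, hy, ← hs]
      field_simp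
    have hm : (s ^ 2 + t) / 2 * ((s ^ 2 - t) / 2) = D := by linear_combination -ht2 / 4
    have ha : (s ^ 2 + t) / 2 ≠ 0 := left_ne_zero_of_mul (hm ▸ hD')
    refine key_EPT hη hD hδ (a := (s ^ 2 + t) / 2) (b := s * ((s ^ 2 + t) / 2)) ?_ ha _ H
      (fun g hg e => ?_) fun g hg e => ?_
    · rw [← hm]; ring
    · have e1 := hs0 x s g hs e
      simp only [ht, map_mul, map_div₀, map_add, map_pow, map_ofNat, e1, hgy g hg, and_self]
    · have e1 := hs1 x s g hs e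
      have e2 : g t = -t := by rw [ht, map_div₀, e1, hgy g hg, div_neg]
      simp only [map_mul, map_div₀, map_add, map_pow, map_ofNat, e1, e2]
      rw [eq_div_iff ha, eq_div_iff (pow_ne_zero 2 ha), ← hm]
      constructor <;> ring
  · have h1 : (i * δ ^ 2) ^ 2 = ((-D : ℚ) : Qb) := by
      push_cast
      linear_combination δ ^ 4 * hJ.1 - hδ
    have h2 := h1
    push_cast at h2
    have ha : i * δ ^ 2 ≠ 0 := fun e => hD' (by rw [e] at h2; linear_combination h2)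
    refine key_EPT hη hD hδ (a := i * δ ^ 2) (b := 0) (by linear_combination -(i * δ ^ 2) * h2)
      ha _ ⊤ (fun g _ e => ⟨hs0 _ _ g h1 e, map_zero g⟩) fun g _ e => ⟨?_, by simp⟩
    rw [hs1 _ _ g h1 e, eq_div_iff ha]
    linear_combination -h2

end Pool.Agent.MP_e23604_nt.R

end

section

/-! Square classes at two and infinity that come from points. -/

set_option autoImplicit false

open Module Filter Topology Finset
open scoped Classical

namespace Pool.Agent.MP_e23604_nt.R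

open B
open Q (Wn Cm0)

/-- integers of the form `4 ^ a (8 t + 1)` -/
def Sq2 (n : ℤ) : Prop := ∃ a : ℕ, n % (8 * 4 ^ a) = 4 ^ a

theorem Sq2.of0 {n : ℤ} (h : n % 8 = 1) : Sq2 n := ⟨0, by simpa using h⟩

theorem Sq2.of1 {n : ℤ} (h : n % 32 = 4) : Sq2 n := ⟨1, by simpa using h⟩

theorem Sq2.of2 {n : ℤ} (h : n % 128 = 16) : Sq2 n := ⟨2, by simpa using h⟩

theorem Sq2.of3 {n : ℤ} (h : n % 512 = 64) : Sq2 n := ⟨3, by simpa using h⟩

theorem Sq2.ex {n : ℤ} (h : Sq2 n) : ∃ (a : ℕ) (t : ℤ), n = (2 ^ a) ^ 2 * (8 * t + 1) := by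
  obtain ⟨a, h⟩ := h
  refine ⟨a, n / (8 * 4 ^ a), ?_⟩
  have e := Int.mul_ediv_add_emod n (8 * 4 ^ a)
  have e2 : ((2 : ℤ) ^ a) ^ 2 = 4 ^ a := by rw [← pow_mul, mul_comm, pow_mul]; norm_num
  rw [h] at e
  rw [e2]
  linear_combination -e

theorem Sq2.ne {n : ℤ} (h : Sq2 n) : n ≠ 0 := by
  obtain ⟨a, t, rfl⟩ := h.ex
  exact mul_ne_zero (by positivity) (by omega)

theorem kap_zero_TAB {r : ℚ} {g : GQ} : kap r g = 0 ↔ g (sqr r) = sqr r := by
  unfold kap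
  split_ifs with h <;> simp [h]

/-- dyadic squares -/
theorem kap_two_TAB (hKUM : KUM_st) (hKAP : KAP_st) {n : ℤ} (h : Sq2 n) :
    ∀ g ∈ Dec (nv 2 1), kap (n : ℚ) g = 0 := by
  intro g hg
  obtain ⟨a, t, rfl⟩ := h.ex
  have h0 : ((8 * t + 1 : ℤ) : ℚ) ≠ 0 := Int.cast_ne_zero.2 (by omega)
  have h1 : kap ((8 * t + 1 : ℤ) : ℚ) g = 0 := by
    refine kap_zero_TAB.2 (hKUM.1 2 1 _ (((8 * t + 1 : ℤ) : ℚ) : Qb) _ le_rfl
      (fun s _ => map_ratCast s _) ?_ (sqr_sq _) g hg)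
    have e : ((((8 * t + 1 : ℤ) : ℚ) : Qb)) - 1 = 4 * ((2 : ℕ) * (t : Qb)) := by push_cast; ring
    have h2 : nv 2 1 (t : Qb) ≤ 1 := IsNonarchimedean.apply_intCast_le_one (nv_na 2 1)
    have h3 := nv_lt 2 1
    have h4 : 0 < nv 2 1 (4 : Qb) := (nv 2 1).pos (by norm_num)
    rw [e, map_mul, map_mul]
    exact mul_lt_of_lt_one_right h4
      (mul_lt_one_of_nonneg_of_lt_one_left ((nv 2 1).nonneg _) h3 h2)
  rw [Int.cast_mul, hKAP.2.2.1 _ _ g (by positivity) h0, h1, Int.cast_pow, hKAP.2.2.2.1, add_zero]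

/-- real squares -/
theorem kap_pos_TAB (hKAP : KAP_st) {cc : GQ} (hc : CC cc) {r : ℚ} (h : 0 < r) :
    ∀ g ∈ Subgroup.zpowers cc, kap r g = 0 := by
  have h1 : cc ∈ MulAction.stabilizer GQ (sqr r) :=
    kap_zero_TAB.1 ((hKAP.2.2.2.2.1 r cc hc).trans (if_neg h.le.not_gt))
  exact fun g hg => kap_zero_TAB.2 (Subgroup.zpowers_le_of_mem h1 hg)

/-- every nonzero integer is in one of eight dyadic classes -/
theorem cls_TAB {d : ℤ} (hd : d ≠ 0) :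
    ∃ c ∈ ([1, 3, 5, 7, 2, 6, 10, 14] : List ℤ), Sq2 (d * c) := by
  obtain ⟨n, hn⟩ : ∃ n, d.natAbs = n := ⟨_, rfl⟩
  induction n using Nat.strong_induction_on generalizing d with
  | _ n ih =>
    by_cases h4 : d % 4 = 0
    · obtain ⟨e, rfl⟩ : ∃ e, d = 4 * e := ⟨d / 4, by omega⟩
      obtain ⟨c, hc, a, ha⟩ := ih e.natAbs (by omega) (by omega) rfl
      refine ⟨c, hc, a + 1, ?_⟩
      have e1 : 4 * e * c = 4 * (e * c) := by ring
      have e2 : (8 : ℤ) * 4 ^ (a + 1) = 4 * (8 * 4 ^ a) := by ring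
      rw [e1, e2, Int.mul_emod_mul_of_pos _ _ (by norm_num), ha]
      ring
    · have : d % 8 = 1 ∨ d % 8 = 3 ∨ d % 8 = 5 ∨ d % 8 = 7 ∨ d % 16 = 2 ∨ d % 16 = 6 ∨
          d % 16 = 10 ∨ d % 16 = 14 := by omega
      rcases this with h | h | h | h | h | h | h | h
      · exact ⟨1, by decide, .of0 (by omega)⟩
      · exact ⟨3, by decide, .of0 (by omega)⟩
      · exact ⟨5, by decide, .of0 (by omega)⟩
      · exact ⟨7, by decide, .of0 (by omega)⟩
      · exact ⟨2, by decide, .of1 (by omega)⟩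
      · exact ⟨6, by decide, .of1 (by omega)⟩
      · exact ⟨10, by decide, .of1 (by omega)⟩
      · exact ⟨14, by decide, .of1 (by omega)⟩

variable {A : Type} [AddCommGroup A] {J : A ≃ₗ[ℤ] A} {η : Act A} {T : A} {H : Subgroup GQ}
  {cc : GQ}

/-- the quadratic character of `d` comes from a point on `H` -/
def Gd (η : Act A) (T : A) (H : Subgroup GQ) (d : ℤ) : Prop := InL η H (chT (kap (d : ℚ)) T)

theorem InL.mono {H' : Subgroup GQ} {ξ : GQ → A} (h : InL η H ξ) (e : H' ≤ H) : InL η H' ξ :=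
  h.imp fun _ h g hg => h g (e hg)

theorem Gd.of_zero {d : ℤ} (h : ∀ g ∈ H, kap (d : ℚ) g = 0) : Gd η T H d :=
  (InL.zero η H).congr fun g hg => by simp [chT, h g hg]

theorem Gd.mul (hKAP : KAP_st) (h : Cm0 J) (hT : T ∈ Wn J 1) {d d' : ℤ} (h0 : d ≠ 0)
    (h0' : d' ≠ 0) (h1 : Gd η T H d) (h2 : Gd η T H d') : Gd η T H (d * d') :=
  (InL.add h1 h2).congr fun g _ => by
    rw [← chT_add h hT]
    simp only [chT, Pi.add_apply, Int.cast_mul,
      hKAP.2.2.1 _ _ g (Int.cast_ne_zero.2 h0) (Int.cast_ne_zero.2 h0')]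

theorem Gd.of_mul (hKAP : KAP_st) {d d' : ℤ} (h0 : d * d' ≠ 0)
    (hk : ∀ g ∈ H, kap ((d * d' : ℤ) : ℚ) g = 0) (h1 : Gd η T H d) : Gd η T H d' :=
  InL.congr h1 fun g hg => by
    have e := hk g hg
    rw [Int.cast_mul, hKAP.2.2.1 _ _ g (Int.cast_ne_zero.2 (left_ne_zero_of_mul h0))
      (Int.cast_ne_zero.2 (right_ne_zero_of_mul h0))] at e
    have e2 : kap (d' : ℚ) g = kap (d : ℚ) g := by
      revert e
      generalize kap (d' : ℚ) g = x
      generalize kap (d : ℚ) g = y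
      revert x y
      decide
    simp only [chT, e2]

theorem Gd.of_sq (hKAP : KAP_st) {d d' s : ℤ} (h0 : s ≠ 0) (e : d * d' = s ^ 2)
    (h1 : Gd η T H d) : Gd η T H d' :=
  h1.of_mul hKAP (by rw [e]; positivity) fun g _ => by rw [e, Int.cast_pow, hKAP.2.2.2.1]

/-- change of the representative at two -/
theorem Gd.cl (hKUM : KUM_st) (hKAP : KAP_st) {d d' : ℤ} (h1 : Gd η T (Dec (nv 2 1)) d)
    (e : Sq2 (d * d')) : Gd η T (Dec (nv 2 1)) d' :=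
  h1.of_mul hKAP e.ne (kap_two_TAB hKUM hKAP e)

theorem Gd.pos (hKAP : KAP_st) (hc : CC cc) {d : ℤ} (h : 0 < d) :
    Gd η T (Subgroup.zpowers cc) d := Gd.of_zero (kap_pos_TAB hKAP hc (Int.cast_pos.2 h))

/-- one negative class suffices at infinity -/
theorem Gd.all (hKAP : KAP_st) (hc : CC cc) {d₀ : ℤ} (h0 : d₀ < 0)
    (h1 : Gd η T (Subgroup.zpowers cc) d₀) (d : ℤ) (hd : d ≠ 0) :
    Gd η T (Subgroup.zpowers cc) d := by
  rcases hd.lt_or_gt with h | h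
  · have := mul_pos_of_neg_of_neg h0 h
    exact h1.of_mul hKAP this.ne' (kap_pos_TAB hKAP hc (Int.cast_pos.2 this))
  · exact Gd.pos hKAP hc h

/-- from the eight classes to all integers -/
theorem cls_Gd (hKUM : KUM_st) (hKAP : KAP_st) (h : Cm0 J) (hT : T ∈ Wn J 1) {Y : List ℤ}
    (hY : ∀ c ∈ ([1, 3, 5, 7, 2, 6, 10, 14] : List ℤ), ∃ y ∈ Y, 0 < y ∧
      Gd η T (Dec (nv 2 1)) (c * y)) (d : ℤ) (hd : d ≠ 0) :
    ∃ y ∈ Y, 0 < y ∧ Gd η T (Dec (nv 2 1)) (d * y) := by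
  obtain ⟨c, hc, e⟩ := cls_TAB hd
  obtain ⟨y, hy, y0, h1⟩ := hY c hc
  have c0 : c ≠ 0 := right_ne_zero_of_mul e.ne
  have h2 := Gd.mul hKAP h hT e.ne (mul_ne_zero c0 y0.ne')
    (Gd.of_zero (kap_two_TAB hKUM hKAP e)) h1
  exact ⟨y, hy, y0, h2.of_sq hKAP (s := d * c * y) (mul_ne_zero e.ne y0.ne') (by ring)⟩

/-- no condition at infinity -/
theorem covA_TAB (hKUM : KUM_st) (hKAP : KAP_st) (h : Cm0 J) (hT : T ∈ Wn J 1) {Y : List ℤ}
    {ℓ : ℕ} (hl : Y.length * 2 ^ ℓ ≤ 16)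
    (hc : ∀ d, d ≠ 0 → Gd η T (Subgroup.zpowers cc) d)
    (hY : ∀ c ∈ ([1, 3, 5, 7, 2, 6, 10, 14] : List ℤ), ∃ y ∈ Y, 0 < y ∧
      Gd η T (Dec (nv 2 1)) (c * y)) : Cov η cc T ℓ := by
  refine ⟨Y.toFinset, (Nat.mul_le_mul_right _ (List.toFinset_card_le Y)).trans hl, fun d hd => ?_⟩
  obtain ⟨y, hy, y0, h1⟩ := cls_Gd hKUM hKAP h hT hY d hd
  exact ⟨y, List.mem_toFinset.2 hy, y0.ne', h1, hc _ (mul_ne_zero hd y0.ne')⟩

/-- only positive classes at infinity -/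
theorem covB_TAB (hKUM : KUM_st) (hKAP : KAP_st) (h : Cm0 J) (hT : T ∈ Wn J 1) {Y : List ℤ}
    {ℓ : ℕ} (hl : 2 * Y.length * 2 ^ ℓ ≤ 16) (hc : CC cc)
    (hY : ∀ c ∈ ([1, 3, 5, 7, 2, 6, 10, 14] : List ℤ), ∃ y ∈ Y, 0 < y ∧
      Gd η T (Dec (nv 2 1)) (c * y)) : Cov η cc T ℓ := by
  refine ⟨(Y ++ Y.map (· * (-7))).toFinset,
    (Nat.mul_le_mul_right _ (List.toFinset_card_le _)).trans (by
      rwa [List.length_append, List.length_map, ← two_mul]), fun d hd => ?_⟩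
  obtain ⟨y, hy, y0, h1⟩ := cls_Gd hKUM hKAP h hT hY d hd
  rcases hd.lt_or_gt with hd' | hd'
  · refine ⟨y * (-7), List.mem_toFinset.2 (List.mem_append_right _ (List.mem_map_of_mem hy)),
      by omega, ?_, Gd.pos hKAP hc (mul_pos_of_neg_of_neg hd' (by omega))⟩
    rw [← mul_assoc]
    exact Gd.mul hKAP h hT (mul_ne_zero hd y0.ne') (by norm_num) h1
      (Gd.of_zero (kap_two_TAB hKUM hKAP (.of0 (by norm_num))))
  · exact ⟨y, List.mem_toFinset.2 (List.mem_append_left _ hy), y0.ne', h1,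
      Gd.pos hKAP hc (mul_pos hd' y0)⟩

/-- a decidable form -/
def Sq3 (n : ℤ) : Prop := n % 8 = 1 ∨ n % 32 = 4 ∨ n % 128 = 16

instance (n : ℤ) : Decidable (Sq3 n) := by unfold Sq3; infer_instance

theorem Sq3.sq {n : ℤ} (h : Sq3 n) : Sq2 n := h.elim .of0 fun h => h.elim .of1 .of2

/-- one class at two, no condition at infinity -/
theorem cov1_TAB (hKUM : KUM_st) (hKAP : KAP_st) (h : Cm0 J) (hT : T ∈ Wn J 1)
    (hc : ∀ d, d ≠ 0 → Gd η T (Subgroup.zpowers cc) d) (c₁ : ℤ)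
    (m1 : c₁ ∈ ([3, 5, 7, 2, 6, 10, 14] : List ℤ)) (g1 : Gd η T (Dec (nv 2 1)) c₁) :
    Cov η cc T 2 := by
  have key : ∀ c₁ ∈ ([3, 5, 7, 2, 6, 10, 14] : List ℤ),
      ∃ Y ∈ ([[1, 3, 5, 7], [1, 5, 2, 10], [1, 3, 2, 6]] : List (List ℤ)), Y.length = 4 ∧
        ∀ c ∈ ([1, 3, 5, 7, 2, 6, 10, 14] : List ℤ), ∃ y ∈ Y, 0 < y ∧
          (Sq3 (c * y) ∨ Sq3 (c₁ * (c * y))) := by decide
  obtain ⟨Y, -, hl, hY⟩ := key c₁ m1
  refine covA_TAB hKUM hKAP h hT (Y := Y) (by rw [hl]; norm_num) hc fun c hc => ?_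
  obtain ⟨y, hy, y0, e | e⟩ := hY c hc
  · exact ⟨y, hy, y0, Gd.of_zero (kap_two_TAB hKUM hKAP e.sq)⟩
  · exact ⟨y, hy, y0, g1.cl hKUM hKAP e.sq⟩

/-- two classes at two, positive classes at infinity -/
theorem cov2_TAB (hKUM : KUM_st) (hKAP : KAP_st) (h : Cm0 J) (hT : T ∈ Wn J 1) (hc : CC cc)
    (c₁ c₂ : ℤ) (m1 : c₁ ∈ ([3, 5, 7, 2, 6, 10, 14] : List ℤ))
    (m2 : c₂ ∈ ([3, 5, 7, 2, 6, 10, 14] : List ℤ)) (hne : c₁ ≠ c₂)
    (g1 : Gd η T (Dec (nv 2 1)) c₁) (g2 : Gd η T (Dec (nv 2 1)) c₂) : Cov η cc T 2 := by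
  have key : ∀ c₁ ∈ ([3, 5, 7, 2, 6, 10, 14] : List ℤ), ∀ c₂ ∈ ([3, 5, 7, 2, 6, 10, 14] : List ℤ),
      c₁ ≠ c₂ → c₁ ≠ 0 ∧ c₂ ≠ 0 ∧ ∃ z ∈ ([2, 3, 5] : List ℤ),
        ∀ c ∈ ([1, 3, 5, 7, 2, 6, 10, 14] : List ℤ), ∃ y ∈ [1, z], 0 < y ∧
          (Sq3 (c * y) ∨ Sq3 (c₁ * (c * y)) ∨ Sq3 (c₂ * (c * y)) ∨
            Sq3 (c₁ * c₂ * (c * y))) := by decide
  obtain ⟨n1, n2, z, -, hY⟩ := key c₁ m1 c₂ m2 hne
  refine covB_TAB hKUM hKAP h hT (Y := [1, z]) (by simp) hc fun c hc => ?_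
  obtain ⟨y, hy, y0, e | e | e | e⟩ := hY c hc
  · exact ⟨y, hy, y0, Gd.of_zero (kap_two_TAB hKUM hKAP e.sq)⟩
  · exact ⟨y, hy, y0, g1.cl hKUM hKAP e.sq⟩
  · exact ⟨y, hy, y0, g2.cl hKUM hKAP e.sq⟩
  · exact ⟨y, hy, y0, (Gd.mul hKAP h hT n1 n2 g1 g2).cl hKUM hKAP e.sq⟩

end Pool.Agent.MP_e23604_nt.R

end

section

set_option autoImplicit false

open Module Filter Topology Finset
open scoped Classical

namespace Pool.Agent.MP_e23604_nt.R

open B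
open Q (Wn dig CmI Cm0 Pre A1 Eta Jm scf St Cork Fg IdxQ basQ levQ)

theorem two_TAB0 {D : ℤ} (h : D % 8 = 1) :
    ∃ m : ℤ, m % 2 = 1 ∧ Sq2 ((2 * m) ^ 3 - 4 * D * (2 * m)) := by
  have : D % 64 = 1 ∨ D % 64 = 9 ∨ D % 64 = 17 ∨ D % 64 = 25 ∨ D % 64 = 33 ∨ D % 64 = 41 ∨
      D % 64 = 49 ∨ D % 64 = 57 := by omega
  rcases this with h | h | h | h | h | h | h | h
  · exact ⟨13, by norm_num, .of3 (by omega)⟩
  · exact ⟨9, by norm_num, .of3 (by omega)⟩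
  · exact ⟨19, by norm_num, .of3 (by omega)⟩
  · exact ⟨17, by norm_num, .of3 (by omega)⟩
  · exact ⟨11, by norm_num, .of3 (by omega)⟩
  · exact ⟨15, by norm_num, .of3 (by omega)⟩
  · exact ⟨5, by norm_num, .of3 (by omega)⟩
  · exact ⟨7, by norm_num, .of3 (by omega)⟩

theorem TAB0_pf (hPT : PT_st) (hKUM : KUM_st) (hKAP : KAP_st) (hDIC : DIC_st) : TAB0_st := by
  have _ := hDIC
  intro i δ J η D hJm hEta hD hδ T cc hT _ hc hR
  have h : Cm0 J := (Q.cm_XMod Q.scQ hJm).toCm0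
  obtain ⟨p1, p2⟩ := hPT i δ J η D hJm hEta hD hδ T hT
  have gD : ∀ H, Gd η T H (-D) := fun H => by
    have := p2.mono (le_top : H ≤ ⊤)
    unfold Gd
    rwa [Int.cast_neg]
  have gx : ∀ x : ℤ, Sq2 (x ^ 3 - 4 * D * x) → Gd η T (Dec (nv 2 1)) x := fun x hx => by
    refine p1 _ x (Int.cast_ne_zero.2 fun e => hx.ne (by rw [e]; ring)) fun g hg => ?_
    have := kap_two_TAB hKUM hKAP hx g hg
    push_cast at this
    exact this
  have g5 : D % 2 = 1 → Gd η T (Dec (nv 2 1)) 5 := fun e =>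
    (gx (-3) (.of0 (by omega))).cl hKUM hKAP (.of0 (by norm_num))
  have g1 : ∀ c : ℤ, Sq2 (-D * c) → Gd η T (Dec (nv 2 1)) c := fun c e => (gD _).cl hKUM hKAP e
  rcases hR with ⟨h0, hm⟩ | ⟨h0, hm⟩
  · have ga := Gd.all hKAP hc (d₀ := -D) (by omega) (gD _)
    simp only [mem_insert, mem_singleton] at hm
    by_cases h8 : D % 8 = 1
    · have e : lz D = 4 := if_pos ⟨h0, h8⟩
      rw [e]
      have a1 : Gd η T (Dec (nv 2 1)) 1 := Gd.of_zero (kap_two_TAB hKUM hKAP (.of0 (by norm_num)))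
      have a7 := g1 7 (.of0 (by omega))
      have a5 := g5 (by omega)
      have a3 : Gd η T (Dec (nv 2 1)) 3 :=
        (Gd.mul hKAP h hT.1 (by norm_num) (by norm_num) a7 a5).cl hKUM hKAP (.of0 (by norm_num))
      have a2 : Gd η T (Dec (nv 2 1)) 2 := by
        obtain ⟨m, hm, hs⟩ := two_TAB0 h8
        have gm : Gd η T (Dec (nv 2 1)) m := by
          have : m % 8 = 1 ∨ m % 8 = 3 ∨ m % 8 = 5 ∨ m % 8 = 7 := by omega
          rcases this with e | e | e | e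
          · exact a1.cl hKUM hKAP (.of0 (by omega))
          · exact a3.cl hKUM hKAP (.of0 (by omega))
          · exact a5.cl hKUM hKAP (.of0 (by omega))
          · exact a7.cl hKUM hKAP (.of0 (by omega))
        exact (Gd.mul hKAP h hT.1 (by omega) (by omega) (gx _ hs) gm).of_sq hKAP (s := 2 * m)
          (by omega) (by ring)
      have b : ∀ c : ℤ, c ≠ 0 → Gd η T (Dec (nv 2 1)) c → Gd η T (Dec (nv 2 1)) (2 * c) :=
        fun c c0 gc => Gd.mul hKAP h hT.1 (by norm_num) c0 a2 gc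
      refine covA_TAB hKUM hKAP h hT.1 (Y := [1]) (by norm_num) ga fun c hc =>
        ⟨1, List.mem_singleton_self _, one_pos, ?_⟩
      rw [mul_one]
      simp only [List.mem_cons, List.not_mem_nil, or_false] at hc
      rcases hc with rfl | rfl | rfl | rfl | rfl | rfl | rfl | rfl
      exacts [a1, a3, a5, a7, a2, b 3 (by norm_num) a3, b 5 (by norm_num) a5, b 7 (by norm_num) a7]
    · have e : lz D = 2 := if_neg fun e => h8 e.2
      rw [e]
      rcases hm with e | e | e | e | e | e | e | e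
      · omega
      · exact cov1_TAB hKUM hKAP h hT.1 ga 14 (by decide) (g1 _ (.of1 (by omega)))
      · exact cov1_TAB hKUM hKAP h hT.1 ga 10 (by decide) (g1 _ (.of1 (by omega)))
      · exact cov1_TAB hKUM hKAP h hT.1 ga 5 (by decide) (g5 (by omega))
      · omega
      · exact cov1_TAB hKUM hKAP h hT.1 ga 6 (by decide) (g1 _ (.of1 (by omega)))
      · exact cov1_TAB hKUM hKAP h hT.1 ga 5 (by decide) (g5 (by omega))
      · exact cov1_TAB hKUM hKAP h hT.1 ga 2 (by decide) (g1 _ (.of1 (by omega)))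
  · have e : lz D = 2 := if_neg fun e => h0.le.not_gt e.1
    rw [e]
    simp only [mem_insert, mem_singleton] at hm
    rcases hm with e | e | e | e
    · exact cov2_TAB hKUM hKAP h hT.1 hc 5 14 (by decide) (by decide) (by decide) (g5 (by omega))
        ((gx (-2) (.of2 (by omega))).cl hKUM hKAP (.of1 (by norm_num)))
    · exact cov2_TAB hKUM hKAP h hT.1 hc 5 3 (by decide) (by decide) (by decide) (g5 (by omega))
        (g1 _ (.of0 (by omega)))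
    · exact cov2_TAB hKUM hKAP h hT.1 hc 5 3 (by decide) (by decide) (by decide) (g5 (by omega))
        (g1 _ (.of0 (by omega)))
    · exact cov2_TAB hKUM hKAP h hT.1 hc 5 2 (by decide) (by decide) (by decide) (g5 (by omega))
        (gx 2 (.of2 (by omega)))

end Pool.Agent.MP_e23604_nt.R

end

section

set_option autoImplicit false

open Module Filter Topology Finset
open scoped Classical

namespace Pool.Agent.MP_e23604_nt.R

open B
open Q (Wn dig CmI Cm0 Pre A1 Eta Jm scf St Cork Fg IdxQ basQ levQ)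

theorem fix_EIDX {D : ℚ} (hD : D ≠ 0) (R : Pts (P.EE D) Qb) :
    (∀ g ∈ Dec (nv 2 1), galQ (P.EE D) g R = R) ↔ ∃ T : Pts (P.EE D) ℚ_[2],
      act (P.EE D) (emb ℚ_[2]) R =
        act (P.EE D) (algebraMap ℚ_[2] (AlgebraicClosure ℚ_[2])) T := by
  constructor
  · intro h
    refine Q.fix_XLp hD fun σ => ?_
    obtain ⟨τ, hτ⟩ := Q.liftQ.2.2 σ
    rw [← Q.gal_XStc _ hτ, h τ fun x => ?_]
    rw [nv_apply, nv_apply, AlgEquiv.one_apply, AlgEquiv.one_apply, hτ]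
    exact (spectralNorm_eq_of_equiv σ _).symm
  · rintro ⟨T, h⟩ g hg
    refine P.xCCur_ext (map_eq_zero_iff _ (BSel_act_inj _ _)) ?_ ?_
    · refine (P.px_act _ R).1.trans (Q.liftQ.2.1 g hg _ (P.px T) ?_)
      rw [← (P.px_act _ R).1, h, (P.px_act _ T).1]
    · refine (P.px_act _ R).2.trans (Q.liftQ.2.1 g hg _ (P.py T) ?_)
      rw [← (P.px_act _ R).2, h, (P.px_act _ T).2]

theorem gal_EIDX (hI : IdxQ) {D : ℤ} (hD : D ≠ 0) :
    ∃ C : ℕ, ∀ k : ℕ, ∃ cl : Pts (P.EE D) Qb → ℕ, (∀ T, cl T < C * 2 ^ k) ∧ ∀ T T',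
      (∀ g ∈ Dec (nv 2 1), galQ (P.EE D) g T = T) → (∀ g ∈ Dec (nv 2 1), galQ (P.EE D) g T' = T') →
      cl T = cl T' → ∃ S, (∀ g ∈ Dec (nv 2 1), galQ (P.EE D) g S = S) ∧ T - T' = 2 ^ k • S := by
  have hq : (D : ℚ) ≠ 0 := Int.cast_ne_zero.2 hD
  have ell := P.EE_ell hq
  have ell' : ((P.EE D).baseChange Qb).IsElliptic := inferInstanceAs ((P.EE D).map _).IsElliptic
  obtain ⟨C, hC⟩ := hI D hD
  refine ⟨C, fun k => ?_⟩
  obtain ⟨S, s1, s2⟩ := hC k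
  choose s s3 t s4 using s2
  have loc : ∀ R : Pts (P.EE D) Qb, ∃ T : Pts (P.EE D) ℚ_[2],
      (∀ g ∈ Dec (nv 2 1), galQ (P.EE D) g R = R) → act (P.EE D) (emb ℚ_[2]) R =
        act (P.EE D) (algebraMap ℚ_[2] (AlgebraicClosure ℚ_[2])) T := fun R => by
    by_cases h : ∀ g ∈ Dec (nv 2 1), galQ (P.EE D) g R = R
    · exact ((fix_EIDX hq R).1 h).imp fun _ e _ => e
    · exact ⟨0, fun h' => absurd h' h⟩
  choose L hL using loc
  refine ⟨fun R => S.equivFin ⟨s (L R), s3 _⟩, fun R => (Fin.is_lt _).trans_le s1,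
    fun R R' h h' e => ?_⟩
  have e1 : s (L R) = s (L R') := congrArg Subtype.val (S.equivFin.injective (Fin.ext e))
  obtain ⟨S₀, h0⟩ := smul_surj (W := (P.EE D).baseChange Qb) (n := 2 ^ k) (by positivity) (R - R')
  obtain ⟨U, u1, u2⟩ := Q.tors_XStc (P.EE D) (emb ℚ_[2]) (n := 2 ^ k) (by positivity)
    (act (P.EE D) (emb ℚ_[2]) S₀ -
      act (P.EE D) (algebraMap ℚ_[2] (AlgebraicClosure ℚ_[2])) (t (L R) - t (L R'))) (by
      rw [nsmul_sub, ← map_nsmul, ← map_nsmul, h0, map_sub, hL R h, hL R' h', ← map_sub, ← map_sub,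
        nsmul_sub, show L R - L R' = 2 ^ k • t (L R) - 2 ^ k • t (L R') by
          rw [sub_eq_sub_iff_sub_eq_sub, sub_eq_iff_eq_add.2 (s4 _), sub_eq_iff_eq_add.2 (s4 _), e1],
        sub_self, map_zero])
  refine ⟨S₀ - U, (fix_EIDX hq _).2 ⟨t (L R) - t (L R'), ?_⟩, ?_⟩
  · rw [map_sub (act _ (emb ℚ_[2])), u2, sub_sub_cancel]
  · rw [nsmul_sub, u1, sub_zero, h0]

theorem IDX_pf : IDX_st := by
  intro hI i δ J η D _ hη hD hδ
  have hq : (D : ℚ) ≠ 0 := Int.cast_ne_zero.2 hD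
  have h0 : δ ≠ 0 := by
    rintro rfl
    exact hD (by exact_mod_cast (hδ.symm.trans (zero_pow (by norm_num))))
  have hu : δ ^ 4 * ((1 : ℚ) : Qb) = ((D : ℚ) : Qb) := by
    rw [hδ]
    simp
  have hv : δ⁻¹ ^ 4 * ((D : ℚ) : Qb) = ((1 : ℚ) : Qb) := by
    rw [← hu, ← mul_assoc, ← mul_pow, inv_mul_cancel₀ h0, one_pow, one_mul]
  obtain ⟨a1, a2, -, -, a5⟩ := Q.scQ 1 D Qb δ one_ne_zero hq hu
  obtain ⟨-, -, b3, b4, -⟩ := Q.scQ D 1 Qb δ⁻¹ hq one_ne_zero hv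
  let ψ : A1 →+ Pts (P.EE D) Qb := AddMonoidHom.mk' (scf D δ) a1
  have inj : Function.Injective ψ :=
    (injective_iff_map_eq_zero ψ).2 fun R h => by_contra fun hR => (a2 R hR).1 h
  have sur : ∀ S, ∃ R, ψ R = S := fun S => ⟨scf 1 δ⁻¹ S, (b3 D δ hq hu S).trans (by
    rw [mul_inv_cancel₀ h0]
    exact (b4 S).1)⟩
  have eqv : ∀ g R, ψ (η g R) = galQ (P.EE D) g (ψ R) := fun g R => by
    have hg : (g δ / δ) ^ 4 * ((1 : ℚ) : Qb) = ((1 : ℚ) : Qb) := by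
      rw [div_pow, ← map_pow, hδ, map_intCast, div_self (by exact_mod_cast hD), one_mul]
    have h1 := (Q.scQ 1 1 Qb _ one_ne_zero one_ne_zero hg).2.2.1 D δ hq hu (galQ (P.EE 1) g R)
    rw [mul_div_cancel₀ _ h0] at h1
    rw [hη]
    exact h1.trans (a5 Qb (g : Qb →+* Qb) R).symm
  obtain ⟨C, hC⟩ := gal_EIDX hI hD
  refine ⟨C, fun k => ?_⟩
  obtain ⟨cl, c1, c2⟩ := hC k
  refine ⟨fun T => cl (ψ T), fun T => c1 _, fun T T' h h' e => ?_⟩
  obtain ⟨S, s1, s2⟩ := c2 _ _ (fun g hg => by rw [← eqv, h g hg])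
    (fun g hg => by rw [← eqv, h' g hg]) e
  obtain ⟨R, rfl⟩ := sur S
  exact ⟨R, fun g hg => inj (by rw [eqv, s1 g hg]), inj (by rw [map_sub, s2, map_nsmul])⟩

end Pool.Agent.MP_e23604_nt.R

end

section

set_option autoImplicit false

open Module Filter Topology Finset
open scoped Classical

namespace Pool.Agent.MP_e23604_nt.R

open B
open Q (Wn dig CmI Cm0 Pre A1 Eta Jm scf St Cork Fg IdxQ basQ levQ)

section

variable {A : Type} [AddCommGroup A] {J : A ≃ₗ[ℤ] A} {η : Act A} {T : A} {cc : GQ}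

/-- one class at two, positive classes at infinity -/
theorem cov1_FTAB2 (hKUM : KUM_st) (hKAP : KAP_st) (h : Cm0 J) (hT : T ∈ Wn J 1) (hc : CC cc)
    (c₁ : ℤ) (m1 : c₁ ∈ ([3, 5, 7, 2, 6, 10, 14] : List ℤ)) (g1 : Gd η T (Dec (nv 2 1)) c₁) :
    Cov η cc T 1 := by
  have key : ∀ c₁ ∈ ([3, 5, 7, 2, 6, 10, 14] : List ℤ),
      ∃ Y ∈ ([[1, 3, 5, 7], [1, 5, 2, 10], [1, 3, 2, 6]] : List (List ℤ)), Y.length = 4 ∧
        ∀ c ∈ ([1, 3, 5, 7, 2, 6, 10, 14] : List ℤ), ∃ y ∈ Y, 0 < y ∧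
          (Sq3 (c * y) ∨ Sq3 (c₁ * (c * y))) := by decide
  obtain ⟨Y, -, hl, hY⟩ := key c₁ m1
  refine covB_TAB hKUM hKAP h hT (Y := Y) (by rw [hl]; norm_num) hc fun c hc => ?_
  obtain ⟨y, hy, y0, e | e⟩ := hY c hc
  · exact ⟨y, hy, y0, Gd.of_zero (kap_two_TAB hKUM hKAP e.sq)⟩
  · exact ⟨y, hy, y0, g1.cl hKUM hKAP e.sq⟩

/-- two classes at two, no condition at infinity -/
theorem cov2_FTAB2 (hKUM : KUM_st) (hKAP : KAP_st) (h : Cm0 J) (hT : T ∈ Wn J 1)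
    (hc : ∀ d, d ≠ 0 → Gd η T (Subgroup.zpowers cc) d)
    (c₁ c₂ : ℤ) (m1 : c₁ ∈ ([3, 5, 7, 2, 6, 10, 14] : List ℤ))
    (m2 : c₂ ∈ ([3, 5, 7, 2, 6, 10, 14] : List ℤ)) (hne : c₁ ≠ c₂)
    (g1 : Gd η T (Dec (nv 2 1)) c₁) (g2 : Gd η T (Dec (nv 2 1)) c₂) : Cov η cc T 3 := by
  have key : ∀ c₁ ∈ ([3, 5, 7, 2, 6, 10, 14] : List ℤ), ∀ c₂ ∈ ([3, 5, 7, 2, 6, 10, 14] : List ℤ),
      c₁ ≠ c₂ → c₁ ≠ 0 ∧ c₂ ≠ 0 ∧ ∃ z ∈ ([2, 3, 5] : List ℤ),
        ∀ c ∈ ([1, 3, 5, 7, 2, 6, 10, 14] : List ℤ), ∃ y ∈ [1, z], 0 < y ∧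
          (Sq3 (c * y) ∨ Sq3 (c₁ * (c * y)) ∨ Sq3 (c₂ * (c * y)) ∨
            Sq3 (c₁ * c₂ * (c * y))) := by decide
  obtain ⟨n1, n2, z, -, hY⟩ := key c₁ m1 c₂ m2 hne
  refine covA_TAB hKUM hKAP h hT (Y := [1, z]) (by simp) hc fun c hc => ?_
  obtain ⟨y, hy, y0, e | e | e | e⟩ := hY c hc
  · exact ⟨y, hy, y0, Gd.of_zero (kap_two_TAB hKUM hKAP e.sq)⟩
  · exact ⟨y, hy, y0, g1.cl hKUM hKAP e.sq⟩
  · exact ⟨y, hy, y0, g2.cl hKUM hKAP e.sq⟩
  · exact ⟨y, hy, y0, (Gd.mul hKAP h hT n1 n2 g1 g2).cl hKUM hKAP e.sq⟩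

end

theorem TAB2_pf (hPT : PT_st) (hKUM : KUM_st) (hKAP : KAP_st) (hDIC : DIC_st) : TAB2_st := by
  have _ := hDIC
  intro i δ J η D hJm hEta hD hδ T cc hT _ hc hR
  have h : Cm0 J := (Q.cm_XMod Q.scQ hJm).toCm0
  obtain ⟨p1, p2⟩ := hPT i δ J η D hJm hEta hD hδ T hT
  have gD : ∀ H, Gd η T H (-D) := fun H => by
    have := p2.mono (le_top : H ≤ ⊤)
    unfold Gd
    rwa [Int.cast_neg]
  have gx : ∀ x : ℤ, Sq2 (x ^ 3 - 4 * D * x) → Gd η T (Dec (nv 2 1)) x := fun x hx => by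
    refine p1 _ x (Int.cast_ne_zero.2 fun e => hx.ne (by rw [e]; ring)) fun g hg => ?_
    have := kap_two_TAB hKUM hKAP hx g hg
    push_cast at this
    exact this
  have g5 : D % 2 = 1 → Gd η T (Dec (nv 2 1)) 5 := fun e =>
    (gx (-3) (.of0 (by omega))).cl hKUM hKAP (.of0 (by norm_num))
  have g1 : ∀ c : ℤ, Sq2 (-D * c) → Gd η T (Dec (nv 2 1)) c := fun c e => (gD _).cl hKUM hKAP e
  obtain ⟨h4, hR⟩ := hR
  simp only [Rt, mem_insert, mem_singleton] at hR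
  rcases hD.lt_or_gt with h0 | h0
  · by_cases h8 : D % 8 = 1
    · have e : lo D = 3 := if_pos (Or.inr h8)
      rw [e]
      have a1 : Gd η T (Dec (nv 2 1)) 1 := Gd.of_zero (kap_two_TAB hKUM hKAP (.of0 (by norm_num)))
      have a7 := g1 7 (.of0 (by omega))
      have a5 := g5 (by omega)
      have a3 : Gd η T (Dec (nv 2 1)) 3 :=
        (Gd.mul hKAP h hT.1 (by norm_num) (by norm_num) a7 a5).cl hKUM hKAP (.of0 (by norm_num))
      have a2 : Gd η T (Dec (nv 2 1)) 2 := by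
        obtain ⟨m, hm, hs⟩ := two_TAB0 h8
        have gm : Gd η T (Dec (nv 2 1)) m := by
          have : m % 8 = 1 ∨ m % 8 = 3 ∨ m % 8 = 5 ∨ m % 8 = 7 := by omega
          rcases this with e | e | e | e
          · exact a1.cl hKUM hKAP (.of0 (by omega))
          · exact a3.cl hKUM hKAP (.of0 (by omega))
          · exact a5.cl hKUM hKAP (.of0 (by omega))
          · exact a7.cl hKUM hKAP (.of0 (by omega))
        exact (Gd.mul hKAP h hT.1 (by omega) (by omega) (gx _ hs) gm).of_sq hKAP (s := 2 * m)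
          (by omega) (by ring)
      have b : ∀ c : ℤ, c ≠ 0 → Gd η T (Dec (nv 2 1)) c → Gd η T (Dec (nv 2 1)) (2 * c) :=
        fun c c0 gc => Gd.mul hKAP h hT.1 (by norm_num) c0 a2 gc
      refine covB_TAB hKUM hKAP h hT.1 (Y := [1]) (by norm_num) hc fun c hc =>
        ⟨1, List.mem_singleton_self _, one_pos, ?_⟩
      rw [mul_one]
      simp only [List.mem_cons, List.not_mem_nil, or_false] at hc
      rcases hc with rfl | rfl | rfl | rfl | rfl | rfl | rfl | rfl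
      exacts [a1, a3, a5, a7, a2, b 3 (by norm_num) a3, b 5 (by norm_num) a5, b 7 (by norm_num) a7]
    · have e : lo D = 1 := if_neg (by omega)
      rw [e]
      obtain e | e | e | e | e | e : D % 16 = 2 ∨ D % 16 = 6 ∨ D % 16 = 7 ∨ D % 16 = 10 ∨
        D % 16 = 11 ∨ D % 16 = 14 := by omega
      · exact cov1_FTAB2 hKUM hKAP h hT.1 hc 14 (by decide) (g1 _ (.of1 (by omega)))
      · exact cov1_FTAB2 hKUM hKAP h hT.1 hc 10 (by decide) (g1 _ (.of1 (by omega)))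
      · exact cov1_FTAB2 hKUM hKAP h hT.1 hc 5 (by decide) (g5 (by omega))
      · exact cov1_FTAB2 hKUM hKAP h hT.1 hc 6 (by decide) (g1 _ (.of1 (by omega)))
      · exact cov1_FTAB2 hKUM hKAP h hT.1 hc 5 (by decide) (g5 (by omega))
      · exact cov1_FTAB2 hKUM hKAP h hT.1 hc 2 (by decide) (g1 _ (.of1 (by omega)))
  · have ga := Gd.all hKAP hc (d₀ := -D) (by omega) (gD _)
    have e : lo D = 3 := if_pos (Or.inl h0)
    rw [e]
    obtain e | e | e | e : D % 16 = 3 ∨ D % 16 = 5 ∨ D % 16 = 13 ∨ D % 16 = 15 := by omega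
    · exact cov2_FTAB2 hKUM hKAP h hT.1 ga 5 14 (by decide) (by decide) (by decide) (g5 (by omega))
        ((gx (-2) (.of2 (by omega))).cl hKUM hKAP (.of1 (by norm_num)))
    · exact cov2_FTAB2 hKUM hKAP h hT.1 ga 5 3 (by decide) (by decide) (by decide) (g5 (by omega))
        (g1 _ (.of0 (by omega)))
    · exact cov2_FTAB2 hKUM hKAP h hT.1 ga 5 3 (by decide) (by decide) (by decide) (g5 (by omega))
        (g1 _ (.of0 (by omega)))
    · exact cov2_FTAB2 hKUM hKAP h hT.1 ga 5 2 (by decide) (by decide) (by decide) (g5 (by omega))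
        (gx 2 (.of2 (by omega)))

end Pool.Agent.MP_e23604_nt.R

end

section

namespace Pool.Agent.MP_e23604_nt.Q

open Finset Filter NumberField
open MP_f68ac8_nt.Zq (Mx sg)
open MP_f68ac8_nt.Zk (Cp Yw rr NS brL)
open MP_f68ac8_nt.Nd (Lr Rcp GenQ Trm)
open scoped BigOperators Topology

section
variable {V : Type} [AddCommGroup V] {J : V ≃ₗ[ℤ] V} {m : ℕ}

theorem mem_XFil {k : ℕ} {g : Pm J m} : g ∈ Fk J m k ↔
    g.1 0 ∈ Wn J (m + 1 - k) ∧ ∀ n, ∀ u ∈ Wn J n, g.1.linear u - u ∈ Wn J (n - k) := Iff.rfl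

theorem lie_XFil (mono : ∀ a b, a ≤ b → Wn J a ≤ Wn J b) {a b n : ℕ} {g h : Pm J m}
    (hg : g ∈ Fk J m a) (hh : h ∈ Fk J m b) {t : V} (ht : t ∈ Wn J n) :
    g.1.linear (h.1.linear t) - h.1.linear (g.1.linear t) ∈ Wn J (n - (a + b)) := by
  have e : g.1.linear (h.1.linear t) - h.1.linear (g.1.linear t) =
      (g.1.linear (h.1.linear t - t) - (h.1.linear t - t)) -
        (h.1.linear (g.1.linear t - t) - (g.1.linear t - t)) := by
    simp only [map_sub]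
    abel
  rw [e]
  exact sub_mem (mono _ _ (by omega) (hg.2 _ _ (hh.2 _ _ ht)))
    (mono _ _ (by omega) (hh.2 _ _ (hg.2 _ _ ht)))

open scoped commutatorElement in
theorem comm_XFil (mono : ∀ a b, a ≤ b → Wn J a ≤ Wn J b) {a b : ℕ} {g h : Pm J m}
    (hg : g ∈ Fk J m a) (hh : h ∈ Fk J m b) : ⁅g, h⁆ ∈ Fk J m (a + b) := by
  have e0 : ⁅g, h⁆ = g * h * (h * g)⁻¹ := by
    rw [commutatorElement_def]
    group
  rw [e0]
  refine mem_XFil.2 ⟨?_, fun n u hu => ?_⟩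
  · obtain ⟨y, hy⟩ : ∃ y, y = ((h * g)⁻¹ : Pm J m).1 0 := ⟨_, rfl⟩
    have hy1 : y ∈ Wn J m := hy ▸ ((h * g)⁻¹ : Pm J m).2.2
    have hy2 : h.1 (g.1 y) = 0 := by
      rw [hy]
      exact (h.1 * g.1).apply_symm_apply 0
    change g.1 (h.1 (((h * g)⁻¹ : Pm J m).1 0)) ∈ _
    rw [← hy]
    have e : g.1 (h.1 y) = (g.1.linear (h.1.linear y) - h.1.linear (g.1.linear y)) +
        (g.1.linear (h.1 0) - h.1 0) - (h.1.linear (g.1 0) - g.1 0) := by
      rw [aff_apply h.1, aff_apply g.1 y, map_add] at hy2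
      rw [aff_apply g.1, aff_apply h.1 y, map_add]
      rw [← sub_eq_zero]
      refine Eq.trans ?_ hy2
      abel
    rw [e]
    exact sub_mem (add_mem (mono _ _ (by omega) (lie_XFil mono hg hh hy1))
      (mono _ _ (by omega) (hg.2 _ _ hh.1))) (mono _ _ (by omega) (hh.2 _ _ hg.1))
  · obtain ⟨t, ht⟩ : ∃ t, t = ((h * g)⁻¹ : Pm J m).1.linear u := ⟨_, rfl⟩
    have ht1 : t ∈ Wn J n := ht ▸ (((h * g)⁻¹ : Pm J m).2.1 n u).2 hu
    have ht2 : h.1.linear (g.1.linear t) = u := by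
      rw [ht]
      exact lin_inv (h.1 * g.1) u
    change g.1.linear (h.1.linear (((h * g)⁻¹ : Pm J m).1.linear u)) - u ∈ _
    rw [← ht, ← ht2]
    exact lie_XFil mono hg hh ht1

theorem sq_XFil (mono : ∀ a b, a ≤ b → Wn J a ≤ Wn J b)
    (two : ∀ n u, 2 • u ∈ Wn J n ↔ u ∈ Wn J (n + 2)) {k : ℕ} (hk : 1 ≤ k) {g : Pm J m}
    (hg : g ∈ Fk J m k) : g * g ∈ Fk J m (k + 1) := by
  refine mem_XFil.2 ⟨?_, fun n u hu => ?_⟩
  · change g.1 (g.1 0) ∈ _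
    have e : g.1 (g.1 0) = (g.1.linear (g.1 0) - g.1 0) + 2 • g.1 0 := by
      rw [aff_apply g.1 (g.1 0)]
      abel
    rw [e]
    exact add_mem (mono _ _ (by omega) (hg.2 _ _ hg.1)) ((two _ _).2 (mono _ _ (by omega) hg.1))
  · change g.1.linear (g.1.linear u) - u ∈ _
    have e : g.1.linear (g.1.linear u) - u =
        (g.1.linear (g.1.linear u - u) - (g.1.linear u - u)) + 2 • (g.1.linear u - u) := by
      rw [map_sub]
      abel
    rw [e]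
    exact add_mem (mono _ _ (by omega) (hg.2 _ _ (hg.2 _ _ hu)))
      ((two _ _).2 (mono _ _ (by omega) (hg.2 _ _ hu)))

theorem rot0_XFil (v y : V) : rot0 J v y = J (y - v) + v := by
  change v + J (-v + y) = _
  rw [add_comm, neg_add_eq_sub]

theorem rot0_lin_XFil (v : V) : (rot0 J v).linear = J := by
  ext u
  have h := aff_apply (rot0 J v) u
  rw [rot0_XFil, rot0_XFil, map_sub, zero_sub, map_neg] at h
  have h2 : (rot0 J v).linear u = J u - J v + v - (-J v + v) := eq_sub_of_add_eq h.symm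
  rw [h2]
  abel

end

theorem filQ (hBasQ : BasQ) : FilQ := by
  intro V _ J hJ m
  obtain ⟨mono, bot, hom, hJJ, two, -, hpre, -⟩ := hBasQ V J hJ
  have top : Fk J m 1 = ⊤ := by
    refine eq_top_iff.2 fun g _ => mem_XFil.2 ⟨g.2.2, fun n u hu => ?_⟩
    rcases n with _ | n
    · rw [bot] at hu
      rw [(Submodule.mem_bot ℤ).1 hu, map_zero, sub_zero]
      exact zero_mem _
    · exact (hpre _ g.2.1).1 n u hu
  refine ⟨⟨fun i j _ hij g hg => mem_XFil.2 ⟨mono _ _ (by omega) hg.1, fun n u hu =>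
    mono _ _ (by omega) (hg.2 n u hu)⟩, fun a b _ _ g hg h hh => comm_XFil mono hg hh⟩, top,
    fun k c hc y hy => ?_, fun v hv => ?_, fun N hN => ⟨N + m, fun g => ?_⟩⟩
  · have e : c.1 y - y = (c.1.linear y - y) + c.1 0 := by
      rw [aff_apply c.1 y]
      abel
    rw [e]
    exact add_mem (hc.2 _ _ hy) hc.1
  · have hm : rot0 J v ∈ Pm J m := by
      refine ⟨by rw [rot0_lin_XFil]; exact hJJ, ?_⟩
      have e : rot0 J v 0 = -om J v := by
        rw [rot0_XFil, zero_sub, map_neg]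
        change _ = -(J v - v)
        abel
      rw [e]
      exact neg_mem ((hom _ _).2 hv)
    have e : (rot J m v).1 = rot0 J v := by rw [rot, dif_pos hm]
    rw [e]
    exact ⟨rot0_XFil v, rot0_lin_XFil v⟩
  · have hk : ∀ K, g ^ 2 ^ K ∈ Fk J m (K + 1) := by
      intro K
      induction K with
      | zero => rw [zero_add, top]; exact Subgroup.mem_top _
      | succ K ih =>
        rw [pow_succ, pow_mul, pow_two]
        exact sq_XFil mono two (by omega) ih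
    obtain ⟨h1, h2⟩ := mem_XFil.1 (hk (N + m))
    refine Subtype.ext (AffineEquiv.ext fun y => ?_)
    have h3 := h2 N y (hN y)
    rw [show m + 1 - (N + m + 1) = 0 by omega, bot] at h1
    rw [show N - (N + m + 1) = 0 by omega, bot] at h3
    rw [aff_apply, (Submodule.mem_bot ℤ).1 h1, add_zero, sub_eq_zero.1 ((Submodule.mem_bot ℤ).1 h3)]
    rfl

end Pool.Agent.MP_e23604_nt.Q

end

section

namespace Pool.Agent.MP_e23604_nt.Q

open Finset P Polynomial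
open scoped Classical

theorem n2_XIdx : ‖(2 : ℚ_[2])‖ = 1 / 2 := by
  have h := Padic.norm_p (p := 2)
  rw [one_div]
  exact_mod_cast h

theorem lt_XIdx {a : ℚ_[2]} {n : ℕ} (h : ‖a‖ < (1 / 2) ^ n) : ‖a‖ ≤ (1 / 2) ^ (n + 1) := by
  have h1 := (Padic.norm_le_pow_iff_norm_lt_pow_add_one a (-(n + 1 : ℕ))).2 (by
    rw [show (-((n + 1 : ℕ) : ℤ) + 1) = -(n : ℤ) by push_cast; ring, zpow_neg, zpow_natCast]
    simpa using h)
  rw [zpow_neg, zpow_natCast] at h1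
  simpa using h1

theorem sub_XIdx (a b : ℚ_[2]) {c : ℝ} (ha : ‖a‖ ≤ c) (hb : ‖b‖ ≤ c) : ‖a - b‖ ≤ c := by
  rw [sub_eq_add_neg]
  exact (Padic.nonarchimedean _ _).trans (max_le ha (by rwa [norm_neg]))

theorem add_XIdx (a b : ℚ_[2]) {c : ℝ} (ha : ‖a‖ ≤ c) (hb : ‖b‖ ≤ c) : ‖a + b‖ ≤ c :=
  (Padic.nonarchimedean _ _).trans (max_le ha hb)

theorem eq_XIdx {a b : ℚ_[2]} (h : ‖b‖ < ‖a‖) : ‖a + b‖ = ‖a‖ := by
  rw [Padic.add_eq_max_of_ne h.ne', max_eq_left h.le]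

theorem unit_XIdx {c : ℚ_[2]} (h : ‖c‖ = 1) : ‖c - 1‖ < 1 := by
  let z : ℤ_[2] := ⟨c, h.le⟩
  have h1 := PadicInt.sub_zmodRepr_mem z
  have h2 := PadicInt.zmodRepr_lt_p z
  rw [IsLocalRing.mem_maximalIdeal, PadicInt.mem_nonunits] at h1
  generalize z.zmodRepr = k at h1 h2
  interval_cases k
  · rw [Nat.cast_zero, sub_zero] at h1
    exact absurd h h1.ne
  · rw [Nat.cast_one] at h1
    exact h1

theorem two_XIdx {a b : ℚ_[2]} {n : ℕ} (ha : ‖a‖ ≤ (1 / 2) ^ n) (hb : ‖b‖ ≤ (1 / 2) ^ n)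
    (ha' : ¬ ‖a‖ ≤ (1 / 2) ^ (n + 1)) (hb' : ¬ ‖b‖ ≤ (1 / 2) ^ (n + 1)) :
    ‖a - b‖ ≤ (1 / 2) ^ (n + 1) := by
  have h1 : ‖a‖ = (1 / 2) ^ n := ha.antisymm (not_lt.1 fun h => ha' (lt_XIdx h))
  have h2 : ‖b‖ = (1 / 2) ^ n := hb.antisymm (not_lt.1 fun h => hb' (lt_XIdx h))
  have h3 : (0 : ℝ) < (1 / 2) ^ n := by positivity
  have h4 : b ≠ 0 := norm_pos_iff.1 (h2 ▸ h3)
  have h5 := unit_XIdx (c := a / b) (by rw [norm_div, h1, h2, div_self h3.ne'])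
  refine lt_XIdx ?_
  rw [show a - b = (a / b - 1) * b by field_simp, norm_mul, h2]
  exact mul_lt_of_lt_one_left h3 h5

theorem sq_XIdx {c : ℚ_[2]} (h : ‖c - 1‖ < 1 / 4) :
    ∃ s : ℚ_[2], s ^ 2 = c ∧ ‖s - 1‖ = 2 * ‖c - 1‖ ∧ ‖s + 1‖ = 1 / 2 ∧ ‖s‖ = 1 := by
  have hc : ‖c‖ ≤ 1 := by
    rw [show c = 1 + (c - 1) by ring]
    exact add_XIdx _ _ norm_one.le (by linarith)
  let z : ℤ_[2] := ⟨c, hc⟩
  have e2 : ‖(2 : ℤ_[2])‖ = 1 / 2 := n2_XIdx
  have hd : (derivative (X ^ 2 - C z : ℤ_[2][X])).aeval (1 : ℤ_[2]) = 2 := by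
    simp [one_add_one_eq_two]
  obtain ⟨s, h1, h2, -⟩ := hensels_lemma (F := (X ^ 2 - C z : ℤ_[2][X])) (a := 1) (by
    rw [hd, e2]
    simp only [map_sub, map_pow, aeval_X, aeval_C, one_pow]
    rw [norm_sub_rev]
    exact lt_of_lt_of_eq h (by norm_num))
  rw [hd, e2] at h2
  simp only [map_sub, map_pow, aeval_X, aeval_C] at h1
  have h3 : (s : ℚ_[2]) ^ 2 = c := congrArg (fun t : ℤ_[2] => (t : ℚ_[2])) (sub_eq_zero.1 h1)
  have h4 : ‖(s : ℚ_[2]) - 1‖ < 1 / 2 := h2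
  have h5 : ‖(s : ℚ_[2]) + 1‖ = 1 / 2 := by
    rw [show (s : ℚ_[2]) + 1 = 2 + (s - 1) by ring, eq_XIdx (by rwa [n2_XIdx]), n2_XIdx]
  refine ⟨s, h3, ?_, h5, ?_⟩
  · rw [← h3, show (s : ℚ_[2]) ^ 2 - 1 = (s - 1) * (s + 1) by ring, norm_mul, h5]
    ring
  · rw [show (s : ℚ_[2]) = 1 + (s - 1) by ring, eq_XIdx (by rw [norm_one]; linarith), norm_one]

variable {D : ℤ}

/-- the absolute value -/
noncomputable abbrev v_XIdx : AbsoluteValue ℚ_[2] ℝ := NormedField.toAbsoluteValue ℚ_[2]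

/-- neighbourhoods of the origin -/
def U_XIdx (n : ℕ) (T : Pts (EE D) ℚ_[2]) : Prop := B.E1 v_XIdx T ∧ ‖B.zz T‖ ≤ (1 / 2) ^ n

theorem na_XIdx : IsNonarchimedean v_XIdx := fun a b => Padic.nonarchimedean a b

theorem nD_XIdx : ‖((D : ℚ) : ℚ_[2])‖ ≤ 1 := by
  rw [Rat.cast_intCast]
  exact Padic.norm_int_le_one D

theorem intg_XIdx : B.Intg v_XIdx ((EE D).baseChange ℚ_[2]) := by
  refine ⟨?_, ?_, ?_, ?_, ?_⟩
  · rw [show ((EE D).baseChange ℚ_[2]).a₁ = 0 from xCCur_a₁, map_zero]; exact zero_le_one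
  · rw [show ((EE D).baseChange ℚ_[2]).a₂ = 0 from xCCur_a₂, map_zero]; exact zero_le_one
  · rw [show ((EE D).baseChange ℚ_[2]).a₃ = 0 from xCCur_a₃, map_zero]; exact zero_le_one
  · rw [show ((EE D).baseChange ℚ_[2]).a₄ = _ from xCCur_a₄]; exact nD_XIdx
  · rw [show ((EE D).baseChange ℚ_[2]).a₆ = 0 from xCCur_a₆, map_zero]; exact zero_le_one

theorem pt_XIdx (hD : (D : ℚ) ≠ 0) {x y : ℚ_[2]} (h : y ^ 2 = x ^ 3 + (D : ℚ) * x) :
    (B.E1 v_XIdx (pt2 D x y) ↔ 1 < ‖x‖) ∧ (1 < ‖x‖ → ‖B.zz (pt2 D x y)‖ ^ 2 * ‖x‖ = 1) := by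
  rw [xCCur_pt hD h]
  refine ⟨Iff.rfl, fun hx => ?_⟩
  have h1 : ‖y‖ ^ 2 = ‖x‖ ^ 3 := B.E1_xy na_XIdx intg_XIdx ((xCCur_eqn x y).2 h) hx
  rw [B.zz_some, norm_div, norm_neg, div_pow, h1]
  field_simp

theorem half_XIdx (hD : (D : ℚ) ≠ 0) {n : ℕ} {T : Pts (EE D) ℚ_[2]} (hT : U_XIdx (n + 2) T) :
    ∃ R, U_XIdx (n + 1) R ∧ T = 2 • R := by
  rcases pt2_cases hD T with rfl | ⟨x, y, h, rfl⟩
  · exact ⟨0, ⟨trivial, by simp⟩, by simp⟩
  have hx1 := (pt_XIdx hD h).1.1 hT.1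
  have hz := (pt_XIdx hD h).2 hx1
  set ζ := ‖B.zz (pt2 (D : ℚ) x y)‖
  have hζ : 0 ≤ ζ := norm_nonneg _
  have hp : ((1 : ℝ) / 2) ^ n ≤ 1 := pow_le_one₀ (by norm_num) (by norm_num)
  have hp0 : (0 : ℝ) < (1 / 2) ^ n := by positivity
  have hζ1 : ζ ≤ (1 / 2) ^ n / 4 := hT.2.trans (le_of_eq (by ring))
  have hζ2 : ζ ^ 2 ≤ 1 / 16 := by nlinarith
  have hx : 16 ≤ ‖x‖ := by nlinarith
  have hx0 : x ≠ 0 := norm_pos_iff.1 (by linarith)
  have hn := nD_XIdx (D := D)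
  set d : ℚ_[2] := ((D : ℚ) : ℚ_[2])
  have h1 : ‖1 + d / x ^ 2 - 1‖ ≤ 1 / 256 := by
    rw [add_sub_cancel_left, norm_div, norm_pow, div_le_iff₀ (by positivity)]
    nlinarith
  obtain ⟨r, r1, r2, -, r4⟩ := sq_XIdx (c := 1 + d / x ^ 2) (by linarith)
  obtain ⟨s, s1, -, s3, s4⟩ := sq_XIdx (c := (1 + r) / 2) (by
    rw [show (1 + r) / 2 - 1 = (r - 1) / 2 by ring, norm_div, n2_XIdx, r2]
    linarith)
  have hr0 : r ≠ 0 := norm_pos_iff.1 (by rw [r4]; exact one_pos)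
  have hs0 : s ≠ 0 := norm_pos_iff.1 (by rw [s4]; exact one_pos)
  have hs1 : s + 1 ≠ 0 := norm_pos_iff.1 (by rw [s3]; norm_num)
  obtain ⟨a, ha⟩ : ∃ a, a = y / (x * r) := ⟨_, rfl⟩
  have hd : d = x ^ 2 * (r ^ 2 - 1) := by
    rw [r1]
    field_simp
    ring
  have ha2 : a ^ 2 = x := by
    rw [ha, div_pow, h, hd]
    field_simp
    ring
  have ha0 : a ≠ 0 := fun e => hx0 (by rw [← ha2, e]; ring)
  have hr : r = 2 * s ^ 2 - 1 := by rw [s1]; ring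
  have hy : y = a ^ 3 * r := by
    rw [show a ^ 3 = a * a ^ 2 by ring, ha2, ha]
    field_simp
  have hu : (4 * a ^ 3 * s ^ 2 * (s + 1)) ^ 2 =
      (2 * a ^ 2 * s * (s + 1)) ^ 3 + d * (2 * a ^ 2 * s * (s + 1)) := by
    rw [hd, ← ha2, hr]
    ring
  have hw : 4 * a ^ 3 * s ^ 2 * (s + 1) ≠ 0 := by simp [ha0, hs0, hs1]
  have hnu : ‖2 * a ^ 2 * s * (s + 1)‖ = ‖x‖ / 4 := by
    rw [ha2, norm_mul, norm_mul, norm_mul, n2_XIdx, s3, s4]
    ring
  have hu1 : 1 < ‖2 * a ^ 2 * s * (s + 1)‖ := by linarith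
  refine ⟨pt2 D _ _, ⟨(pt_XIdx hD hu).1.2 hu1, ?_⟩, ?_⟩
  · have h2 := (pt_XIdx hD hu).2 hu1
    rw [hnu] at h2
    refine (pow_le_pow_iff_left₀ (norm_nonneg _) (by positivity) two_ne_zero).1 ?_
    have h3 : ζ ^ 2 ≤ ((1 / 2) ^ n / 4) ^ 2 := pow_le_pow_left₀ hζ hζ1 2
    have h4 : (((1 : ℝ) / 2) ^ (n + 1)) ^ 2 = 4 * ((1 / 2) ^ n / 4) ^ 2 := by ring
    rw [h4]
    nlinarith
  · rw [two_nsmul]
    refine (pt2_add_self hD (l := a * (2 * s + 1)) hu hw ?_ ?_ ?_).2.symm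
    · change _ = _ + d
      rw [hd, ← ha2, hr]
      ring
    · rw [← ha2]
      ring
    · rw [hy, ← ha2, hr]
      ring

theorem pow_XIdx (hD : (D : ℚ) ≠ 0) (k : ℕ) : ∀ (n : ℕ) (T : Pts (EE D) ℚ_[2]),
    U_XIdx (n + k + 1) T → ∃ R, T = 2 ^ k • R := by
  induction k with
  | zero => exact fun _ T _ => ⟨T, by simp⟩
  | succ k ih =>
    intro n T hT
    obtain ⟨R, h1, rfl⟩ := half_XIdx hD (n := n + k) hT
    obtain ⟨R', rfl⟩ := ih n R h1
    exact ⟨R', by rw [smul_smul, pow_succ']⟩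

theorem step_XIdx {n : ℕ} {T T' : Pts (EE D) ℚ_[2]} (h : U_XIdx (n + 1) T)
    (h' : U_XIdx (n + 1) T') (a : ¬ U_XIdx (n + 2) T) (a' : ¬ U_XIdx (n + 2) T') :
    U_XIdx (n + 2) (T - T') := by
  obtain ⟨b1, b2⟩ := B.E1_neg na_XIdx intg_XIdx h'.1
  obtain ⟨c1, c2⟩ := B.E1_add na_XIdx intg_XIdx h.1 b1
  have hp : ((1 : ℝ) / 2) ^ n ≤ 1 := pow_le_one₀ (by norm_num) (by norm_num)
  have hp0 : (0 : ℝ) < (1 / 2) ^ n := by positivity
  have k1 : ∀ t : ℝ, 0 ≤ t → t ≤ (1 / 2) ^ (n + 1) → t ^ 2 ≤ (1 / 2) ^ (n + 2) := fun t t0 t1 => by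
    refine (pow_le_pow_left₀ t0 t1 2).trans ?_
    rw [show (((1 : ℝ) / 2) ^ (n + 1)) ^ 2 = (1 / 2) ^ n * (1 / 2) ^ (n + 2) by ring]
    exact mul_le_of_le_one_left (by positivity) hp
  have k2 : ((1 : ℝ) / 2) ^ (n + 2) ≤ (1 / 2) ^ (n + 1) :=
    pow_le_pow_of_le_one (by norm_num) (by norm_num) (by omega)
  have b3 : ‖B.zz (-T') + B.zz T'‖ ≤ (1 / 2) ^ (n + 2) := b2.trans (k1 _ (v_XIdx.nonneg _) h'.2)
  have b4 : ‖B.zz (-T')‖ ≤ (1 / 2) ^ (n + 1) := by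
    rw [← add_sub_cancel_right (B.zz (-T')) (B.zz T')]
    exact sub_XIdx _ _ (b3.trans k2) h'.2
  have c3 : ‖B.zz (T + -T') - B.zz T - B.zz (-T')‖ ≤ (1 / 2) ^ (n + 2) :=
    c2.trans (k1 _ (le_max_of_le_left (v_XIdx.nonneg _)) (max_le h.2 b4))
  rw [sub_eq_add_neg]
  refine ⟨c1, ?_⟩
  rw [show B.zz (T + -T') = (B.zz (T + -T') - B.zz T - B.zz (-T')) + (B.zz (-T') + B.zz T') +
    (B.zz T - B.zz T') by ring]
  exact add_XIdx _ _ (add_XIdx _ _ c3 b3)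
    (two_XIdx h.2 h'.2 (fun e => a ⟨h.1, e⟩) fun e => a' ⟨h'.1, e⟩)

theorem near_XIdx (hD : (D : ℚ) ≠ 0) {x y x' y' : ℚ_[2]} (h : y ^ 2 = x ^ 3 + (D : ℚ) * x)
    (h' : y' ^ 2 = x' ^ 3 + (D : ℚ) * x') (hx : ‖x‖ ≤ 1) (hx' : ‖x'‖ ≤ 1) {ε : ℝ}
    (hε : ε < ‖8 * ((D : ℚ) : ℚ_[2]) ^ 2‖) (e1 : ‖x - x'‖ ≤ ε) (e2 : ‖y - y'‖ ≤ ε) :
    B.E1 v_XIdx (pt2 (D : ℚ) x y - pt2 D x' y') := by
  have hn := nD_XIdx (D := D)
  have hy : ‖y‖ ≤ 1 := B.y_le na_XIdx intg_XIdx ((xCCur_eqn x y).2 h) hx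
  have hi : ∀ z : ℤ, ‖(z : ℚ_[2])‖ ≤ 1 := Padic.norm_int_le_one
  have mul : ∀ a b : ℚ_[2], ‖a‖ ≤ 1 → ‖b‖ ≤ ε → ‖a * b‖ ≤ ε := fun a b ha hb => by
    rw [norm_mul]
    exact (mul_le_of_le_one_left (norm_nonneg _) ha).trans hb
  have mul1 : ∀ a b : ℚ_[2], ‖a‖ ≤ 1 → ‖b‖ ≤ 1 → ‖a * b‖ ≤ 1 := fun a b ha hb => by
    rw [norm_mul]
    exact mul_le_one₀ ha (norm_nonneg _) hb
  set d : ℚ_[2] := ((D : ℚ) : ℚ_[2])
  have key : ∀ l : ℚ_[2], l * (x - x') = y + y' → l * (y - y') = x ^ 2 + x * x' + x' ^ 2 + d →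
      1 < ‖l ^ 2 - x - x'‖ := fun l l1 l2 => by
    by_cases hl : ‖l‖ ≤ 1
    · exfalso
      have a1 : ‖2 * y‖ ≤ ε := by
        rw [show 2 * y = l * (x - x') + (y - y') by rw [l1]; ring]
        exact add_XIdx _ _ (mul _ _ hl e1) e2
      have a2 : ‖3 * x ^ 2 + d‖ ≤ ε := by
        rw [show 3 * x ^ 2 + d = l * (y - y') + (x + x + x') * (x - x') by rw [l2]; ring]
        exact add_XIdx _ _ (mul _ _ hl e2) (mul _ _ (add_XIdx _ _ (add_XIdx _ _ hx hx) hx') e1)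
      refine absurd hε (not_lt.2 ?_)
      rw [show 8 * d ^ 2 = (((12 : ℤ) : ℚ_[2]) * (x * x) + ((8 : ℤ) : ℚ_[2]) * d) * (3 * x ^ 2 + d) -
        (((18 : ℤ) : ℚ_[2]) * (x * y)) * (2 * y) by push_cast; linear_combination (36 * x) * h]
      exact sub_XIdx _ _ (mul _ _ (add_XIdx _ _ (mul1 _ _ (hi _) (mul1 _ _ hx hx))
        (mul1 _ _ (hi _) hn)) a2) (mul _ _ (mul1 _ _ (hi _) (mul1 _ _ hx hy)) a1)
    · have a1 : 1 < ‖l ^ 2‖ := by
        rw [norm_pow]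
        exact one_lt_pow₀ (not_le.1 hl) two_ne_zero
      rw [sub_sub, sub_eq_add_neg, eq_XIdx (by
        rw [norm_neg]
        exact (add_XIdx _ _ hx hx').trans_lt a1)]
      exact a1
  have h'' : (-y') ^ 2 = x' ^ 3 + d * x' := by rw [← h']; ring
  rw [sub_eq_add_neg, pt2_neg hD h']
  by_cases e : x = x'
  · subst e
    by_cases e' : y = y'
    · subst e'
      rw [← pt2_neg hD h, add_neg_cancel]
      trivial
    · have a1 : y' = -y := by
        have : (y - y') * (y + y') = 0 := by linear_combination h - h'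
        linear_combination (mul_eq_zero.1 this).resolve_left (sub_ne_zero.2 e')
      subst a1
      have a2 : y ≠ 0 := fun a => e' (by rw [a, neg_zero])
      have a3 : (3 * x ^ 2 + d) / (2 * y) * (2 * y) = 3 * x ^ 2 + d :=
        div_mul_cancel₀ _ (by simpa using a2)
      obtain ⟨b1, b2⟩ := pt2_add_self hD h a2 a3 rfl rfl
      rw [neg_neg, b2]
      exact (pt_XIdx hD b1).1.2 (key _ (by ring) (by linear_combination a3))
  · have a3 : (y + y') / (x - x') * (x - x') = y + y' := div_mul_cancel₀ _ (sub_ne_zero.2 e)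
    obtain ⟨b1, b2⟩ := pt2_add_ne hD h h'' e (a3.trans (sub_neg_eq_add _ _).symm) rfl rfl
    rw [b2]
    refine (pt_XIdx hD b1).1.2 (key _ a3 (mul_left_cancel₀ (sub_ne_zero.2 e) ?_))
    linear_combination (y - y') * a3 + h - h'

theorem base_XIdx (hD : (D : ℚ) ≠ 0) :
    ∃ S : Finset (Pts (EE D) ℚ_[2]), ∀ T, ∃ s ∈ S, U_XIdx 1 (T - s) := by
  have h0 : 0 < ‖8 * ((D : ℚ) : ℚ_[2]) ^ 2‖ := norm_pos_iff.2 (by simpa using hD)
  obtain ⟨t, ht, hc⟩ := Metric.totallyBounded_iff.1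
    (isCompact_closedBall (0 : ℚ_[2]) 1).totallyBounded _ (half_pos h0)
  set ε := ‖8 * ((D : ℚ) : ℚ_[2]) ^ 2‖ / 2
  let Q : ℚ_[2] × ℚ_[2] → Pts (EE D) ℚ_[2] → Prop := fun c T => ∃ x y : ℚ_[2],
    y ^ 2 = x ^ 3 + (D : ℚ) * x ∧ T = pt2 D x y ∧ ‖x‖ ≤ 1 ∧ ‖x - c.1‖ ≤ ε ∧ ‖y - c.2‖ ≤ ε
  have hU : ∀ T : Pts (EE D) ℚ_[2], B.E1 v_XIdx T → U_XIdx 1 T := fun T hT =>
    ⟨hT, lt_XIdx (n := 0) (by rw [pow_zero]; exact B.E1_lt na_XIdx intg_XIdx hT)⟩
  refine ⟨insert 0 ((ht.toFinset ×ˢ ht.toFinset).image fun c => Classical.epsilon (Q c)),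
    fun T => ?_⟩
  by_cases hT : B.E1 v_XIdx T
  · exact ⟨0, mem_insert_self _ _, hU _ (by rwa [sub_zero])⟩
  rcases pt2_cases hD T with rfl | ⟨x, y, h, rfl⟩
  · exact (hT trivial).elim
  have hx : ‖x‖ ≤ 1 := not_lt.1 fun a => hT ((pt_XIdx hD h).1.2 a)
  have hy : ‖y‖ ≤ 1 := B.y_le na_XIdx intg_XIdx ((xCCur_eqn x y).2 h) hx
  obtain ⟨c₁, a1, a2⟩ := Set.mem_iUnion₂.1 (hc (mem_closedBall_zero_iff.2 hx))
  obtain ⟨c₂, b1, b2⟩ := Set.mem_iUnion₂.1 (hc (mem_closedBall_zero_iff.2 hy))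
  rw [mem_ball_iff_norm] at a2 b2
  obtain ⟨x', y', h', e, hx', e1, e2⟩ := Classical.epsilon_spec (p := Q (c₁, c₂))
    ⟨_, x, y, h, rfl, hx, a2.le, b2.le⟩
  refine ⟨_, mem_insert_of_mem (mem_image.2 ⟨(c₁, c₂), mem_product.2
    ⟨ht.mem_toFinset.2 a1, ht.mem_toFinset.2 b1⟩, rfl⟩), hU _ ?_⟩
  rw [e]
  refine near_XIdx hD h h' hx hx' (half_lt_self h0) ?_ ?_
  · rw [show x - x' = (x - c₁) - (x' - c₁) by ring]
    exact sub_XIdx _ _ a2.le e1
  · rw [show y - y' = (y - c₂) - (y' - c₂) by ring]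
    exact sub_XIdx _ _ b2.le e2

theorem idxQ : IdxQ := by
  intro D hD0
  have hD : (D : ℚ) ≠ 0 := Int.cast_ne_zero.2 hD0
  obtain ⟨S₀, hS₀⟩ := base_XIdx hD
  have key : ∀ k : ℕ, ∃ S : Finset (Pts (EE D) ℚ_[2]), S.card ≤ S₀.card * 2 ^ k ∧
      ∀ T, ∃ s ∈ S, U_XIdx (k + 1) (T - s) := fun k => by
    induction k with
    | zero => exact ⟨S₀, by simp, hS₀⟩
    | succ k ih =>
      obtain ⟨S, h1, h2⟩ := ih
      let p := Classical.epsilon fun R : Pts (EE D) ℚ_[2] => U_XIdx (k + 1) R ∧ ¬ U_XIdx (k + 2) R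
      refine ⟨S ∪ S.image (· + p), ?_, fun T => ?_⟩
      · refine (card_union_le _ _).trans ((Nat.add_le_add_left card_image_le _).trans ?_)
        rw [pow_succ, ← mul_assoc]
        omega
      · obtain ⟨s, a1, a2⟩ := h2 T
        by_cases a3 : U_XIdx (k + 2) (T - s)
        · exact ⟨s, mem_union_left _ a1, a3⟩
        · have a4 := Classical.epsilon_spec (p := fun R : Pts (EE D) ℚ_[2] =>
            U_XIdx (k + 1) R ∧ ¬ U_XIdx (k + 2) R) ⟨_, a2, a3⟩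
          refine ⟨s + p, mem_union_right _ (mem_image.2 ⟨s, a1, rfl⟩), ?_⟩
          rw [← sub_sub]
          exact step_XIdx a2 a4.1 a3 a4.2
  refine ⟨S₀.card, fun k => ?_⟩
  obtain ⟨S, h1, h2⟩ := key k
  refine ⟨S, h1, fun T => ?_⟩
  obtain ⟨s, a1, a2⟩ := h2 T
  obtain ⟨R, hR⟩ := pow_XIdx hD k 0 (T - s) (by rwa [zero_add])
  exact ⟨s, a1, R, by rw [← hR, add_sub_cancel]⟩

end Pool.Agent.MP_e23604_nt.Q

end

section

namespace Pool.Agent.MP_e23604_nt.Q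

open Finset Filter NumberField
open MP_f68ac8_nt.Zq (Mx sg)
open MP_f68ac8_nt.Zk (Cp Yw rr NS brL)
open MP_f68ac8_nt.Nd (Lr Rcp GenQ Trm)
open scoped BigOperators Topology

section
variable {V : Type} [AddCommGroup V] {W : ℕ → Submodule ℤ V}

theorem odd_XOrb (h1 : ∀ a b, a ≤ b → W a ≤ W b) (h2 : ∀ n u, 2 • u ∈ W n ↔ u ∈ W (n + 2))
    {c k : ℕ} (hc : Odd c) {u : V} (hu : c • u ∈ W k) (K : ℕ) : u ∈ W K → u ∈ W k := by
  obtain ⟨e, rfl⟩ := hc
  induction K with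
  | zero => exact fun h => h1 _ _ (Nat.zero_le k) h
  | succ K ih =>
    intro h
    by_cases hk : k ≤ K
    · apply ih
      have a : 2 • (e • u) ∈ W K :=
        (h2 _ _).2 (h1 _ _ (Nat.le_succ _) (nsmul_mem h e))
      have b := sub_mem (h1 _ _ hk hu) a
      rwa [add_nsmul, mul_nsmul', one_nsmul, add_sub_cancel_left] at b
    · exact h1 _ _ (by omega) h

theorem pow_XOrb (h2 : ∀ n u, 2 • u ∈ W n ↔ u ∈ W (n + 2)) (a : ℕ) :
    ∀ (n : ℕ) (u : V), 2 ^ a • u ∈ W n → u ∈ W (n + 2 * a) := by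
  induction a with
  | zero => intro n u h; simpa using h
  | succ a ih =>
    intro n u h
    rw [pow_succ, mul_nsmul'] at h
    exact (h2 _ _).1 (ih n _ h)

theorem sep_XOrb (h1 : ∀ a b, a ≤ b → W a ≤ W b) (h2 : ∀ n u, 2 • u ∈ W n ↔ u ∈ W (n + 2))
    {N n h s t : ℕ} (hN : ∀ u, u ∈ W N) {u : V} (hst : s < t) (ht : t < 2 ^ h)
    (hu : (4 * t) • u - (4 * s) • u ∈ W (n + 1)) : u ∈ W (n + 2 * h + 3) := by
  obtain ⟨d, rfl⟩ := Nat.exists_eq_add_of_le hst.le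
  obtain ⟨a, c, hc, rfl⟩ := Nat.exists_eq_two_pow_mul_odd (n := d) (by omega)
  have ha : a < h := by
    have : 2 ^ a ≤ 2 ^ a * c := Nat.le_mul_of_pos_right _ hc.pos
    exact (Nat.pow_lt_pow_iff_right (by norm_num : 1 < 2)).1 (by omega)
  have e : 4 * (s + 2 ^ a * c) = 4 * s + c * 2 ^ (a + 2) := by ring
  rw [e, add_nsmul, add_sub_cancel_left, mul_nsmul'] at hu
  exact h1 _ _ (by omega) (pow_XOrb h2 _ _ _ (odd_XOrb h1 h2 hc hu N (hN _)))

end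

theorem orbQ (hBasQ : BasQ) (hFibQ : FibQ) (hStepQ : StepQ) (hTsQ : TsQ) (hHomQ : HomQ) :
    OrbQ := by
  intro V _ _ J N m hC hm hN d S hS U y q v hv n h hn hh
  obtain ⟨h1, -, -, -, h2, -⟩ := hBasQ V J hC.toCm0
  obtain ⟨j, hj, k, hk, hjk⟩ := hv.nc
  have hu : v j - v k ∉ Wn J m := by
    intro e
    apply hjk
    have : v j ∈ Wn J m ↔ v k ∈ Wn J m :=
      ⟨fun a => by simpa using sub_mem a e, fun a => by simpa using add_mem e a⟩
    unfold dig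
    rw [this]
  let F : ℕ × (Fin d → V) → Fin d → V := fun p =>
    (fun j => if j ∈ S.Tm then v j + (4 * p.1) • (v j - S.o) else 0) + p.2
  have hle : ((range (2 ^ h) : Set ℕ) ×ˢ {w | S.Cand n w}).ncard ≤ (S.Sol y q n).ncard := by
    refine Set.ncard_le_ncard_of_injOn F ?_ ?_ (Set.toFinite _)
    · rintro ⟨t, w⟩ ⟨-, hw⟩
      exact ((hStepQ V J N m hC hm hN d S hS U y q n hn (by omega)).2 _
        (hTsQ V J N m hC hm hN d S hS U y q _ (hHomQ V J N m hC hm hN d S hS U y q v hv t)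
          (by omega) n hn) w hw).1
    · rintro ⟨t, w⟩ ⟨ht, hw⟩ ⟨s, w'⟩ ⟨hs, hw'⟩ e
      have ht' : t < 2 ^ h := by simpa using ht
      have hs' : s < 2 ^ h := by simpa using hs
      have ej := congrFun e j
      have ek := congrFun e k
      simp only [F, Pi.add_apply, hj, hk, if_true] at ej ek
      have key : (4 * t) • (v j - v k) - (4 * s) • (v j - v k) ∈ Wn J (n + 1) := by
        have : (4 * t) • (v j - v k) - (4 * s) • (v j - v k) =
            (w' j - w' k) - (w j - w k) := by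
          linear_combination (norm := module) ej - ek
        rw [this]
        exact sub_mem (sub_mem (hw'.1 j hj) (hw'.1 k hk)) (sub_mem (hw.1 j hj) (hw.1 k hk))
      have hts : t = s := by
        rcases lt_trichotomy t s with a | a | a
        · exact absurd (h1 _ _ hh (sep_XOrb h1 h2 hC.top a hs'
            (by simpa using neg_mem key))) hu
        · exact a
        · exact absurd (h1 _ _ hh (sep_XOrb h1 h2 hC.top a ht' key)) hu
      subst hts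
      exact Prod.ext rfl (add_left_cancel e)
  rw [Set.ncard_prod, Set.ncard_coe_finset, card_range,
    (hFibQ V J N m hC hm hN d S hS n (by omega)).1] at hle
  rw [Sy.Nn, le_div_iff₀ (by positivity)]
  exact_mod_cast hle

end Pool.Agent.MP_e23604_nt.Q

end

section

namespace Pool.Agent.MP_e23604_nt.Q

open Finset Filter NumberField
open MP_f68ac8_nt.Zq (Mx sg)
open MP_f68ac8_nt.Zk (Cp Yw rr NS brL)
open MP_f68ac8_nt.Nd (Lr Rcp GenQ Trm)
open scoped BigOperators Topology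

theorem card_rw_XRec {d : ℕ} {H : Sh d} (h : H.Ok) (n : ℕ) :
    (H.Rw n).card = H.Tm.card + if H.pi + n = 1 then 1 else 0 := by
  have h1 : (insert H.kf (H.Tm.erase H.i0)).card = H.Tm.card := by
    rw [card_insert_of_notMem fun e => h.kf (mem_of_mem_erase e), card_erase_add_one h.i0]
  unfold Sh.Rw
  split_ifs
  · rw [card_union_of_disjoint, h1, card_singleton]
    rw [disjoint_singleton_right, mem_insert, not_or]
    exact ⟨h.ne.symm, fun e => h.kc (mem_of_mem_erase e)⟩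
  · rw [union_empty, h1, add_zero]

open Classical in
theorem fib_XRec {α β : Type} [Fintype α] [Fintype β] (C : α → Prop) (f : α → β) (p q : β → Prop)
    (k : ℕ) (hp : ∀ w, C w → p (f w)) (hk : ∀ a, p a → {w | C w ∧ f w = a}.ncard = k) :
    (univ.filter fun w => C w ∧ q (f w)).card = (univ.filter fun a => p a ∧ q a).card * k := by
  rw [card_eq_sum_card_fiberwise (f := f) (t := univ.filter fun a => p a ∧ q a) fun w hw => by
    simp only [coe_filter, mem_univ, true_and, Set.mem_ofPred_eq] at hw ⊢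
    exact ⟨hp w hw.1, hw.2⟩, ← smul_eq_mul, ← sum_const]
  refine sum_congr rfl fun a ha => ?_
  obtain ⟨h1, h2⟩ := (mem_filter.1 ha).2
  rw [← hk a h1, ← Set.ncard_coe_finset]
  congr 1
  ext w
  simp only [coe_filter, mem_filter, mem_univ, true_and, Set.mem_ofPred_eq]
  exact ⟨fun h => ⟨h.1.1, h.2⟩, fun h => ⟨⟨h.1, h.2 ▸ h2⟩, h.2⟩⟩

open Classical in
theorem pairs_XRec {α : Type} [Fintype α] [AddCommGroup α] (A B C : Set α) (g : α → Prop)
    (hA : ∀ u ∈ A, u ∈ B ∧ g u) (hB : ∀ v ∈ B, ∀ w ∈ C, v - w ∈ B) :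
    A.ncard * C.ncard ≤ ∑ v, if v ∈ B then (univ.filter fun w => w ∈ C ∧ g (v + w)).card else 0 := by
  have h1 : (∑ v, if v ∈ B then (univ.filter fun w => w ∈ C ∧ g (v + w)).card else 0) =
      (univ.filter fun x : α × α => x.1 ∈ B ∧ x.2 ∈ C ∧ g (x.1 + x.2)).card := by
    rw [card_filter, Fintype.sum_prod_type]
    refine sum_congr rfl fun v _ => ?_
    by_cases hv : v ∈ B
    · simp only [hv, if_true, true_and, card_filter]
    · simp only [hv, if_false, false_and, sum_const_zero]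
  rw [h1, Set.ncard_eq_toFinset_card' A, Set.ncard_eq_toFinset_card' C, ← card_product]
  refine card_le_card_of_injOn (fun x => (x.1 - x.2, x.2)) (fun x hx => ?_) fun x _ x' _ h => ?_
  · simp only [coe_product, Set.coe_toFinset, Set.mem_prod] at hx
    simp only [coe_filter, mem_univ, true_and, Set.mem_ofPred_eq, sub_add_cancel]
    exact ⟨hB _ (hA _ hx.1).1 _ hx.2, hx.2, (hA _ hx.1).2⟩
  · simp only [Prod.mk.injEq] at h
    exact Prod.ext (by rw [← sub_left_inj (a := x.2), h.1, h.2]) h.2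

theorem recQ (hStepQ : StepQ) (hFouQ : FouQ) (hFibQ : FibQ) : RecQ := by
  classical
  intro V _ _ J N m hJ hm hN d S hS U y q n hn hnm hc
  obtain ⟨s1, s2⟩ := hStepQ V J N m hJ hm hN d S hS U y q n hn hnm
  obtain ⟨f1, f2⟩ := hFibQ V J N m hJ hm hN d S hS n (by omega)
  have h1 := pairs_XRec (S.Sol y q (n - 1)) (S.Sol y q n) {w | S.Cand n w}
    (fun v => ∀ i ∈ S.sh.Rw n, S.ob n (S.Yv y q v) v i = 0) s1 fun v hv w hw => by
      rw [sub_eq_add_neg]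
      exact (s2 v hv (-w) ⟨fun j hj => neg_mem (hw.1 j hj),
        fun j hj => by rw [Pi.neg_apply, hw.2 j hj, neg_zero]⟩).1
  rw [f1] at h1
  obtain ⟨c, hc'⟩ : ∃ c : ℝ, c = if S.pi + n = 1 then 1 / 2 else 1 := ⟨_, rfl⟩
  have h2 : c * 2 ^ (S.sh.Rw n).card = 2 ^ S.Tm.card := by
    rw [card_rw_XRec hS.sh, hc']
    show (if S.pi + n = 1 then _ else _) * (2 : ℝ) ^ (S.Tm.card + if S.pi + n = 1 then 1 else 0) = _
    split_ifs
    · rw [pow_succ]; ring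
    · rw [one_mul, add_zero]
  have h3 : ((S.Sol y q (n - 1)).ncard : ℝ) * 2 ^ ((n + 1) * S.Tm.card) ≤
      c * (∑ v : Fin d → V, ∑ z : Fin d → ZMod 2,
        if v ∈ S.Sol y q n ∧ S.sh.LK n (rr y q 2) z then
          sg (∑ i, z i * S.ob n (S.Yv y q v) v i) else 0) * 2 ^ (n * S.Tm.card) := by
    have h0 := (Nat.cast_le (α := ℝ)).2 h1
    push_cast at h0
    refine h0.trans (le_of_eq ?_)
    rw [mul_sum, sum_mul]
    refine sum_congr rfl fun v _ => ?_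
    by_cases hv : v ∈ S.Sol y q n
    · have h4 := fib_XRec (S.Cand n) (fun w j => dig J n (w j)) (fun a => ∀ j ∉ S.Tm, a j = 0)
        (fun a => ∀ i ∈ S.sh.Rw n, S.ob n (S.Yv y q v) v i +
          ∑ j, Mn (S.sh.be n) (rr y q 2) i j * a j = 0) (2 ^ (n * S.Tm.card))
        (fun w hw j hj => by simp only [hw.2 j hj, dig, zero_mem, if_true])
        (fun a ha => by simpa only [funext_iff] using f2 a ha)
      have h5 := hFouQ d (Mn (S.sh.be n) (rr y q 2)) (S.sh.Rw n) S.Tm (S.ob n (S.Yv y q v) v)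
      rw [← h2, mul_comm c, mul_assoc, mul_comm, mul_right_inj' (by positivity)] at h5
      simp only [hv, if_true, true_and]
      have h6 : (univ.filter fun w => w ∈ {w | S.Cand n w} ∧
          ∀ i ∈ S.sh.Rw n, S.ob n (S.Yv y q (v + w)) (v + w) i = 0).card =
          (univ.filter fun a : Fin d → ZMod 2 => (∀ j ∉ S.Tm, a j = 0) ∧ ∀ i ∈ S.sh.Rw n,
            S.ob n (S.Yv y q v) v i + ∑ j, Mn (S.sh.be n) (rr y q 2) i j * a j = 0).card *
            2 ^ (n * S.Tm.card) := by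
        refine Eq.trans (congrArg card ?_) (h4.trans ?_)
        · ext w
          simp only [mem_filter, mem_univ, true_and, Set.mem_ofPred_eq]
          exact and_congr_right fun hw => forall₂_congr fun i hi => by
            rw [(s2 v hv w hw).2 hc i hi]
        · congr 2
          ext a
          simp only [mem_filter]
      refine Eq.trans ?_ (congrArg (· * (2 : ℝ) ^ (n * S.Tm.card)) (h5.trans ?_))
      · exact_mod_cast h6
      · congr 1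
        exact sum_congr rfl fun z _ => if_congr Iff.rfl rfl rfl
    · simp only [hv, if_false, false_and, sum_const_zero, mul_zero, zero_mul]
  rw [Sy.Nn, Nat.sub_add_cancel (by omega), ← hc', div_mul_eq_mul_div,
    div_le_div_iff₀ (by positivity) (by positivity)]
  exact h3

end Pool.Agent.MP_e23604_nt.Q

end

section

namespace Pool.Agent.MP_e23604_nt.Q

open Finset Filter NumberField
open MP_f68ac8_nt.Zq (Mx sg)
open MP_f68ac8_nt.Zk (Cp Yw rr NS brL)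
open MP_f68ac8_nt.Nd (Lr Rcp GenQ Trm)
open scoped BigOperators Topology

theorem mn0_XStep {d : ℕ} (β a : Fin d → ZMod 2) (r : Mx d) {i : Fin d} (h : a i = 0) :
    ∑ j, Mn β r i j * a j = ∑ j, r i j * a j := by
  refine sum_congr rfl fun j _ => ?_
  by_cases hj : i = j
  · rw [← hj, h, mul_zero, mul_zero]
  · rw [Mn, if_neg hj]

theorem mn1_XStep {d : ℕ} (β a : Fin d → ZMod 2) (r : Mx d) {i : Fin d} (h : β i = 1) :
    ∑ j, Mn β r i j * a j = (∑ k, r i k * β k) * a i + ∑ j, r i j * a j := by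
  have e : ∑ j ∈ univ.erase i, Mn β r i j * a j = ∑ j ∈ univ.erase i, r i j * a j :=
    sum_congr rfl fun j hj => by rw [Mn, if_neg (ne_of_mem_erase hj).symm]
  rw [← add_sum_erase _ _ (mem_univ i), ← add_sum_erase _ (fun k => r i k * β k) (mem_univ i),
    ← add_sum_erase _ (fun k => r i k * a k) (mem_univ i), e, Mn, if_pos rfl, h]
  linear_combination (-1 : ZMod 2) * CharTwo.add_self_eq_zero (r i i * a i)

theorem dig0_XStep {V : Type} [AddCommGroup V] {J : V ≃ₗ[ℤ] V} {n : ℕ} {u : V}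
    (h : u ∈ Wn J n) : dig J n u = 0 := if_pos h

theorem stepQ (hBasQ : BasQ) (hDerQ : DerQ) : StepQ := by
  intro V _ _ J N m hcm hm hN d S hS U y q n hn hnm
  obtain ⟨mono, -, -, -, two, add, pre, -⟩ := hBasQ V J hcm.toCm0
  obtain ⟨k, rfl⟩ : ∃ k, n = k + 2 := ⟨n - 2, by omega⟩
  have hf : S.kf ∉ S.Tm := hS.sh.kf
  have hc : S.kc ∉ S.Tm := hS.sh.kc
  have hne : S.kf ≠ S.kc := hS.sh.ne
  have rw3 : ∀ i ∈ S.sh.Rw (k + 2), (i ∈ S.Tm ∧ i ≠ S.i0 ∧ i ≠ S.kc) ∨ i = S.kf ∨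
      (i = S.kc ∧ S.pi + ((k + 2 : ℕ) : ZMod 2) = 1) := by
    intro i hi
    rcases mem_union.1 hi with hi | hi
    · rcases mem_insert.1 hi with hi | hi
      · exact Or.inr (Or.inl hi)
      · exact Or.inl ⟨(mem_erase.1 hi).2, (mem_erase.1 hi).1,
          fun e => hc (e ▸ (mem_erase.1 hi).2)⟩
    · split_ifs at hi with h
      · exact Or.inr (Or.inr ⟨mem_singleton.1 hi, h⟩)
      · exact absurd hi (notMem_empty i)
  refine ⟨fun v ⟨h1, h2, h3, h4, h5⟩ => ⟨⟨h1, h2, fun i hi hi' => mono _ _ (by omega) (h3 i hi hi'),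
    mono _ _ (by omega) h4, mono _ _ (by omega) h5⟩, fun i hi => ?_⟩,
    fun v ⟨h1, h2, h3, h4, h5⟩ w hw => ?_⟩
  · rcases rw3 i hi with ⟨a1, a2, a3⟩ | rfl | ⟨rfl, -⟩
    · rw [Sy.ob, if_neg a3]
      exact dig0_XStep (h3 i a1 a2)
    · rw [Sy.ob, if_neg hne]
      exact dig0_XStep h4
    · rw [Sy.ob, if_pos rfl]
      exact dig0_XStep h5
  obtain ⟨d1, -, d2⟩ := hDerQ V J N m hcm hm hN d S hS U y q v h1
  have d3 := d2 (k + 2) (by omega) (by omega) w hw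
  have hw0 : ∀ j ∉ S.Tm, dig J (k + 2) (w j) = 0 := fun j hj => by
    rw [hw.2 j hj]
    exact dig0_XStep (zero_mem _)
  have hub : S.ub (v + w) = S.ub v := by
    funext j
    simp only [Sy.ub, Pi.add_apply]
    split_ifs with hj
    · rw [add m _ (h1.1 j hj) _ (mono _ _ (by omega) (hw.1 j hj)),
        dig0_XStep (mono _ _ hnm (hw.1 j hj)), add_zero]
    · rfl
  have hcand : S.Cand m (v + w) :=
    ⟨fun j hj => add_mem (h1.1 j hj) (mono _ _ (by omega) (hw.1 j hj)),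
      fun j hj => by rw [Pi.add_apply, h1.2 j hj, hw.2 j hj, add_zero]⟩
  unfold Sy.Sol
  rw [Set.mem_setOf_eq, hub]
  generalize S.Yv y q (v + w) = Y' at d3 ⊢
  generalize S.Yv y q v = Y at d1 d3 h3 h4 h5 ⊢
  obtain ⟨D, hD⟩ : ∃ D : Fin d → V, ∀ i, (Y' i).1 0 - (Y i).1 0 = D i := ⟨_, fun _ => rfl⟩
  simp only [hD] at d3
  have hD' : ∀ i, (Y' i).1 0 = (Y i).1 0 + D i := fun i => by rw [← hD, add_sub_cancel]
  have e1 : ∀ i ∈ S.Tm, S.Ev Y' (v + w) i =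
      S.Ev Y v i + ((Y i).1.linear (w i) - w i) + D i := fun i hi => by
    rw [Sy.Ev, Sy.Ev, if_pos hi, if_pos hi, aff_apply (Y' i).1, aff_apply (Y i).1 (v i),
      (d3 i).1, hD', Pi.add_apply, map_add]
    abel
  have e2 : S.Ev Y' (v + w) S.kf = S.Ev Y v S.kf + D S.kf := by
    rw [Sy.Ev, Sy.Ev, if_neg hf, if_neg hf, if_pos rfl, if_pos rfl, hD']
    abel
  have e3 : S.Ev Y' (v + w) S.kc =
      S.Ev Y v S.kc + ((Y S.kc).1.linear (D S.kc) - D S.kc) + 2 • D S.kc := by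
    rw [Sy.Ev, Sy.Ev, if_neg hc, if_neg hc, if_neg hne.symm, if_neg hne.symm,
      aff_apply (Y' S.kc).1 ((Y' S.kc).1 0), aff_apply (Y S.kc).1 ((Y S.kc).1 0), (d3 _).1, hD',
      map_add]
    abel
  have p1 : ∀ i ∈ S.Tm, (Y i).1.linear (w i) - w i ∈ Wn J (k + 2) := fun i hi =>
    (pre _ (Y i).2.1).1 _ _ (hw.1 i hi)
  have p2 : (Y S.kc).1.linear (D S.kc) - D S.kc ∈ Wn J (k + 1) :=
    (pre _ (Y _).2.1).1 _ _ (d3 _).2.1
  have p3 : 2 • D S.kc ∈ Wn J k := (two k _).2 (d3 _).2.1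
  have p4 : 2 • D S.kc ∈ Wn J (k + 1) := mono _ _ (by omega) p3
  refine ⟨⟨hcand, h2, fun i hi hi' => ?_, ?_, ?_⟩, fun hs i hi => ?_⟩
  · rw [e1 i hi]
    exact add_mem (add_mem (h3 i hi hi') (p1 i hi)) (d3 i).2.1
  · rw [e2]
    exact add_mem h4 (d3 _).2.1
  · rw [e3]
    exact add_mem (add_mem h5 p2) p4
  · rcases rw3 i hi with ⟨a1, a2, a3⟩ | rfl | ⟨rfl, a1⟩
    · have b1 := (pre _ (Y i).2.1).2 (k + 2) (by omega) _ (hw.1 i a1)
      rw [Sy.ob, Sy.ob, if_neg a3, if_neg a3, e1 i a1,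
        add (k + 2 - 1) _ (add_mem (h3 i a1 a2) (p1 i a1)) _ (d3 i).2.1,
        add (k + 2 - 1) _ (h3 i a1 a2) _ (p1 i a1), b1, (d3 i).2.2, d1 _ (by omega) (by omega),
        mn1_XStep (S.sh.be (k + 2)) _ _ (i := i) (if_pos a1), add_assoc]
    · rw [Sy.ob, Sy.ob, if_neg hne, if_neg hne, e2, add (k + 2 - 1) _ h4 _ (d3 _).2.1,
        (d3 _).2.2, mn0_XStep _ (fun j => dig J (k + 2) (w j)) _ (hw0 _ hf)]
    · have b1 : dig J (k + 2 - 2) _ = _ * dig J (k + 2 - 1) _ :=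
        (pre _ (Y S.kc).2.1).2 (k + 2 - 1) (by omega) _ (d3 S.kc).2.1
      have b2 : dig J (k + 2 - 2) (2 • D S.kc) = 0 := dig0_XStep p3
      rw [Sy.ob, Sy.ob, if_pos rfl, if_pos rfl, e3,
        add (k + 2 - 2) _ (add_mem h5 p2) _ p4, add (k + 2 - 2) _ h5 _ p2, b1, b2, (d3 _).2.2,
        d1 _ (by omega) (by omega), hs, a1,
        mn0_XStep _ (fun j => dig J (k + 2) (w j)) _ (hw0 _ hc), one_mul, add_zero]

end Pool.Agent.MP_e23604_nt.Q

end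

section

namespace Pool.Agent.MP_e23604_nt.Q

open Finset Filter NumberField
open MP_f68ac8_nt.Zq (Mx sg)
open MP_f68ac8_nt.Zk (Cp Yw rr NS brL)
open MP_f68ac8_nt.Nd (Lr Rcp GenQ Trm)
open scoped BigOperators Topology

theorem sub_XSum {α : Type} [Fintype α] (p : α → Prop) [Fintype {x // p x}] (G : α → ℝ)
    (h : ∀ x, ¬ p x → G x = 0) : ∑ i : {x // p x}, G i.1 = ∑ x, G x := by
  classical
  rw [← Finset.sum_subtype (univ.filter p) (fun x => by simp) G]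
  exact sum_filter_of_ne fun x _ hx => by_contra fun h1 => hx (h x h1)

theorem i0_XSum {d : ℕ} {H : Sh d} (h : H.Ok) (n : ℕ) : H.i0 ∉ H.Rw n := by
  have h1 : H.i0 ≠ H.kf := fun e => h.kf (e ▸ h.i0)
  have h2 : H.i0 ≠ H.kc := fun e => h.kc (e ▸ h.i0)
  unfold Sh.Rw
  split_ifs <;> simp [h1, h2]

theorem sumQ (hItQ : ItQ) (hOrbQ : OrbQ) (hTrmQ : TrmQ) : SumQ := by
  classical
  intro V _ _ J N m hN hm hmN d S hS h B Sm Lg h1 h2 hSm hLg hD
  obtain ⟨c, hc, hI⟩ := hItQ V J N m hN hm hmN d S hS h h2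
  have hp : (0 : ℝ) < 2 ^ h := by positivity
  have hc' : ∀ n, |c n / 2 ^ h| ≤ 1 := fun n => by
    rw [abs_div, abs_of_pos hp, div_le_one hp]
    refine (hc n).trans ?_
    simpa using pow_le_pow_right₀ (by norm_num : (1 : ℝ) ≤ 2) h1
  let p : (Ico 2 m : Finset ℕ) × (Fin d → V) × (Fin d → ZMod 2) → Prop := fun x =>
    S.Cand m x.2.1 ∧ x.2.2 S.i0 = 0 ∧ Rich Sm Lg m (S.ub x.2.1) x.2.2
  have hT := fun i : {x // p x} => hTrmQ V J N m hN hm hmN d S hS Sm Lg i.1.1 i.1.2.1 i.1.2.2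
    (fun r => S.sh.Good Sm Lg m B r ∧ S.sh.Top r (S.ub i.1.2.1) ∧ S.sh.LK i.1.1 r i.1.2.2)
    (c i.1.1 / 2 ^ h) hSm hLg hD (mem_Ico.1 i.1.1.2).1 (mem_Ico.1 i.1.1.2).2 i.2.1 i.2.2.1
    i.2.2.2 (hc' _)
  choose T hT1 hT2 using hT
  refine ⟨{x // p x}, inferInstance, T, ?_, hT1, fun Λ y q => ?_⟩
  · refine (Fintype.card_subtype_le p).trans ?_
    simp only [Fintype.card_prod, Fintype.card_coe, Nat.card_Ico, Fintype.card_fun,
      Fintype.card_fin, ZMod.card, mul_pow]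
    rw [mul_comm (2 ^ d)]
    exact Nat.mul_le_mul_right _ (Nat.sub_le _ _)
  · by_cases hG : S.sh.Good Sm Lg m B (rr (U := fun _ => Λ) y q 2)
    · let G : (Ico 2 m : Finset ℕ) × (Fin d → V) × (Fin d → ZMod 2) → ℝ := fun x =>
        c x.1 / 2 ^ h * if x.2.1 ∈ S.Sol (U := fun _ => Λ) y q x.1 ∧
          S.sh.LK x.1 (rr (U := fun _ => Λ) y q 2) x.2.2 ∧ Rich Sm Lg m (S.ub x.2.1) x.2.2 then
          sg (∑ i, x.2.2 i * S.ob x.1 (S.Yv (U := fun _ => Λ) y q x.2.1) x.2.1 i) else 0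
      have e1 : ∀ i : {x // p x}, (T i).val y q = G i.1 := fun i => by
        rw [hT2]
        simp only [G, mul_ite, mul_zero]
        split_ifs with a b b
        · rfl
        · exact absurd ⟨⟨i.2.1, a.1.2.1, a.2⟩, a.1.2.2, i.2.2.2⟩ b
        · exact absurd ⟨⟨hG, b.1.2.1, b.2.1⟩, b.1.2.2⟩ a
        · rfl
      have e2 : ∀ x, ¬ p x → G x = 0 := fun x hx => by
        simp only [G]
        rw [if_neg, mul_zero]
        exact fun a => hx ⟨a.1.1, a.2.1.1 _ (i0_XSum hS.sh _), a.2.2⟩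
      have e3 : ∑ i, (T i).val y q =
          (∑ n ∈ Ico 2 m, c n * S.Es (U := fun _ => Λ) y q Sm Lg m n) / 2 ^ h := by
        rw [sum_congr rfl fun i _ => e1 i, sub_XSum p G e2, Fintype.sum_prod_type, sum_div,
          ← sum_coe_sort (Ico 2 m)]
        refine sum_congr rfl fun n _ => ?_
        rw [Fintype.sum_prod_type, Sy.Es, mul_div_right_comm]
        simp only [G, mul_sum]
      have e4 := hI (fun _ => Λ) y q Sm Lg m B hG
      rw [e3, ← add_div]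
      refine ⟨div_nonneg (le_trans ?_ e4) hp.le, fun _ ⟨v, hv⟩ => ?_⟩
      · unfold Sy.Nn; positivity
      · rw [one_le_div hp]
        exact (hOrbQ V J N m hN hm hmN d S hS (fun _ => Λ) y q v hv _ h (by omega)
          (by omega)).trans e4
    · refine ⟨?_, fun a => absurd a hG⟩
      rw [sum_eq_zero fun i _ => by rw [hT2, if_neg fun a => hG a.1.1]]
      positivity

end Pool.Agent.MP_e23604_nt.Q

end

section

namespace Pool.Agent.MP_e23604_nt.Q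

open Finset Filter NumberField
open MP_f68ac8_nt.Zq (Mx sg)
open MP_f68ac8_nt.Zk (Cp Yw rr NS brL)
open MP_f68ac8_nt.Nd (Lr Rcp GenQ Trm)
open scoped BigOperators Topology

theorem mn1_XTs {d : ℕ} (β a : Fin d → ZMod 2) (r : Mx d) {i : Fin d} (h : β i = 1) :
    ∑ j, Mn β r i j * a j = (∑ k, r i k * β k) * a i + ∑ j, r i j * a j := by
  have e : ∑ j ∈ univ.erase i, Mn β r i j * a j = ∑ j ∈ univ.erase i, r i j * a j :=
    sum_congr rfl fun j hj => by rw [Mn, if_neg (ne_of_mem_erase hj).symm]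
  rw [← add_sum_erase _ _ (mem_univ i), ← add_sum_erase _ (fun k => r i k * β k) (mem_univ i),
    ← add_sum_erase _ (fun k => r i k * a k) (mem_univ i), e, Mn, if_pos rfl, h]
  linear_combination (-1 : ZMod 2) * CharTwo.add_self_eq_zero (r i i * a i)

theorem tsQ (hBasQ : BasQ) (hDerQ : DerQ) : TsQ := by
  intro V _ _ J N m hcm hm hN d S hS U y q v hv hm3 n hn
  obtain ⟨mono, -, -, -, -, add, pre, -⟩ := hBasQ V J hcm.toCm0
  have hf : S.kf ∉ S.Tm := hS.sh.kf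
  have hc : S.kc ∉ S.Tm := hS.sh.kc
  have hne : S.kf ≠ S.kc := hS.sh.ne
  obtain ⟨d1, d2, -⟩ := hDerQ V J N m hcm hm hN d S hS U y q v hv.cand
  have hub : ∀ j ∈ S.Tm, S.ub v j = dig J m (v j) := fun j hj => if_pos hj
  refine ⟨hv.cand, ⟨fun j hj => if_neg hj, fun i (hi : i ∈ S.Tm) => ?_, ?_⟩,
    fun i hi _ => ?_, ?_, ?_⟩
  · have a1 := pre _ (S.Yv y q v i).2.1
    have a2 := hv.cand.1 i hi
    have e : m - 1 + 1 = m := by omega
    have a3 : (S.Yv y q v i).1 (v i) - v i =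
        ((S.Yv y q v i).1.linear (v i) - v i) + (S.Yv y q v i).1 0 := by
      rw [aff_apply]
      abel
    have a4 : dig J (m - 1) ((S.Yv y q v i).1 (v i) - v i) = 0 :=
      if_pos (mono _ _ (by omega) (hv.tam i hi))
    rw [a3, add (m - 1) _ (by rw [e]; exact a1.1 _ _ a2) _ (by rw [e]; exact (S.Yv y q v i).2.2),
      a1.2 m hm _ a2, d1 m hm le_rfl, d2, ← hub i hi] at a4
    exact (mn1_XTs (S.sh.be m) _ _ (i := i) (if_pos hi)).trans a4
  · obtain ⟨j, hj, k, hk, h⟩ := hv.nc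
    exact ⟨j, hj, k, hk, by rwa [hub j hj, hub k hk]⟩
  · rw [Sy.Ev, if_pos hi]
    exact mono _ _ hn (hv.tam i hi)
  · rw [Sy.Ev, if_neg hf, if_pos rfl, hv.ff, sub_self]
    exact zero_mem _
  · have a1 : (S.Yv y q v S.kc).1 ((S.Yv y q v S.kc).1 0) = 0 :=
      congrArg (fun g : Pm J m => g.1 0) hv.cc
    rw [Sy.Ev, if_neg hc, if_neg hne.symm, a1]
    exact zero_mem _

end Pool.Agent.MP_e23604_nt.Q

end
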