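import Mathlib
import Pool.Agent.Mg.Fe23604m.G3360bb
import Pool.Agent.Mg.Fe23604m.Gad3f3e

set_option linter.all false

/-! Quadratic fields of even discriminant. -/

namespace Pool.Agent.MP_f68ac8_nt.Nd

open Zq Ev Pv Sv Zv Zk NumberField Finset Filter
open scoped Topology BigOperators commutatorElement

/-- the quadratic characters modulo eight -/
def e8 (α β : ZMod 2) (u : ZMod 8) : ZMod 2 :=
  α * (if u = 3 ∨ u = 7 then 1 else 0) + β * (if u = 3 ∨ u = 5 then 1 else 0)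

theorem e8_mul : ∀ (α β : ZMod 2) (u v : (ZMod 8)ˣ),
    e8 α β (u * v : (ZMod 8)ˣ) = e8 α β u + e8 α β v := by decide

/-- the quadratic characters of conductor dividing eight -/
noncomputable def x2 (α β : ZMod 2) : GQ →* Cp 2 :=
  MonoidHom.mk' (fun g => Multiplicative.ofAdd (e8 α β (cyc (Ω := Qb) 8 g))) fun g h => by
    rw [map_mul, e8_mul, ofAdd_add]

section
variable (α β : ZMod 2)

/-- the characters attached to the primes -/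
noncomputable def cx (l : ℕ) : GQ →* Cp 2 := if l = 2 then x2 α β else ch 2 l

/-- their values at complex conjugation -/
def ex (l : ℕ) : ZMod 2 := if l = 2 then α else Zq.eps l

/-- their values at Frobenius elements -/
noncomputable def lx (l m : ℕ) : ZMod 2 := if m = 2 then α * Zq.eps l + β * lk 2 2 l else lk 2 l m

/-- the matrix of linking numbers -/
noncomputable def lk3 {d : ℕ} (l : Fin d → ℕ) : Mx d :=
  fun i j => if i = j then ex α (l i) else lx α β (l i) (l j)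

end

/-- local data at a prime -/
structure Loc (χ : GQ →* Cp 2) (l : ℕ) (σ τ : GQ) : Prop where
  ex : ∃ P : Ideal OQ, P.IsMaximal ∧ (l : OQ) ∈ P ∧ IsFrob l P σ ∧ τ ∈ P.inertia GQ
  ram : χ τ ≠ 1

/-- open normal subgroups of `2`-power index -/
structure Op2 (N : Subgroup GQ) : Prop where
  nrm : N.Normal
  nhds : (N : Set GQ) ∈ 𝓝 1
  pg : ∀ g : GQ, ∃ k, g ^ 2 ^ k ∈ N

/-- subgroups with restricted ramification -/
structure AdX (χ₀ : GQ →* Cp 2) (R : Finset ℕ) (N : Subgroup GQ) : Prop extends Op2 N where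
  unr : ∀ P : Ideal OQ, P.IsMaximal → (∀ l ∈ R, (l : OQ) ∉ P) → ∀ g ∈ P.inertia GQ, χ₀ g = 1 →
    g ∈ N

section
variable {Λ : Finset ℕ} {d : ℕ}

/-- the prime attached to a letter -/
def ov (u : Option Λ) : ℕ := u.elim 2 (↑)

/-- append the prime two -/
def ext (q : Fin d → Λ) : Fin (d + 1) → Option Λ :=
  Fin.snoc (α := fun _ => Option Λ) (some ∘ q) none

/-- the extended weights -/
def wx (w : Fin d → Λ → ℝ) : Fin (d + 1) → Option Λ → ℝ :=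
  Fin.snoc (α := fun _ => Option Λ → ℝ) (fun j o => o.elim 0 (w j)) fun o => o.elim 1 fun _ => 0

/-- the same indices in a longer tuple -/
def up (S : Finset (Fin d)) : Finset (Fin (d + 1)) := S.map Fin.castSuccEmb

/-- the weight of an extended tuple -/
noncomputable def kax (c y : ℝ) (q : Fin d → Option Λ) : ℝ :=
  Kc c (∑ j, Real.log (ov (q j)) - (y + Real.log 2))

/-- the matrix of an extended tuple -/
noncomputable def lkx (α β : ZMod 2) (q : Fin d → Λ) : Mx (d + 1) := lk3 α β (ov ∘ ext q)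

open Classical in
/-- the distribution of the matrix -/
noncomputable def nux (α : ZMod 2) (w : Fin d → Λ → ℝ) (c y : ℝ) (r : Mx (d + 1)) : ℝ :=
  Ex (U := fun _ => Λ) w fun q => if Function.Injective q ∧ lkx α 1 q = r then kap c y q else 0

variable (α β : ZMod 2) (σ τ : Option Λ → GQ) (N : Subgroup GQ)

/-- generators of the Galois group modulo `N` -/
structure Gn : Prop where
  ne : α ≠ 0 ∨ β ≠ 0
  pri : ∀ l ∈ Λ, l.Prime ∧ Odd l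
  loc : ∀ u, Loc (cx α β (ov u)) (ov u) (σ u) (τ u)
  adm : AdX (x2 α β) Λ N
  gen : ∀ g, ∃ w, (FreeGroup.lift τ w)⁻¹ * g ∈ N

end

/-- characters of the square roots -/
def Km (m : ℤ) (χ : GQ →* Cp 2) : Prop := ∀ a : Qb, a ^ 2 = m → ∀ g, χ g = 1 ↔ g a = a

/-- the local behaviour of the characters -/
def LocM : Prop :=
  ∀ α β : ZMod 2, (∀ l : ℕ, l.Prime → ((cx α β l).ker : Set GQ) ∈ 𝓝 1 ∧
      ∀ P : Ideal OQ, P.IsMaximal → (l : OQ) ∉ P → ∀ g ∈ P.inertia GQ, cx α β l g = 1) ∧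
    (∀ l m : ℕ, l.Prime → m.Prime → l ≠ m → ∀ σ, Fr l σ → (cx α β m σ).toAdd = lx α β l m) ∧
    (∃ c : GQ, c ^ 2 = 1 ∧ ∀ l : ℕ, l.Prime → (cx α β l c).toAdd = ex α l) ∧
    (α ≠ 0 ∨ β ≠ 0 → (∃ g, x2 α β g ≠ 1) ∧ ∀ l : ℕ, l.Prime → ∃ σ τ, Loc (cx α β l) l σ τ)

/-- inertia groups in `2`-extensions -/
def TamM : Prop :=
  (∀ (α β : ZMod 2) (l : ℕ) (σ τ : GQ), l.Prime → Loc (cx α β l) l σ τ → ∀ N, Op2 N →
    (l = 2 → ∀ P : Ideal OQ, P.IsMaximal → (l : OQ) ∈ P → ∀ g ∈ P.inertia GQ, x2 α β g = 1 →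
      g ∈ N) → τ ∈ N → ∀ P : Ideal OQ, P.IsMaximal → (l : OQ) ∈ P → ∀ g ∈ P.inertia GQ, g ∈ N) ∧
  ∀ (l : ℕ) (P : Ideal OQ) (σ : GQ), l.Prime → IsFrob l P σ → ∀ g ∈ P.inertia GQ,
    σ * g * σ⁻¹ ∈ P.inertia GQ

/-- existence of generators -/
def GenL : Prop :=
  ∀ (α β : ZMod 2) (Λ : Finset ℕ), α ≠ 0 ∨ β ≠ 0 → (∀ l ∈ Λ, l.Prime ∧ Odd l) →
    ∀ (H : Type) [Group H] [Finite H], ∃ (σ τ : Option Λ → GQ) (N : Subgroup GQ), Gn α β σ τ N ∧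
      (∀ θ : GQ →* H, AdX (x2 α β) Λ θ.ker → N ≤ θ.ker) ∧
      ∀ θ : GQ →* Cp 2, AdX (x2 α β) Λ θ.ker → N ≤ θ.ker

/-- homomorphisms give solutions -/
def SolM : Prop :=
  ∀ (P : Type) [Group P] (T : Fil 2 P), (∀ g : P, ∃ k, g ^ 2 ^ k = 1) →
    ∀ (α β : ZMod 2) (Λ : Finset ℕ) (σ τ : Option Λ → GQ) (N : Subgroup GQ), Gn α β σ τ N →
    (∀ θ : GQ →* P, AdX (x2 α β) Λ θ.ker → N ≤ θ.ker) →
    (∀ θ : GQ →* Cp 2, AdX (x2 α β) Λ θ.ker → N ≤ θ.ker) →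
    ∀ (d : ℕ) (v : Lr d (Option Λ) → FreeGroup (Option Λ)) (k : Lr d (Option Λ) → ℕ),
    (∀ u, ∃ b : ℕ, ¬ 2 ∣ b ∧ (FreeGroup.lift τ (v u))⁻¹ * σ u.2 ^ b ∈ N) →
    ∀ q : Fin d → Option Λ, Function.Injective q →
      (∀ i j, i ≠ j → rr (U := fun _ => Option Λ) (fun u => sbs d (v u) * FreeGroup.of u ^ k u)
        q 2 i j = lx α β (ov (q i)) (ov (q j))) ∧
      (Adz T (∏ j, cx α β (ov (q j))) →
        Sol T (fun u => sbs d (v u) * FreeGroup.of u ^ k u) q fun j => ex α (ov (q j)))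

/-- equidistribution of the random words -/
def EqaM : Prop :=
  ∀ (P : Type) [Group P] [Fintype P], (∀ g : P, ∃ k, g ^ 2 ^ k = 1) →
    ∀ (L : ℕ) (p : Par) (c D η : ℝ), p.Ok c (Fintype.card P ^ 2 ^ L) (2 * L) D η →
    ∀ (α β : ZMod 2) (σ τ : Option p.Λ → GQ) (N : Subgroup GQ), Gn α β σ τ N →
    ∀ (𝓡 : Type) [Fintype 𝓡] [Nonempty 𝓡] (s : 𝓡 → FreeGroup (Option p.Λ)),
    Unf P (N.comap (FreeGroup.lift τ)) s →
    ∀ wd : Option p.Λ → Exn (2 * Fintype.card P) → FreeGroup (Option p.Λ),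
    (∀ u a, (FreeGroup.lift τ (wd u a))⁻¹ * σ u ^ (a.1 : ℕ) ∈ N) →
    ∀ (d : ℕ) (w : Fin d → Option p.Λ → ℝ) (Sm Lg : Finset (Fin d)), Disjoint Sm Lg →
    (∀ j ∈ Sm, ∀ u, w j u ≠ 0 → ov u ∈ p.sm) →
    (∀ j ∈ Lg, ∀ u, w j u = u.elim 0 fun l => p.W 3 l / ms p.Λ p.W 3) →
    ∀ k : Lr d (Option p.Λ) → Exn (2 * Fintype.card P) × 𝓡 → ℕ,
    EQN Sm Lg P w (fun u a => sbs d (wd u.2 a.1 * s a.2) * FreeGroup.of u ^ k u a) L η

/-- extended tuples -/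
def ExtM : Prop :=
  (∀ (Λ : Finset ℕ) (d : ℕ) (w : Fin d → Λ → ℝ), (∀ l ∈ Λ, l.Prime ∧ Odd l) →
    (∀ F : (Fin (d + 1) → Option Λ) → ℝ,
      Ex (U := fun _ => Option Λ) (wx w) F = Ex (U := fun _ => Λ) w fun q => F (ext q)) ∧
    (Prob (U := fun _ => Λ) w → Prob (U := fun _ => Option Λ) (wx w)) ∧
    (∀ c y : ℝ, 0 < c → Tw (U := fun _ => Option Λ) (wx w) (kax c y)) ∧
    ∀ q : Fin d → Λ, (∀ c y : ℝ, kax c y (ext q) = kap c y q) ∧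
      (Function.Injective q → Function.Injective (ext q)) ∧
      (∀ α β, ∏ j, cx α β (ov (ext q j)) = x2 α β * Zq.chi (vl q)) ∧
      lkx 1 0 q = Psi (Fin.last d) (lkx 0 1 q)) ∧
  (∀ (d : ℕ) (S : Finset (Fin d)), Fin.last d ∉ up S ∧ ∀ i ∈ up S, i < Fin.last d) ∧
  (∀ (d m : ℕ) (δ : ℝ) (Sm Lg : Finset (Fin d)), 0 < δ → 2 / δ ≤ m → Thin (δ / 2) m Sm Lg →
    Thin δ m (up Sm) (up Lg)) ∧
  ∀ (p : Par) (c : ℝ) (n r : ℕ) (D η : ℝ), p.Ok c n r D η → ∀ (d : ℕ) (μ : Fin d → Fin 4),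
    Disjoint (up (mk μ 1)) (up (mk μ 3)) ∧
    (∀ j ∈ up (mk μ 1) ∪ up (mk μ 3), ∀ u, wx (wm p.Λ p.W μ) j u ≤ η) ∧
    (∀ j ∈ up (mk μ 1), ∀ u, wx (wm p.Λ p.W μ) j u ≠ 0 → ov u ∈ p.sm) ∧
    ∀ j ∈ up (mk μ 3), ∀ u, wx (wm p.Λ p.W μ) j u = u.elim 0 fun l => p.W 3 l / ms p.Λ p.W 3

/-- existence of the random words -/
def WordM : Prop :=
  ∀ (P : Type) [Group P] [Fintype P] (T : Fil 2 P), (∀ g : P, ∃ k, g ^ 2 ^ k = 1) → ∀ L : ℕ,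
    ∃ n r : ℕ, ∀ α β : ZMod 2, α ≠ 0 ∨ β ≠ 0 → ∀ (p : Par) (c D η : ℝ), p.Ok c n r D η →
    ∀ (d : ℕ) (μ : Fin d → Fin 4), ∃ (Y : Type) (_ : Fintype Y) (_ : Nonempty Y)
      (y : Lr (d + 1) (Option p.Λ) → Y → FreeGroup (Lr (d + 1) (Option p.Λ))),
      EQN (up (mk μ 1)) (up (mk μ 3)) P (wx (wm p.Λ p.W μ)) y L η ∧
      ∀ (a : Lr (d + 1) (Option p.Λ) → Y) (q : Fin d → p.Λ), Function.Injective q →
        rr (U := fun _ => Option p.Λ) (fun u => y u (a u)) (ext q) 2 = lkx α β q ∧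
        (Adz T (x2 α β * Zq.chi (vl q)) → Sol T (fun u => y u (a u)) (ext q) (dg (lkx α β q)))

/-- characters of tiny conductor -/
def TinyM : Prop :=
  ∀ (p : Par) (c : ℝ) (n r : ℕ) (D η : ℝ), p.Ok c n r D η → ∀ τ : ℝ, |τ| ≤ c → ∀ R ⊆ p.ti,
    (R.card : ℝ) ≤ D → ∀ b b' : ZMod 2, R.Nonempty ∨ b ≠ 0 ∨ b' ≠ 0 →
    ‖∑ l ∈ p.Λ, (p.W 3 l : ℂ) * tw τ l *
      sg (b * Zq.eps l + b' * lk 2 2 l + ∑ m ∈ R, lk 2 l m)‖ ≤ η

/-- oscillation of the matrix -/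
def OscM : Prop :=
  ∀ (α : ZMod 2) (p : Par) (c : ℝ) (n r : ℕ) (D η : ℝ), 0 < c → p.Ok c n r D η →
    ∀ (y : ℝ) (d : ℕ) (μ : Fin d → Fin 4), (d : ℝ) ≤ D →
      Osc (nux α (wm p.Λ p.W μ) c y) (up (mk μ 3)) ((d + 1) * η)

open Classical in
/-- most matrices are generic -/
def MatM : Prop :=
  ∀ α β : ZMod 2, α ≠ 0 ∨ β ≠ 0 →
    (∀ (l n : ℕ) (ε : ℝ), 0 < ε → ∃ B, ∀ (P : Type) [Group P] [Fintype P] (T : Fil 2 P) (L : ℕ),
      TS T L l n → l + 2 + 1 ≤ L → ∃ (D : Gd 2 P) (La : LaT D), Pk T D La L l n ∧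
      ∃ (δ C : ℝ) (m₀ : ℕ), 0 < δ ∧ 1 ≤ C ∧ ∀ (p : Par) (c : ℝ) (n' r : ℕ) (D' η : ℝ), 0 < c →
        p.Ok c n' r D' η → ∀ (y : ℝ) (d : ℕ) (μ : Fin d → Fin 4), (d : ℝ) ≤ D' →
        Thin δ m₀ (mk μ 1) (mk μ 3) →
        (Ex (U := fun _ => p.Λ) (wm p.Λ p.W μ) fun q => if Function.Injective q ∧
          ¬ GdQ (up (mk μ 1)) (up (mk μ 3)) T D La L l B (lkx α β q) then kap c y q else 0) ≤
        ε * Ex (U := fun _ => p.Λ) (wm p.Λ p.W μ) (kap c y) + C ^ (d + 1) * η) ∧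
    ∃ (δ C : ℝ) (m₀ : ℕ), 0 < δ ∧ 1 ≤ C ∧ ∀ (p : Par) (c : ℝ) (n' r : ℕ) (D' η : ℝ), 0 < c →
      p.Ok c n' r D' η → ∀ (y : ℝ) (d : ℕ) (μ : Fin d → Fin 4), (d : ℝ) ≤ D' →
      Thin δ m₀ (mk μ 1) (mk μ 3) →
      (Ex (U := fun _ => p.Λ) (wm p.Λ p.W μ) fun q =>
        if Function.Injective q then kap c y q * (Kp (lkx α β q)).ncard else 0) ≤
      32 * Ex (U := fun _ => p.Λ) (wm p.Λ p.W μ) (kap c y) + C ^ (d + 1) * η

section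
variable (χ : ℕ → GQ →* Cp 2)

/-- few characters admit a homomorphism to a given filtered group -/
def PtF : Prop :=
  ∀ (l n : ℕ) (ε : ℝ), 0 < ε → ∃ L, 2 ≤ L ∧ ∀ S : Sy 2, TE S.T L l n →
    Sp (fun m => Adz S.T (χ m)) ε

/-- the rank of the class group modulo four is small -/
def RkF : Prop :=
  ∀ ε : ℝ, 0 < ε → ∃ r, 1 ≤ r ∧ ∀ (S : Sy 2) co, Cd (-1 : ℤ) 3 r S co →
    Sp (fun m => Adz S.T (χ m)) ε

end

/-- even discriminants -/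
def PtM : Prop :=
  ∀ α β : ZMod 2, α ≠ 0 ∨ β ≠ 0 → PtF (fun m => x2 α β * chn m) ∧ RkF fun m => x2 α β * chn m

/-- powerful quotients in a family -/
def MainM : Prop :=
  ∀ χ : ℕ → GQ →* Cp 2, (∀ n, Odd n → Squarefree n → n ≠ 1 →
    IsOpen ((χ n).ker : Set GQ) ∧ ∃ g, χ n g ≠ 1) → PtF χ → RkF χ →
    ∀ ε : ℝ, 0 < ε → Sp (fun n => ¬ PowFM (χ n).ker) ε

/-- the characters of the quadratic fields -/
def KumM : Prop :=
  (∀ (α β : ZMod 2) (n : ℕ), Odd n → Squarefree n → n ≠ 1 →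
    IsOpen ((x2 α β * chn n).ker : Set GQ) ∧ ∃ g, (x2 α β * chn n) g ≠ 1) ∧
  x2 0 0 = 1 ∧ ∀ n : ℕ, Odd n → Squarefree n → ∃ s : ℤ, (s = n ∨ s = -n) ∧
    ∀ α β : ZMod 2, Km ((-1) ^ α.val * 2 ^ β.val * s) (x2 α β * chn n)

end Pool.Agent.MP_f68ac8_nt.Nd
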