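import Mathlib
import Pool.Agent.Mg.Fe23604m.G3360bb
import Pool.Agent.Mg.Fe23604m.G85b98f

set_option linter.all false

section

namespace Pool.Agent.MP_f68ac8_nt.Nd
open Zq Ev Pv Sv Zv Zk NumberField Finset Filter
open scoped Topology BigOperators commutatorElement

theorem level_NdPt (p l B : ℕ) (δ : ℝ) (hδ : 0 < δ) :
    ∃ L, 2 ≤ L ∧ l + p + 1 ≤ L ∧ (B : ℝ) ^ l / 2 ^ (L - p - l) ≤ δ := by
  obtain ⟨k, hk⟩ := pow_unbounded_of_one_lt ((B : ℝ) ^ l / δ) (one_lt_two (α := ℝ))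
  refine ⟨k + 2 + p + l, by omega, by omega, ?_⟩
  rw [show k + 2 + p + l - p - l = k + 2 by omega, div_le_iff₀ (by positivity)]
  rw [div_lt_iff₀ hδ] at hk
  have h : (0 : ℝ) < 2 ^ k * δ := by positivity
  rw [pow_add]
  nlinarith

theorem mono_NdPt {d : ℕ} {U : Fin d → Type} [∀ j, Fintype (U j)] {w : ∀ j, U j → ℝ}
    (hw : ∀ j u, 0 ≤ w j u) {f g : (∀ j, U j) → ℝ} (h : ∀ q, f q ≤ g q) : Ex w f ≤ Ex w g := by
  simp only [Ex, smul_eq_mul]
  exact Finset.sum_le_sum fun q _ =>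
    mul_le_mul_of_nonneg_left (h q) (Finset.prod_nonneg fun j _ => hw j _)

theorem add_NdPt {d : ℕ} {U : Fin d → Type} [∀ j, Fintype (U j)] (w : ∀ j, U j → ℝ)
    (f g : (∀ j, U j) → ℝ) : (Ex w fun q => f q + g q) = Ex w f + Ex w g := by
  simp only [Ex, smul_add, Finset.sum_add_distrib]

theorem div_NdPt {d : ℕ} {U : Fin d → Type} [∀ j, Fintype (U j)] (w : ∀ j, U j → ℝ)
    (f : (∀ j, U j) → ℝ) (a : ℝ) : (Ex w fun q => f q / a) = Ex w f / a := by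
  simp only [Ex, smul_eq_mul, Finset.sum_div, mul_div_assoc]

theorem pw_NdPt (C ξ η : ℝ) (d : ℕ) (hC : 1 ≤ C) (h0 : 0 ≤ η) (h1 : η ≤ ξ) :
    C ^ (d + 1) * ((d + 1) * η) ≤ (2 * C) ^ (d + 1) * ξ := by
  have h2 : (d : ℝ) + 1 ≤ 2 ^ (d + 1) := by
    have h3 : d + 1 < 2 ^ (d + 1) := Nat.lt_two_pow_self
    exact_mod_cast h3.le
  have h4 : 0 ≤ C ^ (d + 1) := by positivity
  rw [mul_pow, mul_comm ((2 : ℝ) ^ (d + 1)), mul_assoc]
  exact mul_le_mul_of_nonneg_left (mul_le_mul h2 h1 h0 (by positivity)) h4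

/-- the total mass of the distribution of the matrices -/
theorem mass_NdPt (hW : WmN) {p : Par} {c D η : ℝ} {n r : ℕ} (hp : p.Ok c n r D η) {d : ℕ}
    (μ : Fin d → Fin 4) (y : ℝ) (h0 : ∀ q : Fin d → p.Λ, 0 ≤ kap c y q) :
    ∑ r', nu (wm p.Λ p.W μ) c y r' ≤ Ex (U := fun _ => p.Λ) (wm p.Λ p.W μ) (kap c y) := by
  obtain ⟨w1, -, -, -, w5⟩ := (hW p c n r D η hp).2 d μ
  have h := w5 c y fun _ => 1
  simp only [mul_one] at h
  rw [h]
  refine mono_NdPt w1.1 fun q => ?_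
  split_ifs
  · exact le_rfl
  · exact h0 q

theorem ptN (hD : DensStmt) (hG : GenN) (hM : MultiN) (hd : GdStmt 2) (hV : WordN) (hT : TwN)
    (hW : WmN) (hO : OscN) (hC : ChnN) : PtN := by
  obtain ⟨c, hc, hD⟩ := hD
  intro l n ε hε
  obtain ⟨ε', hε', hD⟩ := hD ε hε
  obtain ⟨B, hB⟩ := hG l n (ε' / 2) (by positivity)
  obtain ⟨L, hL2, hL1, hL3⟩ := level_NdPt 2 l B (ε' / 2 / (n + 1)) (by positivity)
  have hL4 : (n : ℝ) * B ^ l / 2 ^ (L - 2 - l) ≤ ε' / 2 := by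
    rw [mul_div_assoc]
    refine (mul_le_mul_of_nonneg_left hL3 (Nat.cast_nonneg n)).trans ?_
    rw [← mul_div_assoc, div_le_iff₀ (by positivity)]
    nlinarith
  refine ⟨L, hL2, fun S hTE => ?_⟩
  obtain ⟨Dg, La, hPk, δ, C₁, m₀, hδ, hC₁, hgen⟩ := hB S.P S.T L hTE.toTS hL1
  obtain ⟨C₂, hC₂, hmul⟩ := hM S.P S.T Dg La L l n hPk hTE
  obtain ⟨n', r, hword⟩ := hV S.P S.T (hd S.P S.T L l n hPk.ts).1 L
  refine hD _ n' r m₀ L δ (2 * C₁ + C₂) hδ (by linarith)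
    fun p D ξ hξ0 hξ1 hp y d μ hdD hth => ?_
  obtain ⟨hη, hw⟩ := hW p c n' r D _ hp
  obtain ⟨w1, w2, w3, -, w5⟩ := hw d μ
  obtain ⟨Y, _, _, yw, hEQ, hy⟩ := hword p c D _ hp d μ
  have hpr : ∀ l ∈ p.Λ, l.Prime := fun l hl => (hp.pri l hl).1
  have htw := (hT c hc p.Λ hpr d (wm p.Λ p.W μ) y).1
  have hosc := hO p c n' r D _ hc hp y d μ hdD
  have h1 := hmul B d p.Λ (wm p.Λ p.W μ) Y yw (mk μ 1) (mk μ 3) ξ hξ0 hξ1 w1 w2
    (fun j hj u => (w3 j u (by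
      rcases Finset.mem_union.1 hj with h | h
      · rw [(Finset.mem_filter.1 h).2]
        decide
      · rw [(Finset.mem_filter.1 h).2]
        decide)).2) hEQ (kap c y) htw
    (fun q => Function.Injective q ∧ GdQ (mk μ 1) (mk μ 3) S.T Dg La L l B (lk2 (vl q)) ∧
      Adz S.T (Zq.chi (vl q))) (by
      rintro q ⟨q1, q2, q3⟩ a
      obtain ⟨e1, e2⟩ := hy a q q1
      obtain ⟨z, z1, z2, z3, z4⟩ := e2 q3
      refine ⟨e1 ▸ q2, z, z1, z2, z3, ?_⟩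
      rw [e1]
      exact z4 Dg hPk.gd hPk.ts.one)
  have h2 := hgen d _ _ _ _ hosc hth
  rw [w5] at h2
  have h3 := mass_NdPt hW hp μ y htw.1
  have h4 : 0 ≤ Ex (U := fun _ => p.Λ) (wm p.Λ p.W μ) (kap c y) :=
    (Finset.sum_nonneg fun r _ => hosc.nn r).trans h3
  have h5 := pw_NdPt C₁ ξ (ξ ^ 2 ^ L) d hC₁ hη (pow_le_of_le_one hξ0 hξ1 (by positivity))
  have h6 : (2 * C₁) ^ (d + 1) + C₂ ^ (d + 1) ≤ (2 * C₁ + C₂) ^ (d + 1) :=
    pow_add_pow_le (by linarith) (by linarith) (Nat.succ_ne_zero d)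
  have h7 := mul_le_mul_of_nonneg_right h6 hξ0
  have h8 := mul_le_mul_of_nonneg_right hL4 h4
  have h9 := mul_le_mul_of_nonneg_left h3 (by positivity : 0 ≤ ε' / 2)
  refine le_trans ?_ ((add_le_add h1 h2).trans ?_)
  · rw [← add_NdPt]
    refine mono_NdPt w1.1 fun q => ?_
    have k0 := htw.1 q
    by_cases a : Function.Injective q ∧ Adz S.T (chn (np q))
    · rw [if_pos a, if_pos a.1]
      by_cases b : GdQ (mk μ 1) (mk μ 3) S.T Dg La L l B (lk2 (vl q))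
      · rw [if_pos b, if_pos ⟨a.1, b, hC.1 p.Λ d q hpr a.1 ▸ a.2⟩, mul_zero, add_zero]
        exact le_rfl
      · rw [if_neg b, if_neg fun h => b h.2.1, mul_one, zero_add]
        exact le_rfl
    · rw [if_neg a]
      refine add_nonneg ?_ ?_
      · split_ifs
        · exact k0
        · exact le_rfl
      · split_ifs
        · rw [mul_zero]
        · rw [mul_one]
          exact k0
        · exact le_rfl
  · change _ ≤ ε' * Ex (U := fun _ => p.Λ) (wm p.Λ p.W μ) (kap c y) + _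
    linarith

theorem rkN (hD : DensStmt) (hK : K1N) (hL : KlStmt) (hd : GdStmt 2) (hV : WordN) (hT : TwN)
    (hW : WmN) (hO : OscN) (hC : ChnN) : RkN := by
  obtain ⟨c, hc, hD⟩ := hD
  intro ε hε
  obtain ⟨ε', hε', hD⟩ := hD ε hε
  obtain ⟨k, hk⟩ := pow_unbounded_of_one_lt (16 / ε') (one_lt_two (α := ℝ))
  have hr1 : (1 : ℝ) ≤ 2 ^ (k + 1) := one_le_pow₀ one_le_two
  have hr0 : (0 : ℝ) < 2 ^ (k + 1) := by positivity
  have hr : 16 ≤ ε' * 2 ^ (k + 1) := by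
    rw [div_lt_iff₀ hε'] at hk
    have h : (0 : ℝ) < 2 ^ k * ε' := by positivity
    rw [pow_succ]
    nlinarith
  refine ⟨k + 1, by omega, fun S co hCd => ?_⟩
  obtain ⟨δ, C₁, hδ, hC₁, hker⟩ := hK.2
  obtain ⟨n, hTS⟩ := hCd.ts
  obtain ⟨n', r, hword⟩ := hV S.P S.T (hd S.P S.T 3 1 n hTS).1 0
  refine hD _ n' r 0 0 δ (2 * C₁) hδ (by linarith) fun p D ξ hξ0 hξ1 hp y d μ hdD hth => ?_
  obtain ⟨hη, hw⟩ := hW p c n' r D _ hp
  obtain ⟨w1, -, -, -, w5⟩ := hw d μ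
  obtain ⟨Y, _, ⟨a₀⟩, yw, -, hy⟩ := hword p c D _ hp d μ
  have hpr : ∀ l ∈ p.Λ, l.Prime := fun l hl => (hp.pri l hl).1
  have htw := (hT c hc p.Λ hpr d (wm p.Λ p.W μ) y).1
  have hosc := hO p c n' r D _ hc hp y d μ hdD
  have h2 := hker d _ _ _ hosc hth.thin
  rw [w5 c y fun r => ((Kp r).ncard : ℝ)] at h2
  have h3 := mass_NdPt hW hp μ y htw.1
  have h4 : 0 ≤ Ex (U := fun _ => p.Λ) (wm p.Λ p.W μ) (kap c y) :=
    (Finset.sum_nonneg fun r _ => hosc.nn r).trans h3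
  have h5 := pw_NdPt C₁ ξ (ξ ^ 2 ^ 0) d hC₁ hη (pow_le_of_le_one hξ0 hξ1 (by positivity))
  have h6 : 0 ≤ (2 * C₁) ^ (d + 1) * ξ := by positivity
  refine le_trans ?_ ((div_le_div_of_nonneg_right h2 hr0.le).trans ?_)
  · rw [← div_NdPt]
    refine mono_NdPt w1.1 fun q => ?_
    have k0 := htw.1 q
    by_cases a : Function.Injective q ∧ Adz S.T (chn (np q))
    · rw [if_pos a, if_pos a.1, le_div_iff₀ hr0]
      obtain ⟨e1, e2⟩ := hy (fun _ => a₀) q a.1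
      obtain ⟨z, z1, z2, z3, -⟩ := e2 (hC.1 p.Λ d q hpr a.1 ▸ a.2)
      have h7 := hL (k + 1) S co hCd d (fun _ => p.Λ) _ q z z1 z2 z3
      rw [e1] at h7
      exact mul_le_mul_of_nonneg_left (by exact_mod_cast h7) k0
    · rw [if_neg a]
      refine div_nonneg ?_ hr0.le
      split_ifs
      · exact mul_nonneg k0 (Nat.cast_nonneg _)
      · exact le_rfl
  · change _ ≤ ε' * Ex (U := fun _ => p.Λ) (wm p.Λ p.W μ) (kap c y) + _
    rw [div_le_iff₀ hr0]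
    have h7 := mul_le_mul_of_nonneg_right hr h4
    have h8 := mul_le_mul_of_nonneg_left hr1 h6
    nlinarith

end Pool.Agent.MP_f68ac8_nt.Nd

end

section

/-! Generators of the Galois groups of `p`-extensions of the rational numbers. -/

namespace Pool.Agent.MP_f68ac8_nt.Zk
open Ev Pv Sv Zv
open scoped commutatorElement
open NumberField Filter
open scoped Pointwise Topology

theorem pgrp_ZmGen {p : ℕ} [Fact p.Prime] {G : Type} [Group G] {N A : Subgroup G} [N.Normal]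
    [N.FiniteIndex] (hN : N ≤ A) (hp : ∀ g : G, ∃ k, g ^ p ^ k ∈ N) (hA : A ≠ ⊤) :
    ∃ M : Subgroup G, M.Normal ∧ A ≤ M ∧ M ≠ ⊤ := by
  have hs := QuotientGroup.mk'_surjective N
  have h1 : IsPGroup p (G ⧸ N) := fun x => by
    obtain ⟨g, rfl⟩ := hs x
    obtain ⟨k, hk⟩ := hp g
    exact ⟨k, by rw [← map_pow]; exact (QuotientGroup.eq_one_iff _).2 hk⟩
  have := h1.isNilpotent
  have h2 : A.map (QuotientGroup.mk' N) ≠ ⊤ := fun e => hA (by
    rw [← Subgroup.comap_map_eq_self (f := QuotientGroup.mk' N) (H := A)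
      (by rwa [QuotientGroup.ker_mk']), e, Subgroup.comap_top])
  obtain ⟨M, hM, h3⟩ := (eq_top_or_exists_le_coatom _).resolve_left h2
  have := Subgroup.NormalizerCondition.normal_of_coatom M Group.normalizerCondition_of_isNilpotent hM
  refine ⟨M.comap (QuotientGroup.mk' N), inferInstance, Subgroup.map_le_iff_le_comap.1 h3,
    fun e => hM.1 ?_⟩
  rw [← Subgroup.map_comap_eq_self_of_surjective hs M, e, Subgroup.map_top_of_surjective _ hs]

theorem fi_ZmGen {K : IntermediateField ℚ Qb} {N : Subgroup (GK K)}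
    (h : (N : Set (GK K)) ∈ 𝓝 1) : N.FiniteIndex := by
  obtain ⟨s, hs, h1⟩ := (mem_nhds_subtype _ _ _).1 h
  obtain ⟨L, _, _, hL⟩ := exists_level hs
  exact Subgroup.finiteIndex_of_le (H := ((res L).comp K.fixingSubgroup.subtype).ker)
    fun g hg => h1 (hL _ hg)

theorem top_ZmGen {K : IntermediateField ℚ Qb} (hK : ∀ g : GQ, (toK K g).1 = g)
    {M : Subgroup (GK K)} (h1 : M.Normal) (h2 : (M : Set (GK K)) ∈ 𝓝 1)
    (h3 : ∀ (P : Ideal OQ) (g : GK K), P.IsMaximal → g.1 ∈ P.inertia GQ → g ∈ M) : M = ⊤ := by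
  have := h1.map K.fixingSubgroup.subtype fun g => ⟨toK K g, hK g⟩
  obtain ⟨s, hs, h4⟩ := (mem_nhds_subtype _ _ _).1 h2
  have h5 := eq_top_of_open (M.map K.fixingSubgroup.subtype)
    (mem_of_superset hs fun g hg => ⟨toK K g, h4 (by rwa [Set.mem_preimage, hK]), hK g⟩)
    fun P hP g hg => ⟨toK K g, h3 P _ hP (by rwa [hK]), hK g⟩
  refine eq_top_iff.2 fun g _ => ?_
  rw [← Subgroup.mem_map_iff_mem K.fixingSubgroup.subtype_injective, h5]
  trivial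

section
variable {p : ℕ} {K : IntermediateField ℚ Qb} {Q : Set (Ideal (𝓞 K))}

theorem all_ZmGen : AdmP p Q ⊤ :=
  ⟨inferInstance, univ_mem, fun _ => ⟨0, trivial⟩, fun _ _ _ _ _ => trivial⟩

theorem inf_ZmGen {N N' : Subgroup (GK K)} (h : AdmP p Q N) (h' : AdmP p Q N') :
    AdmP p Q (N ⊓ N') := by
  have := h.nrm
  have := h'.nrm
  refine ⟨inferInstance, inter_mem h.nhds h'.nhds, fun g => ?_,
    fun P g a b c => ⟨h.unr P g a b c, h'.unr P g a b c⟩⟩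
  obtain ⟨k, hk⟩ := h.pg g
  obtain ⟨k', hk'⟩ := h'.pg g
  refine ⟨k + k', ?_, ?_⟩
  · rw [pow_add, pow_mul]
    exact pow_mem hk _
  · rw [add_comm, pow_add, pow_mul]
    exact pow_mem hk' _

theorem many_ZmGen {H : Type} [Group H] {T : Set (GK K →* H)} (hT : T.Finite) :
    (∀ θ ∈ T, AdmP p Q θ.ker) → ∃ N, AdmP p Q N ∧ ∀ θ ∈ T, N ≤ θ.ker := by
  induction T, hT using Set.Finite.induction_on with
  | empty => exact fun _ => ⟨_, all_ZmGen, fun _ h => h.elim⟩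
  | @insert a s _ _ ih =>
    intro h
    obtain ⟨N, h1, h3⟩ := ih fun θ hθ => h θ (Set.mem_insert_of_mem _ hθ)
    refine ⟨N ⊓ a.ker, inf_ZmGen h1 (h a (Set.mem_insert _ _)), ?_⟩
    rintro θ (rfl | hθ)
    · exact inf_le_right
    · exact inf_le_left.trans (h3 θ hθ)

end

theorem genP_stmt (p : ℕ) [Fact p.Prime] (hP : PrimStmt p) (hR : Zv.RestrStmt p)
    (hF : FincStmt) : GenPStmt p := by
  intro K F _ _ hB hK hFc
  have hp : p.Prime := Fact.out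
  have A2 : ∀ c : Co, c.Ok p K F → ∀ N : Subgroup (GK K), N.Normal → (N : Set (GK K)) ∈ 𝓝 1 →
      (∀ g : GK K, ∃ k, g ^ p ^ k ∈ N) → toK K c.τ ∈ N → ∀ (P : Ideal OQ) (g : GK K),
      P.IsMaximal → g.1 ∈ P.inertia GQ → P.under (𝓞 K) = pr K c → g ∈ N := by
    intro c hc N h1 h2 h3 h4 P g h5 h6 e
    have h7 : (c.l : OQ) ∈ P := by
      have : (c.l : 𝓞 K) ∈ pr K c := by
        rw [Ideal.mem_comap, map_natCast]
        exact hc.mem
      rwa [← e, Ideal.mem_comap, map_natCast] at this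
    exact (hR K F hB c hc N h1 h2 fun g _ => h3 g).2 h4 P g ⟨h5, h6, (hFc _).2 (cyc_inertia
      (not_mem_of_coprime h7 ((Nat.coprime_primes hc.prime hp).2 hc.ne)) h6)⟩ e
  have A3 : ∀ (J : Type) (c : J → Co), (∀ j, (c j).Ok p K F) → ∀ N,
      AdmP p (Set.range fun j => pr K (c j)) N →
      Subgroup.closure (Set.range fun j => toK K (c j).τ) ⊔ N = ⊤ := by
    intro J c hc N hN
    by_contra hA
    have := hN.nrm
    have := fi_ZmGen hN.nhds
    obtain ⟨M, h1, h2, h3⟩ := pgrp_ZmGen le_sup_right hN.pg hA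
    have h4 : N ≤ M := le_sup_right.trans h2
    have h5 : (M : Set (GK K)) ∈ 𝓝 1 := mem_of_superset hN.nhds h4
    refine h3 (top_ZmGen (hP K F hB hK hFc).1 h1 h5 fun P g a b => ?_)
    by_cases e : P.under (𝓞 K) ∈ Set.range fun j => pr K (c j)
    · obtain ⟨j, e⟩ := e
      exact A2 _ (hc j) M h1 h5 (fun g => (hN.pg g).imp fun _ h => h4 h)
        (h2 (Subgroup.mem_sup_left (Subgroup.subset_closure ⟨j, rfl⟩))) P g a b e.symm
    · exact h4 (hN.unr P g a b e)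
  refine ⟨fun Q => ⟨all_ZmGen, fun _ _ => inf_ZmGen⟩, A2, A3, fun Λ _ x hx hinj H _ _ => ?_⟩
  have hgen := A3 Λ x fun y => (hx y).1
  have hT := fun (H : Type) [Group H] [Finite H] => (hF (GK K) H
    {N | AdmP p (Set.range fun y => pr K (x y)) N} (Set.range fun j => toK K (x j).τ)
    (Set.finite_range _) (fun _ a _ b => inf_ZmGen a b) hgen).2
  obtain ⟨N, h1, h2⟩ := many_ZmGen (hT H) fun _ h => h
  obtain ⟨N', h3, h4⟩ := many_ZmGen (hT (Cp p)) fun _ h => h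
  have h5 := inf_ZmGen h1 h3
  refine ⟨N ⊓ N', ⟨hx, hinj, h5, fun g => ?_⟩, fun θ h => inf_le_left.trans (h2 θ h),
    fun θ h => inf_le_right.trans (h4 θ h)⟩
  have := h5.nrm
  have hg : g ∈ Subgroup.closure (Set.range fun j => toK K (x j).τ) ⊔ (N ⊓ N') := by
    rw [hgen _ h5]
    trivial
  obtain ⟨y, hy, z, hz, rfl⟩ := Subgroup.mem_sup_of_normal_right.1 hg
  rw [← FreeGroup.range_lift_eq_closure] at hy
  obtain ⟨w, rfl⟩ := hy
  refine ⟨w, ?_⟩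
  change (lwp K x w)⁻¹ * (lwp K x w * z) ∈ N ⊓ N'
  rwa [inv_mul_cancel_left]

end Pool.Agent.MP_f68ac8_nt.Zk

end
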