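import Mathlib
import Pool.Agent.Mg.Fe23604m.Gc7c2d8
import Pool.Agent.Mg.Fe23604m.G65b452
import Pool.Agent.Mg.Fe23604m.Ga53936
import Pool.Agent.MP_f68ac8_nt.EvRec
import Pool.Agent.Mg.Fe23604m.G200097

set_option linter.all false

section

namespace Pool.Agent.MP_f68ac8_nt.Nd
open Ev Pv Sv Zv Zk NumberField Finset Filter
open scoped Topology BigOperators commutatorElement

theorem sqrt_NjBil {x : ℝ} (hx : 1 / 2 ≤ x) (j : ℕ) : √x + j / 5 ≤ √(2 ^ j * x) := by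
  induction j with
  | zero => simp
  | succ j ih =>
    have h1 : (1 : ℝ) ≤ 2 ^ j := one_le_pow₀ one_le_two
    have h2 : 1 / 2 ≤ 2 ^ j * x := by nlinarith
    have h3 : 7 / 10 ≤ √(2 ^ j * x) := Real.le_sqrt_of_sq_le (by linarith)
    have h4 := Real.sq_sqrt (show 0 ≤ 2 ^ j * x by linarith)
    have h5 : √(2 ^ j * x) + 1 / 5 ≤ √(2 ^ (j + 1) * x) :=
      Real.le_sqrt_of_sq_le (by rw [pow_succ 2 j]; nlinarith)
    push_cast
    linarith

theorem geom_NjBil {Z : ℝ} (hZ : 2 ≤ Z) (N : ℕ) :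
    ∑ i ∈ range N, Real.exp (-√(Real.log (Z ^ 2 ^ i))) ≤
      (1 - Real.exp (-(1 / 5)))⁻¹ * Real.exp (-√(Real.log Z)) := by
  have hρ : Real.exp (-(1 / 5)) < 1 := Real.exp_lt_one_iff.2 (by norm_num)
  have hρ0 := (Real.exp_pos (-(1 / 5))).le
  have hx : 1 / 2 ≤ Real.log Z :=
    (by linarith [Real.log_two_gt_d9] : 1 / 2 ≤ Real.log 2).trans (Real.log_le_log two_pos hZ)
  have h1 : ∀ i : ℕ, Real.exp (-√(Real.log (Z ^ 2 ^ i))) ≤
      Real.exp (-(1 / 5)) ^ i * Real.exp (-√(Real.log Z)) := fun i => by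
    rw [← Real.exp_nat_mul, ← Real.exp_add, Real.log_pow]
    have := sqrt_NjBil hx i
    push_cast
    exact Real.exp_le_exp.2 (by linarith)
  refine (sum_le_sum fun i _ => h1 i).trans ?_
  rw [← sum_mul]
  refine mul_le_mul_of_nonneg_right ?_ (Real.exp_pos _).le
  rw [← tsum_geometric_of_lt_one hρ0 hρ]
  exact (summable_geometric_of_lt_one hρ0 hρ).sum_le_tsum _ fun i _ => by positivity

theorem inv_NjBil {L : ℝ} (hL : 2 ≤ L) : L⁻¹ ≤ Real.exp 1 * Real.exp (-√(Real.log L)) := by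
  have h0 : 0 ≤ Real.log L := Real.log_nonneg (by linarith)
  have h1 := Real.sq_sqrt h0
  rw [← Real.exp_add, ← Real.exp_log (show 0 < L⁻¹ by positivity), Real.log_inv]
  exact Real.exp_le_exp.2 (by nlinarith [sq_nonneg (√(Real.log L) - 1)])

theorem short_NjBil (p : ℕ) [Fact p.Prime] (hM : MertStmt) (hW : WdJ p) (hK : KumJ p)
    (hB : Bil1P p) : ∃ (r C : ℝ) (e : ℕ), 0 < r ∧ 0 < C ∧
    ∀ (s L : ℝ) (A B : Finset ℕ) (a b : ℕ → ℂ) (u v : ZMod p), 1 < s → s ≤ 1 + r → 2 ≤ L →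
      u ≠ 0 ∨ v ≠ 0 → (∀ l ∈ A, Zk.P1 p l ∧ L ≤ l ∧ ‖a l‖ ≤ (l : ℝ) ^ (-s)) →
      (∀ m ∈ B, Zk.P1 p m ∧ L ≤ m ∧ m < L ^ 2 ∧ ‖b m‖ ≤ (m : ℝ) ^ (-s)) →
      ‖∑ l ∈ A, ∑ m ∈ B, if l = m then 0 else
        a l * b m * ZMod.stdAddChar (u * lk p l m + v * lk p m l)‖ ≤
        C / (s - 1) ^ e * Real.exp (-√(Real.log L)) := by
  classical
  obtain ⟨χ₀, hχ⟩ := hW.2
  obtain ⟨r, C, e, hr, hr1, hC, h⟩ := hB (p ^ 3)
  have hK1 : ∀ l, ∃ σ, Zk.P1 p l → Fr l σ ∧ ∀ m : ℕ, m.Prime → m ≠ l → lk p m l = KK p m σ :=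
    fun l => by
      by_cases hl : Zk.P1 p l
      · obtain ⟨σ, hσ⟩ := hK.1 l hl
        exact ⟨σ, fun _ => hσ⟩
      · exact ⟨1, fun k => absurd k hl⟩
  choose σ hσ using hK1
  have he := Real.exp_pos 1
  refine ⟨r, C + Real.exp 1, e + 1, hr, by linarith, ?_⟩
  intro s L A B a b u v hs1 hs2 hL huv hA hBB
  obtain ⟨Ψ, hΨ⟩ : ∃ Ψ : ℕ → GQ → ZMod p, ∀ m g,
    Ψ m g = Aq χ₀ {m} (fun _ => u) g + Bq {m} (fun _ => v) g := ⟨_, fun _ _ => rfl⟩
  have hN : ∀ m, ∃ N, Zk.P1 p m → Ad0 (p ^ 3) {p, m} N ∧ AdZ p N (Ψ m) := fun m => by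
    by_cases hm : Zk.P1 p m
    · obtain ⟨k1, k2, -, ⟨N, k3, k4⟩, -⟩ := hK.2 χ₀ hχ {m} (fun _ => u) (fun _ => v)
        fun n hn => by rw [mem_singleton.1 hn]; exact ⟨hm.1, Or.inl hm.2⟩
      refine ⟨N, fun _ => ⟨k3.toAd0, k3.le, fun g hg g' _ => ?_, fun g hg => ?_⟩⟩
      · rw [hΨ, hΨ, hΨ, k1, k2 g hg]
        ring
      · rw [hΨ, ((k4 g).1 hg).2.1, ((k4 g).1 hg).2.2, add_zero]
    · exact ⟨⊤, fun k => absurd k hm⟩
  choose N hN using hN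
  have h1 := h s L A B a b σ N Ψ hs1 hs2 hL
    (fun l hl => ⟨(hA l hl).1.1, (hA l hl).1.2, (hσ l (hA l hl).1).1, (hA l hl).2⟩)
    (fun m hm => ⟨(hBB m hm).1.1, (hBB m hm).2.1, (hBB m hm).2.2.1, (hBB m hm).2.2.2,
      hN m (hBB m hm).1⟩) fun m hm m' hm' hne => by
      obtain ⟨-, -, -, -, k⟩ := hK.2 χ₀ hχ {m, m'} (fun n => if n = m then u else -u)
        (fun n => if n = m then v else -v) fun n hn => by
          rcases mem_insert.1 hn with rfl | hn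
          · exact ⟨(hBB n hm).1.1, Or.inl (hBB n hm).1.2⟩
          · rw [mem_singleton.1 hn]
            exact ⟨(hBB m' hm').1.1, Or.inl (hBB m' hm').1.2⟩
      obtain ⟨z, hz, k1⟩ := k ⟨m, mem_insert_self _ _, by simpa using huv⟩
      refine ⟨z, hz, fun e1 => ?_⟩
      rw [hΨ, hΨ] at e1
      simp only [Aq, Bq, sum_singleton, sum_pair hne, if_true, if_neg hne.symm] at e1 k1
      rcases k1 with ⟨k1, k2⟩ | ⟨k2, k1⟩
      · exact k1 (by linear_combination e1 - k2)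
      · exact k1 (by linear_combination e1 - k2)
  have e1 : (∑ l ∈ A, ∑ m ∈ B, if l = m then 0 else
      a l * b m * ZMod.stdAddChar (u * lk p l m + v * lk p m l)) =
      ∑ l ∈ A, ∑ m ∈ B, a l * b m * ZMod.stdAddChar (Ψ m (σ l)) -
      ∑ l ∈ A, ∑ m ∈ B, if l = m then a l * b m * ZMod.stdAddChar (Ψ m (σ l)) else 0 := by
    simp only [← sum_sub_distrib]
    refine sum_congr rfl fun l hl => sum_congr rfl fun m hm => ?_
    by_cases k : l = m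
    · rw [if_pos k, if_pos k, sub_self]
    · obtain ⟨⟨P, k1, k2, k3⟩, k4⟩ := hσ l (hA l hl).1
      rw [if_neg k, if_neg k, sub_zero, hΨ, Aq, Bq, sum_singleton, sum_singleton, cq,
        if_neg (ne_ZmCh (hBB m hm).1), lk_ZmCh (hA l hl).1.1 (hBB m hm).1 (Ne.symm k) k1 k2 k3,
        k4 m (hBB m hm).1.1 (Ne.symm k)]
  have hs0 : 0 < s - 1 := by linarith
  have h2 : ‖∑ l ∈ A, ∑ m ∈ B, if l = m then a l * b m * ZMod.stdAddChar (Ψ m (σ l)) else 0‖ ≤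
      1 / (s - 1) * L⁻¹ := by
    refine (norm_sum_le _ _).trans ((sum_le_sum (g := fun l : ℕ => (l : ℝ) ^ (-s) * L⁻¹)
      fun l hl => ?_).trans ?_)
    · rw [sum_ite_eq]
      split_ifs with k
      · rw [norm_mul, norm_mul, AddChar.norm_apply, mul_one]
        refine mul_le_mul (hA l hl).2.2 ((hBB l k).2.2.2.trans ?_) (norm_nonneg _) (by positivity)
        have k1 := (hA l hl).2.1
        refine (Real.rpow_le_rpow_of_exponent_le (by linarith) (by linarith : -s ≤ -1)).trans ?_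
        rw [Real.rpow_neg_one]
        exact inv_anti₀ (by linarith) k1
      · rw [norm_zero]
        positivity
    · rw [← sum_mul]
      refine mul_le_mul_of_nonneg_right ?_ (by positivity)
      have k1 := hM.2 (s - 1) A hs0 fun l hl => (hA l hl).1.1
      rw [add_sub_cancel] at k1
      have k2 := Real.log_le_sub_one_of_pos (show 0 < 1 + 1 / (s - 1) by positivity)
      linarith
  rw [e1]
  refine (norm_sub_le _ _).trans ((add_le_add h1 (h2.trans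
    (mul_le_mul_of_nonneg_left (inv_NjBil hL) (by positivity)))).trans ?_)
  rw [← mul_assoc, ← add_mul, add_div, one_div_mul_eq_div]
  refine mul_le_mul_of_nonneg_right (add_le_add ?_ ?_) (Real.exp_pos _).le
  · exact div_le_div_of_nonneg_left hC.le (by positivity)
      (pow_le_pow_of_le_one hs0.le (by linarith) (Nat.le_succ e))
  · exact div_le_div_of_nonneg_left he.le (by positivity)
      (pow_le_of_le_one hs0.le (by linarith) (Nat.succ_ne_zero e))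

theorem bilJ (p : ℕ) [Fact p.Prime] (hM : MertStmt) (hW : WdJ p) (hK : KumJ p) (hB : Bil1P p) :
    BilJ p := by
  obtain ⟨r, C, e, hr, hC, h⟩ := short_NjBil p hM hW hK hB
  have hρ : Real.exp (-(1 / 5)) < 1 := Real.exp_lt_one_iff.2 (by norm_num)
  have hk : 0 < (1 - Real.exp (-(1 / 5)))⁻¹ := inv_pos.2 (by linarith)
  refine ⟨r, 2 * (C * (1 - Real.exp (-(1 / 5)))⁻¹), e, hr, by positivity, ?_⟩
  intro s Z A a b u v hs1 hs2 hZ huv hA
  have hs0 : 0 < s - 1 := by linarith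
  choose j hj using fun l : ℕ => idx_NeBil hZ (l : ℝ)
  have hN : ∀ l ∈ A, j l < A.sup j + 1 := fun l hl => Nat.lt_succ_of_le (le_sup hl)
  have key : ∀ (R : ℕ → ℕ → Prop) [∀ i l, Decidable (R i l)] (a b : ℕ → ℂ) (u v : ZMod p),
      u ≠ 0 ∨ v ≠ 0 → (∀ i l, R i l → i ≤ j l) → (∀ l ∈ A, ‖a l‖ ≤ (l : ℝ) ^ (-s)) →
      (∀ l ∈ A, ‖b l‖ ≤ (l : ℝ) ^ (-s)) →
      ‖∑ l ∈ A, ∑ l' ∈ A, (if R (j l') l then (if l = l' then 0 else
        a l * b l' * ZMod.stdAddChar (u * lk p l l' + v * lk p l' l)) else 0)‖ ≤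
        C * (1 - Real.exp (-(1 / 5)))⁻¹ / (s - 1) ^ e * Real.exp (-√(Real.log Z)) := by
    intro R _ a b u v huv hR ha hb
    rw [split_NeBil A j _ hN R]
    refine (norm_sum_le _ _).trans ((sum_le_sum fun i _ =>
      h s (Z ^ 2 ^ i) _ _ a b u v hs1 hs2 ?_ huv (fun l hl => ?_) fun l hl => ?_).trans ?_)
    · exact hZ.trans (le_self_pow₀ (by linarith) (by positivity))
    · obtain ⟨hl, hl'⟩ := mem_filter.1 hl
      refine ⟨(hA l hl).1, le_trans ?_ (hj l (hA l hl).2.1).1, ha l hl⟩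
      exact pow_le_pow_right₀ (by linarith) (Nat.pow_le_pow_right two_pos (hR i l hl'))
    · obtain ⟨hl2, hl3⟩ := mem_filter.1 hl
      rw [← hl3]
      exact ⟨(hA l hl2).1, (hj l (hA l hl2).2.1).1, (hj l (hA l hl2).2.1).2, hb l hl2⟩
    · rw [← mul_sum]
      refine (mul_le_mul_of_nonneg_left (geom_NjBil hZ _) (by positivity)).trans (le_of_eq ?_)
      ring
  have ha : ∀ l ∈ A, ‖a l‖ ≤ (l : ℝ) ^ (-s) := fun l hl => (hA l hl).2.2.1
  have hb : ∀ l ∈ A, ‖b l‖ ≤ (l : ℝ) ^ (-s) := fun l hl => (hA l hl).2.2.2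
  have k1 := key (fun i l => i ≤ j l) a b u v huv (fun _ _ h => h) ha hb
  have k2 := key (fun i l => i < j l) b a v u huv.symm (fun _ _ h => h.le) hb ha
  rw [sum_comm] at k2
  have e1 : (∑ l ∈ A, ∑ l' ∈ A, if l = l' then 0 else
      a l * b l' * ZMod.stdAddChar (u * lk p l l' + v * lk p l' l)) =
      ∑ l ∈ A, ∑ l' ∈ A, (if j l' ≤ j l then (if l = l' then 0 else
        a l * b l' * ZMod.stdAddChar (u * lk p l l' + v * lk p l' l)) else 0) +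
      ∑ l ∈ A, ∑ l' ∈ A, (if j l < j l' then (if l' = l then 0 else
        b l' * a l * ZMod.stdAddChar (v * lk p l' l + u * lk p l l')) else 0) := by
    simp only [← sum_add_distrib]
    refine sum_congr rfl fun l _ => sum_congr rfl fun l' _ => ?_
    by_cases hj' : j l' ≤ j l
    · rw [if_pos hj', if_neg (not_lt.2 hj'), add_zero]
    · have k : l ≠ l' := fun k => hj' (by rw [k])
      rw [if_neg hj', if_pos (not_le.1 hj'), zero_add, if_neg k, if_neg k.symm, add_comm,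
        mul_comm (a l)]
  rw [e1]
  refine (norm_add_le _ _).trans ((add_le_add k1 k2).trans (le_of_eq ?_))
  ring

end Pool.Agent.MP_f68ac8_nt.Nd

end

section

namespace Pool.Agent.MP_f68ac8_nt.Nd
open Ev Pv Sv Zv Zk NumberField Finset Filter
open scoped Topology BigOperators commutatorElement

section
variable {p : ℕ} [hp : Fact p.Prime]

theorem ad_NjLoc {χ₀ : GQ →* Cp p} (h : Wd χ₀) : Ad0 p {p} χ₀.ker := by
  refine ⟨fun l hl => Finset.mem_singleton.1 hl ▸ hp.out, inferInstance, h.nhds, ?_,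
    fun P hP hl g hg => h.unr P hP (hl p (Finset.mem_singleton_self p)) g hg⟩
  rw [Subgroup.index_ker]
  refine ⟨Nat.card_pos.ne', (Subgroup.card_le_card_group _).trans (le_of_eq ?_)⟩
  rw [Nat.card_eq_fintype_card, Fintype.card_multiplicative, ZMod.card]

theorem psi_NjLoc : ∃ ψ : (ZMod (p ^ 2))ˣ →* Cp p, ∃ u, ψ u ≠ 1 := by
  have hc : IsCyclic (ZMod (p ^ 2))ˣ := by
    by_cases e : p = 2
    · subst e
      exact ZMod.isCyclic_units_four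
    · exact ZMod.isCyclic_units_of_prime_pow p hp.out e 2
  have hd : p ∣ Nat.card (ZMod (p ^ 2))ˣ := by
    rw [Nat.card_eq_fintype_card, ZMod.card_units_eq_totient, Nat.totient_prime_pow hp.out two_pos]
    exact Dvd.dvd.mul_right (by simp) _
  refine ⟨(AddMonoidHom.toMultiplicative (ZMod.castHom hd (ZMod p)).toAddMonoidHom).comp
    (zmodCyclicMulEquiv hc).symm.toMonoidHom, zmodCyclicMulEquiv hc (Multiplicative.ofAdd 1), ?_⟩
  simp [ZMod.cast_one hd]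

omit hp in
theorem p1_NjLoc {l : ℕ} (hl : Pq p l) (h : l ≠ p) : Zk.P1 p l := ⟨hl.1, hl.2.resolve_right h⟩

theorem cqp_NjLoc (χ₀ : GQ →* Cp p) : cq χ₀ p = χ₀ := if_pos rfl

theorem cqo_NjLoc (χ₀ : GQ →* Cp p) {l : ℕ} (h : l ≠ p) : cq χ₀ l = ch p l := if_neg h

theorem unr_NjLoc {χ₀ : GQ →* Cp p} (h₀ : Wd χ₀) {l : ℕ} (hl : Pq p l) :
    ((cq χ₀ l).ker : Set GQ) ∈ 𝓝 1 ∧
      ∀ P : Ideal OQ, P.IsMaximal → (l : OQ) ∉ P → ∀ g ∈ P.inertia GQ, cq χ₀ l g = 1 := by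
  by_cases h : l = p
  · subst h
    rw [cqp_NjLoc]
    exact ⟨h₀.nhds, h₀.unr⟩
  · rw [cqo_NjLoc χ₀ h]
    exact ⟨nhds_ZmCh (p1_NjLoc hl h), fun P _ h' g hg => unr_ZmCh (p1_NjLoc hl h) h' hg⟩

theorem frob_NjLoc {χ : GQ →* Cp p} {l : ℕ} (hl : l.Prime)
    (h : ∀ P : Ideal OQ, P.IsMaximal → (l : OQ) ∈ P → ∀ g ∈ P.inertia GQ, χ g = 1) {σ σ' : GQ}
    (hσ : Fr l σ) (hσ' : Fr l σ') : χ σ = χ σ' := by
  obtain ⟨P, hP, hlP, hσ⟩ := hσ
  obtain ⟨P', hP', hlP', hσ'⟩ := hσ'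
  obtain ⟨g, e⟩ := trans_int_EvRec hP hP' hl hlP hlP'
  have h1 : IsFrob l P' (g * σ * g⁻¹) := e ▸ frob_conj_EvRec g hσ
  have h2 : σ'⁻¹ * (g * σ * g⁻¹) ∈ P'.inertia GQ := fun x => by
    have := hσ'.inv_mem (P'.sub_mem (h1 x) (hσ' x))
    rwa [sub_sub_sub_cancel_right, smul_sub, inv_smul_smul, ← mul_smul] at this
  have h3 := h _ hP' hlP' _ h2
  rw [map_mul, map_mul, map_mul, map_inv, map_inv, mul_inv_cancel_comm, inv_mul_eq_one] at h3
  exact h3.symm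

theorem tame_NjLoc {χ : GQ →* Cp p} (hχ : (χ.ker : Set GQ) ∈ 𝓝 1) {l : ℕ} (hl : l.Prime)
    (h2 : l ≠ p) {P : Ideal OQ} (hP : P.IsMaximal) (hlP : (l : OQ) ∈ P) {τ : GQ}
    (hτ : τ ∈ P.inertia GQ) (hr : χ τ ≠ 1) {N : Subgroup GQ} (hN : OpP p N) (hτN : τ ∈ N) {u : GQ}
    (hu : u ∈ P.inertia GQ) : u ∈ N := by
  have hn := hN.nrm
  have ho : ((N ⊓ χ.ker : Subgroup GQ) : Set GQ) ∈ 𝓝 1 := inter_mem hN.nhds hχ
  have hfi : (N ⊓ χ.ker).FiniteIndex := by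
    obtain ⟨L, _, _, hL⟩ := exists_level ho
    exact Subgroup.finiteIndex_of_le (H := (res L).ker) fun g hg => hL _ hg
  have hpg : IsPGroup p (GQ ⧸ (N ⊓ χ.ker)) := fun γ => by
    obtain ⟨g, rfl⟩ := QuotientGroup.mk_surjective γ
    obtain ⟨k, hk⟩ := hN.pg g
    refine ⟨k + 1, ?_⟩
    rw [← QuotientGroup.mk_pow, QuotientGroup.eq_one_iff, pow_succ, pow_mul]
    exact ⟨N.pow_mem hk p, MonoidHom.mem_ker.2 (by rw [map_pow, cp_p_ZmSol])⟩
  obtain ⟨k, hk⟩ := IsPGroup.iff_card.1 hpg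
  obtain ⟨γ, hγ⟩ := cyclic_inertia hl hlP (QuotientGroup.mk' (N ⊓ χ.ker))
    (mem_of_superset ho fun g hg => (QuotientGroup.eq_one_iff g).2 hg) (p := p ^ k)
    (Nat.Coprime.pow_left k ((Nat.coprime_primes hp.out hl).2 h2.symm))
    (fun γ => by rw [← hk, pow_card_eq_one'])
  obtain ⟨g, rfl⟩ := QuotientGroup.mk_surjective γ
  have h1 : ∀ v ∈ P.inertia GQ, ∃ n : ℤ, v⁻¹ * g ^ n ∈ N ⊓ χ.ker := fun v hv => by
    obtain ⟨n, hn⟩ := hγ v hv
    exact ⟨n, QuotientGroup.eq.1 (by rw [QuotientGroup.mk_zpow]; exact hn)⟩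
  obtain ⟨a, ha, ha'⟩ := h1 τ hτ
  have h3 : g ^ a ∈ N := by
    have := N.mul_mem hτN ha
    rwa [mul_inv_cancel_left] at this
  have h4 : ¬ (p : ℤ) ∣ a := by
    rintro ⟨b, rfl⟩
    have e : χ (τ⁻¹ * g ^ ((p : ℤ) * b)) = 1 := ha'
    rw [map_mul, mul_comm (p : ℤ), zpow_mul, zpow_natCast, map_pow, cp_p_ZmSol, mul_one, map_inv,
      inv_eq_one] at e
    exact hr e
  obtain ⟨j, hj⟩ := hN.pg g
  have h5 : g ∈ N := by
    have hc : IsCoprime a ((p : ℤ) ^ j) :=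
      (((Nat.prime_iff_prime_int.1 hp.out).coprime_iff_not_dvd).2 h4).symm.pow_right
    obtain ⟨x, y, hxy⟩ := hc
    have e : g = (g ^ a) ^ x * (g ^ p ^ j) ^ y := by
      rw [← zpow_natCast, ← zpow_mul, ← zpow_mul, ← zpow_add, mul_comm a, Nat.cast_pow,
        mul_comm _ y, hxy, zpow_one]
    rw [e]
    exact N.mul_mem (N.zpow_mem h3 x) (N.zpow_mem hj y)
  obtain ⟨n, hn', -⟩ := h1 u hu
  have := N.mul_mem hn' (N.inv_mem (N.zpow_mem h5 n))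
  rw [mul_inv_cancel_right] at this
  exact (N.inv_mem_iff).1 this

end

theorem wdJ (p : ℕ) [Fact p.Prime] (hD : DiscP) (hC : CountP) : WdJ p := by
  have hp : p.Prime := Fact.out
  refine ⟨Set.Finite.of_finite_fibers MonoidHom.ker ?_ ?_, ?_⟩
  · obtain ⟨C, -, hC'⟩ := hD p
    refine ((NumberField.finite_of_discr_bdd Qa ⌈Real.exp (C * sz {p})⌉₊).image
      fun K => K.1.fixingSubgroup).subset ?_
    rintro _ ⟨χ₀, h, rfl⟩
    obtain ⟨E, hE, e⟩ := (hC p {p} _ (ad_NjLoc h)).1 _ le_rfl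
    refine ⟨⟨E, hE.to_finiteDimensional⟩, ?_, e⟩
    have hB := (hC' {p} _ (ad_NjLoc h) E e.ge).2
    show |discr E| ≤ (⌈Real.exp (C * sz {p})⌉₊ : ℕ)
    have h0 : (0 : ℝ) < |(discr E : ℝ)| := abs_pos.2 (by exact_mod_cast discr_ne_zero E)
    have h1 : Bd E ≤ Real.exp (C * sz {p}) := by
      have : 0 < Bd E := by unfold Bd; positivity
      exact (Real.log_le_iff_le_exp this).1 hB
    have h2 : |(discr E : ℝ)| ≤ (⌈Real.exp (C * sz {p})⌉₊ : ℕ) := by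
      have := Nat.le_ceil (Real.exp (C * sz {p}))
      unfold Bd at h1
      linarith
    exact_mod_cast h2
  · rintro _ ⟨χ₀, h, rfl⟩
    have : χ₀.ker.FiniteIndex := ⟨(ad_NjLoc h).idx.1⟩
    refine Set.Finite.of_finite_image (f := fun χ (x : GQ ⧸ χ₀.ker) => χ x.out) (Set.toFinite _)
      fun χ h1 χ' h2 e => MonoidHom.ext fun g => ?_
    obtain ⟨k, hk⟩ := QuotientGroup.mk_out_eq_mul χ₀.ker g
    have e1 : χ.ker = χ₀.ker := h1.2
    have e2 : χ'.ker = χ₀.ker := h2.2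
    have k1 : χ k = 1 := MonoidHom.mem_ker.1 (e1.ge k.2)
    have k2 : χ' k = 1 := MonoidHom.mem_ker.1 (e2.ge k.2)
    have := congrFun e (g : GQ ⧸ χ₀.ker)
    simp only [hk, map_mul, k1, k2, mul_one] at this
    exact this
  · obtain ⟨ψ, u, hu⟩ := psi_NjLoc (p := p)
    obtain ⟨g, rfl⟩ := cyc_surj (Ω := Qb) (p ^ 2) u
    refine ⟨ψ.comp (cyc (p ^ 2)), mem_of_superset (cyc_nhds (Ω := Qb) (p ^ 2)) fun g hg => ?_,
      ⟨g, hu⟩, fun P hP h g hg => ?_⟩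
    · have e : cyc (p ^ 2) g = 1 := hg
      show ψ (cyc (p ^ 2) g) = 1
      rw [e, map_one]
    · show ψ (cyc (p ^ 2) g) = 1
      rw [cyc_inertia (fun e => h (hP.isPrime.mem_of_pow_mem 2 (by rwa [← Nat.cast_pow]))) hg,
        map_one]

theorem locJ (p : ℕ) [Fact p.Prime] : LocJ p := by
  intro χ₀ h₀
  refine ⟨fun l hl => unr_NjLoc h₀ hl, fun l m hl hm h σ hσ => ?_, fun l m h => ?_, fun l hl => ?_⟩
  · exact congrArg Multiplicative.toAdd (frob_NjLoc hl (fun P hP hlP =>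
      (unr_NjLoc h₀ hm).2 P hP (nm_ZmCh hl hm.1 h.symm hP hlP)) hσ
      (Classical.epsilon_spec ⟨σ, hσ⟩))
  · rw [lq, cqo_NjLoc χ₀ h]
    rfl
  have key : ∃ P : Ideal OQ, P.IsMaximal ∧ (l : OQ) ∈ P ∧ ∃ τ ∈ P.inertia GQ, cq χ₀ l τ ≠ 1 := by
    by_cases e : l = p
    · by_contra h0
      obtain ⟨g, hg⟩ := h₀.ne
      have h1 := eq_top_of_open (cq χ₀ l).ker (unr_NjLoc h₀ hl).1 fun P hP τ hτ => by
        by_cases hP' : (l : OQ) ∈ P
        · by_contra h2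
          exact h0 ⟨P, hP, hP', τ, hτ, h2⟩
        · exact (unr_NjLoc h₀ hl).2 P hP hP' τ hτ
      have h2 : g ∈ (cq χ₀ l).ker := h1 ▸ Subgroup.mem_top g
      rw [e, cqp_NjLoc] at h2
      exact hg h2
    · obtain ⟨P, hP, hlP⟩ := exists_maximal_mem (Ω := Qb) hl.1
      obtain ⟨τ, h1, h2⟩ := tau_ZmCh (p1_NjLoc hl e) hP hlP
      refine ⟨P, hP, hlP, τ, h1, fun h3 => ?_⟩
      rw [cqo_NjLoc χ₀ e] at h3
      rw [h3, toAdd_one] at h2
      exact zero_ne_one h2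
  obtain ⟨P, hP, hlP, τ, h1, h2⟩ := key
  obtain ⟨σ, hσ⟩ := exists_frob P hl.1 hlP
  exact ⟨σ, τ, ⟨P, hP, hlP, hσ, h1⟩, h2⟩

theorem tamJ (p : ℕ) [Fact p.Prime] (hL : LocJ p) : TamJ p := by
  refine ⟨fun χ₀ h₀ l σ τ hl h N hN h2 hτN P' hP' hlP' g hg => ?_,
    fun l P σ hl hσ g hg x => ?_⟩
  · obtain ⟨⟨P, hP, hlP, -, hτ⟩, hr⟩ := h
    obtain ⟨c, hc⟩ := exists_conj hl.1 hlP hlP'
    have h1 := hc g hg
    suffices h3 : c⁻¹ * g * c ∈ N by
      have := hN.nrm.conj_mem _ h3 c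
      rwa [← mul_assoc, mul_inv_cancel_left, mul_inv_cancel_right] at this
    generalize c⁻¹ * g * c = u at h1
    by_cases e : l = p
    · rw [e, cqp_NjLoc] at hr
      have h4 : (χ₀ τ).toAdd ≠ 0 := fun h => hr (toAdd_eq_zero.1 h)
      have h5 := h2 e P hP hlP (u * (τ ^ ((χ₀ u).toAdd / (χ₀ τ).toAdd).val)⁻¹)
        (mul_mem h1 (inv_mem (pow_mem hτ _))) (by
          rw [map_mul, map_inv, map_pow, cp_val_ZmSol, div_mul_cancel₀ _ h4, ofAdd_toAdd,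
            mul_inv_cancel])
      have := N.mul_mem h5 (N.pow_mem hτN ((χ₀ u).toAdd / (χ₀ τ).toAdd).val)
      rwa [inv_mul_cancel_right] at this
    · exact tame_NjLoc ((hL χ₀ h₀).1 l hl).1 hl.1 e hP hlP hτ hr hN hτN h1
  · have := hσ.mem hl (hg (σ⁻¹ • x))
    rwa [smul_sub, smul_inv_smul, ← mul_smul, ← mul_smul] at this

end Pool.Agent.MP_f68ac8_nt.Nd

end
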