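import Mathlib
import Pool.Agent.Mg.Fe23604m.Ga53936

set_option linter.all false

namespace Pool.Agent.MP_f68ac8_nt.Nd
open Finset Filter
open Zv (Ex Prob)
open scoped BigOperators

theorem sm_NeDens (p : Par) : ∀ l ∈ p.sm, ∀ m, m ≠ 1 → p.W m l = 0 := by
  intro l hl m hm
  obtain ⟨-, h1, h2, -⟩ := mem_filter.1 hl
  have a1 : l ∉ p.ti := fun h => absurd (mem_filter.1 h).2 (not_le.2 h1)
  have a2 : l ∉ p.lg := fun h => absurd (mem_filter.1 h).2 (not_lt.2 h2)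
  fin_cases m
  · exact if_neg a1
  · exact absurd rfl hm
  · exact if_pos (Or.inr (Or.inl hl))
  · exact if_neg a2

theorem num_NeDens {ε₁ C₀ C δ₁ δ₂ T L d₀ S S' : ℝ} (h1 : 0 < ε₁) (h0 : 0 < C₀) (hC : 1 ≤ C)
    (d1 : 0 < δ₁) (e1 : 0 < δ₂) (e3 : δ₂ ≤ δ₁ * ε₁ / (200 * C₀)) (hT : 0 < T)
    (hL : L = Real.log T) (l0 : 0 < L) (l1 : 4 * C / ε₁ ≤ L) (l2 : 8 * C₀ / ε₁ ≤ L)
    (hd : L / 8 ≤ d₀) (hS : S ≤ 2 * L) (hS' : S' ≤ 3 * δ₂ * L) :
    ε₁ / (4 * C₀) * C₀ + C * T ^ (-(2 * C + 1)) * Real.exp (C * S) + C₀ * S / L ^ 2 +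
      2 * C₀ * S' / (δ₁ * d₀) ≤ ε₁ := by
  have a1 : ε₁ / (4 * C₀) * C₀ = ε₁ / 4 := by field_simp
  have a2 : C * T ^ (-(2 * C + 1)) * Real.exp (C * S) ≤ ε₁ / 4 := by
    have b1 : L * -(2 * C + 1) + C * S ≤ -L := by nlinarith
    have b2 : Real.exp (-L) ≤ L⁻¹ := by
      rw [Real.exp_neg]
      exact inv_anti₀ l0 (by linarith [Real.add_one_le_exp L])
    rw [Real.rpow_def_of_pos hT, ← hL, mul_assoc, ← Real.exp_add]
    refine (mul_le_mul_of_nonneg_left ((Real.exp_le_exp.2 b1).trans b2) (by linarith)).trans ?_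
    rw [div_le_iff₀ h1] at l1
    rw [← div_eq_mul_inv, div_le_iff₀ l0]
    linarith
  have a3 : C₀ * S / L ^ 2 ≤ ε₁ / 4 := by
    rw [div_le_iff₀ h1] at l2
    rw [div_le_iff₀ (by positivity)]
    have b1 := mul_le_mul_of_nonneg_left hS h0.le
    have b2 := mul_le_mul_of_nonneg_right l2 l0.le
    nlinarith
  have a4 : 2 * C₀ * S' / (δ₁ * d₀) ≤ ε₁ / 4 := by
    have b0 : 0 < d₀ := by linarith
    rw [le_div_iff₀ (by positivity)] at e3
    rw [div_le_iff₀ (by positivity)]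
    have b1 := mul_le_mul_of_nonneg_left hS' h0.le
    have b2 := mul_le_mul_of_nonneg_right e3 l0.le
    have b3 := mul_le_mul_of_nonneg_left hd (mul_pos d1 h1).le
    have b4 := mul_pos (mul_pos d1 h1) l0
    nlinarith
  linarith

theorem tk_NeDens (hT : TkStmt) {X : ℕ} {A : Finset ℕ} {a ε : ℝ} (hA : ∀ l ∈ A, l.Prime ∧ l ≤ X)
    (hε : 0 < ε) (h1 : 72 / ε ≤ a) (h2 : a ≤ ∑ l ∈ A, (1 : ℝ) / l) :
    (((Icc 1 X).filter fun n => ((A.filter fun l => l ∣ n).card : ℝ) ≤ a / 2).card : ℝ) ≤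
      ε / 6 * X := by
  have h0 : 0 < a := lt_of_lt_of_le (by positivity) h1
  refine (hT X A a hA h0 h2).trans ?_
  rw [div_le_iff₀ hε] at h1
  rw [div_le_iff₀ h0]
  have := mul_le_mul_of_nonneg_right h1 (X.cast_nonneg (α := ℝ))
  linarith

theorem dens_stmt (hK : KerStmt) (hW : WndStmt) (hM : MertStmt) (hT : TkStmt) (hP : PoisStmt)
    (hA : ParStmt) : DensStmt := by
  classical
  obtain ⟨c, hc, hA⟩ := hA
  obtain ⟨k1, ⟨C₀, hC₀, k2⟩, -⟩ := hK c hc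
  refine ⟨c, hc, fun ε hε => ?_⟩
  obtain ⟨ε₁, hε₁, hW⟩ := hW c (ε / 2) hc (half_pos hε)
  refine ⟨ε₁ / (4 * C₀), by positivity, fun B n r m₀ a δ C hδ hC H => ?_⟩
  obtain ⟨δ₁, d1, d2, d3⟩ : ∃ δ₁ : ℝ, 0 < δ₁ ∧ δ₁ ≤ δ ∧ δ₁ ≤ 1 :=
    ⟨min δ 1, lt_min hδ one_pos, min_le_left _ _, min_le_right _ _⟩
  obtain ⟨δ₂, e1, e2, e3⟩ : ∃ δ₂ : ℝ, 0 < δ₂ ∧ δ₂ ≤ 1 / 100 ∧ δ₂ ≤ δ₁ * ε₁ / (200 * C₀) :=
    ⟨min (1 / 100) (δ₁ * ε₁ / (200 * C₀)), lt_min (by norm_num) (by positivity), min_le_left _ _,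
      min_le_right _ _⟩
  obtain ⟨p₁, hp₁⟩ := exists_nat_ge (6 / ε)
  have hl : Tendsto (fun X : ℕ => Real.log X) atTop atTop :=
    Real.tendsto_log_atTop.comp tendsto_natCast_atTop_atTop
  have hL : Tendsto LL atTop atTop := Real.tendsto_log_atTop.comp hl
  filter_upwards [hA n r p₁ δ₂ ((2 * C + 1) * (2 ^ a : ℕ)) e1 e2, eventually_ge_atTop 3,
    hl.eventually_ge_atTop 1, hL.eventually_ge_atTop 8, hL.eventually_ge_atTop (8 * m₀),
    hL.eventually_ge_atTop (4 * C / ε₁), hL.eventually_ge_atTop (8 * C₀ / ε₁),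
    hL.eventually_ge_atTop (144 / ε), hL.eventually_ge_atTop (72 / ε * 16 / δ₂),
    hL.eventually_ge_atTop (32 * m₀ / δ₂)] with X ⟨p, p₀, hp, ok, hs, hΛ, m1, m2, s1, s2⟩
      x3 t1 l1 l2 l3 l4 l5 l6 l7
  have t0 : 0 < Real.log X := by linarith
  have hξ : 0 ≤ Real.log X ^ (-(2 * C + 1)) := Real.rpow_nonneg t0.le _
  have est := H p (LL X ^ 2) (Real.log X ^ (-(2 * C + 1))) hξ
    (Real.rpow_le_one_of_one_le_of_nonpos t1 (by linarith))
    (by rwa [← Real.rpow_mul_natCast t0.le, neg_mul])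
  obtain ⟨d₀, f1, f2, f3⟩ : ∃ d₀ : ℕ, LL X / 8 ≤ d₀ ∧ (d₀ : ℝ) ≤ LL X / 4 ∧ 2 * m₀ ≤ d₀ :=
    ⟨⌊LL X / 4⌋₊, by linarith [Nat.lt_floor_add_one (LL X / 4)], Nat.floor_le (by linarith),
      Nat.le_floor (by push_cast; linarith)⟩
  have f0 : 0 < d₀ := by exact_mod_cast (show (0 : ℝ) < d₀ by linarith)
  have s0 : 1 ≤ p.s := by
    rw [hs]
    exact le_add_of_nonneg_right (by positivity)
  obtain ⟨A₀, hA₀⟩ : ∃ A₀, A₀ = (Icc 1 X).filter fun n => Odd n ∧ Squarefree n ∧ B n ∧ ¬ p₀ ∣ n ∧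
    d₀ ≤ n.primeFactors.card ∧ m₀ ≤ (n.primeFactors ∩ p.sm).card := ⟨_, rfl⟩
  have c0 : (A₀.card : ℝ) ≤ ε / 2 * X := by
    refine hW X A₀ x3 (hA₀ ▸ filter_subset _ _) fun y => ?_
    rw [← hs]
    have key := hP p.Λ p.sm p.W p.s C₀ (ε₁ / (4 * C₀)) C (Real.log X ^ (-(2 * C + 1))) δ₁
      (LL X ^ 2) d₀ m₀ (fun n => Kc c (Real.log n - y)) B (fun l hl => (ok.pri l hl).1) ok.nn
      ok.sum (fun m => ?_) (sm_NeDens p) (fun n => (k1 _).1) (fun b hb A => ?_) (by positivity)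
      (by linarith) hξ d1 d3 (by positivity) f0 f3
      (fun d μ h1 h2 => est y d μ h1 ⟨h2.dis, h2.thin.trans
        (mul_le_mul_of_nonneg_right (by linarith) (Nat.cast_nonneg _)), h2.lg, h2.sm⟩) A₀
      fun n hn => ?_
    · exact key.trans (num_NeDens hε₁ hC₀ hC d1 e1 e3 t0 rfl (by linarith) l3 l4 f1 m1 m2)
    · by_cases h : m = 0
      · exact h ▸ ok.pos
      · exact one_pos.trans_le (ok.one m h)
    · refine le_of_eq_of_le (sum_congr rfl fun n _ => ?_) (k2 p.s (y - Real.log b) A s0)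
      rcases Nat.eq_zero_or_pos n with rfl | hn
      · rw [Nat.cast_zero, Real.zero_rpow (by linarith), zero_mul, zero_mul]
      · rw [Nat.cast_mul, Real.log_mul (Nat.cast_ne_zero.2 hb) (Nat.cast_ne_zero.2 hn.ne')]
        congr 2
        ring
    · rw [hA₀] at hn
      obtain ⟨n1, n2, n3, n4, n5, n6⟩ := mem_filter.1 hn
      refine ⟨n3, fun l hl => ?_, n4, n6⟩
      have hd := Nat.dvd_of_mem_primeFactors hl
      exact hΛ l (Nat.prime_of_mem_primeFactors hl) (n2.of_dvd_nat hd) (fun e => n5 (e ▸ hd))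
        ((Nat.le_of_mem_primeFactors hl).trans (mem_Icc.1 n1).2)
  have c1 : (((Ioc 0 X).filter fun n => p₀ ∣ n).card : ℝ) ≤ ε / 6 * X := by
    have h1 : 6 / ε ≤ p₀ := hp₁.trans (by exact_mod_cast hp)
    have h2 : (0 : ℝ) < p₀ := lt_of_lt_of_le (by positivity) h1
    rw [Nat.Ioc_filter_dvd_card_eq_div]
    refine Nat.cast_div_le.trans ?_
    rw [div_le_iff₀ hε] at h1
    rw [div_le_iff₀ h2]
    have := mul_le_mul_of_nonneg_right h1 (X.cast_nonneg (α := ℝ))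
    linarith
  have c2 := tk_NeDens hT (X := X) (A := (range (X + 1)).filter Nat.Prime) (a := LL X / 2)
    (fun l hl => ⟨(mem_filter.1 hl).2, Nat.lt_succ_iff.1 (mem_range.1 (mem_filter.1 hl).1)⟩) hε
    (by rw [le_div_iff₀ two_pos, div_mul_eq_mul_div]; norm_num; exact l5) (by
      have h1 := hM.1 X (by exact_mod_cast (by omega : 2 ≤ X))
      rw [Nat.floor_natCast] at h1
      refine le_trans ?_ h1
      change _ ≤ LL X - 1
      linarith)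
  have c3 := tk_NeDens hT (X := X) (A := p.sm) (a := δ₂ * LL X / 16)
    (fun l hl => ⟨(ok.pri l (mem_filter.1 hl).1).1, s1 l hl⟩) hε
    (by rw [div_le_iff₀ e1] at l6; linarith) s2
  refine le_trans ?_ ((add_le_add (add_le_add (add_le_add c0 c1) c2) c3).trans (le_of_eq (by ring)))
  rw [← Nat.cast_add, ← Nat.cast_add, ← Nat.cast_add, Nat.cast_le]
  refine le_trans (card_le_card fun n hn => ?_) ((card_union_le _ _).trans
    (add_le_add_left ((card_union_le _ _).trans (add_le_add_left (card_union_le _ _) _)) _))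
  obtain ⟨n1, n2, n3, n4⟩ := mem_filter.1 hn
  have n0 : n ≠ 0 := Nat.one_le_iff_ne_zero.1 (mem_Icc.1 n1).1
  simp only [mem_union]
  by_cases g1 : p₀ ∣ n
  · exact Or.inl (Or.inl (Or.inr (mem_filter.2 ⟨mem_Ioc.2 (mem_Icc.1 n1), g1⟩)))
  by_cases g2 : d₀ ≤ n.primeFactors.card
  swap
  · refine Or.inl (Or.inr (mem_filter.2 ⟨n1, ?_⟩))
    have h1 : (((range (X + 1)).filter Nat.Prime).filter fun l => l ∣ n).card ≤ d₀ :=
      (card_le_card fun l hl => Nat.mem_primeFactors.2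
        ⟨(mem_filter.1 (mem_filter.1 hl).1).2, (mem_filter.1 hl).2, n0⟩).trans (not_le.1 g2).le
    have h2 := (Nat.cast_le (α := ℝ)).2 h1
    linarith
  by_cases g3 : m₀ ≤ (n.primeFactors ∩ p.sm).card
  · exact Or.inl (Or.inl (Or.inl (hA₀ ▸ mem_filter.2 ⟨n1, n2, n3, n4, g1, g2, g3⟩)))
  · refine Or.inr (mem_filter.2 ⟨n1, ?_⟩)
    have h1 : (p.sm.filter fun l => l ∣ n).card ≤ m₀ :=
      (card_le_card fun l hl => mem_inter.2 ⟨Nat.mem_primeFactors.2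
        ⟨(ok.pri l (mem_filter.1 (mem_filter.1 hl).1).1).1, (mem_filter.1 hl).2, n0⟩,
          (mem_filter.1 hl).1⟩).trans (not_le.1 g3).le
    have h2 := (Nat.cast_le (α := ℝ)).2 h1
    rw [div_le_iff₀ e1] at l7
    linarith

end Pool.Agent.MP_f68ac8_nt.Nd
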