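import Pool.Agent.Mg.Fe23604m.G104dcb
import Pool.Agent.Mg.Fe23604m.G51e198
import Pool.Agent.Mg.Fe23604m.G651d65
import Pool.Agent.Mg.Fe23604m.G0311cb
import Pool.Agent.Mg.Fe23604m.Ge4cc4e
import Pool.Agent.MP_e23604_nt.P.Bonf
import Pool.Agent.Mg.Fe23604m.G0cc4da

set_option linter.all false

section

/-!
The step `CPair`.
-/

open Finset
open scoped Classical

noncomputable section

namespace Pool.Agent.MP_e23604_nt.U

open P (lam shp gg PW cW Rough WW ES mu flat tau NN)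

namespace KPairJ

def good (d : Pr) (X Y w j : ℕ) (n : ℤ) : Prop :=
  ∀ z : ℤ × ℤ, d.m * ((w : ℤ) * j) ≤ lf d.α d.β z → lf d.α d.β z < d.m * ((w : ℤ) * j + w) →
    lf d.α' d.β' z = n → z ∈ bx X Y

def supB (d : Pr) (X Y : ℕ) : Finset (ℤ × ℤ) := (bx X Y).filter fun z => d.F z ≠ 0

def Phi (d : Pr) (X Y w j : ℕ) (u : ℤ) : ℝ :=
  ∑ z ∈ (supB d X Y).filter fun z => lf d.α d.β z = d.m * u ∧ good d X Y w j (lf d.α' d.β' z),
    d.F z * d.h (lf d.α' d.β' z)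

theorem len1 {X : ℕ} {x t c : ℤ} {T0 : ℝ} (h1 : x ∈ Ioc (X : ℤ) (2 * X))
    (h2 : x + t * c ∈ Ioc (X : ℤ) (2 * X)) (h : (X : ℝ) ≤ T0 * |(c : ℝ)|) : |(t : ℝ)| ≤ T0 := by
  obtain ⟨a1, a2⟩ := mem_Ioc.1 h1
  obtain ⟨b1, b2⟩ := mem_Ioc.1 h2
  have hX : (1 : ℝ) ≤ X := by exact_mod_cast (show (1 : ℤ) ≤ X by omega)
  have h3 : |t * c| ≤ X := abs_le.2 ⟨by linarith, by linarith⟩
  have h4 : |(t : ℝ)| * |(c : ℝ)| ≤ X := by
    rw [← abs_mul]
    exact_mod_cast h3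
  have hc : 0 < |(c : ℝ)| := by
    rcases (abs_nonneg (c : ℝ)).eq_or_lt with h0 | h0
    · rw [← h0, mul_zero] at h
      linarith
    · exact h0
  exact le_of_mul_le_mul_right (h4.trans h) hc

theorem len {X Y : ℕ} {U T0 : ℝ} {α β : ℤ} (h : Rng X Y U T0 α β) {z : ℤ × ℤ} (hz : z ∈ bx X Y)
    (t : ℤ) (ht : (z.1 + t * β, z.2 - t * α) ∈ bx X Y) : |(t : ℝ)| ≤ T0 := by
  obtain ⟨a1, a2⟩ := mem_product.1 hz
  obtain ⟨b1, b2⟩ := mem_product.1 ht
  rcases h.2 with h | h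
  · exact len1 a1 b1 h
  · refine len1 (c := -α) a2 ?_ (by rwa [Int.cast_neg, abs_neg])
    simpa [sub_eq_add_neg] using b2

theorem Phi_le (d : Pr) {X Y : ℕ} {U T0 Γ : ℝ} (h : d.OK X Y U T0 Γ) (hT : 0 ≤ T0) (hΓ : 0 ≤ Γ)
    (w j : ℕ) (u : ℤ) : |Phi d X Y w j u| ≤ Γ * (T0 / d.t + 1) := by
  have hc := P.card_line (supB d X Y) h.cop (d.m * u) hT h.t_pos fun z hz t ht =>
    ⟨len h.rng (mem_filter.1 hz).1 t (mem_filter.1 ht).1,
      h.supp.2 _ t (mem_filter.1 hz).2 (mem_filter.1 ht).2⟩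
  refine (abs_sum_le_sum_abs _ _).trans ((sum_le_card_nsmul _ _ Γ fun z hz => ?_).trans ?_)
  · obtain ⟨h1, -⟩ := mem_filter.1 (mem_filter.1 hz).1
    rw [abs_mul]
    exact (mul_le_of_le_one_left (abs_nonneg _) (h.bd _)).trans (h.hb z h1)
  · rw [nsmul_eq_mul, mul_comm]
    refine mul_le_mul_of_nonneg_left (le_trans ?_ hc) hΓ
    refine Nat.cast_le.2 (card_le_card fun z hz => ?_)
    obtain ⟨h1, h2, -⟩ := mem_filter.1 hz
    exact mem_filter.2 ⟨h1, h2⟩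

theorem shift (d : Pr) {X Y : ℕ} (hm : 1 ≤ d.m) {w j : ℕ} {u u' : ℤ} {z z' : ℤ × ℤ}
    (hu' : u' ∈ Ico ((w : ℤ) * j) (w * j + w))
    (h1 : lf d.α d.β z' = lf d.α d.β z + d.m * (u' - u))
    (h2 : lf d.α' d.β' z' = lf d.α' d.β' z) (h3 : d.F z' = d.F z)
    (hz : z ∈ (supB d X Y).filter fun z =>
      lf d.α d.β z = d.m * u ∧ good d X Y w j (lf d.α' d.β' z)) :
    z' ∈ (supB d X Y).filter fun z =>
      lf d.α d.β z = d.m * u' ∧ good d X Y w j (lf d.α' d.β' z) := by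
  obtain ⟨hB, hl, hg⟩ := mem_filter.1 hz
  have hm' : (0 : ℤ) < d.m := by exact_mod_cast hm
  have h4 : lf d.α d.β z' = d.m * u' := by rw [h1, hl]; ring
  obtain ⟨h5, h6⟩ := mem_Ico.1 hu'
  refine mem_filter.2 ⟨mem_filter.2 ⟨hg z' ?_ ?_ h2, h3 ▸ (mem_filter.1 hB).2⟩, h4, h2 ▸ hg⟩
  · rw [h4]
    exact mul_le_mul_of_nonneg_left h5 hm'.le
  · rw [h4]
    exact mul_lt_mul_of_pos_left h6 hm'

theorem per_mul {K : ℕ} {F : ℤ × ℤ → ℝ} (h : Per2 K F) (z : ℤ × ℤ) (c e : ℤ) :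
    F (z.1 + K * c, z.2 + K * e) = F z :=
  h _ _ ⟨c, by simp⟩ ⟨e, by simp⟩

theorem per (d : Pr) {X Y : ℕ} {U T0 Γ : ℝ} (h : d.OK X Y U T0 Γ) (w j : ℕ) :
    ∀ u ∈ Ico ((w : ℤ) * j) (w * j + w), ∀ u' ∈ Ico ((w : ℤ) * j) (w * j + w),
      u % (d.K : ℤ) = u' % d.K → Phi d X Y w j u = Phi d X Y w j u' := by
  intro u hu u' hu' he
  obtain ⟨t, ht⟩ := Int.ModEq.dvd he
  have hK : (d.K : ℤ) = d.K0 * (d.det.sign * d.det) := by
    rw [Pr.K, Nat.cast_mul, Int.sign_mul_self_eq_natAbs]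
  rw [hK] at ht
  generalize d.det.sign = σ at ht
  rw [Pr.det] at ht
  have hl' : ∀ (z : ℤ × ℤ) (c : ℤ),
      lf d.α' d.β' (z.1 + d.K0 * (c * d.β'), z.2 + d.K0 * (-c * d.α')) =
      lf d.α' d.β' z := fun z c => by
    simp only [lf]
    ring
  refine sum_nbij'
    (fun z => (z.1 + d.K0 * (d.m * t * σ * d.β'), z.2 + d.K0 * (-(d.m * t * σ) * d.α')))
    (fun z => (z.1 + d.K0 * (-(d.m * t * σ) * d.β'), z.2 + d.K0 * (-(-(d.m * t * σ)) * d.α')))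
    (fun z hz => shift d h.m_pos hu' ?_ (hl' _ _) (per_mul h.per _ _ _) hz)
    (fun z hz => shift d h.m_pos hu ?_ (hl' _ _) (per_mul h.per _ _ _) hz)
    (fun z _ => ?_) (fun z _ => ?_) (fun z _ => ?_)
  · simp only [lf]
    linear_combination (-d.m : ℤ) * ht
  · simp only [lf]
    linear_combination (d.m : ℤ) * ht
  · ext <;> simp
  · ext <;> simp
  · rw [hl', per_mul h.per]

theorem near (d : Pr) {X Y : ℕ} (hdet : d.det ≠ 0) {η1 η2 : ℝ} {w j : ℕ}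
    (h1 : d.m * w * |(d.β' : ℝ)| ≤ η1 * |(d.det : ℝ)|)
    (h2 : d.m * w * |(d.α' : ℝ)| ≤ η2 * |(d.det : ℝ)|) {z : ℤ × ℤ} (hz : z ∈ bx X Y)
    (ha : d.m * ((w : ℤ) * j) ≤ lf d.α d.β z) (hb : lf d.α d.β z < d.m * ((w : ℤ) * j + w))
    (hg : ¬ good d X Y w j (lf d.α' d.β' z)) : z ∈ nr X Y η1 η2 := by
  unfold good at hg
  push Not at hg
  obtain ⟨y, ya, yb, yl, hy⟩ := hg
  have hd : (0 : ℝ) < |(d.det : ℝ)| := abs_pos.2 (by exact_mod_cast hdet)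
  have hΔ : |((lf d.α d.β z - lf d.α d.β y : ℤ) : ℝ)| ≤ d.m * w := by
    have : |lf d.α d.β z - lf d.α d.β y| ≤ d.m * w := abs_le.2 ⟨by linarith, by linarith⟩
    exact_mod_cast this
  have key : ∀ (x c : ℤ) (η : ℝ), d.det * x = c * (lf d.α d.β z - lf d.α d.β y) →
      d.m * w * |(c : ℝ)| ≤ η * |(d.det : ℝ)| → |(x : ℝ)| ≤ η := fun x c η e hη => by
    refine le_of_mul_le_mul_right (le_trans ?_ hη) hd
    have e' : (x : ℝ) * d.det = ((lf d.α d.β z - lf d.α d.β y : ℤ) : ℝ) * c := by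
      rw [mul_comm, mul_comm _ (c : ℝ)]
      exact_mod_cast e
    rw [← abs_mul, e', abs_mul]
    exact mul_le_mul_of_nonneg_right hΔ (abs_nonneg _)
  have k1 := key (z.1 - y.1) d.β' η1 (by
    simp only [lf, Pr.det] at yl ⊢
    linear_combination d.β * yl) h1
  have k2 := key (z.2 - y.2) (-d.α') η2 (by
    simp only [lf, Pr.det] at yl ⊢
    linear_combination (-d.α) * yl) (by rwa [Int.cast_neg, abs_neg])
  push_cast at k1 k2
  rw [abs_le] at k1 k2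
  refine mem_filter.2 ⟨hz, ?_⟩
  by_contra hn
  push Not at hn
  obtain ⟨n1, n2, n3, n4⟩ := hn
  refine hy (mem_product.2 ⟨mem_Ioc.2 ⟨?_, ?_⟩, mem_Ioc.2 ⟨?_, ?_⟩⟩)
  · exact_mod_cast (show (X : ℝ) < y.1 by linarith [k1.2])
  · exact_mod_cast (show (y.1 : ℝ) ≤ 2 * X by linarith [k1.1])
  · exact_mod_cast (show (Y : ℝ) < y.2 by linarith [k2.2])
  · exact_mod_cast (show (y.2 : ℝ) ≤ 2 * Y by linarith [k2.1])

end KPairJ

open KPairJ in
theorem CPair_pf : CPair := by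
  intro d X Y U T0 Γ η1 η2 h hT hΓ g hg w J hw hJ h1 h2
  have hm : (0 : ℤ) < d.m := by exact_mod_cast h.m_pos
  have hK : 1 ≤ d.K := Nat.mul_pos h.K0_pos (Int.natAbs_pos.2 h.det)
  have hB : d.T X Y g = ∑ z ∈ supB d X Y,
      d.F z * g (lf d.α d.β z / (d.m : ℤ)) * d.h (lf d.α' d.β' z) := by
    rw [supB, sum_filter_of_ne, Pr.T]
    intro z _ hz h0
    exact hz (by rw [h0, zero_mul, zero_mul])
  have hS : ∑ j ∈ range J, ∑ u ∈ Ico ((w : ℤ) * j) (w * j + w), g u * Phi d X Y w j u =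
      ∑ z ∈ supB d X Y, ∑ j ∈ range J, ∑ u ∈ Ico ((w : ℤ) * j) (w * j + w),
        if lf d.α d.β z = d.m * u ∧ good d X Y w j (lf d.α' d.β' z) then
          g u * (d.F z * d.h (lf d.α' d.β' z)) else 0 := by
    rw [sum_comm]
    refine sum_congr rfl fun j _ => ?_
    rw [sum_comm]
    refine sum_congr rfl fun u _ => ?_
    rw [Phi, mul_sum, sum_filter]
  have hb : |∑ j ∈ range J, ∑ u ∈ Ico ((w : ℤ) * j) (w * j + w), g u * Phi d X Y w j u| ≤
      Γ * (T0 / d.t + 1) * ∑ j ∈ range J, NN g ((w : ℤ) * j) w d.K := by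
    rw [mul_sum]
    exact (abs_sum_le_sum_abs _ _).trans (sum_le_sum fun j _ => P.xPair_abs g _ _ w d.K hK
      (by positivity) (Phi_le d h hT hΓ w j) (per d h w j))
  have ha : |d.T X Y g - ∑ j ∈ range J, ∑ u ∈ Ico ((w : ℤ) * j) (w * j + w),
      g u * Phi d X Y w j u| ≤ Γ ^ 2 * ∑ z ∈ nr X Y η1 η2, |d.F z| := by
    rw [hB, hS, ← sum_sub_distrib]
    refine (abs_sum_le_sum_abs _ _).trans ((sum_le_sum (g := fun z =>
      if z ∈ nr X Y η1 η2 then Γ ^ 2 * |d.F z| else 0) fun z hz => ?_).trans ?_)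
    · obtain ⟨z1, z2⟩ := mem_filter.1 hz
      obtain ⟨r1, r2⟩ := h.rng.1 z z1
      have d1 := h.supp.1 _ z2
      obtain ⟨u1, u2⟩ := P.xPair_div h.m_pos d1 r1 r2
      have e : lf d.α d.β z = d.m * (lf d.α d.β z / (d.m : ℤ)) := (Int.mul_ediv_cancel' d1).symm
      have hu : lf d.α d.β z / (d.m : ℤ) < w * J := by
        refine lt_of_mul_lt_mul_left ?_ hm.le
        rw [← e, ← mul_assoc]
        exact_mod_cast r2.trans_lt hJ
      have g1 := hg _ u1 u2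
      have g2 := h.hb z z1
      generalize lf d.α d.β z / (d.m : ℤ) = u0 at e hu g1 u1
      obtain ⟨j0, a1, a2, a3⟩ := P.xPair_single hw hm u1.le hu
      have a4 := a3 (fun j => good d X Y w j (lf d.α' d.β' z))
        (fun u => g u * (d.F z * d.h (lf d.α' d.β' z)))
      rw [← e] at a4
      rw [a4]
      by_cases hgd : good d X Y w j0 (lf d.α' d.β' z)
      · rw [if_pos hgd, show ∀ a b c : ℝ, a * b * c - b * (a * c) = 0 from fun a b c => by ring,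
          abs_zero]
        split_ifs <;> positivity
      · rw [if_neg hgd, sub_zero, if_pos (near d h.det h1 h2 z1
          (e ▸ mul_le_mul_of_nonneg_left a1 hm.le) (e ▸ mul_lt_mul_of_pos_left a2 hm) hgd),
          abs_mul, abs_mul, mul_assoc, mul_comm, pow_two]
        exact mul_le_mul_of_nonneg_right (mul_le_mul g1 g2 (abs_nonneg _) hΓ) (abs_nonneg _)
    · rw [← sum_filter, mul_sum]
      exact sum_le_sum_of_subset_of_nonneg (fun z hz => (mem_filter.1 hz).2)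
        fun z _ _ => by positivity
  have := abs_add_le (d.T X Y g - ∑ j ∈ range J, ∑ u ∈ Ico ((w : ℤ) * j) (w * j + w),
      g u * Phi d X Y w j u)
    (∑ j ∈ range J, ∑ u ∈ Ico ((w : ℤ) * j) (w * j + w), g u * Phi d X Y w j u)
  rw [sub_add_cancel] at this
  linarith

end Pool.Agent.MP_e23604_nt.U

end
end

section

/-!
The step `COff`.
-/

open Finset
open scoped Classical

noncomputable section

namespace Pool.Agent.MP_e23604_nt.U

open P (lam shp gg PW cW Rough WW ES mu flat tau NN)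

namespace KOffJ

/-- The distant partners of `u`. -/
def far (d : Ln) (η : ℝ) (u : ℤ) : Finset ℤ :=
  (pt d.S d.Kc u).filter fun u' : ℤ => ¬ |(u : ℝ) - u'| ≤ η

/-- The pair of forms of two members of the family. -/
def pr (d : Ln) (g : ℤ → ℝ) (u u' : ℤ) : Pr :=
  ⟨d.α u, d.β u, d.α u', d.β u', d.m, d.K0, d.t, d.F u u', fun x => g (x / (d.m : ℤ))⟩

def cw (d : Ln) (V : ℕ) : ℝ := (d.K1 * d.Kc : ℝ) / (V : ℝ) ^ 2

theorem cw_nonneg (d : Ln) (V : ℕ) : 0 ≤ cw d V := by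
  unfold cw
  positivity

variable {d : Ln} {N n V X Y : ℕ} {U T0 ρ Γ η : ℝ} {g : ℤ → ℝ}

theorem kc_le (h : d.OK N n V X Y U T0 ρ) (hN : 1 ≤ N) (hn : 1 ≤ n) : d.Kc ≤ V :=
  (Nat.pow_le_pow_iff_left (by omega : n ≠ 0)).1 ((Nat.le_mul_of_pos_left _ hN).trans h.big)

theorem mem_pt {S : Finset ℤ} {K : ℕ} {u u' : ℤ} (h : u' ∈ pt S K u) :
    u' ∈ S ∧ u ≠ u' ∧ (K : ℤ) ∣ u - u' :=
  ⟨(mem_filter.1 h).1, (mem_filter.1 h).2.1.symm, (mem_filter.1 h).2.2⟩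

theorem gb (h : d.OK N n V X Y U T0 ρ) (hN : 1 ≤ N) (hU : U ≤ (N : ℝ) ^ 2)
    (hg : ∀ x : ℤ, 0 ≤ x → x ≤ (N : ℤ) ^ 3 → |g x| ≤ Γ) {u : ℤ} (hu : u ∈ d.S) {z : ℤ × ℤ}
    (hz : z ∈ bx X Y) : |g (lf (d.α u) (d.β u) z / (d.m : ℤ))| ≤ Γ := by
  obtain ⟨h1, h2⟩ := (h.form u hu).2.1.1 z hz
  have h3 : lf (d.α u) (d.β u) z ≤ (N : ℤ) ^ 2 := by exact_mod_cast h2.trans hU
  have h4 : (N : ℤ) ^ 2 ≤ (N : ℤ) ^ 3 := pow_le_pow_right₀ (by exact_mod_cast hN) (by norm_num)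
  exact hg _ (Int.ediv_nonneg h1.le (Int.natCast_nonneg _))
    ((Int.ediv_le_self _ h1.le).trans (h3.trans h4))

theorem cnt (hC : COffC) (h : d.OK N n V X Y U T0 ρ) (hN : 1 ≤ N) (hn : 1 ≤ n) {x : ℝ}
    (hx : 0 ≤ x) : ∑ u ∈ d.S, ∑ _u' ∈ far d η u, cw d V * x ≤ 24 * x := by
  have hK := kc_le h hN hn
  have h1 := (hC d.S d.K1 d.Kc V h.sub h.cls h.K1_pos h.K1_le hK).2.1
  have k1 : (0 : ℝ) < d.K1 := Nat.cast_pos.2 h.K1_pos
  have kc : (0 : ℝ) < d.Kc := Nat.cast_pos.2 (h.K1_pos.trans h.K1_le)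
  have kv : (0 : ℝ) < V := Nat.cast_pos.2 ((h.K1_pos.trans h.K1_le).trans hK)
  have h2 : 0 ≤ cw d V * x := mul_nonneg (cw_nonneg d V) hx
  calc ∑ u ∈ d.S, ∑ _u' ∈ far d η u, cw d V * x
      ≤ ∑ u ∈ d.S, ((pt d.S d.Kc u).card : ℝ) * (cw d V * x) := by
        refine sum_le_sum fun u _ => ?_
        rw [sum_const, nsmul_eq_mul]
        exact mul_le_mul_of_nonneg_right (Nat.cast_le.2 (card_filter_le _ _)) h2
    _ ≤ 24 * (V : ℝ) ^ 2 / (d.K1 * d.Kc) * (cw d V * x) := by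
        rw [← sum_mul]
        exact mul_le_mul_of_nonneg_right h1 h2
    _ = 24 * x := by
        unfold cw
        field_simp

theorem near (hC : COffC) (h : d.OK N n V X Y U T0 ρ) (hN : 1 ≤ N) (hn : 1 ≤ n)
    (hU : U ≤ (N : ℝ) ^ 2) (hg : ∀ x : ℤ, 0 ≤ x → x ≤ (N : ℤ) ^ 3 → |g x| ≤ Γ) {M : ℝ}
    (hM : 0 < M) :
    cw d V * ∑ u ∈ d.S, ∑ u' ∈ pt d.S d.Kc u, |d.T X Y g u u'| ≤
      8 * Γ ^ 2 / M * ∑ z ∈ bx X Y, d.G z +
        ∑ u ∈ d.S, ∑ u' ∈ far d (V / M) u, cw d V * |d.T X Y g u u'| := by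
  have hK := kc_le h hN hn
  obtain ⟨h1, -, h2, -⟩ := hC d.S d.K1 d.Kc V h.sub h.cls h.K1_pos h.K1_le hK
  have k1 : (0 : ℝ) < d.K1 := Nat.cast_pos.2 h.K1_pos
  have kc : (0 : ℝ) < d.Kc := Nat.cast_pos.2 (h.K1_pos.trans h.K1_le)
  have kv : (0 : ℝ) < V := Nat.cast_pos.2 ((h.K1_pos.trans h.K1_le).trans hK)
  have hΓ : 0 ≤ Γ := (abs_nonneg _).trans (hg 0 le_rfl (by positivity))
  have hG : 0 ≤ Γ ^ 2 * ∑ z ∈ bx X Y, d.G z :=
    mul_nonneg (sq_nonneg _) (sum_nonneg fun z _ => (h.G01 z).1)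
  have hT : ∀ u ∈ d.S, ∀ u' ∈ pt d.S d.Kc u,
      |d.T X Y g u u'| ≤ Γ ^ 2 * ∑ z ∈ bx X Y, d.G z := fun u hu u' hu' => by
    obtain ⟨m1, m2, -⟩ := mem_pt hu'
    rw [Ln.T, mul_sum]
    refine (abs_sum_le_sum_abs _ _).trans (sum_le_sum fun z hz => ?_)
    rw [abs_mul, abs_mul, show Γ ^ 2 * d.G z = d.G z * Γ * Γ by ring]
    exact mul_le_mul (mul_le_mul ((h.pair u hu u' m1 m2).2.1 z) (gb h hN hU hg hu hz)
      (abs_nonneg _) (h.G01 z).1) (gb h hN hU hg m1 hz) (abs_nonneg _)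
      (mul_nonneg (h.G01 z).1 hΓ)
  have h3 : ∑ u ∈ d.S, ∑ u' ∈ (pt d.S d.Kc u).filter (fun u' : ℤ => |(u : ℝ) - u'| ≤ V / M),
      |d.T X Y g u u'| ≤
      4 * V / d.K1 * (2 * (V / M) / d.Kc * (Γ ^ 2 * ∑ z ∈ bx X Y, d.G z)) := by
    refine (sum_le_card_nsmul _ _ (2 * (V / M) / d.Kc * (Γ ^ 2 * ∑ z ∈ bx X Y, d.G z))
      fun u hu => ?_).trans ?_
    · refine (sum_le_card_nsmul _ _ _ fun u' hu' => hT u hu u' (mem_filter.1 hu').1).trans ?_
      rw [nsmul_eq_mul]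
      exact mul_le_mul_of_nonneg_right (h2 u _ (by positivity)) hG
    · rw [nsmul_eq_mul]
      exact mul_le_mul_of_nonneg_right h1 (by positivity)
  have h4 := mul_le_mul_of_nonneg_left h3 (cw_nonneg d V)
  have h5 : cw d V * (4 * V / d.K1 * (2 * (V / M) / d.Kc * (Γ ^ 2 * ∑ z ∈ bx X Y, d.G z))) =
      8 * Γ ^ 2 / M * ∑ z ∈ bx X Y, d.G z := by
    unfold cw
    field_simp
    ring
  have h6 : ∑ u ∈ d.S, ∑ u' ∈ pt d.S d.Kc u, |d.T X Y g u u'| =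
      ∑ u ∈ d.S, ∑ u' ∈ (pt d.S d.Kc u).filter (fun u' : ℤ => |(u : ℝ) - u'| ≤ V / M),
        |d.T X Y g u u'| + ∑ u ∈ d.S, ∑ u' ∈ far d (V / M) u, |d.T X Y g u u'| := by
    rw [← sum_add_distrib]
    exact sum_congr rfl fun u _ => (sum_filter_add_sum_filter_not _ _ _).symm
  rw [h6, mul_add, ← h5]
  simp only [← mul_sum]
  linarith

theorem det_ne (h : d.OK N n V X Y U T0 ρ) {u u' : ℤ} (hu : u ∈ d.S) (hu' : u' ∈ d.S)
    (hne : u ≠ u') : (pr d g u u').det ≠ 0 := fun e => by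
  have h1 := (h.pair u hu u' hu' hne).2.2.1
  have h2 : d.α u * d.β u' - d.α u' * d.β u = 0 := e
  rw [h2, zero_dvd_iff] at h1
  have h3 := (h.sub u hu).1
  have h4 := (h.sub u' hu').1
  have h5 : (d.D : ℤ) ≠ 0 := Nat.cast_ne_zero.2 (Nat.pos_iff_ne_zero.1 h.D_pos)
  exact mul_ne_zero (mul_ne_zero h5 (sub_ne_zero.2 hne)) (by omega) h1

theorem stretch {a b w M : ℝ} (ha : 0 ≤ a) (hV : 0 < (V : ℝ)) (hM : 0 < M) (hw : ¬ w ≤ V / M)
    (h : a * w ≤ b * V) : a ≤ b * M := by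
  have h1 : (V : ℝ) ≤ w * M := (div_le_iff₀ hM).1 (not_le.1 hw).le
  have h2 := mul_le_mul_of_nonneg_left h1 ha
  have h3 := mul_le_mul_of_nonneg_right h hM.le
  refine le_of_mul_le_mul_right ?_ hV
  nlinarith

theorem ok (h : d.OK N n V X Y U T0 ρ) (hN : 1 ≤ N) (hn : 1 ≤ n) (hU0 : 0 ≤ U)
    (hU : U ≤ (N : ℝ) ^ 2) (hg : ∀ x : ℤ, 0 ≤ x → x ≤ (N : ℤ) ^ 3 → |g x| ≤ Γ) {M : ℝ}
    (hM : 0 < M) {u u' : ℤ} (hu : u ∈ d.S) (hu' : u' ∈ far d (V / M) u) :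
    0 ≤ cw d V ∧ (pr d g u u').OK X Y U T0 Γ ∧ (pr d g u u').m ^ 10 ≤ N ∧
      (pr d g u u').K ^ 5 ≤ N ∧ ((pr d g u u').t : ℝ) ≤ T0 ∧
      U * |((pr d g u u').β' : ℝ)| ≤ ρ * M * X * |((pr d g u u').det : ℝ)| ∧
      U * |((pr d g u u').α' : ℝ)| ≤ ρ * M * Y * |((pr d g u u').det : ℝ)| := by
  obtain ⟨m0, hf⟩ := mem_filter.1 hu'
  obtain ⟨m1, m2, -⟩ := mem_pt m0
  obtain ⟨p1, p2, -, p3, p4, p5⟩ := h.pair u hu u' m1 m2
  obtain ⟨f1, f2, f3⟩ := h.form u hu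
  have kv : (0 : ℝ) < V := Nat.cast_pos.2 ((h.K1_pos.trans h.K1_le).trans (kc_le h hN hn))
  have hG : ∀ z, d.F u u' z ≠ 0 → d.G z ≠ 0 := fun z hz e =>
    hz (abs_nonpos_iff.1 (e ▸ p2 z))
  refine ⟨cw_nonneg d V, ⟨f1, det_ne h hu m1 m2, h.m_pos, h.K0_pos, h.t_pos,
    fun z => (p2 z).trans (h.G01 z).2, p1,
    ⟨fun z hz => f3.1 z (hG z hz), fun z τ h1 h2 => f3.2 z τ (hG _ h1) (hG _ h2)⟩, f2,
    fun z hz => gb h hN hU hg m1 hz⟩, h.m_le, p3, h.t_le, ?_, ?_⟩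
  · have := stretch (b := ρ * X * |((d.α u * d.β u' - d.α u' * d.β u : ℤ) : ℝ)|)
      (mul_nonneg hU0 (abs_nonneg (d.β u' : ℝ))) kv hM hf (p4.trans (le_of_eq (by ring)))
    exact this.trans (le_of_eq (by unfold Pr.det pr; ring))
  · have := stretch (b := ρ * Y * |((d.α u * d.β u' - d.α u' * d.β u : ℤ) : ℝ)|)
      (mul_nonneg hU0 (abs_nonneg (d.α u' : ℝ))) kv hM hf (p5.trans (le_of_eq (by ring)))
    exact this.trans (le_of_eq (by unfold Pr.det pr; ring))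

theorem dv (h : d.OK N n V X Y U T0 ρ) {u u' : ℤ} (hu : u ∈ d.S) (hu' : u' ∈ pt d.S d.Kc u)
    {e : ℕ} (he : e ∣ (pr d g u u').K) :
    e ≤ N ∧ (e : ℤ) ∣ ((d.K0 * d.D * d.Kc : ℕ) : ℤ) * ((u - u') / (d.Kc : ℤ)) * (u + u') := by
  obtain ⟨m1, m2, m3⟩ := mem_pt hu'
  obtain ⟨-, -, p1, p2, -⟩ := h.pair u hu u' m1 m2
  have h1 : 0 < (pr d g u u').K :=
    Nat.mul_pos h.K0_pos (Int.natAbs_pos.2 (det_ne h hu m1 m2))
  refine ⟨(Nat.le_of_dvd h1 he).trans ((Nat.le_self_pow (by norm_num) _).trans p2), ?_⟩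
  have h2 : ((pr d g u u').K : ℤ) ∣ d.K0 * (d.D * (u - u') * (u + u')) := by
    rw [Pr.K, Nat.cast_mul]
    exact mul_dvd_mul_left _ (Int.natAbs_dvd.2 p1)
  have h3 := Int.mul_ediv_cancel' m3
  refine ((Int.natCast_dvd_natCast.2 he).trans h2).trans (dvd_of_eq ?_)
  push_cast
  linear_combination (-(d.K0 : ℤ) * d.D * (u + u')) * h3

theorem card_bx (X Y : ℕ) : ((bx X Y).card : ℝ) = X * Y := by
  have h : ∀ X : ℕ, (Ioc (X : ℤ) (2 * X)).card = X := fun X => by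
    rw [Int.card_Ioc]
    omega
  rw [bx, card_product, h, h, Nat.cast_mul]

theorem wgt (hC : COffC) {ι : Type} {P : Finset ι} {d : ι → Ln} {D0 D1 Ω : ℝ}
    (hO : ∀ ω ∈ P, (d ω).OK N n V X Y U T0 ρ) (hN : 1 ≤ N) (hn : 1 ≤ n)
    (hW : Wgt P (fun ω => 1 / (((d ω).m : ℝ) * (d ω).t)) (fun ω => (d ω).K0 * (d ω).D * (d ω).Kc)
      (fun ω => (d ω).G) X Y n D0 Ω)
    (hw : ∀ e : ℕ, D1 ≤ e → e ≤ N → ∑ ω ∈ P, ∑ u ∈ (d ω).S, ∑ u' ∈ pt (d ω).S (d ω).Kc u,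
      (if (e : ℤ) ∣ (((d ω).K0 * (d ω).D * (d ω).Kc : ℕ) : ℤ) * ((u - u') / ((d ω).Kc : ℤ)) *
        (u + u') then cw (d ω) V * (1 / (((d ω).m : ℝ) * (d ω).t)) else 0) ≤
      Ω * (e : ℝ) ^ (-(1 / ((12 * n : ℕ) : ℝ)))) :
    Wgt (P.sigma fun ω => (d ω).S.sigma fun u => far (d ω) η u)
      (fun π : (_ : ι) × (_ : ℤ) × ℤ => cw (d π.1) V /
        ((pr (d π.1) g π.2.1 π.2.2).m * (pr (d π.1) g π.2.1 π.2.2).t))
      (fun π => (pr (d π.1) g π.2.1 π.2.2).K)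
      (fun π z => cw (d π.1) V * |(pr (d π.1) g π.2.1 π.2.2).F z|) X Y (12 * n) D1 (24 * Ω) := by
  have hΩ : 0 ≤ Ω := (sum_nonneg fun ω _ => by positivity).trans hW.w1
  refine ⟨?_, fun e he => ?_, fun S hS => ?_⟩
  · simp only [sum_sigma]
    refine le_trans ?_ (mul_le_mul_of_nonneg_left hW.w1 (by norm_num))
    rw [mul_sum]
    refine sum_le_sum fun ω hω => le_trans (le_of_eq ?_)
      (cnt (η := η) hC (hO ω hω) hN hn (by positivity))
    exact sum_congr rfl fun u _ => sum_congr rfl fun u' _ => div_eq_mul_one_div _ _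
  · have h0 : 0 ≤ Ω * (e : ℝ) ^ (-(1 / ((12 * n : ℕ) : ℝ))) := by positivity
    by_cases heN : e ≤ N
    · refine le_trans ?_ ((hw e he heN).trans (by linarith))
      rw [sum_filter]
      simp only [sum_sigma]
      refine sum_le_sum fun ω hω => sum_le_sum fun u hu => ?_
      have h1 : 0 ≤ cw (d ω) V * (1 / (((d ω).m : ℝ) * (d ω).t)) :=
        mul_nonneg (cw_nonneg _ _) (by positivity)
      refine le_trans (sum_le_sum fun u' hu' => ?_)
        (sum_le_sum_of_subset_of_nonneg (filter_subset _ _) fun u' _ _ => ?_)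
      · split_ifs with h2 h3 h3
        · exact le_of_eq (div_eq_mul_one_div _ _)
        · exact absurd (dv (hO ω hω) hu (mem_filter.1 hu').1 h2).2 h3
        · exact h1
        · exact le_rfl
      · split_ifs
        · exact h1
        · exact le_rfl
    · rw [filter_false_of_mem, sum_empty]
      · linarith
      · intro π hπ h2
        obtain ⟨h3, h4⟩ := mem_sigma.1 hπ
        obtain ⟨h5, h6⟩ := mem_sigma.1 h4
        exact heN (dv (hO _ h3) h5 (mem_filter.1 h6).1 h2).1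
  · simp only [sum_sigma]
    rw [mul_assoc]
    refine le_trans ?_ (mul_le_mul_of_nonneg_left (hW.mass S hS) (by norm_num))
    rw [mul_sum]
    refine sum_le_sum fun ω hω => le_trans ?_ (cnt (η := η) hC (hO ω hω) hN hn
      (sum_nonneg fun z _ => ((hO ω hω).G01 z).1))
    refine sum_le_sum fun u hu => sum_le_sum fun u' hu' => ?_
    obtain ⟨m1, m2, -⟩ := mem_pt (mem_filter.1 hu').1
    rw [mul_sum]
    exact sum_le_sum fun z _ =>
      mul_le_mul_of_nonneg_left (((hO ω hω).pair u hu u' m1 m2).2.1 z) (cw_nonneg _ _)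

theorem fin {L Q : ℝ} (A : ℕ) (hL : 144 ≤ L) (hQ : 0 ≤ Q) :
    8 * (3 * L) ^ 2 / L ^ (A + 3) * Q + 24 * Q / L ^ (A + 1) ≤ Q / L ^ A := by
  have h0 : 0 < L := by linarith
  have h1 : 8 * (3 * L) ^ 2 / L ^ (A + 3) * Q + 24 * Q / L ^ (A + 1) =
      Q / L ^ A * (96 / L) := by
    field_simp
    ring
  rw [h1]
  exact mul_le_of_le_one_right (by positivity) ((div_le_one h0).2 (by linarith))

end KOffJ

open KOffJ in
theorem COff_pf (hCore : CCore) (hOffC : COffC) (hOffW : COffW) : COff := by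
  intro A a n hn
  obtain ⟨B0, hB0⟩ := hCore (A + 1) (6 * a + (A + 3) + 1) (12 * n) (by omega)
  obtain ⟨d0, hd0⟩ := hOffW n hn
  refine ⟨B0, fun B hB => ?_⟩
  obtain ⟨N1, hN1⟩ := hB0 B hB
  obtain ⟨N2, hN2⟩ := P.wt_all B
  obtain ⟨N3, hN3⟩ := P.log_pow_le 0 0 (max 144 (d0 : ℝ))
  refine ⟨N1 + N2 + N3 + 1, fun N hN ι P d V X Y U T0 Ω ρ hS hO hW => ?_⟩
  have hN' : 1 ≤ N := by omega
  have hg := (hN2 N (by omega)).2.2.1
  have hL := (hN3 N (by omega)).1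
  have hL1 : 144 ≤ Real.log N := (le_max_left _ _).trans hL
  have hL2 : (d0 : ℝ) ≤ Real.log N := (le_max_right _ _).trans hL
  have L1 : 1 ≤ Real.log N := by linarith
  have pw : ∀ i j : ℕ, i ≤ j → Real.log N ^ i ≤ Real.log N ^ j := fun i j h =>
    pow_le_pow_right₀ L1 h
  have hM1 : 1 ≤ Real.log N ^ (A + 3) := one_le_pow₀ L1
  have hM : 0 < Real.log N ^ (A + 3) := zero_lt_one.trans_le hM1
  have hΩ : 0 ≤ Ω := (sum_nonneg fun ω _ => by positivity).trans hW.w1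
  have hU0 : 0 ≤ U := (Nat.cast_nonneg N).trans hS.hU
  have hρ0 : 0 ≤ ρ := zero_le_one.trans hS.h1
  have hρ1 : ρ ≤ ρ * Real.log N ^ (A + 3) := le_mul_of_one_le_right hρ0 hM1
  have up : ∀ x : ℕ, N ≤ x ^ n → N ≤ x ^ (12 * n) := fun x hx => by
    have h1 : 1 ≤ x := Nat.pos_of_ne_zero fun e => by
      rw [e, zero_pow (by omega)] at hx
      omega
    exact hx.trans (Nat.pow_le_pow_right h1 (by omega))
  have hc := @hN1 N (by omega) ((_ : ι) × (_ : ℤ) × ℤ)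
    (P.sigma fun ω => (d ω).S.sigma fun u => far (d ω) (V / Real.log N ^ (A + 3)) u)
    (fun π => pr (d π.1) (gg (WW B N)) π.2.1 π.2.2) (fun π => cw (d π.1) V) X Y U T0 (24 * Ω)
    (ρ * Real.log N ^ (A + 3))
    ⟨up X hS.hX, up Y hS.hY, hS.hU, hS.hU', hS.hT, hS.hUT.trans (by gcongr), hS.h1.trans hρ1,
      (mul_le_mul_of_nonneg_right hS.hρ hM.le).trans (by rw [← pow_add]; exact pw _ _ (by omega))⟩
    (fun π hπ => ok (hO _ (mem_sigma.1 hπ).1) hN' hn hU0 hS.hU' hg hM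
      (mem_sigma.1 (mem_sigma.1 hπ).2).1 (mem_sigma.1 (mem_sigma.1 hπ).2).2)
    (wgt hOffC hO hN' hn hW fun e he heN => hd0 P (fun ω => (d ω).S) (fun ω => (d ω).K1)
      (fun ω => (d ω).Kc) (fun ω => (d ω).K0 * (d ω).D * (d ω).Kc)
      (fun ω => 1 / (((d ω).m : ℝ) * (d ω).t)) N V (Real.log N ^ a) Ω hN' (one_le_pow₀ L1)
      (fun ω hω => ⟨by positivity, (hO ω hω).sub, (hO ω hω).cls, (hO ω hω).K1_pos,
        (hO ω hω).K1_le, Dvd.intro_left _ rfl, (hO ω hω).big⟩) hW.w1 hW.w2 e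
      (Nat.cast_le.1 (hL2.trans ((le_self_pow₀ L1 (by omega)).trans he)))
      (le_trans (by rw [← pow_mul]; exact pw _ _ (by omega)) he) heN)
  simp only [sum_sigma] at hc
  have hm := hW.mass _ (Subset.refl _)
  rw [card_bx, show (X : ℝ) * Y * X * Y = (X * Y) ^ 2 by ring,
    Real.sqrt_sq (by positivity)] at hm
  have h1 := sum_le_sum fun ω hω => near hOffC (hO ω hω) hN' hn hS.hU' hg hM
  rw [sum_add_distrib, ← mul_sum] at h1
  have h2 := mul_le_mul_of_nonneg_left hm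
    (show 0 ≤ 8 * (3 * Real.log N) ^ 2 / Real.log N ^ (A + 3) by positivity)
  have h3 := fin (Q := Ω * (X * Y)) A hL1 (by positivity)
  have e1 : 24 * Ω * X * Y = 24 * (Ω * (X * Y)) := by ring
  have e2 : Ω * X * Y = Ω * (X * Y) := by ring
  rw [e1] at hc
  rw [e2]
  exact h1.trans ((add_le_add h2 hc).trans h3)

end Pool.Agent.MP_e23604_nt.U

end
end

section

/-!
The step `CLin`.
-/

open Finset
open scoped Classical

noncomputable section

namespace Pool.Agent.MP_e23604_nt.U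

open P (lam shp gg PW cW Rough WW ES mu flat tau NN)

namespace KLinJ

theorem all3 {p : Fin 3 → Prop} (h0 : p 0) (h1 : p 1) (h2 : p 2) (i : Fin 3) : p i := by
  fin_cases i <;> assumption

theorem all12 {p : Fin 12 → Prop} (h0 : p 0) (h1 : p 1) (h2 : p 2) (h3 : p 3) (h4 : p 4)
    (h5 : p 5) (h6 : p 6) (h7 : p 7) (h8 : p 8) (h9 : p 9) (h10 : p 10) (h11 : p 11)
    (i : Fin 12) : p i := by
  fin_cases i <;> assumption

theorem lin0 : ∀ σ ∈ Act 0, ∀ (v : V10) (z : ℤ × ℤ),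
    fm (upl 0 v z) σ = lf (al 0 σ v) (be 0 σ v) z := by
  refine all12 ?_ ?_ ?_ ?_ ?_ ?_ ?_ ?_ ?_ ?_ ?_ ?_
  · intro _ v z
    show z.1 =
      (1) * z.1 + (0) * z.2
    ring
  · intro _ v z
    show z.2 =
      (0) * z.1 + (1) * z.2
    ring
  · exact fun h => absurd h (by decide)
  · exact fun h => absurd h (by decide)
  · exact fun h => absurd h (by decide)
  · exact fun h => absurd h (by decide)
  · intro _ v z
    show z.1 * v 2 * v 6 ^ 2 - 4 * v 3 * z.2 * v 9 ^ 2 =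
      (v 2 * v 6 ^ 2) * z.1 + (-(4 * v 3 * v 9 ^ 2)) * z.2
    ring
  · intro _ v z
    show 4 * v 2 * z.2 * v 8 ^ 2 - z.1 * v 3 * v 7 ^ 2 =
      (-(v 3 * v 7 ^ 2)) * z.1 + (4 * v 2 * v 8 ^ 2) * z.2
    ring
  · exact fun h => absurd h (by decide)
  · exact fun h => absurd h (by decide)
  · intro _ v z
    show z.1 * v 4 * v 6 ^ 2 - 4 * v 5 * z.2 * v 8 ^ 2 =
      (v 4 * v 6 ^ 2) * z.1 + (-(4 * v 5 * v 8 ^ 2)) * z.2
    ring
  · intro _ v z
    show 4 * v 4 * z.2 * v 9 ^ 2 - z.1 * v 5 * v 7 ^ 2 =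
      (-(v 5 * v 7 ^ 2)) * z.1 + (4 * v 4 * v 9 ^ 2) * z.2
    ring

theorem lin1 : ∀ σ ∈ Act 1, ∀ (v : V10) (z : ℤ × ℤ),
    fm (upl 1 v z) σ = lf (al 1 σ v) (be 1 σ v) z := by
  refine all12 ?_ ?_ ?_ ?_ ?_ ?_ ?_ ?_ ?_ ?_ ?_ ?_
  · exact fun h => absurd h (by decide)
  · exact fun h => absurd h (by decide)
  · intro _ v z
    show z.1 * v 4 * v 6 ^ 2 - v 5 * z.2 * v 7 ^ 2 =
      (v 4 * v 6 ^ 2) * z.1 + (-(v 5 * v 7 ^ 2)) * z.2
    ring
  · intro _ v z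
    show z.1 * v 5 * v 8 ^ 2 - v 4 * z.2 * v 9 ^ 2 =
      (v 5 * v 8 ^ 2) * z.1 + (-(v 4 * v 9 ^ 2)) * z.2
    ring
  · exact fun h => absurd h (by decide)
  · exact fun h => absurd h (by decide)
  · intro _ v z
    show v 0 * z.1 * v 6 ^ 2 - 4 * z.2 * v 1 * v 9 ^ 2 =
      (v 0 * v 6 ^ 2) * z.1 + (-(4 * v 1 * v 9 ^ 2)) * z.2
    ring
  · intro _ v z
    show 4 * z.1 * v 1 * v 8 ^ 2 - v 0 * z.2 * v 7 ^ 2 =
      (4 * v 1 * v 8 ^ 2) * z.1 + (-(v 0 * v 7 ^ 2)) * z.2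
    ring
  · intro _ v z
    show z.1 =
      (1) * z.1 + (0) * z.2
    ring
  · intro _ v z
    show z.2 =
      (0) * z.1 + (1) * z.2
    ring
  · exact fun h => absurd h (by decide)
  · exact fun h => absurd h (by decide)

theorem lin2 : ∀ σ ∈ Act 2, ∀ (v : V10) (z : ℤ × ℤ),
    fm (upl 2 v z) σ = lf (al 2 σ v) (be 2 σ v) z := by
  refine all12 ?_ ?_ ?_ ?_ ?_ ?_ ?_ ?_ ?_ ?_ ?_ ?_
  · exact fun h => absurd h (by decide)
  · exact fun h => absurd h (by decide)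
  · intro _ v z
    show v 2 * z.1 * v 6 ^ 2 - z.2 * v 3 * v 7 ^ 2 =
      (v 2 * v 6 ^ 2) * z.1 + (-(v 3 * v 7 ^ 2)) * z.2
    ring
  · intro _ v z
    show v 2 * z.2 * v 8 ^ 2 - z.1 * v 3 * v 9 ^ 2 =
      (-(v 3 * v 9 ^ 2)) * z.1 + (v 2 * v 8 ^ 2) * z.2
    ring
  · intro _ v z
    show z.1 =
      (1) * z.1 + (0) * z.2
    ring
  · intro _ v z
    show z.2 =
      (0) * z.1 + (1) * z.2
    ring
  · exact fun h => absurd h (by decide)
  · exact fun h => absurd h (by decide)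
  · exact fun h => absurd h (by decide)
  · exact fun h => absurd h (by decide)
  · intro _ v z
    show v 0 * z.1 * v 6 ^ 2 - 4 * z.2 * v 1 * v 8 ^ 2 =
      (v 0 * v 6 ^ 2) * z.1 + (-(4 * v 1 * v 8 ^ 2)) * z.2
    ring
  · intro _ v z
    show 4 * z.1 * v 1 * v 9 ^ 2 - v 0 * z.2 * v 7 ^ 2 =
      (4 * v 1 * v 9 ^ 2) * z.1 + (-(v 0 * v 7 ^ 2)) * z.2
    ring

theorem act : ∀ (ℓ : Fin 3) (σ : Fin 12), σ ∉ Act ℓ → vi ℓ ∉ dp σ ∧ vj ℓ ∉ dp σ := by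
  decide

theorem dep0 (σ : Fin 12) (v v' : V10) (h : ∀ j ∈ dp σ, v j = v' j) :
    site v σ = site v' σ ∧ fm v σ = fm v' σ := by
  revert σ
  refine all12 ?_ ?_ ?_ ?_ ?_ ?_ ?_ ?_ ?_ ?_ ?_ ?_
  · intro h
    have e : v 0 =
        v' 0 := by
      rw [h 0 (by decide)]
    exact ⟨e, e⟩
  · intro h
    have e : v 1 =
        v' 1 := by
      rw [h 1 (by decide)]
    exact ⟨e, e⟩
  · intro h
    have e : v 2 * v 4 * v 6 ^ 2 - v 5 * v 3 * v 7 ^ 2 =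
        v' 2 * v' 4 * v' 6 ^ 2 - v' 5 * v' 3 * v' 7 ^ 2 := by
      rw [h 2 (by decide), h 3 (by decide), h 4 (by decide), h 5 (by decide), h 6 (by decide), h 7 (by decide)]
    exact ⟨congrArg (fun x : ℤ => x / 4) e, e⟩
  · intro h
    have e : v 2 * v 5 * v 8 ^ 2 - v 4 * v 3 * v 9 ^ 2 =
        v' 2 * v' 5 * v' 8 ^ 2 - v' 4 * v' 3 * v' 9 ^ 2 := by
      rw [h 2 (by decide), h 3 (by decide), h 4 (by decide), h 5 (by decide), h 8 (by decide), h 9 (by decide)]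
    exact ⟨e, e⟩
  · intro h
    have e : v 4 =
        v' 4 := by
      rw [h 4 (by decide)]
    exact ⟨e, e⟩
  · intro h
    have e : v 5 =
        v' 5 := by
      rw [h 5 (by decide)]
    exact ⟨e, e⟩
  · intro h
    have e : v 0 * v 2 * v 6 ^ 2 - 4 * v 3 * v 1 * v 9 ^ 2 =
        v' 0 * v' 2 * v' 6 ^ 2 - 4 * v' 3 * v' 1 * v' 9 ^ 2 := by
      rw [h 0 (by decide), h 1 (by decide), h 2 (by decide), h 3 (by decide), h 6 (by decide), h 9 (by decide)]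
    exact ⟨e, e⟩
  · intro h
    have e : 4 * v 2 * v 1 * v 8 ^ 2 - v 0 * v 3 * v 7 ^ 2 =
        4 * v' 2 * v' 1 * v' 8 ^ 2 - v' 0 * v' 3 * v' 7 ^ 2 := by
      rw [h 0 (by decide), h 1 (by decide), h 2 (by decide), h 3 (by decide), h 7 (by decide), h 8 (by decide)]
    exact ⟨e, e⟩
  · intro h
    have e : v 2 =
        v' 2 := by
      rw [h 2 (by decide)]
    exact ⟨e, e⟩
  · intro h
    have e : v 3 =
        v' 3 := by
      rw [h 3 (by decide)]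
    exact ⟨e, e⟩
  · intro h
    have e : v 0 * v 4 * v 6 ^ 2 - 4 * v 5 * v 1 * v 8 ^ 2 =
        v' 0 * v' 4 * v' 6 ^ 2 - 4 * v' 5 * v' 1 * v' 8 ^ 2 := by
      rw [h 0 (by decide), h 1 (by decide), h 4 (by decide), h 5 (by decide), h 6 (by decide), h 8 (by decide)]
    exact ⟨e, e⟩
  · intro h
    have e : 4 * v 4 * v 1 * v 9 ^ 2 - v 0 * v 5 * v 7 ^ 2 =
        4 * v' 4 * v' 1 * v' 9 ^ 2 - v' 0 * v' 5 * v' 7 ^ 2 := by
      rw [h 0 (by decide), h 1 (by decide), h 4 (by decide), h 5 (by decide), h 7 (by decide), h 9 (by decide)]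
    exact ⟨e, e⟩

theorem dep (σ : Fin 12) (i : Fin 10) (hi : i ∉ dp σ) (v : V10) (t : ℤ) :
    site (Function.update v i t) σ = site v σ ∧ fm (Function.update v i t) σ = fm v σ :=
  dep0 σ _ _ fun j hj => Function.update_of_ne (fun e : j = i => hi (e ▸ hj)) _ _

theorem var : ∀ (i : Fin 10), i.val < 6 → ∀ v : V10, site v (sv i) = v i ∧ fm v (sv i) = v i := by
  refine xEB_all ?_ ?_ ?_ ?_ ?_ ?_ ?_ ?_ ?_ ?_
  all_goals first
    | exact fun h => absurd h (by decide)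
    | exact fun _ _ => ⟨rfl, rfl⟩

theorem self (i j : Fin 10) (v : V10) : up i j v (v i, v j) = v := by
  simp [up]

theorem congFm {K : ℤ} {v v' : V10} (h : ∀ i, v i ≡ v' i [ZMOD K]) (σ : Fin 12) :
    fm v σ ≡ fm v' σ [ZMOD K] := by
  revert σ
  refine all12 ?_ ?_ ?_ ?_ ?_ ?_ ?_ ?_ ?_ ?_ ?_ ?_
  · exact h 0
  · exact h 1
  · exact (((h 2).mul (h 4)).mul ((h 6).pow 2)).sub
      (((h 5).mul (h 3)).mul ((h 7).pow 2))
  · exact (((h 2).mul (h 5)).mul ((h 8).pow 2)).sub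
      (((h 4).mul (h 3)).mul ((h 9).pow 2))
  · exact h 4
  · exact h 5
  · exact (((h 0).mul (h 2)).mul ((h 6).pow 2)).sub
      ((((Int.ModEq.refl 4).mul (h 3)).mul (h 1)).mul ((h 9).pow 2))
  · exact ((((Int.ModEq.refl 4).mul (h 2)).mul (h 1)).mul ((h 8).pow 2)).sub
      (((h 0).mul (h 3)).mul ((h 7).pow 2))
  · exact h 2
  · exact h 3
  · exact (((h 0).mul (h 4)).mul ((h 6).pow 2)).sub
      ((((Int.ModEq.refl 4).mul (h 5)).mul (h 1)).mul ((h 8).pow 2))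
  · exact ((((Int.ModEq.refl 4).mul (h 4)).mul (h 1)).mul ((h 9).pow 2)).sub
      (((h 0).mul (h 5)).mul ((h 7).pow 2))

theorem congal0 {K : ℤ} {v v' : V10}
    (h : ∀ i, i ≠ vi 0 → i ≠ vj 0 → v i ≡ v' i [ZMOD K]) (σ : Fin 12) :
    al 0 σ v ≡ al 0 σ v' [ZMOD K] := by
  revert σ
  refine all12 ?_ ?_ ?_ ?_ ?_ ?_ ?_ ?_ ?_ ?_ ?_ ?_
  · show (1 : ℤ) ≡ 1 [ZMOD K]
    exact Int.ModEq.refl _
  · show (0 : ℤ) ≡ 0 [ZMOD K]
    exact Int.ModEq.refl _
  · show (0 : ℤ) ≡ 0 [ZMOD K]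
    exact Int.ModEq.refl _
  · show (0 : ℤ) ≡ 0 [ZMOD K]
    exact Int.ModEq.refl _
  · show (0 : ℤ) ≡ 0 [ZMOD K]
    exact Int.ModEq.refl _
  · show (0 : ℤ) ≡ 0 [ZMOD K]
    exact Int.ModEq.refl _
  · show v 2 * v 6 ^ 2 ≡ v' 2 * v' 6 ^ 2 [ZMOD K]
    exact ((h 2 (by decide) (by decide)).mul
      ((h 6 (by decide) (by decide)).pow 2))
  · show -(v 3 * v 7 ^ 2) ≡ -(v' 3 * v' 7 ^ 2) [ZMOD K]
    exact ((h 3 (by decide) (by decide)).mul
      ((h 7 (by decide) (by decide)).pow 2)).neg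
  · show (0 : ℤ) ≡ 0 [ZMOD K]
    exact Int.ModEq.refl _
  · show (0 : ℤ) ≡ 0 [ZMOD K]
    exact Int.ModEq.refl _
  · show v 4 * v 6 ^ 2 ≡ v' 4 * v' 6 ^ 2 [ZMOD K]
    exact ((h 4 (by decide) (by decide)).mul
      ((h 6 (by decide) (by decide)).pow 2))
  · show -(v 5 * v 7 ^ 2) ≡ -(v' 5 * v' 7 ^ 2) [ZMOD K]
    exact ((h 5 (by decide) (by decide)).mul
      ((h 7 (by decide) (by decide)).pow 2)).neg

theorem congal1 {K : ℤ} {v v' : V10}
    (h : ∀ i, i ≠ vi 1 → i ≠ vj 1 → v i ≡ v' i [ZMOD K]) (σ : Fin 12) :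
    al 1 σ v ≡ al 1 σ v' [ZMOD K] := by
  revert σ
  refine all12 ?_ ?_ ?_ ?_ ?_ ?_ ?_ ?_ ?_ ?_ ?_ ?_
  · show (0 : ℤ) ≡ 0 [ZMOD K]
    exact Int.ModEq.refl _
  · show (0 : ℤ) ≡ 0 [ZMOD K]
    exact Int.ModEq.refl _
  · show v 4 * v 6 ^ 2 ≡ v' 4 * v' 6 ^ 2 [ZMOD K]
    exact ((h 4 (by decide) (by decide)).mul
      ((h 6 (by decide) (by decide)).pow 2))
  · show v 5 * v 8 ^ 2 ≡ v' 5 * v' 8 ^ 2 [ZMOD K]
    exact ((h 5 (by decide) (by decide)).mul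
      ((h 8 (by decide) (by decide)).pow 2))
  · show (0 : ℤ) ≡ 0 [ZMOD K]
    exact Int.ModEq.refl _
  · show (0 : ℤ) ≡ 0 [ZMOD K]
    exact Int.ModEq.refl _
  · show v 0 * v 6 ^ 2 ≡ v' 0 * v' 6 ^ 2 [ZMOD K]
    exact ((h 0 (by decide) (by decide)).mul
      ((h 6 (by decide) (by decide)).pow 2))
  · show 4 * v 1 * v 8 ^ 2 ≡ 4 * v' 1 * v' 8 ^ 2 [ZMOD K]
    exact (((Int.ModEq.refl 4).mul
      (h 1 (by decide) (by decide))).mul
      ((h 8 (by decide) (by decide)).pow 2))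
  · show (1 : ℤ) ≡ 1 [ZMOD K]
    exact Int.ModEq.refl _
  · show (0 : ℤ) ≡ 0 [ZMOD K]
    exact Int.ModEq.refl _
  · show (0 : ℤ) ≡ 0 [ZMOD K]
    exact Int.ModEq.refl _
  · show (0 : ℤ) ≡ 0 [ZMOD K]
    exact Int.ModEq.refl _

theorem congal2 {K : ℤ} {v v' : V10}
    (h : ∀ i, i ≠ vi 2 → i ≠ vj 2 → v i ≡ v' i [ZMOD K]) (σ : Fin 12) :
    al 2 σ v ≡ al 2 σ v' [ZMOD K] := by
  revert σ
  refine all12 ?_ ?_ ?_ ?_ ?_ ?_ ?_ ?_ ?_ ?_ ?_ ?_
  · show (0 : ℤ) ≡ 0 [ZMOD K]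
    exact Int.ModEq.refl _
  · show (0 : ℤ) ≡ 0 [ZMOD K]
    exact Int.ModEq.refl _
  · show v 2 * v 6 ^ 2 ≡ v' 2 * v' 6 ^ 2 [ZMOD K]
    exact ((h 2 (by decide) (by decide)).mul
      ((h 6 (by decide) (by decide)).pow 2))
  · show -(v 3 * v 9 ^ 2) ≡ -(v' 3 * v' 9 ^ 2) [ZMOD K]
    exact ((h 3 (by decide) (by decide)).mul
      ((h 9 (by decide) (by decide)).pow 2)).neg
  · show (1 : ℤ) ≡ 1 [ZMOD K]
    exact Int.ModEq.refl _
  · show (0 : ℤ) ≡ 0 [ZMOD K]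
    exact Int.ModEq.refl _
  · show (0 : ℤ) ≡ 0 [ZMOD K]
    exact Int.ModEq.refl _
  · show (0 : ℤ) ≡ 0 [ZMOD K]
    exact Int.ModEq.refl _
  · show (0 : ℤ) ≡ 0 [ZMOD K]
    exact Int.ModEq.refl _
  · show (0 : ℤ) ≡ 0 [ZMOD K]
    exact Int.ModEq.refl _
  · show v 0 * v 6 ^ 2 ≡ v' 0 * v' 6 ^ 2 [ZMOD K]
    exact ((h 0 (by decide) (by decide)).mul
      ((h 6 (by decide) (by decide)).pow 2))
  · show 4 * v 1 * v 9 ^ 2 ≡ 4 * v' 1 * v' 9 ^ 2 [ZMOD K]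
    exact (((Int.ModEq.refl 4).mul
      (h 1 (by decide) (by decide))).mul
      ((h 9 (by decide) (by decide)).pow 2))

theorem congbe0 {K : ℤ} {v v' : V10}
    (h : ∀ i, i ≠ vi 0 → i ≠ vj 0 → v i ≡ v' i [ZMOD K]) (σ : Fin 12) :
    be 0 σ v ≡ be 0 σ v' [ZMOD K] := by
  revert σ
  refine all12 ?_ ?_ ?_ ?_ ?_ ?_ ?_ ?_ ?_ ?_ ?_ ?_
  · show (0 : ℤ) ≡ 0 [ZMOD K]
    exact Int.ModEq.refl _
  · show (1 : ℤ) ≡ 1 [ZMOD K]
    exact Int.ModEq.refl _
  · show (0 : ℤ) ≡ 0 [ZMOD K]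
    exact Int.ModEq.refl _
  · show (0 : ℤ) ≡ 0 [ZMOD K]
    exact Int.ModEq.refl _
  · show (0 : ℤ) ≡ 0 [ZMOD K]
    exact Int.ModEq.refl _
  · show (0 : ℤ) ≡ 0 [ZMOD K]
    exact Int.ModEq.refl _
  · show -(4 * v 3 * v 9 ^ 2) ≡ -(4 * v' 3 * v' 9 ^ 2) [ZMOD K]
    exact (((Int.ModEq.refl 4).mul
      (h 3 (by decide) (by decide))).mul
      ((h 9 (by decide) (by decide)).pow 2)).neg
  · show 4 * v 2 * v 8 ^ 2 ≡ 4 * v' 2 * v' 8 ^ 2 [ZMOD K]
    exact (((Int.ModEq.refl 4).mul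
      (h 2 (by decide) (by decide))).mul
      ((h 8 (by decide) (by decide)).pow 2))
  · show (0 : ℤ) ≡ 0 [ZMOD K]
    exact Int.ModEq.refl _
  · show (0 : ℤ) ≡ 0 [ZMOD K]
    exact Int.ModEq.refl _
  · show -(4 * v 5 * v 8 ^ 2) ≡ -(4 * v' 5 * v' 8 ^ 2) [ZMOD K]
    exact (((Int.ModEq.refl 4).mul
      (h 5 (by decide) (by decide))).mul
      ((h 8 (by decide) (by decide)).pow 2)).neg
  · show 4 * v 4 * v 9 ^ 2 ≡ 4 * v' 4 * v' 9 ^ 2 [ZMOD K]
    exact (((Int.ModEq.refl 4).mul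
      (h 4 (by decide) (by decide))).mul
      ((h 9 (by decide) (by decide)).pow 2))

theorem congbe1 {K : ℤ} {v v' : V10}
    (h : ∀ i, i ≠ vi 1 → i ≠ vj 1 → v i ≡ v' i [ZMOD K]) (σ : Fin 12) :
    be 1 σ v ≡ be 1 σ v' [ZMOD K] := by
  revert σ
  refine all12 ?_ ?_ ?_ ?_ ?_ ?_ ?_ ?_ ?_ ?_ ?_ ?_
  · show (0 : ℤ) ≡ 0 [ZMOD K]
    exact Int.ModEq.refl _
  · show (0 : ℤ) ≡ 0 [ZMOD K]
    exact Int.ModEq.refl _
  · show -(v 5 * v 7 ^ 2) ≡ -(v' 5 * v' 7 ^ 2) [ZMOD K]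
    exact ((h 5 (by decide) (by decide)).mul
      ((h 7 (by decide) (by decide)).pow 2)).neg
  · show -(v 4 * v 9 ^ 2) ≡ -(v' 4 * v' 9 ^ 2) [ZMOD K]
    exact ((h 4 (by decide) (by decide)).mul
      ((h 9 (by decide) (by decide)).pow 2)).neg
  · show (0 : ℤ) ≡ 0 [ZMOD K]
    exact Int.ModEq.refl _
  · show (0 : ℤ) ≡ 0 [ZMOD K]
    exact Int.ModEq.refl _
  · show -(4 * v 1 * v 9 ^ 2) ≡ -(4 * v' 1 * v' 9 ^ 2) [ZMOD K]
    exact (((Int.ModEq.refl 4).mul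
      (h 1 (by decide) (by decide))).mul
      ((h 9 (by decide) (by decide)).pow 2)).neg
  · show -(v 0 * v 7 ^ 2) ≡ -(v' 0 * v' 7 ^ 2) [ZMOD K]
    exact ((h 0 (by decide) (by decide)).mul
      ((h 7 (by decide) (by decide)).pow 2)).neg
  · show (0 : ℤ) ≡ 0 [ZMOD K]
    exact Int.ModEq.refl _
  · show (1 : ℤ) ≡ 1 [ZMOD K]
    exact Int.ModEq.refl _
  · show (0 : ℤ) ≡ 0 [ZMOD K]
    exact Int.ModEq.refl _
  · show (0 : ℤ) ≡ 0 [ZMOD K]
    exact Int.ModEq.refl _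

theorem congbe2 {K : ℤ} {v v' : V10}
    (h : ∀ i, i ≠ vi 2 → i ≠ vj 2 → v i ≡ v' i [ZMOD K]) (σ : Fin 12) :
    be 2 σ v ≡ be 2 σ v' [ZMOD K] := by
  revert σ
  refine all12 ?_ ?_ ?_ ?_ ?_ ?_ ?_ ?_ ?_ ?_ ?_ ?_
  · show (0 : ℤ) ≡ 0 [ZMOD K]
    exact Int.ModEq.refl _
  · show (0 : ℤ) ≡ 0 [ZMOD K]
    exact Int.ModEq.refl _
  · show -(v 3 * v 7 ^ 2) ≡ -(v' 3 * v' 7 ^ 2) [ZMOD K]
    exact ((h 3 (by decide) (by decide)).mul
      ((h 7 (by decide) (by decide)).pow 2)).neg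
  · show v 2 * v 8 ^ 2 ≡ v' 2 * v' 8 ^ 2 [ZMOD K]
    exact ((h 2 (by decide) (by decide)).mul
      ((h 8 (by decide) (by decide)).pow 2))
  · show (0 : ℤ) ≡ 0 [ZMOD K]
    exact Int.ModEq.refl _
  · show (1 : ℤ) ≡ 1 [ZMOD K]
    exact Int.ModEq.refl _
  · show (0 : ℤ) ≡ 0 [ZMOD K]
    exact Int.ModEq.refl _
  · show (0 : ℤ) ≡ 0 [ZMOD K]
    exact Int.ModEq.refl _
  · show (0 : ℤ) ≡ 0 [ZMOD K]
    exact Int.ModEq.refl _
  · show (0 : ℤ) ≡ 0 [ZMOD K]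
    exact Int.ModEq.refl _
  · show -(4 * v 1 * v 8 ^ 2) ≡ -(4 * v' 1 * v' 8 ^ 2) [ZMOD K]
    exact (((Int.ModEq.refl 4).mul
      (h 1 (by decide) (by decide))).mul
      ((h 8 (by decide) (by decide)).pow 2)).neg
  · show -(v 0 * v 7 ^ 2) ≡ -(v' 0 * v' 7 ^ 2) [ZMOD K]
    exact ((h 0 (by decide) (by decide)).mul
      ((h 7 (by decide) (by decide)).pow 2)).neg

theorem congab {K : ℤ} {v v' : V10} (ℓ : Fin 3)
    (h : ∀ i, i ≠ vi ℓ → i ≠ vj ℓ → v i ≡ v' i [ZMOD K]) (σ : Fin 12) :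
    al ℓ σ v ≡ al ℓ σ v' [ZMOD K] ∧ be ℓ σ v ≡ be ℓ σ v' [ZMOD K] := by
  revert ℓ
  exact all3 (fun h => ⟨congal0 h σ, congbe0 h σ⟩) (fun h => ⟨congal1 h σ, congbe1 h σ⟩)
    (fun h => ⟨congal2 h σ, congbe2 h σ⟩)

theorem cong (K : ℤ) (v v' : V10) (h : ∀ i, K ∣ v i - v' i) (ℓ : Fin 3) (σ : Fin 12) :
    K ∣ fm v σ - fm v' σ ∧ K ∣ al ℓ σ v - al ℓ σ v' ∧ K ∣ be ℓ σ v - be ℓ σ v' := by
  have h' : ∀ i, v' i ≡ v i [ZMOD K] := fun i => Int.modEq_iff_dvd.2 (h i)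
  have h2 := congab ℓ (fun i _ _ => h' i) σ
  exact ⟨(congFm h' σ).dvd, h2.1.dvd, h2.2.dvd⟩

theorem inv (ℓ : Fin 3) (σ : Fin 12) (v : V10) (t : ℤ) (i : Fin 10) (h : i = vi ℓ ∨ i = vj ℓ) :
    al ℓ σ (Function.update v i t) = al ℓ σ v ∧ be ℓ σ (Function.update v i t) = be ℓ σ v := by
  have h2 := congab (K := 0) (v := v) (v' := Function.update v i t) ℓ (fun j h1 h2 => by
    have : j ≠ i := by
      rcases h with h | h
      · exact h ▸ h1
      · exact h ▸ h2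
    rw [Function.update_of_ne this]) σ
  exact ⟨sub_eq_zero.1 (zero_dvd_iff.1 h2.1.dvd), sub_eq_zero.1 (zero_dvd_iff.1 h2.2.dvd)⟩

theorem fm_eq (v : V10) (h : ∀ i, v i % 240 = v0 i) (σ : Fin 12) : fm v σ = cf σ * site v σ := by
  unfold fm cf
  split_ifs with h2
  · subst h2
    exact (xEB_four v h).symm
  · simp

theorem fm_v0 : ∀ σ : Fin 12, fm v0 σ =
    (![81, 1, 164, 2821, 1, 17, 13637, 643, 181, 1, 13, -353] : Fin 12 → ℤ) σ := by
  decide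

theorem base (v : V10) (h : ∀ i, v i % 240 = v0 i) (σ : Fin 12) : fm v σ = cf σ * site v σ ∧
    site v σ % 2 = 1 ∧ ¬ (5 : ℤ) ∣ site v σ ∧ (σ ≠ 0 → ¬ (3 : ℤ) ∣ site v σ) := by
  refine ⟨fm_eq v h σ, ?_⟩
  have h1 : ∀ i, v0 i ≡ v i [ZMOD 240] := fun i => by
    rw [← h i]
    exact Int.mod_modEq _ _
  have h2 := (congFm h1 σ).dvd
  rw [fm_eq v h σ, fm_v0] at h2
  revert σ
  refine all12 ?_ ?_ ?_ ?_ ?_ ?_ ?_ ?_ ?_ ?_ ?_ ?_
  · intro h2
    have h3 : (240 : ℤ) ∣ 1 * site v 0 - 81 := h2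
    exact ⟨by omega, by omega, fun e => absurd rfl e⟩
  · intro h2
    have h3 : (240 : ℤ) ∣ 1 * site v 1 - 1 := h2
    exact ⟨by omega, by omega, fun _ => by omega⟩
  · intro h2
    have h3 : (240 : ℤ) ∣ 4 * site v 2 - 164 := h2
    exact ⟨by omega, by omega, fun _ => by omega⟩
  · intro h2
    have h3 : (240 : ℤ) ∣ 1 * site v 3 - 2821 := h2
    exact ⟨by omega, by omega, fun _ => by omega⟩
  · intro h2
    have h3 : (240 : ℤ) ∣ 1 * site v 4 - 1 := h2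
    exact ⟨by omega, by omega, fun _ => by omega⟩
  · intro h2
    have h3 : (240 : ℤ) ∣ 1 * site v 5 - 17 := h2
    exact ⟨by omega, by omega, fun _ => by omega⟩
  · intro h2
    have h3 : (240 : ℤ) ∣ 1 * site v 6 - 13637 := h2
    exact ⟨by omega, by omega, fun _ => by omega⟩
  · intro h2
    have h3 : (240 : ℤ) ∣ 1 * site v 7 - 643 := h2
    exact ⟨by omega, by omega, fun _ => by omega⟩
  · intro h2
    have h3 : (240 : ℤ) ∣ 1 * site v 8 - 181 := h2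
    exact ⟨by omega, by omega, fun _ => by omega⟩
  · intro h2
    have h3 : (240 : ℤ) ∣ 1 * site v 9 - 1 := h2
    exact ⟨by omega, by omega, fun _ => by omega⟩
  · intro h2
    have h3 : (240 : ℤ) ∣ 1 * site v 10 - 13 := h2
    exact ⟨by omega, by omega, fun _ => by omega⟩
  · intro h2
    have h3 : (240 : ℤ) ∣ 1 * site v 11 - (-353) := h2
    exact ⟨by omega, by omega, fun _ => by omega⟩

theorem cond (s : S12) (v : V10) (hs : SOK s) (h : Cond s v) (σ : Fin 12) :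
    (s σ : ℤ) ∣ site v σ ∧ site v σ = s σ * qq s v σ ∧ fm v σ = mk σ s * qq s v σ ∧
      fm v σ / (mk σ s : ℤ) = qq s v σ ∧ ∀ l : ℕ, l.Prime → l ∣ s σ → LocC v σ l := by
  have h1 := h.dvd hs σ
  have h2 : site v σ = s σ * qq s v σ := (Int.mul_ediv_cancel' h1).symm
  have h3 : fm v σ = mk σ s * qq s v σ := by
    rw [fm_eq v h.1 σ, mk, Nat.cast_mul, mul_assoc, ← h2]
  have h4 : 0 < mk σ s := by
    refine Nat.mul_pos ?_ (hs.pos σ)
    unfold cf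
    split_ifs <;> norm_num
  refine ⟨h1, h2, h3, ?_, fun l hl hd => h.loc hs hl hd⟩
  rw [h3, Int.mul_ediv_cancel_left _ (by exact_mod_cast h4.ne')]

theorem sok (s : S12) (hs : SOK s) : (∀ σ, 1 ≤ s σ ∧ Squarefree (s σ) ∧ s σ % 2 = 1 ∧ s σ ∣ SP s ∧
    mk σ s ∣ KK s) ∧ (∀ σ τ, σ ≠ τ → Nat.Coprime (s σ) (s τ)) ∧ 240 ∣ KK s := by
  refine ⟨fun σ => ⟨hs.pos σ, hs.1.squarefree_of_dvd (xEB_dvd s σ), ?_, xEB_dvd s σ, ?_⟩,
    fun σ τ h => hs.cop h, Nat.mul_dvd_mul_left 80 (hs.2.1.trans (xEB_dvd s 0))⟩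
  · by_contra h
    exact (hs.odd Nat.prime_two (σ := σ) (by omega)).1 rfl
  · refine Nat.mul_dvd_mul ?_ (xEB_dvd s σ)
    unfold cf
    split_ifs <;> norm_num

theorem nd {v : V10} {σ : Fin 12} {l : ℕ} (hl : l.Prime) (h : LocC v σ l) (τ : Fin 12)
    (j : Fin 10) (hτ : τ ≠ σ) (hj : 6 ≤ j.val) : ¬ (l : ℤ) ∣ site v τ * v j ^ 2 := by
  intro hd
  have hp : Prime (l : ℤ) := Nat.prime_iff_prime_int.1 hl
  rcases hp.dvd_or_dvd hd with h1 | h1
  · exact h.2.1 τ hτ h1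
  · exact h.2.2 j hj (hp.dvd_of_dvd_pow h1)

theorem nd' {v : V10} {σ : Fin 12} {l : ℕ} (hl : l.Prime) (h : LocC v σ l) (τ : Fin 12)
    (j : Fin 10) (hτ : τ ≠ σ) (hj : 6 ≤ j.val) : ¬ (l : ℤ) ∣ -(site v τ * v j ^ 2) :=
  fun hd => nd hl h τ j hτ hj (dvd_neg.1 hd)

theorem n1 {l : ℕ} (hl : l.Prime) : ¬ (l : ℤ) ∣ 1 := (Nat.prime_iff_prime_int.1 hl).not_dvd_one

theorem prim0 : ∀ σ ∈ Act 0, ∀ (v : V10) (l : ℕ), l.Prime → LocC v σ l →
    ¬ ((l : ℤ) ∣ al 0 σ v ∧ (l : ℤ) ∣ be 0 σ v) := by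
  refine all12 ?_ ?_ ?_ ?_ ?_ ?_ ?_ ?_ ?_ ?_ ?_ ?_
  · exact fun _ v l hl _ h => n1 hl h.1
  · exact fun _ v l hl _ h => n1 hl h.2
  · exact fun h => absurd h (by decide)
  · exact fun h => absurd h (by decide)
  · exact fun h => absurd h (by decide)
  · exact fun h => absurd h (by decide)
  · exact fun _ v l hl hL h => nd hl hL 8 6 (by decide) (by decide) h.1
  · exact fun _ v l hl hL h => nd' hl hL 9 7 (by decide) (by decide) h.1
  · exact fun h => absurd h (by decide)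
  · exact fun h => absurd h (by decide)
  · exact fun _ v l hl hL h => nd hl hL 4 6 (by decide) (by decide) h.1
  · exact fun _ v l hl hL h => nd' hl hL 5 7 (by decide) (by decide) h.1

theorem prim1 : ∀ σ ∈ Act 1, ∀ (v : V10) (l : ℕ), l.Prime → LocC v σ l →
    ¬ ((l : ℤ) ∣ al 1 σ v ∧ (l : ℤ) ∣ be 1 σ v) := by
  refine all12 ?_ ?_ ?_ ?_ ?_ ?_ ?_ ?_ ?_ ?_ ?_ ?_
  · exact fun h => absurd h (by decide)
  · exact fun h => absurd h (by decide)
  · exact fun _ v l hl hL h => nd hl hL 4 6 (by decide) (by decide) h.1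
  · exact fun _ v l hl hL h => nd hl hL 5 8 (by decide) (by decide) h.1
  · exact fun h => absurd h (by decide)
  · exact fun h => absurd h (by decide)
  · exact fun _ v l hl hL h => nd hl hL 0 6 (by decide) (by decide) h.1
  · exact fun _ v l hl hL h => nd' hl hL 0 7 (by decide) (by decide) h.2
  · exact fun _ v l hl _ h => n1 hl h.1
  · exact fun _ v l hl _ h => n1 hl h.2
  · exact fun h => absurd h (by decide)
  · exact fun h => absurd h (by decide)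

theorem prim2 : ∀ σ ∈ Act 2, ∀ (v : V10) (l : ℕ), l.Prime → LocC v σ l →
    ¬ ((l : ℤ) ∣ al 2 σ v ∧ (l : ℤ) ∣ be 2 σ v) := by
  refine all12 ?_ ?_ ?_ ?_ ?_ ?_ ?_ ?_ ?_ ?_ ?_ ?_
  · exact fun h => absurd h (by decide)
  · exact fun h => absurd h (by decide)
  · exact fun _ v l hl hL h => nd hl hL 8 6 (by decide) (by decide) h.1
  · exact fun _ v l hl hL h => nd' hl hL 9 9 (by decide) (by decide) h.1
  · exact fun _ v l hl _ h => n1 hl h.1
  · exact fun _ v l hl _ h => n1 hl h.2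
  · exact fun h => absurd h (by decide)
  · exact fun h => absurd h (by decide)
  · exact fun h => absurd h (by decide)
  · exact fun h => absurd h (by decide)
  · exact fun _ v l hl hL h => nd hl hL 0 6 (by decide) (by decide) h.1
  · exact fun _ v l hl hL h => nd' hl hL 0 7 (by decide) (by decide) h.2

end KLinJ

theorem CLin_pf : CLin where
  lin := KLinJ.all3 KLinJ.lin0 KLinJ.lin1 KLinJ.lin2
  inv := KLinJ.inv
  act := KLinJ.act
  dep := KLinJ.dep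
  var := KLinJ.var
  self := KLinJ.self
  cong := KLinJ.cong
  base := KLinJ.base
  cond := KLinJ.cond
  sok := KLinJ.sok
  mem := fun _ _ hs => ⟨(mem_SSet.1 hs).1, (mem_SSet.1 hs).2,
    fun σ => (le_SP (mem_SSet.1 hs).1 σ).trans (mem_SSet.1 hs).2⟩
  prim := KLinJ.all3 (fun σ h v l hl _ _ => KLinJ.prim0 σ h v l hl)
    (fun σ h v l hl _ _ => KLinJ.prim1 σ h v l hl) (fun σ h v l hl _ _ => KLinJ.prim2 σ h v l hl)
  gg01 := fun s v => by
    rcases GG_01 s v with h | h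
    · exact ⟨Or.inl h, fun h' => absurd h h'⟩
    · exact ⟨Or.inr h.1, fun _ => h.2⟩

end Pool.Agent.MP_e23604_nt.U

end
end

section

/-!
The step `CTau1`.
-/

open Finset
open scoped Classical

noncomputable section

namespace Pool.Agent.MP_e23604_nt.U

open P (lam shp gg PW cW Rough WW ES mu flat tau NN)

namespace KTau1J

theorem len {X : ℕ} (hX : 1 ≤ X) {x t b : ℤ} {T : ℝ} (h1 : x ∈ Ioc (X : ℤ) (2 * X))
    (h2 : x + t * b ∈ Ioc (X : ℤ) (2 * X)) (h : (X : ℝ) ≤ T * |(b : ℝ)|) : |(t : ℝ)| ≤ T := by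
  rw [mem_Ioc] at h1 h2
  have h3 : |t * b| ≤ X := abs_le.2 ⟨by omega, by omega⟩
  have h4 : |(t : ℝ)| * |(b : ℝ)| ≤ X := by
    rw [← abs_mul]
    exact_mod_cast h3
  have h5 : (1 : ℝ) ≤ X := by exact_mod_cast hX
  have h6 : 0 < |(b : ℝ)| := by
    refine (abs_nonneg _).lt_of_ne fun e => ?_
    rw [← e, mul_zero] at h
    linarith
  exact le_of_mul_le_mul_right (h4.trans h) h6

theorem two {X Y : ℕ} (hX : 1 ≤ X) (hY : 1 ≤ Y) {U T : ℝ} {α β : ℤ} (h : Rng X Y U T α β)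
    (hT : 1 ≤ T) (c : ℕ) : ∑ z ∈ bx X Y, tau (lf α β z) ^ c ≤
      tau (Int.gcd α β) ^ c * (4 * (U * T) * (1 + Real.log U) ^ 2 ^ c) := by
  have z0 : ((2 * X : ℤ), (2 * Y : ℤ)) ∈ bx X Y := by
    simp only [bx, mem_product, mem_Ioc]
    omega
  have hg : 0 < Int.gcd α β := by
    rw [Int.gcd_pos_iff]
    by_contra hc
    rw [not_or, not_not, not_not] at hc
    have := (h.1 _ z0).1
    simp [lf, hc.1, hc.2] at this
  obtain ⟨a, b, h1, h2, h3⟩ := Int.exists_gcd_one hg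
  generalize Int.gcd α β = g at hg h2 h3
  subst h2 h3
  have g0 : (1 : ℝ) ≤ g := by exact_mod_cast hg
  have g1 : (0 : ℝ) < g := by linarith
  have e : ∀ z : ℤ × ℤ, lf (a * g) (b * g) z = g * (a * z.1 + b * z.2) := fun z => by
    rw [lf]
    ring
  have hB : ∀ z ∈ bx X Y, 0 < a * z.1 + b * z.2 ∧ ((a * z.1 + b * z.2 : ℤ) : ℝ) ≤ U / g := by
    intro z hz
    obtain ⟨h4, h5⟩ := h.1 z hz
    rw [e] at h4 h5
    refine ⟨(mul_pos_iff_of_pos_left (by exact_mod_cast hg)).1 h4, ?_⟩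
    rw [le_div_iff₀ g1, mul_comm]
    exact_mod_cast h5
  have hN : 1 ≤ U / g := by
    obtain ⟨h4, h5⟩ := hB _ z0
    exact le_trans (by exact_mod_cast h4) h5
  have hS := P.spread_form (bx X Y) (Int.isCoprime_iff_gcd_eq_one.2 h1) (T0 := g * T) (N := U / g)
    (by positivity) hN (fun z hz => ⟨(hB z hz).1.ne', by
      rw [abs_of_pos (by exact_mod_cast (hB z hz).1)]
      exact (hB z hz).2⟩) (fun z hz t ht => by
      obtain ⟨z1, z2⟩ := mem_product.1 hz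
      obtain ⟨t1, t2⟩ := mem_product.1 ht
      rcases h.2 with h4 | h4
      · refine len hX z1 t1 (h4.trans_eq ?_)
        push_cast
        rw [abs_mul, abs_of_pos g1]
        ring
      · refine len (b := -a) hY z2 (by simpa [sub_eq_add_neg] using t2) (h4.trans_eq ?_)
        push_cast
        rw [abs_mul, abs_of_pos g1, abs_neg]
        ring)
  have U0 : 0 ≤ U / g := by linarith
  have hR : P.Spr (bx X Y) (fun z => a * z.1 + b * z.2) (4 * (U * T)) U := by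
    refine ⟨_, _, hS, ?_, div_le_self (by rwa [le_div_iff₀ g1, zero_mul] at U0) g0⟩
    have h4 : 1 ≤ g * T := one_le_mul_of_one_le_of_one_le g0 hT
    calc 2 * (g * T + 1) * (U / g) ≤ 2 * (g * T + g * T) * (U / g) := by gcongr
      _ = 4 * (U * T) := by field_simp; ring
  refine le_trans ?_ (mul_le_mul_of_nonneg_left (hR.sum_tau_pow c)
    (pow_nonneg (P.tau_nonneg _) c))
  rw [mul_sum]
  refine sum_le_sum fun z _ => ?_
  rw [e, ← mul_pow]
  exact pow_le_pow_left₀ (P.tau_nonneg _) (P.tau_mul_le _ _) c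

theorem dv (v : V10) {i j : Fin 10} (h : i ≠ j) : v i * v j ^ 2 ∣ ∏ k, v k ^ 2 := by
  refine Dvd.dvd.trans (mul_dvd_mul_right (dvd_pow_self (v i) two_ne_zero) _) ?_
  rw [← prod_pair (f := fun k => v k ^ 2) h]
  exact prod_dvd_prod_of_subset _ _ _ (subset_univ _)

theorem co (v : V10) (σ : Fin 12) :
    al (lev σ) σ v ∣ ∏ k, v k ^ 2 ∨ be (lev σ) σ v ∣ ∏ k, v k ^ 2 := by
  fin_cases σ
  · exact Or.inl (one_dvd _)
  · exact Or.inr (one_dvd _)
  · exact Or.inl (dv v (i := 4) (j := 6) (by decide))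
  · exact Or.inl (dv v (i := 5) (j := 8) (by decide))
  · exact Or.inl (one_dvd _)
  · exact Or.inr (one_dvd _)
  · exact Or.inl (dv v (i := 2) (j := 6) (by decide))
  · exact Or.inl (neg_dvd.2 (dv v (i := 3) (j := 7) (by decide)))
  · exact Or.inl (one_dvd _)
  · exact Or.inr (one_dvd _)
  · exact Or.inl (dv v (i := 4) (j := 6) (by decide))
  · exact Or.inl (neg_dvd.2 (dv v (i := 5) (j := 7) (by decide)))

theorem tg {v : V10} (hv : ∀ i, v i ≠ 0) (σ : Fin 12) :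
    tau (Int.gcd (al (lev σ) σ v) (be (lev σ) σ v)) ≤ ∏ i, tau (v i) ^ 2 := by
  have h1 : (Int.gcd (al (lev σ) σ v) (be (lev σ) σ v) : ℤ) ∣ ∏ k, v k ^ 2 :=
    (co v σ).elim (fun h => (Int.gcd_dvd_left _ _).trans h) fun h => (Int.gcd_dvd_right _ _).trans h
  refine (P.tau_le_of_dvd h1 (prod_ne_zero_iff.2 fun i _ => pow_ne_zero _ (hv i))).trans
    ((P.xWeight_tau_prod _ _).trans (prod_le_prod (fun i _ => P.tau_nonneg _) fun i _ => ?_))
  rw [sq, sq]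
  exact P.tau_mul_le _ _

theorem one (X k : ℕ) : ∑ x ∈ Ioc (X : ℤ) (2 * X), tau x ^ k ≤
    2 * X * (1 + Real.log (2 * X)) ^ 2 ^ k := by
  have h := P.sum_tau_pow k (2 * X)
  rw [← sum_image (g := fun n : ℕ => (n : ℤ)) (f := fun x => tau x ^ k)
    (fun _ _ _ _ e => Nat.cast_injective e)] at h
  push_cast at h
  refine le_trans (sum_le_sum_of_subset_of_nonneg (fun x hx => ?_)
    fun _ _ _ => pow_nonneg (P.tau_nonneg _) _) h
  rw [mem_Ioc] at hx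
  exact mem_image.2 ⟨x.toNat, mem_Icc.2 ⟨by omega, by omega⟩, by omega⟩

theorem lg {x u : ℝ} (hx : 0 < x) (hL : 256 ≤ Real.log x) (h0 : 1 ≤ u) (hu : u ≤ 2 * x ^ 4) :
    0 ≤ 1 + Real.log u ∧ 1 + Real.log u ≤ Real.log x ^ 2 := by
  have h1 := Real.log_le_log (by linarith) hu
  rw [Real.log_mul two_ne_zero (by positivity), Real.log_pow] at h1
  have h2 := Real.log_two_lt_d9
  have h3 := Real.log_nonneg h0
  push_cast at h1
  constructor <;> nlinarith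

end KTau1J

theorem CTau1_pf (hSz : CSz) (hLin : CLin) (hCls : CCls) (hGeo1 : CGeo1) : CTau1 := by
  intro c
  obtain ⟨N1, h1⟩ := hGeo1
  obtain ⟨N2, h2⟩ := hSz.big 0 256
  refine ⟨(1 + 2 * 2 ^ (2 * c)) * 10 + (1 + 2 * 2 ^ c), max N1 N2, fun X Z hR hX σ => ?_⟩
  obtain ⟨g1, g2, g3, g4⟩ := h1 X Z hR (le_of_max_le_left hX) σ
  have gU := (g1 (10 ^ 14) 1 le_rfl le_rfl).hU'
  have gU0 := (g1 (10 ^ 14) 1 le_rfl le_rfl).hU
  clear g1
  have hL : 256 ≤ Real.log (X 0) := (h2 X Z hR (le_of_max_le_right hX)).1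
  obtain ⟨s1, s2, s3, s4, -⟩ := hR.sizes
  have z1 : 1 ≤ Z := le_trans one_le_two hR.z2
  have x1 : ∀ i, 1 ≤ X i := fun i => (Nat.one_le_pow _ _ z1).trans (s1 i)
  have x2 : ∀ i, X i ≤ X 0 ^ 2 := fun i => by
    by_cases e1 : i = 1
    · rwa [e1]
    · exact ((hSz.sz X Z hR).le0 i e1).trans (Nat.le_self_pow two_ne_zero _)
  have r1 : ∀ i, (1 : ℝ) ≤ X i := fun i => by exact_mod_cast x1 i
  have r2 : ∀ i, (X i : ℝ) ≤ (X 0 : ℝ) ^ 2 := fun i => by exact_mod_cast x2 i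
  have r0 : (0 : ℝ) < X 0 := by linarith [r1 0]
  have r4 : (X 0 : ℝ) ^ 2 ≤ (X 0 : ℝ) ^ 4 := pow_le_pow_right₀ (r1 0) (by norm_num)
  have hT : 1 ≤ T0 X σ := le_trans (one_le_pow₀ (by exact_mod_cast z1)) g2
  have lU := KTau1J.lg r0 hL ((r1 _).trans gU0) (by
    have := pow_le_pow_left₀ (Nat.cast_nonneg _) (r2 (sc σ)) 2
    rw [← pow_mul, show 2 * 2 = 4 from rfl] at this
    exact (gU.trans this).trans (by linarith [pow_pos r0 4]))
  have lX := fun i => KTau1J.lg (u := 2 * X i) r0 hL (by linarith [r1 i]) (by linarith [r2 i])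
  have hne : vi (lev σ) ≠ vj (lev σ) := (by decide : ∀ l, vi l ≠ vj l) _
  have hA : σ ∈ Act (lev σ) := (by decide : ∀ τ, τ ∈ Act (lev τ)) _
  have hp : (0 : ℝ) < X (vi (lev σ)) * X (vj (lev σ)) :=
    mul_pos (by linarith [r1 (vi (lev σ))]) (by linarith [r1 (vj (lev σ))])
  refine le_of_mul_le_mul_left ?_ hp
  rw [← hCls.two X _ _ (fun v => tau (fm v σ) ^ c) hne]
  unfold LL
  generalize Real.log (X 0) = L at hL lU lX
  have L0 : 0 ≤ L := by linarith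
  have k1 : ∀ v ∈ Box X, ∑ z ∈ bx (X (vi (lev σ))) (X (vj (lev σ))),
      tau (fm (up (vi (lev σ)) (vj (lev σ)) v z) σ) ^ c ≤ (∏ i, tau (v i) ^ (2 * c)) *
        (X (vi (lev σ)) * X (vj (lev σ)) * L ^ (1 + 2 * 2 ^ c)) := by
    intro v hv
    have hv0 : ∀ i, v i ≠ 0 := fun i => by
      have := (mem_Ioc.1 (Fintype.mem_piFinset.1 hv i)).1
      omega
    refine (sum_congr rfl fun z _ => congrArg (fun u => tau u ^ c) (hLin.lin _ σ hA v z)).trans_le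
      ((KTau1J.two (x1 _) (x1 _) (g4 v hv) hT c).trans (mul_le_mul ?_ ?_ ?_ ?_))
    · simp only [pow_mul]
      rw [prod_pow]
      exact pow_le_pow_left₀ (P.tau_nonneg _) (KTau1J.tg hv0 σ) c
    · rw [g3, pow_add, pow_one, pow_mul, ← mul_assoc (_ * _) L]
      refine mul_le_mul ?_ (pow_le_pow_left₀ lU.1 lU.2 _) (pow_nonneg lU.1 _) (by positivity)
      nlinarith
    · rw [g3]
      exact mul_nonneg (by positivity) (pow_nonneg lU.1 _)
    · exact prod_nonneg fun i _ => pow_nonneg (P.tau_nonneg _) _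
  refine (sum_le_sum k1).trans ?_
  rw [← sum_mul, Box, ← prod_univ_sum (fun i => Ioc (X i : ℤ) (2 * X i))
    (fun _ x => tau x ^ (2 * c))]
  have k2 : ∏ i : Fin 10, ∑ x ∈ Ioc (X i : ℤ) (2 * X i), tau x ^ (2 * c) ≤
      Vol X * L ^ ((1 + 2 * 2 ^ (2 * c)) * 10) := by
    have e : Vol X * L ^ ((1 + 2 * 2 ^ (2 * c)) * 10) =
        ∏ i : Fin 10, (X i : ℝ) * L ^ (1 + 2 * 2 ^ (2 * c)) := by
      rw [prod_mul_distrib, prod_const, card_univ, Fintype.card_fin, ← pow_mul, Vol]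
    rw [e]
    refine prod_le_prod (fun i _ => sum_nonneg fun _ _ => pow_nonneg (P.tau_nonneg _) _)
      fun i _ => (KTau1J.one _ _).trans ?_
    rw [pow_add, pow_one, pow_mul L, ← mul_assoc]
    refine mul_le_mul ?_ (pow_le_pow_left₀ (lX i).1 (lX i).2 _) (pow_nonneg (lX i).1 _)
      (by positivity)
    nlinarith [r1 i]
  refine (mul_le_mul_of_nonneg_right k2 (by positivity)).trans_eq ?_
  rw [pow_add L ((1 + 2 * 2 ^ (2 * c)) * 10)]
  ring

end Pool.Agent.MP_e23604_nt.U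

end
end

section

/-!
The step `CPrim`.
-/

open Finset
open scoped Classical

noncomputable section

namespace Pool.Agent.MP_e23604_nt.U

open P (lam shp gg PW cW Rough WW ES mu flat tau NN)

namespace KPrimJ

variable {X : Fin 10 → ℕ} {Z : ℕ} {s : S12} {v : V10}

theorem s_le (hs : s ∈ SSet Z) (σ : Fin 12) : s σ ≤ Z :=
  (le_SP (mem_SSet.1 hs).1 σ).trans (mem_SSet.1 hs).2

theorem fac (hS : Sep Z v) (hs : s ∈ SSet Z) (hc : Cond s v) {σ : Fin 12}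
    (hp : (qq s v σ).toNat.Prime) :
    ∃ q : ℕ, q.Prime ∧ site v σ = (s σ * q : ℕ) ∧ Z < q := by
  have h6 : qq s v σ = ((qq s v σ).toNat : ℤ) := by
    have := hp.two_le
    omega
  have h7 : site v σ = (s σ * (qq s v σ).toNat : ℕ) := by
    rw [Nat.cast_mul, ← h6, qq, Int.mul_ediv_cancel' (hc.dvd (mem_SSet.1 hs).1 σ)]
  refine ⟨_, hp, h7, ?_⟩
  have h8 := hS.1 σ
  rw [h7] at h8
  have h9 : Z ^ 2 < s σ * (qq s v σ).toNat := by exact_mod_cast h8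
  by_contra h10
  have h11 := Nat.mul_le_mul (s_le hs σ) (not_lt.1 h10)
  rw [← sq] at h11
  exact absurd h9 (not_lt.2 h11)

theorem cop_lt {q n : ℕ} (hq : q.Prime) (h0 : 0 < n) (h : n < q) : Nat.Coprime q n :=
  (Nat.Prime.coprime_iff_not_dvd hq).2 fun h1 => absurd (Nat.le_of_dvd h0 h1) (not_le.2 h)

theorem cop2 (hS : Sep Z v) (hs : s ∈ SSet Z) (hc : Cond s v) {σ τ : Fin 12} (h : τ ≠ σ)
    (hp : (qq s v σ).toNat.Prime) (hp' : (qq s v τ).toNat.Prime) :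
    IsCoprime (site v σ) (site v τ) := by
  obtain ⟨q, h1, h2, h3⟩ := fac hS hs hc hp
  obtain ⟨q', h1', h2', h3'⟩ := fac hS hs hc hp'
  have hk := (mem_SSet.1 hs).1
  have hne : ∀ (k t : Fin 12) (a : ℕ), site v k = (s k * a : ℕ) → site v t = (s t * a : ℕ) →
      ¬ (Z : ℤ) * site v k < site v t := by
    intro k t a e1 e2 h
    rw [e1, e2] at h
    have h5 : Z * (s k * a) < s t * a := by exact_mod_cast h
    have h6 : s t * a ≤ Z * (s k * a) :=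
      Nat.mul_le_mul (s_le hs t) (Nat.le_mul_of_pos_left _ (hk.pos k))
    omega
  have hq : q ≠ q' := by
    rintro rfl
    rcases hS.2 τ σ h with h4 | h4
    · exact hne _ _ _ h2' h2 h4
    · exact hne _ _ _ h2 h2' h4
  rw [h2, h2', Nat.isCoprime_iff_coprime]
  refine Nat.Coprime.mul_left (Nat.Coprime.mul_right (hk.cop h.symm) ?_)
    (Nat.Coprime.mul_right ?_ ((Nat.coprime_primes h1 h1').2 hq))
  · exact (cop_lt h1' (hk.pos σ) ((s_le hs σ).trans_lt h3')).symm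
  · exact cop_lt h1 (hk.pos τ) ((s_le hs τ).trans_lt h3)

theorem cop_big (hR : Reg X Z) (hz : Sz X Z) (hv : v ∈ Box X) (hS : Sep Z v) (hs : s ∈ SSet Z)
    (hc : Cond s v) {σ : Fin 12} (hp : (qq s v σ).toNat.Prime) (hσ : (X 2 : ℤ) < site v σ)
    (j : Fin 10) (hj : 6 ≤ j.val) : IsCoprime (site v σ) (v j) := by
  obtain ⟨q, h1, h2, h3⟩ := fac hS hs hc hp
  have h4 : X 2 < s σ * q := by rw [h2] at hσ; exact_mod_cast hσ
  have h5 : Z ≤ X 7 := (Nat.le_self_pow (by norm_num) Z).trans (hz.z 7)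
  have h6 : Z * (2 * X j) ≤ X 2 := by
    calc Z * (2 * X j) ≤ X 7 * (X 7 * X 7 ^ 12) :=
          Nat.mul_le_mul h5 (Nat.mul_le_mul (hR.z2.trans h5) (hz.lo j (by omega)))
      _ = X 7 ^ 14 := by ring
      _ ≤ X 2 := DSep.x7_pow hR 14 (by norm_num)
  have h7 : 2 * X j < q :=
    Nat.lt_of_mul_lt_mul_left (a := Z) (h6.trans_lt (h4.trans_le
      (Nat.mul_le_mul_right _ (s_le hs σ))))
  rw [h2, Nat.cast_mul]
  refine IsCoprime.mul_left (hc.unit (mem_SSet.1 hs).1 σ j (Or.inl hj)).symm ?_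
  have h8 := DSep.vpos hv j
  have h9 := DSep.hi hv j
  obtain ⟨n, hn⟩ := Int.eq_ofNat_of_zero_le h8.le
  rw [hn, Nat.isCoprime_iff_coprime]
  exact cop_lt h1 (by omega) (by omega)

theorem cop4 {a : ℤ} (h : a % 2 = 1) : IsCoprime a 4 := by
  have h1 : IsCoprime a 2 := ⟨1, -(a / 2), by omega⟩
  have h2 := h1.mul_right h1
  norm_num at h2
  exact h2

theorem cpq {a b c d : ℤ} (h1 : IsCoprime a c) (h2 : IsCoprime a d) (h3 : IsCoprime b c)
    (h4 : IsCoprime b d) : IsCoprime (a * b ^ 2) (c * d ^ 2) :=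
  IsCoprime.mul_left (h1.mul_right h2.pow_right) (h3.mul_right h4.pow_right).pow_left

end KPrimJ

open KPrimJ in
theorem CPrim_pf (hDSz : DSz) (hLin : CLin) (hSz : CSz) : CPrim := by
  refine ⟨fun X Z hR s hs v hv hc hC p4 p5 => ?_, fun X Z hR s hs v hv hc σ hp => ?_,
    fun X Z hR s hs v hv σ => ?_⟩
  · have hS := (hDSz X Z hR v hv).2.1
    have hz := hSz.sz X Z hR
    have c45 : IsCoprime (v 4) (v 5) := cop2 hS hs hc (σ := 4) (τ := 5) (by decide) p4 p5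
    have c : ∀ i j : Fin 10, 4 ≤ i.val → 6 ≤ j.val → i < j → IsCoprime (v i) (v j) := hC
    refine ⟨fun σ hσ => ?_, fun p8 p9 σ hσ => ?_⟩
    · have h : σ = 2 ∨ σ = 3 := by simpa [Bs] using hσ
      rcases h with rfl | rfl
      · exact (cpq c45 (c 4 7 (by decide) (by decide) (by decide))
          (c 5 6 (by decide) (by decide) (by decide)).symm
          (c 6 7 (by decide) (by decide) (by decide))).neg_right
      · exact (cpq c45.symm (c 5 9 (by decide) (by decide) (by decide))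
          (c 4 8 (by decide) (by decide) (by decide)).symm
          (c 8 9 (by decide) (by decide) (by decide))).neg_right
    · have c23 : IsCoprime (v 2) (v 3) := cop2 hS hs hc (σ := 8) (τ := 9) (by decide) p8 p9
      have c2 : ∀ j : Fin 10, 6 ≤ j.val → IsCoprime (v 2) (v j) :=
        cop_big hR hz hv hS hs hc p8 (DSep.lo hv 2)
      have c3 : ∀ j : Fin 10, 6 ≤ j.val → IsCoprime (v 3) (v j) :=
        cop_big hR hz hv hS hs hc p9 (lt_of_le_of_lt (by exact_mod_cast hz.x3.1) (DSep.lo hv 3))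
      have o2 : IsCoprime (v 2) 4 := cop4 (by have h : v 2 % 240 = 181 := hc.1 2; omega)
      have o3 : IsCoprime (v 3) 4 := cop4 (by have h : v 3 % 240 = 1 := hc.1 3; omega)
      have o4 : IsCoprime (v 4) 4 := cop4 (by have h : v 4 % 240 = 1 := hc.1 4; omega)
      have o5 : IsCoprime (v 5) 4 := cop4 (by have h : v 5 % 240 = 17 := hc.1 5; omega)
      have o6 : IsCoprime (v 6) 4 := cop4 (by have h : v 6 % 240 = 1 := hc.1 6; omega)
      have o7 : IsCoprime (v 7) 4 := cop4 (by have h : v 7 % 240 = 1 := hc.1 7; omega)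
      have h : σ = 6 ∨ σ = 7 ∨ σ = 10 ∨ σ = 11 := by simpa [Bs] using hσ
      rcases h with rfl | rfl | rfl | rfl
      · exact (cpq (o2.mul_right c23) (c2 9 (by decide)) (o6.mul_right (c3 6 (by decide)).symm)
          (c 6 9 (by decide) (by decide) (by decide))).neg_right
      · exact (cpq (o3.mul_right c23.symm) (c3 8 (by decide)) (o7.mul_right (c2 7 (by decide)).symm)
          (c 7 8 (by decide) (by decide) (by decide))).neg_left
      · exact (cpq (o4.mul_right c45) (c 4 8 (by decide) (by decide) (by decide))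
          (o6.mul_right (c 5 6 (by decide) (by decide) (by decide)).symm)
          (c 6 8 (by decide) (by decide) (by decide))).neg_right
      · exact (cpq (o5.mul_right c45.symm) (c 5 9 (by decide) (by decide) (by decide))
          (o7.mul_right (c 4 7 (by decide) (by decide) (by decide)).symm)
          (c 7 9 (by decide) (by decide) (by decide))).neg_left
  · have hS := (hDSz X Z hR v hv).2.1
    have hk := (mem_SSet.1 hs).1
    refine ⟨?_, (hLin.base v hc.1 σ).2.1, fun τ h hp' => cop2 hS hs hc h hp hp'⟩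
    obtain ⟨q, h1, h2, h3⟩ := fac hS hs hc hp
    rw [h2, Int.toNat_natCast, Nat.squarefree_mul_iff]
    exact ⟨(cop_lt h1 (hk.pos σ) ((s_le hs σ).trans_lt h3)).symm,
      hk.1.squarefree_of_dvd (xEB_dvd s σ), h1.prime.squarefree⟩
  · obtain ⟨-, hS, h1, -⟩ := hDSz X Z hR v hv
    have h2 := hS.1 σ
    have h3 : (0 : ℤ) < s σ := by exact_mod_cast (mem_SSet.1 hs).1.pos σ
    have h4 : (s σ : ℤ) ≤ Z := by exact_mod_cast s_le hs σ
    have h5 : 0 < site v σ := lt_of_le_of_lt (sq_nonneg _) h2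
    refine ⟨Int.le_ediv_of_mul_le h3 ?_, (Int.ediv_le_self _ h5.le).trans (h1 σ), ?_⟩
    · have : (Z : ℤ) * s σ ≤ Z * Z := mul_le_mul_of_nonneg_left h4 (by positivity)
      nlinarith
    · unfold fm
      split_ifs with h
      · subst h
        intro h6
        have h7 : site v 2 = (v 2 * v 4 * v 6 ^ 2 - v 5 * v 3 * v 7 ^ 2) / 4 := rfl
        rw [h7, h6] at h5
        omega
      · exact h5.ne'

end Pool.Agent.MP_e23604_nt.U

end
end

section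

/-!
The step `CMas`.
-/

open Finset
open scoped Classical

noncomputable section

namespace Pool.Agent.MP_e23604_nt.U

open P (lam shp gg PW cW Rough WW ES mu flat tau NN)

namespace KMasJ

theorem TT_nonneg (v : V10) : 0 ≤ TT v := prod_nonneg fun _ _ => P.tau_nonneg _

theorem TT_le_sq (v : V10) : TT v ≤ TT v ^ 2 := by
  have h : TT v = ((∏ σ, (fm v σ).natAbs.divisors.card : ℕ) : ℝ) := by
    unfold TT tau
    push_cast
    rfl
  rw [h]
  exact_mod_cast Nat.le_self_pow (by norm_num) _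

theorem GG_nonneg (hLin : CLin) (s : S12) (v : V10) : 0 ≤ GG s v := by
  rcases (hLin.gg01 s v).1 with h | h <;> rw [h] <;> norm_num

theorem sum_GG (hLin : CLin) (hPrim : CPrim) {X : Fin 10 → ℕ} {Z : ℕ} (hR : Reg X Z) {v : V10}
    (hv : v ∈ Box X) : ∑ s ∈ SSet Z, GG s v ≤ TT v := by
  have h0 : ∑ s ∈ SSet Z, GG s v = ∑ s ∈ SSet Z, |GG s v| :=
    sum_congr rfl fun s _ => (abs_of_nonneg (GG_nonneg hLin s v)).symm
  rw [h0]
  refine (P.xGeo_sum (SSet Z) (fun s => GG s v) fun s => ?_).trans ?_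
  · rcases (hLin.gg01 s v).1 with h | h <;> rw [h] <;> norm_num
  have hs : ((SSet Z).filter fun s => GG s v ≠ 0) ⊆
      Fintype.piFinset fun σ => (fm v σ).natAbs.divisors := by
    intro s hs
    obtain ⟨hs1, hs2⟩ := mem_filter.1 hs
    refine Fintype.mem_piFinset.2 fun σ => Nat.mem_divisors.2 ⟨Int.natCast_dvd.1 ?_,
      Int.natAbs_ne_zero.2 (hPrim.rng X Z hR s hs1 v hv σ).2.2⟩
    have h := (hLin.cond s v (hLin.mem Z s hs1).1 ((hLin.gg01 s v).2 hs2) σ).2.2.1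
    rw [h]
    unfold mk
    push_cast
    exact Dvd.dvd.mul_right (Dvd.intro_left _ rfl) _
  have h1 := card_le_card hs
  rw [Fintype.card_piFinset] at h1
  unfold TT tau
  exact_mod_cast h1

theorem sum_FF (hLin : CLin) (hPrim : CPrim) {X : Fin 10 → ℕ} {Z : ℕ} (hR : Reg X Z) {v : V10}
    (hv : v ∈ Box X) {s : S12} (hs : s ∈ SSet Z) (R : Finset (Fin 12)) (W j : ℕ) :
    ∑ e ∈ EE R W j, |FF s e v| ≤ GG s v * TT v := by
  have h0 : ∀ e : S12, |FF s e v| = GG s v * ∏ σ, |mu (e σ) (qq s v σ)| := fun e => by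
    unfold FF
    rw [abs_mul, abs_of_nonneg (GG_nonneg hLin s v), abs_prod]
  simp_rw [h0]
  rw [← mul_sum]
  by_cases hG : GG s v = 0
  · rw [hG]
    simp
  refine mul_le_mul_of_nonneg_left ?_ (GG_nonneg hLin s v)
  unfold EE TT
  rw [← prod_univ_sum (fun σ => if σ ∈ R then ES (PW W) j else {1})
    (fun σ e => |mu e (qq s v σ)|)]
  refine prod_le_prod (fun σ _ => sum_nonneg fun _ _ => abs_nonneg _) fun σ _ => ?_
  have h := (hLin.cond s v (hLin.mem Z s hs).1 ((hLin.gg01 s v).2 hG) σ).2.2.1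
  have hne := (hPrim.rng X Z hR s hs v hv σ).2.2
  have hq : qq s v σ ≠ 0 := fun h0 => hne (by rw [h, h0, mul_zero])
  exact (P.sum_mu_le hq _).trans (P.tau_le_of_dvd (Dvd.intro_left _ h.symm) hne)

theorem sum_sum (hLin : CLin) (hPrim : CPrim) {X : Fin 10 → ℕ} {Z : ℕ} (hR : Reg X Z) {v : V10}
    (hv : v ∈ Box X) (R : Finset (Fin 12)) (W j : ℕ) :
    ∑ s ∈ SSet Z, ∑ e ∈ EE R W j, |FF s e v| ≤ TT v ^ 2 := by
  refine (sum_le_sum fun s hs => sum_FF hLin hPrim hR hv hs R W j).trans ?_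
  rw [← sum_mul, sq]
  exact mul_le_mul_of_nonneg_right (sum_GG hLin hPrim hR hv) (TT_nonneg v)

theorem vi_ne (ℓ : Fin 3) : vi ℓ ≠ vj ℓ := by
  fin_cases ℓ <;> decide

theorem up_pair {i j : Fin 10} (h : i ≠ j) (v : V10) (z : ℤ × ℤ) :
    (up i j v z i, up i j v z j) = z := by
  unfold up
  rw [Function.update_self, Function.update_of_ne h, Function.update_self]

theorem two_ind (hCls : CCls) (X : Fin 10 → ℕ) {i j : Fin 10} (h : i ≠ j) {S : Finset (ℤ × ℤ)}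
    (hS : S ⊆ bx (X i) (X j)) (f : V10 → ℝ) :
    ∑ v ∈ Box X, ∑ z ∈ S, f (up i j v z) =
      X i * X j * ∑ v ∈ (Box X).filter fun v => (v i, v j) ∈ S, f v := by
  rw [sum_filter, ← hCls.two X i j (fun v => if (v i, v j) ∈ S then f v else 0) h]
  refine sum_congr rfl fun v _ => ?_
  simp_rw [up_pair h]
  rw [← sum_filter, filter_mem_eq_inter, inter_eq_right.2 hS]

theorem Vol_nonneg (X : Fin 10 → ℕ) : 0 ≤ Vol X := prod_nonneg fun _ _ => Nat.cast_nonneg _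

end KMasJ

open KMasJ in
theorem CMas_pf (hTau : CTau) (hCls : CCls) (hLin : CLin) (hPrim : CPrim) (hPer : CPer)
    (hSz : CSz) : CMas := by
  obtain ⟨C, N1, hC⟩ := hTau 2
  refine ⟨C, N1, fun X Z hR hN R W j => ?_⟩
  have hT := hC X Z hR hN
  have hV := Vol_nonneg X
  have hall : ∑ v ∈ Box X, TT v ^ 2 ≤ Vol X * LL X ^ C := by
    have h := hT (Box X) Subset.rfl
    rwa [hCls.vol, Real.sqrt_mul_self hV] at h
  refine ⟨?_, ?_, fun ℓ k S hS => ?_⟩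
  · refine le_trans ?_ hall
    refine le_trans (le_of_eq ?_) (sum_le_sum fun v hv => sum_sum hLin hPrim hR hv R W j)
    rw [sum_comm (s := Box X)]
    exact sum_congr rfl fun s _ => sum_comm
  · rw [sum_comm]
    exact (sum_le_sum fun v hv => (sum_GG hLin hPrim hR hv).trans (TT_le_sq v)).trans hall
  · have hij := vi_ne ℓ
    have h1 : ∑ ω ∈ PP X Z ℓ R W j, ∑ z ∈ S, |FI ℓ k ω.1 ω.2.1 (upl ℓ ω.2.2 z)| ≤
        ∑ ω ∈ SSet Z ×ˢ EE R W j ×ˢ Box X, ∑ z ∈ S, |FF ω.1 ω.2.1 (upl ℓ ω.2.2 z)| := by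
      refine le_trans (sum_le_sum fun ω _ => sum_le_sum fun z _ => (hPer.bd _ _ _).2 ℓ k) ?_
      exact sum_le_sum_of_subset_of_nonneg (filter_subset _ _)
        fun _ _ _ => sum_nonneg fun _ _ => abs_nonneg _
    have h2 : ∑ ω ∈ SSet Z ×ˢ EE R W j ×ˢ Box X, ∑ z ∈ S, |FF ω.1 ω.2.1 (upl ℓ ω.2.2 z)| =
        ∑ v ∈ Box X, ∑ z ∈ S, ∑ s ∈ SSet Z, ∑ e ∈ EE R W j, |FF s e (upl ℓ v z)| := by
      rw [sum_product]
      simp_rw [sum_product]
      calc ∑ s ∈ SSet Z, ∑ e ∈ EE R W j, ∑ v ∈ Box X, ∑ z ∈ S, |FF s e (upl ℓ v z)|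
          = ∑ s ∈ SSet Z, ∑ v ∈ Box X, ∑ z ∈ S, ∑ e ∈ EE R W j, |FF s e (upl ℓ v z)| := by
            refine sum_congr rfl fun s _ => ?_
            rw [sum_comm]
            exact sum_congr rfl fun v _ => sum_comm
        _ = _ := by
            rw [sum_comm]
            exact sum_congr rfl fun v _ => sum_comm
    have h3 : ∑ v ∈ Box X, ∑ z ∈ S, ∑ s ∈ SSet Z, ∑ e ∈ EE R W j, |FF s e (upl ℓ v z)| ≤
        ∑ v ∈ Box X, ∑ z ∈ S, TT (up (vi ℓ) (vj ℓ) v z) ^ 2 :=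
      sum_le_sum fun v hv => sum_le_sum fun z hz =>
        sum_sum hLin hPrim hR (hCls.mem2 X _ _ v hv z (hS hz)) R W j
    have h4 := two_ind hCls X hij hS fun v => TT v ^ 2
    have h5 := two_ind hCls X hij hS fun _ => 1
    simp only [sum_const, nsmul_eq_mul, mul_one] at h5
    rw [hCls.vol] at h5
    have h6 := hT _ (filter_subset (fun v => (v (vi ℓ), v (vj ℓ)) ∈ S) (Box X))
    refine h1.trans ((le_of_eq h2).trans (h3.trans ((le_of_eq h4).trans ?_)))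
    have ha : (0 : ℝ) ≤ (X (vi ℓ) : ℝ) * X (vj ℓ) := by positivity
    refine (mul_le_mul_of_nonneg_left h6 ha).trans (le_of_eq ?_)
    generalize (((Box X).filter fun v => (v (vi ℓ), v (vj ℓ)) ∈ S).card : ℝ) = c at h5
    have h7 : (X (vi ℓ) : ℝ) * X (vj ℓ) * √(c * Vol X) =
        Vol X * √((S.card : ℝ) * X (vi ℓ) * X (vj ℓ)) := by
      rw [← Real.sqrt_mul_self ha, ← Real.sqrt_mul (mul_self_nonneg _)]
      conv_rhs => rw [← Real.sqrt_mul_self hV, ← Real.sqrt_mul (mul_self_nonneg _)]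
      congr 1
      linear_combination (-(X (vi ℓ) : ℝ) * X (vj ℓ) * Vol X) * h5
    rw [← mul_assoc, h7]
    ring

end Pool.Agent.MP_e23604_nt.U

end
end

section

/-!
The step `CFlat`.
-/

open Finset
open scoped Classical

noncomputable section

namespace Pool.Agent.MP_e23604_nt.U

open P (lam shp gg PW cW Rough WW ES mu flat tau NN)

namespace KFlatJ

theorem prod_diff {ι : Type} (R : Finset ι) (a b t : ι → ℝ) {δ : ℝ} (hδ : 0 ≤ δ)
    (h : ∀ i ∈ R, 1 ≤ t i ∧ |a i| ≤ t i ∧ |b i| ≤ t i ∧ |a i - b i| ≤ t i ^ 2 * δ) :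
    |∏ i ∈ R, a i - ∏ i ∈ R, b i| ≤ R.card * (∏ i ∈ R, t i) ^ 2 * δ := by
  induction R using Finset.induction_on with
  | empty => simp
  | insert i R hi ih =>
    have ih' := ih fun j hj => h j (mem_insert_of_mem hj)
    obtain ⟨h1, h2, -, h4⟩ := h i (mem_insert_self i R)
    have hT : 1 ≤ ∏ j ∈ R, t j := Finset.one_le_prod fun j hj => (h j (mem_insert_of_mem hj)).1
    have hb : |∏ j ∈ R, b j| ≤ ∏ j ∈ R, t j := by
      rw [Finset.abs_prod]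
      exact prod_le_prod (fun j _ => abs_nonneg _) fun j hj => (h j (mem_insert_of_mem hj)).2.2.1
    rw [prod_insert hi, prod_insert hi, prod_insert hi, card_insert_of_notMem hi]
    generalize ∏ j ∈ R, a j = PA at *
    generalize ∏ j ∈ R, b j = PB at *
    generalize ∏ j ∈ R, t j = T at *
    have e : a i * PA - b i * PB = a i * (PA - PB) + (a i - b i) * PB := by ring
    have k1 : |a i * (PA - PB)| ≤ t i ^ 2 * (R.card * T ^ 2 * δ) := by
      rw [abs_mul]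
      exact mul_le_mul (h2.trans (by nlinarith)) ih' (abs_nonneg _) (by positivity)
    have k2 : |(a i - b i) * PB| ≤ t i ^ 2 * δ * T ^ 2 := by
      rw [abs_mul]
      exact mul_le_mul h4 (hb.trans (by nlinarith)) (abs_nonneg _) (by positivity)
    rw [e]
    refine (abs_add_le _ _).trans ((add_le_add k1 k2).trans (le_of_eq ?_))
    push_cast
    ring

theorem mu_one (n : ℤ) : mu 1 n = 1 := by simp [mu]

theorem sum_EE (R : Finset (Fin 12)) (W j : ℕ) (q : Fin 12 → ℤ) :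
    ∑ e ∈ EE R W j, ∏ σ, mu (e σ) (q σ) = ∏ σ ∈ R, flat (PW W) j (q σ) := by
  unfold EE
  rw [← Finset.prod_univ_sum (fun σ => if σ ∈ R then ES (PW W) j else {1})
    (fun σ e => mu e (q σ))]
  have : ∀ σ, ∑ e ∈ (if σ ∈ R then ES (PW W) j else {1}), mu e (q σ) =
      if σ ∈ R then flat (PW W) j (q σ) else 1 := fun σ => by
    split_ifs
    · rfl
    · rw [sum_singleton, mu_one]
  simp_rw [this]
  rw [Finset.prod_ite_mem, univ_inter]

theorem prod_shp (R : Finset (Fin 12)) (W : ℕ) (q : Fin 12 → ℤ) :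
    ∏ σ ∈ R, shp W (q σ) =
      cW W ^ R.card * ∏ σ ∈ R, (if Rough (PW W) (q σ) then (1 : ℝ) else 0) := by
  rw [← prod_const, ← prod_mul_distrib]
  refine prod_congr rfl fun σ _ => ?_
  unfold shp
  split_ifs <;> simp

theorem cW_nonneg (W : ℕ) : 0 ≤ cW W := by
  refine prod_nonneg fun q hq => inv_nonneg.2 ?_
  have h2 : (1 : ℝ) ≤ q := by exact_mod_cast (mem_filter.1 hq).2.one_le
  have := (div_le_one (by linarith : (0 : ℝ) < q)).2 h2
  linarith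

theorem TT_nonneg (v : V10) : 0 ≤ TT v := prod_nonneg fun _ _ => P.tau_nonneg _

theorem sum_GG (hLin : CLin) (hPrim : CPrim) {X : Fin 10 → ℕ} {Z : ℕ} (hR : Reg X Z) {v : V10}
    (hv : v ∈ Box X) : ∑ s ∈ SSet Z, GG s v ≤ TT v := by
  have h1 : ∑ s ∈ SSet Z, GG s v ≤ (((SSet Z).filter fun s => GG s v ≠ 0).card : ℝ) := by
    rw [card_filter, Nat.cast_sum]
    refine sum_le_sum fun s _ => ?_
    rcases (hLin.gg01 s v).1 with h | h <;> simp [h]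
  refine h1.trans ?_
  have h2 : ((SSet Z).filter fun s => GG s v ≠ 0) ⊆
      Fintype.piFinset fun σ => (fm v σ).natAbs.divisors := by
    intro s hs
    obtain ⟨hs, hg⟩ := mem_filter.1 hs
    refine Fintype.mem_piFinset.2 fun σ => Nat.mem_divisors.2 ⟨?_,
      Int.natAbs_ne_zero.2 (hPrim.rng X Z hR s hs v hv σ).2.2⟩
    have h := (hLin.cond s v (hLin.mem Z s hs).1 ((hLin.gg01 s v).2 hg) σ).2.2.1
    refine Int.natCast_dvd.1 ⟨cf σ * qq s v σ, ?_⟩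
    rw [h, mk]
    push_cast
    ring
  have h3 := card_le_card h2
  rw [Fintype.card_piFinset] at h3
  unfold TT tau
  exact_mod_cast h3

/-- The pointwise bound. -/
theorem point (hLin : CLin) (hPrim : CPrim) {X : Fin 10 → ℕ} {Z : ℕ} (hR : Reg X Z) {s : S12}
    (hs : s ∈ SSet Z) {v : V10} (hv : v ∈ Box X) (hg : GG s v ≠ 0) (R : Finset (Fin 12))
    (W j : ℕ) : |∏ σ ∈ R, (if Rough (PW W) (qq s v σ) then (1 : ℝ) else 0) -
      ∏ σ ∈ R, flat (PW W) j (qq s v σ)| ≤ 12 * TT v ^ 2 / 2 ^ j := by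
  have hf : ∀ σ, fm v σ ≠ 0 := fun σ => (hPrim.rng X Z hR s hs v hv σ).2.2
  have hd : ∀ σ, qq s v σ ∣ fm v σ := fun σ => Dvd.intro_left _
    (hLin.cond s v (hLin.mem Z s hs).1 ((hLin.gg01 s v).2 hg) σ).2.2.1.symm
  have hq : ∀ σ, qq s v σ ≠ 0 := fun σ h => hf σ (zero_dvd_iff.1 (h ▸ hd σ))
  have hle : ∀ σ, tau (qq s v σ) ≤ tau (fm v σ) := fun σ => P.tau_le_of_dvd (hd σ) (hf σ)
  have h1 : ∀ σ, 1 ≤ tau (fm v σ) := fun σ => P.one_le_tau (hf σ)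
  have key := prod_diff R (fun σ => if Rough (PW W) (qq s v σ) then (1 : ℝ) else 0)
    (fun σ => flat (PW W) j (qq s v σ)) (fun σ => tau (fm v σ))
    (δ := 1 / 2 ^ j) (by positivity) fun σ _ => by
      refine ⟨h1 σ, ?_, (P.abs_flat_le _ _ (hq σ)).trans (hle σ), ?_⟩
      · refine le_trans ?_ (h1 σ)
        split_ifs <;> simp
      · refine (P.flat_approx (fun q hq => (mem_filter.1 hq).2) j (hq σ)).trans ?_
        rw [mul_one_div]
        exact div_le_div_of_nonneg_right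
          (pow_le_pow_left₀ (P.tau_nonneg _) (hle σ) 2) (by positivity)
  refine key.trans ?_
  have hc : (R.card : ℝ) ≤ 12 := by exact_mod_cast (card_le_univ R).trans (by simp)
  have hp : ∏ σ ∈ R, tau (fm v σ) ≤ TT v :=
    Finset.prod_le_prod_of_subset_of_one_le (subset_univ R) (fun σ _ => P.tau_nonneg _)
      fun σ _ _ => h1 σ
  have h0 : 0 ≤ ∏ σ ∈ R, tau (fm v σ) := prod_nonneg fun σ _ => P.tau_nonneg _
  rw [mul_one_div]
  gcongr

end KFlatJ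

open KFlatJ in
theorem CFlat_pf (hTau : CTau) (hLin : CLin) (hPrim : CPrim) (hCls : CCls) (hSz : CSz) : CFlat := by
  obtain ⟨C, N1, h1⟩ := hTau 3
  obtain ⟨N2, h2⟩ := hSz.big 0 12
  refine ⟨C + 13, max N1 N2, fun X Z hR hN R W j A hA hW => ?_⟩
  have hT := h1 X Z hR (le_of_max_le_left hN) (Box X) subset_rfl
  have hL : (12 : ℝ) ≤ LL X := (h2 X Z hR (le_of_max_le_right hN)).1
  have hV : 0 ≤ Vol X := prod_nonneg fun _ _ => Nat.cast_nonneg _
  rw [hCls.vol, Real.sqrt_mul_self hV] at hT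
  have hc0 := cW_nonneg W
  have hc : cW W ^ R.card ≤ LL X ^ 12 :=
    (pow_le_pow_left₀ hc0 hW _).trans
      (pow_le_pow_right₀ (by linarith) ((card_le_univ R).trans (by simp)))
  have e : SS X Z (fun s v => A s v * ∏ σ ∈ R, shp W (qq s v σ)) -
      cW W ^ R.card * ∑ s ∈ SSet Z, ∑ e ∈ EE R W j, ∑ v ∈ Box X, FF s e v * A s v =
      ∑ s ∈ SSet Z, ∑ v ∈ Box X, GG s v * (A s v * (cW W ^ R.card *
        (∏ σ ∈ R, (if Rough (PW W) (qq s v σ) then (1 : ℝ) else 0) -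
          ∏ σ ∈ R, flat (PW W) j (qq s v σ)))) := by
    unfold SS
    rw [mul_sum, ← sum_sub_distrib]
    refine sum_congr rfl fun s _ => ?_
    rw [sum_comm, mul_sum, ← sum_sub_distrib]
    refine sum_congr rfl fun v _ => ?_
    unfold FF
    rw [← sum_mul, ← mul_sum, sum_EE]
    beta_reduce
    rw [prod_shp]
    ring
  have hpt : ∀ s ∈ SSet Z, ∀ v ∈ Box X, |GG s v * (A s v * (cW W ^ R.card *
      (∏ σ ∈ R, (if Rough (PW W) (qq s v σ) then (1 : ℝ) else 0) -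
        ∏ σ ∈ R, flat (PW W) j (qq s v σ))))| ≤
      GG s v * (LL X ^ 12 * (12 * TT v ^ 2 / 2 ^ j)) := by
    intro s hs v hv
    rcases (hLin.gg01 s v).1 with h | h
    · simp [h]
    · have hp := point hLin hPrim hR hs hv (by rw [h]; exact one_ne_zero) R W j
      rw [h, one_mul, one_mul, abs_mul, abs_mul, abs_of_nonneg (pow_nonneg hc0 _)]
      refine (mul_le_of_le_one_left (by positivity) (hA s v)).trans ?_
      exact mul_le_mul hc hp (abs_nonneg _) (by positivity)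
  rw [e]
  calc _ ≤ ∑ s ∈ SSet Z, ∑ v ∈ Box X, GG s v * (LL X ^ 12 * (12 * TT v ^ 2 / 2 ^ j)) :=
        (abs_sum_le_sum_abs _ _).trans (sum_le_sum fun s hs =>
          (abs_sum_le_sum_abs _ _).trans (sum_le_sum fun v hv => hpt s hs v hv))
    _ ≤ ∑ v ∈ Box X, TT v * (LL X ^ 12 * (12 * TT v ^ 2 / 2 ^ j)) := by
        rw [sum_comm]
        refine sum_le_sum fun v hv => ?_
        rw [← sum_mul]
        exact mul_le_mul_of_nonneg_right (sum_GG hLin hPrim hR hv) (by positivity)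
    _ = LL X ^ 12 * 12 / 2 ^ j * ∑ v ∈ Box X, TT v ^ 3 := by
        rw [mul_sum]
        exact sum_congr rfl fun v _ => by ring
    _ ≤ LL X ^ 12 * LL X / 2 ^ j * (Vol X * LL X ^ C) := by
        have : 0 ≤ ∑ v ∈ Box X, TT v ^ 3 := sum_nonneg fun v _ => pow_nonneg (TT_nonneg v) _
        have : 0 ≤ LL X := by linarith
        gcongr
    _ = _ := by ring

end Pool.Agent.MP_e23604_nt.U

end
end

section

/-!
The step `CRepE`.
-/

open Finset
open scoped Classical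

noncomputable section

namespace Pool.Agent.MP_e23604_nt.U

open P (lam shp gg PW cW Rough WW ES mu flat tau NN)

namespace KRepEJ

theorem rt {p : Fin 12 × Fin 10} (hp : p ∈ RT) :
    p.2 ≠ vi (lev p.1) ∧ p.2 ≠ vj (lev p.1) ∧ vi (lev p.1) ≠ vj (lev p.1) ∧
      p.1 ∈ Act (lev p.1) := by
  simp only [RT, mem_insert, mem_singleton] at hp
  rcases hp with rfl | rfl | rfl | rfl | rfl <;> decide

theorem upl_update (ℓ : Fin 3) (a : Fin 10) (h1 : a ≠ vi ℓ) (h2 : a ≠ vj ℓ) (v : V10) (u : ℤ)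
    (z : ℤ × ℤ) : upl ℓ (Function.update v a u) z = Function.update (upl ℓ v z) a u := by
  unfold upl up
  rw [Function.update_comm h1, Function.update_comm h2]

theorem cond_of (hLin : CLin) (hPer : CPer) {ℓ : Fin 3} {k : Fin 12} {s e : S12} {v : V10}
    (h : FI ℓ k s e v ≠ 0) : Cond s v := by
  refine (hLin.gg01 s v).2 fun h0 => h ?_
  have h1 := (hPer.bd s e v).2 ℓ k
  have h2 : FF s e v = 0 := by
    unfold FF
    rw [h0, zero_mul]
  rw [h2, abs_zero] at h1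
  exact abs_nonpos_iff.1 h1

/-- The inner sum. -/
def TW (X : Fin 10 → ℕ) (p : Fin 12 × Fin 10) (A c : WF) (g : ℤ → ℝ) (ω : Om) : ℝ :=
  ∑ z ∈ bx (X (vi (lev p.1))) (X (vj (lev p.1))),
    FI (lev p.1) p.1 ω.1 ω.2.1 (upl (lev p.1) ω.2.2 z) * A ω.1 (upl (lev p.1) ω.2.2 z) *
      ∑ u ∈ (lnR X p c ω).S, c ω.1 (Function.update ω.2.2 p.2 u) *
        g (lf ((lnR X p c ω).α u) ((lnR X p c ω).β u) z / ((lnR X p c ω).m : ℤ))

theorem inner (hLin : CLin) (hPer : CPer) (X : Fin 10 → ℕ) {p : Fin 12 × Fin 10} (hp : p ∈ RT)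
    (A c : WF) (g : ℤ → ℝ) (hA : Ind p.2 A) (hc1 : Ind (vi (lev p.1)) c)
    (hc2 : Ind (vj (lev p.1)) c) (s e : S12) (hs : SOK s) (v : V10) :
    ∑ u ∈ cz (X p.2) (MM s e) (v p.2), ∑ z ∈ bx (X (vi (lev p.1))) (X (vj (lev p.1))),
      FI (lev p.1) p.1 s e (upl (lev p.1) (Function.update v p.2 u) z) *
        (A s (upl (lev p.1) (Function.update v p.2 u) z) *
          c s (upl (lev p.1) (Function.update v p.2 u) z) *
          g (qq s (upl (lev p.1) (Function.update v p.2 u) z) p.1)) =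
      TW X p A c g (s, e, v) := by
  obtain ⟨h1, h2, -, h4⟩ := rt hp
  unfold TW
  rw [sum_comm]
  refine sum_congr rfl fun z _ => ?_
  simp only [lnR]
  rw [sum_filter_of_ne (p := fun u => c s (Function.update v p.2 u) ≠ 0)
    (fun u _ h => left_ne_zero_of_mul h), mul_sum]
  refine sum_congr rfl fun u hu => ?_
  have hdiv : ((MM s e : ℕ) : ℤ) ∣ u - v p.2 := (mem_filter.1 hu).2
  have eF : FI (lev p.1) p.1 s e (upl (lev p.1) (Function.update v p.2 u) z) =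
      FI (lev p.1) p.1 s e (upl (lev p.1) v z) := by
    refine (hPer.ff s e hs).2 _ _ _ _ fun i => ?_
    rw [upl_update _ _ h1 h2]
    by_cases hi : i = p.2
    · subst hi
      rw [Function.update_self]
      unfold upl up
      rw [Function.update_of_ne h2, Function.update_of_ne h1]
      exact hdiv
    · rw [Function.update_of_ne hi, sub_self]
      exact dvd_zero _
  have eA : A s (upl (lev p.1) (Function.update v p.2 u) z) = A s (upl (lev p.1) v z) := by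
    rw [upl_update _ _ h1 h2]
    exact hA _ _ _
  have ec : c s (upl (lev p.1) (Function.update v p.2 u) z) = c s (Function.update v p.2 u) := by
    unfold upl up
    rw [hc2, hc1]
  by_cases h0 : FI (lev p.1) p.1 s e (upl (lev p.1) (Function.update v p.2 u) z) = 0
  · rw [← eF, h0]
    simp
  · have hq := (hLin.cond s _ hs (cond_of hLin hPer h0) p.1).2.2.2.1
    rw [hLin.lin _ _ h4] at hq
    rw [← hq, eF, eA, ec]
    ring

theorem zero_off (hLin : CLin) (hPer : CPer) (X : Fin 10 → ℕ) (p : Fin 12 × Fin 10)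
    (A c : WF) (g : ℤ → ℝ) (ω : Om) (hs : SOK ω.1) (h : TW X p A c g ω ≠ 0) :
    ∀ σ, σ ∉ Act (lev p.1) → (ω.1 σ : ℤ) ∣ fm ω.2.2 σ := by
  intro σ hσ
  obtain ⟨z, -, hz⟩ := exists_ne_zero_of_sum_ne_zero h
  have h0 : FI (lev p.1) p.1 ω.1 ω.2.1 (upl (lev p.1) ω.2.2 z) ≠ 0 := fun h0 =>
    hz (by rw [h0, zero_mul, zero_mul])
  have hq := (hLin.cond _ _ hs (cond_of hLin hPer h0) σ).2.2.1
  obtain ⟨a1, a2⟩ := hLin.act _ σ hσ
  have e : fm (upl (lev p.1) ω.2.2 z) σ = fm ω.2.2 σ := by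
    unfold upl up
    rw [(hLin.dep σ _ a2 _ _).2, (hLin.dep σ _ a1 _ _).2]
  rw [← e, hq]
  unfold mk
  push_cast
  exact Dvd.dvd.mul_right (Dvd.intro_left _ rfl) _

end KRepEJ

open KRepEJ in
theorem CRepE_pf (hLin : CLin) (hPer : CPer) (hCls : CCls) (hSp : CSp) (hSz : CSz) : CRepE := by
  intro X Z hReg p hp R _ W j hW A c g hA hc1 hc2 _
  obtain ⟨-, -, h3, -⟩ := rt hp
  have hZ : 2 ≤ Z := hReg.z2
  have hX : 2 * Z ^ 10 ≤ X p.2 := by
    have h11 : 2 * Z ^ 10 ≤ Z ^ 11 := by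
      rw [pow_succ' Z 10]
      exact Nat.mul_le_mul_right _ hZ
    exact h11.trans ((Nat.pow_le_pow_right (by omega) (by omega)).trans
      ((hSz.sz X Z hReg).z p.2))
  have key : (∑ s ∈ SSet Z, ∑ e ∈ EE R W j, ∑ v ∈ Box X,
      FI (lev p.1) p.1 s e v * (A s v * c s v * g (qq s v p.1))) * X (vi (lev p.1)) *
      X (vj (lev p.1)) =
      ∑ ω ∈ SSet Z ×ˢ EE R W j ×ˢ Box X,
        1 / ((cz (X p.2) (MM ω.1 ω.2.1) (ω.2.2 p.2)).card : ℝ) * TW X p A c g ω := by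
    rw [sum_product, mul_assoc, sum_mul]
    refine sum_congr rfl fun s hs => ?_
    rw [sum_product, sum_mul]
    refine sum_congr rfl fun e _ => ?_
    rw [mul_comm, ← hCls.two X _ _ _ h3, hCls.cls X p.2 (MM s e)]
    refine sum_congr rfl fun v _ => ?_
    rw [← inner hLin hPer X hp A c g hA hc1 hc2 s e (hLin.mem Z s hs).1 v]
    rfl
  have e1 : ∀ a : ℝ, |a| * X (vi (lev p.1)) * X (vj (lev p.1)) =
      |a * X (vi (lev p.1)) * X (vj (lev p.1))| := by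
    intro a
    rw [abs_mul, abs_mul, Nat.abs_cast, Nat.abs_cast]
  rw [e1, key, mul_sum]
  have e2 : ∑ ω ∈ SSet Z ×ˢ EE R W j ×ˢ Box X,
        1 / ((cz (X p.2) (MM ω.1 ω.2.1) (ω.2.2 p.2)).card : ℝ) * TW X p A c g ω =
      ∑ ω ∈ PP X Z (lev p.1) R W j,
        1 / ((cz (X p.2) (MM ω.1 ω.2.1) (ω.2.2 p.2)).card : ℝ) * TW X p A c g ω := by
    unfold PP
    refine (sum_filter_of_ne fun ω hω h => ?_).symm
    refine zero_off hLin hPer X p A c g ω (hLin.mem Z _ (mem_product.1 hω).1).1 fun h0 => h ?_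
    rw [h0, mul_zero]
  rw [e2]
  refine le_trans (abs_sum_le_sum_abs _ _) (sum_le_sum fun ω hω => ?_)
  have hω' := (mem_filter.1 hω).1
  have hs := (mem_product.1 hω').1
  have he := (mem_product.1 (mem_product.1 hω').2).1
  obtain ⟨b1, b2⟩ := hPer.ee R W j Z hW _ he
  obtain ⟨m1, m2, -⟩ := hPer.mm Z hZ _ hs _ (fun σ => (b1 σ).1) b2
  have hc := (hCls.card (X p.2) (MM ω.1 ω.2.1) (ω.2.2 p.2) m1 (by omega)).1
  have hM : (0 : ℝ) < MM ω.1 ω.2.1 := by exact_mod_cast m1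
  have hXp : (0 : ℝ) < X p.2 := by
    have : 0 < X p.2 := by omega
    exact_mod_cast this
  have hb : 1 / ((cz (X p.2) (MM ω.1 ω.2.1) (ω.2.2 p.2)).card : ℝ) ≤
      2 * ((MM ω.1 ω.2.1 : ℝ) / X p.2) := by
    refine le_trans (one_div_le_one_div_of_le (by positivity) hc) (le_of_eq ?_)
    field_simp
  rw [abs_mul, abs_of_nonneg (by positivity : (0 : ℝ) ≤ 1 / _), ← mul_assoc]
  exact mul_le_mul_of_nonneg_right hb (abs_nonneg _)

end Pool.Agent.MP_e23604_nt.U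

end
end

section

/-!
Removal of the symbols.
-/

open Finset
open scoped Classical

noncomputable section

namespace Pool.Agent.MP_e23604_nt.U.CSJ

open P (lam shp WW cW)

theorem vol_nn (X : Fin 10 → ℕ) : 0 ≤ Vol X := card_Box X ▸ Nat.cast_nonneg _

theorem tSpin : TSpin := by
  obtain ⟨X1, h⟩ := spin dSz
  refine ⟨X1, fun X Z hR hX => ?_⟩
  have e : TS X Z U.cp (EP 0) (gl univ) = SS X Z F1 := by
    refine sum_congr rfl fun s hs => sum_congr rfl fun v hv => ?_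
    rcases GG_01 s v with h | ⟨-, hc⟩
    · rw [h, zero_mul, zero_mul]
    simp only [gl, mem_univ, if_true, F1, lams]
    by_cases hp : ∀ σ, (qq s v σ).toNat.Prime
    swap
    · obtain ⟨τ, hτ⟩ := not_forall.1 hp
      rw [prod_eq_zero (mem_univ τ) (if_neg hτ)]
      simp
    have sp := (dSz X Z hR v hv).2.1
    have h0 : ∀ σ, 0 < site v σ := fun σ => (sq_nonneg _).trans_lt (sp.1 σ)
    have sq := (dSq Z v s sp hs hc hp).1
    have k1 : ∀ e : Fin 10, e.val < 6 → v e = site v (sv e) := fun e he => by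
      have : ∀ e : Fin 10, e.val < 6 → e = 0 ∨ e = 1 ∨ e = 2 ∨ e = 3 ∨ e = 4 ∨ e = 5 := by decide
      rcases this e he with rfl | rfl | rfl | rfl | rfl | rfl <;> rfl
    have k2 : ∀ e f : Fin 10, e < f → f.val < 6 → e.val < 6 ∧ sv e ≠ sv f := by decide
    have k3 : BB (EP 0) v = bits PR v := by
      refine prod_congr (filter_congr fun p _ => by simp) fun p hp => ?_
      obtain ⟨a, b⟩ := (mem_filter.1 hp).2
      have := ind_eq (jac_pm h0 sq (k2 _ _ a b).2) (Or.inl rfl : (1 : ℤ) = 1 ∨ (1 : ℤ) = -1)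
      rw [← k1 _ b, ← k1 _ (k2 _ _ a b).1, Int.cast_one, one_mul] at this
      exact this.symm
    rw [k3]
    rfl
  have z2 : (2 : ℝ) ≤ Z := by exact_mod_cast hR.z2
  beta_reduce
  rw [e, one_div, inv_mul_eq_div]
  exact (h X Z hR hX).trans (div_le_self (vol_nn X) (by linarith))

theorem bitG (hP : CPer) (hS : CSz) : BitG := by
  obtain ⟨C, hC⟩ := bil_box
  intro A0
  obtain ⟨N1, h1⟩ := hS.big C (30 ^ C)
  obtain ⟨N2, h2⟩ := hS.big A0 1
  refine ⟨N1 + N2, fun X Z hR hX e f ne R W j _ hj a b a1 b1 a2 b2 a3 b3 => ?_⟩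
  obtain ⟨-, l1⟩ := h1 X Z hR (by omega)
  obtain ⟨l2, l3⟩ := h2 X Z hR (by omega)
  have sz := hS.sz X Z hR
  have z2 := hR.z2
  have z1 : (1 : ℝ) ≤ Z := by exact_mod_cast (by omega : 1 ≤ Z)
  have z0 : (0 : ℝ) < Z := by linarith
  have x0 : ∀ i, 0 < X i := fun i => lt_of_lt_of_le (by positivity) (sz.z i)
  have xl : ∀ i, X i ≤ X 0 ^ 14 := fun i => by
    by_cases hi : i = 1
    · rw [hi, pow_succ']
      exact sz.x1.2.trans (Nat.mul_le_mul_left _ (Nat.pow_le_pow_left (sz.le0 7 (by decide)) _))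
    · exact (sz.le0 i hi).trans (Nat.le_self_pow (by norm_num) _)
  have y0 : ∀ i, (0 : ℝ) < X i := fun i => by exact_mod_cast x0 i
  have lg : ∀ i, 0 ≤ Real.log (X i) ∧ Real.log (X i) ≤ 14 * LL X := fun i => by
    refine ⟨Real.log_natCast_nonneg _, ?_⟩
    have := Real.log_pow (X 0 : ℝ) 14
    rw [Nat.cast_ofNat] at this
    rw [LL, ← this]
    exact Real.log_le_log (y0 i) (by exact_mod_cast xl i)
  have b6 := Real.log_mul (y0 e).ne' (y0 f).ne'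
  have b7 : 0 ≤ 2 + Real.log (X e * X f) := by linarith [(lg e).1, (lg f).1]
  have b4 : (2 + Real.log (X e * X f)) ^ C ≤ Z := by
    refine le_trans ?_ l1
    rw [← mul_pow]
    exact pow_le_pow_left₀ b7 (by linarith [(lg e).2, (lg f).2]) _
  have b5 : (Z : ℝ) ^ 125 ≤ min (X e : ℝ) (X f) ^ (1 / 8 : ℝ) := by
    rw [one_div, Real.le_rpow_inv_iff_of_pos (by positivity) (le_min (y0 e).le (y0 f).le)
      (by norm_num), Real.rpow_ofNat, ← pow_mul]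
    have : ∀ i, (Z : ℝ) ^ (125 * 8) ≤ X i := fun i => by
      rw [← Nat.cast_pow, Nat.cast_le]
      exact sz.z i
    exact le_min (this e) (this f)
  have V0 := vol_nn X
  have key : ∀ s ∈ SSet Z, ∀ ε ∈ EE R W j, |∑ v ∈ Box X,
      FF s ε v * (a s v * b s v * (jacobiSym (v e) (v f).toNat : ℝ))| ≤ Vol X / Z ^ 104 :=
    fun s hs ε hε => by
      obtain ⟨m1, m2⟩ := hP.ee R W j Z hj ε hε
      obtain ⟨m3, m4, -⟩ := hP.mm Z z2 s hs ε (fun σ => (m1 σ).1) m2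
      refine (hC X e f (MM s ε) (FF s ε) (a s) (b s) ne x0 m3 (fun v => (hP.bd s ε v).1)
        (hP.ff s ε (mem_SSet.1 hs).1).1 (a1 s) (b1 s) (a2 s) (b2 s) (fun v _ => a3 s v)
        fun v _ => b3 s v).trans ?_
      have m5 : (MM s ε : ℝ) ≤ Z ^ 10 := by exact_mod_cast m4
      calc _ ≤ Vol X * ((Z ^ 10) ^ 2 * Z / Z ^ 125) := by gcongr
        _ = _ := by field_simp
  obtain ⟨c1, c2⟩ := hP.card R W j Z hj
  have d1 : ((SSet Z).card : ℝ) ≤ Z ^ 12 := by exact_mod_cast c1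
  have d2 : ((EE R W j).card : ℝ) ≤ Z ^ 12 := by exact_mod_cast c2
  refine (abs_sum_le_sum_abs _ _).trans ((sum_le_card_nsmul _ _ _ fun s hs =>
    (abs_sum_le_sum_abs _ _).trans (sum_le_card_nsmul _ _ _ (key s hs))).trans ?_)
  rw [nsmul_eq_mul, nsmul_eq_mul]
  calc _ ≤ Z ^ 12 * (Z ^ 12 * (Vol X / Z ^ 104)) := by gcongr
    _ = Vol X / Z ^ 80 := by field_simp
    _ ≤ _ := div_le_div_of_nonneg_left V0 (by positivity)
      ((one_mul _).symm.trans_le (l3.trans (le_self_pow₀ z1 (by norm_num))))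

theorem abs_clamp (x : ℝ) : |clamp x| ≤ 1 :=
  abs_le.2 ⟨le_max_left _ _, max_le (by norm_num) (min_le_left _ _)⟩

theorem clamp_eq {x M : ℝ} (hM : 0 < M) (h : |x| ≤ M) : x = M * clamp (x / M) := by
  have := abs_le.1 h
  rw [clamp, min_eq_right ((div_le_one hM).2 this.2),
    max_eq_right ((le_div_iff₀ hM).2 (by linarith [this.1]))]
  field_simp

theorem abs_ind (p : Prop) [Decidable p] : |if p then (1 : ℝ) else 0| ≤ 1 := by
  split_ifs <;> simp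

theorem abs_BB (E : Finset (Fin 10 × Fin 10)) (v : V10) : |BB E v| ≤ 1 :=
  abs_prod1 _ _ fun _ => abs_ind _

theorem ig_BB {E : Finset (Fin 10 × Fin 10)} {i : Fin 10} (h : ∀ p ∈ E, p.1 ≠ i ∧ p.2 ≠ i) :
    Ig i (BB E) := fun v t => prod_congr rfl fun p hp => by
  rw [Function.update_of_ne (h p hp).1, Function.update_of_ne (h p hp).2]

/-- A part of the coprimality conditions. -/
def Cq (P : Fin 10 → Prop) (v : V10) : Prop :=
  ∀ i j : Fin 10, 4 ≤ i.val → 6 ≤ j.val → i < j → P i → IsCoprime (v i) (v j)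

def cq (P : Fin 10 → Prop) (v : V10) : ℝ := if Cq P v then 1 else 0

theorem ig_cq {P : Fin 10 → Prop} {i : Fin 10} (hi : i.val < 6) (h : ¬ P i) : Ig i (cq P) :=
  fun v t => if_congr (forall₂_congr fun a b => forall₂_congr fun _ hb => forall₂_congr fun _ hp => by
    rw [Function.update_of_ne (by rintro rfl; exact h hp),
      Function.update_of_ne (by rintro rfl; omega)]) rfl rfl

theorem cp_eq (f : Fin 10) (v : V10) : U.cp v = cq (· ≠ f) v * cq (· = f) v := by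
  rw [U.cp, cq, cq, ite_zero_mul_ite_zero, one_mul]
  exact if_congr ⟨fun h => ⟨fun i j a b c _ => h i j a b c, fun i j a b c _ => h i j a b c⟩,
    fun h i j a b c => (em (i = f)).elim (h.2 i j a b c) (h.1 i j a b c)⟩ rfl rfl

theorem ig_pr (hL : CLin) (M : ℝ) (g : GW) (s : S12) {T : Finset (Fin 12)} {i : Fin 10}
    (h : ∀ σ ∈ T, i ∉ dp σ ∨ g σ = one) :
    Ig i fun v => ∏ σ ∈ T, clamp (g σ (qq s v σ) / M) := fun v t =>
  prod_congr rfl fun σ hσ => by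
    rcases h σ hσ with h | h
    · rw [qq, qq, (hL.dep σ i h v t).1]
    · simp only [h, one]

/-- The indicator of odd squarefree values. -/
def sq1 (i : Fin 10) (v : V10) : ℝ := if Squarefree (v i).toNat ∧ v i % 2 = 1 then 1 else 0

theorem half (hQ : CPrim) (hL : CLin) {X : Fin 10 → ℕ} {Z : ℕ} (hR : Reg X Z) {s : S12}
    (hs : s ∈ SSet Z) {v : V10} (hv : v ∈ Box X) (hc : Cond s v) {e f : Fin 10} (ef : e < f)
    (f6 : f.val < 6) {g : GW} (g1 : g (sv e) = lam) (g2 : g (sv f) = lam) :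
    (∏ σ, g σ (qq s v σ)) * ((if jacobiSym (v e) (v f).toNat = 1 then 1 else 0) -
      1 / 2 - 1 / 2 * (sq1 e v * sq1 f v * (jacobiSym (v e) (v f).toNat : ℝ))) = 0 := by
  have e6 : e.val < 6 := (Fin.lt_def.1 ef).trans f6
  by_cases p1 : (qq s v (sv e)).toNat.Prime
  swap
  · rw [prod_eq_zero (mem_univ (sv e)) (by rw [g1]; exact if_neg p1), zero_mul]
  by_cases p2 : (qq s v (sv f)).toNat.Prime
  swap
  · rw [prod_eq_zero (mem_univ (sv f)) (by rw [g2]; exact if_neg p2), zero_mul]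
  have k2 : ∀ e f : Fin 10, e < f → f.val < 6 → sv f ≠ sv e := by decide
  obtain ⟨t1, t2, t3⟩ := hQ.sqf X Z hR s hs v hv hc _ p1
  obtain ⟨t4, t5, -⟩ := hQ.sqf X Z hR s hs v hv hc _ p2
  have t6 := t3 _ (k2 e f ef f6) p2
  rw [(hL.var f f6 v).1] at t4 t5 t6
  rw [(hL.var e e6 v).1] at t1 t2 t6
  have t7 : jacobiSym (v e) (v f).toNat = 1 ∨ jacobiSym (v e) (v f).toNat = -1 := by
    refine jacobiSym.eq_one_or_neg_one ?_
    rw [Int.toNat_of_nonneg ((dSz X Z hR v hv).1 f).le, ← Int.isCoprime_iff_gcd_eq_one]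
    exact t6
  rw [sq1, sq1, if_pos (And.intro t1 t2), if_pos (And.intro t4 t5)]
  rcases t7 with h | h <;> rw [h] <;> norm_num

theorem fin_num {L V c x y : ℝ} {C k n m : ℕ} (l1 : 21 ≤ L) (V0 : 0 ≤ V) (u0 : 0 ≤ c) (w1 : c ≤ L)
    (hn : n ≤ 12) (hm : m ≤ 12) (k1 : L ^ (C + 24) ≤ 2 ^ k)
    (r1 : |x - c ^ n * y| ≤ V * L ^ C / 2 ^ k) (r2 : |y| ≤ V / L ^ 36) :
    |1 / 2 * (21 * L) ^ m * x| ≤ V := by
  have L1 : 1 ≤ L := by linarith
  have u1 : (21 * L) ^ m ≤ L ^ 24 := by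
    calc _ ≤ (L ^ 2) ^ m := pow_le_pow_left₀ (by linarith) (by nlinarith) _
      _ ≤ (L ^ 2) ^ 12 := pow_le_pow_right₀ (one_le_pow₀ L1) hm
      _ = _ := by ring
  have u2 : c ^ n ≤ L ^ 12 := (pow_le_pow_left₀ u0 w1 _).trans (pow_le_pow_right₀ L1 hn)
  have u3 : V * L ^ C / 2 ^ k ≤ V / L ^ 24 := by
    calc _ ≤ V * L ^ C / L ^ (C + 24) := by gcongr
      _ = _ := by field_simp; ring
  have u4 := (abs_sub_abs_le_abs_sub _ _).trans (r1.trans u3)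
  rw [abs_mul, abs_of_nonneg (pow_nonneg u0 _), sub_le_iff_le_add] at u4
  rw [abs_mul, abs_of_nonneg (by positivity)]
  calc _ ≤ 1 / 2 * L ^ 24 * (V / L ^ 24 + L ^ 12 * (V / L ^ 36)) := by
        gcongr
        exact u4.trans (by gcongr)
    _ = _ := by field_simp; ring

theorem three {X : Fin 10 → ℕ} {Z : ℕ} (hR : Reg X Z) (w : Fin 10) : 3 ≤ X w := by
  have z2 := hR.z2
  have : Z ^ 2 ≤ X w := (Nat.pow_le_pow_right (by omega) (by norm_num)).trans (hR.sizes.1 w)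
  nlinarith

theorem tBit (hF : CFlat) (hP : CPer) (hS : CSz) (hQ : CPrim) (hL : CLin) : TBit := by
  intro B
  obtain ⟨C, N1, h1⟩ := hF
  obtain ⟨N2, h2⟩ := bitG hP hS 36
  obtain ⟨N3, h3⟩ := hS.lvl B (C + 24)
  obtain ⟨N4, h4⟩ := hS.wt B
  obtain ⟨N5, h5⟩ := hS.big 0 21
  refine ⟨N1 + N2 + N3 + N4 + N5, fun X Z hR hX E hE p hp w hw R g hg g1 g2 _ _ g3 g4 => ?_⟩
  obtain ⟨e, f⟩ := p
  obtain ⟨-, ef, f6⟩ : 0 ≤ e.val ∧ e < f ∧ f.val < 6 := (mem_filter.1 (hE hp)).2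
  have e6 : e.val < 6 := (Fin.lt_def.1 ef).trans f6
  obtain ⟨k, k1, k2⟩ := h3 X Z hR (by omega)
  have k3 := k2 (X w) (three hR w) ((hS.sz X Z hR).le0 w hw)
  have w1 := (h4 X Z hR (by omega) w hw).1
  have l1 : 21 ≤ LL X := (h5 X Z hR (by omega)).1
  generalize WW B (X w) = W at k3 w1 g3
  obtain ⟨M, hM⟩ : ∃ M, M = 21 * LL X := ⟨_, rfl⟩
  have M0 : 0 < M := by linarith
  obtain ⟨P1, hP1⟩ : ∃ P1 : Fin 10 × Fin 10 → Prop, ∀ q, P1 q ↔ q.1 ≠ f ∧ q.2 ≠ f :=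
    ⟨_, fun _ => Iff.rfl⟩
  obtain ⟨P2, hP2⟩ : ∃ P2 : Fin 12 → Prop, ∀ σ, P2 σ ↔ f ∉ dp σ ∨ g σ = one := ⟨_, fun _ => Iff.rfl⟩
  obtain ⟨a, ha⟩ : ∃ a : WF, ∀ s v, a s v = sq1 e v * (cq (· ≠ f) v *
    BB ((E.erase (e, f)).filter P1) v * ∏ σ ∈ Rᶜ.filter P2, clamp (g σ (qq s v σ) / M)) := ⟨_, fun _ _ => rfl⟩
  obtain ⟨b, hb⟩ : ∃ b : WF, ∀ s v, b s v = sq1 f v * (cq (· = f) v *
    BB ((E.erase (e, f)).filter fun q => ¬ P1 q) v *
    ∏ σ ∈ Rᶜ.filter fun σ => ¬ P2 σ, clamp (g σ (qq s v σ) / M)) := ⟨_, fun _ _ => rfl⟩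
  have a1 : Bd1 a := fun s v => ha s v ▸ abs_mul1 (abs_ind _) (abs_mul1 (abs_mul1 (abs_ind _)
    (abs_BB _ _)) (abs_prod1 _ _ fun _ => abs_clamp _))
  have b1 : Bd1 b := fun s v => hb s v ▸ abs_mul1 (abs_ind _) (abs_mul1 (abs_mul1 (abs_ind _)
    (abs_BB _ _)) (abs_prod1 _ _ fun _ => abs_clamp _))
  have a2 : Ind f a := fun s v t => by
    rw [ha, ha, sq1, sq1, Function.update_of_ne ef.ne, ig_cq f6 (not_not.2 rfl),
      ig_BB (fun q hq => (hP1 q).1 (mem_filter.1 hq).2) v t]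
    exact congrArg _ (congrArg _ (ig_pr hL M g s (fun q hq => (hP2 q).1 (mem_filter.1 hq).2) v t))
  have b2 : Ind e b := fun s v t => by
    rw [hb, hb, sq1, sq1, Function.update_of_ne ef.ne', ig_cq e6 ef.ne,
      ig_BB (fun q hq => ?_) v t]
    · refine congrArg _ (congrArg _ (ig_pr hL M g s (fun σ hσ => ?_) v t))
      obtain ⟨q1, q2⟩ := mem_filter.1 hσ
      exact Or.inl ((g4 σ (mem_compl.1 q1)).resolve_right fun h => q2 ((hP2 σ).2 h))
    · obtain ⟨q1, q2⟩ := mem_filter.1 hq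
      obtain ⟨q3, q4⟩ := mem_erase.1 q1
      have q5 : q.1 < q.2 := (mem_filter.1 (hE q4)).2.2.1
      rw [Ne, Prod.ext_iff] at q3
      rw [hP1] at q2
      simp only at q3
      omega
  have i3 : ∀ (i : Fin 10) (v : V10) (x : ℝ), sq1 i v * x ≠ 0 →
      Squarefree (v i).toNat ∧ v i % 2 = 1 := fun i v x h => by
    by_contra h'
    exact h (by rw [sq1, if_neg h', zero_mul])
  have r1 := h1 X Z hR (by omega) R W k (fun s v => a s v * b s v *
    (jacobiSym (v e) (v f).toNat : ℝ)) (fun s v => abs_mul1 (abs_mul1 (a1 s v) (b1 s v))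
      (abs_jac _ _)) w1
  have r2 := h2 X Z hR (by omega) e f ef.ne R W k w1 k3 a b a1 b1 a2 b2
    (fun s v h => i3 e v _ (ha s v ▸ h)) fun s v h => i3 f v _ (hb s v ▸ h)
  have r3 : TS X Z U.cp E g - 1 / 2 * TS X Z U.cp (E.erase (e, f)) g = 1 / 2 * M ^ Rᶜ.card *
      SS X Z fun s v => a s v * b s v * (jacobiSym (v e) (v f).toNat : ℝ) *
        ∏ σ ∈ R, shp W (qq s v σ) := by
    rw [TS, TS, SS, SS, SS, mul_sum, mul_sum, ← sum_sub_distrib]
    refine sum_congr rfl fun s hs => ?_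
    rw [mul_sum, mul_sum, ← sum_sub_distrib]
    refine sum_congr rfl fun v hv => ?_
    rcases GG_01 s v with h | ⟨-, hc⟩
    · simp only [h, zero_mul, mul_zero, sub_zero]
    have s1 : ∏ σ, g σ (qq s v σ) = M ^ Rᶜ.card * ((∏ σ ∈ Rᶜ.filter P2, clamp (g σ (qq s v σ) / M)) *
        ∏ σ ∈ Rᶜ.filter fun σ => ¬ P2 σ, clamp (g σ (qq s v σ) / M)) *
        ∏ σ ∈ R, shp W (qq s v σ) := by
      rw [prod_filter_mul_prod_filter_not, ← prod_compl_mul_prod R, ← prod_const,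
        ← prod_mul_distrib]
      refine congrArg₂ _ (prod_congr rfl fun σ _ => ?_) (prod_congr rfl fun σ hσ => by rw [g3 σ hσ])
      obtain ⟨q1, q2, -⟩ := hQ.rng X Z hR s hs v hv σ
      exact clamp_eq M0 (hM ▸ hg σ _ (le_trans (by positivity) q1) q2)
    have s2 : BB (E.erase (e, f)) v = BB ((E.erase (e, f)).filter P1) v *
        BB ((E.erase (e, f)).filter fun q => ¬ P1 q) v :=
      (prod_filter_mul_prod_filter_not _ _ _).symm
    have s3 : BB E v = (if jacobiSym (v e) (v f).toNat = 1 then 1 else 0) *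
        BB (E.erase (e, f)) v := (mul_prod_erase _ _ hp).symm
    rw [s3, ha, hb, cp_eq f]
    generalize cq (· ≠ f) v = c1
    generalize cq (· = f) v = c2
    linear_combination GG s v * c1 * c2 * BB (E.erase (e, f)) v *
        half hQ hL hR hs hv hc ef f6 g1 g2 +
      1 / 2 * GG s v * c1 * c2 * sq1 e v * sq1 f v * (jacobiSym (v e) (v f).toNat : ℝ) *
        ((∏ σ, g σ (qq s v σ)) * s2 + BB ((E.erase (e, f)).filter P1) v *
          BB ((E.erase (e, f)).filter fun q => ¬ P1 q) v * s1)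
  rw [r3, hM]
  exact fin_num l1 (vol_nn X) (zero_le_one.trans (P.one_le_cW W)) w1
    (by simpa using card_le_univ R) (by simpa using card_le_univ Rᶜ) k1 r1 r2

end Pool.Agent.MP_e23604_nt.U.CSJ

end
end
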