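import Pool.Agent.Mg.Fe23604m.G0a5d16
import Mathlib

set_option linter.all false

section

set_option autoImplicit false

open Module Filter Topology Finset
open scoped Classical

namespace Pool.Agent.MP_e23604_nt.R

open B
open Q (Wn dig CmI Cm0 Pre A1 Eta Jm scf St Cork Fg IdxQ basQ levQ)

theorem z2_add_COR (a b : ZMod 2) (h : a + b = 0) : a = b := by
  revert a b
  decide

theorem z2_two_COR (a : ZMod 2) : 2 ^ 1 • a = 0 := by
  revert a
  decide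

theorem Adt.add_COR {H : Subgroup GQ} {a b : GQ → ZMod 2} (ha : Adt H a) (hb : Adt H b) :
    Adt H (a + b) := fun g hg h hh => by
  simp only [Pi.add_apply, ha g hg h hh, hb g hg h hh]
  ring

theorem Lc.add_COR {H : Subgroup GQ} {a b : GQ → ZMod 2} (ha : Lc H a) (hb : Lc H b) :
    Lc H (a + b) := ha.map₂ hb (· + ·)

theorem kap_prod_COR (hKAP : KAP_st) (S : Finset ℕ) (hS : ∀ q ∈ S, q ≠ 0) (g : GQ) :
    kap (∏ q ∈ S, (q : ℚ)) g = ∑ q ∈ S, kap q g := by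
  induction S using Finset.induction_on with
  | empty => simpa using hKAP.2.2.2.1 1 g
  | insert a s ha ih =>
    have h1 : ∀ q ∈ s, q ≠ 0 := fun q hq => hS q (mem_insert_of_mem hq)
    rw [prod_insert ha, sum_insert ha, hKAP.2.2.1 _ _ g
      (Nat.cast_ne_zero.2 (hS a (mem_insert_self a s)))
      (prod_ne_zero_iff.2 fun q hq => Nat.cast_ne_zero.2 (h1 q hq)), ih h1]

theorem kap_unr_COR (hKAP : KAP_st) {l q : ℕ} [Fact l.Prime] (hq : q.Prime) (h2 : l ≠ 2)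
    (hlq : l ≠ q) (γ : GQ) : ∀ τ ∈ Ine l γ, kap q τ = 0 := fun τ hτ => by
  have := Fact.mk hq
  rw [hKAP.2.2.2.2.2.1 l γ q h2 (Nat.cast_ne_zero.2 hq.ne_zero) τ hτ, padicValRat.of_nat,
    padicValNat_primes hlq]
  simp

theorem kap_two_COR (hKUM : KUM_st) {q : ℕ} (h1 : 1 ≤ q) (h8 : 8 ∣ q - 1) :
    ∀ g ∈ Dec (nv 2 1), kap q g = 0 := fun g hg => by
  obtain ⟨t, ht⟩ := h8
  have e : (((q : ℚ) : Qb)) - 1 = 4 * ((2 : ℕ) * (t : ℕ)) := by
    have : q = 8 * t + 1 := by omega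
    rw [this]
    push_cast
    ring
  have h4 : 0 < nv 2 1 4 := (nv 2 1).pos (by norm_num)
  have h5 : nv 2 1 (t : Qb) ≤ 1 := (nv_na 2 1).apply_natCast_le_one
  have h6 := nv_lt 2 1
  have h7 : 0 ≤ nv 2 1 ((2 : ℕ) : Qb) := (nv 2 1).nonneg _
  refine if_pos (hKUM.1 2 1 (Dec (nv 2 1)) ((q : ℚ) : Qb) (sqr q) le_rfl
    (fun σ _ => map_ratCast σ _) ?_ (sqr_sq q) g hg)
  rw [e, map_mul, map_mul]
  exact mul_lt_of_lt_one_right h4 ((mul_le_of_le_one_right h7 h5).trans_lt h6)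

theorem kap_cc_COR (hKAP : KAP_st) {r : ℚ} (hr : 0 ≤ r) {c : GQ} (hc : CC c) :
    ∀ g ∈ Subgroup.zpowers c, kap r g = 0 := fun g hg => by
  have h1 := hKAP.2.2.2.2.1 r c hc
  rw [if_neg (not_lt.2 hr)] at h1
  have h2 : c ∈ MulAction.stabilizer GQ (sqr r) := by
    by_contra h
    rw [kap, if_neg (show ¬ c (sqr r) = sqr r from h)] at h1
    exact one_ne_zero h1
  exact if_pos ((Subgroup.zpowers_le_of_mem h2) hg)

theorem loc_COR (hTAM : TAM_st) {A : Type} [AddCommGroup A] {J : A ≃ₗ[ℤ] A} {η : Act A} {n : ℕ}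
    {cc : GQ} {T : A} (hP : P1 J η n cc T) {ξ : GQ → A} {l : ℕ} [Fact l.Prime] (hl : l ∣ n)
    {χ : GQ → ZMod 2} (h1 : Adt (Dec (nv l 1)) χ) (h2 : Lc (Dec (nv l 1)) χ)
    (h3 : InL η (Dec (nv l 1)) (ξ + chT χ T)) :
    ∃ u : GQ → ZMod 2, Adt (Dec (nv l 1)) u ∧ Lc (Dec (nv l 1)) u ∧ (∀ τ ∈ Ine l 1, u τ = 0) ∧
      InL η (Dec (nv l 1)) (ξ + chT u T) := by
  have h0 := hP.cm.toCm0
  have hl2 : l ≠ 2 := by
    rintro rfl
    exact (Nat.not_even_iff_odd.2 hP.odd) (even_iff_two_dvd.2 hl)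
  obtain ⟨τ, hτ, hk, hJ⟩ := hP.ga.tam l hl
  have tam : ∀ u : GQ → ZMod 2, Adt (Dec (nv l 1)) u → Lc (Dec (nv l 1)) u → u τ = 0 →
      ∀ σ ∈ Ine l 1, u σ = 0 := fun u a b c =>
    (hTAM l 1 hl2).2 τ hτ hk (ZMod 2) u 1 (a.mono (Ine_le l 1)) (b.mono (Ine_le l 1))
      (fun _ _ => z2_two_COR _) c
  rcases z2 (χ τ) with e | e
  · exact ⟨χ, h1, h2, tam χ h1 h2 e, h3⟩
  obtain ⟨T1, hT1, hT2⟩ := W_ex hP.cm 1
  have hz := dd_zc h0 hP.ga hT1
  obtain ⟨ψ, hψ, hlc⟩ : ∃ ψ : GQ → ZMod 2, chT ψ T = dd η T1 ∧ Lc ⊤ ψ :=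
    ⟨fun g => dig J 0 (dd η T1 g), funext fun g => chT_dig h0 hP.t0 (hz.lev g), hz.lc.map _⟩
  have hadt : Adt ⊤ ψ := fun g _ h _ => by
    have e1 := congrFun (chT_add h0 hP.t0.1 (fun _ => ψ g) fun _ => ψ h) 1
    have e2 := congrFun (chT_add h0 hP.t0.1 (fun _ => ψ (g * h)) fun _ => ψ g + ψ h) 1
    have e3 := hz.coc g h
    rw [T_fix h0 (hP.ga.pre g) (hz.lev h), ← hψ] at e3
    simp only [chT, Pi.add_apply] at e1 e2 e3
    rw [e1, e3, T_two h0 (add_mem (nsmul_mem hP.t0.1 _) (nsmul_mem hP.t0.1 _))] at e2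
    exact z2_add_COR _ _ ((chT_eq_zero hP.t0.2 (χ := fun _ => ψ (g * h) + (ψ g + ψ h))
      (g := 1)).1 e2)
  have hψτ : ψ τ = 1 := (z2 _).resolve_left fun e1 => by
    have e2 := (chT_eq_zero hP.t0.2).2 e1
    rw [hψ, dd, hJ 2 T1 hT1] at e2
    exact hT2 ((W_om h0).1 ((W_zero h0).2 e2))
  have a1 := h1.add_COR (hadt.mono le_top)
  have a2 := h2.add_COR (hlc.mono le_top)
  refine ⟨χ + ψ, a1, a2, tam _ a1 a2 (by rw [Pi.add_apply, e, hψτ]; rfl), ?_⟩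
  rw [chT_add h0 hP.t0.1, ← add_assoc, hψ]
  exact h3.add ⟨T1, fun _ _ => rfl⟩

theorem COR_pf (hLAST : LAST_st) (hTAM : TAM_st) (hKAP : KAP_st) (hFRO : FRO_st) (hKUM : KUM_st) (hDIC : DIC_st) : COR_st := by
  intro A _ J η n cc T hP K ζ l₀ qq Q φ τ hQ m ξ hm1 hm2 hZ hU h2 hcc hl
  have _ := hDIC
  have h0 := hP.cm.toCm0
  have hn0 : n ≠ 0 := hP.sf.ne_zero
  have hl2 : ∀ l, l ∣ n → l ≠ 2 := by
    rintro _ hl rfl
    exact (Nat.not_even_iff_odd.2 hP.odd) (even_iff_two_dvd.2 hl)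
  have hu : ∀ l : ℕ, ∃ u : GQ → ZMod 2, ∀ [Fact l.Prime], l ∣ n → Adt (Dec (nv l 1)) u ∧
      Lc (Dec (nv l 1)) u ∧ (∀ τ ∈ Ine l 1, u τ = 0) ∧ InL η (Dec (nv l 1)) (ξ + chT u T) := by
    intro l
    by_cases h : l.Prime ∧ l ∣ n
    · have := Fact.mk h.1
      obtain ⟨χ, a, b, c⟩ := hl l h.2
      obtain ⟨u, hu⟩ := loc_COR hTAM hP h.2 a b c
      exact ⟨u, fun _ => hu⟩
    · exact ⟨0, fun h' => absurd ⟨Fact.out, h'⟩ h⟩
  have hf : ∀ l : ℕ, ∃ f : GQ, ∀ [Fact l.Prime], Frob l 1 f := by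
    intro l
    by_cases h : l.Prime
    · have := Fact.mk h
      obtain ⟨f, hf⟩ := (hFRO l 1).1
      exact ⟨f, hf⟩
    · exact ⟨1, absurd Fact.out h⟩
  choose u hu using hu
  choose f hf using hf
  obtain ⟨L, hL⟩ : ∃ L, L = (n.primeFactors.erase l₀).filter fun l => u l (f l) = 1 := ⟨_, rfl⟩
  have hLs : L ⊆ n.primeFactors.erase l₀ := hL ▸ filter_subset _ _
  have hQ' : L.image qq ⊆ Q := hQ.img ▸ image_subset_image hLs
  have h8 : ∀ q ∈ Q, 8 ∣ q - 1 := fun q hq => by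
    have := Fact.mk (hQ.pri q hq).1
    exact (pow_dvd_pow 2 (show 3 ≤ K + 1 by have := hQ.two; omega)).trans (hQ.tq q hq).dvd
  have hsum := kap_prod_COR hKAP (L.image qq) fun q hq => (hQ.pri q (hQ' hq)).1.ne_zero
  obtain ⟨r, hr⟩ : ∃ r, r = ∏ q ∈ L.image qq, (q : ℚ) := ⟨_, rfl⟩
  have hr0 : 0 ≤ r := hr ▸ prod_nonneg fun _ _ => Nat.cast_nonneg _
  refine ⟨L.image qq, hQ', ?_⟩
  rw [← hr] at hsum ⊢
  have hun : ∀ (l : ℕ) [Fact l.Prime] (γ : GQ), l ≠ 2 → l ∉ Q → ∀ σ ∈ Ine l γ, kap r σ = 0 := by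
    intro l _ γ h1 h3 σ hσ
    rw [hsum]
    exact sum_eq_zero fun q hq => kap_unr_COR hKAP (hQ.pri q (hQ' hq)).1 h1
      (fun e => h3 (e ▸ hQ' hq)) γ σ hσ
  have hnQ : ∀ l, l ∣ n → l ∉ Q := fun l h1 h3 => (hQ.pri l h3).2.2 h1
  have same : ∀ {H : Subgroup GQ}, InL η H ξ → (∀ g ∈ H, kap r g = 0) →
      InL η H (ξ + chT (kap r) T) := fun h1 h3 => h1.congr fun g hg => by
    rw [Pi.add_apply, (chT_eq_zero hP.t0.2).2 (h3 g hg), add_zero]
  have eqv : ∀ (l : ℕ) [Fact l.Prime], l ∣ n → (∀ g ∈ Dec (nv l 1), (u l + kap r) g = 0) →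
      InL η (Dec (nv l 1)) (ξ + chT (kap r) T) := fun l _ h1 h3 =>
    (hu l h1).2.2.2.congr fun g hg => by
      simp only [Pi.add_apply, chT, z2_add_COR _ _ (h3 g hg)]
  have a1 : ∀ (l : ℕ) [Fact l.Prime], l ∣ n → Adt (Dec (nv l 1)) (u l + kap r) := fun l _ h =>
    (hu l h).1.add_COR ((hKAP.1 r).1.mono le_top)
  have a2 : ∀ (l : ℕ) [Fact l.Prime], l ∣ n → Lc (Dec (nv l 1)) (u l + kap r) := fun l _ h =>
    (hu l h).2.1.add_COR ((hKAP.1 r).2.mono le_top)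
  have a3 : ∀ (l : ℕ) [Fact l.Prime], l ∣ n → ∀ σ ∈ Ine l 1, (u l + kap r) σ = 0 :=
    fun l _ h σ hσ => by
      rw [Pi.add_apply, (hu l h).2.2.1 σ hσ, hun l 1 (hl2 l h) (hnQ l h) σ hσ, add_zero]
  have b1 : Zc J η m (ξ + chT (kap r) T) :=
    hZ.add ((chT_zc h0 hP.ga.pre hP.t0.1 (hKAP.1 r).1 (hKAP.1 r).2).mono h0 hm1)
  have b2 : UnrO n Q (ξ + chT (kap r) T) := fun l _ γ h1 h3 h4 σ hσ => by
    rw [Pi.add_apply, hU l γ h1 h3 h4 σ hσ, (chT_eq_zero hP.t0.2).2 (hun l γ h1 h4 σ hσ), add_zero]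
  have b3 : InL η (Dec (nv 2 1)) (ξ + chT (kap r) T) := same h2 fun g hg => by
    rw [hsum]
    exact sum_eq_zero fun q hq =>
      kap_two_COR hKUM (hQ.pri q (hQ' hq)).1.one_le (h8 q (hQ' hq)) g hg
  have b4 := same hcc (kap_cc_COR hKAP hr0 hP.cc)
  have b5 : ∀ (l : ℕ) [Fact l.Prime], l ∣ n → l ≠ l₀ →
      InL η (Dec (nv l 1)) (ξ + chT (kap r) T) := by
    intro l _ h1 h3
    have hlp : l ∈ n.primeFactors := Nat.mem_primeFactors.2 ⟨Fact.out, h1, hn0⟩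
    refine eqv l h1 (((hFRO l 1).2 (f l) (hf l)).2.2.2.2 (ZMod 2) _ (a1 l h1) (a2 l h1)
      (a3 l h1) ?_)
    have e : ∀ l' ∈ L, kap (qq l') (f l) = if l = l' then 1 else 0 := fun l' h' => by
      have hq := hQ' (mem_image_of_mem qq h')
      have := Fact.mk (hQ.pri _ hq).1
      have h4 : qq l' % 4 = 1 := by
        have := h8 _ hq
        have := (hQ.pri _ hq).1.one_le
        omega
      rw [hKAP.2.2.2.2.2.2.2.1 l (qq l') 1 1 (f l) (φ (qq l')) (hl2 l h1)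
        (fun e => hnQ l h1 (e ▸ hq)) h4 (hf l) (hQ.tq _ hq).fr, hQ.sym l' (hLs h') l hlp]
      simp only [h3, or_false]
    rw [Pi.add_apply, hsum, sum_image fun a ha b hb => hQ.inj (hLs ha) (hLs hb), sum_congr rfl e,
      sum_ite_eq]
    have hm : l ∈ L ↔ u l (f l) = 1 := by
      rw [hL, mem_filter, mem_erase]
      exact ⟨fun h => h.2, fun h => ⟨⟨h3, hlp⟩, h⟩⟩
    rcases z2 (u l (f l)) with e1 | e1
    · rw [if_neg fun h => zero_ne_one (e1.symm.trans (hm.1 h)), e1, add_zero]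
    · rw [if_pos (hm.2 e1), e1]
      rfl
  refine ⟨b1, b2, b3, b4, fun l _ h1 => ?_⟩
  by_cases h3 : l = l₀
  · subst h3
    refine eqv l h1 (hLAST A J η n cc T hP K ζ l qq Q φ τ hQ _ _ (b1.mono h0 hm2) b2 b3 b4 b5
      (a1 l h1) (a2 l h1) (a3 l h1) ((hu l h1).2.2.2.congr fun g _ => ?_))
    rw [chT_add h0 hP.t0.1]
    simp only [Pi.add_apply]
    rw [add_assoc, add_comm (chT (u l) T g), ← add_assoc (chT (kap r) T g),
      T_two h0 (show chT (kap r) T g ∈ Wn J 1 from nsmul_mem hP.t0.1 _), zero_add]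
  · exact b5 l h1 h3

end Pool.Agent.MP_e23604_nt.R

end

section

set_option autoImplicit false

open Module Filter Topology Finset
open scoped Classical

namespace Pool.Agent.MP_e23604_nt.R

open B
open Q (Wn dig CmI Cm0 Pre A1 Eta Jm scf St Cork Fg IdxQ basQ levQ)

section aux

variable {A : Type} [AddCommGroup A] {J : A ≃ₗ[ℤ] A}

/-- the sign of an element of the first level -/
noncomputable def sg_LIF0 (u : A) : Qb := if u = 0 then 1 else -1

theorem sg_ne_LIF0 (u : A) : sg_LIF0 u ≠ 0 := by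
  unfold sg_LIF0; split_ifs <;> simp

theorem sg_sq_LIF0 (u : A) : sg_LIF0 u ^ 2 = 1 := by
  unfold sg_LIF0; split_ifs <;> simp

theorem sg_gal_LIF0 (g : GQ) (u : A) : g (sg_LIF0 u) = sg_LIF0 u := by
  unfold sg_LIF0; split_ifs <;> simp

theorem sg_add_LIF0 (h : Cm0 J) {u v : A} (hu : u ∈ Wn J 1) (hv : v ∈ Wn J 1) :
    sg_LIF0 (u + v) = sg_LIF0 u * sg_LIF0 v := by
  by_cases h1 : u = 0
  · simp [h1, sg_LIF0]
  by_cases h2 : v = 0
  · simp [h2, sg_LIF0]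
  have e : v = u := (W_one h ⟨hu, h1⟩ hv).resolve_left h2
  simp [e, T_two h hu, sg_LIF0, h1]

theorem sg_inj_LIF0 (h : Cm0 J) {u v : A} (hu : u ∈ Wn J 1) (hv : v ∈ Wn J 1)
    (e : sg_LIF0 u = sg_LIF0 v) : u = v := by
  have n1 : (1 : Qb) ≠ -1 := by norm_num
  by_cases h1 : u = 0 <;> by_cases h2 : v = 0
  · rw [h1, h2]
  · rw [sg_LIF0, sg_LIF0, if_pos h1, if_neg h2] at e; exact absurd e n1
  · rw [sg_LIF0, sg_LIF0, if_neg h1, if_pos h2] at e; exact absurd e.symm n1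
  · exact (W_one h ⟨hv, h2⟩ hu).resolve_left h1

theorem w1_LIF0 (h : Cm0 J) {u : A} (hu : wo J u = 0) : u ∈ Wn J 1 :=
  (W_om h (n := 0)).1 ((W_zero h).2 hu)

/-- the defect of a cochain -/
noncomputable def df_LIF0 (η : Act A) (x : GQ → A) (g h : GQ) : A := x g + η g (x h) - x (g * h)

theorem cob_LIF0 (h : Cm0 J) {η : Act A} (hη : ∀ g, Pre J (η g)) {x y : GQ → A} {H : Subgroup GQ}
    (hd : ∀ g j, df_LIF0 η x g j ∈ Wn J 1) (hx : Lc H x) (hy : Lc H y)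
    (hc : ∀ g ∈ H, ∀ j ∈ H, y (g * j) = y g + η g (y j))
    (hw : ∀ g ∈ H, wo J (y g) = wo J (x g)) : Cob H fun g j => sg_LIF0 (df_LIF0 η x g j) := by
  have hb : ∀ g ∈ H, x g - y g ∈ Wn J 1 := fun g hg =>
    w1_LIF0 h (by rw [map_sub, hw g hg, sub_self])
  refine cob_of_lc (β := fun g => sg_LIF0 (x g - y g)) (hx.map₂ hy fun a b => sg_LIF0 (a - b))
    (fun g _ => sg_ne_LIF0 _) fun g hg j hj => ?_
  simp only [sg_gal_LIF0]
  rw [← sg_add_LIF0 h (hb g hg) (hb j hj), ← sg_add_LIF0 h (hd g j) (hb _ (mul_mem hg hj)),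
    ← T_fix h (hη g) (hb j hj), hc g hg j hj, df_LIF0, map_sub]
  congr 1
  abel

end aux

theorem LIF0_pf (hAQ : AQ_st) (hLEV : LEV_st) (hHOMQ : HOMQ_st) : LIF0_st := by
  intro A _ J η n cc T hP K ζ l₀ qq Q φ τ hQ η' m hη' htw hm ξ' hξ
  obtain ⟨hz, hu, h2, hcc, hn⟩ := hξ
  have h0 : Cm0 J := hP.cm.toCm0
  have hη := hP.ga
  choose sec hsec using hP.cm.surj
  have hsec' : ∀ y, wo J (sec y) = y := hsec
  set x : GQ → A := fun g => sec (ξ' g) with hx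
  have hwx : ∀ g, wo J (x g) = ξ' g := fun g => hsec' _
  have hxm : ∀ g, x g ∈ Wn J (m + 1) := fun g => (W_om h0).1 (by rw [hwx]; exact hz.lev g)
  have hxl : Lc ⊤ x := hz.lc.map sec
  have hd : ∀ g j, df_LIF0 η x g j ∈ Wn J 1 := fun g j => w1_LIF0 h0 (by
    rw [df_LIF0, map_sub, map_add, htw, hwx, hwx, hwx, hz.coc, sub_self])
  obtain ⟨N1, hN1, e1⟩ := hLEV A J η' n m {ξ'} hP.cm hη' (Set.finite_singleton _)
    (fun _ h => h ▸ hz)
  obtain ⟨N2, hN2, e2⟩ := hLEV A J η n (m + 1) ∅ hP.cm hη Set.finite_empty (fun _ h => h.elim)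
  have hN := hN1.inf hN2
  have k1 : ∀ g j, g⁻¹ * j ∈ N1 ⊓ N2 → x g = x j := fun g j e => by
    have a1 := hz.coc g (g⁻¹ * j)
    rw [mul_inv_cancel_left, ((e1 _).1 e.1).2 ξ' rfl, map_zero, add_zero] at a1
    simp only [hx, a1]
  have k2 : ∀ g j, g⁻¹ * j ∈ N1 ⊓ N2 → ∀ u ∈ Wn J (m + 1), η g u = η j u := fun g j e u hu => by
    have a1 := act_mul η g (g⁻¹ * j) u
    rw [mul_inv_cancel_left, ((e2 _).1 e.2).1 u hu] at a1
    exact a1.symm
  have loc : ∀ H, InL η' H ξ' → Cob H fun g j => sg_LIF0 (df_LIF0 η x g j) := by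
    rintro H ⟨R', hR⟩
    refine cob_LIF0 h0 hη.pre (y := dd η (sec R')) hd (hxl.mono le_top)
      (((hη.opn _).map (· - sec R')).mono le_top) (fun g _ j _ => dd_coc η _ g j) fun g hg => ?_
    rw [hwx, hR g hg, dd, dd, map_sub, htw, hsec']
  obtain ⟨β, b1, b2, b3⟩ := hAQ (N1 ⊓ N2) (fun g j => sg_LIF0 (df_LIF0 η x g j)) cc hN
    (fun g _ i _ j _ => by
      simp only [sg_gal_LIF0]
      rw [← sg_add_LIF0 h0 (hd _ _) (hd _ _), ← sg_add_LIF0 h0 (hd _ _) (hd _ _),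
        ← T_fix h0 (hη.pre g) (hd i j)]
      congr 1
      simp only [df_LIF0, map_sub, map_add, act_mul, mul_assoc]
      abel)
    ⟨fun g _ i _ j _ e => by
      have a1 : (g * i)⁻¹ * (g * j) ∈ N1 ⊓ N2 := by
        rwa [mul_inv_rev, mul_assoc, inv_mul_cancel_left]
      simp only [df_LIF0, k1 i j e, k1 _ _ a1],
     fun j _ g _ i _ e => by
      have a1 : (g * j)⁻¹ * (i * j) ∈ N1 ⊓ N2 := by
        have a2 := hN.1.1.conj_mem _ e j⁻¹
        rwa [inv_inv, mul_assoc, mul_assoc, ← mul_assoc j⁻¹, ← mul_inv_rev] at a2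
      simp only [df_LIF0, k1 g i e, k1 _ _ a1, k2 g i e _ (hxm j)],
     fun g _ j _ => ⟨sg_ne_LIF0 _, fun s _ => sg_gal_LIF0 s _⟩⟩
    (fun g j => sg_sq_LIF0 _) hP.cc (loc _ hcc) (by
      intro l _
      by_cases c1 : l = 2
      · subst c1; exact Or.inl (loc _ h2)
      by_cases c2 : l ∣ n
      · exact Or.inl (loc _ (hn l c2))
      by_cases c3 : l ∈ Q
      · left
        obtain ⟨-, q2, q3⟩ := hHOMQ K ζ l 1 (φ l) (τ l) A hQ.zeta (hQ.tq l c3)
        have t1 : ∀ u ∈ Wn J (m + 1), 2 ^ (K + 1) • u = 0 := fun u hu =>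
          (W_tor h0 (K + 1)).1 (W_mono h0 (by omega) hu)
        have t2 : ∀ g ∈ Dec (nv l 1), ∀ u ∈ Wn J (m + 1), η g u = u := fun g hg u hu =>
          hQ.triv l c3 g hg u (W_mono h0 (by omega) hu)
        obtain ⟨a, a1, a2, a3, a4, a5⟩ := q2 _ _ (t1 _ (hxm (φ l))) (t1 _ (hxm (τ l)))
        have a6 : ∀ g, a g ∈ Wn J (m + 1) := fun g => by
          obtain ⟨i, j, e⟩ := a5 g
          rw [e]
          exact add_mem (nsmul_mem (hxm _) _) (nsmul_mem (hxm _) _)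
        refine cob_LIF0 h0 hη.pre hd (hxl.mono le_top) a2
          (fun g hg j hj => by rw [a1 g hg j hj, t2 g hg _ (a6 j)]) fun g hg => ?_
        refine sub_eq_zero.1 (q3 (fun g => wo J (a g) - wo J (x g)) (K + 1) (fun g hg j hj => ?_)
          (a2.map₂ (hxl.mono le_top) fun s t => wo J s - wo J t) (fun g _ => ?_)
          (by simp only [a3, sub_self]) (by simp only [a4, sub_self]) g hg)
        · have a7 : wo J (x (g * j)) = wo J (x g) + wo J (x j) := by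
            rw [hwx, hz.coc, ← hwx j, ← htw, t2 g hg _ (hxm j), hwx g]
          simp only [a1 g hg j hj, a7, map_add]
          abel
        · rw [← map_sub, ← map_nsmul, t1 _ (sub_mem (a6 g) (hxm g)), map_zero]
      · exact Or.inr ⟨c1, fun γ s hs => ⟨(e1 s).2 ⟨hη'.unr l γ c1 c2 s hs m,
          fun _ h => h ▸ hu l γ c1 c2 c3 s hs⟩,
          (e2 s).2 ⟨hη.unr l γ c1 c2 s hs _, fun _ h => h.elim⟩⟩⟩)
  let t : GQ → A := fun g => if β g = 1 then 0 else T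
  have t1 : ∀ g, t g ∈ Wn J 1 := fun g => by
    simp only [t]; split_ifs
    · exact zero_mem _
    · exact hP.t0.1
  have t2 : ∀ g, sg_LIF0 (t g) = β g := fun g => by
    simp only [t]; split_ifs with c
    · rw [c, sg_LIF0, if_pos rfl]
    · rw [sg_LIF0, if_neg hP.t0.2, (sq_eq_one_iff.1 (b2 g)).resolve_left c]
  have t3 : ∀ g j, t g + t j = df_LIF0 η x g j + t (g * j) := fun g j => by
    refine sg_inj_LIF0 h0 (add_mem (t1 g) (t1 j)) (add_mem (hd g j) (t1 _)) ?_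
    have a1 := b3 g trivial j trivial
    rw [← t2 j, sg_gal_LIF0, ← t2 g, ← t2 (g * j)] at a1
    rw [sg_add_LIF0 h0 (t1 g) (t1 j), sg_add_LIF0 h0 (hd g j) (t1 _), a1]
  refine ⟨fun g => x g - t g, ⟨hxl.map₂ b1 fun u b => u - if b = 1 then 0 else T, fun g j => ?_,
    fun g => sub_mem (hxm g) (W_mono h0 (by omega) (t1 g))⟩, fun g => ?_⟩
  · have a1 := t3 g j
    rw [df_LIF0] at a1
    rw [map_sub, T_fix h0 (hη.pre g) (t1 j), eq_sub_of_add_eq' a1.symm]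
    abel
  · rw [map_sub, hwx, (W_zero h0).1 ((W_om h0 (n := 0)).2 (t1 g)), sub_zero]

end Pool.Agent.MP_e23604_nt.R

end

section

set_option autoImplicit false

open Module Filter Topology Finset
open scoped Classical

namespace Pool.Agent.MP_e23604_nt.R

open B
open Q (Wn dig CmI Cm0 Pre A1 Eta Jm scf St Cork Fg IdxQ basQ levQ)

section

variable {A : Type} [AddCommGroup A] {J : A ≃ₗ[ℤ] A} {η : Act A}

/-- cocycles with values in the first level are characters -/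
theorem chr_ELIFT (h : Cm0 J) (hη : ∀ g, Pre J (η g)) {H : Subgroup GQ} {c : GQ → A}
    (h1 : Lc ⊤ c) (h2 : ∀ g j, c (g * j) = c g + η g (c j)) (h3 : ∀ g ∈ H, c g ∈ Wn J 1) :
    Adt H (fun g => dig J 0 (c g)) ∧ Lc H fun g => dig J 0 (c g) := by
  refine ⟨fun g hg j hj => ?_, (h1.map (dig J 0)).mono le_top⟩
  simp only [h2, T_fix h (hη g) (h3 j hj)]
  exact (basQ A J h).2.2.2.2.2.1 0 _ (h3 g hg) _ (h3 j hj)

/-- a lift of a local coboundary is a coboundary up to a character -/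
theorem loc_ELIFT (h : CmI J) {n m : ℕ} (hη : Ga J n η) {T : A} (hT : T ∈ Wn J 1 ∧ T ≠ 0)
    {η' : Act A} (tw : ∀ g u, wo J (η g u) = η' g (wo J u)) {ξ ξ' : GQ → A} (hξ : Zc J η m ξ)
    (hw : ∀ g, wo J (ξ g) = ξ' g) {H : Subgroup GQ} (hH : InL η' H ξ') :
    ∃ χ : GQ → ZMod 2, Adt H χ ∧ Lc H χ ∧ InL η H (ξ + chT χ T) := by
  obtain ⟨R', hR⟩ := hH
  obtain ⟨R, rfl⟩ := h.surj R'
  have h3 : ∀ g ∈ H, ξ g - dd η R g ∈ Wn J 1 := fun g hg => by
    rw [← W_om h.toCm0, W_zero h.toCm0, map_sub, hw, hR g hg, dd, dd, map_sub, tw, sub_self]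
  obtain ⟨a, b⟩ := chr_ELIFT h.toCm0 hη.pre (H := H) (c := fun g => ξ g - dd η R g)
    (hξ.lc.map₂ (hη.opn R) fun x y => x - (y - R))
    (fun g j => by simp only [hξ.coc, dd_coc, map_sub]; abel) h3
  refine ⟨_, a, b, R, fun g hg => ?_⟩
  have e := T_two h.toCm0 (h3 g hg)
  rw [Pi.add_apply, chT_dig h.toCm0 hT (ξ := fun g => ξ g - dd η R g) (h3 g hg), ← sub_eq_zero,
    ← e]
  abel

theorem wo_ELIFT (h : Cm0 J) {T : A} (hT : T ∈ Wn J 1) (ξ : GQ → A) (χ : GQ → ZMod 2) (g : GQ) :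
    wo J ((ξ + chT χ T) g) = wo J (ξ g) := by
  rw [Pi.add_apply, map_add, add_eq_left, ← W_zero h, W_om h]
  exact nsmul_mem hT _

theorem zc_ELIFT (hKAP : KAP_st) (h : Cm0 J) (hη : ∀ g, Pre J (η g)) {T : A} (hT : T ∈ Wn J 1)
    {m : ℕ} {ξ : GQ → A} (hξ : Zc J η (m + 1) ξ) (r : ℚ) :
    Zc J η (m + 1) (ξ + chT (kap r) T) :=
  hξ.add ((chT_zc h hη hT (hKAP.1 r).1 (hKAP.1 r).2).mono h (Nat.le_add_left 1 m))

theorem congr_ELIFT {H : Subgroup GQ} {ξ : GQ → A} {T : A} {χ χ' : GQ → ZMod 2}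
    (h : InL η H (ξ + chT χ T)) (e : ∀ g ∈ H, χ' g = χ g) : InL η H (ξ + chT χ' T) :=
  h.congr fun g hg => by simp only [Pi.add_apply, chT, e g hg]

end

theorem val_ELIFT (F : Finset ℕ) (hF : ∀ q ∈ F, q.Prime) (l : ℕ) [hl : Fact l.Prime] :
    (∏ q ∈ F, (q : ℚ)) ≠ 0 ∧ padicValRat l (∏ q ∈ F, (q : ℚ)) = if l ∈ F then 1 else 0 := by
  induction F using Finset.induction_on with
  | empty => simp
  | insert a F ha ih =>
    obtain ⟨h1, h2⟩ := ih fun q hq => hF q (mem_insert_of_mem hq)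
    have pa := hF a (mem_insert_self a F)
    have h0 : (a : ℚ) ≠ 0 := Nat.cast_ne_zero.2 pa.ne_zero
    rw [prod_insert ha]
    refine ⟨mul_ne_zero h0 h1, ?_⟩
    rw [padicValRat.mul h0 h1, h2, padicValRat.of_nat]
    by_cases e : l = a
    · subst e
      simp [ha]
    · have : Fact a.Prime := ⟨pa⟩
      simp [padicValNat_primes e, e]

theorem pw_ELIFT {c g : GQ} (hc : c * c = 1) (hg : g ∈ Subgroup.zpowers c) : g = 1 ∨ g = c := by
  obtain ⟨k, rfl⟩ := Subgroup.mem_zpowers_iff.1 hg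
  have h2 : ∀ i : ℤ, c ^ (2 * i) = 1 := fun i => by rw [zpow_mul, zpow_two, hc, one_zpow]
  obtain ⟨i, rfl | rfl⟩ := Int.even_or_odd' k
  · exact Or.inl (h2 i)
  · exact Or.inr (by rw [zpow_add, h2, one_mul, zpow_one])

theorem one_ELIFT {H : Subgroup GQ} {χ : GQ → ZMod 2} (h : Adt H χ) : χ 1 = 0 := by
  have := h 1 H.one_mem 1 H.one_mem
  rw [mul_one] at this
  exact left_eq_add.1 this

/-- a ramified character of the inertia group -/
theorem tam_ELIFT (hKAP : KAP_st) (hTAM : TAM_st) {l : ℕ} [Fact l.Prime] (h2 : l ≠ 2)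
    {χ : GQ → ZMod 2} (ha : Adt (Ine l 1) χ) (hc : Lc (Ine l 1) χ) (h : ∃ τ ∈ Ine l 1, χ τ ≠ 0) :
    ∀ τ ∈ Ine l 1, χ τ + kap l τ = 0 := by
  obtain ⟨⟨τ₀, h3, h4⟩, h5⟩ := hTAM l 1 h2
  have t2 : ∀ a : ZMod 2, 2 ^ 1 • a = 0 := by decide
  have h6 : χ τ₀ = 1 := by
    rcases z2 (χ τ₀) with e | e
    · obtain ⟨τ, hτ, hne⟩ := h
      exact absurd (h5 τ₀ h3 h4 _ χ 1 ha hc (fun _ _ => t2 _) e τ hτ) hne
    · exact e
  refine h5 τ₀ h3 h4 _ (fun g => χ g + kap l g) 1 (fun g hg j hj => ?_)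
    (hc.map₂ ((hKAP.1 l).2.mono le_top) (· + ·)) (fun _ _ => t2 _) (by rw [h6, h4]; rfl)
  simp only [ha g hg j hj, (hKAP.1 l).1 g trivial j trivial]
  abel

section

variable {A : Type} [AddCommGroup A] {J : A ≃ₗ[ℤ] A} {η : Act A}

/-- removal of the ramification -/
theorem ram_ELIFT (hFINR : FINR_st) (hKAP : KAP_st) (hTAM : TAM_st) (h : Cm0 J) {n m : ℕ}
    (hη : Ga J n η) {T : A} (hT : T ∈ Wn J 1 ∧ T ≠ 0) {Q : Finset ℕ} {ξ ξ' : GQ → A}
    (hξ : Zc J η (m + 1) ξ) (hw : ∀ g, wo J (ξ g) = ξ' g) (hu : UnrO n Q ξ') :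
    ∃ r : ℚ, UnrO n Q (ξ + chT (kap r) T) := by
  obtain ⟨N, hN, hc⟩ := hξ.lc
  have hf : {l : ℕ | ∃ _ : Fact l.Prime, ∃ τ ∈ Ine l 1, ξ τ ≠ 0}.Finite := by
    refine (hFINR N hN).subset ?_
    rintro l ⟨hl, τ, hτ, hne⟩
    refine ⟨hl, fun hle => hne ?_⟩
    rw [← hc 1 trivial τ trivial (by simpa using hle hτ), hξ.one]
  have hp : ∀ q ∈ hf.toFinset, q.Prime := fun q hq => (hf.mem_toFinset.1 hq).1.out
  refine ⟨∏ q ∈ hf.toFinset, (q : ℚ), fun l hl γ h1 h2 h3 => ?_⟩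
  refine unr_conj (zc_ELIFT hKAP h hη.pre hT.1 hξ _)
    (fun τ hτ => hη.unr l 1 h1 h2 τ hτ _) (fun τ hτ => ?_) γ
  have h4 : ∀ g ∈ Ine l 1, ξ g ∈ Wn J 1 := fun g hg => by
    rw [← W_om h, W_zero h, hw, hu l 1 h1 h2 h3 g hg]
  obtain ⟨a, b⟩ := chr_ELIFT h hη.pre hξ.lc hξ.coc h4
  obtain ⟨v0, v1⟩ := val_ELIFT _ hp l
  have h5 := hKAP.2.2.2.2.2.1 l 1 _ h1 v0 τ hτ
  rw [v1] at h5
  rw [Pi.add_apply, ← chT_dig h hT (h4 τ hτ), ← Pi.add_apply (chT _ T), ← chT_add h hT.1,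
    chT_eq_zero hT.2, Pi.add_apply, h5]
  split_ifs with e
  · obtain ⟨_, σ, hσ, hne⟩ := hf.mem_toFinset.1 e
    rw [Int.cast_one, one_mul]
    refine tam_ELIFT hKAP hTAM h1 a b ⟨σ, hσ, fun e' => hne ?_⟩ τ hτ
    rw [← chT_dig h hT (h4 σ hσ), chT_eq_zero hT.2]
    exact e'
  · have h6 : ξ τ = 0 := by
      by_contra hne
      exact e (hf.mem_toFinset.2 ⟨hl, τ, hτ, hne⟩)
    simp [h6, dig]

end

/-- a global character with given components at two and infinity -/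
theorem two_ELIFT (hKUM : KUM_st) (hKAP : KAP_st) (hDIC : DIC_st) {n : ℕ} (hn : Odd n)
    (h8 : G8 n) {cc : GQ} (hcc : CC cc) {χ χ' : GQ → ZMod 2} (h1 : Adt (Dec (nv 2 1)) χ)
    (h2 : Lc (Dec (nv 2 1)) χ) (h3 : Adt (Subgroup.zpowers cc) χ') :
    ∃ r : ℚ, (∀ g ∈ Dec (nv 2 1), kap r g = χ g) ∧ (∀ g ∈ Subgroup.zpowers cc, kap r g = χ' g) ∧
      UnrO n ∅ (kap r) := by
  obtain ⟨r, hr, e1⟩ := hKUM.2.1 2 1 χ h1 h2
  obtain ⟨j, u, hu, e2⟩ := hKUM.2.2.1 1 r hr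
  have hn0 : n ≠ 0 := by rintro rfl; simp at hn
  obtain ⟨d, d8, dn, dc⟩ : ∃ d : ℤ, d % 8 = u % 8 ∧ d.natAbs ∣ n ∧
      χ' cc = if d < 0 then 1 else 0 := by
    rcases z2 (χ' cc) with e | e
    · obtain ⟨m, hm, hm'⟩ := h8 u hu
      exact ⟨m, by omega, by simpa using hm, by rw [e, if_neg (by omega)]⟩
    · obtain ⟨m, hm, hm'⟩ := h8 (7 * u) (Odd.mul (by decide) hu)
      have : m ≠ 0 := by rintro rfl; exact hn0 (Nat.eq_zero_of_zero_dvd hm)
      exact ⟨-m, by omega, by simpa using hm, by rw [e, if_pos (by omega)]⟩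
  have d0 : d ≠ 0 := by
    rintro rfl
    exact hn0 (Nat.eq_zero_of_zero_dvd dn)
  refine ⟨2 ^ j * d, fun g hg => by rw [e1 g hg, e2 d d8 g hg], fun g hg => ?_,
    fun l hl γ a b _ τ hτ => ?_⟩
  · rcases pw_ELIFT (hDIC.2.2.2.2 cc hcc).1 hg with rfl | rfl
    · rw [one_ELIFT h3, one_ELIFT (hKAP.1 _).1]
    · rw [hKAP.2.2.2.2.1 _ _ hcc, dc]
      have hp : (0 : ℚ) < 2 ^ j := by positivity
      simp only [mul_neg_iff, hp, hp.not_gt, true_and, false_and, or_false, Int.cast_lt_zero]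
  · have h0 : (2 : ℚ) ^ j * d ≠ 0 := mul_ne_zero (by positivity) (Int.cast_ne_zero.2 d0)
    have hv : padicValRat l ((2 : ℚ) ^ j * d) = 0 := by
      have e : (2 : ℚ) ^ j * d = ((2 ^ j * d : ℤ) : ℚ) := by push_cast; rfl
      rw [e, padicValRat.of_int, padicValInt.eq_zero_of_not_dvd, Nat.cast_zero]
      rw [Int.natCast_dvd, Int.natAbs_mul, Int.natAbs_pow, hl.out.dvd_mul]
      rintro (c | c)
      · exact a ((Nat.prime_dvd_prime_iff_eq hl.out Nat.prime_two).1 (hl.out.dvd_of_dvd_pow c))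
      · exact b (c.trans dn)
    rw [hKAP.2.2.2.2.2.1 l γ _ a h0 τ hτ, hv, Int.cast_zero, zero_mul]

theorem LIFT_pf (hLIF0 : LIF0_st) (hFINR : FINR_st) (hKUM : KUM_st) (hKAP : KAP_st) (hTAM : TAM_st) (hCOR : COR_st) (hDIC : DIC_st) : LIFT_st := by
  intro A _ J η n cc T hP K ζ l₀ qq Q φ τ hQ η' m hη' tw hm ξ' hξ'
  obtain ⟨ξ₀, z0, w0⟩ := hLIF0 A J η n cc T hP K ζ l₀ qq Q φ τ hQ η' m hη' tw hm ξ' hξ'
  obtain ⟨-, s1, s2, s3, s4⟩ := hξ'
  have h := hP.cm.toCm0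
  obtain ⟨r₁, u1⟩ := ram_ELIFT hFINR hKAP hTAM h hP.ga hP.t0 z0 w0 s1
  have z1 := zc_ELIFT hKAP h hP.ga.pre hP.t0.1 z0 r₁
  have w1 : ∀ g, wo J ((ξ₀ + chT (kap r₁) T) g) = ξ' g := fun g => by
    rw [wo_ELIFT h hP.t0.1, w0]
  obtain ⟨χ, a1, a2, a3⟩ := loc_ELIFT hP.cm hP.ga hP.t0 tw z1 w1 s2
  obtain ⟨χ', b1, -, b3⟩ := loc_ELIFT hP.cm hP.ga hP.t0 tw z1 w1 s3
  obtain ⟨r₂, c1, c2, c3⟩ := two_ELIFT hKUM hKAP hDIC hP.odd hP.g8 hP.cc a1 a2 b1
  have z2 := zc_ELIFT hKAP h hP.ga.pre hP.t0.1 z1 r₂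
  have w2 : ∀ g, wo J ((ξ₀ + chT (kap r₁) T + chT (kap r₂) T) g) = ξ' g := fun g => by
    rw [wo_ELIFT h hP.t0.1, w1]
  obtain ⟨Q', -, hs⟩ := hCOR A J η n cc T hP K ζ l₀ qq Q φ τ hQ (m + 1) _ (Nat.le_add_left 1 m)
    hm z2 (fun l _ γ e1 e2 e3 σ hσ => by
      rw [Pi.add_apply, u1 l γ e1 e2 e3 σ hσ, zero_add, chT_eq_zero hP.t0.2]
      exact c3 l γ e1 e2 (notMem_empty l) σ hσ)
    (congr_ELIFT a3 c1) (congr_ELIFT b3 c2)
    fun l _ hl => loc_ELIFT hP.cm hP.ga hP.t0 tw z2 w2 (s4 l hl)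
  exact ⟨_, hs, fun g => by rw [wo_ELIFT h hP.t0.1, w2]⟩

end Pool.Agent.MP_e23604_nt.R

end

section

set_option autoImplicit false

open Module Filter Topology Finset
open scoped Classical

namespace Pool.Agent.MP_e23604_nt.R

open B
open Q (Wn dig CmI Cm0 Pre A1 Eta Jm scf St Cork Fg IdxQ basQ levQ)

theorem one_KER1 (hKAP : KAP_st) (g : GQ) : kap 1 g = 0 := by
  simpa using hKAP.2.2.2.1 1 g

theorem pow_KER1 (hKAP : KAP_st) {r : ℚ} (hr : r ≠ 0) (k : ℕ) (g : GQ) :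
    kap (r ^ k) g = k * kap r g := by
  induction k with
  | zero => rw [pow_zero, one_KER1 hKAP, Nat.cast_zero, zero_mul]
  | succ k ih => rw [pow_succ, hKAP.2.2.1 _ _ _ (pow_ne_zero _ hr) hr, ih, Nat.cast_succ]; ring

theorem prod_KER1 (hKAP : KAP_st) (P : Finset ℕ) (hP : ∀ l ∈ P, l ≠ 0) (g : GQ) :
    kap (∏ l ∈ P, (l : ℚ)) g = ∑ l ∈ P, kap l g := by
  induction P using Finset.induction_on with
  | empty => rw [prod_empty, sum_empty, one_KER1 hKAP]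
  | insert a s ha ih =>
    have h1 : ∀ l ∈ s, l ≠ 0 := fun l hl => hP l (mem_insert_of_mem hl)
    rw [prod_insert ha, sum_insert ha, hKAP.2.2.1 _ _ _
      (Nat.cast_ne_zero.2 (hP a (mem_insert_self _ _)))
      (prod_ne_zero_iff.2 fun l hl => Nat.cast_ne_zero.2 (h1 l hl)), ih h1]

theorem ine_KER1 (hKAP : KAP_st) {l : ℕ} [Fact l.Prime] (h2 : l ≠ 2) {τ : GQ} (hτ : τ ∈ Ine l 1) :
    kap (-1) τ = 0 ∧ kap 2 τ = 0 ∧ ∀ l' : ℕ, l'.Prime → l' ≠ l → kap l' τ = 0 := by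
  have key : ∀ l' : ℕ, l'.Prime → l' ≠ l → kap l' τ = 0 := fun l' h hne => by
    have := Fact.mk h
    rw [hKAP.2.2.2.2.2.1 l 1 l' h2 (Nat.cast_ne_zero.2 h.ne_zero) τ hτ, padicValRat.of_nat,
      padicValNat_primes hne.symm]
    simp
  refine ⟨?_, by simpa using key 2 Nat.prime_two h2.symm, key⟩
  rw [hKAP.2.2.2.2.2.1 l 1 (-1) h2 (by norm_num) τ hτ, padicValRat.neg, padicValRat.one]
  simp

theorem g8_KER1 {n : ℕ} (hg : G8 n) {c u : ℕ} (hc : c * c % 8 = 1) (hu : Odd u)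
    (h1 : u % 8 ≠ 1) (h2 : u % 8 ≠ c) (hc8 : c < 8)
    (h : ∀ l : ℕ, l.Prime → l ∣ n → l % 8 = 1 ∨ l % 8 = c) (hn : n ≠ 0) : False := by
  obtain ⟨m, hm, e⟩ := hg u hu
  have key : ∀ k : ℕ, k ∣ n → k % 8 = 1 ∨ k % 8 = c := fun k => by
    induction k using induction_on_primes with
    | zero => exact fun hk => absurd (zero_dvd_iff.1 hk) hn
    | one => exact fun _ => Or.inl rfl
    | prime_mul p a hp ih =>
      intro hk
      rw [Nat.mul_mod]
      rcases h p hp ((dvd_mul_right _ _).trans hk) with e1 | e1 <;>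
        rcases ih ((dvd_mul_left _ _).trans hk) with e2 | e2 <;> rw [e1, e2]
      · exact Or.inl rfl
      · exact Or.inr (by rw [one_mul, Nat.mod_eq_of_lt hc8])
      · exact Or.inr (by rw [mul_one, Nat.mod_eq_of_lt hc8])
      · exact Or.inl hc
  rw [← e] at h1 h2
  exact (key m hm).elim h1 h2

theorem key_KER1 (hUPB : UPB_st) (hKUM : KUM_st) (hKAP : KAP_st) (hFRO : FRO_st)
    (hHOMQ : HOMQ_st) {A : Type} [AddCommGroup A] {J : A ≃ₗ[ℤ] A} {η : Act A} {n : ℕ} {cc : GQ}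
    {T : A} (hP : P1 J η n cc T) {K : ℕ} {ζ : Qb} {l₀ : ℕ} [Fact l₀.Prime] {qq : ℕ → ℕ}
    {Q : Finset ℕ} {φ τ : ℕ → GQ} (hQ : Qs J η n K ζ l₀ qq Q φ τ) {ξ : GQ → A}
    (hξ : ξ ∈ Sq J η n cc Q 1) (hr : ∀ q ∈ Q, ξ (φ q) = 0 ∧ ξ (τ q) = 0) {t : GQ}
    (ht : t ∈ Ine l₀ 1) (ht1 : kap l₀ t = 1) (ht0 : ξ t = 0) : ξ = 0 := by
  obtain ⟨h1, h2, -, -, h5⟩ := hξ
  have hc := hP.cm.toCm0
  have hn : n ≠ 0 := hP.sf.ne_zero
  have hodd : ∀ l : ℕ, l ∣ n → l ≠ 2 := fun l hl e =>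
    (Nat.not_even_iff_odd.2 hP.odd) (even_iff_two_dvd.2 (e ▸ hl))
  set χ : GQ → ZMod 2 := fun g => dig J 0 (ξ g) with hχ
  have e1 : chT χ T = ξ := funext fun g => chT_dig hc hP.t0 (h1.lev g)
  have e2 : ∀ g, χ g = 0 ↔ ξ g = 0 := fun g => by rw [← chT_eq_zero hP.t0.2, e1]
  have ad : ∀ g j, ξ (g * j) = ξ g + ξ j := fun g j => by
    rw [h1.coc, T_fix hc (hP.ga.pre g) (h1.lev j)]
  have a1 : Adt ⊤ χ := fun g _ j _ => by
    have h6 := T_two hc hP.t0.1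
    have h7 := hP.t0.2
    simp only [hχ, ad]
    rcases W_one hc hP.t0 (h1.lev g) with e | e <;> rcases W_one hc hP.t0 (h1.lev j) with e' | e' <;>
      simp [e, e', dig, W_zero hc, h6, h7]
    rfl
  have a2 : Lc ⊤ χ := h1.lc.map _
  obtain ⟨i, j, P, p1, p2⟩ := hKUM.2.2.2 χ n.primeFactors a1 a2
    (fun l hl => Nat.prime_of_mem_primeFactors hl) fun l hl l2 ln σ hσ => by
      by_cases hq : l ∈ Q
      · exact (hHOMQ K ζ l 1 (φ l) (τ l) (ZMod 2) hQ.zeta (hQ.tq l hq)).2.2 χ 1 (a1.mono le_top)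
          (a2.mono le_top) (fun g _ => by
            generalize χ g = a
            revert a
            decide) ((e2 _).2 (hr l hq).1) ((e2 _).2 (hr l hq).2) σ (Ine_le l 1 hσ)
      · exact (e2 _).2 (h2 l 1 l2 (fun h => ln (Nat.mem_primeFactors.2 ⟨hl.out, h, hn⟩)) hq σ hσ)
  have pp : ∀ l ∈ P, l.Prime := fun l hl => Nat.prime_of_mem_primeFactors (p1 hl)
  have p3 : ∀ g, χ g = i * kap (-1) g + j * kap 2 g + ∑ l ∈ P, kap l g := fun g => by
    rw [p2, hKAP.2.2.1 _ _ _ (by positivity)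
      (prod_ne_zero_iff.2 fun l hl => Nat.cast_ne_zero.2 (pp l hl).ne_zero),
      hKAP.2.2.1 _ _ _ (by positivity) (by positivity), pow_KER1 hKAP (by norm_num),
      pow_KER1 hKAP two_ne_zero, prod_KER1 hKAP P fun l hl => (pp l hl).ne_zero]
  have p4 : l₀ ∉ P := fun h => by
    obtain ⟨b1, b2, b3⟩ := ine_KER1 hKAP (hodd l₀ (Nat.dvd_of_mem_primeFactors hQ.base)) ht
    have h6 := p3 t
    rw [(e2 t).2 ht0, b1, b2, mul_zero, mul_zero, zero_add, zero_add,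
      sum_eq_single_of_mem l₀ h fun l hl hne => b3 l (pp l hl) hne, ht1] at h6
    exact zero_ne_one h6
  have p5 : P = ∅ := eq_empty_of_forall_notMem fun l hl => by
    have hl' : l ∈ n.primeFactors.erase l₀ := mem_erase.2 ⟨fun e => p4 (e ▸ hl), p1 hl⟩
    have hq : qq l ∈ Q := hQ.img ▸ mem_image_of_mem qq hl'
    have := Fact.mk (hQ.pri _ hq).1
    have h6 := hQ.tq _ hq
    have h7 : qq l % 8 = 1 := by
      have h8 : 2 ^ 3 ∣ qq l - 1 := (pow_dvd_pow 2 (Nat.succ_le_succ hQ.two)).trans h6.dvd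
      have h9 := (hQ.pri _ hq).1.two_le
      omega
    obtain ⟨b1, b2⟩ := hKAP.2.2.2.2.2.2.2.2 (qq l) 1 (φ (qq l)) (hQ.pri _ hq).2.1 h6.fr
    have h8 := p3 (φ (qq l))
    rw [(e2 _).2 (hr _ hq).1, b1.2 (by omega), b2.2 (Or.inl h7), mul_zero, mul_zero, zero_add,
      zero_add, sum_eq_single_of_mem l hl fun l' hl2 hne => by
        rw [hQ.sym l hl' l' (p1 hl2),
          if_neg (not_or.2 ⟨hne, fun e : l' = l₀ => p4 (e ▸ hl2)⟩)],
      hQ.sym l hl' l (p1 hl), if_pos (Or.inl rfl)] at h8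
    exact zero_ne_one h8
  simp only [p5, sum_empty, add_zero] at p3
  have p6 : ∀ l : ℕ, l.Prime → l ∣ n → l % 2 = 1 ∧ ∃ x y : ZMod 2, (x = 0 ↔ l % 4 = 1) ∧
      (y = 0 ↔ l % 8 = 1 ∨ l % 8 = 7) ∧ i * x + j * y = 0 := fun l hl ln => by
    have := Fact.mk hl
    obtain ⟨f, hf⟩ := (hFRO l 1).1
    obtain ⟨b1, b2⟩ := hKAP.2.2.2.2.2.2.2.2 l 1 f (hodd l ln) hf
    refine ⟨hl.eq_two_or_odd.resolve_left (hodd l ln), _, _, b1, b2, ?_⟩
    rw [← p3]
    refine hUPB A J η n cc T hP l χ ln (a1.mono le_top) (a2.mono le_top) (fun σ hσ => ?_)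
      (e1 ▸ h5 l ln) f hf.1
    obtain ⟨c1, c2, -⟩ := ine_KER1 hKAP (hodd l ln) hσ
    rw [p3, c1, c2, mul_zero, mul_zero, add_zero]
  funext g
  refine (e2 g).1 ?_
  rw [p3]
  rcases z2 (i : ZMod 2) with hi | hi <;> rcases z2 (j : ZMod 2) with hj | hj <;>
    simp only [hi, hj, zero_mul, one_mul, zero_add, add_zero] at p6 ⊢
  · refine (g8_KER1 hP.g8 (c := 7) (u := 3) rfl (by decide) (by decide) (by decide) (by decide)
      (fun l hl ln => ?_) hn).elim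
    obtain ⟨-, x, y, -, b2, b3⟩ := p6 l hl ln
    exact b2.1 b3
  · refine (g8_KER1 hP.g8 (c := 5) (u := 3) rfl (by decide) (by decide) (by decide) (by decide)
      (fun l hl ln => ?_) hn).elim
    obtain ⟨-, x, y, b1, -, b3⟩ := p6 l hl ln
    have := b1.1 b3
    omega
  · refine (g8_KER1 hP.g8 (c := 3) (u := 5) rfl (by decide) (by decide) (by decide) (by decide)
      (fun l hl ln => ?_) hn).elim
    obtain ⟨b0, x, y, b1, b2, b3⟩ := p6 l hl ln
    have b4 : x = 0 ↔ y = 0 := by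
      revert b3
      generalize x = x, y = y
      revert x y
      decide
    have b5 := b1.symm.trans (b4.trans b2)
    omega

theorem KER1_pf (hUPB : UPB_st) (hKUM : KUM_st) (hKAP : KAP_st) (hTAM : TAM_st) (hFRO : FRO_st) (hHOMQ : HOMQ_st) : KER1_st := by
  intro A _ J η n cc T hP K ζ l₀ qq Q φ τ hQ ξ hξ hr
  have hc := hP.cm.toCm0
  have := Fact.mk (Nat.prime_of_mem_primeFactors hQ.base)
  have hr' : ∀ q ∈ Q, ξ (φ q) = 0 ∧ ξ (τ q) = 0 := fun q hq =>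
    Prod.ext_iff.1 (congrFun hr ⟨q, hq⟩)
  obtain ⟨t, t1, t2, t3⟩ := hP.ga.tam l₀ (Nat.dvd_of_mem_primeFactors hQ.base)
  rcases W_one hc hP.t0 (hξ.1.lev t) with e | e
  · refine ⟨0, zero_mem _, ?_⟩
    rw [key_KER1 hUPB hKUM hKAP hFRO hHOMQ hP hQ hξ hr' t1 t2 e]
    funext g
    simp [dd]
  obtain ⟨T1, u1, u2⟩ := W_ex hP.cm 1
  have u3 : dd η T1 t = T := by
    have u4 : dd η T1 t = wo J T1 := by rw [dd, t3 _ _ u1, om_apply]
    rw [u4]
    exact (W_one hc hP.t0 ((W_om hc).2 u1)).resolve_left fun h =>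
      u2 ((W_om hc).1 ((W_zero hc).2 h))
  have u5 := key_KER1 hUPB hKUM hKAP hFRO hHOMQ hP hQ (add_mem hξ (dd_sq hc hP.ga cc Q u1))
    (fun q hq => by
      have := Fact.mk (hQ.pri q hq).1
      have u6 := W_mono hc (show 1 + 1 ≤ 2 * K + 1 by have := hQ.two; omega) u1
      have u7 := hQ.tq q hq
      simp only [Pi.add_apply, hr' q hq, dd, hQ.triv q hq _ u7.fr.1 _ u6,
        hQ.triv q hq _ (Ine_le q 1 u7.ine) _ u6, sub_self, add_zero, and_self])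
    t1 t2 (by rw [Pi.add_apply, e, u3, T_two hc hP.t0.1])
  refine ⟨-T1, neg_mem u1, funext fun g => ?_⟩
  have u8 := congrFun u5 g
  simp only [Pi.add_apply, dd, Pi.zero_apply] at u8
  rw [dd, map_neg, eq_neg_of_add_eq_zero_left u8]
  abel

end Pool.Agent.MP_e23604_nt.R

end

section

set_option autoImplicit false

open Module Filter Topology Finset
open scoped Classical

namespace Pool.Agent.MP_e23604_nt.R

open B
open Q (Wn dig CmI Cm0 Pre A1 Eta Jm scf St Cork Fg IdxQ basQ levQ)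

theorem one_QEX {a : GQ → ZMod 2} (h : Adt ⊤ a) : a 1 = 0 := by
  have := h 1 trivial 1 trivial
  rw [mul_one] at this
  exact left_eq_add.1 this

theorem inv_QEX {a : GQ → ZMod 2} (h : Adt ⊤ a) (g : GQ) : a g⁻¹ = -a g := by
  have := h g⁻¹ trivial g trivial
  rw [inv_mul_cancel, one_QEX h] at this
  exact eq_neg_of_add_eq_zero_left this.symm

theorem ker_QEX {a : GQ → ZMod 2} (h : Adt ⊤ a) (h' : Lc ⊤ a) :
    ∃ N, ON N ∧ ∀ g, g ∈ N ↔ a g = 0 := by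
  obtain ⟨M, h1, h2⟩ := h'
  let N : Subgroup GQ :=
    { carrier := {g | a g = 0}
      one_mem' := one_QEX h
      mul_mem' := fun {x y} hx hy => by
        have := h x trivial y trivial
        rw [show a x = 0 from hx, show a y = 0 from hy, add_zero] at this
        exact this
      inv_mem' := fun {x} hx => by
        have := inv_QEX h x
        rw [show a x = 0 from hx, neg_zero] at this
        exact this }
  refine ⟨N, ⟨⟨fun x hx g => ?_⟩, Subgroup.isOpen_mono (H₁ := M) (fun x hx => ?_) h1.2⟩,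
    fun _ => Iff.rfl⟩
  · show a _ = 0
    rw [h _ trivial _ trivial, h _ trivial _ trivial, inv_QEX h, show a x = 0 from hx]
    ring
  · have := h2 1 trivial x trivial (by simpa using hx)
    rw [one_QEX h] at this
    exact this.symm

theorem kers_QEX (hKAP : KAP_st) (S : Finset ℕ) :
    ∃ N, ON N ∧ ∀ g, g ∈ N ↔ ∀ l ∈ S, kap l g = 0 := by
  induction S using Finset.induction_on with
  | empty => exact ⟨⊤, ON.top, fun g => by simp⟩
  | insert l S _ ih =>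
    obtain ⟨N, h1, h2⟩ := ih
    obtain ⟨M, h3, h4⟩ := ker_QEX (hKAP.1 l).1 (hKAP.1 l).2
    exact ⟨M ⊓ N, h3.inf h1, fun g => by
      rw [Subgroup.mem_inf, h4, h2, Finset.forall_mem_insert]⟩

theorem stab_QEX {ζ : Qb} {k : ℕ} (hk : k ≠ 0) (h : IsPrimitiveRoot ζ k) :
    ∃ N, ON N ∧ ∀ g : GQ, g ∈ N ↔ g ζ = ζ := by
  have : NeZero k := ⟨hk⟩
  refine ⟨MulAction.stabilizer GQ ζ, ⟨⟨fun x hx g => ?_⟩,
    stabilizer_isOpen_of_isIntegral (K := ℚ) ζ⟩, fun _ => Iff.rfl⟩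
  have hx' : x ζ = ζ := hx
  obtain ⟨i, -, hi⟩ := h.eq_pow_of_pow_eq_one (ξ := g⁻¹ ζ)
    (by rw [← map_pow, h.pow_eq_one, map_one])
  show (g * x * g⁻¹) ζ = ζ
  rw [AlgEquiv.mul_apply, AlgEquiv.mul_apply, ← hi, map_pow, hx', hi, ← AlgEquiv.mul_apply,
    mul_inv_cancel, AlgEquiv.one_apply]

theorem ndvd_QEX {l k : ℕ} (hl : l.Prime) (h2 : l ≠ 2) : ¬ l ∣ 2 ^ k := fun h =>
  h2 ((Nat.prime_dvd_prime_iff_eq hl Nat.prime_two).1 (hl.dvd_of_dvd_pow h))

theorem fix_QEX (hFRO : FRO_st) {l k : ℕ} [Fact l.Prime] (h2 : l ≠ 2) {ζ : Qb}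
    (h : ζ ^ 2 ^ k = 1) {τ : GQ} (hτ : τ ∈ Ine l 1) : τ ζ = ζ := by
  obtain ⟨⟨φ, hφ⟩, h1⟩ := hFRO l 1
  have e1 := (h1 φ hφ).2.2.1 _ ζ (ndvd_QEX Fact.out h2) h
  have e2 := (h1 _ ((h1 φ hφ).2.1 τ hτ)).2.2.1 _ ζ (ndvd_QEX Fact.out h2) h
  rw [← e1, AlgEquiv.mul_apply] at e2
  exact φ.injective e2

theorem kap_QEX (hKAP : KAP_st) {l l' : ℕ} [Fact l.Prime] (h2 : l ≠ 2) (hl' : l'.Prime) {τ : GQ}
    (hτ : τ ∈ Ine l 1) (h1 : kap l τ = 1) : kap l' τ = if l' = l then 1 else 0 := by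
  split_ifs with e
  · rw [e, h1]
  · have : Fact l'.Prime := ⟨hl'⟩
    rw [hKAP.2.2.2.2.2.1 l 1 l' h2 (by exact_mod_cast hl'.ne_zero) τ hτ, padicValRat.of_nat,
      padicValNat_primes (Ne.symm e)]
    simp

theorem prime_QEX (hCHEB : CHEB_st) (hLEV : LEV_st) (hKAP : KAP_st) (hFRO : FRO_st)
    {A : Type} [AddCommGroup A] {J : A ≃ₗ[ℤ] A} {η : Act A} {n : ℕ} (hJ : CmI J) (hn : Odd n)
    (hη : Ga J n η) (M k : ℕ) {ζ : Qb} (hζ : IsPrimitiveRoot ζ (2 ^ k)) {l₀ l : ℕ}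
    (h₀ : l₀ ∈ n.primeFactors) (hl : l ∈ n.primeFactors.erase l₀) :
    ∃ q : ℕ, (q.Prime ∧ q ≠ 2 ∧ ¬ q ∣ n) ∧ 2 ^ k ∣ q - 1 ∧ ∀ [Fact q.Prime],
      (∀ g ∈ Dec (nv q 1), ∀ u ∈ Wn J M, η g u = u) ∧ ∀ φ, Frob q 1 φ →
        ∀ l' ∈ n.primeFactors, kap l' φ = if l' = l ∨ l' = l₀ then 1 else 0 := by
  obtain ⟨hne, hl⟩ := Finset.mem_erase.1 hl
  have odd : ∀ p, p ∣ n → p ≠ 2 := by
    rintro p hp rfl
    exact (Nat.not_even_iff_odd.2 hn) (even_iff_two_dvd.2 hp)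
  have : Fact l₀.Prime := ⟨Nat.prime_of_mem_primeFactors h₀⟩
  have : Fact l.Prime := ⟨Nat.prime_of_mem_primeFactors hl⟩
  have d₀ := Nat.dvd_of_mem_primeFactors h₀
  have d := Nat.dvd_of_mem_primeFactors hl
  obtain ⟨τ₀, a1, a2, a3⟩ := hη.tam l₀ d₀
  obtain ⟨τ, b1, b2, b3⟩ := hη.tam l d
  obtain ⟨N1, c1, c2⟩ := hLEV A J η n M ∅ hJ hη Set.finite_empty fun _ h => h.elim
  obtain ⟨N2, c3, c4⟩ := kers_QEX hKAP n.primeFactors
  obtain ⟨N3, c5, c6⟩ := stab_QEX (by positivity) hζ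
  have g1 : τ * τ₀⁻¹ ∈ N1 := by
    refine (c2 _).2 ⟨fun u hu => ?_, fun _ h => h.elim⟩
    obtain ⟨v, rfl⟩ := J.surjective u
    have hv := (W_J hJ.toCm0).1 hu
    conv_lhs => rw [← a3 M v hv, ← act_mul, inv_mul_cancel_right, b3 M v hv]
  have g3 : τ * τ₀⁻¹ ∈ N3 :=
    N3.mul_mem ((c6 _).2 (fix_QEX hFRO (odd _ d) hζ.pow_eq_one b1))
      (N3.inv_mem ((c6 _).2 (fix_QEX hFRO (odd _ d₀) hζ.pow_eq_one a1)))
  have g2 : ∀ l' ∈ n.primeFactors, kap l' (τ * τ₀⁻¹) = if l' = l ∨ l' = l₀ then 1 else 0 := by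
    intro l' hl'
    have p := Nat.prime_of_mem_primeFactors hl'
    rw [(hKAP.1 l').1 _ trivial _ trivial, inv_QEX (hKAP.1 l').1, kap_QEX hKAP (odd _ d) p b1 b2,
      kap_QEX hKAP (odd _ d₀) p a1 a2]
    by_cases e : l' = l
    · simp [e, hne]
    · by_cases e' : l' = l₀
      · subst e'
        simp only [e, if_false, if_true, or_true]
        decide
      · simp [e, e']
  generalize τ * τ₀⁻¹ = g at g1 g2 g3
  have hN : ON (N1 ⊓ N3 ⊓ N2) := (c1.1.inf c5).inf c3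
  have g13 : g ∈ N1 ⊓ N3 := ⟨g1, g3⟩
  obtain ⟨q, _, φ, e1, e2, e3, e4⟩ := hCHEB (N1 ⊓ N3 ⊓ N2) g (n + 2) hN
    ⟨Subgroup.mul_mem _ g13 g13, (c4 _).2 fun l' _ => by
      rw [(hKAP.1 l').1 _ trivial _ trivial]
      exact CharTwo.add_self_eq_zero _⟩
    fun h => ⟨Subgroup.mul_mem _ ((c1.1.inf c5).1.conj_mem _ g13 h) (Subgroup.inv_mem _ g13),
      (c4 _).2 fun l' _ => by
        have t := (hKAP.1 l').1
        rw [t _ trivial _ trivial, t _ trivial _ trivial, t _ trivial _ trivial, inv_QEX t,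
          inv_QEX t]
        ring⟩
  have q2 : q ≠ 2 := by omega
  have φ13 : φ ∈ N1 ⊓ N3 := by
    have := Subgroup.mul_mem _ g13 e3.1
    rwa [mul_inv_cancel_left] at this
  obtain ⟨f1, -, f3, f4, -⟩ := (hFRO q 1).2 φ e2
  refine ⟨q, ⟨Fact.out, q2, fun h => ?_⟩, ?_, ?_⟩
  · have := Nat.le_of_dvd hn.pos h
    omega
  · have e := f3 _ ζ (ndvd_QEX Fact.out q2) hζ.pow_eq_one
    rw [(c6 _).1 φ13.2, show q = q - 1 + 1 by omega, pow_succ] at e
    refine hζ.dvd_of_pow_eq_one _ (mul_right_cancel₀ (hζ.ne_zero (by positivity)) ?_)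
    rw [one_mul, ← e]
  · intro _
    refine ⟨fun j hj => ?_, fun φ' hφ' l' hl' => ?_⟩
    · obtain ⟨i, t, h1, h2⟩ := f4 N1 c1.1 j hj
      have := N1.mul_mem (N1.mul_mem (N1.pow_mem φ13.1 i) (e4 h1).1.1) h2
      rw [mul_inv_cancel_left] at this
      exact ((c2 _).1 this).1
    · have h1 := N2.mul_mem e3.2 (e4 (f1 φ' hφ')).2
      rw [mul_assoc, mul_inv_cancel_left] at h1
      have h2 := (c4 _).1 h1 l' hl'
      rw [(hKAP.1 l').1 _ trivial _ trivial, inv_QEX (hKAP.1 l').1, g2 l' hl'] at h2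
      exact (neg_add_eq_zero.1 h2).symm

theorem QEX_pf (hCHEB : CHEB_st) (hLEV : LEV_st) (hKAP : KAP_st) (hTQ : TQ_st) (hFRO : FRO_st) : QEX_st := by
  intro A _ J η n cc T ℓ h K hK
  have p := h.p1 0
  have hJ := p.cm
  obtain ⟨l₀, h₀⟩ : ∃ l₀, l₀ ∈ n.primeFactors := by
    obtain ⟨m, h1, h2⟩ := p.g8 3 (by decide)
    have : n ≠ 1 := by
      rintro rfl
      rw [Nat.dvd_one.1 h1] at h2
      omega
    obtain ⟨l, h3, h4⟩ := Nat.exists_prime_and_dvd this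
    exact ⟨l, Nat.mem_primeFactors.2 ⟨h3, h4, p.odd.pos.ne'⟩⟩
  obtain ⟨ζ, hζ⟩ := HasEnoughRootsOfUnity.exists_primitiveRoot Qb (2 ^ (K + 1))
  have e1 := fun l (hl : l ∈ n.primeFactors.erase l₀) =>
    prime_QEX hCHEB hLEV hKAP hFRO hJ p.odd p.ga (2 * K + 1 + 1) (K + 1) hζ h₀ hl
  choose! qq q1 q2 q3 using e1
  have e2 : ∀ q : ℕ, ∃ φ τ : GQ, ∀ [Fact q.Prime], q ≠ 2 → 2 ^ (K + 1) ∣ q - 1 →
      TQ (2 ^ (K + 1)) ζ q 1 φ τ := fun q => by
    by_cases e : q.Prime ∧ q ≠ 2 ∧ 2 ^ (K + 1) ∣ q - 1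
    · have : Fact q.Prime := ⟨e.1⟩
      obtain ⟨φ, τ, h1⟩ := hTQ.2 K ζ q 1 hζ e.2.1 e.2.2
      exact ⟨φ, τ, fun _ _ => h1⟩
    · exact ⟨1, 1, fun h1 h2 => (e ⟨Fact.out, h1, h2⟩).elim⟩
  choose φ τ e2 using e2
  have sym : ∀ l ∈ n.primeFactors.erase l₀, ∀ l' ∈ n.primeFactors,
      kap l' (φ (qq l)) = if l' = l ∨ l' = l₀ then 1 else 0 := fun l hl => by
    have : Fact (qq l).Prime := ⟨(q1 l hl).1⟩
    exact (q3 l hl).2 _ (e2 _ (q1 l hl).2.1 (q2 l hl)).fr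
  have all : ∀ g, (∀ u ∈ Wn J (2 * K + 1 + 1), η 0 g u = u) →
      ∀ j, ∀ u ∈ Wn J (2 * K + 1), η j g u = u := fun g hg j => by
    induction j using Nat.twoStepInduction with
    | zero => exact fun u hu => hg u (W_mono hJ.toCm0 (Nat.le_succ _) hu)
    | one =>
      intro u hu
      obtain ⟨v, rfl⟩ := hJ.surj u
      rw [← h.tw 0, hg v ((W_om hJ.toCm0).1 hu)]
    | more j ih _ =>
      intro u hu
      obtain ⟨v, rfl⟩ := J.surjective u
      rw [← h.jj j, ih v ((W_J hJ.toCm0).1 hu)]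
  refine ⟨ζ, l₀, qq, _, φ, τ, fun j => ⟨hK, hζ, h₀, rfl, fun l hl l' hl' e => ?_,
    fun q hq => ?_, fun q _ hq => ?_, fun q _ hq => ?_, sym⟩⟩
  · by_contra hne
    obtain ⟨h1, h2⟩ := Finset.mem_erase.1 (Finset.mem_coe.1 hl)
    have h3 := sym l hl l h2
    rw [e, sym l' hl' l h2] at h3
    simp [hne, h1] at h3
  · obtain ⟨l, hl, rfl⟩ := Finset.mem_image.1 hq
    exact q1 l hl
  · obtain ⟨l, hl, rfl⟩ := Finset.mem_image.1 hq
    exact e2 _ (q1 l hl).2.1 (q2 l hl)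
  · obtain ⟨l, hl, rfl⟩ := Finset.mem_image.1 hq
    exact fun g hg => all g ((q3 l hl).1 g hg) j

end Pool.Agent.MP_e23604_nt.R

end

section

set_option autoImplicit false

open Module Filter Topology Finset
open scoped Classical

namespace Pool.Agent.MP_e23604_nt.R

open B
open Q (Wn dig CmI Cm0 Pre A1 Eta Jm scf St Cork Fg IdxQ basQ levQ)

theorem card_split_ELIN1 {G : Type} [AddCommGroup G] (f : G →+ G) (K : AddSubgroup G) :
    Nat.card K = Nat.card (K.map f) * Nat.card ↥(K ⊓ f.ker) := by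
  have h1 := AddSubgroup.card_mul_index (f.ker.addSubgroupOf K)
  have h2 : (f.ker.addSubgroupOf K).index = Nat.card (K.map f) := AddSubgroup.relIndex_ker K f
  have h3 : Nat.card (f.ker.addSubgroupOf K) = Nat.card ↥(K ⊓ f.ker) := by
    rw [← AddSubgroup.inf_addSubgroupOf_left]
    exact Nat.card_congr (AddSubgroup.addSubgroupOfEquivOfLe inf_le_left).toEquiv
  rw [← h1, h2, h3, mul_comm]

theorem chain_ELIN1 {G : Type} [AddCommGroup G] (f : G →+ G) (H : ℕ → AddSubgroup G)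
    (V : ℕ → ℕ → AddSubgroup G) (M : ℕ) (h0 : H 0 = ⊥) (hf : ∀ m x, f x ∈ H m ↔ x ∈ H (m + 1))
    (h1 : ∀ m, H 1 ≤ H (m + 1))
    (hmap : ∀ j m, ∀ y ∈ V j (m + 1), f y ∈ V (j + 1) m)
    (hl : ∀ j m, m + 1 ≤ M → ∀ x ∈ V (j + 1) m, ∃ y ∈ V j (m + 1), f y = x) (s : ℕ) :
    ∀ j m, s ≤ m → m ≤ M →
      Nat.card ↥(V j m ⊓ H s) = ∏ t ∈ range s, Nat.card ↥(V (j + t) (m - t) ⊓ H 1) := by
  induction s with
  | zero =>
    intro j m _ _
    rw [h0, inf_bot_eq]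
    simp
  | succ s ih =>
    intro j m hs hm
    obtain ⟨m, rfl⟩ : ∃ m', m = m' + 1 := ⟨m - 1, by omega⟩
    have hk : f.ker = H 1 := by
      ext x
      rw [AddMonoidHom.mem_ker, ← hf 0 x, h0, AddSubgroup.mem_bot]
    have e1 : (V j (m + 1) ⊓ H (s + 1)).map f = V (j + 1) m ⊓ H s := by
      ext x
      constructor
      · rintro ⟨y, ⟨hy1, hy2⟩, rfl⟩
        exact ⟨hmap j m y hy1, (hf s y).2 hy2⟩
      · rintro ⟨hx1, hx2⟩
        obtain ⟨y, hy, rfl⟩ := hl j m hm x hx1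
        exact ⟨y, ⟨hy, (hf s y).1 hx2⟩, rfl⟩
    have e2 : V j (m + 1) ⊓ H (s + 1) ⊓ H 1 = V j (m + 1) ⊓ H 1 := by
      rw [inf_assoc, inf_eq_right.2 (h1 s)]
    rw [card_split_ELIN1 f, e1, hk, e2, ih (j + 1) m (by omega) (by omega), prod_range_succ']
    congr 1
    refine prod_congr rfl fun t _ => ?_
    rw [show j + 1 + t = j + (t + 1) by ring, show m + 1 - (t + 1) = m - t by omega]

theorem sum_ELIN1 {ℓ : ℕ → ℕ} (h : ∀ j, ℓ j + ℓ (j + 1) = 4) (k : ℕ) :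
    ∑ t ∈ range (2 * k), ℓ t = 4 * k := by
  induction k with
  | zero => simp
  | succ k ih =>
    rw [show 2 * (k + 1) = 2 * k + 1 + 1 by ring, sum_range_succ, sum_range_succ, ih]
    have := h (2 * k)
    omega

theorem par_ELIN1 {ℓ : ℕ → ℕ} (h : ∀ j, ℓ j + ℓ (j + 1) = 4) (k : ℕ) :
    Even (∑ t ∈ range k, ℓ t + k * ℓ 0) := by
  have h1 : ∀ j, ℓ j % 2 = ℓ 0 % 2 := by
    intro j
    induction j with
    | zero => rfl
    | succ j ih => have := h j; omega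
  induction k with
  | zero => simp
  | succ k ih =>
    rw [sum_range_succ, add_mul, one_mul]
    rw [Nat.even_iff] at ih ⊢
    have := h1 k
    omega

theorem fin_ELIN1 {A : Type} [AddCommGroup A] {J : A ≃ₗ[ℤ] A} (h : CmI J) (ι : Type) [Fintype ι]
    (m : ℕ) : Finite (Hm J ι m) := by
  have : Finite (Wn J m) := Nat.finite_of_card_ne_zero (by rw [W_card h]; positivity)
  refine Finite.of_injective
    (fun x : Hm J ι m => fun q : ι =>
      ((⟨(x.1 q).1, (x.2 q).1⟩, ⟨(x.1 q).2, (x.2 q).2⟩) : Wn J m × Wn J m)) ?_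
  intro x y hxy
  refine Subtype.ext (funext fun q => ?_)
  have := congrFun hxy q
  simp only [Prod.mk.injEq, Subtype.mk.injEq] at this
  exact Prod.ext this.1 this.2

theorem LIN1_pf : LIN1_st := by
  intro A _ J ι _ V ℓ M k hc hk hle
  have h0 := hc.cm.toCm0
  let f : (ι → A × A) →+ (ι → A × A) :=
    { toFun := onP (wo J)
      map_zero' := funext fun q => by simp [onP]
      map_add' := fun x y => funext fun q => by simp [onP] }
  have hH0 : Hm J ι 0 = ⊥ := by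
    rw [eq_bot_iff]
    intro x hx
    exact funext fun q => Prod.ext ((W_zero h0).1 (hx q).1) ((W_zero h0).1 (hx q).2)
  have hf : ∀ m x, f x ∈ Hm J ι m ↔ x ∈ Hm J ι (m + 1) := fun m x =>
    forall_congr' fun q => and_congr (W_om h0) (W_om h0)
  have h1 : ∀ m, Hm J ι 1 ≤ Hm J ι (m + 1) := fun m x hx q =>
    ⟨W_mono h0 (by omega) (hx q).1, W_mono h0 (by omega) (hx q).2⟩
  have key := chain_ELIN1 f (Hm J ι) V M hH0 hf h1 hc.map hc.lift
  have hmono : ∀ j, Monotone (V j) := fun j => monotone_nat_of_le_succ (hc.mono j)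
  set r := Fintype.card ι with hr
  set b : ℕ → ℕ := fun t => Nat.card ↥(V t (2 * k - t) ⊓ Hm J ι 1) with hb
  have hlow : ∀ t ∈ range (2 * k), 2 ^ (r + ℓ t) ≤ 4 * b t := by
    intro t ht
    have := fin_ELIN1 hc.cm ι 1
    have : Finite ↥(V t (2 * k - t) ⊓ Hm J ι 1) :=
      Finite.of_injective _ (AddSubgroup.inclusion_injective inf_le_right)
    refine (hc.low t).trans (Nat.mul_le_mul_left 4 (AddSubgroup.card_le_of_le ?_))
    exact le_inf (hmono t (by have := mem_range.1 ht; omega)) (hc.le t 1)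
  have k1 : Nat.card (V 0 (2 * k)) = ∏ t ∈ range (2 * k), b t := by
    have := key (2 * k) 0 (2 * k) le_rfl hk
    rw [inf_eq_left.2 (hc.le 0 (2 * k))] at this
    simpa only [zero_add] using this
  have k2 : Nat.card ↥(V 0 (2 * k) ⊓ Hm J ι k) = ∏ t ∈ range k, b t := by
    simpa only [zero_add] using key k 0 (2 * k) (by omega) hk
  have p1 : ∀ n, ∏ t ∈ range n, 2 ^ (r + ℓ t) = 2 ^ (n * r + ∑ t ∈ range n, ℓ t) := by
    intro n
    rw [prod_pow_eq_pow_sum, sum_add_distrib, sum_const, card_range, smul_eq_mul]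
  have p2 : ∀ n, ∏ t ∈ range n, 4 * b t = 2 ^ (2 * n) * ∏ t ∈ range n, b t := by
    intro n
    rw [prod_mul_distrib, prod_const, card_range, pow_mul]
    norm_num
  have p3 : ∏ t ∈ range (2 * k), 4 * b t ≤ ∏ t ∈ range (2 * k), 2 ^ (r + ℓ t) := by
    rw [p1, p2, sum_ELIN1 hc.sum, ← k1, add_comm, pow_add, show 2 * (2 * k) = 4 * k by ring]
    exact Nat.mul_le_mul_left _ hle
  have heq : ∀ t ∈ range (2 * k), 2 ^ (r + ℓ t) = 4 * b t := by
    intro t ht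
    by_contra hne
    exact absurd p3 (not_le.2 (prod_lt_prod (fun i _ => by positivity) hlow
      ⟨t, ht, lt_of_le_of_ne (hlow t ht) hne⟩))
  constructor
  · have := prod_congr rfl heq
    rw [p1, p2, sum_ELIN1 hc.sum, ← k1, add_comm, pow_add, show 2 * (2 * k) = 4 * k by ring] at this
    exact (Nat.eq_of_mul_eq_mul_left (by positivity) this).symm
  · have e := prod_congr rfl fun t (ht : t ∈ range k) =>
      heq t (mem_range.2 (by have := mem_range.1 ht; omega))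
    rw [p1, p2, ← k2] at e
    obtain ⟨s, -, hs⟩ := (Nat.dvd_prime_pow Nat.prime_two).1 (Dvd.intro_left _ e.symm)
    refine ⟨s, hs, ?_⟩
    rw [hs, ← pow_add] at e
    have e' := Nat.pow_right_injective le_rfl e
    have := par_ELIN1 hc.sum k
    rw [Nat.even_iff] at this ⊢
    omega

end Pool.Agent.MP_e23604_nt.R

end

section

set_option autoImplicit false

open Module Filter Topology Finset
open scoped Classical

namespace Pool.Agent.MP_e23604_nt.R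

open B
open Q (Wn dig CmI Cm0 Pre A1 Eta Jm scf St Cork Fg IdxQ basQ levQ)

section

variable {A : Type} [AddCommGroup A] {J : A ≃ₗ[ℤ] A}

/-- relaxed Selmer cocycles that vanish at the tame generators are unramified -/
theorem inf_PAR (hTAM : TAM_st) (hHOMQ : HOMQ_st) {η : Act A} {n K k l₀ : ℕ} {cc : GQ} {T : A}
    {ζ : Qb} {qq : ℕ → ℕ} {Q : Finset ℕ} {φ τ : ℕ → GQ} (hP : P1 J η n cc T)
    (hQ : Qs J η n K ζ l₀ qq Q φ τ) :
    (Sq J η n cc Q (2 * k)).map (res Q φ τ) ⊓ B0 A Q = (Sq J η n cc ∅ (2 * k)).map (res Q φ τ) := by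
  have hc := hP.cm.toCm0
  refine le_antisymm ?_ (le_inf (AddSubgroup.map_mono (Sq_mono hc le_rfl (empty_subset Q))) ?_)
  · rintro _ ⟨⟨ξ, hξ, rfl⟩, h0⟩
    refine ⟨ξ, ⟨hξ.1, fun l _ γ h1 h2 _ => ?_, hξ.2.2⟩, rfl⟩
    by_cases hl : l ∈ Q
    · have hu : ∀ σ ∈ Ine l 1, ∀ u ∈ Wn J (2 * k), η σ u = u := fun σ hσ =>
        hP.ga.unr l 1 h1 h2 σ hσ _
      refine unr_conj hξ.1 hu ?_ γ
      refine (hTAM l 1 h1).2 (τ l) (hQ.tq l hl).ine
        (hHOMQ K ζ l 1 (φ l) (τ l) A hQ.zeta (hQ.tq l hl)).1 A ξ k (fun g hg j _ => ?_)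
        (hξ.1.lc.mono le_top) (fun u _ => (W_tor hc k).1 (hξ.1.lev u)) (h0 ⟨l, hl⟩)
      rw [hξ.1.coc, hu g hg _ (hξ.1.lev j)]
    · exact hξ.2.1 l γ h1 h2 hl
  · rintro _ ⟨ξ, hξ, rfl⟩ ⟨q, hq⟩
    obtain ⟨h1, h2, h3⟩ := hQ.pri q hq
    have : Fact q.Prime := ⟨h1⟩
    exact hξ.2.1 q 1 h2 h3 (notMem_empty q) (τ q) (hQ.tq q hq).ine

/-- coboundaries of low level restrict to zero -/
theorem cb_PAR {η : Act A} {n K m l₀ : ℕ} {cc : GQ} {T : A}
    {ζ : Qb} {qq : ℕ → ℕ} {Q : Finset ℕ} {φ τ : ℕ → GQ} (hP : P1 J η n cc T)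
    (hQ : Qs J η n K ζ l₀ qq Q φ τ) (hm : m ≤ 2 * K) {ξ : GQ → A} (hξ : Zc J η m ξ)
    (hb : ξ ∈ Cb η) : res Q φ τ ξ = 0 := by
  have hc := hP.cm.toCm0
  obtain ⟨R, ⟨i, hi⟩, rfl⟩ := hb
  have : Fact l₀.Prime := ⟨Nat.prime_of_mem_primeFactors hQ.base⟩
  obtain ⟨σ, -, -, hσ⟩ := hP.ga.tam l₀ (Nat.dvd_of_mem_primeFactors hQ.base)
  have h1 : wo J R ∈ Wn J m := by
    have := hξ.lev σ
    rwa [dd, hσ (2 * i) R ((W_tor hc i).2 hi)] at this
  have h2 : R ∈ Wn J (2 * K + 1) := W_mono hc (by omega) ((W_om hc).1 h1)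
  funext ⟨q, hq⟩
  have : Fact q.Prime := ⟨(hQ.pri q hq).1⟩
  exact Prod.ext (sub_eq_zero.2 (hQ.triv q hq _ (hQ.tq q hq).fr.1 R h2))
    (sub_eq_zero.2 (hQ.triv q hq _ (Ine_le q 1 (hQ.tq q hq).ine) R h2))

end

theorem PAR_pf (hQEX : QEX_st) (hLIN : LIN_st) (hLIFT : LIFT_st) (hLOW : LOW_st) (hISOT : ISOT_st) (hKER : KER_st) (hTAM : TAM_st) (hHOMQ : HOMQ_st) : PAR_st := by
  intro A _ J η n cc T ℓ hP k hk
  obtain ⟨ζ, l₀, qq, Q, φ, τ, hQ⟩ := hQEX A J η n cc T ℓ hP (k + 1) (by omega)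
  have hc := (hP.p1 0).cm.toCm0
  obtain ⟨e, he⟩ := (hP.p1 0).wp (k + 1)
  have hCh : Ch J (fun j m => (Sq J (η j) n cc Q m).map (res Q φ τ)) ℓ (2 * (k + 1)) := by
    refine ⟨(hP.p1 0).cm, ?_, fun j m => AddSubgroup.map_mono (Sq_mono hc (by omega) subset_rfl),
      ?_, ?_, ?_, fun j => ?_, hP.sum⟩
    · rintro j m _ ⟨ξ, hξ, rfl⟩ q
      exact ⟨hξ.1.lev _, hξ.1.lev _⟩
    · rintro j m _ ⟨ξ, hξ, rfl⟩
      exact ⟨_, Sq_map (wo J).toAddMonoidHom (hP.tw j) (fun u hu => (W_om hc).2 hu) hξ, rfl⟩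
    · rintro j m hm _ ⟨ξ', hξ', rfl⟩
      obtain ⟨ξ, h1, h2⟩ := hLIFT A J (η j) n cc T (hP.p1 j) (k + 1) ζ l₀ qq Q φ τ (hQ j)
        (η (j + 1)) m (hP.p1 (j + 1)).ga (hP.tw j) hm ξ' hξ'
      exact ⟨_, ⟨ξ, h1, rfl⟩, funext fun q => Prod.ext (h2 _) (h2 _)⟩
    · rintro j m _ ⟨ξ, hξ, rfl⟩
      exact ⟨_, Sq_map J.toLinearMap.toAddMonoidHom (hP.jj j) (fun u hu => (W_J hc).2 hu) hξ, rfl⟩
    · rw [Fintype.card_coe]
      exact hLOW A J (η j) n cc T (hP.p1 j) (k + 1) ζ l₀ qq Q φ τ (hQ j) (ℓ j) (hP.cov j)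
  have key := hLIN A J Q _ ℓ k e hCh he.toPai (by
    rintro _ ⟨a, ha, rfl⟩ _ ⟨b, hb, rfl⟩
    exact hISOT A J (η 0) n cc T (hP.p1 0) (k + 1) ζ l₀ qq Q φ τ (hQ 0) e he a ha b hb)
  rw [inf_PAR hTAM hHOMQ (hP.p1 0) (hQ 0), ← AddSubgroup.relIndex_ker] at key
  have hE : (Cb (η 0)).addSubgroupOf (Sq J (η 0) n cc ∅ (2 * k)) =
      (res Q φ τ).ker.addSubgroupOf (Sq J (η 0) n cc ∅ (2 * k)) := by
    ext ⟨ξ, hξ⟩
    rw [AddSubgroup.mem_addSubgroupOf, AddSubgroup.mem_addSubgroupOf, AddMonoidHom.mem_ker]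
    refine ⟨cb_PAR (hP.p1 0) (hQ 0) (by omega) hξ.1, fun h => ?_⟩
    obtain ⟨R, h1, h2⟩ := hKER A J η n cc T ℓ hP (k + 1) ζ l₀ qq Q φ τ hQ (2 * k) (by omega) 0 ξ
      (Sq_mono hc le_rfl (empty_subset Q) hξ) h
    exact ⟨R, ⟨k + 1, (W_tor hc (k + 1)).1 (W_mono hc (by omega) h1)⟩, h2⟩
  rw [AddSubgroup.relIndex, hE]
  exact key

end Pool.Agent.MP_e23604_nt.R

end

section

set_option autoImplicit false

open Module Filter Topology Finset
open scoped Classical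

namespace Pool.Agent.MP_e23604_nt.R

open B
open Q (Wn dig CmI Cm0 Pre A1 Eta Jm scf St Cork Fg IdxQ basQ levQ)

theorem pow4_EFIN {G : Type} [AddCommGroup G] (C S : AddSubgroup G) (k : ℕ)
    (h : ∀ x ∈ S, 2 ^ k • x = 0) (h0 : C.relIndex S ≠ 0) (hs : IsSquare (C.relIndex S)) :
    ∃ f, C.relIndex S = 4 ^ f := by
  haveI : Finite (S ⧸ C.addSubgroupOf S) := Nat.finite_of_card_ne_zero h0
  have h1 : ∀ {q : ℕ}, q.Prime → q ∣ C.relIndex S → q = 2 := by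
    intro q hq hd
    haveI := Fact.mk hq
    obtain ⟨x, hx⟩ := exists_prime_addOrderOf_dvd_card' (G := S ⧸ C.addSubgroupOf S) q hd
    have h2 : 2 ^ k • x = 0 := by
      induction x using QuotientAddGroup.induction_on with
      | H y =>
        rw [← QuotientAddGroup.mk_nsmul, show 2 ^ k • y = 0 from Subtype.ext (h y y.2)]
        rfl
    have h3 := addOrderOf_dvd_of_nsmul_eq_zero h2
    rw [hx] at h3
    exact (Nat.prime_dvd_prime_iff_eq hq Nat.prime_two).1 (hq.dvd_of_dvd_pow h3)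
  obtain ⟨r, hr⟩ := hs
  have h4 : r = 2 ^ r.primeFactorsList.length :=
    Nat.eq_prime_pow_of_unique_prime_dvd (fun e => h0 (by rw [hr, e])) fun hq hd =>
      h1 hq (hr ▸ hd.mul_right r)
  exact ⟨r.primeFactorsList.length, by
    rw [hr, show (4 : ℕ) = 2 * 2 from rfl, mul_pow, ← h4]⟩

theorem stab_EFIN (a : ℕ → ℕ) (c : ℕ) (h1 : ∀ k, a k ≤ a (k + 1)) (h2 : ∀ k, a k ≤ c * 2 ^ k)
    (h3 : ∀ k, 1 ≤ k → ∃ f, a k = 4 ^ f) : ∃ k, a k = a (k + 1) := by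
  by_contra hn
  push Not at hn
  have h4 : ∀ k, 4 ^ k ≤ a (k + 1) := by
    intro k
    induction k with
    | zero =>
      obtain ⟨f, hf⟩ := h3 1 le_rfl
      rw [hf]
      exact Nat.pow_le_pow_right (by norm_num) (Nat.zero_le f)
    | succ k ih =>
      obtain ⟨f, hf⟩ := h3 (k + 1) (by omega)
      obtain ⟨f', hf'⟩ := h3 (k + 2) (by omega)
      have h5 := lt_of_le_of_ne (h1 (k + 1)) (hn (k + 1))
      rw [hf] at ih
      rw [hf, hf'] at h5
      rw [hf']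
      have := (Nat.pow_le_pow_iff_right (by norm_num)).1 ih
      have := (Nat.pow_lt_pow_iff_right (by norm_num)).1 h5
      exact Nat.pow_le_pow_right (by norm_num) (by omega)
  have h6 := (h4 (2 * c)).trans (h2 _)
  have h7 : 2 * c < 2 ^ (2 * c) := Nat.lt_two_pow_self
  rw [show (4 : ℕ) = 2 * 2 from rfl, mul_pow, pow_succ] at h6
  have h8 : 0 < 2 ^ (2 * c) := by positivity
  nlinarith

theorem le_EFIN {G : Type} [AddCommGroup G] (C S S' : AddSubgroup G) (h : S ≤ S')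
    (h0 : C.relIndex S ≠ 0) (e : C.relIndex S = C.relIndex S') : S' ≤ S ⊔ C := by
  have h1 := AddSubgroup.relIndex_mul_relIndex C (S ⊔ C) (S' ⊔ C) le_sup_right
    (sup_le_sup_right h C)
  rw [AddSubgroup.relIndex_sup_right, AddSubgroup.relIndex_sup_right, ← e] at h1
  exact le_sup_left.trans (AddSubgroup.relIndex_eq_one.1 ((Nat.mul_eq_left h0).1 h1))

theorem step_EFIN {A : Type} [AddCommGroup A] {J : A ≃ₗ[ℤ] A} {η : Act A} {n : ℕ} {cc : GQ}
    (hc : CmI J) (hη : Ga J n η) (k : ℕ)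
    (h : Sq J η n cc ∅ (2 * (k + 1)) ≤ Sq J η n cc ∅ (2 * k) ⊔ Cb η) :
    Sq J η n cc ∅ (2 * (k + 2)) ≤ Sq J η n cc ∅ (2 * (k + 1)) ⊔ Cb η := by
  intro ξ hξ
  have h0 := hc.toCm0
  have h1 : 2 ^ 1 • ξ ∈ Sq J η n cc ∅ (2 * (k + 1)) := by
    have := nsmul_mem hξ (2 ^ 1)
    exact ⟨⟨this.1.lc, this.1.coc, fun g => (W_pow h0 1).2 (hξ.1.lev g)⟩, this.2⟩
  obtain ⟨s, hs, _, ⟨T, ⟨j, hj⟩, rfl⟩, e⟩ := AddSubgroup.mem_sup.1 (h h1)
  obtain ⟨T', rfl⟩ := two_surj hc 1 T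
  have hT : 2 ^ (j + 1) • T' = 0 := by rw [pow_add, mul_smul, hj]
  have h2 : ξ - dd η T' ∈ Sq J η n cc ∅ (2 * (k + 2) + 2 * (j + 1)) :=
    sub_mem (Sq_mono h0 (by omega) Subset.rfl hξ)
      (dd_sq h0 hη cc ∅ (W_mono h0 (by omega) ((W_tor h0 (j + 1)).2 hT)))
  refine AddSubgroup.mem_sup.2 ⟨ξ - dd η T', ⟨⟨h2.1.lc, h2.1.coc, fun g => ?_⟩, h2.2⟩, dd η T',
    ⟨T', ⟨j + 1, hT⟩, rfl⟩, sub_add_cancel _ _⟩
  refine (W_pow h0 1 (n := 2 * k)).1 ?_
  have e1 := congrFun e g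
  simp only [Pi.add_apply, Pi.smul_apply, dd, map_nsmul] at e1
  have e2 : 2 ^ 1 • (ξ - dd η T') g = s g := by
    rw [Pi.sub_apply, smul_sub, ← e1, dd, smul_sub]
    abel
  rw [e2]
  exact hs.1.lev g

theorem FIN_pf : FIN_st := by
  rintro A _ J η n cc T hP ⟨c, hc⟩ hs
  have h0 := hP.cm.toCm0
  have mono : ∀ {k k'}, k ≤ k' → Sq J η n cc ∅ (2 * k) ≤ Sq J η n cc ∅ (2 * k') := fun h =>
    Sq_mono h0 (by omega) Subset.rfl
  have kill : ∀ k, ∀ ξ ∈ Sq J η n cc ∅ (2 * k), 2 ^ k • ξ = 0 := fun k ξ hξ =>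
    funext fun g => (W_tor h0 k).1 (hξ.1.lev g)
  obtain ⟨k₀, hk⟩ := stab_EFIN (fun k => (Cb η).relIndex (Sq J η n cc ∅ (2 * k))) c
    (fun k => AddSubgroup.relIndex_le_of_le_right (mono (Nat.le_succ k)) (hc _).1)
    (fun k => (hc k).2) fun k h => pow4_EFIN _ _ k (kill k) (hc k).1 (hs k h)
  have h1 : ∀ i, Sq J η n cc ∅ (2 * (k₀ + i + 1)) ≤ Sq J η n cc ∅ (2 * (k₀ + i)) ⊔ Cb η := by
    intro i
    induction i with
    | zero => exact le_EFIN _ _ _ (mono (Nat.le_succ _)) (hc _).1 hk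
    | succ i ih => exact step_EFIN hP.cm hP.ga _ ih
  have h2 : ∀ i, Sq J η n cc ∅ (2 * (k₀ + i)) ≤ Sq J η n cc ∅ (2 * k₀) ⊔ Cb η := by
    intro i
    induction i with
    | zero => exact le_sup_left
    | succ i ih => exact (h1 i).trans (sup_le ih le_sup_right)
  refine ⟨k₀, fun k ξ hξ => ?_⟩
  obtain ⟨s, hs, t, ht, rfl⟩ := AddSubgroup.mem_sup.1 (h2 k (mono (Nat.le_add_left k k₀) hξ))
  rw [smul_add, kill k₀ s hs, zero_add]
  exact nsmul_mem ht _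

end Pool.Agent.MP_e23604_nt.R

end

section

namespace Pool.Agent.MP_e23604_nt.Q

open Finset Filter NumberField
open MP_f68ac8_nt.Zq (Mx sg)
open MP_f68ac8_nt.Zk (Cp Yw rr NS brL)
open MP_f68ac8_nt.Nd (Lr Rcp GenQ Trm)
open scoped BigOperators Topology

theorem cons_XBr {G : Type} [Group G] (x : G) {l : List G} (h : l ≠ []) :
    brL (x :: l) = x * brL l * x⁻¹ * (brL l)⁻¹ := by
  cases l with
  | nil => exact absurd rfl h
  | cons y l => rfl

theorem com_XBr {V : Type} [AddCommGroup V] {J : V ≃ₗ[ℤ] V} {m : ℕ} (a b : Pm J m) (c : V)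
    (h : ∀ z, a.1 (b.1 z) = b.1 (a.1 z) + c) (y : V) : (a * b * a⁻¹ * b⁻¹).1 y = y + c := by
  obtain ⟨z, rfl⟩ := (b * a).1.surjective y
  have e : a * b * a⁻¹ * b⁻¹ * (b * a) = a * b := by group
  exact (congrArg (fun g : Pm J m => g.1 z) e).trans (h z)

theorem om_XBr {V : Type} [AddCommGroup V] (J : V ≃ₗ[ℤ] V) (u : V) : om J u = J u - u := rfl

theorem brQ (hBasQ : BasQ) (hFilQ : FilQ) : BrQ := by
  intro V _ J hJ m l v₁ v₂ hl h1 h2 h3 hm
  have hr := fun v hv => ((hFilQ V J hJ m).2.2.2.1 v hv).1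
  have ho := (hBasQ V J hJ).2.2.1
  induction l with
  | nil =>
    obtain ⟨k, rfl⟩ : ∃ k, m = k + 2 := ⟨m - 2, by simp only [List.length_nil] at hm; omega⟩
    refine ⟨om J (om J (v₁ - v₂)), (ho (k + 1) _).2 ((ho (k + 2) _).2 (sub_mem h1 h2)),
      fun h => h3 ((ho (k + 1) _).1 ((ho k _).1 h)),
      com_XBr (rot J (k + 2) v₁) (rot J (k + 2) v₂) _ fun z => ?_⟩
    simp only [hr _ h1, hr _ h2, om_XBr, map_add, map_sub]
    abel
  | cons x l ih =>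
    rw [List.length_cons] at hm ⊢
    obtain ⟨c, c1, c2, c3⟩ := ih (fun v hv => hl v (List.mem_cons_of_mem _ hv)) (by omega)
    refine ⟨om J c, (ho _ _).2 ?_, fun h => c2 ?_, ?_⟩
    · rwa [show m - 1 - (l.length + 1) + 1 = m - 1 - l.length by omega]
    · have h' := (ho _ _).1 h
      rwa [show m - 2 - (l.length + 1) + 1 = m - 2 - l.length by omega] at h'
    · rw [List.cons_append, List.map_cons, cons_XBr _ (by simp)]
      refine com_XBr _ _ _ fun z => ?_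
      simp only [c3, hr _ (hl x List.mem_cons_self), om_XBr, map_add, map_sub]
      abel

end Pool.Agent.MP_e23604_nt.Q

end

section

namespace Pool.Agent.MP_e23604_nt.Q

open Finset Filter NumberField
open MP_f68ac8_nt.Zq (Mx sg)
open MP_f68ac8_nt.Zk (Cp Yw rr NS brL)
open MP_f68ac8_nt.Nd (Lr Rcp GenQ Trm)
open scoped BigOperators Topology

theorem hom_XDer (hR : RrQ) {d : ℕ} {U : Fin d → Type} (y : (Σ j, U j) → FreeGroup (Σ j, U j))
    (q : ∀ j, U j) {P : Type} [Group P] (φ : P → ZMod 2) (hφ : ∀ a b, φ (a * b) = φ a + φ b)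
    (x : Fin d → P) (i : Fin d) : φ (Yw y q x i) = ∑ j, rr y q 2 i j * φ (x j) := by
  have h := (hR d U y q).2 P (Cp 2) (MonoidHom.mk' (fun a => Multiplicative.ofAdd (φ a))
    fun a b => congrArg Multiplicative.ofAdd (hφ a b)) x i
  rw [← (hR d U y q).1]
  exact congrArg Multiplicative.toAdd h

section
variable {V : Type} [AddCommGroup V] {J : V ≃ₗ[ℤ] V}

theorem dig_congr_XDer {n n' : ℕ} {u u' : V} (h : u ∈ Wn J n ↔ u' ∈ Wn J n') :
    dig J n u = dig J n' u' := by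
  unfold dig
  by_cases h1 : u ∈ Wn J n
  · rw [if_pos h1, if_pos (h.1 h1)]
  · rw [if_neg h1, if_neg fun h2 => h1 (h.2 h2)]

theorem diff_XDer {g g' : V ≃ᵃ[ℤ] V} (h h' : V ≃ᵃ[ℤ] V) (e : g'.linear = g.linear) :
    (g' * h') 0 - (g * h) 0 = g.linear (h' 0 - h 0) + (g' 0 - g 0) := by
  change g' (h' 0) - g (h 0) = _
  rw [aff_apply g', aff_apply g, e, map_sub]
  abel

variable (J)

/-- pairs with the same linear part and close translation parts -/
def prs_XDer (m n : ℕ) : Subgroup (Pm J m × Pm J m) where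
  carrier := {p | p.2.1.linear = p.1.1.linear ∧ p.2.1 0 - p.1.1 0 ∈ Wn J n}
  one_mem' := ⟨rfl, by
    change (0 : V) - 0 ∈ _
    rw [sub_self]
    exact zero_mem _⟩
  mul_mem' := by
    rintro ⟨g, g'⟩ ⟨h, h'⟩ ⟨g1, g2⟩ ⟨h1, h2⟩
    refine ⟨congrArg₂ (· * ·) g1 h1, ?_⟩
    change (g'.1 * h'.1) 0 - (g.1 * h.1) 0 ∈ _
    rw [diff_XDer _ _ g1]
    exact add_mem ((g.2.1 _ _).2 h2) g2
  inv_mem' := by
    rintro ⟨g, g'⟩ ⟨g1, g2⟩
    refine ⟨congrArg LinearEquiv.symm g1, ?_⟩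
    change g'.1⁻¹ 0 - g.1⁻¹ 0 ∈ _
    have e : g.1.linear (g'.1⁻¹ 0) = -g'.1 0 := by
      rw [← inv_zero g'.1]
      exact (DFunLike.congr_fun g1 _).symm
    rw [← g.2.1, map_sub, inv_zero, e, neg_sub_neg, ← neg_sub]
    exact neg_mem g2

end

theorem derQ (hBasQ : BasQ) (hLevQ : LevQ) (hFilQ : FilQ) (hRrQ : RrQ) : DerQ := by
  intro V _ _ J N m hN hm hmN d S _ U y q v hv
  obtain ⟨b1, -, b3, -, -, b6, -, b8, b9⟩ := hBasQ V J hN.toCm0
  obtain ⟨-, -, -, f4, -⟩ := hFilQ V J hN.toCm0 m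
  have hom : ∀ u, om J u = J u - u := fun u => rfl
  have r0 : ∀ u ∈ Wn J (m + 1), (rot J m u).1 0 = -om J u := fun u hu => by
    rw [(f4 u hu).1, zero_sub, map_neg, hom]
    abel
  have hadd : ∀ n, 1 ≤ n → ∀ (a : V ≃ₗ[ℤ] V), Pre J a → ∀ u ∈ Wn J n, ∀ u' ∈ Wn J n,
      dig J (n - 1) (a u + u') = dig J (n - 1) u' + dig J (n - 1) u := by
    intro n hn a ha u hu u' hu'
    obtain ⟨n, rfl⟩ : ∃ k, n = k + 1 := ⟨n - 1, by omega⟩
    rw [Nat.add_sub_cancel, b6 n _ ((ha _ _).2 hu) _ hu', dig_congr_XDer (ha n u), add_comm]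
  have hdig : ∀ n, 1 ≤ n → ∀ u, dig J (n - 1) (-om J u) = dig J n u := fun n hn u => by
    refine dig_congr_XDer ?_
    rw [neg_mem_iff, b3, Nat.sub_add_cancel hn]
  refine ⟨fun k hk hkm i => ?_, fun i => ?_, fun n hn hnm w hw i => ?_⟩
  · refine (hom_XDer hRrQ y q (fun g : Pm J m => del J k g.1.linear)
      (fun a b => b8 _ _ a.2.1 b.2.1 k hk) (S.xv v) i).trans (sum_congr rfl fun j _ => ?_)
    congr 1
    change _ = if j ∈ S.Tm then 1 else _
    unfold Sy.xv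
    split_ifs with h
    · rw [(f4 _ (hv.1 j h)).2]
      exact b9 k hk (((hLevQ V J).1 N hN).1 k (by omega))
    · rfl
  · refine (hom_XDer hRrQ y q (fun g : Pm J m => dig J (m - 1) (g.1 0))
      (fun a b => ?_) (S.xv v) i).trans (sum_congr rfl fun j _ => ?_)
    · change dig J (m - 1) (a.1 (b.1 0)) = _
      rw [aff_apply, hadd m hm _ a.2.1 _ b.2.2 _ a.2.2]
    · congr 1
      unfold Sy.xv Sy.ub
      split_ifs with h
      · rw [r0 _ (hv.1 j h), hdig m hm]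
      · rfl
  · have hx : ∀ j, (S.xv (v + w) j).1.linear = (S.xv v j).1.linear ∧
        (S.xv (v + w) j).1 0 - (S.xv v j).1 0 = -om J (w j) := fun j => by
      unfold Sy.xv
      split_ifs with h
      · have h1 := hv.1 j h
        have h2 : (v + w) j ∈ Wn J (m + 1) := add_mem h1 (b1 _ _ (by omega) (hw.1 j h))
        rw [(f4 _ h1).2, (f4 _ h2).2, r0 _ h1, r0 _ h2, Pi.add_apply, map_add]
        exact ⟨rfl, by abel⟩
      · rw [hw.2 j h, sub_self, map_zero, neg_zero]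
        exact ⟨rfl, rfl⟩
    have hw' : ∀ j, w j ∈ Wn J (n + 1) := fun j => by
      by_cases h : j ∈ S.Tm
      · exact hw.1 j h
      · rw [hw.2 j h]
        exact zero_mem _
    let x : Fin d → prs_XDer J m n := fun j => ⟨(S.xv v j, S.xv (v + w) j), (hx j).1, by
      change (S.xv (v + w) j).1 0 - (S.xv v j).1 0 ∈ _
      rw [(hx j).2]
      exact neg_mem ((b3 n _).2 (hw' j))⟩
    have e1 : (Yw y q x i).1.1 = S.Yv y q v i :=
      (hRrQ d U y q).2 _ _ ((MonoidHom.fst _ _).comp (prs_XDer J m n).subtype) x i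
    have e2 : (Yw y q x i).1.2 = S.Yv y q (v + w) i :=
      (hRrQ d U y q).2 _ _ ((MonoidHom.snd _ _).comp (prs_XDer J m n).subtype) x i
    rw [← e1, ← e2]
    refine ⟨(Yw y q x i).2.1, (Yw y q x i).2.2, ?_⟩
    refine (hom_XDer hRrQ y q (fun p : prs_XDer J m n => dig J (n - 1) (p.1.2.1 0 - p.1.1.1 0))
      (fun a b => ?_) x i).trans (sum_congr rfl fun j _ => ?_)
    · change dig J (n - 1) ((a.1.2.1 * b.1.2.1) 0 - (a.1.1.1 * b.1.1.1) 0) = _
      rw [diff_XDer _ _ a.2.1, hadd n hn _ a.1.1.2.1 _ b.2.2 _ a.2.2]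
    · change _ * dig J (n - 1) ((S.xv (v + w) j).1 0 - (S.xv v j).1 0) = _
      rw [(hx j).2, hdig n hn]

end Pool.Agent.MP_e23604_nt.Q

end

section

namespace Pool.Agent.MP_e23604_nt.Q

open Finset Filter NumberField
open MP_f68ac8_nt.Zq (Mx sg)
open MP_f68ac8_nt.Zk (Cp Yw rr NS brL)
open MP_f68ac8_nt.Nd (Lr Rcp GenQ Trm)
open scoped BigOperators Topology

theorem pi_XFib {V : Type} [Zero V] {d : ℕ} (T : Finset (Fin d)) (A : Fin d → Set V) (c : ℕ)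
    (h : ∀ j ∈ T, (A j).ncard = c) :
    {w : Fin d → V | (∀ j ∈ T, w j ∈ A j) ∧ ∀ j ∉ T, w j = 0}.ncard = c ^ T.card := by
  have e : {w : Fin d → V | (∀ j ∈ T, w j ∈ A j) ∧ ∀ j ∉ T, w j = 0}
      = Set.univ.pi fun j => if j ∈ T then A j else {0} := by
    ext w
    simp only [Set.mem_setOf_eq, Set.mem_pi, Set.mem_univ, true_imp_iff]
    constructor
    · rintro ⟨h1, h2⟩ j
      split_ifs with hj
      · exact h1 j hj
      · exact h2 j hj
    · intro h1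
      exact ⟨fun j hj => by simpa [hj] using h1 j, fun j hj => by simpa [hj] using h1 j⟩
  rw [e, ← Nat.card_coe_set_eq, Nat.card_congr (Equiv.Set.univPi _), Nat.card_pi]
  have : ∀ j, Nat.card (if j ∈ T then A j else ({0} : Set V) : Set V) = if j ∈ T then c else 1 := by
    intro j
    rw [Nat.card_coe_set_eq]
    split_ifs with hj
    · exact h j hj
    · exact Set.ncard_singleton _
  simp only [this]
  rw [prod_ite_mem, univ_inter, prod_const]

theorem fibQ (hBasQ : BasQ) (hLevQ : LevQ) : FibQ := by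
  intro V _ _ J N m hC h1 hN d S _ n hn
  obtain ⟨hmono, -⟩ := hBasQ V J hC.toCm0
  have hcard := ((hLevQ V J).1 N hC).2
  have c1 : (Wn J (n + 1) : Set V).ncard = 2 ^ (n + 1) := hcard (n + 1) (by omega)
  have c0 : (Wn J n : Set V).ncard = 2 ^ n := hcard n (by omega)
  have hsub : (Wn J n : Set V) ⊆ Wn J (n + 1) := hmono n (n + 1) (by omega)
  refine ⟨?_, fun a ha => ?_⟩
  · rw [pow_mul]
    exact pi_XFib S.Tm (fun _ => (Wn J (n + 1) : Set V)) _ fun _ _ => c1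
  · rw [pow_mul, ← pi_XFib S.Tm (fun j => {u | u ∈ Wn J (n + 1) ∧ dig J n u = a j}) (2 ^ n)]
    · congr 1
      ext w
      constructor
      · rintro ⟨⟨h2, h3⟩, h4⟩
        exact ⟨fun j hj => ⟨h2 j hj, h4 j⟩, h3⟩
      · rintro ⟨h2, h3⟩
        refine ⟨⟨fun j hj => (h2 j hj).1, h3⟩, fun j => ?_⟩
        by_cases hj : j ∈ S.Tm
        · exact (h2 j hj).2
        · rw [h3 j hj, ha j hj, dig, if_pos (zero_mem _)]
    · intro j _
      have h01 : ∀ t : ZMod 2, t = 0 ∨ t = 1 := by decide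
      rcases h01 (a j) with h | h
      · rw [← c0, h]
        congr 1
        ext u
        by_cases hu : u ∈ Wn J n
        · simpa [dig, hu] using hsub hu
        · simp [dig, hu]
      · have e : {u | u ∈ Wn J (n + 1) ∧ dig J n u = a j} = (Wn J (n + 1) : Set V) \ Wn J n := by
          rw [h]
          ext u
          by_cases hu : u ∈ Wn J n <;> simp [dig, hu]
        rw [e, Set.ncard_diff hsub, c1, c0, pow_succ]
        omega

end Pool.Agent.MP_e23604_nt.Q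

end

section

namespace Pool.Agent.MP_e23604_nt.Q

open Finset Filter NumberField
open MP_f68ac8_nt.Zq (Mx sg)
open MP_f68ac8_nt.Zk (Cp Yw rr NS brL)
open MP_f68ac8_nt.Nd (Lr Rcp GenQ Trm)
open scoped BigOperators Topology

open MP_f68ac8_nt.Nd (KQ Cst RichQ)

section
variable {d d' : ℕ} {ρ : Mx d} {κ : Fin d → ZMod 2} {H : Sh d'} {e : Fin d ↪ Fin d'} {r : Mx d'}
  {α a : ZMod 2} {γ : ZMod 2 × ZMod 2}

theorem two_XGood : (2 : ZMod 2) = 0 := rfl

theorem sq_XGood (x : ZMod 2) : x * x = x := by revert x; decide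

theorem mem_XGood (h : Lnk ρ κ H e r α a γ) {k : Fin d'} : k ∈ H.Tm ↔ ∃ j, e j = k := by
  simp [h.tm]

theorem split_XGood (h : Lnk ρ κ H e r α a γ) (i : Fin d) (f : Fin d' → ZMod 2) :
    ∑ k, f k = f (e i) + ∑ j ∈ univ.erase i, f (e j) + ∑ k ∈ H.Tmᶜ, f k := by
  rw [← sum_add_sum_compl H.Tm, add_sum_erase univ (fun j => f (e j)) (mem_univ i)]
  congr 1
  rw [h.tm, sum_map]

theorem diag_XGood (h : Lnk ρ κ H e r α a γ) {n : ℕ} (h1 : 1 ≤ n) (h2 : n ≤ H.m) (i : Fin d) :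
    Mn (H.be n) r (e i) (e i) = ∑ j ∈ univ.erase i, ρ i j + ((α + n) * ρ i i + a * κ i) := by
  have h3 := split_XGood h i fun k => r (e i) k * H.be n k
  rw [← add_sum_erase univ _ (mem_univ (e i)), add_assoc, add_right_inj, h.be n h1 h2] at h3
  simp only [Mn, if_true]
  rw [h3]
  congr 1
  exact sum_congr rfl fun j hj => by rw [h.one, mul_one, h.off i j (ne_of_mem_erase hj).symm]

theorem kq_XGood (b g : ZMod 2 × ZMod 2) (u : Fin d → ZMod 2) :
    KQ ρ κ b g u ↔ ∀ i, u i * ∑ j ∈ univ.erase i, ρ i j + ∑ j ∈ univ.erase i, ρ i j * u j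
      + u i * (b.1 * ρ i i + b.2 * κ i) + (g.1 * ρ i i + g.2 * κ i) = 0 := by
  refine forall_congr' fun i => ?_
  rw [← add_sum_erase univ _ (mem_univ i), CharTwo.add_self_eq_zero, mul_zero, zero_add]
  simp only [mul_add, sum_add_distrib, ← sum_mul, mul_comm (u i) (∑ j ∈ univ.erase i, ρ i j)]

theorem top_XGood (h : Lnk ρ κ H e r α a γ) (hm : 1 ≤ H.m) {u : Fin d' → ZMod 2}
    (hu : H.Top r u) : KQ ρ κ (α + H.m, a) γ (u ∘ e) := by
  refine (kq_XGood _ _ _).2 fun i => ?_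
  have h1 := hu.2.1 (e i) ((mem_XGood h).2 ⟨i, rfl⟩)
  rw [split_XGood h i, diag_XGood h hm le_rfl] at h1
  have h2 : ∑ j ∈ univ.erase i, Mn (H.be H.m) r (e i) (e j) * u (e j)
      = ∑ j ∈ univ.erase i, ρ i j * u (e j) := sum_congr rfl fun j hj => by
    have := (ne_of_mem_erase hj).symm
    rw [Mn, if_neg (e.injective.ne this), h.off i j this]
  have h3 : ∑ k ∈ H.Tmᶜ, Mn (H.be H.m) r (e i) k * u k = γ.1 * ρ i i + γ.2 * κ i := by
    rw [← h.ga i]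
    refine sum_congr rfl fun k hk => ?_
    have hk' := mem_compl.1 hk
    rw [hu.1 k hk', Mn, if_neg fun hh => hk' ((mem_XGood h).2 ⟨i, hh⟩)]
  rw [h2, h3] at h1
  simp only [Function.comp_apply]
  linear_combination h1

theorem out_XGood {n : ℕ} {z : Fin d' → ZMod 2} (hz : H.LK n r z) {k : Fin d'} (h1 : k ∉ H.Tm)
    (h2 : k ≠ H.kf) (h3 : k ≠ H.kc) : z k = 0 := by
  refine hz.1 k ?_
  unfold Sh.Rw
  split_ifs <;> simp [h1, h2, h3]

theorem i0_XGood (hH : H.Ok) {n : ℕ} {z : Fin d' → ZMod 2} (hz : H.LK n r z) : z H.i0 = 0 := by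
  refine hz.1 _ ?_
  have h2 : H.i0 ≠ H.kf := fun hh => hH.kf (hh ▸ hH.i0)
  have h3 : H.i0 ≠ H.kc := fun hh => hH.kc (hh ▸ hH.i0)
  unfold Sh.Rw
  split_ifs <;> simp [h2, h3]

theorem lk_XGood (hH : H.Ok) (h : Lnk ρ κ H e r α a γ) (hρ : Rcp ρ) {n : ℕ} (h1 : 1 ≤ n)
    (h2 : n ≤ H.m) {z : Fin d' → ZMod 2} (hz : H.LK n r z) :
    KQ ρ κ (α + n + 1, a) (∑ i, z (e i) * ρ i i + z H.kc, z H.kf) (z ∘ e) := by
  refine (kq_XGood _ _ _).2 fun j => ?_
  have hj := (mem_XGood h).2 ⟨j, rfl⟩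
  have h3 := hz.2 (e j) hj
  rw [split_XGood h j, diag_XGood h h1 h2] at h3
  have h4 : ∑ i ∈ univ.erase j, z (e i) * Mn (H.be n) r (e i) (e j)
      = ∑ i ∈ univ.erase j, ρ j i * z (e i) + ρ j j * ∑ i ∈ univ.erase j, z (e i) * ρ i i := by
    rw [mul_sum, ← sum_add_distrib]
    refine sum_congr rfl fun i hi => ?_
    have := ne_of_mem_erase hi
    rw [Mn, if_neg (e.injective.ne this), h.off i j this, hρ j i this.symm]
    ring
  have h5 : ∑ k ∈ H.Tmᶜ, z k * Mn (H.be n) r k (e j) = z H.kf * κ j + z H.kc * ρ j j := by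
    rw [← sum_subset (s₁ := {H.kf, H.kc}), sum_pair hH.ne, Mn, Mn,
      if_neg (ne_of_mem_of_not_mem hj hH.kf).symm, if_neg (ne_of_mem_of_not_mem hj hH.kc).symm,
      h.kf, h.kc]
    · intro k hk
      rcases mem_insert.1 hk with rfl | hk
      · exact mem_compl.2 hH.kf
      · rw [mem_singleton.1 hk]; exact mem_compl.2 hH.kc
    · intro k hk hk'
      simp only [mem_insert, mem_singleton, not_or] at hk'
      rw [out_XGood hz (mem_compl.1 hk) hk'.1 hk'.2, zero_mul]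
  rw [h4, h5] at h3
  simp only [Function.comp_apply]
  rw [← add_sum_erase univ (fun i => z (e i) * ρ i i) (mem_univ j)]
  linear_combination h3 + z (e j) * sq_XGood (ρ j j) + z (e j) * ρ j j * two_XGood

theorem ext_XGood (h : Lnk ρ κ H e r α a γ) {n : ℕ} {z z' : Fin d' → ZMod 2} (hz : H.LK n r z)
    (hz' : H.LK n r z') (h1 : ∀ j, z (e j) = z' (e j)) (h2 : z H.kf = z' H.kf)
    (h3 : z H.kc = z' H.kc) : z = z' := by
  funext k
  by_cases hk : k ∈ H.Tm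
  · obtain ⟨j, rfl⟩ := (mem_XGood h).1 hk
    exact h1 j
  by_cases hf : k = H.kf
  · rw [hf, h2]
  by_cases hc : k = H.kc
  · rw [hc, h3]
  rw [out_XGood hz hk hf hc, out_XGood hz' hk hf hc]

theorem eq_XGood {Sm Lg : Finset (Fin d)} {L B : ℕ} (hH : H.Ok) (h : Lnk ρ κ H e r α a γ)
    (hρ : Rcp ρ) (hG : GenQ Sm Lg B L ρ κ) {n : ℕ} (h1 : 1 ≤ n) (h2 : n ≤ H.m)
    {z z' : Fin d' → ZMod 2} (hz : H.LK n r z) (hz' : H.LK n r z')
    (h3 : ∀ j, z (e j) = z' (e j)) : z = z' := by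
  have h4 := hG.g4 (z H.kc - z' H.kc, z H.kf - z' H.kf) fun i => by
    have h5 := lk_XGood hH h hρ h1 h2 hz i
    have h6 := lk_XGood hH h hρ h1 h2 hz' i
    simp only [Function.comp_apply, h3] at h5 h6 ⊢
    linear_combination h5 - h6
  exact ext_XGood h hz hz' h3 (sub_eq_zero.1 (congrArg Prod.snd h4))
    (sub_eq_zero.1 (congrArg Prod.fst h4))

theorem ncst_XGood (h : Lnk ρ κ H e r α a γ) {u : Fin d' → ZMod 2} (hu : H.Top r u) :
    ¬ Cst (u ∘ e) := by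
  obtain ⟨j, hj, k, hk, hjk⟩ := hu.2.2
  obtain ⟨j, rfl⟩ := (mem_XGood h).1 hj
  obtain ⟨k, rfl⟩ := (mem_XGood h).1 hk
  exact fun hc => hjk (hc j k)

theorem val_XGood {Sm Lg : Finset (Fin d)} {L B : ℕ} (hH : H.Ok) (hm : 1 ≤ H.m)
    (h : Lnk ρ κ H e r α a γ) (hρ : Rcp ρ) (hG : GenQ Sm Lg B L ρ κ) {n : ℕ} (h1 : 1 ≤ n)
    (h2 : n ≤ H.m) {u z : Fin d' → ZMod 2} (hu : H.Top r u) (hz : H.LK n r z)
    (hr : ¬ Rich (Sm.map e) (Lg.map e) L u z) (h0 : z ≠ 0) (j : Fin d) :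
    z (e j) = u (e j) + u H.i0 := by
  obtain ⟨i, hi⟩ := (mem_XGood h).1 hH.i0
  have hi0 : z (e i) = 0 := by rw [hi]; exact i0_XGood hH hz
  rcases hG.g2 _ _ _ _ _ _ (top_XGood h hm hu) (lk_XGood hH h hρ h1 h2 hz) with hc | hc | hc | hc
  · exact (ncst_XGood h hu hc).elim
  · refine (h0 (eq_XGood hH h hρ hG h1 h2 hz ⟨fun _ _ => rfl, fun _ _ => by simp⟩
      fun k => ?_)).elim
    exact (hc k i).trans hi0
  · have h3 := hc j i
    simp only [Pi.add_apply, Function.comp_apply] at h3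
    rw [hi0, hi] at h3
    linear_combination h3 - u (e j) * two_XGood
  · refine (hr ⟨?_, fun b => ?_⟩).elim
    · obtain ⟨t, ht, -, h4⟩ := (hc 0 1).1
      exact ⟨e t, mem_map_of_mem e ht, by rw [show z (e t) = 1 from h4]; exact one_ne_zero⟩
    · rw [filter_map, card_map]
      exact (hc b 0).2

end

theorem goodQ : GoodQ := by
  intro d d' ρ κ H e r α a γ Sm Lg L B hH hm h hρ hG
  refine ⟨?_, h.cj, fun n h1 h2 u hu z z' hz hz' hr hr' h0 h0' => ⟨?_, ?_⟩⟩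
  · refine le_trans (Set.ncard_le_ncard_of_injOn (fun u => u ∘ e)
      (fun u hu => top_XGood h hm hu) ?_ (Set.toFinite _)) (hG.g1 (α + H.m, a) γ)
    intro u hu u' hu' huu
    funext k
    by_cases hk : k ∈ H.Tm
    · obtain ⟨j, rfl⟩ := (mem_XGood h).1 hk
      exact congrFun huu j
    · rw [hu.1 k hk, hu'.1 k hk]
  · refine eq_XGood hH h hρ hG h1 (by omega) hz hz' fun j => ?_
    rw [val_XGood hH hm h hρ hG h1 (by omega) hu hz hr h0,
      val_XGood hH hm h hρ hG h1 (by omega) hu hz' hr' h0']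
  · by_contra hne
    have h3 : ∀ x y : ZMod 2, x + 1 ≠ y → x = y := by decide
    have h4 := h3 _ _ hne
    have h5 := lk_XGood hH h hρ h1 (by omega) hz
    generalize (∑ i, z (e i) * ρ i i + z H.kc, z H.kf) = g at h5
    refine ncst_XGood h hu (hG.g3 _ _ (g.1 + u H.i0 * (α + H.m + 1), g.2 + u H.i0 * a) _
      (top_XGood h hm hu) fun i => ?_)
    have h6 := h5 i
    simp only [Function.comp_apply, val_XGood hH hm h hρ hG h1 (by omega) hu hz hr h0, h4] at h6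
    simp only [Function.comp_apply, Prod.fst_add, Prod.snd_add]
    have h7 : ∑ j, ρ i j * (u (e i) + u H.i0 + (u (e j) + u H.i0))
        = ∑ j, ρ i j * (u (e i) + u (e j)) := sum_congr rfl fun j _ => by
      linear_combination ρ i j * u H.i0 * two_XGood
    rw [h7] at h6
    linear_combination h6

end Pool.Agent.MP_e23604_nt.Q

end

section

namespace Pool.Agent.MP_e23604_nt.Q

open Finset Filter NumberField
open MP_f68ac8_nt.Zq (Mx sg)
open MP_f68ac8_nt.Zk (Cp Yw rr NS brL)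
open MP_f68ac8_nt.Nd (Lr Rcp GenQ Trm)
open scoped BigOperators Topology

section
variable {V : Type} [AddCommGroup V] {J : V ≃ₗ[ℤ] V}

theorem four_XHom
    (h2 : ∀ n u, 2 • u ∈ Wn J n ↔ u ∈ Wn J (n + 2)) (t n : ℕ) (u : V) (hu : u ∈ Wn J (n + 4)) :
    (4 * t) • u ∈ Wn J n := by
  have h1 : 2 • u ∈ Wn J (n + 2) := (h2 _ _).2 hu
  have h3 : 2 • (2 • u) ∈ Wn J n := (h2 _ _).2 h1
  have e : (4 * t) • u = t • (2 • (2 • u)) := by
    rw [smul_smul, smul_smul]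
    congr 1
    ring
  rw [e]
  exact nsmul_mem h3 _

theorem back_XHom (hm : ∀ a b, a ≤ b → Wn J a ≤ Wn J b)
    (h2 : ∀ n u, 2 • u ∈ Wn J n ↔ u ∈ Wn J (n + 2)) (t n : ℕ) (u : V)
    (hu : u + (4 * t) • u ∈ Wn J n) : ∀ k, u ∈ Wn J (n + k) → u ∈ Wn J n := by
  intro k
  induction k with
  | zero => exact fun h => h
  | succ k ih =>
    intro h
    apply ih
    have h4 : (4 * t) • u ∈ Wn J (n + k) :=
      four_XHom h2 t _ u (hm _ _ (by omega) h)
    have := sub_mem (hm _ _ (Nat.le_add_right n k) hu) h4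
    simpa using this

theorem ex_XHom [Fintype V] {N : ℕ} (hm : ∀ a b, a ≤ b → Wn J a ≤ Wn J b) (h0 : Wn J 0 = ⊥)
    (h2 : ∀ n u, 2 • u ∈ Wn J n ↔ u ∈ Wn J (n + 2)) (htop : ∀ u, u ∈ Wn J N) (t m : ℕ) (o : V)
    (ho : o ∈ Wn J (m + 4)) : ∃ h : Pm J m, ∀ y, h.1 y = y + (4 * t) • (y - o) := by
  let f : V →ₗ[ℤ] V := LinearMap.id + (4 * t) • LinearMap.id
  have hf : ∀ u, f u = u + (4 * t) • u := fun u => rfl
  have hb : ∀ n u, f u ∈ Wn J n → u ∈ Wn J n := fun n u hu =>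
    back_XHom hm h2 t n u hu N (hm _ _ (Nat.le_add_left N n) (htop u))
  have hinj : Function.Injective f := by
    rw [injective_iff_map_eq_zero]
    intro u hu
    have := hb 0 u (by rw [hu]; exact zero_mem _)
    rw [h0] at this
    exact this
  let L : V ≃ₗ[ℤ] V := LinearEquiv.ofBijective f (Finite.injective_iff_bijective.1 hinj)
  have hL : ∀ u, L u = u + (4 * t) • u := fun u => rfl
  have hr : ∀ y, rot0 L o y = y + (4 * t) • (y - o) := by
    intro y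
    change o + L (-o + y) = _
    rw [hL, neg_add_eq_sub]
    abel
  refine ⟨⟨rot0 L o, fun n u => ?_, ?_⟩, hr⟩
  · change L u ∈ _ ↔ _
    refine ⟨hb n u, fun hu => ?_⟩
    rw [hL]
    exact add_mem hu (nsmul_mem hu _)
  · rw [hr, zero_add, zero_sub]
    exact four_XHom h2 t m _ (neg_mem ho)

theorem comm_XHom {m t : ℕ} {o : V} (h : Pm J m) (hh : ∀ y, h.1 y = y + (4 * t) • (y - o))
    (g : Pm J m) (hg : g.1 o = o) : h * g * h⁻¹ = g := by
  rw [mul_inv_eq_iff_eq_mul]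
  apply Subtype.ext
  ext y
  change h.1 (g.1 y) = g.1 (h.1 y)
  rw [aff_apply] at hg
  rw [hh, hh, aff_apply g.1 y, aff_apply g.1 (y + _), map_add, map_nsmul, map_sub]
  have : g.1.linear y + g.1 0 - o = g.1.linear y - g.1.linear o := by
    rw [eq_sub_of_add_eq' hg]
    abel
  rw [this]
  abel

end

theorem homQ (hBasQ : BasQ) (hFilQ : FilQ) (hRrQ : RrQ) : HomQ := by
  intro V _ _ J N m hC hm1 hmN d S hS U y q v hv t
  obtain ⟨hm, h0, -, -, h2, -⟩ := hBasQ V J hC.toCm0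
  obtain ⟨-, -, -, hrot, -⟩ := hFilQ V J hC.toCm0 m
  obtain ⟨h, hh⟩ := ex_XHom hm h0 h2 hC.top t m S.o hS.o
  have hlow : ∀ j ∈ S.Tm, (4 * t) • (v j - S.o) ∈ Wn J m := fun j hj =>
    four_XHom h2 t m _ (sub_mem (hm _ _ (by omega) (hv.cand.1 j hj)) hS.o)
  set w : Fin d → V := fun j => if j ∈ S.Tm then v j + (4 * t) • (v j - S.o) else 0 with hw
  have hwj : ∀ j ∈ S.Tm, w j = h.1 (v j) := fun j hj => by
    rw [hh]
    simp only [hw, if_pos hj]
  have hcand : S.Cand m w := by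
    refine ⟨fun j hj => ?_, fun j hj => by simp only [hw, if_neg hj]⟩
    rw [hwj j hj, hh]
    exact add_mem (hv.cand.1 j hj) (hm _ _ (by omega) (hlow j hj))
  have hx : S.xv w = fun j => (MulAut.conj h).toMonoidHom (S.xv v j) := by
    funext j
    change _ = h * S.xv v j * h⁻¹
    by_cases hj : j ∈ S.Tm
    · simp only [Sy.xv, if_pos hj]
      rw [eq_mul_inv_iff_mul_eq]
      apply Subtype.ext
      ext z
      change (rot J m (w j)).1 (h.1 z) = h.1 ((rot J m (v j)).1 z)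
      rw [(hrot _ (hcand.1 j hj)).1, (hrot _ (hv.cand.1 j hj)).1, hwj j hj, hh, hh, hh]
      have e : z + (4 * t) • (z - S.o) - (v j + (4 * t) • (v j - S.o)) =
          (z - v j) + (4 * t) • (z - v j) := by
        simp only [smul_sub]
        abel
      rw [e, map_add, map_nsmul]
      generalize J (z - v j) = a
      simp only [smul_sub, smul_add]
      abel
    · simp only [Sy.xv, if_neg hj]
      exact (comm_XHom h hh _ (hS.fix j hj)).symm
  have hY : ∀ i, S.Yv y q w i = h * S.Yv y q v i * h⁻¹ := by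
    intro i
    unfold Sy.Yv
    rw [hx, ← (hRrQ d U y q).2]
    rfl
  have hkf : S.Yv y q w S.kf = S.Yv y q v S.kf := by
    rw [hY, comm_XHom h hh _ hv.fo]
  refine ⟨hcand, fun i hi => ?_, by rw [hkf]; exact hv.fo, by rw [hkf]; exact hv.ff, ?_, ?_⟩
  · rw [hY, hwj i hi]
    have e1 : (h * S.Yv y q v i * h⁻¹).1 (h.1 (v i)) = h.1 ((S.Yv y q v i).1 (v i)) := by
      change h.1 ((S.Yv y q v i).1 (h.1⁻¹ (h.1 (v i)))) = _
      congr 2
      exact h.1.symm_apply_apply _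
    rw [e1, hh, hh]
    have := hv.tam i hi
    generalize (S.Yv y q v i).1 (v i) = a at this ⊢
    have e : a + (4 * t) • (a - S.o) - (v i + (4 * t) • (v i - S.o)) =
        (a - v i) + (4 * t) • (a - v i) := by
      simp only [smul_sub]
      abel
    rw [e]
    exact add_mem this (nsmul_mem this _)
  · rw [hY]
    have := hv.cc
    generalize S.Yv y q v S.kc = a at this
    calc h * a * h⁻¹ * (h * a * h⁻¹) = h * (a * a) * h⁻¹ := by group
      _ = 1 := by rw [this]; simp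
  · obtain ⟨j, hj, k, hk, hjk⟩ := hv.nc
    have hd : ∀ j ∈ S.Tm, dig J m (w j) = dig J m (v j) := by
      intro j hj
      rw [hwj j hj, hh]
      have : v j + (4 * t) • (v j - S.o) ∈ Wn J m ↔ v j ∈ Wn J m :=
        Submodule.add_mem_iff_left _ (hlow j hj)
      by_cases hv : v j ∈ Wn J m
      · rw [dig, dig, if_pos hv, if_pos (this.2 hv)]
      · rw [dig, dig, if_neg hv, if_neg (mt this.1 hv)]
    exact ⟨j, hj, k, hk, by rw [hd j hj, hd k hk]; exact hjk⟩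

end Pool.Agent.MP_e23604_nt.Q

end

section

namespace Pool.Agent.MP_e23604_nt.Q

open Finset Filter NumberField
open MP_f68ac8_nt.Zq (Mx sg)
open MP_f68ac8_nt.Zk (Cp Yw rr NS brL)
open MP_f68ac8_nt.Nd (Lr Rcp GenQ Trm)
open scoped BigOperators Topology

section
variable {V : Type} [AddCommGroup V] {J : V ≃ₗ[ℤ] V} {m : ℕ}

theorem diff_XInv (g g' : Pm J m) (y : V) :
    g.1 y - g'.1 y = g'.1.linear ((g'⁻¹ * g).1 y - y) := by
  have e : g.1 y = g'.1 ((g'⁻¹ * g).1 y) := by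
    change g.1 y = (g' * (g'⁻¹ * g)).1 y
    rw [mul_inv_cancel_left]
  rw [e, aff_apply g'.1 ((g'⁻¹ * g).1 y), aff_apply g'.1 y, map_sub]
  abel

theorem dig_add_XInv {j : ℕ} {u u' : V} (h : u - u' ∈ Wn J j) : dig J j u = dig J j u' := by
  have e : u ∈ Wn J j ↔ u' ∈ Wn J j := by
    constructor
    · intro a
      have := sub_mem a h
      rwa [sub_sub_cancel] at this
    · intro a
      have := add_mem h a
      rwa [sub_add_cancel] at this
  unfold dig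
  by_cases a : u ∈ Wn J j
  · rw [if_pos a, if_pos (e.1 a)]
  · rw [if_neg a, if_neg fun b => a (e.2 b)]

theorem dig_pre_XInv {a : V ≃ₗ[ℤ] V} (ha : Pre J a) (j : ℕ) (u : V) :
    dig J j (a u) = dig J j u := by
  unfold dig
  by_cases b : u ∈ Wn J j
  · rw [if_pos b, if_pos ((ha j u).2 b)]
  · rw [if_neg b, if_neg fun c => b ((ha j u).1 c)]

theorem one_XInv (hFilQ : FilQ) (h0 : Cm0 J) {k : ℕ} {g g' : Pm J m} (hc : g'⁻¹ * g ∈ Fk J m k)
    {y : V} (hy : y ∈ Wn J (m + 1)) : g.1 y - g'.1 y ∈ Wn J (m + 1 - k) := by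
  rw [diff_XInv]
  exact (g'.2.1 _ _).2 ((hFilQ V J h0 m).2.2.1 k _ hc y hy)

theorem two_XInv (hBasQ : BasQ) (h0 : Cm0 J) {k : ℕ} (hk : k ≤ m) {g g' : Pm J m}
    (hc : g'⁻¹ * g ∈ Fk J m k) : g.1 (g.1 0) - g'.1 (g'.1 0) ∈ Wn J (m - k) := by
  obtain ⟨hmono, -, -, -, h2, -, hpre, -, -⟩ := hBasQ V J h0
  have e1 := diff_XInv g g' (g.1 0)
  have e2 := diff_XInv g g' 0
  set c := g'⁻¹ * g with hcdef
  have hc0 : c.1 0 ∈ Wn J (m - k + 1) := by
    have := hc.1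
    rwa [show m + 1 - k = m - k + 1 by omega] at this
  have a1 : c.1.linear (g.1 0) - g.1 0 ∈ Wn J (m - k) := hc.2 m _ g.2.2
  have a2 : g'.1.linear (c.1 0) - c.1 0 ∈ Wn J (m - k) := (hpre _ g'.2.1).1 _ _ hc0
  have a3 : 2 • c.1 0 ∈ Wn J (m - k) := (h2 _ _).2 (hmono _ _ (by omega) hc0)
  have e3 : g'.1 (g.1 0) - g'.1 (g'.1 0) = g'.1.linear (g.1 0 - g'.1 0) := by
    rw [aff_apply g'.1 (g.1 0), aff_apply g'.1 (g'.1 0), map_sub]
    abel
  have e : g.1 (g.1 0) - g'.1 (g'.1 0) = g'.1.linear ((c.1.linear (g.1 0) - g.1 0) +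
      (g'.1.linear (c.1 0) - c.1 0) + 2 • c.1 0) := by
    have e4 : g.1 (g.1 0) - g'.1 (g'.1 0) =
        (g.1 (g.1 0) - g'.1 (g.1 0)) + (g'.1 (g.1 0) - g'.1 (g'.1 0)) := by abel
    rw [e4, e1, e3, e2, ← map_add, aff_apply c.1 (g.1 0), sub_zero, two_smul]
    congr 1
    abel
  rw [e]
  exact (g'.2.1 _ _).2 (add_mem (add_mem a1 a2) a3)

end

theorem invQ (hBasQ : BasQ) (hFilQ : FilQ) : InvQ := by
  intro V _ _ J N m hCm h1 hN d S hS n v Z Z' hn hnm hv hZ hc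
  have h0 : Cm0 J := hCm.toCm0
  have hkf : S.kf ∉ S.Tm := hS.sh.kf
  have hkc : S.kc ∉ S.Tm := hS.sh.kc
  have hne : S.kf ≠ S.kc := hS.sh.ne
  obtain ⟨hmono, -, -, -, -, hadd, -, -, -⟩ := hBasQ V J h0
  have tame : ∀ k i, i ∈ S.Tm → (Z' i)⁻¹ * Z i ∈ Fk J m k →
      S.Ev Z v i - S.Ev Z' v i ∈ Wn J (m + 1 - k) := by
    intro k i hi h
    simp only [Sy.Ev, if_pos hi, sub_sub_sub_cancel_right]
    exact one_XInv hFilQ h0 h (hv.1 i hi)
  have frob : ∀ k, (Z' S.kf)⁻¹ * Z S.kf ∈ Fk J m k →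
      S.Ev Z v S.kf - S.Ev Z' v S.kf ∈ Wn J (m + 1 - k) := by
    intro k h
    simp only [Sy.Ev, if_neg hkf, if_true, sub_sub_sub_cancel_right]
    exact one_XInv hFilQ h0 h (zero_mem _)
  have oth : ∀ k i, k ≤ m → i ∉ S.Tm → i ≠ S.kf → (Z' i)⁻¹ * Z i ∈ Fk J m k →
      S.Ev Z v i - S.Ev Z' v i ∈ Wn J (m - k) := by
    intro k i hk hi hf h
    simp only [Sy.Ev, if_neg hi, if_neg hf]
    exact two_XInv hBasQ h0 hk h
  have back : ∀ j i, S.Ev Z v i ∈ Wn J j → S.Ev Z v i - S.Ev Z' v i ∈ Wn J j →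
      S.Ev Z' v i ∈ Wn J j := by
    intro j i a b
    have := sub_mem a b
    rwa [sub_sub_cancel] at this
  have r1 : m + 1 - (m + 1 - n) = n := by omega
  have r2 : m - (m + 1 - n) = n - 1 := by omega
  have r3 : m + 1 - (m + 1 - n + 1) = n - 1 := by omega
  have r4 : m - (m + 1 - n + 1) = n - 2 := by omega
  have hC : S.Cond n Z' v := by
    refine ⟨fun i hi hi0 => back _ _ (hZ.1 i hi hi0) ?_, back _ _ hZ.2.1 ?_, back _ _ hZ.2.2 ?_⟩
    · have := tame _ i hi (hc i)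
      rwa [r1] at this
    · have := frob _ (hc _)
      rwa [r1] at this
    · have := oth _ _ (by omega) hkc hne.symm (hc _)
      rwa [r2] at this
  refine ⟨hC, fun i hi => ?_, fun t ht ht0 => ?_⟩
  · unfold Sy.ob
    by_cases hik : i = S.kc
    · rw [if_pos hik, if_pos hik]
      have := oth _ i (by omega) (hik ▸ hkc) (hik ▸ hne.symm) hi
      rw [r4] at this
      exact dig_add_XInv this
    · rw [if_neg hik, if_neg hik]
      refine dig_add_XInv ?_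
      by_cases hT : i ∈ S.Tm
      · have := tame _ i hT hi
        rwa [r3] at this
      · by_cases hf : i = S.kf
        · subst hf
          have := frob _ hi
          rwa [r3] at this
        · have := oth _ i (by omega) hT hf hi
          rw [r4] at this
          exact hmono _ _ (by omega) this
  · have htk : t ≠ S.kc := fun e => hkc (e ▸ ht)
    unfold Sy.ob
    rw [if_neg htk, if_neg htk]
    have e : S.Ev Z v t = S.Ev Z' v t +
        (Z' t).1.linear (((Z' t)⁻¹ * Z t).1 (v t) - v t) := by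
      rw [← diff_XInv]
      simp only [Sy.Ev, if_pos ht]
      abel
    have r5 : n - 1 + 1 = n := by omega
    have a1 : S.Ev Z' v t ∈ Wn J (n - 1 + 1) := by
      rw [r5]
      exact hC.1 t ht ht0
    have a2 : (Z' t).1.linear (((Z' t)⁻¹ * Z t).1 (v t) - v t) ∈ Wn J (n - 1 + 1) := by
      rw [r5, ← diff_XInv]
      have := one_XInv hFilQ h0 (hc t) (hv.1 t ht)
      rwa [r1] at this
    rw [e, hadd _ _ a1 _ a2, dig_pre_XInv (Z' t).2.1]

end Pool.Agent.MP_e23604_nt.Q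

end

section

namespace Pool.Agent.MP_e23604_nt.Q

open Finset Filter NumberField
open MP_f68ac8_nt.Zq (Mx sg)
open MP_f68ac8_nt.Zk (Cp Yw rr NS brL)
open MP_f68ac8_nt.Nd (Lr Rcp GenQ Trm)
open scoped BigOperators Topology

theorem iter_XIt (m : ℕ) (f g : ℕ → ℝ) (hf : ∀ n, 0 ≤ f n ∧ f n ≤ 2) (hg : ∀ n, 0 ≤ g n ∧ g n ≤ 1)
    (hff : ∀ n, f n * f (n + 1) = 1) (j : ℕ) (hj : 2 * j + 2 ≤ m) :
    ∃ c : ℕ → ℝ, (∀ n, |c n| ≤ 2) ∧ (∀ n, n < m - 2 * j → c n = 0) ∧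
      ∀ (N E : ℕ → ℝ) (B : ℝ), (∀ n, 2 ≤ n → n + 1 ≤ m → N (n - 1) ≤ f n * N n + g n * E n) →
        N (m - 1) ≤ B → N (m - 1 - 2 * j) ≤ B + ∑ n ∈ Ico 2 m, c n * E n := by
  induction j with
  | zero => exact ⟨fun _ => 0, fun _ => by simp, fun _ _ => rfl, fun N E B _ h => by simpa using h⟩
  | succ j ih =>
    obtain ⟨c, h1, h2, h3⟩ := ih (by omega)
    obtain ⟨k, hk⟩ : ∃ k, m = k + 3 + 2 * j := ⟨m - 3 - 2 * j, by omega⟩
    refine ⟨fun n => c n + ((if n = k + 2 then f (k + 1) * g (k + 2) else 0) +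
      if n = k + 1 then g (k + 1) else 0), fun n => ?_, fun n hn => ?_, fun N E B hN hB => ?_⟩
    · beta_reduce
      by_cases e1 : n = k + 2
      · rw [h2 n (by omega), if_pos e1, if_neg (by omega), zero_add, add_zero,
          abs_of_nonneg (mul_nonneg (hf _).1 (hg _).1)]
        nlinarith [hf (k + 1), hg (k + 2)]
      · by_cases e2 : n = k + 1
        · rw [h2 n (by omega), if_neg e1, if_pos e2, zero_add, zero_add, abs_of_nonneg (hg _).1]
          linarith [hg (k + 1)]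
        · rw [if_neg e1, if_neg e2, add_zero, add_zero]
          exact h1 n
    · show c n + ((if n = k + 2 then f (k + 1) * g (k + 2) else 0) +
        if n = k + 1 then g (k + 1) else 0) = 0
      rw [h2 n (by omega), if_neg (by omega), if_neg (by omega)]
      simp
    · have h4 := h3 N E B hN hB
      have h5 := hN (k + 2) (by omega) (by omega)
      have h6 := hN (k + 1) (by omega) (by omega)
      rw [show m - 1 - 2 * j = k + 2 by omega] at h4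
      rw [show m - 1 - 2 * (j + 1) = k by omega]
      rw [show k + 2 - 1 = k + 1 by omega] at h5
      rw [show k + 1 - 1 = k by omega] at h6
      simp only [add_mul, sum_add_distrib, ite_mul, zero_mul, sum_ite_eq', mem_Ico]
      rw [if_pos (by omega), if_pos (by omega)]
      have h7 := mul_le_mul_of_nonneg_left h5 (hf (k + 1)).1
      rw [mul_add, ← mul_assoc, hff (k + 1), one_mul] at h7
      linarith

theorem sg_le_XIt (x : ZMod 2) : (sg x : ℝ) ≤ 1 := by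
  unfold sg
  split_ifs <;> norm_num

open Classical in
theorem few_XIt {d : ℕ} {H : Sh d} {Sm Lg : Finset (Fin d)} {L B : ℕ} {r : Mx d}
    (hG : H.Good Sm Lg L B r) {n : ℕ} (h1 : 1 ≤ n) (h2 : n + 1 ≤ H.m) {u : Fin d → ZMod 2}
    (hu : H.Top r u) (s : (Fin d → ZMod 2) → ZMod 2) :
    (∑ z : Fin d → ZMod 2, if H.LK n r z ∧ ¬ Rich Sm Lg L u z then (sg (s z) : ℝ) else 0)
      ≤ if (n : ZMod 2) + 1 = H.m then 2 else 1 := by
  rw [← sum_filter]
  refine (sum_le_card_nsmul _ _ 1 fun z _ => sg_le_XIt _).trans ?_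
  rw [nsmul_eq_mul, mul_one]
  set F := univ.filter fun z : Fin d → ZMod 2 => H.LK n r z ∧ ¬ Rich Sm Lg L u z with hF
  have hc : (F.erase 0).card ≤ 1 := card_le_one.2 fun a ha b hb => by
    simp only [hF, mem_erase, mem_filter, mem_univ, true_and] at ha hb
    exact (hG.few n h1 h2 u hu a b ha.2.1 hb.2.1 ha.2.2 hb.2.2 ha.1 hb.1).1
  have hc' : F.card ≤ (F.erase 0).card + 1 := by
    have := pred_card_le_card_erase (s := F) (a := 0)
    omega
  split_ifs with h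
  · exact_mod_cast (by omega : F.card ≤ 2)
  · have : F.erase 0 = ∅ := eq_empty_of_forall_notMem fun a ha => by
      simp only [hF, mem_erase, mem_filter, mem_univ, true_and] at ha
      exact h (hG.few n h1 h2 u hu a a ha.2.1 ha.2.1 ha.2.2 ha.2.2 ha.1 ha.1).2
    rw [this, card_empty] at hc'
    exact_mod_cast hc'

theorem itQ (hRecQ : RecQ) (hTopQ : TopQ) : ItQ := by
  classical
  intro V _ _ J N m hC hm hN d S hS h hh
  have hR := hRecQ V J N m hC hm hN d S hS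
  have hT := hTopQ V J N m hC hm hN d S hS
  set p : ℕ → ℝ := fun n => if S.pi + n = 1 then 1 / 2 else 1 with hp
  set e : ℕ → ℝ := fun n => if (n : ZMod 2) + 1 = m then 2 else 1 with he
  have hp1 : ∀ n, 0 ≤ p n ∧ p n ≤ 1 := fun n => by
    simp only [hp]
    split_ifs <;> norm_num
  have he1 : ∀ n, 0 ≤ e n ∧ e n ≤ 2 := fun n => by
    simp only [he]
    split_ifs <;> norm_num
  have hQ : ∀ n : ℕ, (1 : ℝ) ≤ 2 ^ n := fun n => one_le_pow₀ (by norm_num)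
  have hz : ∀ a b : ZMod 2, (a + 1 = b ↔ ¬ a = b) := by decide
  obtain ⟨c, h1, -, h3⟩ := iter_XIt m (fun n => p n * e n)
    (fun n => p n / 2 ^ ((n + 1) * S.Tm.card))
    (fun n => ⟨mul_nonneg (hp1 n).1 (he1 n).1, by nlinarith [hp1 n, he1 n]⟩)
    (fun n => ⟨div_nonneg (hp1 n).1 (by positivity),
      (div_le_one (by positivity)).2 ((hp1 n).2.trans (hQ _))⟩)
    (fun n => by
      simp only [hp, he, Nat.cast_add, Nat.cast_one, ← add_assoc, hz (S.pi + n),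
        hz ((n : ZMod 2) + 1)]
      split_ifs <;> norm_num) (h + 1) (by omega)
  refine ⟨c, h1, fun U y q Sm Lg L B hG => ?_⟩
  rw [show m - 2 * h - 3 = m - 1 - 2 * (h + 1) by omega]
  refine h3 _ _ _ (fun n hn hn' => ?_) ((hT U y q).trans (by exact_mod_cast hG.top))
  have hcj : ∑ k, rr y q 2 S.kc k * S.sh.be (n - 1) k = S.pi + n := by
    have := hG.cj (n - 1) (by omega) (show n - 1 ≤ m by omega)
    rw [Nat.cast_sub (by omega), Nat.cast_one, add_assoc, sub_add_cancel] at this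
    exact this
  refine (hR U y q n hn hn' hcj).trans ?_
  have h4 : (∑ v : Fin d → V, ∑ z : Fin d → ZMod 2,
      if v ∈ S.Sol y q n ∧ S.sh.LK n (rr y q 2) z then
        (sg (∑ i, z i * S.ob n (S.Yv y q v) v i) : ℝ) else 0)
      ≤ e n * (S.Sol y q n).ncard + S.Es y q Sm Lg L n := by
    have h5 : e n * ((S.Sol y q n).ncard : ℝ)
        = ∑ v : Fin d → V, if v ∈ S.Sol y q n then e n else 0 := by
      rw [← sum_filter, sum_const, nsmul_eq_mul, mul_comm, Set.ncard_eq_toFinset_card']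
      congr 3
      ext v
      simp
    rw [h5, Sy.Es, ← sum_add_distrib]
    refine sum_le_sum fun v _ => ?_
    by_cases hv : v ∈ S.Sol y q n
    · have h6 := few_XIt hG (n := n) (by omega) hn' hv.2.1
        fun z => ∑ i, z i * S.ob n (S.Yv y q v) v i
      rw [if_pos hv]
      refine le_trans (le_of_eq ?_) (add_le_add h6 le_rfl)
      rw [← sum_add_distrib]
      refine sum_congr rfl fun z _ => ?_
      by_cases h7 : S.sh.LK n (rr y q 2) z <;> by_cases h8 : Rich Sm Lg L (S.ub v) z <;>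
        simp [hv, h7, h8]
    · simp [hv]
  refine (mul_le_mul_of_nonneg_left h4 (div_nonneg (hp1 n).1 (by positivity))).trans_eq ?_
  simp only [Sy.Nn]
  ring

end Pool.Agent.MP_e23604_nt.Q

end

section

namespace Pool.Agent.MP_e23604_nt.Q

open Finset Filter NumberField
open MP_f68ac8_nt.Zq (Mx sg)
open MP_f68ac8_nt.Zk (Cp Yw rr NS brL)
open MP_f68ac8_nt.Nd (Lr Rcp GenQ Trm)
open scoped BigOperators Topology

theorem lev_XRes {A V : Type} [AddCommGroup A] [AddCommGroup V] {J : A ≃ₗ[ℤ] A}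
    {JV : V ≃ₗ[ℤ] V} {ι : V →ₗ[ℤ] A} (hi : Function.Injective ι)
    (hc : ∀ y, ι (JV y) = J (ι y)) (k : ℕ) (y : V) : ι y ∈ Wn J k ↔ y ∈ Wn JV k := by
  have h : ∀ (k : ℕ) (y : V), (om J ^ k) (ι y) = ι ((om JV ^ k) y) := by
    intro k
    induction k with
    | zero => intro y; rfl
    | succ k ih =>
      intro y
      rw [pow_succ, pow_succ, Module.End.mul_apply, Module.End.mul_apply, ← ih]
      congr 1
      simp [om, hc]
  rw [Wn, Wn, LinearMap.mem_ker, LinearMap.mem_ker, h, map_eq_zero_iff ι hi]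

theorem resQ (hBasQ : BasQ) (hLevQ : LevQ) : ResQ := by
  intro A _ J hI N hN
  obtain ⟨-, -, -, hP, -⟩ := hBasQ A J hI.toCm0
  obtain ⟨hex, hcard, -⟩ := (hLevQ A J).2 hI
  have hm : ∀ u ∈ Wn J N, (J : A →ₗ[ℤ] A) u ∈ Wn J N := fun u hu => (hP N u).2 hu
  let f : Wn J N →ₗ[ℤ] Wn J N := (J : A →ₗ[ℤ] A).restrict hm
  have hf : ∀ y, f (f y) = -y := fun y => Subtype.ext (hI.sq y)
  let JV : Wn J N ≃ₗ[ℤ] Wn J N := LinearEquiv.ofLinear f (-f)
    (LinearMap.ext fun y => by simp [hf]) (LinearMap.ext fun y => by simp [hf])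
  have : Finite (Wn J N) := Nat.finite_of_card_ne_zero (by rw [hcard]; positivity)
  have hi : Function.Injective (Wn J N).subtype := Subtype.val_injective
  have hc : ∀ y, (Wn J N).subtype (JV y) = J ((Wn J N).subtype y) := fun _ => rfl
  have hl := lev_XRes hi hc
  refine ⟨Wn J N, inferInstance, Fintype.ofFinite _, JV, (Wn J N).subtype,
    ⟨⟨hf, fun u hu u' hu' h h' => hi (hI.one _ ((hl 1 u).2 hu) _ ((hl 1 u').2 hu')
      (fun e => h (Subtype.ext e)) fun e => h' (Subtype.ext e))⟩,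
      fun u => (hl N u).1 u.2, ?_⟩, hi, fun u hu => ⟨⟨u, hu⟩, rfl⟩, hc, hl⟩
  obtain ⟨u, hu, hu'⟩ := hex (N - 1)
  rw [Nat.sub_add_cancel hN] at hu
  exact ⟨⟨u, hu⟩, fun e => hu' ((hl _ _).2 e)⟩

end Pool.Agent.MP_e23604_nt.Q

end

section

namespace Pool.Agent.MP_e23604_nt.Q

open Finset Filter NumberField
open MP_f68ac8_nt.Zq (Mx sg)
open MP_f68ac8_nt.Zk (Cp Yw rr NS brL)
open MP_f68ac8_nt.Nd (Lr Rcp GenQ Trm)
open scoped BigOperators Topology
open MP_f68ac8_nt.Zk (plc)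

theorem rrQ : RrQ := by
  classical
  intro d U y q
  refine ⟨fun c i => ?_, fun P P' _ _ f x i => ?_⟩
  · simp only [Yw, rr]
    generalize y ⟨i, q i⟩ = w
    induction w using FreeGroup.induction_on with
    | C1 => simp
    | of l =>
      obtain ⟨j, u⟩ := l
      simp only [FreeGroup.lift_apply_of, plc]
      rw [sum_eq_single j]
      · by_cases h : u = q j
        · rw [if_pos h, if_pos (by rw [h]), toAdd_ofAdd, toAdd_ofAdd, one_mul]
        · rw [if_neg h, if_neg fun e => h (eq_of_heq (Sigma.mk.inj_iff.1 e).2), toAdd_one,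
            zero_mul]
      · intro k _ hk
        rw [if_neg fun e => hk (congrArg Sigma.fst e).symm, toAdd_one, zero_mul]
      · simp
    | inv_of l h => simp only [map_inv, toAdd_inv, h, neg_mul, sum_neg_distrib]
    | mul a b ha hb => simp only [map_mul, toAdd_mul, ha, hb, add_mul, sum_add_distrib]
  · simp only [Yw]
    generalize y ⟨i, q i⟩ = w
    induction w using FreeGroup.induction_on with
    | C1 => simp
    | of l =>
      simp only [FreeGroup.lift_apply_of, plc]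
      split_ifs
      · rfl
      · exact map_one f
    | inv_of l h => simp only [map_inv, h]
    | mul a b ha hb => simp only [map_mul, ha, hb]

end Pool.Agent.MP_e23604_nt.Q

end

section

namespace Pool.Agent.MP_e23604_nt.Q

open Finset Filter NumberField
open MP_f68ac8_nt.Zq (Mx sg)
open MP_f68ac8_nt.Zk (Cp Yw rr NS brL)
open MP_f68ac8_nt.Nd (Lr Rcp GenQ Trm)
open scoped BigOperators Topology

theorem topQ (hFibQ : FibQ) : TopQ := by
  classical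
  intro V _ _ J N m hC h1 h2 d S hS U y q
  have hF := (hFibQ V J N m hC h1 h2 d S hS m le_rfl).2
  set T := {u | S.sh.Top (rr y q 2) u} with hT
  have key : (S.Sol y q (m - 1)).ncard ≤ T.ncard * 2 ^ (m * S.Tm.card) := by
    rw [Set.ncard_eq_toFinset_card', Set.ncard_eq_toFinset_card', mul_comm]
    refine card_le_mul_card_image_of_maps_to (f := S.ub) (fun v hv => ?_) _ fun u _ => ?_
    · rw [Set.mem_toFinset] at hv ⊢
      exact hv.2.1
    · rw [← hF (fun j => if j ∈ S.Tm then u j else 0) fun j hj => if_neg hj, ← Set.ncard_coe_finset]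
      refine Set.ncard_le_ncard (fun v hv => ?_) (Set.toFinite _)
      rw [coe_filter, Set.mem_ofPred_eq, Set.mem_toFinset] at hv
      obtain ⟨⟨hv, -⟩, rfl⟩ := hv
      refine ⟨hv, fun j => ?_⟩
      by_cases hj : j ∈ S.Tm
      · simp only [Sy.ub, if_pos hj]
      · rw [if_neg hj, hv.2 j hj, dig, if_pos (zero_mem _)]
  rw [Sy.Nn, Nat.sub_add_cancel h1, div_le_iff₀ (by positivity)]
  exact_mod_cast key

end Pool.Agent.MP_e23604_nt.Q

end

section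

namespace Pool.Agent.MP_e23604_nt.Q

open Finset Filter NumberField
open MP_f68ac8_nt.Zq (Mx sg)
open MP_f68ac8_nt.Zk (Cp Yw rr NS brL)
open MP_f68ac8_nt.Nd (Lr Rcp GenQ Trm)
open scoped BigOperators Topology

theorem list_XTrm {α : Type} (A B : Finset α) (h : Disjoint A B) (k : ℕ) (hA : k + 1 ≤ A.card)
    (hB : 1 ≤ B.card) : ∃ (l : List α) (a b : α), l.length = k ∧ (l ++ [a, b]).Nodup ∧
      (∀ j ∈ l, j ∈ A) ∧ a ∈ A ∧ b ∈ B := by
  obtain ⟨C, hC, hc⟩ := exists_subset_card_eq hA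
  obtain ⟨b, hb⟩ := card_pos.1 hB
  have h1 : C.toList.length = k + 1 := by rw [length_toList, hc]
  have h2 : ∀ j ∈ C.toList, j ∈ A := fun j hj => hC (mem_toList.1 hj)
  have h3 : (C.toList ++ [b]).Nodup := by
    rw [List.nodup_append]
    refine ⟨C.nodup_toList, List.nodup_singleton b, fun x hx y hy e => ?_⟩
    rw [List.mem_singleton.1 hy] at e
    exact disjoint_left.1 h (h2 x hx) (e ▸ hb)
  rcases List.eq_nil_or_concat' C.toList with e | ⟨l, a, e⟩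
  · rw [e] at h1
    simp at h1
  · rw [e] at h1 h2 h3
    refine ⟨l, a, b, by simpa using h1, by simpa using h3, fun j hj => h2 j (by simp [hj]),
      h2 a (by simp), hb⟩

theorem trmQ (hBasQ : BasQ) (hFilQ : FilQ) (hBrQ : BrQ) (hInvQ : InvQ) : TrmQ := by
  intro V _ _ J N m hC hm hN d S hS Sm Lg n v z A c hSm hLg _ hn hnm hv h0 ⟨⟨t, ht, hz⟩, hR⟩ hc
  obtain ⟨n, rfl⟩ : ∃ k, n = k + 1 := ⟨n - 1, by omega⟩
  have hadd := (hBasQ V J hC.toCm0).2.2.2.2.2.1 n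
  have hF := (hFilQ V J hC.toCm0 m).2.2.1
  have htT := hLg ht
  have hvt := hv.1 t htT
  obtain ⟨l, a, b, hl, hnd, hlA, ha, hb⟩ := list_XTrm
    (Sm.filter fun j => S.ub v j = 0 ∧ z j = 0) (Sm.filter fun j => S.ub v j = 1 ∧ z j = 0)
    (disjoint_filter.2 fun j _ h h' => zero_ne_one (h.1.symm.trans h'.1)) (m - 2 - n)
    (le_trans (by omega) (hR 0)) (hm.trans (hR 1))
  have hlen : (l ++ [a, b]).length = m + 1 - (n + 1) := by
    simp only [List.length_append, List.length_cons, List.length_nil]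
    omega
  have hs : ∀ j ∈ l ++ [a, b], j ∈ Sm ∧ z j = 0 := by
    intro j hj
    simp only [List.mem_append, List.mem_cons, List.not_mem_nil, or_false] at hj
    rcases hj with hj | rfl | rfl
    · exact ⟨(mem_filter.1 (hlA j hj)).1, (mem_filter.1 (hlA j hj)).2.2⟩
    · exact ⟨(mem_filter.1 ha).1, (mem_filter.1 ha).2.2⟩
    · exact ⟨(mem_filter.1 hb).1, (mem_filter.1 hb).2.2⟩
  refine ⟨⟨S.xv v, l ++ [a, b], t, fun g => dig J n (g.1 (v t) - v t),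
    fun r Z => A r ∧ S.Cond (n + 1) Z v, fun _ Z => ∑ i, z i * S.ob (n + 1) Z v i, c⟩,
    ⟨hnd, by rw [hlen]; omega, by rw [hlen]; omega, fun j hj => (hs j hj).1, ht, ?_, ?_, ?_, ?_,
      hc⟩, fun Λ y q => ?_⟩
  · intro g hg h hh
    rw [hlen] at hg hh
    have e0 : m + 1 - (m + 1 - (n + 1)) = n + 1 := by omega
    have a1 := hF _ g hg _ hvt
    have a2 := hF _ h hh _ hvt
    rw [e0] at a1 a2
    have e : (g * h).1 (v t) - v t = (g.1 (v t) - v t) + g.1.linear (h.1 (v t) - v t) := by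
      change g.1 (h.1 (v t)) - v t = _
      rw [aff_apply g.1 (h.1 (v t)), aff_apply g.1 (v t), map_sub]
      abel
    change dig J n _ = dig J n _ + dig J n _
    rw [e, hadd _ a1 _ ((g.2.1 _ _).2 a2)]
    have a3 := g.2.1 n (h.1 (v t) - v t)
    congr 1
    by_cases a4 : h.1 (v t) - v t ∈ Wn J n
    · exact (if_pos (a3.2 a4)).trans (if_pos a4).symm
    · exact (if_neg fun x => a4 (a3.1 x)).trans (if_neg a4).symm
  · intro g hg
    rw [hlen] at hg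
    have a1 := hF _ g hg _ hvt
    rw [show m + 1 - (m + 1 - (n + 1) + 1) = n by omega] at a1
    exact if_pos a1
  · have hT : ∀ j ∈ l ++ [a, b], j ∈ S.Tm := fun j hj => hSm (hs j hj).1
    have haT := hT a (by simp)
    have hbT := hT b (by simp)
    have a1 : v a ∈ Wn J m := by
      have := (mem_filter.1 ha).2.1
      rw [Sy.ub, if_pos haT, dig] at this
      by_contra h
      rw [if_neg h] at this
      exact one_ne_zero this
    have a2 : v b ∉ Wn J m := by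
      have := (mem_filter.1 hb).2.1
      rw [Sy.ub, if_pos hbT, dig] at this
      intro h
      rw [if_pos h] at this
      exact zero_ne_one this
    obtain ⟨w, -, w2, w3⟩ := hBrQ V J hC.toCm0 m (l.map v) (v a) (v b)
      (fun u hu => by
        obtain ⟨j, hj, rfl⟩ := List.mem_map.1 hu
        exact hv.1 j (hT j (by simp [hj])))
      (hv.1 a haT) (hv.1 b hbT) (fun h => a2 (by simpa using sub_mem a1 h))
      (by rw [List.length_map]; omega)
    have e : (l ++ [a, b]).map (S.xv v) = (l.map v ++ [v a, v b]).map (rot J m) := by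
      have : l.map v ++ [v a, v b] = (l ++ [a, b]).map v := by simp
      rw [this, List.map_map]
      exact List.map_congr_left fun j hj => if_pos (hT j hj)
    rw [List.length_map, show m - 2 - l.length = n by omega] at w2
    change dig J n _ ≠ 0
    dsimp only
    rw [e, w3, add_sub_cancel_left, dig, if_neg w2]
    exact one_ne_zero
  · rintro r Z Z' ⟨h1, h2⟩ h3
    rw [hlen] at h3 ⊢
    obtain ⟨b1, b2, b3⟩ := hInvQ V J N m hC hm hN d S hS (n + 1) v Z Z' hn hnm hv h2 h3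
    refine ⟨⟨h1, b1⟩, fun h4 => ?_⟩
    have h5 : z t = 1 := by
      revert hz
      generalize z t = x
      revert x
      decide
    change ∑ i, z i * S.ob (n + 1) Z v i = ∑ i, z i * S.ob (n + 1) Z' v i + dig J n _
    rw [← add_sum_erase _ _ (mem_univ t), ← add_sum_erase _ (fun i => z i * S.ob (n + 1) Z' v i)
      (mem_univ t), h5, one_mul, one_mul, b3 t htT fun e => hz (e ▸ h0), add_right_comm]
    congr 2
    refine sum_congr rfl fun i hi => ?_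
    by_cases h6 : i ∈ l ++ [a, b]
    · rw [(hs i h6).2, zero_mul, zero_mul]
    · rw [b2 i (h4 i h6 (ne_of_mem_erase hi))]
  · unfold Trm.val
    by_cases h : A (rr (U := fun _ => Λ) y q 2) ∧ S.Cond (n + 1) (S.Yv (U := fun _ => Λ) y q v) v
    · exact (if_pos h).trans (if_pos h).symm
    · exact (if_neg h).trans (if_neg h).symm

end Pool.Agent.MP_e23604_nt.Q

end
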