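import Mathlib
import Pool.Agent.Mg.Fe23604m.Gb5685d
import Pool.Agent.Mg.Fe23604m.G2ddf31

set_option linter.all false

/-! The first moment of level one, and the monotonicity of the expected number of solutions. -/

namespace Pool.Agent.MP_f68ac8_nt.Zk

open Zv Matrix Module
open scoped commutatorElement

end Pool.Agent.MP_f68ac8_nt.Zk
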