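import Mathlib
import Pool.Agent.Mg.Fe23604m.Ga53936
import Pool.Agent.MP_f68ac8_nt.NaCnt
import Pool.Agent.MP_f68ac8_nt.NaCont
import Pool.Agent.MP_f68ac8_nt.NaCov
import Pool.Agent.MP_f68ac8_nt.NaDiff
import Pool.Agent.MP_f68ac8_nt.NaEulB
import Pool.Agent.Mg.Fe23604m.Gcb31cd
import Pool.Agent.Mg.Fe23604m.Gf45a26
import Pool.Agent.MP_f68ac8_nt.NaPack
import Pool.Agent.MP_f68ac8_nt.NaPsum
import Pool.Agent.MP_f68ac8_nt.NaReg
import Pool.Agent.MP_f68ac8_nt.NaRiem
import Pool.Agent.MP_f68ac8_nt.NaScale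
import Pool.Agent.MP_f68ac8_nt.NaTest
import Pool.Agent.MP_f68ac8_nt.NaUnf
import Pool.Agent.Mg.Fe23604m.G200097
import Pool.Agent.Mg.Fe23604m.G2d4759
import Pool.Agent.Mg.Fe23604m.G937cae
import Pool.Agent.Mg.Fe23604m.G170b11
import Pool.Agent.Mg.Fe23604m.G2ddf31
import Pool.Agent.Mg.Fe23604m.Gb3dff7

set_option linter.all false

section

namespace Pool.Agent.MP_f68ac8_nt.Nd

open Finset Filter
open Zv (Ex Prob)
open scoped BigOperators

theorem block_NeChs {q q' : ℕ} (hq : q.Prime) (hq' : q'.Prime) (ho : Odd q) (hne : q ≠ q')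
    (M : ℕ) : ∑ m ∈ Ico M (M + q * q'), jacobiSym m q * jacobiSym m q' = 0 := by
  have := Fact.mk hq
  have := Fact.mk hq'
  have hi : Set.InjOn (fun m : ℕ => ((m : ZMod q), (m : ZMod q'))) (Ico M (M + q * q')) := by
    intro a ha b hb e
    simp only [Prod.mk.injEq, ZMod.natCast_eq_natCast_iff, coe_Ico, Set.mem_Ico] at e ha hb
    refine ((Nat.modEq_and_modEq_iff_modEq_mul ((Nat.coprime_primes hq hq').2 hne)).1
      e).eq_of_abs_lt (abs_lt.2 ?_)
    omega
  have h := sum_image (f := fun z : ZMod q × ZMod q' =>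
    quadraticChar (ZMod q) z.1 * quadraticChar (ZMod q') z.2) hi
  rw [eq_univ_of_card _ ((card_image_of_injOn hi).trans (by simp)), Fintype.sum_prod_type] at h
  dsimp only at h
  rw [← sum_mul_sum, quadraticChar_sum_zero (by
      rw [ZMod.ringChar_zmod_n]
      rintro rfl
      exact absurd ho (by decide)), zero_mul] at h
  simp only [← jacobiSym.legendreSym.to_jacobiSym, legendreSym, Int.cast_natCast]
  exact h.symm

theorem part_NeChs {χ : ℕ → ℝ} {Q : ℕ} (h0 : 0 < Q) (h1 : ∀ m, |χ m| ≤ 1)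
    (h : ∀ M, ∑ m ∈ Ico M (M + Q), χ m = 0) (M N : ℕ) : |∑ m ∈ Ico M N, χ m| ≤ Q := by
  induction N using Nat.strong_induction_on with
  | _ N ih =>
    rcases le_or_gt N (M + Q) with e | e
    · refine (abs_sum_le_sum_abs _ _).trans ((sum_le_card_nsmul _ _ _ fun m _ => h1 m).trans ?_)
      rw [Nat.card_Ico, nsmul_one]
      exact Nat.cast_le.2 (by omega)
    · obtain ⟨K, rfl⟩ : ∃ K, N = K + Q := ⟨N - Q, by omega⟩
      rw [← sum_Ico_consecutive _ (by omega : M ≤ K) (Nat.le_add_right K Q), h, add_zero]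
      exact ih K (by omega)

theorem abel_NeChs {χ f : ℕ → ℝ} {Q : ℝ} {M : ℕ} (h : ∀ N, |∑ m ∈ Ico M N, χ m| ≤ Q)
    (hf : ∀ N, M ≤ N → f (N + 1) ≤ f N) {N : ℕ} (hN : M ≤ N) :
    |∑ m ∈ Ico M N, f m * χ m - f N * ∑ m ∈ Ico M N, χ m| ≤ Q * (f M - f N) := by
  induction N, hN using Nat.le_induction with
  | base => simp
  | succ N hN ih =>
    have e : ∑ m ∈ Ico M (N + 1), f m * χ m - f (N + 1) * ∑ m ∈ Ico M (N + 1), χ m =
        ∑ m ∈ Ico M N, f m * χ m - f N * ∑ m ∈ Ico M N, χ m +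
          (f N - f (N + 1)) * ∑ m ∈ Ico M (N + 1), χ m := by
      rw [sum_Ico_succ_top hN, sum_Ico_succ_top hN]
      ring
    have h1 := sub_nonneg.2 (hf N hN)
    rw [e]
    refine (abs_add_le _ _).trans ?_
    rw [abs_mul, abs_of_nonneg h1]
    linarith [mul_le_mul_of_nonneg_left (h (N + 1)) h1]

theorem chs_stmt : ChsStmt := by
  intro q q' M N s hq hq' ho _ hne hM hs
  have j1 : ∀ m k : ℕ, |(jacobiSym m k : ℝ)| ≤ 1 := fun m k => by
    rcases jacobiSym.trichotomy m k with e | e | e <;> simp [e]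
  have h := part_NeChs (χ := fun m => ((jacobiSym m q * jacobiSym m q' : ℤ) : ℝ))
    (Nat.mul_pos hq.pos hq'.pos)
    (fun m => by
      rw [Int.cast_mul, abs_mul]
      exact mul_le_one₀ (j1 m q) (abs_nonneg _) (j1 m q'))
    (fun K => by exact_mod_cast block_NeChs hq hq' ho hne K) M
  have f0 : ∀ m : ℕ, 0 ≤ (m : ℝ) ^ (-s) := fun m => by positivity
  rcases le_or_gt M N with e | e
  · have h1 := abel_NeChs (f := fun m => (m : ℝ) ^ (-s)) h (fun K hK =>
      Real.rpow_le_rpow_of_nonpos (Nat.cast_pos.2 (by omega)) (by simp) (neg_nonpos.2 hs)) e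
    have h2 := (abs_sub_abs_le_abs_sub _ _).trans h1
    rw [abs_mul, abs_of_nonneg (f0 N)] at h2
    have h3 := mul_le_mul_of_nonneg_left (h N) (f0 N)
    have h4 : 0 ≤ (q * q' : ℝ) * (M : ℝ) ^ (-s) := by positivity
    rw [Nat.cast_mul] at h2 h3
    linarith
  · rw [Ico_eq_empty_of_le e.le, sum_empty, abs_zero]
    positivity

end Pool.Agent.MP_f68ac8_nt.Nd

end

section

/-! The analytic statements that have been proved. -/

namespace Pool.Agent.MP_f68ac8_nt.Nd

theorem cheb_all : ChebStmt ∧ SelStmt := by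
  have hI := int_stmt
  have hU := unf_stmt psi_stmt
  have hG := reg_stmt pack_stmt cov_stmt test_stmt psi_stmt hU cnt_stmt
  have hD := diff_stmt pack_stmt cov_stmt (riem_stmt hI) test_stmt psi_stmt hU cnt_stmt hG
  have hC := cont_stmt (scale_stmt test_stmt hI) cnt_stmt hD
  have hL := loc_stmt hC eul_stmtB landau_stmt
  exact ⟨cheb_stmt psum_stmt (win_stmt hC eul_stmtB psum_stmt fd_stmt (free_stmt eul_stmtB hL))
    disc_stmt count_stmt artin_stmt, sel_stmt disc_stmt (exc_stmt hC) (rep_stmt psum_stmt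
      (one_stmt eul_stmtB hL) disc_stmt count_stmt grp_stmt (exc_stmt hC))⟩

theorem par_all : ParStmt :=
  par_stmt cheb_all.1 cheb_all.2 (bil_stmt (bil1_stmt chs_stmt)) (mup_stmt mert_stmt)
    (mlo_stmt mert_stmt)

theorem dens_all : DensStmt :=
  dens_stmt ker_stmt (wnd_stmt ker_stmt) mert_stmt tk_stmt (pois_stmt tupN) par_all

end Pool.Agent.MP_f68ac8_nt.Nd

end

section

namespace Pool.Agent.MP_f68ac8_nt.Zq

open Zv Zk Matrix Finset
open scoped commutatorElement BigOperators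

variable {d : ℕ}

theorem sg_add_one_ZqRd (x : ZMod 2) : sg (x + 1) = -sg x := by
  have h : ∀ x : ZMod 2, x = 0 ∨ x = 1 := by decide
  have h1 : (1 : ZMod 2) + 1 = 0 := by decide
  rcases h x with rfl | rfl
  · simp [sg]
  · simp [sg, h1]

theorem sg_le_ZqRd (x : ZMod 2) : sg x ≤ 1 := by
  unfold sg
  split_ifs <;> norm_num

theorem flip_ZqRd {α : Type} [Fintype α] (F : α → ℝ) (e : α ≃ α) (h : ∀ x, F (e x) = -F x) :
    𝔼 x, F x = 0 := by
  have h1 : 𝔼 x, F (e x) = 𝔼 x, F x := Fintype.expect_equiv e _ _ fun _ => rfl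
  simp only [h, expect_neg_distrib] at h1
  linarith

theorem sum_red_ZqRd {Φ : Mx d} (h : ∀ i, Φ i i = 0) (r : Mx d) :
    ∑ i, ∑ j, red r i j * Φ i j =
      (∑ i, ∑ j, if j < i then r i j * (Φ i j + Φ j i) else 0) + Qf Φ (dg r) := by
  have h1 : ∀ i j, red r i j * Φ i j = (if j < i then r i j * Φ i j else 0) +
      (if i < j then r j i * Φ i j else 0) + if i < j then dg r i * dg r j * Φ i j else 0 := by
    intro i j
    rcases lt_trichotomy i j with hij | rfl | hij
    · rw [red, if_neg hij.not_ge, if_neg hij.not_gt, if_pos hij, if_pos hij, dg, dg]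
      ring
    · simp [h]
    · rw [red, if_pos hij.le, if_pos hij, if_neg hij.not_gt, if_neg hij.not_gt]
      ring
  have h2 : ∀ i j, (if j < i then r i j * (Φ i j + Φ j i) else 0) =
      (if j < i then r i j * Φ i j else 0) + if j < i then r i j * Φ j i else 0 := by
    intro i j
    split_ifs <;> ring
  simp only [h1, h2, sum_add_distrib, Qf]
  rw [sum_comm (f := fun i j => if i < j then r j i * Φ i j else 0)]

theorem expect_dg_ZqRd (G : (Fin d → ZMod 2) → ℝ) : 𝔼 r : Mx d, G (dg r) = 𝔼 ε, G ε := by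
  have h1 : ∀ ε : Fin d → ZMod 2, 𝔼 r : Mx d, G (dg r) = 𝔼 r : Mx d, G (dg r + ε) := fun ε =>
    (Fintype.expect_equiv (Equiv.addRight (fun i _ => ε i : Mx d)) _ _ fun _ => rfl).symm
  have h2 : ∀ r : Mx d, 𝔼 ε, G (dg r + ε) = 𝔼 ε, G ε := fun r =>
    Fintype.expect_equiv (Equiv.addLeft (dg r)) _ _ fun _ => rfl
  calc 𝔼 r : Mx d, G (dg r) = 𝔼 ε : Fin d → ZMod 2, 𝔼 r : Mx d, G (dg r + ε) := by
        simp only [← h1, Fintype.expect_const]
    _ = 𝔼 ε, G ε := by
        rw [expect_comm]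
        simp only [h2, Fintype.expect_const]

theorem nonsym_ZqRd {Φ : Mx d} (h : ∀ i, Φ i i = 0) (g : (Fin d → ZMod 2) → ℝ) {i j : Fin d}
    (hij : j < i) (hΦ : Φ i j ≠ Φ j i) :
    𝔼 r : Mx d, g (dg r) * sg (∑ i, ∑ j, red r i j * Φ i j) = 0 := by
  have h0 : ∀ x y : ZMod 2, x ≠ y → x + y = 1 := by decide
  refine flip_ZqRd _ (Equiv.addRight (Pi.single i (Pi.single j 1))) fun r => ?_
  have h1 : dg (r + Pi.single i (Pi.single j 1)) = dg r := by
    funext k
    by_cases hk : k = i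
    · subst hk
      simp [dg, hij.ne']
    · simp [dg, hk]
  have h2 : ∀ a b, (if b < a then (r + Pi.single i (Pi.single j 1) : Mx d) a b * (Φ a b + Φ b a)
      else 0) = (if b < a then r a b * (Φ a b + Φ b a) else 0) +
        if b = j then (if a = i then 1 else 0) else 0 := by
    intro a b
    by_cases ha : a = i
    · subst ha
      by_cases hb : b = j
      · subst hb
        simp [hij, add_mul, h0 _ _ hΦ]
      · simp [hb]
    · simp [ha]
  rw [Equiv.coe_addRight, sum_red_ZqRd h, sum_red_ZqRd h, h1]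
  simp only [h2, sum_add_distrib, sum_ite_eq', mem_univ, if_true]
  rw [add_right_comm, sg_add_one_ZqRd, mul_neg]

theorem qf_add_ZqRd {Φ : Mx d} (h : ∀ i, Φ i i = 0) (hs : ∀ i j, Φ i j = Φ j i)
    (a b : Fin d → ZMod 2) :
    Qf Φ (a + b) = Qf Φ a + Qf Φ b + ∑ k, ∑ l, a k * b l * Φ k l := by
  have h1 : ∀ k l, (if k < l then (a + b) k * (a + b) l * Φ k l else 0) =
      (if k < l then a k * a l * Φ k l else 0) + (if k < l then b k * b l * Φ k l else 0) +
        ((if k < l then a k * b l * Φ k l else 0) + if k < l then a l * b k * Φ l k else 0) := by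
    intro k l
    split_ifs
    · rw [hs l k, Pi.add_apply, Pi.add_apply]
      ring
    · ring
  have h2 : ∀ k l, a k * b l * Φ k l =
      (if k < l then a k * b l * Φ k l else 0) + if l < k then a k * b l * Φ k l else 0 := by
    intro k l
    rcases lt_trichotomy k l with hkl | rfl | hkl
    · rw [if_pos hkl, if_neg hkl.not_gt, add_zero]
    · simp [h]
    · rw [if_pos hkl, if_neg hkl.not_gt, zero_add]
  have h3 : ∑ k, ∑ l, a k * b l * Φ k l = (∑ k, ∑ l, if k < l then a k * b l * Φ k l else 0) +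
      ∑ k, ∑ l, if k < l then a l * b k * Φ l k else 0 := by
    rw [sum_comm (f := fun k l => if k < l then a l * b k * Φ l k else 0), ← sum_add_distrib]
    refine sum_congr rfl fun k _ => ?_
    rw [← sum_add_distrib]
    exact sum_congr rfl fun l _ => h2 k l
  rw [h3]
  simp only [Qf, h1, sum_add_distrib]

theorem qf_single_ZqRd {Φ : Mx d} (h : ∀ i, Φ i i = 0) (hs : ∀ i j, Φ i j = Φ j i)
    (a : Fin d → ZMod 2) (i : Fin d) :
    Qf Φ (a + Pi.single i 1) = Qf Φ a + ∑ k, a k * Φ i k := by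
  have h1 : Qf Φ (Pi.single i 1) = 0 := by
    refine sum_eq_zero fun k _ => sum_eq_zero fun l _ => ?_
    split_ifs with hkl
    · by_cases hk : k = i
      · subst hk
        simp [hkl.ne']
      · simp [hk]
    · rfl
  rw [qf_add_ZqRd h hs, h1, add_zero]
  refine congrArg _ (sum_congr rfl fun k _ => ?_)
  simp [Pi.single_apply, hs k i]

theorem rd_stmt : RdStmt := by
  intro d Φ g h
  refine ⟨?_, fun hs i i' hi h1 hg hg' => ?_⟩
  · split_ifs with hs
    · have h2 : ∀ x : ZMod 2, x + x = 0 := by decide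
      rw [← expect_dg_ZqRd fun ε => g ε * sg (Qf Φ ε)]
      refine expect_congr rfl fun r _ => ?_
      rw [sum_red_ZqRd h, sum_eq_zero, zero_add]
      refine fun i _ => sum_eq_zero fun j _ => ?_
      rw [hs j i, h2, mul_zero, ite_self]
    · obtain ⟨i, hi⟩ := not_forall.1 hs
      obtain ⟨j, hj⟩ := not_forall.1 hi
      rcases lt_trichotomy i j with hij | rfl | hij
      · exact nonsym_ZqRd h g hij (Ne.symm hj)
      · exact absurd rfl hj
      · exact nonsym_ZqRd h g hij hj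
  · refine flip_ZqRd _ ((Equiv.addRight (Pi.single i 1)).trans (Equiv.addRight (Pi.single i' 1)))
      fun ε => ?_
    change g (ε + Pi.single i 1 + Pi.single i' 1) *
      sg (Qf Φ (ε + Pi.single i 1 + Pi.single i' 1)) = _
    rw [hg]
    by_cases h0 : g ε = 0
    · simp [h0]
    have h2 := hg' ε h0
    have h3 : ∑ k, (ε + Pi.single i 1 : Fin d → ZMod 2) k * Φ i' k = ∑ k, ε k * Φ i' k + 1 := by
      simp [add_mul, sum_add_distrib, Pi.single_apply, hs i' i, h1]
    simp only [mul_add, sum_add_distrib] at h2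
    rw [qf_single_ZqRd h hs, qf_single_ZqRd h hs, h3, add_assoc, ← add_assoc _ _ 1, h2, zero_add,
      sg_add_one_ZqRd, mul_neg]

theorem orth_ZqRd (w : Fin d → ZMod 2) :
    𝔼 z : Fin d → ZMod 2, sg (∑ i, z i * w i) = if ∀ i, w i = 0 then 1 else 0 := by
  split_ifs with h
  · simp [h, sg]
  · obtain ⟨i, hi⟩ := not_forall.1 h
    have h0 : ∀ x : ZMod 2, x ≠ 0 → x = 1 := by decide
    refine flip_ZqRd _ (Equiv.addRight (Pi.single i 1)) fun z => ?_
    rw [← sg_add_one_ZqRd]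
    simp [add_mul, sum_add_distrib, Pi.single_apply, h0 _ hi]

end Pool.Agent.MP_f68ac8_nt.Zq

end

section

namespace Pool.Agent.MP_f68ac8_nt.Nd

open Zq Zv Zk Matrix Finset
open scoped commutatorElement

variable {d : ℕ}

theorem cases_NcRd (x : ZMod 2) : x = 0 ∨ x = 1 := by
  revert x
  decide

theorem sg_zero_NcRd : sg 0 = 1 := by simp [sg]

theorem sg_one_NcRd : sg 1 = -1 := by simp [sg]

theorem sg_add_NcRd (x y : ZMod 2) : sg (x + y) = sg x * sg y := by
  rcases cases_NcRd y with rfl | rfl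
  · rw [add_zero, sg_zero_NcRd, mul_one]
  · rw [sg_add_one_ZqRd, sg_one_NcRd, mul_neg, mul_one]

theorem abs_sg_NcRd (x : ZMod 2) : |sg x| = 1 := by
  rcases cases_NcRd x with rfl | rfl
  · rw [sg_zero_NcRd, abs_one]
  · rw [sg_one_NcRd, abs_neg, abs_one]

theorem half_NcRd {x y : ℝ} (hx : |x| ≤ 1) (hy : |y| ≤ 1) :
    |(x + y) / 2| ≤ 1 ∧ |(x - y) / 2| ≤ 1 := by
  rw [abs_le] at hx hy
  constructor <;> rw [abs_le] <;> constructor <;> linarith [hx.1, hx.2, hy.1, hy.2]

theorem two_NcRd {ν : Mx d → ℝ} {Lg : Finset (Fin d)} {η : ℝ} (h : Osc ν Lg η) {i i' : Fin d}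
    (hi : i ∈ Lg) (hi' : i' ∈ Lg) {a a' : Fin d → ZMod 2} (ha : a ≠ 0) (ha' : a' ≠ 0)
    {p p' : Mx d → ℝ} (hp : ∀ r, |p r| ≤ 1) (hp' : ∀ r, |p' r| ≤ 1) (ho : Off i p)
    (ho' : Off i' p') (F : Mx d → ℝ)
    (hF : ∀ r, Rcp r → F r = p r * sg (∑ j, a j * r i j) + p' r * sg (∑ j, a' j * r i' j)) :
    |∑ r, ν r * F r| ≤ 2 * η := by
  have h1 : ∑ r, ν r * F r = ∑ r, ν r * (p r * sg (∑ j, a j * r i j)) +
      ∑ r, ν r * (p' r * sg (∑ j, a' j * r i' j)) := by
    rw [← sum_add_distrib]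
    refine sum_congr rfl fun r _ => ?_
    by_cases h0 : ν r = 0
    · simp [h0]
    · rw [hF r (h.rcp r h0), mul_add]
  rw [h1]
  refine (abs_add_le _ _).trans ?_
  linarith [h.osc i hi a ha p hp ho, h.osc i' hi' a' ha' p' hp' ho']

/-- delete a row and a column -/
def del_NcRd (i : Fin d) (r : Mx d) : Mx d := fun j k => if j = i ∨ k = i then 0 else r j k

theorem off_NcRd (i : Fin d) (H : Mx d → ℝ) : Off i fun r => H (del_NcRd i r) := by
  intro r r' h
  refine congrArg H (funext fun j => funext fun k => ?_)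
  unfold del_NcRd
  split_ifs with h1
  · rfl
  · exact h j k (fun e => h1 (.inl e)) fun e => h1 (.inr e)

theorem upd_NcRd (i : Fin d) (r : Mx d) :
    Function.update (dg (del_NcRd i r)) i (r i i) = dg r := by
  funext k
  by_cases hk : k = i
  · subst hk
    rw [Function.update_self, dg]
  · rw [Function.update_of_ne hk]
    simp [dg, del_NcRd, hk]

theorem row_NcRd {Φ : Mx d} (hΦ : ∀ i, Φ i i = 0) {r : Mx d} (hr : Rcp r) (i : Fin d) :
    ∑ j, ∑ k, r j k * Φ j k = (∑ j, ∑ k, del_NcRd i r j k * Φ j k +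
      r i i * ∑ j, del_NcRd i r j j * Φ j i) + ∑ j, (Φ i j + Φ j i) * r i j := by
  have h1 : ∀ j k, r j k * Φ j k = del_NcRd i r j k * Φ j k +
      (if j = i then Φ i k * r i k else 0) +
      if k = i then Φ j i * r i j + r i i * (del_NcRd i r j j * Φ j i) else 0 := by
    intro j k
    by_cases hj : j = i
    · by_cases hk : k = i
      · simp [hj, hk, hΦ]
      · simp [hj, hk, del_NcRd, mul_comm]
    · by_cases hk : k = i
      · rw [hk, hr i j (Ne.symm hj), if_neg hj, if_pos rfl]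
        simp only [del_NcRd, hj, or_true, or_self, if_true, if_false]
        ring
      · simp [hj, hk, del_NcRd]
  have h2 : ∑ j, ∑ k, (if j = i then Φ i k * r i k else 0) = ∑ k, Φ i k * r i k := by
    rw [sum_comm]
    simp only [sum_ite_eq', mem_univ, if_true]
  rw [sum_congr rfl fun j _ => sum_congr rfl fun k _ => h1 j k]
  simp only [sum_add_distrib, h2, sum_ite_eq', mem_univ, if_true, add_mul, ← mul_sum]
  ring

theorem single_NcRd (i : Fin d) (v : Fin d → ZMod 2) :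
    ∑ j, (Pi.single i 1 : Fin d → ZMod 2) j * v j = v i := by
  simp [Pi.single_apply]

theorem nonsym_NcRd {ν : Mx d → ℝ} {Lg : Finset (Fin d)} {η : ℝ} (h : Osc ν Lg η) {Φ : Mx d}
    {g : (Fin d → ZMod 2) → ℝ} (hΦ : ∀ i, Φ i i = 0) (hg : ∀ ε, |g ε| ≤ 1) {i j : Fin d}
    (hi : i ∈ Lg) (hij : Φ i j ≠ Φ j i) :
    |∑ r, ν r * (g (dg r) * sg (∑ i, ∑ j, r i j * Φ i j))| ≤ 2 * η := by
  have hji : j ≠ i := fun e => hij (by rw [e])
  have h0 : ∀ x y : ZMod 2, x + y = 0 → x = y := by decide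
  obtain ⟨G, hG⟩ : ∃ G : Mx d → ZMod 2 → ℝ, ∀ s c, G s c = g (Function.update (dg s) i c) *
      sg (∑ j, ∑ k, s j k * Φ j k + c * ∑ j, s j j * Φ j i) := ⟨_, fun _ _ => rfl⟩
  have hG1 : ∀ s c, |G s c| ≤ 1 := fun s c => by
    rw [hG, abs_mul, abs_sg_NcRd, mul_one]
    exact hg _
  have hG2 : ∀ s c, G s c = (G s 0 + G s 1) / 2 + (G s 0 - G s 1) / 2 * sg c := fun s c => by
    rcases cases_NcRd c with rfl | rfl
    · rw [sg_zero_NcRd]
      ring
    · rw [sg_one_NcRd]
      ring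
  refine two_NcRd h hi hi (a := fun k => Φ i k + Φ k i)
    (a' := (fun k => Φ i k + Φ k i) + Pi.single i 1) (fun e => hij (h0 _ _ (congrFun e j)))
    (fun e => hij (h0 _ _ ?_)) (fun r => (half_NcRd (hG1 _ 0) (hG1 _ 1)).1)
    (fun r => (half_NcRd (hG1 _ 0) (hG1 _ 1)).2)
    (off_NcRd i fun s => (G s 0 + G s 1) / 2) (off_NcRd i fun s => (G s 0 - G s 1) / 2) _
    fun r hr => ?_
  · have h1 := congrFun e j
    rwa [Pi.add_apply, Pi.single_eq_of_ne hji, add_zero] at h1
  · have h1 : ∑ k, ((fun k => Φ i k + Φ k i) + Pi.single i 1 : Fin d → ZMod 2) k * r i k =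
        ∑ k, (Φ i k + Φ k i) * r i k + r i i := by
      rw [← single_NcRd i (r i), ← sum_add_distrib]
      exact sum_congr rfl fun k _ => by rw [Pi.add_apply, add_mul]
    have h2 := hG (del_NcRd i r) (r i i)
    rw [upd_NcRd] at h2
    rw [h1, row_NcRd hΦ hr i, sg_add_NcRd, ← mul_assoc, ← h2, hG2, sg_add_NcRd]
    ring

theorem qf_NcRd {Φ : Mx d} (hΦ : ∀ i, Φ i i = 0) (hs : ∀ i j, Φ i j = Φ j i) {r : Mx d}
    (hr : Rcp r) : ∑ i, ∑ j, r i j * Φ i j = Qf Φ (dg r) := by
  have h1 : red r = r := by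
    funext i j
    rw [red]
    split_ifs with h
    · rfl
    · rw [hr j i (fun e => h e.le), mul_comm]
  have h2 : ∀ x : ZMod 2, x + x = 0 := by decide
  have h3 := sum_red_ZqRd hΦ r
  rw [h1] at h3
  rw [h3, sum_eq_zero, zero_add]
  refine fun i _ => sum_eq_zero fun j _ => ?_
  rw [hs j i, h2, mul_zero, ite_self]

theorem flip_NcRd {Φ : Mx d} (h : ∀ i, Φ i i = 0) (hs : ∀ i j, Φ i j = Φ j i)
    {g : (Fin d → ZMod 2) → ℝ} {i i' : Fin d} (h1 : Φ i i' = 1)
    (hg : ∀ ε, g (ε + Pi.single i 1 + Pi.single i' 1) = g ε)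
    (hg' : ∀ ε, g ε ≠ 0 → ∑ k, ε k * (Φ i k + Φ i' k) = 0) (ε : Fin d → ZMod 2) :
    g (ε + Pi.single i 1 + Pi.single i' 1) * sg (Qf Φ (ε + Pi.single i 1 + Pi.single i' 1)) =
      -(g ε * sg (Qf Φ ε)) := by
  rw [hg]
  by_cases h0 : g ε = 0
  · simp [h0]
  have h2 := hg' ε h0
  have h3 : ∑ k, (ε + Pi.single i 1 : Fin d → ZMod 2) k * Φ i' k = ∑ k, ε k * Φ i' k + 1 := by
    simp [add_mul, sum_add_distrib, Pi.single_apply, hs i' i, h1]
  simp only [mul_add, sum_add_distrib] at h2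
  rw [qf_single_ZqRd h hs, qf_single_ZqRd h hs, h3, add_assoc, ← add_assoc _ _ 1, h2, zero_add,
    sg_add_one_ZqRd, mul_neg]

theorem split_NcRd {G : (Fin d → ZMod 2) → ℝ} {i i' : Fin d} (hi : i ≠ i')
    (hG : ∀ ε, G (ε + Pi.single i 1 + Pi.single i' 1) = -G ε) (ε : Fin d → ZMod 2) :
    G ε = (G (Function.update (Function.update ε i 0) i' 0) +
        G (Function.update (Function.update ε i 0) i' 1)) / 2 * sg (ε i) +
      (G (Function.update (Function.update ε i 0) i' 0) -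
        G (Function.update (Function.update ε i 0) i' 1)) / 2 * sg (ε i') := by
  have h0 : ε i = 0 → Function.update (Function.update ε i 0) i' (ε i') = ε := fun h => by
    rw [← h, Function.update_eq_self, Function.update_eq_self]
  have h1 : ε i = 1 → Function.update (Function.update ε i 0) i' (ε i' + 1) + Pi.single i 1 +
      Pi.single i' 1 = ε := fun h => by
    have h2 : ∀ x : ZMod 2, x + 1 + 1 = x := by decide
    funext k
    by_cases hk' : k = i'
    · subst hk'
      simp [hi.symm, h2]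
    · by_cases hk : k = i
      · subst hk
        simp [hk', h]
      · simp [hk, hk']
  have h11 : (1 : ZMod 2) + 1 = 0 := by decide
  rcases cases_NcRd (ε i) with h | h
  · have h2 := h0 h
    rcases cases_NcRd (ε i') with h' | h'
    · rw [h'] at h2
      rw [h2, h, h', sg_zero_NcRd]
      ring
    · rw [h'] at h2
      rw [h2, h, h', sg_zero_NcRd, sg_one_NcRd]
      ring
  · have h2 := hG (Function.update (Function.update ε i 0) i' (ε i' + 1))
    rw [h1 h] at h2
    rcases cases_NcRd (ε i') with h' | h'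
    · rw [h', zero_add] at h2
      rw [h2, h, h', sg_zero_NcRd, sg_one_NcRd]
      ring
    · rw [h', h11] at h2
      rw [h2, h, h', sg_one_NcRd]
      ring

theorem rdN : RdN := by
  intro d ν Lg η h Φ g hΦ hg
  refine ⟨fun ⟨i, hi, j, hij⟩ => nonsym_NcRd h hΦ hg hi hij,
    fun hs i hi i' hi' hii h1 hg1 hg2 => ?_⟩
  obtain ⟨G, hG⟩ : ∃ G : (Fin d → ZMod 2) → ℝ, ∀ ε, G ε = g ε * sg (Qf Φ ε) := ⟨_, fun _ => rfl⟩
  have hG1 : ∀ ε, |G ε| ≤ 1 := fun ε => by
    rw [hG, abs_mul, abs_sg_NcRd, mul_one]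
    exact hg _
  have hG2 : ∀ ε, G (ε + Pi.single i 1 + Pi.single i' 1) = -G ε := fun ε => by
    rw [hG, hG, flip_NcRd hΦ hs h1 hg1 hg2]
  have hU : ∀ r r' : Mx d, (∀ k, k ≠ i → k ≠ i' → r k k = r' k k) → ∀ c,
      Function.update (Function.update (dg r) i 0) i' c =
        Function.update (Function.update (dg r') i 0) i' c := fun r r' hr c => by
    funext k
    by_cases hk' : k = i'
    · subst hk'
      rw [Function.update_self, Function.update_self]
    · by_cases hk : k = i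
      · subst hk
        simp [hk']
      · simp [hk, hk', dg, hr k hk hk']
  have hne : ∀ k : Fin d, (Pi.single k 1 : Fin d → ZMod 2) ≠ 0 := fun k e => by
    simpa using congrFun e k
  refine two_NcRd h hi hi' (hne i) (hne i')
    (p := fun r => (G (Function.update (Function.update (dg r) i 0) i' 0) +
      G (Function.update (Function.update (dg r) i 0) i' 1)) / 2)
    (p' := fun r => (G (Function.update (Function.update (dg r) i 0) i' 0) -
      G (Function.update (Function.update (dg r) i 0) i' 1)) / 2)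
    (fun r => (half_NcRd (hG1 _) (hG1 _)).1) (fun r => (half_NcRd (hG1 _) (hG1 _)).2)
    (fun r r' hr => ?_) (fun r r' hr => ?_) _ fun r hr => ?_
  · have h2 := hU r r' fun k hk _ => hr k k hk hk
    simp only [h2]
  · have h2 := hU r r' fun k _ hk => hr k k hk hk
    simp only [h2]
  · rw [qf_NcRd hΦ hs hr, ← hG, single_NcRd, single_NcRd]
    exact split_NcRd hii hG2 (dg r)

end Pool.Agent.MP_f68ac8_nt.Nd

end
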