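import Mathlib
import Pool.Agent.Mg.Fe23604m.G2870c8
import Pool.Agent.Mg.Fe23604m.Gea5915
import Pool.Agent.Mg.Fe23604m.Gcb31cd
import Pool.Agent.Mg.Fe23604m.G170b11
import Pool.Agent.Mg.Fe23604m.G81ce00
import Pool.Agent.Mg.Fe23604m.G88686e

set_option linter.all false

section

/-! Random words for arbitrary filtered groups, with letters at the prime two. -/

namespace Pool.Agent.MP_f68ac8_nt.Nd

open Zq Ev Pv Sv Zv Zk NumberField Finset Filter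
open scoped Topology BigOperators commutatorElement

open Classical in
/-- a term of the error -/
noncomputable def Tf2 {P Λ : Type} [Group P] {d : ℕ} (Cn : Mx d → (Fin d → P) → Prop)
    (Ob : Mx d → (Fin d → P) → ZMod 2) (y : Lr d Λ → FreeGroup (Lr d Λ)) (q : Fin d → Λ)
    (x : Fin d → P) : ℂ :=
  if Cn (rr (U := fun _ => Λ) y q 2) (Yw (U := fun _ => Λ) y q x) then
    ZMod.stdAddChar (Ob (rr (U := fun _ => Λ) y q 2) (Yw (U := fun _ => Λ) y q x)) else 0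

/-- the error terms are small -/
def ErrF : Prop :=
  ∀ (P : Type) [Group P] [Fintype P] (L : ℕ), ∃ C : ℝ, 1 ≤ C ∧
    ∀ F : ℕ → Subgroup P, NS F → F 1 = ⊤ → ∀ (d : ℕ) (Λ : Type) [Fintype Λ]
    (w : Fin d → Λ → ℝ) (Y : Type) [Fintype Y] [Nonempty Y] [Fintype (Lr d Λ → Y)]
    (y : Lr d Λ → Y → FreeGroup (Lr d Λ)) (Sm Lg : Finset (Fin d)) (ξ : ℝ), 0 ≤ ξ → ξ ≤ 1 →
    Prob (U := fun _ => Λ) w → Disjoint Sm Lg → (∀ j ∈ Sm ∪ Lg, ∀ u, w j u ≤ ξ ^ 2 ^ L) →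
    EQN Sm Lg P w y L (ξ ^ 2 ^ L) →
    ∀ (x : Fin d → P) (s : List (Fin d)) (t : Fin d) (ψ : P → ZMod 2)
      (Cn : Mx d → (Fin d → P) → Prop) (Ob : Mx d → (Fin d → P) → ZMod 2) (ζ : Fin d → Λ → ℂ),
      s.Nodup → 2 ≤ s.length → s.length + 1 ≤ L → (∀ j ∈ s, j ∈ Sm) → t ∈ Lg →
      (∀ g ∈ F s.length, ∀ h ∈ F s.length, ψ (g * h) = ψ g + ψ h) →
      (∀ g ∈ F (s.length + 1), ψ g = 0) → ψ (brL (s.map x)) ≠ 0 →
      (∀ r Z Z', Cn r Z → (∀ i, (Z' i)⁻¹ * Z i ∈ F s.length) → Cn r Z' ∧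
        ((∀ i, i ∉ s → i ≠ t → (Z' i)⁻¹ * Z i ∈ F (s.length + 1)) →
          Ob r Z = Ob r Z' + ψ ((Z' t)⁻¹ * Z t))) →
      (∀ j u, ‖ζ j u‖ ≤ 1) →
      ‖𝔼 a : Lr d Λ → Y, Ex (U := fun _ => Λ) w fun q => (∏ j, ζ j (q j)) *
        Tf2 Cn Ob (fun u => y u (a u)) q x‖ ≤ C ^ (d + 1) * ξ

/-- replace a tame letter by the product of its copies and a letter at two by a fixed letter -/
def sbq {d : ℕ} {Λ B : Type} (e : B → Fin d) :
    FreeGroup (Λ ⊕ B) →* FreeGroup (Lr d (Option Λ)) :=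
  FreeGroup.lift (Sum.elim (fun l => sbs d (FreeGroup.of (some l)))
    fun b => FreeGroup.of ⟨e b, none⟩)

/-- generators of the Galois group modulo `N` -/
structure GnQ {Λ : Finset ℕ} {B : Type} (σ : Λ → GQ) (τ : Λ ⊕ B → GQ) (N : Subgroup GQ) : Prop where
  op : Op2 N
  fr : ∀ l : Λ, Fr l (σ l)
  gen : ∀ g, ∃ v, (FreeGroup.lift τ v)⁻¹ * g ∈ N
  unr : ∀ (M : Subgroup GQ) (R : Finset ℕ), M.Normal → N ≤ M → (∀ b, τ (.inr b) ∈ M) →
    (∀ l : Λ, l.1 ∉ R → τ (.inl l) ∈ M) → ∀ P : Ideal OQ, P.IsMaximal → (∀ l ∈ R, (l : OQ) ∉ P) →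
    ∀ g ∈ P.inertia GQ, g ∈ M

/-- equidistribution of the random words -/
def EqaQ : Prop :=
  ∀ (P : Type) [Group P] [Fintype P] (L : ℕ) (p : Par) (c D η : ℝ),
    p.Ok c (Fintype.card P ^ 2 ^ L) (2 * L) D η →
    ∀ (B : Type) (σ : p.Λ → GQ) (τ : p.Λ ⊕ B → GQ) (N : Subgroup GQ), GnQ σ τ N →
    ∀ (𝓡 : Type) [Fintype 𝓡] [Nonempty 𝓡] (s : 𝓡 → FreeGroup (p.Λ ⊕ B)),
    Unf P (N.comap (FreeGroup.lift τ)) s →
    ∀ wd : p.Λ → Exn (2 * Fintype.card P) → FreeGroup (p.Λ ⊕ B),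
    (∀ u a, (FreeGroup.lift τ (wd u a))⁻¹ * σ u ^ (a.1 : ℕ) ∈ N) →
    ∀ (d : ℕ) (w : Fin d → Option p.Λ → ℝ) (Sm Lg : Finset (Fin d)) (e : B → Fin d),
    Disjoint Sm Lg → (∀ j ∈ Sm, ∀ u, w j u ≠ 0 → ∃ l, u = some l ∧ l.1 ∈ p.sm) →
    (∀ j ∈ Lg, ∀ u, w j u = u.elim 0 fun l => p.W 3 l / ms p.Λ p.W 3) →
    ∀ y : Lr d (Option p.Λ) → Exn (2 * Fintype.card P) × 𝓡 → FreeGroup (Lr d (Option p.Λ)),
    (∀ j ∈ Lg, ∀ l a, ∃ k : ℕ, y ⟨j, some l⟩ a =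
      sbq e (wd l a.1 * s a.2) * FreeGroup.of ⟨j, some l⟩ ^ k) →
    EQN Sm Lg P w y L η

/-! ### Generic matrices of Legendre symbols -/

open Classical in
/-- sums over sequences of colours -/
def MasQ : Prop :=
  ∀ (Ω : Type) [Fintype Ω] [DecidableEq Ω] (n : ℕ) (φ : Ω → Ω → ZMod 2), 0 < n → (∀ a, φ a a = 0) →
    (∀ U : Finset Ω, (∀ a ∈ U, ∀ b ∈ U, φ a b = φ b a) → U.card ≤ n) →
    ∃ δ C : ℝ, 0 < δ ∧ 1 ≤ C ∧
      (∀ (c₁ c₂ : Ω → ZMod 2) (d : ℕ) (ν : Mx (d + 1) → ℝ) (Lg : Finset (Fin d)) (η : ℝ),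
        Osc ν (up Lg) η → (d : ℝ) ≤ (1 + δ) * Lg.card →
        ∑ r, ν r * ∑ s : Fin d → Ω, sg (PhQ φ c₁ c₂ (ul r) (lc r) s) / (n : ℝ) ^ d ≤
          2 ^ Fintype.card Ω * ∑ r, ν r + C ^ (d + 1) * η) ∧
      ∀ (m : ℕ) (ε : ℝ), 0 < ε → ∃ m₀, ∀ (c₁ c₂ : Ω → ZMod 2) (d : ℕ) (ν : Mx (d + 1) → ℝ)
        (Sm Lg : Finset (Fin d)) (η : ℝ) (X : (Fin d → Ω) → Prop), Osc ν (up Lg) η →
        Thin δ m₀ Sm Lg →
        (∀ s, X s → n ≤ (Lg.image s).card → (∀ i j, φ (s i) (s j) = φ (s j) (s i)) →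
          (∀ i, c₂ (s i) = 0) →
          (∀ j, s j ∈ Lg.image s ∧ m ≤ (Sm.filter fun j' => s j' = s j).card) →
          ∃ i i', c₁ (s i) ≠ c₁ (s i') ∧ ∀ j, φ (s i) (s j) = φ (s i') (s j)) →
        ∑ r, ν r * ∑ s : Fin d → Ω with X s, sg (PhQ φ c₁ c₂ (ul r) (lc r) s) / (n : ℝ) ^ d ≤
          ε * ∑ r, ν r + C ^ (d + 1) * η

open Classical in
/-- most matrices are generic -/
def GenR : Prop :=
  ∀ ε : ℝ, 0 < ε → ∃ (B : ℕ) (δ C : ℝ), 0 < δ ∧ 1 ≤ C ∧ ∀ m : ℕ, ∃ m₀ : ℕ,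
    ∀ (d : ℕ) (ν : Mx (d + 1) → ℝ) (Sm Lg : Finset (Fin d)) (η : ℝ), Osc ν (up Lg) η →
      Thin δ m₀ Sm Lg →
      ∑ r, ν r * (if GenQ Sm Lg B m (ul r) (lc r) then 0 else 1) ≤ ε * ∑ r, ν r + C ^ (d + 1) * η

open Classical in
/-- most tuples of primes are generic -/
def MatQ : Prop :=
  ∀ ε : ℝ, 0 < ε → ∃ (B : ℕ) (δ C : ℝ), 0 < δ ∧ 1 ≤ C ∧ ∀ m : ℕ, ∃ m₀ : ℕ,
    ∀ (p : Par) (c : ℝ) (n' r : ℕ) (D' η : ℝ), 0 < c → p.Ok c n' r D' η →
      ∀ (y : ℝ) (d : ℕ) (μ : Fin d → Fin 4), (d : ℝ) ≤ D' → Thin δ m₀ (mk μ 1) (mk μ 3) →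
      (Ex (U := fun _ => p.Λ) (wm p.Λ p.W μ) fun q => if Function.Injective q ∧
        ¬ GenQ (mk μ 1) (mk μ 3) B m (lk2 (vl q)) (fun j => lk 2 2 (q j)) then kap c y q else 0) ≤
      ε * Ex (U := fun _ => p.Λ) (wm p.Λ p.W μ) (kap c y) + C ^ (d + 1) * η

/-! ### From a deterministic inequality for words to a bound for the density -/

section
variable {d : ℕ} {Λ : Finset ℕ} {B : Type} {e : ℕ} (σ : Λ → GQ) (τ : Λ ⊕ B → GQ) (N : Subgroup GQ)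
  (lab : B → Fin e) (g : Fin e → GQ) (q : Fin d → Λ)

/-- a homomorphism with the given values on the generators -/
structure Mt {H : Type} [Group H] (θ : GQ →* H) (x : Fin (d + e) → H) : Prop where
  ker : N ≤ θ.ker
  out : ∀ l : Λ, (∀ j, q j ≠ l) → θ (τ (.inl l)) = 1
  tame : ∀ j, θ (τ (.inl (q j))) = x (Fin.castAdd e j)
  two : ∀ b, θ (τ (.inr b)) = x (Fin.natAdd d (lab b))

/-- words that represent the Frobenius elements and the elements `g j` -/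
structure WdQ (y : Lr (d + e) (Option Λ) → FreeGroup (Lr (d + e) (Option Λ))) : Prop where
  tame : ∀ i, ∃ b k : ℕ, Odd b ∧ ∀ (H : Type) [Group H] (θ : GQ →* H) (x : Fin (d + e) → H),
    Mt τ N lab q θ x → Yw (U := fun _ => Option Λ) y (exq e q) x (Fin.castAdd e i) =
      θ (σ (q i)) ^ b * x (Fin.castAdd e i) ^ k
  two : ∀ j (H : Type) [Group H] (θ : GQ →* H) (x : Fin (d + e) → H), Mt τ N lab q θ x →
    Yw (U := fun _ => Option Λ) y (exq e q) x (Fin.natAdd d j) = θ (g j)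
  diag : ∀ i, rr (U := fun _ => Option Λ) y (exq e q) 2 (Fin.castAdd e i) (Fin.castAdd e i) =
    Zq.eps (q i)

end

/-- from an inequality for words to densities -/
def PtQ : Prop :=
  ∀ ε : ℝ, 0 < ε → ∃ (Bd : ℕ) (b : ℝ), 0 < b ∧
    ∀ (P : Type) [Group P] [Fintype P] (F : ℕ → Subgroup P) (L m e : ℕ) (c : ℝ) (Bad : ℕ → Prop),
    NS F → F 1 = ⊤ →
    (∀ Λ : Finset ℕ, (∀ l ∈ Λ, l.Prime ∧ Odd l) → ∃ (B : Type) (_ : Finite B) (σ : Λ → GQ)
      (τ : Λ ⊕ B → GQ) (N : Subgroup GQ) (lab : B → Fin e) (g : Fin e → GQ), GnQ σ τ N ∧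
      ∀ (d : ℕ) (Sm Lg : Finset (Fin d)), Disjoint Sm Lg →
      ∃ (I : Type) (_ : Fintype I) (T : I → Trm P (d + e)), (Fintype.card I : ℝ) ≤ c ^ (d + 1) ∧
        (∀ i, (T i).Ok F L (upq e Sm) (upq e Lg)) ∧
        ∀ (y : Lr (d + e) (Option Λ) → FreeGroup (Lr (d + e) (Option Λ))) (q : Fin d → Λ),
          0 ≤ b + ∑ i, (T i).val y (exq e q) ∧
          (Function.Injective q → WdQ σ τ N lab g q y →
            GenQ Sm Lg Bd m (lk2 (vl q)) (fun j => lk 2 2 (q j)) → Bad (np q) →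
            1 ≤ b + ∑ i, (T i).val y (exq e q))) →
    Sp Bad ε

end Pool.Agent.MP_f68ac8_nt.Nd

end

section

/-! The error terms for arbitrary filtered groups. -/

namespace Pool.Agent.MP_f68ac8_nt.Nd

open Zq Zv Zk Matrix Finset
open scoped commutatorElement
open scoped BigOperators

section
variable {P : Type} [Group P] {F : ℕ → Subgroup P} {d : ℕ} {U : Fin d → Type}

theorem shf_NqErr (hS : SpanStmt 2) (hF : NS F) (h1' : F 1 = ⊤) (x : Fin d → P)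
    (s : List (Fin d)) (ψ φ : P → ZMod 2) (h0 : s ≠ [])
    (h1 : ∀ g ∈ F s.length, ∀ h ∈ F s.length, ψ (g * h) = ψ g + ψ h)
    (h2 : ∀ g ∈ F (s.length + 1), ψ g = 0) (h3 : ∀ c ∈ F s.length, ∀ h, φ (c * h) = ψ c + φ h)
    (h4 : ψ (brL (s.map x)) ≠ 0) (q₀ q₁ : ∀ j, U j) (hq : ∀ i ∈ s, q₀ i ≠ q₁ i) :
    Shf (piV fun ω : Finset (Fin d) => plc (ω.piecewise q₁ q₀) (msk s.toFinset x)).range
      fun h => ∑ ω ∈ s.toFinset.powerset, (-1) ^ ω.card * φ (h ω) := by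
  have hm : 1 ≤ s.length := List.length_pos_iff.2 h0
  have hc : brL (s.map x) ∈ F s.length := by
    simpa using mem_ZkOrb hS hF h1' (l := s.map x) (by simpa using h0)
  refine ⟨_, ⟨brL (s.map fun i => FreeGroup.of ⟨i, q₁ i⟩), rfl⟩,
    (-1) ^ s.toFinset.card * ψ (brL (s.map x)), mul_ne_zero (pow_ne_zero _ (by simp)) h4,
    fun k _ h _ => ?_⟩
  have hz : ∀ ω : Finset (Fin d),
      piV (fun ω : Finset (Fin d) => plc (ω.piecewise q₁ q₀) (msk s.toFinset x))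
        (brL (s.map fun i => FreeGroup.of ⟨i, q₁ i⟩)) ω =
      brL (s.map fun i => if i ∈ ω then x i else 1) := fun ω => by
    refine (map_ZkOrb ((Pi.evalMonoidHom _ ω).comp (piV _)) _).trans (congrArg brL ?_)
    rw [List.map_map]
    refine List.map_congr_left fun i hi => ?_
    by_cases e : i ∈ ω
    · simp [piV, plc, msk, e, hi]
    · simp [piV, plc, e, (hq i hi).symm]
  beta_reduce
  rw [← Finset.sum_erase_add _ _ (Finset.mem_powerset_self _),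
    ← Finset.sum_erase_add _ _ (Finset.mem_powerset_self _), add_assoc]
  refine congrArg₂ _ (Finset.sum_congr rfl fun ω hω => ?_) ?_
  · obtain ⟨w1, w2⟩ := Finset.mem_erase.1 hω
    obtain ⟨i, i1, i2⟩ := Finset.exists_of_ssubset
      (Finset.ssubset_iff_subset_ne.2 ⟨Finset.mem_powerset.1 w2, w1⟩)
    rw [Pi.mul_apply, Pi.mul_apply, Pi.mul_apply, hz,
      one_ZkOrb _ (List.mem_map.2 ⟨i, List.mem_toFinset.1 i1, if_neg i2⟩), mul_one, Pi.inv_apply,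
      mul_inv_cancel, one_mul]
  · have k1 : ⁅k s.toFinset, brL (s.map x)⁆ ∈ F (s.length + 1) := by
      rw [add_comm]
      exact hF.comm 1 _ le_rfl hm _ (h1' ▸ trivial) _ hc
    have k2 := hF.anti _ _ hm (Nat.le_succ _) k1
    rw [Pi.mul_apply, Pi.mul_apply, Pi.mul_apply, hz, Pi.inv_apply,
      List.map_congr_left (g := x) fun i hi => if_pos (List.mem_toFinset.2 hi),
      show k s.toFinset * brL (s.map x) * (k s.toFinset)⁻¹ =
        ⁅k s.toFinset, brL (s.map x)⁆ * brL (s.map x) by rw [commutatorElement_def]; group,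
      h3 _ (mul_mem k2 hc), h1 _ k2 _ hc, h2 _ k1]
    ring

theorem lc_NqErr (hC : CornStmt) (hF : NS F) (h1 : F 1 = ⊤) {k : ℕ} (hm : 1 ≤ k)
    {S : Finset (Fin d)} {t : Fin d} (hS : S.card = k) (ht : t ∉ S) {x : Fin d → P}
    {ψ φ : P → ZMod 2} (a1 : ∀ g ∈ F k, ∀ h ∈ F k, ψ (g * h) = ψ g + ψ h)
    (a2 : ∀ g ∈ F (k + 1), ψ g = 0) (hφ : ∀ c ∈ F k, ∀ h, φ (c * h) = ψ c + φ h)
    {y g : (Σ j, U j) → FreeGroup (Σ j, U j)} {q q' : ∀ j, U j}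
    (hE : DatN (insert t S) x y g q q') :
    (∀ i, (Yw y q' x i)⁻¹ * Yw y q x i ∈ F k) ∧
    (∀ i, i ∉ S → i ≠ t → (Yw y q' x i)⁻¹ * Yw y q x i ∈ F (k + 1)) ∧
    φ (Yw (g * y * g⁻¹) q (msk S x) t) =
      ψ ((Yw y q' x t)⁻¹ * Yw y q x t) + φ (Yw (g * y * g⁻¹) q' (msk S x) t) := by
  have hcard : (insert t S).card = k + 1 := by rw [Finset.card_insert_of_notMem ht, hS]
  have econg : ∀ a ∈ F k, ∀ b : P, a⁻¹ * b ∈ F (k + 1) → ψ b = ψ a := by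
    intro a ha b hb
    have := a1 a ha _ (hF.anti k (k + 1) hm (Nat.le_succ k) hb)
    rwa [mul_inv_cancel_left, a2 _ hb, add_zero] at this
  refine ⟨fun i => ?_, fun i hi hit => ?_, ?_⟩
  · obtain ⟨R, hR, hRc⟩ := Finset.exists_subset_card_eq (s := (insert t S).erase i) (n := k)
      (by have := Finset.pred_card_le_card_erase (s := insert t S) (a := i); omega)
    have := full_NcLc hC hF h1 y q q' x i R fun J hJ ⟨s, hs, hs'⟩ =>
      (hE i J (sub_NcLc (hR.trans (Finset.erase_subset _ _)) hJ)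
        ⟨s, Finset.mem_of_mem_erase (hR hs), hs', Finset.ne_of_mem_erase (hR hs)⟩).1
    rwa [hRc, max_eq_right hm] at this
  · have hi' : i ∉ insert t S := fun h => (Finset.mem_insert.1 h).elim hit hi
    have := full_NcLc hC hF h1 y q q' x i (insert t S) fun J hJ ⟨s, hs, hs'⟩ =>
      (hE i J hJ ⟨s, hs, hs', fun h => hi' (h ▸ hs)⟩).1
    rwa [hcard, max_eq_right (Nat.le_add_left 1 k)] at this
  have hy : ∀ J : Finset (Fin d), J ⊆ S ∨ Sᶜ ⊆ J → (∃ s ∈ S, s ∉ J) →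
      Yw y q (msk J x) t = Yw y q' (msk J x) t ∧ Yw g q (msk J x) t = Yw g q' (msk J x) t :=
    fun J hJ ⟨s, hs, hs'⟩ => hE t J (sub_NcLc (Finset.subset_insert t S) hJ)
      ⟨s, Finset.mem_insert_of_mem hs, hs', fun h => ht (h ▸ hs)⟩
  have ha := low_NcLc hC hF h1 y q q' x t S fun J hJ hJ' => (hy J hJ hJ').1
  have hγ := low_NcLc hC hF h1 g q q' x t S fun J hJ hJ' => (hy J hJ hJ').2
  have hac := mix_NcLc hC hF h1 y q q' x t t S ht fun J hJ hJ' => (hy J hJ hJ').1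
  rw [hS, max_eq_right hm] at ha hγ
  rw [hS] at hac
  have hu := conj_ZkLc hF h1 hm hγ ha
  have eZ : ∀ r : ∀ j, U j, Yw (g * y * g⁻¹) r (msk S x) t =
      Yw g r (msk S x) t * Yw y r (msk S x) t * (Yw g r (msk S x) t)⁻¹ := fun r => by
    simp only [Yw, Pi.mul_apply, Pi.inv_apply, map_mul, map_inv]
  rw [← eZ, ← eZ] at hu
  set Z := Yw (g * y * g⁻¹) q (msk S x) t
  set Z' := Yw (g * y * g⁻¹) q' (msk S x) t
  have hum : Z * Z'⁻¹ ∈ F k := by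
    have := hF.anti _ _ hm (Nat.le_succ _) hu
    exact (Subgroup.inv_mem_iff _).1 ((Subgroup.mul_mem_cancel_right _ ha).1 this)
  have e1 := econg _ hum _ hu
  have e2 := econg _ ha _ hac
  have e3 := hφ _ hum Z'
  rwa [inv_mul_cancel_right, ← e1, ← e2] at e3

end

theorem add_sub_add_NqErr (a b c : ZMod 2) : a + b - (b + c) = a - c := by ring

theorem errF (hB : BoxN) (hM : MomStmt) (hN : MomN) (hU : UnifStmt) (hS : SpanStmt 2)
    (hC : CornStmt) : ErrF := by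
  classical
  intro P _ _ L
  have hc1 : (1 : ℝ) ≤ (Fintype.card P : ℝ) * 2 := by
    have : (1 : ℝ) ≤ Fintype.card P := by exact_mod_cast Fintype.card_pos
    linarith
  have hL1 : (1 : ℝ) ≤ 2 + 3 * (L : ℝ) ^ 2 := by nlinarith [sq_nonneg (L : ℝ)]
  refine ⟨((Fintype.card P : ℝ) * 2) ^ (2 ^ (L + 2) + 2 * L) * (2 + 3 * (L : ℝ) ^ 2),
    one_le_mul_of_one_le_of_one_le (one_le_pow₀ hc1) hL1, ?_⟩
  intro F hF h1 d Λ _ w Y _ _ _ y Sm Lg ξ hξ0 hξ1 hw hdis hwη hE x s t ψ Cn Ob ζ s1 s2 sL s3 htL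
    a1 a2 a3 hI hζ
  obtain ⟨φ, hφ⟩ := ext_ZkErr _ ψ a1
  obtain ⟨𝓡, _, _, σ, hσ⟩ := bx_NcErr (d := d) (P := P) (Λ := Λ) hM hN hU
  have hc : s.toFinset.card = s.length := List.toFinset_card_of_nodup s1
  have hSm : s.toFinset ⊆ Sm := fun j hj => s3 j (List.mem_toFinset.1 hj)
  have ht : t ∉ s.toFinset := fun h0 => disjoint_left.1 hdis (hSm h0) htL
  have hb := hσ y hw hwη (pow_nonneg hξ0 _) hE x φ htL hSm (by omega) ht fun q₀ q₁ hq =>
    shf_NqErr (U := fun _ => Λ) hS hF h1 x s ψ φ (List.ne_nil_of_length_pos (by omega)) a1 a2 hφ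
      a3 q₀ q₁ fun j hj => hq j (List.mem_toFinset.2 hj)
  have key : ∀ (y g : Lr d Λ → FreeGroup (Lr d Λ)) (q : Fin d → Λ),
      Tf2 Cn Ob y q x =
      (if Cn (rr (U := fun _ => Λ) y q 2) (Yw (U := fun _ => Λ) y q x) then
        (ZMod.stdAddChar (Ob (rr (U := fun _ => Λ) y q 2) (Yw (U := fun _ => Λ) y q x) -
          φ (Yw (U := fun _ => Λ) (g * y * g⁻¹) q (msk s.toFinset x) t)) : ℂ) else 0) *
        ZMod.stdAddChar (φ (Yw (U := fun _ => Λ) (g * y * g⁻¹) q (msk s.toFinset x) t)) := by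
    intro y g q
    unfold Tf2
    split_ifs with h1
    · rw [← AddChar.map_add_eq_mul, sub_add_cancel]
    · rw [zero_mul]
  have hn : ∀ z : ZMod 2, ‖(ZMod.stdAddChar z : ℂ)‖ = 1 := fun z => AddChar.norm_apply _ z
  rw [expect_fst_ZkErr (R := 𝓡), expect_congr rfl fun (a : Lr d Λ → Y × 𝓡) _ =>
    congrArg (Ex (U := fun _ => Λ) w) (funext fun q =>
      congrArg (fun v => (∏ j, ζ j (q j)) * v) (key _ (fun u => σ (a u).2) q))]
  refine (pow_le_pow_iff_left₀ (norm_nonneg _) (by positivity)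
    (pow_pos two_pos (s.toFinset.card + 1)).ne').1 ((jensen_ZaErr _ _).trans ?_)
  refine (expect_le_expect fun a _ => box_NcErr (U := fun _ => Λ) hB hw ht (by omega) x
    (fun u => y u (a u).1) (fun u => σ (a u).2) _ _ ζ (fun q => ?_) hζ
    fun q q' hq hr => ?_).trans ?_
  · split_ifs
    · exact (hn _).le
    · rw [norm_zero]
      exact zero_le_one
  · obtain ⟨k1, k2, k3⟩ := lc_NqErr hC hF h1 (by omega) hc ht a1 a2 hφ hq
    obtain ⟨k4, -, -⟩ := lc_NqErr hC hF h1 (by omega) hc ht a1 a2 hφ (datN_symm_NcErr hq)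
    rw [← hr]
    by_cases h2 : Cn (rr (U := fun _ => Λ) (fun u => y u (a u).1) q 2)
        (Yw (U := fun _ => Λ) (fun u => y u (a u).1) q x)
    · obtain ⟨k5, k6⟩ := hI _ _ _ h2 k1
      rw [if_pos h2, if_pos k5, k6 fun i hi => k2 i fun h => hi (List.mem_toFinset.1 h), k3,
        add_sub_add_NqErr]
    · rw [if_neg h2, if_neg fun h3 => h2 (hI _ _ _ h3 k4).1]
  · rw [← mul_expect]
    exact le_trans (mul_le_mul_of_nonneg_left hb (by positivity))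
      (num_NcErr hc1 hξ0 hξ1 (by omega))

end Pool.Agent.MP_f68ac8_nt.Nd

end

section

namespace Pool.Agent.MP_f68ac8_nt.Nd

open Zq Zv Zk Finset
open scoped BigOperators

theorem flip_NrMas {d : ℕ} {ν : Mx d → ℝ} {Lg : Finset (Fin d)} {η : ℝ} (h : Osc ν Lg η)
    {i i' : Fin d} (hi : i ∈ Lg) (hi' : i' ∈ Lg) (hii : i ≠ i') (G : (Fin d → ZMod 2) → ℝ)
    (hG1 : ∀ ε, |G ε| ≤ 1) (hG2 : ∀ ε, G (ε + Pi.single i 1 + Pi.single i' 1) = -G ε)
    (F : Mx d → ℝ) (hF : ∀ r, Rcp r → F r = G (dg r)) : |∑ r, ν r * F r| ≤ 2 * η := by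
  have hU : ∀ r r' : Mx d, (∀ k, k ≠ i → k ≠ i' → r k k = r' k k) → ∀ c,
      Function.update (Function.update (dg r) i 0) i' c =
        Function.update (Function.update (dg r') i 0) i' c := fun r r' hr c => by
    funext k
    by_cases hk' : k = i'
    · subst hk'
      rw [Function.update_self, Function.update_self]
    · by_cases hk : k = i
      · subst hk
        simp [hk']
      · simp [hk, hk', dg, hr k hk hk']
  have hne : ∀ k : Fin d, (Pi.single k 1 : Fin d → ZMod 2) ≠ 0 := fun k e => by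
    simpa using congrFun e k
  refine two_NcRd h hi hi' (hne i) (hne i')
    (p := fun r => (G (Function.update (Function.update (dg r) i 0) i' 0) +
      G (Function.update (Function.update (dg r) i 0) i' 1)) / 2)
    (p' := fun r => (G (Function.update (Function.update (dg r) i 0) i' 0) -
      G (Function.update (Function.update (dg r) i 0) i' 1)) / 2)
    (fun r => (half_NcRd (hG1 _) (hG1 _)).1) (fun r => (half_NcRd (hG1 _) (hG1 _)).2)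
    (fun r r' hr => ?_) (fun r r' hr => ?_) _ fun r hr => ?_
  · have h2 := hU r r' fun k hk _ => hr k k hk hk
    simp only [h2]
  · have h2 := hU r r' fun k _ hk => hr k k hk hk
    simp only [h2]
  · rw [hF r hr, single_NcRd, single_NcRd]
    exact split_NcRd hii hG2 (dg r)

section
variable {Ω : Type} (φ : Ω → Ω → ZMod 2) (c₁ c₂ : Ω → ZMod 2) {d : ℕ} (s : Fin d → Ω)

/-- the matrix of coefficients -/
def ph_NrMas : Mx (d + 1) :=
  Fin.snoc (α := fun _ => Fin (d + 1) → ZMod 2)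
    (fun i => Fin.snoc (α := fun _ => ZMod 2) (fun j => φ (s i) (s j)) (c₂ (s i))) 0

/-- the diagonal part -/
def g_NrMas (ε : Fin (d + 1) → ZMod 2) : ℝ := sg (∑ i, c₁ (s i) * ε i.castSucc)

theorem eq_NrMas (r : Mx (d + 1)) : sg (PhQ φ c₁ c₂ (ul r) (lc r) s) =
    g_NrMas c₁ s (dg r) * sg (∑ i, ∑ j, r i j * ph_NrMas φ c₂ s i j) := by
  rw [g_NrMas, ← sg_add_NcRd]
  congr 1
  simp only [PhQ, ph_NrMas, ul, lc, dg, Fin.sum_univ_castSucc, Fin.snoc_castSucc, Fin.snoc_last,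
    Pi.zero_apply, mul_zero, sum_const_zero, add_zero, sum_add_distrib]
  rw [sum_congr rfl fun i _ => mul_comm (c₂ (s i)) _]
  ring

theorem diag_NrMas (h : ∀ a, φ a a = 0) (i : Fin (d + 1)) : ph_NrMas φ c₂ s i i = 0 := by
  induction i using Fin.lastCases <;> simp [ph_NrMas, h]

variable {φ c₁ c₂ s} {ν : Mx (d + 1) → ℝ} {Lg : Finset (Fin d)} {η : ℝ}

theorem mem_NrMas {i : Fin d} (hi : i ∈ Lg) : i.castSucc ∈ up Lg := mem_map_of_mem _ hi

theorem non_NrMas (h : ∀ a, φ a a = 0) (hO : Osc ν (up Lg) η) {i : Fin d} (hi : i ∈ Lg)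
    (hs : c₂ (s i) ≠ 0 ∨ ∃ j, φ (s i) (s j) ≠ φ (s j) (s i)) :
    ∑ r, ν r * sg (PhQ φ c₁ c₂ (ul r) (lc r) s) ≤ 2 * η := by
  simp only [eq_NrMas]
  have hg : ∀ ε, |g_NrMas c₁ s ε| ≤ 1 := fun ε => (abs_sg_NcRd _).le
  rcases hs with hs | ⟨j, hs⟩
  · exact le_of_abs_le (nonsym_NcRd hO (diag_NrMas φ c₂ s h) hg (j := Fin.last d) (mem_NrMas hi)
      (by simpa [ph_NrMas] using hs))
  · exact le_of_abs_le (nonsym_NcRd hO (diag_NrMas φ c₂ s h) hg (j := j.castSucc) (mem_NrMas hi)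
      (by simpa [ph_NrMas] using hs))

theorem can_NrMas (h : ∀ a, φ a a = 0) (hO : Osc ν (up Lg) η) {i i' : Fin d} (hi : i ∈ Lg)
    (hi' : i' ∈ Lg) (h1 : ∀ i j, φ (s i) (s j) = φ (s j) (s i)) (h2 : ∀ i, c₂ (s i) = 0)
    (h3 : c₁ (s i) ≠ c₁ (s i')) (h4 : ∀ j, φ (s i) (s j) = φ (s i') (s j)) :
    ∑ r, ν r * sg (PhQ φ c₁ c₂ (ul r) (lc r) s) ≤ 2 * η := by
  have hd := diag_NrMas φ c₂ s h
  have hs : ∀ a b, ph_NrMas φ c₂ s a b = ph_NrMas φ c₂ s b a := fun a b => by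
    induction a using Fin.lastCases <;> induction b using Fin.lastCases <;>
      simp [ph_NrMas, h2, h1 _ _]
  have hii : i ≠ i' := fun e => h3 (by rw [e])
  have hr : ∀ k, ph_NrMas φ c₂ s i.castSucc k = ph_NrMas φ c₂ s i'.castSucc k := fun k => by
    induction k using Fin.lastCases <;> simp [ph_NrMas, h2, h4]
  refine le_of_abs_le (flip_NrMas hO (mem_NrMas hi) (mem_NrMas hi')
    (fun e => hii (Fin.castSucc_injective _ e))
    (fun ε => g_NrMas c₁ s ε * sg (Qf (ph_NrMas φ c₂ s) ε)) (fun ε => ?_) (fun ε => ?_) _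
    fun r hr => by rw [eq_NrMas, qf_NcRd hd hs hr])
  · rw [abs_mul, g_NrMas, abs_sg_NcRd, abs_sg_NcRd, mul_one]
  · have e1 : ∀ x y : ZMod 2, x ≠ y → x + y = 1 := by decide
    have e2 : ∀ x y : ZMod 2, x + y + y = x := by decide
    have e3 : ∑ k, (ε + Pi.single i.castSucc 1 : Fin (d + 1) → ZMod 2) k *
        ph_NrMas φ c₂ s i'.castSucc k = ∑ k, ε k * ph_NrMas φ c₂ s i.castSucc k := by
      simp only [Pi.add_apply, add_mul, sum_add_distrib, single_NcRd, ← hr, hd, add_zero]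
    have e4 : g_NrMas c₁ s (ε + Pi.single i.castSucc 1 + Pi.single i'.castSucc 1) =
        -g_NrMas c₁ s ε := by
      rw [g_NrMas, g_NrMas, ← sg_add_one_ZqRd]
      congr 1
      simp [mul_add, sum_add_distrib, Pi.single_apply, add_assoc, e1 _ _ h3]
    rw [qf_single_ZqRd hd hs, qf_single_ZqRd hd hs, e3, e2, e4, neg_mul]

theorem sum_NrMas [Fintype Ω] (hO : Osc ν (up Lg) η) (n : ℕ) (hn : 0 < n)
    (A A' : Finset (Fin d → Ω)) (a : ℝ) (ha : ∑ _s ∈ A', ∏ _j : Fin d, (1 / n : ℝ) ≤ a)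
    (h : ∀ s ∈ A, s ∉ A' → ∑ r, ν r * sg (PhQ φ c₁ c₂ (ul r) (lc r) s) ≤ 2 * η) :
    ∑ r, ν r * ∑ s ∈ A, sg (PhQ φ c₁ c₂ (ul r) (lc r) s) / (n : ℝ) ^ d ≤
      a * ∑ r, ν r + (2 + 2 * Fintype.card Ω) ^ (d + 1) * η := by
  classical
  have hν : 0 ≤ ∑ r, ν r := sum_nonneg fun r _ => hO.nn r
  have hn1 : (1 : ℝ) ≤ (n : ℝ) ^ d := one_le_pow₀ (by exact_mod_cast hn)
  have hn0 : (0 : ℝ) < (n : ℝ) ^ d := by linarith
  have hη := hO.pos
  have h1 : ∑ r, ν r * ∑ s ∈ A, sg (PhQ φ c₁ c₂ (ul r) (lc r) s) / (n : ℝ) ^ d =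
      ∑ s ∈ A, (∑ r, ν r * sg (PhQ φ c₁ c₂ (ul r) (lc r) s)) / (n : ℝ) ^ d := by
    simp only [mul_sum, sum_div, mul_div_assoc]
    exact sum_comm
  have h2 : ∀ s ∈ A, (∑ r, ν r * sg (PhQ φ c₁ c₂ (ul r) (lc r) s)) / (n : ℝ) ^ d ≤
      (if s ∈ A' then (∑ r, ν r) / (n : ℝ) ^ d else 0) + 2 * η := fun s hs => by
    split_ifs with h3
    · have := div_le_div_of_nonneg_right (sum_le_sum fun r (_ : r ∈ univ) =>
        mul_le_of_le_one_right (hO.nn r) (sg_le_ZqRd (PhQ φ c₁ c₂ (ul r) (lc r) s))) hn0.le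
      linarith
    · rw [zero_add, div_le_iff₀ hn0]
      nlinarith [h s hs h3]
  rw [h1]
  refine (sum_le_sum h2).trans ?_
  rw [sum_add_distrib]
  refine add_le_add ?_ ?_
  · rw [← sum_filter]
    refine (sum_le_sum_of_subset_of_nonneg (t := A') (fun s hs => (mem_filter.1 hs).2)
      fun _ _ _ => div_nonneg hν hn0.le).trans (le_trans (le_of_eq ?_)
        (mul_le_mul_of_nonneg_right ha hν))
    rw [sum_mul]
    refine sum_congr rfl fun _ _ => ?_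
    simp [div_eq_inv_mul]
  · have h3 : (A.card : ℝ) ≤ (Fintype.card Ω : ℝ) ^ d := by
      have := card_le_univ A
      rw [Fintype.card_fun, Fintype.card_fin] at this
      exact_mod_cast this
    have h4 : (0 : ℝ) ≤ Fintype.card Ω := Nat.cast_nonneg _
    rw [sum_const, nsmul_eq_mul, ← mul_assoc, pow_succ]
    refine mul_le_mul_of_nonneg_right ?_ hη
    exact mul_le_mul (h3.trans (pow_le_pow_left₀ h4 (by linarith) d)) (by linarith) zero_le_two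
      (by positivity)

end

theorem masQ (hC : ColN) : MasQ := by
  classical
  intro Ω _ _ n φ hn hφ hU
  have hn0 : (0 : ℝ) < n := by exact_mod_cast hn
  obtain ⟨δ, hδ, h1, h2⟩ := hC Ω (fun _ => 1 / n) (fun a b => φ a b = φ b a)
    (fun _ => by positivity) (fun _ => rfl) (fun _ _ h => h.symm) fun U _ h => by
      rw [sum_const, nsmul_eq_mul, mul_one_div, div_le_one hn0]
      exact_mod_cast hU U h
  have h4 : (0 : ℝ) ≤ Fintype.card Ω := Nat.cast_nonneg _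
  refine ⟨δ, 2 + 2 * Fintype.card Ω, hδ, by linarith, fun c₁ c₂ d ν Lg η hO hd => ?_,
    fun m ε hε => ?_⟩
  · refine sum_NrMas hO n hn _ _ _ ((h1 d Lg hd).trans (pow_le_pow_right₀ one_le_two
      (card_le_univ _))) fun s _ hs => ?_
    simp only [mem_filter, mem_univ, true_and, not_forall] at hs
    obtain ⟨i, hi, j, hj⟩ := hs
    exact non_NrMas hφ hO hi (.inr ⟨j, hj⟩)
  · obtain ⟨m₀, h3⟩ := h2 m ε hε
    refine ⟨m₀, fun c₁ c₂ d ν Sm Lg η X hO hT hX => ?_⟩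
    refine sum_NrMas hO n hn _ _ _ (h3 d Sm Lg hT) fun s hs hs' => ?_
    by_cases h5 : ∃ i ∈ Lg, c₂ (s i) ≠ 0 ∨ ∃ j, φ (s i) (s j) ≠ φ (s j) (s i)
    · obtain ⟨i, hi, h6⟩ := h5
      exact non_NrMas hφ hO hi h6
    push Not at h5
    simp only [mem_filter, mem_univ, true_and] at hs hs'
    obtain ⟨h6, h7⟩ := not_not.1 (not_and.1 hs' fun i hi => (h5 i hi).2)
    have h8 : ∀ j, ∃ t ∈ Lg, s t = s j := fun j => mem_image.1 (h7 j).1
    have h9 : ∀ i j, φ (s i) (s j) = φ (s j) (s i) := fun i j => by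
      obtain ⟨t, ht, e⟩ := h8 i
      rw [← e]
      exact (h5 t ht).2 j
    have h10 : ∀ i, c₂ (s i) = 0 := fun i => by
      obtain ⟨t, ht, e⟩ := h8 i
      rw [← e]
      exact (h5 t ht).1
    obtain ⟨i, i', h11, h12⟩ := hX s hs (by
      rw [sum_const, nsmul_eq_mul, mul_one_div, one_le_div hn0] at h6
      exact_mod_cast h6) h9 h10 h7
    obtain ⟨t, ht, e⟩ := h8 i
    obtain ⟨t', ht', e'⟩ := h8 i'
    exact can_NrMas hφ hO ht ht' h9 h10 (by rwa [e, e']) (by rwa [e, e'])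

end Pool.Agent.MP_f68ac8_nt.Nd

end
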