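import Mathlib
import Pool.Agent.Mg.Fe23604m.G9af74e
import Pool.Agent.Mg.Fe23604m.G0a5d16
import Pool.Agent.Mg.Fe23604m.G2d01bf
import Pool.Agent.MP_e23604_nt.BSel

set_option linter.all false

section

/-! The steps of the proof, second part. -/

namespace Pool.Agent.MP_e23604_nt.Q

open Finset Filter NumberField
open MP_f68ac8_nt.Zq (Mx sg eps lk2)
open MP_f68ac8_nt.Zk (Cp Yw rr ch lk)
open MP_f68ac8_nt.Nd (Lr x2 chn Loc Op2 Fr vl Rcp GenQ GnQ WdQ exq Sp np Km)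
open scoped BigOperators Topology

/-- the symbols of two -/
noncomputable def kq {d : ℕ} {Λ : Finset ℕ} (q : Fin d → Λ) (i : Fin d) : ZMod 2 := lk 2 2 (q i)

/-- subgroups that cut out `2`-extensions unramified outside `2` and `R` -/
structure Adm (R : Finset ℕ) (N : Subgroup GQ) : Prop extends Op2 N where
  unr : ∀ P, Out R P → ∀ g ∈ P.inertia GQ, g ∈ N

/-- local data at all odd primes -/
def Tl (σ τ : ℕ → GQ) : Prop := ∀ l : ℕ, l.Prime → Odd l → Loc (ch 2 l) l (σ l) (τ l)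

/-- complex conjugation -/
structure Cj (c : GQ) : Prop where
  sq : c ^ 2 = 1
  two : ∀ α β, (x2 α β c).toAdd = α
  odd : ∀ l : ℕ, l.Prime → Odd l → (ch 2 l c).toAdd = eps l

section
variable {Λ : Finset ℕ} {nb : ℕ}

/-- the letters -/
def ltr (Λ : Finset ℕ) (τ : ℕ → GQ) (bb : Fin nb → GQ) : Λ ⊕ Fin nb → GQ :=
  Sum.elim (fun l => τ l) bb

/-- generators of the Galois group modulo `N` -/
structure Gq (Λ : Finset ℕ) (τ : ℕ → GQ) (N : Subgroup GQ) (bb : Fin nb → GQ) : Prop where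
  pri : ∀ l ∈ Λ, l.Prime ∧ Odd l
  adm : Adm Λ N
  mem : ∀ b, bb b ∈ P2.inertia GQ
  cov : ∀ g ∈ P2.inertia GQ, ∃ b, (bb b)⁻¹ * g ∈ N
  gen : ∀ g, ∃ w, (FreeGroup.lift (ltr Λ τ bb) w)⁻¹ * g ∈ N

end

section
variable {V : Type} [AddCommGroup V] {J : V ≃ₗ[ℤ] V} {m : ℕ} (p : Pa J m)

/-- affine actions of the Galois group -/
structure Act (τ : ℕ → GQ) (n : ℕ) (θ : GQ →* Pm J m) (v : ℕ → V) : Prop where
  adm : Adm n.primeFactors θ.ker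
  two : ∀ g, Dc g → θ g = p.th g
  tam : ∀ l ∈ n.primeFactors, v l ∈ Wn J (m + 1) ∧ θ (τ l) = rot J m (v l)
  nc : ∃ l ∈ n.primeFactors, ∃ l' ∈ n.primeFactors, dig J m (v l) ≠ dig J m (v l')
  del : ∀ k : ℕ, 1 ≤ k → k ≤ m → ∀ g,
    del J k (θ g).1.linear = ((x2 (p.al + k) p.a * chn n) g).toAdd
  cj : ∑ l ∈ n.primeFactors, eps l = p.pi + p.al + 1

/-- the setting of the words -/
structure Set1 {Λ : Finset ℕ} {nb d o : ℕ} (σ τ : ℕ → GQ) (N : Subgroup GQ) (bb : Fin nb → GQ)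
    (S : Sy J m (d + o)) (lab : Fin nb → Fin o) (g : Fin o → GQ) (q : Fin d → Λ)
    (y : Lr (d + o) (Option Λ) → FreeGroup (Lr (d + o) (Option Λ))) : Prop where
  tl : Tl σ τ
  gq : Gq Λ τ N bb
  n1 : ∀ θ : GQ →* Pm J m, Adm Λ θ.ker → N ≤ θ.ker
  n2 : ∀ θ : GQ →* Cp 2, Adm Λ θ.ker → N ≤ θ.ker
  ok : S.Ok
  tm : S.Tm = univ.map (Fin.castAddEmb o)
  inj : Function.Injective q
  io : ∀ b, S.x0 (Fin.natAdd d (lab b)) = p.th (bb b)
  kf : ∃ j, S.kf = Fin.natAdd d j ∧ Fr 2 (g j) ∧ Dc (g j) ∧ S.f0 = (p.th (g j)).1 0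
  kc : ∃ j, S.kc = Fin.natAdd d j ∧ Cj (g j)
  o : S.o = p.o
  pi : S.pi = p.pi
  wd : WdQ (fun l : Λ => σ l) (ltr Λ τ bb) N lab g q y

end

/-- independence of the symbols of `-1` and `2` -/
def G4n (n : ℕ) : Prop :=
  ∀ γ : ZMod 2 × ZMod 2, γ ≠ 0 → ∃ l ∈ n.primeFactors, γ.1 * eps l + γ.2 * lk 2 2 l ≠ 0

section
variable {A : Type} [AddCommGroup A] (J : A ≃ₗ[ℤ] A) (η : GQ →* (A ≃ₗ[ℤ] A)) (n : ℕ)

/-- Galois modules -/
structure Gm (α a : ZMod 2) (τ : ℕ → GQ) (η₀ : GQ → A ≃ₗ[ℤ] A) : Prop where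
  pre : ∀ g, Pre J (η g)
  opn : ∀ u, {g | η g u = u} ∈ 𝓝 (1 : GQ)
  unr : ∀ P, Out n.primeFactors P → ∀ g ∈ P.inertia GQ, ∀ k, ∀ u ∈ Wn J k, η g u = u
  tam : ∀ l ∈ n.primeFactors, ∀ k, ∀ u ∈ Wn J k, η (τ l) u = J u
  two : ∀ g, Dc g → η g = η₀ g
  del : ∀ k : ℕ, 1 ≤ k → ∀ g, del J k (η g) = ((x2 (α + k) a * chn n) g).toAdd
  big : ∀ K k, ∀ b ∈ Wn J K, (∀ g, Dc g → η g b - b ∈ Wn J k) → b ∈ Wn J (k + 3)

end

section
open scoped Classical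

/-- the data attached to a curve -/
structure Ell (i δ : Qb) (J : A1 ≃ₗ[ℤ] A1) (η : GQ →* (A1 ≃ₗ[ℤ] A1)) (D : ℤ) (n : ℕ) (β : ZMod 2)
    (σ τ : ℕ → GQ) : Prop where
  jm : Jm i J
  eta : Eta δ η
  pow : δ ^ 4 = D
  odd : Odd n
  sf : Squarefree n
  abs : D.natAbs = 2 ^ β.val * n
  tl : Tl σ τ
  tau : ∀ l : ℕ, l.Prime → Odd l → ∀ ρ : Qb, ρ ^ 4 = l → τ l ρ = -i * ρ

end

/-! ### The Galois group -/

/-- primes and decomposition groups -/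
def DecQ : Prop :=
  P2.IsMaximal ∧ ((2 : ℕ) : 𝓞 Qb) ∈ P2 ∧ (∀ g ∈ P2.inertia GQ, Dc g) ∧ (∃ φ, Fr 2 φ ∧ Dc φ) ∧
    (∃ c, Cj c) ∧
    (∀ P : Ideal (𝓞 Qb), P.IsMaximal → ((2 : ℕ) : 𝓞 Qb) ∈ P → ∀ g ∈ P.inertia GQ,
      ∃ s : GQ, s * g * s⁻¹ ∈ P2.inertia GQ) ∧
    ∀ P : Ideal (𝓞 Qb), P.IsMaximal → ∀ (l : ℕ) [Fact l.Prime], (l : 𝓞 Qb) ∈ P →
      ∃ g : GQ, ∀ τ ∈ P.inertia GQ, B.Inr (B.nv l g) τ

/-- the characters modulo eight -/
def SjQ : Prop :=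
  (∀ γ : ZMod 2 × ZMod 2, ∃ g ∈ P2.inertia GQ, ∀ α β, (x2 α β g).toAdd = α * γ.1 + β * γ.2) ∧
    (∀ α β : ZMod 2, Km ((-1) ^ α.val * 2 ^ β.val) (x2 α β)) ∧
    ∀ α β α' β' : ZMod 2, x2 (α + α') (β + β') = x2 α β * x2 α' β'

/-- the values of the characters -/
def ValQ : Prop :=
  (∀ σ τ, Tl σ τ → ∀ l : ℕ, l.Prime → Odd l → (ch 2 l (τ l)).toAdd = 1 ∧
    (∀ l' : ℕ, l'.Prime → Odd l' → l ≠ l' →
      ch 2 l' (τ l) = 1 ∧ (ch 2 l' (σ l)).toAdd = lk 2 l l') ∧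
    (∀ α β, x2 α β (τ l) = 1 ∧ (x2 α β (σ l)).toAdd = α * eps l + β * lk 2 2 l) ∧
    ∀ (R : Finset ℕ) (N : Subgroup GQ), (∀ l' ∈ R, l'.Prime) → l ∉ R → Adm R N → τ l ∈ N) ∧
  (∀ l : ℕ, l.Prime → Odd l → (∀ g ∈ P2.inertia GQ, ch 2 l g = 1) ∧
    (∀ φ, Fr 2 φ → (ch 2 l φ).toAdd = lk 2 2 l) ∧ ∀ R : Finset ℕ, l ∈ R → Adm R (ch 2 l).ker) ∧
  (∀ (R : Finset ℕ) α β, Adm R (x2 α β).ker) ∧
  (∀ (R : Finset ℕ) (n : ℕ) α β, Odd n → n.primeFactors ⊆ R → Adm R (x2 α β * chn n).ker) ∧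
  ∀ (R R' : Finset ℕ) (N : Subgroup GQ), R ⊆ R' → Adm R N → Adm R' N

/-- all quadratic characters -/
def ChrQ : Prop :=
  ∀ σ τ, Tl σ τ → ∀ R : Finset ℕ, (∀ l ∈ R, l.Prime ∧ Odd l) → ∀ e : GQ →* Cp 2, Adm R e.ker →
    ∃ γ : ZMod 2 × ZMod 2, ∀ g,
      (e g).toAdd = (x2 γ.1 γ.2 g).toAdd + ∑ l ∈ R, (e (τ l)).toAdd * (ch 2 l g).toAdd

/-- generators of tame inertia -/
def TauQ : Prop :=
  ∀ i : Qb, i ^ 2 = -1 → ∃ σ τ, Tl σ τ ∧
    ∀ l : ℕ, l.Prime → Odd l → ∀ ρ : Qb, ρ ^ 4 = l → τ l ρ = -i * ρ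

/-- generators of the Galois group -/
def GqQ : Prop :=
  ∀ σ τ, Tl σ τ → ∀ Λ : Finset ℕ, (∀ l ∈ Λ, l.Prime ∧ Odd l) → ∀ (H : Type) [Group H] [Finite H],
    ∃ (N : Subgroup GQ) (nb : ℕ) (bb : Fin nb → GQ), Gq Λ τ N bb ∧
      (∀ θ : GQ →* H, Adm Λ θ.ker → N ≤ θ.ker) ∧ (∀ θ : GQ →* Cp 2, Adm Λ θ.ker → N ≤ θ.ker) ∧
      GnQ (fun l : Λ => σ l) (ltr Λ τ bb) N

/-- Frobenius elements almost fix the centres of the rotations -/
def TameQ : Prop :=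
  AllV fun _ _ _ J m => ∀ (θ : GQ →* Pm J m) (l : ℕ) (σ τ : GQ), l.Prime → Odd l →
    Loc (ch 2 l) l σ τ → (θ.ker : Set GQ) ∈ 𝓝 1 → ∀ v ∈ Wn J (m + 1), θ τ = rot J m v →
    ∀ k : ℕ, (θ (σ ^ k)).1 v - v ∈ Wn J 2

/-- statements about all settings with an action -/
def AllA (Q : ∀ (V : Type) [AddCommGroup V] (J : V ≃ₗ[ℤ] V) (m : ℕ) (Λ : Finset ℕ) (d o : ℕ),
    Pa J m → Sy J m (d + o) → (Fin d → Λ) →
    (Lr (d + o) (Option Λ) → FreeGroup (Lr (d + o) (Option Λ))) → Prop) : Prop :=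
  AllV fun V _ _ J m => ∀ (p : Pa J m), p.Ok → ∀ (Λ : Finset ℕ) (nb d o : ℕ) (σ τ : ℕ → GQ)
    (N : Subgroup GQ) (bb : Fin nb → GQ) (S : Sy J m (d + o)) (lab : Fin nb → Fin o)
    (g : Fin o → GQ) (q : Fin d → Λ) y,
    Set1 p σ τ N bb S lab g q y → ∀ θ v, Act p τ (np q) θ v → Q V J m Λ d o p S q y

/-- exponent sums are linking numbers -/
def LnkQ : Prop :=
  AllA fun _ _ _ _ Λ _ o p S q y => ∃ γ, Lnk (lk2 (vl q)) (kq q) S.sh (Fin.castAddEmb o)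
    (rr (U := fun _ => Option Λ) y (exq o q) 2) p.al p.a γ

/-- actions give true solutions -/
def TruQ : Prop :=
  AllA fun _ _ _ _ Λ _ o _ S q y => ∃ v, S.Tru (U := fun _ => Option Λ) y (exq o q) v

/-- the system attached to the parameters -/
def SysQ : Prop :=
  AllV fun _ _ _ J m => ∃ o : ℕ, ∀ p : Pa J m, p.Ok → ∀ (nb : ℕ) (bb : Fin nb → GQ) (φ c : GQ),
    (∀ b, Dc (bb b)) → ∃ (lab : Fin nb → Fin o) (g : Fin o → GQ) (jf jc : Fin o),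
      g jf = φ ∧ g jc = c ∧ ∀ d, 0 < d → ∃ S : Sy J m (d + o), S.Ok ∧
        S.Tm = univ.map (Fin.castAddEmb o) ∧
        (∀ b, S.x0 (Fin.natAdd d (lab b)) = p.th (bb b)) ∧ S.kf = Fin.natAdd d jf ∧
        S.kc = Fin.natAdd d jc ∧ S.f0 = (p.th φ).1 0 ∧ S.o = p.o ∧ S.pi = p.pi

/-- reciprocity -/
def RcpQ : Prop :=
  ∀ (Λ : Finset ℕ) (d : ℕ) (q : Fin d → Λ), (∀ l ∈ Λ, l.Prime ∧ Odd l) → Function.Injective q →
    Rcp (lk2 (vl q))

/-- few numbers admit an action -/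
def PtA : Prop :=
  ∀ ε : ℝ, 0 < ε → ∃ M, AllV fun _ _ _ J m => M ≤ m → ∀ σ τ, Tl σ τ → ∀ p : Pa J m, p.Ok →
    Sp (fun n => ∃ θ v, Act p τ n θ v) ε

/-- the symbols of `-1` and `2` are independent for most numbers -/
def G4S : Prop := ∀ ε : ℝ, 0 < ε → Sp (fun n => ¬ G4n n) ε

/-! ### From cocycles to actions -/

/-- the actions are unramified outside `2 n` -/
def AdmQ : Prop :=
  AllE fun _ _ _ _ _ J JV ι _ => ∀ η n α a τ η₀, Gm J η n α a τ η₀ → ∀ x ∈ St J η n, ∀ K,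
    ∀ b ∈ Wn J K, ∀ (m : ℕ) (θ : GQ →* Pm JV m),
    (∀ g, Rep ι (θ g) (η g) (x g + η g b - b)) → Adm n.primeFactors θ.ker

/-- statements about all Galois modules -/
def AllG (Q : ∀ (A : Type) [AddCommGroup A], (A ≃ₗ[ℤ] A) → (GQ →* (A ≃ₗ[ℤ] A)) → ℕ →
    (ℕ → GQ) → (ℕ → GQ) → Prop) : Prop :=
  ∀ (A : Type) [AddCommGroup A] (J : A ≃ₗ[ℤ] A) (η : GQ →* (A ≃ₗ[ℤ] A)) (n : ℕ) (α a : ZMod 2)
    (σ τ : ℕ → GQ) (η₀ : GQ → A ≃ₗ[ℤ] A), CmI J → Gm J η n α a τ η₀ → Tl σ τ → Odd n →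
    Q A J η n σ τ

/-- the tame condition -/
def TamI : Prop :=
  AllG fun _ _ J η n σ τ => ∀ x ∈ St J η n, ∀ l ∈ n.primeFactors, ∀ K, ∀ p ∈ Wn J K,
    x (τ l) + J p = p → x (σ l) + η (σ l) p - p ∈ Wn J 2

/-- the leading character of a cocycle -/
def LeadI : Prop :=
  AllG fun _ _ J η n _ τ => ∀ x ∈ St J η n, ∀ K, ∀ b ∈ Wn J K, ∀ j,
    (∀ g, x g + η g b - b ∈ Wn J (j + 1)) →
    (∀ l ∈ n.primeFactors, x (τ l) + η (τ l) b - b ∈ Wn J j) →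
    ∃ γ : ZMod 2 × ZMod 2, ∀ g, dig J j (x g + η g b - b) = (x2 γ.1 γ.2 g).toAdd

/-- the level of a cocycle -/
def LevI : Prop :=
  AllG fun A _ J η n _ τ => G4n n → ∀ x ∈ St J η n, ∀ (K m : ℕ) (p : ℕ → A) (b : A), 2 ≤ m →
    b ∈ Wn J K → (∀ l ∈ n.primeFactors, x (τ l) + J (p l) = p l ∧ p l - b ∈ Wn J (m + 1)) →
    b ∈ Wn J (m + 3) ∧ ∀ g, x g + η g b - b ∈ Wn J m

/-- a cocycle is determined by its values at the tame generators -/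
def InjI : Prop :=
  AllG fun _ _ J η n _ τ => ∀ x ∈ St J η n, ∀ x' ∈ St J η n,
    (∀ l ∈ n.primeFactors, x (τ l) = x' (τ l)) → x = x'

/-- cocycles of prescribed level -/
def DetQ : Prop :=
  AllG fun _ _ J η n _ τ => G4n n → (St J η n).Infinite → ∀ M, 2 ≤ M →
    ∃ m, (m = M ∨ m = M + 1) ∧ ∃ x p b, Lev J η n τ m x p b

/-- parameters and actions -/
def ActQ : Prop :=
  AllE fun A _ _ _ _ J JV _ N => ∀ m, N = m + 3 → ∀ (η₀ : GQ → A ≃ₗ[ℤ] A) (α a π : ZMod 2),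
    ∀ b' ∈ Wn J (m + 3), ∃ p : Pa JV m, p.Ok ∧ ∀ η n τ x pp b, Gm J η n α a τ η₀ →
      Lev J η n τ m x pp b → b - b' ∈ Wn J (m + 1) →
      ∑ l ∈ n.primeFactors, eps l = π + α + 1 → ∃ θ v, Act p τ n θ v

/-- few numbers have infinitely many strict cocycles -/
def RedQ : Prop :=
  ∀ (A : Type) [AddCommGroup A] (J : A ≃ₗ[ℤ] A), CmI J → ∀ σ τ, Tl σ τ →
    ∀ (I : Type) [Fintype I] (α a : I → ZMod 2) (η₀ : I → GQ → A ≃ₗ[ℤ] A) (ε : ℝ), 0 < ε →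
    Sp (fun n => ∃ i η, Gm J η n (α i) (a i) τ (η₀ i) ∧ (St J η n).Infinite) ε

/-! ### The curves -/

section
open P
open scoped Classical

/-- statements about all curves -/
def AllC (Q : Qb → (A1 ≃ₗ[ℤ] A1) → (GQ →* (A1 ≃ₗ[ℤ] A1)) → ℤ → ℕ → ZMod 2 → (ℕ → GQ) → Prop) :
    Prop :=
  ∀ i δ J η D n β σ τ, Ell i δ J η D n β σ τ → Q δ J η D n β τ

/-- semilinearity and continuity -/
def GmA : Prop :=
  AllC fun _ J η _ _ _ _ => (∀ g, Pre J (η g)) ∧ (∀ u, {g | η g u = u} ∈ 𝓝 (1 : GQ)) ∧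
    ∀ g, (x2 1 0 g = 1 → ∀ u, η g (J u) = J (η g u)) ∧
      (x2 1 0 g ≠ 1 → ∀ u, η g (J u) = -J (η g u))

/-- inertia groups at odd primes -/
def GmU : Prop :=
  AllC fun _ J η _ n _ τ =>
    (∀ P, Out n.primeFactors P → ∀ g ∈ P.inertia GQ, ∀ k, ∀ u ∈ Wn J k, η g u = u) ∧
      ∀ l ∈ n.primeFactors, ∀ k, ∀ u ∈ Wn J k, η (τ l) u = J u

/-- the characters of the levels -/
def GmB : Prop :=
  AllC fun _ J η _ n β _ => ∃ α : ZMod 2, ∀ k : ℕ, 1 ≤ k → ∀ g,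
    del J k (η g) = ((x2 (α + k) β * chn n) g).toAdd

/-- the decomposition group at two fixes few points -/
def GmC : Prop :=
  AllC fun _ J η _ _ _ _ => ∀ K k, ∀ b ∈ Wn J K, (∀ g, Dc g → η g b - b ∈ Wn J k) →
    b ∈ Wn J (k + 3)

/-- strict Selmer cocycles are strict cocycles -/
def StrQ : Prop := AllC fun _ J η D n _ _ => (St J η n).Finite → (Str D).Finite

/-- the modules attached to the curves -/
def EllQ : Prop :=
  ∃ (i₀ : Qb) (J : A1 ≃ₗ[ℤ] A1) (σ τ : ℕ → GQ) (I : Type) (_ : Fintype I) (α a : I → ZMod 2)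
    (η₀ : I → GQ → A1 ≃ₗ[ℤ] A1), CmI J ∧ Tl σ τ ∧ ∀ (D : ℤ) (n : ℕ) (β : ZMod 2), Odd n →
      Squarefree n → D.natAbs = 2 ^ β.val * n →
      ∃ i δ η, Ell i₀ δ J η D n β σ τ ∧ Gm J η n (α i) (a i) τ (η₀ i)

/-- most curves have finitely many strict cocycles -/
def MainQ : Prop :=
  ∀ ε : ℝ, 0 < ε → Sp (fun n => ∃ (D : ℤ) (β : ZMod 2), D.natAbs = 2 ^ β.val * n ∧
    ¬ ∃ i δ J η σ τ, Ell i δ J η D n β σ τ ∧ (St J η n).Finite) ε

end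

end Pool.Agent.MP_e23604_nt.Q

end

section

namespace Pool.Agent.MP_e23604_nt.Q

open Finset Filter NumberField
open MP_f68ac8_nt
open MP_f68ac8_nt.Zq (Mx sg eps lk2)
open MP_f68ac8_nt.Zk (Cp Yw rr ch lk)
open MP_f68ac8_nt.Nd (Lr x2 chn Loc Op2 Fr vl Rcp GenQ GnQ WdQ exq Sp np Km)
open scoped BigOperators Topology

theorem admQ (hFilQ : FilQ) : AdmQ := by
  intro A _ V _ _ J JV ι N _ hE η n α a τ η₀ hG x hx K b hb m θ hθ
  obtain ⟨h1, h2, -, h3, -⟩ := hx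
  have key : ∀ g, x g = 0 → η g b = b → (∀ y, η g (ι y) = ι y) → g ∈ θ.ker := fun g a1 a2 a3 =>
    Subtype.ext (AffineEquiv.ext fun y => hE.inj (by
      rw [hθ g y, a1, a2, a3, zero_add, sub_self, add_zero]
      rfl))
  have h0 : x 1 = 0 := by
    have := h2 1 1
    rw [mul_one, map_one] at this
    exact left_eq_add.1 this
  obtain ⟨k, hk⟩ := (hFilQ V JV hE.cm.toCm0 m).2.2.2.2 N hE.cm.top
  refine ⟨⟨inferInstance, ?_, fun g => ⟨k, by rw [MonoidHom.mem_ker, map_pow, hk]⟩⟩,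
    fun P hP g hg => key g (h3 P hP g hg) (hG.unr P hP g hg K b hb) fun y =>
      hG.unr P hP g hg N _ ((hE.lev N y).2 (hE.cm.top y))⟩
  have a1 : {g | x g = 0} ∈ 𝓝 (1 : GQ) := (h1.isOpen_fiber 0).mem_nhds h0
  have a3 : ∀ᶠ g in 𝓝 (1 : GQ), ∀ y, η g (ι y) = ι y := eventually_all.2 fun y => hG.opn (ι y)
  filter_upwards [a1, hG.opn b, a3] with g c1 c2 c3
  exact key g c1 c2 c3

end Pool.Agent.MP_e23604_nt.Q

end

section

namespace Pool.Agent.MP_e23604_nt.Q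

open Finset Filter NumberField
open MP_f68ac8_nt
open MP_f68ac8_nt.Zq (Mx sg eps lk2)
open MP_f68ac8_nt.Zk (Cp Yw rr ch lk)
open MP_f68ac8_nt.Nd (Lr x2 chn Loc Op2 Fr vl Rcp GenQ GnQ WdQ exq Sp np Km)
open scoped BigOperators Topology

theorem pow_XDet {A : Type} [AddCommGroup A] {J : A ≃ₗ[ℤ] A}
    (h : ∀ n u, 2 • u ∈ Wn J n ↔ u ∈ Wn J (n + 2)) (k j : ℕ) (u : A) :
    2 ^ k • u ∈ Wn J j ↔ u ∈ Wn J (j + 2 * k) := by
  induction k generalizing j with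
  | zero => simp
  | succ k ih =>
    rw [pow_succ', mul_smul, h, ih, show j + 2 + 2 * k = j + 2 * (k + 1) by ring]

theorem st_XDet {A : Type} [AddCommGroup A] {J : A ≃ₗ[ℤ] A} {η : GQ →* (A ≃ₗ[ℤ] A)} {n : ℕ}
    {x : GQ → A} (hx : x ∈ St J η n) (c : ℕ) : (fun g => c • x g) ∈ St J η n := by
  obtain ⟨h1, h2, ⟨K, h3⟩, h4, h5⟩ := hx
  refine ⟨h1.comp fun u => c • u, fun g h => ?_, ⟨K, fun g => nsmul_mem (h3 g) c⟩,
    fun P hP g hg => ?_, fun g hg => ?_⟩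
  · simp only [h2 g h, smul_add, map_nsmul]
  · simp only [h4 P hP g hg, smul_zero]
  · simp only [h5 g hg, smul_zero]

theorem detQ (hBasQ : BasQ) (hLevQ : LevQ) (hLevI : LevI) (hInjI : InjI) : DetQ := by
  classical
  intro A _ J η n α a σ τ η₀ hC hG hT hn h4 hinf M hM
  obtain ⟨mono, -, hom, -, htwo, -⟩ := hBasQ A J hC.toCm0
  have hL := hLevI A J η n α a σ τ η₀ hC hG hT hn h4
  have hI := hInjI A J η n α a σ τ η₀ hC hG hT hn
  obtain ⟨l0, hl0, -⟩ := h4 (1, 0) (by decide)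
  choose pp hp using fun (x : GQ → A) (l : ℕ) => hC.surj (-x (τ l))
  have hfix : ∀ x l, x (τ l) + J (pp x l) = pp x l := fun x l => by
    have h1 : J (pp x l) - pp x l = -x (τ l) := hp x l
    rw [sub_eq_iff_eq_add.1 h1]
    abel
  have hK : ∀ x ∈ St J η n, ∃ K, ∀ l, pp x l ∈ Wn J (K + 1) := fun x hx => by
    obtain ⟨K, h1⟩ := hx.2.2.1
    exact ⟨K, fun l => (hom K _).1 (by rw [hp]; exact neg_mem (h1 _))⟩
  by_cases hall : ∀ x ∈ St J η n, ∀ l ∈ n.primeFactors, pp x l - pp x l0 ∈ Wn J (M + 1)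
  · exfalso
    have h1 : ∀ x ∈ St J η n, ∀ l ∈ n.primeFactors, x (τ l) ∈ Wn J (M + 2) := fun x hx l hl => by
      obtain ⟨K, h2⟩ := hK x hx
      have h3 := (hL x hx (K + 1) M (pp x) (pp x l0) hM (h2 l0)
        fun l hl => ⟨hfix x l, hall x hx l hl⟩).1
      have h5 := add_mem (mono _ _ (by omega : M + 1 ≤ M + 3) (hall x hx l hl)) h3
      rw [sub_add_cancel] at h5
      have h6 := (hom (M + 2) _).2 h5
      rw [hp] at h6
      exact neg_mem_iff.1 h6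
    have : Finite (Wn J (M + 2)) := Nat.finite_of_card_ne_zero (by
      rw [((hLevQ A J).2 hC).2.1]; positivity)
    refine hinf (Set.finite_coe_iff.1 ?_)
    exact Finite.of_injective
      (fun (x : St J η n) (l : n.primeFactors) => (⟨x.1 (τ l), h1 x x.2 l l.2⟩ : Wn J (M + 2)))
      fun x y hxy => Subtype.ext (hI x x.2 y y.2 fun l hl =>
        congrArg Subtype.val (congrFun hxy ⟨l, hl⟩))
  · push Not at hall
    obtain ⟨x, hx, l1, hl1, h1⟩ := hall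
    obtain ⟨K, h2⟩ := hK x hx
    have hex : ∃ m, ∀ l ∈ n.primeFactors, pp x l - pp x l0 ∈ Wn J (m + 1) :=
      ⟨K, fun l _ => sub_mem (h2 l) (h2 l0)⟩
    have h3 := Nat.find_spec hex
    have h5 : M + 1 ≤ Nat.find hex := by
      by_contra h6
      exact h1 (mono _ _ (by omega) (h3 l1 hl1))
    have h6 := Nat.find_min hex (m := Nat.find hex - 1) (by omega)
    push Not at h6
    obtain ⟨l2, hl2, h7⟩ := h6
    generalize Nat.find hex = m0 at h3 h5 h7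
    obtain ⟨k, m, hm, rfl⟩ : ∃ k m, (m = M ∨ m = M + 1) ∧ m0 = m + 2 * k :=
      ⟨(m0 - M) / 2, m0 - 2 * ((m0 - M) / 2), by omega, by omega⟩
    have h8 : ∀ l ∈ n.primeFactors, 2 ^ k • x (τ l) + J (2 ^ k • pp x l) = 2 ^ k • pp x l ∧
        2 ^ k • pp x l - 2 ^ k • pp x l0 ∈ Wn J (m + 1) := fun l hl => by
      refine ⟨by rw [map_nsmul, ← smul_add, hfix], ?_⟩
      rw [← smul_sub, pow_XDet htwo, show m + 1 + 2 * k = m + 2 * k + 1 by ring]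
      exact h3 l hl
    have h9 := hL _ (st_XDet hx (2 ^ k)) (K + 1) m (fun l => 2 ^ k • pp x l) (2 ^ k • pp x l0)
      (by omega) (nsmul_mem (h2 l0) _) h8
    refine ⟨m, hm, _, _, _, st_XDet hx (2 ^ k), h9.1, h9.2, h8, l2, hl2, l0, hl0, ?_⟩
    rw [← smul_sub, pow_XDet htwo]
    rwa [show m + 2 * k - 1 + 1 = m + 2 * k by omega] at h7

end Pool.Agent.MP_e23604_nt.Q

end

section

namespace Pool.Agent.MP_e23604_nt.Q

open Finset Filter NumberField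
open MP_f68ac8_nt
open MP_f68ac8_nt.Zq (Mx sg eps lk2)
open MP_f68ac8_nt.Zk (Cp Yw rr ch lk)
open MP_f68ac8_nt.Nd (Lr x2 chn Loc Op2 Fr vl Rcp GenQ GnQ WdQ exq Sp np Km)
open scoped BigOperators Topology

open scoped Classical in
theorem ellQ (hTauQ : TauQ) (hModQ : ModQ) (hEtaQ : EtaQ) (hGmA : GmA) (hGmU : GmU) (hGmB : GmB)
    (hGmC : GmC) (hTwoQ : TwoQ) : EllQ := by
  obtain ⟨i, hi⟩ := IsAlgClosed.exists_pow_nat_eq (-1 : Qb) (n := 2) (by norm_num)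
  obtain ⟨J, hJ⟩ := (hModQ i).1 hi
  obtain ⟨σ, τ, hT, hτ⟩ := hTauQ i hi
  have h0 : ∀ (u : ZMod 16) (β : ZMod 2), ∃ (δ : Qb) (η : GQ →* (A1 ≃ₗ[ℤ] A1)),
      δ ^ 4 = ((2 ^ β.val * ((u.val : ℤ) + 16) : ℤ) : Qb) ∧ Eta δ η := fun u β => by
    obtain ⟨δ, hδ⟩ := IsAlgClosed.exists_pow_nat_eq
      ((2 ^ β.val * ((u.val : ℤ) + 16) : ℤ) : Qb) (n := 4) (by norm_num)
    obtain ⟨η, hη⟩ := hEtaQ δ _ (by positivity) hδ
    exact ⟨δ, η, hδ, hη⟩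
  choose δ₀ η₀ hδ₀ hη₀ using h0
  refine ⟨i, J, σ, τ, ZMod 16 × ZMod 2 × ZMod 2, inferInstance, fun x => x.2.2, fun x => x.2.1,
    fun x g => η₀ x.1 x.2.1 g, ((hModQ i).2 J hJ).1, hT, fun D n β hn hsf hD => ?_⟩
  obtain ⟨t, ht, hDt⟩ : ∃ t : ℤ, Odd t ∧ D = 2 ^ β.val * t := by
    have h1 : Odd (n : ℤ) := by exact_mod_cast hn
    rcases Int.natAbs_eq D with h | h
    · exact ⟨n, h1, by rw [h, hD]; push_cast; ring⟩
    · exact ⟨-n, h1.neg, by rw [h, hD]; push_cast; ring⟩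
  have ht0 : t ≠ 0 := by
    rintro rfl
    exact absurd ht (by decide)
  have hD0 : D ≠ 0 := by
    rw [hDt]
    exact mul_ne_zero (by positivity) ht0
  obtain ⟨c, hc, hc'⟩ := hTwoQ t (((t : ZMod 16).val : ℤ) + 16) ht (by
    rw [Int.cast_add, Int.cast_natCast, ZMod.natCast_zmod_val,
      show ((16 : ℤ) : ZMod 16) = 0 from rfl, add_zero])
  have hc0 : c ≠ 0 := by
    rintro rfl
    rw [zero_pow (by norm_num), zero_mul] at hc
    exact ht0 (by exact_mod_cast hc.symm)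
  have hp : (c * δ₀ (t : ZMod 16) β) ^ 4 = D := by
    rw [mul_pow, hδ₀, mul_comm (2 ^ β.val : ℤ), Int.cast_mul, ← mul_assoc, hc, ← Int.cast_mul,
      mul_comm t, ← hDt]
  obtain ⟨η, hη⟩ := hEtaQ _ D hD0 hp
  have hE : Ell i (c * δ₀ (t : ZMod 16) β) J η D n β σ τ := ⟨hJ, hη, hp, hn, hsf, hD, hT, hτ⟩
  obtain ⟨α, hα⟩ := hGmB _ _ _ _ _ _ _ _ _ hE
  obtain ⟨a1, a2, -⟩ := hGmA _ _ _ _ _ _ _ _ _ hE
  obtain ⟨u1, u2⟩ := hGmU _ _ _ _ _ _ _ _ _ hE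
  refine ⟨((t : ZMod 16), β, α), _, η, hE, a1, a2, u1, u2, fun g hg => ?_, hα,
    hGmC _ _ _ _ _ _ _ _ _ hE⟩
  refine LinearEquiv.ext fun R => ?_
  rw [hη g R, map_mul, hc' g hg, mul_div_mul_left _ _ hc0]
  exact (hη₀ _ _ g R).symm

end Pool.Agent.MP_e23604_nt.Q

end

section

namespace Pool.Agent.MP_e23604_nt.Q

open Finset Filter NumberField
open MP_f68ac8_nt
open MP_f68ac8_nt.Zq (Mx sg eps lk2)
open MP_f68ac8_nt.Zk (Cp Yw rr ch lk)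
open MP_f68ac8_nt.Nd (Lr x2 chn Loc Op2 Fr vl Rcp GenQ GnQ WdQ exq Sp np Km)
open scoped BigOperators Topology

theorem g4S (hNdPtQ : Nd.PtQ) (hNdTupN : Nd.TupN) (hNdLocM : Nd.LocM) : G4S := by
  classical
  intro ε hε
  obtain ⟨Bd, b, hb, h⟩ := hNdPtQ ε hε
  refine h PUnit (fun _ => ⊤) 0 0 0 1 _ ⟨fun _ _ _ _ => le_rfl, fun _ _ _ _ _ _ _ _ => trivial⟩ rfl
    fun Λ hΛ => ?_
  choose σ τ hσ using fun l : Λ => ((hNdLocM 1 0).2.2.2 (Or.inl one_ne_zero)).2 l (hΛ l l.2).1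
  refine ⟨Empty, inferInstance, σ, fun _ => 1, ⊤, Empty.elim, Fin.elim0,
    ⟨⟨inferInstance, univ_mem, fun _ => ⟨0, trivial⟩⟩, fun l => ?_, fun _ => ⟨1, trivial⟩,
      fun M _ _ hM _ _ _ _ _ _ _ => hM trivial⟩, fun d Sm Lg _ => ?_⟩
  · obtain ⟨P, h1, h2, h3, -⟩ := (hσ l).ex
    exact ⟨P, h1, h2, h3⟩
  · refine ⟨Empty, inferInstance, Empty.elim, by simp, fun i => i.elim, fun y q =>
      ⟨by simpa using hb.le, fun hq _ hG hn => (hn fun γ hγ => ?_).elim⟩⟩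
    by_contra hc
    push Not at hc
    refine hγ (hG.g4 γ fun i => ?_)
    have h1 := hc (q i) (by
      rw [((hNdTupN Λ fun l hl => (hΛ l hl).1).1 d q hq).2]
      exact mem_image.2 ⟨i, mem_univ i, rfl⟩)
    simpa only [lk2, if_true, vl] using h1

end Pool.Agent.MP_e23604_nt.Q

end

section

namespace Pool.Agent.MP_e23604_nt.Q

open Finset Filter NumberField
open MP_f68ac8_nt
open MP_f68ac8_nt.Zq (Mx sg eps lk2)
open MP_f68ac8_nt.Zk (Cp Yw rr ch lk)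
open MP_f68ac8_nt.Nd (Lr x2 chn Loc Op2 Fr vl Rcp GenQ GnQ WdQ exq Sp np Km)
open scoped BigOperators Topology

theorem sign_XGmB {m s t : ℤ} {n : ℕ} (h : m = t * n ∨ m = -(t * n)) (hs : s = n ∨ s = -n) :
    ∃ α : ZMod 2, m = (-1) ^ α.val * t * s := by
  have h0 : (0 : ZMod 2).val = 0 := rfl
  have h1 : (1 : ZMod 2).val = 1 := rfl
  rcases h with rfl | rfl <;> rcases hs with rfl | rfl
  · exact ⟨0, by rw [h0]; ring⟩
  · exact ⟨1, by rw [h1]; ring⟩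
  · exact ⟨1, by rw [h1]; ring⟩
  · exact ⟨0, by rw [h0]; ring⟩

theorem one_XGmB {c : Cp 2} (h : c ≠ 1) : c.toAdd = 1 := by
  have key : ∀ a : ZMod 2, a ≠ 0 → a = 1 := by decide
  exact key _ fun h0 => h (toAdd_eq_zero.1 h0)

open P in
open scoped Classical in
theorem fix_XGmB (hScQ : ScQ) {δ : Qb} {D : ℤ} (hD : D ≠ 0) (hδ : δ ^ 4 = D)
    {η : GQ →* (A1 ≃ₗ[ℤ] A1)} (hη : Eta δ η) (g : GQ) {e : Qb} (he : e ^ 3 + e = 0) :
    η g (pt2 1 e 0) = pt2 1 e 0 ↔ g (δ ^ 2 * e) = δ ^ 2 * e := by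
  have hD' : (D : Qb) ≠ 0 := by exact_mod_cast hD
  have h0 : δ ≠ 0 := by
    rintro rfl
    exact hD' (by rw [← hδ]; norm_num)
  have h4 : (g δ / δ) ^ 4 * ((1 : ℚ) : Qb) = ((1 : ℚ) : Qb) := by
    rw [div_pow, ← map_pow, hδ, map_intCast, div_self hD', one_mul]
  have hon : (0 : Qb) ^ 2 = e ^ 3 + ((1 : ℚ) : Qb) * e := by
    rw [Rat.cast_one, one_mul, he]; norm_num
  have hne := pt2_ne_zero one_ne_zero hon
  have hxy := px_pt2 one_ne_zero hon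
  have hne' : galQ (EE 1) g (pt2 1 e 0) ≠ 0 := fun h =>
    hne ((map_eq_zero_iff _ (act_inj _ _)).1 h)
  obtain ⟨a1, a2, a3⟩ := (hScQ 1 1 Qb (g δ / δ) one_ne_zero one_ne_zero h4).2.1 _ hne'
  have b := px_act (D := 1) (g : Qb →+* Qb) (pt2 1 e 0)
  rw [← hη] at a1 a2 a3
  have a2' : px (η g (pt2 1 e 0)) = (g δ / δ) ^ 2 * g e := by
    rw [a2, galQ, b.1, hxy.1]; rfl
  have a3' : py (η g (pt2 1 e 0)) = 0 := by
    rw [a3, galQ, b.2, hxy.2, map_zero, mul_zero]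
  have key : (g δ / δ) ^ 2 * g e = e ↔ g (δ ^ 2 * e) = δ ^ 2 * e := by
    rw [map_mul, map_pow, div_pow, div_mul_eq_mul_div, div_eq_iff (pow_ne_zero 2 h0), mul_comm e]
  rw [← key, ← a2']
  refine ⟨fun h => by rw [h, hxy.1], fun h => xCCur_ext ?_ (h.trans hxy.1.symm)
    (a3'.trans hxy.2.symm)⟩
  exact ⟨fun h1 => absurd h1 a1, fun h1 => absurd h1 hne⟩

open P in
open scoped Classical in
theorem base_XGmB (hScQ : ScQ) (hModQ : ModQ) {i δ : Qb} {J : A1 ≃ₗ[ℤ] A1} (hJ : Jm i J) {D : ℤ}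
    (hD : D ≠ 0) (hδ : δ ^ 4 = D) {η : GQ →* (A1 ≃ₗ[ℤ] A1)} (hη : Eta δ η) (g : GQ) :
    (∀ u ∈ Wn J (1 + 1), η g u - u ∈ Wn J (1 - 1)) ↔ g (δ ^ 2 * i) = δ ^ 2 * i := by
  have h2 : ∀ u, u ∈ Wn J (1 + 1) ↔ (2 : ℕ) • u = 0 := fun u => by
    have := ((hModQ i).2 J hJ).2.1 1 u
    rwa [pow_one] at this
  have h0 : ∀ u, u ∈ Wn J (1 - 1) ↔ u = 0 := fun u => by
    have := ((hModQ i).2 J hJ).2.1 0 u
    rwa [pow_zero, one_smul] at this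
  have hi := hJ.1
  simp only [h2, h0, sub_eq_zero]
  constructor
  · intro h
    have he : i ^ 3 + i = 0 := by linear_combination i * hi
    refine (fix_XGmB hScQ hD hδ hη g he).1 (h _ ((two_eq_zero_iff one_ne_zero ?_).2 rfl))
    rw [Rat.cast_one, one_mul, he]; norm_num
  · intro h u hu
    by_cases hin : In2 u
    · rcases hin with rfl | rfl
      · exact map_zero _
      · exact (fix_XGmB hScQ hD hδ hη g (by norm_num)).2 (by simp)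
    · obtain ⟨e, -, he, rfl⟩ := xCCur_two one_ne_zero hu hin
      rw [Rat.cast_one] at he
      refine (fix_XGmB hScQ hD hδ hη g (by linear_combination e * he)).2 ?_
      rcases sq_eq_sq_iff_eq_or_eq_neg.1 (he.trans hi.symm) with rfl | rfl
      · exact h
      · rw [mul_neg, map_neg, h]

open scoped Classical in
theorem gmB (hNdKumM : Nd.KumM) (hSjQ : SjQ) (hSemQ : SemQ) (hScQ : ScQ) (hModQ : ModQ)
    (hGmA : GmA) : GmB := by
  intro i δ J η D n β σ τ hE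
  obtain ⟨s, hs, hK⟩ := hNdKumM.2.2 n hE.odd hE.sf
  have hD : D ≠ 0 := by
    intro h
    have h1 := hE.abs
    have h2 := hE.odd.pos
    rw [h, Int.natAbs_zero] at h1
    exact (by positivity : 0 < 2 ^ β.val * n).ne h1
  have e' : (((-D).natAbs : ℕ) : ℤ) = 2 ^ β.val * n := by
    rw [Int.natAbs_neg, hE.abs]; push_cast; rfl
  obtain ⟨a, ha⟩ := sign_XGmB (e' ▸ Int.natAbs_eq (-D)) hs
  have hsq : (δ ^ 2 * i) ^ 2 = (((-1) ^ a.val * 2 ^ β.val * s : ℤ) : Qb) := by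
    rw [← ha, Int.cast_neg, ← hE.pow, mul_pow, hE.jm.1]; ring
  have hcm := ((hModQ i).2 J hE.jm).1
  obtain ⟨-, -, hA⟩ := hGmA i δ J η D n β σ τ hE
  refine ⟨a + 1, fun k hk g => ?_⟩
  induction k, hk using Nat.le_induction with
  | base =>
    have e1 : a + 1 + ((1 : ℕ) : ZMod 2) = a := by
      have key : ∀ a : ZMod 2, a + 1 + ((1 : ℕ) : ZMod 2) = a := by decide
      exact key a
    have h1 := (base_XGmB hScQ hModQ hE.jm hD hE.pow hE.eta g).trans (hK a β _ hsq g).symm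
    rw [e1, del]
    split_ifs with h
    · rw [h1.1 h]; rfl
    · exact (one_XGmB fun h' => h (h1.2 h')).symm
  | succ k hk ih =>
    have e1 : x2 (a + 1 + ((k + 1 : ℕ) : ZMod 2)) β = x2 (a + 1 + k) β * x2 1 0 := by
      rw [← hSjQ.2.2, add_zero, Nat.cast_succ, add_assoc (a + 1)]
    have e2 : ((x2 (a + 1 + k) β * x2 1 0 * chn n) g).toAdd =
        ((x2 (a + 1 + k) β * chn n) g).toAdd + (x2 1 0 g).toAdd := by
      simp only [MonoidHom.mul_apply, toAdd_mul]; ring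
    rw [e1, e2, ← ih]
    by_cases h : x2 1 0 g = 1
    · rw [((hSemQ A1 J hcm (η g)).1 ((hA g).1 h)).2.1 k hk, h, toAdd_one, add_zero]
    · rw [((hSemQ A1 J hcm (η g)).2 ((hA g).2 h)).2 k hk, one_XGmB h]

end Pool.Agent.MP_e23604_nt.Q

end

section

namespace Pool.Agent.MP_e23604_nt.Q

open Finset Filter NumberField
open MP_f68ac8_nt
open MP_f68ac8_nt.Zq (Mx sg eps lk2)
open MP_f68ac8_nt.Zk (Cp Yw rr ch lk)
open MP_f68ac8_nt.Nd (Lr x2 chn Loc Op2 Fr vl Rcp GenQ GnQ WdQ exq Sp np Km)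
open scoped BigOperators Topology

theorem act_XGmC (g : GQ) (u : A1) (hu : u ≠ 0) :
    galQ (P.EE 1) g u ≠ 0 ∧ P.px (galQ (P.EE 1) g u) = g (P.px u) := by
  rcases u with _ | ⟨x, y, hxy⟩
  · exact absurd rfl hu
  · exact ⟨WeierstrassCurve.Affine.Point.some_ne_zero _, rfl⟩

open scoped Classical in
theorem gmC (hDecQ : DecQ) (hSjQ : SjQ) (hSemQ : SemQ) (hScQ : ScQ) (hModQ : ModQ)
    (hGmA : GmA) : GmC := by
  intro i δ J η D n β σ τ hE K k b hb h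
  obtain ⟨g, hg, hx⟩ := hSjQ.1 (0, 1)
  have hdc : Dc g := hDecQ.2.2.1 g hg
  obtain ⟨hC, -, hu⟩ := (hModQ i).2 J hE.jm
  have h10 : x2 1 0 g = 1 := by
    have := hx 1 0
    simp only [mul_zero, zero_mul, add_zero] at this
    exact Multiplicative.toAdd.injective this
  have h01 : x2 0 1 g ≠ 1 := by
    intro e
    have := hx 0 1
    rw [e] at this
    revert this
    decide
  have hi : g i = i := by
    refine (hSjQ.2.1 1 0 i ?_ g).1 h10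
    rw [hE.jm.1]
    have e1 : (1 : ZMod 2).val = 1 := rfl
    have e0 : (0 : ZMod 2).val = 0 := rfl
    rw [e1, e0]
    simp
  obtain ⟨r, hr⟩ : ∃ r : Qb, r ^ 2 = 2 := IsAlgClosed.exists_pow_nat_eq 2 (by norm_num)
  have hr0 : r ≠ 0 := by
    rintro rfl
    norm_num at hr
  have hgr : g r = -r := by
    have h1 : g r ≠ r := by
      intro e
      refine h01 ((hSjQ.2.1 0 1 r ?_ g).2 e)
      rw [hr]
      have e1 : (1 : ZMod 2).val = 1 := rfl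
      have e0 : (0 : ZMod 2).val = 0 := rfl
      rw [e1, e0]
      simp
    have h2 : g r ^ 2 = r ^ 2 := by
      rw [← map_pow, hr]
      exact map_ofNat g 2
    exact (sq_eq_sq_iff_eq_or_eq_neg.1 h2).resolve_left h1
  obtain ⟨u, hu4, hu0, hpx⟩ := hu r hr
  have hD : (D : Qb) ≠ 0 := by
    have h1 : D.natAbs ≠ 0 := by
      rw [hE.abs]
      exact mul_ne_zero (pow_ne_zero _ two_ne_zero) hE.odd.pos.ne'
    exact_mod_cast Int.natAbs_ne_zero.1 h1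
  have hδ : δ ≠ 0 := by
    rintro rfl
    apply hD
    rw [← hE.pow]
    norm_num
  have hc : (g δ / δ) ^ 4 = 1 := by
    rw [div_pow, ← map_pow, hE.pow, map_intCast, div_self hD]
  have hne : η g u ≠ u := by
    intro e
    obtain ⟨a1, a2⟩ := act_XGmC g u hu0
    have hs := (hScQ 1 1 Qb (g δ / δ) one_ne_zero one_ne_zero (by rw [hc]; simp)).2.1 _ a1
    have := hs.2.1
    rw [← hE.eta g u, e, a2, hpx, map_mul, map_add, map_one, hi, hgr] at this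
    have hi2 := hE.jm.1
    generalize g δ / δ = c at this hc
    have h4 : (i * (1 + r)) ^ 2 = (c ^ 2 * (i * (1 + -r))) ^ 2 := by rw [← this]
    have h5 : (4 : Qb) * r = 0 := by
      linear_combination -h4 - (i * (1 - r)) ^ 2 * hc + (4 * r) * hi2
    exact hr0 (by simpa using h5)
  exact ((hSemQ A1 J hC (η g)).1 (((hGmA i δ J η D n β σ τ hE).2.2 g).1 h10)).2.2
    ⟨u, hu4, hne⟩ K k b hb (h g hdc)

end Pool.Agent.MP_e23604_nt.Q

end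

section

namespace Pool.Agent.MP_e23604_nt.Q

open Finset Filter NumberField
open MP_f68ac8_nt
open MP_f68ac8_nt.Zq (Mx sg eps lk2)
open MP_f68ac8_nt.Zk (Cp Yw rr ch lk)
open MP_f68ac8_nt.Nd (Lr x2 chn Loc Op2 Fr vl Rcp GenQ GnQ WdQ exq Sp np Km)
open scoped BigOperators Topology

theorem sub_XInj {A : Type} [AddCommGroup A] {J : A ≃ₗ[ℤ] A} {η : GQ →* (A ≃ₗ[ℤ] A)} {n : ℕ}
    (hm : ∀ a b, a ≤ b → Wn J a ≤ Wn J b) {x x' : GQ → A} (hx : x ∈ St J η n)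
    (hx' : x' ∈ St J η n) : (fun g => x g - x' g) ∈ St J η n := by
  obtain ⟨a1, a2, ⟨K, a3⟩, a4, a5⟩ := hx
  obtain ⟨b1, b2, ⟨K', b3⟩, b4, b5⟩ := hx'
  refine ⟨a1.comp₂ b1 fun u v => u - v, fun g h => ?_, ⟨max K K', fun g => ?_⟩,
    fun P hP g hg => ?_, fun g hg => ?_⟩
  · simp only [a2, b2, map_sub]
    abel
  · exact sub_mem (hm _ _ (le_max_left _ _) (a3 g)) (hm _ _ (le_max_right _ _) (b3 g))
  · simp only [a4 P hP g hg, b4 P hP g hg, sub_self]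
  · simp only [a5 g hg, b5 g hg, sub_self]

theorem zero_XInj (hSjQ : SjQ) (g : GQ) : (x2 0 0 g).toAdd = 0 := by
  have h := DFunLike.congr_fun (hSjQ.2.2 0 0 0 0) g
  rw [add_zero, MonoidHom.mul_apply, left_eq_mul] at h
  rw [h]
  rfl

theorem injI (hBasQ : BasQ) (hDecQ : DecQ) (hSjQ : SjQ) (hLeadI : LeadI) : InjI := by
  intro A _ J η n α a σ τ η₀ hJ hG hT hn x hx x' hx' hτ
  obtain ⟨hm, h0, -⟩ := hBasQ A J hJ.toCm0
  have hz := sub_XInj hm hx hx'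
  have step : ∀ j, (∀ g, x g - x' g ∈ Wn J (j + 1)) → ∀ g, x g - x' g ∈ Wn J j := by
    intro j hj
    obtain ⟨γ, hγ⟩ := hLeadI A J η n α a σ τ η₀ hJ hG hT hn _ hz 0 0 (zero_mem _) j
      (fun g => by simpa using hj g) fun l hl => by simp [hτ l hl]
    simp only [map_zero, add_zero, sub_zero] at hγ
    have key : ∀ γ' : ZMod 2 × ZMod 2, γ.1 * γ'.1 + γ.2 * γ'.2 = 0 := fun γ' => by
      obtain ⟨g, hg, e⟩ := hSjQ.1 γ'
      have e0 : x g - x' g = 0 := hz.2.2.2.2 g (hDecQ.2.2.1 g hg)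
      rw [← e, ← hγ, e0, dig, if_pos (zero_mem _)]
    have e1 : γ.1 = 0 := by simpa using key (1, 0)
    have e2 : γ.2 = 0 := by simpa using key (0, 1)
    intro g
    have e := hγ g
    rw [e1, e2, zero_XInj hSjQ, dig] at e
    by_contra hc
    rw [if_neg hc] at e
    exact one_ne_zero e
  obtain ⟨K, hK⟩ := hz.2.2.1
  have all : ∀ k, (∀ g, x g - x' g ∈ Wn J k) → ∀ g, x g - x' g ∈ Wn J 0 := by
    intro k
    induction k with
    | zero => exact id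
    | succ k ih => exact fun h => ih (step k h)
  funext g
  have e := all K hK g
  rw [h0, Submodule.mem_bot] at e
  exact sub_eq_zero.1 e

end Pool.Agent.MP_e23604_nt.Q

end

section

namespace Pool.Agent.MP_e23604_nt.Q

open Finset Filter NumberField
open MP_f68ac8_nt
open MP_f68ac8_nt.Zq (Mx sg eps lk2)
open MP_f68ac8_nt.Zk (Cp Yw rr ch lk)
open MP_f68ac8_nt.Nd (Lr x2 chn Loc Op2 Fr vl Rcp GenQ GnQ WdQ exq Sp np Km)
open scoped BigOperators Topology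

theorem dig_zero_XLead {A : Type} [AddCommGroup A] (J : A ≃ₗ[ℤ] A) (j : ℕ) {u : A}
    (h : u ∈ Wn J j) : dig J j u = 0 := if_pos h

theorem dig_pre_XLead {A : Type} [AddCommGroup A] (J : A ≃ₗ[ℤ] A) (j : ℕ) {a : A ≃ₗ[ℤ] A}
    (h : Pre J a) (u : A) : dig J j (a u) = dig J j u := by
  unfold dig
  rw [h j u]

theorem leadI (hBasQ : BasQ) (hChrQ : ChrQ) : LeadI := by
  intro A _ J η n α a σ τ η₀ hJ hG hT hn x hx K b hb j h1 h2
  obtain ⟨x1, x2', -, x4, -⟩ := hx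
  obtain ⟨-, -, -, -, -, hadd, -⟩ := hBasQ A J hJ.toCm0
  have hz : ∀ g h : GQ, x (g * h) + η (g * h) b - b =
      (x g + η g b - b) + η g (x h + η h b - b) := fun g h => by
    rw [x2', map_mul, LinearEquiv.mul_apply, map_sub, map_add]
    abel
  let e : GQ →* Cp 2 := MonoidHom.mk' (fun g => Multiplicative.ofAdd (dig J j (x g + η g b - b)))
    fun g h => by
      rw [← ofAdd_add, hz, hadd j _ (h1 g) _ ((hG.pre g _ _).2 (h1 h)), dig_pre_XLead J j (hG.pre g)]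
  have he : ∀ g, (e g).toAdd = dig J j (x g + η g b - b) := fun _ => rfl
  have hk : ∀ g, x g = 0 → η g b = b → g ∈ e.ker := fun g a1 a2 => by
    rw [MonoidHom.mem_ker]
    refine Multiplicative.toAdd.injective ?_
    rw [he, a1, a2, zero_add, sub_self]
    exact dig_zero_XLead J j (zero_mem _)
  have hx1 : x 1 = 0 := by
    have := x2' 1 1
    rw [mul_one, map_one, LinearEquiv.coe_one, id] at this
    exact left_eq_add.1 this
  have hA : Adm n.primeFactors e.ker := by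
    refine ⟨⟨inferInstance, ?_, fun g => ⟨1, ?_⟩⟩, fun P hP g hg => ?_⟩
    · have a1 : {g | x g = 0} ∈ 𝓝 (1 : GQ) := (x1.isOpen_fiber 0).mem_nhds hx1
      exact mem_of_superset (inter_mem a1 (hG.opn b)) fun g hg => hk g hg.1 hg.2
    · rw [MonoidHom.mem_ker, map_pow]
      generalize e g = c
      revert c
      decide
    · exact hk g (x4 P hP g hg) (hG.unr P hP g hg K b hb)
  obtain ⟨γ, hγ⟩ := hChrQ σ τ hT n.primeFactors
    (fun l hl => ⟨Nat.prime_of_mem_primeFactors hl,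
      hn.of_dvd_nat (Nat.dvd_of_mem_primeFactors hl)⟩) e hA
  refine ⟨γ, fun g => ?_⟩
  rw [← he, hγ g, sum_eq_zero, add_zero]
  intro l hl
  rw [he, dig_zero_XLead J j (h2 l hl), zero_mul]

end Pool.Agent.MP_e23604_nt.Q

end

section

namespace Pool.Agent.MP_e23604_nt.Q

open Finset Filter NumberField
open MP_f68ac8_nt
open MP_f68ac8_nt.Zq (Mx sg eps lk2)
open MP_f68ac8_nt.Zk (Cp Yw rr ch lk)
open MP_f68ac8_nt.Nd (Lr x2 chn Loc Op2 Fr vl Rcp GenQ GnQ WdQ exq Sp np Km)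
open scoped BigOperators Topology

theorem dig_XLevI {V : Type} [AddCommGroup V] (J : V ≃ₗ[ℤ] V) (j : ℕ) (u : V) :
    dig J j u = 0 ↔ u ∈ Wn J j := by
  unfold dig
  split_ifs with h
  · simp [h]
  · simp [h]

theorem levI (hBasQ : BasQ) (hSjQ : SjQ) (hValQ : ValQ) (hTamI : TamI) (hLeadI : LeadI) :
    LevI := by
  intro A _ J η n α a σ τ η₀ hJ hG hT hn h4 x hx K m p b hm hb hp
  obtain ⟨mono, -, hom, -, -, -, hpre, -⟩ := hBasQ A J hJ.toCm0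
  have hz : ∀ g, (x2 0 0 g).toAdd = 0 := by
    intro g
    have h := hSjQ.2.2 0 0 0 0
    rw [add_zero] at h
    have h2 : x2 0 0 g = x2 0 0 g * x2 0 0 g := DFunLike.congr_fun h g
    rw [left_eq_mul.1 h2, toAdd_one]
  have step : ∀ j, m ≤ j → (∀ g, x g + η g b - b ∈ Wn J (j + 1)) →
      ∀ g, x g + η g b - b ∈ Wn J j := by
    intro j hj hz1
    obtain ⟨γ, hγ⟩ := hLeadI A J η n α a σ τ η₀ hJ hG hT hn x hx K b hb j hz1 (by
      intro l hl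
      have e : x (τ l) + η (τ l) b - b = -om J (p l - b) := by
        rw [hG.tam l hl K b hb, eq_sub_of_add_eq (hp l hl).1]
        simp only [om, LinearMap.sub_apply, LinearEquiv.coe_coe, Module.End.one_apply, map_sub]
        abel
      rw [e]
      exact neg_mem (mono _ _ hj ((hom _ _).2 (hp l hl).2)))
    have h0 : γ = 0 := by
      by_contra hne
      obtain ⟨l, hl, hl2⟩ := h4 γ hne
      have l1 := Nat.prime_of_mem_primeFactors hl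
      have l2 : Odd l := hn.of_dvd_nat (Nat.dvd_of_mem_primeFactors hl)
      refine hl2 ?_
      rw [← ((hValQ.1 σ τ hT l l1 l2).2.2.1 γ.1 γ.2).2, ← hγ, dig_XLevI]
      have e1 : p l ∈ Wn J (max K (m + 1)) := by
        rw [← sub_add_cancel (p l) b]
        exact add_mem (mono _ _ (le_max_right _ _) (hp l hl).2) (mono _ _ (le_max_left _ _) hb)
      have e2 := hTamI A J η n α a σ τ η₀ hJ hG hT hn x hx l hl _ _ e1 (hp l hl).1
      have e3 := (hpre _ (hG.pre (σ l))).1 m _ (hp l hl).2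
      have e : x (σ l) + η (σ l) b - b =
          (x (σ l) + η (σ l) (p l) - p l) - (η (σ l) (p l - b) - (p l - b)) := by
        rw [map_sub]
        abel
      rw [e]
      exact sub_mem (mono _ _ (hm.trans hj) e2) (mono _ _ hj e3)
    intro g
    rw [← dig_XLevI, hγ, h0]
    exact hz g
  have desc : ∀ t, (∀ g, x g + η g b - b ∈ Wn J (m + t)) → ∀ g, x g + η g b - b ∈ Wn J m := by
    intro t
    induction t with
    | zero => exact id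
    | succ t ih => exact fun h => ih (step _ (Nat.le_add_right _ _) h)
  obtain ⟨K0, hK0⟩ := hx.2.2.1
  have fin := desc (K0 + K) fun g =>
    sub_mem (add_mem (mono _ _ (by omega) (hK0 g)) (mono _ _ (by omega) ((hG.pre g K b).2 hb)))
      (mono _ _ (by omega) hb)
  refine ⟨hG.big K m b hb fun g hg => ?_, fin⟩
  have := fin g
  rwa [hx.2.2.2.2 g hg, zero_add] at this

end Pool.Agent.MP_e23604_nt.Q

end

section

namespace Pool.Agent.MP_e23604_nt.Q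

open Finset Filter NumberField
open MP_f68ac8_nt
open MP_f68ac8_nt.Zq (Mx sg eps lk2)
open MP_f68ac8_nt.Zk (Cp Yw rr ch lk)
open MP_f68ac8_nt.Nd (Lr x2 chn Loc Op2 Fr vl Rcp GenQ GnQ WdQ exq Sp np Km)
open scoped BigOperators Topology

theorem compl_XLnk {n : ℕ} (T : Finset (Fin n)) (r f : Fin n → ZMod 2) :
    ∑ k ∈ Tᶜ, r k * f k = ∑ k, r k * if k ∈ T then 0 else f k := by
  rw [← sum_add_sum_compl T, sum_eq_zero (s := T) fun k hk => by rw [if_pos hk, mul_zero],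
    zero_add]
  exact sum_congr rfl fun k hk => by rw [if_neg (mem_compl.1 hk)]

theorem chn_XLnk (n : ℕ) (g : GQ) : (chn n g).toAdd = ∑ l ∈ n.primeFactors, (ch 2 l g).toAdd := by
  rw [chn, MonoidHom.finsetProd_apply, toAdd_prod]

theorem adm_XLnk {R : Finset ℕ} {N N' : Subgroup GQ} [h' : N'.Normal] (h : Adm R N) (hN : N ≤ N') :
    Adm R N' :=
  ⟨⟨h', mem_of_superset h.nhds hN, fun g => (h.pg g).imp fun _ hk => hN hk⟩,
    fun P hP g hg => hN (h.unr P hP g hg)⟩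

section
variable {V : Type} [AddCommGroup V] {J : V ≃ₗ[ℤ] V} {m : ℕ}

theorem dig_XLnk (hB : BasQ) (hJ : Cm0 J) (hm : 1 ≤ m) :
    ∃ E : Pm J m →* Cp 2, ∀ t, (E t).toAdd = dig J (m - 1) (t.1 0) := by
  have e : m - 1 + 1 = m := by omega
  refine ⟨MonoidHom.mk' (fun t => Multiplicative.ofAdd (dig J (m - 1) (t.1 0))) fun s t => ?_,
    fun _ => rfl⟩
  rw [← ofAdd_add]
  congr 1
  change dig J (m - 1) (s.1 (t.1 0)) = _
  rw [aff_apply, (hB V J hJ).2.2.2.2.2.1 (m - 1) _ (e.symm ▸ (s.2.1 _ _).2 t.2.2) _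
    (e.symm ▸ s.2.2), add_comm]
  congr 1
  unfold dig
  rw [s.2.1 (m - 1) (t.1 0)]

variable {p : Pa J m} {Λ : Finset ℕ} {nb d o : ℕ} {σ τ : ℕ → GQ} {N : Subgroup GQ}
  {bb : Fin nb → GQ} {S : Sy J m (d + o)} {lab : Fin nb → Fin o} {g : Fin o → GQ} {q : Fin d → Λ}
  {y : Lr (d + o) (Option Λ) → FreeGroup (Lr (d + o) (Option Λ))}

theorem key_XLnk (hR : RrQ) (h : Set1 p σ τ N bb S lab g q y) (χ : GQ →* Cp 2)
    (c : Fin (d + o) → ZMod 2) (h1 : Adm Λ χ.ker)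
    (h2 : ∀ j, (χ (τ (q j))).toAdd = c (Fin.castAdd o j))
    (h3 : ∀ l : Λ, (∀ j, q j ≠ l) → χ (τ l) = 1)
    (h4 : ∀ b, (χ (bb b)).toAdd = c (Fin.natAdd d (lab b))) :
    (∀ i, c (Fin.castAdd o i) = 0 →
      ∑ k, rr (U := fun _ => Option Λ) y (exq o q) 2 (Fin.castAdd o i) k * c k =
        (χ (σ (q i))).toAdd) ∧
    ∀ j, ∑ k, rr (U := fun _ => Option Λ) y (exq o q) 2 (Fin.natAdd d j) k * c k =
      (χ (g j)).toAdd := by
  have hM : Nd.Mt (ltr Λ τ bb) N lab q χ fun k => Multiplicative.ofAdd (c k) :=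
    ⟨h.n2 χ h1, h3, fun j => congrArg Multiplicative.ofAdd (h2 j),
      fun b => congrArg Multiplicative.ofAdd (h4 b)⟩
  refine ⟨fun i hi => ?_, fun j => ?_⟩
  · obtain ⟨b, k, hb, e⟩ := h.wd.tame i
    rw [← (hR _ _ y (exq o q)).1 c, e _ χ _ hM, hi, ofAdd_zero, one_pow, mul_one, toAdd_pow,
      nsmul_eq_mul, (ZMod.natCast_eq_one_iff_odd).2 hb, one_mul]
  · rw [← (hR _ _ y (exq o q)).1 c, h.wd.two j _ χ _ hM]

end

theorem lnkQ (hNdTupN : Nd.TupN) (hBasQ : BasQ) (hDecQ : DecQ) (hValQ : ValQ) (hChrQ : ChrQ)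
    (hRrQ : RrQ) : LnkQ := by
  intro V _ _ J N m hJ hm _ p _ Λ nb d o σ τ N' bb S lab g q y h θ v hA
  obtain ⟨v1, v2, v3, v4, v5⟩ := hValQ
  have hp := h.gq.pri
  have v0 := fun l : Λ => v1 σ τ h.tl l (hp l l.2).1 (hp l l.2).2
  have hf := ((hNdTupN Λ fun l hl => (hp l hl).1).1 d q h.inj).2
  have hs : (np q).primeFactors ⊆ Λ := fun l hl => by
    rw [hf] at hl
    obtain ⟨j, -, rfl⟩ := mem_image.1 hl
    exact (q j).2
  have ho : Odd (np q) :=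
    prod_induction _ Odd (fun _ _ => Odd.mul) odd_one fun j _ => (hp _ (q j).2).2
  have t1 : ∀ j, Fin.castAdd o j ∈ S.Tm := fun j => h.tm ▸ mem_map_of_mem _ (mem_univ j)
  have t0 : ∀ i j, Fin.natAdd d j ≠ Fin.castAdd o i := fun i j e => by
    have := congrArg Fin.val e
    simp only [Fin.val_natAdd, Fin.val_castAdd] at this
    omega
  have t2 : ∀ j, Fin.natAdd d j ∉ S.Tm := fun j e => by
    rw [h.tm] at e
    obtain ⟨i, -, e⟩ := mem_map.1 e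
    exact t0 i j e.symm
  have hb : ∀ b, S.x0 (Fin.natAdd d (lab b)) = θ (bb b) := fun b =>
    (h.io b).trans (hA.two _ (hDecQ.2.2.1 _ (h.gq.mem b))).symm
  have hc : ∀ b, ∀ l ∈ Λ, ch 2 l (bb b) = 1 := fun b l hl =>
    (v2 l (hp l hl).1 (hp l hl).2).1 _ (h.gq.mem b)
  have k1 := fun j => key_XLnk hRrQ h (ch 2 (q j)) (Pi.single (Fin.castAdd o j) 1)
    ((v2 _ (hp _ (q j).2).1 (hp _ (q j).2).2).2.2 Λ (q j).2) (fun i => by
      by_cases e : i = j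
      · rw [e, (v0 _).1, Pi.single_eq_same]
      · rw [((v0 _).2.1 _ (hp _ (q j).2).1 (hp _ (q j).2).2
          fun e' => e (h.inj (Subtype.ext e'))).1,
          Pi.single_eq_of_ne fun e' => e (Fin.castAdd_injective _ _ e'), toAdd_one])
    (fun l hl => ((v0 l).2.1 _ (hp _ (q j).2).1 (hp _ (q j).2).2
      fun e => hl j (Subtype.ext e).symm).1)
    fun b => by rw [hc b _ (q j).2, Pi.single_eq_of_ne (t0 _ _), toAdd_one]
  simp only [Pi.single_apply, mul_ite, mul_one, mul_zero, sum_ite_eq', mem_univ, if_true] at k1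
  have k2 : ∀ (α β : ZMod 2) (f : Fin (d + o) → ZMod 2),
      (∀ b, (x2 α β (bb b)).toAdd = f (Fin.natAdd d (lab b))) → ∀ i,
      ∑ k ∈ S.Tmᶜ, rr (U := fun _ => Option Λ) y (exq o q) 2 (Fin.castAdd o i) k * f k =
        α * lk2 (vl q) i i + β * kq q i := fun α β f hf i => by
    rw [compl_XLnk, (key_XLnk hRrQ h (x2 α β) (fun k => if k ∈ S.Tm then 0 else f k) (v3 Λ α β)
      (fun j => by rw [if_pos (t1 j), ((v0 _).2.2.1 α β).1, toAdd_one])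
      (fun l _ => ((v0 l).2.2.1 α β).1) fun b => by rw [if_neg (t2 _), hf]).1 i (if_pos (t1 i)),
      ((v0 _).2.2.1 α β).2, lk2, if_pos rfl]
    rfl
  have hd : ∀ n : ℕ, 1 ≤ n → n ≤ m → ∀ b, ((x2 (p.al + n) p.a * chn (np q)) (bb b)).toAdd =
      S.sh.be n (Fin.natAdd d (lab b)) := fun n h1 h2 b => by
    rw [← hA.del n h1 h2, ← hb]
    exact (if_neg (t2 _)).symm
  obtain ⟨E, hE⟩ := dig_XLnk hBasQ hJ.toCm0 hm
  obtain ⟨γ, hγ⟩ := hChrQ σ τ h.tl Λ hp (E.comp θ) (adm_XLnk (v5 _ _ _ hs hA.adm) fun s hs => by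
    rw [MonoidHom.mem_ker] at hs ⊢
    rw [MonoidHom.comp_apply, hs, map_one])
  obtain ⟨jf, f1, f2, -⟩ := h.kf
  obtain ⟨jc, c1, c2⟩ := h.kc
  refine ⟨γ, h.tm, fun i j e => ?_, fun n h1 h2 => k2 _ _ _ fun b => ?_, k2 _ _ _ fun b => ?_,
    fun j => ?_, fun j => ?_, fun n h1 h2 => ?_, fun n j => if_pos (t1 j)⟩
  · refine ((k1 j).1 i (if_neg fun e' => e (Fin.castAdd_injective _ _ e'))).trans ?_
    rw [((v0 _).2.1 _ (hp _ (q j).2).1 (hp _ (q j).2).2 fun e' => e (h.inj (Subtype.ext e'))).2,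
      lk2, if_neg e]
    rfl
  · rw [← hd n h1 h2, MonoidHom.mul_apply, toAdd_mul, chn_XLnk,
      sum_eq_zero fun l hl => by rw [hc b l (hs hl), toAdd_one], add_zero]
  · have := hγ (bb b)
    rw [sum_eq_zero fun l hl => by rw [hc b l hl, toAdd_one, mul_zero], add_zero,
      MonoidHom.comp_apply, hE, ← hb] at this
    exact this.symm
  · change rr (U := fun _ => Option Λ) y (exq o q) 2 S.kf (Fin.castAdd o j) = _
    rw [f1, (k1 j).2, (v2 _ (hp _ (q j).2).1 (hp _ (q j).2).2).2.1 _ f2]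
    rfl
  · change rr (U := fun _ => Option Λ) y (exq o q) 2 S.kc (Fin.castAdd o j) = _
    rw [c1, (k1 j).2, c2.odd _ (hp _ (q j).2).1 (hp _ (q j).2).2, lk2, if_pos rfl]
    rfl
  · change ∑ k, rr (U := fun _ => Option Λ) y (exq o q) 2 S.kc k * _ = S.pi + n + 1
    have z : ∀ l : Λ, ∀ l' ∈ (np q).primeFactors, l' ≠ l → (ch 2 l' (τ l)).toAdd = 0 :=
      fun l l' hl e => by
        rw [((v0 l).2.1 _ (hp _ (hs hl)).1 (hp _ (hs hl)).2 e.symm).1, toAdd_one]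
    rw [c1, (key_XLnk hRrQ h (x2 (p.al + n) p.a * chn (np q)) (S.sh.be n) (v4 Λ _ _ _ ho hs)
      (fun j => ?_) (fun l hl => ?_) (hd n h1 h2)).2, MonoidHom.mul_apply, toAdd_mul, chn_XLnk,
      c2.two, sum_congr rfl fun l hl => c2.odd l (hp _ (hs hl)).1 (hp _ (hs hl)).2, hA.cj, h.pi]
    · have : (2 : ZMod 2) = 0 := rfl
      linear_combination p.al * this
    · rw [MonoidHom.mul_apply, ((v0 _).2.2.1 _ _).1, one_mul, chn_XLnk,
        sum_eq_single_of_mem (q j : ℕ) (hf ▸ mem_image_of_mem _ (mem_univ j)) (z _), (v0 _).1]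
      exact (if_pos (t1 j)).symm
    · rw [MonoidHom.mul_apply, ((v0 _).2.2.1 _ _).1, one_mul, ← toAdd_eq_zero, chn_XLnk]
      refine sum_eq_zero fun l' hl' => z l l' hl' fun e => ?_
      rw [hf] at hl'
      obtain ⟨j, -, rfl⟩ := mem_image.1 hl'
      exact hl j (Subtype.ext e)

end Pool.Agent.MP_e23604_nt.Q

end

section

namespace Pool.Agent.MP_e23604_nt.Q

open Finset Filter NumberField
open MP_f68ac8_nt
open MP_f68ac8_nt.Zq (Mx sg eps lk2)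
open MP_f68ac8_nt.Zk (Cp Yw rr ch lk)
open MP_f68ac8_nt.Nd (Lr x2 chn Loc Op2 Fr vl Rcp GenQ GnQ WdQ exq Sp np Km)
open scoped BigOperators Topology

theorem mainQ (hNdSpN : Nd.SpN) (hRedQ : RedQ) (hEllQ : EllQ) : MainQ := by
  classical
  intro ε hε
  obtain ⟨i₀, J, σ, τ, I, _, α, a, η₀, hJ, hT, h⟩ := hEllQ
  refine hNdSpN.1 _ _ (ε / 2) ε (half_lt_self hε) ?_
    (hRedQ _ J hJ σ τ hT I α a η₀ (ε / 2) (half_pos hε))
  rintro n ho hs - ⟨D, β, hD, hn⟩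
  obtain ⟨i, δ, η, h1, h2⟩ := h D n β ho hs hD
  exact ⟨i, η, h2, fun hf => hn ⟨i₀, δ, J, η, σ, τ, h1, hf⟩⟩

end Pool.Agent.MP_e23604_nt.Q

end

section

namespace Pool.Agent.MP_e23604_nt.Q

open Finset Filter NumberField
open MP_f68ac8_nt
open MP_f68ac8_nt.Zq (Mx sg eps lk2)
open MP_f68ac8_nt.Zk (Cp Yw rr ch lk)
open MP_f68ac8_nt.Nd (Lr x2 chn Loc Op2 Fr vl Rcp GenQ GnQ WdQ exq Sp np Km)
open scoped BigOperators Topology

lemma cnt_XPt (m K d o : ℕ) (hK : 1 ≤ K) :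
    m * K ^ (d + o) ≤ (m * K ^ (o + 1)) ^ (d + 1) := by
  rw [mul_pow, ← pow_mul]
  refine Nat.mul_le_mul ?_ (Nat.pow_le_pow_right hK (by nlinarith))
  exact Nat.le_self_pow (by omega) m

lemma ex_XPt (B : ℕ) {b : ℝ} (hb : 0 < b) : ∃ h : ℕ, 1 ≤ h ∧ (B : ℝ) / 2 ^ h ≤ b := by
  obtain ⟨n, hn⟩ := pow_unbounded_of_one_lt ((B : ℝ) / b) (one_lt_two (α := ℝ))
  refine ⟨n + 1, by omega, ?_⟩
  rw [div_lt_iff₀ hb] at hn
  rw [div_le_iff₀ (by positivity), pow_succ]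
  have : 0 < 2 ^ n * b := by positivity
  nlinarith

theorem ptA (hNdPtQ : Nd.PtQ) (hFilQ : FilQ) (hDecQ : DecQ) (hGqQ : GqQ) (hSysQ : SysQ)
    (hSumQ : SumQ) (hLnkQ : LnkQ) (hTruQ : TruQ) (hGoodQ : GoodQ) (hRcpQ : RcpQ) : PtA := by
  intro ε hε
  obtain ⟨Bd, b, hb, hP⟩ := hNdPtQ ε hε
  obtain ⟨h, h1, hh⟩ := ex_XPt Bd hb
  refine ⟨2 * h + 6, fun V _ _ J N0 m hCm hm1 hmN hM σ τ hTl p hp => ?_⟩
  obtain ⟨o, hSys⟩ := hSysQ V J N0 m hCm hm1 hmN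
  have hF := hFilQ V J hCm.toCm0 m
  obtain ⟨-, -, hD3, ⟨φ, hφ1, hφ2⟩, ⟨c, hc⟩, -⟩ := hDecQ
  refine hP (Pm J m) (Fk J m) m m o ((m * (2 * Fintype.card V) ^ (o + 1) : ℕ) : ℝ) _ hF.1 hF.2.1
    fun Λ hΛ => ?_
  obtain ⟨N, nb, bb, hGq, hn1, hn2, hGn⟩ := hGqQ σ τ hTl Λ hΛ (Pm J m)
  obtain ⟨lab, g, jf, jc, hjf, hjc, hS⟩ := hSys p hp nb bb φ c fun b => hD3 _ (hGq.mem b)
  refine ⟨Fin nb, inferInstance, fun l => σ l, ltr Λ τ bb, N, lab, g, hGn, fun d Sm Lg hdis => ?_⟩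
  rcases Nat.eq_zero_or_pos d with rfl | hd
  · refine ⟨Empty, inferInstance, fun i => i.elim, by simp; positivity, fun i => i.elim,
      fun y q => ⟨by simpa using hb.le, fun _ _ _ hB => ?_⟩⟩
    obtain ⟨θ, v, hA⟩ := hB
    obtain ⟨l, hl, -⟩ := hA.nc
    simp [np] at hl
  · obtain ⟨S, hOk, hTm, hio, hkf, hkc, hf0, ho, hpi⟩ := hS d hd
    have hsub : ∀ T : Finset (Fin d), Nd.upq o T ⊆ S.Tm := fun T => by
      rw [hTm]; exact map_subset_map.2 (subset_univ _)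
    obtain ⟨I, _, T, hI, hT, hval⟩ := hSumQ V J N0 m hCm hm1 hmN (d + o) S hOk h Bd
      (Nd.upq o Sm) (Nd.upq o Lg) h1 hM (hsub _) (hsub _) ((Finset.disjoint_map _).2 hdis)
    refine ⟨I, inferInstance, T, ?_, hT, fun y q => ⟨?_, fun hq hW hG hB => ?_⟩⟩
    · have hV : 1 ≤ 2 * Fintype.card V := by
        have : 0 < Fintype.card V := Fintype.card_pos
        omega
      exact_mod_cast hI.trans (cnt_XPt m _ d o hV)
    · linarith [(hval (Option Λ) y (exq o q)).1]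
    · obtain ⟨θ, v, hA⟩ := hB
      have hSet : Set1 p σ τ N bb S lab g q y :=
        { tl := hTl, gq := hGq, n1 := hn1, n2 := hn2, ok := hOk, tm := hTm, inj := hq, io := hio
          kf := ⟨jf, hkf, hjf ▸ hφ1, hjf ▸ hφ2, hjf ▸ hf0⟩
          kc := ⟨jc, hkc, hjc ▸ hc⟩
          o := ho, pi := hpi, wd := hW }
      obtain ⟨γ, hL⟩ := hLnkQ V J N0 m hCm hm1 hmN p hp Λ nb d o σ τ N bb S lab g q y hSet θ v hA
      have hTr := hTruQ V J N0 m hCm hm1 hmN p hp Λ nb d o σ τ N bb S lab g q y hSet θ v hA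
      have hGood := hGoodQ d (d + o) _ _ S.sh _ _ _ _ γ Sm Lg m Bd hOk.sh hm1 hL
        (hRcpQ Λ d q hΛ hq) hG
      linarith [(hval (Option Λ) y (exq o q)).2 hGood hTr]

end Pool.Agent.MP_e23604_nt.Q

end

section

namespace Pool.Agent.MP_e23604_nt.Q

open Finset Filter NumberField
open MP_f68ac8_nt
open MP_f68ac8_nt.Zq (Mx sg eps lk2)
open MP_f68ac8_nt.Zk (Cp Yw rr ch lk)
open MP_f68ac8_nt.Nd (Lr x2 chn Loc Op2 Fr vl Rcp GenQ GnQ WdQ exq Sp np Km)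
open scoped BigOperators Topology

theorem rcpQ (hZqQrStmt : Zq.QrStmt) : RcpQ := by
  intro Λ d q hΛ hq i j hij
  have h : ∀ k, Zk.P1 2 (vl q k) := fun k =>
    ⟨(hΛ _ (q k).2).1, Nat.odd_iff.1 (hΛ _ (q k).2).2⟩
  simp only [lk2, if_neg hij, if_neg hij.symm, if_true]
  rw [hZqQrStmt.1 _ _ (h j) (h i) fun e => hij (hq (Subtype.ext e)).symm, mul_comm]

end Pool.Agent.MP_e23604_nt.Q

end

section

namespace Pool.Agent.MP_e23604_nt.Q

open Finset Filter NumberField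
open MP_f68ac8_nt
open MP_f68ac8_nt.Zq (Mx sg eps lk2)
open MP_f68ac8_nt.Zk (Cp Yw rr ch lk)
open MP_f68ac8_nt.Nd (Lr x2 chn Loc Op2 Fr vl Rcp GenQ GnQ WdQ exq Sp np Km)
open scoped BigOperators Topology

theorem add_XSj : ∀ (α β α' β' : ZMod 2) (u : ZMod 8),
    Nd.e8 (α + α') (β + β') u = Nd.e8 α β u + Nd.e8 α' β' u := by decide

theorem lin_XSj : ∀ (α β : ZMod 2) (u : ZMod 8),
    Nd.e8 α β u = α * Nd.e8 1 0 u + β * Nd.e8 0 1 u := by decide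

theorem sjQ (hNdLocM : Nd.LocM) (hNdKumM : Nd.KumM) (hDecQ : DecQ) : SjQ := by
  have l1 : ∀ α β g, (x2 α β g).toAdd = α * (x2 1 0 g).toAdd + β * (x2 0 1 g).toAdd :=
    fun α β g => lin_XSj α β _
  refine ⟨fun γ => ?_, fun α β => ?_, fun α β α' β' => MonoidHom.ext fun g => ?_⟩
  · have h1 : ∀ a b : ZMod 2, a ≠ 0 ∨ b ≠ 0 → ∃ g ∈ P2.inertia GQ,
        a * (x2 1 0 g).toAdd + b * (x2 0 1 g).toAdd ≠ 0 := fun a b h => by
      obtain ⟨σ, τ, ⟨P, p1, p2, -, p4⟩, hr⟩ := ((hNdLocM a b).2.2.2 h).2 2 Nat.prime_two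
      obtain ⟨s, hs⟩ := hDecQ.2.2.2.2.2.1 P p1 p2 τ p4
      refine ⟨_, hs, ?_⟩
      rw [← l1, (x2 a b).map_mul, (x2 a b).map_mul, (x2 a b).map_inv, mul_inv_cancel_comm]
      rw [Nd.cx, if_pos rfl] at hr
      exact hr
    obtain ⟨g₁, a1, b1⟩ := h1 1 0 (.inl one_ne_zero)
    obtain ⟨g₂, a2, b2⟩ := h1 0 1 (.inr one_ne_zero)
    obtain ⟨g₃, a3, b3⟩ := h1 1 1 (.inl one_ne_zero)
    have h2 : ∀ x₁ y₁ x₂ y₂ x₃ y₃ : ZMod 2, 1 * x₁ + 0 * y₁ ≠ 0 → 0 * x₂ + 1 * y₂ ≠ 0 →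
        1 * x₃ + 1 * y₃ ≠ 0 → ∀ u v : ZMod 2, ∃ i j k : Fin 2,
          i.1 • x₁ + j.1 • x₂ + k.1 • x₃ = u ∧ i.1 • y₁ + j.1 • y₂ + k.1 • y₃ = v := by
      decide +kernel
    obtain ⟨i, j, k, e1, e2⟩ := h2 _ _ _ _ _ _ b1 b2 b3 γ.1 γ.2
    refine ⟨g₁ ^ i.1 * g₂ ^ j.1 * g₃ ^ k.1,
      mul_mem (mul_mem (pow_mem a1 _) (pow_mem a2 _)) (pow_mem a3 _), fun α β => ?_⟩
    rw [l1, ← e1, ← e2]
    simp only [map_mul, map_pow, toAdd_mul, toAdd_pow]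
  · obtain ⟨s, hs, h⟩ := hNdKumM.2.2 1 odd_one squarefree_one
    have hc : chn 1 = 1 := by simp [chn]
    simp only [hc, mul_one] at h
    rcases hs with rfl | rfl
    · simpa using h α β
    · obtain ⟨g, hg⟩ := ((hNdLocM 1 0).2.2.2 (.inl one_ne_zero)).1
      exact (hg ((h 1 0 1 (by simp [ZMod.val_one]) g).2 (map_one g))).elim
  · exact Multiplicative.toAdd.injective (add_XSj α β α' β' _)

end Pool.Agent.MP_e23604_nt.Q

end

section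

namespace Pool.Agent.MP_e23604_nt.Q

open Finset Filter NumberField
open MP_f68ac8_nt
open MP_f68ac8_nt.Zq (Mx sg eps lk2)
open MP_f68ac8_nt.Zk (Cp Yw rr ch lk)
open MP_f68ac8_nt.Nd (Lr x2 chn Loc Op2 Fr vl Rcp GenQ GnQ WdQ exq Sp np Km)
open scoped BigOperators Topology

open P
open scoped Classical

lemma unr_XStr (hDecQ : DecQ) {D : ℤ} {n b : ℕ} (hn : n ≠ 0) (hD : D.natAbs = 2 ^ b * n) {k : ℕ}
    {ξ : GQ → Pts (EE D) Qb} (h : Sel D k ξ) {P : Ideal (𝓞 Qb)} (hP : Out n.primeFactors P)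
    {g : GQ} (hg : g ∈ P.inertia GQ) : ξ g = 0 := by
  obtain ⟨hmax, h2, hR⟩ := hP
  obtain ⟨l, hl, hlP⟩ := exists_prime_mem (Ω := Qb) P
  have : Fact l.Prime := ⟨hl⟩
  obtain ⟨g0, hg0⟩ := hDecQ.2.2.2.2.2.2 P hmax l hlP
  have hl2 : ¬ l ∣ 2 := fun e => by
    have := (Nat.prime_dvd_prime_iff_eq hl Nat.prime_two).1 e
    subst this
    exact h2 hlP
  have hln : ¬ l ∣ n := fun e => hR l (Nat.mem_primeFactors.2 ⟨hl, e, hn⟩) hlP
  have hv := B.nv_na l g0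
  have hlt := B.nv_lt l g0
  have v2 : B.nv l g0 2 = 1 := by
    have := B.v_coprime hv hl hlt (n := 2) (by exact_mod_cast hl2)
    simpa using this
  have vD : B.nv l g0 D = 1 := by
    refine B.v_coprime hv hl hlt fun e => ?_
    rw [Int.natCast_dvd, hD] at e
    rcases (Nat.Prime.dvd_mul hl).1 e with e | e
    · exact hl2 (hl.dvd_of_dvd_pow e)
    · exact hln e
  refine B.sel_unram (EE D) h.1 h.2.1 l (h.2.2 l) g0 ?_ ?_ ?_ (hg0 g hg)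
  · simp [B.Intg, EE, WeierstrassCurve.baseChange, vD]
  · have e : ((EE D).baseChange Qb).Δ = -(2 ^ 6 * (D : Qb) ^ 3) := by
      simp [EE, WeierstrassCurve.baseChange, WeierstrassCurve.Δ, WeierstrassCurve.b₂,
        WeierstrassCurve.b₄, WeierstrassCurve.b₆, WeierstrassCurve.b₈]
      ring
    rw [e, AbsoluteValue.map_neg, map_mul, map_pow, map_pow, v2, vD]
    norm_num
  · rw [Nat.cast_pow, map_pow, Nat.cast_ofNat, v2, one_pow]

theorem strQ (hBasQ : BasQ) (hDecQ : DecQ) (hScQ : ScQ) (hModQ : ModQ) : StrQ := by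
  intro i δ J η D n β σ τ hE hfin
  have hn : n ≠ 0 := hE.odd.pos.ne'
  have hD : D ≠ 0 := by
    rw [← Int.natAbs_ne_zero, hE.abs]
    positivity
  have hD' : (D : ℚ) ≠ 0 := by exact_mod_cast hD
  have hDb : (D : Qb) ≠ 0 := by exact_mod_cast hD
  have hδ : δ ≠ 0 := fun e => hDb (by rw [← hE.pow, e]; norm_num)
  have hgδ : ∀ g : GQ, g δ ^ 4 = D := fun g => by rw [← map_pow, hE.pow, map_intCast]
  have hgδ0 : ∀ g : GQ, g δ ≠ 0 := fun g => (map_ne_zero g).2 hδ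
  have hu : ∀ g : GQ, (g δ)⁻¹ ^ 4 * ((D : ℚ) : Qb) = ((1 : ℚ) : Qb) := fun g => by
    rw [inv_pow, hgδ, Rat.cast_intCast, Rat.cast_one, inv_mul_cancel₀ hDb]
  have hu1 : δ⁻¹ ^ 4 * ((D : ℚ) : Qb) = ((1 : ℚ) : Qb) := hu 1
  have H := hScQ D 1 Qb δ⁻¹ hD' one_ne_zero hu1
  let Φ : Pts (EE D) Qb →+ A1 := AddMonoidHom.mk' (scf 1 δ⁻¹) H.1
  have hinj : Function.Injective Φ := by
    rw [injective_iff_map_eq_zero]
    intro R hR
    by_contra h0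
    exact (H.2.1 R h0).1 hR
  have hcom : ∀ (g : GQ) R, η g (Φ R) = Φ (galQ (EE D) g R) := fun g R => by
    rw [hE.eta g]
    have e1 : galQ (EE 1) g (Φ R) = scf 1 (g δ)⁻¹ (galQ (EE D) g R) := by
      have := H.2.2.2.2 Qb (g : Qb →+* Qb) R
      rw [map_inv₀] at this
      exact this
    have e2 := (hScQ D 1 Qb (g δ)⁻¹ hD' one_ne_zero (hu g)).2.2.1 1 (g δ / δ) one_ne_zero
      (by rw [div_pow, hgδ, hE.pow, div_self hDb, one_mul]) (galQ (EE D) g R)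
    rw [e1, e2]
    have e3 : g δ / δ * (g δ)⁻¹ = δ⁻¹ := by
      have := hgδ0 g
      field_simp
    rw [e3]
    rfl
  refine Set.Finite.of_finite_image (f := fun ξ g => Φ (ξ g)) (hfin.subset ?_)
    fun ξ _ ξ' _ e => funext fun g => hinj (congrFun e g)
  rintro _ ⟨ξ, ⟨⟨k, hk⟩, h0⟩, rfl⟩
  refine ⟨hk.1.1.comp Φ, fun g h => ?_, ⟨2 * k, fun g => ?_⟩, fun P hP g hg => ?_, fun g hg => ?_⟩
  · simp only
    rw [hk.1.2 g h, map_add, hcom]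
  · rw [((hModQ i).2 J hE.jm).2.1, ← map_nsmul, hk.2.1, map_zero]
  · simp only
    rw [unr_XStr hDecQ hn hE.abs hk hP hg, map_zero]
  · simp only
    rw [h0 g hg, map_zero]

end Pool.Agent.MP_e23604_nt.Q

end

section

namespace Pool.Agent.MP_e23604_nt.Q

open Finset Filter NumberField
open MP_f68ac8_nt
open MP_f68ac8_nt.Zq (Mx sg eps lk2)
open MP_f68ac8_nt.Zk (Cp Yw rr ch lk)
open MP_f68ac8_nt.Nd (Lr x2 chn Loc Op2 Fr vl Rcp GenQ GnQ WdQ exq Sp np Km)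
open scoped BigOperators Topology

theorem tamI (hBasQ : BasQ) (hFilQ : FilQ) (hResQ : ResQ) (hThQ : ThQ) (hAdmQ : AdmQ)
    (hTameQ : TameQ) : TamI := by
  intro A _ J η n α a σ τ η₀ hJ hG hT hn x hx l hl K p hp he
  obtain ⟨K1, hK1⟩ := hx.2.2.1
  have mono := (hBasQ A J hJ.toCm0).1
  obtain ⟨V, _, _, JV, ι, hE⟩ := hResQ A J hJ (K + K1 + 1 + 1) (by omega)
  obtain ⟨-, t2, -, t4⟩ := hThQ A V J JV ι _ hJ hE (K + K1 + 1) (by omega)
  obtain ⟨θ, hθ⟩ := t4 η x hG.pre (fun g => mono _ _ (by omega) (hK1 g)) hx.2.1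
  have hA := hAdmQ A V J JV ι _ hJ hE η n α a τ η₀ hG x hx 0 0 (zero_mem _) _ θ
    (by simpa using hθ)
  obtain ⟨v, rfl⟩ := hE.rng p (mono _ _ (by omega) hp)
  have hv := hE.cm.top v
  have h1 : Rep ι (rot JV (K + K1 + 1) v) J (x (τ l)) := fun y => by
    rw [((hFilQ V JV hE.cm.toCm0 _).2.2.2.1 v hv).1, map_add, hE.com, map_sub, map_sub,
      eq_sub_of_add_eq he]
    abel
  have h2 := t2 _ _ _ _ _ (hθ (τ l)) h1 (hG.tam l hl _)
  have hlp := Nat.prime_of_mem_primeFactors hl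
  have hlo : Odd l := hn.of_dvd_nat (Nat.dvd_of_mem_primeFactors hl)
  have h3 := hTameQ V JV _ _ hE.cm (by omega) le_rfl θ l (σ l) (τ l) hlp hlo (hT l hlp hlo)
    hA.nhds v hv h2 1
  rw [← hE.lev, map_sub, pow_one, hθ, add_comm] at h3
  exact h3

end Pool.Agent.MP_e23604_nt.Q

end

section

namespace Pool.Agent.MP_e23604_nt.Q

open Finset Filter NumberField
open MP_f68ac8_nt
open MP_f68ac8_nt.Zq (Mx sg eps lk2)
open MP_f68ac8_nt.Zk (Cp Yw rr ch lk)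
open MP_f68ac8_nt.Nd (Lr x2 chn Loc Op2 Fr vl Rcp GenQ GnQ WdQ exq Sp np Km)
open scoped BigOperators Topology

theorem tameQ (hNdTamM : Nd.TamM) (hBasQ : BasQ) (hFilQ : FilQ) : TameQ := by
  intro V _ _ J N m hC _ _ θ l σ τ hl ho hL hθ v hv hτ k
  obtain ⟨⟨P, p1, p2, p3, p4⟩, -⟩ := hL
  obtain ⟨-, b0, b1, -⟩ := hBasQ V J hC.toCm0
  obtain ⟨-, -, -, f1, f2⟩ := hFilQ V J hC.toCm0 m
  obtain ⟨K, hK⟩ := f2 N hC.top
  obtain ⟨r1, -⟩ := f1 v hv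
  have h1 : σ ^ k * τ * (σ ^ k)⁻¹ ∈ P.inertia GQ := by
    induction k with
    | zero => simpa using p4
    | succ k ih =>
      have := hNdTamM.2 l P σ hl p3 _ ih
      rwa [pow_succ', mul_inv_rev, ← mul_assoc, mul_assoc σ, mul_assoc σ]
  obtain ⟨γ, hγ⟩ := cyclic_inertia hl p2 θ hθ (p := 2 ^ K)
    (Nat.Coprime.pow_left K (Nat.coprime_two_left.2 ho)) hK
  obtain ⟨a, ha⟩ := hγ _ h1
  obtain ⟨b, hb⟩ := hγ _ p4
  have h2 : Commute (θ (σ ^ k * τ * (σ ^ k)⁻¹)) (θ τ) := by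
    rw [ha, hb]
    exact Commute.zpow_zpow_self γ a b
  rw [map_mul, map_mul, map_inv, hτ] at h2
  generalize θ (σ ^ k) = G at h2 ⊢
  obtain ⟨w, hw⟩ : ∃ w, w = G.1⁻¹ v := ⟨_, rfl⟩
  have h3 : G.1 w = v := hw ▸ G.1.apply_symm_apply v
  have h4 : G.1 ((rot J m v).1 (G.1⁻¹ ((rot J m v).1 v))) =
      (rot J m v).1 (G.1 ((rot J m v).1 (G.1⁻¹ v))) :=
    congrArg (fun g : Pm J m => g.1 v) h2.eq
  have h5 : (rot J m v).1 v = v := by rw [r1, sub_self, map_zero, zero_add]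
  rw [h5, ← hw, r1 (G.1 _)] at h4
  have h6 : ∀ y z, G.1 y - G.1 z = G.1.linear (y - z) := fun y z => by
    rw [aff_apply G.1 y, aff_apply G.1 z, map_sub]
    abel
  have h7 : G.1 ((rot J m v).1 w) - v ∈ Wn J (0 + 1) := by
    rw [← b1, b0, Submodule.mem_bot]
    exact sub_eq_zero.2 (eq_sub_of_add_eq h4.symm)
  rw [← h3, h6, G.2.1, h3, r1] at h7
  have h8 : om J (w - v) ∈ Wn J 1 := by
    convert h7 using 1
    change J (w - v) - (w - v) = _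
    abel
  rw [b1, ← neg_mem_iff, neg_sub, ← G.2.1, ← h6, h3] at h8
  exact h8

end Pool.Agent.MP_e23604_nt.Q

end

section

namespace Pool.Agent.MP_e23604_nt.Q

open Finset Filter NumberField
open MP_f68ac8_nt
open MP_f68ac8_nt.Zq (Mx sg eps lk2)
open MP_f68ac8_nt.Zk (Cp Yw rr ch lk)
open MP_f68ac8_nt.Nd (Lr x2 chn Loc Op2 Fr vl Rcp GenQ GnQ WdQ exq Sp np Km)
open scoped BigOperators Topology

theorem one_XTau (hNdLocM : Nd.LocM) (hNdKumM : Nd.KumM) (hSjQ : SjQ) (i : Qb) (hi : i ^ 2 = -1)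
    (l : ℕ) (hl : l.Prime) (ho : Odd l) : ∃ σ τ : GQ, Loc (ch 2 l) l σ τ ∧
      ∀ ρ : Qb, ρ ^ 4 = l → τ ρ = -i * ρ := by
  have h2 : l ≠ 2 := fun e => by
    rw [e] at ho
    exact absurd ho (by decide)
  obtain ⟨σ, τ, h⟩ := ((hNdLocM 1 0).2.2.2 (.inl one_ne_zero)).2 l hl
  rw [Nd.cx, if_neg h2] at h
  obtain ⟨⟨P, p1, p2, p3, p4⟩, hr⟩ := h
  have hx : ∀ α β, x2 α β τ = 1 := fun α β => by
    have := ((hNdLocM α β).1 2 Nat.prime_two).2 P p1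
      (not_mem_of_coprime p2 ((Nat.coprime_primes hl Nat.prime_two).2 h2)) τ p4
    rwa [Nd.cx, if_pos rfl] at this
  have hti : τ i = i := (hSjQ.2.1 1 0 i (by simpa [ZMod.val_one] using hi) τ).1 (hx 1 0)
  obtain ⟨ρ₀, hρ₀⟩ := IsAlgClosed.exists_pow_nat_eq (l : Qb) (n := 4) (by norm_num)
  have hc : chn l = ch 2 l := by rw [chn, hl.primeFactors, prod_singleton]
  have h3 : τ (ρ₀ ^ 2) ≠ ρ₀ ^ 2 := fun e => by
    obtain ⟨s, hs, h⟩ := hNdKumM.2.2 l ho hl.prime.squarefree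
    have h4 := h 0 0
    rw [hNdKumM.2.1, one_mul, hc] at h4
    rcases hs with rfl | rfl
    · exact hr ((h4 (ρ₀ ^ 2) (by simp [← pow_mul, hρ₀]) τ).2 e)
    · exact hr ((h4 (i * ρ₀ ^ 2) (by simp [mul_pow, ← pow_mul, hρ₀, hi]) τ).2
        (by rw [map_mul, hti, e]))
  have h4 : τ ρ₀ = i * ρ₀ ∨ τ ρ₀ = -i * ρ₀ := by
    have h5 : τ ρ₀ ^ 4 = ρ₀ ^ 4 := by rw [← map_pow, hρ₀, map_natCast]
    rw [map_pow] at h3
    have h6 : (τ ρ₀ ^ 2 - ρ₀ ^ 2) * ((τ ρ₀ - i * ρ₀) * (τ ρ₀ - -i * ρ₀)) = 0 := by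
      linear_combination h5 - (τ ρ₀ ^ 2 - ρ₀ ^ 2) * ρ₀ ^ 2 * hi
    rcases mul_eq_zero.1 ((mul_eq_zero.1 h6).resolve_left (sub_ne_zero.2 h3)) with h | h
    · exact .inl (sub_eq_zero.1 h)
    · exact .inr (sub_eq_zero.1 h)
  have h5 : ∀ t : GQ, t i = i → t ρ₀ = -i * ρ₀ → ∀ ρ : Qb, ρ ^ 4 = l → t ρ = -i * ρ :=
    fun t t1 t2 ρ hρ => by
    have h6 : (ρ - ρ₀) * ((ρ - -ρ₀) * ((ρ - i * ρ₀) * (ρ - -(i * ρ₀)))) = 0 := by
      linear_combination hρ - hρ₀ - (ρ ^ 2 - ρ₀ ^ 2) * ρ₀ ^ 2 * hi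
    simp only [mul_eq_zero, sub_eq_zero] at h6
    rcases h6 with rfl | rfl | rfl | rfl
    · exact t2
    · rw [map_neg, t2, mul_neg]
    · rw [map_mul, t1, t2, mul_left_comm]
    · rw [map_neg, map_mul, t1, t2, mul_left_comm, mul_neg]
  rcases h4 with h4 | h4
  · have h6 : ∀ g : Cp 2, g ≠ 1 → g * g * g ≠ 1 := by decide
    refine ⟨σ, τ * τ * τ, ⟨⟨P, p1, p2, p3, mul_mem (mul_mem p4 p4) p4⟩, ?_⟩, h5 _ ?_ ?_⟩
    · rw [map_mul, map_mul]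
      exact h6 _ hr
    · simp only [AlgEquiv.mul_apply, hti]
    · simp only [AlgEquiv.mul_apply, h4, map_mul, hti]
      linear_combination i * ρ₀ * hi
  · exact ⟨σ, τ, ⟨⟨P, p1, p2, p3, p4⟩, hr⟩, h5 _ hti h4⟩

theorem tauQ (hNdLocM : Nd.LocM) (hNdKumM : Nd.KumM) (_hValQ : ValQ) (hSjQ : SjQ) : TauQ := by
  intro i hi
  have h : ∀ l : ℕ, ∃ σ τ : GQ, l.Prime → Odd l → Loc (ch 2 l) l σ τ ∧
      ∀ ρ : Qb, ρ ^ 4 = l → τ ρ = -i * ρ := fun l => by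
    by_cases h : l.Prime ∧ Odd l
    · obtain ⟨σ, τ, h1⟩ := one_XTau hNdLocM hNdKumM hSjQ i hi l h.1 h.2
      exact ⟨σ, τ, fun _ _ => h1⟩
    · exact ⟨1, 1, fun h1 h2 => (h ⟨h1, h2⟩).elim⟩
  choose σ τ h using h
  exact ⟨σ, τ, fun l h1 h2 => (h l h1 h2).1, fun l h1 h2 => (h l h1 h2).2⟩

end Pool.Agent.MP_e23604_nt.Q

end

section

namespace Pool.Agent.MP_e23604_nt.Q

open Finset Filter NumberField
open MP_f68ac8_nt
open MP_f68ac8_nt.Zq (Mx sg eps lk2)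
open MP_f68ac8_nt.Zk (Cp Yw rr ch lk)
open MP_f68ac8_nt.Nd (Lr x2 chn Loc Op2 Fr vl Rcp GenQ GnQ WdQ exq Sp np Km)
open scoped BigOperators Topology

theorem truQ (hNdTupN : Nd.TupN) (hDecQ : DecQ) (hValQ : ValQ) (hFilQ : FilQ) (hTameQ : TameQ) :
    TruQ := by
  classical
  intro V _ _ J N₀ m hC hm hN p hp Λ nb d o σ τ N bb S lab g q y hS θ v hA
  have hpr := hS.gq.pri
  have hf := ((hNdTupN Λ fun l hl => (hpr l hl).1).1 d q hS.inj).2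
  have hq : ∀ j, (q j : ℕ) ∈ (np q).primeFactors := fun j => hf ▸ mem_image_of_mem _ (mem_univ j)
  have hsub : (np q).primeFactors ⊆ Λ := fun l hl => by
    rw [hf] at hl
    obtain ⟨j, -, rfl⟩ := mem_image.1 hl
    exact (q j).2
  have t1 : ∀ j : Fin d, Fin.castAdd o j ∈ S.Tm := fun j => hS.tm ▸ mem_map_of_mem _ (mem_univ j)
  have t2 : ∀ j : Fin o, Fin.natAdd d j ∉ S.Tm := fun j h => by
    rw [hS.tm] at h
    obtain ⟨i, -, e⟩ := mem_map.1 h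
    have := congrArg Fin.val e
    simp only [Fin.castAddEmb_apply, Fin.val_castAdd, Fin.val_natAdd] at this
    omega
  have t3 : ∀ i ∈ S.Tm, ∃ j, i = Fin.castAdd o j := fun i h => by
    rw [hS.tm] at h
    obtain ⟨j, -, e⟩ := mem_map.1 h
    exact ⟨j, e.symm⟩
  obtain ⟨v', v1, v2⟩ : ∃ v' : Fin (d + o) → V, (∀ j, v' (Fin.castAdd o j) = v (q j)) ∧
      ∀ j, v' (Fin.natAdd d j) = 0 :=
    ⟨Fin.append (fun j => v (q j)) 0, fun j => Fin.append_left _ _ j,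
      fun j => Fin.append_right _ _ j⟩
  have x1 : ∀ j, S.xv v' (Fin.castAdd o j) = rot J m (v (q j)) := fun j => by
    rw [Sy.xv, if_pos (t1 j), v1]
  have hM : Nd.Mt (ltr Λ τ bb) N lab q θ (S.xv v') := by
    refine ⟨hS.n1 θ (hValQ.2.2.2.2 _ _ _ hsub hA.adm), fun l hl => ?_, fun j => ?_, fun b => ?_⟩
    · refine (hValQ.1 σ τ hS.tl l (hpr l l.2).1 (hpr l l.2).2).2.2.2 _ _
        (fun l' hl' => Nat.prime_of_mem_primeFactors hl') (fun h => ?_) hA.adm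
      rw [hf] at h
      obtain ⟨j, -, e⟩ := mem_image.1 h
      exact hl j (Subtype.ext e)
    · rw [x1]
      exact (hA.tam _ (hq j)).2
    · rw [Sy.xv, if_neg (t2 _), hS.io]
      exact hA.two _ (hDecQ.2.2.1 _ (hS.gq.mem b))
  obtain ⟨jf, f1, -, f3, f4⟩ := hS.kf
  obtain ⟨jc, c1, c2⟩ := hS.kc
  have y1 : S.Yv (U := fun _ => Option Λ) y (exq o q) v' S.kf = p.th (g jf) := by
    rw [f1, Sy.Yv, hS.wd.two jf _ θ _ hM, hA.two _ f3]
  refine ⟨v', ⟨fun i hi => ?_, fun i => ?_⟩, fun i hi => ?_, ?_, ?_, ?_, ?_⟩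
  · obtain ⟨j, rfl⟩ := t3 i hi
    rw [v1]
    exact (hA.tam _ (hq j)).1
  · refine Fin.addCases (fun j h => (h (t1 j)).elim) (fun j _ => v2 j) i
  · obtain ⟨j, rfl⟩ := t3 i hi
    obtain ⟨b, k, -, h⟩ := hS.wd.tame j
    obtain ⟨a1, a2⟩ := hA.tam _ (hq j)
    have h1 : (rot J m (v (q j))).1 (v (q j)) = v (q j) := by
      rw [((hFilQ V J hC.toCm0 m).2.2.2.1 _ a1).1, sub_self, map_zero, zero_add]
    have h2 : ∀ k : ℕ, (rot J m (v (q j)) ^ k).1 (v (q j)) = v (q j) := fun k => by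
      induction k with
      | zero => rfl
      | succ k ih =>
        rw [pow_succ]
        exact (congrArg (rot J m (v (q j)) ^ k).1 h1).trans ih
    have h3 := hTameQ V J N₀ m hC hm hN θ (q j) _ _ (hpr _ (q j).2).1 (hpr _ (q j).2).2
      (hS.tl _ (hpr _ (q j).2).1 (hpr _ (q j).2).2) hA.adm.nhds _ a1 a2 b
    rw [Sy.Yv, h _ θ _ hM, x1, v1, ← map_pow]
    exact (congrArg (fun u => (θ (σ (q j) ^ b)).1 u - v (q j) ∈ Wn J 2) (h2 k)).mpr h3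
  · rw [y1, hS.o]
    exact hp.1 _ f3
  · rw [y1, f4]
  · rw [c1, Sy.Yv, hS.wd.two jc _ θ _ hM, ← map_mul, ← sq, c2.sq, map_one]
  · obtain ⟨l, hl, l', hl', h⟩ := hA.nc
    rw [hf] at hl hl'
    obtain ⟨j, -, rfl⟩ := mem_image.1 hl
    obtain ⟨j', -, rfl⟩ := mem_image.1 hl'
    exact ⟨_, t1 j, _, t1 j', by rwa [v1, v1]⟩

end Pool.Agent.MP_e23604_nt.Q

end

section

namespace Pool.Agent.MP_e23604_nt.Q

open Finset Filter NumberField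
open MP_f68ac8_nt
open MP_f68ac8_nt.Zq (Mx sg eps lk2)
open MP_f68ac8_nt.Zk (Cp Yw rr ch lk)
open MP_f68ac8_nt.Nd (Lr x2 chn Loc Op2 Fr vl Rcp GenQ GnQ WdQ exq Sp np Km)
open scoped BigOperators Topology

theorem adm_XVal {R : Finset ℕ} {θ : GQ →* Cp 2} (h1 : (θ.ker : Set GQ) ∈ 𝓝 1)
    (h2 : ∀ P, Out R P → ∀ g ∈ P.inertia GQ, θ g = 1) : Adm R θ.ker := by
  have h : ∀ g : Cp 2, g ^ 2 ^ 1 = 1 := by decide
  exact ⟨⟨inferInstance, h1, fun g => ⟨1, by rw [MonoidHom.mem_ker, map_pow, h]⟩⟩, h2⟩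

theorem valQ (hNdLocM : Nd.LocM) (hDecQ : DecQ) : ValQ := by
  have h2 : ∀ l : ℕ, Odd l → l ≠ 2 := fun l hl e => by
    rw [e] at hl
    exact absurd hl (by decide)
  have c1 : ∀ α β (l : ℕ), Odd l → Nd.cx α β l = ch 2 l := fun α β l hl => if_neg (h2 l hl)
  have c2 : ∀ α β, Nd.cx α β 2 = x2 α β := fun α β => if_pos rfl
  have a1 : ∀ l : ℕ, l.Prime → Odd l → ((ch 2 l).ker : Set GQ) ∈ 𝓝 1 ∧
      ∀ P : Ideal (𝓞 Qb), P.IsMaximal → (l : 𝓞 Qb) ∉ P → ∀ g ∈ P.inertia GQ, ch 2 l g = 1 :=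
    fun l hl ho => c1 0 0 l ho ▸ (hNdLocM 0 0).1 l hl
  have a2 : ∀ α β, ((x2 α β).ker : Set GQ) ∈ 𝓝 1 ∧ ∀ P : Ideal (𝓞 Qb), P.IsMaximal →
      ((2 : ℕ) : 𝓞 Qb) ∉ P → ∀ g ∈ P.inertia GQ, x2 α β g = 1 :=
    fun α β => c2 α β ▸ (hNdLocM α β).1 2 Nat.prime_two
  have nm : ∀ (P : Ideal (𝓞 Qb)) (l l' : ℕ), P.IsMaximal → l.Prime → l'.Prime → l ≠ l' →
      (l : 𝓞 Qb) ∈ P → (l' : 𝓞 Qb) ∉ P := fun P l l' hP hl hl' h hm =>
    not_mem_of_coprime hm ((Nat.coprime_primes hl hl').2 h)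
  refine ⟨fun σ τ hT l hl ho => ?_, fun l hl ho => ⟨?_, fun φ hφ => ?_, fun R hR => ?_⟩,
    fun R α β => adm_XVal (a2 α β).1 fun P hP => (a2 α β).2 P hP.1 hP.2.1,
    fun R n α β hn hR => ?_,
    fun R R' N h hN => ⟨hN.toOp2, fun P hP => hN.unr P ⟨hP.1, hP.2.1, fun l hl => hP.2.2 l (h hl)⟩⟩⟩
  · obtain ⟨⟨P, p1, p2, p3, p4⟩, hr⟩ := hT l hl ho
    have h1 : ∀ g : Cp 2, g ≠ 1 → g.toAdd = 1 := by decide
    refine ⟨h1 _ hr, fun l' hl' ho' h => ⟨(a1 l' hl' ho').2 P p1 (nm P l l' p1 hl hl' h p2) _ p4,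
      ?_⟩, fun α β => ⟨(a2 α β).2 P p1 (nm P l 2 p1 hl Nat.prime_two (h2 l ho) p2) _ p4, ?_⟩,
      fun R N hR hlR hN => hN.unr P ⟨p1, nm P l 2 p1 hl Nat.prime_two (h2 l ho) p2,
        fun l' hl' => nm P l l' p1 hl (hR l' hl') (fun e => hlR (e ▸ hl')) p2⟩ _ p4⟩
    · have := (hNdLocM 0 0).2.1 l l' hl hl' h _ ⟨P, p1, p2, p3⟩
      rwa [c1 _ _ _ ho', Nd.lx, if_neg (h2 l' ho')] at this
    · have := (hNdLocM α β).2.1 l 2 hl Nat.prime_two (h2 l ho) _ ⟨P, p1, p2, p3⟩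
      rwa [c2, Nd.lx, if_pos rfl] at this
  · exact (a1 l hl ho).2 P2 hDecQ.1 (nm P2 2 l hDecQ.1 Nat.prime_two hl (h2 l ho).symm hDecQ.2.1)
  · have := (hNdLocM 0 0).2.1 2 l Nat.prime_two hl (h2 l ho).symm _ hφ
    rwa [c1 _ _ _ ho, Nd.lx, if_neg (h2 l ho)] at this
  · exact adm_XVal (a1 l hl ho).1 fun P hP => (a1 l hl ho).2 P hP.1 (hP.2.2 l hR)
  · have h3 : ∀ l ∈ n.primeFactors, l.Prime ∧ Odd l := fun l hl =>
      ⟨Nat.prime_of_mem_primeFactors hl, hn.of_dvd_nat (Nat.dvd_of_mem_primeFactors hl)⟩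
    have h4 : ∀ g, x2 α β g = 1 → (∀ l ∈ n.primeFactors, ch 2 l g = 1) →
        (x2 α β * chn n) g = 1 := fun g g1 g2 => by
      rw [MonoidHom.mul_apply, g1, one_mul, chn, MonoidHom.finsetProd_apply]
      exact prod_eq_one g2
    refine adm_XVal ?_ fun P hP g hg => h4 g ((a2 α β).2 P hP.1 hP.2.1 g hg) fun l hl =>
      (a1 l (h3 l hl).1 (h3 l hl).2).2 P hP.1 (hP.2.2 l (hR hl)) g hg
    filter_upwards [(a2 α β).1, (biInter_finset_mem n.primeFactors).2 fun l hl =>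
      (a1 l (h3 l hl).1 (h3 l hl).2).1] with g g1 g2
    exact h4 g g1 fun l hl => Set.mem_iInter₂.1 g2 l hl

end Pool.Agent.MP_e23604_nt.Q

end
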