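import Mathlib
import Pool.Agent.Mg.Fe23604m.G3360bb
import Pool.Agent.Mg.Fe23604m.G65b452
import Pool.Agent.Mg.Fe23604m.G2870c8
import Pool.Agent.Mg.Fe23604m.G174699
import Pool.Agent.Mg.Fe23604m.G773521
import Pool.Agent.Mg.Fe23604m.Gad3f3e
import Pool.Agent.Mg.Fe23604m.G286b60

set_option linter.all false

section

/-! The chosen quadratic characters. -/

namespace Pool.Agent.MP_f68ac8_nt.Zq

open Ev Pv Sv Zv Zk
open scoped commutatorElement
open Filter Topology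

theorem four_ZsCh {l : ℕ} (h : P1 2 l) {P : Ideal OQ} (hP : P.IsMaximal) (hl : (l : OQ) ∈ P) :
    ((4 : ℕ) : OQ) ∉ P :=
  not_mem_of_coprime hl (Nat.Coprime.pow_right 2
    ((Nat.coprime_primes h.1 Nat.prime_two).2 (ne_ZmCh h)))

theorem frob_ZsCh {l : ℕ} (h : P1 2 l) {P : Ideal OQ} (hP : P.IsMaximal) (hl : (l : OQ) ∈ P)
    {σ : GQ} (hσ : IsFrob l P σ) : x4 σ = eps l := by
  have h1 := cyc_frob (four_ZsCh h hP hl) hσ
  have h2 : l % 2 = 1 := h.2
  rw [← ZMod.natCast_mod] at h1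
  rw [x4, eps]
  rcases (by omega : l % 4 = 1 ∨ l % 4 = 3) with e | e
  · rw [e, Nat.cast_one] at h1
    rw [if_pos (Units.ext h1), if_neg (by omega)]
  · rw [e] at h1
    rw [if_pos e, if_neg fun e' => ?_]
    rw [e'] at h1
    exact absurd h1 (by decide)

theorem add_ZsCh (g h : GQ) : x4 (g * h) = x4 g + x4 h := by
  have e : ∀ u v : (ZMod 4)ˣ, (if u * v = 1 then (0 : ZMod 2) else 1) =
      (if u = 1 then 0 else 1) + if v = 1 then 0 else 1 := by decide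
  rw [x4, x4, x4, map_mul, e]

theorem ind_ZsCh {F : IntermediateField ℚ Qb} (hF : ∀ g, g ∈ F.fixingSubgroup ↔ cyc 2 g = 1)
    {d : ℕ} {l : Fin d → ℕ} (hinj : Function.Injective l) (h : ∀ j, P1 2 (l j)) :
    Ind F 1 fun o : Option (Fin d) => o.elim x4 fun j g => (ch 2 (l j) g).toAdd := by
  have hall : ∀ g, g ∈ F.fixingSubgroup := fun g => (hF g).2 (Subsingleton.elim _ _)
  refine ⟨?_, ?_, fun b g _ => by rw [one_mul, inv_one, mul_one], fun c hc => ?_⟩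
  · rintro (_ | j) g _ g' _
    · exact add_ZsCh g g'
    · exact (congrArg _ (map_mul _ g g')).trans (toAdd_mul _ _)
  · rintro (_ | j)
    · filter_upwards [cyc_nhds (Ω := Qb) 4] with g hg _
      exact if_pos hg
    · filter_upwards [nhds_ZmCh (h j)] with g hg _
      exact toAdd_eq_zero.2 hg
  · have hc' : ∀ g, c none * x4 g + ∑ i, (ch 2 (l i) g).toAdd * c (some i) = 0 := fun g => by
      have := hc g (hall g)
      rw [Fintype.sum_option] at this
      rw [← this]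
      exact congrArg _ (Finset.sum_congr rfl fun i _ => mul_comm _ _)
    have h1 : ∀ j, c (some j) = 0 := fun j => by
      obtain ⟨P, hP, hl⟩ := exists_maximal_mem (Ω := Qb) (h j).1
      obtain ⟨τ, h1, h2⟩ := tau_ZmCh (h j) hP hl
      have := hc' τ
      rwa [single_ZmCh hinj h _ j ⟨P, hP, hl, h1⟩, h2, one_mul, x4,
        if_pos (cyc_inertia (four_ZsCh (h j) hP hl) h1), mul_zero, zero_add] at this
    have h2 : c none = 0 := by
      obtain ⟨P, hP, hl⟩ := exists_maximal_mem (Ω := Qb) Nat.prime_three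
      obtain ⟨σ, hσ⟩ := exists_frob P Nat.prime_three hl
      have := hc' σ
      rwa [frob_ZsCh ⟨Nat.prime_three, by decide⟩ hP hl hσ, eps, if_pos (by decide), mul_one,
        Finset.sum_eq_zero fun i _ => by rw [h1, mul_zero], add_zero] at this
    funext b
    cases b with
    | none => exact h2
    | some j => exact h1 j

theorem ch_stmt (hP : PrimStmt 2) (hR : RestrStmt 2) : ChStmt := by
  intro K F _ _ hB hK hF
  have hT := (hP K F hB hK hF).1
  refine ⟨fun l h => ⟨ok_ZmCh h, nhds_ZmCh h, fun P _ hl g hg => unr_ZmCh h hl hg⟩,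
    fun c hc h => ⟨?_, frob_ZsCh h hc.max hc.mem hc.frob, fun m hm hne =>
      ⟨lk_ZmCh hc.prime hm hne hc.max hc.mem hc.frob,
      unr_ZmCh hm (nm_ZmCh hc.prime hm.1 hne hc.max hc.mem) hc.inert⟩⟩,
    fun d l hinj h => ⟨fun g => ?_, ?_, ind_ZsCh hF hinj h⟩⟩
  · have e0 : ∀ z : ZMod 2, z ≠ 0 → z = 1 := by decide
    refine e0 _ fun e' => ?_
    have e : ch 2 c.l c.τ = 1 := toAdd_eq_zero.1 e'
    obtain ⟨τ, h1, h2⟩ := tau_ZmCh h hc.max hc.mem
    have k₀ : Subtype.val ⁻¹' ((ch 2 c.l).ker : Set GQ) ∈ 𝓝 (1 : GK K) :=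
      continuous_subtype_val.continuousAt.preimage_mem_nhds (nhds_ZmCh h)
    have k := (hR K F hB c hc ((ch 2 c.l).comp K.fixingSubgroup.subtype).ker inferInstance k₀
      (fun g _ => ⟨1, by
        rw [MonoidHom.mem_ker, map_pow, pow_one, ← toAdd_eq_zero, toAdd_pow, nsmul_eq_mul,
          ZMod.natCast_self, zero_mul]⟩)).2
      (by
        show ch 2 c.l (toK K c.τ).1 = 1
        rw [hT, e]) c.P (toK K τ) (by
        rw [hT]
        exact ⟨hc.max, h1, hc.unr h1⟩) rfl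
    have k' : ch 2 c.l (toK K τ).1 = 1 := k
    rw [hT] at k'
    rw [k', toAdd_one] at h2
    exact zero_ne_one h2
  · rw [chi, chA_ZmCh]
    exact Finset.sum_congr rfl fun j _ => mul_one _
  · refine Set.Subset.antisymm (fun χ hχ => ?_) ?_
    · obtain ⟨a, rfl⟩ := sub_ZmCh hinj h hχ
      exact congrArg (chA l) (Subsingleton.elim _ _)
    · rintro _ rfl
      exact mem_ZmCh hinj h 1

end Pool.Agent.MP_f68ac8_nt.Zq

end

section

namespace Pool.Agent.MP_f68ac8_nt.Nd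
open Zq Ev Pv Sv Zv Zk NumberField Finset Filter
open scoped Topology BigOperators commutatorElement

theorem x2_NgLoc (α β : ZMod 2) (g : GQ) :
    (x2 α β g).toAdd = e8 α β (cyc (Ω := Qb) 8 g) := rfl

theorem one_NgLoc (α β : ZMod 2) {g : GQ} (h : cyc (Ω := Qb) 8 g = 1) : x2 α β g = 1 := by
  have e : ∀ α β : ZMod 2, e8 α β ((1 : (ZMod 8)ˣ) : ZMod 8) = 0 := by decide
  rw [← toAdd_eq_zero, x2_NgLoc, h, e]

theorem p1_NgLoc {l : ℕ} (hl : l.Prime) (h : l ≠ 2) : Zk.P1 2 l :=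
  ⟨hl, Nat.odd_iff.1 (hl.odd_of_ne_two h)⟩

theorem cx2_NgLoc (α β : ZMod 2) : cx α β 2 = x2 α β := if_pos rfl

theorem cxo_NgLoc (α β : ZMod 2) {l : ℕ} (h : l ≠ 2) : cx α β l = ch 2 l := if_neg h

theorem eight_NgLoc {P : Ideal OQ} (hP : P.IsMaximal) (h : ((2 : ℕ) : OQ) ∉ P) :
    ((8 : ℕ) : OQ) ∉ P := fun e =>
  h (hP.isPrime.mem_of_pow_mem 3 (by
    rw [← Nat.cast_pow]
    exact e))

theorem unr_NgLoc (α β : ZMod 2) {l : ℕ} (hl : l.Prime) :
    ((cx α β l).ker : Set GQ) ∈ 𝓝 1 ∧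
      ∀ P : Ideal OQ, P.IsMaximal → (l : OQ) ∉ P → ∀ g ∈ P.inertia GQ, cx α β l g = 1 := by
  by_cases h : l = 2
  · subst h
    rw [cx2_NgLoc]
    exact ⟨mem_of_superset (cyc_nhds (Ω := Qb) 8) fun g hg => one_NgLoc α β hg,
      fun P hP h g hg => one_NgLoc α β (cyc_inertia (eight_NgLoc hP h) hg)⟩
  · rw [cxo_NgLoc α β h]
    exact ⟨nhds_ZmCh (p1_NgLoc hl h), fun P _ h' g hg => unr_ZmCh (p1_NgLoc hl h) h' hg⟩

theorem lk_NgLoc {l : ℕ} (hl : l.Prime) (h : l ≠ 2) :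
    lk 2 2 l = if l % 8 = 1 ∨ l % 8 = 7 then 0 else 1 := by
  have : Fact l.Prime := ⟨hl⟩
  have z : ∀ x : ZMod 2, x ≠ 0 → x = 1 := by decide
  have h1 := lk_ZsQr Nat.prime_two (p1_NgLoc hl h) h
  rw [Nat.cast_ofNat, ZMod.exists_sq_eq_two_iff h] at h1
  split_ifs with e
  · exact h1.2 e
  · exact z _ fun e' => e (h1.1 e')

theorem frob_NgLoc (α β : ZMod 2) {l m : ℕ} (hl : l.Prime) (hm : m.Prime) (h : l ≠ m) {σ : GQ}
    (hσ : Fr l σ) : (cx α β m σ).toAdd = lx α β l m := by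
  obtain ⟨P, hP, hlP, hσ⟩ := hσ
  by_cases e : m = 2
  · subst e
    have h1 := cyc_frob (eight_NgLoc hP (nm_ZmCh hl hm h.symm hP hlP)) hσ
    have h2 := Nat.odd_iff.1 (hl.odd_of_ne_two h)
    rw [cx2_NgLoc, x2_NgLoc, h1, lx, if_pos rfl, lk_NgLoc hl h, Zq.eps, ← ZMod.natCast_mod l 8,
      ← Nat.mod_mod_of_dvd l (by decide : 4 ∣ 8)]
    rcases (by omega : l % 8 = 1 ∨ l % 8 = 3 ∨ l % 8 = 5 ∨ l % 8 = 7) with e | e | e | e <;>
      rw [e] <;> revert α β <;> decide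
  · rw [cxo_NgLoc α β e, lx, if_neg e]
    exact lk_ZmCh hl (p1_NgLoc hm e) h.symm hP hlP hσ

theorem conj_NgLoc (α β : ZMod 2) :
    ∃ c : GQ, c ^ 2 = 1 ∧ ∀ l : ℕ, l.Prime → (cx α β l c).toAdd = ex α l := by
  have z1 : ∀ x y : ZMod 2, (x = 0 ↔ y = 0) → x = y := by decide
  have z2 : ∀ α β : ZMod 2, e8 α β (-1) = α := by decide
  obtain ⟨c, h1, h2⟩ := conj_ZsQr
  refine ⟨c, h1, fun l hl => ?_⟩
  by_cases h : l = 2
  · subst h
    rw [cx2_NgLoc, x2_NgLoc, h2, z2, ex, if_pos rfl]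
  · have : Fact l.Prime := ⟨hl⟩
    rw [cxo_NgLoc α β h, ex, if_neg h]
    refine z1 _ _ ?_
    rw [ch_ZsQr (p1_NgLoc hl h), h2, ZMod.exists_sq_eq_neg_one_iff, Zq.eps]
    split_ifs with h <;> simp [h]

theorem ne_NgLoc {α β : ZMod 2} (h : α ≠ 0 ∨ β ≠ 0) : ∃ g, x2 α β g ≠ 1 := by
  have z : ∀ α β : ZMod 2, α ≠ 0 ∨ β ≠ 0 → ∃ u : (ZMod 8)ˣ, e8 α β u ≠ 0 := by decide
  obtain ⟨u, hu⟩ := z α β h
  obtain ⟨g, rfl⟩ := cyc_surj (Ω := Qb) 8 u
  exact ⟨g, fun e => hu (by rw [← x2_NgLoc, e, toAdd_one])⟩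

theorem locM : LocM := by
  intro α β
  refine ⟨fun l hl => unr_NgLoc α β hl, fun l m hl hm h σ hσ => frob_NgLoc α β hl hm h hσ,
    conj_NgLoc α β, fun h => ⟨ne_NgLoc h, fun l hl => ?_⟩⟩
  have key : ∃ P : Ideal OQ, P.IsMaximal ∧ (l : OQ) ∈ P ∧ ∃ τ ∈ P.inertia GQ, cx α β l τ ≠ 1 := by
    by_cases e : l = 2
    · by_contra h0
      obtain ⟨g, hg⟩ := ne_NgLoc h
      have h1 := eq_top_of_open (cx α β l).ker (unr_NgLoc α β hl).1 fun P hP τ hτ => by
        by_cases hP' : (l : OQ) ∈ P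
        · by_contra h2
          exact h0 ⟨P, hP, hP', τ, hτ, h2⟩
        · exact (unr_NgLoc α β hl).2 P hP hP' τ hτ
      have h2 : g ∈ (cx α β l).ker := h1 ▸ Subgroup.mem_top g
      rw [e, cx2_NgLoc] at h2
      exact hg h2
    · obtain ⟨P, hP, hlP⟩ := exists_maximal_mem (Ω := Qb) hl
      obtain ⟨τ, h1, h2⟩ := tau_ZmCh (p1_NgLoc hl e) hP hlP
      refine ⟨P, hP, hlP, τ, h1, fun h3 => ?_⟩
      rw [cxo_NgLoc α β e] at h3
      rw [h3, toAdd_one] at h2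
      exact zero_ne_one h2
  obtain ⟨P, hP, hlP, τ, h1, h2⟩ := key
  obtain ⟨σ, hσ⟩ := exists_frob P hl hlP
  exact ⟨σ, τ, ⟨P, hP, hlP, hσ, h1⟩, h2⟩

theorem tame_NgLoc {χ : GQ →* Cp 2} (hχ : (χ.ker : Set GQ) ∈ 𝓝 1) {l : ℕ} (hl : l.Prime)
    (h2 : l ≠ 2) {P : Ideal OQ} (hP : P.IsMaximal) (hlP : (l : OQ) ∈ P) {τ : GQ}
    (hτ : τ ∈ P.inertia GQ) (hr : χ τ ≠ 1) {N : Subgroup GQ} (hN : Op2 N) (hτN : τ ∈ N) {u : GQ}
    (hu : u ∈ P.inertia GQ) : u ∈ N := by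
  have z : ∀ x : Cp 2, x ^ 2 = 1 := by decide
  have hn := hN.nrm
  have ho : ((N ⊓ χ.ker : Subgroup GQ) : Set GQ) ∈ 𝓝 1 := inter_mem hN.nhds hχ
  have hfi : (N ⊓ χ.ker).FiniteIndex := by
    obtain ⟨L, _, _, hL⟩ := exists_level ho
    exact Subgroup.finiteIndex_of_le (H := (res L).ker) fun g hg => hL _ hg
  have hp : IsPGroup 2 (GQ ⧸ (N ⊓ χ.ker)) := fun γ => by
    obtain ⟨g, rfl⟩ := QuotientGroup.mk_surjective γ
    obtain ⟨k, hk⟩ := hN.pg g
    refine ⟨k + 1, ?_⟩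
    rw [← QuotientGroup.mk_pow, QuotientGroup.eq_one_iff, pow_succ, pow_mul]
    exact ⟨N.pow_mem hk 2, MonoidHom.mem_ker.2 (by rw [map_pow, z])⟩
  obtain ⟨k, hk⟩ := IsPGroup.iff_card.1 hp
  obtain ⟨γ, hγ⟩ := cyclic_inertia hl hlP (QuotientGroup.mk' (N ⊓ χ.ker))
    (mem_of_superset ho fun g hg => (QuotientGroup.eq_one_iff g).2 hg) (p := 2 ^ k)
    (Nat.Coprime.pow_left k ((Nat.coprime_primes Nat.prime_two hl).2 h2.symm))
    (fun γ => by rw [← hk, pow_card_eq_one'])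
  obtain ⟨g, rfl⟩ := QuotientGroup.mk_surjective γ
  have h1 : ∀ v ∈ P.inertia GQ, ∃ n : ℤ, v⁻¹ * g ^ n ∈ N ⊓ χ.ker := fun v hv => by
    obtain ⟨n, hn⟩ := hγ v hv
    exact ⟨n, QuotientGroup.eq.1 (by rw [QuotientGroup.mk_zpow]; exact hn)⟩
  obtain ⟨a, ha, ha'⟩ := h1 τ hτ
  have h3 : g ^ a ∈ N := by
    have := N.mul_mem hτN ha
    rwa [mul_inv_cancel_left] at this
  have h4 : Odd a := by
    rw [← Int.not_even_iff_odd]
    rintro ⟨b, rfl⟩
    have e : χ (τ⁻¹ * g ^ (b + b)) = 1 := ha'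
    rw [map_mul, zpow_add, ← pow_two, map_pow, z, mul_one, map_inv, inv_eq_one] at e
    exact hr e
  obtain ⟨j, hj⟩ := hN.pg g
  have h5 : g ∈ N := by
    have hc : IsCoprime a ((2 : ℤ) ^ j) := (Int.isCoprime_two_right.2 h4).pow_right
    obtain ⟨x, y, hxy⟩ := hc
    have e : g = (g ^ a) ^ x * (g ^ 2 ^ j) ^ y := by
      rw [← zpow_natCast, ← zpow_mul, ← zpow_mul, ← zpow_add, mul_comm a, Nat.cast_pow,
        Nat.cast_ofNat, mul_comm _ y, hxy, zpow_one]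
    rw [e]
    exact N.mul_mem (N.zpow_mem h3 x) (N.zpow_mem hj y)
  obtain ⟨n, hn', -⟩ := h1 u hu
  have := N.mul_mem hn' (N.inv_mem (N.zpow_mem h5 n))
  rw [mul_inv_cancel_right] at this
  exact (N.inv_mem_iff).1 this

theorem tamM (hL : LocM) : TamM := by
  refine ⟨fun α β l σ τ hl h N hN h2 hτN P' hP' hlP' g hg => ?_, fun l P σ hl hσ g hg x => ?_⟩
  · obtain ⟨⟨P, hP, hlP, -, hτ⟩, hr⟩ := h
    obtain ⟨c, hc⟩ := exists_conj hl hlP hlP'
    have h1 := hc g hg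
    suffices h3 : c⁻¹ * g * c ∈ N by
      have := hN.nrm.conj_mem _ h3 c
      rwa [← mul_assoc, mul_inv_cancel_left, mul_inv_cancel_right] at this
    generalize c⁻¹ * g * c = u at h1
    by_cases e : l = 2
    · by_cases h4 : x2 α β u = 1
      · exact h2 e P hP hlP u h1 h4
      · have z : ∀ x y : Cp 2, x ≠ 1 → y ≠ 1 → x * y⁻¹ = 1 := by decide
        rw [e, cx2_NgLoc] at hr
        have h5 := h2 e P hP hlP (u * τ⁻¹) (mul_mem h1 (inv_mem hτ)) (by
          rw [map_mul, map_inv]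
          exact z _ _ h4 hr)
        have := N.mul_mem h5 hτN
        rwa [inv_mul_cancel_right] at this
    · exact tame_NgLoc ((hL α β).1 l hl).1 hl e hP hlP hτ hr hN hτN h1
  · have := hσ.mem hl (hg (σ⁻¹ • x))
    rwa [smul_sub, smul_inv_smul, ← mul_smul, ← mul_smul] at this

end Pool.Agent.MP_f68ac8_nt.Nd

end

section

namespace Pool.Agent.MP_f68ac8_nt.Nd
open Zq Ev Pv Sv Zv Zk NumberField Finset Filter
open scoped Topology BigOperators commutatorElement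

theorem four_NgMain (hS : SpN) (hI : Zq.IndStmt) (hL : Zq.ClsStmt) (hF : Zq.FamStmt)
    (χ : ℕ → GQ →* Cp 2) (hC : ∀ n, Odd n → Squarefree n → n ≠ 1 →
      IsOpen ((χ n).ker : Set GQ) ∧ ∃ g, χ n g ≠ 1) (hQ : PtF χ) (n : ℕ) (ε : ℝ) (hε : 0 < ε) :
    Sp (fun m => ¬ FourFM n (χ m).ker) ε := by
  obtain ⟨R, ϖ, hR, hR1, hInd⟩ := hI n
  have hQ' : ∀ (l n : ℕ) (e : ℝ), ∃ L, 2 ≤ L ∧ (0 < e → ∀ S : Sy 2, TE S.T L l n →
      Sp (fun m => Adz S.T (χ m)) e) := by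
    intro l n e
    by_cases he : 0 < e
    · obtain ⟨L, h1, h3⟩ := hQ l n e he
      exact ⟨L, h1, fun _ => h3⟩
    · exact ⟨2, le_rfl, fun h => absurd h he⟩
  choose Lf hL2 hLf using hQ'
  obtain ⟨J, iJ, S, l, m, e, hSe, hsum, hcov⟩ := hF _ R ϖ hR hR1 Lf hL2 (ε / 2) (half_pos hε)
  refine hS.1 _ _ _ ε (by linarith) (fun a ho hs h1 ha => ?_)
    (hS.2 J _ e fun j => hLf (l j) (m j) (e j) (hSe j).1 (S j) (hSe j).2)
  obtain ⟨c1, c2⟩ := hC a ho hs h1
  obtain ⟨Θ, hΘ, hΘR⟩ := hInd _ c1 c2 ha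
  obtain ⟨hcls, hadz⟩ := hL _ R ϖ _ Θ hR hΘ hΘR
  obtain ⟨j, hj⟩ := hcov _ hΘR hcls
  exact ⟨j, hadz _ hj⟩

theorem mainM (hS : SpN) (hI : Zq.IndStmt) (hL : Zq.ClsStmt) (hF : Zq.FamStmt) (hM : Zq.MbStmt)
    (hA : ArStmt) : MainM := by
  intro χ hC hQ hK ε hε
  have h3 : 0 < ε / 3 := by positivity
  obtain ⟨r, hr1, hr⟩ := hK _ h3
  obtain ⟨S, co, hS', -⟩ := hM 3 r (by omega) hr1
  have key := hS.2 Bool
    (fun b m => cond b (Adz S.T (χ m)) (¬ FourFM (r + 2) (χ m).ker)) (fun _ => ε / 3) (by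
      rintro (_ | _)
      · exact four_NgMain hS hI hL hF χ hC hQ (r + 2) _ h3
      · exact hr S co hS')
  rw [Fintype.sum_bool] at key
  refine hS.1 _ _ _ ε (by linarith) (fun a ho hs h1 ha => ?_) key
  obtain ⟨c1, c2⟩ := hC a ho hs h1
  by_contra hcon
  exact ha (hA r S co hS' _ c1 c2 (by_contra fun h => hcon ⟨false, h⟩)
    fun h => hcon ⟨true, h⟩)

theorem odd_NgMain {N : ℕ} (h : Squarefree N) :
    ∃ (β : ZMod 2) (n : ℕ), Odd n ∧ Squarefree n ∧ n ≤ N ∧ N = 2 ^ β.val * n := by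
  rcases Nat.even_or_odd N with ⟨n, hn⟩ | ho
  · rw [← two_mul] at hn
    subst hn
    refine ⟨1, n, Nat.not_even_iff_odd.1 ?_, h.of_mul_right, by omega, rfl⟩
    rintro ⟨k, hk⟩
    have h1 := h 2 ⟨k, by omega⟩
    rw [Nat.isUnit_iff] at h1
    omega
  · exact ⟨0, N, ho, h, le_rfl, (one_mul N).symm⟩

theorem sign_NgMain {m s t : ℤ} {n : ℕ} (h : m = t * n ∨ m = -(t * n)) (hs : s = n ∨ s = -n) :
    ∃ α : ZMod 2, m = (-1) ^ α.val * t * s := by
  have h0 : (0 : ZMod 2).val = 0 := rfl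
  have h1 : (1 : ZMod 2).val = 1 := rfl
  rcases h with rfl | rfl <;> rcases hs with rfl | rfl
  · exact ⟨0, by rw [h0]; ring⟩
  · exact ⟨1, by rw [h1]; ring⟩
  · exact ⟨1, by rw [h1]; ring⟩
  · exact ⟨0, by rw [h0]; ring⟩

theorem card_NgMain {J : Type} [Fintype J] (B : Finset ℤ) (A : J → Finset ℕ) (f : J → ℕ → ℤ)
    (h : ∀ m ∈ B, ∃ j, ∃ n ∈ A j, f j n = m) : B.card ≤ ∑ j, (A j).card := by
  have h1 : B ⊆ univ.biUnion fun j => (A j).image (f j) := fun m hm => by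
    obtain ⟨j, n, hn, e⟩ := h m hm
    exact mem_biUnion.2 ⟨j, mem_univ j, mem_image.2 ⟨n, hn, e⟩⟩
  exact (card_le_card h1).trans (card_biUnion_le.trans (sum_le_sum fun j _ => card_image_le))

end Pool.Agent.MP_f68ac8_nt.Nd

end

section

namespace Pool.Agent.MP_f68ac8_nt.Nd

open Zq Ev Pv Sv Zv Zk NumberField Finset Filter
open scoped Topology BigOperators commutatorElement

theorem spN : SpN := by
  classical
  refine ⟨fun B B' ε ε' hε h hB => ?_, fun J _ B e hB => ?_⟩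
  · have h1 : ∀ᶠ X : ℕ in atTop, 1 / (ε' - ε) ≤ (X : ℝ) :=
      tendsto_natCast_atTop_atTop.eventually_ge_atTop _
    filter_upwards [hB, h1] with X hX h2
    rw [div_le_iff₀ (sub_pos.2 hε)] at h2
    have h3 : ((Icc 1 X).filter fun n => Odd n ∧ Squarefree n ∧ B' n) ⊆
        insert 1 ((Icc 1 X).filter fun n => Odd n ∧ Squarefree n ∧ B n) := by
      intro n hn
      rw [mem_filter] at hn
      rw [mem_insert, mem_filter]
      by_cases e : n = 1
      · exact Or.inl e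
      · exact Or.inr ⟨hn.1, hn.2.1, hn.2.2.1, h n hn.2.1 hn.2.2.1 e hn.2.2.2⟩
    have h4 := (card_le_card h3).trans (card_insert_le _ _)
    have h5 : (((Icc 1 X).filter fun n => Odd n ∧ Squarefree n ∧ B' n).card : ℝ) ≤
        ((Icc 1 X).filter fun n => Odd n ∧ Squarefree n ∧ B n).card + 1 := by
      exact_mod_cast h4
    linarith
  · filter_upwards [Filter.eventually_all.2 hB] with X hX
    rw [sum_mul]
    refine le_trans ?_ (sum_le_sum fun j _ => hX j)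
    rw [← Nat.cast_sum, Nat.cast_le]
    refine le_trans (card_le_card fun n hn => ?_) card_biUnion_le
    simp only [mem_filter] at hn
    obtain ⟨h1, h2, h3, j, hj⟩ := hn
    exact mem_biUnion.2 ⟨j, mem_univ j, mem_filter.2 ⟨h1, h2, h3, hj⟩⟩

end Pool.Agent.MP_f68ac8_nt.Nd

end

section

namespace Pool.Agent.MP_f68ac8_nt.Nd

open Zq Ev Pv Sv Zv Zk NumberField Finset Filter
open scoped Topology BigOperators commutatorElement

/-- the sign of a value -/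
def sn_NgKum (x : Cp 2) : ℤ := if x = 1 then 1 else -1

theorem snm_NgKum : ∀ x y : Cp 2, sn_NgKum (x * y) = sn_NgKum x * sn_NgKum y := by decide

/-- a square root on which the Galois group acts through the character -/
def K_NgKum (m : ℤ) (χ : GQ →* Cp 2) : Prop :=
  ∃ a : Qb, a ≠ 0 ∧ a ^ 2 = m ∧ ∀ g : GQ, g a = sn_NgKum (χ g) * a

theorem km_NgKum {m : ℤ} {χ : GQ →* Cp 2} (h : K_NgKum m χ) : Km m χ := by
  obtain ⟨a, h0, h1, h2⟩ := h
  have key : ∀ g : GQ, χ g = 1 ↔ g a = a := by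
    intro g
    rw [h2, sn_NgKum]
    by_cases e : χ g = 1
    · simp [e]
    · rw [if_neg e]
      refine ⟨fun h => absurd h e, fun h => absurd ?_ h0⟩
      push_cast at h
      linear_combination (-1 / 2 : Qb) * h
  intro b hb g
  rcases sq_eq_sq_iff_eq_or_eq_neg.1 (hb.trans h1.symm) with rfl | rfl
  · exact key g
  · rw [map_neg, neg_inj]
    exact key g

theorem one_NgKum : K_NgKum 1 1 :=
  ⟨1, one_ne_zero, by simp, fun g => by simp [sn_NgKum]⟩

theorem mul_NgKum {m m' : ℤ} {χ χ' : GQ →* Cp 2} (h : K_NgKum m χ) (h' : K_NgKum m' χ') :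
    K_NgKum (m * m') (χ * χ') := by
  obtain ⟨a, h0, h1, h2⟩ := h
  obtain ⟨b, k0, k1, k2⟩ := h'
  refine ⟨a * b, mul_ne_zero h0 k0, by rw [mul_pow, h1, k1, Int.cast_mul], fun g => ?_⟩
  rw [map_mul, h2, k2, MonoidHom.mul_apply, snm_NgKum]
  push_cast
  ring

theorem eight_NgKum : K_NgKum (-1) (x2 1 0) ∧ K_NgKum 2 (x2 0 1) := by
  have h4 : zeta Qb 8 ^ 4 = -1 :=
    ((zeta_spec (Ω := Qb) 8).pow (by norm_num) (show 8 = 4 * 2 from rfl)).eq_neg_one_of_two_right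
  have hu : ∀ u : (ZMod 8)ˣ, let a := sn_NgKum (Multiplicative.ofAdd (e8 1 0 u))
      let b := sn_NgKum (Multiplicative.ofAdd (e8 0 1 u))
      ((u : ZMod 8).val = 1 ∧ a = 1 ∧ b = 1) ∨ ((u : ZMod 8).val = 3 ∧ a = -1 ∧ b = -1) ∨
      ((u : ZMod 8).val = 5 ∧ a = 1 ∧ b = -1) ∨ ((u : ZMod 8).val = 7 ∧ a = -1 ∧ b = 1) := by
    decide
  have hg : ∀ g : GQ, g (zeta Qb 8) = zeta Qb 8 ^ (cyc 8 g : ZMod 8).val := fun g =>
    cyc_spec 8 g (zeta_spec 8).pow_eq_one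
  have e1 : (zeta Qb 8 ^ 2) ^ 2 = ((-1 : ℤ) : Qb) := by
    push_cast
    linear_combination h4
  have e2 : (zeta Qb 8 - zeta Qb 8 ^ 3) ^ 2 = ((2 : ℤ) : Qb) := by
    push_cast
    linear_combination (zeta Qb 8 ^ 2 - 2) * h4
  refine ⟨⟨_, fun h => ?_, e1, fun g => ?_⟩, ⟨_, fun h => ?_, e2, fun g => ?_⟩⟩
  · rw [h] at e1
    norm_num at e1
  · rw [map_pow, hg]
    change _ = ((sn_NgKum (Multiplicative.ofAdd (e8 1 0 (cyc (Ω := Qb) 8 g))) : ℤ) : Qb) * _
    generalize zeta Qb 8 = z at h4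
    rcases hu (cyc 8 g) with h | h | h | h <;> rw [h.1, h.2.1] <;> push_cast
    · ring
    · linear_combination z ^ 2 * h4
    · linear_combination z ^ 2 * (z ^ 4 - 1) * h4
    · linear_combination z ^ 2 * (z ^ 8 - z ^ 4 + 1) * h4
  · rw [h] at e2
    norm_num at e2
  · rw [map_sub, map_pow, hg]
    change _ = ((sn_NgKum (Multiplicative.ofAdd (e8 0 1 (cyc (Ω := Qb) 8 g))) : ℤ) : Qb) * _
    generalize zeta Qb 8 = z at h4
    rcases hu (cyc 8 g) with h | h | h | h <;> rw [h.1, h.2.2] <;> push_cast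
    · ring
    · linear_combination z * (1 - z ^ 4) * h4
    · linear_combination (z - z ^ 3 * (z ^ 8 - z ^ 4 + 1)) * h4
    · linear_combination (z ^ 3 - z * (z ^ 16 - z ^ 12 + z ^ 8 - z ^ 4 + 1)) * h4

theorem two_NgKum (α β : ZMod 2) : K_NgKum ((-1) ^ α.val * 2 ^ β.val) (x2 α β) := by
  have h0 : x2 0 0 = 1 := by
    ext g
    simp [x2, e8]
  have h1 : x2 α β = x2 α 0 * x2 0 β := by
    ext g
    simp [x2, e8]
  have hz : ∀ a : ZMod 2, a = 0 ∧ a.val = 0 ∨ a = 1 ∧ a.val = 1 := by decide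
  rw [h1]
  refine mul_NgKum ?_ ?_
  · rcases hz α with h | h <;> rw [h.2, h.1]
    · rw [h0, pow_zero]
      exact one_NgKum
    · rw [pow_one]
      exact eight_NgKum.1
  · rcases hz β with h | h <;> rw [h.2, h.1]
    · rw [h0, pow_zero]
      exact one_NgKum
    · rw [pow_one]
      exact eight_NgKum.2

theorem odd_NgKum {l : ℕ} (hl : Zk.P1 2 l) : ∃ s : ℤ, (s = l ∨ s = -l) ∧ K_NgKum s (ch 2 l) := by
  have : Fact l.Prime := ⟨hl.1⟩
  have hl2 : ringChar (ZMod l) ≠ 2 := by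
    rw [ZMod.ringChar_zmod_n]
    exact ne_ZmCh hl
  set χ := (quadraticChar (ZMod l)).ringHomComp (Int.castRingHom Qb) with hχ
  have hχv : ∀ x, χ x = (quadraticChar (ZMod l) x : ℤ) := fun x => rfl
  have hζ : zeta Qb l ^ l = 1 := (zeta_spec l).pow_eq_one
  set ψ := AddChar.zmodChar l hζ with hψ
  have h1 : gaussSum χ ψ ^ 2 = χ (-1) * Fintype.card (ZMod l) :=
    gaussSum_sq ((MulChar.ringHomComp_ne_one_iff Int.cast_injective).2 (quadraticChar_ne_one hl2))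
      ((quadraticChar_isQuadratic _).comp _)
      (AddChar.zmodChar_primitive_of_primitive_root l (zeta_spec l))
  rw [ZMod.card, hχv] at h1
  have hd := quadraticChar_dichotomy (F := ZMod l) (a := -1) (neg_ne_zero.2 one_ne_zero)
  have h2 : gaussSum χ ψ ^ 2 = ((quadraticChar (ZMod l) (-1) * l : ℤ) : Qb) := by
    rw [h1]
    push_cast
    rfl
  refine ⟨_, ?_, gaussSum χ ψ, fun h => ?_, h2, fun g => ?_⟩
  · rcases hd with h | h <;> rw [h] <;> simp
  · rw [h, zero_pow two_ne_zero, eq_comm, Int.cast_eq_zero, mul_eq_zero] at h2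
    rcases h2 with h2 | h2
    · rcases hd with h | h <;> rw [h] at h2 <;> simp at h2
    · exact hl.1.ne_zero (by exact_mod_cast h2)
  have h3 : g (gaussSum χ ψ) = gaussSum χ (ψ.mulShift (cyc l g : ZMod l)) := by
    rw [gaussSum, gaussSum, map_sum]
    refine Finset.sum_congr rfl fun x _ => ?_
    have h4 : ψ x ^ l = 1 := by
      rw [hψ, AddChar.zmodChar_apply, ← pow_mul, mul_comm, pow_mul, hζ, one_pow]
    rw [map_mul, hχv, map_intCast, cyc_spec l g h4, AddChar.mulShift_apply,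
      ← AddChar.map_nsmul_eq_pow, nsmul_eq_mul, ZMod.natCast_zmod_val]
  have h5 := gaussSum_mulShift χ ψ (cyc l g)
  rw [← h3, hχv] at h5
  have h6 := (ch_ZsQr hl g).trans (quadraticChar_one_iff_isSquare (cyc l g).ne_zero).symm
  rw [toAdd_eq_zero] at h6
  rw [sn_NgKum]
  by_cases e : ch 2 l g = 1
  · rw [h6.1 e] at h5
    rw [if_pos e]
    push_cast at h5 ⊢
    linear_combination h5
  · rw [(quadraticChar_dichotomy (cyc l g).ne_zero).resolve_left fun h => e (h6.2 h)] at h5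
    rw [if_neg e]
    push_cast at h5 ⊢
    linear_combination -h5

theorem prod_NgKum (S : Finset ℕ) (hS : ∀ l ∈ S, Zk.P1 2 l) :
    ∃ s : ℤ, (s = (∏ l ∈ S, l : ℕ) ∨ s = -(∏ l ∈ S, l : ℕ)) ∧ K_NgKum s (∏ l ∈ S, ch 2 l) := by
  induction S using Finset.induction_on with
  | empty => exact ⟨1, Or.inl (by simp), one_NgKum⟩
  | insert a S ha ih =>
    obtain ⟨s, h1, h2⟩ := ih fun l hl => hS l (mem_insert_of_mem hl)
    obtain ⟨t, k1, k2⟩ := odd_NgKum (hS a (mem_insert_self a S))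
    rw [prod_insert ha, prod_insert ha]
    refine ⟨t * s, ?_, mul_NgKum k2 h2⟩
    rw [Nat.cast_mul]
    rcases h1 with rfl | rfl <;> rcases k1 with rfl | rfl <;> simp

theorem p1_NgKum {n : ℕ} (hn : Odd n) : ∀ l ∈ n.primeFactors, Zk.P1 2 l := fun _ hl =>
  ⟨Nat.prime_of_mem_primeFactors hl,
    Nat.odd_iff.1 (hn.of_dvd_nat (Nat.dvd_of_mem_primeFactors hl))⟩

theorem kumM (hL : LocM) : KumM := by
  refine ⟨fun α β n ho hs h1 => ?_, ?_, fun n ho hs => ?_⟩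
  · have h2 := (hL α β).1 2 Nat.prime_two
    rw [cx, if_pos rfl] at h2
    have hp := p1_NgKum ho
    constructor
    · refine Subgroup.isOpen_of_mem_nhds _ (g := 1) ?_
      have h3 : ∀ᶠ g in 𝓝 (1 : GQ), ∀ l ∈ n.primeFactors, g ∈ (ch 2 l).ker :=
        (Filter.eventually_all_finset _).2 fun l hl => nhds_ZmCh (hp l hl)
      filter_upwards [h2.1, h3] with g k1 k2
      rw [SetLike.mem_coe, MonoidHom.mem_ker] at k1 ⊢
      rw [MonoidHom.mul_apply, k1, one_mul, chn, MonoidHom.finsetProd_apply]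
      exact prod_eq_one k2
    · obtain ⟨l, hl⟩ := Nat.nonempty_primeFactors.2
        (show 1 < n by have := ho.pos; omega)
      obtain ⟨P, hP, hlP⟩ := exists_maximal_mem (Ω := Qb) (hp l hl).1
      obtain ⟨τ, k1, k2⟩ := tau_ZmCh (hp l hl) hP hlP
      refine ⟨τ, ?_⟩
      rw [MonoidHom.mul_apply,
        h2.2 P hP (nm_ZmCh (hp l hl).1 Nat.prime_two (ne_ZmCh (hp l hl)).symm hP hlP) τ k1,
        one_mul, chn, MonoidHom.finsetProd_apply, prod_eq_single_of_mem l hl fun m hm hml =>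
          unr_ZmCh (hp m hm) (nm_ZmCh (hp l hl).1 (hp m hm).1 hml hP hlP) k1]
      intro h
      rw [h] at k2
      exact absurd k2 (by decide)
  · ext g
    simp [x2, e8]
  · obtain ⟨s, h1, h2⟩ := prod_NgKum _ (p1_NgKum ho)
    rw [Nat.prod_primeFactors_of_squarefree hs] at h1
    exact ⟨s, h1, fun α β => km_NgKum (mul_NgKum (two_NgKum α β) h2)⟩

end Pool.Agent.MP_f68ac8_nt.Nd

end

section

namespace Pool.Agent.MP_f68ac8_nt.Nd

open Zq Ev Pv Sv Zv Zk NumberField Finset Filter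
open scoped Topology BigOperators commutatorElement

section
variable {Λ : Finset ℕ} {d : ℕ}

theorem ovc_NgOsc (q : Fin d → Λ) (i : Fin d) : (ov ∘ ext q) i.castSucc = q i := by
  simp [ov, ext]

theorem ovl_NgOsc (q : Fin d → Λ) : (ov ∘ ext q) (Fin.last d) = 2 := by
  simp [ov, ext]

theorem ne_two_NgOsc (hΛ : ∀ l ∈ Λ, l.Prime ∧ Odd l) (u : Λ) : (u : ℕ) ≠ 2 := fun h => by
  have h1 := (hΛ u u.2).2
  rw [h] at h1
  exact absurd h1 (by decide)

theorem cc_NgOsc (hΛ : ∀ l ∈ Λ, l.Prime ∧ Odd l) (α : ZMod 2) (q : Fin d → Λ) (i j : Fin d) :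
    lkx α 1 q i.castSucc j.castSucc = lk2 (vl q) i j := by
  unfold lkx lk3 lk2
  rw [ovc_NgOsc, ovc_NgOsc]
  by_cases h : i = j
  · rw [if_pos (congrArg _ h), if_pos h, ex, if_neg (ne_two_NgOsc hΛ _), vl]
  · rw [if_neg fun e => h (Fin.castSucc_injective _ e), if_neg h, lx,
      if_neg (ne_two_NgOsc hΛ _), vl, vl]

theorem cl_NgOsc (α : ZMod 2) (q : Fin d → Λ) (i : Fin d) :
    lkx α 1 q i.castSucc (Fin.last d) = α * Zq.eps (q i) + lk 2 2 (q i) := by
  unfold lkx lk3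
  rw [ovc_NgOsc, ovl_NgOsc, if_neg (Fin.castSucc_ne_last i), lx, if_pos rfl, one_mul]

theorem lc_NgOsc (hΛ : ∀ l ∈ Λ, l.Prime ∧ Odd l) (α : ZMod 2) (q : Fin d → Λ) (j : Fin d) :
    lkx α 1 q (Fin.last d) j.castSucc = lk 2 2 (q j) := by
  unfold lkx lk3
  rw [ovc_NgOsc, ovl_NgOsc, if_neg (Fin.castSucc_ne_last j).symm, lx,
    if_neg (ne_two_NgOsc hΛ _)]

theorem ll_NgOsc (α : ZMod 2) (q : Fin d → Λ) : lkx α 1 q (Fin.last d) (Fin.last d) = α := by
  unfold lkx lk3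
  rw [ovl_NgOsc, if_pos rfl, ex, if_pos rfl]

theorem rcp_NgOsc (hQ : QrStmt) (hΛ : ∀ l ∈ Λ, l.Prime ∧ Odd l) (α : ZMod 2) (q : Fin d → Λ)
    (hq : Function.Injective q) : Rcp (lkx α 1 q) := by
  have hP : ∀ j, Zk.P1 2 (vl q j) := fun j =>
    ⟨(hΛ _ (q j).2).1, Nat.odd_iff.1 (hΛ _ (q j).2).2⟩
  have h2 : ∀ x y z : ZMod 2, y = x * z + y + z * x := by decide
  intro i j hij
  induction i using Fin.lastCases with
  | last =>
    induction j using Fin.lastCases with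
    | last => exact absurd rfl hij
    | cast j =>
      rw [cl_NgOsc, lc_NgOsc hΛ, ll_NgOsc, cc_NgOsc hΛ, lk2, if_pos rfl, vl, add_comm]
  | cast i =>
    induction j using Fin.lastCases with
    | last =>
      rw [cl_NgOsc, lc_NgOsc hΛ, ll_NgOsc, cc_NgOsc hΛ, lk2, if_pos rfl, vl]
      exact h2 _ _ _
    | cast j =>
      have hij' : i ≠ j := fun e => hij (congrArg _ e)
      simp only [cc_NgOsc hΛ, lk2, if_true, if_neg hij', if_neg hij'.symm]
      rw [hQ.1 _ _ (hP j) (hP i) fun e => hij' (hq (Subtype.ext e.symm)), mul_comm]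

theorem off_NgOsc (hΛ : ∀ l ∈ Λ, l.Prime ∧ Odd l) (α : ZMod 2) (i : Fin d) {h : Mx (d + 1) → ℝ}
    (ho : Off i.castSucc h) (q : Fin d → Λ) (u : Λ) :
    h (lkx α 1 (Function.update q i u)) = h (lkx α 1 q) := by
  refine ho _ _ fun j k hj hk => ?_
  induction j using Fin.lastCases with
  | last =>
    induction k using Fin.lastCases with
    | last => rw [ll_NgOsc, ll_NgOsc]
    | cast k =>
      have hk' : k ≠ i := fun e => hk (congrArg _ e)
      rw [lc_NgOsc hΛ, lc_NgOsc hΛ, Function.update_of_ne hk']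
  | cast j =>
    have hj' : j ≠ i := fun e => hj (congrArg _ e)
    induction k using Fin.lastCases with
    | last => rw [cl_NgOsc, cl_NgOsc, Function.update_of_ne hj']
    | cast k =>
      have hk' : k ≠ i := fun e => hk (congrArg _ e)
      simp only [cc_NgOsc hΛ, lk2, vl, Function.update_of_ne hj', Function.update_of_ne hk']

theorem row_NgOsc (hΛ : ∀ l ∈ Λ, l.Prime ∧ Odd l) (α : ZMod 2) (i : Fin d)
    (a : Fin (d + 1) → ZMod 2) (q : Fin d → Λ) :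
    ∑ j, a j * lkx α 1 q i.castSucc j =
      (a i.castSucc + a (Fin.last d) * α) * Zq.eps (q i) +
        ∑ k ∈ univ.erase i, a k.castSucc * lk 2 (q i) (q k) + a (Fin.last d) * lk 2 2 (q i) := by
  have e : ∑ k ∈ univ.erase i, a k.castSucc * lkx α 1 q i.castSucc k.castSucc =
      ∑ k ∈ univ.erase i, a k.castSucc * lk 2 (q i) (q k) := sum_congr rfl fun k hk => by
    rw [cc_NgOsc hΛ, lk2, if_neg (ne_of_mem_erase hk).symm, vl, vl]
  rw [Fin.sum_univ_castSucc, ← add_sum_erase univ _ (mem_univ i), e, cl_NgOsc, cc_NgOsc hΛ, lk2,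
    if_pos rfl, vl]
  ring

open Classical in
theorem nux_NgOsc (α : ZMod 2) (w : Fin d → Λ → ℝ) (c y : ℝ) (f : Mx (d + 1) → ℝ) :
    ∑ r, nux α w c y r * f r = Ex (U := fun _ => Λ) w fun q =>
      if Function.Injective q then kap c y q * f (lkx α 1 q) else 0 := by
  unfold nux Ex
  simp only [Finset.sum_mul]
  rw [Finset.sum_comm]
  refine Finset.sum_congr rfl fun q _ => ?_
  simp only [smul_eq_mul, mul_assoc]
  rw [← Finset.mul_sum]
  refine congrArg _ ?_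
  by_cases hq : Function.Injective q
  · rw [if_pos hq, Finset.sum_eq_single (lkx α 1 q)]
    · rw [if_pos ⟨hq, rfl⟩]
    · intro r' _ hr
      rw [if_neg fun e => hr e.2.symm, zero_mul]
    · intro hn
      exact absurd (Finset.mem_univ _) hn
  · rw [if_neg hq]
    refine Finset.sum_eq_zero fun r' _ => ?_
    rw [if_neg fun e => hq e.1, zero_mul]

open Classical in
/-- the test function -/
noncomputable def Ft_NgOsc (i : Fin d) (b b' : ZMod 2) (a : Fin d → ZMod 2)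
    (H : (Fin d → Λ) → ℝ) (q : Fin d → Λ) : ℂ :=
  if Function.Injective q then ((H q * Zq.sg (b * Zq.eps (q i) +
    ∑ k ∈ univ.erase i, a k * lk 2 (q i) (q k) + b' * lk 2 2 (q i)) : ℝ) : ℂ) else 0

open Classical in
/-- the factor that does not depend on the index `i` -/
noncomputable def ga_NgOsc (τ : ℝ) (i : Fin d) (H : (Fin d → Λ) → ℝ) (q : Fin d → Λ) : ℂ :=
  (∏ k ∈ univ.erase i, tw τ (q k)) * if Ij_NdOsc i q then (H q : ℂ) else 0

/-- the factor that depends on the index `i` -/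
noncomputable def rh_NgOsc (τ : ℝ) (b b' : ZMod 2) (a : Fin d → ZMod 2) (S : Finset (Fin d))
    (q : Fin d → Λ) (u : Λ) : ℂ :=
  rh_NdOsc τ b a S q u * Zq.sg (b' * lk 2 2 u)

theorem norm_ga_NgOsc (τ : ℝ) (i : Fin d) {H : (Fin d → Λ) → ℝ} (hh : ∀ r, |H r| ≤ 1)
    (q : Fin d → Λ) : ‖ga_NgOsc τ i H q‖ ≤ 1 := by
  unfold ga_NgOsc
  rw [norm_mul, norm_prod, prod_eq_one fun k _ => norm_tw_NdOsc τ _, one_mul]
  split_ifs
  · rw [Complex.norm_real]
    exact hh _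
  · simp

theorem norm_rh_NgOsc (τ : ℝ) (b b' : ZMod 2) (a : Fin d → ZMod 2) (S : Finset (Fin d))
    (q : Fin d → Λ) (u : Λ) : ‖rh_NgOsc τ b b' a S q u‖ ≤ 1 := by
  rw [rh_NgOsc, norm_mul, norm_sg_NdOsc, mul_one]
  exact norm_rh_NdOsc _ _ _ _ _ _

theorem factor_NgOsc (τ : ℝ) (i : Fin d) (b b' : ZMod 2) (a : Fin d → ZMod 2)
    {H : (Fin d → Λ) → ℝ} (hh : ∀ q u, H (Function.update q i u) = H q)
    (q : Fin d → Λ) (u : Λ) :
    (∏ j, tw τ (Function.update q i u j)) * Ft_NgOsc i b b' a H (Function.update q i u) =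
      ga_NgOsc τ i H q * rh_NgOsc τ b b' a (univ.erase i) q u := by
  have e1 : ∏ j, tw τ (Function.update q i u j) = tw τ u * ∏ k ∈ univ.erase i, tw τ (q k) := by
    rw [← mul_prod_erase univ _ (mem_univ i), Function.update_self]
    exact congrArg _ (prod_congr rfl fun k hk => by
      rw [Function.update_of_ne (ne_of_mem_erase hk)])
  have e3 : ∑ k ∈ univ.erase i, a k * lk 2 u (Function.update q i u k) =
      ∑ k ∈ univ.erase i, a k * lk 2 u (q k) := sum_congr rfl fun k hk => by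
    rw [Function.update_of_ne (ne_of_mem_erase hk)]
  have e4 : (∀ k ∈ univ.erase i, q k ≠ u) ↔ ∀ k, k ≠ i → q k ≠ u := by simp
  unfold Ft_NgOsc ga_NgOsc rh_NgOsc rh_NdOsc
  rw [e1, hh, Function.update_self, e3]
  by_cases h1 : Ij_NdOsc i q
  · by_cases h2 : ∀ k, k ≠ i → q k ≠ u
    · rw [if_pos ((inj_update_NdOsc i q u).2 ⟨h1, h2⟩), if_pos h1, if_pos (e4.2 h2),
        sg_add_NdOsc _ (b' * _)]
      push_cast
      ring
    · rw [if_neg fun h3 => h2 ((inj_update_NdOsc i q u).1 h3).2, if_neg fun h3 => h2 (e4.1 h3),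
        mul_zero, zero_mul, mul_zero]
  · rw [if_neg fun h3 => h1 ((inj_update_NdOsc i q u).1 h3).1, if_neg h1, mul_zero, mul_zero,
      zero_mul]

theorem jac_NgOsc (hJ : JacN) (hΛ : ∀ l ∈ Λ, l.Prime ∧ Odd l) (τ : ℝ) (b b' : ZMod 2)
    (a : Fin d → ZMod 2) (S : Finset (Fin d)) (j : Fin d) (hj : j ∈ S) (ha : a j = 1)
    (q : Fin d → Λ) (u v : Λ) :
    rh_NgOsc τ b b' a S (Function.update q j v) u =
      rh_NgOsc τ b b' a (S.erase j) q u * (jacobiSym (u : ℕ) v : ℤ) := by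
  rw [rh_NgOsc, rh_NgOsc, jac_NdOsc hJ hΛ τ b a S j hj ha]
  ring

end

theorem tiny_NgOsc (hY : TinyM) {p : Par} {c : ℝ} {n r : ℕ} {D η : ℝ} (hp : p.Ok c n r D η)
    (hη : 0 ≤ η) {d : ℕ} (hd : (d : ℝ) ≤ D) {τ : ℝ} (hτ : |τ| ≤ c) (i : Fin d) (b b' : ZMod 2)
    (a : Fin d → ZMod 2) (ha : (∃ k, k ≠ i ∧ a k = 1) ∨ b ≠ 0 ∨ b' ≠ 0) (q : Fin d → p.Λ)
    (hq : Ij_NdOsc i q) (hti : ∀ k, k ≠ i → a k = 1 → (q k).1 ∈ p.ti) (ω : p.Λ → ℝ)
    (hω : ∀ u, ω u = p.W 3 u / ms p.Λ p.W 3) (hω' : ∀ u, ω u ≤ η) :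
    ‖∑ u, ω u • rh_NgOsc τ b b' a (univ.erase i) q u‖ ≤ (d + 1) * η := by
  classical
  have hms : 1 ≤ ms p.Λ p.W 3 := hp.one 3 (by decide)
  have hω0 : ∀ u, 0 ≤ ω u := fun u => by
    rw [hω]
    exact div_nonneg (hp.nn 3 u) (by linarith)
  set T := (univ.erase i).filter fun k => a k = 1 with hT
  have hT' : ∀ k, k ∈ T ↔ k ≠ i ∧ a k = 1 := fun k => by simp [hT]
  have e1 : ∀ u : ℕ, ∑ k ∈ univ.erase i, a k * lk 2 u (q k) = ∑ m ∈ T.image (vl q), lk 2 u m := by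
    intro u
    rw [sum_image (g := vl q) fun k hk l hl e =>
      hq k l ((hT' k).1 hk).1 ((hT' l).1 hl).1 (Subtype.ext e), hT, sum_filter]
    refine sum_congr rfl fun k _ => ?_
    split_ifs with hk
    · rw [hk, one_mul, vl]
    · rw [two_NdOsc _ hk, zero_mul]
  have h1 := hY p c n r D η hp τ hτ (T.image (vl q)) (fun m hm => by
      obtain ⟨k, hk, rfl⟩ := mem_image.1 hm
      exact hti k ((hT' k).1 hk).1 ((hT' k).1 hk).2)
    (le_trans (by
      exact_mod_cast card_image_le.trans ((card_le_univ T).trans (Fintype.card_fin d).le)) hd)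
    b b' (ha.imp_left fun ⟨k, hk⟩ => ⟨_, mem_image_of_mem _ ((hT' k).2 hk)⟩)
  set φ : ℕ → ℂ := fun l => tw τ l *
    Zq.sg (b * Zq.eps l + b' * lk 2 2 l + ∑ m ∈ T.image (vl q), lk 2 l m) with hφ
  have hφ1 : ∀ l, ‖φ l‖ = 1 := fun l => by
    rw [hφ, norm_mul, norm_tw_NdOsc, norm_sg_NdOsc, one_mul]
  have h2 : ‖∑ u : p.Λ, ω u • φ u‖ ≤ η := by
    have e2 : ∑ u : p.Λ, ω u • φ u = (ms p.Λ p.W 3)⁻¹ • ∑ l ∈ p.Λ, (p.W 3 l : ℂ) * tw τ l *
        Zq.sg (b * Zq.eps l + b' * lk 2 2 l + ∑ m ∈ T.image (vl q), lk 2 l m) := by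
      rw [← sum_coe_sort p.Λ, smul_sum]
      refine sum_congr rfl fun u _ => ?_
      rw [hω, div_eq_inv_mul, mul_smul, mul_assoc, Complex.real_smul (x := p.W 3 u)]
    rw [e2, norm_smul, Real.norm_of_nonneg (inv_nonneg.2 (by linarith))]
    exact (mul_le_mul (inv_le_one_of_one_le₀ hms) h1 (norm_nonneg _) zero_le_one).trans
      (one_mul η).le
  have h3 : ‖∑ u : p.Λ, ω u • (rh_NgOsc τ b b' a (univ.erase i) q u - φ u)‖ ≤ d * η := by
    refine (norm_sum_le _ _).trans ?_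
    have h4 : ∀ u : p.Λ, ‖ω u • (rh_NgOsc τ b b' a (univ.erase i) q u - φ u)‖ ≤
        if u ∈ univ.image q then η else 0 := by
      intro u
      unfold rh_NgOsc rh_NdOsc
      by_cases h5 : ∀ k ∈ univ.erase i, q k ≠ u
      · have e5 : tw τ u * Zq.sg (b * Zq.eps u + ∑ m ∈ T.image (vl q), lk 2 u m) *
            Zq.sg (b' * lk 2 2 u) = φ u := by
          rw [hφ]
          beta_reduce
          rw [add_right_comm, sg_add_NdOsc _ (b' * _)]
          push_cast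
          ring
        rw [if_pos h5, e1, e5, sub_self, smul_zero, norm_zero]
        split_ifs
        · exact hη
        · exact le_rfl
      · rw [if_neg h5, zero_mul, zero_sub, norm_smul, norm_neg, hφ1, mul_one,
          Real.norm_of_nonneg (hω0 u), if_pos]
        · exact hω' u
        · push Not at h5
          obtain ⟨k, -, hk⟩ := h5
          exact mem_image.2 ⟨k, mem_univ k, hk⟩
    refine (sum_le_sum fun u _ => h4 u).trans ?_
    rw [sum_ite_mem, univ_inter, sum_const, nsmul_eq_mul]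
    refine mul_le_mul_of_nonneg_right ?_ hη
    exact_mod_cast card_image_le.trans (by simp)
  have e3 : ∑ u, ω u • rh_NgOsc τ b b' a (univ.erase i) q u =
      ∑ u : p.Λ, ω u • (rh_NgOsc τ b b' a (univ.erase i) q u - φ u) +
        ∑ u : p.Λ, ω u • φ u := by
    rw [← sum_add_distrib]
    exact sum_congr rfl fun u _ => by rw [← smul_add, sub_add_cancel]
  rw [e3]
  refine (norm_add_le _ _).trans ?_
  linarith

theorem twist_NgOsc (hJ : JacN) (hY : TinyM) (hW : WmN) {p : Par} {c : ℝ} {n r : ℕ} {D η : ℝ}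
    (hp : p.Ok c n r D η) {d : ℕ} (μ : Fin d → Fin 4) (hd : (d : ℝ) ≤ D) (i : Fin d)
    (hi : μ i = 3) (b b' : ZMod 2) (a : Fin d → ZMod 2)
    (ha : (∃ k, k ≠ i ∧ a k = 1) ∨ b ≠ 0 ∨ b' ≠ 0) {H : (Fin d → p.Λ) → ℝ} (hh : ∀ r, |H r| ≤ 1)
    (ho : ∀ q u, H (Function.update q i u) = H q) {τ : ℝ} (hτ : |τ| ≤ c) :
    ‖Ex (U := fun _ => p.Λ) (wm p.Λ p.W μ) fun q =>
      (∏ j, tw τ (q j)) * Ft_NgOsc i b b' a H q‖ ≤ (d + 1) * η := by
  obtain ⟨hη, hW⟩ := hW p c n r D η hp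
  obtain ⟨hw, -, hle, hti, -⟩ := hW d μ
  have hi0 : μ i ≠ 0 := by
    rw [hi]
    decide
  have e1 : (Ex (U := fun _ => p.Λ) (wm p.Λ p.W μ) fun q =>
      (∏ j, tw τ (q j)) * Ft_NgOsc i b b' a H q) =
        Ex (U := fun _ => p.Λ) (wm p.Λ p.W μ) fun q =>
        ga_NgOsc τ i H q * ∑ u, wm p.Λ p.W μ i u • rh_NgOsc τ b b' a (univ.erase i) q u := by
    rw [resample_ZaGcs hw i]
    refine congrArg _ (funext fun q => ?_)
    rw [mul_sum]
    exact sum_congr rfl fun u _ => by rw [factor_NgOsc τ i b b' a ho, mul_smul_comm]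
  rw [e1]
  by_cases hA : ∃ j, j ≠ i ∧ a j = 1 ∧ μ j ≠ 0
  · obtain ⟨j, hji, haj, hj0⟩ := hA
    rw [resample_ZaGcs hw j]
    refine ex_le_NdOsc hw _ _ fun q _ => ?_
    have h1 := bil_NdOsc hp (μ i) (μ j) hi0 hj0
      (fun u => wm p.Λ p.W μ i u • rh_NgOsc τ b b' a ((univ.erase i).erase j) q u)
      (fun v => wm p.Λ p.W μ j v • ga_NgOsc τ i H (Function.update q j v))
      (fun u => by
        rw [norm_smul, Real.norm_of_nonneg (hw.1 i u)]
        exact (mul_le_of_le_one_right (hw.1 i u) (norm_rh_NgOsc _ _ _ _ _ _ _)).trans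
          (hle i u hi0).1)
      fun v => by
        rw [norm_smul, Real.norm_of_nonneg (hw.1 j v)]
        exact (mul_le_of_le_one_right (hw.1 j v) (norm_ga_NgOsc _ _ hh _)).trans (hle j v hj0).1
    rw [sum_comm] at h1
    refine le_trans (le_trans (le_of_eq (congrArg _ (sum_congr rfl fun v _ => ?_))) h1) ?_
    · rw [mul_sum, smul_sum]
      refine sum_congr rfl fun u _ => ?_
      rw [jac_NgOsc hJ hp.pri τ b b' a _ j (mem_erase.2 ⟨hji, mem_univ j⟩) haj]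
      simp only [Complex.real_smul]
      ring
    · nlinarith [mul_nonneg (Nat.cast_nonneg (α := ℝ) d) hη]
  · refine ex_le_NdOsc hw _ _ fun q hq => ?_
    by_cases hI : Ij_NdOsc i q
    · rw [norm_mul]
      refine (mul_le_of_le_one_left (norm_nonneg _) (norm_ga_NgOsc τ i hh q)).trans ?_
      refine tiny_NgOsc hY hp hη hd hτ i b b' a ha q hI (fun k hk hak => (hti k _ (hq k)).1 ?_) _
        (fun u => by rw [wm, hi]) fun u => (hle i u hi0).2
      by_contra h1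
      exact hA ⟨k, hk, hak, h1⟩
    · rw [ga_NgOsc, if_neg hI, mul_zero, zero_mul, norm_zero]
      positivity

theorem oscM (hQ : QrStmt) (hJ : JacN) (hY : TinyM) (hT : TwN) (hW : WmN) : OscM := by
  intro α p c n r D η hc hp y d μ hd
  obtain ⟨hη, hW'⟩ := hW p c n r D η hp
  obtain ⟨hw, -, -, -, -⟩ := hW' d μ
  obtain ⟨hk, hT⟩ := hT c hc p.Λ (fun l hl => (hp.pri l hl).1) d (wm p.Λ p.W μ) y
  refine ⟨by positivity, fun r => ?_, fun r hr => ?_, fun i hi a ha h hh ho => ?_⟩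
  · refine sum_nonneg fun q _ => smul_nonneg (wt_nonneg_ZaGcs hw q) ?_
    dsimp only
    split_ifs
    · exact hk.1 q
    · exact le_rfl
  · obtain ⟨q, -, hq⟩ := exists_ne_zero_of_sum_ne_zero hr
    have h1 : Function.Injective q ∧ lkx α 1 q = r := by
      by_contra h2
      exact hq (by beta_reduce; rw [if_neg h2, smul_zero])
    obtain ⟨h2, rfl⟩ := h1
    exact rcp_NgOsc hQ hp.pri α q h2
  · obtain ⟨i, hi', rfl⟩ := mem_map.1 hi
    change |∑ r, _ * (h r * Zq.sg (∑ j, a j * r i.castSucc j))| ≤ _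
    have ha' : (∃ k, k ≠ i ∧ a k.castSucc = 1) ∨ a i.castSucc + a (Fin.last d) * α ≠ 0 ∨
        a (Fin.last d) ≠ 0 := by
      by_contra h1
      push Not at h1
      obtain ⟨h1, h2, h3⟩ := h1
      rw [h3, zero_mul, add_zero] at h2
      refine ha (funext fun k => ?_)
      induction k using Fin.lastCases with
      | last => exact h3
      | cast k =>
        by_cases hk : k = i
        · rw [hk]
          exact h2
        · exact two_NdOsc _ (h1 k hk)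
    rw [nux_NgOsc α _ c y fun r => h r * Zq.sg (∑ j, a j * r i.castSucc j), ← Real.norm_eq_abs,
      ← Complex.norm_real]
    refine le_trans (le_of_eq (congrArg _ ?_)) (hT (Ft_NgOsc i (a i.castSucc + a (Fin.last d) * α)
      (a (Fin.last d)) (fun k => a k.castSucc) fun q => h (lkx α 1 q)) _ fun τ hτ =>
      twist_NgOsc hJ hY hW hp μ hd i (mem_filter.1 hi').2 _ _ _ ha' (fun _ => hh _)
        (off_NgOsc hp.pri α i ho) hτ)
    unfold Ex
    rw [Complex.ofReal_sum]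
    refine sum_congr rfl fun q _ => ?_
    rw [smul_eq_mul, Complex.ofReal_mul, Complex.real_smul]
    refine congrArg _ ?_
    unfold Ft_NgOsc
    beta_reduce
    by_cases hq : Function.Injective q
    · rw [if_pos hq, if_pos hq, Complex.ofReal_mul, row_NgOsc hp.pri]
    · rw [if_neg hq, if_neg hq, mul_zero, Complex.ofReal_zero]

end Pool.Agent.MP_f68ac8_nt.Nd

end

section

namespace Pool.Agent.MP_f68ac8_nt.Nd
open Zq Ev Pv Sv Zv Zk NumberField Finset Filter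
open scoped Topology BigOperators commutatorElement

/-- the additive character -/
noncomputable def xa_NdTiny (R : Finset ℕ) (b : ZMod 2) (g : GQ) : ZMod 2 :=
  b * x4 g + ∑ m ∈ R, (ch 2 m g).toAdd

theorem add_NdTiny (R : Finset ℕ) (b : ZMod 2) (g h : GQ) :
    xa_NdTiny R b (g * h) = xa_NdTiny R b g + xa_NdTiny R b h := by
  simp only [xa_NdTiny, add_ZsCh, map_mul, toAdd_mul, Finset.sum_add_distrib]
  ring

/-- the multiplicative character -/
noncomputable def xm_NdTiny (R : Finset ℕ) (b : ZMod 2) : GQ →* Multiplicative (ZMod 2) :=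
  MonoidHom.mk' (fun g => Multiplicative.ofAdd (xa_NdTiny R b g)) fun g h => by
    rw [add_NdTiny, ofAdd_add]

theorem mem_NdTiny (R : Finset ℕ) (b : ZMod 2) (g : GQ) :
    g ∈ (xm_NdTiny R b).ker ↔ xa_NdTiny R b g = 0 := by
  rw [MonoidHom.mem_ker]
  exact ofAdd_eq_one

theorem sq_NdTiny (R : Finset ℕ) (b : ZMod 2) (g : GQ) : g ^ 2 ∈ (xm_NdTiny R b).ker := by
  rw [mem_NdTiny, pow_two, add_NdTiny]
  exact CharTwo.add_self_eq_zero _

theorem ad_NdTiny {R : Finset ℕ} (hR : ∀ m ∈ R, Zk.P1 2 m) (b : ZMod 2) :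
    Ad2 2 (insert 2 R) (xm_NdTiny R b).ker := by
  refine ⟨fun l hl => ?_, inferInstance, ?_, ?_, fun g => ⟨1, by simpa using sq_NdTiny R b g⟩,
    fun P hP hl g hg => ?_⟩
  · rcases Finset.mem_insert.1 hl with rfl | hl
    · exact Nat.prime_two
    · exact (hR l hl).1
  · have h1 : ∀ᶠ g in 𝓝 (1 : GQ), ∀ m ∈ R, ch 2 m g = 1 :=
      (Filter.eventually_all_finset R).2 fun m hm => nhds_ZmCh (hR m hm)
    filter_upwards [h1, cyc_nhds (Ω := Qb) 4] with g h1 h2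
    have h2' : cyc 4 g = 1 := h2
    rw [SetLike.mem_coe, mem_NdTiny, xa_NdTiny, x4, if_pos h2', mul_zero, zero_add]
    exact Finset.sum_eq_zero fun m hm => by rw [h1 m hm, toAdd_one]
  · rw [Subgroup.index_ker]
    refine ⟨Nat.card_pos.ne', ?_⟩
    have := Nat.card_le_card_of_injective _ (xm_NdTiny R b).range.subtype_injective
    simpa using this
  · have h2 : ((2 : ℕ) : OQ) ∉ P := hl 2 (Finset.mem_insert_self _ _)
    have h4 : ((4 : ℕ) : OQ) ∉ P := fun h => h2 (hP.isPrime.mem_of_pow_mem 2 (by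
      rw [← Nat.cast_pow]; exact h))
    rw [mem_NdTiny, xa_NdTiny, x4, if_pos (cyc_inertia h4 hg), mul_zero, zero_add]
    exact Finset.sum_eq_zero fun m hm => by
      rw [unr_ZmCh (hR m hm) (hl m (Finset.mem_insert_of_mem hm)) hg, toAdd_one]

theorem ex_NdTiny {R : Finset ℕ} (hR : ∀ m ∈ R, Zk.P1 2 m) {b : ZMod 2}
    (h : R.Nonempty ∨ b ≠ 0) : ∃ z, xa_NdTiny R b z = 1 := by
  rcases R.eq_empty_or_nonempty with rfl | ⟨m, hm⟩
  · have e0 : ∀ z : ZMod 2, z ≠ 0 → z = 1 := by decide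
    have hb : b = 1 := e0 b (h.resolve_left (by simp))
    obtain ⟨P, hP, hl⟩ := exists_maximal_mem (Ω := Qb) Nat.prime_three
    obtain ⟨σ, hσ⟩ := exists_frob P Nat.prime_three hl
    refine ⟨σ, ?_⟩
    rw [xa_NdTiny, frob_ZsCh ⟨Nat.prime_three, by decide⟩ hP hl hσ, Zq.eps, if_pos (by decide),
      hb, Finset.sum_empty, mul_one, add_zero]
  · obtain ⟨P, hP, hl⟩ := exists_maximal_mem (Ω := Qb) (hR m hm).1
    obtain ⟨τ, h1, h2⟩ := tau_ZmCh (hR m hm) hP hl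
    refine ⟨τ, ?_⟩
    rw [xa_NdTiny, x4, if_pos (cyc_inertia (four_ZsCh (hR m hm) hP hl) h1), mul_zero, zero_add,
      Finset.sum_eq_single_of_mem m hm fun m' hm' hne => by
        rw [unr_ZmCh (hR m' hm') (nm_ZmCh (hR m hm).1 (hR m' hm').1 hne hP hl) h1, toAdd_one], h2]

theorem tf_NdTiny {R : Finset ℕ} (hR : ∀ m ∈ R, Zk.P1 2 m) {b : ZMod 2}
    (h : R.Nonempty ∨ b ≠ 0) :
    Tf (xm_NdTiny R b).ker 2 fun g => ((Zq.sg (xa_NdTiny R b g) : ℝ) : ℂ) := by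
  refine ⟨two_pos, sq_NdTiny R b, fun g => ?_, fun n hn g => ?_, fun s g => ?_, ?_⟩
  · rw [Zq.sg]
    split_ifs <;> simp
  · rw [add_NdTiny, (mem_NdTiny R b n).1 hn, zero_add]
  · have h1 : xa_NdTiny R b 1 = 0 := (mem_NdTiny R b 1).1 (one_mem _)
    have h2 := add_NdTiny R b s s⁻¹
    rw [mul_inv_cancel, h1] at h2
    rw [add_NdTiny, add_NdTiny, add_right_comm, ← h2, zero_add]
  · obtain ⟨z, hz⟩ := ex_NdTiny hR h
    refine ⟨z, -1, by norm_num, fun g => ?_⟩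
    rw [add_NdTiny, hz]
    have e : ∀ x : ZMod 2, (x = 0 ∧ 1 + x ≠ 0) ∨ (x ≠ 0 ∧ 1 + x = 0) := by decide
    rcases e (xa_NdTiny R b g) with ⟨e1, e2⟩ | ⟨e1, e2⟩
    · rw [Zq.sg, Zq.sg, if_pos e1, if_neg e2]; simp
    · rw [Zq.sg, Zq.sg, if_neg e1, if_pos e2]; simp

theorem avg_NdTiny (φ : GQ → ℂ) (σ : GQ) : 𝔼 a : Exm 2, φ (σ ^ (a.1 : ℕ)) = φ σ := by
  have e : ∀ a : Exm 2, (a.1 : ℕ) = 1 := by decide
  simp only [e, pow_one]
  exact Finset.expect_const ⟨⟨1, by decide⟩, Finset.mem_univ _⟩ _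

theorem tinyN : TinyN := by
  intro p c n r D η hp τ hτ R hR hD b hb
  have hodd : ∀ l ∈ p.Λ, Zk.P1 2 l := fun l hl =>
    ⟨(hp.pri l hl).1, Nat.odd_iff.1 (hp.pri l hl).2⟩
  have hR1 : ∀ m ∈ R, Zk.P1 2 m := fun m hm => hodd m (Finset.mem_filter.1 (hR hm)).1
  have hex : ∀ l : ℕ, ∃ σ : GQ, l.Prime → Fr l σ := fun l => by
    by_cases hl : l.Prime
    · obtain ⟨P, hP, h⟩ := exists_maximal_mem (Ω := Qb) hl
      obtain ⟨σ, hσ⟩ := exists_frob P hl h
      exact ⟨σ, fun _ => ⟨P, hP, h, hσ⟩⟩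
    · exact ⟨1, fun h => absurd h hl⟩
  choose σ hσ using hex
  have key := hp.eqt R hR hD _ (ad_NdTiny hR1 b) τ hτ σ
    (fun l hl => hσ l (hp.pri l (Finset.mem_filter.1 hl).1).1) 2 _ (tf_NdTiny hR1 hb)
  refine le_of_eq_of_le (congrArg _ ?_) key
  rw [Par.lg, Finset.sum_filter]
  refine Finset.sum_congr rfl fun l hl => ?_
  have hW : p.W 3 l = if l ∈ p.lg then wl p.s p.h p.k l else 0 := rfl
  by_cases h : p.Y < l
  · have hl' : l ∈ p.lg := Finset.mem_filter.2 ⟨hl, h⟩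
    rw [if_pos h, hW, if_pos hl',
      avg_NdTiny (fun g => ((Zq.sg (xa_NdTiny R b g) : ℝ) : ℂ)) (σ l)]
    obtain ⟨P, hP, hlP, hf⟩ := hσ l (hodd l hl).1
    rw [xa_NdTiny, frob_ZsCh (hodd l hl) hP hlP hf, Finset.sum_congr rfl fun m hm =>
      lk_ZmCh (hodd l hl).1 (hR1 m hm) (fun e => ?_) hP hlP hf]
    have h1 := (Finset.mem_filter.1 (hR hm)).2
    rw [e] at h1
    linarith [hp.le]
  · have hl' : l ∉ p.lg := fun h' => h (Finset.mem_filter.1 h').2
    rw [if_neg h, hW, if_neg hl']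
    simp

end Pool.Agent.MP_f68ac8_nt.Nd

end

section

namespace Pool.Agent.MP_f68ac8_nt.Nd
open Zq Ev Pv Sv Zv Zk NumberField Finset Filter
open scoped Topology BigOperators commutatorElement

/-- the additive character -/
noncomputable def xa_NgTiny (R : Finset ℕ) (b b' : ZMod 2) (g : GQ) : ZMod 2 :=
  (x2 b b' g).toAdd + ∑ m ∈ R, (ch 2 m g).toAdd

theorem add_NgTiny (R : Finset ℕ) (b b' : ZMod 2) (g h : GQ) :
    xa_NgTiny R b b' (g * h) = xa_NgTiny R b b' g + xa_NgTiny R b b' h := by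
  simp only [xa_NgTiny, map_mul, toAdd_mul, Finset.sum_add_distrib]
  ring

/-- the multiplicative character -/
noncomputable def xm_NgTiny (R : Finset ℕ) (b b' : ZMod 2) : GQ →* Multiplicative (ZMod 2) :=
  MonoidHom.mk' (fun g => Multiplicative.ofAdd (xa_NgTiny R b b' g)) fun g h => by
    rw [add_NgTiny, ofAdd_add]

theorem mem_NgTiny (R : Finset ℕ) (b b' : ZMod 2) (g : GQ) :
    g ∈ (xm_NgTiny R b b').ker ↔ xa_NgTiny R b b' g = 0 := by
  rw [MonoidHom.mem_ker]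
  exact ofAdd_eq_one

theorem sq_NgTiny (R : Finset ℕ) (b b' : ZMod 2) (g : GQ) : g ^ 2 ∈ (xm_NgTiny R b b').ker := by
  rw [mem_NgTiny, pow_two, add_NgTiny]
  exact CharTwo.add_self_eq_zero _

theorem cx_NgTiny (b b' : ZMod 2) : cx b b' 2 = x2 b b' := if_pos rfl

theorem ad_NgTiny (hL : LocM) {R : Finset ℕ} (hR : ∀ m ∈ R, Zk.P1 2 m) (b b' : ZMod 2) :
    Ad2 2 (insert 2 R) (xm_NgTiny R b b').ker := by
  obtain ⟨hn, hu⟩ := (hL b b').1 2 Nat.prime_two
  rw [cx_NgTiny] at hn hu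
  refine ⟨fun l hl => ?_, inferInstance, ?_, ?_, fun g => ⟨1, by simpa using sq_NgTiny R b b' g⟩,
    fun P hP hl g hg => ?_⟩
  · rcases Finset.mem_insert.1 hl with rfl | hl
    · exact Nat.prime_two
    · exact (hR l hl).1
  · have h1 : ∀ᶠ g in 𝓝 (1 : GQ), ∀ m ∈ R, ch 2 m g = 1 :=
      (Filter.eventually_all_finset R).2 fun m hm => nhds_ZmCh (hR m hm)
    filter_upwards [h1, hn] with g h1 h2
    have h2' : x2 b b' g = 1 := h2
    rw [SetLike.mem_coe, mem_NgTiny, xa_NgTiny, h2', toAdd_one, zero_add]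
    exact Finset.sum_eq_zero fun m hm => by rw [h1 m hm, toAdd_one]
  · rw [Subgroup.index_ker]
    refine ⟨Nat.card_pos.ne', ?_⟩
    have := Nat.card_le_card_of_injective _ (xm_NgTiny R b b').range.subtype_injective
    simpa using this
  · have h2 : ((2 : ℕ) : OQ) ∉ P := hl 2 (Finset.mem_insert_self _ _)
    rw [mem_NgTiny, xa_NgTiny, hu P hP h2 g hg, toAdd_one, zero_add]
    exact Finset.sum_eq_zero fun m hm => by
      rw [unr_ZmCh (hR m hm) (hl m (Finset.mem_insert_of_mem hm)) hg, toAdd_one]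

theorem ne_NgTiny {m : ℕ} (h : Zk.P1 2 m) : m ≠ 2 := by
  rintro rfl
  exact absurd h.2 (by decide)

theorem ex_NgTiny (hL : LocM) {R : Finset ℕ} (hR : ∀ m ∈ R, Zk.P1 2 m) {b b' : ZMod 2}
    (h : R.Nonempty ∨ b ≠ 0 ∨ b' ≠ 0) : ∃ z, xa_NgTiny R b b' z = 1 := by
  rcases R.eq_empty_or_nonempty with rfl | ⟨m, hm⟩
  · have e0 : ∀ z : ZMod 2, z ≠ 0 → z = 1 := by decide
    obtain ⟨g, hg⟩ := ((hL b b').2.2.2 (h.resolve_left (by simp))).1
    refine ⟨g, ?_⟩
    rw [xa_NgTiny, Finset.sum_empty, add_zero]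
    exact e0 _ fun h0 => hg (toAdd_eq_zero.1 h0)
  · obtain ⟨P, hP, hl⟩ := exists_maximal_mem (Ω := Qb) (hR m hm).1
    obtain ⟨τ, h1, h2⟩ := tau_ZmCh (hR m hm) hP hl
    have hu := ((hL b b').1 2 Nat.prime_two).2 P hP
      (nm_ZmCh (hR m hm).1 Nat.prime_two (ne_NgTiny (hR m hm)).symm hP hl) τ h1
    rw [cx_NgTiny] at hu
    refine ⟨τ, ?_⟩
    rw [xa_NgTiny, hu, toAdd_one, zero_add,
      Finset.sum_eq_single_of_mem m hm fun m' hm' hne => by
        rw [unr_ZmCh (hR m' hm') (nm_ZmCh (hR m hm).1 (hR m' hm').1 hne hP hl) h1, toAdd_one], h2]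

theorem tf_NgTiny (hL : LocM) {R : Finset ℕ} (hR : ∀ m ∈ R, Zk.P1 2 m) {b b' : ZMod 2}
    (h : R.Nonempty ∨ b ≠ 0 ∨ b' ≠ 0) :
    Tf (xm_NgTiny R b b').ker 2 fun g => ((Zq.sg (xa_NgTiny R b b' g) : ℝ) : ℂ) := by
  refine ⟨two_pos, sq_NgTiny R b b', fun g => ?_, fun n hn g => ?_, fun s g => ?_, ?_⟩
  · rw [Zq.sg]
    split_ifs <;> simp
  · rw [add_NgTiny, (mem_NgTiny R b b' n).1 hn, zero_add]
  · have h1 : xa_NgTiny R b b' 1 = 0 := (mem_NgTiny R b b' 1).1 (one_mem _)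
    have h2 := add_NgTiny R b b' s s⁻¹
    rw [mul_inv_cancel, h1] at h2
    rw [add_NgTiny, add_NgTiny, add_right_comm, ← h2, zero_add]
  · obtain ⟨z, hz⟩ := ex_NgTiny hL hR h
    refine ⟨z, -1, by norm_num, fun g => ?_⟩
    rw [add_NgTiny, hz]
    have e : ∀ x : ZMod 2, (x = 0 ∧ 1 + x ≠ 0) ∨ (x ≠ 0 ∧ 1 + x = 0) := by decide
    rcases e (xa_NgTiny R b b' g) with ⟨e1, e2⟩ | ⟨e1, e2⟩
    · rw [Zq.sg, Zq.sg, if_pos e1, if_neg e2]; simp
    · rw [Zq.sg, Zq.sg, if_neg e1, if_pos e2]; simp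

theorem tinyM (hL : LocM) : TinyM := by
  intro p c n r D η hp τ hτ R hR hD b b' hb
  have hodd : ∀ l ∈ p.Λ, Zk.P1 2 l := fun l hl =>
    ⟨(hp.pri l hl).1, Nat.odd_iff.1 (hp.pri l hl).2⟩
  have hR1 : ∀ m ∈ R, Zk.P1 2 m := fun m hm => hodd m (Finset.mem_filter.1 (hR hm)).1
  have hex : ∀ l : ℕ, ∃ σ : GQ, l.Prime → Fr l σ := fun l => by
    by_cases hl : l.Prime
    · obtain ⟨P, hP, h⟩ := exists_maximal_mem (Ω := Qb) hl
      obtain ⟨σ, hσ⟩ := exists_frob P hl h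
      exact ⟨σ, fun _ => ⟨P, hP, h, hσ⟩⟩
    · exact ⟨1, fun h => absurd h hl⟩
  choose σ hσ using hex
  have key := hp.eqt R hR hD _ (ad_NgTiny hL hR1 b b') τ hτ σ
    (fun l hl => hσ l (hp.pri l (Finset.mem_filter.1 hl).1).1) 2 _ (tf_NgTiny hL hR1 hb)
  refine le_of_eq_of_le (congrArg _ ?_) key
  rw [Par.lg, Finset.sum_filter]
  refine Finset.sum_congr rfl fun l hl => ?_
  have hW : p.W 3 l = if l ∈ p.lg then wl p.s p.h p.k l else 0 := rfl
  by_cases h : p.Y < l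
  · have hl' : l ∈ p.lg := Finset.mem_filter.2 ⟨hl, h⟩
    rw [if_pos h, hW, if_pos hl',
      avg_NdTiny (fun g => ((Zq.sg (xa_NgTiny R b b' g) : ℝ) : ℂ)) (σ l)]
    have hx := (hL b b').2.1 l 2 (hodd l hl).1 Nat.prime_two (ne_NgTiny (hodd l hl)) (σ l)
      (hσ l (hodd l hl).1)
    rw [cx_NgTiny, lx, if_pos rfl] at hx
    obtain ⟨P, hP, hlP, hf⟩ := hσ l (hodd l hl).1
    rw [xa_NgTiny, hx, Finset.sum_congr rfl fun m hm =>
      lk_ZmCh (hodd l hl).1 (hR1 m hm) (fun e => ?_) hP hlP hf]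
    have h1 := (Finset.mem_filter.1 (hR hm)).2
    rw [e] at h1
    linarith [hp.le]
  · have hl' : l ∉ p.lg := fun h' => h (Finset.mem_filter.1 h').2
    rw [if_neg h, hW, if_neg hl']
    simp

end Pool.Agent.MP_f68ac8_nt.Nd

end

section

namespace Pool.Agent.MP_f68ac8_nt.Nd

open Zq Ev Pv Sv Zv Zk NumberField Finset Filter
open scoped Topology BigOperators commutatorElement

open Classical in
theorem sum_NgMat {Λ : Finset ℕ} {d : ℕ} (α : ZMod 2) (w : Fin d → Λ → ℝ) (c y : ℝ)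
    (f : Mx (d + 1) → ℝ) :
    ∑ r, nux α w c y r * f r = Ex (U := fun _ => Λ) w fun q =>
      if Function.Injective q then kap c y q * f (lkx α 1 q) else 0 := by
  simp only [nux, Ex, smul_eq_mul, sum_mul]
  rw [sum_comm]
  refine sum_congr rfl fun q _ => ?_
  rw [sum_eq_single (lkx α 1 q)]
  · by_cases h : Function.Injective q <;> simp [h, mul_assoc]
  · intro r _ hr
    simp [hr.symm]
  · simp

open Classical in
theorem core_NgMat (hT : TwN) (hW : WmN) (α : ZMod 2) (p : Par) (c : ℝ) (n r : ℕ) (D η : ℝ)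
    (hc : 0 < c) (hp : p.Ok c n r D η) (y : ℝ) (d : ℕ) (μ : Fin d → Fin 4)
    (f : Mx (d + 1) → ℝ) (a C : ℝ) (ha : 0 ≤ a) (hC : 1 ≤ C)
    (h : ∑ r, nux α (wm p.Λ p.W μ) c y r * f r ≤
      a * ∑ r, nux α (wm p.Λ p.W μ) c y r + C ^ (d + 1 + 1) * (((d : ℝ) + 1) * η)) :
    (Ex (U := fun _ => p.Λ) (wm p.Λ p.W μ) fun q =>
      if Function.Injective q then kap c y q * f (lkx α 1 q) else 0) ≤
      a * Ex (U := fun _ => p.Λ) (wm p.Λ p.W μ) (kap c y) + (2 * C ^ 2) ^ (d + 1) * η := by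
  obtain ⟨h0, h1⟩ := hW p c n r D η hp
  have hw := (h1 d μ).1.1
  have hk := (hT c hc p.Λ (fun l hl => (hp.pri l hl).1) d (wm p.Λ p.W μ) y).1.1
  rw [← sum_NgMat]
  refine h.trans (add_le_add (mul_le_mul_of_nonneg_left ?_ ha) ?_)
  · have := sum_NgMat α (wm p.Λ p.W μ) c y fun _ => 1
    simp only [mul_one] at this
    rw [this]
    refine sum_le_sum fun q _ => ?_
    simp only [smul_eq_mul]
    refine mul_le_mul_of_nonneg_left ?_ (prod_nonneg fun j _ => hw j _)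
    split_ifs
    · exact le_rfl
    · exact hk q
  · rw [← mul_assoc]
    refine mul_le_mul_of_nonneg_right ?_ h0
    have e1 : (d : ℝ) + 1 ≤ 2 ^ (d + 1) := by
      have := (Nat.lt_two_pow_self (n := d + 1)).le
      exact_mod_cast this
    have e2 : C ^ (d + 1 + 1) ≤ (C ^ 2) ^ (d + 1) := by
      rw [← pow_mul]
      exact pow_le_pow_right₀ hC (by omega)
    rw [mul_pow, mul_comm]
    exact mul_le_mul e1 e2 (by positivity) (by positivity)

theorem thin_NgMat (hX : ExtM) {d : ℕ} {δ : ℝ} (hδ : 0 < δ) (m : ℕ) {Sm Lg : Finset (Fin d)}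
    (h : Thin (δ / 2) (max m ⌈2 / δ⌉₊) Sm Lg) : Thin δ m (up Sm) (up Lg) :=
  thin_NcGen (hX.2.2.1 d _ δ Sm Lg hδ
    ((Nat.le_ceil _).trans (Nat.cast_le.2 (le_max_right _ _))) h) le_rfl (le_max_left _ _)

theorem ite_NgMat (A B : Prop) [Decidable (A ∧ ¬ B)] [Decidable A] [Decidable B] (x : ℝ) :
    (if A ∧ ¬ B then x else 0) = if A then x * (if B then 0 else 1) else 0 := by
  by_cases h : A <;> by_cases h' : B <;> simp [h, h']

theorem matM (hG : GenN) (hH : GenM) (h1 : K1N) (h2 : K1M) (hO : OscM) (hX : ExtM) (hT : TwN)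
    (hW : WmN) : MatM := by
  classical
  intro α β hne
  have two : ∀ b : ZMod 2, b = 0 ∨ b = 1 := by decide
  have hC2 : ∀ C : ℝ, 1 ≤ C → 1 ≤ 2 * C ^ 2 := fun C h => by nlinarith
  rcases two β with rfl | rfl
  · obtain rfl : α = 1 := by
      rcases two α with h | h
      · simp [h] at hne
      · exact h
    have hpsi : ∀ (p : Par) (c : ℝ) (n r : ℕ) (D η : ℝ), p.Ok c n r D η → ∀ (d : ℕ)
        (q : Fin d → p.Λ), lkx 1 0 q = Psi (Fin.last d) (lkx 0 1 q) := fun p c n r D η hp d q =>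
      ((hX.1 p.Λ d (fun _ _ => 0) hp.pri).2.2.2 q).2.2.2
    refine ⟨fun l n ε hε => ?_, ?_⟩
    · obtain ⟨B, hB⟩ := hH l n ε hε
      refine ⟨B, fun P _ _ T L a1 a2 => ?_⟩
      obtain ⟨D, La, a3, δ, C, m₀, hδ, hC, a4⟩ := hB P T L a1 a2
      refine ⟨D, La, a3, δ / 2, 2 * C ^ 2, max m₀ ⌈2 / δ⌉₊, half_pos hδ, hC2 C hC, ?_⟩
      intro p c n' r D' η hc hp y d μ hd hth
      have := core_NgMat hT hW 0 p c n' r D' η hc hp y d μ
        (fun r => if GdQ (up (mk μ 1)) (up (mk μ 3)) T D La L l B (Psi (Fin.last d) r) then 0 else 1)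
        ε C hε.le hC (a4 (d + 1) (Fin.last d) _ _ _ _ (hO 0 p c n' r D' η hc hp y d μ hd)
          (thin_NgMat hX hδ m₀ hth) (hX.2.1 d _).1 (hX.2.1 d _).2)
      simp only [hpsi p c n' r D' η hp d]
      refine le_of_eq_of_le ?_ this
      exact congrArg _ (funext fun q => ite_NgMat _ _ _)
    · obtain ⟨δ, C, hδ, hC, a4⟩ := h2.2
      refine ⟨δ / 2, 2 * C ^ 2, max 0 ⌈2 / δ⌉₊, half_pos hδ, hC2 C hC, ?_⟩
      intro p c n' r D' η hc hp y d μ hd hth
      have := core_NgMat hT hW 0 p c n' r D' η hc hp y d μ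
        (fun r => ((Kp (Psi (Fin.last d) r)).ncard : ℝ))
        32 C (by norm_num) hC (a4 (d + 1) (Fin.last d) _ _ _ (hO 0 p c n' r D' η hc hp y d μ hd)
          (hX.2.1 d _).1 (thin_NgMat hX hδ 0 hth).thin)
      simp only [hpsi p c n' r D' η hp d]
      exact this
  · refine ⟨fun l n ε hε => ?_, ?_⟩
    · obtain ⟨B, hB⟩ := hG l n ε hε
      refine ⟨B, fun P _ _ T L a1 a2 => ?_⟩
      obtain ⟨D, La, a3, δ, C, m₀, hδ, hC, a4⟩ := hB P T L a1 a2
      refine ⟨D, La, a3, δ / 2, 2 * C ^ 2, max m₀ ⌈2 / δ⌉₊, half_pos hδ, hC2 C hC, ?_⟩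
      intro p c n' r D' η hc hp y d μ hd hth
      have := core_NgMat hT hW α p c n' r D' η hc hp y d μ
        (fun r => if GdQ (up (mk μ 1)) (up (mk μ 3)) T D La L l B r then 0 else 1)
        ε C hε.le hC (a4 (d + 1) _ _ _ _ (hO α p c n' r D' η hc hp y d μ hd)
          (thin_NgMat hX hδ m₀ hth))
      refine le_of_eq_of_le ?_ this
      exact congrArg _ (funext fun q => ite_NgMat _ _ _)
    · obtain ⟨δ, C, hδ, hC, a4⟩ := h1.2
      refine ⟨δ / 2, 2 * C ^ 2, max 0 ⌈2 / δ⌉₊, half_pos hδ, hC2 C hC, ?_⟩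
      intro p c n' r D' η hc hp y d μ hd hth
      have hos := hO α p c n' r D' η hc hp y d μ hd
      have h3 : 0 ≤ ∑ r, nux α (wm p.Λ p.W μ) c y r := sum_nonneg fun r _ => hos.nn r
      exact core_NgMat hT hW α p c n' r D' η hc hp y d μ
        (fun r => ((Kp r).ncard : ℝ)) 32 C (by norm_num) hC
        ((a4 (d + 1) _ _ _ hos (thin_NgMat hX hδ 0 hth).thin).trans (by linarith))

end Pool.Agent.MP_f68ac8_nt.Nd

end

section

namespace Pool.Agent.MP_f68ac8_nt.Zq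
open Ev Pv Sv Zv Zk
open scoped commutatorElement

open Classical in
theorem lin_ZsSol {P : Type} [Group P] {T : Fil 2 P} {D : Gd 2 P} (hD : D.Ok T) (h1 : T.F 1 = ⊤)
    {d : ℕ} {U : Fin d → Type} (q : ∀ j, U j) (z : Fin d → P) (w : FreeGroup (Σ j, U j)) :
    D.e 1 (FreeGroup.lift (plc q z) w) =
      ∑ j, (FreeGroup.lift (fun l => if l = (⟨j, q j⟩ : Σ j, U j) then
        Multiplicative.ofAdd (1 : ZMod 2) else 1) w).toAdd • D.e 1 (z j) := by
  let E1 : P →* Multiplicative (V 2 (D.k 1)) :=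
    MonoidHom.mk' (fun g => Multiplicative.ofAdd (D.e 1 g)) fun g h => by
      rw [hD.add 1 le_rfl g (h1 ▸ Subgroup.mem_top g) h (h1 ▸ Subgroup.mem_top h), ofAdd_add]
  let E2 : FreeGroup (Σ j, U j) →* Multiplicative (V 2 (D.k 1)) :=
    MonoidHom.mk' (fun w => Multiplicative.ofAdd
      (∑ j, (FreeGroup.lift (fun l => if l = (⟨j, q j⟩ : Σ j, U j) then
        Multiplicative.ofAdd (1 : ZMod 2) else 1) w).toAdd • D.e 1 (z j))) fun g h => by
      rw [← ofAdd_add, ← Finset.sum_add_distrib]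
      refine congrArg _ (Finset.sum_congr rfl fun j _ => ?_)
      rw [map_mul, toAdd_mul, add_smul]
  have e0 : D.e 1 1 = 0 := congrArg Multiplicative.toAdd E1.map_one
  have key : E1.comp (FreeGroup.lift (plc q z)) = E2 := by
    refine FreeGroup.ext_hom _ _ fun u => ?_
    rw [MonoidHom.comp_apply, FreeGroup.lift_apply_of]
    change Multiplicative.ofAdd (D.e 1 (plc q z u)) = Multiplicative.ofAdd _
    refine congrArg _ ?_
    simp only [FreeGroup.lift_apply_of, plc]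
    split_ifs with e
    · obtain ⟨i, u⟩ := u
      obtain rfl : u = q i := e
      rw [Finset.sum_eq_single i (fun j _ hj => by
        rw [if_neg fun e' => hj (congrArg Sigma.fst e').symm, toAdd_one, zero_smul])
        (fun h => absurd (Finset.mem_univ i) h), if_pos rfl, toAdd_ofAdd, one_smul]
    · rw [e0]
      refine (Finset.sum_eq_zero fun j _ => ?_).symm
      rw [if_neg fun e' => e (by rw [e']), toAdd_one, zero_smul]
  exact congrArg Multiplicative.toAdd (DFunLike.congr_fun key w)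

end Pool.Agent.MP_f68ac8_nt.Zq

end

section

namespace Pool.Agent.MP_f68ac8_nt.Nd
open Zq Ev Pv Sv Zv Zk NumberField Finset Filter
open scoped Topology BigOperators commutatorElement

theorem one_NdSol {G : Type} [Group G] {d : ℕ} (g : Fin d → G) (h : ∀ k, g k = 1) :
    (List.ofFn g).prod = 1 :=
  List.prod_eq_one fun a ha => by
    obtain ⟨k, rfl⟩ := List.mem_ofFn.1 ha
    exact h k

theorem single_NdSol {G : Type} [Group G] : ∀ {d : ℕ} (g : Fin d → G) (j : Fin d),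
    (∀ k, k ≠ j → g k = 1) → (List.ofFn g).prod = g j
  | 0, _, j, _ => j.elim0
  | d + 1, g, j, h => by
    rw [List.ofFn_succ, List.prod_cons]
    refine Fin.cases (fun h => ?_) (fun j h => ?_) j h
    · rw [one_NdSol _ fun k => h _ (Fin.succ_ne_zero k), mul_one]
    · rw [h 0 (Fin.succ_ne_zero j).symm, one_mul]
      exact single_NdSol (fun k => g k.succ) j fun k hk => h _ fun e => hk (Fin.succ_injective _ e)

theorem sbs_NdSol {G Λ : Type} [Group G] {d : ℕ} (f : Lr d Λ → G) (l : Λ) :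
    FreeGroup.lift f (sbs d (FreeGroup.of l)) = (List.ofFn fun j : Fin d => f ⟨j, l⟩).prod := by
  rw [sbs, FreeGroup.lift_apply_of, map_list_prod, List.map_ofFn]
  refine congrArg (fun g => (List.ofFn g).prod) (funext fun j => ?_)
  exact FreeGroup.lift_apply_of

theorem solN (hP : Zq.PrimStmt 2) (hC : Zq.ChStmt) (hQ : QrStmt) (hR : Zq.RestrStmt 2) : SolN := by
  classical
  intro K F _ _ hB hK hF P _ T hT Λ x N hA h1 h2 d v k hy q hq
  obtain ⟨p1, -, p3, -, p5⟩ := hP K F hB hK hF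
  obtain ⟨c1, c2, -⟩ := hC K F hB hK hF
  have ok := fun u => (hA.co u).1
  have hl := fun u => ((p5 _ (ok u)).2.2 (hA.co u).2).1
  have key : ∀ u (Q : Ideal OQ), Q.IsMaximal → ((x u).l : OQ) ∈ Q →
      Q.under (NumberField.RingOfIntegers K) = pr K (x u) := fun u Q hQ h =>
    ((p3 _ (p5 _ (ok u)).1).2 Q hQ).2 (by rw [(p5 _ (ok u)).2.1]; exact h)
  have linj : ∀ u v, (x v).l = (x u).l → u = v := fun u v e =>
    hA.inj (key v _ (ok u).max (e ▸ (ok u).mem))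
  have c3 := fun u v (h : u ≠ v) => (c2 _ (ok u) (hl u)).2.2 _ (hl v) fun e => h (linj u v e)
  have c4 : ∀ u, ch 2 (x u).l (x u).τ = Multiplicative.ofAdd 1 := fun u => by
    rw [← (c2 _ (ok u) (hl u)).1, ofAdd_toAdd]
  choose b hb hy using hy
  have j1 := fun j => h2 _ (adm_ZmSol (fun g => ⟨1, by rw [pow_one, cp_p_ZmSol]⟩) key
    (c1 _ (hl (q j))).2.1 fun Q hQ h g hg => (c1 _ (hl (q j))).2.2 Q hQ (h _) g hg)
  have j2 : ∀ j, (FreeGroup.lift fun l => if l = (⟨j, q j⟩ : Lr d Λ) then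
      Multiplicative.ofAdd (1 : ZMod 2) else 1).comp (sbs d) =
      ((ch 2 (x (q j)).l).comp K.fixingSubgroup.subtype).comp (lwp K x) := fun j => by
    refine FreeGroup.ext_hom _ _ fun u => ?_
    rw [MonoidHom.comp_apply, sbs_NdSol, single_NdSol _ j fun i hi =>
      if_neg fun e => hi (congrArg Sigma.fst e)]
    simp only [MonoidHom.comp_apply, lwp, FreeGroup.lift_apply_of, Subgroup.subtype_apply, p1]
    by_cases e : u = q j
    · rw [e, if_pos rfl, c4]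
    · rw [if_neg fun e' => e (eq_of_heq (Sigma.mk.inj e').2), (c3 u _ e).2]
  refine ⟨fun i j hij => ?_, ?_⟩
  · have k3 := DFunLike.congr_fun (j2 j) (v ⟨i, q i⟩)
    have hne : q i ≠ q j := fun e => hij (hq e)
    have hne' : (⟨i, q i⟩ : Lr d Λ) ≠ ⟨j, q j⟩ := fun e => hij (congrArg Sigma.fst e)
    have hb1 : ((b ⟨i, q i⟩ : ℕ) : ZMod 2) = 1 :=
      (ZMod.natCast_eq_one_iff_odd).2 (Nat.two_dvd_ne_zero.1 (hb _) |> Nat.odd_iff.2)
    rw [MonoidHom.comp_apply, MonoidHom.comp_apply _ (lwp K x), eq_ZmSol (j1 j) (hy _), map_pow,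
      MonoidHom.comp_apply, Subgroup.subtype_apply,
      p1, cp_pow_ZmSol, (c3 _ _ hne).1, hb1, one_mul] at k3
    have k4 : (FreeGroup.lift fun l => if l = (⟨j, q j⟩ : Lr d Λ) then
        Multiplicative.ofAdd (1 : ZMod 2) else 1)
        (sbs d (v ⟨i, q i⟩) * FreeGroup.of ⟨i, q i⟩ ^ k ⟨i, q i⟩) =
        Multiplicative.ofAdd (lk 2 (x (q i)).l (x (q j)).l) := by
      rw [map_mul, map_pow, FreeGroup.lift_apply_of, if_neg hne', one_pow, mul_one, k3]
    exact congrArg Multiplicative.toAdd k4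
  rintro ⟨θ, t1, t2, t3, t4⟩
  have χa : ∀ g, Zq.chi (fun j => (x (q j)).l) g = ∏ j, ch 2 (x (q j)).l g := fun g => by
    rw [Zq.chi, chA, MonoidHom.finsetProd_apply]
    refine Finset.prod_congr rfl fun j _ => ?_
    rw [Pi.one_apply, Units.val_one, ZMod.val_one, pow_one]
  have ad := adm_ZmSol hT key t1 fun Q hQ h g hg => t3 Q hQ g hg (by
    rw [χa]
    exact Finset.prod_eq_one fun j _ => (c1 _ (hl _)).2.2 Q hQ (h _) g hg)
  have k1 := h1 _ ad
  have χ1 : ∀ j, T.pi (θ (x (q j)).τ) = Multiplicative.ofAdd 1 := fun j => by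
    rw [t2, χa, Finset.prod_eq_single j (fun i _ e =>
      (c3 (q j) (q i) fun e' => e (hq e').symm).2)
      (fun h => absurd (Finset.mem_univ j) h), c4]
  have χ2 : ∀ u : Λ, (∀ j, u ≠ q j) → θ (x u).τ = 1 := fun u h =>
    t3 _ (ok u).max _ (ok u).inert (by
      rw [χa]
      exact Finset.prod_eq_one fun j _ => (c3 u (q j) (h j)).2)
  have χ3 : ∀ u : Λ, θ (x u).τ ^ 2 = 1 := fun u => by
    rw [← map_pow]
    exact t3 _ (ok u).max _ (pow_mem (ok u).inert 2) (by rw [map_pow, cp_p_ZmSol])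
  obtain ⟨z, hz⟩ : ∃ z : Fin d → P, ∀ j, z j = θ (x (q j)).τ := ⟨_, fun _ => rfl⟩
  have k2 : (FreeGroup.lift (plc (U := fun _ => Λ) q z)).comp (sbs d) =
      (θ.comp K.fixingSubgroup.subtype).comp (lwp K x) := by
    refine FreeGroup.ext_hom _ _ fun u => ?_
    rw [MonoidHom.comp_apply, sbs_NdSol]
    simp only [MonoidHom.comp_apply, lwp, FreeGroup.lift_apply_of, Subgroup.subtype_apply, p1]
    by_cases e : ∃ j, u = q j
    · obtain ⟨j, rfl⟩ := e
      rw [single_NdSol _ j fun i hi => by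
        unfold plc
        exact if_neg fun e => hi (hq e).symm]
      unfold plc
      rw [if_pos rfl, hz]
    · rw [χ2 u fun j h => e ⟨j, h⟩]
      refine one_NdSol _ fun i => ?_
      unfold plc
      exact if_neg fun h => e ⟨i, h⟩
  have k3 : ∀ w, FreeGroup.lift (plc (U := fun _ => Λ) q z) (sbs d w) =
      θ.comp K.fixingSubgroup.subtype (lwp K x w) := fun w => DFunLike.congr_fun k2 w
  refine ⟨z, fun j => ⟨?_, ?_⟩, ?_, fun i => ?_, fun D hD hT1 => ?_⟩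
  · rw [hz, χ3]
  · rw [hz, χ1]
  · refine top_le_iff.1 (t4.symm.le.trans (sup_le_sup_right ?_ _))
    rintro _ ⟨g, rfl⟩
    obtain ⟨w, hw⟩ := hA.gen (toK K g)
    have k4 := (k3 w).trans (eq_ZmSol k1 hw)
    rw [MonoidHom.comp_apply, Subgroup.subtype_apply, p1] at k4
    rw [← k4]
    refine FreeGroup.range_lift_le ?_ ⟨_, rfl⟩
    rintro _ ⟨u, rfl⟩
    unfold plc
    split_ifs
    · exact Subgroup.subset_closure ⟨_, rfl⟩
    · exact one_mem _
  · have k4 := (hR K F hB _ (ok (q i)) _ ad.nrm ad.nhds fun g _ => ad.pg g).1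
      (toK K (x (q i)).τ) (by rw [p1]; exact (ok _).inert)
    simp only [MonoidHom.mem_ker, map_mul, map_inv, map_pow, MonoidHom.comp_apply,
      Subgroup.subtype_apply, p1] at k4
    rw [pow_eq_pow_of_modEq (hl _).2 (χ3 _), pow_one] at k4
    have k5 : Commute (θ (x (q i)).σ) (θ (x (q i)).τ) :=
      commutatorElement_eq_one_iff_commute.1 k4
    have k6 : plc (U := fun _ => Λ) q z ⟨i, q i⟩ = z i := by
      unfold plc
      exact if_pos rfl
    rw [commutatorElement_eq_one_iff_commute, Yw, map_mul, map_pow, FreeGroup.lift_apply_of, k6, k3,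
      eq_ZmSol k1 (hy _), map_pow, MonoidHom.comp_apply, Subgroup.subtype_apply, p1, hz]
    exact (k5.symm.pow_right _).mul_right ((Commute.refl _).pow_right _)
  · obtain ⟨c₀, hc1, hc2⟩ := hQ.2
    refine ⟨θ c₀, by rw [← map_pow, hc1, map_one], ?_⟩
    obtain ⟨w, hw⟩ := hA.gen (toK K c₀)
    have k4 := (k3 w).trans (eq_ZmSol k1 hw)
    rw [MonoidHom.comp_apply, Subgroup.subtype_apply, p1] at k4
    rw [← k4, lin_ZsSol hD hT1, cc]
    refine Finset.sum_congr rfl fun j _ => ?_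
    have k5 := DFunLike.congr_fun (j2 j) w
    rw [MonoidHom.comp_apply, MonoidHom.comp_apply _ (lwp K x), eq_ZmSol (j1 j) hw,
      MonoidHom.comp_apply, Subgroup.subtype_apply, p1] at k5
    rw [k5, hc2 _ (hl _), tyOf]

end Pool.Agent.MP_f68ac8_nt.Nd

end

section

namespace Pool.Agent.MP_f68ac8_nt.Nd
open Zq Ev Pv Sv Zv Zk NumberField Finset Filter
open scoped Topology BigOperators commutatorElement

open Classical in
/-- the exponent sum of a letter -/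
noncomputable def ex_NdWord {Λ : Type} (u : Λ) : FreeGroup Λ →* Multiplicative (ZMod 2) :=
  FreeGroup.lift fun l => if l = u then Multiplicative.ofAdd (1 : ZMod 2) else 1

theorem exf_NdWord {Λ : Type} (u : Λ) (w : FreeGroup Λ) (c : ZMod 2) :
    (ex_NdWord u (w * FreeGroup.of u ^ (c - (ex_NdWord u w).toAdd).val)).toAdd = c := by
  rw [map_mul, map_pow, toAdd_mul, toAdd_pow]
  have h : ex_NdWord u (FreeGroup.of u) = Multiplicative.ofAdd (1 : ZMod 2) := by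
    rw [ex_NdWord, FreeGroup.lift_apply_of, if_pos rfl]
  rw [h, toAdd_ofAdd, nsmul_eq_mul, mul_one, ZMod.natCast_zmod_val, add_sub_cancel]

theorem rr_NdWord {d : ℕ} {U : Fin d → Type} (y : (Σ j, U j) → FreeGroup (Σ j, U j))
    (q : ∀ j, U j) (i : Fin d) :
    rr y q 2 i i = (ex_NdWord ⟨i, q i⟩ (y ⟨i, q i⟩)).toAdd := by
  rw [rr, ex_NdWord]
  refine congrArg (fun f : (Σ j, U j) → Multiplicative (ZMod 2) =>
    (FreeGroup.lift f (y ⟨i, q i⟩)).toAdd) (funext fun l => ?_)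
  split_ifs <;> rfl

theorem wordN (hB : Zq.BaseStmt 2) (hG : Zq.GenPStmt 2) (hU : UnifStmt) (hC : CoN) (hE : EqaN)
    (hS : SolN) : WordN := by
  intro P _ _ T hpg L
  obtain ⟨K, F, _, _, hb, hK, hF, -⟩ := hB
  refine ⟨Fintype.card P ^ 2 ^ L, 2 * L, fun p c D η hp d μ => ?_⟩
  obtain ⟨x, hx, hl, hinj⟩ := hC K F hb hK hF p.Λ hp.pri
  obtain ⟨N, hAm, hN1, hN2⟩ := (hG K F hb hK hF).2.2.2 p.Λ x hx hinj P
  obtain ⟨𝓡, _, _, s, hs1, hs2⟩ := hU p.Λ P (N.comap (lwp K x))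
  choose wd hwd using fun (y : p.Λ) (a : Exn (2 * Fintype.card P)) =>
    hAm.gen (toK K (x y).σ ^ (a.1 : ℕ))
  have : Nonempty (Exn (2 * Fintype.card P)) :=
    ⟨⟨⟨1, by have := Fintype.card_pos (α := P); omega⟩, Nat.coprime_one_left _⟩⟩
  refine ⟨Exn (2 * Fintype.card P) × 𝓡, inferInstance, inferInstance, _,
    hE K F hb hK hF P hpg L p c D η hp x N hAm hl 𝓡 s ⟨hs1, hs2⟩ wd hwd d μ
      (fun u a => (Zq.eps u.2 - (ex_NdWord u (sbs d (wd u.2 a.1 * s a.2))).toAdd).val),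
    fun a q hq => ?_⟩
  obtain ⟨h3, h4⟩ := hS K F hb hK hF P T hpg p.Λ x N hAm hN1 hN2 d
    (fun u => wd u.2 (a u).1 * s (a u).2)
    (fun u => (Zq.eps u.2 - (ex_NdWord u (sbs d (wd u.2 (a u).1 * s (a u).2))).toAdd).val)
    (fun u => ⟨(a u).1.1, (Nat.Prime.coprime_iff_not_dvd Nat.prime_two).1
      ((a u).1.2.coprime_dvd_right (Dvd.intro _ rfl)).symm, by
        rw [map_mul, mul_inv_rev, mul_assoc]
        exact N.mul_mem (N.inv_mem (hs1 _)) (hwd _ _)⟩) q hq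
  simp only [hl] at h3 h4
  refine ⟨funext fun i => funext fun j => ?_, fun h => ?_⟩
  · by_cases hij : i = j
    · subst hij
      rw [rr_NdWord (U := fun _ => p.Λ), exf_NdWord, lk2, if_pos rfl]
      rfl
    · rw [h3 i j hij, lk2, if_neg hij]
      rfl
  · have h9 : dg (lk2 (vl q)) = fun j => Zq.eps (q j) := by
      funext i
      rw [dg, lk2, if_pos rfl]
      rfl
    rw [h9]
    exact h4 h

end Pool.Agent.MP_f68ac8_nt.Nd

end

section

namespace Pool.Agent.MP_f68ac8_nt.Nd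
open Zq Ev Pv Sv Zv Zk NumberField Finset Filter
open scoped Topology BigOperators commutatorElement

section
variable {χ : GQ →* Cp 2} {R : Finset ℕ}

theorem all_NgGen : AdX χ R ⊤ :=
  ⟨⟨inferInstance, univ_mem, fun _ => ⟨0, trivial⟩⟩, fun _ _ _ _ _ _ => trivial⟩

theorem inf_NgGen {N N' : Subgroup GQ} (h : AdX χ R N) (h' : AdX χ R N') : AdX χ R (N ⊓ N') := by
  have := h.nrm
  have := h'.nrm
  refine ⟨⟨inferInstance, inter_mem h.nhds h'.nhds, fun g => ?_⟩,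
    fun P a b g c d => ⟨h.unr P a b g c d, h'.unr P a b g c d⟩⟩
  obtain ⟨k, hk⟩ := h.pg g
  obtain ⟨k', hk'⟩ := h'.pg g
  refine ⟨k + k', ?_, ?_⟩
  · rw [pow_add, pow_mul]
    exact pow_mem hk _
  · rw [add_comm, pow_add, pow_mul]
    exact pow_mem hk' _

theorem many_NgGen {H : Type} [Group H] {T : Set (GQ →* H)} (hT : T.Finite) :
    (∀ θ ∈ T, AdX χ R θ.ker) → ∃ N, AdX χ R N ∧ ∀ θ ∈ T, N ≤ θ.ker := by
  induction T, hT using Set.Finite.induction_on with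
  | empty => exact fun _ => ⟨_, all_NgGen, fun _ h => h.elim⟩
  | @insert a s _ _ ih =>
    intro h
    obtain ⟨N, h1, h3⟩ := ih fun θ hθ => h θ (Set.mem_insert_of_mem _ hθ)
    refine ⟨N ⊓ a.ker, inf_NgGen h1 (h a (Set.mem_insert _ _)), ?_⟩
    rintro θ (rfl | hθ)
    · exact inf_le_right
    · exact inf_le_left.trans (h3 θ hθ)

end

theorem fi_NgGen {N : Subgroup GQ} (h : (N : Set GQ) ∈ 𝓝 1) : N.FiniteIndex := by
  obtain ⟨L, _, _, hL⟩ := exists_level h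
  exact Subgroup.finiteIndex_of_le (H := (res L).ker) fun g hg => hL _ hg

theorem genL (hL : LocM) (hT : TamM) (hF : FincStmt) : GenL := by
  intro α β Λ hne hΛ H _ _
  have hpr : ∀ u : Option Λ, (ov u).Prime := fun u => by
    cases u with
    | none => exact Nat.prime_two
    | some l => exact (hΛ l l.2).1
  choose σ τ hloc using fun u : Option Λ => ((hL α β).2.2.2 hne).2 (ov u) (hpr u)
  have hgen : ∀ N, AdX (x2 α β) Λ N → Subgroup.closure (Set.range τ) ⊔ N = ⊤ := by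
    intro N hN
    by_contra hA
    have := hN.nrm
    have := fi_NgGen hN.nhds
    obtain ⟨M, h1, h2, h3⟩ := pgrp_ZmGen (p := 2) le_sup_right hN.pg hA
    have h4 : N ≤ M := le_sup_right.trans h2
    have h5 : (M : Set GQ) ∈ 𝓝 1 := mem_of_superset hN.nhds h4
    have hM : Op2 M := ⟨h1, h5, fun g => (hN.pg g).imp fun _ h => h4 h⟩
    refine h3 (eq_top_of_open M h5 fun P hP g hg => ?_)
    obtain ⟨l, hl, hlP⟩ := exists_prime_mem P
    by_cases e : ∃ u : Option Λ, ov u = l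
    · obtain ⟨u, rfl⟩ := e
      refine hT.1 α β _ _ _ hl (hloc u) M hM (fun h2' Q hQ hQ2 g' hg' hx => ?_)
        (h2 (Subgroup.mem_sup_left (Subgroup.subset_closure ⟨u, rfl⟩))) P hP hlP g hg
      refine h4 (hN.unr Q hQ (fun m hm => not_mem_of_coprime hQ2 ?_) g' hg' hx)
      rw [h2']
      exact Nat.coprime_two_left.2 (hΛ m hm).2
    · have h6 : ∀ u : Option Λ, ((ov u : ℕ) : OQ) ∉ P := fun u =>
        not_mem_of_coprime hlP ((Nat.coprime_primes hl (hpr u)).2 fun h => e ⟨u, h.symm⟩)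
      refine h4 (hN.unr P hP (fun m hm => h6 (some ⟨m, hm⟩)) g hg ?_)
      have := ((hL α β).1 2 Nat.prime_two).2 P hP (h6 none) g hg
      rwa [cx, if_pos rfl] at this
  have hfin := fun (H : Type) [Group H] [Finite H] => (hF GQ H
    {N | AdX (x2 α β) Λ N} (Set.range τ) (Set.finite_range _)
    (fun _ a _ b => inf_NgGen a b) hgen).2
  obtain ⟨N, h1, h2⟩ := many_NgGen (hfin H) fun _ h => h
  obtain ⟨N', h3, h4⟩ := many_NgGen (hfin (Cp 2)) fun _ h => h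
  have h5 := inf_NgGen h1 h3
  refine ⟨σ, τ, N ⊓ N', ⟨hne, hΛ, hloc, h5, fun g => ?_⟩, fun θ h => inf_le_left.trans (h2 θ h),
    fun θ h => inf_le_right.trans (h4 θ h)⟩
  have := h5.nrm
  have hg : g ∈ Subgroup.closure (Set.range τ) ⊔ (N ⊓ N') := by
    rw [hgen _ h5]
    trivial
  obtain ⟨y, hy, z, hz, rfl⟩ := Subgroup.mem_sup_of_normal_right.1 hg
  rw [← FreeGroup.range_lift_eq_closure] at hy
  obtain ⟨w, rfl⟩ := hy
  exact ⟨w, by rwa [inv_mul_cancel_left]⟩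

end Pool.Agent.MP_f68ac8_nt.Nd

end
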