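import Pool.Agent.Mg.Fe23604m.G0a5d16
import Pool.Agent.Mg.Fe23604m.Ga3c24f
import Mathlib
import Pool.Agent.Mg.Fe23604m.G9af74e
import Pool.Agent.MP_f68ac8_nt.NrClq
import Pool.Agent.Mg.Fe23604m.G88686e

set_option linter.all false

section

set_option autoImplicit false

open Module Filter Topology Finset
open scoped Classical

namespace Pool.Agent.MP_e23604_nt.R

open B
open Q (Wn dig CmI Cm0 Pre A1 Eta Jm scf St Cork Fg IdxQ basQ levQ)

/-- small dyadic squares -/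
abbrev trETAB1 (n : ℤ) : Prop := n % 8 = 1 ∨ n % 32 = 4 ∨ n % 128 = 16

theorem mul_ETAB1 (hKAP : KAP_st) {a b : ℤ} (ha : a ≠ 0) (hb : b ≠ 0) (g : GQ) :
    kap (a * b : ℤ) g = kap a g + kap b g := by
  rw [Int.cast_mul, hKAP.2.2.1 _ _ g (Int.cast_ne_zero.2 ha) (Int.cast_ne_zero.2 hb)]

theorem sq_ETAB1 (hKAP : KAP_st) {a b : ℤ} (ha : a ≠ 0) (hb : b ≠ 0) (g : GQ) :
    kap (a ^ 2 * b : ℤ) g = kap b g := by
  rw [mul_ETAB1 hKAP (pow_ne_zero 2 ha) hb, Int.cast_pow, hKAP.2.2.2.1, zero_add]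

theorem one_ETAB1 (hKUM : KUM_st) (hKAP : KAP_st) {w : ℤ} (h : w % 8 = 1) :
    ∀ g ∈ Dec (nv 2 1), kap w g = 0 := by
  intro g hg
  obtain ⟨j, u, hu, h1⟩ := hKUM.2.2.1 1 1 one_ne_zero
  have u0 : (u : ℤ) ≠ 0 := by exact_mod_cast hu.pos.ne'
  have h2 := h1 u rfl g hg
  rw [h1 (u * w) (by rw [Int.mul_emod, h]; simp) g hg] at h2
  have e : ((2 : ℚ) ^ j * ((u * w : ℤ) : ℚ)) = (2 ^ j * ((u : ℤ) : ℚ)) * w := by
    push_cast
    ring
  rw [e, hKAP.2.2.1 _ _ g (mul_ne_zero (by positivity) (Int.cast_ne_zero.2 u0))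
    (Int.cast_ne_zero.2 (by omega))] at h2
  exact add_eq_left.1 h2

theorem tr_ETAB1 (hKUM : KUM_st) (hKAP : KAP_st) {n : ℤ} (h : trETAB1 n) :
    ∀ g ∈ Dec (nv 2 1), kap n g = 0 := by
  intro g hg
  rcases h with h | h | h
  · exact one_ETAB1 hKUM hKAP h g hg
  · rw [show n = 2 ^ 2 * (n / 4) by omega, sq_ETAB1 hKAP two_ne_zero (by omega)]
    exact one_ETAB1 hKUM hKAP (by omega) g hg
  · rw [show n = 4 ^ 2 * (n / 16) by omega, sq_ETAB1 hKAP four_ne_zero (by omega)]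
    exact one_ETAB1 hKUM hKAP (by omega) g hg

theorem rep_ETAB1 (hKUM : KUM_st) (hKAP : KAP_st) {d : ℤ} (hd : d ≠ 0) :
    ∃ r ∈ ({1, 3, 5, 7, 2, 6, 10, 14} : Finset ℤ), r ≠ 0 ∧
      ∀ g ∈ Dec (nv 2 1), kap d g = kap r g := by
  obtain ⟨j, u, hu, h1⟩ := hKUM.2.2.1 1 d (Int.cast_ne_zero.2 hd)
  have h2 := h1 (u % 8) (by omega)
  obtain ⟨v, hv⟩ := hu
  obtain ⟨i, rfl | rfl⟩ := Nat.even_or_odd' j
  · refine ⟨u % 8, by simp only [mem_insert, mem_singleton]; omega, by omega, fun g hg => ?_⟩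
    rw [h2 g hg, ← sq_ETAB1 hKAP (a := 2 ^ i) (b := u % 8) (by positivity) (by omega)]
    congr 1
    generalize (u : ℤ) % 8 = m
    push_cast
    ring
  · refine ⟨2 * (u % 8), by simp only [mem_insert, mem_singleton]; omega, by omega, fun g hg => ?_⟩
    rw [h2 g hg, ← sq_ETAB1 hKAP (a := 2 ^ i) (b := 2 * (u % 8)) (by positivity) (by omega)]
    congr 1
    generalize (u : ℤ) % 8 = m
    push_cast
    ring

theorem inf_ETAB1 (hKAP : KAP_st) (hDIC : DIC_st) {cc : GQ} (hc : CC cc) {a b : ℚ}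
    (h : a < 0 ↔ b < 0) : ∀ g ∈ Subgroup.zpowers cc, kap a g = kap b g := by
  rintro _ ⟨k, rfl⟩
  have h2 : cc ^ (2 : ℤ) = 1 := by rw [zpow_two, (hDIC.2.2.2.2 cc hc).1]
  obtain ⟨i, rfl | rfl⟩ := Int.even_or_odd' k
  · simp only [zpow_mul, h2, one_zpow]
    simp [kap]
  · simp only [zpow_add_one, zpow_mul, h2, one_zpow, one_mul]
    rw [hKAP.2.2.2.2.1 a cc hc, hKAP.2.2.2.2.1 b cc hc, if_congr h rfl rfl]

section

variable {A : Type} [AddCommGroup A] {η : Act A} {T : A}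

theorem congr_ETAB1 {H : Subgroup GQ} {χ χ' : GQ → ZMod 2} (h : InL η H (chT χ T))
    (e : ∀ g ∈ H, χ' g = χ g) : InL η H (chT χ' T) :=
  h.congr fun g hg => by simp only [chT, e g hg]

theorem zero_ETAB1 {H : Subgroup GQ} {χ : GQ → ZMod 2} (e : ∀ g ∈ H, χ g = 0) :
    InL η H (chT χ T) :=
  (InL.zero η H).congr fun g hg => by simp [chT, e g hg]

theorem red_ETAB1 (hKUM : KUM_st) (hKAP : KAP_st) {a b : ℤ}
    (h : InL η (Dec (nv 2 1)) (chT (kap a) T)) (ht : trETAB1 (a * b)) :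
    InL η (Dec (nv 2 1)) (chT (kap b) T) := by
  have h0 : a * b ≠ 0 := by omega
  refine congr_ETAB1 h fun g hg => ?_
  have h1 := tr_ETAB1 hKUM hKAP ht g hg
  rw [mul_ETAB1 hKAP (left_ne_zero_of_mul h0) (right_ne_zero_of_mul h0)] at h1
  revert h1
  generalize kap a g = x
  generalize kap b g = y
  revert x y
  decide

theorem cov_ETAB1 (hKUM : KUM_st) (hKAP : KAP_st) (hDIC : DIC_st) {J : A ≃ₗ[ℤ] A} (h0 : Cm0 J)
    (hT : T ∈ Wn J 1) {cc : GQ} (hc : CC cc) (Y : Finset ℤ) (ℓ : ℕ) (a b : ℤ) (c : Bool)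
    (ha : InL η (Dec (nv 2 1)) (chT (kap a) T)) (hb : InL η (Dec (nv 2 1)) (chT (kap b) T))
    (hi : c → ∀ r : ℤ, InL η (Subgroup.zpowers cc) (chT (kap r) T))
    (h : Y.card * 2 ^ ℓ ≤ 16 ∧ a ≠ 0 ∧ b ≠ 0 ∧ ∀ r ∈ ({1, 3, 5, 7, 2, 6, 10, 14} : Finset ℤ),
      ∀ ε ∈ ({1, -1} : Finset ℤ), ∃ y ∈ Y, y ≠ 0 ∧ (c ∨ 0 < ε * y) ∧
        ∃ s ∈ ({1, a, b, a * b} : Finset ℤ), trETAB1 (s * (r * y))) : Cov η cc T ℓ := by
  obtain ⟨h1, a0, b0, h2⟩ := h
  refine ⟨Y, h1, fun d hd => ?_⟩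
  obtain ⟨r, hr, r0, e⟩ := rep_ETAB1 hKUM hKAP hd
  obtain ⟨y, hy, y0, h3, s, hs, h4⟩ := h2 r hr (if 0 < d then 1 else -1) (by split_ifs <;> simp)
  refine ⟨y, hy, y0, congr_ETAB1 (red_ETAB1 hKUM hKAP ?_ h4) fun g hg => ?_, ?_⟩
  · simp only [mem_insert, mem_singleton] at hs
    rcases hs with rfl | rfl | rfl | rfl
    · exact zero_ETAB1 (one_ETAB1 hKUM hKAP rfl)
    · exact ha
    · exact hb
    · refine congr_ETAB1 (χ := kap a + kap b) ?_ fun g _ => mul_ETAB1 hKAP a0 b0 g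
      rw [chT_add h0 hT]
      exact ha.add hb
  · rw [mul_ETAB1 hKAP hd y0, mul_ETAB1 hKAP r0 y0, e g hg]
  · rcases h3 with h3 | h3
    · exact hi h3 _
    · have h5 : 0 < d * y := by
        split_ifs at h3 with h6
        · exact mul_pos h6 (by omega)
        · exact mul_pos_of_neg_of_neg (by omega) (by omega)
      refine zero_ETAB1 fun g hg => ?_
      rw [inf_ETAB1 hKAP hDIC hc (b := 1 ^ 2) (by
        have : (0 : ℚ) < (d * y : ℤ) := by exact_mod_cast h5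
        exact iff_of_false this.not_gt (by norm_num)) g hg, hKAP.2.2.2.1]

end

theorem TAB1_pf (hPT : PT_st) (hKUM : KUM_st) (hKAP : KAP_st) (hDIC : DIC_st) : TAB1_st := by
  intro i δ J η D' hJ hη hD' hδ T cc D hT _ hc e hR
  have h0 : Cm0 J := ((Q.modQ basQ Q.scQ i).2 J hJ).1.toCm0
  have D0 : D ≠ 0 := by omega
  obtain ⟨p1, p2⟩ := hPT i δ J η D' hJ hη hD' hδ T hT
  have gD : ∀ H, InL η H (chT (kap D) T) := fun H => by
    obtain ⟨R, hR⟩ := p2
    refine congr_ETAB1 (χ := kap (-D')) ⟨R, fun g _ => hR g trivial⟩ fun g _ => ?_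
    rw [← sq_ETAB1 hKAP two_ne_zero D0, e]
    congr 1
    push_cast
    ring
  have gx : ∀ x : ℤ, trETAB1 (x ^ 3 + D * x) → InL η (Dec (nv 2 1)) (chT (kap x) T) := fun x hx => by
    have n0 : x ^ 3 + D * x ≠ 0 := by omega
    have x0 : x ≠ 0 := by
      rintro rfl
      simp at n0
    refine congr_ETAB1 (p1 _ (2 ^ 2 * x : ℤ) (by exact_mod_cast mul_ne_zero four_ne_zero x0)
      fun g hg => ?_) fun g _ => (sq_ETAB1 hKAP two_ne_zero x0 g).symm
    rw [← tr_ETAB1 hKUM hKAP hx g hg, ← sq_ETAB1 hKAP (a := 8) (by norm_num) n0, e]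
    congr 1
    push_cast
    ring
  have g1 : InL η (Dec (nv 2 1)) (chT (kap (1 : ℤ)) T) := zero_ETAB1 (one_ETAB1 hKUM hKAP rfl)
  have gr : ∀ r : ℤ, trETAB1 (D * r) → InL η (Dec (nv 2 1)) (chT (kap r) T) := fun r hr =>
    red_ETAB1 hKUM hKAP (gD _) hr
  have cv := cov_ETAB1 (η := η) hKUM hKAP hDIC h0 hT.1 hc
  unfold trETAB1 at gx gr
  rcases hR with ⟨hp, hR⟩ | ⟨hn, hR⟩
  · by_cases h8 : D % 8 = 1
    · rw [lz, if_pos ⟨hp, h8⟩]
      exact cv {1, 3, 5, 7, 2, 6, 10, 14, -1, -3, -5, -7, -2, -6, -10, -14} _ 1 1 false g1 g1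
        nofun (by decide)
    rw [lz, if_neg fun h => h8 h.2]
    simp only [mem_insert, mem_singleton] at hR
    obtain h | h | h | h | h | h : D % 16 = 2 ∨ D % 16 = 6 ∨ D % 16 = 10 ∨ D % 16 = 14 ∨
      D % 16 = 7 ∨ D % 16 = 11 := by omega
    · exact cv {1, 5, -7, -3} _ 2 3 false (gr 2 (by omega)) (gx 3 (by omega)) nofun (by decide)
    · exact cv {1, 5, -7, -3} _ 6 (-1) false (gr 6 (by omega)) (gx (-1) (by omega)) nofun
        (by decide)
    · exact cv {1, 5, -7, -3} _ 10 (-2) false (gr 10 (by omega)) (gx (-2) (by omega)) nofun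
        (by decide)
    · exact cv {1, 5, -7, -3} _ 14 (-1) false (gr 14 (by omega)) (gx (-1) (by omega)) nofun
        (by decide)
    · have key : ∀ x : ℤ, trETAB1 (x ^ 3 + D * x) → x % 8 = 3 ∨ x % 8 = 5 →
          InL η (Dec (nv 2 1)) (chT (kap (3 : ℤ)) T) ∨ InL η (Dec (nv 2 1)) (chT (kap (5 : ℤ)) T) :=
        fun x h1 h2 => h2.imp (fun h3 => red_ETAB1 hKUM hKAP (gx x h1) (by omega))
          fun h3 => red_ETAB1 hKUM hKAP (gx x h1) (by omega)
      unfold trETAB1 at key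
      have h1 : InL η (Dec (nv 2 1)) (chT (kap (3 : ℤ)) T) ∨
          InL η (Dec (nv 2 1)) (chT (kap (5 : ℤ)) T) := by
        obtain h | h | h | h | h | h | h | h : D % 128 = 7 ∨ D % 128 = 23 ∨ D % 128 = 39 ∨
          D % 128 = 55 ∨ D % 128 = 71 ∨ D % 128 = 87 ∨ D % 128 = 103 ∨ D % 128 = 119 := by omega
        · exact key (-13) (by omega) (by omega)
        · exact key (-5) (by omega) (by omega)
        · exact key 3 (by omega) (by omega)
        · exact key 5 (by omega) (by omega)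
        · exact key (-3) (by omega) (by omega)
        · exact key (-11) (by omega) (by omega)
        · exact key (-19) (by omega) (by omega)
        · exact key (-21) (by omega) (by omega)
      rcases h1 with h1 | h1
      · exact cv {1, 2, -7, -14} _ 7 3 false (gr 7 (by omega)) h1 nofun (by decide)
      · exact cv {1, 2, -7, -14} _ 7 5 false (gr 7 (by omega)) h1 nofun (by decide)
    · obtain h | h : D % 32 = 11 ∨ D % 32 = 27 := by omega
      · exact cv {1, 2, -7, -14} _ 3 (-3) false (gr 3 (by omega)) (gx (-3) (by omega)) nofun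
          (by decide)
      · exact cv {1, 2, -7, -14} _ 3 (-1) false (gr 3 (by omega)) (gx (-1) (by omega)) nofun
          (by decide)
  · rw [lz, if_neg fun h => hn.not_gt h.1]
    have hi : ∀ r : ℤ, InL η (Subgroup.zpowers cc) (chT (kap r) T) := fun r => by
      by_cases hr : r < 0
      · exact congr_ETAB1 (gD _) (inf_ETAB1 hKAP hDIC hc (iff_of_true (by exact_mod_cast hr)
          (by exact_mod_cast hn)))
      · refine zero_ETAB1 fun g hg => ?_
        rw [inf_ETAB1 hKAP hDIC hc (b := 1 ^ 2) (iff_of_false (by exact_mod_cast hr)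
          (by norm_num)) g hg, hKAP.2.2.2.1]
    simp only [mem_insert, mem_singleton] at hR
    obtain h | h | h : D % 8 = 3 ∨ D % 8 = 5 ∨ D % 8 = 7 := by omega
    · exact cv {1, 5, 2, 10} _ 3 1 true (gr 3 (by omega)) g1 (fun _ => hi) (by decide)
    · exact cv {1, 3, 2, 6} _ 5 1 true (gr 5 (by omega)) g1 (fun _ => hi) (by decide)
    · exact cv {1, 3, 2, 6} _ 7 1 true (gr 7 (by omega)) g1 (fun _ => hi) (by decide)

end Pool.Agent.MP_e23604_nt.R

end

section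

set_option autoImplicit false

open Module Filter Topology Finset
open scoped Classical

namespace Pool.Agent.MP_e23604_nt.R

open B
open Q (Wn dig CmI Cm0 Pre A1 Eta Jm scf St Cork Fg IdxQ basQ levQ)

theorem eta_INST {δ δ' : Qb} {η : Act A1} (c : ℤ) (hc : c ≠ 0) (e : δ' = c * δ) (h : Eta δ' η) :
    Eta δ η := by
  intro g R
  have : (c : Qb) ≠ 0 := Int.cast_ne_zero.2 hc
  rw [h g R, e, map_mul, map_intCast, mul_div_mul_left _ _ this]

theorem three_INST {A : Type} [AddCommGroup A] {J : A ≃ₗ[ℤ] A} (h : CmI J) (T : A) :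
    ∃ T' : A, 2 • T' = 0 ∧ T' ≠ 0 ∧ T' ≠ T := by
  by_contra hn
  have h1 : (Wn J 2 : Set A) ⊆ {0, T} := fun u hu => by
    have h2 : 2 ^ 1 • u = 0 := (W_tor h.toCm0 1).1 hu
    by_contra h3
    exact hn ⟨u, h2, fun e => h3 (Or.inl e), fun e => h3 (Or.inr e)⟩
  have h4 := (Set.ncard_le_ncard h1).trans (Set.ncard_insert_le 0 {T})
  have h5 : (Wn J 2 : Set A).ncard = 2 ^ 2 := W_card h 2
  rw [h5, Set.ncard_singleton] at h4
  omega

theorem fin_INST {A : Type} [AddCommGroup A] {J : A ≃ₗ[ℤ] A} (h : CmI J) (K : ℕ) :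
    Finite (tor A (2 ^ K)) := by
  have : Finite (Wn J (2 * K)) := Nat.finite_of_card_ne_zero (by rw [W_card h]; positivity)
  exact Finite.of_injective (fun u : tor A (2 ^ K) => (⟨u.1, (W_tor h.toCm0 K).2 u.2⟩ : Wn J (2 * K)))
    fun u v e => Subtype.ext (Subtype.mk.inj e)

theorem INST_pf (hGA : GA_st) (hTW : TW_st) (hTH : TH_st) (hWEIL : WEIL_st) (hISO : ISO_st) (hTAB0 : TAB0_st) (hTAB1 : TAB1_st) : INST_st := by
  intro i δ J η D hJ hη hD hδ a n cc ha h1 h2 h3 h4 h5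
  have cm : CmI J := ((Q.modQ basQ Q.scQ i).2 J hJ).1
  have hi := hJ.1
  have e2 : (1 - i) ^ 2 = -2 * i := by linear_combination hi
  have e4 : (1 - i) ^ 4 = -4 := by
    rw [show 4 = 2 * 2 from rfl, pow_mul, e2]
    linear_combination 4 * hi
  have i4 : ∀ m : ℕ, (i ^ m * δ) ^ 4 = D := fun m => by
    rw [mul_pow, hδ, ← pow_mul, mul_comm m, pow_mul, show i ^ 4 = 1 by
      linear_combination (i ^ 2 - 1) * hi, one_pow, one_mul]
  have d0 : ∀ j : ℕ, (-4) ^ j * D ≠ 0 := fun j => mul_ne_zero (pow_ne_zero _ (by norm_num)) hD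
  have d4 : ∀ j : ℕ, ((1 - i) ^ j * δ) ^ 4 = (((-4) ^ j * D : ℤ) : Qb) := fun j => by
    rw [mul_pow, hδ, ← pow_mul, mul_comm j, pow_mul, e4]
    push_cast
    rfl
  have ex : ∀ j : ℕ, ∃ η', Eta ((1 - i) ^ j * δ) η' ∧ (j = 0 → η' = η) := by
    intro j
    rcases j with _ | j
    · exact ⟨η, by simpa using hη, fun _ => rfl⟩
    · obtain ⟨η', h⟩ := Q.etaQ Q.scQ _ _ (d0 (j + 1)) (d4 (j + 1))
      exact ⟨η', h, fun e => absurd e (Nat.succ_ne_zero j)⟩
  choose η' hη' h0 using ex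
  obtain ⟨T, hT⟩ := cm.ex
  have ga : ∀ j, Ga J n (η' j) := fun j =>
    hGA i _ J _ _ hJ (hη' j) (d0 j) (d4 j) (a + 2 * j) n (by
      rw [Int.natAbs_mul, Int.natAbs_pow, ha, pow_add, pow_mul, mul_right_comm, mul_comm]
      rfl) h1 h2
  have tw : ∀ j g u, wo J (η' j g u) = η' (j + 1) g (wo J u) := fun j =>
    hTW i _ J _ _ hJ (hη' j) (d0 j) (d4 j) _ (by
      rw [← mul_assoc, ← pow_succ']
      exact hη' (j + 1))
  have lz2 : lz D = 4 ∨ lz D = 2 := by
    unfold lz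
    split_ifs
    exacts [Or.inl rfl, Or.inr rfl]
  refine ⟨η', T, fun j => if Even j then lz D else 4 - lz D, h0 0 rfl, ?_, fun j => ?_, tw,
    fun j g u => ?_, fun j => ?_, fun j => ?_⟩
  · beta_reduce
    rw [if_pos Even.zero]
    rcases lz2 with e | e <;> rw [e] <;> decide
  · refine ⟨cm, hT, h1, h2, h3, h4, ga j, fun K => ?_⟩
    obtain ⟨F, _, _, τ, g, o, hth⟩ := hTH i _ J _ _ hJ (hη' j) (d0 j) (d4 j)
    have hv : ∀ P : A1, ∃ P' : A1, 2 • P' = P := two_surj cm 1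
    obtain ⟨e, p1, p2, p3⟩ := hWEIL A1 F _ τ g o hth hv K (three_INST cm) (fin_INST cm K)
    exact ⟨e, p1, p3, hISO A1 F _ τ g o hth hv _ e (ga j).opn p2⟩
  · obtain ⟨v, rfl⟩ := two_surj cm 1 u
    have e := (congrArg (wo J) (tw j g v)).trans (tw (j + 1) g (wo J v))
    rw [om_om cm.toCm0, om_om cm.toCm0, map_neg, neg_inj] at e
    rw [pow_one, map_nsmul, map_nsmul, e, map_nsmul J]
  · obtain ⟨m, rfl | rfl⟩ := Nat.even_or_odd' j
    · rw [if_pos (even_two_mul m)]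
      refine hTAB0 i (i ^ m * δ) J _ D hJ (eta_INST ((-2) ^ m) (pow_ne_zero _ (by norm_num)) ?_
        (hη' _)) hD (i4 m) T cc hT (ga _).pre h4 h5
      rw [pow_mul, e2, mul_pow, mul_assoc]
      push_cast
      rfl
    · rw [if_neg (Nat.not_even_two_mul_add_one m)]
      refine hTAB1 i ((1 - i) * (i ^ m * δ)) J _ (-4 * D) hJ
        (eta_INST ((-2) ^ m) (pow_ne_zero _ (by norm_num)) ?_ (hη' _))
        (mul_ne_zero (by norm_num) hD) ?_ T cc D hT (ga _).pre h4 rfl h5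
      · rw [pow_succ, pow_mul, e2, mul_pow]
        push_cast
        ring
      · rw [mul_pow, i4, e4]
        push_cast
        rfl
  · by_cases h : Even j
    · rw [if_pos h, if_neg (by rwa [Nat.even_add_one, not_not])]
      omega
    · rw [if_neg h, if_pos (Nat.even_add_one.2 h)]
      omega

end Pool.Agent.MP_e23604_nt.R

end

section

set_option autoImplicit false

open Module Filter Topology Finset
open scoped Classical

namespace Pool.Agent.MP_e23604_nt.R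

open B
open Q (Wn dig CmI Cm0 Pre A1 Eta Jm scf St Cork Fg IdxQ basQ levQ)

/-- the chain of twists in the odd classes -/
def INSO_st : Prop := AllE fun _ _ J η D => ∀ (a n : ℕ) (cc : GQ), D.natAbs = 2 ^ a * n → Odd n →
  Squarefree n → G8 n → CC cc → Ro D →
  ∃ (η' : ℕ → Act A1) (T : A1) (ℓ : ℕ → ℕ), η' 0 = η ∧ Odd (ℓ 0) ∧ Ps J η' n cc T ℓ

theorem INSO_pf (hGA : GA_st) (hTW : TW_st) (hTH : TH_st) (hWEIL : WEIL_st) (hISO : ISO_st)
    (hTAB0 : TAB2_st) (hTAB1 : TAB3_st) : INSO_st := by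
  intro i δ J η D hJ hη hD hδ a n cc ha h1 h2 h3 h4 h5
  have cm : CmI J := ((Q.modQ basQ Q.scQ i).2 J hJ).1
  have hi := hJ.1
  have e2 : (1 - i) ^ 2 = -2 * i := by linear_combination hi
  have e4 : (1 - i) ^ 4 = -4 := by
    rw [show 4 = 2 * 2 from rfl, pow_mul, e2]
    linear_combination 4 * hi
  have i4 : ∀ m : ℕ, (i ^ m * δ) ^ 4 = D := fun m => by
    rw [mul_pow, hδ, ← pow_mul, mul_comm m, pow_mul, show i ^ 4 = 1 by
      linear_combination (i ^ 2 - 1) * hi, one_pow, one_mul]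
  have d0 : ∀ j : ℕ, (-4) ^ j * D ≠ 0 := fun j => mul_ne_zero (pow_ne_zero _ (by norm_num)) hD
  have d4 : ∀ j : ℕ, ((1 - i) ^ j * δ) ^ 4 = (((-4) ^ j * D : ℤ) : Qb) := fun j => by
    rw [mul_pow, hδ, ← pow_mul, mul_comm j, pow_mul, e4]
    push_cast
    rfl
  have ex : ∀ j : ℕ, ∃ η', Eta ((1 - i) ^ j * δ) η' ∧ (j = 0 → η' = η) := by
    intro j
    rcases j with _ | j
    · exact ⟨η, by simpa using hη, fun _ => rfl⟩
    · obtain ⟨η', h⟩ := Q.etaQ Q.scQ _ _ (d0 (j + 1)) (d4 (j + 1))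
      exact ⟨η', h, fun e => absurd e (Nat.succ_ne_zero j)⟩
  choose η' hη' h0 using ex
  obtain ⟨T, hT⟩ := cm.ex
  have ga : ∀ j, Ga J n (η' j) := fun j =>
    hGA i _ J _ _ hJ (hη' j) (d0 j) (d4 j) (a + 2 * j) n (by
      rw [Int.natAbs_mul, Int.natAbs_pow, ha, pow_add, pow_mul, mul_right_comm, mul_comm]
      rfl) h1 h2
  have tw : ∀ j g u, wo J (η' j g u) = η' (j + 1) g (wo J u) := fun j =>
    hTW i _ J _ _ hJ (hη' j) (d0 j) (d4 j) _ (by
      rw [← mul_assoc, ← pow_succ']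
      exact hη' (j + 1))
  have lz2 : lo D = 3 ∨ lo D = 1 := by
    unfold lo
    split_ifs
    exacts [Or.inl rfl, Or.inr rfl]
  refine ⟨η', T, fun j => if Even j then lo D else 4 - lo D, h0 0 rfl, ?_, fun j => ?_, tw,
    fun j g u => ?_, fun j => ?_, fun j => ?_⟩
  · beta_reduce
    rw [if_pos Even.zero]
    rcases lz2 with e | e <;> rw [e] <;> decide
  · refine ⟨cm, hT, h1, h2, h3, h4, ga j, fun K => ?_⟩
    obtain ⟨F, _, _, τ, g, o, hth⟩ := hTH i _ J _ _ hJ (hη' j) (d0 j) (d4 j)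
    have hv : ∀ P : A1, ∃ P' : A1, 2 • P' = P := two_surj cm 1
    obtain ⟨e, p1, p2, p3⟩ := hWEIL A1 F _ τ g o hth hv K (three_INST cm) (fin_INST cm K)
    exact ⟨e, p1, p3, hISO A1 F _ τ g o hth hv _ e (ga j).opn p2⟩
  · obtain ⟨v, rfl⟩ := two_surj cm 1 u
    have e := (congrArg (wo J) (tw j g v)).trans (tw (j + 1) g (wo J v))
    rw [om_om cm.toCm0, om_om cm.toCm0, map_neg, neg_inj] at e
    rw [pow_one, map_nsmul, map_nsmul, e, map_nsmul J]
  · obtain ⟨m, rfl | rfl⟩ := Nat.even_or_odd' j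
    · rw [if_pos (even_two_mul m)]
      refine hTAB0 i (i ^ m * δ) J _ D hJ (eta_INST ((-2) ^ m) (pow_ne_zero _ (by norm_num)) ?_
        (hη' _)) hD (i4 m) T cc hT (ga _).pre h4 h5
      rw [pow_mul, e2, mul_pow, mul_assoc]
      push_cast
      rfl
    · rw [if_neg (Nat.not_even_two_mul_add_one m)]
      refine hTAB1 i ((1 - i) * (i ^ m * δ)) J _ (-4 * D) hJ
        (eta_INST ((-2) ^ m) (pow_ne_zero _ (by norm_num)) ?_ (hη' _))
        (mul_ne_zero (by norm_num) hD) ?_ T cc D hT (ga _).pre h4 rfl h5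
      · rw [pow_succ, pow_mul, e2, mul_pow]
        push_cast
        ring
      · rw [mul_pow, i4, e4]
        push_cast
        rfl
  · by_cases h : Even j
    · rw [if_pos h, if_neg (by rwa [Nat.even_add_one, not_not])]
      omega
    · rw [if_neg h, if_pos (Nat.even_add_one.2 h)]
      omega

end Pool.Agent.MP_e23604_nt.R

end

section

set_option autoImplicit false

open Module Filter Topology Finset
open scoped Classical

namespace Pool.Agent.MP_e23604_nt.R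

open B
open Q (Wn dig CmI Cm0 Pre A1 Eta Jm scf St Cork Fg IdxQ basQ levQ)

theorem TAB3_pf (hPT : PT_st) (hKUM : KUM_st) (hKAP : KAP_st) (hDIC : DIC_st) : TAB3_st := by
  intro i δ J η D' hJ hη hD' hδ T cc D hT _ hc e hR
  have h0 : Cm0 J := ((Q.modQ basQ Q.scQ i).2 J hJ).1.toCm0
  have D0 : D ≠ 0 := by omega
  obtain ⟨h4, hR⟩ := hR
  simp only [Rt, mem_insert, mem_singleton] at hR
  obtain ⟨p1, p2⟩ := hPT i δ J η D' hJ hη hD' hδ T hT
  have gD : ∀ H, InL η H (chT (kap D) T) := fun H => by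
    obtain ⟨R, hR⟩ := p2
    refine congr_ETAB1 (χ := kap (-D')) ⟨R, fun g _ => hR g trivial⟩ fun g _ => ?_
    rw [← sq_ETAB1 hKAP two_ne_zero D0, e]
    congr 1
    push_cast
    ring
  have gx : ∀ x : ℤ, trETAB1 (x ^ 3 + D * x) → InL η (Dec (nv 2 1)) (chT (kap x) T) := fun x hx => by
    have n0 : x ^ 3 + D * x ≠ 0 := by omega
    have x0 : x ≠ 0 := by
      rintro rfl
      simp at n0
    refine congr_ETAB1 (p1 _ (2 ^ 2 * x : ℤ) (by exact_mod_cast mul_ne_zero four_ne_zero x0)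
      fun g hg => ?_) fun g _ => (sq_ETAB1 hKAP two_ne_zero x0 g).symm
    rw [← tr_ETAB1 hKUM hKAP hx g hg, ← sq_ETAB1 hKAP (a := 8) (by norm_num) n0, e]
    congr 1
    push_cast
    ring
  have g1 : InL η (Dec (nv 2 1)) (chT (kap (1 : ℤ)) T) := zero_ETAB1 (one_ETAB1 hKUM hKAP rfl)
  have gr : ∀ r : ℤ, trETAB1 (D * r) → InL η (Dec (nv 2 1)) (chT (kap r) T) := fun r hr =>
    red_ETAB1 hKUM hKAP (gD _) hr
  have cv := cov_ETAB1 (η := η) hKUM hKAP hDIC h0 hT.1 hc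
  unfold trETAB1 at gx gr
  rcases D0.lt_or_gt with hn | hp
  · have hi : ∀ r : ℤ, InL η (Subgroup.zpowers cc) (chT (kap r) T) := fun r => by
      by_cases hr : r < 0
      · exact congr_ETAB1 (gD _) (inf_ETAB1 hKAP hDIC hc (iff_of_true (by exact_mod_cast hr)
          (by exact_mod_cast hn)))
      · refine zero_ETAB1 fun g hg => ?_
        rw [inf_ETAB1 hKAP hDIC hc (b := 1 ^ 2) (iff_of_false (by exact_mod_cast hr)
          (by norm_num)) g hg, hKAP.2.2.2.1]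
    by_cases h8 : D % 8 = 1
    · rw [lo, if_pos (Or.inr h8)]
      exact cv {1, 3, 5, 7, 2, 6, 10, 14} _ 1 1 true g1 g1 (fun _ => hi) (by decide)
    rw [lo, if_neg (by omega)]
    obtain h | h | h | h | h | h : D % 16 = 2 ∨ D % 16 = 6 ∨ D % 16 = 10 ∨ D % 16 = 14 ∨
      D % 16 = 7 ∨ D % 16 = 11 := by omega
    · exact cv {1, 5} _ 2 3 true (gr 2 (by omega)) (gx 3 (by omega)) (fun _ => hi) (by decide)
    · exact cv {1, 5} _ 6 (-1) true (gr 6 (by omega)) (gx (-1) (by omega)) (fun _ => hi)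
        (by decide)
    · exact cv {1, 5} _ 10 (-2) true (gr 10 (by omega)) (gx (-2) (by omega)) (fun _ => hi)
        (by decide)
    · exact cv {1, 5} _ 14 (-1) true (gr 14 (by omega)) (gx (-1) (by omega)) (fun _ => hi)
        (by decide)
    · have key : ∀ x : ℤ, trETAB1 (x ^ 3 + D * x) → x % 8 = 3 ∨ x % 8 = 5 →
          InL η (Dec (nv 2 1)) (chT (kap (3 : ℤ)) T) ∨ InL η (Dec (nv 2 1)) (chT (kap (5 : ℤ)) T) :=
        fun x h1 h2 => h2.imp (fun h3 => red_ETAB1 hKUM hKAP (gx x h1) (by omega))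
          fun h3 => red_ETAB1 hKUM hKAP (gx x h1) (by omega)
      unfold trETAB1 at key
      have h1 : InL η (Dec (nv 2 1)) (chT (kap (3 : ℤ)) T) ∨
          InL η (Dec (nv 2 1)) (chT (kap (5 : ℤ)) T) := by
        obtain h | h | h | h | h | h | h | h : D % 128 = 7 ∨ D % 128 = 23 ∨ D % 128 = 39 ∨
          D % 128 = 55 ∨ D % 128 = 71 ∨ D % 128 = 87 ∨ D % 128 = 103 ∨ D % 128 = 119 := by omega
        · exact key (-13) (by omega) (by omega)
        · exact key (-5) (by omega) (by omega)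
        · exact key 3 (by omega) (by omega)
        · exact key 5 (by omega) (by omega)
        · exact key (-3) (by omega) (by omega)
        · exact key (-11) (by omega) (by omega)
        · exact key (-19) (by omega) (by omega)
        · exact key (-21) (by omega) (by omega)
      rcases h1 with h1 | h1
      · exact cv {1, 2} _ 7 3 true (gr 7 (by omega)) h1 (fun _ => hi) (by decide)
      · exact cv {1, 2} _ 7 5 true (gr 7 (by omega)) h1 (fun _ => hi) (by decide)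
    · obtain h | h : D % 32 = 11 ∨ D % 32 = 27 := by omega
      · exact cv {1, 2} _ 3 (-3) true (gr 3 (by omega)) (gx (-3) (by omega)) (fun _ => hi)
          (by decide)
      · exact cv {1, 2} _ 3 (-1) true (gr 3 (by omega)) (gx (-1) (by omega)) (fun _ => hi)
          (by decide)
  · rw [lo, if_pos (Or.inl hp)]
    obtain h | h | h : D % 8 = 3 ∨ D % 8 = 5 ∨ D % 8 = 7 := by omega
    · exact cv {1, 5, 2, 10, -7, -3, -14, -6} _ 3 1 false (gr 3 (by omega)) g1 nofun (by decide)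
    · exact cv {1, 3, 2, 6, -7, -5, -14, -10} _ 5 1 false (gr 5 (by omega)) g1 nofun (by decide)
    · exact cv {1, 3, 2, 6, -7, -5, -14, -10} _ 7 1 false (gr 7 (by omega)) g1 nofun (by decide)

end Pool.Agent.MP_e23604_nt.R

end

section

namespace Pool.Agent.MP_f68ac8_nt.Nd

open Zq Zv Zk Finset
open scoped BigOperators

/-- the coefficient of the diagonal -/
def c1_NrGen (t : Om4 × Om4) (a : Om4) : ZMod 2 :=
  a.2.1 * (a.1.1 * t.1.1.1 + t.1.2.1) + a.2.2 * (a.1.2 * t.2.1.1 + t.2.2.1)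

/-- the coefficient of the last column -/
def c2_NrGen (t : Om4 × Om4) (a : Om4) : ZMod 2 :=
  a.2.1 * (a.1.1 * t.1.1.2 + t.1.2.2) + a.2.2 * (a.1.2 * t.2.1.2 + t.2.2.2)

variable {d : ℕ}

open Classical in
/-- the number of pairs of solutions -/
noncomputable def cn_NrGen (t : Om4 × Om4) (X : (Fin d → ZMod 2) → (Fin d → ZMod 2) → Prop)
    (r : Mx d) (k : Fin d → ZMod 2) : ℕ :=
  (univ.filter fun v : (Fin d → ZMod 2) × (Fin d → ZMod 2) =>
    X v.1 v.2 ∧ KQ r k t.1.1 t.1.2 v.1 ∧ KQ r k t.2.1 t.2.2 v.2).card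

open Classical in
theorem orth_NrGen (w : Fin d → ZMod 2) :
    ∑ z : Fin d → ZMod 2, sg (∑ i, z i * w i) / 2 ^ d = if ∀ i, w i = 0 then 1 else 0 := by
  have h := orth_ZqRd w
  rw [expect_eq_sum_div_card] at h
  rw [← sum_div]
  convert h using 2
  simp

/-- splitting a sequence of colours -/
def eq_NrGen : ((Fin d → ZMod 2) × (Fin d → ZMod 2)) × (Fin d → ZMod 2) × (Fin d → ZMod 2) ≃
    (Fin d → Om4) where
  toFun v i := ((v.1.1 i, v.1.2 i), (v.2.1 i, v.2.2 i))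
  invFun s := ((fun i => (s i).1.1, fun i => (s i).1.2), (fun i => (s i).2.1, fun i => (s i).2.2))
  left_inv _ := rfl
  right_inv _ := rfl

open Classical in
theorem cnt_NrGen (t : Om4 × Om4) (X : (Fin d → ZMod 2) → (Fin d → ZMod 2) → Prop) (r : Mx d)
    (k : Fin d → ZMod 2) : (cn_NrGen t X r k : ℝ) =
    ∑ s : Fin d → Om4 with X (fun i => (s i).1.1) (fun i => (s i).1.2),
      sg (PhQ f4 (c1_NrGen t) (c2_NrGen t) r k s) / ((4 : ℕ) : ℝ) ^ d := by
  rw [sum_filter, ← eq_NrGen.sum_comp, Fintype.sum_prod_type, cn_NrGen, card_filter]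
  push_cast
  refine sum_congr rfl fun v _ => ?_
  by_cases hX : X v.1 v.2
  swap
  · rw [if_neg fun h => hX h.1, eq_comm]
    exact sum_eq_zero fun y _ => if_neg hX
  have h1 : ∀ y : (Fin d → ZMod 2) × (Fin d → ZMod 2),
      sg (PhQ f4 (c1_NrGen t) (c2_NrGen t) r k (eq_NrGen (v, y))) / (4 : ℝ) ^ d =
      (sg (∑ i, y.1 i * (∑ j, r i j * (v.1 i + v.1 j) + v.1 i * (t.1.1.1 * r i i + t.1.1.2 * k i) +
        (t.1.2.1 * r i i + t.1.2.2 * k i))) / 2 ^ d) *
      (sg (∑ i, y.2 i * (∑ j, r i j * (v.2 i + v.2 j) + v.2 i * (t.2.1.1 * r i i + t.2.1.2 * k i) +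
        (t.2.2.1 * r i i + t.2.2.2 * k i))) / 2 ^ d) := fun y => by
    rw [div_mul_div_comm, ← sg_add_NcRd, ← mul_pow, ← sum_add_distrib]
    congr 2
    · refine sum_congr rfl fun i _ => ?_
      have h2 : ∑ j, r i j * f4 (eq_NrGen (v, y) i) (eq_NrGen (v, y) j) =
          y.1 i * ∑ j, r i j * (v.1 i + v.1 j) + y.2 i * ∑ j, r i j * (v.2 i + v.2 j) := by
        rw [mul_sum, mul_sum, ← sum_add_distrib]
        refine sum_congr rfl fun j _ => ?_
        simp only [f4, eq_NrGen, Equiv.coe_fn_mk]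
        ring
      rw [h2]
      simp only [c1_NrGen, c2_NrGen, eq_NrGen, Equiv.coe_fn_mk]
      ring
    · norm_num
  refine Eq.trans ?_ (sum_congr rfl fun y _ => (if_pos hX).trans (h1 y)).symm
  rw [Fintype.sum_prod_type]
  simp only [← sum_mul_sum, orth_NrGen, hX, KQ, true_and, ite_and, mul_ite, mul_one, mul_zero]
  split_ifs <;> rfl

/-- the bad pairs -/
def bad_NrGen (Sm Lg : Finset (Fin d)) (m : ℕ) (t : Om4 × Om4) (u z : Fin d → ZMod 2) : Prop :=
  ¬ (Cst u ∨ Cst z ∨ Cst (u + z) ∨ RichQ Sm Lg m u z) ∨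
    (u = z ∧ ¬ Cst u ∧ t.2.1 = t.1.1 + (1, 0)) ∨ (u = 0 ∧ z = 0 ∧ t.1.2 ≠ 0 ∧ t.2.2 = 0)

theorem can_NrGen (Sm Lg : Finset (Fin d)) (m : ℕ) (t : Om4 × Om4) (s : Fin d → Om4)
    (hX : bad_NrGen Sm Lg m t (fun i => (s i).1.1) fun i => (s i).1.2)
    (h4 : 4 ≤ (Lg.image s).card) (h1 : ∀ i j, f4 (s i) (s j) = f4 (s j) (s i))
    (h2 : ∀ i, c2_NrGen t (s i) = 0)
    (h3 : ∀ j, s j ∈ Lg.image s ∧ m ≤ (Sm.filter fun j' => s j' = s j).card) :
    ∃ i i', c1_NrGen t (s i) ≠ c1_NrGen t (s i') ∧ ∀ j, f4 (s i) (s j) = f4 (s i') (s j) := by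
  obtain ⟨L, ⟨p1, p2, p3⟩, -, hL⟩ := list_NrClq (Lg.image s) (fun a ha b hb => by
    obtain ⟨i, -, rfl⟩ := mem_image.1 ha
    obtain ⟨j, -, rfl⟩ := mem_image.1 hb
    exact h1 i j) h4
  have hs : ∀ j, s j ∈ L := fun j => (hL _).1 (h3 j).1
  have hx : ∀ x ∈ L, ∃ i ∈ Lg, s i = x := fun x hx => mem_image.1 ((hL x).2 hx)
  rcases hX with hX | ⟨e, hc, ht⟩ | ⟨e, e', hg, hg'⟩
  · refine (hX ?_).elim
    rcases p1 with p | p | p | p
    · exact .inl fun i j => p _ (hs i) _ (hs j)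
    · exact .inr (.inl fun i j => p _ (hs i) _ (hs j))
    · exact .inr (.inr (.inl fun i j => p _ (hs i) _ (hs j)))
    · refine .inr (.inr (.inr fun a b => ?_))
      obtain ⟨x, hx1, hx2⟩ := p (a, b)
      obtain ⟨i, hi, rfl⟩ := hx x hx1
      refine ⟨⟨i, hi, congrArg Prod.fst hx2, congrArg Prod.snd hx2⟩,
        (h3 i).2.trans (card_le_card fun j hj => ?_)⟩
      rw [mem_filter] at hj ⊢
      exact ⟨hj.1, by simp only [hj.2, hx2, and_self]⟩
  · have he : ∀ i, (s i).1.1 = (s i).1.2 := fun i => congrFun e i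
    rcases p2 (fun x hx1 => by
      obtain ⟨i, -, rfl⟩ := hx x hx1
      exact he i) with p | p
    · exact (hc fun i j => p _ (hs i) _ (hs j)).elim
    obtain ⟨x, hx1, x', hx1', e1, e2, e3⟩ := p (t.1.2.1 + t.2.2.1 + 1)
    obtain ⟨i, -, rfl⟩ := hx x hx1
    obtain ⟨i', -, rfl⟩ := hx x' hx1'
    refine ⟨i, i', ?_, fun j => ?_⟩
    · simp only [c1_NrGen, e1, e2, e3, ht, Prod.fst_add, Prod.snd_add]
      generalize (s i).2.1 = a, (s i).2.2 = b, t.1.1.1 = c, t.1.2.1 = g, t.2.2.1 = g'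
      revert a b c g g'
      decide
    · simp only [f4, e1, e2, e3, ← he j, Prod.fst_add, Prod.snd_add]
      generalize (s i).2.1 = a, (s i).2.2 = b, (s j).1.1 = c, t.1.2.1 + t.2.2.1 + 1 = g
      revert a b c g
      decide
  · have he : ∀ i, (s i).1 = 0 := fun i => Prod.ext (congrFun e i) (congrFun e' i)
    obtain ⟨x, hx1, x', hx1', e1, e2⟩ := p3 fun x hx1 => by
      obtain ⟨i, -, rfl⟩ := hx x hx1
      exact he i
    obtain ⟨i, -, rfl⟩ := hx x hx1
    obtain ⟨i', -, rfl⟩ := hx x' hx1'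
    refine ⟨i, i', ?_, fun j => by simp [f4, he]⟩
    have h5 := h2 i
    simp only [c1_NrGen, c2_NrGen, he, e1, e2, hg', Prod.fst_zero, Prod.snd_zero, zero_mul,
      mul_zero, add_zero, zero_add, one_mul] at h5 ⊢
    exact fun h6 => hg (Prod.ext h6 h5)

open Classical in
theorem ind_NrGen (Sm Lg : Finset (Fin d)) (B m : ℕ) (hB : 0 < B) (r : Mx d)
    (k : Fin d → ZMod 2) : (if GenQ Sm Lg B m r k then 0 else 1 : ℝ) ≤ ∑ t : Om4 × Om4,
      ((cn_NrGen t (fun _ _ => True) r k : ℝ) / B + cn_NrGen t (bad_NrGen Sm Lg m t) r k) := by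
  have hB0 : (0 : ℝ) < B := by exact_mod_cast hB
  have h0 : ∀ t : Om4 × Om4, (0 : ℝ) ≤
      (cn_NrGen t (fun _ _ => True) r k : ℝ) / B + cn_NrGen t (bad_NrGen Sm Lg m t) r k :=
    fun t => by positivity
  split_ifs with h
  · exact sum_nonneg fun t _ => h0 t
  by_contra h1
  have h2 := fun t => (single_le_sum (fun t _ => h0 t) (mem_univ t)).trans_lt (not_le.1 h1)
  have h3 : ∀ (t : Om4 × Om4) u z, KQ r k t.1.1 t.1.2 u → KQ r k t.2.1 t.2.2 z →
      ¬ bad_NrGen Sm Lg m t u z := fun t u z hu hz hb => by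
    have h4 : 1 ≤ cn_NrGen t (bad_NrGen Sm Lg m t) r k :=
      card_pos.2 ⟨(u, z), mem_filter.2 ⟨mem_univ _, hb, hu, hz⟩⟩
    have h5 : (1 : ℝ) ≤ cn_NrGen t (bad_NrGen Sm Lg m t) r k := by exact_mod_cast h4
    have h6 : (0 : ℝ) ≤ (cn_NrGen t (fun _ _ => True) r k : ℝ) / B := by positivity
    linarith [h2 t]
  have hz : ∀ b, KQ r k b 0 0 := fun b i => by simp
  refine h ⟨fun b g => ?_, fun b g b' g' u z hu hz => ?_, fun b g g' u hu hu' => ?_, fun g hg => ?_⟩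
  · have h4 : {u | KQ r k b g u}.ncard ≤ cn_NrGen ((b, g), (0, 0)) (fun _ _ => True) r k := by
      rw [cn_NrGen, ← Set.ncard_coe_finset]
      exact Set.ncard_le_ncard_of_injOn (fun u => (u, 0))
        (fun u hu => by
          simp only [coe_filter, mem_univ, true_and]
          exact ⟨hu, hz 0⟩)
        fun u _ u' _ e => congrArg Prod.fst e
    have h5 : (cn_NrGen ((b, g), (0, 0)) (fun _ _ => True) r k : ℝ) / B < 1 := by
      linarith [h2 ((b, g), (0, 0)), Nat.cast_nonneg (α := ℝ)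
        (cn_NrGen ((b, g), (0, 0)) (bad_NrGen Sm Lg m ((b, g), (0, 0))) r k)]
    rw [div_lt_one hB0] at h5
    exact h4.trans (by exact_mod_cast h5.le)
  · by_contra h4
    exact h3 ((b, g), (b', g')) u z hu hz (.inl h4)
  · by_contra h4
    exact h3 ((b, g), (b + (1, 0), g')) u u hu hu' (.inr (.inl ⟨rfl, h4, rfl⟩))
  · by_contra h4
    exact h3 ((0, g), (0, 0)) 0 0 (fun i => by simpa using hg i) (hz 0)
      (.inr (.inr ⟨rfl, rfl, h4, rfl⟩))

theorem genR (hM : MasQ) : GenR := by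
  classical
  intro ε hε
  obtain ⟨δ, C, hδ, hC, h1, h2⟩ := hM Om4 4 f4 (by norm_num)
    (fun a => by
      have : ∀ x : ZMod 2, x + x = 0 := by decide
      simp [f4, this]) card_NrClq
  obtain ⟨B, hB⟩ := exists_nat_gt (2 ^ 16 * 512 / ε)
  have hB0 : (0 : ℝ) < B := lt_trans (by positivity) hB
  have hB' : 0 < B := by exact_mod_cast hB0
  have hB1 : (1 : ℝ) ≤ B := by exact_mod_cast hB'
  refine ⟨B, δ, 512 * C, hδ, by linarith, fun m => ?_⟩
  obtain ⟨m₀, h3⟩ := h2 m (ε / 512) (by positivity)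
  refine ⟨m₀, fun d ν Sm Lg η hO hT => ?_⟩
  have hν : 0 ≤ ∑ r, ν r := sum_nonneg fun r _ => hO.nn r
  have hη : 0 ≤ C ^ (d + 1) * η := mul_nonneg (by positivity) hO.pos
  have h4 : ∀ t : Om4 × Om4, ∑ r, ν r * ((cn_NrGen t (fun _ _ => True) (ul r) (lc r) : ℝ) / B +
      cn_NrGen t (bad_NrGen Sm Lg m t) (ul r) (lc r)) ≤
      ε / 256 * ∑ r, ν r + 2 * (C ^ (d + 1) * η) := fun t => by
    have h5 := h1 (c1_NrGen t) (c2_NrGen t) d ν Lg η hO hT.thin
    have h6 := h3 (c1_NrGen t) (c2_NrGen t) d ν Sm Lg η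
      (fun s => bad_NrGen Sm Lg m t (fun i => (s i).1.1) fun i => (s i).1.2) hO hT
      (can_NrGen Sm Lg m t)
    have h7 : ∑ r, ν r * (cn_NrGen t (fun _ _ => True) (ul r) (lc r) : ℝ) ≤
        2 ^ 16 * ∑ r, ν r + C ^ (d + 1) * η := by
      simp only [cnt_NrGen, filter_true]
      simpa using h5
    have h8 : ∑ r, ν r * (cn_NrGen t (bad_NrGen Sm Lg m t) (ul r) (lc r) : ℝ) ≤
        ε / 512 * ∑ r, ν r + C ^ (d + 1) * η := by
      simp only [cnt_NrGen]
      convert h6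
    have h9 : (2 : ℝ) ^ 16 / B ≤ ε / 512 := by
      rw [div_lt_iff₀ hε] at hB
      rw [div_le_div_iff₀ hB0 (by norm_num)]
      linarith
    simp only [mul_add, sum_add_distrib, ← mul_div_assoc, ← sum_div]
    have h10 := div_le_div_of_nonneg_right h7 hB0.le
    rw [add_div, mul_div_right_comm] at h10
    linarith [div_le_self hη hB1, mul_le_mul_of_nonneg_right h9 hν]
  refine (sum_le_sum fun r _ => mul_le_mul_of_nonneg_left
    (ind_NrGen Sm Lg B m hB' (ul r) (lc r)) (hO.nn r)).trans ?_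
  simp only [mul_sum _ _ (ν _)]
  rw [sum_comm]
  refine (sum_le_sum fun t _ => h4 t).trans ?_
  have h5 : (512 : ℝ) ≤ 512 ^ (d + 1) := le_self_pow₀ (by norm_num) (by omega)
  rw [sum_const, card_univ, nsmul_eq_mul, mul_pow, mul_assoc]
  have h6 : (Fintype.card (Om4 × Om4) : ℝ) = 256 := by simp
  rw [h6]
  nlinarith [mul_le_mul_of_nonneg_right h5 hη]

end Pool.Agent.MP_f68ac8_nt.Nd

end
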