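import Pool.Agent.Mg.Fe23604m.G0a5d16
import Pool.Agent.Mg.Fe23604m.G2ea9ea
import Pool.Agent.Mg.Fe23604m.G4d242a
import Pool.Agent.Mg.Fe23604m.G5e1c7f
import Pool.Agent.MP_e23604_nt.R.Res

set_option linter.all false

section

/-! From the parity theorem to the density statement. -/

set_option autoImplicit false

open Module Filter Topology Finset
open scoped Classical

namespace Pool.Agent.MP_e23604_nt.R

open B
open Q (Wn dig CmI Cm0 Pre A1 Eta Jm scf St Cork Fg IdxQ G4n Ell StrQ SelQ FgQ MainQ G4S)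
open MP_f68ac8_nt

theorem g8_two {n a b : ℕ} (ha : a ∈ n.primeFactors) (hb : b ∈ n.primeFactors)
    (h1 : a % 8 = 3 ∨ a % 8 = 5 ∨ a % 8 = 7) (h2 : b % 8 = 3 ∨ b % 8 = 5 ∨ b % 8 = 7)
    (h3 : a % 8 ≠ b % 8) : G8 n := by
  rw [Nat.mem_primeFactors] at ha hb
  have h4 : a * b ∣ n := Nat.Coprime.mul_dvd_of_dvd_of_dvd
    ((Nat.coprime_primes ha.1 hb.1).2 fun e => h3 (by rw [e])) ha.2.1 hb.2.1
  have h5 := Nat.mul_mod a b 8
  intro u hu
  rw [Nat.odd_iff] at hu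
  by_cases e1 : u % 8 = 1
  · exact ⟨1, one_dvd _, e1.symm⟩
  by_cases e2 : a % 8 = u % 8
  · exact ⟨a, ha.2.1, e2⟩
  by_cases e3 : b % 8 = u % 8
  · exact ⟨b, hb.2.1, e3⟩
  refine ⟨a * b, h4, ?_⟩
  rcases h1 with h1 | h1 | h1 <;> rcases h2 with h2 | h2 | h2 <;> rw [h1, h2] at h5 <;> omega

theorem g8_of {n : ℕ} (h : G4n n) (ho : Odd n) : G8 n := by
  have key : ∀ l ∈ n.primeFactors, l % 2 = 1 ∧
      Zk.lk 2 2 l = if l % 8 = 1 ∨ l % 8 = 7 then 0 else 1 := fun l hl => by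
    rw [Nat.mem_primeFactors] at hl
    have h1 := Nat.odd_iff.1 (ho.of_dvd_nat hl.2.1)
    exact ⟨h1, Nd.lk_NgLoc hl.1 (by rintro rfl; omega)⟩
  obtain ⟨a, ha, a1⟩ := h (1, 0) (by decide)
  obtain ⟨b, hb, b1⟩ := h (0, 1) (by decide)
  obtain ⟨c, hc, c1⟩ := h (1, 1) (by decide)
  have a0 := (key a ha).1
  have b0 := (key b hb).1
  have c0 := (key c hc).1
  rw [(key _ ‹_›).2, Zq.eps] at a1 b1 c1
  have a2 : a % 8 = 3 ∨ a % 8 = 7 := by
    by_contra e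
    rw [if_neg (by omega)] at a1
    simp at a1
  have b2 : b % 8 = 3 ∨ b % 8 = 5 := by
    by_contra e
    rw [if_pos (show b % 8 = 1 ∨ b % 8 = 7 by omega)] at b1
    simp at b1
  have c2 : c % 8 = 5 ∨ c % 8 = 7 := by
    by_contra e
    by_cases e1 : c % 8 = 1
    · rw [if_neg (by omega), if_pos (Or.inl e1)] at c1
      simp at c1
    · rw [if_pos (by omega), if_neg (by omega)] at c1
      exact c1 (by decide)
  by_cases e : a % 8 = b % 8
  · exact g8_two ha hc (by omega) (by omega) (by omega)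
  · exact g8_two ha hb (by omega) (by omega) e

/-- one curve -/
def ONE_st : Prop := ∀ i δ J η D n β σ τ, Ell i δ J η D n β σ τ → G4n n → Rt D →
  (St J η n).Finite → Fin2 (EZ D)

theorem one_pf (hDIC : DIC_st) (hINST : INST_st) (hPAR : PAR_st) (hIDX : IDX_st) (hBND : BND_st)
    (hFIN : FIN_st) (hRED : RED_st) (hI : IdxQ) (hS : StrQ) (hC : SelQ) (hF : FgQ) : ONE_st := by
  intro i δ J η D n β σ τ hE hG hR hf
  have hD : D ≠ 0 := by
    rintro rfl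
    rcases hR with h | h <;> exact lt_irrefl _ h.1
  obtain ⟨cc, hcc⟩ := hDIC.2.2.2.1
  obtain ⟨η', T, ℓ, rfl, ⟨t, ht⟩, hP⟩ := hINST i δ J η D hE.jm hE.eta hD hE.pow β.val n cc hE.abs
    hE.odd hE.sf (g8_of hG hE.odd) hcc hR
  have h1 := hS i δ J _ D n β σ τ hE hf
  refine hRED i δ J _ D hE.jm hE.eta hD hE.pow β.val n cc hE.abs (hDIC.2.2.2.2 cc hcc).1
    (hFIN _ J _ n cc T (hP.p1 0) (hBND _ J _ n cc T (hP.p1 0)
      (hIDX hI i δ J _ D hE.jm hE.eta hD hE.pow) hf) fun k hk => ?_) (hC D hD h1) (hF D hD h1)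
  have h2 := hPAR _ J η' n cc T ℓ hP k hk
  rw [ht, mul_add, pow_add] at h2
  obtain ⟨r, hr⟩ := h2
  have h3 : 2 ^ (k * t) ∣ r := by
    rw [← Nat.pow_dvd_pow_iff two_ne_zero, sq, sq, ← hr]
    exact dvd_mul_left _ _
  obtain ⟨s, rfl⟩ := h3
  exact ⟨s, Nat.eq_of_mul_eq_mul_right (by positivity) (hr.trans (by ring))⟩

end Pool.Agent.MP_e23604_nt.R

end

section

/-! The odd classes and the density statement for both parities. -/

set_option autoImplicit false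

open Module Filter Topology Finset
open scoped Classical

namespace Pool.Agent.MP_e23604_nt.R

open B
open Q (Wn dig CmI Cm0 Pre A1 Eta Jm scf St Cork Fg IdxQ G4n Ell StrQ SelQ FgQ MainQ G4S GmA)
open MP_f68ac8_nt

theorem sq_val {a t : ℕ} (ha : a ≠ 0) (h : IsSquare (a * 2 ^ t)) : Even (padicValNat 2 a + t) := by
  obtain ⟨r, hr⟩ := h
  have h0 : r ≠ 0 := by
    rintro rfl
    exact mul_ne_zero ha (by positivity) hr
  have := congrArg (padicValNat 2) hr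
  rw [padicValNat.mul ha (by positivity), padicValNat.prime_pow, padicValNat.mul h0 h0] at this
  exact ⟨_, this⟩

theorem odd_seq {a : ℕ → ℕ} {C ℓ : ℕ} (h0 : ∀ k, a k ≠ 0) (h1 : ∀ k, a k ≤ C)
    (h2 : ∀ k, a k ≤ a (k + 1)) (h3 : ∀ k, 1 ≤ k → IsSquare (a k * 2 ^ (k * ℓ))) : Even ℓ := by
  by_contra hn
  have h4 : ∀ k, k ≤ a (k + 1) := fun k => by
    induction k with
    | zero => exact Nat.zero_le _
    | succ k ih =>
      refine (h2 _).eq_or_lt.elim (fun e => absurd ?_ hn) fun e => ih.trans_lt e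
      have e1 := sq_val (h0 _) (h3 (k + 1) (by omega))
      have e2 := sq_val (h0 _) (h3 (k + 1 + 1) (by omega))
      rw [← e, add_mul (k + 1), one_mul, ← add_assoc, Nat.even_add] at e2
      exact e2.1 e1
  have := (h4 (C + 1)).trans (h1 _)
  omega

/-- one curve in an odd class -/
def TWO_st : Prop := ∀ i δ J η D n β σ τ, Ell i δ J η D n β σ τ → G4n n → Ro D → ¬ Fin2 (EZ D)

theorem two_pf (hRCE : RCE_st) (hINSO : INSO_st) (hPAR : PAR_st) (hUNR : UNR_st) (hSHA : SHA_st)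
    (hG : GmA) : TWO_st := by
  intro i δ J η D n β σ τ hE h4 hR hf
  have hD : D ≠ 0 := by
    rintro rfl
    exact hR.1 rfl
  obtain ⟨cc, hcc⟩ := hRCE
  obtain ⟨η', T, ℓ, rfl, ho, hP⟩ := hINSO i δ J η D hE.jm hE.eta hD hE.pow β.val n cc hE.abs
    hE.odd hE.sf (g8_of h4 hE.odd) hcc.1 hR
  have hs : Sl J (η' 0) := fun g => by
    have := (hG i δ J _ D n β σ τ hE).2.2 g
    exact (em _).imp this.1 this.2
  obtain ⟨C, hC⟩ := hSHA i δ J _ D hE.jm hE.eta hD hE.pow n cc hcc (fun m ξ hξ l _ => by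
    by_cases h2 : l = 2
    · subst h2
      exact hξ.2.2.1
    by_cases hl : l ∣ n
    · exact hξ.2.2.2.2 l hl
    · exact hUNR _ J _ n cc T (hP.p1 0) hs m ξ l hξ.1 h2 hl
        (hξ.2.1 l 1 h2 hl (notMem_empty l))) hf
  exact Nat.not_even_iff_odd.2 ho (odd_seq (fun k => (hC k).1) (fun k => (hC k).2)
    (fun k => AddSubgroup.relIndex_le_of_le_right
      (Sq_mono (hP.p1 0).cm.toCm0 (by omega) subset_rfl) (hC (k + 1)).1)
    (hPAR _ J η' n cc T ℓ hP))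

/-- the growth of the Selmer groups -/
def Gro (D : ℤ) : Prop := ∃ C : ℕ, ∀ k : ℕ,
  2 ^ (k * par D) ≤ (shaTors (EZ D) (2 ^ k)).encard * 2 ^ (k * finrank ℤ (EZ D).toAffine.Point) ∧
  (shaTors (EZ D) (2 ^ k)).encard * 2 ^ (k * finrank ℤ (EZ D).toAffine.Point) ≤
    C * 2 ^ (k * par D)

theorem gro_of (h1 : ONE_st) (h2 : TWO_st) (h3 : CNT_st) (hS : StrQ) (hC : SelQ) (hF : FgQ)
    {i δ J η D n β σ τ} (hE : Ell i δ J η D n β σ τ) (hG : G4n n) (hq : Squarefree D)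
    (hf : (St J η n).Finite) : Gro D := by
  have hD := hq.ne_zero
  have h4 : D % 4 ≠ 0 := fun e => by
    have := hq 2 (Int.dvd_of_emod_eq_zero e)
    rw [Int.isUnit_iff] at this
    omega
  have h5 := hS i δ J η D n β σ τ hE hf
  have h6 := h3 D (hF D hD h5) (hC D hD h5)
  have h7 : Rt D ↔ (0 < D ↔ D % 16 ∈ ({1, 2, 6, 7, 9, 10, 11, 14} : Finset ℤ)) := by
    simp only [Rt, mem_insert, mem_singleton]
    omega
  by_cases hR : Rt D
  · obtain ⟨C, h⟩ := h6.1 (h1 i δ J η D n β σ τ hE hG hR hf)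
    exact ⟨C, fun k => by simpa only [par, if_pos (h7.1 hR), mul_zero, pow_zero, mul_one] using h k⟩
  · obtain ⟨C, h⟩ := hC D hD h5
    exact ⟨C, fun k => by
      rw [par, if_neg (mt h7.2 hR), mul_one]
      exact ⟨h6.2 (h2 i δ J η D n β σ τ hE hG ⟨h4, hR⟩) k, h k⟩⟩

theorem dens_gen {P : ℤ → Prop} (h1 : ∀ i δ J η D n β σ τ, Ell i δ J η D n β σ τ → G4n n →
      Squarefree D → (St J η n).Finite → P D) (hM : MainQ) (hG : G4S) :
    Tendsto (fun X : ℕ => ({D : ℤ | |D| ≤ X ∧ Squarefree D ∧ ¬ P D}.ncard : ℝ) / X)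
      atTop (𝓝 0) := by
  refine tendsto_order.2 ⟨fun a ha => Eventually.of_forall fun X => ha.trans_le (by positivity),
    fun ε hε => ?_⟩
  filter_upwards [hM (ε / 16) (by positivity), hG (ε / 16) (by positivity),
    eventually_gt_atTop 0] with X h h' hX
  have hX' : (0 : ℝ) < X := Nat.cast_pos.2 hX
  obtain ⟨A, hA, hA'⟩ : ∃ A : Finset ℕ, (A.card : ℝ) ≤ ε / 16 * X ∧ ∀ n ∈ Icc 1 X, Odd n →
      Squarefree n → (∃ (D : ℤ) (β : ZMod 2), D.natAbs = 2 ^ β.val * n ∧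
        ¬ ∃ i δ J η σ τ, Ell i δ J η D n β σ τ ∧ (St J η n).Finite) → n ∈ A :=
    ⟨_, h, fun n h1 h2 h3 h4 => (@mem_filter _ _ (_) _ _).2 ⟨h1, h2, h3, h4⟩⟩
  obtain ⟨A', hB, hB'⟩ : ∃ A : Finset ℕ, (A.card : ℝ) ≤ ε / 16 * X ∧ ∀ n ∈ Icc 1 X, Odd n →
      Squarefree n → ¬ G4n n → n ∈ A :=
    ⟨_, h', fun n h1 h2 h3 h4 => (@mem_filter _ _ (_) _ _).2 ⟨h1, h2, h3, h4⟩⟩
  have e : {D : ℤ | |D| ≤ X ∧ Squarefree D ∧ ¬ P D} =
      ((Icc (-X : ℤ) X).filter fun D : ℤ => Squarefree D ∧ ¬ P D : Finset ℤ) :=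
    Set.ext fun D => by
      simp only [Set.mem_ofPred_eq, Finset.coe_filter, Finset.mem_Icc, abs_le]
  rw [div_lt_iff₀ hX', e, Set.ncard_coe_finset]
  have key := Nd.card_NgMain ((Icc (-X : ℤ) X).filter fun D : ℤ => Squarefree D ∧ ¬ P D)
    (fun _ : ZMod 2 × ZMod 2 => A ∪ A') (fun x n => (-1 : ℤ) ^ x.1.val * 2 ^ x.2.val * n)
    fun D hD => by
      simp only [mem_filter, mem_Icc] at hD
      obtain ⟨⟨h2, h3⟩, hsq, hb⟩ := hD
      obtain ⟨β, n, ho, hn, hle, e⟩ := Nd.odd_NgMain (Int.squarefree_natAbs.2 hsq)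
      have e' : ((D.natAbs : ℕ) : ℤ) = 2 ^ β.val * n := by
        rw [e]
        push_cast
        rfl
      obtain ⟨α, hα⟩ := Nd.sign_NgMain (e' ▸ Int.natAbs_eq D) (Or.inl rfl)
      refine ⟨(α, β), n, ?_, hα.symm⟩
      have hi : n ∈ Icc 1 X := mem_Icc.2 ⟨ho.pos, by omega⟩
      by_cases hg : G4n n
      · refine mem_union_left _ (hA' n hi ho hn ⟨D, β, e, ?_⟩)
        rintro ⟨i, δ, J, η, σ, τ, h4, h5⟩
        exact hb (h1 i δ J η D n β σ τ h4 hg hsq h5)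
      · exact mem_union_right _ (hB' n hi ho hn hg)
  rw [sum_const, card_univ, Fintype.card_prod, ZMod.card, smul_eq_mul] at key
  have key' : ((((Icc (-X : ℤ) X).filter fun D : ℤ => Squarefree D ∧ ¬ P D).card : ℕ) : ℝ) ≤
      2 * 2 * (A.card + A'.card) := by
    exact_mod_cast key.trans (Nat.mul_le_mul_left _ (card_union_le A A'))
  nlinarith

end Pool.Agent.MP_e23604_nt.R

end
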