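import Mathlib
import Pool.Agent.Mg.Fe23604m.G9af74e
import Pool.Agent.Mg.Fe23604m.G0f32ef
import Pool.Agent.Mg.Fe23604m.Gad3f3e
import Pool.Agent.Mg.Fe23604m.G286b60
import Pool.Agent.Mg.Fe23604m.G4d242a

set_option linter.all false

section

/-! Equidistribution of the random words, with letters at the prime two. -/

namespace Pool.Agent.MP_f68ac8_nt.Nd

open Zq Ev Pv Sv Zv Zk NumberField Finset Filter
open scoped Topology BigOperators commutatorElement

lemma sum_NqEqa (p : Par) (σ : p.Λ → GQ) (e : ℕ) (φ : GQ → ℂ) :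
    ∑ u : p.Λ, p.W 3 u • 𝔼 a : Exn e, φ (σ u ^ (a.1 : ℕ)) =
      ∑ l ∈ p.lg, (wl p.s p.h p.k l : ℝ) * tw 0 l * 𝔼 a : Exm e,
        φ ((if h : l ∈ p.Λ then σ ⟨l, h⟩ else 1) ^ (a.1 : ℕ)) := by
  rw [Par.lg, Finset.sum_filter, ← Finset.sum_coe_sort p.Λ]
  refine Finset.sum_congr rfl fun u _ => ?_
  have hw : p.W 3 u = if (u : ℕ) ∈ p.lg then wl p.s p.h p.k u else 0 := rfl
  have hm : (u : ℕ) ∈ p.lg ↔ p.Y < (u : ℕ) := by
    rw [Par.lg, Finset.mem_filter]
    exact ⟨fun h => h.2, fun h => ⟨u.2, h⟩⟩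
  rw [hw, dif_pos u.2]
  by_cases hu : (u : ℕ) ∈ p.lg
  · rw [if_pos hu, if_pos (hm.1 hu)]
    simp only [Nd.tw, Complex.ofReal_zero, mul_zero, zero_mul, Complex.exp_zero, mul_one,
      Complex.real_smul]
  · rw [if_neg hu, if_neg fun h => hu (hm.2 h), zero_smul]

section
variable {P Λ B : Type} [Group P] {d : ℕ}

/-- the values of the letters -/
noncomputable def Vq_NqEqa (e : B → Fin d) (W : Finset (Fin d) → Lr d (Option Λ) → P)
    (ω : Finset (Fin d)) : Λ ⊕ B → P :=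
  Sum.elim (fun l => Vc_NdEqa W ω (some l)) fun b => W ω ⟨e b, none⟩

lemma sbq_NqEqa (e : B → Fin d) (W : Finset (Fin d) → Lr d (Option Λ) → P)
    (v : FreeGroup (Λ ⊕ B)) : piV W (sbq e v) = piV (Vq_NqEqa e W) v :=
  DFunLike.congr_fun (show (piV W).comp (sbq e) = piV (Vq_NqEqa e W) from
    FreeGroup.ext_hom _ _ fun l => by
      rw [MonoidHom.comp_apply, sbq, FreeGroup.lift_apply_of]
      funext ω
      rcases l with l | b
      · rw [Sum.elim_inl, sbs_NdEqa, piV_ZcEqa, piV_ZcEqa, FreeGroup.lift_apply_of,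
          FreeGroup.lift_apply_of]
        rfl
      · rw [Sum.elim_inr, piV_ZcEqa, piV_ZcEqa, FreeGroup.lift_apply_of, FreeGroup.lift_apply_of]
        rfl) v

lemma range_NqEqa (e : B → Fin d) {S : Finset (Fin d)} (x : Fin d → P)
    {q₀ q₁ : Fin d → Option Λ} (hq : OKp S q₀ q₁) (hn : ∀ j ∈ S, q₀ j ≠ none ∧ q₁ j ≠ none) :
    (piV (Vq_NqEqa e (Wc S x q₀ q₁))).range = (piV (Wc S x q₀ q₁)).range := by
  refine le_antisymm ?_ ?_
  · rintro _ ⟨v, rfl⟩
    exact ⟨_, sbq_NqEqa e _ v⟩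
  · rw [← range_NdEqa x hq, piV, FreeGroup.range_lift_eq_closure, Subgroup.closure_le]
    rintro _ ⟨_ | l, rfl⟩
    · refine ⟨1, funext fun ω => ?_⟩
      rw [map_one]
      exact (one_NdEqa x ω fun j hj => ⟨(hn j hj).1.symm, (hn j hj).2.symm⟩).symm
    · refine ⟨FreeGroup.of (.inl l), funext fun ω => ?_⟩
      rw [piV_ZcEqa, FreeGroup.lift_apply_of]
      rfl

end

theorem eqaQ : EqaQ := by
  classical
  intro P _ _ L p c D η hOk B σ τ N hA 𝓡 _ _ s hs wd hwd d w Sm Lg eB w2 w4 w5 y hy t ht S hS hLc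
    x' q₀ q₁ κ hw hq hSh
  have hn : ∀ j ∈ S, q₀ j ≠ none ∧ q₁ j ≠ none := fun j hj => by
    obtain ⟨l, h1, -⟩ := w4 j (hS hj) _ (hw j hj).1
    obtain ⟨l', h2, -⟩ := w4 j (hS hj) _ (hw j hj).2
    rw [h1, h2]
    exact ⟨Option.some_ne_none _, Option.some_ne_none _⟩
  obtain ⟨V, hV⟩ : ∃ V, V = Vq_NqEqa eB (Wc S x' q₀ q₁) := ⟨_, rfl⟩
  obtain ⟨R, hR⟩ : ∃ R : Finset ℕ,
      R = (S.image fun j => ov (q₀ j)) ∪ S.image fun j => ov (q₁ j) := ⟨_, rfl⟩
  have hN := hA.op.nrm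
  obtain ⟨lt, hlt⟩ : ∃ lt, lt = FreeGroup.lift τ := ⟨_, rfl⟩
  rw [← hlt] at hs hwd
  have hr : (corr_ZcEqa lt (piV V) N hN).map (MonoidHom.snd _ _) =
      (piV (Wc S x' q₀ q₁)).range := by
    rw [← range_NqEqa eB x' hq hn, ← hV]
    ext h
    constructor
    · rintro ⟨z, ⟨v, h1, -⟩, rfl⟩
      exact ⟨v, h1⟩
    · rintro ⟨v, rfl⟩
      exact ⟨(lt v, piV V v), ⟨v, rfl, by simp⟩, rfl⟩
  have hC : ∀ g, ∃ h, (g, h) ∈ corr_ZcEqa lt (piV V) N hN := fun g =>
    let ⟨v, hv⟩ := hA.gen g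
    ⟨_, v, rfl, hlt ▸ hv⟩
  have f1 : ((corr_ZcEqa lt (piV V) N hN).comap (MonoidHom.inl _ _)).Normal := by
    refine ⟨fun g hg k => ?_⟩
    obtain ⟨h, hh⟩ := hC k
    have := Subgroup.mul_mem _ (Subgroup.mul_mem _ hh (Subgroup.mem_comap.1 hg))
      (Subgroup.inv_mem _ hh)
    simpa [Subgroup.mem_comap] using this
  have hle : N ≤ (corr_ZcEqa lt (piV V) N hN).comap (MonoidHom.inl _ _) := fun g hg =>
    ⟨1, map_one _, by simpa using hg⟩
  have a2 := mem_of_superset hA.op.nhds hle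
  have a3 : ∀ g : GQ, ∃ k, g ^ 2 ^ k ∈
      (corr_ZcEqa lt (piV V) N hN).comap (MonoidHom.inl _ _) := fun g =>
    (hA.op.pg g).imp fun _ h => hle h
  have hRs : R ⊆ p.sm := by
    intro l hl
    rw [hR, mem_union, mem_image, mem_image] at hl
    rcases hl with ⟨j, hj, rfl⟩ | ⟨j, hj, rfl⟩
    · obtain ⟨l, h1, h2⟩ := w4 j (hS hj) _ (hw j hj).1
      rw [h1]
      exact h2
    · obtain ⟨l, h1, h2⟩ := w4 j (hS hj) _ (hw j hj).2
      rw [h1]
      exact h2
  have hRc : R.card ≤ 2 * L := by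
    rw [hR]
    have h1 := card_image_le (s := S) (f := fun j => ov (q₀ j))
    have h2 := card_image_le (s := S) (f := fun j => ov (q₁ j))
    have h3 := card_union_le (S.image fun j => ov (q₀ j)) (S.image fun j => ov (q₁ j))
    omega
  obtain ⟨i1, i2⟩ := index_NdEqa _ hC
  have i3 : ((corr_ZcEqa lt (piV V) N hN).comap (MonoidHom.inl _ _)).index ≤
      Fintype.card P ^ 2 ^ L := by
    rw [hr] at i2
    exact i2.trans ((card_NdEqa x').trans (Nat.pow_le_pow_right Fintype.card_pos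
      (Nat.pow_le_pow_right two_pos hLc)))
  have adm : Ad2 (Fintype.card P ^ 2 ^ L) R
      ((corr_ZcEqa lt (piV V) N hN).comap (MonoidHom.inl _ _)) := by
    refine ⟨fun l hl => (hOk.pri l (mem_filter.1 (hRs hl)).1).1, f1, a2, ⟨i1, i3⟩, a3,
      hA.unr _ R f1 hle (fun b => ⟨FreeGroup.of (.inr b), ?_, ?_⟩)
        fun l h5 => ⟨FreeGroup.of (.inl l), ?_, ?_⟩⟩
    · funext ω
      rw [piV_ZcEqa, FreeGroup.lift_apply_of, hV]
      by_contra h
      obtain ⟨h1, h2⟩ := ne_NdEqa x' h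
      exact h2.elim (hn _ h1).1.symm (hn _ h1).2.symm
    · rw [hlt, FreeGroup.lift_apply_of]
      simp
    · funext ω
      rw [piV_ZcEqa, FreeGroup.lift_apply_of, hV]
      refine one_NdEqa x' ω fun j hj => ⟨fun e => h5 ?_, fun e => h5 ?_⟩
      · rw [hR]
        exact mem_union_left _ (mem_image.2 ⟨j, hj, e ▸ rfl⟩)
      · rw [hR]
        exact mem_union_right _ (mem_image.2 ⟨j, hj, e ▸ rfl⟩)
    · rw [hlt, FreeGroup.lift_apply_of]
      simp
  obtain ⟨f3, f4, f5, f6⟩ := facts_ZmEqP (corr_ZcEqa lt (piV V) N hN) κ hC _ rfl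
  obtain ⟨g₁, z, ε, hε, hz, f7⟩ := f6 (hr ▸ hSh)
  have hfr : ∀ l ∈ p.lg, Fr l (if h : l ∈ p.Λ then σ ⟨l, h⟩ else 1) := fun l hl => by
    rw [dif_pos (mem_filter.1 hl).1]
    exact hA.fr ⟨l, (mem_filter.1 hl).1⟩
  have key := hOk.eqs R hRs hRc _ adm 0 (by simp) _ hfr (2 * Fintype.card P) _
    ⟨Nat.mul_pos two_pos Fintype.card_pos, fun g => by
      obtain ⟨h, hh⟩ := hC g
      have h1 := Subgroup.pow_mem _ hh (2 * Fintype.card P)
      have h2 : h ^ (2 * Fintype.card P) = 1 := funext fun ω => by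
        rw [Pi.pow_apply, mul_comm, pow_mul, pow_card_eq_one, one_pow, Pi.one_apply]
      rw [Prod.pow_mk, h2] at h1
      exact h1, f3, f4, f5, g₁, ε, hε, f7 g₁ hz⟩
  rw [← sum_NqEqa, hr] at key
  have htS : t ∉ S := fun e => disjoint_left.1 w2 (hS e) ht
  have hm : 1 ≤ ms p.Λ p.W 3 := hOk.one 3 (by decide)
  have h0 : ∀ u, piV (Wc S x' q₀ q₁) (FreeGroup.of ⟨t, u⟩) = 1 := fun u => funext fun ω => by
    rw [piV_ZcEqa, FreeGroup.lift_apply_of]
    by_contra h
    exact htS (ne_NdEqa x' h).1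
  refine le_trans (le_of_eq ?_) ((mul_le_of_le_one_left (norm_nonneg _)
    (inv_le_one_of_one_le₀ hm)).trans key)
  rw [← abs_of_nonneg (inv_nonneg.2 (zero_le_one.trans hm)), ← Real.norm_eq_abs, ← norm_smul,
    Finset.smul_sum, Fintype.sum_option, w5 t ht none, Option.elim_none, zero_smul, zero_add]
  congr 1
  refine Finset.sum_congr rfl fun u _ => ?_
  rw [smul_smul, w5 t ht, Option.elim_some, div_eq_inv_mul]
  congr 1
  rw [← univ_product_univ, expect_product]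
  refine expect_congr rfl fun a _ => ?_
  have h1 := hs.2 (Finset (Fin d)) V fun h =>
    Av (piV (Wc S x' q₀ q₁)).range κ (piV V (wd u a) * h)
  have h2 : ∀ b, piV (Wc S x' q₀ q₁) (y ⟨t, some u⟩ (a, b)) = piV V (wd u a) * piV V (s b) := by
    intro b
    obtain ⟨k, hk⟩ := hy t ht u (a, b)
    rw [hk, map_mul, map_pow, h0, one_pow, mul_one, sbq_NqEqa, ← hV, map_mul]
  simp only [h2]
  exact h1.trans (avg_ZcEqa lt (piV V) N hN (hwd u a)
    fun h => Av (piV (Wc S x' q₀ q₁)).range κ h)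

end Pool.Agent.MP_f68ac8_nt.Nd

end

section

/-! From a deterministic inequality for words to a bound for the density. -/

namespace Pool.Agent.MP_f68ac8_nt.Nd

open Zq Ev Pv Sv Zv Zk NumberField Finset Filter
open scoped Topology BigOperators commutatorElement

theorem rrQ : RrQ := by
  classical
  intro d Λ y q x i
  simp only [Yw, rr]
  generalize y ⟨i, q i⟩ = w
  induction w using FreeGroup.induction_on with
  | C1 => simp
  | of l =>
    simp only [FreeGroup.lift_apply_of, plc]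
    rw [sum_eq_single l.1]
    · by_cases h : l.2 = q l.1
      · have h' : l = ⟨l.1, q l.1⟩ := by rw [← h]
        rw [if_pos h, if_pos h', toAdd_ofAdd, one_mul]
      · rw [if_neg h, if_neg fun e => h (congrArg (fun x : Lr d Λ => x.2) e), toAdd_one, zero_mul]
    · intro j _ hj
      rw [if_neg fun e => hj (congrArg Sigma.fst e).symm, toAdd_one, zero_mul]
    · simp
  | inv_of l h => simp only [map_inv, toAdd_inv, h, neg_mul, sum_neg_distrib]
  | mul a b ha hb => simp only [map_mul, toAdd_mul, ha, hb, add_mul, sum_add_distrib]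

section
variable {Λ : Type} {d : ℕ} (e : ℕ)

/-- the extended weights -/
def wq_NsPt (w : Fin d → Λ → ℝ) : Fin (d + e) → Option Λ → ℝ :=
  Fin.append (fun j o => o.elim 0 (w j)) fun _ o => o.elim 1 fun _ => 0

theorem e1_NsPt (q : Fin d → Λ) (j : Fin d) : exq e q (Fin.castAdd e j) = some (q j) :=
  Fin.append_left _ _ j

theorem e2_NsPt (q : Fin d → Λ) (j : Fin e) : exq e q (Fin.natAdd d j) = none :=
  Fin.append_right _ _ j

theorem w1_NsPt (w : Fin d → Λ → ℝ) (j : Fin d) (o : Option Λ) :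
    wq_NsPt e w (Fin.castAdd e j) o = o.elim 0 (w j) := by
  rw [wq_NsPt, Fin.append_left]

theorem w2_NsPt (w : Fin d → Λ → ℝ) (j : Fin e) (o : Option Λ) :
    wq_NsPt e w (Fin.natAdd d j) o = o.elim 1 fun _ => 0 := by
  rw [wq_NsPt, Fin.append_right]

variable [Fintype Λ]

theorem ex_NsPt (w : Fin d → Λ → ℝ) (F : (Fin (d + e) → Option Λ) → ℂ) :
    Ex (U := fun _ => Option Λ) (wq_NsPt e w) F =
      Ex (U := fun _ => Λ) w fun q => F (exq e q) := by
  unfold Ex
  symm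
  refine Fintype.sum_of_injective (exq e) (fun q q' h => funext fun j => ?_) _ _
    (fun q' hq' => ?_) fun q => ?_
  · have := congrFun h (Fin.castAdd e j)
    rw [e1_NsPt, e1_NsPt] at this
    exact Option.some.inj this
  · have : ∏ j, wq_NsPt e w j (q' j) = 0 := by
      by_contra hne
      have h := fun j => Finset.prod_ne_zero_iff.1 hne j (Finset.mem_univ j)
      have h1 : ∀ j : Fin d, ∃ u : Λ, q' (Fin.castAdd e j) = some u := fun j => by
        have := h (Fin.castAdd e j)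
        rw [w1_NsPt] at this
        rcases e : q' (Fin.castAdd e j) with _ | u
        · rw [e] at this
          exact absurd rfl this
        · exact ⟨u, rfl⟩
      choose q hq using h1
      refine hq' ⟨q, funext fun j => ?_⟩
      refine Fin.addCases (fun j => ?_) (fun j => ?_) j
      · rw [e1_NsPt, hq]
      · have := h (Fin.natAdd d j)
        rw [w2_NsPt] at this
        rw [e2_NsPt]
        rcases e : q' (Fin.natAdd d j) with _ | u
        · rfl
        · rw [e] at this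
          exact absurd rfl this
    rw [this, zero_smul]
  · simp only [Fin.prod_univ_add, e1_NsPt, e2_NsPt, w1_NsPt, w2_NsPt, Option.elim_none,
      Option.elim_some, prod_const_one, mul_one]

theorem prob_NsPt (w : Fin d → Λ → ℝ) (h : Prob (U := fun _ => Λ) w) :
    Prob (U := fun _ => Option Λ) (wq_NsPt e w) := by
  refine ⟨fun j => Fin.addCases (fun j u => ?_) (fun j u => ?_) j,
    fun j => Fin.addCases (fun j => ?_) (fun j => ?_) j⟩
  · rw [w1_NsPt]
    rcases u with _ | u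
    · exact le_rfl
    · exact h.1 j u
  · rw [w2_NsPt]
    rcases u with _ | u
    · exact zero_le_one
    · exact le_rfl
  · simp only [w1_NsPt, Fintype.sum_option, Option.elim_none, Option.elim_some, zero_add]
    exact h.2 j
  · simp only [w2_NsPt, Fintype.sum_option, Option.elim_none, Option.elim_some,
      Finset.sum_const_zero, add_zero]

theorem mem_NsPt {S : Finset (Fin d)} {j : Fin (d + e)} (h : j ∈ upq e S) :
    ∃ i ∈ S, j = Fin.castAdd e i := by
  obtain ⟨i, hi, e⟩ := Finset.mem_map.1 h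
  exact ⟨i, hi, e.symm⟩

end

theorem val_NsPt {P Λ : Type} [Group P] {d : ℕ} (T : Trm P d) (y : Lr d Λ → FreeGroup (Lr d Λ))
    (q : Fin d → Λ) : T.val y q = ((T.c : ℂ) * Tf2 T.Cn T.Ob y q T.x).re := by
  have h : ∀ a : ZMod 2, (ZMod.stdAddChar a).re = Zq.sg a := fun a => by
    have h1 : ∀ a : ZMod 2, a = 0 ∨ a = 1 := by decide
    rcases h1 a with rfl | rfl
    · simp [Zq.sg]
    · have h2 : (ZMod.stdAddChar (1 : ZMod 2)) ^ 2 = 1 := by
        rw [← AddChar.map_nsmul_eq_pow, show (2 : ℕ) • (1 : ZMod 2) = 0 by decide,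
          AddChar.map_zero_eq_one]
      have h3 : ZMod.stdAddChar (1 : ZMod 2) ≠ 1 := fun e =>
        one_ne_zero ((ZMod.isPrimitive_stdAddChar 2).zmod_char_eq_one_iff 2 1 |>.1 e)
      rw [(sq_eq_one_iff.1 h2).resolve_left h3]
      simp [Zq.sg]
  rw [Trm.val, Tf2, Complex.re_ofReal_mul]
  split_ifs
  · rw [h]
  · simp

theorem word_NsPt {Λ : Finset ℕ} {B : Type} {d e : ℕ} {τ : Λ ⊕ B → GQ} {N : Subgroup GQ}
    {lab : B → Fin e} {q : Fin d → Λ} (hq : Function.Injective q) {H : Type} [Group H]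
    {θ : GQ →* H} {x : Fin (d + e) → H} (h : Mt τ N lab q θ x) (v : FreeGroup (Λ ⊕ B)) (g : GQ)
    (hg : (FreeGroup.lift τ v)⁻¹ * g ∈ N) :
    FreeGroup.lift (plc (U := fun _ => Option Λ) (exq e q) x)
      (sbq (fun b => Fin.natAdd d (lab b)) v) = θ g := by
  classical
  have h1 := h.ker hg
  rw [MonoidHom.mem_ker, map_mul, map_inv, inv_mul_eq_one] at h1
  rw [← h1]
  refine DFunLike.congr_fun (f := (FreeGroup.lift (plc (U := fun _ => Option Λ) (exq e q) x)).comp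
    (sbq fun b => Fin.natAdd d (lab b))) (g := θ.comp (FreeGroup.lift τ))
    (FreeGroup.ext_hom _ _ fun u => ?_) v
  rcases u with l | b
  · simp only [MonoidHom.comp_apply, sbq, FreeGroup.lift_apply_of, Sum.elim_inl]
    refine (sbs_NdSol _ _).trans ?_
    by_cases h2 : ∃ j, q j = l
    · obtain ⟨j, rfl⟩ := h2
      rw [single_NdSol _ (Fin.castAdd e j), h.tame, plc, if_pos (e1_NsPt e q j).symm]
      refine fun i => Fin.addCases (fun i hi => ?_) (fun i _ => ?_) i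
      · rw [plc, if_neg]
        rw [e1_NsPt]
        exact fun e' => hi (by rw [hq (Option.some.inj e')])
      · rw [plc, if_neg]
        rw [e2_NsPt]
        simp
    · rw [one_NdSol, h.out l fun j e' => h2 ⟨j, e'⟩]
      refine fun i => Fin.addCases (fun i => ?_) (fun i => ?_) i
      · rw [plc, if_neg]
        rw [e1_NsPt]
        exact fun e' => h2 ⟨i, (Option.some.inj e').symm⟩
      · rw [plc, if_neg]
        rw [e2_NsPt]
        simp
  · simp only [MonoidHom.comp_apply, sbq, FreeGroup.lift_apply_of, Sum.elim_inr]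
    rw [h.two, plc, if_pos (e2_NsPt e q _).symm]

theorem ptQ (hD : DensStmt) (hM : MatQ) (hE : ErrF) (hQ : EqaQ) (hU : UnifStmt) (hT : TwN)
    (hW : WmN) : PtQ := by
  classical
  obtain ⟨c, hc, hD⟩ := hD
  intro ε hε
  obtain ⟨ε', hε', hD⟩ := hD ε hε
  obtain ⟨Bd, δ, C₁, hδ, hC₁, hM⟩ := hM (ε' / 2) (by positivity)
  refine ⟨Bd, ε' / 2, by positivity, fun P _ _ F L m e c₀ Bad hF hF1 H => ?_⟩
  obtain ⟨m₀, hM⟩ := hM m
  obtain ⟨C₂, hC₂, hE⟩ := hE P L
  have hC₃ : 1 ≤ max |c₀| 1 * C₂ ^ (e + 1) :=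
    one_le_mul_of_one_le_of_one_le (le_max_right _ _) (one_le_pow₀ hC₂)
  refine hD _ (Fintype.card P ^ 2 ^ L) (2 * L) m₀ L δ (C₁ + max |c₀| 1 * C₂ ^ (e + 1)) hδ
    (by linarith) fun p D ξ hξ0 hξ1 hp yy d μ hdD hth => ?_
  obtain ⟨hη, hw⟩ := hW p c _ _ D _ hp
  obtain ⟨w1, w2, w3, w4, -⟩ := hw d μ
  obtain ⟨B, _, σ, τ, N, lab, g, hG, H⟩ := H p.Λ hp.pri
  obtain ⟨I, _, T, hI, hT1, H⟩ := H d _ _ w2
  obtain ⟨𝓡, _, _, s, hs1, hs2⟩ := hU (p.Λ ⊕ B) P (N.comap (FreeGroup.lift τ))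
  choose wd hwd using fun (l : p.Λ) (a : Exn (2 * Fintype.card P)) => hG.gen (σ l ^ (a.1 : ℕ))
  choose v hv using fun j => hG.gen (g j)
  have : Nonempty (Exn (2 * Fintype.card P)) :=
    ⟨⟨⟨1, by have := Fintype.card_pos (α := P); omega⟩, Nat.coprime_one_left _⟩⟩
  obtain ⟨y, y1, y2⟩ : ∃ y : Lr (d + e) (Option p.Λ) → Exn (2 * Fintype.card P) × 𝓡 →
      FreeGroup (Lr (d + e) (Option p.Λ)), (∀ j l a, y ⟨j, some l⟩ a =
        sbq (fun b => Fin.natAdd d (lab b)) (wd l a.1 * s a.2) * FreeGroup.of ⟨j, some l⟩ ^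
          (Zq.eps l - (ex_NdWord ⟨j, some l⟩
            (sbq (fun b => Fin.natAdd d (lab b)) (wd l a.1 * s a.2))).toAdd).val) ∧
      ∀ j a, y ⟨Fin.natAdd d j, none⟩ a = sbq (fun b => Fin.natAdd d (lab b)) (v j) :=
    ⟨fun u a => u.2.elim (sbq (fun b => Fin.natAdd d (lab b)) (Fin.append (fun _ => 1) v u.1))
      fun l => sbq (fun b => Fin.natAdd d (lab b)) (wd l a.1 * s a.2) * FreeGroup.of u ^
        (Zq.eps l - (ex_NdWord u
          (sbq (fun b => Fin.natAdd d (lab b)) (wd l a.1 * s a.2))).toAdd).val,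
      fun _ _ _ => rfl, fun j a => by simp only [Option.elim_none, Fin.append_right]⟩
  have hdis : Disjoint (upq e (mk μ 1)) (upq e (mk μ 3)) := (Finset.disjoint_map _).2 w2
  have hEQ := hQ P L p c D _ hp B σ τ N hG 𝓡 s ⟨hs1, hs2⟩ wd hwd (d + e)
    (wq_NsPt e (wm p.Λ p.W μ)) _ _ (fun b => Fin.natAdd d (lab b)) hdis (fun j hj u hu => by
      obtain ⟨i, hi, rfl⟩ := mem_NsPt e hj
      rw [w1_NsPt] at hu
      rcases u with _ | u
      · exact absurd rfl hu
      · exact ⟨u, rfl, (w4 i u hu).2 (Finset.mem_filter.1 hi).2⟩) (fun j hj u => by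
      obtain ⟨i, hi, rfl⟩ := mem_NsPt e hj
      rw [w1_NsPt]
      rcases u with _ | u
      · rfl
      · rw [Option.elim_some, Option.elim_some, wm, (Finset.mem_filter.1 hi).2]) y
    fun j _ l a => ⟨_, y1 j l a⟩
  have hWd : ∀ (a : Lr (d + e) (Option p.Λ) → Exn (2 * Fintype.card P) × 𝓡) q,
      Function.Injective q → WdQ σ τ N lab g q fun u => y u (a u) := fun a q hq => by
    refine ⟨fun i => ?_, fun j H _ θ x h => ?_, fun i => ?_⟩
    · obtain ⟨a', ha'⟩ : ∃ a', a' = a ⟨Fin.castAdd e i, some (q i)⟩ := ⟨_, rfl⟩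
      obtain ⟨k, hk⟩ : ∃ k : ℕ, y ⟨Fin.castAdd e i, some (q i)⟩ a' =
          sbq (fun b => Fin.natAdd d (lab b)) (wd (q i) a'.1 * s a'.2) *
            FreeGroup.of ⟨Fin.castAdd e i, some (q i)⟩ ^ k := ⟨_, y1 _ _ _⟩
      refine ⟨a'.1.1, k, Nat.coprime_two_right.1 (a'.1.2.coprime_dvd_right (Dvd.intro _ rfl)),
        fun H _ θ x h => ?_⟩
      rw [Yw, e1_NsPt, ← ha', hk, map_mul, map_pow, word_NsPt hq h _ (σ (q i) ^ (a'.1.1 : ℕ)),
        map_pow, FreeGroup.lift_apply_of, plc, if_pos (e1_NsPt e q i).symm]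
      rw [map_mul, mul_inv_rev, mul_assoc]
      exact N.mul_mem (N.inv_mem (hs1 _)) (hwd _ _)
    · rw [Yw, e2_NsPt, y2, word_NsPt hq h _ _ (hv j)]
    · rw [rr_NdWord (U := fun _ => Option p.Λ), e1_NsPt, y1, exf_NdWord]
  have hpr : ∀ l ∈ p.Λ, l.Prime := fun l hl => (hp.pri l hl).1
  have htw := (hT c hc p.Λ hpr d (wm p.Λ p.W μ) yy).1
  have _ : Fintype (Lr (d + e) (Option p.Λ) → Exn (2 * Fintype.card P) × 𝓡) := Fintype.ofFinite _
  have hE2 := hE F hF hF1 (d + e) (Option p.Λ) (wq_NsPt e (wm p.Λ p.W μ)) _ y _ _ ξ hξ0 hξ1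
    (prob_NsPt e _ w1) hdis (fun j hj u => by
      have h5 : ∃ i : Fin d, μ i ≠ 0 ∧ j = Fin.castAdd e i := by
        rcases Finset.mem_union.1 hj with hj | hj <;> obtain ⟨i, hi, e⟩ := mem_NsPt e hj <;>
          exact ⟨i, by rw [(Finset.mem_filter.1 hi).2]; decide, e⟩
      obtain ⟨i, hi, rfl⟩ := h5
      rw [w1_NsPt]
      rcases u with _ | u
      · exact hη
      · exact (w3 i u hi).2) hEQ
  have h1 : ∀ i, Av_ZaMulti (U := fun _ => p.Λ) (wm p.Λ p.W μ) (fun (_ : Unit)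
      (a : Lr (d + e) (Option p.Λ) → Exn (2 * Fintype.card P) × 𝓡) q =>
        kap c yy q * (T i).val (fun u => y u (a u)) (exq e q)) ≤ C₂ ^ (d + e + 1) * ξ := fun i => by
    simp only [val_NsPt]
    refine tw_NcMulti htw _ _ fun ζ hζ => ?_
    have o := hT1 i
    have h2 := hE2 (T i).x (T i).s (T i).t (T i).ψ (T i).Cn (T i).Ob
      (Fin.append (fun j o => o.elim 1 (ζ j)) fun _ _ => 1) o.nd o.two o.len o.sm o.lg o.add o.zero
      o.br o.inv fun j => Fin.addCases (fun j u => by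
        rw [Fin.append_left]
        rcases u with _ | u
        · exact norm_one.le
        · exact hζ j u) (fun j u => by
        rw [Fin.append_right]
        exact norm_one.le) j
    simp only [ex_NsPt, Fin.prod_univ_add, Fin.append_left, Fin.append_right, e1_NsPt,
      Option.elim_some, prod_const_one, mul_one] at h2
    refine le_trans (le_of_eq ?_) ((mul_le_of_le_one_left (norm_nonneg _)
      ((Complex.norm_real (T i).c).le.trans o.le)).trans h2)
    rw [← norm_mul, mul_expect]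
    simp only [Ex, Complex.real_smul, mul_sum]
    refine congrArg _ (expect_congr rfl fun a _ => sum_congr rfl fun q _ => ?_)
    ring
  have h2 := hM p c _ _ D _ hc hp yy d μ hdD hth
  have h3 : (Ex (U := fun _ => p.Λ) (wm p.Λ p.W μ) fun q => if Function.Injective q ∧
      GenQ (mk μ 1) (mk μ 3) Bd m (lk2 (vl q)) (fun j => lk 2 2 (q j)) ∧ Bad (np q) then
        kap c yy q else 0) ≤ ε' / 2 * Ex (U := fun _ => p.Λ) (wm p.Λ p.W μ) (kap c yy) +
        Fintype.card I * (C₂ ^ (d + e + 1) * ξ) := by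
    rw [← av_NcMulti (A := Lr (d + e) (Option p.Λ) → Exn (2 * Fintype.card P) × 𝓡),
      ← av_NcMulti (A := Lr (d + e) (Option p.Λ) → Exn (2 * Fintype.card P) × 𝓡) (kap c yy),
      ← av_mul_ZaMulti]
    refine le_trans ?_ (add_le_add le_rfl (av_sum_ZkMulti univ _ (by positivity) fun i _ => h1 i))
    rw [← av_add_ZaMulti]
    refine av_mono_ZaMulti w1 fun _ a q => ?_
    obtain ⟨k1, k2⟩ := H (fun u => y u (a u)) q
    rw [← mul_sum, mul_comm (ε' / 2), ← mul_add]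
    split_ifs with h
    · exact le_mul_of_one_le_right (htw.1 q) (k2 h.1 (hWd a q h.1) h.2.1 h.2.2)
    · exact mul_nonneg (htw.1 q) k1
  have h5 : C₁ ^ (d + 1) * ξ ^ 2 ^ L ≤ C₁ ^ (d + 1) * ξ :=
    mul_le_mul_of_nonneg_left (pow_le_of_le_one hξ0 hξ1 (by positivity)) (by positivity)
  have h6 : C₁ ^ (d + 1) + (max |c₀| 1 * C₂ ^ (e + 1)) ^ (d + 1) ≤
      (C₁ + max |c₀| 1 * C₂ ^ (e + 1)) ^ (d + 1) :=
    pow_add_pow_le (by linarith) (by linarith) (Nat.succ_ne_zero d)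
  have h7 := mul_le_mul_of_nonneg_right h6 hξ0
  have h9 : Fintype.card I * (C₂ ^ (d + e + 1) * ξ) ≤ (max |c₀| 1 * C₂ ^ (e + 1)) ^ (d + 1) * ξ := by
    rw [← mul_assoc, mul_pow, ← pow_mul]
    refine mul_le_mul_of_nonneg_right (mul_le_mul (hI.trans ?_)
      (pow_le_pow_right₀ hC₂ (by nlinarith)) (by positivity) (by positivity)) hξ0
    refine (le_abs_self _).trans ?_
    rw [abs_pow]
    exact pow_le_pow_left₀ (abs_nonneg _) (le_max_left _ _) _
  refine le_trans ?_ ((add_le_add h3 h2).trans ?_)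
  · rw [← add_NdPt]
    refine mono_NdPt w1.1 fun q => ?_
    have k0 := htw.1 q
    by_cases a : Function.Injective q ∧ Bad (np q)
    · rw [if_pos a]
      by_cases b : GenQ (mk μ 1) (mk μ 3) Bd m (lk2 (vl q)) fun j => lk 2 2 (q j)
      · rw [if_pos ⟨a.1, b, a.2⟩, if_neg fun h => h.2 b, add_zero]
        exact le_rfl
      · rw [if_neg fun h => b h.2.1, if_pos (And.intro a.1 b), zero_add]
        exact le_rfl
    · rw [if_neg a]
      refine add_nonneg ?_ ?_
      · split_ifs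
        · exact k0
        · exact le_rfl
      · split_ifs
        · exact k0
        · exact le_rfl
  · change _ ≤ ε' * Ex (U := fun _ => p.Λ) (wm p.Λ p.W μ) (kap c yy) + _
    linarith

end Pool.Agent.MP_f68ac8_nt.Nd

end
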