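import Mathlib
import Pool.Agent.Mg.Fe23604m.G9a9246

set_option linter.all false

namespace Pool.Agent.MP_f68ac8_nt.Zv

open Matrix Finset

section
variable {p M : ℕ} [Fact p.Prime] {ι : Type} [Fintype ι] [DecidableEq ι]
  {Γ : Subgroup (GL ι (Rg p M))} {L : Submodule (ZMod p) (Matrix ι ι (ZMod p))}
  {B : Type} {B₀ : Set B} {bb : B → GL ι (ZMod p)} {d : ℕ} {U : Fin d → Type}

omit [Fact p.Prime] in
theorem piV_ZaShift {Λ Ω G : Type} [Group G] (V : Ω → Λ → G) (w : FreeGroup Λ) (ω : Ω) :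
    piV V w ω = FreeGroup.lift (V ω) w :=
  FreeGroup.lift_unique ((Pi.evalMonoidHom (fun _ => G) ω).comp (piV V)) fun l => by
    simp [piV]

theorem one_ZaShift (hL : LdStmt p) (hI : Irr L (bb '' B₀)) (V : Lt B U → Γ)
    (hb : ∀ b, rs (V (.inl b)).1 = bb b) (x : Σ j, U j)
    (hx : ∃ A ∈ L, A ≠ 0 ∧ Ld 1 (V (.inr x)).1 A) (φ : Matrix ι ι (ZMod p) →ₗ[ZMod p] ZMod p)
    (hφ : ∃ A ∈ L, φ A ≠ 0) : ∃ z ∈ Nc B₀ U, ∃ ζ, φ ζ ≠ 0 ∧ Ld 1 (ev V z) ζ ∧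
      ∀ V' : Lt B U → Γ, V' (.inr x) = 1 → FreeGroup.lift V' z = 1 := by
  obtain ⟨A, hA, hA0, h1⟩ := hx
  obtain ⟨g, hg, h2⟩ := hI A hA hA0 φ hφ
  let Φ : FreeGroup (Lt B U) →* GL ι (ZMod p) :=
    (GeneralLinearGroup.map (rd p M)).comp (Γ.subtype.comp (FreeGroup.lift V))
  have e : bb '' B₀ = Φ '' ((fun b => FreeGroup.of (Sum.inl b)) '' B₀) := by
    rw [Set.image_image]
    refine Set.image_congr fun b _ => ?_
    rw [← hb]
    simp [Φ, rs]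
  rw [e, ← MonoidHom.map_closure] at hg
  obtain ⟨g', hg', rfl⟩ := hg
  refine ⟨g' * FreeGroup.of (.inr x) * g'⁻¹, Subgroup.subset_closure ⟨g', hg', x, rfl⟩, _, h2, ?_,
    fun V' hV => by simp [hV]⟩
  have := (hL M ι).2.2.2.2.2.2.2.2.1 1 _ (ev V g') A h1
  have e2 : ev V (g' * FreeGroup.of (.inr x) * g'⁻¹) = ev V g' * (V (.inr x)).1 * (ev V g')⁻¹ := by
    simp [ev]
  rw [e2]
  exact this

theorem ind_ZaShift (hL : LdStmt p) (hD : LieD Γ L) (hI : Irr L (bb '' B₀)) (V : Lt B U → Γ)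
    (hb : ∀ b, rs (V (.inl b)).1 = bb b) (q : ∀ j, U j) (T : Finset (Fin d)) (hT : T.Nonempty)
    (hx : ∀ i ∈ T, ∃ A ∈ L, A ≠ 0 ∧ Ld 1 (V (.inr ⟨i, q i⟩)).1 A) :
    ∀ φ : Matrix ι ι (ZMod p) →ₗ[ZMod p] ZMod p, (∃ A ∈ L, φ A ≠ 0) →
      ∃ z ∈ Nc B₀ U, ∃ ζ, φ ζ ≠ 0 ∧ Ld T.card (ev V z) ζ ∧
        ∀ V' : Lt B U → Γ, ∀ i ∈ T, V' (.inr ⟨i, q i⟩) = 1 → FreeGroup.lift V' z = 1 := by
  induction hT using Finset.Nonempty.cons_induction with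
  | singleton i =>
    intro φ hφ
    obtain ⟨z, h1, ζ, h2, h3, h4⟩ := one_ZaShift hL hI V hb _ (hx i (mem_singleton_self i)) φ hφ
    exact ⟨z, h1, ζ, h2, h3, fun V' j hj hV => h4 V' (mem_singleton.1 hj ▸ hV)⟩
  | cons i T hi hT ih =>
    intro φ hφ
    obtain ⟨A, hA, A', hA', h0⟩ := hD.perf φ hφ
    obtain ⟨z₂, a1, ζ₂, a2, a3, a4⟩ := ih (fun j hj => hx j (mem_cons_of_mem hj))
      (φ ∘ₗ (LinearMap.mulLeft (ZMod p) A - LinearMap.mulRight (ZMod p) A)) ⟨A', hA', h0⟩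
    obtain ⟨z₁, b1, ζ₁, b2, b3, b4⟩ := one_ZaShift hL hI V hb _ (hx i (mem_cons_self i T))
      (φ ∘ₗ (LinearMap.mulRight (ZMod p) ζ₂ - LinearMap.mulLeft (ZMod p) ζ₂)) ⟨A, hA, a2⟩
    refine ⟨z₁ * z₂ * z₁⁻¹ * z₂⁻¹, mul_mem (mul_mem (mul_mem b1 a1) (inv_mem b1)) (inv_mem a1),
      ζ₁ * ζ₂ - ζ₂ * ζ₁, b2, ?_, fun V' j hj hV => ?_⟩
    · have := (hL M ι).2.2.2.2.2.2.2.2.2.1 1 T.card _ _ _ _ le_rfl hT.card_pos b3 a3
      have e2 : ev V (z₁ * z₂ * z₁⁻¹ * z₂⁻¹) = ev V z₁ * ev V z₂ * (ev V z₁)⁻¹ * (ev V z₂)⁻¹ := by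
        simp [ev]
      rw [e2, card_cons, add_comm]
      exact this
    · rcases mem_cons.1 hj with rfl | hj
      · simp [b4 V' hV]
      · simp [a4 V' j hj hV]

end

theorem shift_stmt (p : ℕ) [Fact p.Prime] (hL : LdStmt p) : ShiftStmt p := by
  intro M ι _ _ Γ L hD B B₀ bb hI d U W hW T hT hM hne q₀ q₁ hq m hm x c hN
  obtain ⟨-, r2, r3, r4, -, -, -, -, -, -, -, r12⟩ := hL M ι
  let φ : Matrix ι ι (ZMod p) →ₗ[ZMod p] ZMod p := Matrix.traceLinearMap ι (ZMod p) (ZMod p) ∘ₗ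
    LinearMap.mulRight (ZMod p) x.val ∘ₗ LinearMap.mulLeft (ZMod p) (x.val - c • 1).adjugate
  obtain ⟨z, h1, ζ, h2, h3, h4⟩ := ind_ZaShift hL hD hI (place q₀ (mask T W)) hW.1 q₀ T hT
    (fun i hi => by
      have e : place q₀ (mask T W) (.inr ⟨i, q₀ i⟩) = W (.inr i) := by simp [place, mask, hi]
      obtain ⟨A, hA⟩ := (r4 _).1 (hW.2 i)
      exact ⟨A, hD.mem 1 le_rfl (hT.card_pos.trans_le hM) _ (W (.inr i)).2 A hA,
        fun h => hne i hi (h ▸ hA), e ▸ hA⟩) φ hN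
  refine ⟨z, h1, (p : Rg p M) ^ M * (m.val * (φ ζ).val), ?_, fun h hh c' hc => ?_⟩
  · rw [r3, map_mul, map_natCast, map_natCast, ZMod.natCast_zmod_val, ZMod.natCast_zmod_val,
      ← AddChar.map_zero_eq_one (ZMod.stdAddChar (N := p))]
    exact fun e => mul_ne_zero hm h2 (ZMod.injective_stdAddChar e)
  · obtain ⟨b, b1, b2⟩ := r12 T.card _ (h ∅).1 ζ c' hT.card_pos h3
    rw [hh, hc] at b1
    have b3 : (p : Rg p M) ^ M * (b - (φ ζ).val) = 0 := by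
      have := (r2 M (b - (φ ζ).val) le_rfl).2 (by
        rw [map_sub, map_natCast, ZMod.natCast_zmod_val, b1]
        exact sub_self _)
      rwa [← Nat.cast_pow, ZMod.natCast_self, zero_dvd_iff] at this
    rw [Ps, Ps, ← sub_eq_iff_eq_add', ← Finset.sum_sub_distrib, Finset.sum_eq_single ∅]
    · have e : ((piV (fun ω : Finset (Fin d) => place (ω.piecewise q₁ q₀) (mask T W)) z * h) ∅).1 =
          ev (place q₀ (mask T W)) z * (h ∅).1 := by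
        rw [Pi.mul_apply, piV_ZaShift, Finset.piecewise_empty]
        rfl
      have e2 : (p : Rg p M) ^ M = (p : Rg p M) ^ (M - T.card) * (p : Rg p M) ^ T.card := by
        rw [← pow_add, Nat.sub_add_cancel hM]
      rw [e, b2, if_pos (empty_subset T), card_empty, pow_zero, one_mul]
      linear_combination (m.val : Rg p M) * b3 - (m.val : Rg p M) * b * e2
    · intro ω _ hω
      by_cases h5 : ω ⊆ T
      · obtain ⟨i, hi⟩ := nonempty_iff_ne_empty.2 hω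
        rw [Pi.mul_apply, piV_ZaShift, h4 _ i (h5 hi) (by
          simp [place, Finset.piecewise_eq_of_mem _ _ _ hi, hq i (h5 hi)]), one_mul, sub_self]
      · rw [if_neg h5, zero_mul, zero_mul, sub_self]
    · exact fun h => absurd (mem_univ _) h

end Pool.Agent.MP_f68ac8_nt.Zv
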