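import Mathlib
import Pool.Agent.Mg.Fe23604m.G926323
import Pool.Agent.Mg.Fe23604m.Ga558f2

set_option linter.all false

namespace Pool.Agent.MP_f68ac8_nt.Ze

open Zv Matrix Finset

theorem prod_mem_ZeShift {A I : Type} [CommRing A] (J : Ideal A) (T : Finset I) (a : I → A)
    (h : ∀ i ∈ T, a i ∈ J) : ∏ i ∈ T, a i ∈ J ^ T.card := by
  rw [← prod_const]
  exact Ideal.prod_mem_prod h

theorem nat_ZeShift {A N : Type} [CommRing A] [AddCommGroup N] (φ : A →+ N) (x : A) (n : ℕ) :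
    φ (x * n) = n • φ x := by
  rw [← map_nsmul, nsmul_eq_mul, mul_comm]

/-- The elements that are killed after multiplication. -/
def ann_ZeShift {A N : Type} [CommRing A] [AddCommGroup N] (φ : A →+ N) (y : A) : Ideal A where
  carrier := {x | ∀ z, φ (y * (z * x)) = 0}
  add_mem' {a b} ha hb z := by rw [mul_add, mul_add, map_add, ha z, hb z, add_zero]
  zero_mem' z := by rw [mul_zero, mul_zero, map_zero]
  smul_mem' c x hx z := by rw [smul_eq_mul, ← mul_assoc z]; exact hx _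

theorem span_stmt (p : ℕ) [Fact p.Prime] (hR : RgStmt p) : SpanStmt p := by
  intro A _ _ R I T a k j hjk ha hl N _ φ h1 h2 _
  obtain ⟨r1, -, -, -, -, -, -, r8, -⟩ := hR A R
  have key : ∀ i, i ≤ j → ∃ T' ⊆ T, T'.card = i ∧
      ∃ y ∈ mx A ^ (j - i), φ ((∏ t ∈ T', a t) * y) ≠ 0 := by
    intro i
    induction i with
    | zero =>
      intro _
      refine ⟨∅, empty_subset _, rfl, ?_⟩
      by_contra hc
      refine h2 fun x hx => by_contra fun hx' => hc ⟨x, hx, ?_⟩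
      rwa [prod_empty, one_mul]
    | succ i ih =>
      intro hi
      obtain ⟨T', hT', hc, y, hy, hne⟩ := ih (Nat.le_of_succ_le hi)
      have hP := prod_mem_ZeShift (mx A) T' a fun t ht => ha t (hT' ht)
      rw [hc] at hP
      generalize hPe : ∏ t ∈ T', a t = P at hne hP
      rw [show j - i = (j - (i + 1)) + 1 by omega, pow_succ] at hy
      obtain ⟨y', hy', x₀, hx₀, hne'⟩ : ∃ y' ∈ mx A ^ (j - (i + 1)), ∃ x₀ ∈ mx A,
          φ (P * (y' * x₀)) ≠ 0 := by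
        by_contra hc'
        refine hne (Submodule.mul_induction_on (C := fun y => φ (P * y) = 0) hy
          (fun m hm n hn => by_contra fun h => hc' ⟨m, hm, n, hn, h⟩) fun u v hu hv => ?_)
        rw [mul_add, map_add, hu, hv, add_zero]
      obtain ⟨l, l1, l2, l3⟩ := r8 (mx A) (ann_ZeShift φ (P * y')) x₀ (fun x hx z => by
        refine h1 _ ?_
        rw [show j + 1 = i + (j - (i + 1)) + 2 by omega, pow_add, pow_add, pow_two]
        exact Ideal.mul_mem_mul (Ideal.mul_mem_mul hP hy') (Ideal.mul_mem_left _ _ hx)) hx₀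
        fun h => hne' (by rw [← mul_assoc, ← one_mul x₀]; exact h 1)
      have h3 := hl l l1 ⟨x₀, hx₀, by rw [l3]; exact one_ne_zero⟩
      obtain ⟨t, ht, ht'⟩ := exists_mem_notMem_of_card_lt_card
        (lt_of_lt_of_le (show T'.card < k by omega) h3)
      rw [mem_filter] at ht
      obtain ⟨z, hz⟩ := not_forall.1 fun h => ht.2 (l2 _ (ha t ht.1) h)
      refine ⟨cons t T' ht', cons_subset.2 ⟨ht.1, hT'⟩, by rw [card_cons, hc], z * y',
        Ideal.mul_mem_left _ _ hy', ?_⟩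
      rwa [prod_cons, hPe, show a t * P * (z * y') = P * y' * (z * a t) by ring]
  obtain ⟨T', hT', hc, y, -, hne⟩ := key j le_rfl
  refine ⟨T', hT', hc, fun h => hne ?_⟩
  have hP := prod_mem_ZeShift (mx A) T' a fun t ht => ha t (hT' ht)
  rw [← sub_add_cancel y ((R.rd y).val : A), mul_add, map_add, nat_ZeShift, h, smul_zero, add_zero]
  refine h1 _ ?_
  rw [pow_succ, ← hc]
  exact Ideal.mul_mem_mul hP (r1 y)

section
variable {p : ℕ} [Fact p.Prime] {A : Type} [CommRing A] [Finite A] {R : Rd p A} {ι : Type}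
  [Fintype ι] [DecidableEq ι] {Γ : Subgroup (GL ι A)}
  {L : Submodule (ZMod p) (Matrix ι ι (ZMod p))}
  {B : Type} {B₀ : Set B} {bb : B → GL ι (ZMod p)} {d : ℕ} {U : Fin d → Type}

theorem one_ZeShift (hM : MatStmt p) (hI : Irr L (bb '' B₀)) (V : Lt B U → Γ)
    (hb : ∀ b, rs R (V (.inl b)).1 = bb b) (x : Σ j, U j) (a : A)
    (hx : ∃ Z ∈ L, Z ≠ 0 ∧ Pm (mx A) a (V (.inr x)).1 Z)
    (φ : Matrix ι ι (ZMod p) →ₗ[ZMod p] ZMod p) (hφ : ∃ Z ∈ L, φ Z ≠ 0) :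
    ∃ z ∈ Nc B₀ U, ∃ ζ, φ ζ ≠ 0 ∧ Pm (mx A) a (ev V z) ζ ∧
      ∀ V' : Lt B U → Γ, V' (.inr x) = 1 → FreeGroup.lift V' z = 1 := by
  obtain ⟨Z, hZ, hZ0, h1⟩ := hx
  obtain ⟨g, hg, h2⟩ := hI Z hZ hZ0 φ hφ
  let Φ : FreeGroup (Lt B U) →* GL ι (ZMod p) :=
    (GeneralLinearGroup.map R.rd).comp (Γ.subtype.comp (FreeGroup.lift V))
  have e : bb '' B₀ = Φ '' ((fun b => FreeGroup.of (Sum.inl b)) '' B₀) := by
    rw [Set.image_image]
    refine Set.image_congr fun b _ => ?_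
    rw [← hb]
    simp [Φ, rs]
  rw [e, ← MonoidHom.map_closure] at hg
  obtain ⟨g', hg', rfl⟩ := hg
  refine ⟨g' * FreeGroup.of (.inr x) * g'⁻¹, Subgroup.subset_closure ⟨g', hg', x, rfl⟩, _, h2, ?_,
    fun V' hV => by simp [hV]⟩
  have := ((hM A R ι).2.2.2.2.2.1 _ le_rfl a _ 1 (ev V g') Z 0 h1).2.2.1
  have e2 : ev V (g' * FreeGroup.of (.inr x) * g'⁻¹) = ev V g' * (V (.inr x)).1 * (ev V g')⁻¹ := by
    simp [ev]
  rw [e2]
  exact this

theorem ind_ZeShift (hM : MatStmt p) (hD : LieA R Γ L) (hI : Irr L (bb '' B₀)) (V : Lt B U → Γ)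
    (hb : ∀ b, rs R (V (.inl b)).1 = bb b) (q : ∀ j, U j) (a : Fin d → A) (T : Finset (Fin d))
    (hT : T.Nonempty)
    (hx : ∀ i ∈ T, ∃ Z ∈ L, Z ≠ 0 ∧ Pm (mx A) (a i) (V (.inr ⟨i, q i⟩)).1 Z) :
    ∀ φ : Matrix ι ι (ZMod p) →ₗ[ZMod p] ZMod p, (∃ Z ∈ L, φ Z ≠ 0) →
      ∃ z ∈ Nc B₀ U, ∃ ζ, φ ζ ≠ 0 ∧ Pm (mx A ^ T.card) (∏ i ∈ T, a i) (ev V z) ζ ∧
        ∀ V' : Lt B U → Γ, ∀ i ∈ T, V' (.inr ⟨i, q i⟩) = 1 → FreeGroup.lift V' z = 1 := by
  induction hT using Finset.Nonempty.cons_induction with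
  | singleton i =>
    intro φ hφ
    obtain ⟨z, h1, ζ, h2, h3, h4⟩ :=
      one_ZeShift hM hI V hb _ (a i) (hx i (mem_singleton_self i)) φ hφ
    refine ⟨z, h1, ζ, h2, ?_, fun V' j hj hV => h4 V' (mem_singleton.1 hj ▸ hV)⟩
    rwa [card_singleton, pow_one, prod_singleton]
  | cons i T hi hT ih =>
    intro φ hφ
    obtain ⟨Z, hZ, Z', hZ', h0⟩ := hD.perf φ hφ
    obtain ⟨z₂, a1, ζ₂, a2, a3, a4⟩ := ih (fun j hj => hx j (mem_cons_of_mem hj))
      (φ ∘ₗ (LinearMap.mulLeft (ZMod p) Z - LinearMap.mulRight (ZMod p) Z)) ⟨Z', hZ', h0⟩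
    obtain ⟨z₁, b1, ζ₁, b2, b3, b4⟩ := one_ZeShift hM hI V hb _ (a i) (hx i (mem_cons_self i T))
      (φ ∘ₗ (LinearMap.mulRight (ZMod p) ζ₂ - LinearMap.mulLeft (ZMod p) ζ₂)) ⟨Z, hZ, a2⟩
    refine ⟨z₁ * z₂ * z₁⁻¹ * z₂⁻¹, mul_mem (mul_mem (mul_mem b1 a1) (inv_mem b1)) (inv_mem a1),
      ζ₁ * ζ₂ - ζ₂ * ζ₁, b2, ?_, fun V' j hj hV => ?_⟩
    · have := (hM A R ι).2.2.2.2.2.2.1 _ le_rfl _ (Ideal.pow_le_self hT.card_pos.ne') _ _ _ _ _ _
        b3 a3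
      have e2 : ev V (z₁ * z₂ * z₁⁻¹ * z₂⁻¹) = ev V z₁ * ev V z₂ * (ev V z₁)⁻¹ * (ev V z₂)⁻¹ := by
        simp [ev]
      rw [e2, card_cons, prod_cons, pow_succ']
      exact this
    · rcases mem_cons.1 hj with rfl | hj
      · simp [b4 V' hV]
      · simp [a4 V' j hj hV]

end

theorem shift_stmt (p : ℕ) [Fact p.Prime] (hR : RgStmt p) (hM : MatStmt p) (hP : PfStmt p) : ShiftStmt p := by
  intro M A _ _ R _ ι _ _ Γ L hD B B₀ bb hI d U W hW T a Z hT hZ φ hφ hne q₀ q₁ hq x c hN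
  let ψ : Matrix ι ι (ZMod p) →ₗ[ZMod p] ZMod p := Matrix.traceLinearMap ι (ZMod p) (ZMod p) ∘ₗ
    LinearMap.mulRight (ZMod p) x.val ∘ₗ LinearMap.mulLeft (ZMod p) (x.val - c • 1).adjugate
  obtain ⟨z, h1, ζ, h2, h3, h4⟩ := ind_ZeShift hM hD hI (place q₀ (mask T W)) hW.1 q₀ a T hT
    (fun i hi => by
      have e : place q₀ (mask T W) (.inr ⟨i, q₀ i⟩) = W (.inr i) := by simp [place, mask, hi]
      exact ⟨Z i, (hZ i hi).1, (hZ i hi).2.1, e ▸ (hZ i hi).2.2⟩) ψ hN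
  refine ⟨z, h1, φ ((∏ i ∈ T, a i) * ((ψ ζ).val : A)), ?_, fun h hh c' hc => ?_⟩
  · rw [← AddChar.map_zero_eq_one (ZMod.stdAddChar (N := p ^ (M + 1)))]
    refine fun e => hne ?_
    have e1 := ZMod.injective_stdAddChar e
    have e2 : φ ((∏ i ∈ T, a i) * (1 - ((ψ ζ).val : A) * ((ψ ζ)⁻¹.val : A))) = 0 := by
      refine hφ _ ?_
      rw [pow_succ]
      refine Ideal.mul_mem_mul h3.1 ((R.ker _).1 ?_)
      rw [map_sub, map_one, map_mul, map_natCast, map_natCast, ZMod.natCast_zmod_val,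
        ZMod.natCast_zmod_val, mul_inv_cancel₀ h2, sub_self]
    rwa [mul_sub, map_sub, ← mul_assoc, nat_ZeShift φ (_ * _), e1, smul_zero, sub_zero,
      mul_one] at e2
  · have b1 := ((hP.2 A R ι).1 _ (Ideal.pow_le_self hT.card_pos.ne') _ (h ∅).1 c').2 _ ζ h3
    rw [hh, hc, ← pow_succ'] at b1
    have b2 := hφ _ b1
    rw [Ps, Ps, ← sub_eq_iff_eq_add', ← Finset.sum_sub_distrib, Finset.sum_eq_single ∅]
    · have e : ((piV (fun ω : Finset (Fin d) => place (ω.piecewise q₁ q₀) (mask T W)) z * h) ∅).1 =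
          ev (place q₀ (mask T W)) z * (h ∅).1 := by
        rw [Pi.mul_apply, piV_ZaShift, Finset.piecewise_empty]
        rfl
      rw [e, if_pos (empty_subset T), card_empty, pow_zero, one_smul, ← map_sub, ← sub_eq_zero,
        ← map_sub]
      exact b2
    · intro ω _ hω
      by_cases h5 : ω ⊆ T
      · obtain ⟨i, hi⟩ := nonempty_iff_ne_empty.2 hω
        rw [Pi.mul_apply, piV_ZaShift, h4 _ i (h5 hi) (by
          simp [place, Finset.piecewise_eq_of_mem _ _ _ hi, hq i (h5 hi)]), one_mul, sub_self]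
      · rw [if_neg h5, AddMonoidHom.zero_apply, AddMonoidHom.zero_apply, sub_self]
    · exact fun h => absurd (mem_univ _) h

end Pool.Agent.MP_f68ac8_nt.Ze
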