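import Pool.Agent.Mg.Fe23604m.G0a5d16
import Pool.Agent.Mg.Fe23604m.Ga3c24f
import Pool.Agent.MP_e23604_nt.R.CAll
import Pool.Agent.Mg.Fe23604m.G272308
import Pool.Agent.Mg.Fe23604m.G1c4ad2
import Pool.Agent.Mg.Fe23604m.G47b00c
import Pool.Agent.Mg.Fe23604m.G5e1c7f
import Mathlib
import Pool.Agent.Mg.Fe23604m.G9af74e
import Pool.Agent.Mg.Fe23604m.G4d242a
import Pool.Agent.Mg.Fe23604m.Gad3f3e
import Pool.Agent.Mg.Fe23604m.G170b11
import Pool.Agent.Mg.Fe23604m.G174699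
import Pool.Agent.Mg.Fe23604m.G773521
import Pool.Agent.Mg.Fe23604m.G88686e
import Pool.Agent.Mg.Fe23604m.Gb4a9b3
import Pool.Agent.Mg.Fe23604m.G9a9246
import Pool.Agent.Mg.Fe23604m.Gea0bc8
import Pool.Agent.Mg.Fe23604m.G81ce00
import Pool.Agent.Mg.Fe23604m.G2ddf31
import Pool.Agent.Mg.Fe23604m.G2ea9ea
import Pool.Agent.MP_e23604_nt.BH90
import Pool.Agent.Mg.Fe23604m.Gc0bae7
import Pool.Agent.Mg.Fe23604m.G2d01bf
import Pool.Agent.MP_e23604_nt.BLift
import Pool.Agent.Mg.Fe23604m.G3d4865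
import Pool.Agent.Mg.Fe23604m.G56dd51

set_option linter.all false

section

set_option autoImplicit false

open Module Filter Topology Finset
open scoped Classical

namespace Pool.Agent.MP_e23604_nt.R

open B
open Q (Wn dig CmI Cm0 Pre A1 Eta Jm scf St Cork Fg IdxQ basQ levQ)

theorem bd_INV2 (s : Qb) (a b c d : ZMod 2) :
    s ^ a.val * (-1) ^ (a * c).val * (((-1) ^ c.val * s) ^ b.val * (-1) ^ (b * d).val) =
      (-1) ^ (a * d).val * (s ^ 2) ^ car a b *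
        (s ^ (a + b).val * (-1) ^ ((a + b) * (c + d)).val) := by
  have e : (1 + 1 : ZMod 2) = 0 := rfl
  rcases z2 a with rfl | rfl <;> rcases z2 b with rfl | rfl <;> rcases z2 c with rfl | rfl <;>
    rcases z2 d with rfl | rfl <;> simp [car, e, ZMod.val_one, sq]

theorem INV2_pf (hKUM : KUM_st) (hKAP : KAP_st) : INV2_st := by
  intro l _ γ φ u κ hl hφ hu hu' hu0 hu1 hκ hκ' ⟨τ, hτ, hτ1⟩
  obtain ⟨r, hr, hrκ⟩ := hKUM.2.1 l γ κ hκ hκ'
  have h6 := hKAP.2.2.2.2.2.1 l γ r hl hr τ hτ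
  rw [← hrκ τ (Ine_le l γ hτ), hτ1] at h6
  have hv : Odd (padicValRat l r) := by
    rw [← Int.not_even_iff_odd, ← ZMod.intCast_eq_zero_iff_even]
    intro h
    rw [h, zero_mul] at h6
    exact one_ne_zero h6
  refine ⟨padicValRat l r, hv, 2, 1, u, r, φ, rfl, hr, hφ, hu, hu', hu0, ?_, ?_⟩
  · rw [hu1, ZMod.val_one]; simp
  have hs : sqr r ≠ 0 := fun h => by
    have := sqr_sq r
    rw [h, zero_pow two_ne_zero] at this
    exact hr (by exact_mod_cast this.symm)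
  refine cob_of_lc (β := fun g => sqr r ^ (u g).val * (-1) ^ (u g * κ g).val)
    (hu'.map₂ hκ' fun a c => sqr r ^ a.val * (-1) ^ (a * c).val)
    (fun g _ => mul_ne_zero (pow_ne_zero _ hs) (pow_ne_zero _ (by simp))) fun g hg h hh => ?_
  have h2 := hKAP.2.1 r (sqr r) g (sqr_sq r)
  rw [← hrκ g hg] at h2
  simp only [map_mul, map_pow, map_neg, map_one, h2, hu g hg h hh, hκ g hg h hh, ← sqr_sq r]
  exact bd_INV2 _ _ _ _ _

end Pool.Agent.MP_e23604_nt.R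

end

section

set_option autoImplicit false

open Module Filter Topology Finset
open scoped Classical

namespace Pool.Agent.MP_e23604_nt.R

open B
open Q (Wn dig CmI Cm0 Pre A1 Eta Jm scf St Cork Fg IdxQ basQ levQ)

theorem UPB_pf (hPAI : PAI_st) (hINV2 : INV2_st) (hVAL : VAL_st) (hFRO : FRO_st) : UPB_st := by
  intro A _ J η n cc T hP l _ u hl h1 h2 h3 ⟨R, hR⟩
  have hc := hP.cm.toCm0
  have hl2 : l ≠ 2 := by
    rintro rfl
    exact (Nat.not_even_iff_odd.2 hP.odd) (even_iff_two_dvd.2 hl)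
  obtain ⟨⟨φ, hφ⟩, hF⟩ := hFRO l 1
  refine (hF φ hφ).2.2.2.2 (ZMod 2) u h1 h2 h3 ((z2 (u φ)).resolve_right fun hu => ?_)
  obtain ⟨e, he⟩ := hP.wp 1
  obtain ⟨T', a1, a2⟩ := W_ex hP.cm 2
  have hz : Zc J η 2 (dd η T') := dd_zc hc hP.ga a1
  have hd : ∀ g y, dig J 1 (η g y) = dig J 1 y := fun g y => by
    simp only [dig, hP.ga.pre g 1 y]
  have hW : ∀ g h, η g (dd η T' h) ∈ Wn J 2 := fun g h => (hP.ga.pre g 2 _).2 (hz.lev h)
  obtain ⟨τ, b1, -, b2⟩ := hP.ga.tam l hl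
  obtain ⟨v, c1, c2⟩ := hINV2 l 1 φ u (fun g => dig J 1 (dd η T' g)) hl2 hφ h1 h2 h3 hu
    (fun g _ h _ => by simp only [hz.coc, Q.add_XBas hc 1 (hz.lev g) (hW g h), hd])
    ((hz.lc.map (dig J 1)).mono le_top)
    ⟨τ, b1, Q.dig1_XBas fun h => a2 ((W_om hc).1 (by rwa [dd, b2 3 T' a1] at h))⟩
  have hT : T ∈ tor A (2 ^ 1) := (W_tor hc 1).1 (W_mono hc one_le_two hP.t0.1)
  have hcob := he.iso (Dec (nv l 1)) R T' (fun g hg => hR g hg ▸ nsmul_mem hT _)
    fun g _ => (W_tor hc 1).1 (hz.lev g)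
  obtain ⟨p1, p2, -⟩ := hPAI A J 1 e hP.cm he.toPai le_rfl
  have c3 := hVAL.2.2 l 1 (fun g h => (-1) ^ (u g * dig J 1 (dd η T' h)).val)
    (hcob.congr fun g hg h _ => by
      rw [cup, ← hR g hg, chT]
      rcases z2 (u g) with e0 | e0
      · rw [e0, zero_mul, ZMod.val_zero, zero_smul, pow_zero]
        exact p2 0 2 le_rfl 0 (zero_mem _) _ (hW g h)
      · rw [e0, one_mul, ZMod.val_one, one_smul, p1 T hP.t0 _ (hW g h), hd])
  obtain ⟨k, hk⟩ := hVAL.2.1 l 1 _ _ _ c2 c3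
  have hv : v = 2 * k := by
    have : (v : ℚ) = 2 * k := by linarith
    exact_mod_cast this
  exact (Int.not_even_iff_odd.2 c1) ⟨k, by rw [hv, two_mul]⟩

end Pool.Agent.MP_e23604_nt.R

end

section

set_option autoImplicit false

open Module Filter Topology Finset
open scoped Classical

namespace Pool.Agent.MP_e23604_nt.R

open B
open Q (Wn dig CmI Cm0 Pre A1 Eta Jm scf St Cork Fg IdxQ basQ levQ)

theorem LAST_pf (hCUP : CUP_st) (hPAI : PAI_st) (hINV2 : INV2_st) (hVAL : VAL_st) (hFRO : FRO_st) : LAST_st := by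
  intro A _ J η n cc T hP K ζ l₀ qq Q φ τ hQ _ ξ u hξ hun h2 hc hl u1 u2 u3 ⟨R, hR⟩
  obtain ⟨⟨φ₀, hφ⟩, hF⟩ := hFRO l₀ 1
  refine (hF φ₀ hφ).2.2.2.2 (ZMod 2) u u1 u2 u3 ((z2 _).resolve_right fun hu => ?_)
  have h0 := hP.cm.toCm0
  have hK : 1 ≤ K := one_le_two.trans hQ.two
  obtain ⟨e, he⟩ := hP.wp K
  obtain ⟨p1, p2, -⟩ := hPAI A J K e hP.cm he.toPai hK
  obtain ⟨T', t1, t2⟩ := W_ex hP.cm (2 * K)
  have hz : Zc J η (2 * K) (dd η T') := dd_zc h0 hP.ga t1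
  have hz' : ∀ H, InL η H (dd η T') := fun H => ⟨T', fun _ _ => rfl⟩
  have l0n : l₀ ∣ n := Nat.dvd_of_mem_primeFactors hQ.base
  have l02 : l₀ ≠ 2 := by
    rintro rfl
    exact Nat.not_even_iff_odd.2 hP.odd (even_iff_two_dvd.2 l0n)
  have l0Q : l₀ ∉ Q := fun h => (hQ.pri _ h).2.2 l0n
  have hpr : 2 * K - 1 + 1 = 2 * K := by omega
  have lev : ∀ g j, η g (dd η T' j) ∈ Wn J (2 * K) := fun g j => (hP.ga.pre g _ _).2 (hz.lev j)
  have da : ∀ g y, dig J (2 * K - 1) (η g y) = dig J (2 * K - 1) y := fun g y => by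
    simp only [dig, hP.ga.pre g _ y]
  let κ : GQ → ZMod 2 := fun g => dig J (2 * K - 1) (dd η T' g)
  have κ1 : Adt ⊤ κ := fun g _ j _ => by
    simp only [κ]
    rw [dd_coc, (basQ A J h0).2.2.2.2.2.1 (2 * K - 1) _ (hpr.symm ▸ hz.lev g) _
      (hpr.symm ▸ lev g j), da]
  have κ2 : Lc ⊤ κ := hz.lc.map _
  have κ3 : ∃ τ ∈ Ine l₀ 1, κ τ = 1 := by
    obtain ⟨τ', a1, -, a3⟩ := hP.ga.tam l₀ l0n
    refine ⟨τ', a1, if_neg fun h => t2 ?_⟩
    rwa [dd, a3 _ _ t1, ← om_apply, W_om h0, hpr] at h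
  obtain ⟨v, v1, v2⟩ := hINV2 l₀ 1 φ₀ u κ l02 hφ u1 u2 u3 hu (κ1.mono le_top) (κ2.mono le_top) κ3
  have c1 : ∀ g, chT u T g ∈ Wn J (2 * K) := fun g =>
    nsmul_mem (W_mono h0 (by omega) hP.t0.1) _
  have c2 : ∀ g j, e (chT u T g) (η g (dd η T' j)) = (-1) ^ (u g * κ j).val := fun g j => by
    rcases z2 (u g) with h | h
    · rw [(chT_eq_zero hP.t0.2).2 h, h, zero_mul, ZMod.val_zero, pow_zero]
      exact p2 0 (2 * K) (by omega) 0 (zero_mem _) _ (lev g j)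
    · rw [chT, h, one_mul, ZMod.val_one, one_smul, p1 T hP.t0 _ (lev g j), da]
  have i0 : Inv l₀ 1 (cup η e ξ (dd η T')) (v / 2) := by
    refine (Inv.cob_mul (he.iso (Dec (nv l₀ 1)) R T' (fun g hg => ?_)
      fun g _ => (W_tor h0 K).1 (hz.lev g)) v2).congr fun g hg j _ => ?_
    · rw [← hR g hg]
      exact (W_tor h0 K).1 (add_mem (hξ.lev g) (c1 g))
    · simp only [cup]
      rw [← hR g hg, Pi.add_apply, he.bil.addl _ ((W_tor h0 K).1 (hξ.lev g)) _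
        ((W_tor h0 K).1 (c1 g)) _ ((W_tor h0 K).1 (lev g j)), c2, mul_assoc, ← mul_pow]
      simp
  obtain ⟨k, hk⟩ := hCUP A J η n cc T hP K e ξ (dd η T') (insert l₀ Q)
    (fun l => if l = l₀ then v / 2 else 0) he hξ hz h2 (hz' _) hc (hz' _) (fun l hl' => by
      rcases mem_insert.1 hl' with rfl | h
      · exact ⟨Fact.out, l02⟩
      · exact ⟨(hQ.pri l h).1, (hQ.pri l h).2.1⟩) (fun l _ hl' => by
      rcases mem_insert.1 hl' with rfl | h
      · rw [if_pos rfl]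
        exact i0
      · rw [if_neg (ne_of_mem_of_not_mem h l0Q)]
        refine hVAL.2.2 l 1 _ ((Cob.one _).congr fun g _ j hj => ?_)
        rw [cup, dd, hQ.triv l h j hj T' t1, sub_self, map_zero]
        exact (p2 (2 * K) 0 le_rfl _ (hξ.lev g) 0 (zero_mem _)).symm) (fun l _ a1 a2 => by
      rw [mem_insert, not_or] at a2
      by_cases a3 : l ∣ n
      · exact Or.inl ⟨hl l a3 a2.1, hz' _⟩
      · exact Or.inr ⟨a3, fun γ τ' hτ => ⟨hun l γ a1 a3 a2.2 τ' hτ,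
          sub_eq_zero.2 (hP.ga.unr l γ a1 a3 τ' hτ _ T' t1)⟩⟩)
  rw [sum_insert l0Q, if_pos rfl, sum_eq_zero fun l h => if_neg (ne_of_mem_of_not_mem h l0Q),
    add_zero, div_eq_iff two_ne_zero] at hk
  have : v = k * 2 := by exact_mod_cast hk
  exact Int.not_even_iff_odd.2 v1 ⟨k, by omega⟩

end Pool.Agent.MP_e23604_nt.R

end

section

set_option autoImplicit false

open Module Filter Topology Finset
open scoped Classical

namespace Pool.Agent.MP_e23604_nt.R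

open B
open Q (Wn dig CmI Cm0 Pre A1 Eta Jm scf St Cork Fg IdxQ basQ levQ)

theorem prod_EISOT {ζ : Qb} (h : ζ ≠ 0) (s : Finset ℕ) (m : ℕ → ℤ) :
    ∏ q ∈ s, ζ ^ m q = ζ ^ ∑ q ∈ s, m q := by
  induction s using Finset.induction_on with
  | empty => simp
  | insert a s ha ih => rw [prod_insert ha, sum_insert ha, ih, zpow_add₀ h]

theorem ISOT_pf (hCUP : CUP_st) (hINVQ : INVQ_st) (hPAI : PAI_st) : ISOT_st := by
  intro A _ J η n cc T hP K ζ l₀ qq Q φ τ hQ e he a ha b hb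
  have h0 := hP.cm.toCm0
  have key : ∀ q : ℕ, ∃ m : ℤ, ∀ [Fact q.Prime], q ∈ Q →
      ζ ^ m * e (a (φ q)) (b (τ q)) = e (a (τ q)) (b (φ q)) ∧
        Inv q 1 (cup η e a b) (m / 2 ^ (K + 1)) := by
    intro q
    by_cases hq : q ∈ Q
    · have : Fact q.Prime := ⟨(hQ.pri q hq).1⟩
      have tr : ∀ g ∈ Dec (nv q 1), ∀ u ∈ Wn J (2 * K), η g u = u := fun g hg u hu =>
        hQ.triv q hq g hg u (W_mono h0 (Nat.le_succ _) hu)
      have ad : ∀ ξ : GQ → A, Zc J η (2 * K) ξ → Adt (Dec (nv q 1)) ξ := fun ξ hξ g hg j _ => by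
        rw [hξ.coc, tr g hg _ (hξ.lev j)]
      obtain ⟨m, h1, h2⟩ := hINVQ K ζ q 1 (φ q) (τ q) A (tor A (2 ^ K)) e a b hQ.zeta (hQ.tq q hq)
        he.bil (fun x hx => by rw [pow_succ', mul_smul, mem_tor.1 hx, smul_zero]) (ad a ha.1)
        (ad b hb.1) (ha.1.lc.mono le_top) (hb.1.lc.mono le_top)
        fun g _ => ⟨(W_tor h0 K).1 (ha.1.lev g), (W_tor h0 K).1 (hb.1.lev g)⟩
      exact ⟨m, fun _ => ⟨h1, h2.congr fun g hg j _ => by rw [cup, tr g hg _ (hb.1.lev j)]⟩⟩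
    · exact ⟨0, fun h => absurd h hq⟩
  choose m hm using key
  obtain ⟨k, hk⟩ := hCUP A J η n cc T hP K e a b Q (fun q => m q / 2 ^ (K + 1)) he ha.1 hb.1
    ha.2.2.1 hb.2.2.1 ha.2.2.2.1 hb.2.2.2.1 (fun l hl => ⟨(hQ.pri l hl).1, (hQ.pri l hl).2.1⟩)
    (fun l _ hl => (hm l hl).2) fun l _ h2 hl => by
      by_cases h : l ∣ n
      · exact Or.inl ⟨ha.2.2.2.2 l h, hb.2.2.2.2 l h⟩
      · exact Or.inr ⟨h, fun γ t ht => ⟨ha.2.1 l γ h2 h hl t ht, hb.2.1 l γ h2 h hl t ht⟩⟩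
  have h1 : ∑ q ∈ Q, m q = (2 ^ (K + 1) : ℕ) * k := by
    rw [← sum_div, div_eq_iff (by positivity), mul_comm] at hk
    exact_mod_cast hk
  have z0 : ζ ≠ 0 := hQ.zeta.ne_zero (by positivity)
  have h2 : ∏ q ∈ Q, ζ ^ m q = 1 := by
    rw [prod_EISOT z0, h1, zpow_mul, zpow_natCast, hQ.zeta.pow_eq_one, one_zpow]
  have h3 : ∏ q ∈ Q, ζ ^ m q * (e (a (φ q)) (b (τ q)) * e (b (φ q)) (a (τ q))) = 1 :=
    prod_eq_one fun q hq => by
      have : Fact q.Prime := ⟨(hQ.pri q hq).1⟩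
      rw [← mul_assoc, (hm q hq).1]
      exact (hPAI A J K e hP.cm he.toPai (by have := hQ.two; omega)).2.2 _ (ha.1.lev _) _
        (hb.1.lev _)
  rw [prod_mul_distrib, h2, one_mul] at h3
  rw [prod_coe_sort Q fun q => e (a (φ q)) (b (τ q)) * e (b (φ q)) (a (τ q)), h3]

end Pool.Agent.MP_e23604_nt.R

end

section

set_option autoImplicit false

open Module Filter Topology Finset
open scoped Classical

namespace Pool.Agent.MP_e23604_nt.R

open B
open Q (Wn dig CmI Cm0 Pre A1 Eta Jm scf St Cork Fg IdxQ basQ levQ)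

theorem KER_pf (hKER1 : KER1_st) : KER_st := by
  intro A _ J η n cc T ℓ hP K ζ l₀ qq Q φ τ hQ m
  have hJ := (hP.p1 0).cm
  have hc := hJ.toCm0
  induction m with
  | zero =>
    intro _ j ξ hξ _
    exact ⟨0, zero_mem _, funext fun g => by simp [dd, (W_zero hc).1 (hξ.1.lev g)]⟩
  | succ m ih =>
    intro hm j ξ hξ hr
    have r1 : ∀ q : Q, ξ (φ q) = 0 ∧ ξ (τ q) = 0 := fun q => Prod.ext_iff.1 (congrFun hr q)
    obtain ⟨T₂, h2, e2⟩ := ih (by omega) (j + 1) _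
      (Sq_map (wo J).toAddMonoidHom (hP.tw j) (fun u hu => (W_om hc).2 hu) hξ)
      (funext fun q => Prod.ext (by simp [res, (r1 q).1]) (by simp [res, (r1 q).2]))
    obtain ⟨T₁, rfl⟩ := hJ.surj T₂
    have h1 := (W_om hc).1 h2
    have s1 := sub_mem hξ (dd_sq hc (hP.p1 j).ga cc Q h1)
    have s2 : ξ - dd (η j) T₁ ∈ Sq J (η j) n cc Q 1 := by
      refine ⟨⟨s1.1.lc, s1.1.coc, fun g => (W_om hc).1 ((W_zero hc).2 ?_)⟩, s1.2⟩
      have := congrFun e2 g
      simp only [dd, LinearMap.toAddMonoidHom_coe] at this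
      simp only [Pi.sub_apply, dd, map_sub, this, hP.tw, sub_self]
    obtain ⟨T₀, h0, e0⟩ := hKER1 A J (η j) n cc T (hP.p1 j) K ζ l₀ qq Q φ τ (hQ j) _ s2
      (funext fun q => by
        have : Fact (q : ℕ).Prime := ⟨((hQ j).pri q q.2).1⟩
        have t1 := (hQ j).tq q q.2
        have t2 := fun g hg => (hQ j).triv q q.2 g hg T₁ (W_mono hc (by omega) h1)
        exact Prod.ext (by simp [res, dd, (r1 q).1, t2 _ t1.fr.1])
          (by simp [res, dd, (r1 q).2, t2 _ (Ine_le _ _ t1.ine)]))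
    refine ⟨T₁ + T₀, add_mem h1 (W_mono hc (by omega) h0), funext fun g => ?_⟩
    have := congrFun e0 g
    simp only [Pi.sub_apply, dd] at this
    simp only [dd, map_add]
    rw [sub_eq_iff_eq_add.1 this]
    abel

end Pool.Agent.MP_e23604_nt.R

end

section

set_option autoImplicit false

open Module Filter Topology Finset
open scoped Classical

namespace Pool.Agent.MP_e23604_nt.R

open B
open Q (Wn dig CmI Cm0 Pre A1 Eta Jm scf St Cork Fg IdxQ basQ levQ)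

theorem comp_ETW {u u' : Qb} (hu : u ^ 4 = 1) (hu' : u' ^ 4 = 1) (R : A1) :
    scf 1 u' (scf 1 u R) = scf 1 (u' * u) R :=
  (Q.scQ 1 1 Qb u one_ne_zero one_ne_zero (by rw [hu, one_mul])).2.2.1 1 u' one_ne_zero
    (by rw [hu', one_mul]) R

theorem gal_ETW {u : Qb} (hu : u ^ 4 = 1) (g : GQ) (R : A1) :
    galQ (P.EE 1) g (scf 1 u R) = scf 1 (g u) (galQ (P.EE 1) g R) :=
  (Q.scQ 1 1 Qb u one_ne_zero one_ne_zero (by rw [hu, one_mul])).2.2.2.2 Qb (g : Qb →+* Qb) R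

theorem neg_ETW {u : Qb} (hu : u ^ 4 = 1) (R : A1) : scf 1 (-u) R = -scf (1 : ℚ) u R := by
  rw [← ((Q.scQ 1 1 Qb 1 one_ne_zero one_ne_zero (by rw [one_pow, one_mul])).2.2.2.1 _).2,
    comp_ETW hu (by norm_num), neg_one_mul]

theorem TW_pf : TW_st := by
  intro i δ J η D hJ hη hD hδ η' hη' g u
  have hi : i ^ 2 = -1 := hJ.1
  have h0 : δ ≠ 0 := by
    rintro rfl
    exact hD (by exact_mod_cast (hδ.symm.trans (zero_pow (by norm_num))))
  have h1 : 1 - i ≠ 0 := fun h => by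
    rw [← sub_eq_zero.1 h] at hi
    norm_num at hi
  have hu : (g δ / δ) ^ 4 = 1 := by
    rw [div_pow, ← map_pow, hδ, map_intCast, div_self (by exact_mod_cast hD)]
  have hi4 : (-i) ^ 4 = 1 := by linear_combination (i ^ 2 - 1) * hi
  have hi4' : i ^ 4 = 1 := by linear_combination (i ^ 2 - 1) * hi
  have b : (g i) ^ 2 = i ^ 2 := by rw [← map_pow, hi, map_neg, map_one]
  rw [om_apply, om_apply, map_sub, hη' g, hη' g, hη g, hJ.2, hJ.2, gal_ETW hi4,
    comp_ETW hu hi4, map_neg, map_mul, map_sub, map_one]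
  rcases sq_eq_sq_iff_eq_or_eq_neg.1 b with a | a
  · rw [a, mul_div_mul_left _ _ h1, comp_ETW hi4 hu, mul_comm]
  · have e : (1 - -i) * g δ / ((1 - i) * δ) = i * (g δ / δ) := by
      field_simp
      linear_combination g δ * hi
    have h2 : (i * (g δ / δ)) ^ 4 = 1 := by rw [mul_pow, hi4', hu, one_mul]
    rw [a, e, neg_neg, comp_ETW hi4' h2, neg_mul, neg_ETW h2,
      show i * (g δ / δ) * i = -(g δ / δ) by linear_combination g δ / δ * hi, neg_ETW hu]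
    abel

end Pool.Agent.MP_e23604_nt.R

end

section

set_option autoImplicit false

namespace Pool.Agent.MP_e23604_nt.R

theorem LEV_ok : LEV_st := LEV_pf
theorem FINR_ok : FINR_st := FINR_pf
theorem PAI_ok : PAI_st := PAI_pf
theorem INV2_ok : INV2_st := INV2_pf KUM_ok KAP_ok
theorem CUP_ok : CUP_st := CUP_pf REC_ok LEV_ok
theorem UPB_ok : UPB_st := UPB_pf PAI_ok INV2_ok VAL_ok FRO_ok
theorem LAST_ok : LAST_st := LAST_pf CUP_ok PAI_ok INV2_ok VAL_ok FRO_ok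
theorem COR_ok : COR_st := COR_pf LAST_ok TAM_ok KAP_ok FRO_ok KUM_ok DIC_ok
theorem LIF0_ok : LIF0_st := LIF0_pf AQ_ok LEV_ok HOMQ_ok
theorem LIFT_ok : LIFT_st := LIFT_pf LIF0_ok FINR_ok KUM_ok KAP_ok TAM_ok COR_ok DIC_ok
theorem ISOT_ok : ISOT_st := ISOT_pf CUP_ok INVQ_ok PAI_ok
theorem KER1_ok : KER1_st := KER1_pf UPB_ok KUM_ok KAP_ok TAM_ok FRO_ok HOMQ_ok
theorem LOW_ok : LOW_st := LOW_pf COR_ok KER1_ok KAP_ok TAM_ok FRO_ok HOMQ_ok
theorem KER_ok : KER_st := KER_pf KER1_ok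
theorem QEX_ok : QEX_st := QEX_pf CHEB_ok LEV_ok KAP_ok TQ_ok FRO_ok
theorem LIN1_ok : LIN1_st := LIN1_pf
theorem LIN_ok : LIN_st := LIN_pf TRI_ok LIN1_ok PAI_ok
theorem PAR_ok : PAR_st := PAR_pf QEX_ok LIN_ok LIFT_ok LOW_ok ISOT_ok KER_ok TAM_ok HOMQ_ok
theorem BND_ok : BND_st := BND_pf
theorem FIN_ok : FIN_st := FIN_pf
theorem FNX_ok : FNX_st := FNX_pf
theorem WEIL_ok : WEIL_st := WEIL_pf FNX_ok
theorem ISO_ok : ISO_st := ISO_pf FNX_ok
theorem TH_ok : TH_st := TH_pf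
theorem GA_ok : GA_st := GA_pf TAM_ok KAP_ok DIC_ok
theorem TW_ok : TW_st := TW_pf
theorem PT_ok : PT_st := PT_pf TW_ok KAP_ok
theorem TAB0_ok : TAB0_st := TAB0_pf PT_ok KUM_ok KAP_ok DIC_ok
theorem TAB1_ok : TAB1_st := TAB1_pf PT_ok KUM_ok KAP_ok DIC_ok
theorem INST_ok : INST_st := INST_pf GA_ok TW_ok TH_ok WEIL_ok ISO_ok TAB0_ok TAB1_ok
theorem IDX_ok : IDX_st := IDX_pf
theorem DL_ok : DL_st := DL_pf
theorem APX0_ok : APX0_st := APX0_pf
theorem APX_ok : APX_st := APX_pf APX0_ok DL_ok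
theorem SEL_ok : SEL_st := SEL_pf APX_ok DIC_ok
theorem RED_ok : RED_st := RED_pf SEL_ok

end Pool.Agent.MP_e23604_nt.R

end

section

set_option autoImplicit false

open Module Filter Topology Finset
open scoped Classical

namespace Pool.Agent.MP_e23604_nt.R

open B
open Q (Wn dig CmI Cm0 Pre A1 Eta Jm scf St Cork Fg IdxQ basQ levQ)

theorem UNR_pf (hSURJ : SURJ_st) (hFRO : FRO_st) : UNR_st := by
  intro A _ J η n cc T hP hS m ξ l _ hξ h2 hn hI
  obtain ⟨⟨φ, hφ⟩, hF⟩ := hFRO l 1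
  obtain ⟨k, R, hR, hφR⟩ := hSURJ A J η n cc T hP hS l φ h2 hφ m (ξ φ) (hξ.lev φ)
  have hcoc : ∀ g h, ξ (g * h) - dd η R (g * h) = ξ g - dd η R g + η g (ξ h - dd η R h) := by
    intro g h
    rw [hξ.coc, dd_coc, map_sub]
    abel
  have hlc : Lc ⊤ fun g => ξ g - dd η R g :=
    hξ.lc.map₂ ((hP.ga.opn R).map (· - R)) (· - ·)
  obtain ⟨N, hN, hc⟩ := hlc
  have h1 : ∀ τ ∈ Ine l 1, ξ τ - dd η R τ = 0 := by
    intro τ hτ
    rw [hI τ hτ, dd, hP.ga.unr l 1 h2 hn τ hτ k R hR, sub_self, sub_self]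
  have h3 : ξ φ - dd η R φ = 0 := by rw [dd, hφR, sub_self]
  have h4 : ∀ τ ∈ Ine l 1, ∀ i : ℕ, ξ (φ ^ i * τ) - dd η R (φ ^ i * τ) = 0 := by
    intro τ hτ i
    induction i with
    | zero => rw [pow_zero, one_mul]; exact h1 τ hτ
    | succ i ih => rw [pow_succ', mul_assoc, hcoc, ih, h3, map_zero, add_zero]
  refine ⟨R, fun g hg => ?_⟩
  obtain ⟨i, τ, hτ, hm⟩ := (hF φ hφ).2.2.2.1 N hN g hg
  exact sub_eq_zero.1 ((hc _ trivial g trivial hm).symm.trans (h4 τ hτ i))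

end Pool.Agent.MP_e23604_nt.R

end

section

namespace Pool.Agent.MP_f68ac8_nt.Nd

open Zq Ev Pv Sv Zv Zk NumberField Finset Filter
open scoped Topology BigOperators

theorem matQ (hG : GenR) (hO : OscM) (hT : TwN) (hW : WmN) : MatQ := by
  classical
  intro ε hε
  obtain ⟨B, δ, C, hδ, hC, h⟩ := hG ε hε
  refine ⟨B, δ, 2 * C ^ 2, hδ, by nlinarith, fun m => ?_⟩
  obtain ⟨m₀, h1⟩ := h m
  refine ⟨m₀, fun p c n' r D' η hc hp y d μ hd hth => ?_⟩
  have hos := hO 0 p c n' r D' η hc hp y d μ hd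
  have h2 := core_NgMat hT hW 0 p c n' r D' η hc hp y d μ
    (fun r => if GenQ (mk μ 1) (mk μ 3) B m (ul r) (lc r) then 0 else 1) ε C hε.le hC
    ((h1 d _ _ _ _ hos hth).trans (add_le_add le_rfl
      (mul_le_mul_of_nonneg_right (pow_le_pow_right₀ hC (by omega)) hos.pos)))
  have h3 : ∀ l : p.Λ, (l : ℕ) ≠ 2 := fun l e => by
    have := (hp.pri l l.2).2
    rw [e] at this
    exact absurd this (by decide)
  have h4 : ∀ q : Fin d → p.Λ, ul (lkx 0 1 q) = lk2 (vl q) := fun q => by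
    funext i j
    simp [ul, lkx, lk3, lk2, ext, ov, ex, lx, vl, h3]
  have h5 : ∀ q : Fin d → p.Λ, lc (lkx 0 1 q) = fun j => lk 2 2 (q j) := fun q => by
    funext i
    simp [lc, lkx, lk3, ext, ov, lx, (Fin.castSucc_lt_last i).ne]
  simp only [h4, h5] at h2
  refine le_of_eq_of_le ?_ h2
  exact congrArg _ (funext fun q => ite_NgMat _ _ _)

end Pool.Agent.MP_f68ac8_nt.Nd

end

section

/-! The analytic and probabilistic statements that have been proved. -/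

namespace Pool.Agent.MP_f68ac8_nt.Nd

open Zq Zv Zk

theorem twN_all : TwN := twN ker_stmt

theorem matQ_all : MatQ :=
  matQ (genR (masQ colN)) (oscM qr_stmt jacN (tinyM locM) twN_all wmN) twN_all wmN

theorem errF_all : ErrF :=
  errF (boxN gcsN) mom_stmt momN unif_stmt (span_stmt 2 lcs_stmt) corn_stmt

theorem ptQ_all : PtQ := ptQ dens_all matQ_all errF_all eqaQ unif_stmt twN_all wmN

end Pool.Agent.MP_f68ac8_nt.Nd

end

section

namespace Pool.Agent.MP_e23604_nt.Q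

open Finset Filter NumberField
open MP_f68ac8_nt
open MP_f68ac8_nt.Zq (Mx sg eps lk2)
open MP_f68ac8_nt.Zk (Cp Yw rr ch lk)
open MP_f68ac8_nt.Nd (Lr x2 chn Loc Op2 Fr vl Rcp GenQ GnQ WdQ exq Sp np Km)
open scoped BigOperators Topology

open Classical in
/-- the local action -/
noncomputable def th_XAct {A V : Type} [AddCommGroup A] [AddCommGroup V] (JV : V ≃ₗ[ℤ] V)
    (ι : V →ₗ[ℤ] A) (m : ℕ) (a : A ≃ₗ[ℤ] A) (w : A) : Pm JV m :=
  if h : ∃ t : Pm JV m, Rep ι t a w then h.choose else 1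

theorem th_rep_XAct {A V : Type} [AddCommGroup A] [AddCommGroup V] {JV : V ≃ₗ[ℤ] V}
    {ι : V →ₗ[ℤ] A} {m : ℕ} {a : A ≃ₗ[ℤ] A} {w : A} (h : ∃ t : Pm JV m, Rep ι t a w) :
    Rep ι (th_XAct JV ι m a w) a w := by
  rw [th_XAct, dif_pos h]
  exact h.choose_spec

theorem th_fix_XAct {A V : Type} [AddCommGroup A] [AddCommGroup V] {JV : V ≃ₗ[ℤ] V}
    {ι : V →ₗ[ℤ] A} (hι : Function.Injective ι) (m : ℕ) (a : A ≃ₗ[ℤ] A) {b : A} {o : V}
    (ho : ι o = -b) : (th_XAct JV ι m a (a b - b)).1 o = o := by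
  by_cases h : ∃ t : Pm JV m, Rep ι t a (a b - b)
  · apply hι
    rw [th_rep_XAct h o, ho, map_neg]
    abel
  · rw [th_XAct, dif_neg h]
    rfl

theorem actQ (hBasQ : BasQ) (hFilQ : FilQ) (hThQ : ThQ) (hAdmQ : AdmQ) : ActQ := by
  intro A _ V _ _ J JV ι N hI hE m hN η₀ α a π b' hb'
  obtain ⟨hmA, -, -, -, -, -, hpA, -⟩ := hBasQ A J hI.toCm0
  obtain ⟨hmV, -, -, -, -, hdV, -⟩ := hBasQ V JV hE.cm.toCm0
  obtain ⟨-, hT2, hT3, hT4⟩ := hThQ A V J JV ι N hI hE m (by omega)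
  obtain ⟨o, ho⟩ := hE.rng (-b') (neg_mem (hN ▸ hb'))
  refine ⟨⟨fun g => th_XAct JV ι m (η₀ g) (η₀ g b' - b'), o, α, a, π⟩,
    ⟨fun g _ => th_fix_XAct hE.inj m (η₀ g) ho, hmV N (m + 4) (by omega) (hE.cm.top o)⟩, ?_⟩
  intro η n τ x pp b hG hL hbb hs
  obtain ⟨-, hco, -, -, hx0⟩ := id hL.st
  have hz : ∀ g, x g + η g b' - b' ∈ Wn J m := by
    intro g
    have e : x g + η g b' - b' = (x g + η g b - b) - (η g (b - b') - (b - b')) := by
      rw [map_sub]; abel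
    rw [e]
    exact sub_mem (hL.lev g) ((hpA _ (hG.pre g)).1 m _ hbb)
  obtain ⟨θ, hθ⟩ := hT4 η (fun g => x g + η g b' - b') hG.pre hz (fun g h => by
    rw [hco, map_mul, map_sub, map_add]
    change x g + η g (x h) + η g (η h b') - b' = _
    abel)
  have hp : ∀ l ∈ n.primeFactors, pp l - b' ∈ Wn J (m + 1) := by
    intro l hl
    have e : pp l - b' = (pp l - b) + (b - b') := by abel
    rw [e]
    exact add_mem (hL.fix l hl).2 hbb
  have hv : ∀ l, ∃ y, l ∈ n.primeFactors → ι y = pp l - b' := by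
    intro l
    by_cases hl : l ∈ n.primeFactors
    · obtain ⟨y, hy⟩ := hE.rng _ (hmA (m + 1) N (by omega) (hp l hl))
      exact ⟨y, fun _ => hy⟩
    · exact ⟨0, fun h => absurd h hl⟩
  choose v hv using hv
  have hvW : ∀ l ∈ n.primeFactors, v l ∈ Wn JV (m + 1) := fun l hl =>
    (hE.lev _ _).1 (by rw [hv l hl]; exact hp l hl)
  refine ⟨θ, v, hAdmQ A V J JV ι N hI hE η n α a τ η₀ hG x hL.st (m + 3) b' hb' m θ hθ,
    fun g hg => ?_, fun l hl => ⟨hvW l hl, ?_⟩, ?_, fun k hk hkm g => ?_, hs⟩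
  · have h1 : Rep ι (θ g) (η₀ g) (η₀ g b' - b') := by
      have := hθ g
      rwa [hx0 g hg, zero_add, hG.two g hg] at this
    exact hT2 _ _ _ _ _ h1 (th_rep_XAct ⟨_, h1⟩) fun _ _ => rfl
  · refine Subtype.ext (AffineEquiv.ext fun y => hE.inj ?_)
    have h1 := (hL.fix l hl).1
    rw [hθ (τ l) y, ((hFilQ V JV hE.cm.toCm0 m).2.2.2.1 (v l) (hvW l hl)).1 y,
      hG.tam l hl N _ ((hE.lev _ _).2 (hE.cm.top y)), hG.tam l hl _ _ hb', map_add, hE.com,
      map_sub, hv l hl, map_sub, map_sub, eq_sub_of_add_eq h1]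
    abel
  · obtain ⟨l, hl, l', hl', hne⟩ := hL.nc
    refine ⟨l, hl, l', hl', fun h => ?_⟩
    have h1 := hdV m _ (sub_mem (hvW l hl) (hvW l' hl')) _ (hvW l' hl')
    have h2 : v l - v l' ∉ Wn JV m := fun h2 => hne (by
      have := (hE.lev _ _).2 h2
      rwa [map_sub, hv l hl, hv l' hl', sub_sub_sub_cancel_right] at this)
    rw [sub_add_cancel, h, dig.eq_1 JV m (v l - v l'), if_neg h2] at h1
    exact one_ne_zero (add_eq_right.1 h1.symm)
  · rw [hT3 _ _ _ (hθ g) k (by omega)]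
    exact hG.del k hk g

end Pool.Agent.MP_e23604_nt.Q

end

section

namespace Pool.Agent.MP_e23604_nt.Q

open Finset Filter NumberField
open MP_f68ac8_nt
open MP_f68ac8_nt.Zq (Mx sg eps lk2)
open MP_f68ac8_nt.Zk (Cp Yw rr ch lk)
open MP_f68ac8_nt.Nd (Lr x2 chn Loc Op2 Fr vl Rcp GenQ GnQ WdQ exq Sp np Km)
open scoped BigOperators Topology

theorem cp_XChr (x y : Cp 2) : (x = 1 ↔ y = 1) → x = y := by
  revert x y; decide

theorem mul_XChr (x y : Cp 2) : x * y = 1 ↔ (x = 1 ↔ y = 1) := by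
  revert x y; decide

/-- a character of order two with open kernel is cut out by a square root -/
theorem root_XChr (e : GQ →* Cp 2) (he : (e.ker : Set GQ) ∈ 𝓝 1) :
    ∃ (m : ℤ) (a : Qb), Squarefree m ∧ a ^ 2 = m ∧ ∀ g, e g = 1 ↔ g a = a := by
  classical
  have hG : IsGalois ℚ Qb := IsGalois.mk
  have hop : IsOpen (e.ker : Set GQ) := Subgroup.isOpen_of_mem_nhds _ he
  obtain ⟨δ, h0, hδ⟩ := B.h90n (k := ℚ) (L := Qb) (n := 2) two_pos ⊤
    (fun g => if e g = 1 then 1 else -1)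
    (fun g _ => by split_ifs <;> norm_num)
    (fun g _ h _ => by
      rw [map_mul]
      by_cases h1 : e g = 1 <;> by_cases h2 : e h = 1 <;> simp [mul_XChr, h1, h2])
    (by
      convert hop using 1
      ext g
      by_cases h1 : e g = 1
      · simp [h1]
      · have h2 : (-1 : Qb) ≠ 1 := by norm_num
        simp [h1, h2])
  have hfix : ∀ g : GQ, g (δ ^ 2) = δ ^ 2 := fun g => by
    rw [map_pow, hδ g trivial]
    split_ifs <;> ring
  obtain ⟨r, hr⟩ := (InfiniteGalois.mem_range_algebraMap_iff_fixed (k := ℚ) (δ ^ 2)).2 hfix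
  have hr' : (r : Qb) = δ ^ 2 := by rw [← hr]; simp
  have hr0 : r ≠ 0 := by
    rintro rfl
    exact pow_ne_zero 2 h0 (by rw [← hr']; simp)
  have hz : r.num * r.den ≠ 0 :=
    mul_ne_zero (Rat.num_ne_zero.2 hr0) (by exact_mod_cast r.den_nz)
  obtain ⟨s, b, -, hb, hsb, hs⟩ := Nat.sq_mul_squarefree_of_pos (Int.natAbs_pos.2 hz)
  have hbq : (b : Qb) ≠ 0 := by exact_mod_cast hb.ne'
  have hdq : (r.den : Qb) ≠ 0 := by exact_mod_cast r.den_nz
  obtain ⟨m, hm, hm'⟩ : ∃ m : ℤ, m.natAbs = s ∧ (b : ℤ) ^ 2 * m = r.num * r.den := by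
    have h1 : (b : ℤ) ^ 2 * s = (r.num * r.den).natAbs := by exact_mod_cast hsb
    rcases Int.natAbs_eq (r.num * r.den) with h | h
    · exact ⟨s, by simp, by rw [h1, ← h]⟩
    · exact ⟨-s, by simp, by rw [mul_neg, h1, ← h]⟩
  refine ⟨m, δ * r.den / b, Int.squarefree_natAbs.1 (hm ▸ hs), ?_, fun g => ?_⟩
  · have h1 : (b : Qb) ^ 2 * m = r.num * r.den := by exact_mod_cast hm'
    have h2 : (r : Qb) = r.num / r.den := Rat.cast_def r
    rw [div_pow, mul_pow, ← hr', h2, div_eq_iff (pow_ne_zero 2 hbq), mul_comm (m : Qb), h1]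
    field_simp
  · rw [map_div₀, map_mul, map_natCast, map_natCast, hδ g trivial]
    by_cases h1 : e g = 1
    · simp [h1]
    · simp only [h1, if_false, false_iff]
      intro h
      have h2 : δ * r.den / b ≠ 0 := div_ne_zero (mul_ne_zero h0 hdq) hbq
      apply h2
      linear_combination (-1 / 2 : Qb) * h

theorem chn_XChr (n : ℕ) (g : GQ) :
    (chn n g).toAdd = ∑ l ∈ n.primeFactors, (ch 2 l g).toAdd := by
  rw [chn, MonoidHom.finsetProd_apply, toAdd_prod]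

theorem chrQ (hNdKumM : Nd.KumM) (hValQ : ValQ) : ChrQ := by
  intro σ τ hT R hR e he
  obtain ⟨m, a, hsq, ha, hea⟩ := root_XChr e he.nhds
  obtain ⟨β, n, ho, hn, -, e1⟩ := Nd.odd_NgMain (Int.squarefree_natAbs.2 hsq)
  obtain ⟨s, hs, hK⟩ := hNdKumM.2.2 n ho hn
  have e' : ((m.natAbs : ℕ) : ℤ) = 2 ^ β.val * n := by
    rw [e1]
    push_cast
    rfl
  obtain ⟨α, hα⟩ := Nd.sign_NgMain (e' ▸ Int.natAbs_eq m) hs
  have hE : ∀ g, (e g).toAdd = (x2 α β g).toAdd + ∑ l ∈ n.primeFactors, (ch 2 l g).toAdd := by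
    intro g
    rw [cp_XChr _ _ ((hea g).trans (hK α β a (hα ▸ ha) g).symm), MonoidHom.mul_apply, toAdd_mul,
      chn_XChr]
  have hpf : ∀ l ∈ n.primeFactors, l.Prime ∧ Odd l := fun l hl =>
    ⟨Nat.prime_of_mem_primeFactors hl, ho.of_dvd_nat (Nat.dvd_of_mem_primeFactors hl)⟩
  have hτ : ∀ l : ℕ, l.Prime → Odd l →
      (e (τ l)).toAdd = if l ∈ n.primeFactors then 1 else 0 := by
    intro l hl hlo
    obtain ⟨v1, v2, v3, -⟩ := hValQ.1 σ τ hT l hl hlo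
    rw [hE, (v3 α β).1, toAdd_one, zero_add,
      ← sum_ite_eq n.primeFactors l fun _ => (1 : ZMod 2)]
    refine sum_congr rfl fun l' hl' => ?_
    split_ifs with h
    · rw [← h, v1]
    · rw [(v2 l' (hpf l' hl').1 (hpf l' hl').2 h).1, toAdd_one]
  have hsub : n.primeFactors ⊆ R := fun l hl => by
    by_contra hl'
    have h1 := (hValQ.1 σ τ hT l (hpf l hl).1 (hpf l hl).2).2.2.2 R e.ker
      (fun l' h => (hR l' h).1) hl' he
    have h2 := hτ l (hpf l hl).1 (hpf l hl).2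
    rw [MonoidHom.mem_ker.1 h1, if_pos hl, toAdd_one] at h2
    exact zero_ne_one h2
  refine ⟨(α, β), fun g => ?_⟩
  have h3 : ∑ l ∈ R, (e (τ l)).toAdd * (ch 2 l g).toAdd =
      ∑ l ∈ R, if l ∈ n.primeFactors then (ch 2 l g).toAdd else 0 :=
    sum_congr rfl fun l hl => by rw [hτ l (hR l hl).1 (hR l hl).2, ite_mul, one_mul, zero_mul]
  rw [hE g, h3, sum_ite_mem, inter_eq_right.2 hsub]

end Pool.Agent.MP_e23604_nt.Q

end

section

namespace Pool.Agent.MP_e23604_nt.Q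

open Finset Filter NumberField
open MP_f68ac8_nt.Zq (Mx sg)
open MP_f68ac8_nt.Zk (Cp Yw rr NS brL)
open MP_f68ac8_nt.Nd (Lr Rcp GenQ Trm)
open scoped BigOperators Topology

open P in
open scoped Classical in
theorem cntQ (hIdxQ : IdxQ) (hLpQ : LpQ) (hStcQ : StcQ) : CntQ := by
  intro D hD hfin
  have hD' : (D : ℚ) ≠ 0 := by exact_mod_cast hD
  obtain ⟨C0, hC⟩ := hIdxQ D hD
  refine ⟨C0 * (Str D).ncard, fun k I ξ hξ hinj => ?_⟩
  rcases isEmpty_or_nonempty I with hI | hI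
  · rw [ENat.card_eq_coe_natCard, Nat.card_of_isEmpty]
    simp
  obtain ⟨S, hS, hcov⟩ := hC k
  choose T hT using fun s => hLpQ D hD' k (ξ s) (hξ s)
  choose c hc T' hT' using fun s => hcov (T s)
  have hb : ∀ s, c (Function.invFun c (c s)) = c s := fun s => Function.invFun_eq ⟨s, rfl⟩
  have h1 : ∀ s, T s = T (Function.invFun c (c s)) +
      2 ^ k • (T' s - T' (Function.invFun c (c s))) := fun s => by
    rw [hT' (Function.invFun c (c s)), hb, smul_sub, add_assoc, add_sub_cancel, ← hT']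
  choose R hR hR' using fun s => hStcQ D hD' k _ _ _ _ _ (hξ s) (hξ _) (hT s) (hT _) (h1 s)
  let f : I → S × Str D := fun s => (⟨c s, hc s⟩, ⟨_, hR' s⟩)
  have hf : Function.Injective f := by
    intro s s' h
    have e1 : c s = c s' := congrArg (fun p => p.1.1) h
    have e2 := congrArg (fun p => p.2.1) h
    refine hinj s s' (R s - R s') (by rw [smul_sub, hR, hR, sub_zero]) fun g => ?_
    have e3 : ξ s g - ξ (Function.invFun c (c s)) g - (galQ (EE D) g (R s) - R s) =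
        ξ s' g - ξ (Function.invFun c (c s')) g - (galQ (EE D) g (R s') - R s') := congrFun e2 g
    rw [e1] at e3
    rw [map_sub]
    linear_combination (norm := abel) e3
  have := hfin.to_subtype
  refine (ENat.card_le_card_of_injective hf).trans ?_
  rw [ENat.card_eq_coe_natCard, Nat.card_prod, Nat.card_coe_set_eq, Nat.card_eq_finsetCard]
  have h2 : S.card * (Str D).ncard ≤ C0 * (Str D).ncard * 2 ^ k := by
    rw [mul_right_comm]
    exact Nat.mul_le_mul_right _ hS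
  exact_mod_cast h2

end Pool.Agent.MP_e23604_nt.Q

end

section

namespace Pool.Agent.MP_e23604_nt.Q

open Finset Filter NumberField
open MP_f68ac8_nt
open MP_f68ac8_nt.Zq (Mx sg eps lk2)
open MP_f68ac8_nt.Zk (Cp Yw rr ch lk)
open MP_f68ac8_nt.Nd (Lr x2 chn Loc Op2 Fr vl Rcp GenQ GnQ WdQ exq Sp np Km)
open scoped BigOperators Topology

section
variable {v : AbsoluteValue Qb ℝ}

theorem inr_XDec (hv : IsNonarchimedean v) {q : ℕ} (hq : q.Prime) (h : v q < 1) {τ : GQ}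
    (h₆ : ∀ b : 𝓞 Qb, v (τ (b : Qb) - b) < 1) : B.Inr v τ := by
  intro x hx
  obtain ⟨a, b, ha, hb, hb1, hab⟩ := B.frac hv hq h hx
  have e1 : v (τ a - a) < 1 := h₆ ⟨a, ha⟩
  have e2 : v (τ b - b) < 1 := h₆ ⟨b, hb⟩
  have e3 : 1 ≤ v (τ b) := by
    by_contra hc
    have h7 := hv (τ b) (-(τ b - b))
    rw [v.map_neg, show τ b + -(τ b - b) = b by ring, hb1] at h7
    exact absurd h7 (not_le.2 (max_lt (not_le.1 hc) e2))
  have e4 : (τ x - x) * τ b = (τ a - a) + -(x * (τ b - b)) := by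
    rw [← hab, map_mul]
    ring
  have e5 : v (τ x - x) * v (τ b) < 1 := by
    rw [← map_mul, e4]
    refine lt_of_le_of_lt (hv _ _) (max_lt e1 ?_)
    rw [v.map_neg, map_mul]
    exact mul_lt_one_of_nonneg_of_lt_one_right hx (v.nonneg _) e2
  exact lt_of_le_of_lt (le_mul_of_one_le_right (v.nonneg _) e3) e5

theorem lt_XDec (hv : IsNonarchimedean v) {q : ℕ} (hq : q.Prime) (h : v q < 1) {τ : GQ}
    (hs : ∀ b : 𝓞 Qb, v (τ (b : Qb)) < 1 ↔ v b < 1) {y : Qb} (hy : v y < 1) : v (τ y) < 1 := by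
  obtain ⟨a, b, ha, hb, hb1, hab⟩ := B.frac hv hq h hy.le
  have e1 : v (τ a) < 1 := (hs ⟨a, ha⟩).2 (by
    change v a < 1
    rwa [← hab, map_mul, hb1, mul_one])
  have e3 : 1 ≤ v (τ b) := by
    by_contra hc
    have h7 : v b < 1 := (hs ⟨b, hb⟩).1 (not_le.1 hc)
    exact h7.ne hb1
  rw [← hab, map_mul, map_mul] at e1
  exact lt_of_le_of_lt (le_mul_of_one_le_right (v.nonneg _) e3) e1

theorem ge_XDec {τ : GQ} (hτ : ∀ y, v y < 1 → v (τ y) < 1) (x : Qb) : v x ≤ v (τ x) := by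
  by_contra hlt
  rw [not_le] at hlt
  have hx : x ≠ 0 := by rintro rfl; simp at hlt
  have h1 : ∀ k : ℕ, v ((τ ^ k) (τ x / x)) < 1 := fun k => by
    induction k with
    | zero =>
      rw [pow_zero, AlgEquiv.one_apply, map_div₀, div_lt_one (v.pos hx)]
      exact hlt
    | succ k ih =>
      rw [pow_succ', AlgEquiv.mul_apply]
      exact hτ _ ih
  have h2 : StrictAnti fun k : ℕ => v ((τ ^ k) x) := strictAnti_nat_of_succ_lt fun k => by
    have := h1 k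
    rwa [map_div₀, map_div₀, div_lt_one (v.pos ((map_ne_zero _).2 hx)), ← AlgEquiv.mul_apply,
      ← pow_succ] at this
  obtain ⟨N, hN, h3⟩ := B.BValA_fix {x}
  have h4 := h2 hN
  simp only [h3 τ x (Finset.mem_singleton_self x), pow_zero, AlgEquiv.one_apply] at h4
  exact lt_irrefl _ h4

theorem eq_XDec {τ : GQ} (hτ : ∀ y, v y < 1 → v (τ y) < 1) (x : Qb) : v (τ x) = v x := by
  refine le_antisymm ?_ (ge_XDec hτ x)
  rcases eq_or_ne x 0 with rfl | hx
  · simp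
  have := ge_XDec hτ x⁻¹
  rwa [map_inv₀ τ, map_inv₀, map_inv₀, inv_le_inv₀ (v.pos hx) (v.pos ((map_ne_zero _).2 hx))]
    at this

end

theorem mem_XDec (l : ℕ) [Fact l.Prime] : (l : 𝓞 Qb) ∈ B.BValB_cen (B.nv_na l 1) := by
  rw [B.BValB_mem, RingOfIntegers.coe_eq_algebraMap, map_natCast]
  exact B.nv_lt l 1

theorem conj_XDec (P : Ideal (𝓞 Qb)) (hP : P.IsMaximal) (l : ℕ) [Fact l.Prime]
    (h1 : (l : 𝓞 Qb) ∈ P) : ∃ ρ : GQ, ∀ b, b ∈ P ↔ ρ • b ∈ B.BValB_cen (B.nv_na l 1) := by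
  have := B.BValB_prime (B.nv_na l 1)
  have := hP.isPrime
  exact B.BValB_conj ℚ P (B.BValB_cen (B.nv_na l 1)) fun x => by
    obtain ⟨n, rfl⟩ := Rat.ringOfIntegersEquiv.symm.surjective x
    rw [eq_intCast Rat.ringOfIntegersEquiv.symm, map_intCast, B.BValB_int P Fact.out h1,
      B.BValB_int _ Fact.out (mem_XDec l)]

theorem max_XDec : P2.IsMaximal := by
  obtain ⟨P, hP, h⟩ := exists_maximal_mem (Ω := Qb) Nat.prime_two
  obtain ⟨ρ, hρ⟩ := conj_XDec P hP 2 h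
  have e : P2 = P.comap (MulSemiringAction.toRingEquiv GQ (𝓞 Qb) ρ⁻¹ : 𝓞 Qb →+* 𝓞 Qb) := by
    ext b
    rw [Ideal.mem_comap, hρ]
    change _ ↔ ρ • ρ⁻¹ • b ∈ _
    rw [smul_inv_smul]
    rfl
  rw [e]
  exact Ideal.comap_isMaximal_of_surjective _
    (MulSemiringAction.toRingEquiv GQ (𝓞 Qb) ρ⁻¹).surjective

theorem cj_XDec : ∃ c, Cj c := by
  have z1 : ∀ x y : ZMod 2, (x = 0 ↔ y = 0) → x = y := by decide
  have z2 : ∀ α β : ZMod 2, Nd.e8 α β (-1) = α := by decide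
  obtain ⟨c, h1, h2⟩ := Zq.conj_ZsQr
  refine ⟨c, h1, fun α β => ?_, fun l hl ho => ?_⟩
  · rw [Nd.x2_NgLoc, h2, z2]
  · have : Fact l.Prime := ⟨hl⟩
    refine z1 _ _ ?_
    rw [Zq.ch_ZsQr ⟨hl, Nat.odd_iff.1 ho⟩, h2, ZMod.exists_sq_eq_neg_one_iff, Zq.eps]
    split_ifs with h <;> simp [h]

theorem decQ (_hNdLocM : Nd.LocM) : DecQ := by
  have hM := max_XDec
  have h2 : ((2 : ℕ) : 𝓞 Qb) ∈ P2 := mem_XDec 2
  refine ⟨hM, h2, fun g hg => ?_, ?_, cj_XDec, fun P hP h g hg => ?_, fun P hP l _ h => ?_⟩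
  · exact B.Inr_eq (B.nv_na 2 1) (inr_XDec (B.nv_na 2 1) Nat.prime_two (B.nv_lt 2 1) hg)
  · obtain ⟨φ, hφ⟩ := exists_frob P2 Nat.prime_two h2
    refine ⟨φ, ⟨P2, hM, h2, hφ⟩, eq_XDec fun y hy =>
      lt_XDec (B.nv_na 2 1) Nat.prime_two (B.nv_lt 2 1) (fun b => ?_) hy⟩
    change φ • b ∈ P2 ↔ b ∈ P2
    have e := hφ b
    constructor
    · intro hb
      refine hM.isPrime.mem_of_pow_mem 2 ?_
      simpa using P2.sub_mem hb e
    · intro hb
      simpa using P2.add_mem e (P2.pow_mem_of_mem hb 2 two_pos)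
  · obtain ⟨ρ, hρ⟩ := conj_XDec P hP 2 h
    refine ⟨ρ, fun b => ?_⟩
    have e := (hρ _).1 (hg (ρ⁻¹ • b))
    rw [smul_sub, smul_inv_smul, ← mul_smul, ← mul_smul] at e
    exact e
  · obtain ⟨ρ, hρ⟩ := conj_XDec P hP l h
    refine ⟨ρ, fun τ hτ => inr_XDec (B.nv_na l ρ) Fact.out (B.nv_lt l ρ) fun b => ?_⟩
    have e := (B.BValB_mem _ _).1 ((hρ _).1 (hτ b))
    rw [B.BValB_coe, ← B.nv_mul, one_mul] at e
    exact e

end Pool.Agent.MP_e23604_nt.Q

end

section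

namespace Pool.Agent.MP_e23604_nt.Q

open Finset Filter NumberField
open MP_f68ac8_nt.Zq (Mx sg)
open MP_f68ac8_nt.Zk (Cp Yw rr NS brL)
open MP_f68ac8_nt.Nd (Lr Rcp GenQ Trm)
open scoped BigOperators Topology

open scoped Classical in
theorem aux_XFg (D : ℚ) (F : Type) [Field F] [CharZero F] (C : ℕ)
    (h : ∀ (I : Type) (f : I → Pts (P.EE D) F), (∀ s s', Md D F 1 (f s) (f s') → s = s') →
      ENat.card I ≤ C) :
    (nsmulAddMonoidHom (α := Pts (P.EE D) F) 2).range.FiniteIndex := by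
  have h1 := h (Pts (P.EE D) F ⧸ (nsmulAddMonoidHom (α := Pts (P.EE D) F) 2).range) Quotient.out
    fun s s' ⟨T, hT⟩ => by
      rw [← QuotientAddGroup.out_eq' s, ← QuotientAddGroup.out_eq' s', eq_comm,
        QuotientAddGroup.eq]
      exact ⟨T, by rw [hT, neg_add_cancel_left, pow_one]; rfl⟩
  have : Finite (Pts (P.EE D) F ⧸ (nsmulAddMonoidHom (α := Pts (P.EE D) F) 2).range) :=
    ENat.card_lt_top.1 (h1.trans_lt (ENat.natCast_lt_top C))
  exact AddSubgroup.finiteIndex_of_finite_quotient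

theorem fgQ (hCntQ : CntQ) (hKumQ : KumQ) : FgQ := by
  intro D hD hS
  have hD' : (D : ℚ) ≠ 0 := Int.cast_ne_zero.2 hD
  obtain ⟨C, hC⟩ := hCntQ D hD hS
  obtain ⟨κ, h1, h2⟩ := hKumQ D hD' 1
  have := P.EE_ell hD'
  exact @P.fg_of_two (fun _ _ => Classical.propDecidable _) (P.EE D) _
    (aux_XFg D ℚ (C * 2) fun I f hf => by
      simpa using hC 1 I _ (fun s => h1 (f s)) fun s s' R hR h => hf s s' (h2 _ _ R hR h))

end Pool.Agent.MP_e23604_nt.Q

end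

section

namespace Pool.Agent.MP_e23604_nt.Q

open Finset Filter NumberField
open MP_f68ac8_nt
open MP_f68ac8_nt.Zq (Mx sg eps lk2)
open MP_f68ac8_nt.Zk (Cp Yw rr ch lk)
open MP_f68ac8_nt.Nd (Lr x2 chn Loc Op2 Fr vl Rcp GenQ GnQ WdQ exq Sp np Km)
open scoped BigOperators Topology

end Pool.Agent.MP_e23604_nt.Q

end

section

namespace Pool.Agent.MP_e23604_nt.Q

open Finset Filter NumberField
open MP_f68ac8_nt.Zq (Mx sg)
open MP_f68ac8_nt.Zk (Cp Yw rr NS brL)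
open MP_f68ac8_nt.Nd (Lr Rcp GenQ Trm)
open scoped BigOperators Topology

theorem add_XFou (x y : ZMod 2) : sg (x + y) = sg x * sg y := by
  have h : ∀ x : ZMod 2, x = 0 ∨ x = 1 := by decide
  have h1 : (1 : ZMod 2) + 1 = 0 := by decide
  rcases h x with rfl | rfl <;> rcases h y with rfl | rfl <;> simp [sg, h1]

theorem sum_XFou {ι : Type} (s : Finset ι) (f : ι → ZMod 2) :
    sg (∑ i ∈ s, f i) = ∏ i ∈ s, sg (f i) := by
  classical
  induction s using Finset.induction_on with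
  | empty => simp [sg]
  | insert a s h ih => rw [sum_insert h, prod_insert h, add_XFou, ih]

theorem two_XFou (f : ZMod 2 → ℝ) : ∑ x, f x = f 0 + f 1 := Fin.sum_univ_two f

open Classical in
theorem orth_XFou {d : ℕ} (R : Finset (Fin d)) (c : Fin d → ZMod 2) :
    (∑ z : Fin d → ZMod 2, if ∀ i ∉ R, z i = 0 then sg (∑ i, z i * c i) else 0) =
      if ∀ i ∈ R, c i = 0 then 2 ^ R.card else 0 := by
  have e1 : ∀ z : Fin d → ZMod 2, (if ∀ i ∉ R, z i = 0 then sg (∑ i, z i * c i) else 0) =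
      ∏ i, if i ∈ R then sg (z i * c i) else if z i = 0 then 1 else 0 := fun z => by
    split_ifs with h
    · rw [sum_XFou]
      refine prod_congr rfl fun i _ => ?_
      by_cases hi : i ∈ R
      · rw [if_pos hi]
      · rw [if_neg hi, h i hi, zero_mul, sg]
        simp
    · push Not at h
      obtain ⟨i, h1, h2⟩ := h
      exact (prod_eq_zero (mem_univ i) (by rw [if_neg h1, if_neg h2])).symm
  have e2 := prod_univ_sum (fun _ : Fin d => (univ : Finset (ZMod 2)))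
    fun i x => if i ∈ R then sg (x * c i) else if x = 0 then (1 : ℝ) else 0
  rw [Fintype.piFinset_univ] at e2
  rw [sum_congr rfl fun z _ => e1 z, ← e2]
  split_ifs with h
  · have e3 : ∀ i, (∑ x : ZMod 2, if i ∈ R then sg (x * c i) else if x = 0 then (1 : ℝ) else 0) =
        if i ∈ R then 2 else 1 := fun i => by
      rw [two_XFou]
      by_cases hi : i ∈ R
      · simp [hi, h i hi, sg]
        norm_num
      · simp [hi]
    rw [prod_congr rfl fun i _ => e3 i, prod_ite_mem, univ_inter, prod_const]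
  · push Not at h
    obtain ⟨i, h1, h2⟩ := h
    refine prod_eq_zero (mem_univ i) ?_
    rw [two_XFou]
    simp [h1, h2, sg]

theorem fouQ : FouQ := by
  classical
  intro d M R T o
  have e1 : ∀ a : Fin d → ZMod 2,
      (if (∀ j ∉ T, a j = 0) ∧ ∀ i ∈ R, o i + ∑ j, M i j * a j = 0 then (1 : ℝ) else 0) *
        2 ^ R.card = ∑ z : Fin d → ZMod 2, (if ∀ i ∉ R, z i = 0 then sg (∑ i, z i * o i) else 0) *
          if ∀ j ∉ T, a j = 0 then sg (∑ j, a j * ∑ i, z i * M i j) else 0 := fun a => by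
    by_cases h : ∀ j ∉ T, a j = 0
    · have e2 := orth_XFou R fun i => o i + ∑ j, M i j * a j
      simp only [if_pos h, and_iff_right h, ite_mul, one_mul, zero_mul]
      refine Eq.trans (by congr) (e2.symm.trans (sum_congr rfl fun z _ => ?_))
      refine if_congr Iff.rfl ?_ rfl
      rw [← add_XFou]
      congr 1
      simp only [mul_add, sum_add_distrib, mul_sum]
      rw [sum_comm]
      congr 1
      exact sum_congr rfl fun j _ => sum_congr rfl fun i _ => by ring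
    · rw [if_neg fun h' => h h'.1]
      simp only [if_neg h, mul_zero, zero_mul, sum_const_zero]
  rw [card_filter, Nat.cast_sum, sum_mul, mul_sum]
  simp only [Nat.cast_ite, Nat.cast_one, Nat.cast_zero]
  refine Eq.trans (sum_congr rfl fun a _ => Eq.trans (by congr) (e1 a)) ?_
  rw [sum_comm]
  refine sum_congr rfl fun z _ => ?_
  have e3 := orth_XFou T fun j => ∑ i, z i * M i j
  rw [← mul_sum, e3]
  by_cases h1 : ∀ i ∉ R, z i = 0 <;> by_cases h2 : ∀ j ∈ T, ∑ i, z i * M i j = 0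
  · rw [if_pos h1, if_pos h2, if_pos ⟨h1, h2⟩, mul_comm]
  · rw [if_neg h2, if_neg fun h : _ ∧ _ => h2 h.2, mul_zero, mul_zero]
  · rw [if_neg h1, if_neg fun h : _ ∧ _ => h1 h.1, mul_zero, zero_mul]
  · rw [if_neg h1, if_neg fun h : _ ∧ _ => h1 h.1, mul_zero, zero_mul]

end Pool.Agent.MP_e23604_nt.Q

end

section

namespace Pool.Agent.MP_e23604_nt.Q

open Finset Filter NumberField
open MP_f68ac8_nt
open MP_f68ac8_nt.Zq (Mx sg eps lk2)
open MP_f68ac8_nt.Zk (Cp Yw rr ch lk)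
open MP_f68ac8_nt.Nd (Lr x2 chn Loc Op2 Fr vl Rcp GenQ GnQ WdQ exq Sp np Km)
open scoped BigOperators Topology

section
open P
open scoped Classical

theorem comp_XGmA (hScQ : ScQ) {u u' : Qb} (hu : u ^ 4 = 1) (hu' : u' ^ 4 = 1) (R : A1) :
    scf 1 u' (scf 1 u R) = scf 1 (u' * u) R :=
  (hScQ 1 1 Qb u one_ne_zero one_ne_zero (by rw [hu, one_mul])).2.2.1 1 u' one_ne_zero
    (by rw [hu', one_mul]) R

theorem gal_XGmA (hScQ : ScQ) {u : Qb} (hu : u ^ 4 = 1) (g : GQ) (R : A1) :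
    galQ (EE 1) g (scf 1 u R) = scf 1 (g u) (galQ (EE 1) g R) :=
  (hScQ 1 1 Qb u one_ne_zero one_ne_zero (by rw [hu, one_mul])).2.2.2.2 Qb (g : Qb →+* Qb) R

theorem neg_XGmA (hScQ : ScQ) (R : A1) : scf 1 (-1 : Qb) R = -R :=
  ((hScQ 1 1 Qb 1 one_ne_zero one_ne_zero (by rw [one_pow, one_mul])).2.2.2.1 R).2

theorem gmA (hSjQ : SjQ) (hSemQ : SemQ) (hScQ : ScQ) (hModQ : ModQ) : GmA := by
  intro i δ J η D n β σ τ E
  have hi : i ^ 2 = -1 := E.jm.1
  have hCm : CmI J := ((hModQ i).2 J E.jm).1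
  have hD : D ≠ 0 := by
    intro e
    have a := E.abs
    rw [e, Int.natAbs_zero] at a
    have hn : n ≠ 0 := E.sf.ne_zero
    exact (mul_ne_zero (pow_ne_zero _ two_ne_zero) hn) a.symm
  have hδ : δ ≠ 0 := by
    intro e
    have a := E.pow
    rw [e, zero_pow (by norm_num)] at a
    exact hD (by exact_mod_cast a.symm)
  have hu : ∀ g : GQ, (g δ / δ) ^ 4 = 1 := by
    intro g
    rw [div_pow, ← map_pow, E.pow, map_intCast, ← E.pow]
    exact div_self (pow_ne_zero _ hδ)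
  have hi4 : (-i) ^ 4 = 1 := by
    have : (-i) ^ 4 = (i ^ 2) ^ 2 := by ring
    rw [this, hi]
    norm_num
  have hgi : ∀ g : GQ, (g (-i)) ^ 4 = 1 := by
    intro g
    rw [← map_pow, hi4, map_one]
  have hK : ∀ g : GQ, x2 1 0 g = 1 ↔ g i = i := by
    refine hSjQ.2.1 1 0 i ?_
    have v1 : (1 : ZMod 2).val = 1 := rfl
    have v0 : (0 : ZMod 2).val = 0 := rfl
    rw [hi, v1, v0]
    norm_num
  have e1 : ∀ (g : GQ) (u : A1), η g (J u) = scf 1 (g δ / δ * g (-i)) (galQ (EE 1) g u) := by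
    intro g u
    rw [E.eta g, E.jm.2, gal_XGmA hScQ hi4, comp_XGmA hScQ (hgi g) (hu g)]
  have e2 : ∀ (g : GQ) (u : A1), J (η g u) = scf 1 (-i * (g δ / δ)) (galQ (EE 1) g u) := by
    intro g u
    rw [E.eta g, E.jm.2, comp_XGmA hScQ (hu g) hi4]
  have hlin : ∀ g : GQ, (x2 1 0 g = 1 → ∀ u, η g (J u) = J (η g u)) ∧
      (x2 1 0 g ≠ 1 → ∀ u, η g (J u) = -J (η g u)) := by
    intro g
    refine ⟨fun h u => ?_, fun h u => ?_⟩
    · rw [e1, e2, map_neg, (hK g).1 h, mul_comm]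
    · have a : g i = -i := by
        have b : (g i) ^ 2 = i ^ 2 := by rw [← map_pow, hi, map_neg, map_one]
        exact (sq_eq_sq_iff_eq_or_eq_neg.1 b).resolve_left fun c => h ((hK g).2 c)
      have b : (-i * (g δ / δ)) ^ 4 = 1 := by rw [mul_pow, hi4, hu, one_mul]
      rw [e1, e2, ← neg_XGmA hScQ, comp_XGmA hScQ b (by norm_num), map_neg, a]
      congr 1
      ring
  refine ⟨fun g => ?_, fun u => ?_, hlin⟩
  · by_cases h : x2 1 0 g = 1
    · exact ((hSemQ A1 J hCm (η g)).1 ((hlin g).1 h)).1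
    · exact ((hSemQ A1 J hCm (η g)).2 ((hlin g).2 h)).1
  · filter_upwards [(isLC_apply δ).eventually_eq (1 : GQ),
      (dd_mem2 u).1.eventually_eq (1 : GQ)] with g h1 h2
    have a : galQ (EE 1) g u = galQ (EE 1) 1 u := sub_left_inj.1 h2
    have b : η g u = η 1 u := by
      rw [E.eta g, E.eta 1, a]
      congr 2
    change η g u = u
    rw [b, map_one]
    rfl

end

end Pool.Agent.MP_e23604_nt.Q

end

section

namespace Pool.Agent.MP_e23604_nt.Q

open Finset Filter NumberField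
open MP_f68ac8_nt
open MP_f68ac8_nt.Zq (Mx sg eps lk2)
open MP_f68ac8_nt.Zk (Cp Yw rr ch lk)
open MP_f68ac8_nt.Nd (Lr x2 chn Loc Op2 Fr vl Rcp GenQ GnQ WdQ exq Sp np Km)
open scoped BigOperators Topology

theorem chr_XGq {G : Type} [Group G] {M : Subgroup G} [M.Normal] [M.FiniteIndex]
    (hp : ∀ g : G, ∃ k, g ^ 2 ^ k ∈ M) (h : M ≠ ⊤) :
    ∃ e : G →* Cp 2, M ≤ e.ker ∧ e ≠ 1 := by
  classical
  have hs := QuotientGroup.mk'_surjective M
  have h1 : IsPGroup 2 (G ⧸ M) := fun x => by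
    obtain ⟨g, rfl⟩ := hs x
    obtain ⟨k, hk⟩ := hp g
    exact ⟨k, by rw [← map_pow]; exact (QuotientGroup.eq_one_iff _).2 hk⟩
  obtain ⟨n, hn⟩ := IsPGroup.iff_card.1 h1
  rcases n with _ | n
  · exact absurd (Subgroup.index_eq_one.1 hn) h
  obtain ⟨K, hK⟩ := Sylow.exists_subgroup_card_pow_prime (G := G ⧸ M) 2 (n := n)
    (by rw [hn]; exact pow_dvd_pow 2 n.le_succ)
  have h2 : K.index = 2 := by
    have := K.card_mul_index
    rw [hK, hn, pow_succ] at this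
    exact Nat.eq_of_mul_eq_mul_left (by positivity) this
  let e : G ⧸ M →* Cp 2 := MonoidHom.mk'
    (fun x => if x ∈ K then 1 else Multiplicative.ofAdd 1) fun a b => by
      simp only [Subgroup.mul_mem_iff_of_index_two h2]
      by_cases ha : a ∈ K <;> by_cases hb : b ∈ K <;> simp [ha, hb]
      rfl
  refine ⟨e.comp (QuotientGroup.mk' M), fun g hg => ?_, fun h3 => ?_⟩
  · rw [MonoidHom.mem_ker, MonoidHom.comp_apply, QuotientGroup.mk'_apply,
      (QuotientGroup.eq_one_iff _).2 hg, map_one]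
  · have h4 : K = ⊤ := eq_top_iff.2 fun x _ => by
      obtain ⟨g, rfl⟩ := hs x
      by_contra h5
      have h6 : e (QuotientGroup.mk' M g) = 1 := DFunLike.congr_fun h3 g
      rw [MonoidHom.mk'_apply, if_neg h5] at h6
      exact absurd h6 (by decide)
    rw [h4, Subgroup.index_top] at h2
    exact absurd h2 (by decide)

theorem op_XGq {N M : Subgroup GQ} (h : Op2 N) (h1 : M.Normal) (h2 : N ≤ M) : Op2 M :=
  ⟨h1, mem_of_superset h.nhds h2, fun g => (h.pg g).imp fun _ h => h2 h⟩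

theorem up_XGq {R : Finset ℕ} {N M : Subgroup GQ} (h : Adm R N) (h1 : M.Normal) (h2 : N ≤ M) :
    Adm R M := ⟨op_XGq h.toOp2 h1 h2, fun P a g b => h2 (h.unr P a g b)⟩

theorem inf_XGq {R : Finset ℕ} {N N' : Subgroup GQ} (h : Adm R N) (h' : Adm R N') :
    Adm R (N ⊓ N') := by
  have := h.nrm
  have := h'.nrm
  refine ⟨⟨inferInstance, inter_mem h.nhds h'.nhds, fun g => ?_⟩,
    fun P a g c => ⟨h.unr P a g c, h'.unr P a g c⟩⟩
  obtain ⟨k, hk⟩ := h.pg g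
  obtain ⟨k', hk'⟩ := h'.pg g
  refine ⟨k + k', ?_, ?_⟩
  · rw [pow_add, pow_mul]
    exact pow_mem hk _
  · rw [add_comm, pow_add, pow_mul]
    exact pow_mem hk' _

theorem many_XGq {R : Finset ℕ} {H : Type} [Group H] {T : Set (GQ →* H)} (hT : T.Finite) :
    (∀ θ ∈ T, Adm R θ.ker) → ∃ N, Adm R N ∧ ∀ θ ∈ T, N ≤ θ.ker := by
  induction T, hT using Set.Finite.induction_on with
  | empty => exact fun _ => ⟨⊤, ⟨⟨inferInstance, univ_mem, fun _ => ⟨0, trivial⟩⟩,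
      fun _ _ _ _ => trivial⟩, fun _ h => h.elim⟩
  | @insert a s _ _ ih =>
    intro h
    obtain ⟨N, h1, h3⟩ := ih fun θ hθ => h θ (Set.mem_insert_of_mem _ hθ)
    refine ⟨N ⊓ a.ker, inf_XGq h1 (h a (Set.mem_insert _ _)), ?_⟩
    rintro θ (rfl | hθ)
    · exact inf_le_right
    · exact inf_le_left.trans (h3 θ hθ)

theorem rep_XGq {G : Type} [Group G] (I N : Subgroup G) [N.FiniteIndex] :
    ∃ (nb : ℕ) (bb : Fin nb → G), (∀ b, bb b ∈ I) ∧ ∀ g ∈ I, ∃ b, (bb b)⁻¹ * g ∈ N := by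
  have h : ∀ q : G ⧸ N, ∃ r ∈ I, ∀ g ∈ I, (g : G ⧸ N) = q → r⁻¹ * g ∈ N := fun q => by
    by_cases h : ∃ r ∈ I, (r : G ⧸ N) = q
    · obtain ⟨r, h1, h2⟩ := h
      exact ⟨r, h1, fun g _ h3 => QuotientGroup.eq.1 (h2.trans h3.symm)⟩
    · exact ⟨1, one_mem _, fun g h1 h2 => absurd ⟨g, h1, h2⟩ h⟩
  choose r h1 h2 using h
  obtain ⟨n, ⟨e⟩⟩ := Finite.exists_equiv_fin (G ⧸ N)
  exact ⟨n, fun b => r (e.symm b), fun b => h1 _, fun g hg =>
    ⟨e g, h2 _ g hg (e.symm_apply_apply _).symm⟩⟩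

theorem gqQ (hNdTamM : Nd.TamM) (hZvFincStmt : Zv.FincStmt) (hDecQ : DecQ) (hSjQ : SjQ)
    (hValQ : ValQ) (hChrQ : ChrQ) : GqQ := by
  intro σ τ hT Λ hΛ H _ _
  obtain ⟨a, ha, ha'⟩ := hSjQ.1 (1, 0)
  obtain ⟨c, hc, hc'⟩ := hSjQ.1 (0, 1)
  have h0 : x2 0 0 = 1 := by
    have := hSjQ.2.2 0 0 0 0
    rwa [add_zero, left_eq_mul] at this
  set s : Set GQ := insert a (insert c (Set.range fun l : Λ => τ l)) with hs
  have hgen : ∀ N, Adm Λ N → Subgroup.closure s ⊔ N = ⊤ := by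
    intro N hN
    by_contra hA
    have := hN.nrm
    have := Nd.fi_NgGen hN.nhds
    obtain ⟨M, h1, h2, h3⟩ := Zk.pgrp_ZmGen (p := 2) le_sup_right hN.pg hA
    have h4 : N ≤ M := le_sup_right.trans h2
    have := Subgroup.finiteIndex_of_le h4
    obtain ⟨e, e1, e2⟩ := chr_XGq (op_XGq hN.toOp2 h1 h4).pg h3
    have e3 : ∀ g ∈ s, e g = 1 := fun g hg =>
      e1 (h2 (Subgroup.mem_sup_left (Subgroup.subset_closure hg)))
    obtain ⟨γ, hγ⟩ := hChrQ σ τ hT Λ hΛ e (up_XGq hN inferInstance (h4.trans e1))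
    have e4 : ∀ g, (e g).toAdd = (x2 γ.1 γ.2 g).toAdd := fun g => by
      rw [hγ, sum_eq_zero, add_zero]
      intro l hl
      rw [e3 (τ l) (Or.inr (Or.inr ⟨⟨l, hl⟩, rfl⟩)), toAdd_one, zero_mul]
    have e5 := e4 a
    have e6 := e4 c
    rw [e3 a (Or.inl rfl), ha', toAdd_one, mul_one, mul_zero, add_zero] at e5
    rw [e3 c (Or.inr (Or.inl rfl)), hc', toAdd_one, mul_one, mul_zero, zero_add] at e6
    refine e2 (MonoidHom.ext fun g => Multiplicative.toAdd.injective ?_)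
    rw [e4, ← e5, ← e6, h0]
  have hfin := fun (H : Type) [Group H] [Finite H] => (hZvFincStmt GQ H {N | Adm Λ N} s
    (((Set.finite_range _).insert _).insert _) (fun _ a _ b => inf_XGq a b) hgen).2
  obtain ⟨N₁, h1, h2⟩ := many_XGq (hfin H) fun _ h => h
  obtain ⟨N₂, h3, h4⟩ := many_XGq (hfin (Cp 2)) fun _ h => h
  have h5 := inf_XGq h1 h3
  have h6 : N₁ ⊓ N₂ ≤ N₁ := inf_le_left
  have h7 : N₁ ⊓ N₂ ≤ N₂ := inf_le_right
  generalize N₁ ⊓ N₂ = N at h5 h6 h7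
  have := h5.nrm
  have := Nd.fi_NgGen h5.nhds
  obtain ⟨nb, bb, b1, b2⟩ := rep_XGq (P2.inertia GQ) N
  have hcov : ∀ M : Subgroup GQ, N ≤ M → (∀ b, bb b ∈ M) → ∀ g ∈ P2.inertia GQ, g ∈ M := by
    intro M m1 m2 g hg
    obtain ⟨b, hb⟩ := b2 g hg
    exact (M.mul_mem_cancel_left (M.inv_mem (m2 b))).1 (m1 hb)
  have hw : ∀ g, ∃ w, (FreeGroup.lift (ltr Λ τ bb) w)⁻¹ * g ∈ N := fun g => by
    have m0 : ∀ u, ltr Λ τ bb u ∈ Subgroup.closure (Set.range (ltr Λ τ bb)) ⊔ N := fun u =>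
      Subgroup.mem_sup_left (Subgroup.subset_closure ⟨u, rfl⟩)
    have m1 := hcov _ le_sup_right fun b => m0 (.inr b)
    have hg : g ∈ Subgroup.closure (Set.range (ltr Λ τ bb)) ⊔ N := by
      refine (sup_le ((Subgroup.closure_le _).2 ?_) le_sup_right :
        Subgroup.closure s ⊔ N ≤ _) (by rw [hgen _ h5]; trivial)
      rintro _ (rfl | rfl | ⟨l, rfl⟩)
      · exact m1 _ ha
      · exact m1 _ hc
      · exact m0 (.inl l)
    obtain ⟨y, hy, z, hz, rfl⟩ := Subgroup.mem_sup_of_normal_right.1 hg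
    rw [← FreeGroup.range_lift_eq_closure] at hy
    obtain ⟨w, rfl⟩ := hy
    exact ⟨w, by rwa [inv_mul_cancel_left]⟩
  refine ⟨N, nb, bb, ⟨hΛ, h5, b1, b2, hw⟩, fun θ h => h6.trans (h2 θ h),
    fun θ h => h7.trans (h4 θ h), h5.toOp2, fun l => ?_, hw, ?_⟩
  · obtain ⟨P, p1, p2, p3, -⟩ := (hT l (hΛ l l.2).1 (hΛ l l.2).2).ex
    exact ⟨P, p1, p2, p3⟩
  intro M R m1 m2 m3 m4 P hP hR g hg
  obtain ⟨l, hl, hlP⟩ := exists_prime_mem P
  by_cases e2 : l = 2
  · subst e2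
    obtain ⟨t, ht⟩ := hDecQ.2.2.2.2.2.1 P hP hlP g hg
    have := m1.conj_mem _ (hcov M m2 m3 _ ht) t⁻¹
    simpa [mul_assoc] using this
  by_cases e3 : l ∈ Λ
  · refine hNdTamM.1 0 0 l (σ l) (τ l) hl ?_ M (op_XGq h5.toOp2 m1 m2) (fun h => absurd h e2)
      (m4 ⟨l, e3⟩ fun h => hR l h hlP) P hP hlP g hg
    rw [Nd.cx, if_neg e2]
    exact hT l hl (hΛ l e3).2
  · refine m2 (h5.unr P ⟨hP, not_mem_of_coprime hlP ?_, fun m hm =>
      not_mem_of_coprime hlP ?_⟩ g hg)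
    · exact (Nat.coprime_primes hl Nat.prime_two).2 e2
    · exact (Nat.coprime_primes hl (hΛ m hm).1).2 fun h => e3 (h ▸ hm)

end Pool.Agent.MP_e23604_nt.Q

end

section

namespace Pool.Agent.MP_e23604_nt.Q

open Finset Filter NumberField
open MP_f68ac8_nt.Zq (Mx sg)
open MP_f68ac8_nt.Zk (Cp Yw rr NS brL)
open MP_f68ac8_nt.Nd (Lr Rcp GenQ Trm)
open scoped BigOperators Topology

theorem indQ : IndQ := by
  intro M _ hM k
  have : Module.Finite ℤ M := Module.Finite.iff_addGroup_fg.2 hM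
  have hr : Module.finrank ℤ (M ⧸ Submodule.torsion ℤ M) = Module.finrank ℤ M :=
    finrank_quotient_eq_of_le_torsion le_rfl
  let b := Module.finBasisOfFinrankEq ℤ (M ⧸ Submodule.torsion ℤ M) hr
  choose P hP using fun i => (Submodule.torsion ℤ M).mkQ_surjective (b i)
  refine ⟨fun s => ∑ i, ((s i : ℕ) : ℤ) • P i, fun s s' T h => funext fun i => ?_⟩
  have h1 := congrArg (fun x => b.coord i ((Submodule.torsion ℤ M).mkQ x)) h
  simp only [map_add, map_sum, map_smul, map_nsmul, hP, Module.Basis.coord_apply,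
    Module.Basis.repr_self, Finsupp.single_apply, smul_eq_mul, mul_ite, mul_one, mul_zero,
    sum_ite_eq', mem_univ, if_true, nsmul_eq_mul] at h1
  have h2 : ((s i : ℕ) : ℤ) % ((2 ^ k : ℕ) : ℤ) = ((s' i : ℕ) : ℤ) % ((2 ^ k : ℕ) : ℤ) := by
    rw [h1, Int.add_mul_emod_self_left]
  rw [Int.emod_eq_of_lt (Int.natCast_nonneg _) (by exact_mod_cast (s i).2),
    Int.emod_eq_of_lt (Int.natCast_nonneg _) (by exact_mod_cast (s' i).2)] at h2
  exact Fin.ext (by exact_mod_cast h2)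

end Pool.Agent.MP_e23604_nt.Q

end

section

namespace Pool.Agent.MP_e23604_nt.Q

open Finset Filter NumberField
open MP_f68ac8_nt
open MP_f68ac8_nt.Zq (Mx sg eps lk2)
open MP_f68ac8_nt.Zk (Cp Yw rr ch lk)
open MP_f68ac8_nt.Nd (Lr x2 chn Loc Op2 Fr vl Rcp GenQ GnQ WdQ exq Sp np Km)
open scoped BigOperators Topology

theorem pi_XRed (s α : ZMod 2) : s = s + α + 1 + α + 1 := by
  revert s α
  decide

theorem lev_XRed (hNdSpN : Nd.SpN) (hLevQ : LevQ) (hResQ : ResQ) (hActQ : ActQ)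
    (A : Type) [AddCommGroup A] (J : A ≃ₗ[ℤ] A) (hJ : CmI J) (σ τ : ℕ → GQ) (hT : Tl σ τ)
    (I : Type) [Fintype I] (α a : I → ZMod 2) (η₀ : I → GQ → A ≃ₗ[ℤ] A) (e : ℝ) (he : 0 < e)
    (M m : ℕ) (hM : AllV fun _ _ _ J m => M ≤ m → ∀ σ τ, Tl σ τ → ∀ p : Pa J m, p.Ok →
      Sp (fun n => ∃ θ v, Act p τ n θ v) e) (h1 : 1 ≤ m) (h2 : M ≤ m) :
    Sp (fun n => ∃ i η x pp b, Gm J η n (α i) (a i) τ (η₀ i) ∧ Lev J η n τ m x pp b)
      ((8 * Fintype.card I + 1) * e) := by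
  obtain ⟨V, _, _, JV, ι, hE⟩ := hResQ A J hJ (m + 3) (by omega)
  obtain ⟨rep, hr1, hr2⟩ := ((hLevQ A J).2 hJ).2.2 m
  have hp : ∀ k : I × Fin 4 × ZMod 2, ∃ p : Pa JV m, p.Ok ∧ ∀ η n τ x pp b,
      Gm J η n (α k.1) (a k.1) τ (η₀ k.1) → Lev J η n τ m x pp b →
      b - rep k.2.1 ∈ Wn J (m + 1) →
      ∑ l ∈ n.primeFactors, eps l = k.2.2 + α k.1 + 1 → ∃ θ v, Act p τ n θ v := fun k =>
    hActQ A V J JV ι (m + 3) hJ hE m rfl (η₀ k.1) (α k.1) (a k.1) k.2.2 (rep k.2.1) (hr1 _)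
  choose p hp1 hp2 using hp
  have hs := hNdSpN.2 (I × Fin 4 × ZMod 2) (fun k n => ∃ θ v, Act (p k) τ n θ v) (fun _ => e)
    fun k => hM V JV (m + 3) m hE.cm h1 (by omega) h2 σ τ hT (p k) (hp1 k)
  refine hNdSpN.1 _ _ _ _ ?_ ?_ hs
  · simp only [sum_const, card_univ, Fintype.card_prod, Fintype.card_fin, ZMod.card,
      nsmul_eq_mul]
    push_cast
    linarith
  · rintro n - - - ⟨i, η, x, pp, b, hG, hL⟩
    obtain ⟨t, ht⟩ := hr2 b hL.base
    exact ⟨(i, t, ∑ l ∈ n.primeFactors, eps l + α i + 1),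
      hp2 _ η n τ x pp b hG hL ht (pi_XRed _ _)⟩

theorem redQ (hNdSpN : Nd.SpN) (hLevQ : LevQ) (hResQ : ResQ) (hDetQ : DetQ) (hActQ : ActQ)
    (hPtA : PtA) (hG4S : G4S) : RedQ := by
  intro A _ J hJ σ τ hT I _ α a η₀ ε hε
  have hc : (0 : ℝ) < 16 * Fintype.card I + 4 := by positivity
  have he : 0 < ε / (16 * Fintype.card I + 4) := div_pos hε hc
  obtain ⟨M, hM⟩ := hPtA _ he
  have hl := fun m => lev_XRed hNdSpN hLevQ hResQ hActQ A J hJ σ τ hT I α a η₀ _ he M m hM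
  have hs := hNdSpN.2 (Option Bool)
    (fun o n => o.elim (¬ G4n n) fun b => ∃ i η x pp b', Gm J η n (α i) (a i) τ (η₀ i) ∧
      Lev J η n τ (max M 2 + b.toNat) x pp b')
    (fun o => o.elim (ε / (16 * Fintype.card I + 4))
      fun _ => (8 * Fintype.card I + 1) * (ε / (16 * Fintype.card I + 4))) (by
      rintro (_ | b)
      · exact hG4S _ he
      · exact hl _ (by omega) (by omega))
  refine hNdSpN.1 _ _ _ _ ?_ ?_ hs
  · simp only [Fintype.sum_option, Fintype.sum_bool, Option.elim]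
    have h1 : (16 * Fintype.card I + 4) * (ε / (16 * Fintype.card I + 4)) = ε :=
      mul_div_cancel₀ _ hc.ne'
    linarith
  · rintro n hn - - ⟨i, η, hG, hI⟩
    by_cases h4 : G4n n
    · obtain ⟨m, hm, x, pp, b, hL⟩ :=
        hDetQ A J η n (α i) (a i) σ τ (η₀ i) hJ hG hT hn h4 hI (max M 2) (le_max_right _ _)
      rcases hm with rfl | rfl
      · exact ⟨some false, i, η, x, pp, b, hG, hL⟩
      · exact ⟨some true, i, η, x, pp, b, hG, hL⟩
    · exact ⟨none, h4⟩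

end Pool.Agent.MP_e23604_nt.Q

end

section

namespace Pool.Agent.MP_e23604_nt.Q

open Finset Filter NumberField
open MP_f68ac8_nt
open MP_f68ac8_nt.Zq (Mx sg eps lk2)
open MP_f68ac8_nt.Zk (Cp Yw rr ch lk)
open MP_f68ac8_nt.Nd (Lr x2 chn Loc Op2 Fr vl Rcp GenQ GnQ WdQ exq Sp np Km)
open scoped BigOperators Topology

theorem sysQ : SysQ := by
  classical
  intro V _ _ J N m _ _ _
  refine ⟨Fintype.card (Pm J m) + 2, fun p hp nb bb φ c hb => ?_⟩
  let en := (Fintype.equivFin (Pm J m)).symm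
  have hne : (Fin.natAdd (Fintype.card (Pm J m)) (0 : Fin 2)) ≠ Fin.natAdd _ 1 := fun h => by
    have := congrArg Fin.val h
    simp at this
  refine ⟨fun b => Fin.castAdd 2 (en.symm (p.th (bb b))),
    fun j => if j = Fin.natAdd _ 0 then φ else c, Fin.natAdd _ 0, Fin.natAdd _ 1, if_pos rfl,
    if_neg hne.symm, fun d hd => ?_⟩
  have hn : ∀ j : Fin (Fintype.card (Pm J m) + 2),
      Fin.natAdd d j ∉ (univ.map (Fin.castAddEmb _) : Finset (Fin (d + _))) := fun j h => by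
    obtain ⟨i, -, hi⟩ := mem_map.1 h
    have h1 := congrArg Fin.val hi
    have h2 := i.2
    simp at h1
    omega
  refine ⟨⟨univ.map (Fin.castAddEmb _), Fin.castAdd _ ⟨0, hd⟩, Fin.natAdd d (Fin.natAdd _ 0),
    Fin.natAdd d (Fin.natAdd _ 1), Fin.append (fun _ => 1) (Fin.append
      (fun t => if (en t).1 p.o = p.o then en t else 1) fun _ => 1), (p.th φ).1 0, p.o, p.pi⟩,
    ⟨⟨mem_map.2 ⟨_, mem_univ _, rfl⟩, hn _, hn _, fun h => hne (Fin.natAdd_inj d |>.1 h)⟩,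
      fun j _ => ?_, hp.2⟩, rfl, fun b => ?_, rfl, rfl, rfl, rfl, rfl⟩
  · refine Fin.addCases (fun i => ?_) (fun i => ?_) j
    · simp only [Fin.append_left]
      rfl
    · refine Fin.addCases (fun t => ?_) (fun t => ?_) i
      · simp only [Fin.append_right, Fin.append_left]
        split_ifs with h
        · exact h
        · rfl
      · simp only [Fin.append_right]
        rfl
  · simp only [Fin.append_right, Fin.append_left, Equiv.apply_symm_apply]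
    exact if_pos (hp.1 _ (hb b))

end Pool.Agent.MP_e23604_nt.Q

end

section

namespace Pool.Agent.MP_e23604_nt.Q

open Finset Filter NumberField
open MP_f68ac8_nt.Zq (Mx sg)
open MP_f68ac8_nt.Zk (Cp Yw rr NS brL)
open MP_f68ac8_nt.Nd (Lr Rcp GenQ Trm)
open scoped BigOperators Topology

section
variable {A : Type} [AddCommGroup A] {V : Type} [AddCommGroup V] {J : A ≃ₗ[ℤ] A}
  {JV : V ≃ₗ[ℤ] V} {ι : V →ₗ[ℤ] A} {N : ℕ}

theorem res_XTh [Fintype V] (he : Emb J JV ι N) {a : A ≃ₗ[ℤ] A} (ha : Pre J a) :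
    ∃ b : V ≃ₗ[ℤ] V, ∀ y, ι (b y) = a (ι y) := by
  choose f hf using fun y => he.rng (a (ι y)) ((ha _ _).2 ((he.lev _ _).2 (he.cm.top y)))
  let g : V →ₗ[ℤ] V :=
    { toFun := f
      map_add' := fun x y => he.inj (by simp only [map_add, hf])
      map_smul' := fun c x => he.inj (by simp only [map_smul, hf, RingHom.id_apply]) }
  have hi : Function.Injective g := fun x y e => he.inj (a.injective (by
    rw [← hf, ← hf]; exact congrArg ι e))
  exact ⟨LinearEquiv.ofBijective g (Finite.injective_iff_bijective.1 hi), hf⟩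

theorem lin_XTh {m : ℕ} {t : Pm JV m} {a : A ≃ₗ[ℤ] A} {w : A} (h : Rep ι t a w) (y : V) :
    ι (t.1.linear y) = a (ι y) := by
  have h0 := h 0
  have h1 := h y
  rw [map_zero ι, map_zero a, zero_add] at h0
  rw [aff_apply, map_add, h0] at h1
  exact add_right_cancel h1

end

theorem thQ (hBasQ : BasQ) : ThQ := by
  intro A _ V _ _ J JV ι N hc he m hm
  have mono := (hBasQ A J hc.toCm0).1
  have h1 : ∀ a w, Pre J a → w ∈ Wn J m → ∃ t : Pm JV m, Rep ι t a w := fun a w ha hw => by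
    obtain ⟨b, hb⟩ := res_XTh he ha
    obtain ⟨y0, rfl⟩ := he.rng w (mono _ _ hm hw)
    refine ⟨⟨AffineEquiv.constVAdd ℤ V y0 * b.toAffineEquiv, fun n u => ?_, ?_⟩, fun y => ?_⟩
    · change b u ∈ _ ↔ _
      rw [← he.lev, hb, ha, he.lev]
    · change y0 + b 0 ∈ _
      rw [map_zero, add_zero]
      exact (he.lev _ _).1 hw
    · change ι (y0 + b y) = _
      rw [map_add, hb, add_comm]
  have h2 : ∀ (t t' : Pm JV m) a a' w, Rep ι t a w → Rep ι t' a' w →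
      (∀ u ∈ Wn J N, a u = a' u) → t = t' := fun t t' a a' w h h' e =>
    Subtype.ext (AffineEquiv.ext fun y => he.inj (by
      rw [h, h', e _ ((he.lev _ _).2 (he.cm.top y))]))
  refine ⟨h1, h2, fun t a w h k hk => ?_, fun η z hη hz hm => ?_⟩
  · unfold del
    refine @if_congr _ _ _ (_) (_) _ _ _ _ ⟨fun H u hu => ?_, fun H u hu => ?_⟩ rfl rfl
    · obtain ⟨y, rfl⟩ := he.rng u (mono _ _ hk hu)
      rw [← lin_XTh h, ← map_sub, he.lev]
      exact H y ((he.lev _ _).1 hu)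
    · rw [← he.lev, map_sub, lin_XTh h]
      exact H _ ((he.lev _ _).2 hu)
  · choose θ hθ using fun g => h1 (η g) (z g) (hη g) (hz g)
    refine ⟨MonoidHom.mk' θ fun g h => h2 _ _ _ _ _ (hθ (g * h)) (fun y => ?_) fun _ _ => rfl, hθ⟩
    change ι ((θ g).1 ((θ h).1 y)) = _
    rw [hθ, hθ, hm, map_mul, map_add, LinearEquiv.mul_apply]
    abel

end Pool.Agent.MP_e23604_nt.Q

end

section

namespace Pool.Agent.MP_e23604_nt.Q

open Finset Filter NumberField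
open MP_f68ac8_nt.Zq (Mx sg)
open MP_f68ac8_nt.Zk (Cp Yw rr NS brL)
open MP_f68ac8_nt.Nd (Lr Rcp GenQ Trm)
open scoped BigOperators Topology

open Polynomial in
lemma hensel_XTwo {t u a : ℤ} (hu : Odd u) (ha : Odd a) (h : (2 : ℤ) ^ 5 ∣ u * a ^ 4 - t) :
    ∃ z : ℤ_[2], (u : ℤ_[2]) * z ^ 4 = t := by
  have h1 : ‖aeval (a : ℤ_[2]) (C u * X ^ 4 - C t : ℤ[X])‖ ≤ ((2 : ℕ) : ℝ) ^ (-(5 : ℕ) : ℤ) := by
    have h2 := (PadicInt.norm_int_le_pow_iff_dvd (p := 2) (n := 5)).2 h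
    simpa using h2
  have h2 : ‖aeval (a : ℤ_[2]) (derivative (C u * X ^ 4 - C t : ℤ[X]))‖ =
      ((2 : ℕ) : ℝ) ^ (-(2 : ℕ) : ℤ) := by
    have h3 : aeval (a : ℤ_[2]) (derivative (C u * X ^ 4 - C t : ℤ[X])) =
        ((2 : ℕ) : ℤ_[2]) ^ 2 * ((u * a ^ 3 : ℤ) : ℤ_[2]) := by
      rw [derivative_sub, derivative_C_mul_X_pow, derivative_C]
      simp [map_ofNat]
      ring
    rw [h3, norm_mul, PadicInt.norm_p_pow, PadicInt.norm_intCast_eq_one_iff.2, mul_one]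
    exact Int.isCoprime_two_right.2 (hu.mul ha.pow)
  obtain ⟨z, hz, -⟩ := hensels_lemma (F := (C u * X ^ 4 - C t : ℤ[X])) (a := (a : ℤ_[2]))
    (by rw [h2]; exact h1.trans_lt (by norm_num))
  exact ⟨z, sub_eq_zero.1 (by simpa using hz)⟩

open Polynomial in
theorem twoQ (hLiftQ : LiftQ) : TwoQ := by
  intro t u ht htu
  have h1 : (16 : ℤ) ∣ u - t := by
    exact_mod_cast (ZMod.intCast_eq_intCast_iff_dvd_sub t u 16).1 htu
  have ht' := Int.odd_iff.1 ht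
  have hu : Odd u := Int.odd_iff.2 (by omega)
  obtain ⟨z, hz⟩ : ∃ z : ℤ_[2], (u : ℤ_[2]) * z ^ 4 = t := by
    by_cases h2 : (32 : ℤ) ∣ u - t
    · exact hensel_XTwo hu odd_one (by simpa using h2)
    · have hu' := Int.odd_iff.1 hu
      exact hensel_XTwo (a := 3) hu (by decide) (by omega)
  have hz' : (u : ℚ_[2]) * (z : ℚ_[2]) ^ 4 = t := by
    exact_mod_cast congrArg (fun x : ℤ_[2] => (x : ℚ_[2])) hz
  have hb : (u : PadicAlgCl 2) * algebraMap ℚ_[2] (PadicAlgCl 2) z ^ 4 = t := by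
    simpa using congrArg (algebraMap ℚ_[2] (PadicAlgCl 2)) hz'
  have ht0 : (t : ℚ) ≠ 0 := Int.cast_ne_zero.2 fun h => by omega
  obtain ⟨c, hc⟩ := B.BLift_root 2 (g := C (u : ℚ) * X ^ 4 - C (t : ℚ))
    (fun h => ht0 (by simpa using congrArg (eval 0) h))
    (b := algebraMap ℚ_[2] (PadicAlgCl 2) z) (by simpa using sub_eq_zero.2 hb)
  refine ⟨c, (emb ℚ_[2]).injective ?_, fun g hg => hLiftQ.2.1 g hg c z hc⟩
  rw [map_mul, map_pow, hc, map_intCast, map_intCast, mul_comm]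
  exact hb

end Pool.Agent.MP_e23604_nt.Q

end

section

/-! All steps. -/

namespace Pool.Agent.MP_e23604_nt.Q

open MP_f68ac8_nt

theorem all_NdSpN : Nd.SpN := Nd.spN
theorem all_BasQ : BasQ :=
  basQ
theorem all_LevQ : LevQ :=
  levQ all_BasQ
theorem all_ResQ : ResQ :=
  resQ all_BasQ all_LevQ
theorem all_NdLocM : Nd.LocM := Nd.locM
theorem all_NdKumM : Nd.KumM := Nd.kumM Nd.locM
theorem all_DecQ : DecQ :=
  decQ all_NdLocM
theorem all_SjQ : SjQ :=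
  sjQ all_NdLocM all_NdKumM all_DecQ
theorem all_ValQ : ValQ :=
  valQ all_NdLocM all_DecQ
theorem all_FilQ : FilQ :=
  filQ all_BasQ
theorem all_ThQ : ThQ :=
  thQ all_BasQ
theorem all_AdmQ : AdmQ :=
  admQ all_FilQ
theorem all_NdTamM : Nd.TamM := Nd.tamM Nd.locM
theorem all_TameQ : TameQ :=
  tameQ all_NdTamM all_BasQ all_FilQ
theorem all_TamI : TamI :=
  tamI all_BasQ all_FilQ all_ResQ all_ThQ all_AdmQ all_TameQ
theorem all_ChrQ : ChrQ :=
  chrQ all_NdKumM all_ValQ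
theorem all_LeadI : LeadI :=
  leadI all_BasQ all_ChrQ
theorem all_LevI : LevI :=
  levI all_BasQ all_SjQ all_ValQ all_TamI all_LeadI
theorem all_InjI : InjI :=
  injI all_BasQ all_DecQ all_SjQ all_LeadI
theorem all_DetQ : DetQ :=
  detQ all_BasQ all_LevQ all_LevI all_InjI
theorem all_ActQ : ActQ :=
  actQ all_BasQ all_FilQ all_ThQ all_AdmQ
theorem all_NdPtQ : Nd.PtQ := Nd.ptQ_all
theorem all_ZvFincStmt : Zv.FincStmt := Zv.finc_stmt
theorem all_GqQ : GqQ :=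
  gqQ all_NdTamM all_ZvFincStmt all_DecQ all_SjQ all_ValQ all_ChrQ
theorem all_SysQ : SysQ :=
  sysQ
theorem all_RrQ : RrQ :=
  rrQ
theorem all_DerQ : DerQ :=
  derQ all_BasQ all_LevQ all_FilQ all_RrQ
theorem all_StepQ : StepQ :=
  stepQ all_BasQ all_DerQ
theorem all_FouQ : FouQ :=
  fouQ
theorem all_FibQ : FibQ :=
  fibQ all_BasQ all_LevQ
theorem all_RecQ : RecQ :=
  recQ all_StepQ all_FouQ all_FibQ
theorem all_TopQ : TopQ :=
  topQ all_FibQ
theorem all_ItQ : ItQ :=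
  itQ all_RecQ all_TopQ
theorem all_TsQ : TsQ :=
  tsQ all_BasQ all_DerQ
theorem all_HomQ : HomQ :=
  homQ all_BasQ all_FilQ all_RrQ
theorem all_OrbQ : OrbQ :=
  orbQ all_BasQ all_FibQ all_StepQ all_TsQ all_HomQ
theorem all_BrQ : BrQ :=
  brQ all_BasQ all_FilQ
theorem all_InvQ : InvQ :=
  invQ all_BasQ all_FilQ
theorem all_TrmQ : TrmQ :=
  trmQ all_BasQ all_FilQ all_BrQ all_InvQ
theorem all_SumQ : SumQ :=
  sumQ all_ItQ all_OrbQ all_TrmQ
theorem all_NdTupN : Nd.TupN := Nd.tupN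
theorem all_LnkQ : LnkQ :=
  lnkQ all_NdTupN all_BasQ all_DecQ all_ValQ all_ChrQ all_RrQ
theorem all_TruQ : TruQ :=
  truQ all_NdTupN all_DecQ all_ValQ all_FilQ all_TameQ
theorem all_GoodQ : GoodQ :=
  goodQ
theorem all_ZqQrStmt : Zq.QrStmt := Zq.qr_stmt
theorem all_RcpQ : RcpQ :=
  rcpQ all_ZqQrStmt
theorem all_PtA : PtA :=
  ptA all_NdPtQ all_FilQ all_DecQ all_GqQ all_SysQ all_SumQ all_LnkQ all_TruQ all_GoodQ all_RcpQ
theorem all_G4S : G4S :=
  g4S all_NdPtQ all_NdTupN all_NdLocM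
theorem all_RedQ : RedQ :=
  redQ all_NdSpN all_LevQ all_ResQ all_DetQ all_ActQ all_PtA all_G4S
theorem all_TauQ : TauQ :=
  tauQ all_NdLocM all_NdKumM all_ValQ all_SjQ
theorem all_ScQ : ScQ :=
  scQ
theorem all_ModQ : ModQ :=
  modQ all_BasQ all_ScQ
theorem all_EtaQ : EtaQ :=
  etaQ all_ScQ
theorem all_SemQ : SemQ :=
  semQ all_BasQ all_LevQ
theorem all_GmA : GmA :=
  gmA all_SjQ all_SemQ all_ScQ all_ModQ
theorem all_GmU : GmU :=
  gmU all_BasQ all_DecQ all_ScQ all_ModQ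
theorem all_GmB : GmB :=
  gmB all_NdKumM all_SjQ all_SemQ all_ScQ all_ModQ all_GmA
theorem all_GmC : GmC :=
  gmC all_DecQ all_SjQ all_SemQ all_ScQ all_ModQ all_GmA
theorem all_LiftQ : LiftQ :=
  liftQ
theorem all_TwoQ : TwoQ :=
  twoQ all_LiftQ
theorem all_EllQ : EllQ :=
  ellQ all_TauQ all_ModQ all_EtaQ all_GmA all_GmU all_GmB all_GmC all_TwoQ
theorem all_MainQ : MainQ :=
  mainQ all_NdSpN all_RedQ all_EllQ
theorem all_StrQ : StrQ :=
  strQ all_BasQ all_DecQ all_ScQ all_ModQ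
theorem all_IdxQ : IdxQ :=
  idxQ
theorem all_LpQ : LpQ :=
  lpQ all_LiftQ
theorem all_StcQ : StcQ :=
  stcQ all_LiftQ
theorem all_CntQ : CntQ :=
  cntQ all_IdxQ all_LpQ all_StcQ
theorem all_KumQ : KumQ :=
  kumQ
theorem all_IndQ : IndQ :=
  indQ
theorem all_FgQ : FgQ :=
  fgQ all_CntQ all_KumQ
theorem all_SelQ : SelQ :=
  selQ all_CntQ all_KumQ all_IndQ all_FgQ

end Pool.Agent.MP_e23604_nt.Q

end

section

/-! The theorem. -/

set_option autoImplicit false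

open Filter Topology

namespace Pool.Agent.MP_e23604_nt.R

open Q

theorem one_ok : ONE_st :=
  one_pf DIC_ok INST_ok PAR_ok IDX_ok BND_ok FIN_ok RED_ok all_IdxQ all_StrQ all_SelQ all_FgQ

theorem two_ok : TWO_st :=
  two_pf RCE_pf (INSO_pf GA_ok TW_ok TH_ok WEIL_ok ISO_ok (TAB2_pf PT_ok KUM_ok KAP_ok DIC_ok)
    (TAB3_pf PT_ok KUM_ok KAP_ok DIC_ok)) PAR_ok (UNR_pf (SURJ_pf FRO_ok) FRO_ok) SHA_pf all_GmA

theorem main_ok : Tendsto (fun X : ℕ => ({D : ℤ | |D| ≤ X ∧ Squarefree D ∧ ¬ Gro D}.ncard : ℝ) / X)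
    atTop (𝓝 0) :=
  dens_gen (fun _ _ _ _ _ _ _ _ _ => gro_of one_ok two_ok CNT_pf all_StrQ all_SelQ all_FgQ)
    all_MainQ all_G4S

end Pool.Agent.MP_e23604_nt.R

end

section

/-! The parity takes each value for half of the squarefree integers. -/

namespace Pool.Agent.MP_e23604_nt.R

open Finset Filter
open scoped Topology
open S (GoodH bad_H)

/-- the reflection -/
def refH (Y D : ℤ) : ℤ :=
  if D % 16 = 1 ∨ D % 16 = 5 ∨ D % 16 = 11 ∨ D % 16 = 15 then (if 0 < D then Y - D else -Y - D)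
  else -D

open Classical in
/-- squarefree integers with given parity -/
noncomputable def AH (r : ℕ) (X : ℕ) : Finset ℤ :=
  (Icc (-(X : ℤ)) X).filter fun D => Squarefree D ∧ par D = r

theorem par_le_H (D : ℤ) : par D ≤ 1 := by
  unfold par
  split_ifs <;> omega

theorem ref_H {Y D : ℤ} (hY : Y % 16 = 0) (h0 : D ≠ 0) (h1 : -Y ≤ D) (h2 : D ≤ Y) :
    refH Y (refH Y D) = D ∧ par D + par (refH Y D) = 1 ∧ refH Y D ≠ 0 ∧ -Y ≤ refH Y D ∧
      refH Y D ≤ Y ∧ (refH Y D = -D ∨ refH Y D = Y - D ∨ refH Y D = -Y - D) := by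
  have key : ∀ a b : ℤ, (a + b) % 16 = 0 → a ≠ 0 → b ≠ 0 →
      ((a % 16 = 1 ∨ a % 16 = 5 ∨ a % 16 = 11 ∨ a % 16 = 15) ↔ (0 < a ↔ 0 < b)) →
      par a + par b = 1 := fun a b k1 k2 k3 k4 => by
    have k5 : b % 16 = (16 - a % 16) % 16 := by omega
    have k6 : 0 ≤ a % 16 := by omega
    have k7 : a % 16 < 16 := by omega
    unfold par
    rw [k5]
    generalize a % 16 = c at *
    clear k1 k5
    by_cases p1 : 0 < a <;> by_cases p2 : 0 < b <;>
      simp only [p1, p2, true_iff, false_iff, iff_true, not_true,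
        iff_false] at k4 ⊢ <;> interval_cases c <;> revert k4 <;> decide
  by_cases c1 : D % 16 = 1 ∨ D % 16 = 5 ∨ D % 16 = 11 ∨ D % 16 = 15
  · by_cases c2 : 0 < D
    · have e1 : refH Y D = Y - D := by rw [refH, if_pos c1, if_pos c2]
      have e2 : refH Y (Y - D) = D := by
        rw [refH, if_pos (by omega), if_pos (by omega), sub_sub_cancel]
      rw [e1, e2]
      exact ⟨rfl, key _ _ (by omega) h0 (by omega) (by omega), by omega⟩
    · have e1 : refH Y D = -Y - D := by rw [refH, if_pos c1, if_neg c2]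
      have e2 : refH Y (-Y - D) = D := by
        rw [refH, if_pos (by omega), if_neg (by omega), sub_sub_cancel]
      rw [e1, e2]
      exact ⟨rfl, key _ _ (by omega) h0 (by omega) (by omega), by omega⟩
  · have e1 : refH Y D = -D := by rw [refH, if_neg c1]
    have e2 : refH Y (-D) = D := by rw [refH, if_neg (by omega), neg_neg]
    rw [e1, e2]
    exact ⟨rfl, key _ _ (by omega) h0 (by omega) (by omega), by omega⟩

theorem up_H {r N : ℕ} (hr : r ≤ 1) (hN : 3 ≤ N) (X : ℕ) :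
    ((AH r X).card : ℝ) ≤ (AH (1 - r) X).card + 4 * X / N + (2 * (16 * N.factorial ^ 2) : ℕ) := by
  classical
  have hN0 : (0 : ℝ) < N := by exact_mod_cast (by omega : 0 < N)
  obtain ⟨M, hM⟩ : ∃ M, M = 16 * N.factorial ^ 2 := ⟨_, rfl⟩
  have hM0 : 0 < M := hM ▸ by positivity
  obtain ⟨Y, hY⟩ : ∃ Y, Y = M * (X / M) := ⟨_, rfl⟩
  have h1 : Y ≤ X := hY ▸ Nat.mul_div_le X M
  have h2 : X < Y + M := by
    have := Nat.div_add_mod X M
    have := Nat.mod_lt X hM0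
    omega
  have h16 : (Y : ℤ) % 16 = 0 := by
    have : 16 ∣ Y := by rw [hY, hM, mul_assoc]; exact Dvd.intro _ rfl
    omega
  have h3 : AH r X ⊆ AH r Y ∪ (Ioc (Y : ℤ) X ∪ Ico (-(X : ℤ)) (-Y)) := by
    intro D hD
    simp only [AH, mem_filter, mem_Icc, mem_Ioc, mem_Ico, mem_union] at hD ⊢
    by_cases h : -(Y : ℤ) ≤ D ∧ D ≤ Y
    · exact Or.inl ⟨h, hD.2⟩
    · omega
  have h3' : AH (1 - r) Y ⊆ AH (1 - r) X := by
    intro D hD
    simp only [AH, mem_filter, mem_Icc] at hD ⊢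
    exact ⟨by omega, hD.2⟩
  obtain ⟨B, hB⟩ : ∃ B, B = (Ioc 0 Y).filter fun D => ¬ GoodH N D := ⟨_, rfl⟩
  have h4 : (AH r Y).card ≤ (AH (1 - r) Y ∪ (B.image (fun n : ℕ => (n : ℤ)) ∪
      B.image fun n : ℕ => -(n : ℤ))).card := by
    refine card_le_card_of_injOn (refH Y) (fun D hD => ?_) fun D hD D' hD' h => ?_
    · simp only [AH, coe_filter, mem_Icc, Set.mem_ofPred_eq] at hD
      obtain ⟨-, a2, a3, a4, a5, a6⟩ := ref_H h16 hD.2.1.ne_zero hD.1.1 hD.1.2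
      simp only [AH, hB, coe_union, coe_filter, coe_image, mem_Icc, mem_Ioc, Set.mem_union,
        Set.mem_image, Set.mem_ofPred_eq]
      by_cases a7 : Squarefree (refH Y D)
      · exact Or.inl ⟨⟨a4, a5⟩, a7, by omega⟩
      have a8 : ¬ GoodH N (refH Y D).natAbs := fun hg => by
        rw [← Int.squarefree_natAbs, Nat.squarefree_iff_prime_squarefree] at a7
        push Not at a7
        obtain ⟨l, hl, b1⟩ := a7
        have hl := hl
        rw [← sq] at b1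
        have b2 : l ≤ N := by
          by_contra b2
          exact (hg l hl).2 (by omega) b1
        have b3 : ((l ^ 2 : ℕ) : ℤ) ∣ Y := by
          rw [hY, hM]
          exact_mod_cast ((pow_dvd_pow_of_dvd (Nat.dvd_factorial hl.pos b2) 2).mul_left 16).mul_right _
        have b4 : ((l ^ 2 : ℕ) : ℤ) ∣ refH Y D := Int.natCast_dvd.2 b1
        have b5 : ((l ^ 2 : ℕ) : ℤ) ∣ D := by
          rcases a6 with b | b | b <;> rw [b] at b4
          · exact (dvd_neg).1 b4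
          · exact (dvd_sub_right b3).1 b4
          · exact (dvd_sub_right (dvd_neg.2 b3)).1 b4
        have b6 := Int.squarefree_natAbs.2 hD.2.1
        rw [Nat.squarefree_iff_prime_squarefree] at b6
        exact b6 l hl (by rw [← sq]; exact Int.natCast_dvd.1 b5)
      by_cases a9 : 0 < refH Y D
      · exact Or.inr (Or.inl ⟨_, ⟨by omega, a8⟩, by omega⟩)
      · exact Or.inr (Or.inr ⟨_, ⟨by omega, a8⟩, by omega⟩)
    · simp only [AH, coe_filter, mem_Icc, Set.mem_ofPred_eq] at hD hD'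
      rw [← (ref_H h16 hD.2.1.ne_zero hD.1.1 hD.1.2).1, h,
        (ref_H h16 hD'.2.1.ne_zero hD'.1.1 hD'.1.2).1]
  have h5 := (card_le_card h3).trans ((card_union_le _ _).trans
    (add_le_add le_rfl (card_union_le _ _)))
  have h6 := h4.trans ((card_union_le _ _).trans (add_le_add (card_le_card h3')
    ((card_union_le _ _).trans (add_le_add card_image_le card_image_le))))
  have h8 := bad_H hN Y
  rw [← hB] at h8
  rw [Int.card_Ioc, Int.card_Ico] at h5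
  have h9 : (AH r X).card ≤ (AH (1 - r) X).card + 2 * B.card + 2 * M := by omega
  have h10 : (2 * Y / N : ℝ) ≤ 2 * X / N := by gcongr
  have h11 : ((AH r X).card : ℝ) ≤ (AH (1 - r) X).card + 2 * B.card + (2 * M : ℕ) := by
    exact_mod_cast h9
  have h12 : (4 * X / N : ℝ) = 2 * (2 * X / N) := by ring
  rw [← hM]
  linarith

theorem sum_H {r : ℕ} (hr : r ≤ 1) (X : ℕ) : (AH r X).card + (AH (1 - r) X).card =
    {D : ℤ | |D| ≤ X ∧ Squarefree D}.ncard := by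
  classical
  rw [← card_union_of_disjoint (disjoint_left.2 fun D h1 h2 => by
    simp only [AH, mem_filter] at h1 h2
    omega), ← Set.ncard_coe_finset]
  congr 1
  ext D
  have := par_le_H D
  simp only [AH, coe_union, coe_filter, mem_Icc, Set.mem_union, Set.mem_ofPred_eq, abs_le]
  constructor
  · rintro (h | h) <;> exact ⟨h.1, h.2.1⟩
  · intro h
    by_cases a : par D = r
    · exact Or.inl ⟨h.1, h.2, a⟩
    · exact Or.inr ⟨h.1, h.2, by omega⟩

theorem fin_H (X : ℕ) (Q : ℤ → Prop) : {D : ℤ | |D| ≤ X ∧ Q D}.Finite :=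
  (Set.finite_Icc (-(X : ℤ)) X).subset fun _ hD => abs_le.1 hD.1

theorem low_H (X : ℕ) : (X : ℝ) / 4 ≤ {D : ℤ | |D| ≤ X ∧ Squarefree D}.ncard := by
  classical
  have h1 : Ioc 0 X ⊆ ((Ioc 0 X).filter Squarefree) ∪ (((Ioc 0 X).filter fun D => 4 ∣ D) ∪
      ((Ioc 2 (2 + X)).biUnion fun l => (Ioc 0 X).filter fun D => l ^ 2 ∣ D)) := by
    intro D hD
    by_cases h : Squarefree D
    · exact mem_union_left _ (mem_filter.2 ⟨hD, h⟩)
    rw [Nat.squarefree_iff_prime_squarefree] at h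
    push Not at h
    obtain ⟨l, hl, h⟩ := h
    have h5 := Nat.le_of_dvd (mem_Ioc.1 hD).1 (dvd_of_mul_left_dvd h)
    have h6 := (mem_Ioc.1 hD).2
    have h7 := hl.two_le
    by_cases h8 : l = 2
    · exact mem_union_right _ (mem_union_left _ (mem_filter.2 ⟨hD, by rwa [h8] at h⟩))
    · exact mem_union_right _ (mem_union_right _ (mem_biUnion.2
        ⟨l, mem_Ioc.2 (by omega), mem_filter.2 ⟨hD, by rwa [sq]⟩⟩))
  have h2 := (card_le_card h1).trans ((card_union_le _ _).trans (add_le_add le_rfl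
    ((card_union_le _ _).trans (add_le_add le_rfl card_biUnion_le))))
  simp only [Nat.Ioc_filter_dvd_card_eq_div, Nat.card_Ioc, Nat.sub_zero] at h2
  have h4 : ((∑ l ∈ Ioc 2 (2 + X), X / l ^ 2 : ℕ) : ℝ) ≤ X / 2 := by
    rw [Nat.cast_sum]
    refine (sum_le_sum fun l _ => Nat.cast_div_le).trans ?_
    simp only [div_eq_mul_inv, Nat.cast_pow]
    rw [← mul_sum]
    refine mul_le_mul_of_nonneg_left ((sum_Ioc_inv_sq_le_sub (by omega) (by omega)).trans
      ((sub_le_self _ (by positivity)).trans (by norm_num))) (by positivity)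
  have h3 : ((X / 4 : ℕ) : ℝ) ≤ X / 4 := Nat.cast_div_le
  have h5 : ((Ioc 0 X).filter Squarefree).card ≤ {D : ℤ | |D| ≤ X ∧ Squarefree D}.ncard := by
    rw [← Set.ncard_coe_finset]
    refine Set.ncard_le_ncard_of_injOn (fun n : ℕ => (n : ℤ)) (fun n hn => ?_)
      (fun _ _ _ _ h => Nat.cast_injective h) (fin_H X _)
    simp only [coe_filter, mem_Ioc, Set.mem_ofPred_eq] at hn ⊢
    exact ⟨by rw [Nat.abs_cast]; exact_mod_cast hn.1.2, Int.squarefree_natCast.2 hn.2⟩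
  have h6 : (X : ℝ) ≤ ({D : ℤ | |D| ≤ X ∧ Squarefree D}.ncard : ℕ) + (((X / 4 : ℕ) : ℝ) +
      ((∑ l ∈ Ioc 2 (2 + X), X / l ^ 2 : ℕ) : ℝ)) := by
    exact_mod_cast h2.trans (add_le_add h5 le_rfl)
  linarith

theorem half_H {r : ℕ} (hr : r ≤ 1) : Tendsto (fun X : ℕ =>
    ((AH r X).card : ℝ) / {D : ℤ | |D| ≤ X ∧ Squarefree D}.ncard) atTop (𝓝 (1 / 2)) := by
  rw [Metric.tendsto_atTop]
  intro ε hε
  obtain ⟨N, hN⟩ := exists_nat_gt (max 3 (16 / ε))
  have hN3 : 3 ≤ N := by exact_mod_cast ((le_max_left _ _).trans hN.le : (3 : ℝ) ≤ N)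
  have hN0 : (0 : ℝ) < N := by exact_mod_cast (by omega : 0 < N)
  have hN4 : 4 / (N : ℝ) < ε / 4 := by
    have := (div_lt_iff₀ hε).1 ((le_max_right _ _).trans_lt hN)
    rw [div_lt_iff₀ hN0]
    linarith
  obtain ⟨C, hC⟩ : ∃ C : ℝ, C = (2 * (16 * N.factorial ^ 2) : ℕ) := ⟨_, rfl⟩
  obtain ⟨X₀, hX⟩ := exists_nat_gt (max 0 (4 * C / ε))
  refine ⟨X₀, fun X h => ?_⟩
  have h0 : (X₀ : ℝ) ≤ X := by exact_mod_cast h
  have h1 : (0 : ℝ) < X := ((le_max_left _ _).trans_lt hX).trans_le h0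
  have h2 : C < ε / 4 * X := by
    have := (div_lt_iff₀ hε).1 (((le_max_right _ _).trans_lt hX).trans_le h0)
    linarith
  have h3 : 4 * (X : ℝ) / N < ε / 4 * X := by
    rw [mul_div_right_comm]
    exact mul_lt_mul_of_pos_right hN4 h1
  have u1 := up_H hr hN3 X
  have u2 := up_H (Nat.sub_le 1 r) hN3 X
  rw [show 1 - (1 - r) = r by omega] at u2
  have u3 : ((AH r X).card : ℝ) + (AH (1 - r) X).card =
      ({D : ℤ | |D| ≤ X ∧ Squarefree D}.ncard : ℕ) := by exact_mod_cast sum_H hr X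
  have u4 := low_H X
  rw [← hC] at u1 u2
  generalize (({D : ℤ | |D| ≤ X ∧ Squarefree D}.ncard : ℕ) : ℝ) = s at *
  have h4 : 0 < s := by linarith
  have h5 : ε * (X / 4) ≤ ε * s := by gcongr
  rw [Real.dist_eq, abs_lt, lt_sub_iff_add_lt, sub_lt_iff_lt_add, lt_div_iff₀ h4, div_lt_iff₀ h4]
  constructor <;> nlinarith

theorem fifty_aux (P : ℤ → ℕ → Prop) (h : Tendsto (fun X : ℕ =>
    ({D : ℤ | |D| ≤ X ∧ Squarefree D ∧ ¬ P D (par D)}.ncard : ℝ) / X) atTop (𝓝 0)) {r : ℕ}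
    (hr : r ≤ 1) : Tendsto (fun X : ℕ =>
      ({D : ℤ | |D| ≤ X ∧ Squarefree D ∧ par D = r ∧ P D r}.ncard : ℝ) /
        {D : ℤ | |D| ≤ X ∧ Squarefree D}.ncard) atTop (𝓝 (1 / 2)) := by
  have h1 := half_H hr
  have h2 := h1.sub (h.const_mul 4)
  rw [mul_zero, sub_zero] at h2
  have e : ∀ X : ℕ, (AH r X).card = {D : ℤ | |D| ≤ X ∧ Squarefree D ∧ par D = r}.ncard :=
    fun X => by
    rw [← Set.ncard_coe_finset]
    congr 1
    ext D
    simp only [AH, coe_filter, mem_Icc, Set.mem_ofPred_eq, abs_le]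
  refine tendsto_of_tendsto_of_tendsto_of_le_of_le' h2 h1 ?_ (Eventually.of_forall fun X => ?_)
  · filter_upwards [eventually_gt_atTop 0] with X hX
    have a0 : (0 : ℝ) < X := by exact_mod_cast hX
    have a1 := low_H X
    have a2 : (AH r X).card ≤ {D : ℤ | |D| ≤ X ∧ Squarefree D ∧ par D = r ∧ P D r}.ncard +
        {D : ℤ | |D| ≤ X ∧ Squarefree D ∧ ¬ P D (par D)}.ncard := by
      rw [e]
      refine le_trans (Set.ncard_le_ncard ?_ ((fin_H X _).union (fin_H X _)))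
        (Set.ncard_union_le _ _)
      rintro D ⟨a1, a2, a3⟩
      by_cases a4 : P D r
      · exact Or.inl ⟨a1, a2, a3, a4⟩
      · exact Or.inr ⟨a1, a2, a3 ▸ a4⟩
    have a3 := (Nat.cast_le (α := ℝ)).2 a2
    rw [Nat.cast_add] at a3
    generalize (({D : ℤ | |D| ≤ X ∧ Squarefree D}.ncard : ℕ) : ℝ) = s at *
    have a4 : 0 < s := by linarith
    have a5 : (({D : ℤ | |D| ≤ X ∧ Squarefree D ∧ ¬ P D (par D)}.ncard : ℕ) : ℝ) / s ≤
        4 * ((({D : ℤ | |D| ≤ X ∧ Squarefree D ∧ ¬ P D (par D)}.ncard : ℕ) : ℝ) / X) :=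
      (div_le_div_of_nonneg_left (Nat.cast_nonneg _) (by linarith) a1).trans
        (le_of_eq (by field_simp))
    have a6 := div_le_div_of_nonneg_right a3 a4.le
    rw [add_div] at a6
    linarith
  · refine div_le_div_of_nonneg_right ?_ (Nat.cast_nonneg _)
    rw [Nat.cast_le, e]
    exact Set.ncard_le_ncard (fun D hD => ⟨hD.1, hD.2.1, hD.2.2.1⟩) (fin_H X _)

theorem fifty_ok (r : ℕ) (hr : r ≤ 1) : Tendsto (fun X : ℕ =>
    ({D : ℤ | |D| ≤ X ∧ Squarefree D ∧ par D = r ∧ ∃ C : ℕ, ∀ k : ℕ,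
      2 ^ (k * r) ≤ (shaTors (EZ D) (2 ^ k)).encard *
        2 ^ (k * Module.finrank ℤ (EZ D).toAffine.Point) ∧
      (shaTors (EZ D) (2 ^ k)).encard * 2 ^ (k * Module.finrank ℤ (EZ D).toAffine.Point) ≤
        C * 2 ^ (k * r)}.ncard : ℝ) / {D : ℤ | |D| ≤ X ∧ Squarefree D}.ncard)
    atTop (nhds (1 / 2)) :=
  fifty_aux (fun D r => ∃ C : ℕ, ∀ k : ℕ,
      2 ^ (k * r) ≤ (shaTors (EZ D) (2 ^ k)).encard *
        2 ^ (k * Module.finrank ℤ (EZ D).toAffine.Point) ∧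
      (shaTors (EZ D) (2 ^ k)).encard * 2 ^ (k * Module.finrank ℤ (EZ D).toAffine.Point) ≤
        C * 2 ^ (k * r)) main_ok hr

end Pool.Agent.MP_e23604_nt.R

end
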