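import Pool.Agent.Mg.Fe23604m.Gd767a4

set_option linter.all false

section

set_option autoImplicit false

open Finset Filter QuadraticAlgebra
open scoped Classical

namespace Pool.Agent.MP_e23604_nt.V

open B R S W

theorem triv_MEXS {R : Type} [CommRing R] {t u : R} (s v : R) {l : ℕ} (ht : t = 1) (hu : u = 1)
    (hl : (l : R) + 1 = 0) : (1 - t) * s + (u - ∑ i ∈ range (nn (-(l : Zw))), t ^ i) * v = 0 := by
  simp only [ht, hu, one_pow, sum_const, card_range, nsmul_one, nn_neg, nn_nat]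
  push_cast
  linear_combination (1 - (l : R)) * v * hl

theorem co_MEXS {J R : Type} [CommRing R] [i : DecidableEq J] (j : J) (x : J →₀ R) :
    ev (Pi.single j 1) x = x j := by
  obtain rfl : i = fun a b => Classical.propDecidable (a = b) := Subsingleton.elim _ _
  exact ev_coord j x

/-- the values predicted by the universal forms -/
noncomputable def sv_MEXS {Λ : Type} [CommRing Λ] (Z : Mx Λ) (ε : Bool) (A : Finset JJ)
    (x : JJ →₀ Λ) (n : ℕ) (g : GQ) : Λ := ∑ j ∈ A, Z.wf ε n g (jn n j) * x j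

theorem fm_MEXS {Λ : Type} [CommRing Λ] (Z : Mx Λ) (ε : Bool) {A : Finset JJ} {x : JJ →₀ Λ}
    (hx : x.support ⊆ A) (g : GG) :
    ev (Z.fm ε g) x = Z.E.L fun n => sv_MEXS Z ε A x n (g n) := by
  simp only [ev_apply _ x hx, sv_MEXS, Z.E.L_sum, Z.E.L_mul, Z.E.const, Mx.fm]

theorem lev_MEXS (hY : HY) (hTRM : TRM_st) (hTHA : THA_st) (hTHB : THB_st) (hLOA : LOA_st)
    {Λ : Type} [CommRing Λ] (Z : Mx Λ) (ε : Bool) {A : Finset JJ} (x : JJ →₀ Λ) {n : ℕ}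
    {b : Ideal Λ} (hZ : Z.Ok) (hA : Z.Ad A) (hG : Z.Gd A n) (hb : Z.E.m ^ n ≤ b)
    (hq : x Z.qg ∈ b ∨ Z.E.T ∈ b)
    (h3 : ∀ t, ∑ i, Z.F ε n t i * sv_MEXS Z ε A x n (Z.y i) ∈ b)
    (hr : ∀ ϖ ∈ Tr Z.r, (1 - Z.th ε n (Z.K.τ ϖ)) * sv_MEXS Z ε A x n (Z.K.σ ϖ) +
      (Z.th ε n (Z.K.σ ϖ) - ∑ i ∈ range (nn ϖ), Z.th ε n (Z.K.τ ϖ) ^ i) * x (cs ϖ) ∈ b) :
    ∃ f, Zf (Z.th ε n) (Rn A n) b f ∧ Z.Kl ε n b f ∧ ∀ j ∈ A, f (Z.gj j n) - x j ∈ b := by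
  have h0 := hZ.toOk0
  have hD := h0.toOk
  obtain ⟨-, -, -, -, -, a1, a2⟩ := hTHA Λ Z.toDt n hD
  obtain ⟨hch, hmu, hth, -⟩ := a1 ε
  obtain ⟨hfin, -, hnil⟩ := a2 b hb
  obtain ⟨-, -, b3, b4, -, b6⟩ := hTHB Λ Z.toDt n hD
  obtain ⟨-, b7, b8, -⟩ := b6 ε
  obtain ⟨-, -, -, -, t5⟩ := hTRM Z.r (hD.tw ε).sf.ne_zero (hD.tw ε).n3
  set π := Ideal.Quotient.mk b
  have z0 : ∀ {a}, π a = 0 ↔ a ∈ b := Ideal.Quotient.eq_zero_iff_mem
  have z1 : ∀ a ∈ Z.E.m ^ n, π a = 0 := fun a h => z0.2 (hb h)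
  have z2 : ∀ {a}, a - 1 ∈ Z.E.m ^ n → π a = 1 := fun h => by
    simpa [sub_eq_zero] using z1 _ h
  have z3 : ∀ l : ℕ, 3 ^ (n + 3) * Z.r ∣ l + 1 → (l : Λ ⧸ b) + 1 = 0 := by
    rintro l ⟨c, hc⟩
    have h1 := z1 _ (Ideal.pow_mem_pow Z.E.three_mem n)
    have h2 := congrArg (Nat.cast : ℕ → Λ ⧸ b) hc
    rw [map_pow, map_ofNat] at h1
    push_cast at h2
    rw [h2, pow_add, h1, zero_mul, zero_mul, zero_mul]
  have n3 : IsNilpotent (3 : Λ ⧸ b) := map_ofNat π 3 ▸ hnil 3 Z.E.three_mem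
  have hu : ∀ g ∈ GK, IsNilpotent (π (Z.th ε n g) - 1) := fun g hg => by
    simpa using hnil _ (hth g hg).1
  obtain ⟨X, hX⟩ : ∃ X : Bool ⊕ Zw → Λ, ∀ j ∈ A, X (jn n j) = x j :=
    ⟨fun i => x (Function.invFunOn (jn n) A i), fun j hj =>
      congrArg x (hG.inj.leftInvOn_invFunOn hj)⟩
  obtain ⟨a, ha⟩ := (hZ.row ε n).2 b hb _ h3
  obtain ⟨l1, -⟩ := hLOA Λ Z ε n _ π h0 z1
  have hκ : Co (fun g => π (Z.th ε n g)) V3.D fun g => π (∑ i, a i * Z.lo ε n i g) := by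
    simp only [Fin.sum_univ_two, map_add, map_mul]
    refine ⟨(l1 0).1.map₂ (l1 1).1 fun u v => π (a 0) * u + π (a 1) * v, fun g hg h hh => ?_⟩
    linear_combination π (a 0) * (l1 0).2 g hg h hh + π (a 1) * (l1 1).2 g hg h hh
  have hm : Tm (Tn A n) Z.K.V Z.K.σ Z.K.τ := fun ϖ h => ⟨hG.pp ϖ h, hD.pk.tm ϖ (hG.pp ϖ h)⟩
  have hqT := hG.sub (mem_insert_self _ _)
  have hqA : Z.qg ∈ A := hA.1 (mem_insert_self _ _)
  have hcA : ∀ ϖ ∈ Tr Z.r, cs ϖ ∈ A := fun ϖ h =>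
    hA.1 (mem_insert_of_mem (mem_union_right _ (mem_image_of_mem _ h)))
  have hun : Unr (3 * ∏ ϖ ∈ Tn A n, ϖ) fun g => π (Z.th ε n g) - 1 := fun W hW τ hτ => by
    refine sub_eq_zero.2 (z2 (hch.2 τ (b3 W (fun e => hW ?_) hτ)))
    rw [Nat.cast_mul, ← mul_assoc, Ov_mul, ← t5] at e
    rcases e with e | e
    · exact e.dvd (mul_dvd_mul_left _ (prod_dvd_prod_of_subset _ _ _
        ((subset_insert _ _).trans hG.sub)))
    · exact e.dvd ((dvd_neg.2 dvd_rfl).trans ((dvd_prod_of_mem _ hqT).mul_left _))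
  have hU : ∀ (R' : Type) [CommRing R'] (π' : Λ ⧸ b →+* R') (c : GQ → R'),
      Co (fun g => π' (π (Z.th ε n g))) GK c → Unr (3 * ∏ ϖ ∈ Tn A n, ϖ) c →
      c (Z.x true) = π' (π (X (.inl true))) → c (Z.x false) = π' (π (X (.inl false))) →
      (∀ ϖ ∈ Tn A n, c (Z.K.τ ϖ) = π' (π (X (.inr ϖ)))) →
      (∀ ϖ ∈ Tn A n, c (Z.K.σ ϖ) = π' (π (sv_MEXS Z ε A x n (Z.K.σ ϖ)))) ∧
        ∀ i, c (Z.y i) = π' (π (∑ j, a j * Z.lo ε n j (Z.y i))) := by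
    intro R' _ π' c c1 c2 c3 c4 c5
    have e : ∀ g ∈ GK, c g = π' (π (sv_MEXS Z ε A x n g)) := fun g hg => by
      have e1 : sv_MEXS Z ε A x n g =
          ∑ i ∈ (univ : Finset Bool).disjSum (Tn A n), Z.wf ε n g i * X i := by
        rw [← hG.img, sum_image hG.inj]
        exact sum_congr rfl fun j hj => by rw [hX j hj]
      rw [hZ.uni ε n _ hG.pp hG.sub R' (π'.comp π) c (fun a h => by simp [z1 a h]) c1 c2 g hg, e1,
        map_sum, map_sum]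
      refine sum_congr rfl fun i hi => ?_
      rw [map_mul, map_mul]
      congr 1
      rcases i with (_ | _) | ϖ
      exacts [c4, c3, c5 ϖ (inr_mem_disjSum.1 hi)]
    exact ⟨fun ϖ _ => e _ (hD.pk.gk ϖ).1, fun i => (e _ (V3.D_le (h0.yD i))).trans
      (congrArg π' (Ideal.Quotient.eq.2 (ha i)))⟩
  have hrel : ∀ ϖ ∈ Tn A n, ϖ ≠ -(Z.q n : Zw) →
      (1 - π (Z.th ε n (Z.K.τ ϖ))) * π (sv_MEXS Z ε A x n (Z.K.σ ϖ)) + (π (Z.th ε n (Z.K.σ ϖ)) -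
        ∑ i ∈ range (nn ϖ), π (Z.th ε n (Z.K.τ ϖ)) ^ i) * π (X (.inr ϖ)) = 0 := by
    intro ϖ h e
    by_cases e' : ϖ ∈ Tr Z.r
    · rw [← hG.cs ϖ e', hX _ (hcA ϖ e')]
      simpa using z0.2 (hr ϖ e')
    obtain ⟨j, hj, e1⟩ := mem_image.1 (hG.img.ge (inr_mem_disjSum.2 h))
    obtain ⟨l, e2, l1, l2, l3⟩ := hG.aux j hj fun e3 => by
      rcases mem_insert.1 e3 with rfl | e3
      · exact e (Sum.inr_injective (e1.symm.trans hG.q))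
      rcases mem_union.1 e3 with e3 | e3
      · rcases mem_insert.1 e3 with rfl | e3
        · cases e1
        · rw [mem_singleton.1 e3] at e1
          cases e1
      · obtain ⟨ϖ', e4, rfl⟩ := mem_image.1 e3
        exact e' (Sum.inr_injective ((hG.cs ϖ' e4).symm.trans e1) ▸ e4)
    obtain rfl := Sum.inr_injective (e1.symm.trans e2)
    obtain ⟨m1, -, -, m2⟩ := b4 l l1 l2
    have m3 := (m2 _ (hD.pk.ine l l1 m1).1).2 l3
    obtain ⟨-, -, m4, m5, -⟩ := hm _ h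
    exact triv_MEXS _ _ (z2 (hch.2 _ (m3 (Plc.I_le _ m5)))) (z2 (hch.2 _ (m3 m4.1))) (z3 l l2)
  obtain ⟨c, c1, c2, c3, c4, c5, c6⟩ : ∃ c, Co (fun g => π (Z.th ε n g)) GK c ∧
      Unr (3 * ∏ ϖ ∈ Tn A n, ϖ) c ∧ c (Z.x true) = π (X (.inl true)) ∧
      c (Z.x false) = π (X (.inl false)) ∧ (∀ ϖ ∈ Tn A n, c (Z.K.τ ϖ) = π (X (.inr ϖ))) ∧
      ∀ g ∈ V3.D, c g = π (∑ i, a i * Z.lo ε n i g) := by
    rcases hq with hq | hq
    · obtain ⟨-, m1, m2⟩ := hD.pk.ine _ (hD.qp n) (b4 _ (hD.qp n) (hD.qd n)).1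
      obtain ⟨-, c, c1, c2, c3, c4, c5, -, c6⟩ := hY.KOQ _ _ _ _ _ _ _ _ _ (h0.xK _) (h0.xK _) h0.x1
        h0.x2 h0.x3 hm hqT m1 m2 ⟨h0.yD, h0.dm⟩ _ _ _ _ _ (fun ϖ => π (X (.inr ϖ))) _ n3
        (hmu _ π z1) hu hun (z2 b8) (by rw [← hG.q, hX _ hqA, z0.2 hq]) hκ hrel hU
      exact ⟨c, c1, c2, c3, c4, c5, c6⟩
    · obtain ⟨c, c1, c2, c3, c4, c5⟩ := KOCH_pf TPR_ok R2_ok KGEN_ok CNJ_ok PLK_ok LIN_ok _ _ _ _ _ _
        (h0.xK _) (h0.xK _) h0.x1 h0.x2 h0.x3 hm _ _ _ _ (fun ϖ => π (X (.inr ϖ)))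
        (fun ϖ => π (sv_MEXS Z ε A x n (Z.K.σ ϖ))) n3 (hmu _ π z1) hu hun (fun ϖ h => by
          by_cases e : ϖ = -(Z.q n : Zw)
          · subst e
            refine triv_MEXS _ _ ?_ (z2 b8) (z3 _ (hD.qd n))
            simpa [z0.2 hq, sub_eq_zero] using z1 _ b7
          · exact hrel ϖ h e) fun R' _ π' c c1 c2 c3 c4 c5 => (hU R' π' c c1 c2 c3 c4 c5).1
      exact ⟨c, c1, c2, c3, c4, c5, D4.ext ⟨h0.yD, h0.dm⟩ n3 (fun g hg => hu g (V3.D_le hg))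
        (c1.monoK V3.D_le) hκ (hU _ (RingHom.id _) c c1 c2 c3 c4 c5).2⟩
  choose f hf using fun g => Ideal.Quotient.mk_surjective (c g)
  refine ⟨f, ⟨(funext hf : _ = c) ▸ c1, fun g hg => z0.1 ((hf g).trans (unr_iff.1 c2 g hg))⟩,
    ⟨a, fun g hg => Ideal.Quotient.eq.1 ((hf g).trans (c6 g hg))⟩,
    fun j hj => Ideal.Quotient.eq.1 ((hf _).trans ?_)⟩
  have hi := hG.img.le (mem_image_of_mem _ hj)
  rw [← hX j hj, Mx.gj]
  generalize jn n j = i at hi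
  rcases i with (_ | _) | ϖ
  exacts [c4, c3, c5 ϖ (inr_mem_disjSum.1 hi)]

theorem EXS_pf (hY : HY) (hTRM : TRM_st) (hTHA : THA_st) (hTHB : THB_st) (hGER : GER_st) (hLOA : LOA_st) : EXS_st := by
  intro Λ _ _ Z ε P A x hZ hA hx hq h3 hr
  obtain ⟨κ, k1, k2⟩ := diag (G := fun n k => ∃ f, Zf (Z.th ε n) (Rn A n) (P ⊔ Z.E.m ^ k) f ∧
      Z.Kl ε n (P ⊔ Z.E.m ^ k) f ∧ ∀ j ∈ A, f (Z.gj j n) - x j ∈ P ⊔ Z.E.m ^ k)
    (fun n => ⟨0, Zf.zero _ _ _, ⟨0, fun g _ => by simp⟩, fun j _ => by simp⟩) fun k => by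
      have e1 : ∀ t, ∀ᶠ n in uf, ∑ i, Z.F ε n t i * sv_MEXS Z ε A x n (Z.y i) ∈ P ⊔ Z.E.m ^ k :=
        fun t => by
        refine (Z.E.mem_iff P _).1 ?_ k
        have := h3 t
        simp only [Mx.w, Fin.sum_univ_four, ev_add, ev_smul, fm_MEXS Z ε hx] at this
        simpa only [Fin.sum_univ_four, Z.E.L_add, Z.E.L_mul] using this
      have e2 : ∀ ϖ ∈ Tr Z.r, ∀ᶠ n in uf,
          (1 - Z.th ε n (Z.K.τ (sq ϖ n))) * sv_MEXS Z ε A x n (Z.K.σ (sq ϖ n)) +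
            (Z.th ε n (Z.K.σ (sq ϖ n)) - ∑ i ∈ range (nn (sq ϖ n)), Z.th ε n (Z.K.τ (sq ϖ n)) ^ i) *
              x (cs ϖ) ∈ P ⊔ Z.E.m ^ k := fun ϖ h => by
        refine (Z.E.mem_iff P _).1 ?_ k
        have := hr (cs ϖ) (by
          rw [Mx.Sg, Mx.Bg, ← image_union, Sz, Bz, filter_union_filter_not_eq]
          exact mem_image_of_mem _ h)
        rw [Mx.rel, ev_add, ev_smul, ev_smul, co_MEXS, fm_MEXS Z ε hx] at this
        rw [Z.E.L_add, Z.E.L_mul, Z.E.L_mul, Z.E.L_sub, Z.E.const, Z.E.const]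
        exact this
      filter_upwards [(hGER Λ Z hZ.toOk0).2.1 A hA, uf_le (eventually_ge_atTop k),
        eventually_all.2 e1, (eventually_all_finset _).2 e2] with n g1 g2 g3 g4
      refine lev_MEXS hY hTRM hTHA hTHB hLOA Z ε x hZ hA g1 (Z.E.le_sup P g2)
        (hq.imp Ideal.mem_sup_left Ideal.mem_sup_left) g3 fun ϖ h => ?_
      have := g4 ϖ h
      rwa [show sq ϖ n = ϖ from Sum.inr_injective (g1.cs ϖ h)] at this
  choose f f1 f2 f3 using fun n => (k2 n).2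
  refine ⟨f, ⟨κ, k1, fun n => ⟨(k2 n).1, f1 n, f2 n⟩⟩, hx, fun j hj => ?_⟩
  have := Z.E.mem_of k1 fun n => f3 n j hj
  rw [Z.E.L_sub, Z.E.const] at this
  exact sub_mem_comm_iff.1 this

end Pool.Agent.MP_e23604_nt.V

end

section

set_option autoImplicit false

open Finset Filter QuadraticAlgebra
open scoped Classical

namespace Pool.Agent.MP_e23604_nt.V

open B R S W

theorem one_MHSB {χ : GQ → ZMod 3} {r : ℕ} (tw : Tw χ r) (h : HSt χ r) : ∃ c : ℕ,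
    ∀ (R : Type) [CommRing R] (φ : Zw →+* R) (k : ℕ) (M : Zw) (x : GQ → R), Qt φ (pw ^ k) →
      M ≠ 0 → (9 * r : Zw) ∣ M → 3 ^ k ∣ M → Co (lamZ φ χ M) GK x → Unr (3 * r) x →
      (∀ g ∈ V3.D, x g = 0) → ∀ g ∈ GK, 3 ^ c * x g = 0 := by
  obtain ⟨k₀, hB⟩ := h
  refine ⟨k₀, fun R _ φ k M x hφ hM h9 h3 hx hu hD u hU => ?_⟩
  have p0 : pw ^ k ≠ 0 := pow_ne_zero k pw_ne
  have p3 : pw ^ k ∣ 3 ^ k := pow_dvd_pow_of_dvd pw_dvd3 k
  obtain ⟨-, l2, -⟩ := LZ_ok χ r M tw hM h9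
  obtain ⟨G, hG⟩ := (CYG_ok _ p0).1
  obtain ⟨i, i1, i2, i3⟩ := i_HBR hφ hG
  have i4 : ∀ g ∈ GK, ∀ y, i (lamZ φ χ M g * y) = eta χ g (i y) := fun g hg y => by
    rw [lamZ, i1, l2 g hg _ (dvd_smul (i2 y) (p3.trans h3))]
  have f := hB k (fun g => i (x g)) ⟨hx.1.map i, fun g hg g' hg' => by
      rw [← i4 g hg, ← map_add]
      exact congrArg i (hx.2 g hg g' hg')⟩
    (fun V hV τ hτ => by simp only [hu V hV τ hτ, map_zero])
    (fun g hg => by simp only [hD g hg, map_zero]) (fun g _ => by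
      rw [← Nat.cast_smul_eq_nsmul Zw, Nat.cast_pow, Nat.cast_ofNat]
      exact dvd_smul (i2 _) p3) u hU
  refine i3 _ ?_
  rw [← f, ← map_nsmul, nsmul_eq_mul, Nat.cast_pow, Nat.cast_ofNat]

theorem two_MHSB {χ : GQ → ZMod 3} {r : ℕ} (tw : Tw χ r) (h : HB χ r) : ∃ c : ℕ,
    ∀ (R : Type) [CommRing R] (φ : Zw →+* R) (k : ℕ) (M b : Zw) (x : GQ → R) (P : Fin 2 → Pt)
      (a : Fin 2 → R), Qt φ (pw ^ k) → M ≠ 0 → (9 * r : Zw) ∣ M → 3 ^ (k + 1) ∣ M → b ≠ 0 →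
      Co (lamZ φ χ M) GK x → Unr (3 * r) x → (∀ i, Fx χ V3.D (P i)) →
      (∀ g ∈ V3.D, x g = ∑ i, a i * N.dl φ (b * pw ^ k) χ g (P i)) →
      ∃ m, ∀ g ∈ GK, 3 ^ c * x g = (lamZ φ χ M g - 1) * m := by
  obtain ⟨k₀, hB⟩ := h
  refine ⟨k₀ + 3, fun R _ φ k M b x Q a hφ hM h9 h3 hb hx hu hQ hD => ?_⟩
  have p0 : pw ^ k ≠ 0 := pow_ne_zero k pw_ne
  have p3 : pw ^ k ∣ 3 ^ k := pow_dvd_pow_of_dvd pw_dvd3 k
  have p4 : pw ^ k ∣ 3 ^ (k + 1) := p3.trans (pow_dvd_pow _ k.le_succ)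
  have b0 := mul_ne_zero hb p0
  obtain ⟨-, l2, -⟩ := LZ_ok χ r M tw hM h9
  obtain ⟨G, hG⟩ := (CYG_ok _ p0).1
  obtain ⟨i, i1, i2, i3⟩ := i_HBR hφ hG
  have i4 : ∀ g ∈ GK, ∀ y, i (lamZ φ χ M g * y) = eta χ g (i y) := fun g hg y => by
    rw [lamZ, i1, l2 g hg _ (dvd_smul (i2 y) (p4.trans h3))]
  have i5 : ∀ u, i (φ u) = u • i 1 := fun u => by rw [← i1, mul_one]
  have i6 : W.Gen (pw ^ k) (i 1) := fun u => by
    rw [← i5, ← hφ.ker]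
    exact ⟨i3 _, fun e => by rw [e, map_zero]⟩
  have hq : W.Gen (b * pw ^ k) (N.gq (b * pw ^ k)) := Classical.epsilon_spec (CYG_ok _ b0).1
  have hd : ∀ S, (b * pw ^ k) • N.dv (b * pw ^ k) S = S := fun S =>
    Classical.epsilon_spec (smul_onto b0 S)
  obtain ⟨v, hv⟩ := (CYG_ok _ p0).2.1 _ (hq.smul hb) (i 1) (i2 1)
  have cz : Cz χ GK fun g => i (3 * x g) := ⟨hx.1.map fun y => i (3 * y), fun g hg g' hg' => by
    rw [← i4 g hg, ← map_add]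
    exact congrArg i (by linear_combination 3 * hx.2 g hg g' hg')⟩
  have b3 : W.Bz χ V3.D fun g => i (3 * x g) := by
    choose a' ha' using fun t => hφ.sur (3 * a t)
    refine ⟨∑ t, (a' t * v * b) • N.dv (b * pw ^ k) (Q t), fun g hg => ?_⟩
    have hk := V3.D_le hg
    show i (3 * x g) = _
    rw [hD g hg, mul_sum, map_sum, map_sum, ← sum_sub_distrib]
    refine sum_congr rfl fun t _ => ?_
    have e := co_spec ((CYG_ok _ b0).2.1 _ hq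
      (eta χ g (N.dv (b * pw ^ k) (Q t)) - N.dv (b * pw ^ k) (Q t))
      (by rw [smul_sub, ← eta_smul χ hk, hd, hQ t g hg, sub_self]))
    rw [← mul_assoc, ← ha', i1, N.dl, i5, hv, eta_smul χ hk, ← smul_sub]
    conv_rhs => rw [e]
    simp only [smul_smul]
    congr 1
    ring
  obtain ⟨P, ⟨e, he⟩, hP⟩ := hB k (fun g => i (3 * x g))
    ⟨cz, fun V hV τ hτ => by simp only [hu V hV τ hτ, mul_zero, map_zero], fun V hV => by
      rcases Ov_mul.1 hV with h | h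
      · exact (BZC_ok χ _ tw.add).2 V3 V pw cz pw_prime (Ov_three.1 V3_three) (Ov_three.1 h) b3
      · obtain ⟨m, hm⟩ := RST_pf H5_ok R φ χ r (k + 1) M V x tw (by omega) hM h9 h3
          (by rw [← map_ofNat φ 3, ← map_pow, hφ.ker]; exact p4) h
          ⟨hx.1.mono V.D_le, fun g hg g' hg' => hx.2 g (V.D_le hg) g' (V.D_le hg')⟩
        exact ⟨i m, fun g hg => by
          rw [← i4 g (V.D_le hg), ← map_sub]
          exact congrArg i (by linear_combination hm g hg)⟩⟩ fun g _ => by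
      rw [← Nat.cast_smul_eq_nsmul Zw, Nat.cast_pow, Nat.cast_ofNat]
      exact dvd_smul (i2 _) p3
  rw [← Nat.cast_smul_eq_nsmul Zw, Nat.cast_pow, Nat.cast_ofNat] at he
  have n9 := nine_HBR SURJ_ok (χ := χ) (P := pw ^ k • P) (e := e)
    (by rw [smul_comm, he, smul_zero]) fun g hg => by
      rw [eta_smul χ hg, ← sub_eq_zero, ← smul_sub, ← hP g hg, smul_comm, i2, smul_zero]
  rw [smul_comm] at n9
  obtain ⟨u, hu9⟩ := (CYG_ok _ p0).2.1 _ i6 _ n9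
  refine ⟨φ u, fun g hg => sub_eq_zero.1 (i3 _ ?_)⟩
  have f2 : (9 : Zw) • (3 ^ k₀ • i (3 * x g)) = eta χ g ((9 : Zw) • P) - (9 : Zw) • P := by
    rw [hP g hg, smul_sub, eta_smul χ hg]
  rw [hu9, ← i5, ← i4 g hg, ← Nat.cast_smul_eq_nsmul Zw, ← i1, ← i1, map_natCast, map_ofNat,
    ← sub_eq_zero, ← map_sub, ← map_sub] at f2
  rw [← f2]
  congr 1
  push_cast
  ring

theorem HSB_pf (hY : HY) (hTHA : THA_st) (hTHB : THB_st) : HSB_st := by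
  intro Λ _ Z ε ok
  have tw := ok.tw ε
  have r0 : (Z.r : Zw) ≠ 0 := Nat.cast_ne_zero.2 tw.sf.ne_zero
  have M0 : ∀ n, ML Z.r n ≠ 0 := fun n =>
    mul_ne_zero (pow_ne_zero _ (by decide)) (mul_ne_zero (by decide) r0)
  have M3 : ∀ n k, k ≤ n → (3 : Zw) ^ (k + 1) ∣ ML Z.r n := fun n k h =>
    (pow_dvd_pow _ (by omega)).mul_right _
  have key : ∀ n k f, k ≤ n → Zf (Z.th ε n) (Ru (3 * Z.r)) (Z.tn k) f →
      Qt ((Ideal.Quotient.mk (Z.tn k)).comp (Z.ph ε)) (pw ^ k) ∧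
      (∀ g ∈ GK, Ideal.Quotient.mk (Z.tn k) (Z.th ε n g) =
        lamZ ((Ideal.Quotient.mk (Z.tn k)).comp (Z.ph ε)) (Z.χ ε) (ML Z.r n) g) ∧
      Co (lamZ ((Ideal.Quotient.mk (Z.tn k)).comp (Z.ph ε)) (Z.χ ε) (ML Z.r n)) GK
        (fun g => Ideal.Quotient.mk (Z.tn k) (f g)) ∧
      Unr (3 * Z.r) fun g => Ideal.Quotient.mk (Z.tn k) (f g) := fun n k f hk hf => by
    obtain ⟨-, -, a3, -, -, -, -, a8⟩ := (hTHA Λ Z.toDt n ok.toOk).2.2.2.2.2.1 ε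
    have e : ∀ g ∈ GK, Ideal.Quotient.mk (Z.tn k) (Z.th ε n g) =
        lamZ ((Ideal.Quotient.mk (Z.tn k)).comp (Z.ph ε)) (Z.χ ε) (ML Z.r n) g := fun g hg =>
      Ideal.Quotient.eq.2 (Ideal.mem_sup_left (Ideal.mem_span_singleton.2 (a3 g hg).2.2))
    exact ⟨a8 k hk, e, ⟨hf.1.1, fun g hg h hh => by rw [← e g hg]; exact hf.1.2 g hg h hh⟩,
      unr_iff.2 fun g hg => Ideal.Quotient.eq_zero_iff_mem.2 (hf.2 g hg)⟩
  refine ⟨fun h => ?_, fun h => ?_⟩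
  · obtain ⟨c, hc⟩ := one_MHSB tw h
    refine ⟨c, fun n k f hk hf hD g hg => ?_⟩
    obtain ⟨a1, -, a3, a4⟩ := key n k f hk hf
    have := hc _ _ k _ _ a1 (M0 n) (Dvd.intro_left _ rfl)
      ((pow_dvd_pow _ k.le_succ).trans (M3 n k hk)) a3 a4
      (fun g hg => Ideal.Quotient.eq_zero_iff_mem.2 (hD g hg)) g hg
    rw [← Ideal.Quotient.eq_zero_iff_mem, map_mul, map_pow, map_ofNat]
    exact this
  · obtain ⟨c, hc⟩ := two_MHSB tw h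
    refine ⟨c, fun n k f hk hf ⟨a, ha⟩ => ?_⟩
    obtain ⟨a1, a2, a3, a4⟩ := key n k f hk hf
    obtain ⟨b, hb⟩ : pw ^ k ∣ 3 ^ (n + 1) :=
      (pow_dvd_pow_of_dvd pw_dvd3 k).trans (pow_dvd_pow _ (by omega))
    rw [mul_comm] at hb
    obtain ⟨m, hm⟩ := hc _ _ k _ b _ (Z.P ε) (fun i => Ideal.Quotient.mk (Z.tn k) (a i)) a1 (M0 n)
      (Dvd.intro_left _ rfl) (M3 n k hk)
      (left_ne_zero_of_mul (hb ▸ pow_ne_zero _ (by decide))) a3 a4 (ok.lb ε).fx fun g hg => by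
        have := Ideal.Quotient.eq.2 (ha g hg)
        rw [map_sum] at this
        rw [← hb]
        exact this.trans (sum_congr rfl fun i _ => map_mul _ _ _)
    obtain ⟨m, rfl⟩ := Ideal.Quotient.mk_surjective m
    refine ⟨m, fun g hg => Ideal.Quotient.eq.1 ?_⟩
    rw [map_mul, map_mul, map_pow, map_ofNat, map_sub, map_one, a2 g hg]
    exact hm g hg

end Pool.Agent.MP_e23604_nt.V

end
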