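import Pool.Agent.Mg.Fe23604m.G256ad4

set_option linter.all false

/-!
The rows at three are rows of the pencil.
-/

set_option autoImplicit false

open Finset Filter QuadraticAlgebra
open scoped Classical

namespace Pool.Agent.MP_e23604_nt.PH

open B R S W V

theorem dt_PnRws {J R : Type} [CommRing R] {w w' : J → J → R} {i₁ i₂ : J} (h : i₁ ≠ i₂)
    {p q r s : R} (h1 : w i₁ = p • w' i₁ + q • w' i₂) (h2 : w i₂ = r • w' i₁ + s • w' i₂)
    (h3 : ∀ i, i ≠ i₁ → i ≠ i₂ → w i = w' i) {m : Finset J} (m₁ : i₁ ∈ m) (m₂ : i₂ ∈ m) :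
    dt w m = (p * s - q * r) * dt w' m := by
  set A : Matrix m m R := Matrix.of fun i j : m => w' i j with hA
  set a : m := ⟨i₁, m₁⟩ with ha
  set b : m := ⟨i₂, m₂⟩ with hb
  have hab : a ≠ b := fun e => h (congrArg Subtype.val e)
  obtain ⟨D, hD⟩ : ∃ D : (m → R) → (m → R) → R,
    ∀ x y, D x y = ((A.updateRow a x).updateRow b y).det := ⟨_, fun _ _ => rfl⟩
  have l1 : ∀ (c c' : R) x x' y, D (c • x + c' • x') y = c * D x y + c' * D x' y :=
    fun c c' x x' y => by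
      simp only [hD, Matrix.updateRow_comm _ hab, Matrix.det_updateRow_add,
        Matrix.det_updateRow_smul]
  have l2 : ∀ (c c' : R) x y y', D x (c • y + c' • y') = c * D x y + c' * D x y' :=
    fun c c' x y y' => by simp only [hD, Matrix.det_updateRow_add, Matrix.det_updateRow_smul]
  have l3 : ∀ x, D x x = 0 := fun x => by
    rw [hD]
    exact Matrix.det_zero_of_row_eq hab (by simp [Matrix.updateRow_ne hab])
  have l4 := l3 ((1 : R) • A a + (1 : R) • A b)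
  have l5 : D (A a) (A b) = dt w' m := by simp [hD, dt, ← hA]
  have l6 : dt w m = D (p • A a + q • A b) (r • A a + s • A b) := by
    rw [hD, dt]
    congr 1
    ext i j
    by_cases e : i = b
    · simp [e, hA, ha, hb, h2]
    by_cases e' : i = a
    · rw [e', Matrix.updateRow_ne hab]
      simp [hA, ha, hb, h1]
    rw [Matrix.updateRow_ne e, Matrix.updateRow_ne e', hA, Matrix.of_apply, Matrix.of_apply,
      h3 i (fun h => e' (Subtype.ext h)) fun h => e (Subtype.ext h)]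
  rw [l1, l2, l2, l3, l3, l5] at l4
  rw [l6, l1, l2, l2, l3, l3, l5]
  linear_combination q * r * l4

theorem cv_PnRws {Λ Q : Type} [CommRing Λ] [CommRing Q] (π : Λ →+* Q) (h : π 3 = 0) :
    ∃ φ : ZMod 3 →+* Q, ∀ a, π (cv a) = φ a :=
  ⟨ZMod.castHom (ringChar.dvd ((map_natCast π 3).symm.trans h)) Q,
    fun a => by rw [cv, map_natCast, ZMod.castHom_apply, ZMod.natCast_val]⟩

theorem lev_PnRws (hV : HV) (hC : COO_st) (hK : KLR_st) {Λ : Type} [CommRing Λ] {Z : Mx Λ}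
    {e : Bool} {j : ZMod 3} (hZ : Z.Ok) (hχ : ∀ g ∈ V3.D, Z.χ e g = kum 3 g + j * kum 2 g)
    (n : ℕ) (G : Bool → Fin 4 → Λ) (hG : ∀ r a, G r a = ∑ k, Z.F e n r k * cv (bs a (Z.y k)))
    (b : Ideal Λ) (h1 : Z.E.m ^ n ≤ b) (h2 : Z.E.ι pw ∈ b) :
    (∀ r, G r 0 + cv j * G r 1 ∈ b ∧ G r 2 + cv j * G r 3 ∈ b) ∧
      ∀ s t, (∀ r, G r 1 * s + G r 3 * t ∈ b) → s ∈ b ∧ t ∈ b := by
  obtain ⟨a, ha, hL⟩ := (hV.LKP _ j).1 hχ
  obtain ⟨c1, -, -, c4⟩ := hC Λ Z hZ.toOk0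
  obtain ⟨φ, hφ⟩ := cv_PnRws (Ideal.Quotient.mk b) (Ideal.Quotient.eq_zero_iff_mem.2 (c4 b h2).1)
  have hk := fun f => hK Λ Z e _ n b f hZ.toOk0 hL h1 h2
  have hy : ∀ k, Z.χ e (Z.y k) = bs 0 (Z.y k) + j * bs 1 (Z.y k) := fun k => hχ _ (hZ.yD k)
  have a2 : φ a * φ a = 1 := by
    rw [← map_mul, (by decide : ∀ a : ZMod 3, a ≠ 0 → a * a = 1) a ha, map_one]
  have k1 : ∀ r f, Z.Kl e n b f → ∑ k, Z.F e n r k * f (Z.y k) ∈ b := fun r f ⟨x, hx⟩ => by
    have := b.add_mem (b.sum_mem fun k (_ : k ∈ univ) => b.mul_mem_left (Z.F e n r k)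
      (hx _ (hZ.yD k))) (b.sum_mem fun i (_ : i ∈ univ) => b.mul_mem_left (x i)
        (h1 ((hZ.row e n).1 r i)))
    convert this using 1
    simp only [Fin.sum_univ_four, Fin.sum_univ_two]
    ring
  refine ⟨fun r => ?_, fun s t h => ?_⟩
  · have p1 := k1 r _ ((hk fun g => cv (Z.χ e g)).2 ⟨1, 0, by simp⟩)
    have p2 := k1 r _ ((hk fun g => cv (a * (bs 2 g + j * bs 3 g))).2 ⟨0, 1, by simp⟩)
    simp only [← Ideal.Quotient.eq_zero_iff_mem, hG, hy, Fin.sum_univ_four, map_add, map_mul,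
      hφ] at p1 p2 ⊢
    exact ⟨by linear_combination p1, by
      rw [← one_mul (_ + _), ← a2]
      linear_combination φ a * p2⟩
  obtain ⟨x, hx⟩ := (hZ.row e n).2 b h1 (fun k => s * cv (bs 1 (Z.y k)) + t * cv (bs 3 (Z.y k)))
    fun r => by
      convert h r using 1
      simp only [hG, Fin.sum_univ_four]
      ring
  obtain ⟨α, β, hs⟩ := (hk fun g => ∑ i, x i * Z.lo e n i g).1 ⟨x, by simp⟩
  have p := fun k => b.add_mem (hx k) (hs _ (hZ.yD k))
  have q := fun i i' => congrArg φ (c1 i i')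
  simp only [← Ideal.Quotient.eq_zero_iff_mem, hy, Fin.sum_univ_four, map_add, map_mul, map_sub,
    sub_add_sub_cancel, hφ, apply_ite φ, map_one, map_zero] at p q ⊢
  have u : ∀ i : Fin 4, Ideal.Quotient.mk b s * (if i = 1 then 1 else 0) +
      Ideal.Quotient.mk b t * (if i = 3 then 1 else 0) = Ideal.Quotient.mk b α *
        ((if i = 0 then 1 else 0) + φ j * if i = 1 then 1 else 0) + Ideal.Quotient.mk b β *
          (φ a * ((if i = 2 then 1 else 0) + φ j * if i = 3 then 1 else 0)) := fun i => by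
    rw [← q i 0, ← q i 1, ← q i 2, ← q i 3]
    linear_combination φ (cm Z.y i 0) * p 0 + φ (cm Z.y i 1) * p 1 + φ (cm Z.y i 2) * p 2 +
      φ (cm Z.y i 3) * p 3
  have u0 := u 0
  have u1 := u 1
  have u2 := u 2
  have u3 := u 3
  simp only [Fin.reduceEq, if_true, if_false] at u0 u1 u2 u3
  exact ⟨by linear_combination u1 - φ j * u0, by linear_combination u3 - φ j * u2⟩

theorem RWS_pf (hV : HV) (hC : COO_st) (hK : KLR_st) : RWS_st := by
  intro Λ R _ _ _ _ Z ϑ e j hZ hR hχ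
  obtain ⟨G, hG⟩ : ∃ G : ℕ → Bool → Fin 4 → Λ,
    ∀ n r a, G n r a = ∑ k, Z.F e n r k * cv (bs a (Z.y k)) := ⟨_, fun _ _ _ => rfl⟩
  have hl := fun n => lev_PnRws hV hC hK hZ hχ n (G n) (hG n)
  obtain ⟨-, c2, -, c4⟩ := hC Λ Z hZ.toOk0
  have z : ∀ x ∈ pI Z, ϑ x = 0 := fun x h => (hR.ker x).2 (Ideal.mem_span_singleton.1 h)
  obtain ⟨φ, hφ⟩ := cv_PnRws ϑ (z _ (c4 _ (Ideal.mem_span_singleton_self _)).1)
  obtain ⟨g, hg⟩ : ∃ g : Bool → Fin 4 → R, ∀ r a, g r a = ϑ (Z.E.L fun n => G n r a) :=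
    ⟨_, fun _ _ => rfl⟩
  have hp := fun n r => (hl n (pI Z ⊔ Z.E.m ^ n) le_sup_right
    (Ideal.mem_sup_left (Ideal.mem_span_singleton_self _))).1 r
  have hw : ∀ r, Z.wt ϑ e (.inl r) = g r 1 • ((1 : R) • Ft Z ϑ e 1 - (cv j : R) • Ft Z ϑ e 0) +
      g r 3 • ((1 : R) • Ft Z ϑ e 3 - (cv j : R) • Ft Z ϑ e 2) := fun r => by
    have p1 := z _ (Z.E.mem_of (k := id) uf_le fun n => (hp n r).1)
    have p2 := z _ (Z.E.mem_of (k := id) uf_le fun n => (hp n r).2)
    have q := fun k k' => congrArg φ (c2 k k')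
    have hj : (cv j : R) = φ j := by rw [← hφ, cv, cv, map_natCast]
    funext i
    simp only [Z.E.L_add, Z.E.L_mul, Z.E.const, map_add, map_mul, ← hg, hφ] at p1 p2
    have u : ∀ k, ϑ (Z.E.L fun n => Z.F e n r k) = ∑ a, g r a * φ (cm Z.y a k) := fun k => by
      simp only [hg, hG, Z.E.L_sum, Z.E.L_mul, Z.E.const, map_sum, map_mul, hφ, sum_mul,
        mul_assoc] at q ⊢
      rw [sum_comm]
      simp [← mul_sum, q, apply_ite φ]
    simp only [Mx.wt, Mx.w, Ft, Fc, Fin.sum_univ_four, Pi.add_apply, Pi.sub_apply, Pi.smul_apply,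
      smul_eq_mul, map_add, map_mul, hφ, u, hj]
    rw [eq_neg_of_add_eq_zero_left p1, eq_neg_of_add_eq_zero_left p2]
    ring
  have hu : IsUnit (g true 1 * g false 3 - g true 3 * g false 1) := by
    simp only [hg, ← map_mul, ← map_sub]
    refine IsUnit.map ϑ (L_unit Z.E (x := _ * _ - _ * _) ?_)
    filter_upwards [uf_le (eventually_ge_atTop 1)] with n hn h
    have k := (hl n Z.E.m (Ideal.pow_le_self (by omega))
      (Z.E.m_eq ▸ Ideal.subset_span (by simp))).2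
    simp only [Bool.forall_bool, Pi.sub_apply, Pi.mul_apply] at k h
    have k1 := k (G n false 3) (-G n false 1)
      ⟨by simp [mul_comm], by simpa [sub_eq_add_neg] using h⟩
    have k2 := k (G n true 3) (-G n true 1)
      ⟨by convert Z.E.m.neg_mem h using 1; ring, by simp [mul_comm]⟩
    exact Z.E.ne (k 1 0 ⟨by simpa using k1.2, by simpa using k2.2⟩).1
  refine ⟨_, hu, fun m hm => dt_PnRws (i₁ := .inl true) (i₂ := .inl false) (by simp) ?_ ?_
    (fun i a b => ?_) (hm (by simp [m1])) (hm (by simp [m1]))⟩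
  · rw [hw]
    simp [wp, wj]
  · rw [hw]
    simp [wp, wj]
  · simp [wp, wj, a, b]

end Pool.Agent.MP_e23604_nt.PH
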