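import Pool.Agent.Mg.Fe23604m.G6a03de
import Pool.Agent.Mg.Fe23604m.Gf509f6

set_option linter.all false

section

/-!
Families of data over the upper half plane and their transformation laws.
-/

set_option autoImplicit false

open Filter Topology Asymptotics Finset
open scoped MatrixGroups Classical

namespace Pool.Agent.MP_e23604_nt.Un

variable {N l k m : ℕ} {τ : ℂ} {p q p' q' r r' : ℤ × ℤ} {t u s z R : ℂ → ℂ} {δ ε : ℤ}
  {F G : ℤ × ℤ → ℤ × ℤ → ℂ → ℂ}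

namespace Pn

variable (hN : N ≠ 0) (a : Pn N t) (b : Pn N z)

include hN a

theorem wp' : Mr N fun τ => Un.wp (Lt τ) (t τ) := by
  obtain ⟨p, e⟩ := id a
  have n : (N : ℤ) ≠ 0 := by exact_mod_cast hN
  by_cases d : (N : ℤ) ∣ p.1 ∧ (N : ℤ) ∣ p.2
  · exact (Mr.cst 0).congr fun τ h =>
      (Lt τ).weierstrassP_coe ⟨_, e τ ▸ (lin_div_mem h n).2 d⟩
  · exact (a.wp hN fun τ h => e τ ▸ (lin_div_mem h n).not.2 d).1

theorem dA (n : ∀ τ ∈ HH, Un.wq (Lt τ) (t τ) ≠ 0) : Mr N fun τ => dA (Lt τ) (t τ) :=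
  (((Mr.cst 6).mul ((a.wp' hN).pow 2)).sub ((g2_Mr hN).div (.cst 2) fun _ _ => two_ne_zero)).div
    (a.wq hN).1 n

include b

theorem dX : Mr N fun τ => dX (Lt τ) (t τ) (z τ) := (b.wp' hN).sub (a.wp' hN)

theorem s3 : Mr N fun τ => s3 (Un.wp (Lt τ)) (t τ) (z τ) :=
  ((b.wp' hN).add ((b.add a).wp' hN)).add ((b.sub a).wp' hN)

end Pn

/-- a family of data -/
structure Fm (N : ℕ) (u s : ℂ → ℂ) : Prop where
  n0 : N ≠ 0
  pu : Pn N u
  ps : Pn N s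
  two : ∀ τ ∈ HH, Two (Lt τ) (3 * u τ) (s τ)

namespace Fm

variable (f : Fm N u s)

include f

theorem neg : Fm N u fun τ => -s τ := ⟨f.n0, f.pu, f.ps.neg, fun τ h => (f.two τ h).negQ⟩

theorem pt : Pn N fun τ => 3 * u τ := by simpa only [Nat.cast_ofNat] using f.pu.nat 3

theorem a : Mr N fun τ => dA (Lt τ) (3 * u τ) :=
  f.pt.dA f.n0 fun τ h => a3_ne (f.two τ h).P3 (f.two τ h).P0

theorem b : Mr N fun τ => dB (Lt τ) (3 * u τ) (s τ) :=
  f.a.add (((Mr.cst 3).mul (f.pt.wq f.n0).1).div (f.pt.dX f.n0 f.ps) fun τ h => (f.two τ h).x_ne)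

theorem g : Mr N fun τ => oG (Lt τ) (3 * u τ) (u τ) :=
  have w := (f.pt.s3 f.n0 f.pu).sub ((Mr.cst 3).mul (f.pt.wp' f.n0))
  have q := (f.pt.wq f.n0).1
  ((((f.a.pow 2).mul w).sub ((Mr.cst 3).mul (w.pow 2))).add (((Mr.cst 18).mul f.a).mul q)).div
    ((f.a.pow 3).sub ((Mr.cst 27).mul q)) fun τ h =>
      (f.two τ h).b_cube ▸ pow_ne_zero 3 (f.two τ h).b_ne

theorem H : Mr N fun τ => oH (Lt τ) (u τ) (s τ) :=
  have x := f.pt.dX f.n0 f.ps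
  (((x.pow 2).add (f.g.mul ((((f.ps.neg.wq f.n0).1.sub (f.a.mul (f.pt.dX f.n0 f.ps.neg))).sub
    (f.pt.wq f.n0).1).div (.cst 2) fun _ _ => two_ne_zero))).sub ((f.g.pow 2).mul x)).div x
      fun τ h => (f.two τ h).x_ne

theorem D : Mr N fun τ => oD (Lt τ) (u τ) (s τ) := f.neg.H.sub f.H

theorem X : Mr N fun τ => oX (Lt τ) (u τ) (s τ) :=
  (f.H.mul f.neg.H).div (f.D.pow 2) fun τ h => pow_ne_zero 2 (f.two τ h).oD_ne

theorem bd : Bd (fun τ => dA (Lt τ) (3 * u τ)) ∧ Bd (fun τ => dB (Lt τ) (3 * u τ) (s τ)) ∧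
    Bd fun τ => 3 * oG (Lt τ) (3 * u τ) (u τ) := by
  have b : Bd fun τ => dB (Lt τ) (3 * u τ) (s τ) := .of_pow (n := 6) (by norm_num) (Bd.congr
    ((Bd.cst (-27)).mul (Bd.pow (((f.ps.wq f.n0).2.add ((f.ps.add f.pt).wq f.n0).2).add
      ((f.ps.sub f.pt).wq f.n0).2) 2)) fun τ h => (f.two τ h).b_six)
  have c : Bd fun τ => 3 * oG (Lt τ) (3 * u τ) (u τ) := (Bd.cst 3).mul
    (Bd.of_pow three_ne_zero ((f.pt.wq f.n0).2.congr fun τ h => (f.two τ h).g_cube))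
  exact ⟨.of_pow three_ne_zero (Bd.congr ((b.pow 3).add (c.pow 3)) fun τ h => (f.two τ h).abc),
    b, c⟩

variable (hR : Pn N R) (o : ∀ τ ∈ HH, Ord (Lt τ) l (R τ))

include hR o

theorem KP (a : Pn N z) : Mr N fun τ => KP (Lt τ) (nb l (R τ)) (z τ) :=
  (Mr.prod fun k _ => (a.wp' f.n0).sub ((hR.nat k).wp' f.n0)).congr fun τ h => (o τ h).prod _

theorem KQ (a : Pn N z) : Mr N fun τ => KQ (Lt τ) (3 * u τ) (nb l (R τ)) (z τ) :=
  (Mr.prod fun k _ => (f.pt.s3 f.n0 a).sub (f.pt.s3 f.n0 (hR.nat k))).congr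
    fun τ h => (o τ h).prod _

theorem FF : Mr N fun τ => oF (Lt τ) (u τ) (s τ) (nb l (R τ)) :=
  (((f.H.pow (2 * l)).mul (f.KP hR o (f.ps.add f.pt))).mul (f.KQ hR o (f.pu.sub f.ps))).congr
    fun τ h => by rw [oF, (o τ h).card]

theorem YZ (l3 : l % 3 = 2) : Mr N (fun τ => hY (Lt τ) (u τ) (s τ) l (R τ)) ∧
    Mr N fun τ => hZ (Lt τ) (u τ) (s τ) l (R τ) := by
  have E : Mr N fun τ => oE (Lt τ) (u τ) (s τ) (nb l (R τ)) :=
    (((f.D.pow (2 * l)).mul (f.KP hR o f.ps)).mul (f.KQ hR o f.pu)).congr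
      fun τ h => by rw [oE, (o τ h).card]
  have a := f.FF hR o
  have b := f.neg.FF hR o
  have y := fun τ h => (f.two τ h).YZ l3 (o τ h)
  exact ⟨((a.sub E).sub b).div ((Mr.cst 2).mul b) fun τ h => mul_ne_zero two_ne_zero (y τ h).1,
    ((b.sub E).sub a).neg.div ((((Mr.cst 2).mul (((f.D.mul f.H).mul f.neg.H).pow _)).mul f.D).mul
      ((f.KP hR o f.pt).mul (f.KQ hR o f.ps))) fun τ h => mul_ne_zero (mul_ne_zero (mul_ne_zero
        two_ne_zero (pow_ne_zero _ (mul_ne_zero (mul_ne_zero (f.two τ h).oD_ne (f.two τ h).oH_ne)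
          (f.two τ h).negQ.oH_ne))) (f.two τ h).oD_ne) (y τ h).2.1⟩

end Fm

/-- both coordinates are divisible by `n` -/
def dv (n : ℕ) (p : ℤ × ℤ) : Prop := (n : ℤ) ∣ p.1 ∧ (n : ℤ) ∣ p.2

/-- a torsion section -/
noncomputable def sec (N : ℕ) (p : ℤ × ℤ) (τ : ℂ) : ℂ := lin p τ / (N : ℤ)

/-- the factor of automorphy -/
noncomputable abbrev den (γ : SL(2, ℤ)) (τ : ℂ) : ℂ := γ 1 0 * τ + γ 1 1

/-- the determinant -/
def dt (p q : ℤ × ℤ) : ℤ := p.1 * q.2 - p.2 * q.1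

/-- congruent data -/
def Cg (p q p' q' : ℤ × ℤ) : Prop := dv 3 (p - p') ∧ ∃ k : ℤ, dv 9 ((1 + 3 * k) • q - q')

theorem sec_mem (h : τ ∈ HH) (hN : N ≠ 0) : sec N p τ ∈ (Lt τ).lattice ↔ dv N p :=
  lin_div_mem h (by exact_mod_cast hN)

theorem sec_sub (N : ℕ) (p q : ℤ × ℤ) (τ : ℂ) : sec N (p - q) τ = sec N p τ - sec N q τ := by
  rw [sub_eq_add_neg, sec, lin_add, lin_neg, sec, sec]; ring

theorem sec_smul (N : ℕ) (n : ℤ) (p : ℤ × ℤ) (τ : ℂ) : sec N (n • p) τ = n * sec N p τ := by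
  rw [sec, lin_smul, sec, mul_div_assoc]

theorem sec_mul (hN : N ≠ 0) (p : ℤ × ℤ) (τ : ℂ) : N * sec N p τ = lin p τ := by
  rw [sec, Int.cast_natCast, mul_div_cancel₀ _ (by exact_mod_cast hN)]

theorem sec_nine (q : ℤ × ℤ) (τ : ℂ) : 3 * sec 9 q τ = sec 3 q τ := by
  simp only [sec]; push_cast; ring

theorem sec_mob (γ : SL(2, ℤ)) (h : τ ∈ HH) (hN : N ≠ 0) :
    den γ τ * sec N p (mob γ τ) - sec N p' τ ∈ (Lt τ).lattice ↔ dv N (act γ p - p') := by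
  rw [← sec_mem h hN, sec_sub, sec, ← mul_div_assoc, lin_mob γ h]
  rfl

theorem sec_pn (p : ℤ × ℤ) (hk : k ≠ 0) : Pn (m * k) (sec m p) := by
  have := Pn.of p hk (rfl : m * k = _)
  unfold sec
  simpa only [Int.cast_natCast] using this

theorem two_iff (h : τ ∈ HH) : Two (Lt τ) (3 * sec 9 q τ) (sec 3 p τ) ↔ ¬ 3 ∣ dt p q := by
  have e : ∀ p, 3 * sec 3 p τ ∈ (Lt τ).lattice := fun p => by
    simpa only [← sec_mul three_ne_zero, Nat.cast_ofNat] using lin_mem h p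
  have a : sec 3 p τ + sec 3 q τ = sec 3 (p + q) τ := by simp only [sec, lin_add, add_div]
  have k : ∀ a b c d : ZMod 3, a * d - b * c = 0 ↔ (c = 0 ∧ d = 0) ∨ (a = 0 ∧ b = 0) ∨
      (a + c = 0 ∧ b + d = 0) ∨ (a - c = 0 ∧ b - d = 0) := by decide
  have : 3 ∣ dt p q ↔ dv 3 q ∨ dv 3 p ∨ dv 3 (p + q) ∨ dv 3 (p - q) := by
    have := k p.1 p.2 q.1 q.2
    norm_cast at this
    simp only [ZMod.intCast_zmod_eq_zero_iff_dvd] at this
    exact this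
  rw [sec_nine, this]
  simp only [← sec_mem h three_ne_zero, ← a, sec_sub, not_or]
  exact ⟨fun T => ⟨T.P0, T.Q0, T.ad, T.sb⟩, fun ⟨a, b, c, d⟩ => ⟨e q, e p, a, b, c, d⟩⟩

theorem ord_sec (hl : l.Prime) (n : ¬ dv l r) (h : τ ∈ HH) : Ord (Lt τ) l (sec l r τ) :=
  ⟨hl, sec_mul hl.ne_zero r τ ▸ lin_mem h r, (sec_mem h hl.ne_zero).not.2 n⟩

theorem fm_sec (g : ¬ 3 ∣ dt p q) (hk : k ≠ 0) : Fm (9 * k) (sec 9 q) (sec 3 p) :=
  ⟨by omega, sec_pn q hk, by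
    rw [show 9 * k = 3 * (3 * k) by ring]; exact sec_pn p (by omega),
    fun _ h => (two_iff h).2 g⟩

theorem iso_mob (γ : SL(2, ℤ)) (g : ¬ 3 ∣ dt p q) (c : Cg (act γ p) (act γ q) p' q') (h : τ ∈ HH) :
    Iso (den γ τ) (Lt (mob γ τ)) (Lt τ) (sec 9 q (mob γ τ)) (sec 3 p (mob γ τ)) (sec 9 q' τ)
      (sec 3 p' τ) := by
  obtain ⟨a, k, b⟩ := c
  refine ⟨Lt_sc γ h, (two_iff (mob_HH γ h)).2 g, (sec_mob γ h three_ne_zero).2 a, k, ?_⟩
  convert (sec_mob (p := (1 + 3 * k) • q) (p' := q') γ h (by norm_num : 9 ≠ 0)).2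
    (by convert b using 2; ext <;> simp [act] <;> ring) using 3
  rw [sec_smul]
  push_cast
  ring

/-- families of weight `k` -/
def Wt (k : ℕ) (F : ℤ × ℤ → ℤ × ℤ → ℂ → ℂ) : Prop := ∀ γ p q p' q', ¬ 3 ∣ dt p q →
  Cg (act γ p) (act γ q) p' q' → ∀ τ ∈ HH, F p q (mob γ τ) = den γ τ ^ k * F p' q' τ

/-- a matrix of determinant one -/
def sl (a b c d : ℤ) (h : a * d - b * c = 1) : SL(2, ℤ) :=
  ⟨!![a, b; c, d], by rwa [Matrix.det_fin_two_of]⟩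

/-- the translations and their negatives -/
def up (e : ε * ε = 1) (n : ℤ) : SL(2, ℤ) := sl ε (ε * n) 0 ε (by simpa using e)

theorem mob_up (e : ε * ε = 1) (n : ℤ) (τ : ℂ) : mob (up e n) τ = τ + n ∧ den (up e n) τ = ε := by
  have : (ε : ℂ) ≠ 0 := by exact_mod_cast left_ne_zero_of_mul_eq_one e
  simp only [mob, den, up, sl]
  simp
  field_simp

theorem act_sl (a b c d : ℤ) (h : a * d - b * c = 1) (p : ℤ × ℤ) :
    act (sl a b c d h) p = (p.1 * a + p.2 * c, p.1 * b + p.2 * d) := rfl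

theorem Cg.rfl : Cg p q p q := ⟨by simp [dv], 0, by simp [dv]⟩

theorem orbit (d : δ * δ = 1) (h : 3 ∣ dt p q - δ) : ∃ j ε n, ∃ e : ε * ε = 1,
    Cg (act (up e n) (δ, 0)) (act (up e n) (3 * j, 1)) p q ∨
      Cg (act (up e n) (j, 1)) (act (up e n) (-δ, 0)) p q := by
  obtain ⟨a, b⟩ := p
  obtain ⟨c, d'⟩ := q
  simp only [dt] at h
  by_cases c3 : 3 ∣ c
  · obtain ⟨j, rfl⟩ := c3
    obtain ⟨ε, k, e, rfl⟩ : ∃ ε k, ε * ε = 1 ∧ d' = ε * (1 + 3 * k) := by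
      obtain m | m | m : d' % 3 = 0 ∨ d' % 3 = 1 ∨ d' % 3 = 2 := by omega
      · obtain ⟨k, rfl⟩ := Int.dvd_of_emod_eq_zero m
        obtain rfl | rfl := Int.eq_one_or_neg_one_of_mul_eq_one d <;> ring_nf at h <;> omega
      exacts [⟨1, d' / 3, rfl, by omega⟩, ⟨-1, -1 - d' / 3, rfl, by omega⟩]
    refine ⟨ε * j, ε, ε * δ * b, e, .inl ⟨⟨?_, ?_⟩, k - j * δ * b, ?_, ?_⟩⟩ <;>
      obtain rfl | rfl := Int.eq_one_or_neg_one_of_mul_eq_one d <;>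
      obtain rfl | rfl := Int.eq_one_or_neg_one_of_mul_eq_one e <;>
      simp only [up, act_sl, Prod.fst_sub, Prod.snd_sub, Prod.smul_mk, smul_eq_mul,
        Nat.cast_ofNat] <;> ring_nf at h ⊢ <;> omega
  · obtain ⟨ε, k, e, rfl⟩ : ∃ ε k, ε * ε = 1 ∧ c = -δ * ε * (1 + 3 * k) := by
      obtain rfl | rfl := Int.eq_one_or_neg_one_of_mul_eq_one d <;>
        obtain m | m : c % 3 = 1 ∨ c % 3 = 2 := by omega
      exacts [⟨-1, c / 3, rfl, by omega⟩, ⟨1, -1 - c / 3, rfl, by omega⟩,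
        ⟨1, c / 3, rfl, by omega⟩, ⟨-1, -1 - c / 3, rfl, by omega⟩]
    refine ⟨ε * a, ε, -δ * ε * (1 - 3 * k) * d', e, .inr ⟨⟨?_, ?_⟩, k, ?_, ?_⟩⟩ <;>
      obtain rfl | rfl := Int.eq_one_or_neg_one_of_mul_eq_one d <;>
      obtain rfl | rfl := Int.eq_one_or_neg_one_of_mul_eq_one e <;>
      simp only [up, act_sl, Prod.fst_sub, Prod.snd_sub, Prod.smul_mk, smul_eq_mul,
        Nat.cast_ofNat] <;> ring_nf at h ⊢ <;> omega

theorem gA (d : δ * δ = 1) (i j : ℤ) : ¬ 3 ∣ dt (δ, i) (3 * j, 1) := by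
  obtain rfl | rfl := Int.eq_one_or_neg_one_of_mul_eq_one d <;> simp only [dt] <;> ring_nf <;> omega

theorem gB (d : δ * δ = 1) (j : ℤ) : ¬ 3 ∣ dt (j, 1) (-δ, 0) := by
  obtain rfl | rfl := Int.eq_one_or_neg_one_of_mul_eq_one d <;> simp [dt]

theorem Bd.comp {f M : ℂ → ℂ} (b : Bd f) (t : Tendsto M Ii Ii) : Bd fun τ => f (M τ) :=
  b.comp_tendsto t

namespace Wt

theorem mul (a : Wt k F) (b : Wt m G) : Wt (k + m) fun p q τ => F p q τ * G p q τ :=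
  fun γ p q p' q' g c τ h => by simp only [a γ p q p' q' g c τ h, b γ p q p' q' g c τ h]; ring

theorem pow (a : Wt k F) (n : ℕ) : Wt (k * n) fun p q τ => F p q τ ^ n :=
  fun γ p q p' q' g c τ h => by simp only [a γ p q p' q' g c τ h]; ring

theorem lin (a : Wt k F) (b : Wt k G) (κ : ℂ) : Wt k fun p q τ => F p q τ - κ * G p q τ :=
  fun γ p q p' q' g c τ h => by simp only [a γ p q p' q' g c τ h, b γ p q p' q' g c τ h]; ring

theorem div (a : Wt k F) (b : Wt k G) : Wt 0 fun p q τ => F p q τ / G p q τ :=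
  fun γ p q p' q' g c τ h => by
    simp only [a γ p q p' q' g c τ h, b γ p q p' q' g c τ h, pow_zero, one_mul,
      mul_div_mul_left _ _ (pow_ne_zero k (den_ne γ h))]

variable (w : Wt k F)

include w

theorem sh (e : ε * ε = 1) (n : ℤ) (g : ¬ 3 ∣ dt p q) (c : Cg (act (up e n) p) (act (up e n) q) p' q')
    (h : τ ∈ HH) : F p' q' τ = ε ^ k * F p q (τ + n) := by
  have := w _ _ _ _ _ g c τ h
  rw [(mob_up e n τ).1, (mob_up e n τ).2] at this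
  rw [this, ← mul_assoc, ← mul_pow, (by exact_mod_cast e : (ε * ε : ℂ) = 1), one_pow, one_mul]

theorem lim {a : ℂ} (e : ε * ε = 1) (n : ℤ) (g : ¬ 3 ∣ dt p q)
    (c : Cg (act (up e n) p) (act (up e n) q) p' q') (t : Tendsto (F p q) Ii (𝓝 a)) :
    Tendsto (F p' q') Ii (𝓝 (ε ^ k * a)) :=
  ((t.comp (tendsto_aff one_pos n)).const_mul _).congr' (ev_HH.mono fun τ h => by
    simpa using (w.sh e n g c h).symm)

variable (d : δ * δ = 1) (hA : ∀ j, Bd (F (δ, 0) (3 * j, 1))) (hB : ∀ j, Bd (F (j, 1) (-δ, 0)))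

include d hA hB

theorem bd (h : 3 ∣ dt p q - δ) : Bd (F p q) := by
  obtain ⟨j, ε, n, e, c | c⟩ := orbit d h
  · exact Bd.congr ((Bd.cst (ε ^ k)).mul ((hA j).comp (tendsto_aff one_pos n)))
      fun τ h => by simpa using w.sh e n (gA d 0 j) c h
  · exact Bd.congr ((Bd.cst (ε ^ k)).mul ((hB j).comp (tendsto_aff one_pos n)))
      fun τ h => by simpa using w.sh e n (gB d j) c h

end Wt

theorem Wt.const (w : Wt 0 F) (d : δ * δ = 1) (hA : ∀ j, Bd (F (δ, 0) (3 * j, 1)))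
    (hB : ∀ j, Bd (F (j, 1) (-δ, 0))) (c : DifferentiableOn ℂ (F (δ, 0) (3 * 0, 1)) HH) :
    ∃ κ, ∀ j, ∀ τ ∈ HH, F (δ, 0) (3 * j, 1) τ = κ ∧ F (j, 1) (-δ, 0) τ = κ := by
  have e := fun γ p q c τ h => (w γ _ _ p q (gA d 0 0) c τ h).trans (by rw [pow_zero, one_mul])
  refine (const_of (N := 9) (by norm_num) c (fun γ hγ => e γ _ _ ?_) fun γ =>
    (w.bd d hA hB ?_).congr (e γ _ _ .rfl)).imp fun κ a j τ h => ⟨?_, ?_⟩
  · obtain ⟨a, b, c, f⟩ := CongruenceSubgroup.Gamma_mem.1 hγ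
    rw [← sub_eq_zero] at a f
    norm_cast at a f
    rw [ZMod.intCast_zmod_eq_zero_iff_dvd] at a b c f
    obtain rfl | rfl := Int.eq_one_or_neg_one_of_mul_eq_one d <;>
      refine ⟨⟨?_, ?_⟩, 0, ?_, ?_⟩ <;> simp [act] <;> omega
  · exact ⟨0, by simp only [dt, act]; linear_combination δ * det_sl γ⟩
  · rw [← e (sl 1 0 (3 * j) 1 (by simp)) _ _ (by simpa [act_sl] using Cg.rfl) τ h,
      a _ (mob_HH _ h)]
  · rw [← e (sl (δ * j) δ (-δ) 0 (by simpa using d)) _ _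
      (by simpa [act_sl, ← mul_assoc, d] using Cg.rfl) τ h, a _ (mob_HH _ h)]

/-- the first form of weight one -/
noncomputable def fa (_ q : ℤ × ℤ) (τ : ℂ) : ℂ := dA (Lt τ) (3 * sec 9 q τ)

/-- the second form of weight one -/
noncomputable def fb (p q : ℤ × ℤ) (τ : ℂ) : ℂ := dB (Lt τ) (3 * sec 9 q τ) (sec 3 p τ)

/-- the third form of weight one -/
noncomputable def fc (_ q : ℤ × ℤ) (τ : ℂ) : ℂ := 3 * oG (Lt τ) (3 * sec 9 q τ) (sec 9 q τ)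

/-- the cube of the first coordinate -/
noncomputable def fX (p q : ℤ × ℤ) (τ : ℂ) : ℂ := oX (Lt τ) (sec 9 q τ) (sec 3 p τ)

/-- the second coordinate of a neighbour -/
noncomputable def fY (l : ℕ) (p q r : ℤ × ℤ) (τ : ℂ) : ℂ :=
  hY (Lt τ) (sec 9 q τ) (sec 3 p τ) l (sec l r τ)

/-- the normalised first coordinate of a neighbour -/
noncomputable def fZ (l : ℕ) (p q r : ℤ × ℤ) (τ : ℂ) : ℂ :=
  hZ (Lt τ) (sec 9 q τ) (sec 3 p τ) l (sec l r τ)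

/-- the differential of a neighbour -/
noncomputable def fT (l : ℕ) (p q r : ℤ × ℤ) (τ : ℂ) : ℂ :=
  if dv l r then 0 else
    deriv (fY l p q r) τ * fZ l p q r τ / (fY l p q r τ * (fY l p q r τ + 1))

/-- a lift -/
def lft (ρ : ZMod l × ZMod l) : ℤ × ℤ := (ρ.1.cast, ρ.2.cast)

/-- the reduction -/
def red (l : ℕ) (r : ℤ × ℤ) : ZMod l × ZMod l := (r.1, r.2)

/-- the sum of the differentials -/
noncomputable def fG (l : ℕ) [NeZero l] (p q : ℤ × ℤ) (τ : ℂ) : ℂ :=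
  ∑ ρ : ZMod l × ZMod l, fT l p q (lft ρ) τ

theorem red_lft (ρ : ZMod l × ZMod l) : red l (lft ρ) = ρ := by simp [red, lft]

theorem red_eq : red l r' = red l r ↔ dv l (r - r') := by
  simp [red, dv, ZMod.intCast_eq_intCast_iff_dvd_sub]

theorem dv_sub (e : dv l (r - r')) : dv l r ↔ dv l r' :=
  and_congr (Int.dvd_iff_dvd_of_dvd_sub e.1) (Int.dvd_iff_dvd_of_dvd_sub e.2)

theorem wt_abc : Wt 1 fa ∧ Wt 1 fb ∧ Wt 1 fc ∧ Wt 0 fX := by
  refine ⟨?_, ?_, ?_, ?_⟩ <;> intro γ p q p' q' g c τ h <;> have i := iso_mob γ g c h <;>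
    have := den_ne γ h
  · rw [fa, fa, i.sc.dA' i.et]; field_simp
  · rw [fb, fb, i.sc.dB' i.et i.es]; field_simp
  · rw [fc, fc, i.g]; field_simp
  · rw [fX, fX, i.X, pow_zero, one_mul]

theorem YZ_mr (hl : l.Prime) (l3 : l % 3 = 2) (g : ¬ 3 ∣ dt p q) (n : ¬ dv l r) :
    Mr (9 * l : ℕ) (fY l p q r) ∧ Mr (9 * l : ℕ) (fZ l p q r) :=
  (fm_sec g hl.ne_zero).YZ (mul_comm l 9 ▸ sec_pn r (by norm_num)) (fun _ => ord_sec hl n) l3

theorem T_of {M : ℂ → ℂ} {μ : ℂ} (hl : l.Prime) (l3 : l % 3 = 2) (g : ¬ 3 ∣ dt p q)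
    (h : τ ∈ HH) (h' : M τ ∈ HH) (hM : HasDerivAt M μ τ) (i : dv l r' ↔ dv l r)
    (e : ¬ dv l r → ∀ σ ∈ HH, fY l p' q' r' σ = fY l p q r (M σ) ∧
      fZ l p' q' r' σ = fZ l p q r (M σ)) : fT l p' q' r' τ = μ * fT l p q r (M τ) := by
  rw [fT, fT, i]
  split_ifs with n
  · simp
  · rw [(e n τ h).1, (e n τ h).2, EventuallyEq.deriv_eq (f := fY l p q r ∘ M)
      (eventually_of_mem (HH_open.mem_nhds h) fun σ hσ => (e n σ hσ).1),
      (((YZ_mr hl l3 g n).1.cus.dat h').hasDerivAt.comp τ hM).deriv]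
    ring

theorem G_of [NeZero l] {ψ : ℤ × ℤ → ℤ × ℤ} {σ μ : ℂ}
    (hψ : ∀ r r', dv l (ψ r - ψ r') → dv l (r - r'))
    (e : ∀ r r', dv l (ψ r - r') → fT l p' q' r' τ = μ * fT l p q r σ) :
    fG l p' q' τ = μ * fG l p q σ := by
  have b : Function.Bijective fun ρ : ZMod l × ZMod l => red l (ψ (lft ρ)) :=
    Finite.injective_iff_bijective.1 fun ρ ρ' a => by
      rw [← red_lft ρ, red_eq.2 (hψ _ _ (red_eq.1 a)), red_lft]
  rw [fG, fG, mul_sum, ← b.sum_comp]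
  exact sum_congr rfl fun ρ _ => e _ _ (red_eq.1 (red_lft _))

theorem dv_act (γ : SL(2, ℤ)) (hN : N ≠ 0) : dv N (act γ r) ↔ dv N r := by
  have i : Complex.I ∈ HH := by simp
  rw [← sub_zero (act γ r), ← sec_mob γ i hN, ← sec_mem (mob_HH γ i) hN, ← (Lt_sc γ i).2]
  simp [sec, lin]

theorem YZ_mob (hl : l.Prime) (l3 : l % 3 = 2) (γ : SL(2, ℤ)) (g : ¬ 3 ∣ dt p q)
    (c : Cg (act γ p) (act γ q) p' q') (e : dv l (act γ r - r')) (n : ¬ dv l r) (h : τ ∈ HH) :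
    fY l p' q' r' τ = fY l p q r (mob γ τ) ∧ fZ l p' q' r' τ = fZ l p q r (mob γ τ) :=
  (iso_mob γ g c h).YZ l3 (ord_sec hl n (mob_HH γ h)) ((sec_mob γ h hl.ne_zero).2 e)

theorem wt_G [NeZero l] (hl : l.Prime) (l3 : l % 3 = 2) : Wt 2 (fG l) := by
  intro γ p q p' q' g c τ h
  rw [G_of (p := p) (q := q) (ψ := act γ) (fun r r' a => (dv_act γ hl.ne_zero).1
    (by convert a using 1; ext <;> simp [act] <;> ring)) fun r r' a =>
      T_of hl l3 g h (mob_HH γ h) (mob_der γ h) ((dv_sub a).symm.trans (dv_act γ hl.ne_zero))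
        fun n σ => YZ_mob hl l3 γ g c a n, mul_inv_cancel_left₀ (pow_ne_zero 2 (den_ne γ h))]

theorem third_HH (h : τ ∈ HH) : τ / 3 ∈ HH := by simpa using h

theorem flip_iso (d : δ * δ = 1) (j : ℤ) (h : τ ∈ HH) : ∃ L',
    Rep (Lt (τ / 3)) L' {0, 3 * sec 9 (3 * j, 1) (τ / 3), -(3 * sec 9 (3 * j, 1) (τ / 3))} ∧
    Iso 3 L' (Lt τ) (-sec 3 (δ, 0) (τ / 3) / 3) (sec 9 (3 * j, 1) (τ / 3)) (sec 9 (-δ, 0) τ)
      (sec 3 (j, 1) τ) := by
  have h' := third_HH h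
  have T := (two_iff h').2 (gA d 0 j)
  obtain ⟨L', r⟩ := ex_rep3 T.P3 T.P0
  have e : ∀ x : ℤ × ℤ, ∀ n : ℤ, 3 * (lin x (τ / 3) + n * (3 * sec 9 (3 * j, 1) (τ / 3))) =
      lin (x.1 + n * j, 3 * x.2 + n) τ := fun x n => by simp only [lin, sec]; push_cast; ring
  have e' := fun x n => (mem_Lt h).2 ⟨_, (e x n).symm⟩
  refine ⟨L', r, ⟨three_ne_zero, fun z => ⟨fun a => ?_, fun a => ?_⟩⟩, (T.flp r).1, ?_, 0, ?_⟩
  · obtain ⟨x, a⟩ := (mem_Lt h).1 a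
    rw [← mul_left_cancel₀ three_ne_zero ((e (x.1 - x.2 * j, 0) x.2).trans
      (show _ = 3 * z by simpa using a))]
    exact add_mem (r.le (lin_mem h' _))
      (by simpa using L'.lattice.smul_mem x.2 (r.mem (3 * sec 9 (3 * j, 1) (τ / 3)) (by simp)))
  · rcases (rep3_mem r).1 a with a | a | a <;> obtain ⟨x, a⟩ := (mem_Lt h').1 a
    · simpa [a] using e' x 0
    · simpa [a] using e' x 1
    · simpa [a] using e' x (-1)
  · convert zero_mem (Lt τ).lattice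
    simp only [sec, lin]; push_cast; ring
  · convert zero_mem (Lt τ).lattice
    simp only [sec, lin]; push_cast; ring

theorem flip_abc (d : δ * δ = 1) (j : ℤ) (h : τ ∈ HH) :
    fa (j, 1) (-δ, 0) τ ^ 2 = -fa (δ, 0) (3 * j, 1) (τ / 3) ^ 2 / 3 ∧
    fb (j, 1) (-δ, 0) τ ^ 2 = -fc (δ, 0) (3 * j, 1) (τ / 3) ^ 2 / 3 ∧
    fb (j, 1) (-δ, 0) τ * fc (j, 1) (-δ, 0) τ =
      -(fb (δ, 0) (3 * j, 1) (τ / 3) * fc (δ, 0) (3 * j, 1) (τ / 3)) / 3 := by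
  obtain ⟨L', r, i⟩ := flip_iso d j h
  obtain ⟨-, ⟨θ, e, a, b, c⟩, -⟩ := ((two_iff (third_HH h)).2 (gA d 0 j)).flp r
  simp only [fa, fb, fc]
  rw [i.sc.dA' i.et, i.sc.dB' i.et i.es, i.g, mul_left_comm 3, a, b, c]
  generalize dA _ _ = a, oG _ _ _ = c, dB _ _ _ = b
  exact ⟨by linear_combination a ^ 2 / 9 * e, by linear_combination c ^ 2 * e,
    by linear_combination b * c / 3 * e⟩

theorem flip_G [NeZero l] (hl : l.Prime) (l3 : l % 3 = 2) (d : δ * δ = 1) (j : ℤ) (h : τ ∈ HH) :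
    fG l (j, 1) (-δ, 0) τ = 1 / 3 * fG l (δ, 0) (3 * j, 1) (τ / 3) := by
  have k : ∀ x : ℤ, (l : ℤ) ∣ 3 * x ↔ (l : ℤ) ∣ x := fun x => ⟨fun a =>
    ((Nat.prime_iff_prime_int.1 hl).dvd_or_dvd a).resolve_left fun b => by
      have := (Nat.prime_dvd_prime_iff_eq hl Nat.prime_three).1 (by exact_mod_cast b)
      omega, fun a => a.mul_left 3⟩
  refine G_of (ψ := fun r => (r.1, 3 * r.2)) (fun r r' a => ⟨a.1, (k _).1 (by simpa [mul_sub] using a.2)⟩)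
    fun r r' a => T_of (M := (· / 3)) hl l3 (gA d 0 j) h (third_HH h) ((hasDerivAt_id τ).div_const 3)
      ((dv_sub a).symm.trans (and_congr .rfl (k _))) fun n σ h => ?_
  obtain ⟨L', b, i⟩ := flip_iso d j h
  obtain ⟨o, y, z⟩ := (((two_iff (third_HH h)).2 (gA d 0 j)).flp b).2.2 l _ l3
    (ord_sec hl n (third_HH h))
  rw [fY, fZ, fY, fZ, ← y, ← z]
  refine i.YZ l3 o ?_
  convert (sec_mem h hl.ne_zero).2 a using 1
  rw [sec_sub]
  simp only [sec, lin]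
  push_cast
  ring

end Pool.Agent.MP_e23604_nt.Un

end

section

/-!
The sum of the differentials of the neighbours vanishes.
-/

set_option autoImplicit false

open Filter Topology Asymptotics Finset
open scoped MatrixGroups Classical

namespace Pool.Agent.MP_e23604_nt.Un

variable {l k : ℕ} {τ : ℂ} {p q p' q' r : ℤ × ℤ} {δ ε : ℤ} {F : ℤ × ℤ → ℤ × ℤ → ℂ → ℂ}

theorem zero_of_pow {f : ℂ → ℂ} (hk : k ≠ 0) (t : Tendsto (fun τ => f τ ^ k) Ii (𝓝 0)) :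
    Tendsto f Ii (𝓝 0) := by
  rw [← isLittleO_one_iff ℂ] at t ⊢
  exact IsLittleO.of_pow (t.congr (fun _ => rfl) fun _ => by simp) hk

theorem lim_eq {f g : ℂ → ℂ} {a b : ℂ} (s : Tendsto f Ii (𝓝 a)) (t : Tendsto g Ii (𝓝 b))
    (e : ∀ τ ∈ HH, f τ = g τ) : a = b := tendsto_nhds_unique (s.congr' (ev_HH.mono e)) t

theorem lim_third : Tendsto (fun τ : ℂ => τ / 3) Ii Ii :=
  (tendsto_aff (a := 1 / 3) (by norm_num) 0).congr fun τ => by push_cast; ring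

theorem O_mul {f g h : ℂ → ℂ} (a : f =O[Ii] h) (b : Bd g) : (fun τ => f τ * g τ) =O[Ii] h := by
  simpa using IsBigO.mul a.norm_right b

theorem k0 (j : ℤ) : 3 ∣ j - j := by simp

theorem qq3 (τ : ℂ) : qq 3 τ ^ 3 = qq 1 τ := by simpa using qq_pow one_ne_zero three_ne_zero τ

theorem Two.oX_eq {L : PeriodPair} {u s a b c : ℂ} (h : Two L (3 * u) s) (ha : a = dA L (3 * u))
    (hb : b = dB L (3 * u) s) (hc : c = 3 * oG L (3 * u) u) : b * c ≠ 0 ∧ oX L u s ≠ 0 ∧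
    oX L u s * (b * c) ^ 2 = -((a ^ 2 + a * b + b ^ 2) * (a ^ 2 + a * c + c ^ 2)) ∧
      oX L u s * ((a - b) * (a - c)) = -(b * c) := by
  obtain ⟨x, y⟩ := h.oH_mul
  have z := h.abc
  have n := mul_ne_zero h.b_ne (mul_ne_zero three_ne_zero h.g_ne)
  have m := pow_ne_zero 2 h.oD_ne
  rw [← ha, ← hb, ← hc] at *
  have w : oX L u s * (b * c) ^ 2 = -((a ^ 2 + a * b + b ^ 2) * (a ^ 2 + a * c + c ^ 2)) := by
    rw [oX, div_mul_eq_mul_div, div_eq_iff m]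
    linear_combination oH L u s * oH L u (-s) * y - oD L u s ^ 2 * x
  exact ⟨n, div_ne_zero (mul_ne_zero h.oH_ne h.negQ.oH_ne) m, w, mul_right_cancel₀
    (pow_ne_zero 2 n) (by linear_combination (a - b) * (a - c) * w - a ^ 3 * z)⟩

theorem Gam.cg {L : PeriodPair} {t t' u γ : ℂ} (g : Gam L t u γ) (e : t - t' ∈ L.lattice) :
    Gam L t' u γ := by
  have h := Sc.of_eq (rfl : L.lattice = _)
  rw [← one_mul t] at e
  rw [Gam, h.q' e, h.s3' e (z := u) (by simp), h.p' e, h.dA' e]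
  simpa [Gam] using g

theorem X_eq (g : ¬ 3 ∣ dt p q) (h : τ ∈ HH) : fb p q τ * fc p q τ ≠ 0 ∧ fX p q τ ≠ 0 ∧
    fX p q τ * (fb p q τ * fc p q τ) ^ 2 = -((fa p q τ ^ 2 + fa p q τ * fb p q τ + fb p q τ ^ 2) *
      (fa p q τ ^ 2 + fa p q τ * fc p q τ + fc p q τ ^ 2)) ∧
    fX p q τ * ((fa p q τ - fb p q τ) * (fa p q τ - fc p q τ)) = -(fb p q τ * fc p q τ) :=
  ((two_iff h).2 g).oX_eq rfl rfl rfl

theorem abc_hol (g : ¬ 3 ∣ dt p q) : DifferentiableOn ℂ (fa p q) HH ∧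
    DifferentiableOn ℂ (fb p q) HH ∧ DifferentiableOn ℂ (fc p q) HH ∧
      DifferentiableOn ℂ (fX p q) HH :=
  have f := fm_sec g one_ne_zero
  ⟨f.a.cus.hol, f.b.cus.hol, f.g.cus.hol.const_mul 3, f.X.cus.hol⟩

theorem abc_bd (g : ¬ 3 ∣ dt p q) : Bd (fa p q) ∧ Bd (fb p q) ∧ Bd (fc p q) :=
  (fm_sec g one_ne_zero).bd

theorem Wt.mvA (w : Wt k F) (d : δ * δ = 1) {i j i' j' : ℤ} (n : ℤ) (hi : 3 ∣ i + δ * n - i')
    (hj : 3 ∣ j - j') (h : τ ∈ HH) : F (δ, i') (3 * j', 1) τ = F (δ, i) (3 * j, 1) (τ + n) := by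
  rw [w.sh (ε := 1) rfl n (gA d i j) ?_ h]
  · simp
  refine ⟨⟨?_, ?_⟩, -(j * n), ?_, ?_⟩ <;> simp only [up, act_sl, Prod.fst_sub, Prod.snd_sub,
    Prod.smul_mk, smul_eq_mul, Nat.cast_ofNat] <;> ring_nf at hi ⊢ <;> omega

theorem Wt.cus (w : Wt k F) (d : δ * δ = 1) {i j : ℤ}
    (c : DifferentiableOn ℂ (F (δ, i) (3 * j, 1)) HH) : Cus 3 (F (δ, i) (3 * j, 1)) :=
  ⟨c, fun τ h => by simpa using (w.mvA d 3 (by omega) (by simp) h).symm⟩

theorem fa_A (j : ℤ) (h : τ ∈ HH) : fa p (3 * j, 1) τ = fa p (3 * 0, 1) τ := by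
  rw [fa, fa, (Sc.of_eq rfl).dA' (t := 3 * sec 9 (3 * 0, 1) τ)]
  · simp
  · rw [one_mul, sec_nine, sec_nine, ← sec_sub, sec_mem h three_ne_zero]
    simp [dv]

variable (d : δ * δ = 1)

include d

theorem ac_cus (j : ℤ) : Cus 1 (fa (δ, 0) (3 * j, 1)) ∧ Cus 1 (fc (δ, 0) (3 * j, 1)) :=
  ⟨⟨(abc_hol (gA d 0 j)).1, fun τ h => by
      simpa [fa] using (wt_abc.1.mvA (i := 0) (i' := δ) (j := j) d 1 (by simp) (k0 j) h).symm⟩,
    (abc_hol (gA d 0 j)).2.2.1, fun τ h => by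
      simpa [fc] using (wt_abc.2.2.1.mvA (i := 0) (i' := δ) d 1 (by simp) (k0 j) h).symm⟩

theorem b_A (j : ℤ) : Tendsto (fb (δ, 0) (3 * j, 1)) Ii (𝓝 0) ∧
    (fun τ => fb (δ, 0) (3 * j, 1) τ ^ 3) =O[Ii] qq 1 := by
  have e : ∀ p : ℤ × ℤ, 3 ∣ p.1 - δ → Tendsto (fun τ => wq (Lt τ) (sec 3 p τ)) Ii (𝓝 0) :=
    fun p a => (q_mr three_ne_zero p).2.2 (by
      obtain rfl | rfl := Int.eq_one_or_neg_one_of_mul_eq_one d <;> omega)
  have t : Tendsto (fb (δ, 0) (3 * j, 1)) Ii (𝓝 0) := zero_of_pow (k := 6) (by norm_num) (by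
    have := ((((e (δ, 0) (by simp)).add (e ((δ, 0) - (-(3 * j), -1)) (by simp))).add
      (e ((δ, 0) - (3 * j, 1)) (by simp))).pow 2).const_mul (-27)
    refine (this.congr' (ev_HH.mono fun τ h => ?_)).trans (by simp)
    simp only [fb, ((two_iff h).2 (gA d 0 j)).b_six]
    simp only [s3, sec_sub, sec_nine]
    congr 5
    simp only [sec, lin]
    push_cast
    ring)
  exact ⟨t, ((((ac_cus d j).1.pow 3).sub ((ac_cus d j).2.pow 3)).congr fun τ h => eq_sub_of_add_eq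
    ((two_iff h).2 (gA d 0 j)).abc.symm).dec one_pos (by simpa using t.pow 3)⟩

theorem low_A (j : ℤ) :
    qq 1 =O[Ii] fun τ => fb (δ, 0) (3 * j, 1) τ ^ 3 * fc (δ, 0) (3 * j, 1) τ ^ 9 := by
  refine ((((wt_abc.2.1.pow 3).mul (wt_abc.2.2.1.pow 9)).div (G := fun _ _ => Dl)
    fun γ _ _ _ _ _ _ τ h => Dl_mob γ h).const d
    (fun j => .div ((O_mul (b_A d j).2 ((abc_bd (gA d 0 j)).2.2.pow 9)).trans Dl_low))
    (fun j => .div (IsBigO.trans (g := qq 1) ?_ Dl_low))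
    ((((abc_hol (gA d 0 0)).2.1.pow 3).mul ((abc_hol (gA d 0 0)).2.2.1.pow 9)).div Dl_hol
      fun _ => Dl_ne)).elim fun κ e => ?_
  · obtain ⟨c, -, t⟩ := q_mr three_ne_zero (-δ, 0)
    refine (O_mul (((c.dec (by norm_num) (t (by
      obtain rfl | rfl := Int.eq_one_or_neg_one_of_mul_eq_one d <;> decide))).const_mul_left
        27).pow 3) ((abc_bd (gB d j)).2.1.pow 3)).congr' (ev_HH.mono fun τ h => ?_)
          (.of_forall fun τ => by simp [qq3])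
    have g := ((two_iff h).2 (gB d j)).g_cube
    rw [sec_nine] at g
    simp only [fc, sec_nine]
    rw [← sec, ← g]
    ring
  · have i : Complex.I ∈ HH := by simp
    have n := (X_eq (gA d 0 j) i).1
    have k : κ ≠ 0 := (e j _ i).1 ▸ div_ne_zero (mul_ne_zero (pow_ne_zero _ (left_ne_zero_of_mul n))
      (pow_ne_zero _ (right_ne_zero_of_mul n))) (Dl_ne i)
    refine Dl_low.trans (((isBigO_refl _ _).const_mul_left κ⁻¹).congr' (ev_HH.mono fun τ h => ?_)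
      .rfl)
    simp only [(div_eq_iff (Dl_ne h)).1 (e j τ h).1, inv_mul_cancel_left₀ k]

theorem cusp_A (j : ℤ) : ∃ α γ : ℂ, α ≠ 0 ∧ γ ≠ 0 ∧ Tendsto (fa (δ, 0) (3 * j, 1)) Ii (𝓝 α) ∧
    Tendsto (fc (δ, 0) (3 * j, 1)) Ii (𝓝 γ) ∧
    (qq 1 =O[Ii] fun τ => fb (δ, 0) (3 * j, 1) τ ^ 3) ∧
    qq 3 =O[Ii] fun τ => fb (δ, 0) (3 * j, 1) τ * fc (δ, 0) (3 * j, 1) τ := by
  obtain ⟨a, -, c⟩ := abc_bd (gA d 0 j)
  obtain ⟨α, ta, -⟩ := (ac_cus d j).1.lim one_pos a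
  obtain ⟨γ, tc, -⟩ := (ac_cus d j).2.lim one_pos c
  have n : γ ≠ 0 := fun e => isLittleO_irrefl (.of_forall (qq_ne 1)) ((low_A d j).trans_isLittleO
    (by simpa using (b_A d j).2.mul_isLittleO ((isLittleO_one_iff ℂ).2 (by simpa [e] using tc.pow 9))))
  refine ⟨α, γ, fun e => pow_ne_zero 3 n ?_, n, ta, tc, (low_A d j).trans
    (O_mul (isBigO_refl _ _) (c.pow 9)), IsBigO.of_pow three_ne_zero ?_⟩
  · simpa [e] using lim_eq (((b_A d j).1.pow 3).add (tc.pow 3)) (ta.pow 3)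
      fun τ h => ((two_iff h).2 (gA d 0 j)).abc.symm
  · exact ((low_A d j).congr_left fun τ => (qq3 τ).symm).trans
      ((O_mul (isBigO_refl _ _) (c.pow 6)).congr_left fun τ => by simp only [Pi.pow_apply]; ring)

theorem c_rel (j : ℤ) (h : τ ∈ HH) : fc (δ, 0) (3 * j, 1) τ ^ 2 + fc (δ, 0) (3 * j, 1) τ *
    fc (δ, 0) (3 * (j + δ), 1) τ + fc (δ, 0) (3 * (j + δ), 1) τ ^ 2 = 0 := by
  have T := (two_iff h).2 (gA d 0 j)
  obtain ⟨e, P⟩ := T.par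
  have u : sec 9 (3 * (j + δ), 1) τ = sec 9 (3 * j, 1) τ + sec 3 (δ, 0) τ := by
    simp only [sec, lin]; push_cast; ring
  have := ((T.gam P).2.1.cg (t' := 3 * sec 9 (3 * (j + δ), 1) τ) (by
    rw [u]; simpa [mul_add] using T.Q3)).eq ((two_iff h).2 (gA d 0 (j + δ)))
  rw [← u] at this
  rw [fc, fc, this]
  linear_combination 9 * oG _ _ _ ^ 2 * P.he

theorem root_X (j : ℤ) : ∃ X, DifferentiableOn ℂ X HH ∧ (∀ τ, X τ ^ 3 = fX (δ, 0) (3 * j, 1) τ) ∧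
    ∃ ζ, ζ ^ 3 = 1 ∧ ζ ≠ 1 ∧ ∀ τ ∈ HH, X (τ + 3) = ζ * X τ := by
  have g := gA d 0 j
  obtain ⟨X, c, e⟩ := ex_root (abc_hol g).2.2.2 fun τ h => (X_eq g h).2.1
  have n : ∀ τ ∈ HH, X τ ≠ 0 := fun τ h a => (X_eq g h).2.1 (by rw [← e, a]; ring)
  obtain ⟨ζ, z, s⟩ := root_shift (w := 3) c n fun τ h => by
    rw [e, e, (wt_abc.2.2.2.cus d (abc_hol g).2.2.2).per τ h]
  refine ⟨X, c, e, ζ, z, fun a => ?_, by simpa using s⟩
  have C : Cus 3 X := ⟨c, fun τ h => by rw [s τ h, a, one_mul]⟩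
  obtain ⟨α, γ, a0, -, ta, tc, -, o⟩ := cusp_A d j
  have tb := (b_A d j).1
  have t1 := ((((ta.pow 2).add (ta.mul tb)).add (tb.pow 2)).mul
    (((ta.pow 2).add (ta.mul tc)).add (tc.pow 2))).neg
  have t2 := ((ta.sub tb).mul (ta.sub tc)).neg
  have t3 : Tendsto (fun τ => fb (δ, 0) (3 * j, 1) τ * fc (δ, 0) (3 * j, 1) τ) Ii (𝓝 0) := by
    simpa using tb.mul tc
  have e2 : ∀ τ ∈ HH, (1 / X τ) ^ 3 * (fb (δ, 0) (3 * j, 1) τ * fc (δ, 0) (3 * j, 1) τ) = _ :=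
    fun τ h => by rw [← neg_eq_iff_eq_neg.2 (X_eq g h).2.2.2, ← e, mul_neg, ← mul_assoc, ← mul_pow,
      one_div_mul_cancel (n τ h), one_pow, one_mul]
  have b1 : Bd X := C.jump' (by norm_num) (by norm_num : 2 < 3) (((isBigO_refl _ _).mul
    (o.pow 2)).trans ((Bd.of_tendsto t1).congr fun τ h => by rw [e, (X_eq g h).2.2.1]))
  have b2 := ((Cus.cst 1).div C n).jump' (by norm_num) (by norm_num : 1 < 3) (((isBigO_refl _ _).mul
    (o.pow 1)).trans ((Bd.of_tendsto t2).congr fun τ h => by rw [pow_one, e2 τ h]))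
  have a1 := lim_eq ((b1.pow 3).mul_zero (by simpa using t3.pow 2)) t1 fun τ h => by
    rw [e, (X_eq g h).2.2.1]
  have a2 := lim_eq ((b2.pow 3).mul_zero t3) t2 e2
  exact pow_ne_zero 4 a0 (by linear_combination a1 / 3 + α * (γ + 2 * α) / 3 * a2)

/-- the sum over three consecutive values -/
noncomputable def S3 (g : ℤ → ℂ) : ℂ := g (-1) + g 0 + g 1

theorem S3_aff {g : ℤ → ℂ} (a : ∀ i, g (i + 3) = g i) (j : ℤ) :
    S3 (fun i => g (j + δ * i)) = S3 g := by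
  have : Function.Periodic (fun j => g (j - 1) + g j + g (j + 1)) 1 := fun j => by
    simp only [← a (j - 1)]; ring_nf
  have := this.int_mul_eq j
  obtain rfl | rfl := Int.eq_one_or_neg_one_of_mul_eq_one d <;> simp only [S3] <;>
    ring_nf at this ⊢ <;> linear_combination this

omit d

theorem S3_lim {g : ℤ → ℂ → ℂ} {x : ℤ → ℂ} (t : ∀ i, Tendsto (g i) Ii (𝓝 (x i))) :
    Tendsto (fun τ => S3 fun i => g i τ) Ii (𝓝 (S3 x)) := ((t _).add (t _)).add (t _)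

theorem S3_hol {g : ℤ → ℂ → ℂ} (t : ∀ i, DifferentiableOn ℂ (g i) HH) :
    DifferentiableOn ℂ (fun τ => S3 fun i => g i τ) HH := ((t _).add (t _)).add (t _)

theorem S3_bd {g : ℤ → ℂ → ℂ} (t : ∀ i, Bd (g i)) : Bd fun τ => S3 fun i => g i τ :=
  ((t _).add (t _)).add (t _)

theorem dt_lin (p q : ℤ × ℤ) (i j : ℤ) : 3 ∣ dt (p + i • q) (q + (3 * j) • p) - dt p q :=
  ⟨-(i * j * dt p q), by simp [dt]; ring⟩

/-- the trace -/
noncomputable def fH (F : ℤ × ℤ → ℤ × ℤ → ℂ → ℂ) (p q : ℤ × ℤ) (τ : ℂ) : ℂ :=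
  S3 fun i => S3 fun j => F (p + i • q) (q + (3 * j) • p) τ

theorem Wt.tr (w : Wt k F) : Wt k (fH F) := by
  rintro γ p q p' q' g ⟨⟨⟨a, a1⟩, b, b1⟩, m, ⟨c, c1⟩, e, e1⟩ τ h
  have : ∀ i j : ℤ, F (p + i • q) (q + (3 * j) • p) (mob γ τ) =
      den γ τ ^ k * F (p' + i • q') (q' + (3 * j) • p') τ := fun i j => by
    refine w _ _ _ _ _ ((Int.dvd_iff_dvd_of_dvd_sub (dt_lin p q i j)).not.2 g)
      ⟨⟨⟨a + i * (3 * c - m * (act γ q).1), ?_⟩, b + i * (3 * e - m * (act γ q).2), ?_⟩, m,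
        ⟨c + j * a + m * j * (act γ p).1, ?_⟩, e + j * b + m * j * (act γ p).2, ?_⟩ τ h <;>
      simp only [act, Prod.fst_sub, Prod.snd_sub, Prod.smul_mk, smul_eq_mul, Nat.cast_ofNat,
        Prod.fst_add, Prod.snd_add, Prod.smul_fst, Prod.smul_snd] at *
    exacts [by linear_combination a1 + i * c1, by linear_combination b1 + i * e1,
      by linear_combination c1 + 3 * j * a1, by linear_combination e1 + 3 * j * b1]
  simp only [fH, this, S3]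
  ring

theorem Wt.trA (w : Wt k F) (d : δ * δ = 1) (j n : ℤ) (h : τ ∈ HH) :
    fH F (δ, 0) (3 * j, 1) (τ + n) = S3 fun i => S3 fun j => F (δ, i) (3 * j, 1) τ := by
  refine .trans ?_ (S3_aff (δ := 1) rfl (fun i => congrArg S3 (funext fun m => ?_)) (δ * n))
  refine congrArg S3 (funext fun i => .trans ?_ (S3_aff d (fun j => ?_) j))
  refine congrArg S3 (funext fun m => ?_)
  · rw [w.mvA (i := i) d n (by simp [add_comm]) (k0 _) h, w.sh (ε := 1) rfl 0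
      (gA d i (j + δ * m)) ?_ (show τ + n ∈ HH by simpa using h)]
    · simp
    refine ⟨⟨?_, ?_⟩, 0, ?_, ?_⟩ <;> simp [up, act_sl] <;> ring_nf <;> omega
  · simpa using w.mvA (i := δ * n + 1 * i) (i' := δ * n + 1 * i) (j := j) (j' := j + 3) d 0
      (by simp) (by simp) h
  · simpa using w.mvA (i := i) (i' := i + 3) d 0 (by simp) (k0 m) h

variable [NeZero l] (hl : l.Prime) (l3 : l % 3 = 2)

include hl l3

theorem G_hol (g : ¬ 3 ∣ dt p q) : DifferentiableOn ℂ (fG l p q) HH := .fun_sum fun ρ _ => by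
  unfold fT
  split_ifs with n
  · fun_prop
  · obtain ⟨y, z⟩ := YZ_mr hl l3 g n
    exact ((y.cus.deriv.mul z.cus).div (y.cus.mul (y.cus.add (.cst 1))) fun τ h =>
      have := ((two_iff h).2 g).YZ l3 (ord_sec hl n h)
      mul_ne_zero this.2.2.1 this.2.2.2.1).hol

theorem G_small (g : ¬ 3 ∣ dt p q) : Tendsto (fun τ => fG l p q τ ^ 3 / fX p q τ) Ii (𝓝 0) := by
  obtain ⟨X, -, e⟩ := ex_root (abc_hol g).2.2.2 fun τ h => (X_eq g h).2.1
  have := (tendsto_finsetSum univ fun (ρ : ZMod l × ZMod l) _ => (?_ :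
    Tendsto (fun τ => fT l p q (lft ρ) τ / X τ) Ii (𝓝 0))).pow 3
  · simpa [← sum_div, div_pow, e, fG] using this
  unfold fT
  split_ifs with n
  · simp
  have y := fun τ h => ((two_iff (τ := τ) h).2 g).YZ l3 (ord_sec hl n h)
  have := ((YZ_mr hl l3 g n).1.ld (by exact_mod_cast Nat.mul_pos (by norm_num) hl.pos)
    (fun τ h => (y τ h).2.2.1) fun τ h => (y τ h).2.2.2.1).const_mul (9 ^ (l - 1))
  refine zero_of_pow three_ne_zero ((this.congr' (ev_HH.mono fun τ h => ?_)).trans (by simp))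
  obtain ⟨-, -, a, b, c⟩ := y τ h
  have x := (X_eq g h).2.1
  simp only [div_pow, mul_pow, e, fZ, c]
  simp only [fY, fX] at *
  field_simp

include d

theorem G_A (j : ℤ) {α γ : ℂ} (ta : Tendsto (fa (δ, 0) (3 * j, 1)) Ii (𝓝 α))
    (tc : Tendsto (fc (δ, 0) (3 * j, 1)) Ii (𝓝 γ)) :
    ∃ x, Tendsto (fG l (δ, 0) (3 * j, 1)) Ii (𝓝 x) ∧ x ^ 3 * (α * (α - γ)) = 0 := by
  have g := gA d 0 j
  have C := (wt_G hl l3).cus d (G_hol hl l3 g)
  have s := G_small hl l3 g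
  obtain ⟨-, -, -, -, -, -, -, o⟩ := cusp_A d j
  have tb := (b_A d j).1
  obtain ⟨x, t, -⟩ := C.lim (by norm_num) (C.jump' (by norm_num) (by norm_num : 2 < 3)
    (((isBigO_refl _ _).mul (o.pow 2)).trans ((Bd.of_tendsto (s.mul ((((ta.pow 2).add
      (ta.mul tb)).add (tb.pow 2)).mul (((ta.pow 2).add (ta.mul tc)).add (tc.pow 2))).neg)).congr
        fun τ h => by rw [← (X_eq g h).2.2.1, ← mul_assoc, div_mul_cancel₀ _ (X_eq g h).2.1])))
  refine ⟨x, t, ?_⟩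
  simpa using lim_eq ((t.pow 3).mul ((ta.sub tb).mul (ta.sub tc))) (s.mul (tb.mul tc).neg)
    fun τ h => by rw [← (X_eq g h).2.2.2, ← mul_assoc (_ / _), div_mul_cancel₀ _ (X_eq g h).2.1]

theorem G_lim (j : ℤ) : Tendsto (fG l (δ, 0) (3 * j, 1)) Ii (𝓝 0) := by
  have w := wt_G hl l3
  choose α γ a0 c0 ta tc o _ using cusp_A d
  choose x tx ex using fun j => G_A d hl l3 j (ta j) (tc j)
  have aa : ∀ j, α j = α 0 := fun j => lim_eq (ta j) (ta 0) fun τ => fa_A j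
  have tA : ∀ i j, Tendsto (fG l (δ, i) (3 * j, 1)) Ii (𝓝 (x j)) := fun i j =>
    ((tx j).comp (tendsto_aff one_pos (δ * i))).congr' (ev_HH.mono fun τ h => by
      simpa using (w.mvA (i := 0) d (δ * i) (by simp [← mul_assoc, d]) (k0 j) h).symm)
  have px : ∀ j, x (j + 3) = x j := fun j => lim_eq (tx _) (tx j) fun τ h => by
    simpa using w.mvA (i := 0) (i' := 0) (j := j) (j' := j + 3) d 0 (by simp) (by simp) h
  have tB : ∀ j, Tendsto (fG l (j, 1) (-δ, 0)) Ii (𝓝 (1 / 3 * x j)) := fun j =>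
    (((tx j).comp lim_third).const_mul _).congr' (ev_HH.mono fun τ h => (flip_G hl l3 d j h).symm)
  have hH : ∀ j, ∀ τ ∈ HH, fH (fG l) (δ, 0) (3 * j, 1) τ =
      S3 fun i => S3 fun j => fG l (δ, i) (3 * j, 1) τ := fun j τ h => by
    simpa using w.trA d j 0 h
  obtain ⟨κ, hκ⟩ : ∃ κ, κ * α 0 ^ 2 = 3 * S3 x := ⟨_, div_mul_cancel₀ _ (pow_ne_zero 2 (a0 0))⟩
  have c : ∀ j, Cus 1 fun τ => fH (fG l) (δ, 0) (3 * j, 1) τ - κ * fa (δ, 0) (3 * j, 1) τ ^ 2 :=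
    fun j => Cus.sub ⟨(S3_hol fun i => S3_hol fun m => G_hol hl l3 (gA d i m)).congr (hH j),
      fun τ h => by simpa [hH j τ h] using w.trA d j 1 h⟩ ((Cus.cst κ).mul ((ac_cus d j).1.pow 2))
  have z : ∀ j, Tendsto (fun τ => (fH (fG l) (δ, 0) (3 * j, 1) τ - κ * fa (δ, 0) (3 * j, 1) τ ^ 2) /
      fb (δ, 0) (3 * j, 1) τ ^ 2) Ii (𝓝 0) := fun j => by
    have := (((S3_lim fun i => S3_lim (tA i)).congr' (ev_HH.mono fun τ h => (hH j τ h).symm)).sub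
      (((ta j).pow 2).const_mul κ))
    rw [aa, hκ, show S3 (fun _ => S3 x) - 3 * S3 x = 0 by rw [S3]; ring] at this
    refine (((((c j).dec one_pos this).trans (o j)).mul (isBigO_refl
      (fun τ => (fb (δ, 0) (3 * j, 1) τ ^ 2)⁻¹) _)).congr' .rfl
        (ev_HH.mono fun τ h => ?_)).trans_tendsto (b_A d j).1
    have := left_ne_zero_of_mul (X_eq (gA d 0 j) h).1
    field_simp
  obtain ⟨μ, e⟩ := ((w.tr.lin (wt_abc.1.pow 2) κ).div (wt_abc.2.1.pow 2)).const d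
    (fun j => .of_tendsto (z j)) (fun j => BoundedAtFilter.mul (IsBigO.sub (S3_bd fun i => S3_bd fun m => w.bd d
      (fun j => .of_tendsto (tx j)) (fun j => .of_tendsto (tB j)) (by
        simpa [dt] using dt_lin (j, 1) (-δ, 0) i m)) ((Bd.cst κ).mul
          ((abc_bd (gB d j)).1.pow 2))) (Bd.inv (((((tc j).comp lim_third).pow 2).neg.div_const
            3).congr' (ev_HH.mono fun τ h => (flip_abc d j h).2.1.symm)) (by simpa using c0 j)))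
    ((c 0).hol.div ((abc_hol (gA d 0 0)).2.1.pow 2) fun τ h =>
      pow_ne_zero 2 (left_ne_zero_of_mul (X_eq (gA d 0 0) h).1))
  obtain rfl : μ = 0 := lim_eq tendsto_const_nhds (z 0) fun τ h => (e 0 τ h).1.symm
  have s := lim_eq (S3_lim fun i => S3_lim fun m => w.lim (ε := 1)
    (p' := (0, 1) + i • (-δ, 0)) (q' := (-δ, 0) + (3 * m) • (0, 1)) rfl (-(3 * m * δ))
      (gB d (0 + -δ * i)) (by
        obtain rfl | rfl := Int.eq_one_or_neg_one_of_mul_eq_one d <;>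
          refine ⟨⟨?_, ?_⟩, 0, ?_, ?_⟩ <;> simp [up, act_sl] <;> ring_nf <;> omega) (tB _))
    (((((ta 0).comp lim_third).pow 2).neg.div_const 3).const_mul κ) fun τ h => by
      rw [Function.comp_apply, ← (flip_abc d 0 h).1]
      exact sub_eq_zero.1 ((div_eq_zero_iff.1 (e 0 τ h).2).resolve_right
        (pow_ne_zero 2 (left_ne_zero_of_mul (X_eq (gB d 0) h).1)))
  have s1 := S3_aff (δ := -δ) (by simpa using d) px 0
  have s2 := S3_aff d px j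
  have pr : ∀ j, x j * x (j + δ) = 0 := fun j => by_contra fun n => by
    have u := fun j (n : x j ≠ 0) => sub_eq_zero.1 ((mul_eq_zero.1 ((mul_eq_zero.1 (ex j)).resolve_left
      (pow_ne_zero 3 n))).resolve_left (a0 j))
    have := lim_eq ((((tc j).pow 2).add ((tc j).mul (tc (j + δ)))).add ((tc (j + δ)).pow 2))
      tendsto_const_nhds fun τ => c_rel d j
    rw [← u _ (left_ne_zero_of_mul n), ← u _ (right_ne_zero_of_mul n), aa, aa (j + δ)] at this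
    exact pow_ne_zero 2 (a0 0) (by linear_combination this / 3)
  have p1 := pr j
  have p2 := pr (j + δ * -1)
  simp only [S3, mul_zero, add_zero, mul_one, show j + δ * -1 + δ = j by ring] at *
  rw [← pow_eq_zero_iff two_ne_zero |>.1 (show x j ^ 2 = 0 by
    linear_combination x j * (s2 + (s - s1) / 2 - hκ / 6) - p1 - p2)]
  exact tx j

theorem G_zero (h : τ ∈ HH) : fG l (δ, 0) (3 * 0, 1) τ = 0 := by
  have b : ∀ j, Bd fun τ => fG l (δ, 0) (3 * j, 1) τ /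
      (fb (δ, 0) (3 * j, 1) τ * fc (δ, 0) (3 * j, 1) τ) := fun j => by
    obtain ⟨-, -, -, -, -, -, -, o⟩ := cusp_A d j
    exact .div ((((wt_G hl l3).cus d (G_hol hl l3 (gA d 0 j))).dec (by norm_num)
      (G_lim d hl l3 j)).trans o)
  have f : ∀ j, ∀ τ ∈ HH, fG l (j, 1) (-δ, 0) τ / (fb (j, 1) (-δ, 0) τ * fc (j, 1) (-δ, 0) τ) =
      -1 * (fG l (δ, 0) (3 * j, 1) (τ / 3) / (fb (δ, 0) (3 * j, 1) (τ / 3) *
        fc (δ, 0) (3 * j, 1) (τ / 3))) := fun j τ h => by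
    rw [flip_G hl l3 d j h, (flip_abc d j h).2.2]
    ring
  obtain ⟨κ, e⟩ := ((wt_G hl l3).div (wt_abc.2.1.mul wt_abc.2.2.1)).const d b
    (fun j => Bd.congr ((Bd.cst (-1)).mul ((b j).comp lim_third)) (f j))
    ((G_hol hl l3 (gA d 0 0)).div ((abc_hol (gA d 0 0)).2.1.mul (abc_hol (gA d 0 0)).2.2.1)
      fun τ h => (X_eq (gA d 0 0) h).1)
  have := f 0 τ h
  rw [(e 0 τ h).2, (e 0 _ (third_HH h)).1] at this
  exact (div_eq_zero_iff.1 ((e 0 τ h).1.trans (by linear_combination this / 2))).resolve_right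
    (X_eq (gA d 0 0) h).1

end Pool.Agent.MP_e23604_nt.Un

end
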