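import Pool.Agent.Mg.Fe23604m.G7a6e34
import Pool.Agent.Mg.Fe23604m.G5be499

set_option linter.all false

section

/-!
Lines through points of order nine.
-/

set_option autoImplicit false

open Filter Topology Asymptotics Finset QuadraticAlgebra
open scoped MatrixGroups Classical

namespace Pool.Agent.MP_e23604_nt.M

open B R S W Un

variable {L : PeriodPair} {p q t z w Λ r : ℂ}

/-- a line in the normal form -/
noncomputable def lf_TLF (L : PeriodPair) (t Λ r z : ℂ) : ℂ :=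
  -dY L t (-z) + Λ * dX L t z + r * wq L t

theorem ln_lf_TLF (h : wq L t ≠ 0) (p q : ℂ) :
    ∃ Λ, ln L p q = lf_TLF L t Λ (ln L p q (-t) / wq L t) :=
  ⟨-dA L t / 2 - (wq L q - wq L p) / (2 * (wp L q - wp L p)), funext fun z => by
    rw [lf_TLF, div_mul_cancel₀ _ h]
    simp only [ln, dY, dX, wp, wq, L.weierstrassP_neg, L.derivWeierstrassP_neg]
    ring⟩

theorem ln_q_TLF (n : wp L q - wp L p ≠ 0) : ln L p q q = 0 := by
  rw [ln]; field_simp; ring

theorem uniq_TLF (h : wq L t ≠ 0) (n : wp L q - wp L p ≠ 0) (a : lf_TLF L t Λ r p = 0)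
    (b : lf_TLF L t Λ r q = 0) : ln L p q = lf_TLF L t Λ r := by
  obtain ⟨M, e⟩ := ln_lf_TLF h p q
  have a' : ln L p q p = 0 := by simp [ln]
  have b' := ln_q_TLF n
  generalize ln L p q (-t) / wq L t = s at e
  rw [e] at a' b' ⊢
  simp only [lf_TLF, dX] at a b a' b'
  obtain rfl : M = Λ := mul_right_cancel₀ n (by linear_combination b' - a' - b + a)
  rw [show s = r from mul_right_cancel₀ h (by linear_combination a' - a)]

theorem shift_TLF (h3 : 3 * t ∈ L.lattice) (h : t ∉ L.lattice) (hz : z ∉ L.lattice)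
    (hs : z + t ∉ L.lattice) (hd : z - t ∉ L.lattice) (r0 : r ≠ 0)
    (a : lf_TLF L t Λ r (z - t) = 0) : lf_TLF L t (Λ / r - dA L t) (-(r + 1) / r) z = 0 := by
  obtain ⟨b, c, -⟩ := trM h3 h hz hs hd
  have d := dY_neg L t z
  refine mul_left_cancel₀ (mul_ne_zero r0 (a3_ne h3 h)) ?_
  rw [lf_TLF] at *
  field_simp
  linear_combination dY L t z * a + c - Λ * b - r * wq L t * d

theorem val_TLF (e : w - t ∈ L.lattice) :
    lf_TLF L t Λ r (-w) = r * wq L t ∧ wq L w = wq L t := by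
  have a : wp L w = wp L t := by rw [← wp_per (z := t) e, add_sub_cancel]
  have b : wq L w = wq L t := by rw [← wq_per (z := t) e, add_sub_cancel]
  exact ⟨by simp [lf_TLF, dY, dX, a, b], b⟩

theorem H_TLF (h3 : 3 * t ∈ L.lattice) (h : t ∉ L.lattice) (hz : z ∉ L.lattice)
    (hs : z + t ∉ L.lattice) (hd : z - t ∉ L.lattice) (e : 3 * z - t ∈ L.lattice) :
    dY L t z ^ 2 * dY L t (-z) + wq L t * dY L t (-z) ^ 2 + wq L t ^ 2 * dY L t z -
      3 * wq L t * (dY L t z * dY L t (-z)) = 0 := by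
  have h2 : 2 * z ∉ L.lattice := fun a => hd (by convert sub_mem e a using 1; ring)
  have a := dup hz h2
  rw [show 2 * z = -(z - t) + (3 * z - t) by ring, wp_per e, wp, L.weierstrassP_neg, ← wp] at a
  have q0 : wq L z ≠ 0 := fun c => h2 ((wq_zero hz).1 c)
  have b : dA L z * wq L z = 6 * wp L z ^ 2 - L.g₂ / 2 := div_mul_cancel₀ _ q0
  have c := (subP h3 h hz hd).1
  have n := nrm h3 h hz
  have d := dY_neg L t z
  have f := flex h3 h
  have v : dY L t (-z) ≠ 0 := fun k => pow_ne_zero 3 (dX_ne h hz hs hd) (by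
    rw [k] at n; linear_combination n)
  have u : wq L z = dY L t z - dY L t (-z) := by linear_combination wq_dY L t z + d
  have b' : dA L z * wq L z = 6 * dX L t z ^ 2 + dA L t ^ 2 * dX L t z + dA L t * wq L t := by
    rw [b, g2_eq h3 h, f, dX]; ring
  have a' : dA L z ^ 2 = 4 * dX L t (z - t) + 8 * dX L t z + dA L t ^ 2 := by
    rw [f, dX, dX]; linear_combination -4 * a
  have E : (6 * dX L t z ^ 3 + (dA L t * dX L t z) ^ 2 + wq L t * (dA L t * dX L t z)) ^ 2 =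
      wq L z ^ 2 * (-4 * wq L t * dY L t (-z) + 8 * dX L t z ^ 3 + (dA L t * dX L t z) ^ 2) := by
    linear_combination -dX L t z ^ 2 * (dA L z * wq L z + (6 * dX L t z ^ 2 +
      dA L t ^ 2 * dX L t z + dA L t * wq L t)) * b' + dX L t z ^ 2 * wq L z ^ 2 * a' +
      4 * wq L z ^ 2 * c
  rw [u, show dA L t * dX L t z = -(dY L t z + dY L t (-z) + wq L t) by linear_combination d,
    show dX L t z ^ 3 = -(dY L t z * dY L t (-z)) by linear_combination n] at E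
  exact mul_left_cancel₀ v (by linear_combination E / 4)

theorem quad_TLF {a b c x y z : ℂ} (h1 : x - y ≠ 0) (h2 : x - z ≠ 0) (h3 : y - z ≠ 0)
    (e1 : a * x ^ 2 + b * x + c = 0) (e2 : a * y ^ 2 + b * y + c = 0)
    (e3 : a * z ^ 2 + b * z + c = 0) : a = 0 ∧ b = 0 ∧ c = 0 := by
  have f1 : a * (x + y) + b = 0 := mul_left_cancel₀ h1 (by linear_combination e1 - e2)
  have f2 : a * (x + z) + b = 0 := mul_left_cancel₀ h2 (by linear_combination e1 - e3)
  obtain rfl : a = 0 := mul_left_cancel₀ h3 (by linear_combination f1 - f2)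
  obtain rfl : b = 0 := by linear_combination f1
  exact ⟨rfl, rfl, by linear_combination e1⟩

theorem alg_TLF {a W : ℂ} (W0 : W ≠ 0) (r0 : r ≠ 0) (n : a ^ 3 - 27 * W ≠ 0)
    (E2 : W * ((Λ + a) ^ 2 * r + (Λ + a) * Λ * (2 * r + 5) + Λ ^ 2) +
      (Λ + a) ^ 2 * Λ * ((Λ + a) * Λ) = 0)
    (E1 : W * (W * ((Λ + a) * (2 * r ^ 2 + 5 * r - 1) + Λ * (r ^ 2 + 7 * r + 4)) +
      (Λ + a) ^ 2 * Λ * (Λ * (r + 1) + (Λ + a) * r)) = 0)
    (E0 : W ^ 2 * (W * (r ^ 3 + 6 * r ^ 2 + 3 * r - 1) + (Λ + a) ^ 2 * Λ * (r * (r + 1))) = 0) :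
    r ^ 2 * a + (r ^ 2 + r + 1) * Λ = 0 ∧
      cu r ^ 3 * W = (a ^ 3 - 27 * W) * (r * (r + 1)) ^ 3 := by
  have e1 := (mul_eq_zero.1 E1).resolve_left W0
  have e0 := (mul_eq_zero.1 E0).resolve_left (pow_ne_zero 2 W0)
  have K : r ^ 2 * a + (r ^ 2 + r + 1) * Λ = 0 := by
    by_cases e : r ^ 2 + r + 1 = 0
    · have : (r * (Λ + a) - Λ) * a = 0 := mul_left_cancel₀ W0 (by
        linear_combination -(r * (r + 1)) * E2 + (Λ + a) * Λ * e0 +
          W * ((Λ + a) ^ 2 * r + (Λ + a) * Λ * (r - 1 + 1) + Λ ^ 2) * e)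
      rcases mul_eq_zero.1 this with c | c
      · refine absurd ?_ n
        obtain ⟨S, rfl⟩ : ∃ S, a = S - Λ := ⟨Λ + a, by ring⟩
        obtain rfl : Λ = r * S := by linear_combination -c
        clear * - e e0
        grind
      · rw [c, e]; ring
    · exact mul_left_cancel₀ (mul_ne_zero W0 e) (by
        linear_combination r * (r + 1) * e1 - (Λ * (r + 1) + (Λ + a) * r) * e0)
  refine ⟨K, ?_⟩
  have k : r ^ 3 * (W * (r ^ 3 + 6 * r ^ 2 + 3 * r - 1)) = -((r + 1) * Λ) ^ 3 :=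
    mul_left_cancel₀ r0 (by linear_combination r ^ 4 * e0 -
      Λ * r * (r + 1) * (r ^ 2 * (Λ + a) - (r + 1) * Λ) * K)
  refine mul_left_cancel₀ (pow_ne_zero 3 r0) ?_
  rw [cu]
  linear_combination (r ^ 2 + r + 1) ^ 3 * k - (r + 1) ^ 3 * ((r ^ 2 * a) ^ 2 -
    r ^ 2 * a * ((r ^ 2 + r + 1) * Λ) + ((r ^ 2 + r + 1) * Λ) ^ 2) * K

theorem comb_TLF (h : Cf L p q) (i j : ℤ) (e : z = i * (3 * (3 * p)) + j * (3 * (p - q))) :
    z ∈ L.lattice := by
  simpa [e] using add_mem (L.lattice.smul_mem i h.P3) (L.lattice.smul_mem j h.Q3)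

theorem tri_TLF (h : Cf L p q) (i : ℕ) : Tri L (p + i * (3 * p)) (q + i * (3 * p)) :=
  ⟨(Two.nine h (comb_TLF h i 0 (by push_cast; ring))).1,
    (Two.nine h (comb_TLF h i (-1) (by push_cast; ring))).1,
    fun a => (Two.nine h (z := -(p + i * (3 * p) + (q + i * (3 * p))))
      (comb_TLF h (-2 * i - 1) 1 (by push_cast; ring))).1 (neg_mem a),
    by simpa using h.Q0,
    fun a => h.sb (by convert sub_mem (comb_TLF h i 0 rfl) a using 1; push_cast; ring),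
    fun a => h.ad (by convert sub_mem a (comb_TLF h i (-1) rfl) using 1; push_cast; ring)⟩

theorem eq3_TLF (h : Cf L p q) {k : ℕ} (e : Eq3 L (p + k * (3 * p)) (q + k * (3 * p)) z) :
    3 * z - 3 * p ∈ L.lattice ∧ ∀ w, w - 3 * p ∈ L.lattice → ∀ i : ℕ,
      Eq3 L (p + (i + k : ℕ) * (3 * p)) (q + (i + k : ℕ) * (3 * p)) (z + i * w) := by
  have m : ∀ (n : ℕ) {y}, y ∈ L.lattice → n * y ∈ L.lattice := fun n y a => by
    simpa using L.lattice.smul_mem n a
  rcases e with e | e | e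
  · exact ⟨by convert add_mem (m 3 e) (comb_TLF h k 0 rfl) using 1; push_cast; ring,
      fun w a i => Or.inl (by convert add_mem e (m i a) using 1; push_cast; ring)⟩
  · exact ⟨by convert add_mem (m 3 e) (comb_TLF h k (-1) rfl) using 1; push_cast; ring,
      fun w a i => Or.inr (Or.inl (by convert add_mem e (m i a) using 1; push_cast; ring))⟩
  · exact ⟨by convert add_mem (m 3 e) (comb_TLF h (-2 * k - 1) 1 rfl) using 1; push_cast; ring,
      fun w a i => Or.inr (Or.inr (by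
        convert add_mem (add_mem e (m i a)) (comb_TLF h i 0 rfl) using 1; push_cast; ring))⟩

theorem ne_TLF (hz : z ∉ L.lattice) (hw : w ∉ L.lattice) (a : z + w ∉ L.lattice)
    (b : z - w ∉ L.lattice) : wp L w - wp L z ≠ 0 := fun e => by
  rcases wp_eq hw hz (sub_eq_zero.1 e) with e | e
  exacts [b e, a e]

theorem next_TLF (h : Cf L p q) (i : ℕ) (r0 : r ≠ 0) (e : li L p q i = lf_TLF L (3 * p) Λ r) :
    li L p q (i + 1) = lf_TLF L (3 * p) (Λ / r - dA L (3 * p)) (-(r + 1) / r) := by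
  have T := tri_TLF h i
  have T' := tri_TLF h (i + 1)
  have n := ne_TLF T.p0 T.q0 T.ad T.sb
  have k : ∀ z, 3 * z - 3 * p ∈ L.lattice → li L p q i (z - 3 * p) = 0 →
      lf_TLF L (3 * p) (Λ / r - dA L (3 * p)) (-(r + 1) / r) z = 0 := fun z a b =>
    shift_TLF h.P3 h.P0 (Two.nine h a).1 (Two.nine h a).2.1 (Two.nine h a).2.2 r0 (e ▸ b)
  refine uniq_TLF (a3_ne h.P3 h.P0) (ne_TLF T'.p0 T'.q0 T'.ad T'.sb)
    (k _ (comb_TLF h (i + 1) 0 (by push_cast; ring)) ?_)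
    (k _ (comb_TLF h (i + 1) (-1) (by push_cast; ring)) ?_)
  · rw [show p + (i + 1 : ℕ) * (3 * p) - 3 * p = p + i * (3 * p) by push_cast; ring]
    simp [li, ln]
  · rw [show q + (i + 1 : ℕ) * (3 * p) - 3 * p = q + i * (3 * p) by push_cast; ring]
    exact ln_q_TLF n

theorem LF_pf (hZ : LZ_st) : LF_st := fun L p q h => by
  have W0 := a3_ne h.P3 h.P0
  have T : Tri L p q := by simpa using tri_TLF h 0
  have Z := (hZ L p q T).2.1
  have e3 : ∀ z, Eq3 L p q z → 3 * z - 3 * p ∈ L.lattice := fun z e =>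
    (eq3_TLF h (k := 0) (by simpa using e)).1
  obtain ⟨Λ, l0⟩ := ln_lf_TLF W0 p q
  rw [← rr] at l0
  have r0 : rr L p q ≠ 0 := div_ne_zero (fun e => h.P0 (by
    convert sub_mem (neg_mem (e3 _ ((Z _ (by simpa using h.P0)).1 e))) h.P3 using 1; ring)) W0
  have r1 : rr L p q + 1 ≠ 0 := fun e => h.P0 (by
    convert sub_mem h.P3 (e3 _ ((Z _ h.P0).1 (by
      rw [l0, lf_TLF, dY_negP, dX]
      linear_combination wq L (3 * p) * e))) using 1; ring)
  have l0' : li L p q 0 = lf_TLF L (3 * p) Λ (rr L p q) := by simpa [li] using l0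
  have l1 := next_TLF h 0 r0 l0'
  have l2 := next_TLF h 1 (div_ne_zero (neg_ne_zero.2 r1) r0) l1
  rw [show -(-(rr L p q + 1) / rr L p q + 1) / (-(rr L p q + 1) / rr L p q) =
    -1 / (rr L p q + 1) by field_simp; ring] at l2
  have k : ∀ z, Eq3 L p q z → (wq L (3 * p) * ((Λ + dA L (3 * p)) ^ 2 * rr L p q +
      (Λ + dA L (3 * p)) * Λ * (2 * rr L p q + 5) + Λ ^ 2) +
      (Λ + dA L (3 * p)) ^ 2 * Λ * ((Λ + dA L (3 * p)) * Λ)) * dX L (3 * p) z ^ 2 +
      wq L (3 * p) * (wq L (3 * p) * ((Λ + dA L (3 * p)) * (2 * rr L p q ^ 2 + 5 * rr L p q - 1) +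
        Λ * (rr L p q ^ 2 + 7 * rr L p q + 4)) + (Λ + dA L (3 * p)) ^ 2 * Λ *
        (Λ * (rr L p q + 1) + (Λ + dA L (3 * p)) * rr L p q)) * dX L (3 * p) z +
      wq L (3 * p) ^ 2 * (wq L (3 * p) * (rr L p q ^ 3 + 6 * rr L p q ^ 2 + 3 * rr L p q - 1) +
        (Λ + dA L (3 * p)) ^ 2 * Λ * (rr L p q * (rr L p q + 1))) = 0 := fun z e => by
    obtain ⟨a, b, c⟩ := Two.nine h (e3 z e)
    have H := H_TLF h.P3 h.P0 a b c (e3 z e)
    have n := nrm h.P3 h.P0 a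
    have d := dY_neg L (3 * p) z
    have v := (Z z a).2 e
    rw [l0, lf_TLF] at v
    rw [show dY L (3 * p) z = -(Λ + dA L (3 * p)) * dX L (3 * p) z -
      (rr L p q + 1) * wq L (3 * p) by linear_combination d + v,
      show dY L (3 * p) (-z) = Λ * dX L (3 * p) z + rr L p q * wq L (3 * p) by
        linear_combination -v] at H n
    linear_combination H - (Λ + dA L (3 * p)) ^ 2 * Λ * n
  have m0 : -p - q ∉ L.lattice := fun a => T.ad (by convert neg_mem a using 1; ring)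
  obtain ⟨E2, E1, E0⟩ := quad_TLF (x := dX L (3 * p) p) (y := dX L (3 * p) q)
    (z := dX L (3 * p) (-p - q))
    (by simpa [dX] using ne_TLF T.q0 T.p0 (by simpa [add_comm] using T.ad) fun a => T.sb (by
      simpa using neg_mem a))
    (by simpa [dX] using (ne_TLF m0 T.p0 (fun a => T.q0 (by convert neg_mem a using 1; ring))
      fun a => T.h1 (by convert neg_mem a using 1; ring)))
    (by simpa [dX] using (ne_TLF m0 T.q0 (fun a => T.p0 (by convert neg_mem a using 1; ring))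
      fun a => T.h2 (by convert neg_mem a using 1; ring)))
    (k p (Or.inl (by simp))) (k q (Or.inr (Or.inl (by simp))))
    (k _ (Or.inr (Or.inr (by convert L.lattice.zero_mem using 1; ring))))
  obtain ⟨K, cb⟩ := alg_TLF W0 r0 (Two.b_cube h ▸ pow_ne_zero 3 (Two.b_ne h)) E2 E1 E0
  refine ⟨tri_TLF h, r0, r1, fun i => funext fun z => ?_, fun p' q' j h' a b => ?_, cb,
    fun ζ hζ S a0 => ?_⟩
  · simp only [li, ln, show ∀ y : ℂ, y + (i + 3 : ℕ) * (3 * p) = y + i * (3 * p) + 3 * (3 * p) from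
      fun y => by push_cast; ring, wp_per h.P3, wq_per h.P3]
  · have T0 : Tri L p' q' := by simpa using tri_TLF h' 0
    obtain ⟨t, a'⟩ := eq3_TLF h (((hZ _ _ _ (tri_TLF h j)).2.1 _ T0.p0).1 a)
    have b' := (eq3_TLF h (((hZ _ _ _ (tri_TLF h j)).2.1 _ T0.q0).1 b)).2
    have e : ∀ i : ℕ, li L p' q' i = li L p q (i + j) := fun i => by
      have Z := hZ _ _ _ (tri_TLF h (i + j))
      have T' := tri_TLF h' i
      exact Z.2.2 _ _ T' ((Z.2.1 _ T'.p0).2 (a' _ t i)) ((Z.2.1 _ T'.q0).2 (b' _ t i))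
    have v : ∀ Λ r, li L p q j = lf_TLF L (3 * p) Λ r → rr L p' q' = r := fun Λ r c => by
      have := e 0
      rw [zero_add, c] at this
      rw [rr, show ln L p' q' = _ by simpa [li] using this, (val_TLF t).1,
        (val_TLF (Λ := 0) (r := 0) t).2, mul_div_cancel_right₀ _ W0]
    exact ⟨e, fun c => v _ _ (by rw [c]; exact l0'), fun c => v _ _ (by rw [c]; exact l1),
      fun c => v _ _ (by rw [c]; exact l2)⟩
  · have z3 : ζ ^ 3 = 1 := by linear_combination (ζ - 1) * hζ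
    have w0 : wp L (3 * p) = 0 := by
      have := flex h.P3 h.P0
      rw [a0] at this
      linear_combination -this / 12
    have t : ζ * (3 * p) - 3 * p ∈ L.lattice := inj h.P0 ((S.2 _).not.2 h.P0)
      (by rw [S.wp_mul, w0, mul_zero]) (by rw [S.wq_mul, z3, inv_one, one_mul])
    have i2 : ζ⁻¹ ^ 2 = ζ := by
      rw [inv_pow]; exact inv_eq_of_mul_eq_one_right (by linear_combination z3)
    have v : ∀ Λ' r', Λ' * ζ = Λ → r' = rr L p q → lf_TLF L (3 * p) Λ' r' (ζ * p) = 0 ∧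
        lf_TLF L (3 * p) Λ' r' (ζ * q) = 0 := fun Λ' r' a b => by
      have : ∀ z, lf_TLF L (3 * p) Λ' r' (ζ * z) = ln L p q z := fun z => by
        rw [l0, lf_TLF, lf_TLF, S.dX' t (z := z) (by simp), S.dY' t (z := -z) (by simp), i2,
          inv_pow, z3, ← mul_assoc, a, b, inv_one, one_mul]
      rw [this, this]
      exact ⟨(Z _ T.p0).2 (Or.inl (by simp)), (Z _ T.q0).2 (Or.inr (Or.inl (by simp)))⟩
    have z0 := S.1
    rw [a0] at K
    refine ⟨fun n => l0' ▸ v _ _ ?_ rfl, fun e => l1 ▸ v _ _ ?_ ?_, fun e => l2 ▸ v _ _ ?_ ?_⟩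
    · rw [show Λ = 0 from mul_left_cancel₀ n (by linear_combination K), zero_mul]
    · rw [a0, e]; field_simp; ring
    · rw [e]; field_simp; linear_combination -hζ
    · rw [a0]
      field_simp
      rw [e]
      linear_combination -Λ * hζ
    · rw [div_eq_iff r1, e]
      linear_combination -(ζ ^ 2 - ζ + 1) * hζ

end Pool.Agent.MP_e23604_nt.M

end

section

/-!
The data attached to a basis of the points of order nine.
-/

set_option autoImplicit false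

open Filter Topology Asymptotics Finset QuadraticAlgebra
open scoped MatrixGroups Classical

namespace Pool.Agent.MP_e23604_nt.M

open B R S W Un

variable {L N : PeriodPair} {p q z x y s : ℂ} {l : ℕ}

theorem lc_TLB {A : Submodule ℤ ℂ} {u v : ℂ} (hu : u ∈ A) (hv : v ∈ A) (a b : ℤ)
    (e : z = a * u + b * v) : z ∈ A := by
  simpa only [e, zsmul_eq_mul] using add_mem (A.smul_mem a hu) (A.smul_mem b hv)

theorem two_TLB (h : Two L p q) {a b : ℤ} (m : a * p + b * q ∈ L.lattice) : 3 ∣ a ∧ 3 ∣ b := by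
  have k : ∀ i j r t : ℤ, a = 3 * i + r → b = 3 * j + t → r * p + t * q ∈ L.lattice :=
    fun i j r t e f => lc_TLB m (lc_TLB h.P3 h.Q3 i j rfl) 1 (-1) (by rw [e, f]; push_cast; ring)
  obtain e | e | e : a = 3 * (a / 3) + 0 ∨ a = 3 * (a / 3) + 1 ∨ a = 3 * (a / 3 + 1) + -1 := by
    omega
  all_goals obtain f | f | f :
    b = 3 * (b / 3) + 0 ∨ b = 3 * (b / 3) + 1 ∨ b = 3 * (b / 3 + 1) + -1 := by omega
  all_goals have u := k _ _ _ _ e f
  · omega
  · exact absurd (lc_TLB u u 1 0 (by push_cast; ring)) h.Q0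
  · exact absurd (lc_TLB u u (-1) 0 (by push_cast; ring)) h.Q0
  · exact absurd (lc_TLB u u 1 0 (by push_cast; ring)) h.P0
  · exact absurd (lc_TLB u u 1 0 (by push_cast; ring)) h.ad
  · exact absurd (lc_TLB u u (-1) 0 (by push_cast; ring)) h.sb
  · exact absurd (lc_TLB u u (-1) 0 (by push_cast; ring)) h.P0
  · exact absurd (lc_TLB u u 1 0 (by push_cast; ring)) h.sb
  · exact absurd (lc_TLB u u (-1) 0 (by push_cast; ring)) h.ad

theorem nine_TLB (h : B9 L x y) (a b : ℤ) (e : z = a * x + b * y) (m : z ∈ L.lattice) :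
    9 ∣ a ∧ 9 ∣ b := by
  obtain ⟨⟨i, rfl⟩, j, rfl⟩ := two_TLB (a := a) (b := b) h (lc_TLB m m 3 0 (by
    rw [e]; push_cast; ring))
  have := two_TLB (a := i) (b := j) h (lc_TLB m m 1 0 (by rw [e]; push_cast; ring))
  omega

theorem mm_TLB (h : B9 L x y) (r : Rep L N {0, 3 * pu x y, -(3 * pu x y)}) (a b : ℤ)
    (e : z = a * x + b * y) (m : z ∈ N.lattice) : 3 ∣ a ∧ 9 ∣ b - 2 * a := by
  rcases (rep3_mem r).1 m with k | k | k
  · have := nine_TLB h a b e k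
    omega
  · have := nine_TLB h (a - 3) (b - 6) (by rw [e, pu]; push_cast; ring) k
    omega
  · have := nine_TLB h (a + 3) (b + 6) (by rw [e, pu]; push_cast; ring) k
    omega

theorem dv_TLB (o : Ord L l s) (l3 : l ≠ 3) {k : ℤ} (n : ℕ) (m : 3 ^ n * (k * s) ∈ L.lattice) :
    (l : ℤ) ∣ k := by
  have p := Nat.prime_iff_prime_int.1 o.pr
  refine (p.dvd_or_dvd (o.dvd.1 (show ((3 ^ n * k : ℤ) : ℂ) * s ∈ _ by
    push_cast; rwa [mul_assoc]))).resolve_left fun d => l3 ?_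
  exact (Nat.prime_dvd_prime_iff_eq o.pr Nat.prime_three).1 (by exact_mod_cast p.dvd_of_dvd_pow d)

theorem ne_TLB (hZ : LZ_st) (T : Tri L p q) (hp : 9 * p ∈ L.lattice) (hq : 9 * q ∈ L.lattice)
    (o : Ord L l s) (l3 : l ≠ 3) : NS l s (ln L p q) ≠ 0 := by
  refine prod_ne_zero_iff.2 fun k hk e => ?_
  obtain ⟨k1, k2⟩ := mem_Ico.1 hk
  have n : ¬ (l : ℤ) ∣ (k : ℤ) := fun d => by
    have := Nat.le_of_dvd k1 (Int.natCast_dvd_natCast.1 d)
    omega
  refine n (dv_TLB o l3 2 ?_)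
  rcases ((hZ L p q T).2.1 _ fun a => n (o.dvd.1 (by exact_mod_cast a))).1 e with a | a | a
  · exact lc_TLB a hp 9 1 (by push_cast; ring)
  · exact lc_TLB a hq 9 1 (by push_cast; ring)
  · exact lc_TLB a (add_mem hp hq) 9 (-1) (by push_cast; ring)

theorem gen_TLB (hZ : LZ_st) (T : Tri L p q) (o : Ord L l s) {j : ℤ} (hj : ¬ (l : ℤ) ∣ j) :
    NS l (j * s) (ln L p q) = NS l s (ln L p q) := by
  obtain ⟨o', e⟩ := o.gen hj
  rw [NS, NS, ← o.prod, ← o'.prod, e _ (hZ L p q T).1.per]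

theorem cf_TLB (hZ : LZ_st) (hF : LF_st) (hT : LT_st) (h : Cf L p q) (o : Ord L l s) (l3 : l ≠ 3) :
    (∀ i : Fin 3, be (rr L p q) i ^ l * NS l s (li L p q i) ≠ 0) ∧
      ∑ i : Fin 3, be (rr L p q) i ^ l * NS l s (li L p q i) = 0 := by
  obtain ⟨T, r0, r1, -⟩ := hF L p q h
  refine ⟨fun i => mul_ne_zero (pow_ne_zero _ ?_) (ne_TLB hZ (T i)
    (lc_TLB h.P3 h.Q3 (1 + 3 * (i : ℕ)) 0 (by push_cast; ring))
    (lc_TLB h.P3 h.Q3 (1 + 3 * (i : ℕ)) (-3) (by push_cast; ring)) o l3), ?_⟩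
  · fin_cases i
    · exact one_ne_zero
    · exact r0
    · exact fun e : -1 - rr L p q = 0 => r1 (by linear_combination -e)
  · obtain ⟨L', e⟩ := o.ex
    have k := ((hT L L' _ p q (o.rep e)).2 (o.cop l3 e) h).2
    simp only [o.card, o.prod] at k
    simp only [NS, k, ← mul_sum]
    simp [be, Fin.sum_univ_three]

theorem LB_pf (hZ : LZ_st) (hF : LF_st) (hT : LT_st) : LB_st := fun L x y h => by
  have h1 := h.P3
  have h2 := h.Q3
  have n : ∀ {z : ℂ} (a b : ℤ), z = a * x + b * y → ¬ (9 ∣ a ∧ 9 ∣ b) → z ∉ L.lattice :=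
    fun a b e k m => k (nine_TLB h a b e m)
  have c1 : Cf L (pu x y) (qu x y) :=
    ⟨lc_TLB h1 h2 1 2 (by push_cast [pu, qu]; ring), lc_TLB h1 h2 1 1 (by push_cast [pu, qu]; ring),
      n 3 6 (by push_cast [pu, qu]; ring) (by omega), n 3 3 (by push_cast [pu, qu]; ring) (by omega),
      n 6 9 (by push_cast [pu, qu]; ring) (by omega),
      n 0 (-3) (by push_cast [pu, qu]; ring) (by omega)⟩
  have r : Rep L (MM L x y) {0, 3 * pu x y, -(3 * pu x y)} := by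
    have e := ex_rep3 c1.P3 c1.P0
    rw [MM, Mq, dif_pos e]
    exact e.choose_spec
  have m : ∀ {z : ℂ} (a b : ℤ), z = a * x + b * y → ¬ (3 ∣ a ∧ 9 ∣ b - 2 * a) →
      z ∉ (MM L x y).lattice := fun a b e k m => k (mm_TLB h r a b e m)
  have c2 : Cf (MM L x y) x y :=
    ⟨r.le h1, lc_TLB (r.mem (3 * pu x y) (by simp)) (r.le h2) 1 (-1) (by push_cast [pu]; ring),
      m 3 0 (by push_cast; ring) (by omega), m 1 (-1) (by push_cast; ring) (by omega),
      m 4 (-1) (by push_cast; ring) (by omega), m (-2) (-1) (by push_cast; ring) (by omega)⟩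
  have t1 : Tri L (-3 * x) (-3 * y) :=
    ⟨n (-3) 0 (by push_cast; ring) (by omega), n 0 (-3) (by push_cast; ring) (by omega),
      n (-3) (-3) (by push_cast; ring) (by omega), n (-3) 3 (by push_cast; ring) (by omega),
      n (-6) (-3) (by push_cast; ring) (by omega), n (-3) (-6) (by push_cast; ring) (by omega)⟩
  have t2 : Tri (MM L x y) (pu x y) (qu x y) :=
    ⟨m 1 2 (by push_cast [pu]; ring) (by omega), m (-2) (-1) (by push_cast [qu]; ring) (by omega),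
      m (-1) 1 (by push_cast [pu, qu]; ring) (by omega),
      m 3 3 (by push_cast [pu, qu]; ring) (by omega), m 0 3 (by push_cast [pu, qu]; ring) (by omega),
      m (-3) 0 (by push_cast [pu, qu]; ring) (by omega)⟩
  obtain ⟨T1, a0, a1, -, -, ec, -⟩ := hF _ _ _ c1
  obtain ⟨T2, b0, b1, -⟩ := hF _ _ _ c2
  refine ⟨c1, r, c2, t1, t2, mul_ne_zero (mul_ne_zero a0 a1) (mul_ne_zero b0 b1), fun e => ?_,
    fun l s l3 o => ?_⟩
  · rw [rA] at e
    rw [e, ← c1.b_cube, zero_pow three_ne_zero, zero_mul] at ec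
    exact mul_ne_zero (pow_ne_zero _ c1.b_ne) (pow_ne_zero _ (mul_ne_zero a0 a1)) ec.symm
  have o' : Ord (MM L x y) l s := ⟨o.pr, r.le o.mem, fun a => o.pr.one_lt.ne' (by
    have := dv_TLB (k := 1) o l3 1 (by simpa using rep3_three r c1.P3 a)
    exact_mod_cast Int.eq_one_of_dvd_one (by positivity) this)⟩
  obtain ⟨f1, g1⟩ := cf_TLB hZ hF hT c1 o l3
  obtain ⟨f2, g2⟩ := cf_TLB hZ hF hT c2 o' l3
  refine ⟨o', f1, f2, mul_ne_zero (ne_TLB hZ t1 (lc_TLB h1 h2 (-3) 0 (by push_cast; ring))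
    (lc_TLB h1 h2 0 (-3) (by push_cast; ring)) o l3) (ne_TLB hZ t2
    (r.le (lc_TLB h1 h2 1 2 (by push_cast [pu]; ring)))
    (r.le (lc_TLB h1 h2 (-2) (-1) (by push_cast [qu]; ring))) o' l3), g1, g2, fun j hj =>
    ⟨fun i => ?_, fun i => ?_, ?_⟩⟩
  · rw [bA, bA, li, gen_TLB hZ (T1 i) o hj, one_mul]
  · rw [bB, bB, li, gen_TLB hZ (T2 i) o' hj, one_mul]
  · rw [nD, nD, gen_TLB hZ t1 o hj, gen_TLB hZ t2 o' hj, one_pow, one_mul]

end Pool.Agent.MP_e23604_nt.M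

end

section

/-!
The width of the cusp at infinity.
-/

set_option autoImplicit false

open Filter Topology Asymptotics Finset QuadraticAlgebra
open scoped MatrixGroups Classical

namespace Pool.Agent.MP_e23604_nt.M

open B R S W Un

theorem root_TCW {f g : ℂ → ℂ} {n : ℕ} (hn : n ≠ 0)
    (h : (fun τ => f τ ^ n) =Θ[Ii] fun τ => g τ ^ n) : f =Θ[Ii] g :=
  ⟨IsBigO.of_pow hn h.1, IsBigO.of_pow hn h.2⟩

theorem cmp_TCW {f g M : ℂ → ℂ} (h : f =Θ[Ii] g) (t : Tendsto M Ii Ii) :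
    (fun τ => f (M τ)) =Θ[Ii] fun τ => g (M τ) := ⟨h.1.comp_tendsto t, h.2.comp_tendsto t⟩

theorem one_TCW {f : ℂ → ℂ} {c : ℂ} (t : Tendsto f Ii (𝓝 c)) (hc : c ≠ 0) :
    f =Θ[Ii] fun _ => (1 : ℂ) := isTheta_of_div_tendsto_nhds_ne_zero (by simpa using t) hc |>.symm

theorem eq_TCW {f g : ℂ → ℂ} {c : ℂ} (hc : c ≠ 0) (e : ∀ τ ∈ HH, f τ = c * g τ) : f =Θ[Ii] g :=
  (show f =ᶠ[Ii] fun τ => c * g τ from ev_HH.mono e).trans_isTheta
    ((isTheta_refl g _).const_mul_left hc)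

theorem add_TCW (n : ℤ) : Tendsto (fun τ : ℂ => τ + n) Ii Ii :=
  (tendsto_aff one_pos n).congr fun τ => by simp

theorem qq_TCW (h : ℝ) (n : ℤ) : (fun τ => qq h (τ + n)) =Θ[Ii] qq h :=
  (show (fun τ => ‖qq h (τ + n)‖) =ᶠ[Ii] fun τ => ‖qq h τ‖ from .of_forall fun τ => by
    simp [Function.Periodic.norm_qParam]).isTheta.of_norm_left.of_norm_right

/-- the orders of the three forms -/
structure Od_TCW (p q : ℤ × ℤ) (f g : ℂ → ℂ) : Prop where
  a : fa p q =Θ[Ii] fun _ => (1 : ℂ)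
  b : (fun τ => fb p q τ ^ 3) =Θ[Ii] f
  c : (fun τ => fc p q τ ^ 3) =Θ[Ii] g

theorem A_TCW {δ : ℤ} (d : δ * δ = 1) (j : ℤ) :
    Od_TCW (δ, 0) (3 * j, 1) (qq 1) fun _ => (1 : ℂ) := by
  obtain ⟨α, γ, a0, c0, ta, tc, o, -⟩ := cusp_A d j
  exact ⟨one_TCW ta a0, ⟨(b_A d j).2, o⟩, one_TCW (tc.pow 3) (pow_ne_zero 3 c0)⟩

theorem B_TCW {δ : ℤ} (d : δ * δ = 1) (j : ℤ) :
    Od_TCW (j, 1) (-δ, 0) (fun _ => (1 : ℂ)) (qq 3) := by
  obtain ⟨a, b, c⟩ := A_TCW d j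
  have n : (-1 / 3 : ℂ) ≠ 0 := by norm_num
  have c' : (fun τ => fc (δ, 0) (3 * j, 1) (τ / 3)) =Θ[Ii] fun _ => (1 : ℂ) :=
    root_TCW three_ne_zero (by simpa using cmp_TCW c lim_third)
  have b' : fb (j, 1) (-δ, 0) =Θ[Ii] fun _ => (1 : ℂ) := (root_TCW two_ne_zero (eq_TCW n
    fun τ h => (flip_abc d j h).2.1.trans (by ring))).trans c'
  refine ⟨(root_TCW two_ne_zero (eq_TCW n fun τ h => (flip_abc d j h).1.trans (by ring))).trans
    (cmp_TCW a lim_third), by simpa using b'.pow 3, ?_⟩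
  have e : (fun τ => fb (j, 1) (-δ, 0) τ * fc (j, 1) (-δ, 0) τ) =Θ[Ii] fun τ =>
      fb (δ, 0) (3 * j, 1) (τ / 3) * fc (δ, 0) (3 * j, 1) (τ / 3) :=
    eq_TCW n fun τ h => (flip_abc d j h).2.2.trans (by ring)
  have e' := ((b'.symm.mul (isTheta_refl (fc (j, 1) (-δ, 0)) _)).trans e).trans
    ((isTheta_refl _ _).mul c')
  simp only [one_mul, mul_one] at e'
  refine ((e'.pow 3).trans (cmp_TCW b lim_third)).trans_eventuallyEq (.of_forall fun τ => ?_)
  simp only [Function.Periodic.qParam]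
  congr 1
  push_cast
  ring

theorem sh_TCW {p q p' q' : ℤ × ℤ} {f g : ℂ → ℂ} {ε : ℤ} (e : ε * ε = 1) (n : ℤ)
    (h : ¬ 3 ∣ Un.dt p q) (c : Un.Cg (Un.act (up e n) p) (Un.act (up e n) q) p' q')
    (o : Od_TCW p q f g) (hf : (fun τ => f (τ + n)) =Θ[Ii] f) (hg : (fun τ => g (τ + n)) =Θ[Ii] g) :
    Od_TCW p' q' f g := by
  have n0 : (ε : ℂ) ^ 1 ≠ 0 := pow_ne_zero _ (by exact_mod_cast left_ne_zero_of_mul_eq_one e)
  exact ⟨(eq_TCW n0 fun τ => wt_abc.1.sh e n h c).trans (cmp_TCW o.a (add_TCW n)),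
    (((eq_TCW n0 fun τ => wt_abc.2.1.sh e n h c).pow 3).trans (cmp_TCW o.b (add_TCW n))).trans hf,
    (((eq_TCW n0 fun τ => wt_abc.2.2.1.sh e n h c).pow 3).trans
      (cmp_TCW o.c (add_TCW n))).trans hg⟩

theorem all_TCW {p q : ℤ × ℤ} (h : ¬ 3 ∣ Un.dt p q) :
    3 ∣ q.1 ∧ Od_TCW p q (qq 1) (fun _ => (1 : ℂ)) ∨ Od_TCW p q (fun _ => (1 : ℂ)) (qq 3) := by
  obtain ⟨δ, d, k⟩ : ∃ δ : ℤ, δ * δ = 1 ∧ 3 ∣ Un.dt p q - δ := by
    obtain m | m : Un.dt p q % 3 = 1 ∨ Un.dt p q % 3 = 2 := by omega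
    exacts [⟨1, rfl, by omega⟩, ⟨-1, rfl, by omega⟩]
  obtain ⟨j, ε, n, e, c | c⟩ := orbit d k
  · refine .inl ⟨?_, sh_TCW e n (gA d 0 j) c (A_TCW d j) (qq_TCW 1 n) (isTheta_refl _ _)⟩
    obtain ⟨-, k, ⟨m, c⟩, -⟩ := c
    simp only [up, act_sl, Prod.fst_sub, Prod.smul_mk, smul_eq_mul, Nat.cast_ofNat] at c
    exact ⟨(1 + 3 * k) * j * ε - 3 * m, by linear_combination -c⟩
  · exact .inr (sh_TCW e n (gB d j) c (B_TCW d j) (isTheta_refl _ _) (qq_TCW 3 n))

theorem FC_TCW {v : Vv} (m : ℕ) {a c : ℤ}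
    (h1 : (v.1.1 + 2 * v.2.1) * m = 9 * a) (h2 : (-2 * v.1.1 - v.2.1) * m = 9 * c)
    (h3 : ∀ τ ∈ HH, (m / 9 : ℂ) ∈ (MM (Lt τ) (vx v τ) (vy v τ)).lattice) :
    FC v (av (Tn m) v) := fun τ t => by
  have x : vx (av (Tn m) v) τ - vx v τ = v.1.1 * (m / 9) := by
    simp [vx, av, Tn, Un.act, lin]; ring
  have y : vy (av (Tn m) v) τ - vy v τ = v.2.1 * (m / 9) := by
    simp [vy, av, Tn, Un.act, lin]; ring
  have h1' : ((v.1.1 + 2 * v.2.1) * m : ℂ) = 9 * a := by exact_mod_cast h1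
  have h2' : ((-2 * v.1.1 - v.2.1) * m : ℂ) = 9 * c := by exact_mod_cast h2
  refine ⟨.inl ?_, .inr (.inl ?_), .inl ?_, .inr (.inl ?_)⟩
  · rw [show _ - _ = lin (0, a) τ by
      simp only [pu, lin]; push_cast; linear_combination x + 2 * y + h1' / 9]
    exact lin_mem t _
  · rw [show _ - _ = lin (0, c) τ by
      simp only [qu, lin]; push_cast; linear_combination -2 * x - y + h2' / 9]
    exact lin_mem t _
  · rw [x, ← zsmul_eq_mul]
    exact Submodule.smul_mem _ _ (h3 τ t)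
  · rw [y, ← zsmul_eq_mul]
    exact Submodule.smul_mem _ _ (h3 τ t)

theorem CW_pf (hB : LB_st) (_ : OR_st) (_ : AN_st) : CW_st := by
  intro v h
  have eu : ∀ τ, pu (vx v τ) (vy v τ) = sec 9 (v.1 + (2 : ℤ) • v.2) τ := fun τ => by
    simp only [pu, vx, vy, sec, lin_add, lin_smul]; push_cast; ring
  have es : ∀ τ, pu (vx v τ) (vy v τ) - qu (vx v τ) (vy v τ) = sec 3 (v.1 + v.2) τ := fun τ => by
    simp only [pu, qu, vx, vy, sec, lin_add]; push_cast; ring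
  have T : ∀ τ ∈ HH, Un.Two (Lt τ) (3 * sec 9 (v.1 + (2 : ℤ) • v.2) τ) (sec 3 (v.1 + v.2) τ) :=
    fun τ t => by simpa only [Cf, es, ← eu] using (hB _ _ _ (h τ t)).1
  have g := (two_iff (τ := Complex.I) (by simp)).1 (T _ (by simp))
  have ea : fm oa v = fa (v.1 + v.2) (v.1 + (2 : ℤ) • v.2) := funext fun τ => by
    rw [fm, oa, eu, fa]
  have eW : ∀ τ ∈ HH, fm oW v τ = 1 / 27 * fc (v.1 + v.2) (v.1 + (2 : ℤ) • v.2) τ ^ 3 :=
    fun τ t => by rw [fm, oW, eu, fc, ← (T τ t).g_cube]; ring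
  have eV : ∀ τ ∈ HH, fm oV v τ = 1 * fb (v.1 + v.2) (v.1 + (2 : ℤ) • v.2) τ ^ 3 :=
    fun τ t => by rw [fm, oV, oa, oW, eu, fb, (T τ t).b_cube, one_mul]
  have tW := eq_TCW (by norm_num) eW
  have tV := eq_TCW one_ne_zero eV
  have ta : fm oa v =Θ[Ii] fun _ => (1 : ℂ) := by
    rw [ea]
    rcases all_TCW g with ⟨-, o⟩ | o <;> exact o.a
  have R := fun τ t => (hB _ _ _ (h τ t)).2.1
  refine ⟨fun τ t => ?_, ?_, ta.2.eq_zero_imp.mono fun τ a b => one_ne_zero (a b), ?_⟩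
  · have := (X_eq g t).1
    rw [eW τ t, eV τ t]
    exact ⟨mul_ne_zero (by norm_num) (pow_ne_zero _ (right_ne_zero_of_mul this)),
      mul_ne_zero one_ne_zero (pow_ne_zero _ (left_ne_zero_of_mul this))⟩
  · exact ta.inv.1.trans (Bd.cst _)
  rcases all_TCW g with ⟨⟨j, d⟩, o⟩ | o
  · have q := qq3
    simp only [Un.dt, Prod.fst_add, Prod.snd_add, Prod.smul_fst, Prod.smul_snd, smul_eq_mul] at d g
    refine ⟨3, three_ne_zero, fun n => FC_TCW _ (a := j * n) (c := (v.2.1 - 2 * j) * n)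
      (by push_cast; linear_combination 3 * n * d) (by push_cast; linear_combination -6 * n * d)
      fun τ t => ?_, ?_, .inl ?_⟩
    · obtain ⟨k, e⟩ : 3 ∣ (v.1.2 + 2 * v.2.2) ^ 2 - 1 := by
        rw [d] at g
        have : ¬ 3 ∣ v.1.2 + 2 * v.2.2 := fun a => g (dvd_sub (a.mul_left _) ((dvd_mul_right 3 j).mul_left _))
        generalize v.1.2 + 2 * v.2.2 = b at this
        obtain ⟨k, rfl | rfl⟩ : ∃ k, b = 3 * k + 1 ∨ b = 3 * k + 2 := ⟨b / 3, by omega⟩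
        exacts [⟨3 * k ^ 2 + 2 * k, by ring⟩, ⟨3 * k ^ 2 + 4 * k + 1, by ring⟩]
      have e' : ((v.1.2 + 2 * v.2.2) ^ 2 - 1 : ℂ) = 3 * k := by exact_mod_cast e
      have d' : (v.1.1 + 2 * v.2.1 : ℂ) = 3 * j := by exact_mod_cast d
      rw [show (((3 * n : ℕ) : ℂ) / 9) = (n * (v.1.2 + 2 * v.2.2) : ℤ) • (3 * pu (vx v τ) (vy v τ)) -
          lin (n * (v.1.2 + 2 * v.2.2) * j, n * k) τ by
        simp only [pu, vx, vy, lin, zsmul_eq_mul]
        push_cast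
        linear_combination -n / 3 * e' - n * (v.1.2 + 2 * v.2.2) * τ / 3 * d']
      exact sub_mem (Submodule.smul_mem _ _ ((R τ t).mem _ (by simp))) ((R τ t).le (lin_mem t _))
    · simpa [q] using (tV.trans o.b).mul (tW.trans o.c)
    · simpa [q] using (tV.trans o.b).div (tW.trans o.c)
  · have q : ∀ τ, qq 9 τ ^ 3 = qq 3 τ := fun τ => by
      simpa [show (3 : ℝ) * 3 = 9 by norm_num] using qq_pow (h := 3) three_ne_zero three_ne_zero τ
    refine ⟨9, by norm_num, fun n => FC_TCW _ (a := (v.1.1 + 2 * v.2.1) * n)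
      (c := (-2 * v.1.1 - v.2.1) * n) (by push_cast; ring) (by push_cast; ring) fun τ t => ?_, ?_,
      .inr ?_⟩
    · rw [show (((9 * n : ℕ) : ℂ) / 9) = lin (0, n) τ by simp [lin]]
      exact (R τ t).le (lin_mem t _)
    · simpa [q] using (tV.trans o.b).mul (tW.trans o.c)
    · simpa [q] using (tW.trans o.c).div (tV.trans o.b)

end Pool.Agent.MP_e23604_nt.M

end
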