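import Pool.Agent.Mg.Fe23604m.Gd767a4

set_option linter.all false

section

set_option autoImplicit false

open Finset Filter QuadraticAlgebra
open scoped Classical

namespace Pool.Agent.MP_e23604_nt.V

open B R S W

section

variable {Λ : Type} [CommRing Λ] {Z : Mx Λ} {ε : Bool} {A : Finset JJ} {n : ℕ} {b : Ideal Λ}
  {c : GQ → Λ}

theorem coord_MVAL {J : Type} [h : DecidableEq J] (j : J) (x : J →₀ Λ) :
    ev (Pi.single j 1) x = x j := by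
  obtain rfl : h = fun a b => Classical.propDecidable (a = b) := Subsingleton.elim _ _
  exact ev_coord j x

theorem uni_MVAL (hZ : Z.Ok) (hG : Z.Gd A n) (hb : Z.E.m ^ n ≤ b)
    (hc : Zf (Z.th ε n) (Rn A n) b c) {g : GQ} (hg : g ∈ GK) :
    ∑ j ∈ A, Z.wf ε n g (jn n j) * c (Z.gen (jn n j)) - c g ∈ b := by
  have h := hZ.uni ε n (Tn A n) hG.pp hG.sub (Λ ⧸ b) (Ideal.Quotient.mk b)
    (fun g => Ideal.Quotient.mk b (c g))
    (fun a ha => Ideal.Quotient.eq_zero_iff_mem.2 (hb ha)) hc.1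
    (unr_iff.2 fun g hg => Ideal.Quotient.eq_zero_iff_mem.2 (hc.2 g hg)) g hg
  rw [← hG.img, sum_image hG.inj] at h
  rw [← Ideal.Quotient.eq, h]
  simp only [map_sum, map_mul]

theorem tame_MVAL (hTHA : THA_st) (hZ : Z.Ok) (hb : Z.E.m ^ n ≤ b) {Rm : Set GQ}
    (hc : Zf (Z.th ε n) Rm b c) {ϖ : Zw} (hp : PP ϖ) :
    (1 - Z.th ε n (Z.K.τ ϖ)) * c (Z.K.σ ϖ) +
      (Z.th ε n (Z.K.σ ϖ) - ∑ i ∈ range (nn ϖ), Z.th ε n (Z.K.τ ϖ) ^ i) * c (Z.K.τ ϖ) ∈ b := by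
  obtain ⟨-, -, -, -, -, h1, h2⟩ := hTHA Λ Z.toDt n hZ.toOk0.toOk
  obtain ⟨-, h3, h4, -⟩ := h1 ε
  obtain ⟨h5, -, h6⟩ := h2 b hb
  obtain ⟨N, n3, hu⟩ := koch_unip (Λ ⧸ b) (by
    have := h6 3 Z.E.three_mem
    rwa [map_ofNat] at this)
  obtain ⟨p2, p3, p4, p5⟩ := hZ.pk.tm ϖ hp
  have l3 := hp.l_neK p2
  have := ((TPR_ok 3 N (Λ ⧸ b) _ ϖ _ _ (fun g => Ideal.Quotient.mk b (Z.th ε n g))
    Nat.prime_three l3 l3 hp.1 p2 p3 p4 p5 n3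
    ((h3 _ (Ideal.Quotient.mk b) fun a ha => Ideal.Quotient.eq_zero_iff_mem.2 (hb ha)).monoK
      (Z.K.V ϖ).D_le) fun g hg => hu _ (by
        have := h6 _ (h4 g ((Z.K.V ϖ).D_le hg)).1
        rwa [map_sub, map_one] at this)).1 _ (hc.1.monoK (Z.K.V ϖ).D_le)).1
  rw [← Ideal.Quotient.eq_zero_iff_mem, ← this]
  simp only [map_add, map_mul, map_sub, map_one, map_sum, map_pow]

theorem row_MVAL (hZ : Z.Ok) (hb : Z.E.m ^ n ≤ b) (hc : Z.Kl ε n b c) (t : Bool) :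
    ∑ k, Z.F ε n t k * c (Z.y k) ∈ b := by
  obtain ⟨a, ha⟩ := hc
  have e : ∑ k, Z.F ε n t k * c (Z.y k) =
      ∑ k, Z.F ε n t k * (c (Z.y k) - ∑ i, a i * Z.lo ε n i (Z.y k)) +
        ∑ i, a i * ∑ k, Z.F ε n t k * Z.lo ε n i (Z.y k) := by
    simp only [Fin.sum_univ_four, Fin.sum_univ_two]
    ring
  rw [e]
  exact b.add_mem (b.sum_mem fun k _ => b.mul_mem_left _ (ha _ (hZ.yD k)))
    (b.sum_mem fun i _ => b.mul_mem_left _ (hb ((hZ.row ε n).1 t i)))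

end

theorem VAL_pf (hY : HY) (hTRM : TRM_st) (hTHA : THA_st) (hGER : GER_st) : VAL_st := by
  intro Λ _ _ Z ε P A x f hZ hA hL hR
  obtain ⟨-, g1, -, -, -, -, -, -, g2⟩ := hGER Λ Z hZ.toOk0
  have hG := g1 A hA
  obtain ⟨k, k1, k2⟩ := hL
  have p1 : ∀ g, Inc GK g → ev (Z.fm ε g) x - Z.E.ev f g ∈ P := fun g hg => by
    have e : ev (Z.fm ε g) x - Z.E.ev f g =
        ∑ j ∈ A, Z.fm ε g j * (x j - Z.E.ev f (Z.gj j)) + Z.E.L fun n =>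
          ∑ j ∈ A, Z.wf ε n (g n) (jn n j) * f n (Z.gen (jn n j)) - f n (g n) := by
      rw [ev_apply _ _ hR.1, Z.E.L_sub, Z.E.L_sum]
      simp only [Z.E.L_mul, mul_sub, sum_sub_distrib]
      exact (sub_add_sub_cancel _ _ _).symm
    rw [e]
    refine P.add_mem (P.sum_mem fun j hj => P.mul_mem_left _ (hR.2 j hj)) (L_mem Z.E k1 ?_)
    filter_upwards [hG] with n hn
    exact uni_MVAL hZ hn (Z.E.le_sup P (k2 n).1) (k2 n).2 (hg n)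
  refine ⟨p1, fun j hj hj' => ?_, fun ⟨k', l1, l2⟩ t => ?_⟩
  · obtain t | a := j
    · exact absurd (by cases t <;> simp [m1]) hj'
    have e : ev (Z.rel ε (.inr a)) x =
        Z.mu ε (.inr a) * (ev (Z.fm ε (Z.sg (.inr a))) x - Z.E.ev f (Z.sg (.inr a))) +
        Z.nu ε (.inr a) * (x (.inr a) - Z.E.ev f (Z.gj (.inr a))) + Z.E.L fun n =>
          (1 - Z.th ε n (Z.K.τ (sq a n))) * f n (Z.K.σ (sq a n)) +
            (Z.th ε n (Z.K.σ (sq a n)) - ∑ i ∈ range (nn (sq a n)),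
              Z.th ε n (Z.K.τ (sq a n)) ^ i) * f n (Z.K.τ (sq a n)) := by
      rw [Mx.rel, ev_add, ev_smul, ev_smul, coord_MVAL, Z.E.L_add, Z.E.L_mul, Z.E.L_mul,
        Z.E.L_sub (fun _ => 1), Z.E.const]
      change _ = _ + (Z.mu ε (.inr a) * Z.E.ev f (Z.sg (.inr a)) +
        Z.nu ε (.inr a) * Z.E.ev f (Z.gj (.inr a)))
      ring
    rw [e]
    refine P.add_mem (P.add_mem (P.mul_mem_left _ (p1 _ (g2 _).2))
      (P.mul_mem_left _ (hR.2 _ hj))) (L_mem Z.E k1 ?_)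
    filter_upwards [hG] with n hn
    exact tame_MVAL hTHA hZ (Z.E.le_sup P (k2 n).1) (k2 n).2
      (hn.pp _ (mem_image_of_mem _ (mem_toRight.2 hj)))
  · have e : ev (Z.w ε (.inl t)) x = ∑ i, (Z.E.L fun n => Z.F ε n t i) *
        (ev (Z.fm ε fun _ => Z.y i) x - Z.E.ev f fun _ => Z.y i) +
          Z.E.L fun n => ∑ i, Z.F ε n t i * f n (Z.y i) := by
      rw [Z.E.L_sum]
      simp only [Mx.w, Z.E.L_mul, Fin.sum_univ_four, ev_add, ev_smul, Lm.ev]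
      ring
    rw [e]
    exact P.add_mem (P.sum_mem fun i _ => P.mul_mem_left _
      (p1 _ fun _ => V3.D_le (hZ.yD i))) (Z.E.mem_of l1 fun n =>
        row_MVAL hZ (Z.E.le_sup P (l2 n).1) (l2 n).2.2 t)

end Pool.Agent.MP_e23604_nt.V

end

section

set_option autoImplicit false

open Finset Filter QuadraticAlgebra
open scoped Classical

namespace Pool.Agent.MP_e23604_nt.V

open B R S W

section aux

variable {Λ R : Type} [CommRing Λ] [IsDomain Λ] [CommRing R] [IsDomain R] {Z : Mx Λ} {ϑ : Λ →+* R}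

/-- `x` comes from a limit cocycle -/
def Lf_MSYP (Z : Mx Λ) (ϑ : Λ →+* R) (ε : Bool) (A : Finset JJ) (x : JJ →₀ R) : Prop :=
  ∃ x' f, vt ϑ x' = x ∧ Z.LS ε (RingHom.ker ϑ) A f ∧ Z.Rv (RingHom.ker ϑ) A x' f

omit [IsDomain Λ] [IsDomain R] in
theorem ev_MSYP (ε : Bool) (i : JJ) (x : JJ →₀ Λ) :
    ev (Z.wt ϑ ε i) (vt ϑ x) = ϑ (ev (Z.w ε i) x) := ev_vt ϑ _ x

omit [IsDomain Λ] [IsDomain R] in
theorem rsum_MSYP (ε : Bool) {B B' : Finset JJ} {x y : JJ →₀ Λ} (h : B ⊆ B')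
    (h' : ∀ j ∈ B', j ∉ B → vt ϑ x j = 0 ∧ vt ϑ y j = 0) :
    rsum (Z.wt ϑ ε) (Z.ut ϑ ε) B (vt ϑ x) (vt ϑ y) = ϑ (rsum (Z.w ε) (Z.u ε) B' x y) := by
  rw [rsum, sum_subset h fun j a b => by rw [(h' j a b).1, (h' j a b).2]; ring, rsum, map_sum]
  refine sum_congr rfl fun j _ => ?_
  rw [ev_MSYP, ev_MSYP, map_mul, map_add, map_mul, map_mul]
  rfl

omit [IsDomain R] in
theorem lf_MSYP (hEXS : EXS_st) (hZ : Z.Ok) (hs : Function.Surjective ϑ) {ε : Bool}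
    {A A' : Finset JJ} {x : JJ →₀ R} (hA : Z.Ad A') (h1 : A ⊆ A') (hx : Kr (Z.wt ϑ ε) m1 A x)
    (hq : x Z.qg = 0 ∨ ϑ Z.E.T = 0)
    (hr : ∀ x', vt ϑ x' = x → ∀ j ∈ Z.Sg ∪ Z.Bg, ϑ (ev (Z.rel ε j) x') = 0) :
    Lf_MSYP Z ϑ ε A' x := by
  obtain ⟨x', rfl, e⟩ := ex_vt hs x
  obtain ⟨f, hf⟩ := hEXS Λ Z ε (RingHom.ker ϑ) A' x' hZ hA (e ▸ hx.1.trans h1) hq
    (fun t => (ev_MSYP ε _ x').symm.trans (hx.2 _ (by cases t <;> simp [m1]))) (hr x' rfl)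
  exact ⟨x', f, rfl, hf⟩

omit [IsDomain R] in
theorem lfP_MSYP (hGER : GER_st) (hROW : ROW_st) (hEXS : EXS_st) (hZ : Z.Ok)
    (hs : Function.Surjective ϑ) {ε : Bool} {A A' : Finset JJ} {x : JJ →₀ R} (hA : Z.Ad A')
    (h1 : A ⊆ A') (hx : Kr (Z.wt ϑ ε) Z.m0 A x) (hq : x Z.qg = 0 ∨ ϑ Z.E.T = 0) :
    Lf_MSYP Z ϑ ε A' x := by
  obtain ⟨-, -, -, -, r5, r6, -⟩ := hROW Λ Z ε hZ.toOk0
  have g4 := (hGER Λ Z hZ.toOk0).1.2.2.2.1
  refine lf_MSYP hEXS hZ hs hA h1 (hx.mono subset_union_left subset_rfl) hq ?_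
  rintro x' rfl j hj
  have h0 := hx.2 j (by rw [g4, union_assoc]; exact mem_union_right _ hj)
  rw [ev_MSYP] at h0
  rcases mem_union.1 hj with h | h
  · obtain ⟨ϖ, h2, rfl⟩ := mem_image.1 h
    rwa [← (r6 ϖ h2).1]
  · rw [(r5 j h).2.1, ev_smul, map_mul, h0, mul_zero]

omit [IsDomain Λ] [IsDomain R] in
theorem rv_MSYP {A : Finset JJ} {x : JJ →₀ Λ} {f : ℕ → GQ → Λ} {j : JJ}
    (h : Z.Rv (RingHom.ker ϑ) A x f) (hj : j ∈ A) (h0 : vt ϑ x j ≠ 0) :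
    Z.E.ev f (Z.gj j) ∉ RingHom.ker ϑ := fun e =>
  h0 (show ϑ (x j) = 0 by simpa using add_mem (h.2 j hj) e)

omit [IsDomain R] in
theorem det_MSYP (hROW : ROW_st) (hVAL : VAL_st) (hGER : GER_st) (hZ : Z.Ok) {ε : Bool}
    {A : Finset JJ} {x : JJ →₀ Λ} {f : ℕ → GQ → Λ} {l : JJ} (hA : Z.Ad A)
    (h1 : Z.LS ε (RingHom.ker ϑ) A f) (h2 : Z.Rv (RingHom.ker ϑ) A x f) (hl : l ∈ Z.L)
    (h : Z.E.ev f (Z.sg l) ∉ RingHom.ker ϑ) : ev (Z.wt ϑ ε l) (vt ϑ x) ≠ 0 := fun e => by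
  have h3 := (hVAL Λ Z ε _ A x f hZ hA h1.lc h2).1 _
    ((hGER Λ Z hZ.toOk0).2.2.2.2.2.2.2.2 l).2
  rw [ev_MSYP, ((hROW Λ Z ε hZ.toOk0).1 l (.inl hl)).1] at e
  exact h (by simpa using sub_mem (RingHom.mem_ker.2 e) h3)

theorem ch_MSYP (hROW : ROW_st) (hVAL : VAL_st) (hGER : GER_st) (hCHL : CHL_st) (hZ : Z.Ok)
    (hT : ϑ Z.E.T ≠ 0) {A : Finset JJ} (hA : Z.Ad A) (s : Finset (Bool × (JJ →₀ R)))
    (h : ∀ p ∈ s, p.2 ≠ 0 ∧ p.2 Z.qg = 0 ∧ Lf_MSYP Z ϑ p.1 A p.2) :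
    ∃ l ∈ Z.L, l ∉ A ∧ ∀ p ∈ s, ev (Z.wt ϑ p.1 l) p.2 ≠ 0 := by
  choose x f e h1 h2 using fun p : s => (h p p.2).2.2
  have hq : Z.qg ∈ A := hA.1 (mem_insert_self _ _)
  obtain ⟨l, l1, l2, l3⟩ := (hCHL Λ Z _ A hZ.toOk0 hA (RingHom.ker_isPrime ϑ)).1 hT s
    (fun p => p.1.1) f fun p => ⟨(h1 p).lc, by
      have h3 : x p Z.qg ∈ RingHom.ker ϑ := by
        have := (h p p.2).2.1
        rwa [← e p] at this
      simpa using sub_mem h3 ((h2 p).2 _ hq), by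
      obtain ⟨j, hj⟩ := Finsupp.ne_iff.1 (h p p.2).1
      rw [← e p] at hj
      exact ⟨_, ((hGER Λ Z hZ.toOk0).2.2.2.2.2.2.2.2 j).1, rv_MSYP (h2 p)
        ((h2 p).1 (Finsupp.support_mapRange (Finsupp.mem_support_iff.2 hj))) hj⟩⟩
  refine ⟨l, l1, l2, fun p hp => ?_⟩
  have := det_MSYP hROW hVAL hGER hZ hA (h1 ⟨p, hp⟩) (h2 ⟨p, hp⟩) l1 (l3 ⟨p, hp⟩)
  rwa [e] at this

end aux

theorem SYP_pf (hY : HY) (hGER : GER_st) (hROW : ROW_st) (hVAL : VAL_st) (hEXS : EXS_st) (hRCL : RCL_st) (hCHL : CHL_st) : SYP_st := by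
  intro Λ R _ _ _ _ Z ϑ hZ hs h3
  obtain ⟨⟨g1, g2, -⟩, -, g3, -, -, g6, -⟩ := hGER Λ Z hZ.toOk0
  have hq : ∀ A, Vx Z.m0 Z.L A → Z.qg ∉ A := fun A hA h => g2 (hA.2 _ h g1)
  have hsub : ∀ A, A ⊆ insert Z.qg (A ∪ Z.m0) := fun A =>
    subset_union_left.trans (subset_insert _ _)
  have h9 : ∀ a, 3 * a ∈ RingHom.ker ϑ → ϑ a = 0 := fun a h =>
    (mul_eq_zero.1 ((map_mul ϑ 3 a).symm.trans h)).resolve_left h3
  refine ⟨fun hT => ⟨fun ε l hl => ?_, fun ε A x y hA hx hy => ?_, fun A s hA h => ?_, g6⟩,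
    fun hT ε => ⟨fun A x y hA hx hy => ?_, fun ξ hξ h0 => ?_⟩⟩
  · exact ((hROW Λ Z ε hZ.toOk0).2.2.2.2.2.2 l (.inl (.inl hl))).map ϑ
  · have a := g3 A (.inl hA)
    have qx := hx.out (hq A hA)
    have qy := hy.out (hq A hA)
    obtain ⟨x', f, rfl, x1, x2⟩ := lfP_MSYP hGER hROW hEXS hZ hs a (hsub A) hx (.inl qx)
    obtain ⟨y', f', rfl, y1, y2⟩ := lfP_MSYP hGER hROW hEXS hZ hs a (hsub A) hy (.inl qy)
    rw [rsum_MSYP ε (B' := insert Z.qg (A ∪ Z.m0) \ insert Z.qg Z.m0) (fun j hj => ?_)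
      fun j hj hj' => ?_]
    · exact h9 _ ((hRCL Λ Z ε _ _ x' y' f f' hZ a x1 y1 x2 y2).1 qx qy)
    · simp only [Finset.mem_sdiff] at hj
      refine Finset.mem_sdiff.2 ⟨hsub A hj.1, fun e => ?_⟩
      exact (mem_insert.1 e).elim (fun e => hq A hA (e ▸ hj.1)) hj.2
    · simp only [Finset.mem_sdiff] at hj'
      have : j ∉ A := fun e => hj' ⟨e, fun e' => (Finset.mem_sdiff.1 hj).2 (mem_insert_of_mem e')⟩
      exact ⟨hx.out this, hy.out this⟩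
  · have a := g3 A (.inl hA)
    obtain ⟨l, l1, l2, l3⟩ := ch_MSYP hROW hVAL hGER hCHL hZ hT a s fun p hp =>
      ⟨(h p hp).1, (h p hp).2.out (hq A hA), lfP_MSYP hGER hROW hEXS hZ hs a (hsub A) (h p hp).2
        (.inl ((h p hp).2.out (hq A hA)))⟩
    exact ⟨l, l1, fun e => l2 (hsub A e), l3⟩
  · have a : Z.Ad (insert Z.qg A) := ⟨insert_subset_insert _ hA.1, fun j h1 h2 => by
      rw [mem_insert, not_or] at h2
      exact (hA.2 j ((mem_insert.1 h1).resolve_left h2.1) h2.2).resolve_left h2.1⟩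
    obtain ⟨x', f, rfl, x1, x2⟩ :=
      lfP_MSYP hGER hROW hEXS hZ hs a (subset_insert _ _) hx (.inr hT)
    obtain ⟨y', f', rfl, y1, y2⟩ :=
      lfP_MSYP hGER hROW hEXS hZ hs a (subset_insert _ _) hy (.inr hT)
    rw [rsum_MSYP ε (B' := insert Z.qg A \ Z.m0) (fun j hj => ?_) fun j hj hj' => ?_]
    · exact h9 _ ((hRCL Λ Z ε _ _ x' y' f f' hZ a x1 y1 x2 y2).2.1 hT)
    · simp only [Finset.mem_sdiff] at hj
      exact Finset.mem_sdiff.2 ⟨mem_insert_of_mem hj.1, hj.2⟩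
    · simp only [Finset.mem_sdiff] at hj'
      have : j ∉ A := fun e => hj' ⟨e, (Finset.mem_sdiff.1 hj).2⟩
      exact ⟨hx.out this, hy.out this⟩
  · have a : Z.Ad (insert Z.qg Z.m0) := Vx.refl _ _
    obtain ⟨x', f, rfl, x1, x2⟩ := lfP_MSYP hGER hROW hEXS hZ hs a subset_rfl hξ (.inr hT)
    obtain ⟨l, l1, -, l3⟩ := (hCHL Λ Z _ _ hZ.toOk0 a (RingHom.ker_isPrime ϑ)).2 hT h3 ε f x1.lc
      (rv_MSYP x2 (mem_insert_self _ _) h0)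
    exact ⟨l, l1, det_MSYP hROW hVAL hGER hZ a x1 x2 l1 l3⟩

theorem SYR_pf (hY : HY) (hGER : GER_st) (hROW : ROW_st) (hVAL : VAL_st) (hEXS : EXS_st) (hRCL : RCL_st) (hCHL : CHL_st) : SYR_st := by
  intro Λ R _ _ _ _ Z ϑ hZ hR
  obtain ⟨⟨g1, g2, g7, g8, g9, g10, -⟩, -, g3, -, g5, -⟩ := hGER Λ Z hZ.toOk0
  have hp : ϑ (Z.E.ι pw) = 0 := (hR.ker _).2 dvd_rfl
  have m1s : m1 ⊆ Z.m0 := subset_union_left
  have sgs : Z.Sg ⊆ Z.m0 := g8 ▸ subset_union_right.trans subset_union_left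
  have bgs : Z.Bg ⊆ Z.m0 := g8 ▸ subset_union_right
  have hq : ∀ A, Vx m1 Z.L' A → Z.qg ∉ A := fun A hA h =>
    (hA.2 _ h fun e => g1 (m1s e)).elim g2 fun e => g1 (bgs e)
  have hS : ∀ A, Vx m1 Z.L' A → ∀ j ∈ Z.Sg, j ∉ A := fun A hA j hj h =>
    (hA.2 _ h fun e => disjoint_left.1 g9 e (mem_union_left _ hj)).elim (g7 j (sgs hj))
      fun e => disjoint_left.1 g10 hj e
  have hsub : ∀ A, A ⊆ insert Z.qg (A ∪ Z.m0) := fun A =>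
    subset_union_left.trans (subset_insert _ _)
  have lf : ∀ ε A x, Vx m1 Z.L' A → Kr (Z.wt ϑ ε) m1 A x →
      Lf_MSYP Z ϑ ε (insert Z.qg (A ∪ Z.m0)) x := fun ε A x hA hx => by
    obtain ⟨-, -, -, r4, r5, -⟩ := hROW Λ Z ε hZ.toOk0
    refine lf_MSYP hEXS hZ hR.sur (g3 A (.inr hA)) (hsub A) hx (.inl (hx.out (hq A hA))) ?_
    rintro x' rfl j hj
    have h0 : ϑ (Z.mu ε j) = 0 := (hR.ker _).2 (r4 j hj).2
    rcases mem_union.1 hj with h | h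
    · have h1 : ϑ (x' j) = 0 := hx.out (hS A hA j h)
      have h2 : ev (Pi.single j 1) x' = x' j := by
        rw [← ev_coord j x']
        refine congrArg (ev · x') (funext fun i => ?_)
        by_cases e : i = j <;> simp [e]
      rw [Mx.rel, ev_add, ev_smul, ev_smul, h2, map_add, map_mul, map_mul, h0, h1]
      ring
    · rw [(r5 j h).2.1, ev_smul, map_mul, h0, zero_mul]
  refine ⟨fun ε l hl => ?_, fun ε A x y hA hx hy => ?_, fun A s hA h => ?_, g5⟩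
  · exact ((hROW Λ Z ε hZ.toOk0).2.2.2.2.2.2 l (.inl hl)).map ϑ
  · obtain ⟨x', f, rfl, x1, x2⟩ := lf ε A x hA hx
    obtain ⟨y', f', rfl, y1, y2⟩ := lf ε A y hA hy
    rw [rsum_MSYP ε (B' := insert Z.qg (A ∪ Z.m0) \ insert Z.qg (m1 ∪ Z.Sg)) (fun j hj => ?_)
      fun j hj hj' => ?_]
    · exact (hRCL Λ Z ε _ _ x' y' f f' hZ (g3 A (.inr hA)) x1 y1 x2 y2).2.2 hp
        (hx.out (hq A hA)) (hy.out (hq A hA)) fun j hj =>
          ⟨hx.out (hS A hA j hj), hy.out (hS A hA j hj)⟩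
    · simp only [Finset.mem_sdiff] at hj
      obtain ⟨j1, j2⟩ := hj
      refine Finset.mem_sdiff.2 ⟨hsub A j1, fun e => ?_⟩
      exact (mem_insert.1 e).elim (fun e => hq A hA (e ▸ j1)) fun e =>
        (mem_union.1 e).elim j2 fun e => hS A hA j e j1
    · simp only [Finset.mem_sdiff] at hj'
      have : j ∉ A := fun e =>
        hj' ⟨e, fun e' => (Finset.mem_sdiff.1 hj).2 (mem_insert_of_mem (mem_union_left _ e'))⟩
      exact ⟨hx.out this, hy.out this⟩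
  · obtain ⟨l, l1, l2, l3⟩ := ch_MSYP hROW hVAL hGER hCHL hZ
      (fun e => Z.E.piT ((hR.ker _).1 e)) (g3 A (.inr hA)) s fun p hp =>
        ⟨(h p hp).1, (h p hp).2.out (hq A hA), lf _ A _ hA (h p hp).2⟩
    exact ⟨l, .inl l1, fun e => l2 (hsub A e), l3⟩

end Pool.Agent.MP_e23604_nt.V

end
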