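import Pool.Agent.Mg.Fe23604m.G256ad4
import Pool.Agent.Mg.Fe23604m.G95fc3b

set_option linter.all false

section

/-!
Residual Kummer cocycles at three.
-/

set_option autoImplicit false

open Finset Filter QuadraticAlgebra
open scoped Classical

namespace Pool.Agent.MP_e23604_nt.PH

open B R S W V

theorem um_PnKum {g : GQ} (hg : g ∈ GK) : g ∈ UM pw :=
  ⟨hg, fun P h => PI_ok.2.2.2.2 g hg P (dvd_smul h pw_dvd3)⟩

theorem eta_PnKum (χ : GQ → ZMod 3) {g : GQ} (hg : g ∈ GK) (S : Pt) (h : pw • S = 0) :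
    eta χ g S = S := by
  rw [eta_apply, (um_PnKum hg).2 S h, smul_congr h (b := 1)
    (pw_w.trans (by simpa using sub_dvd_pow_sub_pow (ω : Zw) 1 (χ g).val)), one_smul]

theorem KUM_pf (hV : HV) : KUM_st := by
  rintro χ κ R _ φ ⟨P₀, f0, k0, sp⟩ h0
  have hd : ∀ {a b : Zw}, pw ∣ a - b → φ a = φ b := by
    rintro a b ⟨c, e⟩
    rw [← sub_eq_zero, ← map_sub, e, map_mul, h0, zero_mul]
  obtain ⟨d1, d2, -, d4, -, -, -, d8, d9⟩ := hV.DL R φ pw pw_ne h0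
  have h3 : (3 : R) = 0 := by
    simpa only [map_ofNat, map_zero] using hd (a := 3) (b := 0) (by simpa using pw_dvd3)
  have hn : ∀ x : ZMod 3, (cv (-x) : R) = -cv x := fun x => by
    obtain ⟨k, e⟩ : 3 ∣ (-x).val + x.val := by revert x; decide
    rw [eq_neg_iff_add_eq_zero, cv, cv, ← Nat.cast_add, e, Nat.cast_mul, Nat.cast_ofNat, h3, zero_mul]
  have hk : ∀ x : ZMod 3, φ (co (N.gq pw) (x.val • T0)) = cv x * φ (co (N.gq pw) T0) := fun x => by
    rw [← Nat.cast_smul_eq_nsmul Zw, d4 _ _ pw_T0, map_natCast, cv]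
  have fT : Fx χ V3.D T0 := fun g hg => eta_PnKum χ hg.2 _ pw_T0
  have e9 := fun g (hg : g ∈ V3.D) => (d9 χ g hg.2).2.2 (eta_PnKum χ hg.2)
  have eT : ∀ g ∈ V3.D, N.dl φ pw χ g T0 = -cv (χ g) * φ (co (N.gq pw) T0) := fun g hg => by
    rw [N.dl, (hV.KPI χ g _ hg.2 (by rw [d2]; exact fT g hg)).1 (d2 _), hk, hn]
  have eP : ∀ g ∈ V3.D, N.dl φ pw χ g P₀ = cv (κ g) * φ (co (N.gq pw) T0) := fun g hg => by
    rw [N.dl, k0 _ (d2 _) g hg, hk]
  refine ⟨fun M c hM ⟨M₁, e⟩ ⟨ι, _, r, P, hP, m, hc⟩ => ?_, fun α β c hc => ?_⟩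
  · rw [mul_comm] at e
    subst e
    obtain ⟨v, -, hv⟩ := d8 M₁ (left_ne_zero_of_mul hM)
    obtain ⟨-, D2, -, -, -, -, -, -, D9⟩ :=
      hV.DL R φ _ hM (by rw [map_mul, h0, mul_zero])
    choose a b P' hP' eq using fun t => sp (P t) (hP t)
    refine ⟨∑ t, r t * v * -φ (a t) * φ (co (N.gq pw) T0),
      ∑ t, r t * v * φ (b t) * φ (co (N.gq pw) T0), fun g hg => ?_⟩
    have hl : lamZ φ χ (M₁ * pw) g = 1 := by
      have p1 := (PS_ok pw pw_ne).1 g hg.2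
      rw [lamZ, map_mul, map_pow, hd pw_w, map_one, one_pow, one_mul,
        hd (p1.2.2.2.2.2.2.2.2 _ hM (dvd_mul_left _ _)), hd (p1.2.2.2.1.1 (um_PnKum hg.2)), map_one]
    rw [hc g hg, hl, sub_self, zero_mul, add_zero, sum_mul, sum_mul, ← sum_add_distrib]
    refine sum_congr rfl fun t _ => ?_
    obtain ⟨-, l1, l2, l3, -⟩ := e9 g hg
    have s1 : ∀ (u : Zw) (Q : Pt), eta χ g Q = Q → eta χ g (u • Q) = u • Q := fun u Q h => by
      rw [eta_smul χ hg.2, h]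
    have s2 := s1 (a t) _ (fT g hg)
    have s3 := s1 (b t) _ (f0 g hg)
    rw [N.dl, hv _ ((D9 χ g hg.2).2.1 _ (hP t g hg)), smul_sub, ← eta_smul χ hg.2,
      ← l1 (P t) _ (hP t g hg) (by rw [← mul_smul, mul_comm, D2]), eq t,
      (l2 _ _ (by rw [map_add, s2, s3]) (s1 _ _ (hP' t g hg))).1, (l2 _ _ s2 s3).1,
      l3 _ _ (fT g hg), l3 _ _ (f0 g hg), l3 _ _ (hP' t g hg), eT g hg, eP g hg, h0]
    ring
  · obtain ⟨u, hu⟩ := (CYG_ok pw pw_ne).2.1 T0 Gen_T0 _ ((d1 pw).2 dvd_rfl)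
    have h1 : φ u * φ (co (N.gq pw) T0) = 1 := by
      have h2 : N.gq pw = co (N.gq pw) (N.gq pw) • N.gq pw :=
        Classical.epsilon_spec (p := fun u : Zw => N.gq pw = u • N.gq pw) ⟨1, (one_smul _ _).symm⟩
      rw [← d4 _ _ pw_T0, ← hu, ← map_one φ]
      exact hd ((d1 _).1 (by rw [sub_smul, ← h2, one_smul, sub_self]))
    refine ⟨Fin 2, inferInstance, ![-α * φ u, β * φ u], ![T0, P₀],
      Fin.forall_fin_two.2 ⟨fT, f0⟩, 0, fun g hg => ?_⟩
    simp only [Fin.sum_univ_two, Matrix.cons_val_zero, Matrix.cons_val_one]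
    rw [hc g hg, eT g hg, eP g hg]
    linear_combination (-α * cv (χ g) - β * cv (κ g)) * h1

theorem KLR_pf (hV : HV) (hK : KUM_st) : KLR_st := by
  intro Λ _ Z ε κ n b f hZ hL hm hb
  have h0 : Z.ph ε pw ∈ b := by
    cases ε
    · change Z.E.ι (star pw) ∈ b
      rw [star_pw, map_neg]
      exact b.neg_mem hb
    · simpa [Dt.ph] using hb
  have hd : pw ∣ 3 ^ (n + 1) := pw_dvd3.trans (dvd_pow_self _ n.succ_ne_zero)
  obtain ⟨k1, k2⟩ := hK (Z.χ ε) κ _ ((Ideal.Quotient.mk b).comp (Z.ph ε)) hL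
    (Ideal.Quotient.eq_zero_iff_mem.2 h0)
  have hc : ∀ (α β : Λ) (g : GQ), Ideal.Quotient.mk b (α * cv (Z.χ ε g) + β * cv (κ g)) =
      Ideal.Quotient.mk b α * cv (Z.χ ε g) + Ideal.Quotient.mk b β * cv (κ g) := fun α β g => by
    simp only [cv, map_add, map_mul, map_natCast]
  constructor
  · rintro ⟨a, ha⟩
    obtain ⟨α, β, h⟩ := k1 (3 ^ (n + 1)) (fun g => Ideal.Quotient.mk b (f g))
      (pow_ne_zero _ (by norm_num)) hd ⟨Fin 2, inferInstance, fun i => Ideal.Quotient.mk b (a i),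
        Z.P ε, (hZ.lb ε).fx, 0, fun g hg => by
          dsimp only
          rw [Ideal.Quotient.eq.2 (ha g hg), map_sum, mul_zero, add_zero]
          exact sum_congr rfl fun i _ => map_mul _ _ _⟩
    obtain ⟨α, rfl⟩ := Ideal.Quotient.mk_surjective α
    obtain ⟨β, rfl⟩ := Ideal.Quotient.mk_surjective β
    exact ⟨α, β, fun g hg => Ideal.Quotient.eq.1 ((h g hg).trans (hc α β g).symm)⟩
  · rintro ⟨α, β, h⟩
    exact (hV.LOK Λ Z ε n b f hZ hm).1 ⟨pw, hd, h0, k2 _ _ _ fun g hg =>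
      (Ideal.Quotient.eq.2 (h g hg)).trans (hc α β g)⟩

end Pool.Agent.MP_e23604_nt.PH

end

section

/-!
The residual systems form a pencil.
-/

set_option autoImplicit false

open Finset Filter QuadraticAlgebra
open scoped Classical

namespace Pool.Agent.MP_e23604_nt.PH

open B R S W V

theorem PNS_pf (hV : HV) (hE : EXC_st) (hR : RCP_st) : PNS_st := by
  intro Λ R _ _ _ _ Z ϑ e hZ hϑ
  obtain ⟨⟨g1, g2, g7, g8, g9, g10, -⟩, -, g3, -, -, -, -, -, g4⟩ := hV.GER Λ Z hZ.toOk0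
  have hS := hV.SYR Λ R Z ϑ hZ hϑ
  have hp : Z.E.ι pw ∈ RingHom.ker ϑ := (hϑ.ker _).2 dvd_rfl
  have m1s : m1 ⊆ Z.m0 := subset_union_left
  have sgs : Z.Sg ⊆ Z.m0 := g8 ▸ subset_union_right.trans subset_union_left
  have bgs : Z.Bg ⊆ Z.m0 := g8 ▸ subset_union_right
  have hq : ∀ A, Vx m1 Z.L' A → Z.qg ∉ A := fun A hA h =>
    (hA.2 _ h fun e => g1 (m1s e)).elim g2 fun e => g1 (bgs e)
  have hs : ∀ A, Vx m1 Z.L' A → ∀ j ∈ Z.Sg, j ∉ A := fun A hA j hj h =>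
    (hA.2 _ h fun e => disjoint_left.1 g9 e (mem_union_left _ hj)).elim (g7 j (sgs hj))
      fun e => disjoint_left.1 g10 hj e
  have hsub : ∀ A, A ⊆ insert Z.qg (A ∪ Z.m0) := fun A =>
    subset_union_left.trans (subset_insert _ _)
  have out : ∀ {A : Finset JJ} {x : JJ →₀ R}, x.support ⊆ A → ∀ {j}, j ∉ A → x j = 0 :=
    fun h _ hj => Finsupp.notMem_support_iff.1 fun e => hj (h e)
  have lf : ∀ ε A (x : JJ →₀ R), Vx m1 Z.L' A → x.support ⊆ A → ∃ x' f, vt ϑ x' = x ∧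
      Z.LC ε (RingHom.ker ϑ) (insert Z.qg (A ∪ Z.m0)) f ∧
      Z.Rv (RingHom.ker ϑ) (insert Z.qg (A ∪ Z.m0)) x' f := fun ε A x hA hx => by
    obtain ⟨-, -, -, r4, r5, -⟩ := hV.ROW Λ Z ε hZ.toOk0
    obtain ⟨x', rfl, e'⟩ := ex_vt hϑ.sur x
    obtain ⟨f, hf⟩ := hE Λ Z ε (RingHom.ker ϑ) _ x' hZ (g3 A (.inr hA)) hp
      (e' ▸ hx.trans (hsub A)) (out hx (hq A hA)) fun j hj => by
        have h0 : ϑ (Z.mu ε j) = 0 := (hϑ.ker _).2 (r4 j hj).2
        rw [RingHom.mem_ker]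
        rcases mem_union.1 hj with h | h
        · have h1 : ϑ (x' j) = 0 := out hx (hs A hA j h)
          have h2 : ev (Pi.single j 1) x' = x' j := by
            rw [← ev_coord j x']
            refine congrArg (ev · x') (funext fun i => ?_)
            by_cases e : i = j <;> simp [e]
          rw [Mx.rel, ev_add, ev_smul, ev_smul, h2, map_add, map_mul, map_mul, h0, h1]
          ring
        · rw [(r5 j h).2.1, ev_smul, map_mul, h0, zero_mul]
    exact ⟨x', f, rfl, hf⟩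
  obtain ⟨v, hv, rcp⟩ := hR Λ Z e hZ
  have key : ∀ A (x y : JJ →₀ R), Vx m1 Z.L' A → x.support ⊆ A → y.support ⊆ A →
      rsum (Z.wt ϑ e) (Z.ut ϑ e) (A \ m1) x y = ϑ v * V.bt (Ft Z ϑ e) x y := by
    intro A x y hA hx hy
    obtain ⟨x', f, rfl, x1, x2⟩ := lf e A x hA hx
    obtain ⟨y', f', rfl, y1, y2⟩ := lf e A y hA hy
    have h := rcp _ _ x' y' f f' hp (g3 A (.inr hA)) x1 y1 x2 y2 (out hx (hq A hA))
      (out hy (hq A hA)) fun j hj => ⟨out hx (hs A hA j hj), out hy (hs A hA j hj)⟩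
    have b : ∀ a z, ev (Ft Z ϑ e a) (vt ϑ z) = ϑ (ev (Fc Z e a) z) := fun a z => ev_vt ϑ _ z
    rw [RingHom.mem_ker, map_sub, sub_eq_zero] at h
    rw [rsum_MSYP e (B' := insert Z.qg (A ∪ Z.m0) \ insert Z.qg (m1 ∪ Z.Sg)) (fun j hj => ?_)
      fun j hj hj' => ?_, h]
    · simp only [V.bt, b, map_mul, map_add, map_sub]
    · simp only [Finset.mem_sdiff] at hj
      obtain ⟨j1, j2⟩ := hj
      refine Finset.mem_sdiff.2 ⟨hsub A j1, fun e => ?_⟩
      exact (mem_insert.1 e).elim (fun e => hq A hA (e ▸ j1)) fun e =>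
        (mem_union.1 e).elim j2 fun e => hs A hA j e j1
    · simp only [Finset.mem_sdiff] at hj'
      have : j ∉ A := fun e =>
        hj' ⟨e, fun e' => (Finset.mem_sdiff.1 hj).2 (mem_insert_of_mem (mem_union_left _ e'))⟩
      exact ⟨out hx this, out hy this⟩
  refine ⟨by simp, by simp [m1], by simp [m1], hS.un, hS.sd, hS.rc _,
    fun A x y hA hx hy h => by
      refine Eq.trans (congrArg (rsum _ _ · x y) (Finset.ext fun _ => by simp))
        ((key A x y hA hx.1 hy.1).trans (by rw [h, mul_zero])),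
    fun m x y hm hx hy => ?_, fun A s hA h => ?_⟩
  · refine (hv.map ϑ).mul_right_eq_zero.1 ((key m x y hm hx.1 hy.1).symm.trans
      (sum_eq_zero fun l hl => ?_))
    have hl' : l ∈ m ∧ l ∉ ({.inl true, .inl false} : Finset JJ) := by simpa [m1] using hl
    rw [hx.2 l (by simpa using hl'), hy.2 l (by simpa using hl')]
    ring
  · choose x f e' h1 h2 using fun p : s => lf p.1.1 A p.1.2 hA (h p p.2).2.1
    have a := g3 A (.inr hA)
    obtain ⟨l, l1, l2, l3⟩ := (hV.CHL Λ Z _ _ hZ.toOk0 a (RingHom.ker_isPrime ϑ)).1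
      (fun e => Z.E.piT ((hϑ.ker _).1 e)) s (fun p => p.1.1) f fun p => ⟨h1 p, by
        have h3 : x p Z.qg ∈ RingHom.ker ϑ := by
          have := out (h p p.2).2.1 (hq A hA)
          rwa [← e' p] at this
        simpa using sub_mem h3 ((h2 p).2 _ (mem_insert_self _ _)), by
        obtain ⟨j, hj⟩ := Finsupp.ne_iff.1 (h p p.2).1
        rw [← e' p] at hj
        exact ⟨_, (g4 j).1, rv_MSYP (h2 p)
          ((h2 p).1 (Finsupp.support_mapRange (Finsupp.mem_support_iff.2 hj))) hj⟩⟩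
    refine ⟨l, .inl l1, fun e => l2 (hsub A e), fun p hp' e0 => l3 ⟨p, hp'⟩ ?_⟩
    have h3 := (hV.VAL Λ Z p.1 _ _ _ _ hZ a (h1 ⟨p, hp'⟩) (h2 ⟨p, hp'⟩)).1 _ (g4 l).2
    have e1 : vt ϑ (x ⟨p, hp'⟩) = p.2 := e' ⟨p, hp'⟩
    rw [← e1, ev_MSYP, ((hV.ROW Λ Z p.1 hZ.toOk0).1 l (.inl l1)).1] at e0
    simpa using sub_mem (RingHom.mem_ker.2 e0) h3

end Pool.Agent.MP_e23604_nt.PH

end
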