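import Pool.Agent.Mg.Fe23604m.Gd767a4

set_option linter.all false

section

set_option autoImplicit false

open Finset Filter QuadraticAlgebra
open scoped Classical

namespace Pool.Agent.MP_e23604_nt.V

open B R S W

section aux

variable {Λ : Type} [CommRing Λ] {Z : Mx Λ}

theorem tn_MCLG {B : Finset JJ} {n : ℕ} {ϖ : Zw} : ϖ ∈ Tn B n ↔ ∃ j ∈ B, jn n j = .inr ϖ := by
  constructor
  · intro h
    obtain ⟨a, h1, h2⟩ := mem_image.1 h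
    exact ⟨.inr a, mem_toRight.1 h1, congrArg Sum.inr h2⟩
  · rintro ⟨_ | a, h1, h2⟩
    · cases h2
    · exact mem_image.2 ⟨a, mem_toRight.2 h1, Sum.inr.inj h2⟩

theorem sg_MCLG {j : JJ} {n : ℕ} {ϖ : Zw} (h : jn n j = .inr ϖ) :
    Z.sg j n = Z.K.σ ϖ ∧ Z.gj j n = Z.K.τ ϖ := by
  rcases j with _ | a
  · cases h
  · obtain rfl : sq a n = ϖ := Sum.inr.inj h
    exact ⟨rfl, rfl⟩

theorem eq_MCLG {j : Bool ⊕ Zw} {l l' : ℕ} (h : j = .inr (-(l : Zw))) (h' : j = .inr (-(l' : Zw))) :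
    l = l' := Nat.cast_injective (R := Zw) (neg_injective (Sum.inr.inj (h.symm.trans h')))

theorem sn_MCLG (hK : Z.K.Ok) {B : Finset JJ} {n : ℕ}
    (hB : ∀ j ∈ B, ∃ l : ℕ, jn n j = .inr (-(l : Zw)) ∧ l.Prime ∧ l % 3 = 2) {l : ℕ} :
    l ∈ Z.Sn B n ↔ ∃ j ∈ B, jn n j = .inr (-(l : Zw)) := by
  constructor
  · intro h
    obtain ⟨ϖ, h1, rfl⟩ := mem_image.1 h
    obtain ⟨j, h2, h3⟩ := tn_MCLG.1 h1
    obtain ⟨l, h4, h5, h6⟩ := hB j h2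
    obtain rfl : ϖ = -(l : Zw) := Sum.inr.inj (h3.symm.trans h4)
    exact ⟨j, h2, by rw [(hK.ine l h5 h6).1, h4]⟩
  · rintro ⟨j, h2, h3⟩
    obtain ⟨l', h4, h5, h6⟩ := hB j h2
    obtain rfl := eq_MCLG h3 h4
    exact mem_image.2 ⟨_, tn_MCLG.2 ⟨j, h2, h3⟩, (hK.ine l h5 h6).1⟩

theorem card_MCLG (hK : Z.K.Ok) {B : Finset JJ} {n : ℕ}
    (hB : ∀ j ∈ B, ∃ l : ℕ, jn n j = .inr (-(l : Zw)) ∧ l.Prime ∧ l % 3 = 2)
    (hi : Set.InjOn (jn n) B) : (Z.Sn B n).card = B.card := by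
  have h := fun l => sn_MCLG hK hB (l := l)
  choose f h1 _ using hB
  refine (card_bij f (fun j hj => (h _).2 ⟨j, hj, h1 j hj⟩) (fun j hj j' hj' e => hi hj hj' ?_)
    fun l hl => ?_).symm
  · rw [h1 j hj, h1 j' hj', e]
  · obtain ⟨j, hj, e⟩ := (h l).1 hl
    exact ⟨j, hj, eq_MCLG (h1 j hj) e⟩

theorem sd_MCLG {J : Type} {L : Set J} {s : Finset J → Bool} (h : Sd L s) {m₀ m : Finset J}
    (hm : Vx m₀ L m) : s m = xor (s m₀) (decide (Odd (m \ m₀).card)) := by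
  have : ∀ B : Finset J, (∀ j ∈ B, j ∈ L ∧ j ∉ m₀) →
      s (B ∪ m₀) = xor (s m₀) (decide (Odd B.card)) := fun B => by
    induction B using Finset.induction_on with
    | empty => simp
    | insert j B hj ih =>
      intro e
      have e1 := e j (mem_insert_self _ _)
      rw [insert_union, h _ j e1.1 (by simp [hj, e1.2]), ih fun i hi => e i (mem_insert_of_mem hi),
        card_insert_of_notMem hj]
      by_cases o : Odd B.card <;> simp [Nat.odd_add_one, o]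
  rw [← this _ fun j hj => ⟨hm.2 j (mem_sdiff.1 hj).1 (mem_sdiff.1 hj).2, (mem_sdiff.1 hj).2⟩,
    sdiff_union_of_subset hm.1]

theorem ov_MCLG {V : Plc} {r q : ℕ} {S : Finset ℕ} (h : Ov V (3 * (r * q * ∏ l ∈ S, l : ℕ))) :
    Ov V 3 ∨ Ov V r ∨ Ov V q ∨ ∃ l ∈ S, Ov V l := by
  refine (Ov_mul.1 h).imp id fun h => ?_
  simp only [nat_HPLb] at h ⊢
  rwa [V.hl.out.dvd_mul, V.hl.out.dvd_mul, V.hl.out.prime.dvd_finsetProd_iff, or_assoc] at h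

theorem cq_MCLG (hTRM : TRM_st) (hGER : GER_st) (hLOK : LOK_st) (hZ : Z.Ok0) {P : Ideal Λ}
    {m₀ : Finset JJ} {L : Set JJ} {p : ℕ → ℕ → Prop} {s : Finset ℕ → Bool} {r : ℕ}
    {κ : ℕ → Finset ℕ → GQ → Λ} (hK : Z.Ks (fun n => P ⊔ Z.E.m ^ n) p s r κ)
    (hA : ∀ m, Vx m₀ L m → Z.Ad (insert Z.qg (m ∪ Z.m0)))
    (hp : ∀ j ∈ L, ∀ A n, Z.Gd A n → j ∈ A →
      ∃ l : ℕ, jn n j = .inr (-(l : Zw)) ∧ (l.Prime ∧ l % 3 = 2) ∧ p n l)
    (hd : Sd L Z.s) (hs : ∀ S, s S = xor (Z.s m₀) (decide (Odd S.card))) (hr : r ∣ Z.r)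
    (h1 : m1 ⊆ m₀) (h2 : ∀ j ∈ Z.m0, j ∉ m₀ → r = 1) : Z.Cq P m₀ L κ := by
  obtain ⟨⟨g1, -⟩, g2, -⟩ := hGER Λ Z hZ
  obtain ⟨t1, -, -, -, t2⟩ := hTRM Z.r (hZ.tw true).sf.ne_zero (hZ.tw true).n3
  have sub : ∀ m : Finset JJ, m ⊆ insert Z.qg (m ∪ Z.m0) := fun m =>
    subset_union_left.trans (subset_insert _ _)
  have a0 : ∀ m n A, Vx m₀ L m → Z.Gd A n → m ⊆ A → ∀ j ∈ m \ m₀,
      ∃ l : ℕ, jn n j = .inr (-(l : Zw)) ∧ (l.Prime ∧ l % 3 = 2) ∧ p n l :=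
    fun m n A hm hg e j hj => hp j (hm.2 j (mem_sdiff.1 hj).1 (mem_sdiff.1 hj).2) A n hg
      (e (mem_sdiff.1 hj).1)
  have a1 : ∀ m n A, Vx m₀ L m → Z.Gd A n → m ⊆ A → ∀ l : ℕ, l ∈ Z.Sn (m \ m₀) n ↔
      ∃ j ∈ m \ m₀, jn n j = .inr (-(l : Zw)) := fun m n A hm hg e l =>
    sn_MCLG hZ.pk fun j hj => (a0 m n A hm hg e j hj).imp fun _ h => ⟨h.1, h.2.1⟩
  have a2 : ∀ m n A, Vx m₀ L m → Z.Gd A n → m ⊆ A → ∀ l ∈ Z.Sn (m \ m₀) n, p n l :=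
    fun m n A hm hg e l hl => by
      obtain ⟨j, hj, e1⟩ := (a1 m n A hm hg e l).1 hl
      obtain ⟨l', e2, -, e3⟩ := a0 m n A hm hg e j hj
      rwa [eq_MCLG e1 e2]
  have a3 : ∀ m n A, Vx m₀ L m → Z.Gd A n → m ⊆ A → s (Z.Sn (m \ m₀) n) = Z.s m :=
    fun m n A hm hg e => by
      rw [hs, sd_MCLG hd hm, card_MCLG hZ.pk
        (fun j hj => (a0 m n A hm hg e j hj).imp fun _ h => ⟨h.1, h.2.1⟩)
        (hg.inj.mono (coe_subset.2 (sdiff_subset.trans e)))]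
      congr 3
      exact congrArg card (Finset.ext fun _ => by simp)
  refine ⟨fun m hm => ?_, fun m hm => ⟨(Z.vec_supp _ _).trans (sub m), fun j hj => ?_⟩,
    fun m hm j hj => ?_, fun m l hm => ?_⟩
  · refine diag (G := fun n k => Zf (Z.th (Z.s m) n) (Rn (insert Z.qg (m ∪ Z.m0)) n)
      (P ⊔ Z.E.m ^ k) (Z.kq m₀ κ m n) ∧ Z.Kl (Z.s m) n (P ⊔ Z.E.m ^ k) (Z.kq m₀ κ m n))
      (fun n => ⟨zf_iff.2 ⟨⟨GK, GK_on, by simp⟩, by simp, by simp⟩, 0, by simp⟩) fun k => ?_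
    filter_upwards [g2 _ (hA m hm), uf_le (eventually_ge_atTop k)] with n hg hk
    have b1 := a2 m n _ hm hg (sub m)
    have b2 := hK.zf n _ b1
    obtain ⟨a, b3⟩ := (hLOK Λ Z _ n _ _ hZ le_sup_right).1 (hK.kq n _ b1)
    rw [a3 m n _ hm hg (sub m)] at b2 b3
    refine ⟨b2.mono ?_ (Z.E.sup_le P hk), a, fun g hg => Z.E.sup_le P hk (b3 g hg)⟩
    rintro g ⟨V, c1, c2⟩
    refine ⟨V, fun c3 => c1 ?_, c2⟩
    have c4 : ∀ ϖ ∈ Tn (insert Z.qg (m ∪ Z.m0)) n, Ov V ϖ →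
        Ov V (3 * ∏ ϖ ∈ Tn (insert Z.qg (m ∪ Z.m0)) n, ϖ) := fun ϖ c5 c6 =>
      Ov_mul.2 (.inr (c6.dvd (dvd_prod_of_mem _ c5)))
    rcases ov_MCLG c3 with c | c | c | ⟨l, c5, c⟩
    · exact Ov_mul.2 (.inl c)
    · exact ((t2 V).2 (Ov_mul.2 (.inr (c.dvd (Nat.cast_dvd_cast hr))))).dvd (mul_dvd_mul_left _
        (prod_dvd_prod_of_subset _ _ _ ((subset_insert _ _).trans hg.sub)))
    · exact c4 _ (hg.sub (mem_insert_self _ _)) (c.dvd (dvd_neg.2 dvd_rfl))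
    · obtain ⟨j, c6, c7⟩ := (a1 m n _ hm hg (sub m) l).1 c5
      exact c4 _ (tn_MCLG.2 ⟨j, sub m (mem_sdiff.1 c6).1, c7⟩) (c.dvd (dvd_neg.2 dvd_rfl))
  · rw [Mx.kv, Z.vec_apply]
    split_ifs with e
    · simp
    rw [zero_sub, neg_mem_iff]
    refine L_mem Z.E (k := id) uf_le ?_
    filter_upwards [g2 _ (hA m hm)] with n hg
    have b1 := a2 m n _ hm hg (sub m)
    rcases mem_insert.1 hj with rfl | b2
    · rw [(sg_MCLG hg.q).2]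
      exact hK.tq n _ b1
    have b3 := (mem_union.1 b2).resolve_left e
    obtain ⟨ϖ, b4, rfl⟩ := mem_image.1 ((mem_union.1 b3).resolve_left fun e' => e (hm.1 (h1 e')))
    have b5 := hg.cs ϖ b4
    have b6 := ((t1 ϖ).1 b4).1
    obtain ⟨b7, -, b8, -⟩ := hZ.pk.tm ϖ b6
    rw [(sg_MCLG b5).2]
    refine (hK.zf n _ b1).2 _ ⟨_, fun c3 => ?_, b8⟩
    have c4 : ∀ j ∈ insert Z.qg (m ∪ Z.m0), ∀ l : ℕ, jn n j = .inr (-(l : Zw)) → Ov (Z.K.V ϖ) l →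
        cs ϖ = j := fun j c5 l c6 c7 => hg.inj hj c5 (by
      rw [b5, c6, ← b6.eq_EKOL0 (hg.pp _ (tn_MCLG.2 ⟨j, c5, c6⟩))
        (dvd_neg.2 ((iff_HPLb _ ϖ b6.1 b7 _).1 c7))])
    rcases ov_MCLG c3 with c | c | c | ⟨l, c5, c⟩
    · exact three_AFRB b6 b7 c
    · rw [h2 _ b3 fun e' => e (hm.1 e'), Nat.cast_one] at c
      exact not_Ov_unit _ isUnit_one c
    · exact g1 (c4 _ (mem_insert_self _ _) _ hg.q c ▸ b3)
    · obtain ⟨j, c6, c7⟩ := (a1 m n _ hm hg (sub m) l).1 c5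
      exact e (c4 j (sub m (mem_sdiff.1 c6).1) l c7 c ▸ (mem_sdiff.1 c6).1)
  · refine L_mem Z.E (k := id) uf_le ?_
    filter_upwards [g2 _ (hA m hm)] with n hg
    obtain ⟨l, b1, -⟩ := a0 m n _ hm hg (sub m) j hj
    rw [(sg_MCLG b1).1]
    exact hK.tr n _ (a2 m n _ hm hg (sub m)) l ((a1 m n _ hm hg (sub m) l).2 ⟨j, hj, b1⟩)
  · obtain ⟨hm, hl, hn⟩ := hm
    have hm' : Vx m₀ L (insert l m) := ⟨hm.1.trans (subset_insert _ _), fun j e e' =>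
      (mem_insert.1 e).elim (fun e => e ▸ hl) fun e => hm.2 j e e'⟩
    have : ∀ᶠ n in uf, ∃ v, v ∉ Z.E.m ∧ Z.kq m₀ κ (insert l m) n (Z.gj l n) -
        v * Z.kq m₀ κ m n (Z.sg l n) ∈ P ⊔ Z.E.m ^ n := by
      filter_upwards [g2 _ (hA _ hm')] with n hg
      have e := (subset_insert l m).trans (sub _)
      have e0 : l ∉ m₀ := fun e => hn (hm.1 e)
      obtain ⟨l', b1, -, b2⟩ := a0 _ n _ hm' hg (sub _) l (mem_sdiff.2 ⟨mem_insert_self _ _, e0⟩)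
      have b3 : Z.Sn (insert l m \ m₀) n = insert l' (Z.Sn (m \ m₀) n) := by
        ext i
        rw [mem_insert, a1 _ n _ hm' hg (sub _), a1 m n _ hm hg e, insert_sdiff_of_notMem _ e0,
          exists_mem_insert]
        exact or_congr_left ⟨fun h => eq_MCLG h b1, fun h => h ▸ b1⟩
      rw [Mx.kq, Mx.kq, b3, (sg_MCLG b1).1, (sg_MCLG b1).2]
      refine hK.fs n _ l' (a2 m n _ hm hg e) b2 fun b4 => ?_
      obtain ⟨j, b5, b6⟩ := (a1 m n _ hm hg e l').1 b4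
      exact hn (hg.inj (e (mem_sdiff.1 b5).1) (sub _ (mem_insert_self _ _)) (b6.trans b1.symm) ▸
        (mem_sdiff.1 b5).1)
    obtain ⟨v, hv⟩ := this.choice
    refine ⟨Z.E.L v, L_unit Z.E (hv.mono fun _ h => h.1), ?_⟩
    rw [Mx.kv, Z.vec_apply, if_pos (mem_insert_self _ _), Lm.ev, Lm.ev, ← Z.E.L_mul, ← Z.E.L_sub]
    exact L_mem Z.E (k := id) uf_le (hv.mono fun _ h => h.2)

end aux

theorem CLG_pf (hY : HY) (hTRM : TRM_st) (hTHB : THB_st) (hGER : GER_st) (hLOK : LOK_st) : CLG_st := by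
  intro Λ _ _ Z κ d hZ
  obtain ⟨⟨-, g1, g2, g3, g4, g5, -⟩, g6, g7, -, g8, g9, g10, -⟩ := hGER Λ Z hZ
  obtain ⟨-, t1, -⟩ := hTRM Z.r (hZ.tw true).sf.ne_zero (hZ.tw true).n3
  have p1 : ∀ j ∈ Z.L, ∀ A n, Z.Gd A n → j ∈ A →
      ∃ l : ℕ, jn n j = .inr (-(l : Zw)) ∧ (l.Prime ∧ l % 3 = 2) ∧ Z.ok n l :=
    fun j hj A n hg e => by
      obtain ⟨l, b1, b2⟩ := hg.aux j e fun e' => (mem_insert.1 e').elim (fun e => g1 (e ▸ hj))
        fun e => g2 j e hj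
      exact ⟨l, b1, ⟨b2.1, ((hTHB Λ Z.toDt n hZ.toOk).2.2.2.1 l b2.1 b2.2.1).1⟩, b2⟩
  have p2 : ∀ j ∈ Z.Bg, ∀ A n, Z.Gd A n →
      ∃ l : ℕ, jn n j = .inr (-(l : Zw)) ∧ (l.Prime ∧ l % 3 = 2) ∧ l ∈ Bn Z.r :=
    fun j hj A n hg => by
      obtain ⟨ϖ, b1, rfl⟩ := mem_image.1 hj
      obtain ⟨l, b2, rfl⟩ := (t1 ϖ).1 b1
      exact ⟨l, hg.cs _ (mem_filter.1 b1).1,
        ⟨Nat.prime_of_mem_primeFactors (mem_filter.1 b2).1, (mem_filter.1 b2).2⟩, b2⟩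
  refine ⟨fun hC => cq_MCLG hTRM hGER hLOK hZ (by simpa only [bot_sup_eq] using hC)
    (fun m hm => g7 m (.inl hm)) p1 g9 (fun S => by rw [g10]; rfl) dvd_rfl subset_union_left
    fun j e e' => absurd e e', fun hC => cq_MCLG hTRM hGER hLOK hZ hC (fun m hm => g7 m (.inr hm))
    (fun j hj A n hg e => hj.elim (fun hj => (p1 j hj A n hg e).imp fun _ h =>
      ⟨h.1, h.2.1, .inl h.2.2⟩) fun hj => (p2 j hj A n hg).imp fun _ h =>
      ⟨h.1, h.2.1, .inr h.2.2⟩) g8 (fun S => ?_) (one_dvd _) subset_rfl fun _ _ _ => rfl,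
    fun i hC m hm hB => ?_, ?_, fun S₀ hS => ?_⟩
  · rw [Mx.s, sdiff_eq_empty_iff_subset.2 subset_union_left]
    simp [Dt.sr]
  · have b0 : ∀ j ∈ (m ∪ Z.Sg) \ Z.m0, j ∈ m ∧ j ∈ Z.L := fun j hj => by
      rw [g3, Finset.mem_sdiff, mem_union, mem_union, mem_union, not_or, not_or] at hj
      have := hj.1.resolve_right hj.2.1.2
      exact ⟨this, (hm.2 j this hj.2.1.1).resolve_right hj.2.2⟩
    have b1 : m \ m1 = (m ∪ Z.Sg) \ Z.m0 ∪ Z.Bg := by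
      ext j
      rw [mem_union, Finset.mem_sdiff]
      refine ⟨fun h => (hm.2 j h.1 h.2).imp (fun e => mem_sdiff.2 ⟨mem_union_left _ h.1,
        fun e' => g2 j e' e⟩) id, fun h => h.elim (fun h => ⟨(b0 j h).1, fun e =>
        (mem_sdiff.1 h).2 (mem_union_left _ e)⟩) fun h => ⟨hB h, fun e =>
        disjoint_left.1 g4 e (mem_union_right _ h)⟩⟩
    have : ∀ᶠ n in uf, ∃ v, v ∉ Z.E.m ∧ ∀ g ∈ GK, Z.kq Z.m0 κ (m ∪ Z.Sg) n g - Z.E.ι pw ^ i *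
        (v * (∏ ϖ ∈ Sz Z.r, (Z.ga n (Z.K.σ ϖ) - 1)) * Z.kq m1 d m n g) ∈
          Ideal.span {Z.E.ι pw ^ (i + 1)} ⊔ Z.E.m ^ n := by
      filter_upwards [g6 _ (g7 m (.inr hm))] with n hg
      have c1 := fun j hj => p1 j (b0 j hj).2 _ n hg
        (mem_insert_of_mem (mem_union_left _ (b0 j hj).1))
      have c2 := fun l => sn_MCLG hZ.pk (l := l) fun j hj => (c1 j hj).imp fun _ h => ⟨h.1, h.2.1⟩
      have c3 : Z.Sn Z.Bg n = Bn Z.r := by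
        ext l
        rw [sn_MCLG hZ.pk fun j hj => (p2 j hj _ n hg).imp fun _ h => ⟨h.1, h.2.1⟩]
        refine ⟨fun ⟨j, hj, e⟩ => ?_, fun h => ?_⟩
        · obtain ⟨l', e1, -, e2⟩ := p2 j hj _ n hg
          rwa [eq_MCLG e e1]
        · have := (t1 _).2 ⟨l, h, rfl⟩
          exact ⟨_, mem_image_of_mem _ this, hg.cs _ (mem_filter.1 this).1⟩
      have c4 : Z.Sn (m \ m1) n = Z.Sn ((m ∪ Z.Sg) \ Z.m0) n ∪ Bn Z.r := by
        rw [b1, ← c3, Mx.Sn, Tn, toRight_union, image_union, image_union]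
        rfl
      rw [Mx.kq, Mx.kq, c4]
      refine hC n _ fun l hl => ?_
      obtain ⟨j, hj, e⟩ := (c2 l).1 hl
      obtain ⟨l', e1, -, e2⟩ := c1 j hj
      rwa [eq_MCLG e e1]
    obtain ⟨v, hv⟩ := this.choice
    refine ⟨Z.E.L v, L_unit Z.E (hv.mono fun _ h => h.1), fun g hg => ?_⟩
    have e : ∏ ϖ ∈ Sz Z.r, Z.eu ϖ = Z.E.L fun n => ∏ ϖ ∈ Sz Z.r, (Z.ga n (Z.K.σ ϖ) - 1) := by
      simp only [Dt.eu]
      rw [← map_prod]
      congr 1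
      funext n
      rw [Finset.prod_apply]
    rw [e, Lm.ev, Lm.ev, ← Z.E.L_mul, ← Z.E.L_mul, ← Z.E.const (Z.E.ι pw ^ i), ← Z.E.L_mul,
      ← Z.E.L_sub, ← Ideal.mem_span_singleton]
    exact L_mem Z.E (k := id) uf_le (hv.mono fun n h => h.2 _ (hg n))
  · funext n
    rw [Mx.kq, Finset.sdiff_self]
    rfl
  · have b0 : ∀ l ∈ S₀, -(l : Zw) ∈ Bz Z.r := fun l hl => (t1 _).2 ⟨l, hS hl, rfl⟩
    have b1 : (S₀.image fun l : ℕ => cs (-(l : Zw))) ⊆ Z.Bg := fun j hj => by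
      obtain ⟨l, hl, rfl⟩ := mem_image.1 hj
      exact mem_image_of_mem _ (b0 l hl)
    have b2 : Vx m1 Z.L' (mb S₀) := ⟨subset_union_left, fun j hj e =>
      .inr (b1 ((mem_union.1 hj).resolve_left e))⟩
    refine ⟨union_subset_union subset_rfl b1, b2, ?_⟩
    filter_upwards [g6 _ (g7 _ (.inr b2))] with n hg
    rw [Mx.kq, mb, union_sdiff_cancel_left ((g4.mono_right subset_union_right).mono_right b1)]
    congr 1
    ext l
    rw [sn_MCLG hZ.pk fun j hj => (p2 j (b1 hj) _ n hg).imp fun _ h => ⟨h.1, h.2.1⟩]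
    refine ⟨fun ⟨j, hj, e⟩ => ?_, fun h => ⟨_, mem_image_of_mem _ h,
      hg.cs _ (mem_filter.1 (b0 l h)).1⟩⟩
    obtain ⟨l', hl, rfl⟩ := mem_image.1 hj
    rwa [eq_MCLG e (hg.cs _ (mem_filter.1 (b0 l' hl)).1)]

end Pool.Agent.MP_e23604_nt.V

end

section

set_option autoImplicit false

open Finset Filter QuadraticAlgebra
open scoped Classical

namespace Pool.Agent.MP_e23604_nt.V

open B R S W

section

open PowerSeries

variable {O k : Type} [CommRing O] [Field k] {E : Lm O⟦X⟧} {ϖ : O} {red : O →+* k}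

theorem rd_MBAS (hL : Lx E ϖ red) : Rd (map red) (E.ι pw) := by
  refine ⟨map_surjective red hL.sur, fun x => ?_⟩
  rw [hL.ι, dvd_LM]
  simp only [PowerSeries.ext_iff, coeff_map, map_zero, Ideal.Quotient.eq_zero_iff_mem,
    Ideal.mem_span_singleton, hL.ker]

theorem mem_MBAS (hL : Lx E ϖ red) (z : O⟦X⟧) : z ∈ E.m ↔ constantCoeff (map red z) = 0 := by
  rw [E.m_eq, hL.ι, hL.T, memC_LM, ← hL.ker, ← coeff_zero_eq_constantCoeff_apply (map red z),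
    coeff_map, coeff_zero_eq_constantCoeff_apply]

theorem two_MBAS {Λ A : Type} [CommRing Λ] [CommRing A] (E : Lm Λ) (ϑ : Λ →+* A) [Nontrivial A] :
    (2 : A) ≠ 0 := fun c => by
  have h3 : (3 : Λ) ∈ E.m := by
    have h : E.ι pw ∣ 3 := by simpa only [map_ofNat] using map_dvd E.ι pw_dvd3
    obtain ⟨t, ht⟩ := h
    rw [ht, E.m_eq]
    exact Ideal.mul_mem_right _ _ (Ideal.subset_span (by simp))
  have h2 : IsUnit (2 : Λ) := E.unit 2 fun e => E.ne (by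
    have := E.m.sub_mem h3 e
    rwa [show (3 : Λ) - 2 = 1 by norm_num] at this)
  have := h2.map ϑ
  rw [map_ofNat, c] at this
  exact not_isUnit_zero this

theorem six_MBAS {A : Type} [CommRing A] [IsDomain A] {p a b : A} (hp : Prime p)
    (ha : ¬ p ^ 3 ∣ a) (hb : ¬ p ^ 3 ∣ b) : ¬ p ^ 6 ∣ a * b := by
  rw [pow_dvd_iff_le_emultiplicity] at *
  rw [emultiplicity_mul hp]
  generalize emultiplicity p a = x at *
  generalize emultiplicity p b = y at *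
  induction x using ENat.recTopCoe with
  | top => exact absurd le_top ha
  | coe x =>
    induction y using ENat.recTopCoe with
    | top => exact absurd le_top hb
    | coe y =>
      norm_cast at *
      omega

theorem ord_MBAS {J : Type} (w : J → J → k⟦X⟧) {m A : Finset J} {l t : J} {x y : J →₀ k⟦X⟧}
    (hA : ∀ i, i ∈ A ↔ i = l ∨ i ∈ m) (hl : l ∉ m) (hx : Kr w m m x)
    (h0 : constantCoeff (ev (w l) x) = 0) (ht : constantCoeff (x t) ≠ 0) (y1 : y.support ⊆ A)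
    (y2 : constantCoeff (y l) ≠ 0) (y3 : ∀ i ∈ A, constantCoeff (ev (w i) y) = 0) :
    X ^ 2 ∣ dt w A := by
  have k0 := red0_LPAR hx
  refine ORD_ok J k w A (x.mapRange constantCoeff (map_zero _))
    (y.mapRange constantCoeff (map_zero _))
    ⟨fun j hj => (hA j).2 (Or.inr (k0.1 hj)), fun i hi => ?_⟩
    ⟨Finsupp.support_mapRange.trans y1, fun i hi => ?_⟩ fun α β h => ?_
  · rcases (hA i).1 hi with rfl | hi
    · rw [ev_map constantCoeff (w i) x, h0]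
    · exact k0.2 i hi
  · rw [ev_map constantCoeff (w i) y, y3 i hi]
  · have h1 := DFunLike.congr_fun h l
    have h3 := DFunLike.congr_fun h t
    simp only [Finsupp.add_apply, Finsupp.smul_apply, smul_eq_mul, Finsupp.zero_apply,
      Finsupp.mapRange_apply] at h1 h3
    rw [hx.out hl, map_zero, mul_zero, zero_add] at h1
    have b0 : β = 0 := (mul_eq_zero.1 h1).resolve_right y2
    rw [b0, zero_mul, add_zero] at h3
    exact ⟨(mul_eq_zero.1 h3).resolve_right ht, b0⟩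

theorem top_MBAS {J : Type} [IsDomain O] {w : Bool → J → J → O⟦X⟧} {m₀ : Finset J} {L : Set J}
    {u : Bool → J → O} {q : J} {b : Bool → J →₀ O⟦X⟧} {e : Bool} (h2 : (2 : O) ≠ 0) (g1 : q ∉ m₀)
    (g2 : q ∉ L) (g3 : ∀ j ∈ m₀, j ∉ L) (un : ∀ ε j, j ∈ L ∨ j = q → u ε j ≠ 0)
    (sy : ∀ ε, RC (fun i j => constantCoeff (w ε i j)) m₀ (insert q L) (u ε) ∧
      ∀ ξ, Kr (fun i j => constantCoeff (w ε i j)) m₀ (insert q m₀) ξ → ξ q ≠ 0 →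
        ∃ l ∈ L, ev (fun j => constantCoeff (w ε l j)) ξ ≠ 0)
    (bq : ∀ ε, b ε q = X) (bs : ∀ ε, (b ε).support ⊆ insert q m₀)
    (br : ∀ ε j, j ∈ insert q m₀ ∨ j ∈ L → ev (w ε j) (b ε) = 0)
    (b0 : ∀ ε, (b ε).mapRange constantCoeff (map_zero _) ≠ 0)
    (qr : ∀ ε m, Vx m₀ L m → ∀ (n : ℕ) (v : J →₀ O⟦X⟧), v.support ⊆ m →
      (∀ i ∈ m, X ^ (n + 1) ∣ ev (w ε i) v) → X ^ n ∣ ev (w ε q) v)
    (hA : ∀ x y z, Kr (fun i j => constantCoeff (w (!e) i j)) m₀ m₀ x →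
      Kr (fun i j => constantCoeff (w (!e) i j)) m₀ m₀ y →
      Kr (fun i j => constantCoeff (w (!e) i j)) m₀ m₀ z →
      ∃ α β γ : O, (α ≠ 0 ∨ β ≠ 0 ∨ γ ≠ 0) ∧ α • x + β • y + γ • z = 0)
    (hξ : ∃ ξ, Kr (fun i j => constantCoeff (w (!e) i j)) m₀ m₀ ξ ∧
      ev (fun j => constantCoeff (w (!e) q j)) ξ ≠ 0)
    (d0 : dt (w e) m₀ = 0) (D : D1 (fun i j => constantCoeff (w e i j)) m₀) :
    ∃ l, Ed m₀ L m₀ l ∧ ¬ X ^ 6 ∣ dt (w e) (insert l m₀) * dt (w (!e)) m₀ := by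
  have bk : ∀ ε, Kr (w ε) (insert q m₀) (insert q m₀) (b ε) := fun ε =>
    ⟨bs ε, fun i hi => br ε i (Or.inl hi)⟩
  have tb := fun ε => TOPB_ok J O (fun i j => constantCoeff (w ε i j)) m₀ L (u ε) q _ h2 g1
    (un ε _ (Or.inr rfl)) (sy ε).1 ((red0_LPAR (bk ε)).erase (by simp [bq])) (b0 ε)
  obtain ⟨ξ, x1, x2⟩ := hξ
  have dA := TOPA_ok J O (w (!e)) m₀ q _ g1 (bk _) (bq _) (b0 _) (qr _ _ (Vx.refl _ _))
    ((tb _).1 hA ξ x1 x2)
  obtain ⟨η, y1, y2⟩ := XI_pf KER_ok J O (w e) m₀ q _ g1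
    ((bk _).mono (subset_insert _ _) subset_rfl) (bq _) (b0 _) d0 D
  obtain ⟨l, hl, y3⟩ := (sy e).2 η y1 y2
  have l1 : l ∉ m₀ := fun c => g3 l c hl
  have l2 : l ≠ q := fun c => g2 (c ▸ hl)
  have bl := br e l (Or.inr hl)
  have dB := TOPA_ok J O (w e) (insert l m₀) q _
    (fun c => (mem_insert.1 c).elim (fun c => l2 c.symm) g1)
    ⟨(bs _).trans (insert_subset_insert _ (subset_insert _ _)), fun i hi => by
      rw [insert_comm] at hi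
      exact (mem_insert.1 hi).elim (fun c => c ▸ bl) ((bk _).2 i)⟩
    (bq _) (b0 _) (qr _ _ ((Vx.refl _ _).insert hl))
    ((tb _).2 D l η hl (fun c => (mem_insert.1 c).elim l2 l1) (un _ _ (Or.inl hl))
      (by rw [ev_map constantCoeff (w e l), bl, map_zero]) y1 y2 y3)
  exact ⟨l, ⟨Vx.refl _ _, hl, l1⟩, six_MBAS X_prime dB dA⟩

end

theorem ins_MBAS (l : JJ) (m : Finset JJ) :
    @insert JJ (Finset JJ) (@instInsert JJ fun a b => Classical.propDecidable (a = b)) l m =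
      insert l m := by
  ext
  simp

theorem BAS_pf (hY : HY) (hGER : GER_st) (hSYR : SYR_st) (hCLC : CLC_st) (hBA1 : BA1_st) (hBA2 : BA2_st) (hCLG : CLG_st) : BAS_st := by
  intro O k _ _ _ Z ϖ red d S₀ hZ hL
  have hR := rd_MBAS hL
  refine ⟨hR, fun hK hC => ?_⟩
  obtain ⟨⟨t, ht⟩, l, hl, ha⟩ := hBA1 _ Z d S₀ hZ hK hC
  obtain ⟨⟨-, -, g3, g4, -⟩, -⟩ := hGER _ Z hZ.toOk0
  obtain ⟨s1, s2, -⟩ := (hCLG _ Z d d hZ.toOk0).2.2.2.2 S₀ hC.1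
  have hl1 : l ∉ mb S₀ := fun e => g3 l (g4 ▸ union_subset_union subset_union_left subset_rfl
    (s1 e)) hl
  have e : Ed m1 Z.L' (mb S₀) l := ⟨s2, Or.inl hl, hl1⟩
  obtain ⟨c1, c2⟩ := (hCLC _ Z d d hZ).2 hK _ _ hR
  have ea := c2 _ l e
  refine ⟨_, l, e, ?_⟩
  generalize hA : ae (Z.wt (PowerSeries.map red)) Z.s
    (fun m => vt (PowerSeries.map red) (Z.kv m1 d m)) (mb S₀) l = a at *
  have h2 : ¬ PowerSeries.X ^ 2 ∣ a := by
    rintro ⟨c, hc⟩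
    obtain ⟨c, rfl⟩ := hR.sur c
    obtain ⟨z, hz⟩ := (hR.ker (Z.E.ev (Z.kq m1 d (mb S₀)) (Z.sg l) - Z.E.T ^ 2 * c)).1 (by
      rw [map_sub, ← ea, hc, hL.T, map_mul, map_pow, PowerSeries.map_X, sub_self])
    refine ha ?_
    rw [sub_eq_iff_eq_add.1 hz]
    exact Ideal.add_mem _
      (Ideal.mem_sup_left (Ideal.mul_mem_right _ _ (Ideal.mem_span_singleton_self _)))
      (Ideal.mem_sup_right (Ideal.mul_mem_right _ _ (Ideal.mem_span_singleton_self _)))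
  refine ⟨fun c => h2 (c ▸ dvd_zero _), ?_⟩
  by_cases h0 : PowerSeries.constantCoeff a = 0
  swap
  · exact ((PowerSeries.isUnit_iff_constantCoeff.2 (Ne.isUnit h0)).pow 2).dvd
  obtain ⟨c, hc⟩ := PowerSeries.X_dvd_iff.2 h0
  have hu : IsUnit c := PowerSeries.isUnit_iff_constantCoeff.2 (Ne.isUnit fun h => h2 (by
    rw [hc, pow_two]
    exact mul_dvd_mul_left _ (PowerSeries.X_dvd_iff.2 h)))
  rw [hc, mul_pow, (hu.pow 2).mul_right_dvd]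
  refine Dvd.dvd.mul_right ?_ _
  rw [ins_MBAS]
  obtain ⟨y, y1, y2, y3⟩ := hBA2 _ Z (Z.s (mb S₀)) l hZ hl
  refine ord_MBAS (t := t) (y := vt (PowerSeries.map red) y) _ (fun i => mem_insert) hl1
    (c1.ker _ s2) ?_ (fun c => ht ((mem_MBAS hL _).2 c))
    (Finsupp.support_mapRange.trans (y1.trans (insert_subset_insert _ s2.1)))
    (fun c => y2 ((mem_MBAS hL _).2 c)) fun i hi => ?_
  · rw [← h0, ← hA]
    rfl
  · rw [← (mem_MBAS hL _).1 (y3 i (insert_subset_insert _ s1 hi)), ← ev_vt (PowerSeries.map red)]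
    rfl

theorem TOP_pf (hY : HY) (hGER : GER_st) (hROW : ROW_st) (hSYP : SYP_st) (hBV : BV_st) (hQRL : QRL_st) (hHSL : HSL_st) (hXIL : XIL_st) : TOP_st := by
  intro O k _ _ _ Z ϖ red hZ hL hSt hXi hHB ⟨m, l₀, e₀, hDe⟩
  obtain ⟨⟨g1, g2, g3, -⟩, -, -, -, -, -, g4, -⟩ := hGER _ Z hZ.toOk0
  have hR : Rd (PowerSeries.constantCoeff (R := O)) Z.E.T :=
    ⟨PowerSeries.constantCoeff_surj, fun x => by rw [hL.T, PowerSeries.X_dvd_iff]⟩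
  have sy := (hSYP _ _ Z _ hZ hR.sur fun c => Z.E.T3 ((hR.ker _).1 c)).2 ((hR.ker _).2 dvd_rfl)
  have S0 : Sy Z.w Z.m0 Z.L Z.u Z.s := (hSYP _ _ Z (RingHom.id _) hZ Function.surjective_id
    fun c => Z.E.T3 (by rw [show (3 : PowerSeries O) = 0 from c]; exact dvd_zero _)).1
      Z.E.pT.ne_zero
  have d0 := (PAR_pf CRV_ok ADJ_ok JJ _ Z.w Z.m0 Z.L Z.u Z.s (two_MBAS Z.E (RingHom.id _)) S0).2
    m l₀ e₀ hDe Z.m0 (Vx.refl _ _)
  rw [g4] at d0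
  rw [← ins_MBAS] at sy
  obtain ⟨l, h1, h2⟩ := top_MBAS (w := Z.w) (u := Z.ut PowerSeries.constantCoeff) (b := Z.bv)
    (two_MBAS Z.E PowerSeries.constantCoeff) g1 g2 g3
    (fun ε j h => (((hROW _ Z ε hZ.toOk0).2.2.2.2.2.2 j (h.imp_left Or.inl)).map
      PowerSeries.constantCoeff).ne_zero)
    sy (fun ε => (hBV _ Z ε hZ).2.1.trans hL.T)
    (fun ε => by rw [ins_MBAS]; exact Z.vec_supp _ _)
    (fun ε j h => (hBV _ Z ε hZ).2.2.1 j (by rwa [ins_MBAS] at h))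
    (fun ε c => by
      obtain ⟨j, hj⟩ := (hBV _ Z ε hZ).2.2.2
      exact hj ((hR.ker _).1 (DFunLike.congr_fun c j)))
    (fun ε m hm n v h1 h3 => by
      rw [← hL.T] at h3 ⊢
      exact hQRL _ Z ε m n v hZ hm h1 h3)
    ((hHSL _ _ Z _ _ hZ hR).1 hSt) (hXIL _ _ Z _ hZ hR hXi) d0 ((hHSL _ _ Z _ Z.s₀ hZ hR).2 hHB).2
  refine ⟨l, h1, ?_⟩
  rw [De, g4]
  exact h2

end Pool.Agent.MP_e23604_nt.V

end
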