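import Pool.Agent.Mg.Fe23604m.G256ad4
import Pool.Agent.Mg.Fe23604m.G18296d
import Pool.Agent.Mg.Fe23604m.G5e9479

set_option linter.all false

section

/-!
The local points in the basis of the pencil.
-/

set_option autoImplicit false

namespace Pool.Agent.MP_e23604_nt.PH

open B R S W V

theorem LKP_pf (h : LK9_st) : LKP_st := fun χ j => by
  refine ⟨fun hc => ⟨1, one_ne_zero, ?_⟩, (h χ j).2⟩
  have e : (fun g => (1 : ZMod 3) * (bs 2 g + j * bs 3 g)) =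
      fun g => 2 * (X.kw w3 g - j * X.kw (W.io (1 + 3 * pw)) g) := by
    funext g
    have t : ∀ a b c : ZMod 3, 1 * (2 * a + c * b) = 2 * (a - c * b) := by decide
    exact t _ _ _
  rw [e]
  exact (h χ j).1 hc

end Pool.Agent.MP_e23604_nt.PH

end

section

/-!
The base edge of the pencil.
-/

set_option autoImplicit false

open Finset Filter QuadraticAlgebra
open scoped Classical

namespace Pool.Agent.MP_e23604_nt.PH

open B R S W V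

theorem pI_PnBap {Λ R : Type} [CommRing Λ] [CommRing R] {Z : Mx Λ} {ϑ : Λ →+* R}
    (h : Rd ϑ (Z.E.ι pw)) {x y : Λ} (e : x - y ∈ pI Z) : ϑ x = ϑ y := by
  rw [← sub_eq_zero, ← map_sub]
  exact (h.ker _).2 (Ideal.mem_span_singleton.1 e)

theorem BAP_pf (hV : HV) (h1 : CQP_st) (h2 : CQR_st) (h3 : BAD_st) (h4 : PCL_st) : BAP_st := by
  intro O k _ _ _ Z ϖ red e j₀ j₁ r κ E d hZ hL hP
  have hR := rd_MBAS hL
  obtain ⟨⟨t, ht⟩, l, hl, ha⟩ := h3 _ Z e j₀ j₁ r κ E d hZ hP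
  obtain ⟨-, hs, -, -, v, hv, hd⟩ := h2 _ Z e j₀ j₁ r κ E d hZ hP
  obtain ⟨c1, c2, -⟩ := h4 _ _ Z _ e E hZ hR (h1 _ Z e j₀ j₁ r κ E d hZ hP)
  obtain ⟨⟨-, -, g3, -⟩, -, -, -, -, -, -, -, gI⟩ := hV.GER _ Z hZ.toOk0
  have hl1 : l ∉ m1 := fun c => g3 l (mem_union_left _ c) hl
  have ed : Ed m1 Z.L' m1 l := ⟨Vx.refl _ _, Or.inl hl, hl1⟩
  have c0 : PowerSeries.map red (∏ ϖ ∈ Sz Z.r, Z.eu ϖ) ≠ 0 := by
    rw [map_prod]
    exact prod_ne_zero_iff.2 fun p hp c =>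
      ((hV.ROW _ Z e hZ.toOk0).2.2.2.2.2.1 p hp).2.2 ((hR.ker _).1 c)
  set ϑ := PowerSeries.map red with hϑ
  set c := ϑ (∏ ϖ ∈ Sz Z.r, Z.eu ϖ) with hc
  have hd' : ∀ g, Inc GK g → ϑ (Z.E.ev (Z.kq m1 (E 1) m1) g) - ϑ (Z.E.ev (Z.kq m1 (E 0) m1) g) =
      ϑ v * c * ϑ (Z.E.ev d g) := fun g hg => by
    rw [← map_sub, pI_PnBap hR (hd g hg), map_mul, map_mul]
  have n0 : ϑ v * c ≠ 0 := mul_ne_zero (hv.map ϑ).ne_zero c0
  have hx : kD Z ϑ E m1 = (ϑ v * c) • vt ϑ (Z.vec m1 d) := by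
    ext j : 1
    simp only [kD, kE, vt, Mx.kv, Finsupp.sub_apply, Finsupp.smul_apply, Finsupp.mapRange_apply,
      Z.vec_apply, smul_eq_mul]
    split_ifs
    · exact hd' _ (gI j).1
    · simp
  have kx : Kr (Z.wt ϑ (!e)) m1 m1 (vt ϑ (Z.vec m1 d)) :=
    ⟨Finsupp.support_mapRange.trans (Z.vec_supp _ _), fun i hi => by
      have := (c1.k3 m1 (Vx.refl _ _) hs).2.2 i hi
      rw [hx, map_smul, smul_eq_mul] at this
      exact (mul_eq_zero.1 this).resolve_left n0⟩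
  have e1 : ae (Z.wt ϑ) Z.s (kD Z ϑ E) m1 l = ϑ v * c * ϑ (Z.E.ev d (Z.sg l)) := by
    rw [← hd' _ (gI l).2, ← c2 1 m1 l ed, ← c2 0 m1 l ed, ae, ae, ae, kD, map_sub]
  have e2 : ev (Z.wt ϑ (!e) l) (vt ϑ (Z.vec m1 d)) = ϑ (Z.E.ev d (Z.sg l)) := by
    rw [ae, hs, hx, map_smul, smul_eq_mul] at e1
    exact mul_left_cancel₀ n0 e1
  refine ⟨l, ed, ?_⟩
  rw [e1]
  generalize hA : ϑ (Z.E.ev d (Z.sg l)) = a at *
  have h2 : ¬ PowerSeries.X ^ 2 ∣ a := by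
    rintro ⟨b, hb⟩
    obtain ⟨b, rfl⟩ := hR.sur b
    obtain ⟨z, hz⟩ := (hR.ker (Z.E.ev d (Z.sg l) - Z.E.T ^ 2 * b)).1 (by
      rw [map_sub, hA, hb, hL.T, map_mul, map_pow, hϑ, PowerSeries.map_X, sub_self])
    refine ha ?_
    rw [sub_eq_iff_eq_add.1 hz]
    exact Ideal.add_mem _
      (Ideal.mem_sup_left (Ideal.mul_mem_right _ _ (Ideal.mem_span_singleton_self _)))
      (Ideal.mem_sup_right (Ideal.mul_mem_right _ _ (Ideal.mem_span_singleton_self _)))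
  refine ⟨mul_ne_zero n0 fun c => h2 (c ▸ dvd_zero _), ?_⟩
  rw [mul_assoc, mul_pow, ((hv.map ϑ).pow 2).mul_left_dvd, mul_pow]
  refine mul_dvd_mul_left _ ?_
  by_cases h0 : PowerSeries.constantCoeff a = 0
  swap
  · exact ((PowerSeries.isUnit_iff_constantCoeff.2 (Ne.isUnit h0)).pow 2).dvd
  obtain ⟨b, hb⟩ := PowerSeries.X_dvd_iff.2 h0
  have hu : IsUnit b := PowerSeries.isUnit_iff_constantCoeff.2 (Ne.isUnit fun h => h2 (by
    rw [hb, pow_two]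
    exact mul_dvd_mul_left _ (PowerSeries.X_dvd_iff.2 h)))
  rw [hb, mul_pow, (hu.pow 2).mul_right_dvd]
  refine Dvd.dvd.mul_right ?_ _
  rw [ins_MBAS, hs, show wp Z ϑ e 1 0 (!e) = Z.wt ϑ (!e) from if_neg (by simp)]
  obtain ⟨y, y1, y2, y3⟩ := hV.BA2 _ Z (!e) l hZ hl
  refine ord_MBAS (t := t) (y := vt ϑ y) _ (fun i => mem_insert) hl1 kx (e2 ▸ h0)
    (fun c => ht ((mem_MBAS hL _).2 c)) (Finsupp.support_mapRange.trans y1)
    (fun c => y2 ((mem_MBAS hL _).2 c)) fun i hi => ?_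
  rw [← (mem_MBAS hL _).1 (y3 i (insert_subset_insert _ subset_union_left hi)), ← ev_vt ϑ]
  rfl

end Pool.Agent.MP_e23604_nt.PH

end
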