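import Pool.Agent.Mg.Fe23604m.Gdcefba
import Pool.Agent.Mg.Fe23604m.G59c89c

set_option linter.all false

/-!
The residual classes of the division points, by means of dual numbers.
-/

set_option autoImplicit false

open Finset QuadraticAlgebra TrivSqZeroExt
open scoped Classical

namespace Pool.Agent.MP_e23604_nt.M

open B R S W V X N

section

variable {R : Type} [CommRing R]

theorem psi_RK (h : (3 : R) = 0) : ∃ ψ : Zw →+* TrivSqZeroExt R R, ψ pw = inr (-1) := by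
  refine ⟨(QuadraticAlgebra.lift (R := ℤ) ⟨1 + inr 1, ?_⟩ : Zw →ₐ[ℤ] TrivSqZeroExt R R), ?_⟩
  · ext
    · simp
      linear_combination h
    · simp
      linear_combination h
  · rw [pw, two_mul, map_add, map_add, map_one]
    ext
    · simp [QuadraticAlgebra.lift]
      linear_combination h
    · simp [QuadraticAlgebra.lift]
      linear_combination h

theorem three_RK {ψ : Zw →+* TrivSqZeroExt R R} {a : R} (h : ψ pw = inr a) : ψ 3 = 0 := by
  rw [show (3 : Zw) = -(pw * pw) by decide, map_neg, map_mul, h, inr_mul_inr, neg_zero]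

theorem kt_RK (hB : BR_st) (Q : QS) {φ : Zw →+* R} (h0 : φ pw = 0) : ∃ v, IsUnit v ∧
    ∀ (ψ : Zw →+* TrivSqZeroExt R R) (a : R), ψ pw = inr a → ∀ (w : Wt R) (n : Finset ℕ), Pn n →
      ∀ h, N.H1 3 n h → Q.kt ψ 3 (fun l i => inl (w l i)) n h = inr (a * v * Q.kq φ pw w n h) := by
  obtain ⟨v, hv, e⟩ := (hB Q R φ).2 h0 (-pw) (by decide)
  rw [show -pw * pw = 3 by decide] at e
  refine ⟨v, hv, fun ψ a ha w n hn h hh => ?_⟩
  have k := kq_map (fstHom R R R : TrivSqZeroExt R R →+* R) Q ψ 3 (fun l i => inl (w l i)) n h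
  rw [phi_uniq (φ := RingHom.comp _ ψ) (by simp [ha]) h0] at k
  rw [((hB Q _ ψ).1 3 _ n (by decide) (three_RK ha) hn h hh).2, ha, mul_assoc, ← e w n hn h hh]
  ext
  · simp
  · simp only [snd_mul, fst_inr, snd_inr, zero_smul, zero_add, op_smul_eq_mul]
    exact congrArg _ k

theorem com_RK (H : HS) (φ : Zw →+* R) {M : Zw} (w : Wt R) {n : Finset ℕ} (hM : M ≠ 0)
    (h0 : φ M = 0) (hn : Pn n) {τ s : GQ} (hτ : τ ∈ UM (9 * M)) (hs : H.H0 M n s) :
    H.kc φ M w n τ s = H.kt φ M (sh w (Av τ)) n s - H.kt φ M w n s := by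
  obtain ⟨-, -, k1, -, k2, k3, k4, -⟩ := N.KT_ok H R φ M w n hM h0 hn
  have a : ∀ h, H.H0 M n h → ∀ g ∈ GK, H.kt φ M w n (h * g) = H.kt φ M w n h + H.kt φ M w n g :=
    fun h hh g hg => by
      rw [k1 h hh.1 g hg, (((N.DL_ok R φ M hM h0).2.2.2.2.2.2.2.2 _ h hh.1).2.2 hh.2.1).1, one_mul,
        kt_congr H φ M (w := sh w _) (w' := w) fun l hl => funext fun i => by
          rw [sh, Av, hh.2.2 l hl, add_zero]]
  have b := a _ (k3 pw _ (k2 _ (k4 τ hτ.1 s hs.1)).1) _ (GK.mul_mem hs.1 hτ.1)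
  rw [mul_assoc, inv_mul_cancel_left, inv_mul_cancel_right, a s hs τ hτ.1, k1 τ hτ.1 s hs.1,
    lam_KS H _ φ hM h0 hτ] at b
  rw [HS.kc]
  linear_combination -b

end

theorem RK_pf (hB : BR_st) : RK_st := by
  intro Q R _ φ f n ρ q e γ h0 hS
  have t0 : (3 : R) = 0 := by
    rw [← map_ofNat φ, show (OfNat.ofNat 3 : Zw) = -(pw * pw) by decide, map_neg, map_mul, h0,
      zero_mul, neg_zero]
  obtain ⟨ψ, p1⟩ := psi_RK t0
  have p2 : cf ψ pw = inr 1 := by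
    rw [cf, RingHom.comp_apply, starRingEnd_apply, star_pw, map_neg, p1, ← inr_neg, neg_neg]
  have p3 := three_RK p1
  have p4 := three_RK p2
  have n3 : (3 : Zw) ≠ 0 := by decide
  have t1 : ∀ l : ℕ, l % 3 = 2 → ((ml l : ℕ) : TrivSqZeroExt R R) = 0 := fun l hl => by
    obtain ⟨t, ht⟩ : 3 ∣ l + 1 := by omega
    rw [ml, if_pos hl, ht, Nat.cast_mul, ← map_natCast ψ 3, Nat.cast_ofNat, p3, zero_mul]
  obtain ⟨v, hv, kt⟩ := kt_RK hB Q h0
  let ι := inlHom R R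
  have e1 := wv_map ι φ f ρ q e γ
  have e2 := uu_map ι φ f ρ q e γ
  set w := wv φ f ρ q e γ with hw
  set u := uu φ f ρ q e γ
  have e3 : ∀ b, wp (fun l i => ι (u l i)) n b = inl (wp u n b) := fun b => by
    simp only [wp, ← map_prod]
    rfl
  have hsh : Q.toHS.Sh ψ 3 (fun l i => ι (w l i)) (fun l i => ι (u l i)) n := by
    rw [e1, e2]
    refine (WT_ok _ _ f ρ n q e _ hS.pn hS.qn hS.qr hS.dv (by rw [← map_pow, hS.ga, map_one])
      fun l a b c => ⟨hS.ine l a b c, ?_⟩).2.2.2.2.2 _ ψ 3 n3 p3 (by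
        simp only [RingHom.comp_apply, map_pow, phi_w h0, Q.j0, map_one, one_pow, ZMod.val_zero,
          pow_zero, mul_one])
    have := t1 l (hS.ine l a b c)
    rwa [ml, if_pos (hS.ine l a b c), Nat.cast_succ] at this
  have K := fun n' => N.KT_ok Q.toHS _ ψ 3 (fun l i => ι (w l i)) n' n3 p3
  have kc : ∀ (ψ' : Zw →+* TrivSqZeroExt R R) a, ψ' pw = inr a → ∀ n', Pn n' → ∀ τ ∈ GK, ∀ g ∈ GK,
      Q.kc ψ' 3 (fun l i => ι (w l i)) n' τ g = inr (a * v * Q.dc φ w n' τ g) :=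
    fun ψ' a ha n' hn τ hτ g hg => kt ψ' a ha w n' hn _ ((K n' hn).2.2.2.2.2.2.1 τ hτ g hg)
  have z : ∀ n', Pn n' → ∀ τ ∈ GK, ∀ g ∈ GK, Q.kc ψ 3 (fun l i => ι (w l i)) n' τ g = 0 →
      Q.dc φ w n' τ g = 0 := fun n' hn τ hτ g hg h => by
    rw [kc ψ _ p1 n' hn τ hτ g hg, ← inr_zero] at h
    exact (hv.neg.mul_right_eq_zero).1 (by rw [← inr_injective h]; ring)
  refine ⟨fun h hh b => ?_, fun τ hτ => ?_⟩
  · have k := hsh.shf h ((K n hS.pn).2.2.2.2.1 h hh).1 b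
    rw [e3] at k
    erw [kt ψ _ p1 (sh w b) n hS.pn h hh, kt ψ _ p1 w n hS.pn h hh] at k
    rw [inl_mul_inr] at k
    exact hv.neg.mul_left_cancel (by linear_combination (norm := (simp; ring)) inr_injective k)
  have hτ' : τ ∈ UM (9 * 3) := by rwa [show (9 * 3 : Zw) = 27 by norm_num]
  obtain ⟨c1, c2, -, c3⟩ := (N.KC_ok Q.toHS _ ψ 3 _ n n3 p3 hS.pn _ hsh).2 τ hτ.1
  have O3 : ∀ V : Plc, V.l ≠ 3 → ¬ Ov V (3 * 3) := fun V h k => h
    ((Nat.prime_dvd_prime_iff_eq V.hl.out Nat.prime_three).1 ((PLK_ok.2.2.2.1 V 3).1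
      (by simpa using Ov_pow (n := 2) (by rwa [pow_two]))))
  obtain ⟨v', rfl⟩ := hv
  refine ⟨⟨?_, fun g hg h hh => ?_⟩, z n hS.pn τ hτ.1 τ hτ.1 c2, fun V a b g hg => ?_,
    fun V F a b c d k => ?_⟩
  · obtain ⟨N, h1, h2⟩ := c1.1
    refine ⟨N, h1, fun g hg h hh k => ?_⟩
    have := h2 g hg h hh k
    rw [kc ψ _ p1 n hS.pn τ hτ.1 g hg, kc ψ _ p1 n hS.pn τ hτ.1 h hh] at this
    exact v'.isUnit.neg.mul_left_cancel (by linear_combination inr_injective this)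
  · have := congrArg snd (c1.2 g hg h hh)
    have l1 : fst (lamZ ψ (Q.χ (N.sd n)) 3 g) = 1 := by
      obtain ⟨t, ht⟩ := ((PS_ok 3 n3).1 g hg).2.2.1 dvd_rfl
      have := RingHom.congr_fun (phi_uniq (φ := RingHom.comp
        (fstHom R R R : TrivSqZeroExt R R →+* R) ψ) (by simp [p1]) h0)
        (ω ^ (Q.χ (N.sd n) g).val * ps 3 g)
      refine this.trans ?_
      rw [map_mul, map_pow, phi_w h0, one_pow, one_mul, eq_add_of_sub_eq ht, map_add, map_mul,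
        map_ofNat, t0, zero_mul, zero_add, map_one]
    rw [kc ψ _ p1 n hS.pn τ hτ.1 g hg, kc ψ _ p1 n hS.pn τ hτ.1 h hh,
      kc ψ _ p1 n hS.pn τ hτ.1 _ (GK.mul_mem hg hh), HS.rho, e3] at this
    simp only [snd_add, snd_mul, fst_mul, snd_inr, fst_inr, fst_inl, l1, smul_eq_mul,
      MulOpposite.op_zero, zero_smul] at this
    exact v'.isUnit.neg.mul_left_cancel (by linear_combination this)
  · obtain ⟨a1, a2⟩ := N.UNR_ok Q.toHS _ ψ 3 (fun l i => ι (w l i)) n n3 p3 hS.pn V (O3 V a) b g hg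
    exact z n hS.pn τ hτ.1 g a1.1.1 (by rw [c3 g ((K n hS.pn).2.2.2.2.1 g a1).1, a2, mul_zero])
  have d3 : (3 : Zw) ∣ V.l + 1 := by
    exact_mod_cast Nat.cast_dvd_cast (α := Zw) (by omega : 3 ∣ V.l + 1)
  have T := fun w' => N.TRS_ok Q.toHS _ ψ 3 w' n n3 p3 hS.pn V F a b
  have s0 := (T 0).1 3 d3
  have wl : ∀ i, ι (w V.l i) = i.val := fun i => by
    rw [hw, wv, if_neg d, if_neg c, map_natCast]
  have u2 : IsUnit (2 : TrivSqZeroExt R R) := IsUnit.of_mul_eq_one 2 (by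
    have := map_ofNat ψ 3
    linear_combination p3 - this)
  refine ⟨fun hl => z n hS.pn τ hτ.1 _ s0.1 ?_, fun hl t t1' t2 => ?_⟩
  · rw [com_RK _ ψ _ n3 p3 hS.pn hτ' s0, (T _).2 d3 hl, (T _).2 d3 hl, sub_zero]
    · simp only [wl]
      exact sum_KS (t1 _ a) u2
    · simp only [sh, Av, k, add_zero, wl]
      exact sum_KS (t1 _ a) u2
  · obtain ⟨x, hx, k1⟩ := N.FS_ok Q.toHS _ ψ 3 (fun l i => ι (w l i)) n n3 p3 hS.pn V F t 1
      (by simp) a hl b d3 t1' t2 fun i => by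
        beta_reduce
        rw [wl, wl, ← Nat.cast_succ]
        exact cast_KS (t1 _ a) (by simp)
    have hn' : Pn (insert V.l n) := fun l h => by
      rcases mem_insert.1 h with rfl | h
      exacts [⟨V.hl.out, by omega⟩, hS.pn l h]
    have k2 := congrArg snd (k1 τ hτ.1 k)
    rw [lam_KS _ _ ψ n3 p3 hτ', one_mul, ← com_RK _ _ _ n3 p4 hS.pn hτ' s0,
      kc ψ _ p1 _ hn' τ hτ.1 t t1'.2, kc _ _ p2 n hS.pn τ hτ.1 _ s0.1] at k2
    simp only [snd_mul, snd_inr, fst_inr, mul_one, smul_eq_mul, MulOpposite.op_zero,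
      zero_smul] at k2
    exact ⟨-fst x, (isUnit_iff_isUnit_fst.1 hx).neg,
      v'.isUnit.neg.mul_left_cancel (by linear_combination k2)⟩

end Pool.Agent.MP_e23604_nt.M
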