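import Pool.Agent.Mg.Fe23604m.G9b4e87

set_option linter.all false

section

/-! Equidistribution of the primes of one class beyond a cut. -/

namespace Pool.Agent.MP_e23604_nt.TN

open NumberField Finset Filter
open MP_f68ac8_nt MP_f68ac8_nt.Nd
open T (P0 rh lm9)
open scoped Topology BigOperators

open Classical in
theorem xCut_tf {G : Type} [Group G] {N H : Subgroup G} (hH : H.Normal) (hle : N ≤ H) {e : ℕ}
    {φ : G → ℂ} (hφ : Tf0 N e φ)
    (hz : ∃ z ∈ H, ∃ k : ℕ, 0 < k ∧ ∀ g, ∑ i ∈ range k, φ (z ^ i * g) = 0) (p : Prop) :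
    Tf0 N e fun g => if (g ∈ H ↔ p) then φ g else 0 := by
  refine ⟨hφ.pos, hφ.pow, fun g => ?_, fun n hn g => ?_, fun s g => ?_, ?_⟩
  · split_ifs
    exacts [hφ.le g, norm_zero.trans_le zero_le_one]
  · simp only [H.mul_mem_cancel_left (hle hn), hφ.inv n hn]
  · have h4 : s * g * s⁻¹ ∈ H ↔ g ∈ H :=
      ⟨fun h => by simpa [mul_assoc] using hH.conj_mem _ h s⁻¹, fun h => hH.conj_mem _ h s⟩
    simp only [h4, hφ.cls]
  · obtain ⟨z, hz1, k, hk, hz2⟩ := hz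
    refine ⟨z, k, hk, fun g => ?_⟩
    simp only [fun i => H.mul_mem_cancel_left (y := g) (H.pow_mem hz1 i)]
    by_cases hg : (g ∈ H ↔ p)
    · simp only [if_pos hg, hz2]
    · simp only [if_neg hg, sum_const_zero]

theorem cutT (hC : ChebP) (hZ : GzP 3) : CutT := by
  classical
  intro n
  obtain ⟨c, hc, hC⟩ := hC n
  refine ⟨c, hc, fun k => ?_⟩
  obtain ⟨C, hC0, hC⟩ := hC k
  refine ⟨C, hC0, fun R N hN hle M ρ h s τ η hM hρ hρ' hg hh hCh hs hs' hτ A b σ hA hη e φ hφ => ?_⟩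
  refine le_of_eq_of_le (congrArg norm ?_) (hC R N hN M ρ h s τ η hM hρ hρ' hg hh hCh hs hs' hτ A σ
    (fun l hl => ⟨(hA l hl).1, (hA l hl).2.2⟩) hη e _
    (xCut_tf hZ.1.nrm hle hφ.toTf0 hφ.shz (b = true)))
  rw [sum_filter]
  refine sum_congr rfl fun l hl => ?_
  have h1 : ∀ a : Exm e, (σ l ^ (a.1 : ℕ) ∈ Gz 3 ↔ b = true) ↔ cl l = b := by
    intro a
    have h2 : σ l ^ (a.1 : ℕ) ∈ Gz 3 ↔ σ l ∈ Gz 3 := by
      refine ⟨fun h5 => ?_, fun h5 => (Gz 3).pow_mem h5 _⟩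
      have h6 : cyc (Ω := Qa) 3 (σ l ^ (a.1 : ℕ)) = 1 := h5
      have h7 : cyc (Ω := Qa) 3 (σ l ^ e) = 1 := hle (hφ.pow _)
      rw [map_pow] at h6 h7
      have h8 := pow_gcd_eq_one.2 ⟨h6, h7⟩
      rwa [a.2, pow_one] at h8
    rw [h2, hZ.2.2.1 l _ (hA l hl).1 (hA l hl).2.1 (hA l hl).2.2.2]
    cases b <;> simp [cl, Nat.ModEq]
  by_cases h4 : cl l = b
  · rw [if_pos h4]
    exact congrArg _ (expect_congr rfl fun a _ => (if_pos ((h1 a).2 h4)).symm)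
  · rw [if_neg h4]
    exact (mul_eq_zero_of_right _
      (expect_eq_zero fun a _ => if_neg fun h5 => h4 ((h1 a).1 h5))).symm

end Pool.Agent.MP_e23604_nt.TN

end

section

namespace Pool.Agent.MP_e23604_nt.TN

open NumberField Finset Filter
open MP_f68ac8_nt MP_f68ac8_nt.Nd
open MP_f68ac8_nt.Zv (Ex)
open scoped Topology BigOperators

theorem xDens_num {ε₁ C₀ C T L S δ : ℝ} (h1 : 0 < ε₁) (h0 : 0 < C₀) (hC : 1 ≤ C) (hT : 0 < T)
    (hL : L = Real.log T) (l0 : 0 < L) (l1 : 4 * C / ε₁ ≤ L) (hS : S ≤ 2 * L)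
    (hδ : δ ≤ ε₁ / (4 * C₀)) :
    ε₁ / (4 * C₀) * C₀ + C * T ^ (-(2 * C + 1)) * Real.exp (C * S) + C₀ * δ ≤ ε₁ := by
  have a1 : ε₁ / (4 * C₀) * C₀ = ε₁ / 4 := by field_simp
  have a2 : C * T ^ (-(2 * C + 1)) * Real.exp (C * S) ≤ ε₁ / 4 := by
    have b1 : L * -(2 * C + 1) + C * S ≤ -L := by nlinarith
    have b2 : Real.exp (-L) ≤ L⁻¹ := by
      rw [Real.exp_neg]
      exact inv_anti₀ l0 (by linarith [Real.add_one_le_exp L])
    rw [Real.rpow_def_of_pos hT, ← hL, mul_assoc, ← Real.exp_add]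
    refine (mul_le_mul_of_nonneg_left ((Real.exp_le_exp.2 b1).trans b2) (by linarith)).trans ?_
    rw [div_le_iff₀ h1] at l1
    rw [← div_eq_mul_inv, div_le_iff₀ l0]
    linarith
  have a3 := mul_le_mul_of_nonneg_left hδ h0.le
  linarith

theorem xDens_dvd {X p₁ : ℕ} {P : Finset ℕ} {J : ℕ} {ε : ℝ} (hε : 0 < ε) (hP : P.card ≤ J)
    (h1 : ∀ p ∈ P, p₁ ≤ p) (h2 : J / ε < p₁) :
    (((Icc 1 X).filter fun n => ∃ p ∈ P, p ∣ n).card : ℝ) ≤ ε * X := by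
  have h0 : (0 : ℝ) < p₁ := lt_of_le_of_lt (by positivity) h2
  have e : ((Icc 1 X).filter fun n => ∃ p ∈ P, p ∣ n) ⊆
      P.biUnion fun p => (Ioc 0 X).filter fun n => p ∣ n := fun n hn => by
    obtain ⟨a, p, b, c⟩ := mem_filter.1 hn
    exact mem_biUnion.2 ⟨p, b, mem_filter.2 ⟨mem_Ioc.2 (mem_Icc.1 a), c⟩⟩
  have h3 : ∑ p ∈ P, (((Ioc 0 X).filter fun n => p ∣ n).card : ℝ) ≤ P.card • ((X : ℝ) / p₁) :=
    sum_le_card_nsmul _ _ _ fun p hp => by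
      rw [Nat.Ioc_filter_dvd_card_eq_div]
      exact Nat.cast_div_le.trans (div_le_div_of_nonneg_left X.cast_nonneg h0
        (by exact_mod_cast h1 p hp))
  have h4 := (Nat.cast_le (α := ℝ)).2 ((card_le_card e).trans card_biUnion_le)
  rw [Nat.cast_sum] at h4
  refine (h4.trans h3).trans ?_
  rw [nsmul_eq_mul, ← mul_div_assoc, div_le_iff₀ h0]
  rw [div_lt_iff₀ hε] at h2
  have h5 : (P.card : ℝ) ≤ J := by exact_mod_cast hP
  have := mul_le_mul_of_nonneg_right (h5.trans h2.le) (X.cast_nonneg (α := ℝ))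
  linarith

theorem densT' (hK : KerStmt) (hW : WndStmt) (hP : PoisT) (hT : TypT) (hR : RegT) (hA : ParT) :
    T.DensT := by
  classical
  obtain ⟨c, hc, hA⟩ := hA
  obtain ⟨k1, ⟨C₀, hC₀, k2⟩, -⟩ := hK c hc
  refine ⟨c, hc, fun ε hε => ?_⟩
  obtain ⟨ε₁, hε₁, hW⟩ := hW c (ε / 2) hc (half_pos hε)
  refine ⟨ε₁ / (4 * C₀), by positivity, fun B n r m₀ a C hC H => ?_⟩
  obtain ⟨J, hJ⟩ : ∃ J : ℕ, 20000 ≤ J := ⟨_, le_rfl⟩
  obtain ⟨p₁, hp₁⟩ := exists_nat_gt (J / (ε / 4))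
  have hl : Tendsto (fun X : ℕ => Real.log X) atTop atTop :=
    Real.tendsto_log_atTop.comp tendsto_natCast_atTop_atTop
  have hL : Tendsto LL atTop atTop := Real.tendsto_log_atTop.comp hl
  filter_upwards [hA J n r p₁ (1 / 80000) (ε₁ / (4 * C₀)) ((2 * C + 1) * (2 ^ a : ℕ)) (by omega)
    (by norm_num) (by norm_num) (by positivity),
    hR J (1 / 80000) (ε / 4) (by omega) (by norm_num) (by norm_num) (by positivity),
    eventually_ge_atTop 3, hl.eventually_ge_atTop 1, hL.eventually_ge_atTop 2,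
    hL.eventually_ge_atTop (2 * m₀), hL.eventually_ge_atTop (4 * C / ε₁)] with X
    ⟨Λ, W, P, S, S', ok, p1, p2, hΛ, hs, m1, mas, s1, s2, s3⟩ hR x3 t1 l1 l2 l3
  have t0 : 0 < Real.log X := by linarith
  have hξ : 0 ≤ Real.log X ^ (-(2 * C + 1)) := Real.rpow_nonneg t0.le _
  have est := H ⟨J, Λ, W⟩ (LL X ^ 2) (Real.log X ^ (-(2 * C + 1))) hξ
    (Real.rpow_le_one_of_one_le_of_nonpos t1 (by linarith))
    (by rwa [← Real.rpow_mul_natCast t0.le, neg_mul])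
  have s0 : 1 ≤ 1 + 1 / Real.log X := le_add_of_nonneg_right (by positivity)
  obtain ⟨A₀, hA₀⟩ : ∃ A₀, A₀ = (Icc 1 X).filter fun n => ¬ 3 ∣ n ∧ Squarefree n ∧ B n ∧
    (¬ ∃ p ∈ P, p ∣ n) ∧ Reg S S' (LL X) (2 * (1 / 80000)) n := ⟨_, rfl⟩
  have pri : ∀ l ∈ Λ, l.Prime := fun l hl => (ok.pri l hl).1
  have c0 : (A₀.card : ℝ) ≤ ε / 2 * X := by
    refine hW X A₀ x3 (hA₀ ▸ filter_subset _ _) fun y => ?_
    have key := hP (Mk J) Λ W S (1 + 1 / Real.log X) C₀ (ε₁ / (4 * C₀)) C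
      (Real.log X ^ (-(2 * C + 1))) (fun n => Kc c (Real.log n - y)) B
      (fun d μ => (d : ℝ) ≤ LL X ^ 2 ∧ T.Typ m₀ (fun j => (μ j).1.val) fun j => (μ j).2) pri ok.nn
      hs ok.pos s1 (fun n => (k1 _).1) (fun b hb A => ?_) (by positivity) (by linarith) hξ
      (fun d μ h => est y d μ h.1 h.2) A₀ fun n hn => ?_
    · exact key.trans (xDens_num hε₁ hC₀ hC t0 rfl (two_pos.trans_le l1) l3 m1 s3)
    · refine le_of_eq_of_le (sum_congr rfl fun n _ => ?_) (k2 _ (y - Real.log b) A s0)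
      rcases Nat.eq_zero_or_pos n with rfl | hn
      · rw [Nat.cast_zero, Real.zero_rpow (by linarith), zero_mul, zero_mul]
      · rw [Nat.cast_mul, Real.log_mul (Nat.cast_ne_zero.2 hb) (Nat.cast_ne_zero.2 hn.ne')]
        congr 2
        ring
    · rw [hA₀] at hn
      obtain ⟨n1, n2, n3, n4, n5, n6⟩ := mem_filter.1 hn
      refine ⟨n3, fun l hl => ?_, n4, fun d q μ h1 h2 h3 => hT J d m₀ Λ W S S' (LL X) _ q μ pri h1
        hJ (by norm_num) (by norm_num) l1 l2 s2 h3 (h2 ▸ n6)⟩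
      have hd := Nat.dvd_of_mem_primeFactors hl
      exact hΛ l ⟨Nat.prime_of_mem_primeFactors hl, fun e => n2 (e ▸ hd)⟩
        ((Nat.le_of_mem_primeFactors hl).trans (mem_Icc.1 n1).2) fun e => n5 ⟨l, e, hd⟩
  have c1 := xDens_dvd (X := X) (show 0 < ε / 4 by positivity) p1 p2 hp₁
  refine le_trans ?_ ((add_le_add (add_le_add c0 c1) (hR S S' mas)).trans (le_of_eq (by ring)))
  rw [← Nat.cast_add, ← Nat.cast_add, Nat.cast_le]
  refine le_trans (card_le_card fun n hn => ?_) ((card_union_le _ _).trans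
    (add_le_add_left (card_union_le _ _) _))
  obtain ⟨n1, n2, n3, n4⟩ := mem_filter.1 hn
  simp only [mem_union]
  by_cases g1 : ∃ p ∈ P, p ∣ n
  · exact Or.inl (Or.inr (mem_filter.2 ⟨n1, g1⟩))
  by_cases g2 : Reg S S' (LL X) (2 * (1 / 80000)) n
  · exact Or.inl (Or.inl (hA₀ ▸ mem_filter.2 ⟨n1, n2, n3, n4, g1, g2⟩))
  · exact Or.inr (mem_filter.2 ⟨n1, g2⟩)

end Pool.Agent.MP_e23604_nt.TN

end

section

/-! The logarithmic derivative near one. -/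

namespace Pool.Agent.MP_e23604_nt.TN

open NumberField Finset Filter
open MP_f68ac8_nt MP_f68ac8_nt.Nd
open T (P0 rh lm9)
open scoped Topology BigOperators

theorem locD (hL : LandauStmt) (hP : PsumStmt) : LocD := by
  obtain ⟨C₂, c0, hL⟩ := hL
  obtain ⟨s₀, hs₀⟩ : ∃ s₀ : ℂ, s₀ = ((1 + 1 / 64 : ℝ) : ℂ) := ⟨_, rfl⟩
  have r0 : 1 < s₀.re := by
    rw [hs₀, Complex.ofReal_re]
    norm_num
  obtain ⟨B, hB⟩ : ∃ B : ℝ, B = ∑' l : ℕ, ‖pw s₀ l‖ := ⟨_, rfl⟩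
  have B0 : 0 ≤ B := hB ▸ tsum_nonneg fun _ => norm_nonneg _
  refine ⟨1 / 64, 4 * C₂ * (1 + B), by norm_num, by norm_num, by positivity,
    fun χ F M hχ M1 hF => ?_⟩
  have b1 : Metric.ball s₀ (1 / 4) ⊆ Om := fun s hs => by
    rw [Metric.mem_ball, dist_eq_norm] at hs
    have a1 := (abs_le.1 ((Complex.abs_re_le_norm _).trans hs.le)).1
    have a2 := norm_sub_norm_le s s₀
    rw [hs₀, Complex.sub_re, Complex.ofReal_re] at a1
    rw [hs₀, Complex.norm_real, Real.norm_of_nonneg (by positivity), ← hs₀] at a2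
    constructor <;> linarith
  have b2 : Metric.ball (1 : ℂ) (1 / 64) ⊆ Metric.ball s₀ (1 / 4 / 8) := by
    refine Metric.ball_subset (le_of_eq ?_)
    rw [hs₀, dist_comm, dist_eq_norm, ← Complex.ofReal_one, ← Complex.ofReal_sub, Complex.norm_real,
      add_sub_cancel_left, Real.norm_of_nonneg (by positivity)]
    norm_num
  have b3 : ‖Pc χ s₀‖ ≤ B := hB ▸ tsum_of_norm_bounded (hP.1 s₀ r0).1.hasSum fun l => by
    rw [norm_mul]
    exact mul_le_of_le_one_left (norm_nonneg _) (hχ l)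
  have b4 : ∀ s : ℂ, 1 < s.re → F s ≠ 0 := fun s hs => hF.eq s hs ▸ Complex.exp_ne_zero _
  obtain ⟨Z, z1, z2, z3⟩ := hL F s₀ (1 / 4) ((1 + B) * M) (by norm_num) (by nlinarith)
    (hF.dif.mono b1) (b4 s₀ r0) fun s hs => (hF.le s (b1 hs)).trans (by
      rw [hF.eq s₀ r0, Complex.norm_exp, ← Real.exp_add, Real.exp_le_exp]
      nlinarith [(abs_le.1 ((Complex.abs_re_le_norm _).trans b3)).1])
  have q : 0 ≤ C₂ * ((1 + B) * M) := by positivity
  exact ⟨hF.dif.mono (b2.trans ((Metric.ball_subset_ball (by norm_num)).trans b1)), Z,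
    by linarith, fun z hz => not_lt.1 fun h => b4 z h (z2 z hz), fun s hs =>
      ⟨(z3 s (b2 hs)).1, fun h => ((z3 s (b2 hs)).2 h).trans_eq (by ring)⟩⟩

end Pool.Agent.MP_e23604_nt.TN

end
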