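import Pool.Agent.Mg.Fe23604m.G463337
import Pool.Agent.Mg.Fe23604m.G8b9a0e
import Pool.Agent.Mg.Fe23604m.G9bf290
import Pool.Agent.Mg.Fe23604m.G0675e6

set_option linter.all false

section

/-! Cubic twists: finitely many strict cocycles for almost all `D` and their squares. -/

namespace Pool.Agent.MP_e23604_nt.T

open Filter
open scoped Topology

theorem mainP_of (hDensT : DensT) (hRecD : RecD) (hKW : S.KW_st) (hKUG : S.KUG_st)
    (hNCU : S.NCU_st) (hTAM : S.TAM_st) {F : Finset ℕ → (ℕ → ZMod 3) → ZMod 3 → Prop}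
    (hCur : CurP F) : MainP F := by
  have hVtT : VtT := x_VtT
  have hCubM : CubM := x_CubM hVtT
  have hCornStmt : MP_f68ac8_nt.Zk.CornStmt := MP_f68ac8_nt.Zk.corn_stmt
  have hMixT : MixT := x_MixT hCubM hCornStmt
  have hLcT : LcT := x_LcT hCubM hMixT hCornStmt
  have hShcT : ShcT := x_ShcT hVtT
  have hMomStmt : MP_f68ac8_nt.Zv.MomStmt := MP_f68ac8_nt.Zv.mom_stmt
  have hMomN : MP_f68ac8_nt.Nd.MomN := MP_f68ac8_nt.Nd.momN
  have hUnifStmt : MP_f68ac8_nt.Zv.UnifStmt := MP_f68ac8_nt.Zv.unif_stmt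
  have hBxT : BxT := x_BxT hMomStmt hMomN hUnifStmt hVtT
  have hBoxP : MP_f68ac8_nt.Nd.BoxP 3 := MP_f68ac8_nt.Nd.boxP 3 MP_f68ac8_nt.Nd.gcsN
  have hBoxT : BoxT := x_BoxT hBoxP hVtT
  have hErrT : ErrT := x_ErrT hLcT hShcT hBxT hBoxT
  have hWmT : WmT := x_WmT
  have hSgT : SgT := x_SgT
  have hGzP : MP_f68ac8_nt.Nd.GzP 3 := MP_f68ac8_nt.Nd.gzP 3 MP_f68ac8_nt.Nd.discP
    MP_f68ac8_nt.Nd.countP
  have hEqaT : EqaT := x_EqaT hWmT hSgT hVtT hGzP
  have hTwN : MP_f68ac8_nt.Nd.TwN := MP_f68ac8_nt.Nd.twN MP_f68ac8_nt.Nd.ker_stmt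
  have hPtT : PtT := x_PtT hDensT hErrT hEqaT hWmT hUnifStmt hTwN
  have hFouM : FouM := x_FouM
  have hCoA : CoA := x_CoA
  have hNumT : NumT := x_NumT
  have hCnA : CnA := x_CnA hFouM hCoA hNumT
  have hNoS : NoS := x_NoS
  have hCoB : CoB := x_CoB
  have hNrC : NrC := x_NrC
  have hNoC : NoC := x_NoC hNoS hCoB hNrC hNumT
  have hCnB : CnB := x_CnB hFouM hNoC
  have hFouA : FouA := x_FouA
  have hCnC : CnC := x_CnC hFouM hFouA hCoA hNumT
  have hFstT : FstT := x_FstT hCnA hCnB hCnC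
  have hOscA : OscA := x_OscA hWmT hTwN
  have hOscB : OscB := x_OscB hWmT hTwN
  have hOscC : OscC := x_OscC hWmT hTwN
  have hOscT : OscT := x_OscT hOscA hOscB hOscC hWmT hTwN
  have hSelT : SelT := x_SelT
  have hBasT : BasT := x_BasT
  have hFilT : FilT := x_FilT hBasT
  have hBrT : BrT := x_BrT hBasT hFilT
  have hIvT : IvT := x_IvT hBasT hFilT
  have hPsT : PsT := x_PsT hBasT hFilT
  have hTrmT : TrmT := x_TrmT hBasT hFilT hBrT hIvT hPsT
  have hLevS : LevS := x_LevS hBasT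
  have hSemT : SemT := x_SemT hBasT
  have hActB : ActB := x_ActB hBasT hSemT hSgT
  have hDicA : DicA := x_DicA
  have hDecT : DecT := x_DecT hDicA
  have hWaT : WaT := x_WaT hBasT hVtT hFilT hActB hDecT
  have hUcT : UcT := x_UcT
  have hWbT : WbT := x_WbT hBasT hUcT hActB hWaT
  have hWcT : WcT := x_WcT hBasT hFilT hLevS hWaT hWbT
  have hWdT : WdT := x_WdT hBasT hSgT hActB
  have hDicB : DicB := x_DicB
  have hValK : ValK := x_ValK
  have hKumB : KumB := x_KumB hNCU hDicA hDicB hSgT hDecT hValK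
  have hSjT : SjT := x_SjT hSgT hDecT hKumB
  have hValC : ValC := x_ValC
  have hChrT : ChrT := x_ChrT hKW hDicA hDecT hValC hSjT
  have hKumA : KumA := x_KumA hKUG hDicA hDicB hDecT hValK
  have hUniT : UniT := x_UniT hBasT hSgT hSjT hChrT hKumA hActB
  have hObT : ObT := x_ObT hBasT hUniT
  have hWeT : WeT := x_WeT hBasT hWaT hWdT hObT hDecT
  have hWvT : WvT := x_WvT hWcT hWeT
  have hAdmG : AdmG := x_AdmG hBasT hActB hSgT
  have hAdmT : AdmT := x_AdmT hBasT hDecT hAdmG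
  have hRecL : RecL := x_RecL hBasT hActB
  have hTamT : TamT := x_TamT hSgT hUcT hDecT hValK
  have hRecP : RecP := x_RecP hBasT hDecT hTamT hActB hObT hAdmT
  have hRecT : RecT := x_RecT hBasT hUcT hDecT hLevS hActB hObT hAdmT hRecL hRecP hRecD
  have hPaT : PaT := x_PaT
  have hTwoT : TwoT := x_TwoT hSelT hTrmT hWvT hRecT hPaT
  have hWrdT : WrdT := x_WrdT hTwoT hPaT
  have hFouT : FouT := x_FouT hObT
  have hZeB : ZeB := x_ZeB hValC hDecT
  have hShfT : ShfT := x_ShfT hBasT hLevS hDecT hActB hZeB hObT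
  have hVanT : VanT := x_VanT hLevS hShfT
  have hStpT : StpT := x_StpT hFouT hVanT
  have hCntA : CntA := x_CntA hLevS
  have hPinT : PinT := x_PinT hBasT hSgT hDecT hActB hUniT
  have hCntB : CntB := x_CntB hBasT hPinT hCntA
  have hInvT : InvT := x_InvT hBasT hActB
  have hMuT : MuT := x_MuT hDecT hKumA hKumB
  have hMidT : MidT := x_MidT hBasT hDecT hActB hUniT hMuT
  have hCntC : CntC := x_CntC hBasT hObT hInvT hPinT hMidT hCntA
  have hLinT : LinT := x_LinT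
  have hItT : ItT := x_ItT hStpT hCntA hCntB hCntC hLinT
  have hTrvT : TrvT := x_TrvT
  have hTopT : TopT := x_TopT hBasT hDecT hActB hMuT
  have hHomT : HomT := x_HomT hBasT
  have hOrbT : OrbT := x_OrbT hBasT hObT hInvT hTopT hCntA hHomT
  have hSumT : SumT := x_SumT hItT hTrvT hOrbT
  have hTupN : MP_f68ac8_nt.Nd.TupN := MP_f68ac8_nt.Nd.tupN
  have hInqT : InqT := x_InqT hWrdT hSumT hAdmT hPaT hTupN
  have hEigT : EigT := x_EigT
  have hGenT : GenT := x_GenT hSgT hUcT hChrT hKumA hEigT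
  have hFincStmt : MP_f68ac8_nt.Zv.FincStmt := MP_f68ac8_nt.Zv.finc_stmt
  have hGqT : GqT := x_GqT hSgT hUcT hDecT hSjT hTamT hGenT hFincStmt
  have hPtB : PtB := x_PtB hPtT hFstT hOscT hInqT hGqT hFilT hWmT hTwN
  have hTauA : TauA := x_TauA hTAM hDicA hDicB
  have hTauB : TauB := x_TauB hValK hDecT
  have hTauT : TauT := x_TauT hSgT hDecT hValK hTauA hTauB
  have hResT : ResT := x_ResT hBasT hLevS
  have hThT : ThT := x_ThT hBasT hActB
  have hTamI : TamI := x_TamI hBasT hLevS hDecT hTamT hActB hAdmG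
  have hZeA : ZeA := x_ZeA hValC hDecT hChrT
  have hLevT : LevT := x_LevT hBasT hSemT hSgT hDecT hActB hMuT hZeA hTamI
  have hOddT : OddT := x_OddT hBasT hDecT hActB hZeA hTamI
  have hDetT : DetT := x_DetT hBasT hLevS hDecT hUniT hLevT hOddT
  have hActT : ActT := x_ActT hBasT hDecT hActB
  have hRedT : RedT := x_RedT hBasT hLevS hDecT hTamI hDetT hActT
  exact x_MainP hPtB hCur hTauT hResT hThT hRedT hDecT

theorem mainS : MainP StF := mainP_of TN.densT S.recD S.KW_ok S.KUG_ok S.NCU_ok S.TAM_ok curP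

theorem bothS :
    Tendsto (fun X : ℕ => ({D : ℕ | 1 ≤ D ∧ D ≤ X ∧ ¬ Both StF D}.ncard : ℝ) / X) atTop (𝓝 0) :=
  x_Both mainS x_ShpT

end Pool.Agent.MP_e23604_nt.T

end

section

/-!
Almost all numbers are in good position together with their companions.
-/

set_option autoImplicit false

open Filter Topology
open scoped Classical

namespace Pool.Agent.MP_e23604_nt.W

open B R S

/-- the cubic character of `D` -/
noncomputable def chD (D : ℕ) (g : GQ) : ZMod 3 := 2 * kum D g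

/-- numbers in good position -/
structure Nice (D : ℕ) : Prop where
  ne : D ≠ 0
  gen : S.Gen D
  sd : T.SD D

variable {D : ℕ}

theorem tw_chD (h : D ≠ 0) : Tw (chD D) (rad3 D) :=
  tw_kum S.KAP_ok S.TAM_ok FAC_ok PLK_ok h (rad3_sf D) fun _ hl => dvd_rad3 hl

theorem Nice.tw (h : Nice D) : Tw (chD D) (rad3 D) := tw_chD h.ne

theorem Nice.hs (h : Nice D) : HSt (chD D) (rad3 D) :=
  hs_of S.KAP_ok PLK_ok h.ne h.sd fun _ hl _ a => ((dvd_rad3 hl).1 a).2

theorem Nice.cork (h : Nice D) : Cork3 (EK (-432 * D ^ 2)) := by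
  rw [EK_eq_EC]
  exact h.sd.cork h.ne

theorem Nice.cn (h : Nice D) : ∃ C : ℕ, ∀ k : ℕ, 3 ^ (k * par3 D) ≤ Cn (EK (-432 * D ^ 2)) k ∧
    Cn (EK (-432 * D ^ 2)) k ≤ C * 3 ^ (k * par3 D) := ALL_ok D h.ne h.gen h.cork

theorem Nice.hb (h : Nice D) (hp : par3 D = 0) : HB (chD D) (rad3 D) := by
  obtain ⟨J, n, a, ψ, hP, hE, hi, hi', ha, e, hn⟩ :=
    inst_two JEX_ok S.GA_ok WP_ok FER_ok ISM_ok TABM_ok TABZ_ok h.ne h.gen
  have hc : (-432 * (D : ℤ) ^ 2) ≠ 0 :=
    mul_ne_zero (by norm_num) (pow_ne_zero _ (Nat.cast_ne_zero.2 h.ne))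
  have hB := bex_of COV_ok S.PAR_ok S.FIN_ok FSQ_ok S.SHA_ok FG_ok hc hP hE hi hi' ha (e.trans hp)
    h.cork
  obtain ⟨Ψ, -, hΨ⟩ := ISO_ok D h.ne
  rw [← eq_rad3 hP.sf hn]
  refine hb_of PLK_ok hP.cm hP.ga hB Ψ fun g hg P => ?_
  rw [tw_pos _ hg, gA_apply, hΨ g hg]
  rfl

theorem Nice.fin (h : Nice D) (hp : par3 D = 0) :
    Finite (EK (-432 * D ^ 2)).toAffine.Point ∧ Finite (Sha (EK (-432 * D ^ 2))) :=
  fin_of ISO_ok FAC_ok PLK_ok INE_ok FIH_ok FINP_fin h.ne h.gen h.cork hp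

theorem chD_pow (h : D ≠ 0) (j i : ℕ) {g : GQ} (hg : g ∈ GK) :
    chD (3 ^ j * D ^ i) g = j * chD 3 g + i * chD D g := by
  have k : ∀ a b : ℕ, a ≠ 0 → b ≠ 0 → chD (a * b) g = chD a g + chD b g := fun a b ha hb => by
    obtain ⟨t, ht⟩ := S.KAP_ok.2.2.1 a b (Nat.cast_ne_zero.2 ha) (Nat.cast_ne_zero.2 hb)
    rw [chD, chD, chD, Nat.cast_mul, ht, ep_pos hg]
    ring
  have k' : ∀ a n : ℕ, a ≠ 0 → chD (a ^ n) g = n * chD a g := fun a n ha => by
    induction n with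
    | zero =>
      have := k 1 1 one_ne_zero one_ne_zero
      rw [mul_one, left_eq_add] at this
      rw [pow_zero, this, Nat.cast_zero, zero_mul]
    | succ n ih =>
      rw [pow_succ, k _ _ (pow_ne_zero _ ha) ha, ih]
      push_cast
      ring
  rw [k _ _ (by positivity) (pow_ne_zero _ h), k' _ _ three_ne_zero, k' _ _ h]

/-- almost all numbers are in good position together with their companions -/
theorem nice_all : Tendsto (fun X : ℕ => ({D : ℕ | 1 ≤ D ∧ D ≤ X ∧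
    ¬ ∀ j, Nice (3 ^ j * D) ∧ Nice (3 ^ j * D ^ 2)}.ncard : ℝ) / X) atTop (𝓝 0) := by
  have h2 := DGEN_ok
  unfold DGEN_st at h2
  have h3 := T.bothS.add h2
  rw [add_zero] at h3
  refine squeeze_zero (fun X => by positivity) (fun X => ?_) h3
  rw [← add_div]
  refine div_le_div_of_nonneg_right ?_ (Nat.cast_nonneg _)
  rw [← Nat.cast_add, Nat.cast_le]
  refine le_trans (Set.ncard_le_ncard ?_ ?_) (Set.ncard_union_le _ _)
  · rintro D ⟨h1, hX, hD⟩
    by_contra hn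
    simp only [Set.mem_union, Set.mem_ofPred_eq, not_or, not_and, not_not] at hn
    have h0 : D ≠ 0 := by omega
    exact hD fun j => ⟨⟨by positivity, by simpa using gen_pow h0 j (.inl rfl) (hn.2 h1 hX),
      ((hn.1 h1 hX).sd j).1⟩, by positivity, gen_pow h0 j (.inr rfl) (hn.2 h1 hX),
      ((hn.1 h1 hX).sd j).2⟩
  · exact (Set.finite_le_nat X).subset (by
      rintro D (⟨_, hX, _⟩ | ⟨_, hX, _⟩) <;> exact hX)

/-- a property of the numbers in good position holds for almost all numbers -/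
theorem nice_of {P : ℕ → Prop} (h : ∀ D, (∀ j, Nice (3 ^ j * D) ∧ Nice (3 ^ j * D ^ 2)) → P D) :
    Tendsto (fun X : ℕ => ({D : ℕ | 1 ≤ D ∧ D ≤ X ∧ ¬ P D}.ncard : ℝ) / X) atTop (𝓝 0) := by
  refine squeeze_zero (fun X => by positivity) (fun X => ?_) nice_all
  refine div_le_div_of_nonneg_right (Nat.cast_le.2 (Set.ncard_le_ncard
    (fun D hD => ⟨hD.1, hD.2.1, mt (h D) hD.2.2⟩) ?_)) (Nat.cast_nonneg _)
  exact (Set.finite_le_nat X).subset fun D hD => hD.2.1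

end Pool.Agent.MP_e23604_nt.W

end
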