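import Pool.Agent.Mg.Fe23604m.G9b4e87
import Pool.Agent.Mg.Fe23604m.Ga53936

set_option linter.all false

section

/-! Bilinear sums with a short modulus. -/

namespace Pool.Agent.MP_e23604_nt.TN

open NumberField Finset Filter
open MP_f68ac8_nt MP_f68ac8_nt.Nd
open T (P0 rh lm9)
open scoped Topology BigOperators

theorem bilA (hL : LsT) : BilA := by
  refine ⟨24, by norm_num, fun s L A B γ a b h1 h2 h3 hC hA hB => ?_⟩
  set H := 2 / (s - 1) with hH
  have hu : 0 < s - 1 := by linarith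
  have hL0 : 0 < L := by linarith
  have hH1 : 1 ≤ H := by
    rw [hH, le_div_iff₀ hu]
    linarith
  let α : ℕ → ℂ := fun l' => ∑ l ∈ A, a l * γ l' l
  choose u hu1 hu2 using fun l' => Complex.exists_norm_eq_mul_self (α l' ^ 5)
  let β : ℕ → ℂ := fun l' => (‖b l'‖ : ℝ) * u l'
  have hβ : ∀ l', ‖β l'‖ = ‖b l'‖ := fun l' => by simp [β, hu1]
  let g : ℕ → ℂ := fun m => ∑ l ∈ B, β l * γ l m
  let P := Fintype.piFinset fun _ : Fin 5 => A
  set I := Ico ⌈L ^ 5⌉₊ (P.sup (fun q => ∏ j, q j) + 1) with hI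
  set X := ‖∑ l ∈ A, ∑ l' ∈ B, a l * b l' * γ l' l‖ with hX
  set Y := ∑ l' ∈ B, ‖b l'‖ * ‖α l'‖ ^ 5 with hY
  set Z := ∑ m ∈ I, (m : ℝ) ^ (-s) * ‖g m‖ with hZ
  have hX0 : 0 ≤ X := norm_nonneg _
  have hY0 : 0 ≤ Y := sum_nonneg fun _ _ => by positivity
  have s1 : X ≤ ∑ l' ∈ B, ‖b l'‖ * ‖α l'‖ := by
    rw [hX, sum_comm]
    refine (norm_sum_le _ _).trans (sum_le_sum fun l' _ => le_of_eq ?_)
    rw [← norm_mul, mul_sum]
    congr 1
    exact sum_congr rfl fun l _ => by ring
  have s2 : X ^ 5 ≤ H ^ 4 * Y :=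
    (pow_le_pow_left₀ hX0 s1 5).trans (pm_NeBil1 B _ _ H (fun _ _ => norm_nonneg _)
      (fun _ _ => norm_nonneg _)
      ((sum_le_sum fun l hl => (hB l hl).2.2).trans (zeta_NeBil1 h1 h2 B)))
  have e : (Y : ℂ) = ∑ q ∈ P, (∏ j, a (q j)) * g (∏ j, q j) := by
    have e1 : (Y : ℂ) = ∑ l' ∈ B, β l' * α l' ^ 5 := by
      rw [hY, Complex.ofReal_sum]
      refine sum_congr rfl fun l' _ => ?_
      rw [Complex.ofReal_mul, ← norm_pow, hu2, mul_assoc]
    rw [e1]
    simp only [α, g, sum_pow', mul_sum]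
    rw [sum_comm]
    refine sum_congr rfl fun q _ => sum_congr rfl fun l' hl' => ?_
    simp only [Fin.prod_univ_five, (hC.cm l' hl').mul]
    ring
  have hP : ∀ q ∈ P, ∀ j, q j ∈ A := fun q hq => Fintype.mem_piFinset.mp hq
  have s3 : Y ≤ 5 ^ 5 * Z := by
    refine le_trans ?_ (tup_NeBil1 A I (fun l hl => (hA l hl).1)
      (fun m => (m : ℝ) ^ (-s) * ‖g m‖) (fun m => by positivity) fun q hq => ?_)
    · refine (le_abs_self _).trans ?_
      rw [← Real.norm_eq_abs, ← Complex.norm_real, e]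
      refine (norm_sum_le _ _).trans (sum_le_sum fun q hq => ?_)
      rw [norm_mul, norm_prod, Nat.cast_prod,
        ← Real.finsetProd_rpow _ _ (fun j _ => Nat.cast_nonneg _)]
      exact mul_le_mul_of_nonneg_right (prod_le_prod (fun _ _ => norm_nonneg _)
        fun j _ => (hA _ (hP q hq j)).2.2) (norm_nonneg _)
    · refine mem_Ico.mpr ⟨Nat.ceil_le.mpr ?_, Nat.lt_succ_of_le (le_sup (f := fun q => ∏ j, q j) hq)⟩
      rw [Nat.cast_prod]
      have := prod_le_prod (s := univ) (f := fun _ : Fin 5 => L) (g := fun j => (q j : ℝ))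
        (fun _ _ => hL0.le) fun j _ => (hA _ (hP q hq j)).2.1
      simpa using this
  have s4 : Z ^ 2 ≤ H * (3 * H ^ 2 / L) := by
    have c := sum_sq_le_sum_mul_sum_of_sq_le_mul I (r := fun m => (m : ℝ) ^ (-s) * ‖g m‖)
      (f := fun m => (m : ℝ) ^ (-s)) (g := fun m => (m : ℝ) ^ (-s) * ‖g m‖ ^ 2)
      (fun _ _ => by positivity) (fun _ _ => by positivity) fun _ _ => le_of_eq (by ring)
    refine c.trans (mul_le_mul (zeta_NeBil1 h1 h2 I) (hL s L B γ β _ h1 h2 h3 hC ?_)
      (sum_nonneg fun _ _ => by positivity) (by positivity))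
    intro l hl
    rw [hβ]
    exact hB l hl
  have hR : (24 / (s - 1) ^ 2 * L ^ (-(1 / 10 : ℝ))) ^ 10 = 6 ^ 10 * H ^ 20 / L := by
    have r1 : (L ^ (-(1 / 10 : ℝ))) ^ 10 = L⁻¹ := by
      rw [← Real.rpow_natCast, ← Real.rpow_mul hL0.le, ← Real.rpow_neg_one]
      norm_num
    have r2 : 24 / (s - 1) ^ 2 = 6 * H ^ 2 := by
      rw [hH]
      field_simp
      norm_num
    rw [mul_pow, r1, r2]
    ring
  refine le_of_pow_le_pow_left₀ (n := 10) (by norm_num) (by positivity) ?_
  rw [hR]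
  calc X ^ 10 = (X ^ 5) ^ 2 := by ring
    _ ≤ (H ^ 4 * (5 ^ 5 * Z)) ^ 2 :=
        pow_le_pow_left₀ (by positivity) (s2.trans (by gcongr)) 2
    _ = H ^ 8 * 5 ^ 10 * Z ^ 2 := by ring
    _ ≤ H ^ 8 * 5 ^ 10 * (H * (3 * H ^ 2 / L)) := by gcongr
    _ = 3 * 5 ^ 10 * H ^ 11 / L := by ring
    _ ≤ 6 ^ 10 * H ^ 20 / L := by
        refine div_le_div_of_nonneg_right ?_ hL0.le
        exact mul_le_mul (by norm_num) (pow_le_pow_right₀ hH1 (by norm_num)) (by positivity)
          (by norm_num)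

end Pool.Agent.MP_e23604_nt.TN

end

section

/-! The sequences of marks of well distributed numbers are typical. -/

namespace Pool.Agent.MP_e23604_nt.TN

open NumberField Finset Filter
open MP_f68ac8_nt MP_f68ac8_nt.Nd
open T (P0 rh lm9)
open scoped Topology BigOperators

theorem xTyp_card (J : ℕ) : (univ.filter fun i : Fin (J + 2) => 2 ≤ i.val).card = J := by
  have h : (univ.filter fun i : Fin (J + 2) => 2 ≤ i.val) =
      univ.map (Fin.addNatEmb 2 (n := J)) := by
    ext i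
    simp only [mem_filter, mem_univ, true_and, Finset.mem_map, Fin.addNatEmb_apply]
    refine ⟨fun h => ⟨⟨i.val - 2, by omega⟩, Fin.ext ?_⟩, ?_⟩
    · simp only [Fin.val_addNat]
      omega
    · rintro ⟨k, rfl⟩
      simp only [Fin.val_addNat]
      omega
  rw [h, card_map, card_univ, Fintype.card_fin]

theorem xTyp_sum {J d : ℕ} (μ : Fin d → Mk J) (b : Bool) :
    (univ.filter fun j => 2 ≤ (μ j).1.val ∧ (μ j).2 = b).card =
      ∑ i ∈ univ.filter fun i : Fin (J + 2) => 2 ≤ i.val,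
        (univ.filter fun j => μ j = (i, b)).card := by
  rw [card_eq_sum_card_fiberwise (f := fun j => (μ j).1)
    (t := univ.filter fun i : Fin (J + 2) => 2 ≤ i.val)
    fun j hj => mem_coe.2 (mem_filter.2 ⟨mem_univ _, (mem_filter.1 (mem_coe.1 hj)).2.1⟩)]
  refine sum_congr rfl fun i hi => congrArg _ ?_
  ext j
  simp only [mem_filter, mem_univ, true_and, Prod.ext_iff] at hi ⊢
  refine ⟨fun h => ⟨h.2, h.1.2⟩, fun h => ⟨⟨?_, h.2⟩, h.1⟩⟩
  rw [h.1]
  exact hi

theorem typT (hT : TupN) : TypT := by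
  intro J d m₀ Λ W S S' L δ q μ hΛ hq hJ h0 h1 hL hm hS hF hR
  have hp := ((hT Λ hΛ).1 d q hq).2
  have hq' : Function.Injective fun j => (q j : ℕ) := Subtype.val_injective.comp hq
  have hd : (np q).primeFactors.card = d := by
    rw [hp, card_image_of_injective _ hq', card_univ, Fintype.card_fin]
  have ht := hR.tot
  rw [hd, abs_le] at ht
  have hJ' : (20000 : ℝ) ≤ J := by exact_mod_cast hJ
  have hδ : δ * L ≤ 1 / 40000 * L := mul_le_mul_of_nonneg_right h1 (by linarith)
  have hδ0 : 0 ≤ δ * L := mul_nonneg h0 (by linarith)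
  have up : ∀ m : Mk J, 2 ≤ m.1.val →
      2 * J * ((univ.filter fun j => μ j = m).card : ℝ) ≤ (1 + δ) * L := fun m h2 => by
    refine le_trans (mul_le_mul_of_nonneg_left ?_ (by positivity)) (hR.up m h2)
    refine Nat.cast_le.2 (card_le_card_of_injOn (fun j => (q j : ℕ)) (fun j hj => ?_) hq'.injOn)
    have e := (mem_filter.1 (mem_coe.1 hj)).2
    refine mem_coe.2 (mem_inter.2 ⟨?_, hS m _ h2 (e ▸ (hF j).1)⟩)
    rw [hp]
    exact mem_image_of_mem _ (mem_univ j)
  have lo : ∀ m : Mk J, 2 ≤ m.1.val →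
      (1 - δ) * L ≤ 2 * J * ((univ.filter fun j => μ j = m).card : ℝ) := fun m h2 => by
    refine (hR.lo m h2).trans (mul_le_mul_of_nonneg_left ?_ (by positivity))
    refine Nat.cast_le.2 (le_trans (card_le_card fun l hl => ?_)
      (card_image_le (f := fun j => (q j : ℕ))))
    obtain ⟨a1, a2⟩ := mem_inter.1 hl
    rw [hp] at a1
    obtain ⟨j, -, rfl⟩ := mem_image.1 a1
    exact mem_image_of_mem _ (mem_filter.2 ⟨mem_univ _, (hF j).2 m a2⟩)
  have hb : ∀ b : Bool, (1 - δ) * L ≤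
      2 * ((univ.filter fun j => 2 ≤ (μ j).1.val ∧ (μ j).2 = b).card : ℝ) := fun b => by
    have h := card_nsmul_le_sum (univ.filter fun i : Fin (J + 2) => 2 ≤ i.val)
      (fun i => 2 * J * ((univ.filter fun j => μ j = (i, b)).card : ℝ)) _
      fun i hi => lo (i, b) (mem_filter.1 hi).2
    rw [xTyp_card, nsmul_eq_mul, ← mul_sum] at h
    rw [xTyp_sum, Nat.cast_sum]
    refine le_of_mul_le_mul_left (a := (J : ℝ)) ?_ (by linarith)
    linarith
  refine ⟨by nlinarith [ht.2], ?_, fun a => ?_, ?_, ?_⟩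
  · have : (m₀ : ℝ) ≤ d := by linarith [ht.1]
    exact_mod_cast this
  · suffices h : 10000 * ((univ.filter fun j => (μ j).1.val = a).card : ℝ) ≤ d by
      exact_mod_cast h
    by_cases ha : a < 2
    · have h3 : (univ.filter fun j => (μ j).1.val = a).card +
          ((univ.filter fun j => 2 ≤ (μ j).1.val ∧ (μ j).2 = true).card +
          (univ.filter fun j => 2 ≤ (μ j).1.val ∧ (μ j).2 = false).card) ≤ d := by
        rw [← card_union_of_disjoint, ← card_union_of_disjoint]
        · exact (card_le_univ _).trans (Fintype.card_fin d).le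
        · refine disjoint_left.2 fun j a1 a2 => ?_
          have e := (mem_filter.1 a1).2
          rcases mem_union.1 a2 with a2 | a2 <;> have := (mem_filter.1 a2).2.1 <;> omega
        · refine disjoint_left.2 fun j a1 a2 => ?_
          exact Bool.noConfusion ((mem_filter.1 a1).2.2.symm.trans (mem_filter.1 a2).2.2)
      have h4 := (Nat.cast_le (α := ℝ)).2 h3
      push_cast at h4
      linarith [hb true, hb false, ht.1, ht.2]
    by_cases ha' : a < J + 2
    · have h3 : (univ.filter fun j => (μ j).1.val = a).card ≤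
          (univ.filter fun j => μ j = (⟨a, ha'⟩, true)).card +
          (univ.filter fun j => μ j = (⟨a, ha'⟩, false)).card := by
        refine le_trans (card_le_card fun j hj => ?_) (card_union_le _ _)
        have e := (mem_filter.1 hj).2
        simp only [mem_union, mem_filter, mem_univ, true_and, Prod.ext_iff, Fin.ext_iff, e]
        cases (μ j).2 <;> simp
      have h4 := (Nat.cast_le (α := ℝ)).2 h3
      push_cast at h4
      have u1 := up (⟨a, ha'⟩, true) (not_lt.1 ha)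
      have u2 := up (⟨a, ha'⟩, false) (not_lt.1 ha)
      have v1 := mul_le_mul_of_nonneg_right hJ'
        (Nat.cast_nonneg (α := ℝ) (univ.filter fun j => μ j = (⟨a, ha'⟩, true)).card)
      have v2 := mul_le_mul_of_nonneg_right hJ'
        (Nat.cast_nonneg (α := ℝ) (univ.filter fun j => μ j = (⟨a, ha'⟩, false)).card)
      linarith [ht.1]
    · rw [filter_false_of_mem (p := fun j => (μ j).1.val = a)
        fun j _ e => ha' (e ▸ (μ j).1.2), card_empty, Nat.cast_zero, mul_zero]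
      exact Nat.cast_nonneg d
  · suffices h : (d : ℝ) ≤
        100 * ((univ.filter fun j => 2 ≤ (μ j).1.val ∧ (μ j).2 = true).card : ℝ) by
      exact_mod_cast h
    linarith [hb true, ht.2]
  · suffices h : (d : ℝ) ≤
        100 * ((univ.filter fun j => 2 ≤ (μ j).1.val ∧ (μ j).2 = false).card : ℝ) by
      exact_mod_cast h
    linarith [hb false, ht.2]

end Pool.Agent.MP_e23604_nt.TN

end
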