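import Pool.Agent.MP_e23604_nt.P.Div
import Pool.Agent.Mg.Fe23604m.G651d65
import Pool.Agent.MP_e23604_nt.P.Defs
import Pool.Agent.Mg.Fe23604m.G180f29

set_option linter.all false

section

/-!
Euler products close to the pole of zeta.
-/

open Finset
open scoped Classical

noncomputable section

namespace Pool.Agent.MP_e23604_nt.P

variable {P : Finset ℕ} {s : ℝ}

theorem xx_pos (s : ℝ) {l : ℕ} (hl : 0 < l) : 0 < xx s l :=
  Real.rpow_pos_of_pos (Nat.cast_pos.2 hl) _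

theorem xBZeta_nn (s : ℝ) (l : ℕ) : 0 ≤ xx s l := Real.rpow_nonneg (Nat.cast_nonneg l) _

theorem xx_le (hs : 0 < s) {l : ℕ} (hl : 0 < l) : xx s l ≤ 1 / l := by
  have h1 : (1 : ℝ) ≤ l := Nat.one_le_cast.2 hl
  rw [one_div, ← Real.rpow_neg_one]
  refine Real.rpow_le_rpow_of_exponent_le h1 ?_
  have : 0 < 1 / s := by positivity
  linarith

/-- the completely multiplicative function -/
def xBZeta_hom (s : ℝ) : ℕ →* ℝ where
  toFun := xx s
  map_one' := by simp [xx]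
  map_mul' a b := by
    simp only [xx, Nat.cast_mul]
    exact Real.mul_rpow (Nat.cast_nonneg a) (Nat.cast_nonneg b)

theorem prod_xx (s : ℝ) (x : Finset ℕ) : ∏ l ∈ x, xx s l = xx s (∏ l ∈ x, l) :=
  (map_prod (xBZeta_hom s) (fun l => l) x).symm

theorem xBZeta_half (hs : 0 < s) {l : ℕ} (hl : l.Prime) : xx s l ≤ 1 / 2 :=
  (xx_le hs hl.pos).trans
    (one_div_le_one_div_of_le (by norm_num) (by exact_mod_cast hl.two_le))

theorem xBZeta_tan {u v a : ℝ} (hu : 0 < u) (hv : 0 < v) (ha : 0 ≤ a) :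
    v ^ (-a) * (1 + a * (1 - u / v)) ≤ u ^ (-a) := by
  have h1 : u ^ (-a) = v ^ (-a) * Real.exp (-a * Real.log (u / v)) := by
    rw [mul_comm (-a), ← Real.rpow_def_of_pos (div_pos hu hv), ← Real.mul_rpow hv.le
      (div_pos hu hv).le, mul_div_cancel₀ _ hv.ne']
  rw [h1]
  refine mul_le_mul_of_nonneg_left ?_ (Real.rpow_nonneg hv.le _)
  have h2 := Real.log_le_sub_one_of_pos (div_pos hu hv)
  have h3 := Real.add_one_le_exp (-a * Real.log (u / v))
  nlinarith

theorem xBZeta_eq (s : ℝ) {l : ℕ} (hl : 0 < l) : xx s l = (l : ℝ) ^ (-(1 / s)) / l := by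
  have h : (0 : ℝ) < l := Nat.cast_pos.2 hl
  rw [xx, neg_add, Real.rpow_add h, Real.rpow_neg_one, mul_comm]
  rfl

theorem xBZeta_up (hs : 0 < s) (N : ℕ) :
    ∑ n ∈ range (N + 1), xx s (n + 1) ≤ 1 + s - s * ((N + 1 : ℕ) : ℝ) ^ (-(1 / s)) := by
  induction N with
  | zero => simp [xx]
  | succ N ih =>
    rw [sum_range_succ]
    have hu : (0 : ℝ) < ((N + 1 : ℕ) : ℝ) := by positivity
    have hv : (0 : ℝ) < ((N + 1 + 1 : ℕ) : ℝ) := by positivity
    have h := xBZeta_tan hu hv (a := 1 / s) (by positivity)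
    have h1 : 1 - ((N + 1 : ℕ) : ℝ) / ((N + 1 + 1 : ℕ) : ℝ) = 1 / ((N + 1 + 1 : ℕ) : ℝ) := by
      field_simp
      push_cast
      ring
    rw [h1] at h
    rw [xBZeta_eq s (Nat.succ_pos _)]
    have h2 := mul_le_mul_of_nonneg_left h hs.le
    have h3 : s * (((N + 1 + 1 : ℕ) : ℝ) ^ (-(1 / s)) * (1 + 1 / s * (1 / ((N + 1 + 1 : ℕ) : ℝ))))
        = s * ((N + 1 + 1 : ℕ) : ℝ) ^ (-(1 / s)) +
          ((N + 1 + 1 : ℕ) : ℝ) ^ (-(1 / s)) / ((N + 1 + 1 : ℕ) : ℝ) := by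
      field_simp
    rw [h3] at h2
    linarith

theorem xBZeta_low (hs : 0 < s) (N : ℕ) :
    s - s * ((N + 1 : ℕ) : ℝ) ^ (-(1 / s)) ≤ ∑ n ∈ range N, xx s (n + 1) := by
  induction N with
  | zero => simp
  | succ N ih =>
    rw [sum_range_succ]
    have hu : (0 : ℝ) < ((N + 1 + 1 : ℕ) : ℝ) := by positivity
    have hv : (0 : ℝ) < ((N + 1 : ℕ) : ℝ) := by positivity
    have h := xBZeta_tan hu hv (a := 1 / s) (by positivity)
    have h1 : 1 - ((N + 1 + 1 : ℕ) : ℝ) / ((N + 1 : ℕ) : ℝ) = -(1 / ((N + 1 : ℕ) : ℝ)) := by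
      field_simp
      push_cast
      ring
    rw [h1] at h
    rw [xBZeta_eq s (Nat.succ_pos _)]
    have h2 := mul_le_mul_of_nonneg_left h hs.le
    have h3 : s * (((N + 1 : ℕ) : ℝ) ^ (-(1 / s)) * (1 + 1 / s * (-(1 / ((N + 1 : ℕ) : ℝ)))))
        = s * ((N + 1 : ℕ) : ℝ) ^ (-(1 / s)) -
          ((N + 1 : ℕ) : ℝ) ^ (-(1 / s)) / ((N + 1 : ℕ) : ℝ) := by
      field_simp
      ring
    rw [h3] at h2
    linarith

theorem xBZeta_sum (hs : 0 < s) (F : Finset ℕ) : ∑ n ∈ F, xx s n ≤ 1 + s := by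
  have h0 : xx s 0 = 0 := by
    have : 0 < 1 / s := by positivity
    rw [xx, Nat.cast_zero, Real.zero_rpow (by linarith)]
  have h1 : F ⊆ range (F.sup id + 1 + 1) := fun n hn => by
    have : n ≤ F.sup id := le_sup (f := id) hn
    exact mem_range.2 (by omega)
  refine (sum_le_sum_of_subset_of_nonneg h1 fun n _ _ => xBZeta_nn s n).trans ?_
  rw [sum_range_succ', h0, add_zero]
  refine (xBZeta_up hs _).trans ?_
  have : 0 ≤ s * ((F.sup id + 1 : ℕ) : ℝ) ^ (-(1 / s)) := by positivity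
  linarith

theorem xBZeta_hs (hs : 0 < s) (F : Finset ℕ) :
    HasSum (fun m : Nat.factoredNumbers F => xx s m)
      (∏ p ∈ F with p.Prime, (1 - xx s p)⁻¹) :=
  (EulerProduct.summable_and_hasSum_factoredNumbers_prod_filter_prime_geometric
    (f := xBZeta_hom s) (fun {p} hp => by
      show ‖xx s p‖ < 1
      rw [Real.norm_of_nonneg (xBZeta_nn s p)]
      linarith [xBZeta_half hs hp]) F).2

theorem prod_inv_le (hP : ∀ l ∈ P, l.Prime) (hs : 0 < s) :
    ∏ l ∈ P, (1 - xx s l)⁻¹ ≤ 1 + s := by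
  have h := xBZeta_hs hs P
  rw [filter_true_of_mem hP] at h
  refine hasSum_le_of_sum_le h fun u => ?_
  have h1 := xBZeta_sum hs (u.map (Function.Embedding.subtype _))
  rwa [sum_map] at h1

theorem prod_one_add_le (hP : ∀ l ∈ P, l.Prime) (hs : 0 < s) (A : ℕ) :
    ∏ l ∈ P, (1 + A * xx s l) ≤ (1 + s) ^ A := by
  have h0 : ∀ l ∈ P, 0 < 1 - xx s l := fun l hl => by linarith [xBZeta_half hs (hP l hl)]
  calc ∏ l ∈ P, (1 + A * xx s l) ≤ ∏ l ∈ P, ((1 - xx s l)⁻¹) ^ A := by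
        refine prod_le_prod (fun l _ => by have := xBZeta_nn s l; positivity) fun l hl => ?_
        have h1 := xBZeta_nn s l
        refine (one_add_mul_le_pow (by linarith) A).trans (pow_le_pow_left₀ (by linarith) ?_ A)
        rw [← one_div, le_div_iff₀ (h0 l hl)]
        nlinarith
    _ = (∏ l ∈ P, (1 - xx s l)⁻¹) ^ A := prod_pow _ _ _
    _ ≤ (1 + s) ^ A := pow_le_pow_left₀ (prod_nonneg fun l hl => (inv_pos.2 (h0 l hl)).le)
        (prod_inv_le hP hs) A

theorem rankin (hP : ∀ l ∈ P, l.Prime) (hs : 0 < s) (A : ℕ) {R : ℝ} (hR : 0 < R) :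
    ∑ x ∈ P.powerset.filter fun x => R < ((∏ l ∈ x, l : ℕ) : ℝ), ∏ l ∈ x, (A * xx s l) ≤
      R ^ (-(1 / (2 * s))) * (1 + 2 * s) ^ A := by
  have hR' : 0 ≤ R ^ (-(1 / (2 * s))) := Real.rpow_nonneg hR.le _
  have hnn : ∀ (t : ℝ) (x : Finset ℕ), 0 ≤ ∏ l ∈ x, (A * xx t l) := fun t x =>
    prod_nonneg fun l _ => mul_nonneg (Nat.cast_nonneg A) (xBZeta_nn t l)
  calc _ ≤ ∑ x ∈ P.powerset.filter fun x => R < ((∏ l ∈ x, l : ℕ) : ℝ),
          R ^ (-(1 / (2 * s))) * ∏ l ∈ x, (A * xx (2 * s) l) := by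
        refine sum_le_sum fun x hx => ?_
        have h1 := (mem_filter.1 hx).2
        have h2 : (0 : ℝ) < ((∏ l ∈ x, l : ℕ) : ℝ) := hR.trans h1
        rw [prod_mul_distrib, prod_mul_distrib, prod_xx, prod_xx, mul_left_comm]
        refine mul_le_mul_of_nonneg_left ?_ (prod_nonneg fun _ _ => Nat.cast_nonneg A)
        have h3 : -(1 + 1 / s) = -(1 / (2 * s)) + -(1 + 1 / (2 * s)) := by
          field_simp
          ring
        rw [xx, xx, h3, Real.rpow_add h2]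
        refine mul_le_mul_of_nonneg_right ?_ (Real.rpow_nonneg h2.le _)
        have h4 : 0 < 1 / (2 * s) := by positivity
        exact Real.rpow_le_rpow_of_nonpos hR h1.le (by linarith)
    _ ≤ ∑ x ∈ P.powerset, R ^ (-(1 / (2 * s))) * ∏ l ∈ x, (A * xx (2 * s) l) :=
        sum_le_sum_of_subset_of_nonneg (filter_subset _ _) fun x _ _ => mul_nonneg hR' (hnn _ x)
    _ = R ^ (-(1 / (2 * s))) * ∏ l ∈ P, (1 + A * xx (2 * s) l) := by
        rw [← mul_sum, prod_one_add]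
    _ ≤ _ := mul_le_mul_of_nonneg_left (prod_one_add_le hP (by positivity) A) hR'

theorem xBZeta_tau (hP : ∀ l ∈ P, l.Prime) : (∏ l ∈ P, l).divisors.card = 2 ^ P.card := by
  induction P using Finset.induction_on with
  | empty => simp
  | insert a S ha ih =>
    have h1 : a.Prime := hP a (mem_insert_self _ _)
    have h2 : ∀ l ∈ S, l.Prime := fun l hl => hP l (mem_insert_of_mem hl)
    have h3 : a.Coprime (∏ l ∈ S, l) := Nat.Coprime.prod_right fun l hl =>
      (Nat.coprime_primes h1 (h2 l hl)).2 fun h => ha (h ▸ hl)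
    rw [prod_insert ha, card_insert_of_notMem ha, h3.card_divisors_mul, ih h2, h1.divisors,
      card_pair h1.one_lt.ne, pow_succ']

theorem xBZeta_inj (hP : ∀ l ∈ P, l.Prime) (T : ℕ) (h : ℕ → ℝ) (h0 : ∀ n, 0 ≤ h n) :
    ∑ x ∈ P.powerset.filter fun x => ∏ l ∈ x, l ≤ T, h (∏ l ∈ x, l) ≤ ∑ n ∈ Icc 1 T, h n := by
  have hp : ∀ x ∈ P.powerset.filter fun x => ∏ l ∈ x, l ≤ T, ∀ l ∈ x, l.Prime := fun x hx l hl =>
    hP l (mem_powerset.1 (mem_filter.1 hx).1 hl)
  rw [← sum_image (g := fun x : Finset ℕ => ∏ l ∈ x, l) (f := h) (fun x hx y hy hxy => by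
    have e : ∏ l ∈ x, l = ∏ l ∈ y, l := hxy
    rw [← Nat.primeFactors_prod (hp x hx), e, Nat.primeFactors_prod (hp y hy)])]
  refine sum_le_sum_of_subset_of_nonneg (fun n hn => ?_) fun n _ _ => h0 n
  obtain ⟨x, hx, rfl⟩ := mem_image.1 hn
  exact mem_Icc.2 ⟨prod_pos fun l hl => (hp x hx l hl).pos, (mem_filter.1 hx).2⟩

theorem xBZeta_small (hP : ∀ l ∈ P, l.Prime) (hs : 0 < s) (T c : ℕ) :
    ∑ x ∈ P.powerset.filter fun x => ∏ l ∈ x, l ≤ T, ∏ l ∈ x, (2 ^ c * xx s l) ≤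
      (1 + Real.log T) ^ 2 ^ c := by
  refine le_trans (sum_le_sum fun x hx => ?_) ((xBZeta_inj hP T (fun n => tau n ^ c / n)
    fun n => div_nonneg (pow_nonneg (tau_nonneg _) _) (Nat.cast_nonneg n)).trans
      (sum_tau_pow_div c T))
  have hp : ∀ l ∈ x, l.Prime := fun l hl => hP l (mem_powerset.1 (mem_filter.1 hx).1 hl)
  rw [prod_mul_distrib, prod_xx, prod_const, tau, Int.natAbs_natCast, xBZeta_tau hp,
    div_eq_mul_one_div, ← pow_mul, mul_comm c, pow_mul]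
  push_cast
  refine mul_le_mul_of_nonneg_left ?_ (by positivity)
  have := xx_le hs (prod_pos fun l hl => (hp l hl).pos)
  push_cast at this
  exact this

theorem small_one (hP : ∀ l ∈ P, l.Prime) (hs : 0 < s) (T : ℕ) :
    ∑ x ∈ P.powerset.filter fun x => ∏ l ∈ x, l ≤ T, ∏ l ∈ x, xx s l ≤ 1 + Real.log T := by
  simpa using xBZeta_small hP hs T 0

/-- On squarefree numbers the divisor function is a power of two. -/
theorem tau_prod (hP : ∀ l ∈ P, l.Prime) : tau ((∏ l ∈ P, l : ℕ) : ℤ) = 2 ^ P.card := by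
  rw [tau, Int.natAbs_natCast, xBZeta_tau hP]
  push_cast
  rfl

theorem prod_inj {x y : Finset ℕ} (hx : ∀ l ∈ x, l.Prime) (hy : ∀ l ∈ y, l.Prime)
    (h : ∏ l ∈ x, l = ∏ l ∈ y, l) : x = y := by
  rw [← Nat.primeFactors_prod hx, h, Nat.primeFactors_prod hy]

theorem mem_PP {C0 : ℝ} {n Q l : ℕ} (h : Mod C0 s n Q) (hl : l ∈ PP n Q) :
    l.Prime ∧ 5 ≤ l ∧ ¬ l ∣ n := by
  obtain ⟨h1, h2⟩ := (mem_filter.1 hl).2
  refine ⟨h1, h1.five_le_of_ne_two_of_ne_three ?_ ?_, h2⟩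
  · rintro rfl
    exact h2 (dvd_trans (by norm_num) h.six)
  · rintro rfl
    exact h2 (dvd_trans (by norm_num) h.six)

theorem xBZeta_all (hs : 1 ≤ s) {Q : ℕ} (hQ : Real.exp (s ^ 2) ≤ Q) :
    s / 2 ≤ ∏ p ∈ range (Q + 1) with p.Prime, (1 - xx s p)⁻¹ := by
  have hs0 : 0 < s := by linarith
  have hm : ∀ n : range Q, (n : ℕ) + 1 ∈ Nat.factoredNumbers (range (Q + 1)) := fun n => by
    refine Nat.mem_factoredNumbers.2 ⟨Nat.succ_ne_zero _, fun p hp => mem_range.2 ?_⟩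
    have h1 := Nat.le_of_mem_primeFactorsList hp
    have h2 := mem_range.1 n.2
    omega
  have h1 := sum_le_hasSum (univ.map ⟨fun n : range Q =>
    (⟨(n : ℕ) + 1, hm n⟩ : Nat.factoredNumbers (range (Q + 1))), fun a b hab =>
      Subtype.ext (Nat.succ_injective (congrArg Subtype.val hab))⟩)
    (fun m _ => xBZeta_nn s m) (xBZeta_hs hs0 (range (Q + 1)))
  rw [sum_map] at h1
  refine le_trans ?_ h1
  have h2 := xBZeta_low hs0 Q
  rw [← sum_coe_sort] at h2
  refine le_trans ?_ h2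
  have h3 : ((Q + 1 : ℕ) : ℝ) ^ (-(1 / s)) ≤ 1 / 2 := by
    have h4 : 0 < 1 / s := by positivity
    refine (Real.rpow_le_rpow_of_nonpos (Real.exp_pos (s ^ 2)) (y := ((Q + 1 : ℕ) : ℝ))
      (by push_cast; linarith) (by linarith)).trans ?_
    rw [← Real.exp_mul]
    have h5 : s ^ 2 * -(1 / s) = -s := by field_simp
    rw [h5, Real.exp_neg, ← one_div]
    exact one_div_le_one_div_of_le (by norm_num) (by linarith [Real.add_one_le_exp s])
  nlinarith

theorem xBZeta_pt {x y : ℝ} (h0 : 0 ≤ x) (h1 : x ≤ 1 / 5) (h2 : x ^ 2 ≤ y) :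
    ((1 - x)⁻¹) ^ 4 * Real.exp (-20 * y) ≤ 1 + 4 * x := by
  have h3 : 0 < 1 - x := by linarith
  have h4 : Real.exp (-20 * y) ≤ 1 - 10 * x ^ 2 := by
    have h5 : 0 ≤ x ^ 2 := sq_nonneg x
    have h6 : x ^ 2 ≤ 1 / 25 := by nlinarith
    refine (Real.exp_le_exp.2 (show -20 * y ≤ -(20 * x ^ 2) by linarith)).trans ?_
    rw [Real.exp_neg, ← one_div, div_le_iff₀ (Real.exp_pos _)]
    have h7 := Real.add_one_le_exp (20 * x ^ 2)
    nlinarith
  rw [inv_pow, inv_mul_le_iff₀ (by positivity)]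
  refine h4.trans ?_
  have h8 : (1 - x) ^ 4 * (1 + 4 * x) = 1 - 10 * x ^ 2 + x ^ 3 * (20 - 15 * x + 4 * x ^ 2) := by
    ring
  have h9 : 0 ≤ x ^ 3 * (20 - 15 * x + 4 * x ^ 2) :=
    mul_nonneg (pow_nonneg h0 3) (by nlinarith)
  linarith

theorem tot_low (C0 : ℝ) : ∃ c : ℝ, 0 < c ∧ ∀ s : ℝ, 1 ≤ s → ∀ n Q : ℕ, Mod C0 s n Q →
    c * s ^ 4 ≤ ∏ l ∈ PP n Q, (1 + 4 * xx s l) := by
  refine ⟨(1 / (2 * Real.exp (2 * C0))) ^ 4 * Real.exp (-40), by positivity,
    fun s hs n Q h => ?_⟩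
  have hs0 : 0 < s := by linarith
  have hpos : ∀ l : ℕ, l.Prime → 0 < 1 - xx s l := fun l hl => by
    linarith [xBZeta_half hs0 hl]
  have h1 := xBZeta_all hs h.big
  rw [← prod_filter_mul_prod_filter_not _ (fun l => l ∣ n), filter_filter, filter_filter] at h1
  have h2 : ∏ l ∈ (range (Q + 1)).filter fun l => l.Prime ∧ l ∣ n, (1 - xx s l)⁻¹ ≤
      Real.exp (2 * C0) := by
    calc _ ≤ ∏ l ∈ (range (Q + 1)).filter fun l => l.Prime ∧ l ∣ n,
            Real.exp (2 * (1 / (l : ℝ))) := by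
          refine prod_le_prod (fun l hl => (inv_pos.2 (hpos l (mem_filter.1 hl).2.1)).le)
            fun l hl => ?_
          have hl' := (mem_filter.1 hl).2.1
          have a1 := xBZeta_half hs0 hl'
          have a2 := xx_le hs0 hl'.pos
          have a3 := xBZeta_nn s l
          have a4 := Real.add_one_le_exp (2 * (1 / (l : ℝ)))
          refine le_trans ?_ a4
          rw [← one_div, div_le_iff₀ (hpos l hl')]
          nlinarith
      _ ≤ _ := by
          rw [← Real.exp_sum, ← mul_sum]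
          refine Real.exp_le_exp.2 (mul_le_mul_of_nonneg_left (le_trans ?_ h.sum) (by norm_num))
          refine sum_le_sum_of_subset_of_nonneg (fun l hl => ?_) fun l _ _ => by positivity
          exact Nat.mem_primeFactors.2 ⟨(mem_filter.1 hl).2.1, (mem_filter.1 hl).2.2, h.ne⟩
  have h3 : 0 ≤ ∏ l ∈ PP n Q, (1 - xx s l)⁻¹ :=
    prod_nonneg fun l hl => (inv_pos.2 (hpos l (mem_PP h hl).1)).le
  have h4 : 1 / (2 * Real.exp (2 * C0)) * s ≤ ∏ l ∈ PP n Q, (1 - xx s l)⁻¹ := by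
    have a1 : s / 2 ≤ Real.exp (2 * C0) * ∏ l ∈ PP n Q, (1 - xx s l)⁻¹ :=
      h1.trans (mul_le_mul_of_nonneg_right h2 h3)
    rw [div_mul_eq_mul_div, one_mul, div_le_iff₀ (by positivity)]
    linarith
  calc _ = (1 / (2 * Real.exp (2 * C0)) * s) ^ 4 * Real.exp (-40) := by ring
    _ ≤ (∏ l ∈ PP n Q, (1 - xx s l)⁻¹) ^ 4 * Real.exp (∑ l ∈ PP n Q, -20 * xx 1 l) := by
        refine mul_le_mul (pow_le_pow_left₀ (by positivity) h4 4) (Real.exp_le_exp.2 ?_)
          (Real.exp_pos _).le (pow_nonneg h3 4)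
        rw [← mul_sum]
        linarith [xBZeta_sum one_pos (PP n Q)]
    _ = ∏ l ∈ PP n Q, ((1 - xx s l)⁻¹) ^ 4 * Real.exp (-20 * xx 1 l) := by
        rw [prod_mul_distrib, prod_pow, Real.exp_sum]
    _ ≤ _ := by
        refine prod_le_prod (fun l _ => by positivity) fun l hl => ?_
        obtain ⟨a1, a2, -⟩ := mem_PP h hl
        have a3 := xx_le hs0 a1.pos
        have a4 : (5 : ℝ) ≤ l := by exact_mod_cast a2
        refine xBZeta_pt (xBZeta_nn s l)
          (a3.trans (one_div_le_one_div_of_le (by norm_num) a4)) ?_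
        refine (pow_le_pow_left₀ (xBZeta_nn s l) a3 2).trans (le_of_eq ?_)
        rw [xBZeta_eq 1 a1.pos, div_one, Real.rpow_neg_one]
        field_simp

end Pool.Agent.MP_e23604_nt.P

end
end

section

/-!
The bilinear sum when both variables are large.
-/

open Finset
open scoped Classical

noncomputable section

namespace Pool.Agent.MP_e23604_nt.P

/-- The coefficient attached to a product of primes. -/
def xBBig_a (P : Finset ℕ) (α : ℕ → ℝ) (d : ℕ) : ℝ :=
  ∑ x ∈ P.powerset.erase ∅, if ∏ l ∈ x, l = d then ∏ l ∈ x, α l else 0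

variable {P : Finset ℕ} {α β : ℕ → ℝ} {s : ℝ}

theorem xBBig_fib (U : Finset ℕ) (g : ℕ → ℝ) : ∑ d ∈ U, xBBig_a P α d * g d =
    ∑ x ∈ P.powerset.erase ∅,
      if ∏ l ∈ x, l ∈ U then (∏ l ∈ x, α l) * g (∏ l ∈ x, l) else 0 := by
  simp only [xBBig_a, sum_mul]
  rw [sum_comm]
  refine sum_congr rfl fun x _ => ?_
  simp only [ite_mul, zero_mul, sum_ite_eq]

theorem xBBig_box (U V : Finset ℕ) : (FFp P α β fun d e => d ∈ U ∧ e ∈ V) =
    ∑ d ∈ U, ∑ e ∈ V, xBBig_a P α d * xBBig_a P β e * (jacobiSym (d : ℤ) e : ℝ) := by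
  simp only [mul_assoc, ← mul_sum]
  rw [xBBig_fib, FFp]
  refine sum_congr rfl fun x _ => ?_
  rw [xBBig_fib]
  by_cases hx : ∏ l ∈ x, l ∈ U
  · rw [if_pos hx, mul_sum]
    refine sum_congr rfl fun e _ => ?_
    by_cases he : ∏ l ∈ e, l ∈ V
    · rw [if_pos he, if_pos ⟨hx, he⟩, mul_assoc]
    · rw [if_neg he, if_neg fun h => he h.2, mul_zero]
  · rw [if_neg hx]
    exact sum_eq_zero fun e _ => if_neg fun h => hx h.1

theorem xBBig_split (p q : ℕ → ℕ → Prop) (h : ∀ d e, q d e → p d e) :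
    FFp P α β p = FFp P α β q + FFp P α β fun d e => p d e ∧ ¬ q d e := by
  simp only [FFp, ← sum_add_distrib]
  refine sum_congr rfl fun x _ => sum_congr rfl fun e _ => ?_
  by_cases hq : q (∏ l ∈ x, l) (∏ l ∈ e, l)
  · rw [if_pos hq, if_pos (h _ _ hq), if_neg fun h => h.2 hq, add_zero]
  · rw [if_neg hq, zero_add]
    by_cases hp : p (∏ l ∈ x, l) (∏ l ∈ e, l)
    · rw [if_pos hp, if_pos ⟨hp, hq⟩]
    · rw [if_neg hp, if_neg fun h => hp h.1]

theorem xBBig_abs (hα : ∀ l ∈ P, |α l| ≤ 2 * xx s l) {x : Finset ℕ}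
    (hx : x ∈ P.powerset.erase ∅) : |∏ l ∈ x, α l| ≤ ∏ l ∈ x, (2 * xx s l) := by
  rw [abs_prod]
  exact prod_le_prod (fun l _ => abs_nonneg _) fun l hl =>
    hα l (mem_powerset.1 (mem_of_mem_erase hx) hl)

theorem xBBig_tail (hP : ∀ l ∈ P, l.Prime) (hs : 0 < s) (hα : ∀ l ∈ P, |α l| ≤ 2 * xx s l)
    (hβ : ∀ l ∈ P, |β l| ≤ 2 * xx s l) {R : ℝ} (hR : 0 < R) (p : ℕ → ℕ → Prop)
    (hp : ∀ d e, p d e → R < d ∨ R < e) :
    |FFp P α β p| ≤ 2 * (R ^ (-(1 / (2 * s))) * (1 + 2 * s) ^ 2 * (1 + s) ^ 2) := by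
  obtain ⟨w, hw⟩ : ∃ w : Finset ℕ → ℝ, ∀ x, w x = ∏ l ∈ x, (2 * xx s l) := ⟨_, fun _ => rfl⟩
  obtain ⟨u, hu⟩ : ∃ u : Finset ℕ → ℝ, ∀ x,
    u x = if R < ((∏ l ∈ x, l : ℕ) : ℝ) then w x else 0 := ⟨_, fun _ => rfl⟩
  have hw0 : ∀ x, 0 ≤ w x := fun x => by
    rw [hw]
    exact prod_nonneg fun l _ => mul_nonneg zero_le_two (Real.rpow_nonneg (Nat.cast_nonneg _) _)
  have hu0 : ∀ x, 0 ≤ u x := fun x => by
    rw [hu]
    split_ifs
    · exact hw0 x
    · exact le_rfl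
  have h1 : ∑ x ∈ P.powerset.erase ∅, w x ≤ (1 + s) ^ 2 := by
    refine (sum_le_sum_of_subset_of_nonneg (erase_subset _ _) fun x _ _ => hw0 x).trans ?_
    have h := prod_one_add_le hP hs 2
    rw [prod_one_add] at h
    simpa only [hw, Nat.cast_ofNat] using h
  have h2 : ∑ x ∈ P.powerset.erase ∅, u x ≤ R ^ (-(1 / (2 * s))) * (1 + 2 * s) ^ 2 := by
    refine (sum_le_sum_of_subset_of_nonneg (erase_subset _ _) fun x _ _ => hu0 x).trans ?_
    have h := rankin hP hs 2 hR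
    rw [sum_filter] at h
    simpa only [hu, hw, Nat.cast_ofNat] using h
  have h3 : |FFp P α β p| ≤ ∑ x ∈ P.powerset.erase ∅, ∑ e ∈ P.powerset.erase ∅,
      (u x * w e + w x * u e) := by
    refine (abs_sum_le_sum_abs _ _).trans (sum_le_sum fun x hx =>
      (abs_sum_le_sum_abs _ _).trans (sum_le_sum fun e he => ?_))
    have h4 := mul_nonneg (hu0 x) (hw0 e)
    have h5 := mul_nonneg (hw0 x) (hu0 e)
    split_ifs with h
    · have h6 : |(∏ l ∈ x, α l) * (∏ l ∈ e, β l) *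
          (jacobiSym ((∏ l ∈ x, l : ℕ) : ℤ) (∏ l ∈ e, l) : ℝ)| ≤ w x * w e := by
        rw [abs_mul, abs_mul, hw, hw]
        refine (mul_le_of_le_one_right (mul_nonneg (abs_nonneg _) (abs_nonneg _)) ?_).trans
          (mul_le_mul (xBBig_abs hα hx) (xBBig_abs hβ he) (abs_nonneg _)
            ((abs_nonneg _).trans (xBBig_abs hα hx)))
        rcases jacobiSym.trichotomy ((∏ l ∈ x, l : ℕ) : ℤ) (∏ l ∈ e, l) with h | h | h <;>
          rw [h] <;> norm_num
      refine h6.trans ?_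
      rcases hp _ _ h with h7 | h7
      · rw [hu x, if_pos h7]
        linarith
      · rw [hu e, if_pos h7]
        linarith
    · rw [abs_zero]
      linarith
  simp only [sum_add_distrib, ← sum_mul_sum] at h3
  have h4 := mul_le_mul h2 h1 (sum_nonneg fun x _ => hw0 x)
    ((sum_nonneg fun x _ => hu0 x).trans h2)
  linarith

theorem xBBig_coef (hP : ∀ l ∈ P, l.Prime ∧ l ≠ 2) (hs : 0 < s)
    (hα : ∀ l ∈ P, |α l| ≤ 2 * xx s l) (D d : ℕ) :
    |if D < d then D * xBBig_a P α d else 0| ≤ tau d ∧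
      ((if D < d then D * xBBig_a P α d else 0) ≠ 0 → Squarefree d ∧ d % 2 = 1) := by
  have ht : 0 ≤ tau d := Nat.cast_nonneg _
  split_ifs with hD
  swap
  · simpa using ht
  by_cases h : ∃ x ∈ P.powerset.erase ∅, ∏ l ∈ x, l = d
  swap
  · rw [xBBig_a, sum_eq_zero fun x hx => if_neg fun h1 => h ⟨x, hx, h1⟩]
    simpa using ht
  obtain ⟨x, hx, rfl⟩ := h
  have hsub : ∀ y ∈ P.powerset.erase ∅, ∀ l ∈ y, l.Prime ∧ l ≠ 2 := fun y hy l hl =>
    hP l (mem_powerset.1 (mem_of_mem_erase hy) hl)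
  refine ⟨?_, fun _ => ⟨?_, ?_⟩⟩
  · rw [xBBig_a, sum_eq_single_of_mem x hx fun y hy hne => if_neg fun h1 =>
      hne (prod_inj (fun l hl => (hsub y hy l hl).1) (fun l hl => (hsub x hx l hl).1) h1),
      if_pos rfl, abs_mul, Nat.abs_cast, tau_prod fun l hl => (hsub x hx l hl).1]
    have h1 := xBBig_abs hα hx
    rw [prod_mul_distrib, prod_const, prod_xx] at h1
    have h0 : 0 < ∏ l ∈ x, l := by omega
    have h2 := xx_le hs h0
    have h3 : (D : ℝ) * (1 / ((∏ l ∈ x, l : ℕ) : ℝ)) ≤ 1 := by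
      rw [mul_one_div, div_le_one (by exact_mod_cast h0)]
      exact_mod_cast hD.le
    have h4 : (0 : ℝ) ≤ 2 ^ x.card := by positivity
    calc (D : ℝ) * |∏ l ∈ x, α l| ≤ D * (2 ^ x.card * (1 / ((∏ l ∈ x, l : ℕ) : ℝ))) := by
          gcongr
          exact h1.trans (mul_le_mul_of_nonneg_left h2 h4)
      _ = 2 ^ x.card * ((D : ℝ) * (1 / ((∏ l ∈ x, l : ℕ) : ℝ))) := by ring
      _ ≤ 2 ^ x.card := mul_le_of_le_one_right h4 h3
  · refine squarefree_prod_of_pairwise_isCoprime (fun l hl l' hl' hne => ?_)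
      fun l hl => (hsub x hx l hl).1.squarefree
    exact Nat.coprime_iff_isRelPrime.1
      ((Nat.coprime_primes (hsub x hx l hl).1 (hsub x hx l' hl').1).2 hne)
  · exact Nat.odd_iff.1 (prod_induction _ Odd (fun _ _ => Odd.mul) odd_one fun l hl =>
      (hsub x hx l hl).1.odd_of_ne_two (hsub x hx l hl).2)

theorem xBBig_dy (T I : ℕ) (f : ℕ → ℝ) : ∑ d ∈ Ioc T (T * 2 ^ I), f d =
    ∑ i ∈ range I, ∑ d ∈ Ioc (T * 2 ^ i) (2 * (T * 2 ^ i)), f d := by
  induction I with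
  | zero => simp
  | succ I ih =>
    rw [sum_range_succ, ← ih, sum_Ioc_consecutive _ (Nat.le_mul_of_pos_right _ (by positivity))
      (by omega), pow_succ, ← mul_assoc, mul_comm _ 2]

theorem xBBig_main : ∃ C : ℕ, ∀ (s : ℝ) (P : Finset ℕ) (α β : ℕ → ℝ) (T I : ℕ) (L : ℝ), 0 < s →
    (∀ l ∈ P, l.Prime ∧ l ≠ 2) → (∀ l ∈ P, |α l| ≤ 2 * xx s l) → (∀ l ∈ P, |β l| ≤ 2 * xx s l) →
    1 ≤ T → (∀ i < I, 1 + Real.log (T * 2 ^ i : ℕ) ≤ L) →
    |FFp P α β fun d e => d ∈ Ioc T (T * 2 ^ I) ∧ e ∈ Ioc T (T * 2 ^ I)| ≤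
      (I : ℝ) ^ 2 * ((2 * L) ^ C / (T : ℝ) ^ (1 / 8 : ℝ)) := by
  obtain ⟨C, hC⟩ := bilin
  refine ⟨C, fun s P α β T I L hs hP hα hβ hT hL => ?_⟩
  have hT' : (0 : ℝ) < T := by exact_mod_cast hT
  have key : ∀ D E : ℕ, T ≤ D → T ≤ E → 1 + Real.log D ≤ L → 1 + Real.log E ≤ L →
      |∑ d ∈ Ioc D (2 * D), ∑ e ∈ Ioc E (2 * E),
        xBBig_a P α d * xBBig_a P β e * (jacobiSym (d : ℤ) e : ℝ)| ≤
        (2 * L) ^ C / (T : ℝ) ^ (1 / 8 : ℝ) := by
    intro D E hD hE hD' hE'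
    have hD1 : (1 : ℝ) ≤ D := by exact_mod_cast hT.trans hD
    have hE1 : (1 : ℝ) ≤ E := by exact_mod_cast hT.trans hE
    have h1 := hC D E _ _ (hT.trans hD) (hT.trans hE) (fun n => (xBBig_coef hP hs hα D n).1)
      (fun n => (xBBig_coef hP hs hβ E n).1) (fun n => (xBBig_coef hP hs hα D n).2)
      fun n => (xBBig_coef hP hs hβ E n).2
    have h2 : ∑ d ∈ Ioc D (2 * D), ∑ e ∈ Ioc E (2 * E),
        (if D < d then D * xBBig_a P α d else 0) * (if E < e then E * xBBig_a P β e else 0) *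
          (jacobiSym (d : ℤ) e : ℝ) = D * E * ∑ d ∈ Ioc D (2 * D), ∑ e ∈ Ioc E (2 * E),
        xBBig_a P α d * xBBig_a P β e * (jacobiSym (d : ℤ) e : ℝ) := by
      simp only [mul_sum]
      refine sum_congr rfl fun d hd => sum_congr rfl fun e he => ?_
      rw [if_pos (mem_Ioc.1 hd).1, if_pos (mem_Ioc.1 he).1]
      ring
    have hDE : (0 : ℝ) < D * E := by positivity
    rw [h2, abs_mul, abs_of_pos hDE, mul_div_assoc] at h1
    refine (le_of_mul_le_mul_left h1 hDE).trans ?_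
    have h3 := Real.log_nonneg hD1
    have h4 := Real.log_nonneg hE1
    rw [Real.log_mul (by positivity) (by positivity)]
    refine div_le_div₀ (pow_nonneg (by linarith) _)
      (pow_le_pow_left₀ (by linarith) (by linarith) _) (Real.rpow_pos_of_pos hT' _)
      (Real.rpow_le_rpow hT'.le (le_min (by exact_mod_cast hD) (by exact_mod_cast hE))
        (by norm_num))
  rw [xBBig_box, xBBig_dy]
  refine (abs_sum_le_sum_abs _ _).trans ((sum_le_card_nsmul _ _
    (I * ((2 * L) ^ C / (T : ℝ) ^ (1 / 8 : ℝ))) fun i hi => ?_).trans ?_)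
  · simp only [xBBig_dy T I]
    rw [sum_comm]
    refine (abs_sum_le_sum_abs _ _).trans ((sum_le_card_nsmul _ _ _ fun j hj =>
      key _ _ (Nat.le_mul_of_pos_right _ (by positivity))
        (Nat.le_mul_of_pos_right _ (by positivity)) (hL i (mem_range.1 hi))
        (hL j (mem_range.1 hj))).trans ?_)
    rw [card_range, nsmul_eq_mul]
  · rw [card_range, nsmul_eq_mul, pow_two, mul_assoc]

end Pool.Agent.MP_e23604_nt.P

end
end

section

/-!
Euler products with a non-principal character.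
-/

open Finset
open scoped Classical

noncomputable section

namespace Pool.Agent.MP_e23604_nt.P

theorem xBEul_half {s : ℝ} (hs : 0 < s) {l : ℕ} (hl : l.Prime) : xx s l ≤ 1 / 2 := by
  have h2 : (2 : ℝ) ≤ l := by exact_mod_cast hl.two_le
  exact (xx_le hs hl.pos).trans (one_div_le_one_div_of_le (by norm_num) h2)

theorem xBEul_abs {s : ℝ} (c : ℤ) {l : ℕ} (hl : 0 < l) : |chi c l * xx s l| ≤ xx s l := by
  have h0 := xx_pos s hl
  rw [abs_mul, abs_of_pos h0]
  exact mul_le_of_le_one_left h0.le (abs_chi_le c l)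

theorem xBEul_fac_pos {s : ℝ} (hs : 0 < s) (c : ℤ) {l : ℕ} (hl : l.Prime) :
    0 < 1 - chi c l * xx s l := by
  have h1 := xBEul_half hs hl
  have h2 := (abs_le.mp (xBEul_abs (s := s) c hl.pos)).2
  linarith

theorem EP_pos {s : ℝ} (hs : 0 < s) {P : Finset ℕ} (hP : ∀ l ∈ P, l.Prime) (c : ℤ) :
    0 < EP s P c :=
  prod_pos fun l hl => inv_pos.mpr (xBEul_fac_pos hs c (hP l hl))

/-- Summation by parts, one-sided. -/
theorem xBEul_abel (a w : ℕ → ℝ) (M : ℝ) (K : ℕ) (hw : ∀ n, K ≤ n → w (n + 1) ≤ w n)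
    (hM : ∀ n, K ≤ n → ∑ m ∈ Ioc K n, a m ≤ M) (N : ℕ) (hN : K ≤ N) :
    ∑ m ∈ Ioc K N, a m * w m ≤ M * (w K - w N) + (∑ m ∈ Ioc K N, a m) * w N := by
  induction N, hN using Nat.le_induction with
  | base => simp
  | succ n hn ih =>
    rw [sum_Ioc_succ_top hn, sum_Ioc_succ_top hn]
    nlinarith [mul_nonneg (sub_nonneg.mpr (hM n hn)) (sub_nonneg.mpr (hw n hn))]

theorem xBEul_harm {s : ℝ} (hs : 0 < s) (c : ℤ) {N K : ℕ} (h : N ≤ K) :
    ∑ m ∈ Ioc 0 N, chi c m * xx s m ≤ 1 + Real.log K := by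
  have h1 := harmonic_le_one_add_log K
  simp_rw [harmonic_eq_sum_Icc, Rat.cast_sum, Rat.cast_inv, Rat.cast_natCast] at h1
  refine le_trans ?_ h1
  calc ∑ m ∈ Ioc 0 N, chi c m * xx s m ≤ ∑ m ∈ Ioc 0 N, (m : ℝ)⁻¹ := by
        refine sum_le_sum fun m hm => ?_
        have hm0 := (mem_Ioc.mp hm).1
        rw [← one_div]
        exact (abs_le.mp (xBEul_abs (s := s) c hm0)).2.trans (xx_le hs hm0)
    _ ≤ ∑ m ∈ Icc 1 K, (m : ℝ)⁻¹ := by
        refine sum_le_sum_of_subset_of_nonneg ?_ fun m _ _ => by positivity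
        intro m hm
        rw [mem_Ioc] at hm
        rw [mem_Icc]
        omega

theorem xBEul_head {s : ℝ} (hs : 0 < s) {c : ℤ} (hc : NS c) (N : ℕ) :
    ∑ m ∈ Ioc 0 N, chi c m * xx s m ≤ 9 + Real.log |(c : ℝ)| := by
  have hsum : ∀ n : ℕ, |∑ m ∈ Ioc 0 n, chi c m| ≤ 4 * |(c : ℝ)| := fun n => by
    have := chi_sum hc n
    rwa [show Icc 1 n = Ioc 0 n from by ext m; simp [mem_Icc, mem_Ioc]; omega] at this
  have hc0 : c ≠ 0 := by
    rintro rfl
    have := chi_sum hc 1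
    simp [chi_one_right] at this
    linarith
  obtain ⟨K, hK⟩ : ∃ K : ℕ, K = c.natAbs := ⟨_, rfl⟩
  have hK0 : 0 < K := hK ▸ Int.natAbs_pos.mpr hc0
  have hKc : |(c : ℝ)| = K := by rw [hK, Nat.cast_natAbs, Int.cast_abs]
  rw [hKc] at hsum ⊢
  have hKr : (0 : ℝ) < K := by exact_mod_cast hK0
  rcases le_total N K with h | h
  · linarith [xBEul_harm hs c h]
  · rw [← sum_Ioc_consecutive _ (Nat.zero_le K) h]
    have hM : ∀ n, K ≤ n → ∑ m ∈ Ioc K n, chi c m ≤ 8 * (K : ℝ) := fun n hn => by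
      have e := sum_Ioc_consecutive (chi c) (Nat.zero_le K) hn
      have h1 := (abs_le.mp (hsum n)).2
      have h2 := (abs_le.mp (hsum K)).1
      linarith
    have hw : ∀ n, K ≤ n → xx s (n + 1) ≤ xx s n := fun n hn => by
      unfold xx
      have hn0 : (0 : ℝ) < n := by exact_mod_cast hK0.trans_le hn
      refine Real.rpow_le_rpow_of_nonpos hn0 (by push_cast; linarith) ?_
      have : 0 < 1 / s := by positivity
      linarith
    have h1 := xBEul_abel (chi c) (xx s) (8 * K) K hw hM N h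
    have h2 := xBEul_harm hs c (le_refl K)
    have h3 := xx_pos s (hK0.trans_le h)
    have h4 := hM N h
    have h5 : (K : ℝ) * xx s K ≤ 1 := by
      have := xx_le hs hK0
      rwa [le_div_iff₀ hKr, mul_comm] at this
    nlinarith [mul_le_mul_of_nonneg_right h4 h3.le]

theorem xBEul_tele {s : ℝ} (hs : 0 < s) {n : ℕ} (hn : 0 < n) :
    xx s (n + 1) ≤ s * ((n : ℝ) ^ (-(1 / s)) - ((n + 1 : ℕ) : ℝ) ^ (-(1 / s))) := by
  have hn0 : (0 : ℝ) < n := by exact_mod_cast hn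
  obtain ⟨y, hy⟩ : ∃ y : ℝ, y = ((n + 1 : ℕ) : ℝ) := ⟨_, rfl⟩
  have hy1 : y = n + 1 := by rw [hy]; push_cast; ring
  have hy0 : 0 < y := by linarith
  unfold xx
  rw [← hy]
  have e1 : y ^ (-(1 + 1 / s)) = y ^ (-(1 / s)) / y := by
    rw [show -(1 + 1 / s) = -(1 / s) - 1 by ring, Real.rpow_sub_one hy0.ne']
  have e2 : (n : ℝ) ^ (-(1 / s)) = y ^ (-(1 / s)) * (n / y) ^ (-(1 / s)) := by
    rw [← Real.mul_rpow hy0.le (by positivity)]
    congr 1
    field_simp
  have e3 : 1 + 1 / s * (1 / y) ≤ (n / y) ^ (-(1 / s)) := by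
    rw [Real.rpow_def_of_pos (by positivity)]
    have h1 := Real.log_le_sub_one_of_pos (show 0 < (n : ℝ) / y by positivity)
    have h2 : (n : ℝ) / y - 1 = -(1 / y) := by rw [hy1]; field_simp; ring
    have h3 := Real.add_one_le_exp (Real.log (n / y) * (-(1 / s)))
    have h4 : 0 < 1 / s := by positivity
    nlinarith
  have hp : 0 < y ^ (-(1 / s)) := Real.rpow_pos_of_pos hy0 _
  rw [e1, e2]
  have h5 := mul_le_mul_of_nonneg_left e3 (mul_pos hs hp).le
  have e4 : s * y ^ (-(1 / s)) * (1 + 1 / s * (1 / y)) =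
      s * y ^ (-(1 / s)) + y ^ (-(1 / s)) / y := by field_simp
  nlinarith

theorem xBEul_tail {s : ℝ} (hs : 0 < s) {Q : ℕ} (hQ : 0 < Q) (N : ℕ) (hN : Q ≤ N) :
    ∑ m ∈ Ioc Q N, xx s m ≤ s * ((Q : ℝ) ^ (-(1 / s)) - (N : ℝ) ^ (-(1 / s))) := by
  induction N, hN using Nat.le_induction with
  | base => simp
  | succ n hn ih =>
    rw [sum_Ioc_succ_top hn]
    have := xBEul_tele hs (hQ.trans_le hn)
    linarith

theorem xBEul_tail' {s : ℝ} (hs : 0 < s) {Q : ℕ} (hQ : Real.exp (s ^ 2) ≤ Q) (N : ℕ)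
    (hN : Q ≤ N) : ∑ m ∈ Ioc Q N, xx s m ≤ 1 := by
  have hQr : (0 : ℝ) < Q := (Real.exp_pos _).trans_le hQ
  have hQ0 : 0 < Q := by exact_mod_cast hQr
  have h1 := xBEul_tail hs hQ0 N hN
  have h2 : 0 ≤ (N : ℝ) ^ (-(1 / s)) := Real.rpow_nonneg (Nat.cast_nonneg N) _
  have h3 : (Q : ℝ) ^ (-(1 / s)) ≤ Real.exp (-s) := by
    have h4 : 0 < 1 / s := by positivity
    refine (Real.rpow_le_rpow_of_nonpos (Real.exp_pos _) hQ (by linarith)).trans_eq ?_
    rw [← Real.exp_mul]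
    congr 1
    field_simp
  have h5 : s * Real.exp (-s) ≤ 1 := by
    rw [Real.exp_neg, ← div_eq_mul_inv, div_le_one (Real.exp_pos s)]
    linarith [Real.add_one_le_exp s]
  nlinarith [mul_le_mul_of_nonneg_left h3 hs.le, mul_nonneg hs.le h2]

/-- The completely multiplicative summand. -/
def xBEul_f (s : ℝ) (c : ℤ) : ℕ →* ℝ where
  toFun n := chi c n * xx s n
  map_one' := by simp [chi_one_right, xx]
  map_mul' m n := by
    unfold xx
    rw [chi_mul, Nat.cast_mul, Real.mul_rpow (Nat.cast_nonneg m) (Nat.cast_nonneg n)]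
    ring

theorem xBEul_all {s : ℝ} (hs : 0 < s) {Q : ℕ} (hQ : Real.exp (s ^ 2) ≤ Q) {c : ℤ} (hc : NS c) :
    EP s (Q + 1).primesBelow c ≤ 10 + Real.log |(c : ℝ)| := by
  have hf : ∀ {p : ℕ}, p.Prime → ‖xBEul_f s c p‖ < 1 := fun {p} hp => by
    have h1 := xBEul_abs (s := s) c hp.pos
    have h2 := xBEul_half hs hp
    show |chi c p * xx s p| < 1
    linarith
  have h1 := (EulerProduct.summable_and_hasSum_smoothNumbers_prod_primesBelow_geometric hf
    (Q + 1)).2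
  have h2 : HasSum (Set.indicator (Q + 1).smoothNumbers fun m => chi c m * xx s m)
      (EP s (Q + 1).primesBelow c) := hasSum_subtype_iff_indicator.mp h1
  refine le_of_tendsto h2.tendsto_sum_nat ?_
  filter_upwards [Filter.eventually_ge_atTop (Q + 1)] with N hN
  obtain ⟨M, rfl⟩ : ∃ M, N = M + 1 := ⟨N - 1, by omega⟩
  have hM : Q ≤ M := by omega
  have e0 : range (M + 1) = insert 0 (Ioc 0 M) := by
    ext m
    simp only [mem_range, mem_insert, mem_Ioc]
    omega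
  have hz : 0 ∉ (Q + 1).smoothNumbers := fun h => h.1 rfl
  rw [e0, sum_insert (by simp), Set.indicator_of_notMem hz, zero_add,
    ← sum_Ioc_consecutive _ (Nat.zero_le Q) hM]
  have h3 : ∑ m ∈ Ioc 0 Q, Set.indicator (Q + 1).smoothNumbers (fun m => chi c m * xx s m) m =
      ∑ m ∈ Ioc 0 Q, chi c m * xx s m := by
    refine sum_congr rfl fun m hm => ?_
    rw [mem_Ioc] at hm
    exact Set.indicator_of_mem (Nat.mem_smoothNumbers_of_lt hm.1 (by omega)) _
  have h4 : ∑ m ∈ Ioc Q M, Set.indicator (Q + 1).smoothNumbers (fun m => chi c m * xx s m) m ≤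
      ∑ m ∈ Ioc Q M, xx s m := by
    refine sum_le_sum fun m hm => ?_
    have hm0 : 0 < m := by have := (mem_Ioc.mp hm).1; omega
    by_cases h : m ∈ (Q + 1).smoothNumbers
    · rw [Set.indicator_of_mem h]
      exact (abs_le.mp (xBEul_abs (s := s) c hm0)).2
    · rw [Set.indicator_of_notMem h]
      exact (xx_pos s hm0).le
  have h5 := xBEul_head hs hc Q
  have h6 := xBEul_tail' hs hQ M hM
  linarith

theorem EP_le (C0 : ℝ) : ∃ C : ℝ, 0 < C ∧ ∀ s : ℝ, 1 ≤ s → ∀ n Q : ℕ, Mod C0 s n Q →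
    ∀ c : ℤ, NS c → EP s (PP n Q) c ≤ C * (1 + Real.log |(c : ℝ)|) := by
  refine ⟨10 * Real.exp C0, by positivity, fun s hs1 n Q hM c hc => ?_⟩
  have hs : 0 < s := by linarith
  obtain ⟨R, hR⟩ : ∃ R, R = (Q + 1).primesBelow.filter fun l => l ∣ n := ⟨_, rfl⟩
  have hRp : ∀ l ∈ R, l.Prime := fun l hl =>
    Nat.prime_of_mem_primesBelow (mem_filter.mp (hR ▸ hl)).1
  have e1 : PP n Q = (Q + 1).primesBelow.filter fun l => ¬ l ∣ n := by
    unfold PP Nat.primesBelow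
    rw [filter_filter]
  have e2 : EP s R c * EP s (PP n Q) c = EP s (Q + 1).primesBelow c := by
    unfold EP
    rw [e1, hR, prod_filter_mul_prod_filter_not]
  have h1 := xBEul_all hs hM.big hc
  have hpos := EP_pos hs hRp c
  have h2 : (EP s R c)⁻¹ ≤ Real.exp C0 := by
    unfold EP
    rw [prod_inv_distrib, inv_inv]
    calc ∏ l ∈ R, (1 - chi c l * xx s l) ≤ ∏ l ∈ R, (1 + 1 / (l : ℝ)) := by
          refine prod_le_prod (fun l hl => (xBEul_fac_pos hs c (hRp l hl)).le) fun l hl => ?_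
          have h3 := (abs_le.mp (xBEul_abs (s := s) c (hRp l hl).pos)).1
          have h4 := xx_le hs (hRp l hl).pos
          linarith
      _ ≤ Real.exp (∑ l ∈ R, 1 / (l : ℝ)) :=
          Real.prod_one_add_le_exp_sum _ fun l => by positivity
      _ ≤ Real.exp C0 := by
          refine Real.exp_le_exp.mpr (le_trans ?_ hM.sum)
          refine sum_le_sum_of_subset_of_nonneg ?_ fun l _ _ => by positivity
          intro l hl
          have hp := hRp l hl
          rw [hR] at hl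
          exact Nat.mem_primeFactors.mpr ⟨hp, (mem_filter.mp hl).2, hM.ne⟩
  have hlog : 0 ≤ Real.log |(c : ℝ)| := by
    rw [← Int.cast_abs]
    exact Real.log_intCast_nonneg _
  have e3 : EP s (PP n Q) c = (EP s R c)⁻¹ * EP s (Q + 1).primesBelow c := by
    rw [← e2]
    field_simp
  have hall := EP_pos hs (P := (Q + 1).primesBelow)
    (fun l hl => Nat.prime_of_mem_primesBelow hl) c
  rw [e3]
  calc (EP s R c)⁻¹ * EP s (Q + 1).primesBelow c ≤ Real.exp C0 * (10 + Real.log |(c : ℝ)|) :=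
        mul_le_mul h2 h1 hall.le (Real.exp_pos _).le
    _ ≤ 10 * Real.exp C0 * (1 + Real.log |(c : ℝ)|) := by
        nlinarith [mul_nonneg (Real.exp_pos C0).le hlog]

end Pool.Agent.MP_e23604_nt.P

end
end

section

/-!
The bilinear sum when one variable is small.
-/

open Finset
open scoped Classical

noncomputable section

namespace Pool.Agent.MP_e23604_nt.P

end Pool.Agent.MP_e23604_nt.P

end
end

section

/-!
The full bilinear sum.
-/

open Finset
open scoped Classical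

noncomputable section

namespace Pool.Agent.MP_e23604_nt.P

end Pool.Agent.MP_e23604_nt.P

end
end

section

/-!
Linear algebra over the field with two elements.
-/

open Finset
open scoped Classical

noncomputable section

namespace Pool.Agent.MP_e23604_nt.P

variable {ι : Type} [Fintype ι]

open Matrix

end Pool.Agent.MP_e23604_nt.P

end
end

section

/-!
The probability of the good event in terms of a first moment.
-/

open Finset
open scoped Classical

noncomputable section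

namespace Pool.Agent.MP_e23604_nt.P

end Pool.Agent.MP_e23604_nt.P

end
end

section

/-!
The first moment in terms of Jacobi symbols.
-/

open Finset
open scoped Classical

noncomputable section

namespace Pool.Agent.MP_e23604_nt.P

/-- The sign of a bit. -/
def xBTr_sg (z : ZMod 2) : ℝ := if z = 0 then 1 else -1

theorem xBTr_two (z : ZMod 2) : z = 0 ∨ z = 1 := by
  revert z
  decide

theorem xBTr_add (u v : ZMod 2) : xBTr_sg (u + v) = xBTr_sg u * xBTr_sg v := by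
  have h : (1 + 1 : ZMod 2) = 0 := rfl
  rcases xBTr_two u with rfl | rfl <;> rcases xBTr_two v with rfl | rfl <;> simp [xBTr_sg, h]

theorem xBTr_sum {α : Type} (s : Finset α) (f : α → ZMod 2) :
    xBTr_sg (∑ i ∈ s, f i) = ∏ i ∈ s, xBTr_sg (f i) := by
  induction s using Finset.cons_induction with
  | empty => simp [xBTr_sg]
  | cons a s h ih => rw [sum_cons, prod_cons, xBTr_add, ih]

theorem xBTr_sy {u l : ℕ} (h : Nat.Coprime u l) : xBTr_sg (sy u l) = (jacobiSym u l : ℝ) := by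
  rcases jacobiSym.eq_one_or_neg_one (a := u) (b := l) (by simpa using h) with h | h <;>
    simp [xBTr_sg, sy, h]

theorem xBTr_jac {α : Type} (n : α → ℕ) (hn : ∀ i, n i ≠ 0) (x e : Finset α) :
    (jacobiSym ((∏ l ∈ x, n l : ℕ) : ℤ) (∏ l ∈ e, n l) : ℝ) =
      ∏ i ∈ e, ∏ j ∈ x, (jacobiSym (n j) (n i) : ℝ) := by
  induction e using Finset.cons_induction with
  | empty => simp
  | cons a e h ih =>
    rw [prod_cons, prod_cons, jacobiSym.mul_right' _ (hn a) (prod_ne_zero_iff.2 fun i _ => hn i),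
      Int.cast_mul, ih]
    congr 1
    clear ih
    induction x using Finset.cons_induction with
    | empty => simp
    | cons b x h ih => rw [prod_cons, prod_cons, Nat.cast_mul, jacobiSym.mul_left, Int.cast_mul, ih]

end Pool.Agent.MP_e23604_nt.P

end
end

section

/-!
A positive proportion of the tuples of small primes is good.
-/

open Finset
open scoped Classical

noncomputable section

namespace Pool.Agent.MP_e23604_nt.P

theorem xBMain_rk {s y Z : ℝ} (hs : 1 ≤ s) (hy : 0 < y) (hZ : Real.exp ((2 + 2 * y) * s) ≤ Z) :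
    (Z / 3) ^ (-(1 / (2 * s))) ≤ 1 / y := by
  have hs0 : 0 < s := by linarith
  have h1 : Real.exp (2 * y * s) ≤ Z / 3 := by
    have h2 : 3 ≤ Real.exp (2 * s) := by linarith [Real.add_one_le_exp (2 * s)]
    rw [le_div_iff₀ (by norm_num)]
    refine le_trans ?_ hZ
    rw [show (2 + 2 * y) * s = 2 * y * s + 2 * s by ring, Real.exp_add]
    exact mul_le_mul_of_nonneg_left h2 (Real.exp_pos _).le
  refine (Real.rpow_le_rpow_of_nonpos (Real.exp_pos _) h1
    (neg_nonpos.2 (by positivity))).trans ?_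
  rw [← Real.exp_mul, show 2 * y * s * -(1 / (2 * s)) = -y by field_simp, Real.exp_neg,
    ← one_div]
  exact one_div_le_one_div_of_le hy (by linarith [Real.add_one_le_exp y])

end Pool.Agent.MP_e23604_nt.P

end
end
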