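import Pool.Agent.Mg.Fe23604m.Ge4cc4e
import Pool.Agent.Mg.Fe23604m.G180f29
import Pool.Agent.Mg.Fe23604m.G0311cb
import Pool.Agent.Mg.Fe23604m.Gd29cd8
import Pool.Agent.MP_e23604_nt.P.Bonf
import Pool.Agent.Mg.Fe23604m.G651d65
import Pool.Agent.Mg.Fe23604m.G8e75a9

set_option linter.all false

section

/-!
Averages over residue classes: passage to `ZMod` and the Chinese remainder theorem.
-/

open Finset
open scoped Classical

noncomputable section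

namespace Pool.Agent.MP_e23604_nt.U

open P (sy ep lam)

namespace DAvgJ

theorem one (l : ℕ) [NeZero l] (f : (Fin 10 → ZMod l) → ℝ) :
    avg10 l (fun v => f fun i => (v i : ZMod l)) = (∑ w, f w) / (l : ℝ) ^ 10 := by
  unfold avg10
  refine congrArg (fun t => t / (l : ℝ) ^ 10) ?_
  refine sum_nbij' (fun v i => (v i : ZMod l)) (fun w i => ((w i).val : ℤ)) ?_ ?_ ?_ ?_ ?_
  · intro v _
    exact mem_univ _
  · intro w _
    rw [Fintype.mem_piFinset]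
    intro i
    rw [mem_Ico]
    exact ⟨Int.natCast_nonneg _, by exact_mod_cast ZMod.val_lt (w i)⟩
  · intro v hv
    funext i
    have h := mem_Ico.1 (Fintype.mem_piFinset.1 hv i)
    show (((v i : ZMod l)).val : ℤ) = v i
    rw [ZMod.val_intCast]
    exact Int.emod_eq_of_lt h.1 h.2
  · intro w _
    funext i
    show ((((w i).val : ℕ) : ℤ) : ZMod l) = w i
    rw [Int.cast_natCast, ZMod.natCast_zmod_val]
  · intro v _
    rfl

/-- A periodic function factors through the residue classes. -/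
theorem fac {K : ℕ} [NeZero K] {f : V10 → ℝ} (h : Per10 K f) :
    ∃ F : (Fin 10 → ZMod K) → ℝ, f = fun v => F fun i => (v i : ZMod K) := by
  refine ⟨fun w => f fun i => ((w i).val : ℤ), funext fun v => h _ _ fun i => ?_⟩
  rw [← ZMod.intCast_eq_intCast_iff_dvd_sub, Int.cast_natCast, ZMod.natCast_zmod_val]

theorem two {K L : ℕ} (hK : 1 ≤ K) (hL : 1 ≤ L) (hc : Nat.Coprime K L) {f g : V10 → ℝ}
    (hf : Per10 K f) (hg : Per10 L g) :
    avg10 (K * L) (fun v => f v * g v) = avg10 K f * avg10 L g := by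
  have : NeZero K := ⟨by omega⟩
  have : NeZero L := ⟨by omega⟩
  obtain ⟨F, rfl⟩ := fac hf
  obtain ⟨G, rfl⟩ := fac hg
  let c := ZMod.chineseRemainder hc
  let e : (Fin 10 → ZMod (K * L)) ≃ (Fin 10 → ZMod K) × (Fin 10 → ZMod L) :=
    (Equiv.piCongrRight fun _ => c.toEquiv).trans (Equiv.arrowProdEquivProdArrow _ _ _)
  have h1 : ∀ v : V10, (e fun i => (v i : ZMod (K * L))) =
      (fun i => (v i : ZMod K), fun i => (v i : ZMod L)) := by
    intro v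
    refine Prod.ext (funext fun i => ?_) (funext fun i => ?_)
    · show (c (v i : ZMod (K * L))).1 = _
      rw [map_intCast, Prod.fst_intCast]
    · show (c (v i : ZMod (K * L))).2 = _
      rw [map_intCast, Prod.snd_intCast]
  have h2 := one (K * L) fun w => F (e w).1 * G (e w).2
  simp only [h1] at h2
  rw [h2, one, one, Equiv.sum_comp e fun p => F p.1 * G p.2, Fintype.sum_prod_type,
    ← sum_mul_sum, Nat.cast_mul, mul_pow, div_mul_div_comm]

theorem per {I : Finset ℕ} {K : ℕ → ℕ} {f : ℕ → V10 → ℝ} (h : ∀ i ∈ I, Per10 (K i) (f i)) :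
    Per10 (∏ i ∈ I, K i) fun v => ∏ i ∈ I, f i v := by
  intro v v' hv
  refine prod_congr rfl fun i hi => h i hi v v' fun j => ?_
  exact (Int.natCast_dvd_natCast.2 (dvd_prod_of_mem K hi)).trans (hv j)

end DAvgJ

theorem dAvg : DAvg := by
  refine ⟨fun l _ f => DAvgJ.one l f, fun I K f => ?_⟩
  induction I using Finset.induction_on with
  | empty =>
    intro _ _
    have h := DAvgJ.one 1 fun _ => 1
    simpa using h
  | insert a I ha ih =>
    intro h hc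
    have h' : ∀ i ∈ I, 1 ≤ K i ∧ Per10 (K i) (f i) := fun i hi => h i (mem_insert_of_mem hi)
    have hp : 1 ≤ ∏ i ∈ I, K i := one_le_prod' fun i hi => (h' i hi).1
    have hco : Nat.Coprime (K a) (∏ i ∈ I, K i) := Nat.Coprime.prod_right fun i hi =>
      hc a (mem_insert_self _ _) i (mem_insert_of_mem hi) fun e => ha (e ▸ hi)
    have h2 := DAvgJ.two (h a (mem_insert_self _ _)).1 hp hco (h a (mem_insert_self _ _)).2
      (DAvgJ.per fun i hi => (h' i hi).2)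
    simp only [prod_insert ha]
    rw [h2, ih h' fun i hi j hj => hc i (mem_insert_of_mem hi) j (mem_insert_of_mem hj)]

end Pool.Agent.MP_e23604_nt.U

end
end

section

/-!
Averages of periodic functions.
-/

open Finset
open scoped Classical

noncomputable section

namespace Pool.Agent.MP_e23604_nt.P

theorem xAvg_mod {K : ℕ} {g : ℤ → ℝ} (hg : ∀ x c : ℤ, g (x + K * c) = g x) (x : ℤ) :
    g (x % K) = g x := by
  conv_rhs => rw [← Int.emod_add_mul_ediv x K]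
  rw [hg]

theorem xAvg_shift {K : ℕ} (hK : 1 ≤ K) {g : ℤ → ℝ} (hg : ∀ x c : ℤ, g (x + K * c) = g x)
    (y : ℤ) : ∑ x ∈ Ico y (y + K), g x = ∑ x ∈ Ico (0 : ℤ) K, g x := by
  have hK' : (0 : ℤ) < K := by exact_mod_cast hK
  have hmaps : Set.MapsTo (fun x : ℤ => x % K) (Ico y (y + K) : Finset ℤ)
      (Ico (0 : ℤ) K : Finset ℤ) := by
    intro x _
    simp only [coe_Ico, Set.mem_Ico]
    exact ⟨Int.emod_nonneg _ hK'.ne', Int.emod_lt_of_pos _ hK'⟩
  have hinj : Set.InjOn (fun x : ℤ => x % K) (Ico y (y + K) : Finset ℤ) := by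
    intro a ha b hb hab
    simp only [coe_Ico, Set.mem_Ico] at ha hb
    have hd : (K : ℤ) ∣ b - a := Int.ModEq.dvd hab
    have : b - a = 0 := Int.eq_zero_of_abs_lt_dvd hd (abs_lt.2 ⟨by omega, by omega⟩)
    omega
  refine sum_nbij (fun x => x % K) (fun x hx => hmaps hx) hinj
    (surjOn_of_injOn_of_card_le _ hmaps hinj (by simp)) fun x _ => (xAvg_mod hg x).symm

theorem xAvg_rep {K : ℕ} (hK : 1 ≤ K) {g : ℤ → ℝ} (hg : ∀ x c : ℤ, g (x + K * c) = g x)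
    (y : ℤ) (c : ℕ) : ∑ x ∈ Ico y (y + K * c), g x = c * ∑ x ∈ Ico (0 : ℤ) K, g x := by
  induction c with
  | zero => simp
  | succ c ih =>
    have h0 : (0 : ℤ) ≤ K * c := by positivity
    have h1 : (0 : ℤ) ≤ K := by positivity
    have e : y + (K : ℤ) * ((c + 1 : ℕ) : ℤ) = y + K * c + K := by push_cast; ring
    rw [e, ← Ico_union_Ico_eq_Ico (b := y + K * c) (by omega) (by omega),
      sum_union (Ico_disjoint_Ico_consecutive _ _ _), ih, xAvg_shift hK hg]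
    push_cast
    ring

theorem xAvg_crt {K1 K2 : ℕ} (hK1 : 1 ≤ K1) (hK2 : 1 ≤ K2) (h : Nat.Coprime K1 K2)
    {g : ℤ → ℤ → ℝ} (h1 : ∀ x y c : ℤ, g (x + K1 * c) y = g x y)
    (h2 : ∀ x y c : ℤ, g x (y + K2 * c) = g x y) :
    ∑ x ∈ Ico (0 : ℤ) ((K1 * K2 : ℕ) : ℤ), g x x =
      ∑ a ∈ Ico (0 : ℤ) K1, ∑ b ∈ Ico (0 : ℤ) K2, g a b := by
  have hK1' : (0 : ℤ) < K1 := by exact_mod_cast hK1
  have hK2' : (0 : ℤ) < K2 := by exact_mod_cast hK2
  rw [← sum_product']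
  have hmaps : Set.MapsTo (fun x : ℤ => (x % K1, x % K2))
      (Ico (0 : ℤ) ((K1 * K2 : ℕ) : ℤ) : Finset ℤ)
      ((Ico (0 : ℤ) K1 ×ˢ Ico (0 : ℤ) K2 : Finset (ℤ × ℤ)) : Set (ℤ × ℤ)) := by
    intro x _
    simp only [mem_coe, mem_product, mem_Ico]
    exact ⟨⟨Int.emod_nonneg _ hK1'.ne', Int.emod_lt_of_pos _ hK1'⟩,
      Int.emod_nonneg _ hK2'.ne', Int.emod_lt_of_pos _ hK2'⟩
  have hinj : Set.InjOn (fun x : ℤ => (x % K1, x % K2))
      (Ico (0 : ℤ) ((K1 * K2 : ℕ) : ℤ) : Finset ℤ) := by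
    intro a ha b hb hab
    simp only [coe_Ico, Set.mem_Ico] at ha hb
    have hd1 : (K1 : ℤ) ∣ b - a := Int.ModEq.dvd (congrArg Prod.fst hab)
    have hd2 : (K2 : ℤ) ∣ b - a := Int.ModEq.dvd (congrArg Prod.snd hab)
    have hd : ((K1 * K2 : ℕ) : ℤ) ∣ b - a := by
      push_cast
      exact (Nat.isCoprime_iff_coprime.2 h).mul_dvd hd1 hd2
    have : b - a = 0 := Int.eq_zero_of_abs_lt_dvd hd (abs_lt.2 ⟨by omega, by omega⟩)
    omega
  refine sum_nbij (fun x => (x % K1, x % K2)) (fun x hx => hmaps hx) hinj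
    (surjOn_of_injOn_of_card_le _ hmaps hinj ?_) fun x _ => ?_
  · rw [card_product, Int.card_Ico, Int.card_Ico, Int.card_Ico]
    simp only [sub_zero, Int.toNat_natCast, le_refl]
  · show g x x = g (x % K1) (x % K2)
    rw [xAvg_mod (g := fun y => g (x % K1) y) (fun y c => h2 _ y c) x,
      xAvg_mod (g := fun y => g y x) (fun y c => h1 y _ c) x]

end Pool.Agent.MP_e23604_nt.P

end
end

section

/-!
Sieve lower bounds and the end of the chain: definitions and step statements.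
-/

open Finset
open scoped Classical

noncomputable section

namespace Pool.Agent.MP_e23604_nt.U.CF

open P (lam PW cW Rough shp gg WW)

/-- The weight does not see the coordinate `i`. -/
def Ind (i : Fin 10) (F : S12 → V10 → ℝ) : Prop := ∀ s v x, F s (Function.update v i x) = F s v

def Bnd (X : Fin 10 → ℕ) (Z C : ℕ) (F : S12 → V10 → ℝ) : Prop :=
  ∀ s ∈ SSet Z, ∀ v ∈ Box X, 0 ≤ F s v ∧ F s v ≤ Real.log (X 0) ^ C

def Sup (X : Fin 10 → ℕ) (Z W : ℕ) (T : Finset (Fin 12)) (F : S12 → V10 → ℝ) : Prop :=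
  ∀ s ∈ SSet Z, ∀ v ∈ Box X, GG s v ≠ 0 → F s v ≠ 0 →
    Cop v ∧ ∀ τ ∈ T, Rough (PW W) (qq s v τ)

def CopU (v : V10) : Prop := ∀ i j : Fin 10, 6 ≤ i.val → i < j → IsCoprime (v i) (v j)

/-! The three statements used by the chain. -/

def CFund1 : Prop := ∃ c : ℝ, 0 < c ∧ ∀ B C : ℕ, ∃ X1 : ℕ, ∀ (X : Fin 10 → ℕ) (Z W : ℕ)
  (F : S12 → V10 → ℝ), Reg X Z → X1 ≤ X 0 → W ≤ WW B (X 0) → Bnd X Z C F → Ind 0 F → Ind 1 F →
  Sup X Z W {4, 5, 8, 9} F → c * SS X Z F - Vol X / Z ≤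
    SS X Z fun s v => F s v * ∏ σ ∈ ({0, 1, 6, 7, 10, 11} : Finset (Fin 12)), shp W (qq s v σ)

def CFund2 : Prop := ∃ c : ℝ, 0 < c ∧ ∀ B C : ℕ, ∃ X1 : ℕ, ∀ (X : Fin 10 → ℕ) (Z W : ℕ)
  (F : S12 → V10 → ℝ), Reg X Z → X1 ≤ X 0 → W ≤ WW B (X 0) → Bnd X Z C F → Ind 2 F → Ind 3 F →
  Sup X Z W {4, 5} F → c * SS X Z F - Vol X / Z ≤
    SS X Z fun s v => F s v * ∏ σ ∈ ({2, 3, 8, 9} : Finset (Fin 12)), shp W (qq s v σ)

def CTail : Prop := IB → ID1 → ∃ c : ℝ, 0 < c ∧ ∃ X1 : ℕ, ∀ (X : Fin 10 → ℕ) (Z : ℕ), Reg X Z →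
  X1 ≤ X 0 → c * Vol X * Real.log (X 0) ^ 12 ≤
    SS X Z fun s v => if Cop v then lam (qq s v 4) * lam (qq s v 5) else 0

/-! The steps. -/

/-- Linear forms without a local obstruction at the primes up to `W`. -/
def Nd (W : ℕ) (S : Finset (Fin 12)) (a b : Fin 12 → ℤ) : Prop :=
  ∀ l ∈ PW W, (∀ σ ∈ S, ¬ ((l : ℤ) ∣ a σ ∧ (l : ℤ) ∣ b σ)) ∧
    (l < 7 → ∃ t : ℤ, ∀ σ ∈ S, ¬ (l : ℤ) ∣ a σ * t + b σ)

/-- Along the class of `v i` the quotients are such forms. -/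
def Aff (W : ℕ) (s : S12) (v : V10) (i : Fin 10) (S : Finset (Fin 12)) : Prop :=
  ∃ a b : Fin 12 → ℤ, Nd W S a b ∧
    ∀ t : ℤ, ∀ σ ∈ S, qq s (Function.update v i (v i + KK s * t)) σ = a σ * t + b σ

/-- The singular series. -/
def FEul : Prop := ∃ c : ℝ, 0 < c ∧ c ≤ 1 ∧ ∀ (W n : ℕ) (ν : ℕ → ℝ), n ≤ 6 →
  (∀ l ∈ PW W, ν l ≤ n / (l : ℝ) ∧ (l < 7 → ν l ≤ 1 - 1 / (l : ℝ))) →
  c ≤ cW W ^ n * ∏ l ∈ PW W, (1 - ν l)

/-- Counting in an interval by the Chinese remainder theorem. -/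
def FCrt : Prop := ∀ (E : Finset ℕ) (y : ℕ → ℤ → Prop) (A : ℤ) (N : ℕ), (∀ l ∈ E, l.Prime) →
  (∀ l ∈ E, ∀ t c : ℤ, y l (t + l * c) ↔ y l t) →
  |(((Ico A (A + N)).filter fun t => ∀ l ∈ E, y l t).card : ℝ) -
    N * ∏ l ∈ E, (((Ico (0 : ℤ) l).filter (y l)).card : ℝ) / l| ≤ ∏ l ∈ E, (l : ℝ)

/-- The sieve in an interval. -/
def F1 : Prop := ∃ c : ℝ, 0 < c ∧ c ≤ 1 ∧ ∀ (W k : ℕ) (S : Finset (Fin 12)) (a b : Fin 12 → ℤ)
  (A : ℤ) (N : ℕ), S.card ≤ 6 → Nd W S a b → cW W ^ 18 ≤ c * 2 ^ k →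
  c * N - 2 * cW W ^ 6 * (((W : ℝ) + 1) ^ (k + 1)) ^ 2 ≤
    ∑ t ∈ Ico A (A + N), ∏ σ ∈ S, shp W (a σ * t + b σ)

/-- The sieve with a periodic weight. -/
def F2 : Prop := ∃ c : ℝ, 0 < c ∧ c ≤ 1 ∧ ∀ (W k K X : ℕ) (S : Finset (Fin 12)) (G : ℤ → ℝ)
  (q : Fin 12 → ℤ → ℤ), S.card ≤ 6 → 1 ≤ K → (∀ x, 0 ≤ G x ∧ G x ≤ 1) →
  (∀ x t, G (x + K * t) = G x) →
  (∀ x ∈ Ioc (X : ℤ) (2 * X), G x ≠ 0 → ∃ a b : Fin 12 → ℤ, Nd W S a b ∧
    ∀ t : ℤ, ∀ σ ∈ S, q σ (x + K * t) = a σ * t + b σ) → cW W ^ 18 ≤ c * 2 ^ k →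
  c * ∑ x ∈ Ioc (X : ℤ) (2 * X), G x - K * (2 * cW W ^ 6 * (((W : ℝ) + 1) ^ (k + 1)) ^ 2) ≤
    ∑ x ∈ Ioc (X : ℤ) (2 * X), G x * ∏ σ ∈ S, shp W (q σ x)

/-- The sieve in one coordinate of the box. -/
def F3 : Prop := ∃ c : ℝ, 0 < c ∧ c ≤ 1 ∧ ∀ B C : ℕ, ∃ X1 : ℕ, ∀ (X : Fin 10 → ℕ) (Z W : ℕ)
  (F : S12 → V10 → ℝ) (i : Fin 10) (S : Finset (Fin 12)), Reg X Z → X1 ≤ X 0 → W ≤ WW B (X 0) →
  S.card ≤ 6 → Bnd X Z C F → Ind i F →
  (∀ s ∈ SSet Z, ∀ v ∈ Box X, GG s v ≠ 0 → F s v ≠ 0 → Aff W s v i S) →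
  c * SS X Z F - Vol X / (Z : ℝ) ^ 2 ≤ SS X Z fun s v => F s v * ∏ σ ∈ S, shp W (qq s v σ)

/-- A criterion for `Aff`. -/
def FA : Prop := ∀ (W : ℕ) (s : S12) (v : V10) (i : Fin 10) (S : Finset (Fin 12))
  (α : Fin 12 → ℤ), SOK s → Cond s v →
  (∀ σ ∈ S, ∀ y : ℤ, site (Function.update v i (v i + 4 * y)) σ = site v σ + α σ * y) →
  (∀ σ ∈ S, ∀ l ∈ PW W, l ≠ 2 → (l : ℤ) ∣ α σ → (l : ℤ) ∣ site v σ → (l ∣ s σ ∨ ¬ l ∣ SP s) →
    False) → Aff W s v i S

def FA0 : Prop := ∀ (W : ℕ) (s : S12) (v : V10), SOK s → Cond s v → Cop v →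
  (∀ τ ∈ ({1, 4, 5, 8, 9} : Finset (Fin 12)), Rough (PW W) (qq s v τ)) →
  Aff W s v 0 {0, 6, 7, 10, 11}

def FA2 : Prop := ∀ (W : ℕ) (s : S12) (v : V10), SOK s → Cond s v →
  (Cop v → (∀ τ ∈ ({4, 5, 9} : Finset (Fin 12)), Rough (PW W) (qq s v τ)) →
    Aff W s v 2 {2, 3, 8}) ∧
  Aff W s v 1 {1} ∧ Aff W s v 3 {9} ∧ Aff W s v 4 {4} ∧ Aff W s v 5 {5}

/-- Sums of periodic functions over a box. -/
def FBox : Prop := ∀ (K : ℕ) (X : Fin 10 → ℕ) (f : V10 → ℝ), 1 ≤ K → Per10 K f → (∀ v, 0 ≤ f v) →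
  (∀ i, 1000 * K ≤ X i) → 99 / 100 * (Vol X * avg10 K f) ≤ ∑ v ∈ Box X, f v ∧
    ∑ v ∈ Box X, f v ≤ 102 / 100 * (Vol X * avg10 K f)

/-- A large common prime factor is rare. -/
def FBig : Prop := ∀ (X : Fin 10 → ℕ) (Y : ℕ) (i j : Fin 10) (L : ℝ), i ≠ j → 1 ≤ Y → Y ≤ X j →
  Real.log (2 * X i) ≤ L →
  (((Box X).filter fun v => ∃ l : ℕ, l.Prime ∧ Y < l ∧ (l : ℤ) ∣ v i ∧ (l : ℤ) ∣ v j).card : ℝ) ≤
    4 * L * Vol X / Y

/-- The local density with one coordinate frozen. -/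
def FLoc : Prop := ∀ (l : ℕ) [Fact l.Prime] (i : Fin 10) (τ : Fin 12) (x : ZMod l),
  (i = 4 ∧ τ ≠ 4 ∨ i = 5 ∧ τ ≠ 5) →
  (univ.filter fun w : Fin 10 → ZMod l => LocF (Function.update w i x) τ).card ≤ l ^ 9

def FCnt : Prop := ∀ (X : Fin 10 → ℕ) (Z : ℕ), Reg X Z → ∀ s ∈ SSet Z, ∀ (i : Fin 10)
  (σ : Fin 12) (x : ℤ), (i = 4 ∧ σ = 4 ∨ i = 5 ∧ σ = 5) →
  (((Box X).filter fun v => Cond s (Function.update v i x)).card : ℝ) ≤ 2 * Vol X * s σ / SP s

def FWt : Prop := ∃ (d0 : ℕ) (κ : ℝ), 0 < κ ∧ ∀ Z : ℕ, 1 ≤ Z → ∀ d : ℕ, d0 ≤ d →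
  ∑ s ∈ (SSet Z).filter (fun s => d ∣ KK s), (1 : ℝ) / SP s ≤
    (1 + Real.log Z) ^ 12 * (d : ℝ) ^ (-κ)

/-- A family of periodic weights in one variable. -/
def FV : Prop := ∀ (A c d0 : ℕ) (κ : ℝ), 0 < κ → ∃ B0 : ℕ, ∀ B ≥ B0, ∃ X1 : ℕ, ∀ X ≥ X1,
  ∀ (ι : Type) (Pi : Finset ι) (m K : ι → ℕ) (ρ : ι → ℝ) (Φ : ι → ℤ → ℝ) (Ω : ℝ), 0 ≤ Ω →
  (∀ π ∈ Pi, 0 < ρ π ∧ 1 ≤ m π ∧ 1 ≤ K π ∧ m π ^ 10 ≤ X ∧ K π ^ 5 ≤ X ∧
    (∀ x, |Φ π x| ≤ ρ π) ∧ (∀ x, Φ π (x + K π) = Φ π x) ∧ ∀ x, Φ π x ≠ 0 → (m π : ℤ) ∣ x) →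
  ∑ π ∈ Pi, ρ π / m π ≤ Ω * Real.log X ^ c →
  (∀ d : ℕ, d0 ≤ d → ∑ π ∈ Pi.filter fun π => d ∣ K π, ρ π / m π ≤
    Ω * Real.log X ^ c * (d : ℝ) ^ (-κ)) →
  ∑ π ∈ Pi, |∑ x ∈ Ioc (X : ℤ) (2 * X), Φ π x * gg (WW B X) (x / (m π : ℤ))| ≤
    X * Ω / Real.log X ^ A

/-- The replacement of the primes at the two smallest sites. -/
def FP : Prop := ∀ A C : ℕ, ∃ B0 : ℕ, ∀ B ≥ B0, ∃ X1 : ℕ, ∀ (X : Fin 10 → ℕ) (Z : ℕ)
  (F : S12 → V10 → ℝ) (i : Fin 10) (σ : Fin 12), Reg X Z → X1 ≤ X 0 → Bnd X Z C F →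
  (i = 4 ∧ σ = 4 ∨ i = 5 ∧ σ = 5) → Ind i F →
  |SS X Z fun s v => F s v * gg (WW B (X i)) (qq s v σ)| ≤ Vol X / Real.log (X 0) ^ A

def FDrop : Prop := ∃ X1 : ℕ, ∀ (X : Fin 10 → ℕ) (Z : ℕ), Reg X Z → X1 ≤ X 0 →
  (SS X Z fun s v => if CopU v then lam (qq s v 4) * lam (qq s v 5) else 0) - Vol X ≤
    SS X Z fun s v => if Cop v then lam (qq s v 4) * lam (qq s v 5) else 0

/-- Coprime coordinates inside the good classes. -/
def FCop : Prop := ∃ X1 : ℕ, ∀ (X : Fin 10 → ℕ) (Z : ℕ), Reg X Z → X1 ≤ X 0 → ∀ s ∈ SSet Z,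
  1 / 4 * (Vol X * avg10 (KK s) (GG s)) - Vol X / (Z : ℝ) ^ 12 ≤
    ∑ v ∈ Box X, GG s v * if CopU v then 1 else 0

def FEnd : Prop := IB → ID1 → ∃ c : ℝ, 0 < c ∧ ∃ X1 : ℕ, ∀ (X : Fin 10 → ℕ) (Z : ℕ), Reg X Z →
  X1 ≤ X 0 → c * Vol X * Real.log (X 0) ^ 12 ≤ SS X Z fun _ v => if CopU v then 1 else 0

theorem card_SSet (Z : ℕ) : ((SSet Z).card : ℝ) ≤ (Z : ℝ) ^ 12 := by
  have h : (SSet Z).card ≤ Z ^ 12 := (card_filter_le _ _).trans (by simp)
  exact_mod_cast h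

theorem cW_mono {W W' : ℕ} (h : W ≤ W') : cW W ≤ cW W' :=
  prod_le_prod_of_subset_of_one_le
    (fun _ hq => P.xCW_mem.2 ⟨(P.xCW_mem.1 hq).1.trans h, (P.xCW_mem.1 hq).2⟩)
    (fun _ hq => zero_le_one.trans (P.xCW_one hq)) fun _ hq _ => P.xCW_one hq

theorem shp_le (W : ℕ) (n : ℤ) : shp W n ≤ cW W := by
  unfold shp
  split_ifs
  · exact le_rfl
  · exact zero_le_one.trans (P.one_le_cW W)

end Pool.Agent.MP_e23604_nt.U.CF

end
end

section

open Finset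
open scoped Classical

noncomputable section

namespace Pool.Agent.MP_e23604_nt.U.CF

open P (lam PW cW Rough shp gg WW)

theorem xEul_small {l n : ℕ} {v : ℝ} (hl : l.Prime) (h7 : l < 7) (hv : v ≤ 1 - 1 / (l : ℝ)) :
    1 / 6 ≤ (1 - 1 / (l : ℝ))⁻¹ ^ n * (1 - v) := by
  obtain ⟨h1, h2, -⟩ := P.xCW_fac hl
  have h3 : (1 : ℝ) ≤ (1 - 1 / (l : ℝ))⁻¹ ^ n := one_le_pow₀ (by linarith)
  have h4 : (l : ℝ) ≤ 6 := by exact_mod_cast Nat.lt_succ_iff.1 h7
  have h5 : (1 : ℝ) / 6 ≤ 1 / (l : ℝ) :=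
    one_div_le_one_div_of_le (by exact_mod_cast hl.pos) h4
  nlinarith

theorem xEul_big {l n : ℕ} {v : ℝ} (hl : l.Prime) (h7 : 7 ≤ l) (hn : n ≤ 6)
    (hv : v ≤ n / (l : ℝ)) :
    36 * ((l : ℝ) ^ 2)⁻¹ ≤ 36 / 49 ∧
      1 - 36 * ((l : ℝ) ^ 2)⁻¹ ≤ (1 - 1 / (l : ℝ))⁻¹ ^ n * (1 - v) := by
  obtain ⟨h1, h2, -⟩ := P.xCW_fac hl
  have h4 : (7 : ℝ) ≤ l := by exact_mod_cast h7
  have h5 : 1 / (l : ℝ) ≤ 1 / 7 := one_div_le_one_div_of_le (by norm_num) h4
  have h6 : (n : ℝ) ≤ 6 := by exact_mod_cast hn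
  have h0 : (0 : ℝ) ≤ n := Nat.cast_nonneg n
  have e1 : ((l : ℝ) ^ 2)⁻¹ = (1 / (l : ℝ)) ^ 2 := by rw [one_div, inv_pow]
  rw [← mul_one_div] at hv
  rw [e1]
  have h3 : 1 + n * (1 / (l : ℝ)) ≤ (1 - 1 / (l : ℝ))⁻¹ ^ n :=
    (one_add_mul_le_pow (by linarith) n).trans (pow_le_pow_left₀ (by linarith) h2 n)
  generalize (1 - 1 / (l : ℝ))⁻¹ ^ n = y at h3
  generalize 1 / (l : ℝ) = x at *
  have h8 : (n : ℝ) * x ≤ 6 * x := mul_le_mul_of_nonneg_right h6 h1.le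
  have h9 : 0 ≤ (n : ℝ) * x := mul_nonneg h0 h1.le
  generalize (n : ℝ) * x = z at *
  refine ⟨by nlinarith, ?_⟩
  have a : (1 + z) * (1 - z) ≤ y * (1 - v) :=
    mul_le_mul h3 (by linarith) (by linarith) (by linarith)
  nlinarith

theorem xEul_sum (W : ℕ) :
    ∑ l ∈ (PW W).filter (fun l => ¬ l ≤ 100), 36 * ((l : ℝ) ^ 2)⁻¹ ≤ 1 / 2 := by
  have h1 : (PW W).filter (fun l => ¬ l ≤ 100) ⊆ Ioc 100 (max 100 W) := fun l hl => by
    rw [mem_filter] at hl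
    exact mem_Ioc.2 ⟨not_le.1 hl.2, (P.xCW_mem.1 hl.1).1.trans (le_max_right _ _)⟩
  have h2 := sum_Ioc_inv_sq_le_sub (α := ℝ) (k := 100) (n := max 100 W) (by norm_num)
    (le_max_left _ _)
  have h3 : ∑ l ∈ (PW W).filter (fun l => ¬ l ≤ 100), ((l : ℝ) ^ 2)⁻¹ ≤
      ∑ l ∈ Ioc 100 (max 100 W), ((l : ℝ) ^ 2)⁻¹ :=
    sum_le_sum_of_subset_of_nonneg h1 fun _ _ _ => by positivity
  have h4 : (0 : ℝ) ≤ ((max 100 W : ℕ) : ℝ)⁻¹ := by positivity
  have h5 : ((100 : ℕ) : ℝ)⁻¹ = 1 / 100 := by norm_num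
  rw [← mul_sum]
  linarith

theorem FEul_pf : FEul := by
  obtain ⟨m, hm⟩ : ∃ m : ℕ, m = 101 := ⟨_, rfl⟩
  have c0 : (0 : ℝ) < (1 / 6) ^ m := by positivity
  have c1 : (1 / 6 : ℝ) ^ m ≤ 1 := pow_le_one₀ (by norm_num) (by norm_num)
  refine ⟨(1 / 6) ^ m * (1 / 2), by positivity, by linarith, fun W n ν hn hν => ?_⟩
  rw [cW, ← prod_pow, ← prod_mul_distrib,
    ← prod_filter_mul_prod_filter_not (PW W) fun l => l ≤ 100]
  have f6 : ∀ l ∈ PW W, 1 / 6 ≤ (1 - 1 / (l : ℝ))⁻¹ ^ n * (1 - ν l) := fun l hl => by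
    have hp := (P.xCW_mem.1 hl).2
    rcases lt_or_ge l 7 with h | h
    · exact xEul_small hp h ((hν l hl).2 h)
    · obtain ⟨a, b⟩ := xEul_big hp h hn (hν l hl).1
      linarith
  have a1 : (1 / 6 : ℝ) ^ m ≤
      ∏ l ∈ (PW W).filter (fun l => l ≤ 100), (1 - 1 / (l : ℝ))⁻¹ ^ n * (1 - ν l) := by
    have hc : ((PW W).filter fun l => l ≤ 100).card ≤ m := by
      refine (card_le_card (t := range m) fun l hl => ?_).trans (card_range m).le
      have := (mem_filter.1 hl).2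
      exact mem_range.2 (by omega)
    refine (pow_le_pow_of_le_one (by norm_num) (by norm_num) hc).trans ?_
    rw [← prod_const]
    exact prod_le_prod (fun _ _ => by norm_num) fun l hl => f6 l (mem_filter.1 hl).1
  have a2 : (1 / 2 : ℝ) ≤
      ∏ l ∈ (PW W).filter (fun l => ¬ l ≤ 100), (1 - 1 / (l : ℝ))⁻¹ ^ n * (1 - ν l) := by
    have hb : ∀ l ∈ (PW W).filter (fun l => ¬ l ≤ 100), 36 * ((l : ℝ) ^ 2)⁻¹ ≤ 36 / 49 ∧
        1 - 36 * ((l : ℝ) ^ 2)⁻¹ ≤ (1 - 1 / (l : ℝ))⁻¹ ^ n * (1 - ν l) := fun l hl => by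
      rw [mem_filter] at hl
      exact xEul_big (P.xCW_mem.1 hl.1).2 (by omega) hn (hν l hl.1).1
    have w := P.xNu_weier ((PW W).filter fun l => ¬ l ≤ 100) (fun l => 36 * ((l : ℝ) ^ 2)⁻¹)
      (fun l _ => by positivity) fun l hl => by linarith [(hb l hl).1]
    have s := xEul_sum W
    refine le_trans (by linarith) (w.trans (prod_le_prod (fun l hl => ?_) fun l hl => (hb l hl).2))
    linarith [(hb l hl).1]
  exact mul_le_mul a1 a2 (by norm_num) (c0.le.trans a1)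

end Pool.Agent.MP_e23604_nt.U.CF

end
end

section

/-!
Counting in an interval with conditions modulo distinct primes.
-/

open Finset
open scoped Classical

noncomputable section

namespace Pool.Agent.MP_e23604_nt.U.CF

open P (lam PW cW Rough shp gg WW)

theorem xCrt_per (E : Finset ℕ) (y : ℕ → ℤ → Prop)
    (hy : ∀ l ∈ E, ∀ t c : ℤ, y l (t + l * c) ↔ y l t) (t c : ℤ) :
    (∀ l ∈ E, y l (t + ((∏ l ∈ E, l : ℕ) : ℤ) * c)) ↔ ∀ l ∈ E, y l t := by
  refine forall₂_congr fun l hl => ?_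
  obtain ⟨m, hm⟩ := dvd_prod_of_mem (fun l : ℕ => l) hl
  rw [hm, Nat.cast_mul, mul_assoc]
  exact hy l hl t _

theorem xCrt_full (E : Finset ℕ) (y : ℕ → ℤ → Prop) (hp : ∀ l ∈ E, l.Prime)
    (hy : ∀ l ∈ E, ∀ t c : ℤ, y l (t + l * c) ↔ y l t) :
    ∑ t ∈ Ico (0 : ℤ) ((∏ l ∈ E, l : ℕ) : ℤ), (if ∀ l ∈ E, y l t then (1 : ℝ) else 0) =
      ∏ l ∈ E, (((Ico (0 : ℤ) l).filter (y l)).card : ℝ) := by
  induction E using Finset.induction_on with
  | empty => simp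
  | insert a E ha ih =>
    have hp' : ∀ l ∈ E, l.Prime := fun l hl => hp l (mem_insert_of_mem hl)
    have hy' : ∀ l ∈ E, ∀ t c : ℤ, y l (t + l * c) ↔ y l t := fun l hl =>
      hy l (mem_insert_of_mem hl)
    have hpa := hp a (mem_insert_self a E)
    have hc : Nat.Coprime a (∏ l ∈ E, l) := Nat.Coprime.prod_right fun l hl =>
      (Nat.coprime_primes hpa (hp' l hl)).2 fun h => ha (h ▸ hl)
    have h1 := P.xAvg_crt hpa.one_le (prod_pos fun l hl => (hp' l hl).pos) hc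
      (g := fun u v => (if y a u then (1 : ℝ) else 0) * if ∀ l ∈ E, y l v then 1 else 0)
      (fun u v c => by simp only [hy a (mem_insert_self a E) u c])
      (fun u v c => by simp only [xCrt_per E y hy' v c])
    rw [prod_insert ha, prod_insert ha, ← ih hp' hy', card_filter, Nat.cast_sum, sum_mul_sum]
    refine Eq.trans (sum_congr rfl fun t _ => ?_) (h1.trans ?_)
    · by_cases h2 : y a t <;> simp [h2]
    · refine sum_congr rfl fun u _ => sum_congr rfl fun v _ => ?_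
      split_ifs <;> simp

theorem FCrt_pf : FCrt := by
  intro E y A N hp hy
  obtain ⟨K, hK⟩ : ∃ K : ℕ, K = ∏ l ∈ E, l := ⟨_, rfl⟩
  have hK1 : 1 ≤ K := by
    rw [hK]
    exact prod_pos fun l hl => (hp l hl).pos
  have hKr : (K : ℝ) = ∏ l ∈ E, (l : ℝ) := by rw [hK, Nat.cast_prod]
  have hf := xCrt_full E y hp hy
  have hper := xCrt_per E y hy
  rw [← hK] at hf hper
  obtain ⟨p, hpd⟩ : ∃ p : ℝ, p = ∏ l ∈ E, (((Ico (0 : ℤ) l).filter (y l)).card : ℝ) / l :=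
    ⟨_, rfl⟩
  have hp0 : 0 ≤ p := by
    rw [hpd]
    positivity
  have hp1 : p ≤ 1 := by
    rw [hpd]
    refine prod_le_one (fun l _ => by positivity) fun l hl => ?_
    refine div_le_one_of_le₀ ?_ (by positivity)
    have h1 := card_filter_le (Ico (0 : ℤ) l) (y l)
    rw [Int.card_Ico, sub_zero, Int.toNat_natCast] at h1
    exact_mod_cast h1
  have hK0 : (0 : ℝ) < K := by exact_mod_cast hK1
  have hKp : ∏ l ∈ E, (((Ico (0 : ℤ) l).filter (y l)).card : ℝ) = K * p := by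
    rw [hpd, prod_div_distrib, ← hKr, mul_div_cancel₀ _ hK0.ne']
  rw [← hpd, ← hKr]
  obtain ⟨c, r, hr, rfl⟩ : ∃ c r, r < K ∧ N = K * c + r :=
    ⟨N / K, N % K, Nat.mod_lt _ hK1, (Nat.div_add_mod N K).symm⟩
  have h0 : (0 : ℤ) ≤ K * c := by positivity
  have e : A + ((K * c + r : ℕ) : ℤ) = A + K * c + r := by
    push_cast
    ring
  have h1 := P.xAvg_rep hK1 (g := fun t => if ∀ l ∈ E, y l t then (1 : ℝ) else 0)
    (fun t c => by simp only [hper t c]) A c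
  rw [hf, hKp, sum_boole] at h1
  have h2 : (((Ico (A + K * c) (A + K * c + r)).filter fun t => ∀ l ∈ E, y l t).card : ℝ) ≤ r := by
    have h3 := card_filter_le (Ico (A + K * c) (A + K * c + r)) fun t => ∀ l ∈ E, y l t
    rw [Int.card_Ico, add_sub_cancel_left, Int.toNat_natCast] at h3
    exact_mod_cast h3
  have h3 : (0 : ℝ) ≤
      (((Ico (A + K * c) (A + K * c + r)).filter fun t => ∀ l ∈ E, y l t).card : ℝ) := by
    positivity
  have h4 : (r : ℝ) ≤ K := by exact_mod_cast hr.le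
  have h5 : (0 : ℝ) ≤ r := by positivity
  rw [e, ← Ico_union_Ico_eq_Ico (b := A + K * c) (by omega) (by omega), filter_union,
    card_union_of_disjoint (disjoint_filter_filter (Ico_disjoint_Ico_consecutive _ _ _)),
    Nat.cast_add, h1, abs_le]
  push_cast
  constructor <;> nlinarith

end Pool.Agent.MP_e23604_nt.U.CF

end
end

section

/-!
The sieve in an interval.
-/

open Finset
open scoped Classical

noncomputable section

namespace Pool.Agent.MP_e23604_nt.U.CF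

open P (lam PW cW Rough shp gg WW)

theorem x1_one {l : ℕ} (hl : l.Prime) {a b : ℤ} (h : ¬ ((l : ℤ) ∣ a ∧ (l : ℤ) ∣ b)) :
    ((Ico (0 : ℤ) l).filter fun t => (l : ℤ) ∣ a * t + b).card ≤ 1 := by
  refine card_le_one.2 fun t ht u hu => ?_
  simp only [mem_filter, mem_Ico] at ht hu
  have h1 : (l : ℤ) ∣ a * (t - u) := by
    have := dvd_sub ht.2 hu.2
    rwa [show a * t + b - (a * u + b) = a * (t - u) by ring] at this
  rcases (Nat.prime_iff_prime_int.1 hl).dvd_or_dvd h1 with h2 | h2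
  · exact absurd ⟨h2, (dvd_add_right (h2.mul_right t)).1 ht.2⟩ h
  · exact sub_eq_zero.1 (Int.eq_zero_of_abs_lt_dvd h2 (abs_lt.2 ⟨by omega, by omega⟩))

theorem F1_pf (hFEul : FEul) (hFCrt : FCrt) : F1 := by
  obtain ⟨c, hc, hc1, hE⟩ := hFEul
  refine ⟨c / 2, by positivity, by linarith, fun W k S a b A N hS hN hk => ?_⟩
  obtain ⟨y, hy⟩ : ∃ y : ℕ → ℤ → Prop, ∀ l t, y l t ↔ ∃ σ ∈ S, (l : ℤ) ∣ a σ * t + b σ :=
    ⟨_, fun _ _ => Iff.rfl⟩
  have hper : ∀ (l : ℕ) (t c : ℤ), y l (t + l * c) ↔ y l t := fun l t c => by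
    simp only [hy]
    refine exists_congr fun σ => and_congr_right fun _ => ?_
    rw [show a σ * (t + l * c) + b σ = a σ * t + b σ + l * (a σ * c) by ring]
    exact dvd_add_left (dvd_mul_right _ _)
  have hp : ∀ l ∈ PW W, l.Prime := fun l hl => (P.xCW_mem.1 hl).2
  have hp0 : ∀ l ∈ PW W, (0 : ℝ) < l := fun l hl => by exact_mod_cast (hp l hl).pos
  obtain ⟨ν, hν⟩ : ∃ ν : ℕ → ℝ, ν = fun l : ℕ => (((Ico (0 : ℤ) l).filter (y l)).card : ℝ) / l :=
    ⟨_, rfl⟩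
  have n0 : ∀ l, 0 ≤ ν l := fun l => by rw [hν]; positivity
  have n1 : ∀ l ∈ PW W, ν l ≤ 1 := fun l hl => by
    rw [hν, div_le_one (hp0 l hl)]
    exact_mod_cast (card_filter_le _ _).trans (by simp)
  have n2 : ∀ l ∈ PW W, ν l ≤ S.card / (l : ℝ) := fun l hl => by
    rw [hν]
    refine div_le_div_of_nonneg_right ?_ (hp0 l hl).le
    have : ((Ico (0 : ℤ) l).filter (y l)).card ≤ S.card * 1 := by
      refine (card_le_card fun t ht => ?_).trans (card_biUnion_le_card_mul S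
        (fun σ => (Ico (0 : ℤ) l).filter fun t => (l : ℤ) ∣ a σ * t + b σ) 1
        fun σ hσ => x1_one (hp l hl) ((hN l hl).1 σ hσ))
      obtain ⟨h1, h2⟩ := mem_filter.1 ht
      obtain ⟨σ, hσ, h3⟩ := (hy l t).1 h2
      exact mem_biUnion.2 ⟨σ, hσ, mem_filter.2 ⟨h1, h3⟩⟩
    rw [mul_one] at this
    exact_mod_cast this
  have n3 : ∀ l ∈ PW W, l < 7 → ν l ≤ 1 - 1 / (l : ℝ) := fun l hl h7 => by
    obtain ⟨t, ht⟩ := (hN l hl).2 h7
    have l0 : (0 : ℤ) < l := by exact_mod_cast (hp l hl).pos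
    have h1 : ((Ico (0 : ℤ) l).filter (y l)).card < (Ico (0 : ℤ) l).card := by
      refine card_lt_card (filter_ssubset.2 ⟨t % l, mem_Ico.2
        ⟨Int.emod_nonneg _ l0.ne', Int.emod_lt_of_pos _ l0⟩, fun H => ?_⟩)
      rw [← hper l _ (t / l), Int.emod_add_mul_ediv, hy] at H
      obtain ⟨σ, hσ, h⟩ := H
      exact ht σ hσ h
    have h2 : ((Ico (0 : ℤ) l).filter (y l)).card + 1 ≤ l := by simpa using h1
    have h3 : (((Ico (0 : ℤ) l).filter (y l)).card : ℝ) + 1 ≤ l := by exact_mod_cast h2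
    rw [hν, le_sub_iff_add_le, ← add_div, div_le_one (hp0 l hl)]
    exact h3
  have hW : (1 : ℝ) ≤ (W : ℝ) + 1 := by linarith [Nat.cast_nonneg (α := ℝ) W]
  have f := P.fund (Ico A (A + N)) (fun _ => (1 : ℝ)) (fun _ _ => zero_le_one) (PW W) y ν
    (fun l hl => ⟨n0 l, n1 l hl⟩) (R := ((W : ℝ) + 1) ^ (k + 1)) (Nat.cast_nonneg N) k
    fun E hE hk => by
      rw [sum_const, nsmul_eq_mul, mul_one, hν]
      refine (hFCrt E y A N (fun l hl => hp l (hE hl)) fun l _ => hper l).trans ?_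
      refine le_trans (prod_le_prod (g := fun _ => (W : ℝ) + 1) (fun _ _ => Nat.cast_nonneg _)
        fun l hl => ?_) ?_
      · exact_mod_cast (P.xCW_mem.1 (hE hl)).1.trans (Nat.le_succ W)
      · rw [prod_const]
        exact pow_le_pow_right₀ hW hk
  have e : ∑ t ∈ Ico A (A + N), ∏ σ ∈ S, shp W (a σ * t + b σ) =
      cW W ^ S.card * ∑ t ∈ (Ico A (A + N)).filter fun t => ∀ l ∈ PW W, ¬ y l t, (1 : ℝ) := by
    rw [sum_filter, mul_sum]
    refine sum_congr rfl fun t _ => ?_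
    split_ifs with H
    · rw [mul_one, ← prod_const]
      exact prod_congr rfl fun σ hσ => if_pos fun l hl h => H l hl ((hy l t).2 ⟨σ, hσ, h⟩)
    · push Not at H
      obtain ⟨l, hl, H⟩ := H
      obtain ⟨σ, hσ, h⟩ := (hy l t).1 H
      rw [mul_zero]
      exact prod_eq_zero hσ (if_neg fun H => H l hl h)
  have c1 := P.one_le_cW W
  have c2 : cW W ^ S.card ≤ cW W ^ 6 := pow_le_pow_right₀ c1 hS
  have c3 : 0 ≤ cW W ^ S.card := by positivity
  have c4 := hE W S.card ν hS fun l hl => ⟨n2 l hl, n3 l hl⟩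
  have c5 : ∏ l ∈ PW W, (1 + 2 * ν l) ≤ cW W ^ 12 := by
    refine le_trans (prod_le_prod (fun l _ => by linarith [n0 l]) fun l hl => ?_)
      (P.prod_le_cW subset_rfl 12)
    have h1 : (S.card : ℝ) / l ≤ 6 / l :=
      div_le_div_of_nonneg_right (by exact_mod_cast hS) (hp0 l hl).le
    have h2 : ((12 : ℕ) : ℝ) / l = 2 * (6 / l) := by push_cast; ring
    linarith [n2 l hl]
  have c6 : cW W ^ S.card * (N * (∏ l ∈ PW W, (1 + 2 * ν l)) / 2 ^ k) ≤ c / 2 * N := by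
    have h1 : cW W ^ S.card * ∏ l ∈ PW W, (1 + 2 * ν l) ≤ c / 2 * 2 ^ k :=
      (mul_le_mul c2 c5 (prod_nonneg fun l _ => by linarith [n0 l]) (by positivity)).trans
        (by rwa [← pow_add])
    rw [← mul_div_assoc, div_le_iff₀ (by positivity)]
    nlinarith [mul_le_mul_of_nonneg_left h1 (Nat.cast_nonneg (α := ℝ) N)]
  have c7 : cW W ^ S.card * (2 * (((PW W).card : ℝ) + 1) ^ (k + 1) * ((W : ℝ) + 1) ^ (k + 1)) ≤
      2 * cW W ^ 6 * (((W : ℝ) + 1) ^ (k + 1)) ^ 2 := by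
    have h1 : ((PW W).card : ℝ) ≤ W := by exact_mod_cast P.card_PW W
    calc _ ≤ cW W ^ 6 * (2 * ((W : ℝ) + 1) ^ (k + 1) * ((W : ℝ) + 1) ^ (k + 1)) := by gcongr
      _ = _ := by ring
  have f1 := mul_le_mul_of_nonneg_left (abs_le.1 f).1 c3
  rw [e]
  nlinarith [mul_le_mul_of_nonneg_left c4 (Nat.cast_nonneg (α := ℝ) N)]

end Pool.Agent.MP_e23604_nt.U.CF

end
end

section

/-!
The sieve with a periodic weight.
-/

open Finset
open scoped Classical

noncomputable section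

namespace Pool.Agent.MP_e23604_nt.U.CF

open P (lam PW cW Rough shp gg WW)

theorem x2_split (a b : ℤ) {K : ℕ} (hK : 1 ≤ K) (f : ℤ → ℝ) :
    ∑ x ∈ Ioc a b, f x = ∑ r ∈ range K, ∑ x ∈ cl a b K r, f x := by
  have h := sum_cl_split a b 0 (le_refl 1) hK f
  have e : cl a b 1 0 = Ioc a b := by
    ext x
    rw [mem_cl, mem_Ioc]
    simp
  rw [e] at h
  simpa using h

theorem x2_class {a b r : ℤ} (hab : a ≤ b) {K : ℕ} (hK : 1 ≤ K) {G p : ℤ → ℝ} {c E : ℝ}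
    (hE : 0 ≤ E) (hG : ∀ x, 0 ≤ G x ∧ G x ≤ 1) (hper : ∀ x t, G (x + K * t) = G x)
    (h : ∀ x ∈ Ioc a b, G x ≠ 0 → ∀ (A : ℤ) (N : ℕ),
      c * N - E ≤ ∑ t ∈ Ico A (A + N), p (x + K * t)) :
    c * ∑ x ∈ cl a b K r, G x - E ≤ ∑ x ∈ cl a b K r, G x * p x := by
  by_cases h0 : ∀ x ∈ cl a b K r, G x = 0
  · rw [sum_eq_zero h0, sum_eq_zero fun x hx => by rw [h0 x hx, zero_mul]]
    linarith
  · push Not at h0
    obtain ⟨x, hx, hx0⟩ := h0
    obtain ⟨h1, h2, h3⟩ := mem_cl.1 hx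
    have e : cl a b K r = cl a b K x := by
      ext y
      rw [mem_cl, mem_cl]
      refine and_congr_right fun _ => and_congr_right fun _ => ⟨fun h4 => ?_, fun h4 => ?_⟩
      · have := dvd_sub h4 h3
        rwa [sub_sub_sub_cancel_right] at this
      · have := dvd_add h4 h3
        rwa [sub_add_sub_cancel] at this
    obtain ⟨t0, n, e', -⟩ := cl_image a b x hab hK
    have hK0 : (K : ℤ) ≠ 0 := by exact_mod_cast (by omega : K ≠ 0)
    have hi : Set.InjOn (fun t : ℤ => x + K * t) (Ico t0 (t0 + n) : Finset ℤ) :=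
      fun s _ t _ h4 => mul_left_cancel₀ hK0 (add_left_cancel h4)
    rw [e, e', sum_image hi, sum_image hi]
    simp only [hper]
    rw [sum_const, ← mul_sum, Int.card_Ico, add_sub_cancel_left, Int.toNat_natCast, nsmul_eq_mul]
    have h5 := mul_le_mul_of_nonneg_left (h x (mem_Ioc.2 ⟨h1, h2⟩) hx0 t0 n) (hG x).1
    have h6 := mul_le_mul_of_nonneg_right (hG x).2 hE
    linarith

theorem F2_pf (hF1 : F1) : F2 := by
  obtain ⟨c, hc0, hc1, h⟩ := hF1
  refine ⟨c, hc0, hc1, fun W k K X S G q hS hK hG hper hq hk => ?_⟩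
  have hE : 0 ≤ 2 * cW W ^ 6 * (((W : ℝ) + 1) ^ (k + 1)) ^ 2 := by positivity
  generalize hE' : 2 * cW W ^ 6 * (((W : ℝ) + 1) ^ (k + 1)) ^ 2 = E at hE
  have e : (K : ℝ) * E = ∑ _r ∈ range K, E := by rw [sum_const, card_range, nsmul_eq_mul]
  rw [x2_split _ _ hK, x2_split _ _ hK fun x => G x * ∏ σ ∈ S, shp W (q σ x), mul_sum, e,
    ← sum_sub_distrib]
  refine sum_le_sum fun r _ => x2_class (p := fun x => ∏ σ ∈ S, shp W (q σ x)) (by omega) hK hE
    hG hper fun x hx hx0 A N => ?_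
  obtain ⟨a, b, hN, hab⟩ := hq x hx hx0
  rw [← hE']
  refine (h W k S a b A N hS hN hk).trans (le_of_eq ?_)
  exact sum_congr rfl fun t _ => prod_congr rfl fun σ hσ => by rw [hab t σ hσ]

end Pool.Agent.MP_e23604_nt.U.CF

end
end

section

/-!
A criterion for the quotients to be linear forms without a local obstruction.
-/

open Finset
open scoped Classical

noncomputable section

namespace Pool.Agent.MP_e23604_nt.U.CF

open P (lam PW cW Rough shp gg WW)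

theorem xA_mod (v : V10) (h : ∀ i, v i % 240 = v0 i) (σ : Fin 12) :
    site v σ % 10 = site v0 σ % 10 := by
  have k0 : ∀ i, v0 i % 240 = v0 i := by decide
  have k : ∀ i, v i ≡ v0 i [ZMOD 240] := fun i => (h i).trans (k0 i).symm
  by_cases h2 : σ = 2
  · subst h2
    have k1 := (((k 2).mul (k 4)).mul ((k 6).pow 2)).sub (((k 5).mul (k 3)).mul ((k 7).pow 2))
    rw [← xEB_four v h] at k1
    have e1 : v0 2 * v0 4 * v0 6 ^ 2 - v0 5 * v0 3 * v0 7 ^ 2 = 164 := by decide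
    have e2 : site v0 2 = 41 := by decide
    rw [e1] at k1
    rw [e2]
    unfold Int.ModEq at k1
    omega
  · have hz : ∀ i, (v i : ZMod 10) = v0 i := fun i =>
      (ZMod.intCast_eq_intCast_iff _ _ 10).2 ((k i).of_dvd (by norm_num))
    have e : (site v σ : ZMod 10) = site v0 σ := by
      fin_cases σ
      all_goals first
        | exact absurd rfl h2
        | simp [site, hz]
    exact (ZMod.intCast_eq_intCast_iff _ _ 10).1 e

theorem xA_25 (v : V10) (h : ∀ i, v i % 240 = v0 i) (σ : Fin 12) :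
    ¬ (2 : ℤ) ∣ site v σ ∧ ¬ (5 : ℤ) ∣ site v σ := by
  have e := xA_mod v h σ
  have k : ∀ τ, site v0 τ % 10 = 1 ∨ site v0 τ % 10 = 3 ∨ site v0 τ % 10 = 7 ∨
      site v0 τ % 10 = 9 := by decide
  have := k σ
  omega

theorem FA_pf : FA := by
  intro W s v i S α hs hc hsite hyp
  have hb : ∀ σ, site v σ = s σ * qq s v σ := fun σ => (Int.mul_ediv_cancel' (hc.dvd hs σ)).symm
  have hS : ∀ σ, s σ * (SP s / s σ) = SP s := fun σ => Nat.mul_div_cancel' (xEB_dvd s σ)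
  have hdv : ∀ σ (l : ℤ), l ∣ qq s v σ → l ∣ site v σ := fun σ l h => by
    rw [hb σ]
    exact h.mul_left _
  have hK : ∀ σ (l : ℕ), l.Prime → l ∣ SP s → ¬ l ∣ s σ → ¬ (l : ℤ) ∣ site v σ := by
    intro σ l hl h1 h2
    obtain ⟨τ, -, hτ⟩ := (hl.prime.dvd_finsetProd_iff _).1 h1
    exact (hc.loc hs hl hτ).2.1 σ fun e => h2 (e ▸ hτ)
  have h1 : ∀ l ∈ PW W, ∀ σ ∈ S,
      ¬ ((l : ℤ) ∣ 20 * α σ * ((SP s / s σ : ℕ) : ℤ) ∧ (l : ℤ) ∣ qq s v σ) := by
    rintro l hl σ hσ ⟨ha, hb'⟩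
    have hp := (P.xCW_mem.1 hl).2
    have hl2 := hdv σ _ hb'
    have h2 : l ≠ 2 := by
      rintro rfl
      exact (xA_25 v hc.1 σ).1 hl2
    have h5 : l ≠ 5 := by
      rintro rfl
      exact (xA_25 v hc.1 σ).2 hl2
    by_cases h : l ∣ SP s ∧ ¬ l ∣ s σ
    · exact hK σ l hp h.1 h.2 hl2
    have h' : l ∣ s σ ∨ ¬ l ∣ SP s := by tauto
    refine hyp σ hσ l hl h2 ?_ hl2 h'
    have hpi : Prime (l : ℤ) := Nat.prime_iff_prime_int.1 hp
    rcases hpi.dvd_or_dvd ha with h3 | h3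
    · refine (hpi.dvd_or_dvd h3).resolve_left fun h4 => ?_
      have h6 : l ∣ 2 ^ 2 * 5 := by exact_mod_cast h4
      rcases (Nat.Prime.dvd_mul hp).1 h6 with h7 | h7
      · exact h2 ((Nat.prime_dvd_prime_iff_eq hp Nat.prime_two).1 (hp.dvd_of_dvd_pow h7))
      · exact h5 ((Nat.prime_dvd_prime_iff_eq hp Nat.prime_five).1 h7)
    · exfalso
      have h4 : l ∣ SP s / s σ := Int.natCast_dvd_natCast.1 h3
      rcases h' with h' | h'
      · have h6 : l * l ∣ SP s := (mul_dvd_mul h' h4).trans (hS σ).dvd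
        exact hp.ne_one (Nat.isUnit_iff.1 (hs.1 l h6))
      · exact h' ((h4.mul_left _).trans (hS σ).dvd)
  refine ⟨fun σ => 20 * α σ * ((SP s / s σ : ℕ) : ℤ), fun σ => qq s v σ,
    fun l hl => ⟨h1 l hl, fun h7 => ?_⟩, fun t σ hσ => ?_⟩
  · have hp := (P.xCW_mem.1 hl).2
    have h235 : l = 2 ∨ l = 5 ∨ l = 3 := by
      interval_cases l <;> first | decide | exact absurd hp (by decide)
    rcases h235 with rfl | rfl | rfl
    · refine ⟨0, fun σ _ h => (xA_25 v hc.1 σ).1 (hdv σ _ ?_)⟩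
      simpa using h
    · refine ⟨0, fun σ _ h => (xA_25 v hc.1 σ).2 (hdv σ _ ?_)⟩
      simpa using h
    have h3 : ∀ σ, σ ≠ 0 → ∀ t : ℤ,
        ¬ ((3 : ℕ) : ℤ) ∣ 20 * α σ * ((SP s / s σ : ℕ) : ℤ) * t + qq s v σ := by
      intro σ h0 t h
      have h4 : ¬ 3 ∣ s σ := fun h5 => by
        have := Nat.dvd_gcd h5 hs.2.1
        rw [hs.cop h0] at this
        omega
      have h5 : 3 ∣ SP s := hs.2.1.trans (xEB_dvd s 0)
      have h6 : 3 ∣ SP s / s σ :=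
        ((Nat.Prime.dvd_mul hp).1 (h5.trans (hS σ).symm.dvd)).resolve_left h4
      have h8 : ((3 : ℕ) : ℤ) ∣ 20 * α σ * ((SP s / s σ : ℕ) : ℤ) * t :=
        ((Int.natCast_dvd_natCast.2 h6).mul_left _).mul_right _
      exact hK σ 3 hp h5 h4 (hdv σ _ ((dvd_add_right h8).1 h))
    by_cases hq : ((3 : ℕ) : ℤ) ∣ qq s v 0
    · refine ⟨1, fun σ hσ h => ?_⟩
      by_cases h0 : σ = 0
      · subst h0
        rw [mul_one] at h
        exact h1 3 hl 0 hσ ⟨(dvd_add_left hq).1 h, hq⟩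
      · exact h3 σ h0 1 h
    · refine ⟨0, fun σ hσ h => ?_⟩
      by_cases h0 : σ = 0
      · subst h0
        rw [mul_zero, zero_add] at h
        exact hq h
      · exact h3 σ h0 0 h
  · have e : (KK s : ℤ) * t = 4 * (20 * SP s * t) := by
      rw [KK]
      push_cast
      ring
    have hp : (s σ : ℤ) ≠ 0 := by
      have := hs.pos σ
      omega
    have e2 : (SP s : ℤ) = s σ * ((SP s / s σ : ℕ) : ℤ) := by rw [← Nat.cast_mul, hS σ]
    rw [qq, e, hsite σ hσ]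
    refine Int.ediv_eq_of_eq_mul_right hp ?_
    beta_reduce
    generalize ((SP s / s σ : ℕ) : ℤ) = r at e2 ⊢
    rw [e2, hb σ]
    ring

end Pool.Agent.MP_e23604_nt.U.CF

end
end

section

/-!
The linear forms along the first coordinate.
-/

open Finset
open scoped Classical

noncomputable section

namespace Pool.Agent.MP_e23604_nt.U.CF

open P (lam PW cW Rough shp gg WW)

theorem xA0_key {W : ℕ} {s : S12} {v : V10} (hs : SOK s) (hc : Cond s v) {l : ℕ}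
    (hl : l ∈ PW W) {σ τ : Fin 12} (hne : σ ≠ τ) (hr : Rough (PW W) (qq s v τ))
    (h : l ∣ s σ ∨ ¬ l ∣ SP s) : ¬ (l : ℤ) ∣ site v τ := by
  intro hd
  have hp : l.Prime := (P.xCW_mem.1 hl).2
  have hpi : Prime (l : ℤ) := Nat.prime_iff_prime_int.1 hp
  have e : site v τ = (s τ : ℤ) * qq s v τ := (Int.mul_ediv_cancel' (hc.dvd hs τ)).symm
  rw [e] at hd
  rcases hpi.dvd_or_dvd hd with h1 | h1
  · have h2 : l ∣ s τ := Int.natCast_dvd_natCast.1 h1
    rcases h with h | h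
    · have h3 := Nat.dvd_gcd h h2
      rw [(hs.cop hne).gcd_eq_one] at h3
      exact hp.one_lt.ne' (Nat.dvd_one.1 h3)
    · exact h (h2.trans (xEB_dvd s τ))
  · exact hr l hl h1

theorem xA0_four {l : ℕ} (hp : l.Prime) (h2 : l ≠ 2) : ¬ (l : ℤ) ∣ 4 := by
  intro h
  have h1 : l ∣ 2 ^ 2 := Int.natCast_dvd_natCast.1 (by exact_mod_cast h)
  exact h2 ((Nat.prime_dvd_prime_iff_eq hp Nat.prime_two).1 (hp.dvd_of_dvd_pow h1))

theorem xA0_fin {p a b c x y z : ℤ} (hp : Prime p) (h4 : ¬ p ∣ 4) (ha : ¬ p ∣ a) (hb : ¬ p ∣ b)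
    (hc : ¬ p ∣ c) (hxy : IsCoprime x y) (h1 : p ∣ 4 * a * x ^ 2)
    (h2 : p ∣ z * a * x ^ 2 - 4 * b * c * y ^ 2) : False := by
  have hx : p ∣ x := by
    rcases hp.dvd_or_dvd h1 with h | h
    · exact ((hp.dvd_or_dvd h).elim h4 ha).elim
    · exact hp.dvd_of_dvd_pow h
  have h3 : p ∣ z * a * x ^ 2 := Dvd.dvd.mul_left (dvd_pow hx two_ne_zero) _
  have h5 : p ∣ 4 * b * c * y ^ 2 := by
    have := dvd_sub h3 h2
    rwa [sub_sub_cancel] at this
  have hy : p ∣ y := by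
    rcases hp.dvd_or_dvd h5 with h | h
    · rcases hp.dvd_or_dvd h with h | h
      · exact ((hp.dvd_or_dvd h).elim h4 hb).elim
      · exact (hc h).elim
    · exact hp.dvd_of_dvd_pow h
  exact hp.not_isUnit (hxy.isUnit_of_dvd' hx hy)

theorem FA0_pf (hFA : FA) : FA0 := by
  intro W s v hs hc hcop hr
  refine hFA W s v 0 {0, 6, 7, 10, 11}
    ![4, 0, 0, 0, 0, 0, 4 * v 2 * v 6 ^ 2, -(4 * v 3 * v 7 ^ 2), 0, 0, 4 * v 4 * v 6 ^ 2,
      -(4 * v 5 * v 7 ^ 2)] hs hc ?_ ?_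
  · intro σ hσ y
    simp only [mem_insert, mem_singleton] at hσ
    rcases hσ with rfl | rfl | rfl | rfl | rfl <;> simp [site, Function.update] <;> ring
  · intro σ hσ l hl h2 hα hsite h
    have hp : l.Prime := (P.xCW_mem.1 hl).2
    have hpi : Prime (l : ℤ) := Nat.prime_iff_prime_int.1 hp
    have h4 := xA0_four hp h2
    have hk : ∀ τ ∈ ({1, 4, 5, 8, 9} : Finset (Fin 12)), ¬ (l : ℤ) ∣ site v τ := by
      intro τ hτ
      refine xA0_key hs hc hl (σ := σ) ?_ (hr τ hτ) h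
      rintro rfl
      revert hσ hτ
      generalize σ = t
      revert t
      decide
    have n1 : ¬ (l : ℤ) ∣ v 1 := hk 1 (by decide)
    have n4 : ¬ (l : ℤ) ∣ v 4 := hk 4 (by decide)
    have n5 : ¬ (l : ℤ) ∣ v 5 := hk 5 (by decide)
    have n2 : ¬ (l : ℤ) ∣ v 2 := hk 8 (by decide)
    have n3 : ¬ (l : ℤ) ∣ v 3 := hk 9 (by decide)
    simp only [mem_insert, mem_singleton] at hσ
    rcases hσ with rfl | rfl | rfl | rfl | rfl
    · exact h4 hα
    · exact xA0_fin (z := v 0) hpi h4 n2 n3 n1 (hcop 6 9 (by decide) (by decide) (by decide))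
        hα hsite
    · refine xA0_fin (z := v 0) hpi h4 n3 n2 n1 (hcop 7 8 (by decide) (by decide) (by decide))
        (dvd_neg.1 hα) (dvd_neg.1 ?_)
      rw [neg_sub]
      exact hsite
    · exact xA0_fin (z := v 0) hpi h4 n4 n5 n1 (hcop 6 8 (by decide) (by decide) (by decide))
        hα hsite
    · refine xA0_fin (z := v 0) hpi h4 n5 n4 n1 (hcop 7 9 (by decide) (by decide) (by decide))
        (dvd_neg.1 hα) (dvd_neg.1 ?_)
      rw [neg_sub]
      exact hsite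

end Pool.Agent.MP_e23604_nt.U.CF

end
end

section

/-! The linear forms in the coordinates one to five have no local obstruction. -/

open Finset
open scoped Classical

noncomputable section

namespace Pool.Agent.MP_e23604_nt.U.CF

open P (lam PW cW Rough shp gg WW)

theorem xA2_key {W : ℕ} {s : S12} {v : V10} (hs : SOK s) (hc : Cond s v) {l : ℕ} (hl : l ∈ PW W)
    {σ τ : Fin 12} (hne : σ ≠ τ) (hr : Rough (PW W) (qq s v τ)) (h : l ∣ s σ ∨ ¬ l ∣ SP s) :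
    ¬ (l : ℤ) ∣ site v τ := by
  have hp : l.Prime := (P.xCW_mem.1 hl).2
  have e : site v τ = s τ * qq s v τ := (Int.mul_ediv_cancel' (hc.dvd hs τ)).symm
  rw [e]
  intro h1
  rcases (Nat.prime_iff_prime_int.1 hp).dvd_or_dvd h1 with h2 | h2
  · have h3 : l ∣ s τ := Int.natCast_dvd_natCast.1 h2
    rcases h with h | h
    · exact hp.ne_one (Nat.eq_one_of_dvd_coprimes (hs.cop hne) h h3)
    · exact h (h3.trans (xEB_dvd s τ))
  · exact hr l hl h2

theorem xA2_four {l : ℕ} (hp : l.Prime) (h2 : l ≠ 2) : ¬ (l : ℤ) ∣ 4 := by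
  intro h
  have h3 : l ∣ 2 ^ 2 := Int.natCast_dvd_natCast.1 h
  exact h2 ((Nat.prime_dvd_prime_iff_eq hp Nat.prime_two).1 (hp.dvd_of_dvd_pow h3))

theorem xA2_cop {l : ℕ} (hp : l.Prime) {a b : ℤ} (h : IsCoprime a b) (ha : (l : ℤ) ∣ a)
    (hb : (l : ℤ) ∣ b) : False :=
  (Nat.prime_iff_prime_int.1 hp).not_isUnit (h.isUnit_of_dvd' ha hb)

theorem xA2_one (hFA : FA) (W : ℕ) {s : S12} {v : V10} (hs : SOK s) (hc : Cond s v) (i : Fin 10)
    (σ : Fin 12) (h : ∀ w : V10, site w σ = w i) : Aff W s v i {σ} := by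
  refine hFA W s v i {σ} (fun _ => 4) hs hc (fun τ hτ y => ?_) fun τ _ l hl h2 h4 _ _ => ?_
  · rw [mem_singleton.1 hτ, h, h, Function.update_self]
  · exact xA2_four (P.xCW_mem.1 hl).2 h2 h4

theorem xA2_three {l a b c : ℤ} (hp : Prime l) (ha : ¬ l ∣ a) (hb : ¬ l ∣ b)
    (h : l ∣ a * b * c ^ 2) : l ∣ c :=
  hp.dvd_of_dvd_pow ((hp.dvd_or_dvd h).resolve_left fun h1 => (hp.dvd_or_dvd h1).elim ha hb)

theorem FA2_pf (hFA : FA) : FA2 := by
  intro W s v hs hc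
  refine ⟨fun hC hr => ?_, xA2_one hFA W hs hc _ _ fun _ => rfl,
    xA2_one hFA W hs hc _ _ fun _ => rfl, xA2_one hFA W hs hc _ _ fun _ => rfl,
    xA2_one hFA W hs hc _ _ fun _ => rfl⟩
  refine hFA W s v 2 _ (fun σ => if σ = 2 then v 4 * v 6 ^ 2 else if σ = 3 then
    4 * v 5 * v 8 ^ 2 else 4) hs hc (fun σ hσ y => ?_) fun σ hσ l hl h2 ha hb h => ?_
  · have u : ∀ j : Fin 10, j ≠ 2 → Function.update v 2 (v 2 + 4 * y) j = v j :=
      fun j hj => Function.update_of_ne hj _ _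
    have u2 : Function.update v 2 (v 2 + 4 * y) 2 = v 2 + 4 * y := Function.update_self _ _ _
    generalize Function.update v 2 (v 2 + 4 * y) = w at u u2
    simp only [mem_insert, mem_singleton] at hσ
    rcases hσ with rfl | rfl | rfl
    · have e : ∀ x : V10, site x 2 = (x 2 * x 4 * x 6 ^ 2 - x 5 * x 3 * x 7 ^ 2) / 4 :=
        fun _ => rfl
      rw [e, e, u2, u 4 (by decide), u 6 (by decide), u 5 (by decide), u 3 (by decide),
        u 7 (by decide), if_pos rfl, ← Int.add_mul_ediv_left _ _ (by norm_num : (4 : ℤ) ≠ 0)]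
      congr 1
      ring
    · have e : ∀ x : V10, site x 3 = x 2 * x 5 * x 8 ^ 2 - x 4 * x 3 * x 9 ^ 2 := fun _ => rfl
      rw [e, e, u2, u 4 (by decide), u 8 (by decide), u 5 (by decide), u 3 (by decide),
        u 9 (by decide), if_neg (by decide), if_pos rfl]
      ring
    · have e : ∀ x : V10, site x 8 = x 2 := fun _ => rfl
      rw [e, e, u2, if_neg (by decide), if_neg (by decide)]
  · have hp : l.Prime := (P.xCW_mem.1 hl).2
    have hq : Prime (l : ℤ) := Nat.prime_iff_prime_int.1 hp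
    have k : ∀ τ ∈ ({4, 5, 9} : Finset (Fin 12)), σ ≠ τ → ¬ (l : ℤ) ∣ site v τ :=
      fun τ hτ hne => xA2_key hs hc hl hne (hr τ hτ) h
    simp only [mem_insert, mem_singleton] at hσ
    rcases hσ with rfl | rfl | rfl
    · have k4 : ¬ (l : ℤ) ∣ v 4 := k 4 (by decide) (by decide)
      have k5 : ¬ (l : ℤ) ∣ v 5 := k 5 (by decide) (by decide)
      have k3 : ¬ (l : ℤ) ∣ v 3 := k 9 (by decide) (by decide)
      rw [if_pos rfl] at ha
      have h6 : (l : ℤ) ∣ v 6 := hq.dvd_of_dvd_pow ((hq.dvd_or_dvd ha).resolve_left k4)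
      have h7 : (l : ℤ) ∣ v 2 * v 4 * v 6 ^ 2 - v 5 * v 3 * v 7 ^ 2 := hc.four ▸ hb.mul_left 4
      have h8 : (l : ℤ) ∣ v 2 * v 4 * v 6 ^ 2 := (h6.pow (by norm_num)).mul_left _
      exact xA2_cop hp (hC 6 7 (by decide) (by decide) (by decide)) h6
        (xA2_three hq k5 k3 ((dvd_sub_right h8).1 h7))
    · have k4 : ¬ (l : ℤ) ∣ v 4 := k 4 (by decide) (by decide)
      have k5 : ¬ (l : ℤ) ∣ v 5 := k 5 (by decide) (by decide)
      have k3 : ¬ (l : ℤ) ∣ v 3 := k 9 (by decide) (by decide)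
      rw [if_neg (by decide), if_pos rfl] at ha
      have h6 : (l : ℤ) ∣ v 8 := xA2_three hq (xA2_four hp h2) k5 ha
      have h7 : (l : ℤ) ∣ v 2 * v 5 * v 8 ^ 2 - v 4 * v 3 * v 9 ^ 2 := hb
      have h8 : (l : ℤ) ∣ v 2 * v 5 * v 8 ^ 2 := (h6.pow (by norm_num)).mul_left _
      exact xA2_cop hp (hC 8 9 (by decide) (by decide) (by decide)) h6
        (xA2_three hq k4 k3 ((dvd_sub_right h8).1 h7))
    · rw [if_neg (by decide), if_neg (by decide)] at ha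
      exact xA2_four hp h2 ha

end Pool.Agent.MP_e23604_nt.U.CF

end
end

section

open Finset
open scoped Classical

noncomputable section

namespace Pool.Agent.MP_e23604_nt.U.CF

open P (lam PW cW Rough shp gg WW)

theorem xUnd_two (hF3 : F3) (i j : Fin 10) (σ : Fin 12) (S T : Finset (Fin 12)) (hσ : σ ∉ S)
    (hS : S.card ≤ 6) (hq : ∀ s v x, qq s (Function.update v j x) σ = qq s v σ)
    (h1 : ∀ W s v, SOK s → Cond s v → Aff W s v i {σ})
    (h2 : ∀ W s v, SOK s → Cond s v → Cop v → (∀ τ ∈ T, Rough (PW W) (qq s v τ)) →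
      Rough (PW W) (qq s v σ) → Aff W s v j S) :
    ∃ c : ℝ, 0 < c ∧ ∀ B C : ℕ, ∃ X1 : ℕ, ∀ (X : Fin 10 → ℕ) (Z W : ℕ)
      (F : S12 → V10 → ℝ), Reg X Z → X1 ≤ X 0 → W ≤ WW B (X 0) → Bnd X Z C F → Ind j F →
      Ind i F → Sup X Z W T F → c * SS X Z F - Vol X / Z ≤
        SS X Z fun s v => F s v * ∏ τ ∈ insert σ S, shp W (qq s v τ) := by
  obtain ⟨c, hc0, hc1, h⟩ := hF3
  refine ⟨c * c, mul_pos hc0 hc0, fun B C => ?_⟩
  obtain ⟨X1, hA⟩ := h B C
  obtain ⟨X2, hB⟩ := h B (C + 1)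
  obtain ⟨X3, hC⟩ := P.cW_le B
  refine ⟨max X1 (max X2 X3), fun X Z W F hR hX hW hF hj hi hT => ?_⟩
  have hG : ∀ s v, GG s v ≠ 0 → Cond s v := fun s v hg =>
    (GG_01 s v).elim (fun e => absurd e hg) fun e => e.2
  have e1 := hA X Z W F i {σ} hR ((le_max_left _ _).trans hX) hW (by simp) hF hi
    fun s hs v _ hg _ => h1 W s v (mem_SSet.1 hs).1 (hG s v hg)
  have hL : cW W ≤ Real.log (X 0) :=
    (cW_mono hW).trans (hC _ (((le_max_right _ _).trans (le_max_right _ _)).trans hX))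
  have e2 := hB X Z W (fun s v => F s v * shp W (qq s v σ)) j S hR
    (((le_max_left _ _).trans (le_max_right _ _)).trans hX) hW hS
    (fun s hs v hv => ⟨mul_nonneg (hF s hs v hv).1 (P.shp_nonneg _ _), by
      rw [pow_succ]
      exact mul_le_mul (hF s hs v hv).2 ((shp_le _ _).trans hL) (P.shp_nonneg _ _)
        ((hF s hs v hv).1.trans (hF s hs v hv).2)⟩)
    (fun s v x => by simp only [hj s v x, hq s v x])
    fun s hs v hv hg hne => by
      have hf := hT s hs v hv hg (left_ne_zero_of_mul hne)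
      refine h2 W s v (mem_SSet.1 hs).1 (hG s v hg) hf.1 hf.2 ?_
      by_contra hr
      exact right_ne_zero_of_mul hne (by rw [shp, if_neg hr])
  simp only [prod_singleton] at e1
  simp only [prod_insert hσ, ← mul_assoc]
  have hZ : (2 : ℝ) ≤ Z := by exact_mod_cast hR.z2
  have hV : 0 ≤ Vol X := prod_nonneg fun _ _ => Nat.cast_nonneg _
  have he : 0 ≤ Vol X / (Z : ℝ) ^ 2 := div_nonneg hV (sq_nonneg _)
  have h2e : 2 * (Vol X / (Z : ℝ) ^ 2) ≤ Vol X / Z := by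
    have hZ0 : (0 : ℝ) < Z := by linarith
    rw [← mul_div_assoc, div_le_div_iff₀ (by positivity) hZ0]
    nlinarith [mul_nonneg hV hZ0.le]
  have e3 := mul_le_mul_of_nonneg_left e1 hc0.le
  have e4 := mul_le_mul_of_nonneg_right hc1 he
  nlinarith

theorem CFund_pf (hF3 : F3) (hFA0 : FA0) (hFA2 : FA2) : CFund1 ∧ CFund2 := by
  constructor
  · have h := xUnd_two hF3 1 0 1 {0, 6, 7, 10, 11} {4, 5, 8, 9} (by decide) (by decide)
      (fun s v x => by simp [qq, site]) (fun W s v hs hc => (hFA2 W s v hs hc).2.1)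
      fun W s v hs hc hp hT hr => hFA0 W s v hs hc hp fun τ hτ =>
        (mem_insert.1 hτ).elim (fun e => e ▸ hr) (hT τ)
    have e : (insert 1 {0, 6, 7, 10, 11} : Finset (Fin 12)) = {0, 1, 6, 7, 10, 11} := by decide
    rw [e] at h
    exact h
  · have h := xUnd_two hF3 3 2 9 {2, 3, 8} {4, 5} (by decide) (by decide)
      (fun s v x => by simp [qq, site]) (fun W s v hs hc => (hFA2 W s v hs hc).2.2.1)
      fun W s v hs hc hp hT hr => (hFA2 W s v hs hc).1 hp fun τ hτ => by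
        simp only [mem_insert, mem_singleton] at hτ
        rcases hτ with e | e | e
        · exact hT τ (by simp [e])
        · exact hT τ (by simp [e])
        · exact e ▸ hr
    have e : (insert 9 {2, 3, 8} : Finset (Fin 12)) = {2, 3, 8, 9} := by decide
    rw [e] at h
    exact h

end Pool.Agent.MP_e23604_nt.U.CF

end
end

section

/-! Sums of periodic functions over a box. -/

open Finset
open scoped Classical

noncomputable section

namespace Pool.Agent.MP_e23604_nt.U.CF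

open P (lam PW cW Rough shp gg WW)

theorem xBox_sum (K : ℕ) (X : Fin 10 → ℕ) (f : V10 → ℝ) (hK : 1 ≤ K) (hf : Per10 K f) :
    ∑ v ∈ Box X, f v = ∑ r ∈ Fintype.piFinset fun _ : Fin 10 => Ico (0 : ℤ) K,
      f r * ∏ i, ((cl (X i) (2 * X i) K (r i)).card : ℝ) := by
  have hK0 : (0 : ℤ) < K := by exact_mod_cast hK
  rw [← sum_fiberwise_of_maps_to (s := Box X)
    (t := Fintype.piFinset fun _ : Fin 10 => Ico (0 : ℤ) K) (g := fun v i => v i % (K : ℤ))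
    (fun v _ => Fintype.mem_piFinset.2 fun i =>
      mem_Ico.2 ⟨Int.emod_nonneg _ hK0.ne', Int.emod_lt_of_pos _ hK0⟩)]
  refine sum_congr rfl fun r hr => ?_
  have h1 : ∀ i, r i % (K : ℤ) = r i := fun i =>
    Int.emod_eq_of_lt (mem_Ico.1 (Fintype.mem_piFinset.1 hr i)).1
      (mem_Ico.1 (Fintype.mem_piFinset.1 hr i)).2
  have h2 : (Box X).filter (fun v => (fun i => v i % (K : ℤ)) = r) =
      Fintype.piFinset fun i => cl (X i) (2 * X i) K (r i) := by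
    ext v
    simp only [mem_filter, Box, Fintype.mem_piFinset, cl, h1, funext_iff, forall_and]
  rw [sum_congr rfl (g := fun _ => f r) fun v hv => hf v r fun i => by
    rw [← congrFun (mem_filter.1 hv).2 i]
    exact Int.dvd_self_sub_emod, sum_const, h2, Fintype.card_piFinset, nsmul_eq_mul, mul_comm,
    Nat.cast_prod]

theorem xBox_card {K X : ℕ} (hK : 1 ≤ K) (h : 1000 * K ≤ X) (r : ℤ) :
    999 / 1000 * ((X : ℝ) / K) ≤ (cl X (2 * X) K r).card ∧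
      ((cl X (2 * X) K r).card : ℝ) ≤ 1001 / 1000 * ((X : ℝ) / K) := by
  obtain ⟨t0, n, -, h1, h2, h3⟩ := cl_image (X : ℤ) (2 * X) r (by omega) hK
  have hKr : (0 : ℝ) < K := by exact_mod_cast hK
  have h4 : (1000 : ℝ) ≤ X / K := by
    rw [le_div_iff₀ hKr]
    exact_mod_cast h
  have h5 : (((2 * X : ℤ) : ℝ) - ((X : ℤ) : ℝ)) / K = X / K := by
    push_cast
    ring
  rw [h5] at h2 h3
  rw [h1]
  constructor <;> linarith

theorem FBox_pf : FBox := by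
  intro K X f hK hf h0 hX
  have hV : ∀ c : ℝ, ∏ i, c * ((X i : ℝ) / K) = c ^ 10 * (Vol X / (K : ℝ) ^ 10) := fun c => by
    rw [prod_mul_distrib, prod_div_distrib, prod_const, prod_const, card_univ, Fintype.card_fin,
      Vol]
  have hP : 0 ≤ Vol X / (K : ℝ) ^ 10 := by
    unfold Vol
    positivity
  have h1 : ∀ c : ℝ, c * (Vol X * avg10 K f) =
      ∑ r ∈ Fintype.piFinset fun _ : Fin 10 => Ico (0 : ℤ) K,
        f r * (c * (Vol X / (K : ℝ) ^ 10)) := fun c => by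
    rw [← sum_mul, avg10]
    ring
  rw [xBox_sum K X f hK hf, h1, h1]
  constructor
  · refine sum_le_sum fun r _ => mul_le_mul_of_nonneg_left ?_ (h0 r)
    refine le_trans ?_ (prod_le_prod (fun i _ => by positivity)
      fun i _ => (xBox_card hK (hX i) (r i)).1)
    rw [hV]
    exact mul_le_mul_of_nonneg_right (by norm_num) hP
  · refine sum_le_sum fun r _ => mul_le_mul_of_nonneg_left ?_ (h0 r)
    refine (prod_le_prod (fun i _ => by positivity)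
      fun i _ => (xBox_card hK (hX i) (r i)).2).trans ?_
    rw [hV]
    exact mul_le_mul_of_nonneg_right (by norm_num) hP

end Pool.Agent.MP_e23604_nt.U.CF

end
end

section

/-!
A large common prime factor of two coordinates is rare.
-/

open Finset
open scoped Classical

noncomputable section

namespace Pool.Agent.MP_e23604_nt.U.CF

open P (lam PW cW Rough shp gg WW)

theorem xBig_cnt (X l : ℕ) (hl : 0 < l) :
    (((CSJ.II X).filter fun y => (l : ℤ) ∣ y).card : ℝ) ≤ (X : ℝ) / l + 1 := by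
  have h := card_sparse_le (X : ℤ) (2 * X) (by omega) (D := l) hl
    ((CSJ.II X).filter fun y => (l : ℤ) ∣ y) (filter_subset _ _)
    fun x hx y hy => dvd_sub (mem_filter.1 hx).2 (mem_filter.1 hy).2
  refine h.trans (le_of_eq ?_)
  push_cast
  ring

theorem xBig_om {n : ℕ} {L : ℝ} {B : ℕ} (h0 : 0 < n) (hn : n ≤ 2 * B) (hL : Real.log (2 * B) ≤ L) :
    (n.primeFactors.card : ℝ) ≤ 2 * L := by
  have h1 : 2 ^ n.primeFactors.card ≤ ∏ p ∈ n.primeFactors, p :=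
    pow_card_le_prod _ _ _ fun p hp => (Nat.prime_of_mem_primeFactors hp).two_le
  have h2 : 2 ^ n.primeFactors.card ≤ 2 * B :=
    h1.trans ((Nat.le_of_dvd h0 (Nat.prod_primeFactors_dvd n)).trans hn)
  have h3 : (2 : ℝ) ^ n.primeFactors.card ≤ 2 * B := by exact_mod_cast h2
  have h4 := Real.log_le_log (by positivity) h3
  rw [Real.log_pow] at h4
  have h5 := Real.log_two_gt_d9
  have h6 : (0 : ℝ) ≤ n.primeFactors.card := Nat.cast_nonneg _
  nlinarith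

theorem FBig_pf : FBig := by
  intro X Y i j L hij hY hYX hL
  have hj : (0 : ℝ) < X j := by exact_mod_cast (show 0 < X j by omega)
  have hY0 : (0 : ℝ) < Y := by exact_mod_cast (show 0 < Y by omega)
  have hYX' : (Y : ℝ) ≤ X j := by exact_mod_cast hYX
  rw [card_filter]
  push_cast
  refine le_of_mul_le_mul_left ?_ hj
  rw [CSJ.box_avg X j]
  have key : ∀ v ∈ Box X, ∑ t ∈ CSJ.II (X j), (if ∃ l : ℕ, l.Prime ∧ Y < l ∧
      (l : ℤ) ∣ Function.update v j t i ∧ (l : ℤ) ∣ Function.update v j t j then (1 : ℝ) else 0) ≤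
      4 * L * X j / Y := by
    intro v hv
    have hx := mem_Ioc.1 (Fintype.mem_piFinset.1 hv i)
    simp only [Function.update_self, Function.update_of_ne hij]
    have h0 : 0 < (v i).natAbs := by omega
    have h1 := xBig_om (B := X i) h0 (by omega) hL
    calc _ ≤ ∑ t ∈ CSJ.II (X j), ∑ l ∈ (v i).natAbs.primeFactors,
          (if Y < l ∧ (l : ℤ) ∣ t then (1 : ℝ) else 0) := by
          refine sum_le_sum fun t _ => ?_
          have hn : ∀ l ∈ (v i).natAbs.primeFactors,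
              0 ≤ (if Y < l ∧ (l : ℤ) ∣ t then (1 : ℝ) else 0) := fun l _ => by
            split_ifs <;> norm_num
          split_ifs with h
          · obtain ⟨l, a1, a2, a3, a4⟩ := h
            refine le_trans ?_ (single_le_sum hn
              (Nat.mem_primeFactors.2 ⟨a1, Int.natCast_dvd.1 a3, h0.ne'⟩))
            rw [if_pos ⟨a2, a4⟩]
          · exact sum_nonneg hn
      _ ≤ ∑ _l ∈ (v i).natAbs.primeFactors, 2 * (X j : ℝ) / Y := by
          rw [sum_comm]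
          refine sum_le_sum fun l _ => ?_
          by_cases h : Y < l
          · simp only [h, true_and]
            have h2 := xBig_cnt (X j) l (by omega)
            rw [card_filter] at h2
            push_cast at h2
            have h3 : (X j : ℝ) / l ≤ X j / Y :=
              div_le_div_of_nonneg_left hj.le hY0 (by exact_mod_cast h.le)
            have h4 : 1 ≤ (X j : ℝ) / Y := (one_le_div hY0).2 hYX'
            have h5 : 2 * (X j : ℝ) / Y = X j / Y + X j / Y := by ring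
            linarith
          · simp only [h, false_and, if_false, sum_const_zero]
            positivity
      _ ≤ _ := by
          rw [sum_const, nsmul_eq_mul]
          calc _ ≤ 2 * L * (2 * (X j : ℝ) / Y) := mul_le_mul_of_nonneg_right h1 (by positivity)
            _ = _ := by ring
  refine (sum_le_sum key).trans (le_of_eq ?_)
  rw [sum_const, nsmul_eq_mul, CSJ.card_Box]
  ring

end Pool.Agent.MP_e23604_nt.U.CF

end
end

section

open Finset
open scoped Classical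

noncomputable section

namespace Pool.Agent.MP_e23604_nt.U.CF

open P (lam PW cW Rough shp gg WW)

/-- The coordinate that is determined by the vanishing of a site. -/
def xLoc_j : Fin 12 → Fin 10 := ![0, 1, 2, 2, 4, 5, 0, 0, 2, 3, 0, 0]

theorem xLoc_key {F : Type} [Field F] {u u' : Fin 10 → F} {τ : Fin 12} (h : LocF u τ)
    (h' : siteF u' τ = 0) (e : ∀ k, k ≠ xLoc_j τ → u' k = u k) :
    u' (xLoc_j τ) = u (xLoc_j τ) := by
  obtain ⟨h0, h1, h2⟩ := h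
  have h6 := pow_ne_zero 2 (h2 6 (by decide))
  have h7 := pow_ne_zero 2 (h2 7 (by decide))
  have h8 := pow_ne_zero 2 (h2 8 (by decide))
  fin_cases τ
  · exact h'.trans h0.symm
  · exact h'.trans h0.symm
  · change u' 2 * u' 4 * u' 6 ^ 2 - u' 5 * u' 3 * u' 7 ^ 2 = 0 at h'
    change u 2 * u 4 * u 6 ^ 2 - u 5 * u 3 * u 7 ^ 2 = 0 at h0
    rw [e 4 (by decide), e 6 (by decide), e 5 (by decide), e 3 (by decide), e 7 (by decide)] at h'
    refine mul_right_cancel₀ (mul_ne_zero (show u 4 ≠ 0 from h1 4 (by decide)) h6) ?_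
    change u' 2 * _ = u 2 * _
    linear_combination h' - h0
  · change u' 2 * u' 5 * u' 8 ^ 2 - u' 4 * u' 3 * u' 9 ^ 2 = 0 at h'
    change u 2 * u 5 * u 8 ^ 2 - u 4 * u 3 * u 9 ^ 2 = 0 at h0
    rw [e 5 (by decide), e 8 (by decide), e 4 (by decide), e 3 (by decide), e 9 (by decide)] at h'
    refine mul_right_cancel₀ (mul_ne_zero (show u 5 ≠ 0 from h1 5 (by decide)) h8) ?_
    change u' 2 * _ = u 2 * _
    linear_combination h' - h0
  · exact h'.trans h0.symm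
  · exact h'.trans h0.symm
  · change u' 0 * u' 2 * u' 6 ^ 2 - 4 * u' 3 * u' 1 * u' 9 ^ 2 = 0 at h'
    change u 0 * u 2 * u 6 ^ 2 - 4 * u 3 * u 1 * u 9 ^ 2 = 0 at h0
    rw [e 2 (by decide), e 6 (by decide), e 3 (by decide), e 1 (by decide), e 9 (by decide)] at h'
    refine mul_right_cancel₀ (mul_ne_zero (show u 2 ≠ 0 from h1 8 (by decide)) h6) ?_
    change u' 0 * _ = u 0 * _
    linear_combination h' - h0
  · change 4 * u' 2 * u' 1 * u' 8 ^ 2 - u' 0 * u' 3 * u' 7 ^ 2 = 0 at h'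
    change 4 * u 2 * u 1 * u 8 ^ 2 - u 0 * u 3 * u 7 ^ 2 = 0 at h0
    rw [e 2 (by decide), e 1 (by decide), e 8 (by decide), e 3 (by decide), e 7 (by decide)] at h'
    refine mul_right_cancel₀ (mul_ne_zero (show u 3 ≠ 0 from h1 9 (by decide)) h7) ?_
    change u' 0 * _ = u 0 * _
    linear_combination h0 - h'
  · exact h'.trans h0.symm
  · exact h'.trans h0.symm
  · change u' 0 * u' 4 * u' 6 ^ 2 - 4 * u' 5 * u' 1 * u' 8 ^ 2 = 0 at h'
    change u 0 * u 4 * u 6 ^ 2 - 4 * u 5 * u 1 * u 8 ^ 2 = 0 at h0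
    rw [e 4 (by decide), e 6 (by decide), e 5 (by decide), e 1 (by decide), e 8 (by decide)] at h'
    refine mul_right_cancel₀ (mul_ne_zero (show u 4 ≠ 0 from h1 4 (by decide)) h6) ?_
    change u' 0 * _ = u 0 * _
    linear_combination h' - h0
  · change 4 * u' 4 * u' 1 * u' 9 ^ 2 - u' 0 * u' 5 * u' 7 ^ 2 = 0 at h'
    change 4 * u 4 * u 1 * u 9 ^ 2 - u 0 * u 5 * u 7 ^ 2 = 0 at h0
    rw [e 4 (by decide), e 1 (by decide), e 9 (by decide), e 5 (by decide), e 7 (by decide)] at h'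
    refine mul_right_cancel₀ (mul_ne_zero (show u 5 ≠ 0 from h1 5 (by decide)) h7) ?_
    change u' 0 * _ = u 0 * _
    linear_combination h0 - h'

theorem FLoc_pf : FLoc := by
  intro l _ i τ x hi
  have hj : xLoc_j τ ≠ i := by
    revert τ
    rintro τ (⟨rfl, h⟩ | ⟨rfl, h⟩) <;> revert τ <;> decide
  have hc : (univ : Finset ({k // k ≠ xLoc_j τ} → ZMod l)).card = l ^ 9 := by
    rw [card_univ, Fintype.card_fun, ZMod.card, Fintype.card_subtype_compl]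
    simp
  rw [← hc]
  refine card_le_card_of_injOn (fun w k => w k.1) (fun _ _ => mem_coe.2 (mem_univ _))
    fun w hw w' hw' e => funext fun k => ?_
  have e' : ∀ k, k ≠ xLoc_j τ → w k = w' k := fun k hk => congrFun e ⟨k, hk⟩
  by_cases hk : k = xLoc_j τ
  · have := xLoc_key (mem_filter.1 hw').2 (mem_filter.1 hw).2.1 fun k hk => by
      by_cases h : k = i
      · simp [h]
      · rw [Function.update_of_ne h, Function.update_of_ne h, e' k hk]
    rwa [Function.update_of_ne hj, Function.update_of_ne hj, ← hk] at this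
  · exact e' k hk

end Pool.Agent.MP_e23604_nt.U.CF

end
end

section

/-!
The number of points with one coordinate frozen.
-/

open Finset
open scoped Classical

noncomputable section

namespace Pool.Agent.MP_e23604_nt.U.CF

open P (lam PW cW Rough shp gg WW)

/-- The indicator of the local condition with one coordinate frozen. -/
def xCnt_f (i : Fin 10) (x : ℤ) (τ : Fin 12) (l : ℕ) (v : V10) : ℝ :=
  if h : l.Prime then
    haveI := Fact.mk h
    if LocF (Function.update (fun k => (v k : ZMod l)) i (x : ZMod l)) τ then 1 else 0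
  else 0

theorem xCnt_eq (i : Fin 10) (x : ℤ) (τ : Fin 12) (l : ℕ) [h : Fact l.Prime] (v : V10) :
    xCnt_f i x τ l v =
      if LocF (Function.update (fun k => (v k : ZMod l)) i (x : ZMod l)) τ then 1 else 0 := by
  unfold xCnt_f
  rw [dif_pos h.out]

theorem xCnt_nonneg (i : Fin 10) (x : ℤ) (τ : Fin 12) (l : ℕ) (v : V10) :
    0 ≤ xCnt_f i x τ l v := by
  unfold xCnt_f
  split_ifs <;> norm_num

theorem xCnt_per (i : Fin 10) (x : ℤ) (τ : Fin 12) (l : ℕ) (hl : l.Prime) :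
    Per10 l (xCnt_f i x τ l) := by
  intro v v' hv
  have := Fact.mk hl
  have e : (fun k => (v k : ZMod l)) = fun k => (v' k : ZMod l) := funext fun k =>
    ((ZMod.intCast_eq_intCast_iff_dvd_sub _ _ _).2 (hv k)).symm
  rw [xCnt_eq, xCnt_eq, e]

theorem xCnt_avg (hFLoc : FLoc) (i : Fin 10) (x : ℤ) (τ : Fin 12) (l : ℕ) (hl : l.Prime)
    (h : i = 4 ∧ τ ≠ 4 ∨ i = 5 ∧ τ ≠ 5) : avg10 l (xCnt_f i x τ l) ≤ 1 / (l : ℝ) := by
  have := Fact.mk hl
  have e : xCnt_f i x τ l = fun v => (fun w : Fin 10 → ZMod l =>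
      if LocF (Function.update w i (x : ZMod l)) τ then (1 : ℝ) else 0) fun k => (v k : ZMod l) :=
    funext fun v => xCnt_eq i x τ l v
  have h1 := DAvgJ.one l fun w : Fin 10 → ZMod l =>
    if LocF (Function.update w i (x : ZMod l)) τ then (1 : ℝ) else 0
  rw [e, h1, sum_boole]
  have h2 := hFLoc l i τ (x : ZMod l) h
  have h3 : (((univ.filter fun w : Fin 10 → ZMod l =>
      LocF (Function.update w i (x : ZMod l)) τ).card : ℕ) : ℝ) ≤ (l : ℝ) ^ 9 := by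
    exact_mod_cast h2
  have h4 : (0 : ℝ) < l := by exact_mod_cast hl.pos
  rw [div_le_div_iff₀ (by positivity) h4]
  calc _ ≤ (l : ℝ) ^ 9 * l := by gcongr
    _ = _ := by ring

theorem xCnt_avg0 (K : ℕ) (f : V10 → ℝ) (h : ∀ v, 0 ≤ f v) : 0 ≤ avg10 K f :=
  div_nonneg (sum_nonneg fun v _ => h v) (by positivity)

theorem xCnt_one {s : S12} (hs : SOK s) {v : V10} {i : Fin 10} {x : ℤ}
    (h : Cond s (Function.update v i x)) {l : ℕ} (hl : l ∈ PS s) :
    xCnt_f i x (st s l) l v = 1 := by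
  have := Fact.mk (Nat.prime_of_mem_primeFactors hl)
  have h1 := ((DRedJ.red l (xEB_ne hs hl) _ h.1 (st s l)).1).1 (h.2 l hl)
  have e : (fun k => ((Function.update v i x k : ℤ) : ZMod l)) =
      Function.update (fun k => (v k : ZMod l)) i (x : ZMod l) := by
    funext k
    by_cases hk : k = i
    · subst hk
      simp
    · simp [Function.update_of_ne hk]
  rw [e] at h1
  rw [xCnt_eq, if_pos h1]

theorem xCnt_st {s : S12} {l : ℕ} (hl : l ∈ PS s) : l ∣ s (st s l) := by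
  have hp := Nat.prime_of_mem_primeFactors hl
  have he : ∃ σ, l ∣ s σ := by
    obtain ⟨σ, -, h⟩ := (Prime.dvd_finsetProd_iff hp.prime _).1 (Nat.dvd_of_mem_primeFactors hl)
    exact ⟨σ, h⟩
  rw [st, dif_pos he]
  exact he.choose_spec

theorem xCnt_prod {s : S12} (hs : SOK s) (σ : Fin 12) :
    (∏ l ∈ (PS s).filter (fun l => ¬ l ∣ s σ), l) * s σ = SP s := by
  have h1 : (PS s).filter (fun l => l ∣ s σ) = (s σ).primeFactors := by
    ext l
    rw [mem_filter, Nat.mem_primeFactors]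
    constructor
    · rintro ⟨h1, h2⟩
      exact ⟨Nat.prime_of_mem_primeFactors h1, h2, by have := hs.pos σ; omega⟩
    · rintro ⟨h1, h2, -⟩
      exact ⟨xEB_mem hs h1 h2, h2⟩
  have h2 := prod_filter_mul_prod_filter_not (PS s) (fun l => l ∣ s σ) fun l => l
  rw [h1, Nat.prod_primeFactors_of_squarefree (hs.1.squarefree_of_dvd (xEB_dvd s σ))] at h2
  rw [mul_comm, h2]
  exact Nat.prod_primeFactors_of_squarefree hs.1

theorem xCnt_pow {Z n : ℕ} (h : 2 ≤ Z) (hn : 11 ≤ n) : 1000 * Z ≤ Z ^ n := by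
  have h1 : 2 ^ 10 ≤ Z ^ 10 := Nat.pow_le_pow_left h 10
  have h2 : Z ^ 11 ≤ Z ^ n := Nat.pow_le_pow_right (by omega) hn
  calc 1000 * Z ≤ Z ^ 10 * Z := Nat.mul_le_mul_right _ (le_trans (by norm_num) h1)
    _ = Z ^ 11 := (pow_succ Z 10).symm
    _ ≤ _ := h2

theorem FCnt_pf (hFBox : FBox) (hFLoc : FLoc) : FCnt := by
  intro X Z hR s hsZ i σ x hi
  obtain ⟨hs, hZ⟩ := mem_SSet.1 hsZ
  set I := (PS s).filter (fun l => ¬ l ∣ s σ) with hI
  have hp : ∀ l ∈ I, l.Prime := fun l hl => Nat.prime_of_mem_primeFactors (mem_filter.1 hl).1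
  have hK := xCnt_prod hs σ
  rw [← hI] at hK
  have hK1 : 1 ≤ ∏ l ∈ I, l := one_le_prod' fun l hl => (hp l hl).one_le
  have hKZ : ∏ l ∈ I, l ≤ Z :=
    le_trans (hK ▸ Nat.le_mul_of_pos_right _ (hs.pos σ)) hZ
  have hX : ∀ k, 1000 * ∏ l ∈ I, l ≤ X k := fun k =>
    (Nat.mul_le_mul_left _ hKZ).trans ((xCnt_pow hR.z2 (by norm_num)).trans (hR.sizes.1 k))
  have hper : ∀ l ∈ I, Per10 l (xCnt_f i x (st s l) l) := fun l hl => xCnt_per _ _ _ _ (hp l hl)
  have h1 := (hFBox (∏ l ∈ I, l) X (fun v => ∏ l ∈ I, xCnt_f i x (st s l) l v) hK1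
    (DAvgJ.per (K := fun l => l) hper)
    (fun v => prod_nonneg fun l _ => xCnt_nonneg _ _ _ _ _) hX).2
  have h2 := dAvg.2 I (fun l => l) (fun l => xCnt_f i x (st s l) l)
    (fun l hl => ⟨(hp l hl).one_le, hper l hl⟩)
    (fun l hl l' hl' hne => (Nat.coprime_primes (hp l hl) (hp l' hl')).2 hne)
  have h3 : ∏ l ∈ I, avg10 l (xCnt_f i x (st s l) l) ≤ ∏ l ∈ I, 1 / (l : ℝ) := by
    refine prod_le_prod (fun l _ => xCnt_avg0 _ _ fun v => xCnt_nonneg _ _ _ _ _) fun l hl => ?_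
    have hne : st s l ≠ σ := fun e => (mem_filter.1 hl).2 (e ▸ xCnt_st (mem_filter.1 hl).1)
    refine xCnt_avg hFLoc i x _ l (hp l hl) ?_
    rcases hi with ⟨a, b⟩ | ⟨a, b⟩
    · exact Or.inl ⟨a, b ▸ hne⟩
    · exact Or.inr ⟨a, b ▸ hne⟩
  have h4 : ∏ l ∈ I, 1 / (l : ℝ) = (s σ : ℝ) / SP s := by
    have e : ((∏ l ∈ I, l : ℕ) : ℝ) * s σ = SP s := by exact_mod_cast hK
    have p1 : (0 : ℝ) < ((∏ l ∈ I, l : ℕ) : ℝ) := by exact_mod_cast hK1
    have p2 : (0 : ℝ) < s σ := by exact_mod_cast hs.pos σ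
    rw [prod_div_distrib, prod_const_one, ← Nat.cast_prod, ← e]
    field_simp
  have h5 : (((Box X).filter fun v => Cond s (Function.update v i x)).card : ℝ) ≤
      ∑ v ∈ Box X, ∏ l ∈ I, xCnt_f i x (st s l) l v := by
    rw [card_filter]
    push_cast
    refine sum_le_sum fun v _ => ?_
    split_ifs with h
    · exact le_of_eq (prod_eq_one fun l hl => xCnt_one hs h (mem_filter.1 hl).1).symm
    · exact prod_nonneg fun l _ => xCnt_nonneg _ _ _ _ _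
  have hV : 0 ≤ Vol X := prod_nonneg fun k _ => Nat.cast_nonneg _
  rw [h2] at h1
  rw [h4] at h3
  have h6 : Vol X * ∏ l ∈ I, avg10 l (xCnt_f i x (st s l) l) ≤ Vol X * ((s σ : ℝ) / SP s) :=
    mul_le_mul_of_nonneg_left h3 hV
  have h7 : 0 ≤ Vol X * ((s σ : ℝ) / SP s) := by positivity
  have h8 : 2 * Vol X * s σ / SP s = 2 * (Vol X * ((s σ : ℝ) / SP s)) := by ring
  linarith

end Pool.Agent.MP_e23604_nt.U.CF

end
end

section

/-!
The weights of the small parts whose period is divisible by `d`.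
-/

open Finset
open scoped Classical

noncomputable section

namespace Pool.Agent.MP_e23604_nt.U.CF

open P (lam PW cW Rough shp gg WW)

theorem xWt_le (d : ℕ) (hd : 1 ≤ d) (s : S12) (h : d ∣ KK s) :
    d ≤ (2 * ∑ σ, Nat.gcd d (s σ)) ^ 12 := by
  have h1 : d ∣ Nat.gcd d 80 * ∏ σ, Nat.gcd d (s σ) := by
    have h2 : Nat.gcd d (80 * ∏ σ, s σ) = d := Nat.gcd_eq_left h
    calc d = Nat.gcd d (80 * ∏ σ, s σ) := h2.symm
      _ ∣ Nat.gcd d 80 * Nat.gcd d (∏ σ, s σ) := gcd_mul_dvd_mul_gcd d _ _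
      _ ∣ _ := Nat.mul_dvd_mul_left _ (P.xWeight_gcd d univ s)
  have p : ∀ x, 0 < Nat.gcd d x := fun x => Nat.gcd_pos_of_pos_left _ hd
  have h3 := Nat.le_of_dvd (mul_pos (p 80) (prod_pos fun σ _ => p (s σ))) h1
  have h4 : ∏ σ, Nat.gcd d (s σ) ≤ (∑ σ, Nat.gcd d (s σ)) ^ 12 := by
    have := prod_le_pow_card univ (fun σ => Nat.gcd d (s σ)) (∑ σ, Nat.gcd d (s σ))
      fun σ hσ => single_le_sum (f := fun σ => Nat.gcd d (s σ)) (fun _ _ => Nat.zero_le _) hσ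
    simpa using this
  have h5 : Nat.gcd d 80 ≤ 2 ^ 12 := (Nat.gcd_le_right d (by norm_num)).trans (by norm_num)
  rw [mul_pow]
  exact h3.trans (Nat.mul_le_mul h5 h4)

theorem FWt_pf (hE2c : E2c) : FWt := by
  obtain ⟨C, hC1, hC⟩ := Pool.Agent.MP_2a1f0e_nt.divisor_bound (ε := 1 / 48) (by norm_num)
  refine ⟨⌈(24 * C) ^ 48⌉₊, 1 / 24, by norm_num, fun Z hZ d hd => ?_⟩
  have h24 : (1 : ℝ) ≤ 24 * C := by linarith
  have hdR : (24 * C) ^ 48 ≤ (d : ℝ) := (Nat.le_ceil _).trans (by exact_mod_cast hd)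
  have hd1R : (1 : ℝ) ≤ d := (one_le_pow₀ h24).trans hdR
  have hd1 : 1 ≤ d := by exact_mod_cast hd1R
  have hd0 : (0 : ℝ) < d := by linarith
  set r : ℝ := (d : ℝ) ^ (1 / 48 : ℝ) with hr
  have hr0 : 0 < r := Real.rpow_pos_of_pos hd0 _
  have hr48 : r ^ 48 = d := by
    rw [hr, ← Real.rpow_natCast, ← Real.rpow_mul hd0.le]
    norm_num
  have hr2 : (d : ℝ) ^ (-(1 / 24 : ℝ)) = (r ^ 2)⁻¹ := by
    rw [Real.rpow_neg hd0.le, hr, ← Real.rpow_natCast, ← Real.rpow_mul hd0.le]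
    norm_num
  have hCr : 24 * C ≤ r := by
    refine le_of_pow_le_pow_left₀ (n := 48) (by norm_num) hr0.le ?_
    rw [hr48]
    exact hdR
  have hL : 0 ≤ (1 + Real.log Z) ^ 12 := by positivity
  have hcard : (d.divisors.card : ℝ) ≤ C * r := hC d
  have hpt : ∀ s ∈ (SSet Z).filter (fun s => d ∣ KK s),
      (1 : ℝ) / SP s ≤ 2 / r ^ 4 * ∑ σ, (Nat.gcd d (s σ) : ℝ) / SP s := by
    intro s hs
    have h1 := xWt_le d hd1 s (mem_filter.1 hs).2
    have h2 : r ^ 4 ≤ 2 * ∑ σ, (Nat.gcd d (s σ) : ℝ) := by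
      refine le_of_pow_le_pow_left₀ (n := 12) (by norm_num) (by positivity) ?_
      rw [← pow_mul, show 4 * 12 = 48 from rfl, hr48]
      exact_mod_cast h1
    rw [← sum_div, ← mul_div_assoc]
    refine div_le_div_of_nonneg_right ?_ (Nat.cast_nonneg _)
    rw [div_mul_eq_mul_div, le_div_iff₀ (by positivity), one_mul]
    exact h2
  calc _ ≤ ∑ s ∈ (SSet Z).filter (fun s => d ∣ KK s),
        2 / r ^ 4 * ∑ σ, (Nat.gcd d (s σ) : ℝ) / SP s := sum_le_sum hpt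
    _ ≤ ∑ s ∈ SSet Z, 2 / r ^ 4 * ∑ σ, (Nat.gcd d (s σ) : ℝ) / SP s :=
        sum_le_sum_of_subset_of_nonneg (filter_subset _ _) fun _ _ _ => by positivity
    _ = 2 / r ^ 4 * ∑ σ : Fin 12, ∑ s ∈ SSet Z, (Nat.gcd d (s σ) : ℝ) / SP s := by
        rw [← mul_sum, sum_comm]
    _ ≤ 2 / r ^ 4 * ∑ _σ : Fin 12, C * r * (1 + Real.log Z) ^ 12 := by
        refine mul_le_mul_of_nonneg_left (sum_le_sum fun σ _ => ?_) (by positivity)
        exact ((hE2c Z hZ).2 d σ hd1).2.trans (mul_le_mul_of_nonneg_right hcard hL)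
    _ = (1 + Real.log Z) ^ 12 * ((24 * C) / r * (r ^ 2)⁻¹) := by
        rw [sum_const, card_univ, Fintype.card_fin, nsmul_eq_mul]
        push_cast
        field_simp
        ring
    _ ≤ _ := by
        rw [hr2]
        refine mul_le_mul_of_nonneg_left ?_ hL
        refine mul_le_of_le_one_left (by positivity) ?_
        rwa [div_le_one hr0]

end Pool.Agent.MP_e23604_nt.U.CF

end
end

section

/-!
A family of periodic weights in one variable.
-/

open Finset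
open scoped Classical

noncomputable section

namespace Pool.Agent.MP_e23604_nt.U.CF

open P (lam PW cW Rough shp gg WW)

def xV_dat (X m K : ℕ) (ρ : ℝ) (Φ : ℤ → ℝ) : P.Datum where
  A1 := X
  A2 := 2 * X
  B1 := 0
  B2 := 1
  α := 1
  β := 0
  α' := 0
  β' := 1
  m := m
  m' := 1
  K0 := K
  t0 := 1
  F := fun x _ => Φ x / ρ

theorem xV_det (X m K : ℕ) (ρ : ℝ) (Φ : ℤ → ℝ) : (xV_dat X m K ρ Φ).det = 1 := by
  simp [P.Datum.det, xV_dat]

theorem xV_K (X m K : ℕ) (ρ : ℝ) (Φ : ℤ → ℝ) : (xV_dat X m K ρ Φ).K = K := by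
  rw [P.Datum.K, xV_det]
  simp [xV_dat]

theorem xV_bx {X m K : ℕ} {ρ : ℝ} {Φ : ℤ → ℝ} {z : ℤ × ℤ} :
    z ∈ (xV_dat X m K ρ Φ).bx ↔ ((X : ℤ) < z.1 ∧ z.1 ≤ 2 * X) ∧ z.2 = 1 := by
  simp only [P.Datum.bx, xV_dat, mem_product, mem_Ioc]
  omega

theorem xV_l (X m K : ℕ) (ρ : ℝ) (Φ : ℤ → ℝ) (z : ℤ × ℤ) :
    (xV_dat X m K ρ Φ).l z = z.1 ∧ (xV_dat X m K ρ Φ).l' z = z.2 := by
  simp [P.Datum.l, P.Datum.l', xV_dat]

theorem xV_bd {ρ : ℝ} {Φ : ℤ → ℝ} (hρ : 0 < ρ) (hb : ∀ x, |Φ x| ≤ ρ) (x : ℤ) : |Φ x / ρ| ≤ 1 := by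
  rw [abs_div, abs_of_pos hρ, div_le_one hρ]
  exact hb x

theorem xV_ok {X m K : ℕ} {ρ : ℝ} {Φ : ℤ → ℝ} (hX : 1 ≤ X) (hρ : 0 < ρ) (hm : 1 ≤ m) (hK : 1 ≤ K)
    (hb : ∀ x, |Φ x| ≤ ρ) (hp : ∀ x, Φ (x + K) = Φ x) (hd : ∀ x, Φ x ≠ 0 → (m : ℤ) ∣ x) :
    (xV_dat X m K ρ Φ).OK (2 * X) 1 where
  cop := isCoprime_one_left
  det := by rw [xV_det]; exact one_ne_zero
  m_pos := hm
  m'_pos := le_rfl
  K0_pos := hK
  t0_pos := le_rfl
  bd := fun x _ => xV_bd hρ hb x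
  per := fun x _ => ⟨congrArg (· / ρ) (hp x), rfl⟩
  dvd := fun x y h => by
    rw [(xV_l X m K ρ Φ _).1]
    refine ⟨hd x fun e => h ?_, one_dvd _⟩
    show Φ x / ρ = 0
    rw [e, zero_div]
  sparse := fun _ _ _ _ _ => one_dvd _
  rng := fun z hz => by
    obtain ⟨⟨h1, h2⟩, h3⟩ := xV_bx.1 hz
    rw [(xV_l X m K ρ Φ _).1, (xV_l X m K ρ Φ _).2, h3]
    have h4 : (1 : ℝ) ≤ X := by exact_mod_cast hX
    refine ⟨by omega, by exact_mod_cast h2, one_pos, ?_⟩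
    push_cast
    linarith
  len := fun z hz t ht => by
    have h1 := (xV_bx.1 hz).2
    have h2 : z.2 - t * 1 = 1 := (xV_bx.1 ht).2
    have h3 : t = 0 := by omega
    simp [h3]

theorem xV_T (X m K : ℕ) {ρ : ℝ} (hρ : 0 < ρ) (Φ g : ℤ → ℝ) :
    ρ * |(xV_dat X m K ρ Φ).T g fun u => if u = 1 then 1 else 0| =
      |∑ x ∈ Ioc (X : ℤ) (2 * X), Φ x * g (x / (m : ℤ))| := by
  have e : (xV_dat X m K ρ Φ).bx = Ioc (X : ℤ) (2 * X) ×ˢ {1} := by
    ext z
    rw [xV_bx, mem_product, mem_Ioc, mem_singleton]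
  rw [P.Datum.T, e, sum_product, ← abs_of_pos hρ, ← abs_mul, abs_of_pos hρ, mul_sum]
  congr 1
  refine sum_congr rfl fun x _ => ?_
  rw [sum_singleton, (xV_l X m K ρ Φ _).1, (xV_l X m K ρ Φ _).2]
  simp only [xV_dat]
  simp
  field_simp

theorem xV_mass {X m K H : ℕ} {ρ : ℝ} {Φ : ℤ → ℝ} (hρ : 0 < ρ) (hm : 1 ≤ m) (hH : 1 ≤ H)
    (hX : H * m ≤ X) (hb : ∀ x, |Φ x| ≤ ρ) (hd : ∀ x, Φ x ≠ 0 → (m : ℤ) ∣ x) :
    (xV_dat X m K ρ Φ).mass ((xV_dat X m K ρ Φ).nr (2 * X) H) ≤ 8 * X / H / m := by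
  have hH' : (0 : ℝ) < H := by exact_mod_cast hH
  have hm' : (1 : ℝ) ≤ m := by exact_mod_cast hm
  have hX' : (H : ℝ) * m ≤ X := by exact_mod_cast hX
  obtain ⟨η, hη⟩ : ∃ η : ℝ, η = 2 * X / H := ⟨_, rfl⟩
  have e : (xV_dat X m K ρ Φ).nr (2 * X) H = (xV_dat X m K ρ Φ).near η 0 := by
    rw [P.Datum.nr, xV_det, hη]
    simp [xV_dat]
  have h0 : 0 ≤ η := by rw [hη]; positivity
  have h1 : 2 * m ≤ η := by
    rw [hη, le_div_iff₀ hH']
    linarith
  have n0 : 0 ≤ ⌈η⌉ := Int.ceil_nonneg h0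
  have n1 := Int.le_ceil η
  have n2 := Int.ceil_lt_add_one η
  rw [e, P.Datum.mass, ← sum_filter_ne_zero]
  have hs : ((xV_dat X m K ρ Φ).near η 0).filter (fun z => |(xV_dat X m K ρ Φ).F z.1 z.2| ≠ 0) ⊆
      (cl X (X + ⌈η⌉) m 0 ∪ cl (2 * X - ⌈η⌉) (2 * X) m 0) ×ˢ {1} := by
    intro z hz
    obtain ⟨h2, h3⟩ := mem_filter.1 hz
    obtain ⟨h4, h5⟩ := mem_filter.1 h2
    obtain ⟨⟨h6, h7⟩, h8⟩ := xV_bx.1 h4
    have h9 : (m : ℤ) ∣ z.1 - 0 := by
      rw [sub_zero]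
      refine hd _ fun e => h3 ?_
      show |Φ z.1 / ρ| = 0
      rw [e, zero_div, abs_zero]
    refine mem_product.2 ⟨mem_union.2 ?_, mem_singleton.2 h8⟩
    rw [h8] at h5
    simp only [xV_dat] at h5
    push_cast at h5
    rcases h5 with h5 | h5 | h5 | h5
    · refine Or.inl (mem_cl.2 ⟨h6, ?_, h9⟩)
      have : (z.1 : ℝ) ≤ X + ⌈η⌉ := by linarith
      exact_mod_cast this
    · refine Or.inr (mem_cl.2 ⟨?_, h7, h9⟩)
      have : 2 * (X : ℝ) - ⌈η⌉ < z.1 := by linarith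
      exact_mod_cast this
    · linarith
    · linarith
  have c1 := (xLB2_card X (X + ⌈η⌉) 0 (by omega) hm).2
  have c2 := (xLB2_card (2 * X - ⌈η⌉) (2 * X) 0 (by omega) hm).2
  have c3 := (card_le_card hs).trans
    ((card_product _ _).trans_le (Nat.mul_le_mul (card_union_le _ _) (card_singleton _).le))
  have c4 : (((((xV_dat X m K ρ Φ).near η 0).filter
      (fun z => |(xV_dat X m K ρ Φ).F z.1 z.2| ≠ 0)).card : ℕ) : ℝ) ≤
      (cl X (X + ⌈η⌉) m 0).card + (cl (2 * X - ⌈η⌉) (2 * X) m 0).card := by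
    rw [mul_one] at c3
    exact_mod_cast c3
  refine (sum_le_card_nsmul _ _ 1 fun z _ => xV_bd hρ hb z.1).trans ?_
  rw [nsmul_eq_mul, mul_one]
  refine c4.trans ((add_le_add c1 c2).trans ?_)
  push_cast
  have e2 : 8 * (X : ℝ) / H = 4 * η := by rw [hη]; ring
  have hm0 : (0 : ℝ) < m := by linarith
  rw [e2, le_div_iff₀ hm0]
  field_simp
  linarith

theorem xV_wt {W X : ℕ} (h : 1 ≤ Real.log X) : P.Wt W X fun u => if u = 1 then 1 else 0 := by
  refine ⟨fun u _ _ => ?_, fun u hu _ q hq hd => ?_⟩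
  · dsimp only
    split_ifs
    · rw [abs_one]
      linarith
    · rw [abs_zero]
      linarith
  · have h1 : u = 1 := by
      by_contra h2
      exact hu (if_neg h2)
    rw [h1] at hd
    exact (P.xCW_mem.1 hq).2.one_lt.ne' (Nat.dvd_one.1 (by exact_mod_cast hd))

theorem FV_pf (hECore : ECore) : FV := by
  intro A c d0 κ hκ
  obtain ⟨B0, hB⟩ := hECore (A + 1) (A + c + 5) c d0 κ hκ
  refine ⟨B0, fun B hB0 => ?_⟩
  obtain ⟨X1, h1⟩ := hB B hB0
  obtain ⟨X2, h2⟩ := P.log_pow_le (A + c + 5) 2 12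
  refine ⟨max (max X1 X2) 2, fun X hX ι Pi m K ρ Φ Ω hΩ hP hs hd => ?_⟩
  have hX2 : 2 ≤ X := le_of_max_le_right hX
  have hXr : (2 : ℝ) ≤ X := by exact_mod_cast hX2
  obtain ⟨hL, h3⟩ := h2 X (le_of_max_le_right (le_of_max_le_left hX))
  have key := h1 X (le_of_max_le_left (le_of_max_le_left hX)) ι Pi
    (fun π => xV_dat X (m π) (K π) (ρ π) (Φ π)) ρ Ω (2 * X) 1 ⌈Real.log X ^ (A + c + 4)⌉₊
    (fun u => if u = 1 then 1 else 0)
  have hW := xV_wt (W := WW B X) (X := X) (by linarith)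
  generalize Real.log X = L at *
  have L1 : 1 ≤ L := by linarith
  have L0 : 0 < L := by linarith
  have p1 : 1 ≤ L ^ (A + c + 4) := one_le_pow₀ L1
  have H1 := Nat.le_ceil (L ^ (A + c + 4))
  have H2 := Nat.ceil_lt_add_one (zero_le_one.trans p1)
  generalize ⌈L ^ (A + c + 4)⌉₊ = H at *
  have H3 : (H : ℝ) ≤ L ^ (A + c + 5) := by
    rw [pow_succ]
    nlinarith
  have H4 : 1 ≤ H := by
    have := p1.trans H1
    exact_mod_cast this
  have H5 : H ^ 2 ≤ X := by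
    have : (H : ℝ) ^ 2 ≤ X := le_trans (pow_le_pow_left₀ (Nat.cast_nonneg _)
      (by linarith [pow_pos L0 (A + c + 5)]) 2) h3
    exact_mod_cast this
  have H6 : ∀ π ∈ Pi, H * m π ≤ X := fun π hπ => by
    obtain ⟨-, a1, -, a2, -⟩ := hP π hπ
    have a3 : m π ^ 2 ≤ X := (Nat.pow_le_pow_right a1 (by norm_num)).trans a2
    refine (Nat.pow_le_pow_iff_left two_ne_zero).1 ?_
    rw [mul_pow, sq X]
    exact Nat.mul_le_mul H5 a3
  have e0 : ∀ π, ((xV_dat X (m π) (K π) (ρ π) (Φ π)).m : ℝ) *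
      (xV_dat X (m π) (K π) (ρ π) (Φ π)).t0 = m π := fun π => by simp [xV_dat]
  simp only [e0, xV_K] at key
  have k2 := key (by linarith) (by nlinarith) zero_le_one hΩ (fun π hπ => (hP π hπ).1.le)
    (fun π hπ => by
      obtain ⟨a1, a2, a3, a4, a5, a6, a7, a8⟩ := hP π hπ
      exact ⟨xV_ok (by omega) a1 a2 a3 a6 a7 a8, a4, a5, by simp [xV_dat]⟩) hs hd H4 H3 hW
  rw [sum_congr rfl fun π hπ => xV_T X (m π) (K π) (hP π hπ).1 (Φ π) _] at k2
  refine k2.trans ?_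
  have hH : (0 : ℝ) < H := by exact_mod_cast H4
  have k3 : ∑ π ∈ Pi, ρ π * (xV_dat X (m π) (K π) (ρ π) (Φ π)).mass
      ((xV_dat X (m π) (K π) (ρ π) (Φ π)).nr (2 * X) H) ≤ 8 * X / H * (Ω * L ^ c) := by
    refine le_trans ?_ (mul_le_mul_of_nonneg_left hs (by positivity))
    rw [mul_sum]
    refine sum_le_sum fun π hπ => ?_
    obtain ⟨a1, a2, -, -, -, a6, -, a8⟩ := hP π hπ
    refine (mul_le_mul_of_nonneg_left (xV_mass a1 a2 H4 (H6 π hπ) a6 a8) a1.le).trans_eq ?_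
    ring
  have k4 : 8 * (X : ℝ) / H ≤ 8 * X / L ^ (A + c + 4) := by gcongr
  have k5 := k3.trans (mul_le_mul_of_nonneg_right k4 (by positivity))
  refine (add_le_add le_rfl (mul_le_mul_of_nonneg_left k5 (by positivity))).trans ?_
  have e1 : 2 * (X : ℝ) * 1 * Ω / L ^ (A + 1) + 9 * L ^ 2 * (8 * X / L ^ (A + c + 4) * (Ω * L ^ c)) =
      X * Ω / L ^ A * ((2 * L + 72) / L ^ 2) := by
    field_simp
    ring
  rw [e1]
  refine mul_le_of_le_one_right (by positivity) ?_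
  rw [div_le_one (by positivity)]
  nlinarith

end Pool.Agent.MP_e23604_nt.U.CF

end
end

section

/-!
Dropping the coprimality with the two prime coordinates.
-/

open Finset
open scoped Classical

noncomputable section

namespace Pool.Agent.MP_e23604_nt.U.CF

open P (lam PW cW Rough shp gg WW)

theorem xDrop_two {X : Fin 10 → ℕ} {Z : ℕ} (hR : Reg X Z) (i : Fin 10) (hi : 2 ≤ i.val) :
    Z ^ 21 ≤ X i ∧ 2 ≤ X i ∧ 2 * X i ≤ X 0 := by
  obtain ⟨h1, h2, -⟩ := hR.sizes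
  have hZ : 1 ≤ Z := le_trans (by norm_num) hR.z2
  have h3 : Z ^ 21 ≤ X i := (Nat.pow_le_pow_right hZ (by norm_num)).trans (h1 i)
  have h4 : 2 ≤ X i := hR.z2.trans ((Nat.le_self_pow (by norm_num) Z).trans h3)
  refine ⟨h3, h4, le_trans ?_ (h2 i hi)⟩
  calc 2 * X i ≤ X i * X i := Nat.mul_le_mul_right _ h4
    _ = X i ^ 2 := (sq _).symm
    _ ≤ _ := Nat.pow_le_pow_right (by omega) (by norm_num)

theorem xDrop_lam {X : Fin 10 → ℕ} {Z : ℕ} (hR : Reg X Z) (s : S12) {v : V10} (hv : v ∈ Box X)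
    (i : Fin 10) (hi : 2 ≤ i.val) (σ : Fin 12) (e : site v σ = v i) :
    lam (qq s v σ) ≤ Real.log (X 0) := by
  obtain ⟨-, h1, h2⟩ := xDrop_two hR i hi
  obtain ⟨h3, h4⟩ := mem_Ioc.1 (Fintype.mem_piFinset.1 hv i)
  unfold lam
  split_ifs with h
  · have h5 : 0 < qq s v σ := by
      have := h.pos
      omega
    have h6 : qq s v σ ≤ X 0 := by
      unfold qq
      rw [e]
      have := Int.ediv_le_self (s σ : ℤ) (show 0 ≤ v i by omega)
      omega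
    exact Real.log_le_log (by exact_mod_cast h5) (by exact_mod_cast h6)
  · exact Real.log_natCast_nonneg _

theorem xDrop_big {X : Fin 10 → ℕ} {Z : ℕ} (hR : Reg X Z) {s : S12} (hs : s ∈ SSet Z) {v : V10}
    (hv : v ∈ Box X) (hc : Cond s v) (i : Fin 10) (hi : 2 ≤ i.val) (σ : Fin 12)
    (e : site v σ = v i) (hq : lam (qq s v σ) ≠ 0) (j : Fin 10) (hj : 6 ≤ j.val)
    (hn : ¬ IsCoprime (v i) (v j)) :
    ∃ l : ℕ, l.Prime ∧ Z ^ 20 < l ∧ (l : ℤ) ∣ v i ∧ (l : ℤ) ∣ v j := by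
  obtain ⟨h0, h1, -⟩ := xDrop_two hR i hi
  obtain ⟨h3, -⟩ := mem_Ioc.1 (Fintype.mem_piFinset.1 hv i)
  obtain ⟨s1, s2⟩ := mem_SSet.1 hs
  have hp : (qq s v σ).toNat.Prime := by
    by_contra h
    exact hq (if_neg h)
  rw [Int.isCoprime_iff_gcd_eq_one] at hn
  obtain ⟨l, l1, l2, l3⟩ := Nat.Prime.not_coprime_iff_dvd.1 hn
  have l2' : (l : ℤ) ∣ v i := Int.natCast_dvd.2 l2
  have l3' : (l : ℤ) ∣ v j := Int.natCast_dvd.2 l3
  refine ⟨l, l1, ?_, l2', l3'⟩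
  have h5 : 0 < qq s v σ := by
    have := hp.pos
    omega
  obtain ⟨q, hq'⟩ := Int.eq_ofNat_of_zero_le h5.le
  have h6 : v i = ((s σ * q : ℕ) : ℤ) := by
    rw [Nat.cast_mul, ← hq', ← e]
    exact (Int.mul_ediv_cancel' (hc.dvd s1 σ)).symm
  rw [hq', Int.toNat_natCast] at hp
  rw [h6] at l2' h3
  rcases (Nat.Prime.dvd_mul l1).1 (Int.natCast_dvd_natCast.1 l2') with h | h
  · exact absurd l3' ((hc.loc s1 l1 h).2.2 j hj)
  · rw [(Nat.prime_dvd_prime_iff_eq l1 hp).1 h]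
    have h7 : X i < s σ * q := by exact_mod_cast h3
    have h8 : Z * Z ^ 20 < Z * q := by
      rw [← pow_succ']
      exact h0.trans_lt (h7.trans_le (Nat.mul_le_mul_right _ ((le_SP s1 σ).trans s2)))
    exact Nat.lt_of_mul_lt_mul_left h8

/-- The pairs of coordinates. -/
def xDrop_T : Finset (Fin 10 × Fin 10) := ({4, 5} : Finset (Fin 10)) ×ˢ ({6, 7, 8, 9} : Finset (Fin 10))

theorem xDrop_mem : ∀ i j : Fin 10, (i, j) ∈ xDrop_T ↔ (i = 4 ∨ i = 5) ∧ 6 ≤ j.val := by decide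

theorem xDrop_card : xDrop_T.card = 8 := by decide

theorem xDrop_term {X : Fin 10 → ℕ} {Z : ℕ} (hR : Reg X Z) {s : S12} (hs : s ∈ SSet Z) {v : V10}
    (hv : v ∈ Box X) :
    GG s v * (if CopU v then lam (qq s v 4) * lam (qq s v 5) else 0) ≤
      GG s v * (if Cop v then lam (qq s v 4) * lam (qq s v 5) else 0) + Real.log (X 0) ^ 2 *
        ∑ p ∈ xDrop_T, if ∃ l : ℕ, l.Prime ∧ Z ^ 20 < l ∧ (l : ℤ) ∣ v p.1 ∧ (l : ℤ) ∣ v p.2 then
          (1 : ℝ) else 0 := by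
  have i0 : ∀ p ∈ xDrop_T, (0 : ℝ) ≤ if ∃ l : ℕ, l.Prime ∧ Z ^ 20 < l ∧ (l : ℤ) ∣ v p.1 ∧
      (l : ℤ) ∣ v p.2 then (1 : ℝ) else 0 := fun p _ => by
    split_ifs
    exacts [zero_le_one, le_rfl]
  have h0 := mul_nonneg (sq_nonneg (Real.log (X 0))) (sum_nonneg i0)
  have l4 := P.lam_nonneg (qq s v 4)
  have l5 := P.lam_nonneg (qq s v 5)
  have l45 := mul_nonneg l4 l5
  rcases GG_01 s v with h | ⟨h, hc⟩
  · rw [h, zero_mul, zero_mul, zero_add]
    exact h0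
  rw [h, one_mul, one_mul]
  by_cases h1 : Cop v
  · rw [if_pos h1]
    split_ifs <;> linarith
  rw [if_neg h1, zero_add]
  by_cases h2 : CopU v
  swap
  · rw [if_neg h2]
    exact h0
  rw [if_pos h2]
  by_cases h3 : lam (qq s v 4) * lam (qq s v 5) = 0
  · rw [h3]
    exact h0
  obtain ⟨n4, n5⟩ := mul_ne_zero_iff.1 h3
  obtain ⟨i, j, hi, hj, hij, hn⟩ : ∃ i j : Fin 10, 4 ≤ i.val ∧ 6 ≤ j.val ∧ i < j ∧
      ¬ IsCoprime (v i) (v j) := by
    by_contra hh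
    exact h1 fun i j a b c => by_contra fun d => hh ⟨i, j, a, b, c, d⟩
  have hi6 : ¬ 6 ≤ i.val := fun a => hn (h2 i j a hij)
  have hi' : i = 4 ∨ i = 5 := by
    rw [Fin.ext_iff, Fin.ext_iff]
    show i.val = 4 ∨ i.val = 5
    omega
  have hb : ∃ l : ℕ, l.Prime ∧ Z ^ 20 < l ∧ (l : ℤ) ∣ v i ∧ (l : ℤ) ∣ v j := by
    rcases hi' with rfl | rfl
    · exact xDrop_big hR hs hv hc 4 (by decide) 4 rfl n4 j hj hn
    · exact xDrop_big hR hs hv hc 5 (by decide) 5 rfl n5 j hj hn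
  have h4 := single_le_sum i0 ((xDrop_mem i j).2 ⟨hi', hj⟩)
  rw [if_pos hb] at h4
  have h5 := mul_le_mul (xDrop_lam hR s hv 4 (by decide) 4 rfl)
    (xDrop_lam hR s hv 5 (by decide) 5 rfl) l5 (Real.log_natCast_nonneg _)
  refine h5.trans ?_
  rw [← sq]
  exact le_mul_of_one_le_right (sq_nonneg _) h4

theorem FDrop_pf (hFBig : FBig) : FDrop := by
  obtain ⟨X1, hX1⟩ := Reg.log_le 3
  refine ⟨X1, fun X Z hR hX => ?_⟩
  obtain ⟨hL, -, -⟩ := hX1 X Z hR hX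
  have hZ : 1 ≤ Z := le_trans (by norm_num) hR.z2
  have hZ2 : (2 : ℝ) ≤ Z := by exact_mod_cast hR.z2
  have hV : 0 ≤ Vol X := prod_nonneg fun _ _ => Nat.cast_nonneg _
  have hL0 : 0 ≤ Real.log (X 0) := Real.log_natCast_nonneg _
  have b1 : ∀ p ∈ xDrop_T, (∑ v ∈ Box X, if ∃ l : ℕ, l.Prime ∧ Z ^ 20 < l ∧ (l : ℤ) ∣ v p.1 ∧
      (l : ℤ) ∣ v p.2 then (1 : ℝ) else 0) ≤ 4 * Real.log (X 0) * Vol X / (Z : ℝ) ^ 20 := by
    rintro ⟨i, j⟩ hp
    obtain ⟨hi, hj⟩ := (xDrop_mem i j).1 hp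
    have hi2 : 2 ≤ i.val ∧ i.val < 6 := by rcases hi with rfl | rfl <;> decide
    obtain ⟨-, a1, a2⟩ := xDrop_two hR i hi2.1
    have a3 := (xDrop_two hR j (by omega)).1
    have a4 : (2 : ℝ) ≤ X i := by exact_mod_cast a1
    have := hFBig X (Z ^ 20) i j (Real.log (X 0)) (fun e => by rw [e] at hi2; omega)
      (Nat.one_le_pow _ _ hZ) ((Nat.pow_le_pow_right hZ (by norm_num)).trans a3)
      (Real.log_le_log (by linarith) (by exact_mod_cast a2))
    rw [Nat.cast_pow] at this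
    rw [← sum_filter, sum_const, nsmul_eq_mul, mul_one]
    exact this
  have b2 : ∀ s ∈ SSet Z,
      ∑ v ∈ Box X, GG s v * (if CopU v then lam (qq s v 4) * lam (qq s v 5) else 0) ≤
      ∑ v ∈ Box X, GG s v * (if Cop v then lam (qq s v 4) * lam (qq s v 5) else 0) +
        Real.log (X 0) ^ 2 * (8 * (4 * Real.log (X 0) * Vol X / (Z : ℝ) ^ 20)) := by
    intro s hs
    refine (sum_le_sum fun v hv => xDrop_term hR hs hv).trans ?_
    rw [sum_add_distrib, ← mul_sum, sum_comm]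
    have := sum_le_card_nsmul _ _ _ b1
    rw [xDrop_card, nsmul_eq_mul, Nat.cast_ofNat] at this
    exact add_le_add le_rfl (mul_le_mul_of_nonneg_left this (sq_nonneg _))
  have b3 := sum_le_sum b2
  rw [sum_add_distrib, sum_const, nsmul_eq_mul] at b3
  have b4 : ((SSet Z).card : ℝ) *
      (Real.log (X 0) ^ 2 * (8 * (4 * Real.log (X 0) * Vol X / (Z : ℝ) ^ 20))) ≤ Vol X := by
    refine (mul_le_mul_of_nonneg_right (card_SSet Z) (by positivity)).trans ?_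
    have h1 : (2 : ℝ) ^ 7 ≤ (Z : ℝ) ^ 7 := pow_le_pow_left₀ (by norm_num) hZ2 7
    have h2 : 32 * Real.log (X 0) ^ 3 ≤ (Z : ℝ) ^ 7 * Z :=
      mul_le_mul (by linarith) hL (by positivity) (by positivity)
    have h3 : (0 : ℝ) < (Z : ℝ) ^ 7 * Z := by positivity
    calc _ = Vol X * (32 * Real.log (X 0) ^ 3 / ((Z : ℝ) ^ 7 * Z)) := by
          field_simp
          ring
      _ ≤ Vol X * 1 := mul_le_mul_of_nonneg_left ((div_le_one h3).2 h2) hV
      _ = _ := mul_one _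
  unfold SS
  linarith

end Pool.Agent.MP_e23604_nt.U.CF

end
end

section

open Finset
open scoped Classical

noncomputable section

namespace Pool.Agent.MP_e23604_nt.U.CF

open P (lam PW cW Rough shp gg WW)

theorem xEnd_top : ∃ N : ℕ, 1 ≤ N ∧ ∀ (X : Fin 10 → ℕ) (Z : ℕ), Reg X Z → X 0 ≤ Z ^ N :=
  ⟨10 ^ 14, Nat.one_le_pow _ _ (by norm_num), fun _ _ h => h.top⟩

theorem FEnd_pf (hFCop : FCop) : FEnd := by
  rintro ⟨c2, hc2, Z0, hB⟩ ⟨c1, hc1, hD⟩
  obtain ⟨X1, hC⟩ := hFCop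
  obtain ⟨N, hN, hT⟩ := xEnd_top
  have hN0 : (0 : ℝ) < N := by exact_mod_cast hN
  obtain ⟨c, hc⟩ : ∃ c : ℝ, c = c1 * c2 / (8 * N ^ 12) := ⟨_, rfl⟩
  have hc0 : 0 < c := by rw [hc]; positivity
  obtain ⟨X2, hL⟩ := P.log_pow_le 0 0 (max 1 (1 / c))
  refine ⟨c, hc0, X1 + X2 + Z0 ^ N, fun X Z hR hX => ?_⟩
  have h1 := hT X Z hR
  have hZ : Z0 ≤ Z := (Nat.pow_le_pow_iff_left (n := N) (by omega)).1 (by omega)
  have hZ0 : (0 : ℝ) < Z := by exact_mod_cast (by have := hR.z2; omega : 0 < Z)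
  obtain ⟨h2, h3⟩ := max_le_iff.1 (hL (X 0) (by omega)).1
  have h4 : Real.log (X 0) ≤ N * Real.log Z := by
    rcases Nat.eq_zero_or_pos (X 0) with h | h
    · rw [h] at h2
      norm_num at h2
    · rw [← Real.log_pow]
      exact Real.log_le_log (by exact_mod_cast h) (by exact_mod_cast h1)
  have hV : 0 ≤ Vol X := prod_nonneg fun _ _ => Nat.cast_nonneg _
  have h5 : ∑ s ∈ SSet Z, (c1 / 4 * Vol X * wS s - Vol X / (Z : ℝ) ^ 12) ≤
      SS X Z fun _ v => if CopU v then 1 else 0 := sum_le_sum fun s hs => by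
    have := mul_le_mul_of_nonneg_left (hD s (mem_SSet.1 hs).1) hV
    linarith [hC X Z hR (by omega) s hs]
  rw [sum_sub_distrib, ← mul_sum, sum_const, nsmul_eq_mul] at h5
  have h6 := mul_le_mul_of_nonneg_right (card_SSet Z) (by positivity : 0 ≤ Vol X / (Z : ℝ) ^ 12)
  rw [mul_div_cancel₀ _ (by positivity)] at h6
  have h7 := mul_le_mul_of_nonneg_left (hB Z hZ) (by positivity : 0 ≤ c1 / 4 * Vol X)
  generalize Real.log (X 0) = L at *
  have h8 := mul_le_mul_of_nonneg_left (pow_le_pow_left₀ (by linarith) h4 12)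
    (by positivity : 0 ≤ 2 * c * Vol X)
  have h9 : 2 * c * Vol X * (N * Real.log Z) ^ 12 = c1 / 4 * Vol X * (c2 * Real.log Z ^ 12) := by
    rw [hc]
    field_simp
    ring
  have h10 : 1 ≤ c * L ^ 12 := by
    rw [div_le_iff₀' hc0] at h3
    exact h3.trans (mul_le_mul_of_nonneg_left (le_self_pow₀ h2 (by norm_num)) hc0.le)
  have h11 := mul_le_mul_of_nonneg_left h10 hV
  linarith

end Pool.Agent.MP_e23604_nt.U.CF

end
end

section

/-!
The end of the chain: the primes at the two smallest sites.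
-/

open Finset
open scoped Classical

noncomputable section

namespace Pool.Agent.MP_e23604_nt.U.CF

open P (lam PW cW Rough shp gg WW)

theorem xTail_vol (X : Fin 10 → ℕ) : 0 ≤ Vol X := prod_nonneg fun _ _ => Nat.cast_nonneg _

theorem xTail_step {X : Fin 10 → ℕ} {Z W : ℕ} {F : S12 → V10 → ℝ} {σ : Fin 12} {c L : ℝ}
    (hZ : 2 ≤ Z)
    (h3 : c * SS X Z F - Vol X / (Z : ℝ) ^ 2 ≤
      SS X Z fun s v => F s v * ∏ τ ∈ ({σ} : Finset (Fin 12)), shp W (qq s v τ))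
    (hp : |SS X Z fun s v => F s v * gg W (qq s v σ)| ≤ Vol X / L ^ 0) :
    c * SS X Z F - 2 * Vol X ≤ SS X Z fun s v => F s v * lam (qq s v σ) := by
  have e : (SS X Z fun s v => F s v * lam (qq s v σ)) =
      (SS X Z fun s v => F s v * ∏ τ ∈ ({σ} : Finset (Fin 12)), shp W (qq s v τ)) +
        SS X Z fun s v => F s v * gg W (qq s v σ) := by
    unfold SS
    rw [← sum_add_distrib]
    refine sum_congr rfl fun s _ => ?_
    rw [← sum_add_distrib]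
    refine sum_congr rfl fun v _ => ?_
    simp only [prod_singleton, gg]
    ring
  have hV := xTail_vol X
  have z2 : (2 : ℝ) ≤ Z := by exact_mod_cast hZ
  have h1 : Vol X / (Z : ℝ) ^ 2 ≤ Vol X := div_le_self hV (by nlinarith)
  rw [pow_zero, div_one] at hp
  have h2 := (abs_le.1 hp).1
  rw [e]
  linarith

theorem xTail_cop (v : V10) (i : Fin 10) (hi : i.val < 6) (x : ℤ) :
    CopU (Function.update v i x) ↔ CopU v := by
  refine forall_congr' fun j => forall_congr' fun k => forall_congr' fun hj =>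
    forall_congr' fun hk => ?_
  have h1 : j ≠ i := fun e => by rw [e] at hj; omega
  have h2 : k ≠ i := fun e => by
    have : j.val < k.val := hk
    rw [e] at this
    omega
  rw [Function.update_of_ne h1, Function.update_of_ne h2]

theorem xTail_sz {X : Fin 10 → ℕ} {Z : ℕ} (h : Reg X Z) (i : Fin 10) (hi : 2 ≤ i.val) :
    2 ≤ X i ∧ 2 * X i ≤ X 0 := by
  have h1 := h.sizes.1 i
  have h2 := h.sizes.2.1 i hi
  have h3 : Z ≤ Z ^ 1000 := Nat.le_self_pow (by decide) Z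
  have h4 : 2 ≤ X i := h.z2.trans (h3.trans h1)
  have h5 : X i ^ 2 ≤ X i ^ 400 := Nat.pow_le_pow_right (le_trans one_le_two h4) (by norm_num)
  have h6 : X i ^ 2 ≤ X 0 := h5.trans h2
  refine ⟨h4, le_trans ?_ h6⟩
  rw [sq]
  exact Nat.mul_le_mul_right _ h4

theorem xTail_WW (B : ℕ) {a b : ℕ} (ha : 1 ≤ a) (hab : a ≤ b) : WW B a ≤ WW B b := by
  have h1 : (1 : ℝ) ≤ a := by exact_mod_cast ha
  have h2 : (a : ℝ) ≤ b := by exact_mod_cast hab
  exact Nat.ceil_mono (pow_le_pow_left₀ (Real.log_nonneg h1)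
    (Real.log_le_log (by linarith) h2) B)

theorem xTail_lam {n : ℤ} {N : ℕ} (h : n ≤ N) : lam n ≤ Real.log N := by
  unfold lam
  split_ifs with hp
  · have h1 := hp.two_le
    have h2 : (0 : ℤ) < n := by omega
    have h3 : (0 : ℝ) < n := by exact_mod_cast h2
    exact Real.log_le_log h3 (by exact_mod_cast h)
  · exact Real.log_natCast_nonneg N

theorem xTail_q5 {X : Fin 10 → ℕ} {Z : ℕ} (h : Reg X Z) (s : S12) {v : V10} (hv : v ∈ Box X) :
    lam (qq s v 5) ≤ Real.log (X 0) := by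
  obtain ⟨-, h2⟩ := xTail_sz h 5 (by decide)
  have h3 := mem_Ioc.1 (Fintype.mem_piFinset.1 hv 5)
  have h4 : qq s v 5 = v 5 / (s 5 : ℤ) := rfl
  have h5 : (0 : ℤ) ≤ v 5 := le_trans (Int.natCast_nonneg _) h3.1.le
  have h6 : v 5 / (s 5 : ℤ) ≤ v 5 := Int.ediv_le_self _ h5
  have h7 : (2 : ℤ) * X 5 ≤ X 0 := by exact_mod_cast h2
  refine xTail_lam ?_
  rw [h4]
  exact h6.trans (h3.2.trans h7)

theorem CTail_pf (hFP : FP) (hF3 : F3) (hFA2 : FA2) (hFDrop : FDrop) (hFEnd : FEnd) : CTail := by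
  intro hIB hID
  obtain ⟨c, hc, -, h3⟩ := hF3
  obtain ⟨c', hc', Xe, he⟩ := hFEnd hIB hID
  obtain ⟨Xd, hd⟩ := hFDrop
  obtain ⟨Ba, hBa⟩ := hFP 0 0
  obtain ⟨Bb, hBb⟩ := hFP 0 1
  obtain ⟨Xa, ha⟩ := hBa (max Ba Bb) (le_max_left _ _)
  obtain ⟨Xb, hb⟩ := hBb (max Ba Bb) (le_max_right _ _)
  obtain ⟨Ya, h3a⟩ := h3 (max Ba Bb) 0
  obtain ⟨Yb, h3b⟩ := h3 (max Ba Bb) 1
  obtain ⟨Xl, hl⟩ := P.log_pow_le 0 0 (max 1 ((2 * c + 3) * 2 / (c ^ 2 * c')))
  have hcc : 0 < c ^ 2 * c' := by positivity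
  refine ⟨c ^ 2 * c' / 2, by positivity, Xe + Xd + Xa + Xb + Ya + Yb + Xl, fun X Z hR hX => ?_⟩
  have hL := (hl (X 0) (by omega)).1
  have hL1 : 1 ≤ Real.log (X 0) := (le_max_left _ _).trans hL
  have hL2 : (2 * c + 3) * 2 / (c ^ 2 * c') ≤ Real.log (X 0) := (le_max_right _ _).trans hL
  have hV := xTail_vol X
  have hA : ∀ W : ℕ, ∀ s ∈ SSet Z, ∀ v : V10, GG s v ≠ 0 →
      Aff W s v 4 {4} ∧ Aff W s v 5 {5} := fun W s hs v hG =>
    (hFA2 W s v (mem_SSet.1 hs).1 ((GG_01 s v).resolve_left hG).2).2.2.2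
  have hW : ∀ i : Fin 10, 2 ≤ i.val → WW (max Ba Bb) (X i) ≤ WW (max Ba Bb) (X 0) :=
    fun i hi => by
      obtain ⟨h1, h2⟩ := xTail_sz hR i hi
      exact xTail_WW _ (le_trans one_le_two h1) (le_trans (Nat.le_mul_of_pos_left _ two_pos) h2)
  have b0 : Bnd X Z 0 fun _ v => if CopU v then (1 : ℝ) else 0 := fun s _ v _ => by
    dsimp only
    split_ifs <;> simp
  have i0 : Ind 5 fun _ v => if CopU v then (1 : ℝ) else 0 := fun s v x =>
    if_congr (xTail_cop v 5 (by decide) x) rfl rfl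
  have b1 : Bnd X Z 1 fun s v => (if CopU v then (1 : ℝ) else 0) * lam (qq s v 5) :=
    fun s _ v hv => by
      have h1 := xTail_q5 hR s hv
      have h2 := P.lam_nonneg (qq s v 5)
      dsimp only
      rw [pow_one]
      split_ifs
      · rw [one_mul]
        exact ⟨h2, h1⟩
      · rw [zero_mul]
        exact ⟨le_rfl, h2.trans h1⟩
  have i1 : Ind 4 fun s v => (if CopU v then (1 : ℝ) else 0) * lam (qq s v 5) := fun s v x => by
    have h1 : qq s (Function.update v 4 x) 5 = qq s v 5 := by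
      change Function.update v 4 x 5 / _ = v 5 / _
      rw [Function.update_of_ne (by decide)]
    dsimp only
    rw [h1, if_congr (xTail_cop v 4 (by decide) x) rfl rfl]
  have s5 := xTail_step hR.z2
    (h3a X Z _ _ 5 {5} hR (by omega) (hW 5 (by decide)) (by simp) b0 i0
      fun s hs v _ hG _ => (hA _ s hs v hG).2)
    (ha X Z _ 5 5 hR (by omega) b0 (Or.inr ⟨rfl, rfl⟩) i0)
  have s4 := xTail_step hR.z2
    (h3b X Z _ _ 4 {4} hR (by omega) (hW 4 (by decide)) (by simp) b1 i1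
      fun s hs v _ hG _ => (hA _ s hs v hG).1)
    (hb X Z _ 4 4 hR (by omega) b1 (Or.inl ⟨rfl, rfl⟩) i1)
  have s0 := he X Z hR (by omega)
  have sd := hd X Z hR (by omega)
  have e : (fun (s : S12) (v : V10) =>
      (if CopU v then (1 : ℝ) else 0) * lam (qq s v 5) * lam (qq s v 4)) =
      fun s v => if CopU v then lam (qq s v 4) * lam (qq s v 5) else 0 := by
    funext s v
    split_ifs
    · ring
    · ring
  rw [e] at s4
  have t0 := mul_le_mul_of_nonneg_left s0 hc.le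
  have t5 := mul_le_mul_of_nonneg_left (le_trans (sub_le_sub_right t0 _) s5) hc.le
  have hp : Real.log (X 0) ≤ Real.log (X 0) ^ 12 := le_self_pow₀ hL1 (by norm_num)
  have hq : (2 * c + 3) * 2 ≤ Real.log (X 0) ^ 12 * (c ^ 2 * c') :=
    (div_le_iff₀ hcc).1 (hL2.trans hp)
  have hr := mul_le_mul_of_nonneg_left hq hV
  generalize Real.log (X 0) ^ 12 = M at *
  nlinarith

end Pool.Agent.MP_e23604_nt.U.CF

end
end
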