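import Pool.Agent.Mg.Fe23604m.G300596
import Pool.Agent.Mg.Fe23604m.G19f17f
import Pool.Agent.Mg.Fe23604m.G8362cd
import Pool.Agent.Mg.Fe23604m.G13e833
import Pool.Agent.Mg.Fe23604m.Gdcbf1f
import Pool.Agent.Mg.Fe23604m.Ga474eb

set_option linter.all false

section

/-!
Statements of the steps of the construction of the derived classes.
-/

set_option autoImplicit false

open Finset QuadraticAlgebra
open scoped Classical

namespace Pool.Agent.MP_e23604_nt.W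

open B R S

/-- `τ` generates the action on the points killed by `ϖ` -/
structure Gn (V : Plc) (ϖ : Zw) (τ : GQ) (T : Pt) : Prop where
  ine : τ ∈ V.I
  tor : ϖ • T = 0
  per : gal (τ ^ (nn ϖ - 1)) T = T
  sum : ∀ (A : Type) [AddCommMonoid A] (F : Pt → A),
    ∑ S ∈ W.tor ϖ, F S = F 0 + ∑ e ∈ range (nn ϖ - 1), F (gal (τ ^ e) T)
  dec : ∀ g ∈ GK, ∃ e : ℕ, (τ ^ e)⁻¹ * g ∈ UM ϖ

/-- the defect of the chosen roots in the norm relation -/
noncomputable def cN (N : ℕ) (θ : Pt → Qb) (b : Zw) (P : Pt) : ZMod N :=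
  lz N ((∏ T ∈ tor b, rt N (θ (P + T))) / rt N (θ (b • P)))

/-- existence of generators -/
def TAU_st : Prop := ∀ (V : Plc) (ϖ : Zw), PP ϖ → (nn ϖ).Prime → Ov V ϖ → ∃ τ T, Gn V ϖ τ T

/-- the norm relation for Kummer cocycles -/
def NR_st : Prop := ∀ (N : ℕ) (θ : Pt → Qb) (b : Zw) (P : Pt) (h : GQ), N ≠ 0 → b ≠ 0 → h ∈ GK →
  (∀ P, θ P ≠ 0) → (∀ P, θ (gal h P) = h (θ P)) → ∏ T ∈ tor b, θ (P + T) = θ (b • P) →
  ∑ T ∈ tor b, km N h (θ (P + T)) =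
    km N h (θ (b • P)) + cy N h * cN N θ b P - cN N θ b (gal h P)

/-- the comparison of the finite and the singular part -/
def FS_st : Prop := ∀ (N : ℕ) (θ : Pt → Qb) (V : Plc) (ϖ : Zw) (τ s : GQ) (T P : Pt),
  V.v N = 1 → (nn ϖ).Prime → N ∣ nn ϖ - 1 → Gn V ϖ τ T → FK V ϖ s →
  (∀ g ∈ GK, ∀ P, θ (gal g P) = g (θ P)) → gal τ P = P → gal s P = ϖ • P → V.v (θ P) = 1 →
  (∀ S : Pt, ϖ • S = 0 → V.v (θ (P + S) - θ P) < 1) → ∏ S ∈ tor ϖ, θ (P + S) = θ (ϖ • P) →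
  ∑ e ∈ range (nn ϖ - 1), (e : ZMod N) * km N τ (θ (P + gal (τ ^ e) T)) + km N s (θ P) =
    cN N θ ϖ P

/-- the derived classes for chosen generators -/
def KOL0_st : Prop := ∀ (R : Type) [CommRing R] (p n : ℕ) (j : ZMod (p ^ n) →+* R) (M a : Zw)
  (Q : Pt) (lam : GQ → R) (g₀ : GQ) (ι : Type) (V : ι → Plc) (ϖ : ι → Zw) (τ : ι → GQ)
  (T : ι → Pt), ES p n j M a Q lam → g₀ ∈ GK → ∃ kap : Finset ι → GQ → R,
    (∀ g ∈ GK, kap ∅ g = (rho j lam g₀ - 1) * zc j (UM M) lam (Th a Q) g) ∧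
    ∀ S : Finset ι, (∀ i ∈ S, KP (a * M) M (V i) (ϖ i) ∧ Gn (V i) (ϖ i) (τ i) (T i)) →
      Set.InjOn ϖ S → Co (rho j lam) GK (kap S) ∧ Unr (M * ∏ i ∈ S, ϖ i) (kap S) ∧
      ∀ i ∈ S, ∀ s, FK (V i) (ϖ i) s → kap S (τ i) = -kap (S.erase i) s

theorem root_eq_one (V : Plc) {N : ℕ} (hN : V.v N = 1) {z : Qb} (h : z ^ N = 1)
    (h1 : V.v (z - 1) < 1) : z = 1 := root_one V hN h h1

end Pool.Agent.MP_e23604_nt.W

end

section

/-!
The algebra of derived classes, and the group ring of the curve.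
-/

set_option autoImplicit false

open Finset QuadraticAlgebra
open scoped Classical

namespace Pool.Agent.MP_e23604_nt.W

open B R S

variable {R : Type} [CommRing R]

section abs

variable {Λ : Type} [AddCommGroup Λ] [Module R Λ]

/-- a cocycle with values in the dual of a module -/
structure Ab (ρ : GQ → R) (k : GQ → Λ →ₗ[R] R) (w : GQ → Λ →ₗ[R] Λ) : Prop where
  one : ρ 1 = 1
  mul : ∀ g ∈ GK, ∀ h ∈ GK, ρ (g * h) = ρ g * ρ h
  wmul : ∀ g ∈ GK, ∀ h ∈ GK, ∀ d, w (g * h) d = w g (w h d)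
  kmul : ∀ g ∈ GK, ∀ h ∈ GK, ∀ d, k (g * h) d = ρ g * k h d + k g (w h d)

/-- `H` is a normal subgroup that fixes `d` -/
structure Nv (w : GQ → Λ →ₗ[R] Λ) (H : Subgroup GQ) (d : Λ) : Prop where
  le : H ≤ GK
  nrm : ∀ g ∈ GK, ∀ h ∈ H, g⁻¹ * h * g ∈ H
  fix : ∀ h ∈ H, w h d = d

/-- the derived class -/
noncomputable def Kp (ρ : GQ → R) (k : GQ → Λ →ₗ[R] R) (g₀ : GQ) (d : Λ) (g : GQ) : R :=
  ρ g * k (g⁻¹ * g₀ * g) d - k g₀ d

variable {ρ : GQ → R} {k : GQ → Λ →ₗ[R] R} {w : GQ → Λ →ₗ[R] Λ} {H : Subgroup GQ} {d : Λ}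
  {g g' h : GQ}

theorem cj_mem (hg : g ∈ GK) (hh : h ∈ GK) : g⁻¹ * h * g ∈ GK :=
  GK.mul_mem (GK.mul_mem (GK.inv_mem hg) hh) hg

theorem Ab.cj (A : Ab ρ k w) (hg : g ∈ GK) (hh : h ∈ GK) : ρ (g⁻¹ * h * g) = ρ h := by
  rw [A.mul _ (GK.mul_mem (GK.inv_mem hg) hh) _ hg, A.mul _ (GK.inv_mem hg) _ hh, mul_right_comm,
    ← A.mul _ (GK.inv_mem hg) _ hg, inv_mul_cancel, A.one, one_mul]

theorem Ab.Kp_eq (A : Ab ρ k w) (hd : Nv w H d) (hh : h ∈ H) (hg : g ∈ GK) :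
    Kp ρ k h d g = (ρ h - 1) * k g d + k h (w g d - d) := by
  have h1 := A.kmul g hg _ (cj_mem hg (hd.le hh)) d
  rw [hd.fix _ (hd.nrm g hg h hh), ← mul_assoc, mul_inv_cancel_left, A.kmul h (hd.le hh) g hg] at h1
  rw [Kp, map_sub]
  linear_combination -h1

theorem Ab.sub (A : Ab ρ k w) (hd : Nv w H d) (hg : g ∈ GK) : Nv w H (w g d - d) :=
  ⟨hd.le, hd.nrm, fun h hh => by
    have := A.wmul g hg _ (cj_mem hg (hd.le hh)) d
    rw [hd.fix _ (hd.nrm g hg h hh), ← mul_assoc, mul_inv_cancel_left] at this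
    rw [map_sub, ← A.wmul h (hd.le hh) g hg, this, hd.fix h hh]⟩

theorem Ab.bo_mul (A : Ab ρ k w) (hd : Nv w H d) (hg : g ∈ GK) (hg' : g' ∈ GK)
    (h1 : Bo ρ H fun h => k h (w g d - d)) (h2 : Bo ρ H fun h => k h (w g' d - d)) :
    Bo ρ H fun h => k h (w (g * g') d - d) := by
  obtain ⟨m, h1⟩ := h1
  obtain ⟨m', h2⟩ := h2
  refine ⟨m + ρ g * m' - k g (w g' d - d), fun h hh => ?_⟩
  have h3 := A.Kp_eq (A.sub hd hg') hh hg
  have h4 := h2 _ (hd.nrm g hg h hh)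
  have h5 := h1 h hh
  simp only [Kp, map_sub, A.cj hg (hd.le hh)] at h3 h4 h5 ⊢
  rw [A.wmul g hg g' hg']
  linear_combination h5 - h3 + ρ g * h4

theorem Ab.Kp_congr (A : Ab ρ k w) (hd : Nv w H d) (hg : g ∈ GK)
    (h1 : Bo ρ H fun h => k h (w g d - d)) {h' : GQ} (hh : h ∈ H) (hh' : h' ∈ H) (e : ρ h = ρ h') :
    Kp ρ k h d g = Kp ρ k h' d g := by
  obtain ⟨m, h1⟩ := h1
  have h2 := h1 h hh
  have h3 := h1 h' hh'
  simp only at h2 h3
  rw [A.Kp_eq hd hh hg, A.Kp_eq hd hh' hg, h2, h3, e]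

theorem Ab.Kp_mul (A : Ab ρ k w) (hd : Nv w H d) (hg : g ∈ GK) (hg' : g' ∈ GK)
    (h1 : Bo ρ H fun h => k h (w g' d - d)) (hh : h ∈ H) :
    Kp ρ k h d (g * g') = Kp ρ k h d g + ρ g * Kp ρ k h d g' := by
  rw [← A.Kp_congr hd hg' h1 (hd.nrm g hg h hh) hh (A.cj hg (hd.le hh))]
  simp only [Kp, A.mul g hg g' hg', mul_inv_rev, mul_assoc]
  ring

end abs

theorem lc_cj {α : Type} {f : GQ → α} (h : Lc ⊤ f) (g₀ : GQ) : Lc ⊤ fun g => f (g⁻¹ * g₀ * g) := by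
  obtain ⟨N, h1, h2⟩ := h
  refine ⟨N, h1, fun g _ g' _ e => h2 _ trivial _ trivial ?_⟩
  have := N.mul_mem (h1.1.conj_mem _ (N.inv_mem e) (g⁻¹ * g₀ * g)⁻¹) e
  simpa [mul_assoc] using this

/-- the group ring of the curve -/
abbrev GR (R : Type) [CommRing R] : Type := AddMonoidAlgebra R Pt

/-- the class of a point -/
noncomputable def br (P : Pt) : GR R := AddMonoidAlgebra.single P 1

theorem br_add (P Q : Pt) : (br (P + Q) : GR R) = br P * br Q := by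
  simp [br, AddMonoidAlgebra.single_mul_single]

theorem br_zero : (br 0 : GR R) = 1 := rfl

/-- the Galois action -/
noncomputable def ga (g : GQ) : GR R →ₐ[R] GR R := AddMonoidAlgebra.mapDomainAlgHom R R (gal g)

theorem ga_br (g : GQ) (P : Pt) : (ga g (br P) : GR R) = br (gal g P) := by simp [ga, br]

/-- the linear extension of a function -/
noncomputable def ev (F : Pt → R) : GR R →ₗ[R] R :=
  Finsupp.linearCombination R F ∘ₗ (AddMonoidAlgebra.coeffLinearEquiv R).toLinearMap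

theorem ev_br (F : Pt → R) (P : Pt) : ev F (br P) = F P := by simp [ev, br]

/-- the span of the classes of the points of `s` -/
noncomputable def Sn (R : Type) [CommRing R] (s : Set Pt) : Submodule R (GR R) :=
  Submodule.span R (br '' s)

theorem br_mem {s : Set Pt} {P : Pt} (h : P ∈ s) : br P ∈ Sn R s :=
  Submodule.subset_span ⟨P, h, rfl⟩

theorem mem_univ_Sn (d : GR R) : d ∈ Sn R Set.univ := by
  have := AddMonoidAlgebra.supported_eq_span_single R (Set.univ : Set Pt)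
  exact this.le (AddMonoidAlgebra.mem_supported.2 (Set.subset_univ _))

theorem Sn_ext {A : Type} [AddCommGroup A] [Module R A] {f g : GR R →ₗ[R] A} {s : Set Pt}
    (h : ∀ P ∈ s, f (br P) = g (br P)) {d : GR R} (hd : d ∈ Sn R s) : f d = g d :=
  LinearMap.eqOn_span (by rintro _ ⟨P, hP, rfl⟩; exact h P hP) hd

theorem Sn_map {f : GR R →ₗ[R] GR R} {s t : Set Pt} (h : ∀ P ∈ s, f (br P) ∈ Sn R t) {d : GR R}
    (hd : d ∈ Sn R s) : f d ∈ Sn R t :=
  (Submodule.span_le (p := (Sn R t).comap f)).2 (by rintro _ ⟨P, hP, rfl⟩; exact h P hP) hd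

theorem ev_lc {H : Subgroup GQ} {F : GQ → Pt → R} (h : ∀ P, Lc H fun g => F g P) (d : GR R) :
    Lc H fun g => ev (F g) d := by
  refine Submodule.span_induction (p := fun d _ => Lc H fun g => ev (F g) d) ?_ ?_ ?_ ?_
    (mem_univ_Sn d)
  · rintro _ ⟨P, -, rfl⟩
    simpa only [ev_br] using h P
  · simpa only [map_zero] using Lc.const H 0
  · intro x y _ _ hx hy
    simpa only [map_add] using hx.map₂ hy (· + ·)
  · intro r x _ hx
    simpa only [map_smul] using hx.map (r • ·)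

variable {N : ℕ} {j : ZMod N →+* R} {U : Subgroup GQ} {lam : GQ → R} {θ : Pt → Qb}

/-- the twisted action -/
noncomputable def tw (lam : GQ → R) (g : GQ) : GR R →ₗ[R] GR R := lam g⁻¹ • (ga g).toLinearMap

/-- the Kummer cocycle of an element of the group ring -/
noncomputable def kk (j : ZMod N →+* R) (lam : GQ → R) (θ : Pt → Qb) (g : GQ) : GR R →ₗ[R] R :=
  ev fun P => lam g⁻¹ * j (km N g (θ P))

theorem tw_apply (lam : GQ → R) (g : GQ) (d : GR R) : tw lam g d = lam g⁻¹ • ga g d := rfl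

theorem kk_br (g : GQ) (P : Pt) : kk j lam θ g (br P) = lam g⁻¹ * j (km N g (θ P)) := ev_br _ _

theorem Chr.toAb (h : Chr j U lam) (h0 : ∀ P, θ P ≠ 0)
    (h1 : ∀ g ∈ GK, ∀ P, θ (gal g P) = g (θ P)) : Ab (rho j lam) (kk j lam θ) (tw lam) where
  one := by rw [rho, cy_one h.pos, inv_one, h.one 1 U.one_mem, map_one, mul_one]
  mul g hg g' hg' := by rw [rho, rho, rho, cy_mul h.pos, h.inv_mul hg hg', map_mul]; ring
  wmul g hg g' hg' d := by
    refine Sn_ext (g := tw lam g ∘ₗ tw lam g') (fun P _ => ?_) (mem_univ_Sn d)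
    simp only [LinearMap.comp_apply, tw_apply, map_smul, ga_br, gal_mul, h.inv_mul hg hg', smul_smul,
      mul_comm]
  kmul g hg g' hg' d := by
    refine Sn_ext (g := rho j lam g • kk j lam θ g' + kk j lam θ g ∘ₗ tw lam g') (fun P _ => ?_)
      (mem_univ_Sn d)
    simp only [LinearMap.comp_apply, LinearMap.add_apply, LinearMap.smul_apply, tw_apply, map_smul,
      ga_br, kk_br, h.inv_mul hg hg', km_mul h.pos g g' (h0 P), h1 g' hg', smul_eq_mul, rho, map_add,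
      map_mul]
    ring

theorem Chr.Kp_lc (h : Chr j U lam) (hρ : Lc GK (rho j lam)) {g₀ : GQ} (hg : g₀ ∈ GK) (d : GR R) :
    Lc GK (Kp (rho j lam) (kk j lam θ) g₀ d) := by
  obtain ⟨W, h1, h2⟩ := hρ.map₂ (ev_lc (F := fun g P => lam g₀⁻¹ * j (km N (g⁻¹ * g₀ * g) (θ P)))
    (fun P => ((lc_cj (km_lc N ⊤ (θ P)) g₀).mono le_top).map fun x => lam g₀⁻¹ * j x) d)
    fun x y => x * y - kk j lam θ g₀ d
  have e : ∀ g ∈ GK, lam (g⁻¹ * g₀ * g)⁻¹ = lam g₀⁻¹ := fun g hg' => by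
    rw [h.inv_mul (GK.mul_mem (GK.inv_mem hg') hg) hg', h.inv_mul (GK.inv_mem hg') hg, mul_right_comm,
      ← h.inv_mul (GK.inv_mem hg') hg', inv_mul_cancel, inv_one, h.one 1 U.one_mem, one_mul]
  refine ⟨W, h1, fun g hg g' hg' e' => ?_⟩
  have := h2 g hg g' hg' e'
  simp only [Kp, kk, e g hg, e g' hg'] at this ⊢
  exact this

end Pool.Agent.MP_e23604_nt.W

end

section

/-!
The derivative operators and their action on Kummer cocycles.
-/

set_option autoImplicit false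

open Finset QuadraticAlgebra
open scoped Classical

namespace Pool.Agent.MP_e23604_nt.W

open B R S

variable {R : Type} [CommRing R]

/-- the theta function without zeros -/
noncomputable def Tn (a : Zw) (P : Pt) : Qb := if Th a P = 0 then 1 else Th a P

/-- good points killed by `b` -/
def Gp (b : Zw) : Set Pt := {P | Gd P ∧ b • P = 0}

/-- the twisted orbit sum -/
noncomputable def dz (U : Subgroup GQ) (lam : GQ → R) (Q : Pt) : GR R :=
  ∑ y ∈ Xs U GK, lam y⁻¹ • br (gal y Q)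

/-- the derivative operator -/
noncomputable def Dq (R : Type) [CommRing R] (ϖ : Zw) (τ : GQ) (T : Pt) : GR R :=
  ∑ e ∈ range (nn ϖ - 1), (e : R) • br (gal (τ ^ e) T)

/-- the sum of the torsion points -/
noncomputable def Nq (R : Type) [CommRing R] (ϖ : Zw) : GR R := ∑ S ∈ tor ϖ, br S

theorem Tn_ne (a : Zw) (P : Pt) : Tn a P ≠ 0 := by
  unfold Tn
  split_ifs with h
  exacts [one_ne_zero, h]

theorem Tn_gal (hT : THI_st) {a : Zw} (ha : a ≠ 0) : ∀ g ∈ GK, ∀ P, Tn a (gal g P) = g (Tn a P) :=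
  fun g hg P => by
    simp only [Tn, ((hT a ha).2.1 g hg P).1, map_eq_zero]
    split_ifs
    exacts [(map_one g).symm, rfl]

theorem Tn_gd (hT : THI_st) {a : Zw} (ha : IsCoprime a 6) {P : Pt} (h : Gd P) : Tn a P = Th a P :=
  if_neg ((hT a (cop6_ne ha)).2.2.2 ha P (h.smul (cop6.1 ha).2).ne)

variable {N : ℕ} {U : Subgroup GQ} {lam : GQ → R} {θ : Pt → Qb} {Q : Pt}

theorem tw_dz {j : ZMod N →+* R} (h : Chr j U lam) (hQ : ∀ u ∈ U, gal u Q = Q) {g : GQ}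
    (hg : g ∈ GK) (e : GR R) : tw lam g (dz U lam Q * e) = dz U lam Q * ga g e := by
  rw [tw_apply, map_mul, ← smul_mul_assoc]
  congr 1
  rw [dz, map_sum, smul_sum, ← h.trv.sum_mul (F := fun y => lam y⁻¹ • (br (gal y Q) : GR R))
    (fun y hy u hu => by simp only [h.mul_U hy hu, gal_mul, hQ u hu]) hg]
  refine sum_congr rfl fun y hy => ?_
  rw [map_smul, ga_br, smul_smul, h.inv_mul hg (h.trv.1 y hy), gal_mul]

theorem kk_dz {j : ZMod N →+* R} (h : Chr j U lam) (h1 : ∀ g ∈ GK, ∀ P, θ (gal g P) = g (θ P))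
    {g : GQ} (hg : g ∈ GK) : kk j lam θ g (dz U lam Q) = zc j U lam (θ Q) g := by
  rw [dz, map_sum, zc]
  refine sum_congr rfl fun y hy => ?_
  rw [map_smul, kk_br, h1 y (h.trv.1 y hy), h.inv_mul hg (h.trv.1 y hy), smul_eq_mul]
  ring

theorem dz_mem {j : ZMod N →+* R} (h : Chr j U lam) {M : Zw} (hQ : Q ∈ Gp M) :
    dz U lam Q ∈ Sn R (Gp M) :=
  Submodule.sum_mem _ fun y hy => Submodule.smul_mem _ _ (br_mem ⟨hQ.1.gal (h.trv.1 y hy), by
    rw [← gal_smul (h.trv.1 y hy), hQ.2, map_zero]⟩)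

variable {V : Plc} {ϖ : Zw} {τ : GQ} {T : Pt}

theorem Gn.mem (h : Gn V ϖ τ T) : τ ∈ GK := V.D_le (V.I_le h.ine)

theorem Gn.tor' (h : Gn V ϖ τ T) (e : ℕ) : ϖ • gal (τ ^ e) T = 0 := by
  rw [← gal_smul (GK.pow_mem h.mem e), h.tor, map_zero]

theorem Gn.ga_Dq (h : Gn V ϖ τ T) (hq : ((nn ϖ - 1 : ℕ) : R) = 0) :
    ga τ (Dq R ϖ τ T) = Dq R ϖ τ T - (Nq R ϖ - 1) := by
  have h1 := sum_range_succ' (fun e => (e : R) • (br (gal (τ ^ e) T) : GR R)) (nn ϖ - 1)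
  have h2 := sum_range_succ' (fun e => (br (gal (τ ^ e) T) : GR R)) (nn ϖ - 1)
  rw [sum_range_succ, hq] at h1
  rw [sum_range_succ, h.per, pow_zero, gal_one, add_left_inj] at h2
  simp only [Nat.cast_zero, zero_smul, add_zero, Nat.cast_succ, add_smul, one_smul,
    sum_add_distrib] at h1
  rw [Nq, h.sum, br_zero, add_sub_cancel_left, h2, Dq, map_sum, h1, add_sub_cancel_right]
  simp only [map_smul, ga_br, ← gal_mul, ← pow_succ']

theorem Gn.ga_fix (h : Gn V ϖ τ T) {g : GQ} (hg : g ∈ UM ϖ) : ga g (Dq R ϖ τ T) = Dq R ϖ τ T := by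
  simp only [Dq, map_sum, map_smul, ga_br, hg.2 _ (h.tor' _)]

theorem Gp.add {b : Zw} {P S : Pt} (hp : PP ϖ) (h : P ∈ Gp b) (hS : ϖ • S = 0) :
    P + S ∈ Gp (b * ϖ) :=
  ⟨(h.1.smul hp.2.pw).add_tor hS, by
    rw [smul_add, dvd_smul h.2 (dvd_mul_right _ _), dvd_smul hS (dvd_mul_left _ _), add_zero]⟩

theorem Gn.mul_mem (h : Gn V ϖ τ T) (hp : PP ϖ) {b : Zw} {e : GR R} (he : e ∈ Sn R (Gp b)) :
    e * Dq R ϖ τ T ∈ Sn R (Gp (b * ϖ)) := by
  refine Sn_map (f := LinearMap.mulRight R (Dq R ϖ τ T)) (fun P hP => ?_) he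
  rw [LinearMap.mulRight_apply, Dq, mul_sum]
  refine Submodule.sum_mem _ fun i _ => ?_
  rw [mul_smul_comm, ← br_add]
  exact Submodule.smul_mem _ _ (br_mem (Gp.add hp hP (h.tor' i)))

variable {p n : ℕ} {j : ZMod (p ^ n) →+* R} {M a : Zw}

theorem ES.cop6 (h : ES p n j M a Q lam) : IsCoprime a 6 := h.cop.of_mul_right_left

theorem ES.three (h : ES p n j M a Q lam) {V : Plc} (hV : ¬ Ov V M) : ¬ Ov V 3 := fun e =>
  hV (e.dvd ((show (3 : Zw) ∣ 9 from ⟨3, by norm_num⟩).trans h.nine))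

theorem ES.vN (h : ES p n j M a Q lam) {V : Plc} (hV : ¬ Ov V M) : V.v (p ^ n : ℕ) = 1 := by
  have := not_Ov.1 fun e => hV (Ov.dvd e h.pM)
  rwa [← Nat.cast_pow, map_natCast] at this

theorem KP.na (h : KP (a * M) M V ϖ) : ¬ Ov V a := fun e => h.ov.cop h.cop (Ov_mul.2 (Or.inl e))

theorem KP.nM (h : KP (a * M) M V ϖ) : ¬ Ov V M := fun e => h.ov.cop h.cop (Ov_mul.2 (Or.inr e))

theorem ES.dvd (h : ES p n j M a Q lam) (hK : KP (a * M) M V ϖ) {s : GQ} (hs : FK V ϖ s) :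
    p ^ n ∣ nn ϖ - 1 := by
  have h0 := h.chr.pos
  have h1 := hs.2 (zt (p ^ n)) (BValA_root h0 (zt_prim h0).pow_eq_one).le
  rw [(cy_eq_one h0).1 (h.chr.cyc s (hK.dec hs.1)) _ (zt_prim h0).pow_eq_one] at h1
  refine ((zt_prim h0).pow_eq_one_iff_dvd _).1 (root_one V (h.vN hK.nM) (zt_val_pow h0 _) ?_)
  rwa [← Nat.sub_add_cancel hK.deg.one_le, pow_succ, ← one_sub_mul, map_mul,
    BValA_root h0 (zt_prim h0).pow_eq_one, mul_one, V.v.map_sub] at h1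

theorem ES.nrm (hT : THI_st) (hN : NRM1_st) (h : ES p n j M a Q lam) (hK : KP (a * M) M V ϖ)
    {P : Pt} (hP : Gd P) : ∏ S ∈ tor ϖ, Tn a (P + S) = Tn a (ϖ • P) := by
  have h1 := hP.smul hK.pp.2.pw
  rw [Tn_gd hT h.cop6 h1, ← hN a ϖ P h.cop6 hK.cop.of_mul_right_left.symm h1.two]
  exact prod_congr rfl fun S hS => Tn_gd hT h.cop6 (h1.add_tor ((mem_tor hK.pp.1.ne_zero).1 hS))

theorem ES.kk_Nq (hT : THI_st) (hN : NRM1_st) (hF : FRB_st) (hR : NR_st) (h : ES p n j M a Q lam)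
    (hK : KP (a * M) M V ϖ) {s : GQ} (hs : FK V ϖ s) {b : Zw} (hb : ¬ Ov V b) {e : GR R}
    (he : e ∈ Sn R (Gp b)) {g : GQ} (hg : g ∈ GK) :
    kk j lam (Tn a) g (e * Nq R ϖ) = kk j lam (Tn a) g (tw lam s e) +
      rho j lam g * ev (fun P => j (cN (p ^ n) (Tn a) ϖ P)) e -
      ev (fun P => j (cN (p ^ n) (Tn a) ϖ P)) (tw lam g e) := by
  refine Sn_ext (f := kk j lam (Tn a) g ∘ₗ LinearMap.mulRight R (Nq R ϖ))
    (g := kk j lam (Tn a) g ∘ₗ tw lam s + rho j lam g • ev (fun P => j (cN (p ^ n) (Tn a) ϖ P)) -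
      ev (fun P => j (cN (p ^ n) (Tn a) ϖ P)) ∘ₗ tw lam g) (fun P hP => ?_) he
  have h1 := congrArg j (hR (p ^ n) (Tn a) ϖ P g h.chr.pos hK.pp.1.ne_zero hg (Tn_ne a)
    (Tn_gal hT (cop6_ne h.cop6) g hg) (h.nrm hT hN hK hP.1))
  simp only [LinearMap.comp_apply, LinearMap.mulRight_apply, LinearMap.sub_apply,
    LinearMap.add_apply, LinearMap.smul_apply, Nq, mul_sum, ← br_add, map_sum, kk_br, tw_apply,
    map_smul, ga_br, ev_br, smul_eq_mul, h.chr.one _ ((UM M).inv_mem (hK.dec hs.1)),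
    ((hF V ϖ hK.pp hK.ov).2 s hs).2 b P hb hP.2, rho]
  simp only [map_sum, map_sub, map_add, map_mul] at h1
  rw [← mul_sum, h1]
  ring

theorem ES.kk_Dq (hT : THI_st) (hN : NRM1_st) (hU : UNIT_st) (hC : CONG_st) (hF : FRB_st)
    (hI : INE_st) (hS : FS_st) (h : ES p n j M a Q lam) (hK : KP (a * M) M V ϖ) (hG : Gn V ϖ τ T)
    {s : GQ} (hs : FK V ϖ s) {b : Zw} (hb : ¬ Ov V b) {e : GR R} (he : e ∈ Sn R (Gp b)) :
    kk j lam (Tn a) τ (e * Dq R ϖ τ T) + kk j lam (Tn a) s e =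
      ev (fun P => j (cN (p ^ n) (Tn a) ϖ P)) e := by
  refine Sn_ext (f := kk j lam (Tn a) τ ∘ₗ LinearMap.mulRight R (Dq R ϖ τ T) + kk j lam (Tn a) s)
    (fun P hP => ?_) he
  have h3 := h.three hK.nM
  have h1 := congrArg j (hS (p ^ n) (Tn a) V ϖ τ s T P (h.vN hK.nM) hK.deg (h.dvd hK hs) hG hs
    (Tn_gal hT (cop6_ne h.cop6)) ((hI V h3 τ hG.ine).2.1 b P hb hP.2)
    (((hF V ϖ hK.pp hK.ov).2 s hs).2 b P hb hP.2)
    (by rw [Tn_gd hT h.cop6 hP.1]; exact (hU a V P h.cop6 h3).2 hP.1)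
    (fun S e => by
      rw [Tn_gd hT h.cop6 hP.1, Tn_gd hT h.cop6 (Gp.add hK.pp hP e).1]
      exact (hC a V P S h.cop6 h3 hK.na hP.1 ((hF V ϖ hK.pp hK.ov).1 S e)).2)
    (h.nrm hT hN hK hP.1))
  simp only [LinearMap.comp_apply, LinearMap.mulRight_apply, LinearMap.add_apply, Dq, mul_sum,
    mul_smul_comm, ← br_add, map_sum, map_smul, kk_br, ev_br, smul_eq_mul, one_mul,
    h.chr.one _ ((UM M).inv_mem (hK.dec hs.1)),
    h.chr.one _ ((UM M).inv_mem (hK.dec (V.I_le hG.ine)))]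
  simpa only [map_add, map_sum, map_mul, map_natCast] using h1

theorem ES.kk_ine (hT : THI_st) (hU : UNIT_st) (hI : INE_st) (h : ES p n j M a Q lam) {b : Zw}
    (hM : ¬ Ov V M) (hb : ¬ Ov V b) (hτ : τ ∈ V.I) {e : GR R} (he : e ∈ Sn R (Gp b)) :
    kk j lam (Tn a) τ e = 0 := by
  refine Sn_ext (g := 0) (fun P hP => ?_) he
  have h3 := h.three hM
  rw [kk_br, km_ine V (h.vN hM) hτ.1, map_zero, mul_zero, LinearMap.zero_apply]
  · rw [Tn_gd hT h.cop6 hP.1]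
    exact (hU a V P h.cop6 h3).2 hP.1
  · rw [← Tn_gal hT (cop6_ne h.cop6) τ hτ.2, (hI V h3 τ hτ).2.1 b P hb hP.2]

end Pool.Agent.MP_e23604_nt.W

end

section

/-!
The derived classes for chosen generators of the inertia groups.
-/

set_option autoImplicit false

open Finset QuadraticAlgebra
open scoped Classical

namespace Pool.Agent.MP_e23604_nt.W

open B R S

variable {R : Type} [CommRing R] {ι : Type} {V : ι → Plc} {ϖ : ι → Zw} {τ : ι → GQ} {T : ι → Pt}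
  {p n : ℕ} {j : ZMod (p ^ n) →+* R} {M a : Zw} {Q : Pt} {lam : GQ → R} {S : Finset ι}

/-- the group that fixes the points killed by the primes of `S` -/
noncomputable def HS (ϖ : ι → Zw) (S : Finset ι) : Subgroup GQ := GK ⊓ ⨅ i ∈ S, UM (ϖ i)

theorem mem_HS {g : GQ} : g ∈ HS ϖ S ↔ g ∈ GK ∧ ∀ i ∈ S, g ∈ UM (ϖ i) := by
  simp [HS, Subgroup.mem_iInf]

/-- the derived element of the group ring -/
noncomputable def dS (M : Zw) (lam : GQ → R) (Q : Pt) (ϖ : ι → Zw) (τ : ι → GQ) (T : ι → Pt)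
    (S : Finset ι) : GR R := dz (UM M) lam Q * ∏ i ∈ S, Dq R (ϖ i) (τ i) (T i)

/-- admissible sets of primes -/
structure Ad (a M : Zw) (V : ι → Plc) (ϖ : ι → Zw) (τ : ι → GQ) (T : ι → Pt) (S : Finset ι) :
    Prop where
  kp : ∀ i ∈ S, KP (a * M) M (V i) (ϖ i)
  gn : ∀ i ∈ S, Gn (V i) (ϖ i) (τ i) (T i)
  inj : Set.InjOn ϖ S

theorem Ad.mono (h : Ad a M V ϖ τ T S) {S' : Finset ι} (e : S' ⊆ S) : Ad a M V ϖ τ T S' :=
  ⟨fun i hi => h.kp i (e hi), fun i hi => h.gn i (e hi), h.inj.mono e⟩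

theorem PP.eq_EKOL0 {x y : Zw} (hx : PP x) (hy : PP y) (e : x ∣ y) : x = y := by
  obtain ⟨u, rfl⟩ := e
  have hu : IsUnit u := (hy.1.irreducible.isUnit_or_isUnit rfl).resolve_left hx.1.not_isUnit
  rw [Pry.unit (u := u) ?_ hu, mul_one]
  have := dvd_sub hy.2 (hx.2.mul_left u)
  unfold Pry
  convert this using 1
  ring

theorem Ad.nov (h : Ad a M V ϖ τ T S) {i k : ι} (hi : i ∈ S) (hk : k ∈ S) (e : k ≠ i) :
    ¬ Ov (V i) (ϖ k) := (h.kp i hi).ov.cop ((h.kp i hi).pp.1.coprime_iff_not_dvd.2 fun d =>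
  e (h.inj hk hi ((h.kp i hi).pp.eq_EKOL0 (h.kp k hk).pp d).symm))

theorem Ad.nov' (h : Ad a M V ϖ τ T S) {i : ι} (hi : i ∈ S) :
    ¬ Ov (V i) (M * ∏ k ∈ S.erase i, ϖ k) := by
  rw [Ov_mul, not_or]
  refine ⟨(h.kp i hi).nM, prod_induction ϖ (fun x => ¬ Ov (V i) x) (fun x y hx hy e => ?_)
    (not_Ov_unit _ isUnit_one) fun k hk => h.nov hi (mem_of_mem_erase hk) (ne_of_mem_erase hk)⟩
  exact (Ov_mul.1 e).elim hx hy

theorem Ad.tau (hI : INE_st) (hE : ES p n j M a Q lam) (h : Ad a M V ϖ τ T S) {i k : ι}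
    (hi : i ∈ S) (hk : k ∈ S) (e : k ≠ i) : τ i ∈ UM (ϖ k) :=
  (hI _ (hE.three (h.kp i hi).nM) _ (h.gn i hi).ine).2.2 _ (h.nov hi hk e)

theorem Ad.dec (hI : INE_st) (hE : ES p n j M a Q lam) (h : Ad a M V ϖ τ T S) (W : Submonoid GQ)
    (hW : ∀ i ∈ S, τ i ∈ W) {g : GQ} (hg : g ∈ GK) : ∃ w ∈ W, w ∈ GK ∧ w⁻¹ * g ∈ HS ϖ S := by
  induction S using Finset.induction_on with
  | empty => exact ⟨1, W.one_mem, GK.one_mem, mem_HS.2 ⟨by simpa using hg, by simp⟩⟩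
  | insert i S hi ih =>
    obtain ⟨w, h1, h2, h3⟩ := ih (h.mono (subset_insert _ _)) fun k hk => hW k (mem_insert_of_mem hk)
    have hG := h.gn i (mem_insert_self _ _)
    obtain ⟨e, he⟩ := hG.dec _ (mem_HS.1 h3).1
    refine ⟨w * τ i ^ e, W.mul_mem h1 (W.pow_mem (hW i (mem_insert_self _ _)) e),
      GK.mul_mem h2 (GK.pow_mem hG.mem e), ?_⟩
    rw [mul_inv_rev, mul_assoc, mem_HS, forall_mem_insert]
    exact ⟨he.1, he, fun k hk => (UM _).mul_mem ((UM _).inv_mem ((UM _).pow_mem (h.tau hI hE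
      (mem_insert_self _ _) (mem_insert_of_mem hk) fun e => hi (e ▸ hk)) e)) ((mem_HS.1 h3).2 k hk)⟩

theorem ES.fix (hE : ES p n j M a Q lam) : ∀ u ∈ UM M, gal u Q = Q := fun _ hu => hu.2 Q hE.gen.zero

theorem Ad.nv (hE : ES p n j M a Q lam) (h : Ad a M V ϖ τ T S) {S' : Finset ι} (e : S ⊆ S') :
    Nv (tw lam) (HS ϖ S') (dS M lam Q ϖ τ T S) where
  le := inf_le_left
  nrm g hg u hu := mem_HS.2 ⟨cj_mem hg hu.1, fun i hi => ⟨cj_mem hg hu.1, fun P e => by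
    rw [gal_mul, gal_mul, ((mem_HS.1 hu).2 i hi).2 _ (by rw [← gal_smul hg, e, map_zero]),
      ← gal_mul, inv_mul_cancel, gal_one]⟩⟩
  fix u hu := by
    rw [dS, tw_dz hE.chr hE.fix hu.1, map_prod]
    exact congrArg _ (prod_congr rfl fun i hi => (h.gn i hi).ga_fix ((mem_HS.1 hu).2 i (e hi)))

theorem Ad.mem (hY : CYG_st) (hE : ES p n j M a Q lam) (h : Ad a M V ϖ τ T S) :
    dS M lam Q ϖ τ T S ∈ Sn R (Gp (M * ∏ i ∈ S, ϖ i)) := by
  induction S using Finset.induction_on with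
  | empty =>
    rw [dS, prod_empty, prod_empty, mul_one, mul_one]
    obtain ⟨u, hu⟩ := (hY M hE.ne).2.1 Q hE.gen T0
      (dvd_smul three_T0 ((show (3 : Zw) ∣ 9 from ⟨3, by norm_num⟩).trans hE.nine))
    exact dz_mem hE.chr ⟨⟨u, hu.symm⟩, hE.gen.zero⟩
  | insert i S hi ih =>
    rw [dS, prod_insert hi, prod_insert hi, mul_comm (ϖ i), mul_comm (Dq R _ _ _), ← mul_assoc,
      ← mul_assoc]
    exact (h.gn i (mem_insert_self _ _)).mul_mem (h.kp i (mem_insert_self _ _)).pp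
      (ih (h.mono (subset_insert _ _)))

theorem dS_erase {i : ι} (hi : i ∈ S) :
    dS M lam Q ϖ τ T S = dS M lam Q ϖ τ T (S.erase i) * Dq R (ϖ i) (τ i) (T i) := by
  rw [dS, dS, mul_assoc, prod_erase_mul _ _ hi]

theorem Ad.tw_tau (hI : INE_st) (hE : ES p n j M a Q lam) (h : Ad a M V ϖ τ T S) {i : ι}
    (hi : i ∈ S) {s : GQ} (hs : FK (V i) (ϖ i) s) :
    tw lam (τ i) (dS M lam Q ϖ τ T S) - dS M lam Q ϖ τ T S =
      dS M lam Q ϖ τ T (S.erase i) - dS M lam Q ϖ τ T (S.erase i) * Nq R (ϖ i) := by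
  obtain ⟨c, hc⟩ := hE.dvd (h.kp i hi) hs
  have h1 := (h.gn i hi).ga_Dq (R := R) (by
    rw [hc, Nat.cast_mul, ← map_natCast j, ZMod.natCast_self, map_zero, zero_mul])
  rw [dS, tw_dz hE.chr hE.fix (h.gn i hi).mem, ← prod_erase_mul _ _ hi, map_mul, h1, map_prod,
    prod_congr rfl fun k hk => (h.gn k (mem_of_mem_erase hk)).ga_fix
      (h.tau hI hE hi (mem_of_mem_erase hk) (ne_of_mem_erase hk)), dS]
  ring

theorem KOL0_pf (hT : THI_st) (hN : NRM1_st) (hU : UNIT_st) (hC : CONG_st) (hF : FRB_st)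
    (hI : INE_st) (hY : CYG_st) (hK : FRK_st) (hR : NR_st) (hS : FS_st) : KOL0_st := by
  intro R _ p n j M a Q lam g₀ ι V ϖ τ T hE hg₀
  have A := hE.chr.toAb (Tn_ne a) (Tn_gal hT (cop6_ne hE.cop6))
  obtain ⟨⟨-, hρ, -, hρU⟩, -⟩ := ZC_pf R _ j _ lam hE.chr
  set ρ := rho j lam
  set k := kk j lam (Tn a)
  set d := dS M lam Q ϖ τ T
  have step : ∀ S, Ad a M V ϖ τ T S → ∀ i ∈ S, ∀ s, FK (V i) (ϖ i) s → ∀ h ∈ HS ϖ S,
      k h (tw lam (τ i) (d S) - d S) = -k h (tw lam s (d (S.erase i)) - d (S.erase i)) -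
        (ρ h - 1) * ev (fun P => j (cN (p ^ n) (Tn a) (ϖ i) P)) (d (S.erase i)) := by
    intro S hA i hi s hs h hh
    have h1 := hE.kk_Nq hT hN hF hR (hA.kp i hi) hs (hA.nov' hi)
      ((hA.mono (erase_subset i S)).mem hY hE) hh.1
    rw [((hA.mono (erase_subset i S)).nv hE (erase_subset i S)).fix h hh] at h1
    rw [hA.tw_tau hI hE hi hs, map_sub, map_sub]
    linear_combination -h1
  have bo : ∀ S, Ad a M V ϖ τ T S → ∀ g ∈ GK, Bo ρ (HS ϖ S) fun h => k h (tw lam g (d S) - d S) := by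
    intro S
    induction S using Finset.strongInduction with
    | H S ih =>
    intro hA g hg
    have hd := hA.nv hE subset_rfl
    have z : ∀ g ∈ HS ϖ S, Bo ρ (HS ϖ S) fun h => k h (tw lam g (d S) - d S) := fun g hg =>
      ⟨0, fun h _ => by simp only [d, hd.fix g hg, sub_self, map_zero, mul_zero]⟩
    let W : Submonoid GQ :=
      { carrier := {g | g ∈ GK ∧ Bo ρ (HS ϖ S) fun h => k h (tw lam g (d S) - d S)}
        one_mem' := ⟨GK.one_mem, z 1 (one_mem _)⟩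
        mul_mem' := fun h h' => ⟨GK.mul_mem h.1 h'.1, A.bo_mul hd h.1 h'.1 h.2 h'.2⟩ }
    obtain ⟨w, h1, h2, h3⟩ := hA.dec hI hE W (fun i hi => ⟨(hA.gn i hi).mem, by
      obtain ⟨s, hs⟩ := (hK _ _ (hA.kp i hi).pp.1 (hA.kp i hi).ov).1
      obtain ⟨m, hm⟩ := ih _ (erase_ssubset hi) (hA.mono (erase_subset i S)) s hs.1.2
      refine ⟨-m - ev (fun P => j (cN (p ^ n) (Tn a) (ϖ i) P)) (d (S.erase i)), fun h hh => ?_⟩
      have := hm h (mem_HS.2 ⟨hh.1, fun k hk => (mem_HS.1 hh).2 k (mem_of_mem_erase hk)⟩)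
      simp only at this ⊢
      rw [step S hA i hi s hs h hh, this]
      ring⟩) hg
    simpa using A.bo_mul hd h2 h3.1 h1.2 (z _ h3)
  have ex : ∀ S, ∃ g, Ad a M V ϖ τ T S → g ∈ HS ϖ S ∧ ρ g = ρ g₀ := fun S => by
    by_cases hA : Ad a M V ϖ τ T S
    · obtain ⟨w, h1, h2, h3⟩ := hA.dec hI hE (UM M).toSubmonoid
        (fun i hi => (hA.kp i hi).dec ((V i).I_le (hA.gn i hi).ine)) hg₀
      exact ⟨_, fun _ => ⟨h3, by
        rw [A.mul _ (GK.inv_mem h2) _ hg₀, hρU _ ((UM M).inv_mem h1), one_mul]⟩⟩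
    · exact ⟨1, fun h => absurd h hA⟩
  choose g₁ hg₁ using ex
  refine ⟨fun S => Kp ρ k (g₁ S) (d S), fun g hg => ?_, fun S h1 h2 => ?_⟩
  · have hA : Ad a M V ϖ τ T ∅ := ⟨by simp, by simp, by simp⟩
    have hd := hA.nv hE subset_rfl
    have hQ := hA.mem hY hE
    simp only [A.Kp_eq hd (hg₁ _ hA).1 hg, (hg₁ _ hA).2, hd.fix g (mem_HS.2 ⟨hg, by simp⟩), sub_self,
      map_zero, add_zero, d]
    obtain ⟨u, hu⟩ := (hY M hE.ne).2.1 Q hE.gen T0
      (dvd_smul three_T0 ((show (3 : Zw) ∣ 9 from ⟨3, by norm_num⟩).trans hE.nine))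
    rw [dS, prod_empty, mul_one, kk_dz hE.chr (Tn_gal hT (cop6_ne hE.cop6)) hg,
      Tn_gd hT hE.cop6 ⟨u, hu.symm⟩]
  have hA : Ad a M V ϖ τ T S := ⟨fun i hi => (h1 i hi).1, fun i hi => (h1 i hi).2, h2⟩
  have hd := hA.nv hE subset_rfl
  obtain ⟨e1, e2⟩ := hg₁ S hA
  refine ⟨⟨hE.chr.Kp_lc hρ.1 e1.1 _, fun g hg g' hg' => A.Kp_mul hd hg hg' (bo S hA g' hg') e1⟩,
    fun W hW t ht => ?_, fun i hi s hs => ?_⟩
  · have hM : ¬ Ov W M := fun e => hW (e.dvd (dvd_mul_right _ _))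
    have := hd.fix t (mem_HS.2 ⟨ht.2, fun i hi => (hI W (hE.three hM) t ht).2.2 _ fun e =>
      hW (e.dvd ((dvd_prod_of_mem ϖ hi).mul_left M))⟩)
    simp only [A.Kp_eq hd e1 ht.2, this, hE.kk_ine hT hU hI hM hW ht (hA.mem hY hE), sub_self,
      map_zero, mul_zero, add_zero, d, k]
  · have hA' := hA.mono (erase_subset i S)
    have hd' := hA'.nv hE subset_rfl
    have e3 : g₁ S ∈ HS ϖ (S.erase i) :=
      mem_HS.2 ⟨e1.1, fun k hk => (mem_HS.1 e1).2 k (mem_of_mem_erase hk)⟩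
    have h3 := hE.kk_Dq hT hN hU hC hF hI hS (hA.kp i hi) (hA.gn i hi) hs (hA.nov' hi)
      (hA'.mem hY hE)
    rw [← dS_erase hi] at h3
    have h4 := step S hA i hi s hs _ e1
    simp only [d]
    rw [A.Kp_congr hd' hs.1.2 (bo _ hA' s hs.1.2) (hg₁ _ hA').1 e3 ((hg₁ _ hA').2.trans e2.symm),
      A.Kp_eq hd e1 (hA.gn i hi).mem, A.Kp_eq hd' e3 hs.1.2]
    linear_combination h4 + (ρ (g₁ S) - 1) * h3

end Pool.Agent.MP_e23604_nt.W

end

section

/-!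
The normalised derived classes.
-/

set_option autoImplicit false

open Finset QuadraticAlgebra
open scoped Classical

namespace Pool.Agent.MP_e23604_nt.W

open B R S

theorem ES.l_ne {R : Type} [CommRing R] {p n : ℕ} {j : ZMod (p ^ n) →+* R} {M a : Zw} {Q : Pt}
    {lam : GQ → R} (h : ES p n j M a Q lam) {V : Plc} (hV : ¬ Ov V M) : V.l ≠ p ∧ V.l ≠ 3 :=
  ⟨fun e => hV ((Ov_l V).dvd (e ▸ (dvd_pow_self _ (Nat.one_le_iff_ne_zero.1 h.pos)).trans h.pM)),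
    fun e => h.three hV (by simpa [e] using Ov_l V)⟩

theorem KOL_pf (h0 : KOL0_st) (hT : TAU_st) (hM : TAME_st) : KOL_st := by
  intro R _ p n j M a Q lam g₀ ι V ϖ hE hg₀
  have : NeZero (p ^ n) := ⟨hE.chr.pos⟩
  have ex : ∀ i, ∃ τ T, KP (a * M) M (V i) (ϖ i) → Gn (V i) (ϖ i) τ T := fun i => by
    by_cases h : KP (a * M) M (V i) (ϖ i)
    · obtain ⟨τ, T, h⟩ := hT _ _ h.pp h.deg h.ov
      exact ⟨τ, T, fun _ => h⟩
    · exact ⟨1, 0, fun e => absurd e h⟩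
  choose τ T hG using ex
  obtain ⟨kap, h1, h2⟩ := h0 R p n j M a Q lam g₀ ι V ϖ τ T hE hg₀
  obtain ⟨⟨-, -, -, hρ⟩, -⟩ := ZC_pf R _ j _ lam hE.chr
  refine ⟨fun S g => (∏ i ∈ S, j (km (p ^ n) (τ i) (V i).l)) * kap S g,
    fun g hg => by simp [h1 g hg], fun S hS hi => ?_⟩
  obtain ⟨h3, h4, h5⟩ := h2 S (fun i h => ⟨hS i h, hG i (hS i h)⟩) hi
  refine ⟨⟨h3.1.map _, fun g hg g' hg' => by simp only [h3.2 g hg g' hg']; ring⟩,
    fun W hW t ht => by simp only [h4 W hW t ht, mul_zero], fun i h s hs t ht => ?_⟩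
  have hK := hS i h
  obtain ⟨-, ⟨t₁, e1, e2⟩, -, -, -, h6⟩ := hM p n (V i) hE.pp (hE.l_ne hK.nM).1 (hE.l_ne hK.nM).2
  have h7 := h6 R (kap S) (fun g hg g' hg' => by
      rw [h3.2 g hg.2 g' hg'.2, hρ g (hK.dec ((V i).I_le hg)), one_mul])
    (h3.1.mono inf_le_right) (fun u _ => by rw [nsmul_eq_mul, j_zero j, zero_mul]) t₁ e1 e2
  have h8 := h5 i h s hs
  rw [h7 _ (hG i hK).ine, nsmul_eq_mul, ← map_natCast j, ZMod.natCast_zmod_val] at h8
  simp only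
  rw [h7 t ht, nsmul_eq_mul, ← map_natCast j, ZMod.natCast_zmod_val, ← prod_erase_mul _ _ h]
  linear_combination (∏ i ∈ S.erase i, j (km (p ^ n) (τ i) (V i).l)) *
    j (km (p ^ n) t (V i).l) * h8

end Pool.Agent.MP_e23604_nt.W

end

section

/-!
The annihilator of strict classes.
-/

set_option autoImplicit false

open Finset QuadraticAlgebra
open scoped Classical

namespace Pool.Agent.MP_e23604_nt.W

open B R S

theorem Chn.span_EES1 {R : Type} [CommRing R] {t : R} {N : ℕ} (h : Chn t N) {x : R} (hx : x ≠ 0) :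
    ∃ T : AddSubgroup R, x ∉ T ∧ ∀ y, y ∉ T → y ∣ x := by
  have h1 : vl t N x + 1 ≤ N := lt_of_le_of_ne (vl_le t N x) fun e => hx (h.vl_eq.1 e)
  have h2 : ∀ y, y ∈ (Ideal.span {t ^ (vl t N x + 1)}).toAddSubgroup ↔ vl t N x + 1 ≤ vl t N y :=
    fun y => Ideal.mem_span_singleton.trans (le_vl h1).symm
  exact ⟨_, fun e => by have := (h2 x).1 e; omega, fun y e =>
    h.dvd_iff.2 (by have := mt (h2 y).2 e; omega)⟩

theorem ES1_pf (hK : KOL_st) (hI : INE_st) (hC : CHB_st) (hM : TAME_st) (hR : RCC_st) :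
    ES1_st := by
  intro R _ p n j t N M a Q lam x hc hE hx g₀ hg₀ u hu u' hu'
  obtain ⟨⟨hl, hρ, hcj, hρU⟩, -⟩ := ZC_pf R _ j _ lam hE.chr
  set z := fun g => (rho j lam g₀ - 1) * zc j (UM M) lam (Th a Q) g with hz
  rw [mul_assoc 4]
  change 4 * z u' * x u = 0
  by_cases e1 : x u = 0
  · rw [e1, mul_zero]
  by_cases e2 : z u' = 0
  · rw [e2, mul_zero, zero_mul]
  obtain ⟨T, h1, h2⟩ := hc.span_EES1 e1
  obtain ⟨T', h3, h4⟩ := hc.span_EES1 e2
  obtain ⟨k₀, h5, h6⟩ := hK R p n j M a Q lam g₀ Qb (fun _ => V3) (fun _ => 1) hE hg₀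
  obtain ⟨h6, -⟩ := h6 ∅ (by simp) (by simp)
  obtain ⟨V, ϖ, φ, s1, -, s2, -, s3, s4, s5⟩ := hC.2 ⊤ (UM M) (p ^ n) 0 (a * M) R R x (k₀ ∅) T T'
    ON.top hE.chr.opn (UM_le M) hE.chr.pos hE.chr.cyc (mul_ne_zero (cop6_ne hE.cop6) hE.ne)
    (fun g hg g' hg' => by rw [hx.1.2 g hg.1 g' hg'.1, hE.chr.one g hg, one_mul])
    (hx.1.1.mono (UM_le M)) (fun g hg g' hg' => by rw [h6.2 g hg.1 g' hg'.1, hρU g hg, one_mul])
    (h6.1.mono (UM_le M)) ⟨u, hu, h1⟩ ⟨u', hu', by rw [h5 u' hu'.1]; exact h3⟩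
  have hP : KP (a * M) M V ϖ := ⟨s1.pp, s1.deg ▸ V.hl.out, s1.ov,
    s2.of_isCoprime_of_dvd_left ⟨star ϖ, by rw [mul_star_nn, s1.deg]⟩, s3⟩
  obtain ⟨k, h7, h8⟩ := hK R p n j M a Q lam g₀ Qb (fun _ => V) (fun _ => ϖ) hE hg₀
  obtain ⟨h8, h9, h10⟩ := h8 {0} (fun _ _ => hP) (by simp)
  obtain ⟨-, ⟨τ, t1, t2⟩, -⟩ := hM p n V hE.pp (hE.l_ne hP.nM).1 (hE.l_ne hP.nM).2
  have h11 := (hR R p n j _ lam (k {0}) x hE.pp hE.pos hρ hl hcj h8 hx.1).2 V ϖ φ s1.pp hP.deg s1.ov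
    s1.fr (hE.l_ne hP.nM).1 (fun g hg => ⟨hρU g (s3 hg), hE.chr.one g (s3 hg), hE.chr.cyc g (s3 hg)⟩)
    (fun W hW => Or.inr (by
      by_cases hWM : Ov W M
      · exact Or.inl (hx.2.2 W hWM)
      · refine Or.inr fun g hg => ?_
        have := (hI W (hE.three hWM) g hg).2.2 M hWM
        exact ⟨hρU g this, hE.chr.one g this,
          h9 W (by simpa [Ov_mul, hWM] using hW) g hg, hx.2.1 W hWM g hg⟩)) τ t1
  rw [h10 0 (by simp) φ s1.fr τ t1, t2, hx.2.1 V hP.nM τ t1, map_one, erase_singleton,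
    h7 φ s1.fr.1.2] at h11
  rw [h5 φ s1.fr.1.2] at s5
  obtain ⟨c, hc⟩ := h2 _ s4
  obtain ⟨c', hc'⟩ := h4 _ s5
  rw [hc, hc']
  linear_combination -c * c' * h11

end Pool.Agent.MP_e23604_nt.W

end

section

/-!
A generator of the action of inertia on the points killed by a prime of degree one.
-/

set_option autoImplicit false

open Finset QuadraticAlgebra
open scoped Classical

namespace Pool.Agent.MP_e23604_nt.W

open B R S

theorem gen_ETAU {A : Type} [AddCommGroup A] {q : ℕ} (hq : q.Prime) {T : A} (h0 : T ≠ 0)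
    (h1 : q • T = 0) : ∃ γ : ℕ, γ ^ (q - 1) • T = T ∧ (∀ e, γ ^ e • T ≠ 0) ∧
      Set.InjOn (fun e => γ ^ e • T) (range (q - 1)) := by
  have : Fact q.Prime := ⟨hq⟩
  have ho : addOrderOf T = q := addOrderOf_eq_prime h1 h0
  have key : ∀ i k : ℕ, i • T = k • T ↔ (i : ZMod q) = k := fun i k => by
    rw [nsmul_eq_nsmul_iff_modEq, ho, ZMod.natCast_eq_natCast_iff]
  obtain ⟨u, hu⟩ := IsCyclic.exists_generator (α := (ZMod q)ˣ)
  have hc : orderOf u = q - 1 := by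
    rw [orderOf_eq_card_of_forall_mem_zpowers hu, Nat.card_eq_fintype_card, ZMod.card_units]
  have e : ∀ n : ℕ, (((u : ZMod q).val ^ n : ℕ) : ZMod q) = ((u ^ n : (ZMod q)ˣ) : ZMod q) :=
    fun n => by rw [Nat.cast_pow, ZMod.natCast_zmod_val, Units.val_pow_eq_pow_val]
  refine ⟨(u : ZMod q).val, ?_, fun n hn => ?_, fun a ha b hb hab => ?_⟩
  · refine ((key _ 1).2 ?_).trans (one_nsmul T)
    rw [e, ← hc, pow_orderOf_eq_one, Units.val_one, Nat.cast_one]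
  · have := (key _ 0).1 (hn.trans (zero_nsmul T).symm)
    rw [e, Nat.cast_zero] at this
    exact Units.ne_zero _ this
  · have := (key _ _).1 hab
    rw [e, e, Units.val_inj] at this
    rw [mem_coe, mem_range, ← hc] at ha hb
    exact pow_injOn_Iio_orderOf ha hb this

theorem TAU_pf (hC : CARD_st) (hR : RAMQ_st) : TAU_st := by
  intro V ϖ hP hq hO
  have h0 : ϖ ≠ 0 := hP.1.ne_zero
  have z0 : (0 : Pt) ∈ tor ϖ := (mem_tor h0).2 (smul_zero ϖ)
  have hc : ((tor ϖ).erase 0).card = nn ϖ - 1 := by rw [card_erase_of_mem z0, hC ϖ h0]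
  obtain ⟨T, hT⟩ : ((tor ϖ).erase 0).Nonempty := card_pos.1 (by have := hq.two_le; omega)
  rw [mem_erase, mem_tor h0] at hT
  have hn : ∀ n : ℕ, ϖ • n • T = 0 := fun n => by rw [smul_comm, hT.2, smul_zero]
  have h1 : nn ϖ • T = 0 := by
    rw [← Nat.cast_smul_eq_nsmul Zw, ← mul_star_nn, mul_comm, mul_smul, hT.2, smul_zero]
  obtain ⟨γ, g1, g2, g3⟩ := gen_ETAU hq hT.1 h1
  obtain ⟨τ, t1, t2⟩ := hR V ϖ T (γ • T) hP hq hO hT.2 (hn γ) hT.1 (by simpa using g2 1)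
  have tK : τ ∈ GK := V.D_le (V.I_le t1)
  have tp : ∀ e : ℕ, gal (τ ^ e) T = γ ^ e • T := fun e => by
    induction e with
    | zero => rw [pow_zero, pow_zero, gal_one, one_nsmul]
    | succ e ih => rw [pow_succ, gal_mul, t2, map_nsmul, ih, pow_succ, mul_nsmul]
  have im : (range (nn ϖ - 1)).image (fun e => γ ^ e • T) = (tor ϖ).erase 0 := by
    refine eq_of_subset_of_card_le (fun P hP => ?_) ?_
    · obtain ⟨e, -, rfl⟩ := mem_image.1 hP
      exact mem_erase.2 ⟨g2 e, (mem_tor h0).2 (hn _)⟩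
    · rw [card_image_of_injOn g3, card_range, hc]
  refine ⟨τ, T, t1, hT.2, by rw [tp, g1], fun A _ F => ?_, fun g hg => ?_⟩
  · rw [← add_sum_erase _ _ z0, ← im, sum_image g3]
    simp only [tp]
  · have k : gal g T ∈ (tor ϖ).erase 0 := mem_erase.2
      ⟨fun e => hT.1 (gal_inj g (e.trans (map_zero _).symm)),
        (mem_tor h0).2 (by rw [← gal_smul hg, hT.2, map_zero])⟩
    rw [← im] at k
    obtain ⟨e, -, he⟩ := mem_image.1 k
    have k2 : gal ((τ ^ e)⁻¹ * g) T = T := by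
      rw [gal_mul, ← he, ← tp, ← gal_mul, inv_mul_cancel, gal_one]
    refine ⟨e, mem_UM.2 ⟨GK.mul_mem (GK.inv_mem (GK.pow_mem tK e)) hg, fun P hP => ?_⟩⟩
    by_cases p0 : P = 0
    · rw [p0, map_zero]
    have k3 : P ∈ (tor ϖ).erase 0 := mem_erase.2 ⟨p0, (mem_tor h0).2 hP⟩
    rw [← im] at k3
    obtain ⟨i, -, rfl⟩ := mem_image.1 k3
    rw [map_nsmul, k2]

end Pool.Agent.MP_e23604_nt.W

end

section

set_option autoImplicit false

open Finset QuadraticAlgebra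
open scoped Classical

namespace Pool.Agent.MP_e23604_nt.W

open B R S

theorem lz_prod_ENR {N : ℕ} (h : N ≠ 0) {ι : Type} (s : Finset ι) {f : ι → Qb}
    (hf : ∀ i ∈ s, f i ^ N = 1) : lz N (∏ i ∈ s, f i) = ∑ i ∈ s, lz N (f i) := by
  induction s using Finset.induction_on with
  | empty => exact lz_one h
  | insert i s hi ih =>
    have := fun j hj => hf j (mem_insert_of_mem hj)
    rw [prod_insert hi, sum_insert hi, lz_mul h (hf i (mem_insert_self _ _))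
      (by rw [← prod_pow, prod_eq_one this]), ih this]

theorem prod_gal_ENR {b : Zw} (hb : b ≠ 0) {g : GQ} (hg : g ∈ GK) (F : Pt → Qb) :
    ∏ T ∈ tor b, F (gal g T) = ∏ T ∈ tor b, F T := by
  have k1 : ∀ T ∈ tor b, gal g T ∈ tor b := fun T hT => by
    rw [mem_tor hb] at *
    rw [← gal_smul hg, hT, map_zero]
  exact prod_nbij (gal g) k1 (gal_inj g).injOn
    (surjOn_of_injOn_of_card_le (gal g) k1 (gal_inj g).injOn le_rfl) fun _ _ => rfl

theorem NR_pf : NR_st := by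
  intro N θ b P h hN hb hh h0 hθ hP
  have e1 : ∏ T ∈ tor b, rt N (θ (gal h P + T)) = ∏ T ∈ tor b, rt N (h (θ (P + T))) := by
    rw [← prod_gal_ENR hb hh]
    simp only [← map_add, hθ]
  have e2 : θ (b • gal h P) = h (θ (b • P)) := by rw [← gal_smul hh, hθ]
  have h1 : ∀ Q, h (θ Q) ≠ 0 := fun Q => (map_ne_zero h).2 (h0 Q)
  have x1 : ((∏ T ∈ tor b, rt N (θ (P + T))) / rt N (θ (b • P))) ^ N = 1 := by
    simp only [div_pow, ← prod_pow, rt_pow hN]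
    rw [hP, div_self (h0 _)]
  have x2 : ((∏ T ∈ tor b, rt N (h (θ (P + T)))) / rt N (h (θ (b • P)))) ^ N = 1 := by
    simp only [div_pow, ← prod_pow, rt_pow hN]
    rw [← map_prod, hP, div_self (h1 _)]
  have x3 : (∏ T ∈ tor b, h (rt N (θ (P + T))) / rt N (h (θ (P + T)))) ^ N = 1 := by
    rw [← prod_pow, prod_eq_one fun T _ => km_root hN h (h0 _)]
  rw [eq_sub_iff_add_eq, cN, cN, e1, e2, ← lz_act hN h x1]
  simp only [km]
  rw [← lz_prod_ENR hN _ fun T _ => km_root hN h (h0 _), ← lz_mul hN x3 x2,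
    ← lz_mul hN (km_root hN h (h0 _)) (by rw [← map_pow, x1, map_one]), prod_div_distrib,
    map_div₀, map_prod]
  congr 1
  have y1 : ∏ T ∈ tor b, rt N (h (θ (P + T))) ≠ 0 :=
    prod_ne_zero_iff.2 fun T _ => rt_ne hN (h1 _)
  have y2 := rt_ne hN (h1 (b • P))
  have y3 := (map_ne_zero h).2 (rt_ne hN (h0 (b • P)))
  field_simp

end Pool.Agent.MP_e23604_nt.W

end

section

/-!
The comparison of the finite and the singular part.
-/

set_option autoImplicit false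

open Finset QuadraticAlgebra
open scoped Classical

namespace Pool.Agent.MP_e23604_nt.W

open B R S

/-- congruent units -/
def Cg_EFS (V : Plc) (a b : Qb) : Prop := V.v b = 1 ∧ V.v (a - b) < 1

section cg

variable {V : Plc} {a b c d : Qb}

theorem left_EFS (h : Cg_EFS V a b) : V.v a = 1 := by
  have := bLocA_add_eq V.na (a := b) (b := a - b) (h.1 ▸ h.2)
  rwa [add_sub_cancel, h.1] at this

theorem refl_EFS (h : V.v a = 1) : Cg_EFS V a a := ⟨h, by simp⟩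

theorem symm_EFS (h : Cg_EFS V a b) : Cg_EFS V b a :=
  ⟨left_EFS h, by rw [← V.v.map_neg, neg_sub]; exact h.2⟩

theorem mul_EFS (h : Cg_EFS V a b) (h' : Cg_EFS V c d) : Cg_EFS V (a * c) (b * d) := by
  refine ⟨by rw [map_mul, h.1, h'.1, one_mul], ?_⟩
  rw [show a * c - b * d = a * (c - d) + (a - b) * d by ring]
  refine bLocA_add_lt V.na ?_ ?_
  · rw [map_mul, left_EFS h, one_mul]; exact h'.2
  · rw [map_mul, h'.1, mul_one]; exact h.2

theorem prod_EFS {ι : Type} (s : Finset ι) {f g : ι → Qb} (h : ∀ i ∈ s, Cg_EFS V (f i) (g i)) :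
    Cg_EFS V (∏ i ∈ s, f i) (∏ i ∈ s, g i) := by
  induction s using Finset.induction_on with
  | empty => simpa using refl_EFS (V := V) (map_one _)
  | insert i s hi ih =>
    rw [prod_insert hi, prod_insert hi]
    exact mul_EFS (h i (mem_insert_self _ _)) (ih fun j hj => h j (mem_insert_of_mem hj))

theorem pow_EFS (h : Cg_EFS V a b) (n : ℕ) : Cg_EFS V (a ^ n) (b ^ n) := by
  simpa using prod_EFS (range n) (f := fun _ => a) (g := fun _ => b) fun _ _ => h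

theorem root_EFS {N : ℕ} (h0 : N ≠ 0) (h : V.v (a ^ N) = 1) : V.v a = 1 := by
  rw [map_pow] at h
  exact (pow_eq_one_iff_of_nonneg (V.v.nonneg _) h0).1 h

theorem ne_EFS (h : V.v a = 1) : a ≠ 0 := fun e => by simp [e] at h

theorem eq_EFS {N : ℕ} (hN : V.v N = 1) (h0 : N ≠ 0) (ha : a ^ N = 1) (hb : b ^ N = 1)
    (h : Cg_EFS V (a * c) (b * c)) : a = b := by
  have b1 : V.v b = 1 := root_EFS h0 (by rw [hb, map_one])
  have b0 := ne_EFS b1
  refine (div_eq_one_iff_eq b0).1 (root_eq_one V hN (by rw [div_pow, ha, hb, div_one]) ?_)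
  have e : a / b - 1 = (a * c - b * c) / (b * c) := by
    have := right_ne_zero_of_mul (ne_EFS h.1)
    field_simp
  rw [e, map_div₀, h.1, div_one]
  exact h.2

end cg

theorem zt_sum_EFS {N : ℕ} (h0 : N ≠ 0) (k : ℕ → ZMod N) (m : ℕ) :
    zt N ^ (∑ e ∈ range m, (e : ZMod N) * k e).val = ∏ e ∈ range m, (zt N ^ (k e).val) ^ e := by
  induction m with
  | zero => simp
  | succ m ih => rw [sum_range_succ, prod_range_succ, zt_add h0, ih, zt_mul h0, zt_nat h0, pow_right_comm]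

theorem tel_EFS (R : ℕ → Qb) (m : ℕ) (h : R m = R 0) (h0 : R 0 ≠ 0) :
    (∏ e ∈ range m, R e ^ e) * R 0 ^ m = (∏ e ∈ range m, R (e + 1) ^ e) * ∏ e ∈ range m, R e := by
  have h1 : ∏ e ∈ range m, R (e + 1) = ∏ e ∈ range m, R e := by
    refine mul_right_cancel₀ h0 ?_
    rw [← prod_range_succ', prod_range_succ, h]
  rw [← h1, ← h, ← prod_range_succ (fun e => R e ^ e), prod_range_succ', pow_zero, mul_one,
    ← prod_mul_distrib]
  exact prod_congr rfl fun e _ => pow_succ _ _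

theorem FS_pf : FS_st := by
  intro N θ V ϖ τ s T P hN hq hd hG hs hθ hτ hsP hP hS hprod
  have h0 : N ≠ 0 := by rintro rfl; simp at hN
  obtain ⟨c, hc⟩ := hd
  have hτK : τ ∈ GK := V.D_le (V.I_le hG.ine)
  have hsK : s ∈ GK := V.D_le hs.1
  have k1 : ∀ e : ℕ, Cg_EFS V (θ (P + gal (τ ^ e) T)) (θ P) := fun e =>
    ⟨hP, hS _ (by rw [← gal_smul (GK.pow_mem hτK e), hG.tor, map_zero])⟩
  have k2 : ∀ e : ℕ, V.v (rt N (θ (P + gal (τ ^ e) T))) = 1 := fun e =>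
    root_EFS h0 (by rw [rt_pow h0]; exact left_EFS (k1 e))
  have k3 : V.v (rt N (θ P)) = 1 := root_EFS h0 (by rw [rt_pow h0]; exact hP)
  have k4 : s (θ P) = θ (ϖ • P) := by rw [← hθ s hsK, hsP]
  have k5 : V.v (θ (ϖ • P)) = 1 := by rw [← k4, (V.mem_D.1 hs.1).1, hP]
  have k6 : V.v (rt N (θ (ϖ • P))) = 1 := root_EFS h0 (by rw [rt_pow h0]; exact k5)
  have k7 : ∀ e : ℕ, Cg_EFS V (zt N ^ (km N τ (θ (P + gal (τ ^ e) T))).val *
      rt N (θ (P + gal (τ ^ (e + 1)) T))) (rt N (θ (P + gal (τ ^ e) T))) := fun e => by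
    have e1 : τ (θ (P + gal (τ ^ e) T)) = θ (P + gal (τ ^ (e + 1)) T) := by
      rw [← hθ τ hτK, map_add, hτ, pow_succ', gal_mul]
    rw [← e1, ← km_spec h0 τ (ne_EFS (left_EFS (k1 e)))]
    exact ⟨k2 e, (V.mem_I.1 hG.ine).1 _ (k2 e).le⟩
  have k8 : Cg_EFS V (zt N ^ (km N s (θ P)).val * rt N (θ (ϖ • P)))
      (rt N (θ P) ^ (nn ϖ - 1) * rt N (θ P)) := by
    rw [← k4, ← km_spec h0 s (ne_EFS hP), ← pow_succ, Nat.sub_add_cancel hq.pos]
    exact ⟨by rw [map_pow, k3, one_pow], hs.2 _ k3.le⟩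
  have k9 : Cg_EFS V (rt N (θ P) ^ (nn ϖ - 1)) (rt N (θ (P + gal (τ ^ 0) T)) ^ (nn ϖ - 1)) := by
    rw [hc, pow_mul, pow_mul, rt_pow h0, rt_pow h0]
    exact pow_EFS (symm_EFS (k1 0)) c
  have k10 := tel_EFS (fun e => rt N (θ (P + gal (τ ^ e) T))) (nn ϖ - 1)
    (by simp only [hG.per, pow_zero, gal_one]) (ne_EFS (k2 0))
  have k11 : ∏ S ∈ tor ϖ, rt N (θ (P + S)) =
      rt N (θ P) * ∏ e ∈ range (nn ϖ - 1), rt N (θ (P + gal (τ ^ e) T)) := by
    have := hG.sum (Additive Qb) fun S => Additive.ofMul (rt N (θ (P + S)))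
    rw [add_zero] at this
    exact this
  have k12 := mul_EFS (mul_EFS (prod_EFS (range (nn ϖ - 1)) fun e _ => pow_EFS (k7 e) e) k9) k8
  rw [k10] at k12
  refine (lz_eq h0 (eq_EFS hN h0 (zt_val_pow h0 _) ?_ (c := (∏ e ∈ range (nn ϖ - 1),
    rt N (θ (P + gal (τ ^ (e + 1)) T)) ^ e) * rt N (θ P) ^ (nn ϖ - 1) * rt N (θ (ϖ • P))) ?_)).symm
  · rw [div_pow, ← prod_pow, rt_pow h0]
    simp only [rt_pow h0]
    rw [hprod, div_self (ne_EFS k5)]
  · have := ne_EFS k6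
    convert k12 using 1
    · rw [zt_add h0, zt_sum_EFS h0]
      simp only [mul_pow, prod_mul_distrib]
      ring
    · rw [k11]
      field_simp

end Pool.Agent.MP_e23604_nt.W

end

section

set_option autoImplicit false

open Finset QuadraticAlgebra
open scoped Classical

namespace Pool.Agent.MP_e23604_nt.W

open B R S

/-- `F` is `1 + l z` up to terms of second order -/
def Lin_XNRE (V : Plc) (F : Pt → Qb) (l : Qb) : Prop :=
  V.v l * V.v 9 ≤ 1 ∧ ∀ P : Pt, E1 V.v P → V.v (zz P) < V.v 9 →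
    V.v (F P - 1 - l * zz P) ≤ (V.v (zz P) / V.v 9) ^ 2

section lin

variable {V : Plc} {F G : Pt → Qb} {l l' : Qb} {P : Pt}

theorem nine_XNRE (V : Plc) : 0 < V.v 9 ∧ V.v 9 ≤ 1 :=
  ⟨V.v.pos (by norm_num), by simpa [map_ofNat] using V.io_le 9⟩

theorem term_XNRE (h : V.v l * V.v 9 ≤ 1) (z : Qb) : V.v (l * z) ≤ V.v z / V.v 9 := by
  rw [map_mul, le_div_iff₀ (nine_XNRE V).1, mul_right_comm]
  exact mul_le_of_le_one_left (V.v.nonneg _) h

theorem near_XNRE (h : Lin_XNRE V F l) (h1 : E1 V.v P) (h2 : V.v (zz P) < V.v 9) :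
    V.v (F P - 1) ≤ V.v (zz P) / V.v 9 ∧ V.v (F P) = 1 := by
  have r0 : 0 ≤ V.v (zz P) / V.v 9 := div_nonneg (V.v.nonneg _) (V.v.nonneg _)
  have r1 : V.v (zz P) / V.v 9 < 1 := (div_lt_one (nine_XNRE V).1).2 h2
  have k : V.v (F P - 1) ≤ V.v (zz P) / V.v 9 := by
    have := bLocA_add_le V.na ((h.2 P h1 h2).trans (by nlinarith)) (term_XNRE h.1 (zz P))
    rwa [sub_add_cancel] at this
  refine ⟨k, ?_⟩
  have := bLocA_add_eq V.na (a := 1) (b := F P - 1) (by rw [map_one]; exact k.trans_lt r1)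
  rwa [add_sub_cancel, map_one] at this

theorem coef_XNRE (h : V.v l * V.v 9 ≤ 1) (h' : V.v l' * V.v 9 ≤ 1) :
    V.v (l + l') * V.v 9 ≤ 1 ∧ V.v (l - l') * V.v 9 ≤ 1 := by
  rw [← map_mul] at *
  rw [← map_mul, add_mul, sub_mul]
  exact ⟨bLocA_add_le V.na h h', bLocA_sub_le V.na h h'⟩

theorem mul_XNRE (h : Lin_XNRE V F l) (h' : Lin_XNRE V G l') :
    Lin_XNRE V (fun P => F P * G P) (l + l') := by
  refine ⟨(coef_XNRE h.1 h'.1).1, fun P h1 h2 => ?_⟩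
  have k : V.v ((F P - 1) * (G P - 1)) ≤ (V.v (zz P) / V.v 9) ^ 2 := by
    rw [map_mul, sq]
    exact mul_le_mul (near_XNRE h h1 h2).1 (near_XNRE h' h1 h2).1 (V.v.nonneg _)
      (div_nonneg (V.v.nonneg _) (V.v.nonneg _))
  convert bLocA_add_le V.na (bLocA_add_le V.na k (h.2 P h1 h2)) (h'.2 P h1 h2) using 2
  ring

theorem div_XNRE (h : Lin_XNRE V F l) (h' : Lin_XNRE V G l') :
    Lin_XNRE V (fun P => F P / G P) (l - l') := by
  refine ⟨(coef_XNRE h.1 h'.1).2, fun P h1 h2 => ?_⟩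
  obtain ⟨g1, g2⟩ := near_XNRE h' h1 h2
  have g0 : G P ≠ 0 := fun e => by simp [e] at g2
  have k : V.v ((l - l') * zz P * (G P - 1)) ≤ (V.v (zz P) / V.v 9) ^ 2 := by
    rw [map_mul, sq]
    exact mul_le_mul (term_XNRE (coef_XNRE h.1 h'.1).2 _) g1 (V.v.nonneg _)
      (div_nonneg (V.v.nonneg _) (V.v.nonneg _))
  have k' := bLocA_sub_le V.na (bLocA_sub_le V.na (h.2 P h1 h2) (h'.2 P h1 h2)) k
  rw [← div_one (V.v _), ← g2, ← map_div₀] at k'
  convert k' using 2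
  field_simp
  ring

theorem smul_XNRE (h : Lin_XNRE V F l) (c : Zw) :
    Lin_XNRE V (fun P => F (c • P)) (l * io c) := by
  obtain ⟨n0, n1⟩ := nine_XNRE V
  refine ⟨?_, fun P h1 h2 => ?_⟩
  · rw [map_mul, mul_right_comm]
    exact mul_le_one₀ h.1 (V.v.nonneg _) (V.io_le c)
  obtain ⟨a1, a2, a3⟩ := E1m h1 c
  have k1 := (h.2 _ a1 (a3.trans_lt h2)).trans (pow_le_pow_left₀
    (div_nonneg (V.v.nonneg _) n0.le) (div_le_div_of_nonneg_right a3 n0.le) 2)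
  have k2 : V.v (l * (zz (c • P) - io c * zz P)) ≤ (V.v (zz P) / V.v 9) ^ 2 := by
    refine (term_XNRE h.1 _).trans ((div_le_div_of_nonneg_right a2 n0.le).trans ?_)
    rw [div_pow]
    exact div_le_div_of_nonneg_left (sq_nonneg _) (pow_pos n0 2) (by nlinarith)
  convert bLocA_add_le V.na k1 k2 using 2
  ring

theorem prod_XNRE {ι : Type} (s : Finset ι) {f : ι → Pt → Qb} {e : ι → Qb}
    (h : ∀ i ∈ s, Lin_XNRE V (f i) (e i)) :
    Lin_XNRE V (fun P => ∏ i ∈ s, f i P) (∑ i ∈ s, e i) := by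
  induction s using Finset.induction_on with
  | empty => exact ⟨by simp, fun P _ _ => by simpa using sq_nonneg _⟩
  | insert i s hi ih =>
    simp only [prod_insert hi, sum_insert hi]
    exact mul_XNRE (h i (mem_insert_self _ _)) (ih fun j hj => h j (mem_insert_of_mem hj))

theorem congr_XNRE (h : Lin_XNRE V F l)
    (e : ∀ P, E1 V.v P → V.v (zz P) < V.v 9 → G P = F P) : Lin_XNRE V G l :=
  ⟨h.1, fun P h1 h2 => e P h1 h2 ▸ h.2 P h1 h2⟩

end lin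

/-- the odd quotient -/
noncomputable def Od_XNRE (χ : GQ → ZMod 3) (a M : Zw) (Q P : Pt) : Qb :=
  Gth χ a M Q P / Gth χ a M Q (-P)

section main

variable {V : Plc} {χ : GQ → ZMod 3} {r : ℕ} {a : Zw}

theorem od_XNRE (M : Zw) (Q P : Pt) :
    Od_XNRE χ a M Q P = ∏ y ∈ Xs (UM M) GK, eP χ a Q P y := by
  simp only [Od_XNRE, Gth, eP, prod_div_distrib, sub_eq_add_neg]

theorem base_XNRE (H : H5) (hT : Tw χ r) (a6 : IsCoprime a 6) (ha : ¬ Ov V a) {Q : Pt}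
    (hQ : Gen (9 * r) Q) : Lin_XNRE V (Od_XNRE χ a (9 * r) Q) (2 * tr χ a (9 * r) Q) := by
  rw [tr, mul_sum]
  refine congr_XNRE (prod_XNRE _ (f := fun y P => eP χ a Q P y) fun y hy => ?_)
    fun P _ _ => od_XNRE _ Q P
  have hY : Gd (eta χ y Q) := (hQ.gd H.CYG hT.ne (dvd_mul_of_dvd_left ⟨3, by norm_num⟩ _)).eta χ
    ((Xs_trv (UM_open hT.ne) (UM_le _)).1 y hy)
  have k := fun P => H.TAY a V _ P a6 ha hY
  have z : V.v (zz (0 : Pt)) < V.v 9 := by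
    rw [zz_zero, map_zero]
    exact (nine_XNRE V).1
  obtain ⟨k1, k2, -⟩ := k 0 ((E1_iff _ _).2 (Or.inl rfl)) z
  have l1 : Lin_XNRE V (fun P => Th a (eta χ y Q + P) / Th a (eta χ y Q)) (de a (eta χ y Q)) :=
    ⟨k1, fun P h1 h2 => by rw [sub_sub]; exact (k P h1 h2).2.2.2.1⟩
  have l2 : Lin_XNRE V (fun P => Th a (eta χ y Q - P) / Th a (eta χ y Q)) (-de a (eta χ y Q)) :=
    ⟨by rwa [V.v.map_neg], fun P h1 h2 => by
      rw [sub_sub, neg_mul, ← sub_eq_add_neg]; exact (k P h1 h2).2.2.2.2.1⟩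
  rw [two_mul, ← sub_neg_eq_add]
  exact congr_XNRE (div_XNRE l1 l2) fun P _ _ => by rw [eP, div_div_div_cancel_right₀ k2]

theorem step_XNRE (hN : NRS_st) (hT : Tw χ r) {b m : Zw} {Q : Pt} {l : Qb} (hb : PP b)
    (hm : m ≠ 0) (h9 : (9 * r : Zw) ∣ m) (hc : IsCoprime a (6 * b)) (hQ : Gen (b * m) Q)
    (hn : ¬ b ∣ m) (h : Lin_XNRE V (Od_XNRE χ a m (b • Q)) l) :
    ∃ i : ℕ, Lin_XNRE V (Od_XNRE χ a (b * m) Q) (l * io (b - ω ^ i)) := by
  obtain ⟨i, hi⟩ := (hN χ r a b m Q hT hb.1.ne_zero hm h9 hc hQ).2 hb hn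
  refine ⟨i, ?_⟩
  rw [map_sub, mul_sub]
  refine congr_XNRE (div_XNRE (smul_XNRE h b) (smul_XNRE h (ω ^ i))) fun P h1 h2 => ?_
  have k := (near_XNRE (smul_XNRE h (ω ^ i)) h1 h2).2
  have k0 : Od_XNRE χ a m (b • Q) ((ω : Zw) ^ i • P) ≠ 0 := fun e => by simp [e] at k
  obtain ⟨k1, k2⟩ := div_ne_zero_iff.1 k0
  have e1 := hi V P h1
  have e2 := hi V (-P) (E1n h1)
  rw [smul_neg, smul_neg] at e2
  simp only [Od_XNRE]
  rw [← e1, ← e2, div_div_div_comm, mul_div_cancel_right₀ _ k1, mul_div_cancel_right₀ _ k2]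

theorem chain_XNRE (H : H5) (hN : NRS_st) (hT : Tw χ r) (a6 : IsCoprime a 6) (ha : ¬ Ov V a)
    (s : Finset Zw) (hs : ∀ b ∈ s, PP b ∧ IsCoprime a b ∧ ¬ b ∣ 9 * r ∧
      ∀ i : ℕ, ¬ Ov V (b - ω ^ i)) :
    ∀ Q : Pt, Gen ((∏ b ∈ s, b) * (9 * r)) Q → ∃ c : Qb, V.v c = 1 ∧
      Lin_XNRE V (Od_XNRE χ a ((∏ b ∈ s, b) * (9 * r)) Q)
        (2 * tr χ a (9 * r) ((∏ b ∈ s, b) • Q) * c) := by
  induction s using Finset.induction_on with
  | empty =>
    intro Q hQ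
    rw [prod_empty, one_mul] at *
    exact ⟨1, map_one _, by simpa using base_XNRE H hT a6 ha hQ⟩
  | insert b s hb ih =>
    intro Q hQ
    obtain ⟨b1, b2, b3, b4⟩ := hs b (mem_insert_self _ _)
    have hs' := fun c hc => hs c (mem_insert_of_mem hc)
    rw [prod_insert hb, mul_assoc] at *
    obtain ⟨c, c1, c2⟩ := ih hs' (b • Q) (hQ.smul b1.1.ne_zero)
    obtain ⟨i, hi⟩ := step_XNRE hN hT b1
      (mul_ne_zero (prod_ne_zero_iff.2 fun c hc => (hs' c hc).1.1.ne_zero) hT.ne)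
      (dvd_mul_left _ _) (a6.mul_right b2) hQ (fun e => (b1.1.dvd_or_dvd e).elim (fun e => by
        obtain ⟨c, hc, e⟩ := (b1.1.dvd_finsetProd_iff _).1 e
        exact hb (H.PLK.2.2.2.2.2.2.2.1 b c b1 (hs' c hc).1 e ▸ hc)) b3) c2
    refine ⟨c * io (b - ω ^ i), by rw [map_mul, c1, not_Ov.1 (b4 i), one_mul], ?_⟩
    rwa [mul_comm b (∏ b ∈ s, b), mul_smul, ← mul_assoc _ c]

theorem nat_XNRE {p k : ℕ} (hp : p.Prime) (h : Ov V p) (hk : ¬ p ∣ k) : V.v k = 1 := by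
  simpa using not_Ov.1 (h.cop (hp.coprime_iff_not_dvd.2 hk).cast)

theorem size_XNRE (hT : Tw χ r) {p : ℕ} (hp : p.Prime) (h : Ov V p) :
    V.v p ^ 2 ≤ V.v (io (9 * r)) := by
  have p1 : V.v p ≤ 1 := by simpa using V.io_le p
  rw [show (9 * r : Zw) = ((3 ^ 2 * r : ℕ) : Zw) by push_cast; ring, map_natCast io, Nat.cast_mul,
    Nat.cast_pow, map_mul, map_pow V.v ((3 : ℕ) : Qb)]
  by_cases h3 : p = 3
  · subst h3
    rw [nat_XNRE hp h hT.n3, mul_one]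
  rw [nat_XNRE hp h fun e => h3 ((Nat.prime_dvd_prime_iff_eq hp Nat.prime_three).1 e), one_pow,
    one_mul]
  by_cases hr : p ∣ r
  · obtain ⟨k, rfl⟩ := hr
    rw [Nat.cast_mul, map_mul, nat_XNRE hp h (k := k) fun e =>
      hp.not_isUnit (hT.sf p (mul_dvd_mul_left p e)), mul_one]
    nlinarith [V.v.nonneg p]
  · rw [nat_XNRE hp h hr]
    exact pow_le_one₀ (V.v.nonneg _) p1

end main

theorem NRE_pf (H : H5) (hZEQ : ZEQ_st) (hPFA : PFA_st) (hNRS : NRS_st) : NRE_st := by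
  intro χ r p n m a M Q P V hT hp hm hM hc hQ hL
  have p0 : (p : Zw) ≠ 0 := Nat.cast_ne_zero.2 hp.ne_zero
  have p1 : V.v p ≤ 1 := by simpa using V.io_le p
  have p2 := V.v.nonneg p
  have pM : (p : Zw) ∣ M := hM ▸ (dvd_pow_self _ (by omega)).mul_right _
  have a6 : IsCoprime a 6 := hc.of_mul_right_left
  have aM : IsCoprime a M := hc.of_mul_right_right
  have ha : ¬ Ov V a := (hL.ov.dvd pM).cop aM.symm
  obtain ⟨ϖ, w1, w2, -⟩ := H.PLK.1 V
  have w3 := (H.PLK.2.2.1 V ϖ w1 w2).1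
  have vM : V.v (io M) = V.v p ^ m * V.v (io (9 * r)) := by
    rw [hM, map_mul, map_mul, map_pow, map_pow, map_natCast]
  have key : ∃ (b m₀ : Zw) (c : Qb), (∀ P, E1 V.v P → Gth χ a M Q P = Gth χ a m₀ (b • Q) (b • P)) ∧
      V.v c = 1 ∧ Lin_XNRE V (Od_XNRE χ a m₀ (b • Q))
        (2 * tr χ a (9 * r) ((p : Zw) ^ m • Q) * c) ∧
      V.v (io M) ≤ V.v (io b) * V.v p ∧ V.v (io b) ^ 2 * V.v p ^ 2 ≤ V.v (io M) := by
    by_cases h : p ∣ 9 * r
    · have h' : (p : Zw) ∣ 9 * r := by exact_mod_cast Nat.cast_dvd_cast (α := Zw) h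
      subst hM
      refine ⟨p ^ m, 9 * r, 1, (hNRS χ r a _ _ Q hT (pow_ne_zero _ p0) hT.ne dvd_rfl
        (a6.mul_right aM.of_mul_right_left) hQ).1 m (pow_dvd_pow_of_dvd h' m) V, map_one _, ?_,
        ?_, ?_⟩
      · simpa using base_XNRE H hT a6 ha (hQ.smul (pow_ne_zero _ p0))
      · obtain ⟨c, e⟩ := h'
        rw [vM, map_pow io, map_pow V.v, map_natCast io, e, map_mul, map_mul, map_natCast io]
        exact mul_le_mul_of_nonneg_left (mul_le_of_le_one_right p2 (V.io_le c)) (pow_nonneg p2 _)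
      · rw [vM, map_pow io, map_pow V.v, map_natCast io]
        refine mul_le_mul ?_ (size_XNRE hT hp hL.ov) (sq_nonneg _) (pow_nonneg p2 _)
        nlinarith [pow_le_one₀ p2 p1 (n := m), pow_nonneg p2 m]
    · obtain ⟨s, u, hu, e, hs, -⟩ := hPFA p hp fun e => h (e ▸ dvd_mul_of_dvd_left ⟨3, rfl⟩ _)
      obtain ⟨k, rfl⟩ : ∃ k, m = k + 1 := ⟨m - 1, by omega⟩
      have d : ∀ b ∈ s, b ∣ p := fun b hb => e ▸ (dvd_prod_of_mem _ hb).mul_left u
      have cp : IsCoprime (p : Zw) (9 * r) := by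
        simpa using (hp.coprime_iff_not_dvd.2 h).cast (R := Zw)
      have e1 : M = (p ^ k * u) * ((∏ b ∈ s, b) * (9 * r)) := by rw [hM, pow_succ, e]; ring
      have e2 : (∏ b ∈ s, b) • ((p : Zw) ^ k * u) • Q = (p : Zw) ^ (k + 1) • Q := by
        rw [← mul_smul, pow_succ, e]
        congr 1
        ring
      have b0 : (p : Zw) ^ k * u ≠ 0 := mul_ne_zero (pow_ne_zero _ p0) hu.ne_zero
      have m0 : (∏ b ∈ s, b) * (9 * r : Zw) ≠ 0 :=
        mul_ne_zero (right_ne_zero_of_mul (e ▸ p0)) hT.ne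
      obtain ⟨b', hb', e3⟩ : ∃ b' ∈ s, Ov V b' := by
        have := (w3 p).1 hL.ov
        rw [e, hu.dvd_mul_left] at this
        obtain ⟨b', h1, h2⟩ := (w1.dvd_finsetProd_iff _).1 this
        exact ⟨b', h1, w2.dvd h2⟩
      obtain ⟨c, c1, c2⟩ := chain_XNRE H hNRS hT a6 ha s (fun b hb => ⟨(hs b hb).1,
        aM.of_isCoprime_of_dvd_right ((d b hb).trans pM),
        fun e => (hs b hb).1.1.not_isUnit (cp.isUnit_of_dvd' (d b hb) e),
        fun i e => (hs b' hb').2 b hb i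
          (((H.PLK.2.2.1 V b' (hs b' hb').1.1 e3).1 _).1 e)⟩) _ ((e1 ▸ hQ).smul b0)
      have vb : V.v (io (p ^ k * u)) = V.v p ^ k := by
        rw [map_mul, map_mul, map_pow, map_pow, map_natCast, not_Ov.1 (not_Ov_unit V hu), mul_one]
      rw [vM, not_Ov.1 (hL.ov.cop cp), mul_one]
      have e4 : (p : Zw) ^ k * u ∣ ((∏ b ∈ s, b) * (9 * r)) ^ k := by
        rw [hu.mul_right_dvd]
        refine pow_dvd_pow_of_dvd (dvd_mul_of_dvd_left ?_ _) k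
        rw [e, hu.mul_left_dvd]
      refine ⟨p ^ k * u, _, c, e1 ▸ (hNRS χ r a _ _ Q hT b0 m0 (dvd_mul_left _ _)
        (a6.mul_right (e1 ▸ aM).of_mul_right_left) (e1 ▸ hQ)).1 k e4 V, c1, e2 ▸ c2,
        by rw [vb, pow_succ], ?_⟩
      rw [vb, ← mul_pow, ← pow_succ]
      nlinarith [pow_le_one₀ p2 p1 (n := k + 1), pow_nonneg p2 (k + 1)]
  obtain ⟨b, m₀, c, k1, k2, k3, k4, k5⟩ := key
  obtain ⟨n0, n1⟩ := nine_XNRE V
  have z0 := V.v.nonneg (zz P)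
  have z1 : V.v (zz P) ^ 2 < V.v p ^ (n + 2) * V.v 9 ^ 2 := by
    rw [← map_pow V.v 9, show (9 : Qb) ^ 2 = 81 by norm_num]
    exact hL.sm
  have z2 : V.v (zz P) < V.v p * V.v 9 := by
    refine lt_of_pow_lt_pow_left₀ 2 (mul_nonneg p2 n0.le) (z1.trans_le ?_)
    rw [mul_pow]
    exact mul_le_mul_of_nonneg_right (pow_le_pow_of_le_one p2 p1 (by omega)) (sq_nonneg _)
  have z3 : V.v (zz (b • P)) = V.v (io b) * V.v (zz P) := by
    refine (hZEQ V ϖ P w1 w2 hL.e1).1 ?_ b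
    obtain ⟨c, e⟩ := (w3 p).1 hL.ov
    have e1 : V.v p ≤ V.v (io ϖ) := by
      rw [← map_natCast io, e, map_mul, map_mul]
      exact mul_le_of_le_one_right (V.v.nonneg _) (V.io_le c)
    refine (pow_le_of_le_one z0 (zz_lt hL.e1).le three_ne_zero).trans_lt (z2.trans_le ?_)
    exact (mul_le_of_le_one_right p2 n1).trans e1
  obtain ⟨c', c1, c2⟩ : ∃ c' : Qb, V.v c' = V.v (io b) ∧ c' * zz P = c * zz (b • P) := by
    by_cases z : zz P = 0
    · rw [z, map_zero, mul_zero, V.v.eq_zero] at z3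
      exact ⟨io b, rfl, by rw [z, z3, mul_zero, mul_zero]⟩
    · exact ⟨c * zz (b • P) / zz P, by
        rw [map_div₀, map_mul, k2, z3, one_mul, mul_div_cancel_right₀ _ (V.v.ne_zero z)],
        div_mul_cancel₀ _ z⟩
  obtain ⟨a1, -, a3⟩ := E1m hL.e1 b
  have k := k3.2 _ a1 (a3.trans_lt (z2.trans_le (mul_le_of_le_one_left n0.le p1)))
  refine ⟨c', c1 ▸ k4, ?_⟩
  rw [← od_XNRE, Od_XNRE, k1 P hL.e1, k1 _ (E1n hL.e1), smul_neg, mul_assoc 2, c2]
  refine (le_of_eq ?_).trans (k.trans ?_)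
  · rw [Od_XNRE]
    congr 1
    ring
  · rw [z3, div_pow, div_le_iff₀ (pow_pos n0 2), mul_pow]
    refine (mul_le_mul_of_nonneg_left z1.le (sq_nonneg _)).trans ?_
    rw [← mul_assoc, add_comm, pow_add, ← mul_assoc]
    exact mul_le_mul_of_nonneg_right (mul_le_mul_of_nonneg_right k5 (pow_nonneg p2 _)) (sq_nonneg _)

end Pool.Agent.MP_e23604_nt.W

end

section

/-!
The explicit reciprocity law.
-/

set_option autoImplicit false

open Finset QuadraticAlgebra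
open scoped Classical

namespace Pool.Agent.MP_e23604_nt.W

open B R S

theorem add_lt_XEXR (V : Plc) {a b : Qb} {ε : ℝ} (ha : V.v a < ε) (hb : V.v b < ε) :
    V.v (a + b) < ε := (V.na a b).trans_lt (max_lt ha hb)

theorem one_XEXR (V : Plc) {a : Qb} (h : V.v (a - 1) < 1) : V.v a = 1 := by
  have h1 : V.v a ≤ 1 := by
    simpa using bLocA_add_le V.na h.le (b := 1) (by simp)
  refine le_antisymm h1 (not_lt.1 fun h2 => ?_)
  have := add_lt_XEXR V h2 (b := -(a - 1)) (by rwa [AbsoluteValue.map_neg])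
  simp at this

theorem prod_le_XEXR (V : Plc) {ι : Type} (s : Finset ι) {f : ι → Qb} (h : ∀ i ∈ s, V.v (f i) ≤ 1) :
    V.v (∏ i ∈ s, f i) ≤ 1 := by
  rw [map_prod]
  exact prod_le_one (fun _ _ => V.v.nonneg _) h

theorem prod_near_XEXR (V : Plc) {ι : Type} (s : Finset ι) {f g : ι → Qb} {ε : ℝ} (h0 : 0 < ε)
    (hf : ∀ i ∈ s, V.v (f i) ≤ 1) (hg : ∀ i ∈ s, V.v (g i) ≤ 1)
    (h : ∀ i ∈ s, V.v (f i - g i) < ε) : V.v (∏ i ∈ s, f i - ∏ i ∈ s, g i) < ε := by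
  induction s using Finset.induction_on with
  | empty => simpa using h0
  | insert i s hi ih =>
    rw [prod_insert hi, prod_insert hi, show f i * ∏ i ∈ s, f i - g i * ∏ i ∈ s, g i =
      (f i - g i) * ∏ i ∈ s, f i + g i * (∏ i ∈ s, f i - ∏ i ∈ s, g i) by ring]
    refine add_lt_XEXR V ?_ ?_
    · rw [map_mul]
      exact (mul_le_of_le_one_right (V.v.nonneg _) (prod_le_XEXR V s fun k hk =>
        hf k (mem_insert_of_mem hk))).trans_lt (h i (mem_insert_self _ _))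
    · rw [map_mul]
      exact (mul_le_of_le_one_left (V.v.nonneg _) (hg i (mem_insert_self _ _))).trans_lt
        (ih (fun k hk => hf k (mem_insert_of_mem hk)) (fun k hk => hg k (mem_insert_of_mem hk))
          fun k hk => h k (mem_insert_of_mem hk))

theorem vnat_XEXR (V : Plc) (m : ℕ) : V.v (m : Qb) ≤ 1 := by simpa using V.io_le m

theorem vp_XEXR (hP : PLK_st) {V : Plc} {p : ℕ} (hp : p.Prime) (h : Ov V p) (W : Plc) :
    V.v p ≤ W.v p := by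
  by_cases e : Ov W p
  · have e1 := (Nat.prime_dvd_prime_iff_eq V.hl.out hp).1 ((hP.2.2.2.1 V p).1 h)
    have e2 := (Nat.prime_dvd_prime_iff_eq W.hl.out hp).1 ((hP.2.2.2.1 W p).1 e)
    obtain ⟨g, hg⟩ := (hP.2.2.2.2.1 V W).1 (e1.trans e2.symm)
    rw [hg, Plc.mv_v, map_natCast g]
  · have := not_Ov.1 e
    rw [map_natCast] at this
    exact this ▸ vnat_XEXR V p

theorem pry_XEXR (hP : PLK_st) {V : Plc} (h : Ov V 3) {c : Zw} (e : V.v (io c - 1) ≤ V.v 3) :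
    Pry c := by
  obtain ⟨ϖ, h1, h2, h3, -⟩ := hP.1 V
  have hl : V.l = 3 := (Nat.prime_dvd_prime_iff_eq V.hl.out Nat.prime_three).1
    ((hP.2.2.2.1 V 3).1 (by simpa using h))
  obtain rfl := h3 hl
  have := ((hP.2.2.1 V pw h1 h2).2.2.2.2.2.1 (c - 1) 2).2 (by
    rwa [← map_pow, io_pw_sq, AbsoluteValue.map_neg, map_sub, map_one])
  rwa [pw_sq, neg_dvd] at this

theorem Mu.mono_XEXR {R : Type} [CommRing R] {H H' : Subgroup GQ} {θ : GQ → R} (h : Mu H θ)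
    (e : H' ≤ H) : Mu H' θ := ⟨h.1.mono e, h.2.1, fun g hg k hk => h.2.2 g (e hg) k (e hk)⟩

theorem Co.mono_XEXR {R : Type} [CommRing R] {H H' : Subgroup GQ} {θ c : GQ → R} (h : Co θ H c)
    (e : H' ≤ H) : Co θ H' c := ⟨h.1.mono e, fun g hg k hk => h.2 g (e hg) k (e hk)⟩

theorem Mu_cj_XEXR {R : Type} [CommRing R] {N : ℕ} (h : N ≠ 0) (j : ZMod N →+* R)
    (H : Subgroup GQ) : Mu H (cj j) :=
  ⟨(cy_lc N H).map j, by rw [cj, cy_one h, map_one], fun g _ k _ => by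
    rw [cj, cy_mul h, map_mul]; rfl⟩

theorem Bo2.congr_XEXR {R : Type} [CommRing R] {H : Subgroup GQ} {κ : GQ → R}
    {f f' : GQ → GQ → R} (h : Bo2 κ H f) (e : ∀ g ∈ H, ∀ k ∈ H, f' g k = f g k) : Bo2 κ H f' := by
  obtain ⟨b, h1, h2⟩ := h
  exact ⟨b, h1, fun g hg k hk => (e g hg k hk).trans (h2 g hg k hk)⟩

theorem Bo2.lin_XEXR {R : Type} [CommRing R] {H : Subgroup GQ} {κ : GQ → R}
    {f f' : GQ → GQ → R} (h : Bo2 κ H f) (h' : Bo2 κ H f') (r r' : R) :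
    Bo2 κ H fun g k => r * f g k + r' * f' g k := by
  obtain ⟨b, h1, h2⟩ := h
  obtain ⟨b', h1', h2'⟩ := h'
  exact ⟨_, h1.map₂ h1' fun x y => r * x + r' * y, fun g hg k hk => by
    beta_reduce; rw [h2 g hg k hk, h2' g hg k hk]; ring⟩

theorem Chr.fix_XEXR {R : Type} [CommRing R] {N : ℕ} {j : ZMod N →+* R} {U : Subgroup GQ}
    {lam : GQ → R} (h : Chr j U lam) {θ : Qb} (hθ : Fix U θ) {y : GQ} (hy : y ∈ GK) :
    Fix U (y θ) := fun u hu => by
  have := congrArg y (hθ _ (h.nrm hy hu))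
  rwa [← AlgEquiv.mul_apply, mul_assoc, mul_inv_cancel_left] at this

theorem EXR_pf (B : H5) (hC : COI_st) (hA : AHM_st) (hT : TFR_st) (hL : LCP_st) (hN : NFA_st) :
    EXR_st := by
  intro R _ χ r p n m a M b ϖ Q' P' φ j V y s T W σ τ ε hX hR hU hTd hε
  have hch := hX.chr B.LZ j
  have hp := hX.pp
  have n1 : 1 ≤ n := by have := hX.n2; omega
  have N0 : p ^ n ≠ 0 := hch.pos
  have pn0 : (p : Zw) ^ n ≠ 0 := pow_ne_zero _ hX.p0
  have tv := hch.trv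
  obtain ⟨⟨ml, mr, hrl, hru⟩, hz⟩ := B.ZC R _ j _ _ hch
  obtain ⟨θ0, θf⟩ := hX.th B.CYG B.THI
  obtain ⟨zco, -, -, zun, -⟩ := hz _ θ0 θf
  obtain ⟨A1, A2, A3, A4, -, -⟩ := hA R φ _ M Q' pn0 hX.ne hX.dn hX.gen hX.φn
  have hLy := hL R χ r p n m a M b Q' P' φ j V hX hR.lp
  set U := UM M with hUd
  set lam := lamZ φ χ M with hlam
  set θ := Th a ((p : Zw) ^ n • Q') with hθ
  set z := zc j U lam θ with hzd
  set t := eP χ a ((p : Zw) ^ n • Q') ((p : Zw) ^ n • P') with ht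
  have vp0 : ∀ X : Plc, 0 < X.v p := fun X => X.v.pos (Nat.cast_ne_zero.2 hp.ne_zero)
  have vp1 : V.v p < 1 := by simpa [Ov] using hR.lp.ov
  have v30 : 0 < V3.v 3 := V3.v.pos three_ne_zero
  have t1 : ∀ x ∈ GK, V.v (t x) = 1 := fun x hx => one_XEXR V
    ((hLy x hx).1.trans_le (pow_le_one₀ (vp0 V).le vp1.le))
  obtain ⟨δ, δ0, δ1, δ2, δ3⟩ : ∃ δ : ℝ, 0 < δ ∧ δ ≤ ε ∧ δ ≤ V.v p ^ (n + 1) ∧ δ ≤ V3.v 3 :=
    ⟨min ε (min (V.v p ^ (n + 1)) (V3.v 3)), lt_min hε (lt_min (pow_pos (vp0 V) _) v30),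
      min_le_left _ _, (min_le_right _ _).trans (min_le_left _ _),
      (min_le_right _ _).trans (min_le_right _ _)⟩
  set C := (nn M).primeFactors ∪ T.image fun q => (W q).l with hCd
  have CM : ∀ X : Plc, Ov X M → X.l ∈ C := fun X h => mem_union_left _ (Nat.mem_primeFactors.2
    ⟨X.hl.out, (B.PLK.2.2.2.1 X _).1 (h.dvd ⟨_, (mul_star_nn M).symm⟩), (nn_pos hX.ne).ne'⟩)
  have CT : ∀ X : Plc, ∀ q ∈ T, Ov X q → X.l ∈ C := fun X q hq h => mem_union_right _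
    (mem_image.2 ⟨q, hq, ((B.PLK.2.2.1 _ q (hTd q hq).1.pp.1 (hTd q hq).1.ov).2.1 X h).1.symm⟩)
  obtain ⟨α, α0, αf, α1, αV, αC, αS⟩ := B.APXF U C {ϖ} (fun _ => V) (fun _ => t) δ hch.opn hch.le δ0
    (by simp [hR.pr, hR.ov]) fun _ _ x hx => ⟨t1 x hx, (hLy x hx).2.1, (hLy x hx).2.2.1⟩
  replace αV : ∀ x ∈ GK, V.v (x α - t x) < δ := αV ϖ (mem_singleton_self _)
  replace αC : ∀ X : Plc, X.l ∈ C → ¬ Ov X ϖ → ∀ x ∈ GK, X.v (x α - 1) < δ := fun X h h' x hx => by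
    have := αC (X.mv x) h (by simpa [(B.PLK.2.2.2.2.2.1 X x ϖ).1 hx] using h')
    rwa [Plc.mv_v, map_sub, map_one] at this
  have αU : ∀ g ∈ GK, ∀ u ∈ U, (g * u) α = g α := fun g _ u hu => by
    rw [AlgEquiv.mul_apply, αf u hu]
  obtain ⟨c, hc⟩ : ∃ c : Zw, ∏ x ∈ Xs U GK, x α = io c :=
    (B.PLK.2.2.2.2.2.2.1 _ fun g hg => by
      rw [map_prod]
      exact tv.prod_mul (F := fun x => x α) αU hg).2 fun X => prod_le_XEXR X _ fun x _ => α1 (X.mv x)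
  have cV : V.v (io c - ∏ x ∈ Xs U GK, t x) < δ := hc ▸ prod_near_XEXR V _ δ0
    (fun x _ => α1 (V.mv x)) (fun x hx => (t1 x (tv.1 x hx)).le) fun x hx => αV x (tv.1 x hx)
  have cP : Pry c := by
    by_cases h3 : Ov V 3
    · obtain rfl : p = 3 :=
        ((Nat.prime_dvd_prime_iff_eq V.hl.out hp).1 ((B.PLK.2.2.2.1 V p).1 hR.lp.ov)).symm.trans
        ((Nat.prime_dvd_prime_iff_eq V.hl.out Nat.prime_three).1
          ((B.PLK.2.2.2.1 V 3).1 (by simpa using h3)))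
      have e := prod_near_XEXR V (Xs U GK) (g := fun _ => 1) (pow_pos (vp0 V) 2)
        (fun x hx => (t1 x (tv.1 x hx)).le) (by simp) fun x hx => (hLy x (tv.1 x hx)).1
      refine pry_XEXR B.PLK h3 ?_
      rw [prod_const_one] at e
      rw [← sub_add_sub_cancel _ (∏ x ∈ Xs U GK, t x)]
      refine bLocA_add_le V.na (cV.le.trans (δ2.trans ?_)) (e.le.trans ?_) <;>
        exact_mod_cast pow_le_of_le_one (vp0 V).le vp1.le (by omega)
    · have h4 : ¬ Ov V3 ϖ := fun e => h3 (by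
        have := ((B.PLK.2.2.1 V ϖ hR.pr hR.ov).2.1 V3 e).1
        exact_mod_cast (B.PLK.2.2.2.1 V 3).2 (this ▸ dvd_rfl))
      have e := prod_near_XEXR V3 (Xs U GK) (f := fun x => x α) (g := fun _ => 1) δ0
        (fun x _ => α1 (V3.mv x)) (by simp) fun x hx =>
          αC V3 (CM V3 (V3_three.dvd hX.three)) h4 x (tv.1 x hx)
      rw [prod_const_one, hc] at e
      exact pry_XEXR B.PLK V3_three (e.le.trans δ3)
  have cO : ∀ X : Plc, Ov X c ↔ ∃ x ∈ GK, X.v (x α) < 1 := fun X => by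
    rw [Ov, ← hc, map_prod]
    refine ⟨fun h => by_contra fun h' => h.ne (prod_eq_one fun x hx => le_antisymm (α1 (X.mv x))
      (not_lt.1 fun e => h' ⟨x, tv.1 x hx, e⟩)), fun ⟨x, hx, e⟩ => ?_⟩
    obtain ⟨x', ⟨h1, h2⟩, -⟩ := tv.2 x hx
    rw [← mul_inv_cancel_left x' x, αU _ (tv.1 _ h1) _ h2] at e
    rw [← mul_prod_erase _ _ h1]
    exact mul_lt_one_of_nonneg_of_lt_one_left (X.v.nonneg _) e
      (prod_le_one (fun _ _ => X.v.nonneg _) fun k _ => α1 (X.mv k))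
  have cS : ∀ X : Plc, Ov X c → Dec X.v ≤ U ∧ X.l ∉ C := fun X h => by
    obtain ⟨x, hx, e⟩ := (cO X).1 h
    obtain ⟨h1, h2, -⟩ := αS (X.mv x) e
    refine ⟨fun g hg => ?_, h2⟩
    have := hch.nrm (GK.inv_mem hx) (h1 ((mem_Dec_conj X.l X.γ x (x⁻¹ * g * x)).2
      (by simpa [mul_assoc, Plc.v] using hg)))
    simpa [mul_assoc] using this
  obtain ⟨ν, S, W', σ', τ', hν, hS, hS', hsum⟩ := hN R p n j φ M c Q' hp n1 hX.ne hX.three hX.dn
    hch.cyc hX.gen cP fun X h => ⟨(cS X h).1, fun e => (cS X h).2 (CM X e)⟩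
  refine ⟨ν, by rw [← hν]; exact cV.trans_le δ1, ?_⟩
  obtain ⟨f, f1, f2, f3, f4, f5⟩ := hT R _ j U lam (Ah φ M Q') α hch A1 A2 A3 α0 αf
  rw [hc] at f4
  have c0 : io c ≠ 0 := io_ne cP.ne
  have NR : ((p ^ n : ℕ) : R) = 0 := by simpa using hX.pn
  have nM : ∀ X : Plc, ¬ Ov X M → ¬ Ov X 3 ∧ X.v (p ^ n : ℕ) = 1 ∧ X.I ≤ U ∧
      (∀ g ∈ X.I, Ah φ M Q' g = 0) ∧ ∀ g ∈ X.I, z g = 0 := fun X h => by
    have h3 : ¬ Ov X 3 := fun e => h (e.dvd hX.three)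
    have hn : ¬ Ov X ((p ^ n : ℕ) : Zw) := fun e => h (e.dvd hX.dN)
    have h1 : X.v (p ^ n : ℕ) = 1 := by simpa using not_Ov.1 hn
    have h2 : X.I ≤ U := fun g hg => (B.INE X h3 g hg).2.2 M h
    refine ⟨h3, h1, h2, fun g hg => A4 g ((B.INE X h3 g hg).2.2 _ fun e => ?_),
      zun X h1 h2 fun x hx => ?_⟩
    · exact (Ov_mul.1 e).elim (fun e => hn (by simpa using e)) h
    · rw [hθ, ← ((B.THI a hX.a0).2.1 x hx _).1]
      exact (B.UNIT a X _ hX.a6 h3).2 ((hX.gd B.CYG).gal hx)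
  have unb : ∀ (X : Plc) (F : GQ → GQ → R), ¬ Ov X M → Co2 (cj j) GK F → Un2 X.D X.I F →
      Bo2 (cj j) X.D F := fun X F h h1 h2 =>
    B.UNB R _ _ X F N0 NR (Mu_cj_XEXR N0 j _) (fun g hg => by
      rw [cj, cy_ine X (nM X h).2.1 hg.1, map_one])
      ((((B.LIN R _ GK).1 F F 0).2.2.2 _ _ X.D_le (fun _ _ => rfl) fun _ _ _ _ => rfl).1 h1) h2
  have cup1 := fun (H : Subgroup GQ) (e : H ≤ GK) => B.CUP R (cj j) _ lam z y H (mr.mono_XEXR e)
    (ml.mono_XEXR e) (fun g hg => (hrl g (e hg)).symm) (zco.mono_XEXR e) (hR.co.mono_XEXR e)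
  have cupU : ∀ X : Plc, ¬ Ov X M → (∀ q ∈ T, ¬ Ov X q) → Bo2 (cj j) X.D (cup lam z y) :=
    fun X h h' => unb X _ h (cup1 GK le_rfl).1 ((cup1 X.D X.D_le).2.2.1 _ X.I_le fun g hg =>
      ⟨hch.one g ((nM X h).2.2.1 hg), (nM X h).2.2.2.2 g hg, hU X (fun e => (Ov_mul.1 e).elim h
        fun e => by
          obtain ⟨q, -, h1, -⟩ := B.PLK.1 X
          rw [Ov, map_prod, map_prod, prod_eq_one fun q hq => not_Ov.1 (h' q hq)] at e
          exact e.false) g hg⟩)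
  have fC : ∀ X : Plc, X.l ∈ C → ¬ Ov X ϖ → Bo2 (cj j) X.D f := fun X h h' =>
    f3 X.D X.D_le fun x hx g hg => by
      obtain ⟨⟨w, e1, e2⟩, -⟩ := B.POW p n X (X.D ⊓ U) (x α) hp (fun _ e => e.1.1)
        (fun k hk => hch.fix_XEXR αf hx k hk.2) ((αC X h h' x hx).trans_le (δ2.trans
          (pow_le_pow_left₀ (vp0 V).le (vp_XEXR B.PLK hp hR.lp.ov X) _)))
      have w0 : w ≠ 0 := fun e => (map_ne_zero x).2 α0 (by rw [← e1, e, zero_pow N0])
      rw [km_fix N0 ((map_ne_zero x).2 α0) e1 (hch.fix_XEXR αf hx g hg.2) (hch.cyc g hg.2), e2 g hg,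
        div_self w0, lz_one N0]
  have dj : Disjoint S T := disjoint_left.2 fun q h h' =>
    (cS _ ((hTd q h').1.ov.dvd (hS q h).2.1)).2 (CT _ q h' (hTd q h').1.ov)
  have F1 : Co2 (cj j) GK fun g h => s * f g h + 2 * cup lam z y g h :=
    (((B.LIN R _ GK).1 _ _ 0).1 (((B.LIN R _ GK).1 _ f s).1 f1 f1).2.2
      (((B.LIN R _ GK).1 _ _ 2).1 (cup1 GK le_rfl).1 (cup1 GK le_rfl).1).2.2).1
  have key := B.RCP R p n j _ (S ∪ T) (fun q => if q ∈ S then W' q else W q)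
    (fun q => if q ∈ S then σ' q else σ q) (fun q => if q ∈ S then τ' q else τ q) (fun _ => 1)
    (fun q => if q ∈ S then fun g h => s * (j (km (p ^ n) g (io c)) * Ah φ M Q' h)
      else fun g h => 2 * cup lam z y g h) hp n1 F1 (fun q hq => ?_) fun X hX' => ?_
  · rw [sum_union dj, sum_congr rfl (g := fun q => s * (j (km (p ^ n) (τ' q) (io c)) *
      Ah φ M Q' (σ' q) - j (km (p ^ n) (σ' q) (io c)) * Ah φ M Q' (τ' q))) fun q hq => by
        simp only [if_pos hq, map_one]; ring, ← mul_sum, hsum,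
      sum_congr rfl (g := fun q => -2 * (z (σ q) * y (τ q))) fun q hq => by
        obtain ⟨h1, h2, h3, h4, -⟩ := hTd q hq
        simp only [if_neg (disjoint_right.1 dj hq), map_one, cup, (nM _ h3).2.2.2.2 _ h4,
          hch.one _ (h2 h1.fr.1)]
        ring, ← mul_sum] at key
    linear_combination key
  · by_cases h : q ∈ S
    · obtain ⟨h1, h2, h3, h4⟩ := hS q h
      obtain ⟨h5, h6⟩ := cS _ (h1.ov.dvd h2)
      have h7 : (W' q).D ≤ U := fun g hg => h5 hg.1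
      simp only [if_pos h]
      refine ⟨h1, h3, by rw [h4, one_mul], ⟨fun g _ k hk k' hk' => ?_, fun k _ g hg g' hg' => ?_⟩, ?_⟩
      · beta_reduce
        rw [A1 k (h7 hk) k' (h7 hk')]
        ring
      · beta_reduce
        rw [km_mul N0 g g' c0, hch.cyc g (h7 hg), io_fix (hch.le (h7 hg')), map_add, one_mul]
        ring
      · have e := cupU (W' q) (fun e => h6 (CM _ e)) fun q' hq' e => h6 (CT _ q' hq' e)
        exact (e.lin_XEXR e 2 0).congr_XEXR fun g hg k hk => by rw [f4 g (h7 hg) k (h7 hk)]; ring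
    · have h' := (mem_union.1 hq).resolve_left h
      obtain ⟨h1, h2, h3, h4, h5⟩ := hTd q h'
      have e := fC _ (CT _ q h' h1.ov) fun e => h3 (e.dvd (hR.dv.trans hX.dp))
      have e' := (cup1 _ (W q).D_le).2.2.2 fun g hg => ⟨hru g (h2 hg), hch.one g (h2 hg)⟩
      simp only [if_neg h]
      refine ⟨h1, h4, by rw [h5, one_mul], ⟨fun g hg k hk k' hk' => ?_, fun k hk g hg g' hg' => ?_⟩,
        (e.lin_XEXR e s 0).congr_XEXR fun g _ k _ => by ring⟩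
      · exact (congrArg (2 * ·) (e'.1 g hg k hk k' hk')).trans (mul_add _ _ _)
      · exact (congrArg (2 * ·) (e'.2 k hk g hg g' hg')).trans (mul_add _ _ _)
  by_cases h : Ov X ϖ
  · refine (((B.CNJ R (cj j)).2 V X ϖ (Mu_cj_XEXR N0 j _) hR.pr hR.ov h).2 _ F1) ?_
    obtain ⟨k1, k2⟩ := ((((hC R φ _ _ pn0 hX.genG hX.φn).2.2 χ r M hX.tw hX.ne hX.dr
      hX.dn).2 V.D V.D_le).2.1 P' hR.lp.fx).2
    have e := f2 V.D θ (fun h => 2 * ic φ (M • Q') (bd χ P' h)) V.D_le θ0 θf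
      ⟨k1.map fun x => 2 * x, fun g hg k hk => by beta_reduce at *; rw [k2 g hg k hk]; ring⟩
      fun x hx => (hLy x hx).2.2.2 (x α) (fun k hk => hch.fix_XEXR αf hx k hk.2)
        ((αV x hx).trans_le δ2)
    exact (e.lin_XEXR hR.loc s 2).congr_XEXR fun g _ k _ => by simp only [cup]; ring
  by_cases h' : Ov X M
  · exact (fC X (CM X h') h).lin_XEXR ((cup1 X.D X.D_le).2.1 (Or.inr (hR.str X h' h))) s 2
  refine (unb X f h' f1 (f5 X (nM X h').2.1 (nM X h').2.2.1 (nM X h').2.2.2.1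
    fun x hx => le_antisymm (α1 (X.mv x)) (not_lt.1 fun e => ?_))).lin_XEXR
    (cupU X h' fun q hq => hX' q (mem_union_right _ hq)) s 2
  obtain ⟨q, hq, e'⟩ := hS' X ((cO X).2 ⟨x, hx, e⟩)
  exact hX' q (mem_union_left _ hq) e'

end Pool.Agent.MP_e23604_nt.W

end

section

/-!
The local condition at three.
-/

set_option autoImplicit false

open Finset QuadraticAlgebra
open scoped Classical

namespace Pool.Agent.MP_e23604_nt.W

open B R S

theorem ov_XLOC : Ov V3 pw := Ov_three.1 V3_three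

theorem pos_XLOC {b : Zw} (h : b ≠ 0) : 0 < V3.v (io b) := V3.v.pos (io_ne h)

theorem three_XLOC (n : ℕ) : V3.v (io (3 ^ n)) = V3.v (io pw) ^ (2 * n) := by
  rw [pow_mul, ← map_pow V3.v, io_pw_sq, map_pow, map_pow, AbsoluteValue.map_neg, map_ofNat]

theorem DPI_pf (H : H5) (hZEQ : ZEQ_st) (hPIG : PIG_st) : DPI_st := by
  intro χ r hT
  obtain ⟨N, N0, hN⟩ := hPIG
  have h0 : pw * N ≠ 0 := mul_ne_zero pw_ne N0
  refine ⟨nn (pw * N), fun M M0 h9 h3 => ?_⟩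
  generalize hc : nn (pw * N) = c at h3 ⊢
  by_contra hn
  simp only [not_exists, not_and, not_not] at hn
  have c0 : (3 : Zw) ^ c ≠ 0 := pow_ne_zero _ (by decide)
  obtain ⟨G, hG⟩ := (H.CYG _ c0).1
  have f1 : Fx χ V3.D G := fun g hg => by
    rw [(H.LZ χ r M hT M0 h9).2.1 g (V3.D_le hg) G (dvd_smul hG.zero h3),
      smul_congr hG.zero (hn g hg), one_smul]
  have e1 := hN χ V3 G hT.add V3_three f1
  obtain ⟨-, z2, z3⟩ := hZEQ V3 pw _ pw_prime ov_XLOC e1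
  have z4 := z3 χ (f1.smul V3.D_le N)
  have z5 := z2 z4 pw
  have e2 := (E1m e1 pw).1
  have p0 := pos_XLOC pw_ne
  have p1 : V3.v (io pw) < 1 := ov_XLOC
  have z6 : V3.v (zz (pw • N • G)) ^ 3 < V3.v (io pw) := by
    refine (pow_le_pow_left₀ (V3.v.nonneg _) z5 3).trans_lt ?_
    rw [mul_pow]
    refine (mul_le_mul_of_nonneg_left z4 (by positivity)).trans_lt ?_
    exact mul_lt_of_lt_one_left p0 (pow_lt_one₀ p0.le p1 three_ne_zero)
  have z7 := (hZEQ V3 pw _ pw_prime ov_XLOC e2).1 z6 (3 ^ c)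
  rw [smul_comm, smul_comm _ N, hG.zero, smul_zero, smul_zero,
    show zz (0 : Pt) = 0 from rfl, map_zero, eq_comm, mul_eq_zero] at z7
  have z8 : pw • N • G = 0 :=
    (zz_zero_iff e2).1 (V3.v.eq_zero.1 (z7.resolve_left (pos_XLOC c0).ne'))
  rw [← mul_smul, hG] at z8
  have z9 := Nat.le_of_dvd (nn_pos h0) (nn_dvd z8)
  rw [nn_pow, hc, show nn 3 = 9 by decide] at z9
  exact absurd (Nat.lt_pow_self (by norm_num : 1 < 9)) (not_lt.2 z9)

theorem card_XLOC {A B : Type} [AddCommGroup A] [AddCommGroup B] [Finite A] [Finite B]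
    (K : AddSubgroup (A × B)) (p : A → Prop) (q : B → Prop) (h1 : ∀ x ∈ K, p x.1)
    (h2 : ∀ w, (0, w) ∈ K → q w) : Nat.card K ≤ Nat.card {x // p x} * Nat.card {x // q x} := by
  let f : K →+ A := (AddMonoidHom.fst A B).comp K.subtype
  rw [← f.ker.card_mul_index, AddSubgroup.index_ker, mul_comm]
  refine Nat.mul_le_mul ?_ ?_
  · refine Nat.card_le_card_of_injective (fun x => ⟨x.1, ?_⟩) fun x y e => ?_
    · obtain ⟨y, e⟩ := x.2
      exact e ▸ h1 _ y.2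
    · have e1 := congrArg Subtype.val e
      exact Subtype.ext e1
  · refine Nat.card_le_card_of_injective (fun x => ⟨x.1.1.2, h2 _ ?_⟩) fun x y e => ?_
    · have e : x.1.1.1 = 0 := x.2
      rw [← e]
      exact x.1.2
    · have e1 : x.1.1.1 = 0 := x.2
      have e2 : y.1.1.1 = 0 := y.2
      exact Subtype.ext (Subtype.ext (Prod.ext (e1.trans e2.symm) (congrArg Subtype.val e)))

theorem LOCI_pf (H : H5) (hCOI : COI_st) (hZEQ : ZEQ_st) (hPIG : PIG_st) (hDPI : DPI_st) :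
    LOCI_st := by
  intro χ r P hT hE P0 hz hF
  obtain ⟨N, N0, hN⟩ := hPIG
  obtain ⟨c2, h2⟩ := hDPI χ r hT
  have p0 := pos_XLOC pw_ne
  have p1 : V3.v (io pw) < 1 := ov_XLOC
  have z0 : 0 < V3.v (io N) * V3.v (zz P) :=
    mul_pos (pos_XLOC N0) (V3.v.pos fun e => P0 ((zz_zero_iff hE).1 e))
  obtain ⟨c1, h1⟩ := exists_pow_lt_of_lt_one z0 p1
  refine ⟨3 ^ c1 * 3 ^ (2 * c2), c1 + c2, fun R _ n M G P' φ hn hD hP => ?_⟩
  obtain ⟨hC, hk⟩ := hD.qt.chn3 hD.pos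
  have := hC.fin
  have d2 : (3 : Zw) ^ c2 ∣ 3 ^ n := pow_dvd_pow _ (by omega)
  obtain ⟨h, hh, h3⟩ := h2 M hD.ne hD.dr (d2.trans hD.dn)
  obtain ⟨k1, k2, k3⟩ := hCOI R φ _ G (pow_ne_zero n (by decide)) hD.gen ((hD.qt.ker _).2 dvd_rfl)
  obtain ⟨k4, k5⟩ := k3 χ r M hT hD.ne hD.dr hD.dn
  have k6 := fun Q hQ => ((k5 V3.D V3.D_le).2.1 Q hQ).1
  let F : R × R →+ (V3.D → R) := AddMonoidHom.mk'
    (fun x g => x.1 * ic φ G (bd χ P' g) + (lamZ φ χ M g - 1) * x.2)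
    fun x y => funext fun g => by simp only [Prod.fst_add, Prod.snd_add, Pi.add_apply]; ring
  have hF' : ∀ x (g : V3.D), F x g = x.1 * ic φ G (bd χ P' g) + (lamZ φ χ M g - 1) * x.2 :=
    fun _ _ => rfl
  have hr : (rs V3.D fun y : GQ → R => ∃ s w : R, ∀ g ∈ V3.D,
      y g = s * ic φ G (bd χ P' g) + (lamZ φ χ M g - 1) * w) = (F.range : Set (V3.D → R)) := by
    ext y
    constructor
    · rintro ⟨x, ⟨s, w, e⟩, e'⟩
      exact ⟨(s, w), funext fun g => by rw [e', e g g.2, hF']⟩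
    · rintro ⟨x, rfl⟩
      exact ⟨fun g => x.1 * ic φ G (bd χ P' g) + (lamZ φ χ M g - 1) * x.2,
        ⟨x.1, x.2, fun _ _ => rfl⟩, fun _ => rfl⟩
  rw [hr, ← Nat.card_coe_set_eq, sq, ← Nat.card_prod, ← F.ker.card_mul_index,
    AddSubgroup.index_ker]
  refine Nat.mul_le_mul ?_ le_rfl
  refine (card_XLOC F.ker (fun s => φ pw ^ (2 * n - c1) ∣ s)
    (fun w => (lamZ φ χ M h - 1) * w = 0) ?_ fun w e => ?_).trans (Nat.mul_le_mul ?_ ?_)
  · rintro ⟨s, w⟩ e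
    obtain ⟨s, rfl⟩ := hD.qt.sur s
    obtain ⟨w, rfl⟩ := hD.qt.sur w
    have g0 : (3 : Zw) ^ n • w • G = 0 := by rw [smul_comm, hD.gen.zero, smul_zero]
    have f1 : Fx χ V3.D (s • P' + w • G) := fun g hg => by
      have a1 := k6 P' (hP ▸ hF) g hg
      have a2 := k6 (w • G) (fun g _ => by rw [g0, map_zero]) g hg
      have a3 : (3 : Zw) ^ n • s • bd χ P' g = 0 := by rw [smul_comm, a1, smul_zero]
      have a4 : bd χ (s • P' + w • G) g = 0 := by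
        rw [bd_add, bd_smul (V3.D_le hg)]
        refine (k2 _ (by rw [smul_add, a3, a2, add_zero])).2.2.1 hD.qt ?_
        rw [((k2 _ a3).2.2.2 _ a2).1, (k2 _ a1).2.1, (k4 g (V3.D_le hg) _ g0).2, k1]
        exact congrFun (AddMonoidHom.mem_ker.1 e) ⟨g, hg⟩
      exact sub_eq_zero.1 a4
    have e1 := hN χ V3 _ hT.add V3_three f1
    obtain ⟨-, z2, z3⟩ := hZEQ V3 pw _ pw_prime ov_XLOC e1
    have z4 := z2 (z3 χ (f1.smul V3.D_le N)) (3 ^ n)
    have z5 := (hZEQ V3 pw _ pw_prime ov_XLOC hE).1 hz (N * s)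
    rw [smul_comm, smul_add, g0, add_zero, smul_comm _ s, hP, ← mul_smul, z5, three_XLOC,
      map_mul, map_mul] at z4
    have z6 : V3.v (io s) * (V3.v (io N) * V3.v (zz P)) ≤
        V3.v (io pw) ^ (2 * n - c1) * (V3.v (io N) * V3.v (zz P)) := by
      calc _ = V3.v (io N) * V3.v (io s) * V3.v (zz P) := by ring
        _ ≤ V3.v (io pw) ^ (2 * n) := z4.trans (mul_le_of_le_one_right (by positivity) (zz_lt e1).le)
        _ = V3.v (io pw) ^ (2 * n - c1) * V3.v (io pw) ^ c1 := by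
          rw [← pow_add, Nat.sub_add_cancel (by omega)]
        _ ≤ _ := mul_le_mul_of_nonneg_left h1.le (by positivity)
    have z7 := ((H.PLK.2.2.1 V3 pw pw_prime ov_XLOC).2.2.2.2.2.1 s _).2
      (le_of_mul_le_mul_right z6 z0)
    rw [← map_pow]
    exact map_dvd φ z7
  · have := congrFun (AddMonoidHom.mem_ker.1 e) ⟨h, hh⟩
    rwa [hF', zero_mul, zero_add] at this
  · rw [hC.card_dvd, hC.vl_pow, hk]
    exact Nat.pow_le_pow_right (by norm_num) (by omega)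
  · rw [hC.card_ann, hk]
    refine Nat.pow_le_pow_right (by norm_num) (not_lt.1 fun hl => h3 ?_)
    obtain ⟨c, e⟩ := (le_vl (by omega)).1 hl.le
    obtain ⟨c, rfl⟩ := hD.qt.sur c
    have e1 : (3 : Zw) ^ n ∣ ω ^ (χ h).val * ps M h - 1 - pw ^ (2 * c2) * c := by
      rw [← hD.qt.ker, map_sub, map_sub, map_one, map_mul φ (pw ^ _), map_pow φ pw]
      exact sub_eq_zero.2 e
    simpa using dvd_add (d2.trans e1) ((pw_three c2).dvd.mul_right c)

end Pool.Agent.MP_e23604_nt.W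

end
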