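import Pool.Agent.Mg.Fe23604m.G1bd87d
import Pool.Agent.Mg.Fe23604m.Gff5c9b

set_option linter.all false

/-!
The classes of the relaxed systems with values in the ring of power series: statements.
-/

set_option autoImplicit false

open Finset QuadraticAlgebra
open scoped Classical

namespace Pool.Agent.MP_e23604_nt.N.G

open B R S W V X

section

variable {R R' : Type} [CommRing R] [CommRing R']

theorem kt_map (ϑ : R →+* R') (H : HS) (φ : Zw →+* R) (M : Zw) (w : Wt R) (n : Finset ℕ)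
    (h : GQ) : ϑ (H.kt φ M w n h) = H.kt (ϑ.comp φ) M (fun l i => ϑ (w l i)) n h := by
  simp only [HS.kt, HS.F, N.wp, map_sum, map_mul, map_prod, RingHom.comp_apply]

end

section

variable {Λ : Type} [CommRing Λ]

/-- the sums -/
noncomputable def kt0 (Z : Dt Λ) (H : HS) (f : Fn) (ρ : Finset ℕ) (M : ℕ → Zw)
    (s : Finset ℕ → Bool) (n : ℕ) (S : Finset ℕ) : GQ → Λ :=
  H.kt (Z.ph (s S)) (M n) (wv (Z.ph (!Z.s₀)) f ρ (Z.q n) n (1 + Z.E.T)) (insert (Z.q n) (ρ ∪ S))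

/-- the classes -/
noncomputable def kk (Z : Dt Λ) (H : HS) (f : Fn) (ρ : Finset ℕ) (M : ℕ → Zw)
    (s : Finset ℕ → Bool) (n : ℕ) (S : Finset ℕ) (g : GQ) : Λ :=
  kt0 Z H f ρ M s n S (Z.K.τ (-Z.q n) * g * (Z.K.τ (-Z.q n))⁻¹ * g⁻¹)

end

/-- the same characters -/
def Sm (G : HS) (H : N.HS) : Prop := G.χ = H.χ ∧ G.j = H.j

/-- the finite-singular relation at all levels -/
def FS2_st : Prop := ∀ (R : Type) [CommRing R] (φ : Zw →+* R) (M : Zw) (V : Plc) (f : GQ),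
  M ≠ 0 → φ M = 0 → M ∣ star M → V.l % 3 = 2 → Frob V.l V.γ f → M ∣ V.l + 1 →
  ∃ v, IsUnit v ∧ ∀ (H : HS) (w : Wt R) (n : Finset ℕ) (τ : GQ) (c : R), Pn n → V.l ∉ n →
    τ ∈ V.I → Al V.l τ = 1 → (∀ i, w V.l (i + 1) = w V.l i + c) → ∀ g₀ ∈ GK, Al V.l g₀ = 0 →
    lamZ φ (H.χ (sd (insert V.l n))) M g₀ = 1 ∨ 3 * M ∣ V.l + 1 →
    H.kc φ M w (insert V.l n) g₀ τ = v * c * (lamZ φ (H.χ (sd (insert V.l n))) M g₀ *
      H.kt (cf φ) M (sh w (Av g₀)) n (f * f) - H.kt (cf φ) M w n (f * f))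

/-- the standard weights -/
def WT_st : Prop := ∀ (R : Type) [CommRing R] (φ₀ : Zw →+* R) (f : Fn) (ρ n : Finset ℕ) (q e : ℕ)
  (γ : R), Pn n → q ∈ n → q ∉ ρ → 3 ^ (e + 1) ∣ q + 1 → γ ^ 3 ^ e = 1 →
  (∀ l ∈ n, l ∉ ρ → l ≠ q → l % 3 = 2 ∧ (l : R) + 1 = 0) →
  ∀ (H : HS) (φ : Zw →+* R) (M : Zw), M ≠ 0 → φ M = 0 →
    φ₀ (ω ^ (fs f (n ∩ ρ) (Lu ω)).val) * φ (ω ^ (H.j (sd n)).val) = 1 →
    H.Sh φ M (wv φ₀ f ρ q e γ) (uu φ₀ f ρ q e γ) n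

/-- the classes of arbitrary systems -/
def KS2_st : Prop := AllZ fun _ _ Z _ _ => ∀ b p s r M,
  (∀ (G : HS) (H : N.HS) (f : Fn), Sm G H → Fam Z H f b p s r M → ∀ n S, (∀ l ∈ S, p n l) →
    Zf (Z.th (s S) n) (Ru (3 * (r * Z.q n * ∏ l ∈ S, l : ℕ))) (b n)
      (kk Z G f r.primeFactors M s n S) ∧
    kk Z G f r.primeFactors M s n S (Z.K.τ (-Z.q n)) ∈ b n ∧
    (∀ l ∈ S, kk Z G f r.primeFactors M s n S (Z.K.σ (-l)) ∈ b n) ∧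
    ((∀ g ∈ V3.D, Z.ph (s S) (ω ^ (Z.χ (s S) g).val) - Z.ph (s S)
        (ω ^ (G.χ (sg Z (s S)) g - G.j (sg Z (s S)) * kum 2 g).val) ∈ b n) →
      Kum ((Ideal.Quotient.mk (b n)).comp (Z.ph (s S))) (M n)
        (fun g => G.χ (sg Z (s S)) g - G.j (sg Z (s S)) * kum 2 g) V3.D
        fun g => Ideal.Quotient.mk (b n) (kk Z G f r.primeFactors M s n S g)) ∧
    ∀ h, G.H0 (pw * M n) (insert (Z.q n) (r.primeFactors ∪ S)) h →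
      kk Z G f r.primeFactors M s n S h - Z.E.T * kt0 Z G f r.primeFactors M s n S h ∈ b n) ∧
  ∀ (n l : ℕ) (ε : Bool), p n l → ∃ v, v ∉ Z.E.m ∧
    ∀ (G : HS) (H : N.HS) (f : Fn) (S : Finset ℕ), Sm G H → Fam Z H f b p s r M →
      (∀ l ∈ S, p n l) → l ∉ S → s S = ε →
      kk Z G f r.primeFactors M s n (insert l S) (Z.K.τ (-l)) -
        v * kk Z G f r.primeFactors M s n S (Z.K.σ (-l)) ∈ b n

/-- the reduction of the classes -/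
def RED_st : Prop := AllZ fun _ _ Z _ f => ∀ (G : HS) (f' : Fn) (ρ : Finset ℕ),
  (∀ l, l ∈ ρ ↔ l ∈ Z.r.primeFactors ∧ l % 3 ≠ 2) → ∀ n S, (∀ l ∈ S, Z.ok n l) →
  ∃ v, v ∉ Z.E.m ∧ ∀ g ∈ GK, kk Z G f Z.r.primeFactors (fun n => 3 ^ n) Z.sd n S g -
    v * kk Z G f' ρ (fun _ => pw) Z.sr n (S ∪ Bn Z.r) g ∈ Z.pn n

/-- the split primes in the residual classes of the first system -/
def SPL2_st : Prop := AllZ fun _ _ Z _ _ => ∀ (H : N.HS) (f f' : Fn) (ρ : Finset ℕ), H.N1 →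
  (∀ l, l ∈ ρ ↔ l ∈ Z.r.primeFactors ∧ l % 3 ≠ 2) →
  ∀ n S, (∀ l ∈ S, Z.ok n l ∨ l ∈ Bn Z.r) → ∀ g ∈ GK,
    N.kk Z H f ρ (fun _ => pw) Z.sr n S g -
      (∏ ϖ ∈ Sz Z.r, (Z.ga n (Z.K.σ ϖ) - 1)) * dd Z H f' n S g ∈ Z.pn n

/-- the bottom residual class of the first system -/
def BSE2_st : Prop := AllZ fun _ _ Z _ _ => ∀ (H : N.HS) (f : Fn), H.N1 → ∀ n,
  ∃ h ∈ GK, ∃ c ∉ GK, Z.At n h = 0 ∧ dd Z H f n ∅ h - dd Z H f n ∅ (c * h * c⁻¹) ∉ Z.E.m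

/-- the commutators that define the classes -/
def CM_st : Prop := AllZ fun _ _ Z _ _ =>
  ∀ (H : N.HS) (f : Fn) b p s r M, Fam Z H f b p s r M → ∀ n S, (∀ l ∈ S, p n l) →
    M n ≠ 0 ∧ Pn (insert (Z.q n) (r.primeFactors ∪ S)) ∧ ∀ g ∈ GK,
      H1 (M n) (insert (Z.q n) (r.primeFactors ∪ S))
        (Z.K.τ (-Z.q n) * g * (Z.K.τ (-Z.q n))⁻¹ * g⁻¹)

end Pool.Agent.MP_e23604_nt.N.G
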