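import Pool.Agent.Mg.Fe23604m.G256ad4
import Pool.Agent.Mg.Fe23604m.Gaef5a0
import Pool.Agent.Mg.Fe23604m.G7abfc9

set_option linter.all false

/-!
Three systems of points whose residual classes lie on a line: definitions and statements.
-/

set_option autoImplicit false

open Finset QuadraticAlgebra
open scoped Classical

namespace Pool.Agent.MP_e23604_nt.PH

open B R S W V

/-- three systems, their divided systems, and the first system as the direction of the line -/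
structure Tri (G : ZMod 3 → N.G.HS) (H : ZMod 3 → N.HS) (H' : N.HS) : Prop where
  n1 : H'.N1
  sm : ∀ j, N.G.Sm (G j) (H j)
  ch : ∀ j, (H j).χ = fun ε g => ε * kum 3 g
  jj : ∀ j, (H j).j = fun ε => -j * ε
  lin : ∀ (R : Type) [CommRing R] (φ : Zw →+* R) (w : N.Wt R) (n : Finset ℕ) (j : ZMod 3),
    N.Pn n → φ pw = 0 → ∀ h, N.H1 pw n h →
      (G j).kt φ pw w n h = (G 0).kt φ pw w n h + cv (-j * N.sd n) * H'.kt φ pw w n h
  div : ∀ (R : Type) [CommRing R] (φ : Zw →+* R) (w : N.Wt R) (n : Finset ℕ) (j : ZMod 3) (M : Zw),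
    N.Pn n → M ≠ 0 → φ M = 0 → ∀ h, N.H1 M n h →
      (H j).kt φ M w n h = φ pw ^ 2 * (G j).kt φ M w n h

/-- the systems exist -/
def TRI_st : Prop := ∃ G H H', Tri G H H'

/-- the product of the split primes -/
def rs (r : ℕ) : ℕ := ∏ l ∈ r.primeFactors.filter fun l => l % 3 ≠ 2, l

/-- the residual classes lie on a line -/
def PCS_st : Prop := ∀ (Λ : Type) [CommRing Λ] (Z : Dt Λ) (G : ZMod 3 → N.G.HS) (H : ZMod 3 → N.HS)
  (H' : N.HS) (f : X.Fn) (j : ZMod 3), Tri G H H' → N.Lk Z (H j) f →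
  Pcs Z (!Z.sr ∅) j (-j) (rs Z.r) (N.kap Z (H j) f)
    (fun i => N.G.kk Z (G i) f (rs Z.r).primeFactors (fun _ => pw) Z.sr) fun n => N.dd Z H' f n ∅

/-- the points of the three systems have infinite order -/
def ENDP_st : Prop := ∀ (G : ZMod 3 → N.G.HS) (H : ZMod 3 → N.HS) (H' : N.HS) (j : ZMod 3) (r : ℕ)
  (f : X.Fn) (χ χ' : GQ → ZMod 3), Tri G H H' → X.Pair χ χ' r →
  (∀ g ∈ GK, χ g = (H j).χ r g + X.fs f r.primeFactors (N.Av g)) →
  (∀ g ∈ GK, χ' g = (H j).χ (-r) g - X.fs f r.primeFactors (N.Av g)) →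
  X.fs f r.primeFactors (N.Lu ω) + (H j).j r = 0 →
  ∀ n : ℕ, n ≠ 0 → n • X.yT (H j) r.primeFactors f ⊥ ≠ 0

theorem TRI_of (hz : RZ_st) (hG : N.G.HGJ_st) (hH : N.G.HSJ_st) (hL : N.G.LIN_st)
    (hN : ∃ X : N.HS, X.y = Un.ny 0 ∧ X.N1) : TRI_st := by
  obtain ⟨z, hz⟩ := hz.1
  obtain ⟨H', h1, h2⟩ := hN
  choose G g1 g2 g3 using fun j => hG (-j) z hz
  choose H k1 k2 k3 using fun j => hH (-j) z hz
  exact ⟨G, H, H', h2, fun j => ⟨(g2 j).trans (k2 j).symm, (g3 j).trans (k3 j).symm⟩, k2, k3,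
    fun R _ φ w n j hn h0 => (hL R φ w n _ z _ (G 0) H' hn hz (g1 j)).1 h0 (by rw [g1, neg_zero]) h1,
    fun R _ φ w n j M hn m0 h0 => (hL R φ w n _ z _ (G 0) _ hn hz (g1 j)).2 M m0 h0 (k1 j)⟩

end Pool.Agent.MP_e23604_nt.PH
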