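import Pool.Agent.Mg.Fe23604m.G160902
import Pool.Agent.Mg.Fe23604m.G2f44ca

set_option linter.all false

/-!
The first system of points gives a point of infinite order for sixteen of the classes.
-/

set_option autoImplicit false

open Finset QuadraticAlgebra
open scoped Classical

namespace Pool.Agent.MP_e23604_nt.X

open B R S W

/-- additive functions on the numbers prime to three -/
theorem add_HeegN (κ : ℕ → ZMod 3)
    (hκ : ∀ a b, ¬ 3 ∣ a → ¬ 3 ∣ b → κ (a * b) = κ a + κ b) {m : ℕ} (hm : ¬ 3 ∣ m) :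
    κ m = ∑ l ∈ (rad3 m).primeFactors, (m.factorization l : ZMod 3) * κ l := by
  have h0 : m ≠ 0 := fun e => hm (e ▸ dvd_zero 3)
  have h1 : κ 1 = 0 := by
    have := hκ 1 1 (by norm_num) (by norm_num)
    rwa [mul_one, left_eq_add] at this
  have h2 : ∀ a n : ℕ, ¬ 3 ∣ a → κ (a ^ n) = n * κ a := fun a n ha => by
    induction n with
    | zero => rw [pow_zero, h1, Nat.cast_zero, zero_mul]
    | succ n ih =>
      rw [pow_succ, hκ _ _ (mt Nat.prime_three.dvd_of_dvd_pow ha) ha, ih]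
      push_cast
      ring
  have h3 : ∀ s : Finset ℕ, (∀ l ∈ s, ¬ 3 ∣ l) → ¬ 3 ∣ ∏ l ∈ s, l ^ m.factorization l ∧
      κ (∏ l ∈ s, l ^ m.factorization l) = ∑ l ∈ s, (m.factorization l : ZMod 3) * κ l := by
    intro s
    induction s using Finset.induction_on with
    | empty => exact fun _ => ⟨by norm_num, by rw [prod_empty, sum_empty, h1]⟩
    | insert a s ha ih =>
      intro hs
      have b1 := hs a (mem_insert_self _ _)
      have b2 := mt (Nat.prime_three.dvd_of_dvd_pow (n := m.factorization a)) b1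
      obtain ⟨b3, b4⟩ := ih fun l hl => hs l (mem_insert_of_mem hl)
      rw [prod_insert ha, sum_insert ha, hκ _ _ b2 b3, b4, h2 _ _ b1]
      exact ⟨fun e => (Nat.prime_three.dvd_mul.1 e).elim b2 b3, rfl⟩
  have h4 := (h3 m.primeFactors fun l hl e => hm (e.trans (Nat.dvd_of_mem_primeFactors hl))).2
  rw [← Nat.prod_factorization_eq_prod_primeFactors, Nat.prod_factorization_pow_eq_self h0] at h4
  rw [h4]
  refine (sum_subset (fun l hl => ?_) fun l hl hn => ?_).symm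
  · have := ((dvd_rad3 (Nat.prime_of_mem_primeFactors hl)).1 (Nat.dvd_of_mem_primeFactors hl)).2
    rw [← Nat.support_factorization, Finsupp.mem_support_iff]
    exact fun e => this (e ▸ dvd_zero 3)
  · have hl' := Nat.prime_of_mem_primeFactors hl
    have : 3 ∣ m.factorization l := by_contra fun e => hn (Nat.mem_primeFactors.2
      ⟨hl', (dvd_rad3 hl').2 ⟨fun e' => hm (e' ▸ Nat.dvd_of_mem_primeFactors hl), e⟩,
        (rad3_sf m).ne_zero⟩)
    rw [(ZMod.natCast_eq_zero_iff _ _).2 this, zero_mul]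

/-- the logarithm of a number prime to three -/
theorem log_HeegN (a b : ℕ) (ha : ¬ 3 ∣ a) (hb : ¬ 3 ∣ b) :
    ((((a * b) ^ 2 - 1) / 3 : ℕ) : ZMod 3) = ((a ^ 2 - 1) / 3 : ℕ) + ((b ^ 2 - 1) / 3 : ℕ) := by
  have k : ∀ c : ℕ, ¬ 3 ∣ c → ∃ t, c ^ 2 = 3 * t + 1 := fun c hc => by
    refine ⟨c ^ 2 / 3, ?_⟩
    have : c ^ 2 % 3 = 1 := by
      rw [Nat.pow_mod]
      have : c % 3 = 1 ∨ c % 3 = 2 := by omega
      rcases this with e | e <;> rw [e]
    omega
  obtain ⟨s, hs⟩ := k a ha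
  obtain ⟨t, ht⟩ := k b hb
  have e : (a * b) ^ 2 = 3 * (3 * (s * t) + s + t) + 1 := by
    rw [mul_pow, hs, ht]
    ring
  rw [e, hs, ht, Nat.add_sub_cancel, Nat.add_sub_cancel, Nat.add_sub_cancel,
    Nat.mul_div_cancel_left _ three_pos, Nat.mul_div_cancel_left _ three_pos,
    Nat.mul_div_cancel_left _ three_pos]
  push_cast
  rw [show (3 : ZMod 3) = 0 from rfl, zero_mul, zero_add]

theorem ndv_HeegN (D : ℕ) : ¬ 3 ∣ rad3 D := fun e => ((dvd_rad3 Nat.prime_three).1 e).1 rfl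

/-- the class of the radical modulo three -/
theorem rad_HeegN (D : ℕ) : (rad3 D : ZMod 3) =
    (-1) ^ ((rad3 D).primeFactors.filter fun l => l % 3 = 2).card := by
  conv_lhs => rw [← Nat.prod_primeFactors_of_squarefree (rad3_sf D)]
  rw [Nat.cast_prod, ← prod_const, prod_filter]
  refine prod_congr rfl fun l hl => ?_
  have : ¬ 3 ∣ l := fun e => ndv_HeegN D (e.trans (Nat.dvd_of_mem_primeFactors hl))
  rw [← ZMod.natCast_mod l 3]
  have : l % 3 = 1 ∨ l % 3 = 2 := by omega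
  rcases this with e | e <;> rw [e] <;> decide

/-- the two twists form a pair -/
theorem pair_HeegN (hN : NHB_st) (hK : KW_st) {D D' : ℕ} (h : W.Nice D) (h' : W.Nice D')
    (e : rad3 D' = rad3 D) (hp : par3 D = 1) (hp' : par3 D' = 0) :
    Pair (ch D) (ch D') (rad3 D) where
  tw := h.tw
  tw' := e ▸ h'.tw
  an := (hK.2.2.1 D h.ne).1
  an' := (hK.2.2.1 D' h'.ne).1
  md := (hK.2.2.1 D h.ne).2
  md' := (hK.2.2.1 D' h'.ne).2
  ht := h.hs
  ht' := e ▸ h'.hs
  nb := hN D h.ne h.gen fun k => by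
    obtain ⟨C, hC⟩ := h.cn
    have := (hC k).1
    rwa [hp, mul_one] at this
  hb := e ▸ h'.hb hp'
  ne := fun e1 => by
    obtain ⟨l, hl, a, b, -⟩ := h.gen.1
    have := (dvd_rad3 hl).2 ⟨a, b⟩
    rw [e1] at this
    exact hl.one_lt.ne' (Nat.dvd_one.1 this)

/-- the arithmetic of the classes -/
theorem cls_HeegN {D v m : ℕ} (hD : D = 3 ^ v * m) (hm : ¬ 3 ∣ m) (hp : par3 D = 1)
    (hc : cls3 D ∈ SN) : par3 (3 ^ 1 * D ^ 2) = 0 ∧ (((m ^ 2 - 1) / 3 : ℕ) : ZMod 3) ≠ 0 ∧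
      ((v : ZMod 3) = 0 ∧ (rad3 D : ZMod 3) = 1 ∨ (v : ZMod 3) = 1 ∧ (rad3 D : ZMod 3) = 2) := by
  have h0 : m ≠ 0 := fun e => hm (e ▸ dvd_zero 3)
  have hD0 : D ≠ 0 := by rw [hD]; positivity
  have hv : D.factorization 3 = v := by
    have := fac_pow h0 v 1 3
    rw [pow_one, ← hD, if_pos rfl, Nat.factorization_eq_zero_of_not_dvd hm] at this
    exact this
  have e1 : D / 27 ^ (v / 3) = 3 ^ (v % 3) * m := by
    refine Nat.div_eq_of_eq_mul_right (by positivity) ?_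
    rw [hD, ← mul_assoc, show 27 = 3 ^ 3 from rfl, ← pow_mul, ← pow_add, Nat.div_add_mod]
  rw [cls3, hv, e1] at hc
  rw [par3_eq v m hD hv] at hp
  rw [par3_eq (1 + 2 * v) (m ^ 2) (by rw [hD]; ring) (by rw [fac_pow hD0, if_pos rfl, hv]),
    rad3_pow hD0 _ (.inr rfl), rad_HeegN, ← ZMod.natCast_mod v 3, Ne, ZMod.natCast_eq_zero_iff]
  generalize (((rad3 D).primeFactors.filter fun l => l % 3 = 2).card) = c at *
  have a1 : v % 3 < 3 := Nat.mod_lt _ three_pos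
  have a3 : m ^ 2 % 9 = (m % 9) ^ 2 % 9 := Nat.pow_mod _ _ _
  have a5 : (1 + 2 * v) % 3 = (1 + 2 * (v % 3)) % 3 := by omega
  rw [a5]
  generalize v % 3 = x at *
  generalize m ^ 2 = q at *
  simp only [SN, mem_insert, mem_singleton] at hc hp ⊢
  have a6 : m % 9 = 2 ∨ m % 9 = 4 ∨ m % 9 = 5 ∨ m % 9 = 7 := by
    interval_cases x <;> omega
  have a7 : q % 9 = 4 ∨ q % 9 = 7 := by
    rcases a6 with e | e | e | e <;> rw [e] at a3 <;> omega
  refine ⟨?_, by omega, ?_⟩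
  · interval_cases x
    · rw [if_neg (by omega)] at hp
      rw [show (1 + 2 * 0) % 3 = 1 from rfl, if_pos (by omega)]
      omega
    · rw [if_pos (by omega)] at hp
      rw [show (1 + 2 * 1) % 3 = 0 from rfl, if_neg (by omega)]
      omega
    · omega
  · interval_cases x
    · rw [if_neg (by omega)] at hp
      exact .inl ⟨rfl, Even.neg_one_pow (Nat.even_iff.2 (by omega))⟩
    · rw [if_pos (by omega)] at hp
      exact .inr ⟨rfl, (Odd.neg_one_pow (Nat.odd_iff.2 (by omega))).trans rfl⟩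
    · omega

theorem heegN (hS : HSN_st) (hE : ENDN_st) (hY : YHS_st) (hF : FACN_st) (hN : NHB_st)
    (hK : KW_st) (D : ℕ) (h : ∀ j, W.Nice (3 ^ j * D) ∧ W.Nice (3 ^ j * D ^ 2))
    (hp : par3 D = 1) (hc : cls3 D ∈ SN) : Heeg D := by
  have n1 : W.Nice D := by simpa using (h 0).1
  have n2 := (h 1).2
  obtain ⟨v, m, hm, hD⟩ := Nat.exists_eq_pow_mul_and_not_dvd n1.ne 3 (by norm_num)
  have h0 : m ≠ 0 := fun e => hm (e ▸ dvd_zero 3)
  obtain ⟨c1, c2, c3⟩ := cls_HeegN hD hm hp hc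
  have hP := pair_HeegN hN hK n1 n2 (rad3_pow n1.ne _ (.inr rfl)) hp c1
  have er : rad3 D = rad3 m := by
    have := rad3_pow h0 v (.inl rfl)
    rwa [pow_one, ← hD] at this
  choose! F hF1 hF2 _ using hF
  have pr : ∀ l ∈ (rad3 m).primeFactors, l.Prime ∧ l ≠ 3 := fun l hl =>
    ⟨Nat.prime_of_mem_primeFactors hl, fun e => ndv_HeegN m (e ▸ Nat.dvd_of_mem_primeFactors hl)⟩
  let f : Fn := fun l => (2 * m.factorization l) • F l
  have k1 : ∀ g ∈ GK, ch m g = fs f (rad3 D).primeFactors (N.Av g) := fun g hg => by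
    have := add_HeegN (fun a => kum a g) (fun a b ha hb => by
      obtain ⟨t, ht⟩ := S.KAP_ok.2.2.1 a b (Nat.cast_ne_zero.2 fun e => ha (e ▸ dvd_zero 3))
        (Nat.cast_ne_zero.2 fun e => hb (e ▸ dvd_zero 3))
      rw [Nat.cast_mul, ht, ep_pos hg]
      ring) hm
    rw [ch, this, er, fs, mul_sum]
    refine sum_congr rfl fun l hl => ?_
    rw [hF1 l (pr l hl).1 (pr l hl).2 g hg]
    simp only [f, AddMonoidHom.nsmul_apply, nsmul_eq_mul, N.Av]
    push_cast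
    ring
  have k2 : fs f (rad3 D).primeFactors (N.Lu ω) = 2 * ((m ^ 2 - 1) / 3 : ℕ) := by
    rw [add_HeegN (fun a => ((a ^ 2 - 1) / 3 : ℕ)) log_HeegN hm, er, fs, mul_sum]
    refine sum_congr rfl fun l hl => ?_
    rw [← hF2 l (pr l hl).1 (pr l hl).2]
    simp only [f, AddMonoidHom.nsmul_apply, nsmul_eq_mul, N.Lu]
    push_cast
    ring
  have k3 : ∀ g ∈ GK, ch D g = v * (2 * kum 3 g) + fs f (rad3 D).primeFactors (N.Av g) :=
    fun g hg => by
      have := chD_pow h0 v 1 hg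
      rw [pow_one, ← hD, Nat.cast_one, one_mul] at this
      rw [← k1 g hg]
      exact this
  have k4 : ∀ g ∈ GK, ch (3 ^ 1 * D ^ 2) g = 2 * kum 3 g - ch D g := fun g hg => by
    have := chD_pow n1.ne 1 2 hg
    rw [Nat.cast_one, one_mul, show ((2 : ℕ) : ZMod 3) = -1 from rfl, neg_one_mul,
      ← sub_eq_add_neg] at this
    exact this
  have k5 : ∀ a : ZMod 3, 2 * a + a = 0 := by decide
  obtain ⟨H, hH, e1, e2, e3⟩ : ∃ H : N.HS, H.N1 ∧
      (∀ g ∈ GK, ch D g = H.χ (rad3 D) g + fs f (rad3 D).primeFactors (N.Av g)) ∧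
      (∀ g ∈ GK, ch (3 ^ 1 * D ^ 2) g = H.χ (-rad3 D) g - fs f (rad3 D).primeFactors (N.Av g)) ∧
      fs f (rad3 D).primeFactors (N.Lu ω) + H.j (rad3 D) = 0 := by
    rcases c3 with ⟨a, b⟩ | ⟨a, b⟩
    · obtain ⟨H, hH, e⟩ := hS _ c2
      refine ⟨H, hH, fun g hg => ?_, fun g hg => ?_, ?_⟩
      · rw [k3 g hg, a, b, hH.c1 g hg, zero_mul]
      · rw [k4 g hg, k3 g hg, a, b, show (-1 : ZMod 3) = 2 from rfl, hH.c2 g hg, zero_mul,
          zero_add]
      · rw [k2, b, e, k5]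
    · obtain ⟨H, hH, e⟩ := hS _ (neg_ne_zero.2 c2)
      refine ⟨H, hH, fun g hg => ?_, fun g hg => ?_, ?_⟩
      · rw [k3 g hg, a, b, hH.c2 g hg, one_mul]
      · rw [k4 g hg, k3 g hg, a, b, show (-2 : ZMod 3) = 1 from rfl, hH.c1 g hg]
        ring
      · rw [k2, b, hH.jn, e, neg_neg, k5]
  exact ⟨_, _, _, _, _, hP.tw', hY H _ f _ _ (rad3_sf D) (ndv_HeegN D) e1 e2,
    hE H _ f _ _ hH hP e1 e2 e3⟩

end Pool.Agent.MP_e23604_nt.X
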