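import Pool.Agent.Mg.Fe23604m.Gd767a4

set_option linter.all false

section

/-!
Local vanishing of cup products.
-/

set_option autoImplicit false

open Finset Filter QuadraticAlgebra
open scoped Classical

namespace Pool.Agent.MP_e23604_nt.V

open B R S W

theorem cj_MLOI {R : Type} [CommRing R] {a N : ℕ} (h : a ∣ N) (hN : N ≠ 0) (j : ZMod a →+* R) :
    cj (j.comp (ZMod.castHom h (ZMod a))) = cj j := by
  obtain ⟨k, rfl⟩ := h
  funext g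
  rw [cj, cj, cy_cast (left_ne_zero_of_mul hN) (right_ne_zero_of_mul hN)]
  rfl

theorem eta_MLOI {χ : GQ → ZMod 3} (hχ : Y.Anti χ) {c g : GQ} (hc : c ∉ GK) (hg : g ∈ GK)
    (P : Pt) : eta χ (c * g * c⁻¹) P = gal c (eta χ g (gal c⁻¹ P)) := by
  have e : ∀ a : ZMod 3, star ((ω : Zw) ^ a.val) = ω ^ (-a).val := by decide
  rw [eta_apply, eta_apply, gal_star hc, hχ c hc g hg, e, W.gal_mul, W.gal_mul]

theorem LOI_pf (hY : HY) (_hTHA : THA_st) (hTHB : THB_st) : LOI_st := by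
  intro Λ _ Z ε n i b j f f' hZ _ hi ⟨a, ha⟩ ⟨a', ha'⟩
  have N0 : 3 ^ (n + 1) ≠ 0 := by positivity
  have eN : ((3 ^ (n + 1) : ℕ) : Zw) = 3 ^ (n + 1) := by push_cast; rfl
  have M0 : (3 : Zw) ^ (n + 1) ≠ 0 := pow_ne_zero _ (by decide)
  rw [← cj_MLOI (pow_dvd_pow 3 hi) N0]
  generalize j.comp _ = j'
  set π := Ideal.Quotient.mk b
  set φ := π.comp (Z.ph ε)
  have hφ : φ (3 ^ (n + 1)) = 0 := by
    rw [← eN, map_natCast, ← map_natCast j', ZMod.natCast_self, map_zero]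
  obtain ⟨G, eG⟩ : ∃ G, G = N.gq (3 ^ (n + 1)) := ⟨_, rfl⟩
  have hG : W.Gen (3 ^ (n + 1)) G := eG ▸ Classical.epsilon_spec (CYG_ok _ M0).1
  have hS : ∀ P, (3 : Zw) ^ (n + 1) • N.dv (3 ^ (n + 1)) P = P := fun P =>
    Classical.epsilon_spec (smul_onto M0 P)
  have c3 := hZ.c3
  have ci : Z.c₃⁻¹ ∉ GK := mt GK.inv_mem_iff.1 c3.2
  have nm : ∀ g ∈ V3.D, Z.c₃ * g * Z.c₃⁻¹ ∈ V3.D := fun g hg =>
    ⟨(Dec _).mul_mem ((Dec _).mul_mem c3.1 hg.1) ((Dec _).inv_mem c3.1), (Plc.cj_GK _ g).1 hg.2⟩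
  have back : ∀ P, gal Z.c₃ (gal Z.c₃⁻¹ P) = P := fun P => by
    rw [← W.gal_mul, mul_inv_cancel, W.gal_one]
  obtain ⟨e, -, he⟩ := (hY.CJ Z.c hZ.cj).2.2.2.2 _ _ Z.c₃ N0 (eN.symm ▸ hG) c3.2
  obtain ⟨-, -, hC⟩ := COI_ok _ φ _ _ M0 hG hφ
  have r0 : Z.r ≠ 0 := (hZ.tw ε).sf.ne_zero
  obtain ⟨hC1, hC2⟩ := hC (Z.χ ε) Z.r (ML Z.r n) (hZ.tw ε) (ML_ne r0 n) (dvd_mul_left _ _)
    (dvd_mul_right _ _)
  set S := fun t => N.dv (3 ^ (n + 1)) (Z.P ε t)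
  have f1 : ∀ t, Fx (Z.χ ε) V3.D ((3 : Zw) ^ (n + 1) • S t) := fun t => by
    rw [hS]
    exact (hZ.lb ε).fx t
  have f2 : ∀ t, Fx (Z.χ ε) V3.D ((3 : Zw) ^ (n + 1) • gal Z.c₃⁻¹ (S t)) := fun t g hg => by
    have := gal_star ci (3 ^ (n + 1)) (S t)
    rw [star_pow, star_ofNat] at this
    refine gal_inj Z.c₃ ?_
    rw [← this, ← eta_MLOI (hZ.anti ε) c3.2 hg.2, f1 t _ (nm g hg), back]
  have L := LIN_ok _ (cj j') V3.D
  have K := fun t : Fin 2 × Fin 2 => hY.ISK (Z.χ ε) _ _ _ j' φ V3.D _ _ (hZ.mdl ε) N0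
    (eN.symm ▸ hG) V3.D_le (eN.symm ▸ f2 t.1) (eN.symm ▸ f1 t.2)
  refine ((L.1 _ _ 0).2.2.2 _ _ le_rfl (fun _ _ => rfl) fun g hg h hh => ?_).2
    ((L.2 _ univ _).2 fun t _ => ((L.1 _ _ (π (a t.1) * π (a' t.2) * φ e)).2.1 (K t) (K t)).2.2)
  have l1 : ∀ t, π (Z.lo ε n t (Z.c₃ * g * Z.c₃⁻¹)) =
      φ e * φ (star (co G (bd (Z.χ ε) (gal Z.c₃⁻¹ (S t)) g))) := fun t => by
    obtain ⟨k, hk⟩ := he _ (eN.symm ▸ ((hC2 _ V3.D_le).2.1 _ (f2 t)).1 g hg)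
    rw [← map_mul, ← sub_eq_zero]
    have := congrArg φ hk
    rw [map_mul, eN, hφ, zero_mul, map_sub, bd, map_sub, back,
      ← eta_MLOI (hZ.anti ε) c3.2 hg.2] at this
    exact eG ▸ this
  have l2 : ∀ t, ic φ G (eta (Z.χ ε) g (bd (Z.χ ε) (S t) h)) =
      π (Z.th ε n g) * π (Z.lo ε n t h) := fun t => by
    rw [(hC1 g hg.2 _ (((hC2 _ V3.D_le).2.1 _ (f1 t)).1 h hh)).1,
      ((hTHB Λ Z.toDt n hZ.toOk).2.2.2.2.2 ε).2.2.2.2.2 g hg, eG]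
    rfl
  have l3 : π _ = π _ := Ideal.Quotient.eq.2 (ha _ (nm g hg))
  have l4 : π _ = π _ := Ideal.Quotient.eq.2 (ha' _ hh)
  simp only [W.cup, l3, l4, l2, map_mul, l1, Fintype.sum_prod_type, Fin.sum_univ_two, map_add]
  ring

section

variable {R : Type} [CommRing R] {κ lam x y : GQ → R} {c : GQ}

theorem conj_MLOI (hl : Mu GK lam) (hx : Co lam GK x) (k : GQ) :
    Mu GK (fun g => lam (k * g * k⁻¹)) ∧
      Co (fun g => lam (k * g * k⁻¹)) GK fun g => x (k * g * k⁻¹) := by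
  have m := fun g => (Plc.cj_GK k g).1
  have e : ∀ g h, k * (g * h) * k⁻¹ = k * g * k⁻¹ * (k * h * k⁻¹) := fun g h => by group
  have lc : ∀ f : GQ → R, Lc GK f → Lc GK fun g => f (k * g * k⁻¹) := fun f hf => by
    simpa using lc_HCNJ (H := GK) k⁻¹ hf (by simpa using m)
  exact ⟨⟨lc _ hl.1, by simp [hl.2.1], fun g hg h hh => by
    simp only [e, hl.2.2 _ (m g hg) _ (m h hh)]⟩, lc _ hx.1, fun g hg h hh => by
    simp only [e, hx.2 _ (m g hg) _ (m h hh)]⟩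

theorem sw_MLOI (hc : Y.Cj c) (hl : Mu GK lam) (hκ : ∀ g ∈ GK, lam (c * g * c) * lam g = κ g)
    (hx : Co lam GK x) (hy : Co lam GK y) {k : GQ} (hk : k ∉ GK) {H : Subgroup GQ} (hH : H ≤ GK) :
    Co2 κ H (cup lam (fun g => x (k * g * k⁻¹)) y) ∧
      (Bo2 κ H (cup lam (fun g => x (k * g * k⁻¹)) y) →
        Bo2 κ H (cup lam (fun g => x (c * g * c)) y)) := by
  have ci : c⁻¹ = c := inv_eq_of_mul_eq_one_right hc.sq
  have m : c * k⁻¹ ∈ GK := GK_mul hc.nk (mt GK.inv_mem_iff.1 hk)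
  have e : ∀ g, c * k⁻¹ * (k * g * k⁻¹) * (c * k⁻¹)⁻¹ = c * g * c := fun g => by
    rw [mul_inv_rev, ci]
    group
  have e1 := fun g hg => co_HCNJ hl hx m ((Plc.cj_GK k g).1 hg)
  simp only [e] at e1
  obtain ⟨h1, h2⟩ := conj_MLOI hl hx k
  have C := fun z hz => CUP_ok R κ _ lam z y H (mu_HRCC h1 hH) (mu_HRCC hl hH)
    (fun g hg => by rw [← hκ g (hH hg), (e1 g (hH hg)).1]) hz (co_HRCC hy hH)
  refine ⟨(C _ (co_HRCC h2 hH)).1, fun hb => ?_⟩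
  have b := (C (fun g => (lam (k * g * k⁻¹) - 1) * x (c * k⁻¹)) ⟨(h1.1.mono hH).map
    fun t => (t - 1) * x (c * k⁻¹), fun g hg h hh => by
      linear_combination x (c * k⁻¹) * h1.2.2 g (hH hg) h (hH hh)⟩).2.1 (.inl ⟨_, fun _ _ => rfl⟩)
  have L := (LIN_ok R κ H).1
  refine ((L _ _ 0).2.2.2 _ _ le_rfl (fun _ _ => rfl) fun g hg h _ => ?_).2
    ((L _ _ 0).2.1 ((L _ _ (lam (c * k⁻¹))).2.1 hb hb).2.2 b).2.1
  simp only [W.cup, (e1 g (hH hg)).2]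
  linear_combination (-(x (c * g * c) + (lam (k * g * k⁻¹) - 1) * x (c * k⁻¹)) * lam g * y h) *
    inv_HCNJ hl m

end

theorem LV_pf (hY : HY) : LV_st := by
  intro R _ p n j c lam x y V hp hc hl hκ hx hy h
  have hN : p ^ n ≠ 0 := pow_ne_zero _ hp.ne_zero
  have h0 : ((p ^ n : ℕ) : R) = 0 := by rw [← map_natCast j, ZMod.natCast_self, map_zero]
  rcases n.eq_zero_or_pos with rfl | hn
  · have : Subsingleton R := subsingleton_of_zero_eq_one (by simpa using h0.symm)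
    exact ⟨0, Lc.const _ _, fun _ _ _ _ => Subsingleton.elim _ _⟩
  obtain ⟨⟨h1, h2, h3⟩, -⟩ := hY.RCS R p n j c lam x y hp hn hc hl hκ hx hy
  have hM : Mu GK (cj j) := ⟨(cy_lc _ _).map j, by rw [cj, cy_one hN, map_one],
    fun g _ k _ => by rw [cj, cj, cj, cy_mul hN, map_mul]⟩
  have mv := fun (U : Plc) (ϖ : Zw) a b d => (CNJ_ok R (cj j)).2 U V ϖ hM a b d |>.2 _
    (CUP_ok R (cj j) _ lam _ y GK h1 hl (fun g hg => (hκ g hg).symm) h2 hy).1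
  rcases h with ⟨a, k, -, hk, b⟩ | h | ⟨a, U, φ, hI, e, b⟩ | ⟨-, h⟩
  · exact mv V3 pw pw_prime (Ov_three.1 V3_three) (Ov_three.1 (by simpa [a] using Ov_l V))
      ((sw_MLOI hc hl hκ hx hy hk V3.D_le).2 b)
  · exact h3 V (.inl (h _ rfl))
  · obtain ⟨pp, ov, -, nk, -, -, i4, -⟩ := hY.INF.2.2 U φ hI
    obtain ⟨s1, s2⟩ := sw_MLOI hc hl hκ hx hy nk U.D_le
    refine mv U _ pp.1 ov ((Ov_l V).dvd (by simp [e])) (s2 (UNB_ok R _ _ U _ hN h0
      (mu_HRCC hM U.D_le) (fun τ hτ => ?_) s1 fun g hg h hh τ hτ => ?_))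
    · rw [cj, (((KM_ok _ hN).2.2.2.2.2.2.2.2 U fun d => a (e ▸ (Nat.prime_dvd_prime_iff_eq
        U.hl.out hp).1 (U.hl.out.dvd_of_dvd_pow d))).2.1 τ hτ.1).1, map_one]
    · have t := (FRK_ok U _ pp.1 ov).2.1 _ (inv_mem hh) τ hτ
      have u1 := hy.2 τ hτ.2 h hh.2
      have u2 := hy.2 h hh.2 _ t.2
      rw [(b _ t).2, inv_inv, ← mul_assoc, ← mul_assoc, mul_inv_cancel, one_mul, u1,
        (b τ hτ).2] at u2
      simp only [W.cup, (conj_MLOI hl hx φ).2.2 g hg.2 τ hτ.2, (b _ ((i4 τ).1 hτ)).1,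
        hl.2.2 g hg.2 τ hτ.2, hy.2 h hh.2 τ hτ.2, (b τ hτ).2, mul_zero, add_zero, and_true]
      linear_combination x (φ * g * φ⁻¹) * lam g * u2
  · refine h3 V (.inr (.inr fun τ hτ => ?_))
    have t := h (V.mv c) rfl _ (((hY.CJ c hc).2.1 V τ).2.1 hτ)
    exact ⟨(h V rfl τ hτ).1, t.1, t.2.1, (h V rfl τ hτ).2.2⟩

end Pool.Agent.MP_e23604_nt.V

end

section

set_option autoImplicit false

open Finset Filter QuadraticAlgebra
open scoped Classical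

namespace Pool.Agent.MP_e23604_nt.V

open B R S W

theorem END_pf (hY : HY) (hTHA : THA_st) (hGER : GER_st) (hROW : ROW_st) (hCLG : CLG_st) (hCLC : CLC_st) (hBV : BV_st) (hHSL : HSL_st) : END_st := by
  intro Λ _ _ Z κ l g₀ hZ hc ⟨i, hi⟩ hb he hn hg ht h2
  obtain ⟨-, -, -, -, -, -, hs, -, hj⟩ := hGER Λ Z hZ.toOk0
  obtain ⟨q, -, -, hk, -⟩ := hCLG Λ Z κ κ hZ.toOk0
  have lc := ((q hc).ls _ (Vx.refl _ _)).lc
  rw [hs, hk] at lc
  have coc : ∀ g g', Inc GK g → Inc GK g' → Z.E.ev (fun n => κ n ∅) (g * g') =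
      Z.E.ev (fun n => κ n ∅) g + Z.E.ev (Z.th Z.s₀) g * Z.E.ev (fun n => κ n ∅) g' :=
    fun g g' a b => sub_eq_zero.1 (LZ.coc lc a b)
  have pT := Z.E.pT
  have all : ∀ g, Inc GK g → Z.E.T ^ 2 ∣ Z.E.ev (fun n => κ n ∅) g := fun g a => by
    have e1 := coc (g₀ * g * g₀⁻¹ * g⁻¹) (g * g₀)
      (fun n => GK.mul_mem (GK.mul_mem (GK.mul_mem (hg n) (a n)) (GK.inv_mem (hg n)))
        (GK.inv_mem (a n))) fun n => GK.mul_mem (a n) (hg n)
    rw [Z.E.ev_one (fun n => ((hTHA Λ Z.toDt n hZ.toOk0.toOk).2.2.2.2.2.1 Z.s₀).1)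
      (g := g₀ * g * g₀⁻¹ * g⁻¹) fun n => (hTHA Λ Z.toDt n hZ.toOk0.toOk).2.2.2.1 _ (hg n) _ (a n),
      show g₀ * g * g₀⁻¹ * g⁻¹ * (g * g₀) = g₀ * g by group, coc _ _ hg a, coc _ _ a hg] at e1
    have e2 : Z.E.T ^ 2 ∣ 3 ^ i * Z.E.ev (fun n => κ n ∅) (g₀ * g * g₀⁻¹ * g⁻¹) := by
      rw [← Z.E.const (3 ^ i), Lm.ev, ← Z.E.L_mul, ← Ideal.mem_span_singleton]
      exact Z.E.mem_of (k := id) uf_le fun n => hi n _ (hg n) _ (a n)
    refine pT.pow_dvd_of_dvd_mul_left 2 ht ?_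
    convert dvd_add (pT.pow_dvd_of_dvd_mul_left 2 (mt pT.dvd_of_dvd_pow Z.E.T3) e2)
      (h2.mul_left (Z.E.ev (Z.th Z.s₀) g - 1)) using 1
    linear_combination e1
  have T0 := pow_ne_zero 2 pT.ne_zero
  have ker := (((hCLC Λ Z κ κ hZ).1 hc).1.ker _ (Vx.refl _ _))
  have : ∀ j, Z.E.T ^ 2 ∣ Z.kv Z.m0 κ Z.m0 j := fun j => by
    rw [Mx.kv, Z.vec_apply, hk]
    split_ifs
    exacts [all _ (hj j).1, dvd_zero _]
  choose c hc' using this
  obtain ⟨z, z1, z2⟩ : ∃ z : JJ →₀ Λ, z.support ⊆ Z.m0 ∧ Z.kv Z.m0 κ Z.m0 = Z.E.T ^ 2 • z :=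
    ⟨Finsupp.onFinset _ c fun j e => ker.1 (Finsupp.mem_support_iff.2 (hc' j ▸ mul_ne_zero T0 e)),
      Finsupp.support_onFinset_subset, Finsupp.ext hc'⟩
  have := (Ideal.span_singleton_prime pT.ne_zero).2 pT
  have rd : Rd (Ideal.Quotient.mk (Ideal.span {Z.E.T})) Z.E.T :=
    ⟨Ideal.Quotient.mk_surjective, fun x => by
      rw [Ideal.Quotient.eq_zero_iff_mem, Ideal.mem_span_singleton]⟩
  rw [hs, z2] at ker
  obtain ⟨α, β, a0, e⟩ := ((hHSL Λ _ Z _ Z.s₀ hZ rd).2 hb).1 (vt _ z)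
    ⟨Finsupp.support_mapRange.trans z1, fun j a => (ev_vt _ _ _).trans (by
      have := ker.2 j a
      rw [map_smul, smul_eq_mul] at this
      rw [(mul_eq_zero.1 this).resolve_left T0, map_zero])⟩
  have e' := congrArg (ev fun j => Ideal.Quotient.mk (Ideal.span {Z.E.T}) (Z.w Z.s₀ l j)) e
  rw [map_smul, map_smul, ev_vt, ev_vt, (hBV Λ Z Z.s₀ hZ).2.2.1 l (.inr he.2.1), map_zero,
    smul_zero] at e'
  refine hn ?_
  rw [ae, hs, z2, map_smul, pow_succ]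
  exact mul_dvd_mul_left _ ((rd.ker _).1 ((mul_eq_zero.1 e').resolve_left a0))

open PowerSeries in
theorem LMX_pf (hY : HY) : LMX_st := by
  obtain ⟨O, _, _, _, ι, L, h1, h2, h3, h4⟩ := O3_pf
  have p1 : ¬ ι pw ∣ 1 := fun e => pw_prime.not_dvd_one (by simpa using h3 1 1 (by simpa using e))
  have p0 : ι pw ≠ 0 := fun e => pw_prime.not_dvd_one
    ((mul_dvd_mul_iff_left pw_ne).1 (by simpa [pow_two] using h3 pw 2 (by simp [e])))
  have pp : Prime (ι pw) := ⟨p0, fun e => p1 e.dvd, fun a b e =>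
    or_iff_not_imp_left.2 fun ha => (h4 a ha).dvd_mul_left.1 e⟩
  have hL : ∀ c, L (fun _ => c) = c := fun c => by
    refine (sub_eq_zero.1 (clo_LM (m := Ideal.span {ι pw})
      (fun x hx => h4 x (mt Ideal.mem_span_singleton.2 hx)) (mt Ideal.mem_span_singleton.1 p1) ⊥ _
      fun k => Ideal.mem_sup_right ?_)).symm
    rw [Ideal.span_singleton_pow, Ideal.mem_span_singleton]
    exact (h1 (fun _ => c) k).exists.choose_spec
  have hu : ∀ x : O⟦X⟧, x ∉ Ideal.span {C (ι pw), X} → IsUnit x := fun x hx =>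
    isUnit_iff_constantCoeff.2 (h4 _ (mt memC_LM.2 hx))
  have hn : (1 : O⟦X⟧) ∉ Ideal.span {C (ι pw), X} := fun e => p1 (by simpa using memC_LM.1 e)
  have hr : ∀ x : O⟦X⟧, ∃ i : Fin 3, x - (((i : ℕ) - 1 : ℤ) : O⟦X⟧) ∈ Ideal.span {C (ι pw), X} := by
    intro x
    obtain ⟨c, hc⟩ := h2 (constantCoeff x) 1
    rw [pow_one] at hc
    rcases mod_pw c with e | e | e
    · exact ⟨1, memC_LM.2 (by simpa using dvd_add hc (map_dvd ι e))⟩
    · exact ⟨2, memC_LM.2 (by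
        have := dvd_add hc (map_dvd ι e)
        norm_num at this ⊢
        exact this)⟩
    · exact ⟨0, memC_LM.2 (by simpa [← add_assoc] using dvd_add hc (map_dvd ι e))⟩
  have hf : Finite (O⟦X⟧ ⧸ (Ideal.span {C (ι pw), X} : Ideal O⟦X⟧)) :=
    .of_surjective (fun i : Fin 3 => Ideal.Quotient.mk _ (((i : ℕ) - 1 : ℤ) : O⟦X⟧)) fun y => by
      obtain ⟨x, rfl⟩ := Ideal.Quotient.mk_surjective y
      exact (hr x).imp fun i hi => (Ideal.Quotient.eq.2 hi).symm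
  have := PrincipalIdealRing.isMaximal_of_irreducible pp.irreducible
  letI := Ideal.Quotient.field (Ideal.span {ι pw})
  exact ⟨O, O ⧸ Ideal.span {ι pw}, inferInstance, inferInstance, inferInstance, inferInstance,
    { ι := C.comp ι
      T := X
      L := lim_LM L hL
      m := Ideal.span {C (ι pw), X}
      m_eq := rfl
      lim := fun x k => by
        filter_upwards [(eventually_all_finset (range k)).2
          fun i _ => h1 (fun n => coeff i (x n)) k] with n hn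
        exact memA_LM fun i hi => by simpa [lim_LM] using hn i (mem_range.2 hi)
      clo := clo_LM hu hn
      fin := Ideal.finite_quotient_pow (IsNoetherian.noetherian _)
      res := fun x => (hr x).elim fun _ h => ⟨_, h⟩
      unit := hu
      ne := hn
      ppi := prime_LM pp
      pT := X_prime
      T3 := fun e => p0 (pow_eq_zero_iff two_ne_zero |>.1 (by
        have e1 : (3 : O) = 0 := by simpa [map_ofNat] using X_dvd_iff.1 e
        rw [← map_pow, pw_sq, map_neg, map_ofNat, e1, neg_zero]))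
      piT := fun ⟨g, e⟩ => p1 ⟨_, by simpa using congrArg (coeff 1) e⟩
      sur := fun x k => (h2 (constantCoeff x) k).imp fun c hc => memB_LM.2 (by simpa using hc)
      inj := fun c k h => h3 c k (by simpa using memB_LM.1 h) }, ι pw, Ideal.Quotient.mk _,
    rfl, rfl, pp, h4, Ideal.Quotient.mk_surjective, fun x => by
      rw [Ideal.Quotient.eq_zero_iff_mem, Ideal.mem_span_singleton]⟩

theorem MXE_pf (hY : HY) (hUNI : UNI_st) (hLOB : LOB_st) : MXE_st := by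
  intro Λ _ Z hZ hP
  obtain ⟨c, hc⟩ := hY.INF.1
  obtain ⟨c₃, a1, a2⟩ := S.LOC_ok.2.2.2 1
  obtain ⟨x₁, b1, x₂, b2, -, -, b3, b4, b5⟩ := W.KGEN_ok.1 0
  obtain ⟨y, d1, d2⟩ := W.DM4_ok
  choose P hP using hP
  have h0 : ∀ F wf, Mx.Ok0 ⟨Z, c, c₃, fun t => bif t then x₁ else x₂, y, P, F, wf⟩ := fun F wf =>
    ⟨hZ, hc, ⟨Ine_le 3 1 a1, a2⟩, fun t => by
      cases t
      exacts [V3.D_le b2, V3.D_le b1], b3, b4, b5, d1, d2, hP⟩
  choose F hF using hLOB Λ _ (h0 0 0)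
  choose w hw using hUNI Λ _ (h0 0 0)
  exact ⟨_, rfl, h0 F w, hF, hw⟩

end Pool.Agent.MP_e23604_nt.V

end
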