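import Mathlib
import Pool.Agent.Mg.Fe23604m.G2ea9ea
import Pool.Agent.MP_e23604_nt.BSel

set_option linter.all false

namespace Pool.Agent.MP_e23604_nt.Q

open Finset Filter NumberField
open MP_f68ac8_nt
open MP_f68ac8_nt.Zq (Mx sg eps lk2)
open MP_f68ac8_nt.Zk (Cp Yw rr ch lk)
open MP_f68ac8_nt.Nd (Lr x2 chn Loc Op2 Fr vl Rcp GenQ GnQ WdQ exq Sp np Km)
open scoped BigOperators Topology

section
variable {v : AbsoluteValue Qb ℝ} (hv : IsNonarchimedean v) {g : GQ} (hg : B.Inr v g)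
  (h2 : v 2 = 1)
include hv hg h2

open scoped Classical in
lemma tors_XGmU {k : ℕ} {u : A1} (hu : 2 ^ k • u = 0) : galQ (P.EE 1) g u = u := by
  have hW : B.Intg v ((P.EE 1).baseChange Qb) := by
    simp [B.Intg, P.EE, WeierstrassCurve.baseChange]
  have hΔ : v ((P.EE 1).baseChange Qb).Δ = 1 := by
    have : ((P.EE 1).baseChange Qb).Δ = -2 ^ 6 := by
      simp [P.EE, WeierstrassCurve.baseChange, WeierstrassCurve.Δ, WeierstrassCurve.b₂,
        WeierstrassCurve.b₄, WeierstrassCurve.b₆, WeierstrassCurve.b₈]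
      norm_num
    rw [this, v.map_neg, map_pow, h2, one_pow]
  refine sub_eq_zero.1 (B.E1_tors hv hW (B.inr_E1 _ hv hW hΔ hg u) (n := (2 ^ k : ℕ)) ?_ ?_)
  · push_cast
    rw [map_pow, h2, one_pow]
  · rw [natCast_zsmul, smul_sub, ← map_nsmul, hu, map_zero, sub_zero]

lemma root_XGmU {c : Qb} {t : ℤ} (hc : c ^ 4 = t) (ht : v t = 1) : g c = c := by
  have h1 : v c = 1 := (pow_eq_one_iff_of_nonneg (v.nonneg c) four_ne_zero).1 (by
    rw [← map_pow, hc, ht])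
  have h3 := hg c h1.le
  have h4 : g c ^ 4 = c ^ 4 := by rw [← map_pow, hc, map_intCast]
  by_contra h
  have h5 : 2 ^ 2 * c ^ 3 = (c - g c) * (g c ^ 2 + 2 * g c * c + 3 * c ^ 2) := by
    apply mul_left_cancel₀ (sub_ne_zero.2 h)
    linear_combination h4
  have h6 : v (g c) = 1 := (B.Inr_eq hv hg c).trans h1
  have h7 : v (g c ^ 2 + 2 * g c * c + 3 * c ^ 2) ≤ 1 := by
    refine (hv _ _).trans (max_le ((hv _ _).trans (max_le ?_ ?_)) ?_)
    · rw [map_pow, h6, one_pow]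
    · rw [map_mul, map_mul, h2, h6, h1]; norm_num
    · rw [map_mul, map_pow, h1, one_pow, mul_one]
      exact_mod_cast hv.apply_intCast_le_one (n := 3)
  have h8 := congrArg v h5
  rw [map_mul, map_mul, map_pow, map_pow, h2, h1, v.map_sub] at h8
  nlinarith [v.nonneg (g c - c), v.nonneg (g c ^ 2 + 2 * g c * c + 3 * c ^ 2)]

end

open scoped Classical in
lemma inr_XGmU (hD : DecQ) {I : Ideal (𝓞 Qb)} (hP : I.IsMaximal) {l : ℕ} (hl : l.Prime)
    (h2 : l ≠ 2) (hlP : (l : 𝓞 Qb) ∈ I) {g : GQ} (hg : g ∈ I.inertia GQ) :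
    (∀ (k : ℕ) (u : A1), 2 ^ k • u = 0 → galQ (P.EE 1) g u = u) ∧
      ∀ (c : Qb) (t : ℤ), c ^ 4 = t → ¬ (l : ℤ) ∣ t → g c = c := by
  have : Fact l.Prime := ⟨hl⟩
  obtain ⟨g0, h⟩ := hD.2.2.2.2.2.2 I hP l hlP
  have h3 : B.nv l g0 2 = 1 := by
    exact_mod_cast B.v_coprime (B.nv_na l g0) hl (B.nv_lt l g0) (n := 2) fun h =>
      h2 ((Nat.prime_dvd_prime_iff_eq hl Nat.prime_two).1 (by exact_mod_cast h))
  exact ⟨fun k u => tors_XGmU (B.nv_na l g0) (h g hg) h3, fun c t hc ht =>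
    root_XGmU (B.nv_na l g0) (h g hg) h3 hc (B.v_coprime (B.nv_na l g0) hl (B.nv_lt l g0) ht)⟩

open scoped Classical in
theorem gmU (hBasQ : BasQ) (hDecQ : DecQ) (hScQ : ScQ) (hModQ : ModQ) : GmU := by
  intro i δ J η D n β σ τ E
  obtain ⟨h1, h2, -⟩ := (hModQ i).2 J E.jm
  have h3 : ∀ k, ∀ u ∈ Wn J k, 2 ^ k • u = 0 := fun k u hu =>
    (h2 k u).1 ((hBasQ _ J h1.toCm0).1 k (2 * k) (by omega) hu)
  have n0 : n ≠ 0 := E.sf.ne_zero
  have D0 : D ≠ 0 := fun h => by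
    have := E.abs
    rw [h] at this
    exact (mul_ne_zero (pow_ne_zero _ two_ne_zero) n0) this.symm
  have δ0 : δ ≠ 0 := fun h => D0 (by
    have := E.pow
    rw [h, zero_pow four_ne_zero] at this
    exact_mod_cast this.symm)
  have dv : ∀ l : ℕ, l.Prime → l ≠ 2 → ∀ m : ℕ, l ∣ 2 ^ β.val * m → l ∣ m := fun l hl h m hm =>
    (hl.dvd_mul.1 hm).resolve_left fun h4 =>
      h ((Nat.prime_dvd_prime_iff_eq hl Nat.prime_two).1 (hl.dvd_of_dvd_pow h4))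
  refine ⟨fun P hP g hg k u hu => ?_, fun l hl k u hu => ?_⟩
  · have := hP.1
    obtain ⟨l, hl, hlP⟩ := exists_prime_mem P
    have l2 : l ≠ 2 := fun h => hP.2.1 (h ▸ hlP)
    obtain ⟨a, b⟩ := inr_XGmU hDecQ hP.1 hl l2 hlP hg
    rw [E.eta, a k u (h3 k u hu), b δ D E.pow fun h => hP.2.2 l (Nat.mem_primeFactors.2
      ⟨hl, dv l hl l2 n (E.abs ▸ Int.natCast_dvd.1 h), n0⟩) hlP, div_self δ0]
    exact ((hScQ 1 1 Qb 1 one_ne_zero one_ne_zero (by simp)).2.2.2.1 u).1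
  · obtain ⟨lp, ⟨m, hm⟩, -⟩ := Nat.mem_primeFactors.1 hl
    have lo : Odd l := E.odd.of_dvd_nat ⟨m, hm⟩
    have l2 : l ≠ 2 := fun h => by rw [h] at lo; exact absurd lo (by decide)
    obtain ⟨t, ht⟩ : (l : ℤ) ∣ D := Int.natCast_dvd.2 (E.abs ▸ Dvd.dvd.mul_left ⟨m, hm⟩ _)
    have h4 : ¬ (l : ℤ) ∣ t := fun h => by
      have h5 : l * l ∣ 2 ^ β.val * n := by
        rw [← E.abs, ht, Int.natAbs_mul, Int.natAbs_natCast]
        exact mul_dvd_mul_left _ (Int.natCast_dvd.1 h)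
      rw [hm, mul_left_comm, Nat.mul_dvd_mul_iff_left lp.pos] at h5
      exact lp.not_isUnit (E.sf l (hm ▸ mul_dvd_mul_left _ (dv l lp l2 m h5)))
    obtain ⟨ρ, hρ⟩ := IsAlgClosed.exists_pow_nat_eq (l : Qb) four_pos
    have l0 : (l : Qb) ≠ 0 := by exact_mod_cast lp.ne_zero
    have ρ0 : ρ ≠ 0 := fun h => l0 (by rw [← hρ, h]; norm_num)
    obtain ⟨P, hP, hlP, -, hg⟩ := (E.tl l lp lo).ex
    obtain ⟨a, b⟩ := inr_XGmU hDecQ hP lp l2 hlP hg
    have h5 := b (δ / ρ) t (by rw [div_pow, E.pow, hρ, ht]; push_cast; field_simp) h4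
    have h6 : τ l δ / δ = -i := by
      rw [map_div₀, E.tau l lp lo ρ hρ, div_eq_iff (mul_ne_zero (fun h => by
        have := E.jm.1
        rw [neg_eq_zero.1 h] at this
        norm_num at this) ρ0)] at h5
      rw [h5]
      field_simp
    rw [E.eta, a k u (h3 k u hu), h6, E.jm.2]

end Pool.Agent.MP_e23604_nt.Q
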