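import Pool.Agent.Mg.Fe23604m.Gd767a4

set_option linter.all false

section

/-!
The choice of a sequence of auxiliary primes.
-/

set_option autoImplicit false

open Finset Filter QuadraticAlgebra
open scoped Classical

namespace Pool.Agent.MP_e23604_nt.V

open B R S W

theorem inf_MCHA {I : Type} [Fintype I] {U : Subgroup GQ} (hU : ON U) (N : I → Subgroup GQ)
    (h : ∀ i, ON (N i)) : ∃ M, ON M ∧ M ≤ U ∧ ∀ i, M ≤ N i :=
  ⟨U ⊓ univ.inf N, hU.inf (inf_induction ON.top (fun _ a _ b => a.inf b) fun i _ => h i),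
    inf_le_left, fun i => inf_le_right.trans (Finset.inf_le (mem_univ i))⟩

theorem sq_MCHA {N : Subgroup GQ} (hN : N.Normal) {g φ : GQ} {i : ℕ} (h : (g ^ i)⁻¹ * φ ∈ N) :
    ((g ^ 2) ^ i)⁻¹ * φ ^ 2 ∈ N := by
  rw [← QuotientGroup.eq] at h ⊢
  rw [QuotientGroup.mk_pow N φ, ← h, ← QuotientGroup.mk_pow, ← pow_mul, ← pow_mul, mul_comm]

theorem lev_MCHA (hY : HY) (hTHA : THA_st) (hTHB : THB_st) {Λ : Type} [CommRing Λ] (Z : Mx Λ)
    (hZ : Z.Ok0) (n B : ℕ) {N : Subgroup GQ} (hN : ON N) (hU : N ≤ UM (ML Z.r n)) {h : GQ}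
    (hh : h ∈ UM (ML Z.r n)) : ∃ l : ℕ, B < l ∧ Z.ok n l ∧ ∃ (j : ℕ) (k : GQ),
      ∀ (ε : Bool) (b : Ideal Λ) (Rm : Set GQ) (f : GQ → Λ), Z.E.m ^ n ≤ b →
        Z.th ε n (Z.c * h * Z.c) - 1 ∈ b → Zf (Z.th ε n) Rm b f →
        (∀ g ∈ GK, ∀ g' ∈ GK, g⁻¹ * g' ∈ N → f g - f g' ∈ b) →
        f (Z.c * h * Z.c) + f h - j * Z.th ε n k * f (Z.K.σ (-l)) ∈ b := by
  obtain ⟨a1, a2, a3, -, -, a6, -⟩ := hTHA Λ Z.toDt n hZ.toOk
  obtain ⟨-, -, -, b4, -⟩ := hTHB Λ Z.toDt n hZ.toOk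
  have ci : Z.c⁻¹ = Z.c := inv_eq_of_mul_eq_one_right hZ.cj.sq
  have r0 : Z.r ≠ 0 := (hZ.tw true).sf.ne_zero
  have h1 : Z.c * h * Z.c ∈ UM (ML Z.r n) := by simpa only [ci] using a3.1.conj_mem h hh Z.c
  have g2 : (Z.c * h) ^ 2 = Z.c * h * Z.c * h := by rw [pow_two, ← mul_assoc]
  obtain ⟨V', φ, i, j, c1, c2, c3, c4, c5⟩ := hY.CHI.1 N (Z.c * h) (B + Z.q n + 3 + Z.r) hN
    (by rw [GK.mul_mem_cancel_right hh.1]; exact hZ.cj.nk)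
  obtain ⟨d1, d2, -, -, d5, -, -, -, -, -, d11, -⟩ := hY.INF.2.2 V' φ c1
  have hl := V'.hl.out
  have e1 : φ ^ 2 ∈ UM (ML Z.r n) := by
    have := hU (sq_MCHA hN.1 c4)
    rwa [(UM _).mul_mem_cancel_left ((UM _).inv_mem ((UM _).pow_mem
      (g2 ▸ (UM _).mul_mem h1 hh) i))] at this
  have eM : ML Z.r n = (3 ^ (n + 3) * Z.r : ℕ) := by
    rw [ML_eq]
    push_cast
    rfl
  have e2 : 3 ^ (n + 3) * Z.r ∣ V'.l + 1 := by
    have := ((d11 _ (ML_ne r0 n) fun e => ?_).1.1 e1)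
    · rw [eM, ← Nat.cast_add_one] at this
      have := nn_dvd this
      rwa [nn_nat, nn_nat, Nat.pow_dvd_pow_iff two_ne_zero] at this
    · rw [eM, PLK_ok.2.2.2.1, hl.dvd_mul] at e
      rcases e with e | e
      · have := Nat.le_of_dvd three_pos (hl.dvd_of_dvd_pow e)
        omega
      · have := Nat.le_of_dvd (Nat.pos_of_ne_zero r0) e
        omega
  have lq : V'.l ≠ Z.q n := by omega
  obtain ⟨t1, t2, -⟩ := hZ.pk.tm _ d1
  obtain ⟨t3, -⟩ := hZ.pk.ine _ hl c1.l3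
  obtain ⟨-, k, hk, e3⟩ := (PLK_ok.2.2.1 _ _ d1.1 t1).2.1 V' d2
  have e4 := ((FRK_ok _ _ d1.1 t1).2.2.2 _ t2).2.2.1 k _ rfl
  obtain ⟨-, e5, -⟩ := (PLK_ok.2.2.2.2.1 V' ((Z.K.V (-V'.l)).mv k)).2 e3
  have e6 : FK V' (-V'.l) (k⁻¹ * Z.K.σ (-V'.l) * k) := ⟨e5 ▸ e4.1, e3 ▸ e4.2⟩
  have e7 := c3 V' rfl (((FRK_ok _ _ d1.1 d2).2.2.2 _ e6).1 _ d5)
  have u1 := ((b4 _ hl e2).2.2.2 V' rfl).2 lq d5.1
  have u2 := ((b4 _ hl e2).2.2.2 _ t3).2 lq t2.1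
  refine ⟨V'.l, by omega, ⟨hl, e2, lq⟩, j, k⁻¹, fun ε b Rm f hb p1 hf p2 => ?_⟩
  have s1 := t2.1.2
  have s2 := d5.1.2
  have ki := GK.inv_mem hk
  have q0 := hb ((a6 ε).1.2 _ (Z.U n).one_mem)
  have q1 := hf.pow s2 (hb ((a6 ε).1.2 _ u1)) q0 j
  have q2 := hf.pow s2 (hb ((a6 ε).1.2 _ u1)) q0 0
  have q3 := p2 _ (GK.pow_mem s2 j) _ (g2 ▸ GK.mul_mem h1.1 hh.1) (by
    have := sq_MCHA hN.1 (i := 1) (g := φ ^ j) (φ := Z.c * h) (by rwa [pow_one])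
    rwa [pow_one, ← pow_mul, mul_comm j, pow_mul] at this)
  have q4 := p2 _ e6.1.2 _ s2 e7
  obtain ⟨-, z, -⟩ := zf_iff.1 hf
  have q5 := z _ h1.1 _ hh.1
  have q6 := z _ ki _ (GK.mul_mem s1 hk)
  have q7 := z _ s1 _ hk
  have q8 := z _ ki _ hk
  have q9 := hb ((a6 ε).1.2 _ u2)
  rw [← mul_assoc] at q6
  rw [inv_mul_cancel] at q8
  rw [pow_zero, Nat.cast_zero, zero_mul, sub_zero] at q2
  rw [g2] at q3
  rw [← Ideal.Quotient.eq_zero_iff_mem] at p1 q1 q2 q3 q4 q5 q6 q7 q8 q9 ⊢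
  simp only [map_sub, map_add, map_mul, map_one, map_natCast] at p1 q1 q2 q3 q4 q5 q6 q7 q8 q9 ⊢
  generalize Ideal.Quotient.mk b = π at *
  linear_combination -π (f h) * p1 + q1 - q3 - q5 - j * q4 + j * q6 + j * π (Z.th ε n k⁻¹) * q7 -
    j * q8 + j * q2 + j * π (Z.th ε n k⁻¹) * π (f k) * q9

theorem CHA_pf (hY : HY) (hTRM : TRM_st) (hTHA : THA_st) (hTHB : THB_st) (hGER : GER_st) : CHA_st := by
  intro Λ _ _ Z P A I _ ε f h hZ hA hf hh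
  choose k k1 k2 using hf
  choose N N1 N2 using fun i n => (zf_iff.1 (k2 i n).2).1
  choose M M1 M2 M3 using fun n =>
    inf_MCHA (hTHA Λ Z.toDt n hZ.toOk).2.2.1 (fun i => N i n) fun i => N1 i n
  choose l l1 l2 j g l3 using fun n =>
    lev_MCHA hY hTHA hTHB Z hZ n (∑ ϖ ∈ Tn A n, nn ϖ) (M1 n) (M2 n) (hh n).1
  have hs := sq_ofFun fun n => -(l n : Zw)
  refine ⟨_, (hGER Λ Z hZ).2.2.2.1 l l2, fun e => ?_, fun i =>
    ⟨Z.E.L fun n => j n * Z.th (ε i) n (g n), ?_⟩⟩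
  · obtain ⟨n, e1⟩ := hs.exists
    have := single_le_sum (f := nn) (fun _ _ => Nat.zero_le _)
      (show -(l n : Zw) ∈ Tn A n from mem_image.2 ⟨_, mem_toRight.2 e, e1⟩)
    rw [nn_neg, nn_nat] at this
    have := l1 n
    nlinarith
  · rw [Lm.ev, Lm.ev, Lm.ev, ← Z.E.L_mul, ← Z.E.L_add, ← Z.E.L_sub]
    refine L_mem Z.E (k1 i) ?_
    filter_upwards [hs] with n e
    have hb := Z.E.le_sup P (k2 i n).1
    obtain ⟨a1, -, a3, -, -, a6, -⟩ := hTHA Λ Z.toDt n hZ.toOk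
    have ci : Z.c⁻¹ = Z.c := inv_eq_of_mul_eq_one_right hZ.cj.sq
    have h1 : Z.c * h n * Z.c ∈ UM (ML Z.r n) := by
      simpa only [ci] using a3.1.conj_mem _ (hh n).1 Z.c
    have := l3 n (ε i) _ _ (f i n) hb ?_ (k2 i n).2 fun x hx y hy e => N2 i n x hx y hy (M3 n i e)
    · rwa [← e] at this
    · rcases (hh n).2 with e1 | e1
      · exact sup_le ((Ideal.span_singleton_le_iff_mem _).2 (Ideal.mem_sup_left e1)) hb
          ((a6 (ε i)).2.2.2.1 _ h1).2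
      · refine hb ((a6 (ε i)).1.2 _ ((a1 _).2 ⟨h1, ?_⟩))
        have := hZ.odd n _ hZ.cj.nk _ (hh n).1.1
        rwa [ci, e1, neg_zero] at this

end Pool.Agent.MP_e23604_nt.V

end

section

set_option autoImplicit false

open Finset Filter QuadraticAlgebra
open scoped Classical

namespace Pool.Agent.MP_e23604_nt.V

open B R S W

theorem m1_MCLC {i : JJ} (h : i ∈ m1) : ∃ t, i = .inl t := by
  rw [m1, mem_insert, mem_singleton] at h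
  exact h.elim (fun e => ⟨_, e⟩) fun e => ⟨_, e⟩

theorem ins_MCLC (l : JJ) (m : Finset JJ) :
    @insert _ _ (@Finset.instInsert _ fun a b => Classical.propDecidable (a = b)) l m =
      insert l m := by
  ext
  simp

theorem uni_MCLC (m n : Finset JJ) :
    @Union.union _ (@Finset.instUnion _ fun a b => Classical.propDecidable (a = b)) m n =
      m ∪ n := by
  ext
  simp

theorem CLC_pf (hY : HY) (hGER : GER_st) (hROW : ROW_st) (hVAL : VAL_st) (hCLG : CLG_st) : CLC_st := by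
  have _ := hY
  intro Λ _ _ Z κ d hZ
  obtain ⟨⟨-, -, -, g4, g5, -, -⟩, -, gA, -, -, -, -, -, gI⟩ := hGER Λ Z hZ.toOk0
  obtain ⟨c1, c2, -⟩ := hCLG Λ Z κ d hZ.toOk0
  refine ⟨fun hc => ?_, fun hc R _ ϑ hϑ => ?_⟩
  · replace c1 := c1 hc
    have V1 := fun m (h : Vx Z.m0 Z.L m) => hVAL Λ Z _ _ _ _ _ hZ (gA m (Or.inl h)) (c1.ls m h).lc
      (c1.rv m h)
    have a1 : ∀ m, Vx Z.m0 Z.L m → ∀ l ∈ Z.L,
        ev (Z.w (Z.s m) l) (Z.kv Z.m0 κ m) = Z.E.ev (Z.kq Z.m0 κ m) (Z.sg l) := fun m h l hl => by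
      rw [((hROW Λ Z _ hZ.toOk0).1 l (Or.inl hl)).1]
      exact sub_eq_zero.1 ((V1 m h).1 _ (gI l).2)
    refine ⟨⟨fun m h => ⟨Z.vec_supp _ _, fun i hi => ?_⟩, fun m l h => ?_⟩,
      fun m l h => a1 m h.1 l h.2.1⟩
    · by_cases h0 : i ∈ Z.m0
      · obtain ⟨-, -, -, r4, r5, r6, -⟩ := hROW Λ Z (Z.s m) hZ.toOk0
        by_cases h1 : i ∈ m1
        · obtain ⟨t, rfl⟩ := m1_MCLC h1
          exact (V1 m h).2.2 (c1.ls m h) t
        have e : ev (Z.rel (Z.s m) i) (Z.kv Z.m0 κ m) = 0 :=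
          (V1 m h).2.1 i (mem_insert_of_mem (mem_union_left _ hi)) h1
        rw [g4, mem_union, mem_union] at h0
        rcases h0 with (h0 | h0) | h0
        · exact absurd h0 h1
        · obtain ⟨ϖ, hϖ, rfl⟩ := mem_image.1 h0
          rwa [(r6 ϖ hϖ).1]
        · rw [(r5 i h0).2.1, ev_smul] at e
          refine (mul_eq_zero.1 e).resolve_left fun e' => Z.E.T3 ?_
          have e3 := (r4 i (mem_union_right _ h0)).1
          rw [e', zero_dvd_iff] at e3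
          rw [e3]
          exact dvd_zero _
      · exact (a1 m h i (h.2 i hi h0)).trans (c1.tr m h i (mem_sdiff.2 ⟨hi, h0⟩))
    · obtain ⟨v, hv, e⟩ := c1.fs m l h
      rw [ins_MCLC, sub_eq_zero.1 e, ae, a1 m h.1 l h.2.1]
      exact associated_unit_mul_left _ _ hv
  replace c2 := c2 hc
  have V2 := fun m (h : Vx m1 Z.L' m) => hVAL Λ Z _ _ _ _ _ hZ (gA m (Or.inr h)) (c2.ls m h).lc
    (c2.rv m h)
  have a2 : ∀ m, Vx m1 Z.L' m → ∀ l ∈ Z.L', Z.E.ι pw ∣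
      ev (Z.w (Z.s m) l) (Z.kv m1 d m) - Z.E.ev (Z.kq m1 d m) (Z.sg l) := fun m h l hl => by
    have e := Ideal.mem_span_singleton.1 ((V2 m h).1 _ (gI l).2)
    obtain ⟨r1, -, -, -, r5, -⟩ := hROW Λ Z (Z.s m) hZ.toOk0
    rcases hl with hl | hl
    · rwa [(r1 l (Or.inl hl)).1]
    · rw [(r5 l hl).1, ev_add, ev_smul, add_sub_right_comm]
      exact dvd_add e ((r5 l hl).2.2.mul_right _)
  have a3 : ∀ m, Vx m1 Z.L' m → ∀ l ∈ Z.L', ev (Z.wt ϑ (Z.s m) l) (vt ϑ (Z.kv m1 d m)) =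
      ϑ (Z.E.ev (Z.kq m1 d m) (Z.sg l)) := fun m h l hl =>
    (ev_vt ϑ _ _).trans (sub_eq_zero.1 ((map_sub ϑ _ _).symm.trans ((hϑ.ker _).2 (a2 m h l hl))))
  refine ⟨⟨fun m h => ⟨Finsupp.support_mapRange.trans (Z.vec_supp _ _), fun i hi => ?_⟩,
    fun m l h => ?_⟩, fun m l h => a3 m h.1 l h.2.1⟩
  · by_cases h1 : i ∈ m1
    · obtain ⟨t, rfl⟩ := m1_MCLC h1
      exact (ev_vt ϑ _ _).trans ((hϑ.ker _).2
        (Ideal.mem_span_singleton.1 ((V2 m h).2.2 (c2.ls m h) t)))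
    · exact (a3 m h i (h.2 i hi h1)).trans ((hϑ.ker _).2
        (Ideal.mem_span_singleton.1 (c2.tr m h i (mem_sdiff.2 ⟨hi, h1⟩))))
  · obtain ⟨v, hv, e⟩ := c2.fs m l h
    have e' := (hϑ.ker _).2 (Ideal.mem_span_singleton.1 e)
    rw [map_sub, map_mul, sub_eq_zero] at e'
    rw [ae, a3 m h.1 l h.2.1, vt, Finsupp.mapRange_apply, ins_MCLC, e']
    exact associated_unit_mul_left _ _ (hv.map ϑ)

theorem RED_pf (hY : HY) (hGER : GER_st) (hROW : ROW_st) (hCLG : CLG_st) (hCLC : CLC_st) : RED_st := by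
  have _ := hY
  intro Λ R _ _ _ _ Z ϑ κ d i m l hZ hc hc' hi hϑ he hB
  obtain ⟨⟨-, -, g3, g4, g5, g6, g7⟩, -, -, -, -, -, -, gs, gI⟩ := hGER Λ Z hZ.toOk0
  obtain ⟨-, -, c3, -⟩ := hCLG Λ Z κ d hZ.toOk0
  obtain ⟨k1, k2⟩ := hCLC Λ Z κ d hZ
  obtain ⟨v, hv, e₀⟩ := c3 i hi m he.1 hB
  obtain ⟨z, hz⟩ := e₀ _ (gI l).2
  have s1 : m1 ⊆ Z.m0 := g4 ▸ subset_union_left.trans subset_union_left
  have s2 : Z.Sg ⊆ Z.m0 := g4 ▸ subset_union_right.trans subset_union_left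
  have s3 : Z.Bg ⊆ Z.m0 := g4 ▸ subset_union_right
  have hl : l ∈ Z.L := he.2.1.resolve_right fun e => he.2.2 (hB e)
  have hS : l ∉ Z.Sg := fun e => g3 l (s2 e) hl
  have hd : Disjoint m Z.Sg := disjoint_left.2 fun j hj e =>
    (he.1.2 j hj fun e' => disjoint_left.1 g5 e' (mem_union_left _ e)).elim (g3 j (s2 e))
      fun e' => disjoint_left.1 g6 e e'
  have hE : Ed Z.m0 Z.L (m ∪ Z.Sg) l := by
    refine ⟨⟨?_, fun j hj e => ?_⟩, hl, fun e => (mem_union.1 e).elim he.2.2 hS⟩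
    · rw [g4]
      exact union_subset (union_subset_union he.1.1 subset_rfl) (hB.trans subset_union_left)
    · exact (he.1.2 j ((mem_union.1 hj).resolve_right fun e' => e (s2 e'))
        fun e' => e (s1 e')).resolve_right fun e' => e (s3 e')
  have key : ∀ ε n, Disjoint n Z.Sg →
      ϑ (dt (Z.w ε) (n ∪ Z.Sg)) = ϑ (∏ ϖ ∈ Sz Z.r, Z.eu ϖ) * dt (Z.wt ϑ ε) n := fun ε n hn => by
    obtain ⟨-, -, -, r4, -, r6, -⟩ := hROW Λ Z ε hZ.toOk0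
    rw [← dt_map, ← uni_MCLC, EUL_ok JJ R _ n Z.Sg (fun i => ϑ (Z.nu ε i)) hn fun i hi j => ?_]
    · congr 1
      rw [Mx.Sg, prod_image fun _ _ _ _ e => g7 e, map_prod]
      exact prod_congr rfl fun ϖ hϖ =>
        sub_eq_zero.1 ((map_sub ϑ _ _).symm.trans ((hϑ.ker _).2 (r6 ϖ hϖ).2.1))
    · have e := (hϑ.ker _).2 (r4 i (mem_union_left _ hi)).2
      obtain ⟨ϖ, hϖ, rfl⟩ := mem_image.1 hi
      rw [(r6 ϖ hϖ).1, Mx.rel, Pi.add_apply, Pi.smul_apply, Pi.smul_apply, smul_eq_mul,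
        smul_eq_mul, map_add, map_mul, e, zero_mul, zero_add, Pi.single_apply]
      split_ifs <;> simp
  refine ⟨hE, ϑ (∏ ϖ ∈ Sz Z.r, Z.eu ϖ), v * (∏ ϖ ∈ Sz Z.r, Z.eu ϖ) *
    Z.E.ev (Z.kq m1 d m) (Z.sg l) + Z.E.ι pw * z, fun e => ?_, ?_, ?_, ?_⟩
  · obtain ⟨ϖ, hϖ, e'⟩ := Z.E.ppi.exists_mem_finset_dvd ((hϑ.ker _).1 e)
    exact ((hROW Λ Z true hZ.toOk0).2.2.2.2.2.1 ϖ hϖ).2.2 e'
  · rw [(k1 hc).2 _ l hE]
    linear_combination hz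
  · rw [(k2 hc' R ϑ hϑ).2 m l he, map_add, (hϑ.ker _).2 (dvd_mul_right _ z), add_zero, map_mul,
      map_mul, mul_assoc]
    exact associated_unit_mul_left _ _ (hv.map ϑ)
  · rw [De, De, gs, map_mul, ins_MCLC, ins_MCLC, ← insert_union, key _ _ hd,
      key _ _ (disjoint_insert_left.2 ⟨hS, hd⟩)]
    ring

end Pool.Agent.MP_e23604_nt.V

end
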