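import Pool.Agent.Mg.Fe23604m.G256ad4
import Pool.Agent.Mg.Fe23604m.Gee5919

set_option linter.all false

section

set_option autoImplicit false

open Finset Filter QuadraticAlgebra
open scoped Classical

namespace Pool.Agent.MP_e23604_nt.PH

open B R S W V

theorem PCL_pf (hV : HV) : PCL_st := by
  intro Λ R _ _ _ _ Z ϑ e E hZ hϑ c2
  obtain ⟨-, -, gA, -, -, -, -, -, gI⟩ := hV.GER Λ Z hZ.toOk0
  have hk : ∀ {x}, x ∈ pI Z → ϑ x = 0 := fun h => (hϑ.ker _).2 (Ideal.mem_span_singleton.1 h)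
  have h3 : (3 : R) = 0 := by
    have := (hϑ.ker _).2 (map_dvd Z.E.ι pw_dvd3)
    rwa [map_ofNat, map_ofNat] at this
  have c0 : (cv 0 : R) = 0 := Nat.cast_zero
  have c1 : (cv 1 : R) = 1 := Nat.cast_one
  have c2' : (cv 2 : R) = 2 := Nat.cast_ofNat
  have V2 := fun j m (h : Vx m1 Z.L' m) => hV.VAL Λ Z _ _ _ _ _ hZ (gA m (Or.inr h)) (c2.lc j m h)
    (c2.rv j m h)
  have a3 : ∀ j m, Vx m1 Z.L' m → ∀ l ∈ Z.L', ev (Z.wt ϑ (Z.s m) l) (kE Z ϑ E j m) =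
      ϑ (Z.E.ev (Z.kq m1 (E j) m) (Z.sg l)) := fun j m h l hl => by
    refine (ev_vt ϑ _ _).trans (sub_eq_zero.1 ((map_sub ϑ _ _).symm.trans ((hϑ.ker _).2 ?_)))
    have e := Ideal.mem_span_singleton.1 ((V2 j m h).1 _ (gI l).2)
    obtain ⟨r1, -, -, -, r5, -⟩ := hV.ROW Λ Z (Z.s m) hZ.toOk0
    rcases hl with hl | hl
    · rwa [(r1 l (Or.inl hl)).1]
    · rw [(r5 l hl).1, ev_add, ev_smul, add_sub_right_comm]
      exact dvd_add e ((r5 l hl).2.2.mul_right _)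
  have a4 : ∀ j m, Vx m1 Z.L' m → kE Z ϑ E j m = kE Z ϑ E 0 m + (cv j : R) • kD Z ϑ E m := by
    intro j m h
    have : j = 0 ∨ j = 1 ∨ j = 2 := by revert j; decide
    rcases this with rfl | rfl | rfl
    · rw [c0, zero_smul, add_zero]
    · rw [c1, one_smul, kD, add_sub_cancel]
    · ext i
      have e := hk (c2.lin m h i)
      simp only [map_add, c2', kD, kE, vt, Finsupp.add_apply, Finsupp.smul_apply,
        Finsupp.sub_apply, Finsupp.mapRange_apply, smul_eq_mul] at e ⊢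
      linear_combination e - ϑ (Z.kv m1 (E 1) m i) * h3
  have sp : ∀ j m, (kE Z ϑ E j m).support ⊆ m := fun j m =>
    (Finsupp.support_mapRange (hf := map_zero ϑ)).trans (Z.vec_supp _ _)
  have a5 : ∀ j m, Vx m1 Z.L' m → ∀ i ∈ m, i ∉ m1 →
      ev (Z.wt ϑ (Z.s m) i) (kE Z ϑ E j m) = 0 := fun j m h i hi h1 =>
    (a3 j m h i (h.2 i hi h1)).trans (hk (c2.tr j m h i (mem_sdiff.2 ⟨hi, h1⟩)))
  refine ⟨⟨fun m h he => ?_, fun m h he => ?_, fun m l h => ?_⟩,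
    fun j m l h => a3 j m h.1 l h.2.1, a4⟩
  · have k : ∀ j, Kr (Z.wt ϑ e) _ m (kE Z ϑ E j m) := fun j =>
      ⟨sp j m, fun i (hi : i ∈ @SDiff.sdiff _ (@Finset.instSDiff _
        fun a b => Classical.propDecidable (a = b)) m (@insert _ _ (@Finset.instInsert _
        fun a b => Classical.propDecidable (a = b)) (.inl true) {.inl false})) =>
        he ▸ a5 j m h i (by simp at hi; exact hi.1) (by simp [m1] at hi ⊢; exact hi.2)⟩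
    have f : ∀ j a, ev (Ft Z ϑ e a) (kE Z ϑ E j m) = ϑ (ev (Fc Z e a) (Z.kv m1 (E j) m)) :=
      fun j a => ev_vt ϑ _ _
    have g : ∀ j, ev (Ft Z ϑ e 1) (kE Z ϑ E j m) = cv j * ev (Ft Z ϑ e 0) (kE Z ϑ E j m) ∧
        ev (Ft Z ϑ e 3) (kE Z ϑ E j m) = cv j * ev (Ft Z ϑ e 2) (kE Z ϑ E j m) := fun j => by
      have e1 := hk (c2.l9 j m h he).1
      have e2 := hk (c2.l9 j m h he).2
      simp only [map_sub, map_mul, cv, map_natCast, sub_eq_zero] at e1 e2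
      simp only [f, cv, e1, e2, and_self]
    obtain ⟨p0, q0⟩ := g 0
    obtain ⟨p1, q1⟩ := g 1
    obtain ⟨p2, q2⟩ := g 2
    rw [a4 1 m h] at p1 q1
    rw [a4 2 m h] at p2 q2
    simp only [c0, c1, c2', map_add, map_smul, smul_eq_mul, zero_mul, one_mul] at p0 q0 p1 q1 p2 q2
    have p : ev (Ft Z ϑ e 0) (kD Z ϑ E m) = 0 := by
      linear_combination p2 - 2 * p1 + p0 + ev (Ft Z ϑ e 0) (kD Z ϑ E m) * h3
    have q : ev (Ft Z ϑ e 2) (kD Z ϑ E m) = 0 := by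
      linear_combination q2 - 2 * q1 + q0 + ev (Ft Z ϑ e 2) (kD Z ϑ E m) * h3
    exact ⟨k 0, (k 1).sub (k 0), p, q, p0, q0, by linear_combination p1 - p0 + p,
      by linear_combination q1 - q0 + q⟩
  · have k : ∀ j, Kr (Z.wt ϑ (!e)) m m (kE Z ϑ E j m) := fun j => ⟨sp j m, fun i hi => by
      by_cases h1 : i ∈ m1
      · obtain ⟨t, rfl⟩ := m1_MCLC h1
        exact (ev_vt ϑ _ _).trans (hk (he ▸ (V2 j m h).2.2 (he ▸ c2.l3 j m h he) t))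
      · exact he ▸ a5 j m h i hi h1⟩
    exact ⟨k 0, (k 1).sub (k 0)⟩
  · obtain ⟨v, hv, e'⟩ := c2.fs m l h
    have k : ∀ j, kE Z ϑ E j (insert l m) l = ϑ v * ae (Z.wt ϑ) Z.s (kE Z ϑ E j) m l := fun j => by
      have := hk (e' j)
      rw [map_sub, map_mul, sub_eq_zero] at this
      rw [ae, a3 j m h.1 l h.2.1, ← this, kE, vt, Finsupp.mapRange_apply]
    refine ⟨ϑ v, hv.map ϑ, ?_, ?_⟩
    · rw [ins_MCLC, k]
    · rw [ins_MCLC, kD, Finsupp.sub_apply, k, k, ae, ae, ae, kD, map_sub, mul_sub]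

theorem RDP_pf (hV : HV) : RDP_st := by
  intro Λ R _ _ _ _ Z ϑ m l hZ hϑ he hB
  obtain ⟨⟨-, -, g3, g4, g5, g6, g7⟩, -, -, -, -, -, -, gs, -⟩ := hV.GER Λ Z hZ.toOk0
  have s1 : m1 ⊆ Z.m0 := g4 ▸ subset_union_left.trans subset_union_left
  have s2 : Z.Sg ⊆ Z.m0 := g4 ▸ subset_union_right.trans subset_union_left
  have s3 : Z.Bg ⊆ Z.m0 := g4 ▸ subset_union_right
  have hl : l ∈ Z.L := he.2.1.resolve_right fun e => he.2.2 (hB e)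
  have hS : l ∉ Z.Sg := fun e => g3 l (s2 e) hl
  have hd : Disjoint m Z.Sg := disjoint_left.2 fun j hj e =>
    (he.1.2 j hj fun e' => disjoint_left.1 g5 e' (mem_union_left _ e)).elim (g3 j (s2 e))
      fun e' => disjoint_left.1 g6 e e'
  have key : ∀ ε n, Disjoint n Z.Sg →
      ϑ (dt (Z.w ε) (n ∪ Z.Sg)) = ϑ (∏ ϖ ∈ Sz Z.r, Z.eu ϖ) * dt (Z.wt ϑ ε) n := fun ε n hn => by
    obtain ⟨-, -, -, r4, -, r6, -⟩ := hV.ROW Λ Z ε hZ.toOk0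
    rw [← dt_map, ← uni_MCLC, EUL_ok JJ R _ n Z.Sg (fun i => ϑ (Z.nu ε i)) hn fun i hi j => ?_]
    · congr 1
      rw [Mx.Sg, prod_image fun _ _ _ _ e => g7 e, map_prod]
      exact prod_congr rfl fun ϖ hϖ =>
        sub_eq_zero.1 ((map_sub ϑ _ _).symm.trans ((hϑ.ker _).2 (r6 ϖ hϖ).2.1))
    · have e := (hϑ.ker _).2 (r4 i (mem_union_left _ hi)).2
      obtain ⟨ϖ, hϖ, rfl⟩ := mem_image.1 hi
      rw [(r6 ϖ hϖ).1, Mx.rel, Pi.add_apply, Pi.smul_apply, Pi.smul_apply, smul_eq_mul,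
        smul_eq_mul, map_add, map_mul, e, zero_mul, zero_add, Pi.single_apply]
      split_ifs <;> simp
  refine ⟨⟨⟨?_, fun j hj e => ?_⟩, hl, fun e => (mem_union.1 e).elim he.2.2 hS⟩, fun e => ?_, ?_⟩
  · rw [g4]
    exact union_subset (union_subset_union he.1.1 subset_rfl) (hB.trans subset_union_left)
  · exact (he.1.2 j ((mem_union.1 hj).resolve_right fun e' => e (s2 e'))
      fun e' => e (s1 e')).resolve_right fun e' => e (s3 e')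
  · obtain ⟨ϖ, hϖ, e'⟩ := Z.E.ppi.exists_mem_finset_dvd ((hϑ.ker _).1 e)
    exact ((hV.ROW Λ Z true hZ.toOk0).2.2.2.2.2.1 ϖ hϖ).2.2 e'
  · rw [De, De, gs, map_mul, ins_MCLC, ins_MCLC, ← insert_union, key _ _ hd,
      key _ _ (disjoint_insert_left.2 ⟨hS, hd⟩)]
    ring

end Pool.Agent.MP_e23604_nt.PH

end

section

/-!
From the pencil to an edge at which the reduction of the class has no pole.
-/

set_option autoImplicit false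

open Finset Filter QuadraticAlgebra
open scoped Classical

namespace Pool.Agent.MP_e23604_nt.PH

open B R S W V

theorem st_PnRes {R : Type} [CommRing R] [IsDomain R] {x y X Y c t : R} (hc : c ≠ 0) (hY : Y ≠ 0)
    (h : Associated (x ^ 2 * Y) (y ^ 2 * X)) (h' : Associated (y ^ 2 * t) (c ^ 2 * Y)) :
    Associated (x ^ 2 * t) (c ^ 2 * X) := by
  have hy : y ≠ 0 := fun e => mul_ne_zero (pow_ne_zero 2 hc) hY (by simpa [e] using h'.symm)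
  refine Associated.of_mul_left (a := y ^ 2) ?_ (Associated.refl _) (pow_ne_zero 2 hy)
  rw [mul_left_comm, mul_left_comm (y ^ 2) (c ^ 2)]
  refine (h'.mul_left _).trans ?_
  rw [mul_left_comm]
  exact h.mul_left _

open PowerSeries in
theorem RESP_pf (hV : HV) (hN : PNS_st) (h1 : CQP_st) (h2 : CQR_st) (h4 : PCL_st) (h5 : RWS_st)
    (h6 : BAP_st) (h7 : RDP_st) : RESP_st := by
  intro O k _ _ _ Z ϖ red e j₀ j₁ r κ E d hZ hx hk hP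
  have hr := (hV.BAS O k Z ϖ red κ ∅ hZ hx).1
  have k2 : (2 : k⟦X⟧) ≠ 0 := by
    simpa [map_ofNat] using (Z.E.two.map (PowerSeries.map red)).ne_zero
  obtain ⟨l₀, e₀, a₀, t, ht⟩ := h6 O k Z ϖ red e j₀ j₁ r κ E d hZ hx hP
  obtain ⟨⟨i, q1⟩, -⟩ := h2 _ Z e j₀ j₁ r κ E d hZ hP
  obtain ⟨p1, p2, p3⟩ := h4 _ _ Z _ e E hZ hr (h1 _ Z e j₀ j₁ r κ E d hZ hP)
  obtain ⟨u, hu, w1⟩ := h5 _ _ Z _ e j₀ hZ hr hP.c9
  have hd := fun m l => h7 _ _ Z _ m l hZ hr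
  have pn := hN _ _ Z _ e hZ hr
  set ϑ := PowerSeries.map red with hϑ
  set c := ϑ (∏ ϖ ∈ Sz Z.r, Z.eu ϖ) with hc
  have pe := PEN_ok _ _ _ _ _ _ _ _ _ _ _ pn
  have s0 : Sy (wp Z ϑ e 1 0) m1 Z.L' (Z.ut ϑ) Z.s := (pe 1 0).1 (.inl one_ne_zero)
  have s1 : Sy (wp Z ϑ e (cv j₀) 1) m1 Z.L' (Z.ut ϑ) Z.s := (pe _ 1).1 (.inr one_ne_zero)
  obtain ⟨c0, b0⟩ := (pe 1 0).2 _ _ p1
  obtain ⟨c1, b1⟩ := (pe (cv j₀) 1).2 _ _ p1
  simp only [zero_mul, one_mul, zero_add] at b0 b1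
  have D₀ := (GOOD_ok _ _ _ _ _ _ _ _ s0 c0).2 _ _ e₀ ((b0 _ _ e₀).trans_ne a₀)
  obtain ⟨m', l', e₁, D₁, D₂, r₀⟩ := JT_ok _ _ _ _ _ _ _ _ _ _ _ _ _ (cv j₀) k2 pn p1 _ _ e₀ D₀
  have r₁ := CONN_ok _ _ _ _ _ _ _ _ k2 s0 c0 _ _ _ _ e₁ D₁ e₀ D₀
  erw [b0 _ _ e₁, b0 _ _ e₀] at r₁
  obtain ⟨m, l, e₂, D₃, b₁, -⟩ := REACH_ok _ _ _ _ _ _ _ k2 s1 _ _ Z.Bg e₁ D₂
    Set.subset_union_right
  have r₂ := CONN_ok _ _ _ _ _ _ _ _ k2 s1 c1 _ _ _ _ e₂ D₃ e₁ D₂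
  erw [b1 _ _ e₂, b1 _ _ e₁] at r₂
  obtain ⟨e₃, n0, r₃⟩ := hd m l e₂ b₁
  obtain ⟨v, hv, q2⟩ := q1 m e₂.1 b₁
  have r₄ : De (Z.wt ϑ) Z.s m l = u * De (wp Z ϑ e (cv j₀) 1) Z.s m l := by
    have o : wp Z ϑ e (cv j₀) 1 (!e) = Z.wt ϑ (!e) := if_neg (by simp)
    rw [De, De]
    rcases Bool.eq_or_eq_not (Z.s m) e with h | h
    · rw [h, o, w1 _ (fun j hj => by simp [e₂.1.1 hj]), mul_assoc]
    · rw [h, Bool.not_not, o, w1 _ e₂.1.1, mul_left_comm]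
  obtain ⟨z, hz⟩ := q2 _ ((hV.GER _ Z hZ.toOk0).2.2.2.2.2.2.2.2 l).2
  have r₅ : ϑ (v * Z.E.ev (Z.kq m1 (E j₀) m) (Z.sg l) + Z.E.ι pw * z) = ϑ v *
      (ae (Z.wt ϑ) Z.s (kE Z ϑ E 0) m l + cv j₀ * ae (Z.wt ϑ) Z.s (kD Z ϑ E) m l) := by
    rw [ae, ae, ← smul_eq_mul (cv j₀), ← map_smul, ← map_add, ← p3 j₀ m e₂.1, ← ae,
      p2 j₀ m l e₂, map_add, map_mul, map_mul, (hr.ker _).2 dvd_rfl, zero_mul, add_zero]
  have r₆ := st_PnRes n0 D₂ r₂ (st_PnRes n0 D₁ r₀ (st_PnRes n0 D₀ r₁ (Associated.of_eq ht.symm)))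
  have n1 := mul_ne_zero (pow_ne_zero 2 n0) D₃
  refine ⟨_, _, v * Z.E.ev (Z.kq m1 (E j₀) m) (Z.sg l) + Z.E.ι pw * z, i, e₃, ?_, ?_, ?_, ?_⟩
  · rw [((hV.CLC _ Z κ κ hZ).1 hk).2 _ _ e₃]
    linear_combination hz
  · rw [r₅]
    exact mul_ne_zero (hv.map ϑ).ne_zero fun e => n1 (by simpa [e] using r₆.symm)
  · rw [r₃, r₄, mul_left_comm]
    exact mul_ne_zero hu.ne_zero n1
  · rw [r₅, r₃, r₄, mul_pow, ((hv.map ϑ).pow 2).mul_left_dvd, mul_left_comm]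
    exact ((dvd_mul_right _ _).trans r₆.dvd).mul_left _

end Pool.Agent.MP_e23604_nt.PH

end
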