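import Pool.Agent.Mg.Fe23604m.G91bd51
import Pool.Agent.Mg.Fe23604m.G2f44ca

set_option linter.all false

section

/-!
The final densities, from the existence of systems of points.
-/

set_option autoImplicit false

open Finset Filter Topology
open scoped Classical

namespace Pool.Agent.MP_e23604_nt.X

open B R S W

theorem fg_Final {D : ℕ} (h : Nice D) : AddGroup.FG (EC D).toAffine.Point := by
  obtain ⟨J, n, a, ψ, hP, hE, -⟩ :=
    inst_two JEX_ok S.GA_ok WP_ok FER_ok ISM_ok TABM_ok TABZ_ok h.ne h.gen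
  have hc : (-432 * (D : ℤ) ^ 2) ≠ 0 :=
    mul_ne_zero (by norm_num) (pow_ne_zero _ (Nat.cast_ne_zero.2 h.ne))
  rw [← EK_eq_EC]
  exact FG_ok _ J _ n _ true hP _ ψ hc hE

theorem all_Final (hF : Y.FINY_st) {D : ℕ} (h : Nice D) (hH : par3 D = 1 → Heeg D) :
    AddGroup.FG (EC D).toAffine.Point ∧ Module.finrank ℤ (EC D).toAffine.Point = par3 D ∧
      Finite (Sha (EC D)) := by
  refine ⟨fg_Final h, ?_⟩
  rw [← EK_eq_EC]
  by_cases hp : par3 D = 0
  · obtain ⟨h1, h2⟩ := h.fin hp
    refine ⟨hp ▸ Module.IsTorsion.finrank_eq_zero fun x => ?_, h2⟩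
    refine ⟨⟨(Nat.card (EK (-432 * D ^ 2)).toAffine.Point : ℕ), mem_nonZeroDivisors_of_ne_zero
      (Nat.cast_ne_zero.2 Nat.card_pos.ne')⟩, ?_⟩
    rw [Submonoid.mk_smul, natCast_zsmul, card_nsmul_eq_zero']
  · have h1 : par3 D = 1 := by have := par_le_H D; omega
    obtain ⟨χ', B, y₀, y₁, y₂, a1, a2, a3⟩ := hH h1
    rw [h1]
    exact hF D (ch D) χ' (rad3 D) B y₀ y₁ y₂ h.ne h.gen h.cork (fun _ _ => rfl) h.tw a1 a2 a3

end Pool.Agent.MP_e23604_nt.X

end

section

/-!
Almost all numbers have a simple prime factor that is two modulo nine.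
-/

set_option autoImplicit false

open Finset Filter Topology ArithmeticFunction vonMangoldt
open scoped Classical

namespace Pool.Agent.MP_e23604_nt.M

open B R S W

theorem div_Den {q : ℕ} [NeZero q] {a : ZMod q} (ha : IsUnit a) :
    ¬ Summable fun l : ℕ => if l.Prime ∧ (l : ZMod q) = a then (1 / l : ℝ) else 0 := fun H => by
  obtain ⟨C, hC⟩ := LSeries_residueClass_lower_bound ha
  have ev : ∀ᶠ x : ℝ in 𝓝[>] 1, x ∈ Set.Ioc 1 2 := Ioc_mem_nhdsGT one_lt_two
  have t1 : Tendsto (fun x : ℝ => x - 1) (𝓝[>] 1) (𝓝 0) :=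
    tendsto_nhdsWithin_of_tendsto_nhds (by
      simpa using (tendsto_id (x := 𝓝 (1 : ℝ))).sub_const 1)
  have h1 := tendsto_tsum_of_dominated_convergence (𝓕 := 𝓝[>] (1 : ℝ))
    (f := fun x n => (x - 1) * (residueClass a n / (n : ℝ) ^ x)) (g := fun _ => 0)
    (H.add (summable_residueClass_non_primes_div a)) (fun n => by
      rcases n.eq_zero_or_pos with rfl | hn
      · simp
      · have : Tendsto (fun x : ℝ => residueClass a n / (n : ℝ) ^ x) (𝓝[>] 1) (𝓝 _) :=
          tendsto_nhdsWithin_of_tendsto_nhds ((continuous_const.div (Real.continuous_const_rpow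
            (by positivity)) fun x => by positivity).tendsto 1)
        simpa using t1.mul this) (by
      filter_upwards [ev] with x hx n
      have r0 := residueClass_nonneg a n
      have x0 := sub_pos.2 hx.1
      rw [Real.norm_of_nonneg (by positivity)]
      rcases n.eq_zero_or_pos with rfl | hn
      · simp
      have n1 : (1 : ℝ) ≤ n := by exact_mod_cast hn
      by_cases hp : n.Prime
      · rw [if_pos hp, zero_div, add_zero]
        by_cases e : (n : ZMod q) = a
        · rw [if_pos ⟨hp, e⟩, residueClass, Set.indicator_of_mem (by exact e), vonMangoldt_apply_prime hp,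
            ← mul_div_assoc, div_le_div_iff₀ (by positivity) (by positivity), one_mul,
            show (n : ℝ) ^ x = n ^ (x - 1) * n by rw [Real.rpow_sub_one (by positivity)]; field_simp,
            ← Real.log_rpow (by positivity)]
          gcongr
          exact (Real.log_le_sub_one_of_pos (by positivity)).trans (by linarith)
        · rw [if_neg fun h => e h.2, residueClass, Set.indicator_of_notMem (by exact e)]
          simp
      · rw [if_neg hp, if_neg fun h => hp h.1, zero_add]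
        refine (mul_le_of_le_one_left (by positivity) (by linarith [hx.2])).trans ?_
        gcongr
        simpa using Real.rpow_le_rpow_of_exponent_le n1 hx.1.le)
  have h2 : Tendsto (fun x : ℝ => (q.totient : ℝ)⁻¹ - C * (x - 1)) (𝓝[>] 1)
      (𝓝 ((q.totient : ℝ)⁻¹ - C * 0)) := (t1.const_mul C).const_sub _
  have := le_of_tendsto_of_tendsto h2 h1 (by
    filter_upwards [ev] with x hx
    have x0 := sub_pos.2 hx.1
    rw [tsum_mul_left]
    refine le_trans (le_of_eq ?_) (mul_le_mul_of_nonneg_left (hC hx) x0.le)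
    field_simp)
  rw [tsum_zero, mul_zero, sub_zero] at this
  exact this.not_gt (inv_pos.2 (by exact_mod_cast q.totient.pos_of_neZero))

/-- `D` has a simple prime factor that is two modulo nine -/
def Two (D : ℕ) : Prop := ∃ l : ℕ, l.Prime ∧ l % 9 = 2 ∧ D.factorization l = 1

theorem nice_two {P : ℕ → Prop}
    (h : ∀ D, (∀ j, W.Nice (3 ^ j * D) ∧ W.Nice (3 ^ j * D ^ 2)) → Two D → P D) :
    Tendsto (fun X : ℕ => ({D : ℕ | 1 ≤ D ∧ D ≤ X ∧ ¬ P D}.ncard : ℝ) / X) atTop (𝓝 0) := by
  have h3 := (nice_of fun D hD => h D hD).add (SIEVE_ok (fun l => l.Prime ∧ (l : ZMod 9) = 2)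
    (by convert div_Den (q := 9) (a := 2) (by decide)) fun _ h => h.1)
  rw [add_zero] at h3
  refine squeeze_zero (fun X => by positivity) (fun X => ?_) h3
  rw [← add_div, ← Nat.cast_add]
  refine div_le_div_of_nonneg_right (Nat.cast_le.2 (le_trans (Set.ncard_le_ncard ?_ ?_)
    (Set.ncard_union_le _ _))) (Nat.cast_nonneg _)
  · rintro D ⟨d1, d2, d3⟩
    by_cases e : Two D
    · exact Or.inl ⟨d1, d2, fun a => d3 (a e)⟩
    · exact Or.inr ⟨d1, d2, fun ⟨l, a, b⟩ => e ⟨l, a.1, (ZMod.natCast_eq_natCast_iff' l 2 9).1 a.2, b⟩⟩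
  · exact (Set.finite_Iic X).subset (by rintro D (h | h) <;> exact h.2.1)

theorem final_two (hF : Y.FINY_st)
    (hH : ∀ D, (∀ j, W.Nice (3 ^ j * D) ∧ W.Nice (3 ^ j * D ^ 2)) → Two D → par3 D = 1 → X.Heeg D)
    (r : ℕ) (hr : r ≤ 1) :
    Tendsto (fun X : ℕ => ({D : ℕ | 1 ≤ D ∧ D ≤ X ∧ par3 D = r ∧
      AddGroup.FG (EC D).toAffine.Point ∧ Module.finrank ℤ (EC D).toAffine.Point = r ∧
        Finite (Sha (EC D))}.ncard : ℝ) / X) atTop (𝓝 (1 / 2)) :=
  fifty_aux (fun D r => AddGroup.FG (EC D).toAffine.Point ∧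
    Module.finrank ℤ (EC D).toAffine.Point = r ∧ Finite (Sha (EC D)))
    (nice_two fun D hD h2 => X.all_Final hF (by simpa using (hD 0).1) (hH D hD h2)) hr

end Pool.Agent.MP_e23604_nt.M

end
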