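import Mathlib
import Pool.Agent.Mg.Fe23604m.G06f121

set_option linter.all false

section

namespace Pool.Agent.MP_e23604_nt.T

open Finset Filter NumberField
open MP_f68ac8_nt (cyc IsFrob)
open MP_f68ac8_nt.Zv (Ex Prob piV Unf Bx)
open MP_f68ac8_nt.Zk (NS brL lk msk Av)
open MP_f68ac8_nt.Nd (Lr Fr Gz Exm fP kap np OKp)
open Q (Wn Pre rot0)
open scoped BigOperators Topology

end Pool.Agent.MP_e23604_nt.T

end

section

namespace Pool.Agent.MP_e23604_nt.T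

open Finset Filter NumberField
open MP_f68ac8_nt (cyc IsFrob)
open MP_f68ac8_nt.Zv (Ex Prob piV Unf Bx)
open MP_f68ac8_nt.Zk (NS brL lk msk Av)
open MP_f68ac8_nt.Nd (Lr Fr Gz Exm fP kap np OKp)
open Q (Wn Pre rot0)
open scoped BigOperators Topology

theorem lev_XResT {A V : Type} [AddCommGroup A] [AddCommGroup V] {J : A ≃ₗ[ℤ] A}
    {JV : V ≃ₗ[ℤ] V} {ι : V →ₗ[ℤ] A} (hi : Function.Injective ι)
    (hc : ∀ y, ι (JV y) = J (ι y)) (k : ℕ) (y : V) : ι y ∈ Wn J k ↔ y ∈ Wn JV k := by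
  have h : ∀ (k : ℕ) (y : V), (Q.om J ^ k) (ι y) = ι ((Q.om JV ^ k) y) := by
    intro k
    induction k with
    | zero => intro y; rfl
    | succ k ih =>
      intro y
      rw [pow_succ, pow_succ, Module.End.mul_apply, Module.End.mul_apply, ← ih]
      congr 1
      simp [Q.om, hc]
  rw [Wn, Wn, LinearMap.mem_ker, LinearMap.mem_ker, h, map_eq_zero_iff ι hi]

theorem x_ResT (hBasT : BasT) (hLevS : LevS) : ResT := by
  intro A _ J T hI N hN
  obtain ⟨mono, -, -, hP, -, hdig, -, -, -, -, hT, -⟩ := hBasT A J T hI.toCm0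
  obtain ⟨hex, hcard⟩ := (hLevS A J T hI.toCm0).2.1 hI
  have hm : ∀ u ∈ Wn J N, (J : A →ₗ[ℤ] A) u ∈ Wn J N := fun u hu => (hP N u).2 hu
  let f : Wn J N →ₗ[ℤ] Wn J N := (J : A →ₗ[ℤ] A).restrict hm
  have hf : ∀ y, f (f y) + f y + y = 0 := fun y => Subtype.ext (hI.sq y)
  have hf3 : ∀ y, f (f (f y)) = y := fun y => by
    have h1 := hf y
    have h2 := hf (f y)
    linear_combination (norm := abel) h2 - h1
  let JV : Wn J N ≃ₗ[ℤ] Wn J N := LinearEquiv.ofLinear f (f ∘ₗ f)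
    (LinearMap.ext hf3) (LinearMap.ext hf3)
  have : Finite (Wn J N) := Nat.finite_of_card_ne_zero (by rw [hcard]; positivity)
  have hi : Function.Injective (Wn J N).subtype := Subtype.val_injective
  have hc : ∀ y, (Wn J N).subtype (JV y) = J ((Wn J N).subtype y) := fun _ => rfl
  have hl := lev_XResT hi hc
  refine ⟨Wn J N, inferInstance, Fintype.ofFinite _, JV, ⟨T, mono 1 N hN hT⟩, (Wn J N).subtype,
    ⟨⟨hf, fun e => hI.ne (congrArg Subtype.val e), Subtype.ext hI.fix, fun u hu =>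
      (hI.one _ ((hl 1 u).2 hu)).imp Subtype.ext (Or.imp Subtype.ext Subtype.ext)⟩,
      fun u => (hl N u).1 u.2, ?_⟩, hi, fun u hu => ⟨⟨u, hu⟩, rfl⟩, hc, hl, rfl⟩
  obtain ⟨u, hu, hu'⟩ := hex (N - 1)
  have h0 : u ∉ Wn J (N - 1) := fun e => by
    rw [(hdig _ u hu).2 e] at hu'
    exact zero_ne_one hu'
  rw [Nat.sub_add_cancel hN] at hu
  exact ⟨⟨u, hu⟩, fun e => h0 ((hl _ _).2 e)⟩

end Pool.Agent.MP_e23604_nt.T

end
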