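import Pool.Agent.Mg.Fe23604m.G651d65
import Pool.Agent.Mg.Fe23604m.Ge5ee40

set_option linter.all false

section

/-!
The Redei matrix of a squarefree number.
-/

open Finset
open scoped Classical

noncomputable section

namespace Pool.Agent.MP_e23604_nt.P

theorem xCRed_add {a b c : ℤ} (ha : a = 1 ∨ a = -1) (hb : b = 1 ∨ b = -1) (h : c = a * b) :
    (if c = -1 then 1 else 0 : ZMod 2) = (if a = -1 then 1 else 0) + if b = -1 then 1 else 0 := by
  subst h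
  rcases ha with rfl | rfl <;> rcases hb with rfl | rfl <;> decide

theorem sy_mul {u v : ℤ} {n : ℕ} (hu : Int.gcd u n = 1) (hv : Int.gcd v n = 1) :
    sy (u * v) n = sy u n + sy v n :=
  xCRed_add (jacobiSym.eq_one_or_neg_one hu) (jacobiSym.eq_one_or_neg_one hv)
    (jacobiSym.mul_left u v n)

theorem sy_mul_right {u : ℤ} {m n : ℕ} (hm : m ≠ 0) (hn : n ≠ 0) (hu : Int.gcd u m = 1)
    (hv : Int.gcd u n = 1) : sy u (m * n) = sy u m + sy u n :=
  xCRed_add (jacobiSym.eq_one_or_neg_one hu) (jacobiSym.eq_one_or_neg_one hv)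
    (jacobiSym.mul_right' u hm hn)

theorem sy_neg_one {n : ℕ} (hn : n % 2 = 1) : sy (-1) n = ep n := by
  rw [sy, ep, jacobiSym.at_neg_one (Nat.odd_iff.2 hn)]
  rcases Nat.odd_mod_four_iff.1 hn with h | h
  · rw [ZMod.χ₄_nat_one_mod_four h, h]
    decide
  · rw [ZMod.χ₄_nat_three_mod_four h, h]
    decide

theorem sy_swap {m n : ℕ} (hm : m % 2 = 1) (hn : n % 2 = 1) (h : Nat.Coprime m n) :
    sy (m : ℤ) n = sy (n : ℤ) m + ep m * ep n := by
  rcases Nat.odd_mod_four_iff.1 hm with h1 | h1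
  · rw [sy, sy, jacobiSym.quadratic_reciprocity_one_mod_four h1 (Nat.odd_iff.2 hn), ep,
      if_neg (c := m % 4 = 3) (by omega), zero_mul, add_zero]
  rcases Nat.odd_mod_four_iff.1 hn with h2 | h2
  · rw [sy, sy, jacobiSym.quadratic_reciprocity_one_mod_four' (Nat.odd_iff.2 hm) h2, ep, ep,
      if_neg (c := n % 4 = 3) (by omega), mul_zero, add_zero]
  rw [sy, sy, jacobiSym.quadratic_reciprocity_three_mod_four h1 h2, ep, ep, if_pos h1, if_pos h2]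
  rcases jacobiSym.eq_one_or_neg_one (a := n) (b := m) (by simpa using h.symm) with e | e <;>
    rw [e] <;> decide

theorem sy_sq {u c : ℤ} {n : ℕ} (hc : Int.gcd c n = 1) : sy (c ^ 2 * u) n = sy u n := by
  rw [sy, sy, jacobiSym.mul_left, jacobiSym.sq_one' hc, one_mul]

theorem sy_congr {u v : ℤ} {n : ℕ} (h : (n : ℤ) ∣ u - v) : sy u n = sy v n := by
  rw [sy, sy, jacobiSym.mod_left' (Int.emod_eq_emod_iff_emod_sub_eq_zero.2 (Int.emod_eq_zero_of_dvd h))]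

theorem xCRed_ml {u v n : ℕ} (hu : Nat.Coprime u n) (hv : Nat.Coprime v n) :
    sy ((u * v : ℕ) : ℤ) n = sy (u : ℤ) n + sy (v : ℤ) n := by
  rw [Nat.cast_mul]
  exact sy_mul hu hv

theorem xCRed_mr {u m n : ℕ} (hm : m ≠ 0) (hn : n ≠ 0) (hu : Nat.Coprime u m)
    (hv : Nat.Coprime u n) : sy (u : ℤ) (m * n) = sy (u : ℤ) m + sy (u : ℤ) n :=
  sy_mul_right hm hn hu hv

theorem xCRed_L {d n : ℕ} (hd : Squarefree d) (h : Nat.Coprime d n) :
    ∑ j ∈ d.primeFactors, sy (j : ℤ) n = sy (d : ℤ) n := by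
  have key : ∀ s : Finset ℕ, (∀ j ∈ s, Nat.Coprime j n) →
      ∑ j ∈ s, sy (j : ℤ) n = sy ((∏ j ∈ s, j : ℕ) : ℤ) n := fun s => by
    induction s using Finset.induction_on with
    | empty => simp [sy]
    | insert a s ha ih =>
      intro hs
      rw [sum_insert ha, prod_insert ha, ih fun j hj => hs j (mem_insert_of_mem hj),
        xCRed_ml (hs a (mem_insert_self _ _))
          (Nat.Coprime.prod_left fun j hj => hs j (mem_insert_of_mem hj))]
  rw [key _ fun j hj => h.coprime_dvd_left (Nat.dvd_of_mem_primeFactors hj),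
    Nat.prod_primeFactors_of_squarefree hd]

theorem xCRed_R {d u : ℕ} (hd : Squarefree d) (h : Nat.Coprime u d) :
    ∑ j ∈ d.primeFactors, sy (u : ℤ) j = sy (u : ℤ) d := by
  have key : ∀ s : Finset ℕ, (∀ j ∈ s, j ≠ 0 ∧ Nat.Coprime u j) →
      ∑ j ∈ s, sy (u : ℤ) j = sy (u : ℤ) (∏ j ∈ s, j) := fun s => by
    induction s using Finset.induction_on with
    | empty => simp [sy]
    | insert a s ha ih =>
      intro hs
      rw [sum_insert ha, prod_insert ha, ih fun j hj => hs j (mem_insert_of_mem hj),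
        xCRed_mr (hs a (mem_insert_self _ _)).1
          (prod_ne_zero_iff.2 fun j hj => (hs j (mem_insert_of_mem hj)).1)
          (hs a (mem_insert_self _ _)).2
          (Nat.Coprime.prod_right fun j hj => (hs j (mem_insert_of_mem hj)).2)]
  rw [key _ fun j hj => ⟨(Nat.prime_of_mem_primeFactors hj).ne_zero,
    h.coprime_dvd_right (Nat.dvd_of_mem_primeFactors hj)⟩, Nat.prod_primeFactors_of_squarefree hd]

end Pool.Agent.MP_e23604_nt.P

end
end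

section

/-!
The Jacobi symbols between the sites.
-/

open Finset
open scoped Classical

noncomputable section

namespace Pool.Agent.MP_e23604_nt.U.AJ

open P (sy ep)

/-- The sites are positive, in the right classes, and their product is squarefree. -/
structure Nice (v : V10) : Prop where
  pos : ∀ σ, 0 < site v σ
  md : ∀ i, v i % 240 = v0 i
  sqf : Squarefree (∏ σ, site v σ)

/-- The sites as natural numbers. -/
def SN (v : V10) (σ : Fin 12) : ℕ := (site v σ).toNat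

def jj (v : V10) (τ σ : Fin 12) : ℤ := jacobiSym (site v τ) (SN v σ)

variable {v : V10}

theorem Nice.cast (h : Nice v) (σ : Fin 12) : (SN v σ : ℤ) = site v σ :=
  Int.toNat_of_nonneg (h.pos σ).le

theorem Nice.sqfN (h : Nice v) : Squarefree (∏ σ, SN v σ) := by
  rw [← Int.squarefree_natCast, Nat.cast_prod]
  simpa only [h.cast] using h.sqf

theorem cop_of {f : Fin 12 → ℕ} (h : Squarefree (∏ σ, f σ)) {τ σ : Fin 12} (hne : τ ≠ σ) :
    Nat.Coprime (f τ) (f σ) := by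
  refine Nat.coprime_of_squarefree_mul (h.squarefree_of_dvd ?_)
  rw [← prod_pair hne]
  exact prod_dvd_prod_of_subset _ _ _ (subset_univ _)

theorem Nice.cop (h : Nice v) {τ σ : Fin 12} (hne : τ ≠ σ) : Nat.Coprime (SN v τ) (SN v σ) :=
  cop_of h.sqfN hne

theorem Nice.m16 (h : Nice v) (i : Fin 10) : (v i : ZMod 16) = (v0 i : ZMod 16) := by
  rw [← h.md i, ZMod.intCast_eq_intCast_iff]
  exact (Int.emod_emod_of_dvd _ (by norm_num)).symm

theorem Nice.dv (h : Nice v) : (16 : ℤ) ∣ v 0 - 1 ∧ (16 : ℤ) ∣ v 1 - 1 ∧ (16 : ℤ) ∣ v 2 - 5 ∧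
    (16 : ℤ) ∣ v 3 - 1 ∧ (16 : ℤ) ∣ v 4 - 1 ∧ (16 : ℤ) ∣ v 5 - 1 ∧
    (16 : ℤ) ∣ v 2 * v 4 * v 6 ^ 2 - v 5 * v 3 * v 7 ^ 2 - 4 ∧ (16 : ℤ) ∣ site v 3 - 5 ∧
    (16 : ℤ) ∣ site v 6 - 5 ∧ (16 : ℤ) ∣ site v 7 - 3 ∧ (16 : ℤ) ∣ site v 10 - 13 ∧
    (16 : ℤ) ∣ site v 11 - 15 := by
  have k : ∀ x : ℤ, (x : ZMod 16) = 0 → (16 : ℤ) ∣ x := fun x hx =>
    (ZMod.intCast_zmod_eq_zero_iff_dvd x 16).1 hx
  refine ⟨k _ ?_, k _ ?_, k _ ?_, k _ ?_, k _ ?_, k _ ?_, k _ ?_, k _ ?_, k _ ?_, k _ ?_, k _ ?_,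
    k _ ?_⟩ <;>
    simp only [site, Matrix.cons_val, Int.cast_sub, Int.cast_mul, Int.cast_pow, h.m16] <;> decide

theorem Nice.s2 (h : Nice v) :
    4 * site v 2 = v 2 * v 4 * v 6 ^ 2 - v 5 * v 3 * v 7 ^ 2 := by
  have := h.dv.2.2.2.2.2.2.1
  have e : site v 2 = (v 2 * v 4 * v 6 ^ 2 - v 5 * v 3 * v 7 ^ 2) / 4 := rfl
  omega

theorem Nice.mod4 (h : Nice v) (σ : Fin 12) :
    SN v σ % 4 = if σ = 7 ∨ σ = 11 then 3 else 1 := by
  obtain ⟨a0, a1, a2, a3, a4, a5, a6, a7, a8, a9, a10, a11⟩ := h.dv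
  have e := h.cast σ
  have e2 := h.s2
  have k : ∀ σ : Fin 12, σ = 0 ∨ σ = 1 ∨ σ = 2 ∨ σ = 3 ∨ σ = 4 ∨ σ = 5 ∨ σ = 6 ∨ σ = 7 ∨ σ = 8 ∨
      σ = 9 ∨ σ = 10 ∨ σ = 11 := by decide
  have b0 : site v 0 = v 0 := rfl
  have b1 : site v 1 = v 1 := rfl
  have b4 : site v 4 = v 4 := rfl
  have b5 : site v 5 = v 5 := rfl
  have b8 : site v 8 = v 2 := rfl
  have b9 : site v 9 = v 3 := rfl
  rcases k σ with rfl | rfl | rfl | rfl | rfl | rfl | rfl | rfl | rfl | rfl | rfl | rfl <;>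
    first
    | (rw [if_pos (by decide)]; omega)
    | (rw [if_neg (by decide)]; omega)

theorem Nice.odd (h : Nice v) (σ : Fin 12) : SN v σ % 2 = 1 := by
  have := h.mod4 σ
  split_ifs at this <;> omega

theorem Nice.one4 (h : Nice v) {σ : Fin 12} (h1 : σ ≠ 7) (h2 : σ ≠ 11) : SN v σ % 4 = 1 := by
  rw [h.mod4, if_neg (not_or.2 ⟨h1, h2⟩)]

theorem Nice.rec' (h : Nice v) (τ σ : Fin 12) (h1 : τ ≠ 7) (h2 : τ ≠ 11) : jj v τ σ = jj v σ τ := by
  rw [jj, jj, ← h.cast, ← h.cast]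
  exact jacobiSym.quadratic_reciprocity_one_mod_four (h.one4 h1 h2) (Nat.odd_iff.2 (h.odd σ))

theorem jac_two {n : ℕ} (hn : n % 2 = 1) {j : ℤ} (hj : j = 1 ∨ j = 2) :
    jacobiSym (j ^ 2) n = 1 ∧ IsCoprime j n := by
  have : IsCoprime j n := by
    rcases hj with rfl | rfl
    · exact isCoprime_one_left
    · exact Int.prime_two.coprime_iff_not_dvd.2 (by omega)
  exact ⟨jacobiSym.sq_one' (Int.isCoprime_iff_gcd_eq_one.1 this), this⟩

theorem jac_neg {n : ℕ} (hn : n % 4 = 1) : jacobiSym (-1) n = 1 := by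
  rw [jacobiSym.at_neg_one (Nat.odd_iff.2 (by omega)), ZMod.χ₄_nat_one_mod_four hn]

theorem Nice.tri (h : Nice v) {Z m X m' Y : Fin 12} (i j k w : ℤ)
    (e : i ^ 2 * site v m * site v X = k * j ^ 2 * site v m' * site v Y + site v Z * w)
    (hk : k = 1 ∨ k = -1 ∧ Z ≠ 7 ∧ Z ≠ 11) (hi : i = 1 ∨ i = 2) (hj : j = 1 ∨ j = 2)
    (h1 : jj v m Z = 1) (h2 : jj v m' Z = 1) : jj v X Z = jj v Y Z := by
  have h3 : jacobiSym (i ^ 2 * site v m * site v X) (SN v Z) =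
      jacobiSym (k * j ^ 2 * site v m' * site v Y) (SN v Z) :=
    jacobiSym.mod_left' (by rw [e, h.cast, Int.add_mul_emod_self_left])
  have h4 : jacobiSym k (SN v Z) = 1 := by
    rcases hk with rfl | ⟨rfl, a, b⟩
    · exact jacobiSym.one_left _
    · exact jac_neg (h.one4 a b)
  unfold jj at *
  simpa only [jacobiSym.mul_left, (jac_two (h.odd Z) hi).1, (jac_two (h.odd Z) hj).1, h1, h2, h4,
    one_mul] using h3

def IsM (τ : Fin 12) : Prop := τ.val % 4 < 2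

instance : DecidablePred IsM := fun τ => inferInstanceAs (Decidable (τ.val % 4 < 2))

theorem Nice.mb (h : Nice v) (hm : ∀ τ σ, IsM τ → IsM σ → τ ≠ σ → jj v τ σ = 1)
    {X p r s : Fin 12} (j k β w : ℤ) (e : j ^ 2 * site v X = k * site v r * site v s * β ^ 2 +
      site v p * w) (hj : j = 1 ∨ j = 2) (hk : k = 1 ∨ k = -1)
    (hd : IsM p ∧ IsM r ∧ IsM s ∧ r ≠ p ∧ s ≠ p ∧ X ≠ p ∧ p ≠ 7 ∧ p ≠ 11) : jj v X p = 1 := by
  obtain ⟨mp, mr, ms, rp, sp, xp, p7, p11⟩ := hd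
  have h3 : jacobiSym (j ^ 2 * site v X) (SN v p) =
      jacobiSym (k * site v r * site v s * β ^ 2) (SN v p) :=
    jacobiSym.mod_left' (by rw [e, h.cast, Int.add_mul_emod_self_left])
  have h4 : jacobiSym k (SN v p) = 1 := by
    rcases hk with rfl | rfl
    · exact jacobiSym.one_left _
    · exact jac_neg (h.one4 p7 p11)
  have h5 : IsCoprime (j ^ 2 * site v X) (SN v p) := by
    refine (jac_two (h.odd p) hj).2.pow_left.mul_left ?_
    rw [← h.cast]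
    exact Nat.isCoprime_iff_coprime.2 (h.cop xp)
  have h6 : jacobiSym (β ^ 2) (SN v p) = 1 := by
    rw [e, ← h.cast p] at h5
    exact jacobiSym.sq_one' (Int.isCoprime_iff_gcd_eq_one.1
      ((IsCoprime.pow_left_iff two_pos).1 h5.of_add_mul_left_left.of_mul_left_right))
  have h7 := hm r p mr mp rp
  have h8 := hm s p ms mp sp
  unfold jj at *
  simpa only [jacobiSym.mul_left, (jac_two (h.odd p) hj).1, h4, h6, h7, h8, one_mul] using h3

theorem Nice.mb4 (h : Nice v) (hm : ∀ τ σ, IsM τ → IsM σ → τ ≠ σ → jj v τ σ = 1)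
    (X p q r s : Fin 12) (j α β : ℤ) (e : j ^ 2 * site v X = site v p * site v q * α ^ 2 -
      site v r * site v s * β ^ 2) (hj : j = 1 ∨ j = 2)
    (hd : (IsM p ∧ IsM r ∧ IsM s ∧ r ≠ p ∧ s ≠ p ∧ X ≠ p ∧ p ≠ 7 ∧ p ≠ 11) ∧
      (IsM q ∧ IsM r ∧ IsM s ∧ r ≠ q ∧ s ≠ q ∧ X ≠ q ∧ q ≠ 7 ∧ q ≠ 11) ∧
      (IsM r ∧ IsM p ∧ IsM q ∧ p ≠ r ∧ q ≠ r ∧ X ≠ r ∧ r ≠ 7 ∧ r ≠ 11) ∧
      (IsM s ∧ IsM p ∧ IsM q ∧ p ≠ s ∧ q ≠ s ∧ X ≠ s ∧ s ≠ 7 ∧ s ≠ 11)) (t : Fin 12)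
    (ht : t = p ∨ t = q ∨ t = r ∨ t = s) : jj v X t = 1 := by
  rcases ht with rfl | rfl | rfl | rfl
  · exact h.mb hm j (-1) β (site v q * α ^ 2) (by rw [e]; ring) hj (Or.inr rfl) hd.1
  · exact h.mb hm j (-1) β (site v p * α ^ 2) (by rw [e]; ring) hj (Or.inr rfl) hd.2.1
  · exact h.mb hm j 1 α (-(site v s * β ^ 2)) (by rw [e]; ring) hj (Or.inl rfl) hd.2.2.1
  · exact h.mb hm j 1 α (-(site v r * β ^ 2)) (by rw [e]; ring) hj (Or.inl rfl) hd.2.2.2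

theorem Nice.rel (h : Nice v) :
    4 * site v 0 * site v 2 = site v 8 * site v 10 + site v 5 * site v 7 ∧
    4 * site v 0 * site v 2 = site v 4 * site v 6 + site v 9 * site v 11 ∧
    site v 4 * site v 6 = site v 8 * site v 10 + 4 * site v 1 * site v 3 ∧
    site v 5 * site v 7 = 4 * site v 1 * site v 3 + site v 9 * site v 11 := by
  have e := h.s2
  generalize site v 2 = x at e ⊢
  simp only [site, Matrix.cons_val]
  exact ⟨by linear_combination v 0 * e, by linear_combination v 0 * e, by ring, by ring⟩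

theorem Nice.tabJ (h : Nice v) {s : S12} (hb : Bits s v) (τ σ : Fin 12) (hc : cls τ < cls σ) :
    jj v τ σ = if (τ = 2 ∨ τ = 7) ∧ (σ = 7 ∨ σ = 10) then (-1) ^ (PS s).card else 1 := by
  obtain ⟨b0, t1, t2, t3, t4⟩ := hb
  have hm : ∀ τ σ, IsM τ → IsM σ → τ ≠ σ → jj v τ σ = 1 := by
    let ix : Fin 12 → Fin 10 := ![0, 1, 0, 0, 4, 5, 0, 0, 2, 3, 0, 0]
    have k1 : ∀ τ, IsM τ → site v τ = v (ix τ) := fun τ hτ => by
      have : ∀ τ, IsM τ → τ = 0 ∨ τ = 1 ∨ τ = 4 ∨ τ = 5 ∨ τ = 8 ∨ τ = 9 := by decide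
      rcases this τ hτ with rfl | rfl | rfl | rfl | rfl | rfl <;> rfl
    have k2 : ∀ τ σ, IsM τ → IsM σ → τ ≠ σ → τ ≠ 7 ∧ τ ≠ 11 ∧
        (ix τ < ix σ ∧ (ix σ).val < 6 ∨ ix σ < ix τ ∧ (ix τ).val < 6) := by decide
    intro τ σ h1 h2 h3
    obtain ⟨a, b, c | c⟩ := k2 τ σ h1 h2 h3
    · rw [jj, SN, k1 τ h1, k1 σ h2]
      exact b0 _ _ c.1 c.2
    · rw [h.rec' τ σ a b, jj, SN, k1 τ h1, k1 σ h2]
      exact b0 _ _ c.1 c.2
  have o1 : (1 : ℤ) = 1 ∨ (1 : ℤ) = 2 := Or.inl rfl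
  have o2 : (2 : ℤ) = 1 ∨ (2 : ℤ) = 2 := Or.inr rfl
  have hx : ∀ X p, ¬ IsM X → IsM p → cls X ≠ cls p → jj v X p = 1 := by
    have k : ∀ X p, ¬ IsM X → IsM p → cls X ≠ cls p →
        X = 2 ∧ (p = 8 ∨ p = 4 ∨ p = 5 ∨ p = 9) ∨ X = 3 ∧ (p = 8 ∨ p = 5 ∨ p = 4 ∨ p = 9) ∨
        X = 6 ∧ (p = 0 ∨ p = 8 ∨ p = 9 ∨ p = 1) ∨ X = 7 ∧ (p = 8 ∨ p = 1 ∨ p = 0 ∨ p = 9) ∨
        X = 10 ∧ (p = 0 ∨ p = 4 ∨ p = 5 ∨ p = 1) ∨ X = 11 ∧ (p = 4 ∨ p = 1 ∨ p = 0 ∨ p = 5) := by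
      decide
    intro X p h1 h2 h3
    rcases k X p h1 h2 h3 with ⟨rfl, c⟩ | ⟨rfl, c⟩ | ⟨rfl, c⟩ | ⟨rfl, c⟩ | ⟨rfl, c⟩ | ⟨rfl, c⟩
    · exact h.mb4 hm 2 8 4 5 9 2 (v 6) (v 7) (by rw [← show (4 : ℤ) = 2 ^ 2 from rfl, h.s2]; rfl) o2
        (by decide) p c
    · exact h.mb4 hm 3 8 5 4 9 1 (v 8) (v 9) (by simp only [site, Matrix.cons_val]; ring) o1
        (by decide) p c
    · exact h.mb4 hm 6 0 8 9 1 1 (v 6) (2 * v 9) (by simp only [site, Matrix.cons_val]; ring) o1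
        (by decide) p c
    · exact h.mb4 hm 7 8 1 0 9 1 (2 * v 8) (v 7) (by simp only [site, Matrix.cons_val]; ring) o1
        (by decide) p c
    · exact h.mb4 hm 10 0 4 5 1 1 (v 6) (2 * v 8) (by simp only [site, Matrix.cons_val]; ring) o1
        (by decide) p c
    · exact h.mb4 hm 11 4 1 0 5 1 (2 * v 9) (v 7) (by simp only [site, Matrix.cons_val]; ring) o1
        (by decide) p c
  have hy : ∀ p X, IsM p ∧ ¬ IsM X ∧ cls X ≠ cls p → jj v p X = 1 := fun p X c => by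
    have k : ∀ p, IsM p → p ≠ 7 ∧ p ≠ 11 := by decide
    rw [h.rec' p X (k p c.1).1 (k p c.1).2, hx X p c.2.1 c.1 c.2.2]
  obtain ⟨r1, r2, r3, r4⟩ := h.rel
  change jj v 7 3 = 1 at t1
  change jj v 10 3 = 1 at t2
  change jj v 6 2 = 1 at t3
  change jj v 10 2 = _ at t4
  generalize (-1 : ℤ) ^ (PS s).card = T at t4 ⊢
  have a26 : jj v 2 6 = 1 := by rw [h.rec' 2 6 (by decide) (by decide), t3]
  have a2a : jj v 2 10 = T := by rw [h.rec' 2 10 (by decide) (by decide), t4]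
  have a27 : jj v 2 7 = T := by
    rw [h.rec' 2 7 (by decide) (by decide), ← t4]
    exact h.tri (m := 5) (m' := 8) 1 1 (-1) (4 * site v 0) (by linear_combination -r1)
      (Or.inr ⟨rfl, by decide⟩) o1 o1 (hy _ _ (by decide)) (hy _ _ (by decide))
  have a2b : jj v 2 11 = 1 := by
    rw [h.rec' 2 11 (by decide) (by decide), ← t3]
    exact h.tri (m := 9) (m' := 4) 1 1 (-1) (4 * site v 0) (by linear_combination -r2)
      (Or.inr ⟨rfl, by decide⟩) o1 o1 (hy _ _ (by decide)) (hy _ _ (by decide))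
  have a37 : jj v 3 7 = 1 := by rw [h.rec' 3 7 (by decide) (by decide), t1]
  have a3a : jj v 3 10 = 1 := by rw [h.rec' 3 10 (by decide) (by decide), t2]
  have a36 : jj v 3 6 = 1 := by
    rw [h.rec' 3 6 (by decide) (by decide), ← t2]
    exact h.tri (m := 4) (m' := 8) 1 1 1 (4 * site v 1) (by linear_combination r3)
      (Or.inl rfl) o1 o1 (hy _ _ (by decide)) (hy _ _ (by decide))
  have a3b : jj v 3 11 = 1 := by
    rw [h.rec' 3 11 (by decide) (by decide), ← t1]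
    exact h.tri (m := 9) (m' := 5) 1 1 1 (-4 * site v 1) (by linear_combination -r4)
      (Or.inl rfl) o1 o1 (hy _ _ (by decide)) (hy _ _ (by decide))
  have a6a : jj v 6 10 = 1 := by
    rw [← a3a]
    exact h.tri (m := 4) (m' := 1) 1 2 1 (site v 8) (by linear_combination r3)
      (Or.inl rfl) o1 o2 (hy _ _ (by decide)) (hy _ _ (by decide))
  have a6b : jj v 6 11 = 1 := by
    rw [← a2b]
    exact h.tri (m := 4) (m' := 0) 1 2 1 (-site v 9) (by linear_combination -r2)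
      (Or.inl rfl) o1 o2 (hy _ _ (by decide)) (hy _ _ (by decide))
  have a7a : jj v 7 10 = T := by
    rw [← a2a]
    exact h.tri (m := 5) (m' := 0) 1 2 1 (-site v 8) (by linear_combination -r1)
      (Or.inl rfl) o1 o2 (hy _ _ (by decide)) (hy _ _ (by decide))
  have a7b : jj v 7 11 = 1 := by
    rw [← a3b]
    exact h.tri (m := 5) (m' := 1) 1 2 1 (site v 9) (by linear_combination r4)
      (Or.inl rfl) o1 o2 (hy _ _ (by decide)) (hy _ _ (by decide))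
  have k : ∀ τ σ : Fin 12, cls τ < cls σ →
      ¬ ((τ = 2 ∨ τ = 7) ∧ (σ = 7 ∨ σ = 10)) ∧ (IsM τ ∧ IsM σ ∧ τ ≠ σ ∨
        (IsM τ ∧ ¬ IsM σ ∧ cls σ ≠ cls τ) ∨ ¬ IsM τ ∧ IsM σ ∧ cls τ ≠ cls σ ∨
        τ = 2 ∧ σ = 6 ∨ τ = 2 ∧ σ = 11 ∨ τ = 3 ∧ σ = 6 ∨ τ = 3 ∧ σ = 7 ∨ τ = 3 ∧ σ = 10 ∨
        τ = 3 ∧ σ = 11 ∨ τ = 6 ∧ σ = 10 ∨ τ = 6 ∧ σ = 11 ∨ τ = 7 ∧ σ = 11) ∨
      ((τ = 2 ∨ τ = 7) ∧ (σ = 7 ∨ σ = 10)) ∧
        (τ = 2 ∧ σ = 7 ∨ τ = 2 ∧ σ = 10 ∨ τ = 7 ∧ σ = 10) := by decide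
  rcases k τ σ hc with ⟨c, d⟩ | ⟨c, d⟩
  · rw [if_neg c]
    rcases d with d | d | d | ⟨rfl, rfl⟩ | ⟨rfl, rfl⟩ | ⟨rfl, rfl⟩ | ⟨rfl, rfl⟩ | ⟨rfl, rfl⟩ |
      ⟨rfl, rfl⟩ | ⟨rfl, rfl⟩ | ⟨rfl, rfl⟩ | ⟨rfl, rfl⟩
    exacts [hm _ _ d.1 d.2.1 d.2.2, hy _ _ d, hx _ _ d.1 d.2.1 d.2.2, a26, a2b, a36, a37, a3a, a3b,
      a6a, a6b, a7b]
  · rw [if_pos c]
    rcases d with ⟨rfl, rfl⟩ | ⟨rfl, rfl⟩ | ⟨rfl, rfl⟩
    exacts [a27, a2a, a7a]

theorem Nice.tab (h : Nice v) {s : S12} (hb : Bits s v) (τ σ : Fin 12) (hc : cls τ < cls σ) :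
    sy (SN v τ) (SN v σ) = ((PS s).card : ZMod 2) * lv τ * lv σ := by
  have e := h.tabJ hb τ σ hc
  have k : ∀ τ σ : Fin 12, cls τ < cls σ →
      lv τ * lv σ = if (τ = 2 ∨ τ = 7) ∧ (σ = 7 ∨ σ = 10) then 1 else 0 := by decide
  rw [jj] at e
  rw [sy, h.cast, e, mul_assoc, k τ σ hc]
  by_cases h1 : (τ = 2 ∨ τ = 7) ∧ (σ = 7 ∨ σ = 10)
  · rw [if_pos h1, if_pos h1, mul_one]
    rcases Nat.even_or_odd (PS s).card with h3 | h3
    · rw [h3.neg_one_pow, if_neg (by decide), ZMod.natCast_eq_zero_iff_even.2 h3]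
    · rw [h3.neg_one_pow, if_pos rfl, ZMod.natCast_eq_one_iff_odd.2 h3]
  · rw [if_neg h1, if_neg h1, mul_zero, if_neg (by decide)]

end Pool.Agent.MP_e23604_nt.U.AJ

end
end

section

/-!
The full matrix on the primes of the sites and the passage to the basis of sites.
-/

open Finset
open scoped Classical

noncomputable section

namespace Pool.Agent.MP_e23604_nt.U.AJ

open P (sy ep sy_mul sy_mul_right sy_neg_one sy_swap xCRed_L xCRed_R)

theorem two0 : (2 : ZMod 2) = 0 := rfl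

/-- The full matrix. -/
def fm (t : ℕ → Fin 12) (c : ℕ → F12) (p q : ℕ) : ZMod 2 :=
  if p = q then ∑ τ, c p τ * wv τ else mm (t p) (t q) p q

theorem mm_symm (σ τ : Fin 12) (l l' : ℕ) : mm σ τ l l' = mm τ σ l' l := by
  unfold mm
  rcases lt_trichotomy (cls σ) (cls τ) with h | h | h
  · rw [if_pos h, if_neg h.not_gt, if_pos h]
  · rw [h, mul_comm, if_neg (lt_irrefl _), if_neg (lt_irrefl _), if_neg (lt_irrefl _),
      if_neg (lt_irrefl _)]
  · rw [if_neg h.not_gt, if_pos h, if_pos h]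

theorem fm_symm (t : ℕ → Fin 12) (c : ℕ → F12) (p q : ℕ) : fm t c p q = fm t c q p := by
  unfold fm
  by_cases h : p = q
  · rw [h]
  · rw [if_neg h, if_neg (Ne.symm h), mm_symm]

theorem ker_abs {U Q : Finset ℕ} {t t0 : ℕ → Fin 12} {P : Fin 12 → ℕ} {c c0 : ℕ → F12}
    {ε : ℕ → ZMod 2} (hQ : Q ⊆ U) (hall : ∀ q ∈ U, q ∉ Q → q = P (t q))
    (ht : ∀ l ∈ Q, t0 l = t l) (hc0 : ∀ l ∈ Q, c0 l = c l)
    (hc : ∀ p ∈ U, ∀ τ, c p τ = ∑ q ∈ U.filter (fun q => t q = τ), fm t c p q)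
    (hL : ∀ τ σ, ∑ p ∈ U.filter (fun p => t p = τ), c p σ = (Q.card : ZMod 2) * lv τ * lv σ)
    (hrow : ∀ p ∈ U, ∑ q ∈ U, fm t c p q * ε q = 0) (hg : Good Q t0 c0) :
    ∃ y, InK y ∧ ∀ q ∈ U, ε q = y (t q) := by
  obtain ⟨x, hx⟩ : ∃ x : ℕ → ZMod 2, ∀ l, x l = ε l + ε (P (t l)) := ⟨_, fun _ => rfl⟩
  obtain ⟨y, hy⟩ : ∃ y : F12, ∀ τ, y τ = ε (P τ) := ⟨_, fun _ => rfl⟩
  have e1 : ∀ q, ε q = x q + y (t q) := fun q => by
    rw [hx, hy]
    linear_combination -ε (P (t q)) * two0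
  have e2 : ∀ q ∈ U, q ∉ Q → x q = 0 := fun q h1 h2 => by
    rw [hx, ← hall q h1 h2]
    linear_combination ε q * two0
  have R : ∀ p ∈ U, ∑ q ∈ Q, fm t c p q * x q + ∑ τ, c p τ * y τ = 0 := fun p hp => by
    rw [← hrow p hp]
    simp only [e1, mul_add, sum_add_distrib]
    congr 1
    · exact sum_subset hQ fun q h1 h2 => by rw [e2 q h1 h2, mul_zero]
    · rw [← sum_fiberwise U t]
      refine sum_congr rfl fun τ _ => ?_
      rw [hc p hp, sum_mul]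
      exact sum_congr rfl fun q hq => by rw [(mem_filter.1 hq).2]
  suffices hk : Ker Q t0 c0 x y by
    obtain ⟨g1, g2⟩ := hg x y hk
    refine ⟨y, g2, fun q hq => ?_⟩
    by_cases h : q ∈ Q
    · rw [e1, g1 q h, zero_add]
    · rw [e1, e2 q hq h, zero_add]
  refine ⟨fun l hl => ?_, fun τ => ?_⟩
  · rw [← R l (hQ hl), ← add_sum_erase Q _ hl, fm, if_pos rfl, hc0 l hl, sum_mul]
    have : ∑ q ∈ Q.erase l, mm (t0 l) (t0 q) l q * x q = ∑ q ∈ Q.erase l, fm t c l q * x q :=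
      sum_congr rfl fun q hq => by
        rw [fm, if_neg (mem_erase.1 hq).1.symm, ht l hl, ht q (mem_erase.1 hq).2]
    rw [this, add_comm (∑ τ, _ * x l), add_assoc, ← sum_add_distrib]
    exact congrArg _ (sum_congr rfl fun τ _ => by ring)
  · have := sum_eq_zero fun p (hp : p ∈ U.filter fun p => t p = τ) => R p (mem_filter.1 hp).1
    rw [sum_add_distrib, sum_comm, sum_comm (t := univ)] at this
    rw [← this, mul_sum]
    congr 1
    · refine sum_congr rfl fun q hq => ?_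
      rw [← sum_mul, hc0 q hq, hc q (hQ hq), mul_comm]
      exact congrArg (· * x q) (sum_congr rfl fun p _ => fm_symm _ _ _ _)
    · exact sum_congr rfl fun σ _ => by rw [← sum_mul, hL, mul_assoc, mul_assoc, mul_assoc]

/-- The shape of the border. -/
def bd (σ : Fin 12) (r : F12) (e : ZMod 2) : F12 := fun τ =>
  if cls τ ≠ cls σ then r τ
  else if cls σ = 1 then
    (if τ = σ then ∑ ρ ∈ univ.filter (fun ρ => cls ρ = 0), r ρ + e * ((if σ = 7 then 1 else 0) + 1)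
      else if τ = 7 then e else 0)
  else if τ = σ then ∑ ρ ∈ univ.filter (fun ρ => cls ρ = 1), r ρ else 0

theorem bord_eq (v : V10) (σ : Fin 12) (l : ℕ) : bord v σ l = bd σ (cr v σ l) (ep l) := rfl

theorem bd_sum (σ τ : Fin 12) (T : Finset ℕ) (r : ℕ → F12) (e : ℕ → ZMod 2) (r' : F12)
    (hr : ∀ ρ, cls ρ ≠ cls σ → ∑ p ∈ T, r p ρ = r' ρ) :
    ∑ p ∈ T, bd σ (r p) (e p) τ = bd σ r' (∑ p ∈ T, e p) τ := by
  have k : ∀ i, i ≠ cls σ → ∑ p ∈ T, ∑ ρ ∈ univ.filter (fun ρ => cls ρ = i), r p ρ =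
      ∑ ρ ∈ univ.filter (fun ρ => cls ρ = i), r' ρ := fun i hi => by
    rw [sum_comm]
    exact sum_congr rfl fun ρ hρ => hr ρ ((mem_filter.1 hρ).2 ▸ hi)
  unfold bd
  by_cases h1 : cls τ ≠ cls σ
  · simp only [if_pos h1, hr τ h1]
  by_cases h2 : cls σ = 1
  · simp only [if_neg h1, if_pos h2]
    by_cases h3 : τ = σ
    · simp only [if_pos h3]
      rw [sum_add_distrib, k 0 (by omega), sum_mul]
    · by_cases h4 : τ = 7
      · simp only [if_neg h3, if_pos h4]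
      · simp only [if_neg h3, if_neg h4, sum_const_zero]
  · simp only [if_neg h1, if_neg h2]
    by_cases h3 : τ = σ
    · simp only [if_pos h3]
      exact k 1 (Ne.symm h2)
    · simp only [if_neg h3, sum_const_zero]

theorem bd_tab : ∀ (t : ZMod 2) (τ σ : Fin 12), bd τ (fun ρ => t * lv τ * lv ρ)
    (if τ = 7 ∨ τ = 11 then 1 else 0) σ = t * lv τ * lv σ := by
  decide +kernel

theorem sum_c0 (r : F12) : ∑ ρ ∈ univ.filter (fun ρ => cls ρ = 0), r ρ = r 0 + r 1 + r 2 + r 3 := by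
  rw [show univ.filter (fun ρ => cls ρ = 0) = {0, 1, 2, 3} by decide]
  simp [add_assoc]

theorem sum_c1 (r : F12) : ∑ ρ ∈ univ.filter (fun ρ => cls ρ = 1), r ρ = r 4 + r 5 + r 6 + r 7 := by
  rw [show univ.filter (fun ρ => cls ρ = 1) = {4, 5, 6, 7} by decide]
  simp [add_assoc]

theorem bd_dg (σ : Fin 12) (r : F12) (e : ZMod 2) : ∑ τ, bd σ r e τ * wv τ =
    ∑ ρ ∈ univ.filter (fun ρ => cls ρ = if cls σ = 1 then 0 else 1), r ρ := by
  have e1 : ∑ τ, bd σ r e τ * wv τ = ∑ ρ ∈ univ.filter (fun ρ => cls ρ = 1), bd σ r e ρ := by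
    rw [sum_filter]
    exact sum_congr rfl fun τ _ => by rw [wv, mul_ite, mul_one, mul_zero]
  rw [e1]
  by_cases h : cls σ = 1
  · simp only [if_pos h]
    rw [sum_c1]
    have k : ∀ σ : Fin 12, cls σ = 1 → σ = 4 ∨ σ = 5 ∨ σ = 6 ∨ σ = 7 := by decide
    rcases k σ h with rfl | rfl | rfl | rfl <;> simp +decide only [bd, if_true, if_false] <;>
      linear_combination e * two0
  · simp only [if_neg h]
    exact sum_congr rfl fun ρ hρ => if_pos fun e : cls ρ = cls σ => h (e ▸ (mem_filter.1 hρ).2)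

theorem sy_sum {u : ℤ} {d : ℕ} (hd : Squarefree d) (h : IsCoprime u d) :
    ∑ j ∈ d.primeFactors, sy u j = sy u d := by
  have key : ∀ s : Finset ℕ, (∀ j ∈ s, j ≠ 0 ∧ IsCoprime u j) →
      ∑ j ∈ s, sy u j = sy u (∏ j ∈ s, j) := fun s => by
    induction s using Finset.induction_on with
    | empty => simp [sy]
    | insert a s ha ih =>
      intro hs
      rw [sum_insert ha, prod_insert ha, ih fun j hj => hs j (mem_insert_of_mem hj),
        sy_mul_right (hs a (mem_insert_self _ _)).1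
          (prod_ne_zero_iff.2 fun j hj => (hs j (mem_insert_of_mem hj)).1)
          (Int.isCoprime_iff_gcd_eq_one.1 (hs a (mem_insert_self _ _)).2)
          (Int.isCoprime_iff_gcd_eq_one.1 (by
            rw [Nat.cast_prod]
            exact IsCoprime.prod_right fun j hj => (hs j (mem_insert_of_mem hj)).2))]
  rw [key _ fun j hj => ⟨(Nat.prime_of_mem_primeFactors hj).ne_zero, h.of_isCoprime_of_dvd_right
    (Int.natCast_dvd_natCast.2 (Nat.dvd_of_mem_primeFactors hj))⟩,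
    Nat.prod_primeFactors_of_squarefree hd]

theorem odd_dvd {x y : ℕ} (hy : y % 2 = 1) (h : x ∣ y) : x % 2 = 1 :=
  Nat.odd_iff.1 (Odd.of_dvd_nat (Nat.odd_iff.2 hy) h)

theorem ep_sum {d : ℕ} (hd : Squarefree d) (h : d % 2 = 1) : ∑ j ∈ d.primeFactors, ep j = ep d := by
  rw [← sy_neg_one h, ← sy_sum hd isCoprime_one_left.neg_left]
  exact sum_congr rfl fun j hj => (sy_neg_one (odd_dvd h (Nat.dvd_of_mem_primeFactors hj))).symm

theorem ep_sq (l : ℕ) : ep l * ep l = ep l := by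
  unfold ep
  split_ifs <;> simp

theorem sy_neg {u : ℤ} {n : ℕ} (h : Int.gcd u n = 1) (hn : n % 2 = 1) :
    sy (-u) n = sy u n + ep n := by
  rw [← neg_one_mul, sy_mul (by simp) h, sy_neg_one hn, add_comm]

theorem sy_star {e : ℤ} {n p : ℕ} (he : e = 1 ∨ e = -1) (h4 : e * n % 4 = 1) (hp : p % 2 = 1)
    (h : Nat.Coprime n p) : sy (e * n) p = sy p n := by
  rcases he with rfl | rfl
  · rw [one_mul, sy_swap (by omega) hp h, ep, if_neg (by omega), zero_mul, add_zero]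
  · rw [neg_one_mul, sy_neg (u := n) h hp, sy_swap (by omega) hp h, ep, if_pos (by omega)]
    linear_combination ep p * two0

/-- The sum of the off diagonal entries over the primes of `n`. -/
def off (t : ℕ → Fin 12) (p n : ℕ) : ZMod 2 := ∑ q ∈ n.primeFactors.erase p, mm (t p) (t q) p q

theorem off_mul (t : ℕ → Fin 12) (p : ℕ) {m n : ℕ} (h : Nat.Coprime m n) :
    off t p (m * n) = off t p m + off t p n := by
  rw [off, h.primeFactors_mul, erase_union_distrib, sum_union]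
  · rfl
  · exact h.disjoint_primeFactors.mono (erase_subset _ _) (erase_subset _ _)

theorem off_eq {t : ℕ → Fin 12} {p n k : ℕ} (hp : p.Prime) (hn : Squarefree n) (o : n % 2 = 1)
    (hk : ∀ q, q.Prime → q ∣ n → cls (t q) = k) :
    (cls (t p) < k → off t p n = sy p n) ∧ (k < cls (t p) → off t p n = sy n p) ∧
    (cls (t p) = k → k = 1 → off t p n = ep p * (ep n + if p ∣ n then 1 else 0)) ∧
    (cls (t p) = k → k ≠ 1 → off t p n = 0) := by
  have hk' : ∀ q ∈ n.primeFactors, cls (t q) = k := fun q hq =>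
    hk q (Nat.prime_of_mem_primeFactors hq) (Nat.dvd_of_mem_primeFactors hq)
  have nd : cls (t p) ≠ k → Nat.Coprime p n ∧ n.primeFactors.erase p = n.primeFactors := fun h =>
    ⟨hp.coprime_iff_not_dvd.2 fun e => h (hk p hp e), erase_eq_of_notMem fun e => h (hk' p e)⟩
  refine ⟨fun h => ?_, fun h => ?_, fun h h1 => ?_, fun h h1 => ?_⟩
  · rw [off, (nd h.ne).2, ← xCRed_R hn (nd h.ne).1]
    exact sum_congr rfl fun q hq => by rw [mm, hk' q hq, if_pos h]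
  · rw [off, (nd h.ne').2, ← xCRed_L hn (nd h.ne').1.symm]
    exact sum_congr rfl fun q hq => by rw [mm, hk' q hq, if_neg h.not_gt, if_pos h]
  · have e : off t p n = ep p * ∑ q ∈ n.primeFactors.erase p, ep q := by
      rw [mul_sum]
      exact sum_congr rfl fun q hq => by
        rw [mm, hk' q (mem_erase.1 hq).2, h, if_neg (lt_irrefl _), if_neg (lt_irrefl _), if_pos h1]
    rw [e, ← ep_sum hn o]
    split_ifs with h2
    · rw [← add_sum_erase _ _ (Nat.mem_primeFactors.2 ⟨hp, h2, hn.ne_zero⟩)]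
      linear_combination -ep_sq p - ep p * two0
    · rw [erase_eq_of_notMem fun e => h2 (Nat.dvd_of_mem_primeFactors e), add_zero]
  · exact sum_eq_zero fun q hq => by
      rw [mm, hk' q (mem_erase.1 hq).2, h, if_neg (lt_irrefl _), if_neg (lt_irrefl _), if_neg h1]

theorem fm_sum (t : ℕ → Fin 12) (c : ℕ → F12) {p n : ℕ} (hp : p.Prime) (hn : n ≠ 0) :
    ∑ q ∈ n.primeFactors, fm t c p q =
      (if p ∣ n then 1 else 0) * ∑ τ, c p τ * wv τ + off t p n := by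
  have e : off t p n = ∑ q ∈ n.primeFactors.erase p, fm t c p q :=
    sum_congr rfl fun q hq => by rw [fm, if_neg (mem_erase.1 hq).1.symm]
  split_ifs with h
  · rw [← add_sum_erase _ _ (Nat.mem_primeFactors.2 ⟨hp, h, hn⟩), e, one_mul, fm, if_pos rfl]
  · rw [e, erase_eq_of_notMem fun e => h (Nat.dvd_of_mem_primeFactors e), zero_mul, zero_add]

end Pool.Agent.MP_e23604_nt.U.AJ

end
end
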