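import Pool.Agent.Mg.Fe23604m.Gdcefba
import Pool.Agent.Mg.Fe23604m.Gd29762
import Pool.Agent.Mg.Fe23604m.G160902
import Pool.Agent.Mg.Fe23604m.G3a9098
import Pool.Agent.Mg.Fe23604m.G81b338
import Pool.Agent.Mg.Fe23604m.G82a033

set_option linter.all false

section

/-!
The comparison of the two sums, commutators, and the sum over the lines.
-/

set_option autoImplicit false

open Finset QuadraticAlgebra
open scoped Classical

namespace Pool.Agent.MP_e23604_nt.M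

open B R S W V X N

theorem nine_BR : 3 * pw ∣ 9 := ⟨-pw, by decide⟩

theorem fix_BR (Q : QS) {M : Zw} {n : Finset ℕ} (hn : Pn n) {h : GQ} (hh : N.H1 M n h)
    (i : N.JJ) : eta (Q.χ (N.sd n)) h (Q.z (N.Cn n i)) = Q.z (N.Cn n i) := by
  rw [Q.za _ _ (CN_ok n i hn).2.1 h hh.1.1,
    (Q.e0 h hh.1.1).2 (UM_mono (nine_BR.mul_right M) hh.1), (CN_ok n i hn).2.2.2.1 h hh.1.1,
    ZMod.val_zero, zero_smul, sub_zero]
  exact congrArg Q.z (Cn_KT fun l hl => by rw [Pi.add_apply, Av, hh.2 l hl, add_zero])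

theorem BR_pf : BR_st := by
  intro Q R _ φ
  refine ⟨fun M w n hM h0 hn h hh => ⟨fix_BR Q hn hh, ?_⟩, fun h0 M' hM' => ?_⟩
  · obtain ⟨-, -, -, -, k1, k2, -, -, k3⟩ := KT_ok Q.toHS R φ M w n hM h0 hn
    have k4 := k2 pw h (k1 h hh).1
    rw [(k3 h k4).2.1, QS.kq, mul_sum]
    refine sum_congr rfl fun i _ => ?_
    rw [Q.pz, (((DL_ok R φ M hM h0).2.2.2.2.2.2.2.2 _ h hh.1.1).2.2 k4.2.1).2.2.2.1 pw _
      (fix_BR Q hn hh _), mul_left_comm]
  · have hN := mul_ne_zero hM' pw_ne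
    obtain ⟨-, -, -, -, -, -, -, d1, d2⟩ := DL_ok R φ pw pw_ne h0
    obtain ⟨-, d3, -, -, -, -, -, -, d4⟩ := DL_ok R φ _ hN (by rw [map_mul, h0, mul_zero])
    obtain ⟨v, hv, d1⟩ := d1 M' hM'
    refine ⟨v, hv, fun w n hn h hh => ?_⟩
    have hg := hh.1.1
    rw [QS.kq, QS.kq, mul_sum]
    refine sum_congr rfl fun i _ => ?_
    rw [mul_left_comm, ((d2 _ h hg).2.2 (fix_SPL _ hg)).2.1 _
      (M' • dv (M' * pw) (Q.z (N.Cn n i.1))) (fix_BR Q hn hh _)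
      (by rw [← mul_smul, mul_comm pw, d3]), dl, d1 _ ((d4 _ h hg).2.1 _ (fix_BR Q hn hh _)),
      smul_sub, eta_smul _ hg]

theorem COM_pf : COM_st := by
  intro R _ φ χ P τ g h0 hA hτ c0 hg h1 h2
  obtain ⟨-, d1, -, -, -, -, -, -, d2⟩ := DL_ok R φ pw pw_ne h0
  have t := hτ.1
  have t' := GK.inv_mem t
  have g' := GK.inv_mem hg
  have iv : ∀ x ∈ GK, ∀ S, eta χ x (eta χ x⁻¹ S) = S := fun x hx S => by
    rw [← eta_mul hA hx (GK.inv_mem hx), mul_inv_cancel, eta_one hA]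
  rw [((d2 χ g hg).2.2 (fix_SPL _ hg)).2.1 _ (eta χ τ⁻¹ (dv pw P) - dv pw P) h2
    (by rw [smul_sub, ← eta_smul _ t', d1]), dl]
  have e := d1 P
  generalize dv pw P = P' at e
  have a1 : (3 : Zw) • (eta χ g⁻¹ P' - P') = 0 := by
    refine dvd_smul (a := pw * pw) ?_ ⟨-1, by decide⟩
    have := fix_SPL χ g' _ h1
    rw [map_sub, ← eta_mul hA g' hg, inv_mul_cancel, eta_one hA] at this
    rw [mul_smul, smul_sub pw (eta χ g⁻¹ P'), ← eta_smul _ g', e, ← neg_sub, this, smul_neg, h1,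
      neg_zero]
  have a2 : eta χ τ⁻¹ (eta χ g⁻¹ P' - P') = eta χ g⁻¹ P' - P' := by
    rw [eta_apply χ τ⁻¹, inv_KT hA t, c0, neg_zero, ZMod.val_zero, pow_zero, one_smul,
      ((UM 3).inv_mem hτ).2 _ a1]
  have a3 := fix_SPL χ t (eta χ g (eta χ τ⁻¹ P' - P') - (eta χ τ⁻¹ P' - P')) (by
    rw [smul_sub, ← eta_smul _ hg, smul_sub, ← eta_smul _ t', e, h2, sub_self])
  rw [← a3, eta_mul hA (mul_mem (mul_mem t hg) t') g', eta_mul hA (mul_mem t hg) t',
    eta_mul hA t hg, eq_add_of_sub_eq ((map_sub _ _ _).symm.trans a2)]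
  simp only [map_sub, map_add, iv g hg, iv τ t]
  congr 2
  abel

theorem TLQ_pf : TLQ_st := by
  intro Q ε C l hC hl l9 hd
  have l3 : l % 3 = 2 := by omega
  refine ((PI_ok.1 _).1 (Q.zt ε C l hC hl l3 hd)).resolve_left fun s0 => ?_
  obtain ⟨V, rfl⟩ : ∃ V : Plc, V.l = l := ⟨@Plc.mk l ⟨hl⟩ 1, rfl⟩
  obtain ⟨hp, hV, -, ⟨f, hf⟩, h⟩ := FRI_ok V l3
  obtain ⟨a1, a2, a3, a4, a5⟩ := h f hf
  obtain ⟨u, hu, hz⟩ := Q.zc ε V f l3 hf
  have hσ : f * f ∈ GK := a2.1.2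
  have fr := ((FRB_ok V _ hp hV).2 _ a2).2
  have n3 : ¬ Ov V 3 := fun e => by
    have := (Nat.prime_dvd_prime_iff_eq hl Nat.prime_three).1 ((PLK_ok.2.2.2.1 V 3).1 e)
    omega
  have : Finite C := Nat.finite_of_card_ne_zero fun e => hC.1 (by rw [← hC.2, e, Nat.cast_zero])
  have b1 : Q.χ ε (f * f) = 0 := by
    have e := Q.anti ε f a1 _ hσ
    rw [show f * (f * f) * f⁻¹ = f * f by group] at e
    generalize Q.χ ε (f * f) = x at e
    revert x
    decide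
  have b2 : N.ga (f * f) C = C := by
    refine AddSubgroup.eq_of_le_of_card_ge ?_ (card_KT _ C).ge
    rintro _ ⟨P, hP, rfl⟩
    have e : ((Nat.card C : ℕ) : Zw) • P = 0 := by
      rw [Nat.cast_smul_eq_nsmul]
      exact congrArg Subtype.val (card_nsmul_eq_zero' (x := (⟨P, hP⟩ : C)))
    rw [fr _ P (fun e => hd ((PLK_ok.2.2.2.1 V _).1 e)) e, neg_smul, Nat.cast_smul_eq_nsmul]
    exact C.neg_mem (C.nsmul_mem hP _)
  have b3 := Q.za ε C hC _ hσ
  rw [b2, eta_apply, b1, ZMod.val_zero, pow_zero, one_smul] at b3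
  have b4 := (E1m (a3 _ (a4 (Q.z C))) u).1
  rw [b3, Nat.cast_smul_eq_nsmul, sub_add_eq_add_sub, ← succ_nsmul', map_sub, map_nsmul, smul_sub,
    smul_comm, show V.l + 1 = ml V.l by rw [ml, if_pos l3]] at b4
  have b5 := sum_KT univ fun i _ => hz C hC hd i
  rw [sum_sub_distrib, sum_const, card_univ, ZMod.card, s0] at b5
  have b6 := E1a b5 b4
  rw [sub_add_sub_cancel, zero_sub] at b6
  have b7 := a5 3 _ n3 (by
    rw [smul_neg, smul_comm, map_nsmul, smul_comm (3 : Zw), ← star_star (3 : Zw), ← gal_star a1,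
      star_ofNat, three_T0, map_zero, smul_zero, smul_zero, neg_zero]) b6
  rw [neg_eq_zero, unit_smul hu, gal_ne, ← Nat.cast_smul_eq_nsmul Zw, Gen_T0, pw_dvd_iff] at b7
  have b8 : Q.e (f * f) = 0 := by
    generalize Q.e (f * f) = x at b7
    revert x
    decide
  have m0 : 3 * pw ≠ 0 := by decide
  obtain ⟨-, -, -, p1, p2, -⟩ := (PS_ok _ m0).1 _ hσ
  have b9 := dvd_sub ((p2 _).1 fun P => fr _ P fun e => n3 ((Ov_mul.1 e).elim id Ov_three.2))
    (p1.1 ((Q.e0 _ hσ).1 b8))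
  obtain ⟨k, hk⟩ : ∃ k, V.l = 9 * k + 2 := ⟨V.l / 9, by omega⟩
  have := dvd_sub b9 (nine_BR.mul_right k)
  rw [hk, show ∀ x : Zw, x - -((9 * k + 2 : ℕ) : Zw) - (x - 1) - 9 * k = 3 * 1 from fun x => by
    push_cast; ring, mul_dvd_mul_iff_left (by decide)] at this
  exact pw_prime.not_dvd_one this

end Pool.Agent.MP_e23604_nt.M

end

section

/-!
The third family of Heegner points is a system of points with division points.
-/

set_option autoImplicit false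

open Finset QuadraticAlgebra
open scoped Classical

namespace Pool.Agent.MP_e23604_nt.M

open B R S W Un Un.HN Un.NC AddSubgroup

theorem ex_HSM {P : Pt} (hP : G9 P) {g : GQ} (hg : g ∈ GK) :
    ∃ e : ZMod 3, gal g P = 4 ^ e.val • P := by
  have M0 : (3 * pw : Zw) ≠ 0 := mul_ne_zero (by decide) pw_ne
  obtain ⟨h1, -, h2, -⟩ := (PS_ok _ M0).1 g hg
  obtain ⟨c, hc⟩ := h2 (dvd_mul_right _ _)
  have k : ∀ e : ZMod 3, 3 * pw ∣ ps (3 * pw) g - (4 ^ e.val : ℕ) → gal g P = 4 ^ e.val • P :=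
    fun e h => by rw [h1 P hP.zero, smul_congr hP.zero h, Nat.cast_smul_eq_nsmul]
  have p3 : pw * pw = -3 := by decide
  rcases mod_pw c with ⟨d, hd⟩ | ⟨d, hd⟩ | ⟨d, hd⟩
  · exact ⟨0, k 0 ⟨d, by
      rw [show ((4 ^ (0 : ZMod 3).val : ℕ) : Zw) = 1 by decide]
      linear_combination hc + 3 * hd⟩⟩
  · exact ⟨1, k 1 ⟨d, by
      rw [show ((4 ^ (1 : ZMod 3).val : ℕ) : Zw) = 4 by decide]
      linear_combination hc + 3 * hd⟩⟩
  · exact ⟨2, k 2 ⟨d + 2 * pw, by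
      rw [show ((4 ^ (2 : ZMod 3).val : ℕ) : Zw) = 16 by decide]
      linear_combination hc + 3 * hd - 6 * p3⟩⟩

theorem zero_HSM {P : Pt} (hP : G9 P) {e : ZMod 3} (h : P = 4 ^ e.val • P) : e = 0 := by
  have := nn_dvd (hP.congr.1 (show (1 : Zw) • P = ((4 ^ e.val : ℕ) : Zw) • P by
    rw [one_smul, Nat.cast_smul_eq_nsmul, ← h]))
  clear h
  revert e
  decide

theorem pow_HSM (hV : VV_st) (hG : MGAL_st) {P : Pt} (hP : G9 P) {C : AddSubgroup Pt} (hC : ND C)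
    (i : ℕ) : mq (4 ^ i • P) C = mq P C - i • T0 := by
  induction i with
  | zero => rw [pow_zero, one_smul, zero_smul, sub_zero]
  | succ i ih =>
    rw [pow_succ', mul_smul, (hG C _ hC ((hV.2 P hP).2.1 _ fun e =>
      absurd (Nat.prime_three.dvd_of_dvd_pow e) (by decide))).2.1, ih, succ_nsmul, sub_sub]

theorem mC_HSM {g : GQ} (hg : g ∈ GK) (b : Zw) {C : AddSubgroup Pt} (h : C.map (gal g) = C) :
    (mC b C).map (gal g) = mC b C := by
  conv_rhs => rw [← h]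
  rw [mC, mC, AddSubgroup.map_map, AddSubgroup.map_map]
  congr 1
  ext P
  exact gal_smul hg b P

theorem qC_HSM {g : GQ} (hg : g ∈ GK) (b : Zw) {C : AddSubgroup Pt} (h : C.map (gal g) = C) :
    (qC b C).map (gal g) = qC b C := by
  ext T
  constructor
  · rintro ⟨S, hS, rfl⟩
    rw [mem_qC, ← gal_smul hg, ← h]
    exact ⟨_, hS, rfl⟩
  · intro hT
    rw [mem_qC, ← h] at hT
    obtain ⟨U, hU, e⟩ := hT
    have e1 : gal g (gal g⁻¹ T) = T := by rw [← W.gal_mul, mul_inv_cancel, W.gal_one]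
    refine ⟨gal g⁻¹ T, ?_, e1⟩
    rwa [SetLike.mem_coe, mem_qC, gal_inj g (show gal g (b • gal g⁻¹ T) = gal g U by
      rw [gal_smul hg, e1, e])]

/-- the system of points -/
theorem HSM_of (hV : VV_st) (hQ : TQ_st) (hG : MGAL_st) (hC : MCONG_st) (hK : MKW_st)
    (hT : MTL_st) (K : N.KIT_st) (hA : N.AL_st) (hW : X.KW_st) : HSM_st := by
  have td := tdt_SKAP (r := 3) three_ne_zero
  obtain ⟨P, hP⟩ := hV.1
  have M0 : (3 * pw : Zw) ≠ 0 := mul_ne_zero (by decide) pw_ne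
  let e : GQ → ZMod 3 := fun g => Classical.epsilon fun e : ZMod 3 => gal g P = 4 ^ e.val • P
  have he : ∀ g ∈ GK, gal g P = 4 ^ (e g).val • P := fun g hg =>
    Classical.epsilon_spec (ex_HSM hP hg)
  have fac : ∀ g ∈ UM 9, kum 3 g = 0 := fun g hg => by
    have := FAC_ok 3 1 three_ne_zero one_ne_zero (fun l hl l3 d => absurd (by
      rw [Nat.prime_three.factorization, Finsupp.single_eq_of_ne l3]
      exact dvd_zero 3) d) g (by simpa using hg)
    rwa [Nat.cast_ofNat] at this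
  have za : ∀ ε C, N.Fo ε C → ∀ g ∈ GK, eta (fun g => (2 - ε) * kum 3 g) g (mq P C) =
      mq P (N.ga g C) - (e g).val • T0 := fun ε C h g hg => by
    obtain ⟨c, e1⟩ := fo_nd h
    rw [eta_apply, (hG C P c hP).2.2.2.2.2.2 g hg, ← mul_smul, ← pow_add, ← w_val, ← e1,
      Nat.cast_add, Nat.cast_mul, ZMod.natCast_zmod_val, ZMod.natCast_zmod_val, Nat.cast_succ,
      show (2 - (cd C : ZMod 3)) * kum 3 g + (cd C + 1) * kum 3 g = 3 * kum 3 g by ring,
      show (3 : ZMod 3) = 0 from rfl, zero_mul, ZMod.val_zero, pow_zero, one_smul, he g hg,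
      pow_HSM hV hG hP (map_nd c fun T _ => (gal_ne g).1).1]
    rfl
  have zt : ∀ ε C (l : ℕ), N.Fo ε C → l.Prime → l % 3 = 2 → ¬ l ∣ Nat.card C →
      pw • ∑ i, mq P (C ⊔ N.Ln l i) = 0 := fun ε C l h hl h3 n => by
    obtain ⟨R, h1, h2⟩ := kit_inert (K l hl (by omega)) hl h3
    have c := (fo_nd h).1
    have n' : ¬ l ∣ cd C := cd_eq c.fin ▸ n
    have := hT P C l _ hP c hl h3 n' (h1.nbs hl c.fin n')
    rw [sum_image h1.inj'.injOn] at this
    simpa only [(h2 _).2] using this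
  have zc : ∀ ε (V : Plc) (f : GQ), V.l % 3 = 2 → Frob V.l V.γ f → ∃ u : Zw, IsUnit u ∧
      ∀ C, N.Fo ε C → ¬ V.l ∣ Nat.card C → ∀ i,
        E1 V.v (mq P (C ⊔ N.Ln V.l i) - u • gal f (mq P C)) := fun ε V f h3 hf => by
    obtain ⟨u, hu, k⟩ := hC P V f hP h3 hf ε
    obtain ⟨R, -, h2⟩ := kit_inert (K V.l V.hl.out (by omega)) V.hl.out h3
    exact ⟨u, hu, fun C h n i =>
      (h2 i).2 ▸ k C (fo_nd h).1 (fo_nd h).2 (cd_eq (fo_nd h).1.fin ▸ n) _ (h2 i).1⟩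
  refine ⟨⟨⟨fun C => pw • mq P C, fun ε g => (2 - ε) * kum 3 g, fun _ => 0, 0,
    fun ε g hg h _ => ?_, fun ε g hg => ?_, fun ε c hc g hg => ?_, fun ε C h g hg => ?_,
    fun ε C h => ?_, fun ε C l h hl h3 n => ?_, fun ε V f h3 hf => ?_⟩, mq P, e, fun _ => rfl,
    fun _ => rfl, fun g _ => ?_, fun g _ => ?_, fun g hg => ⟨fun h => ⟨hg, fun S hS => ?_⟩,
      fun h => zero_HSM hP ((h.2 P hP.zero).symm.trans (he g hg))⟩, za,
    fun ε C h => (hG C P (fo_nd h).1 hP).2.2.2.2.1, zt, zc, fun ε C h => ?_,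
    fun ε C p h pp hp n g hg gC gp => ?_⟩⟩
  · beta_reduce
    rw [td g trivial h trivial, ep_pos hg, one_mul, mul_add]
  · rw [fac g hg, mul_zero]
  · have e1 := td 1 trivial 1 trivial
    have e2 := td c trivial c⁻¹ trivial
    rw [mul_one, ep_pos GK.one_mem] at e1
    rw [mul_inv_cancel, ep_neg hc] at e2
    rw [mul_assoc, td c trivial _ trivial, td g trivial _ trivial, ep_neg hc, ep_pos hg]
    linear_combination (ε - 2) * (e1 + e2)
  · rw [eta_smul _ hg, za ε C h g hg, smul_sub, smul_comm pw _ T0, pw_T0, smul_zero, sub_zero]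
  · rw [ZMod.val_zero, pow_zero, one_smul, zero_smul, add_zero]
    exact congrArg (pw • ·) (hG C P (fo_nd h).1 hP).2.2.2.2.1
  · rw [← smul_sum, zt ε C l h hl h3 n, smul_zero]
  · obtain ⟨u, hu, k⟩ := zc ε V f h3 hf
    by_cases c : f ∈ GK
    · refine ⟨u, hu, fun C h n i => ?_⟩
      rw [gal_smul c, smul_comm u, ← smul_sub]
      exact (E1m (k C h n i) pw).1
    · refine ⟨-u, hu.neg, fun C h n i => ?_⟩
      rw [gal_star c, star_pw, neg_smul, neg_smul, smul_neg, neg_neg, smul_comm u, ← smul_sub]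
      exact (E1m (k C h n i) pw).1
  · show (2 - 1) * kum 3 g = kum 3 g
    rw [show (2 - 1 : ZMod 3) = 1 by decide, one_mul]
  · show (2 - 2) * kum 3 g = 0
    rw [sub_self, zero_mul]
  · obtain ⟨u, rfl⟩ := (CYG_ok _ M0).2.1 P hP S hS
    rw [gal_smul hg, he g hg, h, ZMod.val_zero, pow_zero, one_smul]
  · exact (hQ _ _ _ _ (hG C P (fo_nd h).1 hP).1).2.2.2.1
  · have p1 := nn_mod3 pp.2.pw
    obtain ⟨R, h1, h2, h3⟩ := kit_split (K _ hp (by omega)) pp hp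
    obtain ⟨s, s1, s2⟩ := hW.2.2.2.1
    have c := (fo_nd h).1
    have nb := h1.nbs hp c.fin (cd_eq c.fin ▸ n)
    have gC' : C.map (gal g) = C := gC
    have cv : ∀ D, ND D → D.map (gal g) = D →
        km 3 g (yc (mq P D)) = s * X.kw (yc (mq P D)) g := fun D d gD => by
      obtain ⟨-, -, q1, -, q2, -, q3, -⟩ := hQ _ _ _ _ (hG D P d hP).1
      refine s2 g hg.1 _ (q1.trans_ne (div_ne_zero q2 q3)) ?_
      rw [← (xc_gal g _).2, (hG D P d hP).2.2.2.2.2.2 g hg.1, fac g hg, ZMod.val_zero, mul_zero,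
        pow_zero, one_smul, gD, hg.2 P (dvd_smul hP.zero ⟨-pw, by decide⟩)]
    have st : ∀ i, (C ⊔ N.Ln (nn p) i).map (gal g) = C ⊔ N.Ln (nn p) i := fun i => by
      rw [AddSubgroup.map_sup, gC']
      exact congrArg (C ⊔ ·) (by
        simpa only [gp, add_zero, N.ga] using ((hA _ hp (by omega)).2.2.2.1 g hg.1).1 i)
    have k := (hK P g hP hg).2 C _ _ c hp p1 nb gC' fun S hS => by
      obtain ⟨o, -, rfl⟩ := mem_image.1 hS
      rcases o with _ | _ | i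
      · rw [(h3 C).2, qC_HSM hg.1 _ (mC_HSM hg.1 _ gC')]
      · rw [(h3 C).1, qC_HSM hg.1 _ (mC_HSM hg.1 _ gC')]
      · rw [← h2, st]
    have q : ∀ {b : Zw}, Pry b → km 3 g (yc (mq P (qC b (mC b C)))) =
        s * X.kw (yc (mq P (N.sm b C))) g := fun {b} hb =>
      ((hK P g hP hg).1 b _ hb (nd_mC c b).1 (mC_HSM hg.1 _ gC')).trans
        (cv _ (nd_mC c b).1 (mC_HSM hg.1 _ gC'))
    rw [sum_image h1.inj'.injOn, Fintype.sum_option, Fintype.sum_option, (h3 C).1, (h3 C).2,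
      q pp.2, q pp.2.star, cv C c gC', sum_congr rfl fun i _ => by
        rw [← h2, cv _ (h2 i ▸ ((NPR_pf C _ _ c hp (by omega) nb).2.1 _
          (mem_image_of_mem R (mem_univ (some (some i))))).1) (st i)], ← mul_sum] at k
    generalize ∑ i, X.kw (yc (mq P (C ⊔ N.Ln (nn p) i))) g = x at k ⊢
    linear_combination s * k - (x + X.kw (yc (mq P (N.sm p C))) g +
      X.kw (yc (mq P (N.sm (star p) C))) g - 2 * X.kw (yc (mq P C)) g) * s1

end Pool.Agent.MP_e23604_nt.M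

end

section

/-!
The residual classes of a system with division points form a system.
-/

set_option autoImplicit false

open Finset QuadraticAlgebra
open scoped Classical

namespace Pool.Agent.MP_e23604_nt.M

open B R S W V X N

theorem lam_KQ {R : Type} [CommRing R] {φ : Zw →+* R} (h : φ pw = 0) (χ : GQ → ZMod 3) {g : GQ}
    (hg : g ∈ GK) : lamZ φ χ pw g = 1 := by
  have h2 : g ∈ UM pw := ⟨hg, fun P e => PI_ok.2.2.2.2 g hg P (dvd_smul e pw_dvd3)⟩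
  rw [lamZ, map_mul, map_pow, phi_w h, one_pow, one_mul,
    dvd_KS φ h (((PS_ok pw pw_ne).1 g hg).2.2.2.1.1 h2), map_one]

theorem wp_KQ {R : Type} [CommRing R] (φ : Zw →+* R) (f : Fn) (q e : ℕ) (γ : R) (S : Finset ℕ)
    (b : N.JJ) : wp (uu φ f ∅ q e γ) (insert q S) b = γ ^ ((b q).val % 3 ^ e) := by
  rw [wp, prod_eq_single_of_mem q (mem_insert_self _ _) fun l _ hl => by simp [uu, hl]]
  simp [uu]

theorem dq_KQ {Λ : Type} [CommRing Λ] (Z : Dt Λ) (Q : QS) (n : ℕ) (S : Finset ℕ) (b : Ideal Λ)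
    (g : GQ) : Ideal.Quotient.mk b (dq Z Q n S g) =
      Q.dc (pq_KS Z b true) (wv (pq_KS Z b true) 0 ∅ (Z.q n) n (Ideal.Quotient.mk b (1 + Z.E.T)))
        (insert (Z.q n) S) (Z.K.τ (-Z.q n)) g := by
  rw [dq, QS.dc, kq_map, wv_map]
  rfl

theorem KQ_pf (hR : RK_st) (hL : LOQ_st) (hAL : AL_st) (hF : FRI_st) (hTF : N.TRF_st)
    (hW : WT_st) (hLO : LO_st) (hFA : FAM_st) : KQ_st := by
  intro Λ _ Z Q f hk
  obtain ⟨-, F, fq, -, un⟩ := hFA Λ Z Q.toHS f hk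
  have lv := fun n S hS => lv_KS hAL hF hW hFA hk F n (S := S) hS
  have z : ∀ n ε, pq_KS Z (Z.pn n) ε pw = 0 := fun n ε =>
    Ideal.Quotient.eq_zero_iff_mem.2 (F.mb n ε)
  have cd : ∀ n S, cd_KS Z 1 n S = insert (Z.q n) S := fun n S => by
    rw [cd_KS, Nat.primeFactors_one, empty_union]
  have sw : ∀ n S (_ : ∀ l ∈ S, Z.ok n l ∨ l ∈ Bn Z.r), Sw (insert (Z.q n) S) ∅ (Z.q n) n
      (Ideal.Quotient.mk (Z.pn n) (1 + Z.E.T)) := fun n S hS =>
    ⟨cd n S ▸ (lv n S hS).pn, mem_insert_self _ _, notMem_empty _,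
      ((pow_dvd_pow 3 (by omega)).trans (dvd_mul_right _ _)).trans (hk.ok.qd n), by
        rw [← map_pow, ← map_one (Ideal.Quotient.mk (Z.pn n))]
        exact Ideal.Quotient.eq.2 (F.le n (fq n).2.2),
      fun l hl _ h2 => mod_KS (F.pr n l (hS l ((mem_insert.1 hl).resolve_left h2))).2.1⟩
  have um : ∀ n k, Z.K.τ (-Z.q n) ∈ UM (3 ^ k) := fun n k => by
    obtain ⟨V, -, v1, -, -, v2⟩ := pl_KS hF hk.ok.pk (hk.ok.qp n) (fq n).1
    have v3 : ¬ Ov V 3 := fun e => by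
      have := (PLK_ok.2.2.2.1 V 3).1 (by simpa using e)
      rw [v1, Nat.prime_dvd_prime_iff_eq (hk.ok.qp n) Nat.prime_three] at this
      have := (fq n).1
      omega
    exact (INE_ok V v3 _ v2).2.2 _ fun a => v3 (Ov_pow a)
  have rk := fun n S hS => (hR Q _ (pq_KS Z (Z.pn n) true) 0 _ ∅ _ n _ (z n true) (sw n S hS)).2 _
    (by have := um n 3; norm_num at this; exact this)
  have th : ∀ n S (_ : ∀ l ∈ S, Z.ok n l ∨ l ∈ Bn Z.r), ∀ g ∈ GK,
      Ideal.Quotient.mk (Z.pn n) (Z.th (Z.sr S) n g) = Ideal.Quotient.mk (Z.pn n) (Z.ga n g) :=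
    fun n S hS g hg => by rw [(lv n S hS).lam g hg, lam_KQ (z n _) _ hg, one_mul]
  have co : ∀ n S (_ : ∀ l ∈ S, Z.ok n l ∨ l ∈ Bn Z.r), ∀ g ∈ GK, ∀ h ∈ GK,
      Ideal.Quotient.mk (Z.pn n) (dq Z Q n S (g * h)) = Ideal.Quotient.mk (Z.pn n) (dq Z Q n S g) +
        Ideal.Quotient.mk (Z.pn n) (Z.ga n g) * Ideal.Quotient.mk (Z.pn n) (dq Z Q n S h) :=
    fun n S hS g hg h hh => by
      have := (rk n S hS).1.2 g hg h hh
      beta_reduce at this
      rw [wp_KQ] at this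
      rw [dq_KQ, dq_KQ, dq_KQ, this, Dt.ga, hk.att, ZMod.val_natCast, map_pow]
      rfl
  refine ⟨fun n S hS => ⟨⟨?_, fun g hg h hh => ?_⟩, ?_⟩, fun n S hS => ?_, fun n S hS => ?_,
    fun n S hS l hl => ?_, fun n S l hS hl hn => ?_⟩
  · simp only [dq_KQ]
    exact (rk n S hS).1.1
  · beta_reduce
    rw [th n S hS g hg, co n S hS g hg h hh]
  · rintro g ⟨V, hV, hg⟩
    rw [Ov_mul, not_or, PLK_ok.2.2.2.1] at hV
    rw [← Ideal.Quotient.eq_zero_iff_mem, dq_KQ]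
    refine (rk n S hS).2.2.1 V (fun e => hV.1 ?_) (fun e => hV.2 ?_) g hg
    · simpa using (PLK_ok.2.2.2.1 V 3).2 (e ▸ dvd_rfl)
    · rcases mem_insert.1 e with e | e
      · exact e ▸ (dvd_mul_left _ _).mul_right _
      · exact (dvd_prod_of_mem (fun l => l) e).mul_left _
  · rw [← Ideal.Quotient.eq_zero_iff_mem, dq_KQ, (rk n S hS).2.1]
  · obtain ⟨D, d1, d2, d3, -, d5⟩ := hLO Λ Z Q.toHS f hk
    refine ⟨pw, F.md n, F.mb n _, ?_⟩
    refine hTF _ (pq_KS Z (Z.pn n) (Z.sr S)) _ _ _ D _ pw_ne (z n _) (un _).1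
      (hk.ok.tw _).add V3.D_le d1 d2 (fun g hg h hh => ?_) ?_
    · rw [co n S hS g (V3.D_le hg) h (V3.D_le hh), lam_KQ (z n _) _ (V3.D_le hg), Dt.ga,
        (d5 g hg).1, ZMod.val_zero, pow_zero, map_one]
    · simp only [dq_KQ]
      rw [phi_uniq (z n (Z.sr S)) (z n true)]
      refine kum_KS (fun g hg => ?_) (hL Q _ _ _ _ D (kum 2) (z n true) (sw n S hS).pn
        (d1.trans V3.D_le) (fun g hg l hl => d3 g hg l ((sw n S hS).pn l hl).1
          ((sw n S hS).pn l hl).2) _ (by have := um n 2; norm_num at this; exact this)).2.2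
      rw [(d5 g (d1 hg)).2, Q.j0, zero_mul, sub_zero, ← F.sd n S hS, ← cd]
  · obtain ⟨a1, a2, -, a4⟩ := F.pr n l (hS l hl)
    have a3 := mod_KS a2
    obtain ⟨V, φ, rfl, v1, v2, -⟩ := pl_KS hF hk.ok.pk a1 a3
    rw [← Ideal.Quotient.eq_zero_iff_mem, dq_KQ, v2]
    exact ((rk n S hS).2.2.2 V φ a3 v1 a4 (notMem_empty _)
      ((lv n S hS).al _ a1 (by omega) a4)).1 (mem_insert_of_mem hl)
  · obtain ⟨a1, a2, -, a4⟩ := F.pr n l hl
    have a3 := mod_KS a2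
    have a5 := hk.tau l a1 a3
    obtain ⟨V, φ, rfl, v1, v2, v3⟩ := pl_KS hF hk.ok.pk a1 a3
    obtain ⟨v, hv, e⟩ := ((rk n S hS).2.2.2 V φ a3 v1 a4 (notMem_empty _)
      ((lv n S hS).al _ a1 (by omega) a4)).2 (fun e => (mem_insert.1 e).elim a4 hn) _ v3 a5
    obtain ⟨v', h1, rfl⟩ := (un _).2 v hv
    refine ⟨v', h1, Ideal.Quotient.eq.1 ?_⟩
    rw [map_mul, dq_KQ, dq_KQ, insert_comm, e, v2]

end Pool.Agent.MP_e23604_nt.M

end
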