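import Pool.Agent.Mg.Fe23604m.G256ad4
import Pool.Agent.Mg.Fe23604m.G22a48b

set_option linter.all false

set_option autoImplicit false

open Finset Filter QuadraticAlgebra
open scoped Classical

namespace Pool.Agent.MP_e23604_nt.PH

open B R S W V

theorem lev_PnExc (hV : HV) (hC : COO_st) {Λ : Type} [CommRing Λ] (Z : Mx Λ) (ε : Bool) {A : Finset JJ} (x : JJ →₀ Λ) {n : ℕ}
    {b : Ideal Λ} (hZ : Z.Ok) (hA : Z.Ad A) (hG : Z.Gd A n) (hb : Z.E.m ^ n ≤ b)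
    (hq : x Z.qg ∈ b) (h3 : Z.E.ι pw ∈ b)
    (hr : ∀ ϖ ∈ V.Tr Z.r, (1 - Z.th ε n (Z.K.τ ϖ)) * sv_MEXS Z ε A x n (Z.K.σ ϖ) +
      (Z.th ε n (Z.K.σ ϖ) - ∑ i ∈ range (nn ϖ), Z.th ε n (Z.K.τ ϖ) ^ i) * x (cs ϖ) ∈ b) :
    ∃ f, Zf (Z.th ε n) (Rn A n) b f ∧ ∀ j ∈ A, f (Z.gj j n) - x j ∈ b := by
  have h0 := hZ.toOk0
  have hD := h0.toOk
  obtain ⟨-, -, -, -, -, a1, a2⟩ := hV.THA Λ Z.toDt n hD
  obtain ⟨hch, hmu, hth, -⟩ := a1 ε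
  obtain ⟨hfin, -, hnil⟩ := a2 b hb
  obtain ⟨-, -, b3, b5, -, b6⟩ := hV.THB Λ Z.toDt n hD
  obtain ⟨-, -, b8, -⟩ := b6 ε
  obtain ⟨-, -, -, -, t5⟩ := hV.TRM Z.r (hD.tw ε).sf.ne_zero (hD.tw ε).n3
  set π := Ideal.Quotient.mk b
  have z0 : ∀ {a}, π a = 0 ↔ a ∈ b := Ideal.Quotient.eq_zero_iff_mem
  have z1 : ∀ a ∈ Z.E.m ^ n, π a = 0 := fun a h => z0.2 (hb h)
  have z2 : ∀ {a}, a - 1 ∈ Z.E.m ^ n → π a = 1 := fun h => by
    simpa [sub_eq_zero] using z1 _ h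
  have z3 : ∀ l : ℕ, 3 ^ (n + 3) * Z.r ∣ l + 1 → (l : Λ ⧸ b) + 1 = 0 := by
    rintro l ⟨c, hc⟩
    have h1 := z1 _ (Ideal.pow_mem_pow Z.E.three_mem n)
    have h2 := congrArg (Nat.cast : ℕ → Λ ⧸ b) hc
    rw [map_pow, map_ofNat] at h1
    push_cast at h2
    rw [h2, pow_add, h1, zero_mul, zero_mul, zero_mul]
  have n3 : IsNilpotent (3 : Λ ⧸ b) := map_ofNat π 3 ▸ hnil 3 Z.E.three_mem
  have hu : ∀ g ∈ GK, IsNilpotent (π (Z.th ε n g) - 1) := fun g hg => by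
    simpa using hnil _ (hth g hg).1
  obtain ⟨X, hX⟩ : ∃ X : Bool ⊕ Zw → Λ, ∀ j ∈ A, X (jn n j) = x j :=
    ⟨fun i => x (Function.invFunOn (jn n) A i), fun j hj =>
      congrArg x (hG.inj.leftInvOn_invFunOn hj)⟩
  obtain ⟨-, -, -, -, ha, l1⟩ := (hC Λ Z h0).2.2.2 b h3
  replace ha := ha (sv_MEXS Z ε A x n)
  set a := cx Z (sv_MEXS Z ε A x n)
  have hκ := (l1 ε n).2.1 a
  have hm : Tm (Tn A n) Z.K.V Z.K.σ Z.K.τ := fun ϖ h => ⟨hG.pp ϖ h, hD.pk.tm ϖ (hG.pp ϖ h)⟩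
  have hqT := hG.sub (mem_insert_self _ _)
  have hqA : Z.qg ∈ A := hA.1 (mem_insert_self _ _)
  have hcA : ∀ ϖ ∈ V.Tr Z.r, cs ϖ ∈ A := fun ϖ h =>
    hA.1 (mem_insert_of_mem (mem_union_right _ (mem_image_of_mem _ h)))
  have hun : Unr (3 * ∏ ϖ ∈ Tn A n, ϖ) fun g => π (Z.th ε n g) - 1 := fun W hW τ hτ => by
    refine sub_eq_zero.2 (z2 (hch.2 τ (b3 W (fun e => hW ?_) hτ)))
    rw [Nat.cast_mul, ← mul_assoc, Ov_mul, ← t5] at e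
    rcases e with e | e
    · exact e.dvd (mul_dvd_mul_left _ (prod_dvd_prod_of_subset _ _ _
        ((subset_insert _ _).trans hG.sub)))
    · exact e.dvd ((dvd_neg.2 dvd_rfl).trans ((dvd_prod_of_mem _ hqT).mul_left _))
  have hU : ∀ (R' : Type) [CommRing R'] (π' : Λ ⧸ b →+* R') (c : GQ → R'),
      Co (fun g => π' (π (Z.th ε n g))) GK c → Unr (3 * ∏ ϖ ∈ Tn A n, ϖ) c →
      c (Z.x true) = π' (π (X (.inl true))) → c (Z.x false) = π' (π (X (.inl false))) →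
      (∀ ϖ ∈ Tn A n, c (Z.K.τ ϖ) = π' (π (X (.inr ϖ)))) →
      (∀ ϖ ∈ Tn A n, c (Z.K.σ ϖ) = π' (π (sv_MEXS Z ε A x n (Z.K.σ ϖ)))) ∧
        ∀ i, c (Z.y i) = π' (π (∑ j, a j * cv (bs j (Z.y i)))) := by
    intro R' _ π' c c1 c2 c3 c4 c5
    have e : ∀ g ∈ GK, c g = π' (π (sv_MEXS Z ε A x n g)) := fun g hg => by
      have e1 : sv_MEXS Z ε A x n g =
          ∑ i ∈ (univ : Finset Bool).disjSum (Tn A n), Z.wf ε n g i * X i := by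
        rw [← hG.img, sum_image hG.inj]
        exact sum_congr rfl fun j hj => by rw [hX j hj]
      rw [hZ.uni ε n _ hG.pp hG.sub R' (π'.comp π) c (fun a h => by simp [z1 a h]) c1 c2 g hg, e1,
        map_sum, map_sum]
      refine sum_congr rfl fun i hi => ?_
      rw [map_mul, map_mul]
      congr 1
      rcases i with (_ | _) | ϖ
      exacts [c4, c3, c5 ϖ (inr_mem_disjSum.1 hi)]
    exact ⟨fun ϖ _ => e _ (hD.pk.gk ϖ).1, fun i => (e _ (V3.D_le (h0.yD i))).trans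
      (congrArg π' (Ideal.Quotient.eq.2 (ha i)))⟩
  have hrel : ∀ ϖ ∈ Tn A n, ϖ ≠ -(Z.q n : Zw) →
      (1 - π (Z.th ε n (Z.K.τ ϖ))) * π (sv_MEXS Z ε A x n (Z.K.σ ϖ)) + (π (Z.th ε n (Z.K.σ ϖ)) -
        ∑ i ∈ range (nn ϖ), π (Z.th ε n (Z.K.τ ϖ)) ^ i) * π (X (.inr ϖ)) = 0 := by
    intro ϖ h e
    by_cases e' : ϖ ∈ V.Tr Z.r
    · rw [← hG.cs ϖ e', hX _ (hcA ϖ e')]
      simpa using z0.2 (hr ϖ e')
    obtain ⟨j, hj, e1⟩ := mem_image.1 (hG.img.ge (inr_mem_disjSum.2 h))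
    obtain ⟨l, e2, l1, l2, l3⟩ := hG.aux j hj fun e3 => by
      rcases mem_insert.1 e3 with rfl | e3
      · exact e (Sum.inr_injective (e1.symm.trans hG.q))
      rcases mem_union.1 e3 with e3 | e3
      · rcases mem_insert.1 e3 with rfl | e3
        · cases e1
        · rw [mem_singleton.1 e3] at e1
          cases e1
      · obtain ⟨ϖ', e4, rfl⟩ := mem_image.1 e3
        exact e' (Sum.inr_injective ((hG.cs ϖ' e4).symm.trans e1) ▸ e4)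
    obtain rfl := Sum.inr_injective (e1.symm.trans e2)
    obtain ⟨m1, -, -, m2⟩ := b5 l l1 l2
    have m3 := (m2 _ (hD.pk.ine l l1 m1).1).2 l3
    obtain ⟨-, -, m4, m5, -⟩ := hm _ h
    exact triv_MEXS _ _ (z2 (hch.2 _ (m3 (Plc.I_le _ m5)))) (z2 (hch.2 _ (m3 m4.1))) (z3 l l2)
  obtain ⟨-, m1, m2⟩ := hD.pk.ine _ (hD.qp n) (b5 _ (hD.qp n) (hD.qd n)).1
  obtain ⟨-, c, c1, c2, c3, c4, c5, -⟩ := hV.Y.KOQ _ _ _ _ _ _ _ _ _ (h0.xK _) (h0.xK _) h0.x1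
    h0.x2 h0.x3 hm hqT m1 m2 ⟨h0.yD, h0.dm⟩ _ _ _ _ _ (fun ϖ => π (X (.inr ϖ))) _ n3
    (hmu _ π z1) hu hun (z2 b8) (by rw [← hG.q, hX _ hqA, z0.2 hq]) hκ hrel hU
  choose f hf using fun g => Ideal.Quotient.mk_surjective (c g)
  refine ⟨f, ⟨(funext hf : _ = c) ▸ c1, fun g hg => z0.1 ((hf g).trans (unr_iff.1 c2 g hg))⟩,
    fun j hj => Ideal.Quotient.eq.1 ((hf _).trans ?_)⟩
  have hi := hG.img.le (mem_image_of_mem _ hj)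
  rw [← hX j hj, Mx.gj]
  generalize jn n j = i at hi
  rcases i with (_ | _) | ϖ
  exacts [c4, c3, c5 ϖ (inr_mem_disjSum.1 hi)]

theorem EXC_pf (hV : HV) (hC : COO_st) : EXC_st := by
  intro Λ _ _ Z ε P A x hZ hA h3 hx hq hr
  obtain ⟨κ, k1, k2⟩ := diag (G := fun n k => ∃ f, Zf (Z.th ε n) (Rn A n) (P ⊔ Z.E.m ^ k) f ∧
      ∀ j ∈ A, f (Z.gj j n) - x j ∈ P ⊔ Z.E.m ^ k)
    (fun n => ⟨0, Zf.zero _ _ _, fun j _ => by simp⟩) fun k => by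
      have e2 : ∀ ϖ ∈ V.Tr Z.r, ∀ᶠ n in uf,
          (1 - Z.th ε n (Z.K.τ (sq ϖ n))) * sv_MEXS Z ε A x n (Z.K.σ (sq ϖ n)) +
            (Z.th ε n (Z.K.σ (sq ϖ n)) - ∑ i ∈ range (nn (sq ϖ n)), Z.th ε n (Z.K.τ (sq ϖ n)) ^ i) *
              x (cs ϖ) ∈ P ⊔ Z.E.m ^ k := fun ϖ h => by
        refine (Z.E.mem_iff P _).1 ?_ k
        have := hr (cs ϖ) (by
          rw [Mx.Sg, Mx.Bg, ← image_union, Sz, V.Bz, filter_union_filter_not_eq]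
          exact mem_image_of_mem _ h)
        rw [Mx.rel, ev_add, ev_smul, ev_smul, co_MEXS, fm_MEXS Z ε hx] at this
        rw [Z.E.L_add, Z.E.L_mul, Z.E.L_mul, Z.E.L_sub, Z.E.const, Z.E.const]
        exact this
      filter_upwards [(hV.GER Λ Z hZ.toOk0).2.1 A hA, uf_le (eventually_ge_atTop k),
        (eventually_all_finset _).2 e2] with n g1 g2 g4
      refine lev_PnExc hV hC Z ε x hZ hA g1 (Z.E.le_sup P g2)
        (Ideal.mem_sup_left hq) (Ideal.mem_sup_left h3) fun ϖ h => ?_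
      have := g4 ϖ h
      rwa [show sq ϖ n = ϖ from Sum.inr_injective (g1.cs ϖ h)] at this
  choose f f1 f3 using fun n => (k2 n).2
  refine ⟨f, ⟨κ, k1, fun n => ⟨(k2 n).1, f1 n⟩⟩, hx, fun j hj => ?_⟩
  have := Z.E.mem_of k1 fun n => f3 n j hj
  rw [Z.E.L_sub, Z.E.const] at this
  exact sub_mem_comm_iff.1 this

end Pool.Agent.MP_e23604_nt.PH
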