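import Mathlib
import Pool.Agent.Mg.Fe23604m.G8fa719
import Pool.Agent.Mg.Fe23604m.G200097
import Pool.Agent.Mg.Fe23604m.Gf45a26

set_option linter.all false

section

/-! Exceptional zeros on a sharper scale: statements. -/

namespace Pool.Agent.MP_e23604_nt.TN

open NumberField Finset Filter
open MP_f68ac8_nt MP_f68ac8_nt.Nd
open scoped Topology BigOperators

/-- the scale -/
noncomputable def qM (M : ℝ) : ℝ := M * (1 + Real.log M)

/-- `3`-extensions of the third cyclotomic field that are Galois over the rational numbers -/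
structure AdK (n : ℕ) (R : Finset ℕ) (N : Subgroup GQ) : Prop extends Ad0 n R N where
  le : N ≤ Gz 3
  pg : ∀ g ∈ Gz 3, ∃ k, g ^ 3 ^ k ∈ N

/-- at most one zero close to one -/
def OneT : Prop :=
  ∀ N : ℕ, ∃ c C : ℝ, 0 < c ∧ 0 < C ∧ ∀ (E : Type) [Field E] [NumberField E],
    dE E ≤ N → ∀ M : ℝ, 1 ≤ M → Real.log (Bd E) ≤ M →
    ∃ z : ℂ, z.re ≤ 1 ∧ (z = 0 ∨ FE E z = 0) ∧
      (∀ s : ℂ, ‖s - 1‖ ≤ c / M → FE E s = 0 → s = z) ∧
      ∀ σ : ℝ, 1 < σ → σ ≤ 1 + c →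
        ‖(σ - 1) * P1 E σ - 1 + (σ - 1) / (σ - z)‖ ≤ C * (σ - 1) * qM M

/-- a scale that separates the fields with and without a zero close to one -/
def DichT : Prop :=
  ∀ (n : ℕ) (θ c' : ℝ), 0 < θ → θ < 1 / 2 → 0 < c' → ∃ c : ℝ, 0 < c ∧ c ≤ c' ∧ ∀ R N, Ad0 n R N →
    ∀ M : ℝ, sz R ≤ M → ∃ (σ : ℕ → GQ) (w : ℕ → ℝ), (∀ i, 0 ≤ w i) ∧ Summable w ∧
      (∀ H, N ≤ H → Sw σ w H ≤ θ ∨ |Sw σ w H - 1| ≤ θ) ∧
      ∀ (E : IntermediateField ℚ Qa) [NumberField E], N ≤ E.fixingSubgroup →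
        (¬ Good E (c / qM M) → Sw σ w E.fixingSubgroup ≤ θ) ∧
        (Sw σ w E.fixingSubgroup ≤ θ → ¬ Good E (c' / qM M))

theorem le_qM {M : ℝ} (h : 1 ≤ M) : M ≤ qM M :=
  le_mul_of_one_le_right (by linarith) (by linarith [Real.log_nonneg h])

theorem qM_mono {M M' : ℝ} (h : 1 ≤ M) (h' : M ≤ M') : qM M ≤ qM M' :=
  mul_le_mul h' (by linarith [Real.log_le_log (by linarith) h']) (by linarith [Real.log_nonneg h])
    (by linarith)

theorem qM_mul {C M : ℝ} (hC : 1 ≤ C) (h : 1 ≤ M) : qM (C * M) ≤ C ^ 2 * qM M := by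
  have h1 := Real.log_nonneg h
  have h2 := Real.log_le_sub_one_of_pos (show 0 < C by linarith)
  have h3 : 1 + Real.log (C * M) ≤ C * (1 + Real.log M) := by
    rw [Real.log_mul (by linarith) (by linarith)]
    nlinarith
  have h4 := mul_le_mul_of_nonneg_left h3 (show 0 ≤ C * M by positivity)
  unfold qM
  linarith

end Pool.Agent.MP_e23604_nt.TN

end

section

namespace Pool.Agent.MP_e23604_nt.TN

open NumberField Finset Filter
open MP_f68ac8_nt MP_f68ac8_nt.Nd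
open scoped Topology BigOperators

theorem dichT (hP : PsumStmt) (hO : OneT) (hD : DiscP) (hC : CountP) : DichT := by
  intro n θ c' hθ hθ2 hc'
  obtain ⟨Cd, hCd, hD'⟩ := hD n
  obtain ⟨c₀, C₀, hc₀, hC₀, hO'⟩ := hO n
  obtain ⟨κ, hκ0, hκ1, hκ2⟩ : ∃ κ : ℝ, 0 < κ ∧ 3 * κ ≤ θ ∧ κ ≤ 1 :=
    ⟨θ / 3, by positivity, by linarith, by linarith⟩
  obtain ⟨a, ha, ha1, ha2, ha3, ha4, ha5⟩ : ∃ a : ℝ, 0 < a ∧ a ≤ c₀ ∧ C₀ * a ≤ 1 ∧
      (n : ℝ) * a ≤ 1 ∧ a ≤ 1 ∧ a ≤ c' := by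
    have hn : (0 : ℝ) ≤ (n : ℝ) := Nat.cast_nonneg _
    refine ⟨min (min c₀ C₀⁻¹) (min ((n : ℝ) + 1)⁻¹ c'), by positivity,
      (min_le_left _ _).trans (min_le_left _ _), ?_, ?_, ?_,
      (min_le_right _ _).trans (min_le_right _ _)⟩
    · rw [← le_div_iff₀' hC₀, one_div]
      exact (min_le_left _ _).trans (min_le_right _ _)
    · refine (mul_le_mul_of_nonneg_left ((min_le_right _ _).trans (min_le_left _ _)) hn).trans ?_
      rw [← div_eq_mul_inv, div_le_one (by linarith)]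
      linarith
    · exact ((min_le_right _ _).trans (min_le_left _ _)).trans (inv_le_one_of_one_le₀ (by linarith))
  have hq0 : 0 < κ ^ 2 := by positivity
  have hq1 : κ ^ 2 ≤ 1 := pow_le_one₀ hκ0.le hκ2
  have hq2 : (κ ^ 2) ^ (2 ^ n + 1) ≤ 1 := pow_le_one₀ hq0.le hq1
  have hCd2 : 1 ≤ Cd ^ 2 := one_le_pow₀ hCd
  refine ⟨a * (κ ^ 2) ^ (2 ^ n + 1) / Cd ^ 2, by positivity, ?_, ?_⟩
  · exact (div_le_self (by positivity) hCd2).trans
      ((mul_le_of_le_one_right ha.le hq2).trans ha5)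
  intro R N hA M hsz
  have hM : 1 ≤ M := (one_le_sz_NbRep R).trans hsz
  obtain ⟨M', hM'⟩ : ∃ M', M' = Cd * M := ⟨_, rfl⟩
  have hM1 : M ≤ M' := by rw [hM']; nlinarith
  have hM2 : 1 ≤ M' := by linarith
  have hM3 : M' ≤ qM M' := le_qM hM2
  have hM4 : 0 < qM M' := by linarith
  have hM5 : 0 < qM M := by linarith [le_qM hM]
  obtain ⟨l₀, hl₀⟩ : ∃ l₀, l₀ = a / qM M' := ⟨_, rfl⟩
  have hl1 : 0 < l₀ := by rw [hl₀]; positivity
  have hl2 : l₀ * qM M' = a := by rw [hl₀]; field_simp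
  have hl3 : l₀ ≤ a := by nlinarith
  have hl4 : l₀ ≤ c' / qM M := by
    rw [hl₀]
    exact div_le_div₀ hc'.le ha5 hM5 (qM_mono hM hM1)
  have hρ1 : a * (κ ^ 2) ^ (2 ^ n + 1) / Cd ^ 2 / qM M ≤ l₀ * (κ ^ 2) ^ (2 ^ n + 1) := by
    rw [hl₀, div_div, div_mul_eq_mul_div]
    exact div_le_div_of_nonneg_left (by positivity) hM4 (hM' ▸ qM_mul hCd hM)
  have hρ2 : l₀ * (κ ^ 2) ^ (2 ^ n + 1) ≤ c₀ / M' := by
    rw [le_div_iff₀ (by linarith)]
    have h4 : l₀ * (κ ^ 2) ^ (2 ^ n + 1) ≤ l₀ := mul_le_of_le_one_right hl1.le hq2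
    have h5 := mul_le_mul h4 hM3 (by linarith) hl1.le
    linarith
  have key : ∀ H, N ≤ H → ∃ z : ℂ, z.re ≤ 1 ∧
      ∀ (E : IntermediateField ℚ Qa) [NumberField E], E.fixingSubgroup = H →
        (z = 0 ∨ FE E z = 0) ∧ (∀ s : ℂ, ‖s - 1‖ ≤ c₀ / M' → FE E s = 0 → s = z) ∧
        ∀ σ : ℝ, 1 < σ → σ ≤ 1 + c₀ →
          ‖(σ - 1) * P1 E σ - 1 + (σ - 1) / (σ - z)‖ ≤ C₀ * (σ - 1) * qM M' := by
    intro H hH
    obtain ⟨E₀, i₀, hE₀⟩ := (hC _ R N hA).1 H hH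
    obtain ⟨h3, h4⟩ := hD' R N hA E₀ (hE₀ ▸ hH)
    obtain ⟨z, hz1, hz2⟩ := hO' E₀ h3 M' hM2
      (h4.trans (by rw [hM']; exact mul_le_mul_of_nonneg_left hsz (by linarith)))
    refine ⟨z, hz1, fun E _ hE => ?_⟩
    obtain rfl : E = E₀ := fix_inj_NbRep (hE.trans hE₀.symm)
    exact hz2
  choose! z hz1 hz2 using key
  have hfr : ∀ l : ℕ, ∃ σ : GQ, l.Prime → Fr l σ := by
    intro l
    by_cases hl : l.Prime
    · obtain ⟨P, hP1, hP2⟩ := exists_maximal_mem (Ω := Qa) hl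
      obtain ⟨σ, hσ⟩ := exists_frob P hl hP2
      exact ⟨σ, fun _ => ⟨P, hP1, hP2, hσ⟩⟩
    · exact ⟨1, fun h => absurd h hl⟩
  choose σ hσ using hfr
  have := hA.nrm
  obtain ⟨j, hj, hgap⟩ := gap_NbRep N hA.idx.1 hA.idx.2 (fun H => ‖1 - z H‖) hl1 hq0 hq1
  obtain ⟨t, ht⟩ : ∃ t : ℝ, t = l₀ * (κ ^ 2) ^ j := ⟨_, rfl⟩
  have ht0 : 0 < t := by rw [ht]; positivity
  have ht1 : t ≤ l₀ := by
    rw [ht]
    exact mul_le_of_le_one_right hl1.le (pow_le_one₀ hq0.le hq1)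
  have ht2 : l₀ * (κ ^ 2) ^ (j + 1) = κ * (κ * t) := by rw [ht]; ring
  have ht3 : t * qM M' ≤ a := hl2 ▸ mul_le_mul_of_nonneg_right ht1 hM4.le
  have hk0 : 0 < κ * t := by positivity
  have hk1 : κ * t ≤ t := mul_le_of_le_one_left ht0.le hκ2
  have hest : ∀ H, N ≤ H →
      (‖1 - z H‖ ≤ κ * (κ * t) → Sw σ (w_NbRep R (κ * t) (1 + κ * t)) H ≤ 3 * κ) ∧
      (κ * t ≤ κ * ‖1 - z H‖ → |Sw σ (w_NbRep R (κ * t) (1 + κ * t)) H - 1| ≤ 3 * κ) := by
    intro H hH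
    obtain ⟨E, i, hE⟩ := (hC _ R N hA).1 H hH
    obtain ⟨h3, -⟩ := hD' R N hA E (hE ▸ hH)
    obtain ⟨P, hP1, hP2⟩ := cmp_NbRep hP E h3 R (lam := κ * t) (σ := 1 + κ * t) hk0.le
      (by linarith) (fun l => perm H (σ l))
      (fun l hl hR => hE ▸ (hC _ R N hA).2 E (hE ▸ hH) l hl hR _ (hσ l hl))
    have h4 := (hz2 H hH E hE).2.2 (1 + κ * t) (by linarith) (by linarith)
    rw [hP1] at h4
    refine est_NbRep (P := P) hk0 hκ0.le (hz1 H hH) ?_ (hP2.trans ?_)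
    · have e1 : ((1 + κ * t : ℝ) : ℂ) - 1 = ((κ * t : ℝ) : ℂ) := by push_cast; ring
      have e2 : ((1 + κ * t : ℝ) : ℂ) - z H = ((κ * t : ℝ) : ℂ) + (1 - z H) := by
        push_cast; ring
      rw [e1, e2] at h4
      refine h4.trans ?_
      have h5 := (mul_le_mul_of_nonneg_left ht3 hC₀.le).trans ha2
      have h6 := mul_le_mul_of_nonneg_left h5 hκ0.le
      linarith
    · have hn : (0 : ℝ) ≤ (n : ℝ) := Nat.cast_nonneg _
      have h5 : t * sz R ≤ a :=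
        (mul_le_mul_of_nonneg_left (by linarith) ht0.le).trans ht3
      have h6 := (mul_le_mul_of_nonneg_left h5 hn).trans ha3
      have h7 := mul_le_mul_of_nonneg_left h6 hκ0.le
      linarith
  have hbig : ∀ H, N ≤ H → t ≤ ‖1 - z H‖ → |Sw σ (w_NbRep R (κ * t) (1 + κ * t)) H - 1| ≤ θ :=
    fun H hH h => ((hest H hH).2 (mul_le_mul_of_nonneg_left h hκ0.le)).trans hκ1
  refine ⟨σ, w_NbRep R (κ * t) (1 + κ * t), w_nonneg_NbRep R _ hk0.le,
    w_summable_NbRep hP R hk0.le (by linarith), fun H hH => ?_, fun E _ hE => ⟨?_, ?_⟩⟩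
  · exact (hgap H hH).imp (fun h => ((hest H hH).1 (ht2 ▸ h)).trans hκ1)
      fun h => hbig H hH (ht ▸ h)
  · intro hn
    unfold Good at hn
    push Not at hn
    obtain ⟨s, hs1, hs2⟩ := hn
    replace hs1 := hs1.trans hρ1
    refine ((hest _ hE).1 ?_).trans hκ1
    rw [← (hz2 _ hE E rfl).2.1 s (hs1.trans hρ2) hs2, norm_sub_rev, ← ht2]
    refine hs1.trans (mul_le_mul_of_nonneg_left ?_ hl1.le)
    exact pow_le_pow_of_le_one hq0.le hq1 (by omega)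
  · intro hS hG
    have h1 : ‖1 - z E.fixingSubgroup‖ < t := by
      by_contra h
      have := abs_le.1 (hbig _ hE (not_lt.1 h))
      linarith [this.1]
    rcases (hz2 _ hE E rfl).1 with h | h
    · rw [h, sub_zero, norm_one] at h1
      linarith
    · refine hG _ ?_ h
      rw [norm_sub_rev]
      linarith

end Pool.Agent.MP_e23604_nt.TN

end

section

namespace Pool.Agent.MP_e23604_nt.TN

open NumberField Finset
open MP_f68ac8_nt MP_f68ac8_nt.Nd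
open scoped Classical

theorem xOne_one {u : ℝ} (hu : 0 < u) {z : ℂ} (hz : z.re ≤ 1) (h1 : u ≤ ‖z - 1‖)
    (h2 : ‖z - 1‖ ≤ 2 * u) : 1 / ‖z - 1‖ ≤ 9 * (1 / (((1 + u : ℝ) : ℂ) - z)).re := by
  have h3 := re_inv_lower_NaOne (((1 + u : ℝ) : ℂ) - z) u (3 * u) hu
    (by rw [Complex.sub_re, Complex.ofReal_re]; linarith) (by
      have e : ((1 + u : ℝ) : ℂ) - z = (u : ℂ) - (z - 1) := by push_cast; ring
      rw [e]
      refine (norm_sub_le _ _).trans ?_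
      rw [Complex.norm_real, Real.norm_eq_abs, abs_of_pos hu]
      linarith)
  have h4 := one_div_le_one_div_of_le hu h1
  have e : 1 / u = 9 * (u / (3 * u) ^ 2) := by
    field_simp
    norm_num
  linarith

theorem xOne_pt {t : ℝ} (ht : 0 < t) {z : ℂ} (hz : z.re ≤ 1) (h : t ≤ ‖z - 1‖) (J : ℕ) :
    1 / ‖z - 1‖ ≤
      9 * ∑ j ∈ range J, (1 / (((1 + 2 ^ j * t : ℝ) : ℂ) - z)).re + 1 / (2 ^ J * t) := by
  have hn : ∀ j : ℕ, 0 ≤ (1 / (((1 + 2 ^ j * t : ℝ) : ℂ) - z)).re := fun j => by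
    refine re_inv_nonneg_NaOne _ ?_
    rw [Complex.sub_re, Complex.ofReal_re]
    have : 0 < 2 ^ j * t := by positivity
    linarith
  have hs := sum_nonneg fun j (_ : j ∈ range J) => hn j
  by_cases hJ : 2 ^ J * t ≤ ‖z - 1‖
  · have := one_div_le_one_div_of_le (by positivity) hJ
    linarith
  obtain ⟨j, h1, h2⟩ := exists_nat_pow_near ((one_le_div ht).2 h) (one_lt_two (α := ℝ))
  rw [le_div_iff₀ ht] at h1
  rw [div_lt_iff₀ ht, pow_succ] at h2
  have hj : j < J := by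
    by_contra hc
    exact hJ (le_trans (mul_le_mul_of_nonneg_right
      (pow_le_pow_right₀ one_le_two (not_lt.1 hc)) ht.le) h1)
  have h3 := single_le_sum (f := fun j : ℕ => (1 / (((1 + 2 ^ j * t : ℝ) : ℂ) - z)).re)
    (fun j _ => hn j) (mem_range.2 hj)
  have h4 : 0 < 1 / (2 ^ J * t) := by positivity
  have h5 := xOne_one (u := 2 ^ j * t) (by positivity) hz h1 (by linarith)
  linarith

theorem xOne_sum (f : ℂ → ℂ) (g : ℕ → ℂ → ℂ) (J : ℕ) (b : ℝ) (Z : Multiset ℂ)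
    (h : ∀ z ∈ Z, ‖f z‖ ≤ 9 * ∑ j ∈ range J, (g j z).re + b) :
    ‖(Z.map f).sum‖ ≤ 9 * ∑ j ∈ range J, ((Z.map (g j)).sum).re + Multiset.card Z * b := by
  induction Z using Multiset.induction_on with
  | empty => simp
  | cons a s ih =>
    have h1 := h a (Multiset.mem_cons_self a s)
    have h2 := ih fun z hz => h z (Multiset.mem_cons_of_mem hz)
    have h3 := norm_add_le (f a) (s.map f).sum
    simp only [Multiset.map_cons, Multiset.sum_cons, Multiset.card_cons, Complex.add_re,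
      sum_add_distrib]
    push_cast
    linarith

/-- the zeros that are not close to one -/
theorem xOne_far {c C M σ : ℝ} (Z : Multiset ℂ) (hc : 0 < c) (hC : 0 < C) (hM : 1 ≤ M)
    (hσ : 1 < σ) (hcard : (Multiset.card Z : ℝ) ≤ C * M)
    (h1 : ∀ z ∈ Z, z.re ≤ 1 ∧ c / M < ‖z - 1‖)
    (h2 : ∀ u : ℝ, 0 < u → u ≤ c →
      ((Z.map fun z => 1 / (((1 + u : ℝ) : ℂ) - z)).sum).re ≤ 1 / u + C * M) :
    ‖(Z.map fun z => 1 / ((σ : ℂ) - z)).sum‖ ≤ (18 * (1 / c + C) + C / c) * qM M := by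
  have hM0 : 0 < M := by linarith
  have ht : 0 < c / M := by positivity
  obtain ⟨J, j1, j2⟩ := exists_nat_pow_near hM (one_lt_two (α := ℝ))
  have hl := Real.log_nonneg hM
  have hJ : ((J + 1 : ℕ) : ℝ) ≤ 2 * (1 + Real.log M) := by
    have k1 := Real.log_le_log (by positivity) j1
    rw [Real.log_pow] at k1
    have k2 := mul_le_mul_of_nonneg_left Real.log_two_gt_d9.le (Nat.cast_nonneg (α := ℝ) J)
    have k3 : (0 : ℝ) ≤ J := Nat.cast_nonneg J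
    push_cast
    linarith
  have e1 := xOne_sum (fun z => 1 / ((σ : ℂ) - z))
    (fun j z => 1 / (((1 + 2 ^ j * (c / M) : ℝ) : ℂ) - z)) (J + 1) (1 / c) Z fun z hz => by
      have k1 := xOne_pt ht (h1 z hz).1 (h1 z hz).2.le (J + 1)
      have k2 := one_div_le_one_div_of_le (ht.trans (h1 z hz).2)
        (norm_far_NaOne σ z hσ.le (h1 z hz).1)
      have k3 : 1 / (2 ^ (J + 1) * (c / M)) ≤ 1 / c := by
        refine one_div_le_one_div_of_le hc ?_
        rw [← mul_div_assoc, le_div_iff₀ hM0, mul_comm]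
        exact mul_le_mul_of_nonneg_right j2.le hc.le
      rw [norm_div, norm_one]
      linarith
  have e2 : ∑ j ∈ range (J + 1),
      ((Z.map fun z => 1 / (((1 + 2 ^ j * (c / M) : ℝ) : ℂ) - z)).sum).re ≤
      ((J + 1 : ℕ) : ℝ) * ((1 / c + C) * M) := by
    refine (sum_le_card_nsmul _ _ ((1 / c + C) * M) fun j hj => ?_).trans
      (by rw [card_range, nsmul_eq_mul])
    have k1 : (1 : ℝ) ≤ 2 ^ j := one_le_pow₀ one_le_two
    have k2 : (2 : ℝ) ^ j ≤ M :=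
      (pow_le_pow_right₀ one_le_two (Nat.lt_succ_iff.1 (mem_range.1 hj))).trans j1
    have k3 := h2 (2 ^ j * (c / M)) (by positivity) (by
      rw [← mul_div_assoc, div_le_iff₀ hM0, mul_comm]
      exact mul_le_mul_of_nonneg_left k2 hc.le)
    have k4 := one_div_le_one_div_of_le ht (le_mul_of_one_le_left ht.le k1)
    have k5 : 1 / (c / M) = 1 / c * M := by field_simp
    linarith
  have e3 := mul_le_mul_of_nonneg_right hJ (show 0 ≤ (1 / c + C) * M by positivity)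
  have e4 := mul_le_mul_of_nonneg_right hcard (show 0 ≤ 1 / c by positivity)
  have e5 := mul_le_mul_of_nonneg_left (le_qM hM) (show 0 ≤ C / c by positivity)
  have e6 : C * M * (1 / c) = C / c * M := by ring
  unfold qM at e5 ⊢
  linarith

theorem xOne_est {C C' C'' M σ : ℝ} {L P R S T : ℂ} (hC : 0 < C) (hC' : 0 < C') (hM : 1 ≤ M)
    (hσ : 1 < σ) (hT : ‖T‖ ≤ C'' * qM M) (hR : ‖R‖ ≤ C') (hLP : L = P + R)
    (hb : ‖L - 1 / ((σ : ℂ) - 1) + (S + T)‖ ≤ C * M) :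
    ‖((σ : ℂ) - 1) * P - 1 + ((σ : ℂ) - 1) * S‖ ≤ (C + C' + C'') * (σ - 1) * qM M := by
  have hs : 0 < σ - 1 := sub_pos.2 hσ
  have hne : (σ : ℂ) - 1 ≠ 0 := by
    rw [← Complex.ofReal_one, ← Complex.ofReal_sub]
    exact Complex.ofReal_ne_zero.2 hs.ne'
  have hn : ‖(σ : ℂ) - 1‖ = σ - 1 := by
    rw [← Complex.ofReal_one, ← Complex.ofReal_sub, Complex.norm_real, Real.norm_eq_abs,
      abs_of_pos hs]
  have e3 : ((σ : ℂ) - 1) * P - 1 + ((σ : ℂ) - 1) * S =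
      ((σ : ℂ) - 1) * ((L - 1 / ((σ : ℂ) - 1) + (S + T)) - R - T) := by
    rw [hLP]
    field_simp
    ring
  have a1 := norm_sub_le ((L - 1 / ((σ : ℂ) - 1) + (S + T)) - R) T
  have a2 := norm_sub_le (L - 1 / ((σ : ℂ) - 1) + (S + T)) R
  have a3 := le_qM hM
  have a5 := mul_le_mul_of_nonneg_left a3 hC.le
  have a6 := mul_le_mul_of_nonneg_left (hM.trans a3) hC'.le
  rw [e3, norm_mul, hn, mul_right_comm, mul_comm (σ - 1)]
  exact mul_le_mul_of_nonneg_right (by linarith) hs.le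

theorem oneT (hE : EulStmt) (hL : LocStmt) : OneT := by
  intro N
  obtain ⟨r, C, hr, -, hC, hL⟩ := hL N
  obtain ⟨C', hC', hE⟩ := hE N
  obtain ⟨c, hc, hcr, hcC⟩ : ∃ c : ℝ, 0 < c ∧ 11 * c < r ∧ 20 * c * C ≤ 1 := by
    refine ⟨min (r / 12) (1 / (20 * C)), lt_min (by positivity) (by positivity), ?_, ?_⟩
    · linarith [min_le_left (r / 12) (1 / (20 * C))]
    · have h1 := min_le_right (r / 12) (1 / (20 * C))
      rw [le_div_iff₀ (by positivity)] at h1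
      linarith
  obtain ⟨C'', hC''⟩ : ∃ C'', C'' = 18 * (1 / c + C) + C / c := ⟨_, rfl⟩
  have hC0 : 0 < C'' := by rw [hC'']; positivity
  refine ⟨c, C + C' + C'' + 1, hc, by positivity, fun E _ _ hN M hM hB => ?_⟩
  obtain ⟨-, Z, hcard, hZ, hloc⟩ := hL E hN M hM hB
  obtain ⟨-, hpos, R, -, hR, hLP⟩ := hE E hN
  have hM0 : 0 < M := lt_of_lt_of_le one_pos hM
  have hcM : c / M ≤ c := div_le_self hc.le hM
  obtain ⟨Z₀, Z₁, hsplit, h0, h1⟩ : ∃ Z₀ Z₁ : Multiset ℂ, Z₀ + Z₁ = Z ∧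
      (∀ z ∈ Z₀, ‖z - 1‖ ≤ c / M) ∧ ∀ z ∈ Z₁, c / M < ‖z - 1‖ :=
    ⟨Z.filter fun z => ‖z - 1‖ ≤ c / M, Z.filter fun z => ¬ ‖z - 1‖ ≤ c / M,
      Multiset.filter_add_not _ _, fun z hz => (Multiset.mem_filter.1 hz).2,
      fun z hz => not_le.1 (Multiset.mem_filter.1 hz).2⟩
  subst hsplit
  have hZ0 : ∀ z ∈ Z₀, FE E z = 0 ∧ z.re ≤ 1 := fun z hz =>
    hZ z (Multiset.mem_add.2 (Or.inl hz))
  have hZ1 : ∀ z ∈ Z₁, z.re ≤ 1 := fun z hz => (hZ z (Multiset.mem_add.2 (Or.inr hz))).2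
  have hle : Multiset.card Z₀ ≤ 1 := by
    have ha : 0 < 10 * c / M := by positivity
    have hb : 10 * c / M ≤ 10 * c := div_le_self (by positivity) hM
    have hσ : (1 : ℝ) < 1 + 10 * c / M := by linarith
    refine card_le_NaOne c C M (LE E ((1 + 10 * c / M : ℝ) : ℂ)) Z₀ Z₁ hc hM hcC
      (fun z hz => ⟨(hZ0 z hz).2, h0 z hz⟩) hZ1 (hpos _ hσ).2.1 ?_
    exact (hloc _ (mem_ball_NaOne _ r hσ (by linarith))).2.2 (by rwa [Complex.ofReal_re])
  have hzero : ∀ s : ℂ, ‖s - 1‖ ≤ c / M → FE E s = 0 → s ∈ Z₀ := by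
    intro s hs hF
    have hb : s ∈ Metric.ball (1 : ℂ) r := by
      rw [Metric.mem_ball, dist_eq_norm]
      linarith
    rcases Multiset.mem_add.1 ((hloc s hb).1 hF) with h | h
    · exact h
    · exact absurd hs (not_le.2 (h1 s h))
  have hsh : ∀ u : ℝ, 0 < u → u ≤ c →
      ((Z₁.map fun z => 1 / (((1 + u : ℝ) : ℂ) - z)).sum).re ≤ 1 / u + C * M := by
    intro u hu huc
    have hσ : (1 : ℝ) < 1 + u := by linarith
    have hb := (Complex.re_le_norm _).trans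
      ((hloc _ (mem_ball_NaOne _ r hσ (by linarith))).2.2 (by rwa [Complex.ofReal_re]))
    have e0 : (Multiset.card Z₀ : ℝ) * 0 ≤
        ((Z₀.map fun z => 1 / (((1 + u : ℝ) : ℂ) - z)).sum).re := by
      refine sum_re_lower_NaOne _ _ _ fun z hz => re_inv_nonneg_NaOne _ ?_
      rw [Complex.sub_re, Complex.ofReal_re]
      linarith [(hZ0 z hz).2]
    have e2 : (1 / (((1 + u : ℝ) : ℂ) - 1)).re = 1 / u := by
      have e : ((1 + u : ℝ) : ℂ) - 1 = (u : ℂ) := by push_cast; ring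
      rw [e, ← Complex.ofReal_one, ← Complex.ofReal_div, Complex.ofReal_re]
    rw [Multiset.map_add, Multiset.sum_add, Complex.add_re, Complex.add_re, Complex.sub_re,
      e2] at hb
    linarith [(hpos _ hσ).2.1]
  have hest : ∀ σ : ℝ, 1 < σ → σ ≤ 1 + c →
      ‖((σ : ℂ) - 1) * P1 E σ - 1 + ((σ : ℂ) - 1) * (Z₀.map fun z => 1 / ((σ : ℂ) - z)).sum‖ ≤
        (C + C' + C'') * (σ - 1) * qM M := by
    intro σ hσ hσc
    have hre : 1 < (σ : ℂ).re := by rwa [Complex.ofReal_re]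
    have hb := (hloc _ (mem_ball_NaOne σ r hσ (by linarith))).2.2 hre
    rw [Multiset.map_add, Multiset.sum_add] at hb
    refine xOne_est hC hC' hM hσ ?_ (hR _ (by linarith)) (hLP _ hre) hb
    rw [hC'']
    refine xOne_far Z₁ hc hC hM hσ (le_trans ?_ hcard) (fun z hz => ⟨hZ1 z hz, h1 z hz⟩) hsh
    rw [Multiset.card_add]
    exact_mod_cast Nat.le_add_left _ _
  have hM2 : 1 ≤ qM M := hM.trans (le_qM hM)
  rcases Nat.le_one_iff_eq_zero_or_eq_one.1 hle with h | h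
  · rw [Multiset.card_eq_zero] at h
    subst h
    refine ⟨0, by simp, Or.inl rfl, fun s hs hF => absurd (hzero s hs hF) (by simp),
      fun σ hσ hσc => ?_⟩
    have e1 := hest σ hσ hσc
    rw [Multiset.map_zero, Multiset.sum_zero, mul_zero, add_zero] at e1
    have hs : 0 < σ - 1 := sub_pos.2 hσ
    have e2 : ‖((σ : ℂ) - 1) / ((σ : ℂ) - 0)‖ ≤ σ - 1 := by
      rw [sub_zero, ← Complex.ofReal_one, ← Complex.ofReal_sub, ← Complex.ofReal_div,
        Complex.norm_real, Real.norm_eq_abs, abs_of_pos (div_pos hs (by linarith))]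
      exact div_le_self hs.le hσ.le
    refine le_trans (norm_add_le _ _) ?_
    nlinarith [mul_le_mul_of_nonneg_left hM2 hs.le]
  · obtain ⟨z, rfl⟩ := Multiset.card_eq_one.1 h
    have hz := hZ0 z (Multiset.mem_singleton_self z)
    refine ⟨z, hz.2, Or.inr hz.1, fun s hs hF => Multiset.mem_singleton.1 (hzero s hs hF),
      fun σ hσ hσc => ?_⟩
    have e1 := hest σ hσ hσc
    rw [Multiset.map_singleton, Multiset.sum_singleton, mul_one_div] at e1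
    have hs : 0 < σ - 1 := sub_pos.2 hσ
    nlinarith [mul_le_mul_of_nonneg_left hM2 hs.le]

end Pool.Agent.MP_e23604_nt.TN

end
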