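import Pool.Agent.Mg.Fe23604m.Ge4cc4e

set_option linter.all false

section

/-!
The quadratic character of a finite field and the two basic counts.
-/

open Finset
open scoped Classical

namespace Pool.Agent.MP_e23604_nt.U

namespace DJ

/-- The number of points with a property. -/
noncomputable def cn {X : Type} [Fintype X] (P : X → Prop) : ℝ := (univ.filter P).card

theorem cn_eq {X : Type} [Fintype X] (P : X → Prop) [DecidablePred P] :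
    cn P = (univ.filter P).card := by
  unfold cn
  congr

variable {F : Type} [Field F] [Fintype F]

theorem chi_mul {a b : F} (ha : a ≠ 0) (hb : b ≠ 0) : chi (a * b) = chi a + chi b := by
  have h := map_mul (quadraticChar F) a b
  have e : ∀ c : F, c ≠ 0 → quadraticChar F c = if IsSquare c then 1 else -1 := fun c hc => by
    split_ifs with h1
    · exact (quadraticChar_one_iff_isSquare hc).2 h1
    · exact quadraticChar_neg_one_iff_not_isSquare.2 h1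
  rw [e _ (mul_ne_zero ha hb), e _ ha, e _ hb] at h
  unfold chi
  split_ifs at h ⊢ <;> first | rfl | exact absurd h (by decide)

omit [Fintype F] in
theorem chi_sq (a : F) : chi (a ^ 2) = 0 := if_pos ⟨a, sq a⟩

theorem chi_mon {P a b t : F} (ha : a ≠ 0) (hb : b ≠ 0) (ht : t ≠ 0) (h : P = a * b * t ^ 2) :
    P ≠ 0 ∧ chi P = chi a + chi b := by
  rw [h, chi_mul (mul_ne_zero ha hb) (pow_ne_zero 2 ht), chi_mul ha hb, chi_sq, add_zero]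
  exact ⟨mul_ne_zero (mul_ne_zero ha hb) (pow_ne_zero 2 ht), rfl⟩

theorem chi_mon' {P a b t : F} (ha : a ≠ 0) (hb : b ≠ 0) (ht : t ≠ 0)
    (h : P = -(a * b * t ^ 2)) : P ≠ 0 ∧ chi P = chi (-1 : F) + (chi a + chi b) := by
  have h1 := chi_mon ha hb ht rfl
  rw [h, ← h1.2, ← chi_mul (neg_ne_zero.2 one_ne_zero) h1.1, neg_one_mul]
  exact ⟨neg_ne_zero.2 h1.1, rfl⟩

theorem chi_four {a b c d s : F} (ha : a ≠ 0) (hb : b ≠ 0) (hc : c ≠ 0) (hd : d ≠ 0)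
    (hs : s ≠ 0) : chi (a * b * c * d * s ^ 2) = chi a + chi b + chi c + chi d := by
  rw [(chi_mon (mul_ne_zero (mul_ne_zero ha hb) hc) hd hs rfl).2,
    chi_mul (mul_ne_zero ha hb) hc, chi_mul ha hb]

theorem card_R (h2 : (2 : F) ≠ 0) (g : ZMod 2) :
    ((Fintype.card F : ℝ) - 1) / 2 ≤ cn fun x : F => x ≠ 0 ∧ chi x = g := by
  rw [cn_eq]
  have hc : ringChar F ≠ 2 := fun h => h2 (by
    have := ringChar.Nat.cast_ringChar (R := F)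
    rw [h] at this
    exact_mod_cast this)
  obtain ⟨n, hn⟩ := FiniteField.exists_nonsquare hc
  have n0 : n ≠ 0 := fun h => hn (h ▸ IsSquare.zero)
  have n1 : chi n = 1 := if_neg hn
  have h1 : (univ.filter fun x : F => x ≠ 0 ∧ chi x = g + 1).card
      ≤ (univ.filter fun x : F => x ≠ 0 ∧ chi x = g).card := by
    refine card_le_card_of_injOn (fun x => n * x) (fun x hx => ?_)
      fun x _ y _ h => mul_left_cancel₀ n0 h
    simp only [coe_filter, mem_univ, true_and, Set.mem_ofPred_eq] at hx ⊢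
    refine ⟨mul_ne_zero n0 hx.1, ?_⟩
    rw [chi_mul n0 hx.1, n1, hx.2]
    exact (by decide : ∀ y : ZMod 2, 1 + (y + 1) = y) g
  have h3 : (univ.erase (0 : F)).card ≤ (univ.filter fun x : F => x ≠ 0 ∧ chi x = g).card
      + (univ.filter fun x : F => x ≠ 0 ∧ chi x = g + 1).card := by
    refine le_trans (card_le_card fun x hx => ?_) (card_union_le _ _)
    simp only [mem_union, mem_filter, mem_univ, true_and]
    have : ∀ y : ZMod 2, y = g ∨ y = g + 1 :=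
      (by decide : ∀ g y : ZMod 2, y = g ∨ y = g + 1) g
    exact (this (chi x)).imp (fun h => ⟨ne_of_mem_erase hx, h⟩) fun h => ⟨ne_of_mem_erase hx, h⟩
  rw [card_erase_of_mem (mem_univ _), card_univ] at h3
  have h4 : Fintype.card F ≤ 2 * (univ.filter fun x : F => x ≠ 0 ∧ chi x = g).card + 1 := by omega
  have h5 : (Fintype.card F : ℝ)
      ≤ 2 * (univ.filter fun x : F => x ≠ 0 ∧ chi x = g).card + 1 := by exact_mod_cast h4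
  linarith

theorem card_nz : (Fintype.card F : ℝ) - 1 ≤ cn fun x : F => x ≠ 0 := by
  rw [cn_eq, filter_ne' univ (0 : F), card_erase_of_mem (mem_univ _), card_univ,
    Nat.cast_sub Fintype.card_pos, Nat.cast_one]

theorem card_av {A B : F} (hB : B ≠ 0) :
    (Fintype.card F : ℝ) - 3 ≤ cn fun x : F => x ≠ 0 ∧ B * x ^ 2 ≠ A := by
  rw [cn_eq]
  obtain ⟨r, hr⟩ : ∃ r : F, ∀ x, B * x ^ 2 = A → x = r ∨ x = -r := by
    by_cases h : ∃ r, B * r ^ 2 = A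
    · obtain ⟨r, hr⟩ := h
      exact ⟨r, fun x hx => sq_eq_sq_iff_eq_or_eq_neg.1 (mul_left_cancel₀ hB (hx.trans hr.symm))⟩
    · exact ⟨0, fun x hx => absurd ⟨x, hx⟩ h⟩
  have h1 : univ \ {0, r, -r} ⊆ univ.filter fun x : F => x ≠ 0 ∧ B * x ^ 2 ≠ A := by
    intro x hx
    simp only [mem_sdiff, mem_univ, mem_insert, mem_singleton, true_and, not_or, mem_filter] at hx ⊢
    exact ⟨hx.1, fun h => (hr x h).elim hx.2.1 hx.2.2⟩
  have h2 := (le_card_sdiff ({0, r, -r} : Finset F) univ).trans (card_le_card h1)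
  have h3 : ({0, r, -r} : Finset F).card ≤ 3 := card_le_three
  rw [card_univ] at h2
  have h4 : Fintype.card F ≤ (univ.filter fun x : F => x ≠ 0 ∧ B * x ^ 2 ≠ A).card + 3 := by omega
  have h5 : (Fintype.card F : ℝ)
      ≤ (univ.filter fun x : F => x ≠ 0 ∧ B * x ^ 2 ≠ A).card + 3 := by exact_mod_cast h4
  linarith

omit [Field F] in
theorem card_one {P : F → Prop} (h : ∃ x, P x) : (1 : ℝ) ≤ cn P := by
  obtain ⟨x, hx⟩ := h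
  unfold cn
  exact_mod_cast card_pos.2 ⟨x, mem_filter.2 ⟨mem_univ _, hx⟩⟩

theorem two {X Y : Type} [Fintype X] [Fintype Y] (P : X → Prop) (Q : X → Y → Prop) {a b : ℝ}
    (ha0 : 0 ≤ a) (ha : a ≤ cn P) (hb : ∀ x, P x → b ≤ cn (Q x)) :
    a * b ≤ cn fun p : X × Y => P p.1 ∧ Q p.1 p.2 := by
  rcases le_total b 0 with hb0 | hb0
  · exact (mul_nonpos_of_nonneg_of_nonpos ha0 hb0).trans (Nat.cast_nonneg _)
  rw [cn_eq]
  unfold cn at ha hb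
  have e : (univ.filter fun p : X × Y => P p.1 ∧ Q p.1 p.2).card
      = ∑ x ∈ univ.filter P, (univ.filter (Q x)).card := by
    rw [card_filter, Fintype.sum_prod_type, sum_filter]
    refine sum_congr rfl fun x _ => ?_
    by_cases h : P x <;> simp [h]
  rw [e]
  push_cast
  refine (mul_le_mul_of_nonneg_right ha hb0).trans ?_
  rw [← nsmul_eq_mul]
  exact card_nsmul_le_sum _ _ _ fun x hx => hb x (mem_filter.1 hx).2

theorem card_pr (h2 : (2 : F) ≠ 0) {α β γ δ : F} (hd : α * δ - β * γ ≠ 0) (g g' : ZMod 2) :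
    ((Fintype.card F : ℝ) - 1) / 2 * (((Fintype.card F : ℝ) - 1) / 2) - 2 * Fintype.card F
      ≤ cn fun p : F × F => p.1 ≠ 0 ∧ p.2 ≠ 0 ∧
        (α * p.1 - β * p.2 ≠ 0 ∧ chi (α * p.1 - β * p.2) = g) ∧
        (γ * p.1 - δ * p.2 ≠ 0 ∧ chi (γ * p.1 - δ * p.2) = g') := by
  have hq : (1 : ℝ) ≤ Fintype.card F := by exact_mod_cast Fintype.card_pos
  have h1 := two (fun x : F => x ≠ 0 ∧ chi x = g) (fun _ (y : F) => y ≠ 0 ∧ chi y = g')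
    (show (0 : ℝ) ≤ ((Fintype.card F : ℝ) - 1) / 2 by linarith) (card_R h2 g)
    fun _ _ => card_R h2 g'
  rw [cn_eq] at h1 ⊢
  have h3 : (univ.filter fun p : F × F => (p.1 ≠ 0 ∧ chi p.1 = g) ∧ p.2 ≠ 0 ∧ chi p.2 = g').card
      ≤ ((univ.filter fun p : F × F => p.1 ≠ 0 ∧ p.2 ≠ 0 ∧
        (α * p.1 - β * p.2 ≠ 0 ∧ chi (α * p.1 - β * p.2) = g) ∧
        (γ * p.1 - δ * p.2 ≠ 0 ∧ chi (γ * p.1 - δ * p.2) = g'))
        ∪ ({0} ×ˢ univ ∪ univ ×ˢ {0})).card := by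
    refine card_le_card_of_surjOn (fun p => (α * p.1 - β * p.2, γ * p.1 - δ * p.2)) fun t ht => ?_
    have e1 : α * ((δ * t.1 - β * t.2) / (α * δ - β * γ))
        - β * ((γ * t.1 - α * t.2) / (α * δ - β * γ)) = t.1 := by
      field_simp
      ring
    have e2 : γ * ((δ * t.1 - β * t.2) / (α * δ - β * γ))
        - δ * ((γ * t.1 - α * t.2) / (α * δ - β * γ)) = t.2 := by
      rw [← mul_div_assoc, ← mul_div_assoc, ← sub_div, div_eq_iff hd]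
      ring
    refine ⟨((δ * t.1 - β * t.2) / (α * δ - β * γ), (γ * t.1 - α * t.2) / (α * δ - β * γ)), ?_,
      Prod.ext e1 e2⟩
    simp only [coe_filter, mem_univ, true_and, Set.mem_ofPred_eq] at ht
    simp only [coe_union, coe_filter, mem_univ, true_and, Set.mem_union, Set.mem_ofPred_eq,
      mem_coe, mem_product, mem_singleton, and_true, e1, e2]
    tauto
  have h4 := h3.trans ((card_union_le _ _).trans (Nat.add_le_add_left (card_union_le _ _) _))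
  simp only [card_product, card_singleton, card_univ, one_mul, mul_one] at h4
  have h5 := (Nat.cast_le (α := ℝ)).2 h4
  push_cast at h5
  linarith

theorem tr {R : F × F × F × F × F × F × F × F × F × F → Prop} (i : Fin 10 → Fin 10)
    (hi : Function.Injective i) {T : (Fin 10 → F) → Prop}
    (h : ∀ w : Fin 10 → F, R (w (i 0), w (i 1), w (i 2), w (i 3), w (i 4), w (i 5), w (i 6),
      w (i 7), w (i 8), w (i 9)) → T w) : cn R ≤ cn T := by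
  unfold cn
  refine Nat.cast_le.2 (card_le_card_of_surjOn (fun w => (w (i 0), w (i 1), w (i 2), w (i 3),
    w (i 4), w (i 5), w (i 6), w (i 7), w (i 8), w (i 9))) ?_)
  rintro ⟨a0, a1, a2, a3, a4, a5, a6, a7, a8, a9⟩ ht
  obtain ⟨w, hw⟩ := hi.surjective_comp_right ![a0, a1, a2, a3, a4, a5, a6, a7, a8, a9]
  have e : (w (i 0), w (i 1), w (i 2), w (i 3), w (i 4), w (i 5), w (i 6), w (i 7), w (i 8),
      w (i 9)) = (a0, a1, a2, a3, a4, a5, a6, a7, a8, a9) := by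
    simp only [Prod.mk.injEq]
    exact ⟨congrFun hw 0, congrFun hw 1, congrFun hw 2, congrFun hw 3, congrFun hw 4,
      congrFun hw 5, congrFun hw 6, congrFun hw 7, congrFun hw 8, congrFun hw 9⟩
  simp only [coe_filter, mem_univ, true_and, Set.mem_ofPred_eq] at ht
  exact ⟨w, by simpa using h w (e ▸ ht), e⟩

theorem cntM (h2 : (2 : F) ≠ 0) (hq : 100 ≤ Fintype.card F) {κ : F} (hκ : κ ≠ 0)
    (i0 i1 i2 i3 i4 i5 i6 i7 i8 i9 : Fin 10)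
    (hi : Function.Injective ![i0, i1, i2, i3, i4, i5, i6, i7, i8, i9])
    (g0 g1 g2 g3 g4 : ZMod 2) {T : (Fin 10 → F) → Prop}
    (h : ∀ w : Fin 10 → F, w i0 = 0 → w i1 ≠ 0 ∧ chi (w i1) = g0 → w i2 ≠ 0 ∧ chi (w i2) = g1 →
      w i3 ≠ 0 ∧ chi (w i3) = g2 → w i4 ≠ 0 ∧ chi (w i4) = g3 → w i5 ≠ 0 ∧ chi (w i5) = g4 →
      w i6 ≠ 0 → w i7 ≠ 0 → w i8 ≠ 0 ∧ w i1 * w i2 * w i8 ^ 2 ≠ κ * w i3 * w i4 * w i6 ^ 2 →
      w i9 ≠ 0 ∧ κ * w i1 * w i3 * w i9 ^ 2 ≠ w i2 * w i4 * w i7 ^ 2 → T w) :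
    (1 - 100 / (Fintype.card F : ℝ)) * (Fintype.card F : ℝ) ^ 9 / 32 ≤ cn T := by
  have hq' : (100 : ℝ) ≤ Fintype.card F := by exact_mod_cast hq
  have p1 : (0 : ℝ) ≤ Fintype.card F - 1 := by linarith
  have p2 : (0 : ℝ) ≤ ((Fintype.card F : ℝ) - 1) / 2 := by linarith
  have p3 : (0 : ℝ) ≤ Fintype.card F - 3 := by linarith
  have H := two (fun z : F => z = 0) _ zero_le_one (card_one ⟨0, rfl⟩) fun z _ =>
    two _ _ p2 (card_R h2 g0) fun a ha =>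
    two _ _ p2 (card_R h2 g1) fun b hb =>
    two _ _ p2 (card_R h2 g2) fun c hc =>
    two _ _ p2 (card_R h2 g3) fun d _ =>
    two _ _ p2 (card_R h2 g4) fun e _ =>
    two _ _ p1 (card_nz (F := F)) fun u _ =>
    two _ _ p1 (card_nz (F := F)) fun v _ =>
    two _ _ p3 (card_av (A := κ * c * d * u ^ 2) (mul_ne_zero ha.1 hb.1)) fun x _ =>
      card_av (A := b * d * v ^ 2) (mul_ne_zero (mul_ne_zero hκ ha.1) hc.1)
  refine le_trans ?_ (H.trans (tr _ hi fun w hw => h w hw.1 hw.2.1 hw.2.2.1 hw.2.2.2.1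
    hw.2.2.2.2.1 hw.2.2.2.2.2.1 hw.2.2.2.2.2.2.1 hw.2.2.2.2.2.2.2.1 hw.2.2.2.2.2.2.2.2.1
    hw.2.2.2.2.2.2.2.2.2))
  generalize (Fintype.card F : ℝ) = q at hq' p1 p3
  have q0 : 0 < q := by linarith
  have b1 : (1 - 100 / q) * q ^ 9 ≤ (q - 3) ^ 9 := by
    have e1 := one_add_mul_le_pow (a := -(3 / q))
      (by have : 3 / q ≤ 1 := (div_le_one q0).2 (by linarith); linarith) 9
    have e2 : (q - 3) ^ 9 = (1 + -(3 / q)) ^ 9 * q ^ 9 := by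
      rw [← mul_pow]
      congr 1
      field_simp
      ring
    rw [e2]
    refine mul_le_mul_of_nonneg_right (le_trans ?_ e1) (by positivity)
    have : 0 < 1 / q := by positivity
    simp only [div_eq_mul_one_div (100 : ℝ) q, div_eq_mul_one_div (3 : ℝ) q]
    push_cast
    linarith
  have b2 : (q - 3) ^ 7 ≤ (q - 1) ^ 7 := pow_le_pow_left₀ p3 (by linarith) 7
  have b3 := mul_le_mul_of_nonneg_right b2 (sq_nonneg (q - 3))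
  calc _ ≤ (q - 3) ^ 7 * (q - 3) ^ 2 / 32 := by
        rw [← pow_add]
        exact div_le_div_of_nonneg_right b1 (by norm_num)
    _ ≤ (q - 1) ^ 7 * (q - 3) ^ 2 / 32 := div_le_div_of_nonneg_right b3 (by norm_num)
    _ = _ := by ring

theorem cntB (h2 : (2 : F) ≠ 0) (hq : 100 ≤ Fintype.card F) {κ κ' : F} (hκ : κ ≠ 0) (hκ' : κ' ≠ 0)
    (i0 i1 i2 i3 i4 i5 i6 i7 i8 i9 : Fin 10)
    (hi : Function.Injective ![i0, i1, i2, i3, i4, i5, i6, i7, i8, i9])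
    (g0 g1 g2 g3 g4 : ZMod 2) (α β γ δ : F → F → F → F → F → F → F → F → F)
    (hd : ∀ a b c u v d x y : F, a ≠ 0 → b ≠ 0 → c ≠ 0 → u ≠ 0 → v ≠ 0 → d ≠ 0 → x ≠ 0 → y ≠ 0 →
      κ * a * b * u ^ 2 = κ' * c * d * v ^ 2 → κ' * a * c * y ^ 2 ≠ κ * b * d * x ^ 2 →
      α a b c u v d x y * δ a b c u v d x y - β a b c u v d x y * γ a b c u v d x y ≠ 0)
    {T : (Fin 10 → F) → Prop}
    (h : ∀ w : Fin 10 → F, w i0 ≠ 0 ∧ chi (w i0) = g0 → w i1 ≠ 0 ∧ chi (w i1) = g1 →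
      w i2 ≠ 0 ∧ chi (w i2) = g2 → w i3 ≠ 0 → w i4 ≠ 0 →
      w i5 ≠ 0 ∧ κ * w i0 * w i1 * w i3 ^ 2 = κ' * w i2 * w i5 * w i4 ^ 2 → w i6 ≠ 0 →
      w i7 ≠ 0 ∧ κ' * w i0 * w i2 * w i7 ^ 2 ≠ κ * w i1 * w i5 * w i6 ^ 2 →
      w i8 ≠ 0 → w i9 ≠ 0 →
      (∀ P, P = α (w i0) (w i1) (w i2) (w i3) (w i4) (w i5) (w i6) (w i7) * w i8
        - β (w i0) (w i1) (w i2) (w i3) (w i4) (w i5) (w i6) (w i7) * w i9 → P ≠ 0 ∧ chi P = g3) →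
      (∀ P, P = γ (w i0) (w i1) (w i2) (w i3) (w i4) (w i5) (w i6) (w i7) * w i8
        - δ (w i0) (w i1) (w i2) (w i3) (w i4) (w i5) (w i6) (w i7) * w i9 → P ≠ 0 ∧ chi P = g4) →
      T w) :
    (1 - 100 / (Fintype.card F : ℝ)) * (Fintype.card F : ℝ) ^ 9 / 32 ≤ cn T := by
  have hq' : (100 : ℝ) ≤ Fintype.card F := by exact_mod_cast hq
  have p1 : (0 : ℝ) ≤ Fintype.card F - 1 := by linarith
  have p2 : (0 : ℝ) ≤ ((Fintype.card F : ℝ) - 1) / 2 := by linarith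
  have p3 : (0 : ℝ) ≤ Fintype.card F - 3 := by linarith
  have H := two _ _ p2 (card_R h2 g0) fun a ha =>
    two _ _ p2 (card_R h2 g1) fun b hb =>
    two _ _ p2 (card_R h2 g2) fun c hc =>
    two _ _ p1 (card_nz (F := F)) fun u hu =>
    two _ _ p1 (card_nz (F := F)) fun v hv =>
    two (fun d : F => d ≠ 0 ∧ κ * a * b * u ^ 2 = κ' * c * d * v ^ 2) _ zero_le_one
      (card_one ⟨κ * a * b * u ^ 2 / (κ' * c * v ^ 2), by
        have := ha.1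
        have := hb.1
        have := hc.1
        exact ⟨by positivity, by field_simp⟩⟩) fun d hd' =>
    two _ _ p1 (card_nz (F := F)) fun x hx =>
    two _ _ p3 (card_av (A := κ * b * d * x ^ 2) (mul_ne_zero (mul_ne_zero hκ' ha.1) hc.1))
      fun y hy => card_pr h2 (hd a b c u v d x y ha.1 hb.1 hc.1 hu hv hd'.1 hx hy.1 hd'.2 hy.2)
        g3 g4
  refine le_trans ?_ (H.trans (tr _ hi fun w hw => h w hw.1 hw.2.1 hw.2.2.1 hw.2.2.2.1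
    hw.2.2.2.2.1 hw.2.2.2.2.2.1 hw.2.2.2.2.2.2.1 hw.2.2.2.2.2.2.2.1 hw.2.2.2.2.2.2.2.2.1
    hw.2.2.2.2.2.2.2.2.2.1 (fun _ e => e ▸ hw.2.2.2.2.2.2.2.2.2.2.1)
    fun _ e => e ▸ hw.2.2.2.2.2.2.2.2.2.2.2))
  generalize (Fintype.card F : ℝ) = q at hq' p1 p3
  have q0 : 0 < q := by linarith
  have p5 : 0 ≤ q - 10 := by linarith
  have b1 : (1 - 100 / q) * q ^ 9 ≤ (q - 10) ^ 9 := by
    have e1 := one_add_mul_le_pow (a := -(10 / q))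
      (by have : 10 / q ≤ 1 := (div_le_one q0).2 (by linarith); linarith) 9
    have e2 : (q - 10) ^ 9 = (1 + -(10 / q)) ^ 9 * q ^ 9 := by
      rw [← mul_pow]
      congr 1
      field_simp
      ring
    rw [e2]
    refine mul_le_mul_of_nonneg_right (le_trans ?_ e1) (by positivity)
    have : 0 < 1 / q := by positivity
    simp only [div_eq_mul_one_div (100 : ℝ) q, div_eq_mul_one_div (10 : ℝ) q]
    push_cast
    linarith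
  have b2 : (q - 10) ^ 6 ≤ (q - 1) ^ 6 := pow_le_pow_left₀ p5 (by linarith) 6
  have b3 : (q - 10) ^ 2 ≤ 4 * ((q - 1) / 2 * ((q - 1) / 2) - 2 * q) := by nlinarith
  have b4 := mul_le_mul b2 (mul_le_mul (show q - 10 ≤ q - 3 by linarith) b3 (by positivity) p3)
    (by positivity) (by positivity)
  calc _ ≤ (q - 10) ^ 6 * ((q - 10) * (q - 10) ^ 2) / 32 :=
        div_le_div_of_nonneg_right (b1.trans_eq (by ring)) (by norm_num)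
    _ ≤ _ := (div_le_div_of_nonneg_right b4 (by norm_num)).trans_eq (by ring)

end DJ

end Pool.Agent.MP_e23604_nt.U

end

section

/-!
The local counts.
-/

open Finset
open scoped Classical

namespace Pool.Agent.MP_e23604_nt.U

namespace DJ

theorem all12 {P : Fin 12 → Prop} (h0 : P 0) (h1 : P 1) (h2 : P 2) (h3 : P 3) (h4 : P 4) (h5 : P 5)
    (h6 : P 6) (h7 : P 7) (h8 : P 8) (h9 : P 9) (h10 : P 10) (h11 : P 11) (τ : Fin 12) : P τ := by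
  fin_cases τ
  exacts [h0, h1, h2, h3, h4, h5, h6, h7, h8, h9, h10, h11]

theorem all5 {P : Fin 5 → Prop} (h0 : P 0) (h1 : P 1) (h2 : P 2) (h3 : P 3) (h4 : P 4)
    (τ : Fin 5) : P τ := by
  fin_cases τ
  exacts [h0, h1, h2, h3, h4]

theorem all4 {P : Fin 10 → Prop} (h6 : P 6) (h7 : P 7) (h8 : P 8) (h9 : P 9) (j : Fin 10)
    (hj : 6 ≤ j.val) : P j := by
  fin_cases j
  exacts [absurd hj (by decide), absurd hj (by decide), absurd hj (by decide),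
    absurd hj (by decide), absurd hj (by decide), absurd hj (by decide), h6, h7, h8, h9]

variable {F : Type} [Field F]

theorem four_ne (h2 : (2 : F) ≠ 0) : (4 : F) ≠ 0 := fun h =>
  mul_ne_zero h2 h2 (by linear_combination h)

theorem crF_pos {w : Fin 10 → F} {σ τ : Fin 12} (h : ¬ cls σ < cls τ ∨ sg τ = 1) :
    crF w σ τ = chi (siteF w τ) := by
  unfold crF
  rcases h with h | h <;> simp [h]

theorem crF_neg {w : Fin 10 → F} {σ τ : Fin 12} (h : cls σ < cls τ ∧ sg τ = -1) :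
    crF w σ τ = chi (-siteF w τ) := by
  unfold crF
  simp [h.1, h.2]

theorem two_ne {l : ℕ} [Fact l.Prime] (h : l ≠ 2) : (2 : ZMod l) ≠ 0 := fun h2 =>
  h ((Nat.prime_dvd_prime_iff_eq Fact.out Nat.prime_two).1
    ((ZMod.natCast_eq_zero_iff 2 l).1 (by exact_mod_cast h2)))

variable [Fintype F]

theorem loc0 (h2 : (2 : F) ≠ 0) (hq : 100 ≤ Fintype.card F) (g : Fin 5 → ZMod 2) :
    (1 - 100 / (Fintype.card F : ℝ)) * (Fintype.card F : ℝ) ^ 9 / 32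
      ≤ cn fun w : Fin 10 → F => LocF w 0 ∧ ∀ i, crF w 0 (piv 0 i) = g i := by
  have h4 : (4 : F) ≠ 0 := four_ne h2
  refine cntM h2 hq one_ne_zero 0 2 4 5 3 1 7 9 6 8 (by decide) (g 2) (g 0) (g 1) (g 3)
    (g 4 + g 3 + chi (-1 : F)) ?_
  · rintro w s0 ⟨n2, c2⟩ ⟨n4, c4⟩ ⟨n5, c5⟩ ⟨n3, c3⟩ ⟨n1, c1⟩ n7 n9 ⟨n6, r1⟩ ⟨n8, r2⟩
    have m2 : w 2 * w 4 * w 6 ^ 2 - w 5 * w 3 * w 7 ^ 2 ≠ 0 :=
      fun h => r1 (by linear_combination h)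
    have m3 : w 2 * w 5 * w 8 ^ 2 - w 4 * w 3 * w 9 ^ 2 ≠ 0 :=
      fun h => r2 (by linear_combination h)
    have m6 := chi_mon' (P := w 0 * w 2 * w 6 ^ 2 - 4 * w 3 * w 1 * w 9 ^ 2)
      n1 n3 (mul_ne_zero h2 n9) (by rw [s0]; ring)
    have m7 := chi_mon (P := 4 * w 2 * w 1 * w 8 ^ 2 - w 0 * w 3 * w 7 ^ 2)
      n1 n2 (mul_ne_zero h2 n8) (by rw [s0]; ring)
    have m10 := chi_mon' (P := w 0 * w 4 * w 6 ^ 2 - 4 * w 5 * w 1 * w 8 ^ 2)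
      n1 n5 (mul_ne_zero h2 n8) (by rw [s0]; ring)
    have m11 := chi_mon (P := 4 * w 4 * w 1 * w 9 ^ 2 - w 0 * w 5 * w 7 ^ 2)
      n1 n4 (mul_ne_zero h2 n9) (by rw [s0]; ring)
    have p4 : chi (w 0 * w 2 * w 6 ^ 2 - 4 * w 3 * w 1 * w 9 ^ 2) = g 4 := by
      rw [m6.2, c1, c3]
      generalize g 4 = a, g 3 = b, chi (-1 : F) = c
      revert a b c
      decide
    refine ⟨⟨s0, all12 (P := fun τ => τ ≠ 0 → siteF w τ ≠ 0)
      (fun h => absurd rfl h) (fun _ => n1) (fun _ => m2) (fun _ => m3)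
      (fun _ => n4) (fun _ => n5) (fun _ => m6.1) (fun _ => m7.1)
      (fun _ => n2) (fun _ => n3) (fun _ => m10.1) (fun _ => m11.1),
      all4 (P := fun j => w j ≠ 0) n6 n7 n8 n9⟩,
      all5 (P := fun i => crF w 0 (piv 0 i) = g i)
      ((crF_pos (by decide)).trans c4)
      ((crF_pos (by decide)).trans c5)
      ((crF_pos (by decide)).trans c2)
      ((crF_pos (by decide)).trans c3)
      ((crF_pos (by decide)).trans p4)⟩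

theorem loc1 (h2 : (2 : F) ≠ 0) (hq : 100 ≤ Fintype.card F) (g : Fin 5 → ZMod 2) :
    (1 - 100 / (Fintype.card F : ℝ)) * (Fintype.card F : ℝ) ^ 9 / 32
      ≤ cn fun w : Fin 10 → F => LocF w 1 ∧ ∀ i, crF w 1 (piv 1 i) = g i := by
  have h4 : (4 : F) ≠ 0 := four_ne h2
  refine cntM h2 hq one_ne_zero 1 2 4 5 3 0 7 9 6 8 (by decide) (g 2) (g 0) (g 1) (g 3)
    (g 4 + g 2) ?_
  · rintro w s0 ⟨n2, c2⟩ ⟨n4, c4⟩ ⟨n5, c5⟩ ⟨n3, c3⟩ ⟨n0, c0⟩ n7 n9 ⟨n6, r1⟩ ⟨n8, r2⟩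
    have m2 : w 2 * w 4 * w 6 ^ 2 - w 5 * w 3 * w 7 ^ 2 ≠ 0 :=
      fun h => r1 (by linear_combination h)
    have m3 : w 2 * w 5 * w 8 ^ 2 - w 4 * w 3 * w 9 ^ 2 ≠ 0 :=
      fun h => r2 (by linear_combination h)
    have m6 := chi_mon (P := w 0 * w 2 * w 6 ^ 2 - 4 * w 3 * w 1 * w 9 ^ 2)
      n0 n2 n6 (by rw [s0]; ring)
    have m7 := chi_mon' (P := 4 * w 2 * w 1 * w 8 ^ 2 - w 0 * w 3 * w 7 ^ 2)
      n0 n3 n7 (by rw [s0]; ring)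
    have m10 := chi_mon (P := w 0 * w 4 * w 6 ^ 2 - 4 * w 5 * w 1 * w 8 ^ 2)
      n0 n4 n6 (by rw [s0]; ring)
    have m11 := chi_mon' (P := 4 * w 4 * w 1 * w 9 ^ 2 - w 0 * w 5 * w 7 ^ 2)
      n0 n5 n7 (by rw [s0]; ring)
    have p4 : chi (w 0 * w 2 * w 6 ^ 2 - 4 * w 3 * w 1 * w 9 ^ 2) = g 4 := by
      rw [m6.2, c0, c2]
      generalize g 4 = a, g 2 = b, chi (-1 : F) = c
      revert a b c
      decide
    refine ⟨⟨s0, all12 (P := fun τ => τ ≠ 1 → siteF w τ ≠ 0)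
      (fun _ => n0) (fun h => absurd rfl h) (fun _ => m2) (fun _ => m3)
      (fun _ => n4) (fun _ => n5) (fun _ => m6.1) (fun _ => m7.1)
      (fun _ => n2) (fun _ => n3) (fun _ => m10.1) (fun _ => m11.1),
      all4 (P := fun j => w j ≠ 0) n6 n7 n8 n9⟩,
      all5 (P := fun i => crF w 1 (piv 1 i) = g i)
      ((crF_pos (by decide)).trans c4)
      ((crF_pos (by decide)).trans c5)
      ((crF_pos (by decide)).trans c2)
      ((crF_pos (by decide)).trans c3)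
      ((crF_pos (by decide)).trans p4)⟩

theorem loc2 (h2 : (2 : F) ≠ 0) (hq : 100 ≤ Fintype.card F) (g : Fin 5 → ZMod 2) :
    (1 - 100 / (Fintype.card F : ℝ)) * (Fintype.card F : ℝ) ^ 9 / 32
      ≤ cn fun w : Fin 10 → F => LocF w 2 ∧ ∀ i, crF w 2 (piv 2 i) = g i := by
  have h4 : (4 : F) ≠ 0 := four_ne h2
  refine cntB h2 hq one_ne_zero one_ne_zero 2 4 5 6 7 3 9 8 0 1 (by decide) (g 2) (g 0) (g 1) (g 3) (g 4)
    (fun a b c u v d x y => a * u ^ 2) (fun a b c u v d x y => 4 * d * x ^ 2)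
    (fun a b c u v d x y => b * u ^ 2) (fun a b c u v d x y => 4 * c * y ^ 2) ?_ ?_
  · intro a b c u v d x y ha hb hc hu hv hd hx hy r1 r2 h
    have hM : (4 * u ^ 2 : F) ≠ 0 := by simp [*]
    refine r2 (mul_left_cancel₀ hM ?_)
    linear_combination (1) * h
      + (0) * r1
  · rintro w ⟨n2, c2⟩ ⟨n4, c4⟩ ⟨n5, c5⟩ n6 n7 ⟨n3, r1⟩ n9 ⟨n8, r2⟩ n0 n1 l1 l2
    have s0 : w 2 * w 4 * w 6 ^ 2 - w 5 * w 3 * w 7 ^ 2 = 0 := by
      linear_combination r1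
    have m3 : w 2 * w 5 * w 8 ^ 2 - w 4 * w 3 * w 9 ^ 2 ≠ 0 :=
      fun h => r2 (by linear_combination h)
    have p6 := l1 (w 0 * w 2 * w 6 ^ 2 - 4 * w 3 * w 1 * w 9 ^ 2) (by ring)
    have p10 := l2 (w 0 * w 4 * w 6 ^ 2 - 4 * w 5 * w 1 * w 8 ^ 2) (by ring)
    have m7 : 4 * w 2 * w 1 * w 8 ^ 2 - w 0 * w 3 * w 7 ^ 2 ≠ 0 :=
      fun h => mul_ne_zero n2 (p10.1) (by
        linear_combination (-(w 5)) * h + (w 0) * s0)
    have m11 : 4 * w 4 * w 1 * w 9 ^ 2 - w 0 * w 5 * w 7 ^ 2 ≠ 0 :=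
      fun h => mul_ne_zero n4 (p6.1) (by
        linear_combination (-(w 3)) * h + (w 0) * s0)
    refine ⟨⟨s0, all12 (P := fun τ => τ ≠ 2 → siteF w τ ≠ 0)
      (fun _ => n0) (fun _ => n1) (fun h => absurd rfl h) (fun _ => m3)
      (fun _ => n4) (fun _ => n5) (fun _ => p6.1) (fun _ => m7)
      (fun _ => n2) (fun _ => n3) (fun _ => p10.1) (fun _ => m11),
      all4 (P := fun j => w j ≠ 0) n6 n7 n8 n9⟩,
      all5 (P := fun i => crF w 2 (piv 2 i) = g i)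
      ((crF_pos (by decide)).trans c4)
      ((crF_pos (by decide)).trans c5)
      ((crF_pos (by decide)).trans c2)
      ((crF_pos (by decide)).trans p6.2)
      ((crF_pos (by decide)).trans p10.2)⟩

theorem loc3 (h2 : (2 : F) ≠ 0) (hq : 100 ≤ Fintype.card F) (g : Fin 5 → ZMod 2) :
    (1 - 100 / (Fintype.card F : ℝ)) * (Fintype.card F : ℝ) ^ 9 / 32
      ≤ cn fun w : Fin 10 → F => LocF w 3 ∧ ∀ i, crF w 3 (piv 3 i) = g i := by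
  have h4 : (4 : F) ≠ 0 := four_ne h2
  refine cntB h2 hq one_ne_zero one_ne_zero 2 5 4 8 9 3 7 6 0 1 (by decide) (g 2) (g 1) (g 0) (g 3) (g 4)
    (fun a b c u v d x y => a * y ^ 2) (fun a b c u v d x y => 4 * d * v ^ 2)
    (fun a b c u v d x y => d * x ^ 2) (fun a b c u v d x y => 4 * a * u ^ 2) ?_ ?_
  · intro a b c u v d x y ha hb hc hu hv hd hx hy r1 r2 h
    have hM : (4 * a * u ^ 2 : F) ≠ 0 := by simp [*]
    refine r2 (mul_left_cancel₀ hM ?_)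
    linear_combination (c) * h
      + (-(4 * d * x ^ 2)) * r1
  · rintro w ⟨n2, c2⟩ ⟨n5, c5⟩ ⟨n4, c4⟩ n8 n9 ⟨n3, r1⟩ n7 ⟨n6, r2⟩ n0 n1 l1 l2
    have s0 : w 2 * w 5 * w 8 ^ 2 - w 4 * w 3 * w 9 ^ 2 = 0 := by
      linear_combination r1
    have m2 : w 2 * w 4 * w 6 ^ 2 - w 5 * w 3 * w 7 ^ 2 ≠ 0 :=
      fun h => r2 (by linear_combination h)
    have p6 := l1 (w 0 * w 2 * w 6 ^ 2 - 4 * w 3 * w 1 * w 9 ^ 2) (by ring)
    have p7 := l2 (-(4 * w 2 * w 1 * w 8 ^ 2 - w 0 * w 3 * w 7 ^ 2)) (by ring)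
    have m10 : w 0 * w 4 * w 6 ^ 2 - 4 * w 5 * w 1 * w 8 ^ 2 ≠ 0 :=
      fun h => mul_ne_zero n4 (p6.1) (by
        linear_combination (w 2) * h + (4 * w 1) * s0)
    have m11 : 4 * w 4 * w 1 * w 9 ^ 2 - w 0 * w 5 * w 7 ^ 2 ≠ 0 :=
      fun h => mul_ne_zero n5 (neg_ne_zero.1 p7.1) (by
        linear_combination (w 3) * h + (4 * w 1) * s0)
    refine ⟨⟨s0, all12 (P := fun τ => τ ≠ 3 → siteF w τ ≠ 0)
      (fun _ => n0) (fun _ => n1) (fun _ => m2) (fun h => absurd rfl h)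
      (fun _ => n4) (fun _ => n5) (fun _ => p6.1) (fun _ => neg_ne_zero.1 p7.1)
      (fun _ => n2) (fun _ => n3) (fun _ => m10) (fun _ => m11),
      all4 (P := fun j => w j ≠ 0) n6 n7 n8 n9⟩,
      all5 (P := fun i => crF w 3 (piv 3 i) = g i)
      ((crF_pos (by decide)).trans c4)
      ((crF_pos (by decide)).trans c5)
      ((crF_pos (by decide)).trans c2)
      ((crF_pos (by decide)).trans p6.2)
      ((crF_neg (by decide)).trans p7.2)⟩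

theorem loc4 (h2 : (2 : F) ≠ 0) (hq : 100 ≤ Fintype.card F) (g : Fin 5 → ZMod 2) :
    (1 - 100 / (Fintype.card F : ℝ)) * (Fintype.card F : ℝ) ^ 9 / 32
      ≤ cn fun w : Fin 10 → F => LocF w 4 ∧ ∀ i, crF w 4 (piv 4 i) = g i := by
  have h4 : (4 : F) ≠ 0 := four_ne h2
  refine cntM h2 hq h4 4 2 0 1 3 5 9 7 6 8 (by decide) (g 2) (g 0) (g 1) (g 3)
    (g 4 + g 3 + chi (-1 : F)) ?_
  · rintro w s0 ⟨n2, c2⟩ ⟨n0, c0⟩ ⟨n1, c1⟩ ⟨n3, c3⟩ ⟨n5, c5⟩ n9 n7 ⟨n6, r1⟩ ⟨n8, r2⟩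
    have m6 : w 0 * w 2 * w 6 ^ 2 - 4 * w 3 * w 1 * w 9 ^ 2 ≠ 0 :=
      fun h => r1 (by linear_combination h)
    have m7 : 4 * w 2 * w 1 * w 8 ^ 2 - w 0 * w 3 * w 7 ^ 2 ≠ 0 :=
      fun h => r2 (by linear_combination h)
    have m2 := chi_mon' (P := w 2 * w 4 * w 6 ^ 2 - w 5 * w 3 * w 7 ^ 2)
      n3 n5 n7 (by rw [s0]; ring)
    have m3 := chi_mon (P := w 2 * w 5 * w 8 ^ 2 - w 4 * w 3 * w 9 ^ 2)
      n2 n5 n8 (by rw [s0]; ring)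
    have m10 := chi_mon' (P := w 0 * w 4 * w 6 ^ 2 - 4 * w 5 * w 1 * w 8 ^ 2)
      n1 n5 (mul_ne_zero h2 n8) (by rw [s0]; ring)
    have m11 := chi_mon' (P := 4 * w 4 * w 1 * w 9 ^ 2 - w 0 * w 5 * w 7 ^ 2)
      n0 n5 n7 (by rw [s0]; ring)
    have p4 : chi (w 2 * w 4 * w 6 ^ 2 - w 5 * w 3 * w 7 ^ 2) = g 4 := by
      rw [m2.2, c3, c5]
      generalize g 4 = a, g 3 = b, chi (-1 : F) = c
      revert a b c
      decide
    refine ⟨⟨s0, all12 (P := fun τ => τ ≠ 4 → siteF w τ ≠ 0)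
      (fun _ => n0) (fun _ => n1) (fun _ => m2.1) (fun _ => m3.1)
      (fun h => absurd rfl h) (fun _ => n5) (fun _ => m6) (fun _ => m7)
      (fun _ => n2) (fun _ => n3) (fun _ => m10.1) (fun _ => m11.1),
      all4 (P := fun j => w j ≠ 0) n6 n7 n8 n9⟩,
      all5 (P := fun i => crF w 4 (piv 4 i) = g i)
      ((crF_pos (by decide)).trans c0)
      ((crF_pos (by decide)).trans c1)
      ((crF_pos (by decide)).trans c2)
      ((crF_pos (by decide)).trans c3)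
      ((crF_pos (by decide)).trans p4)⟩

theorem loc5 (h2 : (2 : F) ≠ 0) (hq : 100 ≤ Fintype.card F) (g : Fin 5 → ZMod 2) :
    (1 - 100 / (Fintype.card F : ℝ)) * (Fintype.card F : ℝ) ^ 9 / 32
      ≤ cn fun w : Fin 10 → F => LocF w 5 ∧ ∀ i, crF w 5 (piv 5 i) = g i := by
  have h4 : (4 : F) ≠ 0 := four_ne h2
  refine cntM h2 hq h4 5 2 0 1 3 4 9 7 6 8 (by decide) (g 2) (g 0) (g 1) (g 3)
    (g 4 + g 2) ?_
  · rintro w s0 ⟨n2, c2⟩ ⟨n0, c0⟩ ⟨n1, c1⟩ ⟨n3, c3⟩ ⟨n4, c4⟩ n9 n7 ⟨n6, r1⟩ ⟨n8, r2⟩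
    have m6 : w 0 * w 2 * w 6 ^ 2 - 4 * w 3 * w 1 * w 9 ^ 2 ≠ 0 :=
      fun h => r1 (by linear_combination h)
    have m7 : 4 * w 2 * w 1 * w 8 ^ 2 - w 0 * w 3 * w 7 ^ 2 ≠ 0 :=
      fun h => r2 (by linear_combination h)
    have m2 := chi_mon (P := w 2 * w 4 * w 6 ^ 2 - w 5 * w 3 * w 7 ^ 2)
      n2 n4 n6 (by rw [s0]; ring)
    have m3 := chi_mon' (P := w 2 * w 5 * w 8 ^ 2 - w 4 * w 3 * w 9 ^ 2)
      n3 n4 n9 (by rw [s0]; ring)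
    have m10 := chi_mon (P := w 0 * w 4 * w 6 ^ 2 - 4 * w 5 * w 1 * w 8 ^ 2)
      n0 n4 n6 (by rw [s0]; ring)
    have m11 := chi_mon (P := 4 * w 4 * w 1 * w 9 ^ 2 - w 0 * w 5 * w 7 ^ 2)
      n1 n4 (mul_ne_zero h2 n9) (by rw [s0]; ring)
    have p4 : chi (w 2 * w 4 * w 6 ^ 2 - w 5 * w 3 * w 7 ^ 2) = g 4 := by
      rw [m2.2, c2, c4]
      generalize g 4 = a, g 2 = b, chi (-1 : F) = c
      revert a b c
      decide
    refine ⟨⟨s0, all12 (P := fun τ => τ ≠ 5 → siteF w τ ≠ 0)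
      (fun _ => n0) (fun _ => n1) (fun _ => m2.1) (fun _ => m3.1)
      (fun _ => n4) (fun h => absurd rfl h) (fun _ => m6) (fun _ => m7)
      (fun _ => n2) (fun _ => n3) (fun _ => m10.1) (fun _ => m11.1),
      all4 (P := fun j => w j ≠ 0) n6 n7 n8 n9⟩,
      all5 (P := fun i => crF w 5 (piv 5 i) = g i)
      ((crF_pos (by decide)).trans c0)
      ((crF_pos (by decide)).trans c1)
      ((crF_pos (by decide)).trans c2)
      ((crF_pos (by decide)).trans c3)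
      ((crF_pos (by decide)).trans p4)⟩

theorem loc6 (h2 : (2 : F) ≠ 0) (hq : 100 ≤ Fintype.card F) (g : Fin 5 → ZMod 2) :
    (1 - 100 / (Fintype.card F : ℝ)) * (Fintype.card F : ℝ) ^ 9 / 32
      ≤ cn fun w : Fin 10 → F => LocF w 6 ∧ ∀ i, crF w 6 (piv 6 i) = g i := by
  have h4 : (4 : F) ≠ 0 := four_ne h2
  refine cntB h2 hq one_ne_zero h4 2 0 1 6 9 3 7 8 4 5 (by decide) (g 2) (g 0) (g 1) (g 3) (g 4)
    (fun a b c u v d x y => a * u ^ 2) (fun a b c u v d x y => d * x ^ 2)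
    (fun a b c u v d x y => -(d * v ^ 2)) (fun a b c u v d x y => -(a * y ^ 2)) ?_ ?_
  · intro a b c u v d x y ha hb hc hu hv hd hx hy r1 r2 h
    have hM : (a * u ^ 2 : F) ≠ 0 := by simp [*]
    refine r2 (mul_left_cancel₀ hM ?_)
    linear_combination (-(4 * c)) * h
      + (-(d * x ^ 2)) * r1
  · rintro w ⟨n2, c2⟩ ⟨n0, c0⟩ ⟨n1, c1⟩ n6 n9 ⟨n3, r1⟩ n7 ⟨n8, r2⟩ n4 n5 l1 l2
    have s0 : w 0 * w 2 * w 6 ^ 2 - 4 * w 3 * w 1 * w 9 ^ 2 = 0 := by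
      linear_combination r1
    have m7 : 4 * w 2 * w 1 * w 8 ^ 2 - w 0 * w 3 * w 7 ^ 2 ≠ 0 :=
      fun h => r2 (by linear_combination h)
    have p2 := l1 (w 2 * w 4 * w 6 ^ 2 - w 5 * w 3 * w 7 ^ 2) (by ring)
    have p3 := l2 (w 2 * w 5 * w 8 ^ 2 - w 4 * w 3 * w 9 ^ 2) (by ring)
    have m10 : w 0 * w 4 * w 6 ^ 2 - 4 * w 5 * w 1 * w 8 ^ 2 ≠ 0 :=
      fun h => mul_ne_zero (mul_ne_zero h4 n1) (p3.1) (by
        linear_combination (-(w 2)) * h + (w 4) * s0)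
    have m11 : 4 * w 4 * w 1 * w 9 ^ 2 - w 0 * w 5 * w 7 ^ 2 ≠ 0 :=
      fun h => mul_ne_zero n0 (p2.1) (by
        linear_combination (w 3) * h + (w 4) * s0)
    refine ⟨⟨s0, all12 (P := fun τ => τ ≠ 6 → siteF w τ ≠ 0)
      (fun _ => n0) (fun _ => n1) (fun _ => p2.1) (fun _ => p3.1)
      (fun _ => n4) (fun _ => n5) (fun h => absurd rfl h) (fun _ => m7)
      (fun _ => n2) (fun _ => n3) (fun _ => m10) (fun _ => m11),
      all4 (P := fun j => w j ≠ 0) n6 n7 n8 n9⟩,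
      all5 (P := fun i => crF w 6 (piv 6 i) = g i)
      ((crF_pos (by decide)).trans c0)
      ((crF_pos (by decide)).trans c1)
      ((crF_pos (by decide)).trans c2)
      ((crF_pos (by decide)).trans p2.2)
      ((crF_pos (by decide)).trans p3.2)⟩

theorem loc7 (h2 : (2 : F) ≠ 0) (hq : 100 ≤ Fintype.card F) (g : Fin 5 → ZMod 2) :
    (1 - 100 / (Fintype.card F : ℝ)) * (Fintype.card F : ℝ) ^ 9 / 32
      ≤ cn fun w : Fin 10 → F => LocF w 7 ∧ ∀ i, crF w 7 (piv 7 i) = g i := by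
  have h4 : (4 : F) ≠ 0 := four_ne h2
  refine cntB h2 hq h4 one_ne_zero 2 1 0 8 7 3 9 6 4 5 (by decide) (g 2) (g 1) (g 0) (g 3) (g 4)
    (fun a b c u v d x y => a * y ^ 2) (fun a b c u v d x y => d * v ^ 2)
    (fun a b c u v d x y => -(d * x ^ 2)) (fun a b c u v d x y => -(a * u ^ 2)) ?_ ?_
  · intro a b c u v d x y ha hb hc hu hv hd hx hy r1 r2 h
    have hM : (a * u ^ 2 : F) ≠ 0 := by simp [*]
    refine r2 (mul_left_cancel₀ hM ?_)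
    linear_combination (-(c)) * h
      + (-(d * x ^ 2)) * r1
  · rintro w ⟨n2, c2⟩ ⟨n1, c1⟩ ⟨n0, c0⟩ n8 n7 ⟨n3, r1⟩ n9 ⟨n6, r2⟩ n4 n5 l1 l2
    have s0 : 4 * w 2 * w 1 * w 8 ^ 2 - w 0 * w 3 * w 7 ^ 2 = 0 := by
      linear_combination r1
    have m6 : w 0 * w 2 * w 6 ^ 2 - 4 * w 3 * w 1 * w 9 ^ 2 ≠ 0 :=
      fun h => r2 (by linear_combination h)
    have p2 := l1 (w 2 * w 4 * w 6 ^ 2 - w 5 * w 3 * w 7 ^ 2) (by ring)
    have p3 := l2 (w 2 * w 5 * w 8 ^ 2 - w 4 * w 3 * w 9 ^ 2) (by ring)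
    have m10 : w 0 * w 4 * w 6 ^ 2 - 4 * w 5 * w 1 * w 8 ^ 2 ≠ 0 :=
      fun h => mul_ne_zero n0 (p2.1) (by
        linear_combination (w 2) * h + (w 5) * s0)
    have m11 : 4 * w 4 * w 1 * w 9 ^ 2 - w 0 * w 5 * w 7 ^ 2 ≠ 0 :=
      fun h => mul_ne_zero (mul_ne_zero h4 n1) (p3.1) (by
        linear_combination (-(w 3)) * h + (w 5) * s0)
    refine ⟨⟨s0, all12 (P := fun τ => τ ≠ 7 → siteF w τ ≠ 0)
      (fun _ => n0) (fun _ => n1) (fun _ => p2.1) (fun _ => p3.1)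
      (fun _ => n4) (fun _ => n5) (fun _ => m6) (fun h => absurd rfl h)
      (fun _ => n2) (fun _ => n3) (fun _ => m10) (fun _ => m11),
      all4 (P := fun j => w j ≠ 0) n6 n7 n8 n9⟩,
      all5 (P := fun i => crF w 7 (piv 7 i) = g i)
      ((crF_pos (by decide)).trans c0)
      ((crF_pos (by decide)).trans c1)
      ((crF_pos (by decide)).trans c2)
      ((crF_pos (by decide)).trans p2.2)
      ((crF_pos (by decide)).trans p3.2)⟩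

theorem loc8 (h2 : (2 : F) ≠ 0) (hq : 100 ≤ Fintype.card F) (g : Fin 5 → ZMod 2) :
    (1 - 100 / (Fintype.card F : ℝ)) * (Fintype.card F : ℝ) ^ 9 / 32
      ≤ cn fun w : Fin 10 → F => LocF w 8 ∧ ∀ i, crF w 8 (piv 8 i) = g i := by
  have h4 : (4 : F) ≠ 0 := four_ne h2
  refine cntM h2 hq h4 2 4 0 1 5 3 8 7 6 9 (by decide) (g 2) (g 0) (g 1) (g 3)
    (g 4 + g 3 + chi (-1 : F)) ?_
  · rintro w s0 ⟨n4, c4⟩ ⟨n0, c0⟩ ⟨n1, c1⟩ ⟨n5, c5⟩ ⟨n3, c3⟩ n8 n7 ⟨n6, r1⟩ ⟨n9, r2⟩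
    have m10 : w 0 * w 4 * w 6 ^ 2 - 4 * w 5 * w 1 * w 8 ^ 2 ≠ 0 :=
      fun h => r1 (by linear_combination h)
    have m11 : 4 * w 4 * w 1 * w 9 ^ 2 - w 0 * w 5 * w 7 ^ 2 ≠ 0 :=
      fun h => r2 (by linear_combination h)
    have m2 := chi_mon' (P := w 2 * w 4 * w 6 ^ 2 - w 5 * w 3 * w 7 ^ 2)
      n3 n5 n7 (by rw [s0]; ring)
    have m3 := chi_mon' (P := w 2 * w 5 * w 8 ^ 2 - w 4 * w 3 * w 9 ^ 2)
      n3 n4 n9 (by rw [s0]; ring)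
    have m6 := chi_mon' (P := w 0 * w 2 * w 6 ^ 2 - 4 * w 3 * w 1 * w 9 ^ 2)
      n1 n3 (mul_ne_zero h2 n9) (by rw [s0]; ring)
    have m7 := chi_mon' (P := 4 * w 2 * w 1 * w 8 ^ 2 - w 0 * w 3 * w 7 ^ 2)
      n0 n3 n7 (by rw [s0]; ring)
    have p4 : chi (w 2 * w 4 * w 6 ^ 2 - w 5 * w 3 * w 7 ^ 2) = g 4 := by
      rw [m2.2, c3, c5]
      generalize g 4 = a, g 3 = b, chi (-1 : F) = c
      revert a b c
      decide
    refine ⟨⟨s0, all12 (P := fun τ => τ ≠ 8 → siteF w τ ≠ 0)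
      (fun _ => n0) (fun _ => n1) (fun _ => m2.1) (fun _ => m3.1)
      (fun _ => n4) (fun _ => n5) (fun _ => m6.1) (fun _ => m7.1)
      (fun h => absurd rfl h) (fun _ => n3) (fun _ => m10) (fun _ => m11),
      all4 (P := fun j => w j ≠ 0) n6 n7 n8 n9⟩,
      all5 (P := fun i => crF w 8 (piv 8 i) = g i)
      ((crF_pos (by decide)).trans c0)
      ((crF_pos (by decide)).trans c1)
      ((crF_pos (by decide)).trans c4)
      ((crF_pos (by decide)).trans c5)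
      ((crF_pos (by decide)).trans p4)⟩

theorem loc9 (h2 : (2 : F) ≠ 0) (hq : 100 ≤ Fintype.card F) (g : Fin 5 → ZMod 2) :
    (1 - 100 / (Fintype.card F : ℝ)) * (Fintype.card F : ℝ) ^ 9 / 32
      ≤ cn fun w : Fin 10 → F => LocF w 9 ∧ ∀ i, crF w 9 (piv 9 i) = g i := by
  have h4 : (4 : F) ≠ 0 := four_ne h2
  refine cntM h2 hq h4 3 4 0 1 5 2 8 7 6 9 (by decide) (g 2) (g 0) (g 1) (g 3)
    (g 4 + g 2) ?_
  · rintro w s0 ⟨n4, c4⟩ ⟨n0, c0⟩ ⟨n1, c1⟩ ⟨n5, c5⟩ ⟨n2, c2⟩ n8 n7 ⟨n6, r1⟩ ⟨n9, r2⟩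
    have m10 : w 0 * w 4 * w 6 ^ 2 - 4 * w 5 * w 1 * w 8 ^ 2 ≠ 0 :=
      fun h => r1 (by linear_combination h)
    have m11 : 4 * w 4 * w 1 * w 9 ^ 2 - w 0 * w 5 * w 7 ^ 2 ≠ 0 :=
      fun h => r2 (by linear_combination h)
    have m2 := chi_mon (P := w 2 * w 4 * w 6 ^ 2 - w 5 * w 3 * w 7 ^ 2)
      n2 n4 n6 (by rw [s0]; ring)
    have m3 := chi_mon (P := w 2 * w 5 * w 8 ^ 2 - w 4 * w 3 * w 9 ^ 2)
      n2 n5 n8 (by rw [s0]; ring)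
    have m6 := chi_mon (P := w 0 * w 2 * w 6 ^ 2 - 4 * w 3 * w 1 * w 9 ^ 2)
      n0 n2 n6 (by rw [s0]; ring)
    have m7 := chi_mon (P := 4 * w 2 * w 1 * w 8 ^ 2 - w 0 * w 3 * w 7 ^ 2)
      n1 n2 (mul_ne_zero h2 n8) (by rw [s0]; ring)
    have p4 : chi (w 2 * w 4 * w 6 ^ 2 - w 5 * w 3 * w 7 ^ 2) = g 4 := by
      rw [m2.2, c2, c4]
      generalize g 4 = a, g 2 = b, chi (-1 : F) = c
      revert a b c
      decide
    refine ⟨⟨s0, all12 (P := fun τ => τ ≠ 9 → siteF w τ ≠ 0)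
      (fun _ => n0) (fun _ => n1) (fun _ => m2.1) (fun _ => m3.1)
      (fun _ => n4) (fun _ => n5) (fun _ => m6.1) (fun _ => m7.1)
      (fun _ => n2) (fun h => absurd rfl h) (fun _ => m10) (fun _ => m11),
      all4 (P := fun j => w j ≠ 0) n6 n7 n8 n9⟩,
      all5 (P := fun i => crF w 9 (piv 9 i) = g i)
      ((crF_pos (by decide)).trans c0)
      ((crF_pos (by decide)).trans c1)
      ((crF_pos (by decide)).trans c4)
      ((crF_pos (by decide)).trans c5)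
      ((crF_pos (by decide)).trans p4)⟩

theorem loc10 (h2 : (2 : F) ≠ 0) (hq : 100 ≤ Fintype.card F) (g : Fin 5 → ZMod 2) :
    (1 - 100 / (Fintype.card F : ℝ)) * (Fintype.card F : ℝ) ^ 9 / 32
      ≤ cn fun w : Fin 10 → F => LocF w 10 ∧ ∀ i, crF w 10 (piv 10 i) = g i := by
  have h4 : (4 : F) ≠ 0 := four_ne h2
  refine cntB h2 hq one_ne_zero h4 4 0 1 6 8 5 7 9 2 3 (by decide) (g 2) (g 0) (g 1) (g 3) (g 4)
    (fun a b c u v d x y => a * u ^ 2) (fun a b c u v d x y => d * x ^ 2)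
    (fun a b c u v d x y => d * v ^ 2) (fun a b c u v d x y => a * y ^ 2) ?_ ?_
  · intro a b c u v d x y ha hb hc hu hv hd hx hy r1 r2 h
    have hM : (a * u ^ 2 : F) ≠ 0 := by simp [*]
    refine r2 (mul_left_cancel₀ hM ?_)
    linear_combination (4 * c) * h
      + (-(d * x ^ 2)) * r1
  · rintro w ⟨n4, c4⟩ ⟨n0, c0⟩ ⟨n1, c1⟩ n6 n8 ⟨n5, r1⟩ n7 ⟨n9, r2⟩ n2 n3 l1 l2
    have s0 : w 0 * w 4 * w 6 ^ 2 - 4 * w 5 * w 1 * w 8 ^ 2 = 0 := by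
      linear_combination r1
    have m11 : 4 * w 4 * w 1 * w 9 ^ 2 - w 0 * w 5 * w 7 ^ 2 ≠ 0 :=
      fun h => r2 (by linear_combination h)
    have p2 := l1 (w 2 * w 4 * w 6 ^ 2 - w 5 * w 3 * w 7 ^ 2) (by ring)
    have p3 := l2 (w 2 * w 5 * w 8 ^ 2 - w 4 * w 3 * w 9 ^ 2) (by ring)
    have m6 : w 0 * w 2 * w 6 ^ 2 - 4 * w 3 * w 1 * w 9 ^ 2 ≠ 0 :=
      fun h => mul_ne_zero (mul_ne_zero h4 n1) (p3.1) (by
        linear_combination (w 4) * h + (-(w 2)) * s0)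
    have m7 : 4 * w 2 * w 1 * w 8 ^ 2 - w 0 * w 3 * w 7 ^ 2 ≠ 0 :=
      fun h => mul_ne_zero n0 (p2.1) (by
        linear_combination (w 5) * h + (w 2) * s0)
    refine ⟨⟨s0, all12 (P := fun τ => τ ≠ 10 → siteF w τ ≠ 0)
      (fun _ => n0) (fun _ => n1) (fun _ => p2.1) (fun _ => p3.1)
      (fun _ => n4) (fun _ => n5) (fun _ => m6) (fun _ => m7)
      (fun _ => n2) (fun _ => n3) (fun h => absurd rfl h) (fun _ => m11),
      all4 (P := fun j => w j ≠ 0) n6 n7 n8 n9⟩,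
      all5 (P := fun i => crF w 10 (piv 10 i) = g i)
      ((crF_pos (by decide)).trans c0)
      ((crF_pos (by decide)).trans c1)
      ((crF_pos (by decide)).trans c4)
      ((crF_pos (by decide)).trans p2.2)
      ((crF_pos (by decide)).trans p3.2)⟩

theorem loc11 (h2 : (2 : F) ≠ 0) (hq : 100 ≤ Fintype.card F) (g : Fin 5 → ZMod 2) :
    (1 - 100 / (Fintype.card F : ℝ)) * (Fintype.card F : ℝ) ^ 9 / 32
      ≤ cn fun w : Fin 10 → F => LocF w 11 ∧ ∀ i, crF w 11 (piv 11 i) = g i := by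
  have h4 : (4 : F) ≠ 0 := four_ne h2
  refine cntB h2 hq h4 one_ne_zero 4 1 0 9 7 5 8 6 2 3 (by decide) (g 2) (g 1) (g 0) (g 3) (g 4)
    (fun a b c u v d x y => a * y ^ 2) (fun a b c u v d x y => d * v ^ 2)
    (fun a b c u v d x y => d * x ^ 2) (fun a b c u v d x y => a * u ^ 2) ?_ ?_
  · intro a b c u v d x y ha hb hc hu hv hd hx hy r1 r2 h
    have hM : (a * u ^ 2 : F) ≠ 0 := by simp [*]
    refine r2 (mul_left_cancel₀ hM ?_)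
    linear_combination (c) * h
      + (-(d * x ^ 2)) * r1
  · rintro w ⟨n4, c4⟩ ⟨n1, c1⟩ ⟨n0, c0⟩ n9 n7 ⟨n5, r1⟩ n8 ⟨n6, r2⟩ n2 n3 l1 l2
    have s0 : 4 * w 4 * w 1 * w 9 ^ 2 - w 0 * w 5 * w 7 ^ 2 = 0 := by
      linear_combination r1
    have m10 : w 0 * w 4 * w 6 ^ 2 - 4 * w 5 * w 1 * w 8 ^ 2 ≠ 0 :=
      fun h => r2 (by linear_combination h)
    have p2 := l1 (w 2 * w 4 * w 6 ^ 2 - w 5 * w 3 * w 7 ^ 2) (by ring)
    have p3 := l2 (w 2 * w 5 * w 8 ^ 2 - w 4 * w 3 * w 9 ^ 2) (by ring)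
    have m6 : w 0 * w 2 * w 6 ^ 2 - 4 * w 3 * w 1 * w 9 ^ 2 ≠ 0 :=
      fun h => mul_ne_zero n0 (p2.1) (by
        linear_combination (w 4) * h + (w 3) * s0)
    have m7 : 4 * w 2 * w 1 * w 8 ^ 2 - w 0 * w 3 * w 7 ^ 2 ≠ 0 :=
      fun h => mul_ne_zero (mul_ne_zero h4 n1) (p3.1) (by
        linear_combination (w 5) * h + (-(w 3)) * s0)
    refine ⟨⟨s0, all12 (P := fun τ => τ ≠ 11 → siteF w τ ≠ 0)
      (fun _ => n0) (fun _ => n1) (fun _ => p2.1) (fun _ => p3.1)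
      (fun _ => n4) (fun _ => n5) (fun _ => m6) (fun _ => m7)
      (fun _ => n2) (fun _ => n3) (fun _ => m10) (fun h => absurd rfl h),
      all4 (P := fun j => w j ≠ 0) n6 n7 n8 n9⟩,
      all5 (P := fun i => crF w 11 (piv 11 i) = g i)
      ((crF_pos (by decide)).trans c0)
      ((crF_pos (by decide)).trans c1)
      ((crF_pos (by decide)).trans c4)
      ((crF_pos (by decide)).trans p2.2)
      ((crF_pos (by decide)).trans p3.2)⟩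

end DJ

open DJ in
theorem dLoc (σ : Fin 12) : DLoc σ := by
  intro l _ hl g
  have h2 : (2 : ZMod l) ≠ 0 := two_ne (by omega)
  have hq : 100 ≤ Fintype.card (ZMod l) := by
    rw [ZMod.card]
    omega
  have h := all12 (P := fun σ => (1 - 100 / (Fintype.card (ZMod l) : ℝ)) *
      (Fintype.card (ZMod l) : ℝ) ^ 9 / 32
      ≤ cn fun w : Fin 10 → ZMod l => LocF w σ ∧ ∀ i, crF w σ (piv σ i) = g i)
    (loc0 h2 hq g) (loc1 h2 hq g) (loc2 h2 hq g) (loc3 h2 hq g) (loc4 h2 hq g) (loc5 h2 hq g)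
    (loc6 h2 hq g) (loc7 h2 hq g) (loc8 h2 hq g) (loc9 h2 hq g) (loc10 h2 hq g) (loc11 h2 hq g) σ
  rw [ZMod.card, cn_eq] at h
  exact h

end Pool.Agent.MP_e23604_nt.U

end

section

/-!
The border is determined by its pivot bits.
-/

open Finset
open scoped Classical

namespace Pool.Agent.MP_e23604_nt.U

namespace DJ

theorem sum0 (c : F12) : ∑ ρ ∈ univ.filter (fun ρ => cls ρ = 0), c ρ
    = c 0 + c 1 + c 2 + c 3 := by
  simp [sum_filter, Fin.sum_univ_succ, add_assoc, cls]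

theorem sum1 (c : F12) : ∑ ρ ∈ univ.filter (fun ρ => cls ρ = 1), c ρ
    = c 4 + c 5 + c 6 + c 7 := by
  simp [sum_filter, Fin.sum_univ_succ, add_assoc, cls]

variable {F : Type} [Field F] [Fintype F]

theorem rel4 {a b c d s r : F} (ha : a ≠ 0) (hb : b ≠ 0) (hc : c ≠ 0) (hd : d ≠ 0) (hs : s ≠ 0)
    (h : a * b * c * d * s ^ 2 = r ^ 2) : chi a + chi b + chi c + chi d = 0 := by
  rw [← chi_four ha hb hc hd hs, h, chi_sq]

theorem rel4' {a b c d s r : F} (ha : a ≠ 0) (hb : b ≠ 0) (hc : c ≠ 0) (hd : d ≠ 0) (hs : s ≠ 0)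
    (h : a * b * c * d * s ^ 2 = -r ^ 2) : chi a + chi b + chi c + chi d = chi (-1 : F) := by
  have h0 : r ^ 2 ≠ 0 := neg_ne_zero.1
    (h ▸ mul_ne_zero (mul_ne_zero (mul_ne_zero (mul_ne_zero ha hb) hc) hd) (pow_ne_zero 2 hs))
  rw [← chi_four ha hb hc hd hs, h, ← neg_one_mul, chi_mul (neg_ne_zero.2 one_ne_zero) h0, chi_sq,
    add_zero]

theorem tab0 (c : F12) (e : ZMod 2)
    (h0 : c 4 + c 5 + c 10 + c 11 = 0)
    (h1 : c 4 + c 6 + c 9 + c 11 = 0)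
    (h2 : c 4 + c 7 + c 8 + c 11 = 0) (τ : Fin 12) :
    bordOf c 0 e τ = ∑ i, c (piv 0 i) * gen 0 i τ + e * zet 0 τ := by
  simp only [bordOf, sum0, sum1, Fin.sum_univ_five]
  fin_cases τ <;> simp [cls, piv, gen, zet] <;> grind

theorem dt0 (h2 : (2 : F) ≠ 0) (w : Fin 10 → F) (h : LocF w 0) (τ : Fin 12) :
    bordOf (crF w 0) 0 (chi (-1 : F)) τ =
      ∑ i, crF w 0 (piv 0 i) * gen 0 i τ + chi (-1 : F) * zet 0 τ := by
  have s0 : w 0 = 0 := h.1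
  have n4 : w 4 ≠ 0 := h.2.1 4 (by decide)
  have e4 : crF w 0 4 = chi (w 4) :=
    crF_pos (by decide)
  have n5 : w 5 ≠ 0 := h.2.1 5 (by decide)
  have e5 : crF w 0 5 = chi (w 5) :=
    crF_pos (by decide)
  have n6 : w 0 * w 2 * w 6 ^ 2 - 4 * w 3 * w 1 * w 9 ^ 2 ≠ 0 := h.2.1 6 (by decide)
  have e6 : crF w 0 6 = chi (w 0 * w 2 * w 6 ^ 2 - 4 * w 3 * w 1 * w 9 ^ 2) :=
    crF_pos (by decide)
  have n7 : -(4 * w 2 * w 1 * w 8 ^ 2 - w 0 * w 3 * w 7 ^ 2) ≠ 0 :=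
    neg_ne_zero.2 (h.2.1 7 (by decide))
  have e7 : crF w 0 7 = chi (-(4 * w 2 * w 1 * w 8 ^ 2 - w 0 * w 3 * w 7 ^ 2)) :=
    crF_neg (by decide)
  have n8 : w 2 ≠ 0 := h.2.1 8 (by decide)
  have e8 : crF w 0 8 = chi (w 2) :=
    crF_pos (by decide)
  have n9 : w 3 ≠ 0 := h.2.1 9 (by decide)
  have e9 : crF w 0 9 = chi (w 3) :=
    crF_pos (by decide)
  have n10 : w 0 * w 4 * w 6 ^ 2 - 4 * w 5 * w 1 * w 8 ^ 2 ≠ 0 := h.2.1 10 (by decide)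
  have e10 : crF w 0 10 = chi (w 0 * w 4 * w 6 ^ 2 - 4 * w 5 * w 1 * w 8 ^ 2) :=
    crF_pos (by decide)
  have n11 : -(4 * w 4 * w 1 * w 9 ^ 2 - w 0 * w 5 * w 7 ^ 2) ≠ 0 :=
    neg_ne_zero.2 (h.2.1 11 (by decide))
  have e11 : crF w 0 11 = chi (-(4 * w 4 * w 1 * w 9 ^ 2 - w 0 * w 5 * w 7 ^ 2)) :=
    crF_neg (by decide)
  refine tab0 _ _ ?_ ?_ ?_ τ
  · rw [e4, e5, e10, e11]
    exact rel4 (r := 4 * w 1 * w 4 * w 5 * w 8 * w 9)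
      n4 n5 n10 n11 one_ne_zero (by rw [s0]; ring)
  · rw [e4, e6, e9, e11]
    exact rel4 (r := 4 * w 1 * w 3 * w 4 * w 9 ^ 2)
      n4 n6 n9 n11 one_ne_zero (by rw [s0]; ring)
  · rw [e4, e7, e8, e11]
    exact rel4 (r := 4 * w 1 * w 2 * w 4 * w 8 * w 9)
      n4 n7 n8 n11 one_ne_zero (by rw [s0]; ring)

theorem tab1 (c : F12) (e : ZMod 2)
    (h0 : c 4 + c 5 + c 10 + c 11 = 0)
    (h1 : c 4 + c 6 + c 8 + c 10 = 0)
    (h2 : c 4 + c 7 + c 9 + c 10 = 0) (τ : Fin 12) :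
    bordOf c 1 e τ = ∑ i, c (piv 1 i) * gen 1 i τ + e * zet 1 τ := by
  simp only [bordOf, sum0, sum1, Fin.sum_univ_five]
  fin_cases τ <;> simp [cls, piv, gen, zet] <;> grind

theorem dt1 (h2 : (2 : F) ≠ 0) (w : Fin 10 → F) (h : LocF w 1) (τ : Fin 12) :
    bordOf (crF w 1) 1 (chi (-1 : F)) τ =
      ∑ i, crF w 1 (piv 1 i) * gen 1 i τ + chi (-1 : F) * zet 1 τ := by
  have s0 : w 1 = 0 := h.1
  have n4 : w 4 ≠ 0 := h.2.1 4 (by decide)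
  have e4 : crF w 1 4 = chi (w 4) :=
    crF_pos (by decide)
  have n5 : w 5 ≠ 0 := h.2.1 5 (by decide)
  have e5 : crF w 1 5 = chi (w 5) :=
    crF_pos (by decide)
  have n6 : w 0 * w 2 * w 6 ^ 2 - 4 * w 3 * w 1 * w 9 ^ 2 ≠ 0 := h.2.1 6 (by decide)
  have e6 : crF w 1 6 = chi (w 0 * w 2 * w 6 ^ 2 - 4 * w 3 * w 1 * w 9 ^ 2) :=
    crF_pos (by decide)
  have n7 : -(4 * w 2 * w 1 * w 8 ^ 2 - w 0 * w 3 * w 7 ^ 2) ≠ 0 :=
    neg_ne_zero.2 (h.2.1 7 (by decide))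
  have e7 : crF w 1 7 = chi (-(4 * w 2 * w 1 * w 8 ^ 2 - w 0 * w 3 * w 7 ^ 2)) :=
    crF_neg (by decide)
  have n8 : w 2 ≠ 0 := h.2.1 8 (by decide)
  have e8 : crF w 1 8 = chi (w 2) :=
    crF_pos (by decide)
  have n9 : w 3 ≠ 0 := h.2.1 9 (by decide)
  have e9 : crF w 1 9 = chi (w 3) :=
    crF_pos (by decide)
  have n10 : w 0 * w 4 * w 6 ^ 2 - 4 * w 5 * w 1 * w 8 ^ 2 ≠ 0 := h.2.1 10 (by decide)
  have e10 : crF w 1 10 = chi (w 0 * w 4 * w 6 ^ 2 - 4 * w 5 * w 1 * w 8 ^ 2) :=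
    crF_pos (by decide)
  have n11 : -(4 * w 4 * w 1 * w 9 ^ 2 - w 0 * w 5 * w 7 ^ 2) ≠ 0 :=
    neg_ne_zero.2 (h.2.1 11 (by decide))
  have e11 : crF w 1 11 = chi (-(4 * w 4 * w 1 * w 9 ^ 2 - w 0 * w 5 * w 7 ^ 2)) :=
    crF_neg (by decide)
  refine tab1 _ _ ?_ ?_ ?_ τ
  · rw [e4, e5, e10, e11]
    exact rel4 (r := w 0 * w 4 * w 5 * w 6 * w 7)
      n4 n5 n10 n11 one_ne_zero (by rw [s0]; ring)
  · rw [e4, e6, e8, e10]
    exact rel4 (r := w 0 * w 2 * w 4 * w 6 ^ 2)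
      n4 n6 n8 n10 one_ne_zero (by rw [s0]; ring)
  · rw [e4, e7, e9, e10]
    exact rel4 (r := w 0 * w 3 * w 4 * w 6 * w 7)
      n4 n7 n9 n10 one_ne_zero (by rw [s0]; ring)

theorem tab2 (c : F12) (e : ZMod 2)
    (h0 : c 4 + c 5 + c 8 + c 9 = 0)
    (h1 : c 4 + c 6 + c 9 + c 11 = 0)
    (h2 : c 5 + c 7 + c 8 + c 10 = 0) (τ : Fin 12) :
    bordOf c 2 e τ = ∑ i, c (piv 2 i) * gen 2 i τ + e * zet 2 τ := by
  simp only [bordOf, sum0, sum1, Fin.sum_univ_five]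
  fin_cases τ <;> simp [cls, piv, gen, zet] <;> grind

theorem dt2 (h2 : (2 : F) ≠ 0) (w : Fin 10 → F) (h : LocF w 2) (τ : Fin 12) :
    bordOf (crF w 2) 2 (chi (-1 : F)) τ =
      ∑ i, crF w 2 (piv 2 i) * gen 2 i τ + chi (-1 : F) * zet 2 τ := by
  have s0 : w 2 * w 4 * w 6 ^ 2 - w 5 * w 3 * w 7 ^ 2 = 0 := h.1
  have n4 : w 4 ≠ 0 := h.2.1 4 (by decide)
  have e4 : crF w 2 4 = chi (w 4) :=
    crF_pos (by decide)
  have n5 : w 5 ≠ 0 := h.2.1 5 (by decide)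
  have e5 : crF w 2 5 = chi (w 5) :=
    crF_pos (by decide)
  have n6 : w 0 * w 2 * w 6 ^ 2 - 4 * w 3 * w 1 * w 9 ^ 2 ≠ 0 := h.2.1 6 (by decide)
  have e6 : crF w 2 6 = chi (w 0 * w 2 * w 6 ^ 2 - 4 * w 3 * w 1 * w 9 ^ 2) :=
    crF_pos (by decide)
  have n7 : -(4 * w 2 * w 1 * w 8 ^ 2 - w 0 * w 3 * w 7 ^ 2) ≠ 0 :=
    neg_ne_zero.2 (h.2.1 7 (by decide))
  have e7 : crF w 2 7 = chi (-(4 * w 2 * w 1 * w 8 ^ 2 - w 0 * w 3 * w 7 ^ 2)) :=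
    crF_neg (by decide)
  have n8 : w 2 ≠ 0 := h.2.1 8 (by decide)
  have e8 : crF w 2 8 = chi (w 2) :=
    crF_pos (by decide)
  have n9 : w 3 ≠ 0 := h.2.1 9 (by decide)
  have e9 : crF w 2 9 = chi (w 3) :=
    crF_pos (by decide)
  have n10 : w 0 * w 4 * w 6 ^ 2 - 4 * w 5 * w 1 * w 8 ^ 2 ≠ 0 := h.2.1 10 (by decide)
  have e10 : crF w 2 10 = chi (w 0 * w 4 * w 6 ^ 2 - 4 * w 5 * w 1 * w 8 ^ 2) :=
    crF_pos (by decide)
  have n11 : -(4 * w 4 * w 1 * w 9 ^ 2 - w 0 * w 5 * w 7 ^ 2) ≠ 0 :=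
    neg_ne_zero.2 (h.2.1 11 (by decide))
  have e11 : crF w 2 11 = chi (-(4 * w 4 * w 1 * w 9 ^ 2 - w 0 * w 5 * w 7 ^ 2)) :=
    crF_neg (by decide)
  refine tab2 _ _ ?_ ?_ ?_ τ
  · rw [e4, e5, e8, e9]
    exact rel4 (r := w 3 * w 5 * w 7)
      n4 n5 n8 n9 (h.2.2 6 (by decide)) (by
      linear_combination (w 3 * w 5) * s0)
  · rw [e4, e6, e9, e11]
    exact rel4 (r := w 0 * w 2 * w 4 * w 6 ^ 2 - 4 * w 1 * w 3 * w 4 * w 9 ^ 2)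
      n4 n6 n9 n11 one_ne_zero (by
      linear_combination (-(w 0 ^ 2 * w 2 * w 4 * w 6 ^ 2) + 4 * w 0 * w 1 * w 3 * w 4 * w 9 ^ 2) * s0)
  · rw [e5, e7, e8, e10]
    exact rel4 (r := -(w 0 * w 3 * w 5 * w 7 ^ 2) + 4 * w 1 * w 2 * w 5 * w 8 ^ 2)
      n5 n7 n8 n10 one_ne_zero (by
      linear_combination (w 0 ^ 2 * w 3 * w 5 * w 7 ^ 2 - 4 * w 0 * w 1 * w 2 * w 5 * w 8 ^ 2) * s0)

theorem tab3 (c : F12) (e : ZMod 2)
    (h0 : c 4 + c 5 + c 8 + c 9 = 0)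
    (h1 : c 4 + c 6 + c 8 + c 10 = 0)
    (h2 : c 5 + c 7 + c 9 + c 11 = 0) (τ : Fin 12) :
    bordOf c 3 e τ = ∑ i, c (piv 3 i) * gen 3 i τ + e * zet 3 τ := by
  simp only [bordOf, sum0, sum1, Fin.sum_univ_five]
  fin_cases τ <;> simp [cls, piv, gen, zet] <;> grind

theorem dt3 (h2 : (2 : F) ≠ 0) (w : Fin 10 → F) (h : LocF w 3) (τ : Fin 12) :
    bordOf (crF w 3) 3 (chi (-1 : F)) τ =
      ∑ i, crF w 3 (piv 3 i) * gen 3 i τ + chi (-1 : F) * zet 3 τ := by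
  have s0 : w 2 * w 5 * w 8 ^ 2 - w 4 * w 3 * w 9 ^ 2 = 0 := h.1
  have n4 : w 4 ≠ 0 := h.2.1 4 (by decide)
  have e4 : crF w 3 4 = chi (w 4) :=
    crF_pos (by decide)
  have n5 : w 5 ≠ 0 := h.2.1 5 (by decide)
  have e5 : crF w 3 5 = chi (w 5) :=
    crF_pos (by decide)
  have n6 : w 0 * w 2 * w 6 ^ 2 - 4 * w 3 * w 1 * w 9 ^ 2 ≠ 0 := h.2.1 6 (by decide)
  have e6 : crF w 3 6 = chi (w 0 * w 2 * w 6 ^ 2 - 4 * w 3 * w 1 * w 9 ^ 2) :=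
    crF_pos (by decide)
  have n7 : -(4 * w 2 * w 1 * w 8 ^ 2 - w 0 * w 3 * w 7 ^ 2) ≠ 0 :=
    neg_ne_zero.2 (h.2.1 7 (by decide))
  have e7 : crF w 3 7 = chi (-(4 * w 2 * w 1 * w 8 ^ 2 - w 0 * w 3 * w 7 ^ 2)) :=
    crF_neg (by decide)
  have n8 : w 2 ≠ 0 := h.2.1 8 (by decide)
  have e8 : crF w 3 8 = chi (w 2) :=
    crF_pos (by decide)
  have n9 : w 3 ≠ 0 := h.2.1 9 (by decide)
  have e9 : crF w 3 9 = chi (w 3) :=
    crF_pos (by decide)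
  have n10 : w 0 * w 4 * w 6 ^ 2 - 4 * w 5 * w 1 * w 8 ^ 2 ≠ 0 := h.2.1 10 (by decide)
  have e10 : crF w 3 10 = chi (w 0 * w 4 * w 6 ^ 2 - 4 * w 5 * w 1 * w 8 ^ 2) :=
    crF_pos (by decide)
  have n11 : -(4 * w 4 * w 1 * w 9 ^ 2 - w 0 * w 5 * w 7 ^ 2) ≠ 0 :=
    neg_ne_zero.2 (h.2.1 11 (by decide))
  have e11 : crF w 3 11 = chi (-(4 * w 4 * w 1 * w 9 ^ 2 - w 0 * w 5 * w 7 ^ 2)) :=
    crF_neg (by decide)
  refine tab3 _ _ ?_ ?_ ?_ τ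
  · rw [e4, e5, e8, e9]
    exact rel4 (r := w 3 * w 4 * w 9)
      n4 n5 n8 n9 (h.2.2 8 (by decide)) (by
      linear_combination (w 3 * w 4) * s0)
  · rw [e4, e6, e8, e10]
    exact rel4 (r := w 0 * w 2 * w 4 * w 6 ^ 2 - 4 * w 1 * w 3 * w 4 * w 9 ^ 2)
      n4 n6 n8 n10 one_ne_zero (by
      linear_combination (-(4 * w 0 * w 1 * w 2 * w 4 * w 6 ^ 2) + 16 * w 1 ^ 2 * w 3 * w 4 * w 9 ^ 2) * s0)
  · rw [e5, e7, e9, e11]
    exact rel4 (r := -(w 0 * w 3 * w 5 * w 7 ^ 2) + 4 * w 1 * w 2 * w 5 * w 8 ^ 2)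
      n5 n7 n9 n11 one_ne_zero (by
      linear_combination (4 * w 0 * w 1 * w 3 * w 5 * w 7 ^ 2 - 16 * w 1 ^ 2 * w 2 * w 5 * w 8 ^ 2) * s0)

theorem tab4 (c : F12) (e : ZMod 2)
    (h0 : c 0 + c 1 + c 10 + c 11 = e)
    (h1 : c 0 + c 2 + c 9 + c 11 = e)
    (h2 : c 0 + c 3 + c 8 + c 11 = 0) (τ : Fin 12) :
    bordOf c 4 e τ = ∑ i, c (piv 4 i) * gen 4 i τ + e * zet 4 τ := by
  simp only [bordOf, sum0, sum1, Fin.sum_univ_five]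
  fin_cases τ <;> simp [cls, piv, gen, zet] <;> grind

theorem dt4 (h2 : (2 : F) ≠ 0) (w : Fin 10 → F) (h : LocF w 4) (τ : Fin 12) :
    bordOf (crF w 4) 4 (chi (-1 : F)) τ =
      ∑ i, crF w 4 (piv 4 i) * gen 4 i τ + chi (-1 : F) * zet 4 τ := by
  have s0 : w 4 = 0 := h.1
  have n0 : w 0 ≠ 0 := h.2.1 0 (by decide)
  have e0 : crF w 4 0 = chi (w 0) :=
    crF_pos (by decide)
  have n1 : w 1 ≠ 0 := h.2.1 1 (by decide)
  have e1 : crF w 4 1 = chi (w 1) :=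
    crF_pos (by decide)
  have n2 : w 2 * w 4 * w 6 ^ 2 - w 5 * w 3 * w 7 ^ 2 ≠ 0 := h.2.1 2 (by decide)
  have e2 : crF w 4 2 = chi (w 2 * w 4 * w 6 ^ 2 - w 5 * w 3 * w 7 ^ 2) :=
    crF_pos (by decide)
  have n3 : w 2 * w 5 * w 8 ^ 2 - w 4 * w 3 * w 9 ^ 2 ≠ 0 := h.2.1 3 (by decide)
  have e3 : crF w 4 3 = chi (w 2 * w 5 * w 8 ^ 2 - w 4 * w 3 * w 9 ^ 2) :=
    crF_pos (by decide)
  have n8 : w 2 ≠ 0 := h.2.1 8 (by decide)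
  have e8 : crF w 4 8 = chi (w 2) :=
    crF_pos (by decide)
  have n9 : w 3 ≠ 0 := h.2.1 9 (by decide)
  have e9 : crF w 4 9 = chi (w 3) :=
    crF_pos (by decide)
  have n10 : w 0 * w 4 * w 6 ^ 2 - 4 * w 5 * w 1 * w 8 ^ 2 ≠ 0 := h.2.1 10 (by decide)
  have e10 : crF w 4 10 = chi (w 0 * w 4 * w 6 ^ 2 - 4 * w 5 * w 1 * w 8 ^ 2) :=
    crF_pos (by decide)
  have n11 : -(4 * w 4 * w 1 * w 9 ^ 2 - w 0 * w 5 * w 7 ^ 2) ≠ 0 :=
    neg_ne_zero.2 (h.2.1 11 (by decide))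
  have e11 : crF w 4 11 = chi (-(4 * w 4 * w 1 * w 9 ^ 2 - w 0 * w 5 * w 7 ^ 2)) :=
    crF_neg (by decide)
  refine tab4 _ _ ?_ ?_ ?_ τ
  · rw [e0, e1, e10, e11]
    exact rel4' (r := 2 * w 0 * w 1 * w 5 * w 7 * w 8)
      n0 n1 n10 n11 one_ne_zero (by rw [s0]; ring)
  · rw [e0, e2, e9, e11]
    exact rel4' (r := w 0 * w 3 * w 5 * w 7 ^ 2)
      n0 n2 n9 n11 one_ne_zero (by rw [s0]; ring)
  · rw [e0, e3, e8, e11]
    exact rel4 (r := w 0 * w 2 * w 5 * w 7 * w 8)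
      n0 n3 n8 n11 one_ne_zero (by rw [s0]; ring)

theorem tab5 (c : F12) (e : ZMod 2)
    (h0 : c 0 + c 1 + c 10 + c 11 = e)
    (h1 : c 0 + c 2 + c 8 + c 10 = 0)
    (h2 : c 0 + c 3 + c 9 + c 10 = e) (τ : Fin 12) :
    bordOf c 5 e τ = ∑ i, c (piv 5 i) * gen 5 i τ + e * zet 5 τ := by
  simp only [bordOf, sum0, sum1, Fin.sum_univ_five]
  fin_cases τ <;> simp [cls, piv, gen, zet] <;> grind

theorem dt5 (h2 : (2 : F) ≠ 0) (w : Fin 10 → F) (h : LocF w 5) (τ : Fin 12) :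
    bordOf (crF w 5) 5 (chi (-1 : F)) τ =
      ∑ i, crF w 5 (piv 5 i) * gen 5 i τ + chi (-1 : F) * zet 5 τ := by
  have s0 : w 5 = 0 := h.1
  have n0 : w 0 ≠ 0 := h.2.1 0 (by decide)
  have e0 : crF w 5 0 = chi (w 0) :=
    crF_pos (by decide)
  have n1 : w 1 ≠ 0 := h.2.1 1 (by decide)
  have e1 : crF w 5 1 = chi (w 1) :=
    crF_pos (by decide)
  have n2 : w 2 * w 4 * w 6 ^ 2 - w 5 * w 3 * w 7 ^ 2 ≠ 0 := h.2.1 2 (by decide)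
  have e2 : crF w 5 2 = chi (w 2 * w 4 * w 6 ^ 2 - w 5 * w 3 * w 7 ^ 2) :=
    crF_pos (by decide)
  have n3 : w 2 * w 5 * w 8 ^ 2 - w 4 * w 3 * w 9 ^ 2 ≠ 0 := h.2.1 3 (by decide)
  have e3 : crF w 5 3 = chi (w 2 * w 5 * w 8 ^ 2 - w 4 * w 3 * w 9 ^ 2) :=
    crF_pos (by decide)
  have n8 : w 2 ≠ 0 := h.2.1 8 (by decide)
  have e8 : crF w 5 8 = chi (w 2) :=
    crF_pos (by decide)
  have n9 : w 3 ≠ 0 := h.2.1 9 (by decide)
  have e9 : crF w 5 9 = chi (w 3) :=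
    crF_pos (by decide)
  have n10 : w 0 * w 4 * w 6 ^ 2 - 4 * w 5 * w 1 * w 8 ^ 2 ≠ 0 := h.2.1 10 (by decide)
  have e10 : crF w 5 10 = chi (w 0 * w 4 * w 6 ^ 2 - 4 * w 5 * w 1 * w 8 ^ 2) :=
    crF_pos (by decide)
  have n11 : -(4 * w 4 * w 1 * w 9 ^ 2 - w 0 * w 5 * w 7 ^ 2) ≠ 0 :=
    neg_ne_zero.2 (h.2.1 11 (by decide))
  have e11 : crF w 5 11 = chi (-(4 * w 4 * w 1 * w 9 ^ 2 - w 0 * w 5 * w 7 ^ 2)) :=
    crF_neg (by decide)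
  refine tab5 _ _ ?_ ?_ ?_ τ
  · rw [e0, e1, e10, e11]
    exact rel4' (r := 2 * w 0 * w 1 * w 4 * w 6 * w 9)
      n0 n1 n10 n11 one_ne_zero (by rw [s0]; ring)
  · rw [e0, e2, e8, e10]
    exact rel4 (r := w 0 * w 2 * w 4 * w 6 ^ 2)
      n0 n2 n8 n10 one_ne_zero (by rw [s0]; ring)
  · rw [e0, e3, e9, e10]
    exact rel4' (r := w 0 * w 3 * w 4 * w 6 * w 9)
      n0 n3 n9 n10 one_ne_zero (by rw [s0]; ring)

theorem tab6 (c : F12) (e : ZMod 2)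
    (h0 : c 0 + c 1 + c 8 + c 9 = 0)
    (h1 : c 0 + c 2 + c 9 + c 11 = e)
    (h2 : c 1 + c 3 + c 8 + c 10 = e) (τ : Fin 12) :
    bordOf c 6 e τ = ∑ i, c (piv 6 i) * gen 6 i τ + e * zet 6 τ := by
  simp only [bordOf, sum0, sum1, Fin.sum_univ_five]
  fin_cases τ <;> simp [cls, piv, gen, zet] <;> grind

theorem dt6 (h2 : (2 : F) ≠ 0) (w : Fin 10 → F) (h : LocF w 6) (τ : Fin 12) :
    bordOf (crF w 6) 6 (chi (-1 : F)) τ =
      ∑ i, crF w 6 (piv 6 i) * gen 6 i τ + chi (-1 : F) * zet 6 τ := by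
  have s0 : w 0 * w 2 * w 6 ^ 2 - 4 * w 3 * w 1 * w 9 ^ 2 = 0 := h.1
  have n0 : w 0 ≠ 0 := h.2.1 0 (by decide)
  have e0 : crF w 6 0 = chi (w 0) :=
    crF_pos (by decide)
  have n1 : w 1 ≠ 0 := h.2.1 1 (by decide)
  have e1 : crF w 6 1 = chi (w 1) :=
    crF_pos (by decide)
  have n2 : w 2 * w 4 * w 6 ^ 2 - w 5 * w 3 * w 7 ^ 2 ≠ 0 := h.2.1 2 (by decide)
  have e2 : crF w 6 2 = chi (w 2 * w 4 * w 6 ^ 2 - w 5 * w 3 * w 7 ^ 2) :=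
    crF_pos (by decide)
  have n3 : w 2 * w 5 * w 8 ^ 2 - w 4 * w 3 * w 9 ^ 2 ≠ 0 := h.2.1 3 (by decide)
  have e3 : crF w 6 3 = chi (w 2 * w 5 * w 8 ^ 2 - w 4 * w 3 * w 9 ^ 2) :=
    crF_pos (by decide)
  have n8 : w 2 ≠ 0 := h.2.1 8 (by decide)
  have e8 : crF w 6 8 = chi (w 2) :=
    crF_pos (by decide)
  have n9 : w 3 ≠ 0 := h.2.1 9 (by decide)
  have e9 : crF w 6 9 = chi (w 3) :=
    crF_pos (by decide)
  have n10 : w 0 * w 4 * w 6 ^ 2 - 4 * w 5 * w 1 * w 8 ^ 2 ≠ 0 := h.2.1 10 (by decide)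
  have e10 : crF w 6 10 = chi (w 0 * w 4 * w 6 ^ 2 - 4 * w 5 * w 1 * w 8 ^ 2) :=
    crF_pos (by decide)
  have n11 : -(4 * w 4 * w 1 * w 9 ^ 2 - w 0 * w 5 * w 7 ^ 2) ≠ 0 :=
    neg_ne_zero.2 (h.2.1 11 (by decide))
  have e11 : crF w 6 11 = chi (-(4 * w 4 * w 1 * w 9 ^ 2 - w 0 * w 5 * w 7 ^ 2)) :=
    crF_neg (by decide)
  refine tab6 _ _ ?_ ?_ ?_ τ
  · rw [e0, e1, e8, e9]
    exact rel4 (r := 2 * w 1 * w 3 * w 9)
      n0 n1 n8 n9 (h.2.2 6 (by decide)) (by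
      linear_combination (w 1 * w 3) * s0)
  · rw [e0, e2, e9, e11]
    exact rel4' (r := w 0 * w 2 * w 4 * w 6 ^ 2 - w 0 * w 3 * w 5 * w 7 ^ 2)
      n0 n2 n9 n11 one_ne_zero (by
      linear_combination (w 0 * w 2 * w 4 ^ 2 * w 6 ^ 2 - w 0 * w 3 * w 4 * w 5 * w 7 ^ 2) * s0)
  · rw [e1, e3, e8, e10]
    exact rel4' (r := 4 * w 1 * w 2 * w 5 * w 8 ^ 2 - 4 * w 1 * w 3 * w 4 * w 9 ^ 2)
      n1 n3 n8 n10 h2 (by
      linear_combination (4 * w 1 * w 2 * w 4 * w 5 * w 8 ^ 2 - 4 * w 1 * w 3 * w 4 ^ 2 * w 9 ^ 2) * s0)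

theorem tab7 (c : F12) (e : ZMod 2)
    (h0 : c 0 + c 1 + c 8 + c 9 = 0)
    (h1 : c 0 + c 2 + c 8 + c 10 = 0)
    (h2 : c 1 + c 3 + c 9 + c 11 = 0) (τ : Fin 12) :
    bordOf c 7 e τ = ∑ i, c (piv 7 i) * gen 7 i τ + e * zet 7 τ := by
  simp only [bordOf, sum0, sum1, Fin.sum_univ_five]
  fin_cases τ <;> simp [cls, piv, gen, zet] <;> grind

theorem dt7 (h2 : (2 : F) ≠ 0) (w : Fin 10 → F) (h : LocF w 7) (τ : Fin 12) :
    bordOf (crF w 7) 7 (chi (-1 : F)) τ =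
      ∑ i, crF w 7 (piv 7 i) * gen 7 i τ + chi (-1 : F) * zet 7 τ := by
  have s0 : 4 * w 2 * w 1 * w 8 ^ 2 - w 0 * w 3 * w 7 ^ 2 = 0 := h.1
  have n0 : w 0 ≠ 0 := h.2.1 0 (by decide)
  have e0 : crF w 7 0 = chi (w 0) :=
    crF_pos (by decide)
  have n1 : w 1 ≠ 0 := h.2.1 1 (by decide)
  have e1 : crF w 7 1 = chi (w 1) :=
    crF_pos (by decide)
  have n2 : w 2 * w 4 * w 6 ^ 2 - w 5 * w 3 * w 7 ^ 2 ≠ 0 := h.2.1 2 (by decide)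
  have e2 : crF w 7 2 = chi (w 2 * w 4 * w 6 ^ 2 - w 5 * w 3 * w 7 ^ 2) :=
    crF_pos (by decide)
  have n3 : w 2 * w 5 * w 8 ^ 2 - w 4 * w 3 * w 9 ^ 2 ≠ 0 := h.2.1 3 (by decide)
  have e3 : crF w 7 3 = chi (w 2 * w 5 * w 8 ^ 2 - w 4 * w 3 * w 9 ^ 2) :=
    crF_pos (by decide)
  have n8 : w 2 ≠ 0 := h.2.1 8 (by decide)
  have e8 : crF w 7 8 = chi (w 2) :=
    crF_pos (by decide)
  have n9 : w 3 ≠ 0 := h.2.1 9 (by decide)
  have e9 : crF w 7 9 = chi (w 3) :=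
    crF_pos (by decide)
  have n10 : w 0 * w 4 * w 6 ^ 2 - 4 * w 5 * w 1 * w 8 ^ 2 ≠ 0 := h.2.1 10 (by decide)
  have e10 : crF w 7 10 = chi (w 0 * w 4 * w 6 ^ 2 - 4 * w 5 * w 1 * w 8 ^ 2) :=
    crF_pos (by decide)
  have n11 : -(4 * w 4 * w 1 * w 9 ^ 2 - w 0 * w 5 * w 7 ^ 2) ≠ 0 :=
    neg_ne_zero.2 (h.2.1 11 (by decide))
  have e11 : crF w 7 11 = chi (-(4 * w 4 * w 1 * w 9 ^ 2 - w 0 * w 5 * w 7 ^ 2)) :=
    crF_neg (by decide)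
  refine tab7 _ _ ?_ ?_ ?_ τ
  · rw [e0, e1, e8, e9]
    exact rel4 (r := w 0 * w 3 * w 7)
      n0 n1 n8 n9 (mul_ne_zero h2 (h.2.2 8 (by decide))) (by
      linear_combination (w 0 * w 3) * s0)
  · rw [e0, e2, e8, e10]
    exact rel4 (r := w 0 * w 2 * w 4 * w 6 ^ 2 - w 0 * w 3 * w 5 * w 7 ^ 2)
      n0 n2 n8 n10 one_ne_zero (by
      linear_combination (-(w 0 * w 2 * w 4 * w 5 * w 6 ^ 2) + w 0 * w 3 * w 5 ^ 2 * w 7 ^ 2) * s0)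
  · rw [e1, e3, e9, e11]
    exact rel4 (r := 4 * w 1 * w 2 * w 5 * w 8 ^ 2 - 4 * w 1 * w 3 * w 4 * w 9 ^ 2)
      n1 n3 n9 n11 h2 (by
      linear_combination (-(4 * w 1 * w 2 * w 5 ^ 2 * w 8 ^ 2) + 4 * w 1 * w 3 * w 4 * w 5 * w 9 ^ 2) * s0)

theorem tab8 (c : F12) (e : ZMod 2)
    (h0 : c 0 + c 1 + c 6 + c 7 = 0)
    (h1 : c 0 + c 2 + c 5 + c 7 = 0)
    (h2 : c 0 + c 3 + c 4 + c 7 = 0) (τ : Fin 12) :
    bordOf c 8 e τ = ∑ i, c (piv 8 i) * gen 8 i τ + e * zet 8 τ := by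
  simp only [bordOf, sum0, sum1, Fin.sum_univ_five]
  fin_cases τ <;> simp [cls, piv, gen, zet] <;> grind

theorem dt8 (h2 : (2 : F) ≠ 0) (w : Fin 10 → F) (h : LocF w 8) (τ : Fin 12) :
    bordOf (crF w 8) 8 (chi (-1 : F)) τ =
      ∑ i, crF w 8 (piv 8 i) * gen 8 i τ + chi (-1 : F) * zet 8 τ := by
  have s0 : w 2 = 0 := h.1
  have n0 : w 0 ≠ 0 := h.2.1 0 (by decide)
  have e0 : crF w 8 0 = chi (w 0) :=
    crF_pos (by decide)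
  have n1 : w 1 ≠ 0 := h.2.1 1 (by decide)
  have e1 : crF w 8 1 = chi (w 1) :=
    crF_pos (by decide)
  have n2 : w 2 * w 4 * w 6 ^ 2 - w 5 * w 3 * w 7 ^ 2 ≠ 0 := h.2.1 2 (by decide)
  have e2 : crF w 8 2 = chi (w 2 * w 4 * w 6 ^ 2 - w 5 * w 3 * w 7 ^ 2) :=
    crF_pos (by decide)
  have n3 : w 2 * w 5 * w 8 ^ 2 - w 4 * w 3 * w 9 ^ 2 ≠ 0 := h.2.1 3 (by decide)
  have e3 : crF w 8 3 = chi (w 2 * w 5 * w 8 ^ 2 - w 4 * w 3 * w 9 ^ 2) :=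
    crF_pos (by decide)
  have n4 : w 4 ≠ 0 := h.2.1 4 (by decide)
  have e4 : crF w 8 4 = chi (w 4) :=
    crF_pos (by decide)
  have n5 : w 5 ≠ 0 := h.2.1 5 (by decide)
  have e5 : crF w 8 5 = chi (w 5) :=
    crF_pos (by decide)
  have n6 : w 0 * w 2 * w 6 ^ 2 - 4 * w 3 * w 1 * w 9 ^ 2 ≠ 0 := h.2.1 6 (by decide)
  have e6 : crF w 8 6 = chi (w 0 * w 2 * w 6 ^ 2 - 4 * w 3 * w 1 * w 9 ^ 2) :=
    crF_pos (by decide)
  have n7 : 4 * w 2 * w 1 * w 8 ^ 2 - w 0 * w 3 * w 7 ^ 2 ≠ 0 := h.2.1 7 (by decide)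
  have e7 : crF w 8 7 = chi (4 * w 2 * w 1 * w 8 ^ 2 - w 0 * w 3 * w 7 ^ 2) :=
    crF_pos (by decide)
  refine tab8 _ _ ?_ ?_ ?_ τ
  · rw [e0, e1, e6, e7]
    exact rel4 (r := 2 * w 0 * w 1 * w 3 * w 7 * w 9)
      n0 n1 n6 n7 one_ne_zero (by rw [s0]; ring)
  · rw [e0, e2, e5, e7]
    exact rel4 (r := w 0 * w 3 * w 5 * w 7 ^ 2)
      n0 n2 n5 n7 one_ne_zero (by rw [s0]; ring)
  · rw [e0, e3, e4, e7]
    exact rel4 (r := w 0 * w 3 * w 4 * w 7 * w 9)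
      n0 n3 n4 n7 one_ne_zero (by rw [s0]; ring)

theorem tab9 (c : F12) (e : ZMod 2)
    (h0 : c 0 + c 1 + c 6 + c 7 = 0)
    (h1 : c 0 + c 2 + c 4 + c 6 = 0)
    (h2 : c 0 + c 3 + c 5 + c 6 = 0) (τ : Fin 12) :
    bordOf c 9 e τ = ∑ i, c (piv 9 i) * gen 9 i τ + e * zet 9 τ := by
  simp only [bordOf, sum0, sum1, Fin.sum_univ_five]
  fin_cases τ <;> simp [cls, piv, gen, zet] <;> grind

theorem dt9 (h2 : (2 : F) ≠ 0) (w : Fin 10 → F) (h : LocF w 9) (τ : Fin 12) :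
    bordOf (crF w 9) 9 (chi (-1 : F)) τ =
      ∑ i, crF w 9 (piv 9 i) * gen 9 i τ + chi (-1 : F) * zet 9 τ := by
  have s0 : w 3 = 0 := h.1
  have n0 : w 0 ≠ 0 := h.2.1 0 (by decide)
  have e0 : crF w 9 0 = chi (w 0) :=
    crF_pos (by decide)
  have n1 : w 1 ≠ 0 := h.2.1 1 (by decide)
  have e1 : crF w 9 1 = chi (w 1) :=
    crF_pos (by decide)
  have n2 : w 2 * w 4 * w 6 ^ 2 - w 5 * w 3 * w 7 ^ 2 ≠ 0 := h.2.1 2 (by decide)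
  have e2 : crF w 9 2 = chi (w 2 * w 4 * w 6 ^ 2 - w 5 * w 3 * w 7 ^ 2) :=
    crF_pos (by decide)
  have n3 : w 2 * w 5 * w 8 ^ 2 - w 4 * w 3 * w 9 ^ 2 ≠ 0 := h.2.1 3 (by decide)
  have e3 : crF w 9 3 = chi (w 2 * w 5 * w 8 ^ 2 - w 4 * w 3 * w 9 ^ 2) :=
    crF_pos (by decide)
  have n4 : w 4 ≠ 0 := h.2.1 4 (by decide)
  have e4 : crF w 9 4 = chi (w 4) :=
    crF_pos (by decide)
  have n5 : w 5 ≠ 0 := h.2.1 5 (by decide)
  have e5 : crF w 9 5 = chi (w 5) :=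
    crF_pos (by decide)
  have n6 : w 0 * w 2 * w 6 ^ 2 - 4 * w 3 * w 1 * w 9 ^ 2 ≠ 0 := h.2.1 6 (by decide)
  have e6 : crF w 9 6 = chi (w 0 * w 2 * w 6 ^ 2 - 4 * w 3 * w 1 * w 9 ^ 2) :=
    crF_pos (by decide)
  have n7 : 4 * w 2 * w 1 * w 8 ^ 2 - w 0 * w 3 * w 7 ^ 2 ≠ 0 := h.2.1 7 (by decide)
  have e7 : crF w 9 7 = chi (4 * w 2 * w 1 * w 8 ^ 2 - w 0 * w 3 * w 7 ^ 2) :=
    crF_pos (by decide)
  refine tab9 _ _ ?_ ?_ ?_ τ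
  · rw [e0, e1, e6, e7]
    exact rel4 (r := 2 * w 0 * w 1 * w 2 * w 6 * w 8)
      n0 n1 n6 n7 one_ne_zero (by rw [s0]; ring)
  · rw [e0, e2, e4, e6]
    exact rel4 (r := w 0 * w 2 * w 4 * w 6 ^ 2)
      n0 n2 n4 n6 one_ne_zero (by rw [s0]; ring)
  · rw [e0, e3, e5, e6]
    exact rel4 (r := w 0 * w 2 * w 5 * w 6 * w 8)
      n0 n3 n5 n6 one_ne_zero (by rw [s0]; ring)

theorem tab10 (c : F12) (e : ZMod 2)
    (h0 : c 0 + c 1 + c 4 + c 5 = 0)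
    (h1 : c 0 + c 2 + c 5 + c 7 = 0)
    (h2 : c 1 + c 3 + c 4 + c 6 = 0) (τ : Fin 12) :
    bordOf c 10 e τ = ∑ i, c (piv 10 i) * gen 10 i τ + e * zet 10 τ := by
  simp only [bordOf, sum0, sum1, Fin.sum_univ_five]
  fin_cases τ <;> simp [cls, piv, gen, zet] <;> grind

theorem dt10 (h2 : (2 : F) ≠ 0) (w : Fin 10 → F) (h : LocF w 10) (τ : Fin 12) :
    bordOf (crF w 10) 10 (chi (-1 : F)) τ =
      ∑ i, crF w 10 (piv 10 i) * gen 10 i τ + chi (-1 : F) * zet 10 τ := by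
  have s0 : w 0 * w 4 * w 6 ^ 2 - 4 * w 5 * w 1 * w 8 ^ 2 = 0 := h.1
  have n0 : w 0 ≠ 0 := h.2.1 0 (by decide)
  have e0 : crF w 10 0 = chi (w 0) :=
    crF_pos (by decide)
  have n1 : w 1 ≠ 0 := h.2.1 1 (by decide)
  have e1 : crF w 10 1 = chi (w 1) :=
    crF_pos (by decide)
  have n2 : w 2 * w 4 * w 6 ^ 2 - w 5 * w 3 * w 7 ^ 2 ≠ 0 := h.2.1 2 (by decide)
  have e2 : crF w 10 2 = chi (w 2 * w 4 * w 6 ^ 2 - w 5 * w 3 * w 7 ^ 2) :=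
    crF_pos (by decide)
  have n3 : w 2 * w 5 * w 8 ^ 2 - w 4 * w 3 * w 9 ^ 2 ≠ 0 := h.2.1 3 (by decide)
  have e3 : crF w 10 3 = chi (w 2 * w 5 * w 8 ^ 2 - w 4 * w 3 * w 9 ^ 2) :=
    crF_pos (by decide)
  have n4 : w 4 ≠ 0 := h.2.1 4 (by decide)
  have e4 : crF w 10 4 = chi (w 4) :=
    crF_pos (by decide)
  have n5 : w 5 ≠ 0 := h.2.1 5 (by decide)
  have e5 : crF w 10 5 = chi (w 5) :=
    crF_pos (by decide)
  have n6 : w 0 * w 2 * w 6 ^ 2 - 4 * w 3 * w 1 * w 9 ^ 2 ≠ 0 := h.2.1 6 (by decide)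
  have e6 : crF w 10 6 = chi (w 0 * w 2 * w 6 ^ 2 - 4 * w 3 * w 1 * w 9 ^ 2) :=
    crF_pos (by decide)
  have n7 : 4 * w 2 * w 1 * w 8 ^ 2 - w 0 * w 3 * w 7 ^ 2 ≠ 0 := h.2.1 7 (by decide)
  have e7 : crF w 10 7 = chi (4 * w 2 * w 1 * w 8 ^ 2 - w 0 * w 3 * w 7 ^ 2) :=
    crF_pos (by decide)
  refine tab10 _ _ ?_ ?_ ?_ τ
  · rw [e0, e1, e4, e5]
    exact rel4 (r := 2 * w 1 * w 5 * w 8)
      n0 n1 n4 n5 (h.2.2 6 (by decide)) (by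
      linear_combination (w 1 * w 5) * s0)
  · rw [e0, e2, e5, e7]
    exact rel4 (r := w 0 * w 2 * w 4 * w 6 ^ 2 - w 0 * w 3 * w 5 * w 7 ^ 2)
      n0 n2 n5 n7 one_ne_zero (by
      linear_combination (-(w 0 * w 2 ^ 2 * w 4 * w 6 ^ 2) + w 0 * w 2 * w 3 * w 5 * w 7 ^ 2) * s0)
  · rw [e1, e3, e4, e6]
    exact rel4 (r := 4 * w 1 * w 2 * w 5 * w 8 ^ 2 - 4 * w 1 * w 3 * w 4 * w 9 ^ 2)
      n1 n3 n4 n6 h2 (by
      linear_combination (4 * w 1 * w 2 ^ 2 * w 5 * w 8 ^ 2 - 4 * w 1 * w 2 * w 3 * w 4 * w 9 ^ 2) * s0)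

theorem tab11 (c : F12) (e : ZMod 2)
    (h0 : c 0 + c 1 + c 4 + c 5 = 0)
    (h1 : c 0 + c 2 + c 4 + c 6 = 0)
    (h2 : c 1 + c 3 + c 5 + c 7 = 0) (τ : Fin 12) :
    bordOf c 11 e τ = ∑ i, c (piv 11 i) * gen 11 i τ + e * zet 11 τ := by
  simp only [bordOf, sum0, sum1, Fin.sum_univ_five]
  fin_cases τ <;> simp [cls, piv, gen, zet] <;> grind

theorem dt11 (h2 : (2 : F) ≠ 0) (w : Fin 10 → F) (h : LocF w 11) (τ : Fin 12) :
    bordOf (crF w 11) 11 (chi (-1 : F)) τ =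
      ∑ i, crF w 11 (piv 11 i) * gen 11 i τ + chi (-1 : F) * zet 11 τ := by
  have s0 : 4 * w 4 * w 1 * w 9 ^ 2 - w 0 * w 5 * w 7 ^ 2 = 0 := h.1
  have n0 : w 0 ≠ 0 := h.2.1 0 (by decide)
  have e0 : crF w 11 0 = chi (w 0) :=
    crF_pos (by decide)
  have n1 : w 1 ≠ 0 := h.2.1 1 (by decide)
  have e1 : crF w 11 1 = chi (w 1) :=
    crF_pos (by decide)
  have n2 : w 2 * w 4 * w 6 ^ 2 - w 5 * w 3 * w 7 ^ 2 ≠ 0 := h.2.1 2 (by decide)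
  have e2 : crF w 11 2 = chi (w 2 * w 4 * w 6 ^ 2 - w 5 * w 3 * w 7 ^ 2) :=
    crF_pos (by decide)
  have n3 : w 2 * w 5 * w 8 ^ 2 - w 4 * w 3 * w 9 ^ 2 ≠ 0 := h.2.1 3 (by decide)
  have e3 : crF w 11 3 = chi (w 2 * w 5 * w 8 ^ 2 - w 4 * w 3 * w 9 ^ 2) :=
    crF_pos (by decide)
  have n4 : w 4 ≠ 0 := h.2.1 4 (by decide)
  have e4 : crF w 11 4 = chi (w 4) :=
    crF_pos (by decide)
  have n5 : w 5 ≠ 0 := h.2.1 5 (by decide)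
  have e5 : crF w 11 5 = chi (w 5) :=
    crF_pos (by decide)
  have n6 : w 0 * w 2 * w 6 ^ 2 - 4 * w 3 * w 1 * w 9 ^ 2 ≠ 0 := h.2.1 6 (by decide)
  have e6 : crF w 11 6 = chi (w 0 * w 2 * w 6 ^ 2 - 4 * w 3 * w 1 * w 9 ^ 2) :=
    crF_pos (by decide)
  have n7 : 4 * w 2 * w 1 * w 8 ^ 2 - w 0 * w 3 * w 7 ^ 2 ≠ 0 := h.2.1 7 (by decide)
  have e7 : crF w 11 7 = chi (4 * w 2 * w 1 * w 8 ^ 2 - w 0 * w 3 * w 7 ^ 2) :=
    crF_pos (by decide)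
  refine tab11 _ _ ?_ ?_ ?_ τ
  · rw [e0, e1, e4, e5]
    exact rel4 (r := w 0 * w 5 * w 7)
      n0 n1 n4 n5 (mul_ne_zero h2 (h.2.2 9 (by decide))) (by
      linear_combination (w 0 * w 5) * s0)
  · rw [e0, e2, e4, e6]
    exact rel4 (r := w 0 * w 2 * w 4 * w 6 ^ 2 - w 0 * w 3 * w 5 * w 7 ^ 2)
      n0 n2 n4 n6 one_ne_zero (by
      linear_combination (-(w 0 * w 2 * w 3 * w 4 * w 6 ^ 2) + w 0 * w 3 ^ 2 * w 5 * w 7 ^ 2) * s0)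
  · rw [e1, e3, e5, e7]
    exact rel4 (r := 4 * w 1 * w 2 * w 5 * w 8 ^ 2 - 4 * w 1 * w 3 * w 4 * w 9 ^ 2)
      n1 n3 n5 n7 h2 (by
      linear_combination (4 * w 1 * w 2 * w 3 * w 5 * w 8 ^ 2 - 4 * w 1 * w 3 ^ 2 * w 4 * w 9 ^ 2) * s0)

end DJ

open DJ in
theorem dTab (σ : Fin 12) : DTab σ := by
  intro l _ hl w
  have h2 : (2 : ZMod l) ≠ 0 := two_ne hl
  exact all12 (P := fun σ => LocF w σ → ∀ τ, bordOf (crF w σ) σ (chi (-1 : ZMod l)) τ =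
      ∑ i, crF w σ (piv σ i) * gen σ i τ + chi (-1 : ZMod l) * zet σ τ)
    (dt0 h2 w) (dt1 h2 w) (dt2 h2 w) (dt3 h2 w) (dt4 h2 w) (dt5 h2 w) (dt6 h2 w) (dt7 h2 w)
    (dt8 h2 w) (dt9 h2 w) (dt10 h2 w) (dt11 h2 w) σ

end Pool.Agent.MP_e23604_nt.U

end
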