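import Pool.Agent.Mg.Fe23604m.Ge5ee40
import Pool.Agent.Mg.Fe23604m.G8e75a9

set_option linter.all false

section

/-!
Definitions and statements for the random model of the universal family.
-/

open Finset
open scoped Classical

noncomputable section

namespace Pool.Agent.MP_e23604_nt.U.Bm

open P (sy ep xx chi EP PP Mod FFp NS star)

/-- The sign of a bit. -/
def sgb (z : ZMod 2) : ℝ := if z = 0 then 1 else -1

def dot (u v : F12) : ZMod 2 := ∑ τ, u τ * v τ

/-- The random part of the border at the site `σ` is orthogonal to `v`. -/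
def Det (σ : Fin 12) (v : F12) : Prop := ∀ i, dot (gen σ i) v = 0

/-- Extension by zero. -/
def ext0 (Q : Finset ℕ) (x : ↥Q → ZMod 2) (l : ℕ) : ZMod 2 := if h : l ∈ Q then x ⟨l, h⟩ else 0

/-- The size of the kernel. -/
def nker (Q : Finset ℕ) (t : ℕ → Fin 12) (c : ℕ → F12) : ℝ :=
  ((univ.filter fun z : (↥Q → ZMod 2) × F12 => Ker Q t c (ext0 Q z.1) z.2).card : ℝ)

/-- The mean size of the kernel over the random borders. -/
def avk (s : S12) : ℝ :=
  (∑ g : ↥((PS s).erase 3) → Fin 5 → ZMod 2, nker (PS s) (st s) (cvec s g)) /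
    32 ^ ((PS s).erase 3).card

abbrev CfU (P : Finset ℕ) : Type := ↥P → Option (Fin 12)

def sOf (P : Finset ℕ) (t : CfU P) : S12 := fun σ =>
  (if σ = 0 then 3 else 1) * ∏ l : ↥P, if t l = some σ then (l : ℕ) else 1

def wtU (s : ℝ) (P : Finset ℕ) (t : CfU P) : ℝ := ∏ l : ↥P, if t l = none then 1 else xx s l

def Pi12 (s : ℝ) (P : Finset ℕ) : ℝ := ∏ l ∈ P, (1 + 12 * xx s l)

/-- A type (the pair of bits `xb`, `eb`) and a site. -/
abbrev Ix : Type := Fin 4 × Fin 12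

def xb : Fin 4 → ZMod 2 := ![0, 0, 1, 1]

def eb : Fin 4 → ZMod 2 := ![0, 1, 0, 1]

def vec (y η : F12) (o : Fin 4) : F12 := fun τ => eb o * y τ + xb o * η τ + xb o * eb o * wv τ

def kap (y η : F12) : ZMod 2 := dot lv y * dot lv η

def lnk (o o' : Fin 4) : ZMod 2 := eb o * xb o' + eb o' * xb o

/-- The local factor of a prime `l` with type and site `i`; the prime 3 has type `o3`. -/
def lf (y η : F12) (o3 : Fin 4) (i : Ix) (l : ℕ) : ℝ :=
  1 / 2 * sgb (kap y η) *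
    (if Det i.2 (vec y η i.1) then sgb (ep l * dot (zet i.2) (vec y η i.1)) else 0) *
    sgb (lnk o3 i.1 * mm 0 i.2 3 l)

def be (s : ℝ) (y η : F12) (o3 : Fin 4) (i : Ix) (l : ℕ) : ℝ := xx s l * lf y η o3 i l

abbrev CfI (P : Finset ℕ) : Type := ↥P → Option Ix

def eo (o : Option Ix) : ZMod 2 := o.elim 0 fun i => eb i.1

def xo (o : Option Ix) : ZMod 2 := o.elim 0 fun i => xb i.1

def so (o : Option Ix) : Fin 12 := o.elim 0 fun i => i.2

/-- The phase. -/
def Phi (P : Finset ℕ) (u : CfI P) : ZMod 2 :=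
  ∑ l, ∑ l' ∈ univ.erase l, eo (u l) * xo (u l') * mm (so (u l)) (so (u l')) l l'

/-- The weight. -/
def WI (P : Finset ℕ) (β : Ix → ℕ → ℝ) (u : CfI P) : ℝ :=
  ∏ l : ↥P, (u l).elim 1 fun i => β i l

/-- The product of the primes with a given type and site. -/
def DI (P : Finset ℕ) (u : CfI P) (i : Ix) : ℕ := ∏ l : ↥P, if u l = some i then (l : ℕ) else 1

/-- The signed sum over a region. -/
def SR (P : Finset ℕ) (β : Ix → ℕ → ℝ) (p : (Ix → ℕ) → Prop) : ℝ :=
  ∑ u : CfI P, if p (DI P u) then WI P β u * sgb (Phi P u) else 0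

/-- The absolute sum over a region. -/
def AR (P : Finset ℕ) (β : Ix → ℕ → ℝ) (p : (Ix → ℕ) → Prop) : ℝ :=
  ∑ u : CfI P, if p (DI P u) then |WI P β u| else 0

/-- `L` is the set of large variables of nonzero type. -/
def Pt (T : ℕ) (L : Finset Ix) (D : Ix → ℕ) : Prop := ∀ k : Ix, k.1 ≠ 0 → (T < D k ↔ k ∈ L)

/-- The variables with type other than `0`, `τ` are small. -/
def Rw (T : ℕ) (τ : Fin 4) (D : Ix → ℕ) : Prop := ∀ k : Ix, k.1 ≠ 0 → k.1 ≠ τ → D k ≤ T

def Bd (s : ℝ) (P : Finset ℕ) (β : Ix → ℕ → ℝ) : Prop := ∀ i, ∀ l ∈ P, |β i l| ≤ xx s l / 2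

/-- No prime has type `0` or `τ`. -/
def Off {P : Finset ℕ} (τ : Fin 4) (u : CfI P) : Prop :=
  ∀ l i, u l = some i → i.1 ≠ 0 ∧ i.1 ≠ τ

/-- The Euler product over the types `0` and `τ`. -/
def Eu (P : Finset ℕ) (β : Ix → ℕ → ℝ) (τ : Fin 4) (u : CfI P) : ℝ :=
  ∏ l : ↥P, if u l = none then 1 + ∑ σ, β (0, σ) l +
    ∑ σ, β (τ, σ) l * sgb (∑ l', if u l' = none then 0 else mm σ (so (u l')) l l') else 1

/-- All sites are allowed for the types `0` and `τ`; `θ` is the twist by the prime 3. -/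
def Full (s : ℝ) (P : Finset ℕ) (β : Ix → ℕ → ℝ) (τ : Fin 4) (θ : ZMod 2) : Prop :=
  ∀ σ, ∀ l ∈ P, β (0, σ) l = xx s l / 2 ∧ β (τ, σ) l = xx s l / 2 * sgb (θ * mm 0 σ 3 l)

/-- The allowed pairs of a type and a site. -/
def AA (y η : F12) : Finset Ix := univ.filter fun i => Det i.2 (vec y η i.1)

/-- The number of main terms. -/
def nm (y η : F12) (o3 : Fin 4) : ℝ :=
  ((univ.filter fun τ : Fin 4 => τ ≠ 0 ∧ InK (vec y η τ) ∧ (o3 = 0 ∨ o3 = τ)).card : ℝ)

/-- The restriction of a configuration. -/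
def res {P : Finset ℕ} (u : CfI P) (p : ↥P → Prop) : CfI P := fun l => if p l then u l else none

def HP (P : Finset ℕ) : Prop := ∀ l ∈ P, l.Prime ∧ 10000 < l

def HE (s : ℝ) (P : Finset ℕ) (C : ℝ) : Prop :=
  ∀ c : ℤ, NS c → EP s P c ≤ C * (1 + Real.log |(c : ℝ)|)

def HF (s : ℝ) (P : Finset ℕ) (T : ℕ) (F0 : ℝ) : Prop :=
  ∀ α α' : ℕ → ℝ, (∀ l ∈ P, |α l| ≤ 2 * xx s l) → (∀ l ∈ P, |α' l| ≤ 2 * xx s l) →
    |FFp P α α' fun d e => T < d ∧ T < e| ≤ F0

/-! Elementary lemmas. -/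

theorem two_cases (z : ZMod 2) : z = 0 ∨ z = 1 := by
  revert z
  decide

theorem sgb_zero : sgb 0 = 1 := if_pos rfl

theorem sgb_one : sgb 1 = -1 := if_neg one_ne_zero

theorem sgb_add (u v : ZMod 2) : sgb (u + v) = sgb u * sgb v := P.xBTr_add u v

theorem sgb_sum {α : Type} (s : Finset α) (f : α → ZMod 2) :
    sgb (∑ i ∈ s, f i) = ∏ i ∈ s, sgb (f i) := P.xBTr_sum s f

theorem abs_sgb (z : ZMod 2) : |sgb z| = 1 := by
  unfold sgb
  split_ifs <;> simp

theorem sgb_sy {u l : ℕ} (h : Nat.Coprime u l) : sgb (sy u l) = (jacobiSym u l : ℝ) := P.xBTr_sy h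

theorem mm_symm (σ τ : Fin 12) (l l' : ℕ) : mm σ τ l l' = mm τ σ l' l := by
  unfold mm
  rcases lt_trichotomy (cls σ) (cls τ) with h | h | h
  · rw [if_pos h, if_neg h.not_gt, if_pos h]
  · rw [h, if_neg (lt_irrefl _), if_neg (lt_irrefl _), if_neg (lt_irrefl _), if_neg (lt_irrefl _),
      mul_comm]
  · rw [if_neg h.not_gt, if_pos h, if_pos h]

theorem lnk_ne : ∀ o o' : Fin 4, lnk o o' = if o = 0 ∨ o' = 0 ∨ o = o' then 0 else 1 := by decide

theorem abs_SR_le (P : Finset ℕ) (β : Ix → ℕ → ℝ) (p : (Ix → ℕ) → Prop) :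
    |SR P β p| ≤ AR P β p := by
  refine (abs_sum_le_sum_abs _ _).trans (sum_le_sum fun u _ => ?_)
  split_ifs
  · rw [abs_mul, abs_sgb, mul_one]
  · simp

/-- Summation over the fibres of a coordinatewise map. -/
theorem sum_fib {α O O' : Type} [Fintype α] [DecidableEq α] [Fintype O] [Fintype O']
    (r : O → O') (F : (α → O) → ℝ) :
    ∑ u, F u = ∑ u' : α → O',
      ∑ u ∈ Fintype.piFinset fun l => univ.filter fun o => r o = u' l, F u := by
  rw [← sum_fiberwise univ (fun u l => r (u l)) F]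
  refine sum_congr rfl fun u' _ => sum_congr ?_ fun _ _ => rfl
  ext u
  simp [funext_iff]

/-! Statements. -/

def SFK : Prop :=
  (∀ v, InK v → (∀ σ, Det σ v) ∧ (∀ σ, dot (zet σ) v = 0) ∧ dot c3 v = 0 ∧ dot lv v = 0) ∧
    ¬ InK wv ∧ dot lv wv = 1 ∧ (univ.filter InK).card = 16 ∧ InK 0 ∧
    ∀ u v, InK u → InK v → InK (u + v)

def SDet : Prop := ∀ v : F12, ¬ InK v → (univ.filter fun σ => Det σ v).card ≤ 3

def SPar : Prop := ∀ (ι : Type) [Fintype ι] [DecidableEq ι] (M : ι → ι → ZMod 2)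
  (w : ι → ZMod 2), (∀ i j, M i j = M j i) → (∀ i, M i i = ∑ j, M i j * w j) →
  ∃ m : ℕ, (univ.filter fun v : ι → ZMod 2 => ∀ i, ∑ j, M i j * v j = 0).card = 2 ^ m ∧
    (m : ZMod 2) = Fintype.card ι + ∑ i, w i * M i i

def SGood : Prop := ∀ (Q : Finset ℕ) (t : ℕ → Fin 12) (c : ℕ → F12),
  (∀ l ∈ Q, ∀ v, InK v → dot (c l) v = 0) →
  (64 - nker Q t c) / 48 ≤ if Good Q t c then 1 else 0

def SPg : Prop := ∀ s : S12, (64 - avk s) / 48 ≤ pgood s ∧ 0 ≤ pgood s ∧ pgood s ≤ 1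

def SFA1 : Prop := ∀ (Q : Finset ℕ) (t : ℕ → Fin 12) (c : ℕ → F12),
  nker Q t c = 1 / 2 ^ 12 * ∑ y : F12, ∑ η : F12, ∑ b : ↥Q → Fin 4,
    (∏ l : ↥Q, 1 / 2 * sgb (kap y η) * sgb (dot (c l) (vec y η (b l)))) *
      sgb (Phi Q fun l => some (b l, t l))

def SFA : Prop := ∀ s : S12, SOK s →
  avk s = 1 / 2 ^ 13 * ∑ y : F12, ∑ η : F12, ∑ o3 : Fin 4,
    sgb (kap y η) * sgb (dot c3 (vec y η o3)) * ∑ b : ↥((PS s).erase 3) → Fin 4,
      (∏ l : ↥((PS s).erase 3), lf y η o3 (b l, st s l) l) *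
        sgb (Phi ((PS s).erase 3) fun l => some (b l, st s l))

def SCfg : Prop := ∀ P : Finset ℕ, HP P → Function.Injective (sOf P) ∧ ∀ t : CfU P,
  SOK (sOf P t) ∧ SP (sOf P t) = 3 * ∏ l : ↥P, (if t l = none then 1 else (l : ℕ)) ∧
  (∀ l, l ∈ (PS (sOf P t)).erase 3 ↔ ∃ h : l ∈ P, t ⟨l, h⟩ ≠ none) ∧
  (∀ (l : ↥P) (σ : Fin 12), t l = some σ → st (sOf P t) l = σ) ∧
  ∀ s : ℝ, 0 < s → 0 ≤ wtU s P t ∧ wtU s P t ≤ 3 / (SP (sOf P t) : ℝ)

def SFB : Prop := ∀ (P : Finset ℕ) (s : ℝ) (γ : Ix → ℕ → ℝ), HP P →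
  ∑ t : CfU P, wtU s P t * ∑ b : ↥((PS (sOf P t)).erase 3) → Fin 4,
    (∏ l : ↥((PS (sOf P t)).erase 3), γ (b l, st (sOf P t) l) l) *
      sgb (Phi ((PS (sOf P t)).erase 3) fun l => some (b l, st (sOf P t) l)) =
  SR P (fun i l => xx s l * γ i l) fun _ => True

def SWt : Prop := ∀ (P : Finset ℕ) (s : ℝ), HP P → 0 < s →
  ∑ t : CfU P, wtU s P t = Pi12 s P ∧
  (∀ R : ℝ, 0 < R → ∑ t ∈ univ.filter fun t : CfU P => 3 * R < (SP (sOf P t) : ℝ), wtU s P t ≤
    R ^ (-(1 / (2 * s))) * (1 + 2 * s) ^ 12) ∧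
  ∑ t : CfU P, wtU s P t * ∑ l ∈ (PS (sOf P t)).erase 3, 100 / (l : ℝ) ≤ 3 / 25 * Pi12 s P

def STot : Prop := ∀ C0 : ℝ, ∃ c : ℝ, 0 < c ∧ ∀ s : ℝ, 1 ≤ s → ∀ n Q : ℕ, Mod C0 s n Q →
  c * s ^ 12 ≤ Pi12 s (PP n Q)

def SFF : Prop := ∀ B : ℕ, ∃ (A : ℕ) (s0 : ℝ), ∀ s ≥ s0, ∀ (P : Finset ℕ) (T : ℕ),
  (∀ l ∈ P, l.Prime ∧ l ≠ 2) → s ^ A ≤ T → HF s P T (1 / s ^ B)

def SPhi : Prop := ∀ (P : Finset ℕ) (u : CfI P),
  (∀ p : ↥P → Prop, Phi P u = Phi P (res u p) + Phi P (res u fun l => ¬ p l) +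
    ∑ l ∈ univ.filter p, ∑ l' ∈ univ.filter fun l => ¬ p l,
      (eo (u l) * xo (u l') + eo (u l') * xo (u l)) * mm (so (u l)) (so (u l')) l l') ∧
  ∀ τ : Fin 4, (∀ l i, u l = some i → i.1 = 0 ∨ i.1 = τ) → Phi P u = 0

def STriv : Prop := ∀ (P : Finset ℕ) (s : ℝ) (β : Ix → ℕ → ℝ) (A L : Finset Ix) (T : ℕ)
  (p : (Ix → ℕ) → Prop), HP P → 0 < s → Bd s P β → (∀ i, i ∉ A → ∀ l ∈ P, β i l = 0) →
  (∀ D, p D → ∀ i, i ∉ L → D i ≤ T) →
  AR P β p ≤ (1 + Real.log T) ^ 48 * √(1 + s) ^ (A ∩ L).card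

def SBil : Prop := ∀ (P : Finset ℕ) (s : ℝ) (β : Ix → ℕ → ℝ) (T : ℕ) (L : Finset Ix) (i j : Ix)
  (F0 : ℝ), HP P → 0 < s → Bd s P β → 1 ≤ T → i.1 ≠ 0 → j.1 ≠ 0 → i.1 ≠ j.1 →
  cls i.2 < cls j.2 → i ∈ L → j ∈ L → HF s P T F0 → |SR P β (Pt T L)| ≤ (1 + s) ^ 24 * F0

def SRow : Prop := ∀ (P : Finset ℕ) (β : Ix → ℕ → ℝ) (T : ℕ) (τ : Fin 4), τ ≠ 0 →
  SR P β (Rw T τ) = ∑ u : CfI P,
    if Off τ u ∧ Rw T τ (DI P u) then WI P β u * sgb (Phi P u) * Eu P β τ u else 0

def SEul : Prop := ∀ (P : Finset ℕ) (s C : ℝ) (T : ℕ) (β : Ix → ℕ → ℝ) (τ : Fin 4) (θ : ZMod 2)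
  (u : CfI P), HP P → 0 < s → 0 < C → HE s P C → Full s P β τ θ → (θ ≠ 0 ∨ ∃ l, u l ≠ none) →
  (∀ i, DI P u i ≤ T) → |Eu P β τ u| ≤ (1 + s) ^ 10 * (50 * C * (1 + Real.log T)) ^ 2

def SFull : Prop := ∀ (P : Finset ℕ) (s C : ℝ) (T : ℕ) (β : Ix → ℕ → ℝ) (τ : Fin 4) (θ : ZMod 2),
  HP P → 0 < s → 0 < C → HE s P C → Bd s P β → τ ≠ 0 → 1 ≤ T → Full s P β τ θ →
  |SR P β (Rw T τ)| ≤ (if θ = 0 then Pi12 s P else 0) +
    2500 * C ^ 2 * (1 + Real.log T) ^ 50 * (1 + s) ^ 10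

def SPart : Prop := ∀ (P : Finset ℕ) (β : Ix → ℕ → ℝ) (T : ℕ),
  |SR P β fun _ => True| ≤ ∑ τ ∈ univ.erase (0 : Fin 4), |SR P β (Rw T τ)| +
    2 * AR P β (Rw T 0) +
    ∑ L ∈ univ.filter fun L : Finset Ix => (∀ k ∈ L, k.1 ≠ 0) ∧ ∃ i ∈ L, ∃ j ∈ L, i.1 ≠ j.1,
      |SR P β (Pt T L)|

def SCol : Prop := ∀ y η : F12,
  (∀ X : ℕ, (AA y η ∩ univ.filter fun k : Ix => k.1 = 0 ∨ cls k.2 = X).card ≤ 23) ∧
  ∀ τ : Fin 4, (τ = 0 ∨ ¬ InK (vec y η τ)) →
    (AA y η ∩ univ.filter fun k : Ix => k.1 = 0 ∨ k.1 = τ).card ≤ 23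

def SBe : Prop := ∀ (P : Finset ℕ) (s : ℝ) (y η : F12) (o3 : Fin 4),
  Bd s P (be s y η o3) ∧ (∀ i, i ∉ AA y η → ∀ l ∈ P, be s y η o3 i l = 0) ∧
  ∀ τ : Fin 4, τ ≠ 0 → InK (vec y η τ) → Full s P (be s y η o3) τ (lnk o3 τ)

def SMix : Prop := ∀ C : ℝ, 0 < C → ∃ C' : ℝ, ∀ (P : Finset ℕ) (s : ℝ) (T : ℕ) (F0 : ℝ)
  (y η : F12) (o3 : Fin 4), HP P → 0 < s → HE s P C → 1 ≤ T → HF s P T F0 →
  (1 + s) ^ 24 * F0 ≤ 1 → |SR P (be s y η o3) fun _ => True| ≤
    nm y η o3 * Pi12 s P + C' * (1 + Real.log T) ^ 50 * √(1 + s) ^ 23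

def SCnt : Prop := ∑ y : F12, ∑ η : F12, ∑ o3 : Fin 4, nm y η o3 = 48 * 2 ^ 13

def SNum : Prop := ∀ (A : ℕ) (C ε : ℝ), 0 < ε → ∃ s0 : ℝ, ∀ s ≥ s0,
  C * (1 + Real.log (⌈s ^ A⌉₊ : ℕ)) ^ 50 * √(1 + s) ^ 23 ≤ ε * s ^ 12

def SAvg : Prop := ∀ C0 ε : ℝ, 0 < ε → ∃ s0 : ℝ, ∀ s ≥ s0, ∀ n Q : ℕ, Mod C0 s n Q →
  HP (PP n Q) →
  ∑ t : CfU (PP n Q), wtU s _ t * avk (sOf _ t) ≤ 48 * Pi12 s (PP n Q) + ε * s ^ 12

end Pool.Agent.MP_e23604_nt.U.Bm

end
end

section

open Finset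
open scoped Classical

noncomputable section

namespace Pool.Agent.MP_e23604_nt.U.Bm

open P (sy ep xx chi EP PP Mod FFp NS star)

theorem xFK_dot {u v : F12} (hv : InK v) (h : ∀ j, dot u (kv j) = 0) : dot u v = 0 := by
  obtain ⟨a, ha⟩ := hv
  have : dot u v = ∑ i, a i * dot u (kv i) := by
    simp only [dot, ha, mul_sum]
    rw [sum_comm]
    exact sum_congr rfl fun i _ => sum_congr rfl fun τ _ => by ring
  rw [this]
  exact sum_eq_zero fun i _ => by rw [h i, mul_zero]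

theorem xFK_gen : ∀ σ i j, dot (gen σ i) (kv j) = 0 := by decide +kernel

theorem xFK_zet : ∀ σ j, dot (zet σ) (kv j) = 0 := by decide +kernel

theorem xFK_c3 : ∀ j, dot c3 (kv j) = 0 := by decide +kernel

theorem xFK_lv : ∀ j, dot lv (kv j) = 0 := by decide +kernel

theorem xFK_lw : dot lv wv = 1 := by decide +kernel

theorem xFK_wv : ∀ a : Fin 4 → ZMod 2, ¬ ∀ τ, wv τ = ∑ i, a i * kv i τ := by decide +kernel

theorem xFK_inj : ∀ a b : Fin 4 → ZMod 2,
    (∀ τ, ∑ i, a i * kv i τ = ∑ i, b i * kv i τ) → ∀ i, a i = b i := by decide +kernel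

theorem SFK_pf : SFK := by
  refine ⟨fun v hv => ⟨fun σ i => xFK_dot hv (xFK_gen σ i), fun σ => xFK_dot hv (xFK_zet σ),
    xFK_dot hv xFK_c3, xFK_dot hv xFK_lv⟩, fun ⟨a, ha⟩ => xFK_wv a ha, xFK_lw, ?_,
    ⟨0, fun τ => by simp⟩, ?_⟩
  · have h : (univ.filter InK) =
        univ.image fun (a : Fin 4 → ZMod 2) (τ : Fin 12) => ∑ i, a i * kv i τ := by
      ext y
      simp only [mem_filter, mem_univ, true_and, mem_image]
      exact ⟨fun ⟨a, ha⟩ => ⟨a, (funext ha).symm⟩, fun ⟨a, ha⟩ => ⟨a, fun τ => by rw [← ha]⟩⟩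
    rw [h, card_image_of_injective _ fun a b e => funext (xFK_inj a b (congrFun e)), card_univ,
      Fintype.card_fun, ZMod.card, Fintype.card_fin]
    norm_num
  · rintro u v ⟨a, ha⟩ ⟨b, hb⟩
    refine ⟨a + b, fun τ => ?_⟩
    rw [Pi.add_apply, ha, hb, ← sum_add_distrib]
    exact sum_congr rfl fun i _ => by rw [Pi.add_apply, add_mul]

end Pool.Agent.MP_e23604_nt.U.Bm

end
end

section

/-!
The parity of the rank of a symmetric matrix over the field with two elements.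
-/

open Finset
open scoped Classical

noncomputable section

namespace Pool.Agent.MP_e23604_nt.U.Bm

open P (sy ep xx chi EP PP Mod FFp NS star)

section

variable {V : Type} [AddCommGroup V] {B : V → V → ZMod 2}

theorem xPar_ne {z : ZMod 2} (h : z ≠ 0) : z = 1 := (two_cases z).resolve_left h

theorem xPar_card (h2 : ∀ x : V, x + x = 0) {f : V → ZMod 2} (hf : ∀ x y, f (x + y) = f x + f y)
    {S : Finset V} (hS : ∀ x ∈ S, ∀ y ∈ S, x + y ∈ S) {v : V} (hv : v ∈ S) (h1 : f v = 1) :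
    S.card = 2 * (S.filter fun x => f x = 0).card := by
  rw [← card_filter_add_card_filter_not (s := S) fun x => f x = 0, two_mul]
  congr 1
  refine card_nbij' (· + v) (· + v) (fun x hx => ?_) (fun x hx => ?_) (fun x _ => ?_) fun x _ => ?_
  · obtain ⟨a, b⟩ := mem_filter.1 hx
    exact mem_filter.2 ⟨hS _ a _ hv, by rw [hf, xPar_ne b, h1]; rfl⟩
  · obtain ⟨a, b⟩ := mem_filter.1 hx
    exact mem_filter.2 ⟨hS _ a _ hv, by rw [hf, b, h1]; decide⟩
  · simp only [add_assoc, h2, add_zero]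
  · simp only [add_assoc, h2, add_zero]

theorem xPar_cl {f : V → ZMod 2} (hf : ∀ x y, f (x + y) = f x + f y)
    {S : Finset V} (hS : ∀ x ∈ S, ∀ y ∈ S, x + y ∈ S) :
    ∀ x ∈ S.filter fun x => f x = 0, ∀ y ∈ S.filter fun x => f x = 0,
      x + y ∈ S.filter fun x => f x = 0 := fun x hx y hy =>
  mem_filter.2 ⟨hS _ (mem_filter.1 hx).1 _ (mem_filter.1 hy).1, by
    rw [hf, (mem_filter.1 hx).2, (mem_filter.1 hy).2, add_zero]⟩

theorem xPar_orth {f f' : V → ZMod 2} (hf : ∀ x y, f (x + y) = f x + f y)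
    (hf' : ∀ x y, f' (x + y) = f' x + f' y) {S : Finset V} (hS : ∀ x ∈ S, ∀ y ∈ S, x + y ∈ S)
    {v : V} (hv : v ∈ S) (h1 : f v = 1) (h0 : f' v = 0)
    (h : ∀ y ∈ S.filter fun x => f x = 0, f' y = 0) : ∀ y ∈ S, f' y = 0 := by
  intro y hy
  by_cases e : f y = 0
  · exact h y (mem_filter.2 ⟨hy, e⟩)
  · have := h (y + v) (mem_filter.2 ⟨hS _ hy _ hv, by rw [hf, xPar_ne e, h1]; rfl⟩)
    rwa [hf', h0, add_zero] at this

theorem xPar_ind (h2 : ∀ x : V, x + x = 0) (hB : ∀ u x y, B u (x + y) = B u x + B u y)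
    (hs : ∀ x y, B x y = B y x) (n : ℕ) : ∀ (S : Finset V) (w : V), S.card = n →
    (∀ x ∈ S, ∀ y ∈ S, x + y ∈ S) → w ∈ S → (∀ x ∈ S, B w x = B x x) →
    ∃ r : ℕ, S.card = 2 ^ r * (S.filter fun x => ∀ y ∈ S, B x y = 0).card ∧
      (r : ZMod 2) = B w w := by
  induction n using Nat.strong_induction_on with
  | _ n ih =>
  intro S w hn hS hw hc
  have n0 : 0 < S.card := card_pos.2 ⟨w, hw⟩
  by_cases h : ∃ v ∈ S, B v v = 1
  · obtain ⟨v, hv, h1⟩ := h
    have c1 := xPar_card h2 (hB v) hS hv h1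
    have e1 : B v w = 1 := by rw [hs, hc v hv, h1]
    obtain ⟨r, r1, r2⟩ := ih _ (by omega) _ (w + v) rfl (xPar_cl (hB v) hS)
      (mem_filter.2 ⟨hS _ hw _ hv, by rw [hB, e1, h1]; rfl⟩) fun x hx => by
        rw [hs, hB, hs x w, hs x v, (mem_filter.1 hx).2, add_zero, hc x (mem_filter.1 hx).1]
    refine ⟨r + 1, ?_, ?_⟩
    · rw [c1, r1, pow_succ', mul_assoc]
      congr 3
      ext x
      simp only [mem_filter (s := S) (a := x), mem_filter (s := S.filter _) (a := x)]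
      exact ⟨fun a => ⟨a.1.1, xPar_orth (hB v) (hB x) hS hv h1 ((hs _ _).trans a.1.2) a.2⟩,
        fun a => ⟨⟨a.1, (hs _ _).trans (a.2 v hv)⟩, fun y hy => a.2 y (mem_filter.1 hy).1⟩⟩
    · rw [Nat.cast_succ, r2, hB, hs _ w, hs _ v, hB, hB, hs w v, e1, h1]
      generalize B w w = z
      revert z
      decide
  have h0 : ∀ v ∈ S, B v v = 0 := fun v hv => by_contra fun e => h ⟨v, hv, xPar_ne e⟩
  by_cases h' : ∃ u ∈ S, ∃ v ∈ S, B u v = 1
  · obtain ⟨u, hu, v, hv, h1⟩ := h'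
    have hu' : u ∈ S.filter fun x => B u x = 0 := mem_filter.2 ⟨hu, h0 u hu⟩
    have h1' : B v u = 1 := (hs _ _).trans h1
    have hS' := xPar_cl (hB u) hS
    have c1 := xPar_card h2 (hB u) hS hv h1
    have c2 := xPar_card h2 (hB v) hS' hu' h1'
    have e1 : ∀ x ∈ S, B x w = 0 := fun x hx => by rw [hs, hc x hx, h0 x hx]
    obtain ⟨r, r1, r2⟩ := ih _ (by omega) _ w rfl (xPar_cl (hB v) hS')
      (mem_filter.2 ⟨mem_filter.2 ⟨hw, e1 u hu⟩, e1 v hv⟩) fun x hx =>
        hc x (mem_filter.1 (mem_filter.1 hx).1).1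
    refine ⟨r + 2, ?_, ?_⟩
    · rw [c1, c2, r1, pow_succ', pow_succ', mul_assoc, mul_assoc]
      congr 4
      ext x
      simp only [mem_filter (s := S) (a := x), mem_filter (s := S.filter _) (a := x),
        mem_filter (s := (S.filter _).filter _) (a := x)]
      exact ⟨fun a => ⟨a.1.1.1, xPar_orth (hB u) (hB x) hS hv h1 ((hs _ _).trans a.1.2)
        (xPar_orth (hB v) (hB x) hS' hu' h1' ((hs _ _).trans a.1.1.2) a.2)⟩,
        fun a => ⟨⟨⟨a.1, (hs _ _).trans (a.2 u hu)⟩, (hs _ _).trans (a.2 v hv)⟩,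
          fun y hy => a.2 y (mem_filter.1 (mem_filter.1 hy).1).1⟩⟩
    · rw [Nat.cast_add, r2]
      exact add_zero _
  · refine ⟨0, ?_, by rw [h0 w hw, Nat.cast_zero]⟩
    rw [pow_zero, one_mul, filter_true_of_mem fun x hx y hy =>
      by_contra fun e => h' ⟨x, hx, y, hy, xPar_ne e⟩]

end

theorem SPar_pf : SPar := by
  intro ι _ _ M w hM hw
  let B : (ι → ZMod 2) → (ι → ZMod 2) → ZMod 2 := fun x y => ∑ i, ∑ j, y i * (M i j * x j)
  have hs : ∀ x y, B x y = B y x := fun x y => by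
    simp only [B]
    rw [sum_comm]
    exact sum_congr rfl fun i _ => sum_congr rfl fun j _ => by rw [hM j i]; ring
  have hB : ∀ u x y, B u (x + y) = B u x + B u y := fun u x y => by
    simp only [B, Pi.add_apply, add_mul, sum_add_distrib]
  have z2 : ∀ z : ZMod 2, z + z = 0 := by decide
  have z3 : ∀ a b : ZMod 2, a * (b * a) = a * b := by decide
  have e1 : ∀ x, B w x = ∑ i, x i * M i i := fun x =>
    sum_congr rfl fun i _ => by rw [hw i, mul_sum]
  have e2 : ∀ x, B x x = ∑ i, x i * M i i := fun x => by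
    have a := sum_involution (s := (univ : Finset ι).offDiag)
      (f := fun p => x p.1 * (M p.1 p.2 * x p.2)) (fun p _ => p.swap) (fun p _ => by
        simp only [Prod.fst_swap, Prod.snd_swap]
        rw [hM p.2 p.1, ← z2 (x p.1 * (M p.1 p.2 * x p.2))]
        ring) (fun p hp _ e => (mem_offDiag.1 hp).2.2 (congrArg Prod.snd e))
      (fun p hp => mem_offDiag.2 ⟨mem_univ _, mem_univ _, (mem_offDiag.1 hp).2.2.symm⟩)
      fun _ _ => rfl
    simp only [B]
    rw [← sum_product', ← diag_union_offDiag, sum_union (disjoint_diag_offDiag _), a, add_zero,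
      sum_diag]
    simp only [z3]
  obtain ⟨r, r1, r2⟩ := xPar_ind (B := B) (fun x => funext fun i => z2 (x i)) hB hs _ univ w rfl
    (fun _ _ _ _ => mem_univ _) (mem_univ _) fun x _ => (e1 x).trans (e2 x).symm
  have e3 : ∀ x ∈ univ, (∀ y ∈ univ, B x y = 0) ↔ ∀ i, ∑ j, M i j * x j = 0 := by
    refine fun x _ => ⟨fun h i => ?_, fun h y _ => ?_⟩
    · have := h (Pi.single i 1) (mem_univ _)
      simp only [B, ← mul_sum] at this
      rwa [sum_eq_single i (fun j _ e => by rw [Pi.single_eq_of_ne e, zero_mul]) (by simp),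
        Pi.single_eq_same, one_mul] at this
    · simp only [B, ← mul_sum, h, mul_zero, sum_const_zero]
  replace r1 := r1.trans (congrArg (fun T : Finset (ι → ZMod 2) => 2 ^ r * T.card)
    (a₂ := univ.filter fun v : ι → ZMod 2 => ∀ i, ∑ j, M i j * v j = 0) (by
      ext x
      simp only [mem_filter, e3 x (mem_univ _)]))
  rw [card_univ, Fintype.card_fun, ZMod.card] at r1
  obtain ⟨m, -, hm⟩ := (Nat.dvd_prime_pow Nat.prime_two).1 (Dvd.intro_left _ r1.symm)
  refine ⟨m, hm, ?_⟩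
  rw [hm, ← pow_add] at r1
  rw [Nat.pow_right_injective le_rfl r1, ← e1, ← r2, Nat.cast_add, add_right_comm, z2, zero_add]

end Pool.Agent.MP_e23604_nt.U.Bm

end
end

section

/-!
The size of the kernel of the model matrix is an even power of two and at least sixteen.
-/

open Finset
open scoped Classical

noncomputable section

namespace Pool.Agent.MP_e23604_nt.U.Bm

open P (sy ep xx chi EP PP Mod FFp NS star)

/-- The model matrix. -/
def xGood_M (Q : Finset ℕ) (t : ℕ → Fin 12) (c : ℕ → F12) :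
    (↥Q ⊕ Fin 12) → (↥Q ⊕ Fin 12) → ZMod 2
  | Sum.inl l, Sum.inl l' => if l = l' then dot (c l) wv else mm (t l) (t l') l l'
  | Sum.inl l, Sum.inr τ => c l τ
  | Sum.inr τ, Sum.inl l => c l τ
  | Sum.inr τ, Sum.inr σ => (Q.card : ZMod 2) * lv τ * lv σ

theorem xGood_ext (Q : Finset ℕ) (x : ↥Q → ZMod 2) (l : ↥Q) : ext0 Q x l = x l := by
  unfold ext0
  rw [dif_pos l.2]

theorem xGood_sq (τ : Fin 12) : lv τ * lv τ = lv τ := by
  rcases two_cases (lv τ) with h | h <;> rw [h] <;> simp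

theorem xGood_congr (Q : Finset ℕ) (t : ℕ → Fin 12) (c : ℕ → F12) (x x' : ℕ → ZMod 2) (y : F12)
    (h : ∀ l ∈ Q, x l = x' l) (hk : Ker Q t c x y) : Ker Q t c x' y := by
  refine ⟨fun l hl => ?_, fun τ => ?_⟩
  · rw [← hk.1 l hl, h l hl]
    congr 1
    exact sum_congr rfl fun l' hl' => by rw [h l' (mem_of_mem_erase hl')]
  · rw [← hk.2 τ]
    congr 1
    exact sum_congr rfl fun l hl => by rw [h l hl]

theorem xGood_row (Q : Finset ℕ) (t : ℕ → Fin 12) (c : ℕ → F12) (x : ↥Q → ZMod 2) (y : F12)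
    (l : ↥Q) : ∑ j, xGood_M Q t c (Sum.inl l) j * Sum.elim x y j =
      ∑ l' ∈ Q.erase l, mm (t l) (t l') l l' * ext0 Q x l' +
        ∑ τ, c l τ * (y τ + ext0 Q x l * wv τ) := by
  rw [Fintype.sum_sum_type]
  simp only [xGood_M, Sum.elim_inl, Sum.elim_inr]
  rw [← add_sum_erase univ _ (mem_univ l), if_pos rfl, xGood_ext]
  have h1 : ∑ l' ∈ univ.erase l, (if l = l' then dot (c l) wv else mm (t l) (t l') l l') * x l' =
      ∑ l' ∈ Q.erase l, mm (t l) (t l') l l' * ext0 Q x l' := by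
    refine sum_bij (fun a _ => (a : ℕ)) (fun a ha => ?_) (fun a _ b _ h => Subtype.ext h)
      (fun b hb => ?_) (fun a ha => ?_)
    · exact mem_erase.2 ⟨fun h => (mem_erase.1 ha).1 (Subtype.ext h), a.2⟩
    · exact ⟨⟨b, mem_of_mem_erase hb⟩,
        mem_erase.2 ⟨fun h => (mem_erase.1 hb).1 (congrArg Subtype.val h), mem_univ _⟩, rfl⟩
    · rw [if_neg (mem_erase.1 ha).1.symm, xGood_ext]
  rw [h1]
  have h2 : ∑ τ, c l τ * (y τ + x l * wv τ) = ∑ τ, c l τ * y τ + dot (c l) wv * x l := by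
    unfold dot
    rw [sum_mul, ← sum_add_distrib]
    exact sum_congr rfl fun τ _ => by ring
  rw [h2]
  ring

theorem xGood_col (Q : Finset ℕ) (t : ℕ → Fin 12) (c : ℕ → F12) (x : ↥Q → ZMod 2) (y : F12)
    (τ : Fin 12) : ∑ j, xGood_M Q t c (Sum.inr τ) j * Sum.elim x y j =
      ∑ l ∈ Q, ext0 Q x l * c l τ + (Q.card : ZMod 2) * lv τ * ∑ σ, lv σ * y σ := by
  rw [Fintype.sum_sum_type]
  simp only [xGood_M, Sum.elim_inl, Sum.elim_inr]
  rw [← sum_coe_sort Q, mul_sum]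
  congr 1
  · exact sum_congr rfl fun l _ => by rw [xGood_ext, mul_comm]
  · exact sum_congr rfl fun σ _ => by ring

theorem xGood_pow (hFK : SFK) (hPar : SPar) (Q : Finset ℕ) (t : ℕ → Fin 12) (c : ℕ → F12) :
    ∃ k : ℕ, (univ.filter fun z : (↥Q → ZMod 2) × F12 =>
      Ker Q t c (ext0 Q z.1) z.2).card = 4 ^ k := by
  have hw : ∑ σ, lv σ * wv σ = 1 := hFK.2.2.1
  obtain ⟨m, hm, hp⟩ := hPar (↥Q ⊕ Fin 12) (xGood_M Q t c) (Sum.elim 0 wv) (by
    rintro (l | τ) (l' | σ)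
    · simp only [xGood_M]
      by_cases h : l = l'
      · subst h
        rfl
      · rw [if_neg h, if_neg (Ne.symm h), mm_symm]
    · rfl
    · rfl
    · simp only [xGood_M]
      ring) (by
    rintro (l | τ)
    · rw [Fintype.sum_sum_type]
      simp [xGood_M, dot]
    · rw [Fintype.sum_sum_type]
      simp only [xGood_M, Sum.elim_inl, Sum.elim_inr, Pi.zero_apply, mul_zero, sum_const_zero,
        zero_add]
      have : ∑ σ, (Q.card : ZMod 2) * lv τ * lv σ * wv σ =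
          (Q.card : ZMod 2) * lv τ * ∑ σ, lv σ * wv σ := by
        rw [mul_sum]
        exact sum_congr rfl fun σ _ => by ring
      rw [this, hw, mul_one, mul_assoc, xGood_sq])
  have he : (m : ZMod 2) = 0 := by
    rw [hp, Fintype.sum_sum_type]
    simp only [xGood_M, Sum.elim_inl, Sum.elim_inr, Pi.zero_apply, zero_mul, sum_const_zero,
      zero_add, Fintype.card_sum, Fintype.card_coe, Fintype.card_fin]
    have : ∑ τ, wv τ * ((Q.card : ZMod 2) * lv τ * lv τ) =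
        (Q.card : ZMod 2) * ∑ σ, lv σ * wv σ := by
      rw [mul_sum]
      exact sum_congr rfl fun σ _ => by rw [mul_assoc (Q.card : ZMod 2), xGood_sq]; ring
    rw [this, hw, mul_one]
    push_cast
    have h2 : (2 : ZMod 2) = 0 := rfl
    linear_combination ((Q.card : ZMod 2) + 6) * h2
  obtain ⟨k, hk⟩ := (ZMod.natCast_eq_zero_iff m 2).1 he
  refine ⟨k, ?_⟩
  rw [show (4 : ℕ) = 2 ^ 2 from rfl, ← pow_mul, ← hk, ← hm]
  refine card_bij (fun z _ => Sum.elim z.1 z.2) (fun z hz => ?_) (fun z _ z' _ h => ?_)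
    (fun v hv => ?_)
  · have hz := (mem_filter.1 hz).2
    refine mem_filter.2 ⟨mem_univ _, ?_⟩
    rintro (l | τ)
    · rw [xGood_row]
      exact hz.1 l l.2
    · rw [xGood_col]
      exact hz.2 τ
  · refine Prod.ext (funext fun l => ?_) (funext fun τ => ?_)
    · exact congrFun h (Sum.inl l)
    · exact congrFun h (Sum.inr τ)
  · have hv := (mem_filter.1 hv).2
    have e : Sum.elim (fun l => v (Sum.inl l)) (fun τ => v (Sum.inr τ)) = v := by
      funext i
      cases i <;> rfl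
    refine ⟨(fun l => v (Sum.inl l), fun τ => v (Sum.inr τ)),
      mem_filter.2 ⟨mem_univ _, fun l hl => ?_, fun τ => ?_⟩, e⟩
    · have := xGood_row Q t c (fun l => v (Sum.inl l)) (fun τ => v (Sum.inr τ)) ⟨l, hl⟩
      rw [e, hv] at this
      exact this.symm
    · have := xGood_col Q t c (fun l => v (Sum.inl l)) (fun τ => v (Sum.inr τ)) τ
      rw [e, hv] at this
      exact this.symm

theorem SGood_pf (hFK : SFK) (hPar : SPar) : SGood := by
  intro Q t c hc
  obtain ⟨k, hk⟩ := xGood_pow hFK hPar Q t c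
  set S := univ.filter fun z : (↥Q → ZMod 2) × F12 => Ker Q t c (ext0 Q z.1) z.2 with hS
  set T : Finset ((↥Q → ZMod 2) × F12) :=
    (univ.filter InK).image fun y => ((0 : ↥Q → ZMod 2), y) with hT
  have hTc : T.card = 16 := by
    rw [hT, card_image_of_injective _ (fun a b h => congrArg Prod.snd h)]
    exact hFK.2.2.2.1
  have hTS : T ⊆ S := by
    intro z hz
    obtain ⟨y, hy, rfl⟩ := mem_image.1 hz
    have hy := (mem_filter.1 hy).2
    refine mem_filter.2 ⟨mem_univ _, xGood_congr Q t c 0 _ y (fun l hl => ?_)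
      ⟨fun l hl => ?_, fun τ => ?_⟩⟩
    · exact (xGood_ext Q 0 ⟨l, hl⟩).symm
    · have := hc l hl y hy
      unfold dot at this
      simpa using this
    · have := (hFK.1 y hy).2.2.2
      unfold dot at this
      simp [this]
  have hn : nker Q t c = (S.card : ℝ) := rfl
  rw [hn]
  split_ifs with hG
  · have : (16 : ℝ) ≤ S.card := by exact_mod_cast hTc ▸ card_le_card hTS
    linarith
  · unfold Good at hG
    push Not at hG
    obtain ⟨x, y, hxy, hn⟩ := hG
    have hz : ((fun l : ↥Q => x l), y) ∈ S :=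
      mem_filter.2 ⟨mem_univ _, xGood_congr Q t c x _ y
        (fun l hl => (xGood_ext Q (fun l : ↥Q => x l) ⟨l, hl⟩).symm) hxy⟩
    have hzT : ((fun l : ↥Q => x l), y) ∉ T := by
      intro h
      obtain ⟨y', hy', e⟩ := mem_image.1 h
      have e1 := congrArg Prod.fst e
      have e2 : y' = y := congrArg Prod.snd e
      exact hn (fun l hl => (congrFun e1 ⟨l, hl⟩).symm) (e2 ▸ (mem_filter.1 hy').2)
    have h17 : 16 < S.card := hTc ▸ card_lt_card ⟨hTS, fun h => hzT (h hz)⟩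
    have hk3 : 3 ≤ k := by
      by_contra h
      have : 4 ^ k ≤ 4 ^ 2 := Nat.pow_le_pow_right (by norm_num) (by omega)
      omega
    have : 64 ≤ S.card := hk ▸ (Nat.pow_le_pow_right (by norm_num) hk3 : 4 ^ 3 ≤ 4 ^ k)
    have : (64 : ℝ) ≤ S.card := by exact_mod_cast this
    linarith

end Pool.Agent.MP_e23604_nt.U.Bm

end
end

section

/-!
The proportion of good borders and the mean size of the kernel.
-/

open Finset
open scoped Classical

noncomputable section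

namespace Pool.Agent.MP_e23604_nt.U.Bm

open P (sy ep xx chi EP PP Mod FFp NS star)

theorem xPg_cv (σ : Fin 12) (l : ℕ) (g : Fin 5 → ZMod 2) (v : F12) :
    dot (cv σ l g) v = ∑ i, g i * dot (gen σ i) v + ep l * dot (zet σ) v := by
  unfold dot cv
  simp only [add_mul, sum_add_distrib, sum_mul, mul_sum, mul_assoc]
  rw [sum_comm]

theorem xPg_dot (hFK : SFK) (s : S12) (g : ↥((PS s).erase 3) → Fin 5 → ZMod 2) (l : ℕ) (v : F12)
    (hv : InK v) : dot (cvec s g l) v = 0 := by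
  obtain ⟨h1, h2, h3, -⟩ := hFK.1 v hv
  unfold cvec
  split_ifs with h
  · rw [xPg_cv, h2, mul_zero, add_zero]
    exact sum_eq_zero fun i _ => by rw [h1 _ i, mul_zero]
  · exact h3

theorem xPg_card (Q : Finset ℕ) :
    ((univ : Finset (↥Q → Fin 5 → ZMod 2)).card : ℝ) = 32 ^ Q.card := by
  rw [card_univ, Fintype.card_fun, Fintype.card_fun, Fintype.card_coe, ZMod.card, Fintype.card_fin]
  norm_num

theorem SPg_pf (hFK : SFK) (hGood : SGood) : SPg := by
  intro s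
  have h0 : (0 : ℝ) < 32 ^ ((PS s).erase 3).card := by positivity
  have hc := xPg_card ((PS s).erase 3)
  unfold pgood avk
  refine ⟨?_, by positivity, (div_le_one h0).2 ?_⟩
  · have h1 := sum_le_sum fun g (_ : g ∈ univ) =>
      hGood (PS s) (st s) (cvec s g) fun l _ v hv => xPg_dot hFK s g l v hv
    rw [sum_boole, ← sum_div, sum_sub_distrib, sum_const, nsmul_eq_mul, hc] at h1
    rw [le_div_iff₀ h0]
    refine le_trans (le_of_eq ?_) h1
    field_simp
  · rw [← hc]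
    exact Nat.cast_le.2 (card_filter_le _ _)

end Pool.Agent.MP_e23604_nt.U.Bm

end
end

section

/-!
The Fourier expansion of the size of the kernel.
-/

open Finset
open scoped Classical

noncomputable section

namespace Pool.Agent.MP_e23604_nt.U.Bm

open P (sy ep xx chi EP PP Mod FFp NS star)

theorem xFA1_one (z : ZMod 2) :
    ∑ e : ZMod 2, 1 / 2 * sgb (e * z) = if z = 0 then 1 else 0 := by
  have h : (univ : Finset (ZMod 2)) = {0, 1} := by decide
  rw [h, sum_pair zero_ne_one, zero_mul, one_mul, sgb_zero]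
  unfold sgb
  split_ifs <;> norm_num

theorem xFA1_ind {ι : Type} [Fintype ι] [DecidableEq ι] (f : ι → ZMod 2) (p : Prop)
    [Decidable p] (hp : p ↔ ∀ i, f i = 0) :
    (if p then 1 else 0 : ℝ) = ∑ e : ι → ZMod 2, (∏ _i : ι, (1 / 2 : ℝ)) * sgb (∑ i, e i * f i) := by
  have h1 : ∀ e : ι → ZMod 2, (∏ _i : ι, (1 / 2 : ℝ)) * sgb (∑ i, e i * f i) =
      ∏ i, 1 / 2 * sgb (e i * f i) := fun e => by rw [sgb_sum, prod_mul_distrib]
  rw [sum_congr rfl fun e _ => h1 e, ← Fintype.piFinset_univ,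
    ← prod_univ_sum (fun _ => univ) fun i e => 1 / 2 * sgb (e * f i),
    prod_congr rfl fun i _ => xFA1_one (f i)]
  by_cases h : p
  · rw [if_pos h]
    exact (prod_eq_one fun i _ => if_pos (hp.1 h i)).symm
  · rw [if_neg h]
    obtain ⟨i, hi⟩ := not_forall.1 fun c => h (hp.2 c)
    exact (prod_eq_zero (mem_univ i) (if_neg hi)).symm

theorem xFA1_re {ι : Type} [Fintype ι] [DecidableEq ι]
    (G : (ι → ZMod 2) → (ι → ZMod 2) → ℝ) :
    ∑ b : ι → Fin 4, G (fun l => xb (b l)) (fun l => eb (b l)) = ∑ x, ∑ e, G x e := by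
  have h1 : ∀ o o' : Fin 4, xb o = xb o' → eb o = eb o' → o = o' := by decide
  have h2 : ∀ u v : ZMod 2, ∃ o : Fin 4, xb o = u ∧ eb o = v := by decide
  rw [← Fintype.sum_prod_type']
  refine Function.Bijective.sum_comp
    (e := fun b : ι → Fin 4 => ((fun l => xb (b l), fun l => eb (b l)) :
      (ι → ZMod 2) × (ι → ZMod 2))) ⟨fun b b' h => ?_, fun z => ?_⟩ fun z => G z.1 z.2
  · exact funext fun l => h1 _ _ (congrFun (congrArg Prod.fst h) l)
      (congrFun (congrArg Prod.snd h) l)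
  · choose b hb using fun l => h2 (z.1 l) (z.2 l)
    exact ⟨b, Prod.ext (funext fun l => (hb l).1) (funext fun l => (hb l).2)⟩

theorem xFA1_ext (Q : Finset ℕ) (x : ↥Q → ZMod 2) (l : ↥Q) : ext0 Q x l = x l := dif_pos l.2

theorem xFA1_er (Q : Finset ℕ) (f : ℕ → ZMod 2) (l : ↥Q) :
    ∑ l' ∈ Q.erase l, f l' = ∑ l' ∈ univ.erase l, f l' := by
  rw [sum_erase_eq_sub l.2, sum_erase_eq_sub (mem_univ l), sum_coe_sort]

/-- The row conditions. -/
def xFA1_R (Q : Finset ℕ) (t : ℕ → Fin 12) (c : ℕ → F12) (x : ↥Q → ZMod 2) (y : F12) (l : ↥Q) :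
    ZMod 2 :=
  ∑ l' ∈ univ.erase l, mm (t l) (t l') l l' * x l' + ∑ τ, c l τ * (y τ + x l * wv τ)

/-- The column conditions. -/
def xFA1_C (Q : Finset ℕ) (c : ℕ → F12) (x : ↥Q → ZMod 2) (y : F12) (τ : Fin 12) : ZMod 2 :=
  ∑ l : ↥Q, (x l * c l τ + lv τ * dot lv y)

theorem xFA1_ker (Q : Finset ℕ) (t : ℕ → Fin 12) (c : ℕ → F12) (x : ↥Q → ZMod 2) (y : F12) :
    Ker Q t c (ext0 Q x) y ↔ (∀ l, xFA1_R Q t c x y l = 0) ∧ ∀ τ, xFA1_C Q c x y τ = 0 := by
  refine and_congr ?_ (forall_congr' fun τ => ?_)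
  · rw [← Subtype.forall (p := fun l => l ∈ Q) (q := fun l => ∑ l' ∈ Q.erase l.1,
      mm (t l) (t l') l l' * ext0 Q x l' + ∑ τ, c l τ * (y τ + ext0 Q x l * wv τ) = 0)]
    refine forall_congr' fun l => ?_
    rw [xFA1_er Q _ l]
    simp only [xFA1_ext, xFA1_R]
  · rw [xFA1_C, sum_add_distrib, ← sum_coe_sort Q, sum_const, card_univ, Fintype.card_coe,
      nsmul_eq_mul, mul_assoc]
    simp only [xFA1_ext, dot]

/-- The term of the expansion. -/
def xFA1_G (Q : Finset ℕ) (t : ℕ → Fin 12) (c : ℕ → F12) (y η : F12) (x e : ↥Q → ZMod 2) : ℝ :=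
  (∏ l : ↥Q, 1 / 2 * sgb (kap y η) *
    sgb (∑ τ, c l τ * (e l * y τ + x l * η τ + x l * e l * wv τ))) *
    sgb (∑ l, ∑ l' ∈ univ.erase l, e l * x l' * mm (t l) (t l') l l')

theorem xFA1_ph (Q : Finset ℕ) (t : ℕ → Fin 12) (c : ℕ → F12) (y η : F12)
    (x e : ↥Q → ZMod 2) :
    ∑ τ, η τ * xFA1_C Q c x y τ + ∑ l, e l * xFA1_R Q t c x y l =
      ∑ l : ↥Q, (kap y η + ∑ τ, c l τ * (e l * y τ + x l * η τ + x l * e l * wv τ)) +
        ∑ l, ∑ l' ∈ univ.erase l, e l * x l' * mm (t l) (t l') l l' := by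
  have h0 : ∑ τ, η τ * xFA1_C Q c x y τ =
      ∑ l : ↥Q, ∑ τ, η τ * (x l * c l τ + lv τ * dot lv y) := by
    rw [sum_comm]
    exact sum_congr rfl fun τ _ => mul_sum _ _ _
  rw [h0, ← sum_add_distrib, ← sum_add_distrib]
  refine sum_congr rfl fun l _ => ?_
  have h1 : ∑ l' ∈ univ.erase l, e l * (mm (t l) (t l') l l' * x l') =
      ∑ l' ∈ univ.erase l, e l * x l' * mm (t l) (t l') l l' :=
    sum_congr rfl fun _ _ => by ring
  have h2 : kap y η = ∑ τ, dot lv y * (lv τ * η τ) := by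
    rw [kap, ← mul_sum]
    rfl
  have h3 : ∑ τ, η τ * (x l * c l τ + lv τ * dot lv y) + ∑ τ, e l * (c l τ * (y τ + x l * wv τ)) =
      ∑ τ, dot lv y * (lv τ * η τ) +
        ∑ τ, c l τ * (e l * y τ + x l * η τ + x l * e l * wv τ) := by
    rw [← sum_add_distrib, ← sum_add_distrib]
    exact sum_congr rfl fun τ _ => by ring
  rw [xFA1_R, mul_add, mul_sum, mul_sum, h1, h2, ← h3, add_comm (∑ l' ∈ univ.erase l, _),
    add_assoc]

theorem xFA1_key (Q : Finset ℕ) (t : ℕ → Fin 12) (c : ℕ → F12) (x : ↥Q → ZMod 2) (y : F12) :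
    (if Ker Q t c (ext0 Q x) y then 1 else 0 : ℝ) =
      ∑ η : F12, ∑ e, 1 / 2 ^ 12 * xFA1_G Q t c y η x e := by
  have h : (if Ker Q t c (ext0 Q x) y then 1 else 0 : ℝ) =
      (if ∀ τ, xFA1_C Q c x y τ = 0 then 1 else 0) *
        if ∀ l, xFA1_R Q t c x y l = 0 then 1 else 0 := by
    rw [ite_zero_mul_ite_zero, mul_one]
    exact if_congr ((xFA1_ker Q t c x y).trans and_comm) rfl rfl
  rw [h, xFA1_ind (xFA1_C Q c x y) _ Iff.rfl, xFA1_ind (xFA1_R Q t c x y) _ Iff.rfl, sum_mul_sum]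
  refine sum_congr rfl fun η _ => sum_congr rfl fun e _ => ?_
  rw [mul_mul_mul_comm, ← sgb_add, xFA1_ph, sgb_add, sgb_sum, xFA1_G, prod_const, card_univ,
    Fintype.card_fin, one_div_pow, mul_assoc, ← mul_assoc (∏ _i : ↥Q, (1 / 2 : ℝ)),
    ← prod_mul_distrib]
  simp only [sgb_add, mul_assoc]

theorem SFA1_pf : SFA1 := by
  intro Q t c
  have h : ∀ y η : F12, ∑ b : ↥Q → Fin 4,
      (∏ l : ↥Q, 1 / 2 * sgb (kap y η) * sgb (dot (c l) (vec y η (b l)))) *
        sgb (Phi Q fun l => some (b l, t l)) = ∑ x, ∑ e, xFA1_G Q t c y η x e :=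
    fun y η => xFA1_re (xFA1_G Q t c y η)
  simp only [h]
  rw [nker, card_filter, Nat.cast_sum, Fintype.sum_prod_type, sum_comm, mul_sum]
  refine sum_congr rfl fun y _ => ?_
  rw [sum_comm, mul_sum]
  refine sum_congr rfl fun x _ => ?_
  rw [Nat.cast_ite, Nat.cast_one, Nat.cast_zero, xFA1_key]
  simp only [mul_sum]

end Pool.Agent.MP_e23604_nt.U.Bm

end
end

section

open Finset
open scoped Classical

noncomputable section

namespace Pool.Agent.MP_e23604_nt.U.Bm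

open P (sy ep xx chi EP PP Mod FFp NS star)

theorem xFA_mem {s : S12} (hs : SOK s) : 3 ∈ PS s :=
  Nat.mem_primeFactors.2 ⟨Nat.prime_three, hs.2.1.trans (dvd_prod_of_mem s (mem_univ 0)),
    hs.1.ne_zero⟩

theorem xFA_st {s : S12} (hs : SOK s) : st s 3 = 0 := by
  have h : ∃ σ, 3 ∣ s σ := ⟨0, hs.2.1⟩
  rw [st, dif_pos h]
  by_contra hne
  have h1 : ∏ σ ∈ ({h.choose, 0} : Finset (Fin 12)), s σ ∣ SP s :=
    prod_dvd_prod_of_subset _ _ s (subset_univ _)
  rw [prod_pair hne] at h1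
  have h2 := hs.1 3 ((mul_dvd_mul h.choose_spec hs.2.1).trans h1)
  rw [Nat.isUnit_iff] at h2
  omega

theorem xFA_equiv {Q : Finset ℕ} (h3 : 3 ∈ Q) : ∃ e : Option ↥(Q.erase 3) ≃ ↥Q,
    (e none : ℕ) = 3 ∧ ∀ l, (e (some l) : ℕ) = l := by
  refine ⟨⟨fun o => o.elim ⟨3, h3⟩ fun l => ⟨l, mem_of_mem_erase l.2⟩,
    fun l => if h : (l : ℕ) = 3 then none else some ⟨l, mem_erase.2 ⟨h, l.2⟩⟩, ?_, ?_⟩,
    rfl, fun _ => rfl⟩
  · rintro (_ | l)
    · exact dif_pos rfl
    · exact dif_neg (ne_of_mem_erase l.2)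
  · intro l
    by_cases h : (l : ℕ) = 3
    · simp only [dif_pos h]
      exact Subtype.ext h.symm
    · simp only [dif_neg h]
      rfl

theorem xFA_sum {ι κ O : Type} [Fintype ι] [DecidableEq ι] [Fintype κ] [DecidableEq κ] [Fintype O]
    (e : Option κ ≃ ι) (F : (ι → O) → ℝ) :
    ∑ b, F b = ∑ o, ∑ b' : κ → O, F fun l => (e.symm l).elim o b' := by
  rw [← Fintype.sum_prod_type' fun (o : O) (b' : κ → O) => F fun l => (e.symm l).elim o b']
  symm
  refine Fintype.sum_equiv (M := ℝ) ⟨fun (z : O × (κ → O)) l => (e.symm l).elim z.1 z.2,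
    fun b => (b (e none), fun k => b (e (some k))), ?_, ?_⟩ _ F fun _ => rfl
  · intro z
    simp
  · intro b
    funext l
    obtain ⟨i, rfl⟩ := e.surjective l
    cases i <;> simp

theorem xFA_off {ι κ : Type} [Fintype ι] [DecidableEq ι] [Fintype κ] [DecidableEq κ]
    (e : Option κ ≃ ι) (G : ι → ι → ZMod 2) :
    ∑ i, ∑ j ∈ univ.erase i, G i j =
      ∑ i, ∑ j ∈ univ.erase i, G (e (some i)) (e (some j)) +
        ∑ i, (G (e none) (e (some i)) + G (e (some i)) (e none)) := by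
  have h1 : ∀ i, ∑ j ∈ univ.erase i, G i j = ∑ j, G i j - G i i := fun i =>
    sum_erase_eq_sub (mem_univ i)
  have h2 : ∀ i, ∑ j ∈ univ.erase i, G (e (some i)) (e (some j)) =
      ∑ j, G (e (some i)) (e (some j)) - G (e (some i)) (e (some i)) := fun i =>
    sum_erase_eq_sub (f := fun j => G (e (some i)) (e (some j))) (mem_univ i)
  have h3 : ∀ i, ∑ j, G i j = G i (e none) + ∑ j, G i (e (some j)) := fun i => by
    rw [← e.sum_comp, Fintype.sum_option]
  simp only [h1, h2, h3]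
  rw [← e.sum_comp, Fintype.sum_option]
  simp only [sum_sub_distrib, sum_add_distrib]
  ring

theorem xFA_phi {Q : Finset ℕ} (e : Option ↥(Q.erase 3) ≃ ↥Q) (e0 : (e none : ℕ) = 3)
    (e1 : ∀ l, (e (some l) : ℕ) = l) (t : ℕ → Fin 12) (ht : t 3 = 0) (o : Fin 4)
    (b : ↥(Q.erase 3) → Fin 4) :
    (Phi Q fun l => some ((e.symm l).elim o b, t l)) =
      (Phi (Q.erase 3) fun l => some (b l, t l)) + ∑ l, lnk o (b l) * mm 0 (t l) 3 l := by
  unfold Phi
  rw [xFA_off e]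
  simp only [eo, xo, so, Option.elim_some, Option.elim_none, Equiv.symm_apply_apply, e0, e1, ht]
  congr 1
  refine sum_congr rfl fun l _ => ?_
  rw [mm_symm (t l) 0 l 3, lnk]
  ring

theorem xFA_two (z : ZMod 2) : ∑ a : ZMod 2, sgb (a * z) = if z = 0 then 2 else 0 := by
  have h : (univ : Finset (ZMod 2)) = {0, 1} := by decide
  rw [h, sum_pair zero_ne_one, zero_mul, one_mul, sgb_zero]
  rcases two_cases z with rfl | rfl
  · rw [sgb_zero, if_pos rfl]
    norm_num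
  · rw [sgb_one, if_neg one_ne_zero]
    norm_num

theorem xFA_dot (σ : Fin 12) (l : ℕ) (a : Fin 5 → ZMod 2) (v : F12) :
    dot (cv σ l a) v = ∑ i, a i * dot (gen σ i) v + ep l * dot (zet σ) v := by
  simp only [dot, cv, add_mul, sum_add_distrib, sum_mul, mul_sum, mul_assoc]
  rw [sum_comm]

theorem xFA_loc (σ : Fin 12) (l : ℕ) (v : F12) :
    ∑ a : Fin 5 → ZMod 2, sgb (dot (cv σ l a) v) =
      32 * if Det σ v then sgb (ep l * dot (zet σ) v) else 0 := by
  simp only [xFA_dot, sgb_add, sgb_sum]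
  rw [← sum_mul, ← Fintype.prod_sum fun i a => sgb (a * dot (gen σ i) v)]
  simp only [xFA_two]
  by_cases h : Det σ v
  · rw [if_pos h, prod_congr rfl fun i _ => if_pos (h i)]
    norm_num
  · rw [if_neg h, mul_zero]
    obtain ⟨i, hi⟩ := not_forall.1 h
    rw [prod_eq_zero (mem_univ i) (if_neg hi), zero_mul]

theorem xFA_fix {s : S12} (hs : SOK s) (g : ↥((PS s).erase 3) → Fin 5 → ZMod 2) (y η : F12) :
    ∑ b : ↥(PS s) → Fin 4,
      (∏ l : ↥(PS s), 1 / 2 * sgb (kap y η) * sgb (dot (cvec s g l) (vec y η (b l)))) *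
        sgb (Phi (PS s) fun l => some (b l, st s l)) =
    ∑ o : Fin 4, ∑ b : ↥((PS s).erase 3) → Fin 4,
      1 / 2 * sgb (kap y η) * sgb (dot c3 (vec y η o)) *
        sgb (Phi ((PS s).erase 3) fun l => some (b l, st s l)) *
        ∏ l : ↥((PS s).erase 3), 1 / 2 * sgb (kap y η) *
          sgb (dot (cv (st s l) l (g l)) (vec y η (b l))) *
          sgb (lnk o (b l) * mm 0 (st s l) 3 l) := by
  obtain ⟨e, e0, e1⟩ := xFA_equiv (xFA_mem hs)
  rw [xFA_sum e]
  refine sum_congr rfl fun o _ => sum_congr rfl fun b _ => ?_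
  have c0 : cvec s g 3 = c3 := dif_neg (notMem_erase 3 _)
  have c1 : ∀ l : ↥((PS s).erase 3), cvec s g l = cv (st s l) l (g l) := fun l => dif_pos l.2
  rw [xFA_phi e e0 e1 _ (xFA_st hs), sgb_add, sgb_sum, ← e.prod_comp, Fintype.prod_option]
  simp only [Option.elim_some, Option.elim_none, Equiv.symm_apply_apply, e0, e1, c0, c1]
  rw [prod_mul_distrib (g := fun l : ↥((PS s).erase 3) => sgb (lnk o (b l) * mm 0 (st s l) 3 l))]
  ring

theorem xFA_avg (s : S12) (y η : F12) (o : Fin 4) (b : ↥((PS s).erase 3) → Fin 4) :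
    ∑ g : ↥((PS s).erase 3) → Fin 5 → ZMod 2, ∏ l : ↥((PS s).erase 3), 1 / 2 * sgb (kap y η) *
        sgb (dot (cv (st s l) l (g l)) (vec y η (b l))) * sgb (lnk o (b l) * mm 0 (st s l) 3 l) =
      32 ^ ((PS s).erase 3).card * ∏ l : ↥((PS s).erase 3), lf y η o (b l, st s l) l := by
  rw [← Fintype.prod_sum fun (l : ↥((PS s).erase 3)) (a : Fin 5 → ZMod 2) =>
    1 / 2 * sgb (kap y η) * sgb (dot (cv (st s l) l a) (vec y η (b l))) *
      sgb (lnk o (b l) * mm 0 (st s l) 3 l), ← Fintype.card_coe, ← card_univ, ← prod_const,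
    ← prod_mul_distrib]
  refine prod_congr rfl fun l _ => ?_
  rw [← sum_mul, ← mul_sum, xFA_loc, lf]
  ring

theorem SFA_pf (hFA1 : SFA1) (_hPhi : SPhi) : SFA := by
  intro s hs
  have hp : (32 : ℝ) ^ ((PS s).erase 3).card ≠ 0 := by positivity
  rw [avk, div_eq_iff hp]
  simp only [hFA1 (PS s) (st s), xFA_fix hs]
  rw [← mul_sum, sum_comm, show (1 / 2 ^ 13 : ℝ) = 1 / 2 ^ 12 * (1 / 2) by norm_num, mul_assoc,
    mul_assoc, sum_mul, mul_sum _ _ (1 / 2)]
  refine congrArg _ (sum_congr rfl fun y _ => ?_)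
  rw [sum_comm, sum_mul, mul_sum]
  refine sum_congr rfl fun η _ => ?_
  rw [sum_comm, sum_mul, mul_sum]
  refine sum_congr rfl fun o _ => ?_
  rw [sum_comm, mul_sum, sum_mul, mul_sum]
  refine sum_congr rfl fun b _ => ?_
  rw [← mul_sum, xFA_avg]
  ring

end Pool.Agent.MP_e23604_nt.U.Bm

end
end

section

open Finset
open scoped Classical

noncomputable section

namespace Pool.Agent.MP_e23604_nt.U.Bm

open P (sy ep xx chi EP PP Mod FFp NS star)

lemma xFB_prod {M : Type} [CommMonoid M] {P Q : Finset ℕ} (h : Q ⊆ P) (G : ↥P → M)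
    (hG : ∀ l : ↥P, (l : ℕ) ∉ Q → G l = 1) : ∏ l, G l = ∏ l : ↥Q, G ⟨l, h l.2⟩ := by
  symm
  refine Fintype.prod_of_injective (fun l : ↥Q => (⟨l, h l.2⟩ : ↥P))
    (fun a b e => Subtype.ext (congrArg (fun x : ↥P => (x : ℕ)) e)) _ _
    (fun l hl => hG l fun h1 => hl ⟨⟨l, h1⟩, rfl⟩) fun _ => rfl

lemma xFB_sum {M : Type} [AddCommMonoid M] {P Q : Finset ℕ} (h : Q ⊆ P) (G : ↥P → M)
    (hG : ∀ l : ↥P, (l : ℕ) ∉ Q → G l = 0) : ∑ l, G l = ∑ l : ↥Q, G ⟨l, h l.2⟩ := by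
  symm
  refine Fintype.sum_of_injective (fun l : ↥Q => (⟨l, h l.2⟩ : ↥P))
    (fun a b e => Subtype.ext (congrArg (fun x : ↥P => (x : ℕ)) e)) _ _
    (fun l hl => hG l fun h1 => hl ⟨⟨l, h1⟩, rfl⟩) fun _ => rfl

lemma xFB_phi (P : Finset ℕ) (u : CfI P) : Phi P u = ∑ l : ↥P, ∑ l' : ↥P,
    if (l' : ℕ) = l then 0 else eo (u l) * xo (u l') * mm (so (u l)) (so (u l')) l l' := by
  refine sum_congr rfl fun l _ => ?_
  rw [← filter_ne', sum_filter]
  refine sum_congr rfl fun l' _ => ?_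
  by_cases h : l' = l
  · rw [if_neg (not_not.2 h), if_pos (congrArg _ h)]
  · rw [if_pos h, if_neg fun e => h (Subtype.ext e)]

/-- the configuration with types `b` on `Q` and sites `f` -/
def xFB_e (P Q : Finset ℕ) (f : ℕ → Fin 12) (b : ↥Q → Fin 4) : CfI P :=
  fun l => if h : (l : ℕ) ∈ Q then some (b ⟨l, h⟩, f l) else none

lemma xFB_pos {P Q : Finset ℕ} (h : Q ⊆ P) (f : ℕ → Fin 12) (b : ↥Q → Fin 4) (l : ↥Q) :
    xFB_e P Q f b ⟨l, h l.2⟩ = some (b l, f l) := dif_pos l.2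

lemma xFB_neg {P Q : Finset ℕ} (f : ℕ → Fin 12) (b : ↥Q → Fin 4) {l : ↥P} (h : (l : ℕ) ∉ Q) :
    xFB_e P Q f b l = none := dif_neg h

lemma xFB_phi2 {P Q : Finset ℕ} (h : Q ⊆ P) (f : ℕ → Fin 12) (b : ↥Q → Fin 4) :
    Phi P (xFB_e P Q f b) = Phi Q fun l => some (b l, f l) := by
  rw [xFB_phi, xFB_phi, xFB_sum h _ fun l hl => by simp [xFB_neg f b hl, eo]]
  refine sum_congr rfl fun l _ => ?_
  rw [xFB_sum h _ fun l hl => by simp [xFB_neg f b hl, xo]]
  simp only [xFB_pos h]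

lemma xFB_fib {P Q : Finset ℕ} (t : CfU P) (f : ℕ → Fin 12)
    (hQ : ∀ l, l ∈ Q ↔ ∃ h : l ∈ P, t ⟨l, h⟩ ≠ none)
    (hf : ∀ (l : ↥P) (σ : Fin 12), t l = some σ → f l = σ) (s : ℝ) (γ : Ix → ℕ → ℝ) :
    wtU s P t * ∑ b : ↥Q → Fin 4, (∏ l : ↥Q, γ (b l, f l) l) *
      sgb (Phi Q fun l => some (b l, f l)) =
    ∑ u ∈ Fintype.piFinset fun l => univ.filter fun o : Option Ix => o.map Prod.snd = t l,
      WI P (fun i l => xx s l * γ i l) u * sgb (Phi P u) := by
  have h : Q ⊆ P := fun l hl => ((hQ l).1 hl).1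
  have h0 : ∀ l : ↥P, (l : ℕ) ∉ Q → t l = none := fun l hl => by
    by_contra h1
    exact hl ((hQ l).2 ⟨l.2, h1⟩)
  have h1 : ∀ l : ↥P, (l : ℕ) ∈ Q → t l = some (f l) := fun l hl => by
    obtain ⟨σ, hσ⟩ := Option.ne_none_iff_exists'.1 ((hQ l).1 hl).2
    rw [hf l σ hσ]
    exact hσ
  rw [mul_sum]
  refine sum_bij' (fun b _ => xFB_e P Q f b) (fun u _ l => (u ⟨l, h l.2⟩).elim 0 Prod.fst)
    (fun b _ => ?_) (fun _ _ => mem_univ _) (fun b _ => ?_) (fun u hu => ?_) fun b _ => ?_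
  · refine Fintype.mem_piFinset.2 fun l => mem_filter.2 ⟨mem_univ _, ?_⟩
    by_cases hl : (l : ℕ) ∈ Q
    · rw [h1 l hl, xFB_pos h f b ⟨l, hl⟩]
      rfl
    · rw [h0 l hl, xFB_neg f b hl]
      rfl
  · funext l
    rw [xFB_pos h]
    rfl
  · funext l
    have h2 := (mem_filter.1 (Fintype.mem_piFinset.1 hu l)).2
    by_cases hl : (l : ℕ) ∈ Q
    · rw [h1 l hl] at h2
      obtain ⟨i, h3, h4⟩ := Option.map_eq_some_iff.1 h2
      rw [xFB_pos h f _ ⟨l, hl⟩, h3, ← h4]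
      rfl
    · rw [h0 l hl] at h2
      rw [xFB_neg f _ hl, Option.map_eq_none_iff.1 h2]
  · rw [xFB_phi2 h, ← mul_assoc, wtU, WI, xFB_prod h _ fun l hl => if_pos (h0 l hl),
      xFB_prod h _ fun l hl => by rw [xFB_neg f b hl]; rfl, ← prod_mul_distrib]
    congr 1
    refine prod_congr rfl fun l _ => ?_
    rw [xFB_pos h, if_neg ((hQ l).1 l.2).2]
    rfl

theorem SFB_pf (hCfg : SCfg) : SFB := by
  intro P s γ hP
  simp only [SR, if_true]
  rw [sum_fib (Option.map Prod.snd : Option Ix → Option (Fin 12))]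
  refine sum_congr rfl fun t _ => ?_
  obtain ⟨-, -, hQ, hf, -⟩ := (hCfg P hP).2 t
  convert xFB_fib t _ hQ hf s γ

end Pool.Agent.MP_e23604_nt.U.Bm

end
end

section

open Finset
open scoped Classical

noncomputable section

namespace Pool.Agent.MP_e23604_nt.U.Bm

open P (sy ep xx chi EP PP Mod FFp NS star)

theorem xWt_sum {P : Finset ℕ} (f : ℕ → Option (Fin 12) → ℝ) :
    ∑ t : CfU P, ∏ l : ↥P, f l (t l) = ∏ l ∈ P, ∑ o, f l o := by
  rw [← prod_coe_sort P, prod_univ_sum, Fintype.piFinset_univ]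

theorem xWt_fib {P : Finset ℕ} (f : ℕ → Option (Fin 12) → ℝ) (p : Option (Fin 12) → Prop)
    (q : ℕ → Prop) [DecidablePred p] [DecidablePred q] :
    ∑ t ∈ univ.filter fun t : CfU P => q (∏ l : ↥P, if p (t l) then (l : ℕ) else 1),
      ∏ l : ↥P, f l (t l) =
    ∑ x ∈ P.powerset.filter fun x => q (∏ l ∈ x, l),
      ∏ l ∈ P, ∑ o, if (p o ↔ l ∈ x) then f l o else 0 := by
  rw [sum_congr rfl fun x _ =>
    (xWt_sum (P := P) fun l o => if (p o ↔ l ∈ x) then f l o else 0).symm, sum_comm, sum_filter]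
  refine sum_congr rfl fun t _ => ?_
  let y : Finset ℕ := (univ.filter fun l : ↥P => p (t l)).map (Function.Embedding.subtype _)
  have hy : ∀ l : ↥P, (l : ℕ) ∈ y ↔ p (t l) := fun l => by
    rw [show (l : ℕ) = Function.Embedding.subtype _ l from rfl, mem_map']
    simp
  have hyP : y ⊆ P := fun l hl => by
    obtain ⟨k, -, rfl⟩ := mem_map.1 hl
    exact k.2
  have h1 : ∏ l ∈ y, l = ∏ l : ↥P, if p (t l) then (l : ℕ) else 1 := by
    rw [prod_map, prod_filter]
    rfl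
  have h2 : ∀ x ∈ P.powerset.filter fun x => q (∏ l ∈ x, l),
      (∏ l : ↥P, if (p (t l) ↔ (l : ℕ) ∈ x) then f l (t l) else 0) =
        if y = x then ∏ l : ↥P, f l (t l) else 0 := by
    intro x hx
    have hx' := mem_powerset.1 (mem_filter.1 hx).1
    split_ifs with h
    · exact prod_congr rfl fun l _ => if_pos (h ▸ (hy l).symm)
    · by_contra hn
      refine h (Finset.ext fun l => ?_)
      by_cases hl : l ∈ P
      · have h3 := prod_ne_zero_iff.1 hn ⟨l, hl⟩ (mem_univ _)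
        exact (hy ⟨l, hl⟩).trans (by_contra fun h4 => h3 (if_neg h4))
      · exact iff_of_false (fun h => hl (hyP h)) fun h => hl (hx' h)
  rw [sum_congr rfl h2, sum_ite_eq, ← h1]
  simp only [mem_filter, mem_powerset, hyP, true_and]

theorem xWt_one {P : Finset ℕ} {s : ℝ} (hs : 0 < s) (k : ↥P) (hk : 0 < (k : ℕ)) :
    ∑ t : CfU P, wtU s P t * (if t k = none then 0 else 1) ≤ 12 / (k : ℝ) * Pi12 s P := by
  have h := xWt_sum (P := P) fun l o =>
    (if o = none then 1 else xx s l) * if l = k then (if o = none then 0 else 1) else 1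
  have h0 := MP_e23604_nt.P.xBCfg_xx s
  refine le_trans (le_of_eq (sum_congr rfl fun t _ => ?_)) (h.trans_le ?_)
  · simp only [prod_mul_distrib, Subtype.coe_inj, prod_ite_eq', mem_univ, if_true]
    rfl
  · have e : 12 / (k : ℝ) = ∏ l ∈ P, if l = k then 12 / (k : ℝ) else 1 := by
      rw [prod_ite_eq', if_pos k.2]
    rw [e, Pi12, ← prod_mul_distrib]
    refine prod_le_prod (fun l _ => sum_nonneg fun o _ => mul_nonneg ?_ ?_) fun l _ => ?_
    · split_ifs
      exacts [zero_le_one, h0 l]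
    · split_ifs <;> norm_num
    · by_cases hl : l = k
      · have h1 := MP_e23604_nt.P.xx_le hs hk
        have h2 : (0 : ℝ) ≤ 12 / (k : ℝ) * (12 * xx s k) := mul_nonneg (by positivity)
          (mul_nonneg (by norm_num) (h0 k))
        simp only [Fintype.sum_option, hl, if_true, mul_zero, zero_add, reduceCtorEq, if_false,
          mul_one, sum_const, card_univ, Fintype.card_fin, nsmul_eq_mul, mul_add]
        rw [div_eq_mul_one_div] at h2 ⊢
        push_cast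
        linarith
      · simp [Fintype.sum_option, hl]

theorem xWt_sq {P : Finset ℕ} (hP : HP P) : ∑ l ∈ P, ((l : ℝ) ^ 2)⁻¹ ≤ 1 / 10000 := by
  have h := sum_Ioc_inv_sq_le_sub (α := ℝ) (k := 10000) (n := max 10000 (P.sup id))
    (by norm_num) (le_max_left _ _)
  refine (sum_le_sum_of_subset_of_nonneg (fun l hl => mem_Ioc.2 ⟨(hP l hl).2,
    (le_sup (f := id) hl).trans (le_max_right _ _)⟩) fun _ _ _ => by positivity).trans
    (h.trans ?_)
  have : (0 : ℝ) ≤ ((max 10000 (P.sup id) : ℕ) : ℝ)⁻¹ := by positivity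
  rw [one_div]
  push_cast at this ⊢
  linarith

theorem SWt_pf (hCfg : SCfg) : SWt := by
  intro P s hP hs
  have hC := (hCfg P hP).2
  refine ⟨?_, fun R hR => ?_, ?_⟩
  · refine (xWt_sum (P := P) fun l o => if o = none then 1 else xx s l).trans
      (prod_congr rfl fun l _ => ?_)
    simp [Fintype.sum_option]
  · have h := xWt_fib (P := P) (fun l o => if o = none then 1 else xx s l) (fun o => o ≠ none)
      fun n => R < (n : ℝ)
    refine le_trans (le_of_eq ?_) (MP_e23604_nt.P.rankin (fun l hl => (hP l hl).1) hs 12 hR)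
    refine Eq.trans (sum_congr (filter_congr fun t _ => ?_) fun _ _ => rfl)
      (Eq.trans h (sum_congr rfl fun x hx => ?_))
    · rw [(hC t).2.1, Nat.cast_mul, Nat.cast_ofNat, mul_lt_mul_iff_right₀ (by norm_num)]
      simp only [ne_eq, ite_not]
    · have hx' := mem_powerset.1 (mem_filter.1 hx).1
      rw [← inter_eq_right.2 hx', ← prod_ite_mem, inter_eq_right.2 hx']
      refine prod_congr rfl fun l _ => ?_
      by_cases hl : l ∈ x <;> simp [Fintype.sum_option, hl]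
  · have e : ∀ t : CfU P, ∑ l ∈ (PS (sOf P t)).erase 3, 100 / (l : ℝ)
        = ∑ k : ↥P, 100 / (k : ℝ) * if t k = none then 0 else 1 := fun t => by
      have e1 : (PS (sOf P t)).erase 3
          = (univ.filter fun l : ↥P => ¬ t l = none).map (Function.Embedding.subtype _) := by
        ext l
        rw [(hC t).2.2.1]
        simp
      rw [e1, sum_map, sum_filter]
      refine sum_congr rfl fun k _ => ?_
      by_cases h : t k = none <;> simp [h]
    have hp : 0 ≤ Pi12 s P :=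
      prod_nonneg fun l _ => add_nonneg zero_le_one
        (mul_nonneg (by norm_num) (MP_e23604_nt.P.xBCfg_xx s l))
    simp only [e, mul_sum]
    rw [sum_comm]
    calc _ ≤ ∑ k : ↥P, 1200 * Pi12 s P * (((k : ℕ) : ℝ) ^ 2)⁻¹ := by
          refine sum_le_sum fun k _ => ?_
          simp only [mul_left_comm (wtU s P _)]
          rw [← mul_sum]
          refine (mul_le_mul_of_nonneg_left (xWt_one hs k (hP k k.2).1.pos)
            (by positivity)).trans_eq ?_
          ring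
      _ = 1200 * Pi12 s P * ∑ l ∈ P, ((l : ℝ) ^ 2)⁻¹ := by
          rw [← mul_sum, sum_coe_sort P fun l => ((l : ℝ) ^ 2)⁻¹]
      _ ≤ 1200 * Pi12 s P * (1 / 10000) := mul_le_mul_of_nonneg_left (xWt_sq hP) (by positivity)
      _ = _ := by ring

end Pool.Agent.MP_e23604_nt.U.Bm

end
end

section

open Finset
open scoped Classical

noncomputable section

namespace Pool.Agent.MP_e23604_nt.U.Bm

open P (sy ep xx chi EP PP Mod FFp NS star)

theorem xTot_one {s : ℝ} (hs : 0 < s) {l : ℕ} (hl : 0 < l) :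
    (1 + 4 * xx s l) ^ 3 ≤ (1 + 12 * xx s l) * (1 + (48 : ℕ) * xx 1 l) := by
  have h0 := P.xBZeta_nn s l
  have h1 : xx s l ^ 2 ≤ xx 1 l := by
    refine (pow_le_pow_left₀ h0 (P.xx_le hs hl) 2).trans (le_of_eq ?_)
    rw [xx, show -(1 + 1 / (1 : ℝ)) = -((2 : ℕ) : ℝ) by norm_num,
      Real.rpow_neg (Nat.cast_nonneg l), Real.rpow_natCast, one_div, inv_pow]
  have h2 : (1 + 12 * xx s l) * (1 + 48 * xx s l ^ 2) ≤ (1 + 12 * xx s l) * (1 + 48 * xx 1 l) :=
    mul_le_mul_of_nonneg_left (by linarith) (by positivity)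
  have h3 : 0 ≤ xx s l ^ 3 := by positivity
  push_cast
  nlinarith

theorem STot_pf : STot := by
  intro C0
  obtain ⟨c, hc, h⟩ := P.tot_low C0
  refine ⟨c ^ 3 / 2 ^ 48, by positivity, fun s hs n Q hM => ?_⟩
  have hs0 : 0 < s := by linarith
  have hp : ∀ l ∈ PP n Q, l.Prime := fun l hl => (P.mem_PP hM hl).1
  have h1 := pow_le_pow_left₀ (by positivity) (h s hs n Q hM) 3
  have h2 := P.prod_one_add_le hp one_pos 48
  have h3 : ∏ l ∈ PP n Q, (1 + 4 * xx s l) ^ 3 ≤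
      ∏ l ∈ PP n Q, (1 + 12 * xx s l) * (1 + (48 : ℕ) * xx 1 l) :=
    prod_le_prod (fun l _ => by have := P.xBZeta_nn s l; positivity)
      fun l hl => xTot_one hs0 (hp l hl).pos
  rw [prod_pow, prod_mul_distrib] at h3
  have h4 : 0 ≤ ∏ l ∈ PP n Q, (1 + 12 * xx s l) :=
    prod_nonneg fun l _ => by have := P.xBZeta_nn s l; positivity
  have h5 := (h1.trans h3).trans (mul_le_mul_of_nonneg_left h2 h4)
  rw [div_mul_eq_mul_div, div_le_iff₀ (by positivity)]
  calc c ^ 3 * s ^ 12 = (c * s ^ 4) ^ 3 := by ring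
    _ ≤ _ := h5
    _ = _ := by rw [Pi12, one_add_one_eq_two]

end Pool.Agent.MP_e23604_nt.U.Bm

end
end

section

/-!
The bilinear sum when both variables are large, with a power saving.
-/

open Finset
open scoped Classical

noncomputable section

namespace Pool.Agent.MP_e23604_nt.U.Bm

open P (sy ep xx chi EP PP Mod FFp NS star)

theorem SFF_pf : SFF := by
  intro B
  obtain ⟨C, hC⟩ := P.xBBig_main
  refine ⟨8 * (3 * C + 5 + B), max (10 ^ 6) (144 * (2 ^ (B + 5) * (Nat.factorial (B + 5) : ℕ))),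
    fun s hs' Q T hP hT α β hα hβ => ?_⟩
  have hs : (10 : ℝ) ^ 6 ≤ s := (le_max_left _ _).trans hs'
  have hsB : (144 : ℝ) * (2 ^ (B + 5) * (Nat.factorial (B + 5) : ℕ)) ≤ s :=
    (le_max_right _ _).trans hs'
  have hs1 : (1 : ℝ) ≤ s := le_trans (by norm_num) hs
  have hs0 : 0 < s := by linarith
  have hT1 : (1 : ℝ) ≤ T := (one_le_pow₀ hs1).trans hT
  have hT1' : 1 ≤ T := by exact_mod_cast hT1
  have hs2 : 1 ≤ s ^ 2 := one_le_pow₀ hs1
  obtain ⟨I, hI1, hI2, hI3⟩ : ∃ I : ℕ, (I : ℝ) ≤ 3 * s ^ 2 ∧ Real.exp (s ^ 2) ≤ (T * 2 ^ I : ℕ) ∧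
      ∀ i < I, 1 + Real.log (T * 2 ^ i : ℕ) ≤ 5 * s ^ 2 := by
    by_cases h : Real.exp (s ^ 2) ≤ T
    · exact ⟨0, by simp only [Nat.cast_zero]; positivity, by simpa using h, fun i hi => by omega⟩
    have h1 : (⌈2 * s ^ 2⌉₊ : ℝ) ≤ 3 * s ^ 2 := by
      have := Nat.ceil_lt_add_one (show 0 ≤ 2 * s ^ 2 by positivity)
      linarith
    have h2 := Real.log_two_gt_d9
    have h3 := Real.log_two_lt_d9
    refine ⟨⌈2 * s ^ 2⌉₊, h1, ?_, fun i hi => ?_⟩
    · have h4 := Nat.le_ceil (2 * s ^ 2)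
      calc Real.exp (s ^ 2) ≤ Real.exp (⌈2 * s ^ 2⌉₊ * Real.log 2) :=
            Real.exp_le_exp.2 (by nlinarith)
        _ = 1 * 2 ^ ⌈2 * s ^ 2⌉₊ := by rw [Real.exp_nat_mul, Real.exp_log two_pos, one_mul]
        _ ≤ (T * 2 ^ ⌈2 * s ^ 2⌉₊ : ℕ) := by
            push_cast
            gcongr
    · have h4 : (i : ℝ) ≤ ⌈2 * s ^ 2⌉₊ := by exact_mod_cast hi.le
      have h5 : Real.log T ≤ s ^ 2 := (Real.log_le_iff_le_exp (by linarith)).2 (not_le.1 h).le
      have h6 : (0 : ℝ) ≤ i := Nat.cast_nonneg _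
      push_cast
      rw [Real.log_mul (by positivity) (by positivity), Real.log_pow]
      nlinarith
  have hR : (0 : ℝ) < (T * 2 ^ I : ℕ) := (Real.exp_pos _).trans_le hI2
  have h1 := hC s Q α β T I _ hs0 hP hα hβ hT1' hI3
  have h2 := P.xBBig_tail (fun l hl => (hP l hl).1) hs0 hα hβ hR
    (fun d e => (T < d ∧ T < e) ∧ ¬ (d ∈ Ioc T (T * 2 ^ I) ∧ e ∈ Ioc T (T * 2 ^ I)))
    fun d e h => by
      simp only [mem_Ioc] at h
      have h3 : T * 2 ^ I < d ∨ T * 2 ^ I < e := by omega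
      exact_mod_cast h3
  rw [P.xBBig_split _ (fun d e => d ∈ Ioc T (T * 2 ^ I) ∧ e ∈ Ioc T (T * 2 ^ I))
    fun d e h => ⟨(mem_Ioc.1 h.1).1, (mem_Ioc.1 h.2).1⟩]
  have h3 : (I : ℝ) ^ 2 * ((2 * (5 * s ^ 2)) ^ C / (T : ℝ) ^ (1 / 8 : ℝ)) ≤
      1 / 2 * (1 / s ^ B) := by
    have h4 : s ^ (3 * C + 5 + B) ≤ (T : ℝ) ^ (1 / 8 : ℝ) := by
      have h5 := Real.rpow_le_rpow (by positivity) hT
        (show (0 : ℝ) ≤ ((8 : ℕ) : ℝ)⁻¹ by norm_num)
      rwa [mul_comm, pow_mul, Real.pow_rpow_inv_natCast (by positivity) (by norm_num),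
        Nat.cast_ofNat, ← one_div] at h5
    have h5 : (2 * (5 * s ^ 2)) ^ C ≤ (s ^ 3) ^ C :=
      pow_le_pow_left₀ (by positivity) (by nlinarith) _
    have h6 : (I : ℝ) ^ 2 ≤ (3 * s ^ 2) ^ 2 := pow_le_pow_left₀ (by positivity) hI1 _
    calc (I : ℝ) ^ 2 * ((2 * (5 * s ^ 2)) ^ C / (T : ℝ) ^ (1 / 8 : ℝ))
        ≤ (3 * s ^ 2) ^ 2 * ((s ^ 3) ^ C / s ^ (3 * C + 5 + B)) := by gcongr
      _ = 9 / s * (1 / s ^ B) := by
          rw [← pow_mul, pow_add, pow_add]
          field_simp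
          norm_num
      _ ≤ 1 / 2 * (1 / s ^ B) := by
          refine mul_le_mul_of_nonneg_right ?_ (by positivity)
          rw [div_le_div_iff₀ hs0 two_pos]
          linarith
  have h4 : 2 * (((T * 2 ^ I : ℕ) : ℝ) ^ (-(1 / (2 * s))) * (1 + 2 * s) ^ 2 * (1 + s) ^ 2) ≤
      1 / 2 * (1 / s ^ B) := by
    have h5 : ((T * 2 ^ I : ℕ) : ℝ) ^ (-(1 / (2 * s))) ≤ (Real.exp (s / 2))⁻¹ := by
      refine (Real.rpow_le_rpow_of_nonpos (Real.exp_pos _) hI2
        (neg_nonpos.2 (by positivity))).trans (le_of_eq ?_)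
      rw [← Real.exp_mul, ← Real.exp_neg]
      congr 1
      field_simp
    have h6 := Real.pow_div_factorial_le_exp (s / 2) (by positivity) (B + 5)
    have h7 : (Real.exp (s / 2))⁻¹ ≤ ((s / 2) ^ (B + 5) / (Nat.factorial (B + 5) : ℕ))⁻¹ :=
      inv_anti₀ (by positivity) h6
    calc 2 * (((T * 2 ^ I : ℕ) : ℝ) ^ (-(1 / (2 * s))) * (1 + 2 * s) ^ 2 * (1 + s) ^ 2)
        ≤ 2 * (((s / 2) ^ (B + 5) / (Nat.factorial (B + 5) : ℕ))⁻¹ * (3 * s) ^ 2 *
          (2 * s) ^ 2) := by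
          gcongr
          · exact h5.trans h7
          · linarith
          · linarith
      _ = 72 * (2 ^ (B + 5) * (Nat.factorial (B + 5) : ℕ)) / s * (1 / s ^ B) := by
          rw [div_pow, pow_add s]
          field_simp
          norm_num
      _ ≤ 1 / 2 * (1 / s ^ B) := by
          refine mul_le_mul_of_nonneg_right ?_ (by positivity)
          rw [div_le_div_iff₀ hs0 two_pos]
          linarith
  exact (abs_add_le _ _).trans (by linarith)

end Pool.Agent.MP_e23604_nt.U.Bm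

end
end

section

/-!
The phase of a configuration.
-/

open Finset
open scoped Classical

noncomputable section

namespace Pool.Agent.MP_e23604_nt.U.Bm

open P (sy ep xx chi EP PP Mod FFp NS star)

/-- One term of the phase. -/
def xPhi_G {P : Finset ℕ} (u : CfI P) (l l' : ↥P) : ZMod 2 :=
  eo (u l) * xo (u l') * mm (so (u l)) (so (u l')) l l'

theorem xPhi_eq (P : Finset ℕ) (u : CfI P) :
    Phi P u = ∑ l, ∑ l', if l' = l then 0 else xPhi_G u l l' := by
  refine sum_congr rfl fun l _ => ?_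
  rw [← filter_ne' univ l, sum_filter]
  exact sum_congr rfl fun l' _ => by by_cases h : l' = l <;> simp [h, xPhi_G]

theorem xPhi_res {P : Finset ℕ} (u : CfI P) (p : ↥P → Prop) (l l' : ↥P) :
    xPhi_G (res u p) l l' = if p l ∧ p l' then xPhi_G u l l' else 0 := by
  by_cases h : p l <;> by_cases h' : p l' <;> simp [xPhi_G, res, h, h', eo, xo]

theorem xPhi_bit : ∀ τ a b : Fin 4, (a = 0 ∨ a = τ) → (b = 0 ∨ b = τ) →
    eb a * xb b = eb b * xb a := by decide

theorem SPhi_pf : SPhi := by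
  intro P u
  refine ⟨fun p => ?_, fun τ h => ?_⟩
  · have e : ∑ l ∈ univ.filter p, ∑ l' ∈ univ.filter fun l => ¬ p l,
        (eo (u l) * xo (u l') + eo (u l') * xo (u l)) * mm (so (u l)) (so (u l')) l l' =
        (∑ l, ∑ l', if p l ∧ ¬ p l' then xPhi_G u l l' else 0) +
          ∑ l, ∑ l', if ¬ p l ∧ p l' then xPhi_G u l l' else 0 := by
      rw [sum_comm (f := fun l l' => if ¬ p l ∧ p l' then xPhi_G u l l' else 0),
        ← sum_add_distrib, sum_filter]
      refine sum_congr rfl fun l _ => ?_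
      rw [← sum_add_distrib, sum_filter]
      by_cases h : p l
      · rw [if_pos h]
        refine sum_congr rfl fun l' _ => ?_
        by_cases h' : p l'
        · simp [h']
        · simp only [h, h', not_false_eq_true, and_self, if_true, xPhi_G]
          rw [mm_symm (so (u l')), add_mul]
      · simp [h]
    rw [e, xPhi_eq, xPhi_eq, xPhi_eq]
    simp only [← sum_add_distrib, xPhi_res]
    refine sum_congr rfl fun l _ => sum_congr rfl fun l' _ => ?_
    by_cases h0 : l' = l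
    · simp [h0]
    · by_cases h : p l <;> by_cases h' : p l' <;> simp [h0, h, h']
  · have hs : ∀ l l', xPhi_G u l l' = xPhi_G u l' l := fun l l' => by
      rw [xPhi_G, xPhi_G, mm_symm]
      congr 1
      rcases e : u l with _ | i
      · simp [eo, xo]
      rcases e' : u l' with _ | j
      · simp [eo, xo]
      exact xPhi_bit τ _ _ (h l i e) (h l' j e')
    rw [xPhi_eq, ← sum_product']
    refine sum_involution (fun z _ => z.swap) (fun z _ => ?_) (fun z _ h1 h2 => h1 ?_)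
      (fun _ _ => by simp) fun _ _ => rfl
    · simp only [Prod.fst_swap, Prod.snd_swap, hs z.2 z.1, eq_comm (a := z.1)]
      exact CharTwo.add_self_eq_zero _
    · exact if_pos (congrArg Prod.fst h2)

end Pool.Agent.MP_e23604_nt.U.Bm

end
end

section

/-!
The trivial bound for the absolute sum over a region.
-/

open Finset
open scoped Classical

noncomputable section

namespace Pool.Agent.MP_e23604_nt.U.Bm

open P (sy ep xx chi EP PP Mod FFp NS star)

/-- The primes with a given type and site. -/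
def xTriv_X (P : Finset ℕ) (u : CfI P) (i : Ix) : Finset ℕ :=
  (univ.filter fun l : ↥P => u l = some i).map (Function.Embedding.subtype _)

theorem xTriv_prod {M : Type} [CommMonoid M] (P : Finset ℕ) (u : CfI P) (i : Ix) (f : ℕ → M) :
    ∏ l ∈ xTriv_X P u i, f l = ∏ l : ↥P, if u l = some i then f l else 1 := by
  unfold xTriv_X
  rw [prod_map, prod_filter]
  rfl

theorem xTriv_sub (P : Finset ℕ) (u : CfI P) (i : Ix) : xTriv_X P u i ⊆ P := by
  intro l hl
  obtain ⟨a, _, rfl⟩ := mem_map.1 hl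
  exact a.2

theorem xTriv_mem (P : Finset ℕ) (u : CfI P) (i : Ix) (l : ↥P) :
    (l : ℕ) ∈ xTriv_X P u i ↔ u l = some i := by
  unfold xTriv_X
  constructor
  · intro h
    obtain ⟨a, ha, h⟩ := mem_map.1 h
    have : a = l := Subtype.ext h
    exact this ▸ (mem_filter.1 ha).2
  · intro h
    exact mem_map.2 ⟨l, mem_filter.2 ⟨mem_univ _, h⟩, rfl⟩

theorem xTriv_inj (P : Finset ℕ) : Function.Injective (xTriv_X P) := by
  intro u v h
  funext l
  refine Option.ext fun i => ?_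
  rw [← xTriv_mem, ← xTriv_mem, h]

theorem xTriv_WI (P : Finset ℕ) (β : Ix → ℕ → ℝ) (u : CfI P) :
    |WI P β u| = ∏ i, ∏ l ∈ xTriv_X P u i, |β i l| := by
  simp only [xTriv_prod]
  rw [WI, abs_prod, prod_comm]
  refine prod_congr rfl fun l _ => ?_
  rcases u l with _ | j
  · simp
  · simp only [Option.elim, Option.some.injEq]
    rw [prod_ite_eq]
    simp

theorem xTriv_sq {x : ℝ} (h0 : 0 ≤ x) (h1 : x ≤ 1 / 2) : (1 + x / 2) ^ 2 ≤ (1 - x)⁻¹ := by
  rw [← one_div, le_div_iff₀ (by linarith)]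
  nlinarith [mul_nonneg h0 h0, mul_nonneg h0 (mul_nonneg h0 h0)]

theorem xTriv_big {Q : Finset ℕ} {s : ℝ} (hP : ∀ l ∈ Q, l.Prime) (hs : 0 < s) (b : ℕ → ℝ)
    (hb : ∀ l ∈ Q, |b l| ≤ xx s l / 2) : ∑ x ∈ Q.powerset, ∏ l ∈ x, |b l| ≤ √(1 + s) := by
  rw [← prod_one_add]
  refine Real.le_sqrt_of_sq_le ?_
  rw [← prod_pow]
  refine le_trans (prod_le_prod (fun _ _ => sq_nonneg _) fun l hl => ?_) (P.prod_inv_le hP hs)
  refine le_trans ?_ (xTriv_sq (P.xBZeta_nn s l) (P.xBZeta_half hs (hP l hl)))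
  have := hb l hl
  gcongr

theorem STriv_pf : STriv := by
  intro Q s β A L T p hP hs hb hA hp
  have hQ : ∀ l ∈ Q, l.Prime := fun l hl => (hP l hl).1
  have hT : 1 ≤ 1 + Real.log T := le_add_of_nonneg_right (Real.log_natCast_nonneg T)
  set S : Ix → Finset (Finset ℕ) := fun i =>
    if i ∈ L then Q.powerset else Q.powerset.filter fun x => ∏ l ∈ x, l ≤ T with hS
  have h1 : AR Q β p ≤ ∏ i, ∑ x ∈ S i, ∏ l ∈ x, |β i l| := by
    rw [prod_univ_sum, AR, ← sum_filter]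
    simp only [xTriv_WI]
    rw [← sum_image (s := univ.filter fun u : CfI Q => p (DI Q u)) (g := xTriv_X Q)
      (f := fun X => ∏ i, ∏ l ∈ X i, |β i l|) fun u _ v _ h => xTriv_inj Q h]
    refine sum_le_sum_of_subset_of_nonneg ?_ fun _ _ _ =>
      prod_nonneg fun _ _ => prod_nonneg fun _ _ => abs_nonneg _
    intro X hX
    obtain ⟨u, hu, rfl⟩ := mem_image.1 hX
    refine Fintype.mem_piFinset.2 fun i => ?_
    have hsub := mem_powerset.2 (xTriv_sub Q u i)
    simp only [hS]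
    split_ifs with hi
    · exact hsub
    · refine mem_filter.2 ⟨hsub, ?_⟩
      rw [xTriv_prod Q u i fun l => l]
      exact hp _ (mem_filter.1 hu).2 i hi
  have h2 : ∀ i, ∑ x ∈ S i, ∏ l ∈ x, |β i l| ≤
      (1 + Real.log T) * if i ∈ A ∩ L then √(1 + s) else 1 := by
    intro i
    simp only [hS]
    by_cases hL : i ∈ L
    · rw [if_pos hL]
      by_cases hi : i ∈ A
      · rw [if_pos (mem_inter.2 ⟨hi, hL⟩)]
        exact (xTriv_big hQ hs _ (hb i)).trans (le_mul_of_one_le_left (Real.sqrt_nonneg _) hT)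
      · rw [if_neg fun h => hi (mem_inter.1 h).1, mul_one, ← prod_one_add,
          prod_eq_one fun l hl => by rw [hA i hi l hl, abs_zero, add_zero]]
        exact hT
    · rw [if_neg hL, if_neg fun h => hL (mem_inter.1 h).2, mul_one]
      refine le_trans (sum_le_sum fun x hx => prod_le_prod (fun _ _ => abs_nonneg _)
        fun l hl => ?_) (P.small_one hQ hs T)
      have h3 := hb i l (mem_powerset.1 (mem_filter.1 hx).1 hl)
      have h4 := P.xBZeta_nn s l
      linarith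
  refine h1.trans ((prod_le_prod (fun i _ => sum_nonneg fun _ _ =>
    prod_nonneg fun _ _ => abs_nonneg _) fun i _ => h2 i).trans (le_of_eq ?_))
  rw [prod_mul_distrib, prod_const, prod_ite_mem, univ_inter, prod_const, card_univ]
  simp

end Pool.Agent.MP_e23604_nt.U.Bm

end
end

section

/-!
The bilinear bound for a region with two large linked variables.
-/

open Finset
open scoped Classical

noncomputable section

namespace Pool.Agent.MP_e23604_nt.U.Bm

open P (sy ep xx chi EP PP Mod FFp NS star xBTr_jac prod_one_add_le xBZeta_nn)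

variable {P : Finset ℕ}

theorem xBil_tr (f : Finset ℕ → ℝ) (h0 : f ∅ = 0) :
    ∑ x ∈ P.powerset.erase ∅, f x = ∑ x : Finset ↥P, f (x.map (Function.Embedding.subtype _)) := by
  rw [sum_erase _ h0]
  refine (sum_bij (fun (x : Finset ↥P) _ => x.map (Function.Embedding.subtype _)) ?_ ?_ ?_
    fun _ _ => rfl).symm
  · intro x _
    refine mem_powerset.2 fun l hl => ?_
    obtain ⟨k, -, rfl⟩ := mem_map.1 hl
    exact k.2
  · intro x _ y _ h
    exact map_injective _ h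
  · intro y hy
    exact ⟨y.subtype _, mem_univ _, subtype_map_of_mem fun l hl => mem_powerset.1 hy hl⟩

theorem xBil_ff (hP : HP P) (α α' : ℕ → ℝ) {T : ℕ} (hT : 1 ≤ T) :
    (FFp P α α' fun d e => T < d ∧ T < e) = ∑ z : Finset ↥P × Finset ↥P,
      if T < ∏ l ∈ z.1, (l : ℕ) ∧ T < ∏ l ∈ z.2, (l : ℕ) then
        (∏ l ∈ z.1, α l) * (∏ l ∈ z.2, α' l) *
          ∏ l' ∈ z.2, ∏ l ∈ z.1, (jacobiSym (l : ℕ) (l' : ℕ) : ℝ) else 0 := by
  rw [FFp, Fintype.sum_prod_type, xBil_tr _ (sum_eq_zero fun e _ => if_neg fun h => by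
    have := h.1
    rw [prod_empty] at this
    omega)]
  refine sum_congr rfl fun x _ => ?_
  rw [xBil_tr _ (if_neg fun h => by
    have := h.2
    rw [prod_empty] at this
    omega)]
  refine sum_congr rfl fun e _ => ?_
  simp only [prod_map, Function.Embedding.coe_subtype]
  rw [xBTr_jac (fun l : ↥P => (l : ℕ)) fun l => (hP _ l.2).1.ne_zero]

theorem xBil_abs {s : ℝ} {β : Ix → ℕ → ℝ} (hP : HP P) (hs : 0 < s) (hβ : Bd s P β) :
    ∑ u : CfI P, |WI P β u| ≤ (1 + s) ^ 24 := by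
  have h1 := prod_one_add_le (fun l hl => (hP l hl).1) hs 24
  refine le_trans ?_ h1
  simp only [WI, abs_prod]
  rw [← Fintype.piFinset_univ, ← prod_univ_sum (fun _ : ↥P => (univ : Finset (Option Ix)))
    (fun l o => |o.elim 1 fun i => β i l|), ← prod_coe_sort P]
  refine prod_le_prod (fun l _ => sum_nonneg fun _ _ => abs_nonneg _) fun l _ => ?_
  rw [Fintype.sum_option]
  simp only [Option.elim, abs_one]
  have h2 := sum_le_card_nsmul univ (fun i : Ix => |β i l|) _ fun i _ => hβ i l l.2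
  rw [card_univ, Fintype.card_prod, Fintype.card_fin, Fintype.card_fin, nsmul_eq_mul] at h2
  push_cast at h2 ⊢
  linarith

/-- The twist of a prime of index `k` by the primes of `v`. -/
def xBil_a (v : CfI P) (k : Ix) (l : ℕ) : ZMod 2 :=
  ∑ l', (eb k.1 * xo (v l') + eo (v l') * xb k.1) * mm k.2 (so (v l')) l l'

theorem xBil_phi (hPhi : SPhi) {i j : Ix} (hi : i.1 ≠ 0) (hj : j.1 ≠ 0) (hij : i.1 ≠ j.1)
    (hc : cls i.2 < cls j.2) (u v : CfI P)
    (h : ∀ l, (if u l = some i ∨ u l = some j then none else u l) = v l) :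
    Phi P u = Phi P v + (∑ l ∈ univ.filter fun l => u l = some i, xBil_a v i l +
      ∑ l ∈ univ.filter fun l => u l = some j, xBil_a v j l) +
      ∑ l' ∈ univ.filter fun l => u l = some j, ∑ l ∈ univ.filter fun l => u l = some i,
        sy (l : ℕ) l' := by
  have hne : i ≠ j := fun e => hij (e ▸ rfl)
  have e1 : res u (fun l => ¬ (u l = some i ∨ u l = some j)) = v := funext fun l => by
    rw [← h l, res]
    split_ifs <;> rfl
  have e2 : Phi P (res u fun l => u l = some i ∨ u l = some j) =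
      ∑ l' ∈ univ.filter fun l => u l = some j, ∑ l ∈ univ.filter fun l => u l = some i,
        sy (l : ℕ) l' := by
    obtain ⟨w, hw⟩ : ∃ w, w = res u fun l => u l = some i ∨ u l = some j := ⟨_, rfl⟩
    have w1 : ∀ l, u l = some i → w l = some i := fun l hl => by simp [hw, res, hl]
    have w2 : ∀ l, u l = some j → w l = some j := fun l hl => by simp [hw, res, hl]
    have w3 : ∀ l, u l ≠ some i → u l ≠ some j → w l = none := fun l h1 h2 => by
      simp [hw, res, h1, h2]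
    rw [← hw, (hPhi P w).1 fun l => u l = some i, (hPhi P _).2 i.1, (hPhi P _).2 j.1, zero_add,
      zero_add, sum_comm (s := univ.filter fun l => u l = some j)]
    · refine sum_congr (by congr) fun l hl => ?_
      rw [sum_filter, sum_filter]
      refine sum_congr rfl fun l' _ => ?_
      rw [w1 l (mem_filter.1 hl).2]
      by_cases h1 : u l' = some j
      · rw [if_pos h1, if_pos (by rw [h1]; simpa using hne.symm), w2 l' h1]
        have := lnk_ne i.1 j.1
        rw [if_neg (by tauto), lnk] at this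
        simp only [eo, xo, so, Option.elim]
        rw [this, one_mul, mm, if_pos hc]
      · rw [if_neg h1]
        split_ifs with h2
        · rfl
        · rw [w3 l' h2 h1]
          simp [eo, xo]
    · intro l k hk
      unfold res at hk
      split_ifs at hk with h1
      by_cases h2 : u l = some j
      · rw [w2 l h2] at hk
        exact Or.inr (by cases hk; rfl)
      · rw [w3 l h1 h2] at hk
        cases hk
    · intro l k hk
      unfold res at hk
      split_ifs at hk with h1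
      rw [w1 l h1] at hk
      exact Or.inr (by cases hk; rfl)
  have e3 : ∀ k, ∀ l : ↥P, u l = some k →
      ∑ l' ∈ univ.filter fun l => ¬ (u l = some i ∨ u l = some j),
        (eo (u l) * xo (u l') + eo (u l') * xo (u l)) * mm (so (u l)) (so (u l')) l l' =
      xBil_a v k l := fun k l hl => by
    rw [sum_filter, xBil_a, hl]
    refine sum_congr rfl fun l' _ => ?_
    rw [← h l']
    split_ifs
    · simp [eo, xo]
    · rfl
  have e4 : ∑ l ∈ univ.filter fun l => u l = some i ∨ u l = some j,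
      ∑ l' ∈ univ.filter fun l => ¬ (u l = some i ∨ u l = some j),
        (eo (u l) * xo (u l') + eo (u l') * xo (u l)) * mm (so (u l)) (so (u l')) l l' =
      ∑ l ∈ univ.filter fun l => u l = some i, xBil_a v i l +
        ∑ l ∈ univ.filter fun l => u l = some j, xBil_a v j l := by
    rw [filter_or,
      sum_union (disjoint_filter.2 fun l _ h1 h2 => hne (Option.some.inj (h1.symm.trans h2))),
      sum_congr rfl fun l hl => e3 i l (mem_filter.1 hl).2,
      sum_congr rfl fun l hl => e3 j l (mem_filter.1 hl).2]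
  rw [(hPhi P u).1 fun l => u l = some i ∨ u l = some j, e1, e2, ← e4, add_comm _ (Phi P v),
    add_right_comm]
  congr
  funext l
  congr

theorem xBil_fib (hPhi : SPhi) {s : ℝ} {β : Ix → ℕ → ℝ} {T : ℕ} {L : Finset Ix} {i j : Ix}
    {F0 : ℝ} (hP : HP P) (hβ : Bd s P β) (hT : 1 ≤ T) (hi : i.1 ≠ 0) (hj : j.1 ≠ 0)
    (hij : i.1 ≠ j.1) (hc : cls i.2 < cls j.2) (hiL : i ∈ L) (hjL : j ∈ L) (hF : HF s P T F0)
    (v : CfI P) :
    |∑ u ∈ Fintype.piFinset fun l => univ.filter fun o : Option Ix =>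
        (if o = some i ∨ o = some j then none else o) = v l,
      if Pt T L (DI P u) then WI P β u * sgb (Phi P u) else 0| ≤ |WI P β v| * F0 := by
  have hne : i ≠ j := fun e => hij (e ▸ rfl)
  obtain ⟨α, hα⟩ : ∃ α : Ix → ℕ → ℝ, ∀ k l, α k l =
    if ∃ h : l ∈ P, v ⟨l, h⟩ = none then β k l * sgb (xBil_a v k l) else 0 := ⟨_, fun _ _ => rfl⟩
  have hα1 : ∀ k, ∀ l ∈ P, |α k l| ≤ 2 * xx s l := fun k l hl => by
    have h1 := hβ k l hl
    have h2 := xBZeta_nn s l
    rw [hα]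
    split_ifs
    · rw [abs_mul, abs_sgb]
      linarith
    · rw [abs_zero]
      linarith
  have hF1 := hF _ _ (hα1 i) (hα1 j)
  have hF0 : 0 ≤ |WI P β v| * F0 := mul_nonneg (abs_nonneg _) ((abs_nonneg _).trans hF1)
  by_cases hv : ∃ l, v l = some i ∨ v l = some j
  · obtain ⟨l, hl⟩ := hv
    rw [sum_eq_zero, abs_zero]
    · exact hF0
    · intro u hu
      have h1 := (mem_filter.1 (Fintype.mem_piFinset.1 hu l)).2
      split_ifs at h1 with h2
      · rcases hl with hl | hl <;> rw [hl] at h1 <;> cases h1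
      · exact absurd (h1 ▸ hl) h2
  obtain ⟨c, hc0, hc1⟩ : ∃ c : ℝ, |c| ≤ |WI P β v| ∧ c = if ∀ k : Ix, k.1 ≠ 0 → k ≠ i → k ≠ j →
      (T < DI P v k ↔ k ∈ L) then WI P β v * sgb (Phi P v) else 0 := by
    refine ⟨_, ?_, rfl⟩
    split_ifs
    · rw [abs_mul, abs_sgb, mul_one]
    · simp
  refine le_trans (le_of_eq ?_) ((abs_mul c _).trans_le
    (mul_le_mul hc0 hF1 (abs_nonneg _) (abs_nonneg _)))
  rw [xBil_ff hP _ _ hT, mul_sum]
  congr 1
  refine sum_of_injOn (fun u : CfI P => (univ.filter fun l => u l = some i,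
    univ.filter fun l => u l = some j)) ?_ (fun _ _ => mem_coe.2 (mem_univ _)) ?_ ?_
  · intro u hu u' hu' e
    funext l
    have h1 := (mem_filter.1 (Fintype.mem_piFinset.1 (mem_coe.1 hu) l)).2
    have h2 := (mem_filter.1 (Fintype.mem_piFinset.1 (mem_coe.1 hu') l)).2
    have h3 : u l = some i ↔ u' l = some i := by
      simpa using Finset.ext_iff.1 (Prod.ext_iff.1 e).1 l
    have h4 : u l = some j ↔ u' l = some j := by
      simpa using Finset.ext_iff.1 (Prod.ext_iff.1 e).2 l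
    by_cases h5 : u l = some i ∨ u l = some j
    · rcases h5 with h5 | h5
      · rw [h5, h3.1 h5]
      · rw [h5, h4.1 h5]
    · rw [if_neg h5] at h1
      rw [if_neg (by rwa [← h3, ← h4])] at h2
      rw [h1, h2]
  · rintro ⟨x, e⟩ - hz
    by_contra h0
    have h1 := right_ne_zero_of_mul h0
    dsimp only at h1
    split_ifs at h1
    swap
    · exact h1 rfl
    have h2 : ∀ k (y : Finset ↥P), ∏ l ∈ y, α k l ≠ 0 → ∀ l ∈ y, v l = none := fun k y h l hl => by
      have h3 := prod_ne_zero_iff.1 h l hl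
      rw [hα] at h3
      split_ifs at h3 with h4
      · exact h4.2
      · exact absurd rfl h3
    have h3 := h2 i x (left_ne_zero_of_mul (left_ne_zero_of_mul h1))
    have h4 := h2 j e (right_ne_zero_of_mul (left_ne_zero_of_mul h1))
    have h5 : ∀ l ∈ x, l ∉ e := fun l hx he => by
      refine prod_ne_zero_iff.1 (prod_ne_zero_iff.1 (right_ne_zero_of_mul h1) l he) l hx ?_
      have : NeZero (l : ℕ) := ⟨(hP _ l.2).1.ne_zero⟩
      exact_mod_cast jacobiSym.eq_zero_iff_not_coprime.2 (by simpa using (hP _ l.2).1.ne_one)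
    refine hz ⟨fun l => if l ∈ x then some i else if l ∈ e then some j else v l,
      mem_coe.2 (Fintype.mem_piFinset.2 fun l => mem_filter.2 ⟨mem_univ _, ?_⟩), ?_⟩
    · by_cases hx : l ∈ x
      · simp [hx, h3 l hx]
      · by_cases he : l ∈ e
        · simp [hx, he, h4 l he]
        · simp only [if_neg hx, if_neg he]
          exact if_neg fun h => hv ⟨l, h⟩
    · have h6 : ∀ l, v l ≠ some i := fun l h => hv ⟨l, Or.inl h⟩
      have h7 : ∀ l, v l ≠ some j := fun l h => hv ⟨l, Or.inr h⟩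
      refine Prod.ext (Finset.ext fun l => ?_) (Finset.ext fun l => ?_)
      · by_cases hx : l ∈ x <;> by_cases he : l ∈ e <;> simp [hx, he, hne.symm, h6]
      · by_cases hx : l ∈ x <;> by_cases he : l ∈ e <;> simp [hx, he, hne, h7]
        exact h5 l hx he
  · intro u hu
    have h : ∀ l, (if u l = some i ∨ u l = some j then none else u l) = v l := fun l =>
      (mem_filter.1 (Fintype.mem_piFinset.1 hu l)).2
    have d1 : ∀ k, k ≠ i → k ≠ j → DI P u k = DI P v k := fun k h1 h2 =>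
      prod_congr rfl fun l _ => if_congr (by
        rw [← h l]
        split_ifs with h3
        · rcases h3 with h3 | h3 <;> simp [h3, h1.symm, h2.symm]
        · rfl) rfl rfl
    have d2 : ∀ k, DI P u k = ∏ l ∈ univ.filter fun l => u l = some k, (l : ℕ) := fun k => by
      rw [prod_filter, DI]
    have d3 : Pt T L (DI P u) ↔ (∀ k : Ix, k.1 ≠ 0 → k ≠ i → k ≠ j → (T < DI P v k ↔ k ∈ L)) ∧
        T < DI P u i ∧ T < DI P u j := by
      refine ⟨fun h => ⟨fun k h1 h2 h3 => d1 k h2 h3 ▸ h k h1, (h i hi).2 hiL, (h j hj).2 hjL⟩,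
        fun h k h1 => ?_⟩
      by_cases h2 : k = i
      · exact h2 ▸ iff_of_true h.2.1 hiL
      by_cases h3 : k = j
      · exact h3 ▸ iff_of_true h.2.2 hjL
      exact (d1 k h2 h3).symm ▸ h.1 k h1 h2 h3
    have a1 : ∀ k, k = i ∨ k = j → ∏ l ∈ univ.filter fun l => u l = some k, α k l =
        (∏ l : ↥P, if u l = some k then β k l else 1) *
          sgb (∑ l ∈ univ.filter fun l => u l = some k, xBil_a v k l) := fun k hk => by
      rw [sgb_sum, ← prod_filter, ← prod_mul_distrib]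
      refine prod_congr rfl fun l hl => ?_
      rw [hα, if_pos ⟨l.2, (h l).symm.trans (if_pos (by
        rw [(mem_filter.1 hl).2]
        rcases hk with rfl | rfl <;> simp))⟩]
    have a2 : WI P β u = WI P β v * (∏ l : ↥P, if u l = some i then β i l else 1) *
        ∏ l : ↥P, if u l = some j then β j l else 1 := by
      rw [WI, WI, ← prod_mul_distrib, ← prod_mul_distrib]
      refine prod_congr rfl fun l _ => ?_
      rw [← h l]
      by_cases h1 : u l = some i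
      · simp [h1, hne]
      by_cases h2 : u l = some j
      · simp [h2, hne.symm]
      simp [h1, h2]
    have a3 : ∏ l' ∈ univ.filter fun l => u l = some j, ∏ l ∈ univ.filter fun l => u l = some i,
        (jacobiSym (l : ℕ) (l' : ℕ) : ℝ) = sgb (∑ l' ∈ univ.filter fun l => u l = some j,
          ∑ l ∈ univ.filter fun l => u l = some i, sy (l : ℕ) l') := by
      rw [sgb_sum]
      refine prod_congr rfl fun l' hl' => ?_
      rw [sgb_sum]
      refine prod_congr rfl fun l hl => (sgb_sy ((Nat.coprime_primes (hP _ l.2).1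
        (hP _ l'.2).1).2 fun e => hne ?_)).symm
      have h1 := (mem_filter.1 hl).2
      rw [Subtype.ext e, (mem_filter.1 hl').2] at h1
      exact (Option.some.inj h1).symm
    dsimp only
    rw [← d2, ← d2, a1 i (Or.inl rfl), a1 j (Or.inr rfl), a3, hc1, if_congr d3 rfl rfl, a2,
      xBil_phi hPhi hi hj hij hc u v h, sgb_add, sgb_add, sgb_add, ite_and]
    split_ifs <;> ring

theorem SBil_pf (hPhi : SPhi) : SBil := by
  intro P s β T L i j F0 hP hs hβ hT hi hj hij hc hiL hjL hF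
  have h0 : 0 ≤ F0 := (abs_nonneg _).trans (hF (fun _ => 0) (fun _ => 0)
    (fun l _ => by simpa using xBZeta_nn s l) fun l _ => by simpa using xBZeta_nn s l)
  rw [SR, sum_fib fun o : Option Ix => if o = some i ∨ o = some j then none else o]
  refine (abs_sum_le_sum_abs _ _).trans ((sum_le_sum fun v _ => ?_).trans
    ((sum_mul _ _ _).symm.trans_le (mul_le_mul_of_nonneg_right (xBil_abs hP hs hβ) h0)))
  refine le_trans (le_of_eq ?_) (xBil_fib hPhi hP hβ hT hi hj hij hc hiL hjL hF v)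
  congr 3
  funext l
  congr

end Pool.Agent.MP_e23604_nt.U.Bm

end
end

section

open Finset
open scoped Classical

noncomputable section

namespace Pool.Agent.MP_e23604_nt.U.Bm

open P (sy ep xx chi EP PP Mod FFp NS star)

/-- Forget the primes of type `0` or `τ`. -/
def xRow_r (τ : Fin 4) (o : Option Ix) : Option Ix :=
  if ∃ i, o = some i ∧ i.1 ≠ 0 ∧ i.1 ≠ τ then o else none

theorem xRow_some {τ : Fin 4} {o : Option Ix} {k : Ix} :
    xRow_r τ o = some k ↔ o = some k ∧ k.1 ≠ 0 ∧ k.1 ≠ τ := by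
  unfold xRow_r
  split_ifs with h
  · obtain ⟨i, rfl, h⟩ := h
    exact ⟨fun e => ⟨e, Option.some.inj e ▸ h⟩, fun e => e.1⟩
  · exact ⟨fun e => absurd e (by simp), fun e => absurd ⟨k, e⟩ h⟩

theorem xRow_none {τ : Fin 4} {o : Option Ix} :
    xRow_r τ o = none ↔ ∀ i, o = some i → i.1 = 0 ∨ i.1 = τ := by
  rw [Option.eq_none_iff_forall_ne_some]
  refine forall_congr' fun i => ?_
  rw [Ne, xRow_some]
  tauto

/-- The bit seen by a prime of type `τ` at the site `σ`. -/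
def xRow_M {P : Finset ℕ} (u : CfI P) (σ : Fin 12) (l : ↥P) : ZMod 2 :=
  ∑ l', if u l' = none then 0 else mm σ (so (u l')) l l'

/-- The cross bit. -/
def xRow_c {P : Finset ℕ} (u : CfI P) (l : ↥P) (o : Option Ix) : ZMod 2 :=
  if u l = none then o.elim 0 fun i => if i.1 = 0 then 0 else xRow_M u i.2 l else 0

/-- The local factor. -/
def xRow_h {P : Finset ℕ} (β : Ix → ℕ → ℝ) (u : CfI P) (l : ↥P) (o : Option Ix) : ℝ :=
  if u l = none then (o.elim 1 fun i => β i l) * sgb (xRow_c u l o) else 1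

variable {P : Finset ℕ} {τ : Fin 4} {u u' : CfI P}

theorem xRow_eq (h : ∀ l, xRow_r τ (u l) = u' l) {l : ↥P} (hl : ¬ u' l = none) : u l = u' l := by
  obtain ⟨k, hk⟩ := Option.ne_none_iff_exists'.1 hl
  rw [hk, (xRow_some.1 ((h l).trans hk)).1]

theorem xRow_Rw (h : ∀ l, xRow_r τ (u l) = u' l) (T : ℕ) :
    Rw T τ (DI P u) ↔ Rw T τ (DI P u') := by
  refine forall_congr' fun k => forall_congr' fun h0 => forall_congr' fun h1 => ?_
  have e : DI P u k = DI P u' k := prod_congr rfl fun l _ => if_congr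
    ⟨fun a => (h l).symm.trans (xRow_some.2 ⟨a, h0, h1⟩),
      fun a => (xRow_some.1 ((h l).trans a)).1⟩ rfl rfl
  rw [e]

theorem xRow_Phi (hPhi : SPhi) (h : ∀ l, xRow_r τ (u l) = u' l) :
    Phi P u = Phi P u' + ∑ l, xRow_c u' l (u l) := by
  have e1 : (res u fun l => ¬ u' l = none) = u' := by
    funext l
    unfold res
    by_cases hl : u' l = none
    · rw [if_neg (not_not.2 hl), hl]
    · rw [if_pos hl, xRow_eq h hl]
  have e2 : Phi P (res u fun l => u' l = none) = 0 := by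
    refine (hPhi P _).2 τ fun l i hi => ?_
    unfold res at hi
    by_cases hl : u' l = none
    · rw [if_pos hl] at hi
      exact xRow_none.1 ((h l).trans hl) i hi
    · rw [if_neg hl] at hi
      exact absurd hi (by simp)
  rw [(hPhi P u).1 fun l => u' l = none, e1, e2, zero_add, sum_filter]
  refine congrArg _ (sum_congr rfl fun l _ => ?_)
  unfold xRow_c
  by_cases hl : u' l = none
  · rw [if_pos hl, if_pos hl, sum_filter]
    rcases hu : u l with _ | i
    · simp [eo, xo]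
    · have h1 := xRow_none.1 ((h l).trans hl) i hu
      have e3 : ∀ l', ¬ u' l' = none → eo (some i) * xo (u l') + eo (u l') * xo (some i)
          = if i.1 = 0 then 0 else 1 := fun l' hl' => by
        obtain ⟨k, hk⟩ := Option.ne_none_iff_exists'.1 hl'
        obtain ⟨a1, a2, a3⟩ := xRow_some.1 ((h l').trans hk)
        rw [a1]
        refine (lnk_ne i.1 k.1).trans ?_
        by_cases h0 : i.1 = 0
        · rw [if_pos (Or.inl h0), if_pos h0]
        · rw [if_neg h0, if_neg]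
          rintro (a | a | a)
          exacts [h0 a, a2 a, a3 (a ▸ h1.resolve_left h0)]
      rw [Option.elim_some]
      by_cases h0 : i.1 = 0
      · rw [if_pos h0]
        refine sum_eq_zero fun l' _ => ?_
        by_cases hl' : u' l' = none
        · rw [if_neg (not_not.2 hl')]
        · rw [if_pos hl', e3 l' hl', if_pos h0, zero_mul]
      · rw [if_neg h0]
        refine sum_congr rfl fun l' _ => ?_
        by_cases hl' : u' l' = none
        · rw [if_neg (not_not.2 hl'), if_pos hl']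
        · rw [if_pos hl', e3 l' hl', if_neg h0, one_mul, if_neg hl', xRow_eq h hl']
          rfl
  · rw [if_neg hl, if_neg hl]

theorem xRow_term (hPhi : SPhi) (β : Ix → ℕ → ℝ) (h : ∀ l, xRow_r τ (u l) = u' l) :
    WI P β u * sgb (Phi P u) = WI P β u' * sgb (Phi P u') * ∏ l, xRow_h β u' l (u l) := by
  rw [xRow_Phi hPhi h, sgb_add, sgb_sum, mul_left_comm, mul_comm (WI P β u'), mul_assoc, WI, WI,
    ← prod_mul_distrib, ← prod_mul_distrib]
  refine congrArg _ (prod_congr rfl fun l _ => ?_)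
  unfold xRow_h
  by_cases hl : u' l = none
  · rw [if_pos hl, hl, Option.elim_none, one_mul]
  · rw [if_neg hl, xRow_c, if_neg hl, sgb_zero, xRow_eq h hl]

theorem xRow_loc (hτ : τ ≠ 0) (β : Ix → ℕ → ℝ) (ho : Off τ u') (l : ↥P)
    {_ : DecidablePred fun o => xRow_r τ o = u' l} :
    ∑ o ∈ univ.filter fun o => xRow_r τ o = u' l, xRow_h β u' l o =
      if u' l = none then 1 + ∑ σ, β (0, σ) l + ∑ σ, β (τ, σ) l * sgb (xRow_M u' σ l) else 1 := by
  unfold xRow_h xRow_c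
  by_cases hl : u' l = none
  · simp only [if_pos hl]
    have hn : ∀ o, xRow_r τ o = u' l ↔ ∀ i, o = some i → i.1 = 0 ∨ i.1 = τ := fun o => by
      rw [hl, xRow_none]
    rw [sum_filter, Fintype.sum_option, Fintype.sum_prod_type,
      Fintype.sum_eq_add 0 τ hτ.symm, if_pos ((hn _).2 fun i hi => absurd hi (by simp)),
      add_assoc]
    · refine congrArg₂ _ (by simp [sgb_zero]) (congrArg₂ _ (sum_congr rfl fun σ _ => ?_)
        (sum_congr rfl fun σ _ => ?_))
      · rw [if_pos ((hn _).2 fun i hi => Or.inl (Option.some.inj hi ▸ rfl))]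
        simp [sgb_zero]
      · rw [if_pos ((hn _).2 fun i hi => Or.inr (Option.some.inj hi ▸ rfl))]
        simp [hτ]
    · refine fun t ht => sum_eq_zero fun σ _ => if_neg fun e => ?_
      exact ((hn _).1 e (t, σ) rfl).elim ht.1 ht.2
  · obtain ⟨k, hk⟩ := Option.ne_none_iff_exists'.1 hl
    have e : (univ.filter fun o => xRow_r τ o = u' l) = {some k} := by
      ext o
      rw [mem_filter, mem_singleton]
      exact ⟨fun a => (xRow_some.1 (a.2.trans hk)).1,
        fun a => ⟨mem_univ _, (xRow_some.2 ⟨a, ho l k hk⟩).trans hk.symm⟩⟩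
    rw [e, sum_singleton, if_neg hl, if_neg hl]

theorem xRow_mem {_ : ∀ l, DecidablePred fun o => xRow_r τ o = u' l}
    (hu : u ∈ Fintype.piFinset fun l => univ.filter fun o => xRow_r τ o = u' l) (l : ↥P) :
    xRow_r τ (u l) = u' l := (mem_filter.1 (Fintype.mem_piFinset.1 hu l)).2

theorem SRow_pf (hPhi : SPhi) : SRow := by
  intro P β T τ hτ
  rw [SR, sum_fib (xRow_r τ)]
  refine sum_congr rfl fun u' _ => ?_
  by_cases ho : Off τ u'
  · by_cases hr : Rw T τ (DI P u')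
    · refine (sum_congr rfl (g := fun u => WI P β u' * sgb (Phi P u') *
        ∏ l, xRow_h β u' l (u l)) fun u hu => ?_).trans ?_
      · rw [if_pos ((xRow_Rw (xRow_mem hu) T).2 hr), xRow_term hPhi β (xRow_mem hu)]
      rw [if_pos ⟨ho, hr⟩, ← mul_sum, ← prod_univ_sum]
      exact congrArg _ (prod_congr rfl fun l _ => xRow_loc hτ β ho l)
    · rw [if_neg fun a => hr a.2]
      exact sum_eq_zero fun u hu => if_neg fun a => hr ((xRow_Rw (xRow_mem hu) T).1 a)
  · rw [if_neg fun a => ho a.1]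
    exact sum_eq_zero fun u hu =>
      absurd (fun l i hi => (xRow_some.1 ((xRow_mem hu l).trans hi)).2) ho

end Pool.Agent.MP_e23604_nt.U.Bm

end
end

section

/-!
The sum over a row region when all sites are allowed.
-/

open Finset
open scoped Classical

noncomputable section

namespace Pool.Agent.MP_e23604_nt.U.Bm

open P (sy ep xx chi EP PP Mod FFp NS star)

theorem xFull_pi (s : ℝ) (P : Finset ℕ) : 0 ≤ Pi12 s P := by
  unfold Pi12
  refine prod_nonneg fun l _ => ?_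
  have : 0 ≤ xx s l := by
    unfold xx
    positivity
  positivity

theorem xFull_eu (P : Finset ℕ) (s : ℝ) (β : Ix → ℕ → ℝ) (τ : Fin 4)
    (hF : Full s P β τ 0) : Eu P β τ (fun _ => none) = Pi12 s P := by
  unfold Eu Pi12
  rw [← prod_coe_sort P]
  refine prod_congr rfl fun l _ => ?_
  rw [if_pos rfl]
  have h1 : ∀ σ, β (0, σ) l = xx s l / 2 := fun σ => (hF σ l l.2).1
  have h2 : ∀ σ, β (τ, σ) l = xx s l / 2 := fun σ => by
    rw [(hF σ l l.2).2, zero_mul, sgb_zero, mul_one]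
  simp only [h1, h2, if_true, sum_const_zero, sgb_zero, mul_one, sum_const, card_univ,
    Fintype.card_fin, nsmul_eq_mul]
  push_cast
  ring

theorem xFull_di (P : Finset ℕ) (T : ℕ) (τ : Fin 4) (u : CfI P) (hT : 1 ≤ T) (h1 : Off τ u)
    (h2 : Rw T τ (DI P u)) (i : Ix) : DI P u i ≤ T := by
  by_cases h : i.1 ≠ 0 ∧ i.1 ≠ τ
  · exact h2 i h.1 h.2
  · have : DI P u i = 1 := by
      unfold DI
      refine prod_eq_one fun l _ => if_neg fun hl => h (h1 l i hl)
    rw [this]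
    exact hT

theorem SFull_pf (hRow : SRow) (hEul : SEul) (hTriv : STriv) : SFull := by
  intro P s C T β τ θ hP hs hC hE hB hτ hT hF
  rw [hRow P β T τ hτ]
  set E : ℝ := (1 + s) ^ 10 * (50 * C * (1 + Real.log T)) ^ 2 with hEdef
  have hE0 : 0 ≤ E := by positivity
  have hpi := xFull_pi s P
  have key : ∀ u : CfI P,
      |if Off τ u ∧ Rw T τ (DI P u) then WI P β u * sgb (Phi P u) * Eu P β τ u else 0| ≤
        (if u = (fun _ => none) then (if θ = 0 then Pi12 s P else 0) else 0) +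
          (if (∀ i, DI P u i ≤ T) then |WI P β u| else 0) * E := by
    intro u
    have n1 : (0 : ℝ) ≤ if u = (fun _ => none) then (if θ = 0 then Pi12 s P else 0) else 0 := by
      split_ifs
      · exact hpi
      · exact le_rfl
      · exact le_rfl
    have n2 : (0 : ℝ) ≤ (if (∀ i, DI P u i ≤ T) then |WI P β u| else 0) * E := by
      refine mul_nonneg ?_ hE0
      split_ifs
      · exact abs_nonneg _
      · exact le_rfl
    by_cases h : Off τ u ∧ Rw T τ (DI P u)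
    · rw [if_pos h, abs_mul, abs_mul, abs_sgb, mul_one]
      have hD := xFull_di P T τ u hT h.1 h.2
      by_cases h0 : θ ≠ 0 ∨ ∃ l, u l ≠ none
      · have := hEul P s C T β τ θ u hP hs hC hE hF h0 hD
        rw [if_pos hD]
        exact le_add_of_nonneg_of_le n1 (mul_le_mul_of_nonneg_left this (abs_nonneg _))
      · push Not at h0
        obtain ⟨h1, h2⟩ := h0
        have hu : u = fun _ => none := funext h2
        subst h1
        rw [if_pos hu, if_pos rfl]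
        refine le_add_of_le_of_nonneg ?_ n2
        subst hu
        rw [xFull_eu P s β τ hF, abs_of_nonneg hpi]
        have : WI P β (fun _ => none) = 1 := by
          unfold WI
          simp
        rw [this, abs_one, one_mul]
    · rw [if_neg h, abs_zero]
      exact add_nonneg n1 n2
  refine (abs_sum_le_sum_abs _ _).trans ((sum_le_sum fun u _ => key u).trans ?_)
  rw [sum_add_distrib, sum_ite_eq' univ, if_pos (mem_univ _), ← sum_mul]
  have hA := hTriv P s β univ ∅ T (fun D => ∀ i, D i ≤ T) hP hs hB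
    (fun i hi => absurd (mem_univ i) hi) (fun D hD i _ => hD i)
  rw [inter_empty, card_empty, pow_zero, mul_one] at hA
  unfold AR at hA
  have h3 := mul_le_mul_of_nonneg_right hA hE0
  have h4 : (1 + Real.log T) ^ 48 * E = 2500 * C ^ 2 * (1 + Real.log T) ^ 50 * (1 + s) ^ 10 := by
    rw [hEdef]
    ring
  rw [h4] at h3
  refine add_le_add le_rfl ?_
  refine le_trans (le_of_eq ?_) h3
  congr 1
  refine sum_congr rfl fun u _ => ?_
  congr 1

end Pool.Agent.MP_e23604_nt.U.Bm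

end
end

section

/-!
The partition of the sum according to the set of large variables.
-/

open Finset
open scoped Classical

noncomputable section

namespace Pool.Agent.MP_e23604_nt.U.Bm

open P (sy ep xx chi EP PP Mod FFp NS star)

theorem xPart_pt (S : Finset (Finset Ix))
    (hS : ∀ L, L ∈ S ↔ (∀ k ∈ L, k.1 ≠ 0) ∧ ∃ i ∈ L, ∃ j ∈ L, i.1 ≠ j.1) (T : ℕ) (D : Ix → ℕ)
    (w : ℝ) :
    w = ∑ τ ∈ univ.erase (0 : Fin 4), (if Rw T τ D then w else 0) -
      2 * (if Rw T 0 D then w else 0) + ∑ L ∈ S, if Pt T L D then w else 0 := by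
  obtain ⟨G, hG⟩ : ∃ G : Finset Ix, ∀ k, k ∈ G ↔ k.1 ≠ 0 ∧ T < D k :=
    ⟨univ.filter fun k : Ix => k.1 ≠ 0 ∧ T < D k, fun k => by rw [mem_filter_univ]⟩
  have h3 : ∑ L ∈ S, (if Pt T L D then w else 0) = if G ∈ S then w else 0 := by
    rw [← sum_ite_eq' S G fun _ => w]
    refine sum_congr rfl fun L hL => if_congr ⟨fun h => ?_, ?_⟩ rfl rfl
    · ext k
      rw [hG]
      exact ⟨fun hk => ⟨((hS L).1 hL).1 k hk, (h k (((hS L).1 hL).1 k hk)).2 hk⟩,
        fun hk => (h k hk.1).1 hk.2⟩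
    · rintro rfl k h0
      rw [hG]
      exact ⟨fun h => ⟨h0, h⟩, fun h => h.2⟩
  have hR : ∀ τ, Rw T τ D ↔ ∀ k ∈ G, k.1 = τ := by
    intro τ
    refine ⟨fun h k hk => ?_, fun h k h0 hne => ?_⟩
    · by_contra hne
      exact absurd (h k ((hG k).1 hk).1 hne) (not_le.2 ((hG k).1 hk).2)
    · by_contra hlt
      exact hne (h k ((hG k).2 ⟨h0, not_le.1 hlt⟩))
  rw [h3]
  rcases G.eq_empty_or_nonempty with he | ⟨i, hi⟩
  · have h1 : ∀ τ, Rw T τ D := fun τ => (hR τ).2 fun k hk => by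
      rw [he] at hk
      exact absurd hk (notMem_empty _)
    have h2 : G ∉ S := fun h => by
      obtain ⟨i, hi, -⟩ := ((hS G).1 h).2
      rw [he] at hi
      exact notMem_empty _ hi
    rw [if_neg h2, if_pos (h1 0), sum_congr rfl fun τ _ => if_pos (h1 τ), sum_const,
      card_erase_of_mem (mem_univ _), card_univ, Fintype.card_fin, nsmul_eq_mul]
    norm_num
    ring
  have hi0 := ((hG i).1 hi).1
  rw [if_neg fun h : Rw T 0 D => hi0 ((hR 0).1 h i hi)]
  by_cases hall : ∀ k ∈ G, k.1 = i.1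
  · have h2 : G ∉ S := fun h => by
      obtain ⟨a, ha, b, hb, hab⟩ := ((hS G).1 h).2
      exact hab ((hall a ha).trans (hall b hb).symm)
    have h4 : ∑ τ ∈ univ.erase (0 : Fin 4), (if Rw T τ D then w else 0) = w := by
      rw [sum_eq_single_of_mem i.1 (mem_erase.2 ⟨hi0, mem_univ _⟩) fun τ _ hτ =>
        if_neg fun h => hτ ((hR τ).1 h i hi).symm, if_pos ((hR _).2 hall)]
    rw [if_neg h2, h4]
    ring
  · have h2 : G ∈ S := by
      refine (hS G).2 ⟨fun k hk => ((hG k).1 hk).1, ?_⟩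
      by_contra hc
      exact hall fun k hk => by
        by_contra hne
        exact hc ⟨k, hk, i, hi, hne⟩
    rw [if_pos h2, sum_eq_zero fun τ _ => if_neg fun h => hall fun k hk =>
      ((hR τ).1 h k hk).trans ((hR τ).1 h i hi).symm]
    ring

theorem xPart_main (S : Finset (Finset Ix))
    (hS : ∀ L, L ∈ S ↔ (∀ k ∈ L, k.1 ≠ 0) ∧ ∃ i ∈ L, ∃ j ∈ L, i.1 ≠ j.1) (P : Finset ℕ)
    (β : Ix → ℕ → ℝ) (T : ℕ) :
    |SR P β fun _ => True| ≤ ∑ τ ∈ univ.erase (0 : Fin 4), |SR P β (Rw T τ)| +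
      2 * AR P β (Rw T 0) + ∑ L ∈ S, |SR P β (Pt T L)| := by
  have e : (SR P β fun _ => True) = ∑ τ ∈ univ.erase (0 : Fin 4), SR P β (Rw T τ) -
      2 * SR P β (Rw T 0) + ∑ L ∈ S, SR P β (Pt T L) := by
    unfold SR
    rw [sum_comm, sum_comm (s := S), mul_sum, ← sum_sub_distrib, ← sum_add_distrib]
    exact sum_congr rfl fun u _ => (if_pos trivial).trans (xPart_pt S hS T _ _)
  rw [e]
  refine (abs_add_le _ _).trans (add_le_add ((abs_sub _ _).trans (add_le_add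
    (abs_sum_le_sum_abs _ _) ?_)) (abs_sum_le_sum_abs _ _))
  rw [abs_mul, abs_two]
  exact mul_le_mul_of_nonneg_left (abs_SR_le _ _ _) zero_le_two

theorem SPart_pf : SPart := fun P β T => xPart_main _ (fun L => by rw [mem_filter_univ]) P β T

end Pool.Agent.MP_e23604_nt.U.Bm

end
end

section

/-! The number of allowed pairs of a type and a site. -/

open Finset
open scoped Classical

noncomputable section

namespace Pool.Agent.MP_e23604_nt.U.Bm

open P (sy ep xx chi EP PP Mod FFp NS star)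

/-- The slice of a set of pairs at a type. -/
def xCol_sl (A : Finset Ix) (o : Fin 4) : Finset (Fin 12) := univ.filter fun σ => (o, σ) ∈ A

theorem xCol_card (A : Finset Ix) :
    A.card = (xCol_sl A 0).card + (xCol_sl A 1).card + (xCol_sl A 2).card + (xCol_sl A 3).card := by
  have h : A.card = ∑ k : Ix, if k ∈ A then 1 else 0 := by
    rw [← card_filter, filter_mem_eq_inter, univ_inter]
  rw [h, Fintype.sum_prod_type, Fin.sum_univ_four]
  simp only [xCol_sl, card_filter]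

theorem xCol_12 (A : Finset Ix) (o : Fin 4) : (xCol_sl A o).card ≤ 12 :=
  (card_le_univ _).trans (by simp)

theorem xCol_4 {A : Finset Ix} {o : Fin 4} {X : ℕ} (h : ∀ σ, (o, σ) ∈ A → cls σ = X) :
    (xCol_sl A o).card ≤ 4 := by
  rw [← card_range 4]
  refine card_le_card_of_injOn (fun σ => σ.val % 4) (fun σ _ => ?_) fun σ hσ τ hτ e => ?_
  · exact mem_coe.2 (mem_range.2 (Nat.mod_lt _ (by norm_num)))
  · have h1 := h σ (mem_filter.1 (mem_coe.1 hσ)).2
    have h2 := h τ (mem_filter.1 (mem_coe.1 hτ)).2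
    simp only [cls] at h1 h2 e
    exact Fin.ext (by omega)

theorem xCol_3 (hDet : SDet) {y η : F12} {o : Fin 4} (h : ¬ InK (vec y η o)) (B : Finset Ix) :
    (xCol_sl (AA y η ∩ B) o).card ≤ 3 := by
  refine le_trans (card_le_card fun σ hσ => ?_) (hDet _ h)
  exact mem_filter.2 ⟨mem_univ _, (mem_filter.1 (mem_inter.1 (mem_filter.1 hσ).2).1).2⟩

theorem xCol_0 {A : Finset Ix} {o : Fin 4} (h : ∀ σ, (o, σ) ∉ A) : (xCol_sl A o).card = 0 :=
  card_eq_zero.2 (filter_eq_empty_iff.2 fun σ _ => h σ)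

theorem xCol_sum (y η : F12) : vec y η 1 + vec y η 2 + vec y η 3 = wv := by
  funext τ
  have h : ∀ a b c : ZMod 2, 1 * a + 0 * b + 0 * 1 * c + (0 * a + 1 * b + 1 * 0 * c) +
      (1 * a + 1 * b + 1 * 1 * c) = c := by decide
  exact h _ _ _

theorem SCol_pf (hFK : SFK) (hDet : SDet) : SCol := by
  intro y η
  refine ⟨fun X => ?_, fun τ hτ => ?_⟩
  · set B : Finset Ix := univ.filter fun k : Ix => k.1 = 0 ∨ cls k.2 = X with hB
    have h4 : ∀ o : Fin 4, o ≠ 0 → (xCol_sl (AA y η ∩ B) o).card ≤ 4 := fun o ho =>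
      xCol_4 fun σ hσ => (mem_filter.1 (mem_inter.1 hσ).2).2.resolve_left ho
    have h0 := xCol_12 (AA y η ∩ B) 0
    have h1 := h4 1 (by decide)
    have h2 := h4 2 (by decide)
    have h3 := h4 3 (by decide)
    rw [xCol_card]
    by_cases a1 : InK (vec y η 1)
    · by_cases a2 : InK (vec y η 2)
      · have a3 : ¬ InK (vec y η 3) := fun a3 => hFK.2.1 (by
          rw [← xCol_sum y η]
          exact hFK.2.2.2.2.2 _ _ (hFK.2.2.2.2.2 _ _ a1 a2) a3)
        have := xCol_3 hDet a3 B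
        omega
      · have := xCol_3 hDet a2 B
        omega
    · have := xCol_3 hDet a1 B
      omega
  · set B : Finset Ix := univ.filter fun k : Ix => k.1 = 0 ∨ k.1 = τ with hB
    have h3 : ∀ o : Fin 4, o ≠ 0 → (xCol_sl (AA y η ∩ B) o).card ≤ 3 := fun o ho => by
      by_cases e : o = τ
      · subst e
        exact xCol_3 hDet (hτ.resolve_left ho) B
      · rw [xCol_0 fun σ hσ => e ((mem_filter.1 (mem_inter.1 hσ).2).2.resolve_left ho)]
        exact Nat.zero_le _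
    have h0 := xCol_12 (AA y η ∩ B) 0
    have h1 := h3 1 (by decide)
    have h2 := h3 2 (by decide)
    have h4 := h3 3 (by decide)
    rw [xCol_card]
    omega

end Pool.Agent.MP_e23604_nt.U.Bm

end
end

section

open Finset
open scoped Classical

noncomputable section

namespace Pool.Agent.MP_e23604_nt.U.Bm

open P (sy ep xx chi EP PP Mod FFp NS star)

theorem xBe_dot (y η : F12) (o : Fin 4) :
    dot lv (vec y η o) = eb o * dot lv y + xb o * dot lv η + xb o * eb o * dot lv wv := by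
  simp only [dot, vec, mul_sum, ← sum_add_distrib]
  exact sum_congr rfl fun τ _ => by ring

theorem xBe_bits : ∀ (o : Fin 4) (a b : ZMod 2), o ≠ 0 →
    eb o * a + xb o * b + xb o * eb o * 1 = 0 → a * b = 0 := by decide

theorem xBe_zero (y η : F12) : vec y η 0 = 0 := by
  funext τ
  simp [vec, eb, xb]

theorem xBe_abs (y η : F12) (o3 : Fin 4) (i : Ix) (l : ℕ) : |lf y η o3 i l| ≤ 1 / 2 := by
  rw [lf, abs_mul, abs_mul, abs_mul, abs_sgb, abs_sgb]
  split_ifs
  · rw [abs_sgb]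
    norm_num
  · norm_num

theorem SBe_pf (hFK : SFK) : SBe := by
  intro P s y η o3
  obtain ⟨h1, -, h3, -, h5, -⟩ := hFK
  refine ⟨fun i l _ => ?_, fun i hi l _ => ?_, fun τ hτ hK σ l _ => ?_⟩
  · have h0 := Pool.Agent.MP_e23604_nt.P.xBZeta_nn s l
    rw [be, abs_mul, abs_of_nonneg h0, div_eq_mul_one_div]
    exact mul_le_mul_of_nonneg_left (xBe_abs y η o3 i l) h0
  · rw [be, lf, if_neg fun h => hi (mem_filter.2 ⟨mem_univ _, h⟩), mul_zero, zero_mul, mul_zero]
  · have hk : kap y η = 0 := by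
      refine xBe_bits τ _ _ hτ ?_
      rw [← h3, ← xBe_dot]
      exact (h1 _ hK).2.2.2
    have h0 : InK (vec y η 0) := by rw [xBe_zero]; exact h5
    have hl : lnk o3 0 = 0 := by rw [lnk_ne, if_pos (Or.inr (Or.inl rfl))]
    constructor
    · rw [be, lf, if_pos ((h1 _ h0).1 σ), (h1 _ h0).2.1 σ, hk, hl, mul_zero, zero_mul, sgb_zero]
      ring
    · rw [be, lf, if_pos ((h1 _ hK).1 σ), (h1 _ hK).2.1 σ, hk, mul_zero, sgb_zero]
      ring

end Pool.Agent.MP_e23604_nt.U.Bm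

end
end

section

/-!
The bound for one signed sum: main rows, small rows, mixed regions.
-/

open Finset
open scoped Classical

noncomputable section

namespace Pool.Agent.MP_e23604_nt.U.Bm

open P (sy ep xx chi EP PP Mod FFp NS star)

theorem xMix_card : (Fintype.card (Finset Ix) : ℝ) = 2 ^ 48 := by
  rw [Fintype.card_finset, Fintype.card_prod, Fintype.card_fin, Fintype.card_fin]
  norm_num

theorem xMix_cls {L : Finset Ix} (h : ∃ i ∈ L, ∃ j ∈ L, i.1 ≠ j.1)
    (hn : ¬ ∃ i ∈ L, ∃ j ∈ L, i.1 ≠ j.1 ∧ cls i.2 < cls j.2) :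
    ∃ X : ℕ, ∀ k ∈ L, cls k.2 = X := by
  have key : ∀ i ∈ L, ∀ j ∈ L, i.1 ≠ j.1 → cls i.2 = cls j.2 := by
    intro i hi j hj hij
    rcases lt_trichotomy (cls i.2) (cls j.2) with h1 | h1 | h1
    · exact absurd ⟨i, hi, j, hj, hij, h1⟩ hn
    · exact h1
    · exact absurd ⟨j, hj, i, hi, hij.symm, h1⟩ hn
  obtain ⟨i, hi, j, hj, hij⟩ := h
  refine ⟨cls i.2, fun k hk => ?_⟩
  by_cases hki : k.1 = i.1
  · rw [key k hk j hj (hki ▸ hij), key i hi j hj hij]
  · exact key k hk i hi hki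

theorem SMix_pf (hPart : SPart) (hFull : SFull) (hTriv : STriv) (hBil : SBil) (hCol : SCol)
    (hBe : SBe) : SMix := by
  intro C hC
  refine ⟨3 * (2500 * C ^ 2 + 1) + 2 + 2 ^ 48, ?_⟩
  intro P s T F0 y η o3 hP hs hE hT hF hF0
  obtain ⟨hBd, hA, hFu⟩ := hBe P s y η o3
  have hl : 1 ≤ 1 + Real.log T := by
    have := Real.log_natCast_nonneg T
    linarith
  have hq : 1 ≤ √(1 + s) := Real.one_le_sqrt.2 (by linarith)
  obtain ⟨W, hW⟩ : ∃ W, W = (1 + Real.log T) ^ 50 * √(1 + s) ^ 23 := ⟨_, rfl⟩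
  have hW1 : 1 ≤ W := by
    rw [hW]
    exact one_le_mul_of_one_le_of_one_le (one_le_pow₀ hl) (one_le_pow₀ hq)
  have hC2 : 0 ≤ 2500 * C ^ 2 := by positivity
  have triv : ∀ (L : Finset Ix) (p : (Ix → ℕ) → Prop), (∀ D, p D → ∀ i, i ∉ L → D i ≤ T) →
      (AA y η ∩ L).card ≤ 23 → AR P (be s y η o3) p ≤ W := by
    intro L p hp hc
    refine (hTriv P s _ (AA y η) L T p hP hs hBd hA hp).trans ?_
    rw [hW]
    exact mul_le_mul (pow_le_pow_right₀ hl (by norm_num)) (pow_le_pow_right₀ hq hc)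
      (by positivity) (by positivity)
  have rowT : ∀ τ : Fin 4, (τ = 0 ∨ ¬ InK (vec y η τ)) → AR P (be s y η o3) (Rw T τ) ≤ W := by
    intro τ hτ
    refine triv _ _ ?_ ((hCol y η).2 τ hτ)
    intro D hD i hi
    simp only [mem_filter, mem_univ, true_and, not_or] at hi
    exact hD i hi.1 hi.2
  have row : ∀ τ ∈ univ.erase (0 : Fin 4), |SR P (be s y η o3) (Rw T τ)| ≤
      (if τ ≠ 0 ∧ InK (vec y η τ) ∧ (o3 = 0 ∨ o3 = τ) then 1 else 0) * Pi12 s P +
        (2500 * C ^ 2 + 1) * W := by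
    intro τ hτ
    have hτ0 : τ ≠ 0 := ne_of_mem_erase hτ
    by_cases hK : InK (vec y η τ)
    · refine (hFull P s C T _ τ _ hP hs hC hE hBd hτ0 hT (hFu τ hτ0 hK)).trans ?_
      have e1 : (if lnk o3 τ = 0 then Pi12 s P else 0) =
          (if τ ≠ 0 ∧ InK (vec y η τ) ∧ (o3 = 0 ∨ o3 = τ) then 1 else 0) * Pi12 s P := by
        by_cases h : o3 = 0 ∨ o3 = τ
        · rw [if_pos (by rw [lnk_ne, if_pos (by tauto)]), if_pos ⟨hτ0, hK, h⟩, one_mul]
        · rw [if_neg (by rw [lnk_ne, if_neg (by tauto)]; exact one_ne_zero),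
            if_neg (fun h' => h h'.2.2), zero_mul]
      have e2 : (1 + s) ^ 10 ≤ √(1 + s) ^ 23 := by
        have : (1 + s) ^ 10 = √(1 + s) ^ 20 := by
          rw [show 20 = 2 * 10 from rfl, pow_mul, Real.sq_sqrt (by linarith)]
        rw [this]
        exact pow_le_pow_right₀ hq (by norm_num)
      have e3 : (1 + Real.log T) ^ 50 * (1 + s) ^ 10 ≤ W := by
        rw [hW]
        exact mul_le_mul_of_nonneg_left e2 (by positivity)
      rw [e1, mul_assoc]
      have := mul_le_mul_of_nonneg_left e3 hC2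
      linarith
    · rw [if_neg (fun h' => hK h'.2.1), zero_mul, zero_add]
      have := (abs_SR_le _ _ _).trans (rowT τ (Or.inr hK))
      have h2 : 0 ≤ 2500 * C ^ 2 * W := mul_nonneg hC2 (by linarith)
      linarith
  have rows : ∑ τ ∈ univ.erase (0 : Fin 4), |SR P (be s y η o3) (Rw T τ)| ≤
      nm y η o3 * Pi12 s P + 3 * ((2500 * C ^ 2 + 1) * W) := by
    refine (sum_le_sum row).trans (le_of_eq ?_)
    rw [sum_add_distrib, ← sum_mul, sum_const, card_erase_of_mem (mem_univ _), card_univ,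
      Fintype.card_fin, sum_erase _ (by simp), sum_boole, nsmul_eq_mul]
    unfold nm
    norm_num
  have mix : ∀ L ∈ univ.filter fun L : Finset Ix =>
      (∀ k ∈ L, k.1 ≠ 0) ∧ ∃ i ∈ L, ∃ j ∈ L, i.1 ≠ j.1, |SR P (be s y η o3) (Pt T L)| ≤ W := by
    intro L hL
    obtain ⟨h0, h1⟩ := (mem_filter.1 hL).2
    by_cases hc : ∃ i ∈ L, ∃ j ∈ L, i.1 ≠ j.1 ∧ cls i.2 < cls j.2
    · obtain ⟨i, hi, j, hj, hij, hlt⟩ := hc
      exact (hBil P s _ T L i j F0 hP hs hBd hT (h0 i hi) (h0 j hj) hij hlt hi hj hF).trans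
        (hF0.trans hW1)
    · obtain ⟨X, hX⟩ := xMix_cls h1 hc
      refine (abs_SR_le _ _ _).trans (triv _ _ ?_ ((hCol y η).1 X))
      intro D hD i hi
      simp only [mem_filter, mem_univ, true_and, not_or] at hi
      exact not_lt.1 fun h => hi.2 (hX i ((hD i hi.1).1 h))
  have mixs := sum_le_card_nsmul _ _ _ mix
  rw [nsmul_eq_mul] at mixs
  have hcard : ((univ.filter fun L : Finset Ix =>
      (∀ k ∈ L, k.1 ≠ 0) ∧ ∃ i ∈ L, ∃ j ∈ L, i.1 ≠ j.1).card : ℝ) ≤ 2 ^ 48 := by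
    rw [← xMix_card, ← card_univ]
    exact Nat.cast_le.2 (card_filter_le _ _)
  have h48 := mul_le_mul_of_nonneg_right hcard (zero_le_one.trans hW1)
  have hp := hPart P (be s y η o3) T
  have r0 := rowT 0 (Or.inl rfl)
  rw [mul_assoc, ← hW]
  linarith

end Pool.Agent.MP_e23604_nt.U.Bm

end
end

section

open Finset
open scoped Classical

noncomputable section

namespace Pool.Agent.MP_e23604_nt.U.Bm

open P (sy ep xx chi EP PP Mod FFp NS star)

def xCnt_I (v : F12) : ℝ := if InK v then 1 else 0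

theorem xCnt_vec (y η : F12) : vec y η 1 = y ∧ vec y η 2 = η ∧ vec y η 3 = y + wv + η := by
  refine ⟨funext fun τ => ?_, funext fun τ => ?_, funext fun τ => ?_⟩
  · change 1 * y τ + 0 * η τ + 0 * 1 * wv τ = y τ
    ring
  · change 0 * y τ + 1 * η τ + 1 * 0 * wv τ = η τ
    ring
  · change 1 * y τ + 1 * η τ + 1 * 1 * wv τ = y τ + wv τ + η τ
    ring

theorem xCnt_nm (y η : F12) :
    ∑ o3 : Fin 4, nm y η o3 = 2 * (xCnt_I y + xCnt_I η + xCnt_I (y + wv + η)) := by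
  obtain ⟨h1, h2, h3⟩ := xCnt_vec y η
  simp only [nm, card_filter, Fin.sum_univ_four, h1, h2, h3, xCnt_I]
  by_cases a : InK y <;> by_cases b : InK η <;> by_cases c : InK (y + wv + η) <;>
    simp [a, b, c] <;> norm_num

theorem SCnt_pf (hFK : SFK) : SCnt := by
  have h : ∑ v, xCnt_I v = 16 := by
    have := congrArg (Nat.cast : ℕ → ℝ) hFK.2.2.2.1
    rw [card_filter] at this
    push_cast at this
    exact this
  have h3 : ∀ y : F12, ∑ η, xCnt_I (y + wv + η) = 16 := fun y =>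
    (Equiv.sum_comp (Equiv.addLeft (y + wv)) xCnt_I).trans h
  have hc : (Fintype.card F12 : ℝ) = 2 ^ 12 := by
    rw [Fintype.card_fun, ZMod.card, Fintype.card_fin]
    norm_num
  unfold SCnt
  simp only [xCnt_nm, ← mul_sum, sum_add_distrib, h, h3, sum_const, card_univ, nsmul_eq_mul, hc]
  norm_num

end Pool.Agent.MP_e23604_nt.U.Bm

end
end

section

/-!
A numerical inequality: powers of logarithms are absorbed by a small power.
-/

open Finset
open scoped Classical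

noncomputable section

namespace Pool.Agent.MP_e23604_nt.U.Bm

open P (sy ep xx chi EP PP Mod FFp NS star)

theorem xNum_log (A : ℕ) {u s : ℝ} (hu : 1 ≤ u) (hs : s = u ^ 200) :
    0 ≤ 1 + Real.log (⌈s ^ A⌉₊ : ℕ) ∧ 1 + Real.log (⌈s ^ A⌉₊ : ℕ) ≤ (2 + 200 * A) * u := by
  have hs1 : 1 ≤ s := hs ▸ one_le_pow₀ hu
  have h1 : 1 ≤ s ^ A := one_le_pow₀ hs1
  have h2 : (1 : ℝ) ≤ (⌈s ^ A⌉₊ : ℕ) := h1.trans (Nat.le_ceil _)
  have h3 : ((⌈s ^ A⌉₊ : ℕ) : ℝ) ≤ 2 * s ^ A := by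
    have := Nat.ceil_lt_add_one (zero_le_one.trans h1)
    linarith
  have h4 := Real.log_nonneg h2
  refine ⟨by linarith, ?_⟩
  have h5 : Real.log (⌈s ^ A⌉₊ : ℕ) ≤ Real.log 2 + A * (200 * Real.log u) := by
    refine (Real.log_le_log (by linarith) h3).trans_eq ?_
    rw [Real.log_mul (by norm_num) (by linarith), Real.log_pow, hs, Real.log_pow]
    norm_num
  have h6 : Real.log 2 ≤ 1 := by
    have := Real.log_le_sub_one_of_pos (show (0 : ℝ) < 2 by norm_num)
    linarith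
  have h7 : Real.log u ≤ u := (Real.log_le_sub_one_of_pos (by linarith)).trans (by linarith)
  have h8 : (A : ℝ) * (200 * Real.log u) ≤ A * (200 * u) :=
    mul_le_mul_of_nonneg_left (by linarith) (Nat.cast_nonneg A)
  nlinarith

theorem SNum_pf : SNum := by
  intro A C ε hε
  set K : ℝ := |C| * (2 + 200 * A) ^ 50 * 2 ^ 23 / ε with hK
  have hK0 : 0 ≤ K := by positivity
  refine ⟨max 1 (K ^ 4), fun s hs => ?_⟩
  have hs1 : 1 ≤ s := (le_max_left _ _).trans hs
  have hsK : K ^ 4 ≤ s := (le_max_right _ _).trans hs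
  obtain ⟨u, hu, hus⟩ : ∃ u : ℝ, 1 ≤ u ∧ s = u ^ 200 :=
    ⟨s ^ ((200 : ℕ) : ℝ)⁻¹, Real.one_le_rpow hs1 (by positivity),
      (Real.rpow_inv_natCast_pow (by linarith) (by norm_num)).symm⟩
  obtain ⟨h0, h1⟩ := xNum_log A hu hus
  have h2 : (1 + Real.log (⌈s ^ A⌉₊ : ℕ)) ^ 50 ≤ (2 + 200 * A) ^ 50 * u ^ 50 := by
    rw [← mul_pow]
    exact pow_le_pow_left₀ h0 h1 _
  have hr1 : 1 ≤ u ^ 50 := one_le_pow₀ hu
  have hsr : s = (u ^ 50) ^ 4 := by rw [hus, ← pow_mul]
  generalize u ^ 50 = r at h2 hr1 hsr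
  have hr0 : 0 ≤ r := zero_le_one.trans hr1
  have hKr : K ≤ r := le_of_pow_le_pow_left₀ (n := 4) (by norm_num) hr0 (hsr ▸ hsK)
  have h3 : √(1 + s) ≤ 2 * r ^ 2 := by
    refine Real.sqrt_le_iff.2 ⟨by positivity, ?_⟩
    have : (2 * r ^ 2) ^ 2 = 4 * s := by rw [hsr]; ring
    linarith
  have h4 : √(1 + s) ^ 23 ≤ (2 * r ^ 2) ^ 23 := pow_le_pow_left₀ (Real.sqrt_nonneg _) h3 _
  have h5 : |C| * (2 + 200 * A) ^ 50 * 2 ^ 23 = ε * K := by rw [hK]; field_simp
  generalize (2 + 200 * (A : ℝ)) ^ 50 = W at h2 h5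
  have hW : 0 ≤ W * r := (pow_nonneg h0 50).trans h2
  calc C * (1 + Real.log (⌈s ^ A⌉₊ : ℕ)) ^ 50 * √(1 + s) ^ 23
      ≤ |C| * (W * r) * (2 * r ^ 2) ^ 23 :=
        mul_le_mul (mul_le_mul (le_abs_self C) h2 (pow_nonneg h0 50) (abs_nonneg C)) h4
          (by positivity) (mul_nonneg (abs_nonneg C) hW)
    _ = |C| * W * 2 ^ 23 * r ^ 47 := by ring
    _ = ε * K * r ^ 47 := by rw [h5]
    _ ≤ ε * r * r ^ 47 := by gcongr
    _ = ε * s ^ 12 := by rw [hsr]; ring

end Pool.Agent.MP_e23604_nt.U.Bm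

end
end

section

/-!
The weighted mean of the size of the kernel.
-/

open Finset
open scoped Classical

noncomputable section

namespace Pool.Agent.MP_e23604_nt.U.Bm

open P (sy ep xx chi EP PP Mod FFp NS star)

theorem xAvg_eq (hFA : SFA) (hFB : SFB) (hCfg : SCfg) {P : Finset ℕ} (hP : HP P) (s : ℝ) :
    ∑ t : CfU P, wtU s P t * avk (sOf P t) = 1 / 2 ^ 13 * ∑ y : F12, ∑ η : F12, ∑ o3 : Fin 4,
      sgb (kap y η) * sgb (dot c3 (vec y η o3)) * SR P (be s y η o3) fun _ => True := by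
  have h1 : ∀ y η o3, (SR P (be s y η o3) fun _ => True) = _ := fun y η o3 =>
    (hFB P s (lf y η o3) hP).symm
  calc _ = ∑ t : CfU P, ∑ y : F12, ∑ η : F12, ∑ o3 : Fin 4, 1 / 2 ^ 13 *
        (sgb (kap y η) * sgb (dot c3 (vec y η o3)) *
          (wtU s P t * ∑ b : ↥((PS (sOf P t)).erase 3) → Fin 4,
            (∏ l : ↥((PS (sOf P t)).erase 3), lf y η o3 (b l, st (sOf P t) l) l) *
              sgb (Phi ((PS (sOf P t)).erase 3) fun l => some (b l, st (sOf P t) l)))) := by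
        refine sum_congr rfl fun t _ => ?_
        rw [hFA _ ((hCfg P hP).2 t).1, ← mul_assoc, mul_sum]
        refine sum_congr rfl fun y _ => ?_
        rw [mul_sum]
        refine sum_congr rfl fun η _ => ?_
        rw [mul_sum]
        exact sum_congr rfl fun o3 _ => by ring
    _ = _ := by
        rw [sum_comm, mul_sum]
        refine sum_congr rfl fun y _ => ?_
        rw [sum_comm, mul_sum]
        refine sum_congr rfl fun η _ => ?_
        rw [sum_comm, mul_sum]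
        refine sum_congr rfl fun o3 _ => ?_
        rw [h1, ← mul_sum, ← mul_sum]

theorem xAvg_sum (hCnt : SCnt) (a b : ℝ) :
    ∑ y : F12, ∑ η : F12, ∑ o3 : Fin 4, (nm y η o3 * a + b) = 48 * 2 ^ 13 * a + 2 ^ 26 * b := by
  have h1 : Fintype.card F12 = 2 ^ 12 := by
    rw [Fintype.card_fun, ZMod.card, Fintype.card_fin]
  unfold SCnt at hCnt
  simp only [sum_add_distrib, ← sum_mul]
  rw [hCnt]
  simp only [sum_const, card_univ, h1, Fintype.card_fin, nsmul_eq_mul]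
  push_cast
  ring

theorem xAvg_pow {s : ℝ} (hs : 2 ^ 24 ≤ s) : (1 + s) ^ 24 * (1 / s ^ 25) ≤ 1 := by
  have h1 : (1 : ℝ) ≤ s := le_trans (by norm_num) hs
  have h0 : 0 < s := by linarith
  rw [mul_one_div, div_le_one (by positivity)]
  calc (1 + s) ^ 24 ≤ (2 * s) ^ 24 := pow_le_pow_left₀ (by linarith) (by linarith) 24
    _ = 2 ^ 24 * s ^ 24 := mul_pow _ _ _
    _ ≤ s * s ^ 24 := mul_le_mul_of_nonneg_right hs (by positivity)
    _ = s ^ 25 := by ring

theorem SAvg_pf (hFA : SFA) (hFB : SFB) (hCfg : SCfg) (hMix : SMix) (hCnt : SCnt) (hNum : SNum)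
    (hFF : SFF) : SAvg := by
  intro C0 ε hε
  obtain ⟨C, hC, hE⟩ := P.EP_le C0
  obtain ⟨C', hC'⟩ := hMix C hC
  obtain ⟨A, s1, h1⟩ := hFF 25
  obtain ⟨s2, h2⟩ := hNum A (2 ^ 13 * C') ε hε
  refine ⟨max (2 ^ 24) (max s1 s2), fun s hs n Q hM hP => ?_⟩
  have e0 : 2 ^ 24 ≤ s := (le_max_left _ _).trans hs
  have e1 : s1 ≤ s := ((le_max_left _ _).trans (le_max_right _ _)).trans hs
  have e2 : s2 ≤ s := ((le_max_right _ _).trans (le_max_right _ _)).trans hs
  have e3 : (1 : ℝ) ≤ s := le_trans (by norm_num) e0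
  have hT : 1 ≤ ⌈s ^ A⌉₊ := Nat.one_le_ceil_iff.2 (by positivity)
  have hF := h1 s e1 (PP n Q) ⌈s ^ A⌉₊
    (fun l hl => ⟨(hP l hl).1, by have := (hP l hl).2; omega⟩) (Nat.le_ceil _)
  have h3 := h2 s e2
  have h4 : ∑ y : F12, ∑ η : F12, ∑ o3 : Fin 4, sgb (kap y η) * sgb (dot c3 (vec y η o3)) *
      (SR (PP n Q) (be s y η o3) fun _ => True) ≤ _ :=
    (sum_le_sum fun y _ => sum_le_sum fun η _ => sum_le_sum fun o3 _ =>
      (le_abs_self _).trans (by
        rw [abs_mul, abs_mul, abs_sgb, abs_sgb, one_mul, one_mul]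
        exact hC' (PP n Q) s _ _ y η o3 hP (by linarith) (hE s e3 n Q hM) hT hF
          (xAvg_pow e0))).trans_eq (xAvg_sum hCnt (Pi12 s (PP n Q))
      (C' * (1 + Real.log (⌈s ^ A⌉₊ : ℕ)) ^ 50 * √(1 + s) ^ 23))
  rw [xAvg_eq hFA hFB hCfg hP]
  linarith

end Pool.Agent.MP_e23604_nt.U.Bm

end
end

section

/-!
The weighted count of the small parts.
-/

open Finset
open scoped Classical

noncomputable section

namespace Pool.Agent.MP_e23604_nt.U.Bm

open P (sy ep xx chi EP PP Mod FFp NS star)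

theorem xFin_prod {Q : Finset ℕ} {a : ℕ → ℝ} (h : ∀ l ∈ Q, 0 ≤ a l ∧ a l ≤ 1) :
    1 - ∑ l ∈ Q, a l ≤ ∏ l ∈ Q, (1 - a l) := by
  induction Q using Finset.induction_on with
  | empty => simp
  | insert b Q hb ih =>
    have h1 := ih fun l hl => h l (mem_insert_of_mem hl)
    have h2 := h b (mem_insert_self _ _)
    have h3 : 0 ≤ ∑ l ∈ Q, a l := sum_nonneg fun l hl => (h l (mem_insert_of_mem hl)).1
    rw [sum_insert hb, prod_insert hb]
    have h4 := mul_le_mul_of_nonneg_left h1 (sub_nonneg.2 h2.2)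
    nlinarith [mul_nonneg h2.1 h3]

/-- The weight without the denominator. -/
def xFin_G (s : S12) : ℝ := pgood s * ∏ l ∈ (PS s).erase 3, (1 - 100 / (l : ℝ))

theorem xFin_bd (hPg : SPg) {s : S12} (hs : SOK s) : 0 ≤ xFin_G s ∧ xFin_G s ≤ 1 ∧
    (64 - avk s) / 48 - ∑ l ∈ (PS s).erase 3, 100 / (l : ℝ) ≤ xFin_G s := by
  have h : ∀ l ∈ (PS s).erase 3, 0 ≤ 100 / (l : ℝ) ∧ 100 / (l : ℝ) ≤ 1 := fun l hl => by
    have h1 : 10000 < l := (hs.2.2 l (mem_of_mem_erase hl)).resolve_left (ne_of_mem_erase hl)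
    have h2 : (10000 : ℝ) < l := by exact_mod_cast h1
    exact ⟨by positivity, (div_le_one (by linarith)).2 (by linarith)⟩
  obtain ⟨p1, p2, p3⟩ := hPg s
  have q1 := xFin_prod h
  have q2 : 0 ≤ ∏ l ∈ (PS s).erase 3, (1 - 100 / (l : ℝ)) :=
    prod_nonneg fun l hl => sub_nonneg.2 (h l hl).2
  have q3 : ∏ l ∈ (PS s).erase 3, (1 - 100 / (l : ℝ)) ≤ 1 :=
    prod_le_one (fun l hl => sub_nonneg.2 (h l hl).2) fun l hl => sub_le_self _ (h l hl).1
  have q4 : 0 ≤ ∑ l ∈ (PS s).erase 3, 100 / (l : ℝ) := sum_nonneg fun l hl => (h l hl).1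
  refine ⟨mul_nonneg p2 q2, mul_le_one₀ p3 q2 q3, ?_⟩
  have q5 := mul_le_mul_of_nonneg_left q1 p2
  have q6 := mul_le_mul_of_nonneg_right p3 q4
  unfold xFin_G
  linarith

theorem xFin_mem {s : S12} (hs : SOK s) {Z : ℕ} (h : SP s ≤ Z) : s ∈ SSet Z := by
  refine mem_filter.2 ⟨Fintype.mem_piFinset.2 fun σ => ?_, hs, h⟩
  have h0 : 0 < SP s := Nat.pos_of_ne_zero hs.1.ne_zero
  have h1 : s σ ∣ SP s := dvd_prod_of_mem _ (mem_univ σ)
  exact mem_Icc.2 ⟨Nat.pos_of_dvd_of_pos h1 h0, (Nat.le_of_dvd h0 h1).trans h⟩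

theorem xFin_tr (hPg : SPg) (hCfg : SCfg) {P : Finset ℕ} (hP : HP P) {s : ℝ} (hs : 0 < s) (Z : ℕ) :
    ∑ t : CfU P, wtU s P t * xFin_G (sOf P t) ≤ 3 * ∑ m ∈ SSet Z, wS m +
      ∑ t ∈ univ.filter fun t : CfU P => 3 * ((Z : ℝ) / 3) < (SP (sOf P t) : ℝ), wtU s P t := by
  obtain ⟨hinj, hc⟩ := hCfg P hP
  have h1 : ∑ t ∈ univ.filter fun t : CfU P => sOf P t ∈ SSet Z,
      wtU s P t * xFin_G (sOf P t) ≤ 3 * ∑ m ∈ SSet Z, wS m := by
    calc _ ≤ ∑ t ∈ univ.filter fun t : CfU P => sOf P t ∈ SSet Z, 3 * wS (sOf P t) := by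
          refine sum_le_sum fun t _ => ?_
          refine (mul_le_mul_of_nonneg_right ((hc t).2.2.2.2 s hs).2
            (xFin_bd hPg (hc t).1).1).trans_eq ?_
          unfold wS xFin_G
          ring
      _ = 3 * ∑ m ∈ (univ.filter fun t : CfU P => sOf P t ∈ SSet Z).image (sOf P), wS m := by
          rw [sum_image fun a _ b _ h => hinj h, mul_sum]
      _ ≤ _ := by
          refine mul_le_mul_of_nonneg_left (sum_le_sum_of_subset_of_nonneg ?_ fun m hm _ =>
            div_nonneg (xFin_bd hPg (mem_filter.1 hm).2.1).1 (Nat.cast_nonneg _)) (by norm_num)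
          intro m hm
          obtain ⟨t, ht, rfl⟩ := mem_image.1 hm
          exact (mem_filter.1 ht).2
  refine le_trans ?_ (add_le_add h1 le_rfl)
  rw [sum_filter, sum_filter, ← sum_add_distrib]
  refine sum_le_sum fun t _ => ?_
  have w0 := ((hc t).2.2.2.2 s hs).1
  have w1 : wtU s P t * xFin_G (sOf P t) ≤ wtU s P t :=
    mul_le_of_le_one_right w0 (xFin_bd hPg (hc t).1).2.1
  split_ifs with a b b
  any_goals linarith
  refine absurd (xFin_mem (hc t).1 ?_) a
  have : (SP (sOf P t) : ℝ) ≤ Z := by linarith [not_lt.1 b]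
  exact_mod_cast this

theorem xFin_n (N : ℕ) (hN : 6 ≤ N) :
    ∃ n : ℕ, n ≠ 0 ∧ 6 ∣ n ∧ ∀ l : ℕ, l.Prime → ¬ l ∣ n → N < l :=
  ⟨N.factorial, N.factorial_ne_zero, Nat.dvd_factorial (by norm_num) hN,
    fun _ hl h => not_le.1 fun e => h (Nat.dvd_factorial hl.pos e)⟩

theorem SFin_pf (hAvg : SAvg) (hPg : SPg) (hCfg : SCfg) (hWt : SWt) (hTot : STot) : IB := by
  obtain ⟨n, hn, h6, hl⟩ := xFin_n 10000 (by norm_num)
  obtain ⟨c, hc, htot⟩ := hTot (∑ l ∈ n.primeFactors, (1 : ℝ) / l)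
  obtain ⟨s1, havg⟩ := hAvg (∑ l ∈ n.primeFactors, (1 : ℝ) / l) c hc
  obtain ⟨y, hy⟩ : ∃ y : ℝ, y = 20 * 3 ^ 12 / c := ⟨_, rfl⟩
  have hy0 : 0 < y := by rw [hy]; positivity
  have hK : 0 < 2 + 2 * y := by positivity
  refine ⟨c / (30 * (2 + 2 * y) ^ 12), by positivity, ⌈Real.exp ((2 + 2 * y) * max 1 s1)⌉₊,
    fun Z hZ => ?_⟩
  have hZ1 : Real.exp ((2 + 2 * y) * max 1 s1) ≤ Z := Nat.ceil_le.1 hZ
  have hZ0 : (0 : ℝ) < Z := (Real.exp_pos _).trans_le hZ1
  obtain ⟨s, hs⟩ : ∃ s : ℝ, Real.log Z = (2 + 2 * y) * s :=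
    ⟨Real.log Z / (2 + 2 * y), by field_simp⟩
  have hsm : max 1 s1 ≤ s :=
    le_of_mul_le_mul_left (hs ▸ (Real.le_log_iff_exp_le hZ0).2 hZ1) hK
  have hs1 : 1 ≤ s := le_of_max_le_left hsm
  have hs0 : 0 < s := by linarith
  have hM : Mod (∑ l ∈ n.primeFactors, (1 : ℝ) / l) s n ⌈Real.exp (s ^ 2)⌉₊ :=
    ⟨h6, hn, le_rfl, Nat.le_ceil _⟩
  generalize ⌈Real.exp (s ^ 2)⌉₊ = Q at hM
  have hP : HP (PP n Q) := fun l h => ⟨(mem_filter.1 h).2.1, hl l (mem_filter.1 h).2.1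
    (mem_filter.1 h).2.2⟩
  have a1 := htot s hs1 n Q hM
  have a2 := havg s (le_of_max_le_right hsm) n Q hM hP
  obtain ⟨a3, a4, a5⟩ := hWt _ s hP hs0
  have a6 := xFin_tr hPg hCfg hP hs0 Z
  have a7 := a4 ((Z : ℝ) / 3) (by positivity)
  have a8 : ((Z : ℝ) / 3) ^ (-(1 / (2 * s))) * (1 + 2 * s) ^ 12 ≤ 1 / y * (3 * s) ^ 12 :=
    mul_le_mul (P.xBMain_rk hs1 hy0 (by rw [← hs, Real.exp_log hZ0])) (by gcongr; linarith)
      (by positivity) (by positivity)
  have e1 : 1 / y * (3 * s) ^ 12 = c * s ^ 12 / 20 := by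
    rw [hy]
    field_simp
  have hg : (64 * ∑ t : CfU (PP n Q), wtU s _ t -
      ∑ t : CfU (PP n Q), wtU s _ t * avk (sOf _ t)) / 48 -
      ∑ t : CfU (PP n Q), wtU s _ t * ∑ l ∈ (PS (sOf _ t)).erase 3, 100 / (l : ℝ) ≤
      ∑ t : CfU (PP n Q), wtU s _ t * xFin_G (sOf _ t) := by
    rw [mul_sum, ← sum_sub_distrib, sum_div, ← sum_sub_distrib]
    refine sum_le_sum fun t _ => ?_
    have hc := (hCfg _ hP).2 t
    refine le_trans (le_of_eq ?_)
      (mul_le_mul_of_nonneg_left (xFin_bd hPg hc.1).2.2 (hc.2.2.2.2 s hs0).1)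
    ring
  rw [a3] at hg
  have e2 : c / (30 * (2 + 2 * y) ^ 12) * Real.log Z ^ 12 = c * s ^ 12 / 30 := by
    rw [hs]
    field_simp
  have a9 : 0 < c * s ^ 12 := by positivity
  rw [e2]
  linarith

end Pool.Agent.MP_e23604_nt.U.Bm

end
end
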