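import Mathlib
import Pool.Agent.Mg.Fe23604m.G06f121

set_option linter.all false

namespace Pool.Agent.MP_e23604_nt.T

open Finset Filter NumberField
open MP_f68ac8_nt (cyc IsFrob)
open MP_f68ac8_nt.Zv (Ex Prob piV Unf Bx)
open MP_f68ac8_nt.Zk (NS brL lk msk Av)
open MP_f68ac8_nt.Nd (Lr Fr Gz Exm fP kap np OKp)
open Q (Wn Pre rot0)
open scoped BigOperators Topology

/-- pairs -/
abbrev P_XCoB : Type := ZMod 3 × ZMod 3

/-- the local sets at the split indices -/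
def L_XCoB (c : P_XCoB) : Option P_XCoB → Finset (P_XCoB × P_XCoB)
  | none => {c} ×ˢ univ
  | some a => (univ.filter fun w => a.1 * (w.1 - c.1) + a.2 * (w.2 - c.2) = 0) ×ˢ {0, a, -a}

theorem card_XCoB (c : P_XCoB) (o : Option P_XCoB) : (L_XCoB c o).card ≤ 9 := by
  rcases o with _ | a
  · simp [L_XCoB]
  · rw [L_XCoB, card_product]
    revert c a
    decide

theorem line_XCoB (a w x : P_XCoB) (h1 : a ≠ 0) (h2 : w ≠ 0) (h3 : a.1 * w.1 + a.2 * w.2 = 0)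
    (h4 : x.1 * w.1 + x.2 * w.2 = 0) : x = 0 ∨ x = a ∨ x = -a := by
  have : ∀ a w x : P_XCoB, a = 0 ∨ w = 0 ∨ a.1 * w.1 + a.2 * w.2 ≠ 0 ∨
      x.1 * w.1 + x.2 * w.2 ≠ 0 ∨ x = 0 ∨ x = a ∨ x = -a := by decide
  have := this a w x
  tauto

theorem cls_XCoB {ι : Type} (S : Finset ι) (c : P_XCoB) (y x : ι → P_XCoB)
    (h : ∀ i ∈ S, ∀ j ∈ S, (x j).1 * ((y i).1 - c.1) + (x j).2 * ((y i).2 - c.2) = 0) :
    ∃ o, ∀ j ∈ S, (y j, x j) ∈ L_XCoB c o := by
  by_cases h1 : ∀ j ∈ S, y j = c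
  · exact ⟨none, fun j hj => by simp [L_XCoB, h1 j hj]⟩
  by_cases h2 : ∀ j ∈ S, x j = 0
  · exact ⟨some 0, fun j hj => by simp [L_XCoB, h2 j hj]⟩
  push Not at h1 h2
  obtain ⟨i₀, hi, h1⟩ := h1
  obtain ⟨j₀, hj, h2⟩ := h2
  refine ⟨some (x j₀), fun j hj' => ?_⟩
  rw [L_XCoB, mem_product, mem_filter, mem_insert, mem_insert, mem_singleton]
  exact ⟨⟨mem_univ _, h j hj' j₀ hj⟩, line_XCoB (x j₀) (y i₀ - c) (x j) h2 (sub_ne_zero.2 h1)
    (h i₀ hi j₀ hj) (h i₀ hi j hj')⟩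

/-- the boxes -/
def box_XCoB {d : ℕ} (lv : Fin d → ℕ) (sp : Fin d → Bool) (k : P_XCoB × Option P_XCoB) :
    Finset (Fin d → P_XCoB × P_XCoB) :=
  Fintype.piFinset fun j => if lv j < 2 then univ else if sp j = true then L_XCoB k.1 k.2
    else L_XCoB k.1 none

theorem cbox_XCoB {d : ℕ} (lv : Fin d → ℕ) (sp : Fin d → Bool) (k : P_XCoB × Option P_XCoB) :
    (box_XCoB lv sp k).card ≤
      9 ^ (Bn lv sp true).card * 9 ^ (Bn lv sp false).card * 81 ^ (Ex0 lv).card := by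
  rw [box_XCoB, Fintype.card_piFinset, ← prod_const, ← prod_const, ← prod_const, Bn, Bn, Ex0,
    prod_filter, prod_filter, prod_filter, ← prod_mul_distrib, ← prod_mul_distrib]
  refine prod_le_prod' fun j _ => ?_
  by_cases h1 : lv j < 2
  · simp [h1, not_le.2 h1]
  · cases h2 : sp j
    · simpa [h1, not_lt.1 h1] using card_XCoB k.1 none
    · simpa [h1, not_lt.1 h1] using card_XCoB k.1 k.2

theorem x_CoB : CoB := by
  classical
  intro d lv sp ⟨i₀, hi⟩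
  refine le_trans (Set.ncard_le_ncard_of_injOn
    (t := ((univ.biUnion (box_XCoB lv sp) : Finset _) : Set (Fin d → P_XCoB × P_XCoB)))
    (fun p j => ((p.1.1 j, p.1.2 j), (p.2.1 j, p.2.2 j))) ?_ ?_ (Finset.finite_toSet _)) ?_
  · rintro p ⟨h1, h2⟩
    obtain ⟨o, ho⟩ := cls_XCoB (Bn lv sp true) (p.1.1 i₀, p.1.2 i₀) (fun j => (p.1.1 j, p.1.2 j))
      (fun j => (p.2.1 j, p.2.2 j)) fun i h j hj => by
        have a1 := h2 i (mem_union_right _ h) j hj
        have a2 := h2 i₀ (mem_union_left _ hi) j hj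
        linear_combination a1 - a2
    refine mem_coe.2 (mem_biUnion.2 ⟨((p.1.1 i₀, p.1.2 i₀), o), mem_univ _,
      Fintype.mem_piFinset.2 fun j => ?_⟩)
    split_ifs with a1 a2
    · exact mem_univ _
    · exact ho j (mem_filter.2 ⟨mem_univ _, not_lt.1 a1, a2⟩)
    · obtain ⟨b1, b2⟩ := h1 j (mem_filter.2 ⟨mem_univ _, not_lt.1 a1, by simpa using a2⟩) i₀ hi
      simp [L_XCoB, b1, b2]
  · intro p _ q _ e
    have h := fun j => congrFun e j
    simp only [Prod.mk.injEq] at h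
    exact Prod.ext (Prod.ext (funext fun j => (h j).1.1) (funext fun j => (h j).1.2))
      (Prod.ext (funext fun j => (h j).2.1) (funext fun j => (h j).2.2))
  · rw [Set.ncard_coe_finset]
    refine (card_biUnion_le_card_mul _ _ _ fun k _ => cbox_XCoB lv sp k).trans ?_
    rw [mul_assoc 100, mul_assoc 100]
    exact Nat.mul_le_mul_right _ (by simp)

end Pool.Agent.MP_e23604_nt.T
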