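import Pool.Agent.MP_e23604_nt.BLocB
import Pool.Agent.Mg.Fe23604m.G5224b9
import Pool.Agent.MP_e23604_nt.BValA
import Pool.Agent.MP_e23604_nt.BBase
import Pool.Agent.Mg.Fe23604m.G4d6502
import Mathlib.RingTheory.Algebraic.Integral

set_option linter.all false

section

/-!
Split multiplicative reduction: inertia fixes eigenvectors of order p.
-/

open WeierstrassCurve

namespace Pool.Agent.MP_e23604_nt.B

variable {F : Type} [Field F] [DecidableEq F] {v : AbsoluteValue F ℝ}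

section val

variable {c d : F} {r : ℝ}

omit [DecidableEq F] in
theorem blocc_add_le (hv : IsNonarchimedean v) (h1 : v c ≤ r) (h2 : v d ≤ r) : v (c + d) ≤ r :=
  (hv c d).trans (max_le h1 h2)

omit [DecidableEq F] in
theorem blocc_add_lt (hv : IsNonarchimedean v) (h1 : v c < r) (h2 : v d < r) : v (c + d) < r :=
  (hv c d).trans_lt (max_lt h1 h2)

omit [DecidableEq F] in
theorem blocc_sub_le (hv : IsNonarchimedean v) (h1 : v c ≤ r) (h2 : v d ≤ r) : v (c - d) ≤ r := by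
  rw [sub_eq_add_neg]
  exact blocc_add_le hv h1 (by rwa [v.map_neg])

omit [DecidableEq F] in
theorem blocc_sub_lt (hv : IsNonarchimedean v) (h1 : v c < r) (h2 : v d < r) : v (c - d) < r := by
  rw [sub_eq_add_neg]
  exact blocc_add_lt hv h1 (by rwa [v.map_neg])

omit [DecidableEq F] in
theorem blocc_mul_le (h1 : v c ≤ 1) (h2 : v d ≤ r) : v (c * d) ≤ r := by
  rw [v.map_mul]
  exact (mul_le_of_le_one_left (v.nonneg _) h1).trans h2

omit [DecidableEq F] in
theorem blocc_mul_lt (h1 : v c ≤ 1) (h2 : v d < r) : v (c * d) < r :=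
  (blocc_mul_le h1 le_rfl).trans_lt h2

omit [DecidableEq F] in
theorem blocc_add_eq (hv : IsNonarchimedean v) (h : v d < v c) : v (c + d) = v c := by
  refine le_antisymm (blocc_add_le hv le_rfl h.le) (not_lt.1 fun h1 => ?_)
  have := blocc_sub_lt hv h1 h
  rw [add_sub_cancel_right] at this
  exact lt_irrefl _ this

omit [DecidableEq F] in
theorem blocc_small (h : v (c * d) ≤ 1) (hc : 1 < v c) : v d < 1 := by
  rw [v.map_mul] at h
  by_contra h1
  nlinarith

end val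

variable {a b : F}

/-- The point reduces to the node. -/
def BloccNode (v : AbsoluteValue F ℝ) {W : WeierstrassCurve F} : W.toAffine.Point → Prop
  | .zero => False
  | .some x y _ => v x < 1 ∧ v y < 1

theorem blocc_slope {x₁ y₁ x₂ y₂ : F}
    (h₁ : (⟨1, 0, 0, a, b⟩ : WeierstrassCurve F).toAffine.Equation x₁ y₁)
    (h₂ : (⟨1, 0, 0, a, b⟩ : WeierstrassCurve F).toAffine.Equation x₂ y₂)
    (hxy : ¬(x₁ = x₂ ∧ y₁ = (⟨1, 0, 0, a, b⟩ : WeierstrassCurve F).toAffine.negY x₂ y₂)) {l : F}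
    (hl : l = (⟨1, 0, 0, a, b⟩ : WeierstrassCurve F).toAffine.slope x₁ x₂ y₁ y₂) :
    l * (x₁ - x₂) = y₁ - y₂ ∧ l * (y₁ + y₂ + x₁) = x₁ ^ 2 + x₁ * x₂ + x₂ ^ 2 + a - y₂ := by
  by_cases hx : x₁ = x₂
  · have hy := fun h => hxy ⟨hx, h⟩
    have hy' := Affine.Y_eq_of_Y_ne h₁ h₂ hx hy
    subst hx hy'
    rw [Affine.slope_of_Y_ne rfl hy, eq_div_iff (sub_ne_zero.2 hy)] at hl
    simp only [Affine.negY] at hl
    exact ⟨by ring, by linear_combination hl⟩
  · rw [Affine.slope_of_X_ne hx, eq_div_iff (sub_ne_zero.2 hx)] at hl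
    rw [Affine.equation_iff] at h₁ h₂
    simp only at h₁ h₂
    refine ⟨hl, mul_right_cancel₀ (sub_ne_zero.2 hx) ?_⟩
    linear_combination h₁ - h₂ + (y₁ + y₂ + x₁) * hl

omit [DecidableEq F] in
theorem blocc_intg (hab : v a ≤ v b) (hb : v b < 1) :
    Intg v (⟨1, 0, 0, a, b⟩ : WeierstrassCurve F) :=
  ⟨v.map_one.le, by simp, by simp, (hab.trans_lt hb).le, hb.le⟩

omit [DecidableEq F] in
theorem blocc_neg (hv : IsNonarchimedean v)
    {P : (⟨1, 0, 0, a, b⟩ : WeierstrassCurve F).toAffine.Point} (h : BloccNode v (-P)) :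
    BloccNode v P := by
  rcases P with _ | ⟨x, y, h'⟩
  · exact h
  · obtain ⟨h1, h2⟩ := h
    refine ⟨h1, ?_⟩
    have h3 := blocc_add_lt hv h2 h1
    simp only [Affine.negY] at h3
    rwa [show -y - 1 * x - 0 + x = -y by ring, v.map_neg] at h3

omit [DecidableEq F] in
theorem blocc_E1 {W : WeierstrassCurve F} {P : W.toAffine.Point} (h : E1 v P) :
    ¬BloccNode v P := by
  rcases P with _ | ⟨x, y, h'⟩
  · exact id
  · exact fun h1 => lt_asymm h h1.1

theorem blocc_int_add (hv : IsNonarchimedean v) (hab : v a ≤ v b) (hb : v b < 1)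
    {x₁ y₁ x₂ y₂ : F} (h₁ : (⟨1, 0, 0, a, b⟩ : WeierstrassCurve F).toAffine.Nonsingular x₁ y₁)
    (h₂ : (⟨1, 0, 0, a, b⟩ : WeierstrassCurve F).toAffine.Nonsingular x₂ y₂) (i₁ : v x₁ ≤ 1)
    (i₂ : v x₂ ≤ 1) (h : BloccNode v (Affine.Point.some x₁ y₁ h₁ + Affine.Point.some x₂ y₂ h₂)) :
    (v x₁ < 1 ∧ v y₁ < 1) ∨ (v x₂ < 1 ∧ v y₂ < 1) := by
  by_cases hxy : x₁ = x₂ ∧ y₁ = (⟨1, 0, 0, a, b⟩ : WeierstrassCurve F).toAffine.negY x₂ y₂
  · rw [Affine.Point.add_of_Y_eq hxy.1 hxy.2] at h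
    exact h.elim
  rw [Affine.Point.add_some hxy] at h
  obtain ⟨hA, hB⟩ := blocc_slope h₁.1 h₂.1 hxy rfl
  obtain ⟨n1, n2⟩ := h
  simp only [Affine.addY, Affine.negY, Affine.negAddY, Affine.addX] at n1 n2
  generalize (⟨1, 0, 0, a, b⟩ : WeierstrassCurve F).toAffine.slope x₁ x₂ y₁ y₂ = l at *
  obtain ⟨z, hz⟩ : ∃ z, z = l ^ 2 + 1 * l - 0 - x₁ - x₂ := ⟨_, rfl⟩
  rw [← hz] at n1 n2
  have hl : v l ≤ 1 := by
    by_contra hl
    have h1 : v (l * (l + 1)) ≤ 1 := by
      rw [show l * (l + 1) = z + x₁ + x₂ by rw [hz]; ring]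
      exact blocc_add_le hv (blocc_add_le hv n1.le i₁) i₂
    have h2 := blocc_small h1 (not_le.1 hl)
    rw [blocc_add_eq hv (by rw [v.map_one]; exact not_le.1 hl)] at h2
    exact hl h2.le
  have hm : v (y₁ - l * x₁) < 1 := by
    have h1 := blocc_add_lt hv (blocc_add_lt hv n2 n1) (blocc_mul_lt hl n1)
    rwa [show -(l * (z - x₁) + y₁) - 1 * z - 0 + z + l * z = -(y₁ - l * x₁) by ring,
      v.map_neg] at h1
  have hx : v (x₁ * x₂) < 1 := by
    rw [show x₁ * x₂ = a - (l + l + 1) * (y₁ - l * x₁) - (x₁ + x₂) * z by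
      rw [hz]; linear_combination hB - (l + 1) * hA]
    exact blocc_sub_lt hv (blocc_sub_lt hv (hab.trans_lt hb) (blocc_mul_lt
      (blocc_add_le hv (blocc_add_le hv hl hl) v.map_one.le) hm))
      (blocc_mul_lt (blocc_add_le hv i₁ i₂) n1)
  by_cases h1 : v x₁ < 1
  · refine Or.inl ⟨h1, ?_⟩
    rw [show y₁ = y₁ - l * x₁ + l * x₁ by ring]
    exact blocc_add_lt hv hm (blocc_mul_lt hl h1)
  · have h2 : v x₂ < 1 := by
      rwa [v.map_mul, le_antisymm i₁ (not_lt.1 h1), one_mul] at hx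
    refine Or.inr ⟨h2, ?_⟩
    rw [show y₂ = y₁ - l * x₁ + l * x₂ by linear_combination hA]
    exact blocc_add_lt hv hm (blocc_mul_lt hl h2)

theorem blocc_node_add (hv : IsNonarchimedean v) (hab : v a ≤ v b) (hb : v b < 1)
    {x₁ y₁ x₂ y₂ : F} (h₁ : (⟨1, 0, 0, a, b⟩ : WeierstrassCurve F).toAffine.Nonsingular x₁ y₁)
    (h₂ : (⟨1, 0, 0, a, b⟩ : WeierstrassCurve F).toAffine.Nonsingular x₂ y₂) (n₁ : v x₁ < 1)
    (n₂ : v y₁ < 1) (i₂ : v x₂ ≤ 1)
    (h : E1 v (Affine.Point.some x₁ y₁ h₁ + Affine.Point.some x₂ y₂ h₂)) :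
    v x₂ < 1 ∧ v y₂ < 1 := by
  by_cases hxy : x₁ = x₂ ∧ y₁ = (⟨1, 0, 0, a, b⟩ : WeierstrassCurve F).toAffine.negY x₂ y₂
  · obtain ⟨rfl, h2⟩ := hxy
    simp only [Affine.negY] at h2
    refine ⟨n₁, ?_⟩
    rw [show y₂ = -(y₁ + x₁) by linear_combination h2, v.map_neg]
    exact blocc_add_lt hv n₂ n₁
  rw [Affine.Point.add_some hxy, E1_some] at h
  obtain ⟨hA, hB⟩ := blocc_slope h₁.1 h₂.1 hxy rfl
  simp only [Affine.addX] at h
  generalize (⟨1, 0, 0, a, b⟩ : WeierstrassCurve F).toAffine.slope x₁ x₂ y₁ y₂ = l at *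
  have j₂ := y_le hv (blocc_intg hab hb) h₂.1 i₂
  have hl : 1 < v l := by
    by_contra hl
    rw [not_lt] at hl
    rw [show l ^ 2 + 1 * l - 0 - x₁ - x₂ = l * l + l - x₁ - x₂ by ring] at h
    exact absurd h (not_lt.2 (blocc_sub_le hv (blocc_sub_le hv
      (blocc_add_le hv (blocc_mul_le hl hl) hl) n₁.le) i₂))
  have h1 : v (x₁ - x₂) < 1 := blocc_small (by rw [hA]; exact blocc_sub_le hv n₂.le j₂) hl
  have h2 : v (y₁ + y₂ + x₁) < 1 := blocc_small (by
    rw [hB, pow_two, pow_two]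
    exact blocc_sub_le hv (blocc_add_le hv (blocc_add_le hv (blocc_add_le hv
      (blocc_mul_le n₁.le n₁.le) (blocc_mul_le n₁.le i₂)) (blocc_mul_le i₂ i₂))
      (hab.trans hb.le)) j₂) hl
  constructor
  · rw [show x₂ = x₁ - (x₁ - x₂) by ring]
    exact blocc_sub_lt hv n₁ h1
  · rw [show y₂ = y₁ + y₂ + x₁ - x₁ - y₁ by ring]
    exact blocc_sub_lt hv (blocc_sub_lt hv h2 n₁) n₂

theorem blocc_mixed (hv : IsNonarchimedean v) (hab : v a ≤ v b) (hb : v b < 1)
    {P : (⟨1, 0, 0, a, b⟩ : WeierstrassCurve F).toAffine.Point} (hP : E1 v P) {x₂ y₂ : F}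
    (h₂ : (⟨1, 0, 0, a, b⟩ : WeierstrassCurve F).toAffine.Nonsingular x₂ y₂) (i₂ : v x₂ ≤ 1)
    (h : BloccNode v (P + Affine.Point.some x₂ y₂ h₂)) :
    BloccNode v (Affine.Point.some x₂ y₂ h₂) := by
  have e : P = (P + Affine.Point.some x₂ y₂ h₂) + -Affine.Point.some x₂ y₂ h₂ := by abel
  generalize P + Affine.Point.some x₂ y₂ h₂ = R at h e
  rcases R with _ | ⟨x₁, y₁, h₁⟩
  · exact h.elim
  · rw [e, Affine.Point.neg_some] at hP
    exact blocc_neg hv (blocc_node_add hv hab hb _ _ h.1 h.2 i₂ hP)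

/-- The points with nonsingular reduction. -/
def bloccE0 (hv : IsNonarchimedean v) (hab : v a ≤ v b) (hb : v b < 1) :
    AddSubgroup (⟨1, 0, 0, a, b⟩ : WeierstrassCurve F).toAffine.Point where
  carrier := {P | ¬BloccNode v P}
  zero_mem' := id
  neg_mem' := fun h h' => h (blocc_neg hv h')
  add_mem' := by
    rintro (_ | ⟨x₁, y₁, h₁⟩) Q hP hQ h
    · exact hQ (by rwa [← Affine.Point.zero_def, zero_add] at h)
    rcases Q with _ | ⟨x₂, y₂, h₂⟩
    · exact hP (by rwa [← Affine.Point.zero_def, add_zero] at h)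
    rcases le_or_gt (v x₁) 1 with i₁ | i₁ <;> rcases le_or_gt (v x₂) 1 with i₂ | i₂
    · exact (blocc_int_add hv hab hb h₁ h₂ i₁ i₂ h).elim hP hQ
    · rw [add_comm] at h
      exact hP (blocc_mixed hv hab hb ((E1_some v h₂).2 i₂) h₁ i₁ h)
    · exact hQ (blocc_mixed hv hab hb ((E1_some v h₁).2 i₁) h₂ i₂ h)
    · exact blocc_E1 (E1_add hv (blocc_intg hab hb) ((E1_some v h₁).2 i₁)
        ((E1_some v h₂).2 i₂)).1 h

end Pool.Agent.MP_e23604_nt.B

end

section

/-!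
Inertia away from p acts on eigenvectors of order p through a bounded power.
-/

open WeierstrassCurve
open scoped Classical

namespace Pool.Agent.MP_e23604_nt.B

section val

variable {F : Type} [Field F] {v : AbsoluteValue F ℝ}

end val

instance BBad_ell (W : WeierstrassCurve ℚ) [W.IsElliptic] : (W.baseChange Qb).IsElliptic :=
  inferInstanceAs (W.map (algebraMap ℚ Qb)).IsElliptic

end Pool.Agent.MP_e23604_nt.B

end

section

/-!
An upper bound for the different of a Galois extension.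
-/

open NumberField Module

namespace Pool.Agent.MP_e23604_nt.B

theorem bdiff_bot {L : Type} [Field L] [NumberField L] (Q : Ideal (𝓞 L)) [h : Q.IsMaximal] :
    Q ≠ ⊥ := Ring.ne_bot_of_isMaximal_of_not_isField h (RingOfIntegers.not_isField L)

theorem bdiff_idx (K L : Type) [Field K] [NumberField K] [Field L] [NumberField L] [Algebra K L]
    (G : Type) [Group G] [Finite G] [MulSemiringAction G (𝓞 L)] [IsGaloisGroup G (𝓞 K) (𝓞 L)]
    (Q : Ideal (𝓞 L)) [Q.IsMaximal] : Nat.card (Q.inertia G) = Q.ramificationIdx (𝓞 K) := by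
  rw [Ideal.card_inertia_eq_ramificationIdxIn (Q.under (𝓞 K)) Q,
    Ideal.ramificationIdxIn_eq_ramificationIdx _ Q G]

theorem bdiff_mult (K L : Type) [Field K] [NumberField K] [Field L] [NumberField L] [Algebra K L]
    (Q : Ideal (𝓞 L)) [Q.IsMaximal] : Q.ramificationIdx (𝓞 K) =
      multiplicity Q ((Q.under (𝓞 K)).map (algebraMap (𝓞 K) (𝓞 L))) :=
  Ideal.IsDedekindDomain.ramificationIdx_eq_multiplicity _ Q
    (Ideal.map_ne_bot_of_ne_bot (bdiff_bot _))

theorem bdiff_fin {L : Type} [Field L] [NumberField L] (Q : Ideal (𝓞 L)) [h : Q.IsMaximal]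
    {I : Ideal (𝓞 L)} (hI : I ≠ ⊥) : FiniteMultiplicity Q I :=
  FiniteMultiplicity.of_not_isUnit (fun hu => h.ne_top (Ideal.isUnit_iff.1 hu)) hI

variable (K L : Type) [Field K] [NumberField K] [Field L] [NumberField L] [Algebra K L]
  [IsGalois K L] (Q : Ideal (𝓞 L)) [Q.IsMaximal]

theorem ram_card : ¬ Q ^ (Nat.card (Q.inertia Gal(L/K)) + 1) ∣
    (Q.under (𝓞 K)).map (algebraMap (𝓞 K) (𝓞 L)) := by
  rw [bdiff_idx K L, bdiff_mult K L]
  exact (bdiff_fin Q (Ideal.map_ne_bot_of_ne_bot (bdiff_bot _))).not_pow_dvd_of_multiplicity_lt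
    (Nat.lt_succ_self _)

theorem ram_card' : Q ^ Nat.card (Q.inertia Gal(L/K)) ∣
    (Q.under (𝓞 K)).map (algebraMap (𝓞 K) (𝓞 L)) := by
  rw [bdiff_idx K L, bdiff_mult K L]
  exact pow_multiplicity_dvd _ _

theorem diff_bound (k : ℕ) (hk : Q ^ k ∣ differentIdeal (𝓞 K) (𝓞 L)) :
    Q ^ (k + 1) ∣ Ideal.span {(Nat.card (Q.inertia Gal(L/K)) : 𝓞 L)} *
      (Q.under (𝓞 K)).map (algebraMap (𝓞 K) (𝓞 L)) := by
  let E : IntermediateField K L := FixedPoints.intermediateField (Q.inertia Gal(L/K))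
  have g0 : IsGaloisGroup (Q.inertia Gal(L/K)) E L := IsGaloisGroup.subgroup Gal(L/K) K L _
  have g1 : IsGaloisGroup (Q.inertia Gal(L/K)) (𝓞 E) (𝓞 L) := .of_isFractionRing _ _ _ E L
  have hQ : Prime Q := Ideal.prime_of_isPrime (bdiff_bot Q) inferInstance
  set e := Nat.card (Q.inertia Gal(L/K)) with he
  have h1 : Q.ramificationIdx (𝓞 E) = e := by
    have : Q.inertia (Q.inertia Gal(L/K)) = ⊤ := eq_top_iff.2 fun σ _ => σ.2
    rw [← bdiff_idx E L (Q.inertia Gal(L/K)), this, Subgroup.card_top]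
  have h2 : (Q.under (𝓞 E)).ramificationIdx (𝓞 K) = 1 := by
    have := Ideal.ramificationIdx_tower (R := 𝓞 K) (Q.under (𝓞 E)) Q
    rwa [h1, ← bdiff_idx K L Gal(L/K), ← he, right_eq_mul₀ Nat.card_pos.ne'] at this
  have h3 : Q ^ k ∣ differentIdeal (𝓞 E) (𝓞 L) := by
    rw [differentIdeal_eq_differentIdeal_mul_differentIdeal (𝓞 K) (𝓞 E) (𝓞 L)] at hk
    refine hQ.pow_dvd_of_dvd_mul_right k (fun h => ?_) hk
    rw [Ideal.dvd_iff_le, Ideal.map_le_iff_le_comap, ← Ideal.dvd_iff_le] at h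
    exact not_dvd_differentIdeal_iff.2 (Ideal.ramificationIdx_eq_one_iff.1 h2) h
  have h4 : (Q.under (𝓞 E)).map (algebraMap (𝓞 E) (𝓞 L)) = Q ^ e := by
    have hb : (Q.under (𝓞 E)).map (algebraMap (𝓞 E) (𝓞 L)) ≠ ⊥ :=
      Ideal.map_ne_bot_of_ne_bot (bdiff_bot _)
    obtain ⟨J, hJ, h⟩ := Ideal.eq_prime_pow_mul_coprime hb Q
    rw [← Ideal.IsDedekindDomain.ramificationIdx_eq_normalizedFactors_count _ Q hb, h1] at h
    by_cases hT : J = ⊤
    · rw [h, hT, Ideal.mul_top]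
    obtain ⟨P, hP, hle⟩ := J.exists_le_maximal hT
    have hl : P.LiesOver (Q.under (𝓞 E)) := ⟨Ideal.IsMaximal.eq_of_le inferInstance
      (Ideal.comap_ne_top _ hP.ne_top) (Ideal.map_le_iff_le_comap.1
        (h ▸ Ideal.mul_le_right.trans hle))⟩
    obtain ⟨σ, hσ⟩ := Ideal.exists_smul_eq_of_isGaloisGroup (Q.under (𝓞 E)) Q P
      (Q.inertia Gal(L/K))
    have : Q = P := (Ideal.inertia_le_stabilizer Q σ.2).symm.trans hσ
    subst this
    exact absurd ((sup_eq_left.2 hle).symm.trans hJ) hP.ne_top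
  have hb : Ideal.span {(e : 𝓞 E)} ≠ ⊥ := by
    rw [Ne, Ideal.span_singleton_eq_bot, Nat.cast_eq_zero]
    exact Nat.card_pos.ne'
  set i := multiplicity (Q.under (𝓞 E)) (Ideal.span {(e : 𝓞 E)})
  have h5 : ¬ Q ^ (e * (i + 1)) ∣ differentIdeal (𝓞 E) (𝓞 L) := by
    refine not_dvd_differentIdeal_of_intTrace_not_mem (𝓞 E) (p := Q.under (𝓞 E) ^ (i + 1)) _ ⊤
      (by rw [Ideal.mul_top, Ideal.map_pow, h4, pow_mul]) 1 trivial ?_
    have : Algebra.intTrace (𝓞 E) (𝓞 L) 1 = e := by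
      apply IsFractionRing.injective (𝓞 E) E
      rw [Algebra.algebraMap_intTrace (L := L), map_one, map_natCast, he,
        IsGaloisGroup.card_eq_finrank (Q.inertia Gal(L/K)) E L, ← map_one (algebraMap E L),
        Algebra.trace_algebraMap, nsmul_one]
    rw [this, ← Ideal.dvd_span_singleton]
    exact (bdiff_fin _ hb).not_pow_dvd_of_multiplicity_lt (Nat.lt_succ_self _)
  have h6 : k + 1 ≤ e * i + e := by
    by_contra h
    exact h5 ((pow_dvd_pow Q (by rw [mul_add]; omega)).trans h3)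
  refine (pow_dvd_pow Q h6).trans ?_
  rw [pow_add]
  refine mul_dvd_mul ?_ (ram_card' K L Q)
  have h7 := _root_.map_dvd (Ideal.mapHom (algebraMap (𝓞 E) (𝓞 L)))
    (pow_multiplicity_dvd (Q.under (𝓞 E)) (Ideal.span {(e : 𝓞 E)}))
  simpa [Ideal.map_pow, h4, Ideal.map_span, ← pow_mul] using h7

end Pool.Agent.MP_e23604_nt.B

end

section

/-!
The discriminant bounds.
-/

open NumberField Module

namespace Pool.Agent.MP_e23604_nt.B

theorem BDisc_dvd {R : Type} [CommRing R] [IsDedekindDomain R] {I J X : Ideal R} (hI : I ≠ 0)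
    (hJ : J ≠ 0) (h : ∀ Q : Ideal R, Q.IsMaximal → ∀ i j, Q ^ i ∣ I → Q ^ j ∣ J → Q ^ (i + j) ∣ X) :
    I * J ∣ X := by
  refine (UniqueFactorizationMonoid.dvd_iff_emultiplicity_le (mul_ne_zero hI hJ)).2 fun Q hQ => ?_
  rw [emultiplicity_mul hQ, (FiniteMultiplicity.of_prime_left hQ hI).emultiplicity_eq_multiplicity,
    (FiniteMultiplicity.of_prime_left hQ hJ).emultiplicity_eq_multiplicity, ← Nat.cast_add]
  exact le_emultiplicity_of_pow_dvd (h Q ((Ideal.isPrime_of_prime hQ).isMaximal hQ.ne_zero) _ _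
    (pow_multiplicity_dvd _ _) (pow_multiplicity_dvd _ _))

theorem BDisc_tame (K L : Type) [Field K] [NumberField K] [Field L] [NumberField L] [Algebra K L]
    [IsGalois K L] (Q : Ideal (𝓞 L)) [hQ : Q.IsMaximal] {m i : ℕ}
    (hm : Nat.card (Q.inertia Gal(L/K)) ∣ m) (hm' : (m : 𝓞 L) ∉ Q)
    (hi : Q ^ i ∣ differentIdeal (𝓞 K) (𝓞 L)) : i + 1 ≤ Nat.card (Q.inertia Gal(L/K)) := by
  have hp : Prime Q := Ideal.prime_of_isPrime (RingOfIntegers.not_isField L |>
    Ring.ne_bot_of_isMaximal_of_not_isField hQ) hQ.isPrime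
  have h1 := hp.pow_dvd_of_dvd_mul_left _ (fun h => hm' (Ideal.mem_of_dvd _
    (Nat.cast_dvd_cast hm) (Ideal.dvd_span_singleton.1 h))) (diff_bound K L Q i hi)
  by_contra h2
  exact ram_card K L Q ((pow_dvd_pow _ (by omega)).trans h1)

attribute [local instance] FractionRing.liftAlgebra in
theorem BDisc_core (K M L : Type) [Field K] [NumberField K] [Field M] [NumberField M] [Field L]
    [NumberField L] [Algebra K M] [Algebra K L] [Algebra M L] [IsScalarTower K M L] [IsGalois K L]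
    [IsCyclic Gal(L/K)] {c N₀ p : ℕ} (hc : c ≠ 0) (hN : N₀ ≠ 0) (hp : p.Prime) (hp2 : p ≠ 2)
    (hn : finrank K L = p - 1) (h2 : finrank M L = 2) (hK : finrank ℚ K = 2) (β : 𝓞 K)
    (ex : ∃ Q : Ideal (𝓞 L), Q.IsMaximal ∧ (p : 𝓞 L) ∈ Q ∧ algebraMap _ _ β ∈ Q)
    (in1 : ∀ Q : Ideal (𝓞 L), Q.IsMaximal → ∀ σ ∈ Q.inertia Gal(L/K),
      ((c * p : ℕ) : 𝓞 L) ∉ Q → σ = 1)
    (in2 : ∀ Q : Ideal (𝓞 L), Q.IsMaximal → ∀ σ ∈ Q.inertia Gal(L/K),
      (p : 𝓞 L) ∉ Q → σ ^ N₀ = 1)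
    (in3 : ∀ Q : Ideal (𝓞 L), Q.IsMaximal → ∀ σ ∈ Q.inertia Gal(L/K),
      (p : 𝓞 L) ∈ Q → algebraMap _ _ β ∈ Q → σ = 1) :
    (differentIdeal (𝓞 K) (𝓞 L)).absNorm * (differentIdeal (𝓞 M) (𝓞 L)).absNorm ≤
      ((N₀ * c) ^ 4 * p) ^ (p - 1) := by
  have := IsGalois.tower_top_of_isGalois K M L
  obtain ⟨Q₀, hQ₀, hp0, hβ0⟩ := ex
  have hm0 : (Q₀.under (𝓞 K)).IsMaximal := Ideal.IsMaximal.under (𝓞 K) Q₀
  obtain ⟨pb, hpb⟩ : Q₀.under (𝓞 K) ∣ Ideal.span {(p : 𝓞 K)} :=
    Ideal.dvd_span_singleton.2 (by simpa [Ideal.mem_comap] using hp0)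
  have hd : differentIdeal (𝓞 M) (𝓞 L) ∣ differentIdeal (𝓞 K) (𝓞 L) :=
    ⟨_, differentIdeal_eq_differentIdeal_mul_differentIdeal (𝓞 K) (𝓞 M) (𝓞 L)⟩
  have key : differentIdeal (𝓞 K) (𝓞 L) * differentIdeal (𝓞 M) (𝓞 L) ∣
      Ideal.span {((N₀ * c : ℕ) : 𝓞 L)} ^ 2 * pb.map (algebraMap (𝓞 K) (𝓞 L)) := by
    refine BDisc_dvd differentIdeal_ne_bot differentIdeal_ne_bot fun Q hQ i j hi hj => ?_
    have h0 : (∀ σ ∈ Q.inertia Gal(L/K), σ = 1) → Q ^ (i + j) ∣
        Ideal.span {((N₀ * c : ℕ) : 𝓞 L)} ^ 2 * pb.map (algebraMap (𝓞 K) (𝓞 L)) := fun h => by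
      have e1 : Nat.card (Q.inertia Gal(L/K)) = 1 :=
        Subgroup.card_eq_one.2 ((Subgroup.eq_bot_iff_forall _).2 h)
      have e2 : ((1 : ℕ) : 𝓞 L) ∉ Q := by simpa using (Ideal.ne_top_iff_one Q).1 hQ.ne_top
      have i0 := BDisc_tame K L Q e1.dvd e2 hi
      have j0 := BDisc_tame K L Q e1.dvd e2 (hj.trans hd)
      rw [show i + j = 0 by omega, pow_zero]
      exact one_dvd _
    by_cases hpQ : (p : 𝓞 L) ∈ Q
    · by_cases hβ : algebraMap _ _ β ∈ Q
      · exact h0 fun σ hσ => in3 Q hQ σ hσ hpQ hβ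
      · have e2 : ((p - 1 : ℕ) : 𝓞 L) ∉ Q := fun h => (Ideal.ne_top_iff_one Q).1 hQ.ne_top (by
          simpa [Nat.cast_sub hp.one_le] using Q.sub_mem hpQ h)
        have e3 : Nat.card (Q.inertia Gal(L/K)) ∣ p - 1 := by
          rw [← hn, ← IsGalois.card_aut_eq_finrank]
          exact Subgroup.card_subgroup_dvd_card _
        have e4 : Nat.card (Q.inertia Gal(L/M)) ∣ 2 := by
          rw [← h2, ← IsGalois.card_aut_eq_finrank]
          exact Subgroup.card_subgroup_dvd_card _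
        have i0 := BDisc_tame K L Q e3 e2 hi
        have j0 := (BDisc_tame M L Q (e4.trans (hp.even_sub_one hp2).two_dvd) e2 hj).trans
          (Nat.le_of_dvd two_pos e4)
        have hm : (Q.under (𝓞 K)).IsMaximal := Ideal.IsMaximal.under (𝓞 K) Q
        have e5 : pb ≤ Q.under (𝓞 K) := by
          have e6 : Q₀.under (𝓞 K) * pb ≤ Q.under (𝓞 K) := by
            rw [← hpb, Ideal.span_singleton_le_iff_mem]
            simpa [Ideal.mem_comap] using hpQ
          refine (hm.isPrime.mul_le.1 e6).resolve_left fun h => hβ (h hβ0)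
        exact ((pow_dvd_pow _ (by omega)).trans ((ram_card' K L Q).trans
          (Ideal.dvd_iff_le.2 (Ideal.map_mono e5)))).mul_left _
    · by_cases hcQ : (c : 𝓞 L) ∈ Q
      · have e1 : Nat.card (Q.inertia Gal(L/K)) ∣ N₀ := by
          rw [← IsCyclic.exponent_eq_card]
          exact Monoid.exponent_dvd_of_forall_pow_eq_one fun σ =>
            Subtype.ext (in2 Q hQ σ.1 σ.2 hpQ)
        have e2 : ∀ k, Q ^ k ∣ differentIdeal (𝓞 K) (𝓞 L) →
            Q ^ k ∣ Ideal.span {((N₀ * c : ℕ) : 𝓞 L)} := fun k hk => by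
          refine (pow_dvd_pow _ k.le_succ).trans ((diff_bound K L Q k hk).trans ?_)
          rw [Nat.cast_mul, ← Ideal.span_singleton_mul_span_singleton]
          refine mul_dvd_mul (Ideal.dvd_span_singleton.2 (Ideal.mem_span_singleton.2
            (Nat.cast_dvd_cast e1))) (Ideal.dvd_span_singleton.2 ?_)
          rw [← map_natCast (algebraMap (𝓞 K) (𝓞 L))]
          exact Ideal.mem_map_of_mem _ (by simpa [Ideal.mem_comap] using hcQ)
        rw [pow_add, sq]
        exact (mul_dvd_mul (e2 i hi) (e2 j (hj.trans hd))).mul_right _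
      · exact h0 fun σ hσ => in1 Q hQ σ hσ fun h =>
          (hQ.isPrime.mem_or_mem (by simpa using h)).elim hcQ hpQ
  have n1 : (Q₀.under (𝓞 K)).absNorm * pb.absNorm = p ^ 2 := by
    rw [← map_mul, ← hpb, Ideal.absNorm_span_natCast, RingOfIntegers.rank, hK]
  have n2 : pb.absNorm ≤ p ∧ pb.absNorm ≠ 0 := by
    obtain ⟨k, hk, e⟩ := (Nat.dvd_prime_pow hp).1 (Dvd.intro_left _ n1)
    have k2 : k ≠ 2 := fun h => hm0.ne_top (Ideal.absNorm_eq_one_iff.1
      (mul_right_cancel₀ (pow_ne_zero 2 hp.ne_zero) (by rw [one_mul, ← h, ← e, n1, e, h])))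
    rw [e]
    exact ⟨(Nat.pow_le_pow_right hp.pos (show k ≤ 1 by omega)).trans (pow_one p).le,
      pow_ne_zero _ hp.ne_zero⟩
  have n3 := map_dvd Ideal.absNorm key
  rw [map_mul, map_mul, map_pow, Ideal.absNorm_span_natCast, Ideal.absNorm_algebraMap,
    ← IsFractionRing.finrank_eq (𝓞 K) K (𝓞 L) L, hn, RingOfIntegers.rank,
    ← finrank_mul_finrank ℚ K L, hK, hn] at n3
  refine (Nat.le_of_dvd (by have := n2.2; positivity) n3).trans ?_
  rw [mul_pow _ p, ← pow_mul, ← pow_mul, show 2 * (p - 1) * 2 = 4 * (p - 1) by ring]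
  exact Nat.mul_le_mul_left _ (Nat.pow_le_pow_left n2.1 _)

end Pool.Agent.MP_e23604_nt.B

end

section

/-!
The root discriminant of the division field.
-/

open NumberField Module

namespace Pool.Agent.MP_e23604_nt.B

theorem GDisc_dvd {R : Type} [CommRing R] [IsDedekindDomain R] {I X : Ideal R} {n : ℕ}
    (hI : I ≠ 0) (h : ∀ Q : Ideal R, Q.IsMaximal → ∀ i, Q ^ i ∣ I → Q ^ (n * i) ∣ X) :
    I ^ n ∣ X := by
  refine (UniqueFactorizationMonoid.dvd_iff_emultiplicity_le (pow_ne_zero n hI)).2 fun Q hQ => ?_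
  rw [emultiplicity_pow hQ, (FiniteMultiplicity.of_prime_left hQ hI).emultiplicity_eq_multiplicity,
    ← Nat.cast_mul]
  exact le_emultiplicity_of_pow_dvd (h Q ((Ideal.isPrime_of_prime hQ).isMaximal hQ.ne_zero) _
    (pow_multiplicity_dvd _ _))

theorem GDisc_under (M : Type) [Field M] [NumberField M] (Q : Ideal (𝓞 M)) {m : ℕ}
    (hm : (m : 𝓞 M) ∈ Q) :
    (Q.under (𝓞 ℚ)).map (algebraMap (𝓞 ℚ) (𝓞 M)) ∣ Ideal.span {(m : 𝓞 M)} := by
  refine Ideal.dvd_span_singleton.2 ?_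
  rw [← map_natCast (algebraMap (𝓞 ℚ) (𝓞 M))]
  exact Ideal.mem_map_of_mem _ (by simpa [Ideal.mem_comap] using hm)

end Pool.Agent.MP_e23604_nt.B

end

section

/-!
The relative discriminant of a quadratic extension.
-/

open NumberField Module

namespace Pool.Agent.MP_e23604_nt.B

theorem GRel_dvd {R : Type} [CommRing R] [IsDedekindDomain R] {I X : Ideal R} (hI : I ≠ 0) (m : ℕ)
    (h : ∀ Q : Ideal R, Q.IsMaximal → ∀ i, Q ^ i ∣ I → (Q ^ i) ^ m ∣ X) : I ^ m ∣ X := by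
  refine (UniqueFactorizationMonoid.dvd_iff_emultiplicity_le (pow_ne_zero m hI)).2 fun Q hQ => ?_
  rw [emultiplicity_pow hQ, (FiniteMultiplicity.of_prime_left hQ hI).emultiplicity_eq_multiplicity,
    ← Nat.cast_mul, mul_comm]
  refine le_emultiplicity_of_pow_dvd ?_
  rw [pow_mul]
  exact h Q ((Ideal.isPrime_of_prime hQ).isMaximal hQ.ne_zero) _ (pow_multiplicity_dvd _ _)

theorem GRel_core (M L : Type) [Field M] [NumberField M] [Field L] [NumberField L] [Algebra M L]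
    [IsGalois M L] {c p : ℕ} (hc : c ≠ 0) (hp : p.Prime) (hp2 : p ≠ 2) (h2 : finrank M L = 2)
    (h1 : ∀ Q : Ideal (𝓞 L), Q.IsMaximal → ∀ σ ∈ Q.inertia Gal(L/M), σ ≠ 1 →
      (c : 𝓞 L) ∈ Q ∨ Q ^ (p - 1) ∣ Ideal.span {(p : 𝓞 L)}) :
    (differentIdeal (𝓞 M) (𝓞 L)).absNorm ≤ (4 * c) ^ finrank ℚ L := by
  have hp1 : 0 < p - 1 := by have := hp.two_le; omega
  have key : differentIdeal (𝓞 M) (𝓞 L) ^ (p - 1) ∣
      Ideal.span {((2 * c : ℕ) : 𝓞 L)} ^ (p - 1) * Ideal.span {(p : 𝓞 L)} := by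
    refine GRel_dvd differentIdeal_ne_bot _ fun Q hQ i hi => ?_
    have e4 : Nat.card (Q.inertia Gal(L/M)) ∣ 2 := by
      rw [← h2, ← IsGalois.card_aut_eq_finrank]
      exact Subgroup.card_subgroup_dvd_card _
    by_cases h0 : ∀ σ ∈ Q.inertia Gal(L/M), σ = 1
    · have e1 : Nat.card (Q.inertia Gal(L/M)) = 1 :=
        Subgroup.card_eq_one.2 ((Subgroup.eq_bot_iff_forall _).2 h0)
      have e2 : ((1 : ℕ) : 𝓞 L) ∉ Q := by simpa using (Ideal.ne_top_iff_one Q).1 hQ.ne_top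
      have i0 := BDisc_tame M L Q e1.dvd e2 hi
      rw [show i = 0 by omega, pow_zero, one_pow]
      exact one_dvd _
    · push Not at h0
      obtain ⟨σ, hσ, hσ1⟩ := h0
      rcases h1 Q hQ σ hσ hσ1 with hcQ | hpQ
      · refine Dvd.dvd.mul_right (pow_dvd_pow_of_dvd ?_ _) _
        refine (pow_dvd_pow _ i.le_succ).trans ((diff_bound M L Q i hi).trans ?_)
        rw [Nat.cast_mul, ← Ideal.span_singleton_mul_span_singleton]
        refine mul_dvd_mul (Ideal.dvd_span_singleton.2 (Ideal.mem_span_singleton.2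
          (Nat.cast_dvd_cast e4))) (Ideal.dvd_span_singleton.2 ?_)
        rw [← map_natCast (algebraMap (𝓞 M) (𝓞 L))]
        exact Ideal.mem_map_of_mem _ (by simpa [Ideal.mem_comap] using hcQ)
      · have e1 : (p : 𝓞 L) ∈ Q :=
          Ideal.dvd_span_singleton.1 ((dvd_pow_self Q hp1.ne').trans hpQ)
        have e2 : ((p - 1 : ℕ) : 𝓞 L) ∉ Q := fun h => (Ideal.ne_top_iff_one Q).1 hQ.ne_top (by
          simpa [Nat.cast_sub hp.one_le] using Q.sub_mem e1 h)
        have j0 := (BDisc_tame M L Q (e4.trans (hp.even_sub_one hp2).two_dvd) e2 hi).trans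
          (Nat.le_of_dvd two_pos e4)
        refine Dvd.dvd.mul_left (Dvd.dvd.trans (pow_dvd_pow_of_dvd ?_ _) hpQ) _
        exact (pow_dvd_pow Q (show i ≤ 1 by omega)).trans (pow_one Q).dvd
  have n3 := map_dvd Ideal.absNorm key
  rw [map_mul, map_pow, map_pow, Ideal.absNorm_span_natCast, Ideal.absNorm_span_natCast,
    RingOfIntegers.rank] at n3
  have n4 : p ≤ 2 ^ (p - 1) := by
    have := Nat.lt_two_pow_self (n := p - 1)
    omega
  refine (Nat.pow_le_pow_iff_left hp1.ne').1 ((Nat.le_of_dvd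
    (by have := hp.pos; positivity) n3).trans ?_)
  refine (Nat.mul_le_mul_left _ (Nat.pow_le_pow_left n4 _)).trans (le_of_eq ?_)
  rw [← pow_mul 2, mul_comm (p - 1), pow_mul 2, ← mul_pow, ← mul_pow]
  congr 2
  ring

attribute [local instance] FractionRing.liftAlgebra in
theorem disc_rel (L : Type) [Field L] [NumberField L] (s : L ≃ₐ[ℚ] L) (hs : orderOf s = 2)
    {c p : ℕ} (hc : c ≠ 0) (hp : p.Prime) (h2 : p ≠ 2)
    (h1 : ∀ Q : Ideal (𝓞 L), Q.IsMaximal → (∀ x : 𝓞 L, s • x - x ∈ Q) →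
      (c : 𝓞 L) ∈ Q ∨ Q ^ (p - 1) ∣ Ideal.span {(p : 𝓞 L)}) :
    (discr L).natAbs ≤ (4 * c) ^ finrank ℚ L *
      (discr (IntermediateField.fixedField (Subgroup.zpowers s))).natAbs ^ 2 := by
  set M := IntermediateField.fixedField (Subgroup.zpowers s) with hM
  have : IsGalois M L := IsGalois.of_fixed_field L (Subgroup.zpowers s)
  let e := IntermediateField.subgroupEquivAlgEquiv (Subgroup.zpowers s)
  have hn : finrank M L = 2 := by
    rw [IntermediateField.finrank_fixedField_eq_card, Nat.card_zpowers, hs]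
  have hσ : ∀ σ : Gal(L/M), σ ≠ 1 → ∀ x : 𝓞 L, σ • x = s • x := fun σ h => by
    obtain ⟨⟨τ, hτ⟩, rfl⟩ := e.surjective σ
    obtain ⟨j, rfl⟩ := (Submonoid.mem_powers_iff _ _).1 (mem_powers_iff_mem_zpowers.2 hτ)
    have h3 : s ^ j = s := by
      rw [← pow_mod_orderOf, hs]
      rcases Nat.mod_two_eq_zero_or_one j with h4 | h4
      · refine absurd ?_ h
        rw [map_eq_one_iff _ e.injective]
        refine Subtype.ext ?_
        change s ^ j = 1
        rw [← pow_mod_orderOf, hs, h4, pow_zero]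
      · rw [h4, pow_one]
    intro x
    change (s ^ j) • x = s • x
    rw [h3]
  have key := GRel_core M L hc hp h2 hn fun Q hQ σ h3 h4 =>
    h1 Q hQ fun x => hσ σ h4 x ▸ h3 x
  rw [natAbs_discr_eq_absNorm_differentIdeal_mul_natAbs_discr_pow M (𝓞 M) L (𝓞 L), hn]
  exact Nat.mul_le_mul_right _ key

end Pool.Agent.MP_e23604_nt.B

end

section

/-!
Inertia away from p acts unipotently on E[p] over a fixed finite extension.
-/

open WeierstrassCurve
open scoped Classical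

namespace Pool.Agent.MP_e23604_nt.B

end Pool.Agent.MP_e23604_nt.B

end

section

open scoped Classical

namespace Pool.Agent.MP_e23604_nt.L

open B Module

section
variable {F : Type} [NormedAddCommGroup F] [InnerProductSpace ℝ F]

theorem fd_Lls {Λ : Submodule ℤ F} (h : Λ.FG) :
    FiniteDimensional ℝ (Submodule.span ℝ (Λ : Set F)) := by
  obtain ⟨s, rfl⟩ := h
  rw [Submodule.span_span_of_tower]
  infer_instance

theorem rank_Lls {Λ : Submodule ℤ F} (h : Λ.FG) (φ : F →ₗ[ℤ] F) {x : F} (hx : x ∈ Λ)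
    (h0 : x ≠ 0) (hφ : φ x = 0) : finrank ℤ (Λ.map φ) + 1 ≤ finrank ℤ Λ := by
  have : Module.Finite ℤ Λ := Module.Finite.iff_fg.2 h
  have : IsAddTorsionFree F := IsAddTorsionFree.of_isTorsionFree ℝ F
  have h1 := Submodule.finrank_quotient_add_finrank (LinearMap.ker (φ.domRestrict Λ))
  rw [(φ.domRestrict Λ).quotKerEquivRange.finrank_eq, LinearMap.range_domRestrict] at h1
  have : Nontrivial (LinearMap.ker (φ.domRestrict Λ)) :=
    ⟨⟨⟨x, hx⟩, hφ⟩, 0, fun e => h0 (congrArg (fun a => (a.1.1 : F)) e)⟩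
  have h2 : 0 < finrank ℤ (LinearMap.ker (φ.domRestrict Λ)) := Module.finrank_pos
  omega

theorem cov_Lls (h : MP_st) {μ R : ℝ} (hμ : 0 < μ) (d : ℕ) : ∀ Λ : Submodule ℤ F, Λ.FG →
    finrank ℝ (Submodule.span ℝ (Λ : Set F)) = d → finrank ℤ Λ ≤ d → (d : ℝ) ≤ R * μ →
    (∀ y ∈ Submodule.span ℝ (Λ : Set F), y ≠ 0 → (∀ z ∈ Λ, ∃ k : ℤ, inner ℝ y z = k) →
      μ ≤ ‖y‖) →
    ∀ z ∈ Submodule.span ℝ (Λ : Set F), ∃ x ∈ Λ, ‖z - x‖ ^ 2 ≤ d * R ^ 2 := by
  induction d with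
  | zero =>
    intro Λ hf hd _ _ _ z hz
    have := fd_Lls hf
    rw [Submodule.finrank_eq_zero.1 hd, Submodule.mem_bot] at hz
    exact ⟨0, Λ.zero_mem, by simp [hz]⟩
  | succ d ih =>
    intro Λ hf hd hr hR hdual z hz
    have := fd_Lls hf
    obtain ⟨x₀, hx₀, h0, y, hy, hy0, hyz, hxy⟩ := h F Λ (d + 1) hf hd hr (by omega)
    have hn : 0 < ‖x₀‖ := norm_pos_iff.2 h0
    have hxR : ‖x₀‖ ≤ R := le_of_mul_le_mul_right
      ((mul_le_mul_of_nonneg_left (hdual y hy hy0 hyz) hn.le).trans (hxy.trans hR)) hμ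
    obtain ⟨π, hπ⟩ : ∃ π : F →ₗ[ℝ] F, ∀ z, π z = z - (inner ℝ x₀ z / ‖x₀‖ ^ 2) • x₀ :=
      ⟨LinearMap.id - LinearMap.smulRight ((‖x₀‖ ^ 2)⁻¹ • innerₗ F x₀) x₀, fun z => by
        simp [div_eq_inv_mul]⟩
    have hx₀W : x₀ ∈ Submodule.span ℝ (Λ : Set F) := Submodule.subset_span hx₀
    have hperp : ∀ z, inner ℝ x₀ (π z) = 0 := fun z => by
      rw [hπ, inner_sub_right, inner_smul_right, real_inner_self_eq_norm_sq,
        div_mul_cancel₀ _ (by positivity), sub_self]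
    have hπ0 : π x₀ = 0 := by
      rw [hπ, real_inner_self_eq_norm_sq, div_self (by positivity), one_smul, sub_self]
    have hsp : Submodule.span ℝ ((Λ.map (π.restrictScalars ℤ) : Submodule ℤ F) : Set F) =
        (Submodule.span ℝ (Λ : Set F)).map π := by
      rw [Submodule.map_span]
      rfl
    have hle : (Submodule.span ℝ (Λ : Set F)).map π ≤ Submodule.span ℝ (Λ : Set F) := by
      rintro _ ⟨w, hw, rfl⟩
      rw [hπ]
      exact Submodule.sub_mem _ hw (Submodule.smul_mem _ _ hx₀W)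
    have hsup : (Submodule.span ℝ (Λ : Set F)).map π ⊔ (ℝ ∙ x₀) =
        Submodule.span ℝ (Λ : Set F) := by
      refine le_antisymm (sup_le hle ((Submodule.span_singleton_le_iff_mem _ _).2 hx₀W))
        fun w hw => ?_
      have e : w = π w + (inner ℝ x₀ w / ‖x₀‖ ^ 2) • x₀ := by rw [hπ, sub_add_cancel]
      rw [e]
      exact Submodule.add_mem_sup (Submodule.mem_map_of_mem hw)
        (Submodule.smul_mem _ _ (Submodule.mem_span_singleton_self x₀))
    have hinf : (Submodule.span ℝ (Λ : Set F)).map π ⊓ (ℝ ∙ x₀) = ⊥ := by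
      refine le_bot_iff.1 ?_
      rintro _ ⟨⟨w, -, rfl⟩, hw⟩
      obtain ⟨c, hc⟩ := Submodule.mem_span_singleton.1 hw
      have e := hperp w
      rw [← hc, inner_smul_right, real_inner_self_eq_norm_sq] at e
      rw [Submodule.mem_bot, ← hc, (mul_eq_zero.1 e).resolve_right (by positivity), zero_smul]
    have hd' := Submodule.finrank_sup_add_finrank_inf_eq
      ((Submodule.span ℝ (Λ : Set F)).map π) (ℝ ∙ x₀)
    rw [hsup, hinf, finrank_bot, finrank_span_singleton h0, hd, ← hsp] at hd'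
    have hr' := rank_Lls hf (π.restrictScalars ℤ) hx₀ h0 hπ0
    push_cast at hR
    obtain ⟨_, ⟨x₁, hx₁, rfl⟩, hb⟩ := ih (Λ.map (π.restrictScalars ℤ)) (hf.map _) (by omega)
      (by omega) (by linarith) (fun y hy hy0 hyz => by
        rw [hsp] at hy
        refine hdual y (hle hy) hy0 fun z hz => ?_
        obtain ⟨k, hk⟩ := hyz _ (Submodule.mem_map_of_mem hz)
        obtain ⟨w, -, rfl⟩ := hy
        refine ⟨k, Eq.trans ?_ hk⟩
        rw [LinearMap.restrictScalars_apply, hπ z, inner_sub_right, inner_smul_right,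
          real_inner_comm x₀ (π w), hperp, mul_zero, sub_zero])
      (π z) (hsp ▸ Submodule.mem_map_of_mem hz)
    rw [LinearMap.restrictScalars_apply, ← map_sub] at hb
    obtain ⟨t, ht⟩ : ∃ t, t = inner ℝ x₀ (z - x₁) / ‖x₀‖ ^ 2 := ⟨_, rfl⟩
    refine ⟨x₁ + round t • x₀, Λ.add_mem hx₁ (Λ.smul_mem _ hx₀), ?_⟩
    have e : z - (x₁ + round t • x₀) = π (z - x₁) + (t - round t) • x₀ := by
      rw [hπ, ← ht, sub_smul, Int.cast_smul_eq_zsmul]
      abel
    have e2 : ‖(t - round t) • x₀‖ ≤ R := by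
      rw [norm_smul, Real.norm_eq_abs]
      exact (mul_le_of_le_one_left hn.le ((abs_sub_round t).trans (by norm_num))).trans hxR
    have e3 := pow_le_pow_left₀ (norm_nonneg _) e2 2
    rw [e, norm_add_sq_real, inner_smul_right, real_inner_comm, hperp]
    push_cast
    linarith

end

theorem lls_st (h : MP_st) : LLS_st := by
  intro F _ _ Λ d μ hf hd hr hμ hdual w hw
  have := fd_Lls hf
  obtain ⟨U, hU⟩ : ∃ U, U = Submodule.span ℝ {x | x ∈ Λ ∧ ‖x‖ ≤ 3 * d ^ 2 / μ} := ⟨_, rfl⟩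
  have hle : U ≤ Submodule.span ℝ (Λ : Set F) := hU ▸ Submodule.span_mono fun x hx => hx.1
  have : FiniteDimensional ℝ U := Submodule.finiteDimensional_of_le hle
  rw [← hU]
  obtain ⟨u, hu, v, hv, e⟩ := U.exists_add_mem_mem_orthogonal w
  by_cases hv0 : v = 0
  · rw [e, hv0, add_zero]
    exact hu
  exfalso
  have hvW : v ∈ Submodule.span ℝ (Λ : Set F) := by
    rw [eq_sub_of_add_eq' e.symm]
    exact Submodule.sub_mem _ (Submodule.subset_span hw) (hle hu)
  have hd0 : d ≠ 0 := by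
    rintro rfl
    rw [Submodule.finrank_eq_zero.1 hd] at hvW
    exact hv0 hvW
  have hd1 : (1 : ℝ) ≤ d := by exact_mod_cast Nat.one_le_iff_ne_zero.2 hd0
  have hn : 0 < ‖v‖ := norm_pos_iff.2 hv0
  obtain ⟨ρ, hρ⟩ : ∃ ρ : ℝ, ρ = d ^ 2 / μ := ⟨_, rfl⟩
  have hρ0 : 0 < ρ := by rw [hρ]; positivity
  obtain ⟨x, hx, hb⟩ := cov_Lls h (R := d / μ) hμ d Λ hf hd hr
    (div_mul_cancel₀ _ hμ.ne').ge hdual ((2 * ρ / ‖v‖) • v) (Submodule.smul_mem _ _ hvW)
  have hz : ‖(2 * ρ / ‖v‖) • v‖ = 2 * ρ := by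
    rw [norm_smul, Real.norm_of_nonneg (by positivity), div_mul_cancel₀ _ hn.ne']
  have hb' : ‖(2 * ρ / ‖v‖) • v - x‖ ^ 2 ≤ ρ ^ 2 := by
    refine hb.trans ?_
    have e1 : ρ ^ 2 = d * (d * (d / μ) ^ 2) := by rw [hρ]; ring
    rw [e1]
    exact le_mul_of_one_le_left (by positivity) hd1
  have hb1 : ‖(2 * ρ / ‖v‖) • v - x‖ ≤ ρ := (pow_le_pow_iff_left₀ (norm_nonneg _) hρ0.le
    two_ne_zero).1 hb'
  have hxU : x ∈ U := by
    rw [hU]
    refine Submodule.subset_span ⟨hx, ?_⟩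
    have e1 := norm_sub_norm_le x ((2 * ρ / ‖v‖) • v)
    rw [norm_sub_rev, hz] at e1
    rw [mul_div_assoc, ← hρ]
    linarith
  rw [norm_sub_sq_real, inner_smul_left, real_inner_comm,
    Submodule.inner_right_of_mem_orthogonal hxU hv, hz] at hb'
  nlinarith [sq_nonneg ‖x‖]

end Pool.Agent.MP_e23604_nt.L

end

section

/-!
A small element of rank one all of whose coefficients are nonzero.
-/

open Matrix Module
open scoped Classical

namespace Pool.Agent.MP_e23604_nt.L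

open B

theorem grid_Rk {K M I : Type} [Field K] [CharZero K] [Fintype M] (L : M → I → K) (s : Finset I) :
    ∀ c : M → K, (∀ T, c T ≠ 0 ∨ ∃ i ∈ s, L T i ≠ 0) →
      ∃ N : I → ℕ, (∀ i, N i ≤ Fintype.card M) ∧ ∀ T, c T + ∑ i ∈ s, (N i : K) * L T i ≠ 0 := by
  induction s using Finset.induction_on with
  | empty => intro c hc; exact ⟨0, fun _ => Nat.zero_le _, fun T => by simpa using hc T⟩
  | insert j s hj ih =>
    intro c hc
    obtain ⟨t, ht, ht2⟩ : ∃ t : ℕ, t ≤ Fintype.card M ∧ ∀ T, L T j ≠ 0 → c T + t * L T j ≠ 0 := by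
      have hlt : (Finset.univ.image fun T => -c T / L T j).card <
          ((Finset.range (Fintype.card M + 1)).image (Nat.cast : ℕ → K)).card := by
        rw [Finset.card_image_of_injective _ Nat.cast_injective, Finset.card_range]
        exact Nat.lt_succ_of_le (Finset.card_image_le.trans (by simp))
      obtain ⟨y, hy, hy2⟩ := Finset.exists_mem_notMem_of_card_lt_card hlt
      obtain ⟨t, ht, rfl⟩ := Finset.mem_image.1 hy
      refine ⟨t, by simpa [Nat.lt_succ_iff] using ht, fun T hT h0 =>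
        hy2 (Finset.mem_image.2 ⟨T, Finset.mem_univ _, ?_⟩)⟩
      rw [div_eq_iff hT]
      linear_combination -h0
    obtain ⟨N, hN, hN2⟩ := ih (fun T => c T + t * L T j) fun T => by
      by_cases h : L T j = 0
      · rcases hc T with h1 | ⟨i, hi, h1⟩
        · left; simpa [h] using h1
        · rcases Finset.mem_insert.1 hi with rfl | hi
          · exact absurd h h1
          · exact Or.inr ⟨i, hi, h1⟩
      · exact Or.inl (ht2 T h)
    refine ⟨Function.update N j t, fun i => ?_, fun T => ?_⟩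
    · by_cases h : i = j
      · subst h; simpa using ht
      · simpa [Function.update_of_ne h] using hN i
    · rw [Finset.sum_insert hj, Function.update_self, ← add_assoc]
      have : ∑ i ∈ s, ((Function.update N j t i : ℕ) : K) * L T i = ∑ i ∈ s, (N i : K) * L T i :=
        Finset.sum_congr rfl fun i hi => by
          rw [Function.update_of_ne (ne_of_mem_of_not_mem hi hj)]
      rw [this]; exact hN2 T

variable {M n : Type} [AddCommGroup M] [Fintype M] [Fintype n] [DecidableEq n] {p : ℕ}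
  {ρ : GQ → M →+ M} {e : M → M → Qb} {ξ : GQ → M} {B : M → Matrix n n Qb}

/-- rational vectors -/
noncomputable def cv_Rk (x : n → ℚ) : n → Qb := fun k => (x k : Qb)

omit [Fintype M] in
theorem eqv_vec_Rk (h : Spl ρ e ξ B) (x : n → ℚ) (i : n) :
    Eqv ρ e ξ fun T => (B T *ᵥ cv_Rk x) i := by
  intro σ T
  simp only [mulVec, dotProduct, cv_Rk, map_sum, map_mul, map_ratCast, Finset.mul_sum]
  refine Finset.sum_congr rfl fun k _ => ?_
  rw [h.2 i k σ T, mul_assoc]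

omit [Fintype M] in
theorem eqv_dot_Rk (h : Spl ρ e ξ B) (f x : n → ℚ) :
    Eqv ρ e ξ fun T => cv_Rk f ⬝ᵥ B T *ᵥ cv_Rk x := by
  intro σ T
  simp only [dotProduct, map_sum, map_mul, Finset.mul_sum]
  refine Finset.sum_congr rfl fun k _ => ?_
  rw [eqv_vec_Rk h x k σ T]
  simp only [cv_Rk, map_ratCast]
  ring

theorem rat_Rk (hd : Dat p ρ e) {a b : M → Qb} (ha : Eqv ρ e ξ a) (hb : Eqv ρ e ξ b) :
    ∃ q : ℚ, ∑ S, b S * a (-S) = (q : Qb) := by
  refine fixed_rat fun σ => ?_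
  rw [map_sum, ← (hd.bij σ).sum_comp fun S => b S * a (-S)]
  refine Finset.sum_congr rfl fun S _ => ?_
  rw [map_mul, ha, hb, map_neg, hd.neg_r]
  have := hd.ne (ξ σ) (ρ σ S)
  field_simp

theorem ex_z_Rk (hd : Dat p ρ e) (h : Spl ρ e ξ B) {b : M → Qb} (hb : Eqv ρ e ξ b) (x : n → ℚ) :
    ∃ z : n → ℚ, ∀ T, B T *ᵥ cv_Rk z = ∑ S, (b S * e T (-S)) • B (T - S) *ᵥ cv_Rk x := by
  choose z hz using fun i => rat_Rk hd (eqv_vec_Rk h x i) hb
  have h1 : cv_Rk z = ∑ S, b S • B (-S) *ᵥ cv_Rk x := by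
    funext i
    rw [Finset.sum_apply]
    exact (hz i).symm
  refine ⟨z, fun T => ?_⟩
  rw [h1, mulVec_sum]
  refine Finset.sum_congr rfl fun S _ => ?_
  rw [mulVec_smul, mulVec_mulVec, h.1.mul, smul_mulVec, smul_smul, sub_eq_add_neg]

variable (B) in
/-- the coordinates of a rational vector -/
noncomputable def cm_Rk (ι : Qb →+* ℂ) : (n → ℚ) →ₗ[ℚ] (M × n → ℂ) where
  toFun x t := ι ((B t.1 *ᵥ cv_Rk x) t.2)
  map_add' x y := by
    funext t
    simp [mulVec, dotProduct, cv_Rk, mul_add, Finset.sum_add_distrib]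
  map_smul' q x := by
    funext t
    simp only [mulVec, dotProduct, cv_Rk, Pi.smul_apply, smul_eq_mul, Rat.cast_mul, map_sum,
      map_mul, map_ratCast, RingHom.id_apply, Rat.smul_def, Finset.mul_sum]
    exact Finset.sum_congr rfl fun k _ => by ring

variable (B) in
/-- the lattice of rational vectors with integral coordinates -/
noncomputable def lat_Rk : Submodule ℤ (n → ℚ) where
  carrier := {x | ∀ T i, IsIntegral ℤ ((B T *ᵥ cv_Rk x) i)}
  add_mem' {x y} hx hy T i := by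
    have : cv_Rk (x + y) = cv_Rk x + cv_Rk y := by funext k; simp [cv_Rk]
    rw [this, mulVec_add]
    exact (hx T i).add (hy T i)
  zero_mem' T i := by
    have : cv_Rk (0 : n → ℚ) = 0 := by funext k; simp [cv_Rk]
    rw [this, mulVec_zero]
    exact isIntegral_zero
  smul_mem' c x hx T i := by
    have : cv_Rk (c • x) = c • cv_Rk x := by funext k; simp [cv_Rk]
    rw [this, mulVec_smul]
    exact (hx T i).smul c

omit [Fintype M] in
theorem fg_Rk (h : Heis e B) : (lat_Rk B).FG := by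
  refine Submodule.FG.of_le (T := Submodule.span ℤ (Set.range (Pi.basisFun ℚ n)))
    (Submodule.fg_span (Set.finite_range _)) fun x hx => ?_
  rw [Basis.mem_span_iff_repr_mem]
  intro i
  have h1 := hx 0 i
  rw [h.zero, one_mulVec] at h1
  have h2 : IsIntegral ℤ (x i) :=
    (isIntegral_algebraMap_iff (algebraMap ℚ Qb).injective).1 h1
  exact IsIntegrallyClosed.isIntegral_iff.1 h2

omit [AddCommGroup M] [DecidableEq n] in
theorem span_Rk : Submodule.span ℚ (lat_Rk B : Set (n → ℚ)) = ⊤ := by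
  have := IsLocalization.isAlgebraic ℚ (nonZeroDivisors ℤ)
  have := Algebra.IsAlgebraic.trans ℤ ℚ Qb
  rw [eq_top_iff]
  intro x _
  obtain ⟨y, hy, h⟩ := Algebra.IsAlgebraic.exists_integral_multiples ℤ
    (Finset.univ.image fun t : M × n => (B t.1 *ᵥ cv_Rk x) t.2)
  have h1 : y • x ∈ lat_Rk B := fun T i => by
    have : cv_Rk (y • x) = y • cv_Rk x := by funext k; simp [cv_Rk]
    rw [this, mulVec_smul]
    exact h _ (Finset.mem_image_of_mem _ (Finset.mem_univ (T, i)))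
  have h2 : x = (y : ℚ)⁻¹ • (y • x) := by
    have : (y : ℚ) ≠ 0 := by exact_mod_cast hy
    funext k
    simp [this]
  rw [h2]
  exact Submodule.smul_mem _ _ (Submodule.subset_span h1)

omit [Fintype M] in
theorem li_Rk (h : Heis e B) (ι : Qb →+* ℂ) :
    LinearIndependent ℝ fun k => cm_Rk B ι (Pi.basisFun ℚ n k) := by
  rw [Fintype.linearIndependent_iff]
  intro g hg i
  have h1 := congrFun hg (0, i)
  have h2 : ∀ k, cm_Rk B ι (Pi.basisFun ℚ n k) (0, i) = if k = i then 1 else 0 := fun k => by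
    show ι ((B 0 *ᵥ cv_Rk (Pi.basisFun ℚ n k)) i) = _
    rw [h.zero, one_mulVec]
    by_cases hk : k = i
    · simp [cv_Rk, hk]
    · simp [cv_Rk, hk, Ne.symm hk]
  simp only [Finset.sum_apply, Pi.smul_apply, h2] at h1
  simpa using h1

theorem cs_Rk (hp : Pair p e) (h : Heis e B) (ι : Qb →+* ℂ) (x : n → ℚ) (l : M × n → ℂ)
    (hl : (∑ i, ‖l i‖ ^ 2) * ∑ i, ‖cm_Rk B ι x i‖ ^ 2 ≤ (p : ℝ) ^ 2) (S : M) :
    ‖∑ k, (∑ t, l t * ι (B t.1 t.2 k)) * ι ((B S *ᵥ cv_Rk x) k)‖ ≤ p := by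
  have h1 : ∑ k, (∑ t, l t * ι (B t.1 t.2 k)) * ι ((B S *ᵥ cv_Rk x) k) =
      ∑ t : M × n, l t * (ι (e t.1 S) * cm_Rk B ι x (t.1 + S, t.2)) := by
    simp only [Finset.sum_mul]
    rw [Finset.sum_comm]
    refine Finset.sum_congr rfl fun t _ => ?_
    have h2 : (B t.1 *ᵥ (B S *ᵥ cv_Rk x)) t.2 = e t.1 S * (B (t.1 + S) *ᵥ cv_Rk x) t.2 := by
      rw [mulVec_mulVec, h.mul, smul_mulVec]; rfl
    show _ = l t * (ι (e t.1 S) * ι ((B (t.1 + S) *ᵥ cv_Rk x) t.2))
    rw [← map_mul, ← h2]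
    simp only [mulVec, dotProduct, map_sum, map_mul, Finset.mul_sum, mul_assoc]
  have h3 : ∑ t : M × n, ‖cm_Rk B ι x (t.1 + S, t.2)‖ ^ 2 = ∑ t, ‖cm_Rk B ι x t‖ ^ 2 :=
    ((Equiv.addRight S).prodCongr (Equiv.refl n)).sum_comp fun t => ‖cm_Rk B ι x t‖ ^ 2
  have h4 := Finset.sum_mul_sq_le_sq_mul_sq Finset.univ (fun t : M × n => ‖l t‖)
    fun t => ‖cm_Rk B ι x (t.1 + S, t.2)‖
  rw [h3] at h4
  rw [h1]
  refine (norm_sum_le _ _).trans ?_
  simp only [norm_mul, hp.norm_map, one_mul]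
  exact (pow_le_pow_iff_left₀ (by positivity) (by positivity) two_ne_zero).1 (h4.trans hl)

theorem short_Rk (h3 : BRI_st) (hd : Dat p ρ e) (hn : Fintype.card n = p) (h : Spl ρ e ξ B)
    (ι : Qb →+* ℂ) : ∃ x f : n → ℚ, x ∈ lat_Rk B ∧ x ≠ 0 ∧ f ≠ 0 ∧
      (∀ z ∈ lat_Rk B, ∃ k : ℤ, cv_Rk f ⬝ᵥ cv_Rk z = k) ∧
      ∀ S, ‖ι (cv_Rk f ⬝ᵥ B S *ᵥ cv_Rk x)‖ ≤ p := by
  have hne : Nonempty n := Fintype.card_pos_iff.1 (hn ▸ hd.hp.pos)
  obtain ⟨x, hx, hx0, φ, hφ0, hφ, l, hl, hb⟩ := (h3 (n → ℚ) n (M × n) (Pi.basisFun ℚ n)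
    (cm_Rk B ι) (lat_Rk B) (li_Rk h.1 ι) (fg_Rk h.1) span_Rk).1 hne
  rw [hn] at hb
  have hφf : ∀ z, φ z = ∑ k, φ (Pi.basisFun ℚ n k) * z k := fun z => by
    conv_lhs => rw [← (Pi.basisFun ℚ n).sum_repr z]
    simp only [map_sum, map_smul, Pi.basisFun_repr, smul_eq_mul, mul_comm]
  refine ⟨x, fun k => φ (Pi.basisFun ℚ n k), hx, hx0, fun h0 => hφ0 ?_, fun z hz => ?_,
    fun S => ?_⟩
  · exact (Pi.basisFun ℚ n).ext fun k => congrFun h0 k
  · obtain ⟨k, hk⟩ := hφ z hz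
    refine ⟨k, ?_⟩
    rw [hφf] at hk
    have := congrArg (Rat.cast : ℚ → Qb) hk
    simpa [dotProduct, cv_Rk] using this
  · obtain ⟨c, hc⟩ := conj_ex ι
    set r : n → ℂ := fun k => ∑ t, l t * ι (B t.1 t.2 k) with hr
    have h1 : ∀ k, ((φ (Pi.basisFun ℚ n k) : ℚ) : ℂ) = (r k + starRingEnd ℂ (r k)) / 2 := by
      intro k
      have h2 : ∑ t, l t * cm_Rk B ι (Pi.basisFun ℚ n k) t = r k := by
        refine Finset.sum_congr rfl fun t _ => ?_
        show l t * ι ((B t.1 *ᵥ cv_Rk (Pi.basisFun ℚ n k)) t.2) = _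
        have : cv_Rk (Pi.basisFun ℚ n k) = Pi.single k 1 := by
          funext j
          by_cases hj : j = k
          · simp [cv_Rk, hj]
          · simp [cv_Rk, hj]
        rw [this, mulVec_single_one]
        rfl
      rw [← Complex.re_eq_add_conj, ← h2, ← hl, Complex.ofReal_ratCast]
    have h4 := cs_Rk hd.toPair h.1 ι x l hb S
    have h5 := cs_Rk hd.toPair h.1 ι x l hb (ρ c S)
    have h6 : starRingEnd ℂ (∑ k, starRingEnd ℂ (r k) * ι ((B S *ᵥ cv_Rk x) k)) =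
        ι (e (ξ c) (ρ c S)) * ∑ k, r k * ι ((B (ρ c S) *ᵥ cv_Rk x) k) := by
      rw [map_sum, Finset.mul_sum]
      refine Finset.sum_congr rfl fun k _ => ?_
      rw [map_mul, Complex.conj_conj, ← hc, eqv_vec_Rk h x k c S, map_mul]
      ring
    have h7 : ‖∑ k, starRingEnd ℂ (r k) * ι ((B S *ᵥ cv_Rk x) k)‖ ≤ p := by
      rw [← Complex.norm_conj, h6, norm_mul, hd.toPair.norm_map, one_mul]
      exact h5
    have h8 : ι (cv_Rk (fun k => φ (Pi.basisFun ℚ n k)) ⬝ᵥ B S *ᵥ cv_Rk x) =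
        (∑ k, r k * ι ((B S *ᵥ cv_Rk x) k) +
          ∑ k, starRingEnd ℂ (r k) * ι ((B S *ᵥ cv_Rk x) k)) / 2 := by
      rw [dotProduct, map_sum, ← Finset.sum_add_distrib, Finset.sum_div]
      refine Finset.sum_congr rfl fun k _ => ?_
      rw [map_mul, cv_Rk, map_ratCast, h1]
      ring
    rw [h8, norm_div, Complex.norm_two]
    have := norm_add_le (∑ k, r k * ι ((B S *ᵥ cv_Rk x) k))
      (∑ k, starRingEnd ℂ (r k) * ι ((B S *ᵥ cv_Rk x) k))
    linarith

theorem rk_st (h1 : HEI_st) (h2 : DUAL_st) (h3 : BRI_st) (h4 : SMALL_st) : RK_st := by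
  intro p m M n _ _ _ _ ρ e ξ B ι hd ha hm hm0 hn h
  have hcM : Fintype.card M = p ^ 2 := by rw [← Nat.card_eq_fintype_card, hd.card]
  obtain ⟨x, f, hx, hx0, hf0, hf, hb⟩ := short_Rk h3 hd hn h ι
  set a : M → Qb := fun T => cv_Rk f ⬝ᵥ B T *ᵥ cv_Rk x with hadef
  have hz : ∀ b, Eqv ρ e ξ b → ∃ z : n → ℚ,
      (∀ T, B T *ᵥ cv_Rk z = ∑ S, (b S * e T (-S)) • B (T - S) *ᵥ cv_Rk x) ∧
      ∀ T, cv_Rk f ⬝ᵥ B T *ᵥ cv_Rk z = ∑ S, b S * e T (-S) * a (T - S) := fun b hb' => by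
    obtain ⟨z, hz⟩ := ex_z_Rk hd h hb' x
    refine ⟨z, hz, fun T => ?_⟩
    rw [hz, dotProduct_sum]
    exact Finset.sum_congr rfl fun S _ => by rw [dotProduct_smul, smul_eq_mul]
  have hint : ∀ T, IsIntegral ℤ ((m : Qb) * a T) := by
    refine h2 p m M ρ e ξ a hd ha hm (eqv_dot_Rk h f x) fun b hb1 hb2 => ?_
    obtain ⟨z, hz1, hz2⟩ := hz b hb1
    obtain ⟨k, hk⟩ := hf z fun T i => by
      rw [hz1, Finset.sum_apply]
      exact IsIntegral.sum _ fun S _ => ((hb2 S).mul (hd.integral _ _)).mul (hx _ i)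
    refine ⟨k, ?_⟩
    have h5 := hz2 0
    rw [h.1.zero, one_mulVec, hk] at h5
    rw [h5, ← Equiv.sum_comp (Equiv.neg M)]
    refine Finset.sum_congr rfl fun S _ => ?_
    simp only [Equiv.neg_apply, neg_neg, zero_sub, hd.zero_l, mul_one, mul_comm]
  have hne : ∃ T, a T ≠ 0 := by
    by_contra h0
    push Not at h0
    have h5 := ((h1 Qb M n p e hd.toPair hn).1 B h.1).2.1 (vecMulVec (cv_Rk x) (cv_Rk f))
    have h6 : ∀ T, (B T * vecMulVec (cv_Rk x) (cv_Rk f)).trace = 0 := fun T => by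
      rw [mul_vecMulVec, trace_vecMulVec, dotProduct_comm]; exact h0 T
    simp only [h6, zero_smul, Finset.sum_const_zero] at h5
    have hp0 : (p : Qb) ≠ 0 := by exact_mod_cast hd.hp.ne_zero
    rcases vecMulVec_eq_zero.1 ((smul_eq_zero.1 h5.symm).resolve_left hp0) with h7 | h7
    · exact hx0 (funext fun k => by simpa [cv_Rk] using congrFun h7 k)
    · exact hf0 (funext fun k => by simpa [cv_Rk] using congrFun h7 k)
  obtain ⟨b, hb1⟩ := h4 p m M n ρ e ξ B ι hd ha hm hm0 hn h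
  obtain ⟨N, hN, hN0⟩ := grid_Rk (fun T i => ∑ S, b i S * e T (-S) * a (T - S)) Finset.univ 0
    fun T => Or.inr (by
      by_contra h0
      push Not at h0
      obtain ⟨T₀, hT₀⟩ := hne
      have h5 : ∀ g : M → Qb, ∑ S, g S * e T (-S) * a (T - S) = 0 := fun g => by
        rw [← b.sum_repr g]
        simp only [Finset.sum_apply, Pi.smul_apply, smul_eq_mul, Finset.sum_mul]
        rw [Finset.sum_comm]
        refine Finset.sum_eq_zero fun i _ => ?_
        simp only [mul_assoc, ← Finset.mul_sum]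
        have := h0 i (Finset.mem_univ i)
        simp only [mul_assoc] at this
        rw [this, mul_zero]
      have h6 := h5 (Pi.single (T - T₀) 1)
      rw [Finset.sum_eq_single (T - T₀) (fun S _ hS => by simp [hS]) (by simp)] at h6
      simp only [Pi.single_eq_same, one_mul, sub_sub_cancel] at h6
      exact mul_ne_zero (hd.ne _ _) hT₀ h6)
  set g : M → Qb := fun S => ∑ i, (N i : Qb) * b i S with hg
  have hg1 : Eqv ρ e ξ g := fun σ T => by
    simp only [hg, map_sum, map_mul, map_natCast, Finset.mul_sum]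
    refine Finset.sum_congr rfl fun i _ => ?_
    rw [(hb1 i).1 σ T]
    ring
  have hg2 : ∀ S, IsIntegral ℤ (g S) := fun S =>
    IsIntegral.sum _ fun i _ => (isIntegral_natCast _).mul ((hb1 i).2 S).1
  have hg3 : ∀ S, ‖ι (g S)‖ ≤ 3 * p ^ 9 * m := fun S => by
    simp only [hg, map_sum, map_mul, map_natCast]
    refine (norm_sum_le _ _).trans ?_
    calc ∑ i, ‖(N i : ℂ) * ι (b i S)‖ ≤ ∑ _i : M, (p : ℝ) ^ 2 * (3 * p ^ 5 * m) := by
          refine Finset.sum_le_sum fun i _ => ?_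
          rw [norm_mul, Complex.norm_natCast]
          refine mul_le_mul ?_ ((hb1 i).2 S).2 (norm_nonneg _) (by positivity)
          exact_mod_cast hcM ▸ hN i
      _ = 3 * p ^ 9 * m := by
          rw [Finset.sum_const, Finset.card_univ, hcM, nsmul_eq_mul]; push_cast; ring
  obtain ⟨z, -, hz2⟩ := hz g hg1
  refine ⟨cv_Rk z, cv_Rk f, eqv_dot_Rk h f z, fun T => ⟨?_, ?_, ?_⟩⟩
  · have h5 := hN0 T
    rw [hz2]
    simp only [Pi.zero_apply, zero_add, Finset.mul_sum] at h5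
    rw [Finset.sum_comm] at h5
    simpa only [hg, Finset.sum_mul, mul_assoc] using h5
  · rw [hz2, Finset.mul_sum]
    refine IsIntegral.sum _ fun S _ => ?_
    rw [mul_left_comm]
    exact ((hg2 S).mul (hd.integral _ _)).mul (hint _)
  · rw [hz2, map_sum]
    refine (norm_sum_le _ _).trans ?_
    calc ∑ S, ‖ι (g S * e T (-S) * a (T - S))‖ ≤ ∑ _S : M, (3 * p ^ 9 * m : ℝ) * p := by
          refine Finset.sum_le_sum fun S _ => ?_
          rw [map_mul, map_mul, norm_mul, norm_mul, hd.toPair.norm_map, mul_one]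
          exact mul_le_mul (hg3 S) (hb _) (norm_nonneg _) (by positivity)
      _ = 3 * p ^ 12 * m := by
          rw [Finset.sum_const, Finset.card_univ, hcM, nsmul_eq_mul]; push_cast; ring

end Pool.Agent.MP_e23604_nt.L

end

section

/-!
Small integral equivariant functions span.
-/

open Matrix Module
open scoped Classical

namespace Pool.Agent.MP_e23604_nt.L

open B

section gen

variable {K M n : Type} [Field K] [CharZero K] [AddCommGroup M] [Fintype M] [Fintype n]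
  [DecidableEq n] {p : ℕ} {e : M → M → K} {U : M → Matrix n n K}

/-- the function of `T` attached to a family of coefficients -/
def fn_Small (U : M → Matrix n n K) (x : n × n → K) (T : M) : K := ∑ k, x k * U T k.1 k.2

theorem inv_Small (h1 : HEI_st) (hp : Pair p e) (hn : Fintype.card n = p) (hU : Heis e U)
    (x : n × n → K) (k : n × n) :
    ∑ T, fn_Small U x T * U (-T) k.2 k.1 = p * x k := by
  have h := ((h1 K M n p e hp hn).1 U hU).2.1 (Matrix.of fun i j => x (j, i))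
  have h' := congrFun (congrFun h k.2) k.1
  simp only [Matrix.sum_apply, Matrix.smul_apply, smul_eq_mul, Matrix.of_apply] at h'
  rw [← h']
  refine Finset.sum_congr rfl fun T _ => ?_
  congr 1
  simp only [fn_Small, Matrix.trace, Matrix.diag, Matrix.mul_apply, Matrix.of_apply,
    Fintype.sum_prod_type]
  exact Finset.sum_congr rfl fun i _ => Finset.sum_congr rfl fun j _ => mul_comm _ _

theorem orth_Small (h1 : HEI_st) (hp : Pair p e) (hn : Fintype.card n = p) (hU : Heis e U)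
    (S T : M) : ∑ k : n × n, U S k.1 k.2 * U T k.2 k.1 = if T = -S then (p : K) else 0 := by
  have h0 := ((h1 K M n p e hp hn).1 U hU).1
  have e1 : ∑ k : n × n, U S k.1 k.2 * U T k.2 k.1 = (U S * U T).trace := by
    simp only [Matrix.trace, Matrix.diag, Matrix.mul_apply, Fintype.sum_prod_type]
  rw [e1]
  split_ifs with h
  · rw [h, hU.neg hp, Matrix.trace_one, hn]
  · rw [hU.mul, Matrix.trace_smul, h0 (S + T) fun h' => h (by rw [eq_neg_iff_add_eq_zero, add_comm, h']),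
      smul_zero]

theorem dual_Small (h1 : HEI_st) (hp : Pair p e) (hn : Fintype.card n = p) (hU : Heis e U)
    (l : M → K) (S : M) :
    ∑ k : n × n, (∑ T, l T * U T k.2 k.1) * U S k.1 k.2 = p * l (-S) := by
  simp only [Finset.sum_mul]
  rw [Finset.sum_comm]
  have e1 : ∀ T, ∑ k : n × n, l T * U T k.2 k.1 * U S k.1 k.2 =
      l T * if T = -S then (p : K) else 0 := fun T => by
    rw [← orth_Small h1 hp hn hU, Finset.mul_sum]
    exact Finset.sum_congr rfl fun k _ => by ring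
  simp only [e1, mul_ite, mul_zero, Finset.sum_ite_eq', Finset.mem_univ, if_true]
  ring

/-- the coefficients attached to a function -/
noncomputable def co_Small (p : ℕ) (U : M → Matrix n n K) (l : M → K) (k : n × n) : K :=
  (p : K)⁻¹ * ∑ T, l T * U (-T) k.2 k.1

theorem fn_co_Small (h1 : HEI_st) (hp : Pair p e) (hn : Fintype.card n = p) (hU : Heis e U)
    (l : M → K) (S : M) : fn_Small U (co_Small p U l) S = l S := by
  have h := dual_Small h1 hp hn hU (fun T => l (-T)) S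
  have hp0 : (p : K) ≠ 0 := Nat.cast_ne_zero.2 hp.hp.ne_zero
  have e1 : ∀ k : n × n, ∑ T, l T * U (-T) k.2 k.1 = ∑ T, l (-T) * U T k.2 k.1 := fun k => by
    rw [← Equiv.sum_comp (Equiv.neg M)]
    simp
  simp only [fn_Small, co_Small, e1, mul_assoc, ← Finset.mul_sum]
  rw [h, neg_neg, ← mul_assoc, inv_mul_cancel₀ hp0, one_mul]

end gen

section gal

variable {M n : Type} [AddCommGroup M] [Fintype M] [Fintype n] [DecidableEq n] {p m : ℕ}
  {ρ : GQ → M →+ M} {e : M → M → Qb} {ξ : GQ → M} {U : M → Matrix n n Qb}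

/-- rational coefficients give functions, linearly -/
noncomputable def lin_Small (U : M → Matrix n n Qb) : (n × n → ℚ) →ₗ[ℚ] (M → Qb) where
  toFun x := fn_Small U fun k => (x k : Qb)
  map_add' x y := by
    ext T
    simp [fn_Small, add_mul, Finset.sum_add_distrib]
  map_smul' r x := by
    ext T
    simp [fn_Small, Finset.mul_sum, mul_assoc, Rat.smul_def]

theorem lin_apply_Small (x : n × n → ℚ) (T : M) :
    lin_Small U x T = ∑ k, (x k : Qb) * U T k.1 k.2 := rfl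

theorem lin_single_Small (k : n × n) (r : ℚ) (T : M) :
    lin_Small U (Pi.single k r) T = r * U T k.1 k.2 := by
  rw [lin_apply_Small, Finset.sum_eq_single k]
  · simp
  · intro j _ hj
    simp [Pi.single_eq_of_ne hj]
  · simp

theorem lin_eqv_Small (hS : Spl ρ e ξ U) (x : n × n → ℚ) : Eqv ρ e ξ (lin_Small U x) := by
  intro σ T
  simp only [lin_apply_Small, map_sum, map_mul, map_ratCast, Finset.mul_sum]
  refine Finset.sum_congr rfl fun k _ => ?_
  rw [hS.2 k.1 k.2 σ T]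
  ring

theorem co_rat_Small (hD : Dat p ρ e) (hS : Spl ρ e ξ U) {b : M → Qb} (hb : Eqv ρ e ξ b)
    (k : n × n) : ∃ q : ℚ, co_Small p U b k = q := by
  refine fixed_rat fun σ => ?_
  simp only [co_Small, map_mul, map_inv₀, map_natCast, map_sum]
  congr 1
  rw [← (Equiv.ofBijective _ (hD.bij σ)).sum_comp fun T => b T * U (-T) k.2 k.1]
  refine Finset.sum_congr rfl fun T _ => ?_
  have h2 := hS.2 k.2 k.1 σ (-T)
  simp only [map_neg] at h2
  rw [hb σ T, h2, hD.toPair.neg_r, Equiv.ofBijective_apply]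
  have := hD.toPair.ne (ξ σ) (ρ σ T)
  field_simp

/-- the lattice of coefficients with integral values -/
def lat_Small (U : M → Matrix n n Qb) : Submodule ℤ (n × n → ℚ) where
  carrier := {x | ∀ T, IsIntegral ℤ (lin_Small U x T)}
  add_mem' hx hy T := by
    rw [map_add]
    exact (hx T).add (hy T)
  zero_mem' T := by
    rw [map_zero]
    exact isIntegral_zero
  smul_mem' r x hx T := by
    rw [map_zsmul]
    exact (hx T).zsmul r

theorem den_Small (U : M → Matrix n n Qb) :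
    ∃ D : ℤ, D ≠ 0 ∧ ∀ T i j, IsIntegral ℤ ((D : Qb) * U T i j) := by
  have := IsLocalization.isAlgebraic ℚ (nonZeroDivisors ℤ)
  have := Algebra.IsAlgebraic.trans ℤ ℚ Qb
  obtain ⟨D, h0, hD⟩ := Algebra.IsAlgebraic.exists_integral_multiples ℤ
    (Finset.univ.image fun t : M × n × n => U t.1 t.2.1 t.2.2)
  refine ⟨D, h0, fun T i j => ?_⟩
  have := hD _ (Finset.mem_image_of_mem _ (Finset.mem_univ (T, i, j)))
  rwa [zsmul_eq_mul] at this

theorem fg_Small (h1 : HEI_st) (hp : Pair p e) (hn : Fintype.card n = p) (hU : Heis e U) :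
    (lat_Small U).FG := by
  obtain ⟨D, h0, hD⟩ := den_Small U
  have hp0 : (p : ℚ) ≠ 0 := Nat.cast_ne_zero.2 hp.hp.ne_zero
  have hD0 : (D : ℚ) ≠ 0 := Int.cast_ne_zero.2 h0
  refine Submodule.FG.of_le (T := Submodule.span ℤ (Set.range fun k : n × n =>
    (Pi.single k ((D : ℚ) * p)⁻¹ : n × n → ℚ))) (Submodule.fg_span (Set.finite_range _))
    fun x hx => ?_
  have hz : ∀ k, ∃ z : ℤ, (z : ℚ) = D * p * x k := fun k => by
    have h := inv_Small h1 hp hn hU (fun k => (x k : Qb)) k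
    have hi : IsIntegral ℤ (algebraMap ℚ Qb (D * p * x k)) := by
      have e1 : algebraMap ℚ Qb (D * p * x k) =
          ∑ T, lin_Small U x T * ((D : Qb) * U (-T) k.2 k.1) := by
        have e2 : algebraMap ℚ Qb (D * p * x k) = (D : Qb) * (p * (x k : Qb)) := by
          simp [mul_assoc]
        rw [e2, ← h, Finset.mul_sum]
        exact Finset.sum_congr rfl fun T _ => mul_left_comm _ _ _
      rw [e1]
      exact IsIntegral.sum _ fun T _ => (hx T).mul (hD _ _ _)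
    exact IsIntegrallyClosed.isIntegral_iff.1
      ((isIntegral_algebraMap_iff (algebraMap ℚ Qb).injective).1 hi)
  choose z hz using hz
  have e1 : x = ∑ k, z k • (Pi.single k ((D : ℚ) * p)⁻¹ : n × n → ℚ) := by
    ext j
    rw [Finset.sum_apply, Finset.sum_eq_single j]
    · rw [Pi.smul_apply, Pi.single_eq_same, zsmul_eq_mul, hz]
      field_simp
    · intro k _ hk
      rw [Pi.smul_apply, Pi.single_eq_of_ne hk.symm, smul_zero]
    · simp
  rw [e1]
  exact Submodule.sum_mem _ fun k _ => Submodule.smul_mem _ _ (Submodule.subset_span ⟨k, rfl⟩)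

theorem span_Small (U : M → Matrix n n Qb) :
    Submodule.span ℚ (lat_Small U : Set (n × n → ℚ)) = ⊤ := by
  obtain ⟨D, h0, hD⟩ := den_Small U
  have hD0 : (D : ℚ) ≠ 0 := Int.cast_ne_zero.2 h0
  rw [eq_top_iff, ← (Pi.basisFun ℚ (n × n)).span_eq, Submodule.span_le]
  rintro _ ⟨k, rfl⟩
  have e1 : Pi.basisFun ℚ (n × n) k = (D : ℚ)⁻¹ • (Pi.single k (D : ℚ) : n × n → ℚ) := by
    rw [Pi.basisFun_apply, ← Pi.single_smul, smul_eq_mul, inv_mul_cancel₀ hD0]
  rw [e1]
  refine Submodule.smul_mem _ _ (Submodule.subset_span fun T => ?_)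
  rw [lin_single_Small]
  simpa using hD T k.1 k.2

/-- the complex values -/
noncomputable def cx_Small (U : M → Matrix n n Qb) (ι : Qb →+* ℂ) : (n × n → ℚ) →ₗ[ℚ] (M → ℂ) :=
  LinearMap.pi fun T => ι.toRatAlgHom.toLinearMap ∘ₗ LinearMap.proj T ∘ₗ lin_Small U

theorem cx_apply_Small (ι : Qb →+* ℂ) (x : n × n → ℚ) (T : M) :
    cx_Small U ι x T = ι (lin_Small U x T) := rfl

theorem cx_basis_Small (ι : Qb →+* ℂ) (k : n × n) (T : M) :
    cx_Small U ι (Pi.basisFun ℚ (n × n) k) T = ι (U T k.1 k.2) := by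
  rw [cx_apply_Small, Pi.basisFun_apply, lin_single_Small, Rat.cast_one, one_mul]

theorem ind_Small (h1 : HEI_st) (hp : Pair p e) (hn : Fintype.card n = p) (hU : Heis e U)
    (ι : Qb →+* ℂ) : LinearIndependent ℝ fun k => cx_Small U ι (Pi.basisFun ℚ (n × n) k) := by
  rw [Fintype.linearIndependent_iff]
  intro r hr k
  have h := inv_Small h1 (hp.map ι) hn (hU.map ι) (fun k => (r k : ℂ)) k
  have e1 : ∀ T, fn_Small (fun T => (U T).map ι) (fun k => (r k : ℂ)) T = 0 := fun T => by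
    have := congrFun hr T
    simp only [Finset.sum_apply, Pi.smul_apply, cx_basis_Small, Complex.real_smul,
      Pi.zero_apply] at this
    exact this
  simp only [e1, zero_mul, Finset.sum_const_zero] at h
  have hp0 : (p : ℂ) ≠ 0 := Nat.cast_ne_zero.2 hp.hp.ne_zero
  exact_mod_cast (mul_eq_zero.1 h.symm).resolve_left hp0

theorem low_Small (h1 : HEI_st) (h2 : DUAL_st) (hD : Dat p ρ e) (hA : Adm ρ ξ) (hF : Dif ρ m)
    (hm : m ≠ 0) (hn : Fintype.card n = p) (hS : Spl ρ e ξ U) (ι : Qb →+* ℂ)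
    (φ : (n × n → ℚ) →ₗ[ℚ] ℚ) (l : M → ℂ) (h0 : φ ≠ 0)
    (hi : ∀ z ∈ lat_Small U, ∃ k : ℤ, φ z = k)
    (hl : ∀ z, (φ z : ℝ) = (∑ i, l i * cx_Small U ι z i).re) :
    (1 / ((p : ℝ) * m)) ^ 2 ≤ ∑ i, ‖l i‖ ^ 2 := by
  have hp := hD.toPair
  have hU := hS.1
  set z : n × n → ℚ := fun k => φ (Pi.basisFun ℚ (n × n) k.swap) with hz
  have hφ : ∀ x, φ x = ∑ k, x k * z k.swap := fun x => by
    conv_lhs => rw [← (Pi.basisFun ℚ (n × n)).sum_repr x]
    simp [hz]
  have ha := lin_eqv_Small hS z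
  have hint : ∀ T, IsIntegral ℤ ((m : Qb) * lin_Small U z T) := by
    refine h2 p m M ρ e ξ _ hD hA hF ha fun b hb hbi => ?_
    choose q hq using co_rat_Small hD hS hb
    have e1 : ∀ T, lin_Small U q T = b T := fun T => by
      rw [← fn_co_Small h1 hp hn hU b T]
      simp only [lin_apply_Small, fn_Small, hq]
    obtain ⟨k, hk⟩ := hi q fun T => by
      rw [e1]
      exact hbi T
    refine ⟨p * k, ?_⟩
    have hp0 : (p : Qb) ≠ 0 := Nat.cast_ne_zero.2 hp.hp.ne_zero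
    have e2 : (k : Qb) = ∑ j, co_Small p U b j * (z j.swap : Qb) := by
      have := congrArg (fun t : ℚ => (t : Qb)) (hk.symm.trans (hφ q))
      simpa [hq] using this
    rw [Int.cast_mul, Int.cast_natCast, e2, ← Equiv.sum_comp (Equiv.neg M)]
    simp only [co_Small, Finset.mul_sum, Finset.sum_mul, lin_apply_Small, Equiv.neg_apply, neg_neg]
    rw [Finset.sum_comm, ← Equiv.sum_comp (Equiv.prodComm n n)]
    refine Finset.sum_congr rfl fun j _ => Finset.sum_congr rfl fun T _ => ?_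
    simp only [Equiv.prodComm_apply, Prod.fst_swap, Prod.snd_swap]
    field_simp
  have hne : ∃ T, lin_Small U z T ≠ 0 := by
    by_contra hc
    push Not at hc
    refine h0 (LinearMap.ext fun x => ?_)
    have hp0 : (p : Qb) ≠ 0 := Nat.cast_ne_zero.2 hp.hp.ne_zero
    have : ∀ k, z k = 0 := fun k => by
      have h := inv_Small h1 hp hn hU (fun k => (z k : Qb)) k
      have e1 : ∀ T, fn_Small U (fun k => (z k : Qb)) T = 0 := hc
      simp only [e1, zero_mul, Finset.sum_const_zero] at h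
      exact_mod_cast (mul_eq_zero.1 h.symm).resolve_left hp0
    simp [hφ, this]
  obtain ⟨T, hT⟩ := hne
  obtain ⟨σ, hσ⟩ := big_conj ι (hint T) (mul_ne_zero (Nat.cast_ne_zero.2 hm) hT)
  rw [map_mul, map_mul, map_natCast, map_natCast, norm_mul, Complex.norm_natCast,
    Eqv.norm hD ha] at hσ
  generalize ρ σ T = S at hσ
  obtain ⟨c, hc⟩ := conj_ex ι
  set R : n × n → ℂ := fun k => ∑ T, l T * ι (U T k.2 k.1) with hR
  have hzR : ∀ k, ((z k : ℚ) : ℂ) = (R k + starRingEnd ℂ (R k)) / 2 := fun k => by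
    have := hl (Pi.basisFun ℚ (n × n) k.swap)
    simp only [cx_basis_Small, Prod.fst_swap, Prod.snd_swap] at this
    rw [← Complex.re_eq_add_conj, ← this]
    simp [hz]
  have hd : ∀ S, ∑ k : n × n, R k * ι (U S k.1 k.2) = p * l (-S) := fun S =>
    dual_Small h1 (hp.map ι) hn (hU.map ι) l S
  have hd' : ‖∑ k : n × n, starRingEnd ℂ (R k) * ι (U S k.1 k.2)‖ = p * ‖l (-ρ c S)‖ := by
    rw [← Complex.norm_conj, map_sum]
    have e1 : ∀ k : n × n, starRingEnd ℂ (starRingEnd ℂ (R k) * ι (U S k.1 k.2)) =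
        ι (e (ξ c) (ρ c S)) * (R k * ι (U (ρ c S) k.1 k.2)) := fun k => by
      rw [map_mul, Complex.conj_conj, ← hc, hS.2 k.1 k.2 c S, map_mul]
      ring
    simp only [e1, ← Finset.mul_sum, hd, norm_mul, hp.norm_map, one_mul, Complex.norm_natCast]
  have e2 : ι (lin_Small U z S) = (∑ k : n × n, R k * ι (U S k.1 k.2) +
      ∑ k : n × n, starRingEnd ℂ (R k) * ι (U S k.1 k.2)) / 2 := by
    simp only [lin_apply_Small, map_sum, map_mul, map_ratCast, hzR]
    rw [← Finset.sum_add_distrib, Finset.sum_div]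
    exact Finset.sum_congr rfl fun k _ => by ring
  have e3 : ‖ι (lin_Small U z S)‖ ≤ (p * ‖l (-S)‖ + p * ‖l (-ρ c S)‖) / 2 := by
    rw [e2, norm_div, Complex.norm_two, ← hd']
    gcongr
    refine (norm_add_le _ _).trans_eq ?_
    rw [hd, norm_mul, Complex.norm_natCast]
  have hp0 : (0 : ℝ) < p := Nat.cast_pos.2 hp.hp.pos
  have hm0 : (0 : ℝ) < m := Nat.cast_pos.2 (Nat.pos_of_ne_zero hm)
  by_contra hlt
  push Not at hlt
  have hs : ∀ T, ‖l T‖ < 1 / ((p : ℝ) * m) := fun T => by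
    refine lt_of_pow_lt_pow_left₀ 2 (by positivity) (lt_of_le_of_lt ?_ hlt)
    exact Finset.single_le_sum (f := fun i => ‖l i‖ ^ 2) (fun i _ => by positivity)
      (Finset.mem_univ T)
  have k1 := (lt_div_iff₀ (by positivity)).1 (hs (-S))
  have k2 := (lt_div_iff₀ (by positivity)).1 (hs (-ρ c S))
  have k3 := mul_le_mul_of_nonneg_left e3 hm0.le
  nlinarith

end gal

theorem small_st (h1 : HEI_st) (h2 : DUAL_st) (h3 : BRI_st) : SMALL_st := by
  intro p m M n _ _ _ _ ρ e ξ U ι hD hA hF hm hn hS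
  have hp := hD.toPair
  have hU := hS.1
  have hp0 : (0 : ℝ) < p := Nat.cast_pos.2 hp.hp.pos
  have hm0 : (0 : ℝ) < m := Nat.cast_pos.2 (Nat.pos_of_ne_zero hm)
  have h := (h3 (n × n → ℚ) (n × n) M (Pi.basisFun ℚ (n × n)) (cx_Small U ι) (lat_Small U)
    (ind_Small h1 hp hn hU ι) (fg_Small h1 hp hn hU) (span_Small U)).2 (1 / ((p : ℝ) * m))
    (by positivity) (low_Small h1 h2 hD hA hF hm hn hS ι)
  have e1 : 3 * (Fintype.card (n × n) : ℝ) ^ 2 / (1 / ((p : ℝ) * m)) = 3 * p ^ 5 * m := by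
    rw [Fintype.card_prod, hn]
    push_cast
    field_simp
  rw [e1] at h
  set G : Set (M → Qb) :=
    {g | Eqv ρ e ξ g ∧ ∀ T, IsIntegral ℤ (g T) ∧ ‖ι (g T)‖ ≤ 3 * p ^ 5 * m} with hG
  have hx : ∀ x : n × n → ℚ, lin_Small U x ∈ Submodule.span Qb G := fun x => by
    have hx : x ∈ Submodule.span ℚ {x | x ∈ lat_Small U ∧
        ∀ i, ‖cx_Small U ι x i‖ ≤ 3 * p ^ 5 * m} := h ▸ Submodule.mem_top
    induction hx using Submodule.span_induction with
    | mem x hx => exact Submodule.subset_span ⟨lin_eqv_Small hS x, fun T => ⟨hx.1 T, hx.2 T⟩⟩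
    | zero => simp
    | add x y _ _ hx hy => simpa using Submodule.add_mem _ hx hy
    | smul r x _ hx =>
      rw [map_smul, ← algebraMap_smul Qb r]
      exact Submodule.smul_mem _ _ hx
  have htop : ⊤ ≤ Submodule.span Qb G := fun l _ => by
    have e2 : l = ∑ k, co_Small p U l k • lin_Small U (Pi.single k 1) := by
      ext T
      rw [← fn_co_Small h1 hp hn hU l T]
      simp [fn_Small, lin_single_Small]
    rw [e2]
    exact Submodule.sum_mem _ fun k _ => Submodule.smul_mem _ _ (hx _)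
  refine ⟨(Basis.ofSpan htop).reindex ((Basis.ofSpan htop).indexEquiv (Pi.basisFun Qb M)),
    fun i => ?_⟩
  have : (Basis.ofSpan htop).reindex ((Basis.ofSpan htop).indexEquiv (Pi.basisFun Qb M)) i ∈ G := by
    rw [Basis.reindex_apply]
    exact Basis.ofSpan_subset htop ⟨_, rfl⟩
  exact this

end Pool.Agent.MP_e23604_nt.L

end
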