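import Pool.Agent.Mg.Fe23604m.Gd767a4

set_option linter.all false

set_option autoImplicit false

open Finset Filter QuadraticAlgebra
open scoped Classical

namespace Pool.Agent.MP_e23604_nt.V

open B R S W

section alg

variable {R : Type} [CommRing R]

theorem geo3_MROW {z : R} (h : z ^ 2 + z + 1 = 0) (k : ℕ) :
    ∑ i ∈ range (3 * k + 1), z ^ i = 1 := by
  induction k with
  | zero => simp
  | succ k ih =>
    rw [show 3 * (k + 1) + 1 = 3 * k + 1 + 1 + 1 + 1 by ring, sum_range_succ, sum_range_succ,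
      sum_range_succ, ih]
    linear_combination z ^ (3 * k + 1) * h

theorem geo_MROW {I : Ideal R} {t z : R} (h : t - z ∈ I) (N : ℕ) :
    ∑ i ∈ range N, t ^ i - ∑ i ∈ range N, z ^ i ∈ I := by
  rw [← sum_sub_distrib]
  exact I.sum_mem fun i _ => I.mem_of_dvd (sub_dvd_pow_sub_pow t z i) h

theorem bin_MROW (s : R) (n : ℕ) : ∃ c, (1 + s) ^ n = 1 + n * s + s ^ 2 * c := by
  induction n with
  | zero => exact ⟨0, by simp⟩
  | succ n ih =>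
    obtain ⟨c, hc⟩ := ih
    refine ⟨n + c + c * s, ?_⟩
    rw [pow_succ, hc]
    push_cast
    ring

theorem cop_MROW {I : Ideal R} (h3 : (3 : R) ∈ I) {a : ℕ} (ha : ¬ 3 ∣ a) (h : (a : R) ∈ I) :
    (1 : R) ∈ I := by
  have e : (a : R) = 3 * (a / 3 : ℕ) + (a % 3 : ℕ) := by
    exact_mod_cast congrArg (Nat.cast (R := R)) (Nat.div_add_mod a 3).symm
  have h1 := I.sub_mem h (I.mul_mem_right ((a / 3 : ℕ) : R) h3)
  rw [e, add_sub_cancel_left] at h1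
  obtain h2 | h2 : a % 3 = 1 ∨ a % 3 = 2 := by omega
  · simpa [h2] using h1
  · rw [h2] at h1
    convert I.sub_mem h3 h1 using 1
    push_cast
    ring

theorem ord_MROW [IsDomain R] {t : R} (h3 : (3 : R) = 0) (h0 : t ≠ 0) (h1 : ¬ t ∣ 1) (a k : ℕ)
    (h : t ^ 3 ^ k ∣ (1 + t) ^ a - 1) : 3 ^ k ∣ a := by
  have : Fact (Nat.Prime 3) := ⟨Nat.prime_three⟩
  have : CharP R 3 := (CharP.charP_iff_prime_eq_zero Nat.prime_three).2 (by exact_mod_cast h3)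
  induction k with
  | zero => simp
  | succ k ih =>
    obtain ⟨b, rfl⟩ := ih ((pow_dvd_pow t (Nat.pow_le_pow_right (by norm_num) k.le_succ)).trans h)
    rw [pow_succ]
    refine mul_dvd_mul_left _ (by_contra fun hb => h1 ?_)
    obtain ⟨c, hc⟩ := bin_MROW (t ^ 3 ^ k) b
    rw [pow_mul, add_pow_char_pow, one_pow, hc, pow_succ, pow_mul] at h
    obtain ⟨y, hy⟩ := h
    have e : (b : R) = t ^ 3 ^ k * (t ^ 3 ^ k * y - c) :=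
      mul_left_cancel₀ (pow_ne_zero (3 ^ k) h0) (by linear_combination hy)
    rw [← Ideal.mem_span_singleton]
    refine cop_MROW (by simp [h3]) hb (Ideal.mem_span_singleton.2 ?_)
    rw [e]
    exact (dvd_pow_self t (by positivity)).mul_right _

theorem Leq_MROW (E : Lm R) {x : ℕ → R} {a : R} (h : ∀ᶠ n in uf, x n - a ∈ E.m ^ n) :
    E.L x = a := by
  have := L_mem E (P := ⊥) (k := id) uf_le (h.mono fun n e => Ideal.mem_sup_right e)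
  rwa [E.L_sub, E.const, Ideal.mem_bot, sub_eq_zero] at this

theorem three_MROW (E : Lm R) : (3 : R) = -(E.ι pw * E.ι pw) := by
  rw [← map_mul, ← map_neg, ← map_ofNat E.ι 3]
  congr 1

theorem eu_MROW (E : Lm R) {a : ℕ → ℕ} {k : ℕ} (h : ∀ n, k ≤ n → ¬ 3 ^ k ∣ a n) :
    ¬ E.ι pw ∣ E.L fun n => (1 + E.T) ^ a n - 1 := fun e => by
  obtain ⟨n, h1, h2⟩ := (((E.mem_iff _ _).1 (Ideal.mem_span_singleton.2 e) (1 + 3 ^ k)).and
    (uf_le (eventually_ge_atTop k))).exists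
  have hp := (Ideal.span_singleton_prime E.ppi.ne_zero).2 E.ppi
  have h4 : Ideal.span {E.ι pw} ⊔ E.m ^ (1 + 3 ^ k) ≤
      Ideal.span {E.ι pw} ⊔ Ideal.span {E.T ^ 3 ^ k} := by
    rw [E.m_eq, Ideal.span_insert, ← Ideal.span_singleton_pow]
    exact sup_le le_sup_left (Ideal.sup_pow_add_le_pow_sup_pow.trans (by rw [pow_one]))
  obtain ⟨u, v, h5, h6⟩ := Ideal.mem_span_singleton_sup.1 (h4 h1)
  obtain ⟨y, rfl⟩ := Ideal.mem_span_singleton.1 h5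
  have z : Ideal.Quotient.mk (Ideal.span {E.ι pw}) (E.ι pw) = 0 :=
    Ideal.Quotient.eq_zero_iff_mem.2 (Ideal.mem_span_singleton_self _)
  refine h n h2 (ord_MROW (t := Ideal.Quotient.mk (Ideal.span {E.ι pw}) E.T) ?_ ?_ ?_ _ _
    ⟨Ideal.Quotient.mk _ y, ?_⟩)
  · rw [← map_ofNat (Ideal.Quotient.mk (Ideal.span {E.ι pw})) 3, three_MROW E, map_neg, map_mul, z,
      mul_zero, neg_zero]
  · exact fun e => E.piT (Ideal.mem_span_singleton.1 (Ideal.Quotient.eq_zero_iff_mem.1 e))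
  · rintro ⟨c, hc⟩
    obtain ⟨c, rfl⟩ := Ideal.Quotient.mk_surjective c
    rw [← map_mul, ← map_one (Ideal.Quotient.mk (Ideal.span {E.ι pw})), Ideal.Quotient.eq] at hc
    apply E.ne
    rw [E.m_eq, Ideal.span_insert]
    simpa using (Ideal.span {E.ι pw} ⊔ Ideal.span {E.T}).add_mem (Ideal.mem_sup_left hc)
      (Ideal.mem_sup_right (Ideal.mem_span_singleton.2 (dvd_mul_right E.T c)))
  · simpa [z] using congrArg (Ideal.Quotient.mk (Ideal.span {E.ι pw})) h6.symm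

theorem zeta_MROW (Z : Dt R) (ε : Bool) {e : ZMod 3} (he : e ≠ 0) : ∃ v v' : R, v * v' = 1 ∧
    1 - Z.ph ε (ω ^ e.val) = Z.E.ι pw * v ∧
    Z.ph ε (ω ^ e.val) ^ 2 + Z.ph ε (ω ^ e.val) + 1 = 0 := by
  have h1 : ∀ w : Zw, w = ω ∨ w = ω ^ 2 → ∃ v v' : R, v * v' = 1 ∧
      1 - Z.E.ι w = Z.E.ι pw * v ∧ Z.E.ι w ^ 2 + Z.E.ι w + 1 = 0 := fun w hw => by
    obtain ⟨v, v', a1, a2, a3⟩ : ∃ v v' : Zw, v * v' = 1 ∧ 1 - w = pw * v ∧ w ^ 2 + w + 1 = 0 := by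
      obtain rfl | rfl := hw
      exacts [⟨ω ^ 2, ω, by decide⟩, ⟨-ω, -ω ^ 2, by decide⟩]
    exact ⟨Z.E.ι v, Z.E.ι v', by simpa using congrArg Z.E.ι a1, by simpa using congrArg Z.E.ι a2,
      by simpa using congrArg Z.E.ι a3⟩
  have h2 : ∀ e : ZMod 3, e ≠ 0 → ((ω : Zw) ^ e.val = ω ∨ (ω : Zw) ^ e.val = ω ^ 2) ∧
      (star ((ω : Zw) ^ e.val) = ω ∨ star ((ω : Zw) ^ e.val) = ω ^ 2) := by decide
  cases ε
  exacts [h1 _ (h2 e he).2, h1 _ (h2 e he).1]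

end alg

section rows

variable {Λ : Type} [CommRing Λ] {Z : Mx Λ} {ε : Bool}

theorem aux_MROW (hA : THA_st) (hB : THB_st) (h : Z.toDt.Ok) {n l : ℕ} (hl : Z.ok n l) :
    Z.th ε n (Z.K.σ (-l)) - 1 ∈ Z.E.m ^ n ∧ Z.th ε n (Z.K.τ (-l)) - 1 ∈ Z.E.m ^ n ∧
      Z.th ε n (Z.K.σ (-l)) - ∑ i ∈ range (nn (-l)), Z.th ε n (Z.K.τ (-l)) ^ i - 0 ∈ Z.E.m ^ n := by
  obtain ⟨a1, -, a2, a3⟩ := (hB Λ Z.toDt n h).2.2.2.1 l hl.1 hl.2.1
  obtain ⟨-, b1, b2, -⟩ := h.pk.tm _ a2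
  have c := ((hA Λ Z.toDt n h).2.2.2.2.2.1 ε).1.2
  have d := (a3 _ (h.pk.ine l hl.1 a1).1).2 hl.2.2
  have e1 := c _ (d b1.1)
  have e2 := c _ (d (Plc.I_le _ b2))
  refine ⟨e1, e2, ?_⟩
  obtain ⟨y, hy⟩ := ((pow_dvd_pow 3 (Nat.le_add_right n 3)).mul_right _).trans hl.2.1
  have e3 : (l : Λ) + 1 ∈ Z.E.m ^ n := by
    have : (l : Λ) + 1 = 3 ^ n * y := by exact_mod_cast congrArg (Nat.cast (R := Λ)) hy
    rw [this]
    exact Ideal.mul_mem_right _ _ (Ideal.pow_mem_pow Z.E.three_mem n)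
  convert Ideal.sub_mem _ (Ideal.sub_mem _ e1 (geo_MROW e2 (nn (-l))))
    (Ideal.mul_mem_left _ ((l : Λ) - 1) e3) using 1
  simp only [nn_neg, nn_nat, one_pow, sum_const, card_range, nsmul_eq_mul]
  push_cast
  ring

theorem tw_MROW (hT : TRM_st) (hB : THB_st) (h : Z.toDt.Ok) {ϖ : Zw} (hp : ϖ ∈ Tr Z.r) :
    (∃ v v' : Λ, v * v' = 1 ∧ Z.mu ε (cs ϖ) = Z.E.ι pw * v) ∧
      Z.nu ε (cs ϖ) = Z.E.L fun n => Z.th ε n (Z.K.σ ϖ) - 1 := by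
  obtain ⟨a1, a2⟩ := ((hT _ (h.tw ε).sf.ne_zero (h.tw ε).n3).1 ϖ).1 hp
  obtain ⟨b1, -, b2, -⟩ := h.pk.tm _ a1
  have c : (Z.K.V ϖ).l ∣ Z.r := (PLK_ok.2.2.2.1 _ _).1 (((PLK_ok.2.2.1 _ _ a1.1 b1).1 _).2 a2)
  obtain ⟨v, v', d1, d2, d3⟩ := zeta_MROW Z.toDt ε (((hB Λ Z.toDt 0 h).2.2.2.2.2 ε).2.2.2.1 ϖ hp)
  have e : ∀ n, Z.th ε n (Z.K.τ ϖ) - Z.ph ε (ω ^ (Z.χ ε (Z.K.τ ϖ)).val) ∈ Z.E.m ^ n := fun n =>
    (((hB Λ Z.toDt n h).2.2.2.2.2 ε).1 _ (fun e => (h.tw ε).n3 (e ▸ c)) _ b2).2 fun e =>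
      ((hB Λ Z.toDt n h).2.2.2.1 _ (h.qp n) (h.qd n)).2.1 (e ▸ c)
  refine ⟨⟨v, v', d1, ?_⟩, ?_⟩
  · rw [← d2, Mx.mu, Lm.ev, Leq_MROW]
    filter_upwards [sq_const ϖ] with n e1
    simpa [Mx.gj, cs, jn, Mx.gen, e1] using e n
  · rw [← sub_eq_zero, Mx.nu, cs, Sum.elim_inr, ← Z.E.L_sub]
    refine Leq_MROW _ ?_
    filter_upwards [sq_const ϖ] with n e1
    have e2 := geo_MROW (e n) (nn ϖ)
    rw [show ∑ i ∈ range (nn ϖ), Z.ph ε (ω ^ (Z.χ ε (Z.K.τ ϖ)).val) ^ i = 1 by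
      rw [← Nat.div_add_mod (nn ϖ) 3, nn_mod3 a1.2.pw, geo3_MROW d3]] at e2
    rw [e1]
    convert neg_mem e2 using 1
    ring

theorem unit_MROW (hY : HY) (hA : THA_st) (h : Z.Ok0) {a : Gm}
    (ha : ∀ᶠ n in uf, ∃ l : ℕ, l.Prime ∧ l % 3 = 2 ∧ sq a n = -l) : IsUnit (Z.u ε (.inr a)) := by
  refine L_unit Z.E (ha.mono ?_)
  rintro n ⟨l, a1, a2, a3⟩ e
  obtain ⟨b1, b2, -⟩ := h.pk.ine l a1 a2
  obtain ⟨c1, -, -, c2, -⟩ := hY.INF.2.2 _ _ b2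
  rw [b1] at c1
  obtain ⟨-, -, d1, d2⟩ := h.pk.tm _ c1
  have h3 : (Z.K.V (-l)).l ≠ 3 := by omega
  have u := (TAME_ok 3 (n + 1) _ Nat.prime_three h3 h3).2.2.2.1 _ d1 d2
  have t := ((((hA Λ Z.toDt n h.toOk).2.2.2.2.2.1 ε).2.2.1 _
    (GK_mul h.cj.nk (by rwa [GK.inv_mem_iff] : (Z.K.φ (-l))⁻¹ ∉ GK))).1)
  rw [a3] at e
  generalize km (3 ^ (n + 1)) (Z.K.τ (-l)) (Z.K.V (-l)).l = x at u e
  have u' : IsUnit x⁻¹ := IsUnit.of_mul_eq_one x (ZMod.inv_mul_of_unit x u)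
  rw [← ZMod.natCast_zmod_val x⁻¹, ZMod.isUnit_iff_coprime] at u'
  refine Z.E.ne (cop_MROW (a := x⁻¹.val) Z.E.three_mem (fun f => ?_) ?_)
  · exact absurd (Nat.eq_one_of_dvd_coprimes u' f (dvd_pow_self 3 n.succ_ne_zero)) (by norm_num)
  · convert Ideal.sub_mem _ e (Ideal.mul_mem_left _ ((x⁻¹.val : ℕ) : Λ) t) using 1
    ring

end rows

theorem ROW_pf (hY : HY) (hTRM : TRM_st) (hTHA : THA_st) (hTHB : THB_st) (hGER : GER_st) : ROW_st := by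
  intro Λ _ _ Z ε h
  obtain ⟨⟨g1, -, g2, g3, -, g4, -⟩, -⟩ := hGER Λ Z h
  have k := h.toOk
  have tr := hTRM _ (k.tw ε).sf.ne_zero (k.tw ε).n3
  have w0 : ∀ a : Gm, .inr a ∉ Z.m0 → Z.w ε (.inr a) = Z.fm ε (Z.sg (.inr a)) := fun a ha => by
    rw [g3, mem_union, mem_union, not_or, not_or] at ha
    rw [Mx.w, if_neg ha.1.2, if_neg ha.2]
  have hq := sq_ofFun fun n => -(Z.q n : Zw)
  have bz : ∀ j ∈ Z.Bg, ∃ l ∈ Bn Z.r, -(l : Zw) ∈ Tr Z.r ∧ j = cs (-l) := fun j hj => by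
    obtain ⟨ϖ, a1, rfl⟩ := mem_image.1 hj
    obtain ⟨l, a2, rfl⟩ := (tr.2.1 ϖ).1 a1
    exact ⟨l, a2, (mem_filter.1 a1).1, rfl⟩
  refine ⟨?_, ?_, ?_, ?_, ?_, ?_, ?_⟩
  · rintro j (hj | rfl)
    · obtain ⟨a, rfl, ha⟩ := id hj
      refine ⟨w0 a fun e => g2 _ e hj, Leq_MROW _ (ha.mono ?_)⟩
      rintro n ⟨l, a1, a2⟩
      simpa [Mx.sg, a1] using (aux_MROW hTHA hTHB k a2).1
    · refine ⟨w0 _ g1, Leq_MROW _ (hq.mono fun n e => ?_)⟩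
      simpa [Mx.sg, Mx.qg, e] using ((hTHB Λ Z.toDt n k).2.2.2.2.2 ε).2.2.1
  · rintro _ ⟨a, rfl, ha⟩
    refine ⟨?_, Leq_MROW _ (ha.mono ?_)⟩
    · rw [Mx.mu, Lm.ev, Leq_MROW (a := 1), sub_self]
      refine ha.mono ?_
      rintro n ⟨l, a1, a2⟩
      simpa [Mx.gj, jn, Mx.gen, a1] using (aux_MROW hTHA hTHB k a2).2.1
    · rintro n ⟨l, a1, a2⟩
      rw [a1]
      exact (aux_MROW hTHA hTHB k a2).2.2
  · rw [Mx.mu, Lm.ev, Leq_MROW (a := 1 + Z.E.T), sub_add_cancel_left]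
    refine hq.mono fun n e => ?_
    simpa [Mx.gj, Mx.qg, jn, Mx.gen, e] using ((hTHB Λ Z.toDt n k).2.2.2.2.2 ε).2.1
  · intro j hj
    obtain ⟨ϖ, a1, rfl⟩ : ∃ ϖ ∈ Tr Z.r, cs ϖ = j := by
      obtain hj | hj := mem_union.1 hj <;> obtain ⟨ϖ, a1, a2⟩ := mem_image.1 hj <;>
        exact ⟨ϖ, (mem_filter.1 a1).1, a2⟩
    obtain ⟨⟨v, v', b1, b2⟩, -⟩ := tw_MROW (ε := ε) hTRM hTHB k a1
    rw [b2]
    exact ⟨⟨-(Z.E.ι pw * v'), by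
      linear_combination three_MROW Z.E + Z.E.ι pw * Z.E.ι pw * b1⟩, dvd_mul_right _ _⟩
  · intro j hj
    obtain ⟨l, a1, a2, rfl⟩ := bz j hj
    obtain ⟨⟨v, v', b1, b2⟩, b3⟩ := tw_MROW (ε := ε) hTRM hTHB k a2
    obtain ⟨y, hy⟩ : 3 ∣ l + 1 := by have := (mem_filter.1 a1).2; omega
    have b4 : Z.nu ε (cs (-l)) = Z.E.ι pw * (Z.E.ι pw * y) := by
      have : (l : Λ) + 1 = 3 * y := by exact_mod_cast congrArg (Nat.cast (R := Λ)) hy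
      rw [b3]
      refine Leq_MROW _ (.of_forall fun n => ?_)
      convert ((hTHB Λ Z.toDt n k).2.2.2.2.2 ε).2.2.2.2.1 l a1 using 1
      linear_combination -this - y * three_MROW Z.E
    have b5 : Z.mu ε (cs (-l)) * Z.be ε (cs (-l)) = Z.nu ε (cs (-l)) :=
      Classical.epsilon_spec (p := fun β => Z.mu ε (cs (-l)) * β = Z.nu ε (cs (-l)))
        ⟨v' * (Z.E.ι pw * y), by
          rw [b2, b4]
          linear_combination Z.E.ι pw * (Z.E.ι pw * y) * b1⟩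
    have b6 : Z.w ε (cs (-l)) = Z.fm ε (Z.sg (cs (-l))) +
        Z.be ε (cs (-l)) • (Pi.single (cs (-l)) 1 : JJ → Λ) := by
      have := disjoint_right.1 g4 hj
      rw [cs] at *
      rw [Mx.w, if_neg this, if_pos hj]
    refine ⟨b6, by rw [b6, smul_add, smul_smul, b5, Mx.rel], v' * y, ?_⟩
    rw [b2, b4, mul_assoc] at b5
    linear_combination v' * mul_left_cancel₀ Z.E.ppi.ne_zero b5 - Z.be ε (cs (-l)) * b1
  · intro ϖ hp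
    refine ⟨?_, ?_, ?_⟩
    · have : cs ϖ ∈ Z.Sg := mem_image_of_mem _ hp
      rw [cs] at *
      rw [Mx.w, if_pos this]
    · rw [(tw_MROW hTRM hTHB k (mem_filter.1 hp).1).2, Dt.eu, ← Z.E.L_sub,
        ← Ideal.mem_span_singleton]
      refine L_mem Z.E (k := id) uf_le (.of_forall fun n => Ideal.mem_sup_left ?_)
      simpa [Ideal.mem_span_singleton] using
        ((((hTHA Λ Z.toDt n k).2.2.2.2.2.1 ε).2.2.1 _ (k.pk.gk ϖ).1).2.1)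
    · obtain ⟨i, hi⟩ := k.spl ϖ hp
      exact eu_MROW Z.E hi
  · have m3 : ∀ n l : ℕ, 3 ^ (n + 3) * Z.r ∣ l + 1 → l % 3 = 2 := fun n l e => by
      have := ((dvd_pow_self 3 (by omega : n + 3 ≠ 0)).mul_right _).trans e
      omega
    rintro j ((⟨a, rfl, ha⟩ | hj) | rfl)
    · exact unit_MROW hY hTHA h (ha.mono fun n ⟨l, a1, a2⟩ => ⟨l, a2.1, m3 n l a2.2.1, a1⟩)
    · obtain ⟨l, a1, -, rfl⟩ := bz j hj
      exact unit_MROW hY hTHA h ((sq_const _).mono fun n e =>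
        ⟨l, Nat.prime_of_mem_primeFactors (mem_filter.1 a1).1, (mem_filter.1 a1).2, e⟩)
    · exact unit_MROW hY hTHA h (hq.mono fun n e => ⟨_, k.qp n, m3 n _ (k.qd n), e⟩)

end Pool.Agent.MP_e23604_nt.V
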