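import Pool.Agent.Mg.Fe23604m.Gff9688
import Pool.Agent.Mg.Fe23604m.G2ca419

set_option linter.all false

section

/-!
Systems of points that are divisible by the square root of `-3`: definitions and statements.
-/

set_option autoImplicit false

open Finset QuadraticAlgebra
open scoped Classical

namespace Pool.Agent.MP_e23604_nt.M

open B R S W V X N

/-- a system of points together with division points -/
structure QS extends HS where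
  z : AddSubgroup Pt → Pt
  e : GQ → ZMod 3
  pz : ∀ C, y C = pw • z C
  j0 : ∀ ε, j ε = 0
  c1 : ∀ g ∈ GK, χ 1 g = kum 3 g
  c2 : ∀ g ∈ GK, χ 2 g = 0
  e0 : ∀ g ∈ GK, e g = 0 ↔ g ∈ UM (3 * pw)
  za : ∀ ε C, Fo ε C → ∀ g ∈ GK, eta (χ ε) g (z C) = z (N.ga g C) - (e g).val • T0
  zo : ∀ ε C, Fo ε C → z (sm ω C) = z C
  zt : ∀ ε C (l : ℕ), Fo ε C → l.Prime → l % 3 = 2 → ¬ l ∣ Nat.card C →
    pw • ∑ i, z (C ⊔ Ln l i) = 0
  zc : ∀ ε (V : Plc) (f : GQ), V.l % 3 = 2 → Frob V.l V.γ f → ∃ u : Zw, IsUnit u ∧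
    ∀ C, Fo ε C → ¬ V.l ∣ Nat.card C → ∀ i, E1 V.v (z (C ⊔ Ln V.l i) - u • gal f (z C))
  zx : ∀ ε C, Fo ε C → xc (z C) ≠ 0
  zs : ∀ ε C (ϖ : Zw), Fo ε C → PP ϖ → (nn ϖ).Prime → ¬ nn ϖ ∣ Nat.card C → ∀ h ∈ UM 9,
    N.ga h C = C → Al (nn ϖ) h = 0 →
    ∑ i, kw (yc (z (C ⊔ Ln (nn ϖ) i))) h + kw (yc (z (sm ϖ C))) h +
      kw (yc (z (sm (star ϖ) C))) h = 2 * kw (yc (z C)) h

section

variable {R : Type} [CommRing R]

/-- the weighted sum of the Kummer cocycles of the division points -/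
noncomputable def QS.kq (Q : QS) (φ : Zw →+* R) (M : Zw) (w : Wt R) (n : Finset ℕ) (h : GQ) : R :=
  ∑ i : Jg n, wp w n i.1 * dl φ M (Q.χ (N.sd n)) h (Q.z (N.Cn n i.1))

/-- the residual class -/
noncomputable def QS.dc (Q : QS) (φ : Zw →+* R) (w : Wt R) (n : Finset ℕ) (g₀ g : GQ) : R :=
  Q.kq φ pw w n (g₀ * g * g₀⁻¹ * g⁻¹)

/-- translation of the weights multiplies the sum -/
def QS.Sq (Q : QS) (φ : Zw →+* R) (w u : Wt R) (n : Finset ℕ) : Prop :=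
  ∀ h, N.H1 3 n h → ∀ b, Q.kq φ pw (sh w b) n h = wp u n b * Q.kq φ pw w n h

/-- the conditions on the standard weights -/
structure Sw (n ρ : Finset ℕ) (q e : ℕ) (γ : R) : Prop where
  pn : Pn n
  qn : q ∈ n
  qr : q ∉ ρ
  dv : 3 ^ (e + 1) ∣ q + 1
  ga : γ ^ 3 ^ e = 1
  ine : ∀ l ∈ n, l ∉ ρ → l ≠ q → l % 3 = 2

theorem kq_map {R' : Type} [CommRing R'] (ϑ : R →+* R') (Q : QS) (φ : Zw →+* R) (M : Zw)
    (w : Wt R) (n : Finset ℕ) (h : GQ) :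
    ϑ (Q.kq φ M w n h) = Q.kq (ϑ.comp φ) M (fun l i => ϑ (w l i)) n h := by
  simp only [QS.kq, dl, wp, map_sum, map_mul, map_prod, RingHom.comp_apply]

theorem kq_congr (Q : QS) (φ : Zw →+* R) (M : Zw) {w w' : Wt R} {n : Finset ℕ}
    (h : ∀ l ∈ n, w l = w' l) : Q.kq φ M w n = Q.kq φ M w' n := by
  funext g
  simp only [QS.kq, wp_congr h]

theorem phi_w {φ : Zw →+* R} (h : φ pw = 0) : φ ω = 1 := by
  obtain ⟨c, hc⟩ := pw_w
  rw [← sub_eq_zero, ← map_one φ, ← map_sub, hc, map_mul, h, zero_mul]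

theorem phi_uniq {φ φ' : Zw →+* R} (h : φ pw = 0) (h' : φ' pw = 0) : φ = φ' := by
  refine RingHom.ext fun b => ?_
  have : b = (b.re : Zw) + (b.im : Zw) * ω := by ext <;> simp
  rw [this]
  simp only [map_add, map_mul, map_intCast, phi_w h, phi_w h']

end

/-- the residual classes -/
noncomputable def dq {Λ : Type} [CommRing Λ] (Z : Dt Λ) (Q : QS) (n : ℕ) (S : Finset ℕ) :
    GQ → Λ :=
  Q.dc Z.E.ι (wv Z.E.ι 0 ∅ (Z.q n) n (1 + Z.E.T)) (insert (Z.q n) S) (Z.K.τ (-Z.q n))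

/-- existence -/
def HSM_st : Prop := Nonempty QS

/-- the comparison of the two sums -/
def BR_st : Prop := ∀ (Q : QS) (R : Type) [CommRing R] (φ : Zw →+* R),
  (∀ (M : Zw) (w : Wt R) (n : Finset ℕ), M ≠ 0 → φ M = 0 → Pn n → ∀ h, N.H1 M n h →
    (∀ i, eta (Q.χ (N.sd n)) h (Q.z (N.Cn n i)) = Q.z (N.Cn n i)) ∧
      Q.kt φ M w n h = φ pw * Q.kq φ M w n h) ∧
  (φ pw = 0 → ∀ M' : Zw, M' ≠ 0 → ∃ v, IsUnit v ∧ ∀ (w : Wt R) (n : Finset ℕ), Pn n → ∀ h,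
    N.H1 (M' * pw) n h → Q.kq φ (M' * pw) w n h = v * Q.kq φ pw w n h)

/-- the Kummer cocycle at a commutator -/
def COM_st : Prop := ∀ (R : Type) [CommRing R] (φ : Zw →+* R) (χ : GQ → ZMod 3) (P : Pt)
  (τ g : GQ), φ pw = 0 → Adt GK χ → τ ∈ UM 3 → χ τ = 0 → g ∈ GK → pw • (eta χ g P - P) = 0 →
  eta χ g (eta χ τ⁻¹ P - P) = eta χ τ⁻¹ P - P →
  dl φ pw χ (τ * g * τ⁻¹ * g⁻¹) P = dl φ pw χ g (eta χ τ⁻¹ P - P)

/-- the sum over the lines is not zero -/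
def TLQ_st : Prop := ∀ (Q : QS) (ε : ZMod 3) (C : AddSubgroup Pt) (l : ℕ), Fo ε C → l.Prime →
  l % 9 = 2 → ¬ l ∣ Nat.card C → ∑ i, Q.z (C ⊔ Ln l i) = T0 ∨ ∑ i, Q.z (C ⊔ Ln l i) = -T0

/-- the residual classes for the standard weights -/
def RK_st : Prop := ∀ (Q : QS) (R : Type) [CommRing R] (φ : Zw →+* R) (f : Fn) (n ρ : Finset ℕ)
  (q e : ℕ) (γ : R), φ pw = 0 → Sw n ρ q e γ →
  Q.Sq φ (wv φ f ρ q e γ) (uu φ f ρ q e γ) n ∧ ∀ τ ∈ UM 27,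
    Co (fun g => wp (uu φ f ρ q e γ) n (Av g)) GK (Q.dc φ (wv φ f ρ q e γ) n τ) ∧
    Q.dc φ (wv φ f ρ q e γ) n τ τ = 0 ∧
    (∀ V : Plc, V.l ≠ 3 → V.l ∉ n → ∀ g ∈ V.I, Q.dc φ (wv φ f ρ q e γ) n τ g = 0) ∧
    ∀ (V : Plc) (F : GQ), V.l % 3 = 2 → Frob V.l V.γ F → V.l ≠ q → V.l ∉ ρ → Al V.l τ = 0 →
      (V.l ∈ n → Q.dc φ (wv φ f ρ q e γ) n τ (F * F) = 0) ∧
      (V.l ∉ n → ∀ t ∈ V.I, Al V.l t = 1 → ∃ v, IsUnit v ∧
        Q.dc φ (wv φ f ρ q e γ) (insert V.l n) τ t = v * Q.dc φ (wv φ f ρ q e γ) n τ (F * F))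

/-- the local condition -/
def LOQ_st : Prop := ∀ (Q : QS) (R : Type) [CommRing R] (φ : Zw →+* R) (w : Wt R) (n : Finset ℕ)
  (D : Subgroup GQ) (k : GQ → ZMod 3), φ pw = 0 → Pn n → D ≤ GK →
  (∀ g ∈ D, ∀ l ∈ n, Al l g = (k g).val • lu l ω) → ∀ τ ∈ UM 9,
  (∀ g ∈ D, ∀ i, eta (Q.χ (N.sd n)) g (Q.z (N.Cn n (i - Av τ)) - Q.z (N.Cn n i)) =
      Q.z (N.Cn n (i - Av τ)) - Q.z (N.Cn n i)) ∧
    (∀ g ∈ D, Q.dc φ w n τ g = ∑ i : Jg n, wp w n i.1 *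
      dl φ pw (Q.χ (N.sd n)) g (Q.z (N.Cn n (i.1 - Av τ)) - Q.z (N.Cn n i.1))) ∧
    Kum φ pw (Q.χ (N.sd n)) D (Q.dc φ w n τ)

/-- the relation at a split prime -/
def SPQ_st : Prop := ∀ (Q : QS) (R : Type) [CommRing R] (φ : Zw →+* R) (w u : Wt R)
  (n : Finset ℕ) (ϖ : Zw), φ pw = 0 → Pn n → Q.Sq φ w u n → PP ϖ → (nn ϖ).Prime →
  nn ϖ ∉ n → (∀ i, w (nn ϖ) i = 1) → ∀ h, N.H1 3 (insert (nn ϖ) n) h →
  Q.kq φ pw w (insert (nn ϖ) n) h = (2 - wp u n (Lu ϖ) - wp u n (-Lu ϖ)) * Q.kq φ pw w n h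

/-- the class with two primes in the conductor -/
def BAQ_st : Prop := ∀ (Q : QS) (R : Type) [CommRing R] (φ : Zw →+* R) (w : Wt R) (q l : ℕ)
  (τ : GQ), φ pw = 0 → q.Prime → q % 3 = 2 → l.Prime → l % 9 = 2 → l ≠ q → τ ∈ UM 9 →
  Al q τ = 1 → Al l τ = 0 → w q = N.th (fun _ => 1) → (∀ i, w l i = i.val) →
  ∃ v, IsUnit v ∧ ∀ g ∈ GK, Al q g = 0 → Al l g = 0 →
    Q.dc φ w {q, l} τ g = v * ((kum 3 g).val : R)

/-- statements about all data -/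
def AllQ (S : ∀ (Λ : Type) [CommRing Λ], Dt Λ → QS → Fn → Prop) : Prop :=
  ∀ (Λ : Type) [CommRing Λ] (Z : Dt Λ) (Q : QS) (f : Fn), N.Lk Z Q.toHS f → S Λ Z Q f

/-- the residual classes form a system -/
def KQ_st : Prop := AllQ fun _ _ Z Q _ => Z.K1 (dq Z Q)

/-- the reduction of the classes -/
def RDQ_st : Prop := AllQ fun _ _ Z Q f => Z.Red (kap Z Q.toHS f) (dq Z Q) 1

/-- the residual class at one prime -/
def BSQ_st : Prop := AllQ fun _ _ Z Q _ => ∀ l ∈ Bn Z.r, l % 9 = 2 → Z.Bas (dq Z Q) {l}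

end Pool.Agent.MP_e23604_nt.M

end

section

/-!
The local condition of the residual classes, and the class with two primes in the conductor.
-/

set_option autoImplicit false

open Finset QuadraticAlgebra
open scoped Classical

namespace Pool.Agent.MP_e23604_nt.M

open B R S W V X N

theorem zo_LOQ (hCN : N.CN_st) (Q : QS) {n : Finset ℕ} (hn : Pn n) (i : N.JJ) (a : ℕ) :
    Q.z (N.Cn n (i + a • Lu ω)) = Q.z (N.Cn n i) := by
  induction a with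
  | zero => simp
  | succ a ih =>
    obtain ⟨-, c2, -, -, c5⟩ := hCN n (i + a • Lu ω) hn
    rw [succ_nsmul, ← add_assoc, ← c5 ω fun l _ =>
      ⟨ω ^ 2, 0, by rw [zero_mul, add_zero, ← pow_succ, www]⟩, Q.zo _ _ c2, ih]

theorem core_LOQ (hC : COM_st) (hCN : N.CN_st) (hAL : N.AL_st) (Q : QS) {R : Type} [CommRing R]
    {φ : Zw →+* R} (w : Wt R) {n : Finset ℕ} {g τ : GQ} {k : ℕ} (hφ : φ pw = 0) (hn : Pn n)
    (hg : g ∈ GK) (hk : ∀ l ∈ n, Al l g = k • lu l ω) (hτ : τ ∈ UM 9) :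
    (∀ i, eta (Q.χ (N.sd n)) g (Q.z (N.Cn n i)) = Q.z (N.Cn n i) - (Q.e g).val • T0) ∧
    Q.dc φ w n τ g = ∑ i : Jg n, wp w n i.1 *
      dl φ pw (Q.χ (N.sd n)) g (Q.z (N.Cn n (i.1 - Av τ)) - Q.z (N.Cn n i.1)) := by
  have τK := hτ.1
  have ti := GK.inv_mem τK
  have s1 : ∀ i, eta (Q.χ (N.sd n)) g (Q.z (N.Cn n i)) = Q.z (N.Cn n i) - (Q.e g).val • T0 :=
    fun i => by
      obtain ⟨-, c2, -, c4, -⟩ := hCN n i hn
      rw [Q.za _ _ c2 g hg, c4 g hg, Cn_SPL (i := i + Av g) (i' := i + k • Lu ω) fun l hl =>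
        congrArg (i l + ·) (hk l hl), zo_LOQ hCN Q hn]
  have s2 : ∀ i, eta (Q.χ (N.sd n)) τ⁻¹ (Q.z (N.Cn n i)) = Q.z (N.Cn n (i - Av τ)) := fun i => by
    obtain ⟨-, c2, -, c4, -⟩ := hCN n i hn
    rw [Q.za _ _ c2 _ ti, (Q.e0 _ ti).2 (UM_mono ⟨-pw, by decide⟩ ((UM _).inv_mem hτ)),
      ZMod.val_zero, zero_smul, sub_zero, c4 _ ti]
    refine congrArg Q.z (Cn_SPL fun l hl => ?_)
    have A := hAL l (hn l hl).1 (hn l hl).2
    have a := A.1 τ τK _ ti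
    rw [mul_inv_cancel, A.2.2.1 1 (one_mem _)] at a
    simp only [Pi.add_apply, Pi.sub_apply, Av]
    linear_combination -a
  refine ⟨s1, sum_congr rfl fun i _ => ?_⟩
  rw [hC R φ _ _ τ g hφ (Q.add _) (UM_mono ⟨3, by norm_num⟩ hτ) (Q.fac _ _ hτ) hg
    (by rw [s1, sub_sub_cancel_left, smul_neg, smul_comm, pw_T0, smul_zero, neg_zero])
    (by rw [s2, map_sub, s1, s1, sub_sub_sub_cancel_right]), s2]

theorem LOQ_pf (hC : COM_st) (hCN : N.CN_st) (hAL : N.AL_st) : LOQ_st := by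
  intro Q R _ φ w n D k hφ hn hD hk τ hτ
  have c := fun g hg => core_LOQ hC hCN hAL Q w hφ hn (hD hg) (hk g hg) hτ
  have s4 : ∀ g ∈ D, ∀ i, eta (Q.χ (N.sd n)) g (Q.z (N.Cn n (i - Av τ)) - Q.z (N.Cn n i)) =
      Q.z (N.Cn n (i - Av τ)) - Q.z (N.Cn n i) := fun g hg i => by
    rw [map_sub, (c g hg).1, (c g hg).1, sub_sub_sub_cancel_right]
  exact ⟨s4, fun g hg => (c g hg).2, Jg n, inferInstance, fun i => wp w n i.1,
    fun i => Q.z (N.Cn n (i.1 - Av τ)) - Q.z (N.Cn n i.1), fun i g hg => s4 g hg i.1, 0,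
    fun g hg => by rw [(c g hg).2, mul_zero, add_zero]⟩

theorem two_LOQ (hS : N.SUM_st) {A : Type} [AddCommMonoid A] {q l : ℕ} (h : l ≠ q)
    (Φ : ZMod (ml q) → ZMod (ml l) → A) :
    ∑ i : Jg {q, l}, Φ (i.1 q) (i.1 l) = ∑ b, ∑ a, Φ a b := by
  rw [(hS A {l} fun i => Φ (i q) (i l)).1 q (by simpa using h.symm), ← one_SPL l]
  simp only [Function.update_self, Function.update_of_ne h]

theorem BAQ_pf (hC : COM_st) (hT : TLQ_st) (hDL : N.DL_st) (hCN : N.CN_st) (hAL : N.AL_st)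
    (hLU : N.LU_st) (hS : N.SUM_st) (hP : X.KPI_st) : BAQ_st := by
  intro Q R _ φ w q l τ hφ hq q2 hl l9 hne hτ a1 a0 wq wl
  have q3 : q ≠ 3 := by omega
  have l3 : l ≠ 3 := by omega
  have l2 : l % 3 = 2 := by omega
  have hn : Pn {q, l} := fun p hp => by
    rcases mem_insert.1 hp with rfl | hp
    · exact ⟨hq, q3⟩
    · rw [mem_singleton.1 hp]
      exact ⟨hl, l3⟩
  have hn1 : Pn {q} := fun p hp => by
    rw [mem_singleton.1 hp]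
    exact ⟨hq, q3⟩
  have es : N.sd {q, l} = 1 := by
    rw [N.sd, prod_pair hne.symm, ← ZMod.natCast_mod q, ← ZMod.natCast_mod l, q2, l2]
    decide
  have eC : ∀ i, N.Cn {q, l} i = Ln q (i q) ⊔ Ln l (i l) := fun i => by
    rw [N.Cn, sup_insert, sup_singleton]
  have eW : ∀ i, wp w {q, l} i = N.th (fun _ => (1 : R)) (i q) * ((i l).val : R) := fun i => by
    rw [wp, prod_pair hne.symm, wq, wl]
  have ej : ∀ a b, ∃ i : N.JJ, i q = a ∧ i l = b := fun a b =>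
    ⟨Function.update (Function.update 0 l b) q a, Function.update_self ..,
      by rw [Function.update_of_ne hne, Function.update_self]⟩
  obtain ⟨ψ, hψ⟩ := psi_SPL hφ
  have r3 : (3 : R) = 0 := by
    have := congrArg ψ (show (3 : ZMod 3) = 0 by decide)
    rwa [map_ofNat, map_zero] at this
  have L := hLU q hq q3
  have L' := hLU l hl l3
  obtain ⟨m, hm⟩ := L.1
  obtain ⟨s, hs⟩ := L'.1
  have hm' : ml q / 3 = m := by omega
  have el : ml l = l + 1 := by rw [ml, if_pos l2]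
  obtain ⟨t, ht⟩ : ∃ t, s = 3 * t + 1 := ⟨l / 9, by omega⟩
  obtain ⟨ξ, hξ⟩ : ∃ ξ : ZMod (ml l) →+* R, ∀ b, (b.val : R) = ξ b :=
    ⟨ZMod.castHom (ringChar.dvd (by rw [hs, Nat.cast_mul, Nat.cast_ofNat, r3, zero_mul])) R,
      fun a => by rw [ZMod.natCast_val, ZMod.castHom_apply]⟩
  have u1 : IsUnit (ξ (lu l ω)) := by
    have e3 : ml l / 3 = 3 * t + 1 := by omega
    rw [← hξ]
    rcases L'.2.2.2.2.1 with e | e <;> rw [e, e3] <;> push_cast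
    · rw [r3, zero_mul, zero_add]
      exact isUnit_one
    · rw [r3, zero_mul, zero_add, mul_one, show (2 : R) = -1 by linear_combination r3]
      exact isUnit_one.neg
  have zo : ∀ a b, Q.z (Ln q (a + lu q ω) ⊔ Ln l (b + lu l ω)) = Q.z (Ln q a ⊔ Ln l b) :=
    fun a b => by
      obtain ⟨i, rfl, rfl⟩ := ej a b
      have := zo_LOQ hCN Q hn i 1
      rwa [one_smul, eC, eC] at this
  have z0 : (3 * m : ZMod (ml q)) = 0 := by
    rw [← ZMod.natCast_self (ml q)]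
    exact_mod_cast congrArg (Nat.cast (R := ZMod (ml q))) hm.symm
  obtain ⟨c, uc, hc⟩ : ∃ c, IsUnit (ξ c) ∧
      ∀ b, Q.z (Ln q (m - 1) ⊔ Ln l b) = Q.z (Ln q (-1) ⊔ Ln l (b - c)) := by
    rcases L.2.2.2.2.1 with e | e
    · have e1 : (m - 1 : ZMod (ml q)) = -1 + lu q ω := by
        rw [← ZMod.natCast_zmod_val (lu q ω), e, hm']
        ring
      exact ⟨lu l ω, u1, fun b => by rw [e1, ← zo (-1), sub_add_cancel]⟩
    · have e1 : (-1 : ZMod (ml q)) = m - 1 + lu q ω := by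
        rw [← ZMod.natCast_zmod_val (lu q ω), e, hm']
        push_cast
        linear_combination -z0
      exact ⟨-lu l ω, by rw [map_neg]; exact u1.neg, fun b => by rw [e1, sub_neg_eq_add, zo]⟩
  obtain ⟨σ, uσ, hσ⟩ : ∃ σ : Zw, IsUnit σ ∧ ∑ b, Q.z (Ln q (-1) ⊔ Ln l b) = σ • T0 := by
    obtain ⟨-, c2, c3, -⟩ := hCN {q} (Function.update 0 q (-1)) hn1
    rw [N.Cn, sup_singleton, Function.update_self] at c2 c3
    rcases hT Q _ _ l c2 hl l9 (c3 l hl (by simpa using hne)) with e | e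
    exacts [⟨1, isUnit_one, by rw [e, one_smul]⟩, ⟨-1, isUnit_one.neg, by rw [e, neg_smul, one_smul]⟩]
  refine ⟨_, (uc.mul (uσ.map φ)).mul (unit_SPL hDL hφ), fun g hg g1 g2 => ?_⟩
  obtain ⟨s1, s2⟩ := core_LOQ (k := 0) hC hCN hAL Q w hφ hn hg (fun p hp => by
    rcases mem_insert.1 hp with rfl | hp
    · rw [g1, zero_smul]
    · rw [mem_singleton.1 hp, g2, zero_smul]) hτ
  rw [es] at s1 s2
  have s3 : ∀ a b, eta (Q.χ 1) g (Q.z (Ln q a ⊔ Ln l b)) =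
      Q.z (Ln q a ⊔ Ln l b) - (Q.e g).val • T0 := fun a b => by
    obtain ⟨i, rfl, rfl⟩ := ej a b
    rw [← eC, s1]
  obtain ⟨-, -, d2, d3, d4⟩ := ((hDL R φ pw pw_ne hφ).2.2.2.2.2.2.2.2 (Q.χ 1) g hg).2.2
    (fix_SPL _ hg)
  obtain ⟨Y, hY⟩ : ∃ Y, Y = Q.z (Ln q 0 ⊔ Ln l 0) := ⟨_, rfl⟩
  have y1 : eta (Q.χ 1) g Y = Y - (Q.e g).val • T0 := hY ▸ s3 0 0
  have f : ∀ a b, eta (Q.χ 1) g (Q.z (Ln q a ⊔ Ln l b) - Y) = Q.z (Ln q a ⊔ Ln l b) - Y :=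
    fun a b => by rw [map_sub, s3, y1, sub_sub_sub_cancel_right]
  obtain ⟨D, hD⟩ : ∃ D : ZMod (ml q) → ZMod (ml l) → R,
      ∀ a b, D a b = dl φ pw (Q.χ 1) g (Q.z (Ln q a ⊔ Ln l b) - Y) := ⟨_, fun _ _ => rfl⟩
  have e1 : Q.dc φ w {q, l} τ g = ∑ b, ξ b * (D (-1) b - D (-1) (b - c)) := by
    refine s2.trans (Eq.trans (sum_congr rfl fun i _ => ?_) ((two_LOQ hS hne fun a b =>
      N.th (fun _ => (1 : R)) a * ((b.val : R) * (D (a - 1) b - D a b))).trans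
      (sum_congr rfl fun b _ => ?_)))
    · simp only [eW, eC, Pi.sub_apply, Av, a1, a0, sub_zero, hD]
      rw [← (d2 _ _ (f _ _) (f _ _)).2, sub_sub_sub_cancel_right, mul_assoc]
    have e := tel_SPL hm' fun a => D a b
    rw [← Equiv.sum_comp (Equiv.subRight (1 : ZMod (ml q)))] at e
    simp only [Equiv.subRight_apply, sub_add_cancel] at e
    simp only [mul_left_comm _ (b.val : R), ← mul_sum, mul_sub, sum_sub_distrib]
    rw [← mul_sub, ← mul_sub, e, hξ, hD (m - 1), hc, ← hD]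
  have e2 : ∑ b, D (-1) b = φ σ * dl φ pw (Q.χ 1) g T0 := by
    have p1 : eta (Q.χ 1) g (pw • Y) = pw • Y := by
      rw [eta_smul _ hg, y1, smul_sub, smul_comm pw _ T0, pw_T0, smul_zero, sub_zero]
    have p2 : ∑ _b : ZMod (ml l), Y = (-(s : Zw) * pw) • pw • Y := by
      rw [sum_const, card_univ, ZMod.card, hs, ← mul_smul, mul_assoc, ← pow_two, pw_sq,
        ← Nat.cast_smul_eq_nsmul Zw]
      congr 1
      push_cast
      ring
    have t0 := fix_SPL (Q.χ 1) hg _ pw_T0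
    simp only [hD]
    rw [← d4 _ _ _ fun b _ => f _ b, sum_sub_distrib, hσ, p2,
      (d2 _ _ (by rw [eta_smul _ hg, t0]) (by rw [eta_smul _ hg, p1])).2, d3 _ _ t0, d3 _ _ p1,
      map_mul, hφ, mul_zero, zero_mul, sub_zero]
  rw [e1]
  simp only [mul_sub, sum_sub_distrib]
  rw [← Equiv.sum_comp (Equiv.addRight c) fun b => ξ b * D (-1) (b - c)]
  simp only [Equiv.coe_addRight, add_sub_cancel_right, map_add, add_mul, sum_add_distrib,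
    ← mul_sum]
  rw [e2, dlT_SPL hDL hP hφ _ hg, Q.c1 g hg, hψ, hψ, map_neg]
  ring

end Pool.Agent.MP_e23604_nt.M

end
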