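import Pool.Agent.Mg.Fe23604m.G3a600f
import Pool.Agent.Mg.Fe23604m.G470ddd
import Pool.Agent.Mg.Fe23604m.Gdcefba
import Pool.Agent.Mg.Fe23604m.G7abfc9

set_option linter.all false

section

/-!
From systems of points to points of infinite order; the three families cover all numbers.
-/

set_option autoImplicit false

open Finset QuadraticAlgebra Filter Topology
open scoped Classical

namespace Pool.Agent.MP_e23604_nt.M

open B R S W X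

/-- the cubic character of `3 ^ v * m` in terms of ring class characters -/
theorem fn_Heeg (hF : FACN_st) {D v m : ℕ} (hD : D = 3 ^ v * m) (hm : ¬ 3 ∣ m) : ∃ f : Fn,
    (∀ g ∈ GK, ch D g = v * (2 * kum 3 g) + fs f (rad3 D).primeFactors (N.Av g)) ∧
      fs f (rad3 D).primeFactors (N.Lu ω) = 2 * ((m ^ 2 - 1) / 3 : ℕ) := by
  have h0 : m ≠ 0 := fun e => hm (e ▸ dvd_zero 3)
  have er : rad3 D = rad3 m := by
    have := rad3_pow h0 v (.inl rfl)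
    rwa [pow_one, ← hD] at this
  choose! F hF1 hF2 _ using hF
  have pr : ∀ l ∈ (rad3 m).primeFactors, l.Prime ∧ l ≠ 3 := fun l hl =>
    ⟨Nat.prime_of_mem_primeFactors hl, fun e => ndv_HeegN m (e ▸ Nat.dvd_of_mem_primeFactors hl)⟩
  refine ⟨fun l => (2 * m.factorization l) • F l, fun g hg => ?_, ?_⟩
  · have := add_HeegN (fun a => kum a g) (fun a b ha hb => by
      obtain ⟨t, ht⟩ := S.KAP_ok.2.2.1 a b (Nat.cast_ne_zero.2 fun e => ha (e ▸ dvd_zero 3))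
        (Nat.cast_ne_zero.2 fun e => hb (e ▸ dvd_zero 3))
      rw [Nat.cast_mul, ht, ep_pos hg]
      ring) hm
    have e := chD_pow h0 v 1 hg
    rw [pow_one, ← hD, Nat.cast_one, one_mul] at e
    refine e.trans (congrArg _ ?_)
    rw [chD, this, er, fs, mul_sum]
    refine sum_congr rfl fun l hl => ?_
    rw [hF1 l (pr l hl).1 (pr l hl).2 g hg]
    simp only [AddMonoidHom.nsmul_apply, nsmul_eq_mul, N.Av]
    push_cast
    ring
  · rw [add_HeegN (fun a => ((a ^ 2 - 1) / 3 : ℕ)) log_HeegN hm, er, fs, mul_sum]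
    refine sum_congr rfl fun l hl => ?_
    rw [← hF2 l (pr l hl).1 (pr l hl).2]
    simp only [AddMonoidHom.nsmul_apply, nsmul_eq_mul, N.Lu]
    push_cast
    ring

theorem fac_Heeg {D v m : ℕ} (hD : D = 3 ^ v * m) (hm : ¬ 3 ∣ m) : D.factorization 3 = v := by
  have := fac_pow (D := m) (fun e => hm (e ▸ dvd_zero 3)) v 1 3
  rwa [pow_one, ← hD, if_pos rfl, Nat.factorization_eq_zero_of_not_dvd hm] at this

/-- the character of the companion -/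
theorem cmp_Heeg {D : ℕ} (h : D ≠ 0) (j : ℕ) {g : GQ} (hg : g ∈ GK) :
    ch (3 ^ j * D ^ 2) g = j * (2 * kum 3 g) - ch D g := by
  have := chD_pow h j 2 hg
  rwa [show ((2 : ℕ) : ZMod 3) = -1 from rfl, neg_one_mul, ← sub_eq_add_neg] at this

/-- the arithmetic of the classes of the third family -/
theorem cls_Heeg {D v m : ℕ} (hD : D = 3 ^ v * m) (hm : m % 9 = 1 ∨ m % 9 = 8) (hv : v % 3 ≠ 1)
    (hp : par3 D = 1) : par3 (3 ^ 2 * D ^ 2) = 0 ∧ (((m ^ 2 - 1) / 3 : ℕ) : ZMod 3) = 0 ∧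
      ((v : ZMod 3) = 0 ∧ (rad3 D : ZMod 3) = 2 ∨ (v : ZMod 3) = 2 ∧ (rad3 D : ZMod 3) = 1) := by
  have h3 : ¬ 3 ∣ m := by omega
  have hD0 : D ≠ 0 := by rw [hD]; exact mul_ne_zero (by positivity) (by omega)
  have e := fac_Heeg hD h3
  rw [par3_eq v m hD e] at hp
  rw [par3_eq (2 + 2 * v) (m ^ 2) (by rw [hD]; ring) (by rw [fac_pow hD0, if_pos rfl, e]),
    rad3_pow hD0 _ (.inr rfl), rad_HeegN, ← ZMod.natCast_mod v 3, ZMod.natCast_eq_zero_iff]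
  generalize (((rad3 D).primeFactors.filter fun l => l % 3 = 2).card) = c at *
  have a1 : v % 3 < 3 := Nat.mod_lt _ three_pos
  have a3 : m ^ 2 % 9 = 1 := by rw [Nat.pow_mod]; rcases hm with e | e <;> rw [e]
  rw [show (2 + 2 * v) % 3 = (2 + 2 * (v % 3)) % 3 by omega]
  generalize v % 3 = x at *
  generalize m ^ 2 = q at *
  simp only [mem_insert, mem_singleton] at hp ⊢
  interval_cases x
  · rw [if_pos (by omega)] at hp
    rw [show (2 + 2 * 0) % 3 = 2 from rfl, if_neg (by omega)]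
    exact ⟨by omega, by omega, .inl ⟨rfl, (Odd.neg_one_pow (Nat.odd_iff.2 (by omega))).trans rfl⟩⟩
  · omega
  · rw [if_neg (by omega)] at hp
    rw [show (2 + 2 * 2) % 3 = 0 from rfl, if_pos (by omega)]
    exact ⟨by omega, by omega, .inr ⟨rfl, Even.neg_one_pow (Nat.even_iff.2 (by omega))⟩⟩

/-- the point of the system `H` has infinite order -/
def End (H : N.HS) : Prop := ∀ (r : ℕ) (f : Fn) (χ χ' : GQ → ZMod 3), Pair χ χ' r →
  (∃ l ∈ r.primeFactors, l % 9 = 2) →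
  (∀ g ∈ GK, χ g = H.χ r g + fs f r.primeFactors (N.Av g)) →
  (∀ g ∈ GK, χ' g = H.χ (-r) g - fs f r.primeFactors (N.Av g)) →
  fs f r.primeFactors (N.Lu ω) = 0 → ∀ n : ℕ, n ≠ 0 → n • yT H r.primeFactors f ⊥ ≠ 0

theorem heegM (H : N.HS) (c1 : ∀ g ∈ GK, H.χ 1 g = kum 3 g) (c2 : ∀ g ∈ GK, H.χ 2 g = 0)
    (hE : End H) (hY : YHS_st) (hF : FACN_st) (hN : NHB_st) (hK : X.KW_st) {D v m : ℕ}
    (h : ∀ j, W.Nice (3 ^ j * D) ∧ W.Nice (3 ^ j * D ^ 2)) (h2 : Two D) (hp : par3 D = 1)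
    (hD : D = 3 ^ v * m) (hm : m % 9 = 1 ∨ m % 9 = 8) (hv : v % 3 ≠ 1) : Heeg D := by
  have n1 : W.Nice D := by simpa using (h 0).1
  obtain ⟨a1, a2, a3⟩ := cls_Heeg hD hm hv hp
  have hP := pair_HeegN hN hK n1 (h 2).2 (rad3_pow n1.ne _ (.inr rfl)) hp a1
  obtain ⟨f, k3, k2⟩ := fn_Heeg hF hD (by omega)
  have h3 : (3 : ZMod 3) = 0 := rfl
  have e : (∀ g ∈ GK, ch D g = H.χ (rad3 D) g + fs f (rad3 D).primeFactors (N.Av g)) ∧
      ∀ g ∈ GK, ch (3 ^ 2 * D ^ 2) g = H.χ (-rad3 D) g - fs f (rad3 D).primeFactors (N.Av g) := by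
    rcases a3 with ⟨a, b⟩ | ⟨a, b⟩
    · refine ⟨fun g hg => by rw [k3 g hg, a, b, c2 g hg, zero_mul], fun g hg => ?_⟩
      rw [cmp_Heeg n1.ne 2 hg, k3 g hg, a, b, show (-2 : ZMod 3) = 1 from rfl, c1 g hg]
      push_cast
      linear_combination kum 3 g * h3
    · refine ⟨fun g hg => ?_, fun g hg => ?_⟩
      · rw [k3 g hg, a, b, c1 g hg]
        linear_combination kum 3 g * h3
      · rw [cmp_Heeg n1.ne 2 hg, k3 g hg, a, b, show (-1 : ZMod 3) = 2 from rfl, c2 g hg]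
        push_cast
        ring
  obtain ⟨l, l1, l2, l3⟩ := h2
  exact ⟨_, _, _, _, _, hP.tw', hY H _ f _ _ (rad3_sf D) (ndv_HeegN D) e.1 e.2,
    hE _ f _ _ hP ⟨l, Nat.mem_primeFactors.2 ⟨l1, (dvd_rad3 l1).2 ⟨by omega, by omega⟩,
      (rad3_sf D).ne_zero⟩, l2⟩ e.1 e.2 (by rw [k2, a2, mul_zero])⟩

/-- the three families cover all numbers -/
theorem cover_Heeg {D v m : ℕ} (hD : D = 3 ^ v * m) (hm : ¬ 3 ∣ m) :
    cls3 D ∈ SN ∨ ((m % 9 = 1 ∨ m % 9 = 8) ∧ v % 3 ≠ 1) ∨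
      (v % 3 = 1 ∧ (m % 9 = 1 ∨ m % 9 = 8) ∨ v % 3 = 2 ∧ ¬ (m % 9 = 1 ∨ m % 9 = 8)) := by
  have e1 : D / 27 ^ (v / 3) = 3 ^ (v % 3) * m := by
    refine Nat.div_eq_of_eq_mul_right (by positivity) ?_
    rw [hD, ← mul_assoc, show 27 = 3 ^ 3 from rfl, ← pow_mul, ← pow_add, Nat.div_add_mod]
  rw [cls3, fac_Heeg hD hm, e1]
  have a1 : v % 3 < 3 := Nat.mod_lt _ three_pos
  generalize v % 3 = x at *
  simp only [SN, mem_insert, mem_singleton]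
  interval_cases x <;> omega

theorem final_three (hF : Y.FINY_st)
    (h1 : ∀ D, (∀ j, W.Nice (3 ^ j * D) ∧ W.Nice (3 ^ j * D ^ 2)) → par3 D = 1 → cls3 D ∈ SN →
      Heeg D)
    (h2 : ∀ D v m, (∀ j, W.Nice (3 ^ j * D) ∧ W.Nice (3 ^ j * D ^ 2)) → Two D → par3 D = 1 →
      D = 3 ^ v * m → m % 9 = 1 ∨ m % 9 = 8 → v % 3 ≠ 1 → Heeg D)
    (h3 : ∀ D v m, (∀ j, W.Nice (3 ^ j * D) ∧ W.Nice (3 ^ j * D ^ 2)) → Two D → par3 D = 1 →
      D = 3 ^ v * m → ¬ 3 ∣ m →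
      v % 3 = 1 ∧ (m % 9 = 1 ∨ m % 9 = 8) ∨ v % 3 = 2 ∧ ¬ (m % 9 = 1 ∨ m % 9 = 8) → Heeg D)
    (r : ℕ) (hr : r ≤ 1) :
    Tendsto (fun X : ℕ => ({D : ℕ | 1 ≤ D ∧ D ≤ X ∧ par3 D = r ∧
      AddGroup.FG (EC D).toAffine.Point ∧ Module.finrank ℤ (EC D).toAffine.Point = r ∧
        Finite (Sha (EC D))}.ncard : ℝ) / X) atTop (𝓝 (1 / 2)) :=
  final_two hF (fun D h t p => by
    have n1 : W.Nice D := by simpa using (h 0).1
    obtain ⟨v, m, hm, hD⟩ := Nat.exists_eq_pow_mul_and_not_dvd n1.ne 3 (by norm_num)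
    rcases cover_Heeg hD hm with c | c | c
    exacts [h1 D h p c, h2 D v m h t p hD c.1 c.2, h3 D v m h t p hD hm c]) r hr

end Pool.Agent.MP_e23604_nt.M

end

section

/-!
The point of a system with division points has infinite order.
-/

set_option autoImplicit false

open Finset QuadraticAlgebra
open scoped Classical

namespace Pool.Agent.MP_e23604_nt.M

open B R S W V X

theorem CLSM_of (hQ : KQ_st) (hR : RDQ_st) (hB : BSQ_st) (hK : N.KS_st) (hF : N.FAM_st)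
    (hD : N.DVS_st) {Λ : Type} [CommRing Λ] (Z : Dt Λ) (Q : QS) (f : Fn)
    (h : N.Lk Z Q.toHS f) (h2 : ∃ l ∈ Z.r.primeFactors, l % 9 = 2) :
    Z.Cls (N.kap Z Q.toHS f) (dq Z Q) := by
  obtain ⟨f1, -⟩ := hF Λ Z _ f h
  obtain ⟨l, l1, l2⟩ := h2
  exact ⟨(hK Λ Z _ f h _ _ _ _ _ f1).1, hQ Λ Z Q f h, ⟨1, hR Λ Z Q f h⟩,
    ⟨{l}, hB Λ Z Q f h l (mem_filter.2 ⟨l1, by omega⟩) l2⟩,
    1, fun n g hg k hk => by simpa using hD Λ Z _ f h n g hg k hk⟩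

theorem ENDM_of (hL : N.LU_st) (hA : N.AL_st) (hX : V.LMX_st) (hb : V.LB_st) (hM : V.MACH_st)
    (hT : DAT_st) (hE : N.ENC_st) (hQ : KQ_st) (hR : RDQ_st) (hB : BSQ_st) (hK : N.KS_st)
    (hF : N.FAM_st) (hD : N.DVS_st) (Q : QS) : End Q.toHS := by
  intro r f χ χ' hP h2 e1 e2 e3
  obtain ⟨O, k, _, _, _, _, E, ϖ, red, hO⟩ := hX
  obtain ⟨Z, rfl, rfl, hs, c1, c2, z1, z2, z3⟩ := hT _ E χ χ' r true hP
  rw [← hs] at c1 c2
  subst c1 c2
  have h : N.Lk Z Q.toHS f := ⟨z1, z3.gen, fun n g => by simpa using z3.at' n g, e1, e2,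
    by rw [e3, Q.j0, add_zero], by rw [Q.j0, Q.j0, neg_zero]⟩
  exact end_of hL hA Z z1 z3 (lk_EndN hE h) fun g₀ =>
    hM O k Z ϖ red _ _ g₀ z1 (fun ε => hb _ _ (z1.tw ε)) hO (CLSM_of hQ hR hB hK hF hD Z Q f h h2)
      hP.ht z2 hP.hb

theorem heegM_of (hH : HSM_st) (hE : ∀ Q : QS, End Q.toHS) (hY : YHS_st) (hF : FACN_st)
    (hN : NHB_st) (hK : X.KW_st) (D v m : ℕ)
    (h : ∀ j, W.Nice (3 ^ j * D) ∧ W.Nice (3 ^ j * D ^ 2)) (h2 : Two D) (hp : par3 D = 1)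
    (hD : D = 3 ^ v * m) (hm : m % 9 = 1 ∨ m % 9 = 8) (hv : v % 3 ≠ 1) : Heeg D :=
  hH.elim fun Q => heegM Q.toHS Q.c1 Q.c2 (hE Q) hY hF hN hK h h2 hp hD hm hv

end Pool.Agent.MP_e23604_nt.M

end
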