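import Pool.Agent.Mg.Fe23604m.G7a6e34
import Pool.Agent.Mg.Fe23604m.Gc426ef
import Pool.Agent.Mg.Fe23604m.Gdcefba
import Pool.Agent.Mg.Fe23604m.Ga51075
import Pool.Agent.Mg.Fe23604m.G2ca419
import Pool.Agent.Mg.Fe23604m.Gc6e067

set_option linter.all false

section

/-!
The Hecke relation for the third family from the vanishing of the differential.
-/

set_option autoImplicit false

open Filter Topology Asymptotics Finset QuadraticAlgebra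
open scoped MatrixGroups Classical

namespace Pool.Agent.MP_e23604_nt.M

open B R S W Un

theorem MTL_of (hM : MGAL_st) (hB : LB_st) (hS : LS_st) (hV : LV_st) (hU : SU_st) (hA : AN_st)
    (hE : EQ_st) (hG : GR_st) (hZ : VA_st) (hC : KC_st) (hL : KL_st) (hN : KN_st) (hD : KD_st) :
    MTL_st := fun P C l X hP h hl l3 _ hX => by
  have n3 : l ≠ 3 := by omega
  have l0 : (l : ℂ) ≠ 0 := Nat.cast_ne_zero.2 hl.ne_zero
  have l1 : (l : ℤ) ≠ 0 := Nat.cast_ne_zero.2 hl.ne_zero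
  obtain ⟨L, a⟩ := h.ex_LC
  obtain ⟨σ, c, v, hσ, sc, ex, ey, gd⟩ := hD C P L l h hP a hl n3
  obtain ⟨N1, N2⟩ := hN C L l h a hl n3
  have cD := (hC P _ hP h.c3).1
  have cE := (hC P (l * cd C) hP fun e => ((Nat.prime_three.dvd_mul).1 e).elim
    (fun e => by omega) h.c3).1
  have st : St _ _ _ l v := ⟨cD, cE, div_ne_zero (pow_ne_zero _ (by norm_num))
    (pow_ne_zero _ (by norm_num)), hl, l3, gd⟩
  have fb : FB v := fun τ hτ => (gd τ hτ).b9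
  obtain ⟨-, μ, μ0, e0, e1⟩ := hL C P L h hP a
  obtain ⟨-, -, ra, rb, sm⟩ := (hS _ _ _ (fb σ hσ)).1 c L _ _ sc ex ey
  obtain ⟨a1, a2, -, -, a3⟩ := hA v fb
  have o : ∀ S ∈ X, Un.Ord L l (lg S) := fun S hS => (N2 S (hX.1 S hS).1 (hX.1 S hS).2).2.2.1
  have md : ∀ ρ, c * (lin ρ σ / l) ∈ L.lattice ↔ ¬ Nz l ρ := fun ρ => by
    rw [sc.2, Nz, not_not, ← lin_div_mem hσ l1, Int.cast_natCast]
  have : ∀ S ∈ X, ∃ ρ, c * (lin ρ σ / l) = lg S := fun S hS => by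
    obtain ⟨ρ, e⟩ := (mem_Lt hσ).1 ((sc.symm.2 _).2 (o S hS).mem)
    have := sc.1
    exact ⟨ρ, by rw [e]; field_simp⟩
  choose! f hf using this
  have nz : ∀ S ∈ X, Nz l (f S) := fun S hS => not_not.1 ((md _).not.1 (hf S hS ▸ (o S hS).nm))
  have s : ∀ τ ∈ HH, ∑ S ∈ X, fT l v (f S) τ = 0 := fun τ hτ => by
    have k := (hE v l fb hl n3).2.2
    refine (mul_eq_zero.1 ((((hU l (fT l v · τ) hl).2 fun ρ ρ' n b b' =>
      ((k ρ n τ hτ).1 ρ' b b').2.2).2 X f (fun ρ j n b => (k ρ n τ hτ).2 j b) nz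
        fun ρ n => ?_).symm.trans (hZ _ _ _ _ _ st τ hτ))).resolve_left
          (sub_ne_zero.2 (by exact_mod_cast hl.ne_one))
    obtain ⟨T, t1, t2, t3⟩ := N1 _ (((a3 l ρ hl n3 n).1 σ hσ).sc sc (R' := c * (lin ρ σ / l))
      (by simp))
    refine (existsUnique_congr fun S => and_congr_right fun hS => ?_).1 (hX.2 T t1 t2)
    obtain ⟨L', e'⟩ := (o S hS).ex
    rw [← (((N2 S (hX.1 S hS).1 (hX.1 S hS).2).2.2.2 L').2 e').lg, e']
    refine exists_congr fun j => ?_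
    rw [← md, sub_eq_add_neg ρ, lin_add, lin_neg, lin_smul, ← L.lattice.add_mem_iff_right (neg_mem t3),
      ← hf S hS]
    exact iff_of_eq (congrArg (· ∈ L.lattice) (by ring))
  obtain ⟨-, -, w, pe, mo⟩ := hG _ _ _ _ _ st
  have p0 : ∀ τ ∈ HH, 9 * fm oP v τ ≠ 0 := fun τ hτ =>
    mul_ne_zero (by norm_num) (hB _ _ _ (fb τ hτ)).2.2.2.2.2.1
  obtain ⟨G, g1, g2⟩ := ex_root (F := fun τ => 9 * fm oP v τ) ((((a1.mul (a1.add (.cst 1))).mul
    (a2.mul (a2.add (.cst 1)))).cus.hol).const_mul 9) p0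
  have d0 : (eC (mD C) / μ) ^ 3 = 9 * fm oP v σ := by
    have b := congrArg eC (hM C P h hP).1.pr
    have b0 := e0 0
    have b1 := e0 1
    have b2 := e0 2
    simp only [mC3, be, Matrix.cons_val, ra, rb] at b0 b1 b2
    rw [map_mul, map_mul, map_neg, map_pow, b0, b1, b2] at b
    rw [div_pow, div_eq_iff (pow_ne_zero 3 μ0), fm, oP]
    linear_combination b - μ ^ 3 * (rA _ _ _ * (rA _ _ _ + 1) * (rB _ _ _ * (rB _ _ _ + 1))) * cD.pr
  have G0 : ∀ τ ∈ HH, G τ ≠ 0 := fun τ hτ e => p0 τ hτ (by rw [← g2, e]; ring)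
  obtain ⟨δ, g3, g4, g5⟩ : ∃ δ : ℂ → ℂ, DifferentiableOn ℂ δ HH ∧
      (∀ τ ∈ HH, δ τ ^ 3 = 9 * fm oP v τ) ∧ δ σ = eC (mD C) / μ :=
    ⟨fun τ => eC (mD C) / μ / G σ * G τ, g1.const_mul _, fun τ _ => by
      rw [mul_pow, div_pow, d0, g2, g2, div_self (p0 σ hσ), one_mul],
      div_mul_cancel₀ _ (G0 σ hσ)⟩
  have δ0 : ∀ τ ∈ HH, δ τ ≠ 0 := fun τ hτ e => p0 τ hτ (by rw [← g4 τ hτ, e]; ring)
  obtain ⟨ζ, z1, z2⟩ := mo δ g3 g4
  generalize he : Dc (l * cd C) P = E at cE st gd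
  have E2 : E 2 ≠ 0 := fun e => by simpa [e] using cE.pr
  have θ : (-eC (cbr 3)) ^ (l - 1) ≠ 0 := pow_ne_zero _ (neg_ne_zero.2 th_ne)
  have y := fun S hS τ hτ => (hV _ _ _ _ _ _ _ cD cE n3 (gd τ hτ)).2.2.2.2.2.2 _
    ((a3 l _ hl n3 (nz S hS)).1 τ hτ)
  have hs : σ + ((w * l : ℕ) : ℂ) ∈ HH := by simpa using hσ
  have K := loc_const (S := X) (Y := fun S τ => E 0 / E 2 * fn oY l v (f S) τ)
    (X := fun S τ => (E 2 * (-eC (cbr 3)) ^ (l - 1))⁻¹ * (δ τ ^ l * fn oR l v (f S) τ))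
    (fun S hS => ((g3.pow l).mul (a3 l _ hl n3 (nz S hS)).2.2.2.2.2.cus.hol).const_mul _)
    (fun S hS => (a3 l _ hl n3 (nz S hS)).2.2.2.2.1.cus.hol.const_mul _)
    (fun S hS τ hτ => mul_ne_zero (inv_ne_zero (mul_ne_zero E2 θ))
      (mul_ne_zero (pow_ne_zero _ (δ0 τ hτ)) (y S hS τ hτ).2.2.1))
    (fun S hS τ hτ => by
      have b : ((-eC (cbr 3)) ^ (l - 1)) ^ 3 = (-3) ^ (l - 1) := by
        rw [← pow_mul, mul_comm, pow_mul, Odd.neg_pow (by decide), th_cube]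
      obtain ⟨j, rfl⟩ := Nat.exists_eq_add_one_of_ne_zero hl.ne_zero
      rw [sq, ← mul_add_one, fn, (y S hS τ hτ).2.2.2, mul_pow, mul_pow, inv_pow, mul_pow, b,
        ← pow_mul, mul_comm _ 3, pow_mul, g4 τ hτ, Kl, fn, fm, Nat.add_sub_cancel]
      field_simp
      ring)
    (fun τ hτ => by
      rw [← mul_zero (E 0 / E 2 / ((E 2 * (-eC (cbr 3)) ^ (l - 1))⁻¹ * δ τ ^ l) ^ 2), ← s τ hτ,
        mul_sum]
      refine sum_congr rfl fun S hS => ?_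
      rw [deriv_const_mul_field, fT, div_mul_div_comm, ← mul_pow, mul_assoc]) hs hσ
  have z := fun S hS => (hM _ P (N2 S (hX.1 S hS).1 (hX.1 S hS).2).1 hP).1.on
  have u : ∀ S ∈ X, eC (mE (C ⊔ AddSubgroup.zmultiples S) P /
        mE (C ⊔ AddSubgroup.zmultiples S) (7 • P)) = E 0 / E 2 * fn oY l v (f S) σ ∧
      eC (mD (C ⊔ AddSubgroup.zmultiples S) / mE (C ⊔ AddSubgroup.zmultiples S) (7 • P)) =
        (E 2 * (-eC (cbr 3)) ^ (l - 1))⁻¹ * (δ σ ^ l * fn oR l v (f S) σ) := fun S hS => by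
    obtain ⟨-, ν, ν0, b, d⟩ := e1 l S hl n3 (hX.1 S hS).1 (hX.1 S hS).2
    obtain ⟨m1, m2, m3⟩ := sm l (lin (f S) σ / l) (lg S) (by simp [hf S hS])
    obtain ⟨-, n1, n2, -⟩ := (hB _ _ _ (fb σ hσ)).2.2.2.2.2.2.2 l _ n3
      ((a3 l _ hl n3 (nz S hS)).1 σ hσ)
    have b0 := b 0
    have b2 := b 2
    simp only [mC3, Matrix.cons_val, m1, m2, he] at b0 b2
    have := n1 2
    have := n2 2
    have := pow_ne_zero (3 * (l - 1)) (inv_ne_zero sc.1)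
    rw [map_div₀, map_div₀, b0, b2, eq_div_of_mul_eq θ d, m3, g5, fn, fn, oY, oR]
    generalize c⁻¹ ^ (3 * (l - 1)) = κ at *
    generalize (eC (mD C) / μ) ^ l = d at *
    constructor <;> field_simp
  obtain ⟨j, hj, e3⟩ : ∃ j, (j = 1 ∨ j = 2) ∧ ζ ^ l = zc3 ^ j := by
    have z3 : ζ ^ 3 = 1 := by linear_combination (ζ - 1) * z1
    rw [← Nat.div_add_mod l 3, pow_add, pow_mul, z3, l3, one_pow, one_mul]
    have : (ζ ^ 2 - zc3 ^ 1) * (ζ ^ 2 - zc3 ^ 2) = 0 := by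
      linear_combination (ζ ^ 2 - ζ + 1) * z1 - ζ ^ 2 * zc3_spec + zc3_cube
    rcases mul_eq_zero.1 this with b | b
    exacts [⟨1, Or.inl rfl, sub_eq_zero.1 b⟩, ⟨2, Or.inr rfl, sub_eq_zero.1 b⟩]
  have F : iC ((ω : Zw) ^ j • ∑ S ∈ X, mq P (C ⊔ AddSubgroup.zmultiples S)) =
      iC (∑ S ∈ X, mq P (C ⊔ AddSubgroup.zmultiples S)) := by
    rw [smul_sum, map_sum, map_sum]
    refine (sum_congr rfl fun S hS => ?_).trans (K.trans (sum_congr rfl fun S hS => ?_))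
    · rw [mq, tq, (w_pow_pt_T (z S hS) j).2, iC_pt (w_pow_pt_T (z S hS) j).1, map_mul, map_pow,
        (u S hS).1, (u S hS).2, (pe _ (nz S hS) σ hσ).1, (pe _ (nz S hS) σ hσ).2, z2 σ hσ, mul_pow,
        e3, zc3]
      congr 1
      ring
    · rw [mq, tq, iC_pt (z S hS), (u S hS).1, (u S hS).2]
  have := congrArg xc (iC_inj F)
  rw [xc_wpow] at this
  refine (two_API _).2 ((mul_eq_zero.1 (by linear_combination this :
    (w3 ^ j - 1) * xc _ = 0)).resolve_left (sub_ne_zero.2 ?_))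
  rcases hj with rfl | rfl
  exacts [by simpa using w3_ne_one, w3_sq_ne.1]

end Pool.Agent.MP_e23604_nt.M

end

section

/-!
The reduction of the classes of a divisible system.
-/

set_option autoImplicit false

open Finset QuadraticAlgebra
open scoped Classical

namespace Pool.Agent.MP_e23604_nt.M

open B R S W V X N

theorem kq_RDQ {R : Type} [CommRing R] (Q : QS) (φ : Zw →+* R) (M : Zw) {w w' : Wt R}
    {n : Finset ℕ} (c : ℕ → R) (h : ∀ l ∈ n, ∀ i, w l i = c l * w' l i) (g : GQ) :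
    Q.kq φ M w n g = (∏ l ∈ n, c l) * Q.kq φ M w' n g := by
  simp only [QS.kq, wp, mul_sum, ← mul_assoc, ← prod_mul_distrib]
  exact sum_congr rfl fun i _ => by rw [prod_congr rfl fun l hl => h l hl _]

theorem RDQ_pf (hB : BR_st) (hR : RK_st) (hS' : SPQ_st) (hAL : N.AL_st) (hKT : KT_st)
    (hK : KIT_st) (hW : WT_st) (hFA : FAM_st)
    (hT : ∀ r : ℕ, r ≠ 0 → ¬ 3 ∣ r → ∀ ϖ, ϖ ∈ V.Tr r ↔ PP ϖ ∧ ϖ ∣ r) : RDQ_st := by
  intro Λ _ Z Q f hL n S hS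
  rcases n with _ | n
  · exact ⟨1, Z.E.ne, fun g _ => by simp⟩
  obtain ⟨f1, f2, f3, f4, f5⟩ := hFA Λ Z _ f hL
  obtain ⟨q1, q2, q3⟩ := f3 (n + 1)
  have hZ := hL.ok
  have r0 := (hZ.tw true).sf.ne_zero
  have r3 := (hZ.tw true).n3
  have qp := hZ.qp (n + 1)
  set q := Z.q (n + 1) with hq
  let π := Ideal.Quotient.mk (Z.pn (n + 1))
  have p0 : ∀ ε, π.comp (Z.ph ε) pw = 0 := fun ε =>
    Ideal.Quotient.eq_zero_iff_mem.2 (f2.mb (n + 1) ε)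
  set φ := π.comp Z.E.ι with hφ
  have p1 : φ pw = 0 := p0 true
  have p2 : ∀ ε, π.comp (Z.ph ε) = φ := fun ε => phi_uniq (p0 ε) p1
  have pω := phi_w p1
  have p3 : φ 3 = 0 := by rw [show (3 : Zw) = pw * -pw by decide, map_mul, p1, zero_mul]
  have t0 : ((3 : ℕ) : Λ ⧸ Z.pn (n + 1)) = 0 := by
    rw [← map_natCast φ]
    exact p3
  let j : ZMod 3 →+* Λ ⧸ Z.pn (n + 1) := ZMod.castHom (ringChar.dvd t0) _
  set γ := π (1 + Z.E.T)
  let Ps := Z.r.primeFactors.filter fun l => ¬ l % 3 = 2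
  let N₁ := insert q (S ∪ Bn Z.r)
  have s1 : ∀ l ∈ S, l.Prime ∧ l % 3 = 2 ∧ ¬ l ∣ Z.r := fun l hl =>
    ⟨(hS l hl).1, by
      have : 3 ∣ l + 1 := ((dvd_pow_self 3 (by omega)).mul_right _).trans (hS l hl).2.1
      omega, (f1.pr _ l (hS l hl)).2.2.1⟩
  have n1 : ∀ l ∈ N₁, l.Prime ∧ l % 3 = 2 := fun l hl => by
    simp only [N₁, Bn, mem_insert, mem_union, mem_filter, Nat.mem_primeFactors] at hl
    rcases hl with rfl | hl | hl
    exacts [⟨qp, q1⟩, ⟨(s1 l hl).1, (s1 l hl).2.1⟩, ⟨hl.1.1, hl.2⟩]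
  have n2 : ∀ l ∈ Ps, l.Prime ∧ l ∣ Z.r ∧ l % 3 = 1 := fun l hl => by
    obtain ⟨h1, h2⟩ := mem_filter.1 hl
    obtain ⟨h3, h4, -⟩ := Nat.mem_primeFactors.1 h1
    refine ⟨h3, h4, ?_⟩
    have : ¬ 3 ∣ l := fun e => r3 (e.trans h4)
    omega
  have n3 : ∀ l ∈ N₁, l ∉ Ps := fun l h h' => by
    have := (n1 l h).2
    have := (n2 l h').2.2
    omega
  have pn : ∀ P ⊆ Ps, Pn (N₁ ∪ P) := fun P hP l hl => by
    rcases mem_union.1 hl with h | h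
    · exact ⟨(n1 l h).1, by have := (n1 l h).2; omega⟩
    · exact ⟨(n2 l (hP h)).1, by have := (n2 l (hP h)).2.2; omega⟩
  have qN : q ∈ N₁ := mem_insert_self _ _
  have hk : ∀ P ⊆ Ps, ∀ M, M ≠ 0 → φ M = 0 → ∀ g ∈ GK,
      N.H1 M (N₁ ∪ P) (Z.K.τ (-q) * g * (Z.K.τ (-q))⁻¹ * g⁻¹) := fun P hP M h0 h1 g hg =>
    (hKT Q.toHS _ φ M (fun _ _ => 0) _ h0 h1 (pn P hP)).2.2.2.2.2.2.1 _ (hZ.pk.gk _).2 g hg
  have key : ∀ g ∈ GK, ∀ P ⊆ Ps,
      Q.kq φ pw (wv φ 0 Ps q (n + 1) γ) (N₁ ∪ P) (Z.K.τ (-q) * g * (Z.K.τ (-q))⁻¹ * g⁻¹) =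
      (∏ ϖ ∈ (Sz Z.r).filter fun ϖ => nn ϖ ∈ P, (γ ^ ((lu q ϖ).val % 3 ^ (n + 1)) - 1)) *
      Q.kq φ pw (wv φ 0 Ps q (n + 1) γ) N₁ (Z.K.τ (-q) * g * (Z.K.τ (-q))⁻¹ * g⁻¹) := by
    intro g hg P
    induction P using Finset.induction_on with
    | empty => simp
    | insert p P hp ih =>
      intro hP
      have hP' := (subset_insert p P).trans hP
      have pP := hP (mem_insert_self p P)
      obtain ⟨a1, a2, a3⟩ := n2 p pP
      obtain ⟨ϖ, b1, rfl, b3, b4⟩ := spl_RED a1 a3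
      have sw : Sw (N₁ ∪ P) Ps q (n + 1) γ := ⟨pn P hP', mem_union_left _ qN, n3 q qN,
        ((pow_dvd_pow 3 (by omega)).mul_right _).trans (hZ.qd (n + 1)),
        (map_pow π _ _).symm.trans ((Ideal.Quotient.eq.2 (f2.le _ q3)).trans (map_one π)),
        fun l hl h _ => (n1 l ((mem_union.1 hl).resolve_right fun e => h (hP' e))).2⟩
      obtain ⟨c1, -, -, c2, -⟩ := hW _ φ 0 Ps (N₁ ∪ P) q (n + 1) γ sw.pn sw.qn sw.qr sw.dv sw.ga
        fun l hl h h' => by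
          have e := sw.ine l hl h h'
          obtain ⟨t, ht⟩ : 3 ∣ l + 1 := by omega
          exact ⟨e, by rw [← Nat.cast_succ, Nat.succ_eq_add_one, ht, Nat.cast_mul, t0, zero_mul]⟩
      have e1 := hS' Q _ φ _ _ _ ϖ p1 sw.pn (hR Q _ φ 0 _ _ _ _ _ p1 sw).1 b1 a1
        (fun e => (mem_union.1 e).elim (n3 _ · pP) hp)
        (fun i => by simp [wv, pP, (mem_filter.1 pP).2])
        _ (union_insert (nn ϖ) N₁ P ▸ hk _ hP 3 (by decide) p3 g hg)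
      have e2 : ((Sz Z.r).filter fun ϖ' => nn ϖ' ∈ insert (nn ϖ) P) =
          insert ϖ (insert (star ϖ) ((Sz Z.r).filter fun ϖ' => nn ϖ' ∈ P)) := by
        ext ϖ'
        simp only [mem_filter, mem_insert, Sz, hT _ r0 r3, ← or_assoc, ← b4]
        refine ⟨fun h => h.2.imp (fun e => ⟨h.1.1.1, e⟩) fun e => ⟨h.1, e⟩, fun h => h.elim
          (fun h => ⟨⟨⟨h.1, ?_⟩, h.2 ▸ a1⟩, .inl h.2⟩) fun h => ⟨h.1, .inr h.2⟩⟩
        exact Dvd.dvd.trans ⟨_, (mul_star_nn ϖ').symm⟩ (Nat.cast_dvd_cast (h.2 ▸ a2))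
      have e3 : lu q (star ϖ) = -lu q ϖ := (hK q qp (by omega)).bar ϖ
        (IsCoprime.of_isCoprime_of_dvd_left (Nat.Coprime.cast ((Nat.coprime_primes a1 qp).2
          fun e => by omega)) ⟨_, (mul_star_nn ϖ).symm⟩)
      have e4 := ((c1 q (mem_union_left _ qN)).2 (lu q ϖ) (-lu q ϖ)).symm.trans
        ((congrArg _ (add_neg_cancel _)).trans (c1 q (mem_union_left _ qN)).1)
      simp only [uu, n3 q qN, if_false, if_true] at e4
      rw [union_insert, e1, ih hP', e2, prod_insert (by simp [b3, hp]),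
        prod_insert (by simp [hp, nn_star]), e3, c2, c2]
      simp only [map_pow, pω, one_pow, one_mul, Lu, Pi.neg_apply]
      rw [← mul_assoc, ← mul_assoc]
      congr 2
      linear_combination -e4
  have e0 : (3 : Zw) ^ (n + 1) = (-pw * 3 ^ n) * pw := by linear_combination (3 ^ n) * pw_sq
  have m0 : -pw * 3 ^ n ≠ 0 := mul_ne_zero (by decide) (pow_ne_zero _ (by decide))
  obtain ⟨v, v1, v2⟩ := (hB Q _ φ).2 p1 _ m0
  obtain ⟨s, s2, s3⟩ : ∃ s : Λ, IsUnit s ∧ Z.ph (Z.sd S) pw = Z.E.ι pw * s := by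
    cases Z.sd S
    · exact ⟨-1, isUnit_one.neg, by simp [Dt.ph, starRingEnd_apply, star_pw]⟩
    · exact ⟨1, isUnit_one, by simp [Dt.ph]⟩
  let c : ℕ → Λ ⧸ Z.pn (n + 1) := fun l => if l ∈ Bn Z.r then j (f l 1) else 1
  obtain ⟨v', v3, v4⟩ := (f5 _).2 (π s * (v * ∏ l ∈ N₁ ∪ Ps, c l)) ((s2.map π).mul (v1.mul
    (IsUnit.prod_iff.2 fun l _ => by
      by_cases e : l ∈ Bn Z.r
      · simpa [c, e] using (f4 l (mem_filter.1 e).1).isUnit.map j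
      · simp [c, e])))
  refine ⟨v', v3, fun g hg => ?_⟩
  have e5 : insert q (Z.r.primeFactors ∪ S) = N₁ ∪ Ps := by
    ext l
    simp only [N₁, Ps, Bn, mem_insert, mem_union, mem_filter]
    tauto
  have e7 : (Sz Z.r).filter (fun ϖ => nn ϖ ∈ Ps) = Sz Z.r := filter_true_of_mem fun ϖ h => by
    obtain ⟨h1, h2⟩ := mem_filter.1 h
    obtain ⟨h3, h4⟩ := (hT _ r0 r3 ϖ).1 h1
    have := nn_mod3 h3.2.pw
    exact mem_filter.2 ⟨Nat.mem_primeFactors.2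
      ⟨h2, h2.dvd_of_dvd_pow (nn_nat Z.r ▸ nn_dvd h4), r0⟩, by omega⟩
  have t1 : (3 : Zw) ^ (n + 1) ≠ 0 := pow_ne_zero _ (by decide)
  have hH := hk _ subset_rfl _ t1 (by rw [pow_succ, map_mul, p3, mul_zero]) g hg
  suffices h : s * Q.kq (Z.ph (Z.sd S)) (3 ^ (n + 1))
      (wv (Z.ph (!Z.s₀)) f Z.r.primeFactors q (n + 1) (1 + Z.E.T)) (N₁ ∪ Ps)
      (Z.K.τ (-q) * g * (Z.K.τ (-q))⁻¹ * g⁻¹) - v' * (∏ ϖ ∈ Sz Z.r,
      (Z.ga (n + 1) (Z.K.σ ϖ) - 1)) * dq Z Q (n + 1) (S ∪ Bn Z.r) g ∈ Z.pn (n + 1) by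
    obtain ⟨a, ha, z, hz, e⟩ := Submodule.mem_sup.1 h
    obtain ⟨a, rfl⟩ := Ideal.mem_span_singleton.1 ha
    let π' := Ideal.Quotient.mk (Ideal.span {Z.E.ι pw ^ (1 + 1)} ⊔ Z.E.m ^ (n + 1))
    have e8 := ((hB Q _ (π'.comp (Z.ph (Z.sd S)))).1 _ (fun l i => π'
      (wv (Z.ph (!Z.s₀)) f Z.r.primeFactors q (n + 1) (1 + Z.E.T) l i)) _ t1
      (Ideal.Quotient.eq_zero_iff_mem.2 (Ideal.mem_sup_right (f1.mb (n + 1) _)))
      (pn _ subset_rfl) _ hH).2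
    rw [← kt_map, ← kq_map, RingHom.comp_apply, ← map_mul, s3, Ideal.Quotient.eq] at e8
    convert add_mem e8 (Submodule.add_mem_sup (Ideal.mem_span_singleton.2 (dvd_mul_right _ a))
      (Ideal.mul_mem_left _ (Z.E.ι pw) hz)) using 1
    rw [N.kap, N.kk, kt0, ← hq, e5]
    linear_combination (-Z.E.ι pw) * e
  refine Ideal.Quotient.eq.1 ?_
  change π _ = π _
  rw [map_mul, map_mul, map_mul, v4, map_prod, dq, QS.dc, kq_map, kq_map, wv_map, wv_map, p2, p2,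
    ← hφ, ← hq, e0, v2 _ _ (pn _ subset_rfl) _ (e0 ▸ hH),
    kq_RDQ Q φ pw (w' := wv φ 0 Ps q (n + 1) γ) c fun l hl i => ?_, key g hg _ subset_rfl, e7,
    kq_congr Q φ pw (w' := wv φ 0 ∅ q (n + 1) γ) fun l hl => ?_, ← mul_assoc, ← mul_assoc,
    ← mul_assoc, mul_assoc (π s)]
  · congr 2
    refine prod_congr rfl fun ϖ h => ?_
    obtain ⟨h3, h4⟩ := (hT _ r0 r3 ϖ).1 (mem_filter.1 h).1
    obtain ⟨h5, h6, -⟩ := hZ.pk.tm ϖ h3
    rw [map_sub, map_one, Dt.ga, map_pow, hL.att, ZMod.val_natCast,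
      ((hAL q qp (by omega)).2.2.2.2.2.1 _ (fun e => q2 (e ▸ (PLK_ok.2.2.2.1 _ _).1 (h5.dvd h4)))
        (h3.l_neK h5)).2.1 ϖ _ h3 h5 h6]
  · funext i
    simp [wv, n3 l hl]
  · by_cases e : l ∈ Bn Z.r
    · obtain ⟨h1, h2⟩ := mem_filter.1 e
      have h3 : l ≠ q := fun e => q2 (e ▸ Nat.dvd_of_mem_primeFactors h1)
      have h4 : l ∉ Ps := fun e => (mem_filter.1 e).2 h2
      have h5 : f l i = i.val * f l 1 := by
        rw [← nsmul_eq_mul, ← map_nsmul, nsmul_eq_mul, mul_one, ZMod.natCast_zmod_val]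
      simp only [wv, c, e, h1, h2, h3, h4, if_true, if_false, map_sum, map_pow, pω, one_pow,
        sum_const, card_range, nsmul_eq_mul, mul_one]
      rw [← j_val three_ne_zero j, h5, map_mul, map_natCast, mul_comm]
    · by_cases h1 : l ∈ Z.r.primeFactors
      · have h2 : ¬ l % 3 = 2 := fun h => e (mem_filter.2 ⟨h1, h⟩)
        have h4 : l ∈ Ps := mem_filter.2 ⟨h1, h2⟩
        simp only [wv, c, e, h1, h2, h4, if_true, if_false, map_pow, pω, one_pow, mul_one]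
      · have h4 : l ∉ Ps := fun e => h1 (mem_filter.1 e).1
        simp only [wv, c, e, h1, h4, if_false, one_mul]
        rfl

end Pool.Agent.MP_e23604_nt.M

end

section

/-!
The relation at a split prime for the division points, and the residual class at one prime.
-/

set_option autoImplicit false

open Finset QuadraticAlgebra
open scoped Classical

namespace Pool.Agent.MP_e23604_nt.M

open B R S W V X N

theorem SPQ_pf (hB : BR_st) (hDL : N.DL_st) (hCN : N.CN_st) (hS : N.SUM_st) (hP : X.KPI_st) :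
    SPQ_st := by
  intro Q R _ φ w u n ϖ hφ hn hSh hϖ hp hpn hw h hh
  have p1 : nn ϖ % 3 = 1 := nn_mod3 hϖ.2.pw
  have h3 : nn ϖ ≠ 3 := by omega
  have hn' : Pn (insert (nn ϖ) n) := fun l hl => by
    rcases mem_insert.1 hl with rfl | hl
    exacts [⟨hp, h3⟩, hn l hl]
  have es : N.sd (insert (nn ϖ) n) = N.sd n := by
    rw [N.sd, prod_insert hpn, ← ZMod.natCast_mod, p1, Nat.cast_one, one_mul, N.sd]
  have hh0 : N.H1 3 n h := ⟨hh.1, fun l hl => hh.2 l (mem_insert_of_mem hl)⟩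
  have φ3 : φ 3 = 0 := by
    obtain ⟨c, hc⟩ := pw_dvd3
    rw [hc, map_mul, hφ, zero_mul]
  have f := ((hB Q R φ).1 3 w n (by decide) φ3 hn h hh0).1
  have f' := ((hB Q R φ).1 3 w _ (by decide) φ3 hn' h hh).1
  have h9 : h ∈ UM 9 := UM_mono (dvd_mul_right 9 3) hh.1
  have c0 := Q.fac (N.sd n) h h9
  rw [es] at f'
  obtain ⟨ψ, hψ⟩ := psi_SPL hφ
  have cp : ∀ l ∈ n, IsCoprime ϖ l ∧ IsCoprime (star ϖ) l := fun l hl => by
    have c : IsCoprime (ϖ * star ϖ) (l : Zw) := by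
      rw [mul_star_nn]
      exact Nat.Coprime.cast ((Nat.coprime_primes hp (hn l hl).1).2 fun e => hpn (e ▸ hl))
    exact ⟨c.of_mul_left_left, c.of_mul_left_right⟩
  have eC : ∀ (i : N.JJ) a, N.Cn (insert (nn ϖ) n) (Function.update i (nn ϖ) a) =
      N.Cn n i ⊔ Ln (nn ϖ) a := fun i a => by
    rw [N.Cn, sup_insert, Function.update_self, sup_comm]
    exact congrArg (· ⊔ _)
      (Cn_SPL fun l hl => Function.update_of_ne (ne_of_mem_of_not_mem hl hpn) _ _)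
  have eW : ∀ (i : N.JJ) a, wp w (insert (nn ϖ) n) (Function.update i (nn ϖ) a) = wp w n i :=
    fun i a => by
      rw [wp, prod_insert hpn, hw, one_mul]
      exact prod_congr rfl fun l hl => by rw [Function.update_of_ne (ne_of_mem_of_not_mem hl hpn)]
  have D : ∀ i : N.JJ, _ := fun i =>
    (dlP_SPL hDL hP hφ _ h9.1 c0 (Q.zx _ _ (hCN n i hn).2.1) (f i)).1
  have D' : ∀ (i : N.JJ) a, _ := fun i a => (dlP_SPL hDL hP hφ _ h9.1 c0
    (Q.zx _ _ (hCN _ (Function.update i (nn ϖ) a) hn').2.1) (f' _)).1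
  simp only [eC] at D'
  have key : ∀ i : N.JJ, ∑ a, dl φ pw (Q.χ (N.sd n)) h (Q.z (N.Cn n i ⊔ Ln (nn ϖ) a)) =
      2 * dl φ pw (Q.χ (N.sd n)) h (Q.z (N.Cn n i)) -
        dl φ pw (Q.χ (N.sd n)) h (Q.z (N.Cn n (i + -Lu ϖ))) -
        dl φ pw (Q.χ (N.sd n)) h (Q.z (N.Cn n (i + Lu ϖ))) := fun i => by
    have C := hCN n i hn
    have e := Q.zs _ _ ϖ C.2.1 hϖ hp (C.2.2.1 _ hp hpn) h h9
      ((C.2.2.2.1 h h9.1).trans (Cn_SPL fun l hl => by rw [Pi.add_apply, Av, hh0.2 l hl, add_zero]))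
      (hh.2 _ (mem_insert_self _ _))
    rw [C.2.2.2.2 ϖ fun l hl => (cp l hl).1, C.2.2.2.2 _ fun l hl => (cp l hl).2,
      Cn_SPL (i := i + Lu (star ϖ)) (i' := i + -Lu ϖ) fun l hl => congrArg (i l + ·)
        ((KIT_pf l (hn l hl).1 (hn l hl).2).bar ϖ (cp l hl).1)] at e
    have e1 := congrArg ψ e
    rw [map_add, map_add, map_sum, map_mul, map_ofNat] at e1
    simp only [D, D', hψ, map_neg, ← sum_mul, sum_neg_distrib]
    linear_combination -φ (co (gq pw) T0) * e1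
  have shf : ∀ b : N.JJ, ∑ i : Jg n, wp w n i.1 *
      dl φ pw (Q.χ (N.sd n)) h (Q.z (N.Cn n (i.1 + -b))) = wp u n b * Q.kq φ pw w n h := fun b => by
    rw [← hSh h hh0 b, QS.kq, ← (hS R n fun i =>
      wp w n i * dl φ pw (Q.χ (N.sd n)) h (Q.z (N.Cn n (i + -b)))).2.1 (fun i i' e => by
        rw [wp, wp, prod_congr rfl fun l hl => by rw [e l hl],
          Cn_SPL (i := i + -b) (i' := i' + -b) fun l hl => congrArg (· + -b l) (e l hl)]) b]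
    exact sum_congr rfl fun i _ => by rw [add_neg_cancel_right]; rfl
  have s1 := shf (Lu ϖ)
  have s2 := shf (-Lu ϖ)
  rw [neg_neg] at s2
  rw [QS.kq, es, (hS R n fun i => wp w (insert (nn ϖ) n) i *
    dl φ pw (Q.χ (N.sd n)) h (Q.z (N.Cn (insert (nn ϖ) n) i))).1 _ hpn,
    sub_mul, sub_mul, ← s1, ← s2, QS.kq, mul_sum, ← sum_sub_distrib, ← sum_sub_distrib]
  refine sum_congr rfl fun i _ => ?_
  simp only [eC, eW]
  rw [← mul_sum, key]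
  ring

theorem elt_SPQ (hAL : N.AL_st) (hW : X.KW_st) (hI : X.IND_st) {q l : ℕ} (hq : q.Prime)
    (h3 : q ≠ 3) (hl : l.Prime) (l3 : l ≠ 3) (ne : l ≠ q) :
    ∃ h ∈ GK, Al q h = 0 ∧ Al l h = 0 ∧ kum 3 h ≠ 0 := by
  obtain ⟨g₀, g0, a, e⟩ := elt_BSE hAL hW hI hq h3
  have hc : IsCoprime ((3 ^ 2 * q : ℕ) : Zw) l := Nat.Coprime.cast (Nat.Coprime.mul_left
    (Nat.Coprime.pow_left 2 ((Nat.coprime_primes Nat.prime_three hl).2 l3.symm))
    ((Nat.coprime_primes hq hl).2 ne.symm))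
  obtain ⟨g₁, g1, e1⟩ := (hAL l hl l3).2.2.2.2.2.2 (-Al l g₀) _
    (by exact_mod_cast mul_ne_zero (by decide) hq.ne_zero) hc
  have e2 := FAC_ok 3 1 three_ne_zero one_ne_zero (fun l hl l3 d => absurd (by
    rw [Nat.prime_three.factorization, Finsupp.single_eq_of_ne l3]
    exact dvd_zero 3) d) g₁ (UM_mono ⟨q, by push_cast; ring⟩ g1)
  rw [Nat.cast_ofNat] at e2
  have k := (hW.2.1 3 three_ne_zero).1
  have ad := (hW.1 GK ((3 : ℚ) : Qb) le_rfl (by norm_num) fun g _ => map_ratCast g 3).1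
  refine ⟨g₀ * g₁, GK.mul_mem g0 g1.1, ?_, ?_, ?_⟩
  · rw [(hAL q hq h3).1 g₀ g0 g₁ g1.1, a,
      (hAL q hq h3).2.2.1 g₁ (UM_mono ⟨9, by push_cast; ring⟩ g1), add_zero]
  · rw [(hAL l hl l3).1 g₀ g0 g₁ g1.1, e1, add_neg_cancel]
  · rwa [← k _ (GK.mul_mem g0 g1.1), ad g₀ g0 g₁ g1.1, k _ g0, k _ g1.1, e2, add_zero]

theorem BSQ_pf (hA : BAQ_st) (hAL : N.AL_st) (hW : X.KW_st) (hI : X.IND_st) (hFA : N.FAM_st) :
    BSQ_st := by
  intro Λ _ Z Q f hL l hl l9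
  refine ⟨singleton_subset_iff.2 hl, fun n _ => ?_⟩
  have qp := hL.ok.qp n
  obtain ⟨q3, qr, -⟩ := (hFA Λ Z _ f hL).2.2.1 n
  have n3 : Z.q n ≠ 3 := fun e => by rw [e] at q3; omega
  have lr := Nat.mem_primeFactors.1 (mem_filter.1 hl).1
  have l3 : l ≠ 3 := by omega
  have ne : l ≠ Z.q n := fun e => qr (e ▸ lr.2.1)
  have pp : PP (-(Z.q n : Zw)) := ⟨(inert_prime qp q3).neg, -((Z.q n / 3 : ℕ) + 1), by
    have : ((3 * (Z.q n / 3) + 2 : ℕ) : Zw) = Z.q n := congrArg Nat.cast (by omega)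
    push_cast at this
    linear_combination this⟩
  have m1 : Z.E.ι pw ∈ Z.E.m := Z.E.m_eq ▸ Ideal.subset_span (by simp)
  have m2 : Z.E.T ∈ Z.E.m := Z.E.m_eq ▸ Ideal.subset_span (by simp)
  have vl := (hL.ok.pk.ine _ qp q3).1
  have hτ := (hL.ok.pk.tm _ pp).2.2.1
  have c9 : IsCoprime ((Z.K.V (-Z.q n)).l : Zw) ((3 ^ 2 : ℕ) : Zw) := vl.symm ▸ Nat.Coprime.cast
    (Nat.Coprime.pow_right 2 ((Nat.coprime_primes qp Nat.prime_three).2 n3))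
  obtain ⟨v, hv, e⟩ := hA Q _ ((Ideal.Quotient.mk Z.E.m).comp Z.E.ι)
    (wv ((Ideal.Quotient.mk Z.E.m).comp Z.E.ι) 0 ∅ (Z.q n) n 1) _ l _
    (Ideal.Quotient.eq_zero_iff_mem.2 m1) qp q3 lr.1 l9 ne
    ((INE_ok _ ((Ov_l _).cop (c9.of_isCoprime_of_dvd_right ⟨3, by norm_num⟩)) _ hτ).2.2 9
      ((Ov_l _).cop (by simpa using c9))) (hL.tau _ qp q3)
    (((hAL l lr.1 l3).2.2.2.2.2.1 _ (vl.symm ▸ ne.symm) (vl.symm ▸ n3)).1 _ hτ)
    (funext fun i => by simp [wv, N.th]) fun i => by simp [wv, ne]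
  have key : ∀ g ∈ GK, Al (Z.q n) g = 0 → Al l g = 0 →
      Ideal.Quotient.mk Z.E.m (dq Z Q n {l} g) = v * ((kum 3 g).val : Λ ⧸ Z.E.m) :=
    fun g hg a b => by
      rw [← e g hg a b, dq, QS.dc, kq_map, wv_map, map_add, map_one,
        Ideal.Quotient.eq_zero_iff_mem.2 m2, add_zero, QS.dc]
  obtain ⟨h, hh, a, a', k⟩ := elt_SPQ hAL hW hI qp n3 lr.1 l3 ne
  obtain ⟨c, hc⟩ := ex_notGK
  refine ⟨h, hh, c, hc, by rw [hL.att, a, ZMod.val_zero, Nat.cast_zero], fun b => Z.E.ne ?_⟩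
  rw [← Ideal.Quotient.eq_zero_iff_mem, map_sub, key h hh a a', key _ ((Plc.cj_GK c h).1 hh)
    (by rw [((hAL _ qp n3).2.2.2.1 h hh).2.2 c hc, a, neg_zero])
    (by rw [((hAL _ lr.1 l3).2.2.2.1 h hh).2.2 c hc, a', neg_zero]),
    (hW.2.1 3 three_ne_zero).2 c hc h hh, ← mul_sub] at b
  rw [← Ideal.Quotient.eq_zero_iff_mem, map_one]
  exact (hv.mul (unit_BSE k)).mul_left_cancel (by rw [b, zero_mul, zero_mul])

end Pool.Agent.MP_e23604_nt.M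

end
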