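import Pool.Agent.Mg.Fe23604m.Gd767a4

set_option linter.all false

set_option autoImplicit false

open Finset Filter QuadraticAlgebra
open scoped Classical

namespace Pool.Agent.MP_e23604_nt.V

open B R S W

section aux

variable {Λ : Type} [CommRing Λ]

theorem pi_MBA1 (E : Lm Λ) : Ideal.span {E.ι pw} ≤ E.m := by
  rw [E.m_eq]
  exact Ideal.span_mono (by simp)

theorem T_MBA1 (E : Lm Λ) : E.T ∈ E.m := by
  rw [E.m_eq]
  exact Ideal.subset_span (by simp)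

theorem mem_MBA1 (E : Lm Λ) {P : Ideal Λ} {x : ℕ → Λ} (h : ∀ᶠ n in uf, x n ∈ P) : E.L x ∈ P :=
  (E.mem_iff P x).2 fun _ => h.mono fun _ e => Ideal.mem_sup_left e

theorem sub_MBA1 (E : Lm Λ) {P : Ideal Λ} {x : ℕ → Λ} (h : ∀ n, x n - 1 ∈ P) : E.L x - 1 ∈ P := by
  rw [← E.const 1, ← E.L_sub]
  exact mem_MBA1 E (Eventually.of_forall h)

theorem mul_MBA1 {g h : GG} (hg : Inc GK g) (hh : Inc GK h) : Inc GK (g * h) :=
  fun n => GK.mul_mem (hg n) (hh n)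

theorem inv_MBA1 {g : GG} (hg : Inc GK g) : Inc GK g⁻¹ := fun n => GK.inv_mem (hg n)

/-- the value of a cocycle at a commutator -/
theorem com_MBA1 {P : Ideal Λ} {θ F : GG → Λ}
    (hF : ∀ g h, Inc GK g → Inc GK h → F (g * h) - (F g + θ g * F h) ∈ P) {a b : GG}
    (ha : Inc GK a) (hb : Inc GK b) (h1 : θ (a * b * a⁻¹ * b⁻¹) = 1) :
    F (a * b * a⁻¹ * b⁻¹) - ((θ a - 1) * F b - (θ b - 1) * F a) ∈ P := by
  have e := hF (a * b * a⁻¹ * b⁻¹) (b * a)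
    (mul_MBA1 (mul_MBA1 (mul_MBA1 ha hb) (inv_MBA1 ha)) (inv_MBA1 hb)) (mul_MBA1 hb ha)
  rw [h1, show a * b * a⁻¹ * b⁻¹ * (b * a) = a * b by group] at e
  convert P.sub_mem (P.sub_mem (hF a b ha hb) e) (hF b a hb ha) using 1
  ring

theorem val_MBA1 (E : Lm Λ) (x y : ZMod 3) :
    (((x + y).val : ℕ) : Λ) - ((x.val : ℕ) + (y.val : ℕ)) ∈ E.m := by
  have e := congrArg (Nat.cast : ℕ → Λ) (Nat.mod_add_div (x.val + y.val) 3)
  rw [ZMod.val_add]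
  convert E.m.neg_mem (E.m.mul_mem_right (((x.val + y.val) / 3 : ℕ) : Λ) E.three_mem) using 1
  push_cast at e ⊢
  linear_combination e

theorem ne_MBA1 (E : Lm Λ) {x : ZMod 3} (h : x ≠ 0) : ((x.val : ℕ) : Λ) ∉ E.m := fun e => by
  have : x.val = 1 ∨ x.val = 2 := by
    clear e
    revert x
    decide
  rcases this with e' | e' <;> rw [e'] at e
  · exact E.ne (by simpa using e)
  · refine E.ne ?_
    convert E.m.sub_mem E.three_mem e using 1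
    norm_num

theorem ine_MBA1 {V : Plc} {τ : GQ} (hτ : τ ∈ V.I) {b : Zw} (h3 : ¬ Ov V 3) (hb : ¬ Ov V b) :
    km 3 τ (W.io b) = 0 :=
  km_ine V (by simpa using v_three h3) hτ.1 (not_Ov.1 hb) (io_fix hτ.2 b)

theorem loc_MBA1 {l : ℕ} (h : 27 ∣ l + 1) {g : GQ} (hg : g ∈ V3.D) :
    km 3 g (W.io (-(l : Zw))) = 0 := by
  obtain ⟨t, ht⟩ := h
  have h3 : V3.v 3 < 1 := by simpa [Ov, map_ofNat] using V3_three
  have h0 : 0 < V3.v 3 := V3.v.pos three_ne_zero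
  have e : W.io (-(l : Zw)) - 1 = -(3 ^ 3 * (t : Qb)) := by
    have := congrArg (Nat.cast : ℕ → Qb) ht
    push_cast at this
    rw [map_neg, map_natCast]
    linear_combination -this
  obtain ⟨m, hm⟩ : Bo (W.cy 3) V3.D fun g => km 3 g (W.io (-(l : Zw))) :=
    (POW_ok 3 1 V3 V3.D _ Nat.prime_three inf_le_left (fun g hg => io_fix hg.2 _) (by
      rw [e, V3.v.map_neg, map_mul, map_pow, Nat.cast_ofNat]
      calc _ ≤ V3.v 3 ^ 3 * 1 := by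
            gcongr
            exact bLocA_nat V3.na t
        _ < V3.v 3 ^ (1 + 1) := by
            rw [mul_one]
            exact pow_lt_pow_right_of_lt_one₀ h0 h3 (by norm_num))).2
  have := hm g hg
  rw [((KM_ok 3 three_ne_zero).2.2.2.2.2.2.2.1 g hg.2).1, sub_self, zero_mul] at this
  exact this

end aux

theorem BA1_pf (hY : HY) (hTHA : THA_st) (hTHB : THB_st) (hGER : GER_st) (hROW : ROW_st) (hVAL : VAL_st) (hCHA : CHA_st) (hCLG : CLG_st) : BA1_st := by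
  intro Λ _ _ Z d S₀ hZ hK hC
  have hZ0 := hZ.toOk0
  have hD := hZ0.toOk
  obtain ⟨-, hd, -, -, e1⟩ := hCLG Λ Z d d hZ0
  obtain ⟨-, e0, e1⟩ := e1 S₀ hC.1
  obtain ⟨-, -, gA, -, -, -, -, -, gI⟩ := hGER Λ Z hZ0
  have hAd := gA _ (.inr e0)
  have hLS := (hd hK).ls _ e0
  have hRv := (hd hK).rv _ e0
  have hT := fun n => hTHA Λ Z.toDt n hD
  set ε := Z.s (mb S₀)
  set P := Ideal.span {Z.E.ι pw} with hP
  set F : GG → Λ := Z.E.ev (Z.kq m1 d (mb S₀)) with hFd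
  set θ : GG → Λ := Z.E.ev (Z.th ε) with hθd
  have hF : ∀ g h, Inc GK g → Inc GK h → F (g * h) - (F g + θ g * F h) ∈ P :=
    fun g h hg hh => LZ.coc hLS.lc hg hh
  have hch := fun n => ((hT n).2.2.2.2.2.1 ε).1
  have t1 : ∀ g, Inc GK g → θ g - 1 ∈ Z.E.m := fun g hg =>
    sub_MBA1 Z.E fun n => (((hT n).2.2.2.2.2.1 ε).2.2.1 _ (hg n)).1
  have t2 : ∀ g, Inc GK g → (∀ n, Z.At n (g n) = 0) → θ g - 1 ∈ P := fun g hg h0 =>
    sub_MBA1 Z.E fun n => by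
      have := (((hT n).2.2.2.2.2.1 ε).2.2.1 _ (hg n)).2.1
      rw [Dt.ga, h0, ZMod.val_zero, pow_zero] at this
      exact Ideal.mem_span_singleton.2 this
  have t3 : ∀ a b, Inc GK a → Inc GK b → θ (a * b * a⁻¹ * b⁻¹) = 1 := fun a b ha hb =>
    Z.E.ev_one hch fun n => (hT n).2.2.2.1 _ (ha n) _ (hb n)
  have hPm : P ≤ Z.E.m := pi_MBA1 Z.E
  have ad : ∀ g h, Inc GK g → Inc GK h → F (g * h) - (F g + F h) ∈ Z.E.m := fun g h hg hh => by
    convert Z.E.m.add_mem (hPm (hF g h hg hh)) (Z.E.m.mul_mem_right (F h) (t1 g hg)) using 1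
    ring
  have hex : ∀ n, ∃ h ∈ GK, ∃ c ∉ GK, Z.At n h = 0 ∧
      (1 ≤ n → d n S₀ h - d n S₀ (c * h * c⁻¹) ∉ Z.E.m) := fun n => by
    by_cases hn : 1 ≤ n
    · obtain ⟨h, h1, c, h2, h3, h4⟩ := hC.2 n hn
      exact ⟨h, h1, c, h2, h3, fun _ => h4⟩
    · refine ⟨1, GK.one_mem, Z.c, hZ0.cj.nk, ?_, fun e => absurd e hn⟩
      simpa using hD.add n 1 GK.one_mem 1 GK.one_mem
  choose h h1 c' h2 h3 h4 using hex
  obtain ⟨c, hc⟩ : ∃ c : GG, c = fun _ => Z.c := ⟨_, rfl⟩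
  have hcn : ∀ n, c n ∉ GK := fun n => hc ▸ hZ0.cj.nk
  have hci : c⁻¹ = c := by
    rw [hc]
    exact funext fun _ => inv_eq_of_mul_eq_one_right hZ0.cj.sq
  have cK : ∀ g, Inc GK g → Inc GK (c * g * c⁻¹) := fun g hg n => GK_on.1.conj_mem _ (hg n) _
  have cA : ∀ g, Inc GK g → ∀ n, Z.At n ((c * g * c⁻¹) n) = -Z.At n (g n) := fun g hg n =>
    hD.odd n _ (hcn n) _ (hg n)
  have hk : Inc GK (c' * c⁻¹) := fun n => GK_mul (h2 n) fun e => hcn n (inv_mem_iff.1 e)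
  have hu : F h - F (c * h * c⁻¹) ∉ Z.E.m := fun e => by
    have u1 : IsUnit (F h - F (c' * h * c'⁻¹)) := by
      rw [hFd, Lm.ev, Lm.ev, ← Z.E.L_sub]
      refine L_unit Z.E ?_
      filter_upwards [(eventually_ge_atTop 1).filter_mono uf_le, e1] with n a b
      rw [b]
      exact h4 n a
    have a1 := ad (c' * h * c'⁻¹) (c' * c⁻¹) (fun n => GK_on.1.conj_mem _ (h1 n) _) hk
    have a2 := ad (c' * c⁻¹) (c * h * c⁻¹) hk (cK h h1)
    rw [show c' * h * c'⁻¹ * (c' * c⁻¹) = c' * c⁻¹ * (c * h * c⁻¹) by group] at a1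
    refine Z.E.ne (Ideal.eq_top_iff_one _ |>.1 (Ideal.eq_top_of_isUnit_mem _ ?_ u1))
    convert Z.E.m.sub_mem (Z.E.m.add_mem e a1) a2 using 1
    ring
  refine ⟨?_, ?_⟩
  · by_contra hn
    push Not at hn
    have key : ∀ g, Inc GK g → F g ∈ Z.E.m := fun g hg => by
      have a1 := hPm ((hVAL Λ Z ε P _ _ _ hZ hAd hLS.lc hRv).1 g hg)
      have a2 : ev (Z.fm ε g) (Z.kv m1 d (mb S₀)) ∈ Z.E.m := by
        rw [ev_apply _ (Z.kv m1 d (mb S₀)) (Z.vec_supp _ _)]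
        exact Ideal.sum_mem _ fun j _ => Ideal.mul_mem_left _ _ (hn _)
      simpa using Z.E.m.sub_mem a2 a1
    exact hu (Z.E.m.sub_mem (key h h1) (key _ (cK h h1)))
  · have hτ := (gI Z.qg).1
    set τ := Z.gj Z.qg
    obtain ⟨l, hl, -, hμ⟩ := hCHA Λ Z P _ Unit (fun _ => ε) (fun _ => Z.kq m1 d (mb S₀))
      (τ * h * τ⁻¹ * h⁻¹) hZ0 hAd (fun _ => hLS.lc) fun n =>
        (((hT n).1 _).1 ((hT n).2.2.2.1 _ (hτ n) _ (h1 n))).imp_right .inr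
    obtain ⟨μ, hμ⟩ := hμ ()
    refine ⟨l, hl, fun e => hu ?_⟩
    have e2 : (fun n => Z.c * (τ * h * τ⁻¹ * h⁻¹) n * Z.c) =
        c * τ * c⁻¹ * (c * h * c⁻¹) * (c * τ * c⁻¹)⁻¹ * (c * h * c⁻¹)⁻¹ := by
      calc _ = c * (τ * h * τ⁻¹ * h⁻¹) * c⁻¹ := by
            rw [hci, hc]
            rfl
        _ = _ := by group
    rw [e2] at hμ
    have a1 := com_MBA1 hF hτ h1 (t3 _ _ hτ h1)
    have a2 := com_MBA1 hF (cK _ hτ) (cK _ h1) (t3 _ _ (cK _ hτ) (cK _ h1))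
    have a3 := t2 h h1 h3
    have a4 := t2 _ (cK h h1) fun n => by rw [cA h h1, h3, neg_zero]
    have a5 := t2 _ (mul_MBA1 (cK _ hτ) hτ) fun n => by
      rw [Pi.mul_apply, hD.add n _ (cK _ hτ n) _ (hτ n), cA _ hτ, neg_add_cancel]
    have a6 : θ τ = 1 + Z.E.T := by
      have := (hROW Λ Z ε hZ0).2.2.1
      rw [Mx.mu] at this
      linear_combination -this
    rw [hθd, Z.E.ev_mul hch (cK _ hτ) hτ, ← hθd, a6] at a5
    rw [a6] at a1
    obtain ⟨x, hx, y, hy, hxy⟩ := Submodule.mem_sup.1 e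
    obtain ⟨b, rfl⟩ := Ideal.mem_span_singleton.1 hy
    have a7 : Z.E.T * (F h - F (c * h * c⁻¹) -
        Z.E.T * (μ * b - θ (c * τ * c⁻¹) * F (c * h * c⁻¹))) ∈ P := by
      have b1 := P.add_mem (P.sub_mem (P.sub_mem hμ a1) a2) (P.mul_mem_left μ hx)
      have b2 := P.add_mem (P.mul_mem_right (F τ) a3) (P.mul_mem_right (F (c * τ * c⁻¹)) a4)
      have b3 := P.mul_mem_right ((1 - Z.E.T) * F (c * h * c⁻¹)) a5
      convert P.sub_mem (P.add_mem b1 b2) b3 using 1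
      rw [← hFd, ← hxy]
      ring
    rcases Z.E.ppi.dvd_or_dvd (Ideal.mem_span_singleton.1 a7) with a8 | a8
    · exact absurd a8 Z.E.piT
    · simpa using Z.E.m.add_mem (hPm (Ideal.mem_span_singleton.2 a8))
        (Z.E.m.mul_mem_right (μ * b - θ (c * τ * c⁻¹) * F (c * h * c⁻¹)) (T_MBA1 Z.E))

theorem BA2_pf (hY : HY) (hTRM : TRM_st) (hTHA : THA_st) (hTHB : THB_st) (hGER : GER_st) (hROW : ROW_st) (hVAL : VAL_st) : BA2_st := by
  intro Λ _ _ Z ε l hZ hl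
  have hZ0 := hZ.toOk0
  have hD := hZ0.toOk
  obtain ⟨-, gG, gA, -, -, -, -, -, gI⟩ := hGER Λ Z hZ0
  have hAd := gA (insert l Z.m0) (.inl ⟨subset_insert _ _, fun j hj h' =>
    (mem_insert.1 hj).elim (· ▸ hl) (absurd · h')⟩)
  have hw := ((hROW Λ Z ε hZ0).1 l (.inl hl)).1
  obtain ⟨a, rfl, ha⟩ := hl
  set A := insert Z.qg (insert (Sum.inr a) Z.m0 ∪ Z.m0) with hA
  have haA : Sum.inr a ∈ A := by simp [hA]
  have hsub : insert (Sum.inr a) m1 ⊆ A := fun j hj => by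
    rcases mem_insert.1 hj with rfl | hj
    · exact haA
    · exact mem_insert_of_mem (mem_union_right _ (mem_union_left _ hj))
  have hTn : ∀ b n, Sum.inr b ∈ A → sq b n ∈ Tn A n := fun b n hb =>
    mem_image_of_mem _ (mem_toRight.2 hb)
  let f : ℕ → GQ → Λ := fun n g => ((km 3 g (W.io (sq a n))).val : ℕ)
  have hz : ∀ n g, km 3 g (W.io (sq a n)) = 0 → f n g ∈ Z.E.m := fun n g e => by simp [f, e]
  have hgood : ∀ᶠ n in uf, ∃ l : ℕ, sq a n = -l ∧ 27 ∣ l + 1 ∧ PP (-l) ∧ (Z.K.V (-l)).l = l ∧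
      Y.In (Z.K.V (-l)) (Z.K.φ (-l)) ∧ Z.K.σ (-l) = Z.K.φ (-l) ^ 2 := by
    filter_upwards [ha] with n ⟨l, h1, h2⟩
    obtain ⟨b1, -, b2, -⟩ := (hTHB Λ Z.toDt n hD).2.2.2.1 l h2.1 h2.2.1
    exact ⟨l, h1, ((pow_dvd_pow 3 (Nat.le_add_left 3 n)).mul_right _).trans h2.2.1, b2,
      hD.pk.ine l h2.1 b1⟩
  have hLS : Z.LS ε Z.E.m A f := by
    refine diag (G := fun n k => Zf (Z.th ε n) (Rn A n) (Z.E.m ⊔ Z.E.m ^ k) (f n) ∧
      Z.Kl ε n (Z.E.m ⊔ Z.E.m ^ k) (f n))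
      (fun n => ⟨zf_iff.2 ⟨⟨GK, GK_on, by simp⟩, by simp, by simp⟩, 0, by simp⟩) fun k => ?_
    filter_upwards [hgood] with n ⟨l, h1, h2, h3, _⟩
    refine ⟨Zf.mono (b := Z.E.m) (zf_iff.2 ⟨?_, fun g hg h hh => ?_, ?_⟩) le_rfl le_sup_left,
      0, fun g hg => ?_⟩
    · obtain ⟨N, b1, b2⟩ := km_lc 3 GK (W.io (sq a n))
      exact ⟨N, b1, fun g hg h hh e => by simp [f, show km 3 g _ = km 3 h _ from b2 g hg h hh e]⟩
    · have b1 := km_mul three_ne_zero g h (io_ne (h1 ▸ h3.1.ne_zero : sq a n ≠ 0))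
      rw [((KM_ok 3 three_ne_zero).2.2.2.2.2.2.2.1 g hg).1, one_mul, io_fix hh, add_comm] at b1
      have b2 := (((hTHA Λ Z.toDt n hD).2.2.2.2.2.1 ε).2.2.1 g hg).1
      convert Z.E.m.sub_mem (val_MBA1 Z.E (km 3 g (W.io (sq a n))) (km 3 h (W.io (sq a n))))
        (Z.E.m.mul_mem_right (f n h) b2) using 1
      simp only [f, b1]
      ring
    · rintro g ⟨V, b1, b2⟩
      exact hz n g (ine_MBA1 b2 (fun e => b1 (e.dvd (dvd_mul_right _ _))) fun e =>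
        b1 (e.dvd ((dvd_prod_of_mem _ (hTn a n haA)).mul_left _)))
    · simpa using Ideal.mem_sup_left (hz n g (h1 ▸ loc_MBA1 h2 hg))
  have hRv : Z.Rv Z.E.m A (Z.vec (insert (Sum.inr a) m1) f) f := by
    refine ⟨(Z.vec_supp _ _).trans hsub, fun j hj => ?_⟩
    rw [Z.vec_apply]
    split_ifs with e
    · simp
    · obtain ⟨b, rfl⟩ : ∃ b, j = Sum.inr b := by
        rcases j with t | b
        · cases t <;> simp [m1] at e
        · exact ⟨b, rfl⟩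
      have hne : b ≠ a := fun e' => e (e' ▸ mem_insert_self _ _)
      rw [zero_sub]
      refine Z.E.m.neg_mem (mem_MBA1 Z.E ?_)
      filter_upwards [gG A hAd, sq_ne hne] with n b1 b2
      have p1 := b1.pp _ (hTn b n hj)
      obtain ⟨q1, -, q2, -⟩ := hD.pk.tm _ p1
      obtain ⟨t, ht⟩ := p1.2
      refine hz n _ (ine_MBA1 q2 (q1.cop ⟨1, -t, by linear_combination ht⟩) fun e' => b2 ?_)
      exact PLK_ok.2.2.2.2.2.2.2.1 _ _ p1 (b1.pp _ (hTn a n haA))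
        (((PLK_ok.2.2.1 _ _ p1.1 q1).1 _).1 e')
  have hV := hVAL Λ Z ε Z.E.m A _ f hZ hAd hLS.lc hRv
  refine ⟨_, Z.vec_supp _ f, fun e => ?_, fun i hi => ?_⟩
  · rw [Z.vec_apply, if_pos (mem_insert_self _ _)] at e
    refine Z.E.ne (Ideal.eq_top_iff_one _ |>.1 (Ideal.eq_top_of_isUnit_mem _ e (L_unit Z.E ?_)))
    filter_upwards [hgood] with n ⟨l, h1, h2, h3, h4, h5, _⟩
    obtain ⟨q1, -, q2, q3⟩ := hD.pk.tm _ h3
    have h6 : (Z.K.V (-l)).l ≠ 3 := fun e => by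
      have := h5.l3
      omega
    have : km 3 (Z.K.τ (-l)) (W.io (-l)) = km 3 (Z.K.τ (-l)) (Z.K.V (-l)).l :=
      (TAME_ok 3 1 _ Nat.prime_three h6 h6).2.2.1 _ h3.1 q1 _ q2
    refine ne_MBA1 Z.E ?_
    show km 3 (Z.K.τ (sq a n)) (W.io (sq a n)) ≠ 0
    rwa [h1, this]
  · rcases mem_insert.1 hi with rfl | hi
    · rw [hw]
      have a1 := hV.1 _ (gI (Sum.inr a)).2
      have a2 : Z.E.ev f (Z.sg (Sum.inr a)) ∈ Z.E.m := by
        refine mem_MBA1 Z.E ?_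
        filter_upwards [hgood] with n ⟨l, h1, h2, h3, h4, h5, h6⟩
        refine hz n _ ?_
        show km 3 (Z.K.σ (sq a n)) (W.io (sq a n)) = 0
        have b1 := ((hY.INF.2.2 _ _ h5).2.2.2.2.2.2.2.2.2.2.2 3
          (h4.symm ▸ (show 3 ∣ 27 by norm_num).trans h2)).2.1
        rw [h1, h6, pow_two, km_mul three_ne_zero _ _ (io_ne h3.1.ne_zero), b1,
          show Z.K.φ (-l) (W.io (-l)) = W.io (-l) by simp]
        ring
      simpa using Z.E.m.add_mem a1 a2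
    rcases mem_union.1 hi with hi | hi
    · simp only [m1, mem_insert, mem_singleton] at hi
      rcases hi with rfl | rfl <;> exact hV.2.2 hLS _
    · obtain ⟨r1, -, r2⟩ := (hROW Λ Z ε hZ0).2.2.2.2.1 i hi
      rw [r1, ev_add, ev_smul]
      refine Z.E.m.add_mem ?_ (Z.E.m.mul_mem_right _
        (pi_MBA1 Z.E (Ideal.mem_span_singleton.2 r2)))
      have a1 := hV.1 _ (gI i).2
      obtain ⟨ϖ, b1, rfl⟩ := mem_image.1 hi
      obtain ⟨l₀, b2, rfl⟩ := ((hTRM Z.r (hZ.tw true).sf.ne_zero (hZ.tw true).n3).2.1 ϖ).1 b1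
      have b3 := (mem_filter.1 b2).2
      obtain ⟨h4, h5, h6⟩ := hD.pk.ine l₀ (Nat.prime_of_mem_primeFactors (mem_filter.1 b2).1) b3
      have a2 : Z.E.ev f (Z.sg (cs (-(l₀ : Zw)))) ∈ Z.E.m := by
        refine mem_MBA1 Z.E ?_
        filter_upwards [hgood, sq_const (-(l₀ : Zw))] with n ⟨l, h1, _, h3, _⟩ h0
        refine hz n _ ?_
        show km 3 (Z.K.σ (sq ((-(l₀ : Zw) : Zw) : Gm) n)) (W.io (sq a n)) = 0
        have b1 := ((hY.INF.2.2 _ _ h5).2.2.2.2.2.2.2.2.2.2.2 3 (h4.symm ▸ by omega)).2.1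
        rw [h0, h1, h6, pow_two, km_mul three_ne_zero _ _ (io_ne h3.1.ne_zero), b1,
          show Z.K.φ (-l₀) (W.io (-l)) = W.io (-l) by simp]
        ring
      simpa using Z.E.m.add_mem a1 a2

end Pool.Agent.MP_e23604_nt.V
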