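import Pool.Agent.Mg.Fe23604m.Gac7c91
import Pool.Agent.Mg.Fe23604m.Gc992fc
import Pool.Agent.Mg.Fe23604m.G917aeb
import Pool.Agent.Mg.Fe23604m.Gd767a4

set_option linter.all false

section

/-!
The choice of the auxiliary inert prime.
-/

set_option autoImplicit false

open Finset QuadraticAlgebra
open scoped Classical

namespace Pool.Agent.MP_e23604_nt.X

open B R S W

theorem lev_CQ {ι A : Type} (s : Finset ι) (f : ι → GQ → A) (h : ∀ i, Lc ⊤ (f i)) :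
    ∃ N, ON N ∧ ∀ i ∈ s, Cst N ⊤ (f i) := by
  induction s using Finset.induction with
  | empty => exact ⟨⊤, ON.top, by simp⟩
  | insert i s _ ih =>
    obtain ⟨N, h1, h2⟩ := ih
    obtain ⟨N', h3, h4⟩ := h i
    exact ⟨N ⊓ N', h1.inf h3, forall_mem_insert _ _ _ |>.2 ⟨h4.mono inf_le_right le_rfl,
      fun j hj => (h2 j hj).mono inf_le_left le_rfl⟩⟩

theorem primes_CQ {r : ℕ} (h : ¬ 3 ∣ r) : ∃ s : Finset Zw,
    ∀ ϖ, ϖ ∈ s ↔ PP ϖ ∧ (nn ϖ).Prime ∧ ϖ ∣ r := by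
  have h1 : Pry ((r : Zw) ^ 2) := by
    have : (3 : ℤ) ∣ (r : ℤ) ^ 2 - 1 := by
      have : (r : ℤ) % 3 = 1 ∨ (r : ℤ) % 3 = 2 := by omega
      rw [Int.dvd_iff_emod_eq_zero, Int.sub_emod, pow_two, Int.mul_emod]
      rcases this with e | e <;> simp [e]
    obtain ⟨k, hk⟩ := this
    exact ⟨k, by exact_mod_cast congrArg (Int.cast : ℤ → Zw) hk⟩
  obtain ⟨s, h2, h3⟩ := PLK_ok.2.2.2.2.2.2.2.2.2.2.1 _ h1
  refine ⟨s.toFinset.filter fun ϖ => PP ϖ ∧ (nn ϖ).Prime ∧ ϖ ∣ r, fun ϖ => ?_⟩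
  rw [mem_filter, and_iff_right_iff_imp, Multiset.mem_toFinset]
  rintro ⟨p1, -, p3⟩
  obtain ⟨a, ha, e⟩ := p1.1.exists_mem_multiset_dvd (h3 ▸ p3.trans (dvd_pow_self _ two_ne_zero))
  exact PLK_ok.2.2.2.2.2.2.2.1 ϖ a p1 (h2 a ha) e ▸ ha

theorem ndvd_CQ {a b : ℕ} (h : (a : Zw) ∣ b) : a ∣ b := by
  have := nn_dvd h
  rwa [nn_nat, nn_nat, Nat.pow_dvd_pow_iff two_ne_zero] at this

theorem frob_CQ {U N : Subgroup GQ} (hU : U.Normal) (hN : N.Normal) (le : N ≤ U) {g φ : GQ}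
    {i j : ℕ} (hg : g ^ 2 ∈ U) (h1 : (g ^ i)⁻¹ * φ ∈ N) (h2 : (φ ^ j)⁻¹ * g ∈ N) :
    φ ^ 2 ∈ U ∧ ((φ ^ 2) ^ j)⁻¹ * g ^ 2 ∈ N := by
  constructor
  · have k1 : φ ^ 2 = (g ^ 2) ^ i * ((g ^ i)⁻¹ * ((g ^ i)⁻¹ * φ) * (g ^ i)⁻¹⁻¹) *
        ((g ^ i)⁻¹ * φ) := by
      rw [← pow_mul, mul_comm 2 i, pow_mul]
      generalize g ^ i = x
      rw [pow_two, pow_two]
      group
    rw [k1]
    exact U.mul_mem (U.mul_mem (U.pow_mem hg i) (hU.conj_mem _ (le h1) _)) (le h1)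
  · have k1 : ((φ ^ 2) ^ j)⁻¹ * g ^ 2 =
        (φ ^ j)⁻¹ * ((φ ^ j)⁻¹ * g) * (φ ^ j)⁻¹⁻¹ * ((φ ^ j)⁻¹ * g) := by
      rw [← pow_mul, mul_comm 2 j, pow_mul]
      generalize φ ^ j = x
      rw [pow_two, pow_two]
      group
    rw [k1]
    exact mul_mem (hN.conj_mem _ h2 _) h2

theorem two_CQ {k : ℕ} {a : ZMod (3 ^ k)} (h : a + a = 0) : a = 0 := by
  have : IsUnit ((2 : ℕ) : ZMod (3 ^ k)) :=
    (ZMod.isUnit_iff_coprime 2 _).2 (Nat.Coprime.pow_right k (by decide))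
  exact this.mul_right_eq_zero.1 (by rw [← h]; push_cast; ring)

/-- all Frobenius elements over an inert prime are conjugate up to inertia -/
theorem conj_CQ {V V' : Plc} {φ φ' : GQ} (h : Y.In V φ) (h' : Y.In V' φ') (e : V'.l = V.l) :
    ∃ g ∈ GK, ∃ τ ∈ V'.I, φ' ^ 2 = g * φ ^ 2 * g⁻¹ * τ := by
  obtain ⟨p1, p2, -, -, p5, -⟩ := Y.INF_pf.2.2 V φ h
  obtain ⟨q1, q2, -, -, q5, -⟩ := Y.INF_pf.2.2 V' φ' h'
  rw [e] at q1 q2 q5
  obtain ⟨-, g, hg, hv⟩ := (PLK_ok.2.2.1 V _ p1.1 p2).2.1 V' q2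
  have k1 := ((FRK_ok V _ p1.1 p2).2.2.2 _ p5).2.2.1 g _ rfl
  have k2 : FK V' (-(V.l : Zw)) (g⁻¹ * φ ^ 2 * g) :=
    ⟨((PLK_ok.2.2.2.2.1 V' (V.mv g)).2 hv).2.1 ▸ k1.1, hv ▸ k1.2⟩
  exact ⟨g⁻¹, GK.inv_mem hg, _, ((FRK_ok V' _ p1.1 q2).2.2.2 _ k2).1 _ q5, by group⟩

theorem CQ_pf (hNEU : NEU_st) (hSYM : SYM_st) (hKQT : KQT_st) (hXI : XI_st) (hLGK : LGK_st) :
    CQ_st := by
  intro χ r hT hA hB
  obtain ⟨s, hs⟩ := primes_CQ hT.n3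
  obtain ⟨c, hc⟩ := Y.INF_pf.1
  have r0 : r ≠ 0 := hT.sf.ne_zero
  obtain ⟨k, hk⟩ : ∃ k, (insertNone s).card = k := ⟨_, rfl⟩
  refine ⟨k + 4, fun n hn B => ?_⟩
  obtain ⟨d, rfl⟩ := Nat.exists_eq_add_of_le hn
  obtain ⟨m, hm⟩ : ∃ m : ℕ, m = 3 ^ (k + 4 + d + 3) * (9 * r) := ⟨_, rfl⟩
  have m0 : m ≠ 0 := by rw [hm]; positivity
  have M0 : (m : Zw) ≠ 0 := Nat.cast_ne_zero.2 m0
  have M1 : star (m : Zw) = m := star_natCast m
  have M2 : (9 * r : Zw) ∣ m := by rw [hm]; push_cast; exact dvd_mul_left _ _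
  have M3 : ∀ i ≤ k + 4 + d + 3, (3 : Zw) ^ i ∣ m := fun i hi => by
    rw [hm]; push_cast; exact (pow_dvd_pow _ hi).mul_right _
  have hU : ON (UM m) := (PS_ok _ M0).2 (by rw [M1])
  have hG : UM m ≤ GK := fun _ h => h.1
  obtain ⟨x, x1, x2, x3⟩ := hXI χ r hT hB (k + 3 + d) m M0 M2 (M3 _ (by omega))
  obtain ⟨s1, s2, s3, s4⟩ := hSYM χ r (k + 3 + d + 2) (k + (d + 1)) m c x hT hA hc M0 M1 M2
    (M3 _ (by omega)) x1.1 x2
  have ci : c⁻¹ = c := inv_eq_of_mul_eq_one_left hc.sq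
  have cU : ∀ u ∈ UM m, c * u * c ∈ UM m := fun u hu => by
    have := hU.1.conj_mem u hu c
    rwa [ci] at this
  have hK := fun ϖ h => hKQT ϖ m (k + 2) c ((hs ϖ).1 h).1 ((hs ϖ).1 h).2.1 hc M0 (M3 _ (by omega))
  obtain ⟨u, hu, u1⟩ := hNEU (UM m) (Option Zw) (insertNone s) (fun _ => Pt × ZMod (3 ^ (k + 4)))
    (fun o u => o.elim (3 ^ (d + 1) • (x (c * u * c) + x u), 0)
      fun ϖ => (0, km (3 ^ (k + 4)) u (W.io ϖ / W.io (star ϖ)))) k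
    (hk ▸ (Nat.lt_pow_self (by norm_num)).trans (Nat.pow_lt_pow_right (by norm_num) (by omega)))
    fun o ho => by
      cases o with
      | none =>
        refine ⟨fun g hg h hh => ?_, ⟨k + 3 + d + 2, fun u hu => ?_⟩, ?_⟩
        · have := s2 g hg h hh
          simp only [Option.elim, Prod.mk_add_mk, add_zero] at this ⊢
          rw [this, smul_add]
        · simp only [Option.elim, Prod.smul_mk, smul_zero]
          rw [smul_comm, smul_add, x2 _ (hG hu), x2 _ (hG (cU u hu)), add_zero, smul_zero]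
          rfl
        · by_contra e
          push Not at e
          obtain ⟨u, hu, e'⟩ := x3
          refine e' ?_
          rw [show k + 3 + d = k + (d + 1) + 2 by omega]
          refine s3 (fun u hu => ?_) u hu
          rw [pow_add, mul_smul]
          exact congrArg Prod.fst (e u hu)
      | some ϖ =>
        obtain ⟨k1, -, u, hu, k3⟩ := hK ϖ (by simpa using ho)
        refine ⟨fun g hg h hh => ?_, ⟨k + 4, fun u hu => ?_⟩, u, hu, fun e => k3 ?_⟩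
        · simp only [Option.elim, Prod.mk_add_mk, add_zero]
          exact congrArg _ (k1 g hg h hh)
        · simp only [Option.elim, Prod.smul_mk, smul_zero]
          rw [nsmul_eq_mul, ZMod.natCast_self, zero_mul]
          rfl
        · have e' : 3 ^ k • km (3 ^ (k + 4)) u (W.io ϖ / W.io (star ϖ)) = 0 := congrArg Prod.snd e
          rw [show 3 ^ (k + 2) = 9 * 3 ^ k by ring, mul_smul]
          exact (congrArg _ e').trans (smul_zero _)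
  obtain ⟨N₁, n1, n2⟩ := x1.1.1
  obtain ⟨N₂, n3, n4⟩ := lev_CQ s (fun ϖ g => km (3 ^ (k + 4)) g (W.io ϖ / W.io (star ϖ)))
    fun ϖ => (KM_ok _ (by positivity)).2.1 _
  have gK : c * u ∉ GK := fun e => hc.nk (by simpa using GK.mul_mem e (GK.inv_mem (hG hu)))
  have hN : ON (UM m ⊓ (N₁ ⊓ N₂)) := hU.inf (n1.inf n3)
  obtain ⟨V, φ, i, j, a1, a2, a3, a4, a5⟩ := (Y.CHI_pf Y.INF_pf).1 _ (c * u) (max B m) hN gK
  have g2 : (c * u) ^ 2 = c * u * c * u := by rw [pow_two, mul_assoc (c * u)]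
  have g2U : (c * u) ^ 2 ∈ UM m := g2 ▸ mul_mem (cU u hu) hu
  obtain ⟨φ2, a6⟩ := frob_CQ hU.1 hN.1 inf_le_left g2U a4 a5
  have nd : ∀ a : ℕ, a ∣ m → ∀ W : Plc, W.l = V.l → ¬ Ov W a := fun a ha W e h =>
    (Nat.le_of_dvd (Nat.pos_of_ne_zero m0) (((PLK_ok.2.2.2.1 W a).1 h).trans ha)).not_gt
      (e ▸ (le_max_right _ _).trans_lt a2)
  have q1 : m ∣ V.l + 1 := ndvd_CQ (by
    exact_mod_cast (((Y.INF_pf.2.2 V φ a1).2.2.2.2.2.2.2.2.2.2.1 _ M0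
      (nd m dvd_rfl V rfl)).1.1 φ2))
  refine ⟨V.l, x, V.hl.out, (le_max_left _ _).trans_lt a2, dvd_trans ?_ q1, x1,
    fun g hg => ?_, fun V' φ' e h' => ?_, fun ϖ p1 p2 p3 e => ?_⟩
  · rw [hm]
    exact mul_dvd_mul_left _ (dvd_mul_left _ _)
  · rw [show k + 4 + d + 1 = k + 3 + d + 2 by omega]
    exact x2 g hg
  · obtain ⟨g, hg, τ, hτ, e'⟩ := conj_CQ a1 h' e
    have t0 : x τ = 0 := x1.2.1 V' (by
      have := nd (3 * r) (hm ▸ Dvd.dvd.mul_left ⟨3, by ring⟩ _) V' e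
      rwa [Nat.cast_mul, Nat.cast_ofNat] at this) τ hτ
    rw [show k + 4 + d + 1 - (k + 4) = d + 1 by omega, e',
      s1 _ (hU.1.conj_mem _ φ2 g) _ (a3 V' e hτ).1, t0, add_zero, s4 g hg _ φ2, ← map_nsmul,
      eta_apply]
    intro e
    rw [unit_smul (w_unit.pow _), gal_ne] at e
    refine u1 none (by simp) (Prod.ext ?_ rfl)
    show 3 ^ (d + 1) • (x (c * u * c) + x u) = 0
    rw [← s1 _ (cU u hu) _ hu, ← g2, ← n2 _ (hG (pow_mem φ2 j)) _ (hG g2U) a6.2.1,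
      pow_CREC s1 φ2, smul_comm, e, smul_zero]
  · have hϖ := (hs ϖ).2 ⟨p1, p2, p3⟩
    obtain ⟨k1, k2, -⟩ := hK ϖ hϖ
    have k3 := (hLGK 3 (k + 4) V φ ϖ Nat.prime_three (by norm_num) a1
      (dvd_trans (hm ▸ (pow_dvd_pow _ (by omega)).mul_right _) q1) fun e =>
        nd r (hm ▸ Dvd.dvd.mul_left (dvd_mul_left _ _) _) V rfl ((Ov_l V).dvd (e.trans p3))).2 e
    refine u1 (some ϖ) (by simpa using hϖ) (Prod.ext rfl (two_CQ ?_))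
    have k4 := k1 _ (cU u hu) _ hu
    have k5 := n4 ϖ hϖ _ trivial _ trivial a6.2.2
    have k6 := pow_CREC k1 φ2 j
    simp only at k4 k5 k6
    rw [k2 u hu, ← g2] at k4
    exact k4.symm.trans (k5.symm.trans (k6.trans ((congrArg _ k3).trans (smul_zero _))))

end Pool.Agent.MP_e23604_nt.X

end

section

set_option autoImplicit false

open Finset Filter QuadraticAlgebra
open scoped Classical

namespace Pool.Agent.MP_e23604_nt.V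

open B R S W

theorem mu_MTHA {Λ R : Type} [CommRing Λ] [CommRing R] {b : Ideal Λ} {U : Subgroup GQ}
    {θ : GQ → Λ} (h : Ch b U θ) (hU : ON U) (π : Λ →+* R) (hπ : ∀ a ∈ b, π a = 0) :
    Mu GK fun g => π (θ g) := by
  have e1 : ∀ g ∈ GK, ∀ k ∈ GK, π (θ (g * k)) = π (θ g) * π (θ k) := fun g hg k hk => by
    rw [← map_mul, ← sub_eq_zero, ← map_sub]
    exact hπ _ (h.1 g hg k hk)
  have e2 : ∀ g ∈ U, π (θ g) = 1 := fun g hg => by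
    rw [← map_one π, ← sub_eq_zero, ← map_sub]
    exact hπ _ (h.2 g hg)
  refine ⟨⟨U, hU, fun g hg k hk e => ?_⟩, e2 1 U.one_mem, e1⟩
  have := e1 g hg _ (mul_mem (inv_mem hg) hk)
  rw [mul_inv_cancel_left, e2 _ e, mul_one] at this
  exact this.symm

theorem ph_MTHA {Λ : Type} [CommRing Λ] (Z : Dt Λ) (ε : Bool) : ∃ s : Zw →+* Zw,
    (∀ x, Z.ph ε x = Z.E.ι (s x)) ∧ (∀ x, s (s x) = x) ∧ ∀ k x, pw ^ k ∣ x → pw ^ k ∣ s x := by
  cases ε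
  · refine ⟨starRingEnd Zw, fun _ => rfl, star_star, fun k x h => ?_⟩
    have := map_dvd (starRingEnd Zw) h
    rw [map_pow, starRingEnd_apply, star_pw, neg_pow] at this
    exact (dvd_mul_left _ _).trans this
  · exact ⟨RingHom.id _, fun _ => rfl, fun _ => rfl, fun _ _ h => h⟩

theorem THA_pf (hY : HY) : THA_st := by
  intro Λ _ Z n hZ
  have M0 := ML_ne (hZ.tw true).sf.ne_zero n
  have hd : ((3 ^ (n + 1) : ℕ) : Zw) ∣ ML Z.r n := by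
    rw [Nat.cast_pow, Nat.cast_ofNat]
    exact dvd_mul_right _ _
  have hd9 : (9 * Z.r : Zw) ∣ ML Z.r n := dvd_mul_left _ _
  have N0 : 3 ^ (n + 1) ≠ 0 := pow_ne_zero _ three_ne_zero
  have hON : ON (UM (ML Z.r n)) := (PS_ok _ M0).2 (by simp [ML])
  have ad := hZ.add n
  have a1 : Z.At n 1 = 0 := by simpa using ad 1 GK.one_mem 1 GK.one_mem
  have a2 : ∀ g ∈ GK, Z.At n g⁻¹ = -Z.At n g := fun g hg => by
    rw [eq_neg_iff_add_eq_zero, ← ad _ (inv_mem hg) _ hg, inv_mul_cancel, a1]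
  have hU : ∀ g, g ∈ Z.U n ↔ g ∈ UM (ML Z.r n) ∧ Z.At n g = 0 := fun g =>
    ⟨fun h => Subgroup.closure_induction (fun _ h => h) ⟨one_mem _, a1⟩
      (fun x y _ _ hx hy => ⟨mul_mem hx.1 hy.1, by rw [ad x hx.1.1 y hy.1.1, hx.2, hy.2, add_zero]⟩)
      (fun x _ hx => ⟨inv_mem hx.1, by rw [a2 x hx.1.1, hx.2, neg_zero]⟩) h,
    fun h => Subgroup.subset_closure h⟩
  have hON' : ON (Z.U n) := by
    obtain ⟨N, n1, n2⟩ := hZ.lc n
    refine ⟨⟨fun g hg c => ?_⟩, Subgroup.isOpen_mono (H₁ := N ⊓ UM (ML Z.r n)) (fun g hg =>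
      (hU g).2 ⟨hg.2, (n2 1 GK.one_mem g hg.2.1 (by simpa using hg.1)).symm.trans a1⟩)
      (n1.inf hON).2⟩
    obtain ⟨h1, h2⟩ := (hU g).1 hg
    refine (hU _).2 ⟨hON.1.conj_mem g h1 c, ?_⟩
    by_cases hc : c ∈ GK
    · rw [ad _ (mul_mem hc h1.1) _ (inv_mem hc), ad _ hc _ h1.1, a2 c hc, h2, add_zero,
        add_neg_cancel]
    · rw [hZ.odd n c hc g h1.1, h2, neg_zero]
  have hTm : Z.E.T ∈ Z.E.m := Z.E.m_eq ▸ Ideal.subset_span (by simp)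
  have hpw : Z.E.ι pw ∈ Z.E.m := Z.E.m_eq ▸ Ideal.subset_span (by simp)
  have h3n : ((3 ^ (n + 1) : ℕ) : Λ) ∈ Z.E.m ^ n := by
    rw [Nat.cast_pow, Nat.cast_ofNat]
    exact Ideal.pow_le_pow_right (Nat.le_succ n) (Ideal.pow_mem_pow Z.E.three_mem _)
  have hx : Ideal.Quotient.mk (Z.E.m ^ n) (1 + Z.E.T) ^ 3 ^ n = 1 := by
    rw [← map_pow]
    exact Ideal.Quotient.eq.2 (Ideal.pow_le_pow_right (Nat.le_succ n)
      (pow3_mem Z.E.three_mem (by simpa using hTm) n))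
  have b0 := pow_CHR (pow_ne_zero n three_ne_zero) hx
  have b1 : ∀ g ∈ GK, ∀ h ∈ GK, Ideal.Quotient.mk (Z.E.m ^ n) (Z.ga n (g * h)) =
      Ideal.Quotient.mk (Z.E.m ^ n) (Z.ga n g * Z.ga n h) := fun g hg h hh => by
    simp only [Dt.ga, map_mul, map_pow, ad g hg h hh, b0]
  have b2 : ∀ g, Z.At n g = 0 → Z.ga n g = 1 := fun g hg => by
    rw [Dt.ga, hg, ZMod.val_zero, pow_zero]
  have b3 : ∀ g, Z.E.T ∣ Z.ga n g - 1 := fun g => by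
    simpa only [add_sub_cancel_left, Dt.ga] using sub_one_dvd_pow_sub_one (1 + Z.E.T) (Z.At n g).val
  have P9 : ∀ b, Z.E.m ^ n ≤ b → Finite (Λ ⧸ b) ∧ Nonempty (ZMod (3 ^ (n + 1)) →+* Λ ⧸ b) ∧
      ∀ x ∈ Z.E.m, IsNilpotent (Ideal.Quotient.mk b x) := fun b hb => by
    have := Z.E.fin n
    have e : ((3 ^ (n + 1) : ℕ) : Λ ⧸ b) = 0 := by
      rw [← map_natCast (Ideal.Quotient.mk b)]
      exact Ideal.Quotient.eq_zero_iff_mem.2 (hb h3n)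
    exact ⟨Finite.of_surjective _ (Ideal.Quotient.factor_surjective hb),
      ⟨ZMod.castHom (ringChar.dvd e) _⟩, fun x hx => ⟨n, by
        rw [← map_pow]
        exact Ideal.Quotient.eq_zero_iff_mem.2 (hb (Ideal.pow_mem_pow hx n))⟩⟩
  refine ⟨hU, hON', hON, fun g hg h hh => (hU _).2 ⟨?_, ?_⟩,
    ⟨fun g hg h hh => Ideal.Quotient.eq.1 (b1 g hg h hh), fun u hu => by
      simp [b2 u ((hU u).1 hu).2]⟩, fun ε => ?_, P9⟩
  · simpa [mul_assoc] using ((PS_ok _ M0).1 _ (inv_mem hh)).2.2.2.2.2.2.1 _ (inv_mem hg)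
  · rw [ad _ (mul_mem (mul_mem hg hh) (inv_mem hg)) _ (inv_mem hh), ad _ (mul_mem hg hh) _
      (inv_mem hg), ad g hg h hh, a2 g hg, a2 h hh]
    ring
  obtain ⟨s, s1, s2, s3⟩ := ph_MTHA Z ε
  obtain ⟨-, ⟨j⟩, -⟩ := P9 _ le_rfl
  obtain ⟨c₀, hc₀⟩ := hY.INF.1
  have hM : ∀ x, ML Z.r n ∣ x → Z.ph ε x ∈ Z.E.m ^ n := fun x h =>
    (Z.E.m ^ n).mem_of_dvd (by simpa only [map_natCast] using map_dvd (Z.ph ε) (hd.trans h)) h3n
  have h0 : (Ideal.Quotient.mk (Z.E.m ^ n)).comp (Z.ph ε) (ML Z.r n) = 0 :=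
    Ideal.Quotient.eq_zero_iff_mem.2 (hM _ dvd_rfl)
  have hc := (((LZ_ok _ _ _ (hZ.tw ε) M0 hd9).2.2 _ _ h0).1 _ j hd).1
  have hj := ((hY.CJ c₀ hc₀).2.2.2.1 _ _ _ _ _ _ j (hZ.tw ε) (hZ.anti ε) M0 (by simp [ML]) hd9 hd
    h0).2
  have hO := COJ_ok _ _ _ (hZ.tw ε) M0 hd9
  have e0 : ∀ g, Ideal.Quotient.mk (Z.E.m ^ n) (Z.th ε n g) =
      lamZ ((Ideal.Quotient.mk (Z.E.m ^ n)).comp (Z.ph ε)) (Z.χ ε) (ML Z.r n) g *
        Ideal.Quotient.mk (Z.E.m ^ n) (Z.ga n g) := fun g => map_mul _ _ _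
  have e1 : ∀ g ∈ UM (ML Z.r n), Z.th ε n g - Z.ga n g ∈ Z.E.m ^ n := fun g hg =>
    Ideal.Quotient.eq.1 (by rw [e0, hc.one g hg, one_mul])
  have ch : Ch (Z.E.m ^ n) (Z.U n) (Z.th ε n) := ⟨fun g hg h hh => Ideal.Quotient.eq.1 (by
      rw [map_mul, e0, e0, e0, hc.mul g hg h hh, b1 g hg h hh, map_mul]
      ring), fun u hu => b2 u ((hU u).1 hu).2 ▸ e1 u ((hU u).1 hu).1⟩
  have hT : ∀ x, Z.E.T ∣ x → x ∈ Z.tn n := fun x h =>
    Ideal.mem_sup_left (Ideal.mem_span_singleton.2 h)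
  have hT' : ∀ x ∈ Z.E.m ^ n, x ∈ Z.tn n := fun x h => Ideal.mem_sup_right h
  have ex : ∀ t : Zw, ∃ g ∈ GK, Z.th ε n g - Z.ph ε (1 + 9 * Z.r * t) ∈ Z.tn n := fun t => by
    obtain ⟨g, hg, e, -⟩ := hO.2.1 (1 + 9 * Z.r * t) ⟨t, by ring⟩
      ((IsCoprime.pow_right ⟨1, -(3 * Z.r * t), by ring⟩).mul_right ⟨1, -t, by ring⟩)
    refine ⟨g, hg, ?_⟩
    convert add_mem (hT' _ (Ideal.mul_mem_right (Z.ga n g) _ (hM _ e)))
      (hT _ ((b3 g).mul_left (Z.ph ε (1 + 9 * Z.r * t)))) using 1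
    rw [map_sub, Dt.th, lamZ]
    ring
  refine ⟨ch, fun R _ π hπ => mu_MTHA ch hON' π hπ, fun g hg => ?_, fun g hg => ⟨e1 g hg, ?_⟩,
    fun c hc' g hg => Ideal.Quotient.eq.1 ?_, by simpa [map_ofNat] using ex 1, ex pw,
    fun k _ => ⟨fun y => ?_, fun x => ?_⟩⟩
  · have e2 : Z.E.ι pw ∣ Z.th ε n g - Z.ga n g := by
      have := map_dvd Z.E.ι (s3 1 _ (by simpa using hO.1 g hg))
      rw [pow_one, ← s1, map_sub, map_one] at this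
      convert this.mul_right (Z.ga n g) using 1
      rw [Dt.th, lamZ]
      ring
    refine ⟨by simpa using add_mem (Z.E.m.mem_of_dvd e2 hpw) (Z.E.m.mem_of_dvd (b3 g) hTm), e2, ?_⟩
    convert (b3 g).mul_left (lamZ (Z.ph ε) (Z.χ ε) (ML Z.r n) g) using 1
    rw [Dt.th]
    ring
  · simpa using add_mem (hT' _ (e1 g hg)) (hT _ (b3 g))
  · have hk := GK_mul hc' hc₀.nk
    have hg' := ((hY.CJ c₀ hc₀).1 g).1 hg
    have e2 : c * g * c⁻¹ = c * c₀ * (c₀ * g * c₀) * (c * c₀)⁻¹ := by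
      rw [← mul_assoc, ← mul_assoc, mul_assoc c c₀, hc₀.sq]
      group
    have e3 := hc.mul _ hk _ (inv_mem hk)
    rw [mul_inv_cancel, hc.one 1 (one_mem _)] at e3
    have e4 := b0 (-Z.At n g) (Z.At n g)
    rw [neg_add_cancel, ZMod.val_zero, pow_zero] at e4
    rw [map_mul, e0, e0, map_natCast, ← j_val N0 j, Dt.ga, hZ.odd n c hc' g hg, e2,
      hc.mul _ (mul_mem hk hg') _ (inv_mem hk), hc.mul _ hk _ hg', Dt.ga, map_pow, map_pow]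
    have e5 := hj g hg
    rw [cj] at e5
    rw [← e5, ← mul_one (_ * lamZ _ _ _ g), ← mul_one (1 : Λ ⧸ Z.E.m ^ n),
      congrArg₂ (· * ·) e3 e4]
    ring
  · obtain ⟨y, rfl⟩ := Ideal.Quotient.mk_surjective y
    obtain ⟨c, hc⟩ := Z.E.sur y k
    exact ⟨s c, (Ideal.Quotient.eq.2 (by rwa [s1, s2])).symm⟩
  · rw [RingHom.comp_apply, Ideal.Quotient.eq_zero_iff_mem, s1]
    refine ⟨fun h => s2 x ▸ s3 k _ (Z.E.inj _ k h), fun h => Ideal.mem_sup_right ?_⟩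
    exact (Z.E.m ^ k).mem_of_dvd (map_pow Z.E.ι _ _ ▸ map_dvd Z.E.ι (s3 k x h))
      (Ideal.pow_mem_pow hpw k)

end Pool.Agent.MP_e23604_nt.V

end
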