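import Pool.Agent.Mg.Fe23604m.Gd767a4

set_option linter.all false

set_option autoImplicit false

open Finset Filter QuadraticAlgebra
open scoped Classical

namespace Pool.Agent.MP_e23604_nt.V

open B R S W

theorem dep_MHSL {R : Type} [CommRing R] [IsDomain R] (u v w : Fin 2 → R) :
    ∃ α β γ : R, (α ≠ 0 ∨ β ≠ 0 ∨ γ ≠ 0) ∧ ∀ i, α * u i + β * v i + γ * w i = 0 := by
  have h : ¬ LinearIndependent R ![u, v, w] := fun h => by
    simpa using h.fintype_card_le_finrank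
  obtain ⟨g, h1, i, h2⟩ := Fintype.not_linearIndependent_iff.1 h
  refine ⟨g 0, g 1, g 2, ?_, fun j => ?_⟩
  · fin_cases i
    exacts [Or.inl h2, Or.inr (Or.inl h2), Or.inr (Or.inr h2)]
  · simpa [Fin.sum_univ_three] using congrFun h1 j

theorem three_MHSL {Λ R : Type} [CommRing Λ] [CommRing R] [IsDomain R] (E : Lm Λ) {ϑ : Λ →+* R}
    (h : Rd ϑ E.T) (c : ℕ) : ϑ (3 ^ c) ≠ 0 := by
  rw [map_pow]
  exact pow_ne_zero _ fun e => E.T3 ((h.ker _).1 e)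

theorem Lc_MHSL {Λ : Type} [CommRing Λ] (E : Lm Λ) (a : Λ) (x : ℕ → Λ) :
    E.L (fun n => a * x n) = a * E.L x := by
  rw [E.L_mul (fun _ => a), E.const]

theorem HSL_pf (hY : HY) (hGER : GER_st) (hBV : BV_st) (hORI : ORI_st) (hHSB : HSB_st) : HSL_st := by
  intro Λ R _ _ _ _ Z ϑ ε hZ hϑ
  obtain ⟨⟨hq, -⟩, -, -, -, -, -, -, -, hg⟩ := hGER Λ Z hZ.toOk0
  obtain ⟨b1, b2⟩ := hHSB Λ Z ε hZ.toOk0
  have out : ∀ x : JJ →₀ R, Kr (Z.wt ϑ ε) Z.m0 Z.m0 x → ∀ j ∉ Z.m0, x j = 0 := fun x hx j hj => by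
    by_contra e
    exact hj (hx.1 (Finsupp.mem_support_iff.2 e))
  have ker : ∀ a, ϑ a = 0 ↔ a ∈ Ideal.span {Z.E.T} := fun a => by
    rw [hϑ.ker, Ideal.mem_span_singleton]
  refine ⟨fun hs x y z hx hy hz => ?_, fun hb => ?_⟩
  · obtain ⟨c, hc⟩ := b1 hs
    obtain ⟨f₁, k₁, t₁, v₁, z₁⟩ := hORI Λ R Z ϑ ε x hZ hϑ hx
    obtain ⟨f₂, k₂, t₂, v₂, z₂⟩ := hORI Λ R Z ϑ ε y hZ hϑ hy
    obtain ⟨f₃, k₃, t₃, v₃, z₃⟩ := hORI Λ R Z ϑ ε z hZ hϑ hz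
    choose a₁ ha₁ using fun n => (z₁ n).2.2
    choose a₂ ha₂ using fun n => (z₂ n).2.2
    choose a₃ ha₃ using fun n => (z₃ n).2.2
    obtain ⟨α, β, γ, h0, h1⟩ := dep_MHSL (fun i => ϑ (Z.E.L fun n => a₁ n i))
      (fun i => ϑ (Z.E.L fun n => a₂ n i)) fun i => ϑ (Z.E.L fun n => a₃ n i)
    refine ⟨α, β, γ, h0, ?_⟩
    obtain ⟨α, rfl⟩ := hϑ.sur α
    obtain ⟨β, rfl⟩ := hϑ.sur β
    obtain ⟨γ, rfl⟩ := hϑ.sur γ
    have h2 : ∀ i k, ∀ᶠ n in uf, α * a₁ n i + β * a₂ n i + γ * a₃ n i ∈ Z.tn k := fun i => by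
      refine (Z.E.mem_iff _ _).1 ((ker _).1 ?_)
      rw [Z.E.L_add, Z.E.L_add, Lc_MHSL, Lc_MHSL, Lc_MHSL]
      simpa using h1 i
    ext j
    by_cases hj : j ∈ Z.m0
    · have h3 : Z.E.L (fun n => 3 ^ c * (α • f₁ n + β • f₂ n + γ • f₃ n) (Z.gj j n)) ∈
          Ideal.span {Z.E.T} := by
        refine (Z.E.mem_iff _ _).2 fun k => ?_
        filter_upwards [tendsto_atTop.1 t₁ k, tendsto_atTop.1 t₂ k, tendsto_atTop.1 t₃ k, h2 0 k,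
          h2 1 k] with n e₁ e₂ e₃ e₄ e₅
        have l₁ : Z.tn (k₁ n) ≤ Z.tn k := Z.E.sup_le _ e₁
        have l₂ : Z.tn (k₂ n) ≤ Z.tn k := Z.E.sup_le _ e₂
        have l₃ : Z.tn (k₃ n) ≤ Z.tn k := Z.E.sup_le _ e₃
        refine hc n k _ (e₁.trans (z₁ n).1) (((((z₁ n).2.1.mono le_rfl l₁).smul α).add
          (((z₂ n).2.1.mono le_rfl l₂).smul β)).add (((z₃ n).2.1.mono le_rfl l₃).smul γ))
          (fun g hg' => ?_) _ ((hg j).1 n)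
        convert (Z.tn k).add_mem ((Z.tn k).add_mem ((Z.tn k).add_mem
          ((Z.tn k).mul_mem_left α (l₁ (ha₁ n g hg'))) ((Z.tn k).mul_mem_left β (l₂ (ha₂ n g hg'))))
          ((Z.tn k).mul_mem_left γ (l₃ (ha₃ n g hg')))) ((Z.tn k).add_mem
          ((Z.tn k).mul_mem_right (Z.lo ε n 0 g) e₄) ((Z.tn k).mul_mem_right (Z.lo ε n 1 g) e₅))
          using 1
        simp only [Pi.add_apply, Pi.smul_apply, smul_eq_mul, Fin.sum_univ_two]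
        ring
      rw [Lc_MHSL, ← ker, map_mul, mul_eq_zero, or_iff_right (three_MHSL Z.E hϑ c)] at h3
      simp only [Pi.add_apply, Pi.smul_apply, smul_eq_mul, Z.E.L_add, Lc_MHSL, map_add,
        map_mul] at h3
      simpa [v₁ j hj, v₂ j hj, v₃ j hj, Lm.ev] using h3
    · simp [out x hx j hj, out y hy j hj, out z hz j hj]
  · obtain ⟨c, hc⟩ := b2 hb
    have key : ∀ x, Kr (Z.wt ϑ ε) Z.m0 Z.m0 x →
        ∃ α β : R, α ≠ 0 ∧ α • x = β • vt ϑ (Z.bv ε) := fun x hx => by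
      obtain ⟨f, k, t, v, z⟩ := hORI Λ R Z ϑ ε x hZ hϑ hx
      choose a ha using fun n => hc n (k n) (f n) (z n).1 (z n).2.1 (z n).2.2
      refine ⟨ϑ (3 ^ c), ϑ (Z.E.L a), three_MHSL Z.E hϑ c, ?_⟩
      ext j
      simp only [Finsupp.smul_apply, smul_eq_mul, vt, Finsupp.mapRange_apply]
      by_cases hj : j ∈ Z.m0
      · have h3 := (ker _).2 (Z.E.mem_of t fun n => ha n _ ((hg j).1 n))
        rw [Z.E.L_sub, Lc_MHSL, Z.E.L_mul, map_sub, sub_eq_zero, map_mul, map_mul] at h3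
        rw [v j hj, Mx.bv, Z.vec_apply, if_pos (mem_insert_of_mem hj), mul_comm (ϑ (Z.E.L a))]
        exact h3
      · rw [out x hx j hj, mul_zero]
        by_cases e : j = Z.qg
        · rw [e, (hBV Λ Z ε hZ).2.1, (hϑ.ker _).2 dvd_rfl, mul_zero]
        · rw [Mx.bv, Z.vec_apply, if_neg (by simp [hj, e]), map_zero, mul_zero]
    refine ⟨key, fun x y hx hy h0 => ?_⟩
    obtain ⟨α₁, β₁, h1, e1⟩ := key x hx
    obtain ⟨α₂, β₂, h2, e2⟩ := key y hy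
    have h3 : β₁ ≠ 0 := fun e => by
      rw [e, zero_smul, smul_eq_zero] at e1
      exact e1.elim h1 h0
    exact ⟨β₁ * α₂, β₂ * α₁, mul_ne_zero h3 h2, by rw [mul_smul, mul_smul, e1, e2, smul_comm]⟩

theorem gen_MHSL (n : ℕ) : W.Gen (3 ^ (n + 1)) (N.gq (3 ^ (n + 1))) :=
  Classical.epsilon_spec (CYG_ok _ (pow_ne_zero _ (by decide))).1

theorem nat_MHSL (k : ℕ) (P : Pt) : (3 : Zw) ^ k • P = 3 ^ k • P := by
  rw [← Nat.cast_smul_eq_nsmul Zw]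
  push_cast
  rfl

theorem lev_MHSL {Λ : Type} [CommRing Λ] (Z : Dt Λ) (hZ : Z.Ok) (ε : Bool) (n : ℕ) {ξ : GQ → Pt}
    (h : SelU (Z.χ ε) Z.r ξ) (h3 : ∀ g ∈ GK, 3 ^ (n + 1) • ξ g = 0) :
    Zf (Z.th ε n) (Ru (3 * Z.r)) (Z.tn n) (fun g => Z.ph ε (co (N.gq (3 ^ (n + 1))) (ξ g))) ∧
      Z.Kq ε n (Z.tn n) fun g => Z.ph ε (co (N.gq (3 ^ (n + 1))) (ξ g)) := by
  have h0 : Z.ph ε (3 ^ (n + 1)) ∈ Z.tn n := by
    rw [map_pow, map_ofNat, pow_succ]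
    exact Ideal.mem_sup_right (Ideal.mul_mem_right _ _ (Ideal.pow_mem_pow Z.E.three_mem n))
  have hM : (3 : Zw) ^ (n + 1) ≠ 0 := pow_ne_zero _ (by decide)
  have hr : (Z.r : Zw) ≠ 0 := Nat.cast_ne_zero.2 (hZ.tw ε).sf.ne_zero
  have h9 : (9 * Z.r : Zw) ≠ 0 := mul_ne_zero (by decide) hr
  have h4 : ∀ g ∈ GK, (3 : Zw) ^ (n + 1) • ξ g = 0 := fun g hg => by rw [nat_MHSL, h3 g hg]
  obtain ⟨c1, c2, c3⟩ := COI_ok _ ((Ideal.Quotient.mk (Z.tn n)).comp (Z.ph ε)) _ _ hM (gen_MHSL n)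
    (Ideal.Quotient.eq_zero_iff_mem.2 h0)
  refine ⟨⟨?_, fun g ⟨V, hV, hg⟩ => ?_⟩, _, dvd_rfl, h0, ?_⟩
  · have e : (fun g => Ideal.Quotient.mk (Z.tn n) (Z.th ε n g)) =
        lamZ ((Ideal.Quotient.mk (Z.tn n)).comp (Z.ph ε)) (Z.χ ε) (ML Z.r n) := by
      funext g
      have : Ideal.Quotient.mk (Z.tn n) Z.E.T = 0 :=
        Ideal.Quotient.eq_zero_iff_mem.2 (Ideal.mem_sup_left (Ideal.mem_span_singleton_self _))
      rw [Dt.th, Dt.ga, map_mul, map_pow, map_add, this, map_one, add_zero, one_pow, mul_one]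
      rfl
    rw [e]
    exact ((c3 _ _ (ML Z.r n) (hZ.tw ε) (mul_ne_zero hM h9) (dvd_mul_left _ _)
      (dvd_mul_right _ _)).2 GK le_rfl).1 ξ h.1 h4
  · have := c1 0
    rw [zero_smul, map_zero, ← h.2.1 V hV g hg] at this
    exact Ideal.Quotient.eq_zero_iff_mem.1 this
  · obtain ⟨P, hP⟩ := h.2.2 V3 (Ov_mul.2 (Or.inl V3_three))
    have hf : ∀ g ∈ V3.D, eta (Z.χ ε) g ((3 : Zw) ^ (n + 1) • P) = (3 : Zw) ^ (n + 1) • P :=
      fun g hg => by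
        rw [eta_smul _ (V3.D_le hg), ← sub_eq_zero, ← smul_sub, ← hP g hg, h4 g (V3.D_le hg)]
    have hd : (3 : Zw) ^ (n + 1) • N.dv (3 ^ (n + 1)) ((3 : Zw) ^ (n + 1) • P) =
        (3 : Zw) ^ (n + 1) • P :=
      Classical.epsilon_spec (p := fun P' => (3 : Zw) ^ (n + 1) • P' = (3 : Zw) ^ (n + 1) • P)
        ⟨P, rfl⟩
    refine ⟨Unit, inferInstance, fun _ => 1, fun _ => (3 : Zw) ^ (n + 1) • P, fun _ => hf,
      ic ((Ideal.Quotient.mk (Z.tn n)).comp (Z.ph ε)) (N.gq (3 ^ (n + 1)))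
        (P - N.dv (3 ^ (n + 1)) ((3 : Zw) ^ (n + 1) • P)), fun g hg => ?_⟩
    rw [Fintype.sum_unique, one_mul, N.dl]
    generalize N.dv (3 ^ (n + 1)) ((3 : Zw) ^ (n + 1) • P) = Q at hd ⊢
    have gK := V3.D_le hg
    have hS : (3 : Zw) ^ (n + 1) • (P - Q) = 0 := by rw [smul_sub, hd, sub_self]
    have hQ : (3 : Zw) ^ (n + 1) • (eta (Z.χ ε) g Q - Q) = 0 := by
      rw [smul_sub, ← eta_smul _ gK, hd, hf g hg, sub_self]
    have hE : (3 : Zw) ^ (n + 1) • eta (Z.χ ε) g (P - Q) = 0 := by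
      rw [← eta_smul _ gK, hS, map_zero]
    have e1 : ξ g = (eta (Z.χ ε) g Q - Q) + (eta (Z.χ ε) g (P - Q) - (P - Q)) := by
      rw [hP g hg, map_sub]
      abel
    have e2 := ((c2 _ hQ).2.2.2 (eta (Z.χ ε) g (P - Q) - (P - Q))
      (by rw [smul_sub, hE, hS, sub_self])).1
    rw [← e1, ((c2 _ hE).2.2.2 _ hS).2, eta_apply _ _ (P - Q), ((PS_ok _ hM).1 g gK).1 _ hS,
      ← mul_smul, (c2 _ hS).2.1] at e2
    rw [sub_mul, one_mul]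
    exact e2

theorem XIL_pf (hY : HY) (hTRM : TRM_st) (hTHA : THA_st) (hTHB : THB_st) (hGER : GER_st) (hROW : ROW_st) (hVAL : VAL_st) (hLOK : LOK_st) : XIL_st := by
  intro Λ R _ _ _ Z ϑ hZ hϑ ⟨k, ξ, hξ⟩
  generalize (!Z.s₀) = ε at hξ ⊢
  have hD : Z.toDt.Ok := hZ.toOk0.toOk
  obtain ⟨⟨hq, -, -, hm, dj, -⟩, hA, -, -, -, -, -, -, hg⟩ := hGER Λ Z hZ.toOk0
  obtain ⟨r1, -, -, r4, r5, r6, -⟩ := hROW Λ Z ε hZ.toOk0
  have ad : Z.Ad (insert Z.qg Z.m0) := ⟨subset_rfl, fun j h1 h2 => absurd h1 h2⟩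
  have gd := hA _ ad
  have ker : ∀ a, ϑ a = 0 ↔ a ∈ Ideal.span {Z.E.T} := fun a => by
    rw [hϑ.ker, Ideal.mem_span_singleton]
  let f : ℕ → GQ → Λ := fun n g => Z.ph ε (co (N.gq (3 ^ (n + 1))) (ξ n g))
  have lv := fun n hn => lev_MHSL Z.toDt hD ε n (hξ n hn).1 (hξ n hn).2.1
  have ls : Z.LS ε (Ideal.span {Z.E.T}) (insert Z.qg Z.m0) f := by
    refine diag (G := fun n j => Zf (Z.th ε n) (Rn (insert Z.qg Z.m0) n) (Z.tn j) (f n) ∧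
      Z.Kl ε n (Z.tn j) (f n)) (fun n => ?_) fun j => ?_
    · have : Z.tn 0 = ⊤ := by simp [Dt.tn]
      rw [this]
      exact ⟨zf_iff.2 ⟨⟨GK, GK_on, by simp⟩, by simp, by simp⟩, 0, by simp⟩
    · filter_upwards [gd, uf_le (eventually_ge_atTop k), uf_le (eventually_ge_atTop j)]
        with n g1 g2 g3
      have le : Z.tn n ≤ Z.tn j := Z.E.sup_le _ g3
      refine ⟨(lv n g2).1.mono ?_ le,
        ((hLOK Λ Z ε n _ _ hZ.toOk0 le_sup_right).1 (lv n g2).2).imp fun a ha g hg => le (ha g hg)⟩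
      rintro g ⟨V, h1, h2⟩
      refine ⟨V, fun e => h1 ?_, h2⟩
      exact (((hTRM Z.r (hD.tw ε).sf.ne_zero (hD.tw ε).n3).2.2.2.2 V).2 e).dvd (mul_dvd_mul_left _
        (prod_dvd_prod_of_subset _ _ _ ((subset_insert _ _).trans g1.sub)))
  have rv : Z.Rv (Ideal.span {Z.E.T}) (insert Z.qg Z.m0) (Z.vec Z.m0 f) f := by
    refine ⟨(Z.vec_supp _ _).trans (subset_insert _ _), fun j hj => ?_⟩
    rcases mem_insert.1 hj with rfl | hj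
    · rw [Z.vec_apply, if_neg hq, zero_sub, neg_mem_iff]
      refine L_mem Z.E (k := id) uf_le ?_
      filter_upwards [gd, uf_le (eventually_ge_atTop k)] with n g1 g2
      obtain ⟨q1, q2, q3, -⟩ := (hTHB Λ Z.toDt n hD).2.2.2.1 _ (hD.qp n) (hD.qd n)
      refine (lv n g2).1.2 _ ⟨Z.K.V (-Z.q n), fun e => ?_, ?_⟩
      · have := (nat_HPLb _ (3 * Z.r)).1 (by exact_mod_cast e)
        rw [(hD.pk.ine _ (hD.qp n) q1).1, (hD.qp n).dvd_mul] at this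
        refine this.elim (fun e => ?_) q2
        rw [(Nat.prime_dvd_prime_iff_eq (hD.qp n) Nat.prime_three).1 e] at q1
        omega
      · rw [Mx.gj, g1.q]
        exact (hD.pk.tm _ q3).2.2.1
    · simp [Z.vec_apply, hj]
  obtain ⟨v1, v2, v3⟩ := hVAL Λ Z ε _ _ _ f hZ ad ls.lc rv
  refine ⟨vt ϑ (Z.vec Z.m0 f), ⟨Finsupp.support_mapRange.trans (Z.vec_supp _ _), fun i hi => ?_⟩,
    fun e => ?_⟩
  · refine (ev_vt ϑ _ _).trans ((ker _).2 ?_)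
    have hi' := hi
    rw [hm, union_assoc] at hi'
    rcases mem_union.1 hi' with h | h
    · rcases mem_insert.1 h with rfl | h
      exacts [v3 ls _, mem_singleton.1 h ▸ v3 ls _]
    · have := v2 i (mem_insert_of_mem hi) fun e => disjoint_left.1 dj e h
      rcases mem_union.1 h with h' | h'
      · obtain ⟨ϖ, h1, rfl⟩ := mem_image.1 h'
        rwa [(r6 ϖ h1).1]
      · rw [(r5 i h').2.1, ev_smul, Ideal.mem_span_singleton] at this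
        exact Ideal.mem_span_singleton.2 ((Z.E.pT.dvd_or_dvd this).resolve_left fun e =>
          Z.E.T3 (e.trans (r4 i h).1))
  · have h1 := (ker _).1 ((ev_vt ϑ _ _).symm.trans e)
    rw [(r1 _ (Or.inr rfl)).1] at h1
    have h2 : Z.E.ev f (Z.sg Z.qg) ∈ Ideal.span {Z.E.T} := by
      simpa using (Ideal.span {Z.E.T}).sub_mem h1 (v1 _ (hg Z.qg).2)
    obtain ⟨n, ⟨⟨g1, g2⟩, g3⟩, g4⟩ := (((((Z.E.mem_iff _ _).1 h2 (2 * k)).and
      (sq_ofFun fun n => -(Z.q n : Zw))).and (uf_le (eventually_ge_atTop k))).and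
      (uf_le (eventually_ge_atTop (2 * k)))).exists
    have e1 : Z.sg Z.qg n = Z.K.σ (-Z.q n) := congrArg Z.K.σ g2
    rw [e1] at g1
    obtain ⟨c, hc⟩ := (((hTHA Λ Z.toDt n hD).2.2.2.2.2.1 ε).2.2.2.2.2.2.2 _ g4).ker _ |>.1
      (Ideal.Quotient.eq_zero_iff_mem.2 g1)
    obtain ⟨u, hu⟩ := (CYG_ok _ (pow_ne_zero (n + 1) (by decide : (3 : Zw) ≠ 0))).2.1 _ (gen_MHSL n)
      (ξ n (Z.K.σ (-Z.q n))) (by rw [nat_MHSL, (hξ n g3).2.1 _ (hD.pk.gk _).1])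
    have e2 := Classical.epsilon_spec (p := fun u : Zw => ξ n (Z.K.σ (-Z.q n)) =
      u • N.gq (3 ^ (n + 1))) ⟨u, hu⟩
    refine (hξ n g3).2.2 ?_
    change _ = co _ _ • _ at e2
    rw [e2, hc, ← nat_MHSL, ← mul_smul, gen_MHSL n, pow_mul, pw_sq, neg_pow, ← mul_assoc,
      mul_left_comm, ← pow_add, Nat.sub_add_cancel (by omega)]
    exact (dvd_mul_left _ _).mul_right _

end Pool.Agent.MP_e23604_nt.V
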