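import Pool.Agent.Mg.Fe23604m.Gd767a4

set_option linter.all false

set_option autoImplicit false

open Finset Filter QuadraticAlgebra
open scoped Classical

namespace Pool.Agent.MP_e23604_nt.V

open B R S W

/-- a cocycle on `K` whose character is trivial on the normal subgroup `H` -/
structure Cc_MCHL {G R : Type} [Group G] [CommRing R] (K H : Subgroup G) (c : G) (θ F : G → R) :
    Prop where
  le : H ≤ K
  nrm : ∀ a, ∀ h ∈ H, a * h * a⁻¹ ∈ H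
  cc : c⁻¹ = c
  cK : ∀ g ∈ K, c * g * c ∈ K
  one : ∀ h ∈ H, θ h = 1
  mul : ∀ g ∈ K, ∀ h ∈ K, θ (g * h) = θ g * θ h
  coc : ∀ g ∈ K, ∀ h ∈ K, F (g * h) = F g + θ g * F h

namespace Cc_MCHL

variable {G R : Type} [Group G] [CommRing R] {K H : Subgroup G} {c : G} {θ F : G → R}
  (X : Cc_MCHL K H c θ F)
include X

theorem cH_MCHL {h : G} (hh : h ∈ H) : c * h * c ∈ H := by
  have := X.nrm c h hh
  rwa [X.cc] at this

theorem add_MCHL {h k : G} (hh : h ∈ H) (hk : k ∈ K) : F (h * k) = F h + F k := by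
  rw [X.coc h (X.le hh) k hk, X.one h hh, one_mul]

theorem cnj_MCHL {a h : G} (ha : a ∈ K) (hh : h ∈ H) : F (a * h * a⁻¹) = θ a * F h := by
  have e := X.add_MCHL (X.nrm a h hh) ha
  rw [inv_mul_cancel_right, X.coc a ha h (X.le hh)] at e
  linear_combination -e

theorem mid_MCHL (g h : G) : c * (g * h) * c = c * g * c * (c * h * c) := by
  have : c * c = 1 := by rw [← mul_inv_cancel c, X.cc]
  rw [show c * g * c * (c * h * c) = c * g * (c * c) * h * c by simp only [mul_assoc], this]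
  simp only [mul_assoc, one_mul]

theorem sad_MCHL {h k : G} (hh : h ∈ H) (hk : k ∈ H) : F (c * (h * k) * c) + F (h * k) =
    F (c * h * c) + F h + (F (c * k * c) + F k) := by
  rw [X.mid_MCHL, X.add_MCHL hh (X.le hk), X.add_MCHL (X.cH_MCHL hh) (X.cK k (X.le hk))]
  ring

theorem scj_MCHL {a h : G} (ha : a ∈ K) (hh : h ∈ H) :
    F (c * (a * h * a⁻¹) * c) + F (a * h * a⁻¹) = θ (c * a * c) * F (c * h * c) + θ a * F h := by
  rw [X.cnj_MCHL ha hh, ← X.cnj_MCHL (X.cK a ha) (X.cH_MCHL hh), X.mid_MCHL, X.mid_MCHL,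
    mul_inv_rev, mul_inv_rev, X.cc, ← mul_assoc c a⁻¹]

theorem sne_MCHL [IsDomain R] {a u : G} (ha : a ∈ K) (hu : u ∈ H) (h1 : θ (c * a * c) ≠ θ a)
    (h2 : F u ≠ 0) : ∃ h ∈ H, F (c * h * c) + F h ≠ 0 := by
  by_contra e
  push Not at e
  have e1 := e _ (X.nrm a u hu)
  rw [X.scj_MCHL ha hu] at e1
  refine mul_ne_zero (sub_ne_zero.2 h1) h2 ?_
  linear_combination θ (c * a * c) * e u hu - e1

theorem sdl_MCHL {a h : G} {α β : R} (ha : a ∈ K) (hh : h ∈ H) (h1 : θ a = α) (h2 : α * β = 1)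
    (h3 : θ (c * a * c) * θ a = 1) :
    F (c * (a * h * a⁻¹ * (a⁻¹ * h * a⁻¹⁻¹) * h⁻¹ * h⁻¹) * c) +
      F (a * h * a⁻¹ * (a⁻¹ * h * a⁻¹⁻¹) * h⁻¹ * h⁻¹) = (α + β - 2) * (F (c * h * c) + F h) := by
  have i := H.inv_mem hh
  have m := H.mul_mem (X.nrm a h hh) (X.nrm a⁻¹ h hh)
  have e0 := X.sad_MCHL H.one_mem H.one_mem
  have e1 := X.sad_MCHL hh i
  have e2 := X.mul a ha _ (K.inv_mem ha)
  have e3 := X.mul _ (X.cK a ha) _ (X.cK _ (K.inv_mem ha))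
  rw [← X.mid_MCHL, mul_inv_cancel, X.one _ (X.cH_MCHL H.one_mem)] at e3
  rw [mul_inv_cancel, X.one _ H.one_mem] at e2
  rw [mul_inv_cancel] at e1
  rw [one_mul] at e0
  rw [X.sad_MCHL (H.mul_mem m i) i, X.sad_MCHL m i, X.sad_MCHL (X.nrm a h hh) (X.nrm a⁻¹ h hh),
    X.scj_MCHL ha hh, X.scj_MCHL (K.inv_mem ha) hh]
  rw [h1] at h3 e2
  have f1 : θ (c * a * c) = β := by linear_combination β * h3 - θ (c * a * c) * h2
  have f2 : θ a⁻¹ = β := by linear_combination -β * e2 - θ a⁻¹ * h2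
  have f3 : θ (c * a⁻¹ * c) = α := by
    rw [f1] at e3
    linear_combination -α * e3 - θ (c * a⁻¹ * c) * h2
  rw [f1, f2, f3, h1]
  linear_combination -2 * e0 - 2 * e1

end Cc_MCHL

theorem av_MCHL {G R I : Type} [CommRing R] [IsDomain R] (H : G → Prop) (s : I → G → R) (δ : R)
    (hδ : ∀ i j : ℕ, δ ^ i = δ ^ j → i = j) (h0 : ∃ h, H h)
    (ha : ∀ x y, H x → H y → ∃ z, H z ∧ ∀ i, s i z = s i x + s i y)
    (hm : ∀ x, H x → ∃ z, H z ∧ ∀ i, s i z = δ * s i x) (hn : ∀ i, ∃ x, H x ∧ s i x ≠ 0)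
    (J : Finset I) : ∃ x, H x ∧ ∀ i ∈ J, s i x ≠ 0 := by
  induction J using Finset.induction_on with
  | empty => simpa using h0
  | insert i J _ ih =>
    obtain ⟨x, hx, e⟩ := ih
    obtain ⟨y, hy, e'⟩ := hn i
    have p : ∀ j : ℕ, ∃ z, H z ∧ ∀ k, s k z = δ ^ j * s k y := fun j => by
      induction j with
      | zero => exact ⟨y, hy, by simp⟩
      | succ j ih =>
        obtain ⟨z, h1, h2⟩ := ih
        obtain ⟨z', h3, h4⟩ := hm z h1
        exact ⟨z', h3, fun k => by rw [h4, h2]; ring⟩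
    have f : (⋃ k ∈ (insert i J : Finset I), {j : ℕ | s k x + δ ^ j * s k y = 0}).Finite :=
      (Finset.finite_toSet _).biUnion fun k hk => Set.Subsingleton.finite fun j h1 j' h2 => by
        have h3 : s k y ≠ 0 := fun h3 => by
          rcases mem_insert.1 hk with rfl | hk
          · exact e' h3
          · exact e k hk (by simpa [h3] using h1)
        refine hδ _ _ (mul_right_cancel₀ h3 ?_)
        simp only [Set.mem_ofPred_eq] at h1 h2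
        linear_combination h1 - h2
    obtain ⟨j, hj⟩ := f.exists_notMem
    obtain ⟨z, h1, h2⟩ := p j
    obtain ⟨w, h3, h4⟩ := ha x z hx h1
    exact ⟨w, h3, fun k hk h5 => hj (Set.mem_biUnion hk (by rw [h4, h2] at h5; exact h5))⟩

theorem int_MCHL (N r : ℤ) (hr : ¬ 3 ∣ r) :
    ∃ t w : ℤ, ¬ 3 ∣ w ∧ t * (N ^ 2 + 972 * r ^ 2) = 243 * w := by
  have q : ∀ x y : ℤ, ¬ 3 ∣ x → ¬ 3 ∣ x ^ 2 + 3 * y := fun x y h e =>
    h (Int.prime_three.dvd_of_dvd_pow ((dvd_add_left (dvd_mul_right 3 y)).1 e))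
  by_cases h : 3 ∣ N
  · obtain ⟨N, rfl⟩ := h
    by_cases h : 3 ∣ N
    · obtain ⟨N, rfl⟩ := h
      by_cases h : 3 ∣ N
      · obtain ⟨N, rfl⟩ := h
        exact ⟨1, _, q r (N ^ 2 + r ^ 2) hr, by ring⟩
      · exact ⟨3, _, q N (4 * r ^ 2) h, by ring⟩
    · exact ⟨27, _, q N (36 * r ^ 2) h, by ring⟩
  · exact ⟨243, _, q N (324 * r ^ 2) h, by ring⟩

section lim

variable {Λ : Type} [CommRing Λ]

theorem tm_MCHL (E : Lm Λ) : E.T ∈ E.m := by
  rw [E.m_eq]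
  exact Ideal.subset_span (by simp)

theorem un_MCHL (E : Lm Λ) {w : ℤ} (h : ¬ 3 ∣ w) : IsUnit (w : Λ) := E.unit _ fun e => by
  obtain ⟨a, b, hab⟩ := (Int.prime_three.irreducible.coprime_iff_not_dvd.2 h)
  have := congrArg (Int.cast : ℤ → Λ) hab
  push_cast at this
  exact E.ne (this ▸ E.m.add_mem (E.m.mul_mem_left _ E.three_mem) (E.m.mul_mem_left _ e))

/-- sequences with values in given groups -/
noncomputable abbrev pi_MCHL (U : ℕ → Subgroup GQ) : Subgroup GG := Subgroup.pi Set.univ U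

theorem mem_MCHL {U : ℕ → Subgroup GQ} {g : GG} : g ∈ pi_MCHL U ↔ ∀ n, g n ∈ U n := by
  simp [Subgroup.mem_pi]

theorem cc_MCHL (hY : HY) (hTHA : THA_st) {Z : Mx Λ} (hZ : Z.Ok0) {ε : Bool} {P : Ideal Λ}
    {A : Finset JJ} {f : ℕ → GQ → Λ} (hf : Z.LC ε P A f) {U : ℕ → Subgroup GQ}
    (h1 : ∀ n, ON (U n)) (h2 : ∀ n, U n ≤ UM (ML Z.r n))
    (h3 : ∀ n, ∀ g ∈ U n, Z.th ε n g - 1 ∈ P ⊔ Z.E.m ^ n) :
    Cc_MCHL (pi_MCHL fun _ => GK) (pi_MCHL U) (fun _ => Z.c)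
      (fun g => Ideal.Quotient.mk P (Z.E.ev (Z.th ε) g))
      fun g => Ideal.Quotient.mk P (Z.E.ev f g) where
  le g hg := mem_MCHL.2 fun n => (h2 n (mem_MCHL.1 hg n)).1
  nrm a h hh := mem_MCHL.2 fun n => (h1 n).1.conj_mem _ (mem_MCHL.1 hh n) _
  cc := funext fun _ => inv_eq_of_mul_eq_one_right hZ.cj.sq
  cK g hg := mem_MCHL.2 fun n => ((hY.CJ _ hZ.cj).1 _).1 (mem_MCHL.1 hg n)
  one h hh := by
    rw [← map_one (Ideal.Quotient.mk P), Ideal.Quotient.eq, ← Z.E.const 1, Lm.ev, ← Z.E.L_sub]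
    exact Z.E.mem_of (k := id) uf_le fun n => h3 n _ (mem_MCHL.1 hh n)
  mul g hg h hh := by
    rw [Z.E.ev_mul (fun n => ((hTHA Λ Z.toDt n hZ.toOk).2.2.2.2.2.1 ε).1) (mem_MCHL.1 hg)
      (mem_MCHL.1 hh), map_mul]
  coc g hg h hh := by
    rw [← map_mul, ← map_add, Ideal.Quotient.eq]
    exact LZ.coc hf (mem_MCHL.1 hg) (mem_MCHL.1 hh)

theorem cy_MCHL (hTHA : THA_st) {Z : Mx Λ} (hZ : Z.Ok0) (ε : Bool) {g : GG} (hg : Inc GK g) :
    Z.E.ev (Z.th ε) ((fun _ => Z.c) * g * fun _ => Z.c) * Z.E.ev (Z.th ε) g =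
      Z.E.L fun n => ((W.cy (3 ^ (n + 1)) (g n)).val : Λ) := by
  rw [Lm.ev, Lm.ev, ← Z.E.L_mul]
  refine Z.E.congr fun n => ?_
  have := ((hTHA Λ Z.toDt n hZ.toOk).2.2.2.2.2.1 ε).2.2.2.2.1 _ hZ.cj.nk _ (hg n)
  rwa [inv_eq_of_mul_eq_one_right hZ.cj.sq] at this

end lim

theorem CHL_pf (hY : HY) (hTHA : THA_st) (hTHB : THB_st) (hGER : GER_st) (hROW : ROW_st) (hCHA : CHA_st) : CHL_st := by
  intro Λ _ _ Z P A hZ hA hP
  have a := fun n => hTHA Λ Z.toDt n hZ.toOk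
  have b := fun n => hTHB Λ Z.toDt n hZ.toOk
  obtain ⟨τ, hτ⟩ : ∃ τ : GG, τ = fun n => Z.K.τ (-(Z.q n : Zw)) := ⟨_, rfl⟩
  have t0 : ∀ f, Z.E.ev f (Z.gj Z.qg) = Z.E.ev f τ := fun f => L_congr _ (by
    filter_upwards [sq_ofFun fun n => -(Z.q n : Zw)] with n e
    simp only [hτ, Mx.gj, Mx.gen, Mx.qg, jn, Sum.map_inr, Sum.elim_inr, e])
  have t1 : ∀ n, τ n ∈ UM (ML Z.r n) ∧ W.cy (3 ^ (n + 1)) (τ n) = 1 := fun n => by
    obtain ⟨c1, -, c2, c3⟩ := (b n).2.2.2.1 _ (hZ.qp n) (hZ.qd n)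
    obtain ⟨d1, d2, -⟩ := hZ.pk.ine _ (hZ.qp n) c1
    have d3 : τ n ∈ (Z.K.V (-Z.q n)).D := by
      rw [hτ]
      exact Plc.I_le _ (hZ.pk.tm _ c2).2.2.1
    refine ⟨(c3 _ d1).1 d3, ((hY.INF.2.2 _ _ d2).2.2.2.2.2.2.2.2.2.2.2 _ ?_).1 _ d3⟩
    rw [d1]
    exact ((pow_dvd_pow 3 (by omega)).trans (dvd_mul_right _ _)).trans (hZ.qd n)
  have tK : Inc GK τ := fun n => (t1 n).1.1
  have fin : ∀ (I : Type) [Fintype I] (ε : I → Bool) (f : I → ℕ → GQ → Λ) (h : GG),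
      (∀ i, Z.LC (ε i) P A (f i)) → Z.Uq P h →
      (∀ i, Ideal.Quotient.mk P (Z.E.ev (f i) ((fun _ => Z.c) * h * fun _ => Z.c)) +
        Ideal.Quotient.mk P (Z.E.ev (f i) h) ≠ 0) →
      ∃ l ∈ Z.L, l ∉ A ∧ ∀ i, Z.E.ev (f i) (Z.sg l) ∉ P := fun I _ ε f h h1 h2 h3 => by
    obtain ⟨l, l1, l2, l3⟩ := hCHA Λ Z P A I ε f h hZ hA h1 h2
    refine ⟨l, l1, l2, fun i e => h3 i ?_⟩
    obtain ⟨μ, e'⟩ := l3 i
    rw [← map_add, Ideal.Quotient.eq_zero_iff_mem]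
    exact (P.sub_mem_iff_left (P.mul_mem_left μ e)).1 e'
  have nu : ∀ x, x ∉ Z.E.m → Ideal.Quotient.mk P x ≠ 0 := fun x h e =>
    hP.ne_top (P.eq_top_of_isUnit_mem (Ideal.Quotient.eq_zero_iff_mem.1 e) (Z.E.unit x h))
  have hT := tm_MCHL Z.E
  refine ⟨fun h0 I _ ε f hf => ?_, fun h0 h3 ε f hf hq => ?_⟩
  · have X := fun i => cc_MCHL hY hTHA hZ (hf i).1 (fun n => (a n).2.1)
      (fun n g hg => (((a n).1 g).1 hg).1)
      fun n g hg => Ideal.mem_sup_right ((((a n).2.2.2.2.2.1 (ε i)).1).2 g hg)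
    have t2 : ∀ ε, Z.E.ev (Z.th ε) τ = 1 + Z.E.T := fun ε =>
      (Z.E.congr (y := fun _ => 1 + Z.E.T) fun n => by
        rw [hτ]
        exact ((b n).2.2.2.2.2 ε).2.1).trans (Z.E.const _)
    have t3 : ∀ ε, Ideal.Quotient.mk P (Z.E.ev (Z.th ε) ((fun _ => Z.c) * τ * fun _ => Z.c)) *
        Ideal.Quotient.mk P (Z.E.ev (Z.th ε) τ) = 1 := fun ε => by
      rw [← map_mul, cy_MCHL hTHA hZ ε tK, ← map_one (Ideal.Quotient.mk P), ← Z.E.const 1]
      congr 2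
      funext n
      rw [(t1 n).2, ZMod.val_one'' (Nat.one_lt_pow (by omega) (by omega)).ne', Nat.cast_one]
    obtain ⟨β, hβ⟩ := (Z.E.unit (1 + Z.E.T) fun e => Z.E.ne ((Z.E.m.add_mem_iff_left hT).1 e)).exists_right_inv
    have T0 : Ideal.Quotient.mk P Z.E.T ≠ 0 := fun e => h0 (Ideal.Quotient.eq_zero_iff_mem.1 e)
    have hβ' : Ideal.Quotient.mk P (1 + Z.E.T) * Ideal.Quotient.mk P β = 1 := by
      rw [← map_mul, hβ, map_one]
    have d1 : Ideal.Quotient.mk P (1 + Z.E.T) + Ideal.Quotient.mk P β - 2 =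
        Ideal.Quotient.mk P (Z.E.T * (Z.E.T * β)) := by
      simp only [map_add, map_mul, map_one] at hβ' ⊢
      linear_combination (1 - Ideal.Quotient.mk P Z.E.T) * hβ'
    have d2 : Ideal.Quotient.mk P (Z.E.T * (Z.E.T * β)) ≠ 0 := by
      rw [map_mul, map_mul]
      exact mul_ne_zero T0 (mul_ne_zero T0 (right_ne_zero_of_mul_eq_one hβ'))
    have d3 : ∀ i j : ℕ, i < j → Ideal.Quotient.mk P (Z.E.T * (Z.E.T * β)) ^ i ≠
        Ideal.Quotient.mk P (Z.E.T * (Z.E.T * β)) ^ j := fun i j h e => by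
      obtain ⟨k, rfl⟩ := Nat.exists_eq_add_of_lt h
      refine nu (1 - (Z.E.T * (Z.E.T * β)) ^ (k + 1)) (fun e' => Z.E.ne
        ((Z.E.m.sub_mem_iff_left (Z.E.m.pow_mem_of_mem (Z.E.m.mul_mem_right _ hT) _
          k.succ_pos)).1 e')) (mul_left_cancel₀ (pow_ne_zero i d2) ?_)
      rw [map_sub, map_one, map_pow]
      linear_combination e
    obtain ⟨h, h1, h2⟩ := av_MCHL (· ∈ pi_MCHL Z.toDt.U)
      (fun i h => Ideal.Quotient.mk P (Z.E.ev (f i) ((fun _ => Z.c) * h * fun _ => Z.c)) +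
        Ideal.Quotient.mk P (Z.E.ev (f i) h)) _
      (fun i j e => le_antisymm (not_lt.1 fun h => d3 _ _ h e.symm) (not_lt.1 fun h => d3 _ _ h e))
      ⟨1, one_mem _⟩ (fun x y hx hy => ⟨x * y, mul_mem hx hy, fun i => (X i).sad_MCHL hx hy⟩)
      (fun x hx => ⟨τ * x * τ⁻¹ * (τ⁻¹ * x * τ⁻¹⁻¹) * x⁻¹ * x⁻¹, mul_mem (mul_mem (mul_mem
        (mem_MCHL.2 fun n => (a n).2.1.1.conj_mem _ (mem_MCHL.1 hx n) _)
        (mem_MCHL.2 fun n => (a n).2.1.1.conj_mem _ (mem_MCHL.1 hx n) _)) (inv_mem hx))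
        (inv_mem hx), fun i => by
          rw [← d1]
          exact (X i).sdl_MCHL (mem_MCHL.2 tK) hx (by simp only [t2]) hβ' (t3 _)⟩)
      (fun i => by
        obtain ⟨-, q1, g, q2, q3⟩ := hf i
        have u : τ * g * τ⁻¹ * g⁻¹ ∈ pi_MCHL Z.toDt.U :=
          mem_MCHL.2 fun n => (a n).2.2.2.1 _ (tK n) _ (q2 n)
        have gK := (mem_MCHL (U := fun _ => GK)).2 q2
        have τK := (mem_MCHL (U := fun _ => GK)).2 tK
        refine (X i).sne_MCHL τK u (fun e => ?_) fun e => ?_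
        · have := t3 (ε i)
          rw [e, t2, map_add, map_one] at this
          refine mul_ne_zero T0 (nu (2 + Z.E.T) fun e' => Z.E.ne ?_) ?_
          · have := Z.E.m.sub_mem (Z.E.m.add_mem Z.E.three_mem hT) e'
            rwa [show (3 : Λ) + Z.E.T - (2 + Z.E.T) = 1 by ring] at this
          · rw [map_add, map_ofNat]
            linear_combination this
        · have e1 := (X i).add_MCHL u (mul_mem gK τK)
          rw [show τ * g * τ⁻¹ * g⁻¹ * (g * τ) = τ * g by group, (X i).coc _ τK _ gK,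
            (X i).coc _ gK _ τK] at e1
          rw [e, t2, ← t0, Ideal.Quotient.eq_zero_iff_mem.2 q1, map_add, map_one] at e1
          refine mul_ne_zero T0 (fun e' => q3 (Ideal.Quotient.eq_zero_iff_mem.1 e')) ?_
          linear_combination e1) univ
    exact fin I ε f h (fun i => (hf i).1)
      (fun n => (((a n).1 _).1 (mem_MCHL.1 h1 n)).imp_right Or.inr) fun i => h2 i (mem_univ i)
  · have tl : ∀ n, Z.tn n ≤ P ⊔ Z.E.m ^ n := fun n =>
      sup_le_sup_right ((Ideal.span_singleton_le_iff_mem _).2 h0) _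
    have X := cc_MCHL hY hTHA hZ hf (fun n => (a n).2.2.1) (fun n => le_rfl)
      fun n g hg => tl n (((a n).2.2.2.2.2.1 ε).2.2.2.1 g hg).2
    choose g g1 g2 using fun n => ((a n).2.2.2.2.2.1 ε).2.2.2.2.2.2.1
    have g3 : Z.E.ev (Z.th ε) g - Z.ph ε (1 + 9 * Z.r * pw) ∈ P := by
      rw [← Z.E.const (Z.ph ε _), Lm.ev, ← Z.E.L_sub]
      exact Z.E.mem_of (k := id) uf_le fun n => tl n (g2 n)
    obtain ⟨h, h1, h2⟩ := X.sne_MCHL ((mem_MCHL (U := fun _ => GK)).2 g1)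
      (mem_MCHL.2 fun n => (t1 n).1) (fun e => h3 (by
        have e1 := P.add_mem (P.mul_mem_left (Z.E.ev (Z.th ε) g) (Ideal.Quotient.eq.1 e))
          (P.mul_mem_left (Z.E.ev (Z.th ε) g + Z.ph ε (1 + 9 * Z.r * pw)) g3)
        have e2 : Z.E.L (fun n => ((W.cy (3 ^ (n + 1)) (g n)).val : Λ) -
            Z.ph ε (1 + 9 * Z.r * pw) ^ 2) ∈ P := by
          rw [Z.E.L_sub, Z.E.const, ← cy_MCHL hTHA hZ ε g1]
          refine (Iff.of_eq (congrArg (· ∈ P) ?_)).1 e1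
          ring
        have p2 : Z.ph ε pw ^ 2 = -3 := by
          rw [← map_pow, ← map_ofNat (Z.ph ε) 3, ← map_neg]
          congr 1
        refine hP.mem_of_pow_mem 5 (Z.E.clo P _ fun k => ?_)
        obtain ⟨n, e3⟩ := ((Z.E.mem_iff P _).1 e2 k).exists
        obtain ⟨t, w, w1, w2⟩ := int_MCHL ((W.cy (3 ^ (n + 1)) (g n)).val - 1 + 243 * Z.r ^ 2) Z.r
          (by exact_mod_cast (hZ.tw ε).n3)
        have w3 := congrArg (Int.cast : ℤ → Λ) w2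
        simp only [map_add, map_mul, map_one, map_natCast, map_ofNat] at e3
        generalize (W.cy (3 ^ (n + 1)) (g n)).val = N at e3 w3
        push_cast at w3
        rw [← Ideal.mul_unit_mem_iff_mem _ (un_MCHL Z.E w1)]
        have e4 := (P ⊔ Z.E.m ^ k).mul_mem_left
          (t * (N - 1 + 243 * Z.r ^ 2 + 18 * Z.r * Z.ph ε pw)) e3
        refine (Iff.of_eq (congrArg (· ∈ P ⊔ Z.E.m ^ k) ?_)).1 e4
        linear_combination w3 - t * ((N - 1 + 243 * Z.r ^ 2 + 18 * Z.r * Z.ph ε pw) * 81 * Z.r ^ 2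
          + 324 * Z.r ^ 2) * p2))
      fun e => hq (by rw [t0]; exact Ideal.Quotient.eq_zero_iff_mem.1 e)
    obtain ⟨l, l1, l2, l3⟩ := fin Unit (fun _ => ε) (fun _ => f) h (fun _ => hf)
      (fun n => ⟨mem_MCHL.1 h1 n, Or.inl h0⟩) fun _ => h2
    exact ⟨l, l1, l2, l3 ()⟩

end Pool.Agent.MP_e23604_nt.V
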