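import Pool.Agent.Mg.Fe23604m.Gd767a4

set_option linter.all false

/-!
The local points at three modulo the prime over three.
-/

set_option autoImplicit false
set_option linter.unusedVariables false

open Finset Filter QuadraticAlgebra
open scoped Classical

namespace Pool.Agent.MP_e23604_nt.V

open B R S W

variable {χ : GQ → ZMod 3}

theorem dis_MLB {y : Qb} (hy : Fix V3.D y) (h : V3.v y < 1) : V3.v y ≤ V3.v (W.io pw) := by
  by_cases h0 : y = 0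
  · rw [h0, map_zero]
    exact V3.v.nonneg _
  obtain ⟨k, hk⟩ := (PLK_ok.2.2.1 V3 pw pw_prime ov_XLOC).2.2.2.2.2.2 y h0
    fun g hg => hy g (V3.I_le hg)
  have p0 := pos_XLOC pw_ne
  rw [hk, zpow_lt_one_iff_right_of_lt_one₀ p0 ov_XLOC] at h
  rw [hk]
  simpa using zpow_le_zpow_right_of_le_one₀ p0 (V3.io_le pw) (show (1 : ℤ) ≤ k from h)

theorem res_MLB {u : Qb} (hu : Fix V3.D u) (h : V3.v u ≤ 1) :
    ∃ a : Zw, V3.v (u - W.io a) ≤ V3.v (W.io pw) := by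
  obtain ⟨σ, h1, h2⟩ := (FRK_ok V3 pw pw_prime ov_XLOC).1
  have h3 := h2 u h
  rw [hu σ h1, show nn pw = 3 by decide,
    (by simp only [map_zero, map_one, map_neg]; ring :
      u - u ^ 3 = -((u - W.io 0) * (u - W.io 1) * (u - W.io (-1)))),
    V3.v.map_neg, map_mul, map_mul] at h3
  by_contra e
  have k : ∀ a : Zw, 1 ≤ V3.v (u - W.io a) := fun a => not_lt.1 fun e' =>
    e ⟨a, dis_MLB (fun g hg => by rw [map_sub, hu g hg, io_fix hg.2]) e'⟩
  exact absurd h3 (not_lt.2 (one_le_mul_of_one_le_of_one_le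
    (one_le_mul_of_one_le_of_one_le (k 0) (k 1)) (k (-1))))

theorem step_MLB {P Q : Pt} (e : E1 V3.v P) (e' : E1 V3.v Q) (f : Fx χ V3.D P)
    (f' : Fx χ V3.D Q) (h0 : V3.v (zz P) ≠ 0) (h : V3.v (zz Q) ≤ V3.v (zz P)) :
    ∃ a : Zw, V3.v (zz (Q - a • P)) ≤ V3.v (W.io pw) * V3.v (zz P) := by
  have z0 : zz P ≠ 0 := fun k => h0 (by rw [k, map_zero])
  have p0 := V3.v.pos z0
  obtain ⟨a, ha⟩ := res_MLB (u := zz Q / zz P) (fun g hg => by
    have k1 := zz_eta (χ := χ) g P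
    have k2 := zz_eta (χ := χ) g Q
    rw [f g hg] at k1
    rw [f' g hg] at k2
    conv_rhs => rw [k1, k2]
    rw [map_div₀, mul_div_mul_left _ _ (pow_ne_zero _ w3_ne_zero)])
    (by rwa [map_div₀, div_le_one p0])
  have h4 : V3.v (zz P) ^ 4 ≤ V3.v (W.io pw) * V3.v (zz P) := by
    rw [pow_succ]
    exact mul_le_mul_of_nonneg_right
      ((ZEQ_pf H5_ok V3 pw P pw_prime ov_XLOC e).2.2 χ f) p0.le
  have k1 := ((FML_ok V3).1 Q _ e' (E1m e (-a)).1).trans ((pow_le_pow_left₀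
    (le_max_of_le_left (V3.v.nonneg _)) (max_le h (E1m e (-a)).2.2) 4).trans h4)
  have k2 := ((FML_ok V3).2.1 (-a) P e).trans h4
  have k3 : V3.v ((zz Q / zz P - W.io a) * zz P) ≤ V3.v (W.io pw) * V3.v (zz P) := by
    rw [map_mul]
    exact mul_le_mul_of_nonneg_right ha p0.le
  refine ⟨a, le_of_eq_of_le (congrArg _ ?_) (bLocA_add_le V3.na (bLocA_add_le V3.na k1 k2) k3)⟩
  rw [sub_eq_add_neg Q, neg_smul, map_neg]
  field_simp
  ring

theorem gen_MLB {G : Pt} {t : ℕ} (h0 : pw ^ t • G ≠ 0) (h1 : pw ^ (t + 1) • G = 0) :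
    Gen (pw ^ (t + 1)) G := fun b => by
  refine ⟨fun h => ?_, dvd_smul h1⟩
  by_cases hb : b = 0
  · exact hb ▸ dvd_zero _
  obtain ⟨i, a, ha, rfl⟩ := WfDvdMonoid.max_power_factor hb pw_prime.irreducible
  refine (pow_dvd_pow _ (not_lt.1 fun hi => h0 ?_)).mul_right _
  refine cop_smul (pw_prime.coprime_iff_not_dvd.2 ha) (by rwa [← mul_smul, ← pow_succ']) ?_
  rw [← mul_smul, mul_comm]
  exact dvd_smul h (mul_dvd_mul_right (pow_dvd_pow _ (Nat.le_of_lt_succ hi)) a)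

theorem T0_MLB : Fx χ V3.D T0 := fun g _ => by
  rw [eta_apply, gal_T0]
  induction (χ g).val with
  | zero => simp
  | succ i ih => rw [pow_succ, mul_smul, w_T0, ih]

/-- a multiple of the fixed points consists of small points -/
theorem sm_MLB (hχ : Adt GK χ) : ∃ N : Zw, N ≠ 0 ∧ ∀ Q, Fx χ V3.D Q → E1 V3.v (N • Q) ∧
    ∀ s : Zw, V3.v (zz (N • s • Q)) = V3.v (W.io s) * V3.v (zz (N • Q)) := by
  obtain ⟨N, N0, hN⟩ := PIG_pf H5_ok
  refine ⟨pw * N, mul_ne_zero pw_ne N0, fun Q f => ?_⟩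
  have e1 := hN χ V3 Q hχ V3_three f
  obtain ⟨-, z2, z3⟩ := ZEQ_pf H5_ok V3 pw _ pw_prime ov_XLOC e1
  have z4 := z3 χ (f.smul V3.D_le N)
  have e2 := (E1m e1 pw).1
  have p0 := pos_XLOC pw_ne
  rw [mul_smul]
  refine ⟨e2, fun s => ?_⟩
  rw [smul_comm, mul_smul]
  refine (ZEQ_pf H5_ok V3 pw _ pw_prime ov_XLOC e2).1 ?_ s
  refine (pow_le_pow_left₀ (V3.v.nonneg _) (z2 z4 pw) 3).trans_lt ?_
  rw [mul_pow]
  refine (mul_le_mul_of_nonneg_left z4 (by positivity)).trans_lt ?_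
  exact mul_lt_of_lt_one_left p0 (pow_lt_one₀ p0.le ov_XLOC three_ne_zero)

/-- a point of largest size -/
theorem mx_MLB (h1 : Adt GK χ) (h2 : Lc GK χ) {N : Zw} (N0 : N ≠ 0)
    (hN : ∀ Q, Fx χ V3.D Q → E1 V3.v (N • Q)) : ∃ P, Fx χ V3.D P ∧ V3.v (zz (N • P)) ≠ 0 ∧
      ∀ Q, Fx χ V3.D Q → V3.v (zz (N • Q)) ≤ V3.v (zz (N • P)) := by
  have p0 := pos_XLOC pw_ne
  have p1 : V3.v (W.io pw) < 1 := ov_XLOC
  have key : ∀ Q, Fx χ V3.D Q → V3.v (zz (N • Q)) ≠ 0 →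
      ∃ k : ℕ, V3.v (zz (N • Q)) ^ 3 = V3.v (W.io pw) ^ k := fun Q f h0 => by
    obtain ⟨k, hk⟩ := (PLK_ok.2.2.1 V3 pw pw_prime ov_XLOC).2.2.2.2.2.2 (zz (N • Q) ^ 3)
      (pow_ne_zero _ fun e => h0 (by rw [e, map_zero])) fun g hg => by
        have := zz_eta (χ := χ) g (N • Q)
        rw [f.smul V3.D_le N g (V3.I_le hg)] at this
        conv_rhs => rw [this, mul_pow, ← pow_mul, mul_comm _ 3, pow_mul, w3_cube, one_pow, one_mul]
        exact map_pow g _ _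
    rw [map_pow] at hk
    have k1 := pow_lt_one₀ (V3.v.nonneg _) (zz_lt (hN Q f)) three_ne_zero
    rw [hk, zpow_lt_one_iff_right_of_lt_one₀ p0 p1] at k1
    lift k to ℕ using k1.le
    exact ⟨k, by rw [hk, zpow_natCast]⟩
  have ex : ∃ k : ℕ, ∃ P, Fx χ V3.D P ∧ V3.v (zz (N • P)) ≠ 0 ∧
      V3.v (zz (N • P)) ^ 3 = V3.v (W.io pw) ^ k := by
    obtain ⟨δ, d0, hδ⟩ := FXP_pf H5_ok χ h1 h2
    have d1 := V3.v.pos d0
    obtain ⟨i, hi⟩ := exists_pow_lt_of_lt_one (div_pos p0 d1) p1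
    have d2 : V3.v (W.io (pw ^ i) * δ) < V3.v (W.io pw) := by
      rwa [map_mul, map_pow, map_pow, ← lt_div_iff₀ d1]
    obtain ⟨P, e, f, z⟩ := hδ V3 _ (d2.trans p1)
    have d3 : V3.v (zz (N • P)) ≠ 0 := by
      rw [(ZEQ_pf H5_ok V3 pw P pw_prime ov_XLOC e).1 ((pow_le_of_le_one (V3.v.nonneg _)
        (zz_lt e).le three_ne_zero).trans_lt (z ▸ d2)) N, z, map_mul]
      exact (mul_pos (pos_XLOC N0) (mul_pos (pos_XLOC (pow_ne_zero _ pw_ne)) d1)).ne'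
    exact (key P f d3).imp fun k hk => ⟨P, f, d3, hk⟩
  obtain ⟨P, f, h0, hk⟩ := Nat.find_spec ex
  refine ⟨P, f, h0, fun Q f' => ?_⟩
  by_cases h0' : V3.v (zz (N • Q)) = 0
  · exact h0' ▸ V3.v.nonneg _
  obtain ⟨k, hk'⟩ := key Q f' h0'
  refine le_of_pow_le_pow_left₀ three_ne_zero (V3.v.nonneg _) ?_
  rw [hk, hk']
  exact pow_le_pow_of_le_one p0.le p1.le (Nat.find_min' ex ⟨Q, f', h0', hk'⟩)

theorem LB_pf (hY : HY) : LB_st := by
  intro χ r hT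
  obtain ⟨N, N0, hN⟩ := sm_MLB hT.add
  obtain ⟨P, f, h0, hP⟩ := mx_MLB hT.add hT.lc N0 fun Q f => (hN Q f).1
  have p0 := pos_XLOC pw_ne
  have p1 : V3.v (W.io pw) < 1 := ov_XLOC
  have w0 : 0 < V3.v (zz (N • P)) := (V3.v.nonneg _).lt_of_ne' h0
  have sm := fun {Q : Pt} (f : Fx χ V3.D Q) => f.smul V3.D_le
  have ad : ∀ {Q Q' : Pt}, Fx χ V3.D Q → Fx χ V3.D Q' → Fx χ V3.D (Q + Q') :=
    fun h h' g hg => by rw [map_add, h g hg, h' g hg]
  have it : ∀ Q, Fx χ V3.D Q → ∀ i : ℕ, ∃ a : Zw,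
      V3.v (zz (N • (Q - a • P))) ≤ V3.v (W.io pw) ^ i * V3.v (zz (N • P)) := fun Q f' i => by
    induction i with
    | zero => exact ⟨0, by simpa using hP Q f'⟩
    | succ i ih =>
      obtain ⟨a, ha⟩ := ih
      have k1 := (hN P f).2 (pw ^ i)
      rw [map_pow, map_pow] at k1
      obtain ⟨a', ha'⟩ := step_MLB (hN _ (sm f (pw ^ i))).1 (hN _ (f'.sub (sm f a))).1
        (sm (sm f _) N) (sm (f'.sub (sm f a)) N) (k1 ▸ (mul_pos (pow_pos p0 i) w0).ne') (k1 ▸ ha)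
      refine ⟨a + a' * pw ^ i, ?_⟩
      rw [pow_succ', mul_assoc, ← k1]
      refine le_of_eq_of_le (congrArg (fun x => V3.v (zz x)) ?_) ha'
      module
  obtain ⟨e, c, hc, hNe⟩ := WfDvdMonoid.max_power_factor N0 pw_prime.irreducible
  have cp := pw_prime.coprime_iff_not_dvd.2 hc
  have ex : ∃ s : ℕ, ∀ Q, Fx χ V3.D Q → ∀ j : ℕ, pw ^ j • Q = 0 → pw ^ s • Q = 0 :=
    ⟨e, fun Q f' j hj => by
      have k1 := (hN Q f').2 (pw ^ j)
      rw [hj, smul_zero, zz_zero, map_zero, eq_comm, mul_eq_zero] at k1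
      have k2 := (zz_zero_iff (hN Q f').1).1 (V3.v.eq_zero.1
        (k1.resolve_left (pos_XLOC (pow_ne_zero _ pw_ne)).ne'))
      refine cop_smul (cp.pow_left (m := j)) (by rw [smul_comm, hj, smul_zero]) ?_
      rwa [← mul_smul, mul_comm, ← hNe]⟩
  have hs := Nat.find_spec ex
  obtain ⟨t, ht⟩ := Nat.exists_eq_succ_of_ne_zero (n := Nat.find ex) fun e => T0_ne (by
    simpa [e] using hs T0 T0_MLB 1 (by simpa using pw_T0))
  have hm := Nat.find_min ex (m := t) (by omega)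
  rw [ht] at hs
  simp only [not_forall] at hm
  obtain ⟨G, fG, j, hj, G0⟩ := hm
  have G1 := hs G fG j hj
  have hG := gen_MLB G0 G1
  have NG : N • G = 0 := by
    have k1 := (hN G fG).2 (pw ^ j)
    rw [hj, smul_zero, zz_zero, map_zero, eq_comm, mul_eq_zero] at k1
    exact (zz_zero_iff (hN G fG).1).1 (V3.v.eq_zero.1
      (k1.resolve_left (pos_XLOC (pow_ne_zero _ pw_ne)).ne'))
  refine ⟨![P, G], Fin.forall_fin_two.2 ⟨f, fG⟩, fun Q f' => ?_, fun a Q f' h => ?_⟩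
  · have b0 := mul_ne_zero pw_ne N0
    have b1 := pos_XLOC b0
    have b2 : V3.v (W.io (pw * N)) < 1 := Ov.dvd ov_XLOC (dvd_mul_right _ _)
    obtain ⟨i, hi⟩ := exists_pow_lt_of_lt_one (div_pos (mul_pos b1 b1) w0) p1
    obtain ⟨a, ha⟩ := it Q f' i
    have f1 := f'.sub (sm f a)
    obtain ⟨R, -, fR, hR, -⟩ := DVF_pf H5_ok χ V3 (pw * N) 1 (V3.v (W.io (pw * N))) _ b0
      (hN _ f1).1 (sm f1 N) (by rw [pow_one]; exact ha.trans ((lt_div_iff₀ w0).1 hi).le)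
      (by simpa using pow_lt_pow_right_of_lt_one₀ b1 b2 (show 1 < 3 by norm_num))
    have f2 := f1.sub (sm fR pw)
    have k1 : pw ^ e • c • (Q - a • P - pw • R) = 0 := by
      rw [← mul_smul, ← hNe, smul_sub, ← hR, pow_one, mul_comm, mul_smul, sub_self]
    obtain ⟨u, hu⟩ := (CYG_ok _ (pow_ne_zero _ pw_ne)).2.1 G hG _ (hs _ (sm f2 c) e k1)
    obtain ⟨α, β, hab⟩ := cp
    refine ⟨![a, β * u], R + α • (Q - a • P - pw • R), ad fR (sm f2 α), ?_⟩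
    rw [Fin.sum_univ_two]
    simp only [Matrix.cons_val_zero, Matrix.cons_val_one]
    linear_combination (norm := module) β • hu - hab • (Q - a • P - pw • R)
  · rw [Fin.sum_univ_two] at h
    simp only [Matrix.cons_val_zero, Matrix.cons_val_one] at h
    have k1 : N • a 0 • P = N • pw • Q := by
      rw [← h, smul_add, smul_comm N (a 1), NG, smul_zero, add_zero]
    have k2 := (hN P f).2 (a 0)
    rw [k1, (hN Q f').2] at k2
    have k3 : pw ∣ a 0 := by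
      refine ((PLK_ok.2.2.1 V3 pw pw_prime ov_XLOC).1 _).1 (lt_of_le_of_lt ?_ p1)
      exact le_of_mul_le_mul_right (k2 ▸ mul_le_mul_of_nonneg_left (hP Q f') p0.le) w0
    obtain ⟨b, hb⟩ := id k3
    have k4 : pw • (Q - b • P) = a 1 • G := by
      rw [smul_sub, ← h, hb, mul_smul, add_sub_cancel_left]
    have k5 := hs _ (f'.sub (sm f b)) (t + 1 + 1) (by
      rw [pow_succ, mul_smul, k4, smul_comm, G1, smul_zero])
    rw [pow_succ, mul_smul, k4, ← mul_smul, hG, pow_succ,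
      mul_dvd_mul_iff_left (pow_ne_zero _ pw_ne)] at k5
    exact Fin.forall_fin_two.2 ⟨k3, k5⟩

end Pool.Agent.MP_e23604_nt.V
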