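import Pool.Agent.Mg.Fe23604m.Gd767a4

set_option linter.all false

set_option autoImplicit false

open Finset Filter QuadraticAlgebra
open scoped Classical

namespace Pool.Agent.MP_e23604_nt.V

open B R S W

theorem lev_MRCL {N M : ℕ} (hM : M ≠ 0) (h : N ∣ M) :
    (∀ g, (((W.cy M g).val : ℕ) : ZMod N) = W.cy N g) ∧
    ∀ (g : GQ) (l : ℕ), l ≠ 0 → W.cy N g = 1 → IsUnit (km M g l) →
      (((km M g l)⁻¹.val : ℕ) : ZMod N) * km N g l = 1 := by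
  obtain ⟨k, rfl⟩ := h
  have : NeZero (N * k) := ⟨hM⟩
  obtain ⟨h1, e, h2⟩ := (KM_ok N (left_ne_zero_of_mul hM)).2.2.2.2.2.2.1 k
    (right_ne_zero_of_mul hM)
  refine ⟨fun g => by rw [← h1, ZMod.castHom_apply, ZMod.natCast_val], fun g l hl hc hu => ?_⟩
  have e1 := h2 g l (Nat.cast_ne_zero.2 hl)
  rw [hc, map_natCast, one_mul, add_sub_cancel_right] at e1
  rw [← e1, ZMod.natCast_val, ← ZMod.castHom_apply (h := Dvd.intro k rfl), ← map_mul,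
    ZMod.inv_mul_of_unit _ hu, map_one]

theorem ovn_MRCL {V : Plc} {l : ℕ} (h : l.Prime) : Ov V l ↔ V.l = l :=
  (PLK_ok.2.2.2.1 V l).trans (Nat.prime_dvd_prime_iff_eq V.hl.out h)

theorem ov3_MRCL {V : Plc} : Ov V 3 ↔ V.l = 3 := by simpa using ovn_MRCL (V := V) Nat.prime_three

section

variable {Λ : Type} [CommRing Λ]

/-- the local terms -/
noncomputable def trm_MRCL (Z : Mx Λ) (ε : Bool) (n : ℕ) (f f' : GQ → Λ) : Bool ⊕ Zw → Λ :=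
  Sum.elim (fun _ => 0) fun ϖ =>
    (((km (3 ^ (n + 1)) (Z.K.τ ϖ) (Z.K.V ϖ).l)⁻¹.val : ℕ) : Λ) * Z.th ε n (Z.c * (Z.K.φ ϖ)⁻¹) *
      (f (Z.K.σ ϖ) * f' (Z.K.τ ϖ) + f (Z.K.τ ϖ) * f' (Z.K.σ ϖ))

theorem lvl_MRCL (hY : HY) (hTRM : TRM_st) (hTHA : THA_st) (hTHB : THB_st) (hLOI : LOI_st)
    (hLV : LV_st) {Z : Mx Λ} (h0 : Z.Ok0) (ε : Bool) {n i : ℕ} {b : Ideal Λ}
    (hb : Z.E.m ^ n ≤ b) (hi : 1 ≤ i) (hi' : i ≤ n + 1) (h3 : (3 : Λ) ^ i ∈ b) {T : Finset Zw}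
    {Q : Finset ℕ} {t : Λ} {f f' : GQ → Λ} (z : Zf (Z.th ε n) (Ru (3 * ∏ ϖ ∈ T, ϖ)) b f)
    (z' : Zf (Z.th ε n) (Ru (3 * ∏ ϖ ∈ T, ϖ)) b f') (k : Z.Kl ε n b f) (k' : Z.Kl ε n b f')
    (hT : ∀ ϖ ∈ T, ϖ ∈ Tr Z.r ∨ ϖ = -(Z.q n : Zw) ∨ ∃ l ∈ Q, ϖ = -(l : Zw))
    (hQ : ∀ l ∈ Q, l.Prime ∧ l % 3 = 2 ∧ 3 ^ i ∣ l + 1 ∧
      ∀ g ∈ (Z.K.V (-l)).D, Z.th ε n g - 1 ∈ b)
    (hq : Z.q n ∈ Q ∨ f (Z.K.τ (-Z.q n)) ∈ b ∧ f' (Z.K.τ (-Z.q n)) ∈ b)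
    (hr : t = 3 ∨ Z.E.ι pw ∈ b ∧ Bn Z.r ⊆ Q ∧ ∀ ϖ ∈ Sz Z.r, f (Z.K.τ ϖ) ∈ b ∧ f' (Z.K.τ ϖ) ∈ b) :
    t * ∑ l ∈ Q, trm_MRCL Z ε n f f' (.inr (-l)) ∈ b := by
  have ok := h0.toOk
  obtain ⟨-, -, -, -, -, A6, A7⟩ := hTHA Λ Z.toDt n ok
  obtain ⟨ch, mu, a1, -, a3, -⟩ := A6 ε
  obtain ⟨fin, -, nil⟩ := A7 b hb
  obtain ⟨-, -, B3, B4, -, B6⟩ := hTHB Λ Z.toDt n ok
  have tw := ok.tw ε
  have tr := (hTRM Z.r tw.sf.ne_zero tw.n3).1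
  set π := Ideal.Quotient.mk b with hπ
  have π0 : ∀ {a : Λ}, π a = 0 ↔ a ∈ b := Ideal.Quotient.eq_zero_iff_mem
  have π1 : ∀ {a : Λ}, a - 1 ∈ b → π a = 1 := fun h => by
    rw [← map_one π]
    exact Ideal.Quotient.eq.2 h
  have mu := mu _ π fun a ha => π0.2 (hb ha)
  have n3 : IsNilpotent (3 : Λ ⧸ b) := by simpa only [map_ofNat] using nil 3 Z.E.three_mem
  have n1 : ∀ g ∈ GK, IsNilpotent (π (Z.th ε n g) - 1) := fun g hg => by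
    simpa only [map_sub, map_one] using nil _ (a1 g hg).1
  obtain ⟨j⟩ : Nonempty (ZMod (3 ^ i) →+* Λ ⧸ b) := ⟨ZMod.castHom (ringChar.dvd (by
    simpa only [map_pow, map_ofNat, Nat.cast_pow, Nat.cast_ofNat] using π0.2 h3)) _⟩
  obtain ⟨l1, l2⟩ := lev_MRCL (pow_ne_zero (n + 1) three_ne_zero) (pow_dvd_pow 3 hi')
  have ci : Z.c⁻¹ = Z.c := inv_eq_of_mul_eq_one_right h0.cj.sq
  have du : ∀ g ∈ GK, π (Z.th ε n (Z.c * g * Z.c)) * π (Z.th ε n g) = cj j g := fun g hg => by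
    rw [cj, ← l1, map_natCast, ← map_mul, ← map_natCast π]
    exact Ideal.Quotient.eq.2 (hb (by simpa only [ci] using a3 _ h0.cj.nk g hg))
  have cx : Co (fun g => π (Z.th ε n g)) GK fun g => π (t * f g) := (z.smul t).1
  have kx : Z.Kl ε n b fun g => t * f g := by
    obtain ⟨a, ha⟩ := k
    exact ⟨fun s => t * a s, fun g hg => by
      simpa only [mul_sub, mul_sum, mul_assoc] using b.mul_mem_left t (ha g hg)⟩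
  have van : ∀ ϖ, PP ϖ → ∀ x, Co (fun g => π (Z.th ε n g)) GK x → x (Z.K.τ ϖ) = 0 →
      ∀ g ∈ (Z.K.V ϖ).I, x g = 0 := fun ϖ hp x hx => by
    obtain ⟨c1, c2, c3, c4⟩ := ok.pk.tm ϖ hp
    have l3 : (Z.K.V ϖ).l ≠ 3 := fun e => c1.cop (pw_prime.coprime_iff_not_dvd.2 hp.2.pw).symm
      (Ov_three.1 (ov3_MRCL.2 e))
    obtain ⟨N, e1, e2⟩ := koch_unip _ n3
    exact ((TPR_ok 3 N _ _ ϖ _ _ _ Nat.prime_three l3 l3 hp.1 c1 c2 c3 c4 e1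
      (mu.monoK (Plc.D_le _)) fun g hg => e2 _ (n1 g (Plc.D_le _ hg))).1 x
        (hx.monoK (Plc.D_le _))).2.2
  obtain ⟨q2, qr, qp, -⟩ := B4 _ (ok.qp n) (ok.qd n)
  have key := (hY.RCS _ 3 i j Z.c _ _ _ Nat.prime_three hi h0.cj mu du cx z'.1).2.1 Q
    (fun l => Z.K.V (-l)) (fun l => Z.K.φ (-l)) (fun l => Z.K.τ (-l))
    (fun l => ((km (3 ^ (n + 1)) (Z.K.τ (-l)) (Z.K.V (-l)).l)⁻¹.val : ℕ)) (fun l hl => by
      obtain ⟨c1, c2, c3, c4⟩ := hQ l hl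
      obtain ⟨d1, d2, -⟩ := ok.pk.ine l c1 c2
      obtain ⟨e1, -, -, -, -, -, -, -, -, -, -, e2⟩ := hY.INF.2.2 _ _ d2
      rw [d1] at e1
      obtain ⟨-, -, t1, t2⟩ := ok.pk.tm _ e1
      have l3 : (Z.K.V (-l)).l ≠ 3 := by omega
      have := l2 _ _ (Z.K.V (-l)).hl.out.ne_zero ((e2 _ (d1.symm ▸ c3)).1 _ (Plc.I_le _ t1))
        ((TAME_ok 3 (n + 1) _ Nat.prime_three l3 l3).2.2.2.1 _ t1 t2)
      exact ⟨d1, d2, c3, t1, by simpa only [d1] using this, fun g hg => π1 (c4 g hg)⟩)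
    fun W hW => hLV _ 3 i j Z.c _ _ _ W Nat.prime_three h0.cj mu du cx z'.1 (by
      by_cases w3 : W.l = 3
      · exact .inl ⟨w3, _, h0.c3.1, h0.c3.2, hLOI Λ Z ε n i b j _ _ h0 hb hi' kx k'⟩
      by_cases wr : W.l ∣ Z.r
      · have wq : W.l ≠ Z.q n := fun e => qr (e ▸ wr)
        have ov : ∀ W' : Plc, W'.l = W.l → Ov W' Z.r := fun W' e =>
          (PLK_ok.2.2.2.1 W' _).2 (e ▸ wr)
        rcases hr with rfl | ⟨r1, r2, r3⟩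
        · refine .inr (.inl fun W' e => ?_)
          simpa only [map_mul, map_ofNat] using RAM_pf TPR_ok TAME_ok PLK_ok FRK_ok _ _ W' _
            (π.comp (Z.ph ε)) _ _ tw (ov W' e) n3 (mu.monoK W'.D_le)
            (fun g hg => n1 g (W'.D_le hg)) (fun τ hτ => Ideal.Quotient.eq.2
              (hb (((B6 ε).1 W' (e ▸ w3) τ hτ).2 (e ▸ wq)))) (z.1.monoK W'.D_le)
        have on : ∀ W' : Plc, W'.l = W.l → ∀ τ ∈ W'.I, π (Z.th ε n τ) = 1 := fun W' e τ hτ => by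
          obtain ⟨c, hc⟩ := (a1 τ (W'.D_le (W'.I_le hτ))).2.1
          rw [Dt.ga, ok.unr n W' (mt (ovn_MRCL (ok.qp n)).1 (e ▸ wq)) τ hτ, ZMod.val_zero,
            pow_zero] at hc
          exact π1 (hc ▸ b.mul_mem_right _ r1)
        refine .inr (.inr (.inr ⟨w3, fun W' e τ hτ => ?_⟩))
        obtain ⟨ϖ, p1, p2, -, p3⟩ := PLK_ok.1 W'
        have pp := p3 (e ▸ w3)
        obtain ⟨s1, s2, s3, -⟩ := PLK_ok.2.2.1 W' ϖ p1 p2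
        have o := (ok.pk.tm ϖ pp).1
        have hs : ϖ ∈ Sz Z.r := mem_filter.2 ⟨(tr ϖ).2 ⟨pp, (s1 _).1 (ov W' e)⟩, by
          rcases s3 with s | s | s
          · exact s.2.1 ▸ W'.hl.out
          · exact (hW (r2 (mem_filter.2 ⟨Nat.mem_primeFactors.2
              ⟨W.hl.out, wr, tw.sf.ne_zero⟩, e ▸ s.1⟩))).elim
          · exact (w3 (e ▸ s.1)).elim⟩
        have cn := fun x hx h => (((CNJ_ok _ _).2 _ W' ϖ mu p1 o p2).1 x hx).2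
          (on _ ((s2 _ o).1.trans e)) (van ϖ pp x hx h) τ hτ
        exact ⟨on W' e τ hτ, cn _ cx (π0.2 (b.mul_mem_left _ (r3 ϖ hs).1)),
          cn _ z'.1 (π0.2 (r3 ϖ hs).2)⟩
      by_cases wq : W.l = Z.q n
      · obtain ⟨d1, d2, -⟩ := ok.pk.ine _ (ok.qp n) q2
        obtain ⟨c1, c2⟩ := hq.resolve_left (wq ▸ hW)
        exact .inr (.inr (.inl ⟨w3, _, _, d2, d1.trans wq.symm, fun τ hτ =>
          ⟨van _ qp _ cx (π0.2 (b.mul_mem_left _ c1)) τ hτ, van _ qp _ z'.1 (π0.2 c2) τ hτ⟩⟩))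
      refine .inr (.inr (.inr ⟨w3, fun W' e τ hτ => ?_⟩))
      rw [← e] at w3 wr wq hW
      have ru : τ ∈ Ru (3 * ∏ ϖ ∈ T, ϖ) := ⟨W', fun o => by
        obtain ⟨ϖ, p1, p2, -⟩ := PLK_ok.1 W'
        have s1 := (PLK_ok.2.2.1 W' ϖ p1 p2).1
        obtain ⟨a, ha, d⟩ := (p1.dvd_finsetProd_iff _).1
          ((s1 _).1 ((Ov_mul.1 o).resolve_left (mt ov3_MRCL.1 w3)))
        have oa := (s1 _).2 d
        rcases hT a ha with h | rfl | ⟨l, hl, rfl⟩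
        · exact wr ((PLK_ok.2.2.2.1 W' _).1 (oa.dvd ((tr a).1 h).2))
        · exact wq ((ovn_MRCL (ok.qp n)).1 (oa.dvd (neg_dvd.2 dvd_rfl)))
        · exact hW ((ovn_MRCL (hQ l hl).1).1 (oa.dvd (neg_dvd.2 dvd_rfl)) ▸ hl), hτ⟩
      refine ⟨π1 (hb (ch.2 τ (B3 W' (fun o => ?_) hτ))), π0.2 (b.mul_mem_left _ (z.2 τ ru)),
        π0.2 (z'.2 τ ru)⟩
      rcases Ov_mul.1 o with o | o
      · exact w3 (ov3_MRCL.1 o)
      · exact (W'.hl.out.dvd_mul.1 ((PLK_ok.2.2.2.1 W' _).1 o)).elim wr fun d =>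
          wq ((Nat.prime_dvd_prime_iff_eq W'.hl.out (ok.qp n)).1 d))
  have h8 : IsUnit (8 : Λ ⧸ b) := by
    simpa only [map_pow, map_ofNat, show (2 : Λ ⧸ b) ^ 3 = 8 by norm_num] using
      (Z.E.two.pow 3).map π
  rw [← π0, ← h8.mul_right_eq_zero, ← key, map_mul, map_sum, mul_sum]
  refine congrArg _ (sum_congr rfl fun l hl => ?_)
  simp only [trm_MRCL, Sum.elim_inr, map_mul, map_add, map_natCast,
    (ok.pk.ine l (hQ l hl).1 (hQ l hl).2.1).2.2]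
  ring

theorem gd_MRCL (hY : HY) (hTRM : TRM_st) (hTHA : THA_st) (hTHB : THB_st) (hLOI : LOI_st)
    (hLV : LV_st) {Z : Mx Λ} (h0 : Z.Ok0) (ε : Bool) {n i : ℕ} {b : Ideal Λ}
    (hb : Z.E.m ^ n ≤ b) (hi : 1 ≤ i) (hi' : i ≤ n + 1) (h3 : (3 : Λ) ^ i ∈ b) {A B : Finset JJ}
    {t : Λ} {f f' : GQ → Λ} (z : Zf (Z.th ε n) (Rn A n) b f) (z' : Zf (Z.th ε n) (Rn A n) b f')
    (k : Z.Kl ε n b f) (k' : Z.Kl ε n b f') (g : Z.Gd A n) (hA : B ⊆ A)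
    (hT : ∀ j ∈ A, j ∉ insert Z.qg Z.m0 → j ∈ B)
    (hQ : ∀ j ∈ B, ∃ l : ℕ, jn n j = .inr (-l) ∧ l.Prime ∧ l % 3 = 2 ∧ 3 ^ i ∣ l + 1 ∧
      ∀ g ∈ (Z.K.V (-l)).D, Z.th ε n g - 1 ∈ b)
    (hq : Z.qg ∈ B ∨ f (Z.gj Z.qg n) ∈ b ∧ f' (Z.gj Z.qg n) ∈ b)
    (hr : t = 3 ∨ Z.E.ι pw ∈ b ∧ Z.Bg ⊆ B ∧ ∀ j ∈ Z.Sg, f (Z.gj j n) ∈ b ∧ f' (Z.gj j n) ∈ b) :
    t * ∑ j ∈ B, trm_MRCL Z ε n f f' (jn n j) ∈ b := by
  choose! lf hl hp using hQ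
  have inj : ∀ {l l' : ℕ}, (.inr (-(l : Zw)) : Bool ⊕ Zw) = .inr (-(l' : Zw)) → l = l' :=
    fun h => Nat.cast_injective (neg_injective (Sum.inr_injective h))
  have tw := h0.tw ε
  obtain ⟨-, t2, -⟩ := hTRM Z.r tw.sf.ne_zero tw.n3
  rw [sum_congr rfl fun j hj => congrArg _ (hl j hj), ← sum_image
    (f := fun l : ℕ => trm_MRCL Z ε n f f' (.inr (-l))) fun j hj j' hj' e =>
      g.inj (hA hj) (hA hj') (by rw [hl j hj, hl j' hj', e])]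
  refine lvl_MRCL hY hTRM hTHA hTHB hLOI hLV h0 ε hb hi hi' h3 z z' k k' (fun ϖ h => ?_)
    (forall_mem_image.2 hp) (hq.imp (fun h => mem_image.2 ⟨_, h, inj ((hl _ h).symm.trans g.q)⟩)
      fun h => by simpa only [Mx.gj, g.q, Mx.gen, Sum.elim_inr] using h)
    (hr.imp_right fun ⟨r1, r2, r3⟩ => ⟨r1, fun l h => ?_, fun ϖ h => ?_⟩)
  · obtain ⟨a, ha, rfl⟩ := mem_image.1 h
    have e : jn n (.inr a) = .inr (sq a n) := rfl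
    by_cases c : Sum.inr a ∈ insert Z.qg Z.m0
    · rcases mem_insert.1 c with c | c
      · exact .inr (.inl (Sum.inr_injective (e.symm.trans (c ▸ g.q))))
      · obtain ⟨ϖ, h1, h2⟩ := mem_image.1 ((mem_union.1 c).resolve_left (by simp [m1]))
        exact .inl (Sum.inr_injective (e.symm.trans (h2 ▸ g.cs ϖ h1)) ▸ h1)
    · have := hT _ (mem_toRight.1 ha) c
      exact .inr (.inr ⟨_, mem_image_of_mem _ this, Sum.inr_injective (e.symm.trans (hl _ this))⟩)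
  · have h1 := (t2 _).2 ⟨l, h, rfl⟩
    have h2 := r2 (mem_image_of_mem cs h1)
    exact mem_image.2 ⟨_, h2, inj ((hl _ h2).symm.trans (g.cs _ (mem_filter.1 h1).1))⟩
  · simpa only [Mx.gj, g.cs _ (mem_filter.1 h).1, Mx.gen, Sum.elim_inr] using
      r3 _ (mem_image_of_mem cs h)

theorem lim_MRCL {Z : Mx Λ} {ε : Bool} {P : Ideal Λ} {A B : Finset JJ} {x y : JJ →₀ Λ}
    {f f' : ℕ → GQ → Λ} (t : Λ) (hx : Z.Rv P A x f) (hy : Z.Rv P A y f') (hA : B ⊆ A)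
    (hw : ∀ j ∈ B, ev (Z.w ε j) x - Z.E.ev f (Z.sg j) ∈ P ∧
      ev (Z.w ε j) y - Z.E.ev f' (Z.sg j) ∈ P)
    (h : ∀ k, ∀ᶠ n in uf, t * ∑ j ∈ B, trm_MRCL Z ε n (f n) (f' n) (jn n j) ∈ P ⊔ Z.E.m ^ k) :
    t * rsum (Z.w ε) (Z.u ε) B x y ∈ P := by
  have h1 := (Z.E.mem_iff P _).2 h
  rw [Z.E.L_mul, Z.E.const, Z.E.L_sum] at h1
  rw [← Ideal.Quotient.eq_zero_iff_mem] at h1 ⊢
  rw [← h1, rsum, map_mul, map_mul, map_sum, map_sum]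
  refine congrArg _ (sum_congr rfl fun j hj => ?_)
  have e : (Z.E.L fun n => trm_MRCL Z ε n (f n) (f' n) (jn n j)) = Z.u ε j *
      (Z.E.ev f (Z.sg j) * Z.E.ev f' (Z.gj j) + Z.E.ev f (Z.gj j) * Z.E.ev f' (Z.sg j)) := by
    cases j
    · exact (map_zero _).trans (zero_mul _).symm
    · simp only [Lm.ev, Mx.u, Sum.elim_inr, ← Z.E.L_mul, ← Z.E.L_add]
      rfl
  simp only [e, map_mul, map_add, Ideal.Quotient.eq.2 (hw j hj).1, Ideal.Quotient.eq.2 (hw j hj).2,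
    Ideal.Quotient.eq.2 (hx.2 j (hA hj)), Ideal.Quotient.eq.2 (hy.2 j (hA hj))]

end

theorem RCL_pf (hY : HY) (hTRM : TRM_st) (hTHA : THA_st) (hTHB : THB_st) (hGER : GER_st) (hROW : ROW_st) (hVAL : VAL_st) (hLOI : LOI_st) (hLV : LV_st) : RCL_st := by
  intro Λ _ _ Z ε P A x y f f' ok ad ls ls' rx ry
  have h0 := ok.toOk0
  obtain ⟨⟨g1, -, -, g4, g2, g3, -⟩, g5, -, -, -, -, -, -, g6⟩ := hGER Λ Z h0
  obtain ⟨r1, -, -, -, r5, -⟩ := hROW Λ Z ε h0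
  have v1 := (hVAL Λ Z ε P A x f ok ad ls.lc rx).1
  have v2 := (hVAL Λ Z ε P A y f' ok ad ls'.lc ry).1
  have hw : ∀ j, j ∈ Z.L ∨ j = Z.qg → ev (Z.w ε j) x - Z.E.ev f (Z.sg j) ∈ P ∧
      ev (Z.w ε j) y - Z.E.ev f' (Z.sg j) ∈ P := fun j hj => by
    rw [(r1 j hj).1]
    exact ⟨v1 _ (g6 j).2, v2 _ (g6 j).2⟩
  have vl : ∀ j ∈ A, x j ∈ P ∧ y j ∈ P → ∀ k, ∀ᶠ n in uf,
      f n (Z.gj j n) ∈ P ⊔ Z.E.m ^ k ∧ f' n (Z.gj j n) ∈ P ⊔ Z.E.m ^ k := fun j hj h k =>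
    ((Z.E.mem_iff P _).1 ((P.sub_mem_iff_right h.1).1 (rx.2 j hj)) k).and
      ((Z.E.mem_iff P _).1 ((P.sub_mem_iff_right h.2).1 (ry.2 j hj)) k)
  have qA : Z.qg ∈ A := ad.1 (mem_insert_self _ _)
  obtain ⟨κ, a1, a2⟩ := ls
  obtain ⟨κ', b1, b2⟩ := ls'
  have lv : ∀ k, ∀ᶠ n in uf, Z.E.m ^ n ≤ P ⊔ Z.E.m ^ k ∧ Z.Gd A n ∧
      ∀ (i : ℕ) (B : Finset JJ) (t : Λ), 1 ≤ i → i ≤ n + 1 → (3 : Λ) ^ i ∈ P ⊔ Z.E.m ^ k → B ⊆ A →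
      (∀ j ∈ A, j ∉ insert Z.qg Z.m0 → j ∈ B) →
      (∀ j ∈ B, ∃ l : ℕ, jn n j = .inr (-l) ∧ l.Prime ∧ l % 3 = 2 ∧ 3 ^ i ∣ l + 1 ∧
        ∀ g ∈ (Z.K.V (-l)).D, Z.th ε n g - 1 ∈ P ⊔ Z.E.m ^ k) →
      (Z.qg ∈ B ∨ f n (Z.gj Z.qg n) ∈ P ⊔ Z.E.m ^ k ∧ f' n (Z.gj Z.qg n) ∈ P ⊔ Z.E.m ^ k) →
      (t = 3 ∨ Z.E.ι pw ∈ P ⊔ Z.E.m ^ k ∧ Z.Bg ⊆ B ∧
        ∀ j ∈ Z.Sg, f n (Z.gj j n) ∈ P ⊔ Z.E.m ^ k ∧ f' n (Z.gj j n) ∈ P ⊔ Z.E.m ^ k) →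
      t * ∑ j ∈ B, trm_MRCL Z ε n (f n) (f' n) (jn n j) ∈ P ⊔ Z.E.m ^ k := fun k => by
    filter_upwards [g5 A ad, tendsto_atTop.1 a1 k, tendsto_atTop.1 b1 k] with n g c c'
    have hb := Z.E.le_sup P (c.trans (a2 n).1)
    exact ⟨hb, g, fun i B t h1 h2 h3 => gd_MRCL hY hTRM hTHA hTHB hLOI hLV h0 ε hb h1 h2 h3
      ((a2 n).2.1.mono le_rfl (Z.E.sup_le P c)) ((b2 n).2.1.mono le_rfl (Z.E.sup_le P c'))
      ((a2 n).2.2.imp fun _ h g hg => Z.E.sup_le P c (h g hg))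
      ((b2 n).2.2.imp fun _ h g hg => Z.E.sup_le P c' (h g hg)) g⟩
  have t3 : ∀ n, (3 : Λ) ^ (n + 1) ∈ Z.E.m ^ n := fun n =>
    Ideal.pow_le_pow_right n.le_succ (Ideal.pow_mem_pow Z.E.three_mem _)
  have pr : ∀ n, ∀ l : ℕ, l.Prime → 3 ^ (n + 3) * Z.r ∣ l + 1 → l % 3 = 2 ∧ 3 ^ (n + 1) ∣ l + 1 ∧
      ∀ g ∈ (Z.K.V (-l)).D, Z.th ε n g - 1 ∈ Z.tn n ∧ (l ≠ Z.q n → Z.th ε n g - 1 ∈ Z.E.m ^ n) :=
    fun n l h1 h2 => by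
    obtain ⟨c1, -, -, c2⟩ := (hTHB Λ Z.toDt n h0.toOk).2.2.2.1 l h1 h2
    obtain ⟨c3, c4⟩ := c2 _ (h0.pk.ine l h1 c1).1
    obtain ⟨d1, -, -, d2, -⟩ := (hTHA Λ Z.toDt n h0.toOk).2.2.2.2.2.1 ε
    exact ⟨c1, ((pow_dvd_pow 3 (by omega)).trans (dvd_mul_right _ _)).trans h2, fun g hg =>
      ⟨(d2 g (c3 hg)).2, fun e => d1.2 g (c4 e hg)⟩⟩
  refine ⟨fun hx hy => lim_MRCL 3 rx ry sdiff_subset (fun j hj => hw j (.inl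
      (ad.2 j (mem_sdiff.1 hj).1 (mem_sdiff.1 hj).2))) fun k => ?_,
    fun hT => lim_MRCL 3 rx ry sdiff_subset (fun j hj => hw j ?_) fun k => ?_,
    fun hp hx hy hs => one_mul (rsum _ _ _ x y) ▸ lim_MRCL 1 rx ry sdiff_subset
      (fun j hj => ?_) fun k => ?_⟩
  · filter_upwards [lv k, vl _ qA ⟨hx, hy⟩ k] with n ⟨hb, g, h⟩ hq
    refine h (n + 1) _ 3 (by omega) le_rfl (hb (t3 n)) sdiff_subset
      (fun j h1 h2 => mem_sdiff.2 ⟨h1, h2⟩) (fun j hj => ?_) (.inr hq) (.inl rfl)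
    obtain ⟨l, e, p1, p2, p3⟩ := g.aux j (mem_sdiff.1 hj).1 (mem_sdiff.1 hj).2
    obtain ⟨c1, c2, c3⟩ := pr n l p1 p2
    exact ⟨l, e, p1, c1, c2, fun g hg => hb ((c3 g hg).2 p3)⟩
  · by_cases e : j = Z.qg
    · exact .inr e
    · exact .inl (ad.2 j (mem_sdiff.1 hj).1 fun c => (mem_insert.1 c).elim e (mem_sdiff.1 hj).2)
  · filter_upwards [lv k] with n ⟨hb, g, h⟩
    refine h (n + 1) _ 3 (by omega) le_rfl (hb (t3 n)) sdiff_subset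
      (fun j h1 h2 => mem_sdiff.2 ⟨h1, mt mem_insert_of_mem h2⟩) (fun j hj => ?_)
      (.inl (mem_sdiff.2 ⟨qA, g1⟩)) (.inl rfl)
    obtain ⟨l, e, p1, p2⟩ : ∃ l : ℕ, jn n j = .inr (-l) ∧ l.Prime ∧ 3 ^ (n + 3) * Z.r ∣ l + 1 := by
      by_cases e : j = Z.qg
      · exact ⟨_, e ▸ g.q, h0.qp n, h0.qd n⟩
      · exact (g.aux j (mem_sdiff.1 hj).1 fun c => (mem_insert.1 c).elim e
          (mem_sdiff.1 hj).2).imp fun _ h => ⟨h.1, h.2.1, h.2.2.1⟩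
    obtain ⟨c1, c2, c3⟩ := pr n l p1 p2
    exact ⟨l, e, p1, c1, c2, fun g hg => sup_le ((Ideal.span_singleton_le_iff_mem _).2
      (Ideal.mem_sup_left hT)) hb (c3 g hg).1⟩
  · by_cases e : j ∈ Z.Bg
    · obtain ⟨c1, -, c, c2⟩ := r5 j e
      have : ∀ z : JJ →₀ Λ, ev (Z.w ε j) z = ev (Z.fm ε (Z.sg j)) z + Z.E.ι pw * (c * z j) :=
        fun z => by
        rw [c1, c2, ev_apply _ z (subset_insert j _), ev_apply _ z (subset_insert j _)]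
        simp [add_mul, sum_add_distrib, Pi.single_apply, mul_assoc]
      rw [this, this, add_sub_right_comm, add_sub_right_comm]
      exact ⟨P.add_mem (v1 _ (g6 j).2) (P.mul_mem_right _ hp),
        P.add_mem (v2 _ (g6 j).2) (P.mul_mem_right _ hp)⟩
    · refine hw j (.inl (ad.2 j (mem_sdiff.1 hj).1 fun c => (mem_sdiff.1 hj).2 ?_))
      simpa only [g4, mem_insert, mem_union, e, or_false] using c
  · have tw := h0.tw ε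
    obtain ⟨-, t2, -⟩ := hTRM Z.r tw.sf.ne_zero tw.n3
    have sA : Z.m0 ⊆ A := (subset_insert _ _).trans ad.1
    filter_upwards [lv k, vl _ qA ⟨hx, hy⟩ k, (eventually_all_finset Z.Sg).2 fun j hj =>
      vl j (sA (g4 ▸ mem_union_left _ (mem_union_right _ hj))) (hs j hj) k] with n ⟨hb, g, h⟩ hq hS
    have p3 : Z.E.ι pw ∈ P ⊔ Z.E.m ^ k := Ideal.mem_sup_left hp
    refine h 1 _ 1 le_rfl (by omega) (by
      simpa only [map_ofNat, pow_one] using Ideal.mem_of_dvd _ (map_dvd Z.E.ι pw_dvd3) p3)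
      sdiff_subset (fun j h1 h2 => mem_sdiff.2 ⟨h1, fun c => h2 ?_⟩) (fun j hj => ?_) (.inr hq)
      (.inr ⟨p3, fun j hj => ?_, hS⟩)
    · exact insert_subset_insert _ (g4 ▸ subset_union_left) c
    · obtain ⟨l, e, p1, p2, p4⟩ : ∃ l : ℕ, jn n j = .inr (-l) ∧ l.Prime ∧ l % 3 = 2 ∧
          l ≠ Z.q n := by
        by_cases e : j ∈ Z.Bg
        · obtain ⟨ϖ, c1, rfl⟩ := mem_image.1 e
          obtain ⟨l, c2, rfl⟩ := (t2 ϖ).1 c1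
          obtain ⟨c3, c4⟩ := mem_filter.1 c2
          exact ⟨l, g.cs _ (mem_filter.1 c1).1, Nat.prime_of_mem_primeFactors c3, c4, fun c =>
            ((hTHB Λ Z.toDt n h0.toOk).2.2.2.1 _ (h0.qp n) (h0.qd n)).2.1
              (c ▸ Nat.dvd_of_mem_primeFactors c3)⟩
        · obtain ⟨l, c1, c2, c3, c4⟩ := g.aux j (mem_sdiff.1 hj).1 fun c => (mem_sdiff.1 hj).2 (by
            simpa only [g4, mem_insert, mem_union, e, or_false] using c)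
          exact ⟨l, c1, c2, (pr n l c2 c3).1, c4⟩
      refine ⟨l, e, p1, p2, by omega, fun s hs => ?_⟩
      have d := (h0.pk.ine l p1 p2).1
      have c := (((hTHA Λ Z.toDt n h0.toOk).2.2.2.2.2.1 ε).2.2.1 s (Plc.D_le _ hs)).2.1
      rw [Dt.ga, (hTHB Λ Z.toDt n h0.toOk).1 _ (.inr ⟨d.symm ▸ p2, d.symm ▸ p4⟩) s hs,
        ZMod.val_zero, pow_zero] at c
      exact Ideal.mem_of_dvd _ c p3
    · have c : j ∈ Z.m0 := g4 ▸ mem_union_right _ hj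
      refine mem_sdiff.2 ⟨sA c, fun e => (mem_insert.1 e).elim (fun e => g1 (e ▸ c)) fun e => ?_⟩
      exact (mem_union.1 e).elim (fun e => disjoint_left.1 g2 e (mem_union_right _ hj))
        fun e => disjoint_left.1 g3 e hj

end Pool.Agent.MP_e23604_nt.V
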