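import Pool.Agent.Mg.Fe23604m.Gd767a4
import Pool.Agent.Mg.Fe23604m.G22a48b
import Pool.Agent.Mg.Fe23604m.Gf8ce99
import Pool.Agent.Mg.Fe23604m.Gee5919
import Pool.Agent.Mg.Fe23604m.G9a1322
import Pool.Agent.Mg.Fe23604m.Gd29762
import Pool.Agent.Mg.Fe23604m.G6175d3
import Pool.Agent.Mg.Fe23604m.G0425c2
import Pool.Agent.Mg.Fe23604m.G95fc3b
import Pool.Agent.Mg.Fe23604m.G5c5c9e
import Pool.Agent.Mg.Fe23604m.G085227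
import Pool.Agent.Mg.Fe23604m.G3bc6dc
import Pool.Agent.Mg.Fe23604m.Gbfae8a
import Pool.Agent.Mg.Fe23604m.G5e9479
import Pool.Agent.Mg.Fe23604m.G5ebc63
import Pool.Agent.Mg.Fe23604m.G90f930
import Pool.Agent.Mg.Fe23604m.G6cd967

set_option linter.all false

section

/-! The assembly of the limit argument. -/

set_option autoImplicit false

open Finset Filter QuadraticAlgebra
open scoped Classical

namespace Pool.Agent.MP_e23604_nt.V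

open B R S W

open PowerSeries in
theorem MACH1_pf (hSYR : SYR_st) (hCLC : CLC_st) (hRED : RED_st) (hBAS : BAS_st) : MACH1_st := by
  intro O k _ _ _ Z ϖ red κ d i hZ hx hk hd hi ⟨m₀, l₀, e₀, a₀, t, ht⟩
  have hr := (hBAS O k Z ϖ red d ∅ hZ hx).1
  have s1 := hSYR _ _ Z _ hZ hr
  have c1 := ((hCLC _ Z κ d hZ).2 hd _ _ hr).1
  have k2 : (2 : k⟦X⟧) ≠ 0 := by
    simpa [map_ofNat] using (Z.E.two.map (PowerSeries.map red)).ne_zero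
  have D₀ := (GOOD_ok _ _ _ _ _ _ _ _ s1 c1).2 _ _ e₀ a₀
  obtain ⟨m, l, e₁, D₁, b₁, -⟩ := REACH_ok _ _ _ _ _ _ _ k2 s1 _ _ Z.Bg e₀ D₀
    Set.subset_union_right
  have r₁ := CONN_ok _ _ _ _ _ _ _ _ k2 s1 c1 _ _ _ _ e₁ D₁ e₀ D₀
  rw [ht, mul_left_comm] at r₁
  replace r₁ := r₁.of_mul_left (Associated.refl _) (pow_ne_zero 2 a₀)
  obtain ⟨e₂, c, a, hc0, r₀, r₂, r₃⟩ := hRED _ _ Z _ κ d i m l hZ hk hd hi hr e₁ b₁
  refine ⟨_, _, a, i, e₂, r₀, fun e => ?_, r₃ ▸ mul_ne_zero (pow_ne_zero 2 hc0) D₁, ?_⟩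
  · rw [e] at r₂
    exact mul_ne_zero hc0 (fun e => D₁ (by simpa [e] using r₁.symm))
      ((associated_zero_iff_eq_zero _).1 r₂.symm)
  · rw [r₃, (r₂.pow_pow (n := 2)).dvd_iff_dvd_left, mul_pow]
    exact mul_dvd_mul_left _ ((dvd_mul_right _ _).trans r₁.dvd)

open PowerSeries in
theorem MACH0_pf (hSYP : SYP_st) (hCLC : CLC_st) (hTOP : TOP_st) (hEND : END_st) : MACH0_st := by
  intro O k _ _ _ _ Z ϖ red κ g₀ hZ hx hk hd ⟨m, l, a, i, e₂, r₀, a₀, D₂, r₁⟩ hs hξ hb hg hg'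
  have n3 : (3 : O⟦X⟧) ≠ 0 := fun e => Z.E.T3 (e ▸ dvd_zero _)
  have n2 : (2 : O⟦X⟧) ≠ 0 := Z.E.two.ne_zero
  have nX : Z.E.T ≠ 0 := Z.E.pT.ne_zero
  have c0 := ((hCLC _ Z κ κ hZ).1 hk).1
  have D₂' : De Z.w Z.s m l ≠ 0 := fun e => D₂ (by rw [e, map_zero])
  have s0 : Sy Z.w Z.m0 Z.L Z.u Z.s :=
    (hSYP _ _ Z (RingHom.id _) hZ Function.surjective_id n3).1 nX
  obtain ⟨l₁, e₃, D₃⟩ := hTOP O k Z ϖ red hZ hx hs hξ hb ⟨_, _, e₂, D₂'⟩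
  have D₃' : De Z.w Z.s Z.m0 l₁ ≠ 0 := fun e => D₃ (e ▸ dvd_zero _)
  refine hEND _ Z κ l₁ g₀ hZ hk hd hb e₃ (fun e => D₃ ?_) hg hg'
  refine IWA_ok O k ϖ red _ _ hx.pr hx.ker hx.un D₃' (fun P p1 p2 p3 => ?_)
    ⟨a, _, i, ?_, a₀, D₂, r₁⟩ 3 (hx.T ▸ e)
  · have := (Ideal.span_singleton_prime p1.ne_zero).2 p1
    have hk : ∀ a, Ideal.Quotient.mk (Ideal.span {P}) a = 0 ↔ P ∣ a := fun a => by
      rw [Ideal.Quotient.eq_zero_iff_mem, Ideal.mem_span_singleton]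
    have p4 : ¬ P ∣ 3 := fun e => p3 (hx.ι ▸ p1.dvd_of_dvd_pow (n := 2) (by
      rw [← map_pow, pw_sq, map_neg, map_ofNat]
      exact e.neg_right))
    obtain ⟨m', l', e', D'⟩ := WALK_ok _ _ _ _ P _ _ _ _ _ n2 hk s0
      ((hSYP _ _ Z _ hZ Ideal.Quotient.mk_surjective (mt (hk 3).1 p4)).1
        (mt (hk _).1 (hx.T ▸ p2))) _ _ e₃ D₃'
    exact ⟨_, _, D', CONN_ok _ _ _ _ _ _ _ _ n2 s0 c0 _ _ _ _ e₃ D₃' e'
      fun e => D' (e ▸ dvd_zero _)⟩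
  · rw [← hx.ι, ← r₀]
    exact CONN_ok _ _ _ _ _ _ _ _ n2 s0 c0 _ _ _ _ e₃ D₃' e₂ D₂'

theorem MACH_pf (hMXE : MXE_st) (hBAS : BAS_st) (h0 : MACH0_st) (h1 : MACH1_st) : MACH_st := by
  intro O k _ _ _ _ Z₀ ϖ red κ d g₀ hZ₀ hlb hx ⟨hk, hd, ⟨i, hi⟩, ⟨S₀, hS⟩, hv⟩
  obtain ⟨Z, rfl, hZ⟩ := hMXE _ Z₀ hZ₀ hlb
  exact h0 O k Z ϖ red κ g₀ hZ hx hk hv (h1 O k Z ϖ red κ d i hZ hx hk hd hi
    ((hBAS O k Z ϖ red d S₀ hZ hx).2 hd hS))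

end Pool.Agent.MP_e23604_nt.V

end

section

/-!
The statements on the horizontal limit hold.
-/

set_option autoImplicit false

namespace Pool.Agent.MP_e23604_nt.V

theorem HY_ok : HY :=
  ⟨Y.INF_ok, Y.CHI_ok, Y.RCI_ok, Y.RCS_ok, Y.ISK_ok, Y.CJ_ok, KOQ_pf Y.RCI_ok⟩

theorem TRM_ok : TRM_st := TRM_pf HY_ok

theorem THA_ok : THA_st := THA_pf HY_ok

theorem THB_ok : THB_st := THB_pf HY_ok TRM_ok THA_ok

theorem GER_ok : GER_st := GER_pf HY_ok TRM_ok THB_ok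

theorem LOA_ok : LOA_st := LOA_pf HY_ok THA_ok THB_ok

theorem EXS_ok : EXS_st := EXS_pf HY_ok TRM_ok THA_ok THB_ok GER_ok LOA_ok

theorem ROW_ok : ROW_st := ROW_pf HY_ok TRM_ok THA_ok THB_ok GER_ok

theorem VAL_ok : VAL_st := VAL_pf HY_ok TRM_ok THA_ok GER_ok

theorem LOI_ok : LOI_st := LOI_pf HY_ok THA_ok THB_ok

theorem LV_ok : LV_st := LV_pf HY_ok

theorem RCL_ok : RCL_st := RCL_pf HY_ok TRM_ok THA_ok THB_ok GER_ok ROW_ok VAL_ok LOI_ok LV_ok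

theorem CHA_ok : CHA_st := CHA_pf HY_ok TRM_ok THA_ok THB_ok GER_ok

theorem CHL_ok : CHL_st := CHL_pf HY_ok THA_ok THB_ok GER_ok ROW_ok CHA_ok

theorem UNI_ok : UNI_st := UNI_pf HY_ok TRM_ok THA_ok THB_ok

theorem LOB_ok : LOB_st := LOB_pf HY_ok THA_ok THB_ok LOA_ok

theorem LOK_ok : LOK_st := LOK_pf HY_ok THA_ok THB_ok

theorem LB_ok : LB_st := LB_pf HY_ok

theorem SYP_ok : SYP_st := SYP_pf HY_ok GER_ok ROW_ok VAL_ok EXS_ok RCL_ok CHL_ok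

theorem SYR_ok : SYR_st := SYR_pf HY_ok GER_ok ROW_ok VAL_ok EXS_ok RCL_ok CHL_ok

theorem CLG_ok : CLG_st := CLG_pf HY_ok TRM_ok THB_ok GER_ok LOK_ok

theorem CLC_ok : CLC_st := CLC_pf HY_ok GER_ok ROW_ok VAL_ok CLG_ok

theorem RED_ok : RED_st := RED_pf HY_ok GER_ok ROW_ok CLG_ok CLC_ok

theorem BA1_ok : BA1_st := BA1_pf HY_ok THA_ok THB_ok GER_ok ROW_ok VAL_ok CHA_ok CLG_ok

theorem BA2_ok : BA2_st := BA2_pf HY_ok TRM_ok THA_ok THB_ok GER_ok ROW_ok VAL_ok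

theorem BAS_ok : BAS_st := BAS_pf HY_ok GER_ok SYR_ok CLC_ok BA1_ok BA2_ok CLG_ok

theorem BV_ok : BV_st := BV_pf HY_ok THA_ok THB_ok GER_ok ROW_ok VAL_ok LOK_ok

theorem QRL_ok : QRL_st := QRL_pf HY_ok GER_ok ROW_ok VAL_ok EXS_ok

theorem ORI_ok : ORI_st := ORI_pf HY_ok TRM_ok THA_ok THB_ok GER_ok ROW_ok EXS_ok

theorem HSB_ok : HSB_st := HSB_pf HY_ok THA_ok THB_ok

theorem HSL_ok : HSL_st := HSL_pf HY_ok GER_ok BV_ok ORI_ok HSB_ok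

theorem XIL_ok : XIL_st := XIL_pf HY_ok TRM_ok THA_ok THB_ok GER_ok ROW_ok VAL_ok LOK_ok

theorem TOP_ok : TOP_st := TOP_pf HY_ok GER_ok ROW_ok SYP_ok BV_ok QRL_ok HSL_ok XIL_ok

theorem END_ok : END_st := END_pf HY_ok THA_ok GER_ok ROW_ok CLG_ok CLC_ok BV_ok HSL_ok

theorem LMX_ok : LMX_st := LMX_pf HY_ok

theorem MXE_ok : MXE_st := MXE_pf HY_ok UNI_ok LOB_ok

theorem MACH1_ok : MACH1_st := MACH1_pf SYR_ok CLC_ok RED_ok BAS_ok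

theorem MACH0_ok : MACH0_st := MACH0_pf SYP_ok CLC_ok TOP_ok END_ok

theorem MACH_ok : MACH_st := MACH_pf MXE_ok BAS_ok MACH0_ok MACH1_ok

end Pool.Agent.MP_e23604_nt.V

end
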