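import Pool.Agent.Mg.Fe23604m.G314fc8
import Pool.Agent.Mg.Fe23604m.G7abfc9
import Pool.Agent.Mg.Fe23604m.G3a600f
import Pool.Agent.Mg.Fe23604m.Gd1ccef
import Pool.Agent.Mg.Fe23604m.G59c89c
import Pool.Agent.Mg.Fe23604m.G9cf232
import Pool.Agent.Mg.Fe23604m.Gbfae8a
import Pool.Agent.Mg.Fe23604m.G26a658

set_option linter.all false

/-!
The first system of points: the bottom point has infinite order.
-/

set_option autoImplicit false

namespace Pool.Agent.MP_e23604_nt.X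

theorem ENDN_ok : ENDN_st :=
  ENDN_of LU_ok NAL_ok V.LMX_ok (V.LB_pf V.HY_ok) V.MACH_ok DAT_ok N.CLSN_ok

theorem heegN_of (hT : Un.NTL_st) (D : ℕ) (h : ∀ j, W.Nice (3 ^ j * D) ∧ W.Nice (3 ^ j * D ^ 2))
    (hp : par3 D = 1) (hc : cls3 D ∈ SN) : Heeg D :=
  heegN (HSN_pf Un.NON_pf hT KIT_ok) ENDN_ok YHS_pf FACN_pf NHB_pf KW_pf D h hp hc

end Pool.Agent.MP_e23604_nt.X
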