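import Pool.Agent.Mg.Fe23604m.G7a6e34
import Pool.Agent.Mg.Fe23604m.G294b4a
import Pool.Agent.Mg.Fe23604m.G1bd12d
import Pool.Agent.Mg.Fe23604m.Ga1de51
import Pool.Agent.Mg.Fe23604m.G0de5ac
import Pool.Agent.Mg.Fe23604m.G84eafe
import Pool.Agent.Mg.Fe23604m.Gc426ef
import Pool.Agent.Mg.Fe23604m.Gdf2278
import Pool.Agent.Mg.Fe23604m.G4ee788
import Pool.Agent.Mg.Fe23604m.Gd1ccef
import Pool.Agent.Mg.Fe23604m.G7fdb40
import Pool.Agent.Mg.Fe23604m.Gdcefba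
import Pool.Agent.Mg.Fe23604m.G91bd51
import Pool.Agent.Mg.Fe23604m.G2def5f

set_option linter.all false

section

/-!
The Hecke relation for the third family holds.
-/

set_option autoImplicit false

namespace Pool.Agent.MP_e23604_nt.M

theorem MGAL_TAll : MGAL_st := MGAL_of VV_pf MON_pf

theorem MTL_ok : MTL_st :=
  have hM := MGAL_TAll
  have F := LF_pf LZ_pf
  have T := LT_pf LZ_pf F
  have B := LB_pf LZ_pf F T
  have S := LS_pf LZ_pf F B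
  have V := LV_pf B S
  have A := AN_pf LZ_pf F B
  have P := PT_pf B
  have W := CW_pf B OR_pf A
  have E := EQ_pf B S SU_pf A
  have G := GR_pf B F V SU_pf OR_pf A W E
  have C := KC_pf VV_pf
  have L := KL_pf LZ_pf F T B KN_pf
  MTL_of hM B S V SU_pf A E G
    (VA_pf B A P W E (HX_pf B S V (LH_pf LZ_pf F B S) DE_pf A P E) G) C L KN_pf
    (KD_pf B V A P C L KN_pf (KV_pf VV_pf hM S C L KN_pf))

end Pool.Agent.MP_e23604_nt.M

end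

section

/-!
The third system of points: the bottom point has infinite order.
-/

set_option autoImplicit false

namespace Pool.Agent.MP_e23604_nt.X

theorem HSM_ok : M.HSM_st :=
  M.HSM_of M.VV_pf M.TQ_pf M.MGAL_TAll (M.MCONG_of M.VV_pf M.MGAL_TAll)
    (M.MKW_of M.VV_pf M.MGAL_TAll M.GPR_pf M.GMUL_pf) M.MTL_ok KIT_ok NAL_ok KW_pf

theorem ENDM_ok (Q : M.QS) : M.End Q.toHS :=
  have R := M.RK_pf M.BR_pf
  M.ENDM_of LU_ok NAL_ok V.LMX_ok V.LB_ok V.MACH_ok DAT_ok N.ENC_ok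
    (M.KQ_pf R (M.LOQ_pf M.COM_pf CN_ok NAL_ok) NAL_ok FRI_ok TRF_ok N.WT_ok N.LO_ok N.FAM_ok)
    (M.RDQ_pf M.BR_pf R (M.SPQ_pf M.BR_pf DL_ok CN_ok NSUM_ok KPI_pf) NAL_ok KT_ok KIT_ok N.WT_ok
      N.FAM_ok N.TR_ok)
    (M.BSQ_pf (M.BAQ_pf M.COM_pf M.TLQ_pf DL_ok CN_ok NAL_ok LU_ok NSUM_ok KPI_pf) NAL_ok KW_pf
      IND_ok N.FAM_ok) N.KS_ok N.FAM_ok N.DVS_ok Q

theorem heegM_ok (D v m : ℕ) (h : ∀ j, W.Nice (3 ^ j * D) ∧ W.Nice (3 ^ j * D ^ 2)) (h2 : M.Two D)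
    (hp : par3 D = 1) (hD : D = 3 ^ v * m) (hm : m % 9 = 1 ∨ m % 9 = 8) (hv : v % 3 ≠ 1) : Heeg D :=
  M.heegM_of HSM_ok ENDM_ok YHS_pf FACN_pf NHB_pf KW_pf D v m h h2 hp hD hm hv

end Pool.Agent.MP_e23604_nt.X

end
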