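import Pool.Agent.Mg.Fe23604m.G39f2c0
import Pool.Agent.Mg.Fe23604m.G59c89c
import Pool.Agent.Mg.Fe23604m.G7fdb40

set_option linter.all false

/-!
The points of the three systems have infinite order.
-/

set_option autoImplicit false

open Finset QuadraticAlgebra
open scoped Classical

namespace Pool.Agent.MP_e23604_nt.PH

open B R S W V

theorem ENDP_of (hX : LMX_st) (hB : LB_st) (hE : MXE_st) (h0 : MACH0_st) (hD : X.DAT_st)
    (hR : RESP_st) (hP : PCS_st) : ENDP_st := by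
  intro G H H' j r f χ χ' hT hp e1 e2 e3
  obtain ⟨O, k, _, _, _, _, E, ϖ, red, hE'⟩ := hX
  obtain ⟨Z₀, rfl, rfl, e4, rfl, rfl, z1, z2, z3⟩ := hD _ E χ χ' r true hp
  obtain ⟨Z, rfl, hZ⟩ := hE _ Z₀ z1 fun ε => hB _ _ (z1.tw ε)
  rw [← e4] at e1 e2 hp
  have h : N.Lk Z.toDt (H j) f := ⟨z1, z3.gen, fun n g => by simpa using z3.at' n g, e1, e2, e3,
    by
    rw [hT.jj]
    generalize j = x
    revert x
    decide⟩
  have k0 := (N.KS_ok _ _ _ f h _ _ _ _ _ (N.FAM_ok _ _ _ f h).1).1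
  exact X.end_of N.LU_ok N.AL_ok Z.toDt z1 z3 (X.lk_EndN N.ENC_ok h) fun g₀ =>
    h0 O k Z ϖ red _ g₀ hZ hE' k0
      ⟨1, fun n g hg k hk => by simpa using N.DVS_ok _ _ _ f h n g hg k hk⟩
      (hR O k Z ϖ red _ _ _ _ _ _ _ hZ hE' k0 (hP _ _ G H H' f j hT h)) hp.ht z2 hp.hb

/-- the arithmetic of the classes -/
theorem cls_CEnd {D v m : ℕ} (hD : D = 3 ^ v * m) (hm : ¬ 3 ∣ m) (hv : v % 3 ≠ 0)
    (hp : par3 D = 1) : par3 (3 ^ 0 * D ^ 2) = 0 ∧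
      ((v : ZMod 3) = 1 ∧ (rad3 D : ZMod 3) = 2 ∨ (v : ZMod 3) = 2 ∧ (rad3 D : ZMod 3) = 1) := by
  have hD0 : D ≠ 0 := by rw [hD]; exact mul_ne_zero (by positivity) (by omega)
  have e := M.fac_Heeg hD hm
  rw [par3_eq v m hD e] at hp
  rw [par3_eq (0 + 2 * v) (m ^ 2) (by rw [hD]; ring) (by rw [fac_pow hD0, if_pos rfl, e]),
    rad3_pow hD0 _ (.inr rfl), X.rad_HeegN, ← ZMod.natCast_mod v 3]
  generalize (((rad3 D).primeFactors.filter fun l => l % 3 = 2).card) = c at *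
  have a1 : v % 3 < 3 := Nat.mod_lt _ three_pos
  have a3 : m ^ 2 % 3 = 1 := by
    rw [Nat.pow_mod]
    rcases (by omega : m % 3 = 1 ∨ m % 3 = 2) with e | e <;> rw [e]
  rw [show (0 + 2 * v) % 3 = (2 * (v % 3)) % 3 by omega]
  generalize v % 3 = x at *
  generalize m ^ 2 = q at *
  simp only [mem_insert, mem_singleton] at hp ⊢
  interval_cases x
  · omega
  · rw [if_pos (by omega)] at hp
    rw [show (2 * 1) % 3 = 2 from rfl, if_neg (by omega)]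
    exact ⟨by omega, .inl ⟨rfl, (Odd.neg_one_pow (Nat.odd_iff.2 (by omega))).trans rfl⟩⟩
  · rw [if_neg (by omega)] at hp
    rw [show (2 * 2) % 3 = 1 from rfl, if_pos (by omega)]
    exact ⟨by omega, .inr ⟨rfl, Even.neg_one_pow (Nat.even_iff.2 (by omega))⟩⟩

theorem heegP (hT : TRI_st) (hE : ENDP_st) (hY : X.YHS_st) (hF : X.FACN_st) (hN : X.NHB_st)
    (hK : X.KW_st) {D v m : ℕ} (h : ∀ j, W.Nice (3 ^ j * D) ∧ W.Nice (3 ^ j * D ^ 2))
    (hp : par3 D = 1) (hD : D = 3 ^ v * m) (hm : ¬ 3 ∣ m) (hv : v % 3 ≠ 0) : X.Heeg D := by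
  obtain ⟨G, H, H', hT⟩ := hT
  have n1 : W.Nice D := by simpa using (h 0).1
  obtain ⟨a1, a3⟩ := cls_CEnd hD hm hv hp
  have hP := X.pair_HeegN hN hK n1 (h 0).2 (rad3_pow n1.ne _ (.inr rfl)) hp a1
  obtain ⟨f, k3, -⟩ := M.fn_Heeg hF hD hm
  have h3 : (3 : ZMod 3) = 0 := rfl
  obtain ⟨j, e1, e2, e3⟩ : ∃ j,
      (∀ g ∈ GK, X.ch D g = (H j).χ (rad3 D) g + X.fs f (rad3 D).primeFactors (N.Av g)) ∧
      (∀ g ∈ GK, X.ch (3 ^ 0 * D ^ 2) g =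
        (H j).χ (-rad3 D) g - X.fs f (rad3 D).primeFactors (N.Av g)) ∧
      X.fs f (rad3 D).primeFactors (N.Lu ω) + (H j).j (rad3 D) = 0 := by
    refine ⟨rad3 D * X.fs f (rad3 D).primeFactors (N.Lu ω), fun g hg => ?_, fun g hg => ?_, ?_⟩
    · rw [k3 g hg, hT.ch]
      rcases a3 with ⟨a, b⟩ | ⟨a, b⟩ <;> rw [a, b]
      · ring
      · linear_combination kum 3 g * h3
    · rw [M.cmp_Heeg n1.ne 0 hg, k3 g hg, hT.ch]
      rcases a3 with ⟨a, b⟩ | ⟨a, b⟩ <;> rw [a, b] <;> push_cast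
      · ring
      · linear_combination -kum 3 g * h3
    · rw [hT.jj]
      rcases a3 with ⟨-, b⟩ | ⟨-, b⟩ <;> rw [b]
      · linear_combination -X.fs f (rad3 D).primeFactors (N.Lu ω) * h3
      · ring
  exact ⟨_, _, _, _, _, hP.tw', hY _ _ f _ _ (rad3_sf D) (X.ndv_HeegN D) e1 e2,
    hE G H H' j _ f _ _ hT hP e1 e2 e3⟩

end Pool.Agent.MP_e23604_nt.PH
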