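import Pool.Agent.Mg.Fe23604m.G256ad4
import Pool.Agent.Mg.Fe23604m.G5e9479
import Pool.Agent.Mg.Fe23604m.G5ebc63

set_option linter.all false

set_option autoImplicit false

open Finset Filter QuadraticAlgebra
open scoped Classical

namespace Pool.Agent.MP_e23604_nt.PH

open B R S W V

theorem CQR_pf (hV : HV) : CQR_st := by
  intro Λ _ _ Z e j₀ j₁ r κ E d hZ' hC
  have hZ := hZ'.toOk0
  obtain ⟨⟨g0, g1, g2, g3, g4, g5, -⟩, g6, g7, -⟩ := hV.GER Λ Z hZ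
  obtain ⟨t0, t1, -⟩ := hV.TRM Z.r (hZ.tw true).sf.ne_zero (hZ.tw true).n3
  have hA := g6 _ (g7 m1 (.inr (Vx.refl m1 Z.L')))
  obtain ⟨i, hi⟩ := hC.red
  refine ⟨⟨i, fun m hm hB => ?_⟩, ?_, ?_, ⟨(Z.vec_supp _ _).trans
    (subset_union_left.trans (subset_insert _ _)), fun j hj => ?_⟩, ?_⟩
  · have p1 : ∀ j ∈ Z.L, ∀ A n, Z.Gd A n → j ∈ A →
        ∃ l : ℕ, jn n j = .inr (-(l : Zw)) ∧ (l.Prime ∧ l % 3 = 2) ∧ Z.ok n l :=
      fun j hj A n hg e => by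
        obtain ⟨l, b1, b2⟩ := hg.aux j e fun e' => (mem_insert.1 e').elim (fun e => g1 (e ▸ hj))
          fun e => g2 j e hj
        exact ⟨l, b1, ⟨b2.1, ((hV.THB Λ Z.toDt n hZ.toOk).2.2.2.1 l b2.1 b2.2.1).1⟩, b2⟩
    have p2 : ∀ j ∈ Z.Bg, ∀ A n, Z.Gd A n →
        ∃ l : ℕ, jn n j = .inr (-(l : Zw)) ∧ (l.Prime ∧ l % 3 = 2) ∧ l ∈ Bn Z.r :=
      fun j hj A n hg => by
        obtain ⟨ϖ, b1, rfl⟩ := mem_image.1 hj
        obtain ⟨l, b2, rfl⟩ := (t1 ϖ).1 b1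
        exact ⟨l, hg.cs _ (mem_filter.1 b1).1,
          ⟨Nat.prime_of_mem_primeFactors (mem_filter.1 b2).1, (mem_filter.1 b2).2⟩, b2⟩
    have b0 : ∀ j ∈ (m ∪ Z.Sg) \ Z.m0, j ∈ m ∧ j ∈ Z.L := fun j hj => by
      rw [g3, Finset.mem_sdiff, mem_union, mem_union, mem_union, not_or, not_or] at hj
      have := hj.1.resolve_right hj.2.1.2
      exact ⟨this, (hm.2 j this hj.2.1.1).resolve_right hj.2.2⟩
    have b1 : m \ m1 = (m ∪ Z.Sg) \ Z.m0 ∪ Z.Bg := by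
      ext j
      rw [mem_union, Finset.mem_sdiff]
      refine ⟨fun h => (hm.2 j h.1 h.2).imp (fun e => mem_sdiff.2 ⟨mem_union_left _ h.1,
        fun e' => g2 j e' e⟩) id, fun h => h.elim (fun h => ⟨(b0 j h).1, fun e =>
        (mem_sdiff.1 h).2 (mem_union_left _ e)⟩) fun h => ⟨hB h, fun e =>
        disjoint_left.1 g4 e (mem_union_right _ h)⟩⟩
    have : ∀ᶠ n in uf, ∃ v, v ∉ Z.E.m ∧ ∀ g ∈ GK, Z.kq Z.m0 κ (m ∪ Z.Sg) n g -
        Z.E.ι pw ^ i * (v * Z.kq m1 (E j₀) m n g) ∈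
          Ideal.span {Z.E.ι pw ^ (i + 1)} ⊔ Z.E.m ^ n := by
      filter_upwards [g6 _ (g7 m (.inr hm))] with n hg
      have c1 := fun j hj => p1 j (b0 j hj).2 _ n hg
        (mem_insert_of_mem (mem_union_left _ (b0 j hj).1))
      have c2 := fun l => sn_MCLG hZ.pk (l := l) fun j hj => (c1 j hj).imp fun _ h => ⟨h.1, h.2.1⟩
      have c3 : Z.Sn Z.Bg n = Bn Z.r := by
        ext l
        rw [sn_MCLG hZ.pk fun j hj => (p2 j hj _ n hg).imp fun _ h => ⟨h.1, h.2.1⟩]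
        refine ⟨fun ⟨j, hj, e⟩ => ?_, fun h => ?_⟩
        · obtain ⟨l', e1, -, e2⟩ := p2 j hj _ n hg
          rwa [eq_MCLG e e1]
        · have := (t1 _).2 ⟨l, h, rfl⟩
          exact ⟨_, mem_image_of_mem _ this, hg.cs _ (mem_filter.1 this).1⟩
      have c4 : Z.Sn (m \ m1) n = Z.Sn ((m ∪ Z.Sg) \ Z.m0) n ∪ Bn Z.r := by
        rw [b1, ← c3, Mx.Sn, V.Tn, toRight_union, image_union, image_union]
        rfl
      rw [Mx.kq, Mx.kq, c4]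
      refine hi n _ fun l hl => ?_
      obtain ⟨j, hj, e⟩ := (c2 l).1 hl
      obtain ⟨l', e1, -, e2⟩ := c1 j hj
      rwa [eq_MCLG e e1]
    obtain ⟨v, hv⟩ := this.choice
    refine ⟨Z.E.L v, L_unit Z.E (hv.mono fun _ h => h.1), fun g hg => ?_⟩
    rw [Lm.ev, Lm.ev, ← Z.E.L_mul, ← Z.E.const (Z.E.ι pw ^ i), ← Z.E.L_mul, ← Z.E.L_sub,
      ← Ideal.mem_span_singleton]
    exact L_mem Z.E (k := id) uf_le (hv.mono fun n h => h.2 _ (hg n))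
  · rw [← hC.sd, Mx.s, sdiff_eq_empty_iff_subset.2 subset_union_left]
    rfl
  · refine diag (G := fun n k => Zf (Z.th (!e) n) (Rn (insert Z.qg (m1 ∪ Z.m0)) n)
      (pI Z ⊔ Z.E.m ^ k) (d n)) (fun n => zf_iff.2 ⟨⟨GK, GK_on, by simp⟩, by simp, by simp⟩)
      fun k => ?_
    filter_upwards [hA, uf_le (eventually_ge_atTop k)] with n hg hk
    refine (hC.dz n).mono ?_ (Z.E.sup_le _ hk)
    rintro g ⟨V, c1, c2⟩
    exact ⟨V, fun c3 => c1 (c3.dvd (mul_dvd_mul_left _ ((dvd_neg.2 dvd_rfl).trans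
      (dvd_prod_of_mem _ (hg.sub (mem_insert_self _ _)))))), c2⟩
  · rw [Z.vec_apply]
    split_ifs with e1
    · simp
    rw [zero_sub, neg_mem_iff]
    refine L_mem Z.E (k := id) uf_le ?_
    filter_upwards [hA] with n hg
    rcases mem_insert.1 hj with rfl | b2
    · rw [(sg_MCLG hg.q).2]
      exact hC.dq n
    have b3 := (mem_union.1 b2).resolve_left e1
    obtain ⟨ϖ, b4, rfl⟩ := mem_image.1 ((mem_union.1 b3).resolve_left e1)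
    have b5 := hg.cs ϖ b4
    have b6 := ((t0 ϖ).1 b4).1
    obtain ⟨b7, -, b8, -⟩ := hZ.pk.tm ϖ b6
    rw [(sg_MCLG b5).2]
    refine (hC.dz n).2 _ ⟨_, fun c3 => (Ov_mul.1 c3).elim (three_AFRB b6 b7) fun c => ?_, b8⟩
    refine g0 (hg.inj hj (mem_insert_self _ _) ?_ ▸ b3)
    rw [b5, hg.q, ← b6.eq_EKOL0 (hg.pp _ (hg.sub (mem_insert_self _ _)))
      (dvd_neg.2 ((iff_HPLb _ ϖ b6.1 b7 _).1 c))]
  · choose v hv using hC.spl
    refine ⟨Z.E.L v, L_unit Z.E (.of_forall fun n => (hv n).1), fun g hg => ?_⟩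
    have e1 : ∏ ϖ ∈ Sz Z.r, Z.eu ϖ = Z.E.L fun n => ∏ ϖ ∈ Sz Z.r, (Z.ga n (Z.K.σ ϖ) - 1) := by
      simp only [Dt.eu]
      rw [← map_prod]
      congr 1
      funext n
      rw [Finset.prod_apply]
    have e2 : ∀ j, Z.kq m1 (E j) m1 = fun n => E j n ∅ := fun j => by
      funext n
      rw [Mx.kq, Finset.sdiff_self]
      rfl
    rw [e1, e2, e2, Lm.ev, Lm.ev, Lm.ev, ← Z.E.L_mul, ← Z.E.L_mul, ← Z.E.L_sub, ← Z.E.L_sub]
    exact L_mem Z.E (k := id) uf_le (.of_forall fun n => (hv n).2 _ (hg n))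

theorem BAD_pf (hV : HV) (hR : CQR_st) : BAD_st := by
  intro Λ _ _ Z e j₀ j₁ r κ E d hZ hC
  have hZ0 := hZ.toOk0
  have hD := hZ0.toOk
  obtain ⟨-, -, hLC, hRv, -⟩ := hR Λ Z e j₀ j₁ r κ E d hZ hC
  obtain ⟨-, -, gA, -, -, -, -, -, gI⟩ := hV.GER Λ Z hZ0
  have hAd := gA m1 (.inr (Vx.refl m1 Z.L'))
  have hT := fun n => hV.THA Λ Z.toDt n hD
  set ε := !e
  set P := pI Z with hP
  set F : GG → Λ := Z.E.ev d with hFd
  set θ : GG → Λ := Z.E.ev (Z.th ε) with hθd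
  have hF : ∀ g h, Inc GK g → Inc GK h → F (g * h) - (F g + θ g * F h) ∈ P :=
    fun g h hg hh => LZ.coc hLC hg hh
  have hch := fun n => ((hT n).2.2.2.2.2.1 ε).1
  have t1 : ∀ g, Inc GK g → θ g - 1 ∈ Z.E.m := fun g hg =>
    sub_MBA1 Z.E fun n => (((hT n).2.2.2.2.2.1 ε).2.2.1 _ (hg n)).1
  have t2 : ∀ g, Inc GK g → (∀ n, Z.At n (g n) = 0) → θ g - 1 ∈ P := fun g hg h0 =>
    sub_MBA1 Z.E fun n => by
      have := (((hT n).2.2.2.2.2.1 ε).2.2.1 _ (hg n)).2.1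
      rw [Dt.ga, h0, ZMod.val_zero, pow_zero] at this
      exact Ideal.mem_span_singleton.2 this
  have t3 : ∀ a b, Inc GK a → Inc GK b → θ (a * b * a⁻¹ * b⁻¹) = 1 := fun a b ha hb =>
    Z.E.ev_one hch fun n => (hT n).2.2.2.1 _ (ha n) _ (hb n)
  have hPm : P ≤ Z.E.m := pi_MBA1 Z.E
  have ad : ∀ g h, Inc GK g → Inc GK h → F (g * h) - (F g + F h) ∈ Z.E.m := fun g h hg hh => by
    convert Z.E.m.add_mem (hPm (hF g h hg hh)) (Z.E.m.mul_mem_right (F h) (t1 g hg)) using 1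
    ring
  have hex : ∀ n, ∃ h ∈ GK, ∃ c ∉ GK, Z.At n h = 0 ∧
      (1 ≤ n → d n h - d n (c * h * c⁻¹) ∉ Z.E.m) := fun n => by
    by_cases hn : 1 ≤ n
    · obtain ⟨h, h1, c, h2, h3, h4⟩ := hC.bas n hn
      exact ⟨h, h1, c, h2, h3, fun _ => h4⟩
    · refine ⟨1, GK.one_mem, Z.c, hZ0.cj.nk, ?_, fun e => absurd e hn⟩
      simpa using hD.add n 1 GK.one_mem 1 GK.one_mem
  choose h h1 c' h2 h3 h4 using hex
  obtain ⟨c, hc⟩ : ∃ c : GG, c = fun _ => Z.c := ⟨_, rfl⟩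
  have hcn : ∀ n, c n ∉ GK := fun n => hc ▸ hZ0.cj.nk
  have hci : c⁻¹ = c := by
    rw [hc]
    exact funext fun _ => inv_eq_of_mul_eq_one_right hZ0.cj.sq
  have cK : ∀ g, Inc GK g → Inc GK (c * g * c⁻¹) := fun g hg n => GK_on.1.conj_mem _ (hg n) _
  have cA : ∀ g, Inc GK g → ∀ n, Z.At n ((c * g * c⁻¹) n) = -Z.At n (g n) := fun g hg n =>
    hD.odd n _ (hcn n) _ (hg n)
  have hk : Inc GK (c' * c⁻¹) := fun n => GK_mul (h2 n) fun e => hcn n (inv_mem_iff.1 e)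
  have hu : F h - F (c * h * c⁻¹) ∉ Z.E.m := fun e => by
    have u1 : IsUnit (F h - F (c' * h * c'⁻¹)) := by
      rw [hFd, Lm.ev, Lm.ev, ← Z.E.L_sub]
      refine L_unit Z.E ?_
      filter_upwards [(eventually_ge_atTop 1).filter_mono uf_le] with n a using h4 n a
    have a1 := ad (c' * h * c'⁻¹) (c' * c⁻¹) (fun n => GK_on.1.conj_mem _ (h1 n) _) hk
    have a2 := ad (c' * c⁻¹) (c * h * c⁻¹) hk (cK h h1)
    rw [show c' * h * c'⁻¹ * (c' * c⁻¹) = c' * c⁻¹ * (c * h * c⁻¹) by group] at a1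
    refine Z.E.ne (Ideal.eq_top_iff_one _ |>.1 (Ideal.eq_top_of_isUnit_mem _ ?_ u1))
    convert Z.E.m.sub_mem (Z.E.m.add_mem e a1) a2 using 1
    ring
  refine ⟨?_, ?_⟩
  · by_contra hn
    push Not at hn
    have key : ∀ g, Inc GK g → F g ∈ Z.E.m := fun g hg => by
      have a1 := hPm ((hV.VAL Λ Z ε P _ _ _ hZ hAd hLC hRv).1 g hg)
      have a2 : ev (Z.fm ε g) (Z.vec m1 d) ∈ Z.E.m := by
        rw [ev_apply _ (Z.vec m1 d) (Z.vec_supp _ _)]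
        exact Ideal.sum_mem _ fun j _ => Ideal.mul_mem_left _ _ (hn _)
      simpa using Z.E.m.sub_mem a2 a1
    exact hu (Z.E.m.sub_mem (key h h1) (key _ (cK h h1)))
  · have hτ := (gI Z.qg).1
    set τ := Z.gj Z.qg
    obtain ⟨l, hl, -, hμ⟩ := hV.CHA Λ Z P _ Unit (fun _ => ε) (fun _ => d)
      (τ * h * τ⁻¹ * h⁻¹) hZ0 hAd (fun _ => hLC) fun n =>
        (((hT n).1 _).1 ((hT n).2.2.2.1 _ (hτ n) _ (h1 n))).imp_right .inr
    obtain ⟨μ, hμ⟩ := hμ ()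
    refine ⟨l, hl, fun e => hu ?_⟩
    have e2 : (fun n => Z.c * (τ * h * τ⁻¹ * h⁻¹) n * Z.c) =
        c * τ * c⁻¹ * (c * h * c⁻¹) * (c * τ * c⁻¹)⁻¹ * (c * h * c⁻¹)⁻¹ := by
      calc _ = c * (τ * h * τ⁻¹ * h⁻¹) * c⁻¹ := by
            rw [hci, hc]
            rfl
        _ = _ := by group
    rw [e2] at hμ
    have a1 := com_MBA1 hF hτ h1 (t3 _ _ hτ h1)
    have a2 := com_MBA1 hF (cK _ hτ) (cK _ h1) (t3 _ _ (cK _ hτ) (cK _ h1))
    have a3 := t2 h h1 h3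
    have a4 := t2 _ (cK h h1) fun n => by rw [cA h h1, h3, neg_zero]
    have a5 := t2 _ (mul_MBA1 (cK _ hτ) hτ) fun n => by
      rw [Pi.mul_apply, hD.add n _ (cK _ hτ n) _ (hτ n), cA _ hτ, neg_add_cancel]
    have a6 : θ τ = 1 + Z.E.T := by
      have := (hV.ROW Λ Z ε hZ0).2.2.1
      rw [Mx.mu] at this
      linear_combination -this
    rw [hθd, Z.E.ev_mul hch (cK _ hτ) hτ, ← hθd, a6] at a5
    rw [a6] at a1
    obtain ⟨x, hx, y, hy, hxy⟩ := Submodule.mem_sup.1 e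
    obtain ⟨b, rfl⟩ := Ideal.mem_span_singleton.1 hy
    have a7 : Z.E.T * (F h - F (c * h * c⁻¹) -
        Z.E.T * (μ * b - θ (c * τ * c⁻¹) * F (c * h * c⁻¹))) ∈ P := by
      have b1 := P.add_mem (P.sub_mem (P.sub_mem hμ a1) a2) (P.mul_mem_left μ hx)
      have b2 := P.add_mem (P.mul_mem_right (F τ) a3) (P.mul_mem_right (F (c * τ * c⁻¹)) a4)
      have b3 := P.mul_mem_right ((1 - Z.E.T) * F (c * h * c⁻¹)) a5
      convert P.sub_mem (P.add_mem b1 b2) b3 using 1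
      rw [← hFd, ← hxy]
      ring
    rcases Z.E.ppi.dvd_or_dvd (Ideal.mem_span_singleton.1 a7) with a8 | a8
    · exact absurd a8 Z.E.piT
    · simpa using Z.E.m.add_mem (hPm (Ideal.mem_span_singleton.2 a8))
        (Z.E.m.mul_mem_right (μ * b - θ (c * τ * c⁻¹) * F (c * h * c⁻¹)) (T_MBA1 Z.E))

end Pool.Agent.MP_e23604_nt.PH
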