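import Pool.Agent.Mg.Fe23604m.G256ad4
import Pool.Agent.Mg.Fe23604m.G18296d
import Pool.Agent.Mg.Fe23604m.G91bd51
import Pool.Agent.Mg.Fe23604m.G39a49e

set_option linter.all false

/-!
The cup products of the cubic characters of the decomposition group at three.
-/

set_option autoImplicit false

open Finset QuadraticAlgebra
open scoped Classical

namespace Pool.Agent.MP_e23604_nt.PH

open B R S W X

/-- the four characters -/
noncomputable def kb : Fin 4 → GQ → ZMod 3 :=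
  ![kum 3, kum 2, kw w3, fun g => -kw (W.io (1 + 3 * pw)) g]

/-- the groupoid cochain of cube roots -/
noncomputable def kg (g : GQ) (θ : Qb) : ZMod 3 := S.lg (g (rt 3 θ) / rt 3 (g θ))

theorem kg_spec (g : GQ) {θ : Qb} (h : θ ≠ 0) :
    g (rt 3 θ) = w3 ^ (kg g θ).val * rt 3 (g θ) := by
  have h1 := (map_ne_zero g).2 h
  rw [kg, pow_lg (km_root three_ne_zero g h), div_mul_cancel₀ _ (rt_ne three_ne_zero h1)]

theorem kg_mul {g : GQ} (hg : g ∈ GK) (k : GQ) {θ : Qb} (h : θ ≠ 0) :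
    kg (g * k) θ = kg k θ + kg g (k θ) := by
  refine w3_inj (mul_right_cancel₀ (rt_ne three_ne_zero ((map_ne_zero (g * k)).2 h)) ?_)
  rw [← kg_spec _ h, AlgEquiv.mul_apply, kg_spec k h, map_mul, fixw_KW hg,
    kg_spec g ((map_ne_zero k).2 h), w3_add, mul_assoc, AlgEquiv.mul_apply]

theorem sum3 {A : Type} [AddCommMonoid A] (f : ZMod 3 → A) : ∑ i, f i = f 0 + f 1 + f 2 :=
  Fin.sum_univ_three f

/-- the Steinberg relation -/
theorem stb {H : Subgroup GQ} (hH : H ≤ GK) {x : Qb} (h0 : x ≠ 0) (h1 : 1 - x ≠ 0)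
    (hx : Fix H x) : Bo2 (fun _ => 1) H fun g h => kw x g * kw (1 - x) h := by
  obtain ⟨ad, lc, k, -⟩ := KW_pf.1 H x hH h0 hx
  have e1 := rt_pow three_ne_zero x
  replace k := k _ e1
  generalize rt 3 x = α at *
  set θ : ZMod 3 → Qb := fun i => 1 - w3 ^ i.val * α with hθ
  have pr : θ 0 * θ 1 * θ 2 = 1 - x := by
    change (1 - w3 ^ 0 * α) * (1 - w3 ^ 1 * α) * (1 - w3 ^ 2 * α) = _
    linear_combination (-α + w3 * α ^ 2 - (w3 - 1) * α ^ 3) * w3_spec - e1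
  have n0 : ∀ i, θ i ≠ 0 := fun i e => h1 (by
    rw [← pr]
    rcases z3 i with rfl | rfl | rfl <;> simp [e])
  have ac : ∀ g ∈ H, ∀ i, g (θ i) = θ (i + kw x g) := fun g hg i => by
    simp only [hθ, map_sub, map_one, map_mul, fixw_KW (hH hg), k g hg, w3_add, mul_assoc]
  have nm : ∀ g ∈ H, kw (1 - x) g = ∑ i, kg g (θ i) := fun g hg => by
    refine uniq_KW h1 (s := rt 3 (θ 0) * rt 3 (θ 1) * rt 3 (θ 2))
      (by simp only [mul_pow, rt_pow three_ne_zero, pr]) (hH hg) (by simp [hx g hg]) ?_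
    rw [sum3, map_mul, map_mul, kg_spec g (n0 _), kg_spec g (n0 _), kg_spec g (n0 _), w3_add,
      w3_add, ac g hg, ac g hg, ac g hg]
    rcases z3 (kw x g) with e | e | e <;> rw [e]
    · rw [add_zero, add_zero, add_zero]; ring
    · rw [show (0 + 1 : ZMod 3) = 1 from rfl, show (1 + 1 : ZMod 3) = 2 from rfl,
        show (2 + 1 : ZMod 3) = 0 from rfl]; ring
    · rw [show (0 + 2 : ZMod 3) = 2 from rfl, show (1 + 2 : ZMod 3) = 0 from rfl,
        show (2 + 2 : ZMod 3) = 1 from rfl]; ring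
  refine ⟨fun g => -∑ i, (i + kw x g) * kg g (θ i), (lc_sum _ fun i _ => lc.map₂
    ((Lc.apply H (rt 3 (θ i))).map₂ (Lc.apply H (θ i)) fun a b => S.lg (a / rt 3 b))
      fun a b => (i + a) * b).map _, fun g hg h hh => ?_⟩
  have s := Equiv.sum_comp (Equiv.addRight (kw x h)) fun i => (i + kw x g) * kg g (θ i)
  simp only [Equiv.coe_addRight] at s
  simp only [kg_mul (hH hg) h (n0 _), ac h hh, ad g hg h hh, nm h hh, ← s, sum3]
  ring

/-- coboundaries at three -/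
def B3 (f : GQ → GQ → ZMod 3) : Prop := Bo2 (fun _ => 1) V3.D f

theorem B3.sym {a b : GQ → ZMod 3} (h : Adt V3.D a ∧ Lc V3.D a) (h' : Adt V3.D b ∧ Lc V3.D b) :
    B3 fun g k => a g * b k + b g * a k :=
  ⟨fun g => -(a g * b g), h.2.map₂ h'.2 fun u v => -(u * v), fun g hg k hk => by
    simp only [h.1 g hg k hk, h'.1 g hg k hk]
    ring⟩

theorem kb_ad (i : Fin 4) : Adt GK (kb i) ∧ Lc GK (kb i) := by
  have r : ∀ r : ℚ, r ≠ 0 → Adt GK (kum r) ∧ Lc GK (kum r) := fun r h => by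
    obtain ⟨a, ⟨N, n, b⟩, -⟩ := KW_pf.1 GK r le_rfl (by exact_mod_cast h) fun g _ => map_ratCast g r
    exact ⟨fun g hg k hk => by
      rw [← rat_KW h hg, ← rat_KW h hk, ← rat_KW h (GK.mul_mem hg hk), a g hg k hk],
      N, n, fun g hg k hk e => by rw [← rat_KW h hg, ← rat_KW h hk, b g hg k hk e]⟩
  fin_cases i
  · exact r 3 three_ne_zero
  · exact r 2 two_ne_zero
  · obtain ⟨a, b, -⟩ := KW_pf.1 GK w3 le_rfl w3_ne_zero fun g => mem_GK'.1
    exact ⟨a, b⟩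
  · obtain ⟨a, b, -⟩ := KW_pf.1 GK _ le_rfl (io_ne (b := 1 + 3 * pw) (by decide))
      fun g hg => io_fix hg _
    exact ⟨fun g hg k hk => (congrArg Neg.neg (a g hg k hk)).trans (neg_add _ _), b.map Neg.neg⟩

theorem kb_lo (i : Fin 4) : Adt V3.D (kb i) ∧ Lc V3.D (kb i) :=
  ⟨(kb_ad i).1.mono V3.D_le, (kb_ad i).2.mono V3.D_le⟩

theorem near_SYM {a c : Zw} (hc : ¬ 3 ∣ nn c) (e : (a - c).re % 9 = 0 ∧ (a - c).im % 9 = 0)
    {g : GQ} (hg : g ∈ V3.D) : kw (W.io a) g = kw (W.io c) g := by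
  have v1 := not_Ov.1 (V3_not fun k => hc (pw_dvd_iff.1 k))
  have c0 : W.io c ≠ 0 := fun e0 => by simp [e0] at v1
  have f1 : Fix V3.D (W.io a / W.io c) := fun g hg => by simp [fio_UN3 _ g hg]
  have h1 : V3.v (W.io a / W.io c - 1) < pv ^ 3 := by
    rw [div_sub_one c0, map_div₀, v1, div_one, ← map_sub]
    exact (nine_L9 e).trans_lt (pv_anti_LK (by norm_num))
  have n1 : W.io a / W.io c ≠ 0 := fun e0 => by
    rw [e0, zero_sub, V3.v.map_neg, map_one] at h1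
    exact h1.not_gt (by simpa using pv_anti_LK three_pos)
  rw [← div_mul_cancel₀ (W.io a) c0, kw_mul_LK KW_pf n1 c0 f1 (fio_UN3 c) hg,
    two_UN3 KW_pf f1 h1 g hg, zero_add]

/-- products of the four generators -/
def mo (s : Zw) (a b c d : ℕ) : Zw := s * pw ^ a * 2 ^ b * ω ^ c * (1 + 3 * pw) ^ d

theorem mo_SYM {s : Zw} (hs : s = 1 ∨ s = -1) (a b c d : ℕ) {g : GQ} (hg : g ∈ V3.D) :
    kw (W.io (mo s a b c d)) g = 2 * a * kb 0 g + b * kb 1 g + c * kb 2 g - d * kb 3 g := by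
  have f : ∀ z : Zw, z ≠ 0 → ∀ i : ℕ, ∀ y : Zw, y ≠ 0 →
      kw (W.io (z * y ^ i)) g = kw (W.io z) g + i * kw (W.io y) g := fun z z0 i y y0 => by
    rw [map_mul, map_pow, mul_UN3 KW_pf (io_ne z0) (io_ne y0) (fio_UN3 z) (fio_UN3 y) hg]
  have s0 : s ≠ 0 := by rcases hs with rfl | rfl <;> decide
  have n1 := mul_ne_zero s0 (pow_ne_zero a pw_ne)
  have n2 := mul_ne_zero n1 (pow_ne_zero b (two_ne_zero (α := Zw)))
  have m1 : kw (W.io (-1)) g = 0 := by
    rw [map_neg, map_one, (KW_pf.1 _ 1 V3.D_le one_ne_zero fun u _ => map_one u).2.2.2.2.1 g hg,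
      one_UN3 KW_pf hg]
  have e1 : kw (W.io s) g = 0 := by
    rcases hs with rfl | rfl
    exacts [by rw [map_one, one_UN3 KW_pf hg], m1]
  have e2 := kum_UN3 KW_pf two_ne_zero hg
  have e3 := kum_UN3 KW_pf three_ne_zero hg
  have e4 := f (-1) (by decide) 2 pw pw_ne
  rw [show -1 * pw ^ 2 = 3 by decide, map_ofNat, m1] at e4
  push_cast at e2 e3 e4
  rw [mo, f _ (mul_ne_zero n2 (pow_ne_zero c w_unit.ne_zero)) _ _ (by decide),
    f _ n2 _ _ w_unit.ne_zero, f _ n1 _ _ two_ne_zero, f _ s0 _ _ pw_ne, e1, io_w, map_ofNat, e2]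
  have h3 : (3 : ZMod 3) = 0 := rfl
  change _ = 2 * a * kum 3 g + b * kum 2 g + c * kw w3 g - d * -kw (W.io (1 + 3 * pw)) g
  linear_combination (2 * a) * e3 - 2 * a * e4 - a * kw (W.io pw) g * h3

theorem stb_SYM (s s' : Zw) (a b c d a' b' c' d' : ℕ)
    (h : (s = 1 ∨ s = -1) ∧ (s' = 1 ∨ s' = -1) ∧ mo s a b c d ≠ 0 ∧ 1 - mo s a b c d ≠ 0 ∧
      (1 - mo s a b c d = mo s' a' b' c' d' ∨ ¬ 3 ∣ nn (mo s' a' b' c' d') ∧
        (1 - mo s a b c d - mo s' a' b' c' d').re % 9 = 0 ∧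
        (1 - mo s a b c d - mo s' a' b' c' d').im % 9 = 0)) :
    B3 fun g k => (2 * a * kb 0 g + b * kb 1 g + c * kb 2 g - d * kb 3 g) *
      (2 * a' * kb 0 k + b' * kb 1 k + c' * kb 2 k - d' * kb 3 k) := by
  obtain ⟨h1, h2, h3, h4, h5⟩ := h
  have e : 1 - W.io (mo s a b c d) = W.io (1 - mo s a b c d) := by rw [map_sub, map_one]
  refine (stb V3.D_le (io_ne h3) (e ▸ io_ne h4) (fio_UN3 _)).congr_XEXR fun g hg k hk => ?_
  rw [e, mo_SYM h1 _ _ _ _ hg, ← mo_SYM h2 _ _ _ _ hk]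
  rcases h5 with h | h
  exacts [by rw [h], by rw [near_SYM h.1 h.2 hk]]

theorem B3.lin {f f' F : GQ → GQ → ZMod 3} (h : B3 f) (h' : B3 f') (r r' : ZMod 3)
    (e : ∀ g k, ∃ t, F g k = r * f g k + r' * f' g k + 3 * t) : B3 F :=
  (h.lin_XEXR h' r r').congr_XEXR fun g _ k _ => by
    obtain ⟨t, ht⟩ := e g k
    rw [ht, show (3 : ZMod 3) = 0 from rfl, zero_mul, add_zero]

/-- the matrix of the cup product -/
def em : Fin 4 → Fin 4 → ZMod 3 := ![![0, 0, 0, 1], ![0, 0, -1, 0], ![0, 1, 0, 0], ![-1, 0, 0, 0]]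

theorem tab (i j : Fin 4) : B3 fun g k => kb i g * kb j k - em i j * (kb 0 g * kb 3 k) := by
  have S := fun i j => B3.sym (kb_lo i) (kb_lo j)
  have D : ∀ i, B3 fun g k => kb i g * kb i k := fun i =>
    (S i i).lin (S i i) 2 0 fun g k => ⟨-(kb i g * kb i k), by ring⟩
  have u01 : B3 fun g k => kb 0 g * kb 1 k :=
    (stb_SYM (-1) (-1) 2 0 0 0 0 1 0 0 (by decide)).lin (D 0) 1 0 fun g k =>
      ⟨-(kb 0 g * kb 1 k), by push_cast; ring⟩
  have u20 : B3 fun g k => kb 2 g * kb 0 k :=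
    (stb_SYM 1 1 0 0 1 0 1 0 2 0 (by decide)).lin (D 2) 2 (-4) fun g k =>
      ⟨-(kb 2 g * kb 0 k), by push_cast; ring⟩
  have u02 : B3 fun g k => kb 0 g * kb 2 k := (S 0 2).lin u20 1 (-1) fun g k => ⟨0, by ring⟩
  have u13 : B3 fun g k => kb 1 g * kb 3 k :=
    (stb_SYM 1 1 3 2 0 0 0 0 0 1 (by decide)).lin (D 0) 1 0 fun g k =>
      ⟨(kb 1 g + 2 * kb 0 g) * kb 3 k, by push_cast; ring⟩
  have u23 : B3 fun g k => kb 2 g * kb 3 k :=
    (stb_SYM 1 1 3 0 1 0 0 0 0 1 (by decide)).lin (D 0) (-1) 0 fun g k =>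
      ⟨-2 * kb 0 g * kb 3 k, by push_cast; ring⟩
  have a1 : B3 fun g k => kb 0 g * kb 1 k + kb 0 g * kb 2 k :=
    u01.lin u02 1 1 fun g k => ⟨0, by ring⟩
  have a2 : B3 fun g k => kb 1 g * kb 1 k + kb 1 g * kb 3 k :=
    (D 1).lin u13 1 1 fun g k => ⟨0, by ring⟩
  have a3 := a1.lin a2 1 1 fun g k => ⟨0, rfl⟩
  have u12 : B3 fun g k => kb 1 g * kb 2 k + kb 0 g * kb 3 k :=
    (stb_SYM 1 (-1) 1 2 0 0 0 1 1 2 (by decide)).lin a3 2 (-1) fun g k =>
      ⟨-(kb 0 g + kb 1 g) * (kb 1 k + kb 2 k - 3 * kb 3 k), by push_cast; ring⟩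
  have U : ∀ i j : Fin 4, i ≤ j →
      B3 fun g k => kb i g * kb j k - em i j * (kb 0 g * kb 3 k) := fun i j h => by
    fin_cases i <;> fin_cases j <;> simp only [em] at h ⊢ <;> try exact absurd h (by decide)
    · exact (D 0).lin u01 1 0 fun g k => ⟨0, by simp⟩
    · exact u01.lin u01 1 0 fun g k => ⟨0, by simp⟩
    · exact u02.lin u01 1 0 fun g k => ⟨0, by simp⟩
    · exact u01.lin u01 0 0 fun g k => ⟨0, by simp⟩
    · exact (D 1).lin u01 1 0 fun g k => ⟨0, by simp⟩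
    · exact u12.lin u01 1 0 fun g k => ⟨0, by simp⟩
    · exact u13.lin u01 1 0 fun g k => ⟨0, by simp⟩
    · exact (D 2).lin u01 1 0 fun g k => ⟨0, by simp⟩
    · exact u23.lin u01 1 0 fun g k => ⟨0, by simp⟩
    · exact (D 3).lin u01 1 0 fun g k => ⟨0, by simp⟩
  rcases le_total i j with h | h
  · exact U i j h
  · have : ∀ i j, em i j = -em j i := by decide
    exact (S i j).lin (U j i h) 1 (-1) fun g k => ⟨0, by rw [this i j]; ring⟩

theorem cj_SYM {c g : GQ} (hc : c ∉ GK) (hg : g ∈ V3.D) (i : Fin 4) :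
    kb i (c * g * c⁻¹) = ![-1, -1, 1, 1] i * kb i g := by
  have k : ∀ b : Zw, b ≠ 0 → kw (W.io b) (c * g * c⁻¹) = -kw (W.io (star b)) g := fun b h => by
    rw [← conj_KW hc hg.2 (io_ne (star_ne_zero.2 h)) (io_fix hg.2 _), W.io_star hc, star_star]
  have h3 : (3 : ZMod 3) = 0 := rfl
  fin_cases i
  · exact (anti_KW three_ne_zero c hc g hg.2).trans (neg_one_mul _).symm
  · exact (anti_KW two_ne_zero c hc g hg.2).trans (neg_one_mul _).symm
  · have := k ω w_unit.ne_zero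
    rw [io_w, show star ω = mo 1 0 0 2 0 by decide, mo_SYM (.inl rfl) _ _ _ _ hg] at this
    change kb 2 _ = _ at this
    change kb 2 _ = 1 * kb 2 g
    push_cast at this
    linear_combination this - kb 2 g * h3
  · have := k (1 + 3 * pw) (by decide)
    rw [near_SYM (c := mo 1 0 0 0 2) (by decide) (by decide) hg,
      mo_SYM (.inl rfl) _ _ _ _ hg] at this
    change -kw _ _ = 1 * kb 3 g
    push_cast at this
    linear_combination -this - kb 3 g * h3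

theorem ex_cv {R : Type} [CommRing R] (h : (3 : R) = 0) :
    ∃ j : ZMod 3 →+* R, ∀ a, (cv a : R) = j a :=
  have := ringChar.charP R
  ⟨ZMod.castHom (ringChar.dvd (by exact_mod_cast h)) R, fun a => by
    rw [ZMod.castHom_apply, cv, ZMod.natCast_val]⟩

theorem bs_kb (a : Fin 4) (g : GQ) : bs a g = ![1, 1, -1, -1] a * kb a g := by
  fin_cases a
  exacts [(one_mul _).symm, (one_mul _).symm, rfl, by simp [bs, kb]]

theorem SYM_pf : SYM_st := by
  intro R _ c a b h3 c1 c2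
  obtain ⟨j, hj⟩ := ex_cv h3
  have L := LIN_ok R (fun _ => 1) V3.D
  have mp : ∀ {f}, B3 f → ∀ r : R, Bo2 (fun _ => 1) V3.D fun g k => r * j (f g k) :=
    fun ⟨β, h1, h2⟩ r => ⟨fun g => r * j (β g), h1.map fun t => r * j t, fun g hg k hk => by
      beta_reduce
      rw [h2 g hg k hk, map_add, map_sub, one_mul]
      ring⟩
  refine (((L.2 _ univ _).2 fun i _ => (L.2 _ univ _).2 fun i' _ => mp (tab i i')
    (a i * j (![-1, -1, -1, -1] i) * b i' * j (![1, 1, -1, -1] i'))).lin_XEXR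
      (mp (tab 2 1) 1) 1 (-b4 a b)).congr_XEXR fun g hg k hk => ?_
  change _ - _ * cv (kb 2 g * kb 1 k) = _
  simp only [hj, bs_kb, cj_SYM c2 hg, Fin.sum_univ_four, em, b4]
  simp
  ring

end Pool.Agent.MP_e23604_nt.PH
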