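import Pool.Agent.Mg.Fe23604m.G256ad4
import Pool.Agent.Mg.Fe23604m.G5e9479
import Pool.Agent.Mg.Fe23604m.G95fc3b

set_option linter.all false

set_option autoImplicit false

open Finset Filter QuadraticAlgebra
open scoped Classical

namespace Pool.Agent.MP_e23604_nt.PH

open B R S W V

theorem lin_PnCqp {Λ : Type} [CommRing Λ] {b : Ideal Λ} (h : ∀ s t : ZMod 3,
    (cv (s + t) : Λ) - (cv s + cv t) ∈ b ∧ (cv (s * t) : Λ) - cv s * cv t ∈ b) (x t y : ZMod 3) :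
    (cv (x + t * y) : Λ) - (cv x + cv t * cv y) ∈ b := by
  convert b.add_mem (h x (t * y)).1 (h t y).2 using 1
  ring

theorem CQP_pf (hV : HV) (hC : COO_st) (hK : KLR_st) : CQP_st := by
  intro Λ _ _ Z e j₀ j₁ r κ E d hO hP
  have hZ := hO.toOk0
  obtain ⟨⟨g1, g2, g3, -⟩, g6, g7, -, g8, -, -, -, g9⟩ := hV.GER Λ Z hZ
  obtain ⟨t1, t3, -, -, t2⟩ := hV.TRM Z.r (hZ.tw true).sf.ne_zero (hZ.tw true).n3
  have hA : ∀ m, Vx m1 Z.L' m → Z.Ad (insert Z.qg (m ∪ Z.m0)) := fun m hm => g7 m (.inr hm)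
  have hw : ∀ n, Z.E.ι pw ∈ Z.pn n := fun n =>
    Ideal.mem_sup_left (Ideal.mem_span_singleton_self _)
  have co := fun n => (hC Λ Z hZ).2.2.2 _ (hw n)
  have sub : ∀ m : Finset JJ, m ⊆ insert Z.qg (m ∪ Z.m0) := fun m =>
    subset_union_left.trans (subset_insert _ _)
  have a0 : ∀ m n A, Vx m1 Z.L' m → Z.Gd A n → m ⊆ A → ∀ j ∈ m \ m1, ∃ l : ℕ,
      jn n j = .inr (-(l : Zw)) ∧ (l.Prime ∧ l % 3 = 2) ∧ (Z.ok n l ∨ l ∈ Bn Z.r) := by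
    intro m n A hm hg e j hj
    rcases hm.2 j (mem_sdiff.1 hj).1 (mem_sdiff.1 hj).2 with h | h
    · obtain ⟨l, b1, b2⟩ := hg.aux j (e (mem_sdiff.1 hj).1) fun e' =>
        (mem_insert.1 e').elim (fun e => g2 (e ▸ h)) fun e => g3 j e h
      exact ⟨l, b1, ⟨b2.1, ((hV.THB Λ Z.toDt n hZ.toOk).2.2.2.1 l b2.1 b2.2.1).1⟩, .inl b2⟩
    · obtain ⟨ϖ, b1, rfl⟩ := mem_image.1 h
      obtain ⟨l, b2, rfl⟩ := (t3 ϖ).1 b1
      exact ⟨l, hg.cs _ (mem_filter.1 b1).1,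
        ⟨Nat.prime_of_mem_primeFactors (mem_filter.1 b2).1, (mem_filter.1 b2).2⟩, .inr b2⟩
  have a1 : ∀ m n A, Vx m1 Z.L' m → Z.Gd A n → m ⊆ A → ∀ l : ℕ, l ∈ Z.Sn (m \ m1) n ↔
      ∃ j ∈ m \ m1, jn n j = .inr (-(l : Zw)) := fun m n A hm hg e l =>
    sn_MCLG hZ.pk fun j hj => (a0 m n A hm hg e j hj).imp fun _ h => ⟨h.1, h.2.1⟩
  have a2 : ∀ m n A, Vx m1 Z.L' m → Z.Gd A n → m ⊆ A → pq Z.toDt n (Z.Sn (m \ m1) n) :=
    fun m n A hm hg e l hl => by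
      obtain ⟨j, hj, e1⟩ := (a1 m n A hm hg e l).1 hl
      obtain ⟨l', e2, -, e3⟩ := a0 m n A hm hg e j hj
      rwa [eq_MCLG e1 e2]
  have a3 : ∀ m n A, Vx m1 Z.L' m → Z.Gd A n → m ⊆ A → Z.sr (Z.Sn (m \ m1) n) = Z.s m :=
    fun m n A hm hg e => by
      rw [sd_MCLG g8 hm, Dt.sr, card_MCLG hZ.pk
        (fun j hj => (a0 m n A hm hg e j hj).imp fun _ h => ⟨h.1, h.2.1⟩)
        (hg.inj.mono (coe_subset.2 (sdiff_subset.trans e))), Mx.s,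
        sdiff_eq_empty_iff_subset.2 subset_union_left]
      rw [card_empty, decide_eq_false Nat.not_odd_zero, Bool.xor_false]
      congr 3
      exact congrArg card (Finset.ext fun _ => by simp)
  have a4 : ∀ m, Vx m1 Z.L' m → ∀ᶠ n in uf, pq Z.toDt n (Z.Sn (m \ m1) n) ∧
      Z.sr (Z.Sn (m \ m1) n) = Z.s m := fun m hm =>
    (g6 _ (hA m hm)).mono fun n hg => ⟨a2 m n _ hm hg (sub m), a3 m n _ hm hg (sub m)⟩
  have zf : ∀ j m, Vx m1 Z.L' m → ∀ᶠ n in uf, Zf (Z.th (Z.s m) n) (Rn (insert Z.qg (m ∪ Z.m0)) n)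
      (Z.pn n) (Z.kq m1 (E j) m n) := fun j m hm => by
    filter_upwards [g6 _ (hA m hm)] with n hg
    have b2 := hP.zf j n _ (a2 m n _ hm hg (sub m))
    rw [a3 m n _ hm hg (sub m)] at b2
    refine b2.mono ?_ le_rfl
    rintro g ⟨V, c1, c2⟩
    refine ⟨V, fun c3 => c1 ?_, c2⟩
    have c4 : ∀ ϖ ∈ Tn (insert Z.qg (m ∪ Z.m0)) n, Ov V ϖ →
        Ov V (3 * ∏ ϖ ∈ Tn (insert Z.qg (m ∪ Z.m0)) n, ϖ) := fun ϖ c5 c6 =>
      Ov_mul.2 (.inr (c6.dvd (dvd_prod_of_mem _ c5)))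
    rcases ov_MCLG c3 with c | c | c | ⟨l, c5, c⟩
    · exact Ov_mul.2 (.inl c)
    · exact ((t2 V).2 (Ov_mul.2 (.inr (c.dvd (Nat.cast_dvd_cast hP.r1))))).dvd (mul_dvd_mul_left _
        (prod_dvd_prod_of_subset _ _ _ ((subset_insert _ _).trans hg.sub)))
    · exact c4 _ (hg.sub (mem_insert_self _ _)) (c.dvd (dvd_neg.2 dvd_rfl))
    · obtain ⟨j, c6, c7⟩ := (a1 m n _ hm hg (sub m) l).1 c5
      exact c4 _ (tn_MCLG.2 ⟨j, sub m (mem_sdiff.1 c6).1, c7⟩) (c.dvd (dvd_neg.2 dvd_rfl))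
  have z0 : ∀ (θ f : GQ → Λ) (T : Set GQ), Zf θ T (pI Z ⊔ Z.E.m ^ 0) f := fun _ _ _ =>
    zf_iff.2 ⟨⟨GK, GK_on, by simp⟩, by simp, by simp⟩
  have lc : ∀ j m, Vx m1 Z.L' m →
      Z.LC (Z.s m) (pI Z) (insert Z.qg (m ∪ Z.m0)) (Z.kq m1 (E j) m) := fun j m hm =>
    diag (G := fun n k => Zf (Z.th (Z.s m) n) (Rn (insert Z.qg (m ∪ Z.m0)) n)
      (pI Z ⊔ Z.E.m ^ k) (Z.kq m1 (E j) m n)) (fun _ => z0 _ _ _) fun k => by
      filter_upwards [zf j m hm, uf_le (eventually_ge_atTop k)] with n h hk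
      exact h.mono subset_rfl (Z.E.sup_le _ hk)
  have rv : ∀ j m, Vx m1 Z.L' m → Z.Rv (pI Z) (insert Z.qg (m ∪ Z.m0)) (Z.kv m1 (E j) m)
      (Z.kq m1 (E j) m) := fun j m hm => ⟨(Z.vec_supp _ _).trans (sub m), fun i hj => by
    rw [Mx.kv, Z.vec_apply]
    split_ifs with e
    · simp
    rw [zero_sub, neg_mem_iff]
    by_cases hS : i ∈ Z.Sg
    · obtain ⟨ϖ, b4, rfl⟩ := mem_image.1 hS
      obtain ⟨-, -, -, r4, -, r6, -⟩ := hV.ROW Λ Z (Z.s m) hZ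
      have := (hV.VAL Λ Z _ _ _ _ _ hO (hA m hm) (lc j m hm) (Z.vec_rv _ _ _)).2.1 _ hj
        fun e' => e (hm.1 e')
      rw [Mx.rel, ev_add, ev_smul, ev_smul, coord_MVAL, Z.vec_apply, if_pos hj, pI,
        Ideal.mem_span_singleton] at this
      refine Ideal.mem_span_singleton.2 ((Z.E.ppi.dvd_or_dvd ?_).resolve_left (r6 ϖ b4).2.2)
      have := (dvd_add_right ((r4 _ (mem_union_left _ hS)).2.mul_right _)).1 this
      rwa [← sub_add_cancel (Z.nu _ _) (Z.eu ϖ), add_mul,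
        dvd_add_right ((r6 ϖ b4).2.1.mul_right _)] at this
    refine L_mem Z.E (k := id) uf_le ?_
    filter_upwards [g6 _ (hA m hm)] with n hg
    have b1 := a2 m n _ hm hg (sub m)
    rcases mem_insert.1 hj with rfl | b2
    · rw [(sg_MCLG hg.q).2]
      exact hP.tq j n _ b1
    have b3 := (mem_union.1 b2).resolve_left e
    obtain ⟨ϖ, b4, rfl⟩ := mem_image.1 ((mem_union.1 b3).resolve_left fun e' => e (hm.1 e'))
    have b5 := hg.cs ϖ b4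
    have b6 := ((t1 ϖ).1 b4).1
    obtain ⟨b7, -, b8, -⟩ := hZ.pk.tm ϖ b6
    rw [(sg_MCLG b5).2]
    refine (hP.zf j n _ b1).2 _ ⟨_, fun c3 => ?_, b8⟩
    have c4 : ∀ j ∈ insert Z.qg (m ∪ Z.m0), ∀ l : ℕ, jn n j = .inr (-(l : Zw)) → Ov (Z.K.V ϖ) l →
        cs ϖ = j := fun j c5 l c6 c7 => hg.inj hj c5 (by
      rw [b5, c6, ← b6.eq_EKOL0 (hg.pp _ (tn_MCLG.2 ⟨j, c5, c6⟩))
        (dvd_neg.2 ((iff_HPLb _ ϖ b6.1 b7 _).1 c7))])
    rcases ov_MCLG c3 with c | c | c | ⟨l, c5, c⟩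
    · exact three_AFRB b6 b7 c
    · obtain ⟨l, c5, rfl⟩ := (t3 ϖ).1
        (mem_filter.2 ⟨b4, fun h => hS (mem_image_of_mem _ (mem_filter.2 ⟨b4, h⟩))⟩)
      rw [nat_HPLb, (hZ.pk.ine l (Nat.prime_of_mem_primeFactors (mem_filter.1 c5).1)
        (mem_filter.1 c5).2).1] at c
      exact hP.r2 l c5 c
    · exact g1 (c4 _ (mem_insert_self _ _) _ hg.q c ▸ b3)
    · obtain ⟨j, c6, c7⟩ := (a1 m n _ hm hg (sub m) l).1 c5
      exact e (c4 j (sub m (mem_sdiff.1 c6).1) l c7 c ▸ (mem_sdiff.1 c6).1)⟩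
  refine ⟨lc, rv, fun j m hm i hi => ?_, fun m l hm => ?_, fun j m hm hs => ?_,
    fun j m hm hs => ?_, fun m hm i => ?_⟩
  · refine L_mem Z.E (k := id) uf_le ?_
    filter_upwards [g6 _ (hA m hm)] with n hg
    obtain ⟨l, b1, -⟩ := a0 m n _ hm hg (sub m) i hi
    rw [(sg_MCLG b1).1]
    exact hP.tr j n _ (a2 m n _ hm hg (sub m)) l ((a1 m n _ hm hg (sub m) l).2 ⟨i, hi, b1⟩)
  · obtain ⟨hm, hl, hn⟩ := hm
    have hm' : Vx m1 Z.L' (insert l m) := ⟨hm.1.trans (subset_insert _ _), fun j e e' =>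
      (mem_insert.1 e).elim (fun e => e ▸ hl) fun e => hm.2 j e e'⟩
    have : ∀ᶠ n in uf, ∃ v, v ∉ Z.E.m ∧ ∀ j, Z.kq m1 (E j) (insert l m) n (Z.gj l n) -
        v * Z.kq m1 (E j) m n (Z.sg l n) ∈ Z.pn n := by
      filter_upwards [g6 _ (hA _ hm')] with n hg
      have e := (subset_insert l m).trans (sub _)
      have e0 : l ∉ m1 := fun e => hn (hm.1 e)
      obtain ⟨l', b1, -⟩ := a0 _ n _ hm' hg (sub _) l (mem_sdiff.2 ⟨mem_insert_self _ _, e0⟩)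
      have b3 : Z.Sn (insert l m \ m1) n = insert l' (Z.Sn (m \ m1) n) := by
        ext i
        rw [mem_insert, a1 _ n _ hm' hg (sub _), a1 m n _ hm hg e, insert_sdiff_of_notMem _ e0,
          exists_mem_insert]
        exact or_congr_left ⟨fun h => eq_MCLG h b1, fun h => h ▸ b1⟩
      simp only [Mx.kq, b3, (sg_MCLG b1).1, (sg_MCLG b1).2]
      refine hP.fs n _ l' (b3 ▸ a2 _ n _ hm' hg (sub _)) fun b4 => ?_
      obtain ⟨j, b5, b6⟩ := (a1 m n _ hm hg e l').1 b4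
      exact hn (hg.inj (e (mem_sdiff.1 b5).1) (sub _ (mem_insert_self _ _)) (b6.trans b1.symm) ▸
        (mem_sdiff.1 b5).1)
    obtain ⟨v, hv⟩ := this.choice
    refine ⟨Z.E.L v, L_unit Z.E (hv.mono fun _ h => h.1), fun j => ?_⟩
    rw [Mx.kv, Z.vec_apply, if_pos (mem_insert_self _ _), Lm.ev, Lm.ev, ← Z.E.L_mul, ← Z.E.L_sub]
    exact L_mem Z.E (k := id) uf_le (hv.mono fun _ h => h.2 j)
  · obtain ⟨a, a5, a6⟩ := (hV.LKP _ j₁).2 hP.c3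
    refine diag (G := fun n k => Zf (Z.th (!e) n) (Rn (insert Z.qg (m ∪ Z.m0)) n)
      (pI Z ⊔ Z.E.m ^ k) (Z.kq m1 (E j) m n) ∧ Z.Kl (!e) n (pI Z ⊔ Z.E.m ^ k) (Z.kq m1 (E j) m n))
      (fun n => ⟨z0 _ _ _, 0, by simp⟩) fun k => ?_
    filter_upwards [zf j m hm, a4 m hm, uf_le (eventually_ge_atTop k)] with n h h' hk
    obtain ⟨α, β, b1⟩ := hP.l3 j n _ h'.1 (h'.2.trans hs)
    obtain ⟨c, b2⟩ := (hK Λ Z _ _ n (Z.pn n) (Z.kq m1 (E j) m n) hZ a6 le_sup_right (hw n)).2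
      ⟨α * cv (2 : ZMod 3), α * cv (j₁ * a) + β * cv a, fun g hg => by
        have b3 : ∀ a j x y : ZMod 3, a ≠ 0 →
            x = 2 * (2 * x + j * y) + j * a * (a * y) ∧ y = a * (a * y) := by decide
        have b4 := (co n).2.2.1
        have b5 := b3 a j₁ (kum 3 g) (kum 2 g) a5
        rw [← hP.c3 g hg] at b5
        convert add_mem (add_mem (b1 g hg) ((Z.pn n).mul_mem_left α (add_mem (lin_PnCqp b4
          (2 * Z.χ (!e) g) (j₁ * a) (a * kum 2 g)) (b4 2 (Z.χ (!e) g)).2)))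
          ((Z.pn n).mul_mem_left β (b4 a (a * kum 2 g)).2) using 1
        rw [← b5.1, ← b5.2]
        simp only [bs, Matrix.cons_val, Mx.kq]
        ring⟩
    exact ⟨hs ▸ h.mono subset_rfl (Z.E.sup_le _ hk), c, fun g hg => Z.E.sup_le _ hk (b2 g hg)⟩
  · have fc : ∀ a, ev (Fc Z e a) (Z.kv m1 (E j) m) -
        Z.E.L (fun n => cx Z (Z.kq m1 (E j) m n) a) ∈ pI Z := fun a => by
      convert sum_mem fun k (_ : k ∈ univ) => (pI Z).mul_mem_left (cv (cm Z.y a k))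
        ((hV.VAL Λ Z _ _ _ _ _ hO (hA m hm) (lc j m hm) (rv j m hm)).1 (fun _ => Z.y k)
          fun _ => V3.D_le (hZ.yD k)) using 1
      simp only [Fc, cx, Fin.sum_univ_four, ev_add, ev_smul, Lm.ev, Z.E.L_add, Z.E.L_mul,
        Z.E.const, hs]
      ring
    have fd : ∀ a a', (∀ᶠ n in uf, cx Z (Z.kq m1 (E j) m n) a -
        cv j * cx Z (Z.kq m1 (E j) m n) a' ∈ Z.pn n) →
        ev (Fc Z e a) (Z.kv m1 (E j) m) - cv j * ev (Fc Z e a') (Z.kv m1 (E j) m) ∈ pI Z :=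
      fun a a' h => by
        convert add_mem (sub_mem (fc a) ((pI Z).mul_mem_left (cv j) (fc a')))
          (L_mem Z.E (P := pI Z) (k := id) uf_le h) using 1
        rw [Z.E.L_sub, Z.E.L_mul, Z.E.const]
        ring
    have fe : ∀ᶠ n in uf, ∃ α β : Λ, ∀ a, cx Z (Z.kq m1 (E j) m n) a -
        ![α, cv j * α, β, cv j * β] a ∈ Z.pn n := by
      filter_upwards [a4 m hm] with n h
      obtain ⟨α, β, b1⟩ := hP.l9 j n _ h.1 (h.2.trans hs)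
      refine ⟨α, β, (co n).2.2.2.1 _ _ fun g hg => ?_⟩
      convert add_mem (add_mem (b1 g hg) ((Z.pn n).mul_mem_left α
        (lin_PnCqp (co n).2.2.1 (bs 0 g) j (bs 1 g))))
        ((Z.pn n).mul_mem_left β (lin_PnCqp (co n).2.2.1 (bs 2 g) j (bs 3 g))) using 1
      simp only [Fin.sum_univ_four, Matrix.cons_val, Mx.kq]
      ring
    refine ⟨fd _ _ (fe.mono fun n ⟨α, β, h⟩ => ?_), fd _ _ (fe.mono fun n ⟨α, β, h⟩ => ?_)⟩
    · simpa [mul_sub] using sub_mem (h 1) ((Z.pn n).mul_mem_left (cv j) (h 0))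
    · simpa [mul_sub] using sub_mem (h 3) ((Z.pn n).mul_mem_left (cv j) (h 2))
  · simp only [Mx.kv, Z.vec_apply]
    split_ifs
    · rw [Lm.ev, Lm.ev, Lm.ev, ← Z.E.L_add, ← Z.E.L_add]
      exact L_mem Z.E (k := id) uf_le ((a4 m hm).mono fun n h => hP.lin n _ h.1 _ ((g9 i).1 n))
    · simp

end Pool.Agent.MP_e23604_nt.PH
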