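import Pool.Agent.Mg.Fe23604m.G256ad4
import Pool.Agent.Mg.Fe23604m.Gf8ce99

set_option linter.all false

set_option autoImplicit false

open Finset Filter QuadraticAlgebra
open scoped Classical

namespace Pool.Agent.MP_e23604_nt.PH

open B R S W V

theorem lvl_PnRcp (hV : HV) (hC : COO_st) (hS : SYM_st) (hR : RCB_st) {Λ : Type} [CommRing Λ]
    {Z : Mx Λ} (h0 : Z.Ok0) (ε : Bool) {n : ℕ} {b : Ideal Λ} (hb : Z.E.m ^ n ≤ b)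
    (r1 : Z.E.ι pw ∈ b) {T : Finset Zw} {Q : Finset ℕ} {f f' : GQ → Λ}
    (z : Zf (Z.th ε n) (Ru (3 * ∏ ϖ ∈ T, ϖ)) b f) (z' : Zf (Z.th ε n) (Ru (3 * ∏ ϖ ∈ T, ϖ)) b f')
    (hT : ∀ ϖ ∈ T, ϖ ∈ V.Tr Z.r ∨ ϖ = -(Z.q n : Zw) ∨ ∃ l ∈ Q, ϖ = -(l : Zw))
    (hQ : ∀ l ∈ Q, l.Prime ∧ l % 3 = 2 ∧ l ≠ Z.q n)
    (hq : f (Z.K.τ (-Z.q n)) ∈ b ∧ f' (Z.K.τ (-Z.q n)) ∈ b) (r2 : Bn Z.r ⊆ Q)
    (r3 : ∀ ϖ ∈ Sz Z.r, f (Z.K.τ ϖ) ∈ b ∧ f' (Z.K.τ ϖ) ∈ b) :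
    ∑ l ∈ Q, trm_MRCL Z ε n f f' (.inr (-l)) -
      cv hR.choose * Z.th ε n (Z.c * Z.c₃⁻¹) * b4 (cx Z f) (cx Z f') ∈ b := by
  have ok := h0.toOk
  obtain ⟨-, -, -, -, -, A6, A7⟩ := hV.THA Λ Z.toDt n ok
  obtain ⟨-, mu, a1, -, a3, -⟩ := A6 ε
  obtain ⟨fin, -, nil⟩ := A7 b hb
  obtain ⟨B1, -, -, B4, -⟩ := hV.THB Λ Z.toDt n ok
  obtain ⟨h3, -, -, -, -, C⟩ := (hC Λ Z h0).2.2.2 b r1
  obtain ⟨C1, -, C3⟩ := C ε n
  have tw := ok.tw ε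
  have tr := (hV.TRM Z.r tw.sf.ne_zero tw.n3).1
  set π := Ideal.Quotient.mk b with hπ
  have π0 : ∀ {a : Λ}, π a = 0 ↔ a ∈ b := Ideal.Quotient.eq_zero_iff_mem
  have π1 : ∀ {a : Λ}, a - 1 ∈ b → π a = 1 := fun h => by
    rw [← map_one π]
    exact Ideal.Quotient.eq.2 h
  have mu := mu _ π fun a ha => π0.2 (hb ha)
  have z3 : (3 : Λ ⧸ b) = 0 := by simpa only [map_ofNat] using π0.2 h3
  obtain ⟨j⟩ : Nonempty (ZMod (3 ^ 1) →+* Λ ⧸ b) := ⟨ZMod.castHom (ringChar.dvd (by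
    simpa only [pow_one, Nat.cast_ofNat] using z3)) _⟩
  obtain ⟨l1, l2⟩ := lev_MRCL (pow_ne_zero (n + 1) three_ne_zero) (pow_dvd_pow 3 (Nat.le_add_left 1 n))
  have ci : Z.c⁻¹ = Z.c := inv_eq_of_mul_eq_one_right h0.cj.sq
  have du : ∀ g ∈ GK, π (Z.th ε n (Z.c * g * Z.c)) * π (Z.th ε n g) = cj j g := fun g hg => by
    rw [cj, ← l1, map_natCast, ← map_mul, ← map_natCast π]
    exact Ideal.Quotient.eq.2 (hb (by simpa only [ci] using a3 _ h0.cj.nk g hg))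
  have van : ∀ ϖ, PP ϖ → ∀ x, Co (fun g => π (Z.th ε n g)) GK x → x (Z.K.τ ϖ) = 0 →
      ∀ g ∈ (Z.K.V ϖ).I, x g = 0 := fun ϖ hp x hx => by
    obtain ⟨c1, c2, c3, c4⟩ := ok.pk.tm ϖ hp
    have l3 : (Z.K.V ϖ).l ≠ 3 := fun e => c1.cop (pw_prime.coprime_iff_not_dvd.2 hp.2.pw).symm
      (Ov_three.1 (ov3_MRCL.2 e))
    obtain ⟨N, e1, e2⟩ := koch_unip (Λ ⧸ b) (z3 ▸ IsNilpotent.zero)
    exact ((TPR_ok 3 N _ _ ϖ _ _ _ Nat.prime_three l3 l3 hp.1 c1 c2 c3 c4 e1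
      (mu.monoK (Plc.D_le _)) fun g hg => e2 _ (by
        simpa only [map_sub, map_one] using nil _ (a1 g (Plc.D_le _ hg)).1)).1 x
        (hx.monoK (Plc.D_le _))).2.2
  obtain ⟨q2, qr, qp, -⟩ := B4 _ (ok.qp n) (ok.qd n)
  have t1 : ∀ g ∈ GK, Z.At n g = 0 → π (Z.th ε n g) = 1 := fun g hg e => by
    have c := (a1 g hg).2.1
    rw [Dt.ga, e, ZMod.val_zero, pow_zero] at c
    exact π1 (Ideal.mem_of_dvd _ c r1)
  have on : ∀ W : Plc, W.l ≠ Z.q n → ∀ τ ∈ W.I, π (Z.th ε n τ) = 1 := fun W e τ hτ =>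
    t1 τ (W.D_le (W.I_le hτ)) (ok.unr n W (mt (ovn_MRCL (ok.qp n)).1 e) τ hτ)
  have un : ∀ W : Plc, W.l ≠ 3 → ¬ W.l ∣ Z.r → W.l ≠ Z.q n → W.l ∉ Q → ∀ τ ∈ W.I,
      π (f τ) = 0 ∧ π (f' τ) = 0 := fun W w3 wr wq hW τ hτ => by
    have ru : τ ∈ Ru (3 * ∏ ϖ ∈ T, ϖ) := ⟨W, fun o => by
      obtain ⟨ϖ, p1, p2, -⟩ := PLK_ok.1 W
      have s1 := (PLK_ok.2.2.1 W ϖ p1 p2).1
      obtain ⟨a, ha, d⟩ := (p1.dvd_finsetProd_iff _).1
        ((s1 _).1 ((Ov_mul.1 o).resolve_left (mt ov3_MRCL.1 w3)))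
      have oa := (s1 _).2 d
      rcases hT a ha with h | rfl | ⟨l, hl, rfl⟩
      · exact wr ((PLK_ok.2.2.2.1 W _).1 (oa.dvd ((tr a).1 h).2))
      · exact wq ((ovn_MRCL (ok.qp n)).1 (oa.dvd (neg_dvd.2 dvd_rfl)))
      · exact hW ((ovn_MRCL (hQ l hl).1).1 (oa.dvd (neg_dvd.2 dvd_rfl)) ▸ hl), hτ⟩
    exact ⟨π0.2 (z.2 τ ru), π0.2 (z'.2 τ ru)⟩
  have co : ∀ x, Co (fun g => π (Z.th ε n g)) GK (fun g => π (x g)) → ∀ g ∈ V3.D,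
      π (x g) = ∑ a, π (cx Z x a) * cv (bs a g) := fun x hx g hg => by
    simpa only [map_sum, map_mul, cv, map_natCast] using
      Ideal.Quotient.eq.2 (C3 x (hx.monoK V3.D_le) g hg)
  obtain ⟨β, s1, s2⟩ := hS _ Z.c₃ (fun a => π (cx Z f a)) (fun a => π (cx Z f' a)) z3 h0.c3.1
    h0.c3.2
  have key := hR.choose_spec.2 _ j Z.c Z.c₃ _ _ _ _ (Z.r + Z.q n + Q.sup id) Q
    (fun l => Z.K.V (-l)) (fun l => Z.K.φ (-l)) (fun l => Z.K.τ (-l))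
    (fun l => ((km (3 ^ (n + 1)) (Z.K.τ (-l)) (Z.K.V (-l)).l)⁻¹.val : ℕ)) h0.cj h0.c3.1 h0.c3.2
    mu du z.1 z'.1 (fun g hg => π1 (C1 g hg)) (fun W h1 h2 => ⟨fun g hg => t1 g (W.D_le hg)
      (B1 W (.inr ⟨h2, by omega⟩) g hg), un W (by omega)
        (Nat.not_dvd_of_pos_of_lt (Nat.pos_of_ne_zero tw.sf.ne_zero) (by omega)) (by omega)
        fun h => by have : W.l ≤ Q.sup id := le_sup (f := id) h; omega⟩) (fun l hl => by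
      obtain ⟨c1, c2, c4⟩ := hQ l hl
      have c3 : 3 ^ 1 ∣ l + 1 := by omega
      obtain ⟨d1, d2, -⟩ := ok.pk.ine l c1 c2
      obtain ⟨e1, -, -, -, -, -, -, -, -, -, -, e2⟩ := hV.Y.INF.2.2 _ _ d2
      rw [d1] at e1
      obtain ⟨-, -, t0, t2⟩ := ok.pk.tm _ e1
      have l3 : (Z.K.V (-l)).l ≠ 3 := by omega
      have := l2 _ _ (Z.K.V (-l)).hl.out.ne_zero ((e2 _ (d1.symm ▸ c3)).1 _ (Plc.I_le _ t0))
        ((TAME_ok 3 (n + 1) _ Nat.prime_three l3 l3).2.2.2.1 _ t0 t2)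
      exact ⟨d1, d2, c3, t0, by simpa only [d1] using this, fun g hg => t1 g (Plc.D_le _ hg)
        (B1 _ (.inr ⟨d1.symm ▸ c2, d1.symm ▸ c4⟩) g hg)⟩)
    (fun W hW w3 => hV.LV _ 3 1 j Z.c _ _ _ W Nat.prime_three h0.cj mu du z.1 z'.1 (by
      by_cases wq : W.l = Z.q n
      · obtain ⟨d1, d2, -⟩ := ok.pk.ine _ (ok.qp n) q2
        exact .inr (.inr (.inl ⟨w3, _, _, d2, d1.trans wq.symm, fun τ hτ =>
          ⟨van _ qp _ z.1 (π0.2 hq.1) τ hτ, van _ qp _ z'.1 (π0.2 hq.2) τ hτ⟩⟩))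
      refine .inr (.inr (.inr ⟨w3, fun W' e τ hτ => ⟨on W' (e ▸ wq) τ hτ, ?_⟩⟩))
      by_cases wr : W.l ∣ Z.r
      · obtain ⟨ϖ, p1, p2, -, p3⟩ := PLK_ok.1 W'
        have pp := p3 (e ▸ w3)
        obtain ⟨s1, s2, s3, -⟩ := PLK_ok.2.2.1 W' ϖ p1 p2
        have o := (ok.pk.tm ϖ pp).1
        have hs : ϖ ∈ Sz Z.r := mem_filter.2 ⟨(tr ϖ).2
          ⟨pp, (s1 _).1 ((PLK_ok.2.2.2.1 W' _).2 (e ▸ wr))⟩, by
          rcases s3 with s | s | s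
          · exact s.2.1 ▸ W'.hl.out
          · exact (hW (r2 (mem_filter.2 ⟨Nat.mem_primeFactors.2
              ⟨W.hl.out, wr, tw.sf.ne_zero⟩, e ▸ s.1⟩))).elim
          · exact (w3 (e ▸ s.1)).elim⟩
        have cn := fun x hx h => (((CNJ_ok _ _).2 _ W' ϖ mu p1 o p2).1 x hx).2
          (on _ (((s2 _ o).1.trans e).symm ▸ wq)) (van ϖ pp x hx h) τ hτ
        exact ⟨cn _ z.1 (π0.2 (r3 ϖ hs).1), cn _ z'.1 (π0.2 (r3 ϖ hs).2)⟩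
      · exact un W' (e ▸ w3) (e ▸ wr) (e ▸ wq) (e ▸ hW) τ hτ))
    ⟨β, s1, fun g hg h hh => (congrArg (· - _) (congrArg₂ _ (co f z.1 _ ⟨mul_mem (mul_mem h0.c3.1
      hg.1) ((Dec _).inv_mem h0.c3.1), (Plc.cj_GK _ _).1 hg.2⟩) (co f' z'.1 h hh))).trans (s2 g hg h hh)⟩
  refine Ideal.Quotient.eq.1 (Eq.trans ?_ (key.trans ?_))
  · rw [map_sum]
    refine sum_congr rfl fun l hl => ?_
    simp only [trm_MRCL, Sum.elim_inr, map_mul, map_add, map_natCast,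
      (ok.pk.ine l (hQ l hl).1 (hQ l hl).2.1).2.2]
    ring
  · simp only [b4, cv, map_mul, map_add, map_sub, map_natCast, hπ]

theorem RCP_pf (hV : HV) (hC : COO_st) (hS : SYM_st) (hR : RCB_st) : RCP_st := by
  intro Λ _ _ Z ε ok
  have h0 := ok.toOk0
  have ck : Z.c * Z.c₃⁻¹ ∈ GK := GK_mul h0.cj.nk (mt GK.inv_mem_iff.1 h0.c3.2)
  refine ⟨Z.E.L fun n => cv hR.choose * Z.th ε n (Z.c * Z.c₃⁻¹),
    L_unit _ (.of_forall fun n h => ?_), fun P A x y f f' hp ad lc lc' rx ry hx hy hs => ?_⟩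
  · have h1 := Z.E.m.sub_mem h (Z.E.m.mul_mem_left (cv hR.choose)
      (((hV.THA Λ Z.toDt n h0.toOk).2.2.2.2.2.1 ε).2.2.1 _ ck).1)
    rw [mul_sub, sub_sub_cancel, mul_one] at h1
    have h2 := hR.choose_spec.1
    generalize hR.choose = e at h1 h2
    obtain rfl | rfl : e = 1 ∨ e = 2 := by clear h1; revert e; decide
    · exact Z.E.ne (by simpa [cv, ZMod.val_one] using h1)
    · exact Z.E.ne (by
        simpa [cv, show (2 : ZMod 3).val = 2 from rfl, show (3 : Λ) - 2 = 1 by norm_num] using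
          Z.E.m.sub_mem Z.E.three_mem h1)
  obtain ⟨⟨g1, -, -, g4, g2, g3, -⟩, g5, -, -, -, -, -, -, g6⟩ := hV.GER Λ Z h0
  obtain ⟨r1, -, -, -, r5, -⟩ := hV.ROW Λ Z ε h0
  have v1 := (hV.VAL Λ Z ε P A x f ok ad lc rx).1
  have v2 := (hV.VAL Λ Z ε P A y f' ok ad lc' ry).1
  have vl : ∀ j ∈ A, x j ∈ P ∧ y j ∈ P → ∀ k, ∀ᶠ n in uf,
      f n (Z.gj j n) ∈ P ⊔ Z.E.m ^ k ∧ f' n (Z.gj j n) ∈ P ⊔ Z.E.m ^ k := fun j hj h k =>
    ((Z.E.mem_iff P _).1 ((P.sub_mem_iff_right h.1).1 (rx.2 j hj)) k).and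
      ((Z.E.mem_iff P _).1 ((P.sub_mem_iff_right h.2).1 (ry.2 j hj)) k)
  obtain ⟨κ, a1, a2⟩ := lc
  obtain ⟨κ', b1, b2⟩ := lc'
  have tw := h0.tw ε
  obtain ⟨-, t2, -⟩ := hV.TRM Z.r tw.sf.ne_zero tw.n3
  have sA : Z.m0 ⊆ A := (subset_insert _ _).trans ad.1
  have nb : ∀ j ∈ A \ insert Z.qg (m1 ∪ Z.Sg), j ∉ Z.Bg → j ∉ insert Z.qg Z.m0 := fun j hj e c =>
    (mem_sdiff.1 hj).2 (by simpa only [g4, mem_insert, mem_union, e, or_false] using c)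
  have h1 := (Z.E.mem_iff P fun n => ∑ j ∈ A \ insert Z.qg (m1 ∪ Z.Sg),
      trm_MRCL Z ε n (f n) (f' n) (jn n j) - cv hR.choose * Z.th ε n (Z.c * Z.c₃⁻¹) *
        b4 (cx Z (f n)) (cx Z (f' n))).2 fun k => by
    filter_upwards [g5 A ad, tendsto_atTop.1 a1 k, tendsto_atTop.1 b1 k,
      vl _ (ad.1 (mem_insert_self _ _)) ⟨hx, hy⟩ k, (eventually_all_finset Z.Sg).2 fun j hj =>
      vl j (sA (g4 ▸ mem_union_left _ (mem_union_right _ hj))) (hs j hj) k] with n g c c' hq hS'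
    have B4 := (hV.THB Λ Z.toDt n h0.toOk).2.2.2.1
    have hQ : ∀ j ∈ A \ insert Z.qg (m1 ∪ Z.Sg), ∃ l : ℕ, jn n j = .inr (-l) ∧ l.Prime ∧
        l % 3 = 2 ∧ l ≠ Z.q n := fun j hj => by
      by_cases e : j ∈ Z.Bg
      · obtain ⟨ϖ, c1, rfl⟩ := mem_image.1 e
        obtain ⟨l, c2, rfl⟩ := (t2 ϖ).1 c1
        obtain ⟨c3, c4⟩ := mem_filter.1 c2
        exact ⟨l, g.cs _ (mem_filter.1 c1).1, Nat.prime_of_mem_primeFactors c3, c4, fun c =>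
          (B4 _ (h0.qp n) (h0.qd n)).2.1 (c ▸ Nat.dvd_of_mem_primeFactors c3)⟩
      · obtain ⟨l, c1, c2, c3, c4⟩ := g.aux j (mem_sdiff.1 hj).1 (nb j hj e)
        exact ⟨l, c1, c2, (B4 l c2 c3).1, c4⟩
    choose! lf hl hp' using hQ
    rw [sum_congr rfl fun j hj => congrArg _ (hl j hj), ← sum_image
      (f := fun l : ℕ => trm_MRCL Z ε n (f n) (f' n) (.inr (-l))) fun j hj j' hj' e =>
        g.inj (sdiff_subset hj) (sdiff_subset hj') (by rw [hl j hj, hl j' hj', e])]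
    refine lvl_PnRcp hV hC hS hR h0 ε (Z.E.le_sup P (c.trans (a2 n).1)) (Ideal.mem_sup_left hp)
      ((a2 n).2.mono le_rfl (Z.E.sup_le P c)) ((b2 n).2.mono le_rfl (Z.E.sup_le P c'))
      (fun ϖ h => ?_) (forall_mem_image.2 hp')
      (by simpa only [Mx.gj, g.q, Mx.gen, Sum.elim_inr] using hq) (fun l h => ?_) fun ϖ h => by
        simpa only [Mx.gj, g.cs _ (mem_filter.1 h).1, Mx.gen, Sum.elim_inr] using
          hS' _ (mem_image_of_mem cs h)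
    · obtain ⟨a, ha, rfl⟩ := mem_image.1 h
      have e : jn n (.inr a) = .inr (sq a n) := rfl
      by_cases c : Sum.inr a ∈ insert Z.qg Z.m0
      · rcases mem_insert.1 c with c | c
        · exact .inr (.inl (Sum.inr_injective (e.symm.trans (c ▸ g.q))))
        · obtain ⟨ϖ, h1, h2⟩ := mem_image.1 ((mem_union.1 c).resolve_left (by simp [m1]))
          exact .inl (Sum.inr_injective (e.symm.trans (h2 ▸ g.cs ϖ h1)) ▸ h1)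
      · have := mem_sdiff.2 ⟨mem_toRight.1 ha, fun d => c
          (insert_subset_insert _ (g4 ▸ subset_union_left) d)⟩
        exact .inr (.inr ⟨_, mem_image_of_mem _ this,
          Sum.inr_injective (e.symm.trans (hl _ this))⟩)
    · have h1 := (t2 _).2 ⟨l, h, rfl⟩
      have hj := mem_image_of_mem cs h1
      have c : cs (-(l : Zw)) ∈ Z.m0 := g4 ▸ mem_union_right _ hj
      have h2 : _ ∈ A \ insert Z.qg (m1 ∪ Z.Sg) := mem_sdiff.2 ⟨sA c, fun e => (mem_insert.1 e).elim (fun e => g1 (e ▸ c)) fun e =>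
        (mem_union.1 e).elim (fun e => disjoint_left.1 g2 e (mem_union_right _ hj))
          fun e => disjoint_left.1 g3 e hj⟩
      exact mem_image.2 ⟨_, h2, Nat.cast_injective (neg_injective (Sum.inr_injective
        ((hl _ h2).symm.trans (g.cs _ (mem_filter.1 h1).1))))⟩
  have fc : ∀ (x : JJ →₀ Λ) (f : ℕ → GQ → Λ), (∀ g, Inc GK g → ev (Z.fm ε g) x - Z.E.ev f g ∈ P) →
      ∀ a, Ideal.Quotient.mk P (Z.E.L fun n => cx Z (f n) a) =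
        Ideal.Quotient.mk P (ev (Fc Z ε a) x) := fun x f h a => by
    simp only [cx, Fc, Fin.sum_univ_four, ev_add, ev_smul, Z.E.L_add, Z.E.L_mul, Z.E.const,
      map_add, map_mul, Ideal.Quotient.eq.2 (h (fun _ => Z.y _) fun _ => V3.D_le (h0.yD _)), Lm.ev]
  rw [Z.E.L_sub, Z.E.L_mul, Z.E.L_sum, ← Ideal.Quotient.eq] at h1
  refine Ideal.Quotient.eq.1 (Eq.trans ?_ (h1.trans ?_))
  · rw [rsum, map_sum, map_sum]
    refine sum_congr rfl fun j hj => ?_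
    have e : (Z.E.L fun n => trm_MRCL Z ε n (f n) (f' n) (jn n j)) = Z.u ε j *
        (Z.E.ev f (Z.sg j) * Z.E.ev f' (Z.gj j) + Z.E.ev f (Z.gj j) * Z.E.ev f' (Z.sg j)) := by
      cases j
      · exact (map_zero _).trans (zero_mul _).symm
      · simp only [Lm.ev, Mx.u, Sum.elim_inr, ← Z.E.L_mul, ← Z.E.L_add]
        rfl
    have hw : ∀ z : JJ →₀ Λ, ev (Z.w ε j) z - ev (Z.fm ε (Z.sg j)) z ∈ P := fun z => by
      by_cases e : j ∈ Z.Bg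
      · obtain ⟨c1, -, c, c2⟩ := r5 j e
        rw [c1, c2, ev_add, ev_smul, add_sub_cancel_left, mul_assoc]
        exact P.mul_mem_right _ hp
      · rw [(r1 j (.inl (ad.2 j (mem_sdiff.1 hj).1 (nb j hj e)))).1, sub_self]
        exact P.zero_mem
    simp only [e, map_mul, map_add, Ideal.Quotient.eq.2 (hw _), Ideal.Quotient.eq.2 (v1 _ (g6 j).2),
      Ideal.Quotient.eq.2 (v2 _ (g6 j).2), Ideal.Quotient.eq.2 (rx.2 j (sdiff_subset hj)),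
      Ideal.Quotient.eq.2 (ry.2 j (sdiff_subset hj))]
  · simp only [b4, V.bt, Z.E.L_sub, Z.E.L_add, Z.E.L_mul, map_mul, map_add, map_sub, fc x f v1,
      fc y f' v2]

end Pool.Agent.MP_e23604_nt.PH
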