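import Pool.Agent.Mg.Fe23604m.G2b48a5
import Pool.Agent.Mg.Fe23604m.Gae6662
import Pool.Agent.Mg.Fe23604m.G2a43d5
import Pool.Agent.Mg.Fe23604m.G579f33
import Pool.Agent.Mg.Fe23604m.G021df8
import Pool.Agent.Mg.Fe23604m.G53d222
import Pool.Agent.Mg.Fe23604m.Ge5a4fc
import Pool.Agent.Mg.Fe23604m.Gcae21c
import Pool.Agent.Mg.Fe23604m.G703631
import Pool.Agent.Mg.Fe23604m.G438380
import Pool.Agent.Mg.Fe23604m.G2941fd
import Pool.Agent.Mg.Fe23604m.G9cf232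
import Pool.Agent.Mg.Fe23604m.G314fc8

set_option linter.all false

/-!
The statements on the pencil hold.
-/

set_option autoImplicit false

namespace Pool.Agent.MP_e23604_nt.PH

theorem LK9_ok : LK9_st := LK9_pf X.KW_pf X.KPI_pf X.UN3_ok

theorem LKP_ok : LKP_st := LKP_pf LK9_ok

theorem HV_ok : HV :=
  ⟨V.HY_ok, V.TRM_ok, V.THA_ok, V.THB_ok, V.GER_ok, V.ROW_ok, V.VAL_ok, V.LOA_ok, V.LOK_ok,
    V.LV_ok, V.EXS_ok, V.RCL_ok, V.CHA_ok, V.CHL_ok, V.SYR_ok, V.CLG_ok, V.CLC_ok, V.BA2_ok,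
    V.BAS_ok, X.KW_pf, X.KPI_pf, X.UN3_ok, X.IND_ok, X.DL_ok, LKP_ok⟩

theorem KUM_ok : KUM_st := KUM_pf HV_ok

theorem KLR_ok : KLR_st := KLR_pf HV_ok KUM_ok

theorem COO_ok : COO_st := COO_pf HV_ok

theorem PNS_ok : PNS_st :=
  PNS_pf HV_ok (EXC_pf HV_ok COO_ok) (RCP_pf HV_ok COO_ok SYM_pf (RCB_pf HV_ok))

theorem CQP_ok : CQP_st := CQP_pf HV_ok COO_ok KLR_ok

theorem CQR_ok : CQR_st := CQR_pf HV_ok

theorem RESP_ok : RESP_st :=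
  RESP_pf HV_ok PNS_ok CQP_ok CQR_ok (PCL_pf HV_ok) (RWS_pf HV_ok COO_ok KLR_ok)
    (BAP_pf HV_ok CQP_ok CQR_ok (BAD_pf HV_ok CQR_ok) (PCL_pf HV_ok)) (RDP_pf HV_ok)

end Pool.Agent.MP_e23604_nt.PH
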