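import Pool.Agent.Mg.Fe23604m.G1205d4
import Pool.Agent.Mg.Fe23604m.G5e4eff
import Pool.Agent.Mg.Fe23604m.G321a53
import Pool.Agent.Mg.Fe23604m.Gc2fc89
import Pool.Agent.Mg.Fe23604m.Gf35d07
import Pool.Agent.Mg.Fe23604m.Gdf2278

set_option linter.all false

/-!
The three systems: the bottom points have infinite order.
-/

set_option autoImplicit false

namespace Pool.Agent.MP_e23604_nt.PH

theorem PCS_ok : PCS_st :=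
  PCS_pf N.G.KS2_ok N.G.RED_ok N.G.SPL2_ok N.G.BSE2_ok N.G.CM_ok KUM_ok LKP_ok

theorem ENDP_ok : ENDP_st :=
  ENDP_of V.LMX_ok (V.LB_pf V.HY_ok) V.MXE_ok V.MACH0_ok X.DAT_ok RESP_ok PCS_ok

theorem heegP_of (hT : Un.NTL_st) (h : N.G.HGJ_st ∧ N.G.HSJ_st ∧ N.G.LIN_st) (D v m : ℕ)
    (hD : ∀ j, W.Nice (3 ^ j * D) ∧ W.Nice (3 ^ j * D ^ 2)) (hp : par3 D = 1)
    (e : D = 3 ^ v * m) (hm : ¬ 3 ∣ m) (hv : v % 3 ≠ 0) : X.Heeg D :=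
  heegP (TRI_of RZ_pf h.1 h.2.1 h.2.2 ((Un.HSN_of Un.NON_pf hT X.KIT_ok 0).imp fun _ a =>
    ⟨a.1, a.2.2.2⟩)) ENDP_ok X.YHS_pf X.FACN_pf X.NHB_pf X.KW_pf hD hp e hm hv

end Pool.Agent.MP_e23604_nt.PH
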