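import Pool.Agent.Mg.Fe23604m.G104dcb
import Pool.Agent.Mg.Fe23604m.Ge4cc4e
import Pool.Agent.Mg.Fe23604m.G651d65
import Pool.Agent.MP_2a1f0e_nt.Div

set_option linter.all false

section

/-!
The step `CGeo2`.
-/

open Finset
open scoped Classical

noncomputable section

namespace Pool.Agent.MP_e23604_nt.U

open P (lam shp gg PW cW Rough WW ES mu flat tau NN)

namespace KGeo2J

/-- The two coefficients may be exchanged. -/
theorem bal_swap {N K0 D V X Y : ℕ} {U ρ : ℝ} {α β : ℤ → ℤ} {u u' : ℤ}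
    (h : Bal N K0 D V Y X U ρ β α u u') : Bal N K0 D V X Y U ρ α β u u' := by
  obtain ⟨h1, h2, h3, h4⟩ := h
  have e : α u * β u' - α u' * β u = -(β u * α u' - β u' * α u) := by ring
  refine ⟨?_, ?_, ?_, ?_⟩
  · rw [e]; exact (neg_dvd).2 h1
  · rw [e, Int.natAbs_neg]; exact h2
  · rw [e, Int.cast_neg, abs_neg]; exact h4
  · rw [e, Int.cast_neg, abs_neg]; exact h3

/-- A family whose first coefficient is a multiple of the square of the parameter. -/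
theorem balB {N K0 D V X Y M : ℕ} {U ρ : ℝ} {a b u u' : ℤ} (hu : u ∈ Ioc (V : ℤ) (2 * V))
    (hu' : u' ∈ Ioc (V : ℤ) (2 * V)) (hd : a * b ∣ (D : ℤ)) (hK : K0 ≤ M) (h4 : 4 ≤ M)
    (hV : V ≤ M) (hab : (a * b).natAbs ≤ M ^ 5) (hN : M ^ 45 ≤ N) (hρ : 0 ≤ ρ) (hU : 0 ≤ U)
    (h1 : U ≤ ρ * X * (V : ℝ) ^ 2 * |(a : ℝ)|) (h2 : 2 * U ≤ ρ * Y * |(b : ℝ)|) :
    Bal N K0 D V X Y U ρ (fun t => a * t ^ 2) (fun _ => b) u u' := by
  obtain ⟨u1, u2⟩ := mem_Ioc.1 hu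
  obtain ⟨u3, u4⟩ := mem_Ioc.1 hu'
  have hV0 : (0 : ℤ) ≤ V := Int.natCast_nonneg _
  have e : a * u ^ 2 * b - a * u' ^ 2 * b = a * b * (u - u') * (u + u') := by ring
  have r1 : (V : ℝ) < u := by exact_mod_cast u1
  have r3 : (V : ℝ) < u' := by exact_mod_cast u3
  have r4 : (u' : ℝ) ≤ 2 * V := by exact_mod_cast u4
  have rV : (0 : ℝ) ≤ V := Nat.cast_nonneg _
  have rX : (0 : ℝ) ≤ X := Nat.cast_nonneg _
  have rY : (0 : ℝ) ≤ Y := Nat.cast_nonneg _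
  have ed : |((a * b * (u - u') * (u + u') : ℤ) : ℝ)| =
      |(a : ℝ)| * |(b : ℝ)| * |(u : ℝ) - u'| * ((u : ℝ) + u') := by
    push_cast
    rw [abs_mul, abs_mul, abs_mul, abs_of_nonneg (show (0 : ℝ) ≤ u + u' by linarith)]
  have ha : 0 ≤ |(a : ℝ)| := abs_nonneg _
  have hb : 0 ≤ |(b : ℝ)| := abs_nonneg _
  have hw : 0 ≤ |(u : ℝ) - u'| := abs_nonneg _
  refine ⟨?_, ?_, ?_, ?_⟩
  · show a * u ^ 2 * b - a * u' ^ 2 * b ∣ _
    rw [e]
    exact mul_dvd_mul_right (mul_dvd_mul_right hd _) _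
  · show (K0 * (a * u ^ 2 * b - a * u' ^ 2 * b).natAbs) ^ 5 ≤ N
    rw [e, Int.natAbs_mul, Int.natAbs_mul]
    have g1 : (u - u').natAbs ≤ M := by omega
    have g2 : (u + u').natAbs ≤ M * M := by
      have : (u + u').natAbs ≤ 4 * V := by omega
      exact this.trans (Nat.mul_le_mul h4 hV)
    calc (K0 * ((a * b).natAbs * (u - u').natAbs * (u + u').natAbs)) ^ 5
        ≤ (M * (M ^ 5 * M * (M * M))) ^ 5 :=
          Nat.pow_le_pow_left (Nat.mul_le_mul hK (Nat.mul_le_mul (Nat.mul_le_mul hab g1) g2)) 5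
      _ = M ^ 45 := by ring
      _ ≤ N := hN
  · show U * |(b : ℝ)| * |(u : ℝ) - u'| ≤
      ρ * X * V * |((a * u ^ 2 * b - a * u' ^ 2 * b : ℤ) : ℝ)|
    rw [e, ed]
    calc U * |(b : ℝ)| * |(u : ℝ) - u'|
        ≤ (ρ * X * (V : ℝ) ^ 2 * |(a : ℝ)|) * |(b : ℝ)| * |(u : ℝ) - u'| := by gcongr
      _ = ρ * X * V * (|(a : ℝ)| * |(b : ℝ)| * |(u : ℝ) - u'| * V) := by ring
      _ ≤ _ := by gcongr; linarith
  · show U * |((a * u' ^ 2 : ℤ) : ℝ)| * |(u : ℝ) - u'| ≤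
      ρ * Y * V * |((a * u ^ 2 * b - a * u' ^ 2 * b : ℤ) : ℝ)|
    rw [e, ed]
    have e2 : |((a * u' ^ 2 : ℤ) : ℝ)| = |(a : ℝ)| * (u' : ℝ) ^ 2 := by
      push_cast
      rw [abs_mul, abs_of_nonneg (sq_nonneg (u' : ℝ))]
    have g : (u' : ℝ) ^ 2 ≤ 2 * (V * ((u : ℝ) + u')) := by nlinarith
    have g0 : (0 : ℝ) ≤ V * ((u : ℝ) + u') := mul_nonneg rV (by linarith)
    rw [e2]
    calc U * (|(a : ℝ)| * (u' : ℝ) ^ 2) * |(u : ℝ) - u'|
        ≤ U * (|(a : ℝ)| * (2 * (V * ((u : ℝ) + u')))) * |(u : ℝ) - u'| := by gcongr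
      _ = 2 * U * (|(a : ℝ)| * (V * ((u : ℝ) + u')) * |(u : ℝ) - u'|) := by ring
      _ ≤ ρ * Y * |(b : ℝ)| * (|(a : ℝ)| * (V * ((u : ℝ) + u')) * |(u : ℝ) - u'|) := by gcongr
      _ = _ := by ring

variable {X : Fin 10 → ℕ} {Z : ℕ} {v : V10}

theorem dvd_DD (v : V10) {i j k : Fin 10} (hik : i ≠ k) (hjk : j ≠ k) {s t : ℤ}
    (hst : s * t ∣ 4) : s * v i * (t * (v j * v k ^ 2)) ∣ (DD v : ℤ) := by
  have two : ∀ a b : Fin 10, a ≠ b → v a * v b ∣ ∏ c, v c := fun a b hab => by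
    rw [← prod_pair hab]
    exact prod_dvd_prod_of_subset _ _ _ (subset_univ _)
  have e : (DD v : ℤ) = 4 * ((∏ c, v c) * ∏ c, v c) := by
    have h1 : (∏ c, (v c).natAbs) = (∏ c, v c).natAbs := by
      rw [← Int.natAbsHom_apply, map_prod]
      rfl
    unfold DD
    rw [h1]
    push_cast
    rw [mul_pow, sq_abs]
    ring
  rw [e, show s * v i * (t * (v j * v k ^ 2)) = s * t * (v i * v k * (v j * v k)) by ring]
  exact mul_dvd_mul hst (mul_dvd_mul (two _ _ hik) (two _ _ hjk))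

/-- The shape common to the five targets. -/
theorem core (hv : v ∈ Box X) {i j k p x y : Fin 10} (hik : i ≠ k) (hjk : j ≠ k) {s t : ℤ}
    (hst : s * t ∣ 4) {N K0 M : ℕ} {U : ℝ} {u u' : ℤ} (hu : u ∈ Ioc (X p : ℤ) (2 * X p))
    (hu' : u' ∈ Ioc (X p : ℤ) (2 * X p)) (hK : K0 ≤ M) (h4 : 4 ≤ M) (hp : 2 * X p ≤ M)
    (hi : 2 * X i ≤ M) (hj : 2 * X j ≤ M) (hk : 2 * X k ≤ M) (hN : M ^ 45 ≤ N) (hU : 0 ≤ U)
    (h1 : U ≤ 2 ^ 40 * (|(s : ℝ)| * (X x * (X i * (X p : ℝ) ^ 2))))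
    (h2 : 2 * U ≤ 2 ^ 40 * (|(t : ℝ)| * (X y * (X j * (X k : ℝ) ^ 2)))) :
    Bal N K0 (DD v) (X p) (X x) (X y) U (2 ^ 40) (fun w => s * v i * w ^ 2)
      (fun _ => t * (v j * v k ^ 2)) u u' := by
  have nat : ∀ c, 2 * X c ≤ M → (v c).natAbs ≤ M := fun c hc => by
    have := DSep.lo hv c
    have := DSep.hi hv c
    omega
  have rl : ∀ c, (X c : ℝ) ≤ v c := fun c => by exact_mod_cast (DSep.lo hv c).le
  have r0 : ∀ c, (0 : ℝ) ≤ v c := fun c => (Nat.cast_nonneg _).trans (rl c)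
  refine balB hu hu' (dvd_DD v hik hjk hst) hK h4 (by omega) ?_ hN (by positivity) hU ?_ ?_
  · have g : (s * t).natAbs ≤ M := by
      have := Int.natAbs_dvd_natAbs.2 hst
      exact (Nat.le_of_dvd (by norm_num) this).trans h4
    rw [show s * v i * (t * (v j * v k ^ 2)) = s * t * (v i * v k * (v j * v k)) by ring,
      Int.natAbs_mul, Int.natAbs_mul (v i * v k), Int.natAbs_mul (v i), Int.natAbs_mul (v j)]
    calc _ ≤ M * (M * M * (M * M)) :=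
          Nat.mul_le_mul g (Nat.mul_le_mul (Nat.mul_le_mul (nat i hi) (nat k hk))
            (Nat.mul_le_mul (nat j hj) (nat k hk)))
      _ = M ^ 5 := by ring
  · push_cast
    rw [abs_mul, abs_of_nonneg (r0 i)]
    have := rl i
    calc U ≤ 2 ^ 40 * (|(s : ℝ)| * (X x * (X i * (X p : ℝ) ^ 2))) := h1
      _ ≤ 2 ^ 40 * (|(s : ℝ)| * (X x * (v i * (X p : ℝ) ^ 2))) := by gcongr
      _ = _ := by ring
  · push_cast
    rw [abs_mul, abs_of_nonneg (mul_nonneg (r0 j) (sq_nonneg _))]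
    have := rl j
    have := rl k
    have := r0 j
    calc 2 * U ≤ 2 ^ 40 * (|(t : ℝ)| * (X y * (X j * (X k : ℝ) ^ 2))) := h2
      _ ≤ 2 ^ 40 * (|(t : ℝ)| * (X y * (v j * (v k : ℝ) ^ 2))) := by gcongr
      _ = _ := by ring

/-- The bound for the sides at the first level. -/
theorem lvl0 (h : Reg X Z) (hz : Sz X Z) {K0 : ℕ} (hK : K0 ≤ Z ^ 10) :
    K0 ≤ X 2 ^ 3 ∧ 4 ≤ X 2 ^ 3 ∧ (X 2 ^ 3) ^ 45 ≤ X 0 ∧
      ∀ i : Fin 10, 2 ≤ i.val → 2 * X i ≤ X 2 ^ 3 := by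
  have h2 : 4 ≤ X 2 := le_trans (by norm_num) ((DSep.big7 h).trans (DSep.x7_x2 h))
  have h3 : X 2 ≤ X 2 ^ 3 := Nat.le_self_pow (by norm_num) _
  have h7 : X 7 ^ 12 ≤ X 2 := DSep.x7_pow h 12 (by norm_num)
  have hsq : X 2 ≤ X 2 * X 2 := Nat.le_mul_of_pos_right _ (by omega)
  have key : ∀ n : ℕ, n ≤ X 2 * X 2 → 2 * n ≤ X 2 ^ 3 := fun n hn => by
    calc 2 * n ≤ X 2 * (X 2 * X 2) := Nat.mul_le_mul (by omega) hn
      _ = X 2 ^ 3 := by ring
  refine ⟨?_, h2.trans h3, ?_, fun i hi => ?_⟩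
  · exact hK.trans (((Nat.pow_le_pow_right (DSep.zpos h) (by norm_num)).trans (hz.z 2)).trans h3)
  · rw [← pow_mul]
    exact DSep.x2_pow h _ (by norm_num)
  · by_cases h4 : 4 ≤ i.val
    · exact key _ (((hz.lo i h4).trans h7).trans hsq)
    · have : i = 2 ∨ i = 3 := by
        rcases (by omega : i.val = 2 ∨ i.val = 3) with e | e
        · exact Or.inl (Fin.ext e)
        · exact Or.inr (Fin.ext e)
      rcases this with rfl | rfl
      · exact key _ hsq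
      · exact key _ ((DSep.x3_x2 h).trans (Nat.mul_le_mul le_rfl h7))

/-- The bound for the sides at the second level. -/
theorem lvl1 (h : Reg X Z) (hz : Sz X Z) {K0 : ℕ} (hK : K0 ≤ Z ^ 10) :
    K0 ≤ X 7 ^ 13 ∧ 4 ≤ X 7 ^ 13 ∧ (X 7 ^ 13) ^ 45 ≤ X 2 ∧
      ∀ i : Fin 10, 4 ≤ i.val → 2 * X i ≤ X 7 ^ 13 := by
  have h2 : 4 ≤ X 7 := le_trans (by norm_num) (DSep.big7 h)
  have h3 : X 7 ≤ X 7 ^ 13 := Nat.le_self_pow (by norm_num) _
  refine ⟨?_, h2.trans h3, ?_, fun i hi => ?_⟩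
  · exact hK.trans (((Nat.pow_le_pow_right (DSep.zpos h) (by norm_num)).trans (hz.z 7)).trans h3)
  · rw [← pow_mul]
    exact DSep.x7_pow h _ (by norm_num)
  · calc 2 * X i ≤ X 7 * X 7 ^ 12 := Nat.mul_le_mul (by omega) (hz.lo i hi)
      _ = X 7 ^ 13 := by ring

theorem uu6 (X : Fin 10 → ℕ) : UU X 6 =
    16 * ((X 0 : ℝ) * X 2 * (X 6 : ℝ) ^ 2 + 4 * ((X 3 : ℝ) * X 1 * (X 9 : ℝ) ^ 2)) := by
  show 16 * (|(((X 2 : ℤ) * (X 6 : ℤ) ^ 2 : ℤ) : ℝ)| * X 0 +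
    |((-(4 * (X 3 : ℤ) * (X 9 : ℤ) ^ 2) : ℤ) : ℝ)| * X 1) = _
  push_cast
  rw [abs_neg, abs_of_nonneg (by positivity), abs_of_nonneg (by positivity)]
  ring

theorem uu7 (X : Fin 10 → ℕ) : UU X 7 =
    16 * ((X 0 : ℝ) * X 3 * (X 7 : ℝ) ^ 2 + 4 * ((X 2 : ℝ) * X 1 * (X 8 : ℝ) ^ 2)) := by
  show 16 * (|((-((X 3 : ℤ) * (X 7 : ℤ) ^ 2) : ℤ) : ℝ)| * X 0 +
    |((4 * (X 2 : ℤ) * (X 8 : ℤ) ^ 2 : ℤ) : ℝ)| * X 1) = _
  push_cast
  rw [abs_neg, abs_of_nonneg (by positivity), abs_of_nonneg (by positivity)]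
  ring

theorem uu10 (X : Fin 10 → ℕ) : UU X 10 =
    16 * ((X 0 : ℝ) * X 4 * (X 6 : ℝ) ^ 2 + 4 * ((X 5 : ℝ) * X 1 * (X 8 : ℝ) ^ 2)) := by
  show 16 * (|(((X 4 : ℤ) * (X 6 : ℤ) ^ 2 : ℤ) : ℝ)| * X 0 +
    |((-(4 * (X 5 : ℤ) * (X 8 : ℤ) ^ 2) : ℤ) : ℝ)| * X 1) = _
  push_cast
  rw [abs_neg, abs_of_nonneg (by positivity), abs_of_nonneg (by positivity)]
  ring

theorem uu3 (X : Fin 10 → ℕ) : UU X 3 =
    16 * ((X 2 : ℝ) * X 5 * (X 8 : ℝ) ^ 2 + (X 4 : ℝ) * X 3 * (X 9 : ℝ) ^ 2) := by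
  show 16 * (|(((X 5 : ℤ) * (X 8 : ℤ) ^ 2 : ℤ) : ℝ)| * X 2 +
    |((-((X 4 : ℤ) * (X 9 : ℤ) ^ 2) : ℤ) : ℝ)| * X 3) = _
  push_cast
  rw [abs_neg, abs_of_nonneg (by positivity), abs_of_nonneg (by positivity)]
  ring

theorem uu2 (X : Fin 10 → ℕ) : UU X 2 =
    16 * ((X 2 : ℝ) * X 4 * (X 6 : ℝ) ^ 2 + (X 5 : ℝ) * X 3 * (X 7 : ℝ) ^ 2) := by
  show 16 * (|(((X 4 : ℤ) * (X 6 : ℤ) ^ 2 : ℤ) : ℝ)| * X 2 +
    |((-((X 5 : ℤ) * (X 7 : ℤ) ^ 2) : ℤ) : ℝ)| * X 3) = _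
  push_cast
  rw [abs_neg, abs_of_nonneg (by positivity), abs_of_nonneg (by positivity)]
  ring

end KGeo2J

open KGeo2J in
theorem CGeo2_pf (hSz : CSz) : CGeo2 := by
  intro X Z h p hp v hv u hu u' hu' _ K0 hK
  have hz := hSz.sz X Z h
  obtain ⟨a1, a2, a3, a4⟩ := lvl0 h hz hK
  obtain ⟨c1, c2, c3, c4⟩ := lvl1 h hz hK
  simp only [RT, mem_insert, mem_singleton] at hp
  rcases hp with rfl | rfl | rfl | rfl | rfl
  · have e : (X 0 : ℝ) * X 2 * (X 6 : ℝ) ^ 2 = 16384 * ((X 3 : ℝ) * X 1 * (X 9 : ℝ) ^ 2) := by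
      exact_mod_cast DSep.e6 h
    have g : (0 : ℝ) ≤ (X 3 : ℝ) * X 1 * (X 9 : ℝ) ^ 2 := by positivity
    have f1 : (fun w => al 0 6 (Function.update v 9 w)) = fun _ => 1 * (v 2 * v 6 ^ 2) := by
      funext w
      show Function.update v 9 w 2 * Function.update v 9 w 6 ^ 2 = _
      simp
    have f2 : (fun w => be 0 6 (Function.update v 9 w)) = fun w => -4 * v 3 * w ^ 2 := by
      funext w
      show -(4 * Function.update v 9 w 3 * Function.update v 9 w 9 ^ 2) = _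
      simp
    show Bal (X 0) K0 (DD v) (X 9) (X 0) (X 1) (UU X 6) (2 ^ 40)
      (fun w => al 0 6 (Function.update v 9 w)) (fun w => be 0 6 (Function.update v 9 w)) u u'
    rw [f1, f2, uu6]
    refine bal_swap (core hv (by decide) (by decide) (by norm_num) hu hu' a1 a2 (a4 _ (by decide))
      (a4 _ (by decide)) (a4 _ (by decide)) (a4 _ (by decide)) a3 (by positivity) ?_ ?_)
    · norm_num
      linarith
    · norm_num
      linarith
  · have e : (X 2 : ℝ) * X 1 * (X 8 : ℝ) ^ 2 = 1024 * ((X 0 : ℝ) * X 3 * (X 7 : ℝ) ^ 2) := by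
      exact_mod_cast DSep.e7 h
    have g : (0 : ℝ) ≤ (X 0 : ℝ) * X 3 * (X 7 : ℝ) ^ 2 := by positivity
    have f1 : (fun w => al 0 7 (Function.update v 7 w)) = fun w => -1 * v 3 * w ^ 2 := by
      funext w
      show -(Function.update v 7 w 3 * Function.update v 7 w 7 ^ 2) = _
      simp
    have f2 : (fun w => be 0 7 (Function.update v 7 w)) = fun _ => 4 * (v 2 * v 8 ^ 2) := by
      funext w
      show 4 * Function.update v 7 w 2 * Function.update v 7 w 8 ^ 2 = _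
      simp [mul_assoc]
    show Bal (X 0) K0 (DD v) (X 7) (X 0) (X 1) (UU X 7) (2 ^ 40)
      (fun w => al 0 7 (Function.update v 7 w)) (fun w => be 0 7 (Function.update v 7 w)) u u'
    rw [f1, f2, uu7]
    refine core hv (by decide) (by decide) (by norm_num) hu hu' a1 a2 (a4 _ (by decide))
      (a4 _ (by decide)) (a4 _ (by decide)) (a4 _ (by decide)) a3 (by positivity) ?_ ?_
    · norm_num
      linarith
    · norm_num
      linarith
  · have e : (X 0 : ℝ) * X 4 * (X 6 : ℝ) ^ 2 = 256 * ((X 5 : ℝ) * X 1 * (X 8 : ℝ) ^ 2) := by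
      exact_mod_cast h.b1
    have g : (0 : ℝ) ≤ (X 5 : ℝ) * X 1 * (X 8 : ℝ) ^ 2 := by positivity
    have f1 : (fun w => al 0 10 (Function.update v 6 w)) = fun w => 1 * v 4 * w ^ 2 := by
      funext w
      show Function.update v 6 w 4 * Function.update v 6 w 6 ^ 2 = _
      simp
    have f2 : (fun w => be 0 10 (Function.update v 6 w)) = fun _ => -4 * (v 5 * v 8 ^ 2) := by
      funext w
      show -(4 * Function.update v 6 w 5 * Function.update v 6 w 8 ^ 2) = _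
      simp [mul_assoc]
    show Bal (X 0) K0 (DD v) (X 6) (X 0) (X 1) (UU X 10) (2 ^ 40)
      (fun w => al 0 10 (Function.update v 6 w)) (fun w => be 0 10 (Function.update v 6 w)) u u'
    rw [f1, f2, uu10]
    refine core hv (by decide) (by decide) (by norm_num) hu hu' a1 a2 (a4 _ (by decide))
      (a4 _ (by decide)) (a4 _ (by decide)) (a4 _ (by decide)) a3 (by positivity) ?_ ?_
    · norm_num
      linarith
    · norm_num
      linarith
  · have e : (X 2 : ℝ) * X 5 * (X 8 : ℝ) ^ 2 = 64 * ((X 4 : ℝ) * X 3 * (X 9 : ℝ) ^ 2) := by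
      exact_mod_cast h.b2
    have g : (0 : ℝ) ≤ (X 4 : ℝ) * X 3 * (X 9 : ℝ) ^ 2 := by positivity
    have f1 : (fun w => al 1 3 (Function.update v 8 w)) = fun w => 1 * v 5 * w ^ 2 := by
      funext w
      show Function.update v 8 w 5 * Function.update v 8 w 8 ^ 2 = _
      simp
    have f2 : (fun w => be 1 3 (Function.update v 8 w)) = fun _ => -1 * (v 4 * v 9 ^ 2) := by
      funext w
      show -(Function.update v 8 w 4 * Function.update v 8 w 9 ^ 2) = _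
      simp
    show Bal (X 2) K0 (DD v) (X 8) (X 2) (X 3) (UU X 3) (2 ^ 40)
      (fun w => al 1 3 (Function.update v 8 w)) (fun w => be 1 3 (Function.update v 8 w)) u u'
    rw [f1, f2, uu3]
    refine core hv (by decide) (by decide) (by norm_num) hu hu' c1 c2 (c4 _ (by decide))
      (c4 _ (by decide)) (c4 _ (by decide)) (c4 _ (by decide)) c3 (by positivity) ?_ ?_
    · norm_num
      linarith
    · norm_num
      linarith
  · have e : (X 2 : ℝ) * X 4 * (X 6 : ℝ) ^ 2 = 262144 * ((X 5 : ℝ) * X 3 * (X 7 : ℝ) ^ 2) := by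
      exact_mod_cast DSep.e2 h
    have g : (0 : ℝ) ≤ (X 5 : ℝ) * X 3 * (X 7 : ℝ) ^ 2 := by positivity
    have f1 : (fun w => al 1 2 (Function.update v 6 w)) = fun w => 1 * v 4 * w ^ 2 := by
      funext w
      show Function.update v 6 w 4 * Function.update v 6 w 6 ^ 2 = _
      simp
    have f2 : (fun w => be 1 2 (Function.update v 6 w)) = fun _ => -1 * (v 5 * v 7 ^ 2) := by
      funext w
      show -(Function.update v 6 w 5 * Function.update v 6 w 7 ^ 2) = _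
      simp
    show Bal (X 2) K0 (DD v) (X 6) (X 2) (X 3) (UU X 2) (2 ^ 40)
      (fun w => al 1 2 (Function.update v 6 w)) (fun w => be 1 2 (Function.update v 6 w)) u u'
    rw [f1, f2, uu2]
    refine core hv (by decide) (by decide) (by norm_num) hu hu' c1 c2 (c4 _ (by decide))
      (c4 _ (by decide)) (c4 _ (by decide)) (c4 _ (by decide)) c3 (by positivity) ?_ ?_
    · norm_num
      linarith
    · norm_num
      linarith

end Pool.Agent.MP_e23604_nt.U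

end
end

section

/-!
The step `CW1`.
-/

open Finset
open scoped Classical

noncomputable section

namespace Pool.Agent.MP_e23604_nt.U

open P (lam shp gg PW cW Rough WW ES mu flat tau NN)

namespace KW1J

theorem mul (hMul : CMul) {X : Fin 10 → ℕ} {Z : ℕ} (hR : Reg X Z) {ℓ : Fin 3} {k : Fin 12}
    (hk : k ∈ Act ℓ) {R : Finset (Fin 12)} {W j : ℕ} (hj : (W + 1) ^ (12 * j) ≤ Z)
    {Q : Finset Om} (hQ : Q ⊆ PP X Z ℓ R W j) {S : Finset V10} (hS : S ⊆ Box X) (g1 g2 : ℕ)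
    (h : ∀ ω ∈ Q, ω.2.2 ∈ S ∧ g1 ∣ ω.1 k ∧ g2 ∣ tt ℓ k ω.1 ω.2.1) :
    ∑ ω ∈ Q, 1 / ((mk k ω.1 : ℝ) * tt ℓ k ω.1 ω.2.1) ≤
      (∑ v ∈ S, TT v) * ((∑ m ∈ (Icc 1 Z).filter fun m => g1 ∣ m, tau m ^ 0 / m) *
        ∑ t ∈ (Icc 1 (Z ^ 2)).filter fun t => g2 ∣ t, tau t ^ 24 / t) := by
  let φ : V10 → ℕ → ℕ → ℝ := fun v m t => (if v ∈ S then 1 else 0) *
    ((if g1 ∣ m then 1 / (m : ℝ) else 0) * if g2 ∣ t then 1 / (t : ℝ) else 0)
  have h0 : ∀ v m t, 0 ≤ φ v m t := fun v m t => by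
    simp only [φ]
    split_ifs <;> positivity
  calc _ ≤ ∑ ω ∈ Q, φ ω.2.2 (ω.1 k) (tt ℓ k ω.1 ω.2.1) := by
        refine sum_le_sum fun ω hω => ?_
        obtain ⟨h1, h2, h3⟩ := h ω hω
        have hc : (1 : ℝ) ≤ cf k := by
          unfold cf
          split_ifs <;> norm_num
        simp only [φ, if_pos h1, if_pos h2, if_pos h3, mk, Nat.cast_mul]
        rw [mul_assoc, ← one_div_mul_one_div, ← one_div_mul_one_div]
        exact mul_le_mul_of_nonneg_right ((div_le_one (by linarith)).2 hc) (by positivity)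
    _ ≤ _ := sum_le_sum_of_subset_of_nonneg hQ fun _ _ _ => h0 _ _ _
    _ ≤ _ := hMul X Z hR ℓ k hk R W j hj φ h0
    _ = _ := by
        rw [← inter_eq_right.2 hS, ← sum_ite_mem, sum_filter, sum_filter, sum_mul_sum, sum_mul]
        refine sum_congr rfl fun v _ => ?_
        rw [mul_sum]
        refine sum_congr rfl fun m _ => ?_
        rw [mul_sum]
        refine sum_congr rfl fun t _ => ?_
        simp only [φ]
        split_ifs <;> ring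

theorem cover {α ι : Type} [Fintype ι] (Q : Finset α) (f : α → ℝ) (hf : ∀ a, 0 ≤ f a)
    (q : ι → α → Prop) [∀ i, DecidablePred (q i)] (h : ∀ a ∈ Q, ∃ i, q i a) :
    ∑ a ∈ Q, f a ≤ ∑ i, ∑ a ∈ Q.filter (q i), f a := by
  simp only [sum_filter]
  rw [sum_comm]
  refine sum_le_sum fun a ha => ?_
  obtain ⟨i, hi⟩ := h a ha
  refine le_trans (le_of_eq (if_pos hi).symm) (single_le_sum
    (f := fun i => if q i a then f a else 0) (fun i _ => ?_) (mem_univ i))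
  split_ifs
  exacts [hf a, le_rfl]

theorem rad {g a N : ℕ} (ha : Squarefree a) (h : g ∣ a) (h' : a ∣ N) (hN : N ≠ 0) :
    g ∣ ∏ l ∈ N.primeFactors, l := by
  rw [← Nat.prod_primeFactors_of_squarefree (ha.squarefree_of_dvd h)]
  exact prod_dvd_prod_of_subset _ _ _ (Nat.primeFactors_mono (h.trans h') hN)

theorem root {a V d : ℝ} (hV : 0 ≤ V) (hd : 0 ≤ d) (h : a ≤ V * d ^ 2) : √(a * V) ≤ V * d :=
  Real.sqrt_le_iff.2 ⟨by positivity, by nlinarith⟩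

end KW1J

theorem CW1_pf (hMul : CMul) (hTau : CTau) (hDiv : CDiv) (hSz : CSz) (hCls : CCls) (hLin : CLin)
    (hPer : CPer) (hPrim : CPrim) : CW1 := by
  obtain ⟨C1, N1, h1⟩ := hTau 1
  obtain ⟨g0, h2⟩ := hDiv
  obtain ⟨c, hc1, hc⟩ := Pool.Agent.MP_2a1f0e_nt.divisor_bound (ε := 1 / 48) (by norm_num)
  obtain ⟨N2, h3⟩ := hSz.big 0 (24 * (2 * c ^ 24))
  obtain ⟨e, he⟩ : ∃ e : ℕ, e = 2 ^ 24 := ⟨_, rfl⟩
  refine ⟨C1 + (2 + 2 * e) + 1, max g0 1, max N1 N2, fun X Z hR hN ℓ k hk R W j hj => ?_⟩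
  have h1 := h1 X Z hR (le_of_max_le_left hN)
  have h3 := (h3 X Z hR (le_of_max_le_right hN)).1
  obtain ⟨h2, h2'⟩ := h2 X Z hR
  have hc24 : 1 ≤ c ^ 24 := one_le_pow₀ hc1
  have hZ : (2 : ℝ) ≤ Z := by exact_mod_cast hR.z2
  have hV : 0 ≤ Vol X := prod_nonneg fun _ _ => Nat.cast_nonneg _
  have hl2 : Real.log ((Z ^ 2 : ℕ) : ℝ) ≤ LL X := Real.log_le_log (by push_cast; positivity)
    (Nat.cast_le.2 ((Nat.pow_le_pow_right (by have := hR.z2; omega) (by norm_num)).trans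
      ((hSz.sz X Z hR).z 0)))
  have hl1 : Real.log Z ≤ LL X :=
    (Real.log_le_log (by linarith) (by push_cast; nlinarith)).trans hl2
  have hl0 := Real.log_natCast_nonneg Z
  have hl0' := Real.log_natCast_nonneg (Z ^ 2)
  beta_reduce at h1
  generalize LL X = L at *
  have hL : 1 + L ≤ L ^ 2 := by nlinarith
  have hL0 : 0 ≤ L := by linarith
  have key : ∀ Q ⊆ PP X Z ℓ R W j, ∀ S ⊆ Box X, ∀ g1 g2 : ℕ, 0 < g1 → 0 < g2 →
      (∀ ω ∈ Q, ω.2.2 ∈ S ∧ g1 ∣ ω.1 k ∧ g2 ∣ tt ℓ k ω.1 ω.2.1) →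
      ∑ ω ∈ Q, 1 / ((mk k ω.1 : ℝ) * tt ℓ k ω.1 ω.2.1) ≤
        √((S.card : ℝ) * Vol X) * (1 / g1 * (tau g2 ^ 24 / g2)) * L ^ (C1 + (2 + 2 * e)) := by
    intro Q hQ S hS g1 g2 p1 p2 h
    have a1 := P.xWeight_div 0 g1 p1 (R := Z) (by linarith)
    have a2 := P.xWeight_div 24 g2 p2 (R := (Z ^ 2 : ℕ)) (by push_cast; nlinarith)
    have a3 := h1 S hS
    rw [Nat.floor_natCast] at a1 a2
    rw [← he] at a2
    simp only [pow_one] at a3
    have t2 := P.tau_nonneg g2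
    have b1 := a1.trans (mul_le_mul_of_nonneg_left (pow_le_pow_left₀ (by linarith)
      (show _ ≤ L ^ 2 by linarith) _) (by positivity))
    have b2 := a2.trans (mul_le_mul_of_nonneg_left (pow_le_pow_left₀ (by linarith)
      (show _ ≤ L ^ 2 by linarith) _) (by positivity))
    have n : ∀ (T : Finset ℕ) (a : ℕ), 0 ≤ ∑ t ∈ T, tau t ^ a / t := fun T a =>
      sum_nonneg fun t _ => div_nonneg (pow_nonneg (P.tau_nonneg _) _) (Nat.cast_nonneg _)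
    refine (KW1J.mul hMul hR hk hj hQ hS g1 g2 h).trans ((mul_le_mul a3
      (mul_le_mul b1 b2 (n _ _) (by positivity)) (mul_nonneg (n _ _) (n _ _))
      (by positivity)).trans_eq ?_)
    ring
  have t1 : tau ((1 : ℕ) : ℤ) = 1 := by simp [tau]
  have t1' : tau 1 = 1 := t1
  have hB : √(((Box X).card : ℝ) * Vol X) = Vol X := by rw [hCls.vol, Real.sqrt_mul_self hV]
  have hv : ∀ ω ∈ PP X Z ℓ R W j, ω.1 ∈ SSet Z ∧ ω.2.1 ∈ EE R W j ∧ ω.2.2 ∈ Box X := fun ω hω => by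
    simpa only [mem_product] using (mem_filter.1 hω).1
  have hE : 0 ≤ L ^ (C1 + (2 + 2 * e)) := by positivity
  rw [pow_succ]
  generalize L ^ (C1 + (2 + 2 * e)) = E at *
  refine ⟨?_, fun g hg => ?_⟩
  · have := key _ Subset.rfl _ Subset.rfl 1 1 one_pos one_pos
      fun ω hω => ⟨(hv ω hω).2.2, one_dvd _, one_dvd _⟩
    rw [hB, t1] at this
    refine this.trans ?_
    simp only [Nat.cast_one, one_pow, div_one, mul_one]
    exact mul_le_mul_of_nonneg_left (le_mul_of_one_le_right hE (by linarith)) hV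
  have g1 : 1 ≤ g := le_of_max_le_right hg
  have gr : (1 : ℝ) ≤ g := by exact_mod_cast g1
  have gp : (0 : ℝ) < g := by linarith
  have d0 : 0 ≤ (g : ℝ) ^ (-(1 / 30 : ℝ)) := by positivity
  have d1 : (g : ℝ) ^ (-(1 / 10 : ℝ)) ≤ ((g : ℝ) ^ (-(1 / 30 : ℝ))) ^ 2 := by
    rw [← Real.rpow_natCast, ← Real.rpow_mul gp.le]
    exact Real.rpow_le_rpow_of_exponent_le gr (by norm_num)
  have d2 : 1 / (g : ℝ) ≤ (g : ℝ) ^ (-(1 / 10 : ℝ)) := by
    rw [one_div, ← Real.rpow_neg_one]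
    exact Real.rpow_le_rpow_of_exponent_le gr (by norm_num)
  have d3 : 1 / (g : ℝ) ≤ (g : ℝ) ^ (-(1 / 30 : ℝ)) := by
    rw [one_div, ← Real.rpow_neg_one]
    exact Real.rpow_le_rpow_of_exponent_le gr (by norm_num)
  have d4 : tau g ^ 24 / g ≤ c ^ 24 * (g : ℝ) ^ (-(1 / 30 : ℝ)) := by
    have a : tau g ≤ c * (g : ℝ) ^ (1 / 48 : ℝ) := by simpa only [tau, Int.natAbs_natCast] using hc g
    refine (div_le_div_of_nonneg_right (pow_le_pow_left₀ (P.tau_nonneg _) a 24) gp.le).trans ?_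
    rw [mul_pow, mul_div_assoc, ← Real.rpow_natCast (_ ^ _), ← Real.rpow_mul gp.le,
      ← Real.rpow_sub_one gp.ne']
    exact mul_le_mul_of_nonneg_left (Real.rpow_le_rpow_of_exponent_le gr (by norm_num))
      (by linarith)
  have h2 := fun σ h => (h2 σ g (le_of_max_le_left hg) h).trans (mul_le_mul_of_nonneg_left d1 hV)
  have h2' := fun i => h2' i g g1
  replace d2 := d2.trans d1
  generalize (g : ℝ) ^ (-(1 / 30 : ℝ)) = δ at *
  let S : Bool ⊕ Fin 12 ⊕ Fin 10 → Finset V10 := Sum.elim (fun _ => Box X) (Sum.elim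
    (fun σ => if g ≤ Z then (Box X).filter fun v => (g : ℤ) ∣ fm v σ else ∅)
    fun i => (Box X).filter fun v => (g : ℤ) ∣ v i)
  let a : Bool ⊕ Fin 12 ⊕ Fin 10 → ℕ := Sum.elim (fun b => if b then g else 1) fun _ => 1
  let b : Bool ⊕ Fin 12 ⊕ Fin 10 → ℕ := Sum.elim (fun b => if b then 1 else g) fun _ => 1
  have hVδ : 0 ≤ Vol X * δ := mul_nonneg hV d0
  have hS : ∀ i, S i ⊆ Box X ∧ 0 < a i ∧ 0 < b i ∧ √(((S i).card : ℝ) * Vol X) *
      (1 / a i * (tau (b i) ^ 24 / b i)) ≤ 2 * c ^ 24 * (Vol X * δ) := by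
    rintro ((_ | _) | σ | i)
    · refine ⟨Subset.rfl, one_pos, g1, ?_⟩
      change √(((Box X).card : ℝ) * _) * (1 / ((1 : ℕ) : ℝ) * (tau g ^ 24 / g)) ≤ _
      rw [hB, Nat.cast_one, div_one, one_mul]
      nlinarith [mul_le_mul_of_nonneg_left d4 hV]
    · refine ⟨Subset.rfl, g1, one_pos, ?_⟩
      change √(((Box X).card : ℝ) * _) * (1 / (g : ℝ) * (tau (1 : ℕ) ^ 24 / ((1 : ℕ) : ℝ))) ≤ _
      rw [hB, t1, Nat.cast_one, one_pow, div_one, mul_one]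
      nlinarith [mul_le_mul_of_nonneg_left d3 hV]
    · simp only [S, a, b, Sum.elim_inr, Sum.elim_inl, t1', Nat.cast_one, one_pow, div_one,
        mul_one]
      split_ifs with h
      · refine ⟨filter_subset _ _, one_pos, one_pos, (KW1J.root hV d0 (h2 σ h)).trans ?_⟩
        nlinarith
      · refine ⟨empty_subset _, one_pos, one_pos, ?_⟩
        simp only [card_empty, Nat.cast_zero, zero_mul, Real.sqrt_zero]
        positivity
    · simp only [S, a, b, Sum.elim_inr, t1', Nat.cast_one, one_pow, div_one, mul_one]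
      refine ⟨filter_subset _ _, one_pos, one_pos,
        (KW1J.root (d := 2 * δ) hV (by linarith) ((h2' i).trans ?_)).trans (by nlinarith)⟩
      rw [div_eq_mul_one_div]
      nlinarith [mul_le_mul_of_nonneg_left d2 hV, mul_nonneg hV (sq_nonneg δ)]
  refine (KW1J.cover _ _ (fun ω => by positivity)
    (fun i ω => ω.2.2 ∈ S i ∧ a i ∣ ω.1 k ∧ b i ∣ tt ℓ k ω.1 ω.2.1) fun ω hω => ?_).trans ?_
  · obtain ⟨hω, hd⟩ := mem_filter.1 hω
    obtain ⟨m1, m2, m3⟩ := hv ω hω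
    obtain ⟨s1, -, s2⟩ := hLin.mem Z _ m1
    have s3 := (hLin.sok _ s1).1
    have s4 := (hPer.ee R W j Z hj _ m2).1
    have hN : (∏ σ ∈ (Act ℓ).erase k, ω.1 σ) * ∏ σ, ω.2.1 σ ≠ 0 :=
      mul_ne_zero (prod_ne_zero_iff.2 fun σ _ => by have := (s3 σ).1; omega)
        (prod_ne_zero_iff.2 fun σ _ => by have := (s4 σ).1; omega)
    rcases hd with ⟨σ, hd | hd⟩ | ⟨i, hd⟩
    · by_cases e1 : σ = k
      · exact ⟨Sum.inl true, m3, e1 ▸ hd, one_dvd _⟩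
      by_cases e2 : σ ∈ Act ℓ
      · exact ⟨Sum.inl false, m3, one_dvd _, KW1J.rad (s3 σ).2.1 hd
          (Dvd.dvd.mul_right (dvd_prod_of_mem _ (mem_erase.2 ⟨e1, e2⟩)) _) hN⟩
      · refine ⟨Sum.inr (Sum.inl σ), ?_, one_dvd _, one_dvd _⟩
        simp only [S, Sum.elim_inr, Sum.elim_inl]
        rw [if_pos ((Nat.le_of_dvd (s3 σ).1 hd).trans (s2 σ))]
        exact mem_filter.2 ⟨m3, (Int.natCast_dvd_natCast.2 hd).trans ((mem_filter.1 hω).2 σ e2)⟩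
    · exact ⟨Sum.inl false, m3, one_dvd _, KW1J.rad (s4 σ).2.1 hd
        (Dvd.dvd.mul_left (dvd_prod_of_mem _ (mem_univ σ)) _) hN⟩
    · exact ⟨Sum.inr (Sum.inr i), mem_filter.2 ⟨m3, hd⟩, one_dvd _, one_dvd _⟩
  · refine (sum_le_card_nsmul _ _ (2 * c ^ 24 * (Vol X * δ) * E) fun i _ => ?_).trans ?_
    · obtain ⟨p1, p2, p3, p4⟩ := hS i
      exact (key _ ((filter_subset _ _).trans (filter_subset _ _)) _ p1 _ _ p2 p3
        fun ω hω => (mem_filter.1 hω).2).trans (mul_le_mul_of_nonneg_right p4 hE)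
    · simp only [card_univ, Fintype.card_sum, Fintype.card_bool, Fintype.card_fin, nsmul_eq_mul]
      push_cast
      nlinarith [mul_le_mul_of_nonneg_right h3 (mul_nonneg hVδ hE)]

end Pool.Agent.MP_e23604_nt.U

end
end
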