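import Pool.Agent.MP_e23604_nt.BBase
import Pool.Agent.Mg.Fe23604m.G5c4864

set_option linter.all false

section

/-!
Eigenspaces of the units modulo p-th powers.
-/

open NumberField Module

namespace Pool.Agent.MP_e23604_nt.B

section

open Polynomial Matrix

end

section

open InfinitePlace Units Polynomial

variable {L : Type} [Field L] [NumberField L]

/-- The logarithms of a unit at all infinite places. -/
noncomputable def bunitLg : Additive (𝓞 L)ˣ →+ (InfinitePlace L → ℝ) where
  toFun x w := mult w * Real.log (w ↑x.toMul)
  map_zero' := by simp; rfl
  map_add' _ _ := by simp [Real.log_mul, mul_add]; rfl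

end

end Pool.Agent.MP_e23604_nt.B

end

section

/-!
Counting an eigenspace of the Selmer group L(S, p).
-/

open NumberField Module IsDedekindDomain
open scoped Pointwise nonZeroDivisors

namespace Pool.Agent.MP_e23604_nt.B

section

variable {L : Type} [Field L] [NumberField L]

end

end Pool.Agent.MP_e23604_nt.B

end

section

/-!
Algebraic integers in a box of the size of the root discriminant.
-/

open NumberField Module

namespace Pool.Agent.MP_e23604_nt.B

section

open MeasureTheory Set Real
open scoped Pointwise

open mixedEmbedding InfinitePlace
open scoped Classical

variable {M : Type} [Field M] [NumberField M]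

/-- The trace on the mixed space. -/
noncomputable def bboxTr (M : Type) [Field M] [NumberField M] : mixedSpace M →+ ℝ where
  toFun x := ∑ w, x.1 w + ∑ w, 2 * (x.2 w).re
  map_zero' := by simp
  map_add' x y := by
    simp only [Prod.fst_add, Prod.snd_add, Pi.add_apply, Complex.add_re, mul_add,
      Finset.sum_add_distrib]
    ring

end

end Pool.Agent.MP_e23604_nt.B

end

section

/-!
The divisor bound for ideals, uniformly in the number field.
-/

open NumberField Module

namespace Pool.Agent.MP_e23604_nt.B

end Pool.Agent.MP_e23604_nt.B

end

section

/-!
The minus part of the class group of a quadratic extension of number fields.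
-/

open NumberField Module

namespace Pool.Agent.MP_e23604_nt.B

open scoped Pointwise nonZeroDivisors NNReal ENNReal

end Pool.Agent.MP_e23604_nt.B

end

section

/-!
The number field bound.
-/

open NumberField Module IsDedekindDomain

namespace Pool.Agent.MP_e23604_nt.B

end Pool.Agent.MP_e23604_nt.B

end

section

/-!
Eigenspaces of units modulo p-th powers.
-/

open NumberField Module

namespace Pool.Agent.MP_e23604_nt.B

section

open Polynomial Matrix

variable {Ω : Type} [DecidableEq Ω]

variable [Fintype Ω]

end

section

open InfinitePlace Units Polynomial

variable {L : Type} [Field L] [NumberField L]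

end

end Pool.Agent.MP_e23604_nt.B

end

section

/-!
Counting the eigenspace of the p-Selmer group of a number field.
-/

open NumberField Module IsDedekindDomain
open scoped Pointwise nonZeroDivisors

namespace Pool.Agent.MP_e23604_nt.B

end Pool.Agent.MP_e23604_nt.B

end

section

/-!
A class number bound that is uniform in the degree.
-/

open NumberField Module

namespace Pool.Agent.MP_e23604_nt.B

open scoped nonZeroDivisors NNReal

end Pool.Agent.MP_e23604_nt.B

end
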