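import Mathlib
import Pool.Agent.Mg.Fe23604m.Ga3df41
import Pool.Agent.Mg.Fe23604m.G14ff9f
import Pool.Agent.MP_14ad9d_nt.Full.FI
import Pool.Agent.MP_14ad9d_nt.Full.R02
import Pool.Agent.Mg.Fe23604m.G2d7081
import Pool.Agent.MP_14ad9d_nt.Full.R1
import Pool.Agent.MP_14ad9d_nt.Full.R03
import Pool.Agent.MP_14ad9d_nt.Full.DL
import Pool.Agent.MP_14ad9d_nt.Full.Sym1
import Pool.Agent.MP_14ad9d_nt.Full.Sym2
import Pool.Agent.Mg.Fe23604m.G7d1337
import Pool.Agent.MP_14ad9d_nt.Full.FI1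

set_option linter.all false

section

namespace Pool.Agent.MP_f68ac8_nt.Pv
open Ev
open NumberField Module
open Pool.Agent.MP_14ad9d_nt.Full (Pr ord ord_mul ord_inv ord_zpow ord_one ord_finite ord_over)
open Pool.Agent.MP_14ad9d_nt.Full.FIAux
open Pool.Agent.MP_14ad9d_nt.Full.R0Aux (push_down)

lemma card_le_PvH {p : ℕ} [Fact p.Prime] {V : Type} [AddCommGroup V] [Module (ZMod p) V]
    [Finite V] (h : ∀ f g : V →+ ZMod p, ∃ a b : ZMod p, (a ≠ 0 ∨ b ≠ 0) ∧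
      ∀ v, a * f v + b * g v = 0) : Nat.card V ≤ p := by
  have hp : p.Prime := Fact.out
  have h1 : finrank (ZMod p) V ≤ 1 := by
    by_contra hc
    let B := Module.finBasis (ZMod p) V
    let i : Fin (finrank (ZMod p) V) := ⟨0, by omega⟩
    let j : Fin (finrank (ZMod p) V) := ⟨1, by omega⟩
    have hij : i ≠ j := fun e => zero_ne_one (congrArg Fin.val e)
    obtain ⟨a, b, hab, h2⟩ := h (B.coord i).toAddMonoidHom (B.coord j).toAddMonoidHom
    have h3 := h2 (B i)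
    have h4 := h2 (B j)
    simp [hij, hij.symm] at h3 h4
    exact hab.elim (fun h => h h3) fun h => h h4
  rw [Module.natCard_eq_pow_finrank (K := ZMod p), Nat.card_zmod]
  exact (Nat.pow_le_pow_right hp.pos h1).trans_eq (pow_one p)

lemma grp_PvH {p : ℕ} [Fact p.Prime] {Q : Type} [AddCommGroup Q] [Finite Q]
    (h : ∀ f g : Q →+ ZMod p, ∃ a b : ZMod p, (a ≠ 0 ∨ b ≠ 0) ∧ ∀ v, a * f v + b * g v = 0)
    {q₁ q₂ : Q} (h₁ : p • q₁ = 0) (h₂ : p • q₂ = 0) :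
    ∃ x y : ℤ, ¬ ((p : ℤ) ∣ x ∧ (p : ℤ) ∣ y) ∧ x • q₁ + y • q₂ = 0 := by
  have hp : p.Prime := Fact.out
  let m : Q →+ Q := nsmulAddMonoidHom p
  have e1 := AddSubgroup.card_eq_card_quotient_mul_card_addSubgroup m.ker
  have e2 := AddSubgroup.card_eq_card_quotient_mul_card_addSubgroup m.range
  rw [Nat.card_congr (QuotientAddGroup.quotientKerEquivRange m).toEquiv, e2, mul_comm] at e1
  have e3 : Nat.card (Q ⧸ m.range) = Nat.card m.ker :=
    Nat.eq_of_mul_eq_mul_left Nat.card_pos e1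
  have e4 : Nat.card (Q ⧸ m.range) ≤ p := by
    refine @card_le_PvH p _ (Q ⧸ m.range) _
      (QuotientAddGroup.zmodModule fun x => ⟨x, rfl⟩) _ fun f g => ?_
    obtain ⟨a, b, hab, h2⟩ := h (f.comp (QuotientAddGroup.mk' _)) (g.comp (QuotientAddGroup.mk' _))
    refine ⟨a, b, hab, fun v => ?_⟩
    obtain ⟨v, rfl⟩ := QuotientAddGroup.mk_surjective v
    exact h2 v
  by_contra hc
  let F : ZMod p × ZMod p → m.ker := fun z => ⟨(z.1.val : ℤ) • q₁ + (z.2.val : ℤ) • q₂,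
    add_mem (zsmul_mem (show q₁ ∈ m.ker from h₁) _) (zsmul_mem (show q₂ ∈ m.ker from h₂) _)⟩
  have hd : ∀ u v : ZMod p, (p : ℤ) ∣ (u.val : ℤ) - v.val → u = v := fun u v huv => by
    have h3 := (ZMod.intCast_zmod_eq_zero_iff_dvd _ p).2 huv
    rw [Int.cast_sub, Int.cast_natCast, Int.cast_natCast, ZMod.natCast_zmod_val,
      ZMod.natCast_zmod_val] at h3
    exact sub_eq_zero.1 h3
  have hF : Function.Injective F := fun z z' e => by
    have h3 : (z.1.val : ℤ) • q₁ + (z.2.val : ℤ) • q₂ =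
      (z'.1.val : ℤ) • q₁ + (z'.2.val : ℤ) • q₂ := congrArg Subtype.val e
    by_contra hne
    refine hc ⟨(z.1.val : ℤ) - z'.1.val, (z.2.val : ℤ) - z'.2.val,
      fun h4 => hne (Prod.ext (hd _ _ h4.1) (hd _ _ h4.2)), ?_⟩
    rw [sub_smul, sub_smul, sub_add_sub_comm, h3, sub_self]
  have e5 := Nat.card_le_card_of_injective F hF
  rw [Nat.card_prod, Nat.card_zmod] at e5
  have := hp.one_lt
  nlinarith

lemma ord_prod_PvH {E J : Type} [Field E] [NumberField E] (w : Pr E) (s : Finset J) (f : J → E)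
    (hf : ∀ i, f i ≠ 0) : ord w (∏ i ∈ s, f i) = ∑ i ∈ s, ord w (f i) := by
  classical
  induction s using Finset.induction_on with
  | empty => rw [Finset.prod_empty, Finset.sum_empty, ord_one]
  | insert a s ha ih =>
    rw [Finset.prod_insert ha, Finset.sum_insert ha,
      ord_mul w (hf a) (Finset.prod_ne_zero_iff.2 fun i _ => hf i), ih]

section
variable {K E : Type} [Field K] [NumberField K] [Field E] [NumberField E] [Algebra K E]

variable (K) in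
/-- divisors that are principal away from a set of primes -/
def pri_PvH (T : Set (Pr E)) : AddSubgroup (Pr K →₀ ℤ) where
  carrier := {d | ∃ z : K, z ≠ 0 ∧ ∀ w, w ∉ T → d (un K w) = ord (un K w) z}
  zero_mem' := ⟨1, one_ne_zero, fun w _ => (ord_one _).symm⟩
  add_mem' := by
    rintro d d' ⟨z, z0, hz⟩ ⟨z', z0', hz'⟩
    exact ⟨z * z', mul_ne_zero z0 z0', fun w hw => by
      rw [Finsupp.add_apply, hz w hw, hz' w hw, ord_mul _ z0 z0']⟩
  neg_mem' := by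
    rintro d ⟨z, z0, hz⟩
    exact ⟨z⁻¹, inv_ne_zero z0, fun w hw => by rw [Finsupp.neg_apply, hz w hw, ord_inv]⟩

lemma fin_PvH (T : Set (Pr E)) : Finite ((Pr K →₀ ℤ) ⧸ pri_PvH K T) := by
  obtain ⟨cl, hcl⟩ := cls_fin (E := K)
  refine fin_of_fun _ cl fun d d' e => ?_
  obtain ⟨y, y0, hy⟩ := hcl d d' e
  exact ⟨y, y0, fun w _ => hy _⟩

variable {p : ℕ} [Fact p.Prime] [IsGalois K E] {T : Set (Pr E)}

lemma chr_PvH (hT : ∀ (g : E ≃ₐ[K] E), ∀ w ∈ T, ac g w ∈ T)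
    (hgen : ∀ χ : Pr E → ZMod p, ClsCh χ → (∀ w ∈ T, χ w = 0) → ∀ w, χ w = 0)
    (g : (Pr K →₀ ℤ) →+ ZMod p) (hg : ∀ d ∈ pri_PvH K T, g d = 0) :
    ClsCh (fun v => g (Finsupp.single v 1)) ∧
      ∀ w : Pr E, w.asIdeal.inertiaDeg (𝓞 K) = 1 → g (Finsupp.single (un K w) 1) = 0 := by
  have h1 : ClsCh (fun v => g (Finsupp.single v 1)) := fun α α0 => by
    let dα : Pr K →₀ ℤ := Finsupp.ofSupportFinite (fun v => ord v α) (ord_finite α)
    exact (map_eq_finsum g dα).symm.trans (hg _ ⟨α, α0, fun w _ => rfl⟩)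
  refine ⟨h1, fun w hw => ?_⟩
  have h2 := hgen (fun w => (w.asIdeal.inertiaDeg (𝓞 K) : ZMod p) *
    g (Finsupp.single (un K w) 1)) (fun a ha => by
      have h3 := push_down (un K) over_un (fun v => g (Finsupp.single v 1)) ha
      simp only [zsmul_eq_mul] at h3
      exact h3.trans (h1 _ (Algebra.norm_ne_zero_iff.2 ha))) (fun w hw => by
      refine mul_eq_zero_of_right _ (hg _ ⟨1, one_ne_zero, fun w' hw' => ?_⟩)
      rw [ord_one]
      refine Finsupp.single_eq_of_ne fun e => hw' ?_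
      obtain ⟨τ, rfl⟩ := ac_trans e.symm
      exact hT τ w hw) w
  simpa only [hw, Nat.cast_one, one_mul] using h2

lemma dep_PvH (h : SIStmt p) (hp : 2 < p) (hd : finrank K E = p)
    (hT : ∀ (g : E ≃ₐ[K] E), ∀ w ∈ T, ac g w ∈ T)
    (hgen : ∀ χ : Pr E → ZMod p, ClsCh χ → (∀ w ∈ T, χ w = 0) → ∀ w, χ w = 0)
    (f g : ((Pr K →₀ ℤ) ⧸ pri_PvH K T) →+ ZMod p) :
    ∃ a b : ZMod p, (a ≠ 0 ∨ b ≠ 0) ∧ ∀ v, a * f v + b * g v = 0 := by
  have h0 : ∀ f : ((Pr K →₀ ℤ) ⧸ pri_PvH K T) →+ ZMod p, ∀ d ∈ pri_PvH K T,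
      f.comp (QuotientAddGroup.mk' _) d = 0 := fun f d hd => by
    change f (QuotientAddGroup.mk d) = 0
    rw [(QuotientAddGroup.eq_zero_iff d).2 hd, map_zero]
  obtain ⟨h1, h2⟩ := chr_PvH hT hgen _ (h0 f)
  obtain ⟨h3, h4⟩ := chr_PvH hT hgen _ (h0 g)
  obtain ⟨a, b, hab, h5⟩ := h K E hp hd _ _ h1 h3 fun w hw => ⟨h2 w hw, h4 w hw⟩
  refine ⟨a, b, hab, fun v => ?_⟩
  obtain ⟨d, rfl⟩ := QuotientAddGroup.mk_surjective v
  exact (map_eq_finsum ((AddMonoidHom.mulLeft a).comp (f.comp (QuotientAddGroup.mk' _)) +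
    (AddMonoidHom.mulLeft b).comp (g.comp (QuotientAddGroup.mk' _))) d).trans
    (finsum_eq_zero_of_forall_eq_zero fun v => mul_eq_zero_of_right _ (h5 v))

lemma div_PvH (hd : finrank K E = p) {σ : E ≃ₐ[K] E}
    (hσ : ∀ τ : E ≃ₐ[K] E, τ ∈ Subgroup.zpowers σ)
    (hT : ∀ (g : E ≃ₐ[K] E), ∀ w ∈ T, ac g w ∈ T)
    (he : ∀ w : Pr E, w.asIdeal.ramificationIdx (𝓞 K) = 1) {x : E} (hx : x ≠ 0)
    (ha : ∀ w, w ∉ T → ord w (σ x / x) = 0) :
    ∃ d : Pr K →₀ ℤ, p • d ∈ pri_PvH K T ∧ ∀ w, w ∉ T → d (un K w) = ord w x := by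
  have hT' : ∀ (g : E ≃ₐ[K] E) w, w ∉ T → ac g w ∉ T := fun g w hw h => by
    have h1 := hT g⁻¹ _ h
    rw [← ac_mul, inv_mul_cancel, ac_one] at h1
    exact hw h1
  have h1 : ∀ (g : E ≃ₐ[K] E) w, w ∉ T → ord (ac g w) x = ord w x := by
    intro g w hw
    obtain ⟨n, rfl⟩ := exists_pow hσ g
    induction n with
    | zero => rw [pow_zero, ac_one]
    | succ n ih =>
      have h2 := ha _ (hT' σ _ (hT' (σ ^ n) w hw))
      rw [ord_div _ ((map_ne_zero σ).2 hx) hx, ord_ac, sub_eq_zero] at h2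
      rw [pow_succ', ac_mul, ← h2, ih]
  choose s hs using un_surj (K := K) (L := E)
  have hinj : Function.Injective s := fun v v' e => by rw [← hs v, e, hs]
  let d : Pr K →₀ ℤ := Finsupp.ofSupportFinite (fun v => ord (s v) x)
    ((ord_finite x).preimage hinj.injOn)
  have h2 : ∀ w, w ∉ T → d (un K w) = ord w x := fun w hw => by
    obtain ⟨g, hg⟩ := ac_trans (hs (un K w)).symm
    rw [← h1 g w hw, hg]
    rfl
  refine ⟨d, ⟨Algebra.norm K x, Algebra.norm_ne_zero_iff.2 hx, fun w hw => ?_⟩, h2⟩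
  have h3 := ord_over (over_un (K := K) w) (Algebra.norm K x)
  rw [he, Nat.cast_one, one_mul, Algebra.norm_eq_prod_automorphisms,
    ord_prod_PvH _ _ _ fun g => (map_ne_zero g).2 hx] at h3
  have h4 : ∀ g : E ≃ₐ[K] E, ord w (g x) = ord w x := fun g => by
    rw [← h1 g⁻¹ w hw, ← ord_ac g (ac g⁻¹ w), ac_inv]
  simp only [h4, Finset.sum_const, Finset.card_univ] at h3
  rw [← h3, Finsupp.smul_apply, h2 w hw, ← Nat.card_eq_fintype_card, IsGalois.card_aut_eq_finrank,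
    hd]

lemma core_PvH (h : SIStmt p) (hp : 2 < p) (hd : finrank K E = p) {σ : E ≃ₐ[K] E}
    (hσ : ∀ τ : E ≃ₐ[K] E, τ ∈ Subgroup.zpowers σ)
    (hT : ∀ (g : E ≃ₐ[K] E), ∀ w ∈ T, ac g w ∈ T)
    (hgen : ∀ χ : Pr E → ZMod p, ClsCh χ → (∀ w ∈ T, χ w = 0) → ∀ w, χ w = 0)
    (he : ∀ w : Pr E, w.asIdeal.ramificationIdx (𝓞 K) = 1) {x₁ x₂ : E} (hx₁ : x₁ ≠ 0)
    (hx₂ : x₂ ≠ 0) (ha : ∀ w, w ∉ T → ord w (σ x₁ / x₁) = 0)
    (hb : ∀ w, w ∉ T → ord w (σ x₂ / x₂) = 0) :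
    ∃ (x y : ℤ) (c : E), c ≠ 0 ∧ (∀ w, w ∉ T → ord w c = 0) ∧ ¬ ((p : ℤ) ∣ x ∧ (p : ℤ) ∣ y) ∧
      (σ x₁ / x₁) ^ x * (σ x₂ / x₂) ^ y = σ c / c := by
  obtain ⟨d₁, h1, h2⟩ := div_PvH hd hσ hT he hx₁ ha
  obtain ⟨d₂, h3, h4⟩ := div_PvH hd hσ hT he hx₂ hb
  have := fin_PvH (K := K) T
  obtain ⟨x, y, hxy, h5⟩ := grp_PvH (dep_PvH h hp hd hT hgen)
    (q₁ := QuotientAddGroup.mk d₁) (q₂ := QuotientAddGroup.mk d₂)
    ((QuotientAddGroup.eq_zero_iff (p • d₁)).2 h1) ((QuotientAddGroup.eq_zero_iff (p • d₂)).2 h3)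
  obtain ⟨z, z0, hz⟩ := (QuotientAddGroup.eq_zero_iff (x • d₁ + y • d₂)).1 h5
  have z1 : algebraMap K E z ≠ 0 := (map_ne_zero _).2 z0
  have c0 : x₁ ^ x * x₂ ^ y ≠ 0 := mul_ne_zero (zpow_ne_zero _ hx₁) (zpow_ne_zero _ hx₂)
  refine ⟨x, y, x₁ ^ x * x₂ ^ y / algebraMap K E z, div_ne_zero c0 z1, fun w hw => ?_, hxy, ?_⟩
  · rw [ord_div _ c0 z1, ord_mul _ (zpow_ne_zero _ hx₁) (zpow_ne_zero _ hx₂), ord_zpow, ord_zpow,
      ord_over (over_un w), he, Nat.cast_one, one_mul, ← hz w hw, Finsupp.add_apply,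
      Finsupp.smul_apply, Finsupp.smul_apply, h2 w hw, h4 w hw, smul_eq_mul, smul_eq_mul, sub_self]
  · rw [map_div₀, AlgEquiv.commutes, div_div_div_cancel_right₀ z1, map_mul, map_zpow₀, map_zpow₀,
      div_zpow, div_zpow, div_mul_div_comm]

end

theorem h_stmt (p : ℕ) [Fact p.Prime] (h : SIStmt p) : HStmt p := by
  intro K E _ _ _ _ _ T hp hT hU s hs a b ha hb
  let ι : Additive (UT (T : Set (Pr E))) →+ Additive Eˣ :=
    MonoidHom.toAdditive (UT (T : Set (Pr E))).subtype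
  have hι : Function.Injective ι := fun u v e =>
    Additive.toMul.injective (Subtype.ext (Additive.ofMul.injective e))
  have h90 : ∀ a : Additive (UT (T : Set (Pr E))), ∑ i ∈ Finset.range p, uRep T (s ^ i) a = 0 →
      ∃ x : E, x ≠ 0 ∧ uv (ι a) = s x / x := fun a ha => by
    obtain ⟨x, hx⟩ := hilbert hs (ι a) (by
      rw [← map_zero ι, ← ha, map_sum]
      exact Finset.sum_congr rfl fun i _ => sA_iter s i _)
    exact ⟨uv x, uv_ne x, by rw [hx, uv_sub, uv_sA]⟩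
  obtain ⟨x₁, hx₁, e₁⟩ := h90 a ha
  obtain ⟨x₂, hx₂, e₂⟩ := h90 b hb
  let H := Subgroup.zpowers s
  let e := IntermediateField.subgroupEquivAlgEquiv H
  have : IsGalois (IntermediateField.fixedField H) E := IsGalois.of_fixed_field E H
  have hd : finrank (IntermediateField.fixedField H) E = p := by
    rw [IntermediateField.finrank_fixedField_eq_card, Nat.card_zpowers, hs]
  obtain ⟨x, y, c, c0, hc, hxy, h1⟩ := core_PvH (K := IntermediateField.fixedField H)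
    (T := (T : Set (Pr E))) h hp hd (σ := e ⟨s, Subgroup.mem_zpowers s⟩) (fun τ => by
      obtain ⟨⟨_, n, rfl⟩, rfl⟩ := e.surjective τ
      exact ⟨n, (map_zpow e _ n).symm⟩) (fun g w hw => by
      obtain ⟨g, rfl⟩ := e.surjective g
      exact T.smul_mem g.1 hw) hT.gen (fun w => by
      have := w.isMaximal
      rw [card_e_EvRam, Subgroup.card_eq_one, eq_bot_iff]
      intro g hg
      obtain ⟨g, rfl⟩ := e.surjective g
      have h2 : g.1 ^ p = 1 := by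
        obtain ⟨n, hn⟩ := g.2
        rw [← hn, ← hs]
        beta_reduce
        rw [← zpow_natCast, ← zpow_mul, mul_comm, zpow_mul, zpow_natCast, pow_orderOf_eq_one,
          one_zpow]
      have h3 : g = 1 := Subtype.ext (hU w g.1 (fun x => hg x) h2)
      rw [h3, map_one]
      exact one_mem _) hx₁ hx₂
    (fun w hw => by
      have h2 : ord w (uv (ι a)) = 0 := (Additive.toMul a).2 w hw
      rwa [e₁] at h2)
    (fun w hw => by
      have h2 : ord w (uv (ι b)) = 0 := (Additive.toMul b).2 w hw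
      rwa [e₂] at h2)
  refine ⟨x, y, Additive.ofMul ⟨Units.mk0 c c0, hc⟩, hxy, hι (uv_inj ?_)⟩
  have h2 : ∀ (n : ℤ) (u : Additive Eˣ), uv (n • u) = uv u ^ n := fun n u => by simp [uv]
  rw [map_add, map_zsmul, map_zsmul, uv_add, h2, h2, e₁, e₂, map_sub, uv_sub]
  exact h1

end Pool.Agent.MP_f68ac8_nt.Pv

end

section

/-! The reciprocity law for a primary element in any number field. -/

namespace Pool.Agent.MP_f68ac8_nt.Ev

open NumberField IsDedekindDomain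
open Pool.Agent.MP_14ad9d_nt.Full Pool.Agent.MP_14ad9d_nt.Full.R0Aux
  Pool.Agent.MP_14ad9d_nt.Full.R1Aux

theorem nice_OvR1 {K : Type} [Field K] [NumberField K] (u : Pr K) (d : Deg1 u)
    (h : ord u ((discr K : ℤ) : K) = 0) : ord u ((Ideal.absNorm u.asIdeal : ℕ) : K) = 1 := by
  have hm : ((Ideal.absNorm u.asIdeal : ℕ) : 𝓞 K) ∈ u.asIdeal := Ideal.absNorm_mem _
  have h0 : ((discr K : ℤ) : 𝓞 K) ∉ u.asIdeal := by
    rw [← ord_eq_zero_iff u (by exact_mod_cast discr_ne_zero K)]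
    simpa using h
  have h1 : ¬ ((Ideal.absNorm u.asIdeal : ℕ) : ℤ) ∣ discr K := by
    rintro ⟨c, hc⟩
    refine h0 ?_
    rw [hc, Int.cast_mul, Int.cast_natCast]
    exact Ideal.mul_mem_right _ _ hm
  have := u.isPrime
  have h2 := (not_dvd_discr_iff_forall_mem K (𝓞 K) (Nat.prime_iff_prime_int.mp d)).1 h1 u.asIdeal
    inferInstance (by rw [Int.cast_natCast]; exact hm)
  rw [(ord_ram_EvLocT d u hm).1, Ideal.ramificationIdx_eq_one u.asIdeal ℤ, Nat.cast_one]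

theorem main_OvR1 {l : ℕ} [Fact l.Prime] (hl : 2 < l) {K : Type} [Field K] [NumberField K]
    (hd : Key1Stmt l ∧ Key2Stmt l) {ζ : K} (hζ : IsPrimitiveRoot ζ l) {β : K}
    (hβ0 : β ≠ 0)
    (hβ : ∀ v : Pr K, ¬Tm l v → v.valuation K (β - 1) ≤ v.valuation K (1 - ζ) ^ (l + 1))
    (m : Finset (Pr K)) (hm : m.Nonempty) (htm : ∀ v ∈ m, Tm l v)
    (hram : ∀ v : Pr K, Tm l v → v ∉ m → (l : ℤ) ∣ ord v β) {α : K} (hα0 : α ≠ 0)
    (hα : ∀ v ∈ m, v.valuation K (α - 1) < 1) : Phi l ζ α β = 0 := by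
  classical
  have hp : l.Prime := Fact.out
  by_cases h : ∀ d : K, β ≠ d ^ l
  swap
  · push Not at h
    obtain ⟨d, rfl⟩ := h
    exact Phi_ell_right hl hζ hα0 fun e => hβ0 (by rw [e, zero_pow hp.ne_zero])
  obtain ⟨L, _, _, _, _, θ, σ, hL, hθ, hσ, hgen, -⟩ := exists_kummer hζ h
  have hβ1 : β ≠ 1 := fun e => h 1 (by rw [e, one_pow])
  have : IsTotallyComplex K := nrRealPlaces_eq_zero_iff.1
    (InfinitePlace.IsPrimitiveRoot.nrRealPlaces_eq_zero_of_two_lt hl hζ)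
  obtain ⟨χ, ⟨v₀, m₀, c₀⟩, hs, hχ⟩ := fi hL σ hgen m hm htm fun v hv w hw => by
    by_cases t : Tm l v
    · exact unr_tame hl hζ hL hβ0 hθ hσ t (hram v t hv) hw
    · exact e_one_of_ne hL hw (wild_split hζ hβ1 hθ hσ t (hβ v t) hw)
  have hw : ∀ v, ¬Tm l v → χ v = 0 := fun v t => by
    obtain ⟨w, hw⟩ := exists_over (E' := L) v
    exact hs v (fun e => t (htm v e)) w hw (wild_split hζ hβ1 hθ hσ t (hβ v t) hw)
  obtain ⟨ϖ, hϖ0, hϖ⟩ : ∃ ϖ : Pr K → K, (∀ v, ϖ v ≠ 0) ∧ ∀ v, ord v (ϖ v) = 1 := by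
    choose ϖ h0 h1 using fun v : Pr K => exists_ord_eq_one v
    exact ⟨fun v => ϖ v, fun v => by simpa using h0 v, h1⟩
  have hχ0 : ∀ v, Tm l v → v ∉ m → tame l ζ v β (ϖ v) = 0 → χ v = 0 := fun v t hv e => by
    obtain ⟨w, hw⟩ := exists_over (E' := L) v
    exact hs v hv w hw (split_of_chi hl hζ hL hβ0 hθ hσ t (hram v t hv) (hϖ v) e hw).1
  have t₀ : Tm l v₀ := by
    by_contra t
    exact c₀ (hw v₀ t)
  have prop : ∀ v, Tm l v → v ∉ m →
      χ v₀ * tame l ζ v β (ϖ v) = χ v * tame l ζ v₀ β (ϖ v₀) := fun v t hv => by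
    have D : KeyData l ζ β m ϖ χ :=
      ⟨hl, hζ, hβ0, hram, fun v => ⟨hϖ0 v, hϖ v⟩, hχ0, hχ⟩
    obtain ⟨u₀, ⟨d₀, t₀', m₀', a₀, b₀⟩, n₀⟩ :=
      (hd.2 K ζ β m ϖ χ D v₀ t₀ m₀).exists_notMem_finite (ord_finite ((discr K : ℤ) : K))
    obtain ⟨u₁, ⟨d₁, t₁', m₁', a₁, b₁⟩, n₁⟩ :=
      (hd.2 K ζ β m ϖ χ D v t hv).exists_notMem_finite (ord_finite ((discr K : ℤ) : K))
    obtain ⟨u, ⟨du, tu, ou, cu⟩, hu⟩ := (wc1 hl hζ h).exists_notMem_finite
      ((m.finite_toSet.union (ord_finite ((discr K : ℤ) : K))).union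
        ((ord_finite ((Ideal.absNorm u₀.asIdeal : ℕ) : K)).union
          (ord_finite ((Ideal.absNorm u₁.asIdeal : ℕ) : K))))
    simp only [Set.mem_union, Set.mem_ofPred_eq, not_or, not_not, Finset.mem_coe] at hu n₀ n₁
    have ω : tame l ζ u β (ϖ u) ≠ 0 := by
      rwa [tame_unit hl hζ tu hβ0 ou, hϖ, Int.cast_one, one_mul]
    have ou1 := nice_OvR1 u du hu.1.2
    have k₀ := hd.1 K ζ β m ϖ χ D u u₀ tu t₀' hu.1.1 m₀' du d₀ ou1 (nice_OvR1 u₀ d₀ n₀)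
      (fun e => one_ne_zero (ou1.symm.trans (e ▸ hu.2.1))) ω
    have k₁ := hd.1 K ζ β m ϖ χ D u u₁ tu t₁' hu.1.1 m₁' du d₁ ou1 (nice_OvR1 u₁ d₁ n₁)
      (fun e => one_ne_zero (ou1.symm.trans (e ▸ hu.2.2))) ω
    rw [a₀, b₀] at k₀
    rw [a₁, b₁] at k₁
    refine mul_left_cancel₀ ω ?_
    linear_combination tame l ζ v₀ β (ϖ v₀) * k₁ - tame l ζ v β (ϖ v) * k₀
  rw [Phi_swap hl hζ hβ0 hα0, neg_eq_zero]
  refine (mul_eq_zero.1 ?_).resolve_left c₀
  have h1 := congrArg (tame l ζ v₀ β (ϖ v₀) * ·) (hχ α hα0 hα)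
  simp only [mul_zero, mul_finsum] at h1
  rw [Phi, mul_finsum, ← h1,
    finsum_subtype_eq_finsum_cond (f := fun v => χ v₀ * tame l ζ v β α) (Tm l)]
  refine finsum_congr fun v => ?_
  rw [finsum_eq_if]
  split_ifs with t
  · by_cases hv : v ∈ m
    · rw [tame_swap hl hζ t hα0 hβ0, tame_unit hl hζ t hα0 (ord_near_one (hα v hv)).2,
        chi_near_one hζ t (hα v hv), (ord_near_one (hα v hv)).2]
      simp
    · rw [tame_eq_mul hl hζ t hβ0 hα0 (hϖ0 v) (hϖ v) (hram v t hv)]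
      linear_combination (ord v α : ZMod l) * prop v t hv
  · rw [hw v t, mul_zero, mul_zero]

/-- reciprocity for elements congruent to one modulo the conductor -/
theorem r0_OvR1 {l : ℕ} [Fact l.Prime] (hl : 2 < l) {K : Type} [Field K] [NumberField K]
    (hd : Key1Stmt l ∧ Key2Stmt l) {ζ : K} (hζ : IsPrimitiveRoot ζ l) {β : K} (hβ0 : β ≠ 0)
    (hβ : Near l ζ (l + 1) β) (m : Finset (Pr K)) (hm : m.Nonempty) (htm : ∀ v ∈ m, Tm l v)
    (hram : ∀ v : Pr K, Tm l v → v ∉ m → (l : ℤ) ∣ ord v β) {α : K} (hα0 : α ≠ 0)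
    (hα : ∀ v ∈ m, v.valuation K (α - 1) < 1) : Phi l ζ α β = 0 := by
  obtain ⟨γ, hγ0, hγ⟩ := hβ
  have := main_OvR1 hl hd hζ (div_ne_zero hβ0 (pow_ne_zero l hγ0)) hγ m hm htm (fun v t hv => by
    rw [ord_div v hβ0 (pow_ne_zero l hγ0), ord_pow]
    exact dvd_sub (hram v t hv) (Dvd.intro _ rfl)) hα0 hα
  rwa [Phi_div_right hl hζ hα0 hβ0 (pow_ne_zero l hγ0), Phi_ell_right hl hζ hα0 hγ0,
    sub_zero] at this

section

variable {l : ℕ} [Fact l.Prime] {K : Type} [Field K] [NumberField K] {ζ : K}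

theorem step1_OvR1 (hl : 2 < l) (hd : Key1Stmt l ∧ Key2Stmt l) (hζ : IsPrimitiveRoot ζ l) {α β : K}
    (hα0 : α ≠ 0) (hβ0 : β ≠ 0) (hα : Near l ζ (l + 1) α) (hβ : Near l ζ (l + 1) β)
    (h : ∀ v : Pr K, Tm l v → ¬(l : ℤ) ∣ ord v β → (l : ℤ) ∣ ord v α) : Phi l ζ α β = 0 := by
  classical
  obtain ⟨A, hA⟩ := exists_ram (l := l) α
  obtain ⟨B, hB⟩ := exists_ram (l := l) β
  obtain ⟨p, tp, hp⟩ := exists_tame hl A
  obtain ⟨q, tq, hq⟩ := exists_tame hl (insert p B)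
  have h0 := mul_ne_zero hα0 hβ0
  obtain ⟨z, hz, h1, h2⟩ := exists_zp (l := l) h0 (insert p B) (insert q A) fun v hv e => by
    rcases Finset.mem_insert.1 hv with rfl | hv
    · exact hq e
    · rcases Finset.mem_insert.1 e with rfl | e
      · exact hp hv
      · exact ((hA v).1 hv).2 (h v ((hB v).1 e).1 ((hB v).1 e).2)
  have ht := mul_ne_zero h0 (pow_ne_zero l hz)
  have n1 : ∀ v ∈ insert p B, v.valuation K (1 + α * β * z ^ l - 1) < 1 := fun v hv => by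
    rw [add_sub_cancel_left, val_lt_one_iff v ht]
    exact h1 v hv
  have hν := (ord_near_one (n1 p (Finset.mem_insert_self _ _))).1
  have e1 := r0_OvR1 hl hd hζ hβ0 hβ (insert p B) (Finset.insert_nonempty _ _)
    (fun v hv => (Finset.mem_insert.1 hv).elim (fun e => e ▸ tp) fun e => ((hB v).1 e).1)
    (fun v t hv => by
      by_contra e
      exact hv (Finset.mem_insert_of_mem ((hB v).2 ⟨t, e⟩))) hν n1
  have e2 := r0_OvR1 hl hd hζ hα0 hα (insert q A) (Finset.insert_nonempty _ _)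
    (fun v hv => (Finset.mem_insert.1 hv).elim (fun e => e ▸ tq) fun e => ((hA v).1 e).1)
    (fun v t hv => by
      by_contra e
      exact hv (Finset.mem_insert_of_mem ((hA v).2 ⟨t, e⟩))) (div_ne_zero hν ht) fun v hv => by
      rw [add_div, div_self ht, add_sub_cancel_right, one_div, val_lt_one_iff v (inv_ne_zero ht),
        ord_inv]
      exact neg_pos.2 (h2 v hv)
  have e3 := Phi_steinberg hl hζ (neg_ne_zero.2 ht) fun e => hν (by rw [← e]; ring)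
  rw [sub_neg_eq_add, Phi_neg_left hl hζ ht hν, Phi_mul_left hl hζ h0 (pow_ne_zero l hz) hν,
    Phi_mul_left hl hζ hα0 hβ0 hν, Phi_ell_left hl hζ hz hν, Phi_swap hl hζ hν hα0,
    Phi_swap hl hζ hν hβ0, e1] at e3
  rw [Phi_div_left hl hζ hν ht hα0, Phi_mul_left hl hζ h0 (pow_ne_zero l hz) hα0,
    Phi_mul_left hl hζ hα0 hβ0 hα0, Phi_ell_left hl hζ hz hα0, Phi_self hl hζ,
    Phi_swap hl hζ hα0 hβ0] at e2
  linear_combination e2 + e3

theorem step2_OvR1 (hl : 2 < l) (hd : Key1Stmt l ∧ Key2Stmt l) (hζ : IsPrimitiveRoot ζ l) {α β : K}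
    (hα0 : α ≠ 0) (hβ0 : β ≠ 0) (hβ : Near l ζ (l + 1) β)
    (h : ∀ v : Pr K, Tm l v → ¬(l : ℤ) ∣ ord v β → (l : ℤ) ∣ ord v α) : Phi l ζ α β = 0 := by
  classical
  obtain ⟨B, hB⟩ := exists_ram (l := l) β
  obtain ⟨p, tp, -⟩ := exists_tame (K := K) hl ∅
  have hz : 1 - ζ ≠ 0 := sub_ne_zero.2 (hζ.ne_one (by omega)).symm
  have tm : ∀ v ∈ insert p B, Tm l v := fun v hv =>
    (Finset.mem_insert.1 hv).elim (fun e => e ▸ tp) fun e => ((hB v).1 e).1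
  obtain ⟨x, hx, h1⟩ := wa' (insert p B ∪ (finite_wild (l := l)).toFinset)
    (fun v => if Tm l v then 1 else α⁻¹) fun v =>
      if Tm l v then -1 else ord v α - ord v ((1 - ζ) ^ (l + 1))
  have n1 : ∀ v ∈ insert p B, v.valuation K (x - 1) < 1 := fun v hv => by
    have := h1 v (Finset.mem_union_left _ hv)
    rw [if_pos (tm v hv), if_pos (tm v hv)] at this
    exact this.trans_lt (by rw [← WithZero.exp_zero, WithZero.exp_lt_exp]; omega)
  have e1 := r0_OvR1 hl hd hζ hβ0 hβ (insert p B) (Finset.insert_nonempty _ _) tm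
    (fun v t hv => by
      by_contra e
      exact hv (Finset.mem_insert_of_mem ((hB v).2 ⟨t, e⟩))) hx n1
  have e2 := step1_OvR1 hl hd hζ (mul_ne_zero hα0 hx) hβ0 ⟨1, one_ne_zero, fun v t => by
    have := h1 v (Finset.mem_union_right _ ((Set.Finite.mem_toFinset _).2 t))
    rw [if_neg t, if_neg t] at this
    rw [one_pow, div_one, show α * x - 1 = α * (x - α⁻¹) by rw [mul_sub, mul_inv_cancel₀ hα0],
      map_mul, ← map_pow, val_eq_exp v hα0, val_eq_exp v (pow_ne_zero _ hz)]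
    refine (mul_le_mul_right this _).trans_eq ?_
    rw [← WithZero.exp_add]
    congr 1
    ring⟩ hβ fun v t e => by
      rw [ord_mul v hα0 hx, (ord_near_one (n1 v (Finset.mem_insert_of_mem ((hB v).2 ⟨t, e⟩)))).2,
        add_zero]
      exact h v t e
  rwa [Phi_mul_left hl hζ hα0 hx hβ0, e1, add_zero] at e2

theorem step3_OvR1 (hl : 2 < l) (hd : Key1Stmt l ∧ Key2Stmt l) (hζ : IsPrimitiveRoot ζ l) {β : K}
    (hβ0 : β ≠ 0) (hβ : Near l ζ (l + 1) β) (S : Finset (Pr K)) : ∀ α : K, α ≠ 0 →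
      (∀ v : Pr K, v ∉ S → Tm l v → ¬(l : ℤ) ∣ ord v β → (l : ℤ) ∣ ord v α) →
        Phi l ζ α β = 0 := by
  classical
  have : NeZero l := ⟨(Fact.out : l.Prime).ne_zero⟩
  obtain ⟨B, hB⟩ := exists_ram (l := l) β
  induction S using Finset.induction_on with
  | empty => exact fun α hα h => step2_OvR1 hl hd hζ hα hβ0 hβ fun v => h v (by simp)
  | insert p S _ ih =>
    intro α hα h
    by_cases hp : (l : ℤ) ∣ ord p β
    · refine ih α hα fun v hv t e => h v (fun e' => ?_) t e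
      rcases Finset.mem_insert.1 e' with rfl | e'
      · exact e hp
      · exact hv e'
    obtain ⟨z, hz, h1, h2⟩ := exists_zp (l := l) hβ0 (B.erase p) {p} (by simp)
    have ht := mul_ne_zero hβ0 (pow_ne_zero l hz)
    have h3 := h2 p (Finset.mem_singleton_self p)
    obtain ⟨hν, h4⟩ := ord_of_sub (v := p) (x := 1 - β * z ^ l) (y := -(β * z ^ l)) (by
      rw [sub_neg_eq_add, sub_add_cancel, map_one, Valuation.map_neg, val_eq_exp p ht,
        ← WithZero.exp_zero, WithZero.exp_lt_exp]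
      omega)
    have e1 := Phi_steinberg hl hζ ht fun e => hν (by rw [e, sub_self])
    rw [Phi_mul_left hl hζ hβ0 (pow_ne_zero l hz) hν, Phi_ell_left hl hζ hz hν, add_zero,
      Phi_swap hl hζ hν hβ0, neg_eq_zero] at e1
    obtain ⟨k, hk⟩ : ∃ k : ℕ, (k : ZMod l) = -(ord p α : ZMod l) / (ord p β : ZMod l) :=
      ⟨_, ZMod.natCast_zmod_val _⟩
    have e2 := ih _ (mul_ne_zero hα (pow_ne_zero k hν)) fun v hv t e => by
      rw [ord_mul v hα (pow_ne_zero k hν), ord_pow]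
      rcases eq_or_ne v p with rfl | hne
      · rw [h4, ord_neg, ord_mul v hβ0 (pow_ne_zero l hz), ord_pow,
          ← ZMod.intCast_zmod_eq_zero_iff_dvd]
        push_cast
        rw [hk, ZMod.natCast_self, zero_mul, add_zero,
          div_mul_cancel₀ _ (mt (ZMod.intCast_zmod_eq_zero_iff_dvd _ _).1 hp), add_neg_cancel]
      · rw [(ord_near_one (v := v) (x := 1 - β * z ^ l) (by
          rw [sub_sub_cancel_left, Valuation.map_neg, val_lt_one_iff v ht]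
          exact h1 v (Finset.mem_erase.2 ⟨hne, (hB v).2 ⟨t, e⟩⟩))).2, mul_zero, add_zero]
        exact h v (fun e' => (Finset.mem_insert.1 e').elim hne hv) t e
    rwa [Phi_mul_left hl hζ hα (pow_ne_zero k hν) hβ0, Phi_pow_left hl hζ hν hβ0, e1, mul_zero,
      add_zero] at e2

end

theorem r1G_stmt (p : ℕ) [Fact p.Prime] (h1 : Key1Stmt p) (h2 : Key2Stmt p) : R1GStmt p := by
  intro K _ _ ζ hl hζ α β hα0 hβ0 hβ
  obtain ⟨B, hB⟩ := exists_ram (l := p) β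
  exact step3_OvR1 hl ⟨h1, h2⟩ hζ hβ0 hβ B α hα0 fun v hv t e => absurd ((hB v).2 ⟨t, e⟩) hv

end Pool.Agent.MP_f68ac8_nt.Ev

end

section

/-! Proportionality at unramified primes of degree one. -/

namespace Pool.Agent.MP_14ad9d_nt.Full.R0Aux

open NumberField IsDedekindDomain
open Pool.Agent.MP_f68ac8_nt.Ev (KeyData)

variable {l : ℕ} [Fact l.Prime] {K : Type} [Field K] [NumberField K] {ζ : K}

/-- an auxiliary prime of degree one with prescribed ratio of characters -/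
theorem exists_aux_OvKey1 (hl : 2 < l) (hζ : IsPrimitiveRoot ζ l) {v₁ v₂ : Pr K} (d₁ : Deg1 v₁)
    (d₂ : Deg1 v₂) (u₁ : ord v₁ ((Ideal.absNorm v₁.asIdeal : ℕ) : K) = 1)
    (u₂ : ord v₂ ((Ideal.absNorm v₂.asIdeal : ℕ) : K) = 1)
    (hN : Ideal.absNorm v₁.asIdeal ≠ Ideal.absNorm v₂.asIdeal) {ω₁ : ZMod l}
    (hω : ω₁ ≠ 0) (ω₂ : ZMod l) :
    ∃ r : Pr K, Tm l r ∧ Deg1 r ∧ ((Ideal.absNorm r.asIdeal : ℕ) : 𝓞 K) ∉ v₁.asIdeal ∧
      ((Ideal.absNorm r.asIdeal : ℕ) : 𝓞 K) ∉ v₂.asIdeal ∧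
      chi l ζ r ((Ideal.absNorm v₁.asIdeal : ℕ) : K) ≠ 0 ∧
      chi l ζ r ((Ideal.absNorm v₁.asIdeal : ℕ) : K) * ω₂ =
        chi l ζ r ((Ideal.absNorm v₂.asIdeal : ℕ) : K) * ω₁ := by
  have hp : l.Prime := Fact.out
  have : NeZero l := ⟨hp.ne_zero⟩
  have hne : ∀ p : ℕ, p.Prime → (p : 𝓞 K) ∈ v₁.asIdeal → (p : 𝓞 K) ∉ v₂.asIdeal :=
    fun p hp h₁ h₂ => hN ((prime_eq d₁ hp v₁.asIdeal.absNorm_mem h₁).trans
      (prime_eq hp d₂ h₂ v₂.asIdeal.absNorm_mem))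
  have ef : ∀ v : Pr K, Deg1 v → ord v ((Ideal.absNorm v.asIdeal : ℕ) : K) = 1 →
      ∃ p f : ℕ, p.Prime ∧ ¬l ∣ f ∧ Ideal.absNorm v.asIdeal = p ^ f ∧ (p : 𝓞 K) ∈ v.asIdeal ∧
        ¬(l : ℤ) ∣ ord v (p : K) := fun v d u =>
    ⟨_, 1, d, hp.not_dvd_one, (pow_one _).symm, v.asIdeal.absNorm_mem, by
      rw [u]
      exact_mod_cast hp.not_dvd_one⟩
  obtain ⟨p₁, f₁, hp₁, hf₁, n₁, m₁, e₁⟩ := ef v₁ d₁ u₁
  obtain ⟨p₂, f₂, hp₂, hf₂, n₂, m₂, e₂⟩ := ef v₂ d₂ u₂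
  have z₁ : (p₁ : K) ≠ 0 := by exact_mod_cast hp₁.ne_zero
  have z₂ : (p₂ : K) ≠ 0 := by exact_mod_cast hp₂.ne_zero
  have hf₁' : (f₁ : ZMod l) ≠ 0 := mt (ZMod.natCast_eq_zero_iff _ _).1 hf₁
  have hf₂' : (f₂ : ZMod l) ≠ 0 := mt (ZMod.natCast_eq_zero_iff _ _).1 hf₂
  have e₁' : (ord v₁ (p₁ : K) : ZMod l) ≠ 0 := mt (ZMod.intCast_zmod_eq_zero_iff_dvd _ _).1 e₁
  have e₂' : (ord v₂ (p₂ : K) : ZMod l) ≠ 0 := mt (ZMod.intCast_zmod_eq_zero_iff_dvd _ _).1 e₂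
  obtain ⟨a, ha⟩ : ∃ a : ℕ, (a : ZMod l) = f₁ * ω₂ := ⟨_, ZMod.natCast_zmod_val _⟩
  obtain ⟨b, hb⟩ : ∃ b : ℕ, (b : ZMod l) = -(f₂ * ω₁) := ⟨_, ZMod.natCast_zmod_val _⟩
  have hb' : (b : ZMod l) ≠ 0 := hb ▸ neg_ne_zero.2 (mul_ne_zero hf₂' hω)
  have hy : (p₁ : K) ^ a * (p₂ : K) ^ b ≠ 0 := mul_ne_zero (pow_ne_zero _ z₁) (pow_ne_zero _ z₂)
  have oy : ∀ v : Pr K, ord v ((p₁ : K) ^ a * (p₂ : K) ^ b) =
      a * ord v (p₁ : K) + b * ord v (p₂ : K) := fun v => by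
    rw [ord_mul v (pow_ne_zero _ z₁) (pow_ne_zero _ z₂), ord_pow, ord_pow]
  obtain ⟨r, h1, h2, h3, h4, h5, h6⟩ := (wc2 hl hζ z₁ hy fun i d e => by
    have hd0 : d ≠ 0 := by
      rintro rfl
      rw [zero_pow hp.ne_zero, mul_zero] at e
      exact z₁ e
    have o : ∀ v : Pr K, (ord v (p₁ : K) : ZMod l) =
        i * (a * ord v (p₁ : K) + b * ord v (p₂ : K)) := fun v => by
      have := congrArg (fun x => (ord v x : ZMod l)) e
      simp only [ord_mul v (pow_ne_zero _ hy) (pow_ne_zero _ hd0), ord_pow, oy] at this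
      push_cast at this
      rwa [ZMod.natCast_self, zero_mul, add_zero] at this
    have o₂ := o v₂
    rw [(nat_ord v₂ hp₁.ne_zero).2 (hne p₁ hp₁ m₁), Int.cast_zero, mul_zero, zero_add] at o₂
    have hi : (i : ZMod l) = 0 :=
      (mul_eq_zero.1 o₂.symm).resolve_right (mul_ne_zero hb' e₂')
    exact e₁' (by rw [o v₁, hi, zero_mul])).nonempty
  have h7 : ord r (p₂ : K) = 0 := by
    rw [oy, h3, mul_zero, zero_add] at h4
    refine (mul_eq_zero.1 h4).resolve_left fun e => hb' ?_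
    rw [Nat.cast_eq_zero.1 e, Nat.cast_zero]
  rw [chi_mul hζ h2 (pow_ne_zero _ z₁) (pow_ne_zero _ z₂) (by rw [ord_pow, h3, mul_zero])
    (by rw [ord_pow, h7, mul_zero]), chi_pow hζ h2 z₁ h3, chi_pow hζ h2 z₂ h7, ha, hb] at h6
  refine ⟨r, h2, h1, fun e => ?_, fun e => ?_, ?_, ?_⟩
  · exact (nat_ord r hp₁.ne_zero).1 h3 (prime_eq h1 hp₁ e m₁ ▸ r.asIdeal.absNorm_mem)
  · exact (nat_ord r hp₂.ne_zero).1 h7 (prime_eq h1 hp₂ e m₂ ▸ r.asIdeal.absNorm_mem)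
  · rw [n₁, Nat.cast_pow, chi_pow hζ h2 z₁ h3]
    exact mul_ne_zero hf₁' h5
  · rw [n₁, n₂, Nat.cast_pow, Nat.cast_pow, chi_pow hζ h2 z₁ h3, chi_pow hζ h2 z₂ h7]
    linear_combination h6

/-- the character from the first inequality is proportional to the residue symbol -/
theorem key_OvKey1 {β : K} {m : Finset (Pr K)} {ϖ : Pr K → K} {χ : Pr K → ZMod l}
    (D : KeyData l ζ β m ϖ χ) {v₁ v₂ : Pr K} (t₁ : Tm l v₁) (t₂ : Tm l v₂) (m₁ : v₁ ∉ m)
    (m₂ : v₂ ∉ m) (d₁ : Deg1 v₁) (d₂ : Deg1 v₂)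
    (u₁ : ord v₁ ((Ideal.absNorm v₁.asIdeal : ℕ) : K) = 1)
    (u₂ : ord v₂ ((Ideal.absNorm v₂.asIdeal : ℕ) : K) = 1)
    (hN : Ideal.absNorm v₁.asIdeal ≠ Ideal.absNorm v₂.asIdeal)
    (hω : tame l ζ v₁ β (ϖ v₁) ≠ 0) :
    χ v₁ * tame l ζ v₂ β (ϖ v₂) = χ v₂ * tame l ζ v₁ β (ϖ v₁) := by
  obtain ⟨hl, hζ, hβ0, hram, hu', hχ0, hχ⟩ := D
  have hϖ0 : ∀ v, ϖ v ≠ 0 := fun v => (hu' v).1
  have hϖ : ∀ v, ord v (ϖ v) = 1 := fun v => (hu' v).2
  have hp : l.Prime := Fact.out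
  have : NeZero l := ⟨hp.ne_zero⟩
  obtain ⟨r, hr, r1, n₁, n₂, c₁, c₂⟩ := exists_aux_OvKey1 hl hζ d₁ d₂ u₁ u₂ hN hω (tame l ζ v₂ β (ϖ v₂))
  obtain ⟨μ, hμ0, hμ⟩ := gauss hl hζ hr r1
  set p := Ideal.absNorm r.asIdeal with hpd
  have hμK : ∀ v : Pr K, Tm l v → (p : 𝓞 K) ∉ v.asIdeal → ord v μ = 0 ∧
      chi l ζ v μ = -chi l ζ r ((Ideal.absNorm v.asIdeal : ℕ) : K) := hμ K
  obtain ⟨a, ha⟩ : ∃ a : ℕ, (a : ZMod l) = chi l ζ r ((Ideal.absNorm v₁.asIdeal : ℕ) : K) :=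
    ⟨_, ZMod.natCast_zmod_val _⟩
  obtain ⟨b, hb⟩ : ∃ b : ℕ, (b : ZMod l) = tame l ζ v₁ β (ϖ v₁) := ⟨_, ZMod.natCast_zmod_val _⟩
  have hε : β ^ a * μ ^ b ≠ 0 := mul_ne_zero (pow_ne_zero _ hβ0) (pow_ne_zero _ hμ0)
  have hεv : ∀ v : Pr K, Tm l v → v ∉ m → (p : 𝓞 K) ∉ v.asIdeal → (l : ℤ) ∣ ord v (β ^ a * μ ^ b) ∧
      tame l ζ v (β ^ a * μ ^ b) (ϖ v) = a * tame l ζ v β (ϖ v) + b * chi l ζ v μ := by
    intro v hv hm hpv
    constructor
    · rw [ord_mul v (pow_ne_zero _ hβ0) (pow_ne_zero _ hμ0), ord_pow, ord_pow, (hμK v hv hpv).1,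
        mul_zero, add_zero]
      exact (hram v hv hm).mul_left _
    · rw [tame_mul_left hl hζ hv (pow_ne_zero _ hβ0) (pow_ne_zero _ hμ0) (hϖ0 v),
        tame_pow_left hl hζ hv hβ0 (hϖ0 v), tame_pow_left hl hζ hv hμ0 (hϖ0 v),
        tame_unit hl hζ hv hμ0 (hμK v hv hpv).1, hϖ, Int.cast_one, one_mul]
  obtain ⟨E, _, _, _, _, θ, hθ, hq⟩ := exists_ext hl hζ hε
  obtain ⟨q₁, o₁, f₁⟩ := hq v₁ t₁ (hεv v₁ t₁ m₁ n₁).1 _ (hϖ v₁) (by
    rw [(hεv v₁ t₁ m₁ n₁).2, (hμK v₁ t₁ n₁).2, ha, hb]; ring)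
  obtain ⟨q₂, o₂, f₂⟩ := hq v₂ t₂ (hεv v₂ t₂ m₂ n₂).1 _ (hϖ v₂) (by
    rw [(hεv v₂ t₂ m₂ n₂).2, (hμK v₂ t₂ n₂).2, ha, hb]; linear_combination c₂)
  choose u hu using fun w : Pr E => exists_under (E := K) w
  set 𝔐 : Ideal (𝓞 E) := Ideal.span {(p : 𝓞 E)} * (Ideal.span {(l : 𝓞 E)} *
    (∏ v ∈ m, v.asIdeal).map (algebraMap (𝓞 K) (𝓞 E))) with h𝔐
  have M0 : 𝔐 ≠ ⊥ := by
    refine mul_ne_zero (by simpa using r1.ne_zero) (mul_ne_zero (by simpa using hp.ne_zero) ?_)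
    exact Ideal.map_ne_bot_of_ne_bot (Finset.prod_ne_zero_iff.2 fun v _ => v.ne_bot)
  have M1 : ∀ (q : Pr E) (v : Pr K), q.asIdeal.LiesOver v.asIdeal →
      (¬𝔐 ≤ q.asIdeal ↔ Tm l v ∧ v ∉ m ∧ (p : 𝓞 K) ∉ v.asIdeal) := fun q v h => by
    rw [h𝔐, q.isPrime.mul_le, q.isPrime.mul_le, Ideal.span_singleton_le_iff_mem,
      Ideal.span_singleton_le_iff_mem, nat_over h, nat_over h, Ideal.map_le_iff_le_comap,
      ← Ideal.under_def, ← h.over, v.isPrime.prod_le, Tm]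
    have : (∃ i ∈ m, i.asIdeal ≤ v.asIdeal) ↔ v ∈ m := by
      refine ⟨fun ⟨i, hi, e⟩ => ?_, fun e => ⟨v, e, le_rfl⟩⟩
      rwa [← HeightOneSpectrum.ext (i.isMaximal.eq_of_le v.isPrime.ne_top e)]
    rw [this, not_or, not_or]
    exact ⟨fun h => ⟨h.2.1, h.2.2, h.1⟩, fun h => ⟨h.2.2, h.1, h.2.1⟩⟩
  let ψ : Pr E → ZMod l × ZMod l := fun q => ((q.asIdeal.inertiaDeg (𝓞 K) : ZMod l) * χ (u q),
    chi l ζ r ((Ideal.absNorm q.asIdeal : ℕ) : K))
  have hψ : ∀ a : 𝓞 E, a ≠ 0 → a - 1 ∈ 𝔐 → ∑ᶠ v, ord v (a : E) • ψ v = 0 := by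
    intro a a0 a1
    have a0' : (a : E) ≠ 0 := by simpa using a0
    have fin : Function.HasFiniteSupport fun v : Pr E => ord v (a : E) • ψ v :=
      (ord_finite (a : E)).subset fun w hw e => hw (by simp only [e, zero_smul])
    refine Prod.ext (((AddMonoidHom.fst _ _).map_finsum fin).trans ?_)
      (((AddMonoidHom.snd _ _).map_finsum fin).trans ?_)
    · refine (push_down u hu χ a0').trans (hχ _ (by simpa using a0') fun v hv =>
        norm_near_one fun w hw => ?_)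
      have h1 : 𝔐 ≤ w.asIdeal := by
        by_contra h
        exact ((M1 w v hw).1 h).2.1 hv
      simpa using (w.valuation_lt_one_iff_mem (K := E) _).2 (h1 a1)
    · exact sum_chi_norm hl hζ hr r.asIdeal.absNorm_mem a0
        (Ideal.mem_span_singleton.1 (Ideal.mul_le_left (h𝔐 ▸ a1)))
  have g₁ := (M1 q₁ v₁ o₁).2 ⟨t₁, m₁, n₁⟩
  have g₂ := (M1 q₂ v₂ o₂).2 ⟨t₂, m₂, n₂⟩
  obtain ⟨q, ⟨-, e⟩, g⟩ := (dl l hl 𝔐 M0 ψ hψ ((ψ q₂).2 • ψ q₁ - (ψ q₁).2 • ψ q₂)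
    (sub_mem (Submodule.smul_mem _ _ (Submodule.subset_span ⟨q₁, g₁, rfl⟩))
      (Submodule.smul_mem _ _ (Submodule.subset_span ⟨q₂, g₂, rfl⟩)))).exists_notMem_finite
      (Ideal.finite_factors M0)
  obtain ⟨t, mv, nv⟩ := (M1 q (u q) (hu q)).1 fun e => g (Ideal.dvd_iff_le.2 e)
  have e₁ := congrArg Prod.fst e
  have e₂ := congrArg Prod.snd e
  simp only [ψ, Prod.fst_sub, Prod.snd_sub, Prod.smul_fst, Prod.smul_snd, smul_eq_mul, f₁, f₂,
    absNorm_over o₁, absNorm_over o₂, pow_one, Nat.cast_one, one_mul, under_unique (hu q₁) o₁,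
    under_unique (hu q₂) o₂] at e₁ e₂
  have h1 := (hμ E q ((tm_over (hu q)).2 t) (mt (nat_over (hu q) p).1 nv)).2
  rw [chi_over hζ t (hu q) hμ0 (hμK _ t nv).1, e₂] at h1
  have h2 := tame_of_root hl hζ hε hθ t (hεv _ t mv nv).1 (hϖ0 _) (hϖ _) (hu q)
  rw [(hεv _ t mv nv).2, ha] at h2
  have h3 : (q.asIdeal.inertiaDeg (𝓞 K) : ZMod l) * χ (u q) = 0 := by
    rcases eq_or_ne (tame l ζ (u q) β (ϖ (u q))) 0 with h | h
    · rw [hχ0 _ t mv h, mul_zero]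
    · rw [mul_left_cancel₀ (mul_ne_zero c₁ h)
        (show _ * (q.asIdeal.inertiaDeg (𝓞 K) : ZMod l) = _ * 0 by
          linear_combination h2 - b * h1), zero_mul]
  refine mul_left_cancel₀ c₁ ?_
  linear_combination χ v₁ * c₂ - tame l ζ v₁ β (ϖ v₁) * (e₁ - h3)

end Pool.Agent.MP_14ad9d_nt.Full.R0Aux

namespace Pool.Agent.MP_f68ac8_nt.Ev

theorem key1_stmt (p : ℕ) [Fact p.Prime] : Key1Stmt p :=
  fun _ _ _ _ _ _ _ _ D _ _ => MP_14ad9d_nt.Full.R0Aux.key_OvKey1 D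

end Pool.Agent.MP_f68ac8_nt.Ev

end

section

namespace Pool.Agent.MP_f68ac8_nt.Ev

open NumberField IsDedekindDomain
open Pool.Agent.MP_14ad9d_nt.Full Pool.Agent.MP_14ad9d_nt.Full.R0Aux

section
variable {p : ℕ} [hp : Fact p.Prime]

/-- the conclusion at one prime -/
def Concl_OvKey2 (p : ℕ) [Fact p.Prime] {K : Type} [Field K] [NumberField K] (ζ β : K)
    (m : Finset (Pr K)) (ϖ : Pr K → K) (χ : Pr K → ZMod p) (v : Pr K) : Prop :=
  {u : Pr K | Deg1 u ∧ Tm p u ∧ u ∉ m ∧ χ u = χ v ∧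
    tame p ζ u β (ϖ u) = tame p ζ v β (ϖ v)}.Infinite

/-- the symbol of an unramified element in an extension -/
theorem tame_up_OvKey2 {K E : Type} [Field K] [NumberField K] [Field E] [NumberField E]
    [Algebra K E] {ζ : K} (hl : 2 < p) (hζ : IsPrimitiveRoot ζ p) {x : K} (hx : x ≠ 0)
    {v : Pr K} (hv : Tm p v) (h0 : (p : ℤ) ∣ ord v x) {ϖ : K} (hϖ0 : ϖ ≠ 0) (hϖ : ord v ϖ = 1)
    {w : Pr E} (h : w.asIdeal.LiesOver v.asIdeal) {π : E} (hπ0 : π ≠ 0) (hπ : ord w π = 1) :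
    tame p (algebraMap K E ζ) w (algebraMap K E x) π =
      (w.asIdeal.inertiaDeg (𝓞 K) : ZMod p) * tame p ζ v x ϖ := by
  have hζ' : IsPrimitiveRoot (algebraMap K E ζ) p := hζ.map_of_injective (algebraMap K E).injective
  have hw : Tm p w := (tm_over h).2 hv
  obtain ⟨k, hk⟩ := h0
  have h1 : ϖ ^ k ≠ 0 := zpow_ne_zero _ hϖ0
  have h2 : x / (ϖ ^ k) ^ p ≠ 0 := div_ne_zero hx (pow_ne_zero _ h1)
  have h3 : ord v (x / (ϖ ^ k) ^ p) = 0 := by
    rw [ord_div v hx (pow_ne_zero _ h1), ord_pow, ord_zpow, hϖ, hk, mul_one, sub_self]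
  have h4 := tame_mul_left hl hζ hv h2 (pow_ne_zero p h1) hϖ0
  rw [div_mul_cancel₀ x (pow_ne_zero _ h1), tame_pow_left hl hζ hv h1 hϖ0, ZMod.natCast_self,
    zero_mul, add_zero, tame_unit hl hζ hv h2 h3, hϖ, Int.cast_one, one_mul] at h4
  have g1 : algebraMap K E (ϖ ^ k) ≠ 0 := (map_ne_zero _).2 h1
  have g2 : algebraMap K E (x / (ϖ ^ k) ^ p) ≠ 0 := (map_ne_zero _).2 h2
  have g3 : ord w (algebraMap K E (x / (ϖ ^ k) ^ p)) = 0 := by rw [ord_over h, h3, mul_zero]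
  have g4 := tame_mul_left hl hζ' hw g2 (pow_ne_zero p g1) hπ0
  rw [← map_pow, ← map_mul, div_mul_cancel₀ x (pow_ne_zero _ h1), map_pow,
    tame_pow_left hl hζ' hw g1 hπ0, ZMod.natCast_self, zero_mul, add_zero,
    tame_unit hl hζ' hw g2 g3, hπ, Int.cast_one, one_mul, chi_over hζ hv h h2 h3] at g4
  rw [g4, h4]

/-- the data ascend to a Galois extension -/
theorem ascend_OvKey2 {K : Type} [Field K] [NumberField K] {ζ β : K} {m : Finset (Pr K)}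
    {ϖ : Pr K → K} {χ : Pr K → ZMod p} (D : KeyData p ζ β m ϖ χ) (E : Type) [Field E]
    [NumberField E] [Algebra K E] [IsGalois K E] :
    ∃ (mE : Finset (Pr E)) (ϖE : Pr E → E) (χE : Pr E → ZMod p),
      KeyData p (algebraMap K E ζ) (algebraMap K E β) mE ϖE χE ∧
      ∀ (v : Pr K) (q : Pr E), q.asIdeal.LiesOver v.asIdeal → q.asIdeal.inertiaDeg (𝓞 K) = 1 →
        Tm p v → v ∉ m → q ∉ mE ∧
          (Concl_OvKey2 p (algebraMap K E ζ) (algebraMap K E β) mE ϖE χE q →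
            Concl_OvKey2 p ζ β m ϖ χ v) := by
  classical
  choose u hu using fun w : Pr E => exists_under (E := K) w
  obtain ⟨π, hπ0, hπ⟩ : ∃ π : Pr E → E, (∀ v, π v ≠ 0) ∧ ∀ v, ord v (π v) = 1 := by
    choose π h0 h1 using fun v : Pr E => exists_ord_eq_one v
    exact ⟨fun v => π v, fun v => by simpa using h0 v, h1⟩
  have fin : {w : Pr E | u w ∈ m}.Finite := by
    refine (m.finite_toSet.biUnion fun v _ => Sym2Aux.finite_over (E' := E) v).subset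
      fun w hw => ?_
    simp only [Set.mem_iUnion]
    exact ⟨u w, hw, hu w⟩
  have hm : ∀ w, w ∈ fin.toFinset ↔ u w ∈ m := fun w => Set.Finite.mem_toFinset _
  have up : ∀ w : Pr E, Tm p (u w) → u w ∉ m →
      tame p (algebraMap K E ζ) w (algebraMap K E β) (π w) =
        (w.asIdeal.inertiaDeg (𝓞 K) : ZMod p) * tame p ζ (u w) β (ϖ (u w)) := fun w t n =>
    tame_up_OvKey2 D.two D.prim D.ne t (D.ram _ t n) (D.uni _).1 (D.uni _).2 (hu w) (hπ0 w) (hπ w)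
  refine ⟨fin.toFinset, π, fun w => (w.asIdeal.inertiaDeg (𝓞 K) : ZMod p) * χ (u w),
    ⟨D.two, D.prim.map_of_injective (algebraMap K E).injective, (map_ne_zero _).2 D.ne,
      fun w t n => ?_, fun w => ⟨hπ0 w, hπ w⟩, fun w t n e => ?_, fun α α0 α1 => ?_⟩,
    fun v q o f t n => ?_⟩
  · rw [ord_over (hu w)]
    exact (D.ram _ ((tm_over (hu w)).1 t) (mt (hm w).2 n)).mul_left _
  · have t' := (tm_over (hu w)).1 t
    have n' := mt (hm w).2 n
    rw [up w t' n'] at e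
    rcases mul_eq_zero.1 e with e | e
    · rw [e, zero_mul]
    · rw [D.zero _ t' n' e, mul_zero]
  · have h1 := push_down u hu χ α0
    simp only [zsmul_eq_mul] at h1
    refine h1.trans (D.ray _ (by simpa using α0) fun v hv => norm_near_one fun w hw => α1 w ?_)
    rw [hm, under_unique (hu w) hw]
    exact hv
  · have e : u q = v := under_unique (hu q) o
    refine ⟨fun h => n (e ▸ (hm q).1 h), fun h hf => h ?_⟩
    refine (hf.biUnion fun v _ => Sym2Aux.finite_over (E' := E) v).subset fun w hw => ?_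
    obtain ⟨d, t', n', c1, c2⟩ := hw
    have t2 := (tm_over (hu w)).1 t'
    have n2 := mt (hm w).2 n'
    rw [Deg1, absNorm_over (hu w)] at d
    have f' := d.eq_one_of_pow
    rw [f', pow_one] at d
    rw [up w t2 n2, up q (e ▸ t) (e ▸ n), f, f', e, Nat.cast_one, one_mul, one_mul] at c2
    simp only [f, f', e, Nat.cast_one, one_mul] at c1
    simp only [Set.mem_iUnion]
    exact ⟨u w, ⟨d, t2, n2, c1, c2⟩, hu w⟩

theorem ord_mu_OvKey2 {K : Type} [Field K] [NumberField K] {ζ μ : K} (hζ : IsPrimitiveRoot ζ p)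
    {i : ℕ} (hμ : μ ^ p ^ i = ζ) : μ ≠ 0 ∧ ∀ v : Pr K, ord v μ = 0 := by
  have hp' : p.Prime := Fact.out
  have h1 : μ ^ (p ^ i * p) = 1 := by rw [pow_mul, hμ, hζ.pow_eq_one]
  have h2 : p ^ i * p ≠ 0 := mul_ne_zero (pow_ne_zero _ hp'.ne_zero) hp'.ne_zero
  have h0 : μ ≠ 0 := by
    rintro rfl
    rw [zero_pow h2] at h1
    exact zero_ne_one h1
  exact ⟨h0, fun v => (Sym1Aux.val_eq_one_iff v h0).1 (Sym1Aux.val_root _ h2 h1)⟩

theorem eps_OvKey2 {K : Type} [Field K] [NumberField K] {ζ β μ : K} {m : Finset (Pr K)}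
    {ϖ : Pr K → K} {χ : Pr K → ZMod p} (D : KeyData p ζ β m ϖ χ) {i : ℕ} (hμ : μ ^ p ^ i = ζ)
    (a b : ℕ) {v : Pr K} (hv : Tm p v) (hm : v ∉ m) : (p : ℤ) ∣ ord v (β ^ a * μ ^ b) ∧
      tame p ζ v (β ^ a * μ ^ b) (ϖ v) = a * tame p ζ v β (ϖ v) + b * MP_14ad9d_nt.Full.chi p ζ v μ := by
  obtain ⟨μ0, oμ⟩ := ord_mu_OvKey2 D.prim hμ
  constructor
  · rw [ord_mul v (pow_ne_zero _ D.ne) (pow_ne_zero _ μ0), ord_pow, ord_pow, oμ, mul_zero,
      add_zero]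
    exact (D.ram v hv hm).mul_left _
  · rw [tame_mul_left D.two D.prim hv (pow_ne_zero _ D.ne) (pow_ne_zero _ μ0) (D.uni v).1,
      tame_pow_left D.two D.prim hv D.ne (D.uni v).1, tame_pow_left D.two D.prim hv μ0 (D.uni v).1,
      tame_unit D.two D.prim hv μ0 (oμ v), (D.uni v).2, Int.cast_one, one_mul]

/-- the case in which the symbol of `β` is a multiple of the symbol of a root of unity -/
theorem base_OvKey2 (h : MuStmt p) {E : Type} [Field E] [NumberField E] {ζ β μ θ : E}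
    {m : Finset (Pr E)} {ϖ : Pr E → E} {χ : Pr E → ZMod p} (D : KeyData p ζ β m ϖ χ) {i : ℕ}
    (hμ : μ ^ p ^ i = ζ) {a b : ℕ} (hθ : θ ^ p = β ^ a * μ ^ b) (ha : (a : ZMod p) ≠ 0)
    {q : Pr E} (t : Tm p q) (n : q ∉ m) : Concl_OvKey2 p ζ β m ϖ χ q := by
  classical
  have hp' : p.Prime := Fact.out
  obtain ⟨μ0, oμ⟩ := ord_mu_OvKey2 D.prim hμ
  have θ0 : θ ≠ 0 := by
    rintro rfl
    rw [zero_pow hp'.ne_zero] at hθ
    exact mul_ne_zero (pow_ne_zero _ D.ne) (pow_ne_zero _ μ0) hθ.symm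
  have rel : ∀ w : Pr E, Tm p w → w ∉ m →
      (a : ZMod p) * tame p ζ w β (ϖ w) + b * MP_14ad9d_nt.Full.chi p ζ w μ = 0 := fun w tw nw => by
    rw [← (eps_OvKey2 D hμ a b tw nw).2, ← hθ, tame_pow_left D.two D.prim tw θ0 (D.uni w).1,
      ZMod.natCast_self, zero_mul]
  set 𝔐 : Ideal (𝓞 E) := Ideal.span {(p : 𝓞 E) ^ (i + 2)} * ∏ v ∈ m, v.asIdeal with h𝔐
  have M0 : 𝔐 ≠ ⊥ :=
    mul_ne_zero (by simpa using hp'.ne_zero) (Finset.prod_ne_zero_iff.2 fun v _ => v.ne_bot)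
  have M1 : ∀ w : Pr E, (¬𝔐 ≤ w.asIdeal ↔ Tm p w ∧ w ∉ m) := fun w => by
    rw [h𝔐, w.isPrime.mul_le, Ideal.span_singleton_le_iff_mem, w.isPrime.prod_le, Tm,
      w.isPrime.pow_mem_iff_mem _ (by omega)]
    have : (∃ i ∈ m, i.asIdeal ≤ w.asIdeal) ↔ w ∈ m := by
      refine ⟨fun ⟨i, hi, e⟩ => ?_, fun e => ⟨w, e, le_rfl⟩⟩
      rwa [← HeightOneSpectrum.ext (i.isMaximal.eq_of_le w.isPrime.ne_top e)]
    rw [this, not_or]
  let ψ : Pr E → ZMod p × ZMod p := fun w => (χ w, MP_14ad9d_nt.Full.chi p ζ w μ)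
  have hψ : ∀ c : 𝓞 E, c ≠ 0 → c - 1 ∈ 𝔐 → ∑ᶠ v, ord v (c : E) • ψ v = 0 := by
    intro c c0 c1
    have c0' : (c : E) ≠ 0 := by simpa using c0
    have fin : Function.HasFiniteSupport fun v : Pr E => ord v (c : E) • ψ v :=
      (ord_finite (c : E)).subset fun w hw e => hw (by simp only [e, zero_smul])
    refine Prod.ext (((AddMonoidHom.fst _ _).map_finsum fin).trans ?_)
      (((AddMonoidHom.snd _ _).map_finsum fin).trans ?_)
    · refine Eq.trans (finsum_congr fun v => ?_) (D.ray _ c0' fun v hv => ?_)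
      · exact zsmul_eq_mul (χ v) _
      · have h1 : 𝔐 ≤ v.asIdeal := by
          by_contra h
          exact ((M1 v).1 h).2 hv
        simpa using (v.valuation_lt_one_iff_mem (K := E) _).2 (h1 c1)
    · exact (h E ζ μ i D.two D.prim hμ).2 c c0
        (Ideal.mem_span_singleton.1 ((Ideal.mul_le_left : Ideal.span {(p : 𝓞 E) ^ (i + 2)} * ∏ v ∈ m, v.asIdeal ≤ _) c1))
  have key := (dl p D.two 𝔐 M0 ψ hψ (ψ q)
    (Submodule.subset_span ⟨q, (M1 q).2 ⟨t, n⟩, rfl⟩)).sdiff (Ideal.finite_factors M0)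
  refine key.mono fun w hw => ?_
  obtain ⟨⟨d, e⟩, g⟩ := hw
  obtain ⟨tw, nw⟩ := (M1 w).1 fun e => g (Ideal.dvd_iff_le.2 e)
  have e₁ : χ w = χ q := congrArg Prod.fst e
  have e₂ : MP_14ad9d_nt.Full.chi p ζ w μ = MP_14ad9d_nt.Full.chi p ζ q μ := congrArg Prod.snd e
  refine ⟨d, tw, nw, e₁, mul_left_cancel₀ ha ?_⟩
  have r1 := rel w tw nw
  have r2 := rel q t n
  rw [e₂] at r1
  linear_combination r1 - r2

theorem main_OvKey2 (h : MuStmt p) (N : ℕ) : ∀ (K : Type) [Field K] [NumberField K] (ζ β μ : K)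
    (m : Finset (Pr K)) (ϖ : Pr K → K) (χ : Pr K → ZMod p) (i : ℕ) (v : Pr K),
    KeyData p ζ β m ϖ χ → μ ^ p ^ i = ζ → Tm p v → v ∉ m →
    Ideal.absNorm v.asIdeal ≤ i + N → Concl_OvKey2 p ζ β m ϖ χ v := by
  have hp' : p.Prime := Fact.out
  have : NeZero p := ⟨hp'.ne_zero⟩
  induction N with
  | zero =>
    intro K _ _ ζ β μ m ϖ χ i v D hμ t n hN
    have h1 := Sym1Aux.one_lt_norm v
    have h2 := Nat.le_of_dvd (by omega) ((h K ζ μ i D.two D.prim hμ).1 v t)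
    have h3 : i + 1 < p ^ (i + 1) := Nat.lt_pow_self hp'.one_lt
    omega
  | succ N ih =>
    intro K _ _ ζ β μ m ϖ χ i v D hμ t n hN
    obtain ⟨μ0, oμ⟩ := ord_mu_OvKey2 D.prim hμ
    by_cases c : MP_14ad9d_nt.Full.chi p ζ v μ = 0
    · obtain ⟨E, _, _, _, _, θ, hθ, hq⟩ := exists_ext D.two D.prim μ0
      obtain ⟨q, o, f⟩ := hq v t (by rw [oμ]; exact dvd_zero _) _ (D.uni v).2 (by
        rw [tame_unit D.two D.prim t μ0 (oμ v), c, mul_zero])
      obtain ⟨mE, ϖE, χE, DE, hE⟩ := ascend_OvKey2 D E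
      obtain ⟨nq, hc⟩ := hE v q o f t n
      refine hc (ih E _ _ θ mE ϖE χE (i + 1) q DE ?_ ((tm_over o).2 t) nq ?_)
      · rw [pow_succ', pow_mul, hθ, ← map_pow, hμ]
      · rw [absNorm_over o, f, pow_one]
        omega
    · obtain ⟨a, ha⟩ : ∃ a : ℕ, (a : ZMod p) = MP_14ad9d_nt.Full.chi p ζ v μ := ⟨_, ZMod.natCast_zmod_val _⟩
      obtain ⟨b, hb⟩ : ∃ b : ℕ, (b : ZMod p) = -tame p ζ v β (ϖ v) := ⟨_, ZMod.natCast_zmod_val _⟩
      have hε : β ^ a * μ ^ b ≠ 0 := mul_ne_zero (pow_ne_zero _ D.ne) (pow_ne_zero _ μ0)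
      obtain ⟨E, _, _, _, _, θ, hθ, hq⟩ := exists_ext D.two D.prim hε
      obtain ⟨q, o, f⟩ := hq v t (eps_OvKey2 D hμ a b t n).1 _ (D.uni v).2 (by
        rw [(eps_OvKey2 D hμ a b t n).2, ha, hb]; ring)
      obtain ⟨mE, ϖE, χE, DE, hE⟩ := ascend_OvKey2 D E
      obtain ⟨nq, hc⟩ := hE v q o f t n
      refine hc (base_OvKey2 h (μ := algebraMap K E μ) (θ := θ) (i := i) (a := a) (b := b) DE
        (by rw [← map_pow, hμ]) ?_ (ha ▸ c) ((tm_over o).2 t) nq)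
      rw [hθ, map_mul, map_pow, map_pow]

end

theorem key2_stmt (p : ℕ) [Fact p.Prime] (h : MuStmt p) : Key2Stmt p := by
  intro K _ _ ζ β m ϖ χ D v t n
  exact main_OvKey2 h (Ideal.absNorm v.asIdeal) K ζ β ζ m ϖ χ 0 v D (by simp) t n (by omega)

end Pool.Agent.MP_f68ac8_nt.Ev

end

section

namespace Pool.Agent.MP_f68ac8_nt.Ev

open NumberField IsDedekindDomain
open Pool.Agent.MP_14ad9d_nt.Full (Pr ord Tm ord_finite ord_eq_zero_iff)
open Pool.Agent.MP_14ad9d_nt.Full.Sym1Aux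

lemma pow_val_OvMu {p : ℕ} {E : Type} [Field E] {ζ : E} (hζ : IsPrimitiveRoot ζ p) (m : ℕ) :
    ζ ^ (m : ZMod p).val = ζ ^ m := by
  rw [ZMod.val_natCast, ← pow_eq_pow_mod _ hζ.pow_eq_one]

lemma val_mu_OvMu {p : ℕ} [hp : Fact p.Prime] {E : Type} [Field E] [NumberField E] {ζ μ : E}
    {i : ℕ} (hζ : IsPrimitiveRoot ζ p) (hμ : μ ^ p ^ i = ζ) (q : Pr E) :
    q.valuation E μ = 1 := by
  refine val_root _ (n := p ^ i * p) (mul_ne_zero (pow_ne_zero _ hp.out.ne_zero) hp.out.ne_zero) ?_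
  rw [pow_mul, hμ, hζ.pow_eq_one]

lemma dvd_OvMu {p : ℕ} [hp : Fact p.Prime] {E : Type} [Field E] [NumberField E] {ζ μ : E}
    {i : ℕ} (hζ : IsPrimitiveRoot ζ p) (hμ : μ ^ p ^ i = ζ) {q : Pr E} (hq : Tm p q) :
    p ^ (i + 1) ∣ Ideal.absNorm q.asIdeal - 1 := by
  have h1 := val_mu_OvMu hζ hμ q
  have h2 := fermat q h1
  have key : ∀ j, j ≤ i + 1 → p ^ j ∣ Ideal.absNorm q.asIdeal - 1 := by
    intro j
    induction j with
    | zero => simp
    | succ j ih =>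
      intro hj
      obtain ⟨m, hm⟩ := ih (by omega)
      obtain ⟨k, rfl⟩ : ∃ k, i = j + k := ⟨i - j, by omega⟩
      have h3 := (val_pow_sub_pow_le (q.valuation E) (x := μ ^ (Ideal.absNorm q.asIdeal - 1))
        (y := 1) (by rw [map_pow, h1, one_pow]) (by simp) (p ^ k)).trans_lt h2
      have h4 : (μ ^ (Ideal.absNorm q.asIdeal - 1)) ^ p ^ k = ζ ^ m := by
        rw [hm, ← hμ, ← pow_mul, ← pow_mul]
        congr 1
        ring
      rw [h4, one_pow] at h3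
      have h5 : (m : ZMod p) = 0 := by
        refine root_inj (q.valuation E) hp.out hζ (val_tame hζ hq) ?_
        rwa [pow_val_OvMu hζ, ZMod.val_zero, pow_zero]
      rw [hm, pow_succ]
      exact Nat.mul_dvd_mul_left _ ((ZMod.natCast_eq_zero_iff m p).1 h5)
  exact key _ le_rfl

lemma chi_OvMu {p : ℕ} [hp : Fact p.Prime] {E : Type} [Field E] [NumberField E] {ζ μ : E}
    {i : ℕ} (hζ : IsPrimitiveRoot ζ p) (hμ : μ ^ p ^ i = ζ) {q : Pr E} (hq : Tm p q) {c : ℕ}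
    (hc : Ideal.absNorm q.asIdeal - 1 = p ^ (i + 1) * c) :
    Pool.Agent.MP_14ad9d_nt.Full.chi p ζ q μ = (c : ZMod p) := by
  have h1 := val_mu_OvMu hζ hμ q
  have h0 : μ ≠ 0 := by
    rintro rfl
    simp at h1
  rw [Pool.Agent.MP_14ad9d_nt.Full.chi_spec hζ hq h0 ((val_eq_one_iff q h0).1 h1), hc,
    show p ^ (i + 1) * c = p * (p ^ i * c) by ring, Nat.mul_div_cancel_left _ hp.out.pos, pow_mul,
    hμ, pow_val_OvMu hζ, sub_self, map_zero]
  exact zero_lt_one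

lemma mul_OvMu {p P x y : ℕ} (hP : p ∣ P) {a b : ZMod p}
    (hx : ∃ C : ℕ, x = 1 + P * C ∧ (C : ZMod p) = a)
    (hy : ∃ C : ℕ, y = 1 + P * C ∧ (C : ZMod p) = b) :
    ∃ C : ℕ, x * y = 1 + P * C ∧ (C : ZMod p) = a + b := by
  obtain ⟨C, rfl, rfl⟩ := hx
  obtain ⟨D, rfl, rfl⟩ := hy
  refine ⟨C + D + P * (C * D), by ring, ?_⟩
  rw [Nat.cast_add, Nat.cast_add, Nat.cast_mul, (ZMod.natCast_eq_zero_iff P p).2 hP, zero_mul,
    add_zero]

lemma prod_OvMu {p P : ℕ} (hP : p ∣ P) {ι : Type} (S : Finset ι) (N k : ι → ℕ) (a : ι → ZMod p)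
    (h : ∀ q ∈ S, ∃ C : ℕ, N q = 1 + P * C ∧ (C : ZMod p) = a q) :
    ∃ C : ℕ, ∏ q ∈ S, N q ^ k q = 1 + P * C ∧ (C : ZMod p) = ∑ q ∈ S, (k q : ZMod p) * a q := by
  classical
  induction S using Finset.induction_on with
  | empty => exact ⟨0, by simp, by simp⟩
  | insert q S hq ih =>
    rw [Finset.prod_insert hq, Finset.sum_insert hq]
    refine mul_OvMu hP ?_ (ih fun r hr => h r (Finset.mem_insert_of_mem hr))
    have h1 := h q (Finset.mem_insert_self _ _)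
    generalize k q = n
    induction n with
    | zero => exact ⟨0, by simp, by simp⟩
    | succ n ihn =>
      rw [pow_succ, Nat.cast_succ, add_mul, one_mul]
      exact mul_OvMu hP ihn h1

theorem mu_stmt (p : ℕ) [Fact p.Prime] : MuStmt p := by
  classical
  intro E _ _ ζ μ i h2p hζ hμ
  have hp : p.Prime := Fact.out
  refine ⟨fun q hq => dvd_OvMu hζ hμ hq, fun a ha h1 => ?_⟩
  set S := (ord_finite (a : E)).toFinset with hS
  have hS' : ∀ w, w ∉ S → ord w (a : E) = 0 := fun w hw => by simpa [hS] using hw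
  have hS'' : ∀ w ∈ S, ord w (a : E) ≠ 0 := fun w hw => by simpa [hS] using hw
  have hc : ∀ q : Pr E, ord q (a : E) = ((Associates.mk q.asIdeal).count
      (Associates.mk (Ideal.span {a})).factors : ℕ) := fun q => by
    rw [ord, show q.valuation E (a : E) = _ from q.valuation_of_algebraMap a,
      q.intValuation_if_neg ha, WithZero.log_exp, neg_neg]
  have h2 := Ideal.finprod_heightOneSpectrum_factorization (I := Ideal.span {a}) (by simpa using ha)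
  rw [finprod_eq_prod_of_mulSupport_subset (s := S) _ fun w hw => by
    by_contra h
    refine hw ?_
    have := hS' w h
    rw [hc, Nat.cast_eq_zero] at this
    simp only [HeightOneSpectrum.maxPowDividing, this, pow_zero]] at h2
  have h3 := congrArg Ideal.absNorm h2
  rw [map_prod, Ideal.absNorm_span_singleton] at h3
  simp only [HeightOneSpectrum.maxPowDividing, map_pow] at h3
  obtain ⟨b, hb⟩ := h1
  obtain ⟨c, hc'⟩ := Algebra.norm_one_add_smul ((p : ℤ) ^ (i + 2)) b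
  rw [show 1 + ((p : ℤ) ^ (i + 2)) • b = a by
    rw [zsmul_eq_mul, Int.cast_pow, Int.cast_natCast, ← hb]; ring] at hc'
  have ht : ∀ q ∈ S, Tm p q := fun q hq hm => by
    have h4 : a ∈ q.asIdeal := by
      by_contra h
      exact hS'' q hq ((ord_eq_zero_iff q ha).2 h)
    have h5 : a - 1 ∈ q.asIdeal := by
      rw [hb]
      exact q.asIdeal.mul_mem_right _ (q.asIdeal.pow_mem_of_mem hm _ (by omega))
    exact q.isPrime.ne_top ((Ideal.eq_top_iff_one _).2 (by simpa using sub_mem h4 h5))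
  obtain ⟨C, hC, hC'⟩ := prod_OvMu (p := p) (P := p ^ (i + 1)) (dvd_pow_self p (by omega)) S
    (fun q => Ideal.absNorm q.asIdeal)
    (fun q => (Associates.mk q.asIdeal).count (Associates.mk (Ideal.span {a})).factors)
    (fun q => Pool.Agent.MP_14ad9d_nt.Full.chi p ζ q μ) fun q hq => by
      obtain ⟨d, hd⟩ := dvd_OvMu hζ hμ (ht q hq)
      refine ⟨d, ?_, (chi_OvMu hζ hμ (ht q hq) hd).symm⟩
      have := one_lt_norm q
      omega
  rw [h3] at hC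
  have h6 : (C : ZMod p) = 0 := by
    have hP : ((p : ℤ) ^ (i + 1)) ≠ 0 := pow_ne_zero _ (by exact_mod_cast hp.ne_zero)
    have hC2 : (((Algebra.norm ℤ a).natAbs : ℕ) : ℤ) = 1 + (p : ℤ) ^ (i + 1) * C := by
      exact_mod_cast hC
    rcases Int.natAbs_eq (Algebra.norm ℤ a) with e | e
    · rw [← e, hc'] at hC2
      have h7 : (C : ℤ) = p * (Algebra.trace ℤ (𝓞 E) b + c * (p : ℤ) ^ (i + 2)) := by
        apply mul_left_cancel₀ hP
        linear_combination -hC2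
      rw [← Int.cast_natCast, h7]
      simp
    · exfalso
      rw [hC2, hc'] at e
      have h7 : (p : ℤ) ∣ 2 := ⟨-((p : ℤ) ^ i * C) - (p : ℤ) ^ (i + 1) *
        (Algebra.trace ℤ (𝓞 E) b + c * (p : ℤ) ^ (i + 2)), by linear_combination e⟩
      have h8 : p ∣ 2 := by exact_mod_cast h7
      exact absurd (Nat.le_of_dvd two_pos h8) (by omega)
  rw [finsum_eq_sum_of_support_subset (s := S) _ fun w hw => by
    by_contra h
    exact hw (by simp only [hS' w h, zero_smul]), ← h6, hC']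
  refine Finset.sum_congr rfl fun q _ => ?_
  rw [hc, zsmul_eq_mul, Int.cast_natCast]

end Pool.Agent.MP_f68ac8_nt.Ev

end

section

namespace Pool.Agent.MP_f68ac8_nt.Pv
open Ev

open NumberField
open Pool.Agent.MP_14ad9d_nt.Full

theorem fin_PvT (p : ℕ) [Fact p.Prime] (E : Type) [Field E] [NumberField E] :
    {χ : Pr E → ZMod p | ClsCh χ}.Finite := by
  classical
  obtain ⟨cl, hcl⟩ := FIAux.cls_fin (E := E)
  have key : ∀ χ : Pr E → ZMod p, ClsCh χ → ∀ v v' : Pr E,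
      cl (Finsupp.single v 1) = cl (Finsupp.single v' 1) → χ v = χ v' := by
    intro χ hχ v v' h
    obtain ⟨y, hy, hw⟩ := hcl _ _ h
    have h1 := hχ y hy
    rw [finsum_eq_sum_of_support_subset (s := {v, v'})] at h1
    · by_cases e : v = v'
      · rw [e]
      · rw [Finset.sum_pair e, ← hw, ← hw] at h1
        simp [e, Ne.symm e] at h1
        linear_combination h1
    · intro w hw1
      by_contra hw2
      simp only [Finset.coe_insert, Finset.coe_singleton, Set.mem_insert_iff,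
        Set.mem_singleton_iff, not_or] at hw2
      apply hw1
      beta_reduce
      rw [← hw]
      simp [Finsupp.single_apply, Ne.symm hw2.1, Ne.symm hw2.2]
  refine (Set.finite_range fun (f : ClassGroup (𝓞 E) → ZMod p) (v : Pr E) =>
    f (cl (Finsupp.single v 1))).subset fun χ hχ => ?_
  refine ⟨fun c => if h : ∃ v, cl (Finsupp.single v 1) = c then χ h.choose else 0, ?_⟩
  funext v
  have h : ∃ v', cl (Finsupp.single v' 1) = cl (Finsupp.single v 1) := ⟨v, rfl⟩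
  beta_reduce
  rw [dif_pos h]
  exact key χ hχ _ _ h.choose_spec

theorem t_stmt (p : ℕ) [Fact p.Prime] : TStmt p := by
  intro K E _ _ _ _ _ hp
  obtain ⟨B, hB⟩ := free_of_deg1 (E := K) (E' := E)
  have key : ∀ χ : Pr E → ZMod p, ClsCh χ → (∃ v, χ v ≠ 0) → ∃ w : Pr E, χ w ≠ 0 ∧ Tm p w ∧
      ∀ g : E ≃ₐ[K] E, g • w = w → g = 1 := by
    rintro χ hχ ⟨v, hv⟩
    have h1 := dl p hp ⊤ top_ne_bot χ (fun a ha _ => by
      simpa only [zsmul_eq_mul] using hχ a (by simpa using ha)) (χ v)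
      (Submodule.subset_span ⟨v, fun h => v.isPrime.ne_top (top_le_iff.1 h), rfl⟩)
    obtain ⟨w, hw, hw'⟩ := (h1.sdiff (B.finite_toSet.union (finite_wild (l := p)))).nonempty
    simp only [Set.mem_union, Finset.mem_coe, Set.mem_ofPred_eq, not_or, not_not] at hw'
    exact ⟨w, by rw [hw.2]; exact hv, hw'.2, hB w hw'.1 hw.1⟩
  let S : Set (Pr E → ZMod p) := {χ | ClsCh χ ∧ ∃ v, χ v ≠ 0}
  have hS : Finite S := (fin_PvT p E).subset fun χ h => h.1
  choose w hw0 hwt hwf using fun χ : S => key χ χ.2.1 χ.2.2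
  have : Module.Finite K E := Module.Finite.of_restrictScalars_finite ℚ K E
  refine ⟨⟨Set.range fun x : (E ≃ₐ[K] E) × S => x.1 • w x.2, ?_⟩, Set.finite_range _, ?_, ?_, ?_⟩
  · rintro g _ ⟨⟨h, χ⟩, rfl⟩
    exact ⟨(g * h, χ), mul_smul g h _⟩
  · rintro g _ ⟨⟨h, χ⟩, rfl⟩ hg
    have h1 := hwf χ (h⁻¹ * g * h) (by
      rw [mul_smul, mul_smul]
      exact inv_smul_eq_iff.2 hg)
    calc g = h * (h⁻¹ * g * h) * h⁻¹ := by group
      _ = 1 := by rw [h1]; group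
  · rintro _ ⟨⟨h, χ⟩, rfl⟩
    exact (tm_act _ _ _).2 (hwt χ)
  · intro χ hχ h v
    by_contra hv
    exact hw0 ⟨χ, hχ, v, hv⟩ (h _ ⟨(1, ⟨χ, hχ, v, hv⟩), one_smul _ _⟩)

end Pool.Agent.MP_f68ac8_nt.Pv

end

section

namespace Pool.Agent.MP_f68ac8_nt.Pv

open Ev

open NumberField IsDedekindDomain nonZeroDivisors
open Pool.Agent.MP_14ad9d_nt.Full (Pr ord ord_mul ord_one ord_eq_zero_iff exists_unit)
open Pool.Agent.MP_14ad9d_nt.Full.FIAux (count_span ord_ac)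

section
variable {K E : Type} [Field K] [NumberField K] [Field E] [NumberField E] [Algebra K E]

open Classical in
lemma gen_PvJ (w : Pr E) : ∃ y : E, y ≠ 0 ∧ ∀ w' : Pr E,
    ord w' y = if w = w' then (Fintype.card (ClassGroup (𝓞 E)) : ℤ) else 0 := by
  have h0 : (w.asIdeal : FractionalIdeal (𝓞 E)⁰ E) ≠ 0 :=
    FractionalIdeal.coeIdeal_ne_zero.mpr w.ne_bot
  have h1 : ClassGroup.mk E (Units.mk0 _ h0 ^ Fintype.card (ClassGroup (𝓞 E))) = 1 := by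
    rw [map_pow, pow_card_eq_one]
  obtain ⟨y, hy⟩ := (FractionalIdeal.isPrincipal_iff _).1 (ClassGroup.mk_eq_one_iff.1 h1)
  have hy' : (w.asIdeal : FractionalIdeal (𝓞 E)⁰ E) ^ Fintype.card (ClassGroup (𝓞 E)) =
      FractionalIdeal.spanSingleton (𝓞 E)⁰ y := by
    rw [← hy]; simp
  have y0 : y ≠ 0 := FractionalIdeal.spanSingleton_ne_zero_iff.1 (hy' ▸ pow_ne_zero _ h0)
  refine ⟨y, y0, fun w' => ?_⟩
  rw [← count_span w' y0, ← hy', FractionalIdeal.count_pow, FractionalIdeal.count_maximal,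
    mul_ite, mul_one, mul_zero]

lemma ne_PvJ {T : Set (Pr E)} (x : Additive (UT T)) : uval x ≠ 0 := Units.ne_zero _

lemma inj_PvJ {T : Set (Pr E)} {x y : Additive (UT T)} (h : uval x = uval y) : x = y :=
  Additive.toMul.injective (Subtype.ext (Units.ext h))

lemma add_PvJ {T : Set (Pr E)} (x y : Additive (UT T)) : uval (x + y) = uval x * uval y := by
  simp only [uval, toMul_add, Subgroup.coe_mul, Units.val_mul]

/-- the order at a prime -/
noncomputable def o_PvJ (T : Set (Pr E)) (w : Pr E) : Additive (UT T) →ₗ[ℤ] ℤ :=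
  (AddMonoidHom.mk' (fun x => ord w (uval x))
    fun x y => by rw [add_PvJ, ord_mul w (ne_PvJ x) (ne_PvJ y)]).toIntLinearMap

lemma o_out_PvJ {T : Set (Pr E)} {w : Pr E} (hw : w ∉ T) (x : Additive (UT T)) :
    o_PvJ T w x = 0 := (Additive.toMul x).2 w hw

lemma o_rep_PvJ (T : SubMulAction (E ≃ₐ[K] E) (Pr E)) (g : E ≃ₐ[K] E) (w : Pr E)
    (x : Additive (UT (T : Set (Pr E)))) :
    o_PvJ (T : Set (Pr E)) w (uRep T g x) = o_PvJ (T : Set (Pr E)) (g⁻¹ • w) x := by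
  have h := ord_ac g (g⁻¹ • w) (uval x)
  rw [← smul_def, smul_inv_smul] at h
  exact h

lemma ord_unit_PvJ (w : Pr E) (u : (𝓞 E)ˣ) : ord w ((u : 𝓞 E) : E) = 0 :=
  (ord_eq_zero_iff w u.ne_zero).2 fun h =>
    w.isPrime.ne_top (Ideal.eq_top_of_isUnit_mem _ h u.isUnit)

/-- the global units -/
noncomputable def i_PvJ (T : Set (Pr E)) : Additive (𝓞 E)ˣ →ₗ[ℤ] Additive (UT T) :=
  (MonoidHom.toAdditive ((Units.map (algebraMap (𝓞 E) E : 𝓞 E →* E)).codRestrict (UT T)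
    fun u w _ => ord_unit_PvJ w u)).toIntLinearMap

lemma o_i_PvJ (T : Set (Pr E)) (w : Pr E) (u : Additive (𝓞 E)ˣ) : o_PvJ T w (i_PvJ T u) = 0 :=
  ord_unit_PvJ w _

lemma i_inj_PvJ (T : Set (Pr E)) : Function.Injective (i_PvJ T) := fun _ _ h =>
  Additive.toMul.injective (Units.ext (RingOfIntegers.coe_injective (congrArg uval h)))

lemma i_surj_PvJ {T : Set (Pr E)} {x : Additive (UT T)} (h : ∀ w ∈ T, o_PvJ T w x = 0) :
    ∃ u, i_PvJ T u = x := by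
  obtain ⟨u, hu⟩ := exists_unit (ne_PvJ x) fun w => by
    by_cases hw : w ∈ T
    · exact h w hw
    · exact o_out_PvJ hw x
  exact ⟨Additive.ofMul u, inj_PvJ hu⟩

lemma fin_PvJ {T : Set (Pr E)} (hT : T.Finite) : Module.Finite ℤ (Additive (UT T)) := by
  have := hT.to_subtype
  refine ⟨Submodule.fg_of_fg_map_of_fg_inf_ker (LinearMap.pi fun w : T => o_PvJ T w)
    (IsNoetherian.noetherian _) ?_⟩
  have h : ⊤ ⊓ LinearMap.ker (LinearMap.pi fun w : T => o_PvJ T w) = Submodule.map (i_PvJ T) ⊤ := by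
    rw [top_inf_eq, Submodule.map_top]
    ext x
    constructor
    · intro hx
      exact i_surj_PvJ fun w hw => congrFun hx ⟨w, hw⟩
    · rintro ⟨u, rfl⟩
      exact funext fun w => o_i_PvJ T w u
  rw [h]
  exact Module.Finite.fg_top.map _

open Classical in
/-- an equivariant family of generators -/
lemma pi_PvJ (T : SubMulAction (E ≃ₐ[K] E) (Pr E)) :
    ∃ (H : ℤ) (P : T → Additive (UT (T : Set (Pr E)))), H ≠ 0 ∧
      (∀ (g : E ≃ₐ[K] E) w, P (g • w) = uRep T g (P w)) ∧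
      ∀ w w' : T, o_PvJ (T : Set (Pr E)) w'.1 (P w) = if w = w' then H else 0 := by
  choose y hy0 hy using gen_PvJ (E := E)
  let a : T → Additive (UT (T : Set (Pr E))) := fun w => Additive.ofMul
    ⟨Units.mk0 (y w) (hy0 w), fun w' hw' => (hy w w').trans
      (if_neg fun h : w.1 = w' => hw' (h ▸ w.2))⟩
  have ha : ∀ (w : T) w', o_PvJ (T : Set (Pr E)) w' (a w) =
      if (w : Pr E) = w' then (Fintype.card (ClassGroup (𝓞 E)) : ℤ) else 0 := fun w w' => hy w w'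
  refine ⟨Fintype.card (E ≃ₐ[K] E) * Fintype.card (ClassGroup (𝓞 E)),
    fun w => ∑ g, uRep T g (a (g⁻¹ • w)),
    mul_ne_zero (Nat.cast_ne_zero.2 Fintype.card_ne_zero) (Nat.cast_ne_zero.2 Fintype.card_ne_zero),
    fun g w => ?_, fun w w' => ?_⟩
  · rw [map_sum]
    refine (Fintype.sum_equiv (Equiv.mulLeft g) _ _ fun k => ?_).symm
    simp only [Equiv.coe_mulLeft, map_mul, Module.End.mul_apply, mul_inv_rev, mul_smul,
      inv_smul_smul]
  · simp only [map_sum, o_rep_PvJ, ha, SetLike.val_smul, smul_left_cancel_iff, Subtype.val_inj,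
      Finset.sum_const, Finset.card_univ, nsmul_eq_mul, mul_ite, mul_zero]

end

theorem j_stmt (p : ℕ) [Fact p.Prime] (hM : MinkStmt) : JStmt p := by
  classical
  intro K E _ _ _ _ _ T hT hp
  obtain ⟨ε, hε, ⟨N, hN, hNc⟩, y₀, hy0, hy1, hy2⟩ := hM K E
  obtain ⟨H, P, hH, hP, hPo⟩ := pi_PvJ T
  have : Finite T := hT.fin.to_subtype
  have := Fintype.ofFinite T
  let v : InfinitePlace E ⊕ T → Additive (UT (T : Set (Pr E))) :=
    Sum.elim (fun w => i_PvJ _ (Additive.ofMul (ε w))) P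
  have hv : ∀ (g : E ≃ₐ[K] E) x, v (g • x) = uRep T g (v x) := by
    rintro g (w | w)
    · exact inj_PvJ (hε g w)
    · exact hP g w
  have hj : ∀ y : InfinitePlace E ⊕ T → ℤ, Fintype.linearCombination ℤ v y =
      i_PvJ _ (Additive.ofMul (∏ w, ε w ^ y (Sum.inl w))) + ∑ w, y (Sum.inr w) • P w := by
    intro y
    simp only [Fintype.linearCombination_apply, Fintype.sum_sum_type, v, Sum.elim_inl,
      Sum.elim_inr, ofMul_prod, ofMul_zpow, map_sum, map_zsmul]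
  have hs : ∀ (d : T → ℤ) (w' : T),
      o_PvJ (T : Set (Pr E)) w'.1 (∑ w, d w • P w) = d w' * H := by
    intro d w'
    simp only [map_sum, map_zsmul, hPo, smul_eq_mul, mul_ite, mul_zero, Finset.sum_ite_eq',
      Finset.mem_univ, if_true]
  refine ⟨Fintype.linearCombination ℤ v, fin_PvJ hT.fin, fun a ha => ?_, fun g y => ?_,
    ⟨N * H, mul_ne_zero (Nat.cast_ne_zero.2 hN.ne') hH, fun x => ?_⟩,
    Sum.elim y₀ 0, fun h => hy0 (funext fun w => congrFun h (Sum.inl w)), fun g => ?_, ?_⟩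
  · rw [natCast_zsmul] at ha
    have h1 : uval (p • a) = uval a ^ p := by simp [uval]
    rw [ha] at h1
    exact inj_PvJ (hp _ h1.symm)
  · simp only [Fintype.linearCombination_apply, perm_apply, map_sum, map_zsmul, ← hv]
    refine (Fintype.sum_equiv (MulAction.toPerm g) _ _ fun x => ?_).symm
    simp only [MulAction.toPerm_apply, inv_smul_smul]
  · obtain ⟨u, hu⟩ := i_surj_PvJ (x := H • x - ∑ w : T, o_PvJ (T : Set (Pr E)) w.1 x • P w)
      fun w hw => by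
      rw [map_sub, hs _ ⟨w, hw⟩, map_zsmul, smul_eq_mul, mul_comm, sub_self]
    obtain ⟨c, hc⟩ := hNc (Additive.toMul u)
    refine ⟨Sum.elim c fun w => N * o_PvJ (T : Set (Pr E)) w.1 x, ?_⟩
    rw [hj]
    simp only [Sum.elim_inl, Sum.elim_inr, ← hc, ofMul_pow, ofMul_toMul, map_nsmul, hu, mul_smul,
      natCast_zsmul]
    rw [Finset.sum_nsmul, ← nsmul_add, sub_add_cancel]
  · funext x
    rcases x with w | w
    · exact hy1 g⁻¹ w
    · rfl
  · ext y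
    rw [LinearMap.mem_ker, Submodule.mem_span_singleton, hj]
    constructor
    · intro h
      have h1 : ∀ w, y (Sum.inr w) = 0 := fun w => by
        have h2 := congrArg (o_PvJ (T : Set (Pr E)) w.1) h
        rw [map_add, o_i_PvJ, hs, zero_add, map_zero] at h2
        exact (mul_eq_zero.1 h2).resolve_right hH
      simp only [h1, zero_smul, Finset.sum_const_zero, add_zero] at h
      obtain ⟨z, hz⟩ := (hy2 _).1 ((injective_iff_map_eq_zero _).1 (i_inj_PvJ _) _ h)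
      refine ⟨z, funext ?_⟩
      rintro (w | w)
      · exact (congrFun hz w).symm
      · simp [h1]
    · rintro ⟨z, rfl⟩
      have h1 : ∏ w, ε w ^ (z • Sum.elim y₀ (0 : T → ℤ)) (Sum.inl w) = 1 := (hy2 _).2 ⟨z, rfl⟩
      rw [h1]
      simp

end Pool.Agent.MP_f68ac8_nt.Pv

end

section

namespace Pool.Agent.MP_f68ac8_nt.Pt
open Ev Pv
open NumberField
open Pool.Agent.MP_14ad9d_nt.Full (Pr ord ord_mul ord_inv ord_pow ord_one ord_finite)
open Pool.Agent.MP_14ad9d_nt.Full.FIAux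

section
variable {L : Type} [Field L] [NumberField L] {p : ℕ} [hp : Fact p.Prime]

/-- divisors that are principal away from a set of primes -/
def pri_PtVU (S : Set (Pr L)) : AddSubgroup (Pr L →₀ ℤ) where
  carrier := {d | ∃ z : L, z ≠ 0 ∧ ∀ v, v ∉ S → d v = ord v z}
  zero_mem' := ⟨1, one_ne_zero, fun w _ => (ord_one _).symm⟩
  add_mem' := by
    rintro d d' ⟨z, z0, hz⟩ ⟨z', z0', hz'⟩
    exact ⟨z * z', mul_ne_zero z0 z0', fun w hw => by
      rw [Finsupp.add_apply, hz w hw, hz' w hw, ord_mul _ z0 z0']⟩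
  neg_mem' := by
    rintro d ⟨z, z0, hz⟩
    exact ⟨z⁻¹, inv_ne_zero z0, fun w hw => by rw [Finsupp.neg_apply, hz w hw, ord_inv]⟩

lemma fin_PtVU (S : Set (Pr L)) : Finite ((Pr L →₀ ℤ) ⧸ pri_PtVU S) := by
  obtain ⟨cl, hcl⟩ := cls_fin (E := L)
  refine fin_of_fun _ cl fun d d' e => ?_
  obtain ⟨y, y0, hy⟩ := hcl d d' e
  exact ⟨y, y0, fun w _ => hy _⟩

lemma gen_PtVU : ∃ S : Finset (Pr L), Gen p (S : Set (Pr L)) := by
  classical
  let S : Set (Pr L → ZMod p) := {χ | ClsCh χ ∧ ∃ v, χ v ≠ 0}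
  have hS : Finite S := (fin_PvT p L).subset fun χ h => h.1
  choose w hw using fun χ : S => χ.2.2
  refine ⟨(Set.finite_range w).toFinset, fun χ hχ h v => ?_⟩
  by_contra hv
  exact hw ⟨χ, hχ, v, hv⟩ (h _ (by simp))

lemma inj_PtVU {S : Set (Pr L)} (hS : Gen p S) (q : (Pr L →₀ ℤ) ⧸ pri_PtVU S) (hq : p • q = 0) :
    q = 0 := by
  classical
  have := fin_PtVU S
  let m : ((Pr L →₀ ℤ) ⧸ pri_PtVU S) →+ ((Pr L →₀ ℤ) ⧸ pri_PtVU S) := nsmulAddMonoidHom p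
  have hm : Function.Surjective m := fun x => by
    by_contra hx
    obtain ⟨f, hf, h0⟩ := exists_char p m.range (fun y => ⟨y, rfl⟩) x hx
    let g : (Pr L →₀ ℤ) →+ ZMod p := f.comp (QuotientAddGroup.mk' _)
    have hg : ∀ d ∈ pri_PtVU S, g d = 0 := fun d hd => by
      change f (QuotientAddGroup.mk d) = 0
      rw [(QuotientAddGroup.eq_zero_iff d).2 hd, map_zero]
    have h1 : ClsCh (fun v => g (Finsupp.single v 1)) := fun α α0 => by
      let dα : Pr L →₀ ℤ := Finsupp.ofSupportFinite (fun v => ord v α) (ord_finite α)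
      exact (map_eq_finsum g dα).symm.trans (hg _ ⟨α, α0, fun w _ => rfl⟩)
    have h2 := hS _ h1 fun v hv => hg _ ⟨1, one_ne_zero, fun w hw => by
      rw [ord_one, Finsupp.single_apply, if_neg fun e : v = w => hw (e ▸ hv)]⟩
    obtain ⟨d, rfl⟩ := QuotientAddGroup.mk_surjective x
    exact hf ((map_eq_finsum g d).trans
      (finsum_eq_zero_of_forall_eq_zero fun v => mul_eq_zero_of_right _ (h2 v)))
  exact (injective_iff_map_eq_zero m).1 (Finite.injective_iff_surjective.2 hm) q hq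

lemma mul_PtVU {S : Set (Pr L)} (hS : Gen p S) (d : Pr L →₀ ℤ) : ∃ (h : ℕ) (y : L), ¬ p ∣ h ∧
    y ≠ 0 ∧ ∀ v, v ∉ S → ord v y = h * d v := by
  have := fin_PtVU S
  have h1 : Nat.card ((Pr L →₀ ℤ) ⧸ pri_PtVU S) • (d : (Pr L →₀ ℤ) ⧸ pri_PtVU S) = 0 :=
    card_nsmul_eq_zero'
  obtain ⟨y, y0, hy⟩ := (QuotientAddGroup.eq_zero_iff
    (Nat.card ((Pr L →₀ ℤ) ⧸ pri_PtVU S) • d)).1 h1
  refine ⟨_, y, fun h => ?_, y0, fun v hv => by rw [← hy v hv, Finsupp.smul_apply, nsmul_eq_mul]⟩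
  obtain ⟨q, hq⟩ := exists_prime_addOrderOf_dvd_card' p h
  have h2 := inj_PtVU hS q (hq ▸ addOrderOf_nsmul_eq_zero q)
  rw [h2, addOrderOf_zero] at hq
  exact hp.out.one_lt.ne hq

lemma rep_PtVU {T : Set (Pr L)} (hT : T.Finite) : ∃ A : Finset L, ∀ u : L, u ≠ 0 →
    (∀ v, v ∉ T → ord v u = 0) → ∃ a ∈ A, ∃ z, u = a * z ^ p := by
  have h1 : AddGroup.FG (Additive (UT T)) := Module.Finite.iff_addGroup_fg.1 (fin_PvJ hT)
  have h2 := AddSubgroup.finiteIndex_range_nsmulAddMonoidHom_of_fg (Additive (UT T)) hp.out.ne_zero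
  have h3 : Finite (Additive (UT T) ⧸ (nsmulAddMonoidHom (α := Additive (UT T)) p).range) :=
    inferInstance
  refine ⟨(Set.finite_range fun q : Additive (UT T) ⧸
    (nsmulAddMonoidHom (α := Additive (UT T)) p).range => uval q.out).toFinset, fun u u0 hu => ?_⟩
  let x : Additive (UT T) := Additive.ofMul ⟨Units.mk0 u u0, hu⟩
  obtain ⟨z, hz⟩ := QuotientAddGroup.eq.1 (QuotientAddGroup.out_eq'
    (x : Additive (UT T) ⧸ (nsmulAddMonoidHom (α := Additive (UT T)) p).range))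
  refine ⟨_, (Set.Finite.mem_toFinset _).2 ⟨x, rfl⟩, uval z, ?_⟩
  have h4 : uval (p • z) = uval z ^ p := by simp [uval]
  rw [← h4, ← add_PvJ, show p • z = _ from hz, add_neg_cancel_left]
  rfl

end

theorem vu_stmt (p : ℕ) [Fact p.Prime] : VUStmt p := by
  intro L _ _
  refine ⟨gen_PtVU, fun S hS d => mul_PtVU hS d, fun S => ?_⟩
  obtain ⟨S₀, h₀⟩ := gen_PtVU (L := L) (p := p)
  have hG : Gen p ((S : Set (Pr L)) ∪ S₀) := fun χ hχ h => h₀ χ hχ fun v hv => h v (Or.inr hv)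
  obtain ⟨A, hA⟩ := rep_PtVU (p := p) (S.finite_toSet.union S₀.finite_toSet)
  refine ⟨A, fun x x0 hx => ?_⟩
  let d : Pr L →₀ ℤ := Finsupp.ofSupportFinite (fun v => ord v x / p)
    ((ord_finite x).subset fun v hv h => hv (by
      beta_reduce
      rw [h, Int.zero_ediv]))
  have hd : ∀ v, v ∉ (S : Set (Pr L)) ∪ S₀ → (p : ℤ) * d v = ord v x := fun v hv =>
    Int.mul_ediv_cancel' (hx v fun h => hv (Or.inl h))
  have h1 : p • d ∈ pri_PtVU ((S : Set (Pr L)) ∪ S₀) := ⟨x, x0, fun v hv => by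
    rw [Finsupp.smul_apply, nsmul_eq_mul, hd v hv]⟩
  obtain ⟨y, y0, hy⟩ := (QuotientAddGroup.eq_zero_iff d).1
    (inj_PtVU hG _ ((QuotientAddGroup.eq_zero_iff (p • d)).2 h1))
  obtain ⟨a, ha, z, hz⟩ := hA (x / y ^ p) (div_ne_zero x0 (pow_ne_zero _ y0)) fun v hv => by
    rw [ord_div _ x0 (pow_ne_zero _ y0), ord_pow, ← hy v hv, hd v hv, sub_self]
  refine ⟨a, ha, z * y, ?_⟩
  rw [mul_pow, ← mul_assoc, ← hz, div_mul_cancel₀ _ (pow_ne_zero _ y0)]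

end Pool.Agent.MP_f68ac8_nt.Pt

end
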