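import Pool.Agent.Mg.Fe23604m.G5af790

set_option linter.all false

/-!
Few sites are allowed for a vector outside the obvious kernel.
-/

open Finset

namespace Pool.Agent.MP_e23604_nt.U.Bm

/-- Representatives modulo the obvious kernel. -/
def xDet_w (a b c d e f g h : ZMod 2) : F12 := ![a, 0, 0, b, 0, c, d, e, 0, f, g, h]

def xDet_n (v : F12) : ℕ :=
  (univ.filter fun σ : Fin 12 => ∀ i, ∑ τ, gen σ i τ * v τ = 0).card

theorem xDet_fin : ∀ a b c d e f g h : ZMod 2,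
    xDet_n (xDet_w a b c d e f g h) ≤ 3 ∨ xDet_w a b c d e f g h = 0 := by
  decide +kernel

open scoped Classical in
theorem SDet_pf (hFK : SFK) : SDet := by
  intro v hv
  obtain ⟨k, hk, h1, h2, h4, h8⟩ : ∃ k, InK k ∧ k 1 = v 1 ∧ k 2 = v 2 ∧ k 4 = v 4 ∧ k 8 = v 8 := by
    refine ⟨_, ⟨![v 1 + v 2 + v 4, v 1 + v 2 + v 8, v 2 + v 4 + v 8, v 1 + v 4 + v 8],
      fun _ => rfl⟩, ?_⟩
    simp only [Fin.sum_univ_four, kv]
    simp
    generalize v 1 = a, v 2 = b, v 4 = c, v 8 = d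
    revert a b c d
    decide
  have e : v = k + xDet_w (k 0 + v 0) (k 3 + v 3) (k 5 + v 5) (k 6 + v 6) (k 7 + v 7) (k 9 + v 9)
      (k 10 + v 10) (k 11 + v 11) := by
    funext τ
    fin_cases τ <;> simp [xDet_w, h1, h2, h4, h8, ← add_assoc, CharTwo.add_self_eq_zero]
  rcases xDet_fin (k 0 + v 0) (k 3 + v 3) (k 5 + v 5) (k 6 + v 6) (k 7 + v 7) (k 9 + v 9)
      (k 10 + v 10) (k 11 + v 11) with h | h
  · refine le_trans (card_le_card fun σ hσ => mem_filter.2 ⟨mem_univ _, fun i => ?_⟩) h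
    have h0 := (mem_filter.1 hσ).2 i
    have h3 := (hFK.1 k hk).1 σ i
    rw [e] at h0
    simp only [dot, Pi.add_apply, mul_add, sum_add_distrib] at h0 h3
    rwa [h3, zero_add] at h0
  · rw [h, add_zero] at e
    exact absurd (e ▸ hk) hv

end Pool.Agent.MP_e23604_nt.U.Bm
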