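import Mathlib
import Pool.Agent.Mg.Fe23604m.G06f121

set_option linter.all false

namespace Pool.Agent.MP_e23604_nt.T

open Finset Filter NumberField
open MP_f68ac8_nt (cyc IsFrob)
open MP_f68ac8_nt.Zv (Ex Prob piV Unf Bx)
open MP_f68ac8_nt.Zk (NS brL lk msk Av)
open MP_f68ac8_nt.Nd (Lr Fr Gz Exm fP kap np OKp)
open Q (Wn Pre rot0)
open scoped BigOperators Topology

theorem norm_XFouM (x : ZMod 3) : ‖fP x‖ ≤ 1 :=
  (RCLike.norm_expect_le (K := ℂ)).trans
    (expect_le univ_nonempty fun _ _ => (AddChar.norm_apply _ _).le)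

theorem zero_XFouM : fP (0 : ZMod 3) = 1 := by
  simp [fP]

theorem sum_XFouM (a K : ZMod 3) (hK : K ≠ 0) : ∑ t : ZMod 3, fP (a + t * K) = 0 := by
  unfold fP
  rw [← expect_sum_comm]
  refine expect_eq_zero fun u _ => ?_
  have h := AddChar.sum_mulShift ((u : ZMod 3) * K) (ZMod.isPrimitive_stdAddChar 3)
  rw [if_neg (mul_ne_zero u.ne_zero hK), Nat.cast_zero] at h
  have e : ∀ t : ZMod 3, ZMod.stdAddChar ((u : ZMod 3) * (a + t * K)) =
      ZMod.stdAddChar ((u : ZMod 3) * a) * ZMod.stdAddChar (t * ((u : ZMod 3) * K)) := fun t => by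
    rw [← AddChar.map_add_eq_mul]
    congr 1
    ring
  simp only [e, ← mul_sum, h, mul_zero]

open Classical in
theorem orth_XFouM {d : ℕ} {ι : Type} [Fintype ι] (S : Finset (Fin d)) (K : ι → V3 d) :
    ∑ X : ι → V3 d, ∏ j ∈ S, fP (∑ k, X k j * K k j) =
      if ∀ k, ∀ j ∈ S, K k j = 0 then (3 : ℂ) ^ (Fintype.card ι * d) else 0 := by
  split_ifs with h
  · rw [sum_congr rfl fun X _ => prod_eq_one fun j hj => by
      rw [sum_eq_zero fun k _ => by rw [h k j hj, mul_zero], zero_XFouM]]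
    simp [← pow_mul, mul_comm]
  · push Not at h
    obtain ⟨k₀, j₀, hj, hK⟩ := h
    obtain ⟨F, hF⟩ : ∃ F : (ι → V3 d) → ℂ, ∀ X, F X = ∏ j ∈ S, fP (∑ k, X k j * K k j) :=
      ⟨_, fun _ => rfl⟩
    have h0 : ∀ Y, ∑ X, F X = ∑ X, F (X + Y) := fun Y =>
      (Equiv.sum_comp (Equiv.addRight Y) F).symm
    obtain ⟨Y, hY⟩ : ∃ Y : ZMod 3 → ι → V3 d, ∀ t k j,
        Y t k j = if k = k₀ then (if j = j₀ then t else 0) else 0 :=
      ⟨fun t k j => if k = k₀ then (if j = j₀ then t else 0) else 0, fun _ _ _ => rfl⟩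
    have h2 : ∀ X, ∑ t : ZMod 3, F (X + Y t) = 0 := fun X => by
      have e : ∀ (t : ZMod 3) j, ∑ k, (X + Y t) k j * K k j =
          ∑ k, X k j * K k j + (if j = j₀ then t else 0) * K k₀ j := fun t j => by
        simp only [Pi.add_apply, add_mul, sum_add_distrib, hY]
        congr 1
        rw [Fintype.sum_eq_single k₀ fun k hk => by rw [if_neg hk, zero_mul], if_pos rfl]
      have e2 : ∀ t : ZMod 3, F (X + Y t) =
          fP (∑ k, X k j₀ * K k j₀ + t * K k₀ j₀) * ∏ j ∈ S.erase j₀, fP (∑ k, X k j * K k j) :=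
        fun t => by
          rw [hF, ← mul_prod_erase S _ hj, e, if_pos rfl]
          congr 1
          refine prod_congr rfl fun j hj' => ?_
          rw [e, if_neg (ne_of_mem_erase hj'), zero_mul, add_zero]
      simp only [e2, ← sum_mul, sum_XFouM _ _ hK, zero_mul]
    have h3 : ∑ _t : ZMod 3, ∑ X, F X = 0 := by
      rw [sum_congr rfl fun t _ => h0 (Y t), sum_comm]
      exact sum_eq_zero fun X _ => h2 X
    simp only [← hF]
    simpa using h3

theorem tf_XFouM {d : ℕ} {ι : Type} [Fintype ι] (D : Dt d) (β : ZMod 3) (u X : ι → V3 d)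
    (γ : ι → ZMod 3) : D.Tf (fX u X) (cX β u X γ) 0 =
      ∏ j with D.sp j = true, fP (∑ k, X k j * D.Kf β (u k) (γ k) j) := by
  unfold Dt.Tf
  simp only [Pi.zero_apply, zero_mul, sum_const_zero, AddChar.map_zero_eq_one, mul_one]
  refine prod_congr rfl fun j _ => ?_
  congr 1
  simp only [fX, cX, Dt.Kf, mul_add, sum_add_distrib, sum_mul, mul_sum]
  rw [sum_comm]
  congr 1
  · exact sum_congr rfl fun k _ => sum_congr rfl fun i _ => by ring
  · exact sum_congr rfl fun k _ => by ring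

theorem x_FouM : FouM := by
  classical
  intro d Ω _ ν D lv sp η β h ι _ u γ
  have hN : (0 : ℝ) < 3 ^ (Fintype.card ι * d) := by positivity
  have hν : 0 ≤ ∑ q, ν q := sum_nonneg fun q _ => h.nn q
  have h1 : ∀ q, ∑ X : ι → V3 d, (D q).Tf (fX u X) (cX β u X γ) 0 =
      (((if ∀ k, (D q).KK β (u k) (γ k) then 1 else 0) * 3 ^ (Fintype.card ι * d) : ℝ) : ℂ) :=
    fun q => by
      simp only [tf_XFouM]
      rw [orth_XFouM _ fun k j => (D q).Kf β (u k) (γ k) j]
      by_cases hq : ∀ k, (D q).KK β (u k) (γ k)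
      · have h' : ∀ k, ∀ j ∈ univ.filter fun j => (D q).sp j = true,
            (D q).Kf β (u k) (γ k) j = 0 := fun k j hj => hq k j (mem_filter.1 hj).2
        rw [if_pos hq, if_pos h']
        simp
      · rw [if_neg hq, if_neg fun h' => hq fun k j hj => h' k j (mem_filter.2 ⟨mem_univ j, hj⟩)]
        simp
  have h2 : (((∑ q, ν q * (if ∀ k, (D q).KK β (u k) (γ k) then 1 else 0)) *
      3 ^ (Fintype.card ι * d) : ℝ) : ℂ) =
      ∑ X : ι → V3 d, ∑ q, (ν q : ℂ) * (D q).Tf (fX u X) (cX β u X γ) 0 := by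
    rw [sum_comm, sum_mul, Complex.ofReal_sum]
    exact sum_congr rfl fun q _ => by rw [← mul_sum, h1, mul_assoc, Complex.ofReal_mul]
  have h3 : ∀ X : ι → V3 d, ‖∑ q, (ν q : ℂ) * (D q).Tf (fX u X) (cX β u X γ) 0‖ ≤
      (if ¬ Osc lv sp (fX u X) (cX β u X γ) 0 then ∑ q, ν q else 0) + η := fun X => by
    split_ifs with hX
    · rw [zero_add]
      exact h.osc _ _ _ hX
    · refine le_add_of_le_of_nonneg ((norm_sum_le _ _).trans (sum_le_sum fun q _ => ?_)) h.pos
      rw [norm_mul, Complex.norm_real, Real.norm_of_nonneg (h.nn q), tf_XFouM, norm_prod]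
      exact mul_le_of_le_one_right (h.nn q)
        (prod_le_one (fun _ _ => norm_nonneg _) fun _ _ => norm_XFouM _)
  have h4 := (Real.le_norm_self _).trans ((Complex.norm_real _).symm.le.trans
    ((congrArg norm h2).le.trans ((norm_sum_le _ _).trans (sum_le_sum fun X _ => h3 X))))
  rw [sum_add_distrib, ← sum_filter, sum_const, sum_const, nsmul_eq_mul, nsmul_eq_mul] at h4
  have h5 : ((univ : Finset (ι → V3 d)).card : ℝ) = 3 ^ (Fintype.card ι * d) := by
    simp [← pow_mul, mul_comm]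
  rw [h5] at h4
  rw [Set.ncard_eq_toFinset_card', Set.toFinset_ofPred, ← mul_le_mul_iff_left₀ hN, add_mul,
    mul_right_comm, div_mul_cancel₀ _ hN.ne']
  linarith

end Pool.Agent.MP_e23604_nt.T
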