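import Pool.Agent.Mg.Fe23604m.G463337

set_option linter.all false

/-!
The data of the descent at a prime other than three.
-/

set_option autoImplicit false

open Finset QuadraticAlgebra
open scoped Classical

namespace Pool.Agent.MP_e23604_nt.Y

open B R S W

/-- the data of the descent -/
structure KD {R : Type} [CommRing R] (φ : Zw →+* R) (r p n : ℕ) (M ϖ d : Zw) (G : Pt) (c : GQ) :
    Prop where
  pp : p.Prime
  p3 : p ≠ 3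
  n1 : 1 ≤ n
  r0 : r ≠ 0
  hM : M = ((p ^ n : ℕ) : Zw) * (9 * r)
  pr : Prime ϖ
  fa : (p : Zw) = ϖ * d
  cop : IsCoprime ϖ d
  an : ∀ ϖ', PP ϖ' → ϖ' ∣ p → ∀ i : ℕ, ¬ ϖ ∣ ϖ' - ω ^ i
  gen : Gen (p ^ n : ℕ) G
  qt : Qt φ (ϖ ^ n)
  cj : Cj c

namespace KD

variable {R : Type} [CommRing R] {φ : Zw →+* R} {r p n : ℕ} {M ϖ d : Zw} {G : Pt} {c : GQ}
  (h : KD φ r p n M ϖ d G c)

include h

theorem q0 : p ^ n ≠ 0 := pow_ne_zero _ h.pp.ne_zero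

theorem q0' : ((p ^ n : ℕ) : Zw) ≠ 0 := Nat.cast_ne_zero.2 h.q0

theorem qe : ((p ^ n : ℕ) : Zw) = ϖ ^ n * d ^ n := by rw [Nat.cast_pow, h.fa, mul_pow]

theorem ne : M ≠ 0 :=
  h.hM ▸ mul_ne_zero h.q0' (mul_ne_zero (by decide) (Nat.cast_ne_zero.2 h.r0))

theorem dr : (9 * r : Zw) ∣ M := h.hM ▸ dvd_mul_left _ _

theorem dq : ((p ^ n : ℕ) : Zw) ∣ M := h.hM ▸ dvd_mul_right _ _

theorem st : star M = M := by
  rw [h.hM, star_mul', star_mul', star_natCast, star_natCast, star_ofNat]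

theorem φq : φ (p ^ n : ℕ) = 0 := (h.qt.ker _).2 (h.qe ▸ dvd_mul_right _ _)

theorem φM : φ M = 0 := (h.qt.ker _).2 ((h.qe ▸ dvd_mul_right _ _ : ϖ ^ n ∣ _).trans h.dq)

theorem on : ON (UM M) := (PS_ok M h.ne).2 (h.st.symm ▸ dvd_rfl)

theorem chn : Chn (φ ϖ) n := (h.qt.chn h.pr h.n1).1

theorem unit {a : Zw} (ha : ¬ ϖ ∣ a) : IsUnit (φ a) := h.chn.unit_iff.2 fun ⟨b, e⟩ => ha (by
  obtain ⟨b, rfl⟩ := h.qt.sur b
  have := (dvd_pow_self ϖ (by have := h.n1; omega)).trans ((h.qt.ker (a - ϖ * b)).1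
    (by rw [map_sub, map_mul, e, sub_self]))
  exact (dvd_sub_left (dvd_mul_right ϖ b)).1 this)

/-- a torsion point has coordinate zero if and only if it is killed by `d ^ n` -/
theorem ic0 {T : Pt} (hT : ((p ^ n : ℕ) : Zw) • T = 0) : ic φ G T = 0 ↔ d ^ n • T = 0 := by
  have d0 : d ^ n ≠ 0 := right_ne_zero_of_mul (h.qe ▸ h.q0')
  conv_rhs => rw [((COI_ok R φ _ G h.q0' h.gen h.φq).2.1 T hT).1, ← mul_smul, h.gen, h.qe,
    mul_comm (d ^ n), mul_dvd_mul_iff_right d0]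
  exact h.qt.ker _

end KD

/-- the local conditions -/
def LOY_st : Prop := ∀ (R : Type) [CommRing R] (φ : Zw →+* R) (r p n l' : ℕ) (M ϖ d N : Zw)
  (G P₂ : Pt) (c F : GQ) (j : ZMod (p ^ n) →+* R) (χ : GQ → ZMod 3) (x c₂ : GQ → Pt) (V : Plc),
  KD φ r p n M ϖ d G c → Tw χ r → Anti χ → Mdl χ →
  (∀ (W : Plc) (P : Pt), Ov W (3 * r) → Fx χ W.D P → E1 W.v (N • P)) →
  SelK χ x → (∀ g ∈ GK, ((p ^ n : ℕ) : Zw) • x g = 0) → In V F → M ∣ V.l + 1 →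
  ic φ G (x (F ^ 2)) = 0 → l'.Prime → l' % 3 = 2 → M ∣ l' + 1 → Cl χ (p ^ n) {V.l, l'} P₂ c₂ →
  ∀ W : Plc, W.l ≠ l' → Bo2 (cj j) W.D
    (cup (lamZ φ χ M) (fun g => φ N * ic φ G (x (c * g * c))) fun g => ic φ G (c₂ g))

end Pool.Agent.MP_e23604_nt.Y
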