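import Pool.Agent.Mg.Fe23604m.G9b4e87
import Pool.Agent.Mg.Fe23604m.Ga53936

set_option linter.all false

section

namespace Pool.Agent.MP_e23604_nt.TN

open NumberField Finset Filter
open MP_f68ac8_nt MP_f68ac8_nt.Nd
open T (P0 rh lm9)
open scoped Topology BigOperators

theorem xBandG_sum (hM : MertStmt) {s : ℝ} (hs : 1 < s) (A : Finset ℕ) (hA : ∀ l ∈ A, l.Prime) :
    ∑ l ∈ A, (l : ℝ) ^ (-s) ≤ 1 / (s - 1) := by
  have h0 : 0 < s - 1 := sub_pos.2 hs
  have h1 := hM.2 (s - 1) A h0 hA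
  rw [add_sub_cancel] at h1
  have h2 := Real.log_le_sub_one_of_pos (show 0 < 1 + 1 / (s - 1) by positivity)
  linarith

theorem xBandG_miss (hM : MertStmt) {s h h₁ U : ℝ} (hs : 1 < s) (h0 : 0 ≤ h₁) (h1 : h₁ ≤ h)
    (hU : 0 ≤ U) (k N : ℕ) (E : Finset ℕ) (ht : ∑' i, wl s h₁ k (i + N) ≤ Real.exp (-U)) :
    ∑' l, wl s h₁ k l ≤
      ∑ l ∈ (range N).filter fun l : ℕ => l.Prime ∧ U < Real.log l ∧ l ∉ E, wl s h₁ k l +
        ((h * U) ^ (k + 1) / (s - 1) + (E.card + 1) * Real.exp (-U)) := by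
  have w := wl_NeMup s h0 k
  have hS : Summable (wl s h₁ k) := Summable.of_nonneg_of_le (fun l => (w l).1)
    (fun l => (w l).2.1) (Real.summable_nat_rpow.2 (by linarith))
  rw [← hS.sum_add_tsum_nat_add N]
  set G := (range N).filter fun l : ℕ => l.Prime ∧ U < Real.log l ∧ l ∉ E
  set A := (range N).filter fun l : ℕ => l.Prime ∧ Real.log l ≤ U
  set D := E.filter fun l : ℕ => l.Prime ∧ U < Real.log l
  have k1 : ∑ l ∈ range N, wl s h₁ k l ≤ ∑ l ∈ G ∪ (A ∪ D), wl s h₁ k l := by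
    rw [← sum_filter_ne_zero]
    refine sum_le_sum_of_subset_of_nonneg (fun l hl => ?_) fun l _ _ => (w l).1
    obtain ⟨a, b⟩ := mem_filter.1 hl
    have c : l.Prime := by
      by_contra c
      exact b (if_neg c)
    rcases le_or_gt (Real.log l) U with d | d
    · exact mem_union_right _ (mem_union_left _ (mem_filter.2 ⟨a, c, d⟩))
    · by_cases e : l ∈ E
      · exact mem_union_right _ (mem_union_right _ (mem_filter.2 ⟨e, c, d⟩))
      · exact mem_union_left _ (mem_filter.2 ⟨a, c, d, e⟩)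
  have k2 := union_NeMup (fun l => (w l).1) G (A ∪ D)
  have k3 := union_NeMup (fun l => (w l).1) A D
  have b0 : 0 ≤ h * U := mul_nonneg (h0.trans h1) hU
  have k4 : ∑ l ∈ A, wl s h₁ k l ≤ (h * U) ^ (k + 1) / (s - 1) := by
    rw [← one_div_mul_eq_div]
    refine le_trans ?_ (mul_le_mul_of_nonneg_right
      (xBandG_sum hM hs A fun l hl => (mem_filter.1 hl).2.1) (by positivity))
    rw [sum_mul]
    exact sum_le_sum fun l hl => (w l).2.2.trans (mul_le_mul_of_nonneg_left (pow_le_pow_left₀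
      (mul_nonneg h0 (Real.log_natCast_nonneg l)) (mul_le_mul h1 (mem_filter.1 hl).2.2
        (Real.log_natCast_nonneg l) (h0.trans h1)) _) (by positivity))
  have k5 : ∑ l ∈ D, wl s h₁ k l ≤ E.card * Real.exp (-U) := by
    refine (sum_le_card_nsmul D _ (Real.exp (-U)) fun l hl => (w l).2.1.trans ?_).trans ?_
    · obtain ⟨-, a, b⟩ := mem_filter.1 hl
      rw [exp_NeMup a, Real.exp_le_exp]
      nlinarith [Real.log_natCast_nonneg l]
    · rw [nsmul_eq_mul]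
      exact mul_le_mul_of_nonneg_right (Nat.cast_le.2 (card_filter_le _ _)) (Real.exp_pos _).le
  linarith

theorem bandG (hW : WlT) (hP : PsumStmt) (hM : MertStmt) : BandG := by
  intro a s h h' U V B C k E b ha hs h0 h1 hU hC H
  have s0 : 0 < s - 1 := sub_pos.2 hs
  obtain ⟨N, ⟨n1, n2⟩, n3⟩ := (((eventually_ge_atTop (⌊Real.exp V⌋₊ + 1)).and
    ((tendsto_sum_nat_add (wl s h k)).eventually (ge_mem_nhds (Real.exp_pos (-U))))).and
    ((tendsto_sum_nat_add (wl s h' k)).eventually (ge_mem_nhds (Real.exp_pos (-U))))).exists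
  have m1 := xBandG_miss hM hs (h0.le.trans h1) le_rfl hU k N E n2
  have m2 := xBandG_miss hM hs h0.le h1 hU k N E n3
  set A := (range N).filter fun l : ℕ => l.Prime ∧ U < Real.log l ∧ l ∉ E
  have hA : ∀ l ∈ A, l.Prime ∧ U < Real.log l := fun l hl =>
    ⟨(mem_filter.1 hl).2.1, (mem_filter.1 hl).2.2.1⟩
  have c1 := H h (Or.inl rfl) A _ hA m1
  have c2 := H h' (Or.inr rfl) A _ hA m2
  set S := A.filter fun l => cl l = b
  have hsub : seg E b U V ⊆ S := fun l hl => by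
    obtain ⟨a1, a2, a3, -, a5⟩ := mem_seg.1 hl
    exact mem_filter.2 ⟨mem_filter.2 ⟨range_mono n1 (mem_filter.1 hl).1, a1, a3, a5⟩, a2⟩
  have e1 : ∑ l ∈ seg E b U V, ((wl s h k l - wl s h' k l : ℝ) : ℂ) * a l =
      ∑ l ∈ S, (wl s h k l : ℝ) * a l - ∑ l ∈ S, (wl s h' k l : ℝ) * a l -
        ∑ l ∈ S \ seg E b U V, ((wl s h k l - wl s h' k l : ℝ) : ℂ) * a l := by
    rw [sum_sdiff_eq_sub hsub, ← sum_sub_distrib]
    simp only [Complex.ofReal_sub, sub_mul]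
    ring
  have c3 : ‖∑ l ∈ S \ seg E b U V, ((wl s h k l - wl s h' k l : ℝ) : ℂ) * a l‖ ≤
      1 / (s - 1) * ((k + 1) * Real.exp (-(h' * V))) := by
    refine (norm_sum_le _ _).trans (le_trans ?_ (mul_le_mul_of_nonneg_right
      (xBandG_sum hM hs (S \ seg E b U V) fun l hl =>
        (hA l (mem_filter.1 (mem_sdiff.1 hl).1).1).1) (by positivity)))
    rw [sum_mul]
    refine sum_le_sum fun l hl => ?_
    obtain ⟨a1, a2⟩ := mem_sdiff.1 hl
    obtain ⟨a3, a4⟩ := mem_filter.1 a1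
    obtain ⟨-, a5, a6, a7⟩ := mem_filter.1 a3
    have a8 : V ≤ Real.log l := le_of_not_ge fun e => a2 (mem_seg.2 ⟨a5, a4, a6, e, a7⟩)
    obtain ⟨-, w1, w2, -⟩ := hW s h h' k l h0 h1 a5
    have w3 := (hW s h' h' k l h0 le_rfl a5).2.2.2.2.2
    have w4 : (l : ℝ) ^ (-s) * ((k + 1) * Real.exp (-(h' * Real.log l))) ≤
        (l : ℝ) ^ (-s) * ((k + 1) * Real.exp (-(h' * V))) := by
      gcongr
    rw [norm_mul, Complex.norm_real, Real.norm_of_nonneg (sub_nonneg.2 w1)]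
    have w5 := mul_le_of_le_one_right (sub_nonneg.2 w1) (ha l)
    linarith
  have c4 := (norm_sub_le _ _).trans (add_le_add ((norm_sub_le _ _).trans (add_le_add c1 c2)) c3)
  rw [e1, los, add_div]
  refine c4.trans ?_
  have p1 : 0 ≤ (h * U) ^ (k + 1) / (s - 1) + (E.card + 1) * Real.exp (-U) := by
    have := mul_nonneg (h0.le.trans h1) hU
    positivity
  have p2 : 0 ≤ Real.exp (-(h' * V)) / (s - 1) := by positivity
  have p3 := mul_nonneg hC p2
  have p4 := mul_nonneg (show (0 : ℝ) ≤ k + 1 by positivity) p1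
  rw [one_div_mul_eq_div, mul_div_assoc]
  linarith

end Pool.Agent.MP_e23604_nt.TN

end

section

/-! Bilinear sums for two marks. -/

namespace Pool.Agent.MP_e23604_nt.TN

open NumberField Finset Filter
open MP_f68ac8_nt MP_f68ac8_nt.Nd
open T (P0 rh lm9)
open scoped Topology BigOperators

lemma xBilT_red {Λ A B : Finset ℕ} {a b : ℕ → ℂ} (f : ℕ → ℕ → ℂ) (hA : A ⊆ Λ) (hB : B ⊆ Λ)
    (ha : ∀ l ∈ Λ, l ∉ A → a l = 0) (hb : ∀ l ∈ Λ, l ∉ B → b l = 0) :
    ∑ l ∈ Λ, ∑ l' ∈ Λ, (if l = l' then 0 else a l * b l' * f l l') =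
      ∑ l ∈ A, ∑ l' ∈ B, if l = l' then 0 else a l * b l' * f l l' := by
  symm
  rw [← sum_subset hA]
  · refine sum_congr rfl fun l _ => sum_subset hB fun l' h1 h2 => ?_
    rw [hb l' h1 h2, mul_zero, zero_mul, ite_self]
  · intro l h1 h2
    refine sum_eq_zero fun l' _ => ?_
    rw [ha l h1 h2, zero_mul, zero_mul, ite_self]

lemma xBilT_cl {l : ℕ} : cl l = true ↔ l % 3 = 1 := decide_eq_true_iff

lemma xBilT_le {t C C' y : ℝ} {e e' : ℕ} (h0 : 0 < t) (h1 : t ≤ 1) (hC : 0 ≤ C) (hC' : C ≤ C')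
    (he : e ≤ e') (hy : 0 ≤ y) : C / t ^ e * y ≤ C' / t ^ e' * y :=
  mul_le_mul_of_nonneg_right (div_le_div₀ (hC.trans hC') hC' (pow_pos h0 _)
    (pow_le_pow_of_le_one h0.le h1 he)) hy

theorem bilT (hU : BilU) (hJ : BilJ 3) : BilT := by
  obtain ⟨r₁, C₁, e₁, hr₁, hC₁, hU⟩ := hU
  obtain ⟨r₂, C₂, e₂, hr₂, hC₂, hJ⟩ := hJ
  refine ⟨min (min r₁ r₂) 1, C₁ + C₂, e₁ + e₂, lt_min (lt_min hr₁ hr₂) one_pos, by positivity,
    fun s Z Λ a b x u v hs hs' hZ hu h => ?_⟩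
  have s1 : s ≤ 1 + r₁ := hs'.trans (by
    linarith [(min_le_left (min r₁ r₂) 1).trans (min_le_left r₁ r₂)])
  have s2 : s ≤ 1 + r₂ := hs'.trans (by
    linarith [(min_le_left (min r₁ r₂) 1).trans (min_le_right r₁ r₂)])
  have s3 : s - 1 ≤ 1 := by linarith [min_le_right (min r₁ r₂) 1]
  have s0 : 0 < s - 1 := sub_pos.2 hs
  cases x with
  | true =>
    have hA : ∀ l ∈ Λ.filter (fun l : ℕ => Z ≤ l ∧ cl l = true), l % 3 = 1 :=
      fun l hl => xBilT_cl.1 (mem_filter.1 hl).2.2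
    rw [xBilT_red (fun l l' => ZMod.stdAddChar (u * rh l l' + v * rh l' l))
      (filter_subset (fun l : ℕ => Z ≤ l ∧ cl l = true) Λ)
      (filter_subset (fun l : ℕ => Z ≤ l ∧ cl l = true) Λ)
      (fun l h1 h2 => by_contra fun h3 => h2 (mem_filter.2 ⟨h1, (h l h1).2.2.2.1 h3⟩))
      (fun l h1 h2 => by_contra fun h3 => h2 (mem_filter.2 ⟨h1, (h l h1).2.2.2.2 h3⟩))]
    refine le_trans (le_of_eq (congrArg norm ?_)) ((hJ s Z
      (Λ.filter fun l : ℕ => Z ≤ l ∧ cl l = true) a b u v hs s2 hZ (Or.inl hu)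
      fun l hl => ?_).trans (xBilT_le s0 s3 hC₂.le (by linarith) (by omega) (Real.exp_pos _).le))
    · refine sum_congr rfl fun l hl => sum_congr rfl fun l' hl' => ?_
      rw [rh, rh, if_pos (hA l hl), if_pos (hA l' hl')]
    · obtain ⟨h1, h2⟩ := mem_filter.1 hl
      exact ⟨⟨(h l h1).1, hA l hl⟩, h2.1, (h l h1).2.1, (h l h1).2.2.1⟩
  | false =>
    have hA : ∀ l ∈ Λ.filter (fun l : ℕ => a l ≠ 0), ¬ l % 3 = 1 := fun l hl e => by
      obtain ⟨h1, h2⟩ := mem_filter.1 hl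
      have h3 := ((h l h1).2.2.2.1 h2).2
      rw [xBilT_cl.2 e] at h3
      exact Bool.noConfusion h3
    have hB : ∀ l ∈ Λ.filter (fun l : ℕ => b l ≠ 0), l % 3 = 1 := fun l hl =>
      xBilT_cl.1 ((h l (mem_filter.1 hl).1).2.2.2.2 (mem_filter.1 hl).2).2
    rw [xBilT_red (fun l l' => ZMod.stdAddChar (u * rh l l' + v * rh l' l))
      (filter_subset (fun l : ℕ => a l ≠ 0) Λ) (filter_subset (fun l : ℕ => b l ≠ 0) Λ)
      (fun l h1 h2 => by_contra fun h3 => h2 (mem_filter.2 ⟨h1, h3⟩))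
      (fun l h1 h2 => by_contra fun h3 => h2 (mem_filter.2 ⟨h1, h3⟩))]
    refine le_trans (le_of_eq (congrArg norm ?_)) ((hU s Z (Λ.filter fun l : ℕ => a l ≠ 0)
      (Λ.filter fun l : ℕ => b l ≠ 0) a b u hs s1 hZ hu (fun l hl => ?_) (fun l hl => ?_)
      (disjoint_left.2 fun l h1 h2 => hA l h1 (hB l h2))).trans
      (xBilT_le s0 s3 hC₁.le (by linarith) (by omega) (Real.exp_pos _).le))
    · refine sum_congr rfl fun l hl => sum_congr rfl fun l' hl' => ?_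
      rw [if_neg fun e : l = l' => hA l hl (e ▸ hB l' hl'), rh, rh, if_pos (hB l' hl'),
        if_neg (hA l hl), mul_zero, add_zero]
    · obtain ⟨h1, h2⟩ := mem_filter.1 hl
      exact ⟨(h l h1).1, ((h l h1).2.2.2.1 h2).1, (h l h1).2.1⟩
    · obtain ⟨h1, h2⟩ := mem_filter.1 hl
      exact ⟨⟨(h l h1).1, hB l hl⟩, ((h l h1).2.2.2.2 h2).1, (h l h1).2.2.1⟩

end Pool.Agent.MP_e23604_nt.TN

end

section

namespace Pool.Agent.MP_e23604_nt.TN

open NumberField Finset Filter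
open MP_f68ac8_nt MP_f68ac8_nt.Nd
open T (P0 rh lm9)
open scoped Topology BigOperators

theorem xCon_diff {s : ℂ} (hs : s ∈ Om) {x : ℝ} (hx : 1 ≤ x) :
    ‖(x : ℂ) ^ (-s) - ((x + 1 : ℝ) : ℂ) ^ (-s)‖ ≤ 2 * x ^ (-(7 / 4 : ℝ)) := by
  have h0 : -s ≠ 0 := fun h => by
    have := hs.1
    rw [neg_eq_zero.1 h, Complex.zero_re] at this
    linarith
  have := norm_image_sub_le_of_norm_deriv_le_segment' (a := x) (b := x + 1)
    (f := fun y : ℝ => (y : ℂ) ^ (-s)) (f' := fun y : ℝ => -s * (y : ℂ) ^ (-s - 1))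
    (C := 2 * x ^ (-(7 / 4 : ℝ)))
    (fun y hy => (hasDerivAt_ofReal_cpow_const (by linarith [hy.1]) h0).hasDerivWithinAt)
    (fun y hy => by
      have hy1 : 1 ≤ y := hx.trans hy.1
      rw [norm_mul, norm_neg, Complex.norm_cpow_eq_rpow_re_of_pos (by linarith)]
      refine mul_le_mul hs.2.le ?_ (by positivity) zero_le_two
      refine (Real.rpow_le_rpow_of_exponent_le hy1 (z := -(7 / 4 : ℝ)) ?_).trans
        (Real.rpow_le_rpow_of_nonpos (by linarith) hy.1 (by norm_num))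
      simp only [Complex.sub_re, Complex.neg_re, Complex.one_re]
      linarith [hs.1]) (x + 1) (Set.right_mem_Icc.2 (by linarith))
  rw [norm_sub_rev]
  simpa only [add_sub_cancel_left, mul_one] using this

theorem xCon_sum {s : ℂ} (hs : 1 < s.re) {c : ℕ → ℂ} {Q : ℝ} (hc : ∀ n, ‖c n‖ ≤ Q) (k : ℕ) :
    Summable fun n : ℕ => c n * ((n + k : ℕ) : ℂ) ^ (-s) := by
  have h : Summable fun n : ℕ => ‖((n : ℕ) : ℂ) ^ (-s)‖ := by
    refine summable_norm_iff.2 ?_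
    simpa only [Complex.cpow_neg, one_div] using Complex.summable_one_div_nat_cpow.2 hs
  refine .of_norm_bounded (((summable_nat_add_iff k).2 h).mul_left Q) fun n => ?_
  rw [norm_mul]
  exact mul_le_mul_of_nonneg_right (hc n) (norm_nonneg _)

theorem conT : ConT := by
  have hB : Summable fun n : ℕ => 2 * ((n + 1 : ℕ) : ℝ) ^ (-(7 / 4 : ℝ)) :=
    ((summable_nat_add_iff 1).2 (Real.summable_nat_rpow.2 (by norm_num))).mul_left 2
  refine ⟨max 1 (∑' n : ℕ, 2 * ((n + 1 : ℕ) : ℝ) ^ (-(7 / 4 : ℝ))), le_max_left _ _,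
    fun χ Q h1 hQ => ?_⟩
  have hS : ∀ n : ℕ, ‖∑ i ∈ Ico 1 (n + 1), χ i‖ ≤ Q := fun n => hQ _ _
  have hQ0 : 0 ≤ Q := (norm_nonneg _).trans (hS 0)
  have hb : ∀ (n : ℕ) (s : ℂ), s ∈ Om → ‖(∑ i ∈ Ico 1 (n + 1 + 1), χ i) *
      (((n + 1 : ℕ) : ℂ) ^ (-s) - ((n + 2 : ℕ) : ℂ) ^ (-s))‖ ≤
      2 * ((n + 1 : ℕ) : ℝ) ^ (-(7 / 4 : ℝ)) * Q := fun n s hs => by
    rw [norm_mul, mul_comm]
    refine mul_le_mul ?_ (hS _) (norm_nonneg _) (by positivity)
    have := xCon_diff hs (x := ((n + 1 : ℕ) : ℝ)) (by exact_mod_cast Nat.le_add_left 1 n)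
    rwa [← Nat.cast_succ, Complex.ofReal_natCast, Complex.ofReal_natCast] at this
  have ho : IsOpen Om := (isOpen_lt continuous_const Complex.continuous_re).inter
    (isOpen_lt continuous_norm continuous_const)
  have hd : ∀ k : ℕ, Differentiable ℂ fun s : ℂ => ((k + 1 : ℕ) : ℂ) ^ (-s) := fun k =>
    differentiable_id.neg.const_cpow (Or.inl (Nat.cast_ne_zero.2 k.succ_ne_zero))
  refine ⟨fun s => ∑' n : ℕ, (∑ i ∈ Ico 1 (n + 1 + 1), χ i) *
    (((n + 1 : ℕ) : ℂ) ^ (-s) - ((n + 2 : ℕ) : ℂ) ^ (-s)),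
    Complex.differentiableOn_tsum_of_summable_norm (hB.mul_right Q)
      (fun n => (((hd n).sub (hd (n + 1))).const_mul _).differentiableOn) ho hb,
    fun s hs => ?_, fun s hs => ?_⟩
  · refine (tsum_of_norm_bounded (hB.mul_right Q).hasSum fun n => hb n s hs).trans ?_
    rw [tsum_mul_right]
    exact mul_le_mul_of_nonneg_right (le_max_right _ _) hQ0
  · have e1 := xCon_sum hs (fun n => hS (n + 1)) 1
    have e2 := xCon_sum hs (fun n => hS (n + 1)) 2
    have e3 := xCon_sum hs hS 1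
    have e4 := xCon_sum hs h1 0
    have h0 : -s ≠ 0 := fun h => by
      rw [neg_eq_zero.1 h, Complex.zero_re] at hs
      linarith
    simp only [add_zero] at e4
    simp only [mul_sub]
    have e5 := e3.tsum_eq_zero_add
    simp only [zero_add, Ico_self, sum_empty, zero_mul] at e5
    rw [e1.tsum_sub e2, show (∑' n : ℕ, (∑ i ∈ Ico 1 (n + 1 + 1), χ i) *
      ((n + 2 : ℕ) : ℂ) ^ (-s)) = _ from e5.symm, ← e1.tsum_sub e3, e4.tsum_eq_zero_add,
      Nat.cast_zero, Complex.zero_cpow h0, mul_zero, zero_add]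
    refine tsum_congr fun n => ?_
    rw [sum_Ico_succ_top (Nat.le_add_left 1 n)]
    ring

end Pool.Agent.MP_e23604_nt.TN

end
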