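import Pool.Agent.Mg.Fe23604m.G2d01bf

set_option linter.all false

section

/-!
Kummer elements for the two isogenies.
-/

open WeierstrassCurve
open scoped Classical

set_option linter.unusedSectionVars false

noncomputable section

namespace Pool.Agent.MP_e23604_nt.P

attribute [local instance 2000] decQ

variable {D : ℚ} {F F' : Type} [Field F] [CharZero F] [Field F'] [CharZero F']

end Pool.Agent.MP_e23604_nt.P

end
end

section

/-!
Local conditions for locally trivial cocycles.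
-/

open WeierstrassCurve
open scoped Classical

set_option linter.unusedSectionVars false

noncomputable section

namespace Pool.Agent.MP_e23604_nt.P

attribute [local instance 2000] decQ

variable {D : ℚ} {F F' : Type} [Field F] [CharZero F] [Field F'] [CharZero F']

lemma xCLocG_fix {x : AlgebraicClosure F}
    (h : ∀ σ : AlgebraicClosure F ≃ₐ[F] AlgebraicClosure F, σ x = x) :
    ∃ z : F, algebraMap F (AlgebraicClosure F) z = x :=
  (InfiniteGalois.mem_range_algebraMap_iff_fixed (k := F) x).2 h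

lemma xCLocG_quot {δ : Qb} {g : AlgebraicClosure F} (g0 : g ≠ 0) {d : ℚ} (hd : δ ^ 2 = d)
    (h : ∀ σ : AlgebraicClosure F ≃ₐ[F] AlgebraicClosure F, ∃ w : AlgebraicClosure F,
      w ^ 2 = 1 ∧ σ (emb F δ) = w * emb F δ ∧ σ g = w * g) :
    ∃ z : F, (d : AlgebraicClosure F) = g ^ 2 * algebraMap F (AlgebraicClosure F) z ^ 2 := by
  obtain ⟨z, hz⟩ := xCLocG_fix (x := emb F δ / g) (fun σ => by
    obtain ⟨w, w2, e1, e2⟩ := h σ
    have w0 : w ≠ 0 := by
      rintro rfl
      simp at w2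
    rw [map_div₀, e1, e2]
    field_simp)
  refine ⟨z, ?_⟩
  rw [hz, ← map_ratCast (emb F), ← hd, map_pow]
  field_simp

end Pool.Agent.MP_e23604_nt.P

end
end

section

/-!
The 2-Selmer group comes from the known points.
-/

open WeierstrassCurve
open scoped Classical

set_option linter.unusedSectionVars false

noncomputable section

namespace Pool.Agent.MP_e23604_nt.P

attribute [local instance 2000] decQ

variable {D : ℚ} {F F' : Type} [Field F] [CharZero F] [Field F'] [CharZero F']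

variable {x1 y1 x2 y2 : ℚ}

lemma xCSel_sign {c c' : GQ → Qb} {δ g : Qb} {z : ℚ} (δ0 : δ ≠ 0) (hδ : ∀ σ : GQ, σ δ = c σ * δ)
    (hg : ∀ σ : GQ, σ g = c' σ * g) (e : δ ^ 2 = g ^ 2 * (z : Qb) ^ 2) (σ : GQ) : c σ = c' σ := by
  refine mul_right_cancel₀ δ0 ?_
  rw [← hδ]
  rw [← mul_pow] at e
  rcases sq_eq_sq_iff_eq_or_eq_neg.1 e with e | e <;> rw [e]
  · rw [map_mul, hg, map_ratCast, mul_assoc]
  · rw [map_neg, map_mul, hg, map_ratCast]; ring

lemma xCSel_sq {g : Qb} {q : ℚ} (hg : g ^ 2 = q) (hf : ∀ σ : GQ, σ g = g) : IsSquare q := by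
  obtain ⟨z, rfl⟩ := fixed_rat hf
  exact ⟨z, by rw [← sq]; exact_mod_cast hg.symm⟩

lemma xCSel_h90 (c : GQ → Qb) (h1 : ∀ σ, c σ ^ 2 = 1) (h2 : ∀ σ τ, c (σ * τ) = c σ * σ (c τ))
    (h3 : IsLocallyConstant c) :
    ∃ (δ : Qb) (d : ℚ), δ ≠ 0 ∧ d ≠ 0 ∧ δ ^ 2 = d ∧ ∀ σ : GQ, σ δ = c σ * δ := by
  obtain ⟨δ, δ0, hδ⟩ := B.h90n two_pos (⊤ : Subgroup GQ) c (fun σ _ => h1 σ)
    (fun σ _ τ _ => h2 σ τ) (by simpa using h3.isOpen_fiber 1)
  replace hδ : ∀ σ : GQ, σ δ = c σ * δ := fun σ => hδ σ trivial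
  obtain ⟨d, hd⟩ := fixed_rat (x := δ ^ 2) (fun σ => by rw [map_pow, hδ, mul_pow, h1, one_mul])
  refine ⟨δ, d, δ0, ?_, hd, hδ⟩
  rintro rfl
  exact pow_ne_zero 2 δ0 (by simpa using hd)

end Pool.Agent.MP_e23604_nt.P

end
end
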