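import Pool.Agent.Mg.Fe23604m.G9b4e87
import Pool.Agent.Mg.Fe23604m.Ga53936

set_option linter.all false

section

namespace Pool.Agent.MP_e23604_nt.TN

open NumberField Finset Filter
open MP_f68ac8_nt MP_f68ac8_nt.Nd
open T (P0 rh lm9)
open scoped Topology BigOperators

theorem xEq_x {J j : ℕ} {a : ℝ} (hj : j < J) (a0 : 0 < a) (ha : 12 * J * a ≤ 1) :
    (0 : ℝ) ≤ j / J ∧ (j : ℝ) / J + 4 * a ≤ (j + 1) / J ∧ ((j : ℝ) + 1) / J ≤ 1 := by
  have J0 : (0 : ℝ) < J := by exact_mod_cast (by omega : 0 < J)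
  have h1 : (j : ℝ) + 1 ≤ J := by exact_mod_cast hj
  refine ⟨by positivity, ?_, (div_le_one J0).2 h1⟩
  rw [add_div, add_le_add_iff_left, le_div_iff₀ J0]
  nlinarith

theorem xEq_sum {R : Finset ℕ} {B D : ℝ} (hB : 0 ≤ B) (hD : (R.card : ℝ) ≤ D)
    (h : ∀ l ∈ R, Real.log l ≤ B) : ∑ l ∈ R, Real.log l ≤ D * B := by
  have h1 := sum_le_card_nsmul R (fun l : ℕ => Real.log l) B h
  rw [nsmul_eq_mul] at h1
  exact h1.trans (mul_le_mul_of_nonneg_right hD hB)

theorem xEq_mono {n n' : ℕ} {R : Finset ℕ} {N : Subgroup GQ} (h : AdK n R N) (hn : n ≤ n') :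
    AdK n' R N :=
  ⟨⟨h.pri, h.nrm, h.nhds, ⟨h.idx.1, h.idx.2.trans hn⟩, h.unr⟩, h.le, h.pg⟩

theorem eqT (hS : SelK) (hB : BandT) (hN : NumT) : EqT := by
  obtain ⟨c, hc, hc2⟩ := hB 27
  refine ⟨c, hc, fun J n p₁ k a A hJ a0 ha hk => ?_⟩
  obtain ⟨c', hc', hcn⟩ := hB n
  obtain ⟨c₀, h0, hS⟩ := hS (max n 27)
  obtain ⟨ρ₀, hρ₀, hS⟩ := hS (max p₁ 4)
  obtain ⟨C, hC, hc2⟩ := hc2 k
  obtain ⟨C', hC', hcn⟩ := hcn k
  have hl : Tendsto (fun X : ℕ => Real.log X) atTop atTop :=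
    Real.tendsto_log_atTop.comp tendsto_natCast_atTop_atTop
  filter_upwards [hl.eventually (hN a A 3 c c₀ C ρ₀ k (J + 1) a0 hc h0 hC hρ₀ hk),
    hl.eventually (hN a A 3 c' c₀ C' ρ₀ k (J + 1) a0 hc' h0 hC' hρ₀ hk),
    hl.eventually_ge_atTop 1] with X n1 n2 t1
  have hp : ∀ j : ℕ, ∃ p₀ : ℕ, j < J → max p₁ 4 ≤ p₀ ∧ ∀ R N, AdK (max n 27) R N →
      sz R ≤ Real.log X ^ ((j : ℝ) / J + a / 2) → p₀ ∉ R →
      GoodN N (c₀ * Real.log X ^ (-((j : ℝ) / J + a))) := fun j => by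
    by_cases hj : j < J
    · obtain ⟨x1, x2, x3⟩ := xEq_x hj a0 ha
      obtain ⟨-, -, -, y4, y5, -⟩ := n1 _ _ x1 x2 x3
      obtain ⟨p₀, h⟩ := hS _ _ y4 y5
      exact ⟨p₀, fun _ => h⟩
    · exact ⟨0, fun h => absurd h hj⟩
  choose p hp using hp
  have hP : ((range J).image p).card ≤ J := card_image_le.trans_eq (card_range J)
  refine ⟨(range J).image p, hP, fun q hq => ?_, fun j b R N τ σ e φ hj hR hr hN hσ hφ => ?_⟩
  · obtain ⟨j, hj, rfl⟩ := mem_image.1 hq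
    exact (le_max_left _ _).trans (hp j (mem_range.1 hj)).1
  obtain ⟨x1, x2, x3⟩ := xEq_x hj a0 ha
  have hE : (insert 3 ((range J).image p)).card ≤ J + 1 :=
    (card_insert_le _ _).trans (Nat.succ_le_succ hP)
  have hL : 0 ≤ LL X := Real.log_nonneg t1
  have hsz : sz (insert 3 R) ≤ Real.log X ^ ((j : ℝ) / J + a / 2) := by
    refine le_trans ?_ (n1 _ _ x1 x2 x3).1
    have h1 := xEq_sum (add_nonneg (pow_nonneg hL 3) (Real.rpow_nonneg (by linarith) _)) hr
      fun l hl => (hR l hl).2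
    have h2 := Real.log_le_sub_one_of_pos (x := ((3 : ℕ) : ℝ)) (by norm_num)
    have h3 : ∑ l ∈ insert 3 R, Real.log l ≤ Real.log (3 : ℕ) + ∑ l ∈ R, Real.log l := by
      by_cases h : 3 ∈ R
      · rw [insert_eq_of_mem h]
        exact le_add_of_nonneg_left (Real.log_natCast_nonneg 3)
      · rw [sum_insert h]
    unfold sz
    unfold LL at h1
    push_cast at h2 h3 ⊢
    linarith
  have hG : AdK (max n 27) (insert 3 R) N →
      GoodN N (c₀ * Real.log X ^ (-((j : ℝ) / J + a))) := fun h =>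
    (hp j hj).2 _ N h hsz fun h' => by
      rcases mem_insert.1 h' with h' | h'
      · have := (le_max_right _ _).trans (hp j hj).1
        omega
      · exact (hR _ h').1 (mem_image_of_mem p (mem_range.2 hj))
  rcases hN with ⟨hN, rfl⟩ | ⟨hN, hτ⟩
  · obtain ⟨-, -, y3, -, -, y6, y7, y8, y9, y10, y11, y12, y13, -, y15⟩ := n2 _ _ x1 x2 x3
    exact (hcn _ N hN.toAd0 hN.le _ _ _ _ _ 0 _ _ hsz y3 y6 (hG (xEq_mono hN (le_max_left _ _)))
      y7 y8 y9 y10 y11 (by rw [abs_zero]; exact hc'.le) y12 y13 _ b σ hσ e φ hφ).trans (y15 _ hE)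
  · obtain ⟨-, -, y3, -, -, y6, y7, y8, y9, y10, y11, y12, y13, -, y15⟩ := n1 _ _ x1 x2 x3
    exact (hc2 _ N hN.toAd0 hN.le _ _ _ _ _ τ _ _ hsz y3 y6 (hG (xEq_mono hN (le_max_right _ _)))
      y7 y8 y9 y10 y11 hτ y12 y13 _ b σ hσ e φ hφ).trans (y15 _ hE)

theorem diT (hB : BandD) (hC : DirC) (hN : NumT) : DiT := by
  obtain ⟨c, hc, hB⟩ := hB
  refine ⟨c, hc, fun J r k a A hJ a0 ha hk => ?_⟩
  obtain ⟨C, hC0, hB⟩ := hB k
  have hl : Tendsto (fun X : ℕ => Real.log X) atTop atTop :=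
    Real.tendsto_log_atTop.comp tendsto_natCast_atTop_atTop
  filter_upwards [hl.eventually (hN a A 8 c 1 C 1 k r a0 hc one_pos hC0 one_pos hk),
    hl.eventually_ge_atTop 1] with X n1 t1 E j R x y τ hE hj hR hr hx hτ
  obtain ⟨x1, x2, x3⟩ := xEq_x hj a0 ha
  obtain ⟨y1, y2, y3, -, -, y6, y7, y8, y9, y10, y11, -, y13, y14, y15⟩ := n1 _ _ x1 x2 x3
  obtain ⟨χ, χ', h1, h2⟩ := hC R x y (fun l hl => (hR l hl).1) hx
  have hL : 0 ≤ LL X := Real.log_nonneg t1
  have hQ : ((9 * ∏ k ∈ R, k : ℕ) : ℝ) ≤ Real.exp (Real.log X ^ ((j : ℝ) / J + a / 2)) := by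
    have b0 : ∀ l ∈ R, (l : ℝ) ≠ 0 := fun l hl => Nat.cast_ne_zero.2 (hR l hl).1.1.ne_zero
    have b1 := xEq_sum (pow_nonneg hL 3) hr fun l hl => (hR l hl).2
    have b2 := Real.log_le_sub_one_of_pos (x := 9) (by norm_num)
    have b3 : 0 ≤ LL X ^ 2 * Real.log X ^ ((j : ℝ) / J) :=
      mul_nonneg (sq_nonneg _) (Real.rpow_nonneg (by linarith) _)
    refine (Real.le_exp_log _).trans (Real.exp_le_exp.2 (le_trans ?_ y1))
    push_cast
    rw [Real.log_mul (by norm_num) (prod_ne_zero_iff.2 b0), Real.log_prod b0]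
    unfold LL at b1 b3
    linarith
  have hP : Pair χ χ' (Real.exp (Real.log X ^ ((j : ℝ) / J + a / 2))) :=
    ⟨h1.cm, h1.cm', fun K N => (h1.bs K N).trans hQ, fun K N => (h1.bs' K N).trans hQ,
      fun K N => (h1.sq K N).trans hQ, fun K N => (h1.sq' K N).trans hQ, h1.eq⟩
  refine le_of_eq_of_le (congrArg norm (sum_congr rfl fun l hl => ?_))
    ((hB χ χ' _ _ _ _ _ τ _ _ E hP y2 y3 y6 y7 y8 y9 y10 y11 hτ y13).trans (y15 _ hE))
  obtain ⟨b1, b2, b3, -⟩ := mem_seg.1 hl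
  rw [h2 l ⟨b1, fun h => ?_⟩ fun h => absurd ((hR l h).2.trans y14) (not_le.2 b3)]
  · rfl
  · have b4 := Real.log_le_sub_one_of_pos (x := (l : ℝ)) (Nat.cast_pos.2 b1.pos)
    have b5 : (l : ℝ) = 3 := by exact_mod_cast h
    exact absurd (y13.trans_lt b3) (by linarith)

end Pool.Agent.MP_e23604_nt.TN

end

section

namespace Pool.Agent.MP_e23604_nt.TN

open NumberField Finset Filter
open MP_f68ac8_nt MP_f68ac8_nt.Nd
open MP_f68ac8_nt.Zv (Ex)
open T (P0 rh lm9)
open scoped Topology BigOperators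

theorem xLev_expand {M : Type} [Fintype M] {Λ : Finset ℕ} {W : M → ℕ → ℝ} {s : ℝ}
    (hs : ∀ l ∈ Λ, ∑ m, W m l = (l : ℝ) ^ (-s)) {d : ℕ} (q : Fin d → Λ) :
    ∑ μ : Fin d → M, ∏ j, W (μ j) (q j) = (np q : ℝ) ^ (-s) := by
  rw [np, cast_prod_NePois, ← Fintype.piFinset_univ,
    ← prod_univ_sum (fun _ : Fin d => (univ : Finset M)) (fun j m => W m (q j))]
  exact prod_congr rfl fun j _ => hs _ (q j).2

theorem xLev_ex {M : Type} {Λ : Finset ℕ} {W : M → ℕ → ℝ} (hms : ∀ m, 0 < ms Λ W m) {d : ℕ}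
    (μ : Fin d → M) (f : (Fin d → Λ) → ℝ) :
    (∏ j, ms Λ W (μ j)) * Ex (U := fun _ => Λ) (wm Λ W μ) f =
      ∑ q : Fin d → Λ, (∏ j, W (μ j) (q j)) * f q := by
  rw [Ex, mul_sum]
  refine sum_congr rfl fun q _ => ?_
  rw [smul_eq_mul, ← mul_assoc, ← prod_mul_distrib]
  congr 1
  refine prod_congr rfl fun j _ => ?_
  rw [wm, mul_div_cancel₀ _ (hms _).ne']

open Classical in
theorem levT : LevT := by
  intro M _ Λ W s ε C ξ d K B T hW hs hms hK hε hC hξ hE A hA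
  have hP : ∀ (μ : Fin d → M) (q : Fin d → Λ), 0 ≤ ∏ j, W (μ j) (q j) := fun μ q =>
    prod_nonneg fun j _ => hW _ _
  have hM : ∀ μ : Fin d → M, 0 ≤ ∏ j, ms Λ W (μ j) := fun μ =>
    prod_nonneg fun j _ => (hms _).le
  calc _ = ∑ q : Fin d → Λ, ∑ n ∈ A, (if Function.Injective q ∧ np q = n then
          (∑ μ : Fin d → M with T μ, ∏ j, W (μ j) (q j)) * K n
          else 0) := by
        rw [sum_comm]
        refine sum_congr rfl fun n _ => ?_
        rw [sum_mul, sum_filter]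
    _ ≤ ∑ q : Fin d → Λ,
          (∑ μ : Fin d → M with T μ, ∏ j, W (μ j) (q j)) *
            (if Function.Injective q ∧ B (np q) then K (np q) else 0) := by
        refine sum_le_sum fun q _ => ?_
        have hG : 0 ≤ ∑ μ : Fin d → M with T μ, ∏ j, W (μ j) (q j) :=
          sum_nonneg fun μ _ => hP μ q
        by_cases hq : Function.Injective q ∧ np q ∈ A
        · rw [sum_eq_single (np q), if_pos ⟨hq.1, rfl⟩, if_pos ⟨hq.1, hA _ hq.2⟩]
          · intro n _ hn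
            exact if_neg fun h => hn h.2.symm
          · intro h
            exact absurd hq.2 h
        · rw [sum_eq_zero]
          · refine mul_nonneg hG ?_
            split_ifs
            · exact hK _
            · exact le_rfl
          · intro n hn
            rw [if_neg]
            rintro ⟨h1, h2⟩
            exact hq ⟨h1, h2 ▸ hn⟩
    _ = ∑ μ : Fin d → M with T μ, (∏ j, ms Λ W (μ j)) *
          Ex (U := fun _ => Λ) (wm Λ W μ) fun q =>
            if Function.Injective q ∧ B (np q) then K (np q) else 0 := by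
        rw [sum_congr rfl fun q _ => sum_mul _ _ _, sum_comm]
        exact sum_congr rfl fun μ _ => (xLev_ex hms μ _).symm
    _ ≤ ∑ μ : Fin d → M with T μ, (∏ j, ms Λ W (μ j)) *
          (ε * (Ex (U := fun _ => Λ) (wm Λ W μ) fun q => K (np q)) + C ^ (d + 1) * ξ) :=
        sum_le_sum fun μ hμ => mul_le_mul_of_nonneg_left (hE μ (mem_filter.mp hμ).2) (hM μ)
    _ = ∑ μ : Fin d → M with T μ,
          (ε * ∑ q : Fin d → Λ, (∏ j, W (μ j) (q j)) * K (np q) +
            (∏ j, ms Λ W (μ j)) * (C ^ (d + 1) * ξ)) := by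
        refine sum_congr rfl fun μ _ => ?_
        rw [mul_add, mul_left_comm, xLev_ex hms]
    _ ≤ ∑ μ : Fin d → M, (ε * ∑ q : Fin d → Λ, (∏ j, W (μ j) (q j)) * K (np q) +
            (∏ j, ms Λ W (μ j)) * (C ^ (d + 1) * ξ)) := by
        refine sum_le_sum_of_subset_of_nonneg (filter_subset _ _) fun μ _ _ => ?_
        have h1 : 0 ≤ ∑ q : Fin d → Λ, (∏ j, W (μ j) (q j)) * K (np q) :=
          sum_nonneg fun q _ => mul_nonneg (hP μ q) (hK _)
        have h2 := hM μ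
        positivity
    _ = _ := by
        rw [sum_add_distrib, ← mul_sum, ← sum_mul, sum_comm]
        congr 1
        · congr 1
          refine sum_congr rfl fun q _ => ?_
          rw [← sum_mul, xLev_expand hs]
        · rw [← Fintype.piFinset_univ,
            ← prod_univ_sum (fun _ : Fin d => (univ : Finset M)) (fun _ m => ms Λ W m),
            prod_const, card_univ, Fintype.card_fin, mul_pow]
          ring

end Pool.Agent.MP_e23604_nt.TN

end

section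

namespace Pool.Agent.MP_e23604_nt.TN

open NumberField Finset Filter
open MP_f68ac8_nt MP_f68ac8_nt.Nd
open T (P0 rh lm9)
open scoped Topology BigOperators

theorem xPer_zero {χ : ℕ → ℂ} {q n₀ : ℕ} (hm : ∀ a b, χ (a * b) = χ a * χ b) (hq : 0 < q)
    (hp : ∀ n, χ (n + q) = χ n) (hc : n₀.Coprime q) (h1 : χ n₀ ≠ 1) :
    ∑ n ∈ range q, χ n = 0 := by
  have hp' : Function.Periodic χ q := hp
  have hmap : ∀ n ∈ range q, n₀ * n % q ∈ range q := fun n _ => mem_range.2 (Nat.mod_lt _ hq)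
  have hinj : ∀ a ∈ range q, ∀ b ∈ range q, n₀ * a % q = n₀ * b % q → a = b := fun a ha b hb e =>
    Nat.ModEq.eq_of_lt_of_lt (Nat.ModEq.cancel_left_of_coprime hc.symm e) (mem_range.1 ha)
      (mem_range.1 hb)
  have him : (range q).image (fun n => n₀ * n % q) = range q :=
    eq_of_subset_of_card_le (image_subset_iff.2 hmap) (card_image_of_injOn hinj).ge
  have e : ∑ n ∈ range q, χ n = χ n₀ * ∑ n ∈ range q, χ n := by
    conv_lhs => rw [← him, sum_image hinj]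
    rw [mul_sum]
    exact sum_congr rfl fun n _ => by rw [hp'.map_mod_nat, hm]
  have e2 : (χ n₀ - 1) * ∑ n ∈ range q, χ n = 0 := by linear_combination -e
  exact (mul_eq_zero.1 e2).resolve_left (sub_ne_zero.2 h1)

theorem xPer_block {χ : ℕ → ℂ} {q : ℕ} (hp : ∀ n, χ (n + q) = χ n)
    (h0 : ∑ n ∈ range q, χ n = 0) (M : ℕ) : ∑ n ∈ Ico M (M + q), χ n = 0 := by
  induction M with
  | zero => rwa [zero_add, ← range_eq_Ico]
  | succ M ih =>
    have e1 := sum_Ico_succ_top (Nat.le_add_right M q) χ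
    have e2 := sum_eq_sum_Ico_succ_bot (show M < M + q + 1 by omega) χ
    rw [ih, hp, zero_add, e2] at e1
    rw [show M + 1 + q = M + q + 1 by omega]
    linear_combination e1

theorem perT : PerT := by
  intro χ q n₀ hχ hq hp hc h1 M N
  have h := xPer_block hp (xPer_zero hχ.mul hq hp hc h1)
  induction N using Nat.strong_induction_on with
  | _ N ih =>
    rcases le_or_gt N (M + q) with e | e
    · refine (norm_sum_le _ _).trans ((sum_le_card_nsmul _ _ _ fun m _ => hχ.le m).trans ?_)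
      rw [Nat.card_Ico, nsmul_one]
      exact Nat.cast_le.2 (by omega)
    · obtain ⟨K, rfl⟩ : ∃ K, N = K + q := ⟨N - q, by omega⟩
      rw [← sum_Ico_consecutive _ (by omega : M ≤ K) (Nat.le_add_right K q), h, add_zero]
      exact ih K (by omega)

end Pool.Agent.MP_e23604_nt.TN

end
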