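import Pool.Agent.Mg.Fe23604m.G9b4e87
import Pool.Agent.Mg.Fe23604m.G200097
import Pool.Agent.MP_f68ac8_nt.NaPsum

set_option linter.all false

section

namespace Pool.Agent.MP_e23604_nt.TN

open NumberField Finset Filter
open MP_f68ac8_nt MP_f68ac8_nt.Nd
open T (P0 rh lm9)
open scoped Topology BigOperators

theorem xBandD_cut (hP : PsumStmt) {χ χ' : ℕ → ℂ} {Q s h τ η B : ℝ} {k : ℕ} (hp : Pair χ χ' Q)
    (hs : 1 < s) (hh : 0 < h) (A : Finset ℕ) (hA : ∀ l ∈ A, l.Prime ∧ 2 < Real.log l)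
    (hη : ∑' l, wl s h k l ≤ ∑ l ∈ A, wl s h k l + η)
    (h1 : ‖∑' l : ℕ, χ l * (wl s h k l : ℝ) * tw τ l‖ ≤ B)
    (h2 : ‖∑' l : ℕ, χ' l * (wl s h k l : ℝ) * tw τ l‖ ≤ B) :
    ‖∑ l ∈ A with cl l = false, (wl s h k l : ℝ) * (tw τ l * χ l)‖ ≤ B + 1 * η := by
  have hw0 := fun l => (hP.2.1 s h k l hh.le).1
  have hw : Summable fun l => wl s h k l :=
    (hP.1 s hs).1.of_nonneg_of_le hw0 fun l => (hP.2.1 s h k l hh.le).2
  have key : ∀ ψ : ℕ → ℂ, (∀ n, ‖ψ n‖ ≤ 1) → ‖∑' l : ℕ, ψ l * (wl s h k l : ℝ) * tw τ l‖ ≤ B →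
      ‖∑ l ∈ A, ψ l * (wl s h k l : ℝ) * tw τ l‖ ≤ B + 1 * η := fun ψ hψ hB => by
    refine (tail_NbCheb zero_le_one hw (fun l => ?_) A hη).trans (add_le_add_left hB _)
    rw [norm_mul, norm_mul, tw_NbCheb, mul_one, Complex.norm_real, Real.norm_of_nonneg (hw0 l)]
    exact mul_le_mul_of_nonneg_right (hψ l) (hw0 l)
  have e : ∑ l ∈ A with cl l = false, (wl s h k l : ℝ) * (tw τ l * χ l) =
      (1 / 2 : ℂ) * (∑ l ∈ A, χ l * (wl s h k l : ℝ) * tw τ l -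
        ∑ l ∈ A, χ' l * (wl s h k l : ℝ) * tw τ l) := by
    rw [← sum_sub_distrib, mul_sum, sum_filter]
    refine sum_congr rfl fun l hl => ?_
    have h3 : l ≠ 3 := by
      rintro rfl
      have h4 := Real.log_le_sub_one_of_pos (show (0 : ℝ) < (3 : ℕ) by norm_num)
      have h5 := (hA 3 hl).2
      norm_num at h4 h5
      linarith
    rw [hp.eq l ⟨(hA l hl).1, h3⟩]
    cases cl l
    · simp only [if_true, Bool.false_eq_true, if_false]
      ring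
    · simp only [if_true, Bool.true_eq_false, if_false]
      ring
  have a := key χ hp.cm.le h1
  have b := key χ' hp.cm'.le h2
  rw [e, norm_mul]
  have n2 : ‖(1 / 2 : ℂ)‖ = 1 / 2 := by simp
  rw [n2]
  linarith [norm_sub_le (∑ l ∈ A, χ l * (wl s h k l : ℝ) * tw τ l)
    (∑ l ∈ A, χ' l * (wl s h k l : ℝ) * tw τ l)]

theorem bandD (hW : WinD) (hG : BandG) (hP : PsumStmt) : BandD := by
  obtain ⟨c, hc, hW⟩ := hW
  refine ⟨c, hc, fun k => ?_⟩
  obtain ⟨C, hC, hW⟩ := hW k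
  have hk : (0 : ℝ) ≤ k := k.cast_nonneg
  refine ⟨2 * C + k + 3, by positivity,
    fun χ χ' M ρ h h' s τ U V E hp hM hρ hρ' hh' hh hCh hs hs' hτ hU => ?_⟩
  have h0 : 0 < h := hh'.trans_le hh
  have hCh' : C * h ≤ ρ := le_trans (mul_le_mul_of_nonneg_right (by linarith) h0.le) hCh
  have hM0 : 0 ≤ M := zero_le_one.trans hM
  have main := hG (fun l => tw τ l * χ l) s h h' U V (C * M * (h / ρ) ^ (k + 1)) 1 k E false
    (fun l => by rw [norm_mul, tw_NbCheb, one_mul]; exact hp.cm.le l) hs hh' hh (by linarith)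
    zero_le_one fun h₁ e A η hA hη => by
      have a : 0 < h₁ ∧ h' ≤ h₁ ∧ h₁ ≤ h := by
        rcases e with rfl | rfl
        exacts [⟨h0, hh, le_rfl⟩, ⟨hh', le_rfl, hh⟩]
      have b : C * M * (h₁ / ρ) ^ (k + 1) ≤ C * M * (h / ρ) ^ (k + 1) := by
        have := a.1
        have := a.2.2
        gcongr
      have d : C * h₁ ≤ ρ := (mul_le_mul_of_nonneg_left a.2.2 hC.le).trans hCh'
      have f : s ≤ 1 + h₁ := by linarith [a.2.1]
      exact xBandD_cut hP hp hs a.1 A (fun l hl => ⟨(hA l hl).1, hU.trans_lt (hA l hl).2⟩) hη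
        ((hW χ M ρ h₁ s τ hp.cm hM hp.bs hp.sq hρ hρ' a.1 d hs f hτ).trans b)
        ((hW χ' M ρ h₁ s τ hp.cm' hM hp.bs' hp.sq' hρ hρ' a.1 d hs f hτ).trans b)
  have hl : 0 ≤ los h h' s U V k E.card := by
    have : 0 < s - 1 := by linarith
    have : 0 ≤ U := by linarith
    unfold los
    positivity
  have hq : 0 ≤ M * (h / ρ) ^ (k + 1) := by positivity
  simp only [mul_assoc] at main ⊢
  refine main.trans ?_
  generalize M * (h / ρ) ^ (k + 1) = q at hq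
  generalize los h h' s U V k E.card = r at hl
  have : 0 ≤ (k + 3) * q + 2 * C * r := by positivity
  linarith

end Pool.Agent.MP_e23604_nt.TN

end

section

namespace Pool.Agent.MP_e23604_nt.TN

open NumberField Finset Filter
open MP_f68ac8_nt MP_f68ac8_nt.Nd
open T (P0 rh lm9)
open scoped Topology BigOperators

lemma xDer_term (χ : ℕ → ℂ) (l : ℕ) (s : ℂ) : HasDerivAt (fun y => χ l * pw y l)
    (-(χ l * (Real.log l : ℝ) * pw s l)) s := by
  unfold pw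
  split_ifs with hl
  · have h0 : (l : ℂ) ≠ 0 := by exact_mod_cast hl.ne_zero
    have h1 := (((hasDerivAt_id s).neg).const_cpow (c := (l : ℂ)) (Or.inl h0)).const_mul (χ l)
    refine HasDerivAt.congr_deriv (f := fun y => χ l * (l : ℂ) ^ (-y)) h1 ?_
    rw [Complex.natCast_log]
    simp only [Pi.neg_apply, id]
    ring
  · simp only [mul_zero, neg_zero]
    exact hasDerivAt_const s 0

lemma xDer_bd {χ : ℕ → ℂ} (hχ : ∀ n, ‖χ n‖ ≤ 1) (l : ℕ) (y : ℂ) :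
    ‖χ l * (Real.log l : ℝ) * pw y l‖ ≤ Real.log l * ‖pw y l‖ := by
  rw [norm_mul, norm_mul, Complex.norm_real, Real.norm_eq_abs,
    abs_of_nonneg (Real.log_natCast_nonneg l), mul_assoc]
  exact mul_le_of_le_one_left (mul_nonneg (Real.log_natCast_nonneg l) (norm_nonneg _)) (hχ l)

lemma xDer_der {χ : ℕ → ℂ} (hχ : ∀ n, ‖χ n‖ ≤ 1) (s : ℂ) (hs : 1 < s.re) :
    HasDerivAt (Pc χ) (-Pd χ s) s := by
  obtain ⟨σ, hσ1, hσ2⟩ := exists_between hs
  have hb : ∀ (l : ℕ) (y : ℂ), y ∈ {y : ℂ | σ < y.re} →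
      ‖-(χ l * (Real.log l : ℝ) * pw y l)‖ ≤ Real.log l * (l : ℝ) ^ (-σ) := by
    intro l y hy
    have hy' : σ < y.re := hy
    rw [norm_neg]
    exact (xDer_bd hχ l y).trans
      (mul_le_mul_of_nonneg_left (pw_le_NaPsum hy'.le l) (Real.log_natCast_nonneg l))
  have h0 : Summable fun l : ℕ => χ l * pw s l := by
    refine Summable.of_norm_bounded (sum1_NaPsum hσ1) fun l => ?_
    rw [norm_mul]
    exact (mul_le_of_le_one_left (norm_nonneg _) (hχ l)).trans (pw_le_NaPsum hσ2.le l)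
  have h1 := hasDerivAt_tsum_of_isPreconnected (sum2_NaPsum hσ1)
    (isOpen_lt continuous_const Complex.continuous_re) (convex_halfSpace_re_gt σ).isPreconnected
    (fun l y _ => xDer_term χ l y) hb hσ2 h0 hσ2
  rw [tsum_neg] at h1
  exact h1

lemma xDer_pos (z : ℂ) (hz : ‖z‖ ≤ 1) : 0 ≤ 3 + 4 * z.re + (z ^ 2).re := by
  have h1 : z.re ^ 2 + z.im ^ 2 ≤ 1 := by
    have := Complex.sq_norm z
    rw [Complex.normSq_apply] at this
    nlinarith [norm_nonneg z]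
  rw [sq z, Complex.mul_re]
  nlinarith [sq_nonneg (1 + z.re)]

lemma xDer_one {χ : ℕ → ℂ} (hχ : ∀ n, ‖χ n‖ ≤ 1) (σ t : ℝ) (l : ℕ) :
    0 ≤ 3 * ((1 : ℂ) * (Real.log l : ℝ) * pw σ l).re +
      4 * (χ l * (Real.log l : ℝ) * pw (σ + t * Complex.I) l).re +
      (χ l ^ 2 * (Real.log l : ℝ) * pw (σ + 2 * t * Complex.I) l).re := by
  unfold pw
  split_ifs with hl
  · have h0 : (l : ℂ) ≠ 0 := by exact_mod_cast hl.ne_zero
    obtain ⟨w, hw⟩ : ∃ w : ℂ, w = (l : ℂ) ^ (-(t * Complex.I)) := ⟨_, rfl⟩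
    have hn : ‖w‖ = 1 := by
      rw [hw, Complex.norm_natCast_cpow_of_pos hl.pos]
      simp
    have e0 : (l : ℂ) ^ (-(σ : ℂ)) = (((l : ℝ) ^ (-σ) : ℝ) : ℂ) := by
      rw [Complex.ofReal_cpow (Nat.cast_nonneg l)]
      simp
    have e1 : (l : ℂ) ^ (-(σ + t * Complex.I)) = (l : ℂ) ^ (-(σ : ℂ)) * w := by
      rw [neg_add, Complex.cpow_add _ _ h0, hw]
    have e2 : (l : ℂ) ^ (-(σ + 2 * t * Complex.I)) = (l : ℂ) ^ (-(σ : ℂ)) * w ^ 2 := by
      rw [hw, sq, ← Complex.cpow_add _ _ h0, ← Complex.cpow_add _ _ h0]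
      congr 1
      ring
    have hz : ‖χ l * w‖ ≤ 1 := by rw [norm_mul, hn, mul_one]; exact hχ l
    have hp := xDer_pos _ hz
    obtain ⟨c, hc⟩ : ∃ c : ℝ, c = Real.log l * (l : ℝ) ^ (-σ) := ⟨_, rfl⟩
    have hc0 : 0 ≤ c := by
      rw [hc]
      exact mul_nonneg (Real.log_natCast_nonneg l) (by positivity)
    have f0 : (1 : ℂ) * (Real.log l : ℝ) * (l : ℂ) ^ (-(σ : ℂ)) = (c : ℂ) := by
      rw [e0, hc]; push_cast; ring
    have f1 : χ l * (Real.log l : ℝ) * (l : ℂ) ^ (-(σ + t * Complex.I)) = c * (χ l * w) := by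
      rw [e1, ← f0]; ring
    have f2 : χ l ^ 2 * (Real.log l : ℝ) * (l : ℂ) ^ (-(σ + 2 * t * Complex.I)) =
        c * (χ l * w) ^ 2 := by
      rw [e2, ← f0]; ring
    rw [f0, f1, f2, Complex.ofReal_re, Complex.re_ofReal_mul, Complex.re_ofReal_mul]
    nlinarith [mul_nonneg hc0 hp]
  · simp

theorem derT (hP : PsumStmt) : DerT := by
  intro χ hχ
  refine ⟨xDer_der hχ, fun σ t hσ => ?_⟩
  have sm : ∀ (ψ : ℕ → ℂ) (s : ℂ), (∀ n, ‖ψ n‖ ≤ 1) → 1 < s.re →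
      Summable fun l : ℕ => ψ l * (Real.log l : ℝ) * pw s l := fun ψ s h hs =>
    Summable.of_norm_bounded (hP.1 s hs).2 fun l => xDer_bd h l s
  have s0 := sm (fun _ => 1) σ (fun _ => by simp) (by simpa using hσ)
  have s1 := sm χ (σ + t * Complex.I) hχ (by simpa using hσ)
  have s2 := sm (fun n => χ n ^ 2) (σ + 2 * t * Complex.I)
    (fun n => by rw [norm_pow]; exact pow_le_one₀ (norm_nonneg _) (hχ n)) (by simpa using hσ)
  have r0 := (Complex.hasSum_re s0.hasSum).mul_left 3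
  have r1 := (Complex.hasSum_re s1.hasSum).mul_left 4
  have r2 := Complex.hasSum_re s2.hasSum
  exact ((r0.add r1).add r2).nonneg fun l => xDer_one hχ σ t l

end Pool.Agent.MP_e23604_nt.TN

end
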