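import Pool.Agent.Mg.Fe23604m.G8b9a0e
import Pool.Agent.Mg.Fe23604m.G26a658
import Pool.Agent.Mg.Fe23604m.G6a03de

set_option linter.all false

/-!
The points of the modular curve: lattice form and the statements of the steps.
-/

set_option autoImplicit false

open Finset QuadraticAlgebra
open scoped Classical

namespace Pool.Agent.MP_e23604_nt.Z

open B R S W Un

/-- the first coordinate as a function of a lattice -/
noncomputable def cX (L : PeriodPair) (u s : ℂ) : ℂ :=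
  3 * oG L (3 * u) u / (dB L (3 * u) s - dA L (3 * u))

/-- the second coordinate as a function of a lattice -/
noncomputable def cY (L : PeriodPair) (u s : ℂ) : ℂ :=
  (zc3 ^ 2 * dB L (3 * u) s - zc3 * dA L (3 * u)) / (dB L (3 * u) s - dA L (3 * u))

/-- `M` lists the lattices that contain `L` with index `l` -/
structure Nbs {ι : Type} (L : PeriodPair) (l : ℕ) (I : Finset ι) (M : ι → PeriodPair) : Prop where
  nb : ∀ i ∈ I, ∃ R, Ord L l R ∧ ∀ z, z ∈ (M i).lattice ↔ ∃ k : ℤ, z - k * R ∈ L.lattice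
  uni : ∀ R, Ord L l R → ∃! i, i ∈ I ∧ R ∈ (M i).lattice

/-- the Hecke relation for lattices -/
def LAT_st : Prop := ∀ (ι : Type) (L : PeriodPair) (l : ℕ) (I : Finset ι) (M : ι → PeriodPair)
  (u s : ℂ), l.Prime → l % 3 = 2 → Two L (3 * u) s → Nbs L l I M →
  ∑ i ∈ I, (pt 0 1 (zc3 * cX (M i) u s) (cY (M i) u s) : PC) =
    ∑ i ∈ I, pt 0 1 (cX (M i) u s) (cY (M i) u s)

/-- the relations between four abscissae -/
structure Rel (x y z u : Qb) : Prop where
  x0 : x ≠ 0
  y0 : y ≠ 0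
  z0 : z ≠ 0
  u0 : x + y + z - u ≠ 0
  a2 : fa x y z ^ 2 = 3 * (x + y + z) * (x * y * z)
  b6 : fb x y z ^ 6 = -27 * (x * y * z) ^ 2 * ((x - y) * (y - z) * (z - x)) ^ 2
  c3 : fc x y z u ^ 3 = 27 * (x * y * z) ^ 2
  abc : fa x y z ^ 3 = fb x y z ^ 3 + fc x y z u ^ 3
  on : On 0 1 (fc x y z u / (fb x y z - fa x y z))
    ((w3 ^ 2 * fb x y z - w3 * fa x y z) / (fb x y z - fa x y z))

/-- the point lies on the curve -/
def HON_st : Prop := ∀ (C : AddSubgroup Pt) (S R : Pt), DD C S R →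
  Rel (vX C (3 • R) S) (vX C (3 • R) (S + 3 • R)) (vX C (3 • R) (S - 3 • R))
    (vX C (3 • R) R + vX C (3 • R) (R + 3 • R) + vX C (3 • R) (R - 3 • R))

/-- the action of all automorphisms -/
def HGB_st : Prop := ∀ (C : AddSubgroup Pt) (g : GQ), (C : Set Pt).Finite →
  (∀ T P, g (vX C T P) = vX (C.map (gal g)) (gal g T) (gal g P)) ∧
  ∀ S R, DD C S R → DD (C.map (gal g)) (gal g S) (gal g R) ∧
    (g ∈ GK → gal g (Hp C S R) = Hp (C.map (gal g)) (gal g S) (gal g R)) ∧
    (g ∉ GK → gal g (Hp C S R) = -Hp (C.map (gal g)) (gal g S) (gal g R))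

end Pool.Agent.MP_e23604_nt.Z
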