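import Mathlib
import Pool.Agent.Mg.Fe23604m.Gd7623c
import Pool.Agent.Mg.Fe23604m.G59e30f

set_option linter.all false

/-! Marked primes in many bands and the passage to natural density: statements. -/

namespace Pool.Agent.MP_e23604_nt.TN

open NumberField Finset Filter
open MP_f68ac8_nt MP_f68ac8_nt.Nd
open MP_f68ac8_nt.Zv (Ex)
open MP_f68ac8_nt.Zk (lk)
open T (P0 rh lm9)
open scoped Topology BigOperators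

/-- marks -/
abbrev Mk (J : ℕ) : Type := Fin (J + 2) × Bool

/-- the class of a prime -/
def cl (l : ℕ) : Bool := decide (l % 3 = 1)

/-! ### Frobenius elements -/

/-- test functions whose shift lies in the Galois group of the cyclotomic field -/
structure TfK (N : Subgroup GQ) (e : ℕ) (φ : GQ → ℂ) : Prop extends Tf0 N e φ where
  shz : ∃ z ∈ Gz 3, ∃ k : ℕ, 0 < k ∧ ∀ g, ∑ i ∈ range k, φ (z ^ i * g) = 0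

/-- one exceptional prime at each scale -/
def SelK : Prop :=
  ∀ n : ℕ, ∃ c : ℝ, 0 < c ∧ ∀ p₁ : ℕ, ∃ ρ₀ : ℝ, 0 < ρ₀ ∧ ∀ M ρ : ℝ, ρ ≤ c / qM M → ρ ≤ ρ₀ →
    ∃ p₀ : ℕ, p₁ ≤ p₀ ∧ ∀ R N, AdK n R N → sz R ≤ M → p₀ ∉ R → GoodN N ρ

/-- the primes of class `b` in a segment -/
noncomputable def seg (E : Finset ℕ) (b : Bool) (U V : ℝ) : Finset ℕ :=
  (range (⌊Real.exp V⌋₊ + 1)).filter fun l => l.Prime ∧ cl l = b ∧ U < Real.log l ∧ l ∉ E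

theorem mem_seg {E : Finset ℕ} {b : Bool} {U V : ℝ} {l : ℕ} :
    l ∈ seg E b U V ↔ l.Prime ∧ cl l = b ∧ U < Real.log l ∧ Real.log l ≤ V ∧ l ∉ E := by
  rw [seg, mem_filter, mem_range, Nat.lt_succ_iff, Nat.le_floor_iff (Real.exp_pos V).le]
  refine ⟨fun h => ⟨h.2.1, h.2.2.1, h.2.2.2.1, ?_, h.2.2.2.2⟩,
    fun h => ⟨?_, h.1, h.2.1, h.2.2.1, h.2.2.2.2⟩⟩
  · exact (Real.log_le_iff_le_exp (Nat.cast_pos.2 h.2.1.pos)).2 h.1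
  · exact (Real.log_le_iff_le_exp (Nat.cast_pos.2 h.1.pos)).1 h.2.2.2.1

/-- the theorem of Mertens in segments -/
def SegT : Prop :=
  ∃ C : ℝ, 0 ≤ C ∧ ∀ (E : Finset ℕ) (b : Bool) (U V : ℝ), 1 ≤ U → U ≤ V →
    |∑ l ∈ seg E b U V, (1 : ℝ) / l - (Real.log V - Real.log U) / 2| ≤ C + E.card

/-- elementary bounds for the smooth weights -/
def WlT : Prop :=
  ∀ (s h h' : ℝ) (k l : ℕ), 0 < h' → h' ≤ h → l.Prime →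
    0 ≤ wl s h' k l ∧ wl s h' k l ≤ wl s h k l ∧ wl s h k l ≤ (l : ℝ) ^ (-s) ∧
    wl s h k l ≤ (l : ℝ) ^ (-s) * (h * Real.log l) ^ (k + 1) ∧
    wl s h k l ≤ (l : ℝ) ^ (-s) * (h * Real.log l) ∧
    (l : ℝ) ^ (-s) - wl s h k l ≤ (l : ℝ) ^ (-s) * ((k + 1) * Real.exp (-(h * Real.log l)))

/-- the loss from the truncation -/
noncomputable def los (h h' s U V : ℝ) (k r : ℕ) : ℝ :=
  ((h * U) ^ (k + 1) + Real.exp (-(h' * V))) / (s - 1) + (r + 1) * Real.exp (-U)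

/-- from cuts to bands -/
def BandG : Prop :=
  ∀ (a : ℕ → ℂ) (s h h' U V B C : ℝ) (k : ℕ) (E : Finset ℕ) (b : Bool), (∀ l, ‖a l‖ ≤ 1) → 1 < s →
    0 < h' → h' ≤ h → 0 ≤ U → 0 ≤ C →
    (∀ h₁ : ℝ, h₁ = h ∨ h₁ = h' → ∀ (A : Finset ℕ) (η : ℝ), (∀ l ∈ A, l.Prime ∧ U < Real.log l) →
      ∑' l, wl s h₁ k l ≤ ∑ l ∈ A, wl s h₁ k l + η →
      ‖∑ l ∈ A with cl l = b, (wl s h₁ k l : ℝ) * a l‖ ≤ B + C * η) →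
    ‖∑ l ∈ seg E b U V, ((wl s h k l - wl s h' k l : ℝ) : ℂ) * a l‖ ≤
      2 * B + (2 * C + k + 1) * los h h' s U V k E.card

/-- equidistribution of the primes of one class beyond a cut -/
def CutT : Prop :=
  ∀ n : ℕ, ∃ c : ℝ, 0 < c ∧ ∀ k : ℕ, ∃ C : ℝ, 0 < C ∧ ∀ R N, Ad0 n R N → N ≤ Gz 3 →
    ∀ M ρ h s τ η : ℝ, sz R ≤ M → 0 < ρ → ρ ≤ c / M → GoodN N ρ → 0 < h → C * h ≤ ρ → 1 < s →
      s ≤ 1 + h → |τ| ≤ c → ∀ (A : Finset ℕ) (b : Bool) (σ : ℕ → GQ),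
      (∀ l ∈ A, l.Prime ∧ l ≠ 3 ∧ l ∉ R ∧ Fr l (σ l)) →
      ∑' l, wl s h k l ≤ ∑ l ∈ A, wl s h k l + η → ∀ (e : ℕ) (φ : GQ → ℂ), TfK N e φ →
      ‖∑ l ∈ A with cl l = b, (wl s h k l : ℝ) * tw τ l * 𝔼 a : Exm e, φ (σ l ^ (a.1 : ℕ))‖ ≤
        C * (M * (h / ρ) ^ (k + 1) + η)

/-- equidistribution in a band -/
def BandT : Prop :=
  ∀ n : ℕ, ∃ c : ℝ, 0 < c ∧ ∀ k : ℕ, ∃ C : ℝ, 0 < C ∧ ∀ R N, Ad0 n R N → N ≤ Gz 3 →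
    ∀ M ρ h h' s τ U V : ℝ, sz R ≤ M → 0 < ρ → ρ ≤ c / M → GoodN N ρ → 0 < h' → h' ≤ h →
      C * h ≤ ρ → 1 < s → s ≤ 1 + h' → |τ| ≤ c → M ≤ U → 2 ≤ U →
      ∀ (E : Finset ℕ) (b : Bool) (σ : ℕ → GQ), (∀ l ∈ seg E b U V, Fr l (σ l)) →
      ∀ (e : ℕ) (φ : GQ → ℂ), TfK N e φ →
      ‖∑ l ∈ seg E b U V, ((wl s h k l - wl s h' k l : ℝ) : ℂ) * tw τ l *
          𝔼 a : Exm e, φ (σ l ^ (a.1 : ℕ))‖ ≤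
        C * (M * (h / ρ) ^ (k + 1) + los h h' s U V k E.card)

/-- Kummer characters of arbitrary primes -/
def KumT : Prop :=
  ∀ (R : Finset ℕ) (y : ℕ → ZMod 3), (∀ m ∈ R, m.Prime) →
    (∀ g ∈ Gz 3, ∀ h, Bq R y (g * h) = Bq R y g + Bq R y h) ∧
    (∀ t, ∀ g ∈ Gz 3, Bq R y (t * g * t⁻¹) = cyc (Ω := Qa) 3 t * Bq R y g) ∧
    (∃ N, AdK 27 (insert 3 R) N ∧ (∀ g ∈ Gz 3, g ^ 3 ∈ N) ∧
      ∀ g, g ∈ N ↔ g ∈ Gz 3 ∧ Bq R y g = 0) ∧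
    ((∃ m ∈ R, y m ≠ 0) → ∃ z ∈ Gz 3, Bq R y z ≠ 0)

/-- split primes against Kummer characters -/
def KmT : Prop :=
  ∀ (Λ R : Finset ℕ) (w : ℕ → ℝ) (x : ℕ → ZMod 3) (a : ZMod 3) (τ η : ℝ), (∀ k ∈ R, P0 k) →
    (∀ l ∈ Λ, Zk.P1 3 l ∧ l ∉ R) → (∃ k ∈ R, x k ≠ 0) ∨ a ≠ 0 →
    (∀ N, AdK 27 (insert 3 R) N → ∀ σ : ℕ → GQ, (∀ l ∈ Λ, Fr l (σ l)) →
      ∀ (e : ℕ) (φ : GQ → ℂ), TfK N e φ →
      ‖∑ l ∈ Λ, (w l : ℂ) * tw τ l * 𝔼 a : Exm e, φ (σ l ^ (a.1 : ℕ))‖ ≤ η) →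
    ‖∑ l ∈ Λ, (w l : ℂ) * tw τ l * fP (∑ k ∈ R, x k * rh k l + a * rh 3 l)‖ ≤ η

/-! ### Complex characters -/

/-- completely multiplicative functions of modulus at most one -/
structure Cm (χ : ℕ → ℂ) : Prop where
  one : χ 1 = 1
  mul : ∀ a b, χ (a * b) = χ a * χ b
  le : ∀ n, ‖χ n‖ ≤ 1

/-- bounded sums -/
def Bs (χ : ℕ → ℂ) (Q : ℝ) : Prop := ∀ K N : ℕ, ‖∑ n ∈ Ico K N, χ n‖ ≤ Q

/-- the sum over primes -/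
noncomputable def Pc (χ : ℕ → ℂ) (s : ℂ) : ℂ := ∑' l : ℕ, χ l * pw s l

/-- the sum over primes with logarithms -/
noncomputable def Pd (χ : ℕ → ℂ) (s : ℂ) : ℂ := ∑' l : ℕ, χ l * (Real.log l : ℝ) * pw s l

/-- the domain of the continuation -/
def Om : Set ℂ := {s | 3 / 4 < s.re ∧ ‖s‖ < 2}

/-- a continuation of the exponential of the sum over primes -/
structure Lf (χ : ℕ → ℂ) (F : ℂ → ℂ) (Q : ℝ) : Prop where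
  dif : DifferentiableOn ℂ F Om
  le : ∀ s ∈ Om, ‖F s‖ ≤ Q
  eq : ∀ s : ℂ, 1 < s.re → F s = Complex.exp (Pc χ s)

/-- nontrivial periodic characters -/
def PerT : Prop :=
  ∀ (χ : ℕ → ℂ) (q n₀ : ℕ), Cm χ → 0 < q → (∀ n, χ (n + q) = χ n) → n₀.Coprime q → χ n₀ ≠ 1 →
    Bs χ q

/-- continuation of the series -/
def ConT : Prop :=
  ∃ C : ℝ, 1 ≤ C ∧ ∀ (χ : ℕ → ℂ) (Q : ℝ), (∀ n, ‖χ n‖ ≤ 1) → Bs χ Q → ∃ F : ℂ → ℂ,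
    DifferentiableOn ℂ F Om ∧ (∀ s ∈ Om, ‖F s‖ ≤ C * Q) ∧
    ∀ s : ℂ, 1 < s.re → F s = ∑' n : ℕ, χ n * (n : ℂ) ^ (-s)

/-- the Euler product -/
def EuT : Prop :=
  ∃ C : ℝ, ∀ χ : ℕ → ℂ, Cm χ → ∃ R : ℂ → ℂ, DifferentiableOn ℂ R Om ∧ (∀ s ∈ Om, ‖R s‖ ≤ C) ∧
    ∀ s : ℂ, 1 < s.re → ∑' n : ℕ, χ n * (n : ℂ) ^ (-s) = Complex.exp (Pc χ s + R s)

/-- the derivative and the positivity of the sums over primes -/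
def DerT : Prop :=
  ∀ χ : ℕ → ℂ, (∀ n, ‖χ n‖ ≤ 1) → (∀ s : ℂ, 1 < s.re → HasDerivAt (Pc χ) (-Pd χ s) s) ∧
    ∀ σ t : ℝ, 1 < σ → 0 ≤ 3 * (Pd (fun _ => 1) σ).re + 4 * (Pd χ (σ + t * Complex.I)).re +
      (Pd (fun n => χ n ^ 2) (σ + 2 * t * Complex.I)).re

/-- the pole at one -/
def PrT : Prop :=
  ∃ c C : ℝ, 0 < c ∧ 0 < C ∧ ∀ σ : ℝ, 1 < σ → σ ≤ 1 + c →
    (Pd (fun _ => 1) σ).re ≤ 1 / (σ - 1) + C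

/-- the logarithmic derivative near one -/
def LocD : Prop :=
  ∃ r C : ℝ, 0 < r ∧ r ≤ 1 / 8 ∧ 0 < C ∧ ∀ (χ : ℕ → ℂ) (F : ℂ → ℂ) (M : ℝ), (∀ n, ‖χ n‖ ≤ 1) →
    1 ≤ M → Lf χ F (Real.exp M) → DifferentiableOn ℂ F (Metric.ball 1 r) ∧
    ∃ Z : Multiset ℂ, (Multiset.card Z : ℝ) ≤ C * M ∧ (∀ z ∈ Z, z.re ≤ 1) ∧
      ∀ s ∈ Metric.ball (1 : ℂ) r, (F s = 0 → s ∈ Z) ∧
        (F s ≠ 0 → ‖logDeriv F s - (Z.map fun z => 1 / (s - z)).sum‖ ≤ C * M)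

/-- the region without zeros -/
def FreeD : Prop :=
  ∃ c C : ℝ, 0 < c ∧ c ≤ 1 / 8 ∧ 0 < C ∧ ∀ (χ : ℕ → ℂ) (F F' : ℂ → ℂ) (M ρ τ : ℝ),
    (∀ n, ‖χ n‖ ≤ 1) → 1 ≤ M → Lf χ F (Real.exp M) → Lf (fun n => χ n ^ 2) F' (Real.exp M) →
    0 < ρ → ρ ≤ c / M → |τ| ≤ c →
    DifferentiableOn ℂ F (Metric.ball (1 + τ * Complex.I) (c * ρ)) ∧
      ∀ s ∈ Metric.ball (1 + τ * Complex.I) (c * ρ), F s ≠ 0 ∧ ‖logDeriv F s‖ ≤ C * M / ρ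

/-- cancellation in the sums over large primes -/
def WinD : Prop :=
  ∃ c : ℝ, 0 < c ∧ ∀ k : ℕ, ∃ C : ℝ, 0 < C ∧ ∀ (χ : ℕ → ℂ) (M ρ h s τ : ℝ), Cm χ → 1 ≤ M →
    Bs χ (Real.exp M) → Bs (fun n => χ n ^ 2) (Real.exp M) → 0 < ρ → ρ ≤ c / M → 0 < h →
    C * h ≤ ρ → 1 < s → s ≤ 1 + h → |τ| ≤ c →
    ‖∑' l : ℕ, χ l * (wl s h k l : ℝ) * tw τ l‖ ≤ C * M * (h / ρ) ^ (k + 1)

/-- a character and its product with the quadratic character modulo three -/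
structure Pair (χ χ' : ℕ → ℂ) (Q : ℝ) : Prop where
  cm : Cm χ
  cm' : Cm χ'
  bs : Bs χ Q
  bs' : Bs χ' Q
  sq : Bs (fun n => χ n ^ 2) Q
  sq' : Bs (fun n => χ' n ^ 2) Q
  eq : ∀ l, P0 l → χ' l = if cl l = true then χ l else -χ l

/-- cancellation in a band -/
def BandD : Prop :=
  ∃ c : ℝ, 0 < c ∧ ∀ k : ℕ, ∃ C : ℝ, 0 < C ∧ ∀ (χ χ' : ℕ → ℂ) (M ρ h h' s τ U V : ℝ)
    (E : Finset ℕ), Pair χ χ' (Real.exp M) → 1 ≤ M → 0 < ρ → ρ ≤ c / M → 0 < h' → h' ≤ h →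
    C * h ≤ ρ → 1 < s → s ≤ 1 + h' → |τ| ≤ c → 2 ≤ U →
    ‖∑ l ∈ seg E false U V, ((wl s h k l - wl s h' k l : ℝ) : ℂ) * tw τ l * χ l‖ ≤
      C * (M * (h / ρ) ^ (k + 1) + los h h' s U V k E.card)

/-- the logarithm modulo a split prime -/
def LogT : Prop :=
  ∃ f : ℕ → ℕ → ZMod 3, ∀ m, Zk.P1 3 m →
    (∀ a b : ℕ, a.Coprime m → b.Coprime m → f m (a * b) = f m a + f m b) ∧
    (∀ a b : ℕ, a ≡ b [MOD m] → f m a = f m b) ∧ (∃ a : ℕ, a.Coprime m ∧ f m a = 1) ∧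
    ∀ l : ℕ, l.Prime → l ≠ m → f m l = lk 3 l m

/-- cubic characters -/
def DirC : Prop :=
  ∀ (R : Finset ℕ) (x : ℕ → ZMod 3) (a : ZMod 3), (∀ k ∈ R, Zk.P1 3 k) →
    (∃ k ∈ R, x k ≠ 0) ∨ a ≠ 0 → ∃ χ χ' : ℕ → ℂ, Pair χ χ' ((9 * ∏ k ∈ R, k : ℕ) : ℝ) ∧
      ∀ l, P0 l → l ∉ R → χ l = ZMod.stdAddChar (∑ k ∈ R, x k * rh l k + a * lm9 l)

/-! ### Bilinear sums -/

/-- families of characters -/
structure Chs (B : Finset ℕ) (γ : ℕ → ℕ → ℂ) : Prop where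
  cm : ∀ m ∈ B, Cm (γ m)
  orth : ∀ m ∈ B, ∀ m' ∈ B, m ≠ m' → Bs (fun n => γ m n * (starRingEnd ℂ) (γ m' n)) (m * m')

/-- cubic characters of prime conductor -/
def ChrT : Prop :=
  ∀ u : ZMod 3, u ≠ 0 → ∃ γ : ℕ → ℕ → ℂ, (∀ B : Finset ℕ, (∀ m ∈ B, Zk.P1 3 m) → Chs B γ) ∧
    ∀ m l : ℕ, Zk.P1 3 m → l.Prime → l ≠ m → γ m l = ZMod.stdAddChar (u * lk 3 l m)

/-- the large sieve for such a family -/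
def LsT : Prop :=
  ∀ (s L : ℝ) (B : Finset ℕ) (γ : ℕ → ℕ → ℂ) (β : ℕ → ℂ) (K : ℕ), 1 < s → s ≤ 2 → 2 ≤ L → Chs B γ →
    (∀ m ∈ B, L ≤ m ∧ m < L ^ 2 ∧ ‖β m‖ ≤ (m : ℝ) ^ (-s)) →
    ∑ n ∈ Ico ⌈L ^ 5⌉₊ K, (n : ℝ) ^ (-s) * ‖∑ m ∈ B, β m * γ m n‖ ^ 2 ≤
      3 * (2 / (s - 1)) ^ 2 / L

/-- bilinear sums with a short modulus -/
def BilA : Prop :=
  ∃ C : ℝ, 0 < C ∧ ∀ (s L : ℝ) (A B : Finset ℕ) (γ : ℕ → ℕ → ℂ) (a b : ℕ → ℂ), 1 < s → s ≤ 2 →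
    2 ≤ L → Chs B γ → (∀ l ∈ A, l.Prime ∧ L ≤ l ∧ ‖a l‖ ≤ (l : ℝ) ^ (-s)) →
    (∀ m ∈ B, L ≤ m ∧ m < L ^ 2 ∧ ‖b m‖ ≤ (m : ℝ) ^ (-s)) →
    ‖∑ l ∈ A, ∑ m ∈ B, a l * b m * γ m l‖ ≤ C / (s - 1) ^ 2 * L ^ (-(1 / 10 : ℝ))

/-- bilinear sums with a long modulus -/
def BilB : Prop :=
  ∃ (r C : ℝ) (e : ℕ), 0 < r ∧ r ≤ 1 ∧ 0 < C ∧ ∀ (s L : ℝ) (A B : Finset ℕ) (a b : ℕ → ℂ)
    (u : ZMod 3), 1 < s → s ≤ 1 + r → 2 ≤ L → u ≠ 0 →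
    (∀ l ∈ A, l.Prime ∧ L ≤ l ∧ l < L ^ 2 ∧ ‖a l‖ ≤ (l : ℝ) ^ (-s)) →
    (∀ m ∈ B, Zk.P1 3 m ∧ L ≤ m ∧ ‖b m‖ ≤ (m : ℝ) ^ (-s)) → Disjoint A B →
    ‖∑ l ∈ A, ∑ m ∈ B, a l * b m * ZMod.stdAddChar (u * lk 3 l m)‖ ≤
      C / (s - 1) ^ e * Real.exp (-√(Real.log L))

/-- bilinear sums for an inert and a split prime -/
def BilU : Prop :=
  ∃ (r C : ℝ) (e : ℕ), 0 < r ∧ 0 < C ∧ ∀ (s Z : ℝ) (A B : Finset ℕ) (a b : ℕ → ℂ)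
    (u : ZMod 3), 1 < s → s ≤ 1 + r → 2 ≤ Z → u ≠ 0 →
    (∀ l ∈ A, l.Prime ∧ Z ≤ l ∧ ‖a l‖ ≤ (l : ℝ) ^ (-s)) →
    (∀ m ∈ B, Zk.P1 3 m ∧ Z ≤ m ∧ ‖b m‖ ≤ (m : ℝ) ^ (-s)) → Disjoint A B →
    ‖∑ l ∈ A, ∑ m ∈ B, a l * b m * ZMod.stdAddChar (u * lk 3 l m)‖ ≤
      C / (s - 1) ^ e * Real.exp (-√(Real.log Z))

/-- bilinear sums for two marks -/
def BilT : Prop :=
  ∃ (r C : ℝ) (e : ℕ), 0 < r ∧ 0 < C ∧ ∀ (s Z : ℝ) (Λ : Finset ℕ) (a b : ℕ → ℂ) (x : Bool)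
    (u v : ZMod 3), 1 < s → s ≤ 1 + r → 2 ≤ Z → u ≠ 0 →
    (∀ l ∈ Λ, l.Prime ∧ ‖a l‖ ≤ (l : ℝ) ^ (-s) ∧ ‖b l‖ ≤ (l : ℝ) ^ (-s) ∧
      (a l ≠ 0 → Z ≤ l ∧ cl l = x) ∧ (b l ≠ 0 → Z ≤ l ∧ cl l = true)) →
    ‖∑ l ∈ Λ, ∑ l' ∈ Λ, if l = l' then 0 else
      a l * b l' * ZMod.stdAddChar (u * rh l l' + v * rh l' l)‖ ≤
      C / (s - 1) ^ e * Real.exp (-√(Real.log Z))

/-! ### From tuples to numbers -/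

section
variable {M : Type} (Λ : Finset ℕ) (W : M → ℕ → ℝ) (S : M → Finset ℕ) {d : ℕ}

/-- the mass of a mark -/
noncomputable def ms (m : M) : ℝ := ∑ l ∈ Λ, W m l

/-- the weights of a sequence of marks -/
noncomputable def wm (μ : Fin d → M) (j : Fin d) (u : Λ) : ℝ := W (μ j) u / ms Λ W (μ j)

variable {Λ}

/-- sequences of marks that respect the supports and the cores -/
def Fth (q : Fin d → Λ) (μ : Fin d → M) : Prop :=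
  ∀ j, W (μ j) (q j) ≠ 0 ∧ ∀ m, (q j : ℕ) ∈ S m → μ j = m

end

/-- the second moment of the number of prime factors -/
def TkT : Prop :=
  ∀ (X : ℕ) (A : Finset ℕ) (t : ℝ), (∀ l ∈ A, l.Prime ∧ l ≤ X) → 0 < t →
    (((Icc 1 X).filter fun n =>
      t ≤ |((n.primeFactors ∩ A).card : ℝ) - ∑ l ∈ A, (1 : ℝ) / l|).card : ℝ) ≤
      3 * X * (∑ l ∈ A, (1 : ℝ) / l) / t ^ 2

open Classical in
/-- the weight of the sequences that do not respect the cores -/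
def PtT : Prop :=
  ∀ (M : Type) [Fintype M] (Λ : Finset ℕ) (W : M → ℕ → ℝ) (S : M → Finset ℕ) (s : ℝ) (d : ℕ)
    (T : (Fin d → M) → Prop) (q : Fin d → Λ), (∀ l ∈ Λ, l.Prime) → (∀ m l, 0 ≤ W m l) →
    (∀ l ∈ Λ, ∑ m, W m l = (l : ℝ) ^ (-s)) → Function.Injective q → (∀ μ, Fth W S q μ → T μ) →
    (np q : ℝ) ^ (-s) ≤ (∑ μ : Fin d → M with T μ, ∏ j, W (μ j) (q j)) +
      ∑ l ∈ (np q).primeFactors, (∑ m with l ∈ S m, ((l : ℝ) ^ (-s) - W m l)) *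
        ((np q / l : ℕ) : ℝ) ^ (-s)

open Classical in
/-- the estimate for a fixed number of prime factors -/
def LevT : Prop :=
  ∀ (M : Type) [Fintype M] (Λ : Finset ℕ) (W : M → ℕ → ℝ) (s ε C ξ : ℝ) (d : ℕ) (K : ℕ → ℝ)
    (B : ℕ → Prop) (T : (Fin d → M) → Prop), (∀ m l, 0 ≤ W m l) →
    (∀ l ∈ Λ, ∑ m, W m l = (l : ℝ) ^ (-s)) → (∀ m, 0 < ms Λ W m) → (∀ n, 0 ≤ K n) →
    0 ≤ ε → 0 ≤ C → 0 ≤ ξ →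
    (∀ μ, T μ → (Ex (U := fun _ => Λ) (wm Λ W μ) fun q =>
        if Function.Injective q ∧ B (np q) then K (np q) else 0) ≤
      ε * (Ex (U := fun _ => Λ) (wm Λ W μ) fun q => K (np q)) + C ^ (d + 1) * ξ) →
    ∀ A : Finset ℕ, (∀ n ∈ A, B n) →
      ∑ n ∈ A, (∑ q : Fin d → Λ with (Function.Injective q ∧ np q = n),
        ∑ μ : Fin d → M with T μ, ∏ j, W (μ j) (q j)) * K n ≤
      ε * (∑ q : Fin d → Λ, (np q : ℝ) ^ (-s) * K (np q)) + C * ξ * (C * ∑ m, ms Λ W m) ^ d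

open Classical in
/-- from tuples to numbers -/
def PoisT : Prop :=
  ∀ (M : Type) [Fintype M] (Λ : Finset ℕ) (W : M → ℕ → ℝ) (S : M → Finset ℕ) (s C₀ ε C ξ : ℝ)
    (K : ℕ → ℝ) (B : ℕ → Prop) (T : ∀ d : ℕ, (Fin d → M) → Prop), (∀ l ∈ Λ, l.Prime) →
    (∀ m l, 0 ≤ W m l) → (∀ l ∈ Λ, ∑ m, W m l = (l : ℝ) ^ (-s)) → (∀ m, 0 < ms Λ W m) →
    (∀ m, S m ⊆ Λ) → (∀ n, 0 ≤ K n) →
    (∀ a : ℕ, a ≠ 0 → ∀ A : Finset ℕ, ∑ n ∈ A, (n : ℝ) ^ (-s) * K (a * n) ≤ C₀) →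
    0 ≤ ε → 0 ≤ C → 0 ≤ ξ →
    (∀ (d : ℕ) (μ : Fin d → M), T d μ → (Ex (U := fun _ => Λ) (wm Λ W μ) fun q =>
        if Function.Injective q ∧ B (np q) then K (np q) else 0) ≤
      ε * (Ex (U := fun _ => Λ) (wm Λ W μ) fun q => K (np q)) + C ^ (d + 1) * ξ) →
    ∀ A : Finset ℕ, (∀ n ∈ A, Squarefree n ∧ n.primeFactors ⊆ Λ ∧ B n ∧
      ∀ (d : ℕ) (q : Fin d → Λ) (μ : Fin d → M), Function.Injective q → np q = n →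
        Fth W S q μ → T d μ) →
    ∑ n ∈ A, (n : ℝ) ^ (-s) * K n ≤ ε * C₀ + C * ξ * Real.exp (C * ∑ m, ms Λ W m) +
      C₀ * ∑ m, ∑ l ∈ S m, ((l : ℝ) ^ (-s) - W m l)

/-- numbers whose prime factors are well distributed -/
structure Reg {J : ℕ} (S S' : Mk J → Finset ℕ) (L δ : ℝ) (n : ℕ) : Prop where
  tot : |(n.primeFactors.card : ℝ) - L| ≤ δ * L
  lo : ∀ m : Mk J, 2 ≤ m.1.val → (1 - δ) * L ≤ 2 * J * ((n.primeFactors ∩ S m).card : ℝ)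
  up : ∀ m : Mk J, 2 ≤ m.1.val → 2 * J * ((n.primeFactors ∩ S' m).card : ℝ) ≤ (1 + δ) * L

/-- their sequences of marks are typical -/
def TypT : Prop :=
  ∀ (J d m₀ : ℕ) (Λ : Finset ℕ) (W : Mk J → ℕ → ℝ) (S S' : Mk J → Finset ℕ) (L δ : ℝ)
    (q : Fin d → Λ) (μ : Fin d → Mk J), (∀ l ∈ Λ, l.Prime) → Function.Injective q → 20000 ≤ J →
    0 ≤ δ → δ ≤ 1 / 40000 → 2 ≤ L → 2 * m₀ ≤ L →
    (∀ (m : Mk J) l, 2 ≤ m.1.val → W m l ≠ 0 → l ∈ S' m) → Fth W S q μ → Reg S S' L δ (np q) →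
    (d : ℝ) ≤ L ^ 2 ∧ T.Typ m₀ (fun j => (μ j).1.val) fun j => (μ j).2

/-- the masses of cores and supports -/
structure Mas {J : ℕ} (X : ℕ) (S S' : Mk J → Finset ℕ) (δ : ℝ) : Prop where
  pri : ∀ m, ∀ l ∈ S' m, l.Prime ∧ l ≤ X
  sub : ∀ m, S m ⊆ S' m
  lo : ∀ m : Mk J, 2 ≤ m.1.val → (1 - δ) * LL X ≤ 2 * J * ∑ l ∈ S m, (1 : ℝ) / l
  up : ∀ m : Mk J, 2 ≤ m.1.val → 2 * J * ∑ l ∈ S' m, (1 : ℝ) / l ≤ (1 + δ) * LL X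

open Classical in
/-- almost all numbers are well distributed -/
def RegT : Prop :=
  ∀ (J : ℕ) (δ ε : ℝ), 0 < J → 0 < δ → δ ≤ 1 → 0 < ε → ∀ᶠ X : ℕ in atTop,
    ∀ S S' : Mk J → Finset ℕ, Mas X S S' δ →
      (((Icc 1 X).filter fun n => ¬ Reg S S' (LL X) (2 * δ) n).card : ℝ) ≤ ε * X

/-! ### The parameters as functions of `X` -/

section
variable (X J k : ℕ) (a : ℝ) (E : Finset ℕ)

/-- powers of the logarithm -/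
noncomputable def tp (x : ℝ) : ℝ := Real.log X ^ x

/-- the exponent -/
noncomputable def sX : ℝ := 1 + 1 / Real.log X

/-- the primes -/
def Lam : Finset ℕ := (range (X + 1)).filter fun l => l.Prime ∧ l ∉ E

/-- the smooth weight of band `j` -/
noncomputable def dw (j l : ℕ) : ℝ :=
  wl (sX X) (tp X (-(j / J + 2 * a))) k l - wl (sX X) (tp X (-((j + 1) / J - 2 * a))) k l

/-- the weight of band `j` -/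
noncomputable def bw (j l : ℕ) : ℝ :=
  if tp X (j / J + a) < Real.log l ∧ Real.log l ≤ tp X ((j + 1) / J) then dw X J k a j l else 0

/-- the weight of level `i` -/
noncomputable def lw (i l : ℕ) : ℝ :=
  if Real.log l ≤ LL X ^ 3 then (if i = 0 then (l : ℝ) ^ (-sX X) else 0)
  else if i = 0 then 0
  else if i = 1 then (l : ℝ) ^ (-sX X) - ∑ j ∈ range J, bw X J k a j l
  else bw X J k a (i - 2) l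

/-- the weights of the marks -/
noncomputable def WW (m : Mk J) (l : ℕ) : ℝ :=
  if l ∈ Lam X E ∧ cl l = m.2 then lw X J k a m.1.val l else 0

/-- the primes of band `j` -/
noncomputable def bnd (j : ℕ) (b : Bool) : Finset ℕ :=
  seg E b (tp X (j / J + a)) (tp X ((j + 1) / J))

/-- the core of band `j` -/
noncomputable def crj (j : ℕ) (b : Bool) : Finset ℕ :=
  seg E b (tp X (j / J + 3 * a)) (tp X ((j + 1) / J - 3 * a))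

/-- the supports -/
noncomputable def sup (m : Mk J) : Finset ℕ :=
  if 2 ≤ m.1.val then bnd X J a E (m.1.val - 2) m.2 else ∅

/-- the cores -/
noncomputable def cor (m : Mk J) : Finset ℕ :=
  if 2 ≤ m.1.val then crj X J a E (m.1.val - 2) m.2 else ∅

end

/-- statements for large `X` -/
def EvX (P : ℕ → ℕ → ℕ → ℝ → Finset ℕ → Prop) : Prop :=
  ∀ (J k r : ℕ) (a : ℝ), 0 < J → 0 < a → 12 * J * a ≤ 1 → ∀ᶠ X : ℕ in atTop,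
    ∀ E : Finset ℕ, E.card ≤ r → P X J k a E

/-- the weights of the levels -/
def LwT : Prop := EvX fun X J k a _ => ∀ l : ℕ, l.Prime →
  (∀ i, i < J + 2 → 0 ≤ lw X J k a i l ∧ lw X J k a i l ≤ (l : ℝ) ^ (-sX X)) ∧
  ∑ i ∈ range (J + 2), lw X J k a i l = (l : ℝ) ^ (-sX X) ∧
  ∀ j, lw X J k a (j + 2) l = bw X J k a j l

/-- the weights of the marks -/
def WgT : Prop := EvX fun X J k a E =>
  (∀ m l, 0 ≤ WW X J k a E m l ∧ WW X J k a E m l ≤ (l : ℝ) ^ (-sX X)) ∧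
  (∀ l ∈ Lam X E, ∑ m, WW X J k a E m l = (l : ℝ) ^ (-sX X)) ∧
  (∀ m l, WW X J k a E m l ≠ 0 → l ∈ Lam X E ∧ cl l = m.2 ∧
    (m.1.val = 0 ↔ Real.log l ≤ LL X ^ 3) ∧ (2 ≤ m.1.val → l ∈ sup X J a E m)) ∧
  ∀ m : Mk J, cor X J a E m ⊆ sup X J a E m ∧ sup X J a E m ⊆ Lam X E ∧
    ∀ l ∈ sup X J a E m, WW X J k a E m l = dw X J k a (m.1.val - 2) l

/-- the masses of the segments -/
def MasT : Prop := EvX fun X J _ a E => Mas X (cor X J a E) (sup X J a E) (12 * J * a)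

/-- the defect on the cores -/
def DefT : Prop := EvX fun X J k a E => ∀ (j : ℕ) (b : Bool), j < J →
  ∑ l ∈ crj X J a E j b, ((l : ℝ) ^ (-sX X) - dw X J k a j l) ≤ tp X (-(a / 2))

/-- the masses of the tiny and of the junk primes -/
def OneA : Prop := EvX fun X J k a E => ∀ m : Mk J, m.1.val < 2 →
  1 ≤ ms (Lam X E) (WW X J k a E) m

/-- the masses of the bands -/
def OneB : Prop := EvX fun X J k a E => 24 * J * a ≤ 1 → ∀ m : Mk J, 2 ≤ m.1.val →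
  1 ≤ ms (Lam X E) (WW X J k a E) m

/-- the numerical conditions for the bands -/
def NumT : Prop :=
  ∀ (a A B c c₀ C ρ₀ : ℝ) (k r : ℕ), 0 < a → 0 < c → 0 < c₀ → 0 < C → 0 < ρ₀ →
    |A| + 3 ≤ (k + 1) * a → ∀ᶠ T : ℝ in atTop, ∀ x x' : ℝ, 0 ≤ x → x + 4 * a ≤ x' → x' ≤ 1 →
    B + Real.log T ^ 2 * (Real.log T ^ 3 + T ^ x) ≤ T ^ (x + a / 2) ∧ 1 ≤ T ^ (x + a / 2) ∧
    0 < c₀ * T ^ (-(x + a)) ∧ c₀ * T ^ (-(x + a)) ≤ c₀ / qM (T ^ (x + a / 2)) ∧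
    c₀ * T ^ (-(x + a)) ≤ ρ₀ ∧ c₀ * T ^ (-(x + a)) ≤ c / T ^ (x + a / 2) ∧
    0 < T ^ (-(x' - 2 * a)) ∧ T ^ (-(x' - 2 * a)) ≤ T ^ (-(x + 2 * a)) ∧
    C * T ^ (-(x + 2 * a)) ≤ c₀ * T ^ (-(x + a)) ∧ 1 < 1 + 1 / T ∧
    1 + 1 / T ≤ 1 + T ^ (-(x' - 2 * a)) ∧ T ^ (x + a / 2) ≤ T ^ (x + a) ∧ 2 ≤ T ^ (x + a) ∧
    Real.log T ^ 3 ≤ T ^ (x + a) ∧ ∀ r' : ℕ, r' ≤ r →
    C * (T ^ (x + a / 2) * (T ^ (-(x + 2 * a)) / (c₀ * T ^ (-(x + a)))) ^ (k + 1) +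
      los (T ^ (-(x + 2 * a))) (T ^ (-(x' - 2 * a))) (1 + 1 / T) (T ^ (x + a)) (T ^ x') k r') ≤
      T ^ (-A)

/-- equidistribution of the Frobenius elements of the bands -/
def EqT : Prop :=
  ∃ c : ℝ, 0 < c ∧ ∀ (J n p₁ k : ℕ) (a A : ℝ), 0 < J → 0 < a → 12 * J * a ≤ 1 →
    |A| + 3 ≤ (k + 1) * a → ∀ᶠ X : ℕ in atTop, ∃ P : Finset ℕ, P.card ≤ J ∧ (∀ p ∈ P, p₁ ≤ p) ∧
    ∀ (j : ℕ) (b : Bool) (R : Finset ℕ) (N : Subgroup GQ) (τ : ℝ) (σ : ℕ → GQ) (e : ℕ)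
      (φ : GQ → ℂ), j < J → (∀ l ∈ R, l ∉ P ∧ Real.log l ≤ LL X ^ 3 + tp X (j / J)) →
      (R.card : ℝ) ≤ LL X ^ 2 →
      (AdK n (insert 3 R) N ∧ τ = 0) ∨ (AdK 27 (insert 3 R) N ∧ |τ| ≤ c) →
      (∀ l ∈ bnd X J a (insert 3 P) j b, Fr l (σ l)) → TfK N e φ →
      ‖∑ l ∈ bnd X J a (insert 3 P) j b, (dw X J k a j l : ℂ) * tw τ l *
        𝔼 x : Exm e, φ (σ l ^ (x.1 : ℕ))‖ ≤ tp X (-A)

/-- inert bands against cubic characters -/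
def DiT : Prop :=
  ∃ c : ℝ, 0 < c ∧ ∀ (J r k : ℕ) (a A : ℝ), 0 < J → 0 < a → 12 * J * a ≤ 1 →
    |A| + 3 ≤ (k + 1) * a → ∀ᶠ X : ℕ in atTop, ∀ (E : Finset ℕ) (j : ℕ) (R : Finset ℕ)
      (x : ℕ → ZMod 3) (y : ZMod 3) (τ : ℝ), E.card ≤ r → j < J →
      (∀ l ∈ R, Zk.P1 3 l ∧ Real.log l ≤ LL X ^ 3) → (R.card : ℝ) ≤ LL X ^ 2 →
      (∃ l ∈ R, x l ≠ 0) ∨ y ≠ 0 → |τ| ≤ c →
      ‖∑ l ∈ bnd X J a E j false, (dw X J k a j l : ℂ) * tw τ l *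
        ZMod.stdAddChar (∑ m ∈ R, x m * rh l m + y * lm9 l)‖ ≤ tp X (-A)

/-- the properties of the parameters -/
def OkT : Prop :=
  ∃ c : ℝ, 0 < c ∧ ∀ (J n r p₁ : ℕ) (a A : ℝ), 0 < J → 0 < a → 24 * J * a ≤ 1 →
    ∃ k : ℕ, ∀ᶠ X : ℕ in atTop, ∃ P : Finset ℕ, P.card ≤ J ∧ (∀ p ∈ P, p₁ ≤ p) ∧
      T.Par.Ok ⟨J, Lam X (insert 3 P), WW X J k a (insert 3 P)⟩ c n r (LL X ^ 2) (tp X (-A))

/-- existence of parameters -/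
def ParT : Prop :=
  ∃ c : ℝ, 0 < c ∧ ∀ (J n r p₁ : ℕ) (δ δ' A : ℝ), 0 < J → 0 < δ → δ ≤ 1 / 2 → 0 < δ' →
    ∀ᶠ X : ℕ in atTop, ∃ (Λ : Finset ℕ) (W : Mk J → ℕ → ℝ) (P : Finset ℕ)
      (S S' : Mk J → Finset ℕ), T.Par.Ok ⟨J, Λ, W⟩ c n r (LL X ^ 2) (Real.log X ^ (-A)) ∧
      P.card ≤ J ∧ (∀ p ∈ P, p₁ ≤ p) ∧ (∀ l, P0 l → l ≤ X → l ∉ P → l ∈ Λ) ∧
      (∀ l ∈ Λ, ∑ m, W m l = (l : ℝ) ^ (-(1 + 1 / Real.log X))) ∧ ∑ m, ms Λ W m ≤ 2 * LL X ∧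
      Mas X S S' δ ∧ (∀ m, S m ⊆ Λ) ∧ (∀ (m : Mk J) l, 2 ≤ m.1.val → W m l ≠ 0 → l ∈ S' m) ∧
      ∑ m, ∑ l ∈ S m, ((l : ℝ) ^ (-(1 + 1 / Real.log X)) - W m l) ≤ δ'

end Pool.Agent.MP_e23604_nt.TN
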