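import Mathlib
import Pool.Agent.Mg.Fe23604m.G6ebe25
import Pool.Agent.Mg.Fe23604m.G914d9c
import Pool.Agent.Mg.Fe23604m.G6d3fb6
import Pool.Agent.Mg.Fe23604m.Gef29d6

set_option linter.all false

section

/-! The adjoint group over finite local rings. -/

namespace Pool.Agent.MP_f68ac8_nt.Ze
open Ev Pv Sv Zv

open Matrix

section
variable {A : Type} [CommRing A] {n : ℕ}

lemma one_ZgAd {ι A' : Type} [DecidableEq ι] [CommRing A'] (f : A →+* A') (i j : ι) :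
    f ((1 : Matrix ι ι A) i j) = (1 : Matrix ι ι A') i j := by
  simp only [one_apply, apply_ite f, map_one, map_zero]

lemma cg_ZgAd {ι : Type} [Fintype ι] [DecidableEq ι] (J : Ideal A) (y : GL ι A) :
    Cg J y ↔ GeneralLinearGroup.map (Ideal.Quotient.mk J) y = 1 := by
  constructor
  · intro h
    refine Units.ext ?_
    ext i j
    have h1 := h i j
    rw [Matrix.sub_apply, ← Ideal.Quotient.eq] at h1
    rw [GeneralLinearGroup.map_apply, h1, Units.val_one, one_ZgAd]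
  · intro h i j
    rw [Matrix.sub_apply, ← Ideal.Quotient.eq, one_ZgAd]
    exact congrArg (fun z : GL ι (A ⧸ J) => z.val i j) h

lemma tri_ZgAd (J : Ideal A) (y : GL (Fin n) A) :
    TriI J (AdM y).val ↔
      TriD 0 (AdM (GeneralLinearGroup.map (Ideal.Quotient.mk J) y)).val := by
  rw [← nat_ZcAd]
  refine forall_congr' fun a => forall_congr' fun b => imp_congr Iff.rfl ?_
  rw [zero_dvd_iff, GeneralLinearGroup.map_apply, Ideal.Quotient.eq_zero_iff_mem]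

lemma cgAd_ZgAd (J : Ideal A) (y : GL (Fin n) A) (h : Cg J y) : Cg J (AdM y) := by
  rw [cg_ZgAd] at h ⊢
  rw [nat_ZcAd, h, map_one]

lemma part1_ZgAd (J : Ideal A) : (∀ y : GL (Fin n) A,
      (TriI J (AdM y).val ↔ ∀ s t, t < s → y.val s t ∈ J) ∧ (Cg J y → Cg J (AdM y))) ∧
    ∀ γ ∈ Ga A n, ∀ γ' ∈ Ga A n, TriI J γ.val → TriI J γ'.val →
      TriI J (γ * γ').val ∧ TriI J γ⁻¹.val ∧ ∀ s t,
        (γ * γ').val (s, t) (s, t) - γ.val (s, t) (s, t) * γ'.val (s, t) (s, t) ∈ J := by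
  refine ⟨fun y => ⟨?_, cgAd_ZgAd J y⟩, ?_⟩
  · rw [tri_ZgAd, iff_ZdTri]
    refine forall_congr' fun a => forall_congr' fun b => imp_congr Iff.rfl ?_
    rw [zero_dvd_iff, GeneralLinearGroup.map_apply, Ideal.Quotient.eq_zero_iff_mem]
  · rintro _ ⟨y, rfl⟩ _ ⟨y', rfl⟩ h h'
    rw [tri_ZgAd] at h h'
    obtain ⟨h1, h2, h3⟩ := two_ZdTri 0 _ _ h h'
    refine ⟨?_, ?_, fun s t => ?_⟩
    · rw [← map_mul, tri_ZgAd, map_mul]
      exact h1
    · rw [← map_inv, tri_ZgAd, map_inv]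
      exact h2
    · have h4 := h3 s t
      rw [zero_dvd_iff, ← map_mul, ← nat_ZcAd, ← nat_ZcAd, ← nat_ZcAd,
        GeneralLinearGroup.map_apply, GeneralLinearGroup.map_apply,
        GeneralLinearGroup.map_apply, ← map_mul, ← map_sub, Ideal.Quotient.eq_zero_iff_mem,
        map_mul] at h4
      exact h4

lemma smul_ZgAd (u : Aˣ) (y : GL (Fin n) A) :
    ∃ z : GL (Fin n) A, z.val = u.val • y.val ∧ AdM z = AdM y := by
  have h : ∃ z : GL (Fin n) A, z.val = u.val • y.val :=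
    ⟨⟨u.val • y.val, u⁻¹.val • y⁻¹.val,
      by rw [Matrix.smul_mul, Matrix.mul_smul, smul_smul, Units.mul_inv, Units.mul_inv, one_smul],
      by rw [Matrix.smul_mul, Matrix.mul_smul, smul_smul, Units.inv_mul, Units.inv_mul,
        one_smul]⟩, rfl⟩
  obtain ⟨z, hz⟩ := h
  refine ⟨z, hz, ?_⟩
  rw [← mul_inv_eq_one, ← map_inv, ← map_mul, one_ZcAd]
  exact ⟨u.val, by rw [Units.val_mul, hz, Matrix.smul_mul, Units.mul_inv]⟩

lemma ne_ZgAd {k : Type} [Field k] (i : Fin n) (x : GL (Fin n) k) (c : k) (Y : Mt n k)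
    (h : x.val = c • Y) : c ≠ 0 := by
  rintro rfl
  have h1 : x.val * x⁻¹.val = 1 := Units.mul_inv x
  rw [h, zero_smul, Matrix.zero_mul] at h1
  have h2 := congrFun (congrFun h1 i) i
  rw [one_apply_eq, Matrix.zero_apply] at h2
  exact zero_ne_one h2

lemma unit_ZgAd {a : A} (ha : a ∈ mx A) (X : Mt n A) :
    ∃ g : GL (Fin n) A, g.val = 1 + a • X := by
  obtain ⟨k, hk⟩ := mem_nilradical.1 ha
  have h1 : IsNilpotent (a • X) := ⟨k, by rw [smul_pow, hk, zero_smul]⟩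
  exact h1.isUnit_one_add

end

section
variable {p : ℕ} [Fact p.Prime] {A : Type} [CommRing A] (R : Rd p A) {n : ℕ}

lemma res_ZgAd {ι : Type} [Fintype ι] [DecidableEq ι] (γ : GL ι A) (x : GL ι (ZMod p)) :
    Res γ.val x.val ↔ rs R γ = x := by
  have e : ∀ i j, IsNilpotent (γ.val i j - ((x.val i j).val : A)) ↔
      (rs R γ).val i j = x.val i j := fun i j => by
    rw [← mem_nilradical, ← R.ker, map_sub, map_natCast, ZMod.natCast_zmod_val, sub_eq_zero]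
    rfl
  constructor
  · intro h
    refine Units.ext ?_
    ext i j
    exact (e i j).1 (h i j)
  · rintro rfl i j
    exact (e i j).2 rfl

lemma lift_ZgAd (hu : ∀ x, IsUnit x ↔ R.rd x ≠ 0) (y₀ : GL (Fin n) A) (x : GL (Fin n) (ZMod p))
    (h : rs R (AdM y₀) = AdM x) : ∃ y, AdM y = AdM y₀ ∧ rs R y = x := by
  rcases Nat.eq_zero_or_pos n with rfl | hn
  · refine ⟨y₀, rfl, Units.ext ?_⟩
    ext i
    exact i.elim0
  have h1 : AdM (x * (rs R y₀)⁻¹) = 1 := by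
    rw [map_mul, map_inv, ← h, mul_inv_eq_one]
    exact nat_ZcAd R.rd y₀
  obtain ⟨c, hc⟩ := (one_ZcAd _).1 h1
  have h2 : x.val = c • (rs R y₀).val := by
    have h3 := congrArg (· * (rs R y₀).val) hc
    simp only [Units.val_mul, Matrix.mul_assoc, Units.inv_mul, Matrix.mul_one, Matrix.smul_mul,
      Matrix.one_mul] at h3
    exact h3
  have h4 : c ≠ 0 := ne_ZgAd ⟨0, hn⟩ x c _ h2
  have h5 : R.rd (c.val : A) = c := by rw [map_natCast, ZMod.natCast_zmod_val]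
  obtain ⟨u, hu'⟩ := (hu (c.val : A)).2 (by rwa [h5])
  obtain ⟨z, hz, hz'⟩ := smul_ZgAd u y₀
  refine ⟨z, hz', Units.ext ?_⟩
  ext i j
  rw [h2, rs, GeneralLinearGroup.map_apply, hz, Matrix.smul_apply, smul_eq_mul, map_mul, hu', h5]
  rfl

lemma liftJ_ZgAd (hu : ∀ x, IsUnit x ↔ R.rd x ≠ 0) {J : Ideal A} (hJ : J ≤ mx A)
    (y₀ : GL (Fin n) A) (h : Cg J (AdM y₀)) : ∃ y, AdM y = AdM y₀ ∧ Cg J y := by
  rcases Nat.eq_zero_or_pos n with rfl | hn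
  · exact ⟨y₀, rfl, fun i => i.elim0⟩
  rw [cg_ZgAd, nat_ZcAd] at h
  obtain ⟨c', hc⟩ := (one_ZcAd _).1 h
  obtain ⟨c, rfl⟩ := Ideal.Quotient.mk_surjective c'
  have h2 : ∀ a b, y₀.val a b - c * (1 : Mt n A) a b ∈ J := fun a b => by
    rw [← Ideal.Quotient.eq, map_mul, one_ZgAd]
    exact congrFun (congrFun hc a) b
  have h3 : (rs R y₀).val = R.rd c • (1 : Mt n (ZMod p)) := by
    ext a b
    have h4 := (R.ker _).2 (hJ (h2 a b))
    rw [map_sub, map_mul, one_ZgAd, sub_eq_zero] at h4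
    exact h4
  obtain ⟨u, hu'⟩ := (hu c).2 (ne_ZgAd ⟨0, hn⟩ _ _ _ h3)
  obtain ⟨z, hz, hz'⟩ := smul_ZgAd u⁻¹ y₀
  refine ⟨z, hz', fun a b => ?_⟩
  have h5 : (z.val - 1) a b = u⁻¹.val * (y₀.val a b - c * (1 : Mt n A) a b) := by
    rw [Matrix.sub_apply, hz, Matrix.smul_apply, smul_eq_mul, mul_sub, ← hu', ← mul_assoc,
      Units.inv_mul, one_mul]
  rw [h5]
  exact J.mul_mem_left _ (h2 a b)

lemma ltm_ZgAd {J : Ideal A} (y : GL (Fin n) A) (l : A → ZMod p) (hl : Fn R J l) (h : Cg J y)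
    (h' : Cg J y⁻¹) (h1 : rs R y⁻¹ = 1) (h2 : ltm l y⁻¹ = - ltm l y) :
    ltm l (AdM y) = Zv.adM (ltm l y) := by
  ext ⟨s, j⟩ ⟨t, k⟩
  have e1 : ((AdM y).val - 1) (s, j) (t, k) =
      y⁻¹.val k j * (y.val - 1) s t + (1 : Mt n A) s t * (y⁻¹.val - 1) k j := by
    have e : (1 : Matrix (I2 n) (I2 n) A) (s, j) (t, k) =
        (1 : Mt n A) s t * (1 : Mt n A) k j := by
      simp only [one_apply, Prod.mk.injEq]
      by_cases a1 : s = t <;> by_cases a2 : j = k <;> simp [a1, a2, eq_comm]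
    rw [Matrix.sub_apply, Matrix.sub_apply, Matrix.sub_apply, ent_ZdTri, e]
    ring
  have e2 : R.rd (y⁻¹.val k j) = (1 : Mt n (ZMod p)) j k := by
    have e : R.rd (y⁻¹.val k j) = (1 : Mt n (ZMod p)) k j :=
      congrArg (fun z : GL (Fin n) (ZMod p) => z.val k j) h1
    rw [e]
    simp only [one_apply, eq_comm]
  have e3 : l ((y⁻¹.val - 1) k j) = - l ((y.val - 1) k j) := congrFun (congrFun h2 k) j
  rw [ad_ZdTri]
  change l (((AdM y).val - 1) (s, j) (t, k)) = l ((y.val - 1) s t) * _ - _ * l ((y.val - 1) k j)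
  rw [e1, hl.add _ (J.mul_mem_left _ (h s t)) _ (J.mul_mem_left _ (h' k j)), hl.mul _ _ (h s t),
    hl.mul _ _ (h' k j), e2, e3, one_ZgAd]
  ring

end

theorem adA_stmt (p : ℕ) [Fact p.Prime] (H : Kn p) : AdAStmt p := by
  refine ⟨fun A _ n J => part1_ZgAd J, fun A _ _ R => ⟨fun ι _ _ γ x => res_ZgAd R γ x, fun n => ?_⟩⟩
  have hu := (H.rg A R).2.1
  obtain ⟨m1, m2, m3, -, m5, -⟩ := H.mat A R (Fin n)
  have m5' := (H.mat A R (I2 n)).2.2.2.2.1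
  have hl : ∀ J ≤ mx A, ∀ (y : GL (Fin n) A) l, Cg J y → Fn R J l →
      ltm l (AdM y) = Zv.adM (ltm l y) := fun J hJ y l h hl => by
    have h' : Cg J y⁻¹ := (m2 J y y y h h).2.1
    exact ltm_ZgAd R y l hl h h' ((m1 _).1.2 fun i j => hJ (h' i j)) (m3 J hJ l hl y y y h h).2.1
  have hJ : ∀ J ≤ mx A, ∀ γ ∈ Ga A n, Cg J γ → ∃ y, AdM y = γ ∧ Cg J y := by
    rintro J hJ _ ⟨y₀, rfl⟩ h
    exact liftJ_ZgAd R hu hJ y₀ h
  have hP : ∀ a ∈ mx A, ∀ Z : Mt n (ZMod p), ∃ y : GL (Fin n) A, Pm (Ideal.span {a}) a y Z ∧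
      Pm (Ideal.span {a}) a (AdM y) (Zv.adM Z) ∧
      (Z.BlockTriangular id → y.val.BlockTriangular id) := by
    intro a ha Z
    obtain ⟨y, hy⟩ := unit_ZgAd ha (Z.map fun z => (z.val : A))
    have h1 : Pm (Ideal.span {a}) a y Z := by
      refine ⟨Ideal.mem_span_singleton_self a, fun i j => ?_⟩
      rw [hy, add_sub_cancel_left, Matrix.smul_apply, smul_eq_mul, map_apply, sub_self]
      exact Ideal.zero_mem _
    obtain ⟨h2, h3, h4⟩ := (m5 _ _ _ _).1 h1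
    refine ⟨y, h1, (m5' _ _ _ _).2 ⟨h2, cgAd_ZgAd _ _ h3, fun l hl' => ?_⟩, fun hZ s t hts => ?_⟩
    · rw [hl _ ((Ideal.span_singleton_le_iff_mem _).2 ha) y l h3 hl', h4 l hl', map_smul]
    · rw [hy, Matrix.add_apply, Matrix.smul_apply, map_apply, hZ hts,
        one_apply_ne (show s ≠ t from ne_of_gt hts), ZMod.val_zero, Nat.cast_zero,
        smul_zero, add_zero]
  refine ⟨fun y => nat_ZcAd R.rd y, ?_, fun J h => ⟨hJ J h, hl J h⟩, hP, fun hp hn => ⟨?_, ?_, ?_⟩⟩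
  · rintro _ ⟨y₀, rfl⟩ x h
    exact lift_ZgAd R hu y₀ x h
  · rintro a ha _ ⟨Z, rfl⟩
    obtain ⟨y, -, h, -⟩ := hP a ha Z
    exact ⟨AdM y, ⟨y, rfl⟩, h⟩
  · intro J h l hl' γ hγ hc
    obtain ⟨y, rfl, hy⟩ := hJ J h γ hγ hc
    rw [hl J h y l hy hl']
    exact ⟨_, rfl⟩
  · exact ((H.ad.2 n hp hn).2.2 0).perf

end Pool.Agent.MP_f68ac8_nt.Ze

end

section

/-! The kernel of the linearised equations embeds in a Selmer group. -/

namespace Pool.Agent.MP_f68ac8_nt.Ze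

open Ev Pv Sv Zv

lemma down_ZgKd {p : ℕ} [Fact p.Prime] (hg : RgStmt p) (hd : RdExStmt p) {A : Type} [CommRing A]
    [Finite A] (R : Rd p A) {l : A → ZMod p} (hl : Fn R (mx A) l) :
    ∃ (R₂ : Rd p (A ⧸ mx A ^ 2)) (l₂ : A ⧸ mx A ^ 2 → ZMod p), Fn R₂ (mx _) l₂ ∧
      ∀ x ∈ mx A, l₂ (Ideal.Quotient.mk _ x) = l x := by
  obtain ⟨-, -, -, -, -, -, g7, -, -, -, g11⟩ := hg A R
  obtain ⟨-, k2, k3, -⟩ := g7 _ l hl
  have hle : mx A ^ 2 ≤ mx A := Ideal.pow_le_self two_ne_zero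
  have h1 : mx A ^ 2 ≠ ⊤ := fun h => by
    have h2 : (1 : A) ∈ mx A := hle (h ▸ Submodule.mem_top)
    have h3 := (R.ker 1).2 h2
    rw [map_one] at h3
    exact one_ne_zero h3
  have : Nontrivial (A ⧸ mx A ^ 2) := Ideal.Quotient.nontrivial_iff.2 h1
  have hf : Function.Surjective (Ideal.Quotient.mk (mx A ^ 2)) := Ideal.Quotient.mk_surjective
  obtain ⟨⟨R₂⟩, hm⟩ := (hd.2 A R).2 _ _ hf
  have h4 : ∀ x ∈ mx A, l (Function.surjInv hf (Ideal.Quotient.mk _ x)) = l x := by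
    intro x hx
    have h5 : Function.surjInv hf (Ideal.Quotient.mk _ x) - x ∈ mx A ^ 2 :=
      Ideal.Quotient.eq.1 (Function.surjInv_eq hf _)
    have h6 : Function.surjInv hf (Ideal.Quotient.mk _ x) ∈ mx A := by
      simpa using (mx A).add_mem (hle h5) hx
    rw [← sub_eq_zero, ← k2 _ h6 _ hx]
    exact k3 _ (by rwa [← sq])
  have h7 : ∀ y ∈ mx (A ⧸ mx A ^ 2), ∃ x ∈ mx A, Ideal.Quotient.mk _ x = y := by
    intro y hy
    rw [← hm] at hy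
    exact (Ideal.mem_map_iff_of_surjective _ hf).1 hy
  refine ⟨R₂, fun y => l (Function.surjInv hf y), ⟨fun y hy y' hy' => ?_, fun a y hy => ?_⟩, h4⟩
  · obtain ⟨x, hx, rfl⟩ := h7 y hy
    obtain ⟨x', hx', rfl⟩ := h7 y' hy'
    rw [← map_add, h4 _ hx, h4 _ hx', h4 _ ((mx A).add_mem hx hx'), hl.add _ hx _ hx']
  · obtain ⟨x, hx, rfl⟩ := h7 y hy
    obtain ⟨b, rfl⟩ := hf a
    rw [← map_mul, h4 _ hx, h4 _ ((mx A).mul_mem_left b hx), hl.mul _ _ hx, (g11 _ R₂ _).1]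

lemma ltm_ZgKd {p n : ℕ} {A A' : Type} [CommRing A] [CommRing A'] (f : A →+* A')
    {l : A → ZMod p} {l' : A' → ZMod p} (h : ∀ x ∈ mx A, l' (f x) = l x) {γ : GL (I2 n) A}
    (hγ : Cg (mx A) γ) : ltm l' (mp f γ) = ltm l γ := by
  ext i j
  have h1 : ((mp f γ).val - 1) i j = f ((γ.val - 1) i j) := by
    simp [Matrix.one_apply, apply_ite f]
  change l' (((mp f γ).val - 1) i j) = l ((γ.val - 1) i j)
  rw [h1, h _ (hγ i j)]

lemma qt_ZgKd {p : ℕ} [Fact p.Prime] {A : Type} [CommRing A] (R : Rd p A) {ι : Type} [Fintype ι]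
    [DecidableEq ι] {Γ : Subgroup (GL ι A)} {B : Type} {d : ℕ} {bb : B → GL ι (ZMod p)}
    {W W' : B ⊕ Fin d → Γ} (h : InT R bb W) (h' : InT R bb W') (y : B ⊕ Fin d) :
    rs R (qt W' W y) = 1 := by
  have h1 : rs R (W' y).1 = rs R (W y).1 := by
    rcases y with b | i
    · rw [h.1, h'.1]
    · rw [h.2, h'.2]
  unfold rs at h1 ⊢
  rw [qt, map_mul, map_inv, h1, mul_inv_cancel]

theorem kdA_stmt (p : ℕ) [Fact p.Prime] (H : Kn p) (hB : BasePStmt p) (hL : LinkAStmt p) (hS : SelDStmt p) (hT : ToSelStmt p) (hR : RigAStmt p) : KdAStmt p := by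
  intro K F _ _ n r m o cc hP B _ β Z hF A _ _ R d U x t N E S ht hAm hSm T hs q c hV hc W l D hW hl
  have : Finite (A ⧸ mx A ^ 2) := Finite.of_surjective _ Ideal.Quotient.mk_surjective
  obtain ⟨R₂, l₂, hl₂, hf⟩ := down_ZgKd H.rg H.rdEx R hl
  obtain ⟨m1, -, m3, -⟩ := H.mat A R (I2 n)
  obtain ⟨-, b2, -⟩ := hB K F n r m o cc hP
  obtain ⟨hb, N', cf, hy⟩ := hs.hy
  obtain ⟨X, hX⟩ := hs.ht t ht
  obtain ⟨s1, -, -, s4, -⟩ := H.bas K F _ _ hb N' cf hy X t hX d c (D.map Fin.valEmbedding) hV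
  have hN : Nice p F (lvq K x q) := ⟨Set.finite_range _, by
    rintro _ ⟨j, rfl⟩
    exact ⟨_, (hAm.co _).1, rfl⟩⟩
  have key : ∀ δ ∈ Kd R S q (bbo r o β) l D W, ∃ y,
      SelA F (MuP F r o cc T) d c (D.map Fin.valEmbedding) y (l₂ p) ∧
      ∃ (W' : (B ⊕ Fin m) ⊕ Fin d → Ga A n) (θ : GK K →* GL (I2 n) (A ⧸ mx A ^ 2))
        (a : Fin m → GL (I2 n) (A ⧸ mx A ^ 2)), InT R (bbo r o β) W' ∧
        (δ = fun x => ltm l (qt W' W x)) ∧ Dw r o θ a ∧ Nm r o β Z θ a ∧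
        Tup β x q (fun l => mp (Ideal.Quotient.mk _) (W' l).1) θ a ∧
        ∀ g ∈ GF K F, ltm l₂ (θ g) = Zv.adM (T.s (y g.1)) := by
    rintro δ ⟨W', hW', rfl⟩
    obtain ⟨θ, a, h1, h2, h3⟩ := hL K F n r m o cc hP B β Z hF A R d U x t N E S ht hAm hSm q D W'
      hW' _ R₂ (Ideal.Quotient.mk _) fun y hy => Ideal.Quotient.eq_zero_iff_mem.2 hy
    obtain ⟨z, z1, z2⟩ := hS K F n r m o cc hP _ R₂ _ _ θ a h1 hN l₂ hl₂
    refine ⟨fun g => T.e (z g), hT K F n r m o cc hP T hs t d c ht hV _ _ z _ _ z1 ?_ ?_,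
      W', θ, a, hW'.1, rfl, h1.toDw, h2, h3, fun g hg => ?_⟩
    · rintro _ ⟨j, rfl⟩
      exact ⟨j, j.2, hc j⟩
    · intro j hj hD
      refine ⟨x ⟨⟨j, hj⟩, q ⟨j, hj⟩⟩, ⟨⟨j, hj⟩, fun h => hD ?_, rfl⟩, (hAm.co _).1,
        ((b2 _ (ht _)).2 _ (hAm.co _).2).2, (hc ⟨j, hj⟩).symm⟩
      exact Finset.mem_map_of_mem Fin.valEmbedding h
    · rw [z2 g hg, hs.sl.se _ (z1.bas.tr g.1 hg)]
  choose! Y hY using key
  have h1 : (Kd R S q (bbo r o β) l D W).ncard ≤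
      {y | SelA F (MuP F r o cc T) d c (D.map Fin.valEmbedding) y (l₂ p)}.ncard := by
    refine Set.ncard_le_ncard_of_injOn Y (fun δ h => (hY δ h).1) (fun δ₀ h₀ δ₁ h₁ e => ?_) (s1 _)
    obtain ⟨-, W₀, θ₀, a₀, i₀, e₀, d₀, n₀, t₀, v₀⟩ := hY δ₀ h₀
    obtain ⟨-, W₁, θ₁, a₁, i₁, e₁, d₁, n₁, t₁, v₁⟩ := hY δ₁ h₁
    obtain ⟨r1, r2⟩ := hR K F n r m o cc hP B β Z hF _ R₂ θ₀ a₀ θ₁ a₁ d₀ d₁ n₀ n₁ l₂ hl₂
      fun g hg => by rw [v₀ g hg, v₁ g hg, e]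
    rw [e₀, e₁]
    funext y
    have c1 : Cg (mx A) (qt W₁ W₀ y) := (m1 _).1.1 (qt_ZgKd R i₀ i₁ y)
    have c2 : Cg (mx A) (qt W₀ W y) := (m1 _).1.1 (qt_ZgKd R hW i₀ y)
    have c3 : ltm l (qt W₁ W₀ y) = 0 := by
      rw [← ltm_ZgKd _ hf c1, qt, map_mul, map_inv]
      rcases y with (b | i) | j
      · rw [show mp _ (W₁ _).1 = _ from t₁.gen b, show mp _ (W₀ _).1 = _ from t₀.gen b]
        exact r1 _
      · rw [show mp _ (W₁ _).1 = _ from t₁.flag i, show mp _ (W₀ _).1 = _ from t₀.flag i]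
        exact r2 _
      · rw [show mp _ (W₁ _).1 = _ from t₁.aux j, show mp _ (W₀ _).1 = _ from t₀.aux j]
        exact r1 _
    have c4 : qt W₁ W y = qt W₁ W₀ y * qt W₀ W y := by
      simp only [qt, mul_assoc, inv_mul_cancel_left]
    rw [c4, (m3 _ le_rfl l hl _ _ 1 c1 c2).1, c3, zero_add]
  refine h1.trans ?_
  rcases Set.eq_empty_or_nonempty
    {y | SelA F (MuP F r o cc T) d c (D.map Fin.valEmbedding) y (l₂ p)} with h | ⟨y₀, h₀⟩
  · rw [h, Set.ncard_empty]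
    exact Nat.zero_le _
  · refine Set.ncard_le_ncard_of_injOn (fun y => (-1 : ZMod p) • y₀ + y) (fun y h => ?_)
      (fun _ _ _ _ e => add_left_cancel e) (s1 0)
    have h2 := s4 (-1) _ _ _ _ h₀ h
    rwa [neg_one_mul, neg_add_cancel] at h2

end Pool.Agent.MP_f68ac8_nt.Ze

end
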