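import Pool.Agent.Mg.Fe23604m.G9b4e87
import Pool.Agent.Mg.Fe23604m.Ga53936
import Pool.Agent.Mg.Fe23604m.Gcb31cd

set_option linter.all false

section

namespace Pool.Agent.MP_e23604_nt.TN
open NumberField Finset Filter
open MP_f68ac8_nt MP_f68ac8_nt.Nd
open T (P0 rh lm9)
open scoped Topology BigOperators

open Classical in
theorem poisT (hT : TupN) (hP : PtT) (hL : LevT) : PoisT := by
  intro M _ Λ W S s C₀ ε C ξ K B T hΛ hW hs hms hS hK hKC hε hC hξ hE A hA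
  obtain ⟨hT1, hT2, hT3⟩ := hT Λ hΛ
  have hM0 : 0 ≤ ∑ m, TN.ms Λ W m := sum_nonneg fun m _ => (hms m).le
  obtain ⟨H, hH⟩ : ∃ H : ℕ → ℕ → ℝ, H = fun d n =>
      ∑ q : Fin d → Λ with (Function.Injective q ∧ np q = n),
        ∑ μ : Fin d → M with T d μ, ∏ j, W (μ j) (q j) := ⟨_, rfl⟩
  obtain ⟨V, hV⟩ : ∃ V : ℕ → ℝ, V = fun l => ∑ m with l ∈ S m, ((l : ℝ) ^ (-s) - W m l) :=
    ⟨_, rfl⟩
  have hV0 : ∀ l, 0 ≤ V l := fun l => by
    rw [hV]
    refine sum_nonneg fun m hm => ?_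
    rw [sub_nonneg, ← hs l (hS m (mem_filter.1 hm).2)]
    exact single_le_sum (f := fun m => W m l) (fun m _ => hW m l) (mem_univ m)
  have hVs : ∑ l ∈ Λ, V l = ∑ m, ∑ l ∈ S m, ((l : ℝ) ^ (-s) - W m l) := by
    rw [hV]
    refine sum_comm' fun l m => ?_
    simp only [mem_filter, mem_univ, true_and, and_true]
    exact ⟨fun h => h.2, fun h => ⟨hS m h, h⟩⟩
  obtain ⟨Tt, hTt⟩ : ∃ Tt : ℕ → ℝ, Tt = fun n =>
      ∑ l ∈ n.primeFactors, V l * ((n / l : ℕ) : ℝ) ^ (-s) := ⟨_, rfl⟩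
  have hpt : ∀ n ∈ A, (n : ℝ) ^ (-s) ≤
      H n.primeFactors.card n / n.primeFactors.card.factorial + Tt n := by
    intro n hn
    obtain ⟨h1, h2, -, h4⟩ := hA n hn
    have hf : (0 : ℝ) < n.primeFactors.card.factorial := by exact_mod_cast Nat.factorial_pos _
    rw [← sub_le_iff_le_add, le_div_iff₀ hf, ← hT2 n h1 h2, mul_comm, ← nsmul_eq_mul, ← sum_const,
      hH]
    refine sum_le_sum fun q hq => ?_
    obtain ⟨hq1, hq2⟩ := (mem_filter.mp hq).2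
    have := hP M Λ W S s _ (T _) q hΛ hW hs hq1 fun μ hμ => h4 _ q μ hq1 hq2 hμ
    rw [hq2] at this
    rw [sub_le_iff_le_add, hTt, hV]
    exact this
  have hb1 : ∑ n ∈ A, Tt n * K n ≤ C₀ * ∑ m, ∑ l ∈ S m, ((l : ℝ) ^ (-s) - W m l) := by
    have h := markov_NePois Λ hΛ s C₀ K hKC V hV0 A fun n hn => (hA n hn).2.1
    rw [← hVs]
    refine le_trans (le_of_eq (sum_congr rfl fun n _ => ?_)) h
    rw [hTt, sum_mul]
  have hb2 : ∑ n ∈ A, H n.primeFactors.card n / n.primeFactors.card.factorial * K n ≤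
      ε * C₀ + C * ξ * Real.exp (C * ∑ m, TN.ms Λ W m) := by
    obtain ⟨D, hD⟩ : ∃ D, D = A.sup (fun n => n.primeFactors.card) + 1 := ⟨_, rfl⟩
    have hmap : ∀ n ∈ A, n.primeFactors.card ∈ range D := fun n hn =>
      mem_range.mpr (hD ▸ Nat.lt_succ_of_le (le_sup (f := fun n => n.primeFactors.card) hn))
    rw [← sum_fiberwise_of_maps_to hmap]
    have h3 := hT3 (fun n => (n : ℝ) ^ (-s) * K n) C₀ D
      (fun n => mul_nonneg (Real.rpow_nonneg (Nat.cast_nonneg _) _) (hK n))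
      (fun A' => by simpa only [one_mul] using hKC 1 one_ne_zero A')
    have h4 := Real.sum_le_exp_of_nonneg (mul_nonneg hC hM0) D
    refine le_trans ?_ (add_le_add (mul_le_mul_of_nonneg_left h3 hε)
      (mul_le_mul_of_nonneg_left h4 (mul_nonneg hC hξ)))
    rw [mul_sum, mul_sum, ← sum_add_distrib]
    refine sum_le_sum fun d _ => ?_
    have hf : (0 : ℝ) < d.factorial := by exact_mod_cast Nat.factorial_pos _
    have h5 := hL M Λ W s ε C ξ d K B (T d) hW hs hms hK hε hC hξ (hE d)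
      (A.filter fun n => n.primeFactors.card = d)
      (fun n hn => (hA n (mem_filter.mp hn).1).2.2.1)
    have e : ∑ n ∈ A.filter (fun n => n.primeFactors.card = d),
        H n.primeFactors.card n / n.primeFactors.card.factorial * K n =
        (∑ n ∈ A.filter (fun n => n.primeFactors.card = d), H d n * K n) / d.factorial := by
      rw [sum_div]
      refine sum_congr rfl fun n hn => ?_
      rw [(mem_filter.mp hn).2]
      ring
    rw [e, ← mul_div_assoc, ← mul_div_assoc, ← add_div, hH]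
    exact div_le_div_of_nonneg_right h5 hf.le
  have hb : ∑ n ∈ A, (n : ℝ) ^ (-s) * K n ≤
      ∑ n ∈ A, H n.primeFactors.card n / n.primeFactors.card.factorial * K n +
        ∑ n ∈ A, Tt n * K n := by
    rw [← sum_add_distrib]
    refine sum_le_sum fun n hn => ?_
    rw [← add_mul]
    exact mul_le_mul_of_nonneg_right (hpt n hn) (hK n)
  linarith

end Pool.Agent.MP_e23604_nt.TN

end

section

namespace Pool.Agent.MP_e23604_nt.TN

open NumberField Finset Filter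
open MP_f68ac8_nt MP_f68ac8_nt.Nd
open T (P0 rh lm9)
open scoped Topology BigOperators

theorem prT (hO : OneStmt) (hP : PsumStmt) : PrT := by
  obtain ⟨c, C, hc, hC, h⟩ := hO 1
  have hd : dE ℚ = 1 := Module.finrank_self ℚ
  set M : ℝ := max 1 (Real.log (Bd ℚ)) with hM
  have hM1 : 1 ≤ M := le_max_left _ _
  obtain ⟨z, hz, -, -, h4⟩ := h ℚ hd.le M hM1 (le_max_right _ _)
  refine ⟨c, C * M ^ 2, hc, by positivity, fun σ h1 h2 => ?_⟩
  have e : Nd.P1 ℚ σ = Pd (fun _ => 1) σ := by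
    unfold Nd.P1 Pd
    refine tsum_congr fun l => ?_
    by_cases hl : l.Prime
    · rw [(hP.2.2 ℚ).2.1 l hl hd]
      simp
    · simp [pw, hl]
  have h5 := (Complex.re_le_norm _).trans (h4 σ h1 h2)
  rw [e] at h5
  have hs : 0 < σ - 1 := by linarith
  have h6 : 0 ≤ (((σ : ℂ) - 1) / (σ - z)).re := by
    have e1 : ((σ : ℂ) - 1) / (σ - z) = ((σ - 1 : ℝ) : ℂ) * (1 / (σ - z)) := by
      push_cast
      ring
    rw [e1, Complex.re_ofReal_mul, re_inv_NaFree]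
    refine mul_nonneg hs.le (div_nonneg ?_ (by positivity))
    rw [Complex.sub_re, Complex.ofReal_re]
    linarith
  have e2 : (((σ : ℂ) - 1) * Pd (fun _ => 1) σ).re = (σ - 1) * (Pd (fun _ => 1) σ).re := by
    have : ((σ : ℂ) - 1) = ((σ - 1 : ℝ) : ℂ) := by push_cast; ring
    rw [this, Complex.re_ofReal_mul]
  rw [Complex.add_re, Complex.sub_re, e2, Complex.one_re] at h5
  have h7 : (σ - 1) * (Pd (fun _ => 1) σ).re ≤ (σ - 1) * (1 / (σ - 1) + C * M ^ 2) := by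
    rw [mul_add, mul_one_div_cancel hs.ne']
    nlinarith
  exact le_of_mul_le_mul_left h7 hs

end Pool.Agent.MP_e23604_nt.TN

end

section

namespace Pool.Agent.MP_e23604_nt.TN

open NumberField Finset Filter
open MP_f68ac8_nt MP_f68ac8_nt.Nd
open T (P0 rh lm9)
open scoped Topology BigOperators

theorem xSeg_D {p : ℕ} (h : MertP p) : ∃ C : ℝ, 0 ≤ C ∧ ∀ U V : ℝ, 1 ≤ U → U ≤ V →
    |∑ l ∈ Ico (⌊Real.exp U⌋₊ + 1) (⌊Real.exp V⌋₊ + 1), fq p l / l -
      (Real.log V - Real.log U)| ≤ C := by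
  obtain ⟨C, hC⟩ := h
  have h2 : ∀ U : ℝ, 1 ≤ U → 2 ≤ Real.exp U := fun U hU => by linarith [Real.add_one_le_exp U]
  refine ⟨2 * |C|, by positivity, fun U V hU hUV => ?_⟩
  have a1 := hC _ (h2 U hU)
  have a2 := hC _ (h2 V (hU.trans hUV))
  rw [Real.log_exp] at a1 a2
  rw [sum_Ico_eq_sub _ (Nat.succ_le_succ (Nat.floor_mono (Real.exp_le_exp.2 hUV)))]
  rw [abs_le] at a1 a2 ⊢
  have := le_abs_self C
  constructor <;> linarith [a1.1, a1.2, a2.1, a2.2]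

theorem xSeg_eq (b : Bool) (U V : ℝ) : ∑ l ∈ seg ∅ b U V, (1 : ℝ) / l =
    ∑ l ∈ Ico (⌊Real.exp U⌋₊ + 1) (⌊Real.exp V⌋₊ + 1),
      if l.Prime ∧ cl l = b then (1 : ℝ) / l else 0 := by
  rw [← sum_filter]
  refine sum_congr ?_ fun _ _ => rfl
  ext l
  rw [mem_seg, mem_filter, mem_Ico, Nat.succ_le_iff, Nat.lt_succ_iff,
    Nat.floor_lt (Real.exp_pos U).le, Nat.le_floor_iff (Real.exp_pos V).le]
  constructor
  · rintro ⟨h1, h2, h3, h4, -⟩
    have h0 : (0 : ℝ) < l := Nat.cast_pos.2 h1.pos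
    exact ⟨⟨(Real.lt_log_iff_exp_lt h0).1 h3, (Real.log_le_iff_le_exp h0).1 h4⟩, h1, h2⟩
  · rintro ⟨⟨h3, h4⟩, h1, h2⟩
    have h0 : (0 : ℝ) < l := Nat.cast_pos.2 h1.pos
    exact ⟨h1, h2, (Real.lt_log_iff_exp_lt h0).2 h3, (Real.log_le_iff_le_exp h0).2 h4,
      notMem_empty l⟩

theorem xSeg_true (l : ℕ) : (if l.Prime ∧ cl l = true then (1 : ℝ) / l else 0) =
    fq 3 l / l / 2 - if l = 3 then 1 / 3 else 0 := by
  unfold fq Pq cl Nat.ModEq
  by_cases h3 : l = 3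
  · subst h3
    simp [Nat.prime_three]
    norm_num
  · by_cases h1 : l.Prime ∧ l % 3 = 1
    · simp [h1.1, h1.2, h3]
      ring
    · rw [if_neg (by simpa using h1), if_neg (by simpa [h3] using h1), if_neg h3]
      simp

theorem xSeg_false (l : ℕ) : (if l.Prime ∧ cl l = false then (1 : ℝ) / l else 0) =
    fq 2 l / l - if l.Prime ∧ cl l = true then (1 : ℝ) / l else 0 := by
  by_cases h : l.Prime
  · have h2 : fq 2 l = 1 := by
      unfold fq
      rw [if_pos ⟨h, h.eq_two_or_odd.symm⟩]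
      norm_num
    rw [h2]
    cases cl l <;> simp [h]
  · simp [fq, Pq, h]

theorem xSeg_E (E : Finset ℕ) (b : Bool) (U V : ℝ) :
    |∑ l ∈ seg E b U V, (1 : ℝ) / l - ∑ l ∈ seg ∅ b U V, (1 : ℝ) / l| ≤ E.card := by
  have hs : seg E b U V ⊆ seg ∅ b U V := fun l hl => by
    rw [mem_seg] at hl ⊢
    exact ⟨hl.1, hl.2.1, hl.2.2.1, hl.2.2.2.1, notMem_empty l⟩
  have h1 : seg ∅ b U V \ seg E b U V ⊆ E := fun l hl => by
    rw [Finset.mem_sdiff, mem_seg, mem_seg] at hl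
    by_contra h
    exact hl.2 ⟨hl.1.1, hl.1.2.1, hl.1.2.2.1, hl.1.2.2.2.1, h⟩
  have h2 : ∑ l ∈ seg ∅ b U V \ seg E b U V, (1 : ℝ) / l ≤ E.card := by
    refine (sum_le_card_nsmul _ _ 1 fun l _ => ?_).trans ?_
    · rw [one_div]
      exact Nat.cast_inv_le_one l
    · rw [nsmul_eq_mul, mul_one]
      exact Nat.cast_le.2 (card_le_card h1)
  have h3 : 0 ≤ ∑ l ∈ seg ∅ b U V \ seg E b U V, (1 : ℝ) / l :=
    sum_nonneg fun l _ => by positivity
  rw [← sum_sdiff hs, abs_le]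
  constructor <;> linarith

theorem segT (h3 : MertP 3) (h2 : MertP 2) : SegT := by
  obtain ⟨C3, a0, a1⟩ := xSeg_D h3
  obtain ⟨C2, b0, b1⟩ := xSeg_D h2
  refine ⟨C2 + C3 + 1, by positivity, fun E b U V hU hUV => ?_⟩
  have c1 := abs_le.1 (xSeg_E E b U V)
  have c2 := abs_le.1 (a1 U V hU hUV)
  have c3 := abs_le.1 (b1 U V hU hUV)
  have c4 : ∑ l ∈ seg ∅ true U V, (1 : ℝ) / l =
      (∑ l ∈ Ico (⌊Real.exp U⌋₊ + 1) (⌊Real.exp V⌋₊ + 1), fq 3 l / l) / 2 -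
        if 3 ∈ Ico (⌊Real.exp U⌋₊ + 1) (⌊Real.exp V⌋₊ + 1) then 1 / 3 else 0 := by
    rw [xSeg_eq, sum_congr rfl fun l _ => xSeg_true l, sum_sub_distrib, sum_ite_eq', sum_div]
  have c5 : ∑ l ∈ seg ∅ false U V, (1 : ℝ) / l =
      ∑ l ∈ Ico (⌊Real.exp U⌋₊ + 1) (⌊Real.exp V⌋₊ + 1), fq 2 l / l -
        ∑ l ∈ seg ∅ true U V, (1 : ℝ) / l := by
    rw [xSeg_eq, xSeg_eq, sum_congr rfl fun l _ => xSeg_false l, sum_sub_distrib]
  rw [abs_le]
  cases b <;> split_ifs at c4 <;> constructor <;>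
    linarith [c1.1, c1.2, c2.1, c2.2, c3.1, c3.2]

end Pool.Agent.MP_e23604_nt.TN

end
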