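import Pool.Agent.Mg.Fe23604m.G9b4e87
import Pool.Agent.Mg.Fe23604m.G03d5b4
import Pool.Agent.Mg.Fe23604m.Ga53936

set_option linter.all false

section

/-! Cubic characters of prime modulus. -/

namespace Pool.Agent.MP_e23604_nt.TN

open NumberField Finset Filter
open MP_f68ac8_nt MP_f68ac8_nt.Nd
open T (P0 rh lm9)
open scoped Topology BigOperators

theorem xChr_cm {m : ℕ} {g : ℕ → ZMod 3}
    (h : ∀ a b : ℕ, a.Coprime m → b.Coprime m → g (a * b) = g a + g b) (u : ZMod 3) :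
    g 1 = 0 ∧ TN.Cm fun n => if n.Coprime m then (ZMod.stdAddChar (u * g n) : ℂ) else 0 := by
  have h1 : g 1 = 0 := by
    have := h 1 1 (Nat.coprime_one_left m) (Nat.coprime_one_left m)
    rw [mul_one] at this
    exact left_eq_add.1 this
  refine ⟨h1, ?_, fun a b => ?_, fun n => ?_⟩
  · rw [if_pos (Nat.coprime_one_left m), h1, mul_zero, AddChar.map_zero_eq_one]
  · by_cases ha : a.Coprime m
    · by_cases hb : b.Coprime m
      · rw [if_pos (Nat.coprime_mul_iff_left.2 ⟨ha, hb⟩), if_pos ha, if_pos hb, h a b ha hb,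
          mul_add, AddChar.map_add_eq_mul]
      · rw [if_neg fun c => hb (Nat.coprime_mul_iff_left.1 c).2, if_neg hb, mul_zero]
    · rw [if_neg fun c => ha (Nat.coprime_mul_iff_left.1 c).1, if_neg ha, zero_mul]
  · split_ifs
    · exact (AddChar.norm_apply _ _).le
    · rw [norm_zero]
      exact zero_le_one

theorem xChr_conj {χ χ' : ℕ → ℂ} (h : TN.Cm χ) (h' : TN.Cm χ') :
    TN.Cm fun n => χ n * (starRingEnd ℂ) (χ' n) := by
  refine ⟨?_, fun a b => ?_, fun n => ?_⟩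
  · rw [h.one, h'.one, map_one, mul_one]
  · rw [h.mul, h'.mul, map_mul]
    ring
  · rw [norm_mul, Complex.norm_conj]
    exact mul_le_one₀ (h.le n) (norm_nonneg _) (h'.le n)

theorem xChr_mod {m a b : ℕ} {g : ℕ → ZMod 3} (h : ∀ a b : ℕ, a ≡ b [MOD m] → g a = g b)
    (u : ZMod 3) (e : a ≡ b [MOD m]) :
    (if a.Coprime m then (ZMod.stdAddChar (u * g a) : ℂ) else 0) =
      if b.Coprime m then (ZMod.stdAddChar (u * g b) : ℂ) else 0 := by
  rw [h a b e]
  exact if_congr (by rw [Nat.Coprime, Nat.Coprime, e.gcd_eq]) rfl rfl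

theorem chrT (hL : LogT) (hP : PerT) : ChrT := by
  intro u hu
  obtain ⟨f, hf⟩ := hL
  refine ⟨fun m n => if n.Coprime m then (ZMod.stdAddChar (u * f m n) : ℂ) else 0,
    fun B hB => ?_, fun m l hm hl hne => ?_⟩
  · refine ⟨fun m hm => (xChr_cm (hf m (hB m hm)).1 u).2, fun m hm m' hm' hne => ?_⟩
    obtain ⟨h1, h2, ⟨a, ha, ha1⟩, -⟩ := hf m (hB m hm)
    obtain ⟨h1', h2', -⟩ := hf m' (hB m' hm')
    have hc : m.Coprime m' := (Nat.coprime_primes (hB m hm).1 (hB m' hm').1).2 hne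
    obtain ⟨n₀, e, e'⟩ := Nat.chineseRemainder hc a 1
    have key := hP _ (m * m') n₀ (xChr_conj (xChr_cm h1 u).2 (xChr_cm h1' u).2)
      (Nat.mul_pos (hB m hm).1.pos (hB m' hm').1.pos) (fun n => by
        rw [xChr_mod h2 u (a := n + m * m') (b := n) (Nat.add_mul_mod_self_left n m m'),
          xChr_mod h2' u (a := n + m * m') (b := n) (Nat.add_mul_mod_self_right n m m')])
      (Nat.coprime_mul_iff_right.2 ⟨e.gcd_eq.trans ha, e'.gcd_eq.trans (Nat.gcd_one_left m')⟩) (by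
        rw [xChr_mod h2 u e, xChr_mod h2' u e', if_pos ha, if_pos (Nat.coprime_one_left m'), ha1,
          (xChr_cm h1' u).1, mul_one, mul_zero, AddChar.map_zero_eq_one, map_one, mul_one]
        exact fun c => hu (ZMod.injective_stdAddChar (c.trans (AddChar.map_zero_eq_one _).symm)))
    rwa [Nat.cast_mul] at key
  · show (if l.Coprime m then (ZMod.stdAddChar (u * f m l) : ℂ) else 0) = _
    rw [if_pos ((Nat.coprime_primes hl hm.1).2 hne), (hf m hm).2.2.2 l hl hne]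

end Pool.Agent.MP_e23604_nt.TN

end

section

namespace Pool.Agent.MP_e23604_nt.TN

open NumberField Finset Filter
open MP_f68ac8_nt MP_f68ac8_nt.Nd
open T (P0 rh lm9)
open scoped Topology BigOperators

theorem xOk_cl {l : ℕ} {b : Bool} (h : cl l = b) : l % 3 = 1 ↔ b = true := by
  rw [← h, cl, decide_eq_true_iff]

theorem xOk_sum {Λ S : Finset ℕ} {W V : ℕ → ℝ} (hS : S ⊆ Λ) (h1 : ∀ l, W l ≠ 0 → l ∈ S)
    (h2 : ∀ l ∈ S, W l = V l) (f g : ℕ → ℂ) :
    ∑ l ∈ Λ, (W l : ℂ) * f l * g l = ∑ l ∈ S, (V l : ℂ) * f l * g l := by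
  rw [← sum_subset hS fun l _ hl => by
    rw [not_not.1 fun h => hl (h1 l h), Complex.ofReal_zero, zero_mul, zero_mul]]
  exact sum_congr rfl fun l hl => by rw [h2 l hl]

theorem xOk_ev {a : ℝ} (a0 : 0 < a) : ∀ᶠ T : ℝ in atTop, Real.log T ^ 3 ≤ T ^ a := by
  filter_upwards [(isLittleO_log_rpow_rpow_atTop 3 a0).bound one_pos, eventually_ge_atTop 1]
    with T h t1
  rw [one_mul, Real.norm_of_nonneg (Real.rpow_nonneg (Real.log_nonneg t1) _),
    Real.norm_of_nonneg (Real.rpow_nonneg (by linarith) _)] at h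
  exact_mod_cast h

theorem okT (hE : EqT) (hD : DiT) (hK : KmT) (hB : BilT) (hW : WgT) (hA : OneA) (hO : OneB) :
    OkT := by
  obtain ⟨c₁, c1, hE⟩ := hE
  obtain ⟨c₂, c2, hD⟩ := hD
  obtain ⟨rB, CB, eB, hrB, -, hB⟩ := hB
  refine ⟨min c₁ c₂, lt_min c1 c2, fun J n r p₁ a A hJ a0 ha => ?_⟩
  have J0 : (0 : ℝ) < J := by exact_mod_cast hJ
  have ha' : 12 * J * a ≤ 1 := by nlinarith [mul_pos J0 a0]
  obtain ⟨k, hk⟩ := exists_nat_ge ((|A| + 3) / a)
  have hk' : |A| + 3 ≤ (k + 1) * a := by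
    rw [div_le_iff₀ a0] at hk
    linarith
  have hl : Tendsto (fun X : ℕ => Real.log X) atTop atTop :=
    Real.tendsto_log_atTop.comp tendsto_natCast_atTop_atTop
  have hL : Tendsto LL atTop atTop := Real.tendsto_log_atTop.comp hl
  refine ⟨k, ?_⟩
  filter_upwards [hE J n p₁ k a A hJ a0 ha' hk', hD J (J + 1) k a A hJ a0 ha' hk',
    hW J k (J + 1) a hJ a0 ha', hA J k (J + 1) a hJ a0 ha', hO J k (J + 1) a hJ a0 ha',
    hl.eventually (num_NjPar (A := A) (CB := CB) eB one_pos hrB), hl.eventually_ge_atTop 1,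
    hL.eventually_ge_atTop 1, hL.eventually_ge_atTop r, hL.eventually_ge_atTop n,
    hl.eventually (xOk_ev a0)] with X
    ⟨P, p1, p2, hE⟩ hD hW hA hO ⟨y1, _, y3, y4, y5⟩ t1 l1 l2 l3 l4
  have hc : (insert 3 P).card ≤ J + 1 := (card_insert_le _ _).trans (Nat.succ_le_succ p1)
  obtain ⟨w1, -, w3, w4⟩ := hW _ hc
  have t0 : 0 < Real.log X := by linarith
  have s1 : 1 < sX X := lt_add_of_pos_right _ (by positivity)
  have hΛ : ∀ l ∈ Lam X (insert 3 P), P0 l ∧ l ∉ P := fun l hl =>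
    ⟨⟨(mem_filter.1 hl).2.1, fun h => (mem_filter.1 hl).2.2 (h ▸ mem_insert_self _ _)⟩,
      fun h => (mem_filter.1 hl).2.2 (mem_insert_of_mem h)⟩
  have one : ∀ m : Mk J, 1 ≤ ms (Lam X (insert 3 P)) (WW X J k a (insert 3 P)) m := fun m =>
    (lt_or_ge m.1.val 2).elim (hA _ hc m) (hO _ hc ha m)
  have big : ∀ (m : Mk J) l, m.1.val ≠ 0 → WW X J k a (insert 3 P) m l ≠ 0 →
      Real.exp (LL X ^ 3) < l := fun m l h1 h2 => by
    obtain ⟨b1, -, b2, -⟩ := w3 m l h2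
    exact (Real.lt_log_iff_exp_lt (Nat.cast_pos.2 (hΛ l b1).1.1.pos)).1 (not_le.1 fun h => h1 (b2.2 h))
  have L3 : LL X ≤ LL X ^ 3 := le_self_pow₀ l1 three_ne_zero
  have tp0 : ∀ x, 0 ≤ tp X x := fun x => Real.rpow_nonneg t0.le x
  have su : ∀ m : Mk J, 2 ≤ m.1.val →
      sup X J a (insert 3 P) m = bnd X J a (insert 3 P) (m.1.val - 2) m.2 := fun m h => if_pos h
  have red : ∀ m : Mk J, 2 ≤ m.1.val → ∀ f g : ℕ → ℂ,
      ∑ l ∈ Lam X (insert 3 P), (WW X J k a (insert 3 P) m l : ℂ) * f l * g l =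
      ∑ l ∈ bnd X J a (insert 3 P) (m.1.val - 2) m.2,
        (dw X J k a (m.1.val - 2) l : ℂ) * f l * g l := fun m h f g => by
    rw [← su m h]
    exact xOk_sum (w4 m).2.1 (fun l hl => (w3 m l hl).2.2.2 h) (w4 m).2.2 f g
  have ti : ∀ l, T.Par.Ti ⟨J, Lam X (insert 3 P), WW X J k a (insert 3 P)⟩ l →
      Real.log l ≤ LL X ^ 3 := fun l ⟨_, b, h⟩ => (w3 _ l h).2.2.1.1 rfl
  have bt : ∀ m : Mk J, 2 ≤ m.1.val → ∀ l ∈ bnd X J a (insert 3 P) (m.1.val - 2) m.2,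
      l ∈ Lam X (insert 3 P) := fun m h l hl => (w4 m).2.1 (su m h ▸ hl)
  have jl : ∀ m : Mk J, 2 ≤ m.1.val → m.1.val - 2 < J := fun m h => by
    have := m.1.2
    omega
  refine ⟨P, p1, p2, fun l hl => (hΛ l hl).1, fun m l => (w1 m l).1,
    fun m => one_pos.trans_le (one m), fun m _ => one m, fun m l hm => ?_,
    fun m l _ h => xOk_cl (w3 m l h).2.1, fun m l _ h1 h2 => ?_,
    fun m m' x y u v hm hm' hb hu hx hy => ?_, fun m hm hb τ hτ R x y hR hr hx => ?_,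
    fun m hm hb τ hτ R x y hR hr hx => ?_, fun m hm R N hR hr h1 h2 h3 σ hσ e φ h4 h5 => ?_⟩
  · by_cases h : WW X J k a (insert 3 P) m l = 0
    · exact h.trans_le (tp0 _)
    · have b1 := big m l hm h
      exact (w1 m l).2.trans ((one_NeMup (Nat.cast_pos.1 ((Real.exp_pos _).trans b1)) s1.le).trans
        ((one_div_le_one_div_of_le (Real.exp_pos _) b1.le).trans y5))
  · have b1 := big m l h1 h2
    have b2 := Real.add_one_le_exp (LL X ^ 3)
    exact_mod_cast (show (n : ℝ) < l by linarith)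
  · have nz : ∀ {z : ℂ} {w : ℝ}, ‖z‖ ≤ w → z ≠ 0 → w ≠ 0 := fun h1 h2 h3 =>
      h2 (norm_le_zero_iff.1 (h3 ▸ h1))
    refine (hB (sX X) (Real.exp (LL X ^ 3)) _ x y m.2 u v s1 (add_le_add_right y1 _) y4 hu
      fun l hl => ⟨(hΛ l hl).1.1, (hx l hl).trans (w1 m l).2, (hy l hl).trans (w1 m' l).2,
        fun h => ⟨(big m l hm (nz (hx l hl) h)).le, (w3 m l (nz (hx l hl) h)).2.1⟩,
        fun h => ⟨(big m' l hm' (nz (hy l hl) h)).le,
          (w3 m' l (nz (hy l hl) h)).2.1.trans hb⟩⟩).trans ?_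
    rw [Real.log_exp]
    exact y3
  · refine le_of_eq_of_le (congrArg norm (red m hm _ _)) ?_
    rw [hb]
    exact hD _ _ R x y τ hc (jl m hm) (fun l hl => ⟨⟨(hΛ l (hR l hl).1.1).1.1, (hR l hl).2⟩,
      ti l (hR l hl).1⟩) hr hx (hτ.trans (min_le_right _ _))
  · refine le_of_eq_of_le (congrArg norm (red m hm _ _)) (hK _ R _ x y τ _
      (fun l hl => (hΛ l (hR l hl).1).1) (fun l hl => ⟨⟨(mem_seg.1 hl).1,
        (xOk_cl (mem_seg.1 hl).2.1).2 hb⟩, fun h => ?_⟩) hx fun N hN σ hσ e φ hφ =>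
      hE _ m.2 R N τ σ e φ (jl m hm) (fun l hl => ⟨(hΛ l (hR l hl).1).2,
        (ti l (hR l hl)).trans (le_add_of_nonneg_right (tp0 _))⟩) hr
        (Or.inr ⟨hN, hτ.trans (min_le_left _ _)⟩) hσ hφ)
    refine absurd ((mem_seg.1 hl).2.2.1.trans_le ((ti l (hR l h)).trans (l4.trans ?_))) (lt_irrefl _)
    exact Real.rpow_le_rpow_of_exponent_le t1 (le_add_of_nonneg_left (by positivity))
  · have h6 := hE (m.1.val - 2) m.2 R N 0 σ e φ (jl m hm) (fun l hl => ⟨(hΛ l (hR l hl).1).2, ?_⟩)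
      (le_trans (by exact_mod_cast hr) (l2.trans (le_self_pow₀ l1 two_ne_zero)))
      (Or.inl ⟨⟨h1, h2, h3⟩, rfl⟩) (fun l hl => hσ l (bt m hm l hl)) ⟨h4, h5⟩
    · rw [← red m hm] at h6
      refine le_of_eq_of_le (congrArg norm (sum_congr rfl fun l _ => ?_)) h6
      simp [tw]
    · obtain ⟨-, m', b1, b2, b3⟩ := hR l hl
      have b4 := (w3 m' l b3).2.2.2 b1
      rw [su m' b1] at b4
      refine ((mem_seg.1 b4).2.2.2.1.trans ?_).trans (le_add_of_nonneg_left (by positivity))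
      refine Real.rpow_le_rpow_of_exponent_le t1 (div_le_div_of_nonneg_right ?_ J0.le)
      exact_mod_cast (show m'.1.val - 2 + 1 ≤ m.1.val - 2 by omega)

end Pool.Agent.MP_e23604_nt.TN

end

section

/-! The second moment of the number of prime factors. -/

namespace Pool.Agent.MP_e23604_nt.TN

open NumberField Finset Filter
open MP_f68ac8_nt MP_f68ac8_nt.Nd
open T (P0 rh lm9)
open scoped Topology BigOperators

theorem tkT : TkT := by
  intro X A t hA t0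
  obtain ⟨L, hL⟩ : ∃ L : ℝ, L = ∑ l ∈ A, (1 : ℝ) / l := ⟨_, rfl⟩
  obtain ⟨ω, hω⟩ : ∃ ω : ℕ → ℝ, ∀ n, ω n = ∑ l ∈ A, (if l ∣ n then 1 else 0 : ℝ) :=
    ⟨_, fun _ => rfl⟩
  have L0 : 0 ≤ L := hL ▸ sum_nonneg fun l _ => by positivity
  have c1 : (A.card : ℝ) ≤ X := by
    have : A ⊆ Icc 1 X := fun l hl => mem_Icc.2 ⟨(hA l hl).1.pos, (hA l hl).2⟩
    have := card_le_card this
    rw [Nat.card_Icc, Nat.add_sub_cancel] at this
    exact_mod_cast this
  have s1 : X * L - A.card ≤ ∑ n ∈ Icc 1 X, ω n := by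
    simp only [hω]
    rw [sum_comm, hL, mul_sum, ← nsmul_one A.card, ← sum_const, ← sum_sub_distrib]
    exact sum_le_sum fun l _ => (cnt_NeWnd X l).1
  have s2 : ∑ n ∈ Icc 1 X, ω n ^ 2 ≤ X * L ^ 2 + X * L := by
    simp only [hω, sq, sum_mul_sum]
    rw [sum_comm, hL, sum_mul_sum, mul_sum, mul_sum, ← sum_add_distrib]
    refine sum_le_sum fun l hl => ?_
    have e : (X : ℝ) * (1 / l) = ∑ l' ∈ A, if l = l' then (X : ℝ) * (1 / l) else 0 := by
      rw [sum_ite_eq, if_pos hl]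
    rw [sum_comm, mul_sum, e, ← sum_add_distrib]
    refine sum_le_sum fun l' hl' => ?_
    split_ifs with b
    · subst b
      refine le_add_of_nonneg_of_le (by positivity)
        (le_trans (sum_le_sum fun n _ => ?_) (cnt_NeWnd X l).2)
      split_ifs <;> norm_num
    · rw [add_zero, one_div_mul_one_div, ← Nat.cast_mul]
      refine le_trans (sum_le_sum fun n _ => ?_) (cnt_NeWnd X (l * l')).2
      by_cases b1 : l ∣ n ∧ l' ∣ n
      · rw [if_pos b1.1, if_pos b1.2, if_pos (Nat.Coprime.mul_dvd_of_dvd_of_dvd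
          ((Nat.coprime_primes (hA l hl).1 (hA l' hl').1).2 b) b1.1 b1.2), one_mul]
      · rw [ite_zero_mul_ite_zero, if_neg b1]
        split_ifs <;> norm_num
  have s3 : ∑ n ∈ Icc 1 X, (ω n - L) ^ 2 ≤ 3 * X * L := by
    simp only [sub_sq]
    rw [sum_add_distrib, sum_sub_distrib, ← sum_mul, ← mul_sum, sum_const, Nat.card_Icc,
      Nat.add_sub_cancel, nsmul_eq_mul]
    nlinarith
  rw [← hL]
  have s4 := card_nsmul_le_sum ((Icc 1 X).filter fun n =>
    t ≤ |((n.primeFactors ∩ A).card : ℝ) - L|) (fun n => (ω n - L) ^ 2) (t ^ 2)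
    fun n hn => by
      obtain ⟨h0, h1⟩ := mem_filter.1 hn
      have e : n.primeFactors ∩ A = A.filter fun l => l ∣ n := by
        ext l
        rw [mem_inter, mem_filter, Nat.mem_primeFactors]
        exact ⟨fun h => ⟨h.2, h.1.2.1⟩, fun h => ⟨⟨(hA l h.1).1, h.2,
          Nat.one_le_iff_ne_zero.1 (mem_Icc.1 h0).1⟩, h.1⟩⟩
      rw [e, ← sum_boole, ← hω] at h1
      rw [← sq_abs (ω n - L)]
      exact pow_le_pow_left₀ t0.le h1 2
  have s5 := s4.trans ((sum_le_sum_of_subset_of_nonneg (filter_subset _ _)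
    fun n _ _ => sq_nonneg _).trans s3)
  rw [nsmul_eq_mul] at s5
  rwa [le_div_iff₀ (by positivity)]

end Pool.Agent.MP_e23604_nt.TN

end
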