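import Pool.Agent.Mg.Fe23604m.G9b4e87
import Pool.Agent.Mg.Fe23604m.Ga53936
import Pool.Agent.Mg.Fe23604m.G937cae

set_option linter.all false

section

namespace Pool.Agent.MP_e23604_nt.TN

open NumberField Finset Filter
open MP_f68ac8_nt MP_f68ac8_nt.Nd
open T (P0 rh lm9)
open scoped Topology BigOperators

theorem xLs_abel {χ : ℕ → ℂ} {f : ℕ → ℝ} {Q : ℝ} {M : ℕ} (h : ∀ N, ‖∑ m ∈ Ico M N, χ m‖ ≤ Q)
    (hf : ∀ N, M ≤ N → f (N + 1) ≤ f N) {N : ℕ} (hN : M ≤ N) :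
    ‖∑ m ∈ Ico M N, (f m : ℂ) * χ m - (f N : ℂ) * ∑ m ∈ Ico M N, χ m‖ ≤ Q * (f M - f N) := by
  induction N, hN using Nat.le_induction with
  | base => simp
  | succ N hN ih =>
    have e : ∑ m ∈ Ico M (N + 1), (f m : ℂ) * χ m - (f (N + 1) : ℂ) * ∑ m ∈ Ico M (N + 1), χ m =
        ∑ m ∈ Ico M N, (f m : ℂ) * χ m - (f N : ℂ) * ∑ m ∈ Ico M N, χ m +
          ((f N - f (N + 1) : ℝ) : ℂ) * ∑ m ∈ Ico M (N + 1), χ m := by
      rw [sum_Ico_succ_top hN, sum_Ico_succ_top hN]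
      push_cast
      ring
    have h1 := sub_nonneg.2 (hf N hN)
    rw [e]
    refine (norm_add_le _ _).trans ?_
    rw [norm_mul, Complex.norm_real, Real.norm_eq_abs, abs_of_nonneg h1]
    linarith [mul_le_mul_of_nonneg_left (h (N + 1)) h1]

theorem xLs_chs {χ : ℕ → ℂ} {Q s : ℝ} (h : Bs χ Q) {M : ℕ} (N : ℕ) (hM : 1 ≤ M) (hs : 0 ≤ s) :
    ‖∑ m ∈ Ico M N, (((m : ℝ) ^ (-s) : ℝ) : ℂ) * χ m‖ ≤ Q * (M : ℝ) ^ (-s) := by
  have f0 : ∀ m : ℕ, 0 ≤ (m : ℝ) ^ (-s) := fun m => by positivity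
  have hQ : 0 ≤ Q := (norm_nonneg _).trans (h 0 0)
  rcases le_or_gt M N with e | e
  · have h1 := xLs_abel (f := fun m => (m : ℝ) ^ (-s)) (h M) (fun K hK =>
      Real.rpow_le_rpow_of_nonpos (Nat.cast_pos.2 (by omega)) (by simp) (neg_nonpos.2 hs)) e
    have h2 := (norm_sub_norm_le _ _).trans h1
    rw [norm_mul, Complex.norm_real, Real.norm_eq_abs, abs_of_nonneg (f0 N)] at h2
    have h3 := mul_le_mul_of_nonneg_left (h M N) (f0 N)
    linarith
  · rw [Ico_eq_empty_of_le e.le, sum_empty, norm_zero]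
    exact mul_nonneg hQ (f0 M)

theorem lsT : LsT := by
  intro s L B γ β M₂ h1 h2 hL hC hB
  set H := 2 / (s - 1) with hH
  set I := Ico ⌈L ^ 5⌉₊ M₂
  have hL0 : 0 < L := by linarith
  have hH0 : 0 ≤ H := div_nonneg (by norm_num) (by linarith)
  let K : ℕ → ℕ → ℂ := fun l l' =>
    ∑ m ∈ I, (((m : ℝ) ^ (-s) : ℝ) : ℂ) * (γ l m * (starRingEnd ℂ) (γ l' m))
  have e : ((∑ m ∈ I, (m : ℝ) ^ (-s) * ‖∑ l ∈ B, β l * γ l m‖ ^ 2 : ℝ) : ℂ) =
      ∑ l ∈ B, ∑ l' ∈ B, β l * (starRingEnd ℂ) (β l') * K l l' := by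
    simp only [K, Complex.ofReal_sum, Complex.ofReal_mul, Complex.ofReal_pow, ← Complex.mul_conj',
      map_sum, map_mul, sum_mul_sum]
    simp only [mul_sum]
    rw [sum_comm]
    refine sum_congr rfl fun l _ => ?_
    rw [sum_comm]
    refine sum_congr rfl fun l' _ => sum_congr rfl fun m _ => ?_
    ring
  have hM : (⌈L ^ 5⌉₊ : ℝ) ^ (-s) ≤ (L ^ 5)⁻¹ := by
    have a1 : L ^ 5 ≤ (⌈L ^ 5⌉₊ : ℝ) := Nat.le_ceil _
    have a2 : 1 ≤ L ^ 5 := one_le_pow₀ (by linarith)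
    calc (⌈L ^ 5⌉₊ : ℝ) ^ (-s) ≤ (⌈L ^ 5⌉₊ : ℝ) ^ (-1 : ℝ) :=
          Real.rpow_le_rpow_of_exponent_le (a2.trans a1) (by linarith)
      _ = (⌈L ^ 5⌉₊ : ℝ)⁻¹ := Real.rpow_neg_one _
      _ ≤ (L ^ 5)⁻¹ := inv_anti₀ (by positivity) a1
  have hK : ∀ l ∈ B, ∀ l' ∈ B, ‖K l l'‖ ≤ 2 / L + if l = l' then H else 0 := by
    intro l hl l' hl'
    split_ifs with h
    · have : ‖K l l'‖ ≤ H := by
        refine (norm_sum_le _ _).trans (le_trans (sum_le_sum fun m _ => ?_)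
          (zeta_NeBil1 h1 h2 I))
        rw [norm_mul, Complex.norm_real, Real.norm_eq_abs, abs_of_nonneg (by positivity)]
        refine mul_le_of_le_one_right (by positivity) ?_
        rw [norm_mul, Complex.norm_conj]
        exact mul_le_one₀ ((hC.cm l hl).le m) (norm_nonneg _) ((hC.cm l' hl').le m)
      have : 0 ≤ 2 / L := by positivity
      linarith
    · obtain ⟨-, u1, -⟩ := hB l hl
      obtain ⟨-, u2, -⟩ := hB l' hl'
      have a := xLs_chs (s := s) (hC.orth l hl l' hl' h) (M := ⌈L ^ 5⌉₊) M₂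
        (Nat.one_le_ceil_iff.mpr (by positivity)) (by linarith)
      rw [add_zero]
      refine a.trans ?_
      have b : (l : ℝ) * l' ≤ L ^ 2 * L ^ 2 :=
        mul_le_mul u1.le u2.le (Nat.cast_nonneg _) (by positivity)
      calc ((l : ℝ) * l') * (⌈L ^ 5⌉₊ : ℝ) ^ (-s) ≤ (L ^ 2 * L ^ 2) * (L ^ 5)⁻¹ := by
            gcongr
        _ = 1 / L := by field_simp
        _ ≤ 2 / L := by gcongr; norm_num
  have hβ : ∑ l ∈ B, ‖β l‖ ≤ H :=
    (sum_le_sum fun l hl => (hB l hl).2.2).trans (zeta_NeBil1 h1 h2 B)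
  have hβ0 : 0 ≤ ∑ l ∈ B, ‖β l‖ := sum_nonneg fun _ _ => norm_nonneg _
  have hβL : ∀ l ∈ B, ‖β l‖ ≤ 1 / L := by
    intro l hl
    obtain ⟨u, -, v⟩ := hB l hl
    calc ‖β l‖ ≤ (l : ℝ) ^ (-s) := v
      _ ≤ (l : ℝ) ^ (-1 : ℝ) := Real.rpow_le_rpow_of_exponent_le (by linarith) (by linarith)
      _ = (l : ℝ)⁻¹ := Real.rpow_neg_one _
      _ ≤ 1 / L := by rw [one_div]; exact inv_anti₀ hL0 u
  refine (le_abs_self _).trans ?_
  rw [← Real.norm_eq_abs, ← Complex.norm_real, e]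
  calc ‖∑ l ∈ B, ∑ l' ∈ B, β l * (starRingEnd ℂ) (β l') * K l l'‖
      ≤ ∑ l ∈ B, ∑ l' ∈ B, ‖β l‖ * ‖β l'‖ * (2 / L + if l = l' then H else 0) := by
        refine (norm_sum_le _ _).trans (sum_le_sum fun l hl => (norm_sum_le _ _).trans
          (sum_le_sum fun l' hl' => ?_))
        rw [norm_mul, norm_mul, Complex.norm_conj]
        exact mul_le_mul_of_nonneg_left (hK l hl l' hl') (by positivity)
    _ = (∑ l ∈ B, ‖β l‖) * (∑ l ∈ B, ‖β l‖) * (2 / L) + ∑ l ∈ B, ‖β l‖ * ‖β l‖ * H := by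
        rw [sum_mul_sum, sum_mul, ← sum_add_distrib]
        refine sum_congr rfl fun l hl => ?_
        simp only [mul_add, sum_add_distrib, mul_ite, mul_zero, sum_ite_eq, if_pos hl, sum_mul]
    _ ≤ H * H * (2 / L) + ∑ l ∈ B, ‖β l‖ * (1 / L * H) := by
        refine add_le_add (by gcongr) (sum_le_sum fun l hl => ?_)
        rw [mul_assoc]
        exact mul_le_mul_of_nonneg_left (mul_le_mul_of_nonneg_right (hβL l hl) hH0) (norm_nonneg _)
    _ ≤ H * H * (2 / L) + H * (1 / L * H) := by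
        rw [← sum_mul]
        gcongr
    _ = 3 * H ^ 2 / L := by ring

end Pool.Agent.MP_e23604_nt.TN

end

section

namespace Pool.Agent.MP_e23604_nt.TN

open NumberField Finset Filter
open MP_f68ac8_nt MP_f68ac8_nt.Nd
open T (P0 rh lm9)
open scoped Topology BigOperators

theorem xMas_seg {C : ℝ}
    (hC : ∀ (E : Finset ℕ) (b : Bool) (U V : ℝ), 1 ≤ U → U ≤ V →
      |∑ l ∈ seg E b U V, (1 : ℝ) / l - (Real.log V - Real.log U) / 2| ≤ C + E.card)
    {X : ℕ} (hT : 1 ≤ Real.log X) (E : Finset ℕ) (b : Bool) {x y : ℝ} (hx : 0 ≤ x) (hxy : x ≤ y) :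
    |∑ l ∈ seg E b (tp X x) (tp X y), (1 : ℝ) / l - (y - x) * LL X / 2| ≤ C + E.card := by
  have h0 : 0 < Real.log X := by linarith
  have := hC E b (tp X x) (tp X y) (Real.one_le_rpow hT hx)
    (Real.rpow_le_rpow_of_exponent_le hT hxy)
  rw [tp, tp, Real.log_rpow h0, Real.log_rpow h0, ← sub_mul] at this
  exact this

theorem masT (hS : SegT) : MasT := by
  obtain ⟨C, -, hC⟩ := hS
  intro J k r a hJ ha hJa
  filter_upwards [eventually_ge_atTop 1,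
    (Real.tendsto_log_atTop.comp tendsto_natCast_atTop_atTop).eventually_ge_atTop 1,
    LL_tendsto_NeMlo.eventually_ge_atTop ((C + r) / (3 * a)),
    LL_tendsto_NeMlo.eventually_ge_atTop 0] with X hX hT hL hL0
  intro E hE
  have hT : 1 ≤ Real.log X := hT
  have hJ0 : (0 : ℝ) < J := Nat.cast_pos.2 hJ
  have hE' : (E.card : ℝ) ≤ r := Nat.cast_le.2 hE
  rw [div_le_iff₀ (by positivity)] at hL
  obtain ⟨u, hu⟩ : ∃ u : ℝ, u = 1 / J := ⟨_, rfl⟩
  have hu1 : J * u = 1 := by rw [hu, mul_one_div_cancel hJ0.ne']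
  have hu2 : 12 * a ≤ u := by
    rw [hu, le_div_iff₀ hJ0]
    linarith
  have hj : ∀ j : ℕ, ((j : ℝ) + 1) / J = j / J + u := fun j => by rw [hu, add_div]
  have hj0 : ∀ j : ℕ, (0 : ℝ) ≤ j / J := fun j => by positivity
  have hCE : C + E.card ≤ 3 * a * LL X := by linarith
  refine ⟨fun m l hl => ?_, fun m l hl => ?_, fun m hm => ?_, fun m hm => ?_⟩
  · rw [sup] at hl
    split_ifs at hl with hm
    · obtain ⟨h1, -, -, h2, -⟩ := mem_seg.1 hl
      refine ⟨h1, ?_⟩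
      have h3 : ((m.1.val - 2 : ℕ) + 1 : ℝ) / J ≤ 1 := by
        rw [div_le_one hJ0]
        have := m.1.2
        exact_mod_cast (by omega : m.1.val - 2 + 1 ≤ J)
      have h4 := h2.trans (Real.rpow_le_rpow_of_exponent_le hT h3)
      rw [Real.rpow_one, Real.log_le_log_iff (Nat.cast_pos.2 h1.pos) (Nat.cast_pos.2 hX)] at h4
      exact_mod_cast h4
    · exact absurd hl (notMem_empty _)
  · rw [cor] at hl
    rw [sup]
    split_ifs at hl ⊢ with hm
    · obtain ⟨h1, h2, h3, h4, h5⟩ := mem_seg.1 hl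
      exact mem_seg.2 ⟨h1, h2, lt_of_le_of_lt (Real.rpow_le_rpow_of_exponent_le hT (by linarith)) h3,
        h4.trans (Real.rpow_le_rpow_of_exponent_le hT (by linarith)), h5⟩
    · exact hl
  · rw [cor, if_pos hm, crj]
    generalize m.1.val - 2 = j
    have h1 := (abs_le.1 (xMas_seg hC hT E m.2 (x := j / J + 3 * a) (y := (j + 1) / J - 3 * a)
      (by linarith [hj0 j]) (by rw [hj]; linarith))).1
    rw [show ((j : ℝ) + 1) / J - 3 * a - (j / J + 3 * a) = u - 6 * a by rw [hj]; ring] at h1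
    generalize ∑ l ∈ seg E m.2 _ _, (1 : ℝ) / l = s at h1 ⊢
    have h2 : (u - 12 * a) * LL X / 2 ≤ s := by linarith
    have h3 := mul_le_mul_of_nonneg_left h2 (by positivity : (0 : ℝ) ≤ 2 * J)
    refine le_trans (le_of_eq ?_) h3
    linear_combination -LL X * hu1
  · rw [sup, if_pos hm, bnd]
    generalize m.1.val - 2 = j
    have h1 := (abs_le.1 (xMas_seg hC hT E m.2 (x := j / J + a) (y := (j + 1) / J)
      (by linarith [hj0 j]) (by rw [hj]; linarith))).2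
    rw [show ((j : ℝ) + 1) / J - (j / J + a) = u - a by rw [hj]; ring] at h1
    generalize ∑ l ∈ seg E m.2 _ _, (1 : ℝ) / l = s at h1 ⊢
    have h2 : s ≤ (u + 12 * a) * LL X / 2 := by nlinarith [mul_nonneg ha.le hL0]
    have h3 := mul_le_mul_of_nonneg_left h2 (by positivity : (0 : ℝ) ≤ 2 * J)
    refine le_trans h3 (le_of_eq ?_)
    linear_combination LL X * hu1

end Pool.Agent.MP_e23604_nt.TN

end
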