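import Pool.Agent.Mg.Fe23604m.G1516a5
import Pool.Agent.Mg.Fe23604m.G5c4864
import Pool.Agent.Mg.Fe23604m.G64350e
import Pool.Agent.MP_e23604_nt.BTors
import Pool.Agent.MP_e23604_nt.BValA
import Pool.Agent.MP_e23604_nt.BValC
import Pool.Agent.MP_e23604_nt.BDefs2
import Pool.Agent.Mg.Fe23604m.G4d6502
import Pool.Agent.MP_e23604_nt.BH90

set_option linter.all false

section

/-!
The bound on the p-torsion of Sha.
-/

open WeierstrassCurve AddSubgroup NumberField IsDedekindDomain IntermediateField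
open scoped Classical

namespace Pool.Agent.MP_e23604_nt.B

lemma prime_in {L : Type} [Field L] [NumberField L] (Q : Ideal (𝓞 L)) [hQ : Q.IsMaximal] :
    ∃ q : ℕ, q.Prime ∧ (q : 𝓞 L) ∈ Q := by
  have : Finite (𝓞 L ⧸ Q) := Ideal.finiteQuotientOfFreeOfNeBot Q
    (Ring.ne_bot_of_isMaximal_of_not_isField hQ (RingOfIntegers.not_isField L))
  refine ⟨ringChar (𝓞 L ⧸ Q), CharP.char_is_prime (𝓞 L ⧸ Q) _, ?_⟩
  rw [← Ideal.Quotient.eq_zero_iff_mem, map_natCast]
  exact ringChar.Nat.cast_ringChar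

lemma v_two {v : AbsoluteValue Qb ℝ} (hv : IsNonarchimedean v) {m n : ℕ}
    (h : ¬ v ((m * n : ℕ) : Qb) < 1) : v m = 1 ∧ v n = 1 := by
  have h1 : v m ≤ 1 := by simpa using v_z hv m
  have h2 : v n ≤ 1 := by simpa using v_z hv n
  rw [Nat.cast_mul, map_mul, not_lt] at h
  have := v.nonneg m
  have := v.nonneg n
  constructor <;> nlinarith

variable {W : WeierstrassCurve ℚ} {t N : ℤ} {c p : ℕ} {α ζ : Qb} {a b : ℤ} {T T' : Pts W Qb}
  {σ₀ : GQ}

end Pool.Agent.MP_e23604_nt.B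

end

section

/-!
The chordal distance between x-coordinates at a place of good reduction.
-/

open WeierstrassCurve

namespace Pool.Agent.MP_e23604_nt.B

variable {F : Type} [Field F] [DecidableEq F] [IsAlgClosed F] [CharZero F]
  {W : WeierstrassCurve F} [W.IsElliptic] {v : AbsoluteValue F ℝ}

end Pool.Agent.MP_e23604_nt.B

end

section

/-!
An integral generator of Q(x(P)) whose different is small at p.
-/

open WeierstrassCurve Polynomial
open scoped Classical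

namespace Pool.Agent.MP_e23604_nt.B

end Pool.Agent.MP_e23604_nt.B

end

section

/-!
The different at a wildly ramified prime.
-/

open NumberField Polynomial

namespace Pool.Agent.MP_e23604_nt.B

end Pool.Agent.MP_e23604_nt.B

end

section

/-!
The number field count.
-/

open NumberField Module IsDedekindDomain

namespace Pool.Agent.MP_e23604_nt.B

end Pool.Agent.MP_e23604_nt.B

end

section

/-!
The bound on the p-torsion of Sha for a general curve.
-/

open WeierstrassCurve AddSubgroup NumberField IsDedekindDomain IntermediateField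
open scoped Classical

namespace Pool.Agent.MP_e23604_nt.B

lemma lift_at (L : IntermediateField ℚ Qb) [FiniteDimensional ℚ L] {Q : Ideal (𝓞 L)}
    {v : AbsoluteValue Qb ℝ} (hv : IsNonarchimedean v) {q : ℕ} (hq : q.Prime) (h : v q < 1)
    (hQ : ∀ x : 𝓞 L, x ∈ Q ↔ v ((x : L) : Qb) < 1) (s : L ≃ₐ[ℚ] L)
    (hs : ∀ x : 𝓞 L, s • x - x ∈ Q) : ∃ τ : GQ, Inr v τ ∧ ∀ x : L, τ (x : Qb) = (s x : Qb) :=
  lift_inr L hv hq h s fun x => by
    have e : (((s • x - x : 𝓞 L) : L) : Qb) = (s (x : L) : Qb) - ((x : L) : Qb) := rfl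
    rw [← e]
    exact (hQ _).1 (hs x)

lemma v_not {L : IntermediateField ℚ Qb} {Q : Ideal (𝓞 L)} {v : AbsoluteValue Qb ℝ}
    (hv : IsNonarchimedean v) (hQ : ∀ x : 𝓞 L, x ∈ Q ↔ v ((x : L) : Qb) < 1) {n : ℕ}
    (hn : (n : 𝓞 L) ∉ Q) : v n = 1 :=
  (v_two hv (m := 1) (n := n) fun e => hn ((hQ _).2 (by simpa using e))).2

lemma eq_one_of {H : Subgroup GQ} {s : fixedField H ≃ₐ[ℚ] fixedField H} {τ : GQ}
    (e : ∀ x : fixedField H, τ (x : Qb) = (s x : Qb)) (hτ : τ ∈ H) : s = 1 := by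
  ext x
  rw [← e]
  exact (mem_fixedField_iff _ _).1 x.2 _ hτ

variable {W : WeierstrassCurve ℚ} {c p : ℕ} {ζ : Qb} {T T' : Pts W Qb}

namespace GE

variable (h : GE W p ζ T T')
include h

end GE

end Pool.Agent.MP_e23604_nt.B

end

section

/-!
A cyclic algebra that is unramified everywhere splits.
-/

open NumberField IsDedekindDomain IntermediateField
open scoped Classical

namespace Pool.Agent.MP_e23604_nt.L

open B

/-- an automorphism that stabilises the center preserves the absolute value -/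
lemma inv_Cyc {E : Type} [Field E] [NumberField E] {a : AbsoluteValue E ℝ}
    (ha : IsNonarchimedean a) (w : HeightOneSpectrum (𝓞 E))
    (hw : ∀ x : 𝓞 E, x ∈ w.asIdeal ↔ a x < 1) (s : E ≃ₐ[ℚ] E)
    (hs : ∀ x ∈ w.asIdeal, s • x ∈ w.asIdeal) (y : E) : a (s y) = a y := by
  obtain ⟨N, hN, e⟩ := (isOfFinOrder_of_finite s).exists_pow_eq_one
  obtain ⟨N, rfl⟩ := Nat.exists_eq_succ_of_ne_zero hN.ne'
  have h1 : ∀ m : ℕ, ∀ x ∈ w.asIdeal, (s ^ m) • x ∈ w.asIdeal := by
    intro m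
    induction m with
    | zero => intro x hx; simpa using hx
    | succ m ih => intro x hx; rw [pow_succ, mul_smul]; exact ih _ (hs x hx)
  have h2 : ∀ x : 𝓞 E, x ∈ w.asIdeal ↔ a (s x) < 1 := by
    intro x
    refine Iff.trans ⟨hs x, fun hx => ?_⟩ (hw (s • x))
    have := h1 N _ hx
    rwa [← mul_smul, ← pow_succ, e, one_smul] at this
  have h3 : ∀ u, a u ≤ 1 → a (s u) ≤ 1 := by
    intro u hu
    have hv : w.valuation E u ≤ 1 := by
      by_contra hc
      have hc' := not_le.1 hc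
      have u0 : u ≠ 0 := by
        rintro rfl
        simp at hc
      have h4 : a u⁻¹ ≤ 1 := bvalc_le ha w hw (by
        rw [map_inv₀]
        exact inv_le_one_of_one_le₀ hc'.le)
      rw [map_inv₀, inv_le_one₀ (a.pos u0)] at h4
      exact hc'.ne' (val_one w hw ha (le_antisymm hu h4))
    exact bvalc_le (a := a.comp (f := (s : E →+* E)) (RingHom.injective _)) (fun x y => by
      change a (s (x + y)) ≤ _
      rw [map_add]
      exact ha _ _) w h2 hv
  have key : ∀ u v, v ≠ 0 → a u ≤ a v → a (s u) ≤ a (s v) := by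
    intro u v hv h
    have := h3 (u / v) (by rwa [map_div₀, div_le_one (a.pos hv)])
    rwa [map_div₀, map_div₀, div_le_one (a.pos ((map_ne_zero s).2 hv))] at this
  rcases eq_or_ne y 0 with rfl | y0
  · rw [map_zero]
  have ne : ∀ m : ℕ, (s ^ m) y ≠ 0 := fun m => (map_ne_zero _).2 y0
  have e1 : ∀ m : ℕ, (s ^ (m + 1)) y = s ((s ^ m) y) := fun m => by
    rw [pow_succ', AlgEquiv.mul_apply]
  rcases le_total (a (s y)) (a y) with h | h
  · have hm : Antitone fun m : ℕ => a ((s ^ m) y) := by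
      refine antitone_nat_of_succ_le fun m => ?_
      induction m with
      | zero => simpa using h
      | succ m ih => rw [e1 (m + 1), e1 m] at *; exact key _ _ (ne m) ih
    have := hm (show 1 ≤ N + 1 by omega)
    simp only [show s ^ (N + 1) = 1 from e, pow_one, AlgEquiv.one_apply] at this
    exact le_antisymm h this
  · have hm : Monotone fun m : ℕ => a ((s ^ m) y) := by
      refine monotone_nat_of_le_succ fun m => ?_
      induction m with
      | zero => simpa using h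
      | succ m ih =>
        have := key _ _ (ne (m + 1)) ih
        rwa [← e1, ← e1] at this
    have := hm (show 1 ≤ N + 1 by omega)
    simp only [show s ^ (N + 1) = 1 from e, pow_one, AlgEquiv.one_apply] at this
    exact le_antisymm this h

/-- the norm theorem over the fixed field of an automorphism -/
lemma hnt_Cyc (h : HNT_st) {p : ℕ} [hp : Fact p.Prime] (h2 : p ≠ 2) {E : Type} [Field E]
    [NumberField E] (s : E ≃ₐ[ℚ] E) (hs : orderOf s = p) {z : E} (hz : IsPrimitiveRoot z p)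
    (sz : s z = z)
    (hun : ∀ (w : HeightOneSpectrum (𝓞 E)) (m : ℕ),
      (∀ x : 𝓞 E, (s ^ m) • x - x ∈ w.asIdeal) → s ^ m = 1)
    {β : E} (β0 : β ≠ 0) (sβ : s β = β)
    (hin : ∀ w : HeightOneSpectrum (𝓞 E), (∀ x ∈ w.asIdeal, s • x ∈ w.asIdeal) →
      ∃ x : E, w.valuation E β = w.valuation E x ^ p) :
    ∃ y : E, ∏ i : ZMod p, (s ^ i.val) y = β := by
  have hfix : ∀ x : E, s x = x → x ∈ fixedField (Subgroup.zpowers s) := by
    intro x hx
    rw [mem_fixedField_iff]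
    intro g hg
    exact (Subgroup.zpowers_le (H := MulAction.stabilizer _ x)).2 hx hg
  have hG : IsGalois (fixedField (Subgroup.zpowers s)) E :=
    IsGalois.of_fixed_field E (Subgroup.zpowers s)
  have hz' : IsPrimitiveRoot (⟨z, hfix z sz⟩ : fixedField (Subgroup.zpowers s)) p :=
    IsPrimitiveRoot.of_map_of_injective (f := algebraMap (fixedField (Subgroup.zpowers s)) E) hz
      (RingHom.injective _)
  have hC : IsTotallyComplex (fixedField (Subgroup.zpowers s)) :=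
    nrRealPlaces_eq_zero_iff.1
      (InfinitePlace.IsPrimitiveRoot.nrRealPlaces_eq_zero_of_two_lt
        (lt_of_le_of_ne hp.1.two_le h2.symm) hz')
  let φ := subgroupEquivAlgEquiv (Subgroup.zpowers s)
  have hφ : ∀ (g : Subgroup.zpowers s) (x : E), φ g x = g.1 x := fun _ _ => rfl
  have hfin := isOfFinOrder_of_finite s
  obtain ⟨y, hy⟩ := h p (fixedField (Subgroup.zpowers s)) E (φ ⟨s, Subgroup.mem_zpowers s⟩) hp.1 h2
    (by rw [finrank_fixedField_eq_card, Nat.card_zpowers, hs])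
    (fun g => by
      obtain ⟨⟨g, m, rfl⟩, rfl⟩ := φ.surjective g
      exact ⟨m, (map_zpow φ _ m).symm⟩)
    (fun w g hg => by
      obtain ⟨⟨g, hg'⟩, rfl⟩ := φ.surjective g
      obtain ⟨m, rfl⟩ := hfin.mem_powers_iff_mem_zpowers.2 hg'
      rw [← map_one φ]
      exact congrArg φ (Subtype.ext (hun w m hg)))
    ⟨β, hfix β sβ⟩ (fun e => β0 (congrArg Subtype.val e)) hin
  refine ⟨y, ?_⟩
  have e := Algebra.norm_eq_prod_automorphisms (fixedField (Subgroup.zpowers s)) y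
  rw [hy, ← φ.toEquiv.prod_comp, ← (finEquivZPowers hfin).prod_comp] at e
  refine Eq.trans ?_ e.symm
  have e2 : ∀ n : ℕ, n = p → ∏ i : ZMod p, (s ^ i.val) y = ∏ i : Fin n, (s ^ (i : ℕ)) y := by
    rintro n rfl
    obtain ⟨n, rfl⟩ := Nat.exists_eq_succ_of_ne_zero hp.1.ne_zero
    rfl
  exact e2 _ hs

theorem cyc_st (h : HNT_st) : CYC_st := by
  intro p hp H z k ψ h2 hH hz Hz lk lψ hk hψ ψp ψ1 hloc
  have p0 : p ≠ 0 := hp.1.ne_zero
  have fx : ∀ σ ∈ H, ∀ τ ∈ H, ∀ i, σ (ψ τ i) = ψ τ i := by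
    intro σ hσ τ hτ i
    obtain ⟨m, -, e⟩ := hz.eq_pow_of_pow_eq_one (ψp τ hτ i)
    rw [← e, map_pow, Hz σ hσ]
  have ψ0 : ∀ σ ∈ H, ∀ i, ψ σ i ≠ 0 := fun σ hσ i e => by
    have := ψp σ hσ i
    rw [e, zero_pow p0] at this
    exact zero_ne_one this
  have k1 : k 1 = 0 := by simpa using hk 1 H.one_mem 1 H.one_mem
  have kinv : ∀ σ ∈ H, k σ⁻¹ = -k σ := fun σ hσ => by
    have := hk σ⁻¹ (H.inv_mem hσ) σ hσ
    rw [inv_mul_cancel, k1] at this
    exact eq_neg_of_add_eq_zero_left this.symm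
  have kpow : ∀ σ ∈ H, ∀ m : ℕ, k (σ ^ m) = m * k σ := fun σ hσ m => by
    induction m with
    | zero => simp [k1]
    | succ m ih => rw [pow_succ, hk _ (H.pow_mem hσ m) σ hσ, ih]; push_cast; ring
  let H0 : Subgroup GQ :=
    { carrier := {σ | σ ∈ H ∧ k σ = 0}
      one_mem' := ⟨H.one_mem, k1⟩
      mul_mem' := fun {σ τ} hσ hτ =>
        ⟨H.mul_mem hσ.1 hτ.1, by rw [hk σ hσ.1 τ hτ.1, hσ.2, hτ.2, add_zero]⟩
      inv_mem' := fun {σ} hσ => ⟨H.inv_mem hσ.1, by rw [kinv σ hσ.1, hσ.2, neg_zero]⟩ }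
  have m0 : ∀ σ, σ ∈ H0 ↔ σ ∈ H ∧ k σ = 0 := fun _ => Iff.rfl
  have o0 : IsOpen (H0 : Set GQ) := hH.inter (lk.isOpen_fiber 0)
  have h90 : ∀ i, ∃ δ : Qb, δ ≠ 0 ∧ ∀ σ ∈ H0, σ δ = ψ σ i * δ := fun i =>
    h90n hp.1.pos H0 (fun σ => ψ σ i) (fun σ hσ => ψp σ hσ.1 i)
      (fun σ hσ τ hτ => by rw [hψ σ hσ.1 τ hτ.1, hσ.2, add_zero, fx σ hσ.1 τ hτ.1])
      (o0.inter (lψ {f | f i = 1}))
  have fin : ∀ n : ZMod p → Qb, (∀ σ ∈ H, ∀ i, σ (n (i + k σ)) = ψ σ i * n i) →
      ∀ σ ∈ H, σ (∏ i, n i) = ∏ i, n i := by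
    intro n hn σ hσ
    refine (congrArg σ (Equiv.prod_comp (Equiv.addRight (k σ)) n).symm).trans ?_
    rw [map_prod]
    simp only [Equiv.coe_addRight, hn σ hσ]
    rw [Finset.prod_mul_distrib, ψ1 σ hσ, one_mul]
  suffices hs : ∃ n y : ZMod p → Qb, (∀ i, n i ≠ 0) ∧ ∏ i, y i = ∏ i, n i ∧
      (∀ σ ∈ H, ∀ i, σ (n (i + k σ)) = ψ σ i * n i) ∧ ∀ σ ∈ H, ∀ i, σ (y (i + k σ)) = y i by
    obtain ⟨n, y, n0, e, hn, hy⟩ := hs
    refine ⟨fun i => n i / y i, ?_, fun σ hσ i => ?_⟩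
    · rw [Finset.prod_div_distrib, e, div_self (Finset.prod_ne_zero_iff.2 fun i _ => n0 i)]
    · rw [map_div₀, hn σ hσ, hy σ hσ, mul_div_assoc]
  by_cases hA : ∀ σ ∈ H, k σ = 0
  · choose n n0 hn using h90
    have hn' : ∀ σ ∈ H, ∀ i, σ (n (i + k σ)) = ψ σ i * n i := fun σ hσ i => by
      rw [hA σ hσ, add_zero, hn i σ ⟨hσ, hA σ hσ⟩]
    refine ⟨n, fun i => if i = 0 then ∏ i, n i else 1, n0, by simp, hn', fun σ hσ i => ?_⟩
    simp only [hA σ hσ, add_zero]
    split_ifs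
    · exact fin n hn' σ hσ
    · exact map_one σ
  obtain ⟨g, gH, kg⟩ : ∃ g ∈ H, k g = 1 := by
    simp only [not_forall] at hA
    obtain ⟨σ, hσ, e⟩ := hA
    exact ⟨σ ^ (k σ)⁻¹.val, H.pow_mem hσ _, by
      rw [kpow σ hσ, ZMod.natCast_zmod_val, inv_mul_cancel₀ e]⟩
  have kg' : ∀ m : ℕ, k (g ^ m) = m := fun m => by rw [kpow g gH, kg, mul_one]
  let S : ZMod p → GQ := fun j => g ^ (-j).val
  have SH : ∀ j, S j ∈ H := fun j => H.pow_mem gH _
  have kS : ∀ j, k (S j) = -j := fun j => by rw [kg', ZMod.natCast_zmod_val]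
  have τ0 : ∀ σ ∈ H, ∀ i, (S i)⁻¹ * σ * S (i + k σ) ∈ H0 := fun σ hσ i => by
    have a1 := H.mul_mem (H.inv_mem (SH i)) hσ
    refine ⟨H.mul_mem a1 (SH _), ?_⟩
    rw [hk _ a1 _ (SH _), hk _ (H.inv_mem (SH i)) _ hσ, kinv _ (SH i), kS, kS]
    ring
  have τe : ∀ (σ : GQ) (i : ZMod p) (x : Qb),
      σ (S (i + k σ) x) = S i (((S i)⁻¹ * σ * S (i + k σ)) x) := fun σ i x => by
    rw [← AlgEquiv.mul_apply, ← AlgEquiv.mul_apply, mul_assoc, mul_inv_cancel_left]
  obtain ⟨δ, δ0, hδ⟩ := h90 0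
  let n : ZMod p → Qb := fun j => S j (ψ (S j)⁻¹ 0 * δ)
  have n0 : ∀ j, n j ≠ 0 := fun j =>
    (map_ne_zero _).2 (mul_ne_zero (ψ0 _ (H.inv_mem (SH j)) 0) δ0)
  have hn : ∀ σ ∈ H, ∀ i, σ (n (i + k σ)) = ψ σ i * n i := by
    intro σ hσ i
    have t := τ0 σ hσ i
    have a1 := hψ _ t.1 _ (H.inv_mem (SH (i + k σ))) 0
    have a2 := hψ _ (H.inv_mem (SH i)) σ hσ 0
    rw [mul_inv_cancel_right, t.2, add_zero, a2, kinv _ (SH i), kS, neg_neg, zero_add] at a1
    simp only [n]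
    rw [τe, map_mul ((S i)⁻¹ * σ * S (i + k σ)), fx _ t.1 _ (H.inv_mem (SH _)), hδ _ t,
      ← mul_assoc, mul_comm (ψ (S (i + k σ))⁻¹ 0), ← a1, ← fx _ (SH i) σ hσ i, ← map_mul,
      fx _ (SH i) σ hσ i]
    congr 1
    ring
  have hi : H.index ≠ 0 := by
    have := Subgroup.quotient_finite_of_isOpen H hH
    exact Subgroup.index_ne_zero_of_finite
  obtain ⟨fd, -, hf, s, hs, os⟩ := char_gen (U := H) (H := H0) (fun σ hσ => hσ.1) hi o0
    (fun σ hσ τ hτ => ⟨H.mul_mem (H.mul_mem (H.inv_mem hσ) hτ.1) hσ, by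
      rw [hk _ (H.mul_mem (H.inv_mem hσ) hτ.1) _ hσ, hk _ (H.inv_mem hσ) _ hτ.1, kinv σ hσ, hτ.2]
      ring⟩) gH (n := p)
    (fun m => by rw [m0, kg', ZMod.natCast_eq_zero_iff]; exact and_iff_right (H.pow_mem gH m))
    (fun σ hσ => ⟨(k σ).val, H.mul_mem (H.inv_mem (H.pow_mem gH _)) hσ, by
      rw [hk _ (H.inv_mem (H.pow_mem gH _)) _ hσ, kinv _ (H.pow_mem gH _), kg',
        ZMod.natCast_zmod_val, neg_add_cancel]⟩) p0
  have : NumberField (fixedField H0) := {}
  have hs1 : ∀ x : fixedField H0, (s x : Qb) = g x := fun x => by simpa using hs 1 x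
  have mem : ∀ x : Qb, (∀ σ ∈ H0, σ x = x) → x ∈ fixedField H0 := fun x hx =>
    (mem_fixedField_iff _ _).2 hx
  have hβ := fin n hn
  obtain ⟨y, hy⟩ := hnt_Cyc h h2 s os (z := ⟨z, mem z fun σ hσ => Hz σ hσ.1⟩)
    (IsPrimitiveRoot.of_map_of_injective (f := algebraMap (fixedField H0) Qb) hz
      (RingHom.injective _)) (Subtype.ext ((hs1 _).trans (Hz g gH)))
    (fun w m hm => by
      have := w.isMaximal
      obtain ⟨q, hq, hqQ⟩ := prime_in w.asIdeal
      have := Fact.mk hq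
      obtain ⟨γ, a1⟩ := center _ w.asIdeal q hqQ
      obtain ⟨τ, a2, a3⟩ := lift_at _ (nv_na q γ) hq (nv_lt q γ) a1 (s ^ m) hm
      have t2 : τ ∈ H := by
        have := (hf ((g ^ m)⁻¹ * τ) fun x hx => by
          rw [AlgEquiv.mul_apply, a3 ⟨x, hx⟩, hs, ← AlgEquiv.mul_apply, inv_mul_cancel,
            AlgEquiv.one_apply]).1
        simpa using H.mul_mem (H.pow_mem gH m) this
      obtain ⟨i₀, hi₀⟩ := hloc q γ
      exact eq_one_of a3 ⟨t2, (hi₀ τ t2 a2).1⟩)
    (β := ⟨∏ i, n i, mem _ fun σ hσ => hβ σ hσ.1⟩)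
    (fun e => Finset.prod_ne_zero_iff.2 (fun i _ => n0 i) (congrArg Subtype.val e))
    (Subtype.ext ((hs1 _).trans (hβ g gH)))
    (fun w hw => by
      have := w.isMaximal
      obtain ⟨q, hq, hqQ⟩ := prime_in w.asIdeal
      have := Fact.mk hq
      obtain ⟨γ, a1⟩ := center _ w.asIdeal q hqQ
      obtain ⟨i₀, hi₀⟩ := hloc q γ
      have na : IsNonarchimedean
          ((nv q γ).comp (f := algebraMap (fixedField H0) Qb) (RingHom.injective _)) :=
        fun x y => by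
          change nv q γ (algebraMap _ Qb (x + y)) ≤ _
          rw [map_add]
          exact nv_na q γ _ _
      have b0 : ∀ σ ∈ H, ∀ i, σ (n (i + k σ) ^ p) = n i ^ p := fun σ hσ i => by
        rw [map_pow, hn σ hσ, mul_pow, ψp σ hσ, one_mul]
      have b1 : ∀ i, nv q γ (n (i + 1)) = nv q γ (n i) := fun i => by
        have b2 := inv_Cyc na w a1 s hw ⟨n (i + 1) ^ p, mem _ fun σ hσ => by
          have := b0 σ hσ.1 (i + 1)
          rwa [hσ.2, add_zero] at this⟩
        change nv q γ (s _ : fixedField H0) = nv q γ (n (i + 1) ^ p) at b2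
        have b3 := b0 g gH i
        rw [kg] at b3
        rw [hs1] at b2
        change nv q γ (g (n (i + 1) ^ p)) = _ at b2
        rw [b3, map_pow, map_pow] at b2
        exact ((pow_left_inj₀ ((nv q γ).nonneg _) ((nv q γ).nonneg _) p0).1 b2).symm
      have b4 : ∀ m : ℕ, nv q γ (n (i₀ + m)) = nv q γ (n i₀) := fun m => by
        induction m with
        | zero => simp
        | succ m ih => rw [Nat.cast_succ, ← add_assoc, b1, ih]
      have b5 : ∀ i, nv q γ (n i) = nv q γ (n i₀) := fun i => by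
        rw [← b4 (i - i₀).val, ZMod.natCast_zmod_val, add_sub_cancel]
      obtain ⟨x, hx, e⟩ := ram_a (fixedField H0) (nv_na q γ) hq (nv_lt q γ) (y := n i₀)
        fun τ t1 t2 => by
          have t3 := hf τ t1
          have := hn τ t3.1 i₀
          rwa [t3.2, add_zero, (hi₀ τ t3.1 t2).2, one_mul] at this
      have d0 := (nv q γ).pos (n0 i₀)
      have x0 : (⟨x, hx⟩ : fixedField H0) ≠ 0 := fun e' => by
        rw [show x = 0 from congrArg Subtype.val e', map_zero] at e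
        exact d0.ne e
      have := val_one w a1 na
        (y := ⟨∏ i, n i, mem _ fun σ hσ => hβ σ hσ.1⟩ / ⟨x, hx⟩ ^ p) (by
          change nv q γ (algebraMap (fixedField H0) Qb (_ / ⟨x, hx⟩ ^ p)) = 1
          rw [map_div₀, map_pow, map_div₀, map_pow]
          change nv q γ (∏ i, n i) / nv q γ x ^ p = 1
          rw [map_prod, Finset.prod_congr rfl fun i _ => b5 i, Finset.prod_const, Finset.card_univ,
            ZMod.card, e, div_self (pow_ne_zero _ d0.ne')])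
      refine ⟨⟨x, hx⟩, ?_⟩
      rwa [map_div₀, map_pow, div_eq_one_iff_eq (pow_ne_zero _ ((map_ne_zero _).2 x0))] at this)
  refine ⟨n, fun j => S j y, n0, ?_, hn, fun σ hσ i => ?_⟩
  · have e := congrArg (algebraMap (fixedField H0) Qb) hy
    rw [map_prod, ← Equiv.prod_comp (Equiv.neg (ZMod p))] at e
    exact (Finset.prod_congr rfl fun j _ => (hs _ y).symm).trans e
  · rw [τe, (mem_fixedField_iff _ _).1 y.2 _ (τ0 σ hσ i)]

end Pool.Agent.MP_e23604_nt.L

end

section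

/-!
The different of the division field.
-/

open WeierstrassCurve NumberField IsDedekindDomain IntermediateField
open scoped Classical

namespace Pool.Agent.MP_e23604_nt.L

open B

lemma int_Dif (M : Type) [Field M] [NumberField M] {m : ℕ}
    (hm : (m : 𝓞 M) ∈ differentIdeal (𝓞 ℚ) (𝓞 M)) (x : M)
    (hx : ∀ w : 𝓞 M, ∃ k : ℤ, Algebra.trace ℚ M ((w : M) * x) = k) :
    IsIntegral ℤ ((m : M) * x) := by
  have e : (m : M) ∈ IsLocalization.coeSubmodule M (differentIdeal (𝓞 ℚ) (𝓞 M)) :=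
    (IsLocalization.mem_coeSubmodule _ _).2 ⟨m, hm, map_natCast _ m⟩
  rw [coeSubmodule_differentIdeal (𝓞 ℚ) ℚ, Submodule.mem_div_iff_forall_mul_mem] at e
  obtain ⟨y, hy⟩ := Submodule.mem_one.1 (e x (Submodule.mem_traceDual.2 fun a ha => by
    obtain ⟨w, rfl⟩ := Submodule.mem_one.1 ha
    obtain ⟨k, hk⟩ := hx w
    exact ⟨k, by rw [Algebra.traceForm_apply, mul_comm, map_intCast]; exact hk.symm⟩))
  rw [← hy]
  exact y.isIntegral_coe

end Pool.Agent.MP_e23604_nt.L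

end

section

/-!
Denominators in the dual of the order of integral equivariant functions.
-/

open NumberField IsDedekindDomain
open scoped Classical

namespace Pool.Agent.MP_e23604_nt.L

open B

/-- an algebraic number that is integral at every place is an algebraic integer -/
theorem int_of_le_Dual {x : Qb} (h : ∀ (q : ℕ) [Fact q.Prime] (γ : GQ), nv q γ x ≤ 1) :
    IsIntegral ℤ x := by
  let K := IntermediateField.adjoin ℚ {x}
  have : FiniteDimensional ℚ K :=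
    IntermediateField.adjoin.finiteDimensional (Algebra.IsIntegral.isIntegral x)
  have : NumberField K := NumberField.of_module_finite ℚ K
  let y : K := ⟨x, IntermediateField.mem_adjoin_simple_self ℚ x⟩
  obtain ⟨z, hz⟩ := HeightOneSpectrum.mem_integers_of_valuation_le_one (R := 𝓞 K) K y fun Q => by
    have := Q.isMaximal
    obtain ⟨q, hq, hqQ⟩ := prime_in Q.asIdeal
    have := Fact.mk hq
    obtain ⟨γ, a1⟩ := center K Q.asIdeal q hqQ
    obtain ⟨n, d, hnd | hnd⟩ := Q.exists_primeCompl_mul_eq_or_mul_eq y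
    · have e1 := congrArg (Q.valuation K) hnd
      rw [map_mul, Q.valuation_eq_one_iff_notMem.2 d.2, mul_one] at e1
      rw [e1]
      exact Q.valuation_le_one n
    · have hd : 1 ≤ nv q γ (((d : 𝓞 K) : K) : Qb) := not_lt.1 fun h1 => d.2 ((a1 d).2 h1)
      have e1 : x * ((n : K) : Qb) = (((d : 𝓞 K) : K) : Qb) := congrArg (algebraMap K Qb) hnd
      have hn : n ∉ Q.asIdeal := fun h1 => by
        have h2 := (a1 n).1 h1
        rw [← e1, map_mul] at hd
        nlinarith [h q γ, (nv q γ).nonneg x, (nv q γ).nonneg ((n : K) : Qb)]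
      have e2 := congrArg (Q.valuation K) hnd
      rw [map_mul, Q.valuation_eq_one_iff_notMem.2 d.2, Q.valuation_eq_one_iff_notMem.2 hn,
        mul_one] at e2
      exact e2.le
  have hy : IsIntegral ℤ y := hz ▸ RingOfIntegers.isIntegral_coe z
  exact hy.map (K.val.restrictScalars ℤ)

theorem mem_of_fix_Dual (F : IntermediateField ℚ Qb) {x : Qb}
    (h : ∀ σ : GQ, (∀ y ∈ F, σ y = y) → σ x = x) : x ∈ F := by
  have : IsGalois ℚ Qb := {}
  rw [← InfiniteGalois.fixedField_fixingSubgroup F, IntermediateField.mem_fixedField_iff]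
  exact fun σ hσ => h σ ((IntermediateField.mem_fixingSubgroup_iff F σ).1 hσ)

variable {p : ℕ} {M : Type} [AddCommGroup M] {ρ : GQ → M →+ M} {e : M → M → Qb} {ξ : GQ → M}

/-- an integral eigenvector that is a unit at a given place -/
theorem unit_Dual (hD : Dat p ρ e) (hA : Adm ρ ξ) (F : IntermediateField ℚ Qb)
    [FiniteDimensional ℚ F] (hF : ∀ σ : GQ, (∀ x ∈ F, σ x = x) → ∀ T, ρ σ T = T) (T : M)
    (q : ℕ) [Fact q.Prime] (γ : GQ) : ∃ y : Qb, IsIntegral ℤ y ∧ nv q γ y = 1 ∧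
      ∀ σ : GQ, (∀ x ∈ F, σ x = x) → e (ξ σ) T * σ y = y := by
  have hP := hD.toPair
  have hq : q.Prime := Fact.out
  have : IsGalois ℚ Qb := {}
  have hN : ∀ σ : GQ, σ ∈ F.fixingSubgroup ↔ ∀ x ∈ F, σ x = x :=
    fun σ => IntermediateField.mem_fixingSubgroup_iff F σ
  obtain ⟨y0, h0, hy0⟩ := h90n hP.hp.pos F.fixingSubgroup (fun σ => e (ξ σ) (-T))
    (fun σ _ => hP.pow_p _ _)
    (fun σ hσ τ _ => by
      rw [hA.coc, hP.addl, hD.eqv, hF σ ((hN σ).1 hσ) (-T)])
    ((IntermediateField.fixingSubgroup_isOpen F).inter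
      (hA.lc {S | e S (-T) = 1}))
  obtain ⟨R, hR⟩ := hA.unr q γ
  obtain ⟨x, hx, hv⟩ := ram_a F (nv_na q γ) hq (nv_lt q γ) (y := y0) fun τ t1 t2 => by
    rw [hy0 τ ((hN τ).2 t1), hR τ t2, hF τ t1, sub_self, hP.zero_l, one_mul]
  have hx0 : x ≠ 0 := by
    rintro rfl
    rw [map_zero] at hv
    exact h0 ((nv q γ).eq_zero.1 hv.symm)
  have h1 : ∀ σ : GQ, (∀ x ∈ F, σ x = x) → e (ξ σ) T * σ (y0 / x) = y0 / x := fun σ hσ => by
    rw [map_div₀, hy0 σ ((hN σ).2 hσ), hσ x hx, hP.neg_r]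
    field_simp [hP.ne (ξ σ) T]
  have hv1 : nv q γ (y0 / x) = 1 := by
    rw [map_div₀, hv, div_self ((nv q γ).pos h0).ne']
  have hu : (y0 / x) ^ p ∈ F := mem_of_fix_Dual F fun σ hσ => by
    conv_rhs => rw [← h1 σ hσ]
    rw [mul_pow, hP.pow_p, one_mul, map_pow]
  have : NumberField F := NumberField.of_module_finite ℚ F
  let a : AbsoluteValue F ℝ := (nv q γ).comp (f := algebraMap F Qb) (RingHom.injective _)
  have ha : IsNonarchimedean a := fun x z => nv_na q γ (x : Qb) (z : Qb)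
  have hq1 : a q < 1 := by
    change nv q γ (algebraMap F Qb q) < 1
    rw [map_natCast]
    exact nv_lt q γ
  obtain ⟨w, hw⟩ := bvalc_center ha hq hq1
  have hu1 : a ⟨_, hu⟩ = 1 := by
    change nv q γ ((y0 / x) ^ p) = 1
    rw [map_pow, hv1, one_pow]
  obtain ⟨n, d, hnd⟩ := w.exists_primeCompl_mul_eq_of_integer (⟨_, hu⟩ : F)
    (val_one w hw ha hu1).le
  have hi : ∀ z : 𝓞 F, IsIntegral ℤ ((z : F) : Qb) := fun z =>
    (RingOfIntegers.isIntegral_coe z).map (F.val.restrictScalars ℤ)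
  have hd : nv q γ (((d : 𝓞 F) : F) : Qb) = 1 :=
    le_antisymm (v_int (nv_na q γ) (hi d)) (not_lt.1 fun h1 => d.2 ((hw d).2 h1))
  have e1 : (y0 / x) ^ p * (((d : 𝓞 F) : F) : Qb) = ((n : F) : Qb) :=
    congrArg (algebraMap F Qb) hnd
  refine ⟨(((d : 𝓞 F) : F) : Qb) * (y0 / x), IsIntegral.of_pow hP.hp.pos ?_, ?_, fun σ hσ => ?_⟩
  · obtain ⟨k, hk⟩ : ∃ k, p = k + 1 := ⟨p - 1, (Nat.succ_pred_eq_of_pos hP.hp.pos).symm⟩
    have e2 : ((((d : 𝓞 F) : F) : Qb) * (y0 / x)) ^ p =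
        (((d : 𝓞 F) : F) : Qb) ^ k * ((n : F) : Qb) := by
      rw [← e1, mul_pow, hk]
      ring
    rw [e2]
    exact ((hi d).pow k).mul (hi n)
  · rw [map_mul, hd, hv1, one_mul]
  · rw [map_mul, hσ _ (SetLike.coe_mem _), mul_left_comm, h1 σ hσ]

theorem dual_st : DUAL_st := by
  intro p m M _ _ ρ e ξ a hD hA hm ha hb T
  obtain ⟨F, hfin, hgal, hF, hdif⟩ := hm
  have hP := hD.toPair
  have : IsGalois ℚ Qb := {}
  refine int_of_le_Dual fun q _ γ => ?_
  obtain ⟨y, hy, hv, hσy⟩ := unit_Dual hD hA F hF T q γ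
  have hz : y * a T ∈ F := mem_of_fix_Dual F fun σ hσ => by
    rw [map_mul, ha σ T, hF σ hσ, ← mul_assoc, mul_comm (σ y), hσy σ hσ]
  let r : GQ →* (F ≃ₐ[ℚ] F) := AlgEquiv.restrictNormalHom F
  have hr : ∀ (g : GQ) (x : F), (r g x : Qb) = g x := fun g x =>
    AlgEquiv.restrictNormal_commutes g F x
  obtain ⟨l, hl⟩ := (AlgEquiv.restrictNormalHom_surjective (F := ℚ) (K₁ := F) Qb).hasRightInverse
  have hl' : ∀ s, r (l s) = s := hl
  have hsum : ∀ φ : GQ → Qb, (∀ g ν : GQ, (∀ x ∈ F, ν x = x) → φ (g * ν) = φ g) →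
      ∀ σ : GQ, ∑ s, φ (σ * l s) = ∑ s, φ (l s) := fun φ hφ σ => by
    refine Fintype.sum_equiv (Equiv.mulLeft (r σ)) _ _ fun s => ?_
    have h1 := hφ (σ * l s) ((σ * l s)⁻¹ * l (r σ * s)) fun x hx => by
      have h2 := hr ((σ * l s)⁻¹ * l (r σ * s)) ⟨x, hx⟩
      rw [map_mul, map_inv, map_mul, hl', hl', inv_mul_cancel] at h2
      exact h2.symm
    rw [mul_inv_cancel_left] at h1
    exact h1.symm
  have hi := hdif ⟨_, hz⟩ fun w => by
    have hw : IsIntegral ℤ ((w : F) : Qb) :=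
      (RingOfIntegers.isIntegral_coe w).map (F.val.restrictScalars ℤ)
    let t : GQ → Qb := fun g => e (ξ g) (ρ g T) * g ((w : F) * y)
    have ht : ∀ g ν : GQ, (∀ x ∈ F, ν x = x) → t (g * ν) = t g := fun g ν hν => by
      simp only [t]
      rw [hD.chi hA.coc, hD.mul, hF ν hν, AlgEquiv.mul_apply, mul_assoc, ← map_mul, map_mul ν,
        hν _ (SetLike.coe_mem _), mul_left_comm, hσy ν hν]
    have ht2 : ∀ σ g : GQ, σ (t g) = e (ξ σ) (-ρ (σ * g) T) * t (σ * g) := fun σ g => by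
      simp only [t]
      rw [hD.chi hA.coc, hP.neg_r, map_mul, AlgEquiv.mul_apply]
      field_simp [hP.ne (ξ σ) (ρ (σ * g) T)]
    obtain ⟨k, hk⟩ := hb (fun S => ∑ s, if S = -ρ (l s) T then t (l s) else 0)
      (fun σ S => by
        beta_reduce
        rw [← hsum (fun g => if ρ σ S = -ρ g T then t g else 0)
          (fun g ν hν => by rw [ht g ν hν, hD.mul, hF ν hν]) σ, map_sum, Finset.mul_sum]
        refine Finset.sum_congr rfl fun s _ => ?_
        by_cases hS : S = -ρ (l s) T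
        · have h1 : ρ σ S = -ρ (σ * l s) T := by rw [hS, map_neg, hD.mul]
          rw [if_pos hS, if_pos h1, ht2, h1]
        · have h1 : ρ σ S ≠ -ρ (σ * l s) T := fun h => hS ((hD.bij σ).1 (by
            rw [h, map_neg, hD.mul]))
          rw [if_neg hS, if_neg h1, map_zero, mul_zero])
      fun S => IsIntegral.sum _ fun s _ => by
        split_ifs
        · exact (hP.integral _ _).mul ((hw.mul hy).map ((l s).toAlgHom.restrictScalars ℤ))
        · exact isIntegral_zero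
    refine ⟨k, (algebraMap ℚ Qb).injective ?_⟩
    rw [map_intCast, ← hk, IsScalarTower.algebraMap_apply ℚ F Qb, trace_eq_sum_automorphisms,
      map_sum]
    simp only [Finset.mul_sum, neg_inj, mul_ite, mul_zero]
    rw [Finset.sum_comm]
    refine Finset.sum_congr rfl fun s _ => ?_
    rw [Finset.sum_ite_eq', if_pos (Finset.mem_univ _)]
    have h1 := hr (l s) ((w : F) * ⟨_, hz⟩)
    rw [hl'] at h1
    refine h1.trans ?_
    change (l s) ((w : F) * (y * a T)) = _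
    simp only [t]
    rw [← mul_assoc, map_mul, ha (l s) T]
    ring
  have h1 : IsIntegral ℤ ((m : Qb) * (y * a T)) := by
    simpa using hi.map (F.val.restrictScalars ℤ)
  have h2 := v_int (nv_na q γ) h1
  rwa [mul_left_comm, map_mul, hv, one_mul] at h2

end Pool.Agent.MP_e23604_nt.L

end

section

open scoped Classical

namespace Pool.Agent.MP_e23604_nt.L

open B

section chr

variable {K : Type} [Field K] {p : ℕ} [Fact p.Prime]

/-- the additive character attached to a root of unity -/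
def Z_Line (z : K) (a : ZMod p) : K := z ^ a.val

theorem Z_zero_Line (z : K) : Z_Line z (0 : ZMod p) = 1 := by simp [Z_Line]

theorem Z_cast_Line {z : K} (hz : z ^ p = 1) (n : ℕ) : Z_Line z (n : ZMod p) = z ^ n := by
  rw [Z_Line, ZMod.val_natCast, ← pow_eq_pow_mod n hz]

theorem Z_add_Line {z : K} (hz : z ^ p = 1) (a b : ZMod p) :
    Z_Line z (a + b) = Z_Line z a * Z_Line z b := by
  rw [Z_Line, ZMod.val_add, ← pow_eq_pow_mod _ hz, pow_add, Z_Line, Z_Line]

theorem Z_ne_Line {z : K} (hz : z ^ p = 1) (a : ZMod p) : Z_Line z a ≠ 0 :=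
  left_ne_zero_of_mul_eq_one (b := Z_Line z (-a))
    (by rw [← Z_add_Line hz, add_neg_cancel, Z_zero_Line])

theorem Z_sub_Line {z : K} (hz : z ^ p = 1) (a b : ZMod p) :
    Z_Line z (a - b) = Z_Line z a / Z_Line z b := by
  rw [eq_div_iff (Z_ne_Line hz b), ← Z_add_Line hz, sub_add_cancel]

omit [Fact p.Prime] in
theorem Z_pow_Line {z : K} (hz : z ^ p = 1) (a : ZMod p) : Z_Line z a ^ p = 1 := by
  rw [Z_Line, ← pow_mul, mul_comm, pow_mul, hz, one_pow]

theorem Z_inj_Line {z : K} (hz : IsPrimitiveRoot z p) {a : ZMod p} (h : Z_Line z a = 1) :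
    a = 0 :=
  (ZMod.val_eq_zero a).1 (Nat.eq_zero_of_dvd_of_lt ((hz.pow_eq_one_iff_dvd _).1 h) a.val_lt)

theorem pot_Line (a : ZMod p → K) (ha : ∏ i, a i = 1) :
    ∃ v : ZMod p → K, (∀ i, v i ≠ 0) ∧ ∀ i, v (i + 1) * a i = v i := by
  have h0 : ∀ i, a i ≠ 0 := fun i hi =>
    zero_ne_one ((Finset.prod_eq_zero (Finset.mem_univ i) hi).symm.trans ha)
  have h1 : ∏ j ∈ Finset.range p, a j = 1 := by
    rw [← ha]
    exact Finset.prod_nbij' (fun j => (j : ZMod p)) (fun i => i.val) (fun _ _ => Finset.mem_univ _)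
      (fun i _ => Finset.mem_range.2 i.val_lt)
      (fun j hj => ZMod.val_cast_of_lt (Finset.mem_range.1 hj))
      (fun i _ => ZMod.natCast_zmod_val i) fun _ _ => rfl
  have h2 : ∀ n : ℕ, ∏ j ∈ Finset.range n, a j ≠ 0 := fun n =>
    Finset.prod_ne_zero_iff.2 fun j _ => h0 _
  refine ⟨fun i => (∏ j ∈ Finset.range i.val, a j)⁻¹, fun i => inv_ne_zero (h2 _), fun i => ?_⟩
  have h3 : ∏ j ∈ Finset.range (i + 1).val, a j = (∏ j ∈ Finset.range i.val, a j) * a i := by
    have h4 : (∏ j ∈ Finset.range i.val, a j) * a i = ∏ j ∈ Finset.range (i.val + 1), a j := by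
      rw [Finset.prod_range_succ, ZMod.natCast_zmod_val]
    rw [h4, ZMod.val_add, ZMod.val_one]
    rcases (Nat.succ_le_of_lt i.val_lt).eq_or_lt with h5 | h5
    · rw [Nat.succ_eq_add_one] at h5
      rw [h5, Nat.mod_self, h1, Finset.prod_range_zero]
    · rw [Nat.mod_eq_of_lt h5]
  simp only [h3]
  have := h0 i
  field_simp

theorem const_Line {α : Type} {F : ZMod p → α} (h : ∀ i, F (i + 1) = F i) (i : ZMod p) :
    F i = F 0 := by
  rw [← ZMod.natCast_zmod_val i]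
  induction i.val with
  | zero => rw [Nat.cast_zero]
  | succ n ih => rw [Nat.cast_succ, h, ih]

variable {M : Type} [AddCommGroup M]

/-- symplectic coordinates -/
structure Co_Line (e : M → M → K) (P Q : M) (z : K) (A B : M →+ ZMod p) : Prop where
  prim : IsPrimitiveRoot z p
  val : e P Q = z
  pair : ∀ S T, e S T = Z_Line z (A S * B T - B S * A T)
  ap : A P = 1
  bp : B P = 0
  aq : A Q = 0
  bq : B Q = 1
  lin : ∀ (g : M →+ ZMod p) (T : M), g T = A T * g P + B T * g Q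

theorem coord_Line {e : M → M → K} (h : Pair p e) {P : M} (hP : P ≠ 0) :
    ∃ (Q : M) (z : K) (A B : M →+ ZMod p), Co_Line e P Q z A B := by
  obtain ⟨Q, hQ⟩ : ∃ Q, e P Q ≠ 1 := by
    by_contra hc
    push Not at hc
    exact hP (h.nd' hc)
  have hz := h.prim hQ
  let _ : Module (ZMod p) M := AddCommGroup.zmodModule h.tor
  have hs : ∀ (a : ZMod p) (T : M), a • T = a.val • T := fun a T => by
    rw [← Nat.cast_smul_eq_nsmul (ZMod p), ZMod.natCast_zmod_val]
  let c : ZMod p × ZMod p →+ M :=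
    { toFun := fun x => x.1 • P + x.2 • Q
      map_zero' := by simp
      map_add' := fun x y => by simp only [Prod.fst_add, Prod.snd_add, add_smul]; abel }
  have hc : ∀ x, c x = x.1 • P + x.2 • Q := fun _ => rfl
  have h1 : ∀ x y, e (c x) (c y) = Z_Line (e P Q) (x.1 * y.2 - x.2 * y.1) := by
    intro x y
    have h2 : ∀ a b : ZMod p, Z_Line (e P Q) (a * b) = (e P Q ^ b.val) ^ a.val := fun a b => by
      rw [← pow_mul, ← Z_cast_Line hz.pow_eq_one, Nat.cast_mul, ZMod.natCast_zmod_val,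
        ZMod.natCast_zmod_val, mul_comm]
    simp only [hc, hs, h.addl, h.addr, h.nsmul_l, h.nsmul_r, h.alt, one_pow, one_mul, mul_one]
    rw [Z_sub_Line hz.pow_eq_one, h2, h2, h.inv P Q, inv_pow, inv_pow, div_eq_mul_inv]
    try simp only [← pow_mul, mul_comm]
  have hP' : c (1, 0) = P := by simp [hc]
  have hQ' : c (0, 1) = Q := by simp [hc]
  have h2 : Function.Injective c := by
    rw [injective_iff_map_eq_zero]
    intro x hx
    have h3 := h1 (1, 0) x
    have h4 := h1 x (0, 1)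
    rw [hx, h.zero_r] at h3
    rw [hx, h.zero_l] at h4
    have h5 := Z_inj_Line hz h3.symm
    have h6 := Z_inj_Line hz h4.symm
    exact Prod.ext (by simpa using h6) (by simpa using h5)
  have := h.finite
  have h3 : Function.Bijective c :=
    h2.bijective_of_nat_card_le (by rw [h.card, Nat.card_prod, Nat.card_zmod, sq])
  let E := AddEquiv.ofBijective c h3
  have hE : ∀ x, E.symm (c x) = x := fun x => E.symm_apply_apply x
  have hE' : ∀ T, c (E.symm T) = T := fun T => E.apply_symm_apply T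
  refine ⟨Q, e P Q, (AddMonoidHom.fst _ _).comp E.symm.toAddMonoidHom,
    (AddMonoidHom.snd _ _).comp E.symm.toAddMonoidHom, hz, rfl, fun S T => ?_, ?_, ?_, ?_, ?_,
    fun g T => ?_⟩
  · conv_lhs => rw [← hE' S, ← hE' T]
    exact h1 _ _
  · exact congrArg Prod.fst (hP' ▸ hE (1, 0))
  · exact congrArg Prod.snd (hP' ▸ hE (1, 0))
  · exact congrArg Prod.fst (hQ' ▸ hE (0, 1))
  · exact congrArg Prod.snd (hQ' ▸ hE (0, 1))
  · conv_lhs => rw [← hE' T, hc, map_add, ZMod.map_smul, ZMod.map_smul]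
    rfl

/-- the monomial matrices of the representation -/
noncomputable def U_Line (z : K) (v : ZMod p → K) (a b : ZMod p) : Matrix (ZMod p) (ZMod p) K :=
  Matrix.of fun i j => if j = i + b then Z_Line z (-2 * a * i - a * b) * (v j / v i) else 0

/-- the shift matrices -/
noncomputable def S_Line (K : Type) [Field K] (k : ZMod p) : Matrix (ZMod p) (ZMod p) K :=
  Matrix.of fun i j => if j = i + k then 1 else 0

theorem S_mul_Line (k : ZMod p) (X : Matrix (ZMod p) (ZMod p) K) (i l : ZMod p) :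
    (S_Line K k * X) i l = X (i + k) l := by
  simp [S_Line, Matrix.mul_apply]

theorem mul_S_Line (k : ZMod p) (X : Matrix (ZMod p) (ZMod p) K) (i l : ZMod p) :
    (X * S_Line K k) i l = X i (l - k) := by
  simp [S_Line, Matrix.mul_apply, ← sub_eq_iff_eq_add]

theorem heis_Line {e : M → M → K} {P Q : M} {z : K} {A B : M →+ ZMod p}
    (h : Co_Line e P Q z A B) {v : ZMod p → K} (hv : ∀ i, v i ≠ 0) :
    Heis e fun T => U_Line z v (A T) (B T) := by
  have hz := h.prim.pow_eq_one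
  constructor
  · ext i j
    rw [map_zero, map_zero, U_Line, Matrix.of_apply, Matrix.one_apply, add_zero]
    by_cases hij : j = i
    · rw [if_pos hij, if_pos hij.symm, hij, div_self (hv i)]
      simp [Z_zero_Line]
    · rw [if_neg hij, if_neg (Ne.symm hij)]
  · intro S T
    ext i l
    rw [Matrix.mul_apply, Finset.sum_eq_single (i + B S)
      (fun j _ hj => by rw [U_Line, Matrix.of_apply, if_neg hj, zero_mul])
      (fun hh => absurd (Finset.mem_univ _) hh), Matrix.smul_apply, smul_eq_mul, h.pair, map_add,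
      map_add]
    simp only [U_Line, Matrix.of_apply, if_true, add_assoc]
    split_ifs with hl
    · have h1 := hv i
      have h2 := hv (i + B S)
      have h3 : Z_Line z (-2 * A S * i - A S * B S) *
          Z_Line z (-2 * A T * (i + B S) - A T * B T) =
          Z_Line z (A S * B T - B S * A T) *
          Z_Line z (-2 * (A S + A T) * i - (A S + A T) * (B S + B T)) := by
        rw [← Z_add_Line hz, ← Z_add_Line hz]
        congr 1
        ring
      rw [← mul_assoc (Z_Line z (A S * B T - B S * A T)), ← h3]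
      field_simp
    · rw [mul_zero, mul_zero]

end chr

theorem syl_Line {p : ℕ} [Fact p.Prime] {M : Type} [AddCommGroup M] {ρ : GQ → M →+ M}
    {e : M → M → Qb} (h : Dat p ρ e) :
    ∃ (H : Subgroup GQ) (P : M), IsOpen (H : Set GQ) ∧ ¬ p ∣ H.index ∧ P ≠ 0 ∧
      (∀ σ ∈ H, ρ σ P = P) ∧ ∀ σ ∈ H, ∃ j : ℕ, ∀ T, ρ (σ ^ p ^ j) T = T := by
  have := h.toPair.finite
  let φ : GQ →* Equiv.Perm M :=
    { toFun := fun σ => ⟨ρ σ, ρ σ⁻¹, h.inv σ, h.inv' σ⟩
      map_one' := Equiv.ext h.one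
      map_mul' := fun σ τ => Equiv.ext (h.mul σ τ) }
  obtain ⟨S⟩ : Nonempty (Sylow p φ.range) := inferInstance
  have h0 : (0 : M) ∈ MulAction.fixedPoints (S : Subgroup φ.range) M := by
    rintro ⟨⟨g, σ, rfl⟩, hg⟩
    exact map_zero (ρ σ)
  obtain ⟨P, hP, hP0⟩ := S.isPGroup'.exists_fixed_point_of_prime_dvd_card_of_fixed_point M
    (by rw [h.card]; exact dvd_pow_self p two_ne_zero) h0
  refine ⟨(S : Subgroup φ.range).comap φ.rangeRestrict, P, ?_, ?_, hP0.symm,
    fun σ hσ => hP ⟨φ.rangeRestrict σ, hσ⟩, fun σ hσ => ?_⟩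
  · refine Subgroup.isOpen_mono (H₁ := φ.ker) (fun σ hσ => ?_) ?_
    · have : φ.rangeRestrict σ = 1 := Subtype.ext hσ
      rw [Subgroup.mem_comap, this]
      exact one_mem _
    · have : (φ.ker : Set GQ) = ⋂ T, {σ | ρ σ T = T} := by
        ext σ
        simp only [SetLike.mem_coe, MonoidHom.mem_ker, Set.mem_iInter, Set.mem_ofPred_eq]
        exact Equiv.ext_iff
      rw [this]
      exact isOpen_iInter_of_finite fun T => (h.lc T).isOpen_fiber T
  · rw [Subgroup.index_comap_of_surjective _ φ.rangeRestrict_surjective]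
    exact S.not_dvd_index
  · obtain ⟨j, hj⟩ := S.isPGroup' ⟨φ.rangeRestrict σ, hσ⟩
    have h1 : φ (σ ^ p ^ j) = 1 := by
      rw [map_pow]
      exact congrArg (fun x : (S : Subgroup φ.range) => ((x : φ.range) : Equiv.Perm M)) hj
    exact ⟨j, Equiv.ext_iff.1 h1⟩

theorem line_st (h : CYC_st) : LINE_st := by
  intro p _ M _ ρ e ξ hD hA
  obtain ⟨H, P, hopen, hidx, hP0, hfix, hpow⟩ := syl_Line hD
  obtain ⟨Q, z, A, B, hc⟩ := coord_Line hD.toPair hP0
  have hz := hc.prim.pow_eq_one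
  have h2 : (2 : ZMod p) * 2⁻¹ = 1 := mul_inv_cancel₀ fun h0 => hD.h2
    ((Nat.prime_dvd_prime_iff_eq hD.hp Nat.prime_two).1
      ((ZMod.natCast_eq_zero_iff 2 p).1 (by exact_mod_cast h0)))
  have hB : ∀ σ ∈ H, ∀ T, B (ρ σ T) = B T := by
    intro σ hσ
    have h3 : ∀ T, B (ρ σ T) = B T * B (ρ σ Q) := fun T => by
      have := hc.lin (B.comp (ρ σ)) T
      rwa [AddMonoidHom.comp_apply, AddMonoidHom.comp_apply, AddMonoidHom.comp_apply, hfix σ hσ,
        hc.bp, mul_zero, zero_add] at this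
    have h4 : ∀ n : ℕ, B (ρ (σ ^ n) Q) = B (ρ σ Q) ^ n := fun n => by
      induction n with
      | zero => rw [pow_zero, pow_zero, hD.one, hc.bq]
      | succ n ih => rw [pow_succ', hD.mul, h3, ih, pow_succ]
    obtain ⟨j, hj⟩ := hpow σ hσ
    have h5 := h4 (p ^ j)
    rw [hj, hc.bq, ZMod.pow_card_pow] at h5
    intro T
    rw [h3, ← h5, mul_one]
  have hA' : ∀ σ ∈ H, ∀ T, A (ρ σ T) = A T + B T * A (ρ σ Q) := fun σ hσ T => by
    have := hc.lin (A.comp (ρ σ)) T
    rwa [AddMonoidHom.comp_apply, AddMonoidHom.comp_apply, AddMonoidHom.comp_apply, hfix σ hσ,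
      hc.ap, mul_one] at this
  have hσz : ∀ σ ∈ H, σ z = z := fun σ hσ => by
    have h3 := hD.eqv σ P Q
    rw [hc.pair (ρ σ P), hfix σ hσ, hB σ hσ, hc.bp, zero_mul, hc.val] at h3
    rw [h3, ← zero_mul (A Q), ← hc.bp, ← hc.pair, hc.val]
  have hσZ : ∀ σ ∈ H, ∀ a : ZMod p, σ (Z_Line z a) = Z_Line z a := fun σ hσ a => by
    rw [Z_Line, map_pow, hσz σ hσ]
  let k : GQ → ZMod p := fun σ => 2⁻¹ * B (ξ σ)
  let q : GQ → ZMod p → ZMod p := fun σ i =>
    (B (ξ σ) * A (ρ σ Q) - A (ξ σ)) * i + A (ρ σ Q) * i ^ 2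
  let ψ : GQ → ZMod p → Qb := fun σ i => Z_Line z (q σ (i + 1) - q σ i)
  have hk : IsLocallyConstant k := hA.lc.comp fun x => 2⁻¹ * B x
  have hkm : ∀ σ ∈ H, ∀ τ ∈ H, k (σ * τ) = k σ + k τ := fun σ hσ τ _ => by
    simp only [k, hA.coc, map_add, hB σ hσ, mul_add]
  obtain ⟨a, ha1, ha2⟩ := h p H z k ψ hD.h2 hopen hc.prim hσz hk
    ((hA.lc.prodMk (hD.lc Q)).comp fun x i => Z_Line z
      (((B x.1 * A x.2 - A x.1) * (i + 1) + A x.2 * (i + 1) ^ 2) -
        ((B x.1 * A x.2 - A x.1) * i + A x.2 * i ^ 2)))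
    hkm
    (fun σ hσ τ hτ i => by
      simp only [ψ, q, k]
      rw [← Z_add_Line hz, hA.coc, hD.mul, map_add, map_add, hB σ hσ, hA' σ hσ (ξ τ),
        hA' σ hσ (ρ τ Q), hB τ hτ, hc.bq]
      congr 1
      linear_combination (-(A (ρ τ Q) * B (ξ σ))) * h2)
    (fun σ _ i => Z_pow_Line hz _)
    (fun σ _ => by
      simp only [ψ, Z_sub_Line hz]
      rw [Finset.prod_div_distrib, Fintype.prod_equiv (Equiv.addRight 1)
        (fun i => Z_Line z (q σ (i + 1))) (fun i => Z_Line z (q σ i)) fun _ => rfl]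
      exact div_self (Finset.prod_ne_zero_iff.2 fun i _ => Z_ne_Line hz _))
    (fun l _ γ => by
      obtain ⟨R, hR⟩ := hA.unr l γ
      refine ⟨2⁻¹ * (B R - 1), fun τ hτ hI => ?_⟩
      simp only [ψ, q, k]
      rw [hR τ hI, map_sub, map_sub, hB τ hτ, hA' τ hτ R, sub_self, mul_zero,
        ← Z_zero_Line (p := p) z]
      refine ⟨rfl, ?_⟩
      congr 1
      linear_combination (A (ρ τ Q) * (B R - 1)) * h2)
  obtain ⟨v, hv0, hv⟩ := pot_Line a ha1
  have hvσ : ∀ σ ∈ H, ∃ c : Qb, c ≠ 0 ∧ ∀ i, σ (v (i + k σ)) = c * (v i / Z_Line z (q σ i)) := by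
    intro σ hσ
    have h3 : ∀ i, σ (v (i + 1 + k σ)) * Z_Line z (q σ (i + 1)) / v (i + 1) =
        σ (v (i + k σ)) * Z_Line z (q σ i) / v i := by
      intro i
      have h4 := congrArg σ (hv (i + k σ))
      rw [map_mul, ha2 σ hσ, add_right_comm] at h4
      simp only [ψ, Z_sub_Line hz] at h4
      have h5 := hv0 (i + 1)
      have h6 := Z_ne_Line hz (q σ i)
      have h7 : a i ≠ 0 := fun h0 => hv0 i (by rw [← hv i, h0, mul_zero])
      rw [← h4, ← hv i]
      field_simp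
    refine ⟨σ (v (0 + k σ)) * Z_Line z (q σ 0) / v 0, div_ne_zero (mul_ne_zero
      ((map_ne_zero σ).2 (hv0 _)) (Z_ne_Line hz _)) (hv0 _), fun i => ?_⟩
    rw [← const_Line (F := fun i => σ (v (i + k σ)) * Z_Line z (q σ i) / v i) h3 i]
    have h5 := hv0 i
    have h6 := Z_ne_Line hz (q σ i)
    field_simp
  refine ⟨H, fun T => U_Line z v (A T) (B T), fun σ => S_Line Qb (k σ), hopen, hidx,
    heis_Line hc hv0, hk.comp (S_Line Qb), ?_, fun σ hσ τ hτ => ?_, fun σ hσ T => ?_⟩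
  · ext i j
    simp [k, hD.coc_one hA.coc, S_Line, Matrix.one_apply, eq_comm]
  · ext i j
    beta_reduce
    rw [S_mul_Line, hkm σ hσ τ hτ, Matrix.map_apply]
    simp only [S_Line, Matrix.of_apply, add_assoc]
    split_ifs <;> simp
  · obtain ⟨c, hc0, hcv⟩ := hvσ σ hσ
    ext i l
    obtain ⟨j, rfl⟩ : ∃ j, l = j + k σ := ⟨l - k σ, (sub_add_cancel _ _).symm⟩
    beta_reduce
    rw [S_mul_Line, Matrix.smul_apply, mul_S_Line, add_sub_cancel_right, Matrix.map_apply,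
      smul_eq_mul, hc.pair, hB σ hσ, hA' σ hσ T]
    simp only [U_Line, Matrix.of_apply, add_right_comm i (k σ), add_left_inj]
    split_ifs with hj
    · have h3 : Z_Line z (-2 * A T * (i + k σ) - A T * B T) * Z_Line z (q σ i) =
          Z_Line z (A (ξ σ) * B T - B (ξ σ) * (A T + B T * A (ρ σ Q))) *
          Z_Line z (-2 * (A T + B T * A (ρ σ Q)) * i - (A T + B T * A (ρ σ Q)) * B T) *
          Z_Line z (q σ j) := by
        rw [← Z_add_Line hz, ← Z_add_Line hz, ← Z_add_Line hz, hj]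
        congr 1
        simp only [q, k]
        linear_combination (-(A T * B (ξ σ))) * h2
      have h5 := hv0 i
      have h6 := Z_ne_Line hz (q σ i)
      have h7 := Z_ne_Line hz (q σ j)
      rw [map_mul, map_div₀, hσZ σ hσ, hcv, hcv, ← mul_assoc, eq_div_of_mul_eq h6 h3]
      field_simp
    · rw [map_zero, mul_zero]

end Pool.Agent.MP_e23604_nt.L

end

section

/-!
Passage to cocycles that are coboundaries on all inertia groups.
-/

open WeierstrassCurve
open scoped Classical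

namespace Pool.Agent.MP_e23604_nt.L

open B

theorem tors_Loc (W : WeierstrassCurve ℚ) [W.IsElliptic] {p : ℕ} (hp : p.Prime) (h2 : p ≠ 2)
    (q : ℕ) [Fact q.Prime] {T : Pts W (PadicAlgCl q)} (hT : p • T = 0) :
    ∃ R : Pts W Qb, p • R = 0 ∧ act W (emb ℚ_[q]) R = T := by
  have : (W.baseChange Qb).IsElliptic := inferInstanceAs (W.map (algebraMap ℚ Qb)).IsElliptic
  have : (W.baseChange (PadicAlgCl q)).IsElliptic :=
    inferInstanceAs (W.map (algebraMap ℚ (PadicAlgCl q))).IsElliptic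
  have e1 : Nat.card {P : Pts W Qb // p • P = 0} = p ^ 2 := tors_card _ hp h2
  have e2 : Nat.card {P : Pts W (PadicAlgCl q) // p • P = 0} = p ^ 2 := tors_card _ hp h2
  have : Finite {P : Pts W (PadicAlgCl q) // p • P = 0} :=
    Nat.finite_of_card_ne_zero (e2 ▸ pow_ne_zero _ hp.ne_zero)
  let f : {P : Pts W Qb // p • P = 0} → {P : Pts W (PadicAlgCl q) // p • P = 0} :=
    fun P => ⟨act W (emb ℚ_[q]) P.1, by rw [← map_nsmul, P.2, map_zero]⟩
  have hf : Function.Bijective f := (Nat.bijective_iff_injective_and_card f).2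
    ⟨fun P Q e => Subtype.ext (BSel_act_inj W _ (congrArg Subtype.val e)), e1.trans e2.symm⟩
  obtain ⟨R, hR⟩ := hf.2 ⟨T, hT⟩
  exact ⟨R.1, R.2, congrArg Subtype.val hR⟩

theorem conj_Loc (W : WeierstrassCurve ℚ) {p : ℕ} (q : ℕ) [Fact q.Prime] {d : GQ → Pts W Qb}
    (hd : d ∈ cocycles W) (hp : ∀ σ, p • d σ = 0) {R : Pts W Qb} (hR : p • R = 0)
    (h : ∀ τ : GQ, Inr (nv q 1) τ → d τ = galQ W τ R - R) (γ : GQ) :
    ∃ R : Pts W Qb, p • R = 0 ∧ ∀ τ : GQ, Inr (nv q γ) τ → d τ = galQ W τ R - R := by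
  have hmul : ∀ σ τ, d (σ * τ) = d σ + galQ W σ (d τ) := hd.2
  refine ⟨galQ W γ⁻¹ (R + d γ), by rw [← map_nsmul, nsmul_add, hR, hp, add_zero, map_zero],
    fun τ hτ => ?_⟩
  have hτ₀ : Inr (nv q 1) (γ * τ * γ⁻¹ : GQ) := by
    intro x hx
    have e : ∀ y, nv q 1 y = nv q γ (γ⁻¹ y) := fun y => by rw [← nv_mul, mul_inv_cancel]
    rw [e] at hx ⊢
    have := hτ _ hx
    rwa [map_sub, ← AlgEquiv.mul_apply, ← mul_assoc, inv_mul_cancel_left, AlgEquiv.mul_apply]
  have e1 := hmul (γ * τ * γ⁻¹) γ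
  rw [inv_mul_cancel_right, hmul, h _ hτ₀] at e1
  refine BSel_act_inj W (γ : Qb →+* Qb) ?_
  change galQ W γ _ = galQ W γ _
  rw [map_sub, ← BSel_gal_mul, ← BSel_gal_mul, ← BSel_gal_mul, mul_inv_cancel, BSel_gal_one,
    map_add, eq_sub_of_add_eq' e1]
  abel

theorem one_Loc (W : WeierstrassCurve ℚ) [W.IsElliptic] {p : ℕ} (hp : p.Prime) (h2 : p ≠ 2)
    (q : ℕ) [Fact q.Prime] {N : ℕ} (h : Cls W q p N) :
    ∃ f : (GQ → Pts W Qb) → Fin N, ∀ ξ η : GQ → Pts W Qb, ξ ∈ cocycles W → η ∈ cocycles W →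
      (∀ σ, p • ξ σ = 0) → (∀ σ, p • η σ = 0) → LocTriv W ℚ_[q] ξ → LocTriv W ℚ_[q] η →
      f ξ = f η → ∀ γ : GQ, ∃ R : Pts W Qb, p • R = 0 ∧
        ∀ τ : GQ, Inr (nv q γ) τ → ξ τ - η τ = galQ W τ R - R := by
  obtain ⟨cl, hcl⟩ := h
  have ex : ∀ ξ : GQ → Pts W Qb, ∃ R : Pts W (PadicAlgCl q), LocTriv W ℚ_[q] ξ →
      ∀ (σ : PadicAlgCl q ≃ₐ[ℚ_[q]] PadicAlgCl q) (τ : GQ),
        (∀ x, emb ℚ_[q] (τ x) = σ (emb ℚ_[q] x)) →
        act W (emb ℚ_[q]) (ξ τ) = act W (σ : PadicAlgCl q →+* PadicAlgCl q) R - R := fun ξ => by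
    by_cases h : LocTriv W ℚ_[q] ξ
    · exact ⟨h.choose, fun _ => h.choose_spec⟩
    · exact ⟨0, fun h' => absurd h' h⟩
  choose r hr using ex
  have fx : ∀ ξ : GQ → Pts W Qb, (∀ σ, p • ξ σ = 0) → LocTriv W ℚ_[q] ξ → Fx W q (p • r ξ) :=
    fun ξ a b σ => by
      obtain ⟨τ, hτ⟩ := exists_res ℚ_[q] σ
      rw [← sub_eq_zero, map_nsmul, ← nsmul_sub, ← hr ξ b σ τ hτ, ← map_nsmul, a, map_zero]
  refine ⟨fun ξ => cl (r ξ), fun ξ η a1 a2 b1 b2 c1 c2 e => ?_⟩
  obtain ⟨T, t1, t2⟩ := hcl _ _ (fx ξ b1 c1) (fx η b2 c2) e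
  obtain ⟨R, r1, rfl⟩ := tors_Loc W hp h2 q t1
  refine conj_Loc W q (d := ξ - η) (sub_mem a1 a2) (fun σ => by
    rw [Pi.sub_apply, nsmul_sub, b1, b2, sub_zero]) r1 fun τ hτ => ?_
  obtain ⟨X, hX⟩ := BSel_finset (sub_mem (sub_mem a1 a2) (BSel_dd_mem W R)).1 τ
  obtain ⟨σ, τ', h₁, h₂, -⟩ := loc_lift q hτ X ∅
  refine sub_eq_zero.1 ((hX τ' h₂).symm.trans (BSel_act_inj W (emb ℚ_[q]) ?_))
  have e1 : act W (emb ℚ_[q]) (galQ W τ' R) =
      act W (σ : PadicAlgCl q →+* PadicAlgCl q) (act W (emb ℚ_[q]) R) := by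
    rw [galQ, BSel_act_act, BSel_act_act]
    exact congrFun (congrArg _ (congrArg _ (RingHom.ext h₁))) _
  have e2 := t2 σ
  rw [map_sub, map_sub, sub_eq_iff_eq_add, sub_eq_iff_eq_add] at e2
  rw [Pi.sub_apply, Pi.sub_apply, BSel_dd, map_sub, map_sub, map_sub, hr ξ c1 σ τ' h₁,
    hr η c2 σ τ' h₁, e1, map_zero, e2]
  abel

end Pool.Agent.MP_e23604_nt.L

end

section

/-!
A uniform bound for the different of the splitting field.
-/

open NumberField IntermediateField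
open scoped Classical

namespace Pool.Agent.MP_e23604_nt.L

open B

variable {p : ℕ} {M : Type} [AddCommGroup M] {ρ : GQ → M →+ M} {e : M → M → Qb}

lemma sl_DifU (h : Dat p ρ e) (N : Subgroup GQ) (hN : ∀ σ, σ ∈ N ↔ ∀ T, ρ σ T = T) :
    ∃ (z : Qb) (H : Subgroup GQ), z ^ p = 1 ∧ (∀ σ, σ ∈ H ↔ σ z = z) ∧ N ≤ H ∧ ¬ p ∣ H.index ∧
      N.relIndex H ≠ 0 ∧ N.relIndex H ≤ p ^ 3 := by
  have := Fact.mk h.hp
  have := h.toPair.finite
  have : Nontrivial M := Finite.one_lt_card_iff_nontrivial.1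
    (h.card ▸ Nat.one_lt_pow two_ne_zero h.hp.one_lt)
  obtain ⟨P, hP⟩ := exists_ne (0 : M)
  obtain ⟨Q, z, A, B, c⟩ := coord_Line h.toPair hP
  have hz := c.prim.pow_eq_one
  have act : ∀ σ : GQ, σ z = e (ρ σ P) (ρ σ Q) := fun σ => by rw [← h.eqv, c.val]
  refine ⟨z, MulAction.stabilizer GQ z, hz, fun _ => Iff.rfl, fun σ hσ => ?_, fun hd => ?_, ?_⟩
  · change σ z = z
    rw [act, (hN σ).1 hσ, (hN σ).1 hσ, c.val]
  · have h1 : MulAction.orbit GQ z ⊆ (primitiveRoots p Qb : Set Qb) := by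
      rintro _ ⟨σ, rfl⟩
      exact Finset.mem_coe.2 ((mem_primitiveRoots h.hp.pos).2 (c.prim.map_of_injective σ.injective))
    have h2 := Set.ncard_le_ncard h1
    rw [Set.ncard_coe_finset, c.prim.card_primitiveRoots] at h2
    rw [MulAction.index_stabilizer] at hd
    exact absurd (Nat.le_of_dvd ((Set.ncard_pos ((Finset.finite_toSet _).subset h1)).2
      ⟨z, MulAction.mem_orbit_self z⟩) hd) (not_le.2 (h2.trans_lt (Nat.totient_lt p h.hp.one_lt)))
  · have det : ∀ σ : MulAction.stabilizer GQ z,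
        A (ρ σ P) * B (ρ σ Q) - B (ρ σ P) * A (ρ σ Q) = 1 := fun σ => by
      have h1 : σ.1 z = z := σ.2
      have h2 := c.pair P Q
      rw [act, c.pair] at h1
      rw [c.val, c.ap, c.bp, c.aq, c.bq, one_mul, zero_mul, sub_zero] at h2
      exact sub_eq_zero.1 (Z_inj_Line c.prim (by
        rw [Z_sub_Line hz, h1, ← h2, div_self (c.prim.ne_zero h.hp.ne_zero)]))
    have inj : ∀ T T', A T = A T' → B T = B T' → T = T' := fun T T' h1 h2 =>
      sub_eq_zero.1 (h.nd _ fun S => by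
        rw [c.pair, map_sub, map_sub, h1, h2, sub_self, sub_self, mul_zero, mul_zero, sub_zero,
          Z_zero_Line])
    have key := index_fun (N.subgroupOf (MulAction.stabilizer GQ z))
      (fun σ => (A (ρ σ P), B (ρ σ P), if A (ρ σ P) = 0 then B (ρ σ Q) else A (ρ σ Q)))
      fun σ τ hh => by
        simp only [Prod.mk.injEq] at hh
        obtain ⟨h1, h2, h3⟩ := hh
        have d1 := det σ
        have d2 := det τ
        rw [← h1, ← h2] at d2
        rw [← h1] at h3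
        have h4 : A (ρ σ Q) = A (ρ τ Q) ∧ B (ρ σ Q) = B (ρ τ Q) := by
          split_ifs at h3 with h0
          · rw [h0] at d1 d2
            exact ⟨by linear_combination A (ρ τ Q) * d1 - A (ρ σ Q) * d2, h3⟩
          · exact ⟨h3, mul_left_cancel₀ h0 (by linear_combination d1 - d2 + B (ρ σ P) * h3)⟩
        refine Subgroup.mem_subgroupOf.2 ((hN _).2 fun T => ?_)
        have h5 : ρ τ T = ρ σ T := by
          refine inj _ _ ?_ ?_
          · have a1 := c.lin (A.comp (ρ σ)) T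
            have a2 := c.lin (A.comp (ρ τ)) T
            simp only [AddMonoidHom.comp_apply] at a1 a2
            rw [a1, a2, h1, h4.1]
          · have a1 := c.lin (B.comp (ρ σ)) T
            have a2 := c.lin (B.comp (ρ τ)) T
            simp only [AddMonoidHom.comp_apply] at a1 a2
            rw [a1, a2, h2, h4.2]
        change ρ (σ.1⁻¹ * τ.1) T = T
        rw [h.mul, h5, h.inv]
    refine ⟨key.1, key.2.trans_eq ?_⟩
    rw [Nat.card_prod, Nat.card_prod, Nat.card_zmod]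
    ring

theorem dif_uni (h : Dat p ρ e) {r : ℕ} (hr : r ≠ 0)
    (hu : ∀ (q : ℕ) [Fact q.Prime] (γ τ : GQ), ¬ q ∣ p * r → Inr (nv q γ) τ → ∀ T, ρ τ T = T) :
    ∃ m, m ≠ 0 ∧ m ≤ p ^ 4 * r ∧ Dif ρ m := by
  have := h.toPair.finite
  let φ : GQ →* Equiv.Perm M :=
    { toFun := fun σ => ⟨ρ σ, ρ σ⁻¹, h.inv σ, h.inv' σ⟩
      map_one' := Equiv.ext h.one
      map_mul' := fun σ τ => Equiv.ext (h.mul σ τ) }
  have hN : ∀ σ, σ ∈ φ.ker ↔ ∀ T, ρ σ T = T := fun σ => Equiv.ext_iff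
  have ho : IsOpen (φ.ker : Set GQ) := by
    have : (φ.ker : Set GQ) = ⋂ T, {σ | ρ σ T = T} := Set.ext fun σ => by
      rw [Set.mem_iInter]
      exact hN σ
    rw [this]
    exact isOpen_iInter_of_finite fun T => (h.lc T).isOpen_fiber T
  have hf : (fixedField φ.ker).fixingSubgroup = φ.ker :=
    InfiniteGalois.fixingSubgroup_fixedField ⟨φ.ker, φ.ker.isClosed_of_isOpen ho⟩
  have fd : FiniteDimensional ℚ (fixedField φ.ker) := Module.finite_of_finrank_pos (by
    rw [finrank_eq_fixingSubgroup_index, hf]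
    exact Nat.pos_of_ne_zero Subgroup.FiniteIndex.index_ne_zero)
  have : NumberField (fixedField φ.ker) := {}
  have ga : IsGalois ℚ (fixedField φ.ker) :=
    (InfiniteGalois.normal_iff_isGalois _).1 (by rw [hf]; infer_instance)
  obtain ⟨z, H, z1, z2, h1, h2, h3, h4⟩ := sl_DifU h φ.ker hN
  refine ⟨φ.ker.relIndex H * (p * r), mul_ne_zero h3 (mul_ne_zero h.hp.ne_zero hr),
    (Nat.mul_le_mul_right _ h4).trans_eq (by ring), fixedField φ.ker, fd, ga,
    fun σ hσ => (hN σ).1 (hf ▸ (mem_fixingSubgroup_iff _ _).2 hσ), int_Dif _ ?_⟩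
  rw [← Ideal.dvd_span_singleton, ← pow_one (differentIdeal _ _)]
  refine GDisc_dvd differentIdeal_ne_bot fun Q hQ i hi => ?_
  obtain ⟨q, hq, hqQ⟩ := prime_in Q
  have := Fact.mk hq
  obtain ⟨γ, a1⟩ := center _ Q q hqQ
  have key : ∀ K : Subgroup GQ, (∀ τ : GQ, Inr (nv q γ) τ → τ ∈ K) →
      Nat.card (Q.inertia Gal(fixedField φ.ker/ℚ)) ∣ φ.ker.relIndex K := fun K hK => by
    have := Subgroup.relIndex_ker (K := K) (AlgEquiv.restrictNormalHom (F := ℚ) (fixedField φ.ker))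
    have hk : (AlgEquiv.restrictNormalHom (F := ℚ) (K₁ := Qb) (fixedField φ.ker)).ker = φ.ker :=
      (restrictNormalHom_ker _).trans hf
    rw [hk] at this
    rw [this]
    refine Subgroup.card_dvd_of_le fun s hs => ?_
    obtain ⟨τ, t1, t2⟩ := lift_at _ (nv_na q γ) hq (nv_lt q γ) a1 s hs
    refine ⟨τ, hK τ t1, ?_⟩
    ext x
    exact (AlgEquiv.restrictNormal_commutes τ _ x).trans (t2 x)
  have nd : ∀ k : ℕ, ¬ q ∣ k → (k : 𝓞 (fixedField φ.ker)) ∉ Q := fun k hk hm => by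
    have h5 : nv q γ k = 1 := by
      simpa using v_coprime (nv_na q γ) hq (nv_lt q γ) (n := k) (by exact_mod_cast hk)
    have h6 := (a1 _).1 hm
    simp [h5] at h6
  by_cases hd : q ∣ p * r
  · obtain ⟨k, k1, k2⟩ : ∃ k : ℕ, ¬ q ∣ k ∧
        Nat.card (Q.inertia Gal(fixedField φ.ker/ℚ)) ∣ k * φ.ker.relIndex H := by
      by_cases hqp : q = p
      · refine ⟨H.index, hqp ▸ h2, (key ⊤ fun _ _ => trivial).trans (dvd_of_eq ?_)⟩
        rw [Subgroup.relIndex_top_right, mul_comm, Subgroup.relIndex_mul_index h1]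
      · refine ⟨1, hq.one_lt.ne' ∘ Nat.dvd_one.1, (key H fun τ hτ => (z2 τ).2
          (Inr_root (nv_na q γ) hτ ?_ z1)).trans (dvd_of_eq (one_mul _).symm)⟩
        exact v_not (nv_na q γ) a1 (nd p fun h5 => hqp ((Nat.prime_dvd_prime_iff_eq hq h.hp).1 h5))
    have hm : ((p * r : ℕ) : 𝓞 (fixedField φ.ker)) ∈ Q := by
      obtain ⟨c, hc⟩ := hd
      rw [hc, Nat.cast_mul]
      exact Q.mul_mem_right _ hqQ
    have e1 : Q ^ (i + 1) ∣ Ideal.span {(k : 𝓞 (fixedField φ.ker))} *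
        Ideal.span {((φ.ker.relIndex H * (p * r) : ℕ) : 𝓞 (fixedField φ.ker))} := by
      refine (diff_bound ℚ _ Q i hi).trans ((mul_dvd_mul (Ideal.dvd_span_singleton.2
        (Ideal.mem_span_singleton.2 (Nat.cast_dvd_cast k2))) (GDisc_under _ Q hm)).trans
        (dvd_of_eq ?_))
      rw [Ideal.span_singleton_mul_span_singleton, Ideal.span_singleton_mul_span_singleton]
      congr 2
      push_cast
      ring
    rw [one_mul]
    exact (pow_dvd_pow _ i.le_succ).trans ((Ideal.prime_of_isPrime (bdiff_bot Q)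
      hQ.isPrime).pow_dvd_of_dvd_mul_left _ (fun h5 => nd k k1 (Ideal.dvd_span_singleton.1 h5)) e1)
  · have e1 := key φ.ker fun τ hτ => (hN τ).2 (hu q γ τ hd hτ)
    rw [Subgroup.relIndex_self] at e1
    have i0 := BDisc_tame ℚ _ Q e1 (nd 1 (hq.one_lt.ne' ∘ Nat.dvd_one.1)) hi
    rw [Nat.dvd_one.1 e1] at i0
    rw [show i = 0 by omega, mul_zero, pow_zero]
    exact one_dvd _

end Pool.Agent.MP_e23604_nt.L

end
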