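import Pool.Agent.Mg.Fe23604m.G4d6502
import Mathlib
import Pool.Agent.Mg.Fe23604m.Ga3df41
import Pool.Agent.MP_14ad9d_nt.Full.R03
import Pool.Agent.Mg.Fe23604m.G70a5be
import Pool.Agent.Mg.Fe23604m.G7d1337
import Pool.Agent.MP_14ad9d_nt.Full.FI1
import Pool.Agent.MP_e23604_nt.L.HntA
import Pool.Agent.MP_e23604_nt.BDefs2
import Pool.Agent.Mg.Fe23604m.Gdceba7
import Pool.Agent.Mg.Fe23604m.G5224b9
import Pool.Agent.Mg.Fe23604m.G5c4864
import Pool.Agent.Mg.Fe23604m.G824365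

set_option linter.all false

section

/-!
A weak form of Bezout's theorem for nondegenerate solutions.
-/

open scoped Classical

namespace Pool.Agent.MP_e23604_nt.L

open B MvPolynomial Filter Topology

variable {κ : Type} [Fintype κ]

theorem rel_Bez {I : Type} [Fintype I] (g : I → MvPolynomial κ ℂ) (m : ℕ)
    (hg : ∀ x, (g x).totalDegree ≤ m) (h : (m + 1) ^ Fintype.card κ < Fintype.card I) :
    ∃ c : I → ℂ, ∑ x, c x • g x = 0 ∧ ∃ x, c x ≠ 0 := by
  obtain ⟨Φ, hΦ⟩ : ∃ Φ : MvPolynomial κ ℂ →ₗ[ℂ] ((κ → Fin (m + 1)) → ℂ), ∀ p b,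
      Φ p b = coeff (Finsupp.equivFunOnFinite.symm fun i => (b i : ℕ)) p :=
    ⟨LinearMap.pi fun b => lcoeff ℂ (Finsupp.equivFunOnFinite.symm fun i => (b i : ℕ)),
      fun _ _ => rfl⟩
  have h1 : ¬ LinearIndependent ℂ fun x => Φ (g x) := fun hl => by
    have h2 := hl.fintype_card_le_finrank
    rw [Module.finrank_fintype_fun_eq_card, Fintype.card_fun, Fintype.card_fin] at h2
    omega
  obtain ⟨c, hc, hc'⟩ := Fintype.not_linearIndependent_iff.1 h1
  refine ⟨c, ?_, hc'⟩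
  have h2 : Φ (∑ x, c x • g x) = 0 := by
    rw [map_sum]
    simpa only [map_smul] using hc
  have h3 : (∑ x, c x • g x).totalDegree ≤ m :=
    totalDegree_finsetSum_le fun x _ => (totalDegree_smul_le _ _).trans (hg x)
  refine MvPolynomial.ext _ _ fun d => ?_
  by_contra hd
  have h4 : ∀ i, d i < m + 1 := fun i => Nat.lt_succ_of_le
    (((monomial_le_degreeOf i (mem_support_iff.2 hd)).trans (degreeOf_le_totalDegree _ i)).trans h3)
  have h5 := hΦ (∑ x, c x • g x) fun i => ⟨d i, h4 i⟩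
  rw [h2] at h5
  refine hd (Eq.trans ?_ h5.symm)
  exact congrArg (coeff · _) (Finsupp.ext fun i => rfl)

theorem lin_Bez (Z : Finset (κ → ℂ)) : ∃ L : MvPolynomial κ ℂ, L.totalDegree ≤ 1 ∧
    ∀ z ∈ Z, ∀ z' ∈ Z, eval z L = eval z' L → z = z' := by
  obtain ⟨f, hf⟩ := Module.exists_dual_forall_apply_ne_zero (K := ℂ)
    (fun q : Z.offDiag => q.1.1 - q.1.2) fun q => sub_ne_zero.2 (Finset.mem_offDiag.1 q.2).2.2
  refine ⟨∑ i, f (fun j => if i = j then 1 else 0) • X i, totalDegree_finsetSum_le fun i _ =>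
    (totalDegree_smul_le _ _).trans (totalDegree_X i).le, fun z hz z' hz' h => ?_⟩
  have h1 : ∀ w : κ → ℂ, eval w (∑ i, f (fun j => if i = j then 1 else 0) • X i) = f w := by
    intro w
    rw [LinearMap.pi_apply_eq_sum_univ f w, map_sum]
    exact Finset.sum_congr rfl fun i _ => by rw [smul_eval, eval_X, smul_eq_mul, mul_comm]
  by_contra hne
  refine hf ⟨(z, z'), Finset.mem_offDiag.2 ⟨hz, hz', hne⟩⟩ ?_
  rw [h1, h1] at h
  rw [map_sub, h, sub_self]

theorem an_Bez (p : MvPolynomial κ ℂ) : AnalyticOnNhd ℂ (fun z : κ → ℂ => eval z p) Set.univ :=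
  AnalyticOnNhd.eval_continuousLinearMap (ContinuousLinearMap.id ℂ (κ → ℂ)) p

theorem freq_Bez {p : MvPolynomial κ ℂ} (hp : p ≠ 0) (y : κ → ℂ) :
    ∃ᶠ w in 𝓝 y, eval w p ≠ 0 := by
  intro h
  have h1 : (fun z : κ → ℂ => eval z p) =ᶠ[𝓝 y] fun _ => 0 := h.mono fun w hw => not_not.1 hw
  have h2 := (an_Bez p).eq_of_eventuallyEq analyticOnNhd_const h1
  exact hp (MvPolynomial.funext fun x => (congrFun h2 x).trans (map_zero _).symm)

theorem open_Bez (P : κ → MvPolynomial κ ℂ) (z : κ → ℂ)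
    (h : ∀ w : κ → ℂ, (∀ i, HasDerivAt (fun t : ℂ => eval (z + t • w) (P i)) 0 0) → w = 0) :
    map (fun z : κ → ℂ => fun i => eval z (P i)) (𝓝 z) = 𝓝 fun i => eval z (P i) := by
  have h1 : AnalyticAt ℂ (fun z : κ → ℂ => fun i => eval z (P i)) z :=
    AnalyticAt.pi fun i => an_Bez (P i) z (Set.mem_univ _)
  have h2 := h1.hasStrictFDerivAt
  generalize fderiv ℂ (fun z : κ → ℂ => fun i => eval z (P i)) z = A at h2
  refine h2.map_nhds_eq_of_surj (LinearMap.range_eq_top.2 (LinearMap.injective_iff_surjective.1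
    ((injective_iff_map_eq_zero (A : (κ → ℂ) →ₗ[ℂ] κ → ℂ)).2 fun w hw => h w fun i => ?_)))
  have h3 : HasDerivAt (fun t : ℂ => z + t • w) w 0 := by
    simpa using ((hasDerivAt_id (0 : ℂ)).smul_const w).const_add z
  have h4 := h2.hasFDerivAt.comp_hasDerivAt_of_eq 0 h3 (by simp)
  have h5 : A w = 0 := hw
  rw [h5] at h4
  exact hasDerivAt_pi.1 h4 i

theorem bez_st : BEZ_st := by
  intro κ _ P D y Z hP hy hZ
  obtain ⟨L, hL, hL'⟩ := lin_Bez Z
  obtain ⟨N, hN⟩ : ∃ N, N = (Fintype.card κ * D + 1) ^ Fintype.card κ := ⟨_, rfl⟩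
  rw [← hN]
  obtain ⟨c, hc, ⟨j₀, a₀⟩, hc'⟩ := rel_Bez
    (fun x : Fin (N + 1) × (κ → Fin (N + 1)) => L ^ (x.1 : ℕ) * ∏ i, P i ^ (x.2 i : ℕ))
    (N * (Fintype.card κ * D + 1)) (fun x => by
      have h1 : (L ^ (x.1 : ℕ)).totalDegree ≤ N := (totalDegree_pow _ _).trans
        ((Nat.mul_le_mul (Nat.lt_succ_iff.1 x.1.2) hL).trans (mul_one N).le)
      have h2 : (∏ i, P i ^ (x.2 i : ℕ)).totalDegree ≤ Fintype.card κ * (N * D) :=
        (totalDegree_finsetProd _ _).trans (Finset.sum_le_card_nsmul _ _ _ fun i _ =>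
          (totalDegree_pow _ _).trans (Nat.mul_le_mul (Nat.lt_succ_iff.1 (x.2 i).2) (hP i)))
      refine (totalDegree_mul _ _).trans ((add_le_add h1 h2).trans (le_of_eq ?_))
      ring) (by
      rw [Fintype.card_prod, Fintype.card_fun, Fintype.card_fin]
      calc (N * (Fintype.card κ * D + 1) + 1) ^ Fintype.card κ
          ≤ ((Fintype.card κ * D + 1) * (N + 1)) ^ Fintype.card κ :=
            Nat.pow_le_pow_left (by nlinarith [Nat.zero_le (Fintype.card κ * D)]) _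
        _ = N * (N + 1) ^ Fintype.card κ := by rw [mul_pow, ← hN]
        _ < (N + 1) * (N + 1) ^ Fintype.card κ :=
            Nat.mul_lt_mul_of_pos_right (Nat.lt_succ_self N) (by positivity))
  obtain ⟨ψ, hψ⟩ : ∃ ψ : Fin (N + 1) → MvPolynomial κ ℂ, ∀ j, ψ j = ∑ a : κ → Fin (N + 1),
      monomial (Finsupp.equivFunOnFinite.symm fun i => (a i : ℕ)) (c (j, a)) := ⟨_, fun _ => rfl⟩
  have h0 : ψ j₀ ≠ 0 := fun h => hc' (by
    have h1 := congrArg (coeff (Finsupp.equivFunOnFinite.symm fun i => (a₀ i : ℕ))) h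
    rw [hψ, coeff_sum, Finset.sum_eq_single a₀, coeff_monomial, if_pos rfl, coeff_zero] at h1
    · exact h1
    · intro a _ ha
      rw [coeff_monomial, if_neg]
      intro e
      exact ha (funext fun i => Fin.ext (congrFun (Finsupp.equivFunOnFinite.symm.injective e) i))
    · exact fun h => absurd (Finset.mem_univ _) h)
  have h1 : ∀ z : κ → ℂ, ∑ j, eval (fun i => eval z (P i)) (ψ j) * eval z L ^ (j : ℕ) = 0 := by
    intro z
    have h2 := congrArg (eval z) hc
    rw [map_sum, map_zero, Fintype.sum_prod_type] at h2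
    rw [← h2]
    refine Finset.sum_congr rfl fun j _ => ?_
    rw [hψ, map_sum, Finset.sum_mul]
    refine Finset.sum_congr rfl fun a _ => ?_
    rw [eval_monomial, Finsupp.prod_fintype _ _ fun _ => pow_zero _, smul_eval, map_mul, map_pow,
      map_prod]
    simp only [map_pow, Finsupp.equivFunOnFinite_symm_apply_apply]
    ring
  obtain ⟨U, hU, hU'⟩ := (Z.finite_toSet.image fun z => eval z L).t2_separation
  have h2 : ∀ᶠ w in 𝓝 y, ∀ z ∈ Z, ∃ z', eval z' L ∈ U (eval z L) ∧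
      (fun i => eval z' (P i)) = w := by
    refine (eventually_all_finset Z).2 fun z hz => ?_
    rw [← funext (hy z hz), ← open_Bez P z (hZ z hz)]
    exact image_mem_map (s := {z' | eval z' L ∈ U (eval z L)})
      ((an_Bez L z (Set.mem_univ _)).continuousAt.preimage_mem_nhds
        ((hU _).2.mem_nhds (hU _).1))
  obtain ⟨w, hw, hw'⟩ := ((freq_Bez h0 y).and_eventually h2).exists
  choose! f hf hf' using hw'
  obtain ⟨R, hR⟩ : ∃ R : Polynomial ℂ,
      R = ∑ j : Fin (N + 1), Polynomial.monomial j (eval w (ψ j)) := ⟨_, rfl⟩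
  have h3 : R.natDegree ≤ N := by
    rw [hR]
    exact Polynomial.natDegree_sum_le_of_forall_le _ _ fun j _ =>
      (Polynomial.natDegree_monomial_le _).trans (Nat.lt_succ_iff.1 j.2)
  have h4 : R ≠ 0 := fun h => hw (by
    have h5 := congrArg (Polynomial.coeff · j₀) h
    simp only [hR, Polynomial.finsetSum_coeff, Polynomial.coeff_monomial, Fin.val_inj,
      Finset.sum_ite_eq', Finset.mem_univ, if_true, Polynomial.coeff_zero] at h5
    exact h5)
  by_contra h5
  refine h4 (Polynomial.eq_zero_of_natDegree_lt_card_of_eval_eq_zero R (ι := Z)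
    (f := fun z => eval (f z) L) (fun z z' e => ?_) (fun z => ?_) ?_)
  · refine Subtype.ext (hL' _ z.2 _ z'.2 ?_)
    by_contra hne
    have h6 := hU' ⟨z, z.2, rfl⟩ ⟨z', z'.2, rfl⟩ hne
    exact Set.disjoint_left.1 h6 (hf z z.2) (by
      have h7 := hf z' z'.2
      rwa [← show eval (f z) L = eval (f z') L from e] at h7)
  · rw [← h1 (f z), hf' z z.2, hR, Polynomial.eval_finsetSum]
    exact Finset.sum_congr rfl fun j _ => Polynomial.eval_monomial
  · rw [Fintype.card_coe]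
    omega

end Pool.Agent.MP_e23604_nt.L

end

section

/-!
The bound for a larger family of polynomials with few values.
-/

open scoped Classical

namespace Pool.Agent.MP_e23604_nt.L

open B

theorem der_Bez2 {κ : Type} (p : MvPolynomial κ ℂ) (z : κ → ℂ) : ∃ d : (κ → ℂ) →ₗ[ℂ] ℂ,
    ∀ w, HasDerivAt (fun t : ℂ => MvPolynomial.eval (z + t • w) p) (d w) 0 := by
  induction p using MvPolynomial.induction_on with
  | C a => exact ⟨0, fun w => by simpa using hasDerivAt_const (0 : ℂ) a⟩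
  | add p q hp hq =>
    obtain ⟨d, hd⟩ := hp
    obtain ⟨d', hd'⟩ := hq
    exact ⟨d + d', fun w => by simpa using (hd w).fun_add (hd' w)⟩
  | mul_X p i hp =>
    obtain ⟨d, hd⟩ := hp
    refine ⟨z i • d + MvPolynomial.eval z p • LinearMap.proj i, fun w => ?_⟩
    simpa [mul_comm (z i)] using
      (hd w).fun_mul (((hasDerivAt_id' (0 : ℂ)).mul_const (w i)).const_add (z i))

theorem sel_Bez2 {κ I : Type} [Fintype κ] [Fintype I] (d : I → (κ → ℂ) →ₗ[ℂ] ℂ)
    (h : ∀ w, (∀ i, d i w = 0) → w = 0) : ∃ s : κ → I, ∀ w, (∀ k, d (s k) w = 0) → w = 0 := by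
  obtain ⟨κ', a, ha, h1, h2⟩ := exists_linearIndependent' ℂ d
  have h3 : ⊤ ≤ Submodule.span ℂ (Set.range (d ∘ a)) := fun φ _ => by
    rw [h1]
    refine mem_span_of_iInf_ker_le_ker fun w hw => ?_
    rw [h w fun i => (Submodule.mem_iInf _).1 hw i]
    exact Submodule.zero_mem _
  have : Finite κ' := Finite.of_injective a ha
  have _ : Fintype κ' := Fintype.ofFinite _
  have h4 := Module.finrank_eq_card_basis (Module.Basis.mk h2 h3)
  rw [Subspace.dual_finrank_eq, Module.finrank_fintype_fun_eq_card] at h4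
  obtain ⟨e⟩ := Fintype.card_eq.1 h4
  refine ⟨a ∘ e, fun w hw => funext fun j => ?_⟩
  have h5 : Submodule.span ℂ (Set.range (d ∘ a)) ≤ LinearMap.ker (LinearMap.applyₗ w) :=
    Submodule.span_le.2 (Set.range_subset_iff.2 fun k => by simpa using hw (e.symm k))
  exact h5 (h3 (Submodule.mem_top (x := LinearMap.proj j)))

theorem bez2_st (h : BEZ_st) : BEZ2_st := by
  intro κ I _ _ P D N Y Z hD hY hZ hw
  have h1 : ∀ z : κ → ℂ, z ∈ Z → ∃ s : κ → I, ∀ w : κ → ℂ, (∀ k, HasDerivAt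
      (fun t : ℂ => MvPolynomial.eval (z + t • w) (P (s k))) 0 0) → w = 0 := fun z hz => by
    choose d hd using fun i => der_Bez2 (P i) z
    obtain ⟨s, hs⟩ := sel_Bez2 d fun w h0 => hw z hz w fun i => h0 i ▸ hd i w
    exact ⟨s, fun w h0 => hs w fun k => (hd _ w).unique (h0 k)⟩
  rcases Z.eq_empty_or_nonempty with rfl | ⟨z₀, hz₀⟩
  · exact Nat.zero_le _
  have : Nonempty (κ → I) := (h1 z₀ hz₀).nonempty
  choose! s hs using h1
  refine (Finset.card_le_mul_card_image_of_maps_to (s := Z)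
    (t := Fintype.piFinset fun _ : κ => Finset.univ.sigma Y)
    (f := fun z k => ⟨s z k, MvPolynomial.eval z (P (s z k))⟩)
    (fun z hz => Fintype.mem_piFinset.2 fun k => Finset.mem_sigma.2
      ⟨Finset.mem_univ _, hZ z hz _⟩) _ fun f _ =>
        h κ (fun k => P (f k).1) D (fun k => (f k).2) _ (fun k => hD _) (fun z hz k => ?_)
          fun z hz => ?_).trans ?_
  · rw [← (Finset.mem_filter.1 hz).2]
  · rw [← (Finset.mem_filter.1 hz).2]
    exact hs z (Finset.mem_filter.1 hz).1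
  · rw [mul_pow, mul_comm, Fintype.card_piFinset, Finset.prod_const, Finset.card_univ,
      Finset.card_sigma]
    exact Nat.mul_le_mul_right _ (Nat.pow_le_pow_left
      (Finset.sum_le_card_nsmul _ _ _ fun i _ => hY i) _)

end Pool.Agent.MP_e23604_nt.L

end

section

/-!
The two lattice lemmas for lattices in a rational vector space.
-/

open Module
open scoped Classical

namespace Pool.Agent.MP_e23604_nt.L

open B

section
variable {V κ F : Type} [AddCommGroup V] [Module ℚ V] [Fintype κ] [NormedAddCommGroup F]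
  [InnerProductSpace ℝ F] (j : V →+ F)

lemma smul_Bri (q : ℚ) (v : V) : j (q • v) = (q : ℝ) • j v := map_ratCast_smul j ℚ ℝ q v

lemma mem_Bri {S : Set V} (hS : Submodule.span ℚ S = ⊤) {W : Submodule ℝ F}
    (h : ∀ x ∈ S, j x ∈ W) (v : V) : j v ∈ W := by
  have hv : v ∈ Submodule.span ℚ S := hS ▸ Submodule.mem_top
  induction hv using Submodule.span_induction with
  | mem x hx => exact h x hx
  | zero => rw [map_zero]; exact W.zero_mem
  | add x y _ _ hx hy => rw [map_add]; exact W.add_mem hx hy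
  | smul q x _ hx => rw [smul_Bri]; exact W.smul_mem _ hx

omit [Fintype κ] in
lemma ext_Bri (b : Basis κ ℚ V) (hj : LinearIndependent ℝ fun k => j (b k)) (ψ : V →ₗ[ℚ] ℚ) :
    ∃ Ψ : F →ₗ[ℝ] ℝ, ∀ v, Ψ (j v) = ψ v := by
  obtain ⟨g, hg⟩ := LinearMap.exists_leftInverse_of_injective
    (Finsupp.linearCombination ℝ fun k => j (b k)) (LinearMap.ker_eq_bot.2 hj)
  refine ⟨Finsupp.linearCombination ℝ (fun k => (ψ (b k) : ℝ)) ∘ₗ g, fun v => ?_⟩
  have hv : v ∈ Submodule.span ℚ (Set.range b) := b.span_eq ▸ Submodule.mem_top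
  induction hv using Submodule.span_induction with
  | mem x hx =>
    obtain ⟨k, rfl⟩ := hx
    have := LinearMap.congr_fun hg (Finsupp.single k 1)
    rw [LinearMap.comp_apply, Finsupp.linearCombination_single, one_smul] at this
    rw [LinearMap.comp_apply, this, LinearMap.id_apply, Finsupp.linearCombination_single, one_smul]
  | zero => simp
  | add x y _ _ hx hy => rw [map_add, map_add, map_add, hx, hy, Rat.cast_add]
  | smul q x _ hx => rw [smul_Bri, map_smul, map_smul, hx, smul_eq_mul, smul_eq_mul, Rat.cast_mul]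

lemma dual_Bri {Λ : Submodule ℤ V} (hΛ : Submodule.span ℚ (Λ : Set V) = ⊤) {y : F}
    (hy : y ∈ Submodule.span ℝ (Λ.map j.toIntLinearMap : Set F)) (h0 : y ≠ 0)
    (h : ∀ z ∈ Λ.map j.toIntLinearMap, ∃ k : ℤ, inner ℝ y z = k) :
    ∃ φ : V →ₗ[ℚ] ℚ, φ ≠ 0 ∧ (∀ z ∈ Λ, ∃ k : ℤ, φ z = k) ∧ ∀ z, (φ z : ℝ) = inner ℝ y (j z) := by
  have h1 : ∀ v, ∃ q : ℚ, (q : ℝ) = inner ℝ y (j v) := fun v => by
    have hv : v ∈ Submodule.span ℚ (Λ : Set V) := hΛ ▸ Submodule.mem_top
    induction hv using Submodule.span_induction with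
    | mem x hx =>
      obtain ⟨k, hk⟩ := h _ ⟨x, hx, rfl⟩
      exact ⟨k, (Rat.cast_intCast k).trans hk.symm⟩
    | zero => exact ⟨0, by simp⟩
    | add x z _ _ hx hz =>
      obtain ⟨a, ha⟩ := hx
      obtain ⟨c, hc⟩ := hz
      exact ⟨a + c, by rw [map_add, inner_add_right, Rat.cast_add, ha, hc]⟩
    | smul q x _ hx =>
      obtain ⟨a, ha⟩ := hx
      exact ⟨q * a, by rw [smul_Bri, real_inner_smul_right, Rat.cast_mul, ha]⟩
  choose φ hφ using h1
  refine ⟨(AddMonoidHom.mk' φ fun a c => Rat.cast_injective (α := ℝ) (by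
    rw [Rat.cast_add, hφ, hφ, hφ, map_add, inner_add_right])).toRatLinearMap, fun e => h0 ?_,
    fun z hz => ?_, hφ⟩
  · have h2 : Submodule.span ℝ (Λ.map j.toIntLinearMap : Set F) ≤ LinearMap.ker (innerₗ F y) := by
      rw [Submodule.span_le]
      rintro _ ⟨x, -, rfl⟩
      have h3 : φ x = 0 := LinearMap.congr_fun e x
      exact (hφ x).symm.trans (by rw [h3, Rat.cast_zero])
    exact inner_self_eq_zero.1 (h2 hy)
  · obtain ⟨k, hk⟩ := h _ ⟨z, hz, rfl⟩
    exact ⟨k, Rat.cast_injective (α := ℝ) ((hφ z).trans (hk.trans (Rat.cast_intCast k).symm))⟩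

lemma rank_Bri (b : Basis κ ℚ V) (hj : LinearIndependent ℝ fun k => j (b k)) {Λ : Submodule ℤ V}
    (hΛ : Submodule.span ℚ (Λ : Set V) = ⊤) :
    finrank ℝ (Submodule.span ℝ (Λ.map j.toIntLinearMap : Set F)) = Fintype.card κ ∧
      finrank ℤ (Λ.map j.toIntLinearMap) ≤ Fintype.card κ := by
  constructor
  · rw [← finrank_span_eq_card hj]
    have e : Submodule.span ℝ (Λ.map j.toIntLinearMap : Set F) =
        Submodule.span ℝ (Set.range fun k => j (b k)) := by
      refine le_antisymm (Submodule.span_le.2 ?_) (Submodule.span_le.2 ?_)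
      · rintro _ ⟨x, -, rfl⟩
        refine mem_Bri j b.span_eq ?_ x
        rintro _ ⟨k, rfl⟩
        exact Submodule.subset_span ⟨k, rfl⟩
      · rintro _ ⟨k, rfl⟩
        refine mem_Bri j hΛ (fun x hx => Submodule.subset_span ?_) _
        exact ⟨x, hx, rfl⟩
    rw [e]
  · refine finrank_le_of_rank_le ((rank_map_le _ _).trans ((Submodule.rank_le _).trans_eq ?_))
    rw [← IsLocalization.rank_eq ℚ (nonZeroDivisors ℤ) le_rfl, rank_eq_card_basis b]

end

theorem bri_st (h1 : MP_st) (h2 : LLS_st) : BRI_st := by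
  intro V κ ι _ _ _ _ b c Λ hc hfg hΛ
  obtain ⟨j, hj⟩ : ∃ j : V →+ PiLp 2 fun _ : ι => ℂ, ∀ v, j v = WithLp.toLp 2 (c v) :=
    ⟨AddMonoidHom.mk' (fun v => WithLp.toLp 2 (c v)) fun a a' => by rw [map_add]; rfl,
      fun _ => rfl⟩
  have hi : LinearIndependent ℝ fun k => j (b k) := by
    simp only [hj]
    exact hc.map' (WithLp.linearEquiv 2 ℝ (ι → ℂ)).symm.toLinearMap (LinearEquiv.ker _)
  obtain ⟨r1, r2⟩ := rank_Bri j b hi hΛ
  have e1 : ∀ (y : PiLp 2 fun _ : ι => ℂ) z,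
      inner ℝ y (j z) = (∑ i, starRingEnd ℂ (y i) * c z i).re := fun y z => by
    rw [PiLp.inner_apply, Complex.re_sum, hj]
    exact Finset.sum_congr rfl fun i _ => by rw [Complex.inner, mul_comm]
  have e2 : ∀ y : PiLp 2 fun _ : ι => ℂ, ∑ i, ‖starRingEnd ℂ (y i)‖ ^ 2 = ‖y‖ ^ 2 := fun y => by
    simp only [Complex.norm_conj, PiLp.norm_sq_eq_of_L2]
  refine ⟨fun _ => ?_, fun μ hμ h => ?_⟩
  · obtain ⟨_, ⟨x, hx, rfl⟩, x0, y, hy, y0, h3, h4⟩ := h1 _ _ _ (hfg.map _) r1 r2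
      Fintype.card_ne_zero
    obtain ⟨φ, f0, f1, f2⟩ := dual_Bri j hΛ hy y0 h3
    refine ⟨x, hx, fun e => x0 (by rw [e, map_zero]), φ, f0, f1, fun i => starRingEnd ℂ (y i),
      fun z => (f2 z).trans (e1 y z), ?_⟩
    have e3 : ∑ i, ‖c x i‖ ^ 2 = ‖j x‖ ^ 2 := by rw [hj, PiLp.norm_sq_eq_of_L2]
    rw [e2, e3, ← mul_pow, mul_comm]
    exact pow_le_pow_left₀ (by positivity) h4 2
  have h3 := h2 _ _ _ μ (hfg.map _) r1 r2 hμ fun y hy y0 h3 => by
    obtain ⟨φ, f0, f1, f2⟩ := dual_Bri j hΛ hy y0 h3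
    have := h φ _ f0 f1 fun z => (f2 z).trans (e1 y z)
    rw [e2] at this
    exact le_of_sq_le_sq this (norm_nonneg y)
  have e3 : ∀ x i, ‖c x i‖ ≤ ‖j x‖ := fun x i => by
    have := PiLp.norm_apply_le (j x) i
    rwa [hj] at this ⊢
  by_contra hne
  obtain ⟨ψ, p0, p1⟩ := Submodule.exists_dual_map_eq_bot_of_lt_top (lt_top_iff_ne_top.2 hne)
    inferInstance
  obtain ⟨Ψ, hΨ⟩ := ext_Bri j b hi ψ
  have h4 := h3.trans (Submodule.span_le (p := LinearMap.ker Ψ).2 (by
    rintro _ ⟨⟨x, hx, rfl⟩, h5⟩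
    have h6 : ψ x = 0 := (Submodule.eq_bot_iff _).1 p1 _ ⟨x, Submodule.subset_span ⟨hx, fun i =>
      le_trans (e3 x i) h5⟩, rfl⟩
    exact (hΨ x).trans (by rw [h6, Rat.cast_zero])))
  refine p0 (LinearMap.ext_on hΛ fun x hx => Rat.cast_injective (α := ℝ) ?_)
  rw [← hΨ, LinearMap.zero_apply, Rat.cast_zero]
  exact h4 ⟨x, hx, rfl⟩

end Pool.Agent.MP_e23604_nt.L

end

section

/-!
Counting admissible cocycles.
-/

open Matrix Module
open scoped Classical

namespace Pool.Agent.MP_e23604_nt.L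

open B

theorem fix_Cnt {p : ℕ} {M : Type} [AddCommGroup M] [Fintype M] {ρ : GQ → M →+ M} {e : M → M → Qb}
    {ξ : GQ → M} (h : Dat p ρ e) {f f' a : M → Qb} (hf : Eqv ρ e 0 f) (hf' : Eqv ρ e 0 f')
    (ha : Eqv ρ e ξ a) (σ : GQ) :
    σ (∑ S, ∑ T, f S * f' T * (a S * a T * a (-S - T))) =
      ∑ S, ∑ T, f S * f' T * (a S * a T * a (-S - T)) := by
  rw [map_sum, ← (h.bij σ).sum_comp fun S => ∑ T, f S * f' T * (a S * a T * a (-S - T))]
  refine Finset.sum_congr rfl fun S _ => ?_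
  rw [map_sum, ← (h.bij σ).sum_comp fun T =>
    f (ρ σ S) * f' T * (a (ρ σ S) * a T * a (-ρ σ S - T))]
  refine Finset.sum_congr rfl fun T _ => ?_
  have e1 : e (ξ σ) (ρ σ S) * e (ξ σ) (ρ σ T) * e (ξ σ) (-ρ σ S - ρ σ T) = 1 := by
    rw [← h.addr, ← h.addr, show ρ σ S + ρ σ T + (-ρ σ S - ρ σ T) = 0 by abel, h.toPair.zero_r]
  simp only [map_mul]
  rw [hf σ S, hf' σ T, ha σ S, ha σ T, ha σ (-S - T), map_sub, map_neg, Pi.zero_apply,
    h.toPair.zero_l, h.toPair.zero_l]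
  linear_combination (f (ρ σ S) * f' (ρ σ T) * (a (ρ σ S) * a (ρ σ T) * a (-ρ σ S - ρ σ T))) * e1

theorem val_Cnt {p m : ℕ} {M : Type} [AddCommGroup M] [Fintype M] {ρ : GQ → M →+ M}
    {e : M → M → Qb} {ξ : GQ → M} (h : Dat p ρ e) (hm : m ≠ 0) (ι : Qb →+* ℂ) {f f' a : M → Qb}
    (hf : Eqv ρ e 0 f) (hf' : Eqv ρ e 0 f') (ha : Eqv ρ e ξ a)
    (bf : ∀ T, IsIntegral ℤ (f T) ∧ ‖ι (f T)‖ ≤ 3 * p ^ 5 * m)
    (bf' : ∀ T, IsIntegral ℤ (f' T) ∧ ‖ι (f' T)‖ ≤ 3 * p ^ 5 * m)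
    (ba : ∀ T, IsIntegral ℤ ((m : Qb) * a T) ∧ ‖ι (a T)‖ ≤ 3 * p ^ 12 * m) :
    ∃ k ∈ Finset.Icc (-((243 * (p ^ 50 * m ^ 8) : ℕ) : ℤ)) ((243 * (p ^ 50 * m ^ 8) : ℕ) : ℤ),
      (k : ℂ) / (m : ℂ) ^ 3 =
        ∑ S, ∑ T, ι (f S) * ι (f' T) * (ι (a S) * ι (a T) * ι (a (-S - T))) := by
  obtain ⟨q, hq⟩ := fixed_rat (fix_Cnt h hf hf' ha)
  have hi : IsIntegral ℤ ((m : Qb) ^ 3 * ∑ S, ∑ T, f S * f' T * (a S * a T * a (-S - T))) := by
    rw [Finset.mul_sum]
    refine IsIntegral.sum _ fun S _ => ?_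
    rw [Finset.mul_sum]
    refine IsIntegral.sum _ fun T _ => ?_
    rw [show (m : Qb) ^ 3 * (f S * f' T * (a S * a T * a (-S - T))) =
      f S * f' T * ((m * a S) * (m * a T) * (m * a (-S - T))) by ring]
    exact ((bf S).1.mul (bf' T).1).mul (((ba S).1.mul (ba T).1).mul (ba _).1)
  have hi2 : IsIntegral ℤ ((m : ℚ) ^ 3 * q) := by
    rw [← isIntegral_algebraMap_iff (algebraMap ℚ Qb).injective]
    rw [hq] at hi
    simpa using hi
  obtain ⟨k, hk⟩ := IsIntegrallyClosed.isIntegral_iff.mp hi2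
  have hm' : (m : ℂ) ≠ 0 := Nat.cast_ne_zero.mpr hm
  have e1 : (q : ℂ) = ∑ S, ∑ T, ι (f S) * ι (f' T) * (ι (a S) * ι (a T) * ι (a (-S - T))) := by
    have := congrArg ι hq
    simp only [map_sum, map_mul, map_ratCast] at this
    exact this.symm
  have e2 : (k : ℂ) = (m : ℂ) ^ 3 * q := by
    have : (k : ℚ) = (m : ℚ) ^ 3 * q := hk
    exact_mod_cast congrArg (fun x : ℚ => (x : ℂ)) this
  have hc : (Fintype.card M : ℝ) = p ^ 2 := by
    rw [← Nat.card_eq_fintype_card, h.card]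
    push_cast
    rfl
  have hb : ‖(q : ℂ)‖ ≤ p ^ 2 * (p ^ 2 * ((3 * p ^ 5 * m) * (3 * p ^ 5 * m) *
      ((3 * p ^ 12 * m) * (3 * p ^ 12 * m) * (3 * p ^ 12 * m)))) := by
    rw [e1, ← hc, ← nsmul_eq_mul, ← Finset.card_univ]
    refine (norm_sum_le _ _).trans (Finset.sum_le_card_nsmul _ _ _ fun S _ => ?_)
    rw [← nsmul_eq_mul]
    refine (norm_sum_le _ _).trans (Finset.sum_le_card_nsmul _ _ _ fun T _ => ?_)
    simp only [norm_mul]
    have := (bf S).2
    have := (bf' T).2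
    have := (ba S).2
    have := (ba T).2
    have := (ba (-S - T)).2
    gcongr
  refine ⟨k, Finset.mem_Icc.mpr (abs_le.mp ?_), by rw [e2, ← e1, mul_div_cancel_left₀ _ (by positivity)]⟩
  have e3 : ((|k| : ℤ) : ℝ) = m ^ 3 * ‖(q : ℂ)‖ := by
    rw [Int.cast_abs, ← Complex.norm_intCast, e2, norm_mul, norm_pow, Complex.norm_natCast]
  have e4 : ((|k| : ℤ) : ℝ) ≤ (((243 * (p ^ 50 * m ^ 8) : ℕ) : ℤ) : ℝ) := by
    rw [e3]
    refine (mul_le_mul_of_nonneg_left hb (by positivity)).trans (le_of_eq ?_)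
    push_cast
    ring
  exact_mod_cast e4

theorem cnt_st (h1 : HEI_st) (h2 : SPL_st) (h3 : SMALL_st) (h4 : RK_st) (h5 : CUB_st) : CNT_st := by
  intro p m M _ ρ e X h hD hm hX
  have : Finite M := h.toPair.finite
  let _ : Fintype M := Fintype.ofFinite M
  have : Fact p.Prime := ⟨h.hp⟩
  let ι : Qb →+* ℂ := (IsAlgClosed.lift : Qb →ₐ[ℚ] ℂ).toRingHom
  have hn : Fintype.card (ZMod p) = p := ZMod.card p
  obtain ⟨B0, hB0⟩ := h2 p M ρ e 0 h (Adm.zero ρ)
  obtain ⟨f0, hf0⟩ := h3 p m M (ZMod p) ρ e 0 B0 ι h (Adm.zero ρ) hD hm hn hB0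
  have hli : LinearIndependent ℂ fun i => ι ∘ f0 i := by
    let _ : Algebra Qb ℂ := ι.toAlgebra
    exact (linearIndependent_algebraMap_comp_iff (R := Qb) (S := ℂ)).mpr f0.linearIndependent
  let f : Basis M ℂ (M → ℂ) := basisOfLinearIndependentOfCardEqFinrank' _ hli
    (Module.finrank_fintype_fun_eq_card ℂ).symm
  have hf : ∀ i T, f i T = ι (f0 i T) := fun i T => by
    simp only [f, coe_basisOfLinearIndependentOfCardEqFinrank', Function.comp_apply]
  have key : ∀ ξ : X, ∃ a : M → Qb, Eqv ρ e ξ a ∧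
      (∃ v φ : ZMod p → Qb, ∀ T, a T = φ ⬝ᵥ B0 T *ᵥ v) ∧ (∀ T, a T ≠ 0) ∧
      ∀ T, IsIntegral ℤ ((m : Qb) * a T) ∧ ‖ι (a T)‖ ≤ 3 * p ^ 12 * m := by
    rintro ⟨ξ, hξ⟩
    obtain ⟨B, hB⟩ := h2 p M ρ e ξ h (hX ξ hξ)
    obtain ⟨v, φ, a1, a2⟩ := h4 p m M (ZMod p) ρ e ξ B ι h (hX ξ hξ) hD hm hn hB
    obtain ⟨g, hg, hg'⟩ := (h1 Qb M (ZMod p) p e h.toPair hn).2 B B0 hB.1 hB0.1
    refine ⟨_, a1, ⟨g *ᵥ v, φ ᵥ* g⁻¹, fun T => ?_⟩, fun T => (a2 T).1, fun T => (a2 T).2⟩
    rw [← dotProduct_mulVec, mulVec_mulVec, mulVec_mulVec, Matrix.mul_assoc, ← hg',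
      ← Matrix.mul_assoc, Matrix.nonsing_inv_mul _ hg, Matrix.one_mul]
  choose a ha1 ha2 ha3 ha4 using key
  have hinj : Function.Injective fun ξ : X => ι ∘ a ξ := by
    intro ξ η hh
    have e1 : a ξ = a η := funext fun T => ι.injective (congrFun hh T)
    refine Subtype.ext (funext fun σ => sub_eq_zero.mp (h.toPair.nd' fun T => ?_))
    obtain ⟨T, rfl⟩ := (h.bij σ).2 T
    have e2 := ha1 ξ σ T
    rw [e1, ha1 η σ T] at e2
    rw [sub_eq_add_neg, h.addl, h.toPair.neg_l, ← mul_right_cancel₀ (ha3 η _) e2,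
      mul_inv_cancel₀ (h.toPair.ne _ _)]
  have hp3 := h.toPair.three_le
  have hx : 0 < p ^ 50 * m ^ 8 := by positivity
  have fin := h5 p (p ^ 56 * m ^ 8) M (ZMod p) (fun S T => ι (e S T)) (fun T => (B0 T).map ι) f
    ((Finset.Icc (-((243 * (p ^ 50 * m ^ 8) : ℕ) : ℤ)) ((243 * (p ^ 50 * m ^ 8) : ℕ) : ℤ)).image
      fun k : ℤ => (k : ℂ) / (m : ℂ) ^ 3)
    (Finset.univ.image fun ξ : X => ι ∘ a ξ) (h.toPair.map ι) hn (hB0.1.map ι) ?_ (by positivity) ?_
  · rw [Finset.card_image_of_injective _ hinj, Finset.card_univ, Fintype.card_coe] at fin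
    refine fin.trans (le_of_eq ?_)
    congr 1
    ring
  · refine Finset.card_image_le.trans ?_
    rw [Int.card_Icc]
    have e1 : 3 ^ 6 * (p ^ 50 * m ^ 8) ≤ p ^ 56 * m ^ 8 := by
      calc 3 ^ 6 * (p ^ 50 * m ^ 8) ≤ p ^ 6 * (p ^ 50 * m ^ 8) := by gcongr
        _ = p ^ 56 * m ^ 8 := by ring
    generalize p ^ 50 * m ^ 8 = x at hx e1
    omega
  · intro c hc
    obtain ⟨ξ, -, rfl⟩ := Finset.mem_image.mp hc
    obtain ⟨v, φ, hv⟩ := ha2 ξ
    refine ⟨⟨ι ∘ v, ι ∘ φ, fun T => ?_⟩, fun T => (map_ne_zero ι).mpr (ha3 ξ T), fun i j => ?_⟩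
    · rw [Function.comp_apply, hv, RingHom.map_dotProduct]
      congr 1
      exact funext fun i => RingHom.map_mulVec ι _ _ i
    · obtain ⟨k, hk, hk'⟩ := val_Cnt h hm ι (hf0 i).1 (hf0 j).1 (ha1 ξ) (hf0 i).2 (hf0 j).2 (ha4 ξ)
      refine Finset.mem_image.mpr ⟨k, hk, ?_⟩
      simp only [hf, Function.comp_apply]
      exact hk'

end Pool.Agent.MP_e23604_nt.L

end

section

open Matrix
open scoped Classical

namespace Pool.Agent.MP_e23604_nt.L

open B

section
variable {M n : Type} [Fintype n]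

/-- the coefficients of an element of rank one -/
def ev_Cub (U : M → Matrix n n ℂ) (z : n ⊕ n → ℂ) (T : M) : ℂ :=
  (fun k => z (.inr k)) ⬝ᵥ U T *ᵥ fun l => z (.inl l)

/-- the coefficients as polynomials -/
noncomputable def ap_Cub (U : M → Matrix n n ℂ) (T : M) : MvPolynomial (n ⊕ n) ℂ :=
  ∑ k, MvPolynomial.X (.inr k) * ∑ l, MvPolynomial.C (U T k l) * MvPolynomial.X (.inl l)

theorem eval_Cub (U : M → Matrix n n ℂ) (z : n ⊕ n → ℂ) (T : M) :
    MvPolynomial.eval z (ap_Cub U T) = ev_Cub U z T := by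
  simp only [ap_Cub, ev_Cub, map_sum, map_mul, MvPolynomial.eval_X, MvPolynomial.eval_C,
    dotProduct, mulVec]

theorem deg_Cub (U : M → Matrix n n ℂ) (T : M) : (ap_Cub U T).totalDegree ≤ 2 := by
  refine MvPolynomial.totalDegree_finsetSum_le fun k _ => (MvPolynomial.totalDegree_mul _ _).trans
    (add_le_add (b := 1) (d := 1) (MvPolynomial.totalDegree_X _).le
      (MvPolynomial.totalDegree_finsetSum_le fun l _ =>
        (MvPolynomial.totalDegree_mul _ _).trans ?_))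
  rw [MvPolynomial.totalDegree_C, MvPolynomial.totalDegree_X]

theorem der_Cub (U : M → Matrix n n ℂ) (z w : n ⊕ n → ℂ) (T : M) :
    HasDerivAt (fun t : ℂ => ev_Cub U (z + t • w) T)
      ((fun k => w (.inr k)) ⬝ᵥ U T *ᵥ (fun l => z (.inl l)) +
        (fun k => z (.inr k)) ⬝ᵥ U T *ᵥ fun l => w (.inl l)) 0 := by
  have h : ∀ i, HasDerivAt (fun t : ℂ => (z + t • w) i) (w i) 0 := fun i => by
    simpa using ((hasDerivAt_id (0 : ℂ)).mul_const (w i)).const_add (z i)
  have k := HasDerivAt.fun_sum (u := Finset.univ) fun k _ => (h (.inr k)).fun_mul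
    (HasDerivAt.fun_sum (u := Finset.univ) fun l _ => (h (.inl l)).const_mul (U T k l))
  simp only [zero_smul, add_zero, Finset.sum_add_distrib] at k
  exact k

theorem bas_Cub [Fintype M] (f : Module.Basis M ℂ (M → ℂ)) {g : M → ℂ}
    (h : ∀ i, ∑ S, f i S * g S = 0) (S : M) : g S = 0 := by
  have e : Fintype.linearCombination ℂ g = 0 := f.ext h
  have := LinearMap.congr_fun e (Pi.single S 1)
  rwa [Fintype.linearCombination_apply_single, one_smul] at this

theorem lam_Cub [AddCommGroup M] {p : ℕ} (hp : p ≠ 0) (ht : ∀ T : M, p • T = 0) {a b : M → ℂ}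
    (ha : ∀ T, a T ≠ 0)
    (h : ∀ S T, (b S * a T + a S * b T) * a (-S - T) + a S * a T * b (-S - T) = 0) (T : M) :
    b T = 0 := by
  have h1 : ∀ S T, b S / a S + b T / a T + b (-S - T) / a (-S - T) = 0 := fun S T => by
    have := ha S
    have := ha T
    have := ha (-S - T)
    field_simp
    linear_combination h S T
  have h0 : b 0 / a 0 = 0 := by
    have := h1 0 0
    rw [neg_zero, sub_zero] at this
    linear_combination this / 3
  let l : M →+ ℂ := AddMonoidHom.mk' (fun S => b S / a S) fun S T => by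
    have e := h1 (S + T) 0
    rw [sub_zero, neg_add'] at e
    linear_combination e - h1 S T - h0
  have h2 : p • l T = 0 := by rw [← map_nsmul, ht, map_zero]
  exact (div_eq_zero_iff.1 ((nsmul_eq_zero_iff.1 h2).resolve_right hp)).resolve_right (ha T)

end

theorem num_Cub {p N : ℕ} (h : 3 ≤ p) :
    ((p ^ 2 * p ^ 2 + 1) * N * ((p + p) * 6 + 1)) ^ (p + p) * p ≤ (p ^ 10 * N) ^ (2 * p) := by
  have h3 : 27 ≤ p ^ 3 := Nat.pow_le_pow_left h 3
  have h4 : 1 ≤ p ^ 4 := Nat.one_le_pow _ _ (by omega)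
  have a1 : p ^ 2 * p ^ 2 + 1 ≤ p ^ 5 := by nlinarith
  have a2 : (p + p) * 6 + 1 ≤ p ^ 4 := by nlinarith
  calc _ ≤ (p ^ 5 * N * p ^ 4) ^ (p + p) * p ^ (p + p) :=
        Nat.mul_le_mul (Nat.pow_le_pow_left (Nat.mul_le_mul (Nat.mul_le_mul_right N a1) a2) _)
          (Nat.le_self_pow (by omega) p)
    _ = _ := by
      rw [← mul_pow, two_mul]
      congr 1
      ring

theorem cub_st (h1 : HEI_st) (h2 : BEZ2_st) : CUB_st := by
  intro p N M n _ _ _ _ e U f Y A he hn hU hY hN hA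
  have p3 := he.three_le
  have hM : Fintype.card M = p ^ 2 := Nat.card_eq_fintype_card.symm.trans he.card
  have : Nonempty n := Fintype.card_pos_iff.1 (by omega)
  have ex : ∀ a ∈ A, ∃ (j : n) (z : n ⊕ n → ℂ), z (.inr j) = 1 ∧ ev_Cub U z = a := by
    intro a ha
    obtain ⟨⟨v, φ, h⟩, h0, -⟩ := hA a ha
    have hφ : φ ≠ 0 := fun e => h0 0 (by rw [h, e, zero_dotProduct])
    obtain ⟨j, hj⟩ : ∃ j, φ j ≠ 0 := Function.ne_iff.1 hφ
    refine ⟨j, Sum.elim (φ j • v) ((φ j)⁻¹ • φ), inv_mul_cancel₀ hj, funext fun T => ?_⟩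
    change ((φ j)⁻¹ • φ) ⬝ᵥ U T *ᵥ (φ j • v) = _
    rw [mulVec_smul, smul_dotProduct, dotProduct_smul, inv_smul_smul₀ hj, h]
  choose! j z z1 z2 using ex
  refine le_trans (Finset.card_le_mul_card_image_of_maps_to (f := j) (t := Finset.univ)
    (fun _ _ => Finset.mem_univ _) _ fun j₀ _ => ?_) (by
      rw [Finset.card_univ, hn]
      exact num_Cub p3)
  rw [← Finset.card_image_of_injOn (f := z) fun a ha b hb e => by
    rw [← z2 a (Finset.mem_filter.1 ha).1, e, z2 b (Finset.mem_filter.1 hb).1]]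
  have key := h2 (n ⊕ n) (Option (M × M))
    (fun o => o.elim (MvPolynomial.X (.inr j₀)) fun s => ∑ S, ∑ T,
      MvPolynomial.C (f s.1 S * f s.2 T) * (ap_Cub U S * ap_Cub U T * ap_Cub U (-S - T))) 6 N
    (fun o => o.elim {1} fun _ => Y) ((A.filter fun a => j a = j₀).image z) ?_ ?_ ?_ ?_
  · rwa [Fintype.card_option, Fintype.card_prod, Fintype.card_sum, hM, hn] at key
  · rintro (_ | s)
    · exact (MvPolynomial.totalDegree_X _).le.trans (by norm_num)
    · refine MvPolynomial.totalDegree_finsetSum_le fun S _ =>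
        MvPolynomial.totalDegree_finsetSum_le fun T _ => (MvPolynomial.totalDegree_mul _ _).trans ?_
      rw [MvPolynomial.totalDegree_C, zero_add]
      exact (MvPolynomial.totalDegree_mul _ _).trans (add_le_add
        ((MvPolynomial.totalDegree_mul _ _).trans (add_le_add (deg_Cub U _) (deg_Cub U _)))
          (deg_Cub U _))
  · rintro (_ | s)
    · exact (Finset.card_singleton _).le.trans (Nat.one_le_iff_ne_zero.2 hN)
    · exact hY
  · intro y hy
    obtain ⟨a, ha, rfl⟩ := Finset.mem_image.1 hy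
    obtain ⟨a1, rfl⟩ := Finset.mem_filter.1 ha
    rintro (_ | s)
    · exact Finset.mem_singleton.2 ((MvPolynomial.eval_X _).trans (z1 a a1))
    · simp only [Option.elim_some, map_sum, map_mul, MvPolynomial.eval_C, eval_Cub, z2 a a1]
      exact (hA a a1).2.2 s.1 s.2
  · intro y hy w hw
    obtain ⟨a, ha, rfl⟩ := Finset.mem_image.1 hy
    obtain ⟨a1, rfl⟩ := Finset.mem_filter.1 ha
    have h0 := (hA a a1).2.1
    have w0 : w (.inr (j a)) = 0 := by
      have k := hw none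
      simp only [Option.elim_none, MvPolynomial.eval_X] at k
      refine HasDerivAt.unique ?_ k
      simpa using ((hasDerivAt_id (0 : ℂ)).mul_const (w (.inr (j a)))).const_add (z a (.inr (j a)))
    obtain ⟨b, hb⟩ : ∃ b : M → ℂ, ∀ T, b T =
        (fun k => w (.inr k)) ⬝ᵥ U T *ᵥ (fun l => z a (.inl l)) +
          (fun k => z a (.inr k)) ⬝ᵥ U T *ᵥ fun l => w (.inl l) := ⟨_, fun _ => rfl⟩
    have d : ∀ T, HasDerivAt (fun t : ℂ => ev_Cub U (z a + t • w) T) (b T) 0 := fun T =>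
      hb T ▸ der_Cub U (z a) w T
    have b0 : ∀ T, b T = 0 := lam_Cub (by omega) he.tor h0 fun S T => by
      refine bas_Cub f (fun i' => bas_Cub f (g := fun S => ∑ T, f i' T *
        ((b S * a T + a S * b T) * a (-S - T) + a S * a T * b (-S - T))) (fun i => ?_) S) T
      have k := hw (some (i, i'))
      simp only [Option.elim_some, map_sum, map_mul, MvPolynomial.eval_C, eval_Cub] at k
      have k' := HasDerivAt.fun_sum (u := Finset.univ) fun S _ =>
        HasDerivAt.fun_sum (u := Finset.univ) fun T _ =>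
          (((d S).fun_mul (d T)).fun_mul (d (-S - T))).const_mul (f i S * f i' T)
      have k2 := k'.unique k
      simp only [zero_smul, add_zero, z2 a a1] at k2
      simp only [Finset.mul_sum, ← mul_assoc (f i _)]
      exact k2
    have hX := ((h1 ℂ M n p e he hn).1 U hU).2.1
      (vecMulVec (fun l => z a (.inl l)) (fun k => w (.inr k)) +
        vecMulVec (fun l => w (.inl l)) fun k => z a (.inr k))
    rw [Finset.sum_eq_zero fun T _ => by
      rw [Matrix.mul_add, trace_add, mul_vecMulVec, mul_vecMulVec, trace_vecMulVec,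
        trace_vecMulVec, dotProduct_comm, dotProduct_comm (U T *ᵥ _), ← hb, b0, zero_smul],
      eq_comm, smul_eq_zero_iff_right (Nat.cast_ne_zero.2 he.hp.ne_zero)] at hX
    have x1 : ∀ l k, z a (.inl l) * w (.inr k) + w (.inl l) * z a (.inr k) = 0 := fun l k =>
      congrFun (congrFun hX l) k
    have w1 : ∀ l, w (.inl l) = 0 := fun l => by
      have := x1 l (j a)
      rwa [w0, z1 a a1, mul_zero, zero_add, mul_one] at this
    have hv : (fun l => z a (.inl l)) ≠ 0 := fun e => h0 0 ((congrFun (z2 a a1) 0).symm.trans (by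
      rw [ev_Cub, e, mulVec_zero, dotProduct_zero]))
    obtain ⟨l, hl⟩ : ∃ l, z a (.inl l) ≠ 0 := Function.ne_iff.1 hv
    funext i
    rcases i with i | i
    · exact w1 i
    · have := x1 l i
      rw [w1, zero_mul, add_zero] at this
      exact (mul_eq_zero.1 this).resolve_left hl

end Pool.Agent.MP_e23604_nt.L

end

section

open Matrix Filter Topology
open scoped Classical

namespace Pool.Agent.MP_e23604_nt.L

open B

variable {M n : Type} [AddCommGroup M] [Fintype n] [DecidableEq n] {p : ℕ}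
  {ρ : GQ → M →+ M} {e : M → M → Qb} {ξ : GQ → M} {U : M → Matrix n n Qb}

omit [DecidableEq n] in
lemma mul_Gas (σ : GQ) (A B : Matrix n n Qb) : (A * B).map σ = A.map σ * B.map σ :=
  Matrix.map_mul (f := (σ : Qb →+* Qb))

omit [Fintype n] [DecidableEq n] in
lemma smul_Gas (σ : GQ) (c : Qb) (A : Matrix n n Qb) : (c • A).map σ = σ c • A.map σ := by
  ext i j
  simp

omit [Fintype n] [DecidableEq n] in
lemma comp_Gas (σ τ : GQ) (A : Matrix n n Qb) : (A.map τ).map σ = A.map (σ * τ : GQ) := rfl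

lemma det_Gas (σ : GQ) (A : Matrix n n Qb) : (A.map σ).det = σ A.det :=
  (RingHom.map_det (σ : Qb →+* Qb) A).symm

lemma canc_Gas [Nonempty n] {A : Matrix n n Qb} (hA : A.det ≠ 0) {c c' : Qb}
    (h : c • A = c' • A) : c = c' := by
  refine smul_left_injective Qb (fun h0 => hA ?_) h
  rw [h0, det_zero]

omit [DecidableEq n] in
lemma itw_mul_Gas (D : Dat p ρ e) (hξ : ∀ σ τ, ξ (σ * τ) = ξ σ + ρ σ (ξ τ)) {σ τ : GQ}
    {g g' : Matrix n n Qb} (h : Itw ρ e ξ U σ g) (h' : Itw ρ e ξ U τ g') :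
    Itw ρ e ξ U (σ * τ) (g * g'.map σ) := by
  intro T
  rw [← comp_Gas, Matrix.mul_assoc, ← mul_Gas, h' T, smul_Gas, mul_Gas, Matrix.mul_smul,
    ← Matrix.mul_assoc, h (ρ τ T), Matrix.smul_mul, smul_smul, D.chi hξ, ← D.mul,
    Matrix.mul_assoc, mul_comm]

omit [DecidableEq n] in
lemma itw_smul_Gas {σ : GQ} {g : Matrix n n Qb} (h : Itw ρ e ξ U σ g) (c : Qb) :
    Itw ρ e ξ U σ (c • g) := by
  intro T
  rw [Matrix.smul_mul, h T, Matrix.mul_smul, smul_comm]

lemma ex_Gas (h : HEI_st) (D : Dat p ρ e) (hn : Fintype.card n = p) (hU : Heis e U) (σ : GQ) :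
    ∃ g : Matrix n n Qb, g.det ≠ 0 ∧ Itw ρ e ξ U σ g := by
  have := D.toPair.finite
  let _ : Fintype M := Fintype.ofFinite M
  obtain ⟨g, h1, h2⟩ := (h Qb M n p _ (D.toPair.map (σ : Qb →+* Qb)) hn).2 _
    (fun T => e (ξ σ) (ρ σ T) • U (ρ σ T)) (hU.map (σ : Qb →+* Qb)) ⟨by
      rw [map_zero, D.toPair.zero_r, hU.zero, one_smul], fun S T => by
      have e1 : (σ : Qb →+* Qb) (e S T) = e (ρ σ S) (ρ σ T) := D.eqv σ S T
      rw [Matrix.smul_mul, Matrix.mul_smul, hU.mul, e1, map_add, D.addr, smul_smul, smul_smul,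
        smul_smul, mul_comm]⟩
  exact ⟨g, h1.ne_zero, fun T => (h2 T).trans (Matrix.smul_mul _ _ _)⟩

lemma schur_Gas (h : HEI_st) (D : Dat p ρ e) (hn : Fintype.card n = p) (hU : Heis e U) {σ : GQ}
    {g g' : Matrix n n Qb} (h1 : Itw ρ e ξ U σ g) (h2 : Itw ρ e ξ U σ g') (hd : g'.det ≠ 0) :
    ∃ c : Qb, g = c • g' := by
  have := D.toPair.finite
  let _ : Fintype M := Fintype.ofFinite M
  have hu : IsUnit g'.det := hd.isUnit
  obtain ⟨c, hc⟩ := ((h Qb M n p e D.toPair hn).1 U hU).2.2 (g * g'⁻¹) fun T' => by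
    obtain ⟨T, rfl⟩ := (D.bij σ).2 T'
    have e1 : g * g'⁻¹ * (g' * (U T).map σ) * g'⁻¹ = g * (U T).map σ * g'⁻¹ := by
      rw [Matrix.mul_assoc g, Matrix.nonsing_inv_mul_cancel_left _ _ hu]
    rw [h1 T, h2 T, Matrix.mul_smul, Matrix.smul_mul, Matrix.smul_mul, ← Matrix.mul_assoc,
      Matrix.mul_nonsing_inv_cancel_right _ _ hu, Matrix.mul_assoc (U _)] at e1
    exact smul_right_injective _ (D.toPair.ne _ _) e1
  refine ⟨c, ?_⟩
  rw [← Matrix.nonsing_inv_mul_cancel_right g' g hu, hc, Matrix.smul_mul, Matrix.one_mul]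

/-- a projective extension of the cocycle to the whole group -/
lemma ext_Gas (h : HEI_st) (D : Dat p ρ e) (hn : Fintype.card n = p)
    (hξ : ∀ σ τ, ξ (σ * τ) = ξ σ + ρ σ (ξ τ)) {H : Subgroup GQ} (hH : IsOpen (H : Set GQ))
    (hU : Heis e U) {s : GQ → Matrix n n Qb} (hs : IsLocallyConstant s) (h1 : s 1 = 1)
    (hm : ∀ σ ∈ H, ∀ τ ∈ H, s (σ * τ) = s σ * (s τ).map σ) (hi : ∀ σ ∈ H, Itw ρ e ξ U σ (s σ)) :
    ∃ x : GQ → Matrix n n Qb, IsLocallyConstant x ∧ (∀ σ, (x σ).det ≠ 0) ∧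
      (∀ σ, Itw ρ e ξ U σ (x σ)) ∧ ∀ σ, ∀ τ ∈ H, x (σ * τ) = x σ * (s τ).map σ := by
  choose G hG hG' using ex_Gas (ξ := ξ) h D hn hU
  obtain ⟨r, hr, hr'⟩ : ∃ r : GQ → GQ, (∀ σ, (r σ)⁻¹ * σ ∈ H) ∧ ∀ σ, ∀ τ ∈ H, r (σ * τ) = r σ :=
    ⟨fun σ => (QuotientGroup.mk σ : GQ ⧸ H).out,
      fun σ => QuotientGroup.eq.1 (QuotientGroup.out_eq' _),
      fun σ τ hτ => congrArg Quotient.out (QuotientGroup.mk_mul_of_mem σ hτ)⟩
  have hd : ∀ σ ∈ H, (s σ).det ≠ 0 := fun σ hσ => by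
    have h2 := hm σ hσ σ⁻¹ (H.inv_mem hσ)
    rw [mul_inv_cancel, h1] at h2
    exact (Matrix.isUnit_det_of_right_inverse h2.symm).ne_zero
  have hx : ∀ σ, ∀ τ ∈ H, G (r (σ * τ)) * (s ((r (σ * τ))⁻¹ * (σ * τ))).map (r (σ * τ)) =
      G (r σ) * (s ((r σ)⁻¹ * σ)).map (r σ) * (s τ).map σ := fun σ τ hτ => by
    rw [hr' σ τ hτ, ← mul_assoc (r σ)⁻¹, hm _ (hr σ) τ hτ, mul_Gas, comp_Gas, mul_inv_cancel_left,
      Matrix.mul_assoc]
  refine ⟨fun σ => G (r σ) * (s ((r σ)⁻¹ * σ)).map (r σ), ?_, fun σ => ?_, fun σ => ?_, hx⟩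
  · refine (IsLocallyConstant.iff_eventually_eq _).2 fun σ => ?_
    have hc : Tendsto (fun τ : GQ => σ⁻¹ * τ) (𝓝 σ) (𝓝 1) := by
      have h2 : Continuous fun τ : GQ => σ⁻¹ * τ := by fun_prop
      have h3 := h2.tendsto σ
      rwa [inv_mul_cancel] at h3
    filter_upwards [hc.eventually (hH.mem_nhds H.one_mem), hc.eventually (hs.eventually_eq 1)]
      with τ a1 a2
    have h2 := hx σ _ a1
    rwa [mul_inv_cancel_left, a2, h1, Matrix.map_one _ (map_zero σ) (map_one σ),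
      Matrix.mul_one] at h2
  · rw [det_mul, det_Gas]
    exact mul_ne_zero (hG _) ((map_ne_zero _).2 (hd _ (hr σ)))
  · have h2 := itw_mul_Gas D hξ (hG' (r σ)) (hi _ (hr σ))
    rwa [mul_inv_cancel_left] at h2

/-- the transfer argument for the scalar cocycle -/
lemma tra_Gas {H : Subgroup GQ} (hp : p.Prime) (hH : ¬ p ∣ H.index) {η : GQ → GQ → Qb}
    {d : GQ → Qb} (h0 : ∀ σ τ, η σ τ ≠ 0) (hd0 : ∀ σ, d σ ≠ 0)
    (hl : ∀ τ, IsLocallyConstant fun σ => η σ τ) (hdl : IsLocallyConstant d)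
    (hr : ∀ σ τ, ∀ υ ∈ H, η σ (τ * υ) = η σ τ)
    (hc : ∀ σ τ υ : GQ, η σ τ * η (σ * τ) υ = σ (η τ υ) * η σ (τ * υ))
    (hd : ∀ σ τ : GQ, d σ * σ (d τ) = η σ τ ^ p * d (σ * τ)) :
    ∃ c : GQ → Qb, IsLocallyConstant c ∧ (∀ σ, c σ ≠ 0) ∧
      ∀ σ τ : GQ, c σ * σ (c τ) = η σ τ * c (σ * τ) := by
  have hf : Finite (GQ ⧸ H) := Nat.finite_of_card_ne_zero fun h => hH (by
    rw [Subgroup.index, h]
    exact dvd_zero p)
  let _ : Fintype (GQ ⧸ H) := Fintype.ofFinite _
  obtain ⟨a, a', ha⟩ : IsCoprime (H.index : ℤ) (p : ℤ) :=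
    Nat.isCoprime_iff_coprime.2 ((Nat.Prime.coprime_iff_not_dvd hp).2 hH).symm
  have hb : ∀ σ τ : GQ, (∏ c : GQ ⧸ H, η σ c.out) * σ (∏ c : GQ ⧸ H, η τ c.out) =
      η σ τ ^ H.index * ∏ c : GQ ⧸ H, η (σ * τ) c.out := fun σ τ => by
    have e1 : ∏ c : GQ ⧸ H, η σ c.out = ∏ c : GQ ⧸ H, η σ (τ * c.out) := by
      refine (Fintype.prod_equiv (MulAction.toPerm τ) _ _ fun c => ?_).symm
      have h1 : ((τ • c).out)⁻¹ * (τ * c.out) ∈ H := QuotientGroup.eq.1 (by
        rw [QuotientGroup.out_eq']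
        exact (MulAction.Quotient.mk_smul_out H τ c).symm)
      have h2 := hr σ (τ • c).out _ h1
      rwa [mul_inv_cancel_left] at h2
    rw [e1, map_prod, ← Finset.prod_mul_distrib, Subgroup.index, Nat.card_eq_fintype_card,
      ← Finset.card_univ, ← Finset.prod_const, ← Finset.prod_mul_distrib]
    exact Finset.prod_congr rfl fun c _ => by rw [hc, mul_comm]
  have hb0 : ∀ σ, ∏ c : GQ ⧸ H, η σ c.out ≠ 0 := fun σ =>
    Finset.prod_ne_zero_iff.2 fun c _ => h0 _ _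
  refine ⟨fun σ => (∏ c : GQ ⧸ H, η σ c.out) ^ a * d σ ^ a', ?_, fun σ =>
    mul_ne_zero (zpow_ne_zero _ (hb0 σ)) (zpow_ne_zero _ (hd0 σ)), fun σ τ => ?_⟩
  · refine (IsLocallyConstant.iff_eventually_eq _).2 fun σ => ?_
    filter_upwards [hdl.eventually_eq σ,
      eventually_all.2 fun c : GQ ⧸ H => (hl c.out).eventually_eq σ] with τ a1 a2
    rw [a1, Finset.prod_congr rfl fun c _ => a2 c]
  · have e1 : η σ τ = (η σ τ ^ H.index) ^ a * (η σ τ ^ p) ^ a' := by
      rw [← _root_.zpow_natCast, ← _root_.zpow_natCast,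
        ← _root_.zpow_mul, ← _root_.zpow_mul, ← zpow_add₀ (h0 σ τ),
        mul_comm _ a, mul_comm _ a', ha, zpow_one]
    rw [map_mul, map_zpow₀, map_zpow₀, mul_mul_mul_comm, ← mul_zpow, ← mul_zpow, hb, hd,
      mul_zpow, mul_zpow, mul_mul_mul_comm, ← e1]

theorem gas_st (h : HEI_st) : GAS_st := by
  intro p M n _ _ _ ρ e ξ H U s D hn hξ hH hp hU hs h1 hm hi
  have : Nonempty n := Fintype.card_pos_iff.1 (hn ▸ D.hp.pos)
  obtain ⟨x, xl, xd, xi, xr⟩ := ext_Gas h D hn hξ hH hU hs h1 hm hi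
  choose η hη using fun σ τ => schur_Gas h D hn hU (itw_mul_Gas D hξ (xi σ) (xi τ)) (xi (σ * τ))
    (xd (σ * τ))
  have hd : ∀ σ τ : GQ, (x σ).det * σ (x τ).det = η σ τ ^ p * (x (σ * τ)).det := fun σ τ => by
    rw [← det_Gas, ← det_mul, hη, det_smul, hn]
  obtain ⟨c, cl, c0, hc⟩ := tra_Gas (η := η) (d := fun σ => (x σ).det) D.hp hp (fun σ τ h0 => by
      have h2 := hd σ τ
      rw [h0, zero_pow D.hp.ne_zero, zero_mul] at h2
      exact mul_ne_zero (xd σ) ((map_ne_zero σ).2 (xd τ)) h2) xd (fun τ => by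
      refine (IsLocallyConstant.iff_eventually_eq _).2 fun σ => ?_
      have hc : Continuous fun σ : GQ => σ * τ := by fun_prop
      filter_upwards [xl.eventually_eq σ, (xl.comp_continuous hc).eventually_eq σ,
        eventually_all.2 fun i => eventually_all.2 fun j =>
          (isLC_apply (x τ i j)).eventually_eq σ] with σ' a1 a2 a3
      have a4 : (x τ).map σ' = (x τ).map σ := Matrix.ext a3
      have a5 : x (σ' * τ) = x (σ * τ) := a2
      refine canc_Gas (xd (σ * τ)) ?_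
      rw [← hη, ← a5, ← hη, a1, a4]) (xl.comp Matrix.det) (fun σ τ υ hυ => by
      refine canc_Gas (xd (σ * (τ * υ))) ?_
      rw [← hη, xr τ υ hυ, mul_Gas, ← Matrix.mul_assoc, hη, comp_Gas, ← mul_assoc σ,
        xr _ υ hυ, Matrix.smul_mul]) (fun σ τ υ => by
      refine canc_Gas (xd (σ * τ * υ)) ?_
      rw [mul_smul, mul_smul, ← hη, mul_assoc σ, ← hη, ← Matrix.smul_mul, ← hη,
        ← Matrix.mul_smul, ← smul_Gas, ← hη, mul_Gas, comp_Gas, Matrix.mul_assoc]) hd
  have hg : ∀ σ τ : GQ, (c (σ * τ))⁻¹ • x (σ * τ) =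
      (c σ)⁻¹ • x σ * ((c τ)⁻¹ • x τ).map σ := fun σ τ => by
    rw [smul_Gas, Matrix.smul_mul, Matrix.mul_smul, hη, smul_smul, smul_smul, map_inv₀,
      ← mul_inv, hc]
    congr 1
    have h2 : η σ τ ≠ 0 := left_ne_zero_of_mul
      (hc σ τ ▸ mul_ne_zero (c0 σ) ((map_ne_zero σ).2 (c0 τ)))
    have h3 := c0 (σ * τ)
    field_simp
  refine ⟨fun σ => (c σ)⁻¹ • x σ, ?_, ?_, hg, fun σ => itw_smul_Gas (xi σ) _⟩
  · refine (IsLocallyConstant.iff_eventually_eq _).2 fun σ => ?_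
    filter_upwards [xl.eventually_eq σ, cl.eventually_eq σ] with τ a1 a2
    rw [a1, a2]
  · have h2 : (c (1 * 1))⁻¹ • x (1 * 1) = (c 1)⁻¹ • x 1 * ((c 1)⁻¹ • x 1) := hg 1 1
    rw [mul_one] at h2
    have hu : IsUnit ((c 1)⁻¹ • x 1).det := by
      rw [det_smul]
      exact (mul_ne_zero (pow_ne_zero _ (inv_ne_zero (c0 1))) (xd 1)).isUnit
    have h3 := Matrix.nonsing_inv_mul_cancel_left _ ((c 1)⁻¹ • x 1) hu
    rw [← h2, Matrix.nonsing_inv_mul _ hu] at h3
    exact h3.symm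

end Pool.Agent.MP_e23604_nt.L

end

section

/-!
Traces, inversion, uniqueness and Schur's lemma for projective representations.
-/

open Matrix
open scoped Classical

namespace Pool.Agent.MP_e23604_nt.L

open B

section

variable {K M n : Type} [Field K] [CharZero K] [AddCommGroup M] [Fintype M] [Fintype n]
  [DecidableEq n] {p : ℕ} {e : M → M → K} {B B' : M → Matrix n n K}

omit [CharZero K] [Fintype M] in
theorem trace_Hei (h : Pair p e) (hB : Heis e B) {T : M} (hT : T ≠ 0) : (B T).trace = 0 := by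
  by_contra h0
  refine hT (h.nd T fun S => h.eq_one_of_sq ?_)
  have e1 := Matrix.trace_mul_comm (B S) (B (-S + T))
  rw [hB.mul, hB.mul, add_neg_cancel_left, neg_add_cancel_comm, trace_smul, trace_smul,
    smul_eq_mul, smul_eq_mul, h.addr, h.addl, h.neg_self, h.neg_l, h.alt, inv_one, one_mul,
    one_mul] at e1
  have e2 := mul_right_cancel₀ h0 e1
  rw [sq]
  nth_rewrite 2 [e2]
  exact h.swap S T

omit [CharZero K] [Fintype M] in
theorem trace_mul_Hei (h : Pair p e) (hn : Fintype.card n = p) (hB : Heis e B) (T S : M) :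
    (B T * B S).trace = if S = -T then (p : K) else 0 := by
  by_cases hS : S = -T
  · rw [if_pos hS, hS, hB.neg h, trace_one, hn]
  · rw [if_neg hS, hB.mul, trace_smul, trace_Hei h hB, smul_zero]
    intro h0
    exact hS (eq_neg_of_add_eq_zero_right h0)

omit [CharZero K] in
theorem trace_sum_Hei (h : Pair p e) (hn : Fintype.card n = p) (hB : Heis e B) (c : M → K)
    (T : M) : (B T * ∑ S, c S • B S).trace = p * c (-T) := by
  rw [Finset.mul_sum, trace_sum, Finset.sum_eq_single (-T)]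
  · rw [mul_smul_comm, trace_smul, trace_mul_Hei h hn hB, if_pos rfl, smul_eq_mul, mul_comm]
  · intro S _ hS
    rw [mul_smul_comm, trace_smul, trace_mul_Hei h hn hB, if_neg hS, smul_zero]
  · intro hn
    exact absurd (Finset.mem_univ _) hn

theorem indep_Hei (h : Pair p e) (hn : Fintype.card n = p) (hB : Heis e B) :
    LinearIndependent K B := by
  rw [Fintype.linearIndependent_iff]
  intro c hc T
  have := trace_sum_Hei h hn hB c (-T)
  rw [hc, mul_zero, trace_zero, neg_neg] at this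
  exact (mul_eq_zero.mp this.symm).resolve_left (Nat.cast_ne_zero.mpr h.hp.ne_zero)

theorem span_Hei (h : Pair p e) (hn : Fintype.card n = p) (hB : Heis e B) (X : Matrix n n K) :
    ∃ c : M → K, ∑ S, c S • B S = X := by
  have : Nonempty M := ⟨0⟩
  have hc : Fintype.card M = Module.finrank K (Matrix n n K) := by
    rw [Module.finrank_matrix, Module.finrank_self, hn, ← Nat.card_eq_fintype_card, h.card]
    ring
  have := (indep_Hei h hn hB).span_eq_top_of_card_eq_finrank hc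
  exact (Submodule.mem_span_range_iff_exists_fun K).mp (this ▸ Submodule.mem_top)

theorem inv_Hei (h : Pair p e) (hn : Fintype.card n = p) (hB : Heis e B) (X : Matrix n n K) :
    ∑ T, (B T * X).trace • B (-T) = (p : K) • X := by
  obtain ⟨c, rfl⟩ := span_Hei h hn hB X
  rw [Finset.smul_sum, ← Equiv.sum_comp (Equiv.neg M) fun S => (p : K) • c S • B S]
  refine Finset.sum_congr rfl fun T _ => ?_
  rw [trace_sum_Hei h hn hB, mul_smul, Equiv.neg_apply]

theorem schur_Hei (h : Pair p e) (hn : Fintype.card n = p) (hB : Heis e B) (g : Matrix n n K)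
    (hg : ∀ T, g * B T = B T * g) : ∃ c : K, g = c • (1 : Matrix n n K) := by
  have hX : ∀ X : Matrix n n K, X * g = g * X := by
    intro X
    obtain ⟨c, rfl⟩ := span_Hei h hn hB X
    rw [Finset.sum_mul, Finset.mul_sum]
    refine Finset.sum_congr rfl fun T _ => ?_
    rw [smul_mul_assoc, mul_smul_comm, hg]
  obtain ⟨c, hc⟩ := Matrix.mem_range_scalar_of_commute_single (M := g) fun i j _ => hX _
  exact ⟨c, by rw [← hc, scalar_apply, smul_one_eq_diagonal]⟩

omit [CharZero K] in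
theorem itw_Hei (h : Pair p e) (hB : Heis e B) (hB' : Heis e B') (X : Matrix n n K) (S : M) :
    (∑ T, B' T * X * B (-T)) * B S = B' S * ∑ T, B' T * X * B (-T) := by
  rw [Finset.sum_mul, Finset.mul_sum,
    ← Equiv.sum_comp (Equiv.addLeft S) fun T => B' T * X * B (-T) * B S]
  refine Finset.sum_congr rfl fun T _ => ?_
  have e1 : -(S + T) + S = -T := by abel
  have e2 : e (-(S + T)) S = e S T := by
    rw [h.neg_l, h.addl, h.alt, one_mul, ← h.inv]
  rw [Equiv.coe_addLeft, mul_assoc _ (B _) (B S), hB.mul, e1, e2, ← mul_assoc (B' S),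
    ← mul_assoc (B' S), hB'.mul, mul_smul_comm, smul_mul_assoc, smul_mul_assoc]

omit [CharZero K] in
theorem ent_Hei (P Q : Matrix n n K) (i k l : n) :
    (P * single i k (1 : K) * Q : Matrix n n K) i l = P i i * Q k l := by
  rw [Matrix.mul_apply, Finset.sum_eq_single k]
  · rw [Matrix.mul_single_apply_same, mul_one]
  · intro j _ hj
    rw [Matrix.mul_single_apply_of_ne _ _ _ _ _ hj, zero_mul]
  · intro hn
    exact absurd (Finset.mem_univ _) hn

theorem ex_ne_Hei (h : Pair p e) (hn : Fintype.card n = p) (hB : Heis e B) (hB' : Heis e B') :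
    ∃ X : Matrix n n K, ∑ T, B' T * X * B (-T) ≠ 0 := by
  have hne : Nonempty n := Fintype.card_pos_iff.mp (by rw [hn]; exact h.hp.pos)
  obtain ⟨i⟩ := hne
  obtain ⟨c, hc⟩ : ∃ c : M → K, ∀ T, c T = B' (-T) i i := ⟨_, fun _ => rfl⟩
  have hz : ∑ T, c T • B T ≠ 0 := by
    intro hz
    have hi := indep_Hei h hn hB
    rw [Fintype.linearIndependent_iff] at hi
    have h2 := hi c hz 0
    rw [hc, neg_zero, hB'.zero, Matrix.one_apply_eq] at h2
    exact one_ne_zero h2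
  by_contra h00
  apply hz
  rw [← Equiv.sum_comp (Equiv.neg M) fun T => c T • B T]
  ext k l
  have h0 : ∑ T, B' T * single i k (1 : K) * B (-T) = 0 := by
    by_contra hX
    exact h00 ⟨_, hX⟩
  have h1 : (∑ T, B' T * single i k (1 : K) * B (-T) : Matrix n n K) i l = 0 := by
    rw [h0, Matrix.zero_apply]
  rw [Matrix.sum_apply] at h1
  rw [Matrix.sum_apply, Matrix.zero_apply]
  refine Eq.trans (Finset.sum_congr rfl fun T _ => ?_) h1
  rw [ent_Hei, Equiv.neg_apply, hc, neg_neg, Matrix.smul_apply, smul_eq_mul]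

theorem uniq_Hei (h : Pair p e) (hn : Fintype.card n = p) (hB : Heis e B) (hB' : Heis e B') :
    ∃ g : Matrix n n K, IsUnit g.det ∧ ∀ T, g * B T = B' T * g := by
  obtain ⟨X, hX⟩ := ex_ne_Hei h hn hB hB'
  have hg := itw_Hei h hB hB' X
  generalize ∑ T, B' T * X * B (-T) = g at hX hg
  refine ⟨g, isUnit_iff_ne_zero.mpr fun h0 => hX ?_, hg⟩
  obtain ⟨v, hv, hgv⟩ := Matrix.exists_mulVec_eq_zero_iff.mpr h0
  have hY : ∀ Y : Matrix n n K, (g * Y) *ᵥ v = 0 := by
    intro Y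
    obtain ⟨c, rfl⟩ := span_Hei h hn hB Y
    rw [Finset.mul_sum, Matrix.sum_mulVec]
    refine Finset.sum_eq_zero fun T _ => ?_
    rw [mul_smul_comm, hg, Matrix.smul_mulVec, ← Matrix.mulVec_mulVec, hgv, Matrix.mulVec_zero,
      smul_zero]
  obtain ⟨j, hj⟩ := Function.ne_iff.mp hv
  ext i k
  have := congrFun (hY (single k j 1)) i
  rw [Matrix.mulVec, dotProduct, Finset.sum_eq_single j] at this
  · rw [Matrix.mul_single_apply_same, mul_one] at this
    exact (mul_eq_zero.mp this).resolve_right hj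
  · intro l _ hl
    rw [Matrix.mul_single_apply_of_ne _ _ _ _ _ hl, zero_mul]
  · intro hn
    exact absurd (Finset.mem_univ _) hn

end

theorem hei_st : HEI_st := by
  intro K M n _ _ _ _ _ _ p e h hn
  exact ⟨fun B hB => ⟨fun T hT => trace_Hei h hB hT, inv_Hei h hn hB, schur_Hei h hn hB⟩,
    fun B B' hB hB' => uniq_Hei h hn hB hB'⟩

end Pool.Agent.MP_e23604_nt.L

end

section

namespace Pool.Agent.MP_f68ac8_nt.Pv
open Ev

open NumberField Module IntermediateField Polynomial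
open Pool.Agent.MP_14ad9d_nt.Full Pool.Agent.MP_14ad9d_nt.Full.R0Aux
open Pool.Agent.MP_14ad9d_nt.Full.FIAux (un over_un un_eq un_surj)

/-- adjoining the roots of unity to a Galois extension of prime degree -/
theorem tower_PvSI {p : ℕ} (hp : p.Prime) (K E : Type) [Field K] [NumberField K] [Field E]
    [NumberField E] [Algebra K E] [IsGalois K E] (hd : finrank K E = p) :
    ∃ (L M : Type) (_ : Field L) (_ : NumberField L) (_ : Field M) (_ : NumberField M)
      (_ : Algebra K L) (_ : Algebra L M) (_ : Algebra E M) (_ : Algebra K M)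
      (_ : IsScalarTower K L M) (_ : IsScalarTower K E M) (_ : IsGalois K L) (_ : IsGalois L M),
      finrank L M = p ∧ finrank K L < p ∧ ∃ ζ : L, IsPrimitiveRoot ζ p := by
  have : NeZero p := ⟨hp.ne_zero⟩
  let M := CyclotomicField p E
  have : FiniteDimensional K M := Module.Finite.of_restrictScalars_finite ℚ K M
  have : FiniteDimensional E M := Module.Finite.of_restrictScalars_finite ℚ E M
  let z : M := IsCyclotomicExtension.zeta p E M
  have hz : IsPrimitiveRoot z p := IsCyclotomicExtension.zeta_spec p E M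
  let L : IntermediateField K M := K⟮z⟯
  have : IsCyclotomicExtension {p} K L := hz.intermediateField_adjoin_isCyclotomicExtension K
  have hL : IsGalois K L := IsCyclotomicExtension.isGalois {p} K L
  let E' : IntermediateField K M := (IsScalarTower.toAlgHom K E M).fieldRange
  have e : E ≃ₐ[K] E' := AlgEquiv.ofInjectiveField (IsScalarTower.toAlgHom K E M)
  have : IsGalois K E' := IsGalois.of_algEquiv e
  have htop : E⟮z⟯ = ⊤ := by
    apply toSubalgebra_injective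
    rw [adjoin_simple_toSubalgebra_of_isAlgebraic (Algebra.IsAlgebraic.isAlgebraic z)]
    exact IsCyclotomicExtension.adjoin_primitive_root_eq_top hz
  have hsup : E' ⊔ L = ⊤ := by
    rw [eq_top_iff]
    intro x _
    have hx : x ∈ E⟮z⟯ := htop ▸ mem_top
    induction hx using adjoin_induction with
    | mem y hy =>
      rw [Set.mem_singleton_iff.1 hy]
      exact (le_sup_right : L ≤ E' ⊔ L) (mem_adjoin_simple_self K z)
    | algebraMap y => exact (le_sup_left : E' ≤ E' ⊔ L) ⟨y, rfl⟩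
    | add a b _ _ ha hb => exact add_mem (ha mem_top) (hb mem_top)
    | inv a _ ha => exact inv_mem (ha mem_top)
    | mul a b _ _ ha hb => exact mul_mem (ha mem_top) (hb mem_top)
  have hG : IsGalois L M := IsGalois.sup_right E' L hsup
  have iK : IsIntegral K z := Algebra.IsIntegral.isIntegral z
  have iE : IsIntegral E z := Algebra.IsIntegral.isIntegral z
  have h1 : finrank K L = (minpoly K z).natDegree := adjoin.finrank iK
  have h2 : finrank E M = (minpoly E z).natDegree := by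
    rw [← adjoin.finrank iE, htop, finrank_top']
  have h3 : finrank E M ≤ finrank K L := by
    rw [h1, h2, ← natDegree_map (algebraMap K E)]
    exact natDegree_le_of_dvd (minpoly.dvd_map_of_isScalarTower K E z)
      (Polynomial.map_ne_zero (minpoly.ne_zero iK))
  have h4 : finrank K L < p := by
    have h5 : minpoly K z ∣ cyclotomic p K := by
      apply minpoly.dvd
      rw [aeval_def, ← eval_map, map_cyclotomic]
      exact hz.isRoot_cyclotomic hp.pos
    have h6 := natDegree_le_of_dvd h5 (cyclotomic_ne_zero p K)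
    rw [natDegree_cyclotomic, Nat.totient_prime hp] at h6
    have := hp.pos
    omega
  have h5 : finrank K L * finrank L M = p * finrank E M := by
    rw [finrank_mul_finrank, ← finrank_mul_finrank K E M, hd]
  have h6 : 0 < finrank K L := finrank_pos
  have h7 : finrank L M = p := by
    have a1 : p ∣ finrank L M :=
      ((Nat.Prime.dvd_mul hp).1 (h5 ▸ Dvd.intro _ rfl)).resolve_left
        (Nat.not_dvd_of_pos_of_lt h6 h4)
    refine le_antisymm (Nat.le_of_mul_le_mul_left ?_ h6) (Nat.le_of_dvd finrank_pos a1)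
    rw [h5, mul_comm]
    exact Nat.mul_le_mul_right _ h3
  refine ⟨L, M, inferInstance, inferInstance, inferInstance, inferInstance, inferInstance,
    inferInstance, inferInstance, inferInstance, inferInstance, inferInstance, hL, hG, h7, h4,
    ⟨z, mem_adjoin_simple_self K z⟩, ?_⟩
  exact IsPrimitiveRoot.of_map_of_injective (f := algebraMap L M) hz (algebraMap L M).injective

/-- a Kummer generator -/
theorem kummer_PvSI {p : ℕ} (hp : p.Prime) (L M : Type) [Field L] [Field M] [Algebra L M]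
    [IsGalois L M] (hd : finrank L M = p) {z : L} (hz : IsPrimitiveRoot z p) :
    ∃ (ζ β : L) (θ : M) (σ : M ≃ₐ[L] M), IsPrimitiveRoot ζ p ∧ β ≠ 0 ∧
      θ ^ p = algebraMap L M β ∧ σ θ = algebraMap L M ζ * θ := by
  have : Fact p.Prime := ⟨hp⟩
  have : NeZero p := ⟨hp.ne_zero⟩
  have : FiniteDimensional L M := Module.finite_of_finrank_pos (hd ▸ hp.pos)
  have : IsCyclic (M ≃ₐ[L] M) :=
    isCyclic_of_prime_card (p := p) ((IsGalois.card_aut_eq_finrank L M).trans hd)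
  obtain ⟨θ, ⟨β, hβ⟩, htop⟩ := exists_root_adjoin_eq_top_of_isCyclic L M
    ⟨z, (mem_primitiveRoots finrank_pos).2 (hd ▸ hz)⟩
  rw [hd] at hβ
  obtain ⟨σ, hσ⟩ : ∃ σ : M ≃ₐ[L] M, σ θ ≠ θ := by
    by_contra h
    push Not at h
    have h1 : θ ∈ (⊥ : IntermediateField L M) := (IsGalois.mem_bot_iff_fixed θ).2 h
    have h2 : (⊥ : IntermediateField L M) = ⊤ := by
      rw [← htop]
      exact (adjoin_simple_eq_bot_iff.2 h1).symm
    have h3 := IntermediateField.bot_eq_top_iff_finrank_eq_one.1 h2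
    exact hp.one_lt.ne' (hd.symm.trans h3)
  have θ0 : θ ≠ 0 := by
    rintro rfl
    exact hσ (map_zero σ)
  have β0 : β ≠ 0 := by
    rintro rfl
    exact pow_ne_zero p θ0 (by rw [← hβ, map_zero])
  have hz' : IsPrimitiveRoot (algebraMap L M z) p := hz.map_of_injective (algebraMap L M).injective
  have h1 : (σ θ / θ) ^ p = 1 := by
    rw [div_pow, ← map_pow, ← hβ, AlgEquiv.commutes, div_self ((_root_.map_ne_zero _).2 β0)]
  obtain ⟨i, hi, e⟩ := hz'.eq_pow_of_pow_eq_one h1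
  have i0 : i ≠ 0 := by
    rintro rfl
    rw [pow_zero, eq_div_iff θ0, one_mul] at e
    exact hσ e.symm
  refine ⟨z ^ i, β, θ, σ, hz.pow_of_coprime i
    (Nat.coprime_of_lt_prime i0 hi hp).symm, β0, hβ.symm, ?_⟩
  rw [map_pow, e, div_mul_cancel₀ _ θ0]

/-- pulling back a character of the class group -/
theorem clsCh_PvSI {p : ℕ} [Fact p.Prime] {K : Type} [Field K] [NumberField K] (L : Type)
    [Field L] [NumberField L] [Algebra K L] [IsGalois K L] {χ : Pr K → ZMod p} (h : ClsCh χ) :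
    ClsCh fun u : Pr L => (u.asIdeal.inertiaDeg (𝓞 K) : ZMod p) * χ (un K u) := fun α α0 => by
  have h1 := push_down (un K) (over_un (K := K)) χ α0
  simp only [zsmul_eq_mul] at h1
  exact h1.trans (h _ (by simpa using α0))

theorem sI_stmt (p : ℕ) [Fact p.Prime] (h : SI0Stmt p) : SIStmt p := by
  intro K E _ _ _ _ _ _ h2 hd χ₁ χ₂ c₁ c₂ hχ
  have hp : p.Prime := Fact.out
  obtain ⟨L, M, _, _, _, _, _, _, _, _, _, _, _, _, dM, dL, z, hz⟩ := tower_PvSI hp K E hd
  obtain ⟨ζ, β, θ, σ, hζ, β0, hθ, hσ⟩ := kummer_PvSI hp L M dM hz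
  obtain ⟨π, hπ0, hπ⟩ : ∃ π : Pr L → L, (∀ v, π v ≠ 0) ∧ ∀ v, ord v (π v) = 1 := by
    choose π h0 h1 using fun v : Pr L => exists_ord_eq_one v
    exact ⟨fun v => π v, fun v => by simpa using h0 v, h1⟩
  have nf : ∀ u : Pr L, ¬ p ∣ u.asIdeal.inertiaDeg (𝓞 K) := fun u =>
    Nat.not_dvd_of_pos_of_lt (ef_pos (over_un (K := K) u)).2
      ((Nat.le_of_dvd finrank_pos ((Dvd.intro_left _ rfl).trans (ef_dvd (over_un (K := K) u)))).trans_lt dL)
  have hm : ∀ u : Pr L, u ∉ (ord_finite β).toFinset → (p : ℤ) ∣ ord u β := fun u hu => by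
    have : ord u β = 0 := by simpa using hu
    rw [this]
    exact dvd_zero _
  have key : ∀ u : Pr L, Tm p u → u ∉ (ord_finite β).toFinset → tame p ζ u β (π u) = 0 →
      χ₁ (un K u) = 0 ∧ χ₂ (un K u) = 0 := fun u t n e => by
    obtain ⟨q, hq⟩ := exists_over (E' := M) u
    have f1 := (split_of_chi h2 hζ dM β0 hθ hσ t (hm u n) (hπ u) e hq).2
    have hw := over_un (K := E) q
    have t1 : q.asIdeal.inertiaDeg (𝓞 K) =
        u.asIdeal.inertiaDeg (𝓞 K) * q.asIdeal.inertiaDeg (𝓞 L) :=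
      Ideal.inertiaDeg_tower u.asIdeal q.asIdeal
    have t2 : q.asIdeal.inertiaDeg (𝓞 K) =
        (un E q).asIdeal.inertiaDeg (𝓞 K) * q.asIdeal.inertiaDeg (𝓞 E) :=
      Ideal.inertiaDeg_tower (un E q).asIdeal q.asIdeal
    rw [f1, mul_one] at t1
    have d1 : (un E q).asIdeal.inertiaDeg (𝓞 K) ∣ p :=
      (Dvd.intro_left _ rfl).trans (hd ▸ ef_dvd (over_un (K := K) (un E q)))
    have f2 : (un E q).asIdeal.inertiaDeg (𝓞 K) = 1 :=
      ((Nat.dvd_prime hp).1 d1).resolve_right fun e' => nf u (by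
        rw [← t1, t2, e']
        exact Dvd.intro _ rfl)
    have o1 := over_un (K := K) u
    have o2 := over_un (K := K) (un E q)
    have e1 : un K (un E q) = un K u :=
      under_unique (w := q) (Ideal.LiesOver.trans q.asIdeal (un E q).asIdeal _)
        (Ideal.LiesOver.trans q.asIdeal u.asIdeal _)
    rw [← e1]
    exact hχ _ f2
  have D : ∀ χ : Pr K → ZMod p, ClsCh χ → (∀ u : Pr L, Tm p u → u ∉ (ord_finite β).toFinset →
      tame p ζ u β (π u) = 0 → χ (un K u) = 0) → KeyData p ζ β (ord_finite β).toFinset π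
      fun u : Pr L => (u.asIdeal.inertiaDeg (𝓞 K) : ZMod p) * χ (un K u) := fun χ c k =>
    ⟨h2, hζ, β0, fun u _ n => hm u n, fun u => ⟨hπ0 u, hπ u⟩,
      fun u t n e => by rw [k u t n e, mul_zero], fun α α0 _ => clsCh_PvSI L c α α0⟩
  obtain ⟨a, b, hab, e⟩ := h L ζ β _ π _ _ (D χ₁ c₁ fun u t n e => (key u t n e).1)
    (D χ₂ c₂ fun u t n e => (key u t n e).2) (clsCh_PvSI L c₁) (clsCh_PvSI L c₂)
  refine ⟨a, b, hab, fun v => ?_⟩
  obtain ⟨u, rfl⟩ := un_surj (L := L) v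
  have f0 : (u.asIdeal.inertiaDeg (𝓞 K) : ZMod p) ≠ 0 :=
    mt (ZMod.natCast_eq_zero_iff _ _).1 (nf u)
  refine mul_left_cancel₀ f0 ?_
  linear_combination e u

end Pool.Agent.MP_f68ac8_nt.Pv

end

section

/-! The second inequality over a field containing the roots of unity. -/

namespace Pool.Agent.MP_f68ac8_nt.Pv

open Ev NumberField IsDedekindDomain
open Pool.Agent.MP_14ad9d_nt.Full

theorem comb_PvSI0 {p : ℕ} [Fact p.Prime] {L : Type} [Field L] [NumberField L]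
    {χ₁ χ₂ : Pr L → ZMod p} (c₁ : ClsCh χ₁) (c₂ : ClsCh χ₂) (a b : ZMod p) :
    ClsCh fun v => a * χ₁ v + b * χ₂ v := by
  intro α hα
  have f : ∀ (c : ZMod p) (χ : Pr L → ZMod p),
      (Function.support fun v : Pr L => c * ((ord v α : ZMod p) * χ v)).Finite := fun c χ =>
    (ord_finite α).subset fun v hv e => hv (by simp [e])
  have e : ∀ v : Pr L, (ord v α : ZMod p) * (a * χ₁ v + b * χ₂ v) =
      a * ((ord v α : ZMod p) * χ₁ v) + b * ((ord v α : ZMod p) * χ₂ v) := fun v => by ring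
  simp only [e]
  rw [finsum_add_distrib (f a χ₁) (f b χ₂), ← mul_finsum, ← mul_finsum, c₁ α hα, c₂ α hα]
  simp

theorem all_PvSI0 {p : ℕ} [Fact p.Prime] {L : Type} [Field L] [NumberField L]
    {χ : Pr L → ZMod p} (c : ClsCh χ) (m : Finset (Pr L))
    (h : ∀ v, Tm p v → v ∉ m → χ v = 0) (v : Pr L) : χ v = 0 := by
  classical
  obtain ⟨z, hz, H⟩ := R0Aux.exists_ord (insert v (m ∪ (finite_wild (l := p) (E := L)).toFinset))
    fun u => if u = v then 1 else 0
  have h1 := c z hz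
  rw [finsum_eq_single _ v fun u hu => ?_] at h1
  · rwa [H v (Finset.mem_insert_self _ _), if_pos rfl, Int.cast_one, one_mul] at h1
  · by_cases b : Tm p u ∧ u ∉ m
    · rw [h u b.1 b.2, mul_zero]
    · rw [H u ?_, if_neg hu, Int.cast_zero, zero_mul]
      refine Finset.mem_insert_of_mem (Finset.mem_union.2 ?_)
      rw [Set.Finite.mem_toFinset]
      by_cases t : Tm p u
      · exact Or.inl (not_not.1 fun e => b ⟨t, e⟩)
      · exact Or.inr t

theorem prop_PvSI0 {p : ℕ} [Fact p.Prime] (h1 : Key1Stmt p) (h2 : Key2Stmt p) {L : Type}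
    [Field L] [NumberField L] {ζ β : L} {m : Finset (Pr L)} {ϖ : Pr L → L} {χ : Pr L → ZMod p}
    (D : KeyData p ζ β m ϖ χ) {v₀ v : Pr L} (t₀ : Tm p v₀) (m₀ : v₀ ∉ m)
    (n : tame p ζ v₀ β (ϖ v₀) ≠ 0) (t : Tm p v) (hv : v ∉ m) :
    χ v₀ * tame p ζ v β (ϖ v) = χ v * tame p ζ v₀ β (ϖ v₀) := by
  obtain ⟨u₀, ⟨d₀, t₀', m₀', a₀, b₀⟩, n₀⟩ :=
    (h2 L ζ β m ϖ χ D v₀ t₀ m₀).exists_notMem_finite (ord_finite ((discr L : ℤ) : L))
  obtain ⟨u₁, ⟨d₁, t₁', m₁', a₁, b₁⟩, n₁⟩ :=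
    (h2 L ζ β m ϖ χ D v t hv).exists_notMem_finite ((ord_finite ((discr L : ℤ) : L)).union
      (ord_finite ((Ideal.absNorm u₀.asIdeal : ℕ) : L)))
  simp only [Set.mem_union, Set.mem_ofPred_eq, not_or, not_not] at n₀ n₁
  have o₁ := nice_OvR1 u₁ d₁ n₁.1
  have k := h1 L ζ β m ϖ χ D u₀ u₁ t₀' t₁' m₀' m₁' d₀ d₁ (nice_OvR1 u₀ d₀ n₀) o₁
    (fun e => one_ne_zero (o₁.symm.trans (e ▸ n₁.2))) (b₀ ▸ n)
  rwa [a₀, b₀, a₁, b₁] at k

theorem sI0_stmt (p : ℕ) [Fact p.Prime] (h1 : Key1Stmt p) (h2 : Key2Stmt p) : SI0Stmt p := by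
  intro L _ _ ζ β m ϖ χ₁ χ₂ D₁ D₂ c₁ c₂
  have one : (∀ v, Tm p v → v ∉ m → χ₁ v = 0) →
      ∃ a b : ZMod p, (a ≠ 0 ∨ b ≠ 0) ∧ ∀ v, a * χ₁ v + b * χ₂ v = 0 := fun h =>
    ⟨1, 0, Or.inl one_ne_zero, fun v => by rw [all_PvSI0 c₁ m h v]; simp⟩
  by_cases h : ∀ v, Tm p v → v ∉ m → tame p ζ v β (ϖ v) = 0
  · exact one fun v t hv => D₁.zero v t hv (h v t hv)
  push Not at h
  obtain ⟨v₀, t₀, m₀, n⟩ := h
  by_cases e : χ₁ v₀ = 0
  · refine one fun v t hv => ?_
    have k := prop_PvSI0 h1 h2 D₁ t₀ m₀ n t hv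
    rw [e, zero_mul] at k
    exact (mul_eq_zero.1 k.symm).resolve_right n
  · refine ⟨χ₂ v₀, -χ₁ v₀, Or.inr (neg_ne_zero.2 e),
      all_PvSI0 (comb_PvSI0 c₁ c₂ _ _) m fun v t hv => mul_left_cancel₀ n ?_⟩
    have k₁ := prop_PvSI0 h1 h2 D₁ t₀ m₀ n t hv
    have k₂ := prop_PvSI0 h1 h2 D₂ t₀ m₀ n t hv
    linear_combination χ₁ v₀ * k₂ - χ₂ v₀ * k₁

end Pool.Agent.MP_f68ac8_nt.Pv

end

section

namespace Pool.Agent.MP_f68ac8_nt.Pt

open Ev Pv

open NumberField Module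
open Pool.Agent.MP_14ad9d_nt.Full (Pr ord ord_pow ord_one)
open Pool.Agent.MP_14ad9d_nt.Full.FIAux (rank_complex)

lemma rank_PtSUnit {L : Type} [Field L] [NumberField L] (S : Finset (Pr L)) :
    Units.rank L + S.card ≤ finrank ℤ (Additive (UT (S : Set (Pr L)))) := by
  classical
  have := fin_PvJ S.finite_toSet
  choose y hy0 hy using gen_PvJ (E := L)
  let a : S → Additive (UT (S : Set (Pr L))) := fun w => Additive.ofMul
    ⟨Units.mk0 (y w) (hy0 w), fun w' hw' => (hy w w').trans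
      (if_neg fun h : w.1 = w' => hw' (h ▸ w.2))⟩
  have ha : ∀ w w' : S, o_PvJ (S : Set (Pr L)) w' (a w) =
      if w = w' then (Fintype.card (ClassGroup (𝓞 L)) : ℤ) else 0 := fun w w' =>
    (hy w w').trans (by simp only [Subtype.val_inj])
  obtain ⟨u, hu⟩ := exists_linearIndependent_of_le_finrank (Units.finrank_eq L).ge
  have h : LinearIndependent ℤ (Sum.elim (fun j => i_PvJ (S : Set (Pr L)) (u j)) a) := by
    refine Fintype.linearIndependent_iff.2 fun g hg => ?_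
    rw [Fintype.sum_sum_type] at hg
    simp only [Sum.elim_inl, Sum.elim_inr] at hg
    have h1 : ∀ w, g (Sum.inr w) = 0 := fun w => by
      have h2 := congrArg (o_PvJ (S : Set (Pr L)) w.1) hg
      simp only [map_add, map_sum, map_zsmul, o_i_PvJ, ha, smul_eq_mul, mul_zero, mul_ite,
        Finset.sum_const_zero, zero_add, Finset.sum_ite_eq', Finset.mem_univ, if_true,
        map_zero] at h2
      exact (mul_eq_zero.1 h2).resolve_right (Nat.cast_ne_zero.2 Fintype.card_ne_zero)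
    simp only [h1, zero_smul, Finset.sum_const_zero, add_zero] at hg
    have h2 := Fintype.linearIndependent_iff.1 (hu.map' _ (LinearMap.ker_eq_bot.2 (i_inj_PvJ
      (S : Set (Pr L))))) _ hg
    rintro (j | w)
    · exact h2 j
    · exact h1 w
  simpa using h.fintype_card_le_finrank

end Pool.Agent.MP_f68ac8_nt.Pt

end

section

/-!
The Hasse norm theorem for unramified cyclic extensions of odd prime degree.
-/

open scoped Classical

namespace Pool.Agent.MP_e23604_nt.L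

open B NumberField Module
open Pool.Agent.MP_f68ac8_nt Pool.Agent.MP_f68ac8_nt.Pv
open Pool.Agent.MP_14ad9d_nt.Full (Pr ord ord_pow ord_finite)
open Pool.Agent.MP_14ad9d_nt.Full.FIAux (ac un ord_ac un_ac ac_trans un_surj ord_un ord_div
  rank_complex exists_pow)

/-- the upper bound for the rank of the units away from a finite set -/
theorem urk_Hnt {K : Type} [Field K] [NumberField K] (S : Finset (Pr K)) :
    finrank ℤ (Additive (UT (S : Set (Pr K)))) ≤ Units.rank K + S.card := by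
  have := fin_PvJ S.finite_toSet
  let f := LinearMap.pi fun w : S => o_PvJ (S : Set (Pr K)) w
  have h1 := (LinearMap.ker f).finrank_quotient_add_finrank
  have h2 : finrank ℤ (_ ⧸ LinearMap.ker f) ≤ finrank ℤ (S → ℤ) := by
    rw [f.quotKerEquivRange.finrank_eq]
    exact Submodule.finrank_le _
  have h3 : finrank ℤ (LinearMap.ker f) ≤ finrank ℤ (Additive (𝓞 K)ˣ) :=
    rk_Hnt (i_PvJ (S : Set (Pr K))).toAddMonoidHom (LinearMap.ker f).toAddSubgroup
      fun x hx => i_surj_PvJ fun w hw => congrFun hx ⟨w, hw⟩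
  rw [Module.finrank_fintype_fun_eq_card, Fintype.card_coe] at h2
  rw [Units.finrank_eq] at h3
  omega

section
variable {p : ℕ} [Fact p.Prime] {K E : Type} [Field K] [NumberField K] [Field E] [NumberField E]
  [Algebra K E] [IsGalois K E] {s : E ≃ₐ[K] E}

theorem fix_Hnt (hs : ∀ g, g ∈ Subgroup.zpowers s) {x : E} (hx : s x = x) :
    ∃ a : K, algebraMap K E a = x := by
  refine (IsGalois.mem_range_algebraMap_iff_fixed x).2 fun g => ?_
  obtain ⟨n, rfl⟩ := exists_pow hs g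
  rw [AlgEquiv.coe_pow, Function.iterate_fixed hx]

omit [Fact p.Prime] in
theorem card_Hnt (hd : finrank K E = p) : Fintype.card (E ≃ₐ[K] E) = p := by
  rw [← Nat.card_eq_fintype_card, IsGalois.card_aut_eq_finrank, hd]

omit [Fact p.Prime] in
theorem ord_Hnt (hd : finrank K E = p) (hs : ∀ g, g ∈ Subgroup.zpowers s) : orderOf s = p := by
  rw [orderOf_eq_card_of_forall_mem_zpowers hs, IsGalois.card_aut_eq_finrank, hd]

omit [Fact p.Prime] in
theorem nrm_Hnt (hd : finrank K E = p) (hs : ∀ g, g ∈ Subgroup.zpowers s) (y : E) :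
    algebraMap K E (Algebra.norm K y) = ∏ i ∈ Finset.range p, (s ^ i) y := by
  rw [Algebra.norm_eq_prod_automorphisms, ← IsCyclic.image_range_orderOf hs, Finset.prod_image
    fun i hi j hj => pow_injOn_Iio_orderOf (by simpa using hi) (by simpa using hj), ord_Hnt hd hs]

omit [Fact p.Prime] in
/-- the rank of the invariant units -/
theorem rank_Hnt [IsTotallyComplex K] (hd : finrank K E = p) (hs : ∀ g, g ∈ Subgroup.zpowers s)
    {T : SubMulAction (E ≃ₐ[K] E) (Pr E)} (hT : TData p T) :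
    p * (finrank ℤ ((uRep T s).toAddMonoidHom - AddMonoidHom.id _).ker + 1) ≤
      finrank ℤ (Additive (UT (T : Set (Pr E)))) + 1 := by
  have : IsTotallyComplex E := isTotallyComplex_of_algebra K E
  have h1 := Pt.rank_PtSUnit hT.fin.toFinset
  rw [Set.Finite.coe_toFinset] at h1
  obtain ⟨S, hS⟩ : ∃ S, S = hT.fin.toFinset.image (un K) := ⟨_, rfl⟩
  have hm : ∀ w : Pr E, un K w ∈ S ↔ w ∈ T := fun w => by
    rw [hS, Finset.mem_image]
    refine ⟨?_, fun h => ⟨w, hT.fin.mem_toFinset.2 h, rfl⟩⟩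
    rintro ⟨w', hw, h⟩
    obtain ⟨g, rfl⟩ := ac_trans h
    exact T.smul_mem g (hT.fin.mem_toFinset.1 hw)
  have h2 : p * S.card ≤ hT.fin.toFinset.card := by
    rw [hS]
    refine Finset.mul_card_image_le_card _ _ fun v hv => ?_
    obtain ⟨w, hw, rfl⟩ := Finset.mem_image.1 hv
    have hw' := hT.fin.mem_toFinset.1 hw
    refine ((card_Hnt hd).symm.trans Finset.card_univ.symm).trans_le
      (Finset.card_le_card_of_injOn (fun g => g • w) (fun g _ => ?_) fun g _ g' _ h => ?_)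
    · exact Finset.mem_coe.2 (Finset.mem_filter.2
        ⟨hT.fin.mem_toFinset.2 (T.smul_mem g hw'), un_ac g w⟩)
    · have h' : g • w = g' • w := h
      exact (inv_mul_eq_one.1 (hT.free _ w hw' (by rw [mul_smul, ← h', inv_smul_smul])))
  have := fin_PvJ S.finite_toSet
  let φ : Additive (UT (S : Set (Pr K))) →+ Additive (UT (T : Set (Pr E))) :=
    MonoidHom.toAdditive (((Units.map (algebraMap K E : K →* E)).comp
      (UT (S : Set (Pr K))).subtype).codRestrict _ fun x w hw => by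
        obtain ⟨e, -, he⟩ := ord_un (K := K) w (x.1 : Kˣ)
        exact he.trans (by rw [x.2 _ fun h => hw ((hm w).1 h), mul_zero]))
  have h3 := rk_Hnt φ ((uRep T s).toAddMonoidHom - AddMonoidHom.id _).ker fun x hx => by
    have h4 : uRep T s x = x := sub_eq_zero.1 hx
    obtain ⟨a, ha⟩ := fix_Hnt hs ((uval_uRep T s x).symm.trans (congrArg uval h4))
    have a0 : a ≠ 0 := fun h => ne_PvJ x (by rw [← ha, h, map_zero])
    refine ⟨Additive.ofMul ⟨Units.mk0 a a0, fun v hv => ?_⟩, inj_PvJ ha⟩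
    obtain ⟨w, rfl⟩ := un_surj (L := E) v
    obtain ⟨e, he, h5⟩ := ord_un (K := K) w a
    have h6 : ord w (uval x) = 0 := o_out_PvJ (fun h => hv ((hm w).2 h)) x
    rw [ha, h6] at h5
    exact (mul_eq_zero.1 h5.symm).resolve_left he.ne'
  have h4 := urk_Hnt S
  have h5 := rank_complex (E := K)
  have h6 := rank_complex (E := E)
  rw [← Module.finrank_mul_finrank ℚ K E, hd, ← h5] at h6
  nlinarith

/-- units away from the chosen primes are norms -/
theorem unit_Hnt [IsTotallyComplex K] (h2 : 2 < p) (hd : finrank K E = p)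
    (hs : ∀ g, g ∈ Subgroup.zpowers s) (hU : Unram K E p)
    {T : SubMulAction (E ≃ₐ[K] E) (Pr E)} (hT : TData p T) {u : K} (u0 : u ≠ 0)
    (hu : ∀ w, w ∉ T → ord w (algebraMap K E u) = 0) : ∃ c : E, Algebra.norm K c = u := by
  have := fin_PvJ hT.fin
  have hi : ∀ (i : ℕ) a, (uRep T s).toAddMonoidHom^[i] a = uRep T (s ^ i) a := fun i a => by
    rw [map_pow, Module.End.pow_apply]; rfl
  obtain ⟨b, hb⟩ := abs_Hnt (l := p) (σ := (uRep T s).toAddMonoidHom)
    (fun a => by rw [hi, ← ord_Hnt hd hs, pow_orderOf_eq_one, map_one]; rfl) (rank_Hnt hd hs hT)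
    (fun a b ha hb => by
      simp only [hi] at ha hb
      exact h_stmt p (sI_stmt p (sI0_stmt p (Ev.key1_stmt p) (Ev.key2_stmt p (Ev.mu_stmt p))))
        K E T h2 hT hU s (ord_Hnt hd hs) a b ha hb)
    (Additive.ofMul ⟨Units.mk0 _ ((map_ne_zero (algebraMap K E)).2 u0), hu⟩)
    (inj_PvJ (s.commutes u))
  refine ⟨uval b, (algebraMap K E).injective ?_⟩
  have h3 : algebraMap K E u = _ := congrArg uval hb
  rw [nrm_Hnt hd hs, h3]
  simp only [hi, ← uval_uRep]
  simp [uval]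

/-- a divisor with prescribed norm -/
theorem div_Hnt (hd : finrank K E = p) {β : K}
    (hβ : ∀ w : Pr E, s • w = w → (p : ℤ) ∣ ord w (algebraMap K E β)) :
    ∃ d : Pr E →₀ ℤ, ∀ w, ∑ g : E ≃ₐ[K] E, d (g⁻¹ • w) = ord w (algebraMap K E β) := by
  choose c hc using un_surj (K := K) (L := E)
  let d : Pr E → ℤ := fun w => if w = c (un K w) then
    (if MulAction.stabilizer (E ≃ₐ[K] E) w = ⊤ then ord w (algebraMap K E β) / p
      else ord w (algebraMap K E β)) else 0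
  refine ⟨Finsupp.ofSupportFinite d ((ord_finite (algebraMap K E β)).subset fun w hw h => hw
    (by simp only [d, h, Int.zero_ediv, ite_self])), fun w => ?_⟩
  show ∑ g : E ≃ₐ[K] E, d (g⁻¹ • w) = _
  obtain ⟨g₀, hg⟩ := ac_trans (hc (un K w))
  obtain ⟨v, hv⟩ : ∃ v, v = c (un K w) := ⟨_, rfl⟩
  have hu : ∀ g : E ≃ₐ[K] E, c (un K (g • w)) = v := fun g => by rw [hv, smul_def, un_ac]
  rw [← hv, ← smul_def] at hg
  have hv' : c (un K v) = v := by simpa only [← hg, inv_smul_smul] using hu g₀⁻¹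
  have ho : ord w (algebraMap K E β) = ord v (algebraMap K E β) := by
    rw [← ord_ac g₀ v, g₀.commutes, ← smul_def, hg]
  have : Fact (Nat.card (E ≃ₐ[K] E)).Prime := by
    rw [IsGalois.card_aut_eq_finrank, hd]; infer_instance
  by_cases h : MulAction.stabilizer (E ≃ₐ[K] E) v = ⊤
  · have h1 : ∀ g : E ≃ₐ[K] E, g • v = v := fun g =>
      MulAction.mem_stabilizer_iff.1 (h ▸ Subgroup.mem_top g)
    have h2 : d v = ord v (algebraMap K E β) / p := by simp only [d, hv', h, if_true]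
    simp only [← hg, h1, h2, Finset.sum_const, Finset.card_univ, card_Hnt hd, nsmul_eq_mul]
    exact Int.mul_ediv_cancel' (hβ v (h1 s))
  · have h1 := (MulAction.stabilizer (E ≃ₐ[K] E) v).eq_bot_or_eq_top_of_prime_card.resolve_right h
    rw [Finset.sum_eq_single g₀ (fun g _ hne => ?_) (by simp), ho, ← hg, inv_smul_smul]
    · simp only [d, hv', h, if_true, if_false]
    · refine if_neg fun h2 => hne ?_
      rw [hu, ← hg, ← mul_smul, ← MulAction.mem_stabilizer_iff, h1, Subgroup.mem_bot] at h2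
      exact inv_mul_eq_one.1 h2

end

theorem hnt_st : HNT_st := by
  intro p K E _ _ _ _ _ _ _ s hp h2 hd hs hU β β0 hβ
  have := Fact.mk hp
  have h3 : 2 < p := lt_of_le_of_ne hp.two_le h2.symm
  obtain ⟨T, hT⟩ := t_stmt p K E h3
  obtain ⟨d, hdv⟩ := div_Hnt (s := s) (β := β) hd fun w hw => by
    obtain ⟨x, hx⟩ := hβ w fun x hx => by
      rw [← hw]
      show s⁻¹ • s • x ∈ w.asIdeal
      rwa [inv_smul_smul]
    exact ⟨ord w x, by rw [← ord_pow, ord, ord, hx, map_pow]⟩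
  obtain ⟨h, y, hh, y0, hy⟩ := (Pt.vu_stmt p E).2.1 T hT.gen d
  have n0 : Algebra.norm K y ≠ 0 := Algebra.norm_ne_zero_iff.2 y0
  obtain ⟨c, hc⟩ := unit_Hnt h3 hd hs (fun w g hg _ => hU w g hg) hT
    (div_ne_zero (pow_ne_zero h β0) n0) fun w hw => by
    rw [map_div₀, ord_div _ ((map_ne_zero _).2 (pow_ne_zero h β0)) ((map_ne_zero _).2 n0), map_pow,
      ord_pow, Algebra.norm_eq_prod_automorphisms,
      ord_prod_PvH _ _ _ fun g => (map_ne_zero g).2 y0, ← hdv, Finset.mul_sum, sub_eq_zero]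
    refine Finset.sum_congr rfl fun g _ => ?_
    rw [← hy _ fun h1 => hw (by simpa using T.smul_mem g h1), ← ord_ac g, ← smul_def, smul_inv_smul]
  obtain ⟨u, v, huv⟩ := Nat.isCoprime_iff_coprime.2 ((Nat.Prime.coprime_iff_not_dvd hp).2 hh)
  refine ⟨algebraMap K E β ^ u * (c * y) ^ v, ?_⟩
  rw [map_mul, Algebra.norm_zpow, Algebra.norm_zpow, map_mul, hc, div_mul_cancel₀ _ n0,
    Algebra.norm_algebraMap, hd, ← zpow_natCast, ← zpow_natCast, ← zpow_mul, ← zpow_mul,
    ← zpow_add₀ β0, mul_comm (p : ℤ), mul_comm (h : ℤ), huv, zpow_one]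

end Pool.Agent.MP_e23604_nt.L

end

section

/-!
Short vectors in a lattice and in its dual.
-/

open Module MeasureTheory
open scoped Classical

namespace Pool.Agent.MP_e23604_nt.L

open B

theorem lf_Mp {ι : Type} [Fintype ι] [Nonempty ι] (b : Basis ι ℝ (ι → ℝ)) {δ : ℝ} (hδ : 0 < δ)
    (h1 : |(Matrix.of b).det| ≤ δ ^ Fintype.card ι) :
    ∃ z : ι → ℤ, z ≠ 0 ∧ ∀ j, |(∑ i, (z i : ℝ) • b i) j| ≤ δ := by
  have hc : Countable (Submodule.span ℤ (Set.range b)).toAddSubgroup :=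
    inferInstanceAs (Countable (Submodule.span ℤ (Set.range b)))
  have hd : DiscreteTopology (Submodule.span ℤ (Set.range b)).toAddSubgroup :=
    inferInstanceAs (DiscreteTopology (Submodule.span ℤ (Set.range b)))
  obtain ⟨x, hx0, hx⟩ := exists_ne_zero_mem_lattice_of_measure_mul_two_pow_le_measure
    (μ := volume) (s := Metric.closedBall (0 : ι → ℝ) δ)
    (ZSpan.isAddFundamentalDomain' b volume) (fun x hx => by simpa using hx)
    (convex_closedBall 0 δ) (isCompact_closedBall 0 δ) (by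
      rw [Real.volume_pi_closedBall _ hδ.le, ZSpan.volume_fundamentalDomain,
        finrank_fintype_fun_eq_card, mul_pow, mul_comm (2 ^ _ : ℝ), ENNReal.ofReal_mul (by positivity),
        ENNReal.ofReal_pow zero_le_two, ENNReal.ofReal_ofNat]
      exact mul_le_mul_left (ENNReal.ofReal_le_ofReal h1) _)
  obtain ⟨z, hz⟩ := (Submodule.mem_span_range_iff_exists_fun ℤ).1 x.2
  have hz' : ∑ i, (z i : ℝ) • b i = x := by
    rw [← hz]
    exact Finset.sum_congr rfl fun i _ => Int.cast_smul_eq_zsmul ℝ _ _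
  refine ⟨z, fun h => hx0 (Subtype.ext ?_), fun j => ?_⟩
  · rw [← hz', h]
    simp
  · rw [hz']
    exact (norm_le_pi_norm (x : ι → ℝ) j).trans (mem_closedBall_zero_iff.1 hx)

section
variable {E ι : Type} [NormedAddCommGroup E] [InnerProductSpace ℝ E] [Fintype ι] [Nonempty ι]

theorem short_Mp (o : OrthonormalBasis ι ℝ E) (b : Basis ι ℝ E) {δ : ℝ} (hδ : 0 < δ)
    (h1 : |(Matrix.of fun i j => inner ℝ (o j) (b i)).det| ≤ δ ^ Fintype.card ι) :
    ∃ z : ι → ℤ, ∑ i, (z i : ℝ) • b i ≠ 0 ∧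
      ‖∑ i, (z i : ℝ) • b i‖ ^ 2 ≤ Fintype.card ι * δ ^ 2 := by
  have e1 : ∀ v j, o.toBasis.equivFun v j = inner ℝ (o j) v := fun v j => by
    rw [Basis.equivFun_apply, OrthonormalBasis.coe_toBasis_repr_apply, o.repr_apply_apply]
  have e2 : Matrix.of (b.map o.toBasis.equivFun) = Matrix.of fun i j => inner ℝ (o j) (b i) := by
    ext i j
    exact e1 _ _
  obtain ⟨z, hz, h⟩ := lf_Mp (b.map o.toBasis.equivFun) hδ (e2 ▸ h1)
  refine ⟨z, fun h0 => hz (funext fun i => ?_), ?_⟩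
  · exact_mod_cast Fintype.linearIndependent_iff.1 b.linearIndependent _ h0 i
  · rw [← o.sum_sq_norm_inner_right]
    refine (Finset.sum_le_card_nsmul _ _ (δ ^ 2) fun j _ => ?_).trans_eq ?_
    · refine pow_le_pow_left₀ (norm_nonneg _) (le_of_eq_of_le ?_ (h j)) 2
      rw [← e1, map_sum, Real.norm_eq_abs]
      simp only [map_smul, Basis.map_apply]
    · rw [Finset.card_univ, nsmul_eq_mul]

theorem pair_Mp (b : Basis ι ℝ E) : ∃ z : ι → ℤ, ∑ i, (z i : ℝ) • b i ≠ 0 ∧ ∃ y : E, y ≠ 0 ∧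
    (∀ i, ∃ k : ℤ, inner ℝ y (b i) = k) ∧ ‖∑ i, (z i : ℝ) • b i‖ * ‖y‖ ≤ Fintype.card ι := by
  have := b.finiteDimensional_of_finite
  let o : OrthonormalBasis ι ℝ E := (stdOrthonormalBasis ℝ E).reindex
    (Fintype.equivFinOfCardEq (finrank_eq_card_basis b).symm).symm
  have hn : LinearMap.BilinForm.Nondegenerate (innerₗ E) :=
    ⟨fun x h => inner_self_eq_zero.1 (h x), fun x h => inner_self_eq_zero.1 (h x)⟩
  let c : Basis ι ℝ E := LinearMap.BilinForm.dualBasis (innerₗ E) hn b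
  have hc : ∀ i j, inner ℝ (c i) (b j) = if j = i then 1 else 0 := fun i j =>
    LinearMap.BilinForm.apply_dualBasis_left hn b i j
  have hm : (Matrix.of fun i j => inner ℝ (o j) (c i)) *
      (Matrix.of fun i j => inner ℝ (o j) (b i)).transpose = 1 := by
    ext i j
    rw [Matrix.mul_apply, Matrix.one_apply, if_congr eq_comm rfl rfl, ← hc,
      ← o.sum_inner_mul_inner]
    refine Finset.sum_congr rfl fun k _ => ?_
    rw [Matrix.transpose_apply, Matrix.of_apply, Matrix.of_apply, real_inner_comm]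
  have hd := congrArg (fun M => |Matrix.det M|) hm
  simp only [Matrix.det_mul, Matrix.det_transpose, Matrix.det_one, abs_mul, abs_one] at hd
  have h0 : 0 < |(Matrix.of fun i j => inner ℝ (o j) (b i)).det| :=
    (abs_nonneg _).lt_of_ne' (right_ne_zero_of_mul_eq_one hd)
  obtain ⟨δ, hδ, h1⟩ : ∃ δ : ℝ, 0 < δ ∧
      δ ^ Fintype.card ι = |(Matrix.of fun i j => inner ℝ (o j) (b i)).det| :=
    ⟨_, Real.rpow_pos_of_pos h0 _, Real.rpow_inv_natCast_pow h0.le Fintype.card_ne_zero⟩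
  obtain ⟨z, z0, z1⟩ := short_Mp o b hδ h1.ge
  obtain ⟨w, w0, w1⟩ := short_Mp o c (inv_pos.2 hδ)
    (by rw [inv_pow, h1]; exact (eq_inv_of_mul_eq_one_left hd).le)
  refine ⟨z, z0, _, w0, fun i => ⟨w i, ?_⟩, ?_⟩
  · simp only [sum_inner, real_inner_smul_left, hc, mul_ite, mul_one, mul_zero,
      Finset.sum_ite_eq, Finset.mem_univ, if_true]
  · refine (pow_le_pow_iff_left₀ (by positivity) (by positivity) two_ne_zero).1 ?_
    rw [mul_pow]
    refine (mul_le_mul z1 w1 (by positivity) (by positivity)).trans_eq ?_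
    field_simp

end

theorem mp_st : MP_st := by
  intro F _ _ Λ d hfg hd hr hd0
  have : Module.Finite ℤ Λ := Module.Finite.iff_fg.2 hfg
  have : IsAddTorsionFree F := .of_isTorsionFree ℝ F
  have : Module.Free ℤ Λ := Module.free_of_finite_type_torsion_free'
  let b₀ := Module.finBasis ℤ Λ
  have hz : ∀ z ∈ Λ, ∃ k : Fin (finrank ℤ Λ) → ℤ, z = ∑ i, (k i : ℝ) • (b₀ i : F) := by
    intro z hz
    refine ⟨b₀.repr ⟨z, hz⟩, ?_⟩
    have h1 := congrArg Subtype.val (b₀.sum_repr ⟨z, hz⟩)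
    rw [AddSubmonoidClass.coe_finset_sum] at h1
    refine h1.symm.trans (Finset.sum_congr rfl fun i _ => ?_)
    rw [Int.cast_smul_eq_zsmul]
    rfl
  have hs : Submodule.span ℝ (Λ : Set F) = Submodule.span ℝ (Set.range fun i => (b₀ i : F)) := by
    refine le_antisymm (Submodule.span_le.2 fun z h => ?_) (Submodule.span_mono ?_)
    · obtain ⟨k, rfl⟩ := hz z h
      exact Submodule.sum_mem _ fun i _ =>
        Submodule.smul_mem _ _ (Submodule.subset_span ⟨i, rfl⟩)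
    · rintro _ ⟨i, rfl⟩
      exact (b₀ i).2
  rw [hs] at hd ⊢
  have h1 : d ≤ finrank ℤ Λ := by
    rw [← hd]
    exact (finrank_range_le_card fun i => (b₀ i : F)).trans_eq (Fintype.card_fin _)
  have h2 : Fintype.card (Fin (finrank ℤ Λ)) = d := (Fintype.card_fin _).trans (hr.antisymm h1)
  have hli : LinearIndependent ℝ fun i => (b₀ i : F) :=
    linearIndependent_iff_card_eq_finrank_span.2 (h2.trans hd.symm)
  have : Nonempty (Fin (finrank ℤ Λ)) := Fintype.card_pos_iff.1 (by omega)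
  obtain ⟨z, z0, y, y0, h3, h4⟩ := pair_Mp (Basis.span hli)
  have h5 : ((∑ i, (z i : ℝ) • Basis.span hli i : Submodule.span ℝ
      (Set.range fun i => (b₀ i : F))) : F) = ∑ i, (z i : ℝ) • (b₀ i : F) := by
    rw [AddSubmonoidClass.coe_finset_sum]
    exact Finset.sum_congr rfl fun i _ => by rw [Submodule.coe_smul, Basis.span_apply]
  refine ⟨∑ i, (z i : ℝ) • (b₀ i : F), Submodule.sum_mem _ fun i _ => ?_,
    fun h => z0 (Subtype.ext (h5.trans h)), y, y.2, fun h => y0 (Subtype.ext h), fun v hv => ?_, ?_⟩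
  · rw [Int.cast_smul_eq_zsmul]
    exact Submodule.smul_mem _ _ (b₀ i).2
  · obtain ⟨k, rfl⟩ := hz v hv
    choose m hm using h3
    refine ⟨∑ i, k i * m i, ?_⟩
    rw [inner_sum]
    push_cast
    refine Finset.sum_congr rfl fun i _ => ?_
    rw [real_inner_smul_right, ← hm i, Submodule.coe_inner, Basis.span_apply]
  · rw [← h5, ← h2]
    exact h4

end Pool.Agent.MP_e23604_nt.L

end

section

/-!
Hilbert 90 for the general linear group.
-/

open scoped Classical
open Matrix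

namespace Pool.Agent.MP_e23604_nt.L

open B

theorem span_Spe {k L n : Type} [Field k] [Field L] [Algebra k L] [IsGalois k L] [Fintype n]
    [DecidableEq n] (g : (L ≃ₐ[k] L) → Matrix n n L) (hlc : IsLocallyConstant g) (h1 : g 1 = 1)
    (hmul : ∀ σ τ, g (σ * τ) = g σ * (g τ).map σ) :
    Submodule.span L {v : n → L | ∀ σ : L ≃ₐ[k] L, g σ *ᵥ (fun i => σ (v i)) = v} = ⊤ := by
  have hu : ∀ σ, IsUnit (g σ) := fun σ =>
    IsUnit.of_mul_eq_one ((g σ⁻¹).map σ) (by rw [← hmul, mul_inv_cancel, h1])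
  have m1 : ∀ σ : L ≃ₐ[k] L, (1 : Matrix n n L).map σ = 1 := fun σ =>
    Matrix.map_one _ (map_zero σ) (map_one σ)
  have ceq : ∀ σ τ, g σ = g τ → g (τ⁻¹ * σ) = 1 := by
    intro σ τ e
    have := hmul τ (τ⁻¹ * σ)
    rw [mul_inv_cancel_left, e] at this
    refine Matrix.map_injective τ.injective ((hu τ).mul_left_cancel ?_)
    show g τ * (g (τ⁻¹ * σ)).map τ = g τ * (1 : Matrix n n L).map τ
    rw [← this, m1, mul_one]
  let H : Subgroup (L ≃ₐ[k] L) :=
    { carrier := {σ | g σ = 1}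
      one_mem' := h1
      mul_mem' := by
        intro σ τ h2 h4
        have h2' : g σ = 1 := h2
        have h4' : g τ = 1 := h4
        show g (σ * τ) = 1
        rw [hmul, h2', h4', m1, mul_one]
      inv_mem' := by
        intro σ h2
        have h2' : g σ = 1 := h2
        have := ceq 1 σ (h1.trans h2'.symm)
        rwa [mul_one] at this }
  have hH : (IntermediateField.fixedField H).fixingSubgroup = H :=
    InfiniteGalois.fixingSubgroup_fixedField ⟨H, H.isClosed_of_isOpen (hlc.isOpen_fiber 1)⟩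
  set A := IntermediateField.fixedField H with hA
  let I : Set (Matrix n n L) := Set.range g
  have : Fintype I := hlc.range_finite.fintype
  choose s hcs using fun z : I => z.2
  have agree : ∀ σ τ, g σ = g τ → ∀ η : A, σ η = τ η := by
    intro σ τ e η
    have hm : τ⁻¹ * σ ∈ H := ceq σ τ e
    have := (IntermediateField.mem_fixedField_iff H η.1).1 η.2 _ hm
    nth_rewrite 2 [← this]
    rw [← AlgEquiv.mul_apply, mul_inv_cancel_left]
  let f : I → (A →* L) := fun z => ((s z : L →ₐ[k] L).comp A.val : A →ₐ[k] L)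
  have finj : Function.Injective f := by
    intro z z' e
    have hm : (s z')⁻¹ * s z ∈ A.fixingSubgroup := by
      rw [IntermediateField.mem_fixingSubgroup_iff]
      intro x hx
      have := DFunLike.congr_fun e ⟨x, hx⟩
      have h2 : s z x = s z' x := this
      rw [AlgEquiv.mul_apply, h2, ← AlgEquiv.mul_apply, inv_mul_cancel, AlgEquiv.one_apply]
    rw [hH] at hm
    have hm' : g ((s z')⁻¹ * s z) = 1 := hm
    have := hmul (s z') ((s z')⁻¹ * s z)
    rw [mul_inv_cancel_left, hm', m1, mul_one, hcs, hcs] at this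
    exact Subtype.ext this
  have li := (linearIndependent_monoidHom A L).comp f finj
  rw [Fintype.linearIndependent_iff] at li
  have fix : ∀ (η : A) (j : n) (σ : L ≃ₐ[k] L),
      g σ *ᵥ (fun i => σ ((∑ z : I, s z η • fun a => z.1 a j) i)) =
        ∑ z : I, s z η • fun a => z.1 a j := by
    intro η j σ
    let π : I → I := fun z => ⟨g (σ * s z), _, rfl⟩
    have πv : ∀ z, (π z).1 = g σ * z.1.map σ := fun z => by
      change g (σ * s z) = _
      rw [hmul, hcs]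
    have πinj : Function.Injective π := by
      intro z z' e
      have := congrArg Subtype.val e
      rw [πv, πv] at this
      exact Subtype.ext (Matrix.map_injective σ.injective ((hu σ).mul_left_cancel this))
    have e1 : (fun i => σ ((∑ z : I, s z η • fun a => z.1 a j) i)) =
        ∑ z : I, σ (s z η) • fun a => σ (z.1 a j) := by
      funext i
      simp only [Finset.sum_apply, Pi.smul_apply, smul_eq_mul, map_sum, map_mul]
    rw [e1, Matrix.mulVec_sum]
    refine Fintype.sum_bijective π (Finite.injective_iff_bijective.1 πinj) _ _ fun z => ?_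
    rw [Matrix.mulVec_smul, ← AlgEquiv.mul_apply, agree _ _ (hcs (π z)).symm, πv]
    rfl
  by_contra hne
  obtain ⟨φ, hφ0, hφ⟩ := Submodule.exists_le_ker_of_lt_top _ (lt_top_iff_ne_top.2 hne)
  refine hφ0 ((Pi.basisFun L n).ext fun j => ?_)
  have := li (fun z => φ fun a => z.1 a j) (by
    ext η
    have h2 := hφ (Submodule.subset_span (fix η j))
    rw [LinearMap.mem_ker, map_sum] at h2
    simpa [f, mul_comm] using h2) ⟨g 1, 1, rfl⟩
  rw [Pi.basisFun_apply, LinearMap.zero_apply, ← this]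
  congr 1
  funext a
  simp [h1, Matrix.one_apply, Pi.single_apply]

theorem spe_st : SPE_st := by
  intro n _ _ g hlc h1 hmul
  obtain ⟨b, hb, hsp, hli⟩ := exists_linearIndependent Qb
    {v : n → Qb | ∀ σ : GQ, g σ *ᵥ (fun i => σ (v i)) = v}
  rw [span_Spe g hlc h1 hmul] at hsp
  let e : b ≃ n := (Module.Basis.mk hli (by rw [Subtype.range_coe, hsp])).indexEquiv
    (Pi.basisFun Qb n)
  refine ⟨Matrix.of fun i j => (e.symm j).1 i, ?_, fun σ => ?_⟩
  · rw [← Matrix.isUnit_iff_isUnit_det, ← Matrix.linearIndependent_cols_iff_isUnit]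
    exact hli.comp _ e.symm.injective
  · ext i j
    exact congrFun (hb (e.symm j).2 σ) i

end Pool.Agent.MP_e23604_nt.L

end

section

/-!
The obstruction algebra splits.
-/

open Matrix

namespace Pool.Agent.MP_e23604_nt.L

theorem spl_st (h1 : LINE_st) (h2 : GAS_st) (h3 : SPE_st) : SPL_st := by
  intro p _ M _ ρ e ξ hD hξ
  obtain ⟨H, U, s, a1, a2, a3, a4, a5, a6, a7⟩ := h1 p M ρ e ξ hD hξ
  obtain ⟨g, b1, b2, b3, b4⟩ := h2 p M (ZMod p) ρ e ξ H U s hD (ZMod.card p) hξ.coc a1 a2 a3 a4 a5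
    a6 a7
  obtain ⟨h, c1, c2⟩ := h3 (ZMod p) g b1 b2 b3
  have d1 := mul_nonsing_inv h c1
  have d2 := nonsing_inv_mul h c1
  refine ⟨fun T => h⁻¹ * U T * h, ⟨by rw [a3.zero, mul_one, d2], fun S T => ?_⟩,
    fun i j σ T => ?_⟩
  · calc h⁻¹ * U S * h * (h⁻¹ * U T * h) = h⁻¹ * (U S * (h * h⁻¹) * U T) * h := by
          simp only [mul_assoc]
      _ = _ := by rw [d1, mul_one, a3.mul, mul_smul_comm, smul_mul_assoc]
  · have e1 : (h⁻¹ * U T * h).map σ = e (ξ σ) (ρ σ T) • (h⁻¹ * U (ρ σ T) * h) := by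
      have f1 : ∀ A B : Matrix (ZMod p) (ZMod p) Qb, (A * B).map σ = A.map σ * B.map σ :=
        fun A B => Matrix.map_mul (f := (σ : Qb →+* Qb))
      have f2 : h.map σ * h⁻¹.map σ = 1 := by
        rw [← f1, d1]
        exact Matrix.map_one _ (map_zero σ) (map_one σ)
      have f3 : h⁻¹.map σ = h⁻¹ * g σ := by
        calc h⁻¹.map σ = h⁻¹ * (g σ * h.map σ) * h⁻¹.map σ := by rw [c2, d2, one_mul]
          _ = h⁻¹ * g σ * (h.map σ * h⁻¹.map σ) := by simp only [mul_assoc]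
          _ = _ := by rw [f2, mul_one]
      rw [f1, f1, f3, mul_assoc h⁻¹, b4 σ T, mul_smul_comm, smul_mul_assoc]
      simp only [mul_assoc, c2]
    exact congrFun (congrFun e1 i) j

end Pool.Agent.MP_e23604_nt.L

end

section

/-!
The linear bound for the p-torsion of Sha.
-/

open WeierstrassCurve
open scoped Classical

namespace Pool.Agent.MP_e23604_nt.L

open B

theorem cnt_all : CNT_st :=
  have b := bri_st mp_st (lls_st mp_st)
  have s := small_st hei_st dual_st b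
  cnt_st hei_st (spl_st (line_st (cyc_st hnt_st)) (gas_st hei_st) spe_st) s
    (rk_st hei_st dual_st b s) (cub_st hei_st (bez2_st bez_st))

/-- the p-torsion points -/
noncomputable def tors (W : WeierstrassCurve ℚ) (p : ℕ) : AddSubgroup (Pts W Qb) :=
  (nsmulAddMonoidHom p).ker

/-- the Galois action on the p-torsion points -/
noncomputable def rho (W : WeierstrassCurve ℚ) (p : ℕ) (σ : GQ) : tors W p →+ tors W p :=
  ((galQ W σ).comp (tors W p).subtype).codRestrict _ fun T => by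
    have h : p • T.1 = 0 := T.2
    change p • galQ W σ T.1 = 0
    rw [← map_nsmul, h, map_zero]

lemma dat_ex (W : WeierstrassCurve ℚ) [W.IsElliptic] {p : ℕ} (hp : p.Prime) (h2 : p ≠ 2) :
    ∃ e, Dat p (rho W p) e := by
  obtain ⟨e, e1, e2, e3, e4, e5⟩ := weil_st ord_st W p hp h2
  have : (W.baseChange Qb).IsElliptic := inferInstanceAs (W.map (algebraMap ℚ Qb)).IsElliptic
  refine ⟨fun S T => e S T, ⟨hp, h2, tors_card (W.baseChange Qb) hp h2, fun T => Subtype.ext T.2,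
    fun S S' T => e1 _ _ _ S.2 S'.2 T.2, fun S T T' => e2 _ _ _ S.2 T.2 T'.2, fun T => e3 _ T.2,
    fun T h => Subtype.ext (e4 _ T.2 fun S hS => h ⟨S, hS⟩)⟩,
    fun σ τ T => Subtype.ext (BSel_gal_mul W σ τ T), fun T => Subtype.ext (BSel_gal_one W T),
    fun T => ?_, fun σ S T => e5 σ _ _ S.2 T.2⟩
  refine IsLocallyConstant.desc _ Subtype.val ?_ Subtype.val_injective
  have := (BSel_dd_mem W T).1.comp fun P => P + T.1
  convert this using 1
  funext σ
  exact (sub_add_cancel _ _).symm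

end Pool.Agent.MP_e23604_nt.L

end

section

/-!
A uniform bound for the number of local classes modulo p.
-/

open WeierstrassCurve
open scoped Classical

namespace Pool.Agent.MP_e23604_nt.L

open B

lemma herb_LocU {G ι : Type} [AddCommGroup G] [Finite ι] (A : AddSubgroup G) [Finite (G ⧸ A)]
    {p N : ℕ} (y : ι → G) (hN : Nat.card ι ≤ N) (h1 : ∀ a ∈ A, ∃ b, p • b = a)
    (h2 : ∀ g, p • g ∈ A → ∃ i, g - y i ∈ A) :
    ∃ cl : G → Fin N, ∀ g g', cl g = cl g' → ∃ d, g - g' = p • d := by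
  let f : G ⧸ A →+ G ⧸ A := nsmulAddMonoidHom p
  have k1 : ∀ x : f.ker, ∃ i, x.1 = (y i : G ⧸ A) := by
    rintro ⟨x, hx⟩
    obtain ⟨g, rfl⟩ := QuotientAddGroup.mk_surjective x
    obtain ⟨i, hi⟩ := h2 g ((QuotientAddGroup.eq_zero_iff _).1 hx)
    exact ⟨i, (QuotientAddGroup.eq_iff_sub_mem).2 hi⟩
  choose j hj using k1
  have k2 : Nat.card ((G ⧸ A) ⧸ f.range) ≤ N :=
    (AddSubgroup.index_range (f := f)).trans_le ((Nat.card_le_card_of_injective j fun x x' h =>
      Subtype.ext (by rw [hj, hj, h])).trans hN)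
  refine ⟨fun g => Fin.castLE k2 (Finite.equivFin _ ((g : G ⧸ A) : (G ⧸ A) ⧸ f.range)),
    fun g g' h => ?_⟩
  obtain ⟨x, hx⟩ := QuotientAddGroup.eq_iff_sub_mem.1
    ((Finite.equivFin _).injective (Fin.castLE_injective _ h))
  obtain ⟨d, rfl⟩ := QuotientAddGroup.mk_surjective x
  obtain ⟨b, hb⟩ := h1 _ (QuotientAddGroup.eq_iff_sub_mem.1
    (show ((g - g' : G) : G ⧸ A) = (p • d : G) from hx.symm))
  exact ⟨b + d, by rw [smul_add, hb, sub_add_cancel]⟩

theorem cls_uni (W : WeierstrassCurve ℚ) [W.IsElliptic] (q : ℕ) [Fact q.Prime] {p i : ℕ}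
    (hp : p.Prime) (h2 : p ≠ 2)
    (hW : Intg (NormedField.toAbsoluteValue (PadicAlgCl q)) (W.baseChange (PadicAlgCl q)))
    (hi : ‖(p : PadicAlgCl q)‖ * q ^ i = 1) : Cls W q p (p ^ 2 * q ^ i) := by
  set w := NormedField.toAbsoluteValue (PadicAlgCl q) with hw
  have hv : IsNonarchimedean w := fun x y => IsUltrametricDist.norm_add_le_max x y
  have hq1 : (1 : ℝ) < q := qpos_Idx
  have hq : (0 : ℝ) < q := zero_lt_one.trans hq1
  have : (W.baseChange (PadicAlgCl q)).IsElliptic :=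
    inferInstanceAs (W.map (algebraMap ℚ (PadicAlgCl q))).IsElliptic
  let G : AddSubgroup (Pts W (PadicAlgCl q)) := AddSubgroup.ofSub {S | Fx W q S}
    ⟨0, fun σ => map_zero _⟩ fun S hS S' hS' => sub_eq_add_neg S S' ▸ fx_sub_Idx hS hS'
  have sb : ∀ (j : ℕ) {S S' : Pts W (PadicAlgCl q)}, E1 w S ∧ ‖zz S‖ * q ^ j ≤ 1 →
      E1 w S' ∧ ‖zz S'‖ * q ^ j ≤ 1 → E1 w (S - S') ∧ ‖zz (S - S')‖ * q ^ j ≤ 1 :=
    fun j S S' h h' => by
      rw [le_inv_Idx] at h h' ⊢
      exact sub_Locq hv hW h.1 h'.1 h.2 h'.2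
  let A : AddSubgroup G := AddSubgroup.ofSub {S | E1 w S.1 ∧ ‖zz S.1‖ * q ^ (2 * i + 1) ≤ 1}
    ⟨0, trivial, by simp⟩ fun S hS S' hS' => sub_eq_add_neg S S' ▸ sb _ hS hS'
  have fin : Finite (G ⧸ A) := by
    have hΔ : 0 < ‖(W.baseChange (PadicAlgCl q)).Δ‖ :=
      norm_pos_iff.2 (W.baseChange (PadicAlgCl q)).isUnit_Δ.ne_zero
    obtain ⟨k, hk⟩ := pow_unbounded_of_one_lt (1 / ‖(W.baseChange (PadicAlgCl q)).Δ‖) hq1
    rw [div_lt_iff₀ hΔ, mul_comm] at hk
    obtain ⟨X, -, hX⟩ := idx_st W q (2 * i) k hW hk.le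
    choose a ha hb using fun S : G => hX S.1 S.2
    refine Finite.of_injective (fun x : G ⧸ A => (⟨a x.out, ha _⟩ : X)) fun x y h => ?_
    have h3 := sb _ (hb x.out) (hb y.out)
    rw [show a x.out = a y.out from congrArg Subtype.val h, sub_sub_sub_cancel_right] at h3
    rw [← x.out_eq', ← y.out_eq']
    exact QuotientAddGroup.eq_iff_sub_mem.2 h3
  have np : ‖(p : PadicAlgCl q)‖ = ((q : ℝ) ^ i)⁻¹ := eq_inv_of_mul_eq_one_left hi
  have dv : ∀ S ∈ A, ∃ D : G, p • D = S ∧ E1 w D.1 ∧ ‖zz D.1‖ * q ^ (i + 1) ≤ 1 := fun S hS => by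
    obtain ⟨D, ⟨d1, d2, d3⟩, hD⟩ := div_st (PadicAlgCl q) w (W.baseChange (PadicAlgCl q)) p S.1 hv
      hW hp.pos hS.1 ((le_inv_Idx.1 hS.2).trans_lt (by
        change _ < ‖(p : PadicAlgCl q)‖ ^ 2
        rw [np, inv_pow, ← pow_mul]
        exact inv_strictAnti₀ (by positivity) (pow_lt_pow_right₀ hq1 (by omega))))
    have hF : Fx W q D := fun σ => by
      obtain ⟨c1, c2⟩ := act_Locq W q σ D d2
      exact hD _ ⟨by rw [← map_nsmul, d1]; exact S.2 σ, c1, c2.trans_lt d3⟩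
    refine ⟨⟨D, hF⟩, Subtype.ext d1, d2, ?_⟩
    have p0 : 0 < ‖(p : PadicAlgCl q)‖ := by rw [np]; positivity
    obtain ⟨u, hu⟩ := fx_zz_Idx hF
    have h3 := disc_Idx (z := zz D / (p : PadicAlgCl q))
      ⟨u / p, by rw [map_div₀, hu, map_natCast]⟩ (by rw [norm_div, div_lt_one p0]; exact d3)
    rwa [norm_div, np, div_inv_eq_mul, mul_assoc, ← pow_add] at h3
  obtain ⟨Y, y1, y2, y3⟩ := cover_Idx (M := G) (ι := Fin (q ^ i))
    (fun S => E1 w S.1 ∧ ‖zz S.1‖ * q ^ (i + 1) ≤ 1) (· ∈ A)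
    (fun S m => ‖zz S.1 - (m : ℕ) * q ^ (i + 1)‖ * q ^ (i + 1 + i) ≤ 1)
    (fun S hS => appr_Idx (fx_zz_Idx S.2) (i + 1) i hS.2) fun S S' m hS hS' r r' => by
      obtain ⟨k1, k2⟩ := sub_Idx hv hW hS.1 hS'.1 (by positivity) (le_inv_Idx.1 hS.2)
        (le_inv_Idx.1 hS'.2)
      refine ⟨k1, le_inv_Idx.2 ?_⟩
      rw [show i + 1 + i = 2 * i + 1 by ring, le_inv_Idx] at r r'
      have k3 := bLocA_sub_le hv (a := zz S.1 - _) (b := zz S'.1 - _) r r'
      rw [sub_sub_sub_cancel_right] at k3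
      have k4 := bLocA_add_le hv (k2.trans (by
        rw [inv_pow, ← pow_mul]
        exact inv_anti₀ (by positivity) (pow_le_pow_right₀ hq1.le (by omega)))) k3
      rwa [sub_add_cancel] at k4
  have e2 : Nat.card {P : Pts W (PadicAlgCl q) // p • P = 0} = p ^ 2 := tors_card _ hp h2
  have : Finite {P : Pts W (PadicAlgCl q) // p • P = 0} :=
    Nat.finite_of_card_ne_zero (e2 ▸ pow_ne_zero _ hp.ne_zero)
  let t : {P : G // p • P = 0} → {P : Pts W (PadicAlgCl q) // p • P = 0} :=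
    fun P => ⟨P.1.1, congrArg Subtype.val P.2⟩
  have ht : Function.Injective t := fun P P' h =>
    Subtype.ext (Subtype.ext (congrArg (fun x => x.1) h))
  have := Finite.of_injective t ht
  obtain ⟨cl, hcl⟩ := herb_LocU A (p := p) (N := p ^ 2 * q ^ i)
    (fun x : {P : G // p • P = 0} × Y => x.1.1 + x.2.1) (by
      rw [Nat.card_prod, ← e2, Nat.card_eq_finsetCard]
      exact Nat.mul_le_mul (Nat.card_le_card_of_injective t ht) (y1.trans_eq (Fintype.card_fin _)))
    (fun S hS => (dv S hS).imp fun D h => h.1) fun g hg => by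
      obtain ⟨D, d1, d2⟩ := dv _ hg
      obtain ⟨a, a1, a2⟩ := y3 D d2
      refine ⟨(⟨g - D, by rw [smul_sub, d1, sub_self]⟩, ⟨a, a1⟩), ?_⟩
      change g - (g - D + a) ∈ A
      rwa [show g - (g - D + a) = D - a by abel]
  refine ⟨fun R => cl (if h : Fx W q (p • R) then ⟨_, h⟩ else 0), fun R R' h h' e => ?_⟩
  simp only [dif_pos h, dif_pos h'] at e
  obtain ⟨d, hd⟩ := hcl _ _ e
  have hd' : p • R - p • R' = p • d.1 := congrArg Subtype.val hd
  exact ⟨R - R' - d, by rw [smul_sub, smul_sub, hd', sub_self], by rw [sub_sub_cancel]; exact d.2⟩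

end Pool.Agent.MP_e23604_nt.L

end

section

/-!
The uniform bound for the p-torsion of Sha.
-/

open WeierstrassCurve
open scoped Classical

namespace Pool.Agent.MP_e23604_nt.L

open B

lemma count_Uni (W : WeierstrassCurve ℚ) [W.IsElliptic] {p b : ℕ} (hp : 0 < p) {ι : Type} [Finite ι]
    (cl : (GQ → Pts W Qb) → ι) (hcl : ∀ ξ η : GQ → Pts W Qb, ξ ∈ cocycles W →
      η ∈ cocycles W → (∀ σ, p • ξ σ = 0) → (∀ σ, p • η σ = 0) →
      (∀ (q : ℕ) [Fact q.Prime], LocTriv W ℚ_[q] ξ) →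
      (∀ (q : ℕ) [Fact q.Prime], LocTriv W ℚ_[q] η) → cl ξ = cl η →
      ∀ (q : ℕ) [Fact q.Prime] (γ : GQ), ∃ R : Pts W Qb, p • R = 0 ∧
        ∀ τ : GQ, Inr (nv q γ) τ → ξ τ - η τ = galQ W τ R - R)
    (hX : ∀ X : Finset (GQ → tors W p), (∀ ξ ∈ X, Adm (rho W p) ξ) → X.card ≤ b) :
    (shaTors W p).Finite ∧ (shaTors W p).ncard ≤ Nat.card ι * b := by
  have hA : {ξ | Adm (rho W p) ξ}.Finite := by
    by_contra h
    obtain ⟨X, h1, h2⟩ := Set.Infinite.exists_subset_card_eq h (b + 1)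
    have := hX X h1
    omega
  have hA' : Nat.card {ξ | Adm (rho W p) ξ} ≤ b := by
    rw [Nat.card_coe_set_eq, Set.ncard_eq_toFinset_card _ hA]
    exact hX _ fun ξ h => hA.mem_toFinset.1 h
  have := hA.to_subtype
  choose ξ x1 x2 x3 using fun x : shaTors W p => sha_rep W hp x.2.1 x.2.2
  have : Nonempty (shaTors W p) := ⟨⟨0, zero_mem _, smul_zero _⟩⟩
  let c := Function.invFun fun x => cl (ξ x).1
  have hb : ∀ x, cl (ξ (c (cl (ξ x).1))).1 = cl (ξ x).1 := fun x =>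
    Function.invFun_eq (f := fun x => cl (ξ x).1) ⟨x, rfl⟩
  let d : shaTors W p → shaTors W p → GQ → tors W p := fun x y σ => ⟨(ξ x - ξ y).1 σ, by
    change p • ((ξ x).1 σ - (ξ y).1 σ) = 0
    rw [smul_sub, x2, x2, sub_zero]⟩
  have hd : ∀ x, Adm (rho W p) (d x (c (cl (ξ x).1))) := fun x =>
    ⟨fun σ τ => Subtype.ext ((ξ x - ξ _).2.2 σ τ),
      IsLocallyConstant.desc _ Subtype.val (ξ x - ξ _).2.1 Subtype.val_injective, fun q _ γ => by
        obtain ⟨R, r1, r2⟩ := hcl _ _ (ξ x).2 (ξ _).2 (x2 x) (x2 _) (x3 x) (x3 _) (hb x).symm q γ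
        exact ⟨⟨R, r1⟩, fun τ hτ => Subtype.ext (r2 τ hτ)⟩⟩
  let f : shaTors W p → ι × {ξ | Adm (rho W p) ξ} := fun x => (cl (ξ x).1, ⟨_, hd x⟩)
  have inj : Function.Injective f := fun x y h => by
    obtain ⟨h1, h2⟩ := Prod.mk.inj h
    have h3 : d x (c (cl (ξ x).1)) = d y (c (cl (ξ y).1)) := congrArg Subtype.val h2
    rw [h1] at h3
    have h4 : ξ x = ξ y := sub_left_injective (b := ξ (c (cl (ξ y).1)))
      (Subtype.ext (funext fun σ => congrArg Subtype.val (congrFun h3 σ)))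
    exact Subtype.ext ((x1 x).symm.trans (h4 ▸ x1 y))
  refine ⟨Finite.of_injective f inj, ?_⟩
  have h5 := Nat.card_le_card_of_injective f inj
  rw [Nat.card_coe_set_eq, Nat.card_prod] at h5
  exact h5.trans (Nat.mul_le_mul_left _ hA')

theorem main_uni (V : WeierstrassCurve ℤ) (hΔ : V.Δ ≠ 0) {p : ℕ} (hp : p.Prime) (h2 : p ≠ 2) :
    (shaTors (V.baseChange ℚ) p).Finite ∧ (shaTors (V.baseChange ℚ) p).ncard ≤
      p ^ (197 * p) * (∏ q ∈ V.Δ.natAbs.primeFactors, q) ^ (18 * p) := by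
  set W := V.baseChange ℚ with hW
  set S := V.Δ.natAbs.primeFactors with hS
  have eΔ : W.Δ = V.Δ := map_Δ V _
  have : W.IsElliptic := ⟨by rw [eΔ]; exact (Int.cast_ne_zero.2 hΔ).isUnit⟩
  have := Fact.mk hp
  have inst : ∀ q : S.erase p, Fact (q : ℕ).Prime := fun q =>
    ⟨Nat.prime_of_mem_primeFactors (Finset.mem_of_mem_erase q.2)⟩
  have intg : ∀ {F : Type} [Field F] [CharZero F] {v : AbsoluteValue F ℝ}, IsNonarchimedean v →
      Intg v (W.baseChange F) := fun {F} _ _ v hv => by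
    have h : ∀ n : ℤ, v (algebraMap ℚ F (algebraMap ℤ ℚ n)) ≤ 1 := fun n => by
      rw [eq_intCast, map_intCast]
      exact v_int hv (isIntegral_algebraMap (R := ℤ))
    exact ⟨h _, h _, h _, h _, h _⟩
  have cop : ∀ (q : ℕ) [Fact q.Prime] (γ : GQ) (n : ℤ), ¬ (q : ℤ) ∣ n → nv q γ n = 1 :=
    fun q hq γ n h => v_coprime (nv_na q γ) hq.out (nv_lt q γ) h
  have good : ∀ (q : ℕ) [Fact q.Prime] (γ : GQ), q ∉ S → nv q γ (W.baseChange Qb).Δ = 1 :=
    fun q hq γ h => by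
      rw [baseChange, map_Δ, eΔ, map_intCast]
      exact cop q γ _ fun h' => h (Nat.mem_primeFactors.2
        ⟨hq.out, Int.natCast_dvd.1 h', Int.natAbs_ne_zero.2 hΔ⟩)
  have vp : ∀ (q : ℕ) [Fact q.Prime] (γ : GQ), q ≠ p → nv q γ p = 1 := fun q hq γ h => by
    simpa using cop q γ p (by
      exact_mod_cast fun e => h ((Nat.prime_dvd_prime_iff_eq hq.out hp).1 e))
  have na : ∀ (q : ℕ) [Fact q.Prime], IsNonarchimedean (NormedField.toAbsoluteValue
    (PadicAlgCl q)) := fun q _ x y => IsUltrametricDist.norm_add_le_max x y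
  obtain ⟨g, hg⟩ := one_Loc W hp h2 p (cls_uni W p (i := 1) hp h2 (intg (na p)) (by
    rw [norm_nat_Locq, Padic.norm_p, pow_one, inv_mul_cancel₀ (Nat.cast_ne_zero.2 hp.ne_zero)]))
  choose f hf using fun q : S.erase p => one_Loc W hp h2 q
    (cls_uni W q (i := 0) hp h2 (intg (na q)) (by
      rw [norm_nat_Locq, pow_zero, mul_one]
      exact Padic.norm_natCast_eq_one_iff.2 ((Nat.coprime_primes Fact.out hp).2
        (Finset.ne_of_mem_erase q.2))))
  have r0 : ∏ q ∈ S, q ≠ 0 := Finset.prod_ne_zero_iff.2 fun q h =>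
    (Nat.prime_of_mem_primeFactors h).ne_zero
  obtain ⟨e, hD⟩ := dat_ex W hp h2
  obtain ⟨m, m0, m1, m2⟩ := dif_uni hD r0 fun q hq γ τ h hτ T => by
    have h3 : q ∉ S := fun h' => h (Dvd.dvd.mul_left (Finset.dvd_prod_of_mem _ h') _)
    have h4 : p • T.1 = 0 := T.2
    refine Subtype.ext (sub_eq_zero.1 (E1_tors (n := p) (nv_na q γ) (intg (nv_na q γ))
      (inr_E1 W (nv_na q γ) (intg (nv_na q γ)) (good q γ h3) hτ T) ?_ ?_))
    · simpa using vp q γ fun h' => h (h' ▸ dvd_mul_right _ _)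
    · rw [natCast_zsmul, smul_sub, h4, sub_zero]
      exact (rho W p τ T).2
  obtain ⟨k1, k2⟩ := count_Uni W hp.pos (ι := ((q : S.erase p) → Fin (p ^ 2 * q ^ 0)) ×
    Fin (p ^ 2 * p ^ 1)) (fun ξ => (fun q => f q ξ, g ξ)) (fun ξ η a1 a2 b1 b2 l1 l2 k q hq γ => by
      obtain ⟨k1, k2⟩ := Prod.ext_iff.1 k
      by_cases q2 : q = p
      · subst q2
        exact hg ξ η a1 a2 b1 b2 (l1 q) (l2 q) k2 γ
      by_cases q1 : q ∈ S
      · exact hf ⟨q, Finset.mem_erase.2 ⟨q2, q1⟩⟩ ξ η a1 a2 b1 b2 (l1 q) (l2 q) (congrFun k1 _) γ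
      refine ⟨0, smul_zero _, fun τ hτ => ?_⟩
      rw [sel_unram W a1 b1 q (l1 q) γ (intg (nv_na q γ)) (good q γ q1) (vp q γ q2) hτ,
        sel_unram W a2 b2 q (l2 q) γ (intg (nv_na q γ)) (good q γ q1) (vp q γ q2) hτ, map_zero])
    fun X => cnt_all p m _ (rho W p) e X hD m2 m0
  refine ⟨k1, k2.trans ?_⟩
  have k3 : ∏ q : S.erase p, p ^ 2 * (q : ℕ) ^ 0 ≤ (∏ q ∈ S, q) ^ (2 * p) := by
    rw [Finset.prod_coe_sort (S.erase p) fun q => p ^ 2 * q ^ 0, ← Finset.prod_pow]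
    refine (Finset.prod_le_prod' fun q hq => ?_).trans (Finset.prod_le_prod_of_subset_of_one_le'
      (S.erase_subset p) fun q hq _ => Nat.one_le_pow _ _ (Nat.prime_of_mem_primeFactors hq).pos)
    rw [pow_zero, mul_one, mul_comm, pow_mul]
    exact Nat.pow_le_pow_left (Nat.lt_two_pow_self.le.trans (Nat.pow_le_pow_left
      (Nat.prime_of_mem_primeFactors (Finset.mem_of_mem_erase hq)).two_le p)) 2
  have := hD.toPair.three_le
  rw [Nat.card_prod, Nat.card_pi]
  simp only [Nat.card_eq_fintype_card, Fintype.card_fin]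
  calc _ ≤ (∏ q ∈ S, q) ^ (2 * p) * (p ^ 2 * p ^ 1) *
        (p ^ 66 * (p ^ 4 * ∏ q ∈ S, q) ^ 8) ^ (2 * p) := by gcongr
    _ = p ^ (3 + 196 * p) * (∏ q ∈ S, q) ^ (18 * p) := by ring
    _ ≤ _ := Nat.mul_le_mul_right _ (Nat.pow_le_pow_right hp.pos (by omega))

end Pool.Agent.MP_e23604_nt.L

end
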