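import Pool.Agent.Mg.Fe23604m.G9b4e87
import Pool.Agent.Mg.Fe23604m.G235363
import Pool.Agent.Mg.Fe23604m.Ga53936
import Pool.Agent.Mg.Fe23604m.G937cae

set_option linter.all false

section

namespace Pool.Agent.MP_e23604_nt.TN

open NumberField Finset Filter
open MP_f68ac8_nt MP_f68ac8_nt.Nd
open T (P0 rh lm9)
open scoped Topology BigOperators

theorem xBilU_split (A B : Finset ℕ) (j : ℕ → ℕ) (N : ℕ) (hN : ∀ m ∈ B, j m < N)
    (R : ℕ → ℕ → Prop) [∀ i l, Decidable (R i l)] (g : ℕ → ℕ → ℂ) :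
    ∑ l ∈ A, ∑ m ∈ B, (if R (j m) l then g l m else 0) =
      ∑ i ∈ range N, ∑ l ∈ A with R i l, ∑ m ∈ B with j m = i, g l m := by
  simp only [sum_filter]
  rw [sum_comm (s := range N)]
  refine sum_congr rfl fun l _ => ?_
  have h : ∀ i, (if R i l then ∑ m ∈ B, (if j m = i then g l m else 0) else 0) =
      ∑ m ∈ B, if j m = i then (if R i l then g l m else 0) else 0 := fun i => by
    split_ifs <;> simp
  simp only [h]
  rw [sum_comm]
  refine sum_congr rfl fun m hm => ?_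
  rw [sum_ite_eq, if_pos (mem_range.2 (hN m hm))]

theorem xBilU_pow {L : ℝ} (hL : 2 ≤ L) :
    L ^ (-(1 / 10 : ℝ)) ≤ Real.exp (5 / 2) * Real.exp (-√(Real.log L)) := by
  have h0 : 0 ≤ Real.log L := Real.log_nonneg (by linarith)
  have h1 := Real.sq_sqrt h0
  rw [← Real.exp_add, Real.rpow_def_of_pos (by linarith)]
  exact Real.exp_le_exp.2 (by nlinarith [sq_nonneg (√(Real.log L) - 5)])

theorem bilU (hA : BilA) (hB : BilB) (hC : ChrT) : BilU := by
  obtain ⟨C, hC0, hA⟩ := hA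
  obtain ⟨r, C', e, hr, hr1, hC1, hB⟩ := hB
  have hρ : Real.exp (-(1 / 5)) < 1 := Real.exp_lt_one_iff.2 (by norm_num)
  have hk : 0 < (1 - Real.exp (-(1 / 5)))⁻¹ := inv_pos.2 (by linarith)
  refine ⟨r, (C * Real.exp (5 / 2) + C') * (1 - Real.exp (-(1 / 5)))⁻¹, e + 2, hr, by positivity,
    ?_⟩
  intro s Z A B a b u hs1 hs2 hZ hu h1 h2 hd
  obtain ⟨γ, g1, g2⟩ := hC u hu
  have hs0 : 0 < s - 1 := by linarith
  choose j hj using fun l : ℕ => idx_NeBil hZ (l : ℝ)
  have hL : ∀ i : ℕ, 2 ≤ Z ^ 2 ^ i := fun i =>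
    hZ.trans (le_self_pow₀ (by linarith) (by positivity))
  have hm : ∀ i l : ℕ, Z ≤ l → i ≤ j l → Z ^ 2 ^ i ≤ l := fun i l a b =>
    (pow_le_pow_right₀ (by linarith) (Nat.pow_le_pow_right two_pos b)).trans (hj l a).1
  have fin : ∀ (N k : ℕ) (D : ℝ), 0 ≤ D → k ≤ e + 2 →
      ∑ i ∈ range N, D / (s - 1) ^ k * Real.exp (-√(Real.log (Z ^ 2 ^ i))) ≤
      D * (1 - Real.exp (-(1 / 5)))⁻¹ / (s - 1) ^ (e + 2) * Real.exp (-√(Real.log Z)) := by
    intro N k D hD hk2
    rw [← mul_sum]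
    refine (mul_le_mul (div_le_div_of_nonneg_left hD (by positivity)
      (pow_le_pow_of_le_one hs0.le (by linarith) hk2)) (geom_NjBil hZ _)
      (sum_nonneg fun i _ => (Real.exp_pos _).le) (by positivity)).trans (le_of_eq ?_)
    ring
  have k1 : ‖∑ l ∈ A, ∑ m ∈ B, (if j m ≤ j l then a l * b m * γ m l else 0)‖ ≤
      C * Real.exp (5 / 2) * (1 - Real.exp (-(1 / 5)))⁻¹ / (s - 1) ^ (e + 2) *
        Real.exp (-√(Real.log Z)) := by
    rw [xBilU_split A B j (B.sup j + 1) (fun m hm => Nat.lt_succ_of_le (le_sup hm))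
      fun i l => i ≤ j l]
    refine (norm_sum_le _ _).trans ((sum_le_sum fun i _ => ?_).trans
      (fin _ 2 _ (by positivity) (by omega)))
    refine (hA s (Z ^ 2 ^ i) _ _ γ a b hs1 (by linarith) (hL i)
      (g1 _ fun m h => (h2 m (mem_filter.1 h).1).1) (fun l hl => ?_) fun m h => ?_).trans
      ((mul_le_mul_of_nonneg_left (xBilU_pow (hL i)) (by positivity)).trans (le_of_eq (by ring)))
    · obtain ⟨a1, a2⟩ := mem_filter.1 hl
      exact ⟨(h1 l a1).1, hm i l (h1 l a1).2.1 a2, (h1 l a1).2.2⟩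
    · obtain ⟨a1, rfl⟩ := mem_filter.1 h
      exact ⟨(hj m (h2 m a1).2.1).1, (hj m (h2 m a1).2.1).2, (h2 m a1).2.2⟩
  have k2 : ‖∑ m ∈ B, ∑ l ∈ A, (if j l < j m then
      a l * b m * ZMod.stdAddChar (u * Zk.lk 3 l m) else 0)‖ ≤
      C' * (1 - Real.exp (-(1 / 5)))⁻¹ / (s - 1) ^ (e + 2) * Real.exp (-√(Real.log Z)) := by
    rw [xBilU_split B A j (A.sup j + 1) (fun m hm => Nat.lt_succ_of_le (le_sup hm))
      (fun i m => i < j m) fun m l => a l * b m * ZMod.stdAddChar (u * Zk.lk 3 l m)]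
    refine (norm_sum_le _ _).trans ((sum_le_sum fun i _ => ?_).trans
      (fin _ e _ hC1.le (by omega)))
    rw [sum_comm]
    refine hB s (Z ^ 2 ^ i) _ _ a b u hs1 hs2 (hL i) hu (fun l h => ?_) (fun m h => ?_)
      (hd.mono (filter_subset _ _) (filter_subset _ _))
    · obtain ⟨a1, rfl⟩ := mem_filter.1 h
      exact ⟨(h1 l a1).1, (hj l (h1 l a1).2.1).1, (hj l (h1 l a1).2.1).2, (h1 l a1).2.2⟩
    · obtain ⟨a1, a2⟩ := mem_filter.1 h
      exact ⟨(h2 m a1).1, hm i m (h2 m a1).2.1 a2.le, (h2 m a1).2.2⟩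
  rw [sum_comm] at k2
  have e1 : (∑ l ∈ A, ∑ m ∈ B, a l * b m * ZMod.stdAddChar (u * Zk.lk 3 l m)) =
      ∑ l ∈ A, ∑ m ∈ B, (if j m ≤ j l then a l * b m * γ m l else 0) +
      ∑ l ∈ A, ∑ m ∈ B, (if j l < j m then
        a l * b m * ZMod.stdAddChar (u * Zk.lk 3 l m) else 0) := by
    simp only [← sum_add_distrib]
    refine sum_congr rfl fun l hl => sum_congr rfl fun m hm => ?_
    by_cases hj' : j m ≤ j l
    · rw [if_pos hj', if_neg (not_lt.2 hj'), add_zero,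
        g2 m l (h2 m hm).1 (h1 l hl).1 fun k => disjoint_left.1 hd hl (k ▸ hm)]
    · rw [if_neg hj', if_pos (not_le.1 hj'), zero_add]
  rw [e1]
  refine (norm_add_le _ _).trans ((add_le_add k1 k2).trans (le_of_eq ?_))
  ring

end Pool.Agent.MP_e23604_nt.TN

end

section

namespace Pool.Agent.MP_e23604_nt.TN

open NumberField Finset Filter
open MP_f68ac8_nt MP_f68ac8_nt.Nd
open T (P0 rh lm9)
open scoped Topology BigOperators

theorem xDfc_ev (k : ℕ) {a : ℝ} (ha : 0 < a) :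
    ∀ᶠ T : ℝ in atTop, 2 ≤ T ∧ (k + 2) * (2 * Real.log T) ≤ T ^ (a / 2) := by
  have h1 := (isLittleO_log_rpow_atTop (half_pos ha)).bound
    (c := 1 / (2 * ((k : ℝ) + 2))) (by positivity)
  filter_upwards [h1, eventually_ge_atTop 2] with T h2 h3
  refine ⟨h3, ?_⟩
  rw [Real.norm_of_nonneg (Real.log_nonneg (by linarith)),
    Real.norm_of_nonneg (Real.rpow_nonneg (by linarith) _), one_div, ← div_eq_inv_mul,
    le_div_iff₀ (by positivity)] at h2
  linarith

theorem xDfc_one (hW : WlT) {T x x' a s : ℝ} (k l : ℕ) (hT : 1 ≤ T) (hl : l.Prime)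
    (h1 : T ^ (x + 3 * a) < Real.log l) (h2 : Real.log l ≤ T ^ (x' - 3 * a)) :
    (l : ℝ) ^ (-s) - (wl s (T ^ (-(x + 2 * a))) k l - wl s (T ^ (-(x' - 2 * a))) k l) ≤
      (l : ℝ) ^ (-s) * ((k + 2) * T ^ (-a)) := by
  have h0 : 0 < T := by linarith
  have p1 : 0 < T ^ (-(x + 2 * a)) := Real.rpow_pos_of_pos h0 _
  have p2 : 0 < T ^ (-(x' - 2 * a)) := Real.rpow_pos_of_pos h0 _
  have p3 : 0 < T ^ a := Real.rpow_pos_of_pos h0 _
  have a1 := (hW s _ _ k l p1 le_rfl hl).2.2.2.2.2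
  have a2 := (hW s _ _ k l p2 le_rfl hl).2.2.2.2.1
  have b1 : T ^ a ≤ T ^ (-(x + 2 * a)) * Real.log l := by
    refine le_trans (le_of_eq ?_) (mul_le_mul_of_nonneg_left h1.le p1.le)
    rw [← Real.rpow_add h0]
    congr 1
    ring
  have b2 : T ^ (-(x' - 2 * a)) * Real.log l ≤ T ^ (-a) := by
    refine (mul_le_mul_of_nonneg_left h2 p2.le).trans (le_of_eq ?_)
    rw [← Real.rpow_add h0]
    congr 1
    ring
  have b3 : Real.exp (-(T ^ (-(x + 2 * a)) * Real.log l)) ≤ T ^ (-a) := by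
    rw [Real.rpow_neg h0.le a, Real.exp_neg]
    refine inv_anti₀ p3 (b1.trans ?_)
    linarith [Real.add_one_le_exp (T ^ (-(x + 2 * a)) * Real.log l)]
  have p4 : 0 ≤ (l : ℝ) ^ (-s) := Real.rpow_nonneg (Nat.cast_nonneg l) _
  have c1 := mul_le_mul_of_nonneg_left
    (mul_le_mul_of_nonneg_left b3 (by positivity : (0 : ℝ) ≤ k + 1)) p4
  have c2 := mul_le_mul_of_nonneg_left b2 p4
  linarith

theorem defT (hW : WlT) (hM : MertStmt) : DefT := by
  intro J k r a _ ha _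
  have ht : Tendsto (fun X : ℕ => Real.log X) atTop atTop :=
    Real.tendsto_log_atTop.comp tendsto_natCast_atTop_atTop
  filter_upwards [ht.eventually (xDfc_ev k ha)] with X ⟨h1, h2⟩ E _ j b _
  have h0 : 0 < Real.log X := by linarith
  have h3 := hM.2 (1 / Real.log X) (crj X J a E j b) (by positivity) fun l hl => (mem_seg.1 hl).1
  have h4 : Real.log (1 + 1 / (1 / Real.log X)) ≤ 2 * Real.log (Real.log X) := by
    rw [one_div_one_div, two_mul, ← Real.log_mul h0.ne' h0.ne']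
    exact Real.log_le_log (by linarith) (by nlinarith)
  have p3 : 0 < Real.log X ^ (-a) := Real.rpow_pos_of_pos h0 _
  refine le_trans (Finset.sum_le_sum fun l hl => xDfc_one hW k l (by linarith)
    (mem_seg.1 hl).1 (mem_seg.1 hl).2.2.1 (mem_seg.1 hl).2.2.2.1) ?_
  rw [← Finset.sum_mul]
  refine (mul_le_mul_of_nonneg_right (h3.trans h4) (by positivity)).trans ?_
  have e : tp X (-(a / 2)) = Real.log X ^ (a / 2) * Real.log X ^ (-a) := by
    rw [tp, ← Real.rpow_add h0]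
    congr 1
    ring
  rw [e]
  refine le_trans (le_of_eq ?_) (mul_le_mul_of_nonneg_right h2 p3.le)
  ring

end Pool.Agent.MP_e23604_nt.TN

end

section

namespace Pool.Agent.MP_e23604_nt.TN

open NumberField Finset Filter
open MP_f68ac8_nt MP_f68ac8_nt.Nd
open T (P0 rh lm9)
open scoped Topology BigOperators

theorem oneB (hW : WgT) (hM : MasT) (hD : DefT) : OneB := by
  intro J k r a hJ ha h12
  have t1 : Tendsto (fun X : ℕ => Real.log X) atTop atTop :=
    Real.tendsto_log_atTop.comp tendsto_natCast_atTop_atTop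
  have t2 : Tendsto LL atTop atTop := Real.tendsto_log_atTop.comp t1
  filter_upwards [hW J k r a hJ ha h12, hM J k r a hJ ha h12, hD J k r a hJ ha h12,
    t1.eventually_ge_atTop 1, t2.eventually_ge_atTop (24 * J), eventually_gt_atTop 1]
    with X h1 h2 h3 h4 h5 h6 E hE h24 m hm
  obtain ⟨w1, -, -, w4⟩ := h1 E hE
  obtain ⟨s1, s2, s3⟩ := w4 m
  have m1 := h2 E hE
  have d1 := h3 E hE (m.1.val - 2) m.2 (by have := m.1.isLt; omega)
  rw [← show cor X J a E m = crj X J a E (m.1.val - 2) m.2 from if_pos hm, sum_sub_distrib] at d1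
  have e1 : ∑ l ∈ cor X J a E m, dw X J k a (m.1.val - 2) l ≤
      TN.ms (Lam X E) (WW X J k a E) m := by
    rw [← sum_congr rfl fun l hl => s3 l (s1 hl)]
    exact sum_le_sum_of_subset_of_nonneg (s1.trans s2) fun l _ _ => (w1 m l).1
  have e2 : ∑ l ∈ cor X J a E m, (1 : ℝ) / l ≤ 3 * ∑ l ∈ cor X J a E m, (l : ℝ) ^ (-sX X) := by
    rw [mul_sum]
    refine sum_le_sum fun l hl => rpow_lb_NeMlo ?_ ?_ ?_
    · exact_mod_cast (m1.pri m l (s1 hl)).1.one_le
    · exact_mod_cast (m1.pri m l (s1 hl)).2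
    · exact_mod_cast h6
  have e3 : tp X (-(a / 2)) ≤ 1 := Real.rpow_le_one_of_one_le_of_nonpos h4 (by linarith)
  have e4 := m1.lo m hm
  have hJ' : (0 : ℝ) < J := Nat.cast_pos.2 hJ
  have e5 : 1 / 2 * (24 * J) ≤ (1 - 12 * J * a) * LL X :=
    mul_le_mul (by linarith) h5 (by positivity) (by linarith)
  have e6 : 6 ≤ ∑ l ∈ cor X J a E m, (1 : ℝ) / l :=
    le_of_mul_le_mul_left (a := 2 * (J : ℝ)) (by linarith) (by positivity)
  linarith

end Pool.Agent.MP_e23604_nt.TN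

end

section

namespace Pool.Agent.MP_e23604_nt.TN

open NumberField Finset Filter
open MP_f68ac8_nt MP_f68ac8_nt.Nd
open scoped Topology BigOperators

theorem parT (hO : OkT) (hW : WgT) (hM : MasT) (hD : DefT) (hm : MertStmt) : ParT := by
  obtain ⟨c, hc, hO⟩ := hO
  refine ⟨c, hc, fun J n r p₁ δ δ' A hJ d0 d1 d2 => ?_⟩
  have J0 : (0 : ℝ) < J := by exact_mod_cast hJ
  obtain ⟨a, a0, ha⟩ : ∃ a : ℝ, 0 < a ∧ 12 * J * a = δ :=
    ⟨δ / (12 * J), by positivity, by field_simp⟩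
  obtain ⟨k, hO⟩ := hO J n r p₁ a A hJ a0 (by linarith)
  have hl : Tendsto (fun X : ℕ => Real.log X) atTop atTop :=
    Real.tendsto_log_atTop.comp tendsto_natCast_atTop_atTop
  have h0 := ((tendsto_rpow_neg_atTop (show 0 < a / 2 by positivity)).comp hl).eventually_le_const
    (show 0 < δ' / Fintype.card (Mk J) from div_pos d2 (by exact_mod_cast Fintype.card_pos))
  filter_upwards [hO, hW J k (J + 1) a hJ a0 (by linarith), hM J k (J + 1) a hJ a0 (by linarith),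
    hD J k (J + 1) a hJ a0 (by linarith), h0, hl.eventually_ge_atTop 2] with X ⟨P, p1, p2, ok⟩
    hW hM hD h0 t2
  have hE : (insert 3 P).card ≤ J + 1 := (card_insert_le _ _).trans (Nat.succ_le_succ p1)
  obtain ⟨-, w2, w3, w4⟩ := hW _ hE
  refine ⟨_, _, P, cor X J a (insert 3 P), sup X J a (insert 3 P), ok, p1, p2,
    fun l h1 h2 h3 => mem_filter.2 ⟨mem_range.2 (by omega), h1.1, fun h => ?_⟩, w2, ?_,
    ha ▸ hM _ hE, fun m => (w4 m).1.trans (w4 m).2.1, fun m l h1 h2 => (w3 m l h2).2.2.2 h1, ?_⟩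
  · exact (mem_insert.1 h).elim h1.2 h3
  · simp only [ms]
    rw [sum_comm, sum_congr rfl w2]
    have h1 := hm.2 (1 / Real.log X) (Lam X (insert 3 P)) (by positivity)
      fun l hl => (mem_filter.1 hl).2.1
    rw [one_div_one_div] at h1
    refine h1.trans ?_
    rw [LL, ← Nat.cast_ofNat, ← Real.log_pow]
    exact Real.log_le_log (by linarith) (by nlinarith)
  · have h1 : ∀ m : Mk J, ∑ l ∈ cor X J a (insert 3 P) m, ((l : ℝ) ^ (-(1 + 1 / Real.log X)) -
        WW X J k a (insert 3 P) m l) ≤ δ' / Fintype.card (Mk J) := fun m => by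
      refine le_trans ?_ h0
      rw [sum_congr rfl fun l hl => by rw [(w4 m).2.2 l ((w4 m).1 hl)], cor]
      split_ifs with h
      · exact hD _ hE _ _ (by omega)
      · rw [sum_empty]
        exact Real.rpow_nonneg (by linarith) _
    refine (sum_le_card_nsmul _ _ _ fun m _ => h1 m).trans (le_of_eq ?_)
    rw [nsmul_eq_mul, card_univ, mul_div_cancel₀]
    exact_mod_cast Fintype.card_ne_zero

end Pool.Agent.MP_e23604_nt.TN

end
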