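import Mathlib
import Pool.Agent.Mg.Fe23604m.G06f121

set_option linter.all false

namespace Pool.Agent.MP_e23604_nt.T

open Finset Filter NumberField
open MP_f68ac8_nt (cyc IsFrob)
open MP_f68ac8_nt.Zv (Ex Prob piV Unf Bx)
open MP_f68ac8_nt.Zk (NS brL lk msk Av)
open MP_f68ac8_nt.Nd (Lr Fr Gz Exm fP kap np OKp)
open Q (Wn Pre rot0)
open scoped BigOperators Topology

section
variable {V : Type} [AddCommGroup V] {J : V ≃ₗ[ℤ] V} {T : V}

theorem mem_XBasT {n : ℕ} {u : V} : u ∈ Wn J n ↔ (Q.om J ^ n) u = 0 := Iff.rfl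

theorem om_XBasT (u : V) : Q.om J u = J u - u := rfl

theorem succ_XBasT (n : ℕ) (u : V) : Q.om J u ∈ Wn J n ↔ u ∈ Wn J (n + 1) := by
  rw [mem_XBasT, mem_XBasT, pow_succ, Module.End.mul_apply]

theorem mono_XBasT : Monotone (Wn J) := monotone_nat_of_le_succ fun n u hu => by
  rw [mem_XBasT] at hu ⊢
  rw [pow_succ', Module.End.mul_apply, hu, map_zero]

theorem com_XBasT (n : ℕ) : ∀ u : V, (Q.om J ^ n) (J u) = J ((Q.om J ^ n) u) := by
  induction n with
  | zero => intro u; rfl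
  | succ n ih =>
    intro u
    rw [pow_succ', Module.End.mul_apply, Module.End.mul_apply, ih, om_XBasT, om_XBasT, map_sub]

theorem pre_XBasT : Pre J J := fun n u => by
  rw [mem_XBasT, mem_XBasT, com_XBasT, map_eq_zero_iff J J.injective]

theorem three_XBasT (h : Cm0 J T) (n : ℕ) (u : V) : 3 • u ∈ Wn J n ↔ u ∈ Wn J (n + 2) := by
  have e : Q.om J (Q.om J u) = -J (3 • u) := by
    have h1 := h.sq u
    rw [om_XBasT, om_XBasT, map_sub, map_nsmul]
    linear_combination (norm := abel) h1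
  rw [← succ_XBasT (n + 1), ← succ_XBasT n, e, neg_mem_iff, pre_XBasT]

theorem tor_XBasT (h : Cm0 J T) : 3 • T = 0 := by
  have h1 := h.sq T
  rw [h.fix, h.fix] at h1
  linear_combination (norm := abel) h1

theorem vadd_XBasT (h : Cm0 J T) (a b : ZMod 3) : (a + b).val • T = a.val • T + b.val • T := by
  rw [ZMod.val_add, ← add_smul]
  conv_rhs => rw [← Nat.mod_add_div (a.val + b.val) 3, add_smul, mul_comm 3, mul_smul,
    tor_XBasT h, smul_zero, add_zero]

theorem vneg_XBasT (h : Cm0 J T) : (-1 : ZMod 3).val • T = -T := by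
  have h1 := tor_XBasT h
  rw [show (-1 : ZMod 3).val = 2 from rfl]
  linear_combination (norm := abel) h1

theorem vzero_XBasT (h : Cm0 J T) {a : ZMod 3} : a.val • T = 0 ↔ a = 0 := by
  have h3 : ∀ a : ZMod 3, a = 0 ∨ a = 1 ∨ a = -1 := by decide
  rcases h3 a with rfl | rfl | rfl
  · simp
  · rw [ZMod.val_one, one_smul]
    exact iff_of_false h.ne (by decide)
  · rw [vneg_XBasT h, neg_eq_zero]
    exact iff_of_false h.ne (by decide)

theorem vinj_XBasT (h : Cm0 J T) {a b : ZMod 3} (e : a.val • T = b.val • T) : a = b := by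
  have h1 := vadd_XBasT h (a - b) b
  rw [sub_add_cancel, e] at h1
  exact sub_eq_zero.1 ((vzero_XBasT h).1 (right_eq_add.1 h1))

theorem dig_XBasT (h : Cm0 J T) {n : ℕ} {u : V} (hu : u ∈ Wn J (n + 1)) :
    (dig J T n u).val • T = (Q.om J ^ n) u := by
  have h1 : (Q.om J ^ n) u ∈ Wn J 1 := by
    rw [mem_XBasT] at hu ⊢
    rwa [pow_succ', Module.End.mul_apply] at hu
  unfold dig
  split_ifs with h2 h3
  · rw [ZMod.val_one, one_smul, h2]
  · rw [vneg_XBasT h, h3]
  · rw [ZMod.val_zero, zero_smul]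
    exact (((h.one _ h1).resolve_right fun e => e.elim h2 h3)).symm

theorem add_XBasT (h : Cm0 J T) {n : ℕ} {u u' : V} (hu : u ∈ Wn J (n + 1))
    (hu' : u' ∈ Wn J (n + 1)) : dig J T n (u + u') = dig J T n u + dig J T n u' :=
  vinj_XBasT h (by
    rw [vadd_XBasT h, dig_XBasT h hu, dig_XBasT h hu', dig_XBasT h (add_mem hu hu'), map_add])

end

theorem x_BasT : BasT := by
  intro V _ J T h
  have h0 : ∀ n, ∀ u ∈ Wn J (n + 1), dig J T n u = 0 ↔ u ∈ Wn J n := fun n u hu => by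
    rw [← vzero_XBasT h, dig_XBasT h hu, mem_XBasT]
  refine ⟨fun a b hab => mono_XBasT hab, ?_, succ_XBasT, pre_XBasT, three_XBasT h, h0,
    fun n u hu u' hu' => ⟨add_XBasT h hu hu', ?_⟩, fun n k u hu => ?_, fun n u w hw => ?_,
    fun n u => ⟨?_, rfl⟩, ?_, ?_⟩
  · rw [Wn, pow_zero]
    exact LinearMap.ker_id
  · rw [eq_sub_iff_add_eq, ← add_XBasT h (sub_mem hu hu') hu', sub_add_cancel]
  · induction k with
    | zero =>
      rw [zero_smul, Nat.cast_zero, zero_mul]
      exact (h0 n 0 (zero_mem _)).2 (zero_mem _)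
    | succ k ih =>
      rw [succ_nsmul, add_XBasT h (nsmul_mem hu k) hu, ih, Nat.cast_succ, add_one_mul]
  · unfold dig
    rw [map_add, mem_XBasT.1 hw, add_zero]
  · unfold dig
    rw [pow_succ, Module.End.mul_apply]
  · rw [mem_XBasT, pow_one, om_XBasT, h.fix, sub_self]
  · exact if_pos rfl

end Pool.Agent.MP_e23604_nt.T
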