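import Pool.Agent.Mg.Fe23604m.G9b4e87
import Pool.Agent.Mg.Fe23604m.Ga53936

set_option linter.all false

namespace Pool.Agent.MP_e23604_nt.TN

open NumberField Finset Filter
open MP_f68ac8_nt MP_f68ac8_nt.Nd
open T (P0 rh lm9)
open scoped Topology BigOperators

theorem xNum_ev (K : ℝ) {a : ℝ} (a0 : 0 < a) : ∀ᶠ T : ℝ in atTop, K * Real.log T ^ 5 ≤ T ^ a := by
  filter_upwards [(isLittleO_log_rpow_rpow_atTop 5 a0).bound (c := 1 / (|K| + 1)) (by positivity),
    eventually_ge_atTop 1] with T h t1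
  have h0 := Real.log_nonneg t1
  rw [Real.norm_of_nonneg (Real.rpow_nonneg h0 _),
    Real.norm_of_nonneg (Real.rpow_nonneg (by linarith) _), one_div_mul_eq_div,
    le_div_iff₀ (by positivity), show (5 : ℝ) = (5 : ℕ) by norm_num, Real.rpow_natCast] at h
  nlinarith [le_abs_self K, pow_nonneg h0 5]

theorem xNum_last {T P P' w v c₀ : ℝ} {k r r' : ℕ} (t1 : 1 ≤ T) (p1 : 1 ≤ P) (w1 : 1 ≤ w)
    (c0 : 0 < c₀) (q0 : 0 < P') (h1 : P * w ≤ T) (hv : (w ^ 2)⁻¹ ^ (k + 1) ≤ v) (hr : r' ≤ r) :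
    P * w * ((P * w ^ 4)⁻¹ / (c₀ * (P * w ^ 2)⁻¹)) ^ (k + 1) +
      los (P * w ^ 4)⁻¹ (P'⁻¹ * w ^ 4) (1 + 1 / T) (P * w ^ 2) P' k r' ≤
      (c₀⁻¹ ^ (k + 1) + 1 + (r + 2) * (k + 1).factorial) * (T * v) := by
  have v0 : 0 ≤ v := le_trans (by positivity) hv
  have e1 : (P * w ^ 4)⁻¹ / (c₀ * (P * w ^ 2)⁻¹) = c₀⁻¹ * (w ^ 2)⁻¹ := by field_simp
  have e2 : (P * w ^ 4)⁻¹ * (P * w ^ 2) = (w ^ 2)⁻¹ := by field_simp
  have e3 : P'⁻¹ * w ^ 4 * P' = w ^ 4 := by field_simp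
  have w2 : 1 ≤ w ^ 2 := one_le_pow₀ w1
  have x1 : Real.exp (-(w ^ 2)) ≤ (k + 1).factorial * v := by
    have h := Real.pow_div_factorial_le_exp (w ^ 2) (by positivity) (k + 1)
    rw [Real.exp_neg]
    refine (inv_anti₀ (by positivity) h).trans ?_
    rw [inv_div, div_eq_mul_inv, ← inv_pow]
    exact mul_le_mul_of_nonneg_left hv (by positivity)
  have x2 : Real.exp (-(w ^ 4)) ≤ (k + 1).factorial * v :=
    (Real.exp_le_exp.2 (by nlinarith)).trans x1
  have x3 : Real.exp (-(P * w ^ 2)) ≤ (k + 1).factorial * v :=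
    (Real.exp_le_exp.2 (by nlinarith)).trans x1
  rw [los, e1, e2, e3, add_sub_cancel_left, div_div_eq_mul_div, div_one, mul_pow]
  have a1 : P * w * (c₀⁻¹ ^ (k + 1) * (w ^ 2)⁻¹ ^ (k + 1)) ≤ T * (c₀⁻¹ ^ (k + 1) * v) :=
    mul_le_mul h1 (mul_le_mul_of_nonneg_left hv (by positivity)) (by positivity) (by linarith)
  have a2 := mul_le_mul_of_nonneg_right (add_le_add hv x2) (show 0 ≤ T by linarith)
  have a3 : ((r' : ℝ) + 1) * Real.exp (-(P * w ^ 2)) ≤ (r + 1) * ((k + 1).factorial * v * T) :=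
    mul_le_mul (by exact_mod_cast Nat.succ_le_succ hr)
      (x3.trans (le_mul_of_one_le_right (by positivity) t1)) (by positivity) (by positivity)
  linarith

theorem numT : NumT := by
  intro a A B c c₀ C ρ₀ k r a0 c0 c1 C0 ρ0 hk
  filter_upwards [eventually_ge_atTop 1, Real.tendsto_log_atTop.eventually_ge_atTop 1,
    xNum_ev (|B| + 2 + c₀ / ρ₀ + c₀ / c + C / c₀) (half_pos a0),
    ev_NePar (C * (c₀⁻¹ ^ (k + 1) + 1 + (r + 2) * (k + 1).factorial)) (a := -(|A| + 2)) (b := -A)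
      (by linarith [le_abs_self A])] with T t1 l1 hw hA x x' x0 hx x1
  have t0 : 0 < T := by linarith
  have mono : ∀ {y z : ℝ}, y ≤ z → T ^ y ≤ T ^ z := Real.rpow_le_rpow_of_exponent_le t1
  have pw' : ∀ n : ℕ, T ^ (n * (a / 2)) = (T ^ (a / 2)) ^ n := fun n => by
    rw [mul_comm, Real.rpow_mul_natCast t0.le]
  have e1 : T ^ (x + a / 2) = T ^ x * T ^ (a / 2) := Real.rpow_add t0 _ _
  have e2 : T ^ (x + a) = T ^ x * (T ^ (a / 2)) ^ 2 := by
    rw [← pw', ← Real.rpow_add t0]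
    congr 1
    push_cast
    ring
  have e4 : T ^ (x + 2 * a) = T ^ x * (T ^ (a / 2)) ^ 4 := by
    rw [← pw', ← Real.rpow_add t0]
    congr 1
    push_cast
    ring
  have e5 : T ^ (-(x' - 2 * a)) = (T ^ x')⁻¹ * (T ^ (a / 2)) ^ 4 := by
    rw [← pw', ← Real.rpow_neg t0.le, ← Real.rpow_add t0]
    congr 1
    push_cast
    ring
  have b1 : T ^ (-(x' - 2 * a)) ≤ T ^ (-(x + 2 * a)) := mono (by linarith)
  have b2 : 1 / T ≤ T ^ (-(x' - 2 * a)) := by
    rw [one_div, ← Real.rpow_neg_one]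
    exact mono (by linarith)
  have b3 : T ^ (x + a / 2) ≤ T := (mono (by linarith)).trans_eq (Real.rpow_one T)
  have b4 : Real.log (T ^ (x + a / 2)) ≤ Real.log T := Real.log_le_log (by positivity) b3
  have b5 : ((T ^ (a / 2)) ^ 2)⁻¹ ^ (k + 1) ≤ T ^ (-(|A| + 3)) := by
    rw [← pw', ← Real.rpow_neg t0.le, ← Real.rpow_mul_natCast t0.le]
    refine mono ?_
    push_cast
    linarith
  have b6 : T * T ^ (-(|A| + 3)) = T ^ (-(|A| + 2)) := by
    rw [mul_comm, ← Real.rpow_add_one t0.ne']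
    congr 1
    ring
  have p1 : 1 ≤ T ^ x := Real.one_le_rpow t1 x0
  have w1 : 1 ≤ T ^ (a / 2) := Real.one_le_rpow t1 (half_pos a0).le
  have q0 : 0 < T ^ x' := by positivity
  have last := fun r' (h : r' ≤ r) => xNum_last (r' := r') t1 p1 w1 c1 q0 (e1 ▸ b3) b5 h
  rw [b6] at last
  rw [Real.rpow_neg t0.le (x + 2 * a)] at b1
  rw [qM, Real.rpow_neg t0.le (x + a), Real.rpow_neg t0.le (x + 2 * a)]
  refine ⟨?_, ?_, by positivity, ?_, ?_, ?_, by positivity, b1, ?_,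
    lt_add_of_pos_right _ (by positivity), add_le_add_right b2 _, mono (by linarith), ?_, ?_,
    fun r' h => ?_⟩
  rotate_right
  · rw [e1, e2, e4, e5]
    exact (mul_le_mul_of_nonneg_left (last r' h) C0.le).trans (mul_assoc C _ _ ▸ hA)
  all_goals
    simp only [e1, e2, e4] at b4 ⊢
    clear last hA b1 b2 b3 b5 b6 e1 e2 e4 e5 pw'
    generalize T ^ x = P at *
    generalize T ^ (a / 2) = w at *
    generalize Real.log T = L at *
    have L2 : L ^ 2 ≤ L ^ 5 := pow_le_pow_right₀ l1 (by norm_num)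
    have L3 : L ^ 3 ≤ L ^ 5 := pow_le_pow_right₀ l1 (by norm_num)
    have L1 : L ≤ L ^ 5 := le_self_pow₀ l1 (by norm_num)
    have k1 := mul_le_mul_of_nonneg_left (l1.trans L1) (abs_nonneg B)
    have k2 := mul_le_mul_of_nonneg_left (l1.trans L1) (div_pos c1 ρ0).le
    have k3 := mul_le_mul_of_nonneg_left (l1.trans L1) (div_pos c1 c0).le
    have k4 := mul_le_mul_of_nonneg_left (l1.trans L1) (div_pos C0 c1).le
    have k5 := abs_nonneg B
    have k6 := div_pos c1 ρ0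
    have k7 := div_pos c1 c0
    have k8 := div_pos C0 c1
    have w2 : w ≤ w ^ 2 := le_self_pow₀ w1 two_ne_zero
    have w3 : w ^ 2 ≤ P * w ^ 2 := le_mul_of_one_le_left (by positivity) p1
  · have k9 : |B| + L ^ 5 + L ^ 2 ≤ w := by linarith
    have := mul_le_mul_of_nonneg_left k9 (zero_le_one.trans p1)
    have := le_mul_of_one_le_left (show 0 ≤ |B| + L ^ 5 by positivity) p1
    linarith [le_abs_self B]
  · exact one_le_mul_of_one_le_of_one_le p1 w1
  · rw [← div_eq_mul_inv]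
    have k9 := Real.log_nonneg (one_le_mul_of_one_le_of_one_le p1 w1)
    refine div_le_div_of_nonneg_left c1.le (by positivity) ?_
    rw [sq, ← mul_assoc]
    exact mul_le_mul_of_nonneg_left (by linarith) (by positivity)
  · rw [← div_eq_mul_inv, div_le_iff₀ (by positivity), ← div_le_iff₀' ρ0]
    linarith
  · rw [← div_eq_mul_inv, div_le_div_iff₀ (by positivity) (by positivity)]
    have k9 : c₀ ≤ c * w := by
      rw [← div_le_iff₀' c0]
      linarith
    have := mul_le_mul_of_nonneg_right k9 (show 0 ≤ P * w by positivity)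
    linarith
  · rw [← div_eq_mul_inv, ← div_eq_mul_inv, div_le_div_iff₀ (by positivity) (by positivity)]
    have k9 : C ≤ c₀ * w ^ 2 := by
      rw [← div_le_iff₀' c1]
      linarith
    have := mul_le_mul_of_nonneg_right k9 (show 0 ≤ P * w ^ 2 by positivity)
    linarith
  · linarith
  · linarith

end Pool.Agent.MP_e23604_nt.TN
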