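import Pool.Agent.Mg.Fe23604m.G9b4e87
import Pool.Agent.Mg.Fe23604m.G318bc4
import Pool.Agent.Mg.Fe23604m.G65b452

set_option linter.all false

section

namespace Pool.Agent.MP_e23604_nt.TN

open NumberField Finset Filter
open MP_f68ac8_nt MP_f68ac8_nt.Nd
open T (P0 rh lm9)
open scoped Topology BigOperators

open MP_f68ac8_nt.Ev MP_f68ac8_nt.Pv MP_f68ac8_nt.Sv MP_f68ac8_nt.Zv MP_f68ac8_nt.Zk in
theorem kumT : KumT := by
  intro R y hR
  obtain ⟨-, -, -, k4, -, -, k7, -⟩ := kk_stmt 3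
  have hne : ∀ m ∈ R, (m : Qb) ≠ 0 := fun m hm => Nat.cast_ne_zero.2 (hR m hm).ne_zero
  have hB : ∀ g ∈ Gz 3, ∀ h, Bq R y (g * h) = Bq R y g + Bq R y h := fun g hg h => by
    rw [Bq, Bq, Bq, ← Finset.sum_add_distrib]
    refine Finset.sum_congr rfl fun m hm => ?_
    rw [k4 m g h (hne m hm) (map_natCast g m) (map_natCast h m) hg, mul_add]
  have hC : ∀ t, ∀ g ∈ Gz 3, Bq R y (t * g * t⁻¹) = cyc (Ω := Qa) 3 t * Bq R y g :=
    fun t g hg => by
      rw [Bq, Bq, Finset.mul_sum]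
      refine Finset.sum_congr rfl fun m hm => ?_
      rw [conj_NjKum (hR m hm) t hg, mul_left_comm]
  have hb : ∀ g ∈ (cyc (Ω := Qa) 3).ker, ∀ h ∈ (cyc (Ω := Qa) 3).ker,
      Bq R y (g * h) = Bq R y g + Bq R y h := fun g hg h _ => hB g hg h
  have hcj : ∀ t, ∀ g ∈ Gz 3, t * g * t⁻¹ ∈ Gz 3 := fun t g hg =>
    (MonoidHom.normal_ker _).conj_mem g hg t
  refine ⟨hB, hC, ?_, ?_⟩
  · obtain ⟨N, hN0, hi⟩ := idx_NjKum hb hb
    have hN : ∀ g, g ∈ N ↔ g ∈ Gz 3 ∧ Bq R y g = 0 := fun g => by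
      rw [hN0, and_self]
      rfl
    have h3 : ∀ g ∈ Gz 3, g ^ 3 ∈ N := fun g hg =>
      (hN _).2 ⟨(Gz 3).pow_mem hg 3, by rw [pow_NhOff hb hg, ZMod.natCast_self, zero_mul]⟩
    refine ⟨N, ⟨⟨fun l hl => ?_, ⟨fun g hg t => ?_⟩, ?_, hi, fun P hP h1 g hg => ?_⟩,
      fun g hg => ((hN g).1 hg).1, fun g hg => ⟨1, h3 g hg⟩⟩, h3, hN⟩
    · rcases Finset.mem_insert.1 hl with rfl | h
      · exact Nat.prime_three
      · exact hR l h
    · obtain ⟨a, c⟩ := (hN g).1 hg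
      exact (hN _).2 ⟨hcj t g a, by rw [hC t g a, c, mul_zero]⟩
    · filter_upwards [cyc_nhds (Ω := Qa) 3,
        (eventually_all_finset R).2 fun m hm => k7 m (hne m hm)] with g a c
      refine (hN g).2 ⟨a, Finset.sum_eq_zero fun m hm => ?_⟩
      rw [c m hm, mul_zero]
    · have h2 := h1 3 (Finset.mem_insert_self 3 R)
      refine (hN g).2 ⟨cyc_inertia h2 hg, Finset.sum_eq_zero fun m hm => ?_⟩
      rw [unr_NjKum (hR m hm) hP h2 (h1 m (Finset.mem_insert_of_mem hm)) hg, mul_zero]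
  · rintro ⟨m, hm, hy⟩
    by_contra h0
    push Not at h0
    exact hy (ind_NjKum hR h0 hm)

end Pool.Agent.MP_e23604_nt.TN

end

section

namespace Pool.Agent.MP_e23604_nt.TN

open NumberField Finset Filter
open MP_f68ac8_nt MP_f68ac8_nt.Nd
open T (P0 rh lm9)
open scoped Topology BigOperators

theorem xLog_one (m : ℕ) (hm : Zk.P1 3 m) : ∃ f : ℕ → ZMod 3,
    (∀ a b : ℕ, a.Coprime m → b.Coprime m → f (a * b) = f a + f b) ∧
    (∀ a b : ℕ, a ≡ b [MOD m] → f a = f b) ∧ (∃ a : ℕ, a.Coprime m ∧ f a = 1) ∧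
    ∀ l : ℕ, l.Prime → l ≠ m → f l = Zk.lk 3 l m := by
  obtain ⟨_, ψ, hs, hψ⟩ := Zk.ok_ZmCh hm
  have key : ∀ (a : ℕ) (u : (ZMod m)ˣ), a.Coprime m → (u : ZMod m) = a →
      (if h : a.Coprime m then (ψ (ZMod.unitOfCoprime a h)).toAdd else 0) = (ψ u).toAdd :=
    fun a u h e => by
      rw [dif_pos h, show ZMod.unitOfCoprime a h = u from Units.ext e.symm]
  refine ⟨fun a => if h : a.Coprime m then (ψ (ZMod.unitOfCoprime a h)).toAdd else 0,
    fun a b ha hb => ?_, fun a b h => ?_, ?_, fun l hl h => ?_⟩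
  · beta_reduce
    rw [key _ (ZMod.unitOfCoprime a ha * ZMod.unitOfCoprime b hb) (ha.mul_left hb)
      (Nat.cast_mul a b).symm, dif_pos ha, dif_pos hb, map_mul, toAdd_mul]
  · beta_reduce
    have e : a.Coprime m ↔ b.Coprime m := by rw [Nat.Coprime, Nat.Coprime, h.gcd_eq]
    by_cases hb : b.Coprime m
    · rw [key a (ZMod.unitOfCoprime b hb) (e.2 hb)
        ((ZMod.natCast_eq_natCast_iff _ _ _).2 h).symm, dif_pos hb]
    · rw [dif_neg hb, dif_neg (mt e.1 hb)]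
  · obtain ⟨u, hu⟩ := hs (Multiplicative.ofAdd 1)
    refine ⟨(u : ZMod m).val, ZMod.val_coe_unit_coprime u, ?_⟩
    beta_reduce
    rw [key _ u (ZMod.val_coe_unit_coprime u) (ZMod.natCast_zmod_val _).symm, hu, toAdd_ofAdd]
  · obtain ⟨P, hP, hlP⟩ := exists_maximal_mem (Ω := Qb) hl
    obtain ⟨σ, hσ⟩ := exists_frob P hl hlP
    beta_reduce
    rw [key l (cyc m σ) ((Nat.coprime_primes hl hm.1).2 h)
      (cyc_frob (Zk.nm_ZmCh hl hm.1 h.symm hP hlP) hσ), ← hψ,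
      Zk.lk_ZmCh hl hm h.symm hP hlP hσ]

theorem logT : LogT := by
  choose! f hf using xLog_one
  exact ⟨f, hf⟩

end Pool.Agent.MP_e23604_nt.TN

end

section

namespace Pool.Agent.MP_e23604_nt.TN

open NumberField Finset Filter
open MP_f68ac8_nt MP_f68ac8_nt.Nd
open T (P0 rh lm9)
open scoped Topology BigOperators

theorem xWg_mem {X l : ℕ} {E : Finset ℕ} : l ∈ Lam X E ↔ l ≤ X ∧ l.Prime ∧ l ∉ E := by
  rw [Lam, mem_filter, mem_range, Nat.lt_succ_iff]

theorem xWg_mono {X : ℕ} (hX : 1 ≤ Real.log X) {x y : ℝ} (h : x ≤ y) : tp X x ≤ tp X y :=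
  Real.rpow_le_rpow_of_exponent_le hX h

theorem xWg_log : ∀ᶠ X : ℕ in atTop, 1 ≤ Real.log X :=
  (Real.tendsto_log_atTop.comp tendsto_natCast_atTop_atTop).eventually_ge_atTop 1

theorem wgT (hL : LwT) : WgT := by
  intro J k r a hJ ha hJa
  filter_upwards [hL J k r a hJ ha hJa, xWg_log] with X H hX E hE
  have H := H E hE
  have hsub : ∀ m : Mk J, sup X J a E m ⊆ Lam X E := by
    intro m l hl
    unfold sup at hl
    split_ifs at hl with h2
    · obtain ⟨a1, -, -, a4, a5⟩ := mem_seg.1 hl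
      refine xWg_mem.2 ⟨?_, a1, a5⟩
      have hJ' : (0 : ℝ) < J := by exact_mod_cast hJ
      have h3 : (((m.1.val - 2 : ℕ) : ℝ) + 1) / J ≤ 1 := by
        rw [div_le_one hJ']
        have := m.1.2
        exact_mod_cast (by omega : m.1.val - 2 + 1 ≤ J)
      have h4 := a4.trans (xWg_mono hX h3)
      rw [tp, Real.rpow_one] at h4
      have h5 : (0 : ℝ) < X := by
        rcases Nat.eq_zero_or_pos X with rfl | h
        · norm_num at hX
        · exact_mod_cast h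
      exact_mod_cast (Real.log_le_log_iff (Nat.cast_pos.2 a1.pos) h5).1 h4
    · exact absurd hl (notMem_empty _)
  refine ⟨fun m l => ?_, fun l hl => ?_, fun m l h => ?_, fun m => ⟨?_, hsub m, fun l hl => ?_⟩⟩
  · unfold WW
    split_ifs with h
    · exact (H l (xWg_mem.1 h.1).2.1).1 _ m.1.2
    · exact ⟨le_rfl, Real.rpow_nonneg (Nat.cast_nonneg _) _⟩
  · rw [Fintype.sum_prod_type, ← (H l (xWg_mem.1 hl).2.1).2.1,
      ← Fin.sum_univ_eq_sum_range (fun i => lw X J k a i l)]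
    refine sum_congr rfl fun i _ => ?_
    simp only [WW, hl, true_and]
    rw [sum_ite_eq, if_pos (mem_univ _)]
  · unfold WW at h
    split_ifs at h with h1
    swap
    · exact absurd rfl h
    refine ⟨h1.1, h1.2, ?_, fun h2 => ?_⟩
    · unfold lw at h
      by_cases h3 : Real.log l ≤ LL X ^ 3
      · rw [if_pos h3] at h
        exact ⟨fun _ => h3, fun _ => by_contra fun e => h (if_neg e)⟩
      · rw [if_neg h3] at h
        exact ⟨fun e => absurd (if_pos e) h, fun e => absurd e h3⟩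
    · obtain ⟨j, hj⟩ : ∃ j, m.1.val = j + 2 := ⟨m.1.val - 2, by omega⟩
      obtain ⟨-, b2, b3⟩ := xWg_mem.1 h1.1
      rw [hj, (H l b2).2.2, bw] at h
      rw [sup, if_pos h2, hj, Nat.add_sub_cancel]
      split_ifs at h with h4
      · exact mem_seg.2 ⟨b2, h1.2, h4.1, h4.2, b3⟩
      · exact absurd rfl h
  · intro l hl
    unfold cor at hl
    unfold sup
    split_ifs at hl ⊢ with h2
    · obtain ⟨a1, a2, a3, a4, a5⟩ := mem_seg.1 hl
      exact mem_seg.2 ⟨a1, a2, (xWg_mono hX (by linarith)).trans_lt a3,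
        a4.trans (xWg_mono hX (by linarith)), a5⟩
    · exact hl
  · have h0 := hsub m hl
    unfold sup at hl
    split_ifs at hl with h2
    · obtain ⟨a1, a2, a3, a4, -⟩ := mem_seg.1 hl
      obtain ⟨j, hj⟩ : ∃ j, m.1.val = j + 2 := ⟨m.1.val - 2, by omega⟩
      rw [hj, Nat.add_sub_cancel] at a3 a4
      rw [WW, if_pos ⟨h0, a2⟩, hj, (H l a1).2.2, bw, if_pos ⟨a3, a4⟩, Nat.add_sub_cancel]
    · exact absurd hl (notMem_empty _)

end Pool.Agent.MP_e23604_nt.TN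

end
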