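import Pool.Agent.Mg.Fe23604m.G9b4e87
import Pool.Agent.Mg.Fe23604m.G200097
import Pool.Agent.Mg.Fe23604m.G937cae

set_option linter.all false

section

namespace Pool.Agent.MP_e23604_nt.TN

open NumberField Finset Filter
open MP_f68ac8_nt MP_f68ac8_nt.Nd
open T (P0 rh lm9)
open scoped Topology BigOperators

theorem xBandT_log : Real.log 3 ≤ 2 := by
  have := Real.log_le_sub_one_of_pos (show (0 : ℝ) < 3 by norm_num)
  linarith

theorem bandT (hC : CutT) (hG : BandG) (hZ : GzP 3) : BandT := by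
  classical
  intro n
  obtain ⟨c, hc, h1⟩ := hC n
  refine ⟨c, hc, fun k => ?_⟩
  obtain ⟨C, hC0, h2⟩ := h1 k
  refine ⟨2 * C + k + 1, by positivity, ?_⟩
  intro R N hR hN M ρ h h' s τ U V hM hρ hρc hg h'0 hh' hCh hs hs' hτ hMU hU E b σ hσ e φ hφ
  choose! σ₀ hσ₀ using hZ.2.2.2.1
  obtain ⟨σ', e1, e2⟩ : ∃ σ' : ℕ → GQ, (∀ l ∈ seg E b U V, σ' l = σ l) ∧
      ∀ l, l.Prime → Fr l (σ' l) :=
    ⟨fun l => if l ∈ seg E b U V then σ l else σ₀ l, fun l hl => if_pos hl, fun l hl => by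
      dsimp only
      split_ifs with h3
      exacts [hσ l h3, hσ₀ l hl]⟩
  have h0 : 0 < h := h'0.trans_le hh'
  have hk : (0 : ℝ) ≤ k := Nat.cast_nonneg k
  have hsz : 0 ≤ ∑ l ∈ R, Real.log l := sum_nonneg fun l _ => Real.log_natCast_nonneg l
  have hM1 : 1 + ∑ l ∈ R, Real.log l ≤ M := hM
  have hM0 : 0 ≤ M := by linarith
  have hB : 0 ≤ M * (h / ρ) ^ (k + 1) := by positivity
  have key := hG (fun l => tw τ l * 𝔼 a : Exm e, φ (σ' l ^ (a.1 : ℕ))) s h h' U V
    (C * (M * (h / ρ) ^ (k + 1))) C k E b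
    (fun l => by
      rw [norm_mul, tw_NbCheb, one_mul]
      exact norm_NbArtin fun _ => hφ.le _) hs h'0 hh' (by linarith) hC0.le
    fun h₁ hh₁ A η hA hη => by
      have a1 : h' ≤ h₁ := by rcases hh₁ with rfl | rfl; exacts [hh', le_rfl]
      have a2 : h₁ ≤ h := by rcases hh₁ with rfl | rfl; exacts [le_rfl, hh']
      have a3 : 0 < h₁ := h'0.trans_le a1
      have a4 := h2 R N hR hN M ρ h₁ s τ η hM hρ hρc hg a3 (by nlinarith) hs (by linarith) hτ A b σ'
        (fun l hl => ⟨(hA l hl).1, fun e3 => by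
          have := (hA l hl).2
          rw [e3, Nat.cast_ofNat] at this
          linarith [xBandT_log], fun e3 => by
          have := single_le_sum (f := fun l : ℕ => Real.log l)
            (fun l _ => Real.log_natCast_nonneg l) e3
          linarith [(hA l hl).2], e2 l (hA l hl).1⟩) hη e φ hφ
      simp only [mul_assoc] at a4 ⊢
      refine a4.trans ?_
      have a5 : M * (h₁ / ρ) ^ (k + 1) ≤ M * (h / ρ) ^ (k + 1) := by gcongr
      nlinarith
  have hl : 0 ≤ los h h' s U V k E.card := by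
    have : 0 < s - 1 := by linarith
    have : 0 ≤ U := by linarith
    unfold los
    positivity
  rw [sum_congr rfl fun l hl => by rw [mul_assoc, ← e1 l hl]]
  refine key.trans ?_
  nlinarith

end Pool.Agent.MP_e23604_nt.TN

end

section

namespace Pool.Agent.MP_e23604_nt.TN

open NumberField Finset Filter
open MP_f68ac8_nt MP_f68ac8_nt.Nd
open T (P0 rh lm9)
open scoped Topology BigOperators

/-- numbers with a deviating number of prime factors in `A` -/
noncomputable def xReg_T (X : ℕ) (A : Finset ℕ) (t : ℝ) : Finset ℕ :=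
  (Icc 1 X).filter fun n => t ≤ |((n.primeFactors ∩ A).card : ℝ) - ∑ l ∈ A, (1 : ℝ) / l|

theorem xReg_card (hT : TkT) {X : ℕ} {A : Finset ℕ} {t B : ℝ} (hA : ∀ l ∈ A, l.Prime ∧ l ≤ X)
    (ht : 0 < t) (hB : ∑ l ∈ A, (1 : ℝ) / l ≤ B) :
    ((xReg_T X A t).card : ℝ) ≤ 3 * X * B / t ^ 2 :=
  (hT X A t hA ht).trans (by gcongr)

theorem xReg_not {X n : ℕ} {A : Finset ℕ} {t : ℝ} (hn : n ∈ Icc 1 X) (h : n ∉ xReg_T X A t) :
    |((n.primeFactors ∩ A).card : ℝ) - ∑ l ∈ A, (1 : ℝ) / l| < t :=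
  not_le.1 fun e => h (mem_filter.2 ⟨hn, e⟩)

theorem xReg_mert (h2 : MertP 2) : ∃ C : ℝ, ∀ X : ℕ, 2 ≤ X →
    |∑ l ∈ (range (X + 1)).filter Nat.Prime, (1 : ℝ) / l - LL X| ≤ C := by
  obtain ⟨C, hC⟩ := h2
  refine ⟨C, fun X hX => ?_⟩
  have h := hC X (by exact_mod_cast hX)
  rw [Nat.floor_natCast] at h
  have e : ∑ l ∈ (range (X + 1)).filter Nat.Prime, (1 : ℝ) / l =
      ∑ l ∈ range (X + 1), fq 2 l / l := by
    rw [sum_filter]
    refine sum_congr rfl fun l _ => ?_
    by_cases hl : l.Prime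
    · have hq : Pq 2 l := ⟨hl, (hl.eq_two_or_odd).symm⟩
      rw [if_pos hl, fq, if_pos hq]
      norm_num
    · rw [if_neg hl, fq, if_neg fun hq => hl hq.1, zero_div]
  rw [e]
  exact h

theorem regT (hT : TkT) (h2 : MertP 2) : RegT := by
  classical
  obtain ⟨C, hC⟩ := xReg_mert h2
  intro J δ ε hJ hδ hδ1 hε
  filter_upwards [eventually_ge_atTop 2, LL_tendsto_NeMlo.eventually_gt_atTop 0,
    LL_tendsto_NeMlo.eventually_ge_atTop (C / δ), LL_tendsto_NeMlo.eventually_ge_atTop C,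
    LL_tendsto_NeMlo.eventually_ge_atTop ((6 + ((J : ℝ) + 2) * 2 * (24 * J)) / (δ ^ 2 * ε))]
    with X hX hL hL1 hL2 hL3
  intro S S' hM
  set L := LL X with hLdef
  have hJ' : (0 : ℝ) < J := by exact_mod_cast hJ
  have hX0 : (0 : ℝ) ≤ X := Nat.cast_nonneg X
  have hA := abs_le.1 (hC X hX)
  set A := (range (X + 1)).filter Nat.Prime with hAdef
  have hCδ : C ≤ δ * L := by rwa [div_le_iff₀' hδ] at hL1
  have ht : 0 < δ * L / (2 * J) := by positivity
  set u : ℝ := X / (δ ^ 2 * L) with hu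
  have hu0 : 0 ≤ u := by positivity
  have h0 : ((xReg_T X A (δ * L)).card : ℝ) ≤ 6 * u := by
    refine (xReg_card hT (B := 2 * L) (fun l hl => ?_) (by positivity) (by linarith [hA.2])).trans_eq
      ?_
    · obtain ⟨a, b⟩ := mem_filter.1 hl
      exact ⟨b, Nat.lt_succ_iff.1 (mem_range.1 a)⟩
    · rw [hu]; field_simp; norm_num
  have hS' : ∀ m : Mk J, 2 ≤ m.1.val → ∑ l ∈ S' m, (1 : ℝ) / l ≤ L / J := fun m hm => by
    have := hM.up m hm
    rw [le_div_iff₀ hJ']
    nlinarith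
  have hS : ∀ m : Mk J, 2 ≤ m.1.val → ∑ l ∈ S m, (1 : ℝ) / l ≤ L / J := fun m hm =>
    (sum_le_sum_of_subset_of_nonneg (hM.sub m) fun l _ _ => by positivity).trans (hS' m hm)
  have e12 : 3 * (X : ℝ) * (L / J) / (δ * L / (2 * J)) ^ 2 = 12 * J * u := by
    rw [hu]; field_simp; norm_num
  have h1 : ∀ m ∈ univ.filter fun m : Mk J => 2 ≤ m.1.val,
      ((xReg_T X (S m) (δ * L / (2 * J)) ∪ xReg_T X (S' m) (δ * L / (2 * J))).card : ℝ) ≤
        24 * J * u := by
    intro m hm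
    have hm2 := (mem_filter.1 hm).2
    have a1 := (xReg_card hT (fun l hl => hM.pri m l (hM.sub m hl)) ht (hS m hm2)).trans_eq e12
    have a2 := (xReg_card hT (hM.pri m) ht (hS' m hm2)).trans_eq e12
    have a3 := card_union_le (xReg_T X (S m) (δ * L / (2 * J))) (xReg_T X (S' m) (δ * L / (2 * J)))
    have a4 : ((xReg_T X (S m) (δ * L / (2 * J)) ∪ xReg_T X (S' m) (δ * L / (2 * J))).card : ℝ) ≤
        (xReg_T X (S m) (δ * L / (2 * J))).card + (xReg_T X (S' m) (δ * L / (2 * J))).card := by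
      exact_mod_cast a3
    linarith
  have hsub : (Icc 1 X).filter (fun n => ¬ Reg S S' L (2 * δ) n) ⊆ xReg_T X A (δ * L) ∪
      (univ.filter fun m : Mk J => 2 ≤ m.1.val).biUnion fun m =>
        xReg_T X (S m) (δ * L / (2 * J)) ∪ xReg_T X (S' m) (δ * L / (2 * J)) := by
    intro n hn
    obtain ⟨hn1, hn2⟩ := mem_filter.1 hn
    by_contra hc
    simp only [mem_union, mem_biUnion, mem_filter, mem_univ, true_and, not_or, not_exists,
      not_and] at hc
    obtain ⟨c0, c1⟩ := hc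
    refine hn2 ⟨?_, fun m hm => ?_, fun m hm => ?_⟩
    · have b := abs_lt.1 (xReg_not hn1 c0)
      have e : n.primeFactors ∩ A = n.primeFactors := inter_eq_left.2 fun l hl =>
        mem_filter.2 ⟨mem_range.2 (Nat.lt_succ_iff.2 ((Nat.le_of_mem_primeFactors hl).trans
          (mem_Icc.1 hn1).2)), Nat.prime_of_mem_primeFactors hl⟩
      rw [e] at b
      rw [abs_le]
      constructor <;> linarith [hA.1, hA.2, b.1, b.2]
    · have b := (abs_lt.1 (xReg_not hn1 (c1 m hm).1)).1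
      have b' := hM.lo m hm
      rw [neg_lt, lt_div_iff₀ (by positivity)] at b
      linarith
    · have b := (abs_lt.1 (xReg_not hn1 (c1 m hm).2)).2
      have b' := hM.up m hm
      rw [lt_div_iff₀ (by positivity)] at b
      linarith
  have h3 : (((univ.filter fun m : Mk J => 2 ≤ m.1.val).biUnion fun m =>
      xReg_T X (S m) (δ * L / (2 * J)) ∪ xReg_T X (S' m) (δ * L / (2 * J))).card : ℝ) ≤
      ((J : ℝ) + 2) * 2 * (24 * J * u) := by
    refine le_trans (by exact_mod_cast card_biUnion_le) ((sum_le_card_nsmul _ _ _ h1).trans ?_)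
    rw [nsmul_eq_mul]
    refine mul_le_mul_of_nonneg_right ?_ (by positivity)
    have := card_le_univ (univ.filter fun m : Mk J => 2 ≤ m.1.val)
    rw [Fintype.card_prod, Fintype.card_fin, Fintype.card_bool] at this
    exact_mod_cast this
  have h4 := (card_le_card hsub).trans (card_union_le _ _)
  have h5 : (6 + ((J : ℝ) + 2) * 2 * (24 * J)) * u ≤ ε * X := by
    rw [div_le_iff₀ (by positivity)] at hL3
    rw [hu, ← mul_div_assoc, div_le_iff₀ (by positivity)]
    calc _ ≤ L * (δ ^ 2 * ε) * X := mul_le_mul_of_nonneg_right hL3 hX0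
      _ = _ := by ring
  refine le_trans (by exact_mod_cast h4) (le_trans (add_le_add h0 h3) ?_)
  linarith

end Pool.Agent.MP_e23604_nt.TN

end
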