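import Pool.Agent.Mg.Fe23604m.G104dcb
import Pool.Agent.Mg.Fe23604m.Gd29cd8
import Pool.Agent.Mg.Fe23604m.G651d65
import Pool.Agent.Mg.Fe23604m.Ge4cc4e
import Pool.Agent.Mg.Fe23604m.G0311cb
import Pool.Agent.MP_e23604_nt.P.Bonf
import Pool.Agent.Mg.Fe23604m.G180f29
import Pool.Agent.Mg.Fe23604m.G37f196

set_option linter.all false

section

/-!
The step `CCls`.
-/

open Finset
open scoped Classical

noncomputable section

namespace Pool.Agent.MP_e23604_nt.U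

open P (lam shp gg PW cW Rough WW ES mu flat tau NN)

namespace KClsJ

theorem cz_eq {X K : ℕ} {r x : ℤ} (h : (K : ℤ) ∣ x - r) : cz X K r = cz X K x := by
  unfold cz
  refine filter_congr fun y _ => ⟨fun h1 => ?_, fun h1 => ?_⟩
  · have := dvd_sub h1 h
    rwa [sub_sub_sub_cancel_right] at this
  · have := dvd_add h1 h
    rwa [sub_add_sub_cancel] at this

theorem one (X K : ℕ) (φ : ℤ → ℝ) : ∑ x ∈ Ioc (X : ℤ) (2 * X), φ x =
    ∑ r ∈ Ioc (X : ℤ) (2 * X), 1 / ((cz X K r).card : ℝ) * ∑ x ∈ cz X K r, φ x := by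
  have e : ∀ r : ℤ, 1 / ((cz X K r).card : ℝ) * ∑ x ∈ cz X K r, φ x =
      ∑ x ∈ Ioc (X : ℤ) (2 * X),
        if (K : ℤ) ∣ r - x then 1 / ((cz X K x).card : ℝ) * φ x else 0 := fun r => by
    rw [mul_sum]
    conv_lhs => rw [cz, sum_filter]
    refine sum_congr rfl fun x _ => ?_
    by_cases h : (K : ℤ) ∣ x - r
    · rw [if_pos h, if_pos (dvd_sub_comm.1 h), ← cz_eq h]
      rfl
    · rw [if_neg h, if_neg fun h' => h (dvd_sub_comm.1 h')]
  rw [sum_congr rfl fun r _ => e r, sum_comm]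
  refine sum_congr rfl fun x hx => ?_
  rw [← sum_filter, sum_const, nsmul_eq_mul]
  have h0 : ((cz X K x).card : ℝ) ≠ 0 :=
    Nat.cast_ne_zero.2 (card_ne_zero.2 ⟨x, mem_filter.2 ⟨hx, by simp⟩⟩)
  change φ x = ((cz X K x).card : ℝ) * (1 / ((cz X K x).card : ℝ) * φ x)
  field_simp

theorem card (X K : ℕ) (r : ℤ) (hK : 1 ≤ K) (hX : 2 * K ≤ X) :
    (X : ℝ) / (2 * K) ≤ (cz X K r).card ∧ ((cz X K r).card : ℝ) ≤ 2 * X / K := by
  have K0 : (0 : ℤ) < K := by exact_mod_cast hK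
  have e : cz X K r = (Ioc (X : ℤ) (2 * X)).filter fun x => x ≡ r [ZMOD K] := by
    unfold cz
    exact filter_congr fun y _ => by rw [Int.modEq_iff_dvd, dvd_sub_comm]
  have h := Int.Ioc_filter_modEq_card (X : ℤ) (2 * X) K0 r
  rw [← e] at h
  have KQ : (0 : ℚ) < K := by exact_mod_cast hK
  have hXQ : (2 : ℚ) ≤ X / K := by
    rw [le_div_iff₀ KQ]
    exact_mod_cast hX
  have a1 := Int.floor_le ((((2 * (X : ℤ) : ℤ) : ℚ) - r) / ((K : ℤ) : ℚ))
  have a2 := Int.lt_floor_add_one ((((2 * (X : ℤ) : ℤ) : ℚ) - r) / ((K : ℤ) : ℚ))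
  have b1 := Int.floor_le (((((X : ℤ) : ℤ) : ℚ) - r) / ((K : ℤ) : ℚ))
  have b2 := Int.lt_floor_add_one (((((X : ℤ) : ℤ) : ℚ) - r) / ((K : ℤ) : ℚ))
  have d : (((2 * (X : ℤ) : ℤ) : ℚ) - r) / ((K : ℤ) : ℚ) =
      ((((X : ℤ) : ℤ) : ℚ) - r) / ((K : ℤ) : ℚ) + X / K := by
    push_cast
    ring
  generalize ⌊(((2 * (X : ℤ) : ℤ) : ℚ) - r) / ((K : ℤ) : ℚ)⌋ = p at h a1 a2
  generalize ⌊((((X : ℤ) : ℤ) : ℚ) - r) / ((K : ℤ) : ℚ)⌋ = q at h b1 b2
  have hpq : (0 : ℤ) ≤ p - q := by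
    have : (0 : ℚ) ≤ p - q := by linarith
    exact_mod_cast this
  rw [max_eq_left hpq] at h
  have hc : (((cz X K r).card : ℕ) : ℚ) = p - q := by exact_mod_cast h
  have l1 : (X : ℚ) / (2 * K) ≤ ((cz X K r).card : ℚ) := by
    have : (X : ℚ) / (2 * K) = X / K / 2 := by field_simp
    rw [this, hc]
    linarith
  have l2 : ((cz X K r).card : ℚ) ≤ 2 * X / K := by
    rw [mul_div_assoc, hc]
    linarith
  have m1 := (Rat.cast_le (K := ℝ)).2 l1
  have m2 := (Rat.cast_le (K := ℝ)).2 l2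
  push_cast at m1 m2
  exact ⟨m1, m2⟩

theorem cls (X : Fin 10 → ℕ) (i : Fin 10) (K : ℕ) (f : V10 → ℝ) : ∑ v ∈ Box X, f v =
    ∑ v ∈ Box X, 1 / ((cz (X i) K (v i)).card : ℝ) *
      ∑ u ∈ cz (X i) K (v i), f (Function.update v i u) := by
  rcases Nat.eq_zero_or_pos (X i) with h0 | h0
  · have : Box X = ∅ := by
      rw [Box, Fintype.piFinset_eq_empty]
      exact ⟨i, by simp [h0]⟩
    rw [this, sum_empty, sum_empty]
  refine mul_left_cancel₀ (Nat.cast_ne_zero.2 h0.ne' : (X i : ℝ) ≠ 0) ?_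
  rw [CSJ.box_avg, CSJ.box_avg]
  refine sum_congr rfl fun v _ => ?_
  simp only [Function.update_self, Function.update_idem]
  exact one (X i) K fun t => f (Function.update v i t)

theorem two (X : Fin 10 → ℕ) (i j : Fin 10) (f : V10 → ℝ) :
    ∑ v ∈ Box X, ∑ z ∈ bx (X i) (X j), f (up i j v z) = X i * X j * ∑ v ∈ Box X, f v := by
  have e := CSJ.box_avg X i fun v => ∑ y ∈ CSJ.II (X j), f (Function.update v j y)
  rw [← CSJ.box_avg, ← mul_assoc] at e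
  rw [e]
  refine sum_congr rfl fun v _ => ?_
  rw [bx, sum_product]
  rfl

end KClsJ

theorem CCls_pf : CCls :=
  ⟨KClsJ.one, KClsJ.card, KClsJ.cls, fun X i j f _ => KClsJ.two X i j f,
    fun _ _ _ hv _ hu => CSJ.upd_mem hv hu,
    fun _ _ _ _ hv _ hz =>
      CSJ.upd_mem (CSJ.upd_mem hv (mem_product.1 hz).1) (mem_product.1 hz).2,
    CSJ.card_Box⟩

end Pool.Agent.MP_e23604_nt.U

end
end

section

/-!
The step `CSz`.
-/

open Finset
open scoped Classical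

noncomputable section

namespace Pool.Agent.MP_e23604_nt.U

open P (lam shp gg PW cW Rough WW ES mu flat tau NN)

namespace KSzJ

theorem lz_gen (x Z N : ℕ) (hx : 1 ≤ x) (h : x ≤ Z ^ N) : Real.log x ≤ N * Real.log Z := by
  rw [← Real.log_pow]
  have h0 : (0 : ℝ) < x := by exact_mod_cast hx
  exact Real.log_le_log h0 (by exact_mod_cast h)

variable {X : Fin 10 → ℕ} {Z : ℕ}

theorem lz (h : Reg X Z) : LL X ≤ 10 ^ 14 * Real.log Z := by
  have h1 := lz_gen (X 0) Z (10 ^ 14) (DSep.x0_pos h) h.top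
  rwa [Nat.cast_pow, Nat.cast_ofNat] at h1

theorem z_le (h : Reg X Z) (i : Fin 10) : Z ≤ X i :=
  (Nat.le_self_pow (by norm_num) Z).trans (h.sizes.1 i)

theorem logz_le (h : Reg X Z) (i : Fin 10) : Real.log Z ≤ Real.log (X i) := by
  have h0 : (0 : ℝ) < Z := by exact_mod_cast DSep.zpos h
  exact Real.log_le_log h0 (by exact_mod_cast z_le h i)

theorem x6_le (h : Reg X Z) : X 6 ≤ X 7 ^ 12 := by
  apply Nat.le_of_mul_le_mul_left _ (by norm_num : 0 < 64)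
  calc 64 * X 6 ≤ X 4 * X 6 := Nat.mul_le_mul_right _ (le_trans (by norm_num) (DSep.big4 h))
    _ ≤ X 4 * X 6 * X 9 := Nat.le_mul_of_pos_right _ (DSep.x9_pos h)
    _ = 64 * (X 5 * X 7 * X 8) := DSep.e0 h
    _ ≤ 64 * (X 7 ^ 10 * X 7 * X 7) :=
        Nat.mul_le_mul_left _
          (Nat.mul_le_mul (Nat.mul_le_mul h.h5' le_rfl) ((DSep.x8_m h).trans (DSep.m_x7 h)))
    _ = 64 * X 7 ^ 12 := by ring

theorem lo (h : Reg X Z) : ∀ i : Fin 10, 4 ≤ i.val → X i ≤ X 7 ^ 12 := by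
  have h7 : X 7 ≤ X 7 ^ 12 := Nat.le_self_pow (by norm_num) _
  apply xEB_all
  · intro hi
    exact absurd hi (by decide)
  · intro hi
    exact absurd hi (by decide)
  · intro hi
    exact absurd hi (by decide)
  · intro hi
    exact absurd hi (by decide)
  · exact fun _ => ((DSep.x4_m h).trans (DSep.m_x7 h)).trans h7
  · exact fun _ => h.h5'.trans (Nat.pow_le_pow_right (DSep.x7_pos h) (by norm_num))
  · exact fun _ => x6_le h
  · exact fun _ => h7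
  · exact fun _ => ((DSep.x8_m h).trans (DSep.m_x7 h)).trans h7
  · exact fun _ => ((DSep.x9_m h).trans (DSep.m_x7 h)).trans h7

theorem le0 (h : Reg X Z) : ∀ i : Fin 10, i ≠ 1 → X i ≤ X 0 := by
  have h2 := DSep.x2_x0 h
  apply xEB_all
  · exact fun _ => le_rfl
  · exact fun hi => absurd rfl hi
  · exact fun _ => h2
  · exact fun _ => DSep.x3_x0 h
  · exact fun _ => (DSep.x4_x2 h).trans h2
  · exact fun _ => (DSep.x5_x2 h).trans h2
  · exact fun _ => (DSep.x6_x2 h).trans h2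
  · exact fun _ => (DSep.x7_x2 h).trans h2
  · exact fun _ => (DSep.x8_x2 h).trans h2
  · exact fun _ => (DSep.x9_x2 h).trans h2

theorem x2_x3 (h : Reg X Z) : X 2 ≤ X 3 :=
  (Nat.le_mul_of_pos_left _
    (Nat.mul_pos (by norm_num) (Nat.pow_pos (DSep.zpos h)))).trans (DSep.k89 h)

theorem sz (h : Reg X Z) : Sz X Z where
  z := h.sizes.1
  lo := lo h
  x6 := DSep.e0 h
  x3 := ⟨x2_x3 h, DSep.x3_x2 h⟩
  x1 := ⟨h.sizes.2.2.1, DSep.x1_x0 h⟩
  le0 := le0 h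
  lg := fun i => (lz h).trans (mul_le_mul_of_nonneg_left (logz_le h i) (by positivity))
  lz := lz h

/-- `Z` tends to infinity with `X 0`. -/
theorem zbig (N : ℕ) : Ev fun _ Z => N ≤ Z := by
  obtain ⟨X0, h⟩ := Reg.log_le (N + 1)
  refine ⟨X0, fun X Z hR h0 => ?_⟩
  obtain ⟨h1, -, h3⟩ := h X Z hR h0
  push_cast at h3
  have hN : (0 : ℝ) ≤ N := Nat.cast_nonneg N
  have h4 : Real.log (X 0) ≤ Real.log (X 0) ^ (N + 1) :=
    le_self_pow₀ (by linarith) (Nat.succ_ne_zero N)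
  have h5 : (N : ℝ) ≤ Z := by linarith
  exact_mod_cast h5

theorem big (c : ℕ) (C : ℝ) : Ev fun X Z => C ≤ LL X ∧ C * LL X ^ c ≤ Z := by
  obtain ⟨X0, h⟩ := Reg.log_le (c + 1)
  obtain ⟨X1, h'⟩ := Reg.log_le ⌈C⌉₊
  refine ⟨max X0 X1, fun X Z hR h0 => ?_⟩
  obtain ⟨h1, -, -⟩ := h X Z hR ((le_max_left _ _).trans h0)
  obtain ⟨-, -, h3⟩ := h' X Z hR ((le_max_right _ _).trans h0)
  have h4 : C ≤ LL X := (Nat.le_ceil C).trans h3
  have h5 : 0 ≤ LL X := Real.log_natCast_nonneg _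
  refine ⟨h4, le_trans ?_ h1⟩
  rw [pow_succ']
  exact mul_le_mul_of_nonneg_right h4 (pow_nonneg h5 c)

theorem lvl (B c : ℕ) : Ev fun X Z => ∃ k : ℕ, LL X ^ c ≤ 2 ^ k ∧
    ∀ N : ℕ, 3 ≤ N → N ≤ X 0 → (WW B N + 1) ^ (12 * k) ≤ Z := by
  obtain ⟨Z1, h1⟩ := P.exists_level (2 * B) (2 * c) 12
  obtain ⟨Z2, h2⟩ := P.log_pow_le 0 0 (10 ^ 14)
  obtain ⟨N1, h3⟩ := zbig (max Z1 Z2)
  refine ⟨N1, fun X Z hR h0 => ?_⟩
  have h4 := h3 X Z hR h0
  obtain ⟨k, hk1, hk2⟩ := h1 Z ((le_max_left _ _).trans h4)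
  have h5 := (h2 Z ((le_max_right _ _).trans h4)).1
  have h6 : 0 ≤ Real.log Z := Real.log_natCast_nonneg _
  have h7 : LL X ≤ Real.log Z ^ 2 := by
    rw [pow_two]
    exact (lz hR).trans (mul_le_mul_of_nonneg_right h5 h6)
  have h8 : 0 ≤ LL X := Real.log_natCast_nonneg _
  refine ⟨k, le_trans ?_ hk1, fun N hN hN' => le_trans ?_ hk2⟩
  · rw [pow_mul]
    exact pow_le_pow_left₀ h8 h7 c
  · have h9 : WW B N ≤ WW (2 * B) Z := by
      apply Nat.ceil_le_ceil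
      rw [pow_mul]
      refine pow_le_pow_left₀ (Real.log_natCast_nonneg _) (le_trans ?_ h7) B
      have h10 : (0 : ℝ) < N := by exact_mod_cast (by omega : 0 < N)
      exact Real.log_le_log h10 (by exact_mod_cast hN')
    rw [← pow_mul]
    exact (Nat.pow_le_pow_left (Nat.add_le_add_right h9 1) _).trans
      (Nat.pow_le_pow_right (Nat.succ_pos _) (by omega))

theorem wt (B : ℕ) : Ev fun X Z => ∀ i : Fin 10, i ≠ 1 → cW (WW B (X i)) ≤ LL X ∧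
    WW B (X i) < Z ∧ P.Wt (WW B (X i)) (X i) (gg (WW B (X i))) := by
  obtain ⟨Z1, h1⟩ := P.cW_le B
  obtain ⟨Z2, h2⟩ := P.wt_all B
  obtain ⟨N1, h3⟩ := zbig (max (max Z1 Z2) 3)
  obtain ⟨N2, h4⟩ := big B 4
  refine ⟨max N1 N2, fun X Z hR h0 i hi => ?_⟩
  have h5 := h3 X Z hR ((le_max_left _ _).trans h0)
  obtain ⟨h6, h7⟩ := h4 X Z hR ((le_max_right _ _).trans h0)
  have h8 := h5.trans (z_le hR i)
  have h9 : 3 ≤ X i := (le_max_right _ _).trans h8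
  have h10 : Real.log (X i) ≤ LL X := by
    have h11 : (0 : ℝ) < X i := by exact_mod_cast (by omega : 0 < X i)
    exact Real.log_le_log h11 (by exact_mod_cast le0 hR i hi)
  refine ⟨(h1 _ (((le_max_left _ _).trans (le_max_left _ _)).trans h8)).trans h10, ?_,
    (h2 _ (((le_max_right _ _).trans (le_max_left _ _)).trans h8)).2.2⟩
  have h12 := (P.WW_bounds B h9).2
  have h13 : Real.log (X i) ^ B ≤ LL X ^ B :=
    pow_le_pow_left₀ (Real.log_natCast_nonneg _) h10 B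
  have h14 : 1 ≤ LL X ^ B := one_le_pow₀ (by linarith)
  have h15 : (WW B (X i) : ℝ) < Z := by linarith
  exact_mod_cast h15

end KSzJ

theorem CSz_pf : CSz :=
  ⟨fun _ _ h => KSzJ.sz h, KSzJ.big, KSzJ.lvl, KSzJ.wt⟩

end Pool.Agent.MP_e23604_nt.U

end
end

section

/-!
The step `CGeo1`.
-/

open Finset
open scoped Classical

noncomputable section

namespace Pool.Agent.MP_e23604_nt.U

open P (lam shp gg PW cW Rough WW ES mu flat tau NN)

namespace KGeo1J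

/-- The size facts needed for one site. -/
def Tg (N X Y Z : ℕ) (Q : ℝ) (S : Finset V10) (f g : V10 → ℤ) : Prop :=
  (N : ℝ) ≤ 16 * Q ∧ 16 * Q ≤ (N : ℝ) ^ 2 ∧ 0 < Q ∧ (Z : ℝ) ^ 2 * Q ≤ 4 * X * Y ∧
    ∀ v ∈ S, Rng X Y (16 * Q) (4 * X * Y / Q) (f v) (g v)

theorem core {X Y A B a b x y : ℤ} (hA : 1 ≤ A) (hX : 0 ≤ X) (hY : 0 ≤ Y) (hB : 0 ≤ B)
    (h16 : 16 * (B * Y) ≤ A * X) (a1 : A ≤ a) (a2 : a ≤ 8 * A) (b1 : -(8 * B) ≤ b) (b2 : b ≤ 0)
    (x1 : X < x) (x2 : x ≤ 2 * X) (y1 : Y < y) (y2 : y ≤ 2 * Y) :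
    0 < a * x + b * y ∧ a * x + b * y ≤ 16 * (A * X + B * Y) := by
  have e1 : A * X < a * x := by
    calc A * X < A * x := mul_lt_mul_of_pos_left x1 (by omega)
      _ ≤ a * x := mul_le_mul_of_nonneg_right a1 (by omega)
  have e2 : (-b) * y ≤ (8 * B) * (2 * Y) := mul_le_mul (by omega) y2 (by omega) (by omega)
  have e3 : a * x ≤ (8 * A) * (2 * X) := mul_le_mul a2 x2 (by omega) (by omega)
  have e4 : 0 ≤ (-b) * y := mul_nonneg (by omega) (by omega)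
  have e5 : 0 ≤ B * Y := mul_nonneg hB hY
  constructor <;> linarith

theorem last {X Y A B : ℕ} {a : ℤ} (hX : 1 ≤ X) (hA : 1 ≤ A) (h16 : 16 * (B * Y) ≤ A * X)
    (a1 : (A : ℤ) ≤ a) {Q : ℝ} (hQ : Q = A * X + B * Y) :
    0 < Q ∧ Q ≤ 2 * (A * X) ∧ (Y : ℝ) * Q ≤ 4 * X * Y * |(a : ℝ)| := by
  have h1 : (1 : ℝ) ≤ X := by exact_mod_cast hX
  have h2 : (1 : ℝ) ≤ A := by exact_mod_cast hA
  have h3 : 16 * ((B : ℝ) * Y) ≤ A * X := by exact_mod_cast h16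
  have h4 : (A : ℝ) ≤ |(a : ℝ)| := le_trans (by exact_mod_cast a1) (le_abs_self _)
  have h5 : (0 : ℝ) ≤ B * Y := by positivity
  have h6 : (0 : ℝ) < A * X := by positivity
  have h7 : Q ≤ 2 * (A * X) := by linarith
  refine ⟨by linarith, h7, ?_⟩
  calc (Y : ℝ) * Q ≤ Y * (4 * (A * X)) := mul_le_mul_of_nonneg_left (by linarith) (by positivity)
    _ = 4 * X * Y * A := by ring
    _ ≤ _ := mul_le_mul_of_nonneg_left h4 (by positivity)

theorem g1 {N X Y Z A B : ℕ} {Q : ℝ} {S : Finset V10} {f g : V10 → ℤ}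
    (hQ : Q = A * X + B * Y) (hX : 1 ≤ X) (hA : 1 ≤ A) (h16 : 16 * (B * Y) ≤ A * X)
    (hN : N ≤ X) (hN2 : 32 * A * X ≤ N ^ 2) (hZ : Z ^ 2 * A ≤ Y)
    (hc : ∀ v ∈ S, (A : ℤ) ≤ f v ∧ f v ≤ 8 * A ∧ -(8 * (B : ℤ)) ≤ g v ∧ g v ≤ 0) :
    Tg N X Y Z Q S f g := by
  obtain ⟨q0, q1, -⟩ := last (Y := Y) hX hA h16 le_rfl hQ
  have h2 : (1 : ℝ) ≤ A := by exact_mod_cast hA
  have h5 : (0 : ℝ) ≤ B * Y := by positivity
  have h6 : (N : ℝ) ≤ X := by exact_mod_cast hN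
  have h7 : 32 * (A : ℝ) * X ≤ (N : ℝ) ^ 2 := by exact_mod_cast hN2
  have h8 : (Z : ℝ) ^ 2 * A ≤ Y := by exact_mod_cast hZ
  have h9 : (X : ℝ) ≤ A * X := le_mul_of_one_le_left (by positivity) h2
  refine ⟨by linarith, by linarith, q0, ?_, fun v hv => ⟨fun z hz => ?_, Or.inr ?_⟩⟩
  · calc (Z : ℝ) ^ 2 * Q ≤ (Z : ℝ) ^ 2 * (4 * (A * X)) :=
          mul_le_mul_of_nonneg_left (by linarith) (by positivity)
      _ = 4 * X * ((Z : ℝ) ^ 2 * A) := by ring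
      _ ≤ _ := mul_le_mul_of_nonneg_left h8 (by positivity)
  · obtain ⟨a1, a2, b1, b2⟩ := hc v hv
    obtain ⟨z1, z2⟩ := mem_product.1 hz
    obtain ⟨x1, x2⟩ := mem_Ioc.1 z1
    obtain ⟨y1, y2⟩ := mem_Ioc.1 z2
    obtain ⟨r1, r2⟩ := core (by exact_mod_cast hA) (by positivity) (by positivity) (by positivity)
      (by exact_mod_cast h16) a1 a2 b1 b2 x1 x2 y1 y2
    refine ⟨r1, ?_⟩
    rw [hQ, lf]
    exact_mod_cast r2
  · rw [div_mul_eq_mul_div, le_div_iff₀ q0]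
    exact (last hX hA h16 (hc v hv).1 hQ).2.2

theorem g2 {N X Y Z A B : ℕ} {Q : ℝ} {S : Finset V10} {f g : V10 → ℤ}
    (hQ : Q = A * X + B * Y) (hY : 1 ≤ Y) (hB : 1 ≤ B) (h16 : 16 * (A * X) ≤ B * Y)
    (hN : N ≤ Y) (hN2 : 32 * B * Y ≤ N ^ 2) (hZ : Z ^ 2 * B ≤ X)
    (hc : ∀ v ∈ S, (B : ℤ) ≤ g v ∧ g v ≤ 8 * B ∧ -(8 * (A : ℤ)) ≤ f v ∧ f v ≤ 0) :
    Tg N X Y Z Q S f g := by
  obtain ⟨t1, t2, t3, t4, t5⟩ :=
    g1 (S := S) (f := g) (g := f) (hQ.trans (add_comm _ _)) hY hB h16 hN hN2 hZ hc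
  have e : 4 * (Y : ℝ) * X = 4 * X * Y := by ring
  rw [e] at t4 t5
  refine ⟨t1, t2, t3, t4, fun v hv => ⟨fun z hz => ?_, (t5 v hv).2.symm⟩⟩
  obtain ⟨z1, z2⟩ := mem_product.1 hz
  have := (t5 v hv).1 (z.2, z.1) (mem_product.2 ⟨z2, z1⟩)
  rwa [lf, add_comm] at this

variable {X : Fin 10 → ℕ} {Z : ℕ} {v : V10}

theorem ps (σ : Fin 12) (A B : ℕ) (ha : |al (lev σ) σ (XV X)| = A)
    (hb : |be (lev σ) σ (XV X)| = B) :
    PS2 X σ = A * X (vi (lev σ)) + B * X (vj (lev σ)) := by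
  rw [PS2, ← Int.cast_abs, ← Int.cast_abs, ha, hb, Int.cast_natCast, Int.cast_natCast]

theorem ab1 (i k : Fin 10) : |XV X i * XV X k ^ 2| = ((X i * X k ^ 2 : ℕ) : ℤ) := by
  simp only [XV]
  push_cast
  exact abs_of_nonneg (by positivity)

theorem ab4 (i k : Fin 10) : |4 * XV X i * XV X k ^ 2| = ((4 * X i * X k ^ 2 : ℕ) : ℤ) := by
  simp only [XV]
  push_cast
  exact abs_of_nonneg (by positivity)

theorem co1 (hv : v ∈ Box X) (i k : Fin 10) : ((X i * X k ^ 2 : ℕ) : ℤ) ≤ v i * v k ^ 2 ∧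
    v i * v k ^ 2 ≤ 8 * ((X i * X k ^ 2 : ℕ) : ℤ) ∧ 0 ≤ v i * v k ^ 2 := by
  have h1 := (DSep.lo hv i).le
  have h2 := (DSep.lo hv k).le
  have h3 := DSep.hi hv i
  have h4 := DSep.hi hv k
  have h5 := (DSep.vpos hv i).le
  have h6 := (DSep.vpos hv k).le
  push_cast
  refine ⟨by gcongr, ?_, by positivity⟩
  calc v i * v k ^ 2 ≤ (2 * (X i : ℤ)) * (2 * (X k : ℤ)) ^ 2 := by gcongr
    _ = _ := by ring

theorem co4 (hv : v ∈ Box X) (i k : Fin 10) :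
    ((4 * X i * X k ^ 2 : ℕ) : ℤ) ≤ 4 * v i * v k ^ 2 ∧
    4 * v i * v k ^ 2 ≤ 8 * ((4 * X i * X k ^ 2 : ℕ) : ℤ) ∧ 0 ≤ 4 * v i * v k ^ 2 := by
  obtain ⟨h1, h2, h3⟩ := co1 hv i k
  push_cast at h1 h2 ⊢
  refine ⟨by linarith, by linarith, by linarith⟩

theorem mpos (h : Reg X Z) (i k : Fin 10) : 1 ≤ X i * X k ^ 2 :=
  Nat.mul_pos (DSep.x_pos h i) (Nat.pow_pos (DSep.x_pos h k))

theorem mpos4 (h : Reg X Z) (i k : Fin 10) : 1 ≤ 4 * X i * X k ^ 2 :=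
  Nat.mul_pos (Nat.mul_pos (by norm_num) (DSep.x_pos h i)) (Nat.pow_pos (DSep.x_pos h k))

theorem zb (h : Reg X Z) (s : Sz X Z) (i : Fin 10) : 32 ≤ X i ∧ Z ^ 2 ≤ X i := by
  have h1 := (DSep.w_pow h).trans (s.z i)
  have h2 : 1 ≤ Z ^ 2 := Nat.pow_pos (DSep.zpos h)
  omega

/-- Level zero, first coefficient positive. -/
theorem l0a (h : Reg X Z) (s : Sz X Z) {A : ℕ} (hA : A ≤ X 2 ^ 3) :
    32 * A * X 0 ≤ X 0 ^ 2 ∧ Z ^ 2 * A ≤ X 1 := by
  have e : X 2 * X 2 ^ 3 ≤ X 0 := by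
    rw [← pow_succ']
    exact DSep.x2_pow h 4 (by norm_num)
  refine ⟨?_, ((Nat.mul_le_mul (zb h s 2).2 hA).trans e).trans s.x1.1⟩
  rw [sq]
  exact Nat.mul_le_mul_right _ ((Nat.mul_le_mul (zb h s 2).1 hA).trans e)

/-- Level zero, second coefficient positive. -/
theorem l0b (h : Reg X Z) (s : Sz X Z) {B : ℕ} (hB : B ≤ X 2 ^ 4) :
    32 * B * X 1 ≤ X 0 ^ 2 ∧ Z ^ 2 * B ≤ X 0 := by
  have e : X 2 * X 2 ^ 4 ≤ X 0 := by
    rw [← pow_succ']
    exact DSep.x2_pow h 5 (by norm_num)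
  refine ⟨?_, (Nat.mul_le_mul (zb h s 2).2 hB).trans e⟩
  calc 32 * B * X 1 ≤ X 2 * X 2 ^ 4 * (X 0 * X 2) :=
        Nat.mul_le_mul (Nat.mul_le_mul (zb h s 2).1 hB)
          (s.x1.2.trans (Nat.mul_le_mul_left _ (DSep.x7_pow h 13 (by norm_num))))
    _ = X 0 * X 2 ^ 6 := by ring
    _ ≤ X 0 * X 0 := Nat.mul_le_mul_left _ (DSep.x2_pow h 6 (by norm_num))
    _ = _ := by ring

/-- Level one, first coefficient positive. -/
theorem l1a (h : Reg X Z) (s : Sz X Z) {A : ℕ} (hA : A ≤ X 7 ^ 36) :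
    32 * A * X 2 ≤ X 2 ^ 2 ∧ Z ^ 2 * A ≤ X 3 := by
  have e : X 7 * X 7 ^ 36 ≤ X 2 := by
    rw [← pow_succ']
    exact DSep.x7_pow h 37 (by norm_num)
  refine ⟨?_, ((Nat.mul_le_mul (zb h s 7).2 hA).trans e).trans s.x3.1⟩
  rw [sq]
  exact Nat.mul_le_mul_right _ ((Nat.mul_le_mul (zb h s 7).1 hA).trans e)

theorem m3 {i k : Fin 10} (hi : X i ≤ X 2) (hk : X k ≤ X 2) : X i * X k ^ 2 ≤ X 2 ^ 3 := by
  calc X i * X k ^ 2 ≤ X 2 * X 2 ^ 2 := Nat.mul_le_mul hi (Nat.pow_le_pow_left hk 2)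
    _ = _ := by ring

theorem m4 (h : Reg X Z) (s : Sz X Z) {i k : Fin 10} (hi : X i ≤ X 2) (hk : X k ≤ X 2) :
    4 * X i * X k ^ 2 ≤ X 2 ^ 4 := by
  calc 4 * X i * X k ^ 2 ≤ X 2 * X 2 * X 2 ^ 2 :=
        Nat.mul_le_mul (Nat.mul_le_mul (le_trans (by norm_num) (zb h s 2).1) hi)
          (Nat.pow_le_pow_left hk 2)
    _ = _ := by ring

theorem m36 (s : Sz X Z) {i k : Fin 10} (hi : 4 ≤ i.val) (hk : 4 ≤ k.val) :
    X i * X k ^ 2 ≤ X 7 ^ 36 := by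
  calc X i * X k ^ 2 ≤ X 7 ^ 12 * (X 7 ^ 12) ^ 2 :=
        Nat.mul_le_mul (s.lo i hi) (Nat.pow_le_pow_left (s.lo k hk) 2)
    _ = _ := by ring

def TG (X : Fin 10 → ℕ) (Z : ℕ) (σ : Fin 12) : Prop :=
  Tg (X (sc σ)) (X (vi (lev σ))) (X (vj (lev σ))) Z (PS2 X σ) (Box X) (al (lev σ) σ) (be (lev σ) σ)

theorem c10 : ((1 : ℕ) : ℤ) ≤ 1 ∧ (1 : ℤ) ≤ 8 * (1 : ℕ) ∧ -(8 * ((0 : ℕ) : ℤ)) ≤ 0 ∧
    (0 : ℤ) ≤ 0 := by norm_num

theorem t0 (h : Reg X Z) (s : Sz X Z) : TG X Z 0 :=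
  have e := l0a h s (Nat.one_le_pow 3 _ (DSep.x2_pos h))
  g1 (ps 0 1 0 rfl rfl) (DSep.x0_pos h) le_rfl (by simp) le_rfl e.1 e.2 fun _ _ => c10

theorem t1 (h : Reg X Z) (s : Sz X Z) : TG X Z 1 :=
  have e := l0b h s (Nat.one_le_pow 4 _ (DSep.x2_pos h))
  g2 (ps 1 0 1 rfl rfl) (DSep.x1_pos h) le_rfl (by simp) s.x1.1 e.1 e.2 fun _ _ => c10

theorem t8 (h : Reg X Z) (s : Sz X Z) : TG X Z 8 :=
  have e := l1a h s (Nat.one_le_pow 36 _ (DSep.x7_pos h))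
  g1 (ps 8 1 0 rfl rfl) (DSep.x2_pos h) le_rfl (by simp) le_rfl e.1 e.2 fun _ _ => c10

theorem t9 (h : Reg X Z) (s : Sz X Z) : TG X Z 9 := by
  refine g2 (ps 9 0 1 rfl rfl) (DSep.x3_pos h) le_rfl (by simp) s.x3.1 ?_
    ((mul_one _).trans_le (zb h s 2).2) fun _ _ => c10
  show 32 * 1 * X 3 ≤ X 2 ^ 2
  calc 32 * 1 * X 3 ≤ X 7 * (X 2 * X 7 ^ 12) := Nat.mul_le_mul (zb h s 7).1 s.x3.2
    _ = X 2 * X 7 ^ 13 := by ring
    _ ≤ X 2 * X 2 := Nat.mul_le_mul_left _ (DSep.x7_pow h 13 (by norm_num))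
    _ = _ := by ring

theorem sq32 (h : Reg X Z) (s : Sz X Z) (i : Fin 10) : 32 * 1 * X i ≤ X i ^ 2 := by
  rw [sq]
  exact Nat.mul_le_mul_right _ (zb h s i).1

theorem t4 (h : Reg X Z) (s : Sz X Z) : TG X Z 4 :=
  g1 (ps 4 1 0 rfl rfl) (DSep.x4_pos h) le_rfl (by simp) le_rfl (sq32 h s 4)
    ((mul_one _).trans_le (zb h s 5).2) fun _ _ => c10

theorem t5 (h : Reg X Z) (s : Sz X Z) : TG X Z 5 :=
  g2 (ps 5 0 1 rfl rfl) (DSep.x5_pos h) le_rfl (by simp) le_rfl (sq32 h s 5)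
    ((mul_one _).trans_le (zb h s 4).2) fun _ _ => c10

theorem pk {A B a b : ℤ} (h1 : A ≤ a ∧ a ≤ 8 * A ∧ 0 ≤ a) (h2 : B ≤ b ∧ b ≤ 8 * B ∧ 0 ≤ b) :
    A ≤ a ∧ a ≤ 8 * A ∧ -(8 * B) ≤ -b ∧ -b ≤ 0 :=
  ⟨h1.1, h1.2.1, neg_le_neg h2.2.1, neg_nonpos.2 h2.2.2⟩

theorem t2 (h : Reg X Z) (s : Sz X Z) : TG X Z 2 := by
  have e := l1a h s (m36 s (i := 4) (k := 6) (by decide) (by decide))
  refine g1 (ps 2 _ _ (ab1 4 6) ((abs_neg _).trans (ab1 5 7))) (DSep.x2_pos h) (mpos h 4 6) ?_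
    le_rfl e.1 e.2 fun v hv => pk (co1 hv 4 6) (co1 hv 5 7)
  show 16 * (X 5 * X 7 ^ 2 * X 3) ≤ X 4 * X 6 ^ 2 * X 2
  have := DSep.e2 h
  nlinarith [Nat.zero_le (X 5 * X 3 * X 7 ^ 2)]

theorem t3 (h : Reg X Z) (s : Sz X Z) : TG X Z 3 := by
  have e := l1a h s (m36 s (i := 5) (k := 8) (by decide) (by decide))
  refine g1 (ps 3 _ _ (ab1 5 8) ((abs_neg _).trans (ab1 4 9))) (DSep.x2_pos h) (mpos h 5 8) ?_
    le_rfl e.1 e.2 fun v hv => pk (co1 hv 5 8) (co1 hv 4 9)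
  show 16 * (X 4 * X 9 ^ 2 * X 3) ≤ X 5 * X 8 ^ 2 * X 2
  have := h.b2
  nlinarith [Nat.zero_le (X 4 * X 3 * X 9 ^ 2)]

theorem t6 (h : Reg X Z) (s : Sz X Z) : TG X Z 6 := by
  have e := l0a h s (m3 (i := 2) (k := 6) le_rfl (DSep.x6_x2 h))
  refine g1 (ps 6 _ _ (ab1 2 6) ((abs_neg _).trans (ab4 3 9))) (DSep.x0_pos h) (mpos h 2 6) ?_
    le_rfl e.1 e.2 fun v hv => pk (co1 hv 2 6) (co4 hv 3 9)
  show 16 * (4 * X 3 * X 9 ^ 2 * X 1) ≤ X 2 * X 6 ^ 2 * X 0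
  have := DSep.e6 h
  nlinarith [Nat.zero_le (X 3 * X 1 * X 9 ^ 2)]

theorem t10 (h : Reg X Z) (s : Sz X Z) : TG X Z 10 := by
  have e := l0a h s (m3 (i := 4) (k := 6) (DSep.x4_x2 h) (DSep.x6_x2 h))
  refine g1 (ps 10 _ _ (ab1 4 6) ((abs_neg _).trans (ab4 5 8))) (DSep.x0_pos h) (mpos h 4 6) ?_
    le_rfl e.1 e.2 fun v hv => pk (co1 hv 4 6) (co4 hv 5 8)
  show 16 * (4 * X 5 * X 8 ^ 2 * X 1) ≤ X 4 * X 6 ^ 2 * X 0
  have := h.b1
  nlinarith [Nat.zero_le (X 5 * X 1 * X 8 ^ 2)]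

theorem t7 (h : Reg X Z) (s : Sz X Z) : TG X Z 7 := by
  have e := l0b h s (m4 h s (i := 2) (k := 8) le_rfl (DSep.x8_x2 h))
  refine g2 (ps 7 _ _ ((abs_neg _).trans (ab1 3 7)) (ab4 2 8)) (DSep.x1_pos h) (mpos4 h 2 8) ?_
    s.x1.1 e.1 e.2 fun v hv => pk (co4 hv 2 8) (co1 hv 3 7)
  show 16 * (X 3 * X 7 ^ 2 * X 0) ≤ 4 * X 2 * X 8 ^ 2 * X 1
  have := DSep.e7 h
  nlinarith [Nat.zero_le (X 0 * X 3 * X 7 ^ 2)]

theorem t11 (h : Reg X Z) (s : Sz X Z) : TG X Z 11 := by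
  have e := l0b h s (m4 h s (i := 4) (k := 9) (DSep.x4_x2 h) (DSep.x9_x2 h))
  refine g2 (ps 11 _ _ ((abs_neg _).trans (ab1 5 7)) (ab4 4 9)) (DSep.x1_pos h) (mpos4 h 4 9) ?_
    s.x1.1 e.1 e.2 fun v hv => pk (co4 hv 4 9) (co1 hv 5 7)
  show 16 * (X 5 * X 7 ^ 2 * X 0) ≤ 4 * X 4 * X 9 ^ 2 * X 1
  have := h.b3
  nlinarith [Nat.zero_le (X 0 * X 5 * X 7 ^ 2)]

theorem tg (h : Reg X Z) (s : Sz X Z) (σ : Fin 12) : TG X Z σ := by
  fin_cases σ
  exacts [t0 h s, t1 h s, t2 h s, t3 h s, t4 h s, t5 h s, t6 h s, t7 h s, t8 h s, t9 h s,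
    t10 h s, t11 h s]

theorem sc_ne : ∀ σ, sc σ ≠ 1 := by decide

theorem pw {Z M N n e : ℕ} (hZ : Z ≤ M) (hM : 1 ≤ M) (hN : N ≤ Z ^ e) (hn : e ≤ n) :
    N ≤ M ^ n :=
  (hN.trans (Nat.pow_le_pow_left hZ e)).trans (Nat.pow_le_pow_right hM hn)

theorem zle (s : Sz X Z) (i : Fin 10) : Z ≤ X i :=
  (Nat.le_self_pow (by norm_num) _).trans (s.z i)

end KGeo1J

theorem CGeo1_pf (hSz : CSz) (hLin : CLin) : CGeo1 := by
  obtain ⟨N1, hN1⟩ := hSz.big 0 (10 ^ 14 * 2 ^ 40)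
  refine ⟨N1, fun X Z h hX σ => ?_⟩
  have s := hSz.sz X Z h
  obtain ⟨q1, q2, q3, q4, q5⟩ := KGeo1J.tg h s σ
  have hb := (hN1 X Z h hX).1
  have hl : (2 : ℝ) ^ 40 ≤ Real.log (X (sc σ)) :=
    le_of_mul_le_mul_left (hb.trans (s.lg (sc σ))) (by positivity)
  have hN : X (sc σ) ≤ Z ^ (10 ^ 14) := (s.le0 _ (KGeo1J.sc_ne σ)).trans h.top
  have hU : UU X σ * T0 X σ = 64 * X (vi (lev σ)) * X (vj (lev σ)) := by
    rw [UU, T0]
    field_simp
    ring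
  refine ⟨fun n a hn ha => ⟨KGeo1J.pw (KGeo1J.zle s _) (DSep.x_pos h _) hN hn,
    KGeo1J.pw (KGeo1J.zle s _) (DSep.x_pos h _) hN hn, q1, q2, ?_, ?_, by norm_num, ?_⟩, ?_, hU,
    q5⟩
  · rw [T0]
    positivity
  · rw [hU]
    have : (64 : ℝ) ≤ 2 ^ 40 := by norm_num
    gcongr
  · exact hl.trans (le_self_pow₀ (le_trans (by norm_num) hl) (by omega))
  · rw [T0, le_div_iff₀ q3]
    exact q4

end Pool.Agent.MP_e23604_nt.U

end
end

section

/-!
The step `CPer`.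
-/

open Finset
open scoped Classical

noncomputable section

namespace Pool.Agent.MP_e23604_nt.U

open P (lam shp gg PW cW Rough WW ES mu flat tau NN)

namespace KPerJ

lemma cop {a b a' b' : ℤ} {e : ℕ} (ha : (e : ℤ) ∣ a - a') (hb : (e : ℤ) ∣ b - b')
    (h : Nat.Coprime (Int.gcd a b) e) : Nat.Coprime (Int.gcd a' b') e := by
  refine Nat.coprime_of_dvd fun l hl h1 h2 => hl.one_lt.ne' (Nat.eq_one_of_dvd_coprimes h ?_ h2)
  have h3 := Int.natCast_dvd_natCast.2 h2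
  have h4 := Int.natCast_dvd_natCast.2 h1
  refine Int.dvd_gcd ?_ ?_
  · simpa using (h3.trans ha).add (h4.trans (Int.gcd_dvd_left _ _))
  · simpa using (h3.trans hb).add (h4.trans (Int.gcd_dvd_right _ _))

lemma cop_iff {a b a' b' : ℤ} {e : ℕ} (ha : (e : ℤ) ∣ a - a') (hb : (e : ℤ) ∣ b - b') :
    Nat.Coprime (Int.gcd a b) e ↔ Nat.Coprime (Int.gcd a' b') e :=
  ⟨cop ha hb, cop (dvd_sub_comm.1 ha) (dvd_sub_comm.1 hb)⟩

lemma ff (hLin : CLin) (s e : S12) (hs : SOK s) : Per10 (MM s e) (FF s e) := by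
  intro v v' hv
  have h0 : KK s ∣ MM s e := ((dvd_mul_right _ _).mul_right _)
  have h1 := GG_per10 hs v v' fun i => (Int.natCast_dvd_natCast.2 h0).trans (hv i)
  rw [FF, FF, ← h1]
  by_cases h : GG s v = 0
  · rw [h, zero_mul, zero_mul]
  congr 1
  refine prod_congr rfl fun σ _ => ?_
  have h2 := (hLin.cong _ v v' hv 0 σ).1
  rw [(hLin.cond s v hs ((hLin.gg01 s v).2 h) σ).2.2.1,
    (hLin.cond s v' hs ((hLin.gg01 s v').2 (h1 ▸ h)) σ).2.2.1, ← mul_sub] at h2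
  have h3 : mk σ s * e σ ∣ MM s e := Nat.mul_dvd_mul
    (((hLin.sok s hs).1 σ).2.2.2.2.mul_right _) (dvd_prod_of_mem _ (mem_univ σ))
  have h4 : (mk σ s : ℤ) ≠ 0 := by
    have := hs.pos σ
    have : 1 ≤ cf σ := by unfold cf; split_ifs <;> norm_num
    unfold mk
    positivity
  have h5 := (Int.natCast_dvd_natCast.2 h3).trans h2
  rw [Nat.cast_mul, mul_dvd_mul_iff_left h4] at h5
  simp only [mu, (dvd_iff_dvd_of_dvd_sub h5)]

lemma ee1 {R : Finset (Fin 12)} {W k : ℕ} {e : S12} (he : e ∈ EE R W k) (σ : Fin 12) :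
    (1 ≤ e σ ∧ Squarefree (e σ) ∧ (σ ∉ R → e σ = 1) ∧ ∀ l : ℕ, l.Prime → l ∣ e σ → l ≤ W) ∧
      e σ ≤ (W + 1) ^ k := by
  have h := Fintype.mem_piFinset.1 he σ
  split_ifs at h with hσ
  · obtain ⟨h1, h2, h3⟩ := P.ES_spec Subset.rfl h
    have hp : ∀ q ∈ PW W, q.Prime := fun q hq => (mem_filter.1 hq).2
    refine ⟨⟨h1, ?_, fun h => absurd hσ h, fun l hl hd => ?_⟩, h2⟩
    · refine Squarefree.squarefree_of_dvd (Nat.dvd_of_mem_divisors (mem_filter.1 h).1) ?_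
      refine squarefree_prod_of_pairwise_isCoprime (fun a ha b hb hab => ?_)
        fun q hq => (hp q hq).squarefree
      exact Nat.coprime_iff_isRelPrime.1 ((Nat.coprime_primes (hp a ha) (hp b hb)).2 hab)
    · by_contra h4
      refine hl.one_lt.ne' (Nat.eq_one_of_dvd_coprimes (h3 l fun q hq h5 => h4 ?_) hd dvd_rfl)
      rw [← (Nat.prime_dvd_prime_iff_eq (hp q hq) hl).1 h5]
      exact Nat.lt_succ_iff.1 (mem_range.1 (mem_filter.1 hq).1)
  · rw [mem_singleton.1 h]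
    exact ⟨⟨le_rfl, squarefree_one, fun _ => rfl, fun l hl h => absurd h hl.not_dvd_one⟩,
      Nat.one_le_pow _ _ (Nat.succ_pos _)⟩

lemma ee2 {R : Finset (Fin 12)} {W k Z : ℕ} (hZ : (W + 1) ^ (12 * k) ≤ Z) {e : S12}
    (he : e ∈ EE R W k) : ∏ σ, e σ ≤ Z := by
  refine (prod_le_pow_card _ _ _ fun σ _ => (ee1 he σ).2).trans (le_trans (le_of_eq ?_) hZ)
  rw [← pow_mul, mul_comm]
  rfl

end KPerJ

open KPerJ in
theorem CPer_pf (hLin : CLin) : CPer := by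
  refine ⟨fun s hs => GG_per10 hs, fun s e hs => ⟨ff hLin s e hs, fun ℓ k v v' hv => ?_⟩,
    fun s e v => ⟨?_, fun ℓ k => ?_⟩, fun ℓ k s W j => ⟨?_, funext fun v => ?_⟩,
    fun R W k Z hZ e he => ⟨fun σ => (ee1 he σ).1, ee2 hZ he⟩, fun Z hZ s hs e he heZ => ?_,
    fun R W k Z hZ => ⟨(card_filter_le _ _).trans (by simp), ?_⟩⟩
  · rw [FI, FI, ff hLin s e hs v v' hv]
    refine if_congr (forall_congr' fun σ => ?_) rfl rfl
    have h0 : (e σ : ℤ) ∣ MM s e :=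
      Int.natCast_dvd_natCast.2 ((dvd_prod_of_mem _ (mem_univ σ)).mul_left _)
    have h1 := fun τ => hLin.cong _ v v' (fun i => h0.trans (hv i)) ℓ τ
    rw [← Int.gcd_zero_right, ← Int.gcd_zero_right]
    exact and_congr (cop_iff (h1 σ).2.1 (h1 σ).2.2) (cop_iff (h1 k).1 (by simp))
  · rw [FF, abs_mul, abs_prod]
    refine mul_le_one₀ ?_ (prod_nonneg fun _ _ => abs_nonneg _)
      (prod_le_one (fun _ _ => abs_nonneg _) fun σ _ => ?_)
    · rcases (hLin.gg01 s v).1 with h | h <;> simp [h]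
    · unfold mu
      split_ifs
      · exact_mod_cast ArithmeticFunction.abs_moebius_le_one
      · simp
  · unfold FI
    split_ifs <;> simp
  · simp only [EE, notMem_empty, if_false]
    exact Fintype.piFinset_singleton _
  · simp [FI, FF, mu]
  · obtain ⟨h1, h2⟩ := mem_SSet.1 hs
    have h3 : 1 ≤ SP s := Nat.pos_of_ne_zero h1.1.ne_zero
    have h4 : 1 ≤ ∏ σ, e σ := one_le_prod' fun σ _ => he σ
    refine ⟨Nat.mul_pos (Nat.mul_pos (Nat.mul_pos (by norm_num) h3) h3) h4, ?_,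
      fun ℓ k => ⟨one_le_prod' fun l hl => (Nat.prime_of_mem_primeFactors hl).pos, ?_, ?_, ?_⟩⟩
    · have h5 : 80 ≤ Z ^ 7 := le_trans (by norm_num) (Nat.pow_le_pow_left hZ 7)
      exact (Nat.mul_le_mul (Nat.mul_le_mul (Nat.mul_le_mul h5 h2) h2) heZ).trans_eq (by ring)
    · refine (Nat.le_of_dvd (Nat.mul_pos (prod_pos fun σ _ => h1.pos σ) h4)
        (Nat.prod_primeFactors_dvd _)).trans ?_
      rw [sq]
      exact Nat.mul_le_mul ((Nat.le_of_dvd h3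
        (prod_dvd_prod_of_subset _ _ _ (subset_univ _))).trans h2) heZ
    · refine Nat.mul_pos ?_ (h1.pos k)
      unfold cf
      split_ifs <;> norm_num
    · have h5 : cf k ≤ Z ^ 2 := by
        refine le_trans ?_ (Nat.pow_le_pow_left hZ 2)
        unfold cf
        split_ifs <;> norm_num
      exact Nat.mul_le_mul h5 ((le_SP h1 k).trans h2)
  · refine (card_le_card (t := Fintype.piFinset fun _ => Icc 1 Z) fun e he =>
      Fintype.mem_piFinset.2 fun σ => mem_Icc.2 ⟨(ee1 he σ).1.1, le_trans ?_ (ee2 hZ he)⟩).trans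
      (by simp)
    exact single_le_prod' (fun τ _ => (ee1 he τ).1.1) (mem_univ σ)

end Pool.Agent.MP_e23604_nt.U

end
end

section

/-!
The step `TDl`.
-/

open Finset
open scoped Classical

noncomputable section

namespace Pool.Agent.MP_e23604_nt.U

open P (lam shp gg PW cW Rough WW ES mu flat tau NN)

namespace KTDlJ

theorem clamp_bd (x : ℝ) : |clamp x| ≤ 1 := by
  unfold clamp
  rw [abs_le]
  exact ⟨le_max_left _ _, max_le (by norm_num) (min_le_left _ _)⟩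

theorem clamp_eq {x : ℝ} (h : |x| ≤ 1) : clamp x = x := by
  unfold clamp
  rw [abs_le] at h
  rw [min_eq_right h.2, max_eq_right h.1]

theorem BB_bd (E : Finset (Fin 10 × Fin 10)) (v : V10) : |BB E v| ≤ 1 := by
  unfold BB
  rw [Finset.abs_prod]
  refine Finset.prod_le_one (fun _ _ => abs_nonneg _) fun p _ => ?_
  split_ifs <;> simp

theorem BB_ind (E : Finset (Fin 10 × Fin 10)) (hE : E ⊆ EP 0) (v : V10) (t : ℤ) :
    BB E (Function.update v 7 t) = BB E v := by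
  unfold BB
  refine Finset.prod_congr rfl fun p hp => ?_
  have h := (Finset.mem_filter.1 (hE hp)).2
  have h1 : p.1 ≠ 7 := by
    intro e
    have := h.2.1
    have h2 := h.2.2
    rw [e, Fin.lt_def] at this
    simp at this
    omega
  have h2 : p.2 ≠ 7 := by
    intro e
    have h2 := h.2.2
    rw [e] at h2
    simp at h2
  rw [Function.update_of_ne h1, Function.update_of_ne h2]

theorem cop_ind (v : V10) (t : ℤ) (k : Fin 10) (hk : k.val < 4) :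
    Cop (Function.update v k t) ↔ Cop v := by
  unfold Cop
  refine forall_congr' fun i => forall_congr' fun j => forall_congr' fun hi =>
    forall_congr' fun hj => forall_congr' fun _ => ?_
  have h1 : i ≠ k := by
    intro e
    rw [e] at hi
    omega
  have h2 : j ≠ k := by
    intro e
    rw [e] at hj
    omega
  rw [Function.update_of_ne h1, Function.update_of_ne h2]

theorem qq_ind (hLin : CLin) (σ : Fin 12) (i : Fin 10) (h : i ∉ dp σ) (s : S12) (v : V10) (t : ℤ) :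
    qq s (Function.update v i t) σ = qq s v σ := by
  unfold qq
  rw [(hLin.dep σ i h v t).1]

def T9 : Finset (Fin 12) := ((univ.erase 2).erase 7).erase 11

theorem T9_dp : ∀ σ ∈ T9, (7 : Fin 10) ∉ dp σ := by decide

theorem T9_card : T9.card = 9 := by decide

theorem prod_split (f : Fin 12 → ℝ) : ∏ σ, f σ = f 2 * (f 7 * (f 11 * ∏ σ ∈ T9, f σ)) := by
  unfold T9
  rw [Finset.mul_prod_erase _ f (show (11 : Fin 12) ∈ (univ.erase 2).erase 7 by decide),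
    Finset.mul_prod_erase _ f (show (7 : Fin 12) ∈ univ.erase 2 by decide),
    Finset.mul_prod_erase _ f (Finset.mem_univ 2)]

end KTDlJ

open KTDlJ in
theorem TDl_pf (hIE : IE) (hPrim : CPrim) (hLin : CLin) (hSz : CSz) : TDl := by
  obtain ⟨B0, hB⟩ := hIE 22
  refine ⟨B0, fun B hB0 => ?_⟩
  obtain ⟨X0, hX⟩ := hB B hB0
  obtain ⟨N1, hN⟩ := hSz.big 0 21
  refine ⟨max X0 N1, fun X Z hR hle E hE g hg h5 h11 => ?_⟩
  have hL : (21 : ℝ) ≤ LL X := (hN X Z hR (le_trans (le_max_right _ _) hle)).1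
  have hX' := hX X Z hR (le_trans (le_max_left _ _) hle)
  set Γ : ℝ := 21 * LL X with hΓ
  have hΓ0 : 0 < Γ := by positivity
  let n : Fin 12 → S12 → V10 → ℝ := fun σ s v => clamp (g σ (qq s v σ) / Γ)
  have hn : ∀ σ s v, |n σ s v| ≤ 1 := fun σ s v => clamp_bd _
  have hni : ∀ σ i, i ∉ dp σ → ∀ s v t, n σ s (Function.update v i t) = n σ s v := by
    intro σ i hi s v t
    simp only [n, qq_ind hLin σ i hi]
  let G1 : S12 → V10 → ℝ := fun s v => BB E v * ∏ σ ∈ T9, n σ s v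
  let G2 : S12 → V10 → ℝ := n 7
  let H : S12 → V10 → ℝ := fun s v => if Cop v ∧ (qq s v 5).toNat.Prime then n 2 s v else 0
  have hEW : EW G1 G2 H := by
    refine ⟨fun s v => ?_, fun s v => hn _ _ _, fun s v => ?_, fun s v t => ?_,
      fun s v t => hni 7 5 (by decide) s v t, fun s v t => ?_, fun s v t => ?_, fun s v h => ?_⟩
    · simp only [G1]
      rw [abs_mul, Finset.abs_prod]
      exact mul_le_one₀ (BB_bd _ _) (Finset.prod_nonneg fun _ _ => abs_nonneg _)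
        (Finset.prod_le_one (fun _ _ => abs_nonneg _) fun σ _ => hn σ s v)
    · simp only [H]
      split_ifs
      · exact hn _ _ _
      · simp
    · simp only [G1]
      rw [BB_ind E hE, Finset.prod_congr rfl fun σ hσ => hni σ 7 (T9_dp σ hσ) s v t]
    · simp only [H]
      rw [hni 2 0 (by decide), qq_ind hLin 5 0 (by decide)]
      simp only [cop_ind v t 0 (by decide)]
    · simp only [H]
      rw [hni 2 1 (by decide), qq_ind hLin 5 1 (by decide)]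
      simp only [cop_ind v t 1 (by decide)]
    · simp only [H] at h
      split_ifs at h with hc
      · refine ⟨IsCoprime.mul_right ?_ ?_, hc.2⟩
        · exact (hc.1 4 7 (by decide) (by decide) (by decide)).symm
        · exact hc.1 7 9 (by decide) (by decide) (by decide)
      · exact absurd rfl h
  have key := hX' G1 G2 H hEW
  have hTS : TS X Z cp E g =
      Γ ^ 11 * SS X Z fun s v => G1 s v * G2 s v * H s v * gg (WW B (X 0)) (qq s v 11) := by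
    unfold TS SS
    rw [Finset.mul_sum]
    refine Finset.sum_congr rfl fun s hs => ?_
    rw [Finset.mul_sum]
    refine Finset.sum_congr rfl fun v hv => ?_
    have hgn : ∀ σ, g σ (qq s v σ) = Γ * n σ s v := by
      intro σ
      have hr := hPrim.rng X Z hR s hs v hv σ
      have hb := hg σ (qq s v σ) (le_trans (by positivity) hr.1) hr.2.1
      have : |g σ (qq s v σ) / Γ| ≤ 1 := by
        rw [abs_div, abs_of_pos hΓ0, div_le_one hΓ0]
        exact hb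
      simp only [n]
      rw [clamp_eq this]
      field_simp
    have hP : ∏ σ ∈ T9, g σ (qq s v σ) = Γ ^ 9 * ∏ σ ∈ T9, n σ s v := by
      rw [Finset.prod_congr rfl fun σ _ => hgn σ, Finset.prod_mul_distrib, Finset.prod_const,
        T9_card]
    simp only [G1, G2, H, cp]
    rw [prod_split, h11]
    by_cases hc : Cop v
    · by_cases hp : (qq s v 5).toNat.Prime
      · rw [if_pos hc, if_pos ⟨hc, hp⟩, hP, hgn 2, hgn 7]
        ring
      · have h0 : ∏ σ ∈ T9, g σ (qq s v σ) = 0 := by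
          refine Finset.prod_eq_zero (show (5 : Fin 12) ∈ T9 by decide) ?_
          rw [h5]
          unfold lam
          rw [if_neg hp]
        rw [if_neg (show ¬(Cop v ∧ (qq s v 5).toNat.Prime) from fun h => hp h.2), h0]
        ring
    · rw [if_neg hc, if_neg (show ¬(Cop v ∧ (qq s v 5).toNat.Prime) from fun h => hc h.1)]
      ring
  rw [hTS, abs_mul, abs_of_pos (by positivity)]
  have hL0 : (0 : ℝ) < LL X := by linarith
  have hV : 0 ≤ Vol X := Finset.prod_nonneg fun _ _ => Nat.cast_nonneg _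
  have hpow : Γ ^ 11 ≤ LL X ^ 22 := by
    have : Γ ≤ LL X ^ 2 := by
      rw [hΓ, sq]
      exact mul_le_mul_of_nonneg_right hL hL0.le
    calc Γ ^ 11 ≤ (LL X ^ 2) ^ 11 := pow_le_pow_left₀ hΓ0.le this 11
      _ = LL X ^ 22 := by ring
  calc Γ ^ 11 * _ ≤ LL X ^ 22 * (Vol X / LL X ^ 22) :=
        mul_le_mul hpow key (abs_nonneg _) (by positivity)
    _ = Vol X := by field_simp

end Pool.Agent.MP_e23604_nt.U

end
end

section

/-!
The sieve lower bounds and the end of the chain in the form used by the levels.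
-/

open Finset
open scoped Classical

noncomputable section

namespace Pool.Agent.MP_e23604_nt.U.CF

open P (lam PW cW Rough shp gg WW)

theorem xBr_q (hSz : DSz) {X : Fin 10 → ℕ} {Z : ℕ} (hR : Reg X Z) {s : S12} (hs : s ∈ SSet Z)
    {v : V10} (hv : v ∈ Box X) (σ : Fin 12) :
    (Z : ℤ) ≤ qq s v σ ∧ qq s v σ ≤ (X 0 : ℤ) ^ 20 := by
  obtain ⟨-, ⟨h1, -⟩, h2, -⟩ := hSz X Z hR v hv
  obtain ⟨hok, hsp⟩ := mem_SSet.1 hs
  have h3 : (s σ : ℤ) ≤ Z := by exact_mod_cast (le_SP hok σ).trans hsp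
  have h4 : (0 : ℤ) < s σ := by exact_mod_cast hok.pos σ
  have h5 := h1 σ
  have h6 : (0 : ℤ) ≤ Z := Int.natCast_nonneg Z
  refine ⟨Int.le_ediv_of_mul_le h4 (by nlinarith), le_trans (Int.ediv_le_self _ ?_) (h2 σ)⟩
  nlinarith

theorem xBr_rough {W Z : ℕ} (h : W < Z) {q : ℤ} (hq : (Z : ℤ) ≤ q) (hl : lam q ≠ 0) :
    Rough (PW W) q := by
  intro l hl1 hd
  obtain ⟨h1, h2⟩ := P.xCW_mem.1 hl1
  have hp : q.toNat.Prime := by
    by_contra hc
    exact hl (if_neg hc)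
  have e : q = (q.toNat : ℤ) := (Int.toNat_of_nonneg ((Int.natCast_nonneg Z).trans hq)).symm
  rw [e, Int.natCast_dvd_natCast] at hd
  have := (Nat.prime_dvd_prime_iff_eq h2 hp).1 hd
  omega

theorem xBr_cp (v : V10) : 0 ≤ cp v ∧ cp v ≤ 1 := by
  unfold cp
  split_ifs <;> norm_num

theorem xBr_BB (E : Finset (Fin 10 × Fin 10)) (v : V10) : 0 ≤ BB E v ∧ BB E v ≤ 1 :=
  ⟨prod_nonneg fun _ _ => by split_ifs <;> norm_num,
    prod_le_one (fun _ _ => by split_ifs <;> norm_num) fun _ _ => by split_ifs <;> norm_num⟩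

theorem xBr_gl (S : Finset (Fin 12)) (σ : Fin 12) : gl S σ = lam ∨ gl S σ = one := by
  unfold gl
  split_ifs
  · exact Or.inl rfl
  · exact Or.inr rfl

theorem xBr_gl0 (S : Finset (Fin 12)) (σ : Fin 12) (u : ℤ) : 0 ≤ gl S σ u := by
  rcases xBr_gl S σ with h | h <;> rw [h]
  · exact P.lam_nonneg u
  · exact zero_le_one

/-- The weight of a level. -/
def FW (E : Finset (Fin 10 × Fin 10)) (S : Finset (Fin 12)) : S12 → V10 → ℝ :=
  fun s v => cp v * BB E v * ∏ σ, gl S σ (qq s v σ)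

theorem xBr_prod (S : Finset (Fin 12)) (u : Fin 12 → ℤ) :
    ∏ σ, gl S σ (u σ) = ∏ σ ∈ S, lam (u σ) := by
  rw [← prod_ite_mem_eq S fun σ => lam (u σ)]
  refine prod_congr rfl fun σ _ => ?_
  unfold gl
  split_ifs <;> rfl

theorem xBr_bnd (hSz : DSz) {X : Fin 10 → ℕ} {Z : ℕ} (hR : Reg X Z) (hL : 21 ≤ LL X)
    {S : Finset (Fin 12)} (hb : Bd X (gl S)) (E : Finset (Fin 10 × Fin 10)) :
    Bnd X Z 24 (FW E S) := by
  intro s hs v hv
  have h1 := xBr_cp v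
  have h2 := xBr_BB E v
  have h3 : 0 ≤ ∏ σ, gl S σ (qq s v σ) := prod_nonneg fun σ _ => xBr_gl0 S σ _
  have h4 : ∏ σ, gl S σ (qq s v σ) ≤ ∏ _σ : Fin 12, LL X ^ 2 := by
    refine prod_le_prod (fun σ _ => xBr_gl0 S σ _) fun σ _ => ?_
    obtain ⟨k1, k2⟩ := xBr_q hSz hR hs hv σ
    have k3 := (le_abs_self _).trans (hb σ _ ((Int.natCast_nonneg Z).trans k1) k2)
    nlinarith
  rw [prod_const, card_univ, Fintype.card_fin, ← pow_mul] at h4
  refine ⟨mul_nonneg (mul_nonneg h1.1 h2.1) h3, le_trans ?_ h4⟩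
  exact mul_le_of_le_one_left h3 (mul_le_one₀ h1.2 h2.1 h2.2)

theorem xBr_sup (hSz : DSz) {X : Fin 10 → ℕ} {Z W : ℕ} (hR : Reg X Z) (hW : W < Z)
    {S T : Finset (Fin 12)} (hT : T ⊆ S) (E : Finset (Fin 10 × Fin 10)) :
    Sup X Z W T (FW E S) := by
  intro s hs v hv _ hF
  have h1 := left_ne_zero_of_mul (left_ne_zero_of_mul hF)
  have h2 := right_ne_zero_of_mul hF
  rw [xBr_prod] at h2
  refine ⟨?_, fun τ hτ => xBr_rough hW (xBr_q hSz hR hs hv τ).1 (prod_ne_zero_iff.1 h2 τ (hT hτ))⟩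
  by_contra hc
  exact h1 (if_neg hc)

theorem xBr_ind {a : ℕ} (ha : a ≤ 4) {i : Fin 10} (hi : i.val < a) {S : Finset (Fin 12)}
    (hS : ∀ σ ∈ S, ∀ (v : V10) (x : ℤ), site (Function.update v i x) σ = site v σ) :
    Ind i (FW (EP a) S) := by
  intro s v x
  have hu : ∀ j : Fin 10, a ≤ j.val → Function.update v i x j = v j := fun j hj =>
    Function.update_of_ne (fun h => by subst h; omega) _ _
  have e1 : cp (Function.update v i x) = cp v := by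
    have e : Cop (Function.update v i x) ↔ Cop v :=
      forall_congr' fun j => forall_congr' fun k => forall_congr' fun hj =>
        forall_congr' fun hk => forall_congr' fun _ => by rw [hu j (by omega), hu k (by omega)]
    rw [cp, cp, e]
  have e2 : BB (EP a) (Function.update v i x) = BB (EP a) v := by
    refine prod_congr rfl fun p hp => ?_
    obtain ⟨h1, h2, -⟩ := (mem_filter.1 hp).2
    have h3 : p.1.val < p.2.val := h2
    rw [hu p.1 h1, hu p.2 (by omega)]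
  unfold FW
  rw [e1, e2, xBr_prod, xBr_prod]
  refine congrArg _ (prod_congr rfl fun σ hσ => ?_)
  rw [qq, qq, hS σ hσ]

theorem xBr_eq (X : Fin 10 → ℕ) (Z W : ℕ) (E : Finset (Fin 10 × Fin 10)) {S T : Finset (Fin 12)}
    {ℓ : Fin 3} (hT : ∀ σ, lev σ = ℓ ↔ σ ∈ T) (hS : ∀ σ ∈ T, σ ∉ S) :
    (TS X Z cp E fun σ => if lev σ = ℓ then shp W else gl S σ) =
      SS X Z fun s v => FW E S s v * ∏ σ ∈ T, shp W (qq s v σ) := by
  unfold TS FW
  refine congrArg _ (funext fun s => funext fun v => ?_)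
  rw [mul_assoc (cp v * BB E v), ← prod_ite_mem_eq T, ← prod_mul_distrib]
  refine congrArg _ (prod_congr rfl fun σ _ => ?_)
  beta_reduce
  by_cases h : σ ∈ T
  · rw [if_pos ((hT σ).2 h), if_pos h, gl, if_neg (hS σ h), one, one_mul]
  · rw [if_neg (mt (hT σ).1 h), if_neg h, mul_one]

theorem xBr_WW (B : ℕ) {x y : ℕ} (hx : 1 ≤ x) (h : x ≤ y) : WW B x ≤ WW B y :=
  Nat.ceil_mono (pow_le_pow_left₀ (Real.log_natCast_nonneg x)
    (Real.log_le_log (Nat.cast_pos.2 hx) (Nat.cast_le.2 h)) B)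

theorem xBr_ss0 {X : Fin 10 → ℕ} {Z C : ℕ} {F : S12 → V10 → ℝ} (h : Bnd X Z C F) :
    0 ≤ SS X Z F :=
  sum_nonneg fun s hs => sum_nonneg fun v hv => mul_nonneg
    (by rcases GG_01 s v with e | e
        · exact e.ge
        · exact zero_le_one.trans e.1.ge) (h s hs v hv).1

theorem tFun (hSz : DSz) (hBd : CBd) (h1 : CFund1) (h2 : CFund2) : TFun := by
  obtain ⟨c1, p1, h1⟩ := h1
  obtain ⟨c2, p2, h2⟩ := h2
  refine ⟨min c1 c2, lt_min p1 p2, fun B => ?_⟩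
  obtain ⟨N1, h1⟩ := h1 B 24
  obtain ⟨N2, h2⟩ := h2 B 24
  obtain ⟨N3, h3⟩ := hBd B
  obtain ⟨N4, h4⟩ := Reg.log_le (B + 1)
  obtain ⟨N5, h5⟩ := Reg.log_le 21
  refine ⟨max (max N1 N2) (max N3 (max N4 (max N5 3))), fun X Z hR hX => ?_⟩
  simp only [max_le_iff] at hX
  obtain ⟨⟨k1, k2⟩, k3, k4, k5, k6⟩ := hX
  have hL : 21 ≤ LL X := by exact_mod_cast (h5 X Z hR k5).2.2
  have hW : WW B (X 0) < Z := by
    have := (P.xCW_W B k6 (by unfold LL at hL; linarith)).trans (h4 X Z hR k4).1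
    exact_mod_cast this
  have hb : ∀ S, Bd X (gl S) := fun S => h3 X Z hR k3 _ fun σ =>
    (xBr_gl S σ).elim Or.inl fun h => Or.inr (Or.inl h)
  have hV : Vol X / Z ≤ Vol X := div_le_self (prod_nonneg fun i _ => Nat.cast_nonneg _)
    (by exact_mod_cast one_le_two.trans hR.z2)
  have h20 : WW B (X 2) ≤ WW B (X 0) := by
    have z1 : 1 ≤ X 2 := (Nat.one_le_pow _ _ (lt_of_lt_of_le two_pos hR.z2)).trans (hR.sizes.1 2)
    exact xBr_WW B z1 ((Nat.le_self_pow (by norm_num) _).trans hR.h0)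
  constructor
  · have hB := xBr_bnd hSz hR hL (hb {2, 3, 4, 5, 8, 9}) (EP 2)
    have := h1 X Z _ _ hR k1 le_rfl hB
      (xBr_ind (by norm_num) (by norm_num) (by intro σ hσ v x; fin_cases hσ <;> simp [site]))
      (xBr_ind (by norm_num) (by norm_num) (by intro σ hσ v x; fin_cases hσ <;> simp [site]))
      (xBr_sup hSz hR hW (by decide) _)
    rw [xBr_eq X Z _ _ (T := {0, 1, 6, 7, 10, 11}) (by decide) (by decide)]
    have h0 := mul_le_mul_of_nonneg_right (min_le_left c1 c2) (xBr_ss0 hB)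
    change min c1 c2 * SS X Z (FW _ _) - _ ≤ _
    linarith
  · have hB := xBr_bnd hSz hR hL (hb {4, 5}) (EP 4)
    have := h2 X Z _ _ hR k2 h20 hB
      (xBr_ind (by norm_num) (by norm_num) (by intro σ hσ v x; fin_cases hσ <;> simp [site]))
      (xBr_ind (by norm_num) (by norm_num) (by intro σ hσ v x; fin_cases hσ <;> simp [site]))
      (xBr_sup hSz hR (h20.trans_lt hW) (by decide) _)
    rw [xBr_eq X Z _ _ (T := {2, 3, 8, 9}) (by decide) (by decide)]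
    have h0 := mul_le_mul_of_nonneg_right (min_le_right c1 c2) (xBr_ss0 hB)
    change min c1 c2 * SS X Z (FW _ _) - _ ≤ _
    linarith

end Pool.Agent.MP_e23604_nt.U.CF

end
end

section

/-!
The step `TFun`.
-/

namespace Pool.Agent.MP_e23604_nt.U

theorem TFun_pf (hCFund1 : CF.CFund1) (hCFund2 : CF.CFund2) (_hPrim : CPrim) (_hLin : CLin)
    (hSz : CSz) : TFun := CF.tFun dSz (CBd_pf hSz) hCFund1 hCFund2

end Pool.Agent.MP_e23604_nt.U

end

section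

/-!
The step `CLev3`.
-/

open Finset
open scoped Classical

noncomputable section

namespace Pool.Agent.MP_e23604_nt.U

open P (lam shp gg PW cW Rough WW ES mu flat tau NN)

theorem CLev3_pf (hTBit : TBit) (hBd : CBd) (hCTail : CF.CTail) (hIB : IB)
    (hID1 : ID1) : CLev3 := by
  obtain ⟨c, hc, N1, h1⟩ := hCTail hIB hID1
  obtain ⟨N2, h2⟩ := hTBit 0
  obtain ⟨N3, h3⟩ := hBd 0
  refine ⟨c / 2, 1, by positivity, N1 + N2 + N3, fun X Z hR hX => ?_⟩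
  have a1 := h1 X Z hR (by omega)
  have e4 : EP 4 = {((4 : Fin 10), (5 : Fin 10))} := by decide
  have a2 := h2 X Z hR (by omega) (EP 4) (by decide) (4, 5) (by decide) 0 (by decide) ∅
    (gl {4, 5}) (h3 X Z hR (by omega) _ fun σ => by
      unfold gl
      split_ifs
      · exact Or.inl rfl
      · exact Or.inr (Or.inl rfl)) (by simp [gl, sv]) (by simp [gl, sv]) (by simp) (by simp)
    (by simp) (fun σ _ => by
      by_cases h : σ ∈ ({4, 5} : Finset (Fin 12))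
      · have : (4 : Fin 10) ∉ dp σ ∨ (5 : Fin 10) ∉ dp σ := by
          revert σ
          decide
        tauto
      · exact Or.inr (Or.inr (if_neg h)))
  have e : TS X Z cp ((EP 4).erase (4, 5)) (gl {4, 5}) =
      SS X Z fun s v => if Cop v then lam (qq s v 4) * lam (qq s v 5) else 0 := by
    rw [e4, erase_singleton, TS]
    congr 1
    funext s v
    have : ∏ σ, gl {4, 5} σ (qq s v σ) = lam (qq s v 4) * lam (qq s v 5) := by
      rw [← prod_pair (f := fun σ => lam (qq s v σ)) (by decide : (4 : Fin 12) ≠ 5),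
        ← prod_subset (subset_univ ({4, 5} : Finset (Fin 12))) fun σ _ h => by
          rw [gl, if_neg h, one]]
      exact prod_congr rfl fun σ h => by rw [gl, if_pos h]
    rw [this, BB, prod_empty, cp]
    split_ifs <;> simp
  rw [e] at a2
  have := (abs_le.1 a2).1
  unfold LL
  linarith

end Pool.Agent.MP_e23604_nt.U

end
end
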