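import Pool.Agent.Mg.Fe23604m.G37f196
import Pool.Agent.Mg.Fe23604m.G0311cb

set_option linter.all false

section

/-!
The sieve in one coordinate of the box.
-/

open Finset
open scoped Classical

noncomputable section

namespace Pool.Agent.MP_e23604_nt.U.CF

open P (lam PW cW Rough shp gg WW)

theorem x3_one {c E M : ℝ} {W : ℕ} {X : Fin 10 → ℕ} {i : Fin 10} {S : Finset (Fin 12)} {s : S12}
    (hs : SOK s) (hE : 0 ≤ E) (f : V10 → ℝ)
    (h2 : ∀ (G : ℤ → ℝ) (q : Fin 12 → ℤ → ℤ), (∀ x, 0 ≤ G x ∧ G x ≤ 1) →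
      (∀ x t, G (x + KK s * t) = G x) →
      (∀ x ∈ Ioc (X i : ℤ) (2 * X i), G x ≠ 0 → ∃ a b : Fin 12 → ℤ, Nd W S a b ∧
        ∀ t : ℤ, ∀ σ ∈ S, q σ (x + KK s * t) = a σ * t + b σ) →
      c * ∑ x ∈ Ioc (X i : ℤ) (2 * X i), G x - E ≤
        ∑ x ∈ Ioc (X i : ℤ) (2 * X i), G x * ∏ σ ∈ S, shp W (q σ x))
    (hb : ∀ v ∈ Box X, 0 ≤ f v ∧ f v ≤ M) (hi : ∀ v x, f (Function.update v i x) = f v)
    (hA : ∀ v ∈ Box X, GG s v ≠ 0 → f v ≠ 0 → Aff W s v i S) :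
    c * (X i * ∑ v ∈ Box X, GG s v * f v) - Vol X * (M * E) ≤
      X i * ∑ v ∈ Box X, GG s v * (f v * ∏ σ ∈ S, shp W (qq s v σ)) := by
  rw [CSJ.box_avg, CSJ.box_avg, ← CSJ.card_Box, ← nsmul_eq_mul, ← sum_const, mul_sum,
    ← sum_sub_distrib]
  refine sum_le_sum fun v hv => ?_
  obtain ⟨b1, b2⟩ := hb v hv
  simp only [hi]
  by_cases h0 : f v = 0
  · simp only [h0, mul_zero, zero_mul, sum_const_zero]
    have : 0 ≤ M * E := mul_nonneg (b1.trans b2) hE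
    linarith
  have k := h2 (fun x => GG s (Function.update v i x)) (fun σ x => qq s (Function.update v i x) σ)
    (fun x => by rcases GG_01 s (Function.update v i x) with h | ⟨h, -⟩ <;> simp [h])
    (fun x t => GG_per10 hs _ _ fun j => by
      by_cases h : j = i
      · subst h
        simp
      · simp [Function.update_of_ne h])
    (fun x hx hG => by
      obtain ⟨a, b, n1, n2⟩ := hA _ (CSJ.upd_mem hv hx) hG (by rwa [hi])
      refine ⟨a, b, n1, fun t σ hσ => ?_⟩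
      have := n2 t σ hσ
      rwa [Function.update_idem, Function.update_self] at this)
  have e1 : ∑ t ∈ CSJ.II (X i), GG s (Function.update v i t) * f v =
      f v * ∑ x ∈ Ioc (X i : ℤ) (2 * X i), GG s (Function.update v i x) := by
    rw [mul_sum]
    exact sum_congr rfl fun _ _ => mul_comm _ _
  have e2 : ∑ t ∈ CSJ.II (X i), GG s (Function.update v i t) *
      (f v * ∏ σ ∈ S, shp W (qq s (Function.update v i t) σ)) =
      f v * ∑ x ∈ Ioc (X i : ℤ) (2 * X i), GG s (Function.update v i x) *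
        ∏ σ ∈ S, shp W (qq s (Function.update v i x) σ) := by
    rw [mul_sum]
    exact sum_congr rfl fun _ _ => mul_left_comm _ _ _
  rw [e1, e2]
  have k1 := mul_le_mul_of_nonneg_left k b1
  have k2 := mul_le_mul_of_nonneg_right b2 hE
  linarith

theorem x3_pow {Z n : ℕ} (hZ : 2 ≤ Z) (hn : 27 ≤ n) : 160 * Z ^ 19 ≤ Z ^ n := by
  have h1 : 2 ^ 8 ≤ Z ^ 8 := Nat.pow_le_pow_left hZ 8
  calc 160 * Z ^ 19 ≤ Z ^ 8 * Z ^ 19 := Nat.mul_le_mul_right _ (le_trans (by norm_num) h1)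
    _ = Z ^ 27 := by ring
    _ ≤ Z ^ n := Nat.pow_le_pow_right (by omega) hn

theorem x3_root {a Z N x : ℕ} (hN : N ≠ 0) (h1 : a ^ N ≤ x) (h2 : x ≤ Z ^ N) : a ≤ Z :=
  (Nat.pow_le_pow_iff_left hN).1 (h1.trans h2)

theorem F3_pf (hF2 : F2) : F3 := by
  obtain ⟨c, hc, hc1, h2⟩ := hF2
  refine ⟨c, hc, hc1, fun B C => ?_⟩
  obtain ⟨a1, h1⟩ := P.cW_le B
  obtain ⟨a2, h3⟩ := P.exists_level B 19 (10 ^ 14)
  obtain ⟨a3, h4⟩ := Reg.log_le C
  obtain ⟨a4, h5⟩ := Reg.log_le 6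
  obtain ⟨a5, h6⟩ := P.log_pow_le 0 0 (1 / c)
  refine ⟨a1 + a2 + a3 + a4 + a5, fun X Z W F i S hR hX hW hS hB hI hA => ?_⟩
  have w0 : 0 ≤ cW W := zero_le_one.trans (P.one_le_cW W)
  have w1 : cW W ≤ Real.log (X 0) := (cW_mono hW).trans (h1 _ (by omega))
  obtain ⟨k, k1, k2⟩ := h3 (X 0) (by omega)
  have k3 : (WW B (X 0) + 1) ^ (k + 1) ≤ Z := x3_root (pow_ne_zero 14 (by decide)) k2 hR.top
  have k4 : ((W : ℝ) + 1) ^ (k + 1) ≤ Z := by
    exact_mod_cast (Nat.pow_le_pow_left (Nat.succ_le_succ hW) (k + 1)).trans k3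
  have l1 := (h4 X Z hR (by omega)).1
  have l2 := (h5 X Z hR (by omega)).1
  have l3 := (h6 (X 0) (by omega)).1
  have hL : 0 ≤ Real.log (X 0) := w0.trans w1
  have l4 : cW W ^ 18 ≤ c * 2 ^ k := by
    rw [div_le_iff₀ hc] at l3
    calc cW W ^ 18 ≤ Real.log (X 0) ^ 18 * 1 := by rw [mul_one]; gcongr
      _ ≤ Real.log (X 0) ^ 18 * (Real.log (X 0) * c) := by gcongr
      _ = c * Real.log (X 0) ^ 19 := by ring
      _ ≤ c * 2 ^ k := by gcongr
  have l5 : cW W ^ 6 ≤ Z := le_trans (by gcongr) l2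
  have hZ : (0 : ℝ) < Z := by exact_mod_cast lt_of_lt_of_le two_pos hR.z2
  have hXi : 160 * (Z : ℝ) ^ 19 ≤ X i := by
    exact_mod_cast (x3_pow hR.z2 (by decide)).trans (hR.sizes.1 i)
  have hXi0 : (0 : ℝ) < X i := lt_of_lt_of_le (by positivity) hXi
  have hV : 0 ≤ Vol X := prod_nonneg fun _ _ => Nat.cast_nonneg _
  have key : ∀ s ∈ SSet Z, c * (X i * ∑ v ∈ Box X, GG s v * F s v) - Vol X * (160 * (Z : ℝ) ^ 5) ≤
      X i * ∑ v ∈ Box X, GG s v * (F s v * ∏ σ ∈ S, shp W (qq s v σ)) := by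
    intro s hs
    obtain ⟨s1, s2⟩ := mem_SSet.1 hs
    have s3 : 1 ≤ KK s := by
      have := (s1.pos 0).trans (le_SP s1 0)
      unfold KK
      omega
    have s4 : (KK s : ℝ) ≤ 80 * Z := by
      unfold KK
      exact_mod_cast Nat.mul_le_mul_left 80 s2
    refine le_trans ?_ (x3_one (M := Z) s1 (by positivity) (F s)
      (fun G q g1 g2 g3 => h2 W k (KK s) (X i) S G q hS s3 g1 g2 g3 l4)
      (fun v hv => ⟨(hB s hs v hv).1, (hB s hs v hv).2.trans l1⟩) (hI s) (hA s hs))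
    refine sub_le_sub_left (mul_le_mul_of_nonneg_left ?_ hV) _
    calc (Z : ℝ) * (KK s * (2 * cW W ^ 6 * (((W : ℝ) + 1) ^ (k + 1)) ^ 2))
        ≤ Z * ((80 * Z) * (2 * Z * (Z : ℝ) ^ 2)) := by gcongr
      _ = 160 * (Z : ℝ) ^ 5 := by ring
  have tot := sum_le_sum key
  rw [sum_sub_distrib, sum_const, nsmul_eq_mul, ← mul_sum, ← mul_sum, ← mul_sum] at tot
  have e1 : ((SSet Z).card : ℝ) * (Vol X * (160 * (Z : ℝ) ^ 5)) ≤ X i * (Vol X / (Z : ℝ) ^ 2) := by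
    calc ((SSet Z).card : ℝ) * (Vol X * (160 * (Z : ℝ) ^ 5))
        ≤ (Z : ℝ) ^ 12 * (Vol X * (160 * (Z : ℝ) ^ 5)) := by gcongr; exact card_SSet Z
      _ = 160 * (Z : ℝ) ^ 19 * (Vol X / (Z : ℝ) ^ 2) := by field_simp
      _ ≤ X i * (Vol X / (Z : ℝ) ^ 2) := by gcongr
  unfold SS
  refine le_of_mul_le_mul_left ?_ hXi0
  rw [mul_sub, mul_left_comm]
  linarith

end Pool.Agent.MP_e23604_nt.U.CF

end
end

section

/-!
The replacement of the primes at the two smallest sites.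
-/

open Finset
open scoped Classical

noncomputable section

namespace Pool.Agent.MP_e23604_nt.U.CF

open P (lam PW cW Rough shp gg WW)

theorem xP_sz (N : ℕ) (hN : N ≠ 0) (X1 : ℕ) : ∃ X0 : ℕ, ∀ x y Z : ℕ, 2 ≤ Z → Z ^ 1000 ≤ y →
    Z ^ 1000 ≤ x → x ≤ Z ^ N → X0 ≤ x → X1 ≤ y ∧ 0 < Real.log x ∧
      Real.log x ≤ Real.log y ^ 2 ∧ 1 + Real.log Z ≤ Real.log y ∧ 2 ≤ Real.log y ∧
      Z ^ 10 ≤ y ∧ (80 * Z) ^ 5 ≤ y := by
  refine ⟨max X1 ⌈Real.exp (N + 2)⌉₊ ^ N, fun x y Z h2 hy hx hN' h0 => ?_⟩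
  have z1 : 1 ≤ Z := by omega
  have pw : ∀ n : ℕ, n ≤ 1000 → Z ^ n ≤ Z ^ 1000 := fun n hn => Nat.pow_le_pow_right z1 hn
  have zz : Z ≤ Z ^ 1000 := Nat.le_self_pow (by norm_num) Z
  have h10 := pw 10 (by norm_num)
  have h40 := pw 40 (by norm_num)
  have h80 : (80 * Z) ^ 5 ≤ Z ^ 40 := by
    have h7 : 80 ≤ Z ^ 7 := le_trans (by norm_num : 80 ≤ 2 ^ 7) (Nat.pow_le_pow_left h2 7)
    calc (80 * Z) ^ 5 ≤ (Z ^ 7 * Z) ^ 5 := Nat.pow_le_pow_left (Nat.mul_le_mul_right Z h7) 5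
      _ = Z ^ 40 := by ring
  have zp : 0 < Z ^ 1000 := Nat.pow_pos z1
  have l4 : 1000 * Real.log Z ≤ Real.log y := by
    have := Real.log_le_log (Nat.cast_pos.2 zp) (Nat.cast_le.2 hy)
    rwa [Nat.cast_pow, Real.log_pow, Nat.cast_ofNat] at this
  have zy : Z ≤ y := zz.trans hy
  have zx : Z ≤ x := zz.trans hx
  have xy : x ≤ y ^ N := hN'.trans (Nat.pow_le_pow_left zy N)
  have hm : max X1 ⌈Real.exp (N + 2)⌉₊ ≤ y := (Nat.pow_le_pow_iff_left hN).1 (h0.trans xy)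
  have hl : (N : ℝ) + 2 ≤ Real.log y := by
    have h1 : Real.exp (N + 2) ≤ y :=
      (Nat.le_ceil _).trans (Nat.cast_le.2 ((le_max_right _ _).trans hm))
    have := Real.log_le_log (Real.exp_pos _) h1
    rwa [Real.log_exp] at this
  have x1 : (1 : ℝ) < x := by exact_mod_cast (by omega : 1 < x)
  have l5 : Real.log x ≤ N * Real.log y := by
    have := Real.log_le_log (zero_lt_one.trans x1) (Nat.cast_le.2 xy)
    rwa [Nat.cast_pow, Real.log_pow] at this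
  have z2 : (2 : ℝ) ≤ Z := by exact_mod_cast h2
  have l2 : Real.log 2 ≤ Real.log Z := Real.log_le_log (by norm_num) z2
  have l3 := Real.log_two_gt_d9
  have n0 : (0 : ℝ) ≤ N := Nat.cast_nonneg N
  refine ⟨(le_max_left _ _).trans hm, Real.log_pos x1, l5.trans ?_, by linarith, by linarith,
    h10.trans hy, (h80.trans h40).trans hy⟩
  rw [sq]
  exact mul_le_mul_of_nonneg_right (by linarith) (by linarith)

theorem xP_site {i : Fin 10} {σ : Fin 12} (h : i = 4 ∧ σ = 4 ∨ i = 5 ∧ σ = 5) (v : V10) (x : ℤ) :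
    site (Function.update v i x) σ = x := by
  rcases h with ⟨rfl, rfl⟩ | ⟨rfl, rfl⟩
  · exact Function.update_self (4 : Fin 10) x v
  · exact Function.update_self (5 : Fin 10) x v

/-- The weight in the frozen coordinate. -/
def xP_Phi (X : Fin 10 → ℕ) (F : S12 → V10 → ℝ) (i : Fin 10) (s : S12) (x : ℤ) : ℝ :=
  ∑ v ∈ Box X, F s v * GG s (Function.update v i x)

theorem xP_eq (X : Fin 10 → ℕ) (Z : ℕ) (F : S12 → V10 → ℝ) {i : Fin 10} {σ : Fin 12}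
    (h : i = 4 ∧ σ = 4 ∨ i = 5 ∧ σ = 5) (hI : Ind i F) (g : ℤ → ℝ) :
    X i * SS X Z (fun s v => F s v * g (qq s v σ)) =
      ∑ s ∈ SSet Z, ∑ x ∈ Ioc (X i : ℤ) (2 * X i), xP_Phi X F i s x * g (x / (s σ : ℤ)) := by
  rw [SS, mul_sum]
  refine sum_congr rfl fun s _ => ?_
  rw [CSJ.box_avg, sum_comm]
  refine sum_congr rfl fun x _ => ?_
  rw [xP_Phi, sum_mul]
  refine sum_congr rfl fun v _ => ?_
  rw [hI s v x, qq, xP_site h]
  ring

theorem xP_bd {X : Fin 10 → ℕ} {Z C : ℕ} {F : S12 → V10 → ℝ} (hB : Bnd X Z C F) (i : Fin 10)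
    {s : S12} (hs : s ∈ SSet Z) (x : ℤ) : |xP_Phi X F i s x| ≤ Real.log (X 0) ^ C *
      (((Box X).filter fun v => Cond s (Function.update v i x)).card : ℝ) := by
  rw [xP_Phi, card_filter, Nat.cast_sum, mul_sum]
  refine (abs_sum_le_sum_abs _ _).trans (sum_le_sum fun v hv => ?_)
  obtain ⟨h0, h1⟩ := hB s hs v hv
  rcases GG_01 s (Function.update v i x) with h | ⟨h, hc⟩
  · rw [h, mul_zero, abs_zero]
    exact mul_nonneg (h0.trans h1) (Nat.cast_nonneg _)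
  · rw [h, if_pos hc, mul_one, Nat.cast_one, mul_one, abs_of_nonneg h0]
    exact h1

theorem xP_per (X : Fin 10 → ℕ) (F : S12 → V10 → ℝ) (i : Fin 10) {s : S12} (hs : SOK s) (x : ℤ) :
    xP_Phi X F i s (x + KK s) = xP_Phi X F i s x := by
  refine sum_congr rfl fun v _ => congrArg _ (GG_per10 hs _ _ fun j => ?_)
  by_cases h : j = i
  · subst h
    rw [Function.update_self, Function.update_self, add_sub_cancel_left]
  · rw [Function.update_of_ne h, Function.update_of_ne h, sub_self]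
    exact dvd_zero _

theorem xP_dvd (X : Fin 10 → ℕ) (F : S12 → V10 → ℝ) {i : Fin 10} {σ : Fin 12}
    (h : i = 4 ∧ σ = 4 ∨ i = 5 ∧ σ = 5) {s : S12} (hs : SOK s) {x : ℤ}
    (hx : xP_Phi X F i s x ≠ 0) : (s σ : ℤ) ∣ x := by
  obtain ⟨v, -, hv⟩ := exists_ne_zero_of_sum_ne_zero hx
  rcases GG_01 s (Function.update v i x) with h0 | ⟨-, hc⟩
  · exact absurd (by rw [h0, mul_zero]) hv
  · have := hc.dvd hs σ
    rwa [xP_site h] at this

theorem FP_pf (hFV : FV) (hFCnt : FCnt) (hFWt : FWt) (hE2c : E2c) : FP := by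
  intro A C
  obtain ⟨d0, κ, hκ, hW⟩ := hFWt
  obtain ⟨B0, hB0⟩ := hFV (2 * A) (2 * C + 13) d0 κ hκ
  refine ⟨B0, fun B hB => ?_⟩
  obtain ⟨X1, hX1⟩ := hB0 B hB
  obtain ⟨X0, hX0⟩ := xP_sz (10 ^ 14) (pow_ne_zero _ (by norm_num)) X1
  refine ⟨X0, fun X Z F i σ hR h0 hBn hi hI => ?_⟩
  obtain ⟨k1, kL, kM, kZ, k2, k10, k80⟩ :=
    hX0 (X 0) (X i) Z hR.z2 (hR.sizes.1 i) (hR.sizes.1 0) hR.top h0
  have z1 : 1 ≤ Z := le_trans one_le_two hR.z2
  have xp : ∀ j, (0 : ℝ) < X j := fun j =>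
    Nat.cast_pos.2 ((Nat.pow_pos z1).trans_le (hR.sizes.1 j))
  have vp : 0 < Vol X := prod_pos fun j _ => xp j
  have lz : 0 ≤ 1 + Real.log Z := add_nonneg zero_le_one (Real.log_natCast_nonneg Z)
  have hLC : 0 < Real.log (X 0) ^ C := pow_pos kL C
  have key : 2 * Real.log (X 0) ^ C * Vol X * (1 + Real.log Z) ^ 12 ≤
      Vol X * Real.log (X i) ^ (2 * C + 13) := by
    have h1 : Real.log (X 0) ^ C ≤ (Real.log (X i) ^ 2) ^ C := pow_le_pow_left₀ kL.le kM C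
    have h2 : (1 + Real.log Z) ^ 12 ≤ Real.log (X i) ^ 12 := pow_le_pow_left₀ lz kZ 12
    have h3 : 0 ≤ Real.log (X i) := by linarith
    calc 2 * Real.log (X 0) ^ C * Vol X * (1 + Real.log Z) ^ 12
        ≤ Real.log (X i) * (Real.log (X i) ^ 2) ^ C * Vol X * Real.log (X i) ^ 12 := by gcongr
      _ = Vol X * Real.log (X i) ^ (2 * C + 13) := by ring
  have hq : ∀ T : Finset S12, T ⊆ SSet Z →
      ∑ s ∈ T, Real.log (X 0) ^ C * (2 * Vol X * s σ / SP s) / (s σ : ℝ) =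
        2 * Real.log (X 0) ^ C * Vol X * ∑ s ∈ T, (1 : ℝ) / SP s := fun T hT => by
    rw [mul_sum]
    refine sum_congr rfl fun s hs => ?_
    have : (s σ : ℝ) ≠ 0 := Nat.cast_ne_zero.2 (by
      have := (mem_SSet.1 (hT hs)).1.pos σ
      omega)
    field_simp
  have c0 : 0 ≤ 2 * Real.log (X 0) ^ C * Vol X := by positivity
  have main := hX1 (X i) k1 S12 (SSet Z) (fun s => s σ) KK
    (fun s => Real.log (X 0) ^ C * (2 * Vol X * s σ / SP s)) (xP_Phi X F i) (Vol X) vp.le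
    (fun s hs => ?_) ?_ fun d hd => ?_
  · have h1 := (abs_sum_le_sum_abs _ _).trans main
    rw [← xP_eq X Z F hi hI, abs_mul, abs_of_pos (xp i), mul_div_assoc] at h1
    refine (le_of_mul_le_mul_left h1 (xp i)).trans ?_
    refine div_le_div_of_nonneg_left vp.le (pow_pos kL A) ?_
    rw [pow_mul]
    exact pow_le_pow_left₀ kL.le kM A
  · obtain ⟨h1, h2⟩ := mem_SSet.1 hs
    have p1 := h1.pos σ
    have p2 := le_SP h1 σ
    have p3 : (0 : ℝ) < s σ := Nat.cast_pos.2 p1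
    have p4 : (0 : ℝ) < SP s := Nat.cast_pos.2 (p1.trans p2)
    refine ⟨by positivity, p1, ?_, (Nat.pow_le_pow_left (p2.trans h2) 10).trans k10,
      (Nat.pow_le_pow_left (Nat.mul_le_mul_left 80 h2) 5).trans k80, fun x => ?_,
      xP_per X F i h1, fun x hx => xP_dvd X F hi h1 hx⟩
    · exact Nat.mul_pos (by norm_num) (p1.trans p2)
    · exact (xP_bd hBn i hs x).trans
        (mul_le_mul_of_nonneg_left (hFCnt X Z hR s hs i σ x hi) hLC.le)
  · rw [hq _ Subset.rfl]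
    exact (mul_le_mul_of_nonneg_left (hE2c Z z1).1 c0).trans key
  · rw [hq _ (filter_subset _ _)]
    refine (mul_le_mul_of_nonneg_left (hW Z z1 d hd) c0).trans ?_
    rw [← mul_assoc]
    exact mul_le_mul_of_nonneg_right key (Real.rpow_nonneg (Nat.cast_nonneg d) _)

end Pool.Agent.MP_e23604_nt.U.CF

end
end

section

/-!
Coprime coordinates inside the good classes.
-/

open Finset
open scoped Classical

noncomputable section

namespace Pool.Agent.MP_e23604_nt.U.CF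

open P (lam PW cW Rough shp gg WW)

def xCop_P : Finset (Fin 10 × Fin 10) := univ.filter fun p => 6 ≤ p.1.val ∧ p.1 < p.2

def xCop_T (K Y : ℕ) : Finset ℕ := (Icc 7 Y).filter fun l => l.Prime ∧ Nat.Coprime K l

def xCop_i (l : ℕ) (p : Fin 10 × Fin 10) (v : V10) : ℝ :=
  if (l : ℤ) ∣ v p.1 ∧ (l : ℤ) ∣ v p.2 then 1 else 0

def xCop_b (Y : ℕ) (p : Fin 10 × Fin 10) (v : V10) : ℝ :=
  if ∃ l : ℕ, l.Prime ∧ Y < l ∧ (l : ℤ) ∣ v p.1 ∧ (l : ℤ) ∣ v p.2 then 1 else 0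

theorem xCop_card : xCop_P.card = 6 := by decide

theorem xCop_i0 (l : ℕ) (p : Fin 10 × Fin 10) (v : V10) : 0 ≤ xCop_i l p v := by
  unfold xCop_i
  split_ifs <;> norm_num

theorem xCop_b0 (Y : ℕ) (p : Fin 10 × Fin 10) (v : V10) : 0 ≤ xCop_b Y p v := by
  unfold xCop_b
  split_ifs <;> norm_num

theorem xCop_G0 (s : S12) (v : V10) : 0 ≤ GG s v := by
  rcases GG_01 s v with h | h
  · exact h.ge
  · rw [h.1]
    exact zero_le_one

theorem xCop_prime {s : S12} {v : V10} (hc : Cond s v) (hs : SOK s) {i j : Fin 10}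
    (hi : 6 ≤ i.val) (hij : i < j) {l : ℕ} (hl : l.Prime) (hd : (l : ℤ) ∣ v i) :
    7 ≤ l ∧ Nat.Coprime (KK s) l := by
  have h1 : v i % 240 = 1 := by
    have h2 : ∀ i j : Fin 10, 6 ≤ i.val → i < j → v0 i = 1 := by decide
    rw [hc.1 i, h2 i j hi hij]
  have h2 : ¬ l ∣ 240 := fun h => by
    have h3 : (l : ℤ) ∣ 240 := by exact_mod_cast h
    have h4 : (l : ℤ) ∣ v i % 240 := by
      rw [Int.emod_def]
      exact dvd_sub hd (h3.mul_right _)
    rw [h1] at h4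
    exact hl.one_lt.ne' (Nat.dvd_one.1 (by exact_mod_cast h4))
  refine ⟨?_, Nat.Coprime.symm ((Nat.Prime.coprime_iff_not_dvd hl).2 fun h => ?_)⟩
  · by_contra h
    have h3 := hl.two_le
    push Not at h
    interval_cases l <;> omega
  · rcases (Nat.Prime.dvd_mul hl).1 h with h3 | h3
    · exact h2 (h3.trans (by norm_num))
    · exact (hc.2 l (Nat.mem_primeFactors.2 ⟨hl, h3, hs.1.ne_zero⟩)).2.2 i hi hd

theorem xCop_term {s : S12} (hs : SOK s) (Y : ℕ) (v : V10) :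
    GG s v ≤ (GG s v * if CopU v then 1 else 0) + ∑ p ∈ xCop_P,
      (∑ l ∈ xCop_T (KK s) Y, GG s v * xCop_i l p v + xCop_b Y p v) := by
  have h0 : ∀ l p, 0 ≤ GG s v * xCop_i l p v := fun l p =>
    mul_nonneg (xCop_G0 s v) (xCop_i0 l p v)
  have h1 : ∀ p ∈ xCop_P, 0 ≤ ∑ l ∈ xCop_T (KK s) Y, GG s v * xCop_i l p v + xCop_b Y p v :=
    fun p _ => add_nonneg (sum_nonneg fun l _ => h0 l p) (xCop_b0 Y p v)
  by_cases hc : CopU v
  · rw [if_pos hc, mul_one]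
    exact le_add_of_nonneg_right (sum_nonneg h1)
  rw [if_neg hc, mul_zero, zero_add]
  rcases GG_01 s v with h | ⟨h, hC⟩
  · exact h.le.trans (sum_nonneg h1)
  unfold CopU at hc
  push Not at hc
  obtain ⟨i, j, hi, hij, hn⟩ := hc
  rw [Int.isCoprime_iff_nat_coprime] at hn
  obtain ⟨l, hl, a1, a2⟩ := Nat.Prime.not_coprime_iff_dvd.1 hn
  rw [← Int.natCast_dvd] at a1 a2
  refine le_trans ?_ (single_le_sum h1 (a := (i, j)) (mem_filter.2 ⟨mem_univ _, hi, hij⟩))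
  by_cases hY : Y < l
  · have e : xCop_b Y (i, j) v = 1 := if_pos ⟨l, hl, hY, a1, a2⟩
    rw [e]
    exact h.le.trans (le_add_of_nonneg_left (sum_nonneg fun l _ => h0 l _))
  · obtain ⟨b1, b2⟩ := xCop_prime hC hs hi hij hl a1
    have e : xCop_i l (i, j) v = 1 := if_pos ⟨a1, a2⟩
    have h2 := single_le_sum (fun l _ => h0 l (i, j)) (s := xCop_T (KK s) Y) (a := l)
      (mem_filter.2 ⟨mem_Icc.2 ⟨b1, not_lt.1 hY⟩, hl, b2⟩)
    rw [e, mul_one] at h2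
    exact h2.trans (le_add_of_nonneg_right (xCop_b0 _ _ _))

theorem xCop_sum (K Y : ℕ) : ∑ l ∈ xCop_T K Y, ((l : ℝ) ^ 2)⁻¹ ≤ 1 / 49 + 1 / 10 := by
  have h1 : xCop_T K Y ⊆ insert 7 (Ioc 10 (Y + 10)) := fun l hl => by
    obtain ⟨h2, h3, -⟩ := mem_filter.1 hl
    rw [mem_Icc] at h2
    rw [mem_insert, mem_Ioc]
    have h8 : l ≠ 8 := fun h => absurd (h ▸ h3) (by norm_num)
    have h9 : l ≠ 9 := fun h => absurd (h ▸ h3) (by norm_num)
    have h10 : l ≠ 10 := fun h => absurd (h ▸ h3) (by norm_num)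
    omega
  refine (sum_le_sum_of_subset_of_nonneg h1 fun _ _ _ => by positivity).trans ?_
  rw [sum_insert (by simp)]
  have h2 := sum_Ioc_inv_sq_le_sub (α := ℝ) (k := 10) (n := Y + 10) (by norm_num) (by omega)
  have h3 : (0 : ℝ) ≤ ((Y + 10 : ℕ) : ℝ)⁻¹ := by positivity
  generalize ((Y + 10 : ℕ) : ℝ)⁻¹ = y at h2 h3
  norm_num at h2 ⊢
  linarith

theorem xCop_per (l : ℕ) (p : Fin 10 × Fin 10) : Per10 l (xCop_i l p) := fun _ _ h =>
  if_congr (and_congr (dvd_iff_dvd_of_dvd_sub (h _)) (dvd_iff_dvd_of_dvd_sub (h _))) rfl rfl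

theorem xCop_avg {l : ℕ} (hl : 1 ≤ l) {p : Fin 10 × Fin 10} (hp : p.1 ≠ p.2) :
    avg10 l (xCop_i l p) ≤ ((l : ℝ) ^ 2)⁻¹ := by
  have h0 : (0 : ℝ) < l := by exact_mod_cast hl
  have h1 : ((Fintype.piFinset fun _ : Fin 10 => Ico (0 : ℤ) l).filter fun v =>
      (l : ℤ) ∣ v p.1 ∧ (l : ℤ) ∣ v p.2) ⊆
      Fintype.piFinset fun k => if k = p.1 ∨ k = p.2 then {0} else Ico (0 : ℤ) l := fun v hv => by
    obtain ⟨h2, h3, h4⟩ := mem_filter.1 hv
    rw [Fintype.mem_piFinset] at h2 ⊢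
    intro k
    split_ifs with h5
    · have h6 := mem_Ico.1 (h2 k)
      refine mem_singleton.2 (Int.eq_zero_of_dvd_of_nonneg_of_lt h6.1 h6.2 ?_)
      rcases h5 with rfl | rfl <;> assumption
    · exact h2 k
  have h2 := card_le_card h1
  have h3 : ∀ i j : Fin 10, i ≠ j → (univ.filter fun k => ¬ (k = i ∨ k = j)).card = 8 := by decide
  rw [Fintype.card_piFinset] at h2
  simp only [apply_ite Finset.card, card_singleton, Int.card_Ico, sub_zero, Int.toNat_natCast,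
    prod_ite, prod_const, one_pow, one_mul, h3 _ _ hp] at h2
  unfold avg10 xCop_i
  rw [sum_boole, div_le_iff₀ (by positivity)]
  refine le_trans (Nat.cast_le.2 h2) (le_of_eq ?_)
  push_cast
  field_simp

theorem xCop_size {Z n l x : ℕ} (hZ : 2 ≤ Z) (hn : n ≤ Z) (hl : l ≤ Z ^ 20) (hx : Z ^ 38 ≤ x) :
    1000 * (80 * n * l) ≤ x := by
  have h1 : 2 ^ 17 ≤ Z ^ 17 := Nat.pow_le_pow_left hZ 17
  calc 1000 * (80 * n * l) = 80000 * (n * l) := by ring
    _ ≤ Z ^ 17 * (Z * Z ^ 20) := Nat.mul_le_mul (le_trans (by norm_num) h1) (Nat.mul_le_mul hn hl)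
    _ = Z ^ 38 := by ring
    _ ≤ x := hx

theorem xCop_tail {Z : ℕ} {V : ℝ} (hZ : 2 ≤ Z) (hV : 0 ≤ V) :
    6 * (4 * Z * V / (Z ^ 20 : ℕ)) ≤ V / (Z : ℝ) ^ 12 := by
  have hZr : (2 : ℝ) ≤ Z := by exact_mod_cast hZ
  have b1 : (2 : ℝ) ^ 7 ≤ (Z : ℝ) ^ 7 := pow_le_pow_left₀ zero_le_two hZr 7
  have b2 : (0 : ℝ) < Z := lt_of_lt_of_le two_pos hZr
  push_cast
  rw [← mul_div_assoc, div_le_div_iff₀ (by positivity) (by positivity)]
  calc 6 * (4 * Z * V) * (Z : ℝ) ^ 12 = 24 * (V * (Z : ℝ) ^ 13) := by ring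
    _ ≤ (Z : ℝ) ^ 7 * (V * (Z : ℝ) ^ 13) :=
      mul_le_mul_of_nonneg_right (le_trans (by norm_num) b1) (by positivity)
    _ = V * (Z : ℝ) ^ 20 := by ring

theorem xCop_log {x y n : ℕ} (b1 : 2 ≤ x) (hn : 2 ≤ n) (h : x ^ n ≤ y) :
    Real.log (2 * x) ≤ Real.log y := by
  have b2 : 2 * x ≤ y :=
    calc 2 * x ≤ x ^ 2 := by rw [sq]; exact Nat.mul_le_mul_right _ b1
      _ ≤ x ^ n := Nat.pow_le_pow_right (le_trans one_le_two b1) hn
      _ ≤ y := h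
  have b3 : (0 : ℝ) < x := by exact_mod_cast lt_of_lt_of_le two_pos b1
  exact Real.log_le_log (by positivity) (by exact_mod_cast b2)

theorem xCop_pow {X : Fin 10 → ℕ} {Z : ℕ} (hR : Reg X Z) (n : ℕ) (hn : n ≤ 1000) (i : Fin 10) :
    Z ^ n ≤ X i := by
  have h := hR.sizes.1 i
  generalize 1000 = N at hn h
  exact (Nat.pow_le_pow_right (le_trans one_le_two hR.z2) hn).trans h

theorem FCop_pf (hFBox : FBox) (hFBig : FBig) : FCop := by
  obtain ⟨X1, hX⟩ := Reg.log_le 1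
  refine ⟨X1, fun X Z hR h0 s hs => ?_⟩
  obtain ⟨hs1, hs2⟩ := mem_SSet.1 hs
  have hL := (hX X Z hR h0).1
  rw [pow_one] at hL
  have hZ := hR.z2
  have hZ1 : 1 ≤ Z := le_trans one_le_two hZ
  have hx := xCop_pow hR
  have hK : 1 ≤ KK s := Nat.mul_pos (by norm_num) (Nat.pos_of_ne_zero hs1.1.ne_zero)
  have hV : 0 ≤ Vol X := prod_nonneg fun i _ => Nat.cast_nonneg _
  have ha : 0 ≤ avg10 (KK s) (GG s) :=
    div_nonneg (sum_nonneg fun v _ => xCop_G0 s v) (by positivity)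
  have hA := mul_nonneg hV ha
  have h1 := (hFBox (KK s) X (GG s) hK (GG_per10 hs1) (xCop_G0 s) fun i => by
    have := xCop_size hZ hs2 (Nat.one_le_pow 20 Z hZ1) (hx 38 (by norm_num) i)
    rwa [mul_one] at this).1
  have h2 : ∀ p ∈ xCop_P, ∑ v ∈ Box X, (∑ l ∈ xCop_T (KK s) (Z ^ 20), GG s v * xCop_i l p v +
      xCop_b (Z ^ 20) p v) ≤ 102 / 100 * (Vol X * avg10 (KK s) (GG s)) * (1 / 49 + 1 / 10) +
        4 * Z * Vol X / (Z ^ 20 : ℕ) := fun p hp => by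
    obtain ⟨-, hp1, hp2⟩ := mem_filter.1 hp
    rw [sum_add_distrib, sum_comm]
    refine add_le_add ?_ ?_
    · refine le_trans ?_ (mul_le_mul_of_nonneg_left (xCop_sum (KK s) (Z ^ 20))
        (mul_nonneg (by norm_num) hA))
      rw [mul_sum]
      refine sum_le_sum fun l hl => ?_
      obtain ⟨b1, b2, b3⟩ := mem_filter.1 hl
      refine (hFBox (KK s * l) X _ (Nat.mul_pos hK b2.pos) (fun v v' hv => ?_)
        (fun v => mul_nonneg (xCop_G0 s v) (xCop_i0 l p v))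
        fun i => xCop_size hZ hs2 (mem_Icc.1 b1).2 (hx 38 (by norm_num) i)).2.trans ?_
      · push_cast at hv
        rw [GG_per10 hs1 v v' fun i => (dvd_mul_right _ _).trans (hv i),
          xCop_per l p v v' fun i => (dvd_mul_left _ _).trans (hv i)]
      · rw [DAvgJ.two hK b2.pos b3 (GG_per10 hs1) (xCop_per l p), ← mul_assoc (Vol X),
          ← mul_assoc]
        exact mul_le_mul_of_nonneg_left (xCop_avg b2.pos hp2.ne) (mul_nonneg (by norm_num) hA)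
    · unfold xCop_b
      rw [sum_boole]
      refine hFBig X (Z ^ 20) p.1 p.2 Z hp2.ne (Nat.one_le_pow 20 Z hZ1) (hx 20 (by norm_num) _)
        (le_trans ?_ hL)
      exact xCop_log (hZ.trans ((pow_one Z).ge.trans (hx 1 (by norm_num) _))) (by norm_num)
        (hR.sizes.2.1 _ (le_trans (by norm_num) hp1))
  have h3 := sum_le_sum fun v (_ : v ∈ Box X) => xCop_term hs1 (Z ^ 20) v
  rw [sum_add_distrib, sum_comm] at h3
  have h4 := sum_le_card_nsmul _ _ _ h2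
  rw [xCop_card, nsmul_eq_mul] at h4
  have h5 := xCop_tail hZ hV
  push_cast at h4 h5
  linarith

end Pool.Agent.MP_e23604_nt.U.CF

end
end
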