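import Pool.Agent.Mg.Fe23604m.G5af790

set_option linter.all false

section

/-!
Configurations of small primes for the universal family.
-/

open Finset
open scoped Classical

noncomputable section

namespace Pool.Agent.MP_e23604_nt.U.Bm

open P (sy ep xx chi EP PP Mod FFp NS star)

theorem xCfg_hp {Q : Finset ℕ} (hP : HP Q) : ∀ l ∈ Q, l.Prime ∧ 5 ≤ l :=
  fun l hl => ⟨(hP l hl).1, by have := (hP l hl).2; omega⟩

theorem xCfg_SP {Q : Finset ℕ} (t : CfU Q) :
    SP (sOf Q t) = 3 * ∏ l : ↥Q, if t l = none then 1 else (l : ℕ) := by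
  unfold SP sOf
  rw [prod_mul_distrib, prod_comm]
  congr 1
  refine prod_congr rfl fun l _ => ?_
  rcases t l with _ | j
  · simp
  · simp

theorem xCfg_SP' {Q : Finset ℕ} (t : CfU Q) :
    SP (sOf Q t) = 3 * ∏ l : ↥Q, if t l ≠ none then (l : ℕ) else 1 := by
  rw [xCfg_SP]
  simp only [ne_eq, ite_not]

theorem xCfg_sqfree {Q : Finset ℕ} (hP : ∀ l ∈ Q, l.Prime ∧ 5 ≤ l) (t : CfU Q) :
    Squarefree (SP (sOf Q t)) := by
  rw [xCfg_SP', Nat.squarefree_mul_iff]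
  refine ⟨(Nat.Prime.coprime_iff_not_dvd Nat.prime_three).2 fun h => ?_,
    Nat.prime_three.squarefree, ?_⟩
  · obtain ⟨h3, -⟩ := (P.xBCfg_dvd hP _ Nat.prime_three).1 h
    exact absurd (hP 3 h3).2 (by norm_num)
  · refine squarefree_prod_of_pairwise_isCoprime (fun a _ b _ hab => ?_) fun l _ => ?_
    · refine Nat.coprime_iff_isRelPrime.1 ?_
      dsimp only
      split_ifs
      · exact (Nat.coprime_primes (hP _ a.2).1 (hP _ b.2).1).2 fun h => hab (Subtype.ext h)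
      all_goals simp
    · split_ifs
      · exact (hP _ l.2).1.squarefree
      · exact squarefree_one

theorem xCfg_pf {Q : Finset ℕ} (hP : ∀ l ∈ Q, l.Prime ∧ 5 ≤ l) (t : CfU Q) (l : ℕ) :
    l ∈ PS (sOf Q t) ↔ l = 3 ∨ ∃ h : l ∈ Q, t ⟨l, h⟩ ≠ none := by
  rw [PS, Nat.mem_primeFactors_of_ne_zero (xCfg_sqfree hP t).ne_zero, xCfg_SP']
  constructor
  · rintro ⟨hl, h⟩
    rcases (Nat.Prime.dvd_mul hl).1 h with h | h
    · exact Or.inl ((Nat.prime_dvd_prime_iff_eq hl Nat.prime_three).1 h)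
    · exact Or.inr ((P.xBCfg_dvd hP (fun l => t l ≠ none) hl).1 h)
  · rintro (rfl | ⟨h, ht⟩)
    · exact ⟨Nat.prime_three, dvd_mul_right _ _⟩
    · exact ⟨(hP l h).1, Dvd.dvd.mul_left
        ((P.xBCfg_dvd hP (fun l => t l ≠ none) (hP l h).1).2 ⟨h, ht⟩) _⟩

theorem xCfg_dvd {Q : Finset ℕ} (hP : ∀ l ∈ Q, l.Prime ∧ 5 ≤ l) (t : CfU Q) (l : ↥Q)
    (i : Fin 12) : (l : ℕ) ∣ sOf Q t i ↔ t l = some i := by
  obtain ⟨h1, h2⟩ := hP _ l.2
  unfold sOf
  rw [Nat.Prime.dvd_mul h1, P.xBCfg_dvd hP (fun l => t l = some i) h1]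
  constructor
  · rintro (h | ⟨_, h⟩)
    · have := Nat.le_of_dvd (by split_ifs <;> norm_num) h
      split_ifs at this <;> omega
    · exact h
  · exact fun h => Or.inr ⟨l.2, h⟩

theorem xCfg_inj {Q : Finset ℕ} (hP : ∀ l ∈ Q, l.Prime ∧ 5 ≤ l) :
    Function.Injective (sOf Q) := by
  intro t t' h
  funext l
  refine Option.ext fun i => ?_
  rw [← xCfg_dvd hP, ← xCfg_dvd hP, h]

theorem xCfg_st {Q : Finset ℕ} (hP : ∀ l ∈ Q, l.Prime ∧ 5 ≤ l) (t : CfU Q) (l : ↥Q)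
    (σ : Fin 12) (h : t l = some σ) : st (sOf Q t) l = σ := by
  have hex : ∃ τ, (l : ℕ) ∣ sOf Q t τ := ⟨σ, (xCfg_dvd hP t l σ).2 h⟩
  rw [st, dif_pos hex]
  have h1 := (xCfg_dvd hP t l _).1 hex.choose_spec
  rw [h] at h1
  exact (Option.some.inj h1).symm

theorem xCfg_wt_nonneg {Q : Finset ℕ} (s : ℝ) (t : CfU Q) : 0 ≤ wtU s Q t :=
  prod_nonneg fun l _ => by
    split_ifs
    · exact zero_le_one
    · exact P.xBCfg_xx s l

theorem xCfg_wt_le {Q : Finset ℕ} (hP : ∀ l ∈ Q, l.Prime ∧ 5 ≤ l) {s : ℝ} (hs : 0 < s)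
    (t : CfU Q) : wtU s Q t ≤ 3 / (SP (sOf Q t) : ℝ) := by
  rw [xCfg_SP, Nat.cast_mul, Nat.cast_ofNat, div_mul_cancel_left₀ (by norm_num), Nat.cast_prod,
    ← prod_inv_distrib]
  refine prod_le_prod (fun l _ => ?_) fun l _ => ?_
  · split_ifs
    · exact zero_le_one
    · exact P.xBCfg_xx s l
  · split_ifs
    · simp
    · rw [← Real.rpow_neg_one]
      refine Real.rpow_le_rpow_of_exponent_le (by exact_mod_cast (hP _ l.2).1.one_le) ?_
      have := one_div_pos.2 hs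
      linarith

theorem SCfg_pf : SCfg := by
  intro Q hQ
  have hP := xCfg_hp hQ
  refine ⟨xCfg_inj hP, fun t => ⟨⟨xCfg_sqfree hP t, ?_, fun l hl => ?_⟩, xCfg_SP t,
    fun l => ?_, xCfg_st hP t, fun s hs => ⟨xCfg_wt_nonneg s t, xCfg_wt_le hP hs t⟩⟩⟩
  · unfold sOf
    rw [if_pos rfl]
    exact dvd_mul_right _ _
  · rcases (xCfg_pf hP t l).1 hl with h | ⟨h, -⟩
    · exact Or.inl h
    · exact Or.inr (hQ l h).2
  · rw [mem_erase, xCfg_pf hP]
    constructor
    · rintro ⟨h3, h | h⟩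
      · exact absurd h h3
      · exact h
    · rintro ⟨h, ht⟩
      refine ⟨?_, Or.inr ⟨h, ht⟩⟩
      have := (hP l h).2
      omega

end Pool.Agent.MP_e23604_nt.U.Bm

end
end

section

/-!
The twisted Euler product over the types `0` and `τ`.
-/

open Finset
open scoped Classical

noncomputable section

namespace Pool.Agent.MP_e23604_nt.U.Bm

open P (sy ep xx chi EP PP Mod FFp NS star)
open P (NS_of_prime chi_one_left chi_mul_left chi_star xBZeta_nn xBZeta_half chi_cases abs_chi_le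
  prod_inv_le EP_pos)

theorem xEul_pt {x χ : ℝ} (h0 : 0 ≤ x) (h1 : x ≤ 1 / 2) (hχ : χ = 0 ∨ χ = 1 ∨ χ = -1) :
    1 + 10 * x + 2 * x * χ ≤ ((1 - x)⁻¹) ^ 10 * ((1 - χ * x)⁻¹) ^ 2 := by
  have hp : 0 < 1 - x := by linarith
  have hr : 1 + x ≤ (1 - x)⁻¹ := by
    rw [← one_div, le_div_iff₀ hp]
    nlinarith
  have hB : ∀ k : ℕ, 1 + (k : ℝ) * x ≤ ((1 - x)⁻¹) ^ k := fun k =>
    (one_add_mul_le_pow (by linarith) k).trans (pow_le_pow_left₀ (by linarith) hr k)
  rcases hχ with rfl | rfl | rfl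
  · have := hB 10
    simp only [zero_mul, sub_zero, inv_one, one_pow, mul_one, mul_zero, add_zero]
    exact_mod_cast this
  · have := hB 12
    rw [one_mul, ← pow_add]
    push_cast at this
    linarith
  · have h8 := hB 8
    push_cast at h8
    have hq : 0 < 1 - -1 * x := by linarith
    have h2 : 1 ≤ (1 - x)⁻¹ * (1 - -1 * x)⁻¹ := by
      rw [← mul_inv, ← one_div, le_div_iff₀ (mul_pos hp hq)]
      nlinarith
    have h3 : 1 ≤ ((1 - x)⁻¹ * (1 - -1 * x)⁻¹) ^ 2 := one_le_pow₀ h2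
    have h4 : ((1 - x)⁻¹) ^ 10 * ((1 - -1 * x)⁻¹) ^ 2 =
        ((1 - x)⁻¹) ^ 8 * ((1 - x)⁻¹ * (1 - -1 * x)⁻¹) ^ 2 := by ring
    rw [h4]
    have h5 : 0 ≤ ((1 - x)⁻¹) ^ 8 := by positivity
    nlinarith

theorem xEul_sum (ψ : Fin 12 → ℝ) (χ : ℝ) (X : ℕ) (hX : X = 0 ∨ X = 2)
    (hb : ∀ σ, |ψ σ| ≤ 1) (he : ∀ σ, cls σ = X → ψ σ = χ) :
    -12 ≤ ∑ σ, ψ σ ∧ ∑ σ, ψ σ ≤ 8 + 4 * χ := by
  constructor
  · have : ∑ _σ : Fin 12, (-1 : ℝ) ≤ ∑ σ, ψ σ := sum_le_sum fun σ _ => (abs_le.1 (hb σ)).1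
    simpa using this
  · have h1 : ∑ σ, ψ σ ≤ ∑ σ : Fin 12, if cls σ = X then χ else 1 := by
      refine sum_le_sum fun σ _ => ?_
      split_ifs with h
      · exact (he σ h).le
      · exact (abs_le.1 (hb σ)).2
    refine h1.trans (le_of_eq ?_)
    have c1 : (univ.filter fun σ : Fin 12 => cls σ = X).card = 4 := by
      rcases hX with rfl | rfl <;> decide
    have c2 : (univ.filter fun σ : Fin 12 => ¬ cls σ = X).card = 8 := by
      rcases hX with rfl | rfl <;> decide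
    rw [sum_ite, sum_const, sum_const, c1, c2]
    simp only [nsmul_eq_mul]
    push_cast
    ring

theorem xEul_NS {m : ℕ} (hm : Squarefree m) (ho : m % 2 = 1) (h1 : m ≠ 1) {c : ℤ}
    (hc : c.natAbs = m) : NS c := by
  obtain ⟨l, hl, hd⟩ := Nat.exists_prime_and_dvd h1
  refine NS_of_prime hl ?_ (Int.natCast_dvd.2 (hc ▸ hd)) ?_
  · rintro rfl
    omega
  · intro h
    have h2 : l ^ 2 ∣ m := by
      rw [← hc, ← Int.natCast_dvd]
      exact_mod_cast h
    rw [pow_two] at h2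
    exact hl.one_lt.ne' (Nat.isUnit_iff.1 (hm l h2))

theorem xEul_left {ι : Type} (S : Finset ι) (f : ι → ℕ) {n : ℕ} (hn : n % 2 = 1) :
    chi ((∏ i ∈ S, f i : ℕ) : ℤ) n = ∏ i ∈ S, chi (f i) n := by
  induction S using Finset.cons_induction with
  | empty => simpa using chi_one_left hn
  | cons a S h ih => rw [prod_cons, prod_cons, Nat.cast_mul, chi_mul_left, ih]

theorem xEul_right {ι : Type} (S : Finset ι) (f : ι → ℕ) (hf : ∀ i, f i ≠ 0) (a : ℤ) :
    (jacobiSym a (∏ i ∈ S, f i) : ℝ) = ∏ i ∈ S, (jacobiSym a (f i) : ℝ) := by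
  induction S using Finset.cons_induction with
  | empty => simp
  | cons b S h ih =>
    rw [prod_cons, prod_cons, jacobiSym.mul_right' a (hf b) (prod_ne_zero_iff.2 fun i _ => hf i),
      Int.cast_mul, ih]

theorem xEul_odd {P : Finset ℕ} (hP : HP P) (l : ↥P) : (l : ℕ) % 2 = 1 := by
  obtain ⟨h1, h2⟩ := hP l l.2
  rcases h1.eq_two_or_odd with h | h
  · omega
  · exact h

theorem xEul_prod {P : Finset ℕ} (hP : HP P) (S : Finset ↥P) :
    Squarefree (∏ l ∈ S, (l : ℕ)) ∧ (∏ l ∈ S, (l : ℕ)) % 2 = 1 ∧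
      Nat.Coprime 3 (∏ l ∈ S, (l : ℕ)) ∧ (S.Nonempty → ∏ l ∈ S, (l : ℕ) ≠ 1) := by
  refine ⟨?_, ?_, ?_, ?_⟩
  · refine Finset.squarefree_prod_of_pairwise_isCoprime (fun a _ b _ hab => ?_)
      fun l _ => (hP l l.2).1.squarefree
    exact Nat.coprime_iff_isRelPrime.1
      ((Nat.coprime_primes (hP a a.2).1 (hP b b.2).1).2 fun h => hab (Subtype.ext h))
  · induction S using Finset.cons_induction with
    | empty => simp
    | cons a S h ih => rw [prod_cons, Nat.mul_mod, ih, xEul_odd hP a]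
  · refine Nat.Coprime.prod_right fun l _ => (Nat.coprime_primes Nat.prime_three (hP l l.2).1).2 ?_
    have := (hP l l.2).2
    omega
  · rintro ⟨l, hl⟩ h
    have h1 : (l : ℕ) ∣ 1 := h ▸ dvd_prod_of_mem (fun l : ↥P => (l : ℕ)) hl
    exact (hP l l.2).1.one_lt.ne' (Nat.dvd_one.1 h1)

theorem xEul_size {P : Finset ℕ} (hP : HP P) (u : CfI P) {T : ℕ} (hT : ∀ i, DI P u i ≤ T)
    (S : Finset ↥P) (hS : ∀ l ∈ S, u l ≠ none) : ∏ l ∈ S, (l : ℕ) ≤ T ^ 48 := by
  have h1 : ∏ i, DI P u i ≤ T ^ 48 := by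
    have := prod_le_pow_card univ (DI P u) T fun i _ => hT i
    simpa using this
  refine le_trans ?_ h1
  have h2 : ∏ i, DI P u i = ∏ l : ↥P, if u l = none then 1 else (l : ℕ) := by
    unfold DI
    rw [prod_comm]
    refine prod_congr rfl fun l _ => ?_
    rcases u l with _ | j
    · simp
    · simp
  rw [h2]
  calc ∏ l ∈ S, (l : ℕ) = ∏ l ∈ S, if u l = none then 1 else (l : ℕ) :=
        prod_congr rfl fun l hl => (if_neg (hS l hl)).symm
    _ ≤ _ := by
        refine prod_le_prod_of_subset_of_one_le' (subset_univ S) fun l _ _ => ?_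
        split_ifs
        · exact le_rfl
        · exact (hP l l.2).1.one_le

theorem xEul_cls (σ : Fin 12) : cls σ ≤ 2 := by
  have := σ.2
  unfold cls
  omega

theorem xEul_cop {P : Finset ℕ} (hP : HP P) (u : CfI P) {l l' : ↥P} (h : u l = none)
    (h' : u l' ≠ none) : Nat.Coprime l l' :=
  (Nat.coprime_primes (hP l l.2).1 (hP l' l'.2).1).2 fun e => h' (Subtype.ext e ▸ h)

theorem xEul_key {P : Finset ℕ} (hP : HP P) (θ : ZMod 2) (u : CfI P) {T : ℕ}
    (hne : θ ≠ 0 ∨ ∃ l, u l ≠ none) (hT : ∀ i, DI P u i ≤ T) :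
    ∃ c : ℤ, NS c ∧ c ≠ 0 ∧ c.natAbs ≤ 3 * T ^ 48 ∧ ∃ X : ℕ, (X = 0 ∨ X = 2) ∧
      ∀ σ, cls σ = X → ∀ l : ↥P, u l = none →
        sgb (θ * mm 0 σ 3 l) *
          sgb (∑ l', if u l' = none then 0 else mm σ (so (u l')) l l') = chi c l := by
  have hchi : ∀ (c : ℤ) (l : ↥P), chi c l = (jacobiSym c l : ℝ) := fun c l => by
    unfold chi
    rw [if_pos (xEul_odd hP l)]
  by_cases hA : θ ≠ 0 ∨ ∃ l, u l ≠ none ∧ cls (so (u l)) < 2
  · obtain ⟨S, hS⟩ : ∃ S : Finset ↥P, S = univ.filter fun l => u l ≠ none ∧ cls (so (u l)) < 2 :=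
      ⟨_, rfl⟩
    obtain ⟨q1, q2, q3, q4⟩ := xEul_prod hP S
    have q5 := xEul_size hP u hT S fun l hl => (mem_filter.1 (hS ▸ hl)).2.1
    have hsum : ∀ σ, cls σ = 2 → ∀ l : ↥P, u l = none →
        sgb (∑ l', if u l' = none then 0 else mm σ (so (u l')) l l') =
          chi ((∏ l' ∈ S, (l' : ℕ) : ℕ) : ℤ) l := by
      intro σ hσ l hl
      rw [sgb_sum, xEul_left S _ (xEul_odd hP l), hS, prod_filter]
      refine prod_congr rfl fun l' _ => ?_
      by_cases h1 : u l' = none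
      · rw [if_pos h1, if_neg (fun h => h.1 h1), sgb_zero]
      · rw [if_neg h1]
        unfold mm
        rw [hσ]
        by_cases h2 : cls (so (u l')) < 2
        · rw [if_neg (by omega), if_pos h2, if_pos ⟨h1, h2⟩, hchi,
            sgb_sy (xEul_cop hP u hl h1).symm]
        · have := xEul_cls (so (u l'))
          rw [if_neg (by omega), if_neg h2, if_neg (by omega), if_neg (fun h => h2 h.2), sgb_zero]
    rcases two_cases θ with h0 | h0
    · have hn : S.Nonempty := by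
        rcases hA with h | ⟨l, h⟩
        · exact absurd h0 h
        · exact ⟨l, hS ▸ mem_filter.2 ⟨mem_univ _, h⟩⟩
      refine ⟨((∏ l' ∈ S, (l' : ℕ) : ℕ) : ℤ), xEul_NS q1 q2 (q4 hn) (Int.natAbs_natCast _),
        Int.natCast_ne_zero.2 q1.ne_zero, ?_, 2, Or.inr rfl, fun σ hσ l hl => ?_⟩
      · rw [Int.natAbs_natCast]
        omega
      · rw [h0, zero_mul, sgb_zero, one_mul, hsum σ hσ l hl]
    · have r1 : Squarefree (3 * ∏ l' ∈ S, (l' : ℕ)) :=
        (Nat.squarefree_mul q3).2 ⟨Nat.prime_three.squarefree, q1⟩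
      refine ⟨((3 * ∏ l' ∈ S, (l' : ℕ) : ℕ) : ℤ),
        xEul_NS r1 (by omega) (by omega) (Int.natAbs_natCast _),
        Int.natCast_ne_zero.2 r1.ne_zero, ?_, 2, Or.inr rfl, fun σ hσ l hl => ?_⟩
      · rw [Int.natAbs_natCast]
        omega
      · have h3 : Nat.Coprime 3 l := by
          refine (Nat.coprime_primes Nat.prime_three (hP l l.2).1).2 ?_
          have := (hP l l.2).2
          omega
        have h4 : mm 0 σ 3 l = sy ((3 : ℕ) : ℤ) l := by
          unfold mm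
          rw [if_pos (by rw [hσ]; decide)]
        rw [h0, one_mul, hsum σ hσ l hl, Nat.cast_mul, chi_mul_left, h4, sgb_sy h3,
          hchi ((3 : ℕ) : ℤ)]
  · have h0 : θ = 0 := by
      by_contra h
      exact hA (Or.inl h)
    have hc : ∀ l, u l ≠ none → 2 ≤ cls (so (u l)) := fun l hl => by
      by_contra h
      exact hA (Or.inr ⟨l, hl, by omega⟩)
    obtain ⟨S, hS⟩ : ∃ S : Finset ↥P, S = univ.filter fun l => u l ≠ none := ⟨_, rfl⟩
    obtain ⟨q1, q2, -, q4⟩ := xEul_prod hP S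
    have q5 := xEul_size hP u hT S fun l hl => by
      rw [hS] at hl
      exact (mem_filter.1 hl).2
    have hn : S.Nonempty := by
      rcases hne with h | ⟨l, h⟩
      · exact absurd h0 h
      · exact ⟨l, hS ▸ mem_filter.2 ⟨mem_univ _, h⟩⟩
    have hs : (MP_e23604_nt.P.star (∏ l' ∈ S, (l' : ℕ))).natAbs = ∏ l' ∈ S, (l' : ℕ) := by
      unfold MP_e23604_nt.P.star
      split_ifs
      · exact Int.natAbs_natCast _
      · rw [Int.natAbs_neg, Int.natAbs_natCast]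
    refine ⟨MP_e23604_nt.P.star (∏ l' ∈ S, (l' : ℕ)), xEul_NS q1 q2 (q4 hn) hs,
      Int.natAbs_ne_zero.1 (hs.trans_ne q1.ne_zero), ?_, 0, Or.inl rfl, fun σ hσ l hl => ?_⟩
    · rw [hs]
      omega
    · rw [h0, zero_mul, sgb_zero, one_mul, ← chi_star (xEul_odd hP l) q2,
        xEul_right S _ (fun l' => (hP l' l'.2).1.ne_zero), sgb_sum, hS, prod_filter]
      refine prod_congr rfl fun l' _ => ?_
      by_cases h1 : u l' = none
      · rw [if_pos h1, if_neg (fun h => h h1), sgb_zero]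
      · have := hc l' h1
        rw [if_neg h1, if_pos h1]
        unfold mm
        rw [if_pos (by omega), sgb_sy (xEul_cop hP u hl h1)]

theorem SEul_pf : SEul := by
  intro P s C T β τ θ u hP hs hC hE hF hne hT
  obtain ⟨c, hc, hc0, hcT, X, hX, hψ⟩ := xEul_key hP θ u hne hT
  have hp : ∀ l ∈ P, l.Prime := fun l hl => (hP l hl).1
  have h1 : |Eu P β τ u| ≤ ∏ l : ↥P, ((1 - xx s l)⁻¹) ^ 10 * ((1 - chi c l * xx s l)⁻¹) ^ 2 := by
    unfold Eu
    rw [abs_prod]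
    refine prod_le_prod (fun l _ => abs_nonneg _) fun l _ => ?_
    have x0 := xBZeta_nn s l
    have x1 := xBZeta_half hs (hp l l.2)
    have hχ := chi_cases c l
    have hχ' := (abs_le.1 (abs_chi_le c l)).1
    refine le_trans ?_ (xEul_pt x0 x1 hχ)
    split_ifs with hl
    · obtain ⟨a1, a2⟩ := xEul_sum (fun σ => sgb (θ * mm 0 σ 3 l) *
        sgb (∑ l', if u l' = none then 0 else mm σ (so (u l')) l l')) (chi c l) X hX
        (fun σ => by rw [abs_mul, abs_sgb, abs_sgb, mul_one]) fun σ hσ => hψ σ hσ l hl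
      have e1 : ∑ σ, β (0, σ) l = 6 * xx s l := by
        rw [sum_congr rfl fun σ _ => (hF σ l l.2).1, sum_const, card_univ, Fintype.card_fin,
          nsmul_eq_mul]
        push_cast
        ring
      have e2 : ∑ σ, β (τ, σ) l *
          sgb (∑ l', if u l' = none then 0 else mm σ (so (u l')) l l') =
          xx s l / 2 * ∑ σ, sgb (θ * mm 0 σ 3 l) *
            sgb (∑ l', if u l' = none then 0 else mm σ (so (u l')) l l') := by
        rw [mul_sum]
        exact sum_congr rfl fun σ _ => by rw [(hF σ l l.2).2, mul_assoc]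
      rw [e1, e2, abs_le]
      constructor <;> nlinarith
    · rw [abs_one]
      nlinarith
  have h2 : ∏ l : ↥P, ((1 - xx s l)⁻¹) ^ 10 * ((1 - chi c l * xx s l)⁻¹) ^ 2 =
      (∏ l ∈ P, (1 - xx s l)⁻¹) ^ 10 * EP s P c ^ 2 := by
    unfold EP
    rw [prod_coe_sort P fun l => ((1 - xx s l)⁻¹) ^ 10 * ((1 - chi c l * xx s l)⁻¹) ^ 2,
      prod_mul_distrib, prod_pow, prod_pow]
  have hT1 : 1 ≤ T := by
    refine le_trans ?_ (hT (0, 0))
    refine Nat.one_le_iff_ne_zero.2 (prod_ne_zero_iff.2 fun l _ => ?_)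
    split_ifs
    · exact (hp l l.2).ne_zero
    · exact one_ne_zero
  have hT1' : (1 : ℝ) ≤ T := by exact_mod_cast hT1
  have hL : 0 ≤ Real.log T := Real.log_nonneg hT1'
  have h3 : Real.log |(c : ℝ)| ≤ 2 + 48 * Real.log T := by
    have a1 : |(c : ℝ)| ≤ 3 * (T : ℝ) ^ 48 := by
      rw [← Int.cast_abs, ← Int.natCast_natAbs]
      exact_mod_cast hcT
    have a2 : 0 < |(c : ℝ)| := abs_pos.2 (Int.cast_ne_zero.2 hc0)
    refine (Real.log_le_log a2 a1).trans ?_
    rw [Real.log_mul (by norm_num) (by positivity), Real.log_pow]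
    have a3 := Real.log_le_sub_one_of_pos (show (0 : ℝ) < 3 by norm_num)
    push_cast
    linarith
  have h4 : EP s P c ≤ 50 * C * (1 + Real.log T) := by
    refine (hE c hc).trans ?_
    nlinarith
  have h5 : 0 ≤ ∏ l ∈ P, (1 - xx s l)⁻¹ :=
    prod_nonneg fun l hl => inv_nonneg.2 (by linarith [xBZeta_half hs (hp l hl)])
  refine h1.trans (h2 ▸ ?_)
  exact mul_le_mul (pow_le_pow_left₀ h5 (prod_inv_le hp hs) 10)
    (pow_le_pow_left₀ (EP_pos hs hp c).le h4 2) (by positivity) (by positivity)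

end Pool.Agent.MP_e23604_nt.U.Bm

end
end
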