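import Pool.Agent.Mg.Fe23604m.G5af790
import Pool.Agent.Mg.Fe23604m.G72a1cc
import Pool.Agent.Mg.Fe23604m.Gffd21a
import Pool.Agent.Mg.Fe23604m.G37f196
import Pool.Agent.Mg.Fe23604m.Ge4cc4e
import Pool.Agent.Mg.Fe23604m.G5a273c
import Pool.Agent.Mg.Fe23604m.Ge0cfb6
import Pool.Agent.Mg.Fe23604m.Geb30ae
import Pool.Agent.Mg.Fe23604m.G36788b
import Pool.Agent.Mg.Fe23604m.G0311cb
import Pool.Agent.Mg.Fe23604m.G1db2b2
import Pool.Agent.Mg.Fe23604m.G10ede6
import Pool.Agent.Mg.Fe23604m.G104dcb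
import Pool.Agent.Mg.Fe23604m.G604c7d
import Pool.Agent.Mg.Fe23604m.G0e64ad

set_option linter.all false

section

/-!
The random model: assembly.
-/

namespace Pool.Agent.MP_e23604_nt.U

open Bm in
theorem IB_pf : IB :=
  SFin_pf
    (SAvg_pf (SFA_pf SFA1_pf SPhi_pf) (SFB_pf SCfg_pf) SCfg_pf
      (SMix_pf SPart_pf (SFull_pf (SRow_pf SPhi_pf) SEul_pf STriv_pf) STriv_pf (SBil_pf SPhi_pf)
        (SCol_pf SFK_pf (SDet_pf SFK_pf)) (SBe_pf SFK_pf))
      (SCnt_pf SFK_pf) SNum_pf SFF_pf)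
    (SPg_pf SFK_pf (SGood_pf SFK_pf SPar_pf)) SCfg_pf (SWt_pf SCfg_pf) STot_pf

end Pool.Agent.MP_e23604_nt.U

end

section

/-!
Part D: assembly.
-/

namespace Pool.Agent.MP_e23604_nt.U

/-- Part D1. -/
theorem ID1_pf : ID1 := dD1 dAvg dRed dTab dLoc

end Pool.Agent.MP_e23604_nt.U

end

section

/-!
The sieve lower bounds and the end of the chain, assembled.
-/

namespace Pool.Agent.MP_e23604_nt.U.CF

theorem f3 : F3 := F3_pf (F2_pf (F1_pf FEul_pf FCrt_pf))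

theorem cFund : CFund1 ∧ CFund2 := CFund_pf f3 (FA0_pf FA_pf) (FA2_pf FA_pf)

theorem cTail : CTail :=
  CTail_pf (FP_pf (FV_pf ECore_pf) (FCnt_pf FBox_pf FLoc_pf) (FWt_pf E2c_pf) E2c_pf) f3
    (FA2_pf FA_pf) (FDrop_pf FBig_pf) (FEnd_pf (FCop_pf FBox_pf FBig_pf))

end Pool.Agent.MP_e23604_nt.U.CF

end

section

/-!
Part C assembled.
-/

namespace Pool.Agent.MP_e23604_nt.U

theorem IC_all (hIB : IB) (hID1 : ID1) (hIE : IE) (hDSz : DSz) (hTSpin : TSpin)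
    (hb : CFlat → CPer → CSz → CPrim → CLin → TBit) (hCFund1 : CF.CFund1) (hCFund2 : CF.CFund2)
    (hCTail : CF.CTail) : IC := by
  have hPair : CPair := CPair_pf
  have hCore : CCore := CCore_pf hPair
  have hOffC : COffC := COffC_pf
  have hOffW : COffW := COffW_pf hOffC
  have hOff : COff := COff_pf hCore hOffC hOffW
  have hRepA : CRepA := CRepA_pf hOff hOffC
  have hCls : CCls := CCls_pf
  have hLin : CLin := CLin_pf
  have hSz : CSz := CSz_pf
  have hGeo1 : CGeo1 := CGeo1_pf hSz hLin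
  have hGeo2 : CGeo2 := CGeo2_pf hSz
  have hTau1 : CTau1 := CTau1_pf hSz hLin hCls hGeo1
  have hTau : CTau := CTau_pf hTau1 hCls hSz
  have hDiv : CDiv := CDiv_pf hSz hLin hCls
  have hPer : CPer := CPer_pf hLin
  have hSp : CSp := CSp_pf hLin
  have hIns : CIns := CIns_pf hLin hPer
  have hPrim : CPrim := CPrim_pf hDSz hLin hSz
  have hMul : CMul := CMul_pf hLin hPer hPrim
  have hW1 : CW1 := CW1_pf hMul hTau hDiv hSz hCls hLin hPer hPrim
  have hMas : CMas := CMas_pf hTau hCls hLin hPrim hPer hSz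
  have hWts : CWts := CWts_pf hW1 hMas hPer hLin hSz
  have hFlat : CFlat := CFlat_pf hTau hLin hPrim hCls hSz
  have hTBit : TBit := hb hFlat hPer hSz hPrim hLin
  have hLnR : CLnR := CLnR_pf hGeo1 hGeo2 hSp hPer hLin hCls hSz
  have hRepE : CRepE := CRepE_pf hLin hPer hCls hSp hSz
  have hRed : CRed := CRed_pf hFlat hIns hSz hPrim hLin hPer
  have hRepG : RepG := RepG_pf hRed hRepE hLnR hWts hRepA hGeo1 hSz hLin hPer
  have hDirG : DirG := DirG_pf hRed hCore hWts hGeo1 hSp hPer hLin hCls hSz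
  have hTRep : TRep := TRep_pf hRepG hPrim hLin hSz
  have hTDir : TDir := TDir_pf hDirG hPrim hLin hSz
  have hTDl : TDl := TDl_pf hIE hPrim hLin hSz
  have hTFun : TFun := TFun_pf hCFund1 hCFund2 hPrim hLin hSz
  have hBd : CBd := CBd_pf hSz
  have hLev1 : CLev1 := CLev1_pf hTDl hTRep hTBit hTDir hTFun hBd
  have hLev2 : CLev2 := CLev2_pf hTRep hTBit hTDir hTFun hBd
  have hLev3 : CLev3 := CLev3_pf hTBit hBd hCTail hIB hID1
  exact IC_of hTSpin hLev1 hLev2 hLev3 hSz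

theorem IC_pf (hB : IB) (hD : ID1) : IC :=
  IC_all hB hD IE_pf dSz CSJ.tSpin CSJ.tBit CF.cFund.1 CF.cFund.2 CF.cTail

end Pool.Agent.MP_e23604_nt.U

end

section

/-!
All parts together.
-/

namespace Pool.Agent.MP_e23604_nt.U

theorem main : IFJ := IDJ_pf IA_pf (IC_pf IB_pf ID1_pf)

end Pool.Agent.MP_e23604_nt.U

end
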