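import Pool.Agent.Mg.Fe23604m.G9b4e87
import Pool.Agent.Mg.Fe23604m.Gcb31cd

set_option linter.all false

/-!
The region without zeros.
-/

namespace Pool.Agent.MP_e23604_nt.TN

open NumberField Finset Filter
open MP_f68ac8_nt MP_f68ac8_nt.Nd
open T (P0 rh lm9)
open scoped Topology BigOperators

theorem xFree_ld (hD : DerT) {χ : ℕ → ℂ} {F : ℂ → ℂ} {Q : ℝ} (hχ : ∀ n, ‖χ n‖ ≤ 1)
    (hF : Lf χ F Q) {s : ℂ} (hs : 1 < s.re) : F s ≠ 0 ∧ logDeriv F s = -Pd χ s := by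
  have h1 : F =ᶠ[𝓝 s] fun s => Complex.exp (Pc χ s) := by
    filter_upwards [(isOpen_lt continuous_const Complex.continuous_re).mem_nhds hs] with z hz
    exact hF.eq z hz
  refine ⟨by rw [hF.eq s hs]; exact Complex.exp_ne_zero _, ?_⟩
  rw [logDeriv_apply, h1.deriv_eq, ((hD χ hχ).1 s hs).cexp.deriv, hF.eq s hs,
    mul_div_cancel_left₀ _ (Complex.exp_ne_zero _)]

theorem xFree_re (hD : DerT) {χ : ℕ → ℂ} {F : ℂ → ℂ} {Q r E δ t : ℝ} {Z : Multiset ℂ}
    (hχ : ∀ n, ‖χ n‖ ≤ 1) (hF : Lf χ F Q)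
    (hs : ∀ s ∈ Metric.ball (1 : ℂ) r, (F s = 0 → s ∈ Z) ∧
      (F s ≠ 0 → ‖logDeriv F s - (Z.map fun z => 1 / (s - z)).sum‖ ≤ E))
    (hδ : 0 < δ) (ht : δ + |t| < r) :
    (Pd χ (((1 + δ : ℝ) : ℂ) + t * Complex.I)).re ≤
      E - ((Z.map fun z => 1 / ((((1 + δ : ℝ) : ℂ) + t * Complex.I) - z)).sum).re := by
  set s : ℂ := ((1 + δ : ℝ) : ℂ) + t * Complex.I with hs'
  have e1 : (s - 1).re = δ := by simp [hs']
  have e2 : (s - 1).im = t := by simp [hs']
  have hb : s ∈ Metric.ball (1 : ℂ) r := by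
    rw [Metric.mem_ball, dist_eq_norm]
    have := Complex.norm_le_abs_re_add_abs_im (s - 1)
    rw [e1, e2, abs_of_pos hδ] at this
    linarith
  have hre : 1 < s.re := by
    rw [Complex.sub_re, Complex.one_re] at e1
    linarith
  obtain ⟨h1, h2⟩ := xFree_ld hD hχ hF hre
  have h3 := (neg_le_abs _).trans ((Complex.abs_re_le_norm _).trans ((hs s hb).2 h1))
  rw [h2, Complex.sub_re, Complex.neg_re] at h3
  linarith

theorem freeD (hL : LocD) (hD : DerT) (hP : PrT) : FreeD := by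
  obtain ⟨r, C, hr, hr8, hC, H⟩ := hL
  obtain ⟨cP, CP, hcP, hCP, HP⟩ := hP
  obtain ⟨K, hK, hK1, hK2, hK3⟩ : ∃ K : ℝ, 0 < K ∧ 3 * CP + 5 * C ≤ K ∧ 1 ≤ K * cP ∧
      4 ≤ K * r := by
    have a1 : 0 < 1 / cP := by positivity
    have a2 : 0 < 4 / r := by positivity
    refine ⟨3 * CP + 5 * C + 1 / cP + 4 / r, by positivity, by linarith, ?_, ?_⟩
    · rw [← div_le_iff₀ hcP]
      linarith
    · rw [← div_le_iff₀ hr]
      linarith
  obtain ⟨c, hc, hc1, hc3⟩ : ∃ c : ℝ, 0 < c ∧ c ≤ r / 32 ∧ c * (28 * K) ≤ 1 :=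
    ⟨min (r / 32) (1 / (28 * K)), by positivity, min_le_left _ _,
      (le_div_iff₀ (by positivity)).1 (min_le_right _ _)⟩
  refine ⟨c, 2 * C, hc, by linarith, by positivity, ?_⟩
  intro χ F F' M ρ τ hχ hM hF hF' hρ hρc hτ
  have hχ' : ∀ n, ‖χ n ^ 2‖ ≤ 1 := fun n => by
    rw [norm_pow]
    exact pow_le_one₀ (norm_nonneg _) (hχ n)
  obtain ⟨hd, Z, hcard, hZ, hs⟩ := H χ F M hχ hM hF
  obtain ⟨-, Z', -, hZ', hs'⟩ := H _ F' M hχ' hM hF'
  rw [le_div_iff₀ (by linarith)] at hρc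
  have hρ1 : ρ ≤ c := by nlinarith
  obtain ⟨δ, hδ, hδ1⟩ : ∃ δ : ℝ, 0 < δ ∧ δ * (2 * K * M) = 1 :=
    ⟨1 / (2 * K * M), by positivity, one_div_mul_cancel (by positivity)⟩
  have hδK : δ * (2 * K) ≤ 1 := by nlinarith [mul_pos hδ hK]
  have hδ2 : δ ≤ cP := by nlinarith [mul_pos hδ hK, mul_le_mul_of_nonneg_left hK2 hδ.le]
  have hδ3 : δ ≤ r / 8 := by nlinarith [mul_le_mul_of_nonneg_left hK3 hδ.le]
  have hδ4 : 14 * ρ ≤ δ := by
    refine le_of_mul_le_mul_right ?_ (show 0 < 2 * K * M by positivity)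
    nlinarith [mul_le_mul_of_nonneg_right hρc hK.le]
  have near : ∀ z ∈ Z, ‖z - 1‖ < r / 4 → 2 * ρ ≤ 1 - z.re := fun z hz h => by
    have h4 : |z.im| < r / 4 := by
      have := Complex.abs_im_le_norm (z - 1)
      rw [Complex.sub_im, Complex.one_im, sub_zero] at this
      linarith
    have hre : ∀ t : ℝ, 1 < (((1 + δ : ℝ) : ℂ) + t * Complex.I).re := fun t => by simp [hδ]
    have k0 := HP (1 + δ) (by linarith) (by linarith)
    have k1 := xFree_re hD hχ hF hs hδ (t := z.im) (by linarith)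
    have k2 := xFree_re hD hχ' hF' hs' hδ (t := 2 * z.im) (by rw [abs_mul, abs_two]; linarith)
    have n1 := le_sum_NaFree _ (hre z.im) Z hZ z hz
    have n2 := sum_nonneg_NaFree _ (hre (2 * z.im)) Z' hZ'
    have h6 := (hD χ hχ).2 (1 + δ) z.im (by linarith)
    have hβ := hZ z hz
    have hd : 0 < 1 + δ - z.re := by linarith
    have e1 : (1 / (((1 + δ : ℝ) : ℂ) + (z.im : ℝ) * Complex.I - z)).re = 1 / (1 + δ - z.re) := by
      have a1 : (((1 + δ : ℝ) : ℂ) + (z.im : ℝ) * Complex.I - z).re = 1 + δ - z.re := by simp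
      have a2 : (((1 + δ : ℝ) : ℂ) + (z.im : ℝ) * Complex.I - z).im = 0 := by simp
      rw [re_inv_NaFree, a1, a2, div_eq_div_iff (by positivity) hd.ne']
      ring
    rw [e1] at n1
    rw [add_sub_cancel_left] at k0
    rw [show (2 : ℂ) * (z.im : ℝ) = ((2 * z.im : ℝ) : ℂ) by push_cast; rfl] at h6
    have b1 : 3 * CP + 5 * (C * M) ≤ K * M := by nlinarith
    have b2 : K * M = 1 / 2 / δ := by
      rw [eq_div_iff hδ.ne']
      linarith
    have h7 : 4 / (1 + δ - z.re) ≤ 7 / 2 / δ := by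
      have c1 : 4 / (1 + δ - z.re) = 4 * (1 / (1 + δ - z.re)) := by ring
      have c2 : 7 / 2 / δ = 3 * (1 / δ) + 1 / 2 / δ := by ring
      rw [c1, c2]
      linarith
    rw [div_le_div_iff₀ hd hδ] at h7
    linarith
  have hball : ∀ s ∈ Metric.ball (1 + τ * Complex.I) (c * ρ),
      ‖s - 1‖ ≤ r / 16 ∧ 1 - ρ ≤ s.re := by
    intro s hs
    rw [Metric.mem_ball, dist_eq_norm] at hs
    have h1 : c * ρ ≤ ρ := by nlinarith
    constructor
    · have h2 : s - 1 = s - (1 + τ * Complex.I) + τ * Complex.I := by ring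
      have h3 := norm_add_le (s - (1 + τ * Complex.I)) (τ * Complex.I)
      rw [← h2, norm_mul, Complex.norm_I, mul_one, Complex.norm_real, Real.norm_eq_abs] at h3
      linarith
    · have h2 := Complex.abs_re_le_norm (s - (1 + τ * Complex.I))
      have h3 : (s - (1 + τ * Complex.I)).re = s.re - 1 := by simp
      rw [h3] at h2
      linarith [neg_abs_le (s.re - 1)]
  have hsub : Metric.ball (1 + τ * Complex.I) (c * ρ) ⊆ Metric.ball (1 : ℂ) r := by
    intro s hs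
    rw [Metric.mem_ball, dist_eq_norm]
    linarith [(hball s hs).1]
  refine ⟨hd.mono hsub, fun s hsb => ?_⟩
  have hfar : ∀ z ∈ Z, ρ ≤ ‖s - z‖ := by
    intro z hz
    by_cases h : ‖z - 1‖ < r / 4
    · have h3 := Complex.re_le_norm (s - z)
      rw [Complex.sub_re] at h3
      linarith [(hball s hsb).2, near z hz h]
    · have h1 : z - 1 = s - 1 - (s - z) := by ring
      have h2 := norm_sub_le (s - 1) (s - z)
      rw [← h1] at h2
      linarith [(hball s hsb).1, not_lt.1 h]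
  have hne : F s ≠ 0 := by
    intro h0
    have := hfar s ((hs s (hsub hsb)).1 h0)
    rw [sub_self, norm_zero] at this
    linarith
  refine ⟨hne, ?_⟩
  have h1 := (hs s (hsub hsb)).2 hne
  have h2 := norm_sum_NaFree s ρ hρ Z hfar
  have h3 := norm_add_le (logDeriv F s - (Z.map fun z => 1 / (s - z)).sum)
    (Z.map fun z => 1 / (s - z)).sum
  rw [sub_add_cancel] at h3
  have h4 : (Multiset.card Z : ℝ) * (1 / ρ) ≤ C * M * (1 / ρ) :=
    mul_le_mul_of_nonneg_right hcard (by positivity)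
  have h5 : C * M ≤ C * M / ρ := by
    rw [le_div_iff₀ hρ]
    have : 0 < C * M := by positivity
    nlinarith
  have h6 : 2 * C * M / ρ = C * M * (1 / ρ) + C * M / ρ := by ring
  rw [h6]
  linarith

end Pool.Agent.MP_e23604_nt.TN
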