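import Pool.Agent.Mg.Fe23604m.G9b4e87
import Pool.Agent.MP_f68ac8_nt.NaPsum

set_option linter.all false

section

/-! Cubic Dirichlet characters. -/

namespace Pool.Agent.MP_e23604_nt.TN

open NumberField Finset Filter
open MP_f68ac8_nt MP_f68ac8_nt.Nd
open T (P0 rh lm9)
open scoped Topology BigOperators

lemma xDirC_lm (u v : ZMod 9) (hu : u.val % 3 ≠ 0) (hv : v.val % 3 ≠ 0) :
    lm9 (u * v) = lm9 u + lm9 v := by
  revert u v
  unfold lm9
  decide

lemma xDirC_val {n : ℕ} (h : n.Coprime 9) : (n : ZMod 9).val % 3 ≠ 0 := by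
  rw [ZMod.val_natCast]
  intro e
  have h3 : 3 ∣ n := by omega
  have := Nat.dvd_gcd h3 (show 3 ∣ 9 by norm_num)
  rw [h] at this
  omega

/-- the quadratic character modulo three -/
noncomputable def xDirC_e (n : ℕ) : ℂ := if n % 3 = 1 then 1 else if n % 3 = 2 then -1 else 0

lemma xDirC_e_mul (a b : ℕ) : xDirC_e (a * b) = xDirC_e a * xDirC_e b := by
  unfold xDirC_e
  rw [Nat.mul_mod]
  have ha : a % 3 = 0 ∨ a % 3 = 1 ∨ a % 3 = 2 := by omega
  have hb : b % 3 = 0 ∨ b % 3 = 1 ∨ b % 3 = 2 := by omega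
  rcases ha with ha | ha | ha <;> rcases hb with hb | hb | hb <;> simp [ha, hb]

lemma xDirC_e_cm : TN.Cm xDirC_e :=
  ⟨by simp [xDirC_e], xDirC_e_mul, fun n => by unfold xDirC_e; split_ifs <;> simp⟩

lemma xDirC_mul {χ ψ : ℕ → ℂ} (h : TN.Cm χ) (h' : TN.Cm ψ) : TN.Cm fun n => χ n * ψ n :=
  ⟨by rw [h.one, h'.one, mul_one], fun a b => by rw [h.mul, h'.mul]; ring, fun n => by
    rw [norm_mul]
    exact mul_le_one₀ (h.le n) (norm_nonneg _) (h'.le n)⟩

lemma xDirC_sq {χ : ℕ → ℂ} (h : TN.Cm χ) : TN.Cm fun n => χ n ^ 2 := by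
  simpa only [sq] using xDirC_mul h h

lemma xDirC_main (hP : PerT) (q n₀ : ℕ) (g : ℕ → ZMod 3) (hq : 0 < q) (h3 : 3 ∣ q)
    (hm : ∀ a b : ℕ, a.Coprime q → b.Coprime q → g (a * b) = g a + g b)
    (hp : ∀ n, g (n + q) = g n) (h0 : n₀.Coprime q) (h1 : n₀ % 3 = 1) (h2 : g n₀ ≠ 0) :
    ∃ χ χ' : ℕ → ℂ, Pair χ χ' q ∧ ∀ l : ℕ, l.Coprime q → χ l = ZMod.stdAddChar (g l) := by
  classical
  obtain ⟨χ, hχ⟩ : ∃ χ : ℕ → ℂ, ∀ n, χ n = if n.Coprime q then ZMod.stdAddChar (g n) else 0 :=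
    ⟨_, fun _ => rfl⟩
  have g1 : g 1 = 0 := by
    have := hm 1 1 (Nat.coprime_one_left q) (Nat.coprime_one_left q)
    rw [mul_one] at this
    exact left_eq_add.1 this
  have hc : TN.Cm χ := by
    refine ⟨by rw [hχ, if_pos (Nat.coprime_one_left q), g1, AddChar.map_zero_eq_one],
      fun a b => ?_, fun n => ?_⟩
    · rw [hχ, hχ, hχ]
      by_cases ha : a.Coprime q
      · by_cases hb : b.Coprime q
        · rw [if_pos ha, if_pos hb, if_pos (Nat.coprime_mul_iff_left.2 ⟨ha, hb⟩), hm a b ha hb,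
            AddChar.map_add_eq_mul]
        · rw [if_neg hb, if_neg fun h => hb (Nat.coprime_mul_iff_left.1 h).2, mul_zero]
      · rw [if_neg ha, if_neg fun h => ha (Nat.coprime_mul_iff_left.1 h).1, zero_mul]
    · rw [hχ]
      split_ifs
      · exact (AddChar.norm_apply _ _).le
      · simp
  have p1 : ∀ n, χ (n + q) = χ n := fun n => by
    rw [hχ, hχ, hp]
    simp only [Nat.coprime_add_self_left]
  have p2 : ∀ n, xDirC_e (n + q) = xDirC_e n := fun n => by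
    obtain ⟨k, rfl⟩ := h3
    unfold xDirC_e
    rw [Nat.add_mul_mod_self_left]
  have e0 : xDirC_e n₀ = 1 := if_pos h1
  have hne : ∀ y : ZMod 3, y ≠ 0 → (ZMod.stdAddChar y : ℂ) ≠ 1 := fun y hy e =>
    hy (ZMod.injective_stdAddChar (e.trans (AddChar.map_zero_eq_one _).symm))
  have v1 : χ n₀ ≠ 1 := by
    rw [hχ, if_pos h0]
    exact hne _ h2
  have v2 : χ n₀ ^ 2 ≠ 1 := by
    rw [hχ, if_pos h0, sq, ← AddChar.map_add_eq_mul]
    exact hne _ ((by decide : ∀ y : ZMod 3, y ≠ 0 → y + y ≠ 0) _ h2)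
  have hc' := xDirC_mul hc xDirC_e_cm
  refine ⟨χ, fun n => χ n * xDirC_e n, ⟨hc, hc', hP _ q n₀ hc hq p1 h0 v1,
    hP _ q n₀ hc' hq (fun n => by rw [p1, p2]) h0 (by rwa [e0, mul_one]),
    hP _ q n₀ (xDirC_sq hc) hq (fun n => by rw [p1]) h0 v2,
    hP _ q n₀ (xDirC_sq hc') hq (fun n => by rw [p1, p2]) h0 (by rwa [e0, mul_one]),
    fun l hl => ?_⟩, fun l hl => by rw [hχ, if_pos hl]⟩
  have hd : ¬ 3 ∣ l := fun e =>
    hl.2 ((Nat.prime_dvd_prime_iff_eq Nat.prime_three hl.1).1 e).symm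
  by_cases e : l % 3 = 1
  · rw [if_pos (by simp [cl, e]), xDirC_e, if_pos e, mul_one]
  · rw [if_neg (by simp [cl, e]), xDirC_e, if_neg e, if_pos (by omega), mul_neg, mul_one]

theorem dirC (hL : LogT) (hP : PerT) : DirC := by
  classical
  intro R x a hR hx
  obtain ⟨f, hf⟩ := hL
  have hk3 : ∀ k ∈ R, k % 3 = 1 := fun k hk => (hR k hk).2
  have hk9 : ∀ k ∈ R, k.Coprime 9 := fun k hk => by
    refine Nat.Coprime.pow_right 2 ((Nat.coprime_primes (hR k hk).1 Nat.prime_three).2 ?_)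
    have := hk3 k hk
    omega
  have hcop : ∀ n : ℕ, n.Coprime (9 * ∏ k ∈ R, k) ↔ n.Coprime 9 ∧ ∀ k ∈ R, n.Coprime k := fun n => by
    rw [Nat.coprime_mul_iff_right, Nat.coprime_prod_right_iff]
  have f1 : ∀ k ∈ R, ∀ n : ℕ, n ≡ 1 [MOD k] → f k n = 0 := fun k hk n hn => by
    have := (hf k (hR k hk)).1 1 1 (Nat.coprime_one_left k) (Nat.coprime_one_left k)
    rw [mul_one] at this
    rw [(hf k (hR k hk)).2.1 n 1 hn]
    exact left_eq_add.1 this
  have hc1 : ∀ n m : ℕ, n ≡ 1 [MOD m] → n.Coprime m := fun n m h => by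
    rw [Nat.Coprime, h.gcd_eq, Nat.gcd_one_left]
  obtain ⟨n₀, h0, h1, h2⟩ : ∃ n₀ : ℕ, n₀.Coprime (9 * ∏ k ∈ R, k) ∧ n₀ % 3 = 1 ∧
      ∑ k ∈ R, x k * f k n₀ + a * lm9 n₀ ≠ 0 := by
    by_cases h : ∃ k ∈ R, x k ≠ 0
    · obtain ⟨k₀, hk₀, hx₀⟩ := h
      obtain ⟨a₀, ha₀, ha₁⟩ := (hf k₀ (hR k₀ hk₀)).2.2.1
      have hco : k₀.Coprime (9 * ∏ k ∈ R.erase k₀, k) :=
        Nat.coprime_mul_iff_right.2 ⟨hk9 k₀ hk₀, Nat.coprime_prod_right_iff.2 fun k hk =>
          (Nat.coprime_primes (hR k₀ hk₀).1 (hR k (mem_of_mem_erase hk)).1).2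
            (ne_of_mem_erase hk).symm⟩
      obtain ⟨n, n1, n2⟩ := Nat.chineseRemainder hco a₀ 1
      have n9 : n ≡ 1 [MOD 9] := n2.of_mul_right _
      have nk : ∀ k ∈ R.erase k₀, n ≡ 1 [MOD k] := fun k hk =>
        (n2.of_mul_left 9).of_dvd (dvd_prod_of_mem _ hk)
      refine ⟨n, (hcop n).2 ⟨hc1 n 9 n9, fun k hk => ?_⟩, ?_, ?_⟩
      · by_cases e : k = k₀
        · rw [e, Nat.Coprime, n1.gcd_eq]
          exact ha₀
        · exact hc1 n k (nk k (mem_erase.2 ⟨e, hk⟩))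
      · unfold Nat.ModEq at n9
        omega
      · rw [← add_sum_erase R _ hk₀, sum_eq_zero fun k hk => by
          rw [f1 k (mem_of_mem_erase hk) n (nk k hk), mul_zero],
          (hf k₀ (hR k₀ hk₀)).2.1 n a₀ n1, ha₁, (ZMod.natCast_eq_natCast_iff n 1 9).2 n9,
          show lm9 ((1 : ℕ) : ZMod 9) = 0 by unfold lm9; decide]
        simpa using hx₀
    · have ha := hx.resolve_left h
      have hco : Nat.Coprime 9 (∏ k ∈ R, k) :=
        Nat.coprime_prod_right_iff.2 fun k hk => (hk9 k hk).symm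
      obtain ⟨n, n1, n2⟩ := Nat.chineseRemainder hco 4 1
      have nk : ∀ k ∈ R, n ≡ 1 [MOD k] := fun k hk => n2.of_dvd (dvd_prod_of_mem _ hk)
      refine ⟨n, (hcop n).2 ⟨?_, fun k hk => hc1 n k (nk k hk)⟩, ?_, ?_⟩
      · rw [Nat.Coprime, n1.gcd_eq]
        decide
      · unfold Nat.ModEq at n1
        omega
      · rw [sum_eq_zero fun k hk => by rw [f1 k hk n (nk k hk), mul_zero],
          (ZMod.natCast_eq_natCast_iff n 4 9).2 n1,
          show lm9 ((4 : ℕ) : ZMod 9) = 2 by unfold lm9; decide, zero_add]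
        exact mul_ne_zero ha (by decide)
  obtain ⟨χ, χ', p1, p2⟩ := xDirC_main hP (9 * ∏ k ∈ R, k) n₀
    (fun n => ∑ k ∈ R, x k * f k n + a * lm9 n)
    (Nat.mul_pos (by norm_num) (prod_pos fun k hk => (hR k hk).1.pos))
    (Dvd.dvd.mul_right (by norm_num) _)
    (fun u v hu hv => by
      rw [hcop] at hu hv
      rw [Nat.cast_mul, xDirC_lm _ _ (xDirC_val hu.1) (xDirC_val hv.1),
        sum_congr rfl fun k hk => by rw [(hf k (hR k hk)).1 u v (hu.2 k hk) (hv.2 k hk), mul_add],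
        sum_add_distrib]
      ring)
    (fun n => by
      have e9 : ((n + 9 * ∏ k ∈ R, k : ℕ) : ZMod 9) = n :=
        (ZMod.natCast_eq_natCast_iff _ _ 9).2 (by simp [Nat.ModEq])
      rw [e9]
      refine congrArg (· + a * lm9 n) (sum_congr rfl fun k hk => ?_)
      rw [(hf k (hR k hk)).2.1 _ n]
      exact (Nat.add_modEq_left_iff.2 (Dvd.dvd.mul_left (dvd_prod_of_mem _ hk) 9)))
    h0 h1 h2
  refine ⟨χ, χ', p1, fun l hl hlR => ?_⟩
  have hne : ∀ k ∈ R, l ≠ k := fun k hk e => hlR (e ▸ hk)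
  rw [p2 l ((hcop l).2 ⟨Nat.Coprime.pow_right 2 ((Nat.coprime_primes hl.1 Nat.prime_three).2 hl.2),
    fun k hk => (Nat.coprime_primes hl.1 (hR k hk).1).2 (hne k hk)⟩)]
  refine congrArg (fun t => ZMod.stdAddChar (t + a * lm9 l)) (sum_congr rfl fun k hk => ?_)
  rw [rh, if_pos (hk3 k hk), (hf k (hR k hk)).2.2.2 l hl.1 (hne k hk)]

end Pool.Agent.MP_e23604_nt.TN

end

section

namespace Pool.Agent.MP_e23604_nt.TN

open NumberField Finset Filter
open MP_f68ac8_nt MP_f68ac8_nt.Nd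
open T (P0 rh lm9)
open scoped Topology BigOperators

lemma xEu_q : (2 : ℝ) ^ (-(3 / 4 : ℝ)) < 1 :=
  Real.rpow_lt_one_of_one_lt_of_neg one_lt_two (by norm_num)

lemma xEu_z {χ : ℕ → ℂ} (h : ∀ n, ‖χ n‖ ≤ 1) {s : ℂ} {σ : ℝ} (hs : σ ≤ s.re) (l : ℕ) :
    ‖χ l * pw s l‖ ≤ (l : ℝ) ^ (-σ) := by
  rw [norm_mul]
  exact (mul_le_of_le_one_left (norm_nonneg _) (h l)).trans (pw_le_NaPsum hs l)

lemma xEu_z2 {χ : ℕ → ℂ} (h : ∀ n, ‖χ n‖ ≤ 1) {s : ℂ} (hs : 3 / 4 < s.re) (l : ℕ) :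
    ‖χ l * pw s l‖ ≤ (2 : ℝ) ^ (-(3 / 4 : ℝ)) := by
  by_cases hl : l.Prime
  · exact (xEu_z h hs.le l).trans (Real.rpow_le_rpow_of_nonpos two_pos
      (by exact_mod_cast hl.two_le) (by norm_num))
  · rw [pw, if_neg hl, mul_zero, norm_zero]
    positivity

lemma xEu_r {χ : ℕ → ℂ} (h : ∀ n, ‖χ n‖ ≤ 1) {s : ℂ} (hs : 3 / 4 < s.re) (l : ℕ) :
    ‖-Complex.log (1 - χ l * pw s l) - χ l * pw s l‖ ≤
      (1 - (2 : ℝ) ^ (-(3 / 4 : ℝ)))⁻¹ / 2 * (l : ℝ) ^ (-(3 / 2 : ℝ)) := by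
  have h1 := xEu_z h hs.le l
  have h2 := xEu_z2 h hs l
  have h3 := xEu_q
  generalize χ l * pw s l = z at h1 h2
  have h4 := Complex.norm_log_one_add_sub_self_le (z := -z) (by rw [norm_neg]; linarith)
  rw [norm_neg, ← norm_neg] at h4
  have e : -(Complex.log (1 + -z) - -z) = -Complex.log (1 - z) - z := by
    rw [← sub_eq_add_neg]
    ring
  rw [e] at h4
  refine h4.trans ?_
  have h5 : ‖z‖ ^ 2 ≤ (l : ℝ) ^ (-(3 / 2 : ℝ)) := by
    refine (pow_le_pow_left₀ (norm_nonneg _) h1 2).trans (le_of_eq ?_)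
    rw [← Real.rpow_natCast, ← Real.rpow_mul (Nat.cast_nonneg l)]
    norm_num
  have h6 : (1 - ‖z‖)⁻¹ ≤ (1 - (2 : ℝ) ^ (-(3 / 4 : ℝ)))⁻¹ := inv_anti₀ (by linarith) (by linarith)
  have h7 : 0 ≤ (1 - ‖z‖)⁻¹ := inv_nonneg.2 (by linarith)
  have h8 := mul_le_mul h5 h6 h7 (by positivity)
  linarith

lemma xEu_d (c : ℂ) (l : ℕ) : Differentiable ℂ fun s => c * pw s l := by
  unfold pw
  split_ifs with hl
  · have h0 : (l : ℂ) ≠ 0 := by exact_mod_cast hl.ne_zero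
    exact (differentiable_id.neg.const_cpow (Or.inl h0)).const_mul c
  · exact differentiable_const _

lemma xEu_o : IsOpen Om :=
  (isOpen_lt continuous_const Complex.continuous_re).inter
    (isOpen_lt continuous_norm continuous_const)

theorem euT : EuT := by
  have hu : Summable fun l : ℕ =>
      (1 - (2 : ℝ) ^ (-(3 / 4 : ℝ)))⁻¹ / 2 * (l : ℝ) ^ (-(3 / 2 : ℝ)) :=
    (sum1_NaPsum (by norm_num)).mul_left _
  refine ⟨_, fun χ hχ => ⟨fun s => ∑' l : ℕ, (-Complex.log (1 - χ l * pw s l) - χ l * pw s l),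
    Complex.differentiableOn_tsum_of_summable_norm hu (fun l s hs => ?_) xEu_o
      fun l s hs => xEu_r hχ.le hs.1 l,
    fun s hs => tsum_of_norm_bounded hu.hasSum (xEu_r hχ.le hs.1), fun s hs => ?_⟩⟩
  · have h1 := xEu_d (χ l) l s
    have h2 : 1 - χ l * pw s l ∈ Complex.slitPlane := by
      rw [sub_eq_add_neg]
      refine Complex.mem_slitPlane_of_norm_lt_one ?_
      rw [norm_neg]
      exact (xEu_z2 hχ.le hs.1 l).trans_lt xEu_q
    exact (((h1.const_sub 1).clog h2).neg.sub h1).differentiableWithinAt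
  · have h0 : -s ≠ 0 := fun e => by
      rw [neg_eq_zero.1 e, Complex.zero_re] at hs
      linarith
    let f : ℕ →*₀ ℂ :=
      { toFun := fun n => χ n * (n : ℂ) ^ (-s)
        map_zero' := by rw [Nat.cast_zero, Complex.zero_cpow h0, mul_zero]
        map_one' := by rw [hχ.one, Nat.cast_one, Complex.one_cpow, mul_one]
        map_mul' := fun a b => by
          rw [hχ.mul, Nat.cast_mul, Complex.natCast_mul_natCast_cpow]
          ring }
    have hf : Summable fun n => ‖f n‖ := by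
      refine Summable.of_nonneg_of_le (fun _ => norm_nonneg _) (fun n => ?_) (sum1_NaPsum hs)
      show ‖χ n * (n : ℂ) ^ (-s)‖ ≤ _
      rw [norm_mul, Complex.norm_natCast_cpow_of_re_ne_zero _ (by rw [Complex.neg_re]; linarith),
        Complex.neg_re]
      exact mul_le_of_le_one_left (by positivity) (hχ.le n)
    have h1 := EulerProduct.exp_tsum_primes_log_eq_tsum hf
    have h2 : ∑' p : Nat.Primes, -Complex.log (1 - f p) =
        ∑' l : ℕ, -Complex.log (1 - χ l * pw s l) := by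
      have h2 := tsum_subtype_eq_of_support_subset (s := {l : ℕ | l.Prime})
        (f := fun l : ℕ => -Complex.log (1 - χ l * pw s l)) fun l hl => by
          by_contra e
          exact hl (by
            simp only [pw, if_neg (show ¬ l.Prime from e), mul_zero, sub_zero, Complex.log_one,
              neg_zero])
      rw [← h2]
      refine tsum_congr fun p => ?_
      rw [pw, if_pos p.2]
      rfl
    have h3 : Summable fun l : ℕ => χ l * pw s l :=
      Summable.of_norm_bounded (sum1_NaPsum hs) (xEu_z hχ.le le_rfl)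
    have h4 : Summable fun l : ℕ => -Complex.log (1 - χ l * pw s l) - χ l * pw s l :=
      Summable.of_norm_bounded hu (xEu_r hχ.le (by linarith))
    rw [Pc, ← h3.tsum_add h4]
    simp only [add_sub_cancel]
    rw [← h2, h1]
    rfl

end Pool.Agent.MP_e23604_nt.TN

end
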