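import Pool.Agent.Mg.Fe23604m.G9b4e87
import Pool.Agent.Mg.Fe23604m.G937cae

set_option linter.all false

section

namespace Pool.Agent.MP_e23604_nt.TN

open NumberField Finset Filter
open MP_f68ac8_nt MP_f68ac8_nt.Nd
open T (P0 rh lm9)
open scoped Topology BigOperators

theorem xLw_ev {a : ℝ} (a0 : 0 < a) : ∀ᶠ T : ℝ in atTop, Real.log T ^ 3 ≤ T ^ a := by
  filter_upwards [(isLittleO_log_rpow_rpow_atTop 3 a0).bound one_pos, eventually_ge_atTop 1]
    with T h t1
  rw [one_mul, Real.norm_of_nonneg (Real.rpow_nonneg (Real.log_nonneg t1) _),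
    Real.norm_of_nonneg (Real.rpow_nonneg (by linarith) _)] at h
  exact_mod_cast h

theorem xLw_sum {s : Finset ℕ} {f : ℕ → ℝ} {B : ℝ} (hB : 0 ≤ B) (h1 : ∀ j, f j ≤ B)
    (h2 : ∀ i j, i < j → f i ≠ 0 → f j ≠ 0 → False) : ∑ j ∈ s, f j ≤ B := by
  by_cases h : ∃ j ∈ s, f j ≠ 0
  · obtain ⟨j, hj, h0⟩ := h
    rw [sum_eq_single j (fun i _ hi => by_contra fun e => (lt_or_gt_of_ne hi).elim
      (fun x => h2 i j x e h0) fun x => h2 j i x h0 e) fun e => absurd hj e]
    exact h1 j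
  · push Not at h
    rwa [sum_eq_zero h]

theorem lwT (hW : WlT) : LwT := by
  intro J k r a hJ a0 ha
  have J0 : (0 : ℝ) < J := by exact_mod_cast hJ
  have hl : Tendsto (fun X : ℕ => Real.log X) atTop atTop :=
    Real.tendsto_log_atTop.comp tendsto_natCast_atTop_atTop
  filter_upwards [hl.eventually_ge_atTop 1, hl.eventually (xLw_ev a0)] with X t1 l4 _ _ l hp
  have t0 : 0 < Real.log X := by linarith
  have mono : ∀ {x y : ℝ}, x ≤ y → tp X x ≤ tp X y := fun h =>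
    Real.rpow_le_rpow_of_exponent_le t1 h
  have a4 : 4 * a ≤ 1 / J := by
    rw [le_div_iff₀ J0]
    nlinarith [mul_pos J0 a0]
  have s0 : 0 ≤ (l : ℝ) ^ (-sX X) := Real.rpow_nonneg (Nat.cast_nonneg l) _
  have hd : ∀ j : ℕ, 0 ≤ dw X J k a j l ∧ dw X J k a j l ≤ (l : ℝ) ^ (-sX X) := fun j => by
    obtain ⟨w1, w2, w3, -⟩ := hW (sX X) (tp X (-(j / J + 2 * a))) (tp X (-((j + 1) / J - 2 * a)))
      k l (Real.rpow_pos_of_pos t0 _) (mono (by rw [add_div]; linarith)) hp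
    exact ⟨sub_nonneg.2 w2, (sub_le_self _ w1).trans w3⟩
  have hb : ∀ j : ℕ, 0 ≤ bw X J k a j l ∧ bw X J k a j l ≤ (l : ℝ) ^ (-sX X) := fun j => by
    unfold bw
    split_ifs
    exacts [hd j, ⟨le_rfl, s0⟩]
  have hc : ∀ j : ℕ, bw X J k a j l ≠ 0 →
      tp X (j / J + a) < Real.log l ∧ Real.log l ≤ tp X ((j + 1) / J) := fun j h =>
    by_contra fun e => h (if_neg e)
  have hs : ∑ j ∈ range J, bw X J k a j l ≤ (l : ℝ) ^ (-sX X) := by
    refine xLw_sum s0 (fun j => (hb j).2) fun i j hij h1 h2 => ?_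
    have e : ((i : ℝ) + 1) / J ≤ j / J + a :=
      (div_le_div_of_nonneg_right (by exact_mod_cast hij) J0.le).trans (le_add_of_nonneg_right a0.le)
    exact lt_irrefl _ ((hc j h2).1.trans_le ((hc i h1).2.trans (mono e)))
  have h3 : ∀ j, lw X J k a (j + 2) l = bw X J k a j l := fun j => by
    rw [lw, if_neg (Nat.succ_ne_zero _), if_neg (Nat.succ_ne_zero _),
      if_neg (show j + 2 ≠ 1 by omega), Nat.add_sub_cancel]
    split_ifs with c1
    · refine (by_contra fun e => ?_ : bw X J k a j l = 0).symm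
      exact lt_irrefl _ ((hc j e).1.trans_le (c1.trans (l4.trans
        (mono (le_add_of_nonneg_left (by positivity))))))
    · rfl
  have h01 : (lw X J k a 0 l = (l : ℝ) ^ (-sX X) ∧ lw X J k a 1 l = 0 ∧
      ∀ j, lw X J k a (j + 2) l = 0) ∨ (lw X J k a 0 l = 0 ∧
      lw X J k a 1 l = (l : ℝ) ^ (-sX X) - ∑ j ∈ range J, bw X J k a j l) := by
    by_cases c : Real.log l ≤ LL X ^ 3
    · exact Or.inl ⟨by simp [lw, c], by simp [lw, c], fun j => by simp [lw, c]⟩
    · exact Or.inr ⟨by simp [lw, c], by simp [lw, c]⟩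
  have hs0 : 0 ≤ ∑ j ∈ range J, bw X J k a j l := sum_nonneg fun j _ => (hb j).1
  refine ⟨fun i _ => ?_, ?_, h3⟩
  · match i with
    | 0 => rcases h01 with ⟨e, -⟩ | ⟨e, -⟩ <;> rw [e] <;> constructor <;> linarith
    | 1 => rcases h01 with ⟨-, e, -⟩ | ⟨-, e⟩ <;> rw [e] <;> constructor <;> linarith
    | j + 2 =>
      rw [h3]
      exact hb j
  · rw [sum_range_succ', sum_range_succ']
    rcases h01 with ⟨e0, e1, e2⟩ | ⟨e0, e1⟩
    · simp only [zero_add, add_assoc, Nat.reduceAdd, e0, e1, e2, sum_const_zero]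
    · simp only [zero_add, add_assoc, Nat.reduceAdd, e0, e1, h3]
      ring

end Pool.Agent.MP_e23604_nt.TN

end

section

namespace Pool.Agent.MP_e23604_nt.TN

open NumberField Finset Filter
open MP_f68ac8_nt MP_f68ac8_nt.Nd
open T (P0 rh lm9)
open scoped Topology BigOperators

theorem xOneA_ev {a : ℝ} (a0 : 0 < a) : ∀ᶠ T : ℝ in atTop, Real.log T ^ 3 ≤ T ^ a := by
  filter_upwards [(isLittleO_log_rpow_rpow_atTop 3 a0).bound one_pos, eventually_ge_atTop 1]
    with T h t1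
  rw [one_mul, Real.norm_of_nonneg (Real.rpow_nonneg (Real.log_nonneg t1) _),
    Real.norm_of_nonneg (Real.rpow_nonneg (by linarith) _)] at h
  exact_mod_cast h

theorem xOneA_key {X J k : ℕ} {a U V : ℝ} {E : Finset ℕ} {m : Mk J} (hX : (1 : ℝ) < X)
    (hV : V ≤ Real.log X) (h0 : ∀ l, 0 ≤ WW X J k a E m l)
    (h1 : ∀ l : ℕ, U < Real.log l → Real.log l ≤ V → lw X J k a m.1.val l = (l : ℝ) ^ (-sX X))
    (h2 : 3 ≤ ∑ l ∈ seg E m.2 U V, (1 : ℝ) / l) : 1 ≤ TN.ms (Lam X E) (WW X J k a E) m := by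
  have h3 : ∀ l ∈ seg E m.2 U V, (l : ℝ) ≤ X ∧ l ∈ Lam X E := fun l hl => by
    obtain ⟨b1, -, -, b2, b3⟩ := mem_seg.1 hl
    have b4 : (l : ℝ) ≤ X :=
      (Real.log_le_log_iff (Nat.cast_pos.2 b1.pos) (by linarith)).1 (b2.trans hV)
    exact ⟨b4, mem_filter.2 ⟨mem_range.2 (Nat.lt_succ_of_le (by exact_mod_cast b4)), b1, b3⟩⟩
  have h4 := mass_NeMlo (Lam X E) (seg E m.2 U V) (WW X J k a E m) (1 / 3)
    (fun l hl => (h3 l hl).2) (fun l _ => h0 l) fun l hl => by
      obtain ⟨b1, b2, b3, b4, -⟩ := mem_seg.1 hl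
      have b5 := rpow_lb_NeMlo (l := l) (by exact_mod_cast b1.one_le) (h3 l hl).1 hX
      rw [WW, if_pos ⟨(h3 l hl).2, b2⟩, h1 l b3 b4, sX]
      linarith
  unfold TN.ms
  linarith

theorem oneA (hS : SegT) (hW : WgT) : OneA := by
  obtain ⟨C, -, hS⟩ := hS
  intro J k r a hJ a0 ha
  have J1 : (1 : ℝ) ≤ J := by exact_mod_cast hJ
  have a1 : a ≤ 1 := by nlinarith
  have hl : Tendsto (fun X : ℕ => Real.log X) atTop atTop :=
    Real.tendsto_log_atTop.comp tendsto_natCast_atTop_atTop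
  have hL := LL_tendsto_NeMlo
  filter_upwards [hW J k r a hJ a0 ha, eventually_gt_atTop 1, hl.eventually_ge_atTop 1,
    hL.eventually_ge_atTop 1, hL.eventually_ge_atTop (4 * (3 + C + r) / a),
    (Real.tendsto_log_atTop.comp hL).eventually_ge_atTop (2 * (3 + C + r)),
    hl.eventually (xOneA_ev (half_pos a0))] with X hW x1 t1 l1 l2 l3 l4
  intro E hE m hm
  have x2 : (1 : ℝ) < X := by exact_mod_cast x1
  have e1 : (E.card : ℝ) ≤ r := by exact_mod_cast hE
  have t0 : 0 < Real.log X := by linarith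
  have L3 : LL X ≤ LL X ^ 3 := le_self_pow₀ l1 three_ne_zero
  have w0 := fun l => ((hW E hE).1 m l).1
  rcases (show m.1.val = 0 ∨ m.1.val = 1 by omega) with h | h
  · refine xOneA_key (U := 1) (V := LL X) x2 (Real.log_le_self t0.le) w0
      (fun l _ b => by rw [lw, if_pos (b.trans L3), if_pos h]) ?_
    have h1 := (abs_le.1 (hS E m.2 1 (LL X) le_rfl l1)).1
    rw [Real.log_one] at h1
    simp only [Function.comp] at l3
    linarith
  · have l5 : LL X ^ 3 ≤ tp X (a / 2) := l4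
    have mono : ∀ {x y : ℝ}, x ≤ y → tp X x ≤ tp X y := fun h =>
      Real.rpow_le_rpow_of_exponent_le t1 h
    refine xOneA_key (U := LL X ^ 3) (V := tp X a) x2
      ((mono a1).trans_eq (Real.rpow_one _)) w0 (fun l b b' => ?_) ?_
    · rw [lw, if_neg (not_le.2 b), if_neg (by omega), if_pos h, sum_eq_zero, sub_zero]
      intro j _
      exact if_neg fun e => absurd (e.1.trans_le (b'.trans
        (mono (le_add_of_nonneg_left (by positivity))))) (lt_irrefl _)
    · have h1 := (abs_le.1 (hS E m.2 (LL X ^ 3) (tp X a) (l1.trans L3)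
        (l5.trans (mono (half_le_self a0.le))))).1
      have h2 := Real.log_le_log (by positivity) l5
      have h3 : ∀ x, Real.log (tp X x) = x * LL X := fun x => Real.log_rpow t0 x
      rw [h3] at h1 h2
      rw [div_le_iff₀ a0] at l2
      linarith

end Pool.Agent.MP_e23604_nt.TN

end
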