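import Pool.Agent.Mg.Fe23604m.G8b9089
import Pool.Agent.Mg.Fe23604m.G7e8617
import Pool.Agent.Mg.Fe23604m.Gd2cab3
import Pool.Agent.Mg.Fe23604m.G348585
import Pool.Agent.Mg.Fe23604m.G09b783
import Pool.Agent.Mg.Fe23604m.Gbbe685
import Pool.Agent.Mg.Fe23604m.Gb1b40e
import Pool.Agent.Mg.Fe23604m.G2e095e
import Pool.Agent.Mg.Fe23604m.G59e30f
import Pool.Agent.Mg.Fe23604m.Gf11282
import Pool.Agent.Mg.Fe23604m.G89ddca
import Pool.Agent.Mg.Fe23604m.Geb0362
import Pool.Agent.Mg.Fe23604m.Gc863c3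
import Pool.Agent.Mg.Fe23604m.Gb53895
import Pool.Agent.Mg.Fe23604m.Gfd2ba4
import Pool.Agent.Mg.Fe23604m.Gc4bf87
import Pool.Agent.Mg.Fe23604m.Gae0fb3
import Pool.Agent.Mg.Fe23604m.G0d1e78
import Pool.Agent.Mg.Fe23604m.Gbee0b1
import Pool.Agent.Mg.Fe23604m.G235363
import Pool.Agent.Mg.Fe23604m.G318bc4
import Pool.Agent.Mg.Fe23604m.Ga53936

set_option linter.all false

/-! The passage from estimates for tuples to natural density. -/

namespace Pool.Agent.MP_e23604_nt.TN

open MP_f68ac8_nt MP_f68ac8_nt.Nd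

theorem densT : T.DensT := by
  have hC := cont_all
  have hL := loc_stmt hC eul_stmtB landau_stmt
  have hW := win_stmt hC eul_stmtB psum_stmt fd_stmt (free_stmt eul_stmtB hL)
  obtain ⟨z, -, -, -, b1, m3, -⟩ := ana_all 3
  obtain ⟨-, -, -, -, -, m2, -⟩ := ana_all 2
  have sg := segT m3 m2
  have bg := bandG wlT psum_stmt mert_stmt
  have sk := selK discP countP (exc_stmt hC) (dichT psum_stmt (oneT eul_stmtB hL) discP countP)
    (grpP 3) z
  have de := derT psum_stmt
  have wd := winD conT euT (freeD (locD landau_stmt psum_stmt) de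
    (prT (one_stmt eul_stmtB hL) psum_stmt)) de psum_stmt fd_stmt
  have bi := bilT (bilU (bilA lsT) (bilB kumT b1) (chrT logT perT))
    (bilJ 3 mert_stmt (wdJ 3 discP countP) (kumJ 3 (by norm_num) (locJ 3)) b1)
  have wg := wgT (lwT wlT)
  have ma := masT sg
  have df := defT wlT mert_stmt
  have ok := okT (eqT sk (bandT (cutT (chebP psum_stmt hW discP countP artinP) z) bg z) numT)
    (diT (bandD wd bg psum_stmt) (dirC logT perT) numT) (kmT kumT z) bi wg (oneA sg wg)
    (oneB wg ma df)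
  exact densT' ker_stmt (wnd_stmt ker_stmt) (poisT tupN (ptT tupN) levT) (typT tupN)
    (regT tkT m2) (parT ok wg ma df mert_stmt)

end Pool.Agent.MP_e23604_nt.TN
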