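import Pool.Agent.MP_e23604_nt.Curve
import Pool.Agent.MP_e23604_nt.Gal
import Pool.Agent.MP_e23604_nt.Eis

set_option linter.all false

section

/-!
Three-torsion, the map w : E[3] → μ3, the function g and surjectivity of multiplication by 3.
-/

open WeierstrassCurve
open scoped Classical

set_option linter.unusedSectionVars false

noncomputable section

namespace Pool.Agent.MP_e23604_nt

variable {a b : ℚ} {F F' : Type} [Field F] [CharZero F] [Field F'] [CharZero F']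
variable {v₁ v₂ v₃ w₁ w₂ w₃ : F}

def cx : Pts (E3 a b) F → F
  | .zero => 0
  | .some x _ _ => x

def cy : Pts (E3 a b) F → F
  | .zero => 0
  | .some _ y _ => y

lemma cx_pt (h : Good a b) {x y : F} (hxy : On a b x y) : cx (pt a b x y) = x := by
  rw [pt_eq h hxy]; rfl

lemma cy_pt (h : Good a b) {x y : F} (hxy : On a b x y) : cy (pt a b x y) = y := by
  rw [pt_eq h hxy]; rfl

lemma cx_act (f : F →+* F') (P : Pts (E3 a b) F) : cx (act (E3 a b) f P) = f (cx P) := by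
  rcases P with _ | ⟨x, y, hxy⟩
  · exact (map_zero f).symm
  · rfl

lemma cy_act (f : F →+* F') (P : Pts (E3 a b) F) : cy (act (E3 a b) f P) = f (cy P) := by
  rcases P with _ | ⟨x, y, hxy⟩
  · exact (map_zero f).symm
  · rfl

def c₁ (P : Pts (E3 a b) F) : F := -cy P / cx P
def c₂ (P : Pts (E3 a b) F) : F := (cy P + a * cx P + b) / cx P
def c₃ (P : Pts (E3 a b) F) : F := -b / cx P

lemma gg_sum (t : Tr a b v₁ v₂ v₃) (hN : NN v₁ v₂ v₃ ≠ 0) :
    (3 * (gg v₁ v₂ v₃ + gg v₂ v₁ v₃) + a) * NN v₁ v₂ v₃ = a ^ 3 - 27 * b := by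
  have hN' : NN v₂ v₁ v₃ = NN v₁ v₂ v₃ := by unfold NN; ring
  unfold gg
  rw [hN', ← t.sum, ← t.prod]; field_simp; unfold NN; ring

lemma exists_cubic_roots [IsAlgClosed F] (e₁ e₂ e₃ : F) :
    ∃ u₁ u₂ u₃ : F, u₁ + u₂ + u₃ = e₁ ∧ u₁ * u₂ + u₂ * u₃ + u₃ * u₁ = e₂ ∧ u₁ * u₂ * u₃ = e₃ := by
  obtain ⟨u, hu⟩ := IsAlgClosed.exists_root
    (Polynomial.X ^ 3 - Polynomial.C e₁ * Polynomial.X ^ 2 + Polynomial.C e₂ * Polynomial.X
      - Polynomial.C e₃ : Polynomial F) (by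
        have : (Polynomial.X ^ 3 - Polynomial.C e₁ * Polynomial.X ^ 2 + Polynomial.C e₂ *
          Polynomial.X - Polynomial.C e₃ : Polynomial F).degree = 3 := by compute_degree!
        rw [this]; norm_num)
  simp only [Polynomial.IsRoot.def, Polynomial.eval_sub, Polynomial.eval_add, Polynomial.eval_mul,
    Polynomial.eval_pow, Polynomial.eval_X, Polynomial.eval_C] at hu
  obtain ⟨r, hr⟩ := IsAlgClosed.exists_pow_nat_eq ((e₁ - u) ^ 2 - 4 * (e₂ - u * (e₁ - u)))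
    (n := 2) (by norm_num)
  refine ⟨u, (e₁ - u + r) / 2, (e₁ - u - r) / 2, by ring, ?_, ?_⟩
  · linear_combination (-1 / 4 : F) * hr
  · linear_combination (-u / 4) * hr + hu

lemma exists_third_of_not_InT [IsAlgClosed F] (h : Good a b) {P : Pts (E3 a b) F}
    (hP : ¬ InT P) : ∃ R : Pts (E3 a b) F, (3 : ℕ) • R = P := by
  rcases InT_or_V h P with h1 | ⟨v₁, v₂, v₃, t, rfl⟩
  · exact absurd h1 hP
  have h1 := t.ne₁ h
  have h2 := t.ne₂ h
  obtain ⟨g₁, hg₁⟩ := IsAlgClosed.exists_pow_nat_eq (v₁ ^ 2 * v₂) (n := 3) (by norm_num)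
  have g0 : g₁ ≠ 0 := by
    rintro rfl
    exact mul_ne_zero (pow_ne_zero 2 h1) h2 (by rw [← hg₁]; ring)
  obtain ⟨g₂, hg₂⟩ : ∃ g₂, g₁ * g₂ = v₁ * v₂ := ⟨v₁ * v₂ / g₁, by field_simp⟩
  have hg₃ : g₂ ^ 3 = v₁ * v₂ ^ 2 := by
    apply mul_left_cancel₀ (pow_ne_zero 3 g0)
    rw [← mul_pow, hg₂, hg₁]; ring
  have rel : g₁ ^ 3 + g₂ ^ 3 + b = a * (g₁ * g₂) := by
    rw [hg₁, hg₃, hg₂, ← t.sum, ← t.prod]; ring
  have d0 : 3 * (g₁ + g₂) + a ≠ 0 := by
    intro e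
    apply h.MF (F := F)
    linear_combination (-27 : F) * rel + (9 * (g₁ + g₂) ^ 2 - 3 * a * (g₁ + g₂) + a ^ 2
      - 27 * (g₁ * g₂)) * e
  obtain ⟨N, hN⟩ : ∃ N, (3 * (g₁ + g₂) + a) * N = a ^ 3 - 27 * b :=
    ⟨(a ^ 3 - 27 * b) / (3 * (g₁ + g₂) + a), by field_simp⟩
  have N0 : N ≠ 0 := by
    rintro rfl
    exact h.MF (by rw [← hN]; ring)
  obtain ⟨u₁, u₂, u₃, s1, s2, s3⟩ := exists_cubic_roots (a : F) ((a ^ 2 - N) / 3) b
  have r : Tr a b u₁ u₂ u₃ := ⟨s1, s3⟩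
  have eN : NN u₁ u₂ u₃ = N := by
    unfold NN; linear_combination (u₁ + u₂ + u₃ + a) * s1 - 3 * s2
  have hN0 : NN u₁ u₂ u₃ ≠ 0 := eN ▸ N0
  have A := gg_sum r hN0
  rw [eN, ← hN] at A
  have A' : gg u₁ u₂ u₃ + gg u₂ u₁ u₃ = g₁ + g₂ := by
    have := mul_right_cancel₀ N0 A
    linear_combination this / 3
  obtain ⟨o, f⟩ := V_three_of_ne h r hN0
  have hN1 : NN u₂ u₁ u₃ ≠ 0 := by
    have : NN u₂ u₁ u₃ = NN u₁ u₂ u₃ := by unfold NN; ring
    rwa [this]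
  obtain ⟨o', f'⟩ := V_three_of_ne h r.swap hN1
  set G₁ := gg u₁ u₂ u₃
  set G₂ := gg u₂ u₁ u₃
  have G0 : G₁ ^ 3 * (G₁ ^ 3 + G₂ ^ 3 + b - a * (G₁ * G₂)) = 0 := by
    unfold On at o; linear_combination o
  have G0' : G₂ ^ 3 * (G₁ ^ 3 + G₂ ^ 3 + b - a * (G₁ * G₂)) = 0 := by
    unfold On at o'; linear_combination o'
  have rel' : G₁ ^ 3 + G₂ ^ 3 + b = a * (G₁ * G₂) := by
    by_contra hc
    have c1 : G₁ = 0 := by
      rcases mul_eq_zero.1 G0 with e | e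
      · exact pow_eq_zero_iff (by norm_num) |>.1 e
      · exact absurd (sub_eq_zero.1 e) hc
    have c2 : G₂ = 0 := by
      rcases mul_eq_zero.1 G0' with e | e
      · exact pow_eq_zero_iff (by norm_num) |>.1 e
      · exact absurd (sub_eq_zero.1 e) hc
    rw [c1, c2] at f f'
    rw [← neg_V h r, neg_nsmul, f] at f'
    have : T a b F + T a b F = 0 := by
      have e : pt a b (-((0 : F) * 0)) (0 ^ 3) = T a b F := by simp [T]
      rw [e] at f'
      nth_rewrite 1 [← f']; exact neg_add_cancel _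
    rw [T_add_T h, neg_eq_zero] at this
    exact T_ne_zero h this
  have pr : G₁ * G₂ = g₁ * g₂ := by
    apply mul_left_cancel₀ d0
    linear_combination rel - rel' + ((G₁ + G₂) ^ 2 + (G₁ + G₂) * (g₁ + g₂) + (g₁ + g₂) ^ 2
      - 3 * (G₁ * G₂)) * A'
  have : (g₁ - G₁) * (g₁ - G₂) = 0 := by linear_combination pr - g₁ * A'
  rcases mul_eq_zero.1 this with e | e
  · refine ⟨_, f.trans ?_⟩
    rw [pr, ← sub_eq_zero.1 e, hg₁, hg₂, V]
  · refine ⟨_, f'.trans ?_⟩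
    rw [mul_comm G₂, pr, ← sub_eq_zero.1 e, hg₁, hg₂, V]

lemma exists_third [IsAlgClosed F] (h : Good a b) (P : Pts (E3 a b) F) :
    ∃ R : Pts (E3 a b) F, (3 : ℕ) • R = P := by
  by_cases hP : InT P
  · obtain ⟨u₁, u₂, u₃, s1, -, s3⟩ := exists_cubic_roots (a : F) 0 b
    have r : Tr a b u₁ u₂ u₃ := ⟨s1, s3⟩
    have n1 := V_not_InT h r
    have n2 : ¬ InT (P + V a b u₁ u₂) := fun e => n1 (by simpa using e.sub h hP)
    obtain ⟨R₁, e₁⟩ := exists_third_of_not_InT h n1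
    obtain ⟨R₂, e₂⟩ := exists_third_of_not_InT h n2
    exact ⟨R₂ - R₁, by rw [nsmul_sub, e₁, e₂, add_sub_cancel_right]⟩
  · exact exists_third_of_not_InT h hP

end Pool.Agent.MP_e23604_nt

end
end

section

/-!
Local computations over Q_p.
-/

open scoped Classical

set_option linter.unusedSectionVars false

noncomputable section

namespace Pool.Agent.MP_e23604_nt

section ultra

variable {K : Type} [NormedField K] [IsUltrametricDist K]

lemma nadd_le {x y : K} {c : ℝ} (hx : ‖x‖ ≤ c) (hy : ‖y‖ ≤ c) : ‖x + y‖ ≤ c :=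
  (IsUltrametricDist.norm_add_le_max x y).trans (max_le hx hy)

lemma nsub_le {x y : K} {c : ℝ} (hx : ‖x‖ ≤ c) (hy : ‖y‖ ≤ c) : ‖x - y‖ ≤ c := by
  rw [sub_eq_add_neg]; exact nadd_le hx (by rwa [norm_neg])

lemma nadd_lt {x y : K} {c : ℝ} (hx : ‖x‖ < c) (hy : ‖y‖ < c) : ‖x + y‖ < c :=
  (IsUltrametricDist.norm_add_le_max x y).trans_lt (max_lt hx hy)

lemma nsub_lt {x y : K} {c : ℝ} (hx : ‖x‖ < c) (hy : ‖y‖ < c) : ‖x - y‖ < c := by
  rw [sub_eq_add_neg]; exact nadd_lt hx (by rwa [norm_neg])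

lemma norm_eq_one_of_add {t : K} (ht : ‖t + 1‖ < 1) : ‖t‖ = 1 := by
  apply le_antisymm
  · have : t = (t + 1) - 1 := by ring
    rw [this]; exact nsub_le ht.le (by simp)
  · by_contra h
    have : (1 : K) = (t + 1) - t := by ring
    have h2 := nsub_lt ht (not_le.1 h)
    rw [← this] at h2
    simp at h2

lemma norm_root_one {w : K} {n : ℕ} (hn : n ≠ 0) (hw : w ^ n = 1) : ‖w‖ = 1 := by
  have := congrArg norm hw
  rw [norm_pow, norm_one] at this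
  exact (pow_eq_one_iff_of_nonneg (norm_nonneg _) hn).1 this

lemma shape {v₁ v₂ v₃ A B : K} (hs : v₁ + v₂ + v₃ = A) (hp : v₁ * v₂ * v₃ = B) (hA : ‖A‖ ≤ 1)
    (hB : ‖B‖ = 1) : (‖v₁‖ = 1 ∧ ‖v₂‖ = 1 ∧ ‖v₃‖ = 1) ∨
      ∃ (t s : K) (j : ℕ), ‖t + 1‖ < 1 ∧ v₁ ^ 2 * v₂ = B ^ j * t * s ^ 3 := by
  have hn : ‖v₁‖ * ‖v₂‖ * ‖v₃‖ = 1 := by rw [← norm_mul, ← norm_mul, hp, hB]
  have h1 : v₁ ≠ 0 := by rintro rfl; simp at hn
  have h2 : v₂ ≠ 0 := by rintro rfl; simp at hn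
  have h3 : v₃ ≠ 0 := by rintro rfl; simp at hn
  have key : ∀ x y z : K, x + y + z = A → ‖x‖ ≤ 1 → 1 < ‖y‖ → ‖z / y + 1‖ < 1 := by
    intro x y z e hx hy
    have y0 : y ≠ 0 := by rintro rfl; simp at hy; linarith
    have : z / y + 1 = (A - x) / y := by rw [← e]; field_simp; ring
    rw [this, norm_div, div_lt_one (by linarith)]
    exact (nsub_le hA hx).trans_lt hy
  have p1 := norm_pos_iff.2 h1
  have p2 := norm_pos_iff.2 h2
  have p3 := norm_pos_iff.2 h3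
  by_cases c1 : ‖v₃‖ ≤ 1 ∧ 1 < ‖v₁‖
  · exact Or.inr ⟨v₂ / v₁, v₁, 0, key v₃ v₁ v₂ (by rw [← hs]; ring) c1.1 c1.2, by field_simp⟩
  by_cases c2 : ‖v₂‖ ≤ 1 ∧ 1 < ‖v₃‖
  · exact Or.inr ⟨v₁ / v₃, 1, 1, key v₂ v₃ v₁ (by rw [← hs]; ring) c2.1 c2.2, by
      rw [← hp]; field_simp⟩
  by_cases c3 : ‖v₁‖ ≤ 1 ∧ 1 < ‖v₂‖
  · exact Or.inr ⟨v₃ / v₂, v₃⁻¹, 2, key v₁ v₂ v₃ hs c3.1 c3.2, by rw [← hp]; field_simp⟩
  left
  have all : ‖v₁‖ ≤ 1 ∧ ‖v₂‖ ≤ 1 ∧ ‖v₃‖ ≤ 1 := by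
    by_contra hc
    have : 1 < ‖v₁‖ ∧ 1 < ‖v₂‖ ∧ 1 < ‖v₃‖ := by
      rcases le_or_gt ‖v₁‖ 1 with a | a <;> rcases le_or_gt ‖v₂‖ 1 with b | b <;>
        rcases le_or_gt ‖v₃‖ 1 with c | c <;> tauto
    have h12 : 1 < ‖v₁‖ * ‖v₂‖ := by nlinarith [this.1, this.2.1]
    nlinarith [this.2.2]
  obtain ⟨a1, a2, a3⟩ := all
  have h12 : ‖v₁‖ * ‖v₂‖ ≤ 1 := mul_le_one₀ a1 p2.le a2
  have h13 : ‖v₁‖ * ‖v₃‖ ≤ 1 := mul_le_one₀ a1 p3.le a3
  have h23 : ‖v₂‖ * ‖v₃‖ ≤ 1 := mul_le_one₀ a2 p3.le a3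
  refine ⟨le_antisymm a1 ?_, le_antisymm a2 ?_, le_antisymm a3 ?_⟩ <;> nlinarith

end ultra

/-- The local condition satisfied by the image of a Selmer element in Q^*/Q^*3. -/
def LocOK (a b : ℚ) (p : ℕ) [Fact p.Prime] (d : ℚ) : Prop :=
  ∃ (e : ℕ) (v₁ v₂ v₃ z : ℚ_[p]), (e = 1 ∨ e = 2) ∧ Tr a b v₁ v₂ v₃ ∧ z ≠ 0 ∧
    v₁ ^ 2 * v₂ = (d : ℚ_[p]) ^ e * z ^ 3

variable {p : ℕ} [Fact p.Prime]

lemma norm_int_eq_one {b : ℤ} (hb : ¬ (p : ℤ) ∣ b) : ‖(b : ℚ_[p])‖ = 1 :=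
  le_antisymm (Padic.norm_int_le_one b) (not_lt.1 fun h => hb (Padic.norm_intCast_lt_one_iff.1 h))

lemma val_eq_of_norm_eq {x y : ℚ_[p]} (hx : x ≠ 0) (h : ‖x‖ = ‖y‖) : x.valuation = y.valuation := by
  have hy : y ≠ 0 := by rintro rfl; simp [hx] at h
  have pr : (1 : ℝ) < p := by exact_mod_cast (Fact.out : p.Prime).one_lt
  rw [Padic.norm_eq_zpow_neg_valuation hx, Padic.norm_eq_zpow_neg_valuation hy,
    zpow_right_inj₀ (by linarith) pr.ne'] at h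
  omega

lemma LocOK.val {a b : ℤ} (hb : ¬ (p : ℤ) ∣ b) {d : ℚ} (hd : d ≠ 0) (h : LocOK a b p d) :
    (3 : ℤ) ∣ padicValRat p d := by
  obtain ⟨e, v₁, v₂, v₃, z, he, t, hz, h⟩ := h
  have hs := t.sum
  have hp := t.prod
  rw [Rat.cast_intCast] at hs hp
  have d0 : (d : ℚ_[p]) ≠ 0 := by exact_mod_cast hd
  obtain ⟨s, hs⟩ : ∃ s : ℚ_[p], ‖(d : ℚ_[p]) ^ e * z ^ 3‖ = ‖s ^ 3‖ := by
    rw [← h]
    rcases shape hs hp (Padic.norm_int_le_one a) (norm_int_eq_one hb) with ⟨a1, a2, -⟩ |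
      ⟨t, s, j, ht, e⟩
    · exact ⟨1, by simp [a1, a2]⟩
    · exact ⟨s, by rw [e]; simp [norm_int_eq_one hb, norm_eq_one_of_add ht]⟩
  have := val_eq_of_norm_eq (mul_ne_zero (pow_ne_zero _ d0) (pow_ne_zero _ hz)) hs
  rw [Padic.valuation_mul (pow_ne_zero _ d0) (pow_ne_zero _ hz), Padic.valuation_pow,
    Padic.valuation_pow, Padic.valuation_pow, Padic.valuation_ratCast] at this
  rcases he with rfl | rfl <;> push_cast at this <;> omega

section resolvent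

variable {k : Type} [CommRing k] {w u₁ u₂ u₃ : k}

def al (w u₁ u₂ u₃ : k) : k := u₁ + w * u₂ + w ^ 2 * u₃
def be (w u₁ u₂ u₃ : k) : k := u₁ + w ^ 2 * u₂ + w * u₃

lemma res1 (hw : w ^ 2 + w + 1 = 0) :
    3 * u₁ = (u₁ + u₂ + u₃) + al w u₁ u₂ u₃ + be w u₁ u₂ u₃ := by
  unfold al be; linear_combination (-u₂ - u₃) * hw

lemma res2 (hw : w ^ 2 + w + 1 = 0) :
    3 * u₂ = (u₁ + u₂ + u₃) + w ^ 2 * al w u₁ u₂ u₃ + w * be w u₁ u₂ u₃ := by
  unfold al be; linear_combination (-u₁ + 2 * u₂ - 2 * u₂ * w - u₃ + u₃ * w - u₃ * w ^ 2) * hw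

lemma res3 (hw : w ^ 2 + w + 1 = 0) :
    3 * u₃ = (u₁ + u₂ + u₃) + w * al w u₁ u₂ u₃ + w ^ 2 * be w u₁ u₂ u₃ := by
  unfold al be; linear_combination (-u₁ - u₂ + u₂ * w - u₂ * w ^ 2 + 2 * u₃ - 2 * u₃ * w) * hw

lemma res_rel (hw : w ^ 2 + w + 1 = 0) :
    al w u₁ u₂ u₃ ^ 3 + be w u₁ u₂ u₃ ^ 3 + ((u₁ + u₂ + u₃) ^ 3 - 27 * (u₁ * u₂ * u₃))
      = 3 * (u₁ + u₂ + u₃) * (al w u₁ u₂ u₃ * be w u₁ u₂ u₃) := by
  have : (3 * u₁) * (3 * u₂) * (3 * u₃) = (u₁ + u₂ + u₃) ^ 3 + al w u₁ u₂ u₃ ^ 3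
      + be w u₁ u₂ u₃ ^ 3 - 3 * (u₁ + u₂ + u₃) * (al w u₁ u₂ u₃ * be w u₁ u₂ u₃) := by
    rw [res1 hw (u₂ := u₂) (u₃ := u₃), res2 hw (u₁ := u₁) (u₃ := u₃),
      res3 hw (u₁ := u₁) (u₂ := u₂)]
    generalize u₁ + u₂ + u₃ = s
    generalize al w u₁ u₂ u₃ = α
    generalize be w u₁ u₂ u₃ = β
    linear_combination (-s * w * α * β + s * w * α ^ 2 + s * w * β ^ 2 + s * w ^ 2 * α * β
      + 3 * s * α * β + s ^ 2 * α + s ^ 2 * β + w * α ^ 3 + w * β ^ 3 + w ^ 2 * α * β ^ 2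
      + w ^ 2 * α ^ 2 * β - α ^ 3 - β ^ 3) * hw
  linear_combination -this

lemma al_rot (hw : w ^ 2 + w + 1 = 0) : al w u₃ u₁ u₂ = w * al w u₁ u₂ u₃ := by
  unfold al; linear_combination (u₃ - u₃ * w) * hw

lemma be_rot (hw : w ^ 2 + w + 1 = 0) : be w u₃ u₁ u₂ = w ^ 2 * be w u₁ u₂ u₃ := by
  unfold be; linear_combination (u₂ * w - u₂ * w ^ 2 + u₃ - u₃ * w) * hw

lemma al_rot2 (hw : w ^ 2 + w + 1 = 0) : al w u₂ u₃ u₁ = w ^ 2 * al w u₁ u₂ u₃ := by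
  unfold al; linear_combination (u₂ - u₂ * w + u₃ * w - u₃ * w ^ 2) * hw

lemma be_rot2 (hw : w ^ 2 + w + 1 = 0) : be w u₂ u₃ u₁ = w * be w u₁ u₂ u₃ := by
  unfold be; linear_combination (u₂ - u₂ * w) * hw

end resolvent

lemma cube_of_node {k : Type} [Field k] {w u₁ u₂ u₃ : k} (hw : w ^ 2 + w + 1 = 0)
    (h3 : (3 : k) ≠ 0)
    (hM : (u₁ + u₂ + u₃) ^ 3 - 27 * (u₁ * u₂ * u₃) = 0) : ∃ x, u₁ ^ 2 * u₂ = x ^ 3 := by
  have e1 := res1 (u₁ := u₁) (u₂ := u₂) (u₃ := u₃) hw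
  have e2 := res2 (u₁ := u₁) (u₂ := u₂) (u₃ := u₃) hw
  have rel := res_rel (u₁ := u₁) (u₂ := u₂) (u₃ := u₃) hw
  rw [hM, add_zero] at rel
  generalize al w u₁ u₂ u₃ = α at *
  generalize be w u₁ u₂ u₃ = β at *
  by_cases h0 : α * β = 0
  · have : α = 0 ∧ β = 0 := by
      rw [h0, mul_zero] at rel
      rcases mul_eq_zero.1 h0 with rfl | rfl
      · exact ⟨rfl, pow_eq_zero_iff (n := 3) (by norm_num) |>.1 (by simpa using rel)⟩
      · exact ⟨pow_eq_zero_iff (n := 3) (by norm_num) |>.1 (by simpa using rel), rfl⟩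
    obtain ⟨rfl, rfl⟩ := this
    have : u₂ = u₁ := mul_left_cancel₀ h3 (by linear_combination e2 - e1)
    exact ⟨u₁, by rw [this]; ring⟩
  · have c1 : (α + β) ^ 3 = 9 * (α * β) * u₁ := by
      linear_combination rel - 3 * α * β * e1
    have c2 : (w ^ 2 * α + w * β) ^ 3 = 9 * (α * β) * u₂ := by
      linear_combination rel - 3 * α * β * e2 + (-3 * w * α * β ^ 2 + w * α ^ 3 + w * β ^ 3
        + 3 * w ^ 2 * α * β ^ 2 - 3 * w ^ 2 * α ^ 2 * β + 3 * w ^ 3 * α ^ 2 * β - w ^ 3 * α ^ 3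
        + w ^ 4 * α ^ 3 - α ^ 3 - β ^ 3) * hw
    have h9 : 9 * (α * β) ≠ 0 := mul_ne_zero (by
      rw [show (9 : k) = 3 * 3 by norm_num]; exact mul_ne_zero h3 h3) h0
    refine ⟨(α + β) ^ 2 * (w ^ 2 * α + w * β) / (9 * (α * β)), ?_⟩
    rw [div_pow, mul_pow, ← pow_mul, mul_comm 2 3, pow_mul, c1, c2, eq_div_iff (pow_ne_zero _ h9)]
    ring

lemma lift_int {x : ℚ_[p]} (hx : ‖x‖ ≤ 1) : ∃ y : ℤ_[p], (y : ℚ_[p]) = x := ⟨⟨x, hx⟩, rfl⟩

lemma toZMod_eq_zero {x : ℤ_[p]} : PadicInt.toZMod x = 0 ↔ ‖(x : ℚ_[p])‖ < 1 := by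
  rw [← RingHom.mem_ker, PadicInt.ker_toZMod, IsLocalRing.mem_maximalIdeal, PadicInt.mem_nonunits]
  rfl

lemma LocOK.cube {a b D : ℤ} (hb : ¬ (p : ℤ) ∣ b) (hM : (p : ℤ) ∣ a ^ 3 - 27 * b)
    {w : ZMod p} (hw : w ^ 2 + w + 1 = 0) (h3 : (3 : ZMod p) ≠ 0) (hD : ¬ (p : ℤ) ∣ D)
    {r : ℚ} (hr : r ≠ 0) (h : LocOK a b p (D * r ^ 3)) : ∃ x : ZMod p, (D : ZMod p) = x ^ 3 := by
  obtain ⟨e, v₁, v₂, v₃, z, he, t, hz, h⟩ := h
  have hs := t.sum
  have hp := t.prod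
  rw [Rat.cast_intCast] at hs hp
  have r0 : (r : ℚ_[p]) ≠ 0 := by exact_mod_cast hr
  have D0 : (D : ZMod p) ≠ 0 := by rwa [Ne, ZMod.intCast_zmod_eq_zero_iff_dvd]
  have nD := norm_int_eq_one hD
  have nb := norm_int_eq_one hb
  suffices ∃ x : ZMod p, (D : ZMod p) ^ e = x ^ 3 by
    obtain ⟨x, hx⟩ := this
    rcases he with rfl | rfl
    · exact ⟨x, by simpa using hx⟩
    · have x0 : x ≠ 0 := by rintro rfl; simp [D0] at hx
      exact ⟨D / x, by rw [div_pow, ← hx]; field_simp⟩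
  have hM' : (a : ZMod p) ^ 3 - 27 * b = 0 := by
    have := (ZMod.intCast_zmod_eq_zero_iff_dvd _ p).2 hM
    push_cast at this
    exact this
  obtain ⟨W, hW⟩ : ∃ W : ℚ_[p], (D : ℚ_[p]) ^ e = v₁ ^ 2 * v₂ * W ^ 3 := by
    refine ⟨((r : ℚ_[p]) ^ e * z)⁻¹, ?_⟩
    rw [h]; push_cast; field_simp; ring
  rcases shape hs hp (Padic.norm_int_le_one a) nb with ⟨a1, a2, a3⟩ | ⟨t, s, j, ht, e'⟩
  · have nW : ‖W‖ = 1 := by
      have := congrArg norm hW
      simp only [norm_mul, norm_pow, nD, a1, a2, one_pow, one_mul] at this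
      exact (pow_eq_one_iff_of_nonneg (norm_nonneg _) (by norm_num)).1 this.symm
    obtain ⟨v₁, rfl⟩ := lift_int a1.le
    obtain ⟨v₂, rfl⟩ := lift_int a2.le
    obtain ⟨v₃, rfl⟩ := lift_int a3.le
    obtain ⟨W, rfl⟩ := lift_int nW.le
    have hs' : v₁ + v₂ + v₃ = a := Subtype.ext (by simpa using hs)
    have hp' : v₁ * v₂ * v₃ = b := Subtype.ext (by simpa using hp)
    have hW' : (D : ℤ_[p]) ^ e = v₁ ^ 2 * v₂ * W ^ 3 := Subtype.ext (by simpa using hW)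
    have hs'' := congrArg PadicInt.toZMod hs'
    have hp'' := congrArg PadicInt.toZMod hp'
    have hW'' := congrArg PadicInt.toZMod hW'
    simp only [map_add, map_mul, map_pow, map_intCast] at hs'' hp'' hW''
    obtain ⟨x, hx⟩ := cube_of_node (u₁ := PadicInt.toZMod v₁) (u₂ := PadicInt.toZMod v₂)
      (u₃ := PadicInt.toZMod v₃) hw h3
      (by rw [hs'', hp'', hM'])
    exact ⟨x * PadicInt.toZMod W, by rw [hW'', hx]; ring⟩
  · have nt := norm_eq_one_of_add ht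
    have hW1 : (D : ℚ_[p]) ^ e = (b : ℚ_[p]) ^ j * t * (s * W) ^ 3 := by rw [hW, e']; ring
    have nW : ‖s * W‖ = 1 := by
      have := congrArg norm hW1
      simp only [norm_mul _ (_ ^ 3), norm_mul _ t, norm_pow, nD, nb, nt, one_pow, one_mul] at this
      exact (pow_eq_one_iff_of_nonneg (norm_nonneg _) (by norm_num)).1 this.symm
    generalize s * W = U at *
    obtain ⟨t, rfl⟩ := lift_int nt.le
    obtain ⟨U, rfl⟩ := lift_int nW.le
    have hW' : (D : ℤ_[p]) ^ e = (b : ℤ_[p]) ^ j * t * U ^ 3 := Subtype.ext (by simpa using hW1)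
    have hW'' := congrArg PadicInt.toZMod hW'
    simp only [map_mul, map_pow, map_intCast] at hW''
    have t1 : PadicInt.toZMod t = -1 := by
      have : PadicInt.toZMod (t + 1) = 0 := by rw [toZMod_eq_zero]; simpa using ht
      rw [map_add, map_one] at this
      exact eq_neg_of_add_eq_zero_left this
    have b1 : (b : ZMod p) = (a / 3) ^ 3 := by
      field_simp; linear_combination -hM'
    exact ⟨-(a / 3) ^ j * PadicInt.toZMod U, by rw [hW'', t1, b1]; ring⟩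

end Pool.Agent.MP_e23604_nt

end
end

section

/-!
Local computations over the algebraic closure of Q_p.
-/

open scoped Classical

set_option linter.unusedSectionVars false

noncomputable section

namespace Pool.Agent.MP_e23604_nt

variable {p : ℕ} [Fact p.Prime]

abbrev Gp (p : ℕ) [Fact p.Prime] : Type := PadicAlgCl p ≃ₐ[ℚ_[p]] PadicAlgCl p

/-- Fixed by every automorphism fixing W. -/
def InK (W u : PadicAlgCl p) : Prop := ∀ σ : Gp p, σ W = W → σ u = u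

/-- The norm is the norm of an element of Q_p. -/
def NZ (u : PadicAlgCl p) : Prop := ∃ y : ℚ_[p], ‖u‖ = ‖y‖

variable {W : PadicAlgCl p}

lemma norm_three (hp : p ≠ 3) : ‖(3 : PadicAlgCl p)‖ = 1 := by
  have : (3 : PadicAlgCl p) = algebraMap ℚ_[p] _ ((3 : ℤ) : ℚ_[p]) := by simp [map_ofNat]
  rw [this, PadicAlgCl.norm_extends, norm_int_eq_one]
  intro h
  exact hp ((Nat.prime_dvd_prime_iff_eq Fact.out Nat.prime_three).1 (by exact_mod_cast h))

lemma norm_intL (n : ℤ) : ‖(n : PadicAlgCl p)‖ = ‖(n : ℚ_[p])‖ := by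
  rw [← PadicAlgCl.norm_extends, map_intCast]

lemma norm_W (hW : W ^ 2 + W + 1 = 0) : ‖W‖ = 1 := norm_root_one (by norm_num) (omega_cube hW)

lemma InK.decomp (hp : p ≠ 3) (hW : W ^ 2 + W + 1 = 0) {u : PadicAlgCl p} (hu : InK W u) :
    ∃ c d : ℚ_[p], u = algebraMap _ _ c + algebraMap _ _ d * W ∧ ‖c‖ ≤ ‖u‖ ∧ ‖d‖ ≤ ‖u‖ := by
  by_cases h : ∀ σ : Gp p, σ W = W
  · obtain ⟨c, hc⟩ := (InfiniteGalois.mem_range_algebraMap_iff_fixed (k := ℚ_[p]) u).2
      (fun σ => hu σ (h σ))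
    exact ⟨c, 0, by simp [hc], by rw [← hc, PadicAlgCl.norm_extends], by simp⟩
  · push Not at h
    obtain ⟨ρ, hρ⟩ := h
    obtain ⟨c, d, e, hd⟩ := omega_decomp hW ((gal_omega ρ hW).resolve_left hρ) hu
    have n1 : ‖W - W ^ 2‖ = 1 := by
      have : (W - W ^ 2) ^ 2 = -3 := by linear_combination (W ^ 2 - 3 * W + 3) * hW
      have := congrArg norm this
      rw [norm_pow, norm_neg, norm_three hp] at this
      exact (pow_eq_one_iff_of_nonneg (norm_nonneg _) (by norm_num)).1 this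
    have nd : ‖algebraMap ℚ_[p] (PadicAlgCl p) d‖ ≤ ‖u‖ := by
      rw [hd, norm_div, n1, div_one]
      exact nsub_le le_rfl (norm_gal ρ u).le
    refine ⟨c, d, e, ?_, by rwa [PadicAlgCl.norm_extends] at nd⟩
    have : algebraMap ℚ_[p] (PadicAlgCl p) c = u - algebraMap _ _ d * W := by rw [e]; ring
    rw [← PadicAlgCl.norm_extends, this]
    exact nsub_le le_rfl (by rwa [norm_mul, norm_W hW, mul_one])

lemma InK.nz (hp : p ≠ 3) (hW : W ^ 2 + W + 1 = 0) {u : PadicAlgCl p} (hu : InK W u) : NZ u := by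
  obtain ⟨c, d, e, hc, hd⟩ := hu.decomp hp hW
  have : ‖u‖ ≤ max ‖c‖ ‖d‖ := by
    rw [e]
    refine nadd_le ?_ ?_
    · rw [PadicAlgCl.norm_extends]; exact le_max_left _ _
    · rw [norm_mul, norm_W hW, mul_one, PadicAlgCl.norm_extends]; exact le_max_right _ _
  rcases le_max_iff.1 this with h | h
  · exact ⟨c, le_antisymm h hc⟩
  · exact ⟨d, le_antisymm h hd⟩

lemma NZ.of_eq {u v : PadicAlgCl p} (h : NZ u) (e : ‖v‖ = ‖u‖) : NZ v := by
  obtain ⟨y, hy⟩ := h; exact ⟨y, e.trans hy⟩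

lemma NZ.div {u v : PadicAlgCl p} (h : NZ u) (h' : NZ v) : NZ (u / v) := by
  obtain ⟨y, hy⟩ := h
  obtain ⟨z, hz⟩ := h'
  exact ⟨y / z, by rw [norm_div, norm_div, hy, hz]⟩

lemma NZ.one : NZ (1 : PadicAlgCl p) := ⟨1, by simp⟩

/-- The local point R and the radical θ define the same character. -/
def Compat (a b : ℚ) (W : PadicAlgCl p) (R : Pts (E3 a b) (PadicAlgCl p)) (θ : PadicAlgCl p) :
    Prop := ∀ σ : Gp p, σ W = W →
  (act (E3 a b) (σ : PadicAlgCl p →+* PadicAlgCl p) R = R ∧ σ θ = θ) ∨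
  (act (E3 a b) (σ : PadicAlgCl p →+* PadicAlgCl p) R = R + T a b _ ∧ σ θ = W * θ) ∨
  (act (E3 a b) (σ : PadicAlgCl p →+* PadicAlgCl p) R = R - T a b _ ∧ σ θ = W ^ 2 * θ)

variable {a b : ℚ} {R : Pts (E3 a b) (PadicAlgCl p)} {θ : PadicAlgCl p}

lemma Compat.cube (hW : W ^ 2 + W + 1 = 0) (hc : Compat a b W R θ) : InK W (θ ^ 3) := by
  intro σ hσ
  have := omega_cube hW
  rw [map_pow]
  rcases hc σ hσ with ⟨-, e⟩ | ⟨-, e⟩ | ⟨-, e⟩ <;> rw [e]
  · linear_combination θ ^ 3 * this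
  · linear_combination θ ^ 3 * (W ^ 3 + 1) * this

lemma Compat.split (h : Good a b) (hW : W ^ 2 + W + 1 = 0) (h0 : θ ≠ 0) (hc : Compat a b W R θ) :
    InK W θ ∨ ∃ v₁ v₂ v₃ : PadicAlgCl p, Tr a b v₁ v₂ v₃ ∧ InK W (al W v₁ v₂ v₃ / θ) ∧
      InK W (be W v₁ v₂ v₃ * θ) ∧ (InK W θ ∨ (‖v₁‖ = ‖v₂‖ ∧ ‖v₂‖ = ‖v₃‖)) := by
  have h3 := omega_cube hW
  have W0 : W ≠ 0 := by rintro rfl; simp at hW
  rcases InT_or_V h R with i | ⟨v₁, v₂, v₃, t, rfl⟩
  · left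
    intro σ hσ
    have := i.act_self h (σ : PadicAlgCl p →+* PadicAlgCl p)
    rcases hc σ hσ with ⟨-, e⟩ | ⟨e, -⟩ | ⟨e, -⟩
    · exact e
    · rw [this] at e
      exact absurd (by simpa using e) (T_ne_zero (F := PadicAlgCl p) h)
    · rw [this] at e
      exact absurd (by simpa [eq_sub_iff_add_eq] using e) (T_ne_zero (F := PadicAlgCl p) h)
  right
  have key : ∀ σ : Gp p, σ W = W → (σ v₁ = v₁ ∧ σ v₂ = v₂ ∧ σ v₃ = v₃ ∧ σ θ = θ) ∨
      (σ v₁ = v₃ ∧ σ v₂ = v₁ ∧ σ v₃ = v₂ ∧ σ θ = W * θ) ∨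
      (σ v₁ = v₂ ∧ σ v₂ = v₃ ∧ σ v₃ = v₁ ∧ σ θ = W ^ 2 * θ) := by
    intro σ hσ
    have tm := t.map (σ : PadicAlgCl p →+* PadicAlgCl p)
    rcases hc σ hσ with ⟨e, e'⟩ | ⟨e, e'⟩ | ⟨e, e'⟩
    · rw [act_V h _ t] at e
      obtain ⟨a1, a2, a3⟩ := V_inj h tm t e
      exact Or.inl ⟨a1, a2, a3, e'⟩
    · rw [act_V h _ t, V_add_T h t] at e
      obtain ⟨a1, a2, a3⟩ := V_inj h tm t.rot e
      exact Or.inr (Or.inl ⟨a1, a2, a3, e'⟩)
    · rw [act_V h _ t, V_sub_T h t] at e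
      obtain ⟨a1, a2, a3⟩ := V_inj h tm t.rot.rot e
      exact Or.inr (Or.inr ⟨a1, a2, a3, e'⟩)
  have ma : ∀ σ : Gp p, σ W = W → σ (al W v₁ v₂ v₃) = al W (σ v₁) (σ v₂) (σ v₃) := by
    intro σ hσ; simp [al, hσ]
  have mb : ∀ σ : Gp p, σ W = W → σ (be W v₁ v₂ v₃) = be W (σ v₁) (σ v₂) (σ v₃) := by
    intro σ hσ; simp [be, hσ]
  refine ⟨v₁, v₂, v₃, t, fun σ hσ => ?_, fun σ hσ => ?_, ?_⟩
  · rw [map_div₀, ma σ hσ]
    rcases key σ hσ with ⟨a1, a2, a3, a4⟩ | ⟨a1, a2, a3, a4⟩ | ⟨a1, a2, a3, a4⟩ <;>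
      rw [a1, a2, a3, a4]
    · rw [al_rot hW]; field_simp
    · rw [al_rot2 hW]; field_simp
  · rw [map_mul, mb σ hσ]
    rcases key σ hσ with ⟨a1, a2, a3, a4⟩ | ⟨a1, a2, a3, a4⟩ | ⟨a1, a2, a3, a4⟩ <;>
      rw [a1, a2, a3, a4]
    · rw [be_rot hW]; linear_combination be W v₁ v₂ v₃ * θ * h3
    · rw [be_rot2 hW]; linear_combination be W v₁ v₂ v₃ * θ * h3
  · by_cases hθ : InK W θ
    · exact Or.inl hθ
    right
    unfold InK at hθ
    push Not at hθ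
    obtain ⟨σ, hσ, hne⟩ := hθ
    have n1 := norm_gal σ v₁
    have n2 := norm_gal σ v₂
    rcases key σ hσ with ⟨-, -, -, a4⟩ | ⟨a1, a2, -, -⟩ | ⟨a1, a2, -, -⟩
    · exact absurd a4 hne
    · rw [a1] at n1; rw [a2] at n2; exact ⟨n2, n2.symm.trans n1.symm⟩
    · rw [a1] at n1; rw [a2] at n2; exact ⟨n1.symm, n2.symm⟩

lemma node_norms {K : Type} [NormedField K] [IsUltrametricDist K] {α β M A : K}
    (rel : α ^ 3 + β ^ 3 + M = A * (α * β)) (hA : ‖A‖ ≤ 1) (hM : ‖M‖ = 1) :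
    ‖α‖ = 1 ∨ ‖β‖ = 1 ∨ (‖α‖ = ‖β‖ ∧ α ≠ 0) := by
  have key : ∀ α β : K, α ^ 3 + β ^ 3 + M = A * (α * β) → ‖β‖ < ‖α‖ → ‖α‖ = 1 := by
    intro α β rel hlt
    have p0 := norm_nonneg β
    have p1 : 0 < ‖α‖ := lt_of_le_of_lt p0 hlt
    have hb : ‖β‖ ^ 3 < ‖α‖ ^ 3 := pow_lt_pow_left₀ hlt p0 (by norm_num)
    have hab : ‖A * (α * β)‖ < ‖α‖ ^ 2 := by
      rw [norm_mul, norm_mul]
      have : ‖α‖ * ‖β‖ < ‖α‖ ^ 2 := by nlinarith
      nlinarith [mul_nonneg p1.le p0]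
    rcases lt_trichotomy ‖α‖ 1 with h | h | h
    · exfalso
      have h3 : ‖α‖ ^ 3 < 1 := pow_lt_one₀ p1.le h (by norm_num)
      have h2 : ‖α‖ ^ 2 < 1 := pow_lt_one₀ p1.le h (by norm_num)
      have : M = A * (α * β) - α ^ 3 - β ^ 3 := by linear_combination rel
      have h4 : ‖M‖ < 1 := by
        rw [this]
        exact nsub_lt (nsub_lt (hab.trans h2) (by rwa [norm_pow])) (by rw [norm_pow]; linarith)
      linarith
    · exact h
    · exfalso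
      have h3 : 1 < ‖α‖ ^ 3 := one_lt_pow₀ h (by norm_num)
      have h2 : ‖α‖ ^ 2 < ‖α‖ ^ 3 := pow_lt_pow_right₀ h (by norm_num)
      have : α ^ 3 = A * (α * β) - M - β ^ 3 := by linear_combination rel
      have h4 : ‖α ^ 3‖ < ‖α‖ ^ 3 := by
        rw [this]
        exact nsub_lt (nsub_lt (hab.trans h2) (by rwa [hM])) (by rwa [norm_pow])
      rw [norm_pow] at h4
      exact lt_irrefl _ h4
  rcases lt_trichotomy ‖α‖ ‖β‖ with h | h | h
  · exact Or.inr (Or.inl (key β α (by linear_combination rel) h))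
  · refine Or.inr (Or.inr ⟨h, ?_⟩)
    rintro rfl
    have : β = 0 := by simpa using h.symm
    subst this
    have : M = 0 := by simpa using rel
    rw [this] at hM; simp at hM
  · exact Or.inl (key α β rel h)

/-- Away from 3M the radical has integral valuation. -/
lemma Compat.b1 {a b : ℤ} {R : Pts (E3 a b) (PadicAlgCl p)} (h : Good a b) (hp : p ≠ 3)
    (hM : ¬ (p : ℤ) ∣ a ^ 3 - 27 * b) (hW : W ^ 2 + W + 1 = 0) (h0 : θ ≠ 0)
    (hc : Compat a b W R θ) : NZ θ := by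
  rcases hc.split h hW h0 with i | ⟨v₁, v₂, v₃, t, ha, hb, -⟩
  · exact i.nz hp hW
  have hs := t.sum
  have hpr := t.prod
  rw [Rat.cast_intCast] at hs hpr
  have rel := res_rel (u₁ := v₁) (u₂ := v₂) (u₃ := v₃) hW
  rw [hs, hpr] at rel
  have na := ha.nz hp hW
  have nb := hb.nz hp hW
  have nc := (hc.cube hW).nz hp hW
  have n0 := norm_pos_iff.2 h0
  rcases node_norms rel (by
      rw [norm_mul, norm_three hp, one_mul, norm_intL]; exact Padic.norm_int_le_one a) (by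
      rw [← norm_int_eq_one hM, ← norm_intL]; push_cast; rfl) with e | e | ⟨e, e0⟩
  · exact (NZ.one.div na).of_eq (by simp [e])
  · exact nb.of_eq (by simp [e])
  · have := norm_pos_iff.2 e0
    refine (nc.div (nb.div na)).of_eq ?_
    simp only [norm_div, norm_mul, norm_pow, ← e]
    field_simp

/-- At a prime where the valuation of b is prime to 3 an unramified radical is trivial. -/
lemma Compat.b2 {a b : ℤ} {R : Pts (E3 a b) (PadicAlgCl p)} (h : Good a b) (hp : p ≠ 3)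
    (hb3 : ¬ 3 ∣ padicValInt p b) (hW : W ^ 2 + W + 1 = 0) (h1 : ‖θ‖ = 1)
    (hc : Compat a b W R θ) : InK W θ := by
  have h0 : θ ≠ 0 := by rintro rfl; simp at h1
  rcases hc.split h hW h0 with i | ⟨v₁, v₂, v₃, t, ha, hb, i | ⟨e1, e2⟩⟩
  · exact i
  · exact i
  exfalso
  have hs := t.sum
  have hpr := t.prod
  rw [Rat.cast_intCast] at hs hpr
  have na : NZ (al W v₁ v₂ v₃) := (ha.nz hp hW).of_eq (by simp [h1])
  have nb : NZ (be W v₁ v₂ v₃) := (hb.nz hp hW).of_eq (by simp [h1])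
  have ns : NZ (v₁ + v₂ + v₃) := ⟨a, by rw [hs, norm_intL]⟩
  have l1 : ‖v₁ + v₂ + v₃‖ ≤ ‖v₁‖ := nadd_le (nadd_le le_rfl e1.ge) (e1.trans e2).ge
  have l2 : ‖al W v₁ v₂ v₃‖ ≤ ‖v₁‖ := nadd_le (nadd_le le_rfl (by simp [norm_W hW, e1]))
    (by simp [norm_W hW, e1, e2])
  have l3 : ‖be W v₁ v₂ v₃‖ ≤ ‖v₁‖ := nadd_le (nadd_le le_rfl (by simp [norm_W hW, e1]))
    (by simp [norm_W hW, e1, e2])
  have l4 : ‖v₁‖ ≤ max (max ‖v₁ + v₂ + v₃‖ ‖al W v₁ v₂ v₃‖) ‖be W v₁ v₂ v₃‖ := by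
    have : ‖v₁‖ = ‖3 * v₁‖ := by rw [norm_mul, norm_three hp, one_mul]
    rw [this, res1 hW (u₂ := v₂) (u₃ := v₃)]
    exact nadd_le ((IsUltrametricDist.norm_add_le_max _ _).trans (le_max_left _ _))
      (le_max_right _ _)
  obtain ⟨y, hy⟩ : NZ v₁ := by
    rcases le_max_iff.1 l4 with l | l
    · rcases le_max_iff.1 l with l | l
      · exact ns.of_eq (le_antisymm l l1)
      · exact na.of_eq (le_antisymm l l2)
    · exact nb.of_eq (le_antisymm l l3)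
  have b0 : (b : ℚ_[p]) ≠ 0 := by exact_mod_cast h.hb
  have : ‖(b : ℚ_[p])‖ = ‖y ^ 3‖ := by
    rw [← norm_intL, ← hpr, norm_mul, norm_mul, ← e2, ← e1, norm_pow, hy]; ring
  have := val_eq_of_norm_eq b0 this
  rw [Padic.valuation_pow, Padic.valuation_intCast] at this
  omega

end Pool.Agent.MP_e23604_nt

end
end

section

/-!
Cubic characters, Gauss sums and reduction modulo a prime above p.
-/

open scoped Classical
open QuadraticAlgebra

set_option linter.unusedSectionVars false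

noncomputable section

namespace Pool.Agent.MP_e23604_nt

abbrev Ob : Type := integralClosure ℤ Qb

lemma exists_prim (n : ℕ) [NeZero n] : ∃ ζ : Ob, IsPrimitiveRoot ζ n := by
  obtain ⟨ζ, hζ⟩ := HasEnoughRootsOfUnity.exists_primitiveRoot Qb n
  exact ⟨⟨ζ, hζ.isIntegral (NeZero.pos n)⟩, IsPrimitiveRoot.coe_submonoidClass_iff.1 hζ⟩

def z9 : Ob := (exists_prim 9).choose

def om : Ob := z9 ^ 3

lemma om_prim : IsPrimitiveRoot om 3 := (exists_prim 9).choose_spec.pow (by norm_num) rfl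

lemma om_rel : om ^ 2 + om + 1 = 0 := by
  have := om_prim.geom_sum_eq_zero (by norm_num)
  simp only [Finset.sum_range_succ, Finset.range_zero, Finset.sum_empty] at this
  linear_combination this

/-- The embedding of the Eisenstein integers. -/
def io : Zw →+* Ob := (QuadraticAlgebra.lift ⟨om, by
  simp only [neg_smul, one_smul]; linear_combination om_rel⟩ : Zw →ₐ[ℤ] Ob).toRingHom

lemma io_apply (z : Zw) : io z = z.re + z.im * om := by
  change z.re • (1 : Ob) + z.im • om = _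
  simp

lemma io_omega : io ω = om := by simp [io_apply]

lemma io_star (z : Zw) : io (star z) = z.re + z.im * om ^ 2 := by
  rw [io_apply]; simp; linear_combination (-z.im : Ob) * om_rel

lemma io_inj : Function.Injective io := by
  rw [injective_iff_map_eq_zero]
  intro z hz
  have := congrArg io (mul_star_eq z)
  rw [map_mul, hz, zero_mul, map_intCast] at this
  exact nw_eq_zero (by exact_mod_cast this.symm)

lemma omega_prim : IsPrimitiveRoot (ω : Zw) 3 :=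
  IsPrimitiveRoot.of_map_of_injective (f := io) (io_omega ▸ om_prim) io_inj

lemma gaussSum_map {F R R' : Type} [CommRing F] [Fintype F] [CommRing R] [CommRing R']
    (χ : MulChar F R) (ψ : AddChar F R) (f : R →+* R') :
    f (gaussSum χ ψ) = gaussSum (χ.ringHomComp f) (f.toMonoidHom.compAddChar ψ) := by
  simp [gaussSum]

lemma exists_gauss (p : ℕ) [Fact p.Prime] (h : p % 3 = 1) :
    ∃ (χ : MulChar (ZMod p) Zw) (π : Zw) (τ : Ob), orderOf χ = 3 ∧ nw π = p ∧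
      τ ^ 3 = p * io π ∧ (∃ τ', τ * τ' = p) ∧
      ∀ (q : ℕ) [Fact q.Prime] (k : Type) [Field k] [CharP k q] (red : Ob →+* k), q ≠ p → q ≠ 3 →
        red (io (χ ((q : ZMod p) ^ 2))) * red τ ^ (q ^ 2) = red τ := by
  obtain ⟨χ, hχ⟩ := MulChar.exists_mulChar_orderOf (ZMod p) (n := 3)
    (by rw [ZMod.card]; omega) omega_prim
  have : NeZero p := ⟨(Fact.out : p.Prime).ne_zero⟩
  obtain ⟨ζ, hζ⟩ := exists_prim p
  have hψ := AddChar.zmodChar_primitive_of_primitive_root p hζ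
  set ψ := AddChar.zmodChar p ((IsPrimitiveRoot.iff_def ζ p).mp hζ).left
  have h3 : χ ^ 3 = 1 := hχ ▸ pow_orderOf_eq_one χ
  have hne : ∀ n : ℕ, n % 3 ≠ 0 → χ ^ n ≠ 1 := fun n hn e => by
    have := orderOf_dvd_of_pow_eq_one e
    rw [hχ] at this
    omega
  have hstar : χ.ringHomComp (starRingEnd Zw) = χ⁻¹ := by
    rw [show χ⁻¹ = χ ^ 2 from (eq_inv_of_mul_eq_one_left (by rw [← pow_succ, h3])).symm]
    ext1 a
    obtain ⟨k, hk, e⟩ := MulChar.exists_apply_eq_pow h3 omega_prim a.ne_zero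
    rw [MulChar.ringHomComp_apply, MulChar.pow_apply_coe, e]
    interval_cases k <;> decide
  set χ' := χ.ringHomComp io with hχ'
  have o' : orderOf χ' = 3 := by
    rw [← hχ]
    exact orderOf_injective (MulChar.ringHomCompHom io) (MulChar.injective_ringHomComp io_inj) χ
  have n1 : χ' ≠ 1 := by rintro e; rw [e, orderOf_one] at o'; omega
  have m1 : χ' (-1) = 1 := by
    have : χ' (-1) = χ' (-1) ^ 3 := by rw [← map_pow]; norm_num
    rw [this, ← MulChar.pow_apply' _ (by norm_num), ← o', pow_orderOf_eq_one,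
      MulChar.one_apply (isUnit_one.neg)]
  refine ⟨χ, jacobiSum χ χ, gaussSum χ' ψ, hχ, ?_, ?_, ?_, ?_⟩
  · let f : Zw →+* Qb := (integralClosure ℤ Qb).val.toRingHom.comp io
    have finj : Function.Injective f := Subtype.val_injective.comp io_inj
    have n2 : χ.ringHomComp f ≠ 1 := (MulChar.ringHomComp_ne_one_iff finj).2
      (by simpa using hne 1 (by norm_num))
    have := jacobiSum_mul_jacobiSum_inv (F := ZMod p) (F' := Qb) (χ := χ.ringHomComp f)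
      (φ := χ.ringHomComp f) (by
        rw [ringChar.eq_zero, ZMod.ringChar_zmod_n]; exact (NeZero.ne p).symm) n2 n2 (by
        rw [← MulChar.ringHomComp_mul, MulChar.ringHomComp_ne_one_iff finj, ← sq]
        exact hne 2 (by norm_num))
    rw [MulChar.ringHomComp_inv, jacobiSum_ringHomComp, jacobiSum_ringHomComp, ← hstar,
      jacobiSum_ringHomComp, ← map_mul, starRingEnd_apply, mul_star_eq, map_intCast,
      ZMod.card] at this
    exact_mod_cast this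
  · have := gaussSum_pow_eq_prod_jacobiSum (χ := χ') (ψ := ψ) (by omega) hψ
    rw [o', m1, ZMod.card] at this
    rw [this, ← jacobiSum_ringHomComp]
    simp [hχ']
  · exact ⟨_, (gaussSum_mul_gaussSum_eq_card n1 hψ).trans (by rw [ZMod.card])⟩
  · intro q _ k _ _ red hqp hq3
    have hu : IsUnit ((q : ZMod p) ^ 2) := by
      refine IsUnit.pow _ (IsUnit.mk0 _ ?_)
      rw [Ne, ZMod.natCast_eq_zero_iff, Nat.prime_dvd_prime_iff_eq Fact.out Fact.out]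
      exact hqp.symm
    have hq : q % 3 = 1 ∨ q % 3 = 2 := by
      have : ¬ 3 ∣ q := fun e =>
        hq3 ((Nat.prime_dvd_prime_iff_eq Nat.prime_three Fact.out).1 e).symm
      omega
    have hqq : χ' ^ (q * q) = χ' := by
      obtain ⟨m, hm⟩ : ∃ m, q * q = 3 * m + 1 := ⟨q * q / 3, by
        have : q * q % 3 = 1 := by rcases hq with e | e <;> simp [Nat.mul_mod, e]
        omega⟩
      rw [hm, pow_succ, pow_mul, ← o', pow_orderOf_eq_one, one_pow, one_mul]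
    rw [gaussSum_map, sq q, pow_mul, gaussSum_frob, gaussSum_frob, ← pow_mul, ← pow_mul,
      MulChar.ringHomComp_pow, hqq, AddChar.pow_mulShift]
    have := gaussSum_mulShift (χ'.ringHomComp red) (red.toMonoidHom.compAddChar ψ) hu.unit
    rw [hu.unit_spec] at this
    rw [← this]
    simp [hχ', sq]

end Pool.Agent.MP_e23604_nt

end
end

section

/-!
The Selmer group of the isogeny with kernel generated by T.
-/

open scoped Classical
open QuadraticAlgebra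

set_option linter.unusedSectionVars false

noncomputable section

namespace Pool.Agent.MP_e23604_nt

structure GD (l : ℕ) (c : ℤ → Zw) (π : Zw) (τ : Ob) : Prop where
  mul : ∀ m n, c (m * n) = c m * c n
  congr : ∀ m n : ℤ, (m : ZMod l) = n → c m = c n
  cube : ∀ n, ¬ (l : ℤ) ∣ n → c n ^ 3 = 1
  one_iff : ∀ n, ¬ (l : ℤ) ∣ n → (c n = 1 ↔ ∃ x : ZMod l, (n : ZMod l) = x ^ 3)
  norm : nw π = l
  tau3 : τ ^ 3 = l * io π
  unit : ∃ τ', τ * τ' = l
  frob : ∀ (q : ℕ) [Fact q.Prime] (k : Type) [Field k] [CharP k q] (red : Ob →+* k), q ≠ l →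
    q ≠ 3 → red (io (c ((q : ℤ) ^ 2))) * red τ ^ (q ^ 2) = red τ

lemma exists_GD (l : ℕ) : ∃ c π τ, l.Prime → l % 3 = 1 → GD l c π τ := by
  by_cases h : l.Prime ∧ l % 3 = 1
  swap
  · exact ⟨0, 0, 0, fun h1 h2 => absurd ⟨h1, h2⟩ h⟩
  have := Fact.mk h.1
  obtain ⟨χ, π, τ, h1, h2, h3, h4, h5⟩ := exists_gauss l h.2
  have c3 : ∀ x : ZMod l, x ≠ 0 → χ x ^ 3 = 1 := fun x hx => by
    rw [← MulChar.pow_apply' _ (by norm_num), ← h1, pow_orderOf_eq_one,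
      MulChar.one_apply (IsUnit.mk0 _ hx)]
  refine ⟨fun n => χ n, π, τ, fun _ _ => ⟨fun m n => by simp, fun m n e => by simp [e],
    fun n hn => c3 _ (by rwa [Ne, ZMod.intCast_zmod_eq_zero_iff_dvd]), fun n hn => ?_, h2, h3, h4,
    fun q _ k _ _ red a b => by simpa using h5 q k red a b⟩⟩
  have n0 : (n : ZMod l) ≠ 0 := by rwa [Ne, ZMod.intCast_zmod_eq_zero_iff_dvd]
  constructor
  · intro e
    obtain ⟨g, hg⟩ := IsCyclic.exists_monoid_generator (α := (ZMod l)ˣ)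
    have g1 : χ g ≠ 1 := by
      intro e1
      have : χ = 1 := by
        ext1 a
        obtain ⟨k, rfl⟩ := hg a
        simp [e1]
      rw [this, orderOf_one] at h1
      omega
    have := Fact.mk Nat.prime_three
    have o3 : orderOf (χ g) = 3 := orderOf_eq_prime (c3 _ g.ne_zero) g1
    obtain ⟨k, hk⟩ := hg (Units.mk0 _ n0)
    have hk' : (g : ZMod l) ^ k = n := by simpa using congrArg Units.val hk
    rw [← hk', map_pow, ← orderOf_dvd_iff_pow_eq_one, o3] at e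
    obtain ⟨j, rfl⟩ := e
    exact ⟨(g : ZMod l) ^ j, by rw [← hk']; ring⟩
  · rintro ⟨x, hx⟩
    have x0 : x ≠ 0 := by rintro rfl; simp [n0] at hx
    change χ (n : ZMod l) = 1
    rw [hx, map_pow, c3 x x0]

def chi (l : ℕ) : ℤ → Zw := (exists_GD l).choose
def pii (l : ℕ) : Zw := (exists_GD l).choose_spec.choose
def tau (l : ℕ) : Ob := (exists_GD l).choose_spec.choose_spec.choose

lemma gd {l : ℕ} (h1 : l.Prime) (h2 : l % 3 = 1) : GD l (chi l) (pii l) (tau l) :=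
  (exists_GD l).choose_spec.choose_spec.choose_spec h1 h2

variable {a b : ℚ} {F : Type} [Field F] [CharZero F]

/-- The p-adic norm on the Eisenstein integers. -/
def fn (p : ℕ) : Zw →* ℝ :=
  if h : p.Prime then
    haveI := Fact.mk h
    { toFun := fun z => ‖emb ℚ_[p] (io z)‖
      map_one' := by simp
      map_mul' := by simp }
  else 1

/-- The radical attached to exponents. -/
def th (S : Finset ℕ) (e₀ : ℕ) (e : ℕ → ℕ) : Ob := z9 ^ e₀ * ∏ l ∈ S, tau l ^ e l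

end Pool.Agent.MP_e23604_nt

end
end

section

/-!
The full 3-descent.
-/

open scoped Classical

set_option linter.unusedSectionVars false

noncomputable section

namespace Pool.Agent.MP_e23604_nt

/-- Classical decidable equality on Q, to match the generic lemmas. -/
@[reducible] def decQ : DecidableEq ℚ := fun a b => Classical.propDecidable (a = b)

attribute [local instance 2000] decQ

variable {a b : ℚ} {F F' F'' : Type} [Field F] [CharZero F] [Field F'] [CharZero F']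
  [Field F''] [CharZero F'']

lemma act_act (W : WeierstrassCurve ℚ) (f : F →+* F') (g : F' →+* F'') (P : Pts W F) :
    act W g (act W f P) = act W (g.comp f) P := by
  rcases P with _ | ⟨x, y, h⟩ <;> rfl

lemma act_mul (W : WeierstrassCurve ℚ) (σ τ : GQ) (P : Pts W Qb) :
    act W ((σ * τ : GQ) : Qb →+* Qb) P = act W (σ : Qb →+* Qb) (act W (τ : Qb →+* Qb) P) := by
  rcases P with _ | ⟨x, y, h⟩ <;> rfl

lemma act_inj (W : WeierstrassCurve ℚ) (f : F →+* F') : Function.Injective (act W f) :=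
  WeierstrassCurve.Affine.Point.map_injective _

/-- The map E(Q) → E(F). -/
def rp (W : WeierstrassCurve ℚ) (F : Type) [Field F] [CharZero F] : Pts W ℚ →+ Pts W F :=
  act W (Rat.castHom F)

lemma act_rp (W : WeierstrassCurve ℚ) (f : F →+* F') (P : Pts W ℚ) :
    act W f (rp W F P) = rp W F' P := by
  rw [rp, act_act, Subsingleton.elim (f.comp (Rat.castHom F)) (Rat.castHom F')]; rfl

lemma ext_c {P Q : Pts (E3 a b) F} (h0 : P = 0 ↔ Q = 0) (hx : cx P = cx Q) (hy : cy P = cy Q) :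
    P = Q := by
  rcases P with _ | ⟨x, y, h⟩ <;> rcases Q with _ | ⟨x', y', h'⟩
  · rfl
  · exact (h0.1 rfl).symm
  · exact h0.2 rfl
  · change x = x' at hx
    change y = y' at hy
    subst hx hy
    rfl

/-- The coboundary of a point. -/
def dd (W : WeierstrassCurve ℚ) (R : Pts W Qb) : GQ → Pts W Qb :=
  fun σ => act W (σ : Qb →+* Qb) R - R

lemma dd_mem (R : Pts (E3 a b) Qb) : dd (E3 a b) R ∈ cocycles (E3 a b) := by
  constructor
  · rw [IsLocallyConstant.iff_eventually_eq]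
    intro σ
    filter_upwards [(isLC_apply (cx R)).eventually_eq σ, (isLC_apply (cy R)).eventually_eq σ]
      with τ h1 h2
    unfold dd
    congr 1
    refine ext_c ?_ (by rw [cx_act, cx_act]; exact h1) (by rw [cy_act, cy_act]; exact h2)
    rw [map_eq_zero_iff _ (act_inj _ _), map_eq_zero_iff _ (act_inj _ _)]
  · intro σ τ
    simp only [dd, act_mul, map_sub, galQ]
    abel

lemma dd_loc (W : WeierstrassCurve ℚ) (R : Pts W Qb) (F : Type) [Field F] [CharZero F] :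
    LocTriv W F (dd W R) := by
  refine ⟨act W (emb F) R, fun σ τ h => ?_⟩
  rw [dd, map_sub, act_act, act_act]
  congr 2
  ext x
  exact congrFun (congrArg _ (congrArg _ (RingHom.ext h))) _

lemma dd_add (W : WeierstrassCurve ℚ) (R S : Pts W Qb) (σ : GQ) :
    dd W (R + S) σ = dd W R σ + dd W S σ := by
  simp only [dd, map_add]; abel

end Pool.Agent.MP_e23604_nt

end
end
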